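import Mathlib

/-!
# H55P: Selmer groups and Tate-Shafarevich groups by cocycles

`W` is a Weierstrass curve over the number field `F`, `Ω` an algebraic closure of `F`, `K` an intermediate field
(a finite extension of F).  All cocycles are functions on the group of the automorphisms of Ω over F, of which only
the values on the subgroup fixing K matter.
-/

open WeierstrassCurve

namespace H55P

variable {F : Type} [Field F] {Ω : Type} [Field Ω] [DecidableEq Ω] [Algebra F Ω]

/-- The points of the curve over Ω. -/
abbrev Pt (W : WeierstrassCurve F) (Ω : Type) [Field Ω] [Algebra F Ω] : Type := (W⁄Ω).toAffine.Point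

/-- The action of an automorphism of Ω over F on the points over Ω. -/
noncomputable def ac (W : WeierstrassCurve F) (s : Ω ≃ₐ[F] Ω) : Pt W Ω →+ Pt W Ω :=
  Affine.Point.map (W' := W.toAffine) s.toAlgHom

/-- The automorphism s lies in the decomposition group of the valuation ring V. -/
def Dec (V : ValuationSubring Ω) (s : Ω ≃ₐ[F] Ω) : Prop := ∀ x : Ω, s x ∈ V ↔ x ∈ V

/-- The automorphism s lies in the inertia group of the valuation ring V. -/
def Inert (V : ValuationSubring Ω) (s : Ω ≃ₐ[F] Ω) : Prop := ∀ x ∈ V, V.valuation (s x - x) < 1

end H55P
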