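import Mathlib

/-!
# H55B: definitions

The rank part of the Birch and Swinnerton-Dyer conjecture for the curve y^2 + y = x^3
over 2-extensions of the field of cube roots of unity. See PROOF.md.
-/

open NumberField IsDedekindDomain

namespace H55B

/-- The field of third roots of unity. -/
abbrev F : Type := CyclotomicField 3 ℚ

/-- The ring of Eisenstein integers. -/
abbrev O : Type := 𝓞 F

instance instCyc : IsCyclotomicExtension {3} ℚ F := CyclotomicField.isCyclotomicExtension 3 ℚ

instance instPID : IsPrincipalIdealRing O := IsCyclotomicExtension.Rat.three_pid F

lemma zeta_spec : IsPrimitiveRoot (IsCyclotomicExtension.zeta 3 ℚ F) 3 :=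
  IsCyclotomicExtension.zeta_spec 3 ℚ F

/-- A primitive cube root of unity in the Eisenstein integers. -/
noncomputable def om : O := zeta_spec.toInteger

/-- A fixed complex embedding. -/
noncomputable def emb : F →+* ℂ := Classical.arbitrary _

/-- The embedding of the Eisenstein integers. -/
noncomputable def e : O →+* ℂ := emb.comp (algebraMap O F)

end H55B
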