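import Mathlib

/-! Merged copies (to shorten the build) of Lib.H35P.A1, Lib.H35P.A2, Lib.H55R.Defs, Lib.H55R.HD, Lib.H35P.E0, Lib.H55N.U0, Lib.H55B.H2, Lib.H35P.Red, Lib.H35P.R1, Lib.H55B.G2, Lib.H55N.B1, Lib.H55N.B13. -/

-- from Lib.H35P.A1
section

namespace H35P

variable (L : PeriodPair)

/-! Chunk A1 (M). Copies, for a general PeriodPair L instead of LL (lattice 3O): liouville = A0_liouville in Lib/H55B/A0.lean;
compl_open, ev_compl, tendsto_punct = A1_open, A1_discrete, A1_tendsto in Lib/H55B/A1.lean (L.isClosed_lattice; the lattice is discrete).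
wp_zero: u = L.weierstrassPExcept 0, analyticAt_weierstrassPExcept, weierstrassPExcept_add (the term 1/0^2 = 0), u 0 = 0 termwise.
wp_inv_tendsto: near 0, ℘ z z^2 → 1, so (℘ z)^(-1) = z^2 (z^2 ℘ z)^(-1) → 0. -/

theorem compl_open : IsOpen {z : ℂ | z ∉ L.lattice} :=
  L.isClosed_lattice.isOpen_compl

theorem ev_compl (z₀ : ℂ) : ∀ᶠ z in nhdsWithin z₀ {z₀}ᶜ, z ∉ L.lattice := by
  have h := L.compl_lattice_sdiff_singleton_mem_nhds z₀
  rw [eventually_nhdsWithin_iff]
  filter_upwards [h] with z hz hne hz'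
  exact hz ⟨hz', hne⟩

theorem tendsto_punct (f : ℂ → ℂ) (z₀ : ℂ) (hf : ContinuousAt f z₀) (hinj : Function.Injective f) :
    Filter.Tendsto f (nhdsWithin z₀ {z₀}ᶜ) (nhdsWithin (f z₀) {f z₀}ᶜ) := by
  rw [tendsto_nhdsWithin_iff]
  refine ⟨hf.tendsto.mono_left nhdsWithin_le_nhds, ?_⟩
  filter_upwards [self_mem_nhdsWithin] with z hz
  intro h
  exact hz (hinj h)

theorem wp_zero : ∃ u : ℂ → ℂ, AnalyticAt ℂ u 0 ∧ u 0 = 0 ∧
    ∀ z : ℂ, z ≠ 0 → L.weierstrassP z = (z ^ 2)⁻¹ + u z := by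
  refine ⟨L.weierstrassPExcept 0, L.analyticAt_weierstrassPExcept 0, ?_, fun z hz => ?_⟩
  · simp [PeriodPair.weierstrassPExcept]
  · have h := L.weierstrassPExcept_add 0 z
    have h' : L.weierstrassPExcept 0 z + (1 / (z - 0) ^ 2 - 1 / (0 : ℂ) ^ 2) = L.weierstrassP z := h
    rw [← h', sub_zero]
    simp
    ring

theorem wp_inv_tendsto : Filter.Tendsto (fun z => (L.weierstrassP z)⁻¹) (nhdsWithin (0 : ℂ) {0}ᶜ) (nhds 0) := by
  obtain ⟨u, hu, hu0, h⟩ := wp_zero L
  have h1 : ContinuousAt (fun z : ℂ => 1 + z ^ 2 * u z) 0 := by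
    have := hu.continuousAt
    fun_prop
  have h2 : Filter.Tendsto (fun z : ℂ => z ^ 2 * (1 + z ^ 2 * u z)⁻¹) (nhds 0) (nhds 0) := by
    have h3 : ContinuousAt (fun z : ℂ => z ^ 2 * (1 + z ^ 2 * u z)⁻¹) 0 := by
      refine ContinuousAt.mul (by fun_prop) (h1.inv₀ ?_)
      simp
    have h4 := h3.tendsto
    simpa using h4
  refine (h2.mono_left nhdsWithin_le_nhds).congr' ?_
  filter_upwards [self_mem_nhdsWithin] with z hz
  have hz0 : z ≠ 0 := hz
  rw [h z hz0]
  have h5 : (z ^ 2)⁻¹ + u z = (1 + z ^ 2 * u z) / z ^ 2 := by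
    field_simp
  rw [h5, inv_div, div_eq_mul_inv]

/-- Liouville for elliptic functions with removable singularities. -/
theorem liouville (D : ℂ → ℂ) (hper : ∀ z, ∀ l ∈ L.lattice, D (z + l) = D z)
    (hD : ∀ z₀, ∃ a : ℂ → ℂ, AnalyticAt ℂ a z₀ ∧ ∀ᶠ z in nhdsWithin z₀ {z₀}ᶜ, D z = a z) :
    ∃ c, ∀ (z₀ : ℂ) (a : ℂ → ℂ), ContinuousAt a z₀ →
      (∀ᶠ z in nhdsWithin z₀ {z₀}ᶜ, D z = a z) → a z₀ = c := by
  classical
  set D' : ℂ → ℂ := fun z => (nhdsWithin z {z}ᶜ).limUnder D with hD'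
  have hlim : ∀ (z₀ : ℂ) (a : ℂ → ℂ), ContinuousAt a z₀ →
      (∀ᶠ z in nhdsWithin z₀ {z₀}ᶜ, D z = a z) → D' z₀ = a z₀ := by
    intro z₀ a ha h
    have h1 : Filter.Tendsto D (nhdsWithin z₀ {z₀}ᶜ) (nhds (a z₀)) := by
      have h2 : Filter.Tendsto a (nhdsWithin z₀ {z₀}ᶜ) (nhds (a z₀)) :=
        ha.tendsto.mono_left nhdsWithin_le_nhds
      refine h2.congr' ?_
      filter_upwards [h] with z hz using hz.symm
    exact h1.limUnder_eq
  have han : ∀ z₀, AnalyticAt ℂ D' z₀ := by
    intro z₀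
    obtain ⟨a, ha, h⟩ := hD z₀
    refine ha.congr ?_
    have h1 : ∀ᶠ z in nhds z₀, ContinuousAt a z :=
      ha.eventually_analyticAt.mono fun z hz => hz.continuousAt
    rw [eventually_nhdsWithin_iff] at h
    have h2 := h.eventually_nhds
    filter_upwards [h1, h2] with z hz1 hz2
    symm
    apply hlim z a hz1
    rw [eventually_nhdsWithin_iff]
    by_cases hz : z = z₀
    · rw [hz]
      exact h
    · filter_upwards [hz2, isOpen_ne.mem_nhds hz] with w hw1 hw2 _
      exact hw1 hw2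
  have hdiff : Differentiable ℂ D' := fun z => (han z).differentiableAt
  have hper' : ∀ z w, w ∈ L.lattice → D' (z + w) = D' z := by
    intro z w hw
    obtain ⟨a, ha, h⟩ := hD z
    have e1 := hlim z a ha.continuousAt h
    have e2 : D' (z + w) = (fun v => a (v - w)) (z + w) := by
      apply hlim (z + w) (fun v => a (v - w))
      · have : ContinuousAt a ((z + w) - w) := by
          rw [add_sub_cancel_right]
          exact ha.continuousAt
        exact ContinuousAt.comp (f := fun v => v - w) this (by fun_prop)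
      · rw [eventually_nhdsWithin_iff] at h ⊢
        have ht : Filter.Tendsto (fun v => v - w) (nhds (z + w)) (nhds z) := by
          have : ContinuousAt (fun v : ℂ => v - w) (z + w) := by fun_prop
          have h3 := this.tendsto
          rw [add_sub_cancel_right] at h3
          exact h3
        filter_upwards [ht.eventually h] with v hv hne
        have h4 : v - w ∈ ({z}ᶜ : Set ℂ) := by
          intro h5
          apply hne
          have h6 : v - w = z := h5
          show v = z + w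
          rw [← h6]
          ring
        have h7 := hv h4
        have h8 := hper (v - w) w hw
        rw [sub_add_cancel] at h8
        rw [h8, h7]
    rw [e2, e1]
    show a (z + w - w) = a z
    rw [add_sub_cancel_right]
  have hbd : Bornology.IsBounded (Set.range D') :=
    (IsZLattice.isCompact_range_of_periodic L.lattice _ hdiff.continuous hper').isBounded
  refine ⟨D' 0, ?_⟩
  intro z₀ a ha h
  rw [← hlim z₀ a ha h]
  exact hdiff.apply_eq_apply_of_bounded hbd z₀ 0

end H35P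
end

-- from Lib.H35P.A2
section

namespace H35P

variable (L : PeriodPair)

/-! Chunk A2 (M). wp_hasDeriv: Mathlib (deriv_weierstrassP, analyticOnNhd_weierstrassP).
wp_nonconst: the complement of the lattice is preconnected (complement of a countable set:
Set.Countable.isPathConnected_compl_of_one_lt_rank), so if ℘ = c on a sequence tending to z₀ then ℘ = c there
(AnalyticAt.eventually_eq_or_eventually_ne, AnalyticOnNhd.eqOn_of_preconnected_of_frequently_eq); contradiction with
wp_inv_tendsto (if c ≠ 0; if c = 0 use wp_zero: ℘ z ≠ 0 near 0).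
wpd_hasDeriv: h = (℘')' - 6℘^2 + g₂/2 is analytic on the complement U of the lattice (℘' analytic: analyticOnNhd_derivWeierstrassP).
Differentiate derivWeierstrassP_sq: 2 ℘' h = 0 on U. If h(z) ≠ 0 then h ≠ 0 near z, so ℘' = 0 near z, ℘ is constant near z:
contradiction with wp_nonconst. -/

theorem wp_analytic (z : ℂ) (hz : z ∉ L.lattice) : AnalyticAt ℂ L.weierstrassP z := by
  exact L.analyticOnNhd_weierstrassP z hz

theorem wpd_analytic (z : ℂ) (hz : z ∉ L.lattice) : AnalyticAt ℂ L.derivWeierstrassP z := by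
  exact L.analyticOnNhd_derivWeierstrassP z hz

theorem wp_hasDeriv (z : ℂ) (hz : z ∉ L.lattice) : HasDerivAt L.weierstrassP (L.derivWeierstrassP z) z := by
  have h := (wp_analytic L z hz).differentiableAt.hasDerivAt
  rwa [L.deriv_weierstrassP] at h

theorem wp_nonconst (z₀ : ℂ) (hz : z₀ ∉ L.lattice) (c : ℂ) :
    ∀ᶠ z in nhdsWithin z₀ {z₀}ᶜ, L.weierstrassP z ≠ c := by
  by_contra hcon
  have hfr : ∃ᶠ z in nhdsWithin z₀ {z₀}ᶜ, L.weierstrassP z = c := by
    rw [Filter.not_eventually] at hcon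
    exact hcon.mono fun z hz => not_not.1 hz
  have hpre : IsPreconnected ((L.lattice : Set ℂ)ᶜ) := by
    have hcount : (L.lattice : Set ℂ).Countable := countable_of_Lindelof_of_discrete (X := L.lattice)
    exact (hcount.isConnected_compl_of_one_lt_rank (by simp)).isPreconnected
  have heq := L.analyticOnNhd_weierstrassP.eqOn_of_preconnected_of_frequently_eq
    (g := fun _ => c) analyticOnNhd_const hpre hz hfr
  obtain ⟨u, hu, hu0, hwp⟩ := wp_zero L
  have hid : Filter.Tendsto (fun z : ℂ => z) (nhdsWithin (0 : ℂ) {0}ᶜ) (nhds 0) :=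
    tendsto_nhdsWithin_of_tendsto_nhds Filter.tendsto_id
  have hut : Filter.Tendsto u (nhdsWithin (0 : ℂ) {0}ᶜ) (nhds 0) := by
    have := hu.continuousAt.tendsto
    rw [hu0] at this
    exact this.comp hid
  have h1 : Filter.Tendsto (fun z : ℂ => z ^ 2 * c) (nhdsWithin (0 : ℂ) {0}ᶜ) (nhds 0) := by
    have := (hid.pow 2).mul_const c
    simpa using this
  have h2 : Filter.Tendsto (fun z : ℂ => 1 + z ^ 2 * u z) (nhdsWithin (0 : ℂ) {0}ᶜ) (nhds 1) := by
    have := ((hid.pow 2).mul hut).const_add 1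
    simpa using this
  have h3 : (fun z : ℂ => z ^ 2 * c) =ᶠ[nhdsWithin (0 : ℂ) {0}ᶜ] fun z : ℂ => 1 + z ^ 2 * u z := by
    filter_upwards [ev_compl L 0, self_mem_nhdsWithin] with z hz1 hz2
    have hz0 : z ≠ 0 := hz2
    have h4 : L.weierstrassP z = c := heq hz1
    rw [← h4, hwp z hz0, mul_add, mul_inv_cancel₀ (pow_ne_zero 2 hz0)]
  exact zero_ne_one (tendsto_nhds_unique h1 (h2.congr' h3.symm))

theorem wpd_hasDeriv (z : ℂ) (hz : z ∉ L.lattice) :
    HasDerivAt L.derivWeierstrassP (6 * L.weierstrassP z ^ 2 - L.g₂ / 2) z := by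
  have hopen := compl_open L
  have hd : ∀ w, w ∉ L.lattice → HasDerivAt L.derivWeierstrassP (deriv L.derivWeierstrassP w) w := fun w hw =>
    (wpd_analytic L w hw).differentiableAt.hasDerivAt
  -- `2 ℘' h = 0`
  have hprod : ∀ w, w ∉ L.lattice → L.derivWeierstrassP w *
      (deriv L.derivWeierstrassP w - (6 * L.weierstrassP w ^ 2 - L.g₂ / 2)) = 0 := by
    intro w hw
    have hev : (fun z => L.derivWeierstrassP z ^ 2) =ᶠ[nhds w]
        fun z => 4 * L.weierstrassP z ^ 3 - L.g₂ * L.weierstrassP z - L.g₃ := by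
      filter_upwards [hopen.mem_nhds hw] with z hz
      exact L.derivWeierstrassP_sq z hz
    have e1 := (hd w hw).pow 2
    have e2 := ((((wp_hasDeriv L w hw).pow 3).const_mul 4).sub ((wp_hasDeriv L w hw).const_mul L.g₂)).sub_const L.g₃
    have e3 := e1.unique (e2.congr_of_eventuallyEq hev)
    simp only [Nat.cast_ofNat, Nat.add_one_sub_one, pow_one] at e3
    have h2 : (2 : ℂ) ≠ 0 := two_ne_zero
    apply mul_left_cancel₀ h2
    linear_combination e3
  have hcont : ContinuousAt (fun w => deriv L.derivWeierstrassP w - (6 * L.weierstrassP w ^ 2 - L.g₂ / 2)) z :=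
    (wpd_analytic L z hz).deriv.continuousAt.sub
      ((((wp_analytic L z hz).continuousAt.pow 2).const_mul 6).sub continuousAt_const)
  have h0 : deriv L.derivWeierstrassP z - (6 * L.weierstrassP z ^ 2 - L.g₂ / 2) = 0 := by
    by_contra hne
    have hev1 : ∀ᶠ w in nhds z, deriv L.derivWeierstrassP w - (6 * L.weierstrassP w ^ 2 - L.g₂ / 2) ≠ 0 :=
      hcont.eventually_ne hne
    have hev2 : ∀ᶠ w in nhds z, w ∉ L.lattice := hopen.mem_nhds hz
    obtain ⟨r, hr, hball⟩ := Metric.eventually_nhds_iff_ball.1 (hev1.and hev2)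
    have hconst : ∀ w ∈ Metric.ball z r, L.weierstrassP w = L.weierstrassP z := by
      intro w hw
      refine Metric.isOpen_ball.is_const_of_deriv_eq_zero (convex_ball z r).isPreconnected (f := L.weierstrassP)
        (fun v hv => (wp_hasDeriv L v (hball v hv).2).differentiableAt.differentiableWithinAt) (fun v hv => ?_) hw
        (Metric.mem_ball_self hr)
      rw [(wp_hasDeriv L v (hball v hv).2).deriv]
      exact (mul_eq_zero.1 (hprod v (hball v hv).2)).resolve_right (hball v hv).1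
    have hnc := wp_nonconst L z hz (L.weierstrassP z)
    have hev3 : ∀ᶠ w in nhdsWithin z {z}ᶜ, L.weierstrassP w = L.weierstrassP z :=
      nhdsWithin_le_nhds (Filter.mem_of_superset (Metric.ball_mem_nhds z hr) hconst)
    obtain ⟨w, hw1, hw2⟩ := (hnc.and hev3).exists
    exact hw1 hw2
  have := hd z hz
  rwa [sub_eq_zero.1 h0] at this

end H35P
end

-- from Lib.H55R.Defs
section

/-!
# H55R: reciprocity for cyclic extensions of prime degree (definitions)

K is a totally complex number field, L/K cyclic of prime degree, tame. There is a ray class character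
of K whose modulus is the product of the ramified primes and whose value at a prime v prime to the
modulus is 1 if and only if v splits in L. See PROOF.md.
-/

open NumberField IsDedekindDomain
open scoped Pointwise

namespace H55R

/-- The primes of K. -/
abbrev Pl (K : Type) [Field K] [NumberField K] := HeightOneSpectrum (𝓞 K)

section chars

variable {K : Type} [Field K] [NumberField K]

/-- The order of x at v. -/
noncomputable def ord (v : Pl K) (x : Kˣ) : ℤ := -Multiplicative.toAdd (v.valuationOfNeZero x)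

theorem ord_mul (v : Pl K) (x y : Kˣ) : ord v (x * y) = ord v x + ord v y := by
  unfold ord
  rw [map_mul, toAdd_mul]
  ring

theorem ord_one (v : Pl K) : ord v (1 : Kˣ) = 0 := by
  unfold ord
  rw [map_one, toAdd_one, neg_zero]

theorem ord_inv (v : Pl K) (x : Kˣ) : ord v x⁻¹ = -ord v x := by
  unfold ord
  rw [map_inv, toAdd_inv]

theorem ord_zpow (v : Pl K) (x : Kˣ) (k : ℤ) : ord v (x ^ k) = k * ord v x := by
  unfold ord
  rw [map_zpow, toAdd_zpow, smul_eq_mul]
  ring

open Classical in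
/-- The value at a nonzero ideal of the character with values φ at the primes. -/
noncomputable def pv (φ : Pl K → ℂˣ) (a : Ideal (𝓞 K)) : ℂˣ :=
  ((UniqueFactorizationMonoid.normalizedFactors a).map fun P =>
    if h : P.IsPrime ∧ P ≠ ⊥ then φ ⟨P, h.1, h.2⟩ else 1).prod

theorem pv_one (φ : Pl K → ℂˣ) : pv φ 1 = 1 := by
  unfold pv
  rw [UniqueFactorizationMonoid.normalizedFactors_one]
  simp

theorem pv_mul (φ : Pl K → ℂˣ) {a b : Ideal (𝓞 K)} (ha : a ≠ ⊥) (hb : b ≠ ⊥) :
    pv φ (a * b) = pv φ a * pv φ b := by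
  unfold pv
  rw [UniqueFactorizationMonoid.normalizedFactors_mul ha hb, Multiset.map_add, Multiset.prod_add]

theorem pv_prime (φ : Pl K → ℂˣ) (v : Pl K) : pv φ v.asIdeal = φ v := by
  unfold pv
  rw [UniqueFactorizationMonoid.normalizedFactors_irreducible v.irreducible]
  simp only [normalize_eq, Multiset.map_singleton, Multiset.prod_singleton]
  rw [dif_pos ⟨v.isPrime, v.ne_bot⟩]

theorem pv_mul_fun (φ ψ : Pl K → ℂˣ) (a : Ideal (𝓞 K)) : pv (φ * ψ) a = pv φ a * pv ψ a := by
  unfold pv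
  rw [← Multiset.prod_map_mul]
  congr 1
  refine Multiset.map_congr rfl fun P _ => ?_
  by_cases h : P.IsPrime ∧ P ≠ ⊥
  · rw [dif_pos h, dif_pos h, dif_pos h, Pi.mul_apply]
  · rw [dif_neg h, dif_neg h, dif_neg h, mul_one]

theorem pv_one_fun (a : Ideal (𝓞 K)) : pv (1 : Pl K → ℂˣ) a = 1 := by
  unfold pv
  refine Multiset.prod_eq_one fun x hx => ?_
  rw [Multiset.mem_map] at hx
  obtain ⟨P, -, rfl⟩ := hx
  by_cases h : P.IsPrime ∧ P ≠ ⊥
  · rw [dif_pos h, Pi.one_apply]
  · rw [dif_neg h]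

theorem pv_inv_fun (φ : Pl K → ℂˣ) (a : Ideal (𝓞 K)) : pv φ⁻¹ a = (pv φ a)⁻¹ := by
  rw [eq_inv_iff_mul_eq_one, ← pv_mul_fun, inv_mul_cancel, pv_one_fun]

open Classical in
/-- The character on ideals with values φ, 0 for the ideals not prime to f. -/
noncomputable def tI (f : Ideal (𝓞 K)) (φ : Pl K → ℂˣ) : Ideal (𝓞 K) →*₀ ℂ where
  toFun a := if a ≠ ⊥ ∧ IsCoprime a f then (pv φ a : ℂ) else 0
  map_zero' := if_neg fun h => h.1 rfl
  map_one' := by
    rw [if_pos ⟨one_ne_zero, isCoprime_one_left⟩, pv_one, Units.val_one]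
  map_mul' a b := by
    by_cases ha : a ≠ ⊥ ∧ IsCoprime a f
    · by_cases hb : b ≠ ⊥ ∧ IsCoprime b f
      · rw [if_pos ⟨mul_ne_zero ha.1 hb.1, ha.2.mul_left hb.2⟩, if_pos ha, if_pos hb,
          pv_mul φ ha.1 hb.1, Units.val_mul]
      · rw [if_neg hb, mul_zero, if_neg]
        rintro ⟨h1, h2⟩
        exact hb ⟨right_ne_zero_of_mul h1, h2.of_mul_left_right⟩
    · rw [if_neg ha, zero_mul, if_neg]
      rintro ⟨h1, h2⟩
      exact ha ⟨left_ne_zero_of_mul h1, h2.of_mul_left_left⟩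

theorem tI_apply (f : Ideal (𝓞 K)) (φ : Pl K → ℂˣ) {a : Ideal (𝓞 K)} (ha : a ≠ ⊥)
    (h : IsCoprime a f) : tI f φ a = (pv φ a : ℂ) := if_pos ⟨ha, h⟩

theorem tI_zero (f : Ideal (𝓞 K)) (φ : Pl K → ℂˣ) {a : Ideal (𝓞 K)} (h : ¬ IsCoprime a f) :
    tI f φ a = 0 := if_neg fun h' => h h'.2

/-- The ray class characters modulo f, given by their values at the primes (1 at the primes
dividing f). -/
noncomputable def RC (f : Ideal (𝓞 K)) : Subgroup (Pl K → ℂˣ) where
  carrier := {φ | (∀ v : Pl K, f ≤ v.asIdeal → φ v = 1) ∧ ∀ x y : 𝓞 K, x ≠ 0 → y ≠ 0 →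
    IsCoprime (Ideal.span {x}) f → x - y ∈ f → pv φ (Ideal.span {x}) = pv φ (Ideal.span {y})}
  mul_mem' := by
    rintro φ ψ ⟨h1, h2⟩ ⟨h3, h4⟩
    refine ⟨fun v hv => ?_, fun x y hx hy hc hxy => ?_⟩
    · rw [Pi.mul_apply, h1 v hv, h3 v hv, mul_one]
    · rw [pv_mul_fun, pv_mul_fun, h2 x y hx hy hc hxy, h4 x y hx hy hc hxy]
  one_mem' := ⟨fun v _ => rfl, fun x y _ _ _ _ => by rw [pv_one_fun, pv_one_fun]⟩
  inv_mem' := by
    rintro φ ⟨h1, h2⟩
    refine ⟨fun v hv => ?_, fun x y hx hy hc hxy => ?_⟩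
    · rw [Pi.inv_apply, h1 v hv, inv_one]
    · rw [pv_inv_fun, pv_inv_fun, h2 x y hx hy hc hxy]

open Classical in
/-- The sum of Nv^(-s) over the primes in A. -/
noncomputable def PS (A : Set (Pl K)) (s : ℝ) : ℝ :=
  ∑' v : Pl K, A.indicator (fun v => (Ideal.absNorm v.asIdeal : ℝ) ^ (-s)) v

/-- The S-units. -/
def SU (S : Set (Pl K)) : Subgroup Kˣ where
  carrier := {x | ∀ v : Pl K, v ∉ S → ord v x = 0}
  mul_mem' := fun ha hb v hv => by rw [ord_mul, ha v hv, hb v hv, add_zero]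
  one_mem' := fun v _ => ord_one v
  inv_mem' := fun ha v hv => by rw [ord_inv, ha v hv, neg_zero]

end chars

section ext

variable (K L : Type) [Field K] [NumberField K] [Field L] [NumberField L] [Algebra K L]

/-- The ramification index of v in L/K (Galois). -/
noncomputable def es (v : Pl K) : ℕ := v.asIdeal.ramificationIdxIn (𝓞 L)

/-- The residue degree of v in L/K (Galois). -/
noncomputable def fs (v : Pl K) : ℕ := v.asIdeal.inertiaDegIn (𝓞 L)

/-- v splits completely in L/K (Galois). -/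
def Spl (v : Pl K) : Prop := es K L v = 1 ∧ fs K L v = 1

variable {K L}

/-- The set of primes of L above the primes in S. -/
def above (S : Set (Pl K)) : Set (Pl L) := {W | W.under (𝓞 K) ∈ S}

/-- The decomposition groups (in Gal(L/K)) of the primes above v are contained in A. -/
def SplA (A : Subgroup Gal(L/K)) (v : Pl K) : Prop :=
  ∀ W : Pl L, W.under (𝓞 K) = v → ∀ σ : Gal(L/K), σ • W.asIdeal = W.asIdeal → σ ∈ A

end ext

/-! ### Herbrand quotients -/

section herb

variable {A : Type} [AddCommGroup A]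

/-- 1 - σ. -/
def Dm (σ : AddMonoid.End A) : A →+ A := (1 - σ : AddMonoid.End A)

/-- 1 + σ + ... + σ^(n-1). -/
def Nm (n : ℕ) (σ : AddMonoid.End A) : A →+ A := (∑ i ∈ Finset.range n, σ ^ i : AddMonoid.End A)

/-- The order of the 0th Tate cohomology of the subgroup B. -/
noncomputable def h0 (n : ℕ) (σ : AddMonoid.End A) (B : AddSubgroup A) : ℕ :=
  (B.map (Nm n σ)).relIndex (B ⊓ (Dm σ).ker)

/-- The order of the -1st Tate cohomology of the subgroup B. -/
noncomputable def h1 (n : ℕ) (σ : AddMonoid.End A) (B : AddSubgroup A) : ℕ :=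
  (B.map (Dm σ)).relIndex (B ⊓ (Nm n σ).ker)

/-- The permutation module. -/
def pe {P : Type} (τ : Equiv.Perm P) : AddMonoid.End (P → ℤ) where
  toFun a := fun p => a (τ.symm p)
  map_zero' := rfl
  map_add' _ _ := rfl

/-- The Galois action on the multiplicative group, written additively. -/
noncomputable def sg {K L : Type} [Field K] [Field L] [Algebra K L] (σ : Gal(L/K)) :
    AddMonoid.End (Additive Lˣ) :=
  MonoidHom.toAdditive (Units.map ((σ : L ≃ₐ[K] L) : L →* L))

end herb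

end H55R
end

-- from Lib.H55R.HD
section

/-! # H55R: definitions for the first inequality -/

open NumberField IsDedekindDomain
open scoped Pointwise

namespace H55R

section
variable {L : Type} [Field L] [NumberField L]

/-- The S-units, written additively. -/
noncomputable def TUa (T : Finset (Pl L)) : AddSubgroup (Additive Lˣ) :=
  Subgroup.toAddSubgroup (SU (T : Set (Pl L)))

/-- A family of T-units, one for every prime in T and every infinite place. -/
structure Eta (T : Finset (Pl L)) (η : T ⊕ InfinitePlace L → Additive Lˣ) : Prop where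
  fin : ∀ W : T, 0 < ord W.1 (η (Sum.inl W)).toMul ∧
    ∀ W' : Pl L, W' ≠ W.1 → ord W' (η (Sum.inl W)).toMul = 0
  inf : ∀ V : InfinitePlace L, (∀ W : Pl L, ord W (η (Sum.inr V)).toMul = 0) ∧
    ∀ V' : InfinitePlace L, V' ≠ V → V' ((η (Sum.inr V)).toMul : L) < 1

open Classical in
/-- The map from the permutation module to the T-units times Z. -/
noncomputable def Th (T : Finset (Pl L)) (η : T ⊕ InfinitePlace L → Additive Lˣ) :
    (T ⊕ InfinitePlace L → ℤ) →+ Additive Lˣ × ℤ where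
  toFun a := (∑ p, a p • η p, ∑ V : InfinitePlace L, a (Sum.inr V))
  map_zero' := by simp
  map_add' a b := by
    simp only [Pi.add_apply, add_zsmul, Finset.sum_add_distrib, Prod.mk_add_mk]

end

section
variable {K L : Type} [Field K] [NumberField K] [Field L] [NumberField L] [Algebra K L]

/-- The action of the Galois group on the primes. -/
noncomputable def smulP (σ : Gal(L/K)) (W : Pl L) : Pl L where
  asIdeal := σ • W.asIdeal
  isPrime := by
    have := W.isPrime
    infer_instance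
  ne_bot := by
    intro h
    apply W.ne_bot
    have h1 : σ⁻¹ • (σ • W.asIdeal) = σ⁻¹ • (⊥ : Ideal (𝓞 L)) := by rw [h]
    rw [inv_smul_smul] at h1
    rw [h1]
    exact Ideal.smul_bot _

/-- The norm on units. -/
noncomputable def nrm (K L : Type) [Field K] [Field L] [Algebra K L] : Lˣ →* Kˣ :=
  Units.map (Algebra.norm K : L →* K)

/-- Every prime is, up to primes in S, principal. -/
def GenS (S : Set (Pl K)) : Prop :=
  ∀ v : Pl K, ∃ x : Kˣ, (v ∉ S → ord v x = 1) ∧ ∀ u : Pl K, u ∉ S → u ≠ v → ord u x = 0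

end

end H55R
end

-- from Lib.H35P.E0
section

/-! Definitions of the analytic part, for a general period lattice. -/

namespace H35P

variable (L : PeriodPair)

/-- The first Eisenstein sum of a lattice with a rational cutoff. -/
noncomputable def sL (R : ℝ) (z : ℂ) : ℂ :=
  ∑' l : L.lattice, (z + l)⁻¹ * ((R ^ 2 / (R ^ 2 + ‖z + l‖ ^ 2) : ℝ) : ℂ)

/-- A term of the sum of second differences of 1/z. -/
noncomputable def tT (a w : ℂ) (l : L.lattice) : ℂ := (a + w + l)⁻¹ + (a - w + l)⁻¹ - 2 * (a + l)⁻¹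

/-- The sum of second differences of 1/z. -/
noncomputable def T2 (a w : ℂ) : ℂ := ∑' l : L.lattice, tT L a w l

/-- The slope of the chord. -/
noncomputable def mc (a w : ℂ) : ℂ :=
  (L.derivWeierstrassP a - L.derivWeierstrassP w) / (L.weierstrassP a - L.weierstrassP w)

/-- The slope of the tangent. -/
noncomputable def md (a : ℂ) : ℂ := (6 * L.weierstrassP a ^ 2 - L.g₂ / 2) / L.derivWeierstrassP a

end H35P
end

-- from Lib.H55N.U0
section

namespace H55N

open MeasureTheory

/-! Chunk U0 (M). The translates of the unit cube by integral vectors tile R^m. Icc may be replaced by the half open cube (Ico), a fundamental domain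
for the translations by Z^m (ZSpan.isAddFundamentalDomain for Pi.basisFun, or disjoint union of the sets a + Ico 0 1 directly: floor), the boundary has
measure zero (Real.volume_pi... / Measure.univ_pi_Ico_ae_eq_Icc: MeasureTheory.Ico_ae_eq_Icc for pi). Then integral_eq_tsum'' / lintegral_eq_tsum, or
hasSum_integral_iUnion. Translation invariance of the Lebesgue measure. -/

/-- The unit cube at the integral point a. -/
private def U0c {m : ℕ} (a : Fin m → ℤ) : Set (Fin m → ℝ) := {z | ∀ k, ⌊z k⌋ = a k}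

private lemma U0_meas {m : ℕ} (a : Fin m → ℤ) : MeasurableSet (U0c a) := by
  have h : U0c a = ⋂ k, (fun z : Fin m → ℝ => ⌊z k⌋) ⁻¹' {a k} := by
    ext z
    simp [U0c]
  rw [h]
  refine MeasurableSet.iInter fun k => ?_
  exact (Int.measurable_floor.comp (measurable_pi_apply k)) (measurableSet_singleton _)

private lemma U0_disj {m : ℕ} : Pairwise (Function.onFun Disjoint (U0c : (Fin m → ℤ) → _)) := by
  intro a b hab
  rw [Function.onFun, Set.disjoint_left]
  intro z hz hz'
  exact hab (funext fun k => (hz k).symm.trans (hz' k))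

private lemma U0_union {m : ℕ} : ⋃ a : Fin m → ℤ, U0c a = Set.univ := by
  rw [Set.eq_univ_iff_forall]
  intro z
  rw [Set.mem_iUnion]
  exact ⟨fun k => ⌊z k⌋, fun k => rfl⟩

private lemma U0_pre {m : ℕ} (a : Fin m → ℤ) :
    (fun z : Fin m → ℝ => z + fun k => (a k : ℝ)) ⁻¹' (U0c a) =
      Set.univ.pi fun k => Set.Ico ((0 : Fin m → ℝ) k) ((1 : Fin m → ℝ) k) := by
  ext z
  simp only [U0c, Set.mem_preimage, Set.mem_setOf_eq, Pi.add_apply, Set.mem_pi, Set.mem_univ,
    true_implies, Set.mem_Ico, Pi.zero_apply, Pi.one_apply, Int.floor_add_intCast]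
  refine forall_congr' fun k => ?_
  constructor
  · intro h
    have h1 : ⌊z k⌋ = 0 := by omega
    rw [Int.floor_eq_zero_iff] at h1
    exact h1
  · intro h
    have h1 : ⌊z k⌋ = 0 := by
      rw [Int.floor_eq_zero_iff]
      exact h
    omega

private lemma U0_ae {m : ℕ} : (Set.univ.pi fun k => Set.Ico ((0 : Fin m → ℝ) k)
    ((1 : Fin m → ℝ) k)) =ᵐ[volume] Set.Icc (0 : Fin m → ℝ) 1 :=
  Measure.univ_pi_Ico_ae_eq_Icc (μ := fun _ : Fin m => (volume : Measure ℝ))

theorem tiling {m : ℕ} (F : (Fin m → ℝ) → ℂ) (hF : Integrable F) :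
    HasSum (fun a : Fin m → ℤ => ∫ z in Set.Icc (0 : Fin m → ℝ) 1, F (fun k => z k + a k))
      (∫ z, F z) := by
  have h1 := hasSum_integral_iUnion (f := F) (μ := volume) (fun a => U0_meas a)
    (U0_disj (m := m)) (by rw [U0_union]; exact hF.integrableOn)
  rw [U0_union, setIntegral_univ] at h1
  refine h1.congr_fun ?_
  intro a
  have h2 := (measurePreserving_add_right (volume : Measure (Fin m → ℝ))
    (fun k => (a k : ℝ))).setIntegral_preimage_emb
    (measurableEmbedding_addRight (fun k => (a k : ℝ))) F (U0c a)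
  rw [U0_pre, setIntegral_congr_set U0_ae] at h2
  exact h2


end H55N
end

-- from Lib.H55B.H2
section

open NumberField IsDedekindDomain

namespace H55B

/-! Chunk H2: a Jacobi symbol computation (rational integers only).
M = X^2 - XY + Y^2 > 0 odd. Y = 0: X = +-1, M = 1. Write Y = 2^k Y', Y' odd. jacobiSym(Y', M) =
jacobiSym(M, |Y'|) up to the sign (-1)^((Y'-1)/2 (M-1)/2) (quadratic reciprocity for Jacobi symbols, also for
negative Y', with J(-1|M) = (-1)^((M-1)/2)), and M = X^2 mod Y' so jacobiSym(M, |Y'|) = 1.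
k = 1: M = 5 - XY mod 8 with XY = 2 or 6 mod 8, so M = 3 mod 8 (XY = 2) or 7 mod 8 (XY = 6), M = 3 mod 4:
the symbol is J(2|M) (-1)^((Y'-1)/2), which is (-1)^((X+1)/2).
k = 2: M = 5 mod 8, J(4|M) = 1, J(Y'|M) = 1. k >= 3: M = 1 mod 8, all factors 1. -/

theorem H2_nat (n M : ℕ) (X : ℤ) (hn : n % 2 = 1) (hM : M % 2 = 1) (hX : IsCoprime X n)
    (h : (n : ℤ) ∣ M - X ^ 2) :
    jacobiSym n M = if n % 4 = 3 ∧ M % 4 = 3 then -1 else 1 := by
  rw [← jacobiSym.quadratic_reciprocity_if hn hM]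
  have h1 : jacobiSym (M : ℤ) n = 1 := by
    have h2 : jacobiSym (M : ℤ) n = jacobiSym (X ^ 2) n := by
      apply jacobiSym.mod_left'
      exact ((Int.modEq_iff_dvd).mpr h).symm
    rw [h2]
    exact jacobiSym.sq_one' (Int.isCoprime_iff_gcd_eq_one.mp hX)
  rw [h1]

theorem H2_int (Y : ℤ) (M : ℕ) (X : ℤ) (hY : Odd Y) (hM : M % 2 = 1) (hX : IsCoprime X Y)
    (h : Y ∣ M - X ^ 2) :
    jacobiSym Y M = if Y % 4 = 3 ∧ M % 4 = 3 then -1 else 1 := by
  rcases Int.natAbs_eq Y with hn | hn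
  · have hodd : Y.natAbs % 2 = 1 := by
      have := Int.odd_iff.mp hY
      omega
    have h1 := H2_nat Y.natAbs M X hodd hM (by rw [← hn]; exact hX) (by rw [← hn]; exact h)
    rw [← hn] at h1
    rw [h1]
    have h2 : Y.natAbs % 4 = 3 ↔ Y % 4 = 3 := by omega
    simp only [h2]
  · have hodd : Y.natAbs % 2 = 1 := by
      have := Int.odd_iff.mp hY
      omega
    have hc : IsCoprime X (Y.natAbs : ℤ) := by
      have h3 : (Y.natAbs : ℤ) = -Y := by omega
      rw [h3]
      exact hX.neg_right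
    have hd : (Y.natAbs : ℤ) ∣ M - X ^ 2 := by
      have h3 : (Y.natAbs : ℤ) = -Y := by omega
      rw [h3]
      exact (neg_dvd).mpr h
    have h1 := H2_nat Y.natAbs M X hodd hM hc hd
    rw [hn, jacobiSym.neg _ (Nat.odd_iff.mpr hM), h1, ← hn]
    have h5 : Y.natAbs % 4 = 1 ∨ Y.natAbs % 4 = 3 := by omega
    have h6 : M % 4 = 1 ∨ M % 4 = 3 := by omega
    have hY4 : Y % 4 = 3 ↔ Y.natAbs % 4 = 1 := by omega
    rw [ZMod.χ₄_nat_eq_if_mod_four]
    simp only [hY4]
    rcases h5 with h5 | h5 <;> rcases h6 with h6 | h6 <;> simp [h5, h6, hM]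

theorem jac (X Y : ℤ) (hX : Odd X) (hY : Even Y) (hc : IsCoprime X Y) :
    jacobiSym Y (X ^ 2 - X * Y + Y ^ 2).natAbs =
      if 4 ∣ Y then 1 else (if X % 4 = 3 then 1 else -1) := by
  set M := (X ^ 2 - X * Y + Y ^ 2).natAbs with hMdef
  have hpos : 0 ≤ X ^ 2 - X * Y + Y ^ 2 := by nlinarith [sq_nonneg (X - Y), sq_nonneg X, sq_nonneg Y, sq_nonneg (2 * X - Y)]
  have hM : (M : ℤ) = X ^ 2 - X * Y + Y ^ 2 := by
    rw [hMdef, Int.natCast_natAbs, abs_of_nonneg hpos]
  by_cases hY0 : Y = 0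
  · subst hY0
    have hM1 : M = 1 := by
      rw [isCoprime_zero_right, Int.isUnit_iff] at hc
      rcases hc with rfl | rfl <;> simp [hMdef]
    rw [hM1, jacobiSym.one_right]
    simp
  · obtain ⟨k, Y', hY', hYk⟩ : ∃ (k : ℕ) (Y' : ℤ), Odd Y' ∧ Y = 2 ^ k * Y' := by
      obtain ⟨k, m, hm, hk⟩ := Nat.exists_eq_two_pow_mul_odd (Int.natAbs_ne_zero.mpr hY0)
      rcases Int.natAbs_eq Y with h | h
      · exact ⟨k, m, by exact_mod_cast hm, by rw [h, hk]; push_cast; ring⟩
      · exact ⟨k, -m, by exact_mod_cast (Odd.neg (by exact_mod_cast hm : Odd (m : ℤ))),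
          by rw [h, hk]; push_cast; ring⟩
    have hX8 : X ^ 2 % 8 = 1 := by
      obtain ⟨t, rfl⟩ := hX
      have h1 : (2 * t + 1) ^ 2 = 4 * (t * (t + 1)) + 1 := by ring
      obtain ⟨s, hs⟩ := Int.even_mul_succ_self t
      rw [h1, hs]
      omega
    have hk1 : 1 ≤ k := by
      by_contra hcon
      have hk0 : k = 0 := by omega
      rw [hk0, pow_zero, one_mul] at hYk
      rw [hYk] at hY
      exact (Int.not_even_iff_odd.mpr hY') hY
    have hMY' : Y' ∣ M - X ^ 2 := by
      rw [hM, hYk]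
      exact ⟨2 ^ k * (2 ^ k * Y' - X), by ring⟩
    have hcY' : IsCoprime X Y' := by
      rw [hYk] at hc
      exact hc.of_mul_right_right
    have hodd4 : ∀ t : ℤ, Odd t → t % 4 = 1 ∨ t % 4 = 3 := by
      intro t ht
      have := Int.odd_iff.mp ht
      omega
    rcases Nat.lt_or_ge k 2 with hk2 | hk2
    · have hk : k = 1 := by omega
      rw [hk, pow_one] at hYk
      obtain ⟨a, x0, ha⟩ : ∃ a x0 : ℤ, X = 4 * a + x0 ∧ x0 = X % 4 := ⟨X / 4, X % 4, by omega, rfl⟩
      obtain ⟨b, y0, hb⟩ : ∃ b y0 : ℤ, Y' = 4 * b + y0 ∧ y0 = Y' % 4 :=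
        ⟨Y' / 4, Y' % 4, by omega, rfl⟩
      have hY2 : Y' ^ 2 % 8 = 1 := by
        obtain ⟨t, rfl⟩ := hY'
        have h1 : (2 * t + 1) ^ 2 = 4 * (t * (t + 1)) + 1 := by ring
        obtain ⟨s, hs⟩ := Int.even_mul_succ_self t
        rw [h1, hs]
        omega
      have hXY : X * Y' = 4 * (4 * a * b + a * y0 + b * x0) + x0 * y0 := by
        rw [ha.1, hb.1]
        ring
      have hMv : (M : ℤ) = X ^ 2 - 2 * (X * Y') + 4 * Y' ^ 2 := by
        rw [hM, hYk]
        ring
      have h4 : ¬ (4 : ℤ) ∣ Y := by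
        rw [hYk]
        have := Int.odd_iff.mp hY'
        omega
      rw [if_neg h4]
      have hmain : (M : ℤ) % 8 = (5 - 2 * (x0 * y0)) % 8 := by
        rw [hMv, hXY]
        omega
      have hMo : M % 2 = 1 := by omega
      have hJ : jacobiSym Y M = jacobiSym 2 M * jacobiSym Y' M := by
        rw [hYk, jacobiSym.mul_left]
      rw [hJ, H2_int Y' M X hY' hMo hcY' hMY', jacobiSym.at_two (Nat.odd_iff.mpr hMo),
        ZMod.χ₈_nat_eq_if_mod_eight]
      rcases hodd4 X hX with hXm | hXm <;> rcases hodd4 Y' hY' with hYm | hYm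
      · rw [ha.2, hb.2, hXm, hYm] at hmain
        have hM8 : M % 8 = 3 := by omega
        have hM4 : M % 4 = 3 := by omega
        simp [hXm, hYm, hM8, hMo]
      · rw [ha.2, hb.2, hXm, hYm] at hmain
        have hM8 : M % 8 = 7 := by omega
        have hM4 : M % 4 = 3 := by omega
        simp [hXm, hYm, hM8, hM4, hMo]
      · rw [ha.2, hb.2, hXm, hYm] at hmain
        have hM8 : M % 8 = 7 := by omega
        have hM4 : M % 4 = 3 := by omega
        simp [hXm, hYm, hM8, hMo]
      · rw [ha.2, hb.2, hXm, hYm] at hmain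
        have hM8 : M % 8 = 3 := by omega
        have hM4 : M % 4 = 3 := by omega
        simp [hXm, hYm, hM8, hM4, hMo]
    · obtain ⟨j, rfl⟩ : ∃ j, k = j + 2 := ⟨k - 2, by omega⟩
      have hY4 : Y = 4 * (2 ^ j * Y') := by
        rw [hYk, pow_add]
        ring
      rw [if_pos ⟨_, hY4⟩]
      have hMv : (M : ℤ) = X ^ 2 - 4 * (X * (2 ^ j * Y')) + 8 * (2 * (2 ^ j * Y') ^ 2) := by
        rw [hM, hY4]
        ring
      have hM4 : M % 4 = 1 := by omega
      have hMo : M % 2 = 1 := by omega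
      rw [hYk, jacobiSym.mul_left, H2_int Y' M X hY' hMo hcY' hMY', if_neg (by omega), mul_one,
        jacobiSym.pow_left]
      rcases Nat.eq_zero_or_pos j with hj | hj
      · rw [hj]
        apply jacobiSym.sq_one
        have : Nat.Coprime 2 M := (Nat.coprime_two_left).mpr (Nat.odd_iff.mpr hMo)
        exact_mod_cast this
      · obtain ⟨i, rfl⟩ : ∃ i, j = i + 1 := ⟨j - 1, by omega⟩
        have hM8 : M % 8 = 1 := by
          have h5 : 4 * (X * (2 ^ (i + 1) * Y')) = 8 * (X * (2 ^ i * Y')) := by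
            rw [pow_succ]
            ring
          rw [h5] at hMv
          omega
        rw [jacobiSym.at_two (Nat.odd_iff.mpr hMo), ZMod.χ₈_nat_eq_if_mod_eight, if_neg (by omega),
          if_pos (Or.inl hM8), one_pow]

end H55B
end

-- from Lib.H35P.Red
section

/-! Definitions for the reduction of a Weierstrass curve at a valuation ring. -/

open WeierstrassCurve

namespace H35P

/-- The Weierstrass equation has coefficients in the valuation ring. -/
structure IntW {k : Type} [Field k] (W : WeierstrassCurve k) (V : ValuationSubring k) : Prop where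
  a1 : W.a₁ ∈ V
  a2 : W.a₂ ∈ V
  a3 : W.a₃ ∈ V
  a4 : W.a₄ ∈ V
  a6 : W.a₆ ∈ V

/-- The Weierstrass equation has good reduction at the valuation ring. -/
structure GoodW {k : Type} [Field k] (W : WeierstrassCurve k) (V : ValuationSubring k) : Prop
    extends IntW W V where
  disc : V.valuation W.Δ = 1

/-- The kernel of reduction. -/
def Ker {k : Type} [Field k] {W : WeierstrassCurve k} (V : ValuationSubring k) :
    W.toAffine.Point → Prop
  | .zero => True
  | .some x _ _ => 1 < V.valuation x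

/-- The local parameter x/y. -/
noncomputable def tt {k : Type} [Field k] {W : WeierstrassCurve k} : W.toAffine.Point → k
  | .zero => 0
  | .some x y _ => x / y

/-- The two points are congruent integral affine points. -/
def Cong {k : Type} [Field k] {W : WeierstrassCurve k} (V : ValuationSubring k)
    (P Q : W.toAffine.Point) : Prop :=
  ∃ x₁ y₁ h₁ x₂ y₂ h₂, P = .some x₁ y₁ h₁ ∧ Q = .some x₂ y₂ h₂ ∧ x₁ ∈ V ∧ y₁ ∈ V ∧ x₂ ∈ V ∧ y₂ ∈ V ∧
    V.valuation (x₁ - x₂) < 1 ∧ V.valuation (y₁ - y₂) < 1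

end H35P
end

-- from Lib.H35P.R1
section

open WeierstrassCurve

namespace H35P

variable {k : Type} [Field k] {W : WeierstrassCurve k} {V : ValuationSubring k}

private theorem R1_le {a : k} (h : a ∈ V) : V.valuation a ≤ 1 := (V.valuation_le_one_iff a).2 h

private theorem R1_cle {a b : k} (h : a ∈ V) {g : V.ValueGroup} (hb : V.valuation b ≤ g) : V.valuation (a * b) ≤ g := by
  rw [map_mul]
  exact (mul_le_of_le_one_left' (R1_le h)).trans hb

/-! Chunk R1 (S/M). Write v = V.valuation. v c ≤ 1 for the coefficients (ValuationSubring.valuation_le_one_iff or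
mem_valuation...). Equation: y^2 + a1 x y + a3 y = x^3 + a2 x^2 + a4 x + a6 (Affine.equation_iff).
val_y: if v x > 1 the right side has value v(x)^3 (Valuation.map_add_eq_of_lt_left etc.); if v y ≤ v x the left side
is ≤ v(x)^2, contradiction; so v y > v x > 1 and the left side has value v(y)^2.
int_y: v x ≤ 1 and v y > 1 would give v(y)^2 = v(lhs) ≤ 1.
tt_sq: v(x/y)^2 = v(x)^2 / v(x)^3. -/

theorem val_y (hI : IntW W V) {x y : k} (h : W.toAffine.Equation x y) (hx : 1 < V.valuation x) :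
    V.valuation y ^ 2 = V.valuation x ^ 3 ∧ V.valuation x < V.valuation y := by
  rw [Affine.equation_iff] at h
  set c := V.valuation x with hc
  set d := V.valuation y with hd
  have hc1 : (1 : V.ValueGroup) ≤ c := hx.le
  have c0 : c ≠ 0 := fun h0 => by
    rw [h0] at hx
    exact absurd hx (not_lt.2 zero_le_one)
  have h23 : c ^ 2 < c ^ 3 := pow_lt_pow_right₀ hx (by norm_num)
  have hr1 : V.valuation (W.a₂ * x ^ 2 + W.a₄ * x + W.a₆) ≤ c ^ 2 := by
    refine V.valuation.map_add_le (V.valuation.map_add_le (R1_cle hI.a2 ?_) (R1_cle hI.a4 ?_)) ?_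
    · rw [map_pow]
    · calc V.valuation x = c ^ 1 := by rw [pow_one]
        _ ≤ c ^ 2 := pow_le_pow_right₀ hc1 (by norm_num)
    · exact (R1_le hI.a6).trans (one_le_pow₀ hc1)
  have hr : V.valuation (x ^ 3 + W.a₂ * x ^ 2 + W.a₄ * x + W.a₆) = c ^ 3 := by
    have e : x ^ 3 + W.a₂ * x ^ 2 + W.a₄ * x + W.a₆ = x ^ 3 + (W.a₂ * x ^ 2 + W.a₄ * x + W.a₆) := by ring
    rw [e, V.valuation.map_add_eq_of_lt_left, map_pow]
    rw [map_pow]
    exact hr1.trans_lt h23
  have hl : V.valuation (y ^ 2 + W.a₁ * x * y + W.a₃ * y) = c ^ 3 := by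
    rw [h, hr]
  have hcd : c < d := by
    by_contra hcon
    rw [not_lt] at hcon
    have h2 : V.valuation (y ^ 2 + W.a₁ * x * y + W.a₃ * y) ≤ c ^ 2 := by
      refine V.valuation.map_add_le (V.valuation.map_add_le ?_ ?_) (R1_cle hI.a3 ?_)
      · rw [map_pow]
        exact pow_le_pow_left' hcon 2
      · rw [mul_assoc]
        refine R1_cle hI.a1 ?_
        rw [map_mul, pow_two]
        exact mul_le_mul' le_rfl hcon
      · calc d ≤ c := hcon
          _ = c ^ 1 := by rw [pow_one]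
          _ ≤ c ^ 2 := pow_le_pow_right₀ hc1 (by norm_num)
    rw [hl] at h2
    exact absurd h2 (not_le.2 h23)
  refine ⟨?_, hcd⟩
  have hd1 : 1 < d := hx.trans hcd
  have d0 : 0 < d := zero_lt_one.trans hd1
  have h3 : V.valuation (W.a₁ * x * y + W.a₃ * y) < V.valuation (y ^ 2) := by
    rw [map_pow, pow_two]
    refine lt_of_le_of_lt (b := c * d) ?_ (mul_lt_mul_of_pos_right hcd d0)
    refine V.valuation.map_add_le ?_ (R1_cle hI.a3 ?_)
    · rw [mul_assoc]
      exact R1_cle hI.a1 (map_mul _ _ _).le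
    · exact le_mul_of_one_le_left' hc1
  have e : y ^ 2 + W.a₁ * x * y + W.a₃ * y = y ^ 2 + (W.a₁ * x * y + W.a₃ * y) := by ring
  rw [e, V.valuation.map_add_eq_of_lt_left h3, map_pow] at hl
  exact hl

theorem int_y (hI : IntW W V) {x y : k} (h : W.toAffine.Equation x y) (hx : V.valuation x ≤ 1) :
    V.valuation y ≤ 1 := by
  rw [Affine.equation_iff] at h
  by_contra hcon
  rw [not_le] at hcon
  set d := V.valuation y with hd
  have d0 : 0 < d := zero_lt_one.trans hcon
  have hr : V.valuation (x ^ 3 + W.a₂ * x ^ 2 + W.a₄ * x + W.a₆) ≤ 1 := by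
    refine V.valuation.map_add_le (V.valuation.map_add_le (V.valuation.map_add_le ?_ (R1_cle hI.a2 ?_))
      (R1_cle hI.a4 hx)) (R1_le hI.a6)
    · rw [map_pow]
      exact pow_le_one' hx 3
    · rw [map_pow]
      exact pow_le_one' hx 2
  have h3 : V.valuation (W.a₁ * x * y + W.a₃ * y) < V.valuation (y ^ 2) := by
    rw [map_pow, pow_two]
    refine lt_of_le_of_lt (b := 1 * d) ?_ (mul_lt_mul_of_pos_right hcon d0)
    rw [one_mul]
    refine V.valuation.map_add_le ?_ (R1_cle hI.a3 le_rfl)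
    rw [mul_assoc]
    refine R1_cle hI.a1 ?_
    rw [map_mul]
    exact mul_le_of_le_one_left' hx
  have e : y ^ 2 + (W.a₁ * x * y + W.a₃ * y) = x ^ 3 + W.a₂ * x ^ 2 + W.a₄ * x + W.a₆ := by
    linear_combination h
  rw [← e, V.valuation.map_add_eq_of_lt_left h3, map_pow] at hr
  exact absurd hr (not_le.2 (one_lt_pow₀ hcon (by norm_num)))

theorem tt_sq (hI : IntW W V) {x y : k} (h : W.toAffine.Nonsingular x y) (hx : 1 < V.valuation x) :
    V.valuation (tt (W := W) (.some x y h)) ^ 2 * V.valuation x = 1 := by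
  obtain ⟨h1, h2⟩ := val_y hI h.1 hx
  have x0 : V.valuation x ≠ 0 := (zero_lt_one.trans hx).ne'
  have y0 : V.valuation y ≠ 0 := (zero_lt_one.trans (hx.trans h2)).ne'
  change V.valuation (x / y) ^ 2 * V.valuation x = 1
  rw [map_div₀, div_pow, h1]
  field_simp

theorem tt_lt (hI : IntW W V) (P : W.toAffine.Point) (h : Ker V P) : V.valuation (tt P) < 1 := by
  match P, h with
  | .zero, _ =>
    change V.valuation 0 < 1
    rw [map_zero]
    exact zero_lt_one
  | .some x y hn, h =>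
    have hx : 1 < V.valuation x := h
    obtain ⟨h1, h2⟩ := val_y hI hn.1 hx
    change V.valuation (x / y) < 1
    rw [map_div₀]
    exact (div_lt_one₀ (zero_lt_one.trans (hx.trans h2))).2 h2

theorem tt_eq_zero (hI : IntW W V) (P : W.toAffine.Point) (h : Ker V P) : tt P = 0 ↔ P = 0 := by
  match P, h with
  | .zero, _ => exact ⟨fun _ => rfl, fun _ => rfl⟩
  | .some x y hn, h =>
    have hx : 1 < V.valuation x := h
    obtain ⟨h1, h2⟩ := val_y hI hn.1 hx
    have x0 : x ≠ 0 := fun h0 => by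
      rw [h0, map_zero] at hx
      exact absurd hx (not_lt.2 zero_le_one)
    have y0 : y ≠ 0 := fun h0 => by
      have := hx.trans h2
      rw [h0, map_zero] at this
      exact absurd this (not_lt.2 zero_le_one)
    constructor
    · intro h3
      exact absurd h3 (div_ne_zero x0 y0)
    · intro h3
      exact absurd h3 (by simp)

/-- t(-P) = -t(P) up to t(P)^2. -/
theorem tt_neg (hI : IntW W V) (P : W.toAffine.Point) (h : Ker V P) :
    V.valuation (tt (-P) + tt P) ≤ V.valuation (tt P) ^ 2 := by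
  match P, h with
  | .zero, _ =>
    change V.valuation (0 + 0) ≤ V.valuation 0 ^ 2
    simp
  | .some x y hn, h =>
    have hx : 1 < V.valuation x := h
    obtain ⟨h1, h2⟩ := val_y hI hn.1 hx
    have x0 : x ≠ 0 := fun h0 => by
      rw [h0, map_zero] at hx
      exact absurd hx (not_lt.2 zero_le_one)
    have hy1 : 1 < V.valuation y := hx.trans h2
    have y0 : y ≠ 0 := fun h0 => by
      rw [h0, map_zero] at hy1
      exact absurd hy1 (not_lt.2 zero_le_one)
    rw [Affine.Point.neg_some]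
    change V.valuation (x / W.toAffine.negY x y + x / y) ≤ V.valuation (x / y) ^ 2
    -- the value of the negative
    have h3 : V.valuation (W.a₁ * x + W.a₃) < V.valuation y := by
      refine lt_of_le_of_lt (V.valuation.map_add_le (R1_cle hI.a1 le_rfl) ((R1_le hI.a3).trans hx.le)) h2
    have hneg : V.valuation (W.toAffine.negY x y) = V.valuation y := by
      have e : W.toAffine.negY x y = -(y + (W.a₁ * x + W.a₃)) := by
        unfold Affine.negY
        ring
      rw [e, Valuation.map_neg, V.valuation.map_add_eq_of_lt_left h3]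
    have n0 : W.toAffine.negY x y ≠ 0 := fun h0 => by
      rw [h0, map_zero] at hneg
      exact (zero_lt_one.trans hy1).ne hneg
    have e : x / W.toAffine.negY x y + x / y = -(x * (W.a₁ * x + W.a₃)) / (W.toAffine.negY x y * y) := by
      rw [div_add_div _ _ n0 y0]
      congr 1
      unfold Affine.negY
      ring
    have hb : V.valuation (W.a₁ * x + W.a₃) ≤ V.valuation x :=
      V.valuation.map_add_le (R1_cle hI.a1 le_rfl) ((R1_le hI.a3).trans hx.le)
    rw [e, map_div₀, Valuation.map_neg, map_mul, map_mul, hneg, map_div₀, div_pow, pow_two, pow_two]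
    exact div_le_div_of_nonneg_right (mul_le_mul' le_rfl hb) zero_le

theorem ker_neg (P : W.toAffine.Point) : Ker V (-P) ↔ Ker V P := by
  match P with
  | .zero => exact Iff.rfl
  | .some x y hn =>
    rw [Affine.Point.neg_some]
    exact Iff.rfl

end H35P
end

-- from Lib.H55B.G2
section

open NumberField IsDedekindDomain

namespace H55B

/-! Chunk G2: characters of finite groups of exponent 2, and the local Euler factor identity.
G is an elementary abelian 2-group (commutative since all squares are 1), an F_2 vector space; G ->* {+-1} is its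
dual. euler_group: let X_I be the characters trivial on I, |X_I| = |G|/|I|. If f = 1, phi in I, all values
chi(phi) = 1 on X_I: product = (1 - xT)^(|G|/|I|). If f = 2, phi not in I: chi(phi) = 1 for half of X_I and -1
for the other half, (1 - xT)(1 + xT) = 1 - x^2T^2, to the power |G|/(2|I|). The characters not trivial on I
contribute the factor 1. -/

theorem G2_enough2 : HasEnoughRootsOfUnity ℤ 2 where
  prim := ⟨-1, IsPrimitiveRoot.neg_one 0 (by norm_num)⟩
  cyc := rootsOfUnity.isCyclic ℤ 2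

theorem G2_enough (Gp : Type*) [Group Gp] (hsq : ∀ g : Gp, g * g = 1) :
    HasEnoughRootsOfUnity ℤ (Monoid.exponent Gp) := by
  haveI := G2_enough2
  refine HasEnoughRootsOfUnity.of_dvd ℤ (n := 2) ?_
  apply Monoid.exponent_dvd_of_forall_pow_eq_one
  intro g
  rw [pow_two, hsq]

/-- The commutative group structure. -/
abbrev G2_comm (Gp : Type*) [h : Group Gp] (hsq : ∀ g : Gp, g * g = 1) : CommGroup Gp :=
  { h with
    mul_comm := fun a b => by
      have h1 : ∀ g : Gp, g = g⁻¹ := fun g => eq_inv_of_mul_eq_one_left (hsq g)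
      calc a * b = (a * b)⁻¹ := h1 _
        _ = b⁻¹ * a⁻¹ := mul_inv_rev a b
        _ = b * a := by rw [← h1, ← h1] }

theorem card_dual (Gp : Type*) [Group Gp] [Finite Gp] (hsq : ∀ g : Gp, g * g = 1) :
    Finite (Gp →* ℤˣ) ∧ Nat.card (Gp →* ℤˣ) = Nat.card Gp := by
  haveI := G2_enough Gp hsq
  refine ⟨inferInstance, ?_⟩
  letI := G2_comm Gp hsq
  exact CommGroup.card_monoidHom_of_hasEnoughRootsOfUnity Gp ℤ

theorem dual_sep (Gp : Type*) [Group Gp] [Finite Gp] (hsq : ∀ g : Gp, g * g = 1) (I : Subgroup Gp)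
    (g : Gp) (hg : g ∉ I) : ∃ χ : Gp →* ℤˣ, (∀ i ∈ I, χ i = 1) ∧ χ g = -1 := by
  haveI := G2_enough Gp hsq
  have h : ¬ ∀ φ : Gp →* ℤˣ, (∀ y ∈ I, φ y = 1) → φ g = 1 := by
    intro h
    apply hg
    letI := G2_comm Gp hsq
    exact (CommGroup.forall_monoidHom_apply_eq_one_iff (M := ℤ) I g).mp h
  push Not at h
  obtain ⟨χ, h1, h2⟩ := h
  exact ⟨χ, h1, (Int.units_eq_one_or (χ g)).resolve_left h2⟩

theorem G2_card_triv (Gp : Type*) [Group Gp] [Finite Gp] (hsq : ∀ g : Gp, g * g = 1)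
    (I : Subgroup Gp) :
    Nat.card {χ : Gp →* ℤˣ // ∀ i ∈ I, χ i = 1} = Nat.card Gp / Nat.card I := by
  haveI := G2_enough Gp hsq
  letI := G2_comm Gp hsq
  have h1 := CommGroup.card_domRestrictHom_ker (M := ℤ) (G := Gp) I
  have h2 : Nat.card (Gp ⧸ I) = Nat.card Gp / Nat.card I := by
    rw [I.card_eq_card_quotient_mul_card_subgroup, Nat.mul_div_cancel _ Nat.card_pos]
  rw [← h2, ← h1]
  apply Nat.card_congr
  refine Equiv.subtypeEquivRight fun χ => ?_
  rw [MonoidHom.mem_ker, MonoidHom.ext_iff]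
  constructor
  · intro h i
    exact h i i.2
  · intro h i hi
    exact h ⟨i, hi⟩


open Polynomial in
open Classical in
theorem euler_group (Gp : Type*) [Group Gp] [Finite Gp] (hsq : ∀ g : Gp, g * g = 1) (I : Subgroup Gp)
    (φ : Gp) (f : ℕ) (hf : (f = 1 ∧ φ ∈ I) ∨ (f = 2 ∧ φ ∉ I)) (x : ℂ) :
    ∏ᶠ χ : Gp →* ℤˣ, (1 - C ((if ∀ i ∈ I, χ i = 1 then (((χ φ : ℤˣ) : ℤ) : ℂ) else 0) * x) * X) =
      (1 - C (x ^ f) * X ^ f) ^ (Nat.card Gp / (Nat.card I * f)) := by
  obtain ⟨hfin, -⟩ := card_dual Gp hsq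
  letI := Fintype.ofFinite (Gp →* ℤˣ)
  have hD := G2_card_triv Gp hsq I
  rw [Nat.card_eq_fintype_card, Fintype.card_subtype] at hD
  rw [finprod_eq_prod_of_fintype]
  have hprod : ∏ χ : Gp →* ℤˣ,
      (1 - C ((if ∀ i ∈ I, χ i = 1 then (((χ φ : ℤˣ) : ℤ) : ℂ) else 0) * x) * X) =
      ∏ χ : Gp →* ℤˣ with (∀ i ∈ I, χ i = 1), (1 - C ((((χ φ : ℤˣ) : ℤ) : ℂ) * x) * X) := by
    rw [Finset.prod_filter]
    apply Finset.prod_congr rfl
    intro χ _
    split_ifs <;> simp
  rw [hprod]
  rcases hf with ⟨rfl, hφ⟩ | ⟨rfl, hφ⟩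
  · have h1 : ∏ χ : Gp →* ℤˣ with (∀ i ∈ I, χ i = 1), (1 - C ((((χ φ : ℤˣ) : ℤ) : ℂ) * x) * X) =
        ∏ χ : Gp →* ℤˣ with (∀ i ∈ I, χ i = 1), (1 - C x * X) := by
      apply Finset.prod_congr rfl
      intro χ hχ
      rw [(Finset.mem_filter.mp hχ).2 φ hφ]
      simp
    rw [h1, Finset.prod_const, hD]
    simp
  · obtain ⟨ψ, hψI, hψ⟩ := dual_sep Gp hsq I φ hφ
    have hsplit := Finset.prod_filter_mul_prod_filter_not
      (Finset.univ.filter fun χ : Gp →* ℤˣ => ∀ i ∈ I, χ i = 1) (fun χ => χ φ = 1)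
      (fun χ => (1 - C ((((χ φ : ℤˣ) : ℤ) : ℂ) * x) * X))
    have hcs := Finset.card_filter_add_card_filter_not
      (s := Finset.univ.filter fun χ : Gp →* ℤˣ => ∀ i ∈ I, χ i = 1) (fun χ => χ φ = 1)
    have hcard : (Finset.filter (fun χ : Gp →* ℤˣ => χ φ = 1)
        (Finset.univ.filter fun χ : Gp →* ℤˣ => ∀ i ∈ I, χ i = 1)).card =
        (Finset.filter (fun χ : Gp →* ℤˣ => ¬ χ φ = 1)
        (Finset.univ.filter fun χ : Gp →* ℤˣ => ∀ i ∈ I, χ i = 1)).card := by
      apply Finset.card_bij' (fun χ _ => ψ * χ) (fun χ _ => ψ * χ)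
      · intro χ hχ
        simp only [Finset.mem_filter, Finset.mem_univ, true_and] at hχ ⊢
        refine ⟨fun i hi => ?_, ?_⟩
        · rw [MonoidHom.mul_apply, hψI i hi, hχ.1 i hi, one_mul]
        · rw [MonoidHom.mul_apply, hψ, hχ.2]
          decide
      · intro χ hχ
        simp only [Finset.mem_filter, Finset.mem_univ, true_and] at hχ ⊢
        refine ⟨fun i hi => ?_, ?_⟩
        · rw [MonoidHom.mul_apply, hψI i hi, hχ.1 i hi, one_mul]
        · rw [MonoidHom.mul_apply, hψ, (Int.units_eq_one_or (χ φ)).resolve_left hχ.2]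
          decide
      · intro χ _
        ext g
        simp only [MonoidHom.mul_apply, ← mul_assoc, Int.units_mul_self, one_mul]
      · intro χ _
        ext g
        simp only [MonoidHom.mul_apply, ← mul_assoc, Int.units_mul_self, one_mul]
    rw [← hsplit]
    have hp1 : ∏ χ ∈ Finset.filter (fun χ : Gp →* ℤˣ => χ φ = 1)
        (Finset.univ.filter fun χ : Gp →* ℤˣ => ∀ i ∈ I, χ i = 1),
        (1 - C ((((χ φ : ℤˣ) : ℤ) : ℂ) * x) * X) = (1 - C x * X) ^
          (Finset.filter (fun χ : Gp →* ℤˣ => χ φ = 1)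
            (Finset.univ.filter fun χ : Gp →* ℤˣ => ∀ i ∈ I, χ i = 1)).card := by
      rw [← Finset.prod_const]
      apply Finset.prod_congr rfl
      intro χ hχ
      rw [(Finset.mem_filter.mp hχ).2]
      simp
    have hp2 : ∏ χ ∈ Finset.filter (fun χ : Gp →* ℤˣ => ¬ χ φ = 1)
        (Finset.univ.filter fun χ : Gp →* ℤˣ => ∀ i ∈ I, χ i = 1),
        (1 - C ((((χ φ : ℤˣ) : ℤ) : ℂ) * x) * X) = (1 + C x * X) ^
          (Finset.filter (fun χ : Gp →* ℤˣ => χ φ = 1)
            (Finset.univ.filter fun χ : Gp →* ℤˣ => ∀ i ∈ I, χ i = 1)).card := by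
      rw [hcard, ← Finset.prod_const]
      apply Finset.prod_congr rfl
      intro χ hχ
      rw [(Int.units_eq_one_or (χ φ)).resolve_left (Finset.mem_filter.mp hχ).2]
      simp
    rw [hp1, hp2, ← mul_pow]
    have hb : (1 - C x * X : ℂ[X]) * (1 + C x * X) = 1 - C (x ^ 2) * X ^ 2 := by
      rw [map_pow]
      ring
    rw [hb]
    congr 1
    rw [← Nat.div_div_eq_div_mul, ← hD]
    omega

end H55B
end

-- from Lib.H55N.B1
section

namespace H55N

/-! Chunk B1 (S). Products of summable families. -/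

theorem B1_mul {α γ : Type} (f : α → ℂ) (g : γ → ℂ) (hf : Summable fun a => ‖f a‖)
    (hg : Summable fun a => ‖g a‖) (s t : ℂ) (hs : HasSum f s) (ht : HasSum g t) :
    HasSum (fun p : α × γ => f p.1 * g p.2) (s * t) := by
  have hm : Summable (fun p : α × γ => f p.1 * g p.2) := summable_mul_of_summable_norm hf hg
  exact hs.mul ht hm

theorem B1_nmul {α γ : Type} (f : α → ℂ) (g : γ → ℂ) (hf : Summable fun a => ‖f a‖)
    (hg : Summable fun a => ‖g a‖) : Summable (fun p : α × γ => ‖f p.1 * g p.2‖) :=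
  hf.mul_norm hg

theorem B1_aux {β : Type} (n : ℕ) : ∀ (φ : Fin n → β → ℂ) (_ : ∀ j, Summable fun y => ‖φ j y‖),
    Summable (fun f : Fin n → β => ‖∏ j, φ j (f j)‖) ∧
    HasSum (fun f : Fin n → β => ∏ j, φ j (f j)) (∏ j, ∑' y, φ j y) := by
  induction n with
  | zero =>
    intro φ hs
    constructor
    · exact (hasSum_fintype _).summable
    · have h1 := hasSum_unique (fun f : Fin 0 → β => ∏ j, φ j (f j))
      have h2 : (∏ j : Fin 0, ∑' y, φ j y) = ∏ j, φ j ((default : Fin 0 → β) j) := by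
        rw [Fin.prod_univ_zero, Fin.prod_univ_zero]
      rw [h2]
      exact h1
  | succ n ih =>
    intro φ hs
    obtain ⟨ih1, ih2⟩ := ih (fun j => φ j.succ) (fun j => hs j.succ)
    let G : (Fin n → β) → ℂ := fun f => ∏ j, φ (Fin.succ j) (f j)
    have h0 : HasSum (φ 0) (∑' y, φ 0 y) := (hs 0).of_norm.hasSum
    have hsum := B1_mul (φ 0) G (hs 0) ih1 _ _ h0 ih2
    have hp := B1_nmul (φ 0) G (hs 0) ih1
    let e : β × (Fin n → β) ≃ (Fin (n + 1) → β) := Fin.consEquiv (fun _ => β)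
    have he : ∀ p : β × (Fin n → β), ∏ j, φ j (e p j) = φ 0 p.1 * G p.2 := by
      intro p
      rw [Fin.prod_univ_succ]
      rfl
    have he2 : ((fun f : Fin (n + 1) → β => ∏ j, φ j (f j)) ∘ e) = fun p => φ 0 p.1 * G p.2 :=
      funext he
    have he3 : ((fun f : Fin (n + 1) → β => ‖∏ j, φ j (f j)‖) ∘ e) =
        fun p => ‖φ 0 p.1 * G p.2‖ :=
      funext fun p => congrArg norm (he p)
    constructor
    · rw [← e.summable_iff, he3]
      exact hp
    · rw [← e.hasSum_iff, he2, Fin.prod_univ_succ]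
      exact hsum

theorem pi_summable {β : Type} (n : ℕ) (φ : Fin n → β → ℝ) (h0 : ∀ j y, 0 ≤ φ j y)
    (hs : ∀ j, Summable (φ j)) : Summable fun f : Fin n → β => ∏ j, φ j (f j) := by
  have h1 := (B1_aux n (fun j y => ((φ j y : ℝ) : ℂ)) (fun j => by
    refine (hs j).congr fun y => ?_
    rw [Complex.norm_real, Real.norm_of_nonneg (h0 j y)])).1
  refine h1.congr fun f => ?_
  rw [← Complex.ofReal_prod, Complex.norm_real, Real.norm_of_nonneg]
  exact Finset.prod_nonneg fun j _ => h0 j _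

/-- The value of such a sum. -/
theorem pi_hasSum {β : Type} (n : ℕ) (φ : Fin n → β → ℂ) (hs : ∀ j, Summable fun y => ‖φ j y‖) :
    HasSum (fun f : Fin n → β => ∏ j, φ j (f j)) (∏ j, ∑' y, φ j y) :=
  (B1_aux n φ hs).2

end H55N
end

-- from Lib.H55N.B13
section

namespace H55N

open MeasureTheory

/-! Chunk B13 (M, pure Mathlib). The beta integral in the form needed: substitution τ = y/(1-y) in Complex.betaIntegral, or: Gamma(k) (1+τ)^(-k) =
int_0^oo x^(k-1) e^(-x(1+τ)) dx, Fubini, Gamma(z) x^(-z). Then τ -> τ q (q > 0): integral over Ioi of τ^(z-1) (1 + τ q)^(-k) = q^(-z) times the value for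
q = 1. Integrability for 0 < Re z < k. -/

/-- The substitution. -/
noncomputable def B13_f (q τ : ℝ) : ℝ := τ * q / (1 + τ * q)

/-- Its derivative. -/
noncomputable def B13_f' (q τ : ℝ) : ℝ := q / (1 + τ * q) ^ 2

theorem B13_deriv {q : ℝ} (hq : 0 < q) : ∀ τ ∈ Set.Ioi (0 : ℝ),
    HasDerivWithinAt (B13_f q) (B13_f' q τ) (Set.Ioi 0) τ := by
  intro τ hτ
  have hτ0 : 0 < τ := hτ
  have h1 : (1 + τ * q) ≠ 0 := by positivity
  have ha : HasDerivAt (fun τ : ℝ => τ * q) q τ := by
    simpa using (hasDerivAt_id τ).mul_const q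
  have hb : HasDerivAt (fun τ : ℝ => 1 + τ * q) q τ := by
    simpa using ha.const_add 1
  have h2 := ha.div hb h1
  have h3 : (q * (1 + τ * q) - τ * q * q) / (1 + τ * q) ^ 2 = B13_f' q τ := by
    unfold B13_f'; congr 1; ring
  rw [h3] at h2
  exact h2.hasDerivWithinAt

theorem B13_inj {q : ℝ} (hq : 0 < q) : Set.InjOn (B13_f q) (Set.Ioi 0) := by
  intro a ha b hb h
  have ha0 : 0 < a := ha
  have hb0 : 0 < b := hb
  unfold B13_f at h
  have h1 : (1 + a * q) ≠ 0 := by positivity
  have h2 : (1 + b * q) ≠ 0 := by positivity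
  rw [div_eq_div_iff h1 h2] at h
  have h3 : a * q = b * q := by linear_combination h
  exact mul_right_cancel₀ hq.ne' h3

theorem B13_image {q : ℝ} (hq : 0 < q) : B13_f q '' Set.Ioi 0 = Set.Ioo 0 1 := by
  ext y
  constructor
  · rintro ⟨τ, hτ, rfl⟩
    have hτ0 : 0 < τ := hτ
    unfold B13_f
    have h1 : 0 < 1 + τ * q := by positivity
    refine ⟨by positivity, ?_⟩
    rw [div_lt_one h1]
    linarith
  · rintro ⟨h0, h1⟩
    have h2 : 0 < 1 - y := by linarith
    refine ⟨y / ((1 - y) * q), ?_, ?_⟩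
    · exact Set.mem_Ioi.2 (by positivity)
    · unfold B13_f
      have h3 : y / ((1 - y) * q) * q = y / (1 - y) := by field_simp
      rw [h3]
      have h4 : 1 + y / (1 - y) = 1 / (1 - y) := by field_simp; ring
      rw [h4]
      field_simp

theorem B13_cpow {r : ℝ} (hr : 0 < r) (w : ℂ) : (r : ℂ) ^ w = Complex.exp ((Real.log r : ℂ) * w) := by
  rw [Complex.cpow_def_of_ne_zero (by exact_mod_cast hr.ne'), Complex.ofReal_log hr.le]

theorem B13_pt (z : ℂ) (k : ℕ) {q : ℝ} (hq : 0 < q) {τ : ℝ} (hτ : 0 < τ) :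
    |B13_f' q τ| • (((B13_f q τ : ℝ) : ℂ) ^ (z - 1) * (1 - ((B13_f q τ : ℝ) : ℂ)) ^ ((k : ℂ) - z - 1)) =
      (q : ℂ) ^ z * ((τ : ℂ) ^ (z - 1) * (((1 + τ * q) ^ k)⁻¹ : ℝ)) := by
  have ha : 0 < 1 + τ * q := by positivity
  set a := 1 + τ * q with hadef
  have h1 : (1 - ((B13_f q τ : ℝ) : ℂ)) = ((a⁻¹ : ℝ) : ℂ) := by
    have : 1 - B13_f q τ = a⁻¹ := by
      unfold B13_f
      rw [← hadef]
      field_simp
      rw [hadef]; ring
    rw [← this]; push_cast; ring
  have h2 : B13_f q τ = τ * q / a := rfl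
  have h3 : 0 < τ * q / a := by positivity
  have h4 : |B13_f' q τ| = q / a ^ 2 := abs_of_pos (by unfold B13_f'; positivity)
  rw [h1, h2, h4, B13_cpow h3, B13_cpow (inv_pos.2 ha), B13_cpow hq, B13_cpow hτ]
  have h5 : ((q / a ^ 2 : ℝ) : ℂ) = Complex.exp (((Real.log q - 2 * Real.log a : ℝ) : ℂ)) := by
    rw [← Complex.ofReal_exp]
    congr 1
    rw [Real.exp_sub, Real.exp_log hq, two_mul, Real.exp_add, Real.exp_log ha, sq]
  have h6 : ((((a ^ k)⁻¹ : ℝ)) : ℂ) = Complex.exp (((-(k * Real.log a) : ℝ) : ℂ)) := by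
    rw [← Complex.ofReal_exp]
    congr 1
    rw [Real.exp_neg, ← Real.log_pow, Real.exp_log (by positivity)]
  rw [Complex.real_smul, h5, h6, ← Complex.exp_add, ← Complex.exp_add, ← Complex.exp_add,
    ← Complex.exp_add]
  congr 1
  rw [Real.log_div (by positivity) ha.ne', Real.log_mul hτ.ne' hq.ne', Real.log_inv]
  push_cast
  ring

theorem beta_integrable (z : ℂ) (k : ℕ) (h0 : 0 < z.re) (hk : z.re < k) (q : ℝ) (hq : 0 < q) :
    IntegrableOn (fun τ : ℝ => (τ : ℂ) ^ (z - 1) * (((1 + τ * q) ^ k)⁻¹ : ℝ)) (Set.Ioi 0) := by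
  have h1 := integrableOn_image_iff_integrableOn_abs_deriv_smul (measurableSet_Ioi (a := (0 : ℝ)))
    (B13_deriv hq) (B13_inj hq) (fun y : ℝ => (y : ℂ) ^ (z - 1) * (1 - (y : ℂ)) ^ ((k : ℂ) - z - 1))
  rw [B13_image hq] at h1
  have h2 : IntegrableOn (fun y : ℝ => (y : ℂ) ^ (z - 1) * (1 - (y : ℂ)) ^ ((k : ℂ) - z - 1))
      (Set.Ioo 0 1) := by
    have := Complex.betaIntegral_convergent (u := z) (v := (k : ℂ) - z) h0 (by simp; linarith)
    rw [intervalIntegrable_iff_integrableOn_Ioc_of_le zero_le_one] at this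
    exact this.mono_set Set.Ioo_subset_Ioc_self
  have h3 := h1.1 h2
  have h4 : IntegrableOn (fun τ : ℝ => (q : ℂ) ^ z * ((τ : ℂ) ^ (z - 1) *
      (((1 + τ * q) ^ k)⁻¹ : ℝ))) (Set.Ioi 0) :=
    h3.congr_fun (fun τ hτ => B13_pt z k hq hτ) measurableSet_Ioi
  have h5 : (q : ℂ) ^ z ≠ 0 := by
    rw [B13_cpow hq]; exact Complex.exp_ne_zero _
  have h6 : IntegrableOn (fun τ : ℝ => ((q : ℂ) ^ z)⁻¹ * ((q : ℂ) ^ z * ((τ : ℂ) ^ (z - 1) *
      (((1 + τ * q) ^ k)⁻¹ : ℝ)))) (Set.Ioi 0) := h4.const_mul ((q : ℂ) ^ z)⁻¹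
  refine h6.congr_fun (fun τ _ => ?_) measurableSet_Ioi
  simp only
  rw [← mul_assoc, inv_mul_cancel₀ h5, one_mul]

theorem beta_eq (z : ℂ) (k : ℕ) (h0 : 0 < z.re) (hk : z.re < k) (q : ℝ) (hq : 0 < q) :
    ∫ τ in Set.Ioi (0 : ℝ), (τ : ℂ) ^ (z - 1) * (((1 + τ * q) ^ k)⁻¹ : ℝ) =
      (q : ℂ) ^ (-z) * (Complex.Gamma z * Complex.Gamma (k - z) / Complex.Gamma k) := by
  have h1 := integral_image_eq_integral_abs_deriv_smul (measurableSet_Ioi (a := (0 : ℝ)))
    (B13_deriv hq) (B13_inj hq) (fun y : ℝ => (y : ℂ) ^ (z - 1) * (1 - (y : ℂ)) ^ ((k : ℂ) - z - 1))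
  rw [B13_image hq, setIntegral_congr_fun measurableSet_Ioi (fun τ hτ => B13_pt z k hq hτ),
    integral_const_mul] at h1
  have h2 : ∫ y in Set.Ioo (0 : ℝ) 1, (y : ℂ) ^ (z - 1) * (1 - (y : ℂ)) ^ ((k : ℂ) - z - 1) =
      Complex.betaIntegral z ((k : ℂ) - z) := by
    unfold Complex.betaIntegral
    rw [intervalIntegral.integral_of_le zero_le_one, integral_Ioc_eq_integral_Ioo]
  rw [h2] at h1
  have h3 := Complex.Gamma_mul_Gamma_eq_betaIntegral (s := z) (t := (k : ℂ) - z) h0
    (by simp; linarith)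
  rw [show z + ((k : ℂ) - z) = k by ring] at h3
  have hk0 : 0 < k := by
    have : (0 : ℝ) < k := h0.trans hk
    exact_mod_cast this
  have h4 : Complex.Gamma (k : ℂ) ≠ 0 := by
    apply Complex.Gamma_ne_zero_of_re_pos
    simpa using hk0
  have h5 : (q : ℂ) ^ z ≠ 0 := by
    rw [B13_cpow hq]; exact Complex.exp_ne_zero _
  rw [Complex.cpow_neg, h3, h1]
  generalize (∫ τ in Set.Ioi (0 : ℝ), (τ : ℂ) ^ (z - 1) * (((1 + τ * q) ^ k)⁻¹ : ℝ)) = J
  field_simp

end H55N
end
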