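import Mathlib
import Pool.Agent.Lib.H1M.PP2.D_H55B_Defs

/-! Merged copies (to shorten the build) of Lib.H55B.Defs_T, Lib.H55B.Z1, Lib.H55B.Z2, Lib.H55K.W0, Lib.H55K.W1A, Lib.H55K.W1B, Lib.H55K.W2A, Lib.H55K.W4D, Lib.H55K.W2C, Lib.H55K.W3A, Lib.H55K.W3D, Lib.H55K.W3C. -/

-- from Lib.H55B.Defs_T
section

/-!
# H55B: definitions

The rank part of the Birch and Swinnerton-Dyer conjecture for the curve y^2 + y = x^3
over 2-extensions of the field of cube roots of unity. See PROOF.md.
-/

open NumberField IsDedekindDomain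

namespace H55B









/-- The norm of an Eisenstein integer, as a natural number. -/
noncomputable def Nm (x : O) : ℕ := Ideal.absNorm (Ideal.span {x})

/-- Primary Eisenstein integers: congruent to 1 modulo 3. -/
def Prim (x : O) : Prop := (3 : O) ∣ x - 1

open Classical in
/-- The primary generator of a prime ideal not above 3. -/
noncomputable def gen (v : HeightOneSpectrum O) : O :=
  if h : ∃ x : O, v.asIdeal = Ideal.span {x} ∧ Prim x then h.choose else 0

open Classical in
/-- The quadratic residue symbol at a prime ideal (not above 2). -/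
noncomputable def sym (v : HeightOneSpectrum O) (x : O) : ℤ :=
  if x ∈ v.asIdeal then 0 else if ∃ y : O, x - y ^ 2 ∈ v.asIdeal then 1 else -1

/-- The quadratic character attached to a squarefree odd element. -/
noncomputable def Sym (a x : O) : ℤ :=
  ∏ᶠ (v : HeightOneSpectrum O) (_ : a ∈ v.asIdeal), sym v x

/-- Admissible elements: squarefree, a square modulo 4, prime to 3, and 2 is not a cube modulo
any prime factor. -/
def Adm (a : O) : Prop :=
  Squarefree a ∧ (∃ b : O, (4 : O) ∣ a - b ^ 2) ∧
    ∀ p : O, Prime p → p ∣ a → ¬ p ∣ 3 ∧ ¬ ∃ x : O, p ∣ x ^ 3 - 2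

/-- The elliptic curve 27a3 over the rationals. -/
def E27 : WeierstrassCurve ℚ := ⟨0, 0, 1, 0, 0⟩

/-- The basic function conj(u) |u|^(-2s). -/
noncomputable def g (s u : ℂ) : ℂ := (starRingEnd ℂ) u * (‖u‖ : ℂ) ^ (-2 * s)

/-- The lattice sum of g over w + 3O. -/
noncomputable def Kf (w s : ℂ) : ℂ := ∑' x : O, g s (w + 3 * e x)

/-- The second difference lattice sum. -/
noncomputable def G (w s : ℂ) : ℂ :=
  ∑' x : O, (g s (1 + w + 3 * e x) + g s (1 - w + 3 * e x) - 2 * g s (1 + 3 * e x))

/-- The value of G at s = 1. -/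
noncomputable def R (w : ℂ) : ℂ :=
  ∑' x : O, ((1 + w + 3 * e x)⁻¹ + (1 - w + 3 * e x)⁻¹ - 2 * (1 + 3 * e x)⁻¹)


/-- The lattice 3O in the complex plane. -/
def Lam : Set ℂ := {z | ∃ y : O, z = 3 * e y}

end H55B
end

-- from Lib.H55B.Z1
section

open NumberField IsDedekindDomain

namespace H55B

/-! Chunk Z1: basic facts on the Eisenstein integers.
`om = zeta_spec.toInteger`; Mathlib: IsPrimitiveRoot.toInteger, the integral power basis of a prime
cyclotomic field, `IsCyclotomicExtension.Rat.Three.*` (eta_sq etc). Since `e` is a ring hom from a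
ring of characteristic zero that is a domain with fraction field F it is injective. `e om` is a
primitive cube root of unity, so its norm is 1, real part -1/2. The norm form: N(a + b om) =
a^2 - a b + b^2 = |e(a + b om)|^2. -/

theorem om_rel : om ^ 2 + om + 1 = 0 :=
  IsCyclotomicExtension.Rat.Three.eta_sq_add_eta_add_one zeta_spec

theorem exists_repr (x : O) : ∃ a b : ℤ, x = a + b * om := by
  obtain ⟨f, hf, hx⟩ := (zeta_spec.integralPowerBasis).exists_eq_aeval x
  rw [IsPrimitiveRoot.integralPowerBasis_dim] at hf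
  have h2 : Nat.totient 3 = 2 := by decide
  rw [h2] at hf
  obtain ⟨b, a, hfa⟩ := Polynomial.exists_eq_X_add_C_of_natDegree_le_one
    (Nat.lt_succ_iff.1 hf)
  refine ⟨a, b, ?_⟩
  rw [hx, hfa, IsPrimitiveRoot.integralPowerBasis_gen]
  simp only [map_add, map_mul, Polynomial.aeval_X, eq_intCast, map_intCast]
  rw [add_comm]
  rfl

theorem e_injective : Function.Injective e := by
  intro x y h
  have h1 : emb (algebraMap O F x) = emb (algebraMap O F y) := h
  exact RingOfIntegers.coe_injective (emb.injective h1)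

theorem e_om_rel : (e om) ^ 2 + e om + 1 = 0 := by
  have h := congrArg e om_rel
  simpa using h

theorem norm_e_om : ‖e om‖ = 1 := by
  have h : (e om) ^ 3 = 1 := by
    have h1 := e_om_rel
    linear_combination (e om - 1) * h1
  exact Complex.norm_eq_one_of_pow_eq_one h (by norm_num)

theorem Z1_im : (e om).im ≠ 0 := by
  intro h0
  have h1 := congrArg Complex.re e_om_rel
  simp only [pow_two, Complex.add_re, Complex.mul_re, Complex.one_re, Complex.zero_re, h0] at h1
  nlinarith [sq_nonneg ((e om).re + 1 / 2)]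

theorem e_om_re : (e om).re = -1 / 2 := by
  have h2 := congrArg Complex.im e_om_rel
  simp only [pow_two, Complex.add_im, Complex.mul_im, Complex.one_im, Complex.zero_im] at h2
  have h3 : (e om).im * (2 * (e om).re + 1) = 0 := by linarith
  have h4 := (mul_eq_zero.1 h3).resolve_left Z1_im
  linarith

theorem Z1_e_repr (a b : ℤ) : e ((a : O) + b * om) = a + b * e om := by
  simp

theorem Z1_zero {a b : ℤ} (h : (a : O) + b * om = 0) : a = 0 ∧ b = 0 := by
  have h1 := congrArg e h
  rw [Z1_e_repr, map_zero] at h1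
  have h2 := congrArg Complex.im h1
  simp only [Complex.add_im, Complex.mul_im, Complex.intCast_re, Complex.intCast_im,
    Complex.zero_im, zero_mul, add_zero, zero_add] at h2
  have h3 : (b : ℝ) = 0 := (mul_eq_zero.1 h2).resolve_right Z1_im
  have h4 : b = 0 := by exact_mod_cast h3
  have h5 := congrArg Complex.re h1
  rw [h4] at h5
  simp only [Complex.add_re, Complex.mul_re, Complex.intCast_re, Complex.intCast_im,
    Complex.zero_re, zero_mul, sub_zero, Int.cast_zero, add_zero] at h5
  exact ⟨by exact_mod_cast h5, h4⟩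

theorem repr_unique {a b c d : ℤ} (h : (a : O) + b * om = c + d * om) : a = c ∧ b = d := by
  have h1 : ((a - c : ℤ) : O) + ((b - d : ℤ) : O) * om = 0 := by
    push_cast
    linear_combination h
  have h2 := Z1_zero h1
  omega

noncomputable def Z1_basis : Module.Basis (Fin 2) ℤ O :=
  Module.Basis.mk (v := ![1, om]) (by
    rw [LinearIndependent.pair_iff]
    intro s t h
    apply Z1_zero
    simpa [zsmul_eq_mul] using h) (by
    intro x _
    obtain ⟨a, b, rfl⟩ := exists_repr x
    have h1 : (1 : O) ∈ Submodule.span ℤ (Set.range ![(1 : O), om]) :=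
      Submodule.subset_span ⟨0, rfl⟩
    have h2 : om ∈ Submodule.span ℤ (Set.range ![(1 : O), om]) :=
      Submodule.subset_span ⟨1, rfl⟩
    have h3 := Submodule.add_mem _ (Submodule.smul_mem _ a h1) (Submodule.smul_mem _ b h2)
    simpa [zsmul_eq_mul] using h3)

theorem Z1_basis_zero : Z1_basis 0 = 1 := by
  simp [Z1_basis]

theorem Z1_basis_one : Z1_basis 1 = om := by
  simp [Z1_basis]

theorem Z1_repr (a b : ℤ) : Z1_basis.repr ((a : O) + b * om) =
    Finsupp.single 0 a + Finsupp.single 1 b := by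
  have : (a : O) + b * om = a • Z1_basis 0 + b • Z1_basis 1 := by
    rw [Z1_basis_zero, Z1_basis_one]
    simp [zsmul_eq_mul]
  rw [this, map_add, map_smul, map_smul, Module.Basis.repr_self, Module.Basis.repr_self]
  simp

theorem Z1_norm (a b : ℤ) : Algebra.norm ℤ ((a : O) + b * om) = a ^ 2 - a * b + b ^ 2 := by
  rw [Algebra.norm_eq_matrix_det Z1_basis, Matrix.det_fin_two]
  simp only [Algebra.leftMulMatrix_eq_repr_mul, Z1_basis_zero, Z1_basis_one, mul_one]
  have h : ((a : O) + b * om) * om = ((-b : ℤ) : O) + ((a - b : ℤ) : O) * om := by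
    have := om_rel
    push_cast
    linear_combination (b : O) * this
  rw [h, Z1_repr, Z1_repr]
  simp
  ring

theorem Nm_repr (a b : ℤ) : (Nm (a + b * om) : ℤ) = a ^ 2 - a * b + b ^ 2 := by
  unfold Nm
  rw [Ideal.absNorm_span_singleton, Z1_norm, Int.natCast_natAbs, abs_of_nonneg]
  nlinarith [sq_nonneg (a - b), sq_nonneg a, sq_nonneg b, sq_nonneg (a + b)]

theorem Nm_eq (x : O) : (Nm x : ℝ) = ‖e x‖ ^ 2 := by
  obtain ⟨a, b, rfl⟩ := exists_repr x
  have h1 : ((Nm (a + b * om) : ℤ) : ℝ) = ((a ^ 2 - a * b + b ^ 2 : ℤ) : ℝ) := by rw [Nm_repr]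
  rw [Int.cast_natCast] at h1
  rw [h1, Z1_e_repr, Complex.sq_norm, Complex.normSq_apply]
  have h2 : (e om).re * (e om).re + (e om).im * (e om).im = 1 := by
    rw [← Complex.normSq_apply, ← Complex.sq_norm, norm_e_om, one_pow]
  have h3 := e_om_re
  simp only [Complex.add_re, Complex.add_im, Complex.mul_re, Complex.mul_im, Complex.intCast_re,
    Complex.intCast_im, zero_mul, sub_zero, add_zero, zero_add]
  push_cast
  have h4 : ((a : ℝ) + b * (e om).re) * (a + b * (e om).re) + b * (e om).im * (b * (e om).im) =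
      a ^ 2 + 2 * a * b * (e om).re + b ^ 2 * ((e om).re * (e om).re + (e om).im * (e om).im) := by
    ring
  rw [h4, h2, h3]
  ring

theorem Nm_mul (x y : O) : Nm (x * y) = Nm x * Nm y := by
  unfold Nm
  rw [← map_mul, Ideal.span_singleton_mul_span_singleton]

theorem Nm_eq_zero {x : O} : Nm x = 0 ↔ x = 0 := by
  unfold Nm
  rw [Ideal.absNorm_eq_zero_iff, Ideal.span_singleton_eq_bot]

theorem Nm_eq_one {x : O} : Nm x = 1 ↔ IsUnit x := by
  unfold Nm
  rw [Ideal.absNorm_eq_one_iff, Ideal.span_singleton_eq_top]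

end H55B
end

-- from Lib.H55B.Z2
section

open NumberField IsDedekindDomain

namespace H55B

/-! Chunk Z2: complex conjugation on the Eisenstein integers, the prime 2, units.
cj: the automorphism of F given by om -> om^2 (or: complex conjugation maps e(O) to itself, by
exists_repr, since conj (e om) = e (om^2)). Two is prime: O/2 has 4 elements; if 2 divides x y with
x = a + b om, y = c + d om then N(x) N(y) is divisible by 4, so one of the norms a^2 - a b + b^2 is even,
hence a and b are even. Units: IsCyclotomicExtension.Rat.Three.Units.mem. -/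

private lemma e_om_cube : (e om) ^ 3 = 1 := by
  have h := e_om_rel
  linear_combination (e om - 1) * h

private lemma conj_e_om : (starRingEnd ℂ) (e om) = (e om) ^ 2 := by
  have h1 : (e om) * (starRingEnd ℂ) (e om) = 1 := by
    rw [Complex.mul_conj, Complex.normSq_eq_norm_sq, norm_e_om]; simp
  have h3 := e_om_cube
  calc (starRingEnd ℂ) (e om) = (e om) ^ 3 * (starRingEnd ℂ) (e om) := by rw [h3, one_mul]
    _ = (e om) ^ 2 * ((e om) * (starRingEnd ℂ) (e om)) := by ring
    _ = (e om) ^ 2 := by rw [h1, mul_one]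

theorem exists_cj : ∃ c : O ≃+* O, ∀ x, e (c x) = (starRingEnd ℂ) (e x) := by
  have h : ∀ x : O, ∃ y : O, e y = (starRingEnd ℂ) (e x) := by
    intro x
    obtain ⟨a, b, rfl⟩ := exists_repr x
    refine ⟨a + b * om ^ 2, ?_⟩
    simp only [map_add, map_mul, map_pow, map_intCast, conj_e_om]
  choose c hc using h
  have hcc : ∀ x, c (c x) = x := fun x => e_injective (by rw [hc, hc, Complex.conj_conj])
  exact ⟨{ toFun := c
           invFun := c
           left_inv := hcc
           right_inv := hcc
           map_mul' := fun x y => e_injective (by simp only [hc, map_mul])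
           map_add' := fun x y => e_injective (by simp only [hc, map_add]) }, hc⟩

/-- Complex conjugation on the Eisenstein integers. -/
noncomputable def cj : O ≃+* O := exists_cj.choose

theorem e_cj (x : O) : e (cj x) = (starRingEnd ℂ) (e x) := exists_cj.choose_spec x

theorem cj_om : cj om = om ^ 2 := by
  apply e_injective
  rw [e_cj, conj_e_om, map_pow]

theorem cj_cj (x : O) : cj (cj x) = x := by
  apply e_injective
  rw [e_cj, e_cj, Complex.conj_conj]

theorem mul_cj (x : O) : x * cj x = (Nm x : O) := by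
  apply e_injective
  rw [map_mul, e_cj, Complex.mul_conj, Complex.normSq_eq_norm_sq, ← Nm_eq, map_natCast]
  simp

private lemma Nm_two : Nm (2 : O) = 4 := by
  have h := Nm_repr 2 0
  have h2 : ((2 : ℤ) : O) + ((0 : ℤ) : O) * om = 2 := by push_cast; ring
  rw [h2] at h
  norm_num at h
  exact_mod_cast h

theorem two_prime : Prime (2 : O) := by
  have key : ∀ x : O, 2 ∣ Nm x → (2 : O) ∣ x := by
    intro x hx
    obtain ⟨a, b, rfl⟩ := exists_repr x
    have h1 : (2 : ℤ) ∣ a ^ 2 - a * b + b ^ 2 := by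
      rw [← Nm_repr]; exact_mod_cast hx
    have hab : (2 : ℤ) ∣ a ∧ (2 : ℤ) ∣ b := by
      rcases Int.even_or_odd a with ha | ha <;> rcases Int.even_or_odd b with hb | hb
      · exact ⟨ha.two_dvd, hb.two_dvd⟩
      · exfalso
        obtain ⟨m, hm⟩ := ha
        obtain ⟨n, hn⟩ := hb
        subst hm hn
        obtain ⟨k, hk⟩ := h1
        ring_nf at hk
        omega
      · exfalso
        obtain ⟨m, hm⟩ := ha
        obtain ⟨n, hn⟩ := hb
        subst hm hn
        obtain ⟨k, hk⟩ := h1
        ring_nf at hk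
        omega
      · exfalso
        obtain ⟨m, hm⟩ := ha
        obtain ⟨n, hn⟩ := hb
        subst hm hn
        obtain ⟨k, hk⟩ := h1
        ring_nf at hk
        omega
    obtain ⟨⟨m, rfl⟩, ⟨n, rfl⟩⟩ := hab
    exact ⟨m + n * om, by push_cast; ring⟩
  refine ⟨two_ne_zero, ?_, ?_⟩
  · intro h
    have := Nm_eq_one.mpr h
    rw [Nm_two] at this
    norm_num at this
  · intro x y hxy
    obtain ⟨z, hz⟩ := hxy
    have h := congrArg Nm hz
    rw [Nm_mul, Nm_mul, Nm_two] at h
    have h2 : 2 ∣ Nm x * Nm y := ⟨2 * Nm z, by rw [h]; ring⟩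
    rcases (Nat.Prime.dvd_mul Nat.prime_two).mp h2 with h3 | h3
    · exact Or.inl (key x h3)
    · exact Or.inr (key y h3)

theorem lam_prime : Prime (om - 1 : O) := by
  have hN : Nm (om - 1 : O) = 3 := by
    have h := Nm_repr (-1) 1
    have h2 : ((-1 : ℤ) : O) + ((1 : ℤ) : O) * om = om - 1 := by push_cast; ring
    rw [h2] at h
    norm_num at h
    exact_mod_cast h
  have hne : (om - 1 : O) ≠ 0 := by
    intro h
    rw [h] at hN
    rw [Nm_eq_zero.mpr rfl] at hN
    norm_num at hN
  have hI : (Ideal.span {(om - 1 : O)}).IsPrime := by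
    apply Ideal.isPrime_of_irreducible_absNorm
    have : Ideal.absNorm (Ideal.span {(om - 1 : O)}) = 3 := hN
    rw [this]
    exact Nat.prime_three
  exact (Ideal.span_singleton_prime hne).mp hI

/-- 3 = -om^2 (om - 1)^2. -/
theorem three_eq : (3 : O) = -om ^ 2 * (om - 1) ^ 2 := by
  have h := om_rel
  linear_combination (om ^ 2 - 3 * om + 3) * h

theorem unit_cases (u : Oˣ) : (u : O) = 1 ∨ (u : O) = -1 ∨ (u : O) = om ∨ (u : O) = -om ∨
    (u : O) = om ^ 2 ∨ (u : O) = -om ^ 2 := by
  have h := IsCyclotomicExtension.Rat.Three.Units.mem zeta_spec u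
  simp only [List.mem_cons, List.mem_nil_iff, or_false] at h
  rcases h with h | h | h | h | h | h
  · left; rw [h]; rfl
  · right; left; rw [h]; rfl
  · right; right; left; rw [h]; rfl
  · right; right; right; left; rw [h]; rfl
  · right; right; right; right; left; rw [h]; rfl
  · right; right; right; right; right; rw [h]; rfl

end H55B
end

-- from Lib.H55K.W0
section

/-!
# H55K, part W: the number of points of an elliptic curve over the extensions of a finite field

k is a field, W a Weierstrass curve over k, R = W.CoordinateRing = k[X] + k[X] Y its affine coordinate ring. dg I is the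
dimension of R/I over k.
-/

open Polynomial

open scoped Polynomial.Bivariate

namespace H55K.WZ

open WeierstrassCurve (Affine)

variable {k : Type} [Field k] (W : Affine k)

/-- The polynomial a₁ X + a₃. -/
noncomputable def hh : k[X] := C W.a₁ * X + C W.a₃

/-- The polynomial X^3 + a₂ X^2 + a₄ X + a₆. -/
noncomputable def gg : k[X] := X ^ 3 + C W.a₂ * X ^ 2 + C W.a₄ * X + C W.a₆

/-- The element p + q Y of the coordinate ring. -/
noncomputable def el (p q : k[X]) : W.CoordinateRing :=
  p • (1 : W.CoordinateRing) + q • Affine.CoordinateRing.mk W Y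

/-- The degree of an ideal of the coordinate ring: the dimension of the quotient. -/
noncomputable def dg (I : Ideal W.CoordinateRing) : ℕ := Module.finrank k (W.CoordinateRing ⧸ I)

/-- The degree of an element: the degree of its norm, which is its order of pole at infinity. -/
noncomputable def nd (f : W.CoordinateRing) : ℕ := (Algebra.norm k[X] f).natDegree

/-- The number of ideals of degree n. -/
noncomputable def idn (n : ℕ) : ℕ := Nat.card {I : Ideal W.CoordinateRing // I ≠ ⊥ ∧ dg W I = n}

/-- The set of prime ideals of degree n. -/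
def prs (n : ℕ) : Set (Ideal W.CoordinateRing) := {P | P.IsPrime ∧ P ≠ ⊥ ∧ dg W P = n}

/-- The number of prime ideals of degree n. -/
noncomputable def pn (n : ℕ) : ℕ := (prs W n).ncard

/-- The ideal of a rational point. -/
noncomputable def PI (x y : k) : Ideal W.CoordinateRing := Affine.CoordinateRing.XYIdeal W x (C y)

theorem exists_el (f : W.CoordinateRing) : ∃ p q : k[X], el W p q = f :=
  Affine.CoordinateRing.exists_smul_basis_eq f

theorem el_eq_zero {p q : k[X]} (h : el W p q = 0) : p = 0 ∧ q = 0 :=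
  Affine.CoordinateRing.smul_basis_eq_zero h


theorem dg_span {f : W.CoordinateRing} (hf : f ≠ 0) : dg W (Ideal.span {f}) = nd W f :=
  finrank_quotient_span_eq_natDegree_norm (Affine.CoordinateRing.basis W) hf

instance finX : Module.Finite k[X] W.CoordinateRing := Module.Finite.of_basis (Affine.CoordinateRing.basis W)

theorem nd_mul (f g : W.CoordinateRing) (hf : f ≠ 0) (hg : g ≠ 0) : nd W (f * g) = nd W f + nd W g := by
  have hn : ∀ f : W.CoordinateRing, f ≠ 0 → Algebra.norm k[X] f ≠ 0 := fun f hf =>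
    Algebra.norm_ne_zero_iff.2 hf
  unfold nd
  rw [map_mul, natDegree_mul (hn f hf) (hn g hg)]

end H55K.WZ
end

-- from Lib.H55K.W1A
section

/-! # H55K, part W: the coordinate ring is a Dedekind domain -/

open Polynomial

open scoped Polynomial.Bivariate

namespace H55K.WZ

open WeierstrassCurve (Affine)

variable {k : Type} [Field k] (W : Affine k)

/-- Chunk W1A (M), pure algebra (k any field, no restriction on the characteristic). Write h = hh W, g = gg W, F(Y) = Y^2 + h Y - g.
Suppose π does not divide q. Let κ = AdjoinRoot π (a field, Fact (Irreducible π)), x̄ = root π, bar : k[X] → κ the reduction (kernel the multiples of π).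
Put y₀ = - bar p / bar q. (1) bar q^2 (y₀^2 + h̄ y₀ - ḡ) = bar (p^2 - p q h - q^2 g) = 0, so (x̄, y₀) is on the curve W.map (algebraMap k κ) (or: satisfies the
equation with the coefficients mapped to κ). (2) 2 y₀ + h̄ = - bar(2 p - q h)/bar q = 0. (3) derivative: π^2 divides N = p^2 - p q h - q^2 g, so π divides
derivative N = 2 p p' - p' q h - p q' h - p q h' - 2 q q' g - q^2 g' ; modulo π: 2 p p' - p' q h = p' (2 p - q h) = 0; - q' (p h + 2 q g) = 0 because
p̄ = - q̄ y₀, h̄ = - 2 y₀, ḡ = y₀^2 + h̄ y₀ = - y₀^2 gives p̄ h̄ + 2 q̄ ḡ = 2 q̄ y₀^2 - 2 q̄ y₀^2 = 0; there remains - p̄ q̄ h̄' - q̄^2 ḡ' = q̄^2 (y₀ h̄' - ḡ') = 0, so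
a₁ y₀ - (3 x̄^2 + 2 a₂ x̄ + a₄) = 0. So (x̄, y₀) is a singular point of the curve over κ, but its discriminant is the image of W.Δ ≠ 0
(WeierstrassCurve.map_Δ; Affine.equation_iff_nonsingular_of_Δ_ne_zero, Affine.nonsingular_iff'): contradiction. So π divides q; then π^2 divides p^2 - p q h - q^2 g
and q^2 g, so π divides p^2 (π | q), so π divides p. -/
theorem irr_dvd (hΔ : W.Δ ≠ 0) {π p q : k[X]} (hπ : Irreducible π) (h1 : π ∣ 2 * p - q * hh W)
    (h2 : π ^ 2 ∣ p ^ 2 - p * q * hh W - q ^ 2 * gg W) : π ∣ p ∧ π ∣ q := by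
  haveI : Fact (Irreducible π) := ⟨hπ⟩
  have hpq : π ∣ q := by
    by_contra hq
    have hq0 : AdjoinRoot.mk π q ≠ 0 := fun h => hq (AdjoinRoot.mk_eq_zero.1 h)
    obtain ⟨b, hb⟩ : ∃ b : k[X] →+* AdjoinRoot π, b = AdjoinRoot.mk π := ⟨_, rfl⟩
    have hbz : ∀ f : k[X], π ∣ f → b f = 0 := fun f hf => by
      rw [hb]
      exact AdjoinRoot.mk_eq_zero.2 hf
    rw [← hb] at hq0
    obtain ⟨f, hf⟩ : ∃ f : k →+* AdjoinRoot π, f = b.comp C := ⟨_, rfl⟩
    have hbC : ∀ c : k, b (C c) = f c := fun c => by rw [hf]; rfl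
    obtain ⟨x, hx⟩ : ∃ x, x = b X := ⟨_, rfl⟩
    have hfi : Function.Injective f := f.injective
    have hΔ' : (W.map f).Δ ≠ 0 := by
      rw [WeierstrassCurve.map_Δ]
      exact fun h => hΔ (hfi (by rw [h, map_zero]))
    obtain ⟨P, hP⟩ : ∃ P, P = b p := ⟨_, rfl⟩
    obtain ⟨Q, hQ⟩ : ∃ Q, Q = b q := ⟨_, rfl⟩
    obtain ⟨P', hP'⟩ : ∃ P', P' = b (derivative p) := ⟨_, rfl⟩
    obtain ⟨Q', hQ'⟩ : ∃ Q', Q' = b (derivative q) := ⟨_, rfl⟩
    rw [← hQ] at hq0
    have bh : b (hh W) = f W.a₁ * x + f W.a₃ := by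
      rw [hh, map_add, map_mul, hbC, hbC, ← hx]
    have bg : b (gg W) = x ^ 3 + f W.a₂ * x ^ 2 + f W.a₄ * x + f W.a₆ := by
      rw [gg, map_add, map_add, map_add, map_mul, map_mul, map_pow, map_pow, hbC, hbC, hbC, ← hx]
    have bh' : b (derivative (hh W)) = f W.a₁ := by
      rw [hh, derivative_add, derivative_mul, derivative_C, derivative_C, derivative_X, zero_mul, zero_add, mul_one,
        add_zero, hbC]
    have bg' : b (derivative (gg W)) = 3 * x ^ 2 + 2 * f W.a₂ * x + f W.a₄ := by
      rw [gg]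
      simp only [derivative_add, derivative_mul, derivative_C, derivative_X, derivative_X_pow, zero_mul, zero_add,
        mul_one, add_zero, map_add, map_mul, map_pow, hbC, ← hx, map_natCast, Nat.cast_ofNat, Nat.add_one_sub_one, pow_one,
        Nat.reduceSub, map_ofNat]
      ring
    have e1 : 2 * P - Q * b (hh W) = 0 := by
      have := hbz _ h1
      rw [map_sub, map_mul, map_mul, map_ofNat, ← hP, ← hQ] at this
      exact this
    have e2 : P ^ 2 - P * Q * b (hh W) - Q ^ 2 * b (gg W) = 0 := by
      have := hbz _ ((dvd_pow_self π two_ne_zero).trans h2)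
      rw [map_sub, map_sub, map_mul, map_mul, map_mul, map_pow, map_pow, ← hP, ← hQ] at this
      exact this
    have e3 : 2 * P * P' - P' * Q * b (hh W) - P * Q' * b (hh W) - P * Q * b (derivative (hh W)) -
        2 * Q * Q' * b (gg W) - Q ^ 2 * b (derivative (gg W)) = 0 := by
      have hd : π ∣ derivative (p ^ 2 - p * q * hh W - q ^ 2 * gg W) := by
        obtain ⟨r, hr⟩ := h2
        rw [hr, derivative_mul, derivative_pow]
        refine dvd_add (Dvd.dvd.mul_right ?_ _) (Dvd.dvd.mul_right (dvd_pow_self π two_ne_zero) _)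
        exact Dvd.dvd.mul_right (Dvd.dvd.mul_left (by rw [Nat.add_one_sub_one, pow_one]) _) _
      have := hbz _ hd
      simp only [derivative_sub, derivative_mul, derivative_pow, map_sub, map_mul, map_add, map_pow, ← hP, ← hQ, ← hP',
        ← hQ', hbC, Nat.add_one_sub_one, pow_one, Nat.cast_ofNat, map_ofNat] at this
      linear_combination this
    obtain ⟨y, hy⟩ : ∃ y, y = -P / Q := ⟨_, rfl⟩
    have hPy : P = -(Q * y) := by
      rw [hy]
      field_simp
    have f1 : 2 * y + b (hh W) = 0 := by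
      rw [hPy] at e1
      have : Q * (2 * y + b (hh W)) = 0 := by linear_combination -e1
      exact (mul_eq_zero.1 this).resolve_left hq0
    have f2 : y ^ 2 + b (hh W) * y - b (gg W) = 0 := by
      rw [hPy] at e2
      have : Q ^ 2 * (y ^ 2 + b (hh W) * y - b (gg W)) = 0 := by linear_combination e2
      exact (mul_eq_zero.1 this).resolve_left (pow_ne_zero 2 hq0)
    have f3 : b (derivative (hh W)) * y - b (derivative (gg W)) = 0 := by
      rw [hPy] at e3
      have : Q ^ 2 * (b (derivative (hh W)) * y - b (derivative (gg W))) = 0 := by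
        linear_combination e3 + (P' * Q + Q * Q' * y) * f1 - 2 * Q * Q' * f2
      exact (mul_eq_zero.1 this).resolve_left (pow_ne_zero 2 hq0)
    rw [bh] at f1 f2
    rw [bg] at f2
    rw [bh', bg'] at f3
    have hE : (W.map f).toAffine.Equation x y := by
      rw [WeierstrassCurve.Affine.equation_iff]
      simp only [WeierstrassCurve.map]
      linear_combination f2
    have hns := (WeierstrassCurve.Affine.equation_iff_nonsingular_of_Δ_ne_zero hΔ').1 hE
    rw [WeierstrassCurve.Affine.nonsingular_iff'] at hns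
    simp only [WeierstrassCurve.map] at hns
    rcases hns.2 with h | h
    · exact h (by linear_combination f3)
    · exact h (by linear_combination f1)
  refine ⟨?_, hpq⟩
  have h3 : π ∣ p ^ 2 := by
    have h4 : p ^ 2 = (p ^ 2 - p * q * hh W - q ^ 2 * gg W) + q * (p * hh W + q * gg W) := by ring
    rw [h4]
    exact dvd_add ((dvd_pow_self π two_ne_zero).trans h2) (Dvd.dvd.mul_right hpq _)
  exact hπ.prime.dvd_of_dvd_pow h3

end H55K.WZ
end

-- from Lib.H55K.W1B
section

/-! # H55K, part W: the coordinate ring is a Dedekind domain -/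

open Polynomial

open scoped Polynomial.Bivariate

namespace H55K.WZ

open WeierstrassCurve (Affine)

variable {k : Type} [Field k] (W : Affine k)

theorem w1b_quad (p q : k[X]) : (el W p q) ^ 2 - (2 * p - q * hh W) • el W p q +
    (p ^ 2 - p * q * hh W - q ^ 2 * gg W) • (1 : W.CoordinateRing) = 0 := by
  have Y_sq : Affine.CoordinateRing.mk W Y ^ 2 =
      Affine.CoordinateRing.mk W (C (gg W) - C (hh W) * Y) :=
    AdjoinRoot.mk_eq_mk.mpr ⟨1, by unfold gg hh; rw [Affine.polynomial]; ring1⟩
  unfold el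
  simp only [Affine.CoordinateRing.smul, map_sub, map_mul, map_pow, map_ofNat] at Y_sq ⊢
  linear_combination (Affine.CoordinateRing.mk W (C q)) ^ 2 * Y_sq

theorem w1b_dvd (hΔ : W.Δ ≠ 0) (d : k[X]) : d ≠ 0 → ∀ p q : k[X], d ∣ 2 * p - q * hh W →
    d ^ 2 ∣ p ^ 2 - p * q * hh W - q ^ 2 * gg W → d ∣ p ∧ d ∣ q := by
  induction d using WfDvdMonoid.induction_on_irreducible with
  | zero => intro h; exact absurd rfl h
  | unit u hu => intro _ p q _ _; exact ⟨hu.dvd, hu.dvd⟩
  | mul a i ha hi ih =>
    intro _ p q h1 h2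
    have hi0 : i ≠ 0 := hi.ne_zero
    obtain ⟨⟨p', rfl⟩, ⟨q', rfl⟩⟩ := irr_dvd W hΔ hi (dvd_trans (Dvd.intro _ rfl) h1)
      (dvd_trans ⟨a ^ 2, by ring⟩ h2)
    obtain ⟨h3, h4⟩ := ih ha p' q' (by
      have e : 2 * (i * p') - i * q' * hh W = i * (2 * p' - q' * hh W) := by ring
      rw [e] at h1
      exact (mul_dvd_mul_iff_left hi0).1 h1) (by
      have e : (i * p') ^ 2 - i * p' * (i * q') * hh W - (i * q') ^ 2 * gg W =
          i ^ 2 * (p' ^ 2 - p' * q' * hh W - q' ^ 2 * gg W) := by ring
      rw [e, mul_pow] at h2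
      exact (mul_dvd_mul_iff_left (pow_ne_zero 2 hi0)).1 h2)
    exact ⟨mul_dvd_mul_left i h3, mul_dvd_mul_left i h4⟩

/-- Chunk W1B (M). R = W.CoordinateRing is integrally closed. Let z in FractionRing R (= W.FunctionField) be integral over R. R is integral over k[X] (finX),
so z is integral over k[X]. z = r/s, r, s in R; multiply by the conjugate of s (s times an element of R is in k[X]: norm s is divisible by s, coe_norm_smul_basis in
Mathlib Affine/Point.lean): z = (p + q Y)/d with p, q, d in k[X], d ≠ 0. The automorphism σ of R over k[X] with σ(Y) = - Y - h (AdjoinRoot.lift; or work with the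
trace and norm of FractionRing R over FractionRing k[X], Algebra.isIntegral_trace, isIntegral_norm) extends to FractionRing R, σ z is integral, so z + σ z =
(2 p - q h)/d and z σ z = norm(p + q Y)/d^2 are integral over k[X]; they are in the fraction field of k[X], which is integrally closed: d divides 2 p - q h and d^2 divides
p^2 - p q h - q^2 g. By induction on d (UniqueFactorizationMonoid induction_on_prime / WfDvdMonoid.induction_on_irreducible or the degree): d divides p and q: if d = π d' with π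
irreducible, irr_dvd gives π | p, π | q, divide p, q, d by π. So z is in R. -/
theorem int_closed (hΔ : W.Δ ≠ 0) : IsIntegrallyClosed W.CoordinateRing := by
  rw [isIntegrallyClosed_iff (FractionRing W.CoordinateRing)]
  intro z hz
  have hzA : IsIntegral k[X] z := isIntegral_trans (R := k[X]) (A := W.CoordinateRing) z hz
  obtain ⟨r, s, hs, hrs⟩ := IsFractionRing.div_surjective (A := W.CoordinateRing) z
  have hsA : IsAlgebraic k[X] s := (Algebra.IsIntegral.isIntegral (R := k[X]) s).isAlgebraic
  obtain ⟨d, hd, e, he⟩ := hsA.exists_nonzero_dvd hs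
  obtain ⟨p, q, hpq⟩ := exists_el W (r * e)
  have hs0 : algebraMap W.CoordinateRing (FractionRing W.CoordinateRing) s ≠ 0 := by
    rw [Ne, FaithfulSMul.algebraMap_eq_zero_iff]
    exact nonZeroDivisors.ne_zero hs
  have h1 : algebraMap k[X] (FractionRing W.CoordinateRing) d * z =
      algebraMap W.CoordinateRing (FractionRing W.CoordinateRing) (el W p q) := by
    rw [IsScalarTower.algebraMap_apply k[X] W.CoordinateRing (FractionRing W.CoordinateRing), he, hpq,
      ← hrs, map_mul, map_mul]
    field_simp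
  have hd0 : algebraMap k[X] (FractionRing W.CoordinateRing) d ≠ 0 := by
    rw [Ne, FaithfulSMul.algebraMap_eq_zero_iff]
    exact hd
  set t : k[X] := 2 * p - q * hh W with ht
  set n : k[X] := p ^ 2 - p * q * hh W - q ^ 2 * gg W with hn
  set P : k[X][X] := C (d ^ 2) * X ^ 2 - C (d * t) * X + C n with hP
  have h2 : aeval z P = 0 := by
    have h3 := congrArg (algebraMap W.CoordinateRing (FractionRing W.CoordinateRing)) (w1b_quad W p q)
    rw [map_add, map_sub, map_pow, ← h1, map_zero, Algebra.smul_def, Algebra.smul_def, map_mul, map_mul,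
      ← h1, map_one, mul_one, ← IsScalarTower.algebraMap_apply, ← IsScalarTower.algebraMap_apply] at h3
    rw [hP]
    simp only [map_add, map_sub, map_mul, map_pow, aeval_C, aeval_X]
    rw [← h3]
    ring
  have h4 := minpoly.isIntegrallyClosed_dvd hzA h2
  have hm := minpoly.monic hzA
  have hmpos := minpoly.natDegree_pos hzA
  obtain ⟨c, hc⟩ := h4
  have hPc : P.coeff 2 = d ^ 2 ∧ P.coeff 1 = -(d * t) ∧ P.coeff 0 = n := by
    rw [hP]
    refine ⟨?_, ?_, ?_⟩ <;> rw [coeff_add, coeff_sub, coeff_C_mul, coeff_C_mul, coeff_X_pow] <;>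
      simp [coeff_X, coeff_C]
  have hPd : P.natDegree = 2 := by
    have h5 : P.natDegree ≤ 2 := by
      rw [hP]
      compute_degree
    refine le_antisymm h5 (le_natDegree_of_ne_zero ?_)
    rw [hPc.1]
    exact pow_ne_zero 2 hd
  have hP0 : P ≠ 0 := by
    intro h0
    rw [h0, natDegree_zero] at hPd
    omega
  have hc0 : c ≠ 0 := by
    rintro rfl
    exact hP0 (by rw [hc, mul_zero])
  have hdeg : (minpoly k[X] z).natDegree + c.natDegree = 2 := by
    rw [← hPd, hc, natDegree_mul hm.ne_zero hc0]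
  have hcase : (minpoly k[X] z).natDegree = 1 ∨ (minpoly k[X] z).natDegree = 2 := by omega
  rcases hcase with h5 | h5
  · have h6 := hm.eq_X_add_C h5
    have h7 := minpoly.aeval k[X] z
    rw [h6, map_add, aeval_X, aeval_C] at h7
    refine ⟨-algebraMap k[X] W.CoordinateRing ((minpoly k[X] z).coeff 0), ?_⟩
    rw [map_neg, ← IsScalarTower.algebraMap_apply]
    linear_combination -h7
  · have hc1 : c.natDegree = 0 := by omega
    obtain ⟨b, hb⟩ := natDegree_eq_zero.1 hc1
    have hco : ∀ i, P.coeff i = (minpoly k[X] z).coeff i * b := by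
      intro i
      rw [hc, ← hb, coeff_mul_C]
    have hb2 : b = d ^ 2 := by
      have h8 := hco 2
      have h9 : (minpoly k[X] z).coeff 2 = 1 := by
        rw [← h5]
        exact hm
      rw [hPc.1, h9, one_mul] at h8
      exact h8.symm
    have ht' : d ∣ t := by
      have h8 := hco 1
      rw [hPc.2.1, hb2] at h8
      refine ⟨-(minpoly k[X] z).coeff 1, ?_⟩
      apply mul_left_cancel₀ hd
      linear_combination -h8
    have hn' : d ^ 2 ∣ n := by
      have h8 := hco 0
      rw [hPc.2.2, hb2] at h8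
      exact ⟨(minpoly k[X] z).coeff 0, by rw [h8, mul_comm]⟩
    obtain ⟨⟨p', hp'⟩, ⟨q', hq'⟩⟩ := w1b_dvd W hΔ d hd p q ht' hn'
    refine ⟨el W p' q', ?_⟩
    apply mul_left_cancel₀ hd0
    rw [h1, IsScalarTower.algebraMap_apply k[X] W.CoordinateRing (FractionRing W.CoordinateRing), ← map_mul]
    congr 1
    rw [← Algebra.smul_def, hp', hq']
    unfold el
    rw [smul_add, smul_smul, smul_smul]

end H55K.WZ
end

-- from Lib.H55K.W2A
section

/-! # H55K, part W: the degree of an ideal -/

open Polynomial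

open scoped Polynomial.Bivariate

namespace H55K.WZ

open WeierstrassCurve (Affine)

variable {k : Type} [Field k] (W : Affine k)

/-- Chunk W2A (S/M). I ≠ ⊥ contains n(X) = norm f ≠ 0 for some f (norm f is a multiple of f in R: coe_norm_smul_basis), R/I is a quotient of R/(n), which is finite over k (finrank_quotient_span_eq_natDegree_norm has
natDegree; for finiteness: R is finite over k[X], R/(n) finite over k[X]/(n) = AdjoinRoot n, finite over k (AdjoinRoot.powerBasis, Polynomial / Module.Finite.of_basis); or the instance in Mathlib.LinearAlgebra.FreeModule.Norm with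
Ideal.quotientEquivDirectSum / finrank_quotient_eq_sum). -/
theorem fin_quot {I : Ideal W.CoordinateRing} (hI : I ≠ ⊥) : Module.Finite k (W.CoordinateRing ⧸ I) := by
  have e := Ideal.quotientEquivDirectSum k (Affine.CoordinateRing.basis W) hI
  exact Module.Finite.equiv e.symm

/-- Chunk W2A. Finrank 0 of a finite module over a field: subsingleton. -/
theorem dg_zero {I : Ideal W.CoordinateRing} (hI : I ≠ ⊥) : dg W I = 0 ↔ I = ⊤ := by
  have := fin_quot W hI
  unfold dg
  rw [Module.finrank_zero_iff, Ideal.Quotient.subsingleton_iff]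

/-- Chunk W2A. R/I → R/J is surjective; equality of the dimensions gives injectivity. -/
theorem dg_le {I J : Ideal W.CoordinateRing} (hI : I ≠ ⊥) (h : I ≤ J) : dg W J ≤ dg W I ∧ (dg W I = dg W J → I = J) := by
  have hJ : J ≠ ⊥ := by
    intro h0
    apply hI
    rw [eq_bot_iff, ← h0]
    exact h
  have := fin_quot W hI
  have := fin_quot W hJ
  let φ : (W.CoordinateRing ⧸ I) →ₗ[k] (W.CoordinateRing ⧸ J) := (Ideal.Quotient.factorₐ k h).toLinearMap
  have hφ : Function.Surjective φ := Ideal.Quotient.factor_surjective h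
  refine ⟨LinearMap.finrank_le_finrank_of_surjective hφ, fun he => le_antisymm h ?_⟩
  have hinj : Function.Injective φ :=
    (LinearMap.injective_iff_surjective_of_finrank_eq_finrank he).2 hφ
  intro x hx
  have h1 : φ (Ideal.Quotient.mk I x) = 0 := by
    show Ideal.Quotient.factor h (Ideal.Quotient.mk I x) = 0
    rw [Ideal.Quotient.factor_mk]
    exact Ideal.Quotient.eq_zero_iff_mem.2 hx
  have h2 : Ideal.Quotient.mk I x = 0 := hinj (by rw [h1, map_zero])
  exact Ideal.Quotient.eq_zero_iff_mem.1 h2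


end H55K.WZ
end

-- from Lib.H55K.W4D
section

/-! # H55K, part W: finiteness -/

open Polynomial

open scoped Polynomial.Bivariate

namespace H55K.WZ

open WeierstrassCurve (Affine)

variable {k : Type} [Field k] (W : Affine k)

theorem w4d_monic [Finite k] (n : ℕ) : {c : k[X] | c.Monic ∧ c.natDegree = n}.Finite := by
  have h1 : Finite (degreeLT k (n + 1)) :=
    Finite.of_equiv _ (degreeLTEquiv k (n + 1)).symm.toEquiv
  refine Set.Finite.subset (Set.toFinite ((degreeLT k (n + 1) : Submodule k k[X]) : Set k[X])) ?_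
  rintro c ⟨-, hc2⟩
  show c ∈ degreeLT k (n + 1)
  rw [mem_degreeLT]
  refine lt_of_le_of_lt degree_le_natDegree ?_
  rw [hc2]
  exact_mod_cast Nat.lt_succ_self n

theorem w4d_ne (c : k[X]) (hc : c ≠ 0) : Ideal.span {algebraMap k[X] W.CoordinateRing c} ≠ ⊥ := by
  rw [Ne, Ideal.span_singleton_eq_bot]
  intro h
  apply hc
  refine (el_eq_zero W (p := c) (q := 0) ?_).1
  unfold el
  rw [zero_smul, add_zero, ← Algebra.algebraMap_eq_smul_one, h]

theorem w4d_above [Finite k] (J : Ideal W.CoordinateRing) (hJ : J ≠ ⊥) :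
    {I : Ideal W.CoordinateRing | J ≤ I}.Finite := by
  have h1 : Module.Finite k (W.CoordinateRing ⧸ J) := fin_quot W hJ
  have h2 : Finite (W.CoordinateRing ⧸ J) := Module.finite_of_finite k
  have h3 : Finite (Ideal (W.CoordinateRing ⧸ J)) :=
    Finite.of_injective (fun I : Ideal (W.CoordinateRing ⧸ J) => (I : Set (W.CoordinateRing ⧸ J)))
      SetLike.coe_injective
  refine Set.Finite.of_finite_image (f := fun I => Ideal.map (Ideal.Quotient.mk J) I)
    (Set.toFinite _) ?_
  intro I hI I' hI' h
  have h4 := congrArg (Ideal.comap (Ideal.Quotient.mk J)) h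
  simp only at h4
  rw [Ideal.comap_map_mk hI, Ideal.comap_map_mk hI'] at h4
  exact h4

theorem w4d_mem (I : Ideal W.CoordinateRing) (hI : I ≠ ⊥) :
    ∃ c : k[X], (c.Monic ∧ c.natDegree = dg W I) ∧ algebraMap k[X] W.CoordinateRing c ∈ I := by
  have h1 : Module.Finite k (W.CoordinateRing ⧸ I) := fin_quot W hI
  set φ : k[X] →ₐ[k] (W.CoordinateRing ⧸ I) :=
    (Ideal.Quotient.mkₐ k I).comp ((Algebra.ofId k[X] W.CoordinateRing).restrictScalars k) with hφ
  set x : W.CoordinateRing ⧸ I := φ X with hx
  set c : k[X] := (Algebra.lmul k (W.CoordinateRing ⧸ I) x).charpoly with hc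
  refine ⟨c, ⟨LinearMap.charpoly_monic _, ?_⟩, ?_⟩
  · rw [hc, LinearMap.charpoly_natDegree]
    rfl
  · have h2 : aeval (Algebra.lmul k (W.CoordinateRing ⧸ I) x) c = 0 := LinearMap.aeval_self_charpoly _
    rw [aeval_algHom_apply] at h2
    have h3 : aeval x c = 0 := by
      have h4 := congrArg (fun f : Module.End k (W.CoordinateRing ⧸ I) => f 1) h2
      simpa using h4
    rw [hx, aeval_algHom_apply, aeval_X_left_apply] at h3
    exact Ideal.Quotient.eq_zero_iff_mem.1 h3

/-- Chunk W4D (S/M). Let dg I = n. The characteristic polynomial c of the multiplication by the class of X on R/I (LinearMap.charpoly, fin_quot) is monic of degree n and c(X) = 0 in R/I (Cayley-Hamilton, LinearMap.aeval_self_charpoly applied to 1): algebraMap k[X] R c is in I. So I contains one of the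
finitely many ideals span {algebraMap k[X] R c}, c monic of degree n (k finite: finitely many polynomials of degree n, degreeLT finite), c ≠ 0; R/span{c} is finite (fin_quot, Module.finite_of_finite k), so only finitely many ideals contain it (Ideal.orderIsoOfQuotient / comap injective from the ideals of the finite ring R/span{c}). -/
theorem fin_id [Finite k] (n : ℕ) : {I : Ideal W.CoordinateRing | I ≠ ⊥ ∧ dg W I = n}.Finite := by
  refine Set.Finite.subset (Set.Finite.biUnion (w4d_monic (k := k) n)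
    (t := fun c => {I : Ideal W.CoordinateRing |
      Ideal.span {algebraMap k[X] W.CoordinateRing c} ≤ I}) ?_) ?_
  · rintro c ⟨hc, -⟩
    exact w4d_above W _ (w4d_ne W c hc.ne_zero)
  · rintro I ⟨hI, hn⟩
    obtain ⟨c, ⟨hc1, hc2⟩, hc3⟩ := w4d_mem W I hI
    rw [Set.mem_iUnion₂]
    refine ⟨c, ⟨hc1, hc2.trans hn⟩, ?_⟩
    show Ideal.span {algebraMap k[X] W.CoordinateRing c} ≤ I
    rw [Ideal.span_singleton_le_iff_mem]
    exact hc3

end H55K.WZ
end

-- from Lib.H55K.W2C
section

/-! # H55K, part W: ideals of degree one are rational points -/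

open Polynomial

open scoped Polynomial.Bivariate

namespace H55K.WZ

open WeierstrassCurve (Affine)

variable {k : Type} [Field k] (W : Affine k)

/-- The value of a polynomial at the point, modulo the ideal of the point. -/
theorem w2c_val (x y : k) (P : k[X][Y]) :
    Affine.CoordinateRing.mk W P - algebraMap k W.CoordinateRing (evalEval x y P) ∈ PI W x y := by
  have h1 : P - C (C (evalEval x y P)) ∈ Ideal.span {C (X - C x), X - C (C y)} := by
    rw [mem_span_C_X_sub_C_X_sub_C_iff_eval_eval_eq_zero]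
    simp [evalEval]
  have h2 := Ideal.mem_map_of_mem (Affine.CoordinateRing.mk W) h1
  rw [Ideal.map_span, Set.image_pair] at h2
  have h3 : Affine.CoordinateRing.mk W (P - C (C (evalEval x y P))) =
      Affine.CoordinateRing.mk W P - algebraMap k W.CoordinateRing (evalEval x y P) := by
    rw [map_sub]
    rfl
  rw [← h3]
  exact h2

/-- Chunk W2C (S). quotientXYIdealEquiv: R/PI x y is isomorphic to k. -/
theorem dg_PI {x y : k} (h : W.Equation x y) : PI W x y ≠ ⊥ ∧ dg W (PI W x y) = 1 := by
  refine ⟨?_, ?_⟩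
  · intro h0
    have h1 : Affine.CoordinateRing.XClass W x ∈ PI W x y := Ideal.subset_span (Set.mem_insert _ _)
    rw [h0, Ideal.mem_bot] at h1
    exact Affine.CoordinateRing.XClass_ne_zero x h1
  · unfold dg PI
    rw [(Affine.CoordinateRing.quotientXYIdealEquiv (y := C y) h).toLinearEquiv.finrank_eq,
      Module.finrank_self]

/-- Chunk W2C (S/M). If dim R/I = 1 then k → R/I is bijective (injective because R/I ≠ 0, equal dimensions); let x, y in k be the elements with X - x, Y - y in I (classes of X and Y). The equation holds in R/I, so in k. PI x y ≤ I, dimensions 1 and 1: equal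
(dg_le). -/
theorem PI_of_dg {I : Ideal W.CoordinateRing} (hI : I ≠ ⊥) (h : dg W I = 1) : ∃ x y : k, W.Equation x y ∧ I = PI W x y := by
  have hbij := Module.Free.bijective_algebraMap_of_finrank_eq_one
    (R := k) (S := W.CoordinateRing ⧸ I) h
  obtain ⟨x, hx⟩ := hbij.2 (Ideal.Quotient.mk I (Affine.CoordinateRing.mk W (C X)))
  obtain ⟨y, hy⟩ := hbij.2 (Ideal.Quotient.mk I (Affine.CoordinateRing.mk W X))
  have hX : Affine.CoordinateRing.XClass W x ∈ I := by
    rw [← Ideal.Quotient.eq_zero_iff_mem]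
    unfold Affine.CoordinateRing.XClass
    rw [map_sub, map_sub, map_sub, ← hx]
    exact sub_self _
  have hY : Affine.CoordinateRing.YClass W (C y) ∈ I := by
    rw [← Ideal.Quotient.eq_zero_iff_mem]
    unfold Affine.CoordinateRing.YClass
    rw [map_sub, map_sub, ← hy]
    exact sub_self _
  have hle : PI W x y ≤ I := by
    unfold PI Affine.CoordinateRing.XYIdeal
    rw [Ideal.span_le]
    rintro z (rfl | hz)
    · exact hX
    · rw [Set.mem_singleton_iff.1 hz]
      exact hY
  have heq : W.Equation x y := by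
    have h1 := hle (w2c_val W x y W.polynomial)
    have h0 : Affine.CoordinateRing.mk W W.polynomial = 0 := AdjoinRoot.mk_self
    rw [h0, zero_sub, neg_mem_iff, ← Ideal.Quotient.eq_zero_iff_mem] at h1
    have h2 : algebraMap k (W.CoordinateRing ⧸ I) (evalEval x y W.polynomial) =
        algebraMap k (W.CoordinateRing ⧸ I) 0 := by
      rw [map_zero]
      exact h1
    exact hbij.1 h2
  obtain ⟨h1, h2⟩ := dg_PI W heq
  exact ⟨x, y, heq, ((dg_le W h1 hle).2 (by rw [h2, h])).symm⟩

/-- Chunk W2C. The value of f = p + q Y at the point: f - (p(x) + q(x) y) is in PI x y (X - x divides p - p(x)). -/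
theorem val_PI (x y : k) (f : W.CoordinateRing) : ∃ c : k, f - algebraMap k W.CoordinateRing c ∈ PI W x y := by
  obtain ⟨P, rfl⟩ := AdjoinRoot.mk_surjective f
  exact ⟨_, w2c_val W x y P⟩

end H55K.WZ
end

-- from Lib.H55K.W3A
section

/-! # H55K, part W: the functions with a pole of bounded order at infinity -/

open Polynomial

open scoped Polynomial.Bivariate

namespace H55K.WZ

open WeierstrassCurve (Affine)

variable {k : Type} [Field k] (W : Affine k)

theorem w3a_p (p : k[X]) (m : ℕ) : 2 • p.degree ≤ (m : WithBot ℕ) ↔ p.degree < ((m / 2 + 1 : ℕ) : WithBot ℕ) := by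
  by_cases hp : p = 0
  · subst hp
    rw [degree_zero]
    exact ⟨fun _ => WithBot.bot_lt_coe _, fun _ => by rw [two_nsmul, WithBot.bot_add]; exact bot_le⟩
  · rw [degree_eq_natDegree hp, two_nsmul]
    norm_cast
    omega

theorem w3a_q (q : k[X]) (m : ℕ) : 2 • q.degree + 3 ≤ (m : WithBot ℕ) ↔
    q.degree < (((m - 1) / 2 : ℕ) : WithBot ℕ) := by
  by_cases hq : q = 0
  · subst hq
    rw [degree_zero]
    exact ⟨fun _ => WithBot.bot_lt_coe _,
      fun _ => by rw [two_nsmul, WithBot.bot_add, WithBot.bot_add]; exact bot_le⟩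
  · rw [degree_eq_natDegree hq, two_nsmul]
    have e : ((q.natDegree : WithBot ℕ) + (q.natDegree : WithBot ℕ) + 3) =
      ((q.natDegree + q.natDegree + 3 : ℕ) : WithBot ℕ) := by
      push_cast
      rfl
    rw [e, Nat.cast_le, Nat.cast_lt]
    omega

theorem w3a_nd (p q : k[X]) (m : ℕ) : nd W (el W p q) ≤ m ↔
    p.degree < ((m / 2 + 1 : ℕ) : WithBot ℕ) ∧ q.degree < (((m - 1) / 2 : ℕ) : WithBot ℕ) := by
  unfold nd el
  rw [natDegree_le_iff_degree_le, Affine.CoordinateRing.degree_norm_smul_basis, max_le_iff, w3a_p,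
    w3a_q]

/-- The linear map. -/
noncomputable def w3a_l : (k[X] × k[X]) →ₗ[k] W.CoordinateRing where
  toFun x := el W x.1 x.2
  map_add' x y := by
    unfold el
    rw [Prod.fst_add, Prod.snd_add, add_smul, add_smul]
    exact add_add_add_comm _ _ _ _
  map_smul' c x := by
    unfold el
    rw [Prod.smul_fst, Prod.smul_snd, smul_assoc, smul_assoc, RingHom.id_apply, smul_add]

/-- Chunk W3A (M). L = range of the k-linear map (p, q) ↦ el W p q from degreeLT k (m / 2 + 1) × degreeLT k ((m - 1) / 2) to R (injective by el_eq_zero; finrank of degreeLT k n is n: Polynomial.degreeLTEquiv; m / 2 + 1 + (m - 1) / 2 = m for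
m ≥ 1). Membership: for f = el W p q, degree (norm f) = max (2 degree p) (2 degree q + 3) (Affine.CoordinateRing.degree_norm_smul_basis), so nd f ≤ m iff (p = 0 or 2 natDegree p ≤ m) and (q = 0 or 2 natDegree q + 3 ≤ m) (f = 0 : nd 0 = 0). -/
theorem exists_L (m : ℕ) (hm : 1 ≤ m) : ∃ L : Submodule k W.CoordinateRing, Module.Finite k L ∧ Module.finrank k L = m ∧
    ∀ f, f ∈ L ↔ nd W f ≤ m := by
  have hf1 : ∀ n, Module.Finite k (degreeLT k n) := fun n =>
    Module.Finite.equiv (degreeLTEquiv k n).symm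
  have hr1 : ∀ n, Module.finrank k (degreeLT k n) = n := fun n => by
    rw [(degreeLTEquiv k n).finrank_eq, Module.finrank_fin_fun]
  haveI := hf1 (m / 2 + 1)
  haveI := hf1 ((m - 1) / 2)
  let Φ : (degreeLT k (m / 2 + 1) × degreeLT k ((m - 1) / 2)) →ₗ[k] W.CoordinateRing :=
    (w3a_l W) ∘ₗ ((degreeLT k (m / 2 + 1)).subtype.prodMap (degreeLT k ((m - 1) / 2)).subtype)
  have hΦ : ∀ x, Φ x = el W x.1 x.2 := fun x => rfl
  have hinj : Function.Injective Φ := by
    rw [injective_iff_map_eq_zero]
    intro x hx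
    rw [hΦ] at hx
    obtain ⟨h1, h2⟩ := el_eq_zero W hx
    exact Prod.ext (Subtype.ext h1) (Subtype.ext h2)
  refine ⟨LinearMap.range Φ, inferInstance, ?_, ?_⟩
  · rw [LinearMap.finrank_range_of_inj hinj, Module.finrank_prod, hr1, hr1]
    omega
  · intro f
    constructor
    · rintro ⟨x, rfl⟩
      rw [hΦ, w3a_nd]
      exact ⟨mem_degreeLT.1 x.1.2, mem_degreeLT.1 x.2.2⟩
    · intro h
      obtain ⟨p, q, rfl⟩ := exists_el W f
      rw [w3a_nd] at h
      exact ⟨(⟨p, mem_degreeLT.2 h.1⟩, ⟨q, mem_degreeLT.2 h.2⟩), rfl⟩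

/-- Chunk W3A. nd f = 0 iff f is a constant (f = p + q Y: q = 0 and p constant; nd 0 = 0, degree_norm_smul_basis). -/
theorem nd_zero (f : W.CoordinateRing) : nd W f = 0 ↔ ∃ c : k, f = algebraMap k W.CoordinateRing c := by
  constructor
  · intro h
    obtain ⟨p, q, rfl⟩ := exists_el W f
    have h1 := (w3a_nd W p q 0).1 h.le
    have hq : q = 0 := by
      by_contra hq
      have h2 := h1.2
      rw [degree_eq_natDegree hq] at h2
      have h3 : q.natDegree < (0 - 1) / 2 := by exact_mod_cast h2
      omega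
    have hp : p.degree ≤ 0 := by
      by_cases hp : p = 0
      · rw [hp, degree_zero]
        exact bot_le
      · have h2 := h1.1
        rw [degree_eq_natDegree hp] at h2 ⊢
        have h3 : p.natDegree < 0 / 2 + 1 := by exact_mod_cast h2
        have h4 : p.natDegree = 0 := by omega
        rw [h4]
        exact le_rfl
    refine ⟨p.coeff 0, ?_⟩
    unfold el
    rw [hq, zero_smul, add_zero]
    conv_lhs => rw [eq_C_of_degree_le_zero hp]
    rw [← Algebra.algebraMap_eq_smul_one]
    rfl
  · rintro ⟨c, rfl⟩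
    have e : algebraMap k W.CoordinateRing c = el W (C c) 0 := by
      unfold el
      rw [zero_smul, add_zero, ← Algebra.algebraMap_eq_smul_one]
      rfl
    rw [e]
    refine Nat.le_zero.1 ((w3a_nd W (C c) 0 0).2 ⟨?_, ?_⟩)
    · exact lt_of_le_of_lt degree_C_le (by norm_num)
    · rw [degree_zero]
      exact WithBot.bot_lt_coe _

end H55K.WZ
end

-- from Lib.H55K.W3D
section

/-! # H55K, part W: numbers of functions -/

open Polynomial
open scoped Polynomial.Bivariate

namespace H55K.WZ

open WeierstrassCurve (Affine)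

variable {k : Type} [Field k] (W : Affine k)

theorem w3d_nd_zero : nd W (0 : W.CoordinateRing) = 0 := by
  rw [nd_zero]
  exact ⟨0, (map_zero _).symm⟩

theorem w3d_L [Finite k] (m : ℕ) (hm : 1 ≤ m) :
    {f : W.CoordinateRing | nd W f ≤ m}.ncard = Nat.card k ^ m ∧ {f : W.CoordinateRing | nd W f ≤ m}.Finite := by
  obtain ⟨L, h1, h2, h3⟩ := exists_L W m hm
  have e : {f : W.CoordinateRing | nd W f ≤ m} = (L : Set W.CoordinateRing) := by
    ext f
    exact (h3 f).symm
  have hfin : Finite L := Module.finite_of_finite k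
  rw [e]
  refine ⟨?_, Set.toFinite _⟩
  rw [← Nat.card_coe_set_eq]
  show Nat.card L = _
  rw [Module.natCard_eq_pow_finrank (K := k) (V := L), h2]

theorem w3d_diff (S : Set W.CoordinateRing) (m : ℕ) (hm : 2 ≤ m) {a b : ℕ} (hfin : {f : W.CoordinateRing | nd W f ≤ m}.Finite)
    (ha : {f : W.CoordinateRing | f ∈ S ∧ nd W f ≤ m}.ncard = a)
    (hb : {f : W.CoordinateRing | f ∈ S ∧ nd W f ≤ m - 1}.ncard = b) :
    Nat.card {f : W.CoordinateRing // f ∈ S ∧ f ≠ 0 ∧ nd W f = m} + b = a := by
  have e : {f : W.CoordinateRing | f ∈ S ∧ f ≠ 0 ∧ nd W f = m} =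
      {f : W.CoordinateRing | f ∈ S ∧ nd W f ≤ m} \ {f : W.CoordinateRing | f ∈ S ∧ nd W f ≤ m - 1} := by
    ext f
    constructor
    · rintro ⟨h1, h2, h3⟩
      refine ⟨⟨h1, h3.le⟩, ?_⟩
      rintro ⟨_, h4⟩
      omega
    · rintro ⟨⟨h1, h2⟩, h3⟩
      have h4 : nd W f = m := by
        by_contra h5
        exact h3 ⟨h1, by omega⟩
      refine ⟨h1, ?_, h4⟩
      rintro rfl
      rw [w3d_nd_zero] at h4
      omega
  have h1 : Nat.card {f : W.CoordinateRing // f ∈ S ∧ f ≠ 0 ∧ nd W f = m} =
      {f : W.CoordinateRing | f ∈ S ∧ f ≠ 0 ∧ nd W f = m}.ncard := rfl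
  rw [h1, e, ← ha, ← hb]
  refine Set.ncard_sdiff_add_ncard_of_subset ?_ ?_
  · rintro f ⟨h2, h3⟩
    exact ⟨h2, h3.trans (Nat.sub_le _ _)⟩
  · exact hfin.subset fun f hf => hf.2

/-- Chunk W3D (M). Number of f with nd f ≤ m is q^m for m ≥ 1 (exists_L, Module.card_eq_pow_finrank: Nat.card L = (Nat.card k)^finrank); {nd ≤ m} is the disjoint union of {nd ≤ m - 1} and {f ≠ 0, nd f = m} (m ≥ 2; nd 0 = 0). -/
theorem card_R [Finite k] (m : ℕ) (hm : 2 ≤ m) :
    Nat.card {f : W.CoordinateRing // f ∈ (⊤ : Ideal W.CoordinateRing) ∧ f ≠ 0 ∧ nd W f = m} + Nat.card k ^ (m - 1) =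
      Nat.card k ^ m := by
  have e : ∀ n, {f : W.CoordinateRing | f ∈ ((⊤ : Ideal W.CoordinateRing) : Set W.CoordinateRing) ∧ nd W f ≤ n} =
      {f : W.CoordinateRing | nd W f ≤ n} := by
    intro n
    ext f
    exact ⟨fun h => h.2, fun h => ⟨trivial, h⟩⟩
  refine w3d_diff W ((⊤ : Ideal W.CoordinateRing) : Set W.CoordinateRing) m hm (w3d_L W m (by omega)).2 ?_ ?_
  · rw [e]
    exact (w3d_L W m (by omega)).1
  · rw [e]
    exact (w3d_L W (m - 1) (by omega)).1

theorem w3d_P [Finite k] {x y : k} (h : W.Equation x y) (m : ℕ) (hm : 1 ≤ m) :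
    {f : W.CoordinateRing | f ∈ (PI W x y : Set W.CoordinateRing) ∧ nd W f ≤ m}.ncard = Nat.card k ^ (m - 1) := by
  obtain ⟨L, h1, h2, h3⟩ := exists_L W m hm
  obtain ⟨hb, hd⟩ := dg_PI W h
  let φ : L →ₗ[k] (W.CoordinateRing ⧸ PI W x y) := (Ideal.Quotient.mkₐ k (PI W x y)).toLinearMap ∘ₗ L.subtype
  have hfq : Module.Finite k (W.CoordinateRing ⧸ PI W x y) := by
    refine Module.finite_of_finrank_pos ?_
    have : Module.finrank k (W.CoordinateRing ⧸ PI W x y) = 1 := hd
    rw [this]
    exact one_pos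
  have hsurj : Function.Surjective φ := by
    intro z
    obtain ⟨f, rfl⟩ := Ideal.Quotient.mk_surjective z
    obtain ⟨c, hc⟩ := val_PI W x y f
    have hcL : algebraMap k W.CoordinateRing c ∈ L := by
      rw [h3, (nd_zero W _).2 ⟨c, rfl⟩]
      exact Nat.zero_le _
    refine ⟨⟨_, hcL⟩, ?_⟩
    show Ideal.Quotient.mk (PI W x y) (algebraMap k W.CoordinateRing c) = Ideal.Quotient.mk (PI W x y) f
    rw [eq_comm, Ideal.Quotient.eq]
    exact hc
  have hfr := LinearMap.finrank_range_add_finrank_ker φ
  rw [LinearMap.range_eq_top.2 hsurj, finrank_top, h2] at hfr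
  have hfr' : Module.finrank k φ.ker = m - 1 := by
    have : Module.finrank k (W.CoordinateRing ⧸ PI W x y) = 1 := hd
    omega
  have hcard : Nat.card φ.ker = Nat.card k ^ (m - 1) := by
    rw [Module.natCard_eq_pow_finrank (K := k) (V := φ.ker), hfr']
  rw [← hcard, ← Nat.card_coe_set_eq]
  refine Nat.card_congr ⟨fun f => ⟨⟨f.1, (h3 _).2 f.2.2⟩, ?_⟩, fun g => ⟨g.1.1, ?_, (h3 _).1 g.1.2⟩, fun f => rfl,
    fun g => rfl⟩
  · rw [LinearMap.mem_ker]
    show Ideal.Quotient.mk (PI W x y) f.1 = 0
    rw [Ideal.Quotient.eq_zero_iff_mem]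
    exact f.2.1
  · have h4 := LinearMap.mem_ker.1 g.2
    change Ideal.Quotient.mk (PI W x y) g.1.1 = 0 at h4
    rw [Ideal.Quotient.eq_zero_iff_mem] at h4
    exact h4

/-- Chunk W3D. For m ≥ 1 the subspace {f in PI x y, nd f ≤ m} of L has dimension m - 1: the quotient of L by it is R/PI (dimension 1, dg_PI) because the constants map onto R/PI (val_PI; constants are in L: nd = 0). So it has q^(m-1) elements; difference for m and m - 1 (m ≥ 2). -/
theorem card_P [Finite k] {x y : k} (h : W.Equation x y) (m : ℕ) (hm : 2 ≤ m) :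
    Nat.card {f : W.CoordinateRing // f ∈ PI W x y ∧ f ≠ 0 ∧ nd W f = m} + Nat.card k ^ (m - 2) =
      Nat.card k ^ (m - 1) := by
  refine w3d_diff W (PI W x y : Set W.CoordinateRing) m hm (w3d_L W m (by omega)).2 (w3d_P W h m (by omega)) ?_
  have e : m - 2 = m - 1 - 1 := by omega
  rw [e]
  exact w3d_P W h (m - 1) (by omega)

end H55K.WZ
end

-- from Lib.H55K.W3C
section

/-! # H55K, part W: generators of principal ideals -/

open Polynomial

open scoped Polynomial.Bivariate

namespace H55K.WZ

open WeierstrassCurve (Affine)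

variable {k : Type} [Field k] (W : Affine k)

theorem w3c_one : nd W (1 : W.CoordinateRing) = 0 := by
  unfold nd
  rw [map_one, natDegree_one]

theorem w3c_const (c : k) (hc : c ≠ 0) (f : W.CoordinateRing) (hf : f ≠ 0) :
    algebraMap k W.CoordinateRing c * f ≠ 0 ∧ nd W (algebraMap k W.CoordinateRing c * f) = nd W f := by
  have h1 : algebraMap k W.CoordinateRing c ≠ 0 := by
    intro h
    have h2 : algebraMap k W.CoordinateRing c * algebraMap k W.CoordinateRing c⁻¹ = 1 := by
      rw [← map_mul, mul_inv_cancel₀ hc, map_one]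
    rw [h, zero_mul] at h2
    exact zero_ne_one h2
  refine ⟨mul_ne_zero h1 hf, ?_⟩
  rw [nd_mul W _ _ h1 hf, (nd_zero W _).2 ⟨c, rfl⟩, zero_add]

/-- Chunk W3C (S/M). A unit u has nd u = 0 (nd_mul u u⁻¹ = nd 1 = 0), so it is a constant (nd_zero). -/
theorem unit_iff (f : W.CoordinateRing) : IsUnit f ↔ ∃ c : k, c ≠ 0 ∧ f = algebraMap k W.CoordinateRing c := by
  constructor
  · intro hf
    obtain ⟨g, hg⟩ := hf.exists_right_inv
    have hf0 : f ≠ 0 := hf.ne_zero
    have hg0 : g ≠ 0 := by
      rintro rfl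
      rw [mul_zero] at hg
      exact zero_ne_one hg
    have h1 := nd_mul W f g hf0 hg0
    rw [hg, w3c_one] at h1
    obtain ⟨c, hc⟩ := (nd_zero W f).1 (by omega)
    refine ⟨c, ?_, hc⟩
    rintro rfl
    rw [map_zero] at hc
    exact hf0 hc
  · rintro ⟨c, hc, rfl⟩
    exact (isUnit_iff_ne_zero.2 hc).map (algebraMap k W.CoordinateRing)

/-- Chunk W3C. The map f ↦ span {f} from {f in P, f ≠ 0, nd f = m} onto the set of ideals has fibres with q - 1 elements: span {f} = span {g} iff g = c f with a constant c ≠ 0 (unit_iff, Ideal.span_singleton_eq_span_singleton, Associated). Build an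
equivalence {f // ..} ≃ {I // ..} × kˣ (choose a generator for each I) and Nat.card_prod, Nat.card_units (Nat.card kˣ = Nat.card k - 1). All sets are allowed to be infinite in this argument (Nat.card_congr). nd (c f) = nd f: nd_mul and nd_zero. -/
theorem card_fib [Finite k] (P : Ideal W.CoordinateRing) (m : ℕ) :
    Nat.card {I : Ideal W.CoordinateRing // ∃ f ∈ P, f ≠ 0 ∧ nd W f = m ∧ I = Ideal.span {f}} * (Nat.card k - 1) =
      Nat.card {f : W.CoordinateRing // f ∈ P ∧ f ≠ 0 ∧ nd W f = m} := by
  classical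
  rw [← Nat.card_units, ← Nat.card_prod]
  have hg : ∀ I : {I : Ideal W.CoordinateRing // ∃ f ∈ P, f ≠ 0 ∧ nd W f = m ∧ I = Ideal.span {f}},
      ∃ f ∈ P, f ≠ 0 ∧ nd W f = m ∧ I.1 = Ideal.span {f} := fun I => I.2
  choose g hgP hg0 hgm hgI using hg
  let Φ : {I : Ideal W.CoordinateRing // ∃ f ∈ P, f ≠ 0 ∧ nd W f = m ∧ I = Ideal.span {f}} × kˣ →
      {f : W.CoordinateRing // f ∈ P ∧ f ≠ 0 ∧ nd W f = m} := fun x =>
    ⟨algebraMap k W.CoordinateRing (x.2 : k) * g x.1, P.mul_mem_left _ (hgP x.1),
      (w3c_const W _ x.2.ne_zero _ (hg0 x.1)).1,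
      ((w3c_const W _ x.2.ne_zero _ (hg0 x.1)).2).trans (hgm x.1)⟩
  refine Nat.card_congr (Equiv.ofBijective Φ ⟨?_, ?_⟩)
  · rintro ⟨I, c⟩ ⟨J, d⟩ h
    have h1 : algebraMap k W.CoordinateRing (c : k) * g I = algebraMap k W.CoordinateRing (d : k) * g J :=
      congrArg Subtype.val h
    have hu : ∀ (c : kˣ) (f : W.CoordinateRing), Ideal.span {algebraMap k W.CoordinateRing (c : k) * f} =
        Ideal.span {f} := by
      intro c f
      apply Ideal.span_singleton_mul_left_unit
      exact (unit_iff W _).2 ⟨c, c.ne_zero, rfl⟩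
    have hIJ : I = J := by
      apply Subtype.ext
      rw [hgI I, hgI J, ← hu c (g I), h1, hu d (g J)]
    subst hIJ
    have h2 := mul_right_cancel₀ (hg0 I) h1
    have h3 : (c : k) = (d : k) := (algebraMap k W.CoordinateRing).injective h2
    exact Prod.ext rfl (Units.ext h3)
  · rintro ⟨f, hfP, hf0, hfm⟩
    let I : {I : Ideal W.CoordinateRing // ∃ f ∈ P, f ≠ 0 ∧ nd W f = m ∧ I = Ideal.span {f}} :=
      ⟨Ideal.span {f}, f, hfP, hf0, hfm, rfl⟩
    have h1 : Ideal.span {g I} = Ideal.span {f} := (hgI I).symm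
    obtain ⟨u, hu⟩ := Ideal.span_singleton_eq_span_singleton.1 h1
    obtain ⟨c, hc, hc'⟩ := (unit_iff W (u : W.CoordinateRing)).1 u.isUnit
    refine ⟨(I, Units.mk0 c hc), Subtype.ext ?_⟩
    show algebraMap k W.CoordinateRing c * g I = f
    rw [← hc', mul_comm]
    exact hu

end H55K.WZ
end
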