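import Mathlib
import Pool.Agent.Lib.H1M.PP2.D_H55B_Defs
import Pool.Agent.Lib.H1M.PP2.D_H55P_Sel
import Pool.Agent.Lib.H1M.PP2.M010
import Pool.Agent.Lib.H1M.PP2.M016

/-! Merged copies (to shorten the build) of Lib.H16C.Defs, Lib.H55N.R6, Lib.H55R.D4, Lib.H55R.HA3, Lib.H55R.X9, Lib.H55B.E1, Lib.H55C.W8, Lib.H55N.H11, Lib.H55N.H4, Lib.H55P.Sel_T, Lib.H28G.Defs, Lib.H28G.Act, Lib.H55B.D0. -/

-- from Lib.H16C.Defs
section

/-!
# H16C: working definitions

Points of the short Weierstrass curve `y² = x³ + a₄ x + a₆`, reduction at a valuation, values of the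
division polynomials, the action of the Galois group, corestriction of cocycles, Kummer characters,
the set-up (`Setup`, `Bad`, `Fam`) and the cocycles `w`.  See PROOF.md.
-/

open WeierstrassCurve NumberField IsDedekindDomain

namespace H16C

section Pts

variable {F : Type*} [Field F] {W : WeierstrassCurve.Affine F}

/-- the `x`-coordinate of a point (`0` at the point at infinity) -/
def xc : W.Point → F
  | 0 => 0
  | .some x _ _ => x

/-- the `y`-coordinate of a point (`0` at the point at infinity) -/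
def yc : W.Point → F
  | 0 => 0
  | .some _ y _ => y


variable (W) in
/-- the value of the `n`-th division polynomial at `(x, y)` (for a short Weierstrass curve) -/
noncomputable def psi (x y : F) (n : ℤ) : F :=
  normEDS (2 * y) (W.Ψ₃.eval x) (W.preΨ₄.eval x) n

end Pts

section Cor

variable {G : Type*} [Group G] {M : Type*} [AddCommGroup M] (ρ : G →* AddMonoid.End M)
  (N : Subgroup G) [N.FiniteIndex]

/-- the corestriction to `G` of `f : N → M` (with the section `Quotient.out` of `G → G ⧸ N`) -/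
noncomputable def cor (f : G → M) (g : G) : M :=
  ∑ᶠ x : G ⧸ N, ρ x.out (f (x.out⁻¹ * g * (g⁻¹ • x).out))

end Cor

section Kummer

variable {Ω : Type*} [Field Ω] {k : Type*} [Field k] [Algebra k Ω] {n : ℕ}

open Classical in
/-- the Kummer character: `g β = ζ ^ (kap ζ β g) * β` -/
noncomputable def kap (ζ β : Ω) (g : Ω ≃ₐ[k] Ω) : ZMod n :=
  if h : ∃ j : ZMod n, g β = ζ ^ j.val * β then h.choose else 0

end Kummer

section Places

variable {k : Type*} [Field k] {Ω : Type*} [Field Ω] [Algebra k Ω]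

/-- `g` acts trivially on the residue ring of `F` at the place `A` -/
def Inert (A : ValuationSubring Ω) (F : IntermediateField k Ω) (g : Ω ≃ₐ[k] Ω) : Prop :=
  ∀ x ∈ F, A.valuation x ≤ 1 → A.valuation (g x - x) < 1

/-- `g` acts as `x ↦ x ^ q` on the residue ring of `F` at the place `A` -/
def Frob (A : ValuationSubring Ω) (F : IntermediateField k Ω) (q : ℕ) (g : Ω ≃ₐ[k] Ω) : Prop :=
  ∀ x ∈ F, A.valuation x ≤ 1 → A.valuation (g x - x ^ q) < 1

end Places

section Main

variable {k : Type*} [Field k] {Ω : Type*} [Field Ω] [Algebra k Ω] [DecidableEq Ω]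
  (W : WeierstrassCurve.Affine k)

/-- the points over the field `Ω` of the curve `W` over `k` (Mathlib's type of points) -/
abbrev Pt (W : WeierstrassCurve.Affine k) (Ω : Type*) [Field Ω] [Algebra k Ω] : Type _ :=
  (WeierstrassCurve.Affine.baseChange W Ω).Point

instance short_baseChange {k : Type*} [Field k] (W : WeierstrassCurve.Affine k)
    [W.IsShortNF] (Ω : Type*) [Field Ω] [Algebra k Ω] :
    (WeierstrassCurve.Affine.baseChange W Ω).IsShortNF where
  a₁ := by
    change algebraMap k Ω W.a₁ = 0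
    rw [a₁_of_isShortNF, map_zero]
  a₂ := by
    change algebraMap k Ω W.a₂ = 0
    rw [a₂_of_isShortNF, map_zero]
  a₃ := by
    change algebraMap k Ω W.a₃ = 0
    rw [a₃_of_isShortNF, map_zero]

instance elliptic_baseChange {k : Type*} [Field k] (W : WeierstrassCurve.Affine k)
    [W.IsElliptic] (Ω : Type*) [Field Ω] [Algebra k Ω] :
    (WeierstrassCurve.Affine.baseChange W Ω).IsElliptic :=
  inferInstanceAs (WeierstrassCurve.map W (algebraMap k Ω)).IsElliptic

/-- the action of `Gal(Ω/k)` on `E(Ω)` -/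
noncomputable def rho : (Ω ≃ₐ[k] Ω) →* AddMonoid.End (Pt W Ω) where
  toFun g := WeierstrassCurve.Affine.Point.map (g : Ω →ₐ[k] Ω)
  map_one' := by
    ext P
    cases P <;> rfl
  map_mul' g h := by
    ext P
    cases P <;> rfl

/-- the set-up: `L = k(E[2n], μ_n, √-1)` -/
structure Setup (Ω : Type*) [Field Ω] [Algebra k Ω] [DecidableEq Ω] (n : ℕ) where
  /-- the field `L` -/
  L : IntermediateField k Ω
  fin : FiniteDimensional k L
  stab : ∀ (g : Ω ≃ₐ[k] Ω) (x : Ω), x ∈ L → g x ∈ L
  /-- a primitive `n`-th root of unity -/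
  ζ : Ω
  hζ : IsPrimitiveRoot ζ n
  /-- a square root of `-1` -/
  I : Ω
  hI : I ^ 2 = -1
  /-- a point of exact order `n` -/
  P0 : Pt W Ω
  hP0 : addOrderOf P0 = n
  fix : ∀ g ∈ L.fixingSubgroup, g ζ = ζ ∧ g I = I ∧
    ∀ P : Pt W Ω, (2 * n) • P = 0 → rho W g P = P
  gen : ∀ g : Ω ≃ₐ[k] Ω, g ζ = ζ → g I = I →
    (∀ P : Pt W Ω, (2 * n) • P = 0 → rho W g P = P) → g ∈ L.fixingSubgroup

/-- `b` contains all the bad primes -/
structure Bad (Ω : Type*) [Field Ω] [Algebra k Ω] (n b : ℕ) : Prop where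
  ne : b ≠ 0
  dvd : 6 * n ∣ b
  good : ∀ A : ValuationSubring Ω, A.valuation (b : Ω) = 1 →
    A.valuation (algebraMap k Ω W.a₄) ≤ 1 ∧ A.valuation (algebraMap k Ω W.a₆) ≤ 1 ∧
      A.valuation (algebraMap k Ω W.Δ) = 1

variable {W} {n : ℕ}

namespace Setup

variable (S : Setup W Ω n)

/-- the open normal subgroup `Gal(Ω/L)` -/
abbrev N : Subgroup (Ω ≃ₐ[k] Ω) := S.L.fixingSubgroup

/-- the homomorphism `ℤ/n → E(Ω)`, `1 ↦ P0` -/
noncomputable def e : ZMod n →+ Pt W Ω :=
  ZMod.lift n ⟨zmultiplesHom _ S.P0, by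
    have h : n • S.P0 = 0 := by
      have := addOrderOf_nsmul_eq_zero S.P0
      rwa [S.hP0] at this
    simpa using h⟩

/-- the places of `Ω` above `ℓ` at which `a` has the valuation of `ℓ`, `L` has the residue field `𝔽_ℓ`
and is unramified over `ℓ`, and at which the conjugates of `a` are units -/
structure Loc (l : ℕ) (a : Ω) (A : ValuationSubring Ω) : Prop where
  lt : A.valuation (l : Ω) < 1
  eq : A.valuation a = A.valuation (l : Ω)
  res : ∀ z ∈ S.L, A.valuation z ≤ 1 → ∃ m : ℤ, A.valuation (z - m) < 1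
  unr : ∀ z ∈ S.L, z ≠ 0 → ∃ j : ℤ, A.valuation z = A.valuation (l : Ω) ^ j
  conj : ∀ g : Ω ≃ₐ[k] Ω, g ∉ S.N → A.valuation (g a) = 1

end Setup

/-- the family of the primes `ℓ ∈ T` and of the elements `a ℓ = (α ℓ) ^ n` of `L` -/
structure Fam (S : Setup W Ω n) (b : ℕ) where
  /-- the finite set of primes -/
  T : Finset ℕ
  /-- the auxiliary prime -/
  l₁ : ℕ
  /-- the elements of `L` -/
  a : ℕ → Ω
  /-- their `n`-th roots -/
  α : ℕ → Ω
  prime₁ : l₁.Prime
  prime : ∀ l ∈ T, l.Prime
  not_mem : l₁ ∉ T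
  good₁ : ¬ l₁ ∣ b
  good : ∀ l ∈ T, ¬ l ∣ b
  mem : ∀ l ∈ T, a l ∈ S.L
  ne : ∀ l ∈ T, a l ≠ 0
  pow : ∀ l ∈ T, α l ^ n = a l
  val : ∀ l ∈ T, ∀ A : ValuationSubring Ω, A.valuation (a l) = 1 ∨
    (A.valuation (l : Ω) < 1 ∧ A.valuation (a l) = A.valuation (l : Ω)) ∨
    (A.valuation (l₁ : Ω) < 1 ∧ A.valuation (a l) * A.valuation (l₁ : Ω) = 1)
  one : ∀ l ∈ T, ∀ A : ValuationSubring Ω, A.valuation (b : Ω) < 1 →
    A.valuation (a l - 1) ≤ A.valuation (b : Ω) ^ (n + 1)
  loc : ∀ l ∈ T, ∃ A : ValuationSubring Ω, S.Loc l (a l) A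


variable {S : Setup W Ω n} {b : ℕ}

open Classical in
/-- the homomorphism `N → E[n]` attached to `y` -/
noncomputable def Fam.f (Φ : Fam S b) (y : Φ.T → ZMod n) (g : Ω ≃ₐ[k] Ω) : Pt W Ω :=
  S.e (∑ l : Φ.T, y l * kap S.ζ (Φ.α l) g)

/-- the cocycle `w_y : Gal(Ω/k) → E[n]` -/
noncomputable def Fam.w (Φ : Fam S b) [S.N.FiniteIndex] (y : Φ.T → ZMod n) (g : Ω ≃ₐ[k] Ω) :
    Pt W Ω :=
  cor (rho W) S.N (Φ.f y) g


end Main

end H16C
end

-- from Lib.H55N.R6
section

namespace H55N

/-! Chunk R6 (S, pure Mathlib). The cocycle identity. The (n+1) x (n+1) matrix with rows (1, r_j(0), .., r_j(n-1)) is singular: its first column is the combination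
sum_i x_i column_(i+1) (Matrix.exists_mulVec_eq_zero_iff: the nonzero vector (-1, x_0, .., x_(n-1)) is in the kernel). Expand the determinant along the first column: Matrix.det_succ_column_zero. -/

theorem det_cocycle {n : ℕ} (x : Fin n → ℂ) (r : Fin (n + 1) → Fin n → ℂ)
    (h : ∀ j, ∑ i, x i * r j i = 1) : ∑ j : Fin (n + 1), (-1) ^ (j : ℕ) *
      Matrix.det (Matrix.of fun k i : Fin n => r (j.succAbove k) i) = 0 := by
  let A : Matrix (Fin (n + 1)) (Fin (n + 1)) ℂ := Matrix.of fun j => (Fin.cons 1 (r j) : Fin (n + 1) → ℂ)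
  have hA : A.det = 0 := by
    rw [← Matrix.exists_mulVec_eq_zero_iff]
    refine ⟨Fin.cons (-1) x, ?_, ?_⟩
    · intro h0
      have := congrFun h0 0
      simp at this
    · funext j
      simp only [Matrix.mulVec, dotProduct, Fin.sum_univ_succ, A, Matrix.of_apply, Fin.cons_zero,
        Fin.cons_succ, Pi.zero_apply]
      have := h j
      have h2 : ∑ i, r j i * x i = 1 := by
        rw [← this]; exact Finset.sum_congr rfl fun i _ => mul_comm _ _
      rw [h2]; ring
  rw [Matrix.det_succ_column_zero] at hA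
  rw [← hA]
  refine Finset.sum_congr rfl fun j _ => ?_
  have h1 : A j 0 = 1 := by simp [A]
  rw [h1, mul_one]
  congr 1

end H55N
end

-- from Lib.H55R.D4
section

open NumberField IsDedekindDomain

namespace H55R

open H55B H55N

/-- Chunk RD4 (S/M), finiteness of the ramified primes. If e(v) <> 1 then a prime W of L above v is ramified, so W divides the different ideal
differentIdeal (𝓞 K) (𝓞 L), which is nonzero (differentIdeal_ne_bot; not_dvd_differentIdeal_iff, Ideal.ramificationIdx_eq_one_iff,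
Ideal.ramificationIdxIn_eq_ramificationIdx; see Mathlib/NumberTheory/NumberField/ExistsRamified.lean lines 80-100 for the pattern). A nonzero ideal has only finitely
many prime divisors (Ideal.finite_factors or UniqueFactorizationMonoid.normalizedFactors), and v is W.under. Alternative: for each sigma <> 1 in Gal(L/K) choose x with
sigma x <> x; the inertia group of W is nontrivial if e <> 1, so W contains the nonzero product of all sigma x - x. -/
theorem ram_finite (K L : Type) [Field K] [NumberField K] [Field L] [NumberField L]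
    [Algebra K L] [IsGalois K L] : {v : Pl K | es K L v ≠ 1}.Finite := by
  have h1 : differentIdeal (𝓞 K) (𝓞 L) ≠ ⊥ := differentIdeal_ne_bot
  have h2 : {W : Pl L | W.asIdeal ∣ differentIdeal (𝓞 K) (𝓞 L)}.Finite :=
    Ideal.finite_factors h1
  refine (h2.image fun W => W.under (𝓞 K)).subset ?_
  intro v hv
  obtain ⟨P, hP⟩ : ∃ P : Ideal (𝓞 L), P.IsPrime ∧ P.LiesOver v.asIdeal := by
    obtain ⟨⟨P, h3, h4⟩⟩ := v.asIdeal.nonempty_primesOver (S := 𝓞 L)
    exact ⟨P, h3, h4⟩
  obtain ⟨hP1, hP2⟩ := hP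
  have hP0 : P ≠ ⊥ := Ideal.ne_bot_of_liesOver_of_ne_bot v.ne_bot P
  have h3 : es K L v = P.ramificationIdx (𝓞 K) :=
    Ideal.ramificationIdxIn_eq_ramificationIdx v.asIdeal P Gal(L/K)
  refine ⟨⟨P, hP1, hP0⟩, ?_, ?_⟩
  · show P ∣ differentIdeal (𝓞 K) (𝓞 L)
    by_contra h4
    rw [not_dvd_differentIdeal_iff] at h4
    apply hv
    rw [h3]
    exact Ideal.ramificationIdx_eq_one P (𝓞 K)
  · apply HeightOneSpectrum.ext
    exact hP2.over.symm

end H55R
end

-- from Lib.H55R.HA3
section

namespace H55R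

/-! Chunk HA3 (M/L, pure algebra): permutation modules. Let m_q be the number of points of the fibre of q; the fibre is an orbit of τ,
m_q divides n (τ^n = 1) and for p in the fibre i -> τ^(-i) p (i < n) takes every value n/m_q times. So
N a (p) = sum_(i<n) a(τ^(-i) p) = (n/m_q) * (sum of a over the fibre of p). ker D = functions constant on the fibres (= Z^Q by
composition with π), range N = functions constant on the fibres with value in (n/m_q) Z on the fibre of q (take a = k at one point of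
the fibre, 0 elsewhere), so the index is the product of the n/m_q. ker N = functions with sum 0 on every fibre; every such a is b - σ b: on
the fibre of p0 = τ^0 p0, .., τ^(m-1) p0 put b(τ^j p0) = a(p0) + .. + a(τ^j p0) (b(τ^j p0) - b(τ^(j-1) p0) = a(τ^j p0), also for j = 0 =
m because the total sum is 0). So h1 = 1. A convenient way: choose for every q a point s(q) in the fibre and use
p = τ^j s(π p) with j < m. -/

/-- The size of the fibre is the minimal period, and the sum over one period is the sum over the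
fibre. -/
theorem HA3_per {P Q : Type} [Fintype P] [DecidableEq Q] (ρ : Equiv.Perm P) (n : ℕ)
    (hn : 0 < n) (hρ : ρ ^ n = 1) (π : P → Q)
    (ho : ∀ p p', π p = π p' ↔ ∃ i : ℕ, (ρ ^ i) p = p') (p : P) :
    (Finset.univ.filter fun p' => π p' = π p).card = Function.minimalPeriod ρ p ∧
    ∀ a : P → ℤ, ∑ i ∈ Finset.range (Function.minimalPeriod ρ p), a ((ρ ^ i) p) =
      ∑ p' ∈ Finset.univ.filter (fun p' => π p' = π p), a p' := by
  classical
  have hper : Function.IsPeriodicPt ρ n p := by
    show ρ^[n] p = p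
    rw [Equiv.Perm.iterate_eq_pow, hρ]
    rfl
  have hpos : 0 < Function.minimalPeriod ρ p := hper.minimalPeriod_pos hn
  have himg : Finset.univ.filter (fun p' => π p' = π p) =
      (Finset.range (Function.minimalPeriod ρ p)).image (fun i => (ρ ^ i) p) := by
    ext p'
    rw [Finset.mem_filter, Finset.mem_image]
    constructor
    · rintro ⟨-, h⟩
      obtain ⟨i, hi⟩ := (ho p p').mp h.symm
      refine ⟨i % Function.minimalPeriod ρ p, Finset.mem_range.mpr (Nat.mod_lt _ hpos), ?_⟩
      have := Function.iterate_mod_minimalPeriod_eq (f := ρ) (x := p) (n := i)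
      rw [Equiv.Perm.iterate_eq_pow, Equiv.Perm.iterate_eq_pow, hi] at this
      exact this
    · rintro ⟨i, -, hi⟩
      exact ⟨Finset.mem_univ _, ((ho p p').mpr ⟨i, hi⟩).symm⟩
  have hinj : Set.InjOn (fun i => (ρ ^ i) p) (Finset.range (Function.minimalPeriod ρ p)) := by
    intro i hi j hj hij
    rw [Finset.mem_coe, Finset.mem_range] at hi hj
    refine Function.iterate_injOn_Iio_minimalPeriod (f := ρ) (x := p) (Set.mem_Iio.mpr hi)
      (Set.mem_Iio.mpr hj) ?_
    show ρ^[i] p = ρ^[j] p
    rw [Equiv.Perm.iterate_eq_pow, Equiv.Perm.iterate_eq_pow]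
    exact hij
  constructor
  · rw [himg, Finset.card_image_of_injOn hinj, Finset.card_range]
  · intro a
    rw [himg, Finset.sum_image hinj]

/-- The sum over k periods. -/
theorem HA3_blk {P Q : Type} [Fintype P] [DecidableEq Q] (ρ : Equiv.Perm P) (n : ℕ)
    (hn : 0 < n) (hρ : ρ ^ n = 1) (π : P → Q)
    (ho : ∀ p p', π p = π p' ↔ ∃ i : ℕ, (ρ ^ i) p = p') (p : P) (a : P → ℤ) (k : ℕ) :
    ∑ i ∈ Finset.range (Function.minimalPeriod ρ p * k), a ((ρ ^ i) p) =
      k * ∑ p' ∈ Finset.univ.filter (fun p' => π p' = π p), a p' := by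
  induction k with
  | zero => simp
  | succ k ih =>
    rw [Nat.mul_succ, Finset.sum_range_add, ih, ← (HA3_per ρ n hn hρ π ho p).2 a]
    rw [Nat.cast_add, Nat.cast_one, add_mul, one_mul]
    congr 1
    refine Finset.sum_congr rfl fun i _ => ?_
    have h1 : ρ^[Function.minimalPeriod ρ p * k] p = p :=
      Function.IsPeriodicPt.mul_const (Function.isPeriodicPt_minimalPeriod ρ p) k
    rw [← Equiv.Perm.iterate_eq_pow, ← Equiv.Perm.iterate_eq_pow, add_comm,
      Function.iterate_add_apply, h1]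

theorem HA3_pe_pow {P : Type} (τ : Equiv.Perm P) (i : ℕ) (a : P → ℤ) (p : P) :
    ((pe τ) ^ i : AddMonoid.End (P → ℤ)) a p = a (((τ⁻¹) ^ i) p) := by
  induction i generalizing p with
  | zero => rfl
  | succ i ih =>
    rw [pow_succ', AddMonoid.End.coe_mul, Function.comp_apply]
    show ((pe τ) ^ i : AddMonoid.End (P → ℤ)) a (τ.symm p) = _
    rw [ih, pow_succ, Equiv.Perm.mul_apply]
    rfl

theorem HA3_Nm {P : Type} (τ : Equiv.Perm P) (n : ℕ) (a : P → ℤ) (p : P) :
    Nm n (pe τ) a p = ∑ i ∈ Finset.range n, a (((τ⁻¹) ^ i) p) := by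
  unfold Nm
  have : ∀ s : Finset ℕ, (∑ i ∈ s, (pe τ) ^ i : AddMonoid.End (P → ℤ)) a p =
      ∑ i ∈ s, a (((τ⁻¹) ^ i) p) := by
    intro s
    classical
    induction s using Finset.induction_on with
    | empty => rfl
    | insert x s hx ih =>
      rw [Finset.sum_insert hx, Finset.sum_insert hx, ← ih, ← HA3_pe_pow τ x a p]
      rfl
  exact this _

theorem HA3_Dm {P : Type} (τ : Equiv.Perm P) (a : P → ℤ) (p : P) :
    Dm (pe τ) a p = a p - a (τ.symm p) := rfl

theorem HA3_sym {P Q : Type} (τ : Equiv.Perm P) (π : P → Q)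
    (ho : ∀ p p', π p = π p' ↔ ∃ i : ℕ, (τ ^ i) p = p') :
    ∀ p p', π p = π p' ↔ ∃ i : ℕ, ((τ⁻¹) ^ i) p = p' := by
  intro p p'
  rw [eq_comm, ho]
  refine exists_congr fun i => ?_
  rw [inv_pow, Equiv.Perm.inv_eq_iff_eq, eq_comm]

theorem herb_perm {P Q : Type} [Fintype P] [Fintype Q] [DecidableEq Q] (τ : Equiv.Perm P) (n : ℕ)
    (hn : 0 < n) (hτ : τ ^ n = 1) (π : P → Q) (hs : Function.Surjective π)
    (ho : ∀ p p', π p = π p' ↔ ∃ i : ℕ, (τ ^ i) p = p') :
    h1 n (pe τ) ⊤ = 1 ∧
      h0 n (pe τ) ⊤ = ∏ q : Q, n / (Finset.univ.filter fun p => π p = q).card := by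
  classical
  set m : Q → ℕ := fun q => (Finset.univ.filter fun p => π p = q).card with hm
  have hτ' : (τ⁻¹) ^ n = 1 := by rw [inv_pow, hτ, inv_one]
  have ho' := HA3_sym τ π ho
  have hmp : ∀ p, m (π p) = Function.minimalPeriod (τ⁻¹ : Equiv.Perm P) p := fun p =>
    (HA3_per τ⁻¹ n hn hτ' π ho' p).1
  have hmd : ∀ p, m (π p) ∣ n := by
    intro p
    rw [hmp]
    refine Function.IsPeriodicPt.minimalPeriod_dvd ?_
    show (τ⁻¹ : Equiv.Perm P)^[n] p = p
    rw [Equiv.Perm.iterate_eq_pow, hτ']
    rfl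
  have hNm : ∀ a p, Nm n (pe τ) a p = ((n / m (π p) : ℕ) : ℤ) *
      ∑ p' ∈ Finset.univ.filter (fun p' => π p' = π p), a p' := by
    intro a p
    rw [HA3_Nm, ← HA3_blk τ⁻¹ n hn hτ' π ho' p a (n / m (π p)), ← hmp, Nat.mul_div_cancel' (hmd p)]
  have hmpos : ∀ q, 0 < m q := by
    intro q
    obtain ⟨p, rfl⟩ := hs q
    exact Finset.card_pos.mpr ⟨p, Finset.mem_filter.mpr ⟨Finset.mem_univ _, rfl⟩⟩
  have hkpos : ∀ q, 0 < n / m q := by
    intro q
    obtain ⟨p, rfl⟩ := hs q
    exact Nat.div_pos (Nat.le_of_dvd hn (hmd p)) (hmpos _)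
  choose s hsec using hs
  constructor
  · unfold h1
    rw [AddSubgroup.relIndex_eq_one]
    rintro a ⟨-, ha⟩
    have ha' : ∀ p, ∑ p' ∈ Finset.univ.filter (fun p' => π p' = π p), a p' = 0 := by
      intro p
      have h : Nm n (pe τ) a p = 0 := by
        have := (AddMonoidHom.mem_ker).mp ha
        rw [this]
        rfl
      rw [hNm] at h
      rcases mul_eq_zero.mp h with h | h
      · exact absurd (by exact_mod_cast h) (hkpos (π p)).ne'
      · exact h
    -- the partial sums along the orbit of s q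
    have hsh : ∀ p (i k : ℕ), (τ ^ i) p = (τ ^ (i + k)) p →
        ∑ t ∈ Finset.range k, a ((τ ^ (i + 1 + t)) p) = 0 := by
      intro p i k hk
      have h1 : (τ ^ k) ((τ ^ (i + 1)) p) = (τ ^ (i + 1)) p := by
        rw [← Equiv.Perm.mul_apply, ← pow_add, show k + (i + 1) = 1 + (i + k) by ring, pow_add,
          Equiv.Perm.mul_apply, ← hk, ← Equiv.Perm.mul_apply, ← pow_add, add_comm]
      have h2 : Function.minimalPeriod τ ((τ ^ (i + 1)) p) ∣ k := by
        refine Function.IsPeriodicPt.minimalPeriod_dvd ?_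
        show (τ : Equiv.Perm P)^[k] _ = _
        rw [Equiv.Perm.iterate_eq_pow, h1]
      obtain ⟨c, rfl⟩ := h2
      have h3 := HA3_blk τ n hn hτ π ho ((τ ^ (i + 1)) p) a c
      rw [ha', mul_zero] at h3
      rw [← h3]
      refine Finset.sum_congr rfl fun t _ => ?_
      rw [← Equiv.Perm.mul_apply, ← pow_add, add_comm]
    have hwd : ∀ p (i j : ℕ), (τ ^ i) p = (τ ^ j) p →
        ∑ t ∈ Finset.range (i + 1), a ((τ ^ t) p) = ∑ t ∈ Finset.range (j + 1), a ((τ ^ t) p) := by
      have key : ∀ p (i j : ℕ), i ≤ j → (τ ^ i) p = (τ ^ j) p →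
          ∑ t ∈ Finset.range (i + 1), a ((τ ^ t) p) =
            ∑ t ∈ Finset.range (j + 1), a ((τ ^ t) p) := by
        intro p i j hij h
        obtain ⟨k, rfl⟩ := Nat.exists_eq_add_of_le hij
        rw [show i + k + 1 = (i + 1) + k by ring,
          Finset.sum_range_add (fun t => a ((τ ^ t) p)) (i + 1) k, hsh p i k h, add_zero]
      intro p i j h
      rcases le_total i j with hij | hij
      · exact key p i j hij h
      · exact (key p j i hij h.symm).symm
    have hex : ∀ p, ∃ i : ℕ, (τ ^ i) (s (π p)) = p := fun p => (ho _ _).mp (hsec (π p))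
    choose j hj using hex
    refine AddSubgroup.mem_map.mpr
      ⟨fun p => ∑ t ∈ Finset.range (j p + 1), a ((τ ^ t) (s (π p))), trivial, ?_⟩
    funext p
    rw [HA3_Dm]
    have hπ : π (τ.symm p) = π p := (ho _ _).mpr ⟨1, by simp⟩
    have h1 : (τ ^ (j (τ.symm p) + 1)) (s (π p)) = (τ ^ (j p)) (s (π p)) := by
      rw [hj p, pow_succ', Equiv.Perm.mul_apply]
      have := hj (τ.symm p)
      rw [hπ] at this
      rw [this, Equiv.apply_symm_apply]
    have h2 := hwd _ _ _ h1
    rw [hπ, ← h2, Finset.sum_range_succ, add_sub_cancel_left, h1, hj p]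
  · unfold h0
    -- functions on Q
    let Φ : (Q → ℤ) →+ (P → ℤ) :=
      { toFun := fun c => c ∘ π, map_zero' := rfl, map_add' := fun _ _ => rfl }
    have hΦi : Function.Injective Φ := by
      intro c c' h
      funext q
      have := congrFun h (s q)
      simpa [Φ, hsec] using this
    let Ψ : (Q → ℤ) →+ (∀ q : Q, ZMod (n / m q)) :=
      { toFun := fun c q => (c q : ZMod (n / m q)),
        map_zero' := by funext q; exact Int.cast_zero,
        map_add' := fun c c' => by funext q; exact Int.cast_add _ _ }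
    have hker : (⊤ : AddSubgroup (P → ℤ)) ⊓ (Dm (pe τ)).ker = (⊤ : AddSubgroup (Q → ℤ)).map Φ := by
      rw [top_inf_eq]
      ext a
      rw [AddMonoidHom.mem_ker, AddSubgroup.mem_map]
      constructor
      · intro h
        have h1 : ∀ p, a (τ p) = a p := by
          intro p
          have := congrFun h (τ p)
          rw [HA3_Dm, Equiv.symm_apply_apply] at this
          exact sub_eq_zero.mp this
        have h2 : ∀ (i : ℕ) p, a ((τ ^ i) p) = a p := by
          intro i
          induction i with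
          | zero => intro p; rfl
          | succ i ih => intro p; rw [pow_succ', Equiv.Perm.mul_apply, h1, ih]
        refine ⟨fun q => a (s q), trivial, ?_⟩
        funext p
        obtain ⟨i, hi⟩ := (ho (s (π p)) p).mp (hsec _)
        show a (s (π p)) = a p
        rw [← h2 i, hi]
      · rintro ⟨c, -, rfl⟩
        funext p
        rw [HA3_Dm]
        have hπ : π (τ.symm p) = π p := (ho _ _).mpr ⟨1, by simp⟩
        show c (π p) - c (π (τ.symm p)) = 0
        rw [hπ, sub_self]
    have hrange : (⊤ : AddSubgroup (P → ℤ)).map (Nm n (pe τ)) = (Ψ.ker).map Φ := by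
      ext a
      rw [AddSubgroup.mem_map, AddSubgroup.mem_map]
      constructor
      · rintro ⟨b, -, rfl⟩
        refine ⟨fun q => ((n / m q : ℕ) : ℤ) *
          ∑ p' ∈ Finset.univ.filter (fun p' => π p' = q), b p', ?_, ?_⟩
        · rw [AddMonoidHom.mem_ker]
          funext q
          show (((((n / m q : ℕ) : ℤ) *
            ∑ p' ∈ Finset.univ.filter (fun p' => π p' = q), b p' : ℤ)) : ZMod (n / m q)) = 0
          rw [Int.cast_mul, Int.cast_natCast, ZMod.natCast_self, zero_mul]
        · funext p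
          rw [hNm]
          rfl
      · rintro ⟨c, hc, rfl⟩
        have hc' : ∀ q, ∃ d : ℤ, c q = ((n / m q : ℕ) : ℤ) * d := by
          intro q
          have h := congrFun ((AddMonoidHom.mem_ker).mp hc) q
          have h' : ((c q : ℤ) : ZMod (n / m q)) = 0 := h
          exact (ZMod.intCast_zmod_eq_zero_iff_dvd _ _).mp h'
        choose d hd using hc'
        refine ⟨fun p => if p = s (π p) then d (π p) else 0, trivial, ?_⟩
        funext p
        rw [hNm]
        show _ = c (π p)
        rw [hd]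
        congr 1
        rw [Finset.sum_eq_single (s (π p))]
        · rw [hsec, if_pos rfl]
        · intro p' hp' hne
          rw [Finset.mem_filter] at hp'
          rw [hp'.2, if_neg hne]
        · intro h
          exact absurd (Finset.mem_filter.mpr ⟨Finset.mem_univ (s (π p)), hsec (π p)⟩) h
    rw [hker, hrange, AddSubgroup.relIndex_map_map_of_injective _ _ hΦi,
      AddSubgroup.relIndex_top_right, AddSubgroup.index_ker]
    have hsurj : Function.Surjective Ψ := by
      intro y
      have : ∀ q, ∃ z : ℤ, (z : ZMod (n / m q)) = y q := fun q => ZMod.intCast_surjective (y q)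
      choose z hz using this
      exact ⟨z, funext hz⟩
    rw [AddMonoidHom.range_eq_top.mpr hsurj, Nat.card_congr AddSubgroup.topEquiv.toEquiv,
      Nat.card_pi]
    refine Finset.prod_congr rfl fun q _ => ?_
    rw [Nat.card_zmod]

end H55R
end

-- from Lib.H55R.X9
section

open NumberField IsDedekindDomain

namespace H55R

variable {K : Type} [Field K] [NumberField K]

open Classical in
/-- The cyclotomic character: v -> θ (N v mod p). -/
noncomputable def thetaF (f : Ideal (𝓞 K)) (p : ℕ) (θ : (ZMod p)ˣ →* ℂˣ) : Pl K → ℂˣ := fun v =>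
  if h : ¬ f ≤ v.asIdeal ∧ IsUnit ((Ideal.absNorm v.asIdeal : ℕ) : ZMod p) then θ h.2.unit else 1

open Classical in
/-- The restriction of a character to a larger modulus. -/
noncomputable def resF (f : Ideal (𝓞 K)) (φ : Pl K → ℂˣ) : Pl K → ℂˣ := fun v =>
  if f ≤ v.asIdeal then 1 else φ v

/-! Chunk X9 (M). theta_RC: f <= (p). For v not containing f, p is not in v, so N v is prime to p and thetaF v = θ(N v). For an ideal a prime to f, pv a =
θ(N a mod p) (multiplicativity: UniqueFactorizationMonoid.induction_on_prime or the product over the normalized factors; absNorm is multiplicative). For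
x <> 0: absNorm (x) = |N_(K/Q) x| = N_(K/Q) x > 0 because K is totally complex (InfinitePlace.prod_eq_abs_norm and: the norm is a product over pairs
of conjugate embeddings; or Algebra.norm as the product over all embeddings, which come in conjugate pairs), and x = y mod p gives N x = N y mod p
(determinants: the matrices of multiplication by x and y on an integral basis are congruent mod p).
theta_frob: if ¬ f ≤ v and N v = q as elements of ZMod p with u the unit q, then thetaF v = θ u.
resF_RC: f' <= f: pv of the restriction agrees with pv φ on ideals prime to f'. resF_one: let v not contain f. If v does not contain f', φ v = 1. In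
general choose x in 𝓞 K with x = 1 mod f, x in v, x not in v^2, x not in v' for the other primes v' containing f' (those containing f are automatic; Chinese
remainder theorem); then (x) = v a with a prime to f', x prime to f, so 1 = pv φ (1) = pv φ (x) = φ v * pv φ a = φ v. -/

/-! ### Values at ideals -/

theorem X9_pv_congr (φ ψ : Pl K → ℂˣ) (a : Ideal (𝓞 K))
    (h : ∀ v : Pl K, a ≤ v.asIdeal → φ v = ψ v) : pv φ a = pv ψ a := by
  unfold pv
  refine congrArg Multiset.prod (Multiset.map_congr rfl fun P hP => ?_)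
  by_cases h2 : P.IsPrime ∧ P ≠ ⊥
  · rw [dif_pos h2, dif_pos h2]
    exact h _ (Ideal.dvd_iff_le.1 (UniqueFactorizationMonoid.dvd_of_mem_normalizedFactors hP))
  · rw [dif_neg h2, dif_neg h2]

theorem X9_pv_eq_one (φ : Pl K → ℂˣ) (a : Ideal (𝓞 K))
    (h : ∀ v : Pl K, a ≤ v.asIdeal → φ v = 1) : pv φ a = 1 := by
  rw [X9_pv_congr φ 1 a h, pv_one_fun]

theorem X9_not_le {a f : Ideal (𝓞 K)} (h : IsCoprime a f) (v : Pl K) (ha : a ≤ v.asIdeal) :
    ¬ f ≤ v.asIdeal := by
  intro hf
  rw [Ideal.isCoprime_iff_sup_eq] at h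
  exact v.isPrime.ne_top (top_unique (h ▸ sup_le ha hf))

theorem X9_coprime_of {a f : Ideal (𝓞 K)} (ha : a ≠ ⊥)
    (h : ∀ v : Pl K, a ≤ v.asIdeal → ¬ f ≤ v.asIdeal) : IsCoprime a f := by
  rw [Ideal.isCoprime_iff_sup_eq]
  by_contra hne
  obtain ⟨M, hM, hle⟩ := Ideal.exists_le_maximal _ hne
  have hM0 : M ≠ ⊥ := by
    rintro rfl
    exact ha (le_bot_iff.1 (le_sup_left.trans hle))
  exact h ⟨M, hM.isPrime, hM0⟩ (le_sup_left.trans hle) (le_sup_right.trans hle)

/-! ### The norm modulo p -/

theorem X9_norm_congr (n : ℕ) (x y : 𝓞 K) (h : x - y ∈ Ideal.span {(n : 𝓞 K)}) :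
    ((Algebra.norm ℤ x : ℤ) : ZMod n) = ((Algebra.norm ℤ y : ℤ) : ZMod n) := by
  classical
  obtain ⟨z, hz⟩ := Ideal.mem_span_singleton.1 h
  let b := RingOfIntegers.basis K
  have hx : x = y + (n : ℤ) • z := by
    rw [zsmul_eq_mul]
    push_cast
    rw [← hz]
    ring
  have h1 : (Algebra.leftMulMatrix b x).map (Int.castRingHom (ZMod n)) =
      (Algebra.leftMulMatrix b y).map (Int.castRingHom (ZMod n)) := by
    ext i j
    rw [Matrix.map_apply, Matrix.map_apply, hx, map_add, map_zsmul, Matrix.add_apply,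
      Matrix.smul_apply, map_add, smul_eq_mul, map_mul]
    simp
  rw [Algebra.norm_eq_matrix_det b x, Algebra.norm_eq_matrix_det b y]
  have h2 : ∀ M : Matrix (Module.Free.ChooseBasisIndex ℤ (𝓞 K)) (Module.Free.ChooseBasisIndex ℤ (𝓞 K)) ℤ,
      ((M.det : ℤ) : ZMod n) = (M.map (Int.castRingHom (ZMod n))).det := by
    intro M
    have := RingHom.map_det (Int.castRingHom (ZMod n)) M
    exact this
  rw [h2, h2, h1]

theorem X9_fiber (w : InfinitePlace K) (hw : w.IsComplex) (x : K) [DecidableEq (InfinitePlace K)] :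
    ∏ φ ∈ Finset.univ.filter (fun φ : K →+* ℂ => InfinitePlace.mk φ = w), φ x =
      ((‖w.embedding x‖ ^ 2 : ℝ) : ℂ) := by
  classical
  have hne : w.embedding ≠ ComplexEmbedding.conjugate w.embedding := by
    intro h
    exact (InfinitePlace.isComplex_iff.1 hw) h.symm
  have h1 : Finset.univ.filter (fun φ : K →+* ℂ => InfinitePlace.mk φ = w) =
      {w.embedding, ComplexEmbedding.conjugate w.embedding} := by
    ext φ
    rw [Finset.mem_filter, Finset.mem_insert, Finset.mem_singleton]
    constructor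
    · rintro ⟨-, h⟩
      have h2 : InfinitePlace.mk w.embedding = InfinitePlace.mk φ := by
        rw [InfinitePlace.mk_embedding, h]
      rcases InfinitePlace.mk_eq_iff.1 h2 with h3 | h3
      · exact Or.inl h3.symm
      · exact Or.inr h3.symm
    · intro h
      refine ⟨Finset.mem_univ _, ?_⟩
      rcases h with h | h
      · rw [h, InfinitePlace.mk_embedding]
      · rw [h, InfinitePlace.mk_conjugate_eq, InfinitePlace.mk_embedding]
  rw [h1, Finset.prod_pair hne, ComplexEmbedding.conjugate_coe_eq, Complex.mul_conj,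
    Complex.normSq_eq_norm_sq]

theorem X9_norm_nonneg (hK : ∀ v : InfinitePlace K, v.IsComplex) (x : K) :
    0 ≤ Algebra.norm ℚ x := by
  classical
  have h := Algebra.norm_eq_prod_embeddings ℚ ℂ x
  rw [← Fintype.prod_equiv (RingHom.equivRatAlgHom K ℂ) (fun φ => φ x) (fun f => f x)
    (fun _ => by simp [RingHom.equivRatAlgHom_apply]),
    ← Finset.prod_fiberwise Finset.univ InfinitePlace.mk (fun φ => φ x),
    Finset.prod_congr rfl fun w _ => X9_fiber w (hK w) x, ← Complex.ofReal_prod, eq_ratCast] at h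
  have h2 : ((Algebra.norm ℚ x : ℚ) : ℝ) = ∏ w : InfinitePlace K, ‖w.embedding x‖ ^ 2 := by
    exact_mod_cast h
  have h3 : (0 : ℝ) ≤ ((Algebra.norm ℚ x : ℚ) : ℝ) := by
    rw [h2]
    exact Finset.prod_nonneg fun w _ => by positivity
  exact_mod_cast h3

theorem X9_absNorm (hK : ∀ v : InfinitePlace K, v.IsComplex) (x : 𝓞 K) :
    ((Ideal.absNorm (Ideal.span {x}) : ℕ) : ℤ) = Algebra.norm ℤ x := by
  rw [Ideal.absNorm_span_singleton, Int.natAbs_of_nonneg]
  have h1 := X9_norm_nonneg hK (x : K)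
  rw [← Algebra.coe_norm_int] at h1
  exact_mod_cast h1

theorem X9_unit (f : Ideal (𝓞 K)) (p : ℕ) (hp : p.Prime) (hf : f ≤ Ideal.span {(p : 𝓞 K)})
    (v : Pl K) (hv : ¬ f ≤ v.asIdeal) : IsUnit ((Ideal.absNorm v.asIdeal : ℕ) : ZMod p) := by
  rw [ZMod.isUnit_iff_coprime, Nat.coprime_comm, Nat.Prime.coprime_iff_not_dvd hp]
  intro hdvd
  apply hv
  refine hf.trans ?_
  rw [Ideal.span_singleton_le_iff_mem]
  have hmax := v.isMaximal
  have hfin : Finite (𝓞 K ⧸ v.asIdeal) := Ideal.finiteQuotientOfFreeOfNeBot _ v.ne_bot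
  have hcard : Nat.card (𝓞 K ⧸ v.asIdeal) = Ideal.absNorm v.asIdeal := by
    rw [Ideal.absNorm_apply, Submodule.cardQuot_apply]
  have hF := Fintype.ofFinite (𝓞 K ⧸ v.asIdeal)
  have hpf : Fact p.Prime := ⟨hp⟩
  obtain ⟨x, hx⟩ := exists_prime_addOrderOf_dvd_card' (G := 𝓞 K ⧸ v.asIdeal) p (by rw [hcard]; exact hdvd)
  have hx0 : x ≠ 0 := by
    rintro rfl
    rw [addOrderOf_zero] at hx
    exact hp.one_lt.ne hx
  have hpx : (p : 𝓞 K ⧸ v.asIdeal) * x = 0 := by
    rw [← nsmul_eq_mul, ← hx]
    exact addOrderOf_nsmul_eq_zero x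
  have h1 : (p : 𝓞 K ⧸ v.asIdeal) = 0 := (mul_eq_zero.1 hpx).resolve_right hx0
  rw [← Ideal.Quotient.eq_zero_iff_mem, map_natCast]
  exact h1

theorem X9_pv (f : Ideal (𝓞 K)) (p : ℕ) (hp : p.Prime)
    (hf : f ≤ Ideal.span {(p : 𝓞 K)}) (θ : (ZMod p)ˣ →* ℂˣ) (a : Ideal (𝓞 K)) :
    a ≠ ⊥ → IsCoprime a f → ∃ u : (ZMod p)ˣ, (u : ZMod p) = (Ideal.absNorm a : ℕ) ∧
      pv (thetaF f p θ) a = θ u := by
  induction a using UniqueFactorizationMonoid.induction_on_prime with
  | h₁ => exact fun h => absurd rfl h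
  | h₂ x hx =>
    intro _ _
    have h1 : x = 1 := by
      rw [Ideal.isUnit_iff] at hx
      rw [hx, Ideal.one_eq_top]
    refine ⟨1, ?_, ?_⟩
    · rw [h1, Ideal.one_eq_top, Ideal.absNorm_top]
      simp
    · rw [h1, pv_one, map_one]
  | h₃ a P ha hP ih =>
    intro h1 h2
    obtain ⟨u, hu, hpu⟩ := ih ha h2.of_mul_left_right
    have hP1 : P.IsPrime := Ideal.isPrime_of_prime hP
    obtain ⟨v, hv⟩ : ∃ v : Pl K, v.asIdeal = P := ⟨⟨P, hP1, hP.ne_zero⟩, rfl⟩
    have hvf : ¬ f ≤ v.asIdeal := X9_not_le h2.of_mul_left_left v hv.ge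
    have hvu := X9_unit f p hp hf v hvf
    refine ⟨hvu.unit * u, ?_, ?_⟩
    · rw [Units.val_mul, hu, IsUnit.unit_spec, map_mul, hv]
      push_cast
      rfl
    · rw [pv_mul _ hP.ne_zero ha, hpu, map_mul, ← hv, pv_prime]
      congr 1
      exact dif_pos ⟨hvf, hvu⟩

theorem theta_RC (hK : ∀ v : InfinitePlace K, v.IsComplex) (f : Ideal (𝓞 K)) (p : ℕ)
    (hp : p.Prime) (hf : f ≤ Ideal.span {(p : 𝓞 K)}) (θ : (ZMod p)ˣ →* ℂˣ) :
    thetaF f p θ ∈ RC f := by
  refine ⟨fun v hv => dif_neg fun h => h.1 hv, fun x y hx hy hc hxy => ?_⟩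
  have hx' : Ideal.span {x} ≠ ⊥ := by rwa [Ne, Ideal.span_singleton_eq_bot]
  have hy' : Ideal.span {y} ≠ ⊥ := by rwa [Ne, Ideal.span_singleton_eq_bot]
  have hc' : IsCoprime (Ideal.span {y}) f := by
    refine X9_coprime_of hy' fun v h1 h2 => X9_not_le hc v ?_ h2
    rw [Ideal.span_singleton_le_iff_mem] at h1 ⊢
    have h3 : x = (x - y) + y := by ring
    rw [h3]
    exact v.asIdeal.add_mem (h2 hxy) h1
  obtain ⟨u, hu, hpu⟩ := X9_pv f p hp hf θ _ hx' hc
  obtain ⟨w, hw, hpw⟩ := X9_pv f p hp hf θ _ hy' hc'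
  rw [hpu, hpw]
  congr 1
  apply Units.ext
  rw [hu, hw]
  have h1 := X9_norm_congr p x y (hf hxy)
  rw [← X9_absNorm hK, ← X9_absNorm hK] at h1
  exact_mod_cast h1

theorem theta_apply (f : Ideal (𝓞 K)) (p : ℕ) (hp : p.Prime) (θ : (ZMod p)ˣ →* ℂˣ) (v : Pl K)
    (hv : ¬ f ≤ v.asIdeal) (u : (ZMod p)ˣ) (hu : (u : ZMod p) = (Ideal.absNorm v.asIdeal : ℕ)) :
    thetaF f p θ v = θ u := by
  have h1 : IsUnit ((Ideal.absNorm v.asIdeal : ℕ) : ZMod p) := hu ▸ u.isUnit
  have h2 : thetaF f p θ v = θ h1.unit := dif_pos ⟨hv, h1⟩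
  rw [h2]
  congr 1
  apply Units.ext
  rw [IsUnit.unit_spec, hu]

theorem resF_RC (f f' : Ideal (𝓞 K)) (hle : f' ≤ f) (φ : Pl K → ℂˣ) (hφ : φ ∈ RC f) :
    resF f' φ ∈ RC f' := by
  refine ⟨fun v hv => if_pos hv, fun x y hx hy hc hxy => ?_⟩
  have hy' : Ideal.span {y} ≠ ⊥ := by rwa [Ne, Ideal.span_singleton_eq_bot]
  have hx' : Ideal.span {x} ≠ ⊥ := by rwa [Ne, Ideal.span_singleton_eq_bot]
  have hc' : IsCoprime (Ideal.span {y}) f' := by
    refine X9_coprime_of hy' fun v h1 h2 => X9_not_le hc v ?_ h2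
    rw [Ideal.span_singleton_le_iff_mem] at h1 ⊢
    have h3 : x = (x - y) + y := by ring
    rw [h3]
    exact v.asIdeal.add_mem (h2 hxy) h1
  have key : ∀ a : Ideal (𝓞 K), IsCoprime a f' → pv (resF f' φ) a = pv φ a := fun a ha =>
    X9_pv_congr _ _ a fun v hv => if_neg (X9_not_le ha v hv)
  rw [key _ hc, key _ hc']
  exact hφ.2 x y hx hy (X9_coprime_of hx' fun v h1 h2 => X9_not_le hc v h1 (hle.trans h2)) (hle hxy)

theorem resF_one (f f' : Ideal (𝓞 K)) (hle : f' ≤ f) (hf' : f' ≠ ⊥) (φ : Pl K → ℂˣ)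
    (hφ : φ ∈ RC f) (h : resF f' φ = 1) : φ = 1 := by
  classical
  funext v
  rw [Pi.one_apply]
  by_cases hf : f ≤ v.asIdeal
  · exact hφ.1 v hf
  have hres : ∀ w : Pl K, ¬ f' ≤ w.asIdeal → φ w = 1 := by
    intro w hw
    have h1 := congrFun h w
    rw [Pi.one_apply] at h1
    have h2 : resF f' φ w = φ w := if_neg hw
    rw [← h2, h1]
  have hvu : ¬ IsUnit v.asIdeal := by
    rw [Ideal.isUnit_iff]
    exact v.isPrime.ne_top
  obtain ⟨g, hg1, hg2⟩ := (FiniteMultiplicity.of_not_isUnit hvu hf').exists_eq_pow_mul_and_not_dvd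
  have hf'm : f' = v.asIdeal ^ multiplicity v.asIdeal f' * g := hg1
  have hg0 : g ≠ ⊥ := by
    rintro rfl
    exact hf' (by rw [hf'm]; exact mul_zero _)
  have hgv : IsCoprime g v.asIdeal := by
    refine X9_coprime_of hg0 fun w h1 h2 => hg2 ?_
    rw [Ideal.dvd_iff_le]
    have h3 : v.asIdeal = w.asIdeal := v.isMaximal.eq_of_le w.isPrime.ne_top h2
    rw [h3]
    exact h1
  have hfv : IsCoprime f v.asIdeal := by
    rw [Ideal.isCoprime_iff_sup_eq]
    by_contra hne
    obtain ⟨M, hM, hle⟩ := Ideal.exists_le_maximal _ hne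
    have h4 : v.asIdeal = M := v.isMaximal.eq_of_le hM.ne_top (le_sup_right.trans hle)
    exact hf (h4 ▸ le_sup_left.trans hle)
  have hgf : g ≤ f := by
    rw [← Ideal.dvd_iff_le]
    have h1 : f ∣ v.asIdeal ^ multiplicity v.asIdeal f' * g := by
      rw [← hf'm, Ideal.dvd_iff_le]
      exact hle
    exact (hfv.pow_right).dvd_of_dvd_mul_left h1
  obtain ⟨π, hπ1, hπ2⟩ : ∃ π ∈ v.asIdeal, π ∉ v.asIdeal ^ 2 := by
    have h1 : v.asIdeal ^ 2 < v.asIdeal ^ 1 :=
      Ideal.pow_right_strictAnti v.asIdeal v.ne_bot v.isPrime.ne_top (by norm_num)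
    rw [pow_one] at h1
    obtain ⟨π, h2, h3⟩ := SetLike.exists_of_lt h1
    exact ⟨π, h2, h3⟩
  obtain ⟨i, hi, j, hj, hij⟩ := Ideal.isCoprime_iff_exists.1 (hgv.pow_right (n := 2))
  -- i in g, j in v ^ 2, i + j = 1
  obtain ⟨x, hx⟩ : ∃ x : 𝓞 K, x = j + i * π := ⟨_, rfl⟩
  have hx1 : x - 1 ∈ g := by
    have h1 : x - 1 = i * (π - 1) := by
      rw [hx]
      linear_combination hij
    rw [h1]
    exact g.mul_mem_right _ hi
  have hx2 : x ∈ v.asIdeal := by
    rw [hx]
    exact v.asIdeal.add_mem (Ideal.pow_le_self two_ne_zero hj) (v.asIdeal.mul_mem_left _ hπ1)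
  have hx3 : x ∉ v.asIdeal ^ 2 := by
    intro h1
    apply hπ2
    have h2 : π = x - j * (1 - π) := by
      rw [hx]
      linear_combination (-π) * hij
    rw [h2]
    exact (v.asIdeal ^ 2).sub_mem h1 ((v.asIdeal ^ 2).mul_mem_right _ hj)
  have hx0 : x ≠ 0 := by
    rintro rfl
    exact hx3 (v.asIdeal ^ 2).zero_mem
  obtain ⟨a, ha⟩ : ∃ a, Ideal.span {x} = v.asIdeal * a := by
    have h1 : v.asIdeal ∣ Ideal.span {x} := by
      rw [Ideal.dvd_iff_le, Ideal.span_singleton_le_iff_mem]
      exact hx2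
    exact h1
  have hxs : Ideal.span {x} ≠ ⊥ := by rwa [Ne, Ideal.span_singleton_eq_bot]
  have ha0 : a ≠ ⊥ := by
    rintro rfl
    exact hxs (by rw [ha]; exact mul_zero _)
  have hav : ¬ a ≤ v.asIdeal := by
    intro h1
    apply hx3
    have h2 : Ideal.span {x} ≤ v.asIdeal ^ 2 := by
      rw [ha, sq]
      exact Ideal.mul_mono_right h1
    exact h2 (Ideal.mem_span_singleton_self x)
  have hag : ∀ w : Pl K, a ≤ w.asIdeal → ¬ f' ≤ w.asIdeal := by
    intro w h1 h2
    have h3 : v.asIdeal ^ multiplicity v.asIdeal f' * g ≤ w.asIdeal := hf'm ▸ h2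
    rcases (Ideal.IsPrime.mul_le w.isPrime).1 h3 with h4 | h4
    · have h5 := Ideal.IsPrime.le_of_pow_le h4
      have h6 : v.asIdeal = w.asIdeal := v.isMaximal.eq_of_le w.isPrime.ne_top h5
      exact hav (h6 ▸ h1)
    · have h5 : x ∈ w.asIdeal := by
        have h6 : Ideal.span {x} ≤ w.asIdeal := by
          rw [ha]
          exact Ideal.mul_le_right.trans h1
        exact h6 (Ideal.mem_span_singleton_self x)
      have h6 : (1 : 𝓞 K) ∈ w.asIdeal := by
        have h7 : (1 : 𝓞 K) = x - (x - 1) := by ring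
        rw [h7]
        exact w.asIdeal.sub_mem h5 (h4 hx1)
      exact w.isPrime.ne_top ((Ideal.eq_top_iff_one _).2 h6)
  have hpa : pv φ a = 1 := X9_pv_eq_one φ a fun w hw => hres w (hag w hw)
  have hxf : IsCoprime (Ideal.span {x}) f := by
    refine X9_coprime_of hxs fun w h1 h2 => ?_
    have h5 : x ∈ w.asIdeal := h1 (Ideal.mem_span_singleton_self x)
    have h6 : (1 : 𝓞 K) ∈ w.asIdeal := by
      have h7 : (1 : 𝓞 K) = x - (x - 1) := by ring
      rw [h7]
      exact w.asIdeal.sub_mem h5 (h2 (hgf hx1))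
    exact w.isPrime.ne_top ((Ideal.eq_top_iff_one _).2 h6)
  have h1 := hφ.2 x 1 hx0 one_ne_zero hxf (hgf hx1)
  rw [ha, pv_mul φ v.ne_bot ha0, hpa, mul_one, pv_prime, Ideal.span_singleton_one,
    ← Ideal.one_eq_top, pv_one] at h1
  exact h1

end H55R
end

-- from Lib.H55B.E1
section

open NumberField IsDedekindDomain

namespace H55B

/-! Chunk E1: the cubic residue character and the number of points of y^2 + y = x^3.
phi om is a primitive cube root of unity in k (phi 3 <> 0), so 3 | q - 1, and x^((q-1)/3) is in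
{1, phi om, phi om^2} for x <> 0; chi x := the corresponding power of om (phi is injective on
{1, om, om^2}), chi 0 = 0. Nontrivial since k^* is cyclic. Number of x with x^3 = c: for c <> 0 it is
1 + chi c + chi(c)^2, for c = 0 it is 1. So the number of points is sum over y of
(1 + chi(y^2+y) + chi^2(y^2+y)) = q + sum_y chi(y) chi(1+y) + conj; replace y by -y and use
chi(-1) = 1 (chi(-1)^2 = 1 = chi(-1)^3). cj (chi x) = chi(x)^2. -/

private lemma om_cube : om ^ 3 = 1 := by
  linear_combination (om - 1) * om_rel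

private lemma cube_cases {R : Type*} [CommRing R] [IsDomain R] {w z : R} (hw : w ^ 2 + w + 1 = 0)
    (hz : z ^ 3 = 1) : z = 1 ∨ z = w ∨ z = w ^ 2 := by
  have h : (z - 1) * ((z - w) * (z - w ^ 2)) = 0 := by
    have hw3 : w ^ 3 = 1 := by linear_combination (w - 1) * hw
    linear_combination hz - (z ^ 2 - z) * hw - hw3 * (1 - z)
  rcases mul_eq_zero.mp h with h | h
  · left; exact sub_eq_zero.mp h
  rcases mul_eq_zero.mp h with h | h
  · right; left; exact sub_eq_zero.mp h
  · right; right; exact sub_eq_zero.mp h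

section
variable {k : Type*} [Field k] (φ : O →+* k)

private lemma w_rel : (φ om) ^ 2 + φ om + 1 = 0 := by
  have h := congrArg φ om_rel
  simpa using h

private lemma w_ne_one (h3 : φ 3 ≠ 0) : φ om ≠ 1 := by
  intro h
  apply h3
  have h1 := w_rel φ
  rw [h] at h1
  rw [map_ofNat]
  linear_combination h1

private lemma lift_root {u : k} (hu : u ^ 3 = 1) : ∃ z : Oˣ, (z : O) ^ 3 = 1 ∧ φ z = u := by
  let ω : Oˣ := ⟨om, om ^ 2, by linear_combination om_cube, by linear_combination om_cube⟩
  rcases cube_cases (w_rel φ) hu with h | h | h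
  · exact ⟨1, by simp, by simp [h]⟩
  · exact ⟨ω, om_cube, by rw [h]⟩
  · refine ⟨ω ^ 2, ?_, ?_⟩
    · have : ((ω ^ 2 : Oˣ) : O) = om ^ 2 := by simp [ω]
      rw [this]
      linear_combination (om ^ 3 + 1) * om_cube
    · have : ((ω ^ 2 : Oˣ) : O) = om ^ 2 := by simp [ω]
      rw [this, map_pow, h]

private lemma root_uniq (h3 : φ 3 ≠ 0) {z z' : O} (hz : z ^ 3 = 1) (hz' : z' ^ 3 = 1)
    (h : φ z = φ z') : z = z' := by
  have hw := w_rel φ
  have hw1 := w_ne_one φ h3
  have hw0 : φ om ≠ 0 := by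
    intro h; rw [h] at hw; simp at hw
  have hw3 : (φ om) ^ 3 = 1 := by linear_combination (φ om - 1) * hw
  have hw2 : (φ om) ^ 2 ≠ 1 := by
    intro h
    apply hw1
    calc φ om = φ om * (φ om) ^ 2 := by rw [h, mul_one]
      _ = (φ om) ^ 3 := by ring
      _ = 1 := hw3
  have hw12 : (φ om) ^ 2 ≠ φ om := by
    intro h
    apply hw1
    have : φ om * (φ om - 1) = 0 := by linear_combination h
    rcases mul_eq_zero.mp this with h | h
    · exact absurd h hw0
    · exact sub_eq_zero.mp h
  rcases cube_cases om_rel hz with h1 | h1 | h1 <;> rcases cube_cases om_rel hz' with h2 | h2 | h2 <;>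
    subst h1 <;> subst h2 <;> first | rfl | (exfalso; simp only [map_pow, map_one] at h)
  · exact hw1 h.symm
  · exact hw2 h.symm
  · exact hw1 h
  · exact hw12 h.symm
  · exact hw2 h
  · exact hw12 h

end

theorem exists_chi (k : Type*) [Field k] [Fintype k] (φ : O →+* k) (h3 : φ 3 ≠ 0) :
    ∃ χ : MulChar k O, χ ^ 3 = 1 ∧ χ ≠ 1 ∧ 3 ∣ Fintype.card k - 1 ∧
      (∀ x : k, φ (χ x) = x ^ ((Fintype.card k - 1) / 3)) ∧
      (∀ x : k, cj (χ x) = χ x ^ 2) ∧
      (Nat.card {p : k × k // p.2 ^ 2 + p.2 = p.1 ^ 3} : O) =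
        (Fintype.card k : O) + jacobiSum χ χ + cj (jacobiSum χ χ) := by
  classical
  have hw := w_rel φ
  have hw1 := w_ne_one φ h3
  have hw0 : φ om ≠ 0 := by
    intro h; rw [h] at hw; simp at hw
  have hw3 : (φ om) ^ 3 = 1 := by linear_combination (φ om - 1) * hw
  have hdvd : 3 ∣ Fintype.card k - 1 := by
    have h1 : orderOf (φ om) = 3 := orderOf_eq_prime hw3 hw1
    rw [← h1]
    apply orderOf_dvd_of_pow_eq_one
    exact FiniteField.pow_card_sub_one_eq_one _ hw0
  obtain ⟨m, hm⟩ := hdvd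
  have hm' : (Fintype.card k - 1) / 3 = m := by omega
  have hcard : 1 < Fintype.card k := Fintype.one_lt_card
  have hmpos : 0 < m := by omega
  have hroot : ∀ x : kˣ, ((x : k) ^ m) ^ 3 = 1 := by
    intro x
    rw [← pow_mul, mul_comm m 3, ← hm]
    exact FiniteField.pow_card_sub_one_eq_one _ x.ne_zero
  choose f hf3 hf using fun x : kˣ => lift_root φ (hroot x)
  let F : kˣ →* Oˣ :=
    { toFun := f
      map_one' := by
        apply Units.ext
        apply root_uniq φ h3 (hf3 1) (by simp)
        rw [hf]; simp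
      map_mul' := by
        intro x y
        apply Units.ext
        refine root_uniq φ h3 (hf3 _) ?_ ?_
        · rw [Units.val_mul, mul_pow, hf3, hf3, one_mul]
        · rw [Units.val_mul, map_mul, hf, hf, hf, Units.val_mul, mul_pow] }
  let χ : MulChar k O := MulChar.ofUnitHom F
  have hχu : ∀ x : kˣ, χ x = (f x : O) := fun x => MulChar.ofUnitHom_coe F x
  have hχ0 : χ 0 = 0 := MulChar.map_zero χ
  have hχ3 : χ ^ 3 = 1 := by
    apply MulChar.ext
    intro a
    rw [MulChar.pow_apply_coe, hχu, hf3, MulChar.one_apply_coe]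
  have hφχ : ∀ x : k, φ (χ x) = x ^ m := by
    intro x
    by_cases hx : x = 0
    · rw [hx, hχ0, map_zero, zero_pow hmpos.ne']
    · have := hf (Units.mk0 x hx)
      rw [← hχu] at this
      simpa using this
  have hχc : ∀ x : k, x ≠ 0 → χ x ^ 3 = 1 := by
    intro x hx
    have := hf3 (Units.mk0 x hx)
    rw [← hχu] at this
    simpa using this
  -- cubes
  have hcube : ∀ c : k, c ≠ 0 → c ^ m = 1 → ∃ x, c = x ^ 3 := by
    intro c hc hcm
    obtain ⟨g, hg⟩ := IsCyclic.exists_generator (α := kˣ)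
    obtain ⟨j, hj⟩ := (mem_powers_iff_mem_zpowers.mpr (hg (Units.mk0 c hc)))
    have hj' : (g : k) ^ j = c := by
      have := congrArg Units.val hj
      simpa using this
    have h1 : g ^ (j * m) = 1 := by
      apply Units.ext
      rw [Units.val_pow_eq_pow_val, pow_mul, hj', hcm, Units.val_one]
    have h2 : orderOf g = Fintype.card k - 1 := by
      rw [orderOf_eq_card_of_forall_mem_zpowers hg, Nat.card_eq_fintype_card, Fintype.card_units]
    have h3 := orderOf_dvd_of_pow_eq_one h1
    rw [h2, hm] at h3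
    obtain ⟨i, hi⟩ := Nat.dvd_of_mul_dvd_mul_right hmpos h3
    refine ⟨(g : k) ^ i, ?_⟩
    rw [← hj', hi, ← pow_mul, mul_comm]
  have hχne : χ ≠ 1 := by
    obtain ⟨g, hg⟩ := IsCyclic.exists_generator (α := kˣ)
    intro h
    have h1 : χ g = 1 := by rw [h, MulChar.one_apply_coe]
    have h2 := hφχ g
    rw [h1, map_one] at h2
    have h4 : g ^ m = 1 := by
      apply Units.ext
      rw [Units.val_pow_eq_pow_val, ← h2, Units.val_one]
    have h2 : orderOf g = Fintype.card k - 1 := by
      rw [orderOf_eq_card_of_forall_mem_zpowers hg, Nat.card_eq_fintype_card, Fintype.card_units]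
    have h3 := orderOf_dvd_of_pow_eq_one h4
    rw [h2, hm] at h3
    have := Nat.le_of_dvd hmpos h3
    omega
  have hcj : ∀ x : k, cj (χ x) = χ x ^ 2 := by
    intro x
    by_cases hx : x = 0
    · rw [hx, hχ0]; simp
    · rcases cube_cases om_rel (hχc x hx) with h | h | h
      · rw [h]; simp
      · rw [h, cj_om]
      · rw [h, map_pow, cj_om]
  have hcnt : ∀ c : k, ∑ x : k, (if c = x ^ 3 then (1 : O) else 0) = 1 + χ c + χ c ^ 2 := by
    intro c
    by_cases hc : c = 0
    · subst hc
      rw [hχ0]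
      have : ∀ x : k, (if (0 : k) = x ^ 3 then (1 : O) else 0) = if x = 0 then 1 else 0 := by
        intro x
        by_cases hx : x = 0
        · simp [hx]
        · have : (0 : k) ≠ x ^ 3 := (pow_ne_zero 3 hx).symm
          simp [hx, this]
      simp [this]
    · by_cases hex : ∃ x, c = x ^ 3
      · obtain ⟨x0, hx0⟩ := hex
        have hx00 : x0 ≠ 0 := by
          rintro rfl
          apply hc; rw [hx0]; simp
        have hχc1 : χ c = 1 := by
          rw [hx0, map_pow, hχc x0 hx00]
        have hfil : (Finset.univ.filter fun x : k => c = x ^ 3) =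
            {x0, φ om * x0, (φ om) ^ 2 * x0} := by
          ext x
          simp only [Finset.mem_filter, Finset.mem_univ, true_and, Finset.mem_insert,
            Finset.mem_singleton]
          constructor
          · intro hx
            have h1 : (x / x0) ^ 3 = 1 := by
              rw [div_pow, ← hx, ← hx0, div_self hc]
            rcases cube_cases hw h1 with h | h | h
            · left
              rw [div_eq_iff hx00, one_mul] at h; exact h
            · right; left
              rw [div_eq_iff hx00] at h; exact h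
            · right; right
              rw [div_eq_iff hx00] at h; exact h
          · rintro (h | h | h)
            · rw [h, hx0]
            · rw [h, mul_pow, hw3, one_mul, hx0]
            · rw [h, mul_pow, ← pow_mul, mul_comm 2 3, pow_mul, hw3, one_pow, one_mul, hx0]
        have hw2 : (φ om) ^ 2 ≠ 1 := by
          intro h
          apply hw1
          calc φ om = φ om * (φ om) ^ 2 := by rw [h, mul_one]
            _ = (φ om) ^ 3 := by ring
            _ = 1 := hw3
        have hw12 : (φ om) ≠ φ om ^ 2 := by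
          intro h
          apply hw1
          have : φ om * (φ om - 1) = 0 := by linear_combination -h
          rcases mul_eq_zero.mp this with h | h
          · exact absurd h hw0
          · exact sub_eq_zero.mp h
        have hcard3 : ({x0, φ om * x0, (φ om) ^ 2 * x0} : Finset k).card = 3 := by
          apply Finset.card_eq_three.mpr
          refine ⟨_, _, _, ?_, ?_, ?_, rfl⟩
          · intro h
            apply hw1
            exact (mul_right_cancel₀ hx00 (by rw [one_mul]; exact h)).symm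
          · intro h
            apply hw2
            exact (mul_right_cancel₀ hx00 (by rw [one_mul]; exact h)).symm
          · intro h
            exact hw12 (mul_right_cancel₀ hx00 h)
        rw [Finset.sum_ite, Finset.sum_const_zero, add_zero, Finset.sum_const, hfil, hcard3, hχc1]
        norm_num
      · have h1 : ∑ x : k, (if c = x ^ 3 then (1 : O) else 0) = 0 := by
          apply Finset.sum_eq_zero
          intro x _
          rw [if_neg]
          intro h
          exact hex ⟨x, h⟩
        rw [h1]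
        have h2 : χ c ≠ 1 := by
          intro h
          apply hex
          apply hcube c hc
          rw [← hφχ, h, map_one]
        have h3 : (χ c - 1) * (1 + χ c + χ c ^ 2) = 0 := by
          linear_combination hχc c hc
        rcases mul_eq_zero.mp h3 with h | h
        · exact absurd (sub_eq_zero.mp h) h2
        · exact h.symm
  have hχneg : χ (-1) = 1 := MulChar.val_neg_one_eq_one_of_odd_order (n := 3) (by decide) hχ3
  have hJ : ∑ y : k, χ (y ^ 2 + y) = jacobiSum χ χ := by
    unfold jacobiSum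
    rw [← Equiv.sum_comp (Equiv.neg k)]
    apply Finset.sum_congr rfl
    intro y _
    have : ((Equiv.neg k) y) ^ 2 + (Equiv.neg k) y = (-1) * (y * (1 - y)) := by
      rw [Equiv.neg_apply]; ring
    rw [this, map_mul, hχneg, one_mul, map_mul]
  refine ⟨χ, hχ3, hχne, ⟨m, hm⟩, ?_, hcj, ?_⟩
  · rw [hm']; exact hφχ
  · rw [Nat.card_eq_fintype_card, Fintype.card_subtype, Finset.card_filter]
    push_cast
    rw [Fintype.sum_prod_type_right]
    simp only
    have h1 : ∀ y : k, ∑ x : k, (if y ^ 2 + y = x ^ 3 then (1 : O) else 0) =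
        1 + χ (y ^ 2 + y) + cj (χ (y ^ 2 + y)) := by
      intro y
      rw [hcnt, hcj]
    rw [Finset.sum_congr rfl (fun y _ => h1 y), Finset.sum_add_distrib, Finset.sum_add_distrib,
      ← map_sum cj, hJ]
    simp

end H55B
end

-- from Lib.H55C.W8
section

open NumberField IsDedekindDomain

namespace H55C

open H55B

/-! Chunk W8: K is totally complex.
A real embedding of K would restrict to F and give a real primitive cube root of unity (a real number with
x^2 + x + 1 = 0). So nrRealPlaces K = 0 and 2 nrComplexPlaces K = finrank ℚ K = 2 finrank F K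
(InfinitePlace.card_add_two_mul_card_eq_rank, finrank ℚ F = 2 as φ(3) = 2). -/
theorem complex_places (K : Type) [Field K] [NumberField K] [Algebra F K] :
    InfinitePlace.nrComplexPlaces K = Module.finrank F K := by
  have h1 := InfinitePlace.card_add_two_mul_card_eq_rank K
  have h2 := Module.finrank_mul_finrank ℚ F K
  have h3 : Module.finrank ℚ F = 2 := by
    have h := IsCyclotomicExtension.finrank (n := 3) F
      (Polynomial.cyclotomic.irreducible_rat (by norm_num))
    rw [h]
    decide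
  have h4 : InfinitePlace.nrRealPlaces F = 0 :=
    IsCyclotomicExtension.Rat.nrRealPlaces_eq_zero (n := 3) F (by norm_num)
  have h5 : InfinitePlace.nrRealPlaces K = 0 := by
    rw [nrRealPlaces_eq_zero_iff] at h4 ⊢
    refine ⟨fun w => ?_⟩
    rw [← InfinitePlace.not_isReal_iff_isComplex]
    intro hw
    exact InfinitePlace.not_isReal_iff_isComplex.2 (h4.isComplex (w.comap (algebraMap F K)))
      (hw.comap _)
  rw [h3] at h2
  omega

end H55C
end

-- from Lib.H55N.H11
section

open NumberField IsDedekindDomain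

namespace H55N

open H55B H55C

/-! Chunk H11 (M): representatives of ideal classes. exists_mem_cop: IsDedekindDomain.exists_sup_span_eq for J * g <= J
gives x with J g + (x) = J (if x = 0 this forces g = 1, then take any nonzero x in J and b = (x)/J, coprime to 1); (x) = J b by
divisibility, and J g + J b = J gives g + b = 1 (cancel J). exists_rep: choose an integral ideal J in the class kappa⁻¹
(ClassGroup.mk0_surjective), x and b from exists_mem_cop: J b = (x), so the class of b is kappa. -/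

variable {K : Type} [Field K] [NumberField K]

theorem exists_mem_cop (J g : Ideal (𝓞 K)) (hJ : J ≠ ⊥) (hg : g ≠ ⊥) :
    ∃ x ∈ J, ∃ b : Ideal (𝓞 K), x ≠ 0 ∧ Ideal.span {x} = J * b ∧ IsCoprime b g := by
  obtain ⟨x, hx⟩ := IsDedekindDomain.exists_sup_span_eq (I := J * g) (J := J) Ideal.mul_le_left
    (mul_ne_zero hJ hg)
  by_cases hx0 : x = 0
  · subst hx0
    have h1 : J * g = J := by
      rw [Ideal.span_singleton_eq_bot.2 rfl, sup_bot_eq] at hx
      exact hx
    have h2 : g = ⊤ := by
      have h3 : J * g = J * 1 := by rw [h1, mul_one]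
      have h4 := mul_left_cancel₀ (show J ≠ 0 from hJ) h3
      rw [h4]
      exact Ideal.one_eq_top
    obtain ⟨y, hy, hy0⟩ := Submodule.exists_mem_ne_zero_of_ne_bot hJ
    have h3 : J ∣ Ideal.span {y} := by
      rw [Ideal.dvd_iff_le, Ideal.span_singleton_le_iff_mem]
      exact hy
    obtain ⟨b, hb⟩ := h3
    refine ⟨y, hy, b, hy0, hb, ?_⟩
    rw [h2, ← Ideal.one_eq_top]
    exact isCoprime_one_right
  · have hxJ : x ∈ J := by
      rw [← hx]
      exact Ideal.mem_sup_right (Ideal.mem_span_singleton_self x)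
    have h3 : J ∣ Ideal.span {x} := by
      rw [Ideal.dvd_iff_le, Ideal.span_singleton_le_iff_mem]
      exact hxJ
    obtain ⟨b, hb⟩ := h3
    refine ⟨x, hxJ, b, hx0, hb, ?_⟩
    rw [hb] at hx
    have h4 : J * (g ⊔ b) = J * 1 := by
      rw [Ideal.mul_sup, hx, mul_one]
    have h5 := mul_left_cancel₀ (show J ≠ 0 from hJ) h4
    rw [Ideal.isCoprime_iff_sup_eq, sup_comm, h5]
    exact Ideal.one_eq_top

theorem exists_rep (g : Ideal (𝓞 K)) (hg : g ≠ ⊥) (κ : ClassGroup (𝓞 K)) :
    ∃ (b : Ideal (𝓞 K)) (hb : b ≠ ⊥), IsCoprime b g ∧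
      ClassGroup.mk0 ⟨b, mem_nonZeroDivisors_iff_ne_zero.2 hb⟩ = κ := by
  obtain ⟨J, hJ⟩ := ClassGroup.mk0_surjective κ⁻¹
  have hJ0 : (J : Ideal (𝓞 K)) ≠ ⊥ := mem_nonZeroDivisors_iff_ne_zero.1 J.2
  obtain ⟨x, hx, b, hx0, hb, hcop⟩ := exists_mem_cop (J : Ideal (𝓞 K)) g hJ0 hg
  have hb0 : b ≠ ⊥ := by
    rintro rfl
    apply hx0
    rw [← Ideal.span_singleton_eq_bot, hb]
    exact mul_zero _
  refine ⟨b, hb0, hcop, ?_⟩
  have h1 : ClassGroup.mk0 (J * ⟨b, mem_nonZeroDivisors_iff_ne_zero.2 hb0⟩) = 1 := by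
    rw [ClassGroup.mk0_eq_one_iff]
    refine ⟨⟨x, ?_⟩⟩
    show (J : Ideal (𝓞 K)) * b = _
    rw [← hb]
  rw [map_mul, hJ] at h1
  exact (inv_mul_eq_one.1 h1).symm

end H55N
end

-- from Lib.H55N.H4
section

open NumberField IsDedekindDomain

namespace H55N

open H55B H55C


open Classical in
theorem H4_aux {K : Type} [Field K] [NumberField K] {ι : Type}
    (k : Ideal (𝓞 K) →*₀ ℂ) (hk : Summable fun a => ‖k a‖) (c : ι → Ideal (𝓞 K))
    (hc : ∀ i, (c i).IsPrime) (hc0 : ∀ i, c i ≠ ⊥) (inj : Function.Injective c) (p : ι → ℂ)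
    (S : Finset ι) :
    HasSum (fun a => k a * ∏ i ∈ S, (if a ≤ c i then 1 - p i else 1))
      ((∏ i ∈ S, (1 - p i * k (c i))) * ∑' a, k a) := by
  induction S using Finset.induction_on with
  | empty => simpa using hk.of_norm.hasSum
  | insert j S hj ih =>
    set f : Ideal (𝓞 K) → ℂ := fun a => k a * ∏ i ∈ S, (if a ≤ c i then 1 - p i else 1) with hf
    set g : Ideal (𝓞 K) → ℂ := fun a => if a ≤ c j then f a else 0 with hg
    have hinj : Function.Injective (fun b : Ideal (𝓞 K) => c j * b) :=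
      fun a b h => mul_left_cancel₀ (by simpa using hc0 j) h
    have h1 : ∀ b, g (c j * b) = k (c j) * f b := by
      intro b
      have h2 : c j * b ≤ c j := Ideal.mul_le_left
      simp only [hg, hf]
      rw [if_pos h2, map_mul, mul_assoc]
      congr 2
      refine Finset.prod_congr rfl fun i hi => ?_
      have hij : i ≠ j := fun h => hj (h ▸ hi)
      have h3 : c j * b ≤ c i ↔ b ≤ c i := by
        constructor
        · intro h
          rcases (hc i).mul_le.1 h with h | h
          · exfalso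
            have hmax : (c j).IsMaximal := (hc j).isMaximal (hc0 j)
            have := hmax.eq_of_le (hc i).ne_top h
            exact hij (inj this.symm)
          · exact h
        · intro h
          exact Ideal.mul_le_right.trans h
      simp only [h3]
    have h4 : HasSum g (k (c j) * ((∏ i ∈ S, (1 - p i * k (c i))) * ∑' a, k a)) := by
      rw [← hinj.hasSum_iff]
      · refine (ih.mul_left (k (c j))).congr_fun ?_
        intro b
        exact h1 b
      · intro a ha
        simp only [hg]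
        rw [if_neg]
        intro h
        obtain ⟨b, rfl⟩ := Ideal.dvd_iff_le.2 h
        exact ha ⟨b, rfl⟩
    have h5 := ih.sub (h4.mul_left (p j))
    rw [Finset.prod_insert hj]
    have h6 : (∏ i ∈ S, (1 - p i * k (c i))) * ∑' a, k a -
        p j * (k (c j) * ((∏ i ∈ S, (1 - p i * k (c i))) * ∑' a, k a)) =
        (1 - p j * k (c j)) * (∏ i ∈ S, (1 - p i * k (c i))) * ∑' a, k a := by ring
    rw [h6] at h5
    refine h5.congr_fun ?_
    intro a
    rw [Finset.prod_insert hj]
    simp only [hg, hf]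
    split_ifs <;> ring

open Classical in
/-- Chunk H4 (M), the smoothing identity. Prove by induction on a finset S of indices that
k a * prod over S has sum (prod over S of (1 - p k(c))) * sum k, with absolute summability (the product is bounded by
prod (1 + |1 - p i|)). Step from S to S + j: f_{S+j}(a) = f_S(a) - p_j [a <= c_j] f_S(a); the ideals a <= c_j are the c_j * b
(Ideal.dvd_iff_le), b -> c_j * b is injective (c_j nonzero), and f_S(c_j b) = k(c_j) f_S(b) because for i in S:
c_j b <= c_i iff b <= c_i (c_i is prime, and c_j <= c_i would give c_j = c_i as nonzero primes are maximal). -/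
theorem smooth_sum {K : Type} [Field K] [NumberField K] {ι : Type} [Fintype ι]
    (k : Ideal (𝓞 K) →*₀ ℂ) (hk : Summable fun a => ‖k a‖) (c : ι → Ideal (𝓞 K))
    (hc : ∀ i, (c i).IsPrime) (hc0 : ∀ i, c i ≠ ⊥) (inj : Function.Injective c) (p : ι → ℂ) :
    HasSum (fun a => k a * ∏ i, (if a ≤ c i then 1 - p i else 1))
      ((∏ i, (1 - p i * k (c i))) * ∑' a, k a) :=
  H4_aux k hk c hc hc0 inj p Finset.univ

end H55N
end

-- from Lib.H55P.Sel_T
section

/-!
# H55P: Selmer groups and Tate-Shafarevich groups by cocycles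

`W` is a Weierstrass curve over the number field `F`, `Ω` an algebraic closure of `F`, `K` an intermediate field
(a finite extension of F).  All cocycles are functions on the group of the automorphisms of Ω over F, of which only
the values on the subgroup fixing K matter.
-/

open WeierstrassCurve

namespace H55P

variable {F : Type} [Field F] {Ω : Type} [Field Ω] [DecidableEq Ω] [Algebra F Ω]





/-- The function c is a continuous cocycle on the group of K with values in the points over Ω. -/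
structure Coc (W : WeierstrassCurve F) (K : IntermediateField F Ω) (c : (Ω ≃ₐ[F] Ω) → Pt W Ω) : Prop where
  mul : ∀ s ∈ K.fixingSubgroup, ∀ t ∈ K.fixingSubgroup, c (s * t) = c s + ac W s (c t)
  cont : ∃ L : IntermediateField F Ω, FiniteDimensional F L ∧
    ∀ s ∈ K.fixingSubgroup, s ∈ L.fixingSubgroup → c s = 0

/-- The p-Selmer group of W over K, defined by the local conditions on the inertia groups only
(it contains the classical p-Selmer group), is zero. -/
def SelZero (W : WeierstrassCurve F) (p : ℕ) (K : IntermediateField F Ω) : Prop :=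
  ∀ c : (Ω ≃ₐ[F] Ω) → Pt W Ω, Coc W K c → (∀ s ∈ K.fixingSubgroup, p • c s = 0) →
    (∀ V : ValuationSubring Ω, ∃ P : Pt W Ω, ∀ s ∈ K.fixingSubgroup, Inert V s → c s = ac W s P - P) →
    ∃ T : Pt W Ω, p • T = 0 ∧ ∀ s ∈ K.fixingSubgroup, c s = ac W s T - T

/-- The p-torsion of the Tate-Shafarevich group of W over K (local conditions at the finite places, that is for the
decomposition groups of the nontrivial valuation rings of Ω) is zero. -/
def ShaZero (W : WeierstrassCurve F) (p : ℕ) (K : IntermediateField F Ω) : Prop :=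
  ∀ c : (Ω ≃ₐ[F] Ω) → Pt W Ω, Coc W K c →
    (∃ Q : Pt W Ω, ∀ s ∈ K.fixingSubgroup, p • c s = ac W s Q - Q) →
    (∀ V : ValuationSubring Ω, V ≠ ⊤ →
      ∃ P : Pt W Ω, ∀ s ∈ K.fixingSubgroup, Dec V s → c s = ac W s P - P) →
    ∃ P : Pt W Ω, ∀ s ∈ K.fixingSubgroup, c s = ac W s P - P

end H55P
end

-- from Lib.H28G.Defs
section

/-!
# H28G: the geometry of y^2 + y = x^3 (definitions and coordinates of points)

F = Q(om), O = Z[om], W27 : y^2 + y = x^3 over F. For every field k over F the points over k are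
`H55P.Pt W27 k`; `xc P`, `yc P` are the coordinates (0 for the point at infinity), `act c` is the multiplication by
c in O (om acts by (x, y) -> (om x, y)), `Tor c k` is the kernel of c, `tt P = - x/y`, `fc P = 2 y + 1`.
See PROOF.md.
-/

open NumberField IsDedekindDomain WeierstrassCurve

namespace H28G

open H55B

/-- The curve y^2 + y = x^3 over F. -/
noncomputable def W27 : WeierstrassCurve F := ⟨0, 0, 1, 0, 0⟩

/-- The points over k. -/
abbrev P27 (k : Type) [Field k] [Algebra F k] : Type := H55P.Pt W27 k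

section coords

variable {k : Type} [Field k] [Algebra F k]

/-- The x-coordinate (0 at infinity). -/
noncomputable def xc : P27 k → k
  | 0 => 0
  | .some x _ _ => x

/-- The y-coordinate (0 at infinity). -/
noncomputable def yc : P27 k → k
  | 0 => 0
  | .some _ y _ => y

/-- The function f = 2 y + 1. -/
noncomputable def fc (P : P27 k) : k := 2 * yc P + 1

/-- The parameter t = - x / y at infinity (0 at infinity). -/
noncomputable def tt (P : P27 k) : k := -xc P / yc P

/-- The image of om in k. -/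
noncomputable def ok (k : Type) [Field k] [Algebra F k] : k := algebraMap F k (om : F)

theorem W_a1 : (W27⁄k).toAffine.a₁ = 0 := by simp [W27]
theorem W_a2 : (W27⁄k).toAffine.a₂ = 0 := by simp [W27]
theorem W_a3 : (W27⁄k).toAffine.a₃ = 1 := by simp [W27]
theorem W_a4 : (W27⁄k).toAffine.a₄ = 0 := by simp [W27]
theorem W_a6 : (W27⁄k).toAffine.a₆ = 0 := by simp [W27]

theorem W_eq (x y : k) : (W27⁄k).toAffine.Equation x y ↔ y ^ 2 + y = x ^ 3 := by
  rw [Affine.equation_iff, W_a1, W_a2, W_a3, W_a4, W_a6]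
  ring_nf

theorem char0 : CharZero k := charZero_of_injective_algebraMap (algebraMap F k).injective

theorem W_ns (x y : k) : (W27⁄k).toAffine.Nonsingular x y ↔ y ^ 2 + y = x ^ 3 := by
  rw [Affine.nonsingular_iff, W_eq, W_a1, W_a2, W_a3, W_a4]
  constructor
  · exact fun h => h.1
  · intro h
    refine ⟨h, ?_⟩
    by_contra hcon
    push Not at hcon
    obtain ⟨h1, h2⟩ := hcon
    have := char0 (k := k)
    have h3 : x = 0 := by
      have h4 : (3 : k) * x ^ 2 = 0 := by linear_combination -h1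
      have h5 : x ^ 2 = 0 := by
        rcases mul_eq_zero.1 h4 with h | h
        · norm_num at h
        · exact h
      exact pow_eq_zero_iff (two_ne_zero) |>.1 h5
    have h4 : 2 * y + 1 = 0 := by linear_combination h2
    rw [h3] at h
    have h5 : (2 * y + 1) ^ 2 = 1 := by linear_combination 4 * h
    rw [h4] at h5
    norm_num at h5

/-- The point with coordinates x, y. -/
noncomputable def pt (x y : k) (h : y ^ 2 + y = x ^ 3) : P27 k := Affine.Point.some x y ((W_ns x y).2 h)

theorem pt_ne (x y : k) (h : y ^ 2 + y = x ^ 3) : pt x y h ≠ 0 := Affine.Point.some_ne_zero _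

theorem xc_pt (x y : k) (h : y ^ 2 + y = x ^ 3) : xc (pt x y h) = x := rfl

theorem yc_pt (x y : k) (h : y ^ 2 + y = x ^ 3) : yc (pt x y h) = y := rfl

theorem xc_zero : xc (0 : P27 k) = 0 := rfl


theorem eqn (P : P27 k) : yc P ^ 2 + yc P = xc P ^ 3 := by
  rcases P with _ | ⟨x, y, h⟩
  · show (0 : k) ^ 2 + 0 = 0 ^ 3
    ring
  · exact (W_ns x y).1 h

theorem fc_sq (P : P27 k) : fc P ^ 2 = 4 * xc P ^ 3 + 1 := by
  unfold fc
  linear_combination 4 * eqn P

theorem pt_ext {P Q : P27 k} (hP : P ≠ 0) (hQ : Q ≠ 0) (hx : xc P = xc Q) (hy : yc P = yc Q) :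
    P = Q := by
  rcases P with _ | ⟨x, y, h⟩
  · exact absurd rfl hP
  rcases Q with _ | ⟨x', y', h'⟩
  · exact absurd rfl hQ
  change x = x' at hx
  change y = y' at hy
  subst hx hy
  rfl


theorem neg_ne {P : P27 k} (hP : P ≠ 0) : -P ≠ 0 := by
  rcases P with _ | ⟨x, y, h⟩
  · exact absurd rfl hP
  · exact Affine.Point.some_ne_zero _

theorem xc_neg (P : P27 k) : xc (-P) = xc P := by
  rcases P with _ | ⟨x, y, h⟩
  · rfl
  · rfl

theorem yc_neg {P : P27 k} (hP : P ≠ 0) : yc (-P) = -1 - yc P := by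
  rcases P with _ | ⟨x, y, h⟩
  · exact absurd rfl hP
  · show (W27⁄k).toAffine.negY x y = -1 - y
    rw [Affine.negY, W_a1, W_a3]
    ring


theorem xc_eq {P Q : P27 k} (hP : P ≠ 0) (hQ : Q ≠ 0) (h : xc P = xc Q) : P = Q ∨ P = -Q := by
  have h1 := eqn P
  have h2 := eqn Q
  rw [h, ← h2] at h1
  have h3 : (yc P - yc Q) * (yc P + 1 + yc Q) = 0 := by linear_combination h1
  rcases mul_eq_zero.1 h3 with h4 | h4
  · exact Or.inl (pt_ext hP hQ h (sub_eq_zero.1 h4))
  · right
    refine pt_ext hP (neg_ne hQ) ?_ ?_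
    · rw [xc_neg, h]
    · rw [yc_neg hQ]
      linear_combination h4

end coords

section add

variable {k : Type} [Field k] [DecidableEq k] [Algebra F k]

theorem add_coords {P Q : P27 k} (hP : P ≠ 0) (hQ : Q ≠ 0) (h : xc P ≠ xc Q) :
    P + Q ≠ 0 ∧
    xc (P + Q) = ((yc P - yc Q) / (xc P - xc Q)) ^ 2 - xc P - xc Q ∧
    yc (P + Q) = -1 - ((yc P - yc Q) / (xc P - xc Q) * (xc (P + Q) - xc P) + yc P) := by
  rcases P with _ | ⟨x₁, y₁, h₁⟩
  · exact absurd rfl hP
  rcases Q with _ | ⟨x₂, y₂, h₂⟩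
  · exact absurd rfl hQ
  change x₁ ≠ x₂ at h
  have e1 : Affine.Point.some x₁ y₁ h₁ + Affine.Point.some x₂ y₂ h₂ =
      Affine.Point.some _ _ (Affine.nonsingular_add h₁ h₂ fun hxy => h hxy.1) :=
    Affine.Point.add_some fun hxy => h hxy.1
  have hs : (W27⁄k).toAffine.slope x₁ x₂ y₁ y₂ = (y₁ - y₂) / (x₁ - x₂) :=
    Affine.slope_of_X_ne h
  have hx : xc (Affine.Point.some x₁ y₁ h₁ + Affine.Point.some x₂ y₂ h₂) =
      ((y₁ - y₂) / (x₁ - x₂)) ^ 2 - x₁ - x₂ := by
    rw [e1]
    show (W27⁄k).toAffine.addX x₁ x₂ _ = _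
    rw [Affine.addX, hs, W_a1, W_a2]
    ring
  refine ⟨?_, hx, ?_⟩
  · rw [e1]
    exact Affine.Point.some_ne_zero _
  · rw [hx]
    rw [e1]
    show (W27⁄k).toAffine.addY x₁ x₂ y₁ _ = -1 - ((y₁ - y₂) / (x₁ - x₂) *
      (((y₁ - y₂) / (x₁ - x₂)) ^ 2 - x₁ - x₂ - x₁) + y₁)
    rw [Affine.addY, Affine.negAddY, Affine.negY, Affine.addX, hs, W_a1, W_a2, W_a3]
    ring

theorem dbl_coords {P : P27 k} (hP : P ≠ 0) (h : fc P ≠ 0) :
    P + P ≠ 0 ∧
    xc (P + P) = (3 * xc P ^ 2 / fc P) ^ 2 - 2 * xc P ∧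
    yc (P + P) = -1 - (3 * xc P ^ 2 / fc P * (xc (P + P) - xc P) + yc P) := by
  rcases P with _ | ⟨x, y, h₁⟩
  · exact absurd rfl hP
  have hf : fc (Affine.Point.some x y h₁ : P27 k) = 2 * y + 1 := rfl
  have h2 : y ≠ (W27⁄k).toAffine.negY x y := by
    rw [Affine.negY, W_a1, W_a3]
    intro h3
    apply h
    rw [hf]
    linear_combination h3
  have hxy : ¬(x = x ∧ y = (W27⁄k).toAffine.negY x y) := fun h' => h2 h'.2
  have e1 : Affine.Point.some x y h₁ + Affine.Point.some x y h₁ =
      Affine.Point.some _ _ (Affine.nonsingular_add h₁ h₁ hxy) :=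
    Affine.Point.add_some hxy
  have hs : (W27⁄k).toAffine.slope x x y y = 3 * x ^ 2 / (2 * y + 1) := by
    rw [Affine.slope_of_Y_ne rfl h2, Affine.negY, W_a1, W_a2, W_a3, W_a4]
    congr 1
    · ring
    · ring
  have hx : xc (Affine.Point.some x y h₁ + Affine.Point.some x y h₁) =
      (3 * x ^ 2 / fc (Affine.Point.some x y h₁ : P27 k)) ^ 2 - 2 * x := by
    rw [e1]
    show (W27⁄k).toAffine.addX x x _ = _
    rw [Affine.addX, hs, W_a1, W_a2, hf]
    ring
  refine ⟨?_, hx, ?_⟩
  · rw [e1]
    exact Affine.Point.some_ne_zero _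
  · rw [hx]
    rw [e1]
    show (W27⁄k).toAffine.addY x x y _ = -1 - (3 * x ^ 2 / (2 * y + 1) *
      ((3 * x ^ 2 / (2 * y + 1)) ^ 2 - 2 * x - x) + y)
    rw [Affine.addY, Affine.negAddY, Affine.negY, Affine.addX, hs, W_a1, W_a2, W_a3]
    ring

end add

end H28G
end

-- from Lib.H28G.Act
section

/-! # H28G: the action of O on the points -/

open NumberField IsDedekindDomain WeierstrassCurve

namespace H28G

open H55B

variable {k : Type} [Field k] [Algebra F k]

theorem ok_rel : ok k ^ 2 + ok k + 1 = 0 := by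
  have h : (om : F) ^ 2 + (om : F) + 1 = 0 := by exact_mod_cast congrArg (fun x : O => (x : F)) om_rel
  unfold ok
  rw [← map_pow, ← map_add, ← map_one (algebraMap F k), ← map_add, h, map_zero]

theorem ok_cube : ok k ^ 3 = 1 := by linear_combination (ok k - 1) * ok_rel (k := k)

theorem ok_ne : ok k ≠ 0 := by
  intro h
  have := ok_cube (k := k)
  rw [h] at this
  norm_num at this

theorem omF_aux (P : P27 k) : yc P ^ 2 + yc P = (ok k * xc P) ^ 3 := by
  rw [mul_pow, ok_cube, one_mul]
  exact eqn P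

open Classical in
/-- The automorphism om. -/
noncomputable def omF (P : P27 k) : P27 k := if P = 0 then 0 else pt (ok k * xc P) (yc P) (omF_aux P)

theorem omF_zero : omF (0 : P27 k) = 0 := if_pos rfl

theorem omF_of {P : P27 k} (hP : P ≠ 0) : omF P = pt (ok k * xc P) (yc P) (omF_aux P) := if_neg hP

theorem omF_ne {P : P27 k} (hP : P ≠ 0) : omF P ≠ 0 := by
  rw [omF_of hP]
  exact pt_ne _ _ _

theorem xc_omF (P : P27 k) : xc (omF P) = ok k * xc P := by
  by_cases hP : P = 0
  · rw [hP, omF_zero, xc_zero, mul_zero]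
  · rw [omF_of hP]
    rfl

theorem yc_omF (P : P27 k) : yc (omF P) = yc P := by
  by_cases hP : P = 0
  · rw [hP, omF_zero]
  · rw [omF_of hP]
    rfl

theorem fc_omF (P : P27 k) : fc (omF P) = fc P := by
  unfold fc
  rw [yc_omF]

theorem omF_neg (P : P27 k) : omF (-P) = -omF P := by
  by_cases hP : P = 0
  · rw [hP, omF_zero]
    have : (-(0 : P27 k)) = 0 := rfl
    rw [this, omF_zero]
  · refine pt_ext (omF_ne (neg_ne hP)) (neg_ne (omF_ne hP)) ?_ ?_
    · rw [xc_omF, xc_neg, xc_neg, xc_omF]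
    · rw [yc_omF, yc_neg hP, yc_neg (omF_ne hP), yc_omF]

variable [DecidableEq k]

omit [DecidableEq k] in
theorem fc_eq_zero {P : P27 k} (hP : P ≠ 0) (h : fc P = 0) : P = -P := by
  refine pt_ext hP (neg_ne hP) (xc_neg P).symm ?_
  rw [yc_neg hP]
  unfold fc at h
  linear_combination h

/-- The cases of the addition. -/
theorem add_cases (P Q : P27 k) : P = 0 ∨ Q = 0 ∨ P = -Q ∨ (P ≠ 0 ∧ P = Q ∧ fc P ≠ 0) ∨
    (P ≠ 0 ∧ Q ≠ 0 ∧ xc P ≠ xc Q) := by
  by_cases hP : P = 0
  · exact Or.inl hP
  by_cases hQ : Q = 0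
  · exact Or.inr (Or.inl hQ)
  by_cases hx : xc P = xc Q
  · rcases xc_eq hP hQ hx with h | h
    · by_cases hf : fc P = 0
      · right; right; left
        rw [← h]
        exact fc_eq_zero hP hf
      · exact Or.inr (Or.inr (Or.inr (Or.inl ⟨hP, h, hf⟩)))
    · exact Or.inr (Or.inr (Or.inl h))
  · exact Or.inr (Or.inr (Or.inr (Or.inr ⟨hP, hQ, hx⟩)))

theorem omF_add (P Q : P27 k) : omF (P + Q) = omF P + omF Q := by
  have hk := ok_ne (k := k)
  have hk2 : ok k ^ 4 = ok k := by linear_combination ok k * ok_cube (k := k)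
  rcases add_cases P Q with h | h | h | ⟨hP, h, hf⟩ | ⟨hP, hQ, h⟩
  · rw [h, zero_add, omF_zero, zero_add]
  · rw [h, add_zero, omF_zero, add_zero]
  · rw [h, omF_neg, neg_add_cancel, neg_add_cancel, omF_zero]
  · subst h
    obtain ⟨a1, a2, a3⟩ := dbl_coords hP hf
    obtain ⟨b1, b2, b3⟩ := dbl_coords (omF_ne hP) (by rw [fc_omF]; exact hf)
    rw [xc_omF, fc_omF] at b2 b3
    rw [yc_omF] at b3
    refine pt_ext (omF_ne a1) b1 ?_ ?_
    · rw [xc_omF, a2, b2]
      field_simp
      linear_combination (-9 * xc P ^ 4) * ok_cube (k := k)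
    · rw [yc_omF, a3, b3, a2, b2]
      field_simp
      linear_combination (27 * xc P ^ 6 * (ok k ^ 3 + 1) - 9 * xc P ^ 3 * fc P ^ 2) * ok_cube (k := k)
  · obtain ⟨a1, a2, a3⟩ := add_coords hP hQ h
    have hx : xc (omF P) ≠ xc (omF Q) := by
      rw [xc_omF, xc_omF]
      exact fun h' => h (mul_left_cancel₀ hk h')
    obtain ⟨b1, b2, b3⟩ := add_coords (omF_ne hP) (omF_ne hQ) hx
    rw [xc_omF, xc_omF, yc_omF, yc_omF] at b2 b3
    have hd : xc P - xc Q ≠ 0 := sub_ne_zero.2 h
    have hd2 : ok k * xc P - ok k * xc Q ≠ 0 := by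
      rw [← mul_sub]
      exact mul_ne_zero hk hd
    have hs : (yc P - yc Q) / (ok k * xc P - ok k * xc Q) =
        ok k ^ 2 * ((yc P - yc Q) / (xc P - xc Q)) := by
      rw [← mul_sub, div_mul_eq_div_div]
      field_simp
      linear_combination (-(yc P - yc Q)) * ok_cube (k := k)
    refine pt_ext (omF_ne a1) b1 ?_ ?_
    · rw [xc_omF, a2, b2, hs]
      linear_combination (-((yc P - yc Q) / (xc P - xc Q)) ^ 2) * hk2
    · rw [yc_omF, a3, b3, a2, b2, hs]
      linear_combination (((yc P - yc Q) / (xc P - xc Q)) *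
        (((yc P - yc Q) / (xc P - xc Q)) ^ 2 * (ok k ^ 3 + 1) - 2 * xc P - xc Q)) * ok_cube (k := k)

/-- The automorphism om as an endomorphism. -/
noncomputable def omP : P27 k →+ P27 k where
  toFun := omF
  map_zero' := omF_zero
  map_add' := omF_add

theorem omP_rel (P : P27 k) : omP (omP P) + omP P + P = 0 := by
  show omF (omF P) + omF P + P = 0
  by_cases hP : P = 0
  · rw [hP, omF_zero, omF_zero]
    rfl
  have hk := ok_rel (k := k)
  have hk0 := ok_ne (k := k)
  have h2 := char0 (k := k)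
  have hk1 : ok k ≠ 1 := by
    intro h
    rw [h] at hk
    norm_num at hk
  by_cases hx : xc P = 0
  · -- P = (0, 0) or (0, -1)
    have e1 : omF P = P := pt_ext (omF_ne hP) hP (by rw [xc_omF, hx, mul_zero]) (yc_omF P)
    rw [e1, e1]
    have hf : fc P ≠ 0 := by
      intro h
      have := fc_sq P
      rw [h, hx] at this
      norm_num at this
    obtain ⟨a1, a2, a3⟩ := dbl_coords hP hf
    have hn : P + P = -P := by
      refine pt_ext a1 (neg_ne hP) ?_ ?_
      · rw [a2, xc_neg, hx]
        ring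
      · rw [a3, yc_neg hP, hx]
        ring
    rw [hn, neg_add_cancel]
  · have hne : xc (omF (omF P)) ≠ xc (omF P) := by
      rw [xc_omF, xc_omF]
      intro h
      have h1 : ok k * xc P ≠ 0 := mul_ne_zero hk0 hx
      have h3 : (ok k - 1) * (ok k * xc P) = 0 := by linear_combination h
      rcases mul_eq_zero.1 h3 with h4 | h4
      · exact hk1 (sub_eq_zero.1 h4)
      · exact h1 h4
    obtain ⟨a1, a2, a3⟩ := add_coords (omF_ne (omF_ne hP)) (omF_ne hP) hne
    have hy : yc (omF (omF P)) - yc (omF P) = 0 := by rw [yc_omF, sub_self]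
    rw [hy, zero_div] at a2 a3
    have hn : omF (omF P) + omF P = -P := by
      refine pt_ext a1 (neg_ne hP) ?_ ?_
      · rw [a2, xc_neg, xc_omF, xc_omF]
        linear_combination (-xc P) * hk
      · rw [a3, yc_neg hP, yc_omF, yc_omF]
        ring
    rw [hn, neg_add_cancel]

/-- The automorphism om in the ring of endomorphisms. -/
noncomputable def omE (k : Type) [Field k] [DecidableEq k] [Algebra F k] : AddMonoid.End (P27 k) := omP

theorem omE_sq : omE k * omE k = -omE k - 1 := by
  apply AddMonoidHom.ext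
  intro P
  have h := omP_rel P
  show omP (omP P) = -omP P - P
  rw [eq_sub_iff_add_eq, eq_neg_iff_add_eq_zero, ← h]
  abel

/-- The additive map underlying the action. -/
noncomputable def act0 (k : Type) [Field k] [DecidableEq k] [Algebra F k] :
    O →+ AddMonoid.End (P27 k) where
  toFun c := ((Z1_basis.repr c 0 : ℤ) : AddMonoid.End (P27 k)) + ((Z1_basis.repr c 1 : ℤ) : AddMonoid.End (P27 k)) * omE k
  map_zero' := by simp
  map_add' a b := by
    simp only [map_add, Finsupp.add_apply, Int.cast_add, add_mul]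
    exact add_add_add_comm _ _ _ _

theorem act0_apply (a b : ℤ) : act0 k ((a : O) + b * om) =
    (a : AddMonoid.End (P27 k)) + (b : AddMonoid.End (P27 k)) * omE k := by
  show ((Z1_basis.repr _ 0 : ℤ) : AddMonoid.End (P27 k)) + ((Z1_basis.repr _ 1 : ℤ) : AddMonoid.End (P27 k)) * omE k = _
  rw [Z1_repr]
  simp

theorem act0_ring {R : Type} [Ring R] (w : R) (hw : w * w = -w - 1) (a b c d : ℤ) :
    (((a * c - b * d : ℤ) : R) + ((a * d + b * c - b * d : ℤ) : R) * w) =
      ((a : R) + (b : R) * w) * ((c : R) + (d : R) * w) := by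
  have h1 : (b : R) * w * (c : R) = (b : R) * (c : R) * w := by
    rw [mul_assoc, ((Int.cast_commute c w).eq).symm, mul_assoc]
  have h2 : (b : R) * w * ((d : R) * w) = (b : R) * (d : R) * (-w - 1) := by
    rw [← hw, mul_assoc, ← mul_assoc w, ((Int.cast_commute d w).eq).symm]
    simp only [mul_assoc]
  rw [add_mul, mul_add, mul_add, h1, h2]
  push_cast
  simp only [sub_mul, add_mul, mul_sub, mul_neg, mul_one, mul_assoc]
  abel

theorem act0_mul (x y : O) : act0 k (x * y) = act0 k x * act0 k y := by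
  obtain ⟨a, b, rfl⟩ := exists_repr x
  obtain ⟨c, d, rfl⟩ := exists_repr y
  have h1 : ((a : O) + b * om) * (c + d * om) = ((a * c - b * d : ℤ) : O) +
      ((a * d + b * c - b * d : ℤ) : O) * om := by
    push_cast
    linear_combination ((b : O) * d) * om_rel
  rw [h1, act0_apply, act0_apply, act0_apply]
  exact act0_ring (omE k) omE_sq a b c d

/-- The action of O on the points. -/
noncomputable def act : O →+* AddMonoid.End (P27 k) where
  toFun := act0 k
  map_one' := by
    have h : (1 : O) = ((1 : ℤ) : O) + ((0 : ℤ) : O) * om := by push_cast; ring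
    rw [h, act0_apply]
    simp
  map_mul' := act0_mul
  map_zero' := map_zero _
  map_add' := map_add _

theorem act_apply (a b : ℤ) (P : P27 k) : act ((a : O) + b * om) P = a • P + b • omP P := by
  show act0 k ((a : O) + b * om) P = _
  rw [act0_apply]
  rfl


theorem act_mul (x y : O) (P : P27 k) : act (x * y) P = act x (act y P) := by
  rw [map_mul]
  rfl

theorem act_add (x y : O) (P : P27 k) : act (x + y) P = act x P + act y P := by
  rw [map_add]
  rfl

theorem act_sub (x y : O) (P : P27 k) : act (x - y) P = act x P - act y P := by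
  rw [map_sub]
  rfl

theorem act_one (P : P27 k) : act (1 : O) P = P := by
  rw [map_one]
  rfl

theorem act_neg (x : O) (P : P27 k) : act (-x) P = -act x P := by
  rw [map_neg]
  rfl

theorem act_int (n : ℤ) (P : P27 k) : act (n : O) P = n • P := by
  rw [map_intCast]
  rfl

theorem act_nat (n : ℕ) (P : P27 k) : act (n : O) P = n • P := by
  rw [map_natCast]
  rfl

theorem xc_omP (P : P27 k) : xc (omP P) = ok k * xc P := xc_omF P

theorem yc_omP (P : P27 k) : yc (omP P) = yc P := yc_omF P

/-- The kernel of c. -/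
noncomputable def Tor (c : O) (k : Type) [Field k] [DecidableEq k] [Algebra F k] : AddSubgroup (P27 k) :=
  AddMonoidHom.ker (act c : P27 k →+ P27 k)

theorem mem_Tor {c : O} {P : P27 k} : P ∈ Tor c k ↔ act c P = 0 := Iff.rfl

/-- All points killed by c are rational over k. -/
def Full (c : O) (k : Type) [Field k] [DecidableEq k] [Algebra F k] : Prop := Nat.card (Tor c k) = Nm c

end H28G
end

-- from Lib.H55B.D0
section

open NumberField IsDedekindDomain

namespace H55B

/-! Chunk D0: a valuation of the complex numbers with v(2) < 1.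
The localization of the integers at (2), as a local subring of C, is dominated by a valuation subring
(LocalSubring.exists_le_valuationSubring / exists_valuationRing_of_isMax or the like in Mathlib), in which 2
is a nonunit. Integral elements have v <= 1: v(e x) <= 1 for Eisenstein integers since v(e om)^3 = 1
and e om is a root of unity. -/

theorem exists_val : ∃ A : ValuationSubring ℂ, A.valuation 2 < 1 := by
  let A : Subring ℂ := (Int.castRingHom ℂ).range
  have h2A : (2 : ℂ) ∈ A := ⟨2, by simp⟩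
  let t : A := ⟨2, h2A⟩
  have hI : Ideal.span {t} ≠ ⊤ := by
    intro h
    have h1 : (1 : A) ∈ Ideal.span {t} := by rw [h]; trivial
    rw [Ideal.mem_span_singleton] at h1
    obtain ⟨⟨c, ⟨n, hn⟩⟩, hc⟩ := h1
    have h3 : (1 : ℂ) = 2 * c := congrArg Subtype.val hc
    rw [← hn] at h3
    simp only [eq_intCast] at h3
    have h4 : (1 : ℤ) = 2 * n := by exact_mod_cast h3
    omega
  obtain ⟨B, -, hB⟩ := Ideal.image_subset_nonunits_valuationSubring (Ideal.span {t}) hI
  refine ⟨B, ?_⟩
  rw [← ValuationSubring.mem_nonunits_iff]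
  exact hB ⟨t, Ideal.mem_span_singleton_self t, rfl⟩

private lemma val_int_le (A : ValuationSubring ℂ) (n : ℤ) : A.valuation (n : ℂ) ≤ 1 := by
  rw [ValuationSubring.valuation_le_one_iff]
  exact intCast_mem A n

theorem val_e_le (A : ValuationSubring ℂ) (x : O) : A.valuation (e x) ≤ 1 := by
  obtain ⟨a, b, rfl⟩ := exists_repr x
  have hom : A.valuation (e om) ≤ 1 := by
    by_contra h
    push Not at h
    have h3 : (e om) ^ 3 = 1 := by
      linear_combination (e om - 1) * e_om_rel
    have h4 : A.valuation (e om) ^ 3 = 1 := by rw [← map_pow, h3, map_one]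
    have h5 : 1 < A.valuation (e om) ^ 3 := one_lt_pow₀ h (by norm_num)
    rw [h4] at h5
    exact lt_irrefl _ h5
  simp only [map_add, map_mul, map_intCast]
  refine (Valuation.map_add _ _ _).trans (max_le (val_int_le A a) ?_)
  rw [map_mul]
  exact mul_le_one' (val_int_le A b) hom

private lemma val_nat_le (A : ValuationSubring ℂ) (n : ℕ) : A.valuation (n : ℂ) ≤ 1 := by
  have := val_int_le A n
  simpa using this

theorem val_even (A : ValuationSubring ℂ) (h2 : A.valuation 2 < 1) (n : ℕ) (hn : Even n) :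
    A.valuation (n : ℂ) < 1 := by
  obtain ⟨k, rfl⟩ := hn
  have : ((k + k : ℕ) : ℂ) = 2 * (k : ℂ) := by push_cast; ring
  rw [this, map_mul]
  exact mul_lt_one_of_lt_of_le h2 (val_nat_le A k)

theorem val_odd (A : ValuationSubring ℂ) (h2 : A.valuation 2 < 1) (n : ℕ) (hn : Odd n) :
    A.valuation (n : ℂ) = 1 := by
  obtain ⟨k, rfl⟩ := hn
  have h := val_even A h2 (2 * k) ⟨k, by ring⟩
  have : ((2 * k + 1 : ℕ) : ℂ) = 1 + ((2 * k : ℕ) : ℂ) := by push_cast; ring
  rw [this]
  exact Valuation.map_one_add_of_lt _ h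


end H55B
end
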