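import Mathlib
import Pool.Agent.Lib.H1M.PP2.M016

/-!
# H55C: definitions for stage 2

The 2-part of the Birch and Swinnerton-Dyer conjecture for y^2 + y = x^3 over 2-extensions of
the field of cube roots of unity. See PROOF.md.
-/

open NumberField IsDedekindDomain Polynomial

namespace H55C

open H55B

/-- Good primes of the Eisenstein integers: not above 2 or 3, and 2 is not a cube modulo v. -/
def Good (v : HeightOneSpectrum O) : Prop :=
  (2 : O) ∉ v.asIdeal ∧ (3 : O) ∉ v.asIdeal ∧ ¬ ∃ x : O, x ^ 3 - 2 ∈ v.asIdeal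

/-- Twice the area of a period parallelogram. -/
noncomputable def Om (L : PeriodPair) : ℝ := 2 * |L.ω₁.re * L.ω₂.im - L.ω₁.im * L.ω₂.re|

end H55C
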