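import Mathlib
import Pool.Agent.Lib.H1M.PP2.D_H55C_Defs
import Pool.Agent.Lib.H1M.PP2.M016

/-! Merged copies (to shorten the build) of Lib.H55C.Defs_T, Lib.H55N.Defs, Lib.H55N.Basic, Lib.H55N.B5, Lib.H55N.B6, Lib.H55N.B7, Lib.H55N.B8, Lib.H55C.W7, Lib.H55N.C0, Lib.H55N.C2, Lib.H55N.U1, Lib.H55N.U2, Lib.H55N.A1, Lib.H55N.A2, Lib.H55N.B9. -/

-- from Lib.H55C.Defs_T
section

/-!
# H55C: definitions for stage 2

The 2-part of the Birch and Swinnerton-Dyer conjecture for y^2 + y = x^3 over 2-extensions of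
the field of cube roots of unity. See PROOF.md.
-/

open NumberField IsDedekindDomain Polynomial

namespace H55C

open H55B


/-- K/F is unramified outside the good primes. -/
def UnrOut (K : Type) [Field K] [NumberField K] [Algebra F K] : Prop :=
  ∀ (w : HeightOneSpectrum (𝓞 K)) (v : HeightOneSpectrum O), v.asIdeal = w.asIdeal.under O →
    ¬ Good v → w.asIdeal.ramificationIdx O = 1





/-- Good moduli. -/
def GoodMod (α : O) : Prop :=
  Squarefree α ∧ ¬ IsUnit α ∧ ∀ v : HeightOneSpectrum O, α ∈ v.asIdeal → Good v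


/-- z is a 2-adic unit: a unit for all valuations of the complex numbers above 2. -/
def Unit2 (z : ℂ) : Prop := ∀ A : ValuationSubring ℂ, A.valuation 2 < 1 → A.valuation z = 1


open Classical in
/-- Points of E27 over the completion with nonsingular reduction (of the minimal equation
y^2 + y = x^3): the partial derivatives 3x^2 and 2y + 1 do not both reduce to 0. -/
def E0 (K : Type) [Field K] [NumberField K] [Algebra F K] (w : HeightOneSpectrum (𝓞 K)) :
    Set (E27.baseChange (w.adicCompletion K)).toAffine.Point :=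
  {P | P = 0 ∨ ∃ (x y : w.adicCompletion K)
    (h : (E27.baseChange (w.adicCompletion K)).toAffine.Nonsingular x y),
    P = WeierstrassCurve.Affine.Point.some x y h ∧
      (1 ≤ Valued.v (3 * x ^ 2) ∨ 1 ≤ Valued.v (2 * y + 1))}







/-- The Selmer conditions on an element m of N: square norm, even valuations, and a congruence condition
above 2. -/
structure Cond (K N : Type) [Field K] [NumberField K] [Field N] [NumberField N] [Algebra K N]
    (ϑ : N) (T : N ≃+* N) (m : N) : Prop where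
  ne : m ≠ 0
  norm : ∃ n : K, n ≠ 0 ∧ m * T m * T (T m) = algebraMap K N n ^ 2
  even : ∀ P : HeightOneSpectrum (𝓞 N), ∃ k : ℤ, P.valuation N m = WithZero.exp (2 * k)
  two : ∀ P : HeightOneSpectrum (𝓞 N), (2 : 𝓞 N) ∈ P.asIdeal →
    ∃ b : N, b ≠ 0 ∧ P.valuation N (m / b ^ 2 - 1) ≤ P.valuation N (ϑ ^ 2)

end H55C
end

-- from Lib.H55N.Defs
section

/-!
# H55N: definitions

The 2-part of the Birch and Swinnerton-Dyer conjecture for y^2 + y = x^3 over all Galois
2-extensions of the field of cube roots of unity unramified outside the good primes. See PROOF.md.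
-/

open NumberField IsDedekindDomain

namespace H55N

open H55B H55C

variable {K : Type} [Field K] [NumberField K] [Algebra F K] {m : ℕ}

/-- The prime element above 3. -/
noncomputable def lam : O := om - 1

/-- The constant R0 of H55B (a period of the curve). -/
noncomputable def R0 : ℂ := R (e om - 1)

/-- The embeddings of K over the fixed embedding of F. -/
structure Emb (σ : Fin (m + 1) → K →+* ℂ) : Prop where
  ovr : ∀ i (x : F), σ i (algebraMap F K x) = emb x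
  inj : Function.Injective σ
  fin : Module.finrank F K = m + 1

/-- Smoothing data: 2(m+1) primes of degree one with different residue characteristics. -/
structure Smooth (c : Fin (m + 1) × Fin 2 → Ideal (𝓞 K)) (p : Fin (m + 1) × Fin 2 → ℕ) : Prop where
  norm : ∀ i, Ideal.absNorm (c i) = p i
  prime : ∀ i, (p i).Prime
  inj : Function.Injective p

/-- A residue class. -/
def XS (I : Ideal (𝓞 K)) (c₀ : 𝓞 K) : Set (𝓞 K) := {x | x - c₀ ∈ I}

open Classical in
/-- The smoothing weight. -/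
noncomputable def gw (c : Fin (m + 1) × Fin 2 → Ideal (𝓞 K)) (p : Fin (m + 1) × Fin 2 → ℕ)
    (x : 𝓞 K) : ℂ := ∏ i, if x ∈ c i then 1 - (p i : ℂ) else 1

/-- The summand conj N(x) |N(x)|^(-2s). -/
noncomputable def nf (s : ℂ) (x : 𝓞 K) : ℂ := g s (emb (Algebra.norm F (x : K)))

/-- T is a set of representatives of X modulo the units u = 1 mod J. -/
structure Transv (J : Ideal (𝓞 K)) (X T : Set (𝓞 K)) : Prop where
  sub : T ⊆ X
  cover : ∀ x ∈ X, ∃ r ∈ T, ∃ u : (𝓞 K)ˣ, (u : 𝓞 K) - 1 ∈ J ∧ x = u * r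
  uniq : ∀ r ∈ T, ∀ r' ∈ T, ∀ u : (𝓞 K)ˣ, (u : 𝓞 K) - 1 ∈ J → r' = u * r → r' = r

/-! ### Iterated differences -/

/-- Iterated differences. -/
def Dif {M ι : Type} [AddCommGroup M] (w : ι → M) (S : Finset ι) (h : M → ℂ) (x : M) : ℂ :=
  ∑ T ∈ S.powerset, (-1) ^ T.card * h (x - ∑ i ∈ T, w i)

/-- Slowly varying families of positive functions. -/
def SV {P M ι : Type} [AddCommGroup M] (X : Set M) (w : ι → M) (β : P → M → ℝ) : Prop :=
  (∀ q, ∀ x ∈ X, 0 < β q x) ∧
  ∃ C : ℝ, ∀ q, ∀ x ∈ X, ∀ i, β q (x - w i) ≤ C * β q x ∧ β q x ≤ C * β q (x - w i)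

/-- Families of functions of size β whose differences in the direction i gain the factor γ i. -/
def Good {P M ι : Type} [AddCommGroup M] (X : Set M) (w : ι → M) (γ : ι → M → ℝ) (β : P → M → ℝ)
    (h : P → M → ℂ) : Prop :=
  ∃ C : ℝ, ∀ q, ∀ S : Finset ι, ∀ x ∈ X, ‖Dif w S (h q) x‖ ≤ C * β q x * ∏ i ∈ S, γ i x

/-! ### Labels and the Kuhn triangulation -/

/-- Labels. -/
inductive Lab (K : Type) (m : ℕ)
  | T (t : Fin (m + 1) → ℝ) : Lab K m
  | A (a : K) : Lab K m

/-- The vertices of the Kuhn simplices. -/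
def kv {m : ℕ} (a : Fin m → ℤ) (π : Equiv.Perm (Fin m)) (j : ℕ) : Fin m → ℤ :=
  fun k => a k + if ((π.symm k : Fin m) : ℕ) < j then 1 else 0

/-- The alternating sum over the Kuhn triangulation of a cube of side N. -/
noncomputable def CN {Λ : Type} {m : ℕ} (N : ℕ) (J : (Fin (m + 1) → Λ) → ℂ)
    (L : (Fin m → ℤ) → Λ) : ℂ :=
  ∑ a : Fin m → Fin N, ∑ π : Equiv.Perm (Fin m),
    ((Equiv.Perm.sign π : ℤ) : ℂ) * J fun j => L (kv (fun k => ((a k : ℕ) : ℤ)) π j)

/-- The vertices of the prism over a simplex. -/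
def prism {Λ V : Type} (L L' : V → Λ) (v : ℕ → V) (i k : ℕ) : Λ :=
  if k ≤ i then L (v k) else L' (v (k - 1))

/-- The point with logarithms lam z. -/
noncomputable def tt {m : ℕ} (lm : Fin (m + 1) → Fin m → ℝ) (z : Fin m → ℝ) (i : Fin (m + 1)) : ℝ :=
  Real.exp (∑ j, z j * lm i j)

/-- The determinant of the matrix (1 | lm). -/
noncomputable def Delta {m : ℕ} (lm : Fin (m + 1) → Fin m → ℝ) : ℝ :=
  Matrix.det (Matrix.of fun i j : Fin (m + 1) => (Fin.cons 1 (lm i) : Fin (m + 1) → ℝ) j)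

/-! ### The context -/

/-- The data of the analytic core. -/
structure Ctx (K : Type) [Field K] [NumberField K] [Algebra F K] (m : ℕ) where
  σ : Fin (m + 1) → K →+* ℂ
  I : Ideal (𝓞 K)
  c₀ : 𝓞 K
  c : Fin (m + 1) × Fin 2 → Ideal (𝓞 K)
  p : Fin (m + 1) × Fin 2 → ℕ

namespace Ctx

variable (D : Ctx K m)

/-- The residue class. -/
def X : Set (𝓞 K) := XS D.I D.c₀

/-- The weight. -/
noncomputable def g (x : 𝓞 K) : ℂ := gw D.c D.p x

/-- The assumptions. -/
structure Ok : Prop where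
  emb : Emb D.σ
  ne : D.c₀ ∉ D.I
  smooth : Smooth D.c D.p

/-- The quadratic forms. -/
noncomputable def Q (t : Fin (m + 1) → ℝ) (x : 𝓞 K) : ℝ := ∑ i, t i * ‖D.σ i x‖ ^ 2

/-- The size. -/
noncomputable def sz (x : 𝓞 K) : ℝ := 1 + ∑ i, ‖D.σ i x‖

/-- The norm. -/
noncomputable def N (x : 𝓞 K) : ℂ := ∏ i, D.σ i x

/-- The trace of a x. -/
noncomputable def Tr (a : K) (x : 𝓞 K) : ℂ := ∑ i, D.σ i ((x : K) * a)

/-- The cutoff functions. -/
noncomputable def cut (B : Matrix (Fin (m + 1)) (Fin (m + 1)) ℂ) (R : ℝ) (x : 𝓞 K) : ℝ :=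
  (R ^ 2 / (R ^ 2 + ∑ i, ‖∑ j, B i j * D.σ j x‖ ^ 2)) ^ (m + 2)

/-- The product cutoff functions. -/
noncomputable def pcut (A : Fin (m + 1) → K) (R : ℝ) (x : 𝓞 K) : ℝ :=
  ∏ k, R ^ 2 / (R ^ 2 + ‖D.Tr (A k) x‖ ^ 2)

/-- S is the regularised sum of g h over X. -/
def HasReg (h : 𝓞 K → ℂ) (S : ℂ) : Prop :=
  (∃ C : ℝ, ∀ x ∈ D.X, ‖h x‖ ≤ C) ∧
  ∀ B : Matrix (Fin (m + 1)) (Fin (m + 1)) ℂ, B.det ≠ 0 →
    Filter.Tendsto (fun R : ℝ => ∑' x : D.X, D.g x * h x * (D.cut B R x : ℂ)) Filter.atTop (nhds S)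

/-- The row of a label. -/
noncomputable def row (l : Lab K m) (x : 𝓞 K) (i : Fin (m + 1)) : ℂ :=
  match l with
  | .T t => (starRingEnd ℂ) (D.σ i x) * t i / D.Q t x
  | .A a => D.σ i a / D.Tr a x

/-- The determinant of the rows of m + 1 labels. -/
noncomputable def Idet (L : Fin (m + 1) → Lab K m) (x : 𝓞 K) : ℂ :=
  Matrix.det (Matrix.of fun j i => D.row (L j) x i)

open Classical in
/-- The regularised sum of the determinant. -/
noncomputable def Jv (L : Fin (m + 1) → Lab K m) : ℂ :=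
  if h : ∃ S, D.HasReg (D.Idet L) S then h.choose else 0

/-- A dual pair of a basis of K/F and directions adapted to the smoothing primes. -/
structure Dirs (A : Fin (m + 1) → K) (w : Fin (m + 1) × Fin 2 → 𝓞 K) : Prop where
  mem : ∀ i, w i ∈ D.I
  self : ∀ i, w i ∉ D.c i
  oth : ∀ i k, k ≠ i → w i ∈ D.c k
  orth : ∀ i k, k ≠ i.1 → D.Tr (A k) (w i) = 0
  int : ∀ x ∈ D.X, ∀ k, ∃ y : O, D.Tr (A k) x = e y
  low : ∀ x ∈ D.X, ∀ k, 1 ≤ ‖D.Tr (A k) x‖
  ind : LinearIndependent F A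

/-- The gains in the directions w. -/
noncomputable def gl (A : Fin (m + 1) → K) (i : Fin (m + 1) × Fin 2) (x : 𝓞 K) : ℝ :=
  (1 + ‖D.Tr (A i.1) x‖)⁻¹

/-- The weight of the regularisable functions. -/
noncomputable def bl (A : Fin (m + 1) → K) (x : 𝓞 K) : ℝ := ∏ k, (1 + ‖D.Tr (A k) x‖)⁻¹

/-- G is a bounded function with g = D G (summation by parts). -/
def GSpec (w : Fin (m + 1) × Fin 2 → 𝓞 K) (G : 𝓞 K → ℂ) : Prop :=
  (∃ C : ℝ, ∀ x, ‖G x‖ ≤ C) ∧ ∀ h : 𝓞 K → ℂ, Summable (fun x : D.X => ‖h x‖) →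
    ∑' x : D.X, D.g x * h x = ∑' x : D.X, G x * Dif w Finset.univ h x

/-- The logarithms of the units. -/
noncomputable def lm (u : Fin m → (𝓞 K)ˣ) (i : Fin (m + 1)) (j : Fin m) : ℝ :=
  2 * Real.log ‖D.σ i ((u j : 𝓞 K) : K)‖

/-- Units of norm one acting on X, with nonzero regulator. -/
structure UOk (u : Fin m → (𝓞 K)ˣ) : Prop where
  act : ∀ j, ((u j : 𝓞 K) - 1) * D.c₀ ∈ D.I
  norm : ∀ j, ∏ i, D.σ i ((u j : 𝓞 K) : K) = 1
  reg : Delta (D.lm u) ≠ 0

/-- The action of the units on the labels. -/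
noncomputable def act (v : (𝓞 K)ˣ) (l : Lab K m) : Lab K m :=
  match l with
  | .T t => .T fun i => ‖D.σ i ((v : 𝓞 K) : K)‖ ^ 2 * t i
  | .A a => .A (((v : 𝓞 K) : K) * a)

/-- The family conj N(x) Q_t(x)^(-(m+1)s). -/
noncomputable def fs (t : Fin (m + 1) → ℝ) (s : ℂ) (x : 𝓞 K) : ℂ :=
  (starRingEnd ℂ) (D.N x) * (D.Q t x : ℂ) ^ (-((m + 1 : ℕ) * s))

/-- The regularised sum of conj N / prod Q. -/
noncomputable def Bv (w : Fin (m + 1) × Fin 2 → 𝓞 K) (G : 𝓞 K → ℂ)
    (t : Fin (m + 1) → Fin (m + 1) → ℝ) : ℂ :=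
  ∑' x : D.X, G x * Dif w Finset.univ (fun x => (starRingEnd ℂ) (D.N x) / ∏ j, (D.Q (t j) x : ℂ)) x

end Ctx

/-- The unit u^z. -/
noncomputable def uu (u : Fin m → (𝓞 K)ˣ) (z : Fin m → ℤ) : (𝓞 K)ˣ := ∏ j, u j ^ z j

/-- The normalising integral. -/
noncomputable def cst {m : ℕ} (lm : Fin (m + 1) → Fin m → ℝ) (s : ℂ) : ℂ :=
  ∫ z : Fin m → ℝ, ((∑ i, tt lm z i : ℝ) : ℂ) ^ (-((m + 1 : ℕ) * s))

/-- The first Eisenstein sum with a rational cutoff. -/
noncomputable def sR (R : ℝ) (z : ℂ) : ℂ :=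
  ∑' x : O, (z + 3 * e x)⁻¹ * ((R ^ 2 / (R ^ 2 + ‖z + 3 * e x‖ ^ 2) : ℝ) : ℂ)

/-- Integrality above 2. -/
def Int2 (z : ℂ) : Prop := ∀ V : ValuationSubring ℂ, V.valuation 2 < 1 → V.valuation z ≤ 1

end H55N
end

-- from Lib.H55N.Basic
section

/-! Simple facts used everywhere. -/

open NumberField IsDedekindDomain

namespace H55N

open H55B H55C

variable {K : Type} [Field K] [NumberField K] [Algebra F K] {m : ℕ}

theorem dif_empty {M ι : Type} [AddCommGroup M] (w : ι → M) (h : M → ℂ) (x : M) :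
    Dif w ∅ h x = h x := by
  simp [Dif]

theorem dif_add {M ι : Type} [AddCommGroup M] (w : ι → M) (S : Finset ι) (h k : M → ℂ) (x : M) :
    Dif w S (fun y => h y + k y) x = Dif w S h x + Dif w S k x := by
  simp only [Dif, mul_add, Finset.sum_add_distrib]

theorem dif_const_mul {M ι : Type} [AddCommGroup M] (w : ι → M) (S : Finset ι) (c : ℂ) (h : M → ℂ)
    (x : M) : Dif w S (fun y => c * h y) x = c * Dif w S h x := by
  simp only [Dif, Finset.mul_sum]
  exact Finset.sum_congr rfl fun T _ => by ring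


theorem dif_const {M ι : Type} [AddCommGroup M] (w : ι → M) (S : Finset ι) (hS : S.Nonempty)
    (c : ℂ) (x : M) : Dif w S (fun _ => c) x = 0 := by
  have h : (∑ T ∈ S.powerset, (-1 : ℂ) ^ T.card) = 0 := by
    have := Finset.sum_powerset_neg_one_pow_card_of_nonempty hS
    have h2 := congrArg (Int.cast : ℤ → ℂ) this
    push_cast at h2
    exact h2
  simp only [Dif]
  rw [← Finset.sum_mul, h, zero_mul]

theorem dif_insert {M ι : Type} [AddCommGroup M] [DecidableEq ι] (w : ι → M) (S : Finset ι) (a : ι)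
    (ha : a ∉ S) (h : M → ℂ) (x : M) :
    Dif w (insert a S) h x = Dif w S h x - Dif w S h (x - w a) := by
  simp only [Dif]
  rw [Finset.sum_powerset_insert ha]
  have : ∀ T ∈ S.powerset, (-1 : ℂ) ^ (insert a T).card * h (x - ∑ i ∈ insert a T, w i) =
      -((-1) ^ T.card * h (x - w a - ∑ i ∈ T, w i)) := by
    intro T hT
    have haT : a ∉ T := fun h' => ha (Finset.mem_powerset.1 hT h')
    rw [Finset.card_insert_of_notMem haT, Finset.sum_insert haT, sub_sub, pow_succ]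
    ring
  rw [Finset.sum_congr rfl this, Finset.sum_neg_distrib]
  ring

namespace Ctx

variable (D : Ctx K m)

theorem mem_X (x : 𝓞 K) : x ∈ D.X ↔ x - D.c₀ ∈ D.I := Iff.rfl

theorem X_sub {x y : 𝓞 K} (hx : x ∈ D.X) (hy : y ∈ D.I) : x - y ∈ D.X := by
  rw [mem_X] at hx ⊢
  have : x - y - D.c₀ = (x - D.c₀) - y := by ring
  rw [this]
  exact D.I.sub_mem hx hy

theorem X_add {x y : 𝓞 K} (hx : x ∈ D.X) (hy : y ∈ D.I) : x + y ∈ D.X := by
  rw [mem_X] at hx ⊢
  have : x + y - D.c₀ = (x - D.c₀) + y := by ring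
  rw [this]
  exact D.I.add_mem hx hy

theorem X_ne (h : D.c₀ ∉ D.I) {x : 𝓞 K} (hx : x ∈ D.X) : x ≠ 0 := by
  rintro rfl
  rw [mem_X, zero_sub] at hx
  exact h (neg_mem_iff.1 hx)

theorem Tr_add (a : K) (x y : 𝓞 K) : D.Tr a (x + y) = D.Tr a x + D.Tr a y := by
  simp only [Tr, map_add, add_mul, Finset.sum_add_distrib]

theorem Tr_sub (a : K) (x y : 𝓞 K) : D.Tr a (x - y) = D.Tr a x - D.Tr a y := by
  simp only [Tr, map_sub, sub_mul, Finset.sum_sub_distrib]

theorem Tr_zero (a : K) : D.Tr a 0 = 0 := by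
  simp [Tr]

theorem one_le_sz (x : 𝓞 K) : 1 ≤ D.sz x := by
  unfold sz
  have : 0 ≤ ∑ i, ‖D.σ i x‖ := Finset.sum_nonneg fun i _ => norm_nonneg _
  linarith

theorem sz_pos (x : 𝓞 K) : 0 < D.sz x := lt_of_lt_of_le one_pos (D.one_le_sz x)

theorem norm_le_sz (x : 𝓞 K) (i : Fin (m + 1)) : ‖D.σ i x‖ ≤ D.sz x := by
  unfold sz
  have : ‖D.σ i x‖ ≤ ∑ i, ‖D.σ i x‖ :=
    Finset.single_le_sum (f := fun i => ‖D.σ i x‖) (fun i _ => norm_nonneg _) (Finset.mem_univ i)
  linarith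

end Ctx

/-- The gain 1/sz in every direction. -/
noncomputable def Ctx.gs (D : Ctx K m) {ι : Type} (_ : ι) (x : 𝓞 K) : ℝ := (D.sz x)⁻¹

end H55N
end

-- from Lib.H55N.B5
section

namespace H55N

/-! Chunk B5 (M). The Leibniz rule. Induction on S with dif_insert: for S' = insert a S split the powerset of S' into the T
and the insert a T (T in the powerset of S) (Finset.sum_powerset_insert); for T: S' \ T = insert a (S \ T), for insert a T: S' \ insert a T = S \ T.
With E h (x) = h(x - w a): D_{S'}(hk)(x) = D_S(hk)(x) - D_S(hk)(x - w a), and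
[D_T h](x - w_{S-T} - w_a) [D_{insert a (S-T)} k](x) + [D_{insert a T} h](x - w_{S-T}) [D_{S-T} k](x) =
[D_T h](x - w_{S-T} - w_a) ([D_{S-T}k](x) - [D_{S-T}k](x-w_a)) + ([D_T h](x-w_{S-T}) - [D_T h](x-w_{S-T}-w_a)) [D_{S-T}k](x)
= [D_T h](x-w_{S-T}) [D_{S-T}k](x) - [D_T h](x-w_a-w_{S-T}) [D_{S-T}k](x-w_a). -/

theorem dif_mul {M ι : Type} [AddCommGroup M] [DecidableEq ι] (w : ι → M) (S : Finset ι)
    (h k : M → ℂ) (x : M) : Dif w S (fun y => h y * k y) x =
      ∑ T ∈ S.powerset, Dif w T h (x - ∑ i ∈ S \ T, w i) * Dif w (S \ T) k x := by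
  induction S using Finset.induction_on generalizing x with
  | empty =>
    rw [dif_empty, Finset.powerset_empty, Finset.sum_singleton, Finset.sdiff_empty, dif_empty,
      dif_empty, Finset.sum_empty, sub_zero]
  | insert a S ha ih =>
    rw [dif_insert w S a ha, ih x, ih (x - w a), Finset.sum_powerset_insert ha,
      ← Finset.sum_sub_distrib, ← Finset.sum_add_distrib]
    refine Finset.sum_congr rfl fun T hT => ?_
    have haT : a ∉ T := fun h' => ha (Finset.mem_powerset.1 hT h')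
    have h1 : insert a S \ T = insert a (S \ T) := Finset.insert_sdiff_of_notMem S haT
    have h2 : insert a S \ insert a T = S \ T := by
      rw [Finset.insert_sdiff_insert, Finset.sdiff_insert_of_notMem ha]
    have ha' : a ∉ S \ T := fun h' => ha (Finset.mem_sdiff.1 h').1
    rw [h1, h2, dif_insert w (S \ T) a ha', dif_insert w T a haT, Finset.sum_insert ha']
    have h3 : x - (w a + ∑ i ∈ S \ T, w i) = x - w a - ∑ i ∈ S \ T, w i := by abel
    have h4 : x - ∑ i ∈ S \ T, w i - w a = x - w a - ∑ i ∈ S \ T, w i := by abel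
    rw [h3, h4]
    ring

/-- Additive functions have no differences of order two and more. -/
theorem dif_additive {M ι : Type} [AddCommGroup M] (w : ι → M) (S : Finset ι) (h : M → ℂ)
    (hadd : ∀ x y, h (x - y) = h x - h y) (x : M) :
    (2 ≤ S.card → Dif w S h x = 0) ∧ ∀ i, Dif w {i} h x = h (w i) := by
  classical
  have key : ∀ (a : ι) (S0 : Finset ι), a ∉ S0 →
      Dif w (insert a S0) h x = Dif w S0 (fun _ => h (w a)) x := by
    intro a S0 ha
    rw [dif_insert w S0 a ha]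
    simp only [Dif]
    rw [← Finset.sum_sub_distrib]
    refine Finset.sum_congr rfl fun T _ => ?_
    have h3 : x - w a - ∑ i ∈ T, w i = x - ∑ i ∈ T, w i - w a := by abel
    rw [h3, hadd (x - ∑ i ∈ T, w i) (w a)]
    ring
  constructor
  · intro hS
    have hne : S.Nonempty := Finset.card_pos.mp (by omega)
    obtain ⟨a, ha⟩ := hne
    rw [← Finset.insert_erase ha, key a (S.erase a) (Finset.notMem_erase a S)]
    apply dif_const
    apply Finset.card_pos.mp
    rw [Finset.card_erase_of_mem ha]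
    omega
  · intro i
    have h1 : ({i} : Finset ι) = insert i ∅ := rfl
    rw [h1, key i ∅ (Finset.notMem_empty i), dif_empty]

/-- Differences of the complex conjugate. -/
theorem dif_conj {M ι : Type} [AddCommGroup M] (w : ι → M) (S : Finset ι) (h : M → ℂ) (x : M) :
    Dif w S (fun y => (starRingEnd ℂ) (h y)) x = (starRingEnd ℂ) (Dif w S h x) := by
  simp only [Dif, map_sum, map_mul, map_pow, map_neg, map_one]

end H55N
end

-- from Lib.H55N.B6
section

namespace H55N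

variable {P M ι : Type} [AddCommGroup M] [Fintype ι] [DecidableEq ι] {X : Set M} {w : ι → M}
  {γ : ι → M → ℝ} {β β' : P → M → ℝ} {h k : P → M → ℂ}

/-! Chunk B6 (M). Products of Good families.
First: if SV X w β with constant C then for every finite T: β q (x - w_T) <= C1 β q x, C1 = max(1,C)^(card ι) (induction on T;
X is stable), same for γ. By dif_mul, |D_S(hk)(x)| <= sum_{T in S} |D_T h (x - w_{S-T})| |D_{S-T} k (x)| <= sum_T C β(x - w_{S-T})
prod_{i in T} γ_i(x-w_{S-T}) C' β'(x) prod_{i in S-T} γ_i(x), and prod_T prod_{S-T} = prod_S (Finset.prod_sdiff); at most 2^(card ι)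
terms. (The constants C, C' may be assumed >= 0: replace by |C|, as β, γ > 0 on X.) -/

theorem SV.shift (hX : ∀ x ∈ X, ∀ i, x - w i ∈ X) (hβ : SV X w β) : ∃ C : ℝ, 0 < C ∧
    ∀ (T : Finset ι), ∀ q, ∀ x ∈ X, x - ∑ i ∈ T, w i ∈ X ∧ β q (x - ∑ i ∈ T, w i) ≤ C * β q x ∧
      β q x ≤ C * β q (x - ∑ i ∈ T, w i) := by
  obtain ⟨hpos, C0, hC0⟩ := hβ
  obtain ⟨C1, hC1⟩ : ∃ C1, C1 = max 1 C0 := ⟨_, rfl⟩
  have h1 : 1 ≤ C1 := by rw [hC1]; exact le_max_left _ _
  have h2 : C0 ≤ C1 := by rw [hC1]; exact le_max_right _ _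
  have key : ∀ (T : Finset ι), ∀ q, ∀ x ∈ X, x - ∑ i ∈ T, w i ∈ X ∧
      β q (x - ∑ i ∈ T, w i) ≤ C1 ^ T.card * β q x ∧
      β q x ≤ C1 ^ T.card * β q (x - ∑ i ∈ T, w i) := by
    intro T
    induction T using Finset.induction_on with
    | empty =>
      intro q x hx
      rw [Finset.sum_empty, sub_zero, Finset.card_empty, pow_zero, one_mul]
      exact ⟨hx, le_rfl, le_rfl⟩
    | insert a T ha ih =>
      intro q x hx
      obtain ⟨g1, g2, g3⟩ := ih q x hx
      have h3 : x - ∑ i ∈ insert a T, w i = x - ∑ i ∈ T, w i - w a := by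
        rw [Finset.sum_insert ha]
        abel
      rw [h3, Finset.card_insert_of_notMem ha, pow_succ]
      obtain ⟨y, hy⟩ : ∃ y, y = x - ∑ i ∈ T, w i := ⟨_, rfl⟩
      rw [← hy] at g1 g2 g3 ⊢
      obtain ⟨g4, g5⟩ := hC0 q y g1 a
      have hy0 := hpos q y g1
      have hz0 := hpos q (y - w a) (hX y g1 a)
      have hk : (0 : ℝ) < C1 ^ T.card := by positivity
      refine ⟨hX y g1 a, ?_, ?_⟩
      · calc β q (y - w a) ≤ C0 * β q y := g4
          _ ≤ C1 * β q y := by gcongr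
          _ ≤ C1 * (C1 ^ T.card * β q x) := by gcongr
          _ = C1 ^ T.card * C1 * β q x := by ring
      · calc β q x ≤ C1 ^ T.card * β q y := g3
          _ ≤ C1 ^ T.card * (C0 * β q (y - w a)) := by gcongr
          _ ≤ C1 ^ T.card * (C1 * β q (y - w a)) := by gcongr
          _ = C1 ^ T.card * C1 * β q (y - w a) := by ring
  refine ⟨C1 ^ Fintype.card ι, by positivity, ?_⟩
  intro T q x hx
  obtain ⟨g1, g2, g3⟩ := key T q x hx
  have h4 : C1 ^ T.card ≤ C1 ^ Fintype.card ι :=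
    pow_le_pow_right₀ h1 (Finset.card_le_univ T)
  have hx0 := hpos q x hx
  have hy0 := hpos q _ g1
  refine ⟨g1, ?_, ?_⟩
  · exact g2.trans (mul_le_mul_of_nonneg_right h4 hx0.le)
  · exact g3.trans (mul_le_mul_of_nonneg_right h4 hy0.le)

/-- Products of slowly varying functions. -/
theorem B6_prod (hX : ∀ x ∈ X, ∀ i, x - w i ∈ X) (hγ : SV X w γ) : ∃ K : ℝ, 0 < K ∧
    ∀ (T U : Finset ι), ∀ x ∈ X, ∏ i ∈ T, γ i (x - ∑ j ∈ U, w j) ≤ K * ∏ i ∈ T, γ i x := by
  obtain ⟨C, hC, h⟩ := SV.shift hX hγ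
  have h1 : 1 ≤ max 1 C := le_max_left _ _
  refine ⟨(max 1 C) ^ Fintype.card ι, by positivity, ?_⟩
  intro T U x hx
  have h2 : ∏ i ∈ T, γ i (x - ∑ j ∈ U, w j) ≤ ∏ i ∈ T, (max 1 C * γ i x) := by
    apply Finset.prod_le_prod
    · intro i _
      exact (hγ.1 i _ (h U i x hx).1).le
    · intro i _
      refine ((h U i x hx).2.1).trans ?_
      exact mul_le_mul_of_nonneg_right (le_max_right _ _) (hγ.1 i x hx).le
  refine h2.trans ?_
  rw [Finset.prod_mul_distrib, Finset.prod_const]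
  apply mul_le_mul_of_nonneg_right
  · exact pow_le_pow_right₀ h1 (Finset.card_le_univ T)
  · exact Finset.prod_nonneg fun i _ => (hγ.1 i x hx).le

/-- A product of two differences. -/
theorem B6_term (hX : ∀ x ∈ X, ∀ i, x - w i ∈ X) (hγ : SV X w γ) (hβ : SV X w β) : ∃ K : ℝ, 0 < K ∧
    ∀ (S T : Finset ι), T ⊆ S → ∀ q, ∀ x ∈ X, ∀ (C C' a b b' : ℝ), 0 ≤ C → 0 ≤ C' → 0 ≤ b → 0 ≤ b' →
      a ≤ C * β q (x - ∑ i ∈ S \ T, w i) * ∏ i ∈ T, γ i (x - ∑ i ∈ S \ T, w i) →
      b ≤ C' * b' * ∏ i ∈ S \ T, γ i x →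
      a * b ≤ (K * C * C') * (β q x * b') * ∏ i ∈ S, γ i x := by
  obtain ⟨K1, hK1, h1⟩ := SV.shift hX hβ
  obtain ⟨K2, hK2, h2⟩ := B6_prod hX hγ
  refine ⟨K1 * K2, by positivity, ?_⟩
  intro S T hTS q x hx C C' a b b' hC hC' hb hb' h3 h4
  have hx0 := hβ.1 q x hx
  have hp1 : 0 ≤ ∏ i ∈ T, γ i x := Finset.prod_nonneg fun i _ => (hγ.1 i x hx).le
  have hp2 : 0 ≤ ∏ i ∈ S \ T, γ i x := Finset.prod_nonneg fun i _ => (hγ.1 i x hx).le
  have hp3 : 0 ≤ ∏ i ∈ T, γ i (x - ∑ i ∈ S \ T, w i) :=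
    Finset.prod_nonneg fun i _ => (hγ.1 i _ (h1 (S \ T) q x hx).1).le
  have hprod : (∏ i ∈ S \ T, γ i x) * ∏ i ∈ T, γ i x = ∏ i ∈ S, γ i x :=
    Finset.prod_sdiff hTS
  have h5 : a ≤ C * (K1 * β q x) * (K2 * ∏ i ∈ T, γ i x) := by
    refine h3.trans ?_
    apply mul_le_mul _ (h2 T (S \ T) x hx) hp3 (by positivity)
    exact mul_le_mul_of_nonneg_left (h1 (S \ T) q x hx).2.1 hC
  calc a * b ≤ (C * (K1 * β q x) * (K2 * ∏ i ∈ T, γ i x)) * (C' * b' * ∏ i ∈ S \ T, γ i x) :=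
        mul_le_mul h5 h4 hb (by positivity)
    _ = _ := by rw [← hprod]; ring

omit [DecidableEq ι] in
theorem B6_card (S : Finset ι) (S' : Finset (Finset ι)) (h : S' ⊆ S.powerset) :
    (S'.card : ℝ) ≤ 2 ^ Fintype.card ι := by
  have h1 : S'.card ≤ 2 ^ S.card := (Finset.card_le_card h).trans (by rw [Finset.card_powerset])
  have h2 : 2 ^ S.card ≤ 2 ^ Fintype.card ι :=
    Nat.pow_le_pow_right (by norm_num) (Finset.card_le_univ S)
  exact_mod_cast h1.trans h2

theorem Good.mul (hX : ∀ x ∈ X, ∀ i, x - w i ∈ X) (hγ : SV X w γ) (hβ : SV X w β)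
    (hβ' : SV X w β') (h1 : Good X w γ β h) (h2 : Good X w γ β' k) :
    Good X w γ (fun q x => β q x * β' q x) (fun q x => h q x * k q x) := by
  obtain ⟨K, hK, hterm⟩ := B6_term hX hγ hβ
  obtain ⟨K1, hK1, hs⟩ := SV.shift hX hβ
  obtain ⟨C, hC⟩ := h1
  obtain ⟨C', hC'⟩ := h2
  refine ⟨2 ^ Fintype.card ι * (K * |C| * |C'|), ?_⟩
  intro q S x hx
  have hx0 := hβ.1 q x hx
  have hx0' := hβ'.1 q x hx
  have hp : 0 ≤ ∏ i ∈ S, γ i x := Finset.prod_nonneg fun i _ => (hγ.1 i x hx).le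
  have hB : 0 ≤ (K * |C| * |C'|) * (β q x * β' q x) * ∏ i ∈ S, γ i x := by positivity
  have e1 : Dif w S (fun y => h q y * k q y) x =
      ∑ T ∈ S.powerset, Dif w T (h q) (x - ∑ i ∈ S \ T, w i) * Dif w (S \ T) (k q) x :=
    dif_mul w S (h q) (k q) x
  show ‖Dif w S (fun y => h q y * k q y) x‖ ≤ _
  rw [e1]
  refine (norm_sum_le _ _).trans ?_
  have h3 : ∀ T ∈ S.powerset,
      ‖Dif w T (h q) (x - ∑ i ∈ S \ T, w i) * Dif w (S \ T) (k q) x‖ ≤
        (K * |C| * |C'|) * (β q x * β' q x) * ∏ i ∈ S, γ i x := by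
    intro T hT
    rw [Finset.mem_powerset] at hT
    rw [norm_mul]
    have hy := (hs (S \ T) q x hx).1
    apply hterm S T hT q x hx |C| |C'| _ _ _ (abs_nonneg _) (abs_nonneg _) (norm_nonneg _) hx0'.le
    · refine (hC q T _ hy).trans ?_
      apply mul_le_mul_of_nonneg_right _ (Finset.prod_nonneg fun i _ => (hγ.1 i _ hy).le)
      exact mul_le_mul_of_nonneg_right (le_abs_self _) (hβ.1 q _ hy).le
    · refine (hC' q (S \ T) x hx).trans ?_
      apply mul_le_mul_of_nonneg_right _ (Finset.prod_nonneg fun i _ => (hγ.1 i _ hx).le)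
      exact mul_le_mul_of_nonneg_right (le_abs_self _) hx0'.le
  refine (Finset.sum_le_sum h3).trans ?_
  rw [Finset.sum_const, nsmul_eq_mul]
  refine (mul_le_mul_of_nonneg_right (B6_card S S.powerset (Finset.Subset.refl _)) hB).trans ?_
  apply le_of_eq
  ring

end H55N
end

-- from Lib.H55N.B7
section

namespace H55N

variable {P M ι : Type} [AddCommGroup M] [Fintype ι] [DecidableEq ι] {X : Set M} {w : ι → M}
  {γ : ι → M → ℝ} {β : P → M → ℝ} {h : P → M → ℂ}

/-! Chunk B7 (M). Inverses of Good families.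
Strong induction on S (on the cardinality n of S, constants C_n): there is C_n with |D_S (1/h) (x)| <= C_n β(x)^(-1) prod_{i in S} γ_i(x) for all
q, x in X, |S| <= n. n = 0: |1/h| <= (c β)^(-1). For S nonempty h * (1/h) = 1 on X (h <> 0 there by hlow; all the points x - w_T are in X, so use a
version of dif_const for functions equal to 1 on X), so 0 = D_S((1/h) h)(x) = sum_{T in S} D_T(1/h)(x - w_{S-T}) D_{S-T}h(x) (dif_mul); the term
T = S is D_S(1/h)(x) h(x). Hence |D_S(1/h)(x)| |h(x)| <= sum_{T < S} C β(x-w_{S-T})^(-1) prod_T γ_i(x-w_{S-T}) C β(x) prod_{S-T} γ_i(x)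
<= C' prod_{i in S} γ_i(x) by SV.shift; divide by |h(x)| >= c β(x). -/

/-- The inductive statement. -/
theorem B7_ind (hX : ∀ x ∈ X, ∀ i, x - w i ∈ X) (hγ : SV X w γ) (hβ : SV X w β)
    (h1 : Good X w γ β h) (c : ℝ) (hc : 0 < c) (hlow : ∀ q, ∀ x ∈ X, c * β q x ≤ ‖h q x‖) :
    ∀ n : ℕ, ∃ C : ℝ, 0 < C ∧ ∀ q, ∀ S : Finset ι, S.card ≤ n → ∀ x ∈ X,
      ‖Dif w S (fun y => (h q y)⁻¹) x‖ ≤ C * (β q x)⁻¹ * ∏ i ∈ S, γ i x := by
  obtain ⟨K1, hK1, hs⟩ := SV.shift hX hβ
  obtain ⟨K2, hK2, hp⟩ := B6_prod hX hγ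
  obtain ⟨C0, hC0⟩ := h1
  intro n
  induction n with
  | zero =>
    refine ⟨c⁻¹, by positivity, ?_⟩
    intro q S hS x hx
    have hS0 : S = ∅ := Finset.card_eq_zero.mp (by omega)
    subst hS0
    have hx0 := hβ.1 q x hx
    rw [dif_empty, Finset.prod_empty, mul_one, norm_inv, ← mul_inv]
    exact inv_anti₀ (by positivity) (hlow q x hx)
  | succ n ih =>
    obtain ⟨C1, hC1, h2⟩ := ih
    refine ⟨C1 + 2 ^ Fintype.card ι * (C1 * K1 * K2 * |C0|) / c, by positivity, ?_⟩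
    intro q S hS x hx
    have hx0 := hβ.1 q x hx
    have hP : 0 ≤ ∏ i ∈ S, γ i x := Finset.prod_nonneg fun i _ => (hγ.1 i x hx).le
    by_cases hSn : S.card ≤ n
    · refine (h2 q S hSn x hx).trans ?_
      have h3 : 0 ≤ 2 ^ Fintype.card ι * (C1 * K1 * K2 * |C0|) / c := by positivity
      have h4 : 0 ≤ (2 ^ Fintype.card ι * (C1 * K1 * K2 * |C0|) / c) * (β q x)⁻¹ *
        ∏ i ∈ S, γ i x := by positivity
      nlinarith [h4]
    · have hSne : S.Nonempty := Finset.card_pos.mp (by omega)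
      -- the product is one on X
      have e0 : Dif w S (fun y => (h q y)⁻¹ * h q y) x = 0 := by
        rw [← dif_const w S hSne 1 x]
        unfold Dif
        refine Finset.sum_congr rfl fun T _ => ?_
        have hy := (hs T q x hx).1
        have hy0 := hβ.1 q _ hy
        have h3 : h q (x - ∑ i ∈ T, w i) ≠ 0 := by
          intro h4
          have h5 := hlow q _ hy
          rw [h4, norm_zero] at h5
          have : 0 < c * β q (x - ∑ i ∈ T, w i) := by positivity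
          linarith
        simp only
        rw [inv_mul_cancel₀ h3]
      have e1 : Dif w S (fun y => (h q y)⁻¹ * h q y) x =
          ∑ T ∈ S.powerset, Dif w T (fun y => (h q y)⁻¹) (x - ∑ i ∈ S \ T, w i) *
            Dif w (S \ T) (h q) x := dif_mul w S (fun y => (h q y)⁻¹) (h q) x
      have e2 := Finset.add_sum_erase S.powerset (fun T =>
        Dif w T (fun y => (h q y)⁻¹) (x - ∑ i ∈ S \ T, w i) *
            Dif w (S \ T) (h q) x) (Finset.mem_powerset_self S)
      rw [← e1, e0] at e2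
      simp only [Finset.sdiff_self, Finset.sum_empty, sub_zero, dif_empty] at e2
      have e3 : ‖Dif w S (fun y => (h q y)⁻¹) x‖ * ‖h q x‖ =
          ‖∑ T ∈ S.powerset.erase S, Dif w T (fun y => (h q y)⁻¹) (x - ∑ i ∈ S \ T, w i) *
            Dif w (S \ T) (h q) x‖ := by
        rw [← norm_mul, eq_neg_of_add_eq_zero_left e2, norm_neg]
      have h3 : ∀ T ∈ S.powerset.erase S,
          ‖Dif w T (fun y => (h q y)⁻¹) (x - ∑ i ∈ S \ T, w i) * Dif w (S \ T) (h q) x‖ ≤
            (C1 * K1 * K2 * |C0|) * ∏ i ∈ S, γ i x := by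
        intro T hT
        rw [Finset.mem_erase, Finset.mem_powerset] at hT
        obtain ⟨hne, hTS⟩ := hT
        have hcard : T.card ≤ n := by
          have := Finset.card_lt_card (Finset.ssubset_iff_subset_ne.mpr ⟨hTS, hne⟩)
          omega
        obtain ⟨hy, _, hy2⟩ := hs (S \ T) q x hx
        have hy0 := hβ.1 q _ hy
        have hp1 : 0 ≤ ∏ i ∈ T, γ i x := Finset.prod_nonneg fun i _ => (hγ.1 i x hx).le
        have hp2 : 0 ≤ ∏ i ∈ S \ T, γ i x := Finset.prod_nonneg fun i _ => (hγ.1 i x hx).le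
        have hp3 : 0 ≤ ∏ i ∈ T, γ i (x - ∑ i ∈ S \ T, w i) :=
          Finset.prod_nonneg fun i _ => (hγ.1 i _ hy).le
        have hprod : (∏ i ∈ S \ T, γ i x) * ∏ i ∈ T, γ i x = ∏ i ∈ S, γ i x :=
          Finset.prod_sdiff hTS
        have hinv : (β q (x - ∑ i ∈ S \ T, w i))⁻¹ ≤ K1 * (β q x)⁻¹ := by
          rw [← div_eq_mul_inv, inv_le_comm₀ hy0 (by positivity), inv_div, div_le_iff₀ hK1]
          linarith
        have g1 : ‖Dif w T (fun y => (h q y)⁻¹) (x - ∑ i ∈ S \ T, w i)‖ ≤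
            C1 * (K1 * (β q x)⁻¹) * (K2 * ∏ i ∈ T, γ i x) := by
          refine (h2 q T hcard _ hy).trans ?_
          apply mul_le_mul _ (hp T (S \ T) x hx) hp3 (by positivity)
          exact mul_le_mul_of_nonneg_left hinv hC1.le
        have g2 : ‖Dif w (S \ T) (h q) x‖ ≤ |C0| * β q x * ∏ i ∈ S \ T, γ i x := by
          refine (hC0 q (S \ T) x hx).trans ?_
          apply mul_le_mul_of_nonneg_right _ hp2
          exact mul_le_mul_of_nonneg_right (le_abs_self _) hx0.le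
        rw [norm_mul]
        refine (mul_le_mul g1 g2 (norm_nonneg _) (by positivity)).trans ?_
        apply le_of_eq
        rw [← hprod]
        field_simp
      have h4 := (norm_sum_le (S.powerset.erase S) (fun T =>
        Dif w T (fun y => (h q y)⁻¹) (x - ∑ i ∈ S \ T, w i) *
            Dif w (S \ T) (h q) x)).trans (Finset.sum_le_sum h3)
      rw [← e3, Finset.sum_const, nsmul_eq_mul] at h4
      have hcardE := B6_card S (S.powerset.erase S) (Finset.erase_subset _ _)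
      have h5 : ‖Dif w S (fun y => (h q y)⁻¹) x‖ * ‖h q x‖ ≤
          2 ^ Fintype.card ι * ((C1 * K1 * K2 * |C0|) * ∏ i ∈ S, γ i x) :=
        h4.trans (mul_le_mul_of_nonneg_right hcardE (by positivity))
      have h6 : ‖Dif w S (fun y => (h q y)⁻¹) x‖ * (c * β q x) ≤
          2 ^ Fintype.card ι * ((C1 * K1 * K2 * |C0|) * ∏ i ∈ S, γ i x) :=
        (mul_le_mul_of_nonneg_left (hlow q x hx) (norm_nonneg _)).trans h5
      have h7 : ‖Dif w S (fun y => (h q y)⁻¹) x‖ ≤
          2 ^ Fintype.card ι * ((C1 * K1 * K2 * |C0|) * ∏ i ∈ S, γ i x) / (c * β q x) := by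
        rw [le_div_iff₀ (by positivity)]
        exact h6
      refine h7.trans ?_
      have h8 : 2 ^ Fintype.card ι * ((C1 * K1 * K2 * |C0|) * ∏ i ∈ S, γ i x) / (c * β q x) =
          (2 ^ Fintype.card ι * (C1 * K1 * K2 * |C0|) / c) * (β q x)⁻¹ * ∏ i ∈ S, γ i x := by
        field_simp
      rw [h8]
      have h9 : 0 ≤ C1 * (β q x)⁻¹ * ∏ i ∈ S, γ i x := by positivity
      nlinarith [h9]

theorem Good.inv (hX : ∀ x ∈ X, ∀ i, x - w i ∈ X) (hγ : SV X w γ) (hβ : SV X w β)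
    (h1 : Good X w γ β h) (c : ℝ) (hc : 0 < c) (hlow : ∀ q, ∀ x ∈ X, c * β q x ≤ ‖h q x‖) :
    Good X w γ (fun q x => (β q x)⁻¹) (fun q x => (h q x)⁻¹) := by
  obtain ⟨C, _, h⟩ := B7_ind hX hγ hβ h1 c hc hlow (Fintype.card ι)
  exact ⟨C, fun q S x hx => h q S (Finset.card_le_univ S) x hx⟩

end H55N
end

-- from Lib.H55N.B8
section

namespace H55N

variable {P M ι κ : Type} [AddCommGroup M] [Fintype ι] [DecidableEq ι] {X : Set M} {w : ι → M}
  {γ γ' : ι → M → ℝ} {β β' : P → M → ℝ} {h k : P → M → ℂ}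

/-! Chunk B8 (M). Rules for slowly varying functions and Good families. All routine.
SV.mul, SV.inv, SV.pow: multiply the inequalities (the constant may be taken >= 1). Good.mono: multiply (c may be assumed >= 1, then
prod_S γ_i <= c^(card ι) prod_S γ'_i). Good.add, Good.sum: dif_add, dif_sum, triangle inequality. Good.pow, Good.prod: induction with
Good.mul (start with the constant function 1: Dif of a constant is 0 for S nonempty, dif_const). Good.conj: dif_conj.
Good.const: dif_const. Good.additive: dif_additive; card S = 0, 1 or >= 2 (Finset.card_eq_one). -/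

omit [Fintype ι] [DecidableEq ι] in
/-- Constants at least one. -/
theorem B8_one (hX : ∀ x ∈ X, ∀ i, x - w i ∈ X) (hβ : SV X w β) : ∃ C : ℝ, 1 ≤ C ∧
    ∀ q, ∀ x ∈ X, ∀ i, β q (x - w i) ≤ C * β q x ∧ β q x ≤ C * β q (x - w i) := by
  obtain ⟨h0, C, h⟩ := hβ
  refine ⟨max 1 C, le_max_left _ _, ?_⟩
  intro q x hx i
  obtain ⟨h1, h2⟩ := h q x hx i
  have h3 := h0 q x hx
  have h4 := h0 q (x - w i) (hX x hx i)
  have h5 : C ≤ max 1 C := le_max_right _ _
  exact ⟨h1.trans (mul_le_mul_of_nonneg_right h5 h3.le),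
    h2.trans (mul_le_mul_of_nonneg_right h5 h4.le)⟩

theorem SV.mul (hX : ∀ x ∈ X, ∀ i, x - w i ∈ X) (hβ : SV X w β) (hβ' : SV X w β') :
    SV X w fun q x => β q x * β' q x := by
  obtain ⟨C, hC, h⟩ := B8_one hX hβ
  obtain ⟨C', hC', h'⟩ := B8_one hX hβ'
  refine ⟨fun q x hx => mul_pos (hβ.1 q x hx) (hβ'.1 q x hx), C * C', ?_⟩
  intro q x hx i
  obtain ⟨h1, h2⟩ := h q x hx i
  obtain ⟨h3, h4⟩ := h' q x hx i
  have p1 := hβ.1 q x hx
  have p2 := hβ'.1 q x hx
  have p3 := hβ.1 q _ (hX x hx i)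
  have p4 := hβ'.1 q _ (hX x hx i)
  constructor
  · calc β q (x - w i) * β' q (x - w i) ≤ (C * β q x) * (C' * β' q x) :=
          mul_le_mul h1 h3 p4.le (by positivity)
      _ = C * C' * (β q x * β' q x) := by ring
  · calc β q x * β' q x ≤ (C * β q (x - w i)) * (C' * β' q (x - w i)) :=
          mul_le_mul h2 h4 p2.le (by positivity)
      _ = C * C' * (β q (x - w i) * β' q (x - w i)) := by ring

theorem SV.inv (hX : ∀ x ∈ X, ∀ i, x - w i ∈ X) (hβ : SV X w β) : SV X w fun q x => (β q x)⁻¹ := by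
  obtain ⟨C, hC, h⟩ := B8_one hX hβ
  refine ⟨fun q x hx => inv_pos.mpr (hβ.1 q x hx), C, ?_⟩
  intro q x hx i
  obtain ⟨h1, h2⟩ := h q x hx i
  have p1 := hβ.1 q x hx
  have p3 := hβ.1 q _ (hX x hx i)
  constructor
  · rw [← div_eq_mul_inv, le_div_iff₀ p1, inv_mul_le_iff₀ p3]
    linarith
  · rw [← div_eq_mul_inv, le_div_iff₀ p3, inv_mul_le_iff₀ p1]
    linarith

theorem SV.pow (hX : ∀ x ∈ X, ∀ i, x - w i ∈ X) (hβ : SV X w β) (n : ℕ) :
    SV X w fun q x => β q x ^ n := by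
  obtain ⟨C, hC, h⟩ := B8_one hX hβ
  refine ⟨fun q x hx => pow_pos (hβ.1 q x hx) n, C ^ n, ?_⟩
  intro q x hx i
  obtain ⟨h1, h2⟩ := h q x hx i
  have p1 := hβ.1 q x hx
  have p3 := hβ.1 q _ (hX x hx i)
  constructor
  · rw [← mul_pow]
    exact pow_le_pow_left₀ p3.le h1 n
  · rw [← mul_pow]
    exact pow_le_pow_left₀ p1.le h2 n

theorem B8_rpow {a b C : ℝ} (r : ℝ) (ha : 0 < a) (hb : 0 < b) (hC : 1 ≤ C) (h1 : a ≤ C * b)
    (h2 : b ≤ C * a) : a ^ r ≤ C ^ |r| * b ^ r := by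
  have hC0 : 0 < C := by linarith
  rcases le_total 0 r with hr | hr
  · rw [abs_of_nonneg hr, ← Real.mul_rpow hC0.le hb.le]
    exact Real.rpow_le_rpow ha.le h1 hr
  · rw [abs_of_nonpos hr]
    have h3 : b / C ≤ a := by
      rw [div_le_iff₀ hC0]
      linarith
    have h4 := Real.rpow_le_rpow_of_nonpos (by positivity : 0 < b / C) h3 hr
    refine h4.trans ?_
    rw [Real.div_rpow hb.le hC0.le, Real.rpow_neg hC0.le, div_eq_mul_inv, mul_comm]

theorem SV.rpow (hβ : SV X w β) (hX : ∀ x ∈ X, ∀ i, x - w i ∈ X) (r : ℝ) :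
    SV X w fun q x => β q x ^ r := by
  obtain ⟨C, hC, h⟩ := B8_one hX hβ
  refine ⟨fun q x hx => Real.rpow_pos_of_pos (hβ.1 q x hx) r, C ^ |r|, ?_⟩
  intro q x hx i
  obtain ⟨h1, h2⟩ := h q x hx i
  have p1 := hβ.1 q x hx
  have p3 := hβ.1 q _ (hX x hx i)
  exact ⟨B8_rpow r p3 p1 hC h1 h2, B8_rpow r p1 p3 hC h2 h1⟩

theorem SV.one : SV X w fun (_ : P) (_ : M) => (1 : ℝ) := by
  refine ⟨fun _ _ _ => one_pos, 1, ?_⟩
  intro q x hx i
  norm_num

theorem SV.prod (hX : ∀ x ∈ X, ∀ i, x - w i ∈ X) (s : Finset κ) (b : κ → P → M → ℝ)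
    (hb : ∀ i ∈ s, SV X w (b i)) : SV X w fun q x => ∏ i ∈ s, b i q x := by
  classical
  induction s using Finset.induction_on with
  | empty =>
    simp only [Finset.prod_empty]
    exact SV.one
  | insert a s ha ih =>
    have h1 := ih fun i hi => hb i (Finset.mem_insert_of_mem hi)
    have h2 := SV.mul hX (hb a (Finset.mem_insert_self a s)) h1
    have h3 : (fun (q : P) (x : M) => ∏ i ∈ insert a s, b i q x) =
        fun q x => b a q x * ∏ i ∈ s, b i q x := by
      funext q x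
      rw [Finset.prod_insert ha]
    rw [h3]
    exact h2

theorem Good.mono (h1 : Good X w γ β h) (hγ : ∀ i, ∀ x ∈ X, 0 ≤ γ i x) (c : ℝ) (hc : 0 ≤ c)
    (hβ : ∀ q, ∀ x ∈ X, 0 ≤ β q x ∧ β q x ≤ c * β' q x) (hγ' : ∀ i, ∀ x ∈ X, γ i x ≤ c * γ' i x) :
    Good X w γ' β' h := by
  obtain ⟨C, hC⟩ := h1
  refine ⟨|C| * c * (max 1 c) ^ Fintype.card ι, ?_⟩
  intro q S x hx
  obtain ⟨b1, b2⟩ := hβ q x hx
  have hcb : 0 ≤ c * β' q x := b1.trans b2
  have hcg : ∀ i, 0 ≤ c * γ' i x := fun i => (hγ i x hx).trans (hγ' i x hx)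
  have hp : ∏ i ∈ S, γ i x ≤ ∏ i ∈ S, (c * γ' i x) :=
    Finset.prod_le_prod (fun i _ => hγ i x hx) fun i _ => hγ' i x hx
  have hp0 : 0 ≤ ∏ i ∈ S, γ i x := Finset.prod_nonneg fun i _ => hγ i x hx
  have h2 : ‖Dif w S (h q) x‖ ≤ |C| * (c * β' q x) * ∏ i ∈ S, (c * γ' i x) := by
    refine (hC q S x hx).trans ?_
    apply mul_le_mul _ hp hp0 (by positivity)
    calc C * β q x ≤ |C| * β q x := mul_le_mul_of_nonneg_right (le_abs_self _) b1
      _ ≤ |C| * (c * β' q x) := mul_le_mul_of_nonneg_left b2 (abs_nonneg _)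
  refine h2.trans ?_
  rcases hc.eq_or_lt with hc0 | hc0
  · rw [← hc0]
    simp
  · have hb' : 0 ≤ β' q x := by
      by_contra hneg
      push Not at hneg
      have := mul_neg_of_pos_of_neg hc0 hneg
      linarith
    have hg' : ∀ i, 0 ≤ γ' i x := by
      intro i
      by_contra hneg
      push Not at hneg
      have := mul_neg_of_pos_of_neg hc0 hneg
      have := hcg i
      linarith
    have hpg : 0 ≤ ∏ i ∈ S, γ' i x := Finset.prod_nonneg fun i _ => hg' i
    rw [Finset.prod_mul_distrib, Finset.prod_const]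
    have h3 : c ^ S.card ≤ (max 1 c) ^ Fintype.card ι :=
      (pow_le_pow_left₀ hc (le_max_right _ _) _).trans
        (pow_le_pow_right₀ (le_max_left _ _) (Finset.card_le_univ S))
    calc |C| * (c * β' q x) * (c ^ S.card * ∏ i ∈ S, γ' i x) ≤
          |C| * (c * β' q x) * ((max 1 c) ^ Fintype.card ι * ∏ i ∈ S, γ' i x) := by
          apply mul_le_mul_of_nonneg_left _ (by positivity)
          exact mul_le_mul_of_nonneg_right h3 hpg
      _ = _ := by ring

theorem Good.add (h1 : Good X w γ β h) (h2 : Good X w γ β k) :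
    Good X w γ β fun q x => h q x + k q x := by
  obtain ⟨C, hC⟩ := h1
  obtain ⟨C', hC'⟩ := h2
  refine ⟨C + C', ?_⟩
  intro q S x hx
  have e : Dif w S ((fun q x => h q x + k q x) q) x = Dif w S (h q) x + Dif w S (k q) x :=
    dif_add w S (h q) (k q) x
  rw [e]
  refine (norm_add_le _ _).trans ((add_le_add (hC q S x hx) (hC' q S x hx)).trans ?_)
  apply le_of_eq
  ring

/-- Multiplication by bounded constants. -/
theorem Good.smul (h1 : Good X w γ β h) (hγ : ∀ i, ∀ x ∈ X, 0 ≤ γ i x)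
    (hβ : ∀ q, ∀ x ∈ X, 0 ≤ β q x) (c : P → ℂ) (b : ℝ) (hc : ∀ q, ‖c q‖ ≤ b) :
    Good X w γ β fun q x => c q * h q x := by
  obtain ⟨C, hC⟩ := h1
  refine ⟨|b| * |C|, ?_⟩
  intro q S x hx
  have e : Dif w S ((fun q x => c q * h q x) q) x = c q * Dif w S (h q) x :=
    dif_const_mul w S (c q) (h q) x
  rw [e, norm_mul]
  have hb := hβ q x hx
  have hp0 : 0 ≤ ∏ i ∈ S, γ i x := Finset.prod_nonneg fun i _ => hγ i x hx
  have h2 : ‖Dif w S (h q) x‖ ≤ |C| * β q x * ∏ i ∈ S, γ i x := by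
    refine (hC q S x hx).trans ?_
    apply mul_le_mul_of_nonneg_right _ hp0
    exact mul_le_mul_of_nonneg_right (le_abs_self _) hb
  calc ‖c q‖ * ‖Dif w S (h q) x‖ ≤ |b| * (|C| * β q x * ∏ i ∈ S, γ i x) :=
        mul_le_mul ((hc q).trans (le_abs_self _)) h2 (norm_nonneg _) (abs_nonneg _)
    _ = _ := by ring

theorem B8_zero : Good X w γ β fun _ _ => (0 : ℂ) := by
  refine ⟨0, ?_⟩
  intro q S x hx
  have e : Dif w S ((fun (_ : P) (_ : M) => (0 : ℂ)) q) x = 0 := by
    simp [Dif]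
  rw [e, norm_zero, zero_mul, zero_mul]

theorem Good.sum (s : Finset κ) (f : κ → P → M → ℂ) (h1 : ∀ i ∈ s, Good X w γ β (f i))
    (hγ : ∀ i, ∀ x ∈ X, 0 ≤ γ i x) (hβ : ∀ q, ∀ x ∈ X, 0 ≤ β q x) :
    Good X w γ β fun q x => ∑ i ∈ s, f i q x := by
  classical
  induction s using Finset.induction_on with
  | empty =>
    simp only [Finset.sum_empty]
    exact B8_zero
  | insert a s ha ih =>
    have h2 := ih fun i hi => h1 i (Finset.mem_insert_of_mem hi)
    have h3 := Good.add (h1 a (Finset.mem_insert_self a s)) h2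
    have h4 : (fun (q : P) (x : M) => ∑ i ∈ insert a s, f i q x) =
        fun q x => f a q x + ∑ i ∈ s, f i q x := by
      funext q x
      rw [Finset.sum_insert ha]
    rw [h4]
    exact h3

theorem Good.const (hβ : ∀ q, ∀ x ∈ X, 0 ≤ β q x) (hγ : ∀ i, ∀ x ∈ X, 0 ≤ γ i x) (c : P → ℂ)
    (b : ℝ) (hc : ∀ q, ∀ x ∈ X, ‖c q‖ ≤ b * β q x) : Good X w γ β fun q _ => c q := by
  refine ⟨|b|, ?_⟩
  intro q S x hx
  have hb := hβ q x hx
  have hp0 : 0 ≤ ∏ i ∈ S, γ i x := Finset.prod_nonneg fun i _ => hγ i x hx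
  rcases S.eq_empty_or_nonempty with rfl | hS
  · rw [dif_empty, Finset.prod_empty, mul_one]
    exact (hc q x hx).trans (mul_le_mul_of_nonneg_right (le_abs_self _) hb)
  · have e : Dif w S ((fun (q : P) (_ : M) => c q) q) x = 0 := dif_const w S hS (c q) x
    rw [e, norm_zero]
    positivity

theorem Good.prod (hX : ∀ x ∈ X, ∀ i, x - w i ∈ X) (hγ : SV X w γ) (s : Finset κ)
    (b : κ → P → M → ℝ) (f : κ → P → M → ℂ) (hb : ∀ i ∈ s, SV X w (b i))
    (h1 : ∀ i ∈ s, Good X w γ (b i) (f i)) :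
    Good X w γ (fun q x => ∏ i ∈ s, b i q x) (fun q x => ∏ i ∈ s, f i q x) := by
  classical
  induction s using Finset.induction_on with
  | empty =>
    simp only [Finset.prod_empty]
    apply Good.const (β := fun (_ : P) (_ : M) => (1 : ℝ)) (fun _ _ _ => zero_le_one)
      (fun i x hx => (hγ.1 i x hx).le) (fun _ => 1) 1
    intro q x hx
    rw [norm_one, one_mul]
  | insert a s ha ih =>
    have h2 := ih (fun i hi => hb i (Finset.mem_insert_of_mem hi))
      fun i hi => h1 i (Finset.mem_insert_of_mem hi)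
    have h3 := Good.mul hX hγ (hb a (Finset.mem_insert_self a s))
      (SV.prod hX s b fun i hi => hb i (Finset.mem_insert_of_mem hi))
      (h1 a (Finset.mem_insert_self a s)) h2
    have h4 : (fun (q : P) (x : M) => ∏ i ∈ insert a s, f i q x) =
        fun q x => f a q x * ∏ i ∈ s, f i q x := by
      funext q x
      rw [Finset.prod_insert ha]
    have h5 : (fun (q : P) (x : M) => ∏ i ∈ insert a s, b i q x) =
        fun q x => b a q x * ∏ i ∈ s, b i q x := by
      funext q x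
      rw [Finset.prod_insert ha]
    rw [h4, h5]
    exact h3

theorem Good.pow (hX : ∀ x ∈ X, ∀ i, x - w i ∈ X) (hγ : SV X w γ) (hβ : SV X w β)
    (h1 : Good X w γ β h) (n : ℕ) : Good X w γ (fun q x => β q x ^ n) (fun q x => h q x ^ n) := by
  have h2 := Good.prod hX hγ (Finset.range n) (fun _ => β) (fun _ => h) (fun _ _ => hβ)
    (fun _ _ => h1)
  have h4 : (fun (q : P) (x : M) => h q x ^ n) =
      fun q x => ∏ _i ∈ Finset.range n, h q x := by
    funext q x
    rw [Finset.prod_const, Finset.card_range]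
  have h5 : (fun (q : P) (x : M) => β q x ^ n) =
      fun q x => ∏ _i ∈ Finset.range n, β q x := by
    funext q x
    rw [Finset.prod_const, Finset.card_range]
  rw [h4, h5]
  exact h2

theorem Good.conj (h1 : Good X w γ β h) :
    Good X w γ β fun q x => (starRingEnd ℂ) (h q x) := by
  obtain ⟨C, hC⟩ := h1
  refine ⟨C, ?_⟩
  intro q S x hx
  have e : Dif w S ((fun q x => (starRingEnd ℂ) (h q x)) q) x =
      (starRingEnd ℂ) (Dif w S (h q) x) := dif_conj w S (h q) x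
  rw [e, Complex.norm_conj]
  exact hC q S x hx

theorem Good.additive (hβ : ∀ q, ∀ x ∈ X, 0 ≤ β q x) (hγ : ∀ i, ∀ x ∈ X, 0 ≤ γ i x)
    (hadd : ∀ q x y, h q (x - y) = h q x - h q y) (c : ℝ) (h1 : ∀ q, ∀ x ∈ X, ‖h q x‖ ≤ c * β q x)
    (h2 : ∀ q, ∀ x ∈ X, ∀ i, ‖h q (w i)‖ ≤ c * β q x * γ i x) : Good X w γ β h := by
  refine ⟨|c|, ?_⟩
  intro q S x hx
  have hb := hβ q x hx
  have hp0 : 0 ≤ ∏ i ∈ S, γ i x := Finset.prod_nonneg fun i _ => hγ i x hx
  obtain ⟨h3, h4⟩ := dif_additive w S (h q) (hadd q) x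
  rcases Nat.lt_or_ge S.card 2 with hS | hS
  · rcases Nat.lt_or_ge S.card 1 with hS1 | hS1
    · have : S = ∅ := Finset.card_eq_zero.mp (by omega)
      subst this
      rw [dif_empty, Finset.prod_empty, mul_one]
      exact (h1 q x hx).trans (mul_le_mul_of_nonneg_right (le_abs_self _) hb)
    · obtain ⟨i, hi⟩ := Finset.card_eq_one.mp (by omega : S.card = 1)
      subst hi
      rw [h4 i, Finset.prod_singleton]
      refine (h2 q x hx i).trans ?_
      apply mul_le_mul_of_nonneg_right _ (hγ i x hx)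
      exact mul_le_mul_of_nonneg_right (le_abs_self _) hb
  · rw [h3 hS, norm_zero]
    positivity

end H55N
end

-- from Lib.H55C.W7
section

open NumberField IsDedekindDomain

namespace H55C

open H55B

/-! Chunk W7: the discriminant is odd.
NumberField.not_dvd_discr_iff_forall_mem K (𝓞 K) (p = 2): it is enough that every prime P of 𝓞 K containing 2 is
unramified over the integers. Let v = P under O; 2 is prime in O (H55B/Z2.two_prime), so v = (2) and v is not Good; by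
UnrOut the ramification index of P over O is 1, and the ramification index of (2) over the integers is 1
(2 is not in (2)^2 as 2 O = (2)); ramification indices are multiplicative, so the ramification index of P over the
integers is 1, and Algebra.IsUnramifiedAt follows (residue fields are finite: Algebra.isUnramifiedAt_iff_of_isDedekindDomain or
a similar lemma in Mathlib/NumberTheory/RamificationInertia/Unramified). -/
theorem W7_discrF : ¬ (2 : ℤ) ∣ NumberField.discr F := by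
  have : Fact (Nat.Prime 3) := ⟨by norm_num⟩
  have h : NumberField.discr F = (-1) ^ ((3 - 1) / 2) * 3 ^ (3 - 2) :=
    IsCyclotomicExtension.Rat.discr_prime 3 F
  rw [h]
  decide

theorem odd_discr (K : Type) [Field K] [NumberField K] [Algebra F K] (hK : UnrOut K) :
    Odd (NumberField.discr K) := by
  rw [← Int.not_even_iff_odd, even_iff_two_dvd,
    NumberField.not_dvd_discr_iff_forall_mem K (𝓞 K) Int.prime_two]
  intro P hP h2
  have hPne : P ≠ ⊥ := by
    rintro rfl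
    rw [Ideal.mem_bot] at h2
    norm_num at h2
  let w : HeightOneSpectrum (𝓞 K) := ⟨P, hP, hPne⟩
  have hv : (P.under O).IsPrime := inferInstance
  have h2v : (2 : O) ∈ P.under O := by
    rw [Ideal.under_def, Ideal.mem_comap, map_ofNat]
    exact_mod_cast h2
  have hvne : P.under O ≠ ⊥ := by
    intro h
    rw [h, Ideal.mem_bot] at h2v
    norm_num at h2v
  let v : HeightOneSpectrum O := ⟨P.under O, hv, hvne⟩
  have hgood : ¬ Good v := fun h => h.1 h2v
  have he : P.ramificationIdx O = 1 := hK w v rfl hgood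
  have hF := (NumberField.not_dvd_discr_iff_forall_mem F O Int.prime_two).1 W7_discrF
    (P.under O) hv (by exact_mod_cast h2v)
  have he2 : (P.under O).ramificationIdx ℤ = 1 := Ideal.ramificationIdx_eq_one_iff.2 hF
  have ht := Ideal.ramificationIdx_tower (R := ℤ) (P.under O) P
  rw [he, he2, mul_one] at ht
  exact Ideal.ramificationIdx_eq_one_iff.1 ht

end H55C
end

-- from Lib.H55N.C0
section

namespace H55N

/-- Faces of a simplex. -/
def face {V : Type} (v : ℕ → V) (j k : ℕ) : V := if k < j then v k else v (k + 1)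

/-- The prism operator. -/
noncomputable def Hp {Λ V : Type} {m : ℕ} (J : (Fin (m + 1) → Λ) → ℂ) (L L' : V → Λ) (f : ℕ → V) :
    ℂ := ∑ i ∈ Finset.range m, (-1) ^ i * J fun k : Fin (m + 1) => prism L L' f i k

end H55N
end

-- from Lib.H55N.C2
section

namespace H55N

/-! Chunk C2 (M/L). Cancellation of the faces of the Kuhn triangulation of the torus Z^m / N Z^m.
v = kv a π: v_i = a + sum_{l<i} e_{π l} (kv a π i k = a k + 1 iff k = π l for some l < i).
* 0 < j < m: π' = π * swap (j-1) j has sign - sign π, and face (kv a π) j = face (kv a π') j (for i <= j-1: {π l : l < i} = {π' l : l < i};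
  for i >= j+1 too). So the terms with j cancel for fixed a (Finset.sum_involution, or: the sum over π equals
  minus itself by Equiv.sum_comp of right multiplication by the swap).
* j = 0 and j = m: let ρ be the rotation l -> l+1 (finRotate m), sign (finRotate m) = (-1)^(m-1); π' = π * ρ (π' l = π (l+1)), a' = a + e_{π 0}. Then
  kv a' π' i = kv a π (i+1) for i <= m-1, so face (kv a π) 0 and face (kv a' π') m agree on 0..m-1. For fixed π the function
  a -> H (face (kv a π) 0) of a in Z^m is N-periodic (hT, hH), so is φ(a) = H(face (kv a π') m), and the sum of φ over the box equals the sum of φ(a + e) over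
  the box (change of variables a -> a + e modulo N on Fin N; Finset.sum_equiv with Equiv.addRight in the group Fin N or ZMod N, coordinate π 0).
  So sum_a sum_π sgn π H(face 0) = sum_a sum_π sgn π H(face (kv a (πρ)) m) = (-1)^(m-1) sum_a sum_π' sgn π' H(face (kv a π') m), and
  the total of the terms j = 0 and j = m is ((-1)^(m-1) + (-1)^m) (...) = 0. -/

/-- inner faces -/
theorem C2_inner (m : ℕ) (H : (ℕ → Fin m → ℤ) → ℂ)
    (hH : ∀ f f' : ℕ → Fin m → ℤ, (∀ k < m, f k = f' k) → H f = H f') (a : Fin m → ℤ) (j : ℕ)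
    (hj0 : 0 < j) (hjm : j < m) :
    ∑ π : Equiv.Perm (Fin m), ((Equiv.Perm.sign π : ℤ) : ℂ) * H (face (kv a π) j) = 0 := by
  obtain ⟨x, hx⟩ : ∃ x : Fin m, (x : ℕ) = j - 1 := ⟨⟨j - 1, by omega⟩, rfl⟩
  obtain ⟨y, hy⟩ : ∃ y : Fin m, (y : ℕ) = j := ⟨⟨j, hjm⟩, rfl⟩
  have hxy : x ≠ y := by
    rintro rfl
    omega
  have h1 : ∀ π : Equiv.Perm (Fin m),
      H (face (kv a (π * Equiv.swap x y)) j) = H (face (kv a π) j) := by
    intro π
    apply hH
    intro k hk
    have h2 : ∀ i : ℕ, i ≠ j → kv a (π * Equiv.swap x y) i = kv a π i := by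
      intro i hi
      funext z
      unfold kv
      have h3 : (π * Equiv.swap x y).symm z = Equiv.swap x y (π.symm z) := by
        rw [Equiv.symm_apply_eq, Equiv.Perm.mul_apply, Equiv.swap_apply_self,
          Equiv.apply_symm_apply]
      rw [h3]
      congr 1
      obtain ⟨l, hl⟩ : ∃ l, l = π.symm z := ⟨_, rfl⟩
      rw [← hl]
      by_cases hlx : l = x
      · rw [hlx, Equiv.swap_apply_left]
        have : ((y : ℕ) < i) ↔ ((x : ℕ) < i) := by omega
        simp only [this]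
      · by_cases hly : l = y
        · rw [hly, Equiv.swap_apply_right]
          have : ((x : ℕ) < i) ↔ ((y : ℕ) < i) := by omega
          simp only [this]
        · rw [Equiv.swap_apply_of_ne_of_ne hlx hly]
    unfold face
    split_ifs with h4
    · exact h2 k (by omega)
    · exact h2 (k + 1) (by omega)
  have h2 : ∑ π : Equiv.Perm (Fin m), ((Equiv.Perm.sign π : ℤ) : ℂ) * H (face (kv a π) j) =
      -∑ π : Equiv.Perm (Fin m), ((Equiv.Perm.sign π : ℤ) : ℂ) * H (face (kv a π) j) := by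
    conv_lhs => rw [← Equiv.sum_comp (Equiv.mulRight (Equiv.swap x y))]
    rw [← Finset.sum_neg_distrib]
    apply Finset.sum_congr rfl
    intro π _
    rw [Equiv.coe_mulRight, h1, map_mul, Equiv.Perm.sign_swap hxy]
    push_cast
    ring
  have h3 : (2 : ℂ) * ∑ π : Equiv.Perm (Fin m), ((Equiv.Perm.sign π : ℤ) : ℂ) *
      H (face (kv a π) j) = 0 := by linear_combination h2
  rcases mul_eq_zero.1 h3 with h | h
  · norm_num at h
  · exact h

/-- translation of a periodic function -/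
theorem C2_shift (m : ℕ) (N : ℕ) (hN : 0 < N) (φ : (Fin m → ℤ) → ℂ)
    (hφ : ∀ b z : Fin m → ℤ, φ (b + (N : ℤ) • z) = φ b) (i : Fin m) :
    ∑ a : Fin m → Fin N, φ (fun k => ((a k : ℕ) : ℤ) + if k = i then 1 else 0) =
      ∑ a : Fin m → Fin N, φ (fun k => ((a k : ℕ) : ℤ)) := by
  have : NeZero N := ⟨hN.ne'⟩
  obtain ⟨s, hs⟩ : ∃ s : Fin m → Fin N, s = fun k => if k = i then Fin.ofNat N 1 else 0 :=
    ⟨_, rfl⟩
  conv_rhs => rw [← Equiv.sum_comp (Equiv.addRight s)]
  apply Finset.sum_congr rfl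
  intro a _
  have h1 : ∀ k, ∃ z : ℤ, ((a k : ℕ) : ℤ) + (if k = i then 1 else 0) =
      (((a + s) k : Fin N) : ℕ) + (N : ℤ) * z := by
    intro k
    have h2 : (((a + s) k : Fin N) : ℕ) = ((a k : ℕ) + (s k : ℕ)) % N := by
      rw [Pi.add_apply, Fin.val_add]
    have h3 : ∃ t : ℕ, (if k = i then 1 else 0) = (s k : ℕ) + N * t := by
      rw [hs]
      by_cases hk : k = i
      · simp only [hk, if_true]
        refine ⟨1 / N, ?_⟩
        rw [Fin.val_ofNat]
        exact (Nat.mod_add_div 1 N).symm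
      · simp only [hk, if_false]
        exact ⟨0, by simp⟩
    obtain ⟨t, ht⟩ := h3
    have h4 := Nat.mod_add_div ((a k : ℕ) + (s k : ℕ)) N
    refine ⟨(((a k : ℕ) + (s k : ℕ)) / N : ℕ) + t, ?_⟩
    rw [h2]
    have h5 : ((if k = i then 1 else 0 : ℕ) : ℤ) = (if k = i then 1 else 0 : ℤ) := by
      split_ifs <;> simp
    rw [← h5, ht]
    have h6 : (((a k : ℕ) : ℤ) + ((s k : ℕ) : ℤ)) =
        ((((a k : ℕ) + (s k : ℕ)) % N : ℕ) : ℤ) +
          (N : ℤ) * ((((a k : ℕ) + (s k : ℕ)) / N : ℕ) : ℤ) := by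
      exact_mod_cast h4.symm
    push_cast at h6 ⊢
    linear_combination h6
  choose z hz using h1
  have h2 : (fun k => ((a k : ℕ) : ℤ) + if k = i then 1 else 0) =
      (fun k => ((((a + s) k : Fin N) : ℕ) : ℤ)) + (N : ℤ) • z := by
    funext k
    rw [Pi.add_apply, Pi.smul_apply, smul_eq_mul]
    exact hz k
  rw [h2, hφ]
  rfl

/-- the two outer faces -/
theorem C2_outer (m' : ℕ) (N : ℕ) (hN : 0 < N) (H : (ℕ → Fin (m' + 1) → ℤ) → ℂ)
    (hH : ∀ f f' : ℕ → Fin (m' + 1) → ℤ, (∀ k < m' + 1, f k = f' k) → H f = H f')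
    (hT : ∀ (f : ℕ → Fin (m' + 1) → ℤ) (z : Fin (m' + 1) → ℤ),
      H (fun k => f k + (N : ℤ) • z) = H f) :
    ∑ a : Fin (m' + 1) → Fin N, ∑ π : Equiv.Perm (Fin (m' + 1)),
      ((Equiv.Perm.sign π : ℤ) : ℂ) * H (face (kv (fun k => ((a k : ℕ) : ℤ)) π) 0) =
    (-1) ^ m' * ∑ a : Fin (m' + 1) → Fin N, ∑ π : Equiv.Perm (Fin (m' + 1)),
      ((Equiv.Perm.sign π : ℤ) : ℂ) * H (face (kv (fun k => ((a k : ℕ) : ℤ)) π) (m' + 1)) := by
  obtain ⟨ρ, hρ⟩ : ∃ ρ : Equiv.Perm (Fin (m' + 1)), ρ = finRotate (m' + 1) := ⟨_, rfl⟩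
  have hsign : ((Equiv.Perm.sign ρ : ℤ) : ℂ) = (-1) ^ m' := by
    rw [hρ, sign_finRotate]
    push_cast
    rfl
  have h1 : ∀ (a : Fin (m' + 1) → ℤ) (π : Equiv.Perm (Fin (m' + 1))),
      H (face (kv a π) 0) =
        H (face (kv (fun k => a k + if k = π 0 then 1 else 0) (π * ρ)) (m' + 1)) := by
    intro a π
    apply hH
    intro k hk
    unfold face
    rw [if_neg (by omega), if_pos hk]
    funext x
    unfold kv
    obtain ⟨t, ht⟩ : ∃ t, t = (π * ρ).symm x := ⟨_, rfl⟩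
    have h2 : π.symm x = ρ t := by
      rw [Equiv.symm_apply_eq, ← Equiv.Perm.mul_apply, ht, Equiv.apply_symm_apply]
    rw [← ht, h2]
    have h3 : (x = π 0) ↔ ρ t = 0 := by
      rw [← h2, Equiv.symm_apply_eq]
    have h4 : ((ρ t : Fin (m' + 1)) : ℕ) = if t = Fin.last m' then 0 else (t : ℕ) + 1 := by
      rw [hρ]
      exact coe_finRotate t
    beta_reduce
    by_cases hlast : t = Fin.last m'
    · rw [if_pos hlast] at h4
      have h5 : ρ t = 0 := Fin.ext h4
      rw [if_pos (by rw [h4]; omega), if_pos (h3.2 h5), if_neg (by rw [hlast, Fin.val_last]; omega)]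
      ring
    · rw [if_neg hlast] at h4
      have h5 : ρ t ≠ 0 := by
        intro h
        rw [h] at h4
        simp at h4
      rw [if_neg (fun h => h5 (h3.1 h)), h4, add_zero]
      congr 1
      have : ((t : ℕ) + 1 < k + 1) ↔ ((t : ℕ) < k) := by omega
      simp only [this]
  have h2 : ∀ π : Equiv.Perm (Fin (m' + 1)),
      ∑ a : Fin (m' + 1) → Fin N, H (face (kv (fun k => ((a k : ℕ) : ℤ)) π) 0) =
      ∑ a : Fin (m' + 1) → Fin N, H (face (kv (fun k => ((a k : ℕ) : ℤ)) (π * ρ)) (m' + 1)) := by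
    intro π
    rw [← C2_shift (m' + 1) N hN (fun b => H (face (kv b (π * ρ)) (m' + 1))) ?_ (π 0)]
    · apply Finset.sum_congr rfl
      intro a _
      exact h1 _ π
    · intro b z
      rw [← hT (face (kv b (π * ρ)) (m' + 1)) z]
      congr 1
      funext k
      unfold face kv
      split_ifs
      · funext x
        simp only [Pi.add_apply]
        ring
      · funext x
        simp only [Pi.add_apply]
        ring
  rw [Finset.sum_comm, Finset.sum_comm (s := (Finset.univ : Finset (Fin (m' + 1) → Fin N)))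
    (t := (Finset.univ : Finset (Equiv.Perm (Fin (m' + 1)))))
    (f := fun a π => ((Equiv.Perm.sign π : ℤ) : ℂ) *
      H (face (kv (fun k => ((a k : ℕ) : ℤ)) π) (m' + 1)))]
  conv_rhs => rw [← Equiv.sum_comp (Equiv.mulRight ρ)]
  rw [Finset.mul_sum]
  apply Finset.sum_congr rfl
  intro π _
  rw [← Finset.mul_sum, ← Finset.mul_sum, h2 π, Equiv.coe_mulRight, map_mul]
  have h3 : ((Equiv.Perm.sign ρ : ℤ) : ℂ) * ((Equiv.Perm.sign ρ : ℤ) : ℂ) = 1 := by
    rw [hsign, ← pow_add, ← two_mul, pow_mul]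
    norm_num
  have h4 : (((Equiv.Perm.sign π * Equiv.Perm.sign ρ : ℤˣ) : ℤ) : ℂ) =
      ((Equiv.Perm.sign π : ℤ) : ℂ) * ((Equiv.Perm.sign ρ : ℤ) : ℂ) := by
    push_cast
    ring
  rw [h4, ← hsign]
  linear_combination (-((Equiv.Perm.sign π : ℤ) : ℂ) *
    ∑ a : Fin (m' + 1) → Fin N, H (face (kv (fun k => ((a k : ℕ) : ℤ)) (π * ρ)) (m' + 1))) * h3

theorem face_cancel (m : ℕ) (hm : 0 < m) (N : ℕ) (hN : 0 < N) (H : (ℕ → Fin m → ℤ) → ℂ)
    (hH : ∀ f f' : ℕ → Fin m → ℤ, (∀ k < m, f k = f' k) → H f = H f')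
    (hT : ∀ (f : ℕ → Fin m → ℤ) (z : Fin m → ℤ), H (fun k => f k + (N : ℤ) • z) = H f) :
    ∑ a : Fin m → Fin N, ∑ π : Equiv.Perm (Fin m), ((Equiv.Perm.sign π : ℤ) : ℂ) *
      ∑ j ∈ Finset.range (m + 1), (-1) ^ j * H (face (kv (fun k => ((a k : ℕ) : ℤ)) π) j) = 0 := by
  obtain ⟨m', rfl⟩ : ∃ m', m = m' + 1 := ⟨m - 1, by omega⟩
  have h1 : ∀ a : Fin (m' + 1) → Fin N, ∑ π : Equiv.Perm (Fin (m' + 1)),
      ((Equiv.Perm.sign π : ℤ) : ℂ) *
      ∑ j ∈ Finset.range (m' + 1 + 1), (-1) ^ j *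
        H (face (kv (fun k => ((a k : ℕ) : ℤ)) π) j) =
      ∑ π : Equiv.Perm (Fin (m' + 1)), ((Equiv.Perm.sign π : ℤ) : ℂ) *
        H (face (kv (fun k => ((a k : ℕ) : ℤ)) π) 0) +
      (-1) ^ (m' + 1) * ∑ π : Equiv.Perm (Fin (m' + 1)), ((Equiv.Perm.sign π : ℤ) : ℂ) *
        H (face (kv (fun k => ((a k : ℕ) : ℤ)) π) (m' + 1)) := by
    intro a
    have h2 : ∑ π : Equiv.Perm (Fin (m' + 1)), ((Equiv.Perm.sign π : ℤ) : ℂ) *
        ∑ j ∈ Finset.range (m' + 1 + 1), (-1) ^ j *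
          H (face (kv (fun k => ((a k : ℕ) : ℤ)) π) j) =
        ∑ j ∈ Finset.range (m' + 1 + 1), (-1) ^ j *
          ∑ π : Equiv.Perm (Fin (m' + 1)), ((Equiv.Perm.sign π : ℤ) : ℂ) *
          H (face (kv (fun k => ((a k : ℕ) : ℤ)) π) j) := by
      simp only [Finset.mul_sum]
      rw [Finset.sum_comm]
      apply Finset.sum_congr rfl
      intro j _
      apply Finset.sum_congr rfl
      intro π _
      ring
    rw [h2, Finset.sum_range_succ, Finset.sum_range_succ']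
    have h3 : ∑ j ∈ Finset.range m', (-1 : ℂ) ^ (j + 1) *
        ∑ π : Equiv.Perm (Fin (m' + 1)), ((Equiv.Perm.sign π : ℤ) : ℂ) *
          H (face (kv (fun k => ((a k : ℕ) : ℤ)) π) (j + 1)) = 0 := by
      apply Finset.sum_eq_zero
      intro j hj
      rw [Finset.mem_range] at hj
      rw [C2_inner (m' + 1) H hH _ (j + 1) (by omega) (by omega), mul_zero]
    rw [h3]
    ring
  rw [Finset.sum_congr rfl fun a _ => h1 a, Finset.sum_add_distrib, ← Finset.mul_sum,
    C2_outer m' N hN H hH hT]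
  ring

end H55N
end

-- from Lib.H55N.U1
section

namespace H55N

open MeasureTheory

/-! Chunk U1 (L, pure analysis). The Gamma integral, n = m+1. For Re s > 0 the function prod_i exp(s y_i - e^{y_i}) on R^n is integrable with integral
Gamma(s)^n (one variable: Complex.Gamma_eq_integral, substitution x = e^y; integral of a product: integral_fintype_prod_eq_prod). The linear map
(r, z) -> y, y_i = r + sum_j lm i j z_j, has determinant Delta lm (matrix (1 | lm) on R x R^m = R^(m+1) via Fin.cons / MeasurableEquiv.piFinSuccAbove 0).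
Under it sum y_i = n r (h0), sum e^{y_i} = e^r T(z), T(z) = sum_i tt lm z i > 0. So Gamma(s)^n = |Delta| int_z int_r exp(n s r - e^r T(z)) dr dz
(Fubini), and the inner integral is Gamma(n s) T(z)^(-n s) (substitution x = e^r: Complex.integral_cpow_mul_exp_neg_mul_Ioi). Integrability of T^(-n s): from
Fubini (integrable in z for the integral over r; for real s the inner integral is Gamma(ns) T^(-ns) > 0). -/

/-! ### One variable -/

theorem u1_image_exp : Real.exp '' (Set.univ : Set ℝ) = Set.Ioi 0 := by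
  rw [Set.image_univ, Real.range_exp]

/-- `∫ exp(a r - T e^r) dr = (1/T)^a Γ(a)`. -/
theorem u1_one {a : ℂ} (ha : 0 < a.re) {T : ℝ} (hT : 0 < T) :
    ∫ r : ℝ, Complex.exp (a * r - T * Real.exp r) = (1 / (T : ℂ)) ^ a * Complex.Gamma a := by
  rw [← Complex.integral_cpow_mul_exp_neg_mul_Ioi ha hT, ← u1_image_exp,
    integral_image_eq_integral_abs_deriv_smul MeasurableSet.univ
      (fun x _ => (Real.hasDerivAt_exp x).hasDerivWithinAt) (Real.exp_injective.injOn),
    setIntegral_univ]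
  congr 1
  funext r
  have hr := Real.exp_pos r
  rw [abs_of_pos hr, Complex.real_smul]
  have h1 : ((Real.exp r : ℝ) : ℂ) ^ (a - 1) = Complex.exp ((a - 1) * r) := by
    rw [Complex.cpow_def_of_ne_zero (by exact_mod_cast hr.ne'), ← Complex.ofReal_log hr.le,
      Real.log_exp, mul_comm]
  rw [h1, Complex.ofReal_exp, ← Complex.exp_add, ← Complex.exp_add]
  congr 1
  ring

theorem u1_one_integrable {a : ℂ} (ha : 0 < a.re) :
    Integrable fun r : ℝ => Complex.exp (a * r - Real.exp r) := by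
  have h := Complex.GammaIntegral_convergent ha
  rw [← u1_image_exp, integrableOn_image_iff_integrableOn_abs_deriv_smul MeasurableSet.univ
      (fun x _ => (Real.hasDerivAt_exp x).hasDerivWithinAt) (Real.exp_injective.injOn),
      integrableOn_univ] at h
  refine h.congr (Filter.Eventually.of_forall fun r => ?_)
  have hr := Real.exp_pos r
  simp only
  rw [abs_of_pos hr, Complex.real_smul]
  have h1 : ((Real.exp r : ℝ) : ℂ) ^ (a - 1) = Complex.exp ((a - 1) * r) := by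
    rw [Complex.cpow_def_of_ne_zero (by exact_mod_cast hr.ne'), ← Complex.ofReal_log hr.le,
      Real.log_exp, mul_comm]
  rw [h1, Complex.ofReal_exp, Complex.ofReal_exp, ← Complex.exp_add, ← Complex.exp_add]
  congr 1
  push_cast
  ring

/-! ### The product -/

/-- The integrand on `ℝ^n`. -/
noncomputable def u1F {m : ℕ} (s : ℂ) (y : Fin (m + 1) → ℝ) : ℂ :=
  ∏ i, Complex.exp (s * y i - Real.exp (y i))

theorem u1F_integrable {m : ℕ} {s : ℂ} (hs : 0 < s.re) :
    Integrable (u1F (m := m) s) := by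
  unfold u1F
  exact Integrable.fintype_prod (fun _ => u1_one_integrable hs)

theorem u1F_integral {m : ℕ} {s : ℂ} (hs : 0 < s.re) :
    ∫ y, u1F (m := m) s y = Complex.Gamma s ^ (m + 1) := by
  unfold u1F
  rw [integral_fintype_prod_volume_eq_pow (fun r : ℝ => Complex.exp (s * r - Real.exp r))]
  have h := u1_one hs (T := 1) one_pos
  simp only [Complex.ofReal_one, one_mul, div_one, Complex.one_cpow] at h
  rw [h, Fintype.card_fin]

/-! ### The change of variables -/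

/-- The matrix `(1 | lm)`. -/
noncomputable def u1M {m : ℕ} (lm : Fin (m + 1) → Fin m → ℝ) :
    Matrix (Fin (m + 1)) (Fin (m + 1)) ℝ :=
  Matrix.of fun i j : Fin (m + 1) => (Fin.cons 1 (lm i) : Fin (m + 1) → ℝ) j

theorem u1M_mulVec {m : ℕ} (lm : Fin (m + 1) → Fin m → ℝ) (v : Fin (m + 1) → ℝ) (i : Fin (m + 1)) :
    Matrix.toLin' (u1M lm) v i = v 0 + ∑ j : Fin m, v j.succ * lm i j := by
  rw [Matrix.toLin'_apply, Matrix.mulVec, dotProduct, Fin.sum_univ_succ]
  simp [u1M, mul_comm]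

/-- The integrand in the new variables. -/
noncomputable def u1G {m : ℕ} (lm : Fin (m + 1) → Fin m → ℝ) (s : ℂ) (p : ℝ × (Fin m → ℝ)) : ℂ :=
  Complex.exp (((m + 1 : ℕ) * s) * p.1 - ((∑ i, tt lm p.2 i : ℝ) : ℂ) * Real.exp p.1)

theorem u1_comp {m : ℕ} (lm : Fin (m + 1) → Fin m → ℝ) (h0 : ∀ j, ∑ i, lm i j = 0) (s : ℂ)
    (v : Fin (m + 1) → ℝ) :
    u1F s (Matrix.toLin' (u1M lm) v) =
      u1G lm s (MeasurableEquiv.piFinSuccAbove (fun _ : Fin (m + 1) => ℝ) 0 v) := by
  have e1 : (MeasurableEquiv.piFinSuccAbove (fun _ : Fin (m + 1) => ℝ) 0 v) =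
      (v 0, fun j => v j.succ) := by
    rfl
  rw [e1]
  unfold u1F u1G
  rw [← Complex.exp_sum]
  congr 1
  rw [Finset.sum_sub_distrib, ← Finset.mul_sum]
  congr 1
  · have : (∑ i, ((Matrix.toLin' (u1M lm) v i : ℝ) : ℂ)) = ((m + 1 : ℕ) : ℂ) * (v 0 : ℂ) := by
      rw [← Complex.ofReal_sum]
      have h1 : ∑ i, Matrix.toLin' (u1M lm) v i = ((m + 1 : ℕ) : ℝ) * v 0 := by
        simp only [u1M_mulVec]
        rw [Finset.sum_add_distrib, Finset.sum_comm]
        have : ∀ j : Fin m, ∑ i : Fin (m + 1), v j.succ * lm i j = 0 := by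
          intro j
          rw [← Finset.mul_sum, h0, mul_zero]
        rw [Finset.sum_eq_zero fun j _ => this j]
        simp
      rw [h1]
      push_cast
      ring
    rw [this]
    ring
  · rw [← Complex.ofReal_sum, ← Complex.ofReal_mul, Complex.ofReal_inj, Finset.sum_mul]
    refine Finset.sum_congr rfl fun i _ => ?_
    rw [u1M_mulVec, add_comm, Real.exp_add]
    rfl

theorem u1_map {m : ℕ} (lm : Fin (m + 1) → Fin m → ℝ) (hD : Delta lm ≠ 0) :
    Measure.map (Matrix.toLin' (u1M lm)) volume =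
      ENNReal.ofReal |(Delta lm)⁻¹| • (volume : Measure (Fin (m + 1) → ℝ)) :=
  Real.map_matrix_volume_pi_eq_smul_volume_pi (M := u1M lm) hD

theorem u1_meas {m : ℕ} (lm : Fin (m + 1) → Fin m → ℝ) :
    Measurable (Matrix.toLin' (u1M lm)) :=
  (LinearMap.continuous_of_finiteDimensional _).measurable


theorem u1F_continuous {m : ℕ} (s : ℂ) : Continuous (u1F (m := m) s) := by
  unfold u1F
  fun_prop

theorem u1G_integrable {m : ℕ} (lm : Fin (m + 1) → Fin m → ℝ) (h0 : ∀ j, ∑ i, lm i j = 0)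
    (hD : Delta lm ≠ 0) {s : ℂ} (hs : 0 < s.re) : Integrable (u1G lm s) := by
  have hp := volume_preserving_piFinSuccAbove (fun _ : Fin (m + 1) => ℝ) 0
  rw [← hp.integrable_comp_emb (MeasurableEquiv.measurableEmbedding _)]
  have h1 : Integrable (u1F (m := m) s) (Measure.map (Matrix.toLin' (u1M lm)) volume) := by
    rw [u1_map lm hD]
    exact (u1F_integrable hs).smul_measure ENNReal.ofReal_ne_top
  have h2 := h1.comp_measurable (u1_meas lm)
  refine h2.congr (Filter.Eventually.of_forall fun v => ?_)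
  exact u1_comp lm h0 s v

theorem u1G_integral {m : ℕ} (lm : Fin (m + 1) → Fin m → ℝ) (h0 : ∀ j, ∑ i, lm i j = 0)
    (hD : Delta lm ≠ 0) {s : ℂ} (hs : 0 < s.re) :
    ∫ p, u1G lm s p = ((|(Delta lm)⁻¹| : ℝ) : ℂ) * Complex.Gamma s ^ (m + 1) := by
  have hp := volume_preserving_piFinSuccAbove (fun _ : Fin (m + 1) => ℝ) 0
  rw [← hp.integral_comp (MeasurableEquiv.measurableEmbedding _), ← u1F_integral (m := m) hs]
  have h2 : ∫ y, u1F (m := m) s y ∂(Measure.map (Matrix.toLin' (u1M lm)) volume) =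
      ∫ v, u1F (m := m) s (Matrix.toLin' (u1M lm) v) :=
    integral_map (u1_meas lm).aemeasurable (u1F_continuous s).aestronglyMeasurable
  rw [u1_map lm hD, integral_smul_measure, ENNReal.toReal_ofReal (abs_nonneg _)] at h2
  rw [← Complex.real_smul, h2]
  exact integral_congr_ae (Filter.Eventually.of_forall fun v => (u1_comp lm h0 s v).symm)

theorem u1_T_pos {m : ℕ} (lm : Fin (m + 1) → Fin m → ℝ) (z : Fin m → ℝ) :
    0 < ∑ i, tt lm z i :=
  Finset.sum_pos (fun _ _ => Real.exp_pos _) Finset.univ_nonempty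

theorem u1_re {m : ℕ} {s : ℂ} (hs : 0 < s.re) : 0 < (((m + 1 : ℕ) : ℂ) * s).re := by
  have : (((m + 1 : ℕ) : ℂ) * s).re = ((m + 1 : ℕ) : ℝ) * s.re := by
    rw [← Complex.ofReal_natCast, Complex.re_ofReal_mul]
  rw [this]
  positivity

theorem u1_inner {m : ℕ} (lm : Fin (m + 1) → Fin m → ℝ) {s : ℂ} (hs : 0 < s.re)
    (z : Fin m → ℝ) : ∫ r : ℝ, u1G lm s (r, z) =
      Complex.Gamma ((m + 1 : ℕ) * s) * ((∑ i, tt lm z i : ℝ) : ℂ) ^ (-((m + 1 : ℕ) * s)) := by
  have hT := u1_T_pos lm z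
  have h := u1_one (u1_re (m := m) hs) hT
  have h2 : (1 / ((∑ i, tt lm z i : ℝ) : ℂ)) ^ (((m + 1 : ℕ) : ℂ) * s) =
      ((∑ i, tt lm z i : ℝ) : ℂ) ^ (-(((m + 1 : ℕ) : ℂ) * s)) := by
    rw [one_div, Complex.inv_cpow, Complex.cpow_neg]
    rw [Complex.arg_ofReal_of_nonneg hT.le]
    exact Real.pi_ne_zero.symm
  rw [h2] at h
  rw [mul_comm, ← h]
  rfl

theorem cst_integrable {m : ℕ} (lm : Fin (m + 1) → Fin m → ℝ) (h0 : ∀ j, ∑ i, lm i j = 0)
    (hD : Delta lm ≠ 0) (s : ℂ) (hs : 0 < s.re) :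
    Integrable fun z : Fin m → ℝ => ((∑ i, tt lm z i : ℝ) : ℂ) ^ (-((m + 1 : ℕ) * s)) := by
  have h1 := (u1G_integrable lm h0 hD hs).integral_prod_right
  have h2 : Integrable fun z : Fin m → ℝ => Complex.Gamma ((m + 1 : ℕ) * s) *
      ((∑ i, tt lm z i : ℝ) : ℂ) ^ (-((m + 1 : ℕ) * s)) := by
    refine h1.congr (Filter.Eventually.of_forall fun z => ?_)
    exact u1_inner lm hs z
  have h3 := h2.const_mul (Complex.Gamma ((m + 1 : ℕ) * s))⁻¹
  refine h3.congr (Filter.Eventually.of_forall fun z => ?_)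
  exact inv_mul_cancel_left₀ (Complex.Gamma_ne_zero_of_re_pos (u1_re (m := m) hs)) _

theorem cst_eq {m : ℕ} (lm : Fin (m + 1) → Fin m → ℝ) (h0 : ∀ j, ∑ i, lm i j = 0)
    (hD : Delta lm ≠ 0) (s : ℂ) (hs : 0 < s.re) :
    Complex.Gamma ((m + 1 : ℕ) * s) * cst lm s * ((|Delta lm| : ℝ) : ℂ) =
      Complex.Gamma s ^ (m + 1) := by
  have h1 := u1G_integral lm h0 hD hs
  have h2 : ∫ p, u1G lm s p = Complex.Gamma ((m + 1 : ℕ) * s) * cst lm s := by
    have h3 : ∫ p, u1G lm s p = ∫ z : Fin m → ℝ, ∫ r : ℝ, u1G lm s (r, z) :=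
      integral_prod_symm _ (u1G_integrable lm h0 hD hs)
    rw [h3]
    unfold cst
    rw [← integral_const_mul]
    exact integral_congr_ae (Filter.Eventually.of_forall fun z => u1_inner lm hs z)
  rw [← h2, h1, abs_inv]
  have : ((|Delta lm| : ℝ) : ℂ) ≠ 0 := by
    exact_mod_cast abs_ne_zero.2 hD
  push_cast
  field_simp

end H55N
end

-- from Lib.H55N.U2
section

namespace H55N

open MeasureTheory

/-! Chunk U2 (M, pure analysis). Translation. The matrix (1 | lm) is invertible, so there are r0, z0 with log y_i = r0 + sum_j lm i j z0_j for all i;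
summing, (m+1) r0 = sum log y_i. Then sum_i tt lm z i * y_i = e^{r0} sum_i tt lm (z + z0) i, so the integrand is exp(-(m+1) s r0) times the translated
integrand of cst (cpow of a product of positive reals), and exp(-(m+1) s r0) = (prod y_i)^(-s). -/

theorem u2_shift {m : ℕ} (lm : Fin (m + 1) → Fin m → ℝ) (h0 : ∀ j, ∑ i, lm i j = 0)
    (hD : Delta lm ≠ 0) (y : Fin (m + 1) → ℝ) :
    ∃ (r0 : ℝ) (z0 : Fin m → ℝ), (∀ i, r0 + ∑ j, z0 j * lm i j = Real.log (y i)) ∧
      ((m + 1 : ℕ) : ℝ) * r0 = ∑ i, Real.log (y i) := by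
  have hu : IsUnit (u1M lm).det := (isUnit_iff_ne_zero (a := (u1M lm).det)).2 hD
  set v : Fin (m + 1) → ℝ := Matrix.toLin' (u1M lm)⁻¹ fun i => Real.log (y i) with hv
  have h1 : Matrix.toLin' (u1M lm) v = fun i => Real.log (y i) := by
    rw [hv, ← LinearMap.comp_apply, ← Matrix.toLin'_mul, Matrix.mul_nonsing_inv _ hu,
      Matrix.toLin'_one]
    rfl
  have h2 : ∀ i, v 0 + ∑ j : Fin m, v j.succ * lm i j = Real.log (y i) := fun i => by
    rw [← u1M_mulVec, h1]
  refine ⟨v 0, fun j => v j.succ, h2, ?_⟩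
  have h3 : ∑ i, Real.log (y i) = ∑ i : Fin (m + 1), (v 0 + ∑ j : Fin m, v j.succ * lm i j) :=
    Finset.sum_congr rfl fun i _ => (h2 i).symm
  rw [h3, Finset.sum_add_distrib, Finset.sum_comm]
  have : ∀ j : Fin m, ∑ i : Fin (m + 1), v j.succ * lm i j = 0 := by
    intro j
    rw [← Finset.mul_sum, h0, mul_zero]
  rw [Finset.sum_eq_zero fun j _ => this j]
  simp

theorem u2_fun {m : ℕ} (lm : Fin (m + 1) → Fin m → ℝ) (h0 : ∀ j, ∑ i, lm i j = 0)
    (hD : Delta lm ≠ 0) (s : ℂ) (y : Fin (m + 1) → ℝ) (hy : ∀ i, 0 < y i) :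
    ∃ z0 : Fin m → ℝ, ∀ z : Fin m → ℝ,
      ((∑ i, tt lm z i * y i : ℝ) : ℂ) ^ (-((m + 1 : ℕ) * s)) =
      ((∏ i, y i : ℝ) : ℂ) ^ (-s) * ((∑ i, tt lm (z + z0) i : ℝ) : ℂ) ^ (-((m + 1 : ℕ) * s)) := by
  obtain ⟨r0, z0, h1, h2⟩ := u2_shift lm h0 hD y
  refine ⟨z0, fun z => ?_⟩
  have e1 : ∑ i, tt lm z i * y i = Real.exp r0 * ∑ i, tt lm (z + z0) i := by
    rw [Finset.mul_sum]
    refine Finset.sum_congr rfl fun i _ => ?_
    rw [← Real.exp_log (hy i), ← h1 i]
    unfold tt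
    rw [← Real.exp_add, ← Real.exp_add]
    congr 1
    have : ∑ j, (z + z0) j * lm i j = ∑ j, z j * lm i j + ∑ j, z0 j * lm i j := by
      rw [← Finset.sum_add_distrib]
      refine Finset.sum_congr rfl fun j _ => ?_
      rw [Pi.add_apply, add_mul]
    rw [this]
    ring
  have hT := (u1_T_pos lm (z + z0)).le
  have hP : 0 < ∏ i, y i := Finset.prod_pos fun i _ => hy i
  rw [e1, Complex.ofReal_mul, Complex.mul_cpow_ofReal_nonneg (Real.exp_pos r0).le hT]
  congr 1
  have e2 : ((Real.exp r0 : ℝ) : ℂ) ^ (-((m + 1 : ℕ) * s)) =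
      Complex.exp (r0 * (-((m + 1 : ℕ) * s))) := by
    rw [Complex.cpow_def_of_ne_zero (by exact_mod_cast (Real.exp_pos r0).ne'),
      ← Complex.ofReal_log (Real.exp_pos r0).le, Real.log_exp]
  have e3 : ((∏ i, y i : ℝ) : ℂ) ^ (-s) = Complex.exp ((((m + 1 : ℕ) : ℝ) * r0 : ℝ) * (-s)) := by
    rw [Complex.cpow_def_of_ne_zero (by exact_mod_cast hP.ne'),
      ← Complex.ofReal_log hP.le, Real.log_prod fun i _ => (hy i).ne', h2]
  rw [e2, e3]
  congr 1
  push_cast
  ring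

theorem shift_integrable {m : ℕ} (lm : Fin (m + 1) → Fin m → ℝ) (h0 : ∀ j, ∑ i, lm i j = 0)
    (hD : Delta lm ≠ 0) (s : ℂ) (hs : 0 < s.re) (y : Fin (m + 1) → ℝ) (hy : ∀ i, 0 < y i) :
    Integrable fun z : Fin m → ℝ => ((∑ i, tt lm z i * y i : ℝ) : ℂ) ^ (-((m + 1 : ℕ) * s)) := by
  obtain ⟨z0, h⟩ := u2_fun lm h0 hD s y hy
  have h1 := ((cst_integrable lm h0 hD s hs).comp_add_right z0).const_mul
    (((∏ i, y i : ℝ) : ℂ) ^ (-s))
  exact h1.congr (Filter.Eventually.of_forall fun z => (h z).symm)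

theorem shift_eq {m : ℕ} (lm : Fin (m + 1) → Fin m → ℝ) (h0 : ∀ j, ∑ i, lm i j = 0)
    (hD : Delta lm ≠ 0) (s : ℂ) (hs : 0 < s.re) (y : Fin (m + 1) → ℝ) (hy : ∀ i, 0 < y i) :
    ∫ z : Fin m → ℝ, ((∑ i, tt lm z i * y i : ℝ) : ℂ) ^ (-((m + 1 : ℕ) * s)) =
      ((∏ i, y i : ℝ) : ℂ) ^ (-s) * cst lm s := by
  obtain ⟨z0, h⟩ := u2_fun lm h0 hD s y hy
  have h1 : ∫ z : Fin m → ℝ, ((∑ i, tt lm z i * y i : ℝ) : ℂ) ^ (-((m + 1 : ℕ) * s)) =
      ∫ z : Fin m → ℝ, ((∏ i, y i : ℝ) : ℂ) ^ (-s) *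
        ((∑ i, tt lm (z + z0) i : ℝ) : ℂ) ^ (-((m + 1 : ℕ) * s)) :=
    integral_congr_ae (Filter.Eventually.of_forall fun z => h z)
  rw [h1, integral_const_mul,
    integral_add_right_eq_self (fun z : Fin m → ℝ =>
      ((∑ i, tt lm z i : ℝ) : ℂ) ^ (-((m + 1 : ℕ) * s))) z0]
  rfl

end H55N
end

-- from Lib.H55N.A1
section

open NumberField IsDedekindDomain

namespace H55N

open H55B H55C

/-! Chunk A1 (M). The embeddings over F, norm and trace. PROOF. letI := emb.toAlgebra (so C is an F-algebra). K/F is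
finite separable, C is algebraically closed, so the F-algebra maps K -> C number finrank F K
(AlgHom.card); σ = a bijection with Fin (m+1), composed with AlgHom.toRingHom. A ring homomorphism tau with
tau (algebraMap F K x) = emb x IS an F-algebra map. For σ with Emb σ the map i -> σ i (as AlgHom) is injective between finite types
of the same cardinality, hence bijective; then Algebra.norm_eq_prod_embeddings, trace_eq_sum_embeddings, reindexed. -/

/-- The algebra structure given by the fixed embedding. -/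
@[reducible] noncomputable def a1Alg : Algebra F ℂ := emb.toAlgebra

attribute [local instance] a1Alg

theorem a1_algebraMap (x : F) : algebraMap F ℂ x = emb x := rfl

/-- The embedding as an algebra homomorphism. -/
noncomputable def a1Hom {K : Type} [Field K] [NumberField K] [Algebra F K] {m : ℕ}
    {σ : Fin (m + 1) → K →+* ℂ} (h : Emb σ) (i : Fin (m + 1)) : K →ₐ[F] ℂ :=
  { σ i with commutes' := fun x => h.ovr i x }

theorem a1_fin {K : Type} [Field K] [NumberField K] [Algebra F K] {m : ℕ}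
    (hm : Module.finrank F K = m + 1) : FiniteDimensional F K :=
  Module.finite_of_finrank_pos (by omega)

theorem a1_bij {K : Type} [Field K] [NumberField K] [Algebra F K] {m : ℕ}
    {σ : Fin (m + 1) → K →+* ℂ} (h : Emb σ) : Function.Bijective (a1Hom h) := by
  haveI := a1_fin h.fin
  rw [Fintype.bijective_iff_injective_and_card]
  refine ⟨fun i j hij => h.inj ?_, ?_⟩
  · ext x
    exact DFunLike.congr_fun hij x
  · rw [AlgHom.card F K ℂ, h.fin, Fintype.card_fin]

theorem emb_exists (K : Type) [Field K] [NumberField K] [Algebra F K] (m : ℕ)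
    (hm : Module.finrank F K = m + 1) : ∃ σ : Fin (m + 1) → K →+* ℂ, Emb σ := by
  haveI := a1_fin hm
  have hc : Fintype.card (K →ₐ[F] ℂ) = m + 1 := by
    rw [AlgHom.card F K ℂ, hm]
  have eq : Fin (m + 1) ≃ (K →ₐ[F] ℂ) :=
    Fintype.equivOfCardEq (by rw [hc, Fintype.card_fin])
  refine ⟨fun i => (eq i : K →ₐ[F] ℂ).toRingHom, ⟨fun i x => (eq i).commutes x, ?_, hm⟩⟩
  intro i j hij
  apply eq.injective
  ext x
  exact DFunLike.congr_fun hij x

theorem norm_eq {K : Type} [Field K] [NumberField K] [Algebra F K] {m : ℕ}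
    {σ : Fin (m + 1) → K →+* ℂ} (h : Emb σ) (x : K) : ∏ i, σ i x = emb (Algebra.norm F x) := by
  haveI := a1_fin h.fin
  rw [← a1_algebraMap, Algebra.norm_eq_prod_embeddings F ℂ x, ← (a1_bij h).prod_comp]
  rfl

theorem trace_eq {K : Type} [Field K] [NumberField K] [Algebra F K] {m : ℕ}
    {σ : Fin (m + 1) → K →+* ℂ} (h : Emb σ) (x : K) :
    ∑ i, σ i x = emb (Algebra.trace F K x) := by
  haveI := a1_fin h.fin
  rw [← a1_algebraMap, trace_eq_sum_embeddings ℂ (K := F) (x := x), ← (a1_bij h).sum_comp]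
  rfl

theorem emb_all {K : Type} [Field K] [NumberField K] [Algebra F K] {m : ℕ}
    {σ : Fin (m + 1) → K →+* ℂ} (h : Emb σ) (τ : K →+* ℂ)
    (hτ : ∀ x : F, τ (algebraMap F K x) = emb x) : ∃ i, τ = σ i := by
  obtain ⟨i, hi⟩ := (a1_bij h).2 ({ τ with commutes' := hτ } : K →ₐ[F] ℂ)
  refine ⟨i, ?_⟩
  ext x
  exact (DFunLike.congr_fun hi x).symm

end H55N
end

-- from Lib.H55N.A2
section

open NumberField IsDedekindDomain

namespace H55N

open H55B H55C

variable {K : Type} [Field K] [NumberField K] [Algebra F K] {m : ℕ}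

/-! Chunk A2 (M). Nonvanishing determinants and lower bounds.
(1) det (σ_i (A_k)) is nonzero for A linearly independent over F: distinct ring homomorphisms K -> C are linearly
independent over C (linearIndependent_monoidHom); if c is a vector with sum_i c_i σ_i(A_k) = 0 for all k, then sum_i c_i σ_i(y) = 0 for
all y in K (A is an F-basis of K by Emb.fin: m+1 independent vectors; y = sum_k f_k A_k, σ_i f_k = emb f_k), hence c = 0.
(2) For x in O_K nonzero the norm N_{K/F} x is a nonzero element y of O and |e y| >= 1 (|e y|^2 = Nm y, H55B.Nm_eq, is a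
positive natural number), and prod |σ_i x| = |emb (norm x)| (norm_eq).
(3) Tr_eq: definition, trace_eq. (4) If D.Tr (A k) x = D.Tr (A k) y for all k then x = y, for A independent: the trace form is
nondegenerate, or directly from (1). -/

theorem det_ne {σ : Fin (m + 1) → K →+* ℂ} (h : Emb σ) (A : Fin (m + 1) → K)
    (hA : LinearIndependent F A) :
    Matrix.det (Matrix.of fun k i : Fin (m + 1) => σ i (A k)) ≠ 0 := by
  haveI := a1_fin h.fin
  intro hdet
  obtain ⟨c, hc, hc0⟩ := Matrix.exists_mulVec_eq_zero_iff.2 hdet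
  apply hc
  have h1 : ∀ k, ∑ i, σ i (A k) * c i = 0 := fun k => congrFun hc0 k
  have hspan : Submodule.span F (Set.range A) = ⊤ :=
    hA.span_eq_top_of_card_eq_finrank (by rw [h.fin, Fintype.card_fin])
  have h2 : ∀ y : K, ∑ i, σ i y * c i = 0 := by
    intro y
    have hy : y ∈ Submodule.span F (Set.range A) := by rw [hspan]; trivial
    induction hy using Submodule.span_induction with
    | mem x hx =>
      obtain ⟨k, rfl⟩ := hx
      exact h1 k
    | zero => simp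
    | add x y _ _ hx hy =>
      simp only [map_add, add_mul, Finset.sum_add_distrib]
      rw [hx, hy, add_zero]
    | smul a x _ hx =>
      have : ∀ i, σ i (a • x) * c i = emb a * (σ i x * c i) := by
        intro i
        rw [Algebra.smul_def, map_mul, h.ovr, mul_assoc]
      rw [Finset.sum_congr rfl fun i _ => this i, ← Finset.mul_sum, hx, mul_zero]
  have hli : LinearIndependent ℂ (fun i : Fin (m + 1) => ((σ i : K →* ℂ) : K → ℂ)) := by
    apply (linearIndependent_monoidHom K ℂ).comp (fun i : Fin (m + 1) => (σ i : K →* ℂ))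
    intro i j hij
    apply h.inj
    ext x
    exact DFunLike.congr_fun hij x
  funext i
  refine Fintype.linearIndependent_iff.1 hli c ?_ i
  funext y
  rw [Finset.sum_apply]
  simp only [Pi.smul_apply, smul_eq_mul, Pi.zero_apply]
  rw [← h2 y]
  refine Finset.sum_congr rfl fun i _ => ?_
  rw [mul_comm]
  rfl

theorem a2_norm_int {σ : Fin (m + 1) → K →+* ℂ} (h : Emb σ) (x : 𝓞 K) (hx : x ≠ 0) :
    ∃ y : O, y ≠ 0 ∧ emb (Algebra.norm F (x : K)) = e y := by
  haveI := a1_fin h.fin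
  have hi : IsIntegral ℤ (Algebra.norm F (x : K)) := Algebra.isIntegral_norm F x.2
  refine ⟨⟨Algebra.norm F (x : K), hi⟩, ?_, rfl⟩
  intro h0
  have h1 : Algebra.norm F (x : K) = 0 := congrArg (algebraMap O F) h0
  rw [Algebra.norm_eq_zero_iff] at h1
  apply hx
  exact RingOfIntegers.coe_injective (h1.trans (map_zero (algebraMap (𝓞 K) K)).symm)

theorem one_le_norm {σ : Fin (m + 1) → K →+* ℂ} (h : Emb σ) (x : 𝓞 K) (hx : x ≠ 0) :
    1 ≤ ∏ i, ‖σ i (x : K)‖ := by
  obtain ⟨y, hy, hxy⟩ := a2_norm_int h x hx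
  rw [← norm_prod, norm_eq h, hxy]
  have h1 := Nm_eq y
  have h2 : 1 ≤ Nm y := by
    rw [Nat.one_le_iff_ne_zero]
    exact fun h0 => hy (Nm_eq_zero.1 h0)
  have h3 : (1 : ℝ) ≤ Nm y := by exact_mod_cast h2
  rw [h1] at h3
  nlinarith [norm_nonneg (e y)]

theorem Tr_eq (D : Ctx K m) (h : Emb D.σ) (a : K) (x : 𝓞 K) :
    D.Tr a x = emb (Algebra.trace F K ((x : K) * a)) := by
  unfold Ctx.Tr
  exact trace_eq h _

theorem Tr_inj (D : Ctx K m) (h : Emb D.σ) (A : Fin (m + 1) → K) (hA : LinearIndependent F A)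
    (x y : 𝓞 K) (hxy : ∀ k, D.Tr (A k) x = D.Tr (A k) y) : x = y := by
  have h1 : (Matrix.of fun k i : Fin (m + 1) => D.σ i (A k)).mulVec
      (fun i => D.σ i ((x - y : 𝓞 K) : K)) = 0 := by
    funext k
    have h2 : D.Tr (A k) (x - y) = 0 := by rw [Ctx.Tr_sub, hxy k, sub_self]
    rw [Pi.zero_apply, ← h2]
    unfold Ctx.Tr
    rw [Matrix.mulVec, dotProduct]
    refine Finset.sum_congr rfl fun i _ => ?_
    rw [map_mul, mul_comm]
    rfl
  have h2 := Matrix.eq_zero_of_mulVec_eq_zero (det_ne h A hA) h1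
  have h3 := congrFun h2 0
  have h4 : ((x - y : 𝓞 K) : K) = 0 := by
    have : D.σ 0 ((x - y : 𝓞 K) : K) = 0 := h3
    exact (map_eq_zero _).1 this
  have h5 : x - y = 0 := RingOfIntegers.coe_injective (h4.trans (map_zero (algebraMap (𝓞 K) K)).symm)
  exact sub_eq_zero.1 h5

/-- Every x has a conjugate of absolute value at least 1, hence sz x <= 2 * (sum of |x_i|). -/
theorem sz_le (D : Ctx K m) (h : Emb D.σ) (x : 𝓞 K) (hx : x ≠ 0) :
    1 ≤ ∑ i, ‖D.σ i x‖ ∧ D.sz x ≤ 2 * ∑ i, ‖D.σ i x‖ := by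
  have h1 := one_le_norm h x hx
  have h2 : ∃ i, 1 ≤ ‖D.σ i x‖ := by
    by_contra hc
    push Not at hc
    have h3 : ∏ i, ‖D.σ i (x : K)‖ < ∏ _i : Fin (m + 1), (1 : ℝ) := by
      apply Finset.prod_lt_prod_of_nonempty
      · intro i _
        rw [norm_pos_iff, Ne, map_eq_zero]
        intro h0
        exact hx (RingOfIntegers.coe_injective (h0.trans (map_zero (algebraMap (𝓞 K) K)).symm))
      · intro i _
        exact hc i
      · exact Finset.univ_nonempty
    rw [Finset.prod_const_one] at h3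
    linarith
  obtain ⟨i, hi⟩ := h2
  have h3 : ‖D.σ i x‖ ≤ ∑ i, ‖D.σ i x‖ :=
    Finset.single_le_sum (f := fun i => ‖D.σ i x‖) (fun i _ => norm_nonneg _) (Finset.mem_univ i)
  refine ⟨by linarith, ?_⟩
  unfold Ctx.sz
  linarith

/-- Lower bound for the quadratic forms. -/
theorem Q_low (D : Ctx K m) (h : Emb D.σ) (a : ℝ) (ha : 0 < a) : ∃ c : ℝ, 0 < c ∧
    ∀ t : Fin (m + 1) → ℝ, (∀ i, a ≤ t i) → ∀ x : 𝓞 K, x ≠ 0 → c * D.sz x ^ 2 ≤ D.Q t x := by
  refine ⟨a / (4 * (m + 1)), by positivity, fun t ht x hx => ?_⟩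
  obtain ⟨h1, h2⟩ := sz_le D h x hx
  have h3 : (∑ i, ‖D.σ i x‖) ^ 2 ≤ (m + 1) * ∑ i, ‖D.σ i x‖ ^ 2 := by
    have := sq_sum_le_card_mul_sum_sq (s := (Finset.univ : Finset (Fin (m + 1))))
      (f := fun i => ‖D.σ i x‖)
    rw [Finset.card_univ, Fintype.card_fin] at this
    push_cast at this
    exact this
  have h4 : a * ∑ i, ‖D.σ i x‖ ^ 2 ≤ D.Q t x := by
    unfold Ctx.Q
    rw [Finset.mul_sum]
    exact Finset.sum_le_sum fun i _ => mul_le_mul_of_nonneg_right (ht i) (by positivity)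
  have h5 : D.sz x ^ 2 ≤ (2 * ∑ i, ‖D.σ i x‖) ^ 2 :=
    pow_le_pow_left₀ (D.sz_pos x).le h2 2
  have h6 : D.sz x ^ 2 ≤ 4 * ((m + 1) * ∑ i, ‖D.σ i x‖ ^ 2) := by nlinarith
  calc a / (4 * (m + 1)) * D.sz x ^ 2 ≤
      a / (4 * (m + 1)) * (4 * ((m + 1) * ∑ i, ‖D.σ i x‖ ^ 2)) :=
        mul_le_mul_of_nonneg_left h6 (by positivity)
    _ = a * ∑ i, ‖D.σ i x‖ ^ 2 := by field_simp
    _ ≤ _ := h4

/-- Upper bound for the quadratic forms. -/
theorem Q_up (D : Ctx K m) (b : ℝ) (hb : 0 ≤ b) : ∃ c : ℝ, 0 < c ∧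
    ∀ t : Fin (m + 1) → ℝ, (∀ i, |t i| ≤ b) → ∀ x : 𝓞 K, |D.Q t x| ≤ c * D.sz x ^ 2 := by
  refine ⟨(m + 1) * b + 1, by positivity, fun t ht x => ?_⟩
  have h1 : |D.Q t x| ≤ ∑ _i : Fin (m + 1), b * D.sz x ^ 2 := by
    unfold Ctx.Q
    refine (Finset.abs_sum_le_sum_abs _ _).trans (Finset.sum_le_sum fun i _ => ?_)
    rw [abs_mul, abs_of_nonneg (by positivity : 0 ≤ ‖D.σ i x‖ ^ 2)]
    exact mul_le_mul (ht i) (pow_le_pow_left₀ (norm_nonneg _) (D.norm_le_sz x i) 2)
      (by positivity) hb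
  rw [Finset.sum_const, Finset.card_univ, Fintype.card_fin, nsmul_eq_mul] at h1
  push_cast at h1
  have := sq_nonneg (D.sz x)
  nlinarith

end H55N
end

-- from Lib.H55N.B9
section

open NumberField IsDedekindDomain

namespace H55N

open H55B H55C

variable {K : Type} [Field K] [NumberField K] [Algebra F K] {m : ℕ}
  {P ι : Type} [Fintype ι] [DecidableEq ι]

/-! Chunk B9 (M). The sizes and the rows of the labels T t.
sv_sz, sv_gs: sz(x - w) <= sz x + sum_i |σ_i w| <= (1 + C) sz x and conversely (sz >= 1), Fintype ι; gs = 1/sz.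
good_sig: Good.additive (|σ_a x| <= sz x, |σ_a (w_i)| <= C = C sz x * gs x). good_Q: |σ_i x|^2 = σ_i x * conj(σ_i x): Good.mul, Good.conj, Good.smul, Good.sum.
good_row: conj(σ_i x) * t_i * (1/Q): Good.inv with Q_low (0 not in Y), weight sz * sz^(-2) = sz^(-1). -/

theorem B9_sub (D : Ctx K m) (x y : 𝓞 K) : D.sz (x - y) ≤ D.sz x + D.sz y := by
  unfold Ctx.sz
  have h1 : ∑ i, ‖D.σ i (x - y : 𝓞 K)‖ ≤ ∑ i, (‖D.σ i x‖ + ‖D.σ i y‖) := by
    refine Finset.sum_le_sum fun i _ => ?_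
    have h2 : D.σ i ((x - y : 𝓞 K) : K) = D.σ i x - D.σ i y := by
      simp only [map_sub]
    rw [h2]
    exact norm_sub_le _ _
  rw [Finset.sum_add_distrib] at h1
  linarith

theorem B9_sub' (D : Ctx K m) (x y : 𝓞 K) : D.sz x ≤ D.sz (x - y) + D.sz y := by
  unfold Ctx.sz
  have h1 : ∑ i, ‖D.σ i x‖ ≤ ∑ i, (‖D.σ i (x - y : 𝓞 K)‖ + ‖D.σ i y‖) := by
    refine Finset.sum_le_sum fun i _ => ?_
    have h2 : D.σ i ((x - y : 𝓞 K) : K) = D.σ i x - D.σ i y := by
      simp only [map_sub]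
    have h3 : D.σ i x = (D.σ i x - D.σ i y) + D.σ i y := by ring
    rw [h2]
    calc ‖D.σ i x‖ = ‖(D.σ i x - D.σ i y) + D.σ i y‖ := by rw [← h3]
      _ ≤ _ := norm_add_le _ _
  rw [Finset.sum_add_distrib] at h1
  linarith

/-- A bound for the sizes of the directions. -/
noncomputable def B9_C (D : Ctx K m) (w : ι → 𝓞 K) : ℝ := 1 + ∑ i, D.sz (w i)

omit [DecidableEq ι] in
theorem B9_le_C (D : Ctx K m) (w : ι → 𝓞 K) (i : ι) : 1 + D.sz (w i) ≤ B9_C D w := by
  unfold B9_C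
  have : D.sz (w i) ≤ ∑ i, D.sz (w i) :=
    Finset.single_le_sum (f := fun i => D.sz (w i)) (fun i _ => (D.sz_pos _).le)
      (Finset.mem_univ i)
  linarith

omit [DecidableEq ι] in
theorem B9_one_le_C (D : Ctx K m) (w : ι → 𝓞 K) : 1 ≤ B9_C D w := by
  unfold B9_C
  have : 0 ≤ ∑ i, D.sz (w i) := Finset.sum_nonneg fun i _ => (D.sz_pos _).le
  linarith

omit [DecidableEq ι] in
theorem B9_sz (D : Ctx K m) (w : ι → 𝓞 K) (x : 𝓞 K) (i : ι) :
    D.sz (x - w i) ≤ B9_C D w * D.sz x ∧ D.sz x ≤ B9_C D w * D.sz (x - w i) := by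
  have h1 := B9_sub D x (w i)
  have h2 := B9_sub' D x (w i)
  have h3 := B9_le_C D w i
  have h4 := D.one_le_sz x
  have h5 := D.one_le_sz (x - w i)
  have h6 := D.sz_pos (w i)
  constructor <;> nlinarith

theorem sv_sz (D : Ctx K m) (w : ι → 𝓞 K) (Y : Set (𝓞 K)) :
    SV Y w fun (_ : P) x => D.sz x := by
  refine ⟨fun _ x _ => D.sz_pos x, B9_C D w, ?_⟩
  intro _ x _ i
  exact B9_sz D w x i

theorem sv_gs (D : Ctx K m) (w : ι → 𝓞 K) (Y : Set (𝓞 K)) :
    SV Y w (D.gs : ι → 𝓞 K → ℝ) := by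
  refine ⟨fun _ x _ => inv_pos.mpr (D.sz_pos x), B9_C D w, ?_⟩
  intro _ x _ i
  obtain ⟨h1, h2⟩ := B9_sz D w x i
  have h3 := D.sz_pos x
  have h4 := D.sz_pos (x - w i)
  unfold Ctx.gs
  constructor
  · rw [← div_eq_mul_inv, le_div_iff₀ h3, inv_mul_le_iff₀ h4]
    linarith
  · rw [← div_eq_mul_inv, le_div_iff₀ h4, inv_mul_le_iff₀ h3]
    linarith

theorem good_sig (D : Ctx K m) (w : ι → 𝓞 K) (Y : Set (𝓞 K)) (a : Fin (m + 1)) :
    Good Y w D.gs (fun (_ : P) x => D.sz x) (fun _ x => D.σ a x) := by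
  apply Good.additive (fun _ x _ => (D.sz_pos x).le) (fun _ x _ => (inv_pos.mpr (D.sz_pos x)).le)
    (fun _ x y => by simp only [map_sub]) (B9_C D w)
  · intro _ x _
    have h1 := D.norm_le_sz x a
    have h2 := B9_one_le_C D w
    have h3 := D.sz_pos x
    nlinarith
  · intro _ x _ i
    have h1 := D.norm_le_sz (w i) a
    have h2 := B9_le_C D w i
    have h3 := D.sz_pos x
    have h4 : B9_C D w * D.sz x * (D.sz x)⁻¹ = B9_C D w := by
      field_simp
    show _ ≤ B9_C D w * D.sz x * (D.sz x)⁻¹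
    rw [h4]
    linarith

theorem good_Q (D : Ctx K m) (w : ι → 𝓞 K) (Y : Set (𝓞 K)) (hY : ∀ x ∈ Y, ∀ i, x - w i ∈ Y)
    (t : P → Fin (m + 1) → ℝ) (b : ℝ) (hb : ∀ q i, |t q i| ≤ b) :
    Good Y w D.gs (fun (_ : P) x => D.sz x ^ 2) (fun q x => (D.Q (t q) x : ℂ)) := by
  have hg : ∀ (i : ι), ∀ x ∈ Y, 0 ≤ D.gs i x := fun _ x _ => (inv_pos.mpr (D.sz_pos x)).le
  have h1 : ∀ i : Fin (m + 1), Good Y w D.gs (fun (_ : P) x => D.sz x ^ 2)
      (fun (q : P) (x : 𝓞 K) => (t q i : ℂ) * (D.σ i x * (starRingEnd ℂ) (D.σ i x))) := by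
    intro i
    have h2 := Good.mul hY (sv_gs D w Y) (sv_sz (P := P) D w Y) (sv_sz (P := P) D w Y)
      (good_sig D w Y i) (Good.conj (good_sig D w Y i))
    have h3 := Good.smul h2 hg (fun _ x _ => mul_nonneg (D.sz_pos x).le (D.sz_pos x).le)
      (fun q => (t q i : ℂ)) b (fun q => by
        rw [Complex.norm_real, Real.norm_eq_abs]
        exact hb q i)
    have h4 : (fun (_ : P) (x : 𝓞 K) => D.sz x ^ 2) = fun _ x => D.sz x * D.sz x := by
      funext _ x
      ring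
    rw [h4]
    exact h3
  have h5 := Good.sum (Finset.univ : Finset (Fin (m + 1))) _ (fun i _ => h1 i) hg
    (fun _ x _ => by positivity)
  have h6 : (fun (q : P) (x : 𝓞 K) => (D.Q (t q) x : ℂ)) =
      fun (q : P) (x : 𝓞 K) => ∑ i, (t q i : ℂ) * (D.σ i x * (starRingEnd ℂ) (D.σ i x)) := by
    funext q x
    unfold Ctx.Q
    rw [Complex.ofReal_sum]
    refine Finset.sum_congr rfl fun i _ => ?_
    rw [Complex.mul_conj, Complex.normSq_eq_norm_sq]
    push_cast
    ring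
  rw [h6]
  exact h5

theorem good_row (D : Ctx K m) (hE : Emb D.σ) (w : ι → 𝓞 K) (Y : Set (𝓞 K))
    (hY : ∀ x ∈ Y, ∀ i, x - w i ∈ Y) (h0 : (0 : 𝓞 K) ∉ Y) (t : P → Fin (m + 1) → ℝ) (a b : ℝ)
    (ha : 0 < a) (ht : ∀ q i, a ≤ t q i ∧ t q i ≤ b) (i : Fin (m + 1)) :
    Good Y w D.gs (fun (_ : P) x => (D.sz x)⁻¹) (fun q x => D.row (.T (t q)) x i) := by
  have hg : ∀ (i : ι), ∀ x ∈ Y, 0 ≤ D.gs i x := fun _ x _ => (inv_pos.mpr (D.sz_pos x)).le
  have hb : ∀ q i, |t q i| ≤ b := by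
    intro q i
    rw [abs_of_nonneg (by linarith [(ht q i).1])]
    exact (ht q i).2
  obtain ⟨c, hc, hlow⟩ := Q_low D hE a ha
  have h1 := Good.inv hY (sv_gs D w Y) (SV.pow hY (sv_sz (P := P) D w Y) 2)
    (good_Q D w Y hY t b hb) c hc (by
      intro q x hx
      have hx0 : x ≠ 0 := by
        rintro rfl
        exact h0 hx
      have h2 := hlow (t q) (fun i => (ht q i).1) x hx0
      rw [Complex.norm_real, Real.norm_eq_abs]
      exact h2.trans (le_abs_self _))
  have h2 := Good.smul h1 hg (fun _ x _ => by positivity) (fun q => (t q i : ℂ)) b (fun q => by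
        rw [Complex.norm_real, Real.norm_eq_abs]
        exact hb q i)
  have h3 := Good.mul hY (sv_gs D w Y) (sv_sz (P := P) D w Y)
    (SV.inv hY (SV.pow hY (sv_sz (P := P) D w Y) 2)) (Good.conj (good_sig D w Y i)) h2
  have h4 : (fun (_ : P) (x : 𝓞 K) => (D.sz x)⁻¹) = fun _ x => D.sz x * (D.sz x ^ 2)⁻¹ := by
    funext _ x
    have := D.sz_pos x
    field_simp
  have h5 : (fun (q : P) (x : 𝓞 K) => D.row (.T (t q)) x i) =
      fun (q : P) (x : 𝓞 K) =>
        (starRingEnd ℂ) (D.σ i x) * ((t q i : ℂ) * (D.Q (t q) x : ℂ)⁻¹) := by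
    funext q x
    show (starRingEnd ℂ) (D.σ i x) * (t q i) / D.Q (t q) x = _
    rw [div_eq_mul_inv, mul_assoc]
  rw [h4, h5]
  exact h3

end H55N
end
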