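import Mathlib
import Pool.Agent.Lib.H1M.PP2.M032

/-!
# H55P: definitions

Inheritance of the rank part and the p-part of the conjecture of Birch and Swinnerton-Dyer in Galois
p-extensions of number fields, for elliptic curves with complex multiplication. See PROOF.md.
-/

open NumberField IsDedekindDomain

namespace H55P

open H55N
open H55B (g)

/-- An imaginary quadratic field of class number one with a complex embedding. -/
class IQ (F : Type) [Field F] [NumberField F] where
  emb : F →+* ℂ
  deg : Module.finrank ℚ F = 2
  im : ∃ x : F, (emb x).im ≠ 0
  pid : IsPrincipalIdealRing (𝓞 F)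

/-- The complex embedding. -/
noncomputable def embF (F : Type) [Field F] [NumberField F] [IQ F] : F →+* ℂ := IQ.emb

/-- The complex embedding of the integers. -/
noncomputable def eF (F : Type) [Field F] [NumberField F] [IQ F] : 𝓞 F →+* ℂ :=
  (embF F).comp (algebraMap (𝓞 F) F)

end H55P
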