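import Mathlib
import Pool.Agent.Lib.H1M.PP2.M048

open NumberField IsDedekindDomain

namespace H55P

open H55N
open H55B (g)

variable {F : Type} [Field F] [NumberField F] [IQ F] {K : Type} [Field K] [NumberField K]
  [Algebra F K] {m : ℕ}

/-- p is unramified in K. -/
def UnrP (p : ℕ) (K : Type) [Field K] [NumberField K] : Prop := Squarefree (Ideal.span {(p : 𝓞 K)})

end H55P
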