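import Mathlib

/-! Merged copies (to shorten the build) of Lib.H16C.FR1, Lib.H55K.C21, Lib.H55K.M4A, Lib.H55K.W7, Lib.H55R.X1, Lib.H35P.R2, Lib.H55B.E0, Lib.H55B.F3, Lib.H55R.HA4, Lib.H55B.F1. -/

-- from Lib.H16C.FR1
section

/-!
# FR1 (M): the elements of a number field that are integral at a place are fractions `a / c`, `v c = 1`

`F` a subfield of `Ω` finite over the number field `k`, so a number field; `A` a valuation subring of
`Ω`, `v = A.valuation`, `v(q) < 1` for a prime number `q`.  Elements integral over `ℤ` have `v ≤ 1`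
(`ValuationSubring` is integrally closed).  `P = {z ∈ 𝓞 F | v z < 1}` is a prime ideal of `𝓞 F`,
`≠ 0` as `q ∈ P`, so maximal (`𝓞 F` Dedekind).  Let `x ∈ F`, `v x ≤ 1`, `x ≠ 0`.  With the valuation
`w = HeightOneSpectrum.valuation` of `P`: if `w x ≤ 1` then `x = a / c` with `a, c ∈ 𝓞 F`, `c ∉ P`
(the localisation of `𝓞 F` at `P` is the valuation ring of `P`; e.g.
`IsDedekindDomain.HeightOneSpectrum.exists_..`, `Localization.AtPrime`, `IsLocalization.AtPrime`
is a DVR; or by approximation: write `x = a / d`; choose `u ∈ 𝓞 F` with `ord_P u = ` and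
`u d⁻¹ ...`, cf. `n3_...`, `exists_reduced_fraction` after multiplying by a suitable element of
`(d : a)`: the ideal `{c ∈ 𝓞 F | c x ∈ 𝓞 F}` is not contained in `P` when `w x ≤ 1`).  If `w x > 1`
then `x⁻¹ = a / c`, `c ∉ P`, and `w(x⁻¹) < 1` gives `a ∈ P`, so `v(x⁻¹) = v a / v c < 1`,
contradiction with `v x ≤ 1`.
Another proof: the localisation `R` of `𝓞 F` at `P`, inside `F`, is a discrete valuation ring, so a
maximal proper subring of `F`, and it is contained in the proper subring `{x ∈ F | v x ≤ 1}`.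
-/

open NumberField

namespace H16C

variable {k : Type*} [Field k] [NumberField k] {Ω : Type*} [Field Ω] [Algebra k Ω]

theorem FR_le_one (A : ValuationSubring Ω) {x : Ω} (hx : IsIntegral ℤ x) : A.valuation x ≤ 1 := by
  have h1 : IsIntegral A x := hx.tower_top
  obtain ⟨y, hy⟩ := (IsIntegrallyClosed.isIntegral_iff (R := A) (K := Ω)).1 h1
  rw [← hy]
  exact (A.valuation_le_one_iff _).2 y.2

omit [NumberField k] in
theorem FR_isIntegral (F : IntermediateField k Ω) (z : 𝓞 F) : IsIntegral ℤ ((z : F) : Ω) :=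
  (RingOfIntegers.isIntegral_coe z).map (F.val.restrictScalars ℤ)

/-- the prime ideal of the ring of integers of `F` below the place `A` -/
def plc (F : IntermediateField k Ω) (A : ValuationSubring Ω) : Ideal (𝓞 F) where
  carrier := {z | A.valuation ((z : F) : Ω) < 1}
  zero_mem' := by
    change A.valuation (((0 : 𝓞 F) : F) : Ω) < 1
    simp
  add_mem' := by
    intro a b ha hb
    change A.valuation (((a + b : 𝓞 F) : F) : Ω) < 1
    have e : (((a + b : 𝓞 F) : F) : Ω) = ((a : F) : Ω) + ((b : F) : Ω) := by simp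
    rw [e]
    exact A.valuation.map_add_lt ha hb
  smul_mem' := by
    intro a b hb
    change A.valuation (((a * b : 𝓞 F) : F) : Ω) < 1
    have e : (((a * b : 𝓞 F) : F) : Ω) = ((a : F) : Ω) * ((b : F) : Ω) := by simp
    rw [e, map_mul]
    exact lt_of_le_of_lt (mul_le_of_le_one_left' (FR_le_one A (FR_isIntegral F a))) hb

omit [NumberField k] in
theorem mem_plc {F : IntermediateField k Ω} {A : ValuationSubring Ω} {z : 𝓞 F} :
    z ∈ plc F A ↔ A.valuation ((z : F) : Ω) < 1 := Iff.rfl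

omit [NumberField k] in
theorem not_mem_plc {F : IntermediateField k Ω} {A : ValuationSubring Ω} {z : 𝓞 F} :
    z ∉ plc F A ↔ A.valuation ((z : F) : Ω) = 1 := by
  rw [mem_plc, not_lt]
  exact ⟨fun h => le_antisymm (FR_le_one A (FR_isIntegral F z)) h, fun h => h.ge⟩

omit [NumberField k] in
instance plc_isPrime (F : IntermediateField k Ω) (A : ValuationSubring Ω) : (plc F A).IsPrime where
  ne_top' := by
    intro h
    have h1 : (1 : 𝓞 F) ∈ plc F A := by rw [h]; trivial
    rw [mem_plc] at h1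
    simp at h1
  mem_or_mem' := by
    intro x y hxy
    by_contra hc
    rw [not_or] at hc
    have h1 := not_mem_plc.1 hc.1
    have h2 := not_mem_plc.1 hc.2
    rw [mem_plc] at hxy
    have e : (((x * y : 𝓞 F) : F) : Ω) = ((x : F) : Ω) * ((y : F) : Ω) := by simp
    rw [e, map_mul, h1, h2, one_mul] at hxy
    exact lt_irrefl _ hxy

omit [NumberField k] in
theorem natCast_mem_plc (F : IntermediateField k Ω) {A : ValuationSubring Ω} {q : ℕ}
    (hA : A.valuation (q : Ω) < 1) : (q : 𝓞 F) ∈ plc F A := by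
  rw [mem_plc]
  simpa using hA


theorem FR_numberField (F : IntermediateField k Ω) [FiniteDimensional k F] : NumberField F :=
  NumberField.of_module_finite k F

theorem plc_ne_bot (F : IntermediateField k Ω) {A : ValuationSubring Ω} {q : ℕ}
    (hq : q ≠ 0) (hA : A.valuation (q : Ω) < 1) : plc F A ≠ ⊥ := by
  intro h
  have h1 := natCast_mem_plc F hA
  rw [h, Ideal.mem_bot] at h1
  haveI : CharZero F := charZero_of_injective_algebraMap (algebraMap k F).injective
  have h2 : (q : F) = 0 := by simpa using congrArg (algebraMap (𝓞 F) F) h1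
  exact hq (Nat.cast_eq_zero.1 h2)

theorem frac_rep_int (F : IntermediateField k Ω) [FiniteDimensional k F] (A : ValuationSubring Ω) (q : ℕ)
    (hq : q.Prime) (hA : A.valuation (q : Ω) < 1) {x : F} (hvx : A.valuation (x : Ω) ≤ 1) :
    ∃ a c : 𝓞 F, c ∉ plc F A ∧ x * (c : F) = (a : F) := by
  haveI := FR_numberField F
  let v : IsDedekindDomain.HeightOneSpectrum (𝓞 F) := ⟨plc F A, inferInstance, plc_ne_bot F hq.ne_zero hA⟩
  obtain ⟨n, d, h | h⟩ := IsDedekindDomain.HeightOneSpectrum.exists_primeCompl_mul_eq_or_mul_eq v x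
  · exact ⟨n, d, d.2, h⟩
  · refine ⟨d, n, ?_, h⟩
    have hd : A.valuation (((d : 𝓞 F) : F) : Ω) = 1 := not_mem_plc.1 d.2
    intro hn
    rw [mem_plc] at hn
    have h2 : (x : Ω) * ((n : F) : Ω) = (((d : 𝓞 F) : F) : Ω) := by
      have := congrArg (fun z : F => (z : Ω)) h
      simpa using this
    have h3 : A.valuation ((x : Ω) * ((n : F) : Ω)) < 1 := by
      rw [map_mul]
      exact lt_of_le_of_lt (mul_le_of_le_one_left' hvx) hn
    rw [h2, hd] at h3
    exact lt_irrefl _ h3

theorem frac_rep (F : IntermediateField k Ω) [FiniteDimensional k F] (A : ValuationSubring Ω) (q : ℕ)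
    (hq : q.Prime) (hA : A.valuation (q : Ω) < 1) {x : Ω} (hx : x ∈ F) (hvx : A.valuation x ≤ 1) :
    ∃ a c : Ω, a ∈ F ∧ c ∈ F ∧ IsIntegral ℤ a ∧ IsIntegral ℤ c ∧ A.valuation c = 1 ∧ x = a / c := by
  obtain ⟨a, c, hc, h⟩ := frac_rep_int F A q hq hA (x := ⟨x, hx⟩) hvx
  have hc1 := not_mem_plc.1 hc
  refine ⟨((a : F) : Ω), ((c : F) : Ω), (a : F).2, (c : F).2, FR_isIntegral F a, FR_isIntegral F c, hc1, ?_⟩
  have hc0 : ((c : F) : Ω) ≠ 0 := by
    intro h0
    rw [h0, map_zero] at hc1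
    exact zero_ne_one hc1
  rw [eq_div_iff hc0]
  have := congrArg (fun z : F => (z : Ω)) h
  simpa using this

end H16C
end

-- from Lib.H55K.C21
section

open Polynomial

namespace H55K.CC

/-! Chunk C21 (S/M, PURE MATHLIB). dd: product of monic polynomials X - C t, squared: degree 2 #S =: d, monic. nn: C(α^(-2)) (X dd + sum over r of (quadratic in X (degree ≤ 2, since it is (X + t)(t X + A) + 2B)) times
(product over S.erase r, degree 2 (#S - 1) = d - 2) - C t dd): the sum has natDegree ≤ d (natDegree_sum_le_of_forall_le, natDegree_mul_le, natDegree_prod_le ..), so natDegree ≤ d + 1 and the coefficient of X^(d+1) is α^(-2)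
(coeff_X_mul, coeff_eq_zero_of_natDegree_lt). nn_eval: x <> t r: product over S.erase r of (x - t r')^2 = dd(x)/(x - t r)^2 (Finset.mul_prod_erase), Finset.mul_sum. -/

variable {K : Type} [Field K]

/-- The denominator. -/
noncomputable def ddP (S : Finset ℂ) (t : ℂ → K) : K[X] := ∏ r ∈ S, (X - C (t r)) ^ 2

/-- The numerator. -/
noncomputable def nnP (S : Finset ℂ) (t : ℂ → K) (α A B : K) : K[X] := C (α ^ 2)⁻¹ * (X * ddP S t +
  ∑ r ∈ S, (((X + C (t r)) * (C (t r) * X + C A) + C (2 * B)) * ∏ r' ∈ S.erase r, (X - C (t r')) ^ 2 -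
    C (t r) * ddP S t))

theorem ddP_deg (S : Finset ℂ) (t : ℂ → K) : (ddP S t).natDegree ≤ 2 * S.card ∧ (ddP S t).coeff (2 * S.card) = 1 := by
  have hm : ∀ r ∈ S, ((X - C (t r)) ^ 2 : K[X]).Monic := fun r _ => (monic_X_sub_C _).pow 2
  have hmon : (ddP S t).Monic := monic_prod_of_monic S _ hm
  have hd : (ddP S t).natDegree = 2 * S.card := by
    unfold ddP
    rw [natDegree_prod_of_monic S _ hm]
    have : ∀ r ∈ S, ((X - C (t r)) ^ 2 : K[X]).natDegree = 2 := by
      intro r _
      rw [natDegree_pow, natDegree_X_sub_C]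
    rw [Finset.sum_congr rfl this, Finset.sum_const, smul_eq_mul, mul_comm]
  refine ⟨hd.le, ?_⟩
  rw [← hd]
  exact hmon

theorem nnP_deg (S : Finset ℂ) (t : ℂ → K) {α : K} (hα : α ≠ 0) (A B : K) : (nnP S t α A B).natDegree ≤ 2 * S.card + 1 ∧
    α ^ 2 * (nnP S t α A B).coeff (2 * S.card + 1) = 1 := by
  obtain ⟨hd1, hd2⟩ := ddP_deg S t
  have hQ : (∑ r ∈ S, (((X + C (t r)) * (C (t r) * X + C A) + C (2 * B)) * ∏ r' ∈ S.erase r, (X - C (t r')) ^ 2 -
      C (t r) * ddP S t)).natDegree ≤ 2 * S.card := by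
    refine natDegree_sum_le_of_forall_le _ _ fun r hr => ?_
    refine (natDegree_sub_le _ _).trans (max_le ?_ ?_)
    · have h1 : ((X + C (t r)) * (C (t r) * X + C A) + C (2 * B) : K[X]).natDegree ≤ 2 := by
        compute_degree
      have h2 := (ddP_deg (S.erase r) t).1
      have h3 : 1 ≤ S.card := Finset.card_pos.2 ⟨r, hr⟩
      rw [Finset.card_erase_of_mem hr] at h2
      refine natDegree_mul_le.trans ?_
      have h4 : (∏ r' ∈ S.erase r, (X - C (t r')) ^ 2 : K[X]).natDegree ≤ 2 * (S.card - 1) := h2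
      omega
    · exact (natDegree_C_mul_le _ _).trans hd1
  have hX : (X * ddP S t).natDegree ≤ 2 * S.card + 1 := by
    refine natDegree_mul_le.trans ?_
    rw [natDegree_X]
    omega
  unfold nnP
  refine ⟨(natDegree_C_mul_le _ _).trans ((natDegree_add_le _ _).trans (max_le hX (hQ.trans (by omega)))), ?_⟩
  rw [coeff_C_mul, coeff_add, coeff_X_mul, hd2, coeff_eq_zero_of_natDegree_lt (lt_of_le_of_lt hQ (by omega)), add_zero,
    mul_one, mul_inv_cancel₀ (pow_ne_zero 2 hα)]

theorem ddP_eval (S : Finset ℂ) (t : ℂ → K) {x : K} (hx : ∀ r ∈ S, x - t r ≠ 0) : (ddP S t).eval x ≠ 0 := by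
  unfold ddP
  rw [eval_prod, Finset.prod_ne_zero_iff]
  intro r hr
  rw [eval_pow, eval_sub, eval_X, eval_C]
  exact pow_ne_zero 2 (hx r hr)

theorem nnP_eval (S : Finset ℂ) (t : ℂ → K) {α : K} (hα : α ≠ 0) (A B : K) {x : K} (hx : ∀ r ∈ S, x - t r ≠ 0) :
    α ^ 2 * (nnP S t α A B).eval x = (ddP S t).eval x *
      (x + ∑ r ∈ S, (((x + t r) * (t r * x + A) + 2 * B) / (x - t r) ^ 2 - t r)) := by
  have hα2 : α ^ 2 ≠ 0 := pow_ne_zero 2 hα
  unfold nnP
  rw [eval_mul, eval_C, mul_inv_cancel_left₀ hα2, eval_add, eval_mul, eval_X, mul_add, mul_comm x, eval_finset_sum,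
    Finset.mul_sum]
  congr 1
  refine Finset.sum_congr rfl fun r hr => ?_
  have h1 : (ddP S t).eval x = (x - t r) ^ 2 * (∏ r' ∈ S.erase r, (X - C (t r')) ^ 2 : K[X]).eval x := by
    have h2 : ddP S t = (X - C (t r)) ^ 2 * ∏ r' ∈ S.erase r, (X - C (t r')) ^ 2 := by
      unfold ddP
      exact (Finset.mul_prod_erase S (fun r => (X - C (t r) : K[X]) ^ 2) hr).symm
    rw [h2, eval_mul, eval_pow, eval_sub, eval_X, eval_C]
  rw [eval_sub, eval_mul, eval_mul, h1]
  simp only [eval_add, eval_mul, eval_X, eval_C]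
  have h3 := hx r hr
  field_simp

theorem ddP_map {K' : Type} [Field K'] (j : K →+* K') (S : Finset ℂ) (t : ℂ → K) :
    (ddP S t).map j = ddP S (fun r => j (t r)) := by
  unfold ddP
  rw [Polynomial.map_prod]
  simp

theorem nnP_map {K' : Type} [Field K'] (j : K →+* K') (S : Finset ℂ) (t : ℂ → K) (α A B : K) :
    (nnP S t α A B).map j = nnP S (fun r => j (t r)) (j α) (j A) (j B) := by
  unfold nnP
  simp only [Polynomial.map_mul, Polynomial.map_add, Polynomial.map_sum, Polynomial.map_sub, Polynomial.map_prod,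
    Polynomial.map_pow, map_X, map_C, ddP_map, map_inv₀, map_pow, map_mul, map_ofNat, Polynomial.map_ofNat]

end H55K.CC
end

-- from Lib.H55K.M4A
section

namespace H55K.MG

/-! Chunk M4A (S/M, PURE: valuations). δ = X1 - X2, δ' = X1' - X2': V(δ' - δ) < 1, V(δ) = 1 so V(δ') = 1 and δ = u^2 δ', so V(u) = 1 and V(u^2 - 1) = V((δ - δ')/δ') < 1. r = X1 - u^2 X1' = (X1 - X1') - (u^2 - 1) X1', X1' in V: V(r) < 1.
Case V(2) < 1: if V(u - 1) = 1 (it is ≤ 1) then V(u + 1) = V((u - 1) + 2) = 1 and V(u^2 - 1) = 1: contradiction; so V(u - 1) < 1, V(u^3 - 1) < 1. s δ' = (Y1 - Y2) - u^3 (Y1' - Y2') = ((Y1 - Y1') - (Y2 - Y2')) - (u^3 - 1)(Y1' - Y2'):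
V(s) < 1. t = Y1 - u^3 Y1' - s X1': V(t) < 1. Case V(2) = 1: s X1' + t = 0 = s X2' + t: s δ' = 0, s = 0, t = 0; Y1 = u^3 Y1', V(Y1) = 1: V(Y1') = 1, u^3 - 1 = (Y1 - Y1')/Y1' has value < 1; u - 1 = (u^3 - u^2)/u^2 =
((u^3 - 1) - (u^2 - 1))/u^2: V(u - 1) < 1. -/

theorem val_tilde {k : Type} [Field k] (V : ValuationSubring k) {X₁ X₂ Y₁ Y₂ X₁' X₂' Y₁' Y₂' u r s t : k}
    (hX₁ : X₁ ∈ V) (hX₂ : X₂ ∈ V) (hY₁ : Y₁ ∈ V) (hY₂ : Y₂ ∈ V)
    (c₁ : V.valuation (X₁' - X₁) < 1) (c₂ : V.valuation (X₂' - X₂) < 1)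
    (d₁ : V.valuation (Y₁' - Y₁) < 1) (d₂ : V.valuation (Y₂' - Y₂) < 1)
    (e₁ : X₁ = u ^ 2 * X₁' + r) (e₂ : X₂ = u ^ 2 * X₂' + r)
    (f₁ : Y₁ = u ^ 3 * Y₁' + s * X₁' + t) (f₂ : Y₂ = u ^ 3 * Y₂' + s * X₂' + t)
    (hδ : V.valuation (X₁ - X₂) = 1)
    (hc : (V.valuation Y₁ = 1 ∧ s * X₁' + t = 0 ∧ s * X₂' + t = 0) ∨ V.valuation (2 : k) < 1) :
    V.valuation (u - 1) < 1 ∧ V.valuation r < 1 ∧ V.valuation s < 1 ∧ V.valuation t < 1 := by
  obtain ⟨v, hv⟩ : ∃ v, v = V.valuation := ⟨_, rfl⟩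
  have hle : ∀ x ∈ V, v x ≤ 1 := fun x hx => by rw [hv]; exact (V.valuation_le_one_iff x).2 hx
  rw [← hv] at c₁ c₂ d₁ d₂ hδ hc ⊢
  have hmul1 : ∀ x y : k, v x < 1 → v y ≤ 1 → v (x * y) < 1 := by
    intro x y hx hy
    rw [map_mul]
    exact mul_lt_one_of_lt_of_le hx hy
  have hclose : ∀ x y : k, x ∈ V → v (y - x) < 1 → v y ≤ 1 := by
    intro x y hx hy
    have e : y = (y - x) + x := by ring
    rw [e]
    exact (v.map_add _ _).trans (max_le hy.le (hle x hx))
  have hX₁' := hclose _ _ hX₁ c₁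
  have hY₁' := hclose _ _ hY₁ d₁
  have hY₂' := hclose _ _ hY₂ d₂
  have hδd : v ((X₁' - X₂') - (X₁ - X₂)) < 1 := by
    have e : (X₁' - X₂') - (X₁ - X₂) = (X₁' - X₁) - (X₂' - X₂) := by ring
    rw [e]
    exact v.map_sub_lt c₁ c₂
  have hδ' : v (X₁' - X₂') = 1 := by
    have e : X₁' - X₂' = ((X₁' - X₂') - (X₁ - X₂)) + (X₁ - X₂) := by ring
    rw [e, v.map_add_eq_of_lt_right]
    · exact hδ
    · rw [hδ]
      exact hδd
  have hu2 : X₁ - X₂ = u ^ 2 * (X₁' - X₂') := by rw [e₁, e₂]; ring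
  have hvu2 : v u ^ 2 = 1 := by
    have h1 := congrArg v hu2
    rw [map_mul, map_pow, hδ, hδ', mul_one] at h1
    exact h1.symm
  have hvu : v u = 1 := (pow_eq_one_iff_of_nonneg zero_le (by norm_num)).1 hvu2
  have hsq : v (u ^ 2 - 1) < 1 := by
    have e : (u ^ 2 - 1) * (X₁' - X₂') = -((X₁' - X₂') - (X₁ - X₂)) := by rw [hu2]; ring
    have h1 := congrArg v e
    rw [map_mul, hδ', mul_one, Valuation.map_neg] at h1
    rw [h1]
    exact hδd
  have hc₁ : v (X₁ - X₁') < 1 := by rw [v.map_sub_swap]; exact c₁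
  have hd₁ : v (Y₁ - Y₁') < 1 := by rw [v.map_sub_swap]; exact d₁
  have hd₂ : v (Y₂ - Y₂') < 1 := by rw [v.map_sub_swap]; exact d₂
  have hr : v r < 1 := by
    have e : r = (X₁ - X₁') - (u ^ 2 - 1) * X₁' := by linear_combination -e₁
    rw [e]
    exact v.map_sub_lt hc₁ (hmul1 _ _ hsq hX₁')
  rcases hc with ⟨hy, g₁, g₂⟩ | h2
  · have hs0 : s * (X₁' - X₂') = 0 := by linear_combination g₁ - g₂
    have hδ0 : X₁' - X₂' ≠ 0 := by
      intro h0
      rw [h0, map_zero] at hδ'
      exact zero_ne_one hδ'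
    have hs : s = 0 := (mul_eq_zero.1 hs0).resolve_right hδ0
    have ht : t = 0 := by
      rw [hs, zero_mul, zero_add] at g₁
      exact g₁
    rw [hs, ht, map_zero]
    rw [hs, ht, zero_mul, add_zero, add_zero] at f₁
    have hvy : v Y₁' = 1 := by
      have h1 := congrArg v f₁
      rw [hy, map_mul, map_pow, hvu, one_pow, one_mul] at h1
      exact h1.symm
    have hu3 : v (u ^ 3 - 1) < 1 := by
      have e : (u ^ 3 - 1) * Y₁' = Y₁ - Y₁' := by rw [f₁]; ring
      have h1 := congrArg v e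
      rw [map_mul, hvy, mul_one] at h1
      rw [h1]
      exact hd₁
    refine ⟨?_, hr, zero_lt_one, zero_lt_one⟩
    have e : u ^ 2 * (u - 1) = (u ^ 3 - 1) - (u ^ 2 - 1) := by ring
    have h1 := congrArg v e
    rw [map_mul, map_pow, hvu, one_pow, one_mul] at h1
    rw [h1]
    exact v.map_sub_lt hu3 hsq
  · have hu1le : v (u - 1) ≤ 1 := (v.map_sub _ _).trans (max_le hvu.le (map_one v).le)
    have hu1 : v (u - 1) < 1 := by
      by_contra hcon
      have h1 : v (u - 1) = 1 := le_antisymm hu1le (not_lt.1 hcon)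
      have h3 : v (u + 1) = 1 := by
        have e : u + 1 = 2 + (u - 1) := by ring
        rw [e, v.map_add_eq_of_lt_right]
        · exact h1
        · rw [h1]
          exact h2
      have e : u ^ 2 - 1 = (u - 1) * (u + 1) := by ring
      rw [e, map_mul, h1, h3, one_mul] at hsq
      exact lt_irrefl _ hsq
    have hu3 : v (u ^ 3 - 1) < 1 := by
      have e : u ^ 3 - 1 = (u - 1) * (u ^ 2 + u + 1) := by ring
      rw [e]
      refine hmul1 _ _ hu1 ?_
      refine (v.map_add _ _).trans (max_le ((v.map_add _ _).trans (max_le ?_ hvu.le)) (map_one v).le)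
      rw [map_pow, hvu, one_pow]
    have hs : v s < 1 := by
      have e : s * (X₁' - X₂') = ((Y₁ - Y₁') - (Y₂ - Y₂')) - (u ^ 3 - 1) * (Y₁' - Y₂') := by
        linear_combination f₂ - f₁
      have h1 := congrArg v e
      rw [map_mul, hδ', mul_one] at h1
      rw [h1]
      exact v.map_sub_lt (v.map_sub_lt hd₁ hd₂)
        (hmul1 _ _ hu3 ((v.map_sub _ _).trans (max_le hY₁' hY₂')))
    refine ⟨hu1, hr, hs, ?_⟩
    have e : t = (Y₁ - Y₁') - (u ^ 3 - 1) * Y₁' - s * X₁' := by linear_combination -f₁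
    rw [e]
    exact v.map_sub_lt (v.map_sub_lt hd₁ (hmul1 _ _ hu3 hY₁')) (hmul1 _ _ hs hX₁')

end H55K.MG
end

-- from Lib.H55K.W7
section

/-! # H55K, part W: the zeta function of an elliptic curve, algebra -/

namespace H55K.WZ

theorem w7_rec (x : ℂ) (i : ℕ → ℂ) (n : ℕ) :
    ∑ m ∈ Finset.Icc 1 (n + 1), x ^ m * i (n + 1 - m) =
      x * (i n + ∑ m ∈ Finset.Icc 1 n, x ^ m * i (n - m)) := by
  have h1 : Finset.Icc 1 (n + 1) = insert 1 (Finset.Icc 2 (n + 1)) := by
    ext m
    simp only [Finset.mem_Icc, Finset.mem_insert]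
    omega
  have h2 : (1 : ℕ) ∉ Finset.Icc 2 (n + 1) := by simp
  have h3 : ∑ m ∈ Finset.Icc 2 (n + 1), x ^ m * i (n + 1 - m) =
      ∑ m ∈ Finset.Icc 1 n, x ^ (m + 1) * i (n - m) := by
    refine Finset.sum_nbij' (fun m => m - 1) (fun m => m + 1) ?_ ?_ ?_ ?_ ?_
    · intro m hm
      simp only [Finset.mem_Icc] at hm ⊢
      omega
    · intro m hm
      simp only [Finset.mem_Icc] at hm ⊢
      omega
    · intro m hm
      simp only [Finset.mem_Icc] at hm
      show m - 1 + 1 = m
      omega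
    · intro m _
      show m + 1 - 1 = m
      omega
    · intro m hm
      simp only [Finset.mem_Icc] at hm
      have e1 : m - 1 + 1 = m := by omega
      have e2 : n + 1 - m = n - (m - 1) := by omega
      rw [e1, e2]
  rw [h1, Finset.sum_insert h2, h3, mul_add, Finset.mul_sum]
  have e3 : n + 1 - 1 = n := by omega
  rw [e3, pow_one]
  congr 1
  refine Finset.sum_congr rfl fun m _ => ?_
  ring

/-- Chunk W7 (M), pure algebra. Power series over ℂ: Z = sum i n T^n satisfies (1 - q T) Z = (1 - α T)(1 - β T) (coefficients: 0: i 0 = 1; 1: i 1 - q = -(α + β); 2: (q + 1 - a) q - q (q - a) = q = α β; n ≥ 3: 0). C' = sum over m ≥ 1 of c' m T^m with c' m = q^m - α^m - β^m is q T/(1 - q T) - α T/(1 - α T) - β T/(1 - β T). T dZ/dT = C' Z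
(multiply by (1 - q T)^2 or use the product rule), so n i n = sum over m in [1, n] of c' m i (n - m). The recursion determines c (i 0 = 1): strong induction on m: c m = m i m - sum over m' < m of c m' i (m - m'). Alternative without power series: prove n i n = sum of c' m i (n - m) directly from the geometric sums. -/
theorem alg (q α β : ℂ) (i c : ℕ → ℂ) (h0 : i 0 = 1) (h1 : i 1 = q - (α + β))
    (h2 : ∀ n : ℕ, 2 ≤ n → i n = (q + 1 - (α + β)) * q ^ (n - 1)) (hαβ : α * β = q)
    (hrec : ∀ n : ℕ, 1 ≤ n → (n : ℂ) * i n = ∑ m ∈ Finset.Icc 1 n, c m * i (n - m)) :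
    ∀ m : ℕ, 1 ≤ m → c m = q ^ m - α ^ m - β ^ m := by
  have a1 : ∀ x : ℂ, ∑ m ∈ Finset.Icc 1 1, x ^ m * i (1 - m) = x := by
    intro x
    simp [h0]
  have i2 : ∀ n : ℕ, i (n + 2) = (q + 1 - (α + β)) * q ^ (n + 1) := fun n => h2 (n + 2) (by omega)
  have aα : ∀ x y : ℂ, x * y = q → x + y = α + β → ∀ n : ℕ,
      ∑ m ∈ Finset.Icc 1 (n + 2), x ^ m * i (n + 2 - m) = q ^ (n + 1) * (x - 1) := by
    intro x y hxy hs n
    induction n with
    | zero =>
      have := w7_rec x i 1
      rw [a1, h1, ← hs] at this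
      have e : (0 + 2 : ℕ) = 1 + 1 := rfl
      rw [e, this, ← hxy]
      ring
    | succ n ih =>
      have := w7_rec x i (n + 2)
      rw [ih, i2, ← hs] at this
      have e : (n + 1 + 2 : ℕ) = n + 2 + 1 := rfl
      rw [e, this]
      have e2 : q ^ (n + 1 + 1) = q ^ (n + 1) * (x * y) := by rw [pow_succ, hxy]
      rw [e2, ← hxy]
      ring
  have aq : ∀ n : ℕ, ∑ m ∈ Finset.Icc 1 (n + 2), q ^ m * i (n + 2 - m) =
      q ^ (n + 1) * (((n : ℂ) + 2) * (q + 1 - (α + β)) + (α + β) - 2) := by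
    intro n
    induction n with
    | zero =>
      have := w7_rec q i 1
      rw [a1, h1] at this
      have e : (0 + 2 : ℕ) = 1 + 1 := rfl
      rw [e, this]
      push_cast
      ring
    | succ n ih =>
      have := w7_rec q i (n + 2)
      rw [ih, i2] at this
      have e : (n + 1 + 2 : ℕ) = n + 2 + 1 := rfl
      rw [e, this]
      push_cast
      ring
  have key : ∀ n : ℕ, 1 ≤ n → (n : ℂ) * i n =
      ∑ m ∈ Finset.Icc 1 n, (q ^ m - α ^ m - β ^ m) * i (n - m) := by
    intro n hn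
    have hsplit : ∑ m ∈ Finset.Icc 1 n, (q ^ m - α ^ m - β ^ m) * i (n - m) =
        ∑ m ∈ Finset.Icc 1 n, q ^ m * i (n - m) - ∑ m ∈ Finset.Icc 1 n, α ^ m * i (n - m) -
          ∑ m ∈ Finset.Icc 1 n, β ^ m * i (n - m) := by
      rw [← Finset.sum_sub_distrib, ← Finset.sum_sub_distrib]
      refine Finset.sum_congr rfl fun m _ => ?_
      ring
    rw [hsplit]
    rcases Nat.lt_or_ge n 2 with h | h
    · have hn1 : n = 1 := by omega
      subst hn1
      rw [a1, a1, a1, h1]
      push_cast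
      ring
    · obtain ⟨k, rfl⟩ : ∃ k, n = k + 2 := ⟨n - 2, by omega⟩
      rw [aq, aα α β hαβ rfl, aα β α (by rw [mul_comm]; exact hαβ) (add_comm _ _), i2]
      push_cast
      ring
  intro m
  induction m using Nat.strong_induction_on with
  | _ m ih =>
    intro hm
    have e1 := hrec m hm
    rw [key m hm] at e1
    have hI : Finset.Icc 1 m = insert m (Finset.Ico 1 m) := by
      ext t
      simp only [Finset.mem_Icc, Finset.mem_insert, Finset.mem_Ico]
      omega
    have hnm : m ∉ Finset.Ico 1 m := by simp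
    rw [hI, Finset.sum_insert hnm, Finset.sum_insert hnm, Nat.sub_self, h0, mul_one, mul_one] at e1
    have e2 : ∑ t ∈ Finset.Ico 1 m, c t * i (m - t) =
        ∑ t ∈ Finset.Ico 1 m, (q ^ t - α ^ t - β ^ t) * i (m - t) := by
      refine Finset.sum_congr rfl fun t ht => ?_
      rw [Finset.mem_Ico] at ht
      rw [ih t ht.2 ht.1]
    rw [e2] at e1
    exact (add_right_cancel e1).symm

end H55K.WZ
end

-- from Lib.H55R.X1
section

namespace H55R

/-! Chunk X1 (M, pure Mathlib, elementary number theory). For j >= 1 let y = q^(l^(j-1)), A = 1 + y + ... + y^(l-1), (y - 1) A = y^l - 1. A prime p <> l dividing A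
does not divide q (A = 1 mod y, q | y), y^l = 1 mod p, and y <> 1 mod p (otherwise A = l mod p, p = l); so the order of q mod p divides l^j but
not l^(j-1): it is l^j, l divides it, and l^j <= p - 1. Such a p exists for all large j: A has a prime factor other than l, because otherwise A is a power of l,
A > l >= 2 (A >= 1 + y + ... , y >= 2^(l^(j-1))), so l^2 | A; but: for l odd, l | A gives y^l = 1 mod l, y = 1 mod l (Fermat), y = 1 + l t and
A = sum (1 + l t)^i = sum (1 + i l t) = l + l t l (l-1)/2 = l mod l^2, contradiction; for l = 2 take j >= 2: y is a square, A = 1 + y = 1 or 2 mod 4, so 4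
does not divide A. Choose j with l^j larger than all elements of bad. -/

/-- `l ^ 2` does not divide `1 + y + ... + y ^ (l - 1)`. -/
theorem X1_not_sq_dvd (l y : ℕ) (hl : l.Prime) (h2 : l = 2 → ∃ z, y = z ^ 2) :
    ¬ l ^ 2 ∣ ∑ i ∈ Finset.range l, y ^ i := by
  intro h
  have := Fact.mk hl
  rcases hl.eq_two_or_odd' with h2' | hodd
  · obtain ⟨z, hz⟩ := h2 h2'
    subst h2'
    rw [Finset.sum_range_succ, Finset.sum_range_one, pow_zero, pow_one, hz] at h
    have h4 : (z ^ 2) % 4 = 0 ∨ (z ^ 2) % 4 = 1 := by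
      rcases Nat.even_or_odd' z with ⟨c, hc | hc⟩
      · left
        rw [hc]
        ring_nf
        omega
      · right
        rw [hc]
        ring_nf
        omega
    omega
  · -- `l` divides `y - 1`
    have hdvd : l ∣ ∑ i ∈ Finset.range l, y ^ i := (dvd_pow_self l two_ne_zero).trans h
    have h1 : ((∑ i ∈ Finset.range l, y ^ i : ℕ) : ZMod l) = 0 :=
      (ZMod.natCast_eq_zero_iff _ _).2 hdvd
    push_cast at h1
    have h2 := mul_geom_sum (y : ZMod l) l
    rw [h1, mul_zero, ZMod.pow_card] at h2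
    have h3 : (y : ZMod l) = 1 := (sub_eq_zero.1 h2.symm)
    have h4 : (l : ℤ) ∣ (y : ℤ) - 1 := by
      rw [← ZMod.intCast_zmod_eq_zero_iff_dvd]
      push_cast
      rw [h3, sub_self]
    obtain ⟨t, ht⟩ := h4
    have h5 := odd_sq_dvd_geom_sum₂_sub (R := ℤ) (a := 1) t hodd
    simp only [one_pow, mul_one] at h5
    have h6 : (1 : ℤ) + l * t = y := by
      rw [← ht]
      ring
    rw [h6] at h5
    have h7 : ((l : ℤ) ^ 2) ∣ ∑ i ∈ Finset.range l, (y : ℤ) ^ i := by
      exact_mod_cast h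
    have h8 : ((l : ℤ) ^ 2) ∣ (l : ℤ) := by
      have := dvd_sub h7 h5
      rwa [sub_sub_cancel] at this
    have h9 : l ^ 2 ∣ l := by exact_mod_cast h8
    have h10 := Nat.le_of_dvd hl.pos h9
    have := hl.two_le
    nlinarith

theorem exists_p (q l : ℕ) (hq : 1 < q) (hl : l.Prime) (bad : Finset ℕ) :
    ∃ p : ℕ, p.Prime ∧ ¬ p ∣ q ∧ p ∉ bad ∧ l ∣ orderOf (q : ZMod p) := by
  set j : ℕ := bad.sup id + 1 with hj
  have hj1 : 1 ≤ j := by omega
  set y : ℕ := q ^ l ^ j with hy
  have hl2 := hl.two_le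
  have hlj : 1 ≤ l ^ j := Nat.one_le_pow _ _ hl.pos
  have hy1 : 1 < y := Nat.one_lt_pow (by omega) hq
  set A : ℕ := ∑ i ∈ Finset.range l, y ^ i with hA
  have hsq : ¬ l ^ 2 ∣ A := by
    refine X1_not_sq_dvd l y hl fun h => ⟨q ^ l ^ (j - 1), ?_⟩
    rw [hy, ← pow_mul]
    congr 1
    rw [h, ← pow_succ]
    congr 1
  have hAl : l < A := by
    have h1 : ∑ i ∈ Finset.range l, 1 < ∑ i ∈ Finset.range l, y ^ i := by
      refine Finset.sum_lt_sum (fun i _ => Nat.one_le_pow _ _ (by omega)) ⟨1, ?_, ?_⟩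
      · rw [Finset.mem_range]
        omega
      · rw [pow_one]
        exact hy1
    simpa using h1
  -- a prime factor different from `l`
  obtain ⟨p, hp, hpA, hpl⟩ : ∃ p : ℕ, p.Prime ∧ p ∣ A ∧ p ≠ l := by
    by_contra hcon
    push Not at hcon
    have h1 := Nat.eq_prime_pow_of_unique_prime_dvd (n := A) (p := l) (by omega)
      fun {d} hd hdA => hcon d hd hdA
    rcases Nat.lt_or_ge A.primeFactorsList.length 2 with h2 | h2
    · have h3 : A ≤ l := by
        rw [h1]
        calc l ^ A.primeFactorsList.length ≤ l ^ 1 :=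
              Nat.pow_le_pow_right hl.pos (by omega)
          _ = l := pow_one l
      omega
    · refine hsq ?_
      rw [h1]
      exact pow_dvd_pow l h2
  have hpf := Fact.mk hp
  have hA0 : ((A : ℕ) : ZMod p) = 0 := (ZMod.natCast_eq_zero_iff _ _).2 hpA
  have hyl : ((y : ℕ) : ZMod p) ^ l = 1 := by
    have h2 := mul_geom_sum (y : ZMod p) l
    rw [hA] at hA0
    push_cast at hA0
    rw [hA0, mul_zero] at h2
    exact (sub_eq_zero.1 h2.symm)
  have hy1' : ((y : ℕ) : ZMod p) ≠ 1 := by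
    intro h
    rw [hA] at hA0
    push_cast at hA0
    rw [h] at hA0
    simp only [one_pow, Finset.sum_const, Finset.card_range, nsmul_eq_mul, mul_one] at hA0
    have h3 : p ∣ l := (ZMod.natCast_eq_zero_iff _ _).1 hA0
    exact hpl ((Nat.prime_dvd_prime_iff_eq hp hl).1 h3)
  have hord : orderOf (q : ZMod p) = l ^ (j + 1) := by
    have := Fact.mk hl
    refine orderOf_eq_prime_pow ?_ ?_
    · intro h
      apply hy1'
      rw [hy]
      push_cast
      exact h
    · rw [pow_succ, pow_mul]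
      rw [hy] at hyl
      push_cast at hyl
      exact hyl
  have hq0 : (q : ZMod p) ≠ 0 := by
    intro h
    rw [hy] at hyl
    push_cast at hyl
    rw [h, zero_pow (by omega), zero_pow hl.ne_zero] at hyl
    exact zero_ne_one hyl
  refine ⟨p, hp, ?_, ?_, ?_⟩
  · intro h
    exact hq0 ((ZMod.natCast_eq_zero_iff _ _).2 h)
  · intro hbad
    have h1 : orderOf (q : ZMod p) ∣ p - 1 := ZMod.orderOf_dvd_card_sub_one hq0
    rw [hord] at h1
    have h2 := Nat.le_of_dvd (by have := hp.two_le; omega) h1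
    have h3 : p ≤ bad.sup id := Finset.le_sup (f := id) hbad
    have h4 : j + 1 < l ^ (j + 1) := (Nat.lt_two_pow_self).trans_le (Nat.pow_le_pow_left hl2 _)
    omega
  · rw [hord]
    exact dvd_pow_self l (by omega)

end H55R
end

-- from Lib.H35P.R2
section

open WeierstrassCurve

namespace H35P

variable {k : Type} [Field k] [DecidableEq k] {W : WeierstrassCurve k}

/-! Chunk R2 (S/M). Vieta for the intersection with the chord or tangent: Mathlib's
WeierstrassCurve.Affine.addPolynomial_slope together with addPolynomial_eq and Cubic.prod_X_sub_C_eq,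
Cubic.toPoly_injective (look at the proof of addPolynomial_slope in
Mathlib/AlgebraicGeometry/EllipticCurve/Affine/Formula.lean: it proves exactly the equality of the coefficients).
The fourth claim: if x₁ ≠ x₂ it is the definition of the slope; if x₁ = x₂ then y₁ = y₂ (Y_eq_of_Y_ne).
The last one is a polynomial consequence of the first three: with e1, e2, e3 the symmetric functions the left side is
3 l^2 e3 + 2 l m e2 + m^2 e1 (linear_combination 3 l^2 * e3 + 2 l m * e2 + m^2 * e1). -/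

/-- The line through two points: slope l, intercept m, third point (x₃, l x₃ + m). -/
theorem vieta {x₁ x₂ y₁ y₂ : k} (h₁ : W.toAffine.Equation x₁ y₁) (h₂ : W.toAffine.Equation x₂ y₂)
    (hxy : ¬(x₁ = x₂ ∧ y₁ = W.toAffine.negY x₂ y₂)) (l m x₃ : k)
    (hl : l = W.toAffine.slope x₁ x₂ y₁ y₂) (hm : m = y₁ - l * x₁) (hx₃ : x₃ = W.toAffine.addX x₁ x₂ l) :
    x₁ + x₂ + x₃ = l ^ 2 + W.a₁ * l - W.a₂ ∧
    x₁ * x₂ + x₁ * x₃ + x₂ * x₃ = W.a₄ - 2 * l * m - W.a₁ * m - W.a₃ * l ∧
    x₁ * x₂ * x₃ = m ^ 2 + W.a₃ * m - W.a₆ ∧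
    y₁ = l * x₁ + m ∧ y₂ = l * x₂ + m ∧ W.toAffine.negAddY x₁ x₂ y₁ l = l * x₃ + m ∧
    x₁ * (l * x₂ + m) * (l * x₃ + m) + x₂ * (l * x₁ + m) * (l * x₃ + m) + x₃ * (l * x₁ + m) * (l * x₂ + m) =
      W.a₃ * l ^ 2 * m - 3 * W.a₆ * l ^ 2 + 2 * W.a₄ * l * m - W.a₁ * l * m ^ 2 - W.a₂ * m ^ 2 := by
  have hA := Affine.addPolynomial_slope h₁ h₂ hxy
  rw [← hl, ← hx₃, Affine.addPolynomial_eq, neg_inj, Cubic.prod_X_sub_C_eq, Cubic.toPoly_injective, Cubic.mk.injEq] at hA
  obtain ⟨-, hb, hc, hd⟩ := hA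
  have e1 : x₁ + x₂ + x₃ = l ^ 2 + W.a₁ * l - W.a₂ := by linear_combination hb
  have e2 : x₁ * x₂ + x₁ * x₃ + x₂ * x₃ = W.a₄ - 2 * l * m - W.a₁ * m - W.a₃ * l := by
    rw [hm]
    linear_combination -hc
  have e3 : x₁ * x₂ * x₃ = m ^ 2 + W.a₃ * m - W.a₆ := by
    rw [hm]
    linear_combination hd
  refine ⟨e1, e2, e3, by rw [hm]; ring, ?_, ?_, ?_⟩
  · by_cases hx : x₁ = x₂
    · have hy : y₁ ≠ W.toAffine.negY x₂ y₂ := fun h => hxy ⟨hx, h⟩
      have := Affine.Y_eq_of_Y_ne h₁ h₂ hx hy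
      rw [hm, ← this, ← hx]
      ring
    · rw [Affine.slope_of_X_ne hx] at hl
      have h0 : x₁ - x₂ ≠ 0 := sub_ne_zero.2 hx
      have h3 : l * (x₁ - x₂) = y₁ - y₂ := by
        rw [hl, div_mul_cancel₀ _ h0]
      rw [hm]
      linear_combination h3
  · unfold Affine.negAddY
    rw [← hx₃, hm]
    ring
  · linear_combination 3 * l ^ 2 * e3 + 2 * l * m * e2 + m ^ 2 * e1

end H35P
end

-- from Lib.H55B.E0
section

open NumberField IsDedekindDomain

namespace H55B

/-! Chunk E0: a binomial coefficient not divisible by p (Lucas).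
m = (p^f - 1)/3 has all base p digits equal to (p-1)/3 and 2m has all digits 2(p-1)/3 < p; by Lucas
(Choose.choose_modEq_prod_range_choose or similar in Mathlib, Nat.Choose.Lucas) binom(2m, m) =
binom(2(p-1)/3, (p-1)/3)^f mod p, nonzero since 2(p-1)/3 < p. (Or: Kummer theorem, no carries; or
induction on f.) -/

theorem choose_not_dvd (p : ℕ) (hp : p.Prime) (h1 : p % 3 = 1) (f : ℕ) :
    ¬ p ∣ Nat.choose (2 * ((p ^ f - 1) / 3)) ((p ^ f - 1) / 3) := by
  have : Fact p.Prime := ⟨hp⟩
  obtain ⟨d, hd⟩ : ∃ d, p = 3 * d + 1 := ⟨p / 3, by omega⟩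
  have hpos : 0 < p := hp.pos
  -- p^f = 3 m + 1
  have key : ∀ f : ℕ, ∃ m : ℕ, p ^ f = 3 * m + 1 ∧ ¬ p ∣ Nat.choose (2 * m) m := by
    intro f
    induction f with
    | zero =>
      refine ⟨0, by simp, ?_⟩
      simp only [mul_zero, Nat.choose_self]
      exact hp.one_lt.ne' ∘ Nat.dvd_one.mp
    | succ f ih =>
      obtain ⟨m, hm, hnd⟩ := ih
      refine ⟨p * m + d, by rw [pow_succ, hm]; linarith [hd, mul_comm p m], ?_⟩
      have hL := Choose.choose_modEq_choose_mod_mul_choose_div_nat (p := p)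
        (n := 2 * (p * m + d)) (k := p * m + d)
      have e1 : 2 * (p * m + d) = 2 * d + p * (2 * m) := by ring
      have e2 : (2 * (p * m + d)) % p = 2 * d := by
        rw [e1, Nat.add_mul_mod_self_left, Nat.mod_eq_of_lt (by omega)]
      have e3 : (2 * (p * m + d)) / p = 2 * m := by
        rw [e1, Nat.add_mul_div_left _ _ hpos, Nat.div_eq_of_lt (by omega), zero_add]
      have e4 : (p * m + d) % p = d := by
        rw [add_comm, Nat.add_mul_mod_self_left, Nat.mod_eq_of_lt (by omega)]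
      have e5 : (p * m + d) / p = m := by
        rw [add_comm, Nat.add_mul_div_left _ _ hpos, Nat.div_eq_of_lt (by omega), zero_add]
      rw [e2, e3, e4, e5] at hL
      intro hdvd
      have h0 : Nat.choose (2 * d) d * Nat.choose (2 * m) m ≡ 0 [MOD p] :=
        hL.symm.trans ((Nat.modEq_zero_iff_dvd).mpr hdvd)
      have h00 := (Nat.modEq_zero_iff_dvd).mp h0
      rcases hp.dvd_mul.mp h00 with h | h
      · have hdf : p ∣ (2 * d).factorial := by
          have := Nat.choose_mul_factorial_mul_factorial (n := 2 * d) (k := d) (by omega)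
          rw [← this]
          exact Dvd.dvd.mul_right (Dvd.dvd.mul_right h _) _
        have := (hp.dvd_factorial).mp hdf
        omega
      · exact hnd h
  obtain ⟨m, hm, hnd⟩ := key f
  have : (p ^ f - 1) / 3 = m := by omega
  rw [this]
  exact hnd

end H55B
end

-- from Lib.H55B.F3
section

open NumberField IsDedekindDomain

namespace H55B

/-! Chunk F3: the residue field of the completed local ring.
The ring hom O_K -> adicCompletionIntegers -> residue field is surjective with kernel w: kernel = elements of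
valuation < 1; surjective since K is dense in the completion and every y in K with w(y) <= 1 is congruent
modulo the maximal ideal to an element of O_K. Look in Mathlib for adicCompletionIntegers and
ResidueField (RingTheory/DedekindDomain/AdicValuation, NumberField/Completion). -/

open HeightOneSpectrum WithZero in
theorem F3_mem_maximalIdeal (K : Type*) [Field K] [NumberField K] (w : HeightOneSpectrum (𝓞 K))
    (a : w.adicCompletionIntegers K) :
    a ∈ IsLocalRing.maximalIdeal (w.adicCompletionIntegers K) ↔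
      Valued.v (a : w.adicCompletion K) < 1 := by
  rw [IsLocalRing.mem_maximalIdeal, mem_nonunits_iff,
    HeightOneSpectrum.adicCompletionIntegers.isUnit_iff_valued_eq_one]
  have h : Valued.v (a : w.adicCompletion K) ≤ 1 := a.2
  constructor
  · intro h1
    exact lt_of_le_of_ne h h1
  · intro h1
    exact ne_of_lt h1

theorem residue_ker (K : Type*) [Field K] [NumberField K] (w : HeightOneSpectrum (𝓞 K)) :
    RingHom.ker ((IsLocalRing.residue (w.adicCompletionIntegers K)).comp
      (algebraMap (𝓞 K) (w.adicCompletionIntegers K))) = w.asIdeal := by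
  ext x
  rw [RingHom.mem_ker, RingHom.comp_apply, IsLocalRing.residue_eq_zero_iff,
    F3_mem_maximalIdeal, HeightOneSpectrum.algebraMap_adicCompletionIntegers_apply]
  have h : Valued.v ((algebraMap (𝓞 K) K x : K) : w.adicCompletion K) =
      w.valuation K (algebraMap (𝓞 K) K x) :=
    HeightOneSpectrum.valuedAdicCompletion_eq_valuation' w (algebraMap (𝓞 K) K x)
  rw [h, HeightOneSpectrum.valuation_lt_one_iff_mem]

/-- approximation of an element of the completion by an element of the field -/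
theorem F3_approx (K : Type*) [Field K] [NumberField K] (w : HeightOneSpectrum (𝓞 K))
    (y : w.adicCompletion K) : ∃ k : K, Valued.v (y - (k : w.adicCompletion K)) < 1 := by
  obtain ⟨π, hπ⟩ := w.valuation_exists_uniformizer K
  have hπv : Valued.v (π : w.adicCompletion K) = w.valuation K π :=
    HeightOneSpectrum.valuedAdicCompletion_eq_valuation' w π
  have hπ1 : w.valuation K π < 1 := by
    rw [hπ, ← WithZero.exp_zero]
    exact WithZero.exp_lt_exp.mpr (by norm_num)
  have hπ0 : w.valuation K π ≠ 0 := by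
    rw [hπ]
    exact WithZero.exp_ne_zero
  have hπ' : (π : w.adicCompletion K) ≠ 0 := by
    intro h
    apply hπ0
    rw [← hπv, h, map_zero]
  have hopen : IsOpen {z : w.adicCompletion K |
      (y - z) * (π : w.adicCompletion K)⁻¹ ∈ w.adicCompletionIntegers K} := by
    have h1 : IsOpen ((w.adicCompletionIntegers K : Set (w.adicCompletion K))) :=
      Valued.isOpen_valuationSubring (w.adicCompletion K)
    exact h1.preimage ((continuous_const.sub continuous_id).mul continuous_const)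
  obtain ⟨k, hk⟩ := (HeightOneSpectrum.denseRange_algebraMap K w).exists_mem_open hopen
    ⟨y, by
      show (y - y) * (π : w.adicCompletion K)⁻¹ ∈ w.adicCompletionIntegers K
      rw [sub_self, zero_mul]
      exact zero_mem _⟩
  refine ⟨k, ?_⟩
  have hk' : Valued.v ((y - (k : w.adicCompletion K)) * (π : w.adicCompletion K)⁻¹) ≤ 1 := hk
  have h2 : y - (k : w.adicCompletion K) =
      ((y - (k : w.adicCompletion K)) * (π : w.adicCompletion K)⁻¹) * (π : w.adicCompletion K) := by
    rw [mul_assoc, inv_mul_cancel₀ hπ', mul_one]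
  rw [h2, map_mul, hπv]
  calc Valued.v ((y - (k : w.adicCompletion K)) * (π : w.adicCompletion K)⁻¹) * w.valuation K π
      ≤ 1 * w.valuation K π := mul_le_mul_left hk' _
    _ < 1 := by rw [one_mul]; exact hπ1

theorem residue_surj (K : Type*) [Field K] [NumberField K] (w : HeightOneSpectrum (𝓞 K)) :
    Function.Surjective ((IsLocalRing.residue (w.adicCompletionIntegers K)).comp
      (algebraMap (𝓞 K) (w.adicCompletionIntegers K))) := by
  intro b
  obtain ⟨y, rfl⟩ := IsLocalRing.residue_surjective b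
  obtain ⟨k, hk⟩ := F3_approx K w (y : w.adicCompletion K)
  have hkv : Valued.v (k : w.adicCompletion K) = w.valuation K k :=
    HeightOneSpectrum.valuedAdicCompletion_eq_valuation' w k
  have hk1 : w.valuation K k ≤ 1 := by
    rw [← hkv]
    have h1 : (k : w.adicCompletion K) = (y : w.adicCompletion K) - (y - k) := by ring
    rw [h1]
    refine (Valuation.map_sub _ _ _).trans (max_le y.2 hk.le)
  obtain ⟨a, ha⟩ := HeightOneSpectrum.exists_valuation_sub_lt_of_integer w hk1 1
  refine ⟨a, ?_⟩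
  rw [RingHom.comp_apply, ← sub_eq_zero, ← map_sub, IsLocalRing.residue_eq_zero_iff,
    F3_mem_maximalIdeal]
  have h3 : ((algebraMap (𝓞 K) (w.adicCompletionIntegers K) a - y :
      w.adicCompletionIntegers K) : w.adicCompletion K) =
      ((algebraMap (𝓞 K) K a - k : K) : w.adicCompletion K) - ((y : w.adicCompletion K) - k) := by
    have h4 : ((algebraMap (𝓞 K) K a : K) : w.adicCompletion K) =
        ((algebraMap (𝓞 K) K a - k : K) : w.adicCompletion K) + (k : w.adicCompletion K) := by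
      rw [← HeightOneSpectrum.adicCompletion.coe_add, sub_add_cancel]
    show ((algebraMap (𝓞 K) K a : K) : w.adicCompletion K) - (y : w.adicCompletion K) = _
    rw [h4]
    ring
  rw [h3]
  have h5 : Valued.v ((algebraMap (𝓞 K) K a - k : K) : w.adicCompletion K) < 1 := by
    have h6 := HeightOneSpectrum.valuedAdicCompletion_eq_valuation' w (algebraMap (𝓞 K) K a - k)
    rw [h6]
    simpa using ha
  exact lt_of_le_of_lt (Valuation.map_sub _ _ _) (max_lt h5 hk)

theorem residue_card (K : Type*) [Field K] [NumberField K] (w : HeightOneSpectrum (𝓞 K)) :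
    Finite (IsLocalRing.ResidueField (w.adicCompletionIntegers K)) ∧
    Nat.card (IsLocalRing.ResidueField (w.adicCompletionIntegers K)) = Ideal.absNorm w.asIdeal := by
  set φ := (IsLocalRing.residue (w.adicCompletionIntegers K)).comp
      (algebraMap (𝓞 K) (w.adicCompletionIntegers K)) with hφ
  have e1 : (𝓞 K ⧸ RingHom.ker φ) ≃+* IsLocalRing.ResidueField (w.adicCompletionIntegers K) :=
    RingHom.quotientKerEquivOfSurjective (residue_surj K w)
  have e2 : (𝓞 K ⧸ w.asIdeal) ≃+* (𝓞 K ⧸ RingHom.ker φ) :=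
    Ideal.quotEquivOfEq (residue_ker K w).symm
  have hf : Finite (𝓞 K ⧸ w.asIdeal) := w.asIdeal.finiteQuotientOfFreeOfNeBot w.ne_bot
  constructor
  · exact Finite.of_equiv _ (e2.trans e1).toEquiv
  · rw [← Nat.card_congr (e2.trans e1).toEquiv, Ideal.absNorm_apply, Submodule.cardQuot_apply]


end H55B
end

-- from Lib.H55R.HA4
section

namespace H55R

/-! Chunk HA4 (S/M, pure algebra). eq_family: choose y p with R p (y p) and put η p = sum_(i<n) σ^i (y ((τ^i)^-1 p)). Every summand
satisfies R p (iterate heq), the sum of n >= 1 of them too; σ (η p) = sum_(i<n) σ^(i+1) (y ((τ^i)^-1 p)) = sum_(j=1..n) σ^j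
(y ((τ^j)^-1 (τ p))), and the term j = n equals the term j = 0 (σ^n = 1, τ^n = 1).
pos_lemma: let P = {v : a v > 0}. If P is empty all a v <= 0 and the sum is 0, so a = 0. If P is everything the sum is > 0 (or V is empty). Otherwise
sum ha over v' in P: 0 = sum_v a v * s v, s v = sum over v' in P of μ v v'. For v in P: s v = - sum over v' not in P of μ v v' > 0, so
a v * s v > 0. For v not in P: a v <= 0 and s v < 0, so a v * s v >= 0. Contradiction. -/

theorem eq_family {P A : Type} [AddCommGroup A] (n : ℕ) (hn : 0 < n) (τ : Equiv.Perm P)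
    (hτ : τ ^ n = 1) (σ : AddMonoid.End A) (hσ : σ ^ n = 1) (R : P → A → Prop)
    (hadd : ∀ p a b, R p a → R p b → R p (a + b)) (heq : ∀ p a, R p a → R (τ p) (σ a))
    (hex : ∀ p, ∃ a, R p a) : ∃ η : P → A, (∀ p, R p (η p)) ∧ ∀ p, η (τ p) = σ (η p) := by
  choose y hy using hex
  have hit : ∀ (i : ℕ) (q : P), R ((τ ^ i) q) ((σ ^ i) (y q)) := by
    intro i q
    induction i with
    | zero => exact hy q
    | succ i ih =>
      rw [pow_succ', pow_succ']
      exact heq _ _ ih
  have hit2 : ∀ (i : ℕ) (p : P), R p ((σ ^ i) (y ((τ ^ i)⁻¹ p))) := by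
    intro i p
    have h := hit i ((τ ^ i)⁻¹ p)
    have h' : (τ ^ i) ((τ ^ i)⁻¹ p) = p := (τ ^ i).apply_symm_apply p
    rwa [h'] at h
  refine ⟨fun p => ∑ i ∈ Finset.range n, (σ ^ i) (y ((τ ^ i)⁻¹ p)), fun p => ?_, fun p => ?_⟩
  · have h : ∀ m : ℕ, R p (∑ i ∈ Finset.range (m + 1), (σ ^ i) (y ((τ ^ i)⁻¹ p))) := by
      intro m
      induction m with
      | zero =>
        rw [zero_add, Finset.sum_range_one]
        exact hit2 0 p
      | succ m ih =>
        rw [Finset.sum_range_succ]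
        exact hadd _ _ _ ih (hit2 _ p)
    obtain ⟨m, rfl⟩ : ∃ m, n = m + 1 := ⟨n - 1, by omega⟩
    exact h m
  · have h1 : σ (∑ i ∈ Finset.range n, (σ ^ i) (y ((τ ^ i)⁻¹ p))) =
        ∑ i ∈ Finset.range n, (σ ^ (i + 1)) (y ((τ ^ (i + 1))⁻¹ (τ p))) := by
      rw [map_sum]
      refine Finset.sum_congr rfl fun i _ => ?_
      rw [pow_succ' σ i, pow_succ' τ i, mul_inv_rev]
      have h2 : ((τ ^ i)⁻¹ * τ⁻¹) (τ p) = (τ ^ i)⁻¹ p := by
        rw [Equiv.Perm.mul_apply]
        congr 1
        exact τ.symm_apply_apply p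
      rw [h2]
      rfl
    have h3 := Finset.sum_range_succ' (fun j => (σ ^ j) (y ((τ ^ j)⁻¹ (τ p)))) n
    rw [Finset.sum_range_succ] at h3
    have h4 : (σ ^ n) (y ((τ ^ n)⁻¹ (τ p))) = (σ ^ 0) (y ((τ ^ 0)⁻¹ (τ p))) := by
      rw [hσ, hτ, pow_zero, pow_zero]
    rw [h4] at h3
    change ∑ i ∈ Finset.range n, (σ ^ i) (y ((τ ^ i)⁻¹ (τ p))) = _
    rw [h1]
    exact add_right_cancel h3

theorem pos_lemma {V : Type} [Fintype V] [DecidableEq V] (μ : V → V → ℝ)
    (hneg : ∀ v v', v ≠ v' → μ v v' < 0) (hrow : ∀ v, ∑ v', μ v v' = 0) (a : V → ℤ)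
    (ha : ∀ v', ∑ v, (a v : ℝ) * μ v v' = 0) (hs : ∑ v, a v = 0) : a = 0 := by
  classical
  set S : Finset V := Finset.univ.filter fun v => 0 < a v with hS
  have hmem : ∀ v, v ∈ S ↔ 0 < a v := fun v => by simp [hS]
  by_cases hne : S.Nonempty
  · exfalso
    by_cases hne' : Sᶜ.Nonempty
    · obtain ⟨p, hp⟩ := hne
      obtain ⟨q, hq⟩ := hne'
      have hq' : q ∉ S := Finset.mem_compl.1 hq
      have h1 : ∑ v, (a v : ℝ) * ∑ v' ∈ S, μ v v' = 0 := by
        simp only [Finset.mul_sum]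
        rw [Finset.sum_comm]
        exact Finset.sum_eq_zero fun v' _ => ha v'
      have h2 : ∀ v ∈ S, 0 < ∑ v' ∈ S, μ v v' := by
        intro v hv
        have h3 := hrow v
        rw [← Finset.sum_add_sum_compl S] at h3
        have h4 : ∑ v' ∈ Sᶜ, μ v v' < 0 := by
          refine Finset.sum_neg (fun v' hv' => hneg v v' ?_) ⟨q, hq⟩
          rintro rfl
          exact (Finset.mem_compl.1 hv') hv
        linarith
      have h5 : ∀ v, 0 ≤ (a v : ℝ) * ∑ v' ∈ S, μ v v' := by
        intro v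
        by_cases hv : v ∈ S
        · have h6 : (0 : ℝ) < a v := by exact_mod_cast (hmem v).1 hv
          exact (mul_pos h6 (h2 v hv)).le
        · have h6 : (a v : ℝ) ≤ 0 := by
            have : ¬ 0 < a v := fun h => hv ((hmem v).2 h)
            exact_mod_cast not_lt.1 this
          have h7 : ∑ v' ∈ S, μ v v' ≤ 0 := by
            refine Finset.sum_nonpos fun v' hv' => (hneg v v' ?_).le
            rintro rfl
            exact hv hv'
          exact mul_nonneg_of_nonpos_of_nonpos h6 h7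
      have h8 := (Finset.sum_eq_zero_iff_of_nonneg fun v _ => h5 v).1 h1 p (Finset.mem_univ p)
      have h6 : (0 : ℝ) < a p := by exact_mod_cast (hmem p).1 hp
      exact (mul_pos h6 (h2 p hp)).ne' h8
    · have h1 : ∀ v, 0 < a v := by
        intro v
        by_contra hv
        apply hne'
        exact ⟨v, Finset.mem_compl.2 fun h => hv ((hmem v).1 h)⟩
      obtain ⟨p, -⟩ := hne
      have h2 : 0 < ∑ v, a v := Finset.sum_pos (fun v _ => h1 v) ⟨p, Finset.mem_univ p⟩
      omega
  · have h1 : ∀ v, a v ≤ 0 := by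
      intro v
      by_contra hv
      exact hne ⟨v, (hmem v).2 (not_le.1 hv)⟩
    have h2 := (Finset.sum_eq_zero_iff_of_nonpos fun v _ => h1 v).1 hs
    funext v
    exact h2 v (Finset.mem_univ v)

end H55R
end

-- from Lib.H55B.F1
section

open NumberField IsDedekindDomain

namespace H55B

/-! Chunk F1: local polynomial of y^2 + y = x^3 at a place where 3 is a unit.
W = (0,0,1,0,0) is integral with discriminant -27, a unit, so W itself is minimal and the chosen minimal model
W' = C . W has v(disc W') >= v(disc W) = 1, so unit discriminant: good reduction. C = (u, r, s, t): from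
disc' = u^(-12) disc, u is a unit of R. b_6(W) = 1, b_8(W) = b_4 = b_2 = 0:
u^8 b_8' = 3 r (1 + r^3) in R, so r in R (3 unit; if v(r) > 1 then v(3 r^4) > 1). u^2 a_2' = 3 r - s^2 - s a_1
with a_1 = 0, so s in R; u^6 a_6' = r^3 - t - t^2, so t in R (integrally closed). So C reduces to a variable
change over the residue field k, the reduction of W' is the transform of y^2 + y = x^3 over k and has the same
number of points ((x, y) -> (u^2 x + r, u^3 y + s u^2 x + t) is a bijection of affine solutions; for an elliptic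
curve every affine solution is a nonsingular point, Point = affine points plus one). The integral model is
determined since R -> K is injective. -/

theorem F1_Δ (K : Type*) [CommRing K] : (⟨0, 0, 1, 0, 0⟩ : WeierstrassCurve K).Δ = -27 := by
  simp [WeierstrassCurve.Δ, WeierstrassCurve.b₂, WeierstrassCurve.b₄, WeierstrassCurve.b₆,
    WeierstrassCurve.b₈]

theorem F1_isUnit27 {R : Type*} [CommRing R] (h3 : IsUnit (3 : R)) : IsUnit (-27 : R) := by
  have : (-27 : R) = -(3 ^ 3) := by norm_num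
  rw [this]
  exact (h3.pow 3).neg

theorem F1_val_unit (R : Type*) [CommRing R] [IsDomain R] [IsDiscreteValuationRing R] (K : Type*)
    [Field K] [Algebra R K] [IsFractionRing R K] {x : R} (hx : IsUnit x) :
    (IsDiscreteValuationRing.maximalIdeal R).valuation K (algebraMap R K x) = 1 := by
  refine le_antisymm (IsDedekindDomain.HeightOneSpectrum.valuation_le_one _ _) ?_
  by_contra h
  rw [not_le, IsDedekindDomain.HeightOneSpectrum.valuation_lt_one_iff_mem] at h
  exact (IsLocalRing.mem_maximalIdeal x).1 h hx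

theorem F1_good (R : Type*) [CommRing R] [IsDomain R] [IsDiscreteValuationRing R] (K : Type*)
    [Field K] [Algebra R K] [IsFractionRing R K] (h3 : IsUnit (3 : R)) :
    ((⟨0, 0, 1, 0, 0⟩ : WeierstrassCurve K).minimal R).HasGoodReduction R := by
  set W : WeierstrassCurve K := ⟨0, 0, 1, 0, 0⟩ with hW
  obtain ⟨C, hC⟩ : ∃ C : WeierstrassCurve.VariableChange K, W.minimal R = C • W := ⟨_, rfl⟩
  have hmin : WeierstrassCurve.IsMinimal R (W.minimal R) := inferInstance
  rw [WeierstrassCurve.hasGoodReduction_iff]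
  refine ⟨hmin, ?_⟩
  have hWint : WeierstrassCurve.IsIntegral R W := by
    refine ⟨⟨⟨0, 0, 1, 0, 0⟩, ?_⟩⟩
    rw [hW]
    ext <;> simp [WeierstrassCurve.baseChange]
  have hback : C⁻¹ • W.minimal R = W := by rw [hC, inv_smul_smul]
  have hmax := hmin.val_Δ_maximal
  have hj : WeierstrassCurve.IsIntegral R (C⁻¹ • W.minimal R) := by rw [hback]; exact hWint
  have hval : (WeierstrassCurve.valuation_Δ_aux R (C⁻¹ • W.minimal R)).1 = 1 := by
    rw [hback]
    rw [WeierstrassCurve.valuation_Δ_aux_eq_of_isIntegral, hW, F1_Δ]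
    have := F1_val_unit R K (F1_isUnit27 h3)
    rw [map_neg, map_ofNat] at this
    exact this
  have hle : WeierstrassCurve.valuation_Δ_aux R ((1 : WeierstrassCurve.VariableChange K) •
      W.minimal R) ≤ WeierstrassCurve.valuation_Δ_aux R (C⁻¹ • W.minimal R) := by
    rw [← Subtype.coe_le_coe, hval]
    exact (WeierstrassCurve.valuation_Δ_aux R _).2
  have hge := hmax.2 hj hle
  rw [← Subtype.coe_le_coe, hval] at hge
  change 1 ≤ (WeierstrassCurve.valuation_Δ_aux R ((1 : WeierstrassCurve.VariableChange K) •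
      W.minimal R)).1 at hge
  rw [one_smul, WeierstrassCurve.valuation_Δ_aux_eq_of_isIntegral] at hge
  refine le_antisymm ?_ hge
  obtain ⟨r, hr⟩ := WeierstrassCurve.Δ_integral_of_isIntegral R (W.minimal R)
  rw [← hr]
  exact IsDedekindDomain.HeightOneSpectrum.valuation_le_one _ _

theorem F1_core (R : Type*) [CommRing R] [IsDomain R] [IsDiscreteValuationRing R] (K : Type*)
    [Field K] [Algebra R K] [IsFractionRing R K] (h3 : IsUnit (3 : R)) :
    ∃ C : WeierstrassCurve.VariableChange R,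
      WeierstrassCurve.integralModel R ((⟨0, 0, 1, 0, 0⟩ : WeierstrassCurve K).minimal R) =
        C • (⟨0, 0, 1, 0, 0⟩ : WeierstrassCurve R) := by
  set W : WeierstrassCurve K := ⟨0, 0, 1, 0, 0⟩ with hW
  obtain ⟨C, hC⟩ : ∃ C : WeierstrassCurve.VariableChange K, W.minimal R = C • W := ⟨_, rfl⟩
  set I := WeierstrassCurve.integralModel R (W.minimal R) with hI
  have inj : Function.Injective (algebraMap R K) := IsFractionRing.injective R K
  -- the discriminant of the integral model is a unit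
  have hΔ : IsUnit I.Δ := by
    have hg := (F1_good R K h3).goodReduction
    rw [← WeierstrassCurve.integralModel_Δ_eq R] at hg
    by_contra h
    have := (IsDedekindDomain.HeightOneSpectrum.valuation_lt_one_iff_mem
      (K := K) (IsDiscreteValuationRing.maximalIdeal R) I.Δ).2
      ((IsLocalRing.mem_maximalIdeal _).2 h)
    exact absurd hg this.ne
  have eΔ : algebraMap R K I.Δ = ((C.u⁻¹ : Kˣ) : K) ^ 12 * (-27) := by
    rw [hI, WeierstrassCurve.integralModel_Δ_eq, hC, WeierstrassCurve.variableChange_Δ, hW, F1_Δ]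
  have eb₈ : algebraMap R K I.b₈ = ((C.u⁻¹ : Kˣ) : K) ^ 8 * (3 * C.r + 3 * C.r ^ 4) := by
    rw [hI, WeierstrassCurve.integralModel_b₈_eq, hC, WeierstrassCurve.variableChange_b₈, hW]
    simp [WeierstrassCurve.b₂, WeierstrassCurve.b₄, WeierstrassCurve.b₆, WeierstrassCurve.b₈]
  have ea₂ : algebraMap R K I.a₂ = ((C.u⁻¹ : Kˣ) : K) ^ 2 * (3 * C.r - C.s ^ 2) := by
    rw [hI, WeierstrassCurve.integralModel_a₂_eq, hC, WeierstrassCurve.variableChange_a₂, hW]
    simp
  have ea₆ : algebraMap R K I.a₆ = ((C.u⁻¹ : Kˣ) : K) ^ 6 * (C.r ^ 3 - C.t - C.t ^ 2) := by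
    rw [hI, WeierstrassCurve.integralModel_a₆_eq, hC, WeierstrassCurve.variableChange_a₆, hW]
    simp
  set u : K := (C.u : K) with hu
  have hu0 : u ≠ 0 := C.u.ne_zero
  have huinv : ((C.u⁻¹ : Kˣ) : K) = u⁻¹ := Units.val_inv_eq_inv_val _
  rw [huinv] at eΔ eb₈ ea₂ ea₆
  obtain ⟨d, hd⟩ := hΔ
  obtain ⟨m, hm⟩ := F1_isUnit27 h3
  -- u is integral
  have hdm : algebraMap R K d = u⁻¹ ^ 12 * algebraMap R K m := by
    rw [hd, eΔ, hm, map_neg, map_ofNat]
  have hu12 : u ^ 12 = algebraMap R K ((m : R) * ((d⁻¹ : Rˣ) : R)) := by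
    rw [map_mul]
    have h1 : algebraMap R K d * algebraMap R K ((d⁻¹ : Rˣ) : R) = 1 := by
      rw [← map_mul, Units.mul_inv, map_one]
    have h2 : u ^ 12 * algebraMap R K d = algebraMap R K m := by
      rw [hdm, inv_pow, mul_inv_cancel_left₀ (pow_ne_zero _ hu0)]
    calc u ^ 12 = u ^ 12 * (algebraMap R K d * algebraMap R K ((d⁻¹ : Rˣ) : R)) := by rw [h1, mul_one]
      _ = (u ^ 12 * algebraMap R K d) * algebraMap R K ((d⁻¹ : Rˣ) : R) := by ring
      _ = _ := by rw [h2]
  have huinv12 : u⁻¹ ^ 12 = algebraMap R K ((d : R) * ((m⁻¹ : Rˣ) : R)) := by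
    rw [map_mul]
    have h1 : algebraMap R K m * algebraMap R K ((m⁻¹ : Rˣ) : R) = 1 := by
      rw [← map_mul, Units.mul_inv, map_one]
    rw [hdm, mul_assoc, h1, mul_one]
  obtain ⟨u₀, hu₀⟩ : ∃ u₀ : R, algebraMap R K u₀ = u := by
    apply IsIntegrallyClosed.exists_algebraMap_eq_of_isIntegral_pow (n := 12) (by norm_num)
    rw [hu12]; exact isIntegral_algebraMap
  obtain ⟨v₀, hv₀⟩ : ∃ v₀ : R, algebraMap R K v₀ = u⁻¹ := by
    apply IsIntegrallyClosed.exists_algebraMap_eq_of_isIntegral_pow (n := 12) (by norm_num)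
    rw [huinv12]; exact isIntegral_algebraMap
  have huv : u₀ * v₀ = 1 := by
    apply inj
    rw [map_mul, hu₀, hv₀, map_one, mul_inv_cancel₀ hu0]
  -- r
  obtain ⟨w3, hw3⟩ := h3
  have hw3' : algebraMap R K ((w3⁻¹ : Rˣ) : R) * 3 = 1 := by
    have : (3 : K) = algebraMap R K (w3 : R) := by rw [hw3, map_ofNat]
    rw [this, ← map_mul, Units.inv_mul, map_one]
  have hr4 : C.r ^ 4 + C.r = algebraMap R K (((w3⁻¹ : Rˣ) : R) * (u₀ ^ 8 * I.b₈)) := by
    rw [map_mul, map_mul, map_pow, hu₀, eb₈]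
    have : u ^ 8 * (u⁻¹ ^ 8 * (3 * C.r + 3 * C.r ^ 4)) = 3 * (C.r + C.r ^ 4) := by
      field_simp
    rw [this, ← mul_assoc, hw3', one_mul]; ring
  obtain ⟨r₀, hr₀⟩ : ∃ r₀ : R, algebraMap R K r₀ = C.r := by
    rw [← IsIntegrallyClosed.isIntegral_iff]
    refine ⟨Polynomial.X ^ 4 + Polynomial.X -
      Polynomial.C (((w3⁻¹ : Rˣ) : R) * (u₀ ^ 8 * I.b₈)), ?_, ?_⟩
    · monicity!
    · simp only [Polynomial.eval₂_sub, Polynomial.eval₂_add, Polynomial.eval₂_pow,
        Polynomial.eval₂_X, Polynomial.eval₂_C]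
      rw [hr4, sub_self]
  obtain ⟨s₀, hs₀⟩ : ∃ s₀ : R, algebraMap R K s₀ = C.s := by
    apply IsIntegrallyClosed.exists_algebraMap_eq_of_isIntegral_pow (n := 2) (by norm_num)
    have : C.s ^ 2 = algebraMap R K (3 * r₀ - u₀ ^ 2 * I.a₂) := by
      rw [map_sub, map_mul, map_mul, map_pow, hu₀, hr₀, ea₂]
      have : u ^ 2 * (u⁻¹ ^ 2 * (3 * C.r - C.s ^ 2)) = 3 * C.r - C.s ^ 2 := by
        field_simp
      rw [this, map_ofNat]; ring
    rw [this]; exact isIntegral_algebraMap
  obtain ⟨t₀, ht₀⟩ : ∃ t₀ : R, algebraMap R K t₀ = C.t := by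
    rw [← IsIntegrallyClosed.isIntegral_iff]
    have ht2 : C.t ^ 2 + C.t = algebraMap R K (r₀ ^ 3 - u₀ ^ 6 * I.a₆) := by
      rw [map_sub, map_mul, map_pow, map_pow, hu₀, hr₀, ea₆]
      have : u ^ 6 * (u⁻¹ ^ 6 * (C.r ^ 3 - C.t - C.t ^ 2)) = C.r ^ 3 - C.t - C.t ^ 2 := by
        field_simp
      rw [this]; ring
    refine ⟨Polynomial.X ^ 2 + Polynomial.X - Polynomial.C (r₀ ^ 3 - u₀ ^ 6 * I.a₆), ?_, ?_⟩
    · monicity!
    · simp only [Polynomial.eval₂_sub, Polynomial.eval₂_add, Polynomial.eval₂_pow,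
        Polynomial.eval₂_X, Polynomial.eval₂_C]
      rw [ht2, sub_self]
  refine ⟨⟨⟨u₀, v₀, huv, by rw [mul_comm]; exact huv⟩, r₀, s₀, t₀⟩, ?_⟩
  have hmapinj : Function.Injective
      (fun E : WeierstrassCurve R => E.map (algebraMap R K)) := WeierstrassCurve.map_injective inj
  apply hmapinj
  show I.map (algebraMap R K) = (_ : WeierstrassCurve R).map (algebraMap R K)
  rw [← WeierstrassCurve.map_variableChange]
  have e1 : I.map (algebraMap R K) = W.minimal R := WeierstrassCurve.baseChange_integralModel_eq R _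
  rw [e1, hC]
  congr 1
  · ext
    · show u = algebraMap R K u₀
      rw [hu₀]
    · exact hr₀.symm
    · exact hs₀.symm
    · exact ht₀.symm
  · rw [hW]
    ext <;> simp [WeierstrassCurve.map]

theorem F1_count (k : Type*) [Field k] [Finite k] (D : WeierstrassCurve.VariableChange k)
    (h27 : (27 : k) ≠ 0) :
    Nat.card ((D • (⟨0, 0, 1, 0, 0⟩ : WeierstrassCurve k)).toAffine.Point) =
      Nat.card {p : k × k // p.2 ^ 2 + p.2 = p.1 ^ 3} + 1 := by
  set E : WeierstrassCurve k := D • (⟨0, 0, 1, 0, 0⟩ : WeierstrassCurve k) with hE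
  have hΔ : E.Δ ≠ 0 := by
    rw [hE, WeierstrassCurve.variableChange_Δ, F1_Δ]
    exact mul_ne_zero (pow_ne_zero _ (D.u⁻¹).ne_zero) (neg_ne_zero.2 h27)
  rw [Nat.card_congr E.toAffine.nonsingularPointEquiv]
  have h1 : Nat.card (WithZero {xy : k × k // E.toAffine.Nonsingular xy.fst xy.snd}) =
      Nat.card {xy : k × k // E.toAffine.Nonsingular xy.fst xy.snd} + 1 := by
    have : Finite {xy : k × k // E.toAffine.Nonsingular xy.fst xy.snd} := inferInstance
    exact Finite.card_option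
  rw [h1]
  congr 1
  have hu0 : (D.u : k) ≠ 0 := D.u.ne_zero
  have huinv : ((D.u⁻¹ : kˣ) : k) = (D.u : k)⁻¹ := Units.val_inv_eq_inv_val _
  have key : ∀ x y : k, E.toAffine.Nonsingular x y ↔
      ((D.u : k) ^ 3 * y + (D.u : k) ^ 2 * D.s * x + D.t) ^ 2 +
        ((D.u : k) ^ 3 * y + (D.u : k) ^ 2 * D.s * x + D.t) = ((D.u : k) ^ 2 * x + D.r) ^ 3 := by
    intro x y
    rw [← WeierstrassCurve.Affine.equation_iff_nonsingular_of_Δ_ne_zero (W := E.toAffine) hΔ,
      WeierstrassCurve.Affine.equation_iff']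
    have h6 : (D.u : k) ^ 6 ≠ 0 := pow_ne_zero _ hu0
    rw [← mul_right_inj' h6, mul_zero, ← sub_eq_zero (a := _ + _)]
    have : ∀ a b : k, a = b → (a = 0 ↔ b = 0) := fun a b h => by rw [h]
    apply this
    rw [hE]
    simp only [WeierstrassCurve.variableChange_a₁, WeierstrassCurve.variableChange_a₂,
      WeierstrassCurve.variableChange_a₃, WeierstrassCurve.variableChange_a₄,
      WeierstrassCurve.variableChange_a₆, huinv]
    field_simp
    ring
  refine Nat.card_congr
    ⟨fun p => ⟨((D.u : k) ^ 2 * p.1.1 + D.r,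
        (D.u : k) ^ 3 * p.1.2 + (D.u : k) ^ 2 * D.s * p.1.1 + D.t), (key _ _).1 p.2⟩,
      fun q => ⟨(((D.u : k)⁻¹) ^ 2 * (q.1.1 - D.r),
        ((D.u : k)⁻¹) ^ 3 * (q.1.2 - D.s * (q.1.1 - D.r) - D.t)), ?_⟩, ?_, ?_⟩
  · rw [key]
    have e1 : (D.u : k) ^ 2 * (((D.u : k)⁻¹) ^ 2 * (q.1.1 - D.r)) + D.r = q.1.1 := by
      field_simp; ring
    have e2 : (D.u : k) ^ 3 * (((D.u : k)⁻¹) ^ 3 * (q.1.2 - D.s * (q.1.1 - D.r) - D.t)) +
        (D.u : k) ^ 2 * D.s * (((D.u : k)⁻¹) ^ 2 * (q.1.1 - D.r)) + D.t = q.1.2 := by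
      field_simp; ring
    simp only [e1, e2]
    exact q.2
  · rintro ⟨⟨x, y⟩, h⟩
    simp only [Subtype.mk.injEq, Prod.mk.injEq]
    constructor
    · field_simp <;> ring
    · field_simp <;> ring
  · rintro ⟨⟨x, y⟩, h⟩
    simp only [Subtype.mk.injEq, Prod.mk.injEq]
    constructor
    · field_simp <;> ring
    · field_simp <;> ring

open Polynomial in
theorem good_local (R : Type*) [CommRing R] [IsDomain R] [IsDiscreteValuationRing R] (K : Type*)
    [Field K] [Algebra R K] [IsFractionRing R K] [Finite (IsLocalRing.ResidueField R)]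
    (h3 : IsUnit (3 : R)) :
    (⟨0, 0, 1, 0, 0⟩ : WeierstrassCurve K).localPolynomial R =
      1 - C ((Nat.card (IsLocalRing.ResidueField R) : ℤ) -
        Nat.card {p : IsLocalRing.ResidueField R × IsLocalRing.ResidueField R //
          p.2 ^ 2 + p.2 = p.1 ^ 3}) * X + C (Nat.card (IsLocalRing.ResidueField R) : ℤ) * X ^ 2 := by
  obtain ⟨D, hD⟩ := F1_core R K h3
  have hred : ((⟨0, 0, 1, 0, 0⟩ : WeierstrassCurve K).minimal R).reduction R =
      (D.map (IsLocalRing.residue R)) •
        (⟨0, 0, 1, 0, 0⟩ : WeierstrassCurve (IsLocalRing.ResidueField R)) := by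
    unfold WeierstrassCurve.reduction
    rw [hD, ← WeierstrassCurve.map_variableChange]
    have : (⟨0, 0, 1, 0, 0⟩ : WeierstrassCurve R).map (IsLocalRing.residue R) =
        (⟨0, 0, 1, 0, 0⟩ : WeierstrassCurve (IsLocalRing.ResidueField R)) := by
      ext <;> simp [WeierstrassCurve.map]
    rw [this]
  have h27 : (27 : IsLocalRing.ResidueField R) ≠ 0 := by
    have h := (F1_isUnit27 h3).map (IsLocalRing.residue R)
    have h' := h.ne_zero
    intro h0
    apply h'
    rw [map_neg]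
    have : IsLocalRing.residue R 27 = (27 : IsLocalRing.ResidueField R) := map_ofNat _ 27
    rw [this, h0, neg_zero]
  have hcount := F1_count (IsLocalRing.ResidueField R) (D.map (IsLocalRing.residue R)) h27
  unfold WeierstrassCurve.localPolynomial
  rw [if_pos (F1_good R K h3), hred, hcount]
  push_cast
  congr 3
  congr 1
  ring

end H55B
end
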