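import Mathlib
import Pool.Agent.Lib.H1M.PP2.M007
import Pool.Agent.Lib.H1M.PP2.M010
import Pool.Agent.Lib.H1M.PP2.M016

/-! Merged copies (to shorten the build) of Lib.H35P.A3, Lib.H35P.A4, Lib.H35P.A5, Lib.H35P.A6, Lib.H35P.A7, Lib.H35P.A8, Lib.H35P.B1, Lib.H35P.R3, Lib.H35P.R4, Lib.H35P.FG, Lib.H35P.RD, Lib.H35P.SL, Lib.H55K.W1C, Lib.H55K.W2B, Lib.H55K.W3B, Lib.H55K.W4B, Lib.H55K.W6A, Lib.H55K.W6B, Lib.H55R.HA6, Lib.H55R.HA7, Lib.H55R.HC7. -/

-- from Lib.H35P.A3
section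

namespace H35P

/-! Chunk A3: the Eisenstein sums of a general lattice (after Lib/H55N/E1.lean). -/

/-- The correction term. -/
noncomputable def a3_k (R : ℝ) (y : ℂ) : ℂ := (starRingEnd ℂ) y / ((R ^ 2 + ‖y‖ ^ 2 : ℝ) : ℂ)

theorem a3_term (R : ℝ) (hR : 0 < R) (y : ℂ) :
    y⁻¹ * ((R ^ 2 / (R ^ 2 + ‖y‖ ^ 2) : ℝ) : ℂ) = y⁻¹ - a3_k R y := by
  by_cases hy : y = 0
  · simp [hy, a3_k]
  · have h1 : (R ^ 2 + ‖y‖ ^ 2 : ℝ) ≠ 0 := by positivity
    have h1' : ((R ^ 2 + ‖y‖ ^ 2 : ℝ) : ℂ) ≠ 0 := by exact_mod_cast h1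
    have h2 : y * (starRingEnd ℂ) y = ((‖y‖ ^ 2 : ℝ) : ℂ) := by
      rw [Complex.mul_conj, Complex.normSq_eq_norm_sq]
    unfold a3_k
    rw [Complex.ofReal_div]
    have h3 : ((R ^ 2 : ℝ) : ℂ) = ((R ^ 2 + ‖y‖ ^ 2 : ℝ) : ℂ) - y * (starRingEnd ℂ) y := by
      rw [h2]
      push_cast
      ring
    rw [h3, sub_div, div_self h1']
    field_simp

theorem a3_low (R : ℝ) (hR : 1 ≤ R) (y w : ℂ) :
    (1 + ‖y‖) ^ 2 ≤ 4 * (1 + ‖w‖ ^ 2) * (R ^ 2 + ‖y + w‖ ^ 2) := by
  have hR1 : 1 ≤ R ^ 2 := by nlinarith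
  have h1 : ‖y‖ ≤ ‖y + w‖ + ‖w‖ := by
    have := norm_sub_le (y + w) w
    rwa [add_sub_cancel_right] at this
  have h2 : ‖y‖ ^ 2 ≤ 2 * ‖y + w‖ ^ 2 + 2 * ‖w‖ ^ 2 := by
    calc ‖y‖ ^ 2 ≤ (‖y + w‖ + ‖w‖) ^ 2 := pow_le_pow_left₀ (norm_nonneg y) h1 2
      _ ≤ 2 * ‖y + w‖ ^ 2 + 2 * ‖w‖ ^ 2 := by linarith [sq_nonneg (‖y + w‖ - ‖w‖)]
  have h3 : (1 + ‖y‖) ^ 2 ≤ 2 * (1 + ‖y‖ ^ 2) := by linarith [sq_nonneg (1 - ‖y‖)]
  have h4 : 0 ≤ ‖w‖ ^ 2 * ‖y + w‖ ^ 2 := by positivity
  have h5 : ‖w‖ ^ 2 * 1 ≤ ‖w‖ ^ 2 * R ^ 2 := by gcongr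
  have h6 : 4 * (1 + ‖w‖ ^ 2) * (R ^ 2 + ‖y + w‖ ^ 2) = 4 * R ^ 2 + 4 * ‖y + w‖ ^ 2 +
    4 * (‖w‖ ^ 2 * R ^ 2) + 4 * (‖w‖ ^ 2 * ‖y + w‖ ^ 2) := by ring
  rw [h6]
  have h7 : 0 ≤ ‖y + w‖ ^ 2 := by positivity
  linarith

theorem a3_sd (R : ℝ) (hR : 1 ≤ R) (y w : ℂ) :
    ‖a3_k R (y + w) + a3_k R (y - w) - 2 * a3_k R y‖ ≤
      (14 * ‖w‖ ^ 2 + 2 * (‖w‖ ^ 2) ^ 2) * (16 * (1 + ‖w‖ ^ 2) ^ 2) * (1 + ‖y‖) ^ (-3 : ℝ) := by
  set q : ℝ := R ^ 2 + ‖y‖ ^ 2 with hq
  set qp : ℝ := R ^ 2 + ‖y + w‖ ^ 2 with hqp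
  set qm : ℝ := R ^ 2 + ‖y - w‖ ^ 2 with hqm
  set s : ℝ := 2 * (y * (starRingEnd ℂ) w).re with hs
  set d : ℝ := ‖w‖ ^ 2 with hd
  have hd0 : 0 ≤ d := by positivity
  have hR1 : 1 ≤ R ^ 2 := by nlinarith
  have q0 : 0 < q := by positivity
  have qp0 : 0 < qp := by positivity
  have qm0 : 0 < qm := by positivity
  have e1 : qp = q + d + s := by
    rw [hqp, hq, hd, hs, Complex.sq_norm, Complex.sq_norm, Complex.sq_norm,
      Complex.normSq_add]
    ring
  have e2 : qm = q + d - s := by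
    rw [hqm, hq, hd, hs, Complex.sq_norm, Complex.sq_norm, Complex.sq_norm,
      Complex.normSq_sub]
    ring
  have hsb : |s| ≤ 2 * (‖y‖ * ‖w‖) := by
    rw [hs, abs_mul, abs_two]
    have := Complex.abs_re_le_norm (y * (starRingEnd ℂ) w)
    rw [norm_mul, Complex.norm_conj] at this
    linarith
  have cq : (q : ℂ) ≠ 0 := by exact_mod_cast q0.ne'
  have cqp : (qp : ℂ) ≠ 0 := by exact_mod_cast qp0.ne'
  have cqm : (qm : ℂ) ≠ 0 := by exact_mod_cast qm0.ne'
  have key : a3_k R (y + w) + a3_k R (y - w) - 2 * a3_k R y =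
      (starRingEnd ℂ) y * ((-2 * q * d - 2 * d ^ 2 + 2 * s ^ 2) / (q * qp * qm) : ℝ) -
        (starRingEnd ℂ) w * ((2 * s / (qp * qm) : ℝ) : ℂ) := by
    unfold a3_k
    rw [← hq, ← hqp, ← hqm]
    rw [map_add, map_sub]
    push_cast
    have c1 : (qp : ℂ) = q + d + s := by rw [e1]; push_cast; ring
    have c2 : (qm : ℂ) = q + d - s := by rw [e2]; push_cast; ring
    rw [c1] at cqp
    rw [c2] at cqm
    rw [c1, c2]
    field_simp
    ring
  rw [key]
  have hy2 : ‖y‖ ^ 2 ≤ q := by rw [hq]; nlinarith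
  have hs2 : s ^ 2 ≤ 4 * q * d := by
    have h1 : s ^ 2 ≤ (2 * (‖y‖ * ‖w‖)) ^ 2 := by
      rw [← sq_abs s]
      exact pow_le_pow_left₀ (abs_nonneg _) hsb 2
    calc s ^ 2 ≤ 4 * (‖y‖ ^ 2) * d := by rw [hd]; nlinarith
      _ ≤ 4 * q * d := by gcongr
  have hq1 : 1 ≤ q := by rw [hq]; nlinarith [sq_nonneg ‖y‖]
  have b1 : |(-2 * q * d - 2 * d ^ 2 + 2 * s ^ 2)| ≤ q * (10 * d + 2 * d ^ 2) := by
    rw [abs_le]
    have h5 : d ^ 2 ≤ q * d ^ 2 := by nlinarith [sq_nonneg d]
    have h6 : 0 ≤ q * d := by positivity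
    have h7 : 0 ≤ s ^ 2 := sq_nonneg s
    constructor
    · nlinarith
    · nlinarith [sq_nonneg d]
  have n1 : ‖(starRingEnd ℂ) y * ((-2 * q * d - 2 * d ^ 2 + 2 * s ^ 2) / (q * qp * qm) : ℝ)‖ ≤
      ‖y‖ * ((10 * d + 2 * d ^ 2) / (qp * qm)) := by
    rw [norm_mul, Complex.norm_conj, Complex.norm_real, Real.norm_eq_abs, abs_div]
    have h8 : 0 < q * qp * qm := by positivity
    rw [abs_of_pos h8]
    have h9 : (10 * d + 2 * d ^ 2) / (qp * qm) = q * (10 * d + 2 * d ^ 2) / (q * qp * qm) := by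
      field_simp
    rw [h9]
    gcongr
  have n2 : ‖(starRingEnd ℂ) w * ((2 * s / (qp * qm) : ℝ) : ℂ)‖ ≤
      ‖y‖ * (4 * d / (qp * qm)) := by
    rw [norm_mul, Complex.norm_conj, Complex.norm_real, Real.norm_eq_abs, abs_div]
    have h8 : 0 < qp * qm := by positivity
    rw [abs_of_pos h8, abs_mul, abs_two]
    have h9 : ‖w‖ * (2 * |s|) ≤ ‖y‖ * (4 * d) := by
      rw [hd]
      nlinarith [norm_nonneg w, norm_nonneg y]
    calc ‖w‖ * (2 * |s| / (qp * qm)) = ‖w‖ * (2 * |s|) / (qp * qm) := by ring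
      _ ≤ ‖y‖ * (4 * d) / (qp * qm) := by gcongr
      _ = _ := by ring
  have low1 : (1 + ‖y‖) ^ 2 ≤ 4 * (1 + d) * qp := a3_low R hR y w
  have low2 : (1 + ‖y‖) ^ 2 ≤ 4 * (1 + d) * qm := by
    have := a3_low R hR y (-w)
    rwa [norm_neg, ← sub_eq_add_neg] at this
  have hy0 : 0 < 1 + ‖y‖ := by positivity
  have low : (1 + ‖y‖) ^ 4 ≤ 16 * (1 + d) ^ 2 * (qp * qm) := by
    calc (1 + ‖y‖) ^ 4 = (1 + ‖y‖) ^ 2 * (1 + ‖y‖) ^ 2 := by ring
      _ ≤ (4 * (1 + d) * qp) * (4 * (1 + d) * qm) := by gcongr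
      _ = _ := by ring
  have hr : (1 + ‖y‖) ^ (-3 : ℝ) = 1 / (1 + ‖y‖) ^ 3 := by
    rw [Real.rpow_neg hy0.le]
    norm_num
  have hfin : ‖y‖ * ((14 * d + 2 * d ^ 2) / (qp * qm)) ≤
      (14 * d + 2 * d ^ 2) * (16 * (1 + d) ^ 2) * (1 + ‖y‖) ^ (-3 : ℝ) := by
    rw [hr, mul_one_div, ← mul_div_assoc, div_le_div_iff₀ (by positivity) (by positivity)]
    have h5 : ‖y‖ * (1 + ‖y‖) ^ 3 ≤ (1 + ‖y‖) ^ 4 := by
      have : (1 + ‖y‖) ^ 4 = (1 + ‖y‖) * (1 + ‖y‖) ^ 3 := by ring
      rw [this]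
      gcongr
      linarith
    have h6 : 0 ≤ 14 * d + 2 * d ^ 2 := by positivity
    calc ‖y‖ * (14 * d + 2 * d ^ 2) * (1 + ‖y‖) ^ 3
        = (14 * d + 2 * d ^ 2) * (‖y‖ * (1 + ‖y‖) ^ 3) := by ring
      _ ≤ (14 * d + 2 * d ^ 2) * (16 * (1 + d) ^ 2 * (qp * qm)) :=
          mul_le_mul_of_nonneg_left (h5.trans low) h6
      _ = _ := by ring
  calc _ ≤ ‖y‖ * ((10 * d + 2 * d ^ 2) / (qp * qm)) + ‖y‖ * (4 * d / (qp * qm)) :=
        (norm_sub_le _ _).trans (add_le_add n1 n2)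
    _ = ‖y‖ * ((14 * d + 2 * d ^ 2) / (qp * qm)) := by ring
    _ ≤ _ := hfin

variable (L : PeriodPair)

theorem a3_fin (r : ℝ) : {l : L.lattice | ‖(l : ℂ)‖ ≤ r}.Finite := by
  refine (isCompact_iff_finite.mp (isCompact_closedBall (0 : L.lattice) r)).subset ?_
  intro l hl
  rw [Metric.mem_closedBall, dist_zero_right]
  exact hl

theorem a3_base {r : ℝ} (hr : 2 < r) : Summable (fun l : L.lattice => (1 + ‖(l : ℂ)‖) ^ (-r)) := by
  have h1 : Summable fun z : L.lattice => ‖(z : ℂ)‖ ^ (-r) := by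
    refine ZLattice.summable_norm_rpow (L := L.lattice) (-r) ?_
    rw [PeriodPair.finrank_lattice]
    push_cast
    linarith
  refine h1.of_norm_bounded_eventually ?_
  rw [Filter.eventually_cofinite]
  refine Set.Finite.subset (Set.finite_singleton (0 : L.lattice)) ?_
  intro x hx
  rw [Set.mem_singleton_iff]
  by_contra hne
  apply hx
  have h2 : 0 < ‖(x : ℂ)‖ := norm_pos_iff.2 (fun h => hne (Subtype.ext h))
  rw [Real.norm_of_nonneg (by positivity)]
  exact Real.rpow_le_rpow_of_nonpos h2 (by linarith) (by linarith)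

theorem a3_lowl (w : ℂ) (x : L.lattice) (h : 2 * ‖w‖ + 1 ≤ ‖(x : ℂ)‖) :
    (1 + ‖(x : ℂ)‖) / 4 ≤ ‖w + x‖ := by
  have h1 : ‖(x : ℂ)‖ ≤ ‖w + x‖ + ‖w‖ := by
    calc ‖(x : ℂ)‖ = ‖(w + x) - w‖ := by ring_nf
      _ ≤ ‖w + x‖ + ‖w‖ := norm_sub_le _ _
  have h3 : 0 ≤ ‖w‖ := norm_nonneg w
  linarith

/-- Summability along a coset of the lattice. -/
theorem a3_summable (a : ℂ) : Summable fun x : L.lattice => (1 + ‖a + x‖) ^ (-3 : ℝ) := by
  have h1 : Summable (fun x : L.lattice => 64 * (1 + ‖(x : ℂ)‖) ^ (-(3 : ℝ))) :=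
    (a3_base L (by norm_num)).mul_left _
  refine h1.of_norm_bounded_eventually ?_
  rw [Filter.eventually_cofinite]
  refine (a3_fin L (2 * ‖a‖ + 1)).subset ?_
  intro x hx
  simp only [Set.mem_ofPred_eq] at hx ⊢
  by_contra hne
  apply hx
  have h2 := a3_lowl L a x (not_le.mp hne).le
  have h3 : 0 < 1 + ‖(x : ℂ)‖ := by positivity
  rw [Real.norm_eq_abs, abs_of_nonneg (by positivity)]
  have h5 : 64 * (1 + ‖(x : ℂ)‖) ^ (-(3 : ℝ)) = ((1 + ‖(x : ℂ)‖) / 4) ^ (-(3 : ℝ)) := by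
    rw [Real.rpow_neg h3.le, Real.rpow_neg (by positivity)]
    norm_num
    field_simp
    norm_num
  rw [h5]
  exact Real.rpow_le_rpow_of_nonpos (by positivity) (by linarith) (by norm_num)

/-- Second differences of the correction terms. -/
noncomputable def a3_d (R : ℝ) (a w : ℂ) (x : L.lattice) : ℂ :=
  a3_k R (a + w + x) + a3_k R (a - w + x) - 2 * a3_k R (a + x)

theorem a3_d_le (R : ℝ) (hR : 1 ≤ R) (a w : ℂ) (x : L.lattice) : ‖a3_d L R a w x‖ ≤
    (14 * ‖w‖ ^ 2 + 2 * (‖w‖ ^ 2) ^ 2) * (16 * (1 + ‖w‖ ^ 2) ^ 2) *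
      (1 + ‖a + x‖) ^ (-3 : ℝ) := by
  have h := a3_sd R hR (a + x) w
  have e1 : a + x + w = a + w + x := by ring
  have e2 : a + x - w = a - w + x := by ring
  rw [e1, e2] at h
  exact h

theorem a3_d_summable (R : ℝ) (hR : 1 ≤ R) (a w : ℂ) : Summable (a3_d L R a w) :=
  ((a3_summable L a).mul_left _).of_norm_bounded (a3_d_le L R hR a w)

theorem a3_k_tendsto (y : ℂ) : Filter.Tendsto (fun R : ℝ => a3_k R y) Filter.atTop (nhds 0) := by
  unfold a3_k
  have h1 : Filter.Tendsto (fun R : ℝ => R ^ 2 + ‖y‖ ^ 2) Filter.atTop Filter.atTop :=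
    Filter.tendsto_atTop_add_const_right _ _ (Filter.tendsto_pow_atTop two_ne_zero)
  have h2 : Filter.Tendsto (fun R : ℝ => (((R ^ 2 + ‖y‖ ^ 2)⁻¹ : ℝ) : ℂ)) Filter.atTop
      (nhds ((0 : ℝ) : ℂ)) :=
    (Complex.continuous_ofReal.tendsto _).comp (tendsto_inv_atTop_zero.comp h1)
  have h3 := h2.const_mul ((starRingEnd ℂ) y)
  rw [Complex.ofReal_zero, mul_zero] at h3
  refine h3.congr fun R => ?_
  rw [Complex.ofReal_inv, div_eq_mul_inv]

theorem a3_d_tendsto (a w : ℂ) :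
    Filter.Tendsto (fun R : ℝ => ∑' x : L.lattice, a3_d L R a w x) Filter.atTop (nhds 0) := by
  have h0 : (∑' _ : L.lattice, (0 : ℂ)) = 0 := tsum_zero
  rw [← h0]
  refine tendsto_tsum_of_dominated_convergence
    (((a3_summable L a).mul_left _)) (fun x => ?_) ?_ (bound := fun x : L.lattice =>
      (14 * ‖w‖ ^ 2 + 2 * (‖w‖ ^ 2) ^ 2) * (16 * (1 + ‖w‖ ^ 2) ^ 2) *
      (1 + ‖a + x‖) ^ (-3 : ℝ))
  · have := ((a3_k_tendsto (a + w + x)).add (a3_k_tendsto (a - w + x))).sub
      ((a3_k_tendsto (a + x)).const_mul 2)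
    simp only [add_zero, mul_zero, sub_zero] at this
    exact this
  · filter_upwards [Filter.eventually_ge_atTop 1] with R hR x
    exact a3_d_le L R hR a w x

theorem a3_sR_aux (R : ℝ) (hR : 0 < R) (z : ℂ) : Summable fun x : L.lattice =>
    ‖(z + x)⁻¹ * ((R ^ 2 / (R ^ 2 + ‖z + x‖ ^ 2) : ℝ) : ℂ)‖ := by
  have h1 : Summable (fun x : L.lattice => 64 * R ^ 2 * (1 + ‖(x : ℂ)‖) ^ (-(3 : ℝ))) :=
    (a3_base L (by norm_num)).mul_left _
  refine h1.of_norm_bounded_eventually ?_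
  rw [Filter.eventually_cofinite]
  refine (a3_fin L (2 * ‖z‖ + 1)).subset ?_
  intro x hx
  simp only [Set.mem_ofPred_eq] at hx ⊢
  by_contra hne
  apply hx
  have h2 := a3_lowl L z x (not_le.mp hne).le
  have h3 : 0 < 1 + ‖(x : ℂ)‖ := by positivity
  have h4 : 0 < ‖z + x‖ := by linarith
  rw [norm_norm, norm_mul, norm_inv, Complex.norm_real, Real.norm_eq_abs,
    abs_of_nonneg (by positivity)]
  have h5 : (1 + ‖(x : ℂ)‖) ^ (-(3 : ℝ)) = 1 / (1 + ‖(x : ℂ)‖) ^ 3 := by
    rw [Real.rpow_neg h3.le]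
    norm_num
  rw [h5]
  calc ‖z + x‖⁻¹ * (R ^ 2 / (R ^ 2 + ‖z + x‖ ^ 2))
      ≤ ((1 + ‖(x : ℂ)‖) / 4)⁻¹ * (R ^ 2 / (((1 + ‖(x : ℂ)‖) / 4) ^ 2)) := by
        gcongr
        nlinarith [sq_nonneg R]
    _ = 64 * R ^ 2 * (1 / (1 + ‖(x : ℂ)‖) ^ 3) := by
        field_simp
        norm_num

theorem a3_sR_summable (R : ℝ) (hR : 0 < R) (z : ℂ) : Summable fun x : L.lattice =>
    (z + x)⁻¹ * ((R ^ 2 / (R ^ 2 + ‖z + x‖ ^ 2) : ℝ) : ℂ) :=
  (a3_sR_aux L R hR z).of_norm

theorem a3_split (R : ℝ) (hR : 0 < R) (a w : ℂ) (x : L.lattice) :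
    tT L a w x = ((a + w + x)⁻¹ *
        ((R ^ 2 / (R ^ 2 + ‖a + w + x‖ ^ 2) : ℝ) : ℂ) +
      (a - w + x)⁻¹ * ((R ^ 2 / (R ^ 2 + ‖a - w + x‖ ^ 2) : ℝ) : ℂ) -
      2 * ((a + x)⁻¹ * ((R ^ 2 / (R ^ 2 + ‖a + x‖ ^ 2) : ℝ) : ℂ))) +
      a3_d L R a w x := by
  rw [a3_term R hR, a3_term R hR, a3_term R hR]
  unfold tT a3_d
  ring

theorem tT_summable (a w : ℂ) : Summable (tT L a w) := by
  have h1 := (((a3_sR_summable L 1 one_pos (a + w)).add (a3_sR_summable L 1 one_pos (a - w))).sub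
    ((a3_sR_summable L 1 one_pos a).mul_left 2)).add (a3_d_summable L 1 le_rfl a w)
  refine h1.congr fun x => ?_
  exact (a3_split L 1 one_pos a w x).symm

theorem a3_tsum (R : ℝ) (hR : 1 ≤ R) (a w : ℂ) : ∑' x, tT L a w x =
    sL L R (a + w) + sL L R (a - w) - 2 * sL L R a + ∑' x, a3_d L R a w x := by
  have hR0 : 0 < R := by linarith
  have s1 := a3_sR_summable L R hR0 (a + w)
  have s2 := a3_sR_summable L R hR0 (a - w)
  have s3 := (a3_sR_summable L R hR0 a).mul_left 2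
  unfold sL
  rw [← tsum_mul_left, ← s1.tsum_add s2, ← (s1.add s2).tsum_sub s3,
    ← ((s1.add s2).sub s3).tsum_add (a3_d_summable L R hR a w)]
  exact tsum_congr fun x => a3_split L R hR0 a w x

theorem sL_lim (a w : ℂ) : Filter.Tendsto (fun R : ℝ => sL L R (a + w) + sL L R (a - w) - 2 * sL L R a)
    Filter.atTop (nhds (T2 L a w)) := by
  have h1 : Filter.Tendsto (fun R : ℝ => (∑' x, tT L a w x) - ∑' x, a3_d L R a w x) Filter.atTop
      (nhds ((∑' x, tT L a w x) - 0)) := tendsto_const_nhds.sub (a3_d_tendsto L a w)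
  rw [sub_zero] at h1
  unfold T2
  refine h1.congr' ?_
  filter_upwards [Filter.eventually_ge_atTop 1] with R hR
  rw [a3_tsum L R hR a w]
  ring

theorem sL_per (R : ℝ) (z l : ℂ) (hl : l ∈ L.lattice) : sL L R (z + l) = sL L R z := by
  unfold sL
  rw [← (Equiv.addLeft (⟨l, hl⟩ : L.lattice)).tsum_eq (fun x : L.lattice => (z + x)⁻¹ *
    ((R ^ 2 / (R ^ 2 + ‖z + x‖ ^ 2) : ℝ) : ℂ))]
  refine tsum_congr fun x => ?_
  have e1 : ((Equiv.addLeft (⟨l, hl⟩ : L.lattice)) x : ℂ) = l + x := rfl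
  rw [e1]
  have e2 : z + l + (x : ℂ) = z + (l + x) := by ring
  rw [e2]

theorem sL_neg (R : ℝ) (z : ℂ) : sL L R (-z) = -sL L R z := by
  unfold sL
  rw [← (Equiv.neg L.lattice).tsum_eq (fun x : L.lattice => (-z + x)⁻¹ *
    ((R ^ 2 / (R ^ 2 + ‖-z + x‖ ^ 2) : ℝ) : ℂ)), ← tsum_neg]
  refine tsum_congr fun x => ?_
  have e1 : ((Equiv.neg L.lattice) x : ℂ) = -(x : ℂ) := rfl
  rw [e1]
  have e2 : -z + -(x : ℂ) = -(z + x) := by ring
  rw [e2, norm_neg, inv_neg]
  ring

end H35P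
end

-- from Lib.H35P.A4
section

namespace H35P

variable (L : PeriodPair)

/-! Chunk A4 (M). Copy of T_formula in Lib/H55N/E1.lean (second part of the file, from E1_F on) for a general lattice. T2 L a w is
E1_F a w. Periodicity of w ↦ T2 L a w: from sL_lim, sL_per and uniqueness of limits (see E1_F_per). At 0: wp_zero suffices,
T2 = w^2 Rex(w) with Rex(0) = -℘'(a), and w^2 (℘ a - ℘ w) → -1. If 2a lies in the lattice both sides are 0 (E1_half, E1_wpd_half).
Liouville = liouville of A1. -/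

theorem A4_F_per (a w l : ℂ) (hl : l ∈ L.lattice) : T2 L a (w + l) = T2 L a w := by
  refine tendsto_nhds_unique (sL_lim L a (w + l)) ?_
  refine (sL_lim L a w).congr fun R => ?_
  have e1 : a + (w + l) = a + w + l := by ring
  have e2 : a - (w + l) = a - w + -l := by ring
  rw [e1, e2, sL_per L R _ l hl, sL_per L R _ (-l) (neg_mem hl)]

theorem A4_F_neg (a w : ℂ) : T2 L a (-w) = T2 L a w := by
  unfold T2 tT
  refine tsum_congr fun x => ?_
  rw [sub_neg_eq_add, ← sub_eq_add_neg]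
  ring

/-! ### The elliptic function -/

/-- The terms of the sum. -/
noncomputable def A4_tm (a l w : ℂ) : ℂ := 2 / (((a + l) ^ 2 - w ^ 2) * (a + l))

/-- The sum without one term. -/
noncomputable def A4_Rex (a l₀ w : ℂ) : ℂ :=
  ∑' l : L.lattice, if l.1 = l₀ then 0 else A4_tm a l.1 w

theorem A4_bound (a : ℂ) (r : ℝ) (hr : 0 < r) (w : ℂ) (hw : ‖w‖ < r) (l : ℂ)
    (h : 2 * r + 2 * ‖a‖ ≤ ‖l‖) : ‖A4_tm a l w‖ ≤ 16 * ‖l‖ ^ (-3 : ℝ) := by
  have ha := norm_nonneg a
  have hl : 0 < ‖l‖ := by linarith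
  have h1 : ‖l‖ / 2 ≤ ‖a + l‖ := by
    have := norm_sub_norm_le l (-a)
    rw [norm_neg] at this
    have e1 : l - -a = a + l := by ring
    rw [e1] at this
    linarith
  have h2 : ‖l‖ / 2 ≤ ‖a + l - w‖ := by
    have := norm_sub_norm_le l (-a + w)
    have e1 : l - (-a + w) = a + l - w := by ring
    rw [e1] at this
    have h3 : ‖-a + w‖ ≤ ‖a‖ + ‖w‖ := by
      refine (norm_add_le _ _).trans ?_
      rw [norm_neg]
    linarith
  have h2' : ‖l‖ / 2 ≤ ‖a + l + w‖ := by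
    have := norm_sub_norm_le l (-a - w)
    have e1 : l - (-a - w) = a + l + w := by ring
    rw [e1] at this
    have h3 : ‖-a - w‖ ≤ ‖a‖ + ‖w‖ := by
      refine (norm_sub_le _ _).trans ?_
      rw [norm_neg]
    linarith
  unfold A4_tm
  have e2 : ((a + l) ^ 2 - w ^ 2) * (a + l) = (a + l - w) * (a + l + w) * (a + l) := by ring
  rw [e2, norm_div, norm_mul, norm_mul]
  have h4 : (‖l‖ / 2) * (‖l‖ / 2) * (‖l‖ / 2) ≤ ‖a + l - w‖ * ‖a + l + w‖ * ‖a + l‖ := by
    gcongr
  have h5 : (‖l‖ : ℝ) ^ (-3 : ℝ) = 1 / ‖l‖ ^ 3 := by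
    rw [Real.rpow_neg hl.le]
    norm_num
  rw [h5]
  have h6 : 0 < (‖l‖ / 2) * (‖l‖ / 2) * (‖l‖ / 2) := by positivity
  calc ‖(2 : ℂ)‖ / (‖a + l - w‖ * ‖a + l + w‖ * ‖a + l‖)
      ≤ ‖(2 : ℂ)‖ / ((‖l‖ / 2) * (‖l‖ / 2) * (‖l‖ / 2)) := by gcongr
    _ = 16 * (1 / ‖l‖ ^ 3) := by
        rw [Complex.norm_ofNat]
        field_simp
        norm_num

theorem A4_hasSum (a l₀ : ℂ) : HasSumLocallyUniformly
    (fun (l : L.lattice) (w : ℂ) => if l.1 = l₀ then 0 else A4_tm a l.1 w) (A4_Rex L a l₀) := by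
  refine L.hasSumLocallyUniformly_aux (u := fun _ => (16 * ‖·‖ ^ (-3 : ℝ))) _
    (fun _ _ => (ZLattice.summable_norm_rpow _ _ (by simp; norm_num)).mul_left _) fun r hr =>
    Filter.eventually_atTop.mpr ⟨2 * r + 2 * ‖a‖, ?_⟩
  rintro _ h s hs l rfl
  split_ifs
  · rw [norm_zero]
    positivity
  · exact A4_bound a r hr s hs l h

/-- The domain. -/
def A4_U (a l₀ : ℂ) : Set ℂ :=
  {w | w - a ∈ ((L.lattice : Set ℂ) \ {l₀})ᶜ ∧ -w - a ∈ ((L.lattice : Set ℂ) \ {l₀})ᶜ}

theorem A4_U_open (a l₀ : ℂ) : IsOpen (A4_U L a l₀) := by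
  have h1 : IsOpen {w : ℂ | w - a ∈ ((L.lattice : Set ℂ) \ {l₀})ᶜ} :=
    L.isOpen_compl_lattice_sdiff.preimage (by fun_prop)
  have h2 : IsOpen {w : ℂ | -w - a ∈ ((L.lattice : Set ℂ) \ {l₀})ᶜ} :=
    L.isOpen_compl_lattice_sdiff.preimage (by fun_prop)
  exact h1.inter h2

variable {L}

theorem A4_ne {a : ℂ} (ha : a ∉ L.lattice) {l : ℂ} (hl : l ∈ L.lattice) : a + l ≠ 0 := by
  intro h
  apply ha
  have : a = -l := by linear_combination h
  rw [this]
  exact neg_mem hl

theorem A4_analytic {a : ℂ} (ha : a ∉ L.lattice) (l₀ : ℂ) :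
    AnalyticOnNhd ℂ (A4_Rex L a l₀) (A4_U L a l₀) := by
  refine DifferentiableOn.analyticOnNhd ?_ (A4_U_open L a l₀)
  refine (A4_hasSum L a l₀).hasSumLocallyUniformlyOn.differentiableOn
    (.of_forall fun s => .fun_sum fun i hi => ?_) (A4_U_open L a l₀)
  split_ifs with hl
  · exact differentiableOn_const 0
  · unfold A4_tm
    refine .div (by fun_prop) (by fun_prop) ?_
    intro w hw
    refine mul_ne_zero ?_ (A4_ne ha i.2)
    have e1 : (a + (i : ℂ)) ^ 2 - w ^ 2 = (a + i - w) * (a + i + w) := by ring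
    rw [e1]
    refine mul_ne_zero ?_ ?_
    · intro h
      apply hw.1
      have e2 : w - a = i := by linear_combination -h
      rw [e2]
      exact ⟨i.2, hl⟩
    · intro h
      apply hw.2
      have e2 : -w - a = i := by linear_combination -h
      rw [e2]
      exact ⟨i.2, hl⟩

theorem A4_F_eq {a : ℂ} (ha : a ∉ L.lattice) {w : ℂ} (h1 : a + w ∉ L.lattice) (h2 : a - w ∉ L.lattice) :
    T2 L a w = w ^ 2 * ∑' l : L.lattice, A4_tm a l.1 w := by
  unfold T2
  rw [← tsum_mul_left]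
  congr 1
  funext x
  show (a + w + x)⁻¹ + (a - w + x)⁻¹ - 2 * (a + x)⁻¹ =
    w ^ 2 * (2 / (((a + x) ^ 2 - w ^ 2) * (a + x)))
  have n1 : a + w + x ≠ 0 := A4_ne h1 x.2
  have n2 : a - w + x ≠ 0 := A4_ne h2 x.2
  have n3 : a + x ≠ 0 := A4_ne ha x.2
  have e1 : (a + (x : ℂ)) ^ 2 - w ^ 2 = (a + w + x) * (a - w + x) := by ring
  rw [e1]
  field_simp
  ring

theorem A4_F_one {a : ℂ} (ha : a ∉ L.lattice) {w : ℂ} (h1 : a + w ∉ L.lattice) (h2 : a - w ∉ L.lattice) :
    T2 L a w = w ^ 2 * A4_Rex L a a w := by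
  rw [A4_F_eq ha h1 h2]
  congr 1
  unfold A4_Rex
  congr 1
  funext l
  rw [if_neg]
  intro h
  apply ha
  rw [← h]
  exact l.2

theorem A4_Rex_add (a w : ℂ) :
    ∑' l : L.lattice, A4_tm a l.1 w = A4_Rex L a 0 w + A4_tm a 0 w := by
  classical
  have h0 : (∑' l : L.lattice, if l = 0 then A4_tm a 0 w else 0) = A4_tm a 0 w := by
    rw [tsum_ite_eq]
  conv_rhs => rw [← h0]
  unfold A4_Rex
  rw [← Summable.tsum_add]
  · congr 1
    funext l
    by_cases hl : l.1 = 0
    · have hl' : l = 0 := Subtype.ext hl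
      rw [if_pos hl, if_pos hl', zero_add, hl]
    · have hl' : l ≠ 0 := fun h => hl (by rw [h]; rfl)
      rw [if_neg hl, if_neg hl', add_zero]
  · exact ⟨_, (A4_hasSum L a 0).hasSum⟩
  · exact summable_of_hasFiniteSupport ((Set.finite_singleton (0 : L.lattice)).subset (by simp))

theorem A4_F_zero {a : ℂ} (ha : a ∉ L.lattice) {w : ℂ} (h1 : a + w ∉ L.lattice) (h2 : a - w ∉ L.lattice) :
    T2 L a w = w ^ 2 * (A4_Rex L a 0 w + 2 / ((a ^ 2 - w ^ 2) * a)) := by
  rw [A4_F_eq ha h1 h2, A4_Rex_add]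
  congr 2
  unfold A4_tm
  rw [add_zero]

theorem A4_Rex_zero {a : ℂ} (ha : a ∉ L.lattice) : A4_Rex L a a 0 = -L.derivWeierstrassP a := by
  unfold A4_Rex PeriodPair.derivWeierstrassP
  rw [neg_neg, ← (Equiv.neg L.lattice).tsum_eq]
  congr 1
  funext l
  have hl : l.1 ∈ L.lattice := l.2
  rw [if_neg]
  · show A4_tm a (-l.1) 0 = 2 / (a - l.1) ^ 3
    unfold A4_tm
    congr 1
    ring
  · intro h
    apply ha
    have h' : -l.1 = a := h
    rw [← h']
    exact neg_mem hl

theorem A4_ev (a z₀ : ℂ) : ∀ᶠ z in nhdsWithin z₀ {z₀}ᶜ, a + z ∉ L.lattice ∧ a - z ∉ L.lattice := by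
  have h1 := (tendsto_punct (fun z => a + z) z₀ (by fun_prop) (fun b c h => by
    have : a + b = a + c := h
    linear_combination this)).eventually (ev_compl L _)
  have h2 := (tendsto_punct (fun z => a - z) z₀ (by fun_prop) (fun b c h => by
    have : a - b = a - c := h
    linear_combination -this)).eventually (ev_compl L _)
  filter_upwards [h1, h2] with z h3 h4 using ⟨h3, h4⟩

variable (L)

/-- The elliptic function. -/
noncomputable def A4_D (a w : ℂ) : ℂ := T2 L a w * (L.weierstrassP a - L.weierstrassP w)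

/-- Removable singularity. -/
def A4_Rem (a z₀ : ℂ) : Prop := ∃ b : ℂ → ℂ, AnalyticAt ℂ b z₀ ∧
  ∀ᶠ z in nhdsWithin z₀ {z₀}ᶜ, A4_D L a z = b z

theorem A4_D_per (a z : ℂ) (l : ℂ) (hl : l ∈ L.lattice) : A4_D L a (z + l) = A4_D L a z := by
  unfold A4_D
  rw [A4_F_per L a z l hl, L.weierstrassP_add_coe z ⟨l, hl⟩]

theorem A4_D_neg (a z : ℂ) : A4_D L a (-z) = A4_D L a z := by
  unfold A4_D
  rw [A4_F_neg, L.weierstrassP_neg]

variable {L}

theorem A4_Rem_per {a z₀ : ℂ} (h : A4_Rem L a z₀) {y : ℂ} (hy : y ∈ L.lattice) : A4_Rem L a (z₀ + y) := by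
  obtain ⟨b, ha, h⟩ := h
  refine ⟨fun z => b (z - y), ?_, ?_⟩
  · have : AnalyticAt ℂ b ((z₀ + y) - y) := by rw [add_sub_cancel_right]; exact ha
    exact this.comp (f := fun w : ℂ => w - y) (by fun_prop)
  · have ht := tendsto_punct (fun z => z - y) (z₀ + y) (by fun_prop) (fun a b h => by
      have : a - y = b - y := h
      linear_combination this)
    simp only [add_sub_cancel_right] at ht
    filter_upwards [ht.eventually h] with z h3
    rw [← h3, ← A4_D_per L a (z - y) y hy, sub_add_cancel]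

theorem A4_Rem_neg {a z₀ : ℂ} (h : A4_Rem L a z₀) : A4_Rem L a (-z₀) := by
  obtain ⟨b, ha, h⟩ := h
  refine ⟨fun z => b (-z), ?_, ?_⟩
  · have : AnalyticAt ℂ b (-(-z₀)) := by rw [neg_neg]; exact ha
    exact this.comp (f := fun w : ℂ => -w) (by fun_prop)
  · have ht := tendsto_punct (fun z => -z) (-z₀) (by fun_prop) neg_injective
    simp only [neg_neg] at ht
    filter_upwards [ht.eventually h] with z h3
    rw [← h3, A4_D_neg]

theorem A4_U_one {a z : ℂ} (h1 : a + z ∉ L.lattice) (h2 : a - z ∉ L.lattice) (l₀ : ℂ) : z ∈ A4_U L a l₀ := by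
  constructor
  · intro h
    apply h2
    have := neg_mem h.1
    have e1 : -(z - a) = a - z := by ring
    rwa [e1] at this
  · intro h
    apply h1
    have := neg_mem h.1
    have e1 : -(-z - a) = a + z := by ring
    rwa [e1] at this

theorem A4_D_analytic {a z : ℂ} (ha : a ∉ L.lattice) (h0 : z ∉ L.lattice) (h1 : a + z ∉ L.lattice)
    (h2 : a - z ∉ L.lattice) : AnalyticAt ℂ (A4_D L a) z := by
  have a1 := A4_analytic ha a z (A4_U_one h1 h2 a)
  have a2 := wp_analytic L z h0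
  have a3 : AnalyticAt ℂ (fun w => w ^ 2 * A4_Rex L a a w * (L.weierstrassP a - L.weierstrassP w)) z := by
    fun_prop
  refine a3.congr ?_
  have o1 : ∀ᶠ w in nhds z, a + w ∉ L.lattice :=
    ((compl_open L).preimage (f := fun w : ℂ => a + w) (by fun_prop)).mem_nhds h1
  have o2 : ∀ᶠ w in nhds z, a - w ∉ L.lattice :=
    ((compl_open L).preimage (f := fun w : ℂ => a - w) (by fun_prop)).mem_nhds h2
  filter_upwards [o1, o2] with w h3 h4
  unfold A4_D
  rw [A4_F_one ha h3 h4]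

theorem A4_at_zero {a : ℂ} (ha : a ∉ L.lattice) : ∃ b : ℂ → ℂ, AnalyticAt ℂ b 0 ∧
    b 0 = L.derivWeierstrassP a ∧ ∀ᶠ z in nhdsWithin (0 : ℂ) {0}ᶜ, A4_D L a z = b z := by
  obtain ⟨u, hu, hu0, hexp⟩ := wp_zero L
  have hU : (0 : ℂ) ∈ A4_U L a a := by
    apply A4_U_one
    · rw [add_zero]; exact ha
    · rw [sub_zero]; exact ha
  have a1 := A4_analytic ha a 0 hU
  refine ⟨fun w => A4_Rex L a a w * (w ^ 2 * L.weierstrassP a - 1 - w ^ 2 * u w), by fun_prop, ?_, ?_⟩
  · simp only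
    rw [A4_Rex_zero ha]
    ring
  · filter_upwards [A4_ev (L := L) a 0, self_mem_nhdsWithin] with w h2 hw
    have hw' : w ≠ 0 := hw
    unfold A4_D
    rw [A4_F_one ha h2.1 h2.2, hexp w hw']
    field_simp
    ring

theorem A4_at_a {a : ℂ} (ha : a ∉ L.lattice) (h2a : 2 * a ∉ L.lattice) : A4_Rem L a a := by
  have ha0 : a ≠ 0 := by
    rintro rfl
    exact ha (zero_mem _)
  have hU : a ∈ A4_U L a 0 := by
    constructor
    · intro h
      apply h.2
      rw [sub_self]
      rfl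
    · intro h
      apply h2a
      have := neg_mem h.1
      have e1 : -(-a - a) = 2 * a := by ring
      rwa [e1] at this
  have a1 := A4_analytic ha 0 a hU
  have a2 := wp_analytic L a ha
  have a3 : AnalyticAt ℂ (dslope L.weierstrassP a) a := by
    obtain ⟨p, hp⟩ := a2
    exact ⟨_, hp.has_fpower_series_dslope_fslope⟩
  have a4 : AnalyticAt ℂ (fun w : ℂ => 2 * w ^ 2 / ((a + w) * a)) a := by
    refine AnalyticAt.div (by fun_prop) (by fun_prop) ?_
    refine mul_ne_zero ?_ ha0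
    rw [← two_mul]
    exact mul_ne_zero two_ne_zero ha0
  obtain ⟨q, hq⟩ : ∃ q : ℂ → ℂ, q = fun w : ℂ => 2 * w ^ 2 / ((a + w) * a) := ⟨_, rfl⟩
  rw [← hq] at a4
  refine ⟨fun w => w ^ 2 * A4_Rex L a 0 w * (L.weierstrassP a - L.weierstrassP w) +
    q w * dslope L.weierstrassP a w, by fun_prop, ?_⟩
  filter_upwards [A4_ev (L := L) a a, self_mem_nhdsWithin] with w h2 hw
  have hw' : w ≠ a := hw
  have hw1 : a - w ≠ 0 := sub_ne_zero.2 hw'.symm
  have hw1' : w - a ≠ 0 := sub_ne_zero.2 hw'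
  have hw2 : a + w ≠ 0 := by
    intro h
    apply h2.1
    rw [h]
    exact zero_mem _
  unfold A4_D
  rw [A4_F_zero ha h2.1 h2.2, hq, dslope_of_ne _ hw', slope_def_field]
  have e1 : a ^ 2 - w ^ 2 = (a - w) * (a + w) := by ring
  rw [e1]
  field_simp
  ring

theorem A4_all {a : ℂ} (ha : a ∉ L.lattice) (h2a : 2 * a ∉ L.lattice) (z₀ : ℂ) : A4_Rem L a z₀ := by
  by_cases c0 : z₀ ∈ L.lattice
  · obtain ⟨b, hb, -, h⟩ := A4_at_zero ha
    have h0 : A4_Rem L a 0 := ⟨b, hb, h⟩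
    have := A4_Rem_per h0 c0
    rwa [zero_add] at this
  · by_cases c1 : a + z₀ ∈ L.lattice
    · have h1 := A4_Rem_per (A4_Rem_neg (A4_at_a ha h2a)) c1
      have e1 : -a + (a + z₀) = z₀ := by ring
      rwa [e1] at h1
    · by_cases c2 : a - z₀ ∈ L.lattice
      · have h1 := A4_Rem_per (A4_at_a ha h2a) (neg_mem c2)
        have e1 : a + -(a - z₀) = z₀ := by ring
        rwa [e1] at h1
      · exact ⟨A4_D L a, A4_D_analytic ha c0 c1 c2, Filter.Eventually.of_forall fun z => rfl⟩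

/-- The half period case. -/
theorem A4_half {a : ℂ} (h2a : 2 * a ∈ L.lattice) (w : ℂ) : T2 L a w = 0 := by
  have h1 : T2 L a w = -T2 L a w := by
    conv_lhs => unfold T2
    rw [← (Equiv.subLeft (-(⟨2 * a, h2a⟩ : L.lattice))).tsum_eq (tT L a w)]
    unfold T2
    rw [← tsum_neg]
    refine tsum_congr fun x => ?_
    show tT L a w (-(⟨2 * a, h2a⟩ : L.lattice) - x) = -tT L a w x
    unfold tT
    have e0 : ((-(⟨2 * a, h2a⟩ : L.lattice) - x : L.lattice) : ℂ) = -(2 * a) - x := rfl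
    rw [e0]
    have e1 : a + w + (-(2 * a) - (x : ℂ)) = -(a - w + x) := by ring
    have e2 : a - w + (-(2 * a) - (x : ℂ)) = -(a + w + x) := by ring
    have e3 : a + (-(2 * a) - (x : ℂ)) = -(a + x) := by ring
    rw [e1, e2, e3, inv_neg, inv_neg, inv_neg]
    ring
  have h2 : 2 * T2 L a w = 0 := by linear_combination h1
  rcases mul_eq_zero.1 h2 with h | h
  · norm_num at h
  · exact h

theorem A4_wpd_half {a : ℂ} (h2a : 2 * a ∈ L.lattice) : L.derivWeierstrassP a = 0 := by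
  have h3 := L.derivWeierstrassP_add_coe (-a) ⟨2 * a, h2a⟩
  rw [L.derivWeierstrassP_neg] at h3
  have h4 : -a + ((⟨2 * a, h2a⟩ : L.lattice) : ℂ) = a := by
    show -a + 2 * a = a
    ring
  rw [h4] at h3
  have h7 : 2 * L.derivWeierstrassP a = 0 := by linear_combination h3
  rcases mul_eq_zero.1 h7 with h | h
  · norm_num at h
  · exact h

variable (L)

theorem T_formula (a w : ℂ) (ha : a ∉ L.lattice) (hw : w ∉ L.lattice) (h1 : a + w ∉ L.lattice)
    (h2 : a - w ∉ L.lattice) :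
    T2 L a w * (L.weierstrassP a - L.weierstrassP w) = L.derivWeierstrassP a := by
  by_cases h2a : 2 * a ∈ L.lattice
  · rw [A4_half h2a, A4_wpd_half h2a, zero_mul]
  · obtain ⟨c, hc⟩ := liouville L (A4_D L a) (A4_D_per L a) (A4_all ha h2a)
    obtain ⟨b, hb, hb0, h⟩ := A4_at_zero ha
    have e1 := hc 0 b hb.continuousAt h
    have e2 : A4_D L a w = c := hc w (A4_D L a) (A4_D_analytic ha hw h1 h2).continuousAt
      (Filter.Eventually.of_forall fun z => rfl)
    show A4_D L a w = L.derivWeierstrassP a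
    rw [e2, ← e1, hb0]

/-- T2 has a pole at w = a if 2a is not in the lattice. -/
theorem T2_pole (a : ℂ) (ha : a ∉ L.lattice) (h2a : 2 * a ∉ L.lattice) :
    ∀ᶠ w in nhdsWithin a {a}ᶜ, T2 L a w ≠ 0 := by
  have ha0 : a ≠ 0 := by
    rintro rfl
    exact ha (zero_mem _)
  have hU : a ∈ A4_U L a 0 := by
    constructor
    · intro h
      apply h.2
      rw [sub_self]
      rfl
    · intro h
      apply h2a
      have := neg_mem h.1
      have e1 : -(-a - a) = 2 * a := by ring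
      rwa [e1] at this
  have a1 := A4_analytic ha 0 a hU
  have a4 : ContinuousAt (fun w : ℂ => w ^ 2 * ((a ^ 2 - w ^ 2) * A4_Rex L a 0 w + 2 / a)) a := by
    have := a1.continuousAt
    fun_prop
  have hne : (fun w : ℂ => w ^ 2 * ((a ^ 2 - w ^ 2) * A4_Rex L a 0 w + 2 / a)) a ≠ 0 := by
    simp only [sub_self, zero_mul, zero_add]
    exact mul_ne_zero (pow_ne_zero 2 ha0) (div_ne_zero two_ne_zero ha0)
  have hev : ∀ᶠ w in nhdsWithin a {a}ᶜ, w ^ 2 * ((a ^ 2 - w ^ 2) * A4_Rex L a 0 w + 2 / a) ≠ 0 :=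
    (a4.eventually_ne hne).filter_mono nhdsWithin_le_nhds
  filter_upwards [hev, A4_ev (L := L) a a, self_mem_nhdsWithin] with w h1 h2 hw
  have hw' : w ≠ a := hw
  have hw1 : a - w ≠ 0 := sub_ne_zero.2 hw'.symm
  have hw2 : a + w ≠ 0 := by
    intro h
    apply h2.1
    rw [h]
    exact zero_mem _
  have hq : a ^ 2 - w ^ 2 ≠ 0 := by
    have e1 : a ^ 2 - w ^ 2 = (a - w) * (a + w) := by ring
    rw [e1]
    exact mul_ne_zero hw1 hw2
  intro h0
  apply h1
  rw [A4_F_zero ha h2.1 h2.2] at h0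
  have e2 : w ^ 2 * ((a ^ 2 - w ^ 2) * A4_Rex L a 0 w + 2 / a) =
      (a ^ 2 - w ^ 2) * (w ^ 2 * (A4_Rex L a 0 w + 2 / ((a ^ 2 - w ^ 2) * a))) := by
    field_simp
  rw [e2, h0, mul_zero]

end H35P
end

-- from Lib.H35P.A5
section

namespace H35P

variable (L : PeriodPair)

/-! Chunk A5 (M). The Weierstrass zeta function. ζ(z) = ∑' l : L.lattice, ((z - l)⁻¹ + l⁻¹ + z / l^2); for l = 0 the term is z⁻¹ (junk values).
Bound for 2 ‖z‖ ≤ ‖l‖: |(z-l)⁻¹ + l⁻¹ + z/l^2| = |z^2/(l^2 (z-l))| ≤ 2 ‖z‖^2 ‖l‖^(-3). Use L.hasSumLocallyUniformly_aux exactly as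
in Mathlib's hasSumLocallyUniformly_weierstrassPExcept / weierstrassP, and differentiate termwise as in
eqOn_deriv_weierstrassPExcept_derivWeierstrassPExcept (Mathlib/Analysis/SpecialFunctions/Elliptic/Weierstrass.lean), or as in
E1_hasSum / E1_analytic in Lib/H55N/E1.lean: the derivative of the term is -(1/(z-l)^2 - 1/l^2).
The second statement: the linear terms cancel, (a+w-l)⁻¹ + (a-w-l)⁻¹ - 2 (a-l)⁻¹, reindex l → -l. -/

/-- A term of the zeta function. -/
noncomputable def A5_t (l z : ℂ) : ℂ := (z - l)⁻¹ + l⁻¹ + z / l ^ 2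

theorem A5_bound (r : ℝ) (hr : 0 < r) (s : ℂ) (hs : ‖s‖ < r) (l : ℂ) (h : 2 * r ≤ ‖l‖) :
    ‖A5_t l s‖ ≤ 2 * r ^ 2 * ‖l‖ ^ (-3 : ℝ) := by
  have hl0 : 0 < ‖l‖ := by linarith
  have hl : l ≠ 0 := norm_pos_iff.1 hl0
  have h1 : ‖l‖ / 2 ≤ ‖s - l‖ := by
    have := norm_sub_norm_le l s
    rw [norm_sub_rev] at this
    linarith
  have h1' : 0 < ‖s - l‖ := by linarith
  have hsl : s - l ≠ 0 := norm_pos_iff.1 h1'
  have e1 : A5_t l s = s ^ 2 / (l ^ 2 * (s - l)) := by
    unfold A5_t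
    field_simp
    ring
  have e2 : ‖l‖ ^ (-3 : ℝ) = 1 / ‖l‖ ^ 3 := by
    rw [Real.rpow_neg hl0.le]
    norm_num
  rw [e1, e2, norm_div, norm_mul, norm_pow, norm_pow, mul_one_div]
  rw [div_le_div_iff₀ (by positivity) (by positivity)]
  calc ‖s‖ ^ 2 * ‖l‖ ^ 3 ≤ r ^ 2 * ‖l‖ ^ 3 := by gcongr
    _ = 2 * r ^ 2 * (‖l‖ ^ 2 * (‖l‖ / 2)) := by ring
    _ ≤ 2 * r ^ 2 * (‖l‖ ^ 2 * ‖s - l‖) := by gcongr

/-- The zeta function. -/
noncomputable def A5_z (z : ℂ) : ℂ := ∑' l : L.lattice, A5_t l.1 z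

theorem A5_unif : HasSumLocallyUniformly (fun (l : L.lattice) (z : ℂ) => A5_t l.1 z) (A5_z L) := by
  refine L.hasSumLocallyUniformly_aux (u := (2 * · ^ 2 * ‖·‖ ^ (-3 : ℝ))) _
    (fun _ _ => (ZLattice.summable_norm_rpow _ _ (by simp; norm_num)).mul_left _) fun r hr =>
    Filter.eventually_atTop.mpr ⟨2 * r, ?_⟩
  rintro _ h s hs l rfl
  exact A5_bound r hr s hs l h

theorem A5_term_deriv (l z : ℂ) (h : z ≠ l) : HasDerivAt (A5_t l) (-(1 / (z - l) ^ 2 - 1 / l ^ 2)) z := by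
  have hz : z - l ≠ 0 := sub_ne_zero.2 h
  have h1 : HasDerivAt (fun z : ℂ => z - l) 1 z := (hasDerivAt_id z).sub_const l
  have h2 : HasDerivAt (fun z : ℂ => (z - l)⁻¹) (-1 / (z - l) ^ 2) z := h1.inv hz
  have h3 : HasDerivAt (fun z : ℂ => z / l ^ 2) (1 / l ^ 2) z := (hasDerivAt_id z).div_const _
  have h4 := (h2.add_const l⁻¹).add h3
  refine h4.congr_deriv ?_
  ring

theorem A5_diffOn (s : Finset L.lattice) :
    DifferentiableOn ℂ (fun z => ∑ l ∈ s, A5_t l.1 z) (L.lattice : Set ℂ)ᶜ := by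
  refine .fun_sum fun i _ => ?_
  intro z hz
  refine (A5_term_deriv i.1 z ?_).differentiableAt.differentiableWithinAt
  rintro rfl
  exact hz i.2

theorem A5_hasDeriv (z : ℂ) (hz : z ∉ L.lattice) : HasDerivAt (A5_z L) (-L.weierstrassP z) z := by
  have ho : IsOpen ((L.lattice : Set ℂ)ᶜ) := L.isClosed_lattice.isOpen_compl
  have hu : TendstoLocallyUniformlyOn (fun (s : Finset L.lattice) (z : ℂ) => ∑ l ∈ s, A5_t l.1 z) (A5_z L)
      Filter.atTop (L.lattice : Set ℂ)ᶜ := (A5_unif L).tendstoLocallyUniformlyOn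
  have hd : ∀ᶠ s : Finset L.lattice in Filter.atTop, DifferentiableOn ℂ (fun z => ∑ l ∈ s, A5_t l.1 z)
      (L.lattice : Set ℂ)ᶜ := .of_forall fun s => A5_diffOn L s
  have h1 : DifferentiableAt ℂ (A5_z L) z :=
    (hu.differentiableOn hd ho).differentiableAt (ho.mem_nhds hz)
  have h2 := (hu.deriv hd ho).tendsto_at (show z ∈ (L.lattice : Set ℂ)ᶜ from hz)
  have h3 : Filter.Tendsto (fun s : Finset L.lattice => ∑ l ∈ s, (-(1 / (z - l.1) ^ 2 - 1 / l.1 ^ 2)))
      Filter.atTop (nhds (-L.weierstrassP z)) := (L.hasSum_weierstrassP z).neg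
  have h4 : deriv (A5_z L) z = -L.weierstrassP z := by
    refine tendsto_nhds_unique h2 (h3.congr fun s => ?_)
    have h5 : HasDerivAt (fun z : ℂ => ∑ l ∈ s, A5_t (l : L.lattice).1 z)
        (∑ l ∈ s, (-(1 / (z - l.1) ^ 2 - 1 / l.1 ^ 2))) z := by
      refine HasDerivAt.fun_sum fun i _ => A5_term_deriv i.1 z ?_
      rintro rfl
      exact hz i.2
    exact h5.deriv.symm
  rw [← h4]
  exact h1.hasDerivAt

theorem A5_sum (a w : ℂ) : HasSum (tT L a w) (A5_z L (a + w) + A5_z L (a - w) - 2 * A5_z L a) := by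
  have h : ∀ z : ℂ, HasSum (fun l : L.lattice => A5_t l.1 z) (A5_z L z) := fun z => (A5_unif L).hasSum
  have h1 := ((h (a + w)).add (h (a - w))).sub ((h a).mul_left 2)
  rw [← (Equiv.neg L.lattice).hasSum_iff]
  refine h1.congr_fun ?_
  intro l
  show tT L a w (-l) = _
  unfold tT A5_t
  rw [NegMemClass.coe_neg]
  ring

theorem zeta_exists : ∃ ζ : ℂ → ℂ,
    (∀ z : ℂ, z ∉ L.lattice → HasDerivAt ζ (-L.weierstrassP z) z) ∧
    ∀ a w : ℂ, HasSum (tT L a w) (ζ (a + w) + ζ (a - w) - 2 * ζ a) :=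
  ⟨A5_z L, A5_hasDeriv L, A5_sum L⟩

end H35P
end

-- from Lib.H35P.A6
section

namespace H35P

variable (L : PeriodPair)

/-! Chunk A6 (M). p = ℘ a, q = ℘ w, p' = ℘' a, q' = ℘' w, δ = p - q. By zeta_exists and T_formula, for all (a, w) in the open set
a, w, a + w, a - w not in the lattice, ℘ a ≠ ℘ w: ζ(a+w) + ζ(a-w) - 2ζ(a) = p'/δ.
Differentiate in a: -℘(a+w) - ℘(a-w) + 2p = (W δ - p'^2)/δ^2 with W = 6p^2 - g₂/2 (wpd_hasDeriv).
Differentiate in w: -℘(a+w) + ℘(a-w) = p' q'/δ^2.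
Sum: 2p - 2℘(a+w) = W/δ - p'^2/δ^2 + p'q'/δ^2, and with p'^2 = 4p^3 - g₂p - g₃, q'^2 = 4q^3 - g₂q - g₃ this is add_x.
add_y: differentiate add_x in w: ℘'(a+w) = (m/2) dm/dw - q', dm/dw = (-(6q^2 - g₂/2) δ + (p' - q') q')/δ^2, and use the
equations again (field_simp, linear_combination). -/

private theorem A6_alg_x (p q p' q' g2 g3 x y : ℂ) (hd : p - q ≠ 0) (hp : p' ^ 2 = 4 * p ^ 3 - g2 * p - g3)
    (hq : q' ^ 2 = 4 * q ^ 3 - g2 * q - g3)
    (h1 : -x + -y - 2 * -p = ((6 * p ^ 2 - g2 / 2) * (p - q) - p' * p') / (p - q) ^ 2)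
    (h2 : -x + - -y - 0 = (0 * (p - q) - p' * (0 - q')) / (p - q) ^ 2) :
    x = ((p' - q') / (p - q)) ^ 2 / 4 - p - q := by
  have e1 : x = p - (((6 * p ^ 2 - g2 / 2) * (p - q) - p' * p') / (p - q) ^ 2
      + (0 * (p - q) - p' * (0 - q')) / (p - q) ^ 2) / 2 := by
    rw [← h1, ← h2]
    ring
  rw [e1]
  field_simp
  linear_combination 4 * hp - 4 * hq

private theorem A6_alg_y (p q p' q' g2 g3 x y m : ℂ) (hd : p - q ≠ 0) (hp : p' ^ 2 = 4 * p ^ 3 - g2 * p - g3)
    (hq : q' ^ 2 = 4 * q ^ 3 - g2 * q - g3) (hm : m = (p' - q') / (p - q))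
    (hx : x = m ^ 2 / 4 - p - q)
    (h1 : y = 2 * m * (((0 - (6 * q ^ 2 - g2 / 2)) * (p - q) - (p' - q') * (0 - q')) / (p - q) ^ 2) / 4 - 0 - q') :
    y = -(q' + m * (x - q)) := by
  have key : (((0 - (6 * q ^ 2 - g2 / 2)) * (p - q) - (p' - q') * (0 - q')) / (p - q) ^ 2) / 2
      + m ^ 2 / 4 - p - 2 * q = 0 := by
    rw [hm]
    field_simp
    linear_combination 4 * hp - 4 * hq
  rw [h1, hx]
  linear_combination m * key

theorem A6_ev (a w : ℂ) (ha : a ∉ L.lattice) (hw : w ∉ L.lattice) (h1 : a + w ∉ L.lattice)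
    (h2 : a - w ∉ L.lattice) (hne : L.weierstrassP a ≠ L.weierstrassP w) :
    (∀ᶠ x in nhds a, x ∉ L.lattice ∧ x + w ∉ L.lattice ∧ x - w ∉ L.lattice ∧
      L.weierstrassP x ≠ L.weierstrassP w) ∧
    ∀ᶠ y in nhds w, y ∉ L.lattice ∧ a + y ∉ L.lattice ∧ a - y ∉ L.lattice ∧
      L.weierstrassP a ≠ L.weierstrassP y := by
  have ho := compl_open L
  have hev : ∀ (f : ℂ → ℂ) (c : ℂ), Continuous f → f c ∉ L.lattice → ∀ᶠ x in nhds c, f x ∉ L.lattice := by
    intro f c hf hc
    exact hf.continuousAt.eventually (ho.mem_nhds hc)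
  constructor
  · have i4 : ∀ᶠ x in nhds a, L.weierstrassP x ≠ L.weierstrassP w :=
      (wp_analytic L a ha).continuousAt.eventually_ne hne
    filter_upwards [hev id a continuous_id ha, hev (fun x => x + w) a (by fun_prop) h1,
      hev (fun x => x - w) a (by fun_prop) h2, i4] with x j1 j2 j3 j4
    exact ⟨j1, j2, j3, j4⟩
  · have i4 : ∀ᶠ x in nhds w, L.weierstrassP x ≠ L.weierstrassP a :=
      (wp_analytic L w hw).continuousAt.eventually_ne hne.symm
    filter_upwards [hev id w continuous_id hw, hev (fun x => a + x) w (by fun_prop) h1,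
      hev (fun x => a - x) w (by fun_prop) h2, i4] with x j1 j2 j3 j4
    exact ⟨j1, j2, j3, j4.symm⟩

theorem add_x (a w : ℂ) (ha : a ∉ L.lattice) (hw : w ∉ L.lattice) (h1 : a + w ∉ L.lattice)
    (h2 : a - w ∉ L.lattice) (hne : L.weierstrassP a ≠ L.weierstrassP w) :
    L.weierstrassP (a + w) = (mc L a w) ^ 2 / 4 - L.weierstrassP a - L.weierstrassP w := by
  obtain ⟨ζ, hζ, hsum⟩ := zeta_exists L
  have hd : L.weierstrassP a - L.weierstrassP w ≠ 0 := sub_ne_zero.2 hne
  have key : ∀ x y : ℂ, x ∉ L.lattice → y ∉ L.lattice → x + y ∉ L.lattice → x - y ∉ L.lattice →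
      L.weierstrassP x ≠ L.weierstrassP y →
      L.derivWeierstrassP x / (L.weierstrassP x - L.weierstrassP y) = ζ (x + y) + ζ (x - y) - 2 * ζ x := by
    intro x y hx hy hxy hxy' hn
    rw [← (hsum x y).tsum_eq, div_eq_iff (sub_ne_zero.2 hn)]
    exact (T_formula L x y hx hy hxy hxy').symm
  obtain ⟨eva, evw⟩ := A6_ev L a w ha hw h1 h2 hne
  have da : HasDerivAt (fun x => ζ (x + w) + ζ (x - w) - 2 * ζ x)
      (-L.weierstrassP (a + w) + -L.weierstrassP (a - w) - 2 * -L.weierstrassP a) a :=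
    (((hζ _ h1).comp_add_const a w).add ((hζ _ h2).comp_sub_const a w)).sub ((hζ a ha).const_mul 2)
  have da' := (wpd_hasDeriv L a ha).div ((wp_hasDeriv L a ha).sub_const (L.weierstrassP w)) hd
  have e1 := da'.unique (da.congr_of_eventuallyEq (by
    filter_upwards [eva] with x hx
    exact key x w hx.1 hw hx.2.1 hx.2.2.1 hx.2.2.2))
  have dw : HasDerivAt (fun y => ζ (a + y) + ζ (a - y) - 2 * ζ a)
      (-L.weierstrassP (a + w) + - -L.weierstrassP (a - w) - 0) w :=
    (((hζ _ h1).comp_const_add a w).add ((hζ _ h2).comp_const_sub a w)).sub (hasDerivAt_const w _)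
  have dw' := (hasDerivAt_const w (L.derivWeierstrassP a)).div
    ((hasDerivAt_const w (L.weierstrassP a)).sub (wp_hasDeriv L w hw)) hd
  have e2 := dw'.unique (dw.congr_of_eventuallyEq (by
    filter_upwards [evw] with x hx
    exact key a x ha hx.1 hx.2.1 hx.2.2.1 hx.2.2.2))
  exact A6_alg_x _ _ _ _ L.g₂ L.g₃ _ _ hd (L.derivWeierstrassP_sq a ha) (L.derivWeierstrassP_sq w hw) e1.symm e2.symm

theorem add_y (a w : ℂ) (ha : a ∉ L.lattice) (hw : w ∉ L.lattice) (h1 : a + w ∉ L.lattice)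
    (h2 : a - w ∉ L.lattice) (hne : L.weierstrassP a ≠ L.weierstrassP w) :
    L.derivWeierstrassP (a + w) =
      -(L.derivWeierstrassP w + mc L a w * (L.weierstrassP (a + w) - L.weierstrassP w)) := by
  have hd : L.weierstrassP a - L.weierstrassP w ≠ 0 := sub_ne_zero.2 hne
  obtain ⟨-, evw⟩ := A6_ev L a w ha hw h1 h2 hne
  have dl : HasDerivAt (fun y => L.weierstrassP (a + y)) (L.derivWeierstrassP (a + w)) w :=
    (wp_hasDeriv L _ h1).comp_const_add a w
  have dm : HasDerivAt (fun y => mc L a y) _ w :=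
    ((hasDerivAt_const w (L.derivWeierstrassP a)).sub (wpd_hasDeriv L w hw)).div
      ((hasDerivAt_const w (L.weierstrassP a)).sub (wp_hasDeriv L w hw)) hd
  have dr := (((dm.pow 2).div_const 4).sub (hasDerivAt_const w (L.weierstrassP a))).sub (wp_hasDeriv L w hw)
  have e := dl.unique (dr.congr_of_eventuallyEq (by
    filter_upwards [evw] with x hx
    exact add_x L a x ha hx.1 hx.2.1 hx.2.2.1 hx.2.2.2))
  refine A6_alg_y _ _ _ _ L.g₂ L.g₃ _ _ _ hd (L.derivWeierstrassP_sq a ha) (L.derivWeierstrassP_sq w hw) rfl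
    (add_x L a w ha hw h1 h2 hne) ?_
  rw [e]
  simp only [Nat.cast_ofNat, Nat.add_one_sub_one, pow_one]
  rfl

end H35P
end

-- from Lib.H35P.A7
section

namespace H35P

variable (L : PeriodPair)

/-- A punctured neighbourhood condition through an injective map. -/
private theorem A7_ev (f : ℂ → ℂ) (z₀ : ℂ) (hf : ContinuousAt f z₀) (hinj : Function.Injective f) :
    ∀ᶠ u in nhdsWithin z₀ {z₀}ᶜ, f u ∉ L.lattice :=
  (tendsto_punct f z₀ hf hinj).eventually (ev_compl L (f z₀))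

private theorem A7_ne0 : ∀ᶠ z in nhdsWithin (0 : ℂ) {0}ᶜ, L.weierstrassP z ≠ 0 := by
  obtain ⟨u, hu, hu0, hwp⟩ := wp_zero L
  have hid : Filter.Tendsto (fun z : ℂ => z) (nhdsWithin (0 : ℂ) {0}ᶜ) (nhds 0) :=
    tendsto_nhdsWithin_of_tendsto_nhds Filter.tendsto_id
  have hut : Filter.Tendsto u (nhdsWithin (0 : ℂ) {0}ᶜ) (nhds 0) := by
    have := hu.continuousAt.tendsto
    rw [hu0] at this
    exact this.comp hid
  have h2 : Filter.Tendsto (fun z : ℂ => 1 + z ^ 2 * u z) (nhdsWithin (0 : ℂ) {0}ᶜ) (nhds 1) := by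
    have := ((hid.pow 2).mul hut).const_add 1
    simpa using this
  filter_upwards [h2.eventually_ne one_ne_zero, self_mem_nhdsWithin] with z h3 h4 h5
  have hz0 : z ≠ 0 := h4
  apply h3
  have h6 := hwp z hz0
  rw [h5] at h6
  have h7 : z ^ 2 * (z ^ 2)⁻¹ = 1 := mul_inv_cancel₀ (pow_ne_zero 2 hz0)
  linear_combination (-(z ^ 2)) * h6 - h7

/-! Chunk A7 (M). wpd_ne: if ℘'(a) = 0 then T2 L a w (℘ a - ℘ w) = 0 for w near a (T_formula); ℘ w ≠ ℘ a near a (wp_nonconst), so T2 L a w = 0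
near a: contradiction with T2_pole.
wp_ne: suppose ℘ a = ℘ w. By T_formula (both orders) ℘'(a) = 0 = ℘'(w). For u near -w, u ≠ -w: ℘ u ≠ ℘(-w) = ℘ w = ℘ a, and u, a ± u, w ± u not in the lattice
(ev_compl, tendsto_punct; near -w the point a + u is near a - w which is not in the lattice, w + u ≠ 0 is small; a - u is near a + w; w - u is near 2w, use ev_compl). By add_x:
℘(a+u) = ℘'(u)^2/(4(℘ a - ℘ u)^2) - ℘ a - ℘ u = ℘(w+u). Let u → -w: the left side tends to ℘(a-w), the right side has inverse tending to 0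
(wp_inv_tendsto) and so ℘(w+u) is unbounded: contradiction. -/

theorem wpd_ne (a : ℂ) (ha : a ∉ L.lattice) (h2 : 2 * a ∉ L.lattice) : L.derivWeierstrassP a ≠ 0 := by
  intro h0
  have hopen := compl_open L
  have hnc := wp_nonconst L a ha (L.weierstrassP a)
  have hpole := T2_pole L a ha h2
  have e1 : ∀ᶠ w in nhdsWithin a {a}ᶜ, w ∉ L.lattice := nhdsWithin_le_nhds (hopen.mem_nhds ha)
  have e2 : ∀ᶠ w in nhdsWithin a {a}ᶜ, a + w ∉ L.lattice :=
    A7_ev L (fun w => a + w) a (by fun_prop) (add_right_injective a)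
  have e3 : ∀ᶠ w in nhdsWithin a {a}ᶜ, a - w ∉ L.lattice :=
    A7_ev L (fun w => a - w) a (by fun_prop) (sub_right_injective)
  obtain ⟨w, hw1, hw2, hw3, hw4, hw5⟩ := (hnc.and (hpole.and (e1.and (e2.and e3)))).exists
  have hT := T_formula L a w ha hw3 hw4 hw5
  rw [h0] at hT
  rcases mul_eq_zero.1 hT with h | h
  · exact hw2 h
  · exact hw1 (sub_eq_zero.1 h).symm

theorem wp_ne (a w : ℂ) (ha : a ∉ L.lattice) (hw : w ∉ L.lattice) (h1 : a + w ∉ L.lattice)
    (h2 : a - w ∉ L.lattice) : L.weierstrassP a ≠ L.weierstrassP w := by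
  intro heq
  have hopen := compl_open L
  have h1' : w + a ∉ L.lattice := by rwa [add_comm]
  have h2' : w - a ∉ L.lattice := fun h => h2 (by simpa using L.lattice.neg_mem h)
  have hpa : L.derivWeierstrassP a = 0 := by
    rw [← T_formula L a w ha hw h1 h2, heq, sub_self, mul_zero]
  have hpw : L.derivWeierstrassP w = 0 := by
    rw [← T_formula L w a hw ha h1' h2', heq, sub_self, mul_zero]
  have hnw : -w ∉ L.lattice := fun h => hw (by simpa using L.lattice.neg_mem h)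
  have e1 : ∀ᶠ u in nhdsWithin (-w) {-w}ᶜ, u ∉ L.lattice := nhdsWithin_le_nhds (hopen.mem_nhds hnw)
  have e2 : ∀ᶠ u in nhdsWithin (-w) {-w}ᶜ, a + u ∉ L.lattice :=
    A7_ev L (fun u => a + u) (-w) (by fun_prop) (add_right_injective a)
  have e3 : ∀ᶠ u in nhdsWithin (-w) {-w}ᶜ, a - u ∉ L.lattice :=
    A7_ev L (fun u => a - u) (-w) (by fun_prop) (sub_right_injective)
  have e4 : ∀ᶠ u in nhdsWithin (-w) {-w}ᶜ, w + u ∉ L.lattice :=
    A7_ev L (fun u => w + u) (-w) (by fun_prop) (add_right_injective w)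
  have e5 : ∀ᶠ u in nhdsWithin (-w) {-w}ᶜ, w - u ∉ L.lattice :=
    A7_ev L (fun u => w - u) (-w) (by fun_prop) (sub_right_injective)
  have e6 := wp_nonconst L (-w) hnw (L.weierstrassP w)
  have htp : Filter.Tendsto (fun u => w + u) (nhdsWithin (-w) {-w}ᶜ) (nhdsWithin (0 : ℂ) {0}ᶜ) := by
    have := tendsto_punct (fun u => w + u) (-w) (by fun_prop) (add_right_injective w)
    simpa using this
  have e7 : ∀ᶠ u in nhdsWithin (-w) {-w}ᶜ, L.weierstrassP (w + u) ≠ 0 := htp.eventually (A7_ne0 L)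
  have hev : ∀ᶠ u in nhdsWithin (-w) {-w}ᶜ, L.weierstrassP (a + u) * (L.weierstrassP (w + u))⁻¹ = 1 := by
    filter_upwards [e1, e2, e3, e4, e5, e6, e7] with u u1 u2 u3 u4 u5 u6 u7
    have hx1 := add_x L a u ha u1 u2 u3 (by rw [heq]; exact fun h => u6 h.symm)
    have hx2 := add_x L w u hw u1 u4 u5 (fun h => u6 h.symm)
    have hmc : mc L a u = mc L w u := by
      unfold mc
      rw [hpa, hpw, heq]
    rw [hx1, hmc, heq, ← hx2, mul_inv_cancel₀ u7]
  have hlim1 : Filter.Tendsto (fun u => L.weierstrassP (a + u)) (nhdsWithin (-w) {-w}ᶜ) (nhds (L.weierstrassP (a - w))) := by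
    have hc : ContinuousAt (fun u => L.weierstrassP (a + u)) (-w) := by
      have h5 : ContinuousAt L.weierstrassP (a + -w) := (wp_analytic L (a + -w) (by rwa [← sub_eq_add_neg])).continuousAt
      exact ContinuousAt.comp (f := fun u => a + u) h5 (by fun_prop)
    have := hc.tendsto.mono_left (nhdsWithin_le_nhds (s := {-w}ᶜ))
    simpa [← sub_eq_add_neg] using this
  have hlim2 := hlim1.mul ((wp_inv_tendsto L).comp htp)
  rw [mul_zero] at hlim2
  have hlim3 : Filter.Tendsto (fun u => L.weierstrassP (a + u) * (L.weierstrassP (w + u))⁻¹)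
      (nhdsWithin (-w) {-w}ᶜ) (nhds 1) := (Filter.tendsto_congr' hev).2 tendsto_const_nhds
  exact zero_ne_one (tendsto_nhds_unique hlim2 hlim3)

end H35P
end

-- from Lib.H35P.A8
section

namespace H35P

variable (L : PeriodPair)

/-! Chunk A8 (M). mc_tendsto: (℘'a - ℘'w)/(℘a - ℘w) = slope of ℘' / slope of ℘, both slopes converge (hasDerivAt_iff_tendsto_slope; wp_hasDeriv, wpd_hasDeriv),
wpd_ne. dbl_x, dbl_y: let w → a in add_x, add_y (valid for w near a, w ≠ a, by ev_compl, tendsto_punct and wp_ne), by continuity of ℘, ℘' at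
2a and a. -/

open Filter Topology in
theorem mc_tendsto (a : ℂ) (ha : a ∉ L.lattice) (h2 : 2 * a ∉ L.lattice) :
    Filter.Tendsto (fun w => mc L a w) (nhdsWithin a {a}ᶜ) (nhds (md L a)) := by
  have t1 := hasDerivAt_iff_tendsto_slope.1 (wpd_hasDeriv L a ha)
  have t2 := hasDerivAt_iff_tendsto_slope.1 (wp_hasDeriv L a ha)
  have t3 := t1.div t2 (wpd_ne L a ha h2)
  refine t3.congr' ?_
  filter_upwards [self_mem_nhdsWithin] with w hw
  have hw' : w - a ≠ 0 := sub_ne_zero.2 hw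
  simp only [Pi.div_apply]
  rw [slope_def_field, slope_def_field, div_div_div_cancel_right₀ hw', mc, ← neg_sub,
    ← neg_sub (L.weierstrassP a), neg_div_neg_eq]

/-- The three conditions of the addition formulas hold near `a`. -/
theorem a8_ev (a : ℂ) (ha : a ∉ L.lattice) (h2 : 2 * a ∉ L.lattice) :
    ∀ᶠ w in nhdsWithin a {a}ᶜ, w ∉ L.lattice ∧ a + w ∉ L.lattice ∧ a - w ∉ L.lattice := by
  have h1 : ∀ᶠ w in nhdsWithin a {a}ᶜ, w ∉ L.lattice := ev_compl L a
  have h3 : ∀ᶠ w in nhdsWithin a {a}ᶜ, a + w ∉ L.lattice := by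
    have hc : ContinuousAt (fun w : ℂ => a + w) a := by fun_prop
    have := hc.eventually_mem ((compl_open L).mem_nhds (show a + a ∈ _ by
      change a + a ∉ L.lattice
      rw [← two_mul]
      exact h2))
    exact this.filter_mono nhdsWithin_le_nhds
  have h4 : ∀ᶠ w in nhdsWithin a {a}ᶜ, a - w ∉ L.lattice := by
    have ht := tendsto_punct (fun w : ℂ => a - w) a (by fun_prop) (fun x y h => by
      simpa using h)
    exact ht.eventually (ev_compl L (a - a))
  filter_upwards [h1, h3, h4] with w q1 q2 q3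
  exact ⟨q1, q2, q3⟩

open Filter Topology in
theorem a8_cont (f : ℂ → ℂ) (a : ℂ) (hf : ContinuousAt f (2 * a)) :
    Filter.Tendsto (fun w => f (a + w)) (nhdsWithin a {a}ᶜ) (nhds (f (2 * a))) := by
  have h1 : ContinuousAt (fun w : ℂ => f (a + w)) a := by
    refine ContinuousAt.comp (g := f) (f := fun w : ℂ => a + w) ?_ (by fun_prop)
    rw [← two_mul]
    exact hf
  have h2 : Filter.Tendsto (fun w => f (a + w)) (nhdsWithin a {a}ᶜ) (nhds (f (a + a))) :=
    h1.tendsto.mono_left nhdsWithin_le_nhds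
  rwa [← two_mul] at h2

theorem dbl_x (a : ℂ) (ha : a ∉ L.lattice) (h2 : 2 * a ∉ L.lattice) :
    L.weierstrassP (2 * a) = (md L a) ^ 2 / 4 - L.weierstrassP a - L.weierstrassP a := by
  have t1 := a8_cont L.weierstrassP a (wp_analytic L _ h2).continuousAt
  have t2 : Filter.Tendsto L.weierstrassP (nhdsWithin a {a}ᶜ) (nhds (L.weierstrassP a)) :=
    (wp_analytic L _ ha).continuousAt.tendsto.mono_left nhdsWithin_le_nhds
  have t3 := (((mc_tendsto L a ha h2).pow 2).div_const 4).sub_const (L.weierstrassP a)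
  refine tendsto_nhds_unique_of_eventuallyEq t1 (t3.sub t2) ?_
  filter_upwards [a8_ev L a ha h2] with w hw
  exact add_x L a w ha hw.1 hw.2.1 hw.2.2 (wp_ne L a w ha hw.1 hw.2.1 hw.2.2)

theorem dbl_y (a : ℂ) (ha : a ∉ L.lattice) (h2 : 2 * a ∉ L.lattice) :
    L.derivWeierstrassP (2 * a) =
      -(L.derivWeierstrassP a + md L a * (L.weierstrassP (2 * a) - L.weierstrassP a)) := by
  have t1 := a8_cont L.derivWeierstrassP a (wpd_analytic L _ h2).continuousAt
  have t0 := a8_cont L.weierstrassP a (wp_analytic L _ h2).continuousAt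
  have t2 : Filter.Tendsto L.weierstrassP (nhdsWithin a {a}ᶜ) (nhds (L.weierstrassP a)) :=
    (wp_analytic L _ ha).continuousAt.tendsto.mono_left nhdsWithin_le_nhds
  have t3 : Filter.Tendsto L.derivWeierstrassP (nhdsWithin a {a}ᶜ) (nhds (L.derivWeierstrassP a)) :=
    (wpd_analytic L _ ha).continuousAt.tendsto.mono_left nhdsWithin_le_nhds
  have t4 := (t3.add ((mc_tendsto L a ha h2).mul (t0.sub t2))).neg
  refine tendsto_nhds_unique_of_eventuallyEq t1 t4 ?_
  filter_upwards [a8_ev L a ha h2] with w hw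
  exact add_y L a w ha hw.1 hw.2.1 hw.2.2 (wp_ne L a w ha hw.1 hw.2.1 hw.2.2)

end H35P
end

-- from Lib.H35P.B1
section

open WeierstrassCurve

namespace H35P

variable (L : PeriodPair)

/-- The curve y^2 = x^3 + A x + B. -/
def WAB {k : Type} [Field k] (A B : k) : WeierstrassCurve k := ⟨0, 0, 0, A, B⟩

private theorem B1_addX {k : Type} [Field k] (A B x₁ x₂ l : k) : (WAB A B).toAffine.addX x₁ x₂ l = l ^ 2 - x₁ - x₂ := by
  unfold Affine.addX WAB
  ring

private theorem B1_negY {k : Type} [Field k] (A B x y : k) : (WAB A B).toAffine.negY x y = -y := by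
  unfold Affine.negY WAB
  ring

private theorem B1_addY {k : Type} [Field k] (A B x₁ x₂ y₁ l : k) : (WAB A B).toAffine.addY x₁ x₂ y₁ l =
    -(l * (l ^ 2 - x₁ - x₂ - x₁) + y₁) := by
  unfold Affine.addY Affine.negAddY
  rw [B1_negY, B1_addX]

private theorem B1_delta {k : Type} [Field k] (A B : k) : (WAB A B).Δ = -16 * (4 * A ^ 3 + 27 * B ^ 2) := by
  unfold WeierstrassCurve.Δ WeierstrassCurve.b₂ WeierstrassCurve.b₄ WeierstrassCurve.b₆ WeierstrassCurve.b₈ WAB
  ring

/-! Chunk B1 (M). eq_pt: derivWeierstrassP_sq. nonsing_pt: WAB has Δ = -16 (4A^3 + 27B^2) ≠ 0, Affine.equation_iff_nonsingular (IsElliptic).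
slope_pt: x = ℘/Om^2, y = ℘'/(2 Om^3). Chord: slope = (mc/2)/Om. Tangent: (3x^2 + A)/(2y) = (md/2)/Om with g₂ = -4 A Om^4.
pt_exists: pt z = if z in the lattice then 0 else some (..). Additivity: cases a in L, w in L (periodicity, weierstrassP_add_coe), a + w in L (then w = -a + l and
pt w = -pt a), a - w in L (w = a + l: doubling, dbl_x, dbl_y, 2a ∉ L), otherwise add_x, add_y, wp_ne. Affine.Point.add_some, addX, addY, negY. -/

theorem eq_pt (A B Om : ℂ) (hO : Om ≠ 0) (g2 : L.g₂ = -4 * A * Om ^ 4) (g3 : L.g₃ = -4 * B * Om ^ 6) (z : ℂ)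
    (hz : z ∉ L.lattice) : (WAB A B).toAffine.Equation (L.weierstrassP z / Om ^ 2) (L.derivWeierstrassP z / (2 * Om ^ 3)) := by
  rw [Affine.equation_iff]
  have h := L.derivWeierstrassP_sq z hz
  rw [g2, g3] at h
  have e : (L.derivWeierstrassP z / (2 * Om ^ 3)) ^ 2 = (L.derivWeierstrassP z) ^ 2 / (4 * Om ^ 6) := by
    rw [div_pow]
    ring
  simp only [WAB]
  rw [e, h]
  field_simp
  ring

theorem slope_chord (A B Om : ℂ) (hO : Om ≠ 0) (a w : ℂ)
    (hne : L.weierstrassP a ≠ L.weierstrassP w) :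
    (WAB A B).toAffine.slope (L.weierstrassP a / Om ^ 2) (L.weierstrassP w / Om ^ 2)
      (L.derivWeierstrassP a / (2 * Om ^ 3)) (L.derivWeierstrassP w / (2 * Om ^ 3)) = mc L a w / 2 / Om := by
  have hx : L.weierstrassP a / Om ^ 2 ≠ L.weierstrassP w / Om ^ 2 := by
    intro h
    rw [div_left_inj' (pow_ne_zero 2 hO)] at h
    exact hne h
  rw [Affine.slope_of_X_ne hx]
  have h0 : L.weierstrassP a - L.weierstrassP w ≠ 0 := sub_ne_zero.2 hne
  unfold mc
  rw [← sub_div, ← sub_div]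
  field_simp

theorem slope_tangent (A B Om : ℂ) (hO : Om ≠ 0) (g2 : L.g₂ = -4 * A * Om ^ 4) (a : ℂ)
    (hne : L.derivWeierstrassP a ≠ 0) :
    (WAB A B).toAffine.slope (L.weierstrassP a / Om ^ 2) (L.weierstrassP a / Om ^ 2)
      (L.derivWeierstrassP a / (2 * Om ^ 3)) (L.derivWeierstrassP a / (2 * Om ^ 3)) = md L a / 2 / Om := by
  have hy : L.derivWeierstrassP a / (2 * Om ^ 3) ≠
      (WAB A B).toAffine.negY (L.weierstrassP a / Om ^ 2) (L.derivWeierstrassP a / (2 * Om ^ 3)) := by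
    rw [B1_negY]
    intro h
    have h2 : L.derivWeierstrassP a / (2 * Om ^ 3) = 0 := by linear_combination h / 2
    rw [div_eq_zero_iff] at h2
    rcases h2 with h2 | h2
    · exact hne h2
    · exact mul_ne_zero two_ne_zero (pow_ne_zero 3 hO) h2
  rw [Affine.slope_of_Y_ne rfl hy, B1_negY]
  unfold md
  rw [g2]
  simp only [WAB]
  field_simp
  ring

/-- The Weierstrass uniformisation. -/
theorem pt_exists (A B Om : ℂ) (hO : Om ≠ 0) (g2 : L.g₂ = -4 * A * Om ^ 4) (g3 : L.g₃ = -4 * B * Om ^ 6)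
    (hd : 4 * A ^ 3 + 27 * B ^ 2 ≠ 0) : ∃ pt : ℂ →+ (WAB A B).toAffine.Point,
      (∀ z ∈ L.lattice, pt z = 0) ∧
      ∀ z ∉ L.lattice, ∃ h, pt z = .some (L.weierstrassP z / Om ^ 2) (L.derivWeierstrassP z / (2 * Om ^ 3)) h := by
  classical
  have hΔ : (WAB A B).Δ ≠ 0 := by
    rw [B1_delta]
    exact mul_ne_zero (by norm_num) hd
  have hns : ∀ z, z ∉ L.lattice → (WAB A B).toAffine.Nonsingular (L.weierstrassP z / Om ^ 2)
      (L.derivWeierstrassP z / (2 * Om ^ 3)) := fun z hz =>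
    (Affine.equation_iff_nonsingular_of_Δ_ne_zero (W := (WAB A B).toAffine) hΔ).1 (eq_pt L A B Om hO g2 g3 z hz)
  set pt : ℂ → (WAB A B).toAffine.Point := fun z => if h : z ∈ L.lattice then 0 else
    .some (L.weierstrassP z / Om ^ 2) (L.derivWeierstrassP z / (2 * Om ^ 3)) (hns z h) with hpt
  have p0 : ∀ z, z ∈ L.lattice → pt z = 0 := fun z hz => by
    simp only [hpt, dif_pos hz]
  have p1 : ∀ z (hz : z ∉ L.lattice), pt z = .some (L.weierstrassP z / Om ^ 2) (L.derivWeierstrassP z / (2 * Om ^ 3)) (hns z hz) :=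
    fun z hz => by simp only [hpt, dif_neg hz]
  have hper : ∀ z l, l ∈ L.lattice → pt (z + l) = pt z := by
    intro z l hl
    by_cases hz : z ∈ L.lattice
    · rw [p0 z hz, p0 _ (L.lattice.add_mem hz hl)]
    · have hzl : z + l ∉ L.lattice := fun h => hz (by simpa using L.lattice.sub_mem h hl)
      rw [p1 z hz, p1 _ hzl, Affine.Point.some.injEq]
      have e1 := L.weierstrassP_add_coe z ⟨l, hl⟩
      have e2 := L.derivWeierstrassP_add_coe z ⟨l, hl⟩
      exact ⟨by rw [e1], by rw [e2]⟩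
  have hadd : ∀ a w, pt (a + w) = pt a + pt w := by
    intro a w
    by_cases ha : a ∈ L.lattice
    · rw [p0 a ha, zero_add, add_comm, hper w a ha]
    by_cases hw : w ∈ L.lattice
    · rw [p0 w hw, add_zero, hper a w hw]
    by_cases h1 : a + w ∈ L.lattice
    · rw [p0 _ h1, p1 a ha, p1 w hw]
      have e1 : L.weierstrassP w = L.weierstrassP a := by
        have := L.weierstrassP_add_coe (-a) ⟨a + w, h1⟩
        rw [L.weierstrassP_neg] at this
        rw [← this]
        congr 1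
        simp
      have e2 : L.derivWeierstrassP w = -L.derivWeierstrassP a := by
        have := L.derivWeierstrassP_add_coe (-a) ⟨a + w, h1⟩
        rw [L.derivWeierstrassP_neg] at this
        rw [← this]
        congr 1
        simp
      refine (Affine.Point.add_of_Y_eq ?_ ?_).symm
      · rw [e1]
      · rw [B1_negY, e2]
        ring
    by_cases h2 : a - w ∈ L.lattice
    · -- doubling
      have hwa : w = a + -(a - w) := by ring
      have hpw : pt w = pt a := by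
        rw [hwa]
        exact hper a _ (L.lattice.neg_mem h2)
      have haw : pt (a + w) = pt (2 * a) := by
        have : a + w = 2 * a + -(a - w) := by ring
        rw [this]
        exact hper _ _ (L.lattice.neg_mem h2)
      have h2a : 2 * a ∉ L.lattice := by
        intro h
        apply h1
        have : a + w = 2 * a - (a - w) := by ring
        rw [this]
        exact L.lattice.sub_mem h h2
      have hne := wpd_ne L a ha h2a
      rw [hpw, haw, p1 _ h2a, p1 a ha]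
      have hxy : ¬(L.weierstrassP a / Om ^ 2 = L.weierstrassP a / Om ^ 2 ∧ L.derivWeierstrassP a / (2 * Om ^ 3) =
          (WAB A B).toAffine.negY (L.weierstrassP a / Om ^ 2) (L.derivWeierstrassP a / (2 * Om ^ 3))) := by
        rintro ⟨-, h⟩
        rw [B1_negY] at h
        have h2 : L.derivWeierstrassP a / (2 * Om ^ 3) = 0 := by linear_combination h / 2
        rw [div_eq_zero_iff] at h2
        rcases h2 with h2 | h2
        · exact hne h2
        · exact mul_ne_zero two_ne_zero (pow_ne_zero 3 hO) h2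
      rw [Affine.Point.add_some hxy, Affine.Point.some.injEq, slope_tangent L A B Om hO g2 a hne, B1_addX, B1_addY,
        dbl_y L a ha h2a, dbl_x L a ha h2a]
      constructor
      · field_simp
        ring
      · field_simp
        ring
    · have hne := wp_ne L a w ha hw h1 h2
      have hx : L.weierstrassP a / Om ^ 2 ≠ L.weierstrassP w / Om ^ 2 := by
        intro h
        rw [div_left_inj' (pow_ne_zero 2 hO)] at h
        exact hne h
      have hmc : mc L a w * (L.weierstrassP a - L.weierstrassP w) = L.derivWeierstrassP a - L.derivWeierstrassP w := by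
        unfold mc
        exact div_mul_cancel₀ _ (sub_ne_zero.2 hne)
      rw [p1 _ h1, p1 a ha, p1 w hw, Affine.Point.add_some (fun h => hx h.1), Affine.Point.some.injEq,
        slope_chord L A B Om hO a w hne, B1_addX, B1_addY, add_y L a w ha hw h1 h2 hne, add_x L a w ha hw h1 h2 hne]
      constructor
      · field_simp
        ring
      · have e : L.derivWeierstrassP w = L.derivWeierstrassP a - mc L a w * (L.weierstrassP a - L.weierstrassP w) := by
          rw [hmc]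
          ring
        rw [e]
        field_simp
        ring
  refine ⟨⟨⟨pt, p0 0 L.lattice.zero_mem⟩, hadd⟩, p0, fun z hz => ⟨hns z hz, p1 z hz⟩⟩

end H35P
end

-- from Lib.H35P.R3
section

open WeierstrassCurve

namespace H35P

variable {k : Type} [Field k] {V : ValuationSubring k}

/-! Chunk R3 (M). Pure valuation theory. v = V.valuation, a = v x₁, b = v x₂, d = v x₃, a, b > 1.
v(l)^2 ≤ max(a, b, d, 1): if v l ≤ 1 clear, else v(l)^2 = v(l^2 + a1 l) = v(x₁+x₂+x₃+a2). Likewise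
v(m)^2 ≤ max(1, a b d).
(1) d > 1: suppose d ≤ 1. v(x₁x₂ + x₃(x₁+x₂)) = ab (as d max(a,b) < ab), so
ab ≤ max(1, v(l)v(m), v(m), v(l)). But v(l)^2 ≤ max(a,b) < (ab)^2, v(m)^2 ≤ ab < (ab)^2,
(v(l)v(m))^2 ≤ max(a,b) ab < (ab)^2, 1 < ab: contradiction.
(2) put M = max(a,b,d) ≤ abd. v(l)^2 ≤ M, v(m)^2 ≤ abd. With y_i = l x_i + m, v(y_i)^2 = v(x_i)^3 (hypothesis) we have
v(y₁y₂y₃)^2 = (abd)^3 and (x₁/y₁ + x₂/y₂ + x₃/y₃) y₁y₂y₃ = N, the left side of hN, so v(N)^2 ≤ max of
M^2 abd, M^2, M abd, M (abd)^2, (abd)^2, hence v(sum)^2 ≤ M/(abd). And c^2 ≥ 1/a, 1/b (hypotheses hca, hcb: c ≥ v(x₁/y₁),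
v(x₂/y₂), and v(x_i/y_i)^2 = 1/v(x_i)); M/(abd) is one of 1/(bd), 1/(ad), 1/(ab), each < 1/a or < 1/b, so v(sum)^2 < c^2. -/

theorem r3_mem {a : k} (h : a ∈ V) : V.valuation a ≤ 1 := (V.valuation_le_one_iff a).2 h

theorem r3_nat (n : ℕ) : V.valuation (n : k) ≤ 1 :=
  (V.valuation_le_one_iff _).2 (natCast_mem V n)

theorem r3_mul_le {Γ : Type*} [LinearOrderedCommGroupWithZero Γ] {a b c d : Γ} (h1 : a ≤ b) (h2 : c ≤ d) :
    a * c ≤ b * d := mul_le_mul' h1 h2

theorem r3_lt {Γ : Type*} [LinearOrderedCommGroupWithZero Γ] {a b : Γ} (ha : 0 < a) (hb : 1 < b) :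
    a < a * b := by
  calc a = a * 1 := (mul_one a).symm
    _ < a * b := mul_lt_mul_of_pos_left hb ha

theorem r3_le {a S l : k} (h1 : a ∈ V) (h : l ^ 2 + a * l = S) :
    V.valuation l ^ 2 ≤ max (V.valuation S) 1 := by
  by_cases hl : V.valuation l ≤ 1
  · exact (pow_le_one' hl 2).trans (le_max_right _ _)
  · push Not at hl
    have h2 : V.valuation (a * l) < V.valuation (l ^ 2) := by
      rw [map_mul, map_pow]
      calc V.valuation a * V.valuation l ≤ 1 * V.valuation l := r3_mul_le (r3_mem h1) le_rfl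
        _ = V.valuation l := one_mul _
        _ < V.valuation l * V.valuation l := r3_lt (zero_lt_one.trans hl) hl
        _ = V.valuation l ^ 2 := (sq _).symm
    rw [← h, Valuation.map_add_eq_of_lt_left _ h2, map_pow]
    exact le_max_left _ _

theorem r3_add {x y : k} {c : V.ValueGroup} (hx : V.valuation x ≤ c) (hy : V.valuation y ≤ c) :
    V.valuation (x + y) ≤ c := Valuation.map_add_le _ hx hy

theorem r3_sub {x y : k} {c : V.ValueGroup} (hx : V.valuation x ≤ c) (hy : V.valuation y ≤ c) :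
    V.valuation (x - y) ≤ c := Valuation.map_sub_le _ hx hy

theorem third_big {a₁ a₂ a₃ a₄ a₆ x₁ x₂ x₃ l m : k} (h1 : a₁ ∈ V) (h2 : a₂ ∈ V) (h3 : a₃ ∈ V) (h4 : a₄ ∈ V)
    (h6 : a₆ ∈ V) (s1 : x₁ + x₂ + x₃ = l ^ 2 + a₁ * l - a₂)
    (s2 : x₁ * x₂ + x₁ * x₃ + x₂ * x₃ = a₄ - 2 * l * m - a₁ * m - a₃ * l)
    (s3 : x₁ * x₂ * x₃ = m ^ 2 + a₃ * m - a₆) (ha : 1 < V.valuation x₁) (hb : 1 < V.valuation x₂) :
    1 < V.valuation x₃ := by
  by_contra hd
  push Not at hd
  have ha0 : 0 < V.valuation x₁ := zero_lt_one.trans ha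
  have hb0 : 0 < V.valuation x₂ := zero_lt_one.trans hb
  have hab : 1 < V.valuation x₁ * V.valuation x₂ := ha.trans (r3_lt ha0 hb)
  have hab0 : 0 < V.valuation x₁ * V.valuation x₂ := zero_lt_one.trans hab
  have hM : max (V.valuation x₁) (V.valuation x₂) < V.valuation x₁ * V.valuation x₂ := by
    refine max_lt (r3_lt ha0 hb) ?_
    rw [mul_comm]
    exact r3_lt hb0 ha
  have h1M : 1 ≤ max (V.valuation x₁) (V.valuation x₂) := ha.le.trans (le_max_left _ _)
  have hl : V.valuation l ^ 2 ≤ max (V.valuation x₁) (V.valuation x₂) := by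
    have e : l ^ 2 + a₁ * l = x₁ + x₂ + x₃ + a₂ := by rw [s1]; ring
    refine (r3_le h1 e).trans (max_le ?_ h1M)
    exact r3_add (r3_add (r3_add (le_max_left _ _) (le_max_right _ _)) (hd.trans h1M))
      ((r3_mem h2).trans h1M)
  have hm : V.valuation m ^ 2 ≤ V.valuation x₁ * V.valuation x₂ := by
    have e : m ^ 2 + a₃ * m = x₁ * x₂ * x₃ + a₆ := by rw [s3]; ring
    refine (r3_le h3 e).trans (max_le ?_ hab.le)
    refine r3_add ?_ ((r3_mem h6).trans hab.le)
    rw [map_mul, map_mul]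
    calc _ ≤ V.valuation x₁ * V.valuation x₂ * 1 := r3_mul_le le_rfl hd
      _ = _ := mul_one _
  have key : V.valuation (x₁ * x₂ + x₁ * x₃ + x₂ * x₃) = V.valuation x₁ * V.valuation x₂ := by
    have e : V.valuation (x₁ * x₃ + x₂ * x₃) < V.valuation (x₁ * x₂) := by
      rw [map_mul _ x₁ x₂]
      refine lt_of_le_of_lt ?_ hM
      refine r3_add ?_ ?_
      · rw [map_mul]
        calc _ ≤ V.valuation x₁ * 1 := r3_mul_le le_rfl hd
          _ = V.valuation x₁ := mul_one _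
          _ ≤ _ := le_max_left _ _
      · rw [map_mul]
        calc _ ≤ V.valuation x₂ * 1 := r3_mul_le le_rfl hd
          _ = V.valuation x₂ := mul_one _
          _ ≤ _ := le_max_right _ _
    rw [add_assoc, Valuation.map_add_eq_of_lt_left _ e, map_mul]
  have hsq : V.valuation x₁ * V.valuation x₂ < (V.valuation x₁ * V.valuation x₂) ^ 2 := by
    rw [sq]
    exact r3_lt hab0 hab
  have hvl : V.valuation l < V.valuation x₁ * V.valuation x₂ :=
    lt_of_pow_lt_pow_left₀ 2 hab0.le (hl.trans_lt (hM.trans hsq))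
  have hvm : V.valuation m < V.valuation x₁ * V.valuation x₂ :=
    lt_of_pow_lt_pow_left₀ 2 hab0.le (hm.trans_lt hsq)
  have hvlm : V.valuation l * V.valuation m < V.valuation x₁ * V.valuation x₂ := by
    refine lt_of_pow_lt_pow_left₀ 2 hab0.le ?_
    rw [mul_pow, sq (V.valuation x₁ * V.valuation x₂)]
    calc V.valuation l ^ 2 * V.valuation m ^ 2
        ≤ max (V.valuation x₁) (V.valuation x₂) * (V.valuation x₁ * V.valuation x₂) := r3_mul_le hl hm
      _ < (V.valuation x₁ * V.valuation x₂) * (V.valuation x₁ * V.valuation x₂) :=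
        mul_lt_mul_of_pos_right hM hab0
  have hR : V.valuation (a₄ - 2 * l * m - a₁ * m - a₃ * l) < V.valuation x₁ * V.valuation x₂ := by
    have t0 : V.valuation a₄ < V.valuation x₁ * V.valuation x₂ := (r3_mem h4).trans_lt hab
    have t1 : V.valuation (2 * l * m) < V.valuation x₁ * V.valuation x₂ := by
      refine lt_of_le_of_lt ?_ hvlm
      rw [map_mul, map_mul]
      have h2' : V.valuation (2 : k) ≤ 1 := by
        have := r3_nat (V := V) 2
        rwa [Nat.cast_ofNat] at this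
      calc _ ≤ 1 * V.valuation l * V.valuation m := r3_mul_le (r3_mul_le h2' le_rfl) le_rfl
        _ = _ := by rw [one_mul]
    have t2 : V.valuation (a₁ * m) < V.valuation x₁ * V.valuation x₂ := by
      refine lt_of_le_of_lt ?_ hvm
      rw [map_mul]
      calc _ ≤ 1 * V.valuation m := r3_mul_le (r3_mem h1) le_rfl
        _ = _ := one_mul _
    have t3 : V.valuation (a₃ * l) < V.valuation x₁ * V.valuation x₂ := by
      refine lt_of_le_of_lt ?_ hvl
      rw [map_mul]
      calc _ ≤ 1 * V.valuation l := r3_mul_le (r3_mem h3) le_rfl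
        _ = _ := one_mul _
    exact Valuation.map_sub_lt _ (Valuation.map_sub_lt _ (Valuation.map_sub_lt _ t0 t1) t2) t3
  rw [← s2, key] at hR
  exact lt_irrefl _ hR

theorem third_tt {a₁ a₂ a₃ a₄ a₆ x₁ x₂ x₃ l m : k} (h1 : a₁ ∈ V) (h2 : a₂ ∈ V) (h3 : a₃ ∈ V) (h4 : a₄ ∈ V)
    (h6 : a₆ ∈ V) (s1 : x₁ + x₂ + x₃ = l ^ 2 + a₁ * l - a₂)
    (s2 : x₁ * x₂ + x₁ * x₃ + x₂ * x₃ = a₄ - 2 * l * m - a₁ * m - a₃ * l)
    (s3 : x₁ * x₂ * x₃ = m ^ 2 + a₃ * m - a₆)
    (hN : x₁ * (l * x₂ + m) * (l * x₃ + m) + x₂ * (l * x₁ + m) * (l * x₃ + m) +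
      x₃ * (l * x₁ + m) * (l * x₂ + m) =
      a₃ * l ^ 2 * m - 3 * a₆ * l ^ 2 + 2 * a₄ * l * m - a₁ * l * m ^ 2 - a₂ * m ^ 2)
    (ha : 1 < V.valuation x₁) (hb : 1 < V.valuation x₂)
    (y1 : V.valuation (l * x₁ + m) ^ 2 = V.valuation x₁ ^ 3)
    (y2 : V.valuation (l * x₂ + m) ^ 2 = V.valuation x₂ ^ 3)
    (y3 : V.valuation (l * x₃ + m) ^ 2 = V.valuation x₃ ^ 3)
    (c : V.ValueGroup) (hca : V.valuation (x₁ / (l * x₁ + m)) ≤ c) (hcb : V.valuation (x₂ / (l * x₂ + m)) ≤ c) :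
    V.valuation (x₁ / (l * x₁ + m) + x₂ / (l * x₂ + m) + x₃ / (l * x₃ + m)) < c := by
  have hd : 1 < V.valuation x₃ := third_big h1 h2 h3 h4 h6 s1 s2 s3 ha hb
  have ha0 : 0 < V.valuation x₁ := zero_lt_one.trans ha
  have hb0 : 0 < V.valuation x₂ := zero_lt_one.trans hb
  have hd0 : 0 < V.valuation x₃ := zero_lt_one.trans hd
  set M : V.ValueGroup := max (max (V.valuation x₁) (V.valuation x₂)) (V.valuation x₃) with hM
  set P : V.ValueGroup := V.valuation x₁ * V.valuation x₂ * V.valuation x₃ with hP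
  have h1M : 1 ≤ M := ha.le.trans ((le_max_left _ _).trans (le_max_left _ _))
  have hP0 : 0 < P := mul_pos (mul_pos ha0 hb0) hd0
  have hMP : M ≤ P := by
    refine max_le (max_le ?_ ?_) ?_
    · calc V.valuation x₁ = V.valuation x₁ * 1 * 1 := by rw [mul_one, mul_one]
        _ ≤ P := r3_mul_le (r3_mul_le le_rfl hb.le) hd.le
    · calc V.valuation x₂ = 1 * V.valuation x₂ * 1 := by rw [one_mul, mul_one]
        _ ≤ P := r3_mul_le (r3_mul_le ha.le le_rfl) hd.le
    · calc V.valuation x₃ = 1 * 1 * V.valuation x₃ := by rw [one_mul, one_mul]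
        _ ≤ P := r3_mul_le (r3_mul_le ha.le hb.le) le_rfl
  have h1P : 1 ≤ P := h1M.trans hMP
  have hl : V.valuation l ^ 2 ≤ M := by
    have e : l ^ 2 + a₁ * l = x₁ + x₂ + x₃ + a₂ := by rw [s1]; ring
    refine (r3_le h1 e).trans (max_le ?_ h1M)
    exact r3_add (r3_add (r3_add ((le_max_left _ _).trans (le_max_left _ _))
      ((le_max_right _ _).trans (le_max_left _ _))) (le_max_right _ _)) ((r3_mem h2).trans h1M)
  have hm : V.valuation m ^ 2 ≤ P := by
    have e : m ^ 2 + a₃ * m = x₁ * x₂ * x₃ + a₆ := by rw [s3]; ring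
    refine (r3_le h3 e).trans (max_le ?_ h1P)
    refine r3_add ?_ ((r3_mem h6).trans h1P)
    rw [map_mul, map_mul]
  -- the numerator
  have n2 : V.valuation (2 : k) ≤ 1 := by
    have := r3_nat (V := V) 2
    rwa [Nat.cast_ofNat] at this
  have n3 : V.valuation (3 : k) ≤ 1 := by
    have := r3_nat (V := V) 3
    rwa [Nat.cast_ofNat] at this
  set L : V.ValueGroup := V.valuation l with hL
  set K : V.ValueGroup := V.valuation m with hK
  have hsq : ∀ z : V.ValueGroup, z ^ 2 ≤ M * P ^ 2 → ∀ w : k, V.valuation w ≤ z →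
      V.valuation w ^ 2 ≤ M * P ^ 2 := fun z hz w hw => (pow_le_pow_left' hw 2).trans hz
  have hPP : P ≤ P ^ 2 := by
    rw [sq]
    calc P = 1 * P := (one_mul _).symm
      _ ≤ P * P := r3_mul_le h1P le_rfl
  have hNsq : V.valuation (a₃ * l ^ 2 * m - 3 * a₆ * l ^ 2 + 2 * a₄ * l * m - a₁ * l * m ^ 2 -
      a₂ * m ^ 2) ^ 2 ≤ M * P ^ 2 := by
    have t1 : V.valuation (a₃ * l ^ 2 * m) ^ 2 ≤ M * P ^ 2 := by
      refine hsq (L ^ 2 * K) ?_ _ ?_
      · calc (L ^ 2 * K) ^ 2 = (L ^ 2 * L ^ 2) * K ^ 2 := by rw [mul_pow, sq (L ^ 2)]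
          _ ≤ (M * P) * P := r3_mul_le (r3_mul_le hl (hl.trans hMP)) hm
          _ = M * P ^ 2 := by rw [sq, mul_assoc]
      · rw [map_mul, map_mul, map_pow]
        calc _ ≤ 1 * L ^ 2 * K := r3_mul_le (r3_mul_le (r3_mem h3) le_rfl) le_rfl
          _ = _ := by rw [one_mul]
    have t2 : V.valuation (3 * a₆ * l ^ 2) ^ 2 ≤ M * P ^ 2 := by
      refine hsq (L ^ 2) ?_ _ ?_
      · calc (L ^ 2) ^ 2 = L ^ 2 * L ^ 2 := sq _
          _ ≤ M * P := r3_mul_le hl (hl.trans hMP)
          _ ≤ M * P ^ 2 := r3_mul_le le_rfl hPP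
      · rw [map_mul, map_mul, map_pow]
        calc _ ≤ 1 * 1 * L ^ 2 := r3_mul_le (r3_mul_le n3 (r3_mem h6)) le_rfl
          _ = _ := by rw [one_mul, one_mul]
    have t3 : V.valuation (2 * a₄ * l * m) ^ 2 ≤ M * P ^ 2 := by
      refine hsq (L * K) ?_ _ ?_
      · calc (L * K) ^ 2 = L ^ 2 * K ^ 2 := mul_pow _ _ _
          _ ≤ M * P := r3_mul_le hl hm
          _ ≤ M * P ^ 2 := r3_mul_le le_rfl hPP
      · rw [map_mul, map_mul, map_mul]
        calc _ ≤ 1 * 1 * L * K := r3_mul_le (r3_mul_le (r3_mul_le n2 (r3_mem h4)) le_rfl) le_rfl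
          _ = _ := by rw [one_mul, one_mul]
    have t4 : V.valuation (a₁ * l * m ^ 2) ^ 2 ≤ M * P ^ 2 := by
      refine hsq (L * K ^ 2) ?_ _ ?_
      · calc (L * K ^ 2) ^ 2 = L ^ 2 * (K ^ 2 * K ^ 2) := by rw [mul_pow, sq (K ^ 2)]
          _ ≤ M * (P * P) := r3_mul_le hl (r3_mul_le hm hm)
          _ = M * P ^ 2 := by rw [sq]
      · rw [map_mul, map_mul, map_pow]
        calc _ ≤ 1 * L * K ^ 2 := r3_mul_le (r3_mul_le (r3_mem h1) le_rfl) le_rfl
          _ = _ := by rw [one_mul]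
    have t5 : V.valuation (a₂ * m ^ 2) ^ 2 ≤ M * P ^ 2 := by
      refine hsq (K ^ 2) ?_ _ ?_
      · calc (K ^ 2) ^ 2 = K ^ 2 * K ^ 2 := sq _
          _ ≤ P * P := r3_mul_le hm hm
          _ = 1 * P ^ 2 := by rw [sq, one_mul]
          _ ≤ M * P ^ 2 := r3_mul_le h1M le_rfl
      · rw [map_mul, map_pow]
        calc _ ≤ 1 * K ^ 2 := r3_mul_le (r3_mem h2) le_rfl
          _ = _ := by rw [one_mul]
    have comb : ∀ x y : k, V.valuation x ^ 2 ≤ M * P ^ 2 → V.valuation y ^ 2 ≤ M * P ^ 2 →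
        V.valuation (x - y) ^ 2 ≤ M * P ^ 2 ∧ V.valuation (x + y) ^ 2 ≤ M * P ^ 2 := by
      intro x y hx hy
      have e : max (V.valuation x) (V.valuation y) ^ 2 ≤ M * P ^ 2 := by
        rcases max_choice (V.valuation x) (V.valuation y) with h | h <;> rw [h] <;> assumption
      exact ⟨(pow_le_pow_left' (r3_sub (le_max_left _ _) (le_max_right _ _)) 2).trans e,
        (pow_le_pow_left' (r3_add (le_max_left _ _) (le_max_right _ _)) 2).trans e⟩
    exact (comb _ _ (comb _ _ (comb _ _ (comb _ _ t1 t2).1 t3).2 t4).1 t5).1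
  -- the three y
  have yn : ∀ x : k, 1 < V.valuation x → V.valuation (l * x + m) ^ 2 = V.valuation x ^ 3 →
      l * x + m ≠ 0 := by
    intro x hx hy h0
    rw [h0, map_zero, zero_pow two_ne_zero] at hy
    exact (pow_ne_zero 3 (zero_lt_one.trans hx).ne') hy.symm
  have q1 := yn x₁ ha y1
  have q2 := yn x₂ hb y2
  have q3 := yn x₃ hd y3
  have hsum : (x₁ / (l * x₁ + m) + x₂ / (l * x₂ + m) + x₃ / (l * x₃ + m)) *
      ((l * x₁ + m) * (l * x₂ + m) * (l * x₃ + m)) =
      a₃ * l ^ 2 * m - 3 * a₆ * l ^ 2 + 2 * a₄ * l * m - a₁ * l * m ^ 2 - a₂ * m ^ 2 := by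
    rw [← hN]
    generalize l * x₁ + m = A at q1 ⊢
    generalize l * x₂ + m = B at q2 ⊢
    generalize l * x₃ + m = C at q3 ⊢
    field_simp
  set S : V.ValueGroup := V.valuation (x₁ / (l * x₁ + m) + x₂ / (l * x₂ + m) + x₃ / (l * x₃ + m))
    with hS
  have hSP : S ^ 2 * P ≤ M := by
    have e1 : S ^ 2 * P ^ 3 ≤ M * P ^ 2 := by
      rw [← hsum, map_mul, map_mul, map_mul, mul_pow, mul_pow, mul_pow, y1, y2, y3, ← mul_pow,
        ← mul_pow] at hNsq
      exact hNsq
    have e2 : S ^ 2 * P * P ^ 2 ≤ M * P ^ 2 := by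
      calc S ^ 2 * P * P ^ 2 = S ^ 2 * P ^ 3 := by rw [mul_assoc, ← pow_succ']
        _ ≤ _ := e1
    exact le_of_mul_le_mul_right e2 (pow_pos hP0 2)
  have hc : ∀ x : k, 1 < V.valuation x → V.valuation (l * x + m) ^ 2 = V.valuation x ^ 3 →
      V.valuation (x / (l * x + m)) ≤ c → 1 ≤ c ^ 2 * V.valuation x := by
    intro x hx hy hxc
    have hx0 : V.valuation x ≠ 0 := (zero_lt_one.trans hx).ne'
    have e : V.valuation (x / (l * x + m)) ^ 2 * V.valuation x = 1 := by
      rw [map_div₀, div_pow, hy]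
      field_simp
    calc (1 : V.ValueGroup) = V.valuation (x / (l * x + m)) ^ 2 * V.valuation x := e.symm
      _ ≤ c ^ 2 * V.valuation x := r3_mul_le (pow_le_pow_left' hxc 2) le_rfl
  have ca := hc x₁ ha y1 hca
  have cb := hc x₂ hb y2 hcb
  by_contra hcon
  push Not at hcon
  have hcM : c ^ 2 * P ≤ M := (r3_mul_le (pow_le_pow_left' hcon 2) le_rfl).trans hSP
  rcases max_choice (max (V.valuation x₁) (V.valuation x₂)) (V.valuation x₃) with h | h
  · rcases max_choice (V.valuation x₁) (V.valuation x₂) with h' | h'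
    · rw [hM, h, h'] at hcM
      have e : (c ^ 2 * V.valuation x₂ * V.valuation x₃) * V.valuation x₁ ≤ 1 * V.valuation x₁ := by
        calc _ = c ^ 2 * P := by rw [hP]; ac_rfl
          _ ≤ _ := hcM
          _ = _ := (one_mul _).symm
      have e' := le_of_mul_le_mul_right e ha0
      have : V.valuation x₃ ≤ 1 := by
        calc V.valuation x₃ = 1 * V.valuation x₃ := (one_mul _).symm
          _ ≤ c ^ 2 * V.valuation x₂ * V.valuation x₃ := r3_mul_le cb le_rfl
          _ ≤ 1 := e'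
      exact absurd this (not_le.2 hd)
    · rw [hM, h, h'] at hcM
      have e : (c ^ 2 * V.valuation x₁ * V.valuation x₃) * V.valuation x₂ ≤ 1 * V.valuation x₂ := by
        calc _ = c ^ 2 * P := by rw [hP]; ac_rfl
          _ ≤ _ := hcM
          _ = _ := (one_mul _).symm
      have e' := le_of_mul_le_mul_right e hb0
      have : V.valuation x₃ ≤ 1 := by
        calc V.valuation x₃ = 1 * V.valuation x₃ := (one_mul _).symm
          _ ≤ c ^ 2 * V.valuation x₁ * V.valuation x₃ := r3_mul_le ca le_rfl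
          _ ≤ 1 := e'
      exact absurd this (not_le.2 hd)
  · rw [hM, h] at hcM
    have e : (c ^ 2 * V.valuation x₁ * V.valuation x₂) * V.valuation x₃ ≤ 1 * V.valuation x₃ := by
      calc _ = c ^ 2 * P := by rw [hP]; ac_rfl
        _ ≤ _ := hcM
        _ = _ := (one_mul _).symm
    have e' := le_of_mul_le_mul_right e hd0
    have : V.valuation x₂ ≤ 1 := by
      calc V.valuation x₂ = 1 * V.valuation x₂ := (one_mul _).symm
        _ ≤ c ^ 2 * V.valuation x₁ * V.valuation x₂ := r3_mul_le ca le_rfl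
        _ ≤ 1 := e'
    exact absurd this (not_le.2 hb)

end H35P
end

-- from Lib.H35P.R4
section

open WeierstrassCurve

namespace H35P

variable {k : Type} [Field k] [DecidableEq k] {W : WeierstrassCurve k} {V : ValuationSubring k}

/-! Chunk R4 (M). The kernel of reduction is a subgroup and x/y is almost additive.
ker_add: P, Q = 0 trivial. Both affine: if x₁ = x₂ and y₁ = negY the sum is 0. Otherwise Point.add_some, vieta, third_big
(the x-coordinate of P + Q is x₃).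
tt_add: P = 0 or Q = 0: the value is 0 < c. P = -Q: tt(-Q) + tt Q, tt_neg, c < 1. Otherwise let
R = (x₃, l x₃ + m) (nonsingular_negAdd); P + Q = -R; third_tt: v(t(P) + t(Q) + t(R)) < c, so v(t(R)) ≤ c and
v(t(-R) + t(R)) ≤ v(t(R))^2 ≤ c^2 < c.
(val_y applies to R by ker.) -/

theorem ker_add (hI : IntW W V) (P Q : W.toAffine.Point) (hP : Ker V P) (hQ : Ker V Q) : Ker V (P + Q) := by
  rcases P with _ | ⟨x₁, y₁, h₁⟩
  · change Ker V (0 + Q)
    rwa [zero_add]
  rcases Q with _ | ⟨x₂, y₂, h₂⟩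
  · change Ker V (_ + 0)
    rwa [add_zero]
  by_cases hxy : x₁ = x₂ ∧ y₁ = W.toAffine.negY x₂ y₂
  · rw [Affine.Point.add_of_Y_eq hxy.1 hxy.2]
    exact trivial
  · rw [Affine.Point.add_some hxy]
    obtain ⟨s1, s2, s3, -⟩ := vieta h₁.1 h₂.1 hxy _ _ _ rfl rfl rfl
    exact third_big hI.a1 hI.a2 hI.a3 hI.a4 hI.a6 s1 s2 s3 hP hQ

theorem r4_sq {Γ : Type*} [LinearOrderedCommGroupWithZero Γ] {c : Γ} (h0 : 0 < c) (h1 : c < 1) :
    c ^ 2 < c := by
  rw [sq]
  calc c * c < c * 1 := mul_lt_mul_of_pos_left h1 h0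
    _ = c := mul_one c

theorem tt_add (hI : IntW W V) (P Q : W.toAffine.Point) (hP : Ker V P) (hQ : Ker V Q) (c : V.ValueGroup)
    (h0 : 0 < c) (h1 : c < 1) (hPc : V.valuation (tt P) ≤ c) (hQc : V.valuation (tt Q) ≤ c) :
    V.valuation (tt (P + Q) - tt P - tt Q) < c := by
  rcases P with _ | ⟨x₁, y₁, h₁⟩
  · have e : tt (W := W) (Affine.Point.zero + Q) - tt (W := W) Affine.Point.zero - tt Q = 0 := by
      change tt (0 + Q) - 0 - tt Q = 0
      rw [zero_add, sub_zero, sub_self]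
    rw [e, map_zero]
    exact h0
  rcases Q with _ | ⟨x₂, y₂, h₂⟩
  · have e : tt (W := W) (Affine.Point.some x₁ y₁ h₁ + Affine.Point.zero) -
        tt (W := W) (Affine.Point.some x₁ y₁ h₁) - tt (W := W) Affine.Point.zero = 0 := by
      change tt (Affine.Point.some x₁ y₁ h₁ + 0) - tt (W := W) (Affine.Point.some x₁ y₁ h₁) - 0 = 0
      rw [add_zero, sub_zero, sub_self]
    rw [e, map_zero]
    exact h0
  by_cases hxy : x₁ = x₂ ∧ y₁ = W.toAffine.negY x₂ y₂
  · have e0 : (Affine.Point.some x₁ y₁ h₁ : W.toAffine.Point) + Affine.Point.some x₂ y₂ h₂ = 0 :=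
      Affine.Point.add_of_Y_eq hxy.1 hxy.2
    have e1 : (Affine.Point.some x₁ y₁ h₁ : W.toAffine.Point) = -Affine.Point.some x₂ y₂ h₂ :=
      eq_neg_of_add_eq_zero_left e0
    have e2 := tt_neg hI _ hQ
    have e3 : tt (0 : W.toAffine.Point) = 0 := rfl
    rw [e0, e1, e3, zero_sub, sub_eq_add_neg, ← neg_add, Valuation.map_neg]
    exact (e2.trans (pow_le_pow_left' hQc 2)).trans_lt (r4_sq h0 h1)
  · obtain ⟨s1, s2, s3, p1, p2, p3, hN⟩ := vieta h₁.1 h₂.1 hxy _ _ _ rfl rfl rfl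
    set l : k := W.toAffine.slope x₁ x₂ y₁ y₂ with hl
    set x₃ : k := W.toAffine.addX x₁ x₂ l with hx₃
    set m : k := y₁ - l * x₁ with hm
    set y₃ : k := W.toAffine.negAddY x₁ x₂ y₁ l with hy₃
    have h₃ : W.toAffine.Nonsingular x₃ y₃ := Affine.nonsingular_negAdd h₁ h₂ hxy
    have hd : 1 < V.valuation x₃ := third_big hI.a1 hI.a2 hI.a3 hI.a4 hI.a6 s1 s2 s3 hP hQ
    have v1 := (val_y hI h₁.1 hP).1
    have v2 := (val_y hI h₂.1 hQ).1
    have v3 := (val_y hI h₃.1 hd).1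
    have hR : Ker V (Affine.Point.some x₃ y₃ h₃ : W.toAffine.Point) := hd
    have hsum : (Affine.Point.some x₁ y₁ h₁ : W.toAffine.Point) + Affine.Point.some x₂ y₂ h₂ =
        -Affine.Point.some x₃ y₃ h₃ := by
      rw [Affine.Point.add_some hxy, Affine.Point.neg_some]
      rfl
    have key : V.valuation (tt (W := W) (Affine.Point.some x₁ y₁ h₁) +
        tt (W := W) (Affine.Point.some x₂ y₂ h₂) + tt (W := W) (Affine.Point.some x₃ y₃ h₃)) < c := by
      have hPc' : V.valuation (x₁ / y₁) ≤ c := hPc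
      have hQc' : V.valuation (x₂ / y₂) ≤ c := hQc
      change V.valuation (x₁ / y₁ + x₂ / y₂ + x₃ / y₃) < c
      rw [p1] at v1 hPc'
      rw [p2] at v2 hQc'
      rw [p3] at v3
      rw [p1, p2, p3]
      exact third_tt hI.a1 hI.a2 hI.a3 hI.a4 hI.a6 s1 s2 s3 hN hP hQ v1 v2 v3 c hPc' hQc'
    have hRc : V.valuation (tt (W := W) (Affine.Point.some x₃ y₃ h₃)) ≤ c := by
      have e : tt (W := W) (Affine.Point.some x₃ y₃ h₃) =
          (tt (W := W) (Affine.Point.some x₁ y₁ h₁) + tt (W := W) (Affine.Point.some x₂ y₂ h₂) +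
            tt (W := W) (Affine.Point.some x₃ y₃ h₃)) - tt (W := W) (Affine.Point.some x₁ y₁ h₁) -
              tt (W := W) (Affine.Point.some x₂ y₂ h₂) := by ring
      rw [e]
      exact Valuation.map_sub_le _ (Valuation.map_sub_le _ key.le hPc) hQc
    have hneg := tt_neg hI _ hR
    have e : tt (W := W) (-Affine.Point.some x₃ y₃ h₃) - tt (W := W) (Affine.Point.some x₁ y₁ h₁) -
        tt (W := W) (Affine.Point.some x₂ y₂ h₂) =
        (tt (W := W) (-Affine.Point.some x₃ y₃ h₃) + tt (W := W) (Affine.Point.some x₃ y₃ h₃)) -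
          (tt (W := W) (Affine.Point.some x₁ y₁ h₁) + tt (W := W) (Affine.Point.some x₂ y₂ h₂) +
            tt (W := W) (Affine.Point.some x₃ y₃ h₃)) := by ring
    rw [hsum, e]
    exact Valuation.map_sub_lt _ ((hneg.trans (pow_le_pow_left' hRc 2)).trans_lt (r4_sq h0 h1)) key

end H35P
end

-- from Lib.H35P.FG
section

open WeierstrassCurve

namespace H35P

variable {k : Type} [Field k] [DecidableEq k] {W : WeierstrassCurve k} {V : ValuationSubring k}

/-! Chunk FG (S/M). Induction on n with c = v(t(T)), T ≠ 0 (so 0 < c < 1, tt_eq_zero, tt_lt): Ker V (n T) and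
v(t(n T) - n t(T)) < c. Step: t((n+1)T) - (n+1) t(T) = (t(nT + T) - t(nT) - t(T)) + (t(nT) - n t(T)), and v(t(nT)) ≤ c.
For v(n) = 1 and n T = 0: v(n t(T)) = c < c, contradiction.
torsion_int: contrapositive with int_y. -/

omit [DecidableEq k] in
theorem FG_zero : tt (0 : W.toAffine.Point) = 0 := rfl

omit [DecidableEq k] in
theorem FG_nat (n : ℕ) : V.valuation (n : k) ≤ 1 := by
  rw [V.valuation_le_one_iff]
  exact natCast_mem V n

theorem FG_ind (hI : IntW W V) (T : W.toAffine.Point) (hK : Ker V T) (hT : T ≠ 0) (n : ℕ) :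
    Ker V (n • T) ∧ V.valuation (tt (n • T) - n * tt T) < V.valuation (tt T) := by
  have h0 : 0 < V.valuation (tt T) := by
    rw [zero_lt_iff, Valuation.ne_zero_iff]
    exact fun h => hT ((tt_eq_zero hI T hK).1 h)
  have h1 := tt_lt hI T hK
  induction n with
  | zero =>
    refine ⟨?_, ?_⟩
    · rw [zero_smul]
      exact True.intro
    · rw [zero_smul, FG_zero, Nat.cast_zero, zero_mul, sub_zero, map_zero]
      exact h0
  | succ n ih =>
    obtain ⟨hk, hv⟩ := ih
    have hc : V.valuation (tt (n • T)) ≤ V.valuation (tt T) := by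
      have e : tt (n • T) = (tt (n • T) - n * tt T) + n * tt T := by ring
      rw [e]
      refine (Valuation.map_add _ _ _).trans (max_le hv.le ?_)
      rw [map_mul]
      exact mul_le_of_le_one_left' (FG_nat n)
    rw [succ_nsmul]
    refine ⟨ker_add hI _ _ hk hK, ?_⟩
    have h2 := tt_add hI (n • T) T hk hK _ h0 h1 hc le_rfl
    have e : tt (n • T + T) - ((n + 1 : ℕ) : k) * tt T =
        (tt (n • T + T) - tt (n • T) - tt T) + (tt (n • T) - n * tt T) := by
      rw [Nat.cast_add, Nat.cast_one]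
      ring
    rw [e]
    exact (Valuation.map_add _ _ _).trans_lt (max_lt h2 hv)

/-- The kernel of reduction has no torsion prime to the residue characteristic. -/
theorem fg (hI : IntW W V) (T : W.toAffine.Point) (n : ℕ) (hn : V.valuation (n : k) = 1) (hT : n • T = 0)
    (hK : Ker V T) : T = 0 := by
  by_contra h
  obtain ⟨-, h1⟩ := FG_ind hI T hK h n
  rw [hT, FG_zero, zero_sub, Valuation.map_neg, map_mul, hn, one_mul] at h1
  exact lt_irrefl _ h1

/-- Torsion points prime to the residue characteristic are integral. -/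
theorem torsion_int (hI : IntW W V) (T : W.toAffine.Point) (n : ℕ) (hn : V.valuation (n : k) = 1)
    (hT : n • T = 0) (h0 : T ≠ 0) : ∃ x y h, T = .some x y h ∧ x ∈ V ∧ y ∈ V := by
  rcases T with _ | ⟨x, y, h⟩
  · exact absurd rfl h0
  · refine ⟨x, y, h, rfl, ?_⟩
    have hx : V.valuation x ≤ 1 := by
      by_contra hx
      exact h0 (fg hI _ n hn hT (not_le.1 hx))
    have hy := int_y hI h.1 hx
    rw [V.valuation_le_one_iff] at hx hy
    exact ⟨hx, hy⟩

theorem ker_sub (hI : IntW W V) (P Q : W.toAffine.Point) (hP : Ker V P) (hQ : Ker V Q) : Ker V (P - Q) := by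
  rw [sub_eq_add_neg]
  exact ker_add hI P (-Q) hP ((ker_neg Q).2 hQ)

end H35P
end

-- from Lib.H35P.RD
section

open WeierstrassCurve

namespace H35P

variable {k : Type} [Field k] [DecidableEq k] {W : WeierstrassCurve k} {V : ValuationSubring k}

omit [DecidableEq k] in
private theorem RD_le {a : k} (h : a ∈ V) : V.valuation a ≤ 1 := (V.valuation_le_one_iff a).2 h

/-- An integral combination with one factor of value less than one. -/
private theorem RD_mul_lt {a b : k} (h : a ∈ V) (hb : V.valuation b < 1) : V.valuation (a * b) < 1 := by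
  rw [map_mul]
  exact (mul_le_of_le_one_left' (RD_le h)).trans_lt hb

private theorem RD_big (hI : IntW W V) {x₁ x₂ l : k} (h1 : x₁ ∈ V) (h2 : x₂ ∈ V) (hl : 1 < V.valuation l) :
    1 < V.valuation (W.toAffine.addX x₁ x₂ l) := by
  have e : W.toAffine.addX x₁ x₂ l = l ^ 2 + (W.a₁ * l - (W.a₂ + x₁ + x₂)) := by
    unfold Affine.addX
    ring
  have hll : V.valuation l < V.valuation (l ^ 2) := by
    rw [map_pow, pow_two]
    exact lt_mul_of_one_lt_left (zero_lt_one.trans hl) hl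
  have h3 : V.valuation (W.a₁ * l - (W.a₂ + x₁ + x₂)) < V.valuation (l ^ 2) := by
    refine lt_of_le_of_lt (V.valuation.map_sub_le ?_ ?_) hll
    · rw [map_mul]
      exact mul_le_of_le_one_left' (RD_le hI.a1)
    · exact (RD_le (V.add_mem _ _ (V.add_mem _ _ hI.a2 h1) h2)).trans hl.le
  rw [e, V.valuation.map_add_eq_of_lt_left h3]
  exact hl.trans hll

omit [DecidableEq k] in
private theorem RD_div {a b : k} (ha : V.valuation a = 1) (hb : V.valuation b < 1) (hb0 : b ≠ 0) :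
    1 < V.valuation (a / b) := by
  rw [map_div₀, ha, one_div]
  exact (one_lt_inv₀ ((V.valuation.pos_iff).2 hb0)).2 hb

/-! Chunk RD (M). v = V.valuation. nonsing: the polynomials F_y = 2y + a1 x + a3 and F_x = a1 y - 3x^2 - 2 a2 x - a4 are
not both of value < 1 at an integral point: reduce to the residue field V/m, where the reduced curve has Δ ≠ 0
(WeierstrassCurve.map_Δ, IsElliptic), so the reduced point is nonsingular
(Affine.equation_iff_nonsingular, nonsingular_iff); or use an explicit Bezout identity for Δ.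
rd: P - Q = P + (-Q), -Q = (x₂, -y₂ - a1 x₂ - a3). Put n1 = y₁ + y₂ + a1 x₂ + a3. Identity:
n1 (y₁ - y₂) = (x₁ - x₂)(x₁^2 + x₁x₂ + x₂^2 + a2(x₁+x₂) + a4 - a1 y₁).
x₁ ≠ x₂: slope l = n1/(x₁ - x₂). If v(F_y(P)) = 1 then v(n1) = 1, v(l) > 1. If v(F_y(P)) < 1 then v(F_x(P)) = 1, the second factor
has value 1, y₁ ≠ y₂ and l = (second factor)/(y₁ - y₂), v(l) > 1. In both cases x₃ = l^2 + a1 l - a2 - x₁ - x₂ has value
v(l)^2 > 1.
x₁ = x₂: y₁ = y₂ (then P - Q = 0) or y₁ = negY x₂ y₂ and y₁ ≠ y₂: P - Q = 2P, slope -F_x/F_y with F_y(P) = y₁ - y₂ of value < 1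
and nonzero, so v(F_x) = 1, v(l) > 1. -/

theorem nonsing (hG : GoodW W V) {x y : k} (h : W.toAffine.Equation x y) (hx : x ∈ V) (hy : y ∈ V)
    (h1 : V.valuation (2 * y + W.a₁ * x + W.a₃) < 1) :
    V.valuation (3 * x ^ 2 + 2 * W.a₂ * x + W.a₄ - W.a₁ * y) = 1 := by
  set W' : WeierstrassCurve V := ⟨⟨W.a₁, hG.a1⟩, ⟨W.a₂, hG.a2⟩, ⟨W.a₃, hG.a3⟩, ⟨W.a₄, hG.a4⟩, ⟨W.a₆, hG.a6⟩⟩ with hW'
  have hmap : W'.map V.subtype = W := by
    ext <;> rfl
  have hΔ : V.valuation ((W'.Δ : V) : k) = 1 := by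
    have h2 : ((W'.Δ : V) : k) = W.Δ := by
      conv_rhs => rw [← hmap]
      rw [WeierstrassCurve.map_Δ]
      rfl
    rw [h2]
    exact hG.disc
  have hu : IsUnit W'.Δ := (V.valuation_eq_one_iff _).2 hΔ
  have hΔ2 : (W'.map (IsLocalRing.residue V)).Δ ≠ 0 := by
    rw [WeierstrassCurve.map_Δ]
    exact (hu.map (IsLocalRing.residue V)).ne_zero
  have hE : W'.toAffine.Equation (⟨x, hx⟩ : V) ⟨y, hy⟩ := by
    rw [Affine.equation_iff] at h ⊢
    exact Subtype.ext h
  have hE2 := hE.map (IsLocalRing.residue V)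
  have hN := ((Affine.equation_iff_nonsingular_of_Δ_ne_zero (W := (W'.map (IsLocalRing.residue V)).toAffine) hΔ2).1 hE2)
  rw [Affine.nonsingular_iff'] at hN
  obtain ⟨-, hN⟩ := hN
  set Fy : V := 2 * ⟨y, hy⟩ + W'.a₁ * ⟨x, hx⟩ + W'.a₃ with hFy
  set Fx : V := W'.a₁ * ⟨y, hy⟩ - (3 * ⟨x, hx⟩ ^ 2 + 2 * W'.a₂ * ⟨x, hx⟩ + W'.a₄) with hFx
  have e1 : 2 * (IsLocalRing.residue V) ⟨y, hy⟩ + (W'.map (IsLocalRing.residue V)).a₁ * (IsLocalRing.residue V) ⟨x, hx⟩ +
      (W'.map (IsLocalRing.residue V)).a₃ = IsLocalRing.residue V Fy := by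
    rw [hFy]
    simp only [map_add, map_mul, map_ofNat]
    rfl
  have e2 : (W'.map (IsLocalRing.residue V)).a₁ * (IsLocalRing.residue V) ⟨y, hy⟩ -
      (3 * (IsLocalRing.residue V) ⟨x, hx⟩ ^ 2 + 2 * (W'.map (IsLocalRing.residue V)).a₂ * (IsLocalRing.residue V) ⟨x, hx⟩ +
      (W'.map (IsLocalRing.residue V)).a₄) = IsLocalRing.residue V Fx := by
    rw [hFx]
    simp only [map_add, map_mul, map_sub, map_pow, map_ofNat]
    rfl
  have h0 : IsLocalRing.residue V Fy = 0 := by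
    rw [IsLocalRing.residue_eq_zero_iff, V.valuation_lt_one_iff]
    exact h1
  have h3 : IsLocalRing.residue V Fx ≠ 0 := by
    rcases hN with hN | hN
    · rw [← e2]
      exact hN
    · exact absurd (e1.trans h0) hN
  have h4 : ¬ V.valuation ((Fx : V) : k) < 1 := by
    rw [← V.valuation_lt_one_iff, ← IsLocalRing.residue_eq_zero_iff]
    exact h3
  have h5 : V.valuation ((Fx : V) : k) = 1 := le_antisymm (V.valuation_le_one Fx) (not_lt.1 h4)
  have h6 : V.subtype Fx = -(3 * x ^ 2 + 2 * W.a₂ * x + W.a₄ - W.a₁ * y) := by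
    rw [hFx]
    simp only [map_sub, map_add, map_mul, map_pow, map_ofNat]
    simp only [hW', ValuationSubring.subtype_apply]
    ring
  change V.valuation (V.subtype Fx) = 1 at h5
  rw [h6, Valuation.map_neg] at h5
  exact h5

/-- The difference of two congruent points lies in the kernel of reduction. -/
theorem rd (hG : GoodW W V) (P Q : W.toAffine.Point) (h : Cong V P Q) : Ker V (P - Q) := by
  obtain ⟨x₁, y₁, h₁, x₂, y₂, h₂, rfl, rfl, hx1, hy1, hx2, hy2, hx, hy⟩ := h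
  have hI : IntW W V := hG.toIntW
  rw [sub_eq_add_neg, Affine.Point.neg_some]
  by_cases hc : x₁ = x₂ ∧ y₁ = W.toAffine.negY x₂ (W.toAffine.negY x₂ y₂)
  · rw [Affine.Point.add_of_Y_eq hc.1 hc.2]
    trivial
  rw [Affine.Point.add_some hc]
  change 1 < V.valuation (W.toAffine.addX x₁ x₂ (W.toAffine.slope x₁ x₂ y₁ (W.toAffine.negY x₂ y₂)))
  refine RD_big hI hx1 hx2 ?_
  have hE1 := (Affine.equation_iff ..).1 h₁.1
  have hE2 := (Affine.equation_iff ..).1 h₂.1
  by_cases hxx : x₁ = x₂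
  · -- tangent
    have hyy : y₁ ≠ y₂ := fun h => hc ⟨hxx, by rw [Affine.negY_negY]; exact h⟩
    have hneg : y₁ = W.toAffine.negY x₂ y₂ := (Affine.Y_eq_of_X_eq h₁.1 h₂.1 hxx).resolve_left hyy
    have hy' : y₁ ≠ W.toAffine.negY x₂ (W.toAffine.negY x₂ y₂) := fun h => hc ⟨hxx, h⟩
    rw [Affine.slope_of_Y_ne hxx hy']
    have e : y₁ - W.toAffine.negY x₁ y₁ = y₁ - y₂ := by
      congr 1
      rw [hneg, hxx, Affine.negY_negY]
    have e2 : 2 * y₁ + W.a₁ * x₁ + W.a₃ = y₁ - y₂ := by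
      rw [← e]
      unfold Affine.negY
      ring
    rw [e]
    exact RD_div (nonsing hG h₁.1 hx1 hy1 (by rw [e2]; exact hy)) hy (sub_ne_zero.2 hyy)
  · -- chord
    have hxx0 : x₁ - x₂ ≠ 0 := sub_ne_zero.2 hxx
    rw [Affine.slope_of_X_ne hxx]
    have hFy1 : V.valuation (2 * y₁ + W.a₁ * x₁ + W.a₃) ≤ 1 :=
      RD_le (V.add_mem _ _ (V.add_mem _ _ (V.mul_mem _ _ (by simp) hy1) (V.mul_mem _ _ hG.a1 hx1)) hG.a3)
    have hnegY : y₁ - W.toAffine.negY x₂ y₂ = y₁ + y₂ + W.a₁ * x₂ + W.a₃ := by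
      unfold Affine.negY
      ring
    rcases hFy1.lt_or_eq with hF | hF
    · have hFx := nonsing hG h₁.1 hx1 hy1 hF
      have hG1 : V.valuation (x₁ ^ 2 + x₁ * x₂ + x₂ ^ 2 + W.a₂ * (x₁ + x₂) + W.a₄ - W.a₁ * y₁) = 1 := by
        have e : x₁ ^ 2 + x₁ * x₂ + x₂ ^ 2 + W.a₂ * (x₁ + x₂) + W.a₄ - W.a₁ * y₁ =
            (3 * x₁ ^ 2 + 2 * W.a₂ * x₁ + W.a₄ - W.a₁ * y₁) + -((x₂ + 2 * x₁ + W.a₂) * (x₁ - x₂)) := by ring
        rw [e, V.valuation.map_add_eq_of_lt_left, hFx]
        rw [hFx, Valuation.map_neg]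
        exact RD_mul_lt (V.add_mem _ _ (V.add_mem _ _ hx2 (V.mul_mem _ _ (by simp) hx1)) hG.a2) hx
      have hid : (y₁ - W.toAffine.negY x₂ y₂) * (y₁ - y₂) =
          (x₁ - x₂) * (x₁ ^ 2 + x₁ * x₂ + x₂ ^ 2 + W.a₂ * (x₁ + x₂) + W.a₄ - W.a₁ * y₁) := by
        rw [hnegY]
        linear_combination hE1 - hE2
      have hyy : y₁ - y₂ ≠ 0 := by
        intro h0
        rw [h0, mul_zero] at hid
        rcases mul_eq_zero.1 hid.symm with h | h
        · exact hxx0 h
        · rw [h, map_zero] at hG1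
          exact zero_ne_one hG1
      have e : (y₁ - W.toAffine.negY x₂ y₂) / (x₁ - x₂) =
          (x₁ ^ 2 + x₁ * x₂ + x₂ ^ 2 + W.a₂ * (x₁ + x₂) + W.a₄ - W.a₁ * y₁) / (y₁ - y₂) := by
        rw [div_eq_div_iff hxx0 hyy, hid]
        ring
      rw [e]
      exact RD_div hG1 hy hyy
    · have hn : V.valuation (y₁ - W.toAffine.negY x₂ y₂) = 1 := by
        have e : y₁ - W.toAffine.negY x₂ y₂ = (2 * y₁ + W.a₁ * x₁ + W.a₃) + -((y₁ - y₂) + W.a₁ * (x₁ - x₂)) := by
          rw [hnegY]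
          ring
        rw [e, V.valuation.map_add_eq_of_lt_left, hF]
        rw [hF, Valuation.map_neg]
        exact V.valuation.map_add_lt hy (RD_mul_lt hG.a1 hx)
      exact RD_div hn hx hxx0

end H35P
end

-- from Lib.H35P.SL
section

open WeierstrassCurve

namespace H35P

variable {k : Type} [Field k] [DecidableEq k] {W : WeierstrassCurve k} {V : ValuationSubring k}

/-! Chunk SL (S/M). inj: rd and fg for P - Q. cong_neg: trivial.
slope_int: P = (x₁, y₁), Q = (x₂, y₂) integral (torsion_int). P = Q: slope = (3x^2 + 2 a2 x + a4 - a1 y)/(y - negY x y); if v(y - negY x y) < 1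
then P and -P are congruent, so P = -P, P + Q = 0. P ≠ Q: x₁ ≠ x₂ (Y_eq_of_X_eq). If v(x₁ - x₂) < 1 the identity
(y₁ - y₂)(y₁ - negY x₂ y₂) = (x₁ - x₂)(..) (see RD) gives v(y₁ - y₂) < 1 or v(y₁ - negY x₂ y₂) < 1, so P = Q or P = -Q by inj,
contradiction; so v(x₁ - x₂) = 1. -/

/-- Reduction is injective on torsion prime to the residue characteristic. -/
theorem inj (hG : GoodW W V) (P Q : W.toAffine.Point) (n : ℕ) (hn : V.valuation (n : k) = 1) (hP : n • P = 0)
    (hQ : n • Q = 0) (h : Cong V P Q) : P = Q := by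
  have h1 := rd hG P Q h
  have h2 : n • (P - Q) = 0 := by rw [nsmul_sub, hP, hQ, sub_zero]
  exact sub_eq_zero.mp (fg hG.toIntW (P - Q) n hn h2 h1)

theorem SL_mem {x₁ y₁ : k} (hG : GoodW W V) (h₁ : W.toAffine.Nonsingular x₁ y₁) (n : ℕ)
    (hn : V.valuation (n : k) = 1)
    (hP : n • (Affine.Point.some x₁ y₁ h₁ : W.toAffine.Point) = 0) : x₁ ∈ V ∧ y₁ ∈ V := by
  obtain ⟨x, y, h, h0, hx, hy⟩ := torsion_int hG.toIntW _ n hn hP (Affine.Point.some_ne_zero h₁)
  simp only [Affine.Point.some.injEq] at h0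
  rw [h0.1, h0.2]
  exact ⟨hx, hy⟩

/-- The slope of the line through two torsion points is integral. -/
theorem slope_int (hG : GoodW W V) {x₁ y₁ x₂ y₂ : k} (h₁ : W.toAffine.Nonsingular x₁ y₁)
    (h₂ : W.toAffine.Nonsingular x₂ y₂) (n : ℕ) (hn : V.valuation (n : k) = 1)
    (hP : n • (Affine.Point.some x₁ y₁ h₁ : W.toAffine.Point) = 0)
    (hQ : n • (Affine.Point.some x₂ y₂ h₂ : W.toAffine.Point) = 0)
    (hxy : ¬(x₁ = x₂ ∧ y₁ = W.toAffine.negY x₂ y₂)) :
    V.valuation (W.toAffine.slope x₁ x₂ y₁ y₂) ≤ 1 := by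
  obtain ⟨hx1, hy1⟩ := SL_mem hG h₁ n hn hP
  obtain ⟨hx2, hy2⟩ := SL_mem hG h₂ n hn hQ
  have ha1 := hG.a1
  have ha2 := hG.a2
  have ha3 := hG.a3
  have ha4 := hG.a4
  have hneg : ∀ x y : k, x ∈ V → y ∈ V → W.toAffine.negY x y ∈ V := fun x y hx hy => by
    rw [Affine.negY]
    exact sub_mem (sub_mem (neg_mem hy) (mul_mem ha1 hx)) ha3
  have hQn : n • (-(Affine.Point.some x₂ y₂ h₂) : W.toAffine.Point) = 0 := by
    rw [smul_neg, hQ, neg_zero]
  by_cases hx : x₁ = x₂
  · have hy : y₁ ≠ W.toAffine.negY x₂ y₂ := fun h => hxy ⟨hx, h⟩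
    have hyy : y₁ = y₂ := Affine.Y_eq_of_Y_ne h₁.1 h₂.1 hx hy
    rw [Affine.slope_of_Y_ne hx hy]
    subst hx
    subst hyy
    have hd : V.valuation (y₁ - W.toAffine.negY x₁ y₁) = 1 := by
      refine le_antisymm ((V.valuation_le_one_iff _).mpr (sub_mem hy1 (hneg _ _ hx1 hy1))) ?_
      by_contra hlt
      push Not at hlt
      have hc : Cong V (Affine.Point.some x₁ y₁ h₁ : W.toAffine.Point)
          (-(Affine.Point.some x₁ y₁ h₂)) := by
        refine ⟨x₁, y₁, h₁, x₁, W.toAffine.negY x₁ y₁, (Affine.nonsingular_neg ..).mpr h₂, rfl, ?_,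
          hx1, hy1, hx1, hneg _ _ hx1 hy1, ?_, hlt⟩
        · exact Affine.Point.neg_some h₂
        · rw [sub_self, map_zero]
          exact zero_lt_one
      have he := inj hG _ _ n hn hP hQn hc
      rw [Affine.Point.neg_some] at he
      simp only [Affine.Point.some.injEq] at he
      exact hy he.2
    rw [map_div₀, hd, div_one]
    refine (V.valuation_le_one_iff _).mpr ?_
    have h3 : (3 : k) ∈ V := by exact_mod_cast natCast_mem V 3
    have h2 : (2 : k) ∈ V := by exact_mod_cast natCast_mem V 2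
    exact sub_mem (add_mem (add_mem (mul_mem h3 (pow_mem hx1 2)) (mul_mem (mul_mem h2 ha2) hx1)) ha4)
      (mul_mem ha1 hy1)
  · rw [Affine.slope_of_X_ne hx]
    have hd : V.valuation (x₁ - x₂) = 1 := by
      refine le_antisymm ((V.valuation_le_one_iff _).mpr (sub_mem hx1 hx2)) ?_
      by_contra hlt
      push Not at hlt
      have e1 := (Affine.equation_iff _ _).mp h₁.1
      have e2 := (Affine.equation_iff _ _).mp h₂.1
      have hid : (y₁ - W.toAffine.negY x₂ y₂) * (y₁ - y₂) =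
          (x₁ - x₂) * (x₁ ^ 2 + x₁ * x₂ + x₂ ^ 2 + W.a₂ * (x₁ + x₂) + W.a₄ - W.a₁ * y₁) := by
        rw [Affine.negY]
        linear_combination e1 - e2
      have hmem : x₁ ^ 2 + x₁ * x₂ + x₂ ^ 2 + W.a₂ * (x₁ + x₂) + W.a₄ - W.a₁ * y₁ ∈ V :=
        sub_mem (add_mem (add_mem (add_mem (add_mem (pow_mem hx1 2) (mul_mem hx1 hx2)) (pow_mem hx2 2))
          (mul_mem ha2 (add_mem hx1 hx2))) ha4) (mul_mem ha1 hy1)
      have hv : V.valuation (y₁ - W.toAffine.negY x₂ y₂) * V.valuation (y₁ - y₂) < 1 := by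
        rw [← map_mul, hid, map_mul]
        exact mul_lt_one_of_lt_of_le hlt ((V.valuation_le_one_iff _).mpr hmem)
      have hor : V.valuation (y₁ - W.toAffine.negY x₂ y₂) < 1 ∨ V.valuation (y₁ - y₂) < 1 := by
        by_contra hc
        push Not at hc
        exact absurd hv (not_lt.mpr (one_le_mul hc.1 hc.2))
      rcases hor with h | h
      · have hc : Cong V (Affine.Point.some x₁ y₁ h₁ : W.toAffine.Point)
            (-(Affine.Point.some x₂ y₂ h₂)) :=
          ⟨x₁, y₁, h₁, x₂, W.toAffine.negY x₂ y₂, (Affine.nonsingular_neg ..).mpr h₂, rfl,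
            Affine.Point.neg_some h₂, hx1, hy1, hx2, hneg _ _ hx2 hy2, hlt, h⟩
        have he := inj hG _ _ n hn hP hQn hc
        rw [Affine.Point.neg_some] at he
        simp only [Affine.Point.some.injEq] at he
        exact hx he.1
      · have hc : Cong V (Affine.Point.some x₁ y₁ h₁ : W.toAffine.Point)
            (Affine.Point.some x₂ y₂ h₂) :=
          ⟨x₁, y₁, h₁, x₂, y₂, h₂, rfl, rfl, hx1, hy1, hx2, hy2, hlt, h⟩
        have he := inj hG _ _ n hn hP hQ hc
        simp only [Affine.Point.some.injEq] at he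
        exact hx he.1
    rw [map_div₀, hd, div_one]
    exact (V.valuation_le_one_iff _).mpr (sub_mem hy1 hy2)

end H35P
end

-- from Lib.H55K.W1C
section

/-! # H55K, part W: the coordinate ring is a Dedekind domain -/

open Polynomial

open scoped Polynomial.Bivariate

namespace H55K.WZ

open WeierstrassCurve (Affine)

variable {k : Type} [Field k] (W : Affine k)

/-- Chunk W1C (S/M). IsDedekindDomain R: domain (Mathlib), Noetherian (finite module over the Noetherian ring k[X]: isNoetherian_of_isNoetherianRing_of_finite, isNoetherian_of_tower k[X] or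
Algebra.FiniteType), dimension at most one (a nonzero prime P of R: comap to k[X] is a nonzero prime because R is integral over k[X] and a domain (Ideal.IsIntegralClosure.comap_ne_bot,
Ideal.comap_ne_bot_of_integral_mem or: norm f is a nonzero element of P ∩ k[X] for 0 ≠ f in P), so maximal, so P is maximal: Ideal.isMaximal_of_isIntegral_of_isMaximal_comap), integrally closed (int_closed).
isDedekindDomain_iff or the constructor; compare Mathlib.RingTheory.DedekindDomain.IntegralClosure and Basic. -/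
theorem dedekind (hΔ : W.Δ ≠ 0) : IsDedekindDomain W.CoordinateRing := by
  have hint : Algebra.IsIntegral k[X] W.CoordinateRing := inferInstance
  rw [isDedekindDomain_iff W.CoordinateRing (FractionRing W.CoordinateRing)]
  refine ⟨inferInstance, ?_, ⟨fun {P} hP hPp => ?_⟩, ?_⟩
  · exact isNoetherian_of_tower k[X] (inferInstance : IsNoetherian k[X] W.CoordinateRing)
  · have h1 : P.comap (algebraMap k[X] W.CoordinateRing) ≠ ⊥ := fun h =>
      hP (Ideal.eq_bot_of_comap_eq_bot h)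
    have h2 : (P.comap (algebraMap k[X] W.CoordinateRing)).IsPrime := Ideal.comap_isPrime _ P
    exact Ideal.isMaximal_of_isIntegral_of_isMaximal_comap P (h2.isMaximal h1)
  · intro x hx
    have := int_closed W hΔ
    exact IsIntegrallyClosed.isIntegral_iff.1 hx

end H55K.WZ
end

-- from Lib.H55K.W2B
section

/-! # H55K, part W: the degree of an ideal -/

open Polynomial

open scoped Polynomial.Bivariate

namespace H55K.WZ

open WeierstrassCurve (Affine)

variable {k : Type} [Field k] (W : Affine k)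

/-- Chunk W2B (M). R is a Dedekind domain (dedekind). Choose a in I with span {a} ⊔ (I * J) = I (IsDedekindDomain.exists_sup_span_eq or Ideal.exists_... : for 0 ≠ I J ≤ I there is a with I = I J + (a)). The k-linear map
R → I/(I J) (or R → R/(I J), r ↦ r a, with image I/(I J)) is surjective onto I/(I J) with kernel J: r a in I J and I = I J + (a) gives r I ≤ I J, so r in J (cancel I: Ideal.mul_le_mul_left..., span{r} * I ≤ I * J, Ideal.IsDedekind cancellation
mul_le_mul_left iff; Mathlib: cardQuot_mul_of_coprime, Ideal.quotientMulEquiv... see also the proof of cardQuot_pow_of_prime). So dim R/(I J) = dim R/I + dim I/(I J) = dim R/I + dim R/J (Submodule.finrank_quotient_add_finrank for the k-subspace I/(IJ) of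
R/(IJ), whose quotient is R/I: DoubleQuot or Submodule.quotientQuotientEquivQuotient). Alternative: induction on J (UniqueFactorizationMonoid.induction_on_prime) reduces to J prime, where I/(I P) is a vector space of dimension 1 over R/P (Ideal.quotient...,
Mathlib Ideal.quotEquivPowQuotPowSucc treats I = P^i). -/
theorem dg_mul (hΔ : W.Δ ≠ 0) {I J : Ideal W.CoordinateRing} (hI : I ≠ ⊥) (hJ : J ≠ ⊥) :
    dg W (I * J) = dg W I + dg W J := by
  have hD := dedekind W hΔ
  have hIJ : I * J ≠ ⊥ := mul_ne_zero hI hJ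
  have hfin := fin_quot W hIJ
  obtain ⟨a, ha⟩ := IsDedekindDomain.exists_sup_span_eq (Ideal.mul_le_left : I * J ≤ I) hIJ
  have haI : a ∈ I := by
    rw [← ha]
    exact Ideal.mem_sup_right (Ideal.mem_span_singleton_self a)
  -- multiplication by `a`
  have hker : ∀ r ∈ J, r • (Submodule.Quotient.mk a : W.CoordinateRing ⧸ (I * J)) = 0 := by
    intro r hr
    rw [← Submodule.Quotient.mk_smul, Submodule.Quotient.mk_eq_zero, smul_eq_mul, mul_comm r a]
    exact Ideal.mul_mem_mul haI hr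
  let F : (W.CoordinateRing ⧸ J) →ₗ[W.CoordinateRing] (W.CoordinateRing ⧸ (I * J)) :=
    Submodule.liftQ J (LinearMap.toSpanSingleton W.CoordinateRing (W.CoordinateRing ⧸ (I * J))
      (Submodule.Quotient.mk a)) (fun r hr => hker r hr)
  let G : (W.CoordinateRing ⧸ (I * J)) →ₗ[W.CoordinateRing] (W.CoordinateRing ⧸ I) :=
    Submodule.factor Ideal.mul_le_left
  have hF : ∀ r : W.CoordinateRing, F (Submodule.Quotient.mk r) = Submodule.Quotient.mk (r * a) :=
    fun r => rfl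
  have hG : ∀ r : W.CoordinateRing, G (Submodule.Quotient.mk r) = Submodule.Quotient.mk r :=
    fun r => rfl
  have hFi : Function.Injective F := by
    rw [injective_iff_map_eq_zero]
    intro x hx
    obtain ⟨r, rfl⟩ := Submodule.Quotient.mk_surjective _ x
    rw [hF, Submodule.Quotient.mk_eq_zero] at hx
    rw [Submodule.Quotient.mk_eq_zero]
    have h1 : Ideal.span {r} * I ≤ I * J := by
      conv_lhs => rw [← ha]
      rw [Ideal.mul_sup, sup_le_iff]
      refine ⟨Ideal.mul_le_right, ?_⟩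
      rw [Ideal.span_singleton_mul_span_singleton, Ideal.span_singleton_le_iff_mem]
      exact hx
    rw [mul_comm (Ideal.span {r}) I, ← Ideal.dvd_iff_le, mul_dvd_mul_iff_left hI,
      Ideal.dvd_iff_le, Ideal.span_singleton_le_iff_mem] at h1
    exact h1
  have hGs : Function.Surjective G := by
    intro x
    obtain ⟨r, rfl⟩ := Submodule.Quotient.mk_surjective _ x
    exact ⟨Submodule.Quotient.mk r, hG r⟩
  have hex : LinearMap.range (F.restrictScalars k) = LinearMap.ker (G.restrictScalars k) := by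
    ext x
    rw [LinearMap.mem_range, LinearMap.mem_ker]
    obtain ⟨r, rfl⟩ := Submodule.Quotient.mk_surjective _ x
    constructor
    · rintro ⟨y, hy⟩
      obtain ⟨t, rfl⟩ := Submodule.Quotient.mk_surjective _ y
      rw [← hy]
      change (Submodule.Quotient.mk (t * a) : W.CoordinateRing ⧸ I) = 0
      rw [Submodule.Quotient.mk_eq_zero]
      exact Ideal.mul_mem_left _ _ haI
    · intro hr
      change (Submodule.Quotient.mk r : W.CoordinateRing ⧸ I) = 0 at hr
      rw [Submodule.Quotient.mk_eq_zero, ← ha, Submodule.mem_sup] at hr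
      obtain ⟨u, hu, v, hv, huv⟩ := hr
      obtain ⟨t, rfl⟩ := Ideal.mem_span_singleton'.1 hv
      refine ⟨Submodule.Quotient.mk t, ?_⟩
      change (Submodule.Quotient.mk (t * a) : W.CoordinateRing ⧸ (I * J)) = Submodule.Quotient.mk r
      rw [Submodule.Quotient.eq]
      have h1 : t * a - r = -u := by rw [← huv]; ring
      rw [h1]
      exact neg_mem hu
  have h1 := LinearMap.finrank_range_add_finrank_ker (G.restrictScalars k)
  rw [← hex, LinearMap.finrank_range_of_inj (f := F.restrictScalars k) hFi,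
    (LinearMap.range_eq_top (f := G.restrictScalars k)).2 hGs, finrank_top] at h1
  exact h1.symm

end H55K.WZ
end

-- from Lib.H55K.W3B
section

/-! # H55K, part W: every ideal class contains a point -/

open Polynomial

open scoped Polynomial.Bivariate

namespace H55K.WZ

open WeierstrassCurve (Affine)

variable {k : Type} [Field k] (W : Affine k)

/-- Chunk W3B (S/M). exists_L for m = dg I + 1: the k-linear map L → R/I (fin_quot) is not injective because finrank L = dg I + 1 > dg I = finrank (R/I) (LinearMap.finrank_le_finrank_of_injective); a nonzero element of its kernel. -/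
theorem exists_small {I : Ideal W.CoordinateRing} (hI : I ≠ ⊥) : ∃ f ∈ I, f ≠ 0 ∧ nd W f ≤ dg W I + 1 := by
  obtain ⟨L, hL1, hL2, hL3⟩ := exists_L W (dg W I + 1) (by omega)
  have := fin_quot W hI
  set φ : L →ₗ[k] (W.CoordinateRing ⧸ I) := (Ideal.Quotient.mkₐ k I).toLinearMap ∘ₗ L.subtype with hφ
  have hni : ¬ Function.Injective φ := by
    intro h
    have h1 := LinearMap.finrank_le_finrank_of_injective h
    rw [hL2] at h1
    unfold dg at h1
    omega
  rw [← LinearMap.ker_eq_bot, ← Ne, Submodule.ne_bot_iff] at hni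
  obtain ⟨f, hf, hf0⟩ := hni
  refine ⟨f.1, ?_, ?_, (hL3 f.1).1 f.2⟩
  · have h1 : Ideal.Quotient.mk I f.1 = 0 := hf
    exact Ideal.Quotient.eq_zero_iff_mem.1 h1
  · intro h
    exact hf0 (Subtype.ext h)

/-- Chunk W3B. f from exists_small, R Dedekind (dedekind), so I divides span {f} (Ideal.dvd_span_singleton): span {f} = I * J, J ≠ ⊥, dg I + dg J = dg (span {f}) = nd f ≤ dg I + 1 (dg_mul, dg_span), dg J ≤ 1: J = ⊤ (dg_zero) or a point (PI_of_dg). -/
theorem exists_comp (hΔ : W.Δ ≠ 0) {I : Ideal W.CoordinateRing} (hI : I ≠ ⊥) : ∃ f : W.CoordinateRing, f ≠ 0 ∧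
    (I = Ideal.span {f} ∨ ∃ x y : k, W.Equation x y ∧ I * PI W x y = Ideal.span {f}) := by
  have := dedekind W hΔ
  obtain ⟨f, hfI, hf0, hfd⟩ := exists_small W hI
  refine ⟨f, hf0, ?_⟩
  obtain ⟨J, hJ⟩ := Ideal.dvd_span_singleton.2 hfI
  have hs : Ideal.span {f} ≠ ⊥ := by
    rw [Ne, Ideal.span_singleton_eq_bot]
    exact hf0
  have hJ0 : J ≠ ⊥ := by
    rintro rfl
    apply hs
    rw [hJ, Ideal.mul_bot]
  have h1 := dg_mul W hΔ hI hJ0
  rw [← hJ, dg_span W hf0] at h1
  have h2 : dg W J ≤ 1 := by omega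
  rcases Nat.le_one_iff_eq_zero_or_eq_one.1 h2 with h3 | h3
  · left
    rw [dg_zero W hJ0] at h3
    rw [hJ, h3, Ideal.mul_top]
  · right
    obtain ⟨x, y, hxy, rfl⟩ := PI_of_dg W hJ0 h3
    exact ⟨x, y, hxy, hJ.symm⟩

end H55K.WZ
end

-- from Lib.H55K.W4B
section

/-! # H55K, part W: the number of ideals of given degree -/

open Polynomial

open scoped Polynomial.Bivariate

namespace H55K.WZ

open WeierstrassCurve (Affine)

variable {k : Type} [Field k] (W : Affine k)

theorem w4b_cancel (hΔ : W.Δ ≠ 0) {P I J : Ideal W.CoordinateRing} (hP : P ≠ ⊥) (h : I * P = J * P) : I = J := by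
  have hD : IsDedekindDomain W.CoordinateRing := dedekind W hΔ
  have := @Ideal.isCancelMulZero W.CoordinateRing _ hD
  exact mul_right_cancel₀ hP h

theorem w4b_dvd (hΔ : W.Δ ≠ 0) {P J : Ideal W.CoordinateRing} (h : J ≤ P) : ∃ I, J = I * P := by
  have hD : IsDedekindDomain W.CoordinateRing := dedekind W hΔ
  obtain ⟨I, hI⟩ := (@Ideal.dvd_iff_le W.CoordinateRing _ hD P J).2 h
  exact ⟨I, by rw [hI, mul_comm]⟩

/-- Chunk W4B (S/M). Principal ideals of degree n ≥ 2: dg (span {f}) = nd f (dg_span), card_fib for P = ⊤, card_R: q^n - q^(n-1) = q^(n-1) (q - 1); q ≥ 2 (Finite.one_lt_card), cancel q - 1. -/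
theorem card_pr [Finite k] (n : ℕ) (hn : 2 ≤ n) :
    Nat.card {I : Ideal W.CoordinateRing // ∃ f, f ≠ 0 ∧ nd W f = n ∧ I = Ideal.span {f}} = Nat.card k ^ (n - 1) := by
  have hq : 1 < Nat.card k := Finite.one_lt_card
  have h1 := card_fib W ⊤ n
  have h2 := card_R W n hn
  have h3 : Nat.card {I : Ideal W.CoordinateRing // ∃ f, f ≠ 0 ∧ nd W f = n ∧ I = Ideal.span {f}} =
      Nat.card {I : Ideal W.CoordinateRing //
        ∃ f ∈ (⊤ : Ideal W.CoordinateRing), f ≠ 0 ∧ nd W f = n ∧ I = Ideal.span {f}} := by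
    refine Nat.card_congr (Equiv.subtypeEquivRight fun I => ?_)
    exact ⟨fun ⟨f, hf⟩ => ⟨f, Submodule.mem_top, hf⟩, fun ⟨f, _, hf⟩ => ⟨f, hf⟩⟩
  rw [h3]
  rw [← h1] at h2
  obtain ⟨q, hq'⟩ : ∃ q, Nat.card k = q + 2 := ⟨Nat.card k - 2, by omega⟩
  obtain ⟨m, rfl⟩ : ∃ m, n = m + 1 := ⟨n - 1, by omega⟩
  rw [hq'] at h2 ⊢
  rw [Nat.add_sub_cancel] at h2 ⊢
  have h4 : q + 2 - 1 = q + 1 := by omega
  rw [h4] at h2
  have h5 : (q + 2) ^ (m + 1) = (q + 2) ^ m * (q + 1) + (q + 2) ^ m := by ring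
  rw [h5] at h2
  have h6 := Nat.add_right_cancel h2
  exact Nat.eq_of_mul_eq_mul_right (Nat.succ_pos q) h6

/-- Chunk W4B. For n ≥ 1 the ideals I of degree n with I * PI x y = span {f} correspond to the ideals span {f}, f in PI x y, f ≠ 0, nd f = n + 1: I ↦ I * PI x y is injective (Dedekind: cancellation; PI ≠ ⊥), onto: span {f} ≤ PI so span {f} = I * PI (Ideal.dvd_iff_le), dg I = n
(dg_mul, dg_PI, dg_span). card_fib for P = PI x y, m = n + 1, card_P: q^n - q^(n-1). -/
theorem card_prP (hΔ : W.Δ ≠ 0) [Finite k] {x y : k} (h : W.Equation x y) (n : ℕ) (hn : 1 ≤ n) :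
    Nat.card {I : Ideal W.CoordinateRing // I ≠ ⊥ ∧ dg W I = n ∧ ∃ f, f ≠ 0 ∧ I * PI W x y = Ideal.span {f}} =
      Nat.card k ^ (n - 1) := by
  obtain ⟨hP0, hP1⟩ := dg_PI W h
  have hq : 1 < Nat.card k := Finite.one_lt_card
  have h1 := card_fib W (PI W x y) (n + 1)
  have h2 := card_P W h (n + 1) (by omega)
  have hs0 : ∀ f : W.CoordinateRing, f ≠ 0 → Ideal.span {f} ≠ ⊥ := fun f hf h0 =>
    hf (Ideal.span_singleton_eq_bot.1 h0)
  have h3 : Nat.card {I : Ideal W.CoordinateRing // I ≠ ⊥ ∧ dg W I = n ∧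
        ∃ f, f ≠ 0 ∧ I * PI W x y = Ideal.span {f}} =
      Nat.card {I : Ideal W.CoordinateRing //
        ∃ f ∈ PI W x y, f ≠ 0 ∧ nd W f = n + 1 ∧ I = Ideal.span {f}} := by
    refine Nat.card_congr (Equiv.ofBijective (fun I => ⟨I.1 * PI W x y, ?_⟩) ⟨?_, ?_⟩)
    · obtain ⟨hI0, hIn, f, hf, hIf⟩ := I.2
      refine ⟨f, ?_, hf, ?_, hIf⟩
      · have h4 : f ∈ Ideal.span {f} := Ideal.mem_span_singleton_self f
        rw [← hIf] at h4
        exact Ideal.mul_le_right h4
      · rw [← dg_span W hf, ← hIf, dg_mul W hΔ hI0 hP0, hIn, hP1]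
    · intro I J hIJ
      have h4 : I.1 * PI W x y = J.1 * PI W x y := congrArg Subtype.val hIJ
      exact Subtype.ext (w4b_cancel W hΔ hP0 h4)
    · rintro ⟨J, f, hfP, hf, hfn, rfl⟩
      obtain ⟨I, hI⟩ := w4b_dvd W hΔ ((Ideal.span_singleton_le_iff_mem (PI W x y)).2 hfP)
      have hI0 : I ≠ ⊥ := by
        rintro rfl
        apply hs0 f hf
        rw [hI, Ideal.bot_mul]
      refine ⟨⟨I, hI0, ?_, f, hf, hI.symm⟩, Subtype.ext hI.symm⟩
      have h5 := dg_span W hf
      rw [hI, dg_mul W hΔ hI0 hP0, hP1, hfn] at h5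
      exact Nat.add_right_cancel h5
  rw [h3]
  rw [← h1] at h2
  obtain ⟨q, hq'⟩ : ∃ q, Nat.card k = q + 2 := ⟨Nat.card k - 2, by omega⟩
  obtain ⟨m, rfl⟩ : ∃ m, n = m + 1 := ⟨n - 1, by omega⟩
  rw [hq'] at h2 ⊢
  have h4 : q + 2 - 1 = q + 1 := by omega
  have h7 : m + 1 + 1 - 2 = m := by omega
  have h8 : m + 1 + 1 - 1 = m + 1 := by omega
  rw [h4, h7, h8] at h2
  rw [Nat.add_sub_cancel]
  have h5 : (q + 2) ^ (m + 1) = (q + 2) ^ m * (q + 1) + (q + 2) ^ m := by ring
  rw [h5] at h2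
  have h6 := Nat.add_right_cancel h2
  exact Nat.eq_of_mul_eq_mul_right (Nat.succ_pos q) h6

end H55K.WZ
end

-- from Lib.H55K.W6A
section

/-! # H55K, part W: the logarithmic derivative of the zeta function -/

open Polynomial

open scoped Polynomial.Bivariate

namespace H55K.WZ

open WeierstrassCurve (Affine)

variable {k : Type} [Field k] (W : Affine k)

theorem w6a_top : dg W ⊤ = 0 := (dg_zero W (bot_lt_top.ne' : (⊤ : Ideal W.CoordinateRing) ≠ ⊥)).2 rfl

theorem w6a_pow (hΔ : W.Δ ≠ 0) {P : Ideal W.CoordinateRing} (hP : P ≠ ⊥) (j : ℕ) :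
    P ^ j ≠ ⊥ ∧ dg W (P ^ j) = j * dg W P := by
  induction j with
  | zero =>
    rw [pow_zero, Ideal.one_eq_top, zero_mul]
    exact ⟨bot_lt_top.ne', w6a_top W⟩
  | succ j ih =>
    rw [pow_succ]
    refine ⟨?_, ?_⟩
    · intro h
      rcases Ideal.mul_eq_bot.1 h with h1 | h1
      · exact ih.1 h1
      · exact hP h1
    · rw [dg_mul W hΔ ih.1 hP, ih.2]
      ring

open Classical in
theorem w6a_ind (hΔ : W.Δ ≠ 0) {n : ℕ} (T : Finset (Ideal W.CoordinateRing)) (hT : ∀ P ∈ T, P.IsPrime ∧ P ≠ ⊥)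
    (hT' : ∀ P : Ideal W.CoordinateRing, P.IsPrime → P ≠ ⊥ → dg W P ≤ n → P ∈ T) (I : Ideal W.CoordinateRing) :
    I ≠ ⊥ → dg W I ≤ n → dg W I = ∑ P ∈ T, dg W P * ((Finset.Icc 1 n).filter (fun j => P ^ j ∣ I)).card := by
  have hDed := dedekind W hΔ
  induction I using UniqueFactorizationMonoid.induction_on_prime with
  | h₁ => intro h; exact absurd rfl h
  | h₂ I hu =>
    intro _ _
    have hI : I = ⊤ := by
      have h1 := isUnit_iff_eq_one.1 hu
      rwa [Ideal.one_eq_top] at h1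
    subst hI
    rw [w6a_top]
    symm
    refine Finset.sum_eq_zero fun P hP => ?_
    have h1 : ((Finset.Icc 1 n).filter (fun j => P ^ j ∣ (⊤ : Ideal W.CoordinateRing))) = ∅ := by
      rw [Finset.filter_eq_empty_iff]
      intro j hj hd
      rw [Finset.mem_Icc] at hj
      have h2 : P ∣ (⊤ : Ideal W.CoordinateRing) := (dvd_pow_self P (by omega)).trans hd
      have h3 := Ideal.dvd_iff_le.1 h2
      exact (hT P hP).1.ne_top (top_le_iff.1 h3)
    rw [h1, Finset.card_empty, mul_zero]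
  | h₃ J Q hJ hQ ih =>
    intro hQJ hn
    have hJ' : J ≠ ⊥ := hJ
    have hQ' : Q ≠ ⊥ := hQ.ne_zero
    have hQp : Q.IsPrime := Ideal.isPrime_of_prime hQ
    have hdg : dg W (Q * J) = dg W Q + dg W J := dg_mul W hΔ hQ' hJ'
    have hQ1 : 1 ≤ dg W Q := by
      by_contra hlt
      have h0 : dg W Q = 0 := by omega
      exact hQp.ne_top ((dg_zero W hQ').1 h0)
    have ih' := ih hJ' (by omega)
    have hQT : Q ∈ T := hT' Q hQp hQ' (by omega)
    have hne : ∀ P ∈ T.erase Q, ((Finset.Icc 1 n).filter (fun j => P ^ j ∣ Q * J)) =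
        ((Finset.Icc 1 n).filter (fun j => P ^ j ∣ J)) := by
      intro P hP
      rw [Finset.mem_erase] at hP
      have hPp : Prime P := Ideal.prime_of_isPrime (hT P hP.2).2 (hT P hP.2).1
      have hPQ : ¬ P ∣ Q := by
        intro h
        exact hP.1 (associated_iff_eq.1 ((hPp.dvd_prime_iff_associated hQ).1 h))
      refine Finset.filter_congr fun j _ => ?_
      exact ⟨fun h => hPp.pow_dvd_of_dvd_mul_left j hPQ h, fun h => h.mul_left Q⟩
    have hQn : ¬ Q ^ n ∣ J := by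
      intro h
      have h1 := (dg_le W hJ' (Ideal.dvd_iff_le.1 h)).1
      rw [(w6a_pow W hΔ hQ' n).2] at h1
      have h2 : n * 1 ≤ n * dg W Q := Nat.mul_le_mul_left n hQ1
      omega
    have heq : ((Finset.Icc 1 n).filter (fun j => Q ^ j ∣ Q * J)).card =
        1 + ((Finset.Icc 1 n).filter (fun j => Q ^ j ∣ J)).card := by
      have e1 : (Finset.Icc 1 n).filter (fun j => Q ^ j ∣ Q * J) =
          (insert 0 ((Finset.Icc 1 n).filter (fun j => Q ^ j ∣ J))).image Nat.succ := by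
        ext j
        simp only [Finset.mem_filter, Finset.mem_image, Finset.mem_insert, Finset.mem_Icc]
        constructor
        · rintro ⟨⟨h1, h2⟩, h3⟩
          obtain ⟨i, rfl⟩ : ∃ i, j = i + 1 := ⟨j - 1, by omega⟩
          rw [pow_succ', mul_dvd_mul_iff_left hQ.ne_zero] at h3
          refine ⟨i, ?_, rfl⟩
          by_cases h4 : i = 0
          · exact Or.inl h4
          · exact Or.inr ⟨⟨by omega, by omega⟩, h3⟩
        · rintro ⟨i, h1, rfl⟩
          have h3 : Q ^ i ∣ J := by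
            rcases h1 with h1 | h1
            · rw [h1, pow_zero]
              exact one_dvd J
            · exact h1.2
          have h4 : i ≠ n := by
            rintro rfl
            exact hQn h3
          have h5 : i ≤ n := by
            rcases h1 with h1 | h1
            · omega
            · exact h1.1.2
          refine ⟨⟨by omega, by omega⟩, ?_⟩
          rw [Nat.succ_eq_add_one, pow_succ', mul_dvd_mul_iff_left hQ.ne_zero]
          exact h3
      have e2 : (0 : ℕ) ∉ (Finset.Icc 1 n).filter (fun j => Q ^ j ∣ J) := by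
        simp
      rw [e1, Finset.card_image_of_injective _ Nat.succ_injective, Finset.card_insert_of_notMem e2, add_comm]
    rw [← Finset.add_sum_erase T _ hQT] at ih' ⊢
    rw [hdg, heq, ih', mul_add, mul_one, add_assoc]
    congr 2
    refine Finset.sum_congr rfl fun P hP => ?_
    rw [hne P hP]

open Classical in
/-- Chunk W6A (M). Let T be a finite set of primes containing all prime ideals ≠ ⊥ of degree ≤ n. For I ≠ ⊥ with dg I = n: n = sum over P in T of dg P times the number of j in [1, n] with P^j | I. (I is the product of its prime factors, UniqueFactorizationMonoid.normalizedFactors; dg is additive (dg_mul), so dg I is the sum of dg P times the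
multiplicity; every prime factor has degree ≤ n (dg_le / additivity) and degree ≥ 1 (dg_zero), multiplicities ≤ n; P^j | I iff j ≤ multiplicity (emultiplicity / count).) -/
theorem dg_sum (hΔ : W.Δ ≠ 0) {n : ℕ} (T : Finset (Ideal W.CoordinateRing)) (hT : ∀ P ∈ T, P.IsPrime ∧ P ≠ ⊥)
    (hT' : ∀ P : Ideal W.CoordinateRing, P.IsPrime → P ≠ ⊥ → dg W P ≤ n → P ∈ T) {I : Ideal W.CoordinateRing} (hI : I ≠ ⊥)
    (h : dg W I = n) : n = ∑ P ∈ T, dg W P * ((Finset.Icc 1 n).filter (fun j => P ^ j ∣ I)).card := by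
  have h1 := w6a_ind W hΔ T hT hT' I hI h.le
  rw [h] at h1
  exact h1

/-- Chunk W6A. The ideals of degree n divisible by P^j are P^j I', dg I' = n - j dg P (dg_mul, cancellation). -/
theorem card_dvd (hΔ : W.Δ ≠ 0) {P : Ideal W.CoordinateRing} (hP : P ≠ ⊥) (j n : ℕ) :
    Nat.card {I : Ideal W.CoordinateRing // I ≠ ⊥ ∧ dg W I = n ∧ P ^ j ∣ I} =
      if j * dg W P ≤ n then idn W (n - j * dg W P) else 0 := by
  have hDed := dedekind W hΔ
  obtain ⟨hPj, hdP⟩ := w6a_pow W hΔ hP j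
  split_ifs with hjn
  · unfold idn
    symm
    refine Nat.card_congr (Equiv.ofBijective (fun I' => ⟨P ^ j * I'.1, ?_, ?_, Dvd.intro _ rfl⟩) ⟨?_, ?_⟩)
    · intro h
      rcases Ideal.mul_eq_bot.1 h with h1 | h1
      · exact hPj h1
      · exact I'.2.1 h1
    · rw [dg_mul W hΔ hPj I'.2.1, hdP, I'.2.2]
      omega
    · intro A B hAB
      have h1 : P ^ j * A.1 = P ^ j * B.1 := congrArg Subtype.val hAB
      exact Subtype.ext (mul_left_cancel₀ hPj h1)
    · rintro ⟨I, hI, hdI, J, rfl⟩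
      have hJ : J ≠ ⊥ := by
        rintro rfl
        exact hI (Ideal.mul_bot _)
      have h1 := dg_mul W hΔ hPj hJ
      rw [hdP, hdI] at h1
      exact ⟨⟨J, hJ, by omega⟩, rfl⟩
  · have hE : IsEmpty {I : Ideal W.CoordinateRing // I ≠ ⊥ ∧ dg W I = n ∧ P ^ j ∣ I} := by
      refine ⟨?_⟩
      rintro ⟨I, hI, hdI, J, rfl⟩
      have hJ : J ≠ ⊥ := by
        rintro rfl
        exact hI (Ideal.mul_bot _)
      have h1 := dg_mul W hΔ hPj hJ
      rw [hdP, hdI] at h1
      omega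
    exact Nat.card_of_isEmpty

end H55K.WZ
end

-- from Lib.H55K.W6B
section

/-! # H55K, part W: the logarithmic derivative of the zeta function -/

open Polynomial

open scoped Polynomial.Bivariate

namespace H55K.WZ

open WeierstrassCurve (Affine)

variable {k : Type} [Field k] (W : Affine k)

theorem w6b_div (d n : ℕ) (hd : 1 ≤ d) (f : ℕ → ℕ) :
    ∑ j ∈ Finset.Icc 1 n, (if j * d ≤ n then f (n - j * d) else 0) =
      ∑ m ∈ Finset.Icc 1 n, (if d ∣ m then f (n - m) else 0) := by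
  rw [← Finset.sum_filter, ← Finset.sum_filter]
  refine Finset.sum_nbij' (fun j => j * d) (fun m => m / d) ?_ ?_ ?_ ?_ ?_
  · intro j hj
    simp only [Finset.mem_filter, Finset.mem_Icc] at hj ⊢
    exact ⟨⟨Nat.mul_pos hj.1.1 hd, hj.2⟩, Dvd.intro_left j rfl⟩
  · intro m hm
    simp only [Finset.mem_filter, Finset.mem_Icc] at hm ⊢
    obtain ⟨⟨h1, h2⟩, h3⟩ := hm
    have h4 : m / d * d = m := Nat.div_mul_cancel h3
    refine ⟨⟨Nat.div_pos (Nat.le_of_dvd h1 h3) hd, le_trans (Nat.div_le_self m d) h2⟩, ?_⟩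
    rw [h4]
    exact h2
  · intro j _
    exact Nat.mul_div_cancel j hd
  · intro m hm
    simp only [Finset.mem_filter, Finset.mem_Icc] at hm
    exact Nat.div_mul_cancel hm.2
  · intro j _
    rfl

open Classical in
theorem w6b_prs {n d : ℕ} (hd : d ≤ n) (T : Finset (Ideal W.CoordinateRing))
    (hT : ∀ P, P ∈ T ↔ P.IsPrime ∧ P ≠ ⊥ ∧ dg W P ≤ n) :
    pn W d = (T.filter (fun P => dg W P = d)).card := by
  unfold pn
  have h : prs W d = ↑(T.filter (fun P => dg W P = d)) := by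
    ext P
    simp only [prs, Set.mem_setOf_eq, Finset.coe_filter, hT]
    constructor
    · rintro ⟨h1, h2, h3⟩
      exact ⟨⟨h1, h2, by omega⟩, h3⟩
    · rintro ⟨⟨h1, h2, _⟩, h3⟩
      exact ⟨h1, h2, h3⟩
  rw [h, Set.ncard_coe_finset]

/-- Chunk W6B (M). Sum dg_sum over the ideals I of degree n (finite set, fin_id; T = the primes of degree ≤ n, finite by fin_id): n idn n = sum over P in T, j in [1, n] of dg P #{I of degree n, P^j | I} = sum over P, j with j dg P ≤ n of dg P idn (n - j dg P) (card_dvd); collect the terms with j dg P = m: the primes P with dg P | m (dg P ≥ 1, dg_zero; j ≤ n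
automatic), number pn d for each divisor d of m. (Finset.sum_comm, Finset.sum_fiberwise.) -/
theorem recur (hΔ : W.Δ ≠ 0) [Finite k] (n : ℕ) :
    n * idn W n = ∑ m ∈ Finset.Icc 1 n, (∑ d ∈ m.divisors, d * pn W d) * idn W (n - m) := by
  classical
  have hfT : {P : Ideal W.CoordinateRing | P.IsPrime ∧ P ≠ ⊥ ∧ dg W P ≤ n}.Finite := by
    have h1 : (⋃ d ∈ Finset.range (n + 1), {I : Ideal W.CoordinateRing | I ≠ ⊥ ∧ dg W I = d}).Finite :=
      (Finset.range (n + 1)).finite_toSet.biUnion fun d _ => fin_id W d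
    refine h1.subset ?_
    rintro P ⟨_, h2, h3⟩
    simp only [Set.mem_iUnion, Finset.mem_range]
    exact ⟨dg W P, by omega, h2, rfl⟩
  obtain ⟨T, hT⟩ : ∃ T : Finset (Ideal W.CoordinateRing), ∀ P, P ∈ T ↔ P.IsPrime ∧ P ≠ ⊥ ∧ dg W P ≤ n :=
    ⟨hfT.toFinset, fun P => by rw [Set.Finite.mem_toFinset]; rfl⟩
  obtain ⟨S, hS⟩ : ∃ S : Finset (Ideal W.CoordinateRing), ∀ I, I ∈ S ↔ I ≠ ⊥ ∧ dg W I = n :=
    ⟨(fin_id W n).toFinset, fun P => by rw [Set.Finite.mem_toFinset]; rfl⟩
  have hcS : ∀ (p : Ideal W.CoordinateRing → Prop),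
      Nat.card {I : Ideal W.CoordinateRing // I ≠ ⊥ ∧ dg W I = n ∧ p I} = (S.filter p).card := by
    intro p
    refine Nat.subtype_card _ fun I => ?_
    rw [Finset.mem_filter, hS, and_assoc]
  have hidn : idn W n = S.card := by
    refine Nat.subtype_card _ fun I => hS I
  have hdg : ∀ P ∈ T, 1 ≤ dg W P := by
    intro P hP
    rw [hT] at hP
    by_contra hlt
    have h0 : dg W P = 0 := by omega
    exact hP.1.ne_top ((dg_zero W hP.2.1).1 h0)
  have hI : ∀ I ∈ S, n = ∑ P ∈ T, dg W P * ((Finset.Icc 1 n).filter (fun j => P ^ j ∣ I)).card := by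
    intro I hI
    rw [hS] at hI
    exact dg_sum W hΔ T (fun P hP => ⟨((hT P).1 hP).1, ((hT P).1 hP).2.1⟩)
      (fun P h1 h2 h3 => (hT P).2 ⟨h1, h2, h3⟩) hI.1 hI.2
  have hL : n * idn W n = ∑ P ∈ T, dg W P * ∑ j ∈ Finset.Icc 1 n,
      (if j * dg W P ≤ n then idn W (n - j * dg W P) else 0) := by
    have e1 : n * idn W n = ∑ I ∈ S, n := by
      rw [hidn, Finset.sum_const, smul_eq_mul, mul_comm]
    have e2 : ∑ I ∈ S, n = ∑ I ∈ S, ∑ P ∈ T, dg W P * ((Finset.Icc 1 n).filter (fun j => P ^ j ∣ I)).card :=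
      Finset.sum_congr rfl hI
    rw [e1, e2, Finset.sum_comm]
    refine Finset.sum_congr rfl fun P hP => ?_
    rw [← Finset.mul_sum]
    congr 1
    have e3 : ∀ I, ((Finset.Icc 1 n).filter (fun j => P ^ j ∣ I)).card =
        ∑ j ∈ Finset.Icc 1 n, if P ^ j ∣ I then 1 else 0 := fun I => Finset.card_filter _ _
    simp only [e3]
    rw [Finset.sum_comm]
    refine Finset.sum_congr rfl fun j _ => ?_
    rw [← Finset.card_filter, ← hcS (fun I => P ^ j ∣ I)]
    exact card_dvd W hΔ ((hT P).1 hP).2.1 j n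
  have hR : ∀ m ∈ Finset.Icc 1 n, (∑ d ∈ m.divisors, d * pn W d) =
      ∑ P ∈ T, if dg W P ∣ m then dg W P else 0 := by
    intro m hm
    rw [Finset.mem_Icc] at hm
    rw [← Finset.sum_filter]
    have hmap : ∀ P ∈ T.filter (fun P => dg W P ∣ m), dg W P ∈ m.divisors := by
      intro P hP
      rw [Finset.mem_filter] at hP
      rw [Nat.mem_divisors]
      exact ⟨hP.2, by omega⟩
    rw [← Finset.sum_fiberwise_of_maps_to hmap]
    refine Finset.sum_congr rfl fun d hd => ?_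
    rw [Nat.mem_divisors] at hd
    have hdn : d ≤ n := le_trans (Nat.le_of_dvd hm.1 hd.1) hm.2
    rw [w6b_prs W hdn T hT]
    have hf : (T.filter (fun P => dg W P ∣ m)).filter (fun P => dg W P = d) =
        T.filter (fun P => dg W P = d) := by
      ext P
      simp only [Finset.mem_filter]
      constructor
      · rintro ⟨⟨h1, _⟩, h3⟩
        exact ⟨h1, h3⟩
      · rintro ⟨h1, h3⟩
        exact ⟨⟨h1, h3 ▸ hd.1⟩, h3⟩
    rw [hf, Finset.sum_congr rfl (g := fun _ => d) (fun P hP => (Finset.mem_filter.1 hP).2),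
      Finset.sum_const, smul_eq_mul, mul_comm]
  rw [hL, Finset.sum_congr rfl (g := fun m => ∑ P ∈ T, dg W P * (if dg W P ∣ m then idn W (n - m) else 0))]
  · rw [Finset.sum_comm]
    refine Finset.sum_congr rfl fun P hP => ?_
    rw [w6b_div (dg W P) n (hdg P hP) (idn W), Finset.mul_sum]
  · intro m hm
    rw [hR m hm, Finset.sum_mul]
    refine Finset.sum_congr rfl fun P _ => ?_
    split_ifs
    · rfl
    · simp

end H55K.WZ
end

-- from Lib.H55R.HA6
section

open NumberField IsDedekindDomain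

namespace H55R

/-! Chunk HA6 (M): the map Th is injective. Let Th T η a = 0. (1) a (inl W) = 0 for W in T: apply ord W (a homomorphism Lˣ -> ℤ) to
the product of the η p ^ a p: only η (inl W) has nonzero order at W. (2) So the product over V of η(inr V)^(a V) is 1 and
the sum of the a V is 0. With μ V V' = mult(V') log V'(η (inr V)): for V' <> V negative (the value is > 0, < 1), the sum over V' is 0 (the element
η(inr V) has order 0 at all primes, so it is a unit of O_L, |N| = 1 : InfinitePlace.prod_eq_abs_norm, or the product formula in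
Mathlib/NumberTheory/NumberField/ProductFormula.lean), and sum_V a V μ V V' = mult(V') log V'(1) = 0. Then
pos_lemma (chunk HA4) gives a V = 0. -/

/-- ord as a homomorphism. -/
noncomputable def HA6_ordH {L : Type} [Field L] [NumberField L] (W : Pl L) : Additive Lˣ →+ ℤ where
  toFun y := ord W y.toMul
  map_zero' := ord_one W
  map_add' a b := ord_mul W a.toMul b.toMul

/-- The logarithm of an infinite place. -/
noncomputable def HA6_lg {L : Type} [Field L] [NumberField L] (V : InfinitePlace L) :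
    Additive Lˣ →+ ℝ where
  toFun y := V.mult * Real.log (V (y.toMul : L))
  map_zero' := by
    rw [toMul_zero, Units.val_one, map_one, Real.log_one, mul_zero]
  map_add' a b := by
    rw [toMul_add, Units.val_mul, map_mul, Real.log_mul, mul_add]
    · exact (map_ne_zero V).mpr a.toMul.ne_zero
    · exact (map_ne_zero V).mpr b.toMul.ne_zero

theorem HA6_val {L : Type} [Field L] [NumberField L] (W : Pl L) (y : Lˣ) (h : ord W y = 0) :
    W.valuation L (y : L) = 1 := by
  rw [← HeightOneSpectrum.valuationOfNeZero_eq]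
  have h1 : W.valuationOfNeZero y = 1 := by
    unfold ord at h
    have h2 : Multiplicative.toAdd (W.valuationOfNeZero y) = 0 := neg_eq_zero.mp h
    exact Multiplicative.toAdd.injective h2
  rw [h1]
  rfl

theorem HA6_unit {L : Type} [Field L] [NumberField L] (y : Lˣ) (h : ∀ W : Pl L, ord W y = 0) :
    ∃ u : (𝓞 L)ˣ, ((u : 𝓞 L) : L) = y := by
  obtain ⟨x, hx⟩ := HeightOneSpectrum.mem_integers_of_valuation_le_one L (y : L)
    (fun W => (HA6_val W y (h W)).le)
  obtain ⟨x', hx'⟩ := HeightOneSpectrum.mem_integers_of_valuation_le_one L ((y⁻¹ : Lˣ) : L)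
    (fun W => (HA6_val W y⁻¹ (by rw [ord_inv, h W, neg_zero])).le)
  have h1 : x * x' = 1 := by
    apply RingOfIntegers.coe_injective
    rw [map_mul, map_one]
    show algebraMap (𝓞 L) L x * algebraMap (𝓞 L) L x' = 1
    rw [hx, hx']
    exact y.mul_inv
  exact ⟨⟨x, x', h1, by rw [mul_comm, h1]⟩, hx⟩

theorem theta_inj {L : Type} [Field L] [NumberField L] (T : Finset (Pl L))
    (η : T ⊕ InfinitePlace L → Additive Lˣ) (hη : Eta T η) : Function.Injective (Th T η) := by
  classical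
  rw [injective_iff_map_eq_zero]
  intro a ha
  have h1 : ∑ p, a p • η p = 0 := congrArg Prod.fst ha
  have h2 : ∑ V : InfinitePlace L, a (Sum.inr V) = 0 := congrArg Prod.snd ha
  have h3 : ∀ W : T, a (Sum.inl W) = 0 := by
    intro W
    have h := congrArg (HA6_ordH W.1) h1
    rw [map_sum, map_zero, Fintype.sum_sum_type] at h
    have h4 : ∑ V : InfinitePlace L, (HA6_ordH W.1) (a (Sum.inr V) • η (Sum.inr V)) = 0 := by
      refine Finset.sum_eq_zero fun V _ => ?_
      rw [map_zsmul]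
      have : (HA6_ordH W.1) (η (Sum.inr V)) = 0 := (hη.inf V).1 W.1
      rw [this, smul_zero]
    have h5 : ∑ W' : T, (HA6_ordH W.1) (a (Sum.inl W') • η (Sum.inl W')) =
        a (Sum.inl W) * ord W.1 (η (Sum.inl W)).toMul := by
      rw [Finset.sum_eq_single W]
      · rw [map_zsmul, smul_eq_mul]
        rfl
      · intro W' _ hne
        rw [map_zsmul]
        have : (HA6_ordH W.1) (η (Sum.inl W')) = 0 :=
          (hη.fin W').2 W.1 fun h => hne (Subtype.ext h.symm)
        rw [this, smul_zero]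
      · intro h
        exact absurd (Finset.mem_univ _) h
    rw [h4, h5, add_zero] at h
    rcases mul_eq_zero.mp h with h | h
    · exact h
    · exact absurd h (hη.fin W).1.ne'
  have h4 : ∑ V : InfinitePlace L, a (Sum.inr V) • η (Sum.inr V) = 0 := by
    rw [Fintype.sum_sum_type] at h1
    rw [← h1, eq_comm, add_eq_right]
    exact Finset.sum_eq_zero fun W _ => by rw [h3 W, zero_smul]
  have h5 := pos_lemma (fun V V' : InfinitePlace L => HA6_lg V' (η (Sum.inr V)))
    (fun V V' hne => ?_) (fun V => ?_) (fun V => a (Sum.inr V)) (fun V' => ?_) h2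
  · funext p
    rcases p with W | V
    · exact h3 W
    · exact congrFun h5 V
  · show (V'.mult : ℝ) * Real.log (V' ((η (Sum.inr V)).toMul : L)) < 0
    refine mul_neg_of_pos_of_neg ?_ ?_
    · exact_mod_cast InfinitePlace.mult_pos
    · refine Real.log_neg ?_ ((hη.inf V).2 V' hne.symm)
      exact InfinitePlace.pos_iff.mpr (Units.ne_zero _)
  · obtain ⟨u, hu⟩ := HA6_unit (η (Sum.inr V)).toMul (hη.inf V).1
    have := Units.sum_mult_mul_log u
    rw [← this]
    refine Finset.sum_congr rfl fun V' _ => ?_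
    show (V'.mult : ℝ) * Real.log (V' ((η (Sum.inr V)).toMul : L)) = _
    rw [← hu]
  · have h := congrArg (HA6_lg V') h4
    rw [map_sum, map_zero] at h
    rw [← h]
    refine Finset.sum_congr rfl fun V _ => ?_
    rw [map_zsmul, zsmul_eq_mul]

end H55R
end

-- from Lib.H55R.HA7
section

open NumberField IsDedekindDomain

namespace H55R

/-! Chunk HA7 (M/L): the image of Th has finite index in (T-units) x Z. Let G = (TUa T).prod ⊤ and H = (Th T η).range <= G
(ord and the definition of SU; the images are T-units).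
(a) The units: the subgroup U of elements x of Lˣ with ord = 0 everywhere is the image of (𝓞 L)ˣ, finitely generated of rank
r = (number of infinite places) - 1 (NumberField.Units.rank, Dirichlet: (𝓞 L)ˣ modulo torsion is free of rank r, torsion finite). The map
Z^(infinite places) -> U × Z, a -> (sum a V η(inr V), sum a V) is injective (theta_inj restricted), and both sides
have rank r + 1, so its image has finite index: every element (x, k) of U × Z has a positive multiple in the image (if not, (x, k) and the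
images of the r + 1 basis vectors would be r + 2 independent elements of a group of rank r + 1).
(b) Every (x, k) in G has a positive multiple in H: with N = the product of the ord W η(inl W), W in T, put a W = N ord W x / ord W η(inl W); then
N x - sum a W η(inl W) has order 0 at all primes, i.e. is in U; apply (a).
(c) G is finitely generated (U is, and G/(U × Z) embeds in Z^T by the orders), so G/H is a finitely generated torsion group,
hence finite (for example Module.finite_of_fg_torsion or AddCommGroup.finite_of_fg_torsion), i.e. H.relIndex G <> 0. -/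

/-- The order as an additive homomorphism. -/
noncomputable def HA7_ord {L : Type} [Field L] [NumberField L] (v : Pl L) : Additive Lˣ →+ ℤ where
  toFun x := ord v x.toMul
  map_zero' := ord_one v
  map_add' x y := ord_mul v x.toMul y.toMul

theorem HA7_ord_apply {L : Type} [Field L] [NumberField L] (v : Pl L) (x : Additive Lˣ) :
    HA7_ord v x = ord v x.toMul := rfl

theorem theta_mem {L : Type} [Field L] [NumberField L] (T : Finset (Pl L))
    (η : T ⊕ InfinitePlace L → Additive Lˣ) (hη : Eta T η) :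
    (Th T η).range ≤ (TUa T).prod (⊤ : AddSubgroup ℤ) := by
  classical
  rintro _ ⟨a, rfl⟩
  rw [AddSubgroup.mem_prod]
  refine ⟨?_, trivial⟩
  show ∀ v : Pl L, v ∉ (T : Set (Pl L)) → HA7_ord v (∑ p, a p • η p) = 0
  intro v hv
  rw [map_sum]
  refine Finset.sum_eq_zero fun p _ => ?_
  rw [map_zsmul, HA7_ord_apply]
  rcases p with W | V
  · rw [(hη.fin W).2 v (fun h => hv (by rw [h]; exact W.2)), smul_zero]
  · rw [(hη.inf V).1 v, smul_zero]

theorem HA7_unit {L : Type} [Field L] [NumberField L] (x : Lˣ) (h : ∀ v : Pl L, ord v x = 0) :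
    ∃ u : (𝓞 L)ˣ, Units.map (algebraMap (𝓞 L) L : 𝓞 L →* L) u = x := by
  have hval : ∀ v : Pl L, v.valuation L (x : L) = 1 := by
    intro v
    have h1 := h v
    unfold ord at h1
    have h2 : v.valuationOfNeZero x = 1 := by
      rw [neg_eq_zero] at h1
      exact Multiplicative.toAdd.injective h1
    rw [← v.valuationOfNeZero_eq x, h2]
    rfl
  obtain ⟨a, ha⟩ := HeightOneSpectrum.mem_integers_of_valuation_le_one (R := 𝓞 L) L (x : L)
    (fun v => (hval v).le)
  obtain ⟨b, hb⟩ := HeightOneSpectrum.mem_integers_of_valuation_le_one (R := 𝓞 L) L ((x : L)⁻¹)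
    (fun v => by rw [map_inv₀, hval v, inv_one])
  have hab : a * b = 1 := by
    apply FaithfulSMul.algebraMap_injective (𝓞 L) L
    rw [map_mul, ha, hb, map_one, mul_inv_cancel₀ x.ne_zero]
  exact ⟨⟨a, b, hab, (mul_comm b a).trans hab⟩, Units.ext ha⟩

theorem HA7_ord_unit {L : Type} [Field L] [NumberField L] (u : (𝓞 L)ˣ) (v : Pl L) :
    ord v (Units.map (algebraMap (𝓞 L) L : 𝓞 L →* L) u) = 0 := by
  unfold ord
  rw [HeightOneSpectrum.valuation_of_unit_eq, toAdd_one, neg_zero]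

theorem theta_index {L : Type} [Field L] [NumberField L] (T : Finset (Pl L))
    (η : T ⊕ InfinitePlace L → Additive Lˣ) (hη : Eta T η) :
    (Th T η).range.relIndex ((TUa T).prod (⊤ : AddSubgroup ℤ)) ≠ 0 := by
  classical
  set G : AddSubgroup (Additive Lˣ × ℤ) := (TUa T).prod (⊤ : AddSubgroup ℤ) with hG
  -- the orders
  let ρ : G →ₗ[ℤ] (T → ℤ) × ℤ :=
    { toFun := fun x => (fun W => HA7_ord W.1 x.1.1, x.1.2)
      map_add' := fun x y => by
        ext
        · exact map_add (HA7_ord _) _ _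
        · rfl
      map_smul' := fun c x => by
        ext
        · exact map_zsmul (HA7_ord _) _ _
        · rfl }
  -- the units
  let ε : Additive (𝓞 L)ˣ →ₗ[ℤ] LinearMap.ker ρ :=
    { toFun := fun u => ⟨⟨(Additive.ofMul (Units.map (algebraMap (𝓞 L) L : 𝓞 L →* L) u.toMul), 0),
        AddSubgroup.mem_prod.2 ⟨fun v _ => HA7_ord_unit u.toMul v, trivial⟩⟩, by
          rw [LinearMap.mem_ker]
          ext W
          · exact HA7_ord_unit u.toMul W.1
          · rfl⟩
      map_add' := fun x y => by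
        apply Subtype.ext
        apply Subtype.ext
        refine Prod.ext ?_ ?_
        · exact congrArg Additive.ofMul (map_mul (Units.map (algebraMap (𝓞 L) L : 𝓞 L →* L))
            x.toMul y.toMul)
        · exact (add_zero (0 : ℤ)).symm
      map_smul' := fun c x => by
        apply Subtype.ext
        apply Subtype.ext
        refine Prod.ext ?_ ?_
        · exact congrArg Additive.ofMul (map_zpow (Units.map (algebraMap (𝓞 L) L : 𝓞 L →* L))
            x.toMul c)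
        · exact (smul_zero c).symm }
  have hε : Function.Surjective ε := by
    rintro ⟨⟨⟨x, k⟩, hx⟩, hk⟩
    rw [LinearMap.mem_ker] at hk
    have hk1 : ∀ W : T, ord W.1 x.toMul = 0 := fun W => congrFun (congrArg Prod.fst hk) W
    have hk2 : k = 0 := congrArg Prod.snd hk
    have h1 : ∀ v : Pl L, ord v x.toMul = 0 := by
      intro v
      by_cases hv : v ∈ T
      · exact hk1 ⟨v, hv⟩
      · exact (AddSubgroup.mem_prod.1 hx).1 v hv
    obtain ⟨u, hu⟩ := HA7_unit x.toMul h1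
    refine ⟨Additive.ofMul u, ?_⟩
    apply Subtype.ext
    apply Subtype.ext
    refine Prod.ext ?_ ?_
    · exact congrArg Additive.ofMul hu
    · exact hk2.symm
  have hfinker : Module.Finite ℤ (LinearMap.ker ρ) := Module.Finite.of_surjective ε hε
  have hfinG : Module.Finite ℤ G := by
    have h1 : Module.Finite ℤ (G ⧸ LinearMap.ker ρ) :=
      Module.Finite.equiv ρ.quotKerEquivRange.symm
    exact Module.Finite.of_submodule_quotient (LinearMap.ker ρ)
  have hrank1 : Module.finrank ℤ (LinearMap.ker ρ) ≤ Fintype.card (InfinitePlace L) - 1 := by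
    have h1 := LinearMap.finrank_le_finrank_of_surjective hε
    rwa [NumberField.Units.finrank_eq] at h1
  have hrank2 : Module.finrank ℤ (G ⧸ LinearMap.ker ρ) ≤ T.card + 1 := by
    rw [LinearEquiv.finrank_eq ρ.quotKerEquivRange]
    refine (Submodule.finrank_le _).trans ?_
    rw [Module.finrank_prod, Module.finrank_fintype_fun_eq_card, Module.finrank_self,
      Fintype.card_coe]
  have hrankG : Module.finrank ℤ G ≤ T.card + Fintype.card (InfinitePlace L) := by
    have h1 := Submodule.finrank_quotient_add_finrank (LinearMap.ker ρ)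
    have h2 : 0 < Fintype.card (InfinitePlace L) := Fintype.card_pos
    omega
  let Θ : (T ⊕ InfinitePlace L → ℤ) →ₗ[ℤ] G :=
    ((Th T η).codRestrict G (fun a => theta_mem T η hη ⟨a, rfl⟩)).toIntLinearMap
  have hΘ : Function.Injective Θ := by
    intro a b hab
    exact theta_inj T η hη (congrArg Subtype.val hab)
  have hrankH : Module.finrank ℤ (LinearMap.range Θ) = T.card + Fintype.card (InfinitePlace L) := by
    rw [LinearMap.finrank_range_of_inj hΘ, Module.finrank_fintype_fun_eq_card, Fintype.card_sum,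
      Fintype.card_coe]
  have hq : Module.finrank ℤ (G ⧸ LinearMap.range Θ) = 0 := by
    have h1 := Submodule.finrank_quotient_add_finrank (LinearMap.range Θ)
    omega
  have hfin : Finite (G ⧸ LinearMap.range Θ) :=
    Module.finite_of_fg_torsion _ (Module.finrank_eq_zero_iff_isTorsion.1 hq)
  have heq : (LinearMap.range Θ).toAddSubgroup = (Th T η).range.addSubgroupOf G := by
    ext x
    rw [Submodule.mem_toAddSubgroup, LinearMap.mem_range, AddSubgroup.mem_addSubgroupOf]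
    constructor
    · rintro ⟨a, rfl⟩
      exact ⟨a, rfl⟩
    · rintro ⟨a, ha⟩
      exact ⟨a, Subtype.ext ha⟩
  show ((Th T η).range.addSubgroupOf G).index ≠ 0
  rw [← heq]
  have hfin' : Finite (G ⧸ (LinearMap.range Θ).toAddSubgroup) := hfin
  exact AddSubgroup.index_ne_zero_of_finite

end H55R
end

-- from Lib.H55R.HC7
section

open NumberField IsDedekindDomain

namespace H55R

/-! Chunk HC7 (M): existence of S. gens: for a number field M and an ideal g <> 0 there is a finite set U of primes not containing g such that every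
finite set (indeed every set) U' containing U satisfies GenS U': for every ideal class choose an integral ideal b prime to g in it (copy the proofs of exists_mem_cop and exists_rep from Pool/Agent/Lib/H55N/H11.lean, they need only Mathlib),
U = the primes containing one of these b (finitely many classes: Fintype (ClassGroup), each b has finitely many prime divisors). GenS: for a prime
v let b be the representative of the inverse class: v b = (x) (ClassGroup.mk0_eq_one_iff), ord u x = multiplicity of u in v b: for u not in U it is 1 if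
u = v and 0 otherwise. (If v is in U the first condition is empty.) exists_S: U1 for K and f, U2 for L and f O_L;
S = U1 and the primes below U2 (if W does not contain f O_L the prime below does not contain f), T = the primes above S (finite). -/

theorem HC7_ord {K : Type} [Field K] [NumberField K] (v : Pl K) (u : Kˣ) (x : 𝓞 K) (hx : x ≠ 0)
    (hu : (u : K) = algebraMap (𝓞 K) K x) :
    ord v u = ((Associates.mk v.asIdeal).count (Associates.mk (Ideal.span {x} : Ideal (𝓞 K))).factors : ℤ) := by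
  have h1 := v.valuationOfNeZero_eq (K := K) u
  rw [hu, HeightOneSpectrum.valuation_of_algebraMap, HeightOneSpectrum.intValuation_if_neg v hx] at h1
  have h2 : v.valuationOfNeZero u = Multiplicative.ofAdd
      (-(Associates.mk v.asIdeal).count (Associates.mk (Ideal.span {x} : Ideal (𝓞 K))).factors : ℤ) := by
    rw [← WithZero.coe_inj]
    exact h1
  unfold ord
  rw [h2, toAdd_ofAdd, neg_neg]

theorem HC7_exists_mem_cop {K : Type} [Field K] [NumberField K] (J g : Ideal (𝓞 K)) (hJ : J ≠ ⊥)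
    (hg : g ≠ ⊥) :
    ∃ x ∈ J, ∃ b : Ideal (𝓞 K), x ≠ 0 ∧ Ideal.span {x} = J * b ∧ IsCoprime b g := by
  obtain ⟨x, hx⟩ := IsDedekindDomain.exists_sup_span_eq (I := J * g) (J := J) Ideal.mul_le_left
    (mul_ne_zero hJ hg)
  by_cases hx0 : x = 0
  · subst hx0
    have h1 : J * g = J := by
      rw [Ideal.span_singleton_eq_bot.2 rfl, sup_bot_eq] at hx
      exact hx
    have h2 : g = ⊤ := by
      have h3 : J * g = J * 1 := by rw [h1, mul_one]
      have h4 := mul_left_cancel₀ (show J ≠ 0 from hJ) h3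
      rw [h4]
      exact Ideal.one_eq_top
    obtain ⟨y, hy, hy0⟩ := Submodule.exists_mem_ne_zero_of_ne_bot hJ
    have h3 : J ∣ Ideal.span {y} := by
      rw [Ideal.dvd_iff_le, Ideal.span_singleton_le_iff_mem]
      exact hy
    obtain ⟨b, hb⟩ := h3
    refine ⟨y, hy, b, hy0, hb, ?_⟩
    rw [h2, ← Ideal.one_eq_top]
    exact isCoprime_one_right
  · have hxJ : x ∈ J := by
      rw [← hx]
      exact Ideal.mem_sup_right (Ideal.mem_span_singleton_self x)
    have h3 : J ∣ Ideal.span {x} := by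
      rw [Ideal.dvd_iff_le, Ideal.span_singleton_le_iff_mem]
      exact hxJ
    obtain ⟨b, hb⟩ := h3
    refine ⟨x, hxJ, b, hx0, hb, ?_⟩
    rw [hb] at hx
    have h4 : J * (g ⊔ b) = J * 1 := by
      rw [Ideal.mul_sup, hx, mul_one]
    have h5 := mul_left_cancel₀ (show J ≠ 0 from hJ) h4
    rw [Ideal.isCoprime_iff_sup_eq, sup_comm, h5]
    exact Ideal.one_eq_top

theorem HC7_exists_rep {K : Type} [Field K] [NumberField K] (g : Ideal (𝓞 K)) (hg : g ≠ ⊥)
    (κ : ClassGroup (𝓞 K)) :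
    ∃ (b : Ideal (𝓞 K)) (hb : b ≠ ⊥), IsCoprime b g ∧
      ClassGroup.mk0 ⟨b, mem_nonZeroDivisors_iff_ne_zero.2 hb⟩ = κ := by
  obtain ⟨J, hJ⟩ := ClassGroup.mk0_surjective κ⁻¹
  have hJ0 : (J : Ideal (𝓞 K)) ≠ ⊥ := mem_nonZeroDivisors_iff_ne_zero.1 J.2
  obtain ⟨x, hx, b, hx0, hb, hcop⟩ := HC7_exists_mem_cop (J : Ideal (𝓞 K)) g hJ0 hg
  have hb0 : b ≠ ⊥ := by
    rintro rfl
    apply hx0
    rw [← Ideal.span_singleton_eq_bot, hb]
    exact mul_zero _
  refine ⟨b, hb0, hcop, ?_⟩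
  have h1 : ClassGroup.mk0 (J * ⟨b, mem_nonZeroDivisors_iff_ne_zero.2 hb0⟩) = 1 := by
    rw [ClassGroup.mk0_eq_one_iff]
    refine ⟨⟨x, ?_⟩⟩
    show (J : Ideal (𝓞 K)) * b = _
    rw [← hb]
  rw [map_mul, hJ] at h1
  exact (inv_mul_eq_one.1 h1).symm

theorem gens {M : Type} [Field M] [NumberField M] (g : Ideal (𝓞 M)) (hg : g ≠ ⊥) :
    ∃ U : Finset (Pl M), (∀ v ∈ U, ¬ g ≤ v.asIdeal) ∧
      ∀ U' : Set (Pl M), (U : Set (Pl M)) ⊆ U' → GenS U' := by
  classical
  choose b hb hcop hmk using HC7_exists_rep (K := M) g hg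
  have hfin : ∀ κ : ClassGroup (𝓞 M), {v : Pl M | v.asIdeal ∣ b κ}.Finite := fun κ =>
    Ideal.finite_factors (hb κ)
  have hfinU : (⋃ κ : ClassGroup (𝓞 M), {v : Pl M | v.asIdeal ∣ b κ}).Finite :=
    Set.finite_iUnion hfin
  refine ⟨hfinU.toFinset, ?_, ?_⟩
  · intro v hv hgv
    rw [Set.Finite.mem_toFinset, Set.mem_iUnion] at hv
    obtain ⟨κ, hκ⟩ := hv
    have h1 : b κ ≤ v.asIdeal := Ideal.dvd_iff_le.1 hκ
    have h2 := Ideal.isCoprime_iff_sup_eq.1 (hcop κ)
    have h3 : (⊤ : Ideal (𝓞 M)) ≤ v.asIdeal := by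
      rw [← h2]
      exact sup_le h1 hgv
    exact v.isPrime.ne_top (top_le_iff.1 h3)
  · intro U' hU' v
    have hnot : ∀ w : Pl M, w ∉ U' → ∀ κ, ¬ w.asIdeal ∣ b κ := by
      intro w hw κ hd
      apply hw
      apply hU'
      rw [Set.Finite.coe_toFinset, Set.mem_iUnion]
      exact ⟨κ, hd⟩
    have hv : v.asIdeal ∈ nonZeroDivisors (Ideal (𝓞 M)) :=
      mem_nonZeroDivisors_iff_ne_zero.2 v.ne_bot
    set κ : ClassGroup (𝓞 M) := (ClassGroup.mk0 (⟨v.asIdeal, hv⟩ : nonZeroDivisors (Ideal (𝓞 M))))⁻¹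
      with hκ
    have h1 : ClassGroup.mk0 ((⟨v.asIdeal, hv⟩ : nonZeroDivisors (Ideal (𝓞 M))) *
        ⟨b κ, mem_nonZeroDivisors_iff_ne_zero.2 (hb κ)⟩) = 1 := by
      rw [map_mul, hmk κ, hκ, mul_inv_cancel]
    rw [ClassGroup.mk0_eq_one_iff] at h1
    obtain ⟨x, hx⟩ := h1
    have hx' : v.asIdeal * b κ = Ideal.span {x} := hx
    have hx0 : x ≠ 0 := by
      rintro rfl
      apply mul_ne_zero (show v.asIdeal ≠ 0 from v.ne_bot) (show b κ ≠ 0 from hb κ)
      rw [hx']
      exact Ideal.span_singleton_eq_bot.2 rfl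
    have hxL : algebraMap (𝓞 M) M x ≠ 0 := by
      rw [Ne, FaithfulSMul.algebraMap_eq_zero_iff]
      exact hx0
    have hmkx : Associates.mk (Ideal.span {x} : Ideal (𝓞 M)) =
        Associates.mk v.asIdeal * Associates.mk (b κ) := by
      rw [← hx', Associates.mk_mul_mk]
    have hcount : ∀ w : Pl M, w ∉ U' →
        (Associates.mk w.asIdeal).count (Associates.mk (b κ)).factors = 0 := by
      intro w hw
      by_contra hne
      exact hnot w hw κ ((Associates.count_ne_zero_iff_dvd (hb κ) w.irreducible).1 hne)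
    have hord : ∀ w : Pl M, w ∉ U' → ord w (Units.mk0 _ hxL) =
        ((Associates.mk w.asIdeal).count (Associates.mk v.asIdeal).factors : ℤ) := by
      intro w hw
      rw [HC7_ord w _ x hx0 rfl, hmkx, Associates.count_mul (Associates.mk_ne_zero.2 v.ne_bot)
        (Associates.mk_ne_zero.2 (hb κ)) w.associates_irreducible, hcount w hw, add_zero]
    refine ⟨Units.mk0 _ hxL, fun hvU => ?_, fun w hw hwv => ?_⟩
    · rw [hord v hvU, Associates.count_self v.associates_irreducible, Nat.cast_one]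
    · rw [hord w hw, Associates.count_eq_zero_of_ne w.associates_irreducible
        v.associates_irreducible, Nat.cast_zero]
      intro he
      apply hwv
      apply HeightOneSpectrum.ext
      rwa [Associates.mk_eq_mk_iff_associated, associated_iff_eq] at he

theorem exists_S (K L : Type) [Field K] [NumberField K] [Field L] [NumberField L] [Algebra K L]
    (f : Ideal (𝓞 K)) (hf : f ≠ ⊥) : ∃ (S : Finset (Pl K)) (T : Finset (Pl L)),
      (∀ W, W ∈ T ↔ W.under (𝓞 K) ∈ S) ∧ (∀ v ∈ S, ¬ f ≤ v.asIdeal) ∧ GenS (S : Set (Pl K)) ∧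
      GenS (T : Set (Pl L)) := by
  classical
  have hinj : Function.Injective (algebraMap (𝓞 K) (𝓞 L)) := FaithfulSMul.algebraMap_injective _ _
  have hmap : ∀ I : Ideal (𝓞 K), I ≠ ⊥ → I.map (algebraMap (𝓞 K) (𝓞 L)) ≠ ⊥ := by
    intro I hI h
    apply hI
    exact (Ideal.map_eq_bot_iff_of_injective hinj).1 h
  obtain ⟨U1, h1, h1'⟩ := gens (M := K) f hf
  obtain ⟨U2, h2, h2'⟩ := gens (M := L) (f.map (algebraMap (𝓞 K) (𝓞 L))) (hmap f hf)
  set S : Finset (Pl K) := U1 ∪ U2.image (fun W => W.under (𝓞 K)) with hS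
  have hfin : {W : Pl L | W.under (𝓞 K) ∈ S}.Finite := by
    refine Set.Finite.subset (s := ⋃ v ∈ S, {W : Pl L | W.asIdeal ∣ v.asIdeal.map (algebraMap (𝓞 K) (𝓞 L))})
      (Set.Finite.biUnion S.finite_toSet fun v _ => Ideal.finite_factors (hmap _ v.ne_bot)) ?_
    intro W hW
    rw [Set.mem_iUnion₂]
    refine ⟨W.under (𝓞 K), hW, ?_⟩
    show W.asIdeal ∣ _
    rw [Ideal.dvd_iff_le, Ideal.map_le_iff_le_comap]
    exact le_refl _
  refine ⟨S, hfin.toFinset, fun W => ?_, ?_, ?_, ?_⟩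
  · rw [Set.Finite.mem_toFinset]
    exact Iff.rfl
  · intro v hv hfv
    rw [hS, Finset.mem_union, Finset.mem_image] at hv
    rcases hv with hv | ⟨W, hW, rfl⟩
    · exact h1 v hv hfv
    · apply h2 W hW
      rw [Ideal.map_le_iff_le_comap]
      exact hfv
  · apply h1'
    intro v hv
    rw [hS, Finset.coe_union]
    exact Or.inl hv
  · apply h2'
    intro W hW
    rw [Set.Finite.coe_toFinset]
    show W.under (𝓞 K) ∈ S
    rw [hS, Finset.mem_union, Finset.mem_image]
    exact Or.inr ⟨W, hW, rfl⟩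

end H55R
end
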