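import Mathlib
import Pool.Agent.Lib.H1M.PP2.D_H55B_Defs
import Pool.Agent.Lib.H1M.PP2.M016

/-! Merged copies (to shorten the build) of Lib.H55B.A0, Lib.H55B.S0, Lib.H55B.Z3, Lib.H55B.H0, Lib.H55B.H1, Lib.H55B.S1, Lib.H55B.B1, Lib.H55B.B2, Lib.H55B.A1. -/

-- from Lib.H55B.A0
section

open NumberField IsDedekindDomain

namespace H55B

/-! Chunk A0: the Weierstrass functions of the lattice 3O (Mathlib: PeriodPair, weierstrassP,
derivWeierstrassP, derivWeierstrassP_sq, g_2 = 60 G_4, g_3 = 140 G_6).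
LL_indep: e om is not real. LL_lattice: exists_repr. wp_om: the lattice is stable under z -> (e om) z, so
wp(om z) = om^(-2) wp(z) = om wp(z) (reindex the absolutely convergent sum defining weierstrassP by
l -> om l). wp'(om z) = om^(-3) wp'(z) = wp'(z). wp_zero_at: om (om - 1) = (om - 1) + (om - 1)^2 and
(om - 1)^2 = -3 om is in the lattice, so wp(om - 1) = om wp(om - 1), hence 0. g2_zero: G_4 = om^(-4) G_4. -/

theorem A0_im : (e om).im ^ 2 = 3 / 4 := by
  have h := e_om_rel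
  have h1 := congrArg Complex.re h
  have hr := e_om_re
  rw [sq] at h1
  simp only [Complex.add_re, Complex.mul_re, Complex.one_re, Complex.zero_re] at h1
  rw [hr] at h1
  nlinarith [h1]

theorem A0_im_ne : (e om).im ≠ 0 := by
  intro h
  have := A0_im
  rw [h] at this
  norm_num at this

theorem LL_indep : LinearIndependent ℝ ![(3 : ℂ), 3 * e om] := by
  rw [LinearIndependent.pair_iff]
  intro s t h
  have h1 := congrArg Complex.im h
  have h2 := congrArg Complex.re h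
  simp only [Complex.real_smul, Complex.add_im, Complex.mul_im, Complex.add_re, Complex.mul_re,
    Complex.ofReal_re, Complex.ofReal_im, Complex.zero_im, Complex.zero_re, Complex.re_ofNat,
    Complex.im_ofNat] at h1 h2
  have hi := A0_im_ne
  have ht : t = 0 := by
    have : t * (e om).im = 0 := by linarith
    rcases mul_eq_zero.1 this with h | h
    · exact h
    · exact absurd h hi
  refine ⟨?_, ht⟩
  rw [ht] at h2
  linarith

/-- The period pair of the lattice 3O. -/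
noncomputable def LL : PeriodPair := ⟨3, 3 * e om, LL_indep⟩

/-- The Weierstrass function of 3O. -/
noncomputable def wp (z : ℂ) : ℂ := LL.weierstrassP z

/-- Its derivative. -/
noncomputable def wpd (z : ℂ) : ℂ := LL.derivWeierstrassP z

theorem mem_LL (z : ℂ) : z ∈ LL.lattice ↔ z ∈ Lam := by
  rw [PeriodPair.mem_lattice]
  constructor
  · rintro ⟨m, n, h⟩
    refine ⟨m + n * om, ?_⟩
    rw [← h, map_add, map_mul, map_intCast, map_intCast]
    show (m : ℂ) * 3 + (n : ℂ) * (3 * e om) = _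
    ring
  · rintro ⟨y, h⟩
    obtain ⟨a, b, hab⟩ := exists_repr y
    refine ⟨a, b, ?_⟩
    rw [h, hab, map_add, map_mul, map_intCast, map_intCast]
    show (a : ℂ) * 3 + (b : ℂ) * (3 * e om) = _
    ring

theorem A0_om_ne : e om ≠ 0 := by
  intro h
  have := A0_im_ne
  rw [h] at this
  simp at this

theorem A0_om_ne_one : e om ≠ 1 := by
  intro h
  have := A0_im_ne
  rw [h] at this
  simp at this

theorem A0_om_cube : e om ^ 3 = 1 := by
  have h := e_om_rel
  have : e om ^ 3 - 1 = (e om - 1) * (e om ^ 2 + e om + 1) := by ring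
  rw [h, mul_zero] at this
  exact sub_eq_zero.1 this

theorem A0_mem_om {z : ℂ} (h : z ∈ LL.lattice) : e om * z ∈ LL.lattice := by
  rw [mem_LL] at h ⊢
  obtain ⟨y, hy⟩ := h
  refine ⟨om * y, ?_⟩
  rw [hy, map_mul]
  ring

/-- Multiplication by om on the lattice. -/
noncomputable def A0_equiv : LL.lattice ≃ LL.lattice where
  toFun l := ⟨e om * l.1, A0_mem_om l.2⟩
  invFun l := ⟨e om * (e om * l.1), A0_mem_om (A0_mem_om l.2)⟩
  left_inv l := by
    apply Subtype.ext
    show e om * (e om * (e om * l.1)) = l.1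
    have := A0_om_cube
    linear_combination (l.1) * this
  right_inv l := by
    apply Subtype.ext
    show e om * (e om * (e om * l.1)) = l.1
    have := A0_om_cube
    linear_combination (l.1) * this

theorem wp_om (z : ℂ) : wp (e om * z) = e om * wp z := by
  have hne := A0_om_ne
  have hc := A0_om_cube
  unfold wp PeriodPair.weierstrassP
  rw [← A0_equiv.tsum_eq, ← tsum_mul_left]
  congr 1
  funext l
  show 1 / (e om * z - e om * l.1) ^ 2 - 1 / (e om * l.1) ^ 2 =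
    e om * (1 / (z - l.1) ^ 2 - 1 / l.1 ^ 2)
  have h2 : (e om ^ 2)⁻¹ = e om := by
    apply inv_eq_of_mul_eq_one_right
    rw [← pow_succ]
    exact hc
  rw [← mul_sub, mul_pow, mul_pow, one_div, one_div, mul_inv, mul_inv, h2, one_div, one_div]
  ring

theorem A0_wpd_om (z : ℂ) : wpd (e om * z) = wpd z := by
  have hne := A0_om_ne
  have hc := A0_om_cube
  unfold wpd PeriodPair.derivWeierstrassP
  rw [← A0_equiv.tsum_eq]
  congr 1
  congr 1
  funext l
  show 2 / (e om * z - e om * l.1) ^ 3 = 2 / (z - l.1) ^ 3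
  rw [← mul_sub, mul_pow, hc, one_mul]

theorem wp_per (z : ℂ) (y : O) : wp (z + 3 * e y) = wp z := by
  have h : 3 * e y ∈ LL.lattice := (mem_LL _).2 ⟨y, rfl⟩
  exact LL.weierstrassP_add_coe z ⟨3 * e y, h⟩

theorem wp_zero_at : wp (e om - 1) = 0 := by
  have h1 := wp_om (e om - 1)
  have h2 : e om * (e om - 1) = (e om - 1) + 3 * e (-om) := by
    rw [map_neg]
    linear_combination e_om_rel
  rw [h2, wp_per] at h1
  have h3 : (e om - 1) * wp (e om - 1) = 0 := by linear_combination -h1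
  rcases mul_eq_zero.1 h3 with h | h
  · exact absurd (sub_eq_zero.1 h) A0_om_ne_one
  · exact h

theorem g2_zero : LL.g₂ = 0 := by
  have hne := A0_om_ne
  have hc := A0_om_cube
  have h : LL.G 4 = e om ^ 2 * LL.G 4 := by
    conv_lhs => unfold PeriodPair.G
    rw [← A0_equiv.tsum_eq]
    unfold PeriodPair.G
    rw [← tsum_mul_left]
    congr 1
    funext l
    show ((e om * l.1) ^ 4)⁻¹ = e om ^ 2 * (l.1 ^ 4)⁻¹
    have h4 : (e om ^ 4)⁻¹ = e om ^ 2 := by
      apply inv_eq_of_mul_eq_one_right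
      rw [← pow_add]
      have : e om ^ (4 + 2) = (e om ^ 3) ^ 2 := by ring
      rw [this, hc, one_pow]
    rw [mul_pow, mul_inv, h4]
  have h5 : (1 - e om ^ 2) * LL.G 4 = 0 := by linear_combination h
  have h6 : (1 - e om ^ 2) ≠ 0 := by
    intro h0
    have h7 : e om ^ 2 = 1 := by linear_combination -h0
    apply A0_om_ne_one
    have : e om ^ 3 = e om := by rw [pow_succ, h7, one_mul]
    rw [← this, hc]
  rcases mul_eq_zero.1 h5 with h | h
  · exact absurd h h6
  · unfold PeriodPair.g₂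
    rw [h, mul_zero]

theorem wp_ode (z : ℂ) (hz : z ∉ Lam) : wpd z ^ 2 = 4 * wp z ^ 3 - LL.g₃ := by
  have h : z ∉ LL.lattice := fun h => hz ((mem_LL z).1 h)
  have := LL.derivWeierstrassP_sq z h
  rw [g2_zero, zero_mul, sub_zero] at this
  exact this

theorem wp_neg (z : ℂ) : wp (-z) = wp z := LL.weierstrassP_neg z

theorem A0_wpd_neg (z : ℂ) : wpd (-z) = -wpd z := LL.derivWeierstrassP_neg z

theorem A0_wpd_per (z : ℂ) (y : O) : wpd (z + 3 * e y) = wpd z := by
  have h : 3 * e y ∈ LL.lattice := (mem_LL _).2 ⟨y, rfl⟩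
  exact LL.derivWeierstrassP_add_coe z ⟨3 * e y, h⟩

/-- Near 0: wp z = z^(-2) + z^4 u(z), u analytic, u(0) = g_3/28 = 5 G_6 (use weierstrassPExcept at 0,
iteratedDeriv_weierstrassPExcept_self: the coefficients are (i+1) G_(i+2), and G_3 = G_5 = 0, G_4 = 0). -/
theorem wp_expansion : ∃ u : ℂ → ℂ, AnalyticAt ℂ u 0 ∧ u 0 = LL.g₃ / 28 ∧
    ∀ᶠ z in nhdsWithin (0 : ℂ) {0}ᶜ, wp z = (z ^ 2)⁻¹ + z ^ 4 * u z := by
  set f : ℂ → ℂ := LL.weierstrassPExcept 0 with hf
  have hp := LL.hasFPowerSeriesAt_weierstrassPExcept 0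
  set p : FormalMultilinearSeries ℂ ℂ ℂ := .ofScalars (𝕜 := ℂ) ℂ fun i : ℕ ↦
      if i = 0 then LL.weierstrassPExcept 0 0 else ((i : ℂ) + 1) * LL.sumInvPow 0 (i + 2) with hpd
  have hG4 : LL.G 4 = 0 := by
    have := g2_zero
    unfold PeriodPair.g₂ at this
    rcases mul_eq_zero.1 this with h | h
    · norm_num at h
    · exact h
  have hG3 : LL.G 3 = 0 := LL.G_eq_zero_of_odd 3 (by decide)
  have hG5 : LL.G 5 = 0 := LL.G_eq_zero_of_odd 5 (by decide)
  have c0 : p.coeff 0 = 0 := by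
    rw [hpd, FormalMultilinearSeries.coeff_ofScalars]
    simp
  have c1 : p.coeff 1 = 0 := by
    rw [hpd, FormalMultilinearSeries.coeff_ofScalars]
    simp [hG3]
  have c2 : p.coeff 2 = 0 := by
    rw [hpd, FormalMultilinearSeries.coeff_ofScalars]
    simp [hG4]
  have c3 : p.coeff 3 = 0 := by
    rw [hpd, FormalMultilinearSeries.coeff_ofScalars]
    simp [hG5]
  have c4 : p.coeff 4 = LL.g₃ / 28 := by
    rw [hpd, FormalMultilinearSeries.coeff_ofScalars]
    unfold PeriodPair.g₃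
    simp
    ring
  have key : ∀ k, HasFPowerSeriesAt ((Function.swap dslope 0)^[k] f)
      (FormalMultilinearSeries.fslope^[k] p) 0 := fun k =>
    HasFPowerSeriesAt.has_fpower_series_iterate_dslope_fslope k hp
  have val : ∀ k, (Function.swap dslope (0 : ℂ))^[k] f 0 = p.coeff k := by
    intro k
    have h1 := (key k).coeff_zero 1
    have h2 : (FormalMultilinearSeries.fslope^[k] p).coeff 0 = p.coeff (0 + k) :=
      FormalMultilinearSeries.coeff_iterate_fslope k 0
    rw [zero_add] at h2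
    rw [← h2, ← h1]
    rfl
  have step : ∀ k, ∀ z : ℂ, (Function.swap dslope (0 : ℂ))^[k] f z =
      p.coeff k + z * (Function.swap dslope (0 : ℂ))^[k + 1] f z := by
    intro k z
    have h := sub_smul_dslope ((Function.swap dslope (0 : ℂ))^[k] f) 0 z
    rw [sub_zero, smul_eq_mul, val k] at h
    rw [Function.iterate_succ_apply']
    show _ = p.coeff k + z * dslope ((Function.swap dslope (0 : ℂ))^[k] f) 0 z
    rw [h]
    ring
  refine ⟨(Function.swap dslope (0 : ℂ))^[4] f, (key 4).analyticAt, ?_, ?_⟩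
  · rw [val 4, c4]
  · filter_upwards [self_mem_nhdsWithin] with z hz
    have hfz : f z = z ^ 4 * (Function.swap dslope (0 : ℂ))^[4] f z := by
      have s0 := step 0 z
      have s1 := step 1 z
      have s2 := step 2 z
      have s3 := step 3 z
      rw [c0, zero_add] at s0
      rw [c1, zero_add] at s1
      rw [c2, zero_add] at s2
      rw [c3, zero_add] at s3
      have s0' : f z = z * (Function.swap dslope (0 : ℂ))^[1] f z := s0
      rw [s0', s1, s2, s3]
      ring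
    have h := LL.weierstrassPExcept_add 0 z
    have h' : LL.weierstrassPExcept 0 z + (1 / (z - 0) ^ 2 - 1 / (0 : ℂ) ^ 2) = wp z := h
    rw [← h', sub_zero, ← hfz]
    simp
    ring

/-- Liouville for elliptic functions with removable singularities. -/
theorem A0_liouville (D : ℂ → ℂ) (hper : ∀ z (y : O), D (z + 3 * e y) = D z)
    (hD : ∀ z₀, ∃ a : ℂ → ℂ, AnalyticAt ℂ a z₀ ∧ ∀ᶠ z in nhdsWithin z₀ {z₀}ᶜ, D z = a z) :
    ∃ c, ∀ (z₀ : ℂ) (a : ℂ → ℂ), ContinuousAt a z₀ →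
      (∀ᶠ z in nhdsWithin z₀ {z₀}ᶜ, D z = a z) → a z₀ = c := by
  classical
  set D' : ℂ → ℂ := fun z => (nhdsWithin z {z}ᶜ).limUnder D with hD'
  have hlim : ∀ (z₀ : ℂ) (a : ℂ → ℂ), ContinuousAt a z₀ →
      (∀ᶠ z in nhdsWithin z₀ {z₀}ᶜ, D z = a z) → D' z₀ = a z₀ := by
    intro z₀ a ha h
    have h1 : Filter.Tendsto D (nhdsWithin z₀ {z₀}ᶜ) (nhds (a z₀)) := by
      have h2 : Filter.Tendsto a (nhdsWithin z₀ {z₀}ᶜ) (nhds (a z₀)) :=
        ha.tendsto.mono_left nhdsWithin_le_nhds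
      refine h2.congr' ?_
      filter_upwards [h] with z hz using hz.symm
    exact h1.limUnder_eq
  have han : ∀ z₀, AnalyticAt ℂ D' z₀ := by
    intro z₀
    obtain ⟨a, ha, h⟩ := hD z₀
    refine ha.congr ?_
    have h1 : ∀ᶠ z in nhds z₀, ContinuousAt a z :=
      ha.eventually_analyticAt.mono fun z hz => hz.continuousAt
    rw [eventually_nhdsWithin_iff] at h
    have h2 := h.eventually_nhds
    filter_upwards [h1, h2] with z hz1 hz2
    symm
    apply hlim z a hz1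
    rw [eventually_nhdsWithin_iff]
    by_cases hz : z = z₀
    · rw [hz]
      exact h
    · filter_upwards [hz2, isOpen_ne.mem_nhds hz] with w hw1 hw2 _
      exact hw1 hw2
  have hdiff : Differentiable ℂ D' := fun z => (han z).differentiableAt
  have hper' : ∀ z w, w ∈ LL.lattice → D' (z + w) = D' z := by
    intro z w hw
    obtain ⟨y, hy⟩ := (mem_LL w).1 hw
    obtain ⟨a, ha, h⟩ := hD z
    have e1 := hlim z a ha.continuousAt h
    have e2 : D' (z + w) = (fun v => a (v - w)) (z + w) := by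
      apply hlim (z + w) (fun v => a (v - w))
      · have : ContinuousAt a ((z + w) - w) := by
          rw [add_sub_cancel_right]
          exact ha.continuousAt
        exact ContinuousAt.comp (f := fun v => v - w) this (by fun_prop)
      · rw [eventually_nhdsWithin_iff] at h ⊢
        have ht : Filter.Tendsto (fun v => v - w) (nhds (z + w)) (nhds z) := by
          have : ContinuousAt (fun v : ℂ => v - w) (z + w) := by fun_prop
          have h3 := this.tendsto
          rw [add_sub_cancel_right] at h3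
          exact h3
        filter_upwards [ht.eventually h] with v hv hne
        have h4 : v - w ∈ ({z}ᶜ : Set ℂ) := by
          intro h5
          apply hne
          have h6 : v - w = z := h5
          show v = z + w
          rw [← h6]
          ring
        have h7 := hv h4
        have h8 := hper (v - w) y
        rw [← hy, sub_add_cancel] at h8
        rw [h8, h7]
    rw [e2, e1]
    show a (z + w - w) = a z
    rw [add_sub_cancel_right]
  have hbd : Bornology.IsBounded (Set.range D') :=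
    (IsZLattice.isCompact_range_of_periodic LL.lattice _ hdiff.continuous hper').isBounded
  refine ⟨D' 0, ?_⟩
  intro z₀ a ha h
  rw [← hlim z₀ a ha h]
  exact hdiff.apply_eq_apply_of_bounded hbd z₀ 0

end H55B
end

-- from Lib.H55B.S0
section

open NumberField IsDedekindDomain

namespace H55B

/-! Chunk S0: convergence of the lattice sums of |x|^(-r), r > 2.
The map (a, b) -> a + b om is a bijection Z^2 -> O and |e(a + b om)|^2 = a^2 - a b + b^2 >=
(3/4) max(a^2, b^2); compare with EisensteinSeries.summable_one_div_norm_rpow (sup norm on Fin 2 -> Z)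
or with ZLattice.summable_norm_rpow. -/

/-- the coordinates map -/
noncomputable def s0_map (x : Fin 2 → ℤ) : O := (x 0 : O) + (x 1 : O) * om

theorem s0_bij : Function.Bijective s0_map := by
  constructor
  · intro x y h
    obtain ⟨h1, h2⟩ := repr_unique h
    funext i
    fin_cases i
    · exact h1
    · exact h2
  · intro x
    obtain ⟨a, b, h⟩ := exists_repr x
    refine ⟨![a, b], ?_⟩
    simp [s0_map, h]

theorem s0_norm_sq (x : Fin 2 → ℤ) :
    ‖e (s0_map x)‖ ^ 2 = (x 0 : ℝ) ^ 2 - x 0 * x 1 + (x 1 : ℝ) ^ 2 := by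
  rw [← Nm_eq]
  have h := Nm_repr (x 0) (x 1)
  have h2 : ((Nm (s0_map x) : ℤ) : ℝ) = (((x 0) ^ 2 - x 0 * x 1 + (x 1) ^ 2 : ℤ) : ℝ) := by
    rw [← h]; rfl
  push_cast at h2
  exact_mod_cast h2

theorem s0_norm_le (x : Fin 2 → ℤ) : ‖x‖ ≤ 2 * ‖e (s0_map x)‖ := by
  have h := s0_norm_sq x
  have h0 : 0 ≤ ‖e (s0_map x)‖ := norm_nonneg _
  rw [pi_norm_le_iff_of_nonneg (by positivity)]
  intro i
  rw [Int.norm_eq_abs]
  apply abs_le_of_sq_le_sq _ (by positivity)
  rw [mul_pow, h]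
  fin_cases i
  · simp only [Fin.zero_eta]
    nlinarith [sq_nonneg ((x 0 : ℝ) - 2 * x 1), sq_nonneg (x 0 : ℝ)]
  · simp only [Fin.mk_one]
    nlinarith [sq_nonneg ((x 1 : ℝ) - 2 * x 0), sq_nonneg (x 1 : ℝ)]

theorem summable_e {r : ℝ} (hr : 2 < r) : Summable (fun x : O => (1 + ‖e x‖) ^ (-r)) := by
  rw [← (Equiv.ofBijective s0_map s0_bij).summable_iff]
  have h1 : Summable fun x : Fin 2 → ℤ => (2 : ℝ) ^ r * ‖x‖ ^ (-r) :=
    (EisensteinSeries.summable_one_div_norm_rpow hr).mul_left _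
  refine h1.of_norm_bounded_eventually ?_
  rw [Filter.eventually_cofinite]
  refine Set.Finite.subset (Set.finite_singleton (0 : Fin 2 → ℤ)) ?_
  intro x hx
  rw [Set.mem_singleton_iff]
  by_contra hne
  apply hx
  have hx0 : 0 < ‖x‖ := norm_pos_iff.mpr hne
  have h2 := s0_norm_le x
  have h3 : (0 : ℝ) ≤ ‖e (s0_map x)‖ := norm_nonneg _
  change ‖(1 + ‖e (s0_map x)‖) ^ (-r)‖ ≤ 2 ^ r * ‖x‖ ^ (-r)
  rw [Real.norm_of_nonneg (by positivity)]
  have h4 : (2 : ℝ) ^ r * ‖x‖ ^ (-r) = (‖x‖ / 2) ^ (-r) := by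
    rw [Real.div_rpow hx0.le (by norm_num), Real.rpow_neg (by norm_num : (0:ℝ) ≤ 2)]
    field_simp
  rw [h4]
  apply Real.rpow_le_rpow_of_nonpos (by positivity) (by linarith) (by linarith)

/-- Only finitely many Eisenstein integers in a disc. -/
theorem finite_norm_le (M : ℝ) : {x : O | ‖e x‖ ≤ M}.Finite := by
  rcases lt_or_ge M 0 with hM | hM
  · convert Set.finite_empty
    ext x
    simp only [Set.mem_setOf_eq, Set.mem_empty_iff_false, iff_false, not_le]
    exact hM.trans_le (norm_nonneg _)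
  · have h1 := (summable_e (show (2 : ℝ) < 3 by norm_num)).tendsto_cofinite_zero
    have h2 : (0 : ℝ) < (1 + M) ^ (-(3 : ℝ)) := by positivity
    have h3 := h1.eventually (gt_mem_nhds h2)
    rw [Filter.eventually_cofinite] at h3
    refine h3.subset fun x hx => ?_
    simp only [Set.mem_setOf_eq, not_lt] at hx ⊢
    have h0 : (0 : ℝ) ≤ ‖e x‖ := norm_nonneg _
    exact Real.rpow_le_rpow_of_nonpos (by positivity) (by linarith) (by norm_num)

end H55B
end

-- from Lib.H55B.Z3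
section

open NumberField IsDedekindDomain

namespace H55B

/-! Chunk Z3: primary elements and primary generators.
(O/3)^* has 6 elements and the 6 units are distinct mod 3, so every x coprime to 3 has exactly one unit
multiple congruent to 1 mod 3 (elementary: x = a + b om coprime to 3 iff 3 does not divide
a^2 - a b + b^2 iff a + b is not divisible by 3; go through the residues of (a, b) mod 3).
gen v: v.asIdeal is principal (O is a PID), its generator is coprime to 3 since 3 is not in v. -/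

theorem Z3_three_dvd {c d : ℤ} (h : (3 : O) ∣ (c : O) + d * om) : (3 : ℤ) ∣ c ∧ (3 : ℤ) ∣ d := by
  obtain ⟨z, hz⟩ := h
  obtain ⟨a, b, rfl⟩ := exists_repr z
  have h1 : (c : O) + d * om = ((3 * a : ℤ) : O) + ((3 * b : ℤ) : O) * om := by
    rw [hz]
    push_cast
    ring
  obtain ⟨h2, h3⟩ := repr_unique h1
  exact ⟨⟨a, h2⟩, ⟨b, h3⟩⟩

theorem Z3_om_cube : om ^ 3 = (1 : O) := by
  have h := om_rel
  linear_combination (om - 1) * h

/-- the unit om -/
noncomputable def Z3_omU : Oˣ := ⟨om, om ^ 2, by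
  have h := Z3_om_cube
  linear_combination h, by
  have h := Z3_om_cube
  linear_combination h⟩

theorem prim_one : Prim 1 := by
  unfold Prim
  rw [sub_self]
  exact dvd_zero _

theorem Prim.mul {x y : O} (hx : Prim x) (hy : Prim y) : Prim (x * y) := by
  obtain ⟨a, ha⟩ := hx
  obtain ⟨b, hb⟩ := hy
  refine ⟨a * y + b, ?_⟩
  linear_combination y * ha + hb

theorem Prim.coprime {x : O} (hx : Prim x) : IsCoprime x 3 := by
  obtain ⟨a, ha⟩ := hx
  refine ⟨1, -a, ?_⟩
  linear_combination ha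

theorem Prim.ne_zero {x : O} (hx : Prim x) : x ≠ 0 := by
  rintro rfl
  have h : (3 : O) ∣ ((-1 : ℤ) : O) + ((0 : ℤ) : O) * om := by
    have h1 : (3 : O) ∣ 0 - 1 := hx
    simpa using h1
  have := (Z3_three_dvd h).1
  omega

theorem Z3_lam_dvd_three : (om - 1 : O) ∣ 3 := by
  rw [three_eq]
  exact ⟨-om ^ 2 * (om - 1), by ring⟩

theorem exists_unit_prim {x : O} (h : IsCoprime x 3) : ∃ u : Oˣ, Prim (u * x) := by
  obtain ⟨a, b, rfl⟩ := exists_repr x
  have hab : ¬ (3 : ℤ) ∣ a + b := by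
    rintro ⟨c, hc⟩
    have h1 : (om - 1 : O) ∣ (a : O) + b * om := by
      obtain ⟨d, hd⟩ := Z3_lam_dvd_three
      refine ⟨d * c + b, ?_⟩
      have hc' : (a : O) + b = 3 * c := by exact_mod_cast hc
      linear_combination hc' + (c : O) * hd
    exact lam_prime.not_unit (h.isUnit_of_dvd' h1 Z3_lam_dvd_three)
  have hrel := om_rel
  have hcube := Z3_om_cube
  obtain ⟨a', ha'⟩ : ∃ a', a = 3 * a' + a % 3 := ⟨a / 3, by omega⟩
  obtain ⟨b', hb'⟩ : ∃ b', b = 3 * b' + b % 3 := ⟨b / 3, by omega⟩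
  have hcases : (a % 3 = 1 ∧ b % 3 = 0) ∨ (a % 3 = 2 ∧ b % 3 = 0) ∨ (a % 3 = 0 ∧ b % 3 = 1) ∨
      (a % 3 = 0 ∧ b % 3 = 2) ∨ (a % 3 = 1 ∧ b % 3 = 1) ∨ (a % 3 = 2 ∧ b % 3 = 2) := by omega
  have hval : ((Z3_omU : Oˣ) : O) = om := rfl
  rcases hcases with ⟨h1, h2⟩ | ⟨h1, h2⟩ | ⟨h1, h2⟩ | ⟨h1, h2⟩ | ⟨h1, h2⟩ | ⟨h1, h2⟩ <;>
    rw [h1] at ha' <;> rw [h2] at hb' <;> rw [ha', hb']
  · refine ⟨1, ⟨a' + b' * om, ?_⟩⟩
    push_cast
    ring
  · refine ⟨-1, ⟨-(a' + b' * om) - 1, ?_⟩⟩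
    push_cast
    ring
  · refine ⟨Z3_omU ^ 2, ⟨om ^ 2 * (a' + b' * om), ?_⟩⟩
    rw [Units.val_pow_eq_pow_val, hval]
    push_cast
    linear_combination hcube
  · refine ⟨-Z3_omU ^ 2, ⟨-om ^ 2 * (a' + b' * om) - 1, ?_⟩⟩
    rw [Units.val_neg, Units.val_pow_eq_pow_val, hval]
    push_cast
    linear_combination -2 * hcube
  · refine ⟨-Z3_omU, ⟨-om * (a' + b' * om), ?_⟩⟩
    rw [Units.val_neg, hval]
    push_cast
    linear_combination -hrel
  · refine ⟨Z3_omU, ⟨om * (a' + b' * om) - 1, ?_⟩⟩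
    rw [hval]
    push_cast
    linear_combination 2 * hrel

theorem Prim.eq_of_associated {x y : O} (hx : Prim x) (hy : Prim y) (h : Associated x y) :
    x = y := by
  obtain ⟨u, hu⟩ := h
  have h1 : (3 : O) ∣ (u : O) - 1 := by
    obtain ⟨a, ha⟩ := hx
    obtain ⟨b, hb⟩ := hy
    refine ⟨b - a * u, ?_⟩
    linear_combination hb - (u : O) * ha + hu
  have hrel := om_rel
  rcases unit_cases u with h2 | h2 | h2 | h2 | h2 | h2
  · rw [← hu, h2, mul_one]
  · exfalso
    rw [h2] at h1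
    have h3 : (3 : O) ∣ ((-2 : ℤ) : O) + ((0 : ℤ) : O) * om := by
      convert h1 using 1
      push_cast
      ring
    have := (Z3_three_dvd h3).1
    omega
  · exfalso
    rw [h2] at h1
    have h3 : (3 : O) ∣ ((-1 : ℤ) : O) + ((1 : ℤ) : O) * om := by
      convert h1 using 1
      push_cast
      ring
    have := (Z3_three_dvd h3).1
    omega
  · exfalso
    rw [h2] at h1
    have h3 : (3 : O) ∣ ((-1 : ℤ) : O) + ((-1 : ℤ) : O) * om := by
      convert h1 using 1
      push_cast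
      ring
    have := (Z3_three_dvd h3).1
    omega
  · exfalso
    rw [h2] at h1
    have h3 : (3 : O) ∣ ((-2 : ℤ) : O) + ((-1 : ℤ) : O) * om := by
      convert h1 using 1
      push_cast
      linear_combination -hrel
    have := (Z3_three_dvd h3).1
    omega
  · exfalso
    rw [h2] at h1
    have h3 : (3 : O) ∣ ((0 : ℤ) : O) + ((1 : ℤ) : O) * om := by
      convert h1 using 1
      push_cast
      linear_combination hrel
    have := (Z3_three_dvd h3).2
    omega

theorem gen_spec (v : HeightOneSpectrum O) (h3 : (3 : O) ∉ v.asIdeal) :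
    v.asIdeal = Ideal.span {gen v} ∧ Prim (gen v) := by
  have hex : ∃ x : O, v.asIdeal = Ideal.span {x} ∧ Prim x := by
    obtain ⟨x, hx⟩ := (IsPrincipalIdealRing.principal v.asIdeal).principal
    have hx' : v.asIdeal = Ideal.span {x} := hx
    have hcop : IsCoprime x 3 := by
      rw [← Ideal.isCoprime_span_singleton_iff, Ideal.isCoprime_iff_sup_eq, ← hx']
      have hm : v.asIdeal.IsMaximal := v.isMaximal
      refine hm.out.2 _ (lt_of_le_of_ne le_sup_left ?_)
      intro heq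
      apply h3
      rw [heq]
      exact Ideal.mem_sup_right (Ideal.mem_span_singleton_self 3)
    obtain ⟨u, hu⟩ := exists_unit_prim hcop
    refine ⟨u * x, ?_, hu⟩
    rw [hx']
    exact (Ideal.span_singleton_mul_left_unit u.isUnit x).symm
  unfold gen
  rw [dif_pos hex]
  exact hex.choose_spec

theorem gen_prime (v : HeightOneSpectrum O) (h3 : (3 : O) ∉ v.asIdeal) : Prime (gen v) := by
  have h := gen_spec v h3
  have h1 : (Ideal.span {gen v}).IsPrime := h.1 ▸ v.isPrime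
  exact (Ideal.span_singleton_prime h.2.ne_zero).1 h1

theorem gen_dvd_iff (v : HeightOneSpectrum O) (h3 : (3 : O) ∉ v.asIdeal) (x : O) :
    gen v ∣ x ↔ x ∈ v.asIdeal := by
  rw [← Ideal.mem_span_singleton, ← (gen_spec v h3).1]

theorem absNorm_gen (v : HeightOneSpectrum O) (h3 : (3 : O) ∉ v.asIdeal) :
    Ideal.absNorm v.asIdeal = Nm (gen v) :=
  congrArg Ideal.absNorm (gen_spec v h3).1

/-- A primary prime element is the generator of a prime ideal. -/
theorem exists_gen_eq {p : O} (hp : Prime p) (h : Prim p) :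
    ∃ v : HeightOneSpectrum O, (3 : O) ∉ v.asIdeal ∧ gen v = p := by
  have h1 : (Ideal.span {p}).IsPrime := (Ideal.span_singleton_prime hp.ne_zero).2 hp
  have h2 : Ideal.span {p} ≠ ⊥ := by
    rw [Ne, Ideal.span_singleton_eq_bot]
    exact hp.ne_zero
  have h3 : (3 : O) ∉ Ideal.span {p} := by
    rw [Ideal.mem_span_singleton]
    intro hd
    exact hp.not_unit (h.coprime.isUnit_of_dvd' dvd_rfl hd)
  refine ⟨⟨Ideal.span {p}, h1, h2⟩, h3, ?_⟩
  have h4 := gen_spec ⟨Ideal.span {p}, h1, h2⟩ h3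
  refine h4.2.eq_of_associated h ?_
  exact Ideal.span_singleton_eq_span_singleton.1 h4.1.symm


end H55B
end

-- from Lib.H55B.H0
section

open NumberField IsDedekindDomain

namespace H55B

/-! Chunk H0: basic properties of the symbols.
sym_mul: in a finite field of odd characteristic the product of two nonsquares is a square; in
characteristic 2 (v = (2), O/v of order 4) every element is a square. The set of v dividing a <> 0 is finite
(Mathlib: Ideal.finite_factors or HeightOneSpectrum.Support). IsCoprime x a iff no v contains both (PID).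
Sym_euler: Euler criterion in the field O/v (FiniteField / quadraticChar). -/

instance H0_max (v : HeightOneSpectrum O) : v.asIdeal.IsMaximal := v.isMaximal

theorem H0_finite (v : HeightOneSpectrum O) : Finite (O ⧸ v.asIdeal) :=
  Ideal.finiteQuotientOfFreeOfNeBot v.asIdeal v.ne_bot

open Classical in
theorem H0_sym (v : HeightOneSpectrum O) (x : O) :
    letI := Ideal.Quotient.field v.asIdeal
    letI := @Fintype.ofFinite _ (H0_finite v)
    sym v x = quadraticCharFun (O ⧸ v.asIdeal) (Ideal.Quotient.mk v.asIdeal x) := by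
  unfold sym quadraticCharFun
  have : (∃ y : O, x - y ^ 2 ∈ v.asIdeal) ↔ IsSquare (Ideal.Quotient.mk v.asIdeal x) := by
    constructor
    · rintro ⟨y, hy⟩
      refine ⟨Ideal.Quotient.mk v.asIdeal y, ?_⟩
      rw [← map_mul, Ideal.Quotient.eq, ← pow_two]
      exact hy
    · rintro ⟨y, hy⟩
      obtain ⟨y, rfl⟩ := Ideal.Quotient.mk_surjective y
      refine ⟨y, ?_⟩
      rw [← map_mul, Ideal.Quotient.eq, ← pow_two] at hy
      exact hy
  by_cases h0 : x ∈ v.asIdeal
  · rw [if_pos h0, if_pos ((Ideal.Quotient.eq_zero_iff_mem).2 h0)]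
  · rw [if_neg h0, if_neg (fun h => h0 ((Ideal.Quotient.eq_zero_iff_mem).1 h))]
    by_cases h1 : ∃ y : O, x - y ^ 2 ∈ v.asIdeal
    · rw [if_pos h1, if_pos (this.1 h1)]
    · rw [if_neg h1, if_neg (fun h => h1 (this.2 h))]

theorem sym_mul (v : HeightOneSpectrum O) (x y : O) : sym v (x * y) = sym v x * sym v y := by
  classical
  let i1 := Ideal.Quotient.field v.asIdeal
  let i2 := @Fintype.ofFinite _ (H0_finite v)
  have h1 := H0_sym v x
  have h2 := H0_sym v y
  have h3 := H0_sym v (x * y)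
  rw [h1, h2, h3, map_mul]
  exact quadraticCharFun_mul _ _

theorem sym_congr (v : HeightOneSpectrum O) {x y : O} (h : x - y ∈ v.asIdeal) : sym v x = sym v y := by
  classical
  have h1 := H0_sym v x
  have h2 := H0_sym v y
  rw [h1, h2, (Ideal.Quotient.eq).2 h]

theorem sym_sq (v : HeightOneSpectrum O) {x : O} (h : x ∉ v.asIdeal) : sym v x = 1 ∨ sym v x = -1 := by
  unfold sym
  rw [if_neg h]
  split_ifs
  · exact Or.inl rfl
  · exact Or.inr rfl

/-- Euler criterion. -/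
theorem sym_euler (v : HeightOneSpectrum O) (h2 : (2 : O) ∉ v.asIdeal) (x : O) :
    x ^ ((Ideal.absNorm v.asIdeal - 1) / 2) - (sym v x : O) ∈ v.asIdeal := by
  classical
  let i1 := Ideal.Quotient.field v.asIdeal
  let i2 := @Fintype.ofFinite _ (H0_finite v)
  have h1 := H0_sym v x
  have hchar : ringChar (O ⧸ v.asIdeal) ≠ 2 := by
    intro h
    apply h2
    rw [← Ideal.Quotient.eq_zero_iff_mem]
    have h5 := (ringChar.spec (O ⧸ v.asIdeal) 2).2 (by rw [h])
    have h6 : (Ideal.Quotient.mk v.asIdeal) 2 = (((2 : ℕ) : O ⧸ v.asIdeal)) := by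
      rw [← map_natCast (Ideal.Quotient.mk v.asIdeal)]
      norm_num
    rw [h6]
    exact h5
  have hodd := FiniteField.odd_card_of_char_ne_two hchar
  have hN : Ideal.absNorm v.asIdeal = Fintype.card (O ⧸ v.asIdeal) := by
    rw [Ideal.absNorm_apply, Submodule.cardQuot_apply, Nat.card_eq_fintype_card]
  have hE := quadraticChar_eq_pow_of_char_ne_two' hchar (Ideal.Quotient.mk v.asIdeal x)
  rw [← Ideal.Quotient.eq, map_pow, hN, h1]
  have h3 : (Fintype.card (O ⧸ v.asIdeal) - 1) / 2 = Fintype.card (O ⧸ v.asIdeal) / 2 := by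
    omega
  rw [h3, ← hE, map_intCast]
  rfl

theorem finite_dvd {a : O} (ha : a ≠ 0) : {v : HeightOneSpectrum O | a ∈ v.asIdeal}.Finite := by
  have h := Ideal.finite_factors (R := O) (I := Ideal.span {a})
    (by rw [Ne, Ideal.zero_eq_bot, Ideal.span_singleton_eq_bot]; exact ha)
  refine h.subset ?_
  intro v hv
  simp only [Set.mem_ofPred_eq] at hv ⊢
  rw [Ideal.dvd_span_singleton]
  exact hv

theorem Sym_mul {a : O} (ha : a ≠ 0) (x y : O) : Sym a (x * y) = Sym a x * Sym a y := by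
  have h := finprod_mem_mul_distrib (f := fun v => sym v x) (g := fun v => sym v y) (finite_dvd ha)
  unfold Sym
  simp only [Set.mem_ofPred_eq] at h
  rw [← h]
  exact finprod_congr fun v => finprod_congr fun _ => sym_mul v x y


theorem H0_coprime {a x : O} (ha : a ≠ 0) :
    IsCoprime x a ↔ ∀ v : HeightOneSpectrum O, a ∈ v.asIdeal → x ∉ v.asIdeal := by
  constructor
  · rintro ⟨b, c, h⟩ v hv hx
    apply v.isPrime.ne_top
    rw [Ideal.eq_top_iff_one, ← h]
    exact v.asIdeal.add_mem (v.asIdeal.mul_mem_left _ hx) (v.asIdeal.mul_mem_left _ hv)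
  · intro h
    by_contra hc
    have hne : Ideal.span {x} ⊔ Ideal.span {a} ≠ ⊤ := by
      intro htop
      apply hc
      rw [← Ideal.isCoprime_span_singleton_iff, Ideal.isCoprime_iff_sup_eq]
      exact htop
    obtain ⟨M, hM, hle⟩ := Ideal.exists_le_maximal _ hne
    have hxM : x ∈ M := hle (Ideal.mem_sup_left (Ideal.mem_span_singleton_self x))
    have haM : a ∈ M := hle (Ideal.mem_sup_right (Ideal.mem_span_singleton_self a))
    have hMb : M ≠ ⊥ := by
      intro hb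
      rw [hb, Ideal.mem_bot] at haM
      exact ha haM
    exact h ⟨M, hM.isPrime, hMb⟩ haM hxM

theorem Sym_coprime {a : O} (ha : a ≠ 0) {x : O} (h : IsCoprime x a) : Sym a x = 1 ∨ Sym a x = -1 := by
  rw [H0_coprime ha] at h
  unfold Sym
  refine finprod_mem_induction (s := {v : HeightOneSpectrum O | a ∈ v.asIdeal})
    (fun z : ℤ => z = 1 ∨ z = -1) (Or.inl rfl) ?_ ?_
  · rintro z w (rfl | rfl) (rfl | rfl) <;> simp
  · intro v hv
    exact sym_sq v (h v hv)

theorem Sym_zero {a : O} (ha : a ≠ 0) {x : O} (h : ¬ IsCoprime x a) : Sym a x = 0 := by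
  classical
  rw [H0_coprime ha] at h
  push Not at h
  obtain ⟨v, hv, hx⟩ := h
  have h1 : Sym a x = ∏ᶠ v ∈ {v : HeightOneSpectrum O | a ∈ v.asIdeal}, sym v x := rfl
  rw [h1, finprod_mem_eq_finite_toFinset_prod _ (finite_dvd ha)]
  refine Finset.prod_eq_zero (i := v) ?_ ?_
  · rw [Set.Finite.mem_toFinset]
    exact hv
  · unfold sym
    rw [if_pos hx]

theorem H0_fp1 (a : O) (f : HeightOneSpectrum O → ℤ) (h : ∀ v, a ∈ v.asIdeal → f v = 1) :
    ∏ᶠ (v : HeightOneSpectrum O) (_ : a ∈ v.asIdeal), f v = 1 :=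
  finprod_mem_of_eqOn_one (s := {v : HeightOneSpectrum O | a ∈ v.asIdeal}) (f := f)
    fun v hv => h v hv



theorem Sym_unit {a : O} (ha : IsUnit a) (x : O) : Sym a x = 1 := by
  unfold Sym
  refine H0_fp1 a _ fun v h => ?_
  exact absurd (Ideal.eq_top_of_isUnit_mem _ h ha) v.isPrime.ne_top


theorem H0_om3 : (om : O) ^ 3 = 1 := by
  have h : IsPrimitiveRoot om 3 := zeta_spec.toInteger_isPrimitiveRoot
  exact h.pow_eq_one

/-- om is a square: om = (om^2)^2. -/
theorem sym_om (v : HeightOneSpectrum O) : sym v om = 1 := by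
  have h3 := H0_om3
  unfold sym
  rw [if_neg, if_pos]
  · refine ⟨om ^ 2, ?_⟩
    have : om - (om ^ 2) ^ 2 = 0 := by
      have : (om ^ 2) ^ 2 = om ^ 3 * om := by ring
      rw [this, h3]; ring
    rw [this]
    exact v.asIdeal.zero_mem
  · intro h
    apply v.isPrime.ne_top
    rw [Ideal.eq_top_iff_one, ← h3]
    exact Ideal.pow_mem_of_mem _ h 3 (by norm_num)


end H55B
end

-- from Lib.H55B.H1
section

open NumberField IsDedekindDomain

namespace H55B

/-! Chunk H1: the symbol at primes of prime norm and at inert primes.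
(a) P = (a + b om) with norm a prime number l > 3: O/P is F_l, l does not divide b, om = -a/b in F_l, so
c + d om maps to (b c - a d)/b. An element of O is a square mod P iff its image in F_l = Z/l is a square.
(b) P = (q), q a rational prime, q = 2 mod 3, q odd: x^q = cj x mod q, so x^((q^2-1)/2) = (Nm x)^((q-1)/2)
mod q; with sym_euler. -/

theorem H1_int_mem {v : HeightOneSpectrum O} {l : ℕ} (hl : l.Prime) (h : (l : O) ∈ v.asIdeal) (n : ℤ) :
    (n : O) ∈ v.asIdeal ↔ (l : ℤ) ∣ n := by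
  constructor
  · intro hn
    by_contra hd
    have hc : IsCoprime (l : ℤ) n := by
      rw [Int.isCoprime_iff_gcd_eq_one]
      have := (Nat.Prime.coprime_iff_not_dvd hl (n := n.natAbs)).2 (by
        intro h1
        exact hd (Int.natCast_dvd.2 h1))
      rw [Int.gcd_eq_natAbs, Int.natAbs_natCast]
      exact this
    obtain ⟨x, y, hxy⟩ := hc
    apply v.isPrime.ne_top
    rw [Ideal.eq_top_iff_one]
    have e : (1 : O) = (x : O) * (l : O) + (y : O) * (n : O) := by
      have := congrArg (fun z : ℤ => (z : O)) hxy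
      push_cast at this
      exact this.symm
    rw [e]
    exact v.asIdeal.add_mem (v.asIdeal.mul_mem_left _ h) (v.asIdeal.mul_mem_left _ hn)
  · rintro ⟨k, rfl⟩
    push_cast
    exact v.asIdeal.mul_mem_right _ h

theorem H1_coprime {l : ℕ} (hl : l.Prime) {a b : ℤ} (hN : (l : ℤ) = a ^ 2 - a * b + b ^ 2) :
    ¬ (l : ℤ) ∣ b := by
  intro hb
  have hlp : Prime (l : ℤ) := Nat.prime_iff_prime_int.1 hl
  have ha : (l : ℤ) ∣ a := by
    apply hlp.dvd_of_dvd_pow (n := 2)
    have : a ^ 2 = l + (a - b) * b := by rw [hN]; ring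
    rw [this]
    exact dvd_add dvd_rfl (dvd_mul_of_dvd_right hb _)
  obtain ⟨x, hx⟩ := ha
  obtain ⟨y, hy⟩ := hb
  have h1 : (l : ℤ) * (l * (x ^ 2 - x * y + y ^ 2)) = l * 1 := by
    rw [mul_one]
    conv_rhs => rw [hN]
    rw [hx, hy]; ring
  have h2 := mul_left_cancel₀ hlp.ne_zero h1
  exact hlp.not_isUnit (IsUnit.of_mul_eq_one _ h2)

theorem sym_split (v : HeightOneSpectrum O) (a b : ℤ) (l : ℕ) [Fact l.Prime] (hl : 3 < l)
    (hv : v.asIdeal = Ideal.span {(a : O) + b * om}) (hN : (l : ℤ) = a ^ 2 - a * b + b ^ 2)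
    (c d : ℤ) : sym v (c + d * om) = legendreSym l (b * c - a * d) * legendreSym l b := by
  have hlp : l.Prime := Fact.out
  have hgen : (a : O) + b * om ∈ v.asIdeal := by
    rw [hv]; exact Ideal.mem_span_singleton_self _
  have hlv : (l : O) ∈ v.asIdeal := by
    have h1 := Nm_repr a b
    rw [← hN] at h1
    have h2 := mul_cj ((a : O) + b * om)
    have h3 : ((Nm ((a : O) + b * om) : ℕ) : O) = (l : O) := by
      have : Nm ((a : O) + b * om) = l := by exact_mod_cast h1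
      rw [this]
    rw [← h3, ← h2]
    exact v.asIdeal.mul_mem_right _ hgen
  have hb := H1_coprime hlp hN
  obtain ⟨x, y, hxy⟩ : IsCoprime b (l : ℤ) := by
    rw [Int.isCoprime_iff_gcd_eq_one]
    have := (Nat.Prime.coprime_iff_not_dvd hlp (n := b.natAbs)).2 (by
      intro h1
      exact hb (Int.natCast_dvd.2 h1))
    rw [Int.gcd_eq_natAbs, Int.natAbs_natCast]
    exact this.symm
  -- every element is congruent to an integer
  have hint : ∀ z : O, ∃ m : ℤ, z - (m : O) ∈ v.asIdeal := by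
    intro z
    obtain ⟨z0, z1, hz⟩ := exists_repr z
    refine ⟨z0 - z1 * x * a, ?_⟩
    have e : z - ((z0 - z1 * x * a : ℤ) : O) =
        (z1 * x : O) * ((a : O) + b * om) + (z1 * y * om : O) * (l : O) := by
      have h1 := congrArg (fun z : ℤ => (z : O)) hxy
      push_cast at h1
      rw [hz]
      push_cast
      linear_combination (-(z1 : O) * om) * h1
    rw [e]
    exact v.asIdeal.add_mem (v.asIdeal.mul_mem_left _ hgen) (v.asIdeal.mul_mem_left _ hlv)
  have hsymint : ∀ n : ℤ, sym v (n : O) = legendreSym l n := by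
    intro n
    unfold sym
    by_cases h1 : (n : O) ∈ v.asIdeal
    · rw [if_pos h1]
      have h2 := (H1_int_mem hlp hlv n).1 h1
      have : ((n : ℤ) : ZMod l) = 0 := (ZMod.intCast_zmod_eq_zero_iff_dvd n l).2 h2
      exact ((legendreSym.eq_zero_iff l n).2 this).symm
    · rw [if_neg h1]
      have h2 : ((n : ℤ) : ZMod l) ≠ 0 := by
        intro h
        exact h1 ((H1_int_mem hlp hlv n).2 ((ZMod.intCast_zmod_eq_zero_iff_dvd n l).1 h))
      by_cases h3 : ∃ y : O, (n : O) - y ^ 2 ∈ v.asIdeal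
      · rw [if_pos h3]
        obtain ⟨z, hz⟩ := h3
        obtain ⟨m, hm⟩ := hint z
        have h4 : ((n - m ^ 2 : ℤ) : O) ∈ v.asIdeal := by
          have e : ((n - m ^ 2 : ℤ) : O) = ((n : O) - z ^ 2) + (z + m) * (z - m) := by
            push_cast; ring
          rw [e]
          exact v.asIdeal.add_mem hz (v.asIdeal.mul_mem_left _ hm)
        have h5 := (ZMod.intCast_zmod_eq_zero_iff_dvd _ l).2 ((H1_int_mem hlp hlv _).1 h4)
        push_cast at h5
        symm
        rw [legendreSym.eq_one_iff l h2]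
        exact ⟨(m : ZMod l), by rw [← sq]; exact sub_eq_zero.1 h5⟩
      · rw [if_neg h3]
        symm
        rw [legendreSym.eq_neg_one_iff l]
        rintro ⟨m, hm⟩
        obtain ⟨k, rfl⟩ := ZMod.intCast_surjective m
        apply h3
        refine ⟨(k : O), ?_⟩
        have h5 : ((n - k ^ 2 : ℤ) : ZMod l) = 0 := by
          push_cast
          rw [hm]; ring
        have h6 := (H1_int_mem hlp hlv _).2 ((ZMod.intCast_zmod_eq_zero_iff_dvd _ l).1 h5)
        push_cast at h6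
        exact h6
  have h1 : sym v (b : O) * sym v (c + d * om) = legendreSym l (b * c - a * d) := by
    rw [← sym_mul, ← hsymint]
    apply sym_congr
    have e : (b : O) * (c + d * om) - ((b * c - a * d : ℤ) : O) = d * ((a : O) + b * om) := by
      push_cast; ring
    rw [e]
    exact v.asIdeal.mul_mem_left _ hgen
  rw [hsymint b] at h1
  have h2 : legendreSym l b ^ 2 = 1 := by
    apply legendreSym.sq_one
    intro h
    exact hb ((ZMod.intCast_zmod_eq_zero_iff_dvd b l).1 h)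
  rw [← h1]
  linear_combination (-(sym v (c + d * om))) * h2

/-- a rational prime `1` mod `3` is not inert -/
theorem H1_mod3 (v : HeightOneSpectrum O) {q : ℕ} (hq : q.Prime) (hq3 : q ≠ 3)
    (hv : v.asIdeal = Ideal.span {(q : O)}) : q % 3 = 2 := by
  by_contra hne
  have hqm : q % 3 = 1 := by
    have h0 : q % 3 ≠ 0 := by
      intro h
      exact hq3 ((Nat.prime_dvd_prime_iff_eq Nat.prime_three hq).1 (Nat.dvd_of_mod_eq_zero h)).symm
    omega
  have := Fact.mk hq
  -- a primitive cube root of unity modulo q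
  obtain ⟨g, hg⟩ : ∃ g : (ZMod q)ˣ, orderOf g = 3 := by
    have h3 : 3 ∣ Fintype.card (ZMod q)ˣ := by
      rw [ZMod.card_units]
      omega
    have := Fact.mk Nat.prime_three
    exact exists_prime_orderOf_dvd_card 3 h3
  have hg1 : (g : ZMod q) ^ 3 = 1 := by
    have := pow_orderOf_eq_one g
    rw [hg] at this
    have h1 := congrArg Units.val this
    rwa [Units.val_pow_eq_pow_val, Units.val_one] at h1
  have hgne : (g : ZMod q) ≠ 1 := by
    intro h
    have : g = 1 := Units.ext h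
    rw [this, orderOf_one] at hg
    exact absurd hg (by norm_num)
  obtain ⟨n, hn⟩ := ZMod.intCast_surjective (g : ZMod q)
  have h2 : ((n ^ 2 + n + 1 : ℤ) : ZMod q) = 0 := by
    push_cast
    rw [hn]
    have h3 : ((g : ZMod q) - 1) * ((g : ZMod q) ^ 2 + g + 1) = 0 := by
      linear_combination hg1
    rcases mul_eq_zero.1 h3 with h | h
    · exact absurd (sub_eq_zero.1 h) hgne
    · exact h
  obtain ⟨k, hk⟩ := (ZMod.intCast_zmod_eq_zero_iff_dvd _ q).1 h2
  have hk' := congrArg (fun z : ℤ => (z : O)) hk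
  push_cast at hk'
  have h4 : (om - (n : O)) * (om ^ 2 - (n : O)) ∈ v.asIdeal := by
    have e : (om - (n : O)) * (om ^ 2 - (n : O)) = (q : O) * k := by
      linear_combination (om - 1 - (n : O)) * om_rel + hk'
    rw [e, hv]
    exact Ideal.mul_mem_right _ _ (Ideal.mem_span_singleton_self _)
  have hno : ∀ s t : ℤ, ¬ (q : ℤ) ∣ t → (s : O) + (t : O) * om ∉ v.asIdeal := by
    intro s t ht hmem
    rw [hv, Ideal.mem_span_singleton] at hmem
    obtain ⟨z, hz⟩ := hmem
    obtain ⟨z0, z1, rfl⟩ := exists_repr z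
    have e : (s : O) + (t : O) * om = ((q * z0 : ℤ) : O) + ((q * z1 : ℤ) : O) * om := by
      rw [hz]; push_cast; ring
    have := (repr_unique e).2
    exact ht ⟨z1, this⟩
  have hq1 : ¬ (q : ℤ) ∣ 1 := by
    intro h
    have : q ∣ 1 := by exact_mod_cast h
    exact hq.one_lt.ne' (Nat.dvd_one.1 this)
  rcases v.isPrime.mem_or_mem h4 with h | h
  · apply hno (-n) 1 hq1
    have e : ((-n : ℤ) : O) + ((1 : ℤ) : O) * om = om - n := by push_cast; ring
    rw [e]; exact h
  · apply hno (-1 - n) (-1) (by rw [dvd_neg]; exact hq1)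
    have e : ((-1 - n : ℤ) : O) + ((-1 : ℤ) : O) * om = om ^ 2 - n := by
      push_cast; linear_combination -om_rel
    rw [e]; exact h

theorem sym_inert (v : HeightOneSpectrum O) (q : ℕ) [Fact q.Prime] (hq : q ≠ 2) (hq3 : q ≠ 3)
    (hv : v.asIdeal = Ideal.span {(q : O)}) (x : O) : sym v x = legendreSym q (Nm x) := by
  have hqp : q.Prime := Fact.out
  have hqm := H1_mod3 v hqp hq3 hv
  have hodd : Odd q := hqp.odd_of_ne_two hq
  have hqv : (q : O) ∈ v.asIdeal := by rw [hv]; exact Ideal.mem_span_singleton_self _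
  have hN : Ideal.absNorm v.asIdeal = q ^ 2 := by
    have h1 := Nm_repr q 0
    push_cast at h1
    rw [zero_mul, add_zero] at h1
    have h2 : (Nm (q : O) : ℤ) = (q ^ 2 : ℕ) := by rw [h1]; push_cast; ring
    rw [hv]
    exact_mod_cast h2
  have h2v : (2 : O) ∉ v.asIdeal := by
    intro h
    have := (H1_int_mem hqp hqv 2).1 (by exact_mod_cast h)
    have h3 : q ∣ 2 := by exact_mod_cast this
    exact hq ((Nat.prime_dvd_prime_iff_eq hqp Nat.prime_two).1 h3)
  have he := sym_euler v h2v x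
  rw [hN] at he
  -- x ^ q = cj x modulo q
  have hfrob : x ^ q - cj x ∈ v.asIdeal := by
    obtain ⟨a, b, rfl⟩ := exists_repr x
    have hch : CharP (O ⧸ v.asIdeal) q := by
      have h0 : ((q : ℕ) : O ⧸ v.asIdeal) = 0 := by
        have := Ideal.Quotient.eq_zero_iff_mem.2 hqv
        simpa using this
      have : Nontrivial (O ⧸ v.asIdeal) := Ideal.Quotient.nontrivial_iff.2 v.isPrime.ne_top
      exact (CharP.charP_iff_prime_eq_zero hqp).2 h0
    rw [← Ideal.Quotient.eq_zero_iff_mem, map_sub, sub_eq_zero, map_pow]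
    have e1 : cj ((a : O) + b * om) = a + b * om ^ 2 := by
      rw [map_add, map_mul, map_intCast, map_intCast, cj_om]
    have hint : ∀ n : ℤ, ((n : ℤ) : O ⧸ v.asIdeal) ^ q = (n : O ⧸ v.asIdeal) := by
      intro n
      have h1 : ((n ^ q - n : ℤ) : ZMod q) = 0 := by
        push_cast; rw [ZMod.pow_card]; ring
      obtain ⟨k, hk⟩ := (ZMod.intCast_zmod_eq_zero_iff_dvd _ q).1 h1
      have h2 := congrArg (fun z : ℤ => (z : O ⧸ v.asIdeal)) hk
      push_cast at h2
      have h3 : ((q : ℕ) : O ⧸ v.asIdeal) = 0 := CharP.cast_eq_zero _ _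
      rw [h3, zero_mul] at h2
      exact sub_eq_zero.1 h2
    have hom : om ^ q = om ^ 2 := by
      have h3 : om ^ 3 = 1 := by linear_combination (om - 1) * om_rel
      have : q = 3 * (q / 3) + 2 := by omega
      rw [this, pow_add, pow_mul, h3, one_pow, one_mul]
    rw [e1, map_add, map_mul, map_add, map_mul, map_intCast, map_intCast, add_pow_char, mul_pow, hint,
      hint, ← map_pow, hom]
  have hmul : x ^ (q + 1) - (Nm x : O) ∈ v.asIdeal := by
    have e : x ^ (q + 1) - (Nm x : O) = x * (x ^ q - cj x) := by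
      rw [← mul_cj]; ring
    rw [e]
    exact v.asIdeal.mul_mem_left _ hfrob
  have hexp : (q ^ 2 - 1) / 2 = (q + 1) * (q / 2) := by
    obtain ⟨m, rfl⟩ := hodd
    have e1 : (2 * m + 1) ^ 2 - 1 = 2 * ((2 * m + 1 + 1) * m) := by
      have : (2 * m + 1) ^ 2 = 2 * ((2 * m + 1 + 1) * m) + 1 := by ring
      rw [this]; rfl
    rw [e1, Nat.mul_div_cancel_left _ (by norm_num)]
    congr 1
    omega
  have hpow : x ^ ((q ^ 2 - 1) / 2) - (Nm x : O) ^ (q / 2) ∈ v.asIdeal := by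
    rw [hexp, pow_mul]
    exact v.asIdeal.mem_of_dvd (sub_dvd_pow_sub_pow _ _ _) hmul
  have hleg : (Nm x : O) ^ (q / 2) - ((legendreSym q (Nm x) : ℤ) : O) ∈ v.asIdeal := by
    have h1 := legendreSym.eq_pow q (Nm x)
    have h2 : (((Nm x : ℤ) ^ (q / 2) - legendreSym q (Nm x) : ℤ) : ZMod q) = 0 := by
      push_cast
      push_cast at h1
      rw [h1]; ring
    have h3 := (H1_int_mem hqp hqv _).2 ((ZMod.intCast_zmod_eq_zero_iff_dvd _ q).1 h2)
    push_cast at h3
    exact h3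
  have hfin : ((sym v x - legendreSym q (Nm x) : ℤ) : O) ∈ v.asIdeal := by
    have e : ((sym v x - legendreSym q (Nm x) : ℤ) : O) =
        -(x ^ ((q ^ 2 - 1) / 2) - (sym v x : O)) + (x ^ ((q ^ 2 - 1) / 2) - (Nm x : O) ^ (q / 2)) +
          ((Nm x : O) ^ (q / 2) - ((legendreSym q (Nm x) : ℤ) : O)) := by
      push_cast; ring
    rw [e]
    exact v.asIdeal.add_mem (v.asIdeal.add_mem (v.asIdeal.neg_mem he) hpow) hleg
  have hd := (H1_int_mem hqp hqv _).1 hfin
  have hs1 : sym v x = 0 ∨ sym v x = 1 ∨ sym v x = -1 := by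
    unfold sym
    split_ifs <;> simp
  have hs2 : legendreSym q (Nm x) = 0 ∨ legendreSym q (Nm x) = 1 ∨ legendreSym q (Nm x) = -1 := by
    rcases eq_or_ne (((Nm x : ℤ)) : ZMod q) 0 with h | h
    · exact Or.inl ((legendreSym.eq_zero_iff q _).2 h)
    · exact Or.inr (legendreSym.eq_one_or_neg_one q h)
  have hq2 : 2 < q := lt_of_le_of_ne hqp.two_le (Ne.symm hq)
  obtain ⟨k, hk⟩ := hd
  have hk0 : k = 0 := by
    by_contra hk0
    have h1 : |(q : ℤ) * k| ≥ q := by
      rw [abs_mul]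
      have : (1 : ℤ) ≤ |k| := Int.one_le_abs hk0
      have h2 : |(q : ℤ)| = q := abs_of_nonneg (by positivity)
      rw [h2]
      nlinarith
    rw [← hk] at h1
    have h2 : |sym v x - legendreSym q (Nm x)| ≤ 2 := by
      rcases hs1 with h | h | h <;> rcases hs2 with h' | h' | h' <;> rw [h, h'] <;> norm_num
    have h3 : (q : ℤ) ≤ 2 := h1.trans h2
    omega
  rw [hk0, mul_zero] at hk
  exact sub_eq_zero.1 hk

/-- Types of primes: norm a rational prime, or associated to an inert rational prime q = 2 mod 3. -/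
theorem prime_types (v : HeightOneSpectrum O) (h3 : (3 : O) ∉ v.asIdeal) :
    (∃ l : ℕ, l.Prime ∧ 3 < l ∧ Ideal.absNorm v.asIdeal = l) ∨
    (∃ q : ℕ, q.Prime ∧ q % 3 = 2 ∧ v.asIdeal = Ideal.span {(q : O)}) := by
  obtain ⟨π, hπ⟩ := (IsPrincipalIdealRing.principal v.asIdeal).principal
  have hv : v.asIdeal = Ideal.span {π} := hπ
  have hπ0 : π ≠ 0 := by
    rintro rfl
    exact v.ne_bot (by rw [hv]; simp)
  have hNm : Ideal.absNorm v.asIdeal = Nm π := by rw [hv]; rfl
  have hne1 : Nm π ≠ 1 := by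
    intro h
    rw [Nm_eq_one] at h
    exact v.isPrime.ne_top (by rw [hv]; exact Ideal.span_singleton_eq_top.2 h)
  have hne0 : Nm π ≠ 0 := fun h => hπ0 (Nm_eq_zero.1 h)
  have hmem : ((Nm π : ℕ) : O) ∈ v.asIdeal := by
    rw [← hNm]; exact Ideal.absNorm_mem v.asIdeal
  -- a rational prime in v
  obtain ⟨r, hr, hrv⟩ : ∃ r : ℕ, r.Prime ∧ (r : O) ∈ v.asIdeal := by
    have : ∀ n : ℕ, n ≠ 0 → n ≠ 1 → (n : O) ∈ v.asIdeal → ∃ r : ℕ, r.Prime ∧ (r : O) ∈ v.asIdeal := by
      intro n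
      induction n using Nat.strong_induction_on with
      | _ n ih =>
        intro hn0 hn1 hn
        obtain ⟨p, hp, k, hk⟩ := Nat.exists_prime_and_dvd hn1
        rw [hk] at hn
        push_cast at hn
        rcases v.isPrime.mem_or_mem hn with h | h
        · exact ⟨p, hp, h⟩
        · have hk0 : k ≠ 0 := by rintro rfl; exact hn0 (by rw [hk, mul_zero])
          have hk1 : k ≠ 1 := by
            rintro rfl
            apply v.isPrime.ne_top
            rw [Ideal.eq_top_iff_one]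
            exact_mod_cast h
          refine ih k ?_ hk0 hk1 h
          rw [hk]
          have := hp.two_le
          have := Nat.pos_of_ne_zero hk0
          nlinarith
    exact this _ hne0 hne1 hmem
  have hr3 : r ≠ 3 := by
    rintro rfl
    exact h3 (by exact_mod_cast hrv)
  rw [hv, Ideal.mem_span_singleton] at hrv
  obtain ⟨z, hz⟩ := hrv
  have hNr : Nm (r : O) = r ^ 2 := by
    have h1 := Nm_repr r 0
    push_cast at h1
    rw [zero_mul, add_zero] at h1
    have h2 : (Nm (r : O) : ℤ) = (r ^ 2 : ℕ) := by rw [h1]; push_cast; ring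
    exact_mod_cast h2
  have hmul : Nm π * Nm z = r ^ 2 := by rw [← Nm_mul, ← hz, hNr]
  have hdvd : Nm π ∣ r ^ 2 := ⟨Nm z, hmul.symm⟩
  obtain ⟨i, hi, hi'⟩ := (Nat.dvd_prime_pow hr).1 hdvd
  have hr2 : r = 2 → i ≠ 1 := by
    rintro rfl rfl
    obtain ⟨a, b, rfl⟩ := exists_repr π
    have h1 := Nm_repr a b
    rw [hi'] at h1
    push_cast at h1
    have h2 : (2 : ℤ) ^ 1 = a ^ 2 - a * b + b ^ 2 := h1
    rcases Int.even_or_odd a with ha | ha <;> rcases Int.even_or_odd b with hb | hb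
    · obtain ⟨x, rfl⟩ := ha
      obtain ⟨y, rfl⟩ := hb
      have : (2 : ℤ) ^ 1 = 4 * (x ^ 2 - x * y + y ^ 2) := by rw [h2]; ring
      omega
    all_goals
      have h4 : Even ((2 : ℤ) ^ 1) := ⟨1, by norm_num⟩
      rw [h2] at h4
      have h5 : ¬ Even (a ^ 2 - a * b + b ^ 2) := by
        simp only [Int.even_add, Int.even_sub, Int.even_mul, Int.even_pow, ne_eq, OfNat.ofNat_ne_zero,
          not_false_eq_true, and_true]
        first
          | (have ha' := ha; have hb' := Int.not_even_iff_odd.2 hb; tauto)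
          | (have ha' := Int.not_even_iff_odd.2 ha; have hb' := hb; tauto)
      exact h5 h4
  interval_cases i
  · exact absurd (by rw [hi', pow_zero]) hne1
  · left
    refine ⟨r, hr, ?_, by rw [hNm, hi', pow_one]⟩
    have h2 : r ≠ 2 := fun h => hr2 h rfl
    have := hr.two_le
    omega
  · right
    have hNz : Nm z = 1 := by
      rw [hi'] at hmul
      have : 0 < r ^ 2 := pow_pos hr.pos 2
      exact Nat.eq_of_mul_eq_mul_left this (by rw [hmul, mul_one])
    have hu := Nm_eq_one.1 hNz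
    have hvr : v.asIdeal = Ideal.span {(r : O)} := by
      rw [hv, Ideal.span_singleton_eq_span_singleton]
      exact ⟨hu.unit, by rw [hz]; rfl⟩
    exact ⟨r, hr, H1_mod3 v hr hr3 hvr, hvr⟩

end H55B
end

-- from Lib.H55B.S1
section

open NumberField IsDedekindDomain

namespace H55B

/-! Chunk S1: the second difference of g.
For u with |u| >= 2|w|+1 put h(t) = g s (u + t w), t in [-1,1] (u + t w is never 0 and has norm
between |u|/2 and 3|u|/2). h(t) = conj(u + t w) Q(t)^(-s), Q(t) = |u + t w|^2, a real quadratic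
polynomial with |Q'| <= 2|w||u + t w|, Q'' = 2|w|^2. So |h''(t)| <= C(|s|) |w|^2 |u + t w|^(-2 Re s - 1),
and |h(1) + h(-1) - 2h(0)| <= sup |h''| (Taylor, or mean value inequality twice). Since |u| >= 1 the
exponent -2 Re s - 1 may be replaced by -(1 + 2 sigma) for Re s >= sigma. -/

/-- the square of the norm of `u + t w` -/
noncomputable def s1_q (u w : ℂ) (t : ℝ) : ℝ := (u.re + t * w.re) ^ 2 + (u.im + t * w.im) ^ 2

/-- its derivative -/
noncomputable def s1_q1 (u w : ℂ) (t : ℝ) : ℝ :=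
  2 * (u.re + t * w.re) * w.re + 2 * (u.im + t * w.im) * w.im

/-- the complex power -/
noncomputable def s1_P (s u w : ℂ) (t : ℝ) : ℂ := Complex.exp (-s * (Real.log (s1_q u w t) : ℝ))

/-- the logarithmic derivative -/
noncomputable def s1_r (u w : ℂ) (t : ℝ) : ℝ := s1_q1 u w t / s1_q u w t

/-- conjugate of `u + t w` -/
noncomputable def s1_z (u w : ℂ) (t : ℝ) : ℂ :=
  (starRingEnd ℂ) u + (t : ℂ) * (starRingEnd ℂ) w

theorem s1_q_eq (u w : ℂ) (t : ℝ) : s1_q u w t = ‖u + t * w‖ ^ 2 := by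
  rw [Complex.sq_norm, Complex.normSq_apply]
  simp [s1_q]
  ring

theorem s1_z_eq (u w : ℂ) (t : ℝ) : s1_z u w t = (starRingEnd ℂ) (u + t * w) := by
  simp [s1_z]

theorem s1_g_eq (s u w : ℂ) (t : ℝ) (h : u + t * w ≠ 0) :
    g s (u + t * w) = s1_z u w t * s1_P s u w t := by
  unfold g
  rw [s1_z_eq]
  congr 1
  unfold s1_P
  rw [s1_q_eq, Complex.cpow_def_of_ne_zero (by exact_mod_cast norm_ne_zero_iff.mpr h),
    Real.log_pow, ← Complex.ofReal_log (norm_nonneg _)]
  congr 1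
  push_cast
  ring

theorem s1_deriv_q (u w : ℂ) (t : ℝ) : HasDerivAt (s1_q u w) (s1_q1 u w t) t := by
  unfold s1_q s1_q1
  have h1 : HasDerivAt (fun t : ℝ => u.re + t * w.re) w.re t := by
    simpa using ((hasDerivAt_id t).mul_const w.re).const_add u.re
  have h2 : HasDerivAt (fun t : ℝ => u.im + t * w.im) w.im t := by
    simpa using ((hasDerivAt_id t).mul_const w.im).const_add u.im
  have h3 := (h1.pow 2).add (h2.pow 2)
  exact h3.congr_deriv (by norm_num)

theorem s1_deriv_q1 (u w : ℂ) (t : ℝ) :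
    HasDerivAt (s1_q1 u w) (2 * (w.re ^ 2 + w.im ^ 2)) t := by
  unfold s1_q1
  have h1 : HasDerivAt (fun t : ℝ => u.re + t * w.re) w.re t := by
    simpa using ((hasDerivAt_id t).mul_const w.re).const_add u.re
  have h2 : HasDerivAt (fun t : ℝ => u.im + t * w.im) w.im t := by
    simpa using ((hasDerivAt_id t).mul_const w.im).const_add u.im
  have h3 := ((h1.const_mul 2).mul_const w.re).add ((h2.const_mul 2).mul_const w.im)
  exact h3.congr_deriv (by ring)

theorem s1_deriv_P (s u w : ℂ) (t : ℝ) (hq : s1_q u w t ≠ 0) :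
    HasDerivAt (s1_P s u w) (s1_P s u w t * (-s * (s1_r u w t : ℝ))) t := by
  have h1 := (s1_deriv_q u w t).log hq
  have h2 := (h1.ofReal_comp.const_mul (-s)).cexp
  exact h2

theorem s1_deriv_z (u w : ℂ) (t : ℝ) : HasDerivAt (s1_z u w) ((starRingEnd ℂ) w) t := by
  unfold s1_z
  have h1 : HasDerivAt (fun t : ℝ => (t : ℂ)) 1 t := by
    simpa using (hasDerivAt_id t).ofReal_comp
  simpa using (h1.mul_const ((starRingEnd ℂ) w)).const_add ((starRingEnd ℂ) u)

/-- derivative of `s1_r` -/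
noncomputable def s1_r1 (u w : ℂ) (t : ℝ) : ℝ :=
  (2 * (w.re ^ 2 + w.im ^ 2) * s1_q u w t - s1_q1 u w t * s1_q1 u w t) / (s1_q u w t) ^ 2

theorem s1_deriv_r (u w : ℂ) (t : ℝ) (hq : s1_q u w t ≠ 0) :
    HasDerivAt (s1_r u w) (s1_r1 u w t) t :=
  (s1_deriv_q1 u w t).div (s1_deriv_q u w t) hq

/-- first derivative of `h` -/
noncomputable def s1_h1 (s u w : ℂ) (t : ℝ) : ℂ :=
  (starRingEnd ℂ) w * s1_P s u w t + s1_z u w t * (s1_P s u w t * (-s * (s1_r u w t : ℝ)))

/-- second derivative of `h` -/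
noncomputable def s1_h2 (s u w : ℂ) (t : ℝ) : ℂ :=
  (starRingEnd ℂ) w * (s1_P s u w t * (-s * (s1_r u w t : ℝ))) +
    ((starRingEnd ℂ) w * (s1_P s u w t * (-s * (s1_r u w t : ℝ))) +
      s1_z u w t * ((s1_P s u w t * (-s * (s1_r u w t : ℝ))) * (-s * (s1_r u w t : ℝ)) +
        s1_P s u w t * (-s * (s1_r1 u w t : ℝ))))

theorem s1_deriv_h (s u w : ℂ) (t : ℝ) (hq : s1_q u w t ≠ 0) :
    HasDerivAt (fun t => s1_z u w t * s1_P s u w t) (s1_h1 s u w t) t :=
  (s1_deriv_z u w t).mul (s1_deriv_P s u w t hq)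

theorem s1_deriv_h1 (s u w : ℂ) (t : ℝ) (hq : s1_q u w t ≠ 0) :
    HasDerivAt (s1_h1 s u w) (s1_h2 s u w t) t := by
  have h1 := (s1_deriv_P s u w t hq).const_mul ((starRingEnd ℂ) w)
  have h2 := ((s1_deriv_r u w t hq).ofReal_comp.const_mul (-s))
  have h3 := (s1_deriv_z u w t).mul ((s1_deriv_P s u w t hq).mul h2)
  exact h1.add h3

theorem s1_norm_P (s u w : ℂ) (t : ℝ) (h : u + t * w ≠ 0) :
    ‖s1_P s u w t‖ = ‖u + t * w‖ ^ (-(2 * s.re)) := by
  have hpos : 0 < ‖u + t * w‖ := norm_pos_iff.mpr h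
  unfold s1_P
  rw [Complex.norm_exp, s1_q_eq, Real.log_pow, Real.rpow_def_of_pos hpos]
  congr 1
  simp
  ring

theorem s1_bound (s u w : ℂ) (t : ℝ) (h : u + t * w ≠ 0) :
    ‖s1_h2 s u w t‖ ≤ ‖w‖ ^ 2 * (10 * ‖s‖ + 4 * ‖s‖ ^ 2) / ‖u + t * w‖ *
      ‖u + t * w‖ ^ (-(2 * s.re)) := by
  set ρ := ‖u + t * w‖ with hρ
  have hρ0 : 0 < ρ := norm_pos_iff.mpr h
  have hq : s1_q u w t = ρ ^ 2 := s1_q_eq u w t
  have hw2 : w.re ^ 2 + w.im ^ 2 = ‖w‖ ^ 2 := by
    rw [Complex.sq_norm, Complex.normSq_apply]; ring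
  have hq1 : |s1_q1 u w t| ≤ 2 * ‖w‖ * ρ := by
    apply abs_le_of_sq_le_sq _ (by positivity)
    have e1 : (2 * ‖w‖ * ρ) ^ 2 = 4 * (w.re ^ 2 + w.im ^ 2) * s1_q u w t := by
      rw [hw2, hq]; ring
    rw [e1]
    unfold s1_q1 s1_q
    nlinarith [sq_nonneg ((u.re + t * w.re) * w.im - (u.im + t * w.im) * w.re)]
  have hr : |s1_r u w t| ≤ 2 * ‖w‖ / ρ := by
    unfold s1_r
    rw [abs_div, hq, abs_of_pos (by positivity : (0:ℝ) < ρ ^ 2)]
    rw [div_le_div_iff₀ (by positivity) hρ0]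
    calc |s1_q1 u w t| * ρ ≤ 2 * ‖w‖ * ρ * ρ := by gcongr
      _ = 2 * ‖w‖ * ρ ^ 2 := by ring
  have hr1 : |s1_r1 u w t| ≤ 6 * ‖w‖ ^ 2 / ρ ^ 2 := by
    unfold s1_r1
    rw [abs_div, hq, hw2, abs_of_pos (by positivity : (0:ℝ) < (ρ ^ 2) ^ 2)]
    rw [div_le_div_iff₀ (by positivity) (by positivity)]
    have e2 : |2 * ‖w‖ ^ 2 * ρ ^ 2 - s1_q1 u w t * s1_q1 u w t| ≤ 6 * ‖w‖ ^ 2 * ρ ^ 2 := by
      have e3 : s1_q1 u w t * s1_q1 u w t ≤ (2 * ‖w‖ * ρ) ^ 2 := by
        rw [← sq, ← sq_abs]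
        exact pow_le_pow_left₀ (abs_nonneg _) hq1 2
      have e4 : 0 ≤ s1_q1 u w t * s1_q1 u w t := mul_self_nonneg _
      have e5 : (2 * ‖w‖ * ρ) ^ 2 = 4 * (‖w‖ ^ 2 * ρ ^ 2) := by ring
      have e6 : 0 ≤ ‖w‖ ^ 2 * ρ ^ 2 := by positivity
      rw [abs_le]
      constructor <;> nlinarith
    calc |2 * ‖w‖ ^ 2 * ρ ^ 2 - s1_q1 u w t * s1_q1 u w t| * ρ ^ 2
        ≤ 6 * ‖w‖ ^ 2 * ρ ^ 2 * ρ ^ 2 := by gcongr
      _ = 6 * ‖w‖ ^ 2 * (ρ ^ 2) ^ 2 := by ring
  have hP := s1_norm_P s u w t h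
  rw [← hρ] at hP
  set p := ρ ^ (-(2 * s.re)) with hp
  have hp0 : 0 ≤ p := by positivity
  have hz : ‖s1_z u w t‖ = ρ := by
    rw [s1_z_eq, Complex.norm_conj]
  have hs0 : 0 ≤ ‖s‖ := norm_nonneg s
  have hw0 : 0 ≤ ‖w‖ := norm_nonneg w
  have ha : ‖s1_P s u w t * (-s * (s1_r u w t : ℝ))‖ ≤ p * (‖s‖ * (2 * ‖w‖ / ρ)) := by
    rw [norm_mul, norm_mul, norm_neg, hP, Complex.norm_real, Real.norm_eq_abs]
    gcongr
  have hb : ‖(starRingEnd ℂ) w * (s1_P s u w t * (-s * (s1_r u w t : ℝ)))‖ ≤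
      ‖w‖ * (p * (‖s‖ * (2 * ‖w‖ / ρ))) := by
    rw [norm_mul, Complex.norm_conj]
    gcongr
  have hc : ‖s1_z u w t * ((s1_P s u w t * (-s * (s1_r u w t : ℝ))) * (-s * (s1_r u w t : ℝ)) +
        s1_P s u w t * (-s * (s1_r1 u w t : ℝ)))‖ ≤
      ρ * (p * (‖s‖ * (2 * ‖w‖ / ρ)) * (‖s‖ * (2 * ‖w‖ / ρ)) + p * (‖s‖ * (6 * ‖w‖ ^ 2 / ρ ^ 2))) := by
    rw [norm_mul, hz]
    refine mul_le_mul_of_nonneg_left ?_ hρ0.le
    refine (norm_add_le _ _).trans (add_le_add ?_ ?_)
    · rw [norm_mul]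
      refine mul_le_mul ha ?_ (norm_nonneg _) (by positivity)
      rw [norm_mul, norm_neg, Complex.norm_real, Real.norm_eq_abs]
      gcongr
    · rw [norm_mul, norm_mul, norm_neg, hP, Complex.norm_real, Real.norm_eq_abs]
      gcongr
  have hd : ‖s1_h2 s u w t‖ ≤ ‖w‖ * (p * (‖s‖ * (2 * ‖w‖ / ρ))) +
      (‖w‖ * (p * (‖s‖ * (2 * ‖w‖ / ρ))) +
      ρ * (p * (‖s‖ * (2 * ‖w‖ / ρ)) * (‖s‖ * (2 * ‖w‖ / ρ)) +
        p * (‖s‖ * (6 * ‖w‖ ^ 2 / ρ ^ 2)))) := by
    unfold s1_h2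
    exact (norm_add_le _ _).trans (add_le_add hb ((norm_add_le _ _).trans (add_le_add hb hc)))
  refine hd.trans (le_of_eq ?_)
  field_simp
  ring

theorem g_second_diff (w : ℂ) (σ M : ℝ) (hσ : 0 ≤ σ) : ∃ C : ℝ, 0 < C ∧ ∀ s : ℂ, σ ≤ s.re → ‖s‖ ≤ M →
    ∀ u : ℂ, 2 * ‖w‖ + 1 ≤ ‖u‖ →
      ‖g s (u + w) + g s (u - w) - 2 * g s u‖ ≤ C * ‖u‖ ^ (-(1 + 2 * σ)) := by
  refine ⟨2 * (‖w‖ ^ 2 * (10 * |M| + 4 * |M| ^ 2) * 2 ^ (1 + 2 * σ)) + 1, by positivity, ?_⟩
  intro s hs hM u hu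
  have hw0 : 0 ≤ ‖w‖ := norm_nonneg w
  have hMabs : ‖s‖ ≤ |M| := hM.trans (le_abs_self M)
  have hz : ∀ t ∈ Set.Icc (-1 : ℝ) 1, 1 ≤ ‖u + t * w‖ ∧ ‖u‖ / 2 ≤ ‖u + t * w‖ := by
    intro t ht
    have h1 : ‖u‖ ≤ ‖u + t * w‖ + ‖w‖ := by
      calc ‖u‖ = ‖(u + t * w) - t * w‖ := by ring_nf
        _ ≤ ‖u + t * w‖ + ‖t * w‖ := norm_sub_le _ _
        _ ≤ ‖u + t * w‖ + ‖w‖ := by
          rw [norm_mul, Complex.norm_real, Real.norm_eq_abs]
          have : |t| ≤ 1 := abs_le.mpr ht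
          nlinarith
    constructor <;> linarith
  have hz0 : ∀ t ∈ Set.Icc (-1 : ℝ) 1, u + t * w ≠ 0 := by
    intro t ht h0
    have := (hz t ht).1
    rw [h0, norm_zero] at this
    linarith
  have hq0 : ∀ t ∈ Set.Icc (-1 : ℝ) 1, s1_q u w t ≠ 0 := by
    intro t ht
    rw [s1_q_eq]
    exact pow_ne_zero 2 (norm_ne_zero_iff.mpr (hz0 t ht))
  have hu1 : 1 ≤ ‖u‖ := by linarith
  set B : ℝ := ‖w‖ ^ 2 * (10 * |M| + 4 * |M| ^ 2) * (2 ^ (1 + 2 * σ) * ‖u‖ ^ (-(1 + 2 * σ))) with hB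
  have hB0 : 0 ≤ B := by positivity
  have hbd : ∀ t ∈ Set.Icc (-1 : ℝ) 1, ‖s1_h2 s u w t‖ ≤ B := by
    intro t ht
    obtain ⟨h1, h2⟩ := hz t ht
    refine (s1_bound s u w t (hz0 t ht)).trans ?_
    set ρ := ‖u + t * w‖ with hρ
    have hρ0 : 0 < ρ := by linarith
    have e1 : ‖w‖ ^ 2 * (10 * ‖s‖ + 4 * ‖s‖ ^ 2) / ρ * ρ ^ (-(2 * s.re)) =
        ‖w‖ ^ 2 * (10 * ‖s‖ + 4 * ‖s‖ ^ 2) * ρ ^ (-(1 + 2 * s.re)) := by
      have : ρ ^ (-(1 + 2 * s.re)) = ρ⁻¹ * ρ ^ (-(2 * s.re)) := by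
        rw [← Real.rpow_neg_one, ← Real.rpow_add hρ0]
        congr 1
        ring
      rw [this]
      field_simp
    rw [e1, hB]
    have e2 : ρ ^ (-(1 + 2 * s.re)) ≤ ρ ^ (-(1 + 2 * σ)) :=
      Real.rpow_le_rpow_of_exponent_le h1 (by linarith)
    have e3 : ρ ^ (-(1 + 2 * σ)) ≤ (‖u‖ / 2) ^ (-(1 + 2 * σ)) :=
      Real.rpow_le_rpow_of_nonpos (by linarith) h2 (by linarith)
    have e4 : (‖u‖ / 2) ^ (-(1 + 2 * σ)) = 2 ^ (1 + 2 * σ) * ‖u‖ ^ (-(1 + 2 * σ)) := by
      rw [Real.div_rpow (by linarith) (by norm_num), Real.rpow_neg (by norm_num : (0:ℝ) ≤ 2)]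
      field_simp
    rw [← e4]
    have e5 : 0 ≤ ρ ^ (-(1 + 2 * s.re)) := by positivity
    gcongr
    exact e2.trans e3
  have hconv : Convex ℝ (Set.Icc (-1 : ℝ) 1) := convex_Icc _ _
  have hstep : ∀ t ∈ Set.Icc (0 : ℝ) 1, ‖s1_h1 s u w t - s1_h1 s u w (-t)‖ ≤ 2 * B := by
    intro t ht
    have h1 : t ∈ Set.Icc (-1 : ℝ) 1 := ⟨by linarith [ht.1], ht.2⟩
    have h2 : -t ∈ Set.Icc (-1 : ℝ) 1 := ⟨by linarith [ht.2], by linarith [ht.1]⟩
    have h3 := hconv.norm_image_sub_le_of_norm_hasDerivWithin_le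
      (f := s1_h1 s u w) (f' := s1_h2 s u w) (C := B)
      (fun x hx => (s1_deriv_h1 s u w x (hq0 x hx)).hasDerivWithinAt) hbd h2 h1
    refine h3.trans ?_
    have h4 : ‖t - -t‖ ≤ 2 := by
      rw [Real.norm_eq_abs, abs_le]
      constructor <;> linarith [ht.1, ht.2]
    nlinarith
  set H : ℝ → ℂ := fun t => s1_z u w t * s1_P s u w t with hH
  have hD : ∀ t ∈ Set.Icc (0 : ℝ) 1, HasDerivWithinAt (fun t => H t + H (-t))
      (s1_h1 s u w t - s1_h1 s u w (-t)) (Set.Icc (0 : ℝ) 1) t := by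
    intro t ht
    have h1 : t ∈ Set.Icc (-1 : ℝ) 1 := ⟨by linarith [ht.1], ht.2⟩
    have h2 : -t ∈ Set.Icc (-1 : ℝ) 1 := ⟨by linarith [ht.2], by linarith [ht.1]⟩
    have h3 := s1_deriv_h s u w t (hq0 t h1)
    have h4 := s1_deriv_h s u w (-t) (hq0 (-t) h2)
    have h5 : HasDerivAt (fun t => H (-t)) (-(s1_h1 s u w (-t))) t := by
      have h7 := HasDerivAt.scomp t h4 (hasDerivAt_neg t)
      exact h7.congr_deriv (by simp)
    have h6 := h3.add h5
    rw [← sub_eq_add_neg] at h6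
    exact h6.hasDerivWithinAt
  have hfin := (convex_Icc (0 : ℝ) 1).norm_image_sub_le_of_norm_hasDerivWithin_le
    (C := 2 * B) hD hstep (x := 0) (y := 1) (by simp) (by simp)
  simp only [sub_zero, norm_one, mul_one, neg_zero] at hfin
  have g1 : H 1 = g s (u + w) := by
    have := s1_g_eq s u w 1 (hz0 1 (by simp))
    rw [hH]
    simp only
    rw [← this]
    simp
  have g2 : H (-1) = g s (u - w) := by
    have := s1_g_eq s u w (-1) (hz0 (-1) (by simp))
    rw [hH]
    simp only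
    rw [← this]
    push_cast
    ring_nf
  have g3 : H 0 = g s u := by
    have := s1_g_eq s u w 0 (hz0 0 (by simp))
    rw [hH]
    simp only
    rw [← this]
    simp
  rw [g1, g2, g3] at hfin
  have e : g s (u + w) + g s (u - w) - 2 * g s u = g s (u + w) + g s (u - w) - (g s u + g s u) := by
    ring
  rw [e]
  refine hfin.trans ?_
  rw [hB]
  have hx : 0 ≤ ‖u‖ ^ (-(1 + 2 * σ)) := by positivity
  nlinarith

end H55B
end

-- from Lib.H55B.B1
section

open NumberField IsDedekindDomain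

namespace H55B

/-! Chunk B1: G is analytic on Re s > 1/2.
All but finitely many x satisfy 2|w| + 1 <= |1 + 3 e x| (S0.finite_norm_le), there S1 bounds the term
(with u = 1 + 3 e x) by C |1 + 3 e x|^(-(1 + 2 sigma)), summable by S0 (comparison
|1 + 3 e x| >= c (1 + |e x|) for all but finitely many x). Locally uniformly on {sigma < Re s, |s| < M};
each term is analytic in s (g s u is entire in s for fixed u: u = 0 gives 0 identically);
differentiableOn_tsum_of_summable_norm. -/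

theorem b1_diff (u : ℂ) : Differentiable ℂ (fun s => g s u) := by
  intro s
  by_cases hu : u = 0
  · subst hu
    have : (fun s => g s 0) = fun _ => (0 : ℂ) := by
      funext s
      simp [g]
    rw [this]
    exact differentiableAt_const _
  · unfold g
    refine (differentiableAt_const _).mul ?_
    refine DifferentiableAt.const_cpow ?_ (Or.inl ?_)
    · exact (differentiableAt_const _).mul differentiableAt_id
    · exact_mod_cast norm_ne_zero_iff.mpr hu

/-- the general term of `G` -/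
noncomputable def b1_term (w : ℂ) (x : O) (s : ℂ) : ℂ :=
  g s (1 + w + 3 * e x) + g s (1 - w + 3 * e x) - 2 * g s (1 + 3 * e x)

theorem b1_term_diff (w : ℂ) (x : O) : Differentiable ℂ (b1_term w x) := by
  unfold b1_term
  exact ((b1_diff _).add (b1_diff _)).sub ((differentiable_const _).mul (b1_diff _))

theorem b1_low (x : O) (h : 1 ≤ ‖e x‖) : 1 + ‖e x‖ ≤ ‖1 + 3 * e x‖ := by
  have h1 : ‖3 * e x‖ ≤ ‖1 + 3 * e x‖ + 1 := by
    calc ‖3 * e x‖ = ‖(1 + 3 * e x) - 1‖ := by ring_nf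
      _ ≤ ‖1 + 3 * e x‖ + ‖(1 : ℂ)‖ := norm_sub_le _ _
      _ = ‖1 + 3 * e x‖ + 1 := by rw [norm_one]
  have h2 : ‖3 * e x‖ = 3 * ‖e x‖ := by
    rw [norm_mul]
    simp
  linarith

theorem b1_bound (w : ℂ) (σ M : ℝ) (hσ : 1 / 2 < σ) : ∃ B : O → ℝ, Summable B ∧
    ∀ x : O, ∀ s : ℂ, σ ≤ s.re → ‖s‖ ≤ M → ‖b1_term w x s‖ ≤ B x := by
  obtain ⟨C, hC0, hC⟩ := g_second_diff w σ M (by linarith)
  set K : Set ℂ := {s | σ ≤ s.re ∧ ‖s‖ ≤ M} with hK
  have hKc : IsCompact K := by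
    have h1 : K ⊆ Metric.closedBall 0 M := by
      intro s hs
      rw [mem_closedBall_zero_iff]
      exact hs.2
    refine IsCompact.of_isClosed_subset (isCompact_closedBall 0 M) ?_ h1
    exact (isClosed_le continuous_const Complex.continuous_re).inter
      (isClosed_le continuous_norm continuous_const)
  have hb : ∀ x : O, ∃ c : ℝ, ∀ s ∈ K, ‖b1_term w x s‖ ≤ c := fun x =>
    hKc.exists_bound_of_continuousOn (b1_term_diff w x).continuous.continuousOn
  choose c hc using hb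
  classical
  refine ⟨fun x => if ‖w‖ + 1 < ‖e x‖ then C * (1 + ‖e x‖) ^ (-(1 + 2 * σ)) else c x, ?_, ?_⟩
  · have h1 : Summable (fun x : O => C * (1 + ‖e x‖) ^ (-(1 + 2 * σ))) :=
      (summable_e (by linarith)).mul_left C
    refine h1.of_norm_bounded_eventually ?_
    rw [Filter.eventually_cofinite]
    refine (finite_norm_le (‖w‖ + 1)).subset ?_
    intro x hx
    simp only [Set.mem_ofPred_eq] at hx ⊢
    by_contra hne
    apply hx
    rw [if_pos (not_le.mp hne), Real.norm_of_nonneg (by positivity)]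
  · intro x s hs hM
    simp only
    split_ifs with h
    · have hw0 : 0 ≤ ‖w‖ := norm_nonneg w
      have h1 := b1_low x (by linarith)
      have h3 : 3 * ‖e x‖ ≤ ‖1 + 3 * e x‖ + 1 := by
        calc 3 * ‖e x‖ = ‖3 * e x‖ := by rw [norm_mul]; simp
          _ = ‖(1 + 3 * e x) - 1‖ := by ring_nf
          _ ≤ ‖1 + 3 * e x‖ + ‖(1 : ℂ)‖ := norm_sub_le _ _
          _ = ‖1 + 3 * e x‖ + 1 := by rw [norm_one]
      have h2 := hC s hs hM (1 + 3 * e x) (by linarith)
      have e1 : b1_term w x s = g s (1 + 3 * e x + w) + g s (1 + 3 * e x - w) -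
          2 * g s (1 + 3 * e x) := by
        unfold b1_term
        congr 3 <;> ring_nf
      rw [e1]
      refine h2.trans (mul_le_mul_of_nonneg_left ?_ hC0.le)
      exact Real.rpow_le_rpow_of_nonpos (by positivity) h1 (by linarith)
    · exact hc x s ⟨hs, hM⟩


theorem G_analytic (w : ℂ) : AnalyticOnNhd ℂ (G w) {s | 1 / 2 < s.re} := by
  intro s hs
  simp only [Set.mem_ofPred_eq] at hs
  obtain ⟨B, hB, hB2⟩ := b1_bound w ((1 / 2 + s.re) / 2) (‖s‖ + 1) (by linarith)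
  set U : Set ℂ := {z | (1 / 2 + s.re) / 2 < z.re ∧ ‖z‖ < ‖s‖ + 1} with hU
  have hUo : IsOpen U := (isOpen_lt continuous_const Complex.continuous_re).inter
    (isOpen_lt continuous_norm continuous_const)
  have hsU : s ∈ U := ⟨by linarith, by linarith⟩
  have h1 : DifferentiableOn ℂ (fun z => ∑' x : O, b1_term w x z) U :=
    Complex.differentiableOn_tsum_of_summable_norm hB (fun x => (b1_term_diff w x).differentiableOn) hUo
      (fun x z hz => hB2 x z hz.1.le hz.2.le)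
  exact h1.analyticAt (hUo.mem_nhds hsU)

end H55B
end

-- from Lib.H55B.B2
section

open NumberField IsDedekindDomain

namespace H55B

/-! Chunk B2: elementary relations between the lattice sums.
g_mul: norm is multiplicative and (a b)^(z) = a^z b^z for nonnegative reals
(Complex.mul_cpow_ofReal_nonneg). g_one: conj(u)/|u|^2 = 1/u.
Kf_summable: |g s u| = |u|^(1 - 2 Re s) and S0 with r = 2 Re s - 1 > 2.
Kf_per: shift x by y. Kf_om: om is a unit, reindex x -> om x, g_mul and g s (e om) = conj(e om).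
Kf_one: with om = e om: 1 + (om - 1) = om and 1 - (om - 1) = 2 - om = om^2 + 3, so G (om - 1) s =
Kf om + Kf om^2 - 2 Kf 1 = (conj om + conj om^2 - 2) Kf 1 = -3 Kf 1.
G_per: true for Re s > 3/2 by G_eq_Kf and Kf_per; both sides are analytic on the half plane Re s > 1/2
(connected), identity theorem. -/

theorem g_mul (s u v : ℂ) : g s (u * v) = g s u * g s v := by
  unfold g
  rw [map_mul, norm_mul, Complex.ofReal_mul,
    Complex.mul_cpow_ofReal_nonneg (norm_nonneg u) (norm_nonneg v)]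
  ring

theorem g_one (u : ℂ) : g 1 u = u⁻¹ := by
  unfold g
  rw [Complex.inv_def, Complex.normSq_eq_norm_sq]
  congr 1
  rw [mul_one, Complex.cpow_neg]
  norm_num

theorem norm_g (s u : ℂ) (hu : u ≠ 0) : ‖g s u‖ = ‖u‖ ^ (1 - 2 * s.re) := by
  have hpos : 0 < ‖u‖ := norm_pos_iff.mpr hu
  unfold g
  rw [norm_mul, Complex.norm_conj, Complex.norm_cpow_eq_rpow_re_of_pos hpos]
  nth_rewrite 1 [← Real.rpow_one ‖u‖]
  rw [← Real.rpow_add hpos]
  congr 1
  simp
  ring

theorem b2_low (w : ℂ) (x : O) (h : ‖w‖ + 1 ≤ ‖e x‖) : 1 + ‖e x‖ ≤ ‖w + 3 * e x‖ := by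
  have h1 : ‖3 * e x‖ ≤ ‖w + 3 * e x‖ + ‖w‖ := by
    calc ‖3 * e x‖ = ‖(w + 3 * e x) - w‖ := by ring_nf
      _ ≤ ‖w + 3 * e x‖ + ‖w‖ := norm_sub_le _ _
  have h2 : ‖3 * e x‖ = 3 * ‖e x‖ := by
    rw [norm_mul]
    simp
  have h3 : 0 ≤ ‖w‖ := norm_nonneg w
  linarith

theorem Kf_summable (w s : ℂ) (hs : 3 / 2 < s.re) : Summable (fun x : O => g s (w + 3 * e x)) := by
  have h1 : Summable (fun x : O => (1 + ‖e x‖) ^ (-(2 * s.re - 1))) := summable_e (by linarith)
  refine h1.of_norm_bounded_eventually ?_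
  rw [Filter.eventually_cofinite]
  refine (finite_norm_le (‖w‖ + 1)).subset ?_
  intro x hx
  simp only [Set.mem_ofPred_eq] at hx ⊢
  by_contra hne
  apply hx
  have h2 := b2_low w x (not_le.mp hne).le
  have h3 : 0 < 1 + ‖e x‖ := by positivity
  have h4 : w + 3 * e x ≠ 0 := by
    rw [← norm_pos_iff]
    linarith
  rw [norm_g s _ h4, show 1 - 2 * s.re = -(2 * s.re - 1) by ring]
  exact Real.rpow_le_rpow_of_nonpos h3 h2 (by linarith)

theorem Kf_per (w s : ℂ) (y : O) : Kf (w + 3 * e y) s = Kf w s := by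
  unfold Kf
  rw [← (Equiv.addLeft y).tsum_eq (fun x => g s (w + 3 * e x))]
  refine tsum_congr fun x => ?_
  rw [Equiv.coe_addLeft, map_add]
  congr 1
  ring

theorem b2_om3 : om ^ 3 = 1 := by
  have h := om_rel
  have : om ^ 3 - 1 = (om - 1) * (om ^ 2 + om + 1) := by ring
  rw [h, mul_zero] at this
  exact sub_eq_zero.mp this

/-- multiplication by `om` -/
noncomputable def b2_eq : O ≃ O where
  toFun x := om * x
  invFun x := om ^ 2 * x
  left_inv x := by
    show om ^ 2 * (om * x) = x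
    rw [← mul_assoc, ← pow_succ, b2_om3, one_mul]
  right_inv x := by
    show om * (om ^ 2 * x) = x
    rw [← mul_assoc, ← pow_succ', b2_om3, one_mul]

theorem b2_g_om (s : ℂ) : g s (e om) = (starRingEnd ℂ) (e om) := by
  unfold g
  rw [norm_e_om]
  simp

theorem Kf_om (w s : ℂ) : Kf (e om * w) s = (starRingEnd ℂ) (e om) * Kf w s := by
  unfold Kf
  rw [← b2_eq.tsum_eq (fun x => g s (e om * w + 3 * e x)), ← tsum_mul_left]
  refine tsum_congr fun x => ?_
  rw [← b2_g_om s, ← g_mul]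
  congr 1
  show e om * w + 3 * e (om * x) = _
  rw [map_mul]
  ring

theorem G_eq_Kf (w s : ℂ) (hs : 3 / 2 < s.re) : G w s = Kf (1 + w) s + Kf (1 - w) s - 2 * Kf 1 s := by
  unfold G Kf
  rw [((Kf_summable (1 + w) s hs).add (Kf_summable (1 - w) s hs)).tsum_sub
    ((Kf_summable 1 s hs).mul_left 2), (Kf_summable (1 + w) s hs).tsum_add
    (Kf_summable (1 - w) s hs), tsum_mul_left]

theorem Kf_one (s : ℂ) (hs : 3 / 2 < s.re) : Kf 1 s = -(1 / 3) * G (e om - 1) s := by
  rw [G_eq_Kf _ s hs]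
  have h1 : Kf (1 + (e om - 1)) s = (starRingEnd ℂ) (e om) * Kf 1 s := by
    rw [← Kf_om 1 s]
    congr 1
    ring
  have h2 : Kf (1 - (e om - 1)) s = (starRingEnd ℂ) (e om) * ((starRingEnd ℂ) (e om) * Kf 1 s) := by
    rw [← Kf_om 1 s, ← Kf_om _ s, ← Kf_per (e om * (e om * 1)) s 1]
    congr 1
    have := e_om_rel
    rw [map_one]
    linear_combination -this
  have h3 : (starRingEnd ℂ) (e om) ^ 2 + (starRingEnd ℂ) (e om) + 1 = 0 := by
    rw [← map_pow, ← map_add, ← map_one (starRingEnd ℂ), ← map_add, e_om_rel, map_zero]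
  rw [h1, h2]
  linear_combination (1 / 3 : ℂ) * Kf 1 s * h3

theorem G_one (w : ℂ) : G w 1 = R w := by
  unfold G R
  refine tsum_congr fun x => ?_
  rw [g_one, g_one, g_one]

theorem G_per (w s : ℂ) (y : O) (hs : 1 / 2 < s.re) : G (w + 3 * e y) s = G w s := by
  have h1 := G_analytic (w + 3 * e y)
  have h2 := G_analytic w
  have hU : IsPreconnected {s : ℂ | 1 / 2 < s.re} :=
    (convex_halfSpace_re_gt (1 / 2)).isPreconnected
  have h3 : (2 : ℂ) ∈ {s : ℂ | 1 / 2 < s.re} := by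
    simp only [Set.mem_ofPred_eq]
    norm_num
  have h4 : G (w + 3 * e y) =ᶠ[nhds (2 : ℂ)] G w := by
    have h5 : {s : ℂ | 3 / 2 < s.re} ∈ nhds (2 : ℂ) := by
      refine (isOpen_lt continuous_const Complex.continuous_re).mem_nhds ?_
      simp only [Set.mem_ofPred_eq]
      norm_num
    filter_upwards [h5] with z hz
    rw [G_eq_Kf _ z hz, G_eq_Kf _ z hz]
    have e1 : Kf (1 + (w + 3 * e y)) z = Kf (1 + w) z := by
      rw [← Kf_per (1 + w) z y, add_assoc]
    have e2 : Kf (1 - (w + 3 * e y)) z = Kf (1 - w) z := by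
      rw [← Kf_per (1 - w) z (-y), map_neg]
      congr 1
      ring
    rw [e1, e2]
  exact h1.eqOn_of_preconnected_of_eventuallyEq h2 hU h3 h4 hs

theorem R_per (w : ℂ) (y : O) : R (w + 3 * e y) = R w := by
  rw [← G_one, ← G_one]
  exact G_per w 1 y (by norm_num)

theorem R_neg (w : ℂ) : R (-w) = R w := by
  unfold R
  refine tsum_congr fun x => ?_
  rw [sub_neg_eq_add, ← sub_eq_add_neg]
  ring

end H55B
end

-- from Lib.H55B.A1
section

open NumberField IsDedekindDomain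

namespace H55B

/-! Chunk A1: R w (wp 1 - wp w) = wp' 1.
R is analytic on the complement of +-1 + 3O (locally uniform convergence: for |1 + 3 e x| >= 2|w| + 1 the
term is 2 w^2 / ((u + w)(u - w) u), u = 1 + 3 e x, which is O(|w|^2 |u|^(-3))), R_per, R_neg. Let
D(w) = R(w)(wp 1 - wp w). It is lattice periodic. At w = 0: R is analytic, even, R(0) = 0, so R has a zero of
order >= 2 and D extends analytically; value at 0: -R''(0)/2, and R''(0) = 4 sum (1 + 3 e x)^(-3) =
-2 wp'(1) (derivWeierstrassP z = - sum 2/(z - l)^3), so D(0) = wp'(1). At w = 1 (and -1, by evenness): R has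
a simple pole and wp 1 - wp w vanishes: D extends. So D extends to an entire periodic function (each
singularity is a lattice translate of 0, 1, -1), bounded, hence constant
(Differentiable.apply_eq_apply_of_bounded, IsZLattice.isCompact_range_of_periodic as in the Mathlib proof of
relation_eq_zero). -/

theorem A1_mem_iff (c : O) : e c ∈ Lam ↔ (3 : O) ∣ c := by
  constructor
  · rintro ⟨y, hy⟩
    refine ⟨y, e_injective ?_⟩
    rw [hy, map_mul, map_ofNat]
  · rintro ⟨y, hy⟩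
    exact ⟨y, by rw [hy, map_mul, map_ofNat]⟩

theorem A1_not_dvd {a b : ℤ} (h : ¬ (3 ∣ a ∧ 3 ∣ b)) : ¬ (3 : O) ∣ (a : O) + b * om := by
  rintro ⟨y, hy⟩
  obtain ⟨c, d, hcd⟩ := exists_repr y
  apply h
  have h1 : (a : O) + b * om = ((3 * c : ℤ) : O) + ((3 * d : ℤ) : O) * om := by
    rw [hy, hcd]
    push_cast
    ring
  obtain ⟨h2, h3⟩ := repr_unique h1
  exact ⟨⟨c, h2⟩, ⟨d, h3⟩⟩

theorem A1_one_notMem : (1 : ℂ) ∉ Lam := by
  have h : ¬ (3 : O) ∣ ((1 : ℤ) : O) + ((0 : ℤ) : O) * om := A1_not_dvd (by omega)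
  intro h1
  apply h
  rw [← A1_mem_iff]
  simpa using h1

theorem A1_neg_mem {z : ℂ} (h : z ∈ Lam) : -z ∈ Lam := by
  rw [← mem_LL] at h ⊢
  exact neg_mem h

theorem A1_add_mem {z w : ℂ} (h : z ∈ Lam) (h' : w ∈ Lam) : z + w ∈ Lam := by
  rw [← mem_LL] at h h' ⊢
  exact add_mem h h'

theorem A1_zero_mem : (0 : ℂ) ∈ Lam := by
  rw [← mem_LL]
  exact zero_mem _

theorem A1_two_notMem : (2 : ℂ) ∉ Lam := by
  intro h
  apply A1_one_notMem
  have h3 : (3 : ℂ) ∈ Lam := ⟨1, by rw [map_one, mul_one]⟩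
  have := A1_add_mem h3 (A1_neg_mem h)
  have e1 : (3 : ℂ) + -2 = 1 := by norm_num
  rwa [e1] at this

/-- The terms of the sum. -/
noncomputable def A1_tm (l w : ℂ) : ℂ := 2 / (((1 + l) ^ 2 - w ^ 2) * (1 + l))

/-- The sum without one term. -/
noncomputable def A1_Rex (l₀ w : ℂ) : ℂ := ∑' l : LL.lattice, if l.1 = l₀ then 0 else A1_tm l.1 w

theorem A1_bound (r : ℝ) (hr : 0 < r) (w : ℂ) (hw : ‖w‖ < r) (l : ℂ) (h : 2 * r + 2 ≤ ‖l‖) :
    ‖A1_tm l w‖ ≤ 16 * ‖l‖ ^ (-3 : ℝ) := by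
  have hl : 0 < ‖l‖ := by linarith
  have h1 : ‖l‖ / 2 ≤ ‖1 + l‖ := by
    have := norm_sub_norm_le l (-1)
    rw [norm_neg, norm_one] at this
    have e1 : l - -1 = 1 + l := by ring
    rw [e1] at this
    linarith
  have h2 : ‖l‖ / 2 ≤ ‖1 + l - w‖ := by
    have := norm_sub_norm_le l (-1 + w)
    have e1 : l - (-1 + w) = 1 + l - w := by ring
    rw [e1] at this
    have h3 : ‖-1 + w‖ ≤ 1 + ‖w‖ := by
      refine (norm_add_le _ _).trans ?_
      rw [norm_neg, norm_one]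
    linarith
  have h2' : ‖l‖ / 2 ≤ ‖1 + l + w‖ := by
    have := norm_sub_norm_le l (-1 - w)
    have e1 : l - (-1 - w) = 1 + l + w := by ring
    rw [e1] at this
    have h3 : ‖-1 - w‖ ≤ 1 + ‖w‖ := by
      refine (norm_sub_le _ _).trans ?_
      rw [norm_neg, norm_one]
    linarith
  unfold A1_tm
  have e2 : ((1 + l) ^ 2 - w ^ 2) * (1 + l) = (1 + l - w) * (1 + l + w) * (1 + l) := by ring
  rw [e2, norm_div, norm_mul, norm_mul]
  have h4 : (‖l‖ / 2) * (‖l‖ / 2) * (‖l‖ / 2) ≤ ‖1 + l - w‖ * ‖1 + l + w‖ * ‖1 + l‖ := by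
    gcongr
  have h5 : (‖l‖ : ℝ) ^ (-3 : ℝ) = 1 / ‖l‖ ^ 3 := by
    rw [Real.rpow_neg hl.le]
    norm_num
  rw [h5]
  have h6 : 0 < (‖l‖ / 2) * (‖l‖ / 2) * (‖l‖ / 2) := by positivity
  calc ‖(2 : ℂ)‖ / (‖1 + l - w‖ * ‖1 + l + w‖ * ‖1 + l‖)
      ≤ ‖(2 : ℂ)‖ / ((‖l‖ / 2) * (‖l‖ / 2) * (‖l‖ / 2)) := by gcongr
    _ = 16 * (1 / ‖l‖ ^ 3) := by
        rw [Complex.norm_ofNat]
        field_simp
        norm_num

theorem A1_hasSum (l₀ : ℂ) : HasSumLocallyUniformly
    (fun (l : LL.lattice) (w : ℂ) => if l.1 = l₀ then 0 else A1_tm l.1 w) (A1_Rex l₀) := by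
  refine LL.hasSumLocallyUniformly_aux (u := fun _ => (16 * ‖·‖ ^ (-3 : ℝ))) _
    (fun _ _ => (ZLattice.summable_norm_rpow _ _ (by simp; norm_num)).mul_left _) fun r hr =>
    Filter.eventually_atTop.mpr ⟨2 * r + 2, ?_⟩
  rintro _ h s hs l rfl
  split_ifs
  · rw [norm_zero]
    positivity
  · exact A1_bound r hr s hs l h

/-- The domain. -/
def A1_U (l₀ : ℂ) : Set ℂ :=
  {w | w - 1 ∈ ((LL.lattice : Set ℂ) \ {l₀})ᶜ ∧ -w - 1 ∈ ((LL.lattice : Set ℂ) \ {l₀})ᶜ}

theorem A1_U_open (l₀ : ℂ) : IsOpen (A1_U l₀) := by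
  have h1 : IsOpen {w : ℂ | w - 1 ∈ ((LL.lattice : Set ℂ) \ {l₀})ᶜ} :=
    LL.isOpen_compl_lattice_sdiff.preimage (by fun_prop)
  have h2 : IsOpen {w : ℂ | -w - 1 ∈ ((LL.lattice : Set ℂ) \ {l₀})ᶜ} :=
    LL.isOpen_compl_lattice_sdiff.preimage (by fun_prop)
  exact h1.inter h2

theorem A1_ne {l : ℂ} (hl : l ∈ LL.lattice) : 1 + l ≠ 0 := by
  intro h
  apply A1_one_notMem
  have : (1 : ℂ) = -l := by linear_combination h
  rw [this, ← mem_LL]
  exact neg_mem hl

theorem A1_analytic (l₀ : ℂ) : AnalyticOnNhd ℂ (A1_Rex l₀) (A1_U l₀) := by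
  refine DifferentiableOn.analyticOnNhd ?_ (A1_U_open l₀)
  refine (A1_hasSum l₀).hasSumLocallyUniformlyOn.differentiableOn
    (.of_forall fun s => .fun_sum fun i hi => ?_) (A1_U_open l₀)
  split_ifs with hl
  · exact differentiableOn_const 0
  · unfold A1_tm
    refine .div (by fun_prop) (by fun_prop) ?_
    intro w hw
    refine mul_ne_zero ?_ (A1_ne i.2)
    have e1 : (1 + (i : ℂ)) ^ 2 - w ^ 2 = (1 + i - w) * (1 + i + w) := by ring
    rw [e1]
    refine mul_ne_zero ?_ ?_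
    · intro h
      apply hw.1
      have e2 : w - 1 = i := by linear_combination -h
      rw [e2]
      exact ⟨i.2, hl⟩
    · intro h
      apply hw.2
      have e2 : -w - 1 = i := by linear_combination -h
      rw [e2]
      exact ⟨i.2, hl⟩

/-- The lattice as an image of O. -/
noncomputable def A1_equiv : O ≃ LL.lattice :=
  Equiv.ofBijective (fun x => ⟨3 * e x, (mem_LL _).2 ⟨x, rfl⟩⟩) (by
    constructor
    · intro x y h
      have h1 : 3 * e x = 3 * e y := congrArg Subtype.val h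
      exact e_injective (mul_left_cancel₀ three_ne_zero h1)
    · intro l
      obtain ⟨y, hy⟩ := (mem_LL _).1 l.2
      exact ⟨y, Subtype.ext hy.symm⟩)

theorem A1_R_eq {w : ℂ} (h1 : 1 + w ∉ Lam) (h2 : 1 - w ∉ Lam) :
    R w = w ^ 2 * ∑' l : LL.lattice, A1_tm l.1 w := by
  unfold R
  rw [← A1_equiv.tsum_eq, ← tsum_mul_left]
  congr 1
  funext x
  show (1 + w + 3 * e x)⁻¹ + (1 - w + 3 * e x)⁻¹ - 2 * (1 + 3 * e x)⁻¹ =
    w ^ 2 * (2 / (((1 + 3 * e x) ^ 2 - w ^ 2) * (1 + 3 * e x)))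
  have n1 : 1 + w + 3 * e x ≠ 0 := by
    intro h
    apply h1
    exact ⟨-x, by rw [map_neg]; linear_combination h⟩
  have n2 : 1 - w + 3 * e x ≠ 0 := by
    intro h
    apply h2
    exact ⟨-x, by rw [map_neg]; linear_combination h⟩
  have n3 : 1 + 3 * e x ≠ 0 := A1_ne ((mem_LL _).2 ⟨x, rfl⟩)
  have e1 : (1 + 3 * e x) ^ 2 - w ^ 2 = (1 + w + 3 * e x) * (1 - w + 3 * e x) := by ring
  rw [e1]
  field_simp
  ring

theorem A1_R_one {w : ℂ} (h1 : 1 + w ∉ Lam) (h2 : 1 - w ∉ Lam) : R w = w ^ 2 * A1_Rex 1 w := by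
  rw [A1_R_eq h1 h2]
  congr 1
  unfold A1_Rex
  congr 1
  funext l
  rw [if_neg]
  intro h
  apply A1_one_notMem
  rw [← h, ← mem_LL]
  exact l.2

theorem A1_Rex_add (w : ℂ) : ∑' l : LL.lattice, A1_tm l.1 w = A1_Rex 0 w + A1_tm 0 w := by
  classical
  have h0 : (∑' l : LL.lattice, if l = 0 then A1_tm 0 w else 0) = A1_tm 0 w := by
    rw [tsum_ite_eq]
  conv_rhs => rw [← h0]
  unfold A1_Rex
  rw [← Summable.tsum_add]
  · congr 1
    funext l
    by_cases hl : l.1 = 0
    · have hl' : l = 0 := Subtype.ext hl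
      rw [if_pos hl, if_pos hl', zero_add, hl]
    · have hl' : l ≠ 0 := fun h => hl (by rw [h]; rfl)
      rw [if_neg hl, if_neg hl', add_zero]
  · exact ⟨_, (A1_hasSum 0).hasSum⟩
  · exact summable_of_hasFiniteSupport ((Set.finite_singleton (0 : LL.lattice)).subset (by simp))

theorem A1_R_zero {w : ℂ} (h1 : 1 + w ∉ Lam) (h2 : 1 - w ∉ Lam) :
    R w = w ^ 2 * (A1_Rex 0 w + 2 / (1 - w ^ 2)) := by
  rw [A1_R_eq h1 h2, A1_Rex_add]
  congr 2
  unfold A1_tm
  rw [add_zero, one_pow, mul_one]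

theorem A1_Rex_one_zero : A1_Rex 1 0 = -wpd 1 := by
  unfold A1_Rex wpd PeriodPair.derivWeierstrassP
  rw [neg_neg, ← (Equiv.neg LL.lattice).tsum_eq]
  congr 1
  funext l
  have hl : l.1 ∈ LL.lattice := l.2
  rw [if_neg]
  · show A1_tm (-l.1) 0 = 2 / (1 - l.1) ^ 3
    unfold A1_tm
    congr 1
    ring
  · intro h
    apply A1_one_notMem
    have h' : -l.1 = 1 := h
    rw [← h', ← mem_LL]
    exact neg_mem hl

theorem A1_open : IsOpen (Lamᶜ : Set ℂ) := by
  have : (Lamᶜ : Set ℂ) = ((LL.lattice : Set ℂ))ᶜ := by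
    ext z
    rw [Set.mem_compl_iff, Set.mem_compl_iff]
    exact not_congr (mem_LL z).symm
  rw [this]
  exact LL.isClosed_lattice.isOpen_compl

theorem A1_discrete (z₀ : ℂ) : ∀ᶠ z in nhdsWithin z₀ {z₀}ᶜ, z ∉ Lam := by
  have h := LL.compl_lattice_sdiff_singleton_mem_nhds z₀
  rw [eventually_nhdsWithin_iff]
  filter_upwards [h] with z hz hne hz'
  exact hz ⟨(mem_LL z).2 hz', hne⟩

theorem A1_tendsto (f : ℂ → ℂ) (z₀ : ℂ) (hf : ContinuousAt f z₀) (hi : Function.Injective f) :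
    Filter.Tendsto f (nhdsWithin z₀ {z₀}ᶜ) (nhdsWithin (f z₀) {f z₀}ᶜ) := by
  rw [tendsto_nhdsWithin_iff]
  refine ⟨hf.tendsto.mono_left nhdsWithin_le_nhds, ?_⟩
  filter_upwards [self_mem_nhdsWithin] with z hz
  intro h
  exact hz (hi h)

theorem A1_ev (z₀ : ℂ) : ∀ᶠ z in nhdsWithin z₀ {z₀}ᶜ, 1 + z ∉ Lam ∧ 1 - z ∉ Lam := by
  have h1 := (A1_tendsto (fun z => 1 + z) z₀ (by fun_prop) (fun a b h => by
    have : 1 + a = 1 + b := h
    linear_combination this)).eventually (A1_discrete _)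
  have h2 := (A1_tendsto (fun z => 1 - z) z₀ (by fun_prop) (fun a b h => by
    have : 1 - a = 1 - b := h
    linear_combination -this)).eventually (A1_discrete _)
  filter_upwards [h1, h2] with z h3 h4 using ⟨h3, h4⟩

/-- The elliptic function. -/
noncomputable def A1_D (w : ℂ) : ℂ := R w * (wp 1 - wp w)

/-- Removable singularity. -/
def A1_Rem (z₀ : ℂ) : Prop := ∃ a : ℂ → ℂ, AnalyticAt ℂ a z₀ ∧
  ∀ᶠ z in nhdsWithin z₀ {z₀}ᶜ, A1_D z = a z

theorem A1_D_per (z : ℂ) (y : O) : A1_D (z + 3 * e y) = A1_D z := by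
  unfold A1_D
  rw [R_per, wp_per]

theorem A1_D_neg (z : ℂ) : A1_D (-z) = A1_D z := by
  unfold A1_D
  rw [R_neg, wp_neg]

theorem A1_Rem_per {z₀ : ℂ} (h : A1_Rem z₀) (y : O) : A1_Rem (z₀ + 3 * e y) := by
  obtain ⟨a, ha, h⟩ := h
  refine ⟨fun z => a (z - 3 * e y), ?_, ?_⟩
  · have : AnalyticAt ℂ a ((z₀ + 3 * e y) - 3 * e y) := by rw [add_sub_cancel_right]; exact ha
    exact this.comp (f := fun w : ℂ => w - 3 * e y) (by fun_prop)
  · have ht := A1_tendsto (fun z => z - 3 * e y) (z₀ + 3 * e y) (by fun_prop) (fun a b h => by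
      have : a - 3 * e y = b - 3 * e y := h
      linear_combination this)
    simp only [add_sub_cancel_right] at ht
    filter_upwards [ht.eventually h] with z h3
    rw [← h3, ← A1_D_per (z - 3 * e y) y, sub_add_cancel]

theorem A1_Rem_neg {z₀ : ℂ} (h : A1_Rem z₀) : A1_Rem (-z₀) := by
  obtain ⟨a, ha, h⟩ := h
  refine ⟨fun z => a (-z), ?_, ?_⟩
  · have : AnalyticAt ℂ a (-(-z₀)) := by rw [neg_neg]; exact ha
    exact this.comp (f := fun w : ℂ => -w) (by fun_prop)
  · have ht := A1_tendsto (fun z => -z) (-z₀) (by fun_prop) neg_injective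
    simp only [neg_neg] at ht
    filter_upwards [ht.eventually h] with z h3
    rw [← h3, A1_D_neg]

theorem A1_wp_analytic {z : ℂ} (hz : z ∉ Lam) : AnalyticAt ℂ wp z :=
  LL.analyticOnNhd_weierstrassP z (fun h => hz ((mem_LL z).1 h))

theorem A1_U_one {z : ℂ} (h1 : 1 + z ∉ Lam) (h2 : 1 - z ∉ Lam) : z ∈ A1_U 1 := by
  constructor
  · intro h
    apply h2
    have := A1_neg_mem ((mem_LL _).1 h.1)
    have e1 : -(z - 1) = 1 - z := by ring
    rwa [e1] at this
  · intro h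
    apply h1
    have := A1_neg_mem ((mem_LL _).1 h.1)
    have e1 : -(-z - 1) = 1 + z := by ring
    rwa [e1] at this

theorem A1_D_analytic {z : ℂ} (h0 : z ∉ Lam) (h1 : 1 + z ∉ Lam) (h2 : 1 - z ∉ Lam) :
    AnalyticAt ℂ A1_D z := by
  have a1 := A1_analytic 1 z (A1_U_one h1 h2)
  have a2 := A1_wp_analytic h0
  have a3 : AnalyticAt ℂ (fun w => w ^ 2 * A1_Rex 1 w * (wp 1 - wp w)) z := by fun_prop
  refine a3.congr ?_
  have o1 : ∀ᶠ w in nhds z, 1 + w ∉ Lam :=
    (A1_open.preimage (f := fun w : ℂ => 1 + w) (by fun_prop)).mem_nhds h1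
  have o2 : ∀ᶠ w in nhds z, 1 - w ∉ Lam :=
    (A1_open.preimage (f := fun w : ℂ => 1 - w) (by fun_prop)).mem_nhds h2
  filter_upwards [o1, o2] with w h3 h4
  unfold A1_D
  rw [A1_R_one h3 h4]

theorem A1_at_zero : ∃ a : ℂ → ℂ, AnalyticAt ℂ a 0 ∧ a 0 = wpd 1 ∧
    ∀ᶠ z in nhdsWithin (0 : ℂ) {0}ᶜ, A1_D z = a z := by
  obtain ⟨u, hu, hu0, hexp⟩ := wp_expansion
  have hU : (0 : ℂ) ∈ A1_U 1 := by
    apply A1_U_one
    · rw [add_zero]; exact A1_one_notMem
    · rw [sub_zero]; exact A1_one_notMem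
  have a1 := A1_analytic 1 0 hU
  refine ⟨fun w => A1_Rex 1 w * (w ^ 2 * wp 1 - 1 - w ^ 6 * u w), by fun_prop, ?_, ?_⟩
  · simp only
    rw [A1_Rex_one_zero]
    ring
  · filter_upwards [hexp, A1_ev 0, self_mem_nhdsWithin] with w h1 h2 hw
    have hw' : w ≠ 0 := hw
    unfold A1_D
    rw [A1_R_one h2.1 h2.2, h1]
    field_simp
    ring

theorem A1_at_one : A1_Rem 1 := by
  have hU : (1 : ℂ) ∈ A1_U 0 := by
    constructor
    · intro h
      apply h.2
      rw [sub_self]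
      rfl
    · intro h
      apply A1_two_notMem
      have := A1_neg_mem ((mem_LL _).1 h.1)
      have e1 : -(-(1 : ℂ) - 1) = 2 := by norm_num
      rwa [e1] at this
  have a1 := A1_analytic 0 1 hU
  have a2 := A1_wp_analytic A1_one_notMem
  have a3 : AnalyticAt ℂ (dslope wp 1) 1 := by
    obtain ⟨p, hp⟩ := a2
    exact ⟨_, hp.has_fpower_series_dslope_fslope⟩
  have a4 : AnalyticAt ℂ (fun w : ℂ => 2 * w ^ 2 / (1 + w)) 1 :=
    AnalyticAt.div (by fun_prop) (by fun_prop) (by norm_num)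
  obtain ⟨q, hq⟩ : ∃ q : ℂ → ℂ, q = fun w : ℂ => 2 * w ^ 2 / (1 + w) := ⟨_, rfl⟩
  rw [← hq] at a4
  refine ⟨fun w => w ^ 2 * A1_Rex 0 w * (wp 1 - wp w) + q w * dslope wp 1 w, by fun_prop, ?_⟩
  filter_upwards [A1_ev 1, self_mem_nhdsWithin] with w h2 hw
  have hw' : w ≠ 1 := hw
  have hw1 : 1 - w ≠ 0 := sub_ne_zero.2 hw'.symm
  have hw1' : w - 1 ≠ 0 := sub_ne_zero.2 hw'
  have hw2 : 1 + w ≠ 0 := by
    intro h
    apply h2.1
    rw [h]
    exact A1_zero_mem
  unfold A1_D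
  rw [A1_R_zero h2.1 h2.2, hq, dslope_of_ne _ hw', slope_def_field]
  have e1 : 1 - w ^ 2 = (1 - w) * (1 + w) := by ring
  rw [e1]
  field_simp
  ring

theorem A1_all (z₀ : ℂ) : A1_Rem z₀ := by
  by_cases c0 : z₀ ∈ Lam
  · obtain ⟨y, hy⟩ := c0
    obtain ⟨a, ha, -, h⟩ := A1_at_zero
    have h0 : A1_Rem 0 := ⟨a, ha, h⟩
    have := A1_Rem_per h0 y
    rwa [zero_add, ← hy] at this
  · by_cases c1 : 1 + z₀ ∈ Lam
    · obtain ⟨y, hy⟩ := c1
      have h1 := A1_Rem_per (A1_Rem_neg A1_at_one) y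
      have e1 : -1 + 3 * e y = z₀ := by linear_combination -hy
      rwa [e1] at h1
    · by_cases c2 : 1 - z₀ ∈ Lam
      · obtain ⟨y, hy⟩ := c2
        have h1 := A1_Rem_per A1_at_one (-y)
        have e1 : 1 + 3 * e (-y) = z₀ := by rw [map_neg]; linear_combination hy
        rwa [e1] at h1
      · exact ⟨A1_D, A1_D_analytic c0 c1 c2, Filter.Eventually.of_forall fun z => rfl⟩

theorem R_identity (w : ℂ) (h0 : w ∉ Lam) (h1 : 1 + w ∉ Lam) (h2 : 1 - w ∉ Lam) :
    R w * (wp 1 - wp w) = wpd 1 := by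
  obtain ⟨c, hc⟩ := A0_liouville A1_D A1_D_per A1_all
  obtain ⟨a, ha, ha0, h⟩ := A1_at_zero
  have e1 := hc 0 a ha.continuousAt h
  have e2 : A1_D w = c := hc w A1_D (A1_D_analytic h0 h1 h2).continuousAt
    (Filter.Eventually.of_forall fun z => rfl)
  show A1_D w = wpd 1
  rw [e2, ← e1, ha0]

/-- R has a pole at 1: it is unbounded near 1 (used to see wp' 1 <> 0). -/
theorem R_unbounded : ∀ M : ℝ, ∃ w : ℂ, w ∉ Lam ∧ 1 + w ∉ Lam ∧ 1 - w ∉ Lam ∧ M < ‖R w‖ := by
  intro M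
  by_contra hcon
  push Not at hcon
  have hU : (1 : ℂ) ∈ A1_U 0 := by
    constructor
    · intro h
      apply h.2
      rw [sub_self]
      rfl
    · intro h
      apply A1_two_notMem
      have := A1_neg_mem ((mem_LL _).1 h.1)
      have e1 : -(-(1 : ℂ) - 1) = 2 := by norm_num
      rwa [e1] at this
  have a1 := (A1_analytic 0 1 hU).continuousAt
  have c1 : ContinuousAt (fun w : ℂ => w ^ 2 * ((1 - w ^ 2) * A1_Rex 0 w + 2)) 1 := by fun_prop
  have t1 : Filter.Tendsto (fun w : ℂ => w ^ 2 * ((1 - w ^ 2) * A1_Rex 0 w + 2))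
      (nhdsWithin (1 : ℂ) {1}ᶜ) (nhds 2) := by
    have := c1.tendsto
    norm_num at this
    exact this.mono_left nhdsWithin_le_nhds
  have c2 : ContinuousAt (fun w : ℂ => ‖1 - w ^ 2‖ * M) 1 := by fun_prop
  have t2 : Filter.Tendsto (fun w : ℂ => ‖1 - w ^ 2‖ * M)
      (nhdsWithin (1 : ℂ) {1}ᶜ) (nhds 0) := by
    have := c2.tendsto
    norm_num at this
    exact this.mono_left nhdsWithin_le_nhds
  have hev : ∀ᶠ w in nhdsWithin (1 : ℂ) {1}ᶜ,
      ‖w ^ 2 * ((1 - w ^ 2) * A1_Rex 0 w + 2)‖ ≤ ‖1 - w ^ 2‖ * M := by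
    filter_upwards [A1_ev 1, A1_discrete 1, self_mem_nhdsWithin] with w h2 h3 hw
    have hw' : w ≠ 1 := hw
    have hw1 : 1 - w ≠ 0 := sub_ne_zero.2 hw'.symm
    have hw2 : 1 + w ≠ 0 := by
      intro h
      apply h2.1
      rw [h]
      exact A1_zero_mem
    have hw3 : 1 - w ^ 2 ≠ 0 := by
      have e1 : 1 - w ^ 2 = (1 - w) * (1 + w) := by ring
      rw [e1]
      exact mul_ne_zero hw1 hw2
    have h4 := hcon w h3 h2.1 h2.2
    have e2 : w ^ 2 * ((1 - w ^ 2) * A1_Rex 0 w + 2) = (1 - w ^ 2) * R w := by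
      rw [A1_R_zero h2.1 h2.2]
      field_simp
    rw [e2, norm_mul]
    gcongr
  have hle := le_of_tendsto_of_tendsto t1.norm t2 hev
  rw [Complex.norm_ofNat] at hle
  norm_num at hle

end H55B
end
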