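import Mathlib
import Pool.Agent.Lib.H1M.PP2.D_H55C_Defs
import Pool.Agent.Lib.H1M.PP2.M007
import Pool.Agent.Lib.H1M.PP2.M010
import Pool.Agent.Lib.H1M.PP2.M020
import Pool.Agent.Lib.H1M.PP2.M023
import Pool.Agent.Lib.H1M.PP2.M032

/-! Merged copies (to shorten the build) of Lib.H55B.A2, Lib.H55B.A3, Lib.H28G.CDefs, Lib.H55N.E2, Lib.H55N.E5, Lib.H55N.B2, Lib.H55N.HD, Lib.H55N.H13, Lib.H55N.L4, Lib.H55N.H2, Lib.H55N.H15, Lib.H55N.H3, Lib.H55R.DD, Lib.H55R.D10, Lib.H55B.E2, Lib.H55B.E3, Lib.H55B.F4, Lib.H55B.I1, Lib.H55N.B4, Lib.H55N.C4, Lib.H55N.I0, Lib.H55N.C5, Lib.H55N.C6, Lib.H55N.C7. -/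

-- from Lib.H55B.A2
section

open NumberField IsDedekindDomain

namespace H55B

/-! Chunk A2: duplication formula for g_2 = 0.
D(z) = wp(2z)(4 wp(z)^3 - g_3) - wp(z)^4 - 2 g_3 wp(z), lattice periodic, analytic outside (1/2)(3O).
At a half period p not in 3O: 4 wp^3 - g_3 = (wp')^2 and wp' p = 0 (odd and periodic), so (wp')^2 has a zero
of order >= 2 cancelling the double pole of wp(2z) (order_weierstrassP). At 0, with wp z = z^(-2) + z^4 u(z),
D(z) = z^(-2)(-u(z) + 64 u(2z) - g_3/4 - 2 g_3) + O(z^4), and the bracket vanishes at 0 since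
63/28 = 9/4 and it is even (or: differentiable with vanishing derivative, u even), so D is bounded near 0.
So D extends to an entire periodic function, constant c. D(om z) = om D(z) by wp_om (om^4 = om), so c = 0. -/

theorem A2_wp_analytic {z : ℂ} (hz : z ∉ Lam) : AnalyticAt ℂ wp z :=
  LL.analyticOnNhd_weierstrassP z (fun h => hz ((mem_LL z).1 h))

theorem A2_wpd_analytic {z : ℂ} (hz : z ∉ Lam) : AnalyticAt ℂ wpd z :=
  LL.analyticOnNhd_derivWeierstrassP z (fun h => hz ((mem_LL z).1 h))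

theorem A2_dslope {f : ℂ → ℂ} {z₀ : ℂ} (h : AnalyticAt ℂ f z₀) : AnalyticAt ℂ (dslope f z₀) z₀ := by
  obtain ⟨p, hp⟩ := h
  exact ⟨_, hp.has_fpower_series_dslope_fslope⟩

/-- The difference of the two sides of the duplication formula. -/
noncomputable def A2_D (z : ℂ) : ℂ :=
  wp (2 * z) * (4 * wp z ^ 3 - LL.g₃) - wp z ^ 4 - 2 * LL.g₃ * wp z

theorem A2_D_neg (z : ℂ) : A2_D (-z) = A2_D z := by
  unfold A2_D
  rw [mul_neg, wp_neg, wp_neg]

theorem A2_D_per (z : ℂ) (y : O) : A2_D (z + 3 * e y) = A2_D z := by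
  unfold A2_D
  have h : 2 * (z + 3 * e y) = 2 * z + 3 * e (2 * y) := by
    rw [map_mul, map_ofNat]
    ring
  rw [h, wp_per, wp_per]

theorem A2_D_om (z : ℂ) : A2_D (e om * z) = e om * A2_D z := by
  unfold A2_D
  have h : 2 * (e om * z) = e om * (2 * z) := by ring
  rw [h, wp_om, wp_om]
  have hc := A0_om_cube
  linear_combination (wp (2 * z) * (4 * wp z ^ 3) * e om - wp z ^ 4 * e om) * hc

theorem A2_D_analytic {z : ℂ} (h1 : z ∉ Lam) (h2 : 2 * z ∉ Lam) : AnalyticAt ℂ A2_D z := by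
  have a1 := A2_wp_analytic h1
  have a2 : AnalyticAt ℂ (fun w => wp (2 * w)) z :=
    (A2_wp_analytic h2).comp (f := fun w => 2 * w) (by fun_prop)
  unfold A2_D
  fun_prop

theorem A2_at_zero : ∃ a : ℂ → ℂ, AnalyticAt ℂ a 0 ∧
    ∀ᶠ z in nhdsWithin (0 : ℂ) {0}ᶜ, A2_D z = a z := by
  obtain ⟨u, hu, hu0, hexp⟩ := wp_expansion
  set g₃ := LL.g₃ with hg3
  obtain ⟨U, hU⟩ : ∃ U : ℂ → ℂ, U = fun z => u (2 * z) := ⟨_, rfl⟩
  have hu2 : AnalyticAt ℂ U 0 := by
    have : AnalyticAt ℂ u (2 * 0) := by rw [mul_zero]; exact hu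
    rw [hU]
    exact this.comp (f := fun w : ℂ => 2 * w) (by fun_prop)
  set B : ℂ → ℂ := fun z => -u z + 64 * U z - 9 * g₃ / 4 with hB
  have hBa : AnalyticAt ℂ B 0 := by rw [hB]; fun_prop
  have hB0 : B 0 = 0 := by
    rw [hB, hU]
    simp only [mul_zero]
    rw [hu0]
    ring
  set A : ℂ → ℂ := fun z => 3 * z ^ 4 * u z ^ 2 + z ^ 10 * u z ^ 3 +
    16 * z ^ 4 * U z * (12 * u z + 12 * z ^ 6 * u z ^ 2 + 4 * z ^ 12 * u z ^ 3 - g₃) -
    (6 * z ^ 4 * u z ^ 2 + 4 * z ^ 10 * u z ^ 3 + z ^ 16 * u z ^ 4) - 2 * g₃ * z ^ 4 * u z with hA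
  have hAa : AnalyticAt ℂ A 0 := by rw [hA]; fun_prop
  set b : ℂ → ℂ := fun z => dslope B 0 z + z * A z with hb
  have hds := A2_dslope hBa
  have hba : AnalyticAt ℂ b 0 := by fun_prop
  have ht : Filter.Tendsto (fun z : ℂ => 2 * z) (nhdsWithin (0 : ℂ) {0}ᶜ)
      (nhdsWithin (0 : ℂ) {0}ᶜ) := by
    rw [tendsto_nhdsWithin_iff]
    constructor
    · have : ContinuousAt (fun z : ℂ => 2 * z) 0 := by fun_prop
      have h := this.tendsto
      simp only [mul_zero] at h
      exact h.mono_left nhdsWithin_le_nhds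
    · filter_upwards [self_mem_nhdsWithin] with z hz
      have hz' : z ≠ 0 := hz
      show 2 * z ≠ 0
      exact mul_ne_zero two_ne_zero hz'
  have hexp2 := ht.eventually hexp
  have hDb : ∀ᶠ z in nhdsWithin (0 : ℂ) {0}ᶜ, b z = z * A2_D z := by
    filter_upwards [hexp, hexp2, self_mem_nhdsWithin] with z h1 h2 hz
    have hz' : z ≠ 0 := hz
    rw [hb]
    simp only
    rw [dslope_of_ne _ hz', slope_def_field, hB0]
    unfold A2_D
    rw [h1, h2, hB, hA, hU, ← hg3]
    simp only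
    field_simp
    ring
  have hneg : Filter.Tendsto (fun z : ℂ => -z) (nhdsWithin (0 : ℂ) {0}ᶜ)
      (nhdsWithin (0 : ℂ) {0}ᶜ) := by
    rw [tendsto_nhdsWithin_iff]
    constructor
    · have : ContinuousAt (fun z : ℂ => -z) 0 := by fun_prop
      have h := this.tendsto
      simp only [neg_zero] at h
      exact h.mono_left nhdsWithin_le_nhds
    · filter_upwards [self_mem_nhdsWithin] with z hz
      have hz' : z ≠ 0 := hz
      show -z ≠ 0
      exact neg_ne_zero.2 hz'
  have hb0 : b 0 = 0 := by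
    have h1 : Filter.Tendsto b (nhdsWithin (0 : ℂ) {0}ᶜ) (nhds (b 0)) :=
      hba.continuousAt.tendsto.mono_left nhdsWithin_le_nhds
    have h2 : Filter.Tendsto (fun z => b z + b (-z)) (nhdsWithin (0 : ℂ) {0}ᶜ)
        (nhds (b 0 + b 0)) := h1.add (h1.comp hneg)
    have h3 : Filter.Tendsto (fun z => b z + b (-z)) (nhdsWithin (0 : ℂ) {0}ᶜ) (nhds 0) := by
      refine tendsto_const_nhds.congr' ?_
      filter_upwards [hDb, hneg.eventually hDb] with z h4 h5
      rw [h4, h5, A2_D_neg]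
      ring
    have h6 := tendsto_nhds_unique h2 h3
    have h7 : 2 * b 0 = 0 := by linear_combination h6
    rcases mul_eq_zero.1 h7 with h | h
    · norm_num at h
    · exact h
  refine ⟨dslope b 0, A2_dslope hba, ?_⟩
  filter_upwards [hDb, self_mem_nhdsWithin] with z h1 hz
  have hz' : z ≠ 0 := hz
  rw [dslope_of_ne _ hz', slope_def_field, hb0, h1, sub_zero, sub_zero, mul_div_cancel_left₀ _ hz']

theorem A2_Lam_discrete (z₀ : ℂ) : ∀ᶠ z in nhdsWithin z₀ {z₀}ᶜ, z ∉ Lam := by
  have h := LL.compl_lattice_sdiff_singleton_mem_nhds z₀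
  rw [eventually_nhdsWithin_iff]
  filter_upwards [h] with z hz hne hz'
  exact hz ⟨(mem_LL z).2 hz', hne⟩

theorem A2_at_half {z₀ : ℂ} (h1 : z₀ ∉ Lam) (h2 : 2 * z₀ ∈ Lam) : ∃ a : ℂ → ℂ, AnalyticAt ℂ a z₀ ∧
    ∀ᶠ z in nhdsWithin z₀ {z₀}ᶜ, A2_D z = a z := by
  obtain ⟨u, hu, hu0, hexp⟩ := wp_expansion
  obtain ⟨y, hy⟩ := h2
  have hwa := A2_wp_analytic h1
  have hda := A2_wpd_analytic h1
  have hd0 : wpd z₀ = 0 := by
    have h3 := A0_wpd_per (-z₀) y
    rw [← hy, A0_wpd_neg] at h3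
    have h4 : -z₀ + 2 * z₀ = z₀ := by ring
    rw [h4] at h3
    have h7 : 2 * wpd z₀ = 0 := by linear_combination h3
    rcases mul_eq_zero.1 h7 with h | h
    · norm_num at h
    · exact h
  have hds := A2_dslope hda
  obtain ⟨U, hU⟩ : ∃ U : ℂ → ℂ, U = fun z => u (2 * (z - z₀)) := ⟨_, rfl⟩
  have hu2 : AnalyticAt ℂ U z₀ := by
    have : AnalyticAt ℂ u (2 * (z₀ - z₀)) := by rw [sub_self, mul_zero]; exact hu
    rw [hU]
    exact this.comp (f := fun w : ℂ => 2 * (w - z₀)) (by fun_prop)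
  have ht : Filter.Tendsto (fun z : ℂ => 2 * (z - z₀)) (nhdsWithin z₀ {z₀}ᶜ)
      (nhdsWithin (0 : ℂ) {0}ᶜ) := by
    rw [tendsto_nhdsWithin_iff]
    constructor
    · have : ContinuousAt (fun z : ℂ => 2 * (z - z₀)) z₀ := by fun_prop
      have h := this.tendsto
      simp only [sub_self, mul_zero] at h
      exact h.mono_left nhdsWithin_le_nhds
    · filter_upwards [self_mem_nhdsWithin] with z hz
      have hz' : z ≠ z₀ := hz
      show 2 * (z - z₀) ≠ 0
      exact mul_ne_zero two_ne_zero (sub_ne_zero.2 hz')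
  refine ⟨fun z => dslope wpd z₀ z ^ 2 / 4 +
    16 * (z - z₀) ^ 6 * U z * dslope wpd z₀ z ^ 2 - wp z ^ 4 - 2 * LL.g₃ * wp z, ?_, ?_⟩
  · fun_prop
  · filter_upwards [ht.eventually hexp, self_mem_nhdsWithin, A2_Lam_discrete z₀] with z h3 hz hL
    have hz' : z ≠ z₀ := hz
    have hzz : z - z₀ ≠ 0 := sub_ne_zero.2 hz'
    have h4 : wp (2 * z) = wp (2 * (z - z₀)) := by
      have := wp_per (2 * (z - z₀)) y
      rw [← hy] at this
      rw [← this]
      congr 1
      ring
    have h5 : 4 * wp z ^ 3 - LL.g₃ = ((z - z₀) * dslope wpd z₀ z) ^ 2 := by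
      rw [← wp_ode z hL]
      congr 1
      rw [dslope_of_ne _ hz', slope_def_field, hd0, sub_zero]
      field_simp
    unfold A2_D
    rw [h5, h4, h3, hU]
    field_simp
    ring

theorem wp_double (z : ℂ) (h1 : z ∉ Lam) (h2 : 2 * z ∉ Lam) :
    wp (2 * z) * (4 * wp z ^ 3 - LL.g₃) = wp z ^ 4 + 2 * LL.g₃ * wp z := by
  have hall : ∀ z₀, ∃ a : ℂ → ℂ, AnalyticAt ℂ a z₀ ∧
      ∀ᶠ z in nhdsWithin z₀ {z₀}ᶜ, A2_D z = a z := by
    intro z₀
    by_cases c1 : z₀ ∈ Lam
    · obtain ⟨y, hy⟩ := c1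
      obtain ⟨a, ha, h⟩ := A2_at_zero
      have ht : Filter.Tendsto (fun z : ℂ => z - z₀) (nhdsWithin z₀ {z₀}ᶜ)
          (nhdsWithin (0 : ℂ) {0}ᶜ) := by
        rw [tendsto_nhdsWithin_iff]
        constructor
        · have : ContinuousAt (fun z : ℂ => z - z₀) z₀ := by fun_prop
          have h := this.tendsto
          simp only [sub_self] at h
          exact h.mono_left nhdsWithin_le_nhds
        · filter_upwards [self_mem_nhdsWithin] with z hz
          have hz' : z ≠ z₀ := hz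
          show z - z₀ ≠ 0
          exact sub_ne_zero.2 hz'
      refine ⟨fun z => a (z - z₀), ?_, ?_⟩
      · have : AnalyticAt ℂ a (z₀ - z₀) := by rw [sub_self]; exact ha
        exact this.comp (f := fun w : ℂ => w - z₀) (by fun_prop)
      · filter_upwards [ht.eventually h] with z h3
        rw [← h3, ← A2_D_per (z - z₀) y, ← hy, sub_add_cancel]
    · by_cases c2 : 2 * z₀ ∈ Lam
      · exact A2_at_half c1 c2
      · exact ⟨A2_D, A2_D_analytic c1 c2, Filter.Eventually.of_forall fun z => rfl⟩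
  obtain ⟨c, hc⟩ := A0_liouville A2_D A2_D_per hall
  have e1 : A2_D z = c := hc z A2_D (A2_D_analytic h1 h2).continuousAt
    (Filter.Eventually.of_forall fun z => rfl)
  have hom : ∀ w, w ∉ Lam → e om * w ∉ Lam := by
    intro w hw h
    apply hw
    rw [← mem_LL] at h ⊢
    have h3 := A0_mem_om (A0_mem_om h)
    have h4 : e om * (e om * (e om * w)) = w := by
      have := A0_om_cube
      linear_combination w * this
    rwa [h4] at h3
  have e2 : A2_D (e om * z) = c := by
    apply hc (e om * z) A2_D ?_ (Filter.Eventually.of_forall fun z => rfl)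
    apply AnalyticAt.continuousAt (𝕜 := ℂ)
    apply A2_D_analytic (hom z h1)
    have : 2 * (e om * z) = e om * (2 * z) := by ring
    rw [this]
    exact hom _ h2
  rw [A2_D_om] at e2
  have h5 : (e om - 1) * A2_D z = 0 := by linear_combination e2 - e1
  have h6 : A2_D z = 0 := by
    rcases mul_eq_zero.1 h5 with h | h
    · exact absurd (sub_eq_zero.1 h) A0_om_ne_one
    · exact h
  unfold A2_D at h6
  linear_combination h6

end H55B
end

-- from Lib.H55B.A3
section

open NumberField IsDedekindDomain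

namespace H55B

/-! Chunk A3: the function X = 3 wp(w)/wp(1).
wp' 1 <> 0: otherwise D = 0 in R_identity, R = 0 wherever wp w <> wp 1; with R_unbounded and R_identity:
R w (wp 1 - wp w) = 0 and R w large forces wp w = wp 1; use instead wp' (1)^2 = 4 wp(1)^3 - g_3 and:
if wp'(1) = 0 then wp(1)^3 = g_3/4, and wp_double at z = 1 (2 = -1 + 3, wp 2 = wp 1) gives
0 = wp(1)^4 + 2 g_3 wp(1) = 9 wp(1)^4, so wp(1) = 0 and g_3 = 0, then wp'^2 = 4 wp^3 everywhere and at
e om - 1 ... simplest: R_identity at w = e om - 1 (1 + w = e om, 1 - w = 2 - e om are not in 3O) reads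
R(e om - 1) wp 1 = wp' 1 because wp (e om - 1) = 0. If wp 1 = 0 then wp' 1 = 0, and then
R w wp w = 0 for all w, so R w = 0 or wp w = 0 for all regular w; at a point near 1 with R w large,
wp w = 0 for all w in a punctured neighbourhood of 1 where R does not vanish, contradiction with
wp nonconstant (identity theorem, pole at 0). Now wp_double at 1: x (4 x^3 - g_3) = x^4 + 2 g_3 x with
x = wp 1 <> 0 gives x^3 = g_3, wp'(1)^2 = 3 x^3 <> 0. X_double is then wp_double divided by x^4/81,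
R w = wp'(1)/(wp 1 - wp w) = R0 * 3/(3 - X w) with R0 = R(e om - 1) = wp'(1)/wp(1). -/

theorem A3_n1 : e om - 1 ∉ Lam := by
  have h : ¬ (3 : O) ∣ ((-1 : ℤ) : O) + ((1 : ℤ) : O) * om := A1_not_dvd (by omega)
  intro h1
  apply h
  rw [← A1_mem_iff]
  have : e (((-1 : ℤ) : O) + ((1 : ℤ) : O) * om) = e om - 1 := by
    rw [map_add, map_mul, map_intCast, map_intCast]
    push_cast
    ring
  rwa [this]

theorem A3_n2 : 1 + (e om - 1) ∉ Lam := by
  have h : ¬ (3 : O) ∣ ((0 : ℤ) : O) + ((1 : ℤ) : O) * om := A1_not_dvd (by omega)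
  intro h1
  apply h
  rw [← A1_mem_iff]
  have : e (((0 : ℤ) : O) + ((1 : ℤ) : O) * om) = 1 + (e om - 1) := by
    rw [map_add, map_mul, map_intCast, map_intCast]
    push_cast
    ring
  rwa [this]

theorem A3_n3 : 1 - (e om - 1) ∉ Lam := by
  have h : ¬ (3 : O) ∣ ((2 : ℤ) : O) + ((-1 : ℤ) : O) * om := A1_not_dvd (by omega)
  intro h1
  apply h
  rw [← A1_mem_iff]
  have : e (((2 : ℤ) : O) + ((-1 : ℤ) : O) * om) = 1 - (e om - 1) := by
    rw [map_add, map_mul, map_intCast, map_intCast]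
    push_cast
    ring
  rwa [this]

theorem A3_conn : IsPreconnected (Lamᶜ : Set ℂ) := by
  have hc : (Lam : Set ℂ).Countable := by
    have : (Lam : Set ℂ) = Set.range (fun l : LL.lattice => (l : ℂ)) := by
      ext z
      rw [← mem_LL]
      simp
    rw [this]
    exact Set.countable_range _
  have h := Set.Countable.isConnected_compl_of_one_lt_rank (E := ℂ) (by simp) hc
  exact h.isPreconnected

theorem A3_wp_ne : ∃ z, z ∉ Lam ∧ wp z ≠ 0 := by
  obtain ⟨u, hu, hu0, hexp⟩ := wp_expansion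
  have c1 : ContinuousAt (fun z : ℂ => 1 + z ^ 6 * u z) 0 := by
    have := hu.continuousAt
    fun_prop
  have h1 : (fun z : ℂ => 1 + z ^ 6 * u z) 0 ≠ 0 := by norm_num
  have h2 : ∀ᶠ z in nhdsWithin (0 : ℂ) {0}ᶜ, 1 + z ^ 6 * u z ≠ 0 :=
    (c1.eventually_ne h1).filter_mono nhdsWithin_le_nhds
  obtain ⟨z, h3, h4, h5, h6⟩ :=
    (hexp.and (h2.and ((A1_discrete 0).and self_mem_nhdsWithin))).exists
  have h6' : z ≠ 0 := h6
  refine ⟨z, h5, ?_⟩
  rw [h3]
  intro h
  apply h4
  have : z ^ 2 * ((z ^ 2)⁻¹ + z ^ 4 * u z) = 1 + z ^ 6 * u z := by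
    field_simp
  rw [← this, h, mul_zero]

theorem A3_wp_one_ne : wp 1 ≠ 0 := by
  intro h0
  have h1 := R_identity (e om - 1) A3_n1 A3_n2 A3_n3
  rw [wp_zero_at, h0, sub_zero, mul_zero] at h1
  obtain ⟨w, hw0, hw1, hw2, hw⟩ := R_unbounded 0
  have hR : R w ≠ 0 := norm_pos_iff.1 hw
  have o1 : ∀ᶠ v in nhds w, 1 + v ∉ Lam :=
    (A1_open.preimage (f := fun w : ℂ => 1 + w) (by fun_prop)).mem_nhds hw1
  have o2 : ∀ᶠ v in nhds w, 1 - v ∉ Lam :=
    (A1_open.preimage (f := fun w : ℂ => 1 - w) (by fun_prop)).mem_nhds hw2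
  have o3 : ∀ᶠ v in nhds w, v ∉ Lam := A1_open.mem_nhds hw0
  have a1 := A1_analytic 1 w (A1_U_one hw1 hw2)
  have a2 : ContinuousAt (fun v => v ^ 2 * A1_Rex 1 v) w := by
    have := a1.continuousAt
    fun_prop
  have a3 : (fun v => v ^ 2 * A1_Rex 1 v) w ≠ 0 := by
    show w ^ 2 * A1_Rex 1 w ≠ 0
    rw [← A1_R_one hw1 hw2]
    exact hR
  have o4 := a2.eventually_ne a3
  have hz : wp =ᶠ[nhds w] 0 := by
    filter_upwards [o1, o2, o3, o4] with v h2 h3 h4 h5
    have h6 := R_identity v h4 h2 h3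
    rw [← h1, h0, zero_sub] at h6
    rw [← A1_R_one h2 h3] at h5
    rcases mul_eq_zero.1 h6 with h | h
    · exact absurd h h5
    · exact neg_eq_zero.1 h
  have hA : AnalyticOnNhd ℂ wp (Lamᶜ : Set ℂ) := fun z hz => A1_wp_analytic hz
  have hall := hA.eqOn_zero_of_preconnected_of_eventuallyEq_zero A3_conn (z₀ := w) hw0 hz
  obtain ⟨z, hz1, hz2⟩ := A3_wp_ne
  exact hz2 (hall hz1)

theorem A3_g3 : LL.g₃ = wp 1 ^ 3 := by
  have h1 := wp_double 1 A1_one_notMem (by rw [mul_one]; exact A1_two_notMem)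
  have h2 : wp (2 * 1) = wp 1 := by
    have := wp_per (-1) 1
    rw [map_one, wp_neg] at this
    rw [← this]
    congr 1
    norm_num
  rw [h2] at h1
  have h3 := A3_wp_one_ne
  have h4 : 3 * wp 1 * (wp 1 ^ 3 - LL.g₃) = 0 := by linear_combination h1
  rcases mul_eq_zero.1 h4 with h | h
  · exact absurd h (mul_ne_zero three_ne_zero h3)
  · linear_combination -h



end H55B
end

-- from Lib.H28G.CDefs
section

/-! # H28G: the complex uniformisation (definitions)

The lattice is Lam = 3 O (H55B), wp, wpd its Weierstrass functions, wpd^2 = 4 wp^3 - (wp 1)^3. With kap^2 = - wp 1: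
xz = wp / kap^2, fz = wpd / kap^3, yz = (fz - 1)/2 satisfy yz^2 + yz = xz^3, and Phi z = (xz z, yz z). The sign of kap is chosen
such that Phi 1 = (-1, om). -/

open NumberField IsDedekindDomain WeierstrassCurve

namespace H28G

open H55B

/-- The complex numbers as an algebra over F. -/
noncomputable instance algC : Algebra F ℂ := emb.toAlgebra


theorem ok_C : ok ℂ = e om := rfl

theorem exists_kap : ∃ κ : ℂ, κ ^ 2 = -wp 1 ∧ wpd 1 = κ ^ 3 * (2 * e om + 1) := by
  obtain ⟨κ, hκ⟩ := IsAlgClosed.exists_pow_nat_eq (-wp 1) (n := 2) (by norm_num)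
  have h1 : (wpd 1) ^ 2 = (κ ^ 3 * (2 * e om + 1)) ^ 2 := by
    rw [wp_ode 1 A1_one_notMem, A3_g3]
    have h2 : κ ^ 6 = -(wp 1) ^ 3 := by
      have : κ ^ 6 = (κ ^ 2) ^ 3 := by ring
      rw [this, hκ]
      ring
    have h3 : (2 * e om + 1) ^ 2 = -3 := by linear_combination 4 * e_om_rel
    have h4 : (κ ^ 3 * (2 * e om + 1)) ^ 2 = κ ^ 6 * (2 * e om + 1) ^ 2 := by ring
    rw [h4, h2, h3]
    ring
  rcases sq_eq_sq_iff_eq_or_eq_neg.1 h1 with h | h
  · exact ⟨κ, hκ, h⟩
  · refine ⟨-κ, by rw [neg_sq, hκ], ?_⟩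
    rw [h]
    ring

/-- The scaling factor. -/
noncomputable def kap : ℂ := exists_kap.choose

theorem kap_sq : kap ^ 2 = -wp 1 := exists_kap.choose_spec.1


theorem kap_ne : kap ≠ 0 := by
  intro h
  have h1 := kap_sq
  rw [h] at h1
  exact A3_wp_one_ne (by linear_combination h1)

theorem kap_six : kap ^ 6 = -LL.g₃ := by
  rw [A3_g3]
  have : kap ^ 6 = (kap ^ 2) ^ 3 := by ring
  rw [this, kap_sq]
  ring

/-- The x-coordinate as a function of z. -/
noncomputable def xz (z : ℂ) : ℂ := wp z / kap ^ 2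

/-- The function f as a function of z. -/
noncomputable def fz (z : ℂ) : ℂ := wpd z / kap ^ 3

/-- The y-coordinate as a function of z. -/
noncomputable def yz (z : ℂ) : ℂ := (fz z - 1) / 2

theorem fz_eq (z : ℂ) : fz z = 2 * yz z + 1 := by
  unfold yz
  ring

theorem fz_sq {z : ℂ} (hz : z ∉ Lam) : fz z ^ 2 = 4 * xz z ^ 3 + 1 := by
  have h := wp_ode z hz
  have hk := kap_ne
  unfold fz xz
  rw [div_pow, div_pow, ← pow_mul, ← pow_mul, h]
  have h6 := kap_six
  field_simp
  linear_combination -h6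

theorem yz_eqn {z : ℂ} (hz : z ∉ Lam) : yz z ^ 2 + yz z = xz z ^ 3 := by
  have h := fz_sq hz
  rw [fz_eq] at h
  linear_combination h / 4

open Classical in
/-- The uniformisation. -/
noncomputable def Phi (z : ℂ) : P27 ℂ := if h : z ∈ Lam then 0 else pt (xz z) (yz z) (yz_eqn h)

theorem Phi_of_mem {z : ℂ} (h : z ∈ Lam) : Phi z = 0 := dif_pos h

theorem Phi_of {z : ℂ} (h : z ∉ Lam) : Phi z = pt (xz z) (yz z) (yz_eqn h) := dif_neg h

theorem Phi_eq_zero {z : ℂ} : Phi z = 0 ↔ z ∈ Lam := by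
  constructor
  · intro h
    by_contra h1
    rw [Phi_of h1] at h
    exact pt_ne _ _ _ h
  · exact Phi_of_mem

theorem xc_Phi {z : ℂ} (h : z ∉ Lam) : xc (Phi z) = xz z := by
  rw [Phi_of h]
  rfl

theorem yc_Phi {z : ℂ} (h : z ∉ Lam) : yc (Phi z) = yz z := by
  rw [Phi_of h]
  rfl


theorem xz_per (z : ℂ) (y : O) : xz (z + 3 * e y) = xz z := by
  unfold xz
  rw [wp_per]

theorem fz_per (z : ℂ) (y : O) : fz (z + 3 * e y) = fz z := by
  unfold fz
  rw [A0_wpd_per]

theorem yz_per (z : ℂ) (y : O) : yz (z + 3 * e y) = yz z := by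
  unfold yz
  rw [fz_per]

theorem Lam_per {z : ℂ} (y : O) : z + 3 * e y ∈ Lam ↔ z ∈ Lam := by
  have h3 : 3 * e y ∈ Lam := ⟨y, rfl⟩
  constructor
  · intro h
    have := A1_add_mem h (A1_neg_mem h3)
    rwa [add_neg_cancel_right] at this
  · exact fun h => A1_add_mem h h3

theorem Phi_per (z : ℂ) (y : O) : Phi (z + 3 * e y) = Phi z := by
  by_cases h : z ∈ Lam
  · rw [Phi_of_mem h, Phi_of_mem ((Lam_per y).2 h)]
  · have h' : z + 3 * e y ∉ Lam := fun h1 => h ((Lam_per y).1 h1)
    rw [Phi_of h, Phi_of h']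
    exact pt_ext (pt_ne _ _ _) (pt_ne _ _ _) (xz_per z y) (yz_per z y)

theorem neg_mem_iff {z : ℂ} : -z ∈ Lam ↔ z ∈ Lam := by
  constructor
  · intro h
    have := A1_neg_mem h
    rwa [neg_neg] at this
  · exact A1_neg_mem

theorem Phi_neg (z : ℂ) : Phi (-z) = -Phi z := by
  by_cases h : z ∈ Lam
  · rw [Phi_of_mem h, Phi_of_mem (neg_mem_iff.2 h)]
    rfl
  · have h' : -z ∉ Lam := fun h1 => h (neg_mem_iff.1 h1)
    have hne : Phi z ≠ 0 := fun h0 => h (Phi_eq_zero.1 h0)
    refine pt_ext (fun h0 => h' (Phi_eq_zero.1 h0)) (neg_ne hne) ?_ ?_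
    · rw [xc_neg, xc_Phi h, xc_Phi h']
      unfold xz
      rw [wp_neg]
    · rw [yc_neg hne, yc_Phi h, yc_Phi h']
      unfold yz fz
      rw [A0_wpd_neg]
      ring

theorem om_mem_iff {z : ℂ} : e om * z ∈ Lam ↔ z ∈ Lam := by
  constructor
  · intro h
    rw [← mem_LL] at h ⊢
    have := A0_mem_om (A0_mem_om h)
    have h1 : e om * (e om * (e om * z)) = z := by linear_combination z * A0_om_cube
    rwa [h1] at this
  · intro h
    rw [← mem_LL] at h ⊢
    exact A0_mem_om h

theorem Phi_om (z : ℂ) : Phi (e om * z) = omP (Phi z) := by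
  by_cases h : z ∈ Lam
  · rw [Phi_of_mem h, Phi_of_mem (om_mem_iff.2 h), map_zero]
  · have h' : e om * z ∉ Lam := fun h1 => h (om_mem_iff.1 h1)
    have hne : Phi z ≠ 0 := fun h0 => h (Phi_eq_zero.1 h0)
    refine pt_ext (fun h0 => h' (Phi_eq_zero.1 h0)) (omF_ne hne) ?_ ?_
    · rw [xc_omP, xc_Phi h, xc_Phi h', ok_C]
      unfold xz
      rw [wp_om]
      ring
    · rw [yc_omP, yc_Phi h, yc_Phi h']
      unfold yz fz
      rw [A0_wpd_om]



end H28G
end

-- from Lib.H55N.E2
section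

open NumberField IsDedekindDomain

namespace H55N

open H55B

/-! Chunk E2 (M). The derivative of the duplication formula. x = wp z, y = wpd z, g = LL.g₃ = (wp 1)^3 <> 0 (A3_g3, A3_wp_one_ne), y^2 = 4x^3 - g (wp_ode), wpd' = 6 wp^2.
y <> 0: wp(2z) (4x^3-g) = x^4 + 2 g x (wp_double); if 4x^3 = g then 9 x^4 = 0, x = 0, g = 0. Near z: wp(2z) y^2 = x^4 + 2 g x holds identically; differentiate
(HasDerivAt wp (wpd z) z from Mathlib; wpd has derivative 6 wp^2: differentiate wpd^2 = 4wp^3 - g and divide by 2 wpd): 2 wpd(2z) y^2 + wp(2z) 12 x^2 y = (4x^3+2g) y. With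
X2 = wp(2z) = (x^4+2gx)/y^2 and g = 4x^3 - y^2 one gets wpd(2z) = -y + 18x^3/y - 54x^6/y^3 = -y + (6x^2/y)(x - X2) where X2 = -2x + 9x^4/y^2. -/

theorem E2_hasDerivAt {z : ℂ} (hz : z ∉ Lam) : HasDerivAt wp (wpd z) z := by
  have h := (A1_wp_analytic hz).differentiableAt.hasDerivAt
  have h1 : deriv wp z = wpd z := congrFun LL.deriv_weierstrassP z
  rwa [h1] at h

theorem E2_ne {z : ℂ} (h1 : z ∉ Lam) (h2 : 2 * z ∉ Lam) : wpd z ≠ 0 := by
  intro h
  have e1 := wp_ode z h1
  have e2 := wp_double z h1 h2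
  have hg : LL.g₃ ≠ 0 := by
    rw [A3_g3]
    exact pow_ne_zero 3 A3_wp_one_ne
  have e3 : 4 * wp z ^ 3 - LL.g₃ = 0 := by rw [← e1, h]; ring
  rw [e3, mul_zero] at e2
  have e4 : 9 * wp z ^ 4 = 0 := by linear_combination -e2 + 2 * wp z * e3
  have e5 : wp z = 0 := by
    rcases mul_eq_zero.1 e4 with h | h
    · norm_num at h
    · exact pow_eq_zero_iff (by norm_num) |>.1 h
  apply hg
  rw [e5] at e3
  linear_combination -e3

theorem wpd_double (z : ℂ) (h1 : z ∉ Lam) (h2 : 2 * z ∉ Lam) : wpd z ≠ 0 ∧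
    (wpd z + wpd (2 * z)) * wpd z = 6 * wp z ^ 2 * (wp z - wp (2 * z)) := by
  have hy := E2_ne h1 h2
  refine ⟨hy, ?_⟩
  have d1 := E2_hasDerivAt h1
  have d2 : HasDerivAt (fun v => wp (2 * v)) (wpd (2 * z) * 2) z := by
    have := E2_hasDerivAt h2
    have h3 : HasDerivAt (fun v : ℂ => 2 * v) 2 z := by
      simpa using (hasDerivAt_id z).const_mul 2
    exact this.comp z h3
  have f1 := d2.mul (((d1.pow 3).const_mul 4).sub_const LL.g₃)
  have f2 := (d1.pow 4).add (d1.const_mul (2 * LL.g₃))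
  have o1 : ∀ᶠ w in nhds z, w ∉ Lam := A1_open.mem_nhds h1
  have o2 : ∀ᶠ w in nhds z, 2 * w ∉ Lam :=
    (A1_open.preimage (f := fun w : ℂ => 2 * w) (by fun_prop)).mem_nhds h2
  have heq : (fun v => wp v ^ 4 + 2 * LL.g₃ * wp v) =ᶠ[nhds z]
      fun v => wp (2 * v) * (4 * wp v ^ 3 - LL.g₃) := by
    filter_upwards [o1, o2] with v h3 h4
    exact (wp_double v h3 h4).symm
  have f3 := f1.congr_of_eventuallyEq heq
  have f4 := f3.unique f2
  have e1 := wp_ode z h1
  have e2 := wp_double z h1 h2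
  have e3 : wpd z * ((wpd z + wpd (2 * z)) * wpd z -
      6 * wp z ^ 2 * (wp z - wp (2 * z))) = 0 := by
    simp only [Nat.cast_ofNat, Nat.add_one_sub_one, Pi.pow_apply] at f4
    linear_combination (1 / 2) * f4 + (wpd z + wpd (2 * z)) * e1
  rcases mul_eq_zero.1 e3 with h | h
  · exact absurd h hy
  · linear_combination h

end H55N
end

-- from Lib.H55N.E5
section

open NumberField IsDedekindDomain

namespace H55N

open H55B

/-! Chunk E5 (M). Integrality above 2 at points of odd order. Let X(w) = 9 wp(w)/R0^2, Y(w) = 27 wpd(w)/R0^3; R0^2 = 3 wp(1) (R0 wp(1) = wpd(1), wpd(1)^2 = 3 wp(1)^3: see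
exists_X and A3_g3), R0 <> 0; so X(2w)(4X(w)^3 - 27) = X(w)^4 + 54 X(w) (wp_double) and Y^2 = 4X^3 - 27 (wp_ode, g₃ = wp(1)^3).
V = valuation with v(2) < 1. For w of odd order not in Lam all 2^i w are not in Lam, and 2^r w = w mod Lam for some r > 0 (2 is invertible modulo k). If v(X(w)) > 1 then
v(4X^3 - 27) <= max(v(4) v(X)^3, 1) and v(X^4+54X) = v(X)^4, so v(X(2w)) >= v(X)^4/max(v(4)v(X)^3, 1) > v(X), > 1; by induction v(X(2^i w)) is strictly increasing, contradicting periodicity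
(X(w + 3y) = X(w)). So v(X) <= 1, v(4X^3) < 1 = v(27), v(Y) = 1, and 3 wp^2/wpd/R0 = X^2/Y is integral. -/

theorem E5_int_mul {z : ℂ} (h : z ∈ Lam) (a : ℤ) : (a : ℂ) * z ∈ Lam := by
  obtain ⟨y, hy⟩ := h
  refine ⟨a * y, ?_⟩
  rw [hy, map_mul, map_intCast]
  ring

theorem E5_mem {z : ℂ} {n k : ℕ} (hc : Nat.Coprime n k) (h1 : (n : ℂ) * z ∈ Lam)
    (h2 : (k : ℂ) * z ∈ Lam) : z ∈ Lam := by
  obtain ⟨a, b, hab⟩ := Nat.isCoprime_iff_coprime.2 hc
  have h3 := A1_add_mem (E5_int_mul h1 a) (E5_int_mul h2 b)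
  have h4 : (a : ℂ) * ((n : ℂ) * z) + (b : ℂ) * ((k : ℂ) * z) = z := by
    have h5 : ((a * n + b * k : ℤ) : ℂ) = 1 := by rw [hab, Int.cast_one]
    push_cast at h5
    linear_combination z * h5
  rwa [h4] at h3

theorem E5_pow {k : ℕ} (hk : Odd k) : ∃ r : ℕ, 0 < r ∧ ∃ q : ℕ, 2 ^ r = 1 + k * q := by
  have hc : Nat.Coprime 2 k := (Nat.coprime_two_left).2 hk
  have hk0 : 0 < k := hk.pos
  refine ⟨k.totient, Nat.totient_pos.2 hk0, ?_⟩
  have h := (Nat.ModEq.pow_totient hc).symm
  have h1 : k ∣ 2 ^ k.totient - 1 := (Nat.modEq_iff_dvd' Nat.one_le_two_pow).1 h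
  obtain ⟨q, hq⟩ := h1
  refine ⟨q, ?_⟩
  rw [← hq]
  have : 1 ≤ 2 ^ k.totient := Nat.one_le_two_pow
  omega

theorem E5_pow_mem {z : ℂ} {k : ℕ} (hk : Odd k) (hz : z ∉ Lam) (hkz : (k : ℂ) * z ∈ Lam)
    (i : ℕ) : (2 : ℂ) ^ i * z ∉ Lam := by
  intro h
  apply hz
  have hc : Nat.Coprime (2 ^ i) k := Nat.Coprime.pow_left i ((Nat.coprime_two_left).2 hk)
  refine E5_mem hc ?_ hkz
  push_cast
  exact h

theorem E5_R0 : R0 ^ 2 = 3 * wp 1 ∧ R0 ≠ 0 := by
  have hx := A3_wp_one_ne
  have hR0 : R0 * wp 1 = wpd 1 := by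
    have h1 := R_identity (e om - 1) A3_n1 A3_n2 A3_n3
    rwa [wp_zero_at, sub_zero] at h1
  have h2 := wp_ode 1 A1_one_notMem
  rw [A3_g3, ← hR0] at h2
  have h3 : wp 1 ^ 2 * (R0 ^ 2 - 3 * wp 1) = 0 := by linear_combination h2
  have h4 : R0 ^ 2 = 3 * wp 1 := by
    rcases mul_eq_zero.1 h3 with h | h
    · exact absurd h (pow_ne_zero 2 hx)
    · linear_combination h
  refine ⟨h4, ?_⟩
  intro h
  rw [h] at h4
  apply hx
  linear_combination -(1 / 3) * h4

/-- The normalised coordinates. -/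
noncomputable def E5_X (w : ℂ) : ℂ := 9 * wp w / R0 ^ 2

noncomputable def E5_Y (w : ℂ) : ℂ := 27 * wpd w / R0 ^ 3

theorem E5_dup {w : ℂ} (h1 : w ∉ Lam) (h2 : 2 * w ∉ Lam) :
    E5_X (2 * w) * (4 * E5_X w ^ 3 - 27) = E5_X w ^ 4 + 54 * E5_X w := by
  obtain ⟨hR, hR0⟩ := E5_R0
  have hx := A3_wp_one_ne
  have h3 := wp_double w h1 h2
  rw [A3_g3] at h3
  unfold E5_X
  rw [hR]
  have h4 : wp (2 * w) * (4 * wp w ^ 3 - wp 1 ^ 3) * 81 / wp 1 ^ 4 =
    (wp w ^ 4 + 2 * wp 1 ^ 3 * wp w) * 81 / wp 1 ^ 4 := by rw [h3]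
  have e1 : 9 * wp (2 * w) / (3 * wp 1) * (4 * (9 * wp w / (3 * wp 1)) ^ 3 - 27) =
    wp (2 * w) * (4 * wp w ^ 3 - wp 1 ^ 3) * 81 / wp 1 ^ 4 := by
    field_simp
    ring
  have e2 : (9 * wp w / (3 * wp 1)) ^ 4 + 54 * (9 * wp w / (3 * wp 1)) =
    (wp w ^ 4 + 2 * wp 1 ^ 3 * wp w) * 81 / wp 1 ^ 4 := by
    field_simp
    ring
  rw [e1, e2, h4]

theorem E5_ode {w : ℂ} (h1 : w ∉ Lam) : E5_Y w ^ 2 = 4 * E5_X w ^ 3 - 27 := by
  obtain ⟨hR, hR0⟩ := E5_R0
  have hx := A3_wp_one_ne
  have h3 := wp_ode w h1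
  rw [A3_g3] at h3
  have e1 : E5_Y w ^ 2 = 27 * wpd w ^ 2 / wp 1 ^ 3 := by
    unfold E5_Y
    have : (27 * wpd w / R0 ^ 3) ^ 2 = 729 * wpd w ^ 2 / (R0 ^ 2) ^ 3 := by
      field_simp
      ring
    rw [this, hR]
    field_simp
    ring
  rw [e1, h3]
  unfold E5_X
  rw [hR]
  field_simp
  ring

theorem E5_target {w : ℂ} (hy : wpd w ≠ 0) :
    3 * wp w ^ 2 / wpd w / R0 = E5_X w ^ 2 / E5_Y w := by
  obtain ⟨hR, hR0⟩ := E5_R0
  unfold E5_X E5_Y
  field_simp
  ring

theorem E5_step (V : ValuationSubring ℂ) (hV : V.valuation 2 < 1) {w : ℂ} (h1 : w ∉ Lam)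
    (h2 : 2 * w ∉ Lam) (hX : 1 < V.valuation (E5_X w)) :
    V.valuation (E5_X w) < V.valuation (E5_X (2 * w)) := by
  set ξ := V.valuation (E5_X w) with hξ
  have hd := congrArg V.valuation (E5_dup h1 h2)
  rw [map_mul] at hd
  have v4 : V.valuation 4 < 1 := by
    have := val_even V hV 4 (by decide)
    exact_mod_cast this
  have v54 : V.valuation 54 < 1 := by
    have := val_even V hV 54 (by decide)
    exact_mod_cast this
  have v27 : V.valuation 27 = 1 := by
    have := val_odd V hV 27 (by decide)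
    exact_mod_cast this
  have hξ0 : 0 < ξ := zero_lt_one.trans hX
  have hx3 : 1 < ξ ^ 3 := one_lt_pow₀ hX (by norm_num)
  have a1 : V.valuation (4 * E5_X w ^ 3 - 27) < ξ ^ 3 := by
    refine (Valuation.map_sub _ _ _).trans_lt (max_lt ?_ ?_)
    · rw [map_mul, map_pow, ← hξ]
      exact mul_lt_of_lt_one_left (zero_lt_one.trans hx3) v4
    · rw [v27]
      exact hx3
  have a2 : V.valuation (E5_X w ^ 4 + 54 * E5_X w) = ξ ^ 4 := by
    have h3 : V.valuation (54 * E5_X w) < V.valuation (E5_X w ^ 4) := by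
      rw [map_mul, map_pow, ← hξ]
      calc V.valuation 54 * ξ < ξ := mul_lt_of_lt_one_left hξ0 v54
        _ = 1 * ξ := (one_mul _).symm
        _ ≤ ξ ^ 3 * ξ := by gcongr
        _ = ξ ^ 4 := (pow_succ _ _).symm
    rw [Valuation.map_add_eq_of_lt_left _ h3, map_pow]
  rw [a2] at hd
  by_contra hcon
  push Not at hcon
  have h5 : V.valuation (E5_X (2 * w)) * V.valuation (4 * E5_X w ^ 3 - 27) < ξ ^ 4 := by
    calc V.valuation (E5_X (2 * w)) * V.valuation (4 * E5_X w ^ 3 - 27)
        ≤ ξ * V.valuation (4 * E5_X w ^ 3 - 27) := by gcongr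
      _ < ξ * ξ ^ 3 := by
          rw [mul_comm, mul_comm ξ]
          exact (mul_lt_mul_iff_left₀ hξ0).2 a1
      _ = ξ ^ 4 := (pow_succ' _ _).symm
  rw [hd] at h5
  exact lt_irrefl _ h5

theorem E5_per (w : ℂ) (y : O) : E5_X (w + 3 * e y) = E5_X w := by
  unfold E5_X
  rw [wp_per]

theorem E5_le (V : ValuationSubring ℂ) (hV : V.valuation 2 < 1) (z : ℂ) (hz : z ∉ Lam) (k : ℕ)
    (hk : Odd k) (hkz : (k : ℂ) * z ∈ Lam) : V.valuation (E5_X z) ≤ 1 := by
  by_contra hcon
  push Not at hcon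
  have hmem := E5_pow_mem hk hz hkz
  have hstep : ∀ i : ℕ, 1 < V.valuation (E5_X ((2 : ℂ) ^ i * z)) →
      V.valuation (E5_X ((2 : ℂ) ^ i * z)) < V.valuation (E5_X ((2 : ℂ) ^ (i + 1) * z)) := by
    intro i hi
    have e1 : (2 : ℂ) ^ (i + 1) * z = 2 * ((2 : ℂ) ^ i * z) := by ring
    rw [e1]
    refine E5_step V hV (hmem i) ?_ hi
    rw [← e1]
    exact hmem (i + 1)
  have hall : ∀ i : ℕ, V.valuation (E5_X z) < V.valuation (E5_X ((2 : ℂ) ^ (i + 1) * z)) := by
    intro i
    induction i with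
    | zero =>
      have := hstep 0 (by simpa using hcon)
      simpa using this
    | succ i ih => exact ih.trans (hstep (i + 1) (hcon.trans ih))
  obtain ⟨r, hr, q, hq⟩ := E5_pow hk
  obtain ⟨y, hy⟩ := hkz
  obtain ⟨s, rfl⟩ : ∃ s, r = s + 1 := ⟨r - 1, by omega⟩
  have h1 := hall s
  have h2 : (2 : ℂ) ^ (s + 1) * z = z + 3 * e (q * y) := by
    have h3 : ((2 ^ (s + 1) : ℕ) : ℂ) = ((1 + k * q : ℕ) : ℂ) := by rw [hq]
    push_cast at h3
    rw [h3, map_mul, map_natCast]
    linear_combination (q : ℂ) * hy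
  rw [h2, E5_per] at h1
  exact lt_irrefl _ h1

theorem int_point (z : ℂ) (hz : z ∉ Lam) (k : ℕ) (hk : Odd k) (hkz : (k : ℂ) * z ∈ Lam) :
    Int2 (3 * wp z ^ 2 / wpd z / R0) := by
  intro V hV
  have hmem := E5_pow_mem hk hz hkz
  have h2 : 2 * z ∉ Lam := by
    have := hmem 1
    rwa [pow_one] at this
  rw [E5_target (wpd_double z hz h2).1, map_div₀, map_pow]
  have hX := E5_le V hV z hz k hk hkz
  have v4 : V.valuation 4 < 1 := by
    have := val_even V hV 4 (by decide)
    exact_mod_cast this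
  have v27 : V.valuation 27 = 1 := by
    have := val_odd V hV 27 (by decide)
    exact_mod_cast this
  have h3 : V.valuation (4 * E5_X z ^ 3) < V.valuation 27 := by
    rw [v27, map_mul, map_pow]
    exact mul_lt_one_of_lt_of_le v4 (pow_le_one' hX 3)
  have h4 : V.valuation (E5_Y z) ^ 2 = 1 := by
    rw [← map_pow, E5_ode hz, Valuation.map_sub_eq_of_lt_right _ h3, v27]
  have h5 : V.valuation (E5_Y z) = 1 := by
    rcases lt_trichotomy (V.valuation (E5_Y z)) 1 with h | h | h
    · have := pow_lt_one₀ zero_le h two_ne_zero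
      rw [h4] at this
      exact absurd this (lt_irrefl _)
    · exact h
    · have := one_lt_pow₀ h two_ne_zero
      rw [h4] at this
      exact absurd this (lt_irrefl _)
  rw [h5, div_one]
  exact pow_le_one' hX 2

end H55N
end

-- from Lib.H55N.B2
section

open NumberField IsDedekindDomain

namespace H55N

open H55B H55C

variable {K : Type} [Field K] [NumberField K] [Algebra F K] {m : ℕ}

/-! Chunk B2 (M). Lattice sums.
sum_l: by hint choose for x in Y a vector y(x) in O^(m+1) with Tr(A_k x) = e(y(x)_k); the map x -> y(x) is injective (Tr_inj), and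
sum over O^(m+1) of prod (1+|e y_k|)^(-r) converges (B1 with H55B.summable_e).
sum_sz: choose an F-basis A of K consisting of elements of O_K (scale a basis by an integer:
exists_integral_multiple, or a localization basis); then Tr(A_k x) is in e(O) for all x in O_K (Tr_eq; the trace of an
algebraic integer is an algebraic integer of F), |Tr(A_k x)| <= C sz x, so sz(x)^(-r) <= C' prod_k (1+|Tr(A_k x)|)^(-r/(m+1))
with r/(m+1) > 2; sum_l with Y = univ.
Tr_le: |Tr(a,x)| <= C sz x. -/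

theorem Tr_le (D : Ctx K m) (a : K) : ∃ C : ℝ, 0 < C ∧ ∀ x : 𝓞 K, 1 + ‖D.Tr a x‖ ≤ C * D.sz x := by
  have hM : 0 ≤ ∑ i, ‖D.σ i a‖ := Finset.sum_nonneg fun i _ => norm_nonneg _
  refine ⟨1 + ∑ i, ‖D.σ i a‖, by linarith, fun x => ?_⟩
  have h1 : ‖D.Tr a x‖ ≤ ∑ i, ‖D.σ i a‖ * D.sz x := by
    unfold Ctx.Tr
    refine (norm_sum_le _ _).trans (Finset.sum_le_sum fun i _ => ?_)
    rw [map_mul, norm_mul, mul_comm]
    exact mul_le_mul_of_nonneg_left (D.norm_le_sz x i) (norm_nonneg _)
  rw [← Finset.sum_mul] at h1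
  have h2 := D.one_le_sz x
  linarith

theorem sum_l (D : Ctx K m) (hE : Emb D.σ) (Y : Set (𝓞 K)) (A : Fin (m + 1) → K)
    (hA : LinearIndependent F A) (hint : ∀ x ∈ Y, ∀ k, ∃ y : O, D.Tr (A k) x = e y) (r : ℝ)
    (hr : 2 < r) : Summable fun x : Y => ∏ k, (1 + ‖D.Tr (A k) x‖) ^ (-r) := by
  choose y hy using fun (x : Y) (k : Fin (m + 1)) => hint x x.2 k
  have h1 : Function.Injective y := by
    intro x x' hxx
    apply Subtype.ext
    apply Tr_inj D hE A hA
    intro k
    rw [hy x k, hy x' k, hxx]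
  have h2 := pi_summable (m + 1) (fun _ (z : O) => (1 + ‖e z‖) ^ (-r))
    (fun _ z => by positivity) (fun _ => summable_e hr)
  have h3 := h2.comp_injective h1
  refine h3.congr fun x => ?_
  refine Finset.prod_congr rfl fun k _ => ?_
  rw [hy x k]

theorem b2_basis (D : Ctx K m) (hE : Emb D.σ) : ∃ A : Fin (m + 1) → K, LinearIndependent F A ∧
    ∀ (x : 𝓞 K) k, ∃ y : O, D.Tr (A k) x = e y := by
  haveI := a1_fin hE.fin
  let b : Module.Basis (Fin (m + 1)) F K := Module.finBasisOfFinrankEq F K hE.fin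
  have halg : ∀ i, IsAlgebraic ℤ (b i) := fun i =>
    (IsFractionRing.isAlgebraic_iff ℤ ℚ K).2 (Algebra.IsAlgebraic.isAlgebraic (b i))
  choose y hy0 hy using fun i => (halg i).exists_integral_multiple
  have hyF : ∀ i, ((y i : ℤ) : F) ≠ 0 := fun i => Int.cast_ne_zero.2 (hy0 i)
  refine ⟨fun i => y i • b i, ?_, ?_⟩
  · have h1 := b.linearIndependent.units_smul (fun i => Units.mk0 ((y i : ℤ) : F) (hyF i))
    have h2 : (fun i => Units.mk0 ((y i : ℤ) : F) (hyF i)) • (b : Fin (m + 1) → K) =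
        fun i => y i • b i := by
      funext i
      show ((y i : ℤ) : F) • b i = y i • b i
      rw [Int.cast_smul_eq_zsmul]
    rw [h2] at h1
    exact h1
  · intro x k
    have hi : IsIntegral ℤ (Algebra.trace F K ((x : K) * (y k • b k))) :=
      Algebra.isIntegral_trace (x.2.mul (hy k))
    refine ⟨⟨_, hi⟩, ?_⟩
    rw [Tr_eq D hE]
    rfl

theorem sum_sz (D : Ctx K m) (hE : Emb D.σ) (r : ℝ) (hr : 2 * (m + 1 : ℝ) < r) :
    Summable fun x : 𝓞 K => D.sz x ^ (-r) := by
  obtain ⟨A, hA, hint⟩ := b2_basis D hE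
  set ρ : ℝ := r / (m + 1) with hρ
  have hm : (0 : ℝ) < m + 1 := by positivity
  have hρ2 : 2 < ρ := by
    rw [hρ, lt_div_iff₀ hm]
    exact hr
  have hρr : ρ * (m + 1) = r := by
    rw [hρ]
    field_simp
  have h1 := sum_l D hE Set.univ A hA (fun x _ k => hint x k) ρ hρ2
  have h2 : Summable fun x : 𝓞 K => ∏ k, (1 + ‖D.Tr (A k) x‖) ^ (-ρ) := by
    rw [← (Equiv.Set.univ (𝓞 K)).summable_iff]
    exact h1
  choose C hC0 hC using fun k => Tr_le D (A k)
  set M : ℝ := ∑ k, C k with hM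
  have hM0 : 0 < M := Finset.sum_pos (fun k _ => hC0 k) Finset.univ_nonempty
  have hCM : ∀ k, C k ≤ M := fun k =>
    Finset.single_le_sum (f := C) (fun k _ => (hC0 k).le) (Finset.mem_univ k)
  refine (h2.mul_left (M ^ r)).of_nonneg_of_le (fun x => Real.rpow_nonneg (D.sz_pos x).le _)
    fun x => ?_
  have hs := D.sz_pos x
  have h3 : ∏ _k : Fin (m + 1), (M * D.sz x) ^ (-ρ) ≤ ∏ k, (1 + ‖D.Tr (A k) x‖) ^ (-ρ) := by
    refine Finset.prod_le_prod (fun k _ => Real.rpow_nonneg (by positivity) _) fun k _ => ?_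
    apply Real.rpow_le_rpow_of_nonpos (by positivity)
    · exact (hC k x).trans (mul_le_mul_of_nonneg_right (hCM k) hs.le)
    · linarith
  have h4 : ∏ _k : Fin (m + 1), (M * D.sz x) ^ (-ρ) = M ^ (-r) * D.sz x ^ (-r) := by
    rw [Finset.prod_const, Finset.card_univ, Fintype.card_fin, ← Real.rpow_natCast,
      ← Real.rpow_mul (by positivity), Real.mul_rpow hM0.le hs.le]
    have : -ρ * ((m + 1 : ℕ) : ℝ) = -r := by
      push_cast
      rw [neg_mul, hρr]
    rw [this]
  rw [h4] at h3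
  calc D.sz x ^ (-r) = M ^ r * (M ^ (-r) * D.sz x ^ (-r)) := by
        rw [← mul_assoc, ← Real.rpow_add hM0, add_neg_cancel, Real.rpow_zero, one_mul]
    _ ≤ _ := mul_le_mul_of_nonneg_left h3 (Real.rpow_nonneg hM0.le _)

end H55N
end

-- from Lib.H55N.HD
section

/-!
# H55N, part H: definitions for the Hecke L-functions. See PROOF_H.md.
-/

open NumberField IsDedekindDomain

namespace H55N

open H55B H55C

open Classical in
/-- The primary generator of an ideal of O prime to 3, and 0 for the other ideals. -/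
noncomputable def pg (J : Ideal O) : O :=
  if h : ∃ x : O, J = Ideal.span {x} ∧ Prim x then h.choose else 0

theorem pg_span {x : O} (hx : Prim x) : pg (Ideal.span {x}) = x := by
  have h : ∃ y : O, Ideal.span {x} = Ideal.span {y} ∧ Prim y := ⟨x, rfl, hx⟩
  unfold pg
  rw [dif_pos h]
  exact h.choose_spec.2.eq_of_associated hx
    (Ideal.span_singleton_eq_span_singleton.1 h.choose_spec.1.symm)

theorem pg_of_not {J : Ideal O} (h : ¬ ∃ x : O, J = Ideal.span {x} ∧ Prim x) : pg J = 0 :=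
  dif_neg h

theorem exists_prim_iff {J : Ideal O} (hJ : J ≠ ⊥) :
    (∃ x : O, J = Ideal.span {x} ∧ Prim x) ↔ IsCoprime J (Ideal.span {3}) := by
  constructor
  · rintro ⟨x, rfl, hx⟩
    rw [Ideal.isCoprime_span_singleton_iff]
    exact hx.coprime
  · intro h
    obtain ⟨y, hy⟩ := (IsPrincipalIdealRing.principal J).principal
    have hy' : J = Ideal.span {y} := hy
    rw [hy', Ideal.isCoprime_span_singleton_iff] at h
    obtain ⟨u, hu⟩ := exists_unit_prim h
    refine ⟨u * y, ?_, hu⟩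
    rw [hy', mul_comm, Ideal.span_singleton_mul_right_unit u.isUnit]

theorem not_prim_mul {J J' : Ideal O} (h : ¬ ∃ x : O, J = Ideal.span {x} ∧ Prim x) :
    ¬ ∃ x : O, J * J' = Ideal.span {x} ∧ Prim x := by
  rintro ⟨x, hx, hp⟩
  have h0 : J * J' ≠ ⊥ := by
    rw [hx]
    intro h0
    exact hp.ne_zero (Ideal.span_singleton_eq_bot.1 h0)
  have hJ : J ≠ ⊥ := by
    rintro rfl
    exact h0 (by simp)
  apply h
  rw [exists_prim_iff hJ]
  have h1 := (exists_prim_iff h0).1 ⟨x, hx, hp⟩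
  exact h1.of_mul_left_left

theorem pg_mul (J J' : Ideal O) : pg (J * J') = pg J * pg J' := by
  by_cases h : ∃ x : O, J = Ideal.span {x} ∧ Prim x
  · by_cases h' : ∃ x : O, J' = Ideal.span {x} ∧ Prim x
    · obtain ⟨x, rfl, hx⟩ := h
      obtain ⟨y, rfl, hy⟩ := h'
      rw [Ideal.span_singleton_mul_span_singleton, pg_span hx, pg_span hy, pg_span (hx.mul hy)]
    · rw [pg_of_not h', mul_zero, mul_comm]
      exact pg_of_not (not_prim_mul h')
  · rw [pg_of_not h, zero_mul]
    exact pg_of_not (not_prim_mul h)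

/-- The conjugate of the Hecke character of E27 over F, as a function on ideals. -/
noncomputable def psiF : Ideal O →*₀ ℂ where
  toFun J := (starRingEnd ℂ) (e (pg J))
  map_zero' := by
    have : ¬ ∃ x : O, (0 : Ideal O) = Ideal.span {x} ∧ Prim x := by
      rintro ⟨x, hx, hp⟩
      exact hp.ne_zero (Ideal.span_singleton_eq_bot.1 hx.symm)
    rw [pg_of_not this, map_zero, map_zero]
  map_one' := by
    have : (1 : Ideal O) = Ideal.span {1} := by simp
    rw [this, pg_span prim_one, map_one, map_one]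
  map_mul' J J' := by rw [pg_mul, map_mul, map_mul]

theorem psiF_apply (J : Ideal O) : psiF J = (starRingEnd ℂ) (e (pg J)) := rfl

variable (K : Type) [Field K] [NumberField K] [Algebra F K]

/-- The conjugate of the Hecke character of E27 over K, as a function on ideals: the primary
generator of the relative norm. -/
noncomputable def Psi : Ideal (𝓞 K) →*₀ ℂ := psiF.comp (Ideal.relNorm O : Ideal (𝓞 K) →*₀ Ideal O)

variable {K}

/-- The general term of a Dirichlet series over the ideals. -/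
noncomputable def tm (h : Ideal (𝓞 K) → ℂ) (s : ℂ) (a : Ideal (𝓞 K)) : ℂ :=
  h a * (Ideal.absNorm a : ℂ) ^ (-s)

/-- The general term of a Dirichlet series with completely multiplicative coefficients. -/
noncomputable def tmH (h : Ideal (𝓞 K) →*₀ ℂ) (s : ℂ) : Ideal (𝓞 K) →*₀ ℂ where
  toFun := tm h s
  map_zero' := by
    unfold tm
    rw [map_zero, zero_mul]
  map_one' := by
    unfold tm
    rw [map_one, map_one, Nat.cast_one, Complex.one_cpow, one_mul]
  map_mul' a b := by
    unfold tm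
    rw [map_mul, map_mul, Nat.cast_mul, Complex.natCast_mul_natCast_cpow]
    ring

open Classical in
/-- The trivial character modulo f. -/
noncomputable def oneI (f : Ideal (𝓞 K)) : Ideal (𝓞 K) →*₀ ℂ where
  toFun a := if a ≠ ⊥ ∧ IsCoprime a f then 1 else 0
  map_zero' := by simp
  map_one' := by
    rw [if_pos]
    exact ⟨one_ne_zero, isCoprime_one_left⟩
  map_mul' a b := by
    have h : (a * b ≠ ⊥ ∧ IsCoprime (a * b) f) ↔
        (a ≠ ⊥ ∧ IsCoprime a f) ∧ (b ≠ ⊥ ∧ IsCoprime b f) := by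
      rw [IsCoprime.mul_left_iff]
      have : a * b ≠ ⊥ ↔ a ≠ ⊥ ∧ b ≠ ⊥ := mul_ne_zero_iff
      rw [this]
      tauto
    by_cases h1 : a ≠ ⊥ ∧ IsCoprime a f
    · by_cases h2 : b ≠ ⊥ ∧ IsCoprime b f
      · rw [if_pos h1, if_pos h2, if_pos (h.2 ⟨h1, h2⟩), one_mul]
      · rw [if_neg h2, if_neg fun h3 => h2 (h.1 h3).2, mul_zero]
    · rw [if_neg h1, if_neg fun h3 => h1 (h.1 h3).1, zero_mul]



/-- Arithmetic functions from functions on ideals. -/
noncomputable def AI (h : Ideal (𝓞 K) → ℂ) : ArithmeticFunction ℂ where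
  toFun n := if n = 0 then 0 else ∑ᶠ (a : Ideal (𝓞 K)) (_ : Ideal.absNorm a = n), h a
  map_zero' := if_pos rfl


/-- Data of the class decomposition modulo 3f: representatives b of the ideal classes, of the classes
modulo 3fb, and transversals. -/
structure CD (f : Ideal (𝓞 K)) (ι : Type) (b : ι → Ideal (𝓞 K)) (c₀ : ι → 𝓞 K)
    (T : ι → Set (𝓞 K)) : Prop where
  ne : ∀ i, b i ≠ ⊥
  cop : ∀ i, IsCoprime (b i) (Ideal.span {6} * f)
  mem : ∀ i, c₀ i ∈ b i
  prim : ∀ i, ∀ w : HeightOneSpectrum (𝓞 K), Ideal.span {3} * f ≤ w.asIdeal →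
    c₀ i ∉ w.asIdeal * b i
  trans : ∀ i, Transv (Ideal.span {3} * f) (XS (Ideal.span {3} * f * b i) (c₀ i)) (T i)
  bij : ∀ a : Ideal (𝓞 K), a ≠ ⊥ → IsCoprime a (Ideal.span {3} * f) →
    ∃! q : Σ i, T i, a * b q.1 = Ideal.span {(q.2 : 𝓞 K)}

end H55N
end

-- from Lib.H55N.H13
section

open NumberField IsDedekindDomain

namespace H55N

open H55B H55C

/-- 3 generates a proper ideal. -/
theorem H13_three {K : Type} [Field K] [NumberField K] :
    (Ideal.span {3} : Ideal (𝓞 K)) ≠ ⊤ := by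
  intro h
  have h1 : Ideal.absNorm (Ideal.span {3} : Ideal (𝓞 K)) = 1 := by
    rw [h]
    exact Ideal.absNorm_top
  rw [Ideal.absNorm_span_singleton] at h1
  have h2 : Algebra.norm ℤ (3 : 𝓞 K) = 3 ^ Module.finrank ℤ (𝓞 K) := by
    have h3 := Algebra.norm_algebraMap (R := ℤ) (S := 𝓞 K) (3 : ℤ)
    simpa using h3
  rw [h2, Int.natAbs_pow] at h1
  have h3 : 0 < Module.finrank ℤ (𝓞 K) := Module.finrank_pos
  have h4 : 1 < Int.natAbs 3 ^ Module.finrank ℤ (𝓞 K) :=
    Nat.one_lt_pow h3.ne' (by decide)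
  omega

/-- A prime containing 3. -/
theorem H13_prime {K : Type} [Field K] [NumberField K] :
    ∃ w : HeightOneSpectrum (𝓞 K), (Ideal.span {3} : Ideal (𝓞 K)) ≤ w.asIdeal := by
  obtain ⟨M, hM, hM2⟩ := Ideal.exists_le_maximal _ (H13_three (K := K))
  refine ⟨⟨M, hM.isPrime, ?_⟩, hM2⟩
  rintro rfl
  rw [le_bot_iff, Ideal.span_singleton_eq_bot] at hM2
  have h3 : ((3 : ℕ) : 𝓞 K) ≠ 0 := Nat.cast_ne_zero.2 (by decide)
  exact h3 (by exact_mod_cast hM2)

/-- The ideal attached to an element. -/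
theorem H13_ex {K : Type} [Field K] [NumberField K] [Algebra F K] (f : Ideal (𝓞 K))
    (ι : Type) (b : ι → Ideal (𝓞 K)) (c₀ : ι → 𝓞 K) (T : ι → Set (𝓞 K))
    (h : CD f ι b c₀ T) (q : Σ i, T i) :
    ∃ a : Ideal (𝓞 K), a * b q.1 = Ideal.span {(q.2 : 𝓞 K)} ∧ a ≠ ⊥ ∧
      IsCoprime a (Ideal.span {3} * f) := by
  obtain ⟨i, x, hx⟩ := q
  have h1 : x ∈ XS (Ideal.span {3} * f * b i) (c₀ i) := (h.trans i).sub hx
  have h1' : x - c₀ i ∈ Ideal.span {3} * f * b i := h1
  have hxb : x ∈ b i := by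
    have h2 : x - c₀ i ∈ b i := Ideal.mul_le_right h1'
    have h3 := Ideal.add_mem _ h2 (h.mem i)
    simpa using h3
  have key : ∀ w : HeightOneSpectrum (𝓞 K), Ideal.span {3} * f ≤ w.asIdeal →
      x ∉ w.asIdeal * b i := by
    intro w hw hxw
    apply h.prim i w hw
    have h2 : x - c₀ i ∈ w.asIdeal * b i := Ideal.mul_mono_left hw h1'
    have h3 := Ideal.sub_mem _ hxw h2
    simpa using h3
  have hx0 : x ≠ 0 := by
    rintro rfl
    obtain ⟨w, hw⟩ := H13_prime (K := K)
    exact key w (Ideal.mul_le_left.trans hw) (Ideal.zero_mem _)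
  have h3 : b i ∣ Ideal.span {x} := by
    rw [Ideal.dvd_iff_le, Ideal.span_singleton_le_iff_mem]
    exact hxb
  obtain ⟨a, ha⟩ := h3
  refine ⟨a, by rw [mul_comm]; exact ha.symm, ?_, ?_⟩
  · rintro rfl
    apply hx0
    rw [← Ideal.span_singleton_eq_bot, ha]
    exact mul_zero _
  · have ha0 : a ≠ ⊥ := by
      rintro rfl
      apply hx0
      rw [← Ideal.span_singleton_eq_bot, ha]
      exact mul_zero _
    by_contra hc
    rw [Ideal.isCoprime_iff_sup_eq] at hc
    obtain ⟨M, hM, hM2⟩ := Ideal.exists_le_maximal _ hc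
    have hM0 : M ≠ ⊥ := by
      rintro rfl
      exact ha0 (le_bot_iff.1 (le_sup_left.trans hM2))
    refine key ⟨M, hM.isPrime, hM0⟩ (le_sup_right.trans hM2) ?_
    have h4 : x ∈ b i * a := by
      rw [← ha]
      exact Ideal.mem_span_singleton_self x
    rw [mul_comm] at h4
    exact Ideal.mul_mono_left (le_sup_left.trans hM2) h4

/-- Chunk H13 (S/M), summation over the class decomposition. The map q -> the ideal a with a * b = (x) (x = q.2; it exists because
x is in b: x - c0 in 3fb, c0 in b; a is nonzero because x <> 0, a is prime to 3f because otherwise x is in w b and then c0 is in w b) is a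
bijection from the sigma type onto the set of nonzero ideals prime to 3f (bij), which contains the support of phi. Sum over
a sigma type with finite base of summable fibres (HasSum.sigma is for the converse direction; use a finite sum of HasSum over the
disjoint pieces, for instance hasSum_sum and Function.Injective.hasSum_iff, or HasSum.sigma_of_hasSum with
summability of a finite union). -/
theorem cd_hasSum {K : Type} [Field K] [NumberField K] [Algebra F K] (f : Ideal (𝓞 K))
    (ι : Type) [Fintype ι] (b : ι → Ideal (𝓞 K)) (c₀ : ι → 𝓞 K) (T : ι → Set (𝓞 K))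
    (h : CD f ι b c₀ T) (φ : Ideal (𝓞 K) → ℂ)
    (hφ : ∀ a, φ a ≠ 0 → a ≠ ⊥ ∧ IsCoprime a (Ideal.span {3} * f)) (G : ι → 𝓞 K → ℂ)
    (hG : ∀ i, ∀ x ∈ T i, ∀ a, a * b i = Ideal.span {x} → φ a = G i x) (Z : ι → ℂ)
    (hZ : ∀ i, HasSum (fun x : T i => G i x) (Z i)) : HasSum φ (∑ i, Z i) := by
  classical
  choose A hA1 hA2 hA3 using H13_ex f ι b c₀ T h
  have hinj : Function.Injective A := by
    intro q q' hq
    obtain ⟨r, _, hr2⟩ := h.bij (A q) (hA2 q) (hA3 q)
    have h1 := hr2 q (hA1 q)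
    have h2 := hr2 q' (by
      show A q * b q'.1 = Ideal.span {(q'.2 : 𝓞 K)}
      rw [hq]
      exact hA1 q')
    rw [h1, h2]
  have hran : ∀ a ∉ Set.range A, φ a = 0 := by
    intro a ha
    by_contra hne
    apply ha
    obtain ⟨h1, h2⟩ := hφ a hne
    obtain ⟨q, hq, _⟩ := h.bij a h1 h2
    refine ⟨q, ?_⟩
    have h3 : A q * b q.1 = a * b q.1 := by
      rw [hA1 q]
      exact hq.symm
    exact mul_right_cancel₀ (show b q.1 ≠ 0 from h.ne q.1) h3
  rw [← hinj.hasSum_iff hran]
  have h1 : (φ ∘ A) = fun q : Σ i, T i => ∑ i, if q.1 = i then G q.1 q.2 else 0 := by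
    funext q
    rw [Finset.sum_ite_eq Finset.univ q.1, if_pos (Finset.mem_univ _)]
    exact hG q.1 q.2 q.2.2 (A q) (hA1 q)
  rw [h1]
  refine hasSum_sum fun i _ => ?_
  have h2 : ∀ q ∉ Set.range (fun x : T i => (⟨i, x⟩ : Σ j, T j)),
      (if q.1 = i then G q.1 q.2 else 0) = 0 := by
    rintro ⟨j, x⟩ hq
    rw [if_neg]
    rintro rfl
    exact hq ⟨x, rfl⟩
  have hinj2 : Function.Injective (fun x : T i => (⟨i, x⟩ : Σ j, T j)) := by
    intro x y hxy
    exact eq_of_heq (Sigma.mk.inj hxy).2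
  rw [← hinj2.hasSum_iff h2]
  have h3 : ((fun q : Σ i, T i => if q.1 = i then G q.1 q.2 else 0) ∘
      (fun x : T i => (⟨i, x⟩ : Σ j, T j))) = fun x : T i => G i x := by
    funext x
    exact if_pos rfl
  rw [h3]
  exact hZ i

end H55N
end

-- from Lib.H55N.L4
section

open NumberField IsDedekindDomain

namespace H55N

open H55B H55C

variable {K : Type} [Field K] [NumberField K] [Algebra F K] {m : ℕ}

/-! Chunk L4 (M). Direction data from directions d_j and smoothing primes c_i not containing the d_j: P = prod_k p_k, w_i = (P/p_i) d_{i.1}, i.e.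
w_i = (prod_{k <> i} p_k) d_{i.1}. mem: d in I. oth: for k <> i the factor p_k is in c_k (absNorm c_k = p_k: Ideal.absNorm_mem). self: c_i is prime (Ideal.isPrime_of_irreducible_absNorm),
d_{i.1} not in c_i, and p_k not in c_i for k <> i: p_k and p_i are distinct primes, c_i contains p_i, so it would contain 1. orth: Tr_eq, linearity. int, low, ind: hypotheses. -/

theorem dirs_of (D : Ctx K m) (hD : D.Ok) (A : Fin (m + 1) → K) (d : Fin (m + 1) → 𝓞 K)
    (hd : ∀ j, d j ∈ D.I) (hdc : ∀ i j, d j ∉ D.c i)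
    (horth : ∀ j k, k ≠ j → Algebra.trace F K ((d j : K) * A k) = 0)
    (hint : ∀ x ∈ D.X, ∀ k, ∃ y : O, D.Tr (A k) x = e y)
    (hlow : ∀ x ∈ D.X, ∀ k, 1 ≤ ‖D.Tr (A k) x‖) (hA : LinearIndependent F A) :
    ∃ w, D.Dirs A w := by
  classical
  have hprime : ∀ i, (D.c i).IsPrime := fun i =>
    Ideal.isPrime_of_irreducible_absNorm (by
      rw [hD.smooth.norm i]
      exact (hD.smooth.prime i))
  have hpc : ∀ i, (D.p i : 𝓞 K) ∈ D.c i := fun i => by
    have := Ideal.absNorm_mem (D.c i)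
    rwa [hD.smooth.norm i] at this
  refine ⟨fun i => ((∏ k ∈ Finset.univ.erase i, D.p k : ℕ) : 𝓞 K) * d i.1, ?_, ?_, ?_, ?_, hint,
    hlow, hA⟩
  · intro i
    exact D.I.mul_mem_left _ (hd _)
  · intro i h
    rcases (hprime i).mem_or_mem h with h1 | h1
    · have hcop : Nat.Coprime (∏ k ∈ Finset.univ.erase i, D.p k) (D.p i) := by
        refine Nat.Coprime.prod_left fun k hk => ?_
        rw [Nat.coprime_primes (hD.smooth.prime k) (hD.smooth.prime i)]
        intro h2
        exact (Finset.mem_erase.1 hk).1 (hD.smooth.inj h2)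
      have h2 := Nat.isCoprime_iff_coprime.2 hcop
      obtain ⟨a, b, hab⟩ := h2
      apply (hprime i).ne_top
      rw [Ideal.eq_top_iff_one]
      have h3 := congrArg (Int.cast : ℤ → 𝓞 K) hab
      push_cast at h3
      rw [← h3]
      refine (D.c i).add_mem ((D.c i).mul_mem_left _ ?_) ((D.c i).mul_mem_left _ (hpc i))
      push_cast at h1
      exact h1
    · exact hdc i i.1 h1
  · intro i k hk
    refine (D.c k).mul_mem_right _ ?_
    rw [← Finset.mul_prod_erase (Finset.univ.erase i) (fun k => D.p k)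
      (Finset.mem_erase.2 ⟨hk, Finset.mem_univ k⟩)]
    push_cast
    exact (D.c k).mul_mem_right _ (hpc k)
  · intro i k hk
    rw [Tr_eq D hD.emb]
    have h1 : (((((∏ k ∈ Finset.univ.erase i, D.p k : ℕ) : 𝓞 K) * d i.1 : 𝓞 K)) : K) * A k =
        ((∏ k ∈ Finset.univ.erase i, D.p k : ℕ) : F) • ((d i.1 : K) * A k) := by
      rw [Algebra.smul_def, map_natCast, ← mul_assoc]
      congr 1
    rw [h1, map_smul, horth i.1 k hk, smul_zero, map_zero]

/-- Finiteness of the set of ideals containing a nonzero element. -/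
theorem finite_ideals (x : 𝓞 K) (hx : x ≠ 0) : {c : Ideal (𝓞 K) | x ∈ c}.Finite := by
  classical
  have h : Ideal.span {x} ≠ (0 : Ideal (𝓞 K)) := by
    rw [Ideal.zero_eq_bot, Ne, Ideal.span_singleton_eq_bot]
    exact hx
  have h1 : Fintype {c : Ideal (𝓞 K) // c ∣ Ideal.span {x}} :=
    UniqueFactorizationMonoid.fintypeSubtypeDvd _ h
  have h2 : {c : Ideal (𝓞 K) | c ∣ Ideal.span {x}}.Finite := by
    rw [← Set.finite_coe_iff, Set.coe_ofPred]
    exact Finite.of_fintype _
  refine Set.Finite.subset h2 ?_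
  intro c hc
  exact Ideal.dvd_iff_le.2 ((Ideal.span_singleton_le_iff_mem _).2 hc)

end H55N
end

-- from Lib.H55N.H2
section

open NumberField IsDedekindDomain

namespace H55N

open H55B H55C

/-! Chunk H2 (M): the Hecke character on principal ideals.
norm_congr: 𝓞 K is free of finite rank over the principal ideal domain O, so Algebra.intNorm O (𝓞 K) x is
Algebra.norm O x (Algebra.intNorm_eq_norm), the determinant of the matrix of the multiplication by x; if x - y = m t the
entries of the matrices of x and y are congruent modulo m, so are the determinants (apply RingHom.map_det for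
O -> O/(m)). emb_norm: Algebra.algebraMap_intNorm (e = emb o algebraMap).
Psi_span: relNorm (span {x}) = span {intNorm x} (Ideal.relNorm_singleton); intNorm x0 is prime to 3 (relNorm of a coprime pair:
relNorm (span {x0}) is prime to 3, for instance because 1 = x0 r + 3 t gives intNorm x0 * intNorm r = 1 mod 3 by norm_congr);
exists_unit_prim gives eta with eta * intNorm x0 primary, and then eta * intNorm x is primary for all x = x0 mod 3
(norm_congr), so pg (span {intNorm x}) = eta * intNorm x (pg_span, span of a unit multiple). -/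

variable {K : Type} [Field K] [NumberField K] [Algebra F K]


theorem emb_norm (x : 𝓞 K) :
    e (Algebra.intNorm O (𝓞 K) x) = emb (Algebra.norm F (x : K)) := by
  show emb (algebraMap O F (Algebra.intNorm O (𝓞 K) x)) = _
  rw [Algebra.algebraMap_intNorm (A := O) (K := F) (L := K) (B := 𝓞 K)]


/-- The absolute norm of a principal ideal. -/
theorem absNorm_span (x : 𝓞 K) :
    (Ideal.absNorm (Ideal.span {x}) : ℝ) = ‖emb (Algebra.norm F (x : K))‖ ^ 2 := by
  rw [← Ideal.absNorm_relNorm O, Ideal.relNorm_singleton, ← emb_norm]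
  exact Nm_eq _

end H55N
end

-- from Lib.H55N.H15
section

open NumberField IsDedekindDomain

namespace H55N

open H55B H55C

theorem H15_cpow {r : ℝ} (hr : 0 < r) (w : ℂ) : (r : ℂ) ^ w = Complex.exp ((Real.log r : ℂ) * w) := by
  rw [Complex.cpow_def_of_ne_zero (by exact_mod_cast hr.ne'), Complex.ofReal_log hr.le]


end H55N
end

-- from Lib.H55N.H3
section

open NumberField IsDedekindDomain

namespace H55N

open H55B H55C

/-! Chunk H3 (M): absolute convergence. ideal_summable: the number c_n of ideals of norm n has partial sums O(x)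
(Mathlib: Mathlib/NumberTheory/NumberField/Ideal/Asymptotics.lean, tendsto_norm_le_div_atTop and friends, as used in
Mathlib/NumberTheory/NumberField/DedekindZeta.lean), so the sum of c_n n^(-sigma) converges for sigma > 1
(LSeriesSummable_of_sum_norm_bigO_and_nonneg or similar); the sum over the ideals is the iterated sum over the fibres of the norm
(nonnegative terms; the ideal 0 contributes 0 because 0^(-sigma) = 0). tm_summable: |h a| <= N(a)^(1/2), so
|tm h s a| <= N(a)^(1/2 - Re s) (for a = 0 both sides: h 0 = 0). -/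

variable {K : Type} [Field K] [NumberField K]


theorem H3_tendsto : Filter.Tendsto (fun n : ℕ => (∑ k ∈ Finset.Icc 1 n,
    (Nat.card {I : Ideal (𝓞 K) // Ideal.absNorm I = k} : ℝ)) / (n : ℝ)) Filter.atTop
    (nhds (NumberField.dedekindZeta_residue K)) := by
  refine ((Ideal.tendsto_norm_le_div_atTop₀ K).comp tendsto_natCast_atTop_atTop).congr fun n ↦ ?_
  simp only [Function.comp_apply, Nat.cast_le, ← Nat.cast_sum]
  congr
  rw [← add_left_inj 1, ← Ideal.card_norm_le_eq_card_norm_le_add_one,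
    show Finset.Icc 1 n = Finset.Ioc 0 n from Finset.Icc_succ_left_eq_Ioc _ _,
    show 1 = Nat.card {I : Ideal (𝓞 K) // Ideal.absNorm I = 0} by simp [Ideal.absNorm_eq_zero_iff],
    Finset.sum_Ioc_add_eq_sum_Icc (n.zero_le),
    ← Finset.card_preimage_eq_sum_card_image_eq (fun k _ ↦ Ideal.finite_setOfPred_absNorm_eq k)]
  simp [Set.coe_eq_subtype]

theorem ideal_summable (σ : ℝ) (hσ : 1 < σ) :
    Summable (fun a : Ideal (𝓞 K) => (Ideal.absNorm a : ℝ) ^ (-σ)) := by
  have h0 : LSeriesSummable (fun n => (((Nat.card {I : Ideal (𝓞 K) // Ideal.absNorm I = n} : ℕ) : ℝ) : ℂ))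
      (σ : ℂ) := by
    have h1 : 1 < (σ : ℂ).re := by simpa using hσ
    refine LSeriesSummable_of_sum_norm_bigO_and_nonneg (r := 1) ?_ (fun _ => Nat.cast_nonneg _)
      zero_le_one h1
    exact Asymptotics.isBigO_atTop_natCast_rpow_of_tendsto_div_rpow (𝕜 := ℝ) (a := NumberField.dedekindZeta_residue K)
      (by simpa using (H3_tendsto (K := K)))
  have h2 : Summable (fun n : ℕ =>
      ((Nat.card {I : Ideal (𝓞 K) // Ideal.absNorm I = n} : ℕ) : ℝ) * (n : ℝ) ^ (-σ)) := by
    refine (summable_norm_iff.2 h0).congr fun n => ?_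
    rcases Nat.eq_zero_or_pos n with rfl | hn
    · rw [LSeries.term_zero, norm_zero, Nat.cast_zero, Real.zero_rpow (by linarith), mul_zero]
    · rw [LSeries.term_of_ne_zero (by omega), norm_div, Complex.norm_natCast_cpow_of_pos hn,
        Complex.norm_real, Real.norm_of_nonneg (Nat.cast_nonneg _), Complex.ofReal_re,
        Real.rpow_neg (Nat.cast_nonneg _), div_eq_mul_inv]
  rw [← (Equiv.sigmaFiberEquiv (fun a : Ideal (𝓞 K) => Ideal.absNorm a)).summable_iff]
  have h3 : ∀ n : ℕ, Finite {I : Ideal (𝓞 K) // Ideal.absNorm I = n} := fun n =>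
    (Ideal.finite_setOfPred_absNorm_eq n).to_subtype
  rw [summable_sigma_of_nonneg]
  · refine ⟨fun n => Summable.of_finite, h2.congr fun n => ?_⟩
    have := Fintype.ofFinite {I : Ideal (𝓞 K) // Ideal.absNorm I = n}
    rw [tsum_fintype]
    rw [Finset.sum_congr rfl (g := fun _ => (n : ℝ) ^ (-σ))]
    · rw [Finset.sum_const, Finset.card_univ, Nat.card_eq_fintype_card, nsmul_eq_mul]
    · rintro ⟨I, hI⟩ -
      simp only [Function.comp_apply, Equiv.sigmaFiberEquiv_apply]
      rw [hI]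
  · rintro ⟨n, I⟩
    simp only [Function.comp_apply]
    positivity

theorem tm_summable (h : Ideal (𝓞 K) → ℂ) (hh : ∀ a, ‖h a‖ ^ 2 ≤ Ideal.absNorm a) (s : ℂ)
    (hs : 3 / 2 < s.re) : Summable (fun a => ‖tm h s a‖) := by
  refine Summable.of_nonneg_of_le (fun _ => norm_nonneg _) (fun a => ?_)
    (ideal_summable (K := K) (s.re - 1 / 2) (by linarith))
  unfold tm
  rw [norm_mul]
  rcases Nat.eq_zero_or_pos (Ideal.absNorm a) with h0 | h0
  · have h1 := hh a
    rw [h0, Nat.cast_zero] at h1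
    have h2 : ‖h a‖ = 0 := by
      have := norm_nonneg (h a)
      nlinarith
    rw [h2, zero_mul]
    positivity
  · have h1 : ‖h a‖ ≤ (Ideal.absNorm a : ℝ) ^ (1 / 2 : ℝ) := by
      rw [← Real.sqrt_eq_rpow]
      exact Real.le_sqrt_of_sq_le (hh a)
    rw [Complex.norm_natCast_cpow_of_pos h0, Complex.neg_re]
    have h2 : (0 : ℝ) < Ideal.absNorm a := by exact_mod_cast h0
    calc ‖h a‖ * (Ideal.absNorm a : ℝ) ^ (-s.re) ≤
        (Ideal.absNorm a : ℝ) ^ (1 / 2 : ℝ) * (Ideal.absNorm a : ℝ) ^ (-s.re) := by gcongr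
      _ = (Ideal.absNorm a : ℝ) ^ (-(s.re - 1 / 2)) := by
        rw [← Real.rpow_add h2]
        congr 1
        ring

end H55N
end

-- from Lib.H55R.DD
section

/-!
# H55R, part AN: definitions and first lemmas.
-/

open NumberField IsDedekindDomain

namespace H55R

open H55B H55N

section one

variable {K : Type} [Field K] [NumberField K]

/-- The value of the Dirichlet series of h at the real number s. -/
noncomputable def Ls (h : Ideal (𝓞 K) → ℂ) (s : ℝ) : ℂ := ∑' a, tm h s a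

open Classical in
/-- The smoothing weight of the ideal c. -/
noncomputable def wt (c : Ideal (𝓞 K)) (x : 𝓞 K) : ℂ :=
  if x ∈ c then 1 - (Ideal.absNorm c : ℂ) else 1

/-- The absolute value of the norm to F. -/
noncomputable def nn [Algebra F K] (x : 𝓞 K) : ℝ := ‖emb (Algebra.norm F (x : K))‖

theorem dd_two_le (v : Pl K) : 2 ≤ Ideal.absNorm v.asIdeal := by
  have h0 : Ideal.absNorm v.asIdeal ≠ 0 := fun h => v.ne_bot (Ideal.absNorm_eq_zero_iff.1 h)
  have h1 : Ideal.absNorm v.asIdeal ≠ 1 := fun h => v.isPrime.ne_top (Ideal.absNorm_eq_one_iff.1 h)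
  omega

theorem dd_half (v : Pl K) (s : ℝ) (hs : 1 ≤ s) : (Ideal.absNorm v.asIdeal : ℝ) ^ (-s) ≤ 1 / 2 := by
  have h2 : (2 : ℝ) ≤ (Ideal.absNorm v.asIdeal : ℝ) := by exact_mod_cast dd_two_le v
  calc (Ideal.absNorm v.asIdeal : ℝ) ^ (-s) ≤ (Ideal.absNorm v.asIdeal : ℝ) ^ (-1 : ℝ) :=
        Real.rpow_le_rpow_of_exponent_le (by linarith) (by linarith)
    _ = (Ideal.absNorm v.asIdeal : ℝ)⁻¹ := Real.rpow_neg_one _
    _ ≤ 1 / 2 := by
        rw [one_div]
        exact inv_anti₀ (by norm_num) h2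

theorem dd_inj : Function.Injective fun v : Pl K => v.asIdeal := fun _ _ h =>
  HeightOneSpectrum.ext h

theorem dd_summable (s : ℝ) (hs : 1 < s) :
    Summable fun v : Pl K => (Ideal.absNorm v.asIdeal : ℝ) ^ (-s) :=
  (ideal_summable (K := K) s hs).comp_injective dd_inj

theorem dd_norm_tm (h : Ideal (𝓞 K) → ℂ) (s : ℝ) (hs : s ≠ 0) (a : Ideal (𝓞 K)) :
    ‖tm h s a‖ = ‖h a‖ * (Ideal.absNorm a : ℝ) ^ (-s) := by
  unfold tm
  rw [norm_mul, Complex.norm_natCast_cpow_of_re_ne_zero _ (by simpa using hs)]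
  simp

theorem dd_tm_summable (h : Ideal (𝓞 K) → ℂ) (hh : ∀ a, ‖h a‖ ≤ 1) (s : ℝ) (hs : 1 < s) :
    Summable fun a => ‖tm h s a‖ := by
  refine Summable.of_nonneg_of_le (fun _ => norm_nonneg _) (fun a => ?_)
    (ideal_summable (K := K) s hs)
  rw [dd_norm_tm h s (by linarith) a]
  exact mul_le_of_le_one_left (by positivity) (hh a)

theorem dd_norm_pv (φ : Pl K → ℂˣ) (h : ∀ v, ‖(φ v : ℂ)‖ = 1) (a : Ideal (𝓞 K)) :
    ‖(pv φ a : ℂ)‖ = 1 := by
  unfold pv
  have h1 : ∀ s : Multiset ℂˣ, (∀ x ∈ s, ‖(x : ℂ)‖ = 1) → ‖((s.prod : ℂˣ) : ℂ)‖ = 1 := by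
    intro s
    induction s using Multiset.induction_on with
    | empty => simp
    | cons x s ih =>
      intro hx
      rw [Multiset.prod_cons, Units.val_mul, norm_mul, hx x (Multiset.mem_cons_self x s),
        ih fun y hy => hx y (Multiset.mem_cons_of_mem hy), one_mul]
  apply h1
  intro x hx
  rw [Multiset.mem_map] at hx
  obtain ⟨P, -, rfl⟩ := hx
  split_ifs with h2
  · exact h _
  · simp

theorem dd_norm_tI (f : Ideal (𝓞 K)) (φ : Pl K → ℂˣ) (h : ∀ v, ‖(φ v : ℂ)‖ = 1)
    (a : Ideal (𝓞 K)) : ‖tI f φ a‖ ≤ 1 := by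
  by_cases h0 : a ≠ ⊥ ∧ IsCoprime a f
  · rw [tI_apply f φ h0.1 h0.2, dd_norm_pv φ h a]
  · have : tI f φ a = 0 := if_neg h0
    rw [this, norm_zero]
    exact zero_le_one

theorem dd_norm_Y (Y : Subgroup (Pl K → ℂˣ)) [Finite Y] (φ : Pl K → ℂˣ) (hφ : φ ∈ Y) (v : Pl K) :
    ‖(φ v : ℂ)‖ = 1 := by
  have h1 : (⟨φ, hφ⟩ : Y) ^ Nat.card Y = 1 := pow_card_eq_one'
  have h2 : φ ^ Nat.card Y = 1 := congrArg Subtype.val h1
  have h3 : (φ v : ℂ) ^ Nat.card Y = 1 := by
    have := congrFun h2 v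
    rw [Pi.pow_apply, Pi.one_apply] at this
    have h4 := congrArg (Units.val) this
    simpa using h4
  exact Complex.norm_eq_one_of_pow_eq_one h3 Nat.card_pos.ne'

/-- The value at an ideal all of whose primes have value 1. -/
theorem dd_pv_eq_one (φ : Pl K → ℂˣ) (a : Ideal (𝓞 K))
    (h : ∀ v : Pl K, a ≤ v.asIdeal → φ v = 1) : pv φ a = 1 := by
  unfold pv
  refine Multiset.prod_eq_one fun x hx => ?_
  rw [Multiset.mem_map] at hx
  obtain ⟨P, hP, rfl⟩ := hx
  split_ifs with h2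
  · exact h _ (Ideal.dvd_iff_le.1 (UniqueFactorizationMonoid.dvd_of_mem_normalizedFactors hP))
  · rfl

end one

end H55R
end

-- from Lib.H55R.D10
section

open NumberField IsDedekindDomain

namespace H55R

open H55B H55N

open Classical in
/-- Chunk RD10 (S/M), the terms of a class. kappa = pv phi (c₀) / pv phi b. Let x in XS, a b = (x). x <> 0 and c₀ <> 0, and both (x) and (c₀) are coprime to (3) f: (x) = a b with b coprime to (6) f
and a coprime to (3) f: if a and (3) f were contained in a prime w, then x in w b, and x - c₀ in 3 f b <= w b gives c₀ in w b, against hp (the same for c₀ = b d; there is such a prime w because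
3 is not a unit of 𝓞 K; see H13_three, H13_prime, H13_ex in H55N/H13.lean). x - c₀ in (3) f b <= f, so
pv phi (x) = pv phi (c₀) (second part of RC) and pv phi a * pv phi b = pv phi (x) (pv_mul), tI (3f) phi a = pv phi a = kappa (tI_apply). absNorm a * absNorm b =
absNorm (x) = nn x ^ 2 (H55N.absNorm_span), all positive, so (absNorm a)^(-s) = (absNorm b)^s * nn x ^ (-2 s) (real powers; the complex power of a natural number with real exponent is the real power:
Complex.ofReal_cpow). Weights: a <= c iff x in c: x in c gives a b <= c, c is prime and b is not <= c (b + c = 1, c <> 1); conversely x in a b <= a <= c. -/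
theorem term_class {K : Type} [Field K] [NumberField K] [Algebra F K] (f b : Ideal (𝓞 K))
    (hf : f ≠ ⊥) (hb : b ≠ ⊥) (φ : Pl K → ℂˣ) (hφ : φ ∈ RC f)
    (hbf : IsCoprime b (Ideal.span {6} * f)) (c₀ : 𝓞 K) (hc : c₀ ∈ b)
    (hp : ∀ w : HeightOneSpectrum (𝓞 K), Ideal.span {3} * f ≤ w.asIdeal → c₀ ∉ w.asIdeal * b) :
    ∃ κ : ℂ, ∀ c : Pl K, IsCoprime b c.asIdeal → ∀ x ∈ XS (Ideal.span {3} * f * b) c₀,
      ∀ a : Ideal (𝓞 K), a * b = Ideal.span {x} → ∀ s : ℝ,
        tm (tI (Ideal.span {3} * f) φ) s a *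
            (if a ≤ c.asIdeal then 1 - (Ideal.absNorm c.asIdeal : ℂ) else 1) =
          κ * (((Ideal.absNorm b : ℝ) ^ s : ℝ) : ℂ) *
            (wt c.asIdeal x * ((nn x ^ (-2 * s) : ℝ) : ℂ)) := by
  classical
  have key : ∀ x ∈ XS (Ideal.span {3} * f * b) c₀, ∀ w : HeightOneSpectrum (𝓞 K),
      Ideal.span {3} * f ≤ w.asIdeal → x ∉ w.asIdeal * b := by
    intro x hx w hw hxw
    have h1 : x - c₀ ∈ Ideal.span {3} * f * b := hx
    apply hp w hw
    have h2 : x - c₀ ∈ w.asIdeal * b := Ideal.mul_mono_left hw h1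
    have h3 := Ideal.sub_mem _ hxw h2
    rwa [sub_sub_cancel] at h3
  have hc₀XS : c₀ ∈ XS (Ideal.span {3} * f * b) c₀ := by
    show c₀ - c₀ ∈ Ideal.span {3} * f * b
    rw [sub_self]
    exact Ideal.zero_mem _
  have hne : ∀ x ∈ XS (Ideal.span {3} * f * b) c₀, x ≠ 0 := by
    rintro x hx rfl
    obtain ⟨w, hw⟩ := H13_prime (K := K)
    exact key 0 hx w (Ideal.mul_le_left.trans hw) (Ideal.zero_mem _)
  have hcop : ∀ x ∈ XS (Ideal.span {3} * f * b) c₀, ∀ a : Ideal (𝓞 K),
      a * b = Ideal.span {x} → a ≠ ⊥ ∧ IsCoprime a (Ideal.span {3} * f) := by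
    intro x hx a hab
    have ha0 : a ≠ ⊥ := by
      rintro rfl
      apply hne x hx
      rw [← Ideal.span_singleton_eq_bot, ← hab]
      exact zero_mul b
    refine ⟨ha0, ?_⟩
    by_contra hc'
    rw [Ideal.isCoprime_iff_sup_eq] at hc'
    obtain ⟨M, hM, hM2⟩ := Ideal.exists_le_maximal _ hc'
    have hM0 : M ≠ ⊥ := by
      rintro rfl
      exact ha0 (le_bot_iff.1 (le_sup_left.trans hM2))
    refine key x hx ⟨M, hM.isPrime, hM0⟩ (le_sup_right.trans hM2) ?_
    have h4 : x ∈ a * b := by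
      rw [hab]
      exact Ideal.mem_span_singleton_self x
    exact Ideal.mul_mono_left (le_sup_left.trans hM2) h4
  have hbf' : IsCoprime b f := hbf.of_mul_right_right
  refine ⟨(pv φ (Ideal.span {c₀}) : ℂ) * ((pv φ b : ℂ))⁻¹, fun c hbc x hx a hab s => ?_⟩
  obtain ⟨ha0, hac⟩ := hcop x hx a hab
  have hx0 := hne x hx
  have hc0 := hne c₀ hc₀XS
  have hxf : IsCoprime (Ideal.span {x}) f := by
    rw [← hab]
    exact hac.of_mul_right_right.mul_left hbf'
  have hxc : x - c₀ ∈ f := by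
    have h1 : x - c₀ ∈ Ideal.span {3} * f * b := hx
    exact Ideal.mul_le_right (Ideal.mul_le_left h1)
  have hpv : pv φ a * pv φ b = pv φ (Ideal.span {c₀}) := by
    rw [← pv_mul φ ha0 hb, hab]
    exact hφ.2 x c₀ hx0 hc0 hxf hxc
  have hpva : ((pv φ a : ℂˣ) : ℂ) = (pv φ (Ideal.span {c₀}) : ℂ) * ((pv φ b : ℂ))⁻¹ := by
    rw [← hpv, Units.val_mul, mul_assoc, mul_inv_cancel₀ (pv φ b).ne_zero, mul_one]
  -- norms
  have hNa : (0 : ℝ) < Ideal.absNorm a := by
    have : Ideal.absNorm a ≠ 0 := fun h => ha0 (Ideal.absNorm_eq_zero_iff.1 h)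
    exact_mod_cast Nat.pos_of_ne_zero this
  have hNb : (0 : ℝ) < Ideal.absNorm b := by
    have : Ideal.absNorm b ≠ 0 := fun h => hb (Ideal.absNorm_eq_zero_iff.1 h)
    exact_mod_cast Nat.pos_of_ne_zero this
  have hNab : (Ideal.absNorm a : ℝ) * Ideal.absNorm b = nn x ^ 2 := by
    unfold nn
    rw [← H55N.absNorm_span, ← hab, map_mul, Nat.cast_mul]
  have hnn0 : 0 ≤ nn x := norm_nonneg _
  have hpow : (Ideal.absNorm a : ℝ) ^ (-s) = (Ideal.absNorm b : ℝ) ^ s * nn x ^ (-2 * s) := by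
    have h1 : nn x ^ (-2 * s) = (nn x ^ 2) ^ (-s) := by
      rw [← Real.rpow_natCast, ← Real.rpow_mul hnn0]
      congr 1
      push_cast
      ring
    rw [h1, ← hNab, Real.mul_rpow hNa.le hNb.le, mul_comm ((Ideal.absNorm a : ℝ) ^ (-s)),
      ← mul_assoc, ← Real.rpow_add hNb, add_neg_cancel, Real.rpow_zero, one_mul]
  have htm : tm (tI (Ideal.span {3} * f) φ) s a = (pv φ (Ideal.span {c₀}) : ℂ) * ((pv φ b : ℂ))⁻¹ *
      (((Ideal.absNorm b : ℝ) ^ s : ℝ) : ℂ) * ((nn x ^ (-2 * s) : ℝ) : ℂ) := by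
    unfold tm
    rw [tI_apply _ φ ha0 hac, hpva]
    have h1 : (Ideal.absNorm a : ℂ) ^ (-(s : ℂ)) = (((Ideal.absNorm a : ℝ) ^ (-s) : ℝ) : ℂ) := by
      rw [Complex.ofReal_cpow hNa.le]
      push_cast
      rfl
    rw [h1, hpow]
    push_cast
    ring
  have hwt : wt c.asIdeal x = if a ≤ c.asIdeal then 1 - (Ideal.absNorm c.asIdeal : ℂ) else 1 := by
    unfold wt
    have h1 : x ∈ c.asIdeal ↔ a ≤ c.asIdeal := by
      constructor
      · intro h
        have h2 : a * b ≤ c.asIdeal := by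
          rw [hab, Ideal.span_singleton_le_iff_mem]
          exact h
        rcases c.isPrime.mul_le.1 h2 with h3 | h3
        · exact h3
        · exfalso
          rw [Ideal.isCoprime_iff_sup_eq, sup_eq_right.2 h3] at hbc
          exact c.isPrime.ne_top hbc
      · intro h
        have h2 : x ∈ a * b := by
          rw [hab]
          exact Ideal.mem_span_singleton_self x
        exact h (Ideal.mul_le_left h2)
    simp only [h1]
  rw [htm, hwt]
  ring

end H55R
end

-- from Lib.H55B.E2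
section

open NumberField IsDedekindDomain

namespace H55B

/-! Chunk E2: the Jacobi sum is minus a power of the primary generator.
J = J(chi, chi). (i) exists_jacobiSum_eq_neg_one_add with n = 3, mu = om: J = -1 + z (om - 1)^2 and
(om-1)^2 = -3 om, so -J is primary. (ii) J * cj J = q: jacobiSum_mul_jacobiSum_inv in the fraction field F
(char 0), chi^2 = chi^(-1) <> 1, cj J = J(chi^-1, chi^-1). (iii) phi J = sum x^m (1-x)^m = 0, m = (q-1)/3,
since 2m < q - 1 (FiniteField.sum_pow_lt_card_sub_one), so gen v | J. (iv) phi (cj J) =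
sum x^(2m)(1-x)^(2m) = -(-1)^m binom(2m, m) (only the power x^(3m) = x^(q-1) contributes).
Let g0 = gen v, N = Nm g0 = g0 cj g0 = absNorm v, q = N^f, J (cj J) = g0^f (cj g0)^f. If cj g0 is associated
to g0, then J is associated to a power of g0, norms give J ~ g0^f. Otherwise N = p is a rational prime,
p = 1 mod 3 (N <> 3; if N is not prime then v is inert and cj g0 ~ g0), J ~ g0^i (cj g0)^j, i + j = f, and
cj g0 does not divide J: else g0 | cj J, phi(cj J) = 0, so p | binom(2m, m), contradicting E0. So J ~ g0^f.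
Both -J and g0^f are primary, so -J = g0^f. -/

theorem E2_sum_pow (k : Type*) [Field k] [Fintype k] {m : ℕ} (hm : Fintype.card k - 1 = 3 * m)
    (hm0 : 0 < m) (i : ℕ) (hi : i ≤ 4 * m) :
    ∑ x : k, x ^ i = if i = 3 * m then -1 else 0 := by
  classical
  rcases lt_trichotomy i (3 * m) with h | h | h
  · rw [if_neg h.ne, FiniteField.sum_pow_lt_card_sub_one k i (by rw [hm]; exact h)]
  · rw [if_pos h]
    have h1 : ∀ x : k, x ^ i = 1 - (if x = 0 then 1 else 0) := by
      intro x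
      by_cases hx : x = 0
      · rw [hx, if_pos rfl, sub_self, zero_pow (by omega)]
      · rw [if_neg hx, sub_zero, h, ← hm, FiniteField.pow_card_sub_one_eq_one x hx]
    simp only [h1, Finset.sum_sub_distrib, Finset.sum_ite_eq', Finset.mem_univ, if_true,
      Finset.sum_const, Finset.card_univ, nsmul_eq_mul, mul_one, FiniteField.cast_card_eq_zero,
      zero_sub]
  · rw [if_neg h.ne']
    have h1 : ∀ x : k, x ^ i = x ^ (i - 3 * m) := by
      intro x
      by_cases hx : x = 0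
      · rw [hx, zero_pow (by omega), zero_pow (by omega)]
      · have h2 : x ^ i = x ^ (3 * m) * x ^ (i - 3 * m) := by
          rw [← pow_add]
          congr 1
          omega
        rw [h2, ← hm, FiniteField.pow_card_sub_one_eq_one x hx, one_mul]
    simp only [h1]
    exact FiniteField.sum_pow_lt_card_sub_one k _ (by omega)

open Polynomial in
theorem E2_sum_poly (k : Type*) [Field k] [Fintype k] {m : ℕ} (hm : Fintype.card k - 1 = 3 * m)
    (hm0 : 0 < m) (P : k[X]) (hP : P.natDegree ≤ 4 * m) :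
    ∑ x : k, P.eval x = - P.coeff (3 * m) := by
  have h1 : ∀ x : k, P.eval x = ∑ i ∈ Finset.range (4 * m + 1), P.coeff i * x ^ i := fun x =>
    Polynomial.eval_eq_sum_range' (by omega) x
  simp only [h1]
  rw [Finset.sum_comm]
  have h2 : ∀ i ∈ Finset.range (4 * m + 1), ∑ x : k, P.coeff i * x ^ i =
      if i = 3 * m then - P.coeff i else 0 := by
    intro i hi
    rw [← Finset.mul_sum, E2_sum_pow k hm hm0 i (by have := Finset.mem_range.mp hi; omega)]
    split_ifs <;> simp
  rw [Finset.sum_congr rfl h2, Finset.sum_ite_eq' (Finset.range (4 * m + 1)) (3 * m),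
    if_pos (by rw [Finset.mem_range]; omega)]


open Polynomial in
theorem E2_sum2 (k : Type*) [Field k] [Fintype k] {m : ℕ} (hm : Fintype.card k - 1 = 3 * m)
    (hm0 : 0 < m) : ∑ x : k, x ^ (2 * m) * (1 - x) ^ (2 * m) =
      - ((-1) ^ m * (Nat.choose (2 * m) m : k)) := by
  have hX : ((1 - X) ^ (2 * m) : k[X]) = (X + C (-1)) ^ (2 * m) := by
    rw [map_neg, map_one, ← sub_eq_add_neg, ← neg_sub, neg_pow, pow_mul, neg_one_sq, one_pow,
      one_mul]
  have hdeg : (X ^ (2 * m) * (1 - X) ^ (2 * m) : k[X]).natDegree ≤ 4 * m := by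
    have h1 : (1 - X : k[X]).natDegree ≤ 1 :=
      (natDegree_sub_le _ _).trans (by simp)
    refine (natDegree_mul_le).trans ?_
    have h2 := natDegree_pow_le_of_le (2 * m) h1
    have h3 : (X ^ (2 * m) : k[X]).natDegree ≤ 2 * m := by simp
    omega
  have h := E2_sum_poly k hm hm0 (X ^ (2 * m) * (1 - X) ^ (2 * m)) (by omega)
  have hc : (X ^ (2 * m) * (1 - X) ^ (2 * m) : k[X]).coeff (3 * m) =
      (-1) ^ m * (Nat.choose (2 * m) m : k) := by
    have h3 : 3 * m = m + 2 * m := by ring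
    rw [hX, h3, coeff_X_pow_mul, coeff_X_add_C_pow]
    congr 2
    omega
  rw [hc] at h
  simpa using h

theorem E2_om_prim : IsPrimitiveRoot om 3 := zeta_spec.toInteger_isPrimitiveRoot

/-- the Jacobi sum is congruent to -1 modulo 3 -/
theorem E2_prim (k : Type*) [Field k] [Fintype k] (χ : MulChar k O) (hχ3 : χ ^ 3 = 1)
    (h3c : 3 ∣ Fintype.card k - 1) : Prim (-jacobiSum χ χ) := by
  classical
  obtain ⟨z, -, hz⟩ := exists_jacobiSum_eq_neg_one_add (n := 3) (by norm_num) hχ3 hχ3 h3c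
    E2_om_prim
  refine ⟨z * om, ?_⟩
  rw [hz]
  linear_combination (-z) * om_rel

/-- the square of the absolute value of the Jacobi sum -/
theorem E2_abs (k : Type*) [Field k] [Fintype k] (χ : MulChar k O) (hχ3 : χ ^ 3 = 1) (hχ : χ ≠ 1)
    (hcj : ∀ x : k, cj (χ x) = χ x ^ 2) :
    jacobiSum χ χ * cj (jacobiSum χ χ) = (Fintype.card k : O) := by
  classical
  have hinv : χ⁻¹ = χ ^ 2 := by
    rw [inv_eq_iff_mul_eq_one, ← pow_succ', hχ3]
  have hcjJ : cj (jacobiSum χ χ) = jacobiSum χ⁻¹ χ⁻¹ := by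
    unfold jacobiSum
    rw [map_sum]
    apply Finset.sum_congr rfl
    intro x _
    rw [map_mul, hcj, hcj, hinv]
    simp [MulChar.pow_apply' χ (two_ne_zero)]
  rw [hcjJ]
  have hinj : Function.Injective (algebraMap O F) := FaithfulSMul.algebraMap_injective O F
  set ψ : MulChar k F := χ.ringHomComp (algebraMap O F) with hψ
  have hψ1 : ψ ≠ 1 := by
    rw [hψ]
    exact (MulChar.ringHomComp_ne_one_iff hinj).mpr hχ
  have hψψ : ψ * ψ ≠ 1 := by
    intro h
    apply hψ1
    have h3 : ψ ^ 3 = 1 := by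
      rw [hψ, MulChar.ringHomComp_pow, hχ3]
      exact MulChar.ringHomComp_one _
    calc ψ = ψ ^ 3 * (ψ * ψ)⁻¹ := by group
      _ = 1 := by rw [h3, h]; simp
  have hchar : ringChar F ≠ ringChar k := by
    rw [ringChar.eq F 0]
    exact (CharP.char_ne_zero_of_finite k (ringChar k)).symm
  have h := jacobiSum_mul_jacobiSum_inv hchar hψ1 hψ1 hψψ
  have hψinv : ψ⁻¹ = (χ⁻¹).ringHomComp (algebraMap O F) := by
    rw [hψ, MulChar.ringHomComp_inv]
  rw [hψinv, hψ, jacobiSum_ringHomComp, jacobiSum_ringHomComp, ← map_mul] at h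
  apply hinj
  rw [h, map_natCast]

theorem E2_Nm_cj (x : O) : Nm (cj x) = Nm x := by
  have h1 := mul_cj x
  have h2 := mul_cj (cj x)
  rw [cj_cj, mul_comm, h1] at h2
  exact_mod_cast h2.symm

theorem neg_jacobi (v : HeightOneSpectrum O) (h3 : (3 : O) ∉ v.asIdeal) (k : Type*) [Field k]
    [Fintype k] (φ : O →+* k) (hker : RingHom.ker φ = v.asIdeal) (f : ℕ) (hf : 0 < f)
    (hq : Fintype.card k = Ideal.absNorm v.asIdeal ^ f) (χ : MulChar k O) (hχ3 : χ ^ 3 = 1) (hχ : χ ≠ 1)
    (h3c : 3 ∣ Fintype.card k - 1)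
    (hφ : ∀ x : k, φ (χ x) = x ^ ((Fintype.card k - 1) / 3)) (hcj : ∀ x : k, cj (χ x) = χ x ^ 2) :
    -jacobiSum χ χ = gen v ^ f := by
  classical
  obtain ⟨m, hm⟩ := h3c
  have hmdiv : (Fintype.card k - 1) / 3 = m := by omega
  rw [hmdiv] at hφ
  have hcard2 : 1 < Fintype.card k := Fintype.one_lt_card
  have hm0 : 0 < m := by omega
  set J := jacobiSum χ χ with hJ
  have hJabs : J * cj J = (Fintype.card k : O) := E2_abs k χ hχ3 hχ hcj
  set g0 := gen v with hg0
  have hg0p : Prime g0 := gen_prime v h3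
  have hN : Ideal.absNorm v.asIdeal = Nm g0 := absNorm_gen v h3
  have hg0N : g0 * cj g0 = (Nm g0 : O) := mul_cj g0
  have hprod : J * cj J = g0 ^ f * cj g0 ^ f := by
    rw [hJabs, hq, hN, ← mul_pow, hg0N]
    push_cast
    rfl
  have hNg1 : 1 < Nm g0 := by
    have h0 : Nm g0 ≠ 0 := fun h => hg0p.ne_zero (Nm_eq_zero.mp h)
    have h1 : Nm g0 ≠ 1 := fun h => hg0p.not_isUnit (Nm_eq_one.mp h)
    omega
  have hNJ : Nm J = Nm g0 ^ f := by
    have h1 : Nm (J * cj J) = Nm (g0 ^ f * cj g0 ^ f) := by rw [hprod]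
    have hpow : ∀ (x : O) (n : ℕ), Nm (x ^ n) = Nm x ^ n := by
      intro x n
      induction n with
      | zero =>
        rw [pow_zero, pow_zero]
        exact Nm_eq_one.mpr isUnit_one
      | succ n ih => rw [pow_succ, Nm_mul, ih, pow_succ]
    rw [Nm_mul, Nm_mul, E2_Nm_cj, hpow, hpow, E2_Nm_cj] at h1
    exact Nat.mul_self_inj.mp h1
  have hNpow : ∀ (x : O) (n : ℕ), Nm (x ^ n) = Nm x ^ n := by
    intro x n
    induction n with
    | zero =>
      rw [pow_zero, pow_zero]
      exact Nm_eq_one.mpr isUnit_one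
    | succ n ih => rw [pow_succ, Nm_mul, ih, pow_succ]
  have hNass : ∀ x y : O, Associated x y → Nm x = Nm y := by
    rintro x y ⟨u, rfl⟩
    rw [Nm_mul, Nm_eq_one.mpr u.isUnit, mul_one]
  -- it suffices that `J` divides a power of `g0`
  suffices hdiv : ∃ n : ℕ, J ∣ g0 ^ n by
    obtain ⟨n, hn⟩ := hdiv
    obtain ⟨i, -, hi⟩ := (dvd_prime_pow hg0p n).mp hn
    have hif : i = f := by
      have h1 := hNass _ _ hi
      rw [hNJ, hNpow] at h1
      exact (Nat.pow_right_injective hNg1 h1).symm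
    rw [hif] at hi
    have hpr : Prim (g0 ^ f) := by
      have hgp : Prim g0 := (gen_spec v h3).2
      clear hf hq hprod hNJ hi hif
      induction f with
      | zero => rw [pow_zero]; exact prim_one
      | succ f ih => rw [pow_succ]; exact ih.mul hgp
    exact Prim.eq_of_associated (E2_prim k χ hχ3 ⟨m, hm⟩) hpr
      ((Associated.neg_left (Associated.refl J)).trans hi)
  by_cases hass : Associated g0 (cj g0)
  · refine ⟨2 * f, ?_⟩
    have h1 : J ∣ g0 ^ f * cj g0 ^ f := ⟨cj J, hprod.symm⟩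
    have h2 : Associated (g0 ^ f * cj g0 ^ f) (g0 ^ (2 * f)) := by
      rw [two_mul, pow_add]
      exact (Associated.refl _).mul_mul (hass.symm.pow_pow)
    exact (h2.dvd_iff_dvd_right).mp h1
  · refine ⟨f, ?_⟩
    have hcp : Prime (cj g0) := by
      exact (MulEquiv.prime_iff (cj : O ≃* O)).mpr hg0p
    have hnd : ¬ cj g0 ∣ J := by
      intro hdvd
      have h1 : g0 ∣ cj J := by
        obtain ⟨y, hy⟩ := hdvd
        refine ⟨cj y, ?_⟩
        rw [hy, map_mul, cj_cj]
      have h2 : φ (cj J) = 0 := by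
        rw [← RingHom.mem_ker, hker, ← gen_dvd_iff v h3]
        exact h1
      have h4 : φ (cj J) = ∑ x : k, x ^ (2 * m) * (1 - x) ^ (2 * m) := by
        rw [hJ]
        unfold jacobiSum
        rw [map_sum, map_sum]
        apply Finset.sum_congr rfl
        intro x _
        rw [map_mul, map_mul, hcj, hcj, map_pow, map_pow, hφ, hφ, ← pow_mul, ← pow_mul, mul_comm m 2]
      rw [h4, E2_sum2 k hm hm0, neg_eq_zero, mul_eq_zero] at h2
      have h5 : ((Nat.choose (2 * m) m : ℕ) : k) = 0 := by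
        rcases h2 with h2 | h2
        · exact absurd h2 (pow_ne_zero _ (by norm_num))
        · exact h2
      -- the characteristic
      set p := ringChar k with hp
      have hpp : p.Prime := CharP.char_is_prime k p
      have hpc : p ∣ Nat.choose (2 * m) m := (ringChar.spec k _).mp h5
      have hgp : g0 ∣ (p : O) := by
        rw [gen_dvd_iff v h3, ← hker, RingHom.mem_ker, map_natCast]
        exact ringChar.Nat.cast_ringChar
      have hNp : Nm (p : O) = p ^ 2 := by
        have h6 := mul_cj (p : O)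
        rw [map_natCast] at h6
        have h7 : ((p * p : ℕ) : O) = ((Nm (p : O) : ℕ) : O) := by
          push_cast
          exact h6
        rw [pow_two]
        exact_mod_cast h7.symm
      have hNg : Nm g0 = p := by
        obtain ⟨h, hh⟩ := hgp
        have h6 : Nm g0 * Nm h = p ^ 2 := by rw [← Nm_mul, ← hh, hNp]
        have h7 : Nm g0 ∣ p ^ 2 := ⟨_, h6.symm⟩
        obtain ⟨i, hi, hi2⟩ := (Nat.dvd_prime_pow hpp).mp h7
        interval_cases i
        · rw [pow_zero] at hi2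
          omega
        · rw [pow_one] at hi2
          exact hi2
        · exfalso
          rw [hi2] at h6
          have h8 : Nm h = 1 := by
            have : 0 < p ^ 2 := pow_pos hpp.pos 2
            exact Nat.eq_of_mul_eq_mul_left this (by rw [h6, mul_one])
          have h9 : IsUnit h := Nm_eq_one.mp h8
          have h10 : Associated g0 (p : O) := by
            rw [hh]
            obtain ⟨u, hu⟩ := h9
            exact ⟨u, by rw [hu]⟩
          apply hass
          refine h10.trans ?_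
          have h11 : Associated (cj g0) (cj (p : O)) := by
            obtain ⟨u, hu⟩ := h10
            refine ⟨Units.map (cj : O →* O) u, ?_⟩
            rw [← hu, map_mul]
            rfl
          rw [map_natCast] at h11
          exact h11.symm
      have hp3 : p % 3 = 1 := by
        obtain ⟨y, hy⟩ := (gen_spec v h3).2
        have h6 : (3 : O) ∣ (p : O) - 1 := by
          rw [← hNg, ← hg0N]
          refine ⟨y * cj g0 + cj y, ?_⟩
          have h7 : cj g0 - 1 = 3 * cj y := by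
            have := congrArg cj hy
            rw [map_sub, map_one, map_mul] at this
            rw [hg0, this]
            congr 1
            exact map_ofNat cj 3
          have h8 : g0 - 1 = 3 * y := hy
          linear_combination cj g0 * h8 + h7
        obtain ⟨w, hw⟩ := h6
        obtain ⟨a, b, rfl⟩ := exists_repr w
        have h7 : (((p : ℤ) - 1 : ℤ) : O) + ((0 : ℤ) : O) * om = ((3 * a : ℤ) : O) + ((3 * b : ℤ) : O) * om := by
          push_cast
          linear_combination hw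
        have h8 := (repr_unique h7).1
        omega
      have hcardp : Fintype.card k = p ^ f := by rw [hq, hN, hNg]
      have h6 := choose_not_dvd p hpp hp3 f
      rw [← hcardp, hmdiv] at h6
      exact h6 hpc
    have hco : IsCoprime J (cj g0 ^ f) := by
      apply IsCoprime.pow_right
      exact ((Prime.irreducible hcp).coprime_iff_not_dvd.mpr hnd).symm
    exact hco.dvd_of_dvd_mul_right ⟨cj J, hprod.symm⟩

end H55B
end

-- from Lib.H55B.E3
section

open NumberField IsDedekindDomain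

namespace H55B

/-! Chunk E3: the number of points, and its parity.
pts: exists_chi and neg_jacobi, apply e. odd_norm: take k = O/v, f = 1: the number of affine points is
Nm v - 2 Re e(gen v), and Nm(x - 1) = Nm x - 2 Re e x + 1, so 1 + (number of affine points) = Nm(gen v - 1).
The involution (x, y) -> (x, -1-y) has fixed points only if 2y + 1 = 0, i.e. 4x^3 + 1 = (2y+1)^2 = 0, i.e.
(-2x)^3 = 2 in O/v. -/

theorem pts (v : HeightOneSpectrum O) (h3 : (3 : O) ∉ v.asIdeal) (k : Type*) [Field k] [Finite k]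
    (φ : O →+* k) (hker : RingHom.ker φ = v.asIdeal) (f : ℕ) (hf : 0 < f)
    (hq : Nat.card k = Ideal.absNorm v.asIdeal ^ f) :
    (Nat.card {p : k × k // p.2 ^ 2 + p.2 = p.1 ^ 3} : ℂ) =
      (Ideal.absNorm v.asIdeal : ℂ) ^ f - (e (gen v) ^ f + (starRingEnd ℂ) (e (gen v)) ^ f) := by
  have := Fintype.ofFinite k
  rw [Nat.card_eq_fintype_card] at hq
  have hφ3 : φ 3 ≠ 0 := by
    intro h
    apply h3
    rw [← hker]
    exact h
  obtain ⟨χ, hχ3, hχ, h3c, hφ, hcj, hN⟩ := exists_chi k φ hφ3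
  have hJ := neg_jacobi v h3 k φ hker f hf hq χ hχ3 hχ h3c hφ hcj
  have hJ' : jacobiSum χ χ = -gen v ^ f := by rw [← hJ, neg_neg]
  rw [hJ'] at hN
  have h := congrArg e hN
  simp only [map_natCast, map_add, map_neg, map_pow, e_cj] at h
  rw [h, hq]
  push_cast
  ring

/-- The norm form again: product of gen v and its conjugate. -/
theorem gen_mul_conj (v : HeightOneSpectrum O) (h3 : (3 : O) ∉ v.asIdeal) :
    e (gen v) * (starRingEnd ℂ) (e (gen v)) = (Ideal.absNorm v.asIdeal : ℂ) := by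
  rw [← e_cj, ← map_mul, mul_cj, map_natCast, absNorm_gen v h3]


end H55B
end

-- from Lib.H55B.F4
section

open NumberField IsDedekindDomain

namespace H55B

/-! Chunk F4: the local polynomials of E27 over K (containing the third roots of unity).
E27 base changed to K and then to the completion is (0,0,1,0,0). loc_good: 3 is a unit of R_w; F1 with
k_w = residue field, card = absNorm w = (absNorm v)^f, f = inertia degree, phi = O -> O_K -> k_w, kernel v;
E3.pts and gen_mul_conj: 1 - (q - N) X + q X^2 = (1 - pi^f X)(1 - conj(pi)^f X). loc_bad: F2 with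
valuation_compl: v(27) = exp(-6), and every nonzero value is exp(n) (n integer), 12 n <> -6. -/

theorem absNorm_inertia (K : Type*) [Field K] [NumberField K] [Algebra F K]
    (w : HeightOneSpectrum (𝓞 K)) (v : HeightOneSpectrum O) (hv : v.asIdeal = w.asIdeal.under O) :
    Ideal.absNorm w.asIdeal = Ideal.absNorm v.asIdeal ^ (w.asIdeal.inertiaDeg O) := by
  have hlies : w.asIdeal.LiesOver v.asIdeal := ⟨hv⟩
  have hmax : v.asIdeal.IsMaximal := v.isMaximal
  rw [Ideal.inertiaDeg_eq_of_isMaximal v.asIdeal w.asIdeal]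
  have h := Ideal.absNorm_eq_pow_inertiaDeg'_of_liesOver w.asIdeal v.asIdeal v.isPrime v.ne_bot
  rw [Ideal.inertiaDeg'_algebraMap] at h
  exact h

theorem F4_curve (K : Type*) [Field K] [NumberField K] [Algebra F K] (w : HeightOneSpectrum (𝓞 K)) :
    (E27.baseChange K).baseChange (w.adicCompletion K) = ⟨0, 0, 1, 0, 0⟩ := by
  ext <;> simp [E27, WeierstrassCurve.baseChange]

theorem F4_unit (K : Type*) [Field K] [NumberField K] [Algebra F K] (w : HeightOneSpectrum (𝓞 K))
    (h3 : (3 : 𝓞 K) ∉ w.asIdeal) : IsUnit (3 : w.adicCompletionIntegers K) := by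
  rw [← residue_ker K w, RingHom.mem_ker, RingHom.comp_apply, map_ofNat] at h3
  by_contra hcon
  apply h3
  rw [IsLocalRing.residue_eq_zero_iff, IsLocalRing.mem_maximalIdeal]
  exact hcon

open Polynomial in
theorem loc_good (K : Type*) [Field K] [NumberField K] [Algebra F K] (w : HeightOneSpectrum (𝓞 K))
    (h3 : (3 : 𝓞 K) ∉ w.asIdeal) (v : HeightOneSpectrum O) (hv : v.asIdeal = w.asIdeal.under O) :
    ((((E27.baseChange K).baseChange (w.adicCompletion K)).localPolynomial
      (w.adicCompletionIntegers K)).map (Int.castRingHom ℂ)) =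
      (1 - C (e (gen v) ^ (w.asIdeal.inertiaDeg O)) * X) *
      (1 - C ((starRingEnd ℂ) (e (gen v)) ^ (w.asIdeal.inertiaDeg O)) * X) := by
  have hlies : w.asIdeal.LiesOver v.asIdeal := ⟨hv⟩
  have hmax : v.asIdeal.IsMaximal := v.isMaximal
  obtain ⟨hfin, hcard⟩ := residue_card K w
  rw [F4_curve, good_local (w.adicCompletionIntegers K) (w.adicCompletion K) (F4_unit K w h3)]
  set f := w.asIdeal.inertiaDeg O with hf
  have hf0 : 0 < f := by
    rw [hf, Ideal.inertiaDeg_eq_of_isMaximal v.asIdeal w.asIdeal,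
      ← Ideal.inertiaDeg'_algebraMap]
    exact Ideal.inertiaDeg'_pos v.asIdeal w.asIdeal
  have h3v : (3 : O) ∉ v.asIdeal := by
    intro h
    apply h3
    rw [hv, Ideal.mem_comap, map_ofNat] at h
    exact h
  set φ : O →+* IsLocalRing.ResidueField (w.adicCompletionIntegers K) :=
    ((IsLocalRing.residue (w.adicCompletionIntegers K)).comp
      (algebraMap (𝓞 K) (w.adicCompletionIntegers K))).comp (algebraMap O (𝓞 K)) with hφ
  have hker : RingHom.ker φ = v.asIdeal := by
    rw [hv]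
    ext x
    rw [RingHom.mem_ker, hφ, RingHom.comp_apply, ← RingHom.mem_ker, residue_ker, Ideal.mem_comap]
  have hq : Nat.card (IsLocalRing.ResidueField (w.adicCompletionIntegers K)) =
      Ideal.absNorm v.asIdeal ^ f := by
    rw [hcard, absNorm_inertia K w v hv]
  have hpts := pts v h3v (IsLocalRing.ResidueField (w.adicCompletionIntegers K)) φ hker f hf0 hq
  have hgc := gen_mul_conj v h3v
  rw [hq]
  set N := Nat.card {p : IsLocalRing.ResidueField (w.adicCompletionIntegers K) ×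
    IsLocalRing.ResidueField (w.adicCompletionIntegers K) // p.2 ^ 2 + p.2 = p.1 ^ 3} with hN
  set a := e (gen v) with ha
  set b := (starRingEnd ℂ) (e (gen v)) with hb
  have h1 : ((Ideal.absNorm v.asIdeal ^ f : ℕ) : ℂ) - (N : ℂ) = a ^ f + b ^ f := by
    rw [hpts]
    push_cast
    ring
  have h2 : ((Ideal.absNorm v.asIdeal ^ f : ℕ) : ℂ) = a ^ f * b ^ f := by
    push_cast
    rw [← hgc, mul_pow]
  have h1' : ((Ideal.absNorm v.asIdeal ^ f : ℕ) : ℂ[X]) - (N : ℂ[X]) = C (a ^ f) + C (b ^ f) := by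
    rw [← C_eq_natCast, ← C_eq_natCast, ← map_sub, h1, map_add]
  have h2' : ((Ideal.absNorm v.asIdeal ^ f : ℕ) : ℂ[X]) = C (a ^ f) * C (b ^ f) := by
    rw [← C_eq_natCast, h2, map_mul]
  simp only [Polynomial.map_add, Polynomial.map_sub, Polynomial.map_one, Polynomial.map_mul,
    Polynomial.map_X, Polynomial.map_pow, map_sub, map_natCast, Polynomial.map_natCast]
  rw [h1', h2']
  ring


end H55B
end

-- from Lib.H55B.I1
section

open NumberField IsDedekindDomain

namespace H55B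

/-! Chunk I1: formal Euler product over the primary elements.
Ac h n = sum of h over the primary x of norm n. For a finite set t of primes v not above 3 let X_t be the
monoid of primary elements all of whose prime factors are in t: by induction on t (insert v): every element of
X_(t + v) is uniquely x (gen v)^k, x in X_t, and N(x (gen v)^k) = N(x) N(v)^k, so the finite product over t equals
n -> sum of h over x in X_t of norm n (convolution with the sequence h(gen v)^k at N(v)^k, which is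
ofPowerSeries (absNorm v) of the geometric series: invOfUnit (1 - cX) 1 has coefficients c^k). For fixed n, all
x of norm n have their prime factors in the finite set of v with absNorm v <= n. -/

open Classical in
/-- The arithmetic function of a function on primary Eisenstein integers. -/
noncomputable def Ac (h : O → ℂ) : ArithmeticFunction ℂ :=
  ⟨fun n => if n = 0 then 0 else ∑ᶠ (x : O) (_ : Prim x ∧ Nm x = n), h x, by simp⟩















end H55B
end

-- from Lib.H55N.B4
section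

open NumberField IsDedekindDomain

namespace H55N

open H55B H55C

variable {K : Type} [Field K] [NumberField K] [Algebra F K] {m : ℕ}

/-! Chunk B4 (M). Summation by parts: existence of G.
For every i, c_i is a prime ideal with residue field of p_i elements (absNorm = p_i prime), w_i not in c_i. So for x in O_K there
is a unique t_i(x) in {1..p_i} with x - t_i(x) w_i in c_i (the residues t w_i, t = 1..p_i, are distinct: (t-t') w_i in
c_i implies t - t' in c_i, c_i meets Z in p_i Z; pigeonhole). Then t_i(x + w_i) - t_i(x) = 1 if t_i(x) < p_i, and = 1 - p_i if t_i(x) = p_i, i.e. iff x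
in c_i (p_i w_i in c_i). So t_i(x+w_i) - t_i(x) = 1 - p_i [x in c_i], the i-th factor of g; and
t_i(x + w_k) = t_i(x) for k <> i since w_k in c_i (Dirs.oth). Let G(x) = prod_i t_i(x) (complex numbers, bounded by prod p_i). Then
prod_i (t_i(x+w_i) - t_i(x)) = sum_T (-1)^(|I|-|T|) G(x + w_T), |I| = 2(m+1) even, so g(x) = sum_T (-1)^|T| G(x+w_T)
(Finset.prod_sub or induction). For h absolutely summable on X: sum_X g h = sum_T (-1)^|T| sum_{x in X} G(x+w_T) h(x) =
sum_T (-1)^|T| sum_{x in X} G(x) h(x - w_T) (translation by w_T in I is a bijection of X; all sums are absolutely convergent as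
G is bounded) = sum_X G Dif h. -/

omit [Algebra F K] in
/-- The normalised residue map of a prime ideal of degree one. -/
theorem B4_map (c : Ideal (𝓞 K)) (p : ℕ) (hp : p.Prime) (hc : Ideal.absNorm c = p) (w : 𝓞 K)
    (hw : w ∉ c) : ∃ u : 𝓞 K → ZMod p, (∀ x y, u (x + y) = u x + u y) ∧ (∀ x, u x = 0 ↔ x ∈ c) ∧
      u w = 1 := by
  classical
  have hp' : Fact p.Prime := ⟨hp⟩
  have hcard : Nat.card (𝓞 K ⧸ c) = p := by
    rw [← hc, Ideal.absNorm_apply, Submodule.cardQuot_apply]
  have hfin : Finite (𝓞 K ⧸ c) := Nat.finite_of_card_ne_zero (by rw [hcard]; exact hp.ne_zero)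
  have hft : Fintype (𝓞 K ⧸ c) := Fintype.ofFinite _
  have hcard2 : Fintype.card (𝓞 K ⧸ c) = p := by
    rw [← Nat.card_eq_fintype_card, hcard]
  let e : ZMod p ≃+* (𝓞 K ⧸ c) := ZMod.ringEquivOfPrime _ hp hcard2
  let φ : 𝓞 K → ZMod p := fun x => e.symm (Ideal.Quotient.mk c x)
  have hφ : ∀ x, φ x = 0 ↔ x ∈ c := by
    intro x
    change e.symm (Ideal.Quotient.mk c x) = 0 ↔ x ∈ c
    rw [map_eq_zero_iff e.symm e.symm.injective, Ideal.Quotient.eq_zero_iff_mem]
  have hw0 : φ w ≠ 0 := fun h => hw ((hφ w).1 h)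
  refine ⟨fun x => φ x * (φ w)⁻¹, ?_, ?_, ?_⟩
  · intro x y
    have : φ (x + y) = φ x + φ y := by
      change e.symm (Ideal.Quotient.mk c (x + y)) = _
      rw [map_add, map_add]
    simp only [this, add_mul]
  · intro x
    simp only [mul_eq_zero, inv_eq_zero, hw0, or_false]
    exact hφ x
  · exact mul_inv_cancel₀ hw0

theorem B4_val (p : ℕ) (hp : p.Prime) (a : ZMod p) :
    ((a.val : ℕ) : ℂ) - (((a - 1).val : ℕ) : ℂ) = if a = 0 then 1 - (p : ℂ) else 1 := by
  have hp' : Fact p.Prime := ⟨hp⟩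
  obtain ⟨n, rfl⟩ : ∃ n, p = n + 1 := ⟨p - 1, by have := hp.one_lt; omega⟩
  split_ifs with h
  · rw [h, zero_sub, ZMod.val_neg_one, ZMod.val_zero]
    push_cast
    ring
  · have h1 : (1 : ZMod (n + 1)).val = 1 := by
      have := ZMod.val_one (n + 1)
      exact this
    have h2 : 1 ≤ a.val := by
      rcases Nat.eq_zero_or_pos a.val with h' | h'
      · exact absurd ((ZMod.val_eq_zero a).1 h') h
      · exact h'
    rw [ZMod.val_sub (by rw [h1]; exact h2), h1, Nat.cast_sub h2]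
    push_cast
    ring

theorem gspec_exists (D : Ctx K m) (hD : D.Ok) (A : Fin (m + 1) → K)
    (w : Fin (m + 1) × Fin 2 → 𝓞 K) (h : D.Dirs A w) : ∃ G : 𝓞 K → ℂ, D.GSpec w G := by
  classical
  choose u hu_add hu_zero hu_one using fun i => B4_map (D.c i) (D.p i) (hD.smooth.prime i)
    (hD.smooth.norm i) (w i) (h.self i)
  -- the functions t_i
  let t : Fin (m + 1) × Fin 2 → 𝓞 K → ℂ := fun i x => (((u i x - 1).val : ℕ) : ℂ)
  have hbd : ∀ i x, ‖t i x‖ ≤ (D.p i : ℝ) := by
    intro i x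
    have hpi : Fact (D.p i).Prime := ⟨hD.smooth.prime i⟩
    change ‖(((u i x - 1).val : ℕ) : ℂ)‖ ≤ _
    rw [Complex.norm_natCast]
    exact_mod_cast (ZMod.val_lt _).le
  have hself : ∀ i x, t i (x + w i) - t i x = if x ∈ D.c i then 1 - (D.p i : ℂ) else 1 := by
    intro i x
    change (((u i (x + w i) - 1).val : ℕ) : ℂ) - (((u i x - 1).val : ℕ) : ℂ) = _
    rw [hu_add, hu_one, add_sub_cancel_right, B4_val _ (hD.smooth.prime i)]
    by_cases hx : x ∈ D.c i
    · rw [if_pos hx, if_pos ((hu_zero i x).2 hx)]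
    · rw [if_neg hx, if_neg (fun h' => hx ((hu_zero i x).1 h'))]
  have hoth : ∀ i k x, k ≠ i → t i (x + w k) = t i x := by
    intro i k x hk
    change (((u i (x + w k) - 1).val : ℕ) : ℂ) = (((u i x - 1).val : ℕ) : ℂ)
    rw [hu_add, (hu_zero i (w k)).2 (h.oth k i (Ne.symm hk)), add_zero]
  let G : 𝓞 K → ℂ := fun x => ∏ i, t i x
  -- values at shifted points
  have hshift : ∀ (T : Finset (Fin (m + 1) × Fin 2)) (i : Fin (m + 1) × Fin 2) (x : 𝓞 K),
      t i (x + ∑ k ∈ T, w k) = if i ∈ T then t i (x + w i) else t i x := by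
    intro T
    induction T using Finset.induction_on with
    | empty => intro i x; simp
    | insert a T ha ih =>
      intro i x
      rw [Finset.sum_insert ha, ← add_assoc, ih i (x + w a)]
      by_cases hia : i = a
      · subst hia
        rw [if_neg ha, if_pos (Finset.mem_insert_self _ _)]
      · by_cases hiT : i ∈ T
        · rw [if_pos hiT, if_pos (Finset.mem_insert_of_mem hiT)]
          rw [show x + w a + w i = (x + w i) + w a by ring, hoth i a _ (Ne.symm hia)]
        · rw [if_neg hiT, if_neg (by simp [hia, hiT]), hoth i a _ (Ne.symm hia)]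
  have hG : ∀ (T : Finset (Fin (m + 1) × Fin 2)) (x : 𝓞 K), G (x + ∑ k ∈ T, w k) =
      (∏ i ∈ T, t i (x + w i)) * ∏ i ∈ Finset.univ \ T, t i x := by
    intro T x
    change ∏ i, t i (x + ∑ k ∈ T, w k) = _
    rw [← Finset.prod_sdiff (Finset.subset_univ T), mul_comm]
    congr 1
    · exact Finset.prod_congr rfl fun i hi => by rw [hshift, if_pos hi]
    · exact Finset.prod_congr rfl fun i hi => by
        rw [hshift, if_neg (Finset.mem_sdiff.1 hi).2]
  have hg : ∀ x, D.g x = ∑ T ∈ (Finset.univ : Finset (Fin (m + 1) × Fin 2)).powerset,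
      (-1) ^ T.card * G (x + ∑ k ∈ T, w k) := by
    intro x
    have h1 : D.g x = ∏ i, (t i (x + w i) - t i x) := by
      change ∏ i, _ = _
      refine Finset.prod_congr rfl fun i _ => ?_
      rw [hself]
    rw [h1]
    simp only [sub_eq_add_neg]
    rw [Finset.prod_add]
    refine Finset.sum_congr rfl fun T _ => ?_
    rw [hG, Finset.prod_neg]
    have hcard : (Finset.univ \ T).card + T.card = (m + 1) * 2 := by
      rw [Finset.card_sdiff_add_card_eq_card (Finset.subset_univ T)]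
      simp
    have hpar : (-1 : ℂ) ^ (Finset.univ \ T).card = (-1) ^ T.card := by
      have h2 : (-1 : ℂ) ^ ((Finset.univ \ T).card + T.card) = 1 := by
        rw [hcard, mul_comm, pow_mul]
        norm_num
      rw [pow_add] at h2
      have h3 : (-1 : ℂ) ^ T.card * (-1) ^ T.card = 1 := by
        rw [← mul_pow]; norm_num
      calc (-1 : ℂ) ^ (Finset.univ \ T).card
          = (-1) ^ (Finset.univ \ T).card * ((-1) ^ T.card * (-1) ^ T.card) := by
            rw [h3, mul_one]
        _ = ((-1) ^ (Finset.univ \ T).card * (-1) ^ T.card) * (-1) ^ T.card := by ring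
        _ = (-1) ^ T.card := by rw [h2, one_mul]
    rw [hpar]
    ring
  refine ⟨G, ⟨∏ i, (D.p i : ℝ), ?_⟩, ?_⟩
  · intro x
    change ‖∏ i, t i x‖ ≤ _
    rw [norm_prod]
    exact Finset.prod_le_prod (fun i _ => norm_nonneg _) fun i _ => hbd i x
  · intro f hf
    have hGb : ∀ x, ‖G x‖ ≤ ∏ i, (D.p i : ℝ) := by
      intro x
      change ‖∏ i, t i x‖ ≤ _
      rw [norm_prod]
      exact Finset.prod_le_prod (fun i _ => norm_nonneg _) fun i _ => hbd i x
    have hmemT : ∀ T : Finset (Fin (m + 1) × Fin 2), ∑ k ∈ T, w k ∈ D.I := fun T =>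
      D.I.sum_mem fun k _ => h.mem k
    -- translation
    let tr : Finset (Fin (m + 1) × Fin 2) → D.X ≃ D.X := fun T =>
      { toFun := fun x => ⟨x.1 + ∑ k ∈ T, w k, D.X_add x.2 (hmemT T)⟩
        invFun := fun x => ⟨x.1 - ∑ k ∈ T, w k, D.X_sub x.2 (hmemT T)⟩
        left_inv := fun x => by
          apply Subtype.ext
          change x.1 + ∑ k ∈ T, w k - ∑ k ∈ T, w k = x.1
          ring
        right_inv := fun x => by
          apply Subtype.ext
          change x.1 - ∑ k ∈ T, w k + ∑ k ∈ T, w k = x.1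
          ring }
    have hs1 : ∀ T : Finset (Fin (m + 1) × Fin 2),
        Summable fun x : D.X => (-1 : ℂ) ^ T.card * G (x.1 + ∑ k ∈ T, w k) * f x := by
      intro T
      refine Summable.of_norm_bounded (g := fun x : D.X => (∏ i, (D.p i : ℝ)) * ‖f x‖)
        (hf.mul_left _) fun x => ?_
      rw [norm_mul, norm_mul, norm_pow, norm_neg, norm_one, one_pow, one_mul]
      exact mul_le_mul_of_nonneg_right (hGb _) (norm_nonneg _)
    have hs2 : ∀ T : Finset (Fin (m + 1) × Fin 2),
        Summable fun x : D.X => G x.1 * ((-1 : ℂ) ^ T.card * f (x.1 - ∑ k ∈ T, w k)) := by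
      intro T
      have := (Equiv.summable_iff (tr T).symm).2 (hs1 T)
      refine this.congr fun x => ?_
      change (-1 : ℂ) ^ T.card * G (x.1 - ∑ k ∈ T, w k + ∑ k ∈ T, w k) *
          f (x.1 - ∑ k ∈ T, w k) = G x.1 * ((-1 : ℂ) ^ T.card * f (x.1 - ∑ k ∈ T, w k))
      rw [sub_add_cancel]
      ring
    calc ∑' x : D.X, D.g x * f x
        = ∑' x : D.X, ∑ T ∈ (Finset.univ : Finset (Fin (m + 1) × Fin 2)).powerset,
            (-1 : ℂ) ^ T.card * G (x.1 + ∑ k ∈ T, w k) * f x := by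
          refine tsum_congr fun x => ?_
          rw [hg, Finset.sum_mul]
      _ = ∑ T ∈ (Finset.univ : Finset (Fin (m + 1) × Fin 2)).powerset,
            ∑' x : D.X, (-1 : ℂ) ^ T.card * G (x.1 + ∑ k ∈ T, w k) * f x :=
          Summable.tsum_finsetSum fun T _ => hs1 T
      _ = ∑ T ∈ (Finset.univ : Finset (Fin (m + 1) × Fin 2)).powerset,
            ∑' x : D.X, G x.1 * ((-1 : ℂ) ^ T.card * f (x.1 - ∑ k ∈ T, w k)) := by
          refine Finset.sum_congr rfl fun T _ => ?_
          rw [← Equiv.tsum_eq (tr T).symm]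
          refine tsum_congr fun x => ?_
          change (-1 : ℂ) ^ T.card * G (x.1 - ∑ k ∈ T, w k + ∑ k ∈ T, w k) *
              f (x.1 - ∑ k ∈ T, w k) = _
          rw [sub_add_cancel]
          ring
      _ = ∑' x : D.X, ∑ T ∈ (Finset.univ : Finset (Fin (m + 1) × Fin 2)).powerset,
            G x.1 * ((-1 : ℂ) ^ T.card * f (x.1 - ∑ k ∈ T, w k)) :=
          (Summable.tsum_finsetSum fun T _ => hs2 T).symm
      _ = ∑' x : D.X, G x * Dif w Finset.univ f x := by
          refine tsum_congr fun x => ?_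
          rw [Dif, Finset.mul_sum]

end H55N
end

-- from Lib.H55N.C4
section

namespace H55N

/-! Chunk C4 (M). The floor labelling. For a in the box and π: if a_k < N - 1 for some k = π(j), then the label does not change from the vertex j to the
vertex j+1 of the simplex: kv a π (j+1) = kv a π j + e_k and the coordinate k goes from a_k to a_k + 1 <= N - 1, so its quotient by N
stays 0; the other coordinates are equal. So J = 0 by hJ (with j : Fin m). If a = (N-1, .., N-1): (N - 1 + ε)/N = ε for ε = 0, 1, so L0 (kv a π j / N) =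
L0 (kv 0 π j), the term of CN 1 (Fin 1 has one element). -/

theorem c4_kv {m : ℕ} (a : Fin m → ℤ) (π : Equiv.Perm (Fin m)) (j : Fin m) (k' : Fin m)
    (h : k' ≠ π j) : kv a π ((j : ℕ) + 1) k' = kv a π j k' := by
  unfold kv
  congr 1
  have h1 : ((π.symm k' : Fin m) : ℕ) ≠ j := by
    intro h2
    apply h
    have := Fin.ext h2
    rw [← this, Equiv.apply_symm_apply]
  by_cases h3 : ((π.symm k' : Fin m) : ℕ) < j
  · rw [if_pos h3, if_pos (by omega)]
  · rw [if_neg h3, if_neg (by omega)]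

theorem CN_floor {Λ : Type} {m : ℕ} (N : ℕ) (hN : 0 < N) (J : (Fin (m + 1) → Λ) → ℂ)
    (hJ : ∀ l : Fin (m + 1) → Λ, (∃ j : Fin m, l j.castSucc = l j.succ) → J l = 0)
    (L0 : (Fin m → ℤ) → Λ) : CN N J (fun a => L0 fun k => a k / (N : ℤ)) = CN 1 J L0 := by
  unfold CN
  have hN1 : N - 1 < N := by omega
  rw [Finset.sum_eq_single (fun _ => (⟨N - 1, hN1⟩ : Fin N)),
    Finset.sum_eq_single (fun _ => (0 : Fin 1))]
  · refine Finset.sum_congr rfl fun π _ => ?_
    congr 2
    funext j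
    show L0 _ = L0 _
    congr 1
    funext k
    unfold kv
    simp only [Fin.val_zero, Nat.cast_zero, zero_add]
    have hc : ((N - 1 : ℕ) : ℤ) = (N : ℤ) - 1 := by
      rw [Nat.cast_sub (by omega)]
      simp
    rw [hc]
    have hN' : (0 : ℤ) < N := by exact_mod_cast hN
    split_ifs with h
    · rw [sub_add_cancel, Int.ediv_self hN'.ne']
    · rw [add_zero]
      exact Int.ediv_eq_zero_of_lt (by omega) (by omega)
  · intro b _ hb
    exact absurd (funext fun k => Subsingleton.elim _ _) hb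
  · intro h
    exact absurd (Finset.mem_univ _) h
  · intro a _ ha
    refine Finset.sum_eq_zero fun π _ => ?_
    rw [hJ, mul_zero]
    obtain ⟨k, hk⟩ := Function.ne_iff.1 ha
    have hk' : (a k : ℕ) + 1 < N := by
      have h1 := (a k).2
      have h2 : (a k : ℕ) ≠ N - 1 := fun h => hk (Fin.ext h)
      omega
    refine ⟨π.symm k, ?_⟩
    simp only [Fin.val_castSucc, Fin.val_succ]
    congr 1
    funext k'
    by_cases hkk : k' = k
    · subst hkk
      unfold kv
      have e1 : ∀ ε : ℤ, 0 ≤ ε → ε ≤ 1 → (((a k' : ℕ) : ℤ) + ε) / (N : ℤ) = 0 := by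
        intro ε h0 h1
        apply Int.ediv_eq_zero_of_lt
        · positivity
        · have : (((a k' : ℕ) : ℤ)) + 1 < N := by exact_mod_cast hk'
          omega
      rw [e1 _ (by split_ifs <;> norm_num) (by split_ifs <;> norm_num),
        e1 _ (by split_ifs <;> norm_num) (by split_ifs <;> norm_num)]
    · rw [c4_kv _ π (π.symm k) k' (by rw [Equiv.apply_symm_apply]; exact hkk)]
  · intro h
    exact absurd (Finset.mem_univ _) h

end H55N
end

-- from Lib.H55N.I0
section

namespace H55N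

theorem Int2.mul {x y : ℂ} (hx : Int2 x) (hy : Int2 y) : Int2 (x * y) := by
  intro V hV
  rw [map_mul]
  exact mul_le_one' (hx V hV) (hy V hV)

theorem Int2.add {x y : ℂ} (hx : Int2 x) (hy : Int2 y) : Int2 (x + y) := by
  intro V hV
  exact (V.valuation.map_add x y).trans (max_le (hx V hV) (hy V hV))

theorem Int2.neg {x : ℂ} (hx : Int2 x) : Int2 (-x) := by
  intro V hV
  rw [Valuation.map_neg]
  exact hx V hV

theorem Int2.zero : Int2 0 := by
  intro V _
  rw [map_zero]
  exact zero_le'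

theorem Int2.one : Int2 1 := by
  intro V _
  rw [map_one]

theorem Int2.intCast (n : ℤ) : Int2 (n : ℂ) := by
  intro V _
  exact (V.valuation_le_one_iff _).2 (intCast_mem V n)


theorem Int2.sum {κ : Type*} (s : Finset κ) (f : κ → ℂ) (h : ∀ i ∈ s, Int2 (f i)) :
    Int2 (∑ i ∈ s, f i) := by
  intro V hV
  exact V.valuation.map_sum_le fun i hi => h i hi V hV

theorem Int2.prod {κ : Type*} (s : Finset κ) (f : κ → ℂ) (h : ∀ i ∈ s, Int2 (f i)) :
    Int2 (∏ i ∈ s, f i) := by
  classical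
  induction s using Finset.induction_on with
  | empty => simpa using Int2.one
  | insert a s ha ih =>
    rw [Finset.prod_insert ha]
    exact (h a (Finset.mem_insert_self _ _)).mul (ih fun i hi => h i (Finset.mem_insert_of_mem hi))

theorem Int2.pow {x : ℂ} (hx : Int2 x) (n : ℕ) : Int2 (x ^ n) := by
  intro V hV
  rw [map_pow]
  exact pow_le_one' (hx V hV) n

theorem Int2.div_odd {x : ℂ} (hx : Int2 x) (n : ℕ) (hn : Odd n) : Int2 (x / n) := by
  intro V hV
  rw [map_div₀, H55B.val_odd V hV n hn, div_one]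
  exact hx V hV

theorem Int2.det {n : ℕ} (M : Matrix (Fin n) (Fin n) ℂ) (h : ∀ i j, Int2 (M i j)) :
    Int2 M.det := by
  rw [Matrix.det_apply']
  refine Int2.sum _ _ fun π _ => ?_
  exact (Int2.intCast _).mul (Int2.prod _ _ fun i _ => h _ _)

end H55N
end

-- from Lib.H55N.C5
section

namespace H55N

/-! Chunk C5 (M). The determinant of the points of a small Kuhn simplex. v = kv a π, row j = tt lm (v_j/N).
tt lm (v_j/N) i = tt lm (a/N) i * exp(sum_{l<j} lm i (π l) / N), and prod_i tt lm (a/N) i = exp(sum_k (a_k/N) sum_i lm i k) = 1 (h0).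
So det = det E_N, E_N(j,i) = exp(sum_{l<j} lm i (π l)/N) (Matrix.det_mul_row / det_mul_column), which does not depend on a. Subtract from each row the previous one
(Matrix.det_eq_of_forall_row_eq_smul_add_pred): det E_N = det E'_N with E'(0,i) = 1, E'(j+1,i) = E_N(j,i) (exp(lm i (π j)/N) - 1).
N^m det E'_N = det of the matrix with rows 1 and N E'(j+1,i) (Matrix.det_mul_column..., multiply the m rows by N), whose entries tend to lm i (π j) (N(exp(x/N)-1) -> x);
the limit of the determinant is det(1; lm i (π j)) = sign π * Delta lm (Matrix.det_transpose, permute columns with Equiv extending π to Fin (m+1) fixing 0: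
Equiv.Perm.decomposeFin or Matrix.det_succ_column_zero and det_permute; or use Matrix.det_apply). η π N := N^m sign π det E_N. -/

/-- Partial sums of the logarithms. -/
private noncomputable def C5S {m : ℕ} (lm : Fin (m + 1) → Fin m → ℝ) (π : Equiv.Perm (Fin m))
    (i : Fin (m + 1)) (j : ℕ) : ℝ := ∑ l : Fin m, if (l : ℕ) < j then lm i (π l) else 0

private lemma C5S_zero {m : ℕ} (lm : Fin (m + 1) → Fin m → ℝ) (π : Equiv.Perm (Fin m))
    (i : Fin (m + 1)) : C5S lm π i 0 = 0 := by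
  unfold C5S
  simp

private lemma C5S_succ {m : ℕ} (lm : Fin (m + 1) → Fin m → ℝ) (π : Equiv.Perm (Fin m))
    (i : Fin (m + 1)) (j : Fin m) : C5S lm π i (j + 1) = C5S lm π i j + lm i (π j) := by
  unfold C5S
  have h : lm i (π j) = ∑ l : Fin m, if l = j then lm i (π l) else 0 := by
    rw [Finset.sum_ite_eq' Finset.univ j]
    simp
  rw [h, ← Finset.sum_add_distrib]
  refine Finset.sum_congr rfl fun l _ => ?_
  by_cases h1 : (l : ℕ) < j
  · have h2 : (l : ℕ) < j + 1 := by omega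
    have h3 : l ≠ j := by
      intro h
      rw [h] at h1
      omega
    simp [h1, h2, h3]
  · by_cases h4 : l = j
    · subst h4
      simp
    · have h5 : ¬ (l : ℕ) < j + 1 := by
        intro h
        apply h4
        apply Fin.ext
        omega
      simp [h1, h4, h5]

/-- The matrix E_N. -/
private noncomputable def C5E {m : ℕ} (lm : Fin (m + 1) → Fin m → ℝ) (π : Equiv.Perm (Fin m))
    (N : ℕ) : Matrix (Fin (m + 1)) (Fin (m + 1)) ℝ :=
  Matrix.of fun j i => Real.exp (C5S lm π i j / N)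

/-- The matrix with the differences multiplied by N. -/
private noncomputable def C5F {m : ℕ} (lm : Fin (m + 1) → Fin m → ℝ) (π : Equiv.Perm (Fin m))
    (N : ℕ) : Matrix (Fin (m + 1)) (Fin (m + 1)) ℝ :=
  Matrix.of fun j i => (Fin.cons 1 (fun j' : Fin m => (N : ℝ) *
    (Real.exp (C5S lm π i j' / N) * (Real.exp (lm i (π j') / N) - 1))) : Fin (m + 1) → ℝ) j

private lemma C5_tt {m : ℕ} (lm : Fin (m + 1) → Fin m → ℝ) (N : ℕ) (a : Fin m → ℤ)
    (π : Equiv.Perm (Fin m)) (i : Fin (m + 1)) (j : ℕ) :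
    tt lm (fun k => (kv a π j k : ℝ) / N) i =
      Real.exp ((∑ k, a k * lm i k) / N) * Real.exp (C5S lm π i j / N) := by
  unfold tt
  rw [← Real.exp_add]
  congr 1
  have h : C5S lm π i j = ∑ k : Fin m, if ((π.symm k : Fin m) : ℕ) < j then lm i k else 0 := by
    unfold C5S
    rw [← Equiv.sum_comp π (fun k => if ((π.symm k : Fin m) : ℕ) < j then lm i k else 0)]
    refine Finset.sum_congr rfl fun l _ => ?_
    rw [Equiv.symm_apply_apply]
  rw [h, Finset.sum_div, Finset.sum_div, ← Finset.sum_add_distrib]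
  refine Finset.sum_congr rfl fun k _ => ?_
  unfold kv
  by_cases h1 : ((π.symm k : Fin m) : ℕ) < j
  · simp [h1]
    ring
  · simp [h1]
    ring

private lemma C5_det {m : ℕ} (lm : Fin (m + 1) → Fin m → ℝ) (h0 : ∀ j, ∑ i, lm i j = 0) (N : ℕ)
    (a : Fin m → ℤ) (π : Equiv.Perm (Fin m)) :
    Matrix.det (Matrix.of fun j i : Fin (m + 1) => tt lm (fun k => (kv a π j k : ℝ) / N) i) =
      (C5E lm π N).det := by
  have h1 : (Matrix.of fun j i : Fin (m + 1) => tt lm (fun k => (kv a π j k : ℝ) / N) i) =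
      Matrix.of fun j i : Fin (m + 1) =>
        (fun i : Fin (m + 1) => Real.exp ((∑ k, a k * lm i k) / N)) i * C5E lm π N j i := by
    ext j i
    simp only [Matrix.of_apply, C5E]
    exact C5_tt lm N a π i j
  rw [h1, Matrix.det_mul_row]
  have h2 : ∏ i : Fin (m + 1), Real.exp ((∑ k, a k * lm i k) / N) = 1 := by
    rw [← Real.exp_sum, ← Finset.sum_div, Finset.sum_comm]
    have h3 : ∑ k : Fin m, ∑ i : Fin (m + 1), (a k : ℝ) * lm i k = 0 := by
      refine Finset.sum_eq_zero fun k _ => ?_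
      rw [← Finset.mul_sum, h0, mul_zero]
    rw [h3]
    simp
  rw [h2, one_mul]

private lemma C5_det2 {m : ℕ} (lm : Fin (m + 1) → Fin m → ℝ) (N : ℕ)
    (π : Equiv.Perm (Fin m)) :
    (C5F lm π N).det = (N : ℝ) ^ m * (C5E lm π N).det := by
  have h1 : (C5E lm π N).det = (Matrix.of fun j i : Fin (m + 1) =>
      (Fin.cons 1 (fun j' : Fin m =>
    (Real.exp (C5S lm π i j' / N) * (Real.exp (lm i (π j') / N) - 1))) :
      Fin (m + 1) → ℝ) j).det := by
    apply Matrix.det_eq_of_forall_row_eq_smul_add_pred (fun _ => 1)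
    · intro i
      simp [C5E, C5S_zero]
    · intro j i
      simp only [C5E, Matrix.of_apply, Fin.cons_succ, Fin.val_succ, Fin.val_castSucc]
      rw [C5S_succ, add_div, Real.exp_add]
      ring
  rw [h1]
  have h2 : C5F lm π N = Matrix.of fun j i : Fin (m + 1) =>
      (fun j : Fin (m + 1) => (Fin.cons 1 (fun _ : Fin m => (N : ℝ)) : Fin (m + 1) → ℝ) j) j *
      (Matrix.of fun j i : Fin (m + 1) =>
      (Fin.cons 1 (fun j' : Fin m =>
    (Real.exp (C5S lm π i j' / N) * (Real.exp (lm i (π j') / N) - 1))) :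
      Fin (m + 1) → ℝ) j) j i := by
    ext j i
    simp only [C5F, Matrix.of_apply]
    refine Fin.cases ?_ (fun j' => ?_) j
    · simp
    · simp
  rw [h2, Matrix.det_mul_column]
  congr 1
  rw [Fin.prod_univ_succ]
  simp

private lemma C5_lim (x : ℝ) :
    Filter.Tendsto (fun N : ℕ => (N : ℝ) * (Real.exp (x / N) - 1)) Filter.atTop (nhds x) := by
  have h1 : HasDerivAt (fun t : ℝ => Real.exp (x * t)) x 0 := by
    have h := ((hasDerivAt_id (0 : ℝ)).const_mul x).exp
    simpa using h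
  have h2 := h1.tendsto_slope_zero_right
  have h3 : Filter.Tendsto (fun N : ℕ => ((N : ℝ))⁻¹) Filter.atTop (nhdsWithin 0 (Set.Ioi 0)) := by
    rw [tendsto_nhdsWithin_iff]
    refine ⟨tendsto_inv_atTop_nhds_zero_nat, ?_⟩
    filter_upwards [Filter.eventually_gt_atTop 0] with N hN
    simp only [Set.mem_Ioi]
    positivity
  have h4 := h2.comp h3
  refine h4.congr fun N => ?_
  simp only [Function.comp_apply, inv_inv, zero_add, mul_zero, Real.exp_zero, smul_eq_mul]
  rfl

private lemma C5_lim2 (x : ℝ) :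
    Filter.Tendsto (fun N : ℕ => Real.exp (x / N)) Filter.atTop (nhds 1) := by
  have h1 : Filter.Tendsto (fun N : ℕ => x / (N : ℝ)) Filter.atTop (nhds 0) :=
    tendsto_const_div_atTop_nhds_zero_nat x
  have h2 := (Real.continuous_exp.tendsto 0).comp h1
  rw [Real.exp_zero] at h2
  exact h2

private lemma C5_detlim {m : ℕ} (lm : Fin (m + 1) → Fin m → ℝ) (π : Equiv.Perm (Fin m)) :
    Filter.Tendsto (fun N : ℕ => (C5F lm π N).det) Filter.atTop
      (nhds (Matrix.det (Matrix.of fun j i : Fin (m + 1) =>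
        (Fin.cons 1 (fun j' : Fin m => lm i (π j')) : Fin (m + 1) → ℝ) j))) := by
  have h1 : Continuous fun M : Matrix (Fin (m + 1)) (Fin (m + 1)) ℝ => M.det :=
    Continuous.matrix_det continuous_id
  refine (h1.tendsto _).comp ?_
  refine tendsto_pi_nhds.mpr fun j => tendsto_pi_nhds.mpr fun i => ?_
  simp only [C5F, Matrix.of_apply]
  refine Fin.cases ?_ (fun j' => ?_) j
  · simp
  · simp only [Fin.cons_succ]
    have h2 := (C5_lim2 (C5S lm π i j')).mul (C5_lim (lm i (π j')))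
    rw [one_mul] at h2
    refine h2.congr fun N => ?_
    ring

private lemma C5_limdet {m : ℕ} (lm : Fin (m + 1) → Fin m → ℝ) (π : Equiv.Perm (Fin m)) :
    Matrix.det (Matrix.of fun j i : Fin (m + 1) =>
        (Fin.cons 1 (fun j' : Fin m => lm i (π j')) : Fin (m + 1) → ℝ) j) =
      ((Equiv.Perm.sign π : ℤ) : ℝ) * Delta lm := by
  rw [← Matrix.det_transpose]
  have h1 : (Matrix.of fun j i : Fin (m + 1) =>
        (Fin.cons 1 (fun j' : Fin m => lm i (π j')) : Fin (m + 1) → ℝ) j).transpose =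
      (Matrix.of fun i j : Fin (m + 1) => (Fin.cons 1 (lm i) : Fin (m + 1) → ℝ) j).submatrix id
        (Equiv.Perm.decomposeFin.symm (0, π)) := by
    ext i j
    simp only [Matrix.transpose_apply, Matrix.of_apply, Matrix.submatrix_apply, id]
    refine Fin.cases ?_ (fun j' => ?_) j
    · simp
    · simp
  rw [h1, Matrix.det_permute', Equiv.Perm.decomposeFin.symm_sign]
  simp [Delta]

theorem det_asym (m : ℕ) (lm : Fin (m + 1) → Fin m → ℝ) (h0 : ∀ j, ∑ i, lm i j = 0) :
    ∃ η : Equiv.Perm (Fin m) → ℕ → ℝ,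
      (∀ π, Filter.Tendsto (η π) Filter.atTop (nhds (Delta lm))) ∧
      ∀ N : ℕ, 0 < N → ∀ (a : Fin m → ℤ) (π : Equiv.Perm (Fin m)),
        ((Equiv.Perm.sign π : ℤ) : ℝ) * Matrix.det (Matrix.of fun j i : Fin (m + 1) =>
          tt lm (fun k => (kv a π j k : ℝ) / N) i) = η π N / (N : ℝ) ^ m := by
  refine ⟨fun π N => ((Equiv.Perm.sign π : ℤ) : ℝ) * (C5F lm π N).det, fun π => ?_,
    fun N hN a π => ?_⟩
  · have h1 := (C5_detlim lm π).const_mul ((Equiv.Perm.sign π : ℤ) : ℝ)
    rw [C5_limdet] at h1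
    have h2 : ((Equiv.Perm.sign π : ℤ) : ℝ) * (((Equiv.Perm.sign π : ℤ) : ℝ) * Delta lm) =
        Delta lm := by
      rw [← mul_assoc, ← Int.cast_mul, ← Units.val_mul, Int.units_mul_self]
      simp
    rw [h2] at h1
    exact h1
  · have hN' : (N : ℝ) ≠ 0 := by
      have : (0 : ℝ) < N := by exact_mod_cast hN
      exact this.ne'
    rw [C5_det lm h0]
    show _ = ((Equiv.Perm.sign π : ℤ) : ℝ) * (C5F lm π N).det / (N : ℝ) ^ m
    rw [C5_det2]
    field_simp

end H55N
end

-- from Lib.H55N.C6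
section

namespace H55N

open MeasureTheory

/-! Chunk C6 (M). Riemann sums. The points kv a π j / N differ from a/N by at most 1/N in each coordinate and lie in [0, 2]^m. Φ is uniformly continuous
on the compact set of families of points of [0,2]^m; so for ε > 0 and N large |Φ(kv a π j/N) - Φ(fun _ => z)| <= ε for all z in the cube
a/N + [0,1/N]^m. The cubes a/N + [0,1/N)^m, a in the box, partition [0,1)^m, each of volume N^(-m); hence |N^(-m) sum_a Φ(..) - int_[0,1)^m Φ(z)| <= ε.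
(Or use BoxIntegral.unitPartition.tendsto_tsum_div_pow_atTop_integral.) -/

/-- the half open unit cube -/
def C6_box (m : ℕ) : Set (Fin m → ℝ) := Set.univ.pi fun _ => Set.Ico (0 : ℝ) 1

/-- the small cubes -/
def C6_cube (m N : ℕ) (a : Fin m → Fin N) : Set (Fin m → ℝ) :=
  Set.univ.pi fun k => Set.Ico (((a k : ℕ) : ℝ) / N) ((((a k : ℕ) : ℝ) + 1) / N)

theorem C6_mem_cube {m N : ℕ} (hN : 0 < N) (a : Fin m → Fin N) (z : Fin m → ℝ) :
    z ∈ C6_cube m N a ↔ ∀ k, ⌊(N : ℝ) * z k⌋ = ((a k : ℕ) : ℤ) := by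
  have hN' : (0 : ℝ) < N := by exact_mod_cast hN
  simp only [C6_cube, Set.mem_pi, Set.mem_univ, true_implies, Set.mem_Ico]
  refine forall_congr' (fun k => ?_)
  rw [Int.floor_eq_iff, div_le_iff₀ hN', lt_div_iff₀ hN', mul_comm (z k)]
  push_cast
  rfl

theorem C6_union {m N : ℕ} (hN : 0 < N) : C6_box m = ⋃ a : Fin m → Fin N, C6_cube m N a := by
  have hN' : (0 : ℝ) < N := by exact_mod_cast hN
  ext z
  rw [Set.mem_iUnion]
  constructor
  · intro hz
    have h1 : ∀ k, 0 ≤ z k ∧ z k < 1 := fun k => hz k (Set.mem_univ k)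
    have h2 : ∀ k, 0 ≤ ⌊(N : ℝ) * z k⌋ := fun k =>
      Int.floor_nonneg.2 (mul_nonneg hN'.le (h1 k).1)
    have h3 : ∀ k, ⌊(N : ℝ) * z k⌋ < (N : ℤ) := by
      intro k
      rw [Int.floor_lt]
      have := mul_lt_mul_of_pos_left (h1 k).2 hN'
      simpa using this
    refine ⟨fun k => ⟨⌊(N : ℝ) * z k⌋.toNat, by have := h2 k; have := h3 k; omega⟩, ?_⟩
    rw [C6_mem_cube hN]
    intro k
    simp only
    rw [Int.toNat_of_nonneg (h2 k)]
  · rintro ⟨a, ha⟩
    rw [C6_mem_cube hN] at ha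
    intro k _
    have h1 := ha k
    rw [Int.floor_eq_iff] at h1
    have h2 : (((a k : ℕ) : ℤ) : ℝ) + 1 ≤ N := by
      have : (a k : ℕ) + 1 ≤ N := (a k).isLt
      exact_mod_cast this
    have h3 : (0 : ℝ) ≤ (((a k : ℕ) : ℤ) : ℝ) := by positivity
    constructor
    · by_contra h
      rw [not_le] at h
      nlinarith
    · by_contra h
      rw [not_lt] at h
      nlinarith

theorem C6_disj {m N : ℕ} (hN : 0 < N) :
    Pairwise (Function.onFun Disjoint (C6_cube m N)) := by
  intro a b hab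
  rw [Function.onFun, Set.disjoint_left]
  intro z hz hz'
  rw [C6_mem_cube hN] at hz hz'
  apply hab
  funext k
  have := (hz k).symm.trans (hz' k)
  exact Fin.ext (by exact_mod_cast this)

theorem C6_meas {m N : ℕ} (a : Fin m → Fin N) : MeasurableSet (C6_cube m N a) :=
  MeasurableSet.univ_pi fun _ => measurableSet_Ico

theorem C6_vol {m N : ℕ} (hN : 0 < N) (a : Fin m → Fin N) :
    volume.real (C6_cube m N a) = 1 / (N : ℝ) ^ m := by
  have hN' : (0 : ℝ) < N := by exact_mod_cast hN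
  rw [Measure.real, C6_cube, Real.volume_pi_Ico_toReal]
  · have : ∀ k : Fin m, (((a k : ℕ) : ℝ) + 1) / N - ((a k : ℕ) : ℝ) / N = 1 / N := by
      intro k; field_simp; ring
    rw [Finset.prod_congr rfl (fun k _ => this k), Finset.prod_const, Finset.card_univ,
      Fintype.card_fin, div_pow, one_pow]
  · intro k
    have h1 : ((a k : ℕ) : ℝ) ≤ ((a k : ℕ) : ℝ) + 1 := by linarith
    exact div_le_div_of_nonneg_right h1 hN'.le

/-- the step function -/
noncomputable def C6_pt (m : ℕ) (π : Equiv.Perm (Fin m)) (N : ℕ) (z : Fin m → ℝ) :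
    Fin (m + 1) → Fin m → ℝ :=
  fun j k => ((kv (fun k => ⌊(N : ℝ) * z k⌋) π j k : ℤ) : ℝ) / N

theorem C6_pt_near {m : ℕ} (π : Equiv.Perm (Fin m)) {N : ℕ} (hN : 0 < N) (z : Fin m → ℝ)
    (j : Fin (m + 1)) (k : Fin m) : |C6_pt m π N z j k - z k| ≤ 1 / N := by
  have hN' : (0 : ℝ) < N := by exact_mod_cast hN
  have h1 : ((kv (fun k => ⌊(N : ℝ) * z k⌋) π j k : ℤ) : ℝ) ≤ N * z k + 1 ∧
      N * z k - 1 ≤ ((kv (fun k => ⌊(N : ℝ) * z k⌋) π j k : ℤ) : ℝ) := by
    have h2 := Int.floor_le ((N : ℝ) * z k)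
    have h3 := (Int.sub_one_lt_floor ((N : ℝ) * z k)).le
    simp only [kv]
    split_ifs
    · push_cast
      constructor <;> linarith
    · push_cast
      constructor <;> linarith
  have h4 : C6_pt m π N z j k - z k =
      (((kv (fun k => ⌊(N : ℝ) * z k⌋) π j k : ℤ) : ℝ) - N * z k) / N := by
    rw [C6_pt]
    field_simp
  rw [h4, abs_div, abs_of_pos hN']
  refine div_le_div_of_nonneg_right ?_ hN'.le
  rw [abs_le]
  constructor <;> linarith [h1.1, h1.2]

theorem C6_pt_mem {m : ℕ} (π : Equiv.Perm (Fin m)) (N : ℕ) (z : Fin m → ℝ) (hz : z ∈ C6_box m)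
    (j : Fin (m + 1)) (k : Fin m) : C6_pt m π N z j k ∈ Set.Icc (-2 : ℝ) 2 := by
  rcases Nat.eq_zero_or_pos N with h0 | h0
  · subst h0
    simp [C6_pt]
  · have h1 := C6_pt_near π h0 z j k
    have h2 : 0 ≤ z k ∧ z k < 1 := hz k (Set.mem_univ k)
    have h3 : (1 : ℝ) / N ≤ 1 := by
      rw [div_le_one (by exact_mod_cast h0)]
      exact_mod_cast h0
    rw [abs_le] at h1
    constructor <;> linarith [h1.1, h1.2, h2.1, h2.2]

theorem C6_pt_tendsto {m : ℕ} (π : Equiv.Perm (Fin m)) (z : Fin m → ℝ) :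
    Filter.Tendsto (fun N : ℕ => C6_pt m π N z) Filter.atTop (nhds (fun _ => z)) := by
  rw [tendsto_pi_nhds]
  intro j
  rw [tendsto_pi_nhds]
  intro k
  rw [tendsto_iff_norm_sub_tendsto_zero]
  refine squeeze_zero' (Filter.Eventually.of_forall (fun _ => norm_nonneg _)) ?_
    tendsto_one_div_atTop_nhds_zero_nat
  filter_upwards [Filter.eventually_gt_atTop 0] with N hN
  rw [Real.norm_eq_abs]
  exact C6_pt_near π hN z j k

theorem C6_measurable {m : ℕ} (Φ : (Fin (m + 1) → Fin m → ℝ) → ℂ) (π : Equiv.Perm (Fin m))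
    (N : ℕ) : Measurable (fun z : Fin m → ℝ => Φ (C6_pt m π N z)) := by
  have h1 : Measurable (fun z : Fin m → ℝ => (fun k => ⌊(N : ℝ) * z k⌋ : Fin m → ℤ)) := by
    refine measurable_pi_lambda _ (fun k => ?_)
    exact Int.measurable_floor.comp ((measurable_pi_apply k).const_mul _)
  have h2 : Measurable (fun b : Fin m → ℤ =>
      Φ (fun j k => ((kv b π j k : ℤ) : ℝ) / N)) := Measurable.of_discrete
  exact h2.comp h1

theorem C6_integral {m : ℕ} (Φ : (Fin (m + 1) → Fin m → ℝ) → ℂ) (π : Equiv.Perm (Fin m))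
    {N : ℕ} (hN : 0 < N) : ∫ z in C6_box m, Φ (C6_pt m π N z) =
      (∑ a : Fin m → Fin N,
      Φ (fun j k => (kv (fun k => ((a k : ℕ) : ℤ)) π j k : ℝ) / N)) / (N : ℂ) ^ m := by
  have hc : ∀ a : Fin m → Fin N, ∀ z ∈ C6_cube m N a, Φ (C6_pt m π N z) =
      Φ (fun j k => (kv (fun k => ((a k : ℕ) : ℤ)) π j k : ℝ) / N) := by
    intro a z hz
    rw [C6_mem_cube hN] at hz
    have h9 : (fun k => ⌊(N : ℝ) * z k⌋) = fun k => ((a k : ℕ) : ℤ) := funext hz
    refine congrArg Φ ?_
    funext j k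
    unfold C6_pt
    rw [h9]
  have hvol : ∀ a : Fin m → Fin N, volume (C6_cube m N a) ≠ ⊤ := by
    intro a h
    have h1 := C6_vol hN a
    rw [Measure.real, h] at h1
    have : (0 : ℝ) < 1 / (N : ℝ) ^ m := by
      have : (0 : ℝ) < N := by exact_mod_cast hN
      positivity
    rw [ENNReal.toReal_top] at h1
    linarith
  rw [C6_union hN, integral_iUnion_fintype (fun a => C6_meas a) (C6_disj hN)]
  · rw [Finset.sum_div]
    refine Finset.sum_congr rfl (fun a _ => ?_)
    rw [setIntegral_congr_fun (C6_meas a) (hc a), setIntegral_const, C6_vol hN a]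
    rw [Complex.real_smul]
    push_cast
    ring
  · intro a
    refine (integrableOn_congr_fun (hc a) (C6_meas a)).2 ?_
    exact integrableOn_const (hvol a)

theorem riemann_sum (m : ℕ) (Φ : (Fin (m + 1) → Fin m → ℝ) → ℂ) (hΦ : Continuous Φ)
    (π : Equiv.Perm (Fin m)) : Filter.Tendsto (fun N : ℕ => (∑ a : Fin m → Fin N,
      Φ (fun j k => (kv (fun k => ((a k : ℕ) : ℤ)) π j k : ℝ) / N)) / (N : ℂ) ^ m) Filter.atTop
      (nhds (∫ z in Set.Icc (0 : Fin m → ℝ) 1, Φ (fun _ => z))) := by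
  have h1 : ∫ z in Set.Icc (0 : Fin m → ℝ) 1, Φ (fun _ => z) =
      ∫ z in C6_box m, Φ (fun _ => z) := by
    refine setIntegral_congr_set ?_
    exact (Measure.univ_pi_Ico_ae_eq_Icc (μ := fun _ : Fin m => (volume : Measure ℝ))
      (f := (0 : Fin m → ℝ)) (g := 1)).symm
  rw [h1]
  have hfin : volume (C6_box m) ≠ ⊤ := by
    have h2 : volume (C6_box m) ≤ volume (Set.Icc (0 : Fin m → ℝ) 1) := by
      refine measure_mono ?_
      intro z hz
      exact ⟨fun k => (hz k (Set.mem_univ k)).1, fun k => (hz k (Set.mem_univ k)).2.le⟩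
    exact ne_top_of_le_ne_top (isCompact_Icc.measure_lt_top).ne h2
  have hK : IsCompact {x : Fin (m + 1) → Fin m → ℝ | ∀ j, x j ∈
      {y : Fin m → ℝ | ∀ k, y k ∈ Set.Icc (-2 : ℝ) 2}} := by
    refine isCompact_pi_infinite (fun j => ?_)
    exact isCompact_pi_infinite (fun k => isCompact_Icc)
  obtain ⟨C, hC⟩ := hK.exists_bound_of_continuousOn hΦ.continuousOn
  have hmeas : MeasurableSet (C6_box m) := MeasurableSet.univ_pi fun _ => measurableSet_Ico
  have h3 : Filter.Tendsto (fun N : ℕ => ∫ z in C6_box m, Φ (C6_pt m π N z)) Filter.atTop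
      (nhds (∫ z in C6_box m, Φ (fun _ => z))) := by
    refine tendsto_integral_of_dominated_convergence (fun _ => C) ?_ ?_ ?_ ?_
    · intro N
      exact (C6_measurable Φ π N).aestronglyMeasurable
    · exact integrableOn_const hfin
    · intro N
      rw [ae_restrict_iff' hmeas]
      exact Filter.Eventually.of_forall (fun z hz => hC _ (fun j k => C6_pt_mem π N z hz j k))
    · refine Filter.Eventually.of_forall (fun z => ?_)
      exact (hΦ.tendsto _).comp (C6_pt_tendsto π z)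
  refine h3.congr' ?_
  filter_upwards [Filter.eventually_gt_atTop 0] with N hN
  exact C6_integral Φ π hN

end H55N
end

-- from Lib.H55N.C7
section

namespace H55N

open MeasureTheory

/-! Chunk C7 (S/M). The limit of the alternating sums. Exchange the sums over a and π; for fixed π the sum over a is η π N / N^m * sum_a Φ(kv a π j / N) with
Φ(z_0..z_m) = B(fun j => tt lm (z_j)) (det_asym; continuous because tt lm z > 0 and z -> tt lm z is continuous), which tends to Delta * int Φ(z,..,z)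
(riemann_sum); there are m! permutations (Fintype.card_perm). -/

theorem riemann (m : ℕ) (lm : Fin (m + 1) → Fin m → ℝ) (h0 : ∀ j, ∑ i, lm i j = 0)
    (B : (Fin (m + 1) → Fin (m + 1) → ℝ) → ℂ) (hB : ContinuousOn B {t | ∀ j i, 0 < t j i}) :
    Filter.Tendsto (fun N : ℕ => ∑ a : Fin m → Fin N, ∑ π : Equiv.Perm (Fin m),
      ((Equiv.Perm.sign π : ℤ) : ℂ) * (((Matrix.det (Matrix.of fun j i : Fin (m + 1) =>
        tt lm (fun k => (kv (fun k => ((a k : ℕ) : ℤ)) π j k : ℝ) / N) i) : ℝ) : ℂ) *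
        B fun j => tt lm (fun k => (kv (fun k => ((a k : ℕ) : ℤ)) π j k : ℝ) / N))) Filter.atTop
      (nhds ((m.factorial : ℂ) * ((Delta lm : ℝ) : ℂ) *
        ∫ z in Set.Icc (0 : Fin m → ℝ) 1, B (fun _ => tt lm z))) := by
  obtain ⟨η, hη, hη2⟩ := det_asym m lm h0
  have hc : Continuous fun z : Fin (m + 1) → Fin m → ℝ => B (fun j => tt lm (z j)) := by
    refine hB.comp_continuous ?_ ?_
    · refine continuous_pi fun j => continuous_pi fun i => ?_
      unfold tt
      fun_prop
    · intro z j i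
      exact Real.exp_pos _
  have h1 : ∀ π : Equiv.Perm (Fin m), Filter.Tendsto (fun N : ℕ => ((η π N : ℝ) : ℂ) *
      ((∑ a : Fin m → Fin N,
      B (fun j => tt lm (fun k => (kv (fun k => ((a k : ℕ) : ℤ)) π j k : ℝ) / N))) /
        (N : ℂ) ^ m)) Filter.atTop
      (nhds (((Delta lm : ℝ) : ℂ) *
        ∫ z in Set.Icc (0 : Fin m → ℝ) 1, B (fun _ => tt lm z))) := by
    intro π
    have h2 : Filter.Tendsto (fun N : ℕ => ((η π N : ℝ) : ℂ)) Filter.atTop
        (nhds ((Delta lm : ℝ) : ℂ)) := (Complex.continuous_ofReal.tendsto _).comp (hη π)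
    exact h2.mul (riemann_sum m _ hc π)
  have h2 := tendsto_finsetSum (Finset.univ : Finset (Equiv.Perm (Fin m))) fun π _ => h1 π
  have h3 : ∑ π : Equiv.Perm (Fin m), ((Delta lm : ℝ) : ℂ) *
      ∫ z in Set.Icc (0 : Fin m → ℝ) 1, B (fun _ => tt lm z) =
      (m.factorial : ℂ) * ((Delta lm : ℝ) : ℂ) *
        ∫ z in Set.Icc (0 : Fin m → ℝ) 1, B (fun _ => tt lm z) := by
    rw [Finset.sum_const, Finset.card_univ, Fintype.card_perm, Fintype.card_fin, nsmul_eq_mul]
    ring
  rw [h3] at h2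
  refine h2.congr' ?_
  filter_upwards [Filter.eventually_gt_atTop 0] with N hN
  rw [Finset.sum_comm]
  refine Finset.sum_congr rfl fun π _ => ?_
  rw [Finset.sum_div, Finset.mul_sum]
  refine Finset.sum_congr rfl fun a _ => ?_
  have h4 := hη2 N hN (fun k => ((a k : ℕ) : ℤ)) π
  have h5 : ((Equiv.Perm.sign π : ℤ) : ℂ) * ((Matrix.det (Matrix.of fun j i : Fin (m + 1) =>
        tt lm (fun k => (kv (fun k => ((a k : ℕ) : ℤ)) π j k : ℝ) / N) i) : ℝ) : ℂ) =
      ((η π N : ℝ) : ℂ) / (N : ℂ) ^ m := by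
    have h6 : ((Equiv.Perm.sign π : ℤ) : ℂ) = (((Equiv.Perm.sign π : ℤ) : ℝ) : ℂ) := by
      push_cast
      rfl
    rw [h6, ← Complex.ofReal_mul, h4]
    push_cast
    rfl
  rw [← mul_assoc, h5]
  ring

end H55N
end
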