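import Mathlib
import Pool.Agent.Lib.H1M.PP2.D_H55P_Defs
import Pool.Agent.Lib.H1M.PP2.D_H55P_GD
import Pool.Agent.Lib.H1M.PP2.D_H55P_Sel
import Pool.Agent.Lib.H1M.PP2.M010
import Pool.Agent.Lib.H1M.PP2.M020
import Pool.Agent.Lib.H1M.PP2.M022
import Pool.Agent.Lib.H1M.PP2.M023
import Pool.Agent.Lib.H1M.PP2.M032
import Pool.Agent.Lib.H1M.PP2.M040
import Pool.Agent.Lib.H1M.PP2.M041
import Pool.Agent.Lib.H1M.PP2.M048

/-! Merged copies (to shorten the build) of Lib.H55P.GD_T, Lib.H55P.TD, Lib.H55K.D0, Lib.H55K.C0, Lib.H55P.L1, Lib.H55P.D2, Lib.H55P.N1, Lib.H55P.T1, Lib.H55P.T7, Lib.H55K.C10, Lib.H55K.M0, Lib.H55P.D3, Lib.H55K.D1, Lib.H55N.H12, Lib.H55P.CD, Lib.H55N.D2, Lib.H55R.D1, Lib.H55R.D2. -/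

-- from Lib.H55P.GD_T
section

open NumberField IsDedekindDomain

namespace H55P

open H55N
open H55B (g)

variable {F : Type} [Field F] [NumberField F] [IQ F] {K : Type} [Field K] [NumberField K]
  [Algebra F K] {m : ℕ}

/-! Definitions of the arithmetic part of the analytic core. -/

/-- The modulus M of a Hecke character, prime to p; l is a prime element dividing it; the only unit of O congruent to 1
modulo M is 1. -/
structure Mod (p : ℕ) (M : Ideal (𝓞 F)) (l : 𝓞 F) : Prop where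
  ne : M ≠ ⊥
  cop : IsCoprime M (Ideal.span {(p : 𝓞 F)})
  prime : Prime l
  le : M ≤ Ideal.span {l}
  unit : ∀ η : (𝓞 F)ˣ, (η : 𝓞 F) - 1 ∈ M → η = 1

/-- The ideal of K generated by the modulus. -/
noncomputable def mK (K : Type) [Field K] [NumberField K] [Algebra F K] (M : Ideal (𝓞 F)) : Ideal (𝓞 K) :=
  M.map (algebraMap (𝓞 F) (𝓞 K))


/-- Rational labels. -/
structure LabP (p : ℕ) (l : 𝓞 F) (b : Ideal (𝓞 K)) (c₀ : 𝓞 K) (u : Fin m → (𝓞 K)ˣ)
    (L : (Fin m → ℤ) → K) : Prop where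
  equi : ∀ a z : Fin m → ℤ, L (a + ((m + 1 : ℕ) : ℤ) • z) = ((uu u z : 𝓞 K) : K) * L a
  int : ∀ a, ∀ x ∈ b, ∃ y : 𝓞 F, Algebra.trace F K ((x : K) * L a) = algebraMap (𝓞 F) F y
  one : ∀ a, ∃ y : 𝓞 F, Algebra.trace F K ((c₀ : K) * L a) = algebraMap (𝓞 F) F (1 + l * y)
  cop : ∀ (a : Fin m → ℤ) (π : Equiv.Perm (Fin m)), ∃ d : 𝓞 F, IsCoprime d (p : 𝓞 F) ∧
    ∀ y : Fin (m + 1) → 𝓞 F, ∃ x ∈ b, ∀ k : Fin (m + 1),
      Algebra.trace F K ((x : K) * L (kv a π k)) = algebraMap (𝓞 F) F (d * y k)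

end H55P
end

-- from Lib.H55P.TD
section

open NumberField IsDedekindDomain

namespace H55P

open H55N
open H55B (g)

variable {F : Type} [Field F] [NumberField F] [IQ F] {K : Type} [Field K] [NumberField K]
  [Algebra F K] {m : ℕ}

/-! Definitions for the tower part: Hecke characters with values in O, their base changes, L-series, characters of order p. -/

/-- ψ is a Hecke character of type (1,0) of F with values in O and modulus M. -/
structure IsHecke (M : Ideal (𝓞 F)) (ψ : Ideal (𝓞 F) →*₀ 𝓞 F) : Prop where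
  ne : M ≠ ⊥
  ntop : M ≠ ⊤
  gen : ∀ J, IsCoprime J M → Ideal.span {ψ J} = J
  zero : ∀ J, ¬ IsCoprime J M → ψ J = 0
  per : ∀ x y : 𝓞 F, IsCoprime (Ideal.span {x}) M → IsCoprime (Ideal.span {y}) M → x - y ∈ M →
    ψ (Ideal.span {x}) * y = ψ (Ideal.span {y}) * x

/-- The complex conjugate of the Hecke character over K, as a function on ideals. -/
noncomputable def PsiP (K : Type) [Field K] [NumberField K] [Algebra F K]
    (ψ : Ideal (𝓞 F) →*₀ 𝓞 F) : Ideal (𝓞 K) →*₀ ℂ :=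
  (((starRingEnd ℂ).comp (eF F)).toMonoidWithZeroHom.comp ψ).comp
    (Ideal.relNorm (𝓞 F) : Ideal (𝓞 K) →*₀ Ideal (𝓞 F))

theorem PsiP_apply (ψ : Ideal (𝓞 F) →*₀ 𝓞 F) (a : Ideal (𝓞 K)) :
    PsiP K ψ a = (starRingEnd ℂ) (eF F (ψ (Ideal.relNorm (𝓞 F) a))) := rfl

/-- The L-series of h converges for Re s > 3/2, continues to Re s > 1/2 and its value at 1, divided by
the power of the period, is a unit at V. -/
def LVP (F : Type) [Field F] [NumberField F] [IQ F] {K : Type} [Field K] [NumberField K] [Algebra F K]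
    (V : ValuationSubring ℂ) (Om : ℂ) (h : Ideal (𝓞 K) →*₀ ℂ) : Prop :=
  ∃ Λ : ℂ → ℂ, AnalyticOnNhd ℂ Λ {s | 1 / 2 < s.re} ∧
    (∀ s : ℂ, 3 / 2 < s.re → HasSum (tm h s) (Λ s)) ∧
    V.valuation (Λ 1 / Om ^ Module.finrank F K) = 1

/-- Characters of order dividing p with modulus f prime to p, on ideals. -/
structure PChr {K : Type} [Field K] [NumberField K] (p : ℕ) (f : Ideal (𝓞 K))
    (χ : Ideal (𝓞 K) →*₀ ℂ) : Prop where
  ne : f ≠ ⊥
  cop : IsCoprime f (Ideal.span {(p : 𝓞 K)})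
  val : ∀ a : Ideal (𝓞 K), a ≠ ⊥ → IsCoprime a f → χ a ^ p = 1
  zero : ∀ a : Ideal (𝓞 K), ¬ IsCoprime a f → χ a = 0
  per : ∀ x y : 𝓞 K, x ≠ 0 → y ≠ 0 → IsCoprime (Ideal.span {x}) f → x - y ∈ f →
    χ (Ideal.span {x}) = χ (Ideal.span {y})

/-- The decomposition law in a cyclic extension K'/K of prime degree p with character χ. -/
def SplitP (K K' : Type) [Field K] [NumberField K] [Field K'] [NumberField K'] [Algebra K K'] (p : ℕ)
    (χ : Ideal (𝓞 K) →*₀ ℂ) : Prop :=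
  ∀ w : HeightOneSpectrum (𝓞 K), ∃ T : Finset (HeightOneSpectrum (𝓞 K')),
    (∀ W, W ∈ T ↔ W.asIdeal.under (𝓞 K) = w.asIdeal) ∧
    ((χ w.asIdeal = 1 ∧ T.card = p ∧ ∀ W ∈ T, Ideal.relNorm (𝓞 K) W.asIdeal = w.asIdeal) ∨
     (χ w.asIdeal ^ p = 1 ∧ χ w.asIdeal ≠ 1 ∧ T.card = 1 ∧
       ∀ W ∈ T, Ideal.relNorm (𝓞 K) W.asIdeal = w.asIdeal ^ p) ∨
     (χ w.asIdeal = 0 ∧ T.card = 1 ∧ ∀ W ∈ T, Ideal.relNorm (𝓞 K) W.asIdeal = w.asIdeal))

/-- The powers χ^(j+1). -/
noncomputable def chp {K : Type} [Field K] [NumberField K] (χ : Ideal (𝓞 K) →*₀ ℂ) :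
    ℕ → (Ideal (𝓞 K) →*₀ ℂ)
  | 0 => χ
  | j + 1 => chp χ j * χ

theorem chp_apply {K : Type} [Field K] [NumberField K] (χ : Ideal (𝓞 K) →*₀ ℂ) (j : ℕ)
    (a : Ideal (𝓞 K)) : chp χ j a = χ a ^ (j + 1) := by
  induction j with
  | zero => simp [chp]
  | succ j ih =>
    show chp χ j a * χ a = _
    rw [ih, pow_succ (χ a) (j + 1)]

/-- There is an ideal a prime to p and M with 1 - Ψ(a) a unit at V. -/
def NTP (K : Type) [Field K] [NumberField K] [Algebra F K] (p : ℕ) (M : Ideal (𝓞 F))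
    (ψ : Ideal (𝓞 F) →*₀ 𝓞 F) (V : ValuationSubring ℂ) : Prop :=
  ∃ a : Ideal (𝓞 K), IsCoprime a (Ideal.span {(p : 𝓞 K)}) ∧ IsCoprime a (mK K M) ∧
    V.valuation (1 - PsiP K ψ a) = 1

end H55P
end

-- from Lib.H55K.D0
section

/-!
# H55K: elliptic curves with complex multiplication by the integers of a field of class number one (definitions)

F is one of the nine imaginary quadratic fields of class number one, O = 𝓞 F, Ω an algebraic closure of F. The curve is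
y^2 = x^3 + A x + B with A, B in F, and the lattice of its periods is Om O. See PROOF.md.
-/

open NumberField IsDedekindDomain WeierstrassCurve

namespace H55K

open H55P (IQ embF eF LF Per IsHecke Pt ac Inert Dec)
open H35P (WAB Ker tt)

section coords

variable {k : Type} [Field k] {W : WeierstrassCurve k}

/-- The x-coordinate (0 at infinity). -/
noncomputable def xc : W.toAffine.Point → k
  | .zero => 0
  | .some x _ _ => x

/-- The y-coordinate (0 at infinity). -/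
noncomputable def yc : W.toAffine.Point → k
  | .zero => 0
  | .some _ y _ => y

end coords

section act

variable {F : Type} [Field F] {Ω : Type} [Field Ω] [DecidableEq Ω] [Algebra F Ω]

/-- The image in Ω of an integer of F. -/
noncomputable abbrev ak (Ω : Type) [Field Ω] [Algebra F Ω] (a : 𝓞 F) : Ω := algebraMap F Ω (a : F)

variable {W : WeierstrassCurve F}

/-- The points killed by b. -/
def Tor (act : 𝓞 F →+* AddMonoid.End (Pt W Ω)) (b : 𝓞 F) : AddSubgroup (Pt W Ω) :=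
  AddMonoidHom.ker (act b : Pt W Ω →+ Pt W Ω)

/-- S is the set of the nonzero points killed by b. -/
def TN (act : 𝓞 F →+* AddMonoid.End (Pt W Ω)) (b : 𝓞 F) (S : Finset (Pt W Ω)) : Prop :=
  ∀ T, T ∈ S ↔ act b T = 0 ∧ T ≠ 0

/-- The primes of F above which y^2 = x^3 + A x + B is good, of residue characteristic at least 5: the valuation ring V. -/
structure GV (A B : F) (V : ValuationSubring Ω) : Prop where
  a : algebraMap F Ω A ∈ V
  b : algebraMap F Ω B ∈ V
  two : V.valuation (2 : Ω) = 1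
  three : V.valuation (3 : Ω) = 1
  disc : V.valuation (algebraMap F Ω (4 * A ^ 3 + 27 * B ^ 2)) = 1

/-- A good model at the valuation ring V over the algebraically closed field Ω: Kg is the kernel of its reduction, u the scaling factor. -/
structure GMod (W : WeierstrassCurve F) (V : ValuationSubring Ω) (Kg : AddSubgroup (Pt W Ω)) (u : Ω) : Prop where
  une : u ≠ 0
  tors : ∀ n : ℕ, V.valuation (n : Ω) = 1 → ∀ T ∈ Kg, n • T = 0 → T = 0
  diff : ∀ P Q : Pt W Ω, P ∉ Kg → Q ∉ Kg → P - Q ∉ Kg → P + Q ∉ Kg →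
    V.valuation (xc P - xc Q) = V.valuation u ^ 2
  far : ∀ P P' Q : Pt W Ω, P ∉ Kg → P' ∉ Kg → Q ∈ Kg → Q ≠ 0 →
    V.valuation (xc P - xc Q) = V.valuation (xc P' - xc Q)
  inert : ∀ s : Ω ≃ₐ[F] Ω, Inert V s →
    (∃ T₁ T₂ : Pt W Ω, T₁ ∉ Kg ∧ T₂ ∉ Kg ∧ T₁ - T₂ ∉ Kg ∧ T₁ + T₂ ∉ Kg ∧ T₁ + T₁ ∉ Kg ∧
      ac W s T₁ = T₁ ∧ ac W s T₂ = T₂) → ∀ P : Pt W Ω, ac W s P - P ∈ Kg

end act

/-- The complex multiplication: the integers of F act on the points over Ω of y^2 = x^3 + A x + B; j is a complex embedding of Ω. -/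
structure CMA (F : Type) [Field F] [NumberField F] [IQ F] (A B : F) (Om : ℂ) {Ω : Type} [Field Ω] [DecidableEq Ω]
    [Algebra F Ω] (j : Ω →+* ℂ) (act : 𝓞 F →+* AddMonoid.End (Pt (WAB A B) Ω)) : Prop where
  disc : 4 * A ^ 3 + 27 * B ^ 2 ≠ 0
  per : Per F (embF F A) (embF F B) Om
  ovr : ∀ x : F, j (algebraMap F Ω x) = embF F x
  gal : ∀ (s : Ω ≃ₐ[F] Ω) (a : 𝓞 F) (P : Pt (WAB A B) Ω),
    ac (WAB A B) s (act a P) = act a (ac (WAB A B) s P)
  surj : ∀ b : 𝓞 F, b ≠ 0 → ∀ P : Pt (WAB A B) Ω, ∃ Q, act b Q = P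
  gen : ∀ b : 𝓞 F, b ≠ 0 → ∃ T₀ ∈ Tor act b, (∀ T ∈ Tor act b, ∃ a, T = act a T₀) ∧
    (∀ a, act a T₀ = 0 ↔ b ∣ a) ∧ ∀ a, ¬ b ∣ a →
      j (xc (act a T₀)) = (LF F).weierstrassP (eF F a / eF F b) / Om ^ 2 ∧
      j (yc (act a T₀)) = (LF F).derivWeierstrassP (eF F a / eF F b) / (2 * Om ^ 3)
  e1x : ∀ (a : 𝓞 F) (S : Finset (Pt (WAB A B) Ω)), a ≠ 0 → TN act a S → ∀ P, act a P ≠ 0 →
    ak Ω a ^ 2 * xc (act a P) = xc P + ∑ T ∈ S, (xc (P + T) - xc T)
  e1y : ∀ (a : 𝓞 F) (S : Finset (Pt (WAB A B) Ω)), a ≠ 0 → TN act a S → ∀ P, act a P ≠ 0 →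
    ak Ω a ^ 3 * yc (act a P) = yc P + ∑ T ∈ S, yc (P + T)
  e2 : ∀ (b : 𝓞 F) (S : Finset (Pt (WAB A B) Ω)), b ≠ 0 → TN act b S → ∀ X Y, act b X ≠ 0 →
    act b Y ≠ 0 → ak Ω b ^ 2 * (xc (act b X) - xc (act b Y)) * ∏ R ∈ S, (xc R - xc Y) =
      (xc X - xc Y) * ∏ R ∈ S, (xc (X + R) - xc Y)

/-- The complete data: complex multiplication, the Hecke character ψ of modulus m of the curve (its values at the primes of
degree one are the Frobenius elements), a prime number l ≥ 5, unramified in F, of good reduction and prime to m,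
and an integral j-invariant. -/
structure Dta {F : Type} [Field F] [NumberField F] [IQ F] (A B : F) (Om : ℂ) {Ω : Type} [Field Ω] [DecidableEq Ω]
    [Algebra F Ω] (j : Ω →+* ℂ) (act : 𝓞 F →+* AddMonoid.End (Pt (WAB A B) Ω))
    (m : Ideal (𝓞 F)) (ψ : Ideal (𝓞 F) →*₀ 𝓞 F) (l : ℕ) : Prop where
  cma : CMA F A B Om j act
  hecke : IsHecke m ψ
  prime : l.Prime
  five : 5 ≤ l
  unr : ∀ v : HeightOneSpectrum (𝓞 F), (l : 𝓞 F) ∉ v.asIdeal ^ 2
  cop : IsCoprime m (Ideal.span {(l : 𝓞 F)})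
  good : ∀ V : ValuationSubring Ω, V.valuation (l : Ω) < 1 → GV A B V
  gmod : ∀ V : ValuationSubring Ω, ∃ (Kg : AddSubgroup (Pt (WAB A B) Ω)) (u : Ω), GMod (WAB A B) V Kg u
  fin : ∃ S : Set (HeightOneSpectrum (𝓞 F)), S.Finite ∧ ∀ v ∉ S, ∀ V : ValuationSubring Ω,
    (∀ a : 𝓞 F, a ∈ v.asIdeal → V.valuation (ak Ω a) < 1) → GV A B V
  frob : ∃ S : Set (HeightOneSpectrum (𝓞 F)), S.Finite ∧ ∀ v ∉ S, (Ideal.absNorm v.asIdeal).Prime →
    ∀ V : ValuationSubring Ω, (∀ a : 𝓞 F, a ∈ v.asIdeal → V.valuation (ak Ω a) < 1) →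
      ∀ s : Ω ≃ₐ[F] Ω, (∀ x ∈ V, V.valuation (s x - x ^ Ideal.absNorm v.asIdeal) < 1) →
        ∀ n : ℕ, V.valuation (n : Ω) = 1 → ∀ T : Pt (WAB A B) Ω, n • T = 0 →
          ac (WAB A B) s T = act (ψ v.asIdeal) T

end H55K
end

-- from Lib.H55K.C0
section

/-!
# H55K, part C: existence of the complex multiplication (definitions)

L is a PeriodPair, Λ = L.lattice. XL, YL: the coordinates of the point of y^2 = x^3 + A x + B with parameter z.
-/

open NumberField WeierstrassCurve Polynomial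

namespace H55K.CC

open H55P (IQ embF eF LF Per Pt ac mem_LF eF_inj eF_ne Nm Nm_eq)
open H35P (WAB)

/-- The x-coordinate of the point with parameter z. -/
noncomputable def XL (L : PeriodPair) (Om z : ℂ) : ℂ := L.weierstrassP z / Om ^ 2

/-- The y-coordinate of the point with parameter z. -/
noncomputable def YL (L : PeriodPair) (Om z : ℂ) : ℂ := L.derivWeierstrassP z / (2 * Om ^ 3)

/-- Λ is stable under β and S is a set of representatives of the nonzero classes of β⁻¹ Λ modulo Λ. -/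
structure Rep (L : PeriodPair) (β : ℂ) (S : Finset ℂ) : Prop where
  ne : β ≠ 0
  st : ∀ l ∈ L.lattice, β * l ∈ L.lattice
  mem : ∀ r ∈ S, β * r ∈ L.lattice
  out : ∀ r ∈ S, r ∉ L.lattice
  inj : ∀ r ∈ S, ∀ r' ∈ S, r - r' ∈ L.lattice → r = r'
  ex : ∀ w, β * w ∈ L.lattice → w ∈ L.lattice ∨ ∃ r ∈ S, w - r ∈ L.lattice

theorem Rep.z_out {L : PeriodPair} {β : ℂ} {S : Finset ℂ} (h : Rep L β S) {z : ℂ} (hz : β * z ∉ L.lattice) :
    z ∉ L.lattice := fun h0 => hz (h.st z h0)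

theorem Rep.zr_out {L : PeriodPair} {β : ℂ} {S : Finset ℂ} (h : Rep L β S) {z : ℂ} (hz : β * z ∉ L.lattice)
    {r : ℂ} (hr : r ∈ S) : z + r ∉ L.lattice := by
  intro h0
  apply hz
  have h1 := sub_mem (h.st _ h0) (h.mem r hr)
  have e1 : β * (z + r) - β * r = β * z := by ring
  rwa [e1] at h1

theorem Rep.zs_out {L : PeriodPair} {β : ℂ} {S : Finset ℂ} (h : Rep L β S) {z : ℂ} (hz : β * z ∉ L.lattice)
    {r : ℂ} (hr : r ∈ S) : z - r ∉ L.lattice := by
  intro h0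
  apply hz
  have h1 := add_mem (h.st _ h0) (h.mem r hr)
  have e1 : β * (z - r) + β * r = β * z := by ring
  rwa [e1] at h1

theorem wp_per (L : PeriodPair) (z : ℂ) {l : ℂ} (hl : l ∈ L.lattice) : L.weierstrassP (z + l) = L.weierstrassP z :=
  L.weierstrassP_add_coe z ⟨l, hl⟩

theorem wpd_per (L : PeriodPair) (z : ℂ) {l : ℂ} (hl : l ∈ L.lattice) :
    L.derivWeierstrassP (z + l) = L.derivWeierstrassP z :=
  L.derivWeierstrassP_add_coe z ⟨l, hl⟩

/-- The polynomials N, D describe multiplication by α on x-coordinates. -/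
structure ND {K : Type} [Field K] (α A B : K) (d : ℕ) (N D : K[X]) : Prop where
  dN : N.natDegree ≤ d + 1
  cN : α ^ 2 * N.coeff (d + 1) = 1
  dD : D.natDegree ≤ d
  cD : D.coeff d = 1
  ode : (X ^ 3 + C A * X + C B) * (derivative N * D - N * derivative D) ^ 2 =
    C (α ^ 2) * D * (N ^ 3 + C A * N * D ^ 2 + C B * D ^ 3)

section

variable {F : Type} [Field F] [NumberField F] [IQ F] {Ω : Type} [Field Ω] [DecidableEq Ω] [Algebra F Ω]

/-- The hypotheses. -/
structure CH (A B : F) (Om : ℂ) {Ω : Type} [Field Ω] [Algebra F Ω] (j : Ω →+* ℂ) : Prop where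
  disc : 4 * A ^ 3 + 27 * B ^ 2 ≠ 0
  per : Per F (embF F A) (embF F B) Om
  ovr : ∀ x : F, j (algebraMap F Ω x) = embF F x

/-- The point P has the parameter z. -/
def U (A B : F) (Om : ℂ) (j : Ω →+* ℂ) (P : Pt (WAB A B) Ω) (z : ℂ) : Prop :=
  (P = 0 ∧ z ∈ (LF F).lattice) ∨
  (P ≠ 0 ∧ z ∉ (LF F).lattice ∧ j (xc P) = XL (LF F) Om z ∧ j (yc P) = YL (LF F) Om z)

/-- The action of the integers. -/
def Act (A B : F) (Om : ℂ) (j : Ω →+* ℂ) (act : 𝓞 F →+* AddMonoid.End (Pt (WAB A B) Ω)) : Prop :=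
  ∀ (a : 𝓞 F) (P : Pt (WAB A B) Ω) (z : ℂ), U A B Om j P z → U A B Om j (act a P) (eF F a * z)

omit [DecidableEq Ω] in
theorem U.zero_iff {A B : F} {Om : ℂ} {j : Ω →+* ℂ} {P : Pt (WAB A B) Ω} {z : ℂ} (h : U A B Om j P z) :
    P = 0 ↔ z ∈ (LF F).lattice := by
  rcases h with ⟨h1, h2⟩ | ⟨h1, h2, -, -⟩
  · exact ⟨fun _ => h2, fun _ => h1⟩
  · exact ⟨fun h => absurd h h1, fun h => absurd h h2⟩

omit [DecidableEq Ω] in
theorem U.xc_eq {A B : F} {Om : ℂ} {j : Ω →+* ℂ} {P : Pt (WAB A B) Ω} {z : ℂ} (h : U A B Om j P z)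
    (h0 : z ∉ (LF F).lattice) : j (xc P) = XL (LF F) Om z := by
  rcases h with ⟨h1, h2⟩ | ⟨h1, h2, h3, -⟩
  · exact absurd h2 h0
  · exact h3

omit [DecidableEq Ω] in
theorem U.yc_eq {A B : F} {Om : ℂ} {j : Ω →+* ℂ} {P : Pt (WAB A B) Ω} {z : ℂ} (h : U A B Om j P z)
    (h0 : z ∉ (LF F).lattice) : j (yc P) = YL (LF F) Om z := by
  rcases h with ⟨h1, h2⟩ | ⟨h1, h2, -, h3⟩
  · exact absurd h2 h0
  · exact h3

end

end H55K.CC
end

-- from Lib.H55P.L1
section

open NumberField IsDedekindDomain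

namespace H55P

open H55N
open H55B (g)

variable {F : Type} [Field F] [NumberField F] [IQ F] {K : Type} [Field K] [NumberField K]
  [Algebra F K] {m : ℕ}


theorem pl1_smul (y : (𝓞 F)) (x : 𝓞 K) : y • x = algebraMap (𝓞 F) (𝓞 K) y * x := Algebra.smul_def y x

theorem pl1_int_mem (b : Ideal (𝓞 K)) (hb : b ≠ ⊥) : ∃ N : ℕ, N ≠ 0 ∧ (N : 𝓞 K) ∈ b :=
  ⟨Ideal.absNorm b, fun h => hb (Ideal.absNorm_eq_zero_iff.1 h), Ideal.absNorm_mem b⟩

theorem pl1_int_mul (x : K) : ∃ (M : ℤ) (z : 𝓞 K), M ≠ 0 ∧ (z : K) = (M : K) * x := by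
  have hx : IsAlgebraic ℤ x := by
    have h1 : IsAlgebraic ℚ x := Algebra.IsAlgebraic.isAlgebraic x
    exact (IsFractionRing.isAlgebraic_iff ℤ ℚ K).2 h1
  obtain ⟨M, hM, h⟩ := hx.exists_integral_multiple
  refine ⟨M, ⟨M • x, h⟩, hM, ?_⟩
  show M • x = _
  rw [zsmul_eq_mul]

theorem pl1_basis (hm : Module.finrank F K = m + 1) (b : Ideal (𝓞 K)) (hb : b ≠ ⊥) :
    ∃ (β : Fin (m + 1) → 𝓞 K), (∀ j, β j ∈ b) ∧
      (∀ x ∈ b, ∃ y : Fin (m + 1) → (𝓞 F), x = ∑ j, algebraMap (𝓞 F) (𝓞 K) (y j) * β j) ∧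
      LinearIndependent F (fun j => (β j : K)) := by
  have := a1_fin hm
  have : Module.Finite (𝓞 F) (𝓞 K) := inferInstance
  have : Module.Free (𝓞 F) (b.restrictScalars (𝓞 F)) := by
    have : Module.IsTorsionFree (𝓞 F) (𝓞 K) := inferInstance
    exact Module.free_of_finite_type_torsion_free'
  let B := Module.finBasis (𝓞 F) (b.restrictScalars (𝓞 F))
  -- the images in K
  have hli0 : LinearIndependent (𝓞 F) (fun j => ((B j : 𝓞 K) : K)) := by
    have h1 := B.linearIndependent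
    have h2 : LinearIndependent (𝓞 F) (fun j => ((B j : 𝓞 K))) :=
      h1.map' (Submodule.subtype _) (Submodule.ker_subtype _)
    have h3 := h2.map' (Algebra.linearMap (𝓞 K) K |>.restrictScalars (𝓞 F)) (by
      rw [LinearMap.ker_eq_bot]
      exact RingOfIntegers.coe_injective)
    exact h3
  have hli : LinearIndependent F (fun j => ((B j : 𝓞 K) : K)) :=
    LinearIndependent.localization F (nonZeroDivisors (𝓞 F)) hli0
  have hrep : ∀ x ∈ b, ∃ y : Fin (Module.finrank (𝓞 F) (b.restrictScalars (𝓞 F))) → (𝓞 F),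
      x = ∑ j, algebraMap (𝓞 F) (𝓞 K) (y j) * (B j : 𝓞 K) := by
    intro x hx
    have hx' : x ∈ b.restrictScalars (𝓞 F) := hx
    refine ⟨fun j => B.repr ⟨x, hx'⟩ j, ?_⟩
    have h1 := B.sum_repr ⟨x, hx'⟩
    have h2 := congrArg (Submodule.subtype (b.restrictScalars (𝓞 F))) h1
    rw [map_sum] at h2
    have h3 : x = ∑ j, (b.restrictScalars (𝓞 F)).subtype (B.repr ⟨x, hx'⟩ j • B j) := h2.symm
    refine h3.trans (Finset.sum_congr rfl fun j _ => ?_)
    rw [map_smul, pl1_smul]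
    rfl
  have hspan : ⊤ ≤ Submodule.span F (Set.range fun j => ((B j : 𝓞 K) : K)) := by
    intro x _
    obtain ⟨N, hN, hNb⟩ := pl1_int_mem b hb
    obtain ⟨M, z, hM, hz⟩ := pl1_int_mul x
    obtain ⟨y, hy⟩ := hrep (N * z) (b.mul_mem_right z hNb)
    have h1 := congrArg (algebraMap (𝓞 K) K) hy
    rw [map_mul, map_natCast, map_sum] at h1
    have hzK : algebraMap (𝓞 K) K z = (M : K) * x := hz
    rw [hzK] at h1
    have hc : (algebraMap F K ((N : F) * (M : F))) ≠ 0 := by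
      rw [Ne, map_eq_zero]
      exact mul_ne_zero (Nat.cast_ne_zero.2 hN) (Int.cast_ne_zero.2 hM)
    have h2 : ((N : F) * (M : F)) • x ∈ Submodule.span F (Set.range fun j => ((B j : 𝓞 K) : K)) := by
      have h3 : ((N : F) * (M : F)) • x = (N : K) * ((M : K) * x) := by
        rw [Algebra.smul_def, map_mul, map_natCast, map_intCast, mul_assoc]
      rw [h3, h1]
      refine Submodule.sum_mem _ fun j _ => ?_
      rw [map_mul]
      have h4 : algebraMap (𝓞 K) K (algebraMap (𝓞 F) (𝓞 K) (y j)) * algebraMap (𝓞 K) K (B j : 𝓞 K) =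
          (y j : F) • ((B j : 𝓞 K) : K) := by
        rw [Algebra.smul_def]
        rfl
      rw [h4]
      exact Submodule.smul_mem _ _ (Submodule.subset_span ⟨j, rfl⟩)
    have hc' : ((N : F) * (M : F)) ≠ 0 := fun h => hc (by rw [h, map_zero])
    exact (Submodule.smul_mem_iff _ hc').1 h2
  have hcard : Module.finrank (𝓞 F) (b.restrictScalars (𝓞 F)) = m + 1 := by
    rw [← hm]
    have h := Module.finrank_eq_card_basis (Module.Basis.mk hli hspan)
    rw [h, Fintype.card_fin]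
  let E : Fin (m + 1) ≃ Fin (Module.finrank (𝓞 F) (b.restrictScalars (𝓞 F))) := finCongr hcard.symm
  refine ⟨fun j => (B (E j) : 𝓞 K), fun j => (B (E j)).2, ?_, ?_⟩
  · intro x hx
    obtain ⟨y, hy⟩ := hrep x hx
    refine ⟨fun j => y (E j), ?_⟩
    rw [hy]
    exact (E.sum_comp fun j => algebraMap (𝓞 F) (𝓞 K) (y j) * (B j : 𝓞 K)).symm
  · exact hli.comp E E.injective

/-- The dual basis for the trace form. -/
theorem pl1_dual (hm : Module.finrank F K = m + 1) (A : Fin (m + 1) → K)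
    (hA : LinearIndependent F A) :
    ∃ A' : Fin (m + 1) → K, LinearIndependent F A' ∧
      ∀ j k, Algebra.trace F K (A j * A' k) = if j = k then 1 else 0 := by
  have := a1_fin hm
  let B : Module.Basis (Fin (m + 1)) F K :=
    basisOfLinearIndependentOfCardEqFinrank hA (by rw [hm, Fintype.card_fin])
  have hB : ∀ j, B j = A j := fun j => by
    rw [coe_basisOfLinearIndependentOfCardEqFinrank]
  let B' := (Algebra.traceForm F K).dualBasis (traceForm_nondegenerate F K) B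
  refine ⟨B', B'.linearIndependent, fun j k => ?_⟩
  have h := LinearMap.BilinForm.apply_dualBasis_left (B := Algebra.traceForm F K)
    (hB := traceForm_nondegenerate F K) (b := B) k j
  rw [Algebra.traceForm_apply, hB] at h
  rw [mul_comm]
  exact h

theorem dual_basis (hm : Module.finrank F K = m + 1) (b : Ideal (𝓞 K)) (hb : b ≠ ⊥) :
    ∃ (β : Fin (m + 1) → 𝓞 K) (β' : Fin (m + 1) → K), (∀ j, β j ∈ b) ∧
      (∀ j k, Algebra.trace F K ((β j : K) * β' k) = if j = k then 1 else 0) ∧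
      (∀ x ∈ b, ∃ y : Fin (m + 1) → (𝓞 F), x = ∑ j, algebraMap (𝓞 F) (𝓞 K) (y j) * β j) ∧
      LinearIndependent F β' := by
  obtain ⟨β, h1, h2, h3⟩ := pl1_basis hm b hb
  obtain ⟨β', h4, h5⟩ := pl1_dual hm _ h3
  exact ⟨β, β', h1, h5, h2, h4⟩

/-- Dual bases and directions: for a basis A of K/F and a nonzero ideal I there are nonzero d_j in I with Tr(d_j A_k) = 0 for k <> j. PROOF. The dual basis A* of A
for the trace form; multiply A*_j by a nonzero integer M with M A*_j in O_K (exists_integral_multiple) and by a nonzero element of I. -/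
theorem directions (hm : Module.finrank F K = m + 1) (A : Fin (m + 1) → K)
    (hA : LinearIndependent F A) (I : Ideal (𝓞 K)) (hI : I ≠ ⊥) :
    ∃ d : Fin (m + 1) → 𝓞 K, (∀ j, d j ∈ I) ∧ (∀ j, d j ≠ 0) ∧
      ∀ j k, k ≠ j → Algebra.trace F K ((d j : K) * A k) = 0 := by
  obtain ⟨A', h1, h2⟩ := pl1_dual hm A hA
  obtain ⟨N, hN, hNI⟩ := pl1_int_mem I hI
  choose M z hM hz using fun j => pl1_int_mul (A' j)
  refine ⟨fun j => N * z j, fun j => I.mul_mem_right _ hNI, fun j => ?_, fun j k hjk => ?_⟩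
  · refine mul_ne_zero (Nat.cast_ne_zero.2 hN) ?_
    intro h
    have h3 : ((z j : 𝓞 K) : K) = 0 := by rw [h]; rfl
    rw [hz j] at h3
    rcases mul_eq_zero.1 h3 with h4 | h4
    · exact hM j (Int.cast_eq_zero.1 h4)
    · exact h1.ne_zero j h4
  · have h3 : (((N : 𝓞 K) * z j : 𝓞 K) : K) * A k = ((N : F) * (M j : F)) • (A k * A' j) := by
      rw [Algebra.smul_def, map_mul, map_natCast, map_intCast]
      have h4 : (((N : 𝓞 K) * z j : 𝓞 K) : K) = (N : K) * ((z j : 𝓞 K) : K) := by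
        rw [← map_natCast (algebraMap (𝓞 K) K) N]
        exact map_mul (algebraMap (𝓞 K) K) _ _
      rw [h4, hz j]
      ring
    rw [h3, map_smul, h2 k j, if_neg hjk, smul_zero]


theorem absNorm_cop (p : ℕ) (hp : p.Prime) (b : Ideal (𝓞 K)) (hb : IsCoprime b (Ideal.span {(p : 𝓞 K)})) :
    ¬ p ∣ Ideal.absNorm b := by
  have hb0 : b ≠ ⊥ := by
    rintro rfl
    obtain ⟨x, hx, y, hy, h⟩ := Ideal.isCoprime_iff_exists.1 hb
    rw [Ideal.mem_bot] at hx
    rw [hx, zero_add] at h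
    rw [h, Ideal.mem_span_singleton] at hy
    obtain ⟨c, hc⟩ := hy
    have h1 := congrArg (Algebra.norm ℤ) hc
    rw [map_one, map_mul] at h1
    have h2 : Algebra.norm ℤ (p : 𝓞 K) = p ^ Module.finrank ℤ (𝓞 K) := by
      have := Algebra.norm_algebraMap (S := 𝓞 K) (p : ℤ)
      rw [map_natCast] at this
      exact this
    rw [h2] at h1
    have h3 : 0 < Module.finrank ℤ (𝓞 K) := Module.finrank_pos
    have h4 : (p : ℤ) ∣ 1 := by
      rw [h1]
      exact Dvd.dvd.mul_right (dvd_pow_self _ h3.ne') _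
    exact hp.one_lt.ne' (by exact_mod_cast Int.eq_one_of_dvd_one (by positivity) h4)
  intro h2
  rw [Ideal.absNorm_apply, Submodule.cardQuot_apply] at h2
  have : Finite (𝓞 K ⧸ b) := Ideal.finiteQuotientOfFreeOfNeBot b hb0
  have : Fact (Nat.Prime p) := ⟨hp⟩
  obtain ⟨z, hz⟩ := exists_prime_addOrderOf_dvd_card' (G := 𝓞 K ⧸ b) p h2
  obtain ⟨t, rfl⟩ := Ideal.Quotient.mk_surjective z
  have hz0 : Ideal.Quotient.mk b t ≠ 0 := by
    intro h
    rw [h, addOrderOf_zero] at hz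
    exact hp.one_lt.ne hz
  have hz2 : (p : 𝓞 K) * t ∈ b := by
    have h3 := addOrderOf_nsmul_eq_zero (Ideal.Quotient.mk b t)
    rw [hz] at h3
    rw [← Ideal.Quotient.eq_zero_iff_mem, map_mul, map_natCast]
    rw [nsmul_eq_mul] at h3
    exact h3
  obtain ⟨x, hx, y, hy, h⟩ := Ideal.isCoprime_iff_exists.1 hb
  obtain ⟨c, hc⟩ := Ideal.mem_span_singleton.1 hy
  apply hz0
  rw [Ideal.Quotient.eq_zero_iff_mem]
  have h5 : t = x * t + c * (p * t) := by
    rw [hc] at h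
    linear_combination (-t) * h
  rw [h5]
  exact b.add_mem (b.mul_mem_right _ hx) (b.mul_mem_left _ hz2)

theorem val_nat (p : ℕ) (hp : p.Prime) (V : ValuationSubring ℂ) (hV : V.valuation (p : ℂ) < 1) (n : ℕ)
    (hn : ¬ p ∣ n) : V.valuation (n : ℂ) = 1 := by
  have hint : ∀ k : ℤ, V.valuation (k : ℂ) ≤ 1 := fun k => by
    have h := V.valuation_le_one (k : V)
    exact_mod_cast h
  have h1 : IsCoprime (n : ℤ) (p : ℤ) := Nat.isCoprime_iff_coprime.2
    (((Nat.Prime.coprime_iff_not_dvd hp).2 hn).symm)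
  obtain ⟨a, b, h⟩ := h1
  refine le_antisymm (by exact_mod_cast hint n) ?_
  by_contra hcon
  push Not at hcon
  have h2 : (1 : ℂ) = (a : ℂ) * (n : ℂ) + (b : ℂ) * (p : ℂ) := by exact_mod_cast h.symm
  have h3 : V.valuation ((a : ℂ) * (n : ℂ)) < 1 := by
    rw [map_mul]
    exact mul_lt_one_of_nonneg_of_lt_one_right (hint a) (zero_le) hcon
  have h4 : V.valuation ((b : ℂ) * (p : ℂ)) < 1 := by
    rw [map_mul]
    exact mul_lt_one_of_nonneg_of_lt_one_right (hint b) (zero_le) hV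
  have h5 := Valuation.map_add_lt V.valuation h3 h4
  rw [← h2, map_one] at h5
  exact lt_irrefl _ h5

theorem pl1_discr (p : ℕ) (hp : p.Prime) {K : Type} [Field K] [NumberField K] (hK : UnrP p K) :
    ¬ (p : ℤ) ∣ NumberField.discr K := by
  have hpp : Prime (p : ℤ) := Nat.prime_iff_prime_int.1 hp
  rw [NumberField.not_dvd_discr_iff_forall_mem K (𝓞 K) hpp]
  intro P hP h2
  have h2' : (p : 𝓞 K) ∈ P := by exact_mod_cast h2
  have hp0 : (p : 𝓞 K) ≠ 0 := Nat.cast_ne_zero.2 hp.ne_zero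
  have hPne : P ≠ ⊥ := by
    rintro rfl
    rw [Ideal.mem_bot] at h2'
    exact hp0 h2'
  have hle : Ideal.map (algebraMap ℤ (𝓞 K)) (Ideal.span {(p : ℤ)}) = Ideal.span {(p : 𝓞 K)} := by
    rw [Ideal.map_span, Set.image_singleton, map_natCast]
  have hover : P.under ℤ = Ideal.span {(p : ℤ)} := by
    have hmax : (Ideal.span {(p : ℤ)}).IsMaximal :=
      PrincipalIdealRing.isMaximal_of_irreducible hpp.irreducible
    refine (hmax.eq_of_le (Ideal.IsPrime.ne_top inferInstance) ?_).symm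
    rw [Ideal.span_singleton_le_iff_mem, Ideal.under_def, Ideal.mem_comap, map_natCast]
    exact h2'
  have : P.LiesOver (Ideal.span {(p : ℤ)}) := ⟨hover.symm⟩
  have he : (Ideal.span {(p : ℤ)}).ramificationIdx' P = 1 := by
    refine Ideal.ramificationIdx'_spec ?_ ?_
    · rw [hle, pow_one, Ideal.span_singleton_le_iff_mem]
      exact h2'
    · rw [hle]
      intro h
      have h3 : P * P ∣ Ideal.span {(p : 𝓞 K)} := by
        rw [Ideal.dvd_iff_le, ← pow_two]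
        exact h
      have h4 := hK P h3
      rw [Ideal.isUnit_iff] at h4
      exact hP.ne_top h4
  have hne : Ideal.span {(p : ℤ)} ≠ ⊥ := by
    rw [Ne, Ideal.span_singleton_eq_bot]
    exact hpp.ne_zero
  rw [Ideal.ramificationIdx'_eq_ramificationIdx (Ideal.span {(p : ℤ)}) P hne] at he
  exact Ideal.ramificationIdx_eq_one_iff.1 he

theorem pl1_dual_int (a : K)
    (ha : ∀ x : 𝓞 K, ∃ z : ℤ, Algebra.trace ℚ K ((x : K) * a) = z) :
    ∃ y : 𝓞 K, (y : K) = (NumberField.discr K : K) * a := by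
  have hone : (1 : FractionalIdeal (nonZeroDivisors (𝓞 K)) K) ≠ 0 := one_ne_zero
  have h1 : a ∈ FractionalIdeal.dual ℤ ℚ (1 : FractionalIdeal (nonZeroDivisors (𝓞 K)) K) := by
    rw [FractionalIdeal.mem_dual hone]
    intro x hx
    rw [FractionalIdeal.mem_one_iff] at hx
    obtain ⟨x, rfl⟩ := hx
    obtain ⟨z, hz⟩ := ha x
    refine ⟨z, ?_⟩
    rw [Algebra.traceForm_apply, mul_comm]
    rw [eq_intCast]
    exact hz.symm
  have h2 : ((NumberField.discr K : ℤ) : 𝓞 K) ∈ differentIdeal ℤ (𝓞 K) := by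
    have h3 := Ideal.absNorm_mem (differentIdeal ℤ (𝓞 K))
    rw [NumberField.absNorm_differentIdeal K (𝓞 K), ← Int.cast_natCast] at h3
    rcases Int.natAbs_eq (NumberField.discr K) with h4 | h4
    · rw [h4]
      exact h3
    · rw [h4, Int.cast_neg]
      exact neg_mem h3
  have h3 : algebraMap (𝓞 K) K ((NumberField.discr K : ℤ) : 𝓞 K) ∈
      ((differentIdeal ℤ (𝓞 K) : Ideal (𝓞 K)) : FractionalIdeal (nonZeroDivisors (𝓞 K)) K) :=
    (FractionalIdeal.mem_coeIdeal (nonZeroDivisors (𝓞 K))).2 ⟨_, h2, rfl⟩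
  have h4 := FractionalIdeal.mul_mem_mul h3 h1
  rw [coeIdeal_differentIdeal (K := ℚ), inv_mul_cancel₀ (FractionalIdeal.dual_ne_zero ℤ ℚ hone),
    FractionalIdeal.mem_one_iff] at h4
  obtain ⟨y, hy⟩ := h4
  refine ⟨y, ?_⟩
  rw [map_intCast] at hy
  exact hy

theorem pl1_trace_O (y : (𝓞 F)) : ∃ z : ℤ, Algebra.trace ℚ F (y : F) = z := by
  have h : IsIntegral ℤ (Algebra.trace ℚ F (y : F)) := Algebra.isIntegral_trace y.2
  obtain ⟨z, hz⟩ := IsIntegrallyClosed.isIntegral_iff.1 h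
  exact ⟨z, by rw [← hz, eq_intCast]⟩

theorem label_int (p : ℕ) (hp : p.Prime) (hK : UnrP p K) (b : Ideal (𝓞 K))
    (hb : IsCoprime b (Ideal.span {(p : 𝓞 K)})) (a : K)
    (ha : ∀ x ∈ b, ∃ y : 𝓞 F, Algebra.trace F K ((x : K) * a) = algebraMap (𝓞 F) F y) (τ : K →+* ℂ)
    (V : ValuationSubring ℂ) (hV : V.valuation (p : ℂ) < 1) : V.valuation (τ a) ≤ 1 := by
  have hN := absNorm_cop p hp b hb
  have hNb := Ideal.absNorm_mem b
  obtain ⟨N, hNdef⟩ : ∃ N : ℕ, N = Ideal.absNorm b := ⟨_, rfl⟩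
  rw [← hNdef] at hN hNb
  obtain ⟨y, hy⟩ := pl1_dual_int (K := K) ((N : K) * a) (by
    intro x
    obtain ⟨y, hy⟩ := ha (N * x) (b.mul_mem_right x hNb)
    obtain ⟨z, hz⟩ := pl1_trace_O y
    refine ⟨z, ?_⟩
    have h1 : (x : K) * ((N : K) * a) = (((N : 𝓞 K) * x : 𝓞 K) : K) * a := by
      have h4 : (((N : 𝓞 K) * x : 𝓞 K) : K) = (N : K) * (x : K) := by
        rw [← map_natCast (algebraMap (𝓞 K) K) N]
        exact map_mul (algebraMap (𝓞 K) K) _ _
      rw [h4]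
      ring
    rw [h1, ← Algebra.trace_trace (S := F), hy]
    exact hz)
  have hd := pl1_discr p hp hK
  have h1 : V.valuation (τ (y : K)) ≤ 1 := by
    have h2 : IsIntegral ℤ (τ (y : K)) := map_isIntegral_int τ y.2
    have h3 : IsIntegral V (τ (y : K)) := h2.tower_top
    obtain ⟨t, ht⟩ := IsIntegrallyClosed.isIntegral_iff.1 h3
    rw [← ht]
    exact V.valuation_le_one t
  have hodd : ∀ n : ℤ, ¬ (p : ℤ) ∣ n → V.valuation (n : ℂ) = 1 := by
    intro n hn
    have h1 := val_nat p hp V hV n.natAbs (fun h => hn (Int.natCast_dvd.2 h))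
    rw [← Int.cast_natCast] at h1
    rcases Int.natAbs_eq n with h2 | h2
    · rw [h2]
      exact h1
    · rw [h2, Int.cast_neg, Valuation.map_neg]
      exact h1
  rw [hy, map_mul, map_intCast, map_mul, hodd _ hd, one_mul, map_mul, map_natCast, map_mul] at h1
  have h3 : V.valuation ((N : ℕ) : ℂ) = 1 := by
    exact val_nat p hp V hV N hN
  rw [h3, one_mul] at h1
  exact h1

end H55P
end

-- from Lib.H55P.D2
section

open NumberField IsDedekindDomain

namespace H55P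

open H55N
open H55B (g)

variable {F : Type} [Field F] [NumberField F] [IQ F] {K : Type} [Field K] [NumberField K]
  [Algebra F K] {m : ℕ}

/-! Chunk PD2 (M), PORT of Lib/H55N/D2.lean. Changes: D1_rank from H55P/D1.lean; the places of F: F0_place in H55P/F0.lean (every infinite place of F is mk (embF F)). norm_one: O is a
principal ideal domain (instPIDF), M = (μ), so v = 1 + μ w and the norm of v is 1 + μ y with y in O (as in D2_prod with 3 replaced by the complex number eF F μ, or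
algebraically: intNorm v - 1 is in M because modulo M ... Algebra.norm of 1 + μ w is the determinant of 1 + μ W, = 1 modulo μ); it is a unit of O, so it is 1 by h.unit. -/

theorem D2_placeF (φ : F →+* ℂ) : φ = embF F ∨ ComplexEmbedding.conjugate φ = embF F :=
  InfinitePlace.mk_eq_iff.1 (F0_place (InfinitePlace.mk φ))

theorem D2_place (D : Ctx F K m) (hE : Emb F D.σ) (w : InfinitePlace K) :
    ∃ i, ∀ x : K, w x = ‖D.σ i x‖ := by
  rcases D2_placeF (w.embedding.comp (algebraMap F K)) with h | h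
  · obtain ⟨i, hi⟩ := emb_all hE w.embedding (fun x => by rw [← h]; rfl)
    refine ⟨i, fun x => ?_⟩
    rw [← hi, InfinitePlace.norm_embedding_eq]
  · obtain ⟨i, hi⟩ := emb_all hE (ComplexEmbedding.conjugate w.embedding) (fun x => by rw [← h]; rfl)
    refine ⟨i, fun x => ?_⟩
    rw [← hi, ComplexEmbedding.conjugate_coe_eq]
    rw [RCLike.norm_conj, InfinitePlace.norm_embedding_eq]

theorem D2_normU (D : Ctx F K m) (hE : Emb F D.σ) (v : (𝓞 K)ˣ) :
    ∏ i, D.σ i ((v : 𝓞 K) : K) = eF F ((Units.map (RingOfIntegers.norm F) v : (𝓞 F)ˣ) : 𝓞 F) := by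
  rw [norm_eq hE]
  rfl

theorem D2_norm_abs (D : Ctx F K m) (hE : Emb F D.σ) (v : (𝓞 K)ˣ) :
    ∏ i, ‖D.σ i ((v : 𝓞 K) : K)‖ = 1 := by
  rw [← norm_prod, D2_normU D hE]
  have h1 := Nm_eq ((Units.map (RingOfIntegers.norm F) v : (𝓞 F)ˣ) : 𝓞 F)
  have h0 : Nm ((Units.map (RingOfIntegers.norm F) v : (𝓞 F)ˣ) : 𝓞 F) = 1 := by
    unfold Nm
    rw [Ideal.absNorm_eq_one_iff, Ideal.span_singleton_eq_top]
    exact Units.isUnit _
  rw [h0] at h1
  have h2 : ‖eF F ((Units.map (RingOfIntegers.norm F) v : (𝓞 F)ˣ) : 𝓞 F)‖ ^ 2 = 1 := by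
    rw [← h1]; norm_num
  exact (pow_eq_one_iff_of_nonneg (norm_nonneg _) two_ne_zero).1 h2

theorem delta_ne (D : Ctx F K m) (hE : Emb F D.σ) (u : Fin m → (𝓞 K)ˣ)
    (hu : (Subgroup.closure (Set.range u)).FiniteIndex) : Delta (D.lm u) ≠ 0 := by
  have hr : NumberField.Units.rank K = m := D1_rank (F := F) hE.fin
  subst hr
  have hmax := NumberField.Units.isMaxRank_iff_closure_finiteIndex.2 hu
  intro h0
  unfold Delta at h0
  rw [← Matrix.exists_mulVec_eq_zero_iff] at h0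
  obtain ⟨c, hc0, hc⟩ := h0
  have hrow : ∀ i, c 0 + ∑ j, D.lm u i j * c j.succ = 0 := by
    intro i
    have := congrFun hc i
    simp only [Matrix.mulVec, dotProduct, Fin.sum_univ_succ, Matrix.of_apply, Fin.cons_zero,
      Fin.cons_succ, Pi.zero_apply, one_mul] at this
    exact this
  have hcol : ∀ j, ∑ i, D.lm u i j = 0 := by
    intro j
    unfold Ctx.lm
    rw [← Finset.mul_sum, ← Real.log_prod, D2_norm_abs D hE, Real.log_one, mul_zero]
    intro i _
    rw [norm_ne_zero_iff]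
    exact (map_ne_zero _).2 (NumberField.Units.coe_ne_zero _)
  have hc00 : c 0 = 0 := by
    have h1 : ∑ i : Fin (NumberField.Units.rank K + 1),
        (c 0 + ∑ j, D.lm u i j * c j.succ) = 0 := Finset.sum_eq_zero fun i _ => hrow i
    rw [Finset.sum_add_distrib, Finset.sum_comm] at h1
    simp_rw [← Finset.sum_mul] at h1
    rw [Finset.sum_eq_zero (s := Finset.univ) (f := fun j => (∑ i, D.lm u i j) * c j.succ)
      (fun j _ => by rw [hcol j, zero_mul]), add_zero, Finset.sum_const, Finset.card_univ,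
      Fintype.card_fin, nsmul_eq_mul] at h1
    rcases mul_eq_zero.1 h1 with h2 | h2
    · exact absurd h2 (by positivity)
    · exact h2
  have hind := Fintype.linearIndependent_iff.1 hmax (fun j => c j.succ) (by
    funext w
    rw [Finset.sum_apply]
    simp only [Pi.smul_apply, NumberField.Units.dirichletUnitTheorem.logEmbedding_component,
      smul_eq_mul, Pi.zero_apply]
    obtain ⟨i, hi⟩ := D2_place D hE w.val
    have h1 := hrow i
    rw [hc00, zero_add] at h1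
    have h2 : ∀ j, c j.succ * ((w.val.mult : ℝ) * Real.log (w.val ((u j : 𝓞 K) : K))) =
        ((w.val.mult : ℝ) / 2) * (D.lm u i j * c j.succ) := by
      intro j
      unfold Ctx.lm
      rw [hi]
      ring
    rw [Finset.sum_congr rfl (fun j _ => h2 j), ← Finset.mul_sum, h1, mul_zero])
  apply hc0
  funext j
  refine Fin.cases hc00 (fun j => hind j) j

/-- The coordinates of an element of M O_K are in M. -/
theorem D2_coord {ι : Type*} (b : Module.Basis ι (𝓞 F) (𝓞 K)) (M : Ideal (𝓞 F)) (z : 𝓞 K)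
    (hz : z ∈ mK K M) : ∀ (t : 𝓞 K) (i : ι), b.repr (z * t) i ∈ M := by
  unfold mK Ideal.map at hz
  induction hz using Submodule.span_induction with
  | mem x hx =>
    obtain ⟨a, ha, rfl⟩ := hx
    intro t i
    rw [← Algebra.smul_def, map_smul, Finsupp.smul_apply, smul_eq_mul]
    exact M.mul_mem_right _ ha
  | zero =>
    intro t i
    rw [zero_mul, map_zero]
    exact M.zero_mem
  | add x y _ _ hx hy =>
    intro t i
    rw [add_mul, map_add, Finsupp.add_apply]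
    exact M.add_mem (hx t i) (hy t i)
  | smul a x _ hx =>
    intro t i
    have h1 : a • x * t = x * (a * t) := by
      rw [smul_eq_mul]
      ring
    rw [h1]
    exact hx _ i

/-- The norm of an element congruent to 1 modulo an ideal of O. -/
theorem intNorm_cong (M : Ideal (𝓞 F)) (x y : 𝓞 K) (h : x - y ∈ mK K M) :
    Algebra.intNorm (𝓞 F) (𝓞 K) x - Algebra.intNorm (𝓞 F) (𝓞 K) y ∈ M := by
  classical
  have hfree : Module.Free (𝓞 F) (𝓞 K) := inferInstance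
  let b := Module.Free.chooseBasis (𝓞 F) (𝓞 K)
  rw [Algebra.intNorm_eq_norm, Algebra.norm_eq_matrix_det b, Algebra.norm_eq_matrix_det b,
    ← Ideal.Quotient.eq, RingHom.map_det, RingHom.map_det]
  congr 1
  ext i j
  rw [RingHom.mapMatrix_apply, RingHom.mapMatrix_apply, Matrix.map_apply, Matrix.map_apply,
    Ideal.Quotient.eq, Algebra.leftMulMatrix_eq_repr_mul, Algebra.leftMulMatrix_eq_repr_mul,
    ← Finsupp.sub_apply, ← map_sub, ← sub_mul]
  exact D2_coord b M _ h _ _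

theorem norm_one (D : Ctx F K m) (hE : Emb F D.σ) {p : ℕ} {M : Ideal (𝓞 F)} {l : 𝓞 F}
    (h : Mod p M l) (v : (𝓞 K)ˣ) (hv : (v : 𝓞 K) - 1 ∈ mK K M) :
    ∏ i, D.σ i ((v : 𝓞 K) : K) = 1 := by
  have h0 := D2_normU D hE v
  set n : (𝓞 F)ˣ := Units.map (RingOfIntegers.norm F) v with hn
  have h1 : (n : 𝓞 F) = Algebra.intNorm (𝓞 F) (𝓞 K) (v : 𝓞 K) := by
    apply FaithfulSMul.algebraMap_injective (𝓞 F) F
    rw [Algebra.algebraMap_intNorm (K := F) (L := K)]
    rfl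
  have h2 := intNorm_cong M (v : 𝓞 K) 1 hv
  rw [map_one, ← h1] at h2
  rw [h0, h.unit n h2, Units.val_one, map_one]

end H55P
end

-- from Lib.H55P.N1
section

open NumberField IsDedekindDomain

namespace H55P

open H55N
open H55B (g)

variable {F : Type} [Field F] [NumberField F] [IQ F] {K : Type} [Field K] [NumberField K]
  [Algebra F K] {m : ℕ}

/-! Chunk PN1 (S/M). absNorm_spanF: port of absNorm_span in H55N/H2.lean (Nm_eq in H55P/F0.lean, absNorm (span {x}) = absNorm (span {intNorm x}) by Ideal.absNorm_relNorm / relNorm_singleton). term_classF: PORT of Lib/H55R/D10.lean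
(replace emb by embF F, nn by nnF F). norm_one3: units congruent to 1 modulo 3: the norm η to F is a unit of O congruent to 1 modulo 3 (intNorm_cong with M = (3)); if η <> 1 then 9 divides Nm (η - 1)
(Nm multiplicative, Nm 3 = 9) but Nm (η - 1) = |e η - 1|^2 <= 4 (|e η| = 1), contradiction. -/

theorem pn1_norm (x : 𝓞 K) :
    eF F (Algebra.intNorm (𝓞 F) (𝓞 K) x) = embF F (Algebra.norm F (x : K)) := by
  show embF F (algebraMap (𝓞 F) F (Algebra.intNorm (𝓞 F) (𝓞 K) x)) = _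
  rw [Algebra.algebraMap_intNorm (A := 𝓞 F) (K := F) (L := K) (B := 𝓞 K)]

theorem absNorm_spanF (x : 𝓞 K) :
    (Ideal.absNorm (Ideal.span {x}) : ℝ) = nnF F x ^ 2 := by
  unfold nnF
  rw [← Ideal.absNorm_relNorm (𝓞 F), Ideal.relNorm_singleton, ← pn1_norm]
  exact Nm_eq _

theorem norm_one3 (D : Ctx F K m) (hE : Emb F D.σ) (v : (𝓞 K)ˣ)
    (hv : (v : 𝓞 K) - 1 ∈ Ideal.span {(3 : 𝓞 K)}) : ∏ i, D.σ i ((v : 𝓞 K) : K) = 1 := by
  rw [norm_eq hE, ← pn1_norm]
  obtain ⟨η, hη⟩ : ∃ η : 𝓞 F, η = Algebra.intNorm (𝓞 F) (𝓞 K) (v : 𝓞 K) := ⟨_, rfl⟩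
  rw [← hη]
  have hu : IsUnit η := by
    rw [hη]
    exact v.isUnit.map _
  have h1 : Nm η = 1 := by
    unfold Nm
    rw [Ideal.span_singleton_eq_top.2 hu]
    exact Ideal.absNorm_top
  have h2 : ‖eF F η‖ = 1 := by
    have h3 := Nm_eq η
    rw [h1, Nat.cast_one] at h3
    have h4 := norm_nonneg (eF F η)
    nlinarith
  have h3 : η - 1 ∈ Ideal.span {(3 : 𝓞 F)} := by
    have h4 := intNorm_cong (K := K) (Ideal.span {(3 : 𝓞 F)}) (v : 𝓞 K) 1 (by
      unfold mK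
      rw [Ideal.map_span, Set.image_singleton, map_ofNat]
      exact hv)
    rw [map_one, ← hη] at h4
    exact h4
  obtain ⟨y, hy⟩ := Ideal.mem_span_singleton.1 h3
  by_contra hne
  have hy0 : y ≠ 0 := by
    rintro rfl
    apply hne
    rw [mul_zero, sub_eq_zero] at hy
    rw [hy, map_one]
  have h5 := one_le_e hy0
  have h6 : eF F η - 1 = 3 * eF F y := by
    have := congrArg (eF F) hy
    rw [map_sub, map_one, map_mul, map_ofNat] at this
    exact this
  have h7 : ‖eF F η - 1‖ ≤ 2 := by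
    refine (norm_sub_le _ _).trans ?_
    rw [h2]
    norm_num
  rw [h6, norm_mul] at h7
  norm_num at h7
  linarith

theorem term_classF (f b : Ideal (𝓞 K))
    (hf : f ≠ ⊥) (hb : b ≠ ⊥) (φ : H55R.Pl K → ℂˣ) (hφ : φ ∈ H55R.RC f)
    (hbf : IsCoprime b (Ideal.span {6} * f)) (c₀ : 𝓞 K) (hc : c₀ ∈ b)
    (hp : ∀ w : HeightOneSpectrum (𝓞 K), Ideal.span {3} * f ≤ w.asIdeal → c₀ ∉ w.asIdeal * b) :
    ∃ κ : ℂ, ∀ c : H55R.Pl K, IsCoprime b c.asIdeal → ∀ x ∈ XS (Ideal.span {3} * f * b) c₀,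
      ∀ a : Ideal (𝓞 K), a * b = Ideal.span {x} → ∀ s : ℝ,
        tm (H55R.tI (Ideal.span {3} * f) φ) s a *
            (open Classical in if a ≤ c.asIdeal then 1 - (Ideal.absNorm c.asIdeal : ℂ) else 1) =
          κ * (((Ideal.absNorm b : ℝ) ^ s : ℝ) : ℂ) *
            (H55R.wt c.asIdeal x * ((nnF F x ^ (-2 * s) : ℝ) : ℂ)) := by
  classical
  have key : ∀ x ∈ XS (Ideal.span {3} * f * b) c₀, ∀ w : HeightOneSpectrum (𝓞 K),
      Ideal.span {3} * f ≤ w.asIdeal → x ∉ w.asIdeal * b := by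
    intro x hx w hw hxw
    have h1 : x - c₀ ∈ Ideal.span {3} * f * b := hx
    apply hp w hw
    have h2 : x - c₀ ∈ w.asIdeal * b := Ideal.mul_mono_left hw h1
    have h3 := Ideal.sub_mem _ hxw h2
    rwa [sub_sub_cancel] at h3
  have hc₀XS : c₀ ∈ XS (Ideal.span {3} * f * b) c₀ := by
    show c₀ - c₀ ∈ Ideal.span {3} * f * b
    rw [sub_self]
    exact Ideal.zero_mem _
  have hne : ∀ x ∈ XS (Ideal.span {3} * f * b) c₀, x ≠ 0 := by
    rintro x hx rfl
    obtain ⟨w, hw⟩ := H13_prime (K := K)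
    exact key 0 hx w (Ideal.mul_le_left.trans hw) (Ideal.zero_mem _)
  have hcop : ∀ x ∈ XS (Ideal.span {3} * f * b) c₀, ∀ a : Ideal (𝓞 K),
      a * b = Ideal.span {x} → a ≠ ⊥ ∧ IsCoprime a (Ideal.span {3} * f) := by
    intro x hx a hab
    have ha0 : a ≠ ⊥ := by
      rintro rfl
      apply hne x hx
      rw [← Ideal.span_singleton_eq_bot, ← hab]
      exact zero_mul b
    refine ⟨ha0, ?_⟩
    by_contra hc'
    rw [Ideal.isCoprime_iff_sup_eq] at hc'
    obtain ⟨M, hM, hM2⟩ := Ideal.exists_le_maximal _ hc'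
    have hM0 : M ≠ ⊥ := by
      rintro rfl
      exact ha0 (le_bot_iff.1 (le_sup_left.trans hM2))
    refine key x hx ⟨M, hM.isPrime, hM0⟩ (le_sup_right.trans hM2) ?_
    have h4 : x ∈ a * b := by
      rw [hab]
      exact Ideal.mem_span_singleton_self x
    exact Ideal.mul_mono_left (le_sup_left.trans hM2) h4
  have hbf' : IsCoprime b f := hbf.of_mul_right_right
  refine ⟨(H55R.pv φ (Ideal.span {c₀}) : ℂ) * ((H55R.pv φ b : ℂ))⁻¹, fun c hbc x hx a hab s => ?_⟩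
  obtain ⟨ha0, hac⟩ := hcop x hx a hab
  have hx0 := hne x hx
  have hc0 := hne c₀ hc₀XS
  have hxf : IsCoprime (Ideal.span {x}) f := by
    rw [← hab]
    exact hac.of_mul_right_right.mul_left hbf'
  have hxc : x - c₀ ∈ f := by
    have h1 : x - c₀ ∈ Ideal.span {3} * f * b := hx
    exact Ideal.mul_le_right (Ideal.mul_le_left h1)
  have hpv : H55R.pv φ a * H55R.pv φ b = H55R.pv φ (Ideal.span {c₀}) := by
    rw [← H55R.pv_mul φ ha0 hb, hab]
    exact hφ.2 x c₀ hx0 hc0 hxf hxc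
  have hpva : ((H55R.pv φ a : ℂˣ) : ℂ) = (H55R.pv φ (Ideal.span {c₀}) : ℂ) * ((H55R.pv φ b : ℂ))⁻¹ := by
    rw [← hpv, Units.val_mul, mul_assoc, mul_inv_cancel₀ (H55R.pv φ b).ne_zero, mul_one]
  -- norms
  have hNa : (0 : ℝ) < Ideal.absNorm a := by
    have : Ideal.absNorm a ≠ 0 := fun h => ha0 (Ideal.absNorm_eq_zero_iff.1 h)
    exact_mod_cast Nat.pos_of_ne_zero this
  have hNb : (0 : ℝ) < Ideal.absNorm b := by
    have : Ideal.absNorm b ≠ 0 := fun h => hb (Ideal.absNorm_eq_zero_iff.1 h)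
    exact_mod_cast Nat.pos_of_ne_zero this
  have hNab : (Ideal.absNorm a : ℝ) * Ideal.absNorm b = nnF F x ^ 2 := by
        rw [← absNorm_spanF (F := F), ← hab, map_mul, Nat.cast_mul]
  have hnn0 : 0 ≤ nnF F x := norm_nonneg _
  have hpow : (Ideal.absNorm a : ℝ) ^ (-s) = (Ideal.absNorm b : ℝ) ^ s * nnF F x ^ (-2 * s) := by
    have h1 : nnF F x ^ (-2 * s) = (nnF F x ^ 2) ^ (-s) := by
      rw [← Real.rpow_natCast, ← Real.rpow_mul hnn0]
      congr 1
      push_cast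
      ring
    rw [h1, ← hNab, Real.mul_rpow hNa.le hNb.le, mul_comm ((Ideal.absNorm a : ℝ) ^ (-s)),
      ← mul_assoc, ← Real.rpow_add hNb, add_neg_cancel, Real.rpow_zero, one_mul]
  have htm : tm (H55R.tI (Ideal.span {3} * f) φ) s a = (H55R.pv φ (Ideal.span {c₀}) : ℂ) * ((H55R.pv φ b : ℂ))⁻¹ *
      (((Ideal.absNorm b : ℝ) ^ s : ℝ) : ℂ) * ((nnF F x ^ (-2 * s) : ℝ) : ℂ) := by
    unfold tm
    rw [H55R.tI_apply _ φ ha0 hac, hpva]
    have h1 : (Ideal.absNorm a : ℂ) ^ (-(s : ℂ)) = (((Ideal.absNorm a : ℝ) ^ (-s) : ℝ) : ℂ) := by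
      rw [Complex.ofReal_cpow hNa.le]
      push_cast
      rfl
    rw [h1, hpow]
    push_cast
    ring
  have hwt : H55R.wt c.asIdeal x = if a ≤ c.asIdeal then 1 - (Ideal.absNorm c.asIdeal : ℂ) else 1 := by
    unfold H55R.wt
    have h1 : x ∈ c.asIdeal ↔ a ≤ c.asIdeal := by
      constructor
      · intro h
        have h2 : a * b ≤ c.asIdeal := by
          rw [hab, Ideal.span_singleton_le_iff_mem]
          exact h
        rcases c.isPrime.mul_le.1 h2 with h3 | h3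
        · exact h3
        · exfalso
          rw [Ideal.isCoprime_iff_sup_eq, sup_eq_right.2 h3] at hbc
          exact c.isPrime.ne_top hbc
      · intro h
        have h2 : x ∈ a * b := by
          rw [hab]
          exact Ideal.mem_span_singleton_self x
        exact h (Ideal.mul_le_left h2)
    simp only [h1]
  rw [htm, hwt]
  ring

end H55P
end

-- from Lib.H55P.T1
section

open NumberField IsDedekindDomain

namespace H55P

open H55N
open H55B (g)

variable {F : Type} [Field F] [NumberField F] [IQ F] {K : Type} [Field K] [NumberField K]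
  [Algebra F K] {m : ℕ}

/-! Chunk PT1 (M). Properties of PsiP. Models: Lib/H55N/H1.lean (Psi_ne, Psi_norm). relNorm a is coprime to M iff a is coprime to mK K M (for a <> 0): both multiplicative / check on primes: relNorm w = v^f
(Ideal.relNorm_eq_pow_of_isMaximal), f > 0, w.under = v; w is coprime to mK K M iff M is not contained in v (mK K M <= w iff M <= comap w = v). The absolute value: |e ψ(J)|^2 = absNorm (span {ψ J}) = absNorm J by IsHecke.gen and
Nm_eq (H55P/F0.lean), absNorm (relNorm a) = absNorm a. PsiP_unit: b coprime to p: absNorm b is prime to p (absNorm_cop in H55P/L1.lean), PsiP b * conj (PsiP b) = absNorm b; both factors are algebraic integers,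
so in V (see label_int), and V(absNorm b) = 1 (val_nat), so both are units. PsiP_top: Ideal.relNorm_relNorm. -/

theorem PT1_max {R : Type} [CommRing R] (P I : Ideal R) (hP : P.IsMaximal) :
    IsCoprime P I ↔ ¬ I ≤ P := by
  rw [Ideal.isCoprime_iff_sup_eq]
  constructor
  · intro h hI
    rw [sup_eq_left.2 hI] at h
    exact hP.ne_top h
  · intro h
    refine hP.out.2 _ (lt_of_le_of_ne le_sup_left ?_)
    intro he
    apply h
    rw [he]
    exact le_sup_right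

omit [IQ F] in
theorem PT1_prime (M : Ideal (𝓞 F)) (w : HeightOneSpectrum (𝓞 K)) :
    IsCoprime (Ideal.relNorm (𝓞 F) w.asIdeal) M ↔ IsCoprime w.asIdeal (mK K M) := by
  have hwm := w.isMaximal
  have hv0 : w.asIdeal.under (𝓞 F) ≠ ⊥ := mt Ideal.eq_bot_of_comap_eq_bot w.ne_bot
  have hvp : (w.asIdeal.under (𝓞 F)).IsPrime := inferInstance
  have hvm : (w.asIdeal.under (𝓞 F)).IsMaximal := hvp.isMaximal hv0
  have hover : w.asIdeal.LiesOver (w.asIdeal.under (𝓞 F)) := ⟨rfl⟩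
  rw [Ideal.relNorm_eq_pow_of_isMaximal w.asIdeal (w.asIdeal.under (𝓞 F)),
    IsCoprime.pow_left_iff (Ideal.inertiaDeg_pos w.asIdeal (𝓞 F)), PT1_max _ _ hvm, PT1_max _ _ hwm]
  unfold mK
  rw [Ideal.map_le_iff_le_comap]

omit [IQ F] in
theorem PT1_cop (M : Ideal (𝓞 F)) (a : Ideal (𝓞 K))
    (ha : a ≠ ⊥) : IsCoprime (Ideal.relNorm (𝓞 F) a) M ↔ IsCoprime a (mK K M) := by
  induction a using UniqueFactorizationMonoid.induction_on_prime with
  | h₁ => exact absurd rfl ha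
  | h₂ x hx =>
    rw [Ideal.isUnit_iff] at hx
    rw [hx, ← Ideal.one_eq_top, map_one]
    exact ⟨fun _ => isCoprime_one_left, fun _ => isCoprime_one_left⟩
  | h₃ x p hx hp ih =>
    have h1 := PT1_prime (K := K) M ⟨p, Ideal.isPrime_of_prime hp, hp.ne_zero⟩
    simp only at h1
    rw [map_mul, IsCoprime.mul_left_iff, h1, ih hx, IsCoprime.mul_left_iff]

theorem PsiP_cop {M : Ideal (𝓞 F)} {ψ : Ideal (𝓞 F) →*₀ 𝓞 F} (h : IsHecke M ψ) (a : Ideal (𝓞 K))
    (ha : a ≠ ⊥) : IsCoprime (Ideal.relNorm (𝓞 F) a) M ↔ IsCoprime a (mK K M) := PT1_cop M a ha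

theorem PsiP_ne {M : Ideal (𝓞 F)} {ψ : Ideal (𝓞 F) →*₀ 𝓞 F} (h : IsHecke M ψ) (a : Ideal (𝓞 K))
    (ha : a ≠ ⊥) : PsiP K ψ a ≠ 0 ↔ IsCoprime a (mK K M) := by
  rw [← PsiP_cop h a ha, PsiP_apply, map_ne_zero, Ne, map_eq_zero_iff (eF F) eF_inj]
  constructor
  · intro h1
    by_contra h2
    exact h1 (h.zero _ h2)
  · intro h1 h2
    have h3 := h.gen _ h1
    rw [h2, Ideal.span_singleton_eq_bot.2 rfl] at h3
    exact ha (Ideal.relNorm_eq_bot_iff.1 h3.symm)

theorem PsiP_norm {M : Ideal (𝓞 F)} {ψ : Ideal (𝓞 F) →*₀ 𝓞 F} (h : IsHecke M ψ) (a : Ideal (𝓞 K))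
    (ha : a ≠ ⊥) (hc : IsCoprime a (mK K M)) : ‖PsiP K ψ a‖ ^ 2 = Ideal.absNorm a := by
  have h1 := (PsiP_cop h a ha).2 hc
  rw [PsiP_apply, RCLike.norm_conj, ← Nm_eq]
  unfold Nm
  rw [h.gen _ h1, Ideal.absNorm_relNorm (𝓞 F) (𝓞 K) a]

theorem PsiP_norm_le {M : Ideal (𝓞 F)} {ψ : Ideal (𝓞 F) →*₀ 𝓞 F} (h : IsHecke M ψ)
    (a : Ideal (𝓞 K)) : ‖PsiP K ψ a‖ ^ 2 ≤ Ideal.absNorm a := by
  by_cases ha : a = ⊥
  · rw [ha]
    have : PsiP K ψ ⊥ = 0 := (PsiP K ψ).map_zero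
    rw [this]
    simp
  · by_cases h3 : IsCoprime a (mK K M)
    · exact (PsiP_norm h a ha h3).le
    · have h1 : PsiP K ψ a = 0 := not_not.1 (mt (PsiP_ne h a ha).1 h3)
      rw [h1]
      simp

omit [IQ F] [NumberField F] in
theorem PT1_int (τ : 𝓞 F →+* ℂ) (y : 𝓞 F) (V : ValuationSubring ℂ) : V.valuation (τ y) ≤ 1 := by
  have h2 : IsIntegral ℤ (τ y) := map_isIntegral_int τ (RingOfIntegers.isIntegral y)
  have h3 : IsIntegral V (τ y) := h2.tower_top
  obtain ⟨t, ht⟩ := IsIntegrallyClosed.isIntegral_iff.1 h3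
  rw [← ht]
  exact V.valuation_le_one t

theorem PsiP_int (ψ : Ideal (𝓞 F) →*₀ 𝓞 F) (a : Ideal (𝓞 K)) (V : ValuationSubring ℂ) :
    V.valuation (PsiP K ψ a) ≤ 1 ∧ V.valuation ((starRingEnd ℂ) (PsiP K ψ a)) ≤ 1 := by
  rw [PsiP_apply]
  refine ⟨PT1_int ((starRingEnd ℂ).comp (eF F)) _ V, ?_⟩
  rw [Complex.conj_conj]
  exact PT1_int (eF F) _ V

theorem PsiP_unit (p : ℕ) (hp : p.Prime) {M : Ideal (𝓞 F)} {ψ : Ideal (𝓞 F) →*₀ 𝓞 F} (h : IsHecke M ψ)
    (b : Ideal (𝓞 K)) (hb : b ≠ ⊥) (hbM : IsCoprime b (mK K M))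
    (hbp : IsCoprime b (Ideal.span {(p : 𝓞 K)})) (V : ValuationSubring ℂ)
    (hV : V.valuation (p : ℂ) < 1) : V.valuation (PsiP K ψ b) = 1 ∧
      V.valuation ((starRingEnd ℂ) (PsiP K ψ b)) = 1 := by
  obtain ⟨h1, h2⟩ := PsiP_int ψ b V
  have h3 : PsiP K ψ b * (starRingEnd ℂ) (PsiP K ψ b) = (Ideal.absNorm b : ℂ) := by
    rw [Complex.mul_conj, Complex.normSq_eq_norm_sq, PsiP_norm h b hb hbM, Complex.ofReal_natCast]
  have h4 := val_nat p hp V hV _ (absNorm_cop p hp b hbp)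
  rw [← h3, map_mul] at h4
  constructor
  · refine le_antisymm h1 ?_
    by_contra hlt
    have h5 := mul_lt_one_of_nonneg_of_lt_one_left zero_le (not_le.1 hlt) h2
    rw [h4] at h5
    exact lt_irrefl _ h5
  · refine le_antisymm h2 ?_
    by_contra hlt
    have h5 := mul_lt_one_of_nonneg_of_lt_one_right h1 zero_le (not_le.1 hlt)
    rw [h4] at h5
    exact lt_irrefl _ h5

theorem PsiP_top (ψ : Ideal (𝓞 F) →*₀ 𝓞 F) (K' : Type) [Field K'] [NumberField K'] [Algebra F K']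
    [Algebra K K'] [IsScalarTower F K K'] (W : Ideal (𝓞 K')) :
    PsiP K' ψ W = PsiP K ψ (Ideal.relNorm (𝓞 K) W) := by
  rw [PsiP_apply, PsiP_apply, Ideal.relNorm_relNorm (𝓞 F) (𝓞 K) W]

/-- A Hecke character gives the data of the analytic core. η = 1 modulo M: per with x = η, y = 1, ψ(1) = 1. -/
theorem IsHecke.toMod {M : Ideal (𝓞 F)} {ψ : Ideal (𝓞 F) →*₀ 𝓞 F} (h : IsHecke M ψ) (p : ℕ)
    (hMp : IsCoprime M (Ideal.span {(p : 𝓞 F)})) : ∃ l : 𝓞 F, Mod p M l := by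
  obtain ⟨P, hP, hMP⟩ := Ideal.exists_le_maximal M h.ntop
  have hP0 : P ≠ ⊥ := by
    rintro rfl
    exact h.ne (le_bot_iff.1 hMP)
  obtain ⟨l, hl⟩ := (IsPrincipalIdealRing.principal P).principal
  have hl' : P = Ideal.span {l} := hl
  refine ⟨l, ⟨h.ne, hMp, ?_, hl' ▸ hMP, ?_⟩⟩
  · rw [hl'] at hP hP0
    rw [Ne, Ideal.span_singleton_eq_bot] at hP0
    exact (Ideal.span_singleton_prime hP0).1 hP.isPrime
  · intro η hη
    have h1 : Ideal.span {(η : 𝓞 F)} = 1 := by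
      rw [Ideal.span_singleton_eq_top.2 η.isUnit, Ideal.one_eq_top]
    have h2 : Ideal.span {(1 : 𝓞 F)} = 1 := by
      rw [Ideal.span_singleton_eq_top.2 isUnit_one, Ideal.one_eq_top]
    have h3 := h.per (η : 𝓞 F) 1 (by rw [h1]; exact isCoprime_one_left)
      (by rw [h2]; exact isCoprime_one_left) hη
    rw [h1, h2, map_one, one_mul, one_mul] at h3
    exact Units.ext h3.symm

end H55P
end

-- from Lib.H55P.T7
section

open NumberField IsDedekindDomain

namespace H55P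

open H55N
open H55B (g)

variable {F : Type} [Field F] [NumberField F] [IQ F] {K : Type} [Field K] [NumberField K]
  [Algebra F K] {m : ℕ}

/-! Chunk PT7 (M). The reduction of Ψ modulo V as a ray class character.
PROOF. g = span {p} * mK K M. R = the residue field of V (IsLocalRing.ResidueField V). For x in O the number conj(e x) is an algebraic integer, so in V; let r(x) be its residue: a ring homomorphism r : O -> R with r(p) = 0, so its image k' is a
finite ring without zero divisors (finite image since O/p is finite), k'^* is a finite subgroup of the units of the field R, so cyclic. There is an injective homomorphism j of the finite cyclic group C = (image of) units into ℂˣ: for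
instance C is isomorphic to Multiplicative (ZMod n), and rootsOfUnity n ℂ is cyclic of order n (Complex.card_rootsOfUnity; mulEquivOfCyclicCardEq). For a prime v not containing g: ψ(relNorm v) is prime to p (PsiP_unit), so r(ψ(relNorm v)) <> 0;
φ v = j(r(ψ(relNorm v))), and φ v = 1 for g <= v. For an ideal a <> 0 coprime to g: pv φ a = j(r(ψ(relNorm a))) (pv_mul, pv_prime, induction on the factorisation; see how H55R proves membership in RC, for instance
theta_RC in H55R/X9.lean). RC g: for x, y nonzero, coprime to g, x - y in g: N x - N y in M and in p O (intNorm_cong), and ψ((N x)) N y = ψ((N y)) N x; r(N x) = r(N y) <> 0, so r(ψ((N x))) = r(ψ((N y))).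
φ has finite order dividing #C. φ c <> 1 means that the residue of Ψ(c) = conj(e ψ(relNorm c)) is not 1, i.e. V(1 - Ψ(c)) = 1. φ <> 1: the ideal a of NTP has r(ψ(relNorm a)) <> 1, so pv φ a <> 1, so φ <> 1 (pv_one_fun). -/

/-- algebraic integers are in V -/
theorem pt7_int (V : ValuationSubring ℂ) (z : ℂ) (hz : IsIntegral ℤ z) : z ∈ V := by
  have h1 : IsIntegral V z := hz.tower_top
  obtain ⟨y, hy⟩ := (IsIntegrallyClosed.isIntegral_iff (R := V) (K := ℂ)).1 h1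
  rw [← hy]
  exact y.2

theorem pt7_mem (V : ValuationSubring ℂ) (x : 𝓞 F) : (starRingEnd ℂ) (eF F x) ∈ V := by
  apply pt7_int
  have h1 : IsIntegral ℤ x := RingOfIntegers.isIntegral x
  exact (h1.map ((eF F).toIntAlgHom)).map ((starRingEnd ℂ).toIntAlgHom)

/-- the map to V -/
noncomputable def pt7c (F : Type) [Field F] [NumberField F] [IQ F] (V : ValuationSubring ℂ) : 𝓞 F →+* V :=
  ((starRingEnd ℂ).comp (eF F)).codRestrict V (fun x => pt7_mem V x)

/-- the prime below V -/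
noncomputable def pt7P (F : Type) [Field F] [NumberField F] [IQ F] (V : ValuationSubring ℂ) : Ideal (𝓞 F) :=
  (IsLocalRing.maximalIdeal V).comap (pt7c F V)

theorem pt7_lt (V : ValuationSubring ℂ) (x : 𝓞 F) :
    x ∈ pt7P F V ↔ V.valuation ((starRingEnd ℂ) (eF F x)) < 1 := by
  unfold pt7P
  rw [Ideal.mem_comap, ValuationSubring.valuation_lt_one_iff]
  rfl

theorem pt7_eq (V : ValuationSubring ℂ) (x : 𝓞 F) :
    x ∉ pt7P F V ↔ V.valuation ((starRingEnd ℂ) (eF F x)) = 1 := by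
  rw [pt7_lt, not_lt]
  have h := (V.valuation_le_one_iff _).2 (pt7_mem (F := F) V x)
  exact ⟨fun h1 => le_antisymm h h1, fun h1 => h1.ge⟩

instance pt7_prime (V : ValuationSubring ℂ) : (pt7P F V).IsPrime := by
  unfold pt7P
  infer_instance

theorem pt7_nat (p : ℕ) (V : ValuationSubring ℂ) (hV : V.valuation (p : ℂ) < 1) : (p : 𝓞 F) ∈ pt7P F V := by
  rw [pt7_lt, map_natCast, map_natCast]
  exact hV

theorem pt7_bot (p : ℕ) (hp : p.Prime) (V : ValuationSubring ℂ) (hV : V.valuation (p : ℂ) < 1) :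
    pt7P F V ≠ ⊥ := by
  intro h
  have h1 := pt7_nat (F := F) p V hV
  rw [h, Ideal.mem_bot] at h1
  exact hp.ne_zero (by exact_mod_cast h1)

/-- a finite cyclic group embeds in the complex numbers -/
theorem pt7_emb (G : Type) [CommGroup G] [Finite G] [IsCyclic G] : ∃ j : G →* ℂˣ, Function.Injective j := by
  have : NeZero (Nat.card G) := ⟨Nat.card_pos.ne'⟩
  have hc : Nat.card G = Nat.card (rootsOfUnity (Nat.card G) ℂ) := (Complex.card_rootsOfUnity _).symm
  refine ⟨(rootsOfUnity (Nat.card G) ℂ).subtype.comp (mulEquivOfCyclicCardEq hc).toMonoidHom, ?_⟩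
  exact Subtype.val_injective.comp (mulEquivOfCyclicCardEq hc).injective


/-- the residue of the Hecke character -/
theorem pt7_ne (p : ℕ) (hp : p.Prime) {M : Ideal (𝓞 F)} {ψ : Ideal (𝓞 F) →*₀ 𝓞 F}
    (h : IsHecke M ψ) (V : ValuationSubring ℂ) (hV : V.valuation (p : ℂ) < 1) (a : Ideal (𝓞 K))
    (ha : a ≠ ⊥) (hc : IsCoprime a (Ideal.span {(p : 𝓞 K)} * mK K M)) :
    ψ (Ideal.relNorm (𝓞 F) a) ∉ pt7P F V := by
  rw [pt7_eq, ← PsiP_apply]
  exact (PsiP_unit p hp h a ha hc.of_mul_right_right hc.of_mul_right_left V hV).1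

theorem exists_theta (p : ℕ) (hp : p.Prime) {M : Ideal (𝓞 F)} {ψ : Ideal (𝓞 F) →*₀ 𝓞 F}
    (h : IsHecke M ψ) (hMp : IsCoprime M (Ideal.span {(p : 𝓞 F)})) (V : ValuationSubring ℂ)
    (hV : V.valuation (p : ℂ) < 1) (hNT : NTP K p M ψ V) :
    ∃ (φ : H55R.Pl K → ℂˣ), φ ∈ H55R.RC (Ideal.span {(p : 𝓞 K)} * mK K M) ∧ φ ≠ 1 ∧ IsOfFinOrder φ ∧
      ∀ c : H55R.Pl K, ¬ Ideal.span {(p : 𝓞 K)} * mK K M ≤ c.asIdeal → φ c ≠ 1 →
        V.valuation (1 - PsiP K ψ c.asIdeal) = 1 := by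
  classical
  set gg : Ideal (𝓞 K) := Ideal.span {(p : 𝓞 K)} * mK K M with hgg
  have hbot := pt7_bot (F := F) p hp V hV
  have hPm : (pt7P F V).IsMaximal := Ring.DimensionLEOne.maximalOfPrime hbot inferInstance
  let _ : Field (𝓞 F ⧸ pt7P F V) := Ideal.Quotient.field _
  have _ : Finite (𝓞 F ⧸ pt7P F V) := Ideal.finiteQuotientOfFreeOfNeBot _ hbot
  obtain ⟨j, hj⟩ := pt7_emb (𝓞 F ⧸ pt7P F V)ˣ
  -- the residue
  let R : Ideal (𝓞 K) →*₀ 𝓞 F ⧸ pt7P F V :=
    ((Ideal.Quotient.mk (pt7P F V)).toMonoidWithZeroHom.comp ψ).comp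
      (Ideal.relNorm (𝓞 F) : Ideal (𝓞 K) →*₀ Ideal (𝓞 F))
  have hR : ∀ a, R a = Ideal.Quotient.mk (pt7P F V) (ψ (Ideal.relNorm (𝓞 F) a)) := fun a => rfl
  have hR0 : ∀ a : Ideal (𝓞 K), a ≠ ⊥ → IsCoprime a gg → R a ≠ 0 := by
    intro a ha hc h0
    rw [hR, Ideal.Quotient.eq_zero_iff_mem] at h0
    exact pt7_ne p hp h V hV a ha hc h0
  let Φ : Ideal (𝓞 K) → ℂˣ := fun a => if h0 : R a ≠ 0 then j (Units.mk0 (R a) h0) else 1
  have hΦ : ∀ (a : Ideal (𝓞 K)) (h0 : R a ≠ 0), Φ a = j (Units.mk0 (R a) h0) := fun a h0 => dif_pos h0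
  let φ : H55R.Pl K → ℂˣ := fun v => if gg ≤ v.asIdeal then 1 else Φ v.asIdeal
  have hφ : ∀ v : H55R.Pl K, ¬ gg ≤ v.asIdeal → φ v = Φ v.asIdeal := fun v hv => if_neg hv
  have hcop : ∀ v : H55R.Pl K, ¬ gg ≤ v.asIdeal → IsCoprime v.asIdeal gg := by
    intro v hv
    rw [Ideal.isCoprime_iff_sup_eq]
    have hvm := v.isMaximal
    by_contra hne
    have h1 := hvm.eq_of_le hne le_sup_left
    exact hv (h1 ▸ le_sup_right)
  have hmul : ∀ a b : Ideal (𝓞 K), a ≠ ⊥ → b ≠ ⊥ → IsCoprime a gg → IsCoprime b gg → Φ (a * b) = Φ a * Φ b := by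
    intro a b ha hb hac hbc
    rw [hΦ a (hR0 a ha hac), hΦ b (hR0 b hb hbc), hΦ (a * b) (hR0 _ (mul_ne_zero ha hb) (hac.mul_left hbc)),
      ← map_mul]
    congr 1
    ext
    simp [map_mul]
  have hpv : ∀ a : Ideal (𝓞 K), a ≠ ⊥ → IsCoprime a gg → H55R.pv φ a = Φ a := by
    intro a
    induction a using UniqueFactorizationMonoid.induction_on_prime with
    | h₁ => intro ha; exact absurd rfl ha
    | h₂ x hx =>
      intro ha hc
      rw [Ideal.isUnit_iff] at hx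
      subst hx
      have h1 : (⊤ : Ideal (𝓞 K)) = 1 := Ideal.one_eq_top.symm
      have h2 : R 1 ≠ 0 := by rw [map_one]; exact one_ne_zero
      rw [h1, H55R.pv_one, hΦ 1 h2]
      have h3 : Units.mk0 (R 1) h2 = 1 := Units.ext (map_one R)
      rw [h3, map_one]
    | h₃ a q ha hq ih =>
      intro hab hc
      have hq0 : q ≠ ⊥ := hq.ne_zero
      have hqc : IsCoprime q gg := hc.of_mul_left_left
      have hac : IsCoprime a gg := hc.of_mul_left_right
      have hqp := Ideal.isPrime_of_prime hq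
      let v : H55R.Pl K := ⟨q, hqp, hq0⟩
      have hv : ¬ gg ≤ v.asIdeal := H55R.X9_not_le hqc v le_rfl
      rw [H55R.pv_mul φ hq0 ha, hmul q a hq0 ha hqc hac, ih ha hac]
      congr 1
      rw [show q = v.asIdeal from rfl, H55R.pv_prime, hφ v hv]
  have hval : ∀ a : Ideal (𝓞 K), a ≠ ⊥ → IsCoprime a gg → Φ a ≠ 1 →
      V.valuation (1 - PsiP K ψ a) = 1 := by
    intro a ha hac hne
    have h1 : (1 : 𝓞 F) - ψ (Ideal.relNorm (𝓞 F) a) ∉ pt7P F V := by
      intro hmem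
      apply hne
      rw [hΦ a (hR0 a ha hac)]
      have h2 : Units.mk0 (R a) (hR0 a ha hac) = 1 := by
        apply Units.ext
        show R a = 1
        rw [hR, ← map_one (Ideal.Quotient.mk (pt7P F V)), eq_comm, Ideal.Quotient.eq]
        exact hmem
      rw [h2, map_one]
    rw [pt7_eq, map_sub, map_sub, map_one, map_one] at h1
    exact h1
  refine ⟨φ, ⟨fun v hv => if_pos hv, ?_⟩, ?_, ?_, ?_⟩
  · intro x y hx hy hcx hxy
    have hcy : IsCoprime (Ideal.span {y}) gg := by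
      rw [Ideal.isCoprime_iff_sup_eq] at hcx ⊢
      refine top_unique (hcx ▸ sup_le ?_ le_sup_right)
      rw [Ideal.span_singleton_le_iff_mem]
      have e : x = y + (x - y) := by ring
      rw [e]
      exact Ideal.add_mem _ (Ideal.mem_sup_left (Ideal.mem_span_singleton_self y)) (Ideal.mem_sup_right hxy)
    have hxb : Ideal.span {x} ≠ ⊥ := by simpa using hx
    have hyb : Ideal.span {y} ≠ ⊥ := by simpa using hy
    rw [hpv _ hxb hcx, hpv _ hyb hcy, hΦ _ (hR0 _ hxb hcx), hΦ _ (hR0 _ hyb hcy)]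
    congr 1
    apply Units.ext
    show R (Ideal.span {x}) = R (Ideal.span {y})
    have hMx := (PsiP_cop h _ hxb).2 hcx.of_mul_right_right
    have hMy := (PsiP_cop h _ hyb).2 hcy.of_mul_right_right
    have hnx := pt7_ne p hp h V hV _ hxb hcx
    have hny := pt7_ne p hp h V hV _ hyb hcy
    rw [hR, hR]
    rw [Ideal.relNorm_singleton] at hMx hMy hnx hny ⊢
    rw [Ideal.relNorm_singleton]
    set nx := Algebra.intNorm (𝓞 F) (𝓞 K) x with hnxd
    set ny := Algebra.intNorm (𝓞 F) (𝓞 K) y with hnyd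
    have h1 : nx - ny ∈ M := intNorm_cong M x y (Ideal.mul_le_right hxy)
    have h2 : nx - ny ∈ Ideal.span {(p : 𝓞 F)} := by
      apply intNorm_cong (Ideal.span {(p : 𝓞 F)}) x y
      unfold mK
      rw [Ideal.map_span, Set.image_singleton, map_natCast]
      exact Ideal.mul_le_left hxy
    have h3 : nx - ny ∈ pt7P F V := (Ideal.span_singleton_le_iff_mem (pt7P F V)).2 (pt7_nat p V hV) h2
    have h4 : Ideal.Quotient.mk (pt7P F V) nx = Ideal.Quotient.mk (pt7P F V) ny := Ideal.Quotient.eq.2 h3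
    have h5 : ny ∉ pt7P F V := by
      intro h6
      apply hny
      have h7 := h.gen _ hMy
      have h8 : ψ (Ideal.span {ny}) ∈ Ideal.span {ψ (Ideal.span {ny})} := Ideal.mem_span_singleton_self _
      rw [h7] at h8
      exact (Ideal.span_singleton_le_iff_mem (pt7P F V)).2 h6 h8
    have h6 := congrArg (Ideal.Quotient.mk (pt7P F V)) (h.per nx ny hMx hMy h1)
    rw [map_mul, map_mul, h4] at h6
    exact mul_right_cancel₀ (fun h7 => h5 (Ideal.Quotient.eq_zero_iff_mem.1 h7)) h6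
  · obtain ⟨a, hap, haM, hav⟩ := hNT
    have ha : a ≠ ⊥ := by
      rintro rfl
      apply absNorm_cop p hp ⊥ hap
      rw [Ideal.absNorm_bot]
      exact dvd_zero p
    have hac : IsCoprime a gg := hap.mul_right haM
    intro h1
    have h2 := hpv a ha hac
    rw [h1, H55R.pv_one_fun, hΦ a (hR0 a ha hac)] at h2
    have h3 : (1 : (𝓞 F ⧸ pt7P F V)ˣ) = Units.mk0 (R a) (hR0 a ha hac) := by
      apply hj
      rw [map_one]
      exact h2
    have h4 : R a = 1 := (congrArg Units.val h3).symm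
    rw [hR, ← map_one (Ideal.Quotient.mk (pt7P F V)), eq_comm, Ideal.Quotient.eq] at h4
    rw [pt7_lt, map_sub, map_sub, map_one, map_one] at h4
    exact absurd hav (ne_of_lt h4)
  · rw [isOfFinOrder_iff_pow_eq_one]
    refine ⟨Nat.card (𝓞 F ⧸ pt7P F V)ˣ, Nat.card_pos, ?_⟩
    funext v
    show φ v ^ _ = 1
    by_cases hv : gg ≤ v.asIdeal
    · rw [show φ v = 1 from if_pos hv, one_pow]
    · rw [hφ v hv]
      by_cases h0 : R v.asIdeal ≠ 0
      · rw [hΦ _ h0, ← map_pow, pow_card_eq_one', map_one]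
      · rw [show Φ v.asIdeal = 1 from dif_neg h0, one_pow]
  · intro c hc hne
    rw [hφ c hc] at hne
    exact hval _ c.ne_bot (hcop c hc) hne

end H55P
end

-- from Lib.H55K.C10
section

namespace H55K.CC

/-! Chunk C10 (S/M): H35P.add_x for (z, t) and for (z, -t) (L.weierstrassP_neg, L.derivWeierstrassP_neg; H35P.wp_ne): with x = wp z, s = wp t:
wp(z+t) + wp(z-t) = (wp' z^2 + wp' t^2)/(2 (x-s)^2) - 2 (x+s), and wp'^2 = 4 wp^3 - g2 wp - g3 (L.derivWeierstrassP_sq) gives (2 (x+s) x s - g2 (x+s)/2 - g3)/(x-s)^2. Then g2 = -4 A Om^4, g3 = -4 B Om^6, divide by Om^2.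
yl_sq: L.derivWeierstrassP_sq. -/

theorem c10_alg (p q p' q' a b Om : ℂ) (hO : Om ≠ 0) (hd : p - q ≠ 0)
    (e3 : p' ^ 2 = 4 * p ^ 3 - (-4 * a * Om ^ 4) * p - (-4 * b * Om ^ 6))
    (e4 : q' ^ 2 = 4 * q ^ 3 - (-4 * a * Om ^ 4) * q - (-4 * b * Om ^ 6)) :
    (((p' - q') / (p - q)) ^ 2 / 4 - p - q) / Om ^ 2 + (((p' - -q') / (p - q)) ^ 2 / 4 - p - q) / Om ^ 2 =
      2 * ((p / Om ^ 2 + q / Om ^ 2) * (q / Om ^ 2 * (p / Om ^ 2) + a) + 2 * b) / (p / Om ^ 2 - q / Om ^ 2) ^ 2 := by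
  have h1 : p / Om ^ 2 - q / Om ^ 2 = (p - q) / Om ^ 2 := by ring
  have h2 : ((p' - q') / (p - q)) ^ 2 / 4 - p - q + (((p' - -q') / (p - q)) ^ 2 / 4 - p - q) =
      (2 * (p + q) * p * q + 2 * a * Om ^ 4 * (p + q) + 4 * b * Om ^ 6) / (p - q) ^ 2 := by
    rw [eq_div_iff (pow_ne_zero 2 hd)]
    have h3 : ∀ c : ℂ, (c / (p - q)) ^ 2 / 4 * (p - q) ^ 2 = c ^ 2 / 4 := by
      intro c
      field_simp
    calc _ = ((p' - q') / (p - q)) ^ 2 / 4 * (p - q) ^ 2 + ((p' - -q') / (p - q)) ^ 2 / 4 * (p - q) ^ 2 -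
          2 * (p + q) * (p - q) ^ 2 := by ring
      _ = _ := by
          rw [h3, h3]
          linear_combination (e3 + e4) / 2
  rw [← add_div, h2, h1]
  field_simp
  ring

theorem xl_add_sub (L : PeriodPair) {A B Om : ℂ} (hO : Om ≠ 0) (g2 : L.g₂ = -4 * A * Om ^ 4)
    (g3 : L.g₃ = -4 * B * Om ^ 6) {z t : ℂ} (hz : z ∉ L.lattice) (ht : t ∉ L.lattice) (h1 : z + t ∉ L.lattice)
    (h2 : z - t ∉ L.lattice) : XL L Om z - XL L Om t ≠ 0 ∧
    XL L Om (z + t) + XL L Om (z - t) =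
      2 * ((XL L Om z + XL L Om t) * (XL L Om t * XL L Om z + A) + 2 * B) / (XL L Om z - XL L Om t) ^ 2 := by
  have hne := H35P.wp_ne L z t hz ht h1 h2
  have hd : L.weierstrassP z - L.weierstrassP t ≠ 0 := sub_ne_zero.2 hne
  have hnt : -t ∉ L.lattice := fun h => ht (by simpa using L.lattice.neg_mem h)
  have e1 := H35P.add_x L z t hz ht h1 h2 hne
  have e2 := H35P.add_x L z (-t) hz hnt (by rwa [← sub_eq_add_neg]) (by rwa [sub_neg_eq_add])
    (by rw [L.weierstrassP_neg]; exact hne)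
  rw [← sub_eq_add_neg] at e2
  unfold H35P.mc at e1 e2
  rw [L.weierstrassP_neg, L.derivWeierstrassP_neg] at e2
  have e3 := L.derivWeierstrassP_sq z hz
  have e4 := L.derivWeierstrassP_sq t ht
  rw [g2, g3] at e3 e4
  unfold XL
  constructor
  · rw [← sub_div]
    exact div_ne_zero hd (pow_ne_zero 2 hO)
  · rw [e1, e2]
    exact c10_alg _ _ _ _ A B Om hO hd e3 e4

theorem yl_sq (L : PeriodPair) {A B Om : ℂ} (hO : Om ≠ 0) (g2 : L.g₂ = -4 * A * Om ^ 4)
    (g3 : L.g₃ = -4 * B * Om ^ 6) {z : ℂ} (hz : z ∉ L.lattice) :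
    YL L Om z ^ 2 = XL L Om z ^ 3 + A * XL L Om z + B := by
  have e3 := L.derivWeierstrassP_sq z hz
  rw [g2, g3] at e3
  unfold XL YL
  rw [div_pow, e3]
  field_simp
  ring

end H55K.CC
end

-- from Lib.H55K.M0
section

/-! # H55K, part M: good models (definitions) -/

open NumberField WeierstrassCurve

namespace H55K.MG

open H55P (IQ Pt ac Inert)
open H35P (WAB Ker GoodW IntW)

/-- W' is obtained from W by the change of variables x = u^2 x' + r, y = u^3 y' + s u^2 x' + t. -/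
structure VC {k : Type} [Field k] (W W' : WeierstrassCurve k) (u r s t : k) : Prop where
  une : u ≠ 0
  h1 : u * W'.a₁ = W.a₁ + 2 * s
  h2 : u ^ 2 * W'.a₂ = W.a₂ - s * W.a₁ + 3 * r - s ^ 2
  h3 : u ^ 3 * W'.a₃ = W.a₃ + r * W.a₁ + 2 * t
  h4 : u ^ 4 * W'.a₄ = W.a₄ - s * W.a₃ + 2 * r * W.a₂ - (t + r * s) * W.a₁ + 3 * r ^ 2 - 2 * s * t
  h6 : u ^ 6 * W'.a₆ = W.a₆ + r * W.a₄ + r ^ 2 * W.a₂ + r ^ 3 - t * W.a₃ - t ^ 2 - r * t * W.a₁

/-- The isomorphism Θ of the groups of points is given by x = u^2 x' + r, y = u^3 y' + s u^2 x' + t. -/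
def Crd {k : Type} [Field k] [DecidableEq k] {W W' : WeierstrassCurve k} (u r s t : k)
    (Θ : W.toAffine.Point ≃+ W'.toAffine.Point) : Prop :=
  ∀ P, P ≠ 0 → Θ P ≠ 0 ∧ xc P = u ^ 2 * xc (Θ P) + r ∧
    yc P = u ^ 3 * yc (Θ P) + s * u ^ 2 * xc (Θ P) + t

end H55K.MG
end

-- from Lib.H55P.D3
section

open NumberField IsDedekindDomain

namespace H55P

open H55N
open H55B (g)

variable {F : Type} [Field F] [NumberField F] [IQ F] {K : Type} [Field K] [NumberField K]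
  [Algebra F K] {m : ℕ}

/-! Chunk PD3 (M), PORT of Lib/H55N/D3.lean (D3_U, D3_mem, D3_fin, D3_main do not use the field F of H55N: import and use them; if they do, copy them with other names). D3_rad becomes:
x^p in (p) implies x in (p), because the ideal (p) is squarefree (UnrP; isRadical_iff_squarefree_of_ne_zero, Ideal.dvd_span_singleton). The index nu of U' in U is prime to p: otherwise there is an element of
order p in U/U' (Cauchy, exists_prime_orderOf_dvd_card'), i.e. v in U, v^p in U', v not in U': (v - 1)^p = v^p - 1 modulo p (sub_pow_char_pow_of_commute or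
add_pow_char / exists_add_pow_prime_eq), so (v-1)^p is in (p), v - 1 is in (p) and in J, which are coprime, so v - 1 is in (p) J = J'. -/

theorem pd3_rad {p : ℕ} (hp : p.Prime) (hK : UnrP p K) (x : 𝓞 K)
    (h : x ^ p ∈ Ideal.span {(p : 𝓞 K)}) : x ∈ Ideal.span {(p : 𝓞 K)} := by
  have h0 : Ideal.span {(p : 𝓞 K)} ≠ 0 := by
    rw [Ne, Ideal.zero_eq_bot, Ideal.span_singleton_eq_bot]
    exact_mod_cast hp.ne_zero
  have h1 : IsRadical (Ideal.span {(p : 𝓞 K)}) := (isRadical_iff_squarefree_of_ne_zero h0).2 hK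
  have h2 : Ideal.span {(p : 𝓞 K)} ∣ Ideal.span {x} := by
    apply h1 p
    rw [Ideal.span_singleton_pow, Ideal.dvd_span_singleton]
    exact h
  rwa [Ideal.dvd_span_singleton] at h2

theorem prime_change (p : ℕ) (hp : p.Prime) (hK : UnrP p K) (J J' : Ideal (𝓞 K)) (hJ : J ≠ ⊥)
    (hJ2 : IsCoprime J (Ideal.span {(p : 𝓞 K)})) (hJ' : J' = Ideal.span {(p : 𝓞 K)} * J)
    (X : Set (𝓞 K)) (hX0 : (0 : 𝓞 K) ∉ X)
    (hX : ∀ u : (𝓞 K)ˣ, (u : 𝓞 K) - 1 ∈ J → ∀ x ∈ X, (u : 𝓞 K) * x ∈ X) :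
    ∃ ν : ℕ, ¬ p ∣ ν ∧ ∀ T, Transv J X T → ∃ T', Transv J' X T' ∧
      ∀ (φ : 𝓞 K → ℂ) (S : ℂ), (∀ u : (𝓞 K)ˣ, (u : 𝓞 K) - 1 ∈ J → ∀ x ∈ X, φ ((u : 𝓞 K) * x) = φ x) →
        HasSum (fun x : T' => φ x) S → HasSum (fun x : T => φ x) (S / ν) := by
  have hp0 : (p : 𝓞 K) ≠ 0 := by exact_mod_cast hp.ne_zero
  have hJ'0 : J' ≠ ⊥ := by
    rw [hJ', Ne, Ideal.mul_eq_bot, Ideal.span_singleton_eq_bot]
    exact fun h => h.elim hp0 hJ
  have hle : J' ≤ J := hJ' ▸ Ideal.mul_le_right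
  haveI := D3_fin J' hJ'0
  haveI hfi : ((D3_U J').subgroupOf (D3_U J)).FiniteIndex := inferInstance
  refine ⟨((D3_U J').subgroupOf (D3_U J)).index, ?_, D3_main J J' hle X hfi hX0 hX⟩
  intro hev
  haveI : Finite ((D3_U J) ⧸ ((D3_U J').subgroupOf (D3_U J))) :=
    Subgroup.finite_quotient_of_finiteIndex
  haveI : Fact (Nat.Prime p) := ⟨hp⟩
  obtain ⟨q, hq⟩ := exists_prime_orderOf_dvd_card' (G := (D3_U J) ⧸ ((D3_U J').subgroupOf (D3_U J)))
    p hev
  obtain ⟨a, rfl⟩ := QuotientGroup.mk_surjective q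
  have h1 := pow_orderOf_eq_one (QuotientGroup.mk a : (D3_U J) ⧸ ((D3_U J').subgroupOf (D3_U J)))
  rw [hq, ← QuotientGroup.mk_pow, QuotientGroup.eq_one_iff, Subgroup.mem_subgroupOf, D3_mem] at h1
  have h2 : (((a : (𝓞 K)ˣ) : 𝓞 K) - 1) ^ p ∈ Ideal.span {(p : 𝓞 K)} := by
    obtain ⟨r, hr⟩ := exists_add_pow_prime_eq hp (((a : (𝓞 K)ˣ) : 𝓞 K) - 1) 1
    have h3 : (((a : (𝓞 K)ˣ) : 𝓞 K) - 1) ^ p =
        ((((a ^ p : D3_U J) : (𝓞 K)ˣ) : 𝓞 K) - 1) -
          (p : 𝓞 K) * ((((a : (𝓞 K)ˣ) : 𝓞 K) - 1) * 1 * r) := by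
      rw [SubmonoidClass.coe_pow, Units.val_pow_eq_pow_val]
      rw [sub_add_cancel, one_pow] at hr
      linear_combination -hr
    rw [h3]
    refine Ideal.sub_mem _ ?_ (Ideal.mul_mem_right _ _ (Ideal.mem_span_singleton_self _))
    exact (hJ' ▸ Ideal.mul_le_left : J' ≤ Ideal.span {(p : 𝓞 K)}) h1
  have h4 := pd3_rad hp hK _ h2
  have h5 : ((a : (𝓞 K)ˣ) : 𝓞 K) - 1 ∈ J' := by
    have h6 : ((a : (𝓞 K)ˣ) : 𝓞 K) - 1 ∈ Ideal.span {(p : 𝓞 K)} ⊓ J := ⟨h4, (D3_mem J _).1 a.2⟩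
    rw [hJ', Ideal.mul_eq_inf_of_coprime]
    · exact h6
    · exact (Ideal.isCoprime_iff_sup_eq.1 hJ2.symm)
  have h7 : (QuotientGroup.mk a : (D3_U J) ⧸ ((D3_U J').subgroupOf (D3_U J))) = 1 := by
    rw [QuotientGroup.eq_one_iff, Subgroup.mem_subgroupOf, D3_mem]
    exact h5
  rw [h7, orderOf_one] at hq
  exact hp.one_lt.ne hq

theorem finite_change (J J' : Ideal (𝓞 K)) (hJ' : J' ≠ ⊥) (hle : J' ≤ J) (X : Set (𝓞 K))
    (hX0 : (0 : 𝓞 K) ∉ X) (hX : ∀ u : (𝓞 K)ˣ, (u : 𝓞 K) - 1 ∈ J → ∀ x ∈ X, (u : 𝓞 K) * x ∈ X) :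
    ∃ ν : ℕ, 0 < ν ∧ ∀ T, Transv J X T → ∃ T', Transv J' X T' ∧
      ∀ (φ : 𝓞 K → ℂ) (S : ℂ), (∀ u : (𝓞 K)ˣ, (u : 𝓞 K) - 1 ∈ J → ∀ x ∈ X, φ ((u : 𝓞 K) * x) = φ x) →
        HasSum (fun x : T' => φ x) S → HasSum (fun x : T => φ x) (S / ν) := by
  haveI := D3_fin J' hJ'
  haveI hfi : ((D3_U J').subgroupOf (D3_U J)).FiniteIndex := inferInstance
  exact ⟨((D3_U J').subgroupOf (D3_U J)).index, Nat.pos_of_ne_zero hfi.index_ne_zero,
    D3_main J J' hle X hfi hX0 hX⟩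

end H55P
end

-- from Lib.H55K.D1
section

/-! # H55K: complex conjugation on the integers of F -/

open NumberField IsDedekindDomain

namespace H55K

open H55P (IQ embF eF Nm eF_inj Nm_eq)

variable {F : Type} [Field F] [NumberField F] [IQ F]

theorem d1_emb (F : Type) [Field F] [NumberField F] [IQ F] (f g : F →+* ℂ) (hf : f ≠ embF F) (hg : g ≠ embF F) :
    f = g := by
  classical
  have h1 : Fintype.card (F →+* ℂ) = 2 := by
    rw [NumberField.Embeddings.card F ℂ, IQ.deg]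
  by_contra hne
  have h2 : ({embF F, f, g} : Finset (F →+* ℂ)).card = 3 := by
    rw [Finset.card_insert_of_notMem, Finset.card_insert_of_notMem, Finset.card_singleton]
    · rwa [Finset.mem_singleton]
    · rw [Finset.mem_insert, Finset.mem_singleton]
      rintro (h | h)
      · exact hf h.symm
      · exact hg h.symm
  have h3 := Finset.card_le_univ ({embF F, f, g} : Finset (F →+* ℂ))
  rw [h1, h2] at h3
  omega

theorem d1_conj_ne (F : Type) [Field F] [NumberField F] [IQ F] : (starRingEnd ℂ).comp (embF F) ≠ embF F := by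
  intro h
  obtain ⟨x, hx⟩ := IQ.im (F := F)
  apply hx
  exact Complex.conj_eq_iff_im.1 (RingHom.congr_fun h x)

theorem d1_sigma (F : Type) [Field F] [NumberField F] [IQ F] : ∃ σ : F ≃ₐ[ℚ] F, ∀ x, embF F (σ x) =
    (starRingEnd ℂ) (embF F x) := by
  have hq : Algebra.IsQuadraticExtension ℚ F := ⟨IQ.deg⟩
  have hG : IsGalois ℚ F := inferInstance
  have hc : Nat.card (F ≃ₐ[ℚ] F) = 2 := by
    rw [IsGalois.card_aut_eq_finrank, IQ.deg]
  have hn : Nontrivial (F ≃ₐ[ℚ] F) := Finite.one_lt_card_iff_nontrivial.1 (by rw [hc]; norm_num)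
  obtain ⟨σ, hσ⟩ := exists_ne (1 : F ≃ₐ[ℚ] F)
  refine ⟨σ, fun x => ?_⟩
  have h1 : (embF F).comp (σ : F →+* F) ≠ embF F := by
    intro h
    apply hσ
    ext x
    exact (embF F).injective (RingHom.congr_fun h x)
  exact RingHom.congr_fun (d1_emb F _ _ h1 (d1_conj_ne F)) x

theorem exists_cj (F : Type) [Field F] [NumberField F] [IQ F] : ∃ c : 𝓞 F ≃+* 𝓞 F,
    ∀ x, eF F (c x) = (starRingEnd ℂ) (eF F x) := by
  obtain ⟨σ, hσ⟩ := d1_sigma F
  exact ⟨RingOfIntegers.mapRingEquiv σ, fun x => hσ x⟩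

/-- Complex conjugation on the integers of F. -/
noncomputable def cj : 𝓞 F ≃+* 𝓞 F := (exists_cj F).choose

theorem e_cj (x : 𝓞 F) : eF F (cj x) = (starRingEnd ℂ) (eF F x) := (exists_cj F).choose_spec x

theorem cj_cj (x : 𝓞 F) : cj (cj x) = x := by
  apply eF_inj
  rw [e_cj, e_cj, Complex.conj_conj]

theorem mul_cj (x : 𝓞 F) : x * cj x = (Nm x : 𝓞 F) := by
  apply eF_inj
  rw [map_mul, e_cj, Complex.mul_conj, Complex.normSq_eq_norm_sq, ← Nm_eq, map_natCast]
  simp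

theorem Nm_cj (x : 𝓞 F) : Nm (cj x) = Nm x := by
  have h1 := Nm_eq (cj x)
  rw [e_cj, RCLike.norm_conj, ← Nm_eq] at h1
  exact_mod_cast h1

theorem cj_prime {x : 𝓞 F} (h : Prime x) : Prime (cj x) := (MulEquiv.prime_iff cj).2 h

theorem cj_dvd {x y : 𝓞 F} : cj x ∣ y ↔ x ∣ cj y := by
  constructor
  · rintro ⟨z, rfl⟩
    exact ⟨cj z, by rw [map_mul, cj_cj]⟩
  · rintro ⟨z, hz⟩
    refine ⟨cj z, ?_⟩
    rw [← cj_cj y, hz, map_mul]

theorem cj_nat (n : ℕ) : cj (n : 𝓞 F) = (n : 𝓞 F) := map_natCast _ _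

theorem cj_int (n : ℤ) : cj (n : 𝓞 F) = (n : 𝓞 F) := map_intCast _ _

theorem Nm_mul (x y : 𝓞 F) : Nm (x * y) = Nm x * Nm y := by
  unfold Nm
  rw [← Ideal.span_singleton_mul_span_singleton, map_mul]

theorem Nm_nat (n : ℕ) : Nm (n : 𝓞 F) = n ^ 2 := by
  have h1 := Nm_eq (n : 𝓞 F)
  rw [map_natCast, Complex.norm_natCast] at h1
  exact_mod_cast h1

end H55K
end

-- from Lib.H55N.H12
section

open NumberField IsDedekindDomain

namespace H55N

open H55B H55C

/-! Chunk H12 (M/L): the class decomposition. unit_cong: (c0) = b d with d prime to 3f (if a prime w containing 3f contains d then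
c0 is in w b); (u - 1)(c0) <= 3f b gives (u - 1) d <= 3f (cancel b), hence (u - 1) <= 3f.
exists_CD: for every class kappa in the class group (finite) take b = b_kappa with class kappa, prime to 6f (exists_rep). On the set
P of primitive x in b (x not in w b for all w containing 3f) consider x ~ y iff some unit u has u x - y in 3fb (an equivalence
relation; primitivity only depends on the class modulo 3fb, since 3fb <= wb). As b/3fb is finite, there is a finite set of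
representatives R. iota = the pairs (kappa, r), r in R_kappa. T(kappa, r) = a transversal of XS (3fb) r modulo the units = 1 mod 3f
(choice of one element in every class of the equivalence relation x' = u x; note that 3f x <= 3fb so that u x stays in XS).
bij, existence: a prime to 3f; let kappa be the inverse of the class of a, so a b = (x) (ClassGroup.mk0_eq_one_iff), x in b, x is
primitive (x in w b gives a <= w); u x - r in 3fb for some r in R and unit u, and u x = u1 t with t in T, u1 = 1 mod 3f; (t) = (x).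
Uniqueness: a b = (x) = (x') with x in T(kappa, r), x' in T(kappa, r') (the class kappa is determined by a): x' = u x, so
r' = u r mod 3fb (u x - u r and x' - r' in 3fb), r = r'; (u - 1) r in 3fb, so u = 1 mod 3f by unit_cong, and x' = x by uniqueness in
the transversal. -/

variable {K : Type} [Field K] [NumberField K]

theorem h12_cong (J b : Ideal (𝓞 K)) (hJ : J ≠ ⊥) (hb : b ≠ ⊥) (c₀ : 𝓞 K) (hc : c₀ ∈ b)
    (hp : ∀ w : HeightOneSpectrum (𝓞 K), J ≤ w.asIdeal → c₀ ∉ w.asIdeal * b)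
    (t : 𝓞 K) (ht : t * c₀ ∈ J * b) : t ∈ J := by
  obtain ⟨d, hd⟩ : b ∣ Ideal.span {c₀} := Ideal.dvd_span_singleton.2 hc
  have hcop : IsCoprime d J := by
    rw [Ideal.isCoprime_iff_sup_eq]
    by_contra hne
    obtain ⟨P, hP, hle⟩ := Ideal.exists_le_maximal _ hne
    have hdP : d ≤ P := le_sup_left.trans hle
    have hJP : J ≤ P := le_sup_right.trans hle
    have hP0 : P ≠ ⊥ := fun h => hJ (le_bot_iff.1 (h ▸ hJP))
    refine hp ⟨P, hP.isPrime, hP0⟩ hJP ?_
    show c₀ ∈ P * b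
    rw [← Ideal.span_singleton_le_iff_mem, hd, mul_comm P b]
    exact Ideal.mul_mono_right hdP
  have h1 : J * b ∣ Ideal.span {t} * Ideal.span {c₀} := by
    rw [Ideal.span_singleton_mul_span_singleton]
    exact Ideal.dvd_span_singleton.2 ht
  rw [hd, mul_comm b d, ← mul_assoc] at h1
  have h2 : J ∣ Ideal.span {t} * d := (mul_dvd_mul_iff_right hb).1 h1
  exact Ideal.dvd_span_singleton.1 (hcop.symm.dvd_of_dvd_mul_right h2)

/-- Existence of transversals. -/
theorem h12_transv (J : Ideal (𝓞 K)) (X : Set (𝓞 K)) : ∃ T, Transv J X T := by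
  let S : Setoid X :=
    { r := fun x y => ∃ u : (𝓞 K)ˣ, (u : 𝓞 K) - 1 ∈ J ∧ (y : 𝓞 K) = u * x
      iseqv := by
        refine ⟨fun x => ⟨1, ?_, ?_⟩, ?_, ?_⟩
        · simp
        · simp
        · rintro x y ⟨u, hu, h⟩
          refine ⟨u⁻¹, ?_, ?_⟩
          · have : ((u⁻¹ : (𝓞 K)ˣ) : 𝓞 K) - 1 = -((u⁻¹ : (𝓞 K)ˣ) : 𝓞 K) * ((u : 𝓞 K) - 1) := by
              have h1 : ((u⁻¹ : (𝓞 K)ˣ) : 𝓞 K) * (u : 𝓞 K) = 1 := u.inv_mul
              linear_combination h1
            rw [this]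
            exact J.mul_mem_left _ hu
          · rw [h, ← mul_assoc, u.inv_mul, one_mul]
        · rintro x y z ⟨u, hu, h⟩ ⟨v, hv, h'⟩
          refine ⟨v * u, ?_, ?_⟩
          · have : ((v * u : (𝓞 K)ˣ) : 𝓞 K) - 1 = (v : 𝓞 K) * ((u : 𝓞 K) - 1) +
                ((v : 𝓞 K) - 1) := by
              push_cast
              ring
            rw [this]
            exact J.add_mem (J.mul_mem_left _ hu) hv
          · rw [h', h]
            push_cast
            ring }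
  refine ⟨Set.range fun q : Quotient S => (q.out : 𝓞 K), ?_, ?_, ?_⟩
  · rintro _ ⟨q, rfl⟩
    exact q.out.2
  · intro x hx
    refine ⟨_, ⟨Quotient.mk S ⟨x, hx⟩, rfl⟩, ?_⟩
    have h : S ((Quotient.mk S ⟨x, hx⟩).out) ⟨x, hx⟩ := Quotient.mk_out (s := S) ⟨x, hx⟩
    exact h
  · rintro _ ⟨q, rfl⟩ _ ⟨q', rfl⟩ u hu h
    have h1 : S q.out q'.out := ⟨u, hu, h⟩
    have h2 := Quotient.sound (s := S) h1
    rw [Quotient.out_eq, Quotient.out_eq] at h2
    simp only [h2]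

/-- Congruence up to units. -/
def H12P (J b : Ideal (𝓞 K)) : Set (𝓞 K) :=
  {x | x ∈ b ∧ ∀ w : HeightOneSpectrum (𝓞 K), J ≤ w.asIdeal → x ∉ w.asIdeal * b}

/-- The setoid. -/
def h12S (J b : Ideal (𝓞 K)) : Setoid (H12P J b) where
  r := fun x y => ∃ u : (𝓞 K)ˣ, (u : 𝓞 K) * x - y ∈ J * b
  iseqv := by
    refine ⟨fun x => ⟨1, ?_⟩, ?_, ?_⟩
    · simp
    · rintro x y ⟨u, hu⟩
      refine ⟨u⁻¹, ?_⟩
      have : ((u⁻¹ : (𝓞 K)ˣ) : 𝓞 K) * y - x = -((u⁻¹ : (𝓞 K)ˣ) : 𝓞 K) * ((u : 𝓞 K) * x - y) := by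
        have h1 : ((u⁻¹ : (𝓞 K)ˣ) : 𝓞 K) * (u : 𝓞 K) = 1 := u.inv_mul
        linear_combination (x : 𝓞 K) * h1
      rw [this]
      exact (J * b).mul_mem_left _ hu
    · rintro x y z ⟨u, hu⟩ ⟨v, hv⟩
      refine ⟨v * u, ?_⟩
      have : ((v * u : (𝓞 K)ˣ) : 𝓞 K) * x - z = (v : 𝓞 K) * ((u : 𝓞 K) * x - y) +
          ((v : 𝓞 K) * y - z) := by
        push_cast
        ring
      rw [this]
      exact (J * b).add_mem ((J * b).mul_mem_left _ hu) hv

theorem h12_finite (J b : Ideal (𝓞 K)) (hJ : J ≠ ⊥) (hb : b ≠ ⊥) :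
    Finite (Quotient (h12S J b)) := by
  have hJb : J * b ≠ ⊥ := mul_ne_zero hJ hb
  have hfin : Finite (𝓞 K ⧸ (J * b)) := Ideal.finiteQuotientOfFreeOfNeBot (J * b) hJb
  have h1 : Function.Surjective fun y : {y : 𝓞 K ⧸ (J * b) // ∃ x : H12P J b,
      Ideal.Quotient.mk (J * b) x = y} => Quotient.mk (h12S J b) y.2.choose := by
    intro q
    induction q using Quotient.inductionOn with
    | h x =>
      refine ⟨⟨Ideal.Quotient.mk (J * b) x, x, rfl⟩, ?_⟩
      refine Quotient.sound ?_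
      refine ⟨1, ?_⟩
      have h2 := (⟨x, rfl⟩ : ∃ x' : H12P J b, Ideal.Quotient.mk (J * b) (x' : 𝓞 K) =
        Ideal.Quotient.mk (J * b) x).choose_spec
      rw [Units.val_one, one_mul]
      exact Ideal.Quotient.eq.1 h2
  exact Finite.of_surjective _ h1

theorem h12_prim (J b a : Ideal (𝓞 K)) (hb : b ≠ ⊥) (ha : IsCoprime a J) (x : 𝓞 K)
    (hx : a * b = Ideal.span {x}) : x ∈ H12P J b := by
  constructor
  · rw [← Ideal.span_singleton_le_iff_mem, ← hx]
    exact (Ideal.mul_le_right : a * b ≤ b)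
  · intro w hw hxw
    have h1 : a * b ≤ w.asIdeal * b := by
      rw [hx, Ideal.span_singleton_le_iff_mem]
      exact hxw
    have h2 : w.asIdeal ∣ a := (mul_dvd_mul_iff_right hb).1 (Ideal.dvd_iff_le.2 h1)
    have h3 : a ≤ w.asIdeal := Ideal.dvd_iff_le.1 h2
    have h4 : a ⊔ J ≤ w.asIdeal := sup_le h3 hw
    rw [Ideal.isCoprime_iff_sup_eq.1 ha] at h4
    exact w.isPrime.ne_top (top_le_iff.1 h4)

variable [Algebra F K]

theorem unit_cong (f b : Ideal (𝓞 K)) (hf : f ≠ ⊥) (hb : b ≠ ⊥) (c₀ : 𝓞 K) (hc : c₀ ∈ b)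
    (hp : ∀ w : HeightOneSpectrum (𝓞 K), Ideal.span {3} * f ≤ w.asIdeal → c₀ ∉ w.asIdeal * b)
    (t : 𝓞 K) (ht : t * c₀ ∈ Ideal.span {3} * f * b) : t ∈ Ideal.span {3} * f := by
  have h3 : (Ideal.span {(3 : 𝓞 K)}) ≠ ⊥ := by
    rw [Ne, Ideal.span_singleton_eq_bot]
    exact OfNat.ofNat_ne_zero 3
  exact h12_cong _ b (mul_ne_zero h3 hf) hb c₀ hc hp t ht

theorem exists_CD (f : Ideal (𝓞 K)) (hf : f ≠ ⊥) :
    ∃ (ι : Type) (_ : Fintype ι) (b : ι → Ideal (𝓞 K)) (c₀ : ι → 𝓞 K) (T : ι → Set (𝓞 K)),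
      CD f ι b c₀ T := by
  have h3 : (Ideal.span {(3 : 𝓞 K)}) ≠ ⊥ := by
    rw [Ne, Ideal.span_singleton_eq_bot]
    exact OfNat.ofNat_ne_zero 3
  have h6 : (Ideal.span {(6 : 𝓞 K)}) ≠ ⊥ := by
    rw [Ne, Ideal.span_singleton_eq_bot]
    exact OfNat.ofNat_ne_zero 6
  have hJ : Ideal.span {(3 : 𝓞 K)} * f ≠ ⊥ := mul_ne_zero h3 hf
  choose b hb hcop hcl using fun κ : ClassGroup (𝓞 K) =>
    exists_rep (Ideal.span {(6 : 𝓞 K)} * f) (mul_ne_zero h6 hf) κ
  have hfin : ∀ κ, Finite (Quotient (h12S (Ideal.span {(3 : 𝓞 K)} * f) (b κ))) := fun κ =>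
    h12_finite _ _ hJ (hb κ)
  have hfin2 : Finite (Σ κ : ClassGroup (𝓞 K),
    Quotient (h12S (Ideal.span {(3 : 𝓞 K)} * f) (b κ))) := inferInstance
  choose T hT using fun i : (Σ κ : ClassGroup (𝓞 K),
    Quotient (h12S (Ideal.span {(3 : 𝓞 K)} * f) (b κ))) =>
      h12_transv (Ideal.span {(3 : 𝓞 K)} * f) (XS (Ideal.span {3} * f * b i.1) (i.2.out : 𝓞 K))
  refine ⟨Σ κ : ClassGroup (𝓞 K), Quotient (h12S (Ideal.span {(3 : 𝓞 K)} * f) (b κ)),
    Fintype.ofFinite _, fun i => b i.1, fun i => (i.2.out : 𝓞 K), T, ?_⟩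
  refine ⟨fun i => hb i.1, fun i => hcop i.1, fun i => i.2.out.2.1, fun i => i.2.out.2.2, hT, ?_⟩
  intro a ha hac
  have hκ : ∀ κ, (∃ x : 𝓞 K, a * b κ = Ideal.span {x}) →
      κ = (ClassGroup.mk0 ⟨a, mem_nonZeroDivisors_iff_ne_zero.2 ha⟩)⁻¹ := by
    rintro κ ⟨x, hx⟩
    have h1 : ClassGroup.mk0 (⟨a, mem_nonZeroDivisors_iff_ne_zero.2 ha⟩ *
        ⟨b κ, mem_nonZeroDivisors_iff_ne_zero.2 (hb κ)⟩) = 1 := by
      rw [ClassGroup.mk0_eq_one_iff]
      exact ⟨⟨x, hx⟩⟩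
    rw [map_mul, hcl κ] at h1
    exact eq_inv_of_mul_eq_one_right h1
  obtain ⟨x, hx⟩ : ∃ x : 𝓞 K, a *
      b ((ClassGroup.mk0 ⟨a, mem_nonZeroDivisors_iff_ne_zero.2 ha⟩)⁻¹) = Ideal.span {x} := by
    set κ := (ClassGroup.mk0 ⟨a, mem_nonZeroDivisors_iff_ne_zero.2 ha⟩)⁻¹ with hκd
    have h1 : ClassGroup.mk0 (⟨a, mem_nonZeroDivisors_iff_ne_zero.2 ha⟩ *
        ⟨b κ, mem_nonZeroDivisors_iff_ne_zero.2 (hb κ)⟩) = 1 := by
      rw [map_mul, hcl κ, hκd, mul_inv_cancel]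
    rw [ClassGroup.mk0_eq_one_iff] at h1
    obtain ⟨x, hx⟩ := h1.principal
    exact ⟨x, hx⟩
  generalize (ClassGroup.mk0 ⟨a, mem_nonZeroDivisors_iff_ne_zero.2 ha⟩)⁻¹ = κ at hκ hx
  have hxP := h12_prim (Ideal.span {(3 : 𝓞 K)} * f) (b κ) a (hb κ) hac x hx
  set q := Quotient.mk (h12S (Ideal.span {(3 : 𝓞 K)} * f) (b κ)) ⟨x, hxP⟩ with hq
  obtain ⟨u, hu⟩ : (h12S (Ideal.span {(3 : 𝓞 K)} * f) (b κ)) ⟨x, hxP⟩ q.out :=
    (h12S (Ideal.span {(3 : 𝓞 K)} * f) (b κ)).iseqv.symm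
      (Quotient.mk_out (s := h12S (Ideal.span {(3 : 𝓞 K)} * f) (b κ)) ⟨x, hxP⟩)
  obtain ⟨t, htT, u1, hu1, hut⟩ := (hT ⟨κ, q⟩).cover ((u : 𝓞 K) * x) hu
  have hspan : Ideal.span {t} = Ideal.span {x} := by
    have h1 : Ideal.span {(u : 𝓞 K) * x} = Ideal.span {x} := by
      rw [mul_comm, Ideal.span_singleton_mul_right_unit u.isUnit]
    have h2 : Ideal.span {(u1 : 𝓞 K) * t} = Ideal.span {t} := by
      rw [mul_comm, Ideal.span_singleton_mul_right_unit u1.isUnit]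
    rw [← h1, hut, h2]
  refine ⟨⟨⟨κ, q⟩, ⟨t, htT⟩⟩, ?_, ?_⟩
  · show a * b κ = Ideal.span {t}
    rw [hspan, hx]
  · rintro ⟨⟨κ', q'⟩, ⟨t', ht'T⟩⟩ h'
    have h' : a * b κ' = Ideal.span {t'} := h'
    obtain rfl : κ' = κ := hκ κ' ⟨t', h'⟩
    have h2 : Ideal.span {t} = Ideal.span {t'} := by rw [hspan, ← hx, h']
    obtain ⟨v, hv⟩ := Ideal.span_singleton_eq_span_singleton.1 h2
    have hv' : t' = (v : 𝓞 K) * t := by rw [← hv, mul_comm]
    have m1 : t - (q.out : 𝓞 K) ∈ Ideal.span {3} * f * b κ' := (hT ⟨κ', q⟩).sub htT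
    have m2 : t' - (q'.out : 𝓞 K) ∈ Ideal.span {3} * f * b κ' := (hT ⟨κ', q'⟩).sub ht'T
    have m3 : (v : 𝓞 K) * (q.out : 𝓞 K) - (q'.out : 𝓞 K) ∈ Ideal.span {3} * f * b κ' := by
      have e1 : (v : 𝓞 K) * (q.out : 𝓞 K) - (q'.out : 𝓞 K) =
          -(v : 𝓞 K) * (t - (q.out : 𝓞 K)) + (t' - (q'.out : 𝓞 K)) := by
        rw [hv']
        ring
      rw [e1]
      exact Ideal.add_mem _ (Ideal.mul_mem_left _ _ m1) m2
    obtain rfl : q = q' := by
      have e2 : (h12S (Ideal.span {(3 : 𝓞 K)} * f) (b κ')) q.out q'.out := ⟨v, m3⟩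
      have e3 := Quotient.sound (s := h12S (Ideal.span {(3 : 𝓞 K)} * f) (b κ')) e2
      rwa [Quotient.out_eq, Quotient.out_eq] at e3
    have m4 : ((v : 𝓞 K) - 1) * (q.out : 𝓞 K) ∈ Ideal.span {3} * f * b κ' := by
      have e4 : ((v : 𝓞 K) - 1) * (q.out : 𝓞 K) = (v : 𝓞 K) * (q.out : 𝓞 K) - (q.out : 𝓞 K) := by
        ring
      rw [e4]
      exact m3
    have m5 := unit_cong f (b κ') hf (hb κ') q.out q.out.2.1 q.out.2.2 _ m4
    have m6 := (hT ⟨κ', q⟩).uniq t htT t' ht'T v m5 hv'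
    subst m6
    rfl

end H55N
end

-- from Lib.H55P.CD
section

open NumberField IsDedekindDomain

namespace H55P

open H55N
open H55B (g)



/-! Chunk PCD (M). Class decomposition modulo an arbitrary ideal J. PORT of Lib/H55N/H12.lean (exists_CD; h12_cong, h12_transv, h12S, h12_finite, h12_prim, exists_rep of H11 do not use the field F:
use them, with (3) f replaced by J and (6) f by g) and Lib/H55N/H13.lean (cd_hasSum; the hypothesis J <> top replaces H13_three: a prime w with J <= w exists). -/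

/-- Data of the class decomposition modulo J: representatives b of the ideal classes prime to g, of the classes
modulo J b, and transversals modulo the units congruent to 1 modulo J. -/
structure CDJ {K : Type} [Field K] [NumberField K] (J g : Ideal (𝓞 K)) (ι : Type)
    (b : ι → Ideal (𝓞 K)) (c₀ : ι → 𝓞 K) (T : ι → Set (𝓞 K)) : Prop where
  ne : ∀ i, b i ≠ ⊥
  cop : ∀ i, IsCoprime (b i) g
  mem : ∀ i, c₀ i ∈ b i
  prim : ∀ i, ∀ w : HeightOneSpectrum (𝓞 K), J ≤ w.asIdeal → c₀ i ∉ w.asIdeal * b i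
  trans : ∀ i, Transv J (XS (J * b i) (c₀ i)) (T i)
  bij : ∀ a : Ideal (𝓞 K), a ≠ ⊥ → IsCoprime a J →
    ∃! q : Σ i, T i, a * b q.1 = Ideal.span {(q.2 : 𝓞 K)}

theorem exists_CDJ {K : Type} [Field K] [NumberField K] (J g : Ideal (𝓞 K)) (hJ : J ≠ ⊥) (hg : g ≠ ⊥)
    (hgJ : g ≤ J) (hJ1 : J ≠ ⊤) :
    ∃ (ι : Type) (_ : Fintype ι) (b : ι → Ideal (𝓞 K)) (c₀ : ι → 𝓞 K) (T : ι → Set (𝓞 K)),
      CDJ J g ι b c₀ T := by
  choose b hb hcop hcl using fun κ : ClassGroup (𝓞 K) =>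
    exists_rep g hg κ
  have hfin : ∀ κ, Finite (Quotient (h12S J (b κ))) := fun κ =>
    h12_finite _ _ hJ (hb κ)
  have hfin2 : Finite (Σ κ : ClassGroup (𝓞 K),
    Quotient (h12S J (b κ))) := inferInstance
  choose T hT using fun i : (Σ κ : ClassGroup (𝓞 K),
    Quotient (h12S J (b κ))) =>
      h12_transv J (XS (J * b i.1) (i.2.out : 𝓞 K))
  refine ⟨Σ κ : ClassGroup (𝓞 K), Quotient (h12S J (b κ)),
    Fintype.ofFinite _, fun i => b i.1, fun i => (i.2.out : 𝓞 K), T, ?_⟩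
  refine ⟨fun i => hb i.1, fun i => hcop i.1, fun i => i.2.out.2.1, fun i => i.2.out.2.2, hT, ?_⟩
  intro a ha hac
  have hκ : ∀ κ, (∃ x : 𝓞 K, a * b κ = Ideal.span {x}) →
      κ = (ClassGroup.mk0 ⟨a, mem_nonZeroDivisors_iff_ne_zero.2 ha⟩)⁻¹ := by
    rintro κ ⟨x, hx⟩
    have h1 : ClassGroup.mk0 (⟨a, mem_nonZeroDivisors_iff_ne_zero.2 ha⟩ *
        ⟨b κ, mem_nonZeroDivisors_iff_ne_zero.2 (hb κ)⟩) = 1 := by
      rw [ClassGroup.mk0_eq_one_iff]
      exact ⟨⟨x, hx⟩⟩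
    rw [map_mul, hcl κ] at h1
    exact eq_inv_of_mul_eq_one_right h1
  obtain ⟨x, hx⟩ : ∃ x : 𝓞 K, a *
      b ((ClassGroup.mk0 ⟨a, mem_nonZeroDivisors_iff_ne_zero.2 ha⟩)⁻¹) = Ideal.span {x} := by
    set κ := (ClassGroup.mk0 ⟨a, mem_nonZeroDivisors_iff_ne_zero.2 ha⟩)⁻¹ with hκd
    have h1 : ClassGroup.mk0 (⟨a, mem_nonZeroDivisors_iff_ne_zero.2 ha⟩ *
        ⟨b κ, mem_nonZeroDivisors_iff_ne_zero.2 (hb κ)⟩) = 1 := by
      rw [map_mul, hcl κ, hκd, mul_inv_cancel]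
    rw [ClassGroup.mk0_eq_one_iff] at h1
    obtain ⟨x, hx⟩ := h1.principal
    exact ⟨x, hx⟩
  generalize (ClassGroup.mk0 ⟨a, mem_nonZeroDivisors_iff_ne_zero.2 ha⟩)⁻¹ = κ at hκ hx
  have hxP := h12_prim J (b κ) a (hb κ) hac x hx
  set q := Quotient.mk (h12S J (b κ)) ⟨x, hxP⟩ with hq
  obtain ⟨u, hu⟩ : (h12S J (b κ)) ⟨x, hxP⟩ q.out :=
    (h12S J (b κ)).iseqv.symm
      (Quotient.mk_out (s := h12S J (b κ)) ⟨x, hxP⟩)
  obtain ⟨t, htT, u1, hu1, hut⟩ := (hT ⟨κ, q⟩).cover ((u : 𝓞 K) * x) hu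
  have hspan : Ideal.span {t} = Ideal.span {x} := by
    have h1 : Ideal.span {(u : 𝓞 K) * x} = Ideal.span {x} := by
      rw [mul_comm, Ideal.span_singleton_mul_right_unit u.isUnit]
    have h2 : Ideal.span {(u1 : 𝓞 K) * t} = Ideal.span {t} := by
      rw [mul_comm, Ideal.span_singleton_mul_right_unit u1.isUnit]
    rw [← h1, hut, h2]
  refine ⟨⟨⟨κ, q⟩, ⟨t, htT⟩⟩, ?_, ?_⟩
  · show a * b κ = Ideal.span {t}
    rw [hspan, hx]
  · rintro ⟨⟨κ', q'⟩, ⟨t', ht'T⟩⟩ h'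
    have h' : a * b κ' = Ideal.span {t'} := h'
    obtain rfl : κ' = κ := hκ κ' ⟨t', h'⟩
    have h2 : Ideal.span {t} = Ideal.span {t'} := by rw [hspan, ← hx, h']
    obtain ⟨v, hv⟩ := Ideal.span_singleton_eq_span_singleton.1 h2
    have hv' : t' = (v : 𝓞 K) * t := by rw [← hv, mul_comm]
    have m1 : t - (q.out : 𝓞 K) ∈ J * b κ' := (hT ⟨κ', q⟩).sub htT
    have m2 : t' - (q'.out : 𝓞 K) ∈ J * b κ' := (hT ⟨κ', q'⟩).sub ht'T
    have m3 : (v : 𝓞 K) * (q.out : 𝓞 K) - (q'.out : 𝓞 K) ∈ J * b κ' := by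
      have e1 : (v : 𝓞 K) * (q.out : 𝓞 K) - (q'.out : 𝓞 K) =
          -(v : 𝓞 K) * (t - (q.out : 𝓞 K)) + (t' - (q'.out : 𝓞 K)) := by
        rw [hv']
        ring
      rw [e1]
      exact Ideal.add_mem _ (Ideal.mul_mem_left _ _ m1) m2
    obtain rfl : q = q' := by
      have e2 : (h12S J (b κ')) q.out q'.out := ⟨v, m3⟩
      have e3 := Quotient.sound (s := h12S J (b κ')) e2
      rwa [Quotient.out_eq, Quotient.out_eq] at e3
    have m4 : ((v : 𝓞 K) - 1) * (q.out : 𝓞 K) ∈ J * b κ' := by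
      have e4 : ((v : 𝓞 K) - 1) * (q.out : 𝓞 K) = (v : 𝓞 K) * (q.out : 𝓞 K) - (q.out : 𝓞 K) := by
        ring
      rw [e4]
      exact m3
    have m5 := h12_cong J (b κ') hJ (hb κ') q.out q.out.2.1 q.out.2.2 _ m4
    have m6 := (hT ⟨κ', q⟩).uniq t htT t' ht'T v m5 hv'
    subst m6
    rfl

/-- A prime containing J. -/
theorem PCD_prime {K : Type} [Field K] [NumberField K] (J : Ideal (𝓞 K)) (hJ1 : J ≠ ⊤) :
    ∃ w : HeightOneSpectrum (𝓞 K), J ≤ w.asIdeal := by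
  by_cases hJ : J = ⊥
  · obtain ⟨w, _⟩ := H13_prime (K := K)
    exact ⟨w, hJ ▸ bot_le⟩
  obtain ⟨M, hM, hM2⟩ := Ideal.exists_le_maximal _ hJ1
  refine ⟨⟨M, hM.isPrime, ?_⟩, hM2⟩
  rintro rfl
  exact hJ (le_bot_iff.1 hM2)

/-- The ideal attached to an element. -/
theorem PCD_ex {K : Type} [Field K] [NumberField K] (J g : Ideal (𝓞 K)) (hJ1 : J ≠ ⊤)
    (ι : Type) (b : ι → Ideal (𝓞 K)) (c₀ : ι → 𝓞 K) (T : ι → Set (𝓞 K))
    (h : CDJ J g ι b c₀ T) (q : Σ i, T i) :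
    ∃ a : Ideal (𝓞 K), a * b q.1 = Ideal.span {(q.2 : 𝓞 K)} ∧ a ≠ ⊥ ∧
      IsCoprime a J := by
  obtain ⟨i, x, hx⟩ := q
  have h1 : x ∈ XS (J * b i) (c₀ i) := (h.trans i).sub hx
  have h1' : x - c₀ i ∈ J * b i := h1
  have hxb : x ∈ b i := by
    have h2 : x - c₀ i ∈ b i := Ideal.mul_le_right h1'
    have h3 := Ideal.add_mem _ h2 (h.mem i)
    simpa using h3
  have key : ∀ w : HeightOneSpectrum (𝓞 K), J ≤ w.asIdeal →
      x ∉ w.asIdeal * b i := by
    intro w hw hxw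
    apply h.prim i w hw
    have h2 : x - c₀ i ∈ w.asIdeal * b i := Ideal.mul_mono_left hw h1'
    have h3 := Ideal.sub_mem _ hxw h2
    simpa using h3
  have hx0 : x ≠ 0 := by
    rintro rfl
    obtain ⟨w, hw⟩ := PCD_prime J hJ1
    exact key w hw (Ideal.zero_mem _)
  have h3 : b i ∣ Ideal.span {x} := by
    rw [Ideal.dvd_iff_le, Ideal.span_singleton_le_iff_mem]
    exact hxb
  obtain ⟨a, ha⟩ := h3
  refine ⟨a, by rw [mul_comm]; exact ha.symm, ?_, ?_⟩
  · rintro rfl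
    apply hx0
    rw [← Ideal.span_singleton_eq_bot, ha]
    exact mul_zero _
  · have ha0 : a ≠ ⊥ := by
      rintro rfl
      apply hx0
      rw [← Ideal.span_singleton_eq_bot, ha]
      exact mul_zero _
    by_contra hc
    rw [Ideal.isCoprime_iff_sup_eq] at hc
    obtain ⟨M, hM, hM2⟩ := Ideal.exists_le_maximal _ hc
    have hM0 : M ≠ ⊥ := by
      rintro rfl
      exact ha0 (le_bot_iff.1 (le_sup_left.trans hM2))
    refine key ⟨M, hM.isPrime, hM0⟩ (le_sup_right.trans hM2) ?_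
    have h4 : x ∈ b i * a := by
      rw [← ha]
      exact Ideal.mem_span_singleton_self x
    rw [mul_comm] at h4
    exact Ideal.mul_mono_left (le_sup_left.trans hM2) h4

theorem cdj_hasSum {K : Type} [Field K] [NumberField K] (J g : Ideal (𝓞 K)) (hgJ : g ≤ J) (hJ1 : J ≠ ⊤)
    (ι : Type) [Fintype ι] (b : ι → Ideal (𝓞 K)) (c₀ : ι → 𝓞 K) (T : ι → Set (𝓞 K))
    (h : CDJ J g ι b c₀ T) (φ : Ideal (𝓞 K) → ℂ)
    (hφ : ∀ a, φ a ≠ 0 → a ≠ ⊥ ∧ IsCoprime a J) (G : ι → 𝓞 K → ℂ)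
    (hG : ∀ i, ∀ x ∈ T i, ∀ a, a * b i = Ideal.span {x} → φ a = G i x) (Z : ι → ℂ)
    (hZ : ∀ i, HasSum (fun x : T i => G i x) (Z i)) : HasSum φ (∑ i, Z i) := by
  classical
  choose A hA1 hA2 hA3 using PCD_ex J g hJ1 ι b c₀ T h
  have hinj : Function.Injective A := by
    intro q q' hq
    obtain ⟨r, _, hr2⟩ := h.bij (A q) (hA2 q) (hA3 q)
    have h1 := hr2 q (hA1 q)
    have h2 := hr2 q' (by
      show A q * b q'.1 = Ideal.span {(q'.2 : 𝓞 K)}
      rw [hq]
      exact hA1 q')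
    rw [h1, h2]
  have hran : ∀ a ∉ Set.range A, φ a = 0 := by
    intro a ha
    by_contra hne
    apply ha
    obtain ⟨h1, h2⟩ := hφ a hne
    obtain ⟨q, hq, _⟩ := h.bij a h1 h2
    refine ⟨q, ?_⟩
    have h3 : A q * b q.1 = a * b q.1 := by
      rw [hA1 q]
      exact hq.symm
    exact mul_right_cancel₀ (show b q.1 ≠ 0 from h.ne q.1) h3
  rw [← hinj.hasSum_iff hran]
  have h1 : (φ ∘ A) = fun q : Σ i, T i => ∑ i, if q.1 = i then G q.1 q.2 else 0 := by
    funext q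
    rw [Finset.sum_ite_eq Finset.univ q.1, if_pos (Finset.mem_univ _)]
    exact hG q.1 q.2 q.2.2 (A q) (hA1 q)
  rw [h1]
  refine hasSum_sum fun i _ => ?_
  have h2 : ∀ q ∉ Set.range (fun x : T i => (⟨i, x⟩ : Σ j, T j)),
      (if q.1 = i then G q.1 q.2 else 0) = 0 := by
    rintro ⟨j, x⟩ hq
    rw [if_neg]
    rintro rfl
    exact hq ⟨x, rfl⟩
  have hinj2 : Function.Injective (fun x : T i => (⟨i, x⟩ : Σ j, T j)) := by
    intro x y hxy
    exact eq_of_heq (Sigma.mk.inj hxy).2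
  rw [← hinj2.hasSum_iff h2]
  have h3 : ((fun q : Σ i, T i => if q.1 = i then G q.1 q.2 else 0) ∘
      (fun x : T i => (⟨i, x⟩ : Σ j, T j))) = fun x : T i => G i x := by
    funext x
    exact if_pos rfl
  rw [h3]
  exact hZ i

end H55P
end

-- from Lib.H55N.D2
section

open NumberField IsDedekindDomain

namespace H55N

open H55B H55C

variable {K : Type} [Field K] [NumberField K] [Algebra F K] {m : ℕ}

/-! Chunk D2 (M). The regulator does not vanish. rank K = m (complex_places in H55C/W8, as in D1; transport u along the equality, Fin.cast). The map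
i -> InfinitePlace.mk (σ i) is a bijection of Fin (m+1) with the infinite places: every complex embedding τ of K restricts to emb or to conj emb on F (F has two complex
embeddings), so τ or conj τ is over emb, hence a σ i (emb_all), exactly one of them. |σ_i x| = place value; mult = 2. By
NumberField.Units.isMaxRank_iff_closure_finiteIndex and regOfFamily_ne_zero the regulator of the family u is nonzero, and by finrank_mul_regOfFamily_eq_det finrank * reg = |det| of the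
matrix with rows (2)_w and (2 log |u_j|_w)_w; after reindexing and transposing this is 2 * |Delta lm|. -/

theorem D2_rank (hm : Module.finrank F K = m + 1) : NumberField.Units.rank K = m := by
  have h0 := complex_places K
  have h1 := InfinitePlace.card_add_two_mul_card_eq_rank K
  have h2 := Module.finrank_mul_finrank ℚ F K
  have h3 : Module.finrank ℚ F = 2 := by
    have h := IsCyclotomicExtension.finrank (n := 3) F
      (Polynomial.cyclotomic.irreducible_rat (by norm_num))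
    rw [h]
    decide
  have h4 := InfinitePlace.card_eq_nrRealPlaces_add_nrComplexPlaces K
  unfold NumberField.Units.rank
  rw [h3] at h2
  rw [hm] at h0 h2
  omega

theorem D2_placeF (φ : F →+* ℂ) : φ = emb ∨ ComplexEmbedding.conjugate φ = emb := by
  have h1 : InfinitePlace.nrRealPlaces F = 0 :=
    IsCyclotomicExtension.Rat.nrRealPlaces_eq_zero (n := 3) F (by norm_num)
  have h2 := InfinitePlace.card_add_two_mul_card_eq_rank F
  have h3 : Module.finrank ℚ F = 2 := by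
    have h := IsCyclotomicExtension.finrank (n := 3) F
      (Polynomial.cyclotomic.irreducible_rat (by norm_num))
    rw [h]
    decide
  have h4 := InfinitePlace.card_eq_nrRealPlaces_add_nrComplexPlaces F
  have h5 : Fintype.card (InfinitePlace F) ≤ 1 := by omega
  have h6 := Fintype.card_le_one_iff_subsingleton.1 h5
  exact InfinitePlace.mk_eq_iff.1 (Subsingleton.elim (InfinitePlace.mk φ) (InfinitePlace.mk emb))

theorem D2_place (D : Ctx K m) (hE : Emb D.σ) (w : InfinitePlace K) :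
    ∃ i, ∀ x : K, w x = ‖D.σ i x‖ := by
  rcases D2_placeF (w.embedding.comp (algebraMap F K)) with h | h
  · obtain ⟨i, hi⟩ := emb_all hE w.embedding (fun x => by rw [← h]; rfl)
    refine ⟨i, fun x => ?_⟩
    rw [← hi, InfinitePlace.norm_embedding_eq]
  · obtain ⟨i, hi⟩ := emb_all hE (ComplexEmbedding.conjugate w.embedding) (fun x => by rw [← h]; rfl)
    refine ⟨i, fun x => ?_⟩
    rw [← hi, ComplexEmbedding.conjugate_coe_eq]
    rw [RCLike.norm_conj, InfinitePlace.norm_embedding_eq]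

theorem D2_normU (D : Ctx K m) (hE : Emb D.σ) (v : (𝓞 K)ˣ) :
    ∏ i, D.σ i ((v : 𝓞 K) : K) = e ((Units.map (RingOfIntegers.norm F) v : Oˣ) : O) := by
  rw [norm_eq hE]
  rfl

theorem D2_norm_abs (D : Ctx K m) (hE : Emb D.σ) (v : (𝓞 K)ˣ) :
    ∏ i, ‖D.σ i ((v : 𝓞 K) : K)‖ = 1 := by
  rw [← norm_prod, D2_normU D hE]
  have h1 := Nm_eq ((Units.map (RingOfIntegers.norm F) v : Oˣ) : O)
  rw [Nm_eq_one.2 (Units.isUnit _)] at h1
  have h2 : ‖e ((Units.map (RingOfIntegers.norm F) v : Oˣ) : O)‖ ^ 2 = 1 := by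
    rw [← h1]; norm_num
  exact (pow_eq_one_iff_of_nonneg (norm_nonneg _) two_ne_zero).1 h2

theorem delta_ne (D : Ctx K m) (hE : Emb D.σ) (u : Fin m → (𝓞 K)ˣ)
    (hu : (Subgroup.closure (Set.range u)).FiniteIndex) : Delta (D.lm u) ≠ 0 := by
  have hr : NumberField.Units.rank K = m := D2_rank hE.fin
  subst hr
  have hmax := NumberField.Units.isMaxRank_iff_closure_finiteIndex.2 hu
  intro h0
  unfold Delta at h0
  rw [← Matrix.exists_mulVec_eq_zero_iff] at h0
  obtain ⟨c, hc0, hc⟩ := h0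
  have hrow : ∀ i, c 0 + ∑ j, D.lm u i j * c j.succ = 0 := by
    intro i
    have := congrFun hc i
    simp only [Matrix.mulVec, dotProduct, Fin.sum_univ_succ, Matrix.of_apply, Fin.cons_zero,
      Fin.cons_succ, Pi.zero_apply, one_mul] at this
    exact this
  have hcol : ∀ j, ∑ i, D.lm u i j = 0 := by
    intro j
    unfold Ctx.lm
    rw [← Finset.mul_sum, ← Real.log_prod, D2_norm_abs D hE, Real.log_one, mul_zero]
    intro i _
    rw [norm_ne_zero_iff]
    exact (map_ne_zero _).2 (NumberField.Units.coe_ne_zero _)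
  have hc00 : c 0 = 0 := by
    have h1 : ∑ i : Fin (NumberField.Units.rank K + 1),
        (c 0 + ∑ j, D.lm u i j * c j.succ) = 0 := Finset.sum_eq_zero fun i _ => hrow i
    rw [Finset.sum_add_distrib, Finset.sum_comm] at h1
    simp_rw [← Finset.sum_mul] at h1
    rw [Finset.sum_eq_zero (s := Finset.univ) (f := fun j => (∑ i, D.lm u i j) * c j.succ)
      (fun j _ => by rw [hcol j, zero_mul]), add_zero, Finset.sum_const, Finset.card_univ,
      Fintype.card_fin, nsmul_eq_mul] at h1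
    rcases mul_eq_zero.1 h1 with h2 | h2
    · exact absurd h2 (by positivity)
    · exact h2
  have hind := Fintype.linearIndependent_iff.1 hmax (fun j => c j.succ) (by
    funext w
    rw [Finset.sum_apply]
    simp only [Pi.smul_apply, NumberField.Units.dirichletUnitTheorem.logEmbedding_component,
      smul_eq_mul, Pi.zero_apply]
    obtain ⟨i, hi⟩ := D2_place D hE w.val
    have h1 := hrow i
    rw [hc00, zero_add] at h1
    have h2 : ∀ j, c j.succ * ((w.val.mult : ℝ) * Real.log (w.val ((u j : 𝓞 K) : K))) =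
        ((w.val.mult : ℝ) / 2) * (D.lm u i j * c j.succ) := by
      intro j
      unfold Ctx.lm
      rw [hi]
      ring
    rw [Finset.sum_congr rfl (fun j _ => h2 j), ← Finset.mul_sum, h1, mul_zero])
  apply hc0
  funext j
  refine Fin.cases hc00 (fun j => hind j) j

/-! The norm of a unit v = 1 mod 3 is 1: N = N_{K/F}(v) is a unit of O, so a power of - om (the units of O are the six roots of unity; see H55B), and N = 1 mod 3 O: N - 1 =
3 y with y = ((prod (1 + 3 σ_i x)) - 1)/3 an algebraic integer in F. Among the units only 1 is = 1 mod 3. Then norm_eq. -/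

theorem D2_prod {ι : Type} (s : Finset ι) (a : ι → ℂ) (ha : ∀ i, IsIntegral ℤ (a i)) :
    ∃ y : ℂ, IsIntegral ℤ y ∧ ∏ i ∈ s, (1 + 3 * a i) = 1 + 3 * y := by
  classical
  induction s using Finset.induction_on with
  | empty => exact ⟨0, isIntegral_zero, by simp⟩
  | insert i s his ih =>
    obtain ⟨y, hy, h⟩ := ih
    refine ⟨y + a i + 3 * (a i * y), ?_, ?_⟩
    · have h3 : IsIntegral ℤ (3 : ℂ) := by
        have := isIntegral_algebraMap (R := ℤ) (A := ℂ) (x := 3)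
        simpa using this
      exact (hy.add (ha i)).add (h3.mul ((ha i).mul hy))
    · rw [Finset.prod_insert his, h]; ring

theorem norm_one (D : Ctx K m) (hE : Emb D.σ) (v : (𝓞 K)ˣ) (hv : (v : 𝓞 K) - 1 ∈ Ideal.span {3}) :
    ∏ i, D.σ i ((v : 𝓞 K) : K) = 1 := by
  have h0 := D2_normU D hE v
  set n : Oˣ := Units.map (RingOfIntegers.norm F) v with hn
  obtain ⟨w, hw⟩ := Ideal.mem_span_singleton.1 hv
  have hv' : (v : 𝓞 K) = 1 + 3 * w := by linear_combination hw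
  obtain ⟨y, hy, hy1⟩ := D2_prod Finset.univ (fun i => D.σ i (w : K)) (fun i => by
    have h1 : IsIntegral ℤ (w : K) := RingOfIntegers.isIntegral_coe w
    exact h1.map (D.σ i).toIntAlgHom)
  have h1 : e (n : O) = 1 + 3 * y := by
    rw [← h0, ← hy1]
    refine Finset.prod_congr rfl fun i _ => ?_
    rw [hv']
    have h3' : (algebraMap (𝓞 K) K) 3 = 3 := map_ofNat _ 3
    have h3'' : (D.σ i) 3 = 3 := map_ofNat _ 3
    simp [h3', h3'']
  -- the element (n - 1)/3 of F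
  have h2 : emb (((n : O) : F) - 1) = 3 * y := by
    rw [map_sub, map_one]
    have : emb ((n : O) : F) = e (n : O) := rfl
    rw [this, h1]; ring
  have h3 : emb ((((n : O) : F) - 1) / 3) = y := by
    rw [map_div₀, h2]
    have : emb (3 : F) = 3 := map_ofNat emb 3
    rw [this]
    field_simp
  have h4 : IsIntegral ℤ ((((n : O) : F) - 1) / 3) := by
    rw [← h3] at hy
    exact (isIntegral_algHom_iff emb.toIntAlgHom emb.injective).1 hy
  obtain ⟨y', hy'⟩ : ∃ y' : O, (algebraMap O F) y' = (((n : O) : F) - 1) / 3 :=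
    (IsIntegralClosure.isIntegral_iff (A := O)).1 h4
  have h5 : Prim (n : O) := by
    refine ⟨y', ?_⟩
    apply FaithfulSMul.algebraMap_injective O F
    rw [map_sub, map_one, map_mul, hy']
    have : (algebraMap O F) (3 : O) = 3 := map_ofNat _ 3
    rw [this]
    field_simp
  have h6 : (n : O) = 1 :=
    Prim.eq_of_associated h5 prim_one (associated_one_iff_isUnit.2 n.isUnit)
  rw [h0, h6, map_one]

end H55N
end

-- from Lib.H55R.D1
section

open NumberField IsDedekindDomain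

namespace H55R

open H55B H55N

theorem RD1_le {K : Type} [Field K] [NumberField K] (h : Ideal (𝓞 K) →*₀ ℂ)
    (hh : ∀ a, ‖h a‖ ≤ 1) (s : ℝ) (hs : 1 < s) (v : Pl K) : ‖tm h s v.asIdeal‖ ≤ 1 / 2 := by
  rw [dd_norm_tm h s (by linarith)]
  calc ‖h v.asIdeal‖ * (Ideal.absNorm v.asIdeal : ℝ) ^ (-s) ≤
      1 * (Ideal.absNorm v.asIdeal : ℝ) ^ (-s) := by
        gcongr
        exact hh _
    _ ≤ 1 / 2 := by
        rw [one_mul]
        exact dd_half v s hs.le

theorem RD1_ne {K : Type} [Field K] [NumberField K] (h : Ideal (𝓞 K) →*₀ ℂ)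
    (hh : ∀ a, ‖h a‖ ≤ 1) (s : ℝ) (hs : 1 < s) (v : Pl K) : 1 - tm h s v.asIdeal ≠ 0 := by
  intro h0
  have h1 := RD1_le h hh s hs v
  rw [← sub_eq_zero.1 h0, NormOneClass.norm_one] at h1
  norm_num at h1

open Filter Topology Classical in
theorem RD1_lim {K : Type} [Field K] [NumberField K] (h : Ideal (𝓞 K) →*₀ ℂ)
    (hh : ∀ a, ‖h a‖ ≤ 1) (s : ℝ) (hs : 1 < s) :
    Tendsto (fun S : Finset (Pl K) => (∏ v ∈ S, (1 - tm h s v.asIdeal)) * Ls h s) atTop (𝓝 1) := by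
  set k : Ideal (𝓞 K) →*₀ ℂ := tmH h s with hk
  have hkv : ∀ a, k a = tm h s a := fun _ => rfl
  have hsum : Summable fun a => ‖k a‖ := dd_tm_summable h hh s hs
  have h1 : ∀ S : Finset (Pl K), ∑' a, k a * ∏ v ∈ S, (if a ≤ v.asIdeal then (1 : ℂ) - 1 else 1) =
      (∏ v ∈ S, (1 - tm h s v.asIdeal)) * Ls h s := by
    intro S
    have h2 := H4_aux k hsum (fun v : Pl K => v.asIdeal) (fun v => v.isPrime) (fun v => v.ne_bot)
      dd_inj (fun _ => 1) S
    rw [h2.tsum_eq]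
    simp only [one_mul]
    rfl
  have h3 : Tendsto (fun S : Finset (Pl K) =>
      ∑' a, k a * ∏ v ∈ S, (if a ≤ v.asIdeal then (1 : ℂ) - 1 else 1)) atTop
      (𝓝 (∑' a : Ideal (𝓞 K), if a = 1 then (1 : ℂ) else 0)) := by
    refine tendsto_tsum_of_dominated_convergence hsum ?_ ?_
    · intro a
      by_cases ha : a = 1
      · subst ha
        rw [if_pos rfl]
        refine tendsto_const_nhds.congr fun S => ?_
        rw [map_one, one_mul]
        refine (Finset.prod_eq_one fun v _ => ?_).symm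
        rw [if_neg]
        intro h4
        rw [Ideal.one_eq_top, top_le_iff] at h4
        exact v.isPrime.ne_top h4
      · rw [if_neg ha]
        by_cases ha0 : a = ⊥
        · refine tendsto_const_nhds.congr fun S => ?_
          have h5 : k a = 0 := by
            rw [ha0]
            exact map_zero k
          rw [h5, zero_mul]
        · have h6 : a ≠ ⊤ := by
            rw [← Ideal.one_eq_top]
            exact ha
          obtain ⟨m, hm, ham⟩ := Ideal.exists_le_maximal a h6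
          have hm0 : m ≠ ⊥ := by
            rintro rfl
            exact ha0 (le_bot_iff.1 ham)
          refine tendsto_const_nhds.congr' ?_
          filter_upwards [eventually_ge_atTop {(⟨m, hm.isPrime, hm0⟩ : Pl K)}] with S hS
          have h7 : (⟨m, hm.isPrime, hm0⟩ : Pl K) ∈ S := hS (Finset.mem_singleton_self _)
          rw [Finset.prod_eq_zero h7, mul_zero]
          rw [if_pos ham, sub_self]
    · refine Eventually.of_forall fun S a => ?_
      rw [norm_mul, norm_prod]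
      refine mul_le_of_le_one_right (norm_nonneg _) ?_
      refine Finset.prod_le_one (fun _ _ => norm_nonneg _) fun v _ => ?_
      split_ifs
      · rw [sub_self, norm_zero]
        exact zero_le_one
      · rw [NormOneClass.norm_one]
  rw [tsum_ite_eq] at h3
  exact h3.congr h1

/-- Chunk RD1 (M), the Euler product. k = tmH h s (multiplicative, norm summable: dd_tm_summable). For a finset S of primes, H4_aux (or smooth_sum) with
index type Pl K, c v = v.asIdeal, p = 1 gives: the sum over a of k a * prod over v in S of (if a <= v then 0 else 1) is (prod over S of (1 - k v)) * L. When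
S runs over the finsets (atTop) the left side tends to k 1 = 1: tendsto_tsum_of_dominated_convergence with the bound |k a|; for a = 1 = top all factors are
1 (a prime is not top); for a = bot k a = 0; any other a is contained in a maximal ideal v (Ideal.exists_le_maximal), nonzero since a <> bot, so the term is 0 as soon
as v is in S (Filter.eventually_ge_atTop {v}). So (prod over S of (1 - k v)) * L tends to 1; hence L <> 0 and |prod over S of (1 - k v)| tends to 1 / |L| and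
the sum over S of -log |1 - k v| = -log |prod| tends to log |L| (Real.log_prod needs 1 - k v <> 0: |k v| <= 1/2 by dd_norm_tm, dd_half; continuity of log at
1/|L| > 0). HasSum is the convergence along the finsets. -/
theorem euler {K : Type} [Field K] [NumberField K] (h : Ideal (𝓞 K) →*₀ ℂ)
    (hh : ∀ a, ‖h a‖ ≤ 1) (s : ℝ) (hs : 1 < s) :
    Ls h s ≠ 0 ∧
      HasSum (fun v : Pl K => -Real.log ‖1 - tm h s v.asIdeal‖) (Real.log ‖Ls h s‖) := by
  have h1 := RD1_lim h hh s hs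
  have hL : Ls h s ≠ 0 := by
    intro h0
    rw [h0] at h1
    simp only [mul_zero] at h1
    exact zero_ne_one (tendsto_nhds_unique tendsto_const_nhds h1)
  refine ⟨hL, ?_⟩
  have h2 : Filter.Tendsto (fun S : Finset (Pl K) => ∏ v ∈ S, (1 - tm h s v.asIdeal))
      Filter.atTop (nhds (Ls h s)⁻¹) := by
    have h3 := h1.mul_const (Ls h s)⁻¹
    rw [one_mul] at h3
    refine h3.congr fun S => ?_
    rw [mul_assoc, mul_inv_cancel₀ hL, mul_one]
  have h4 := (h2.norm.log (norm_ne_zero_iff.2 (inv_ne_zero hL))).neg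
  rw [norm_inv, Real.log_inv, neg_neg] at h4
  unfold HasSum
  rw [SummationFilter.unconditional_filter]
  refine h4.congr fun S => ?_
  rw [norm_prod, Real.log_prod fun v _ => norm_ne_zero_iff.2 (RD1_ne h hh s hs v),
    Finset.sum_neg_distrib]

end H55R
end

-- from Lib.H55R.D2
section

open NumberField IsDedekindDomain

namespace H55R

open H55B H55N

theorem RD2_re {K : Type} [Field K] [NumberField K] (h : Ideal (𝓞 K) →*₀ ℂ) (s : ℝ)
    (a : Ideal (𝓞 K)) : (tm h s a).re = (h a).re * (Ideal.absNorm a : ℝ) ^ (-s) := by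
  unfold tm
  have h1 : ((Ideal.absNorm a : ℂ) ^ (-(s : ℂ))) = (((Ideal.absNorm a : ℝ) ^ (-s) : ℝ) : ℂ) := by
    rw [Complex.ofReal_cpow (Nat.cast_nonneg _)]
    push_cast
    rfl
  rw [h1, Complex.re_mul_ofReal]

theorem RD2_term {K : Type} [Field K] [NumberField K] (h : Ideal (𝓞 K) →*₀ ℂ)
    (hh : ∀ a, ‖h a‖ ≤ 1) (s : ℝ) (hs : 1 < s) (v : Pl K) :
    |(h v.asIdeal).re * (Ideal.absNorm v.asIdeal : ℝ) ^ (-s) -
      (-Real.log ‖1 - tm h s v.asIdeal‖)| ≤ (Ideal.absNorm v.asIdeal : ℝ) ^ (-2 : ℝ) := by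
  have h0 := RD1_le h hh s hs v
  set z := tm h s v.asIdeal with hz
  have h1 : ‖Complex.log (1 + -z) - -z‖ ≤ ‖z‖ ^ 2 := by
    have h2 := Complex.norm_log_one_add_sub_self_le (z := -z) (by rw [norm_neg]; linarith)
    rw [norm_neg] at h2
    refine h2.trans ?_
    have h3 : (1 - ‖z‖)⁻¹ ≤ 2 := by
      rw [inv_le_comm₀ (by linarith) (by norm_num)]
      linarith
    have h4 : 0 ≤ ‖z‖ ^ 2 := sq_nonneg _
    nlinarith
  have h5 : (h v.asIdeal).re * (Ideal.absNorm v.asIdeal : ℝ) ^ (-s) -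
      (-Real.log ‖1 - z‖) = (Complex.log (1 + -z) - -z).re := by
    rw [← RD2_re, Complex.sub_re, Complex.log_re, ← sub_eq_add_neg, Complex.neg_re]
    ring
  rw [h5]
  refine (Complex.abs_re_le_norm _).trans (h1.trans ?_)
  have h6 : (0 : ℝ) ≤ (Ideal.absNorm v.asIdeal : ℝ) := Nat.cast_nonneg _
  have h2 : (2 : ℝ) ≤ (Ideal.absNorm v.asIdeal : ℝ) := by exact_mod_cast dd_two_le v
  have h7 : ‖z‖ ≤ (Ideal.absNorm v.asIdeal : ℝ) ^ (-s) := by
    rw [hz, dd_norm_tm h s (by linarith)]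
    exact mul_le_of_le_one_left (by positivity) (hh _)
  calc ‖z‖ ^ 2 ≤ ((Ideal.absNorm v.asIdeal : ℝ) ^ (-s)) ^ 2 :=
        pow_le_pow_left₀ (norm_nonneg _) h7 2
    _ = (Ideal.absNorm v.asIdeal : ℝ) ^ (-s * 2) := by
        rw [Real.rpow_mul h6]
        norm_num
    _ ≤ (Ideal.absNorm v.asIdeal : ℝ) ^ (-2 : ℝ) :=
        Real.rpow_le_rpow_of_exponent_le (by linarith) (by linarith)

/-- Chunk RD2 (S), logarithms. With z = tm h s v, |z| <= Nv^(-s) <= 1/2 (dd_norm_tm, dd_half): |-log |1 - z| - Re z| <= |log(1 - z) + z| <= |z|^2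
(real part of the complex logarithm, Complex.log_re; Complex.norm_log_one_add_sub_self_le with z replaced by -z) and |z|^2 <= Nv^(-2s) <= Nv^(-2).
Re z = Re (h v) * Nv^(-s) (the power is a positive real number). Sum over v: euler, dd_summable; C is the sum of Nv^(-2) (tsum of a difference,
norm of a tsum <= tsum of the bounds). Both series converge: Re (h v) Nv^(-s) is bounded by Nv^(-s). -/
theorem log_cmp (K : Type) [Field K] [NumberField K] : ∃ C : ℝ, ∀ h : Ideal (𝓞 K) →*₀ ℂ,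
    (∀ a, ‖h a‖ ≤ 1) → ∀ s ∈ Set.Ioc (1 : ℝ) 2,
      |∑' v : Pl K, (h v.asIdeal).re * (Ideal.absNorm v.asIdeal : ℝ) ^ (-s) -
        Real.log ‖Ls h s‖| ≤ C := by
  refine ⟨∑' v : Pl K, (Ideal.absNorm v.asIdeal : ℝ) ^ (-2 : ℝ), fun h hh s hs => ?_⟩
  have h2 : Summable fun v : Pl K => (Ideal.absNorm v.asIdeal : ℝ) ^ (-2 : ℝ) :=
    dd_summable 2 (by norm_num)
  have h3 := (euler h hh s hs.1).2
  have h4 : Summable fun v : Pl K => (h v.asIdeal).re * (Ideal.absNorm v.asIdeal : ℝ) ^ (-s) := by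
    refine Summable.of_norm_bounded (dd_summable (K := K) s hs.1) fun v => ?_
    rw [norm_mul, Real.norm_eq_abs, Real.norm_of_nonneg (by positivity)]
    exact mul_le_of_le_one_left (by positivity) ((Complex.abs_re_le_norm _).trans (hh _))
  rw [← h3.tsum_eq, ← h4.tsum_sub h3.summable, ← Real.norm_eq_abs]
  exact tsum_of_norm_bounded h2.hasSum fun v => RD2_term h hh s hs.1 v

end H55R
end
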