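import Mathlib
import Pool.Agent.Lib.H1M.PP2.D_H55C_Defs
import Pool.Agent.Lib.H1M.PP2.M032

/-!
# H55D: definitions

The rank part and the 2-part of the conjecture of Birch and Swinnerton-Dyer for y^2 + y = x^3 over number fields
which need not contain the cube roots of unity. On top of H55N (Hecke L-values over K), see PROOF.md.
-/

open NumberField IsDedekindDomain

namespace H55D

open H55B H55C



/-- The real period: the smallest positive real number in the period lattice. -/
noncomputable def Omr (L : PeriodPair) : ℝ := sInf {x : ℝ | 0 < x ∧ (x : ℂ) ∈ L.lattice}



end H55D
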