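import Mathlib
import Pool.Agent.Lib.H1M.PP2.D_H55D_Defs
import Pool.Agent.Lib.H1M.PP2.D_H55P_Sel
import Pool.Agent.Lib.H1M.PP2.M020

/-!
# H55P: the statement for y^2 + y = x^3

F is the field of cube roots of unity, O its ring of integers, E27 the curve y^2 + y = x^3 over the rationals.
-/

open NumberField IsDedekindDomain WeierstrassCurve

namespace H55P

open H55B (F O E27)
open H55C (Om)

section galois

variable {K : Type} [Field K]

/-- The function c is a continuous cocycle on the absolute Galois group of K with values in the points of W over the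
algebraic closure. -/
structure Cocycle (W : WeierstrassCurve K) [DecidableEq (AlgebraicClosure K)]
    (c : (AlgebraicClosure K ≃ₐ[K] AlgebraicClosure K) → Pt W (AlgebraicClosure K)) : Prop where
  mul : ∀ s t, c (s * t) = c s + ac W s (c t)
  cont : ∃ L : IntermediateField K (AlgebraicClosure K), FiniteDimensional K L ∧
    ∀ s ∈ L.fixingSubgroup, c s = 0

open Classical in
/-- The p-Selmer group of W over the number field K is zero. The local conditions are imposed on the inertia groups only
(triviality in the cohomology of the inertia groups with values in all points), so that the group contains the classical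
p-Selmer group. -/
def SelTriv (W : WeierstrassCurve K) (p : ℕ) : Prop :=
  ∀ c : (AlgebraicClosure K ≃ₐ[K] AlgebraicClosure K) → Pt W (AlgebraicClosure K), Cocycle W c →
    (∀ s, p • c s = 0) →
    (∀ V : ValuationSubring (AlgebraicClosure K), ∃ P, ∀ s, Inert V s → c s = ac W s P - P) →
    ∃ T, p • T = 0 ∧ ∀ s, c s = ac W s T - T

open Classical in
/-- The p-torsion of the Tate-Shafarevich group of W over the number field K (local conditions at the finite places
only, that is for the decomposition groups of the nontrivial valuation rings) is zero. -/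
def ShaTriv (W : WeierstrassCurve K) (p : ℕ) : Prop :=
  ∀ c : (AlgebraicClosure K ≃ₐ[K] AlgebraicClosure K) → Pt W (AlgebraicClosure K), Cocycle W c →
    (∃ Q, ∀ s, p • c s = ac W s Q - Q) →
    (∀ V : ValuationSubring (AlgebraicClosure K), V ≠ ⊤ →
      ∃ P, ∀ s, Dec V s → c s = ac W s P - P) →
    ∃ P, ∀ s, c s = ac W s P - P

end galois

/-- The curve y^2 + y = x^3 over O. -/
noncomputable def W27O : WeierstrassCurve O := ⟨0, 0, 1, 0, 0⟩

/-- z is a p-adic unit: a unit for all valuations of the complex numbers above p. -/
def UnitP (p : ℕ) (z : ℂ) : Prop := ∀ A : ValuationSubring ℂ, A.valuation (p : ℂ) < 1 → A.valuation z = 1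

/-- The prime v of F does not divide 3 p, and p does not divide the number of points of y^2 + y = x^3 over the
residue field. -/
def GoodP (p : ℕ) (v : HeightOneSpectrum O) : Prop :=
  (3 : O) ∉ v.asIdeal ∧ (p : O) ∉ v.asIdeal ∧ ¬ p ∣ Nat.card (W27O⁄(O ⧸ v.asIdeal)).toAffine.Point

/-- L is a Galois extension of F of degree a power of p, unramified outside the good primes. -/
def ExtP (p : ℕ) (L : Type) [Field L] [NumberField L] [Algebra F L] : Prop :=
  IsGalois F L ∧ (∃ k : ℕ, Module.finrank F L = p ^ k) ∧
    ∀ (W : HeightOneSpectrum (𝓞 L)) (v : HeightOneSpectrum O), v.asIdeal = W.asIdeal.under O →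
      ¬ GoodP p v → W.asIdeal.ramificationIdx O = 1



end H55P
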