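import Mathlib
import Pool.Agent.Lib.H1M.PP2.D_H55P_Stm
import Pool.Agent.Lib.H1M.PP2.M054

/-! # H55K: part Q: definitions (Tamagawa numbers, minimal equations, the analytic order) -/

open NumberField IsDedekindDomain WeierstrassCurve

namespace H55K.TQ

open H55P (IQ embF eF LF Per IsHecke Pt ac Inert Dec Nm UnitP)
open H35P (WAB Ker tt GoodW IntW)
open H55K.MG (VC Crd)

section loc

variable {k : Type} [Field k]

/-- The points with nonsingular reduction: one of the partial derivatives does not reduce to 0. -/
def E0V (W : WeierstrassCurve k) (V : ValuationSubring k) : Set W.toAffine.Point :=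
  {P | P = 0 ∨ ∃ (x y : k) (h : W.toAffine.Nonsingular x y), P = Affine.Point.some x y h ∧
    (1 ≤ V.valuation (3 * x ^ 2 + 2 * W.a₂ * x + W.a₄ - W.a₁ * y) ∨
      1 ≤ V.valuation (2 * y + W.a₁ * x + W.a₃))}

end loc

section glob

variable (K : Type) [Field K] [NumberField K] (W : WeierstrassCurve K) (w : HeightOneSpectrum (𝓞 K))

/-- A minimal equation over the completion at w. -/
noncomputable def Wm : WeierstrassCurve (w.adicCompletion K) :=
  (W⁄(w.adicCompletion K)).minimal (w.adicCompletionIntegers K)

/-- The points over the completion with nonsingular reduction (of the minimal equation): one of the partial derivatives does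
not reduce to 0. -/
def E0G : Set (Wm K W w).toAffine.Point :=
  {P | P = 0 ∨ ∃ (x y : w.adicCompletion K) (h : (Wm K W w).toAffine.Nonsingular x y),
    P = Affine.Point.some x y h ∧
    (1 ≤ Valued.v (3 * x ^ 2 + 2 * (Wm K W w).a₂ * x + (Wm K W w).a₄ - (Wm K W w).a₁ * y) ∨
      1 ≤ Valued.v (2 * y + (Wm K W w).a₁ * x + (Wm K W w).a₃))}

open Classical in
/-- The Tamagawa number: the index of the subgroup of points with nonsingular reduction. -/
noncomputable def tamG : ℕ := (AddSubgroup.closure (E0G K W w)).index

/-- The factor at w for the discriminant: the twelfth root of the normalised absolute value at w of the quotient of the minimal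
discriminant and the discriminant of W. -/
noncomputable def dfac : ℝ := (‖(Wm K W w).Δ‖ / ‖(W⁄(w.adicCompletion K)).Δ‖) ^ (1 / 12 : ℝ)

end glob

/-- The period lattice of the invariant differential of W, an equation over the integers (W is y^2 = 4x^3 - g₂ x - g₃ after a
translation). -/
structure PerZ (W : WeierstrassCurve ℤ) (L : PeriodPair) : Prop where
  g2 : L.g₂ = (W.c₄ : ℂ) / 12
  g3 : L.g₃ = (W.c₆ : ℂ) / 216

open Classical in
/-- The real period: the smallest positive real number in the period lattice, times the number of connected components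
of the group of real points. -/
noncomputable def OmP (W : WeierstrassCurve ℤ) (L : PeriodPair) : ℝ :=
  (if 0 < W.Δ then 2 else 1) * H55D.Omr L

open Classical in
/-- The analytic order of the Tate-Shafarevich group of W over K, predicted by the formula of Birch and Swinnerton-Dyer in rank 0;
W is an equation over the integers and L is its period lattice, L1 is the value of the L-function at 1. -/
noncomputable def shaG (K : Type) [Field K] [NumberField K] (W : WeierstrassCurve ℤ) (L : PeriodPair)
    (L1 : ℂ) : ℂ :=
  L1 * (Real.sqrt |(NumberField.discr K : ℝ)| : ℝ) * (Nat.card (W⁄K).toAffine.Point : ℂ) ^ 2 /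
    ((OmP W L : ℂ) ^ NumberField.InfinitePlace.nrRealPlaces K *
      (H55C.Om L : ℂ) ^ NumberField.InfinitePlace.nrComplexPlaces K *
      ∏ᶠ w : HeightOneSpectrum (𝓞 K), ((tamG K (W⁄K) w : ℂ) * (dfac K (W⁄K) w : ℂ)))

end H55K.TQ
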