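import Mathlib
import Pool.Agent.Lib.H1M.PP2.D_H55P_GD
import Pool.Agent.Lib.H1M.PP2.D_H55P_Stm
import Pool.Agent.Lib.H1M.PP2.M054

/-!
# H55P: the exact criterion for y^2 + y = x^3 (definitions)

F is the field of cube roots of unity, E27 the curve y^2 + y = x^3 over the rationals.
-/

open NumberField IsDedekindDomain WeierstrassCurve

namespace H55P

open H55B (F O E27)




/-- z is in the maximal ideals of all valuation rings of the complex numbers above p. -/
def NonP (p : ℕ) (z : ℂ) : Prop := ∀ A : ValuationSubring ℂ, A.valuation (p : ℂ) < 1 → A.valuation z < 1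



end H55P
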