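import Mathlib
import Pool.Agent.Lib.H1M.PP2.D_H55B_Defs
import Pool.Agent.Lib.H1M.PP2.M010
import Pool.Agent.Lib.H1M.PP2.M016

/-! Merged copies (to shorten the build) of Lib.H28G.GB2, Lib.H55K.C6, Lib.H55R.BF1, Lib.H55R.BF2, Lib.H55R.X4, Lib.H55R.HA11, Lib.H55K.W4A, Lib.H55K.W5A, Lib.H55K.W5B, Lib.H55R.CH2, Lib.H55R.X12, Lib.H55R.X8, Lib.H55R.BF3, Lib.H55R.HA5, Lib.H55R.HB1, Lib.H55R.HCD. -/

-- from Lib.H28G.GB2
section

open NumberField IsDedekindDomain WeierstrassCurve

namespace H28G

open H55B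

/-! Chunk GB2 (M, PURE MATHLIB): orders of meromorphic functions (elementary).
Od.mul .. : multiply the analytic factors (zpow_add₀, valid for z <> z0). Od.comp_mul: (b z - b z0)^n = b^n (z - z0)^n; the map z -> b z is continuous and maps the punctured
neighbourhood of z0 to the punctured neighbourhood of b z0. Od.of_simple: g(z) = (z - z0) dslope g z0 z, analytic (A2_dslope), dslope at z0 = deriv. -/

/-- g has order n at z0. -/
def Od (g : ℂ → ℂ) (z₀ : ℂ) (n : ℤ) : Prop :=
  ∃ h : ℂ → ℂ, AnalyticAt ℂ h z₀ ∧ h z₀ ≠ 0 ∧ ∀ᶠ z in nhdsWithin z₀ {z₀}ᶜ, g z = (z - z₀) ^ n * h z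

theorem GB2_ne (z₀ : ℂ) : ∀ᶠ z in nhdsWithin z₀ {z₀}ᶜ, z - z₀ ≠ 0 := by
  filter_upwards [self_mem_nhdsWithin] with z hz
  exact sub_ne_zero.2 hz

theorem Od.mul {g g' : ℂ → ℂ} {z₀ : ℂ} {n n' : ℤ} (h : Od g z₀ n) (h' : Od g' z₀ n') :
    Od (fun z => g z * g' z) z₀ (n + n') := by
  obtain ⟨u, hu, hu0, hu1⟩ := h
  obtain ⟨v, hv, hv0, hv1⟩ := h'
  refine ⟨fun z => u z * v z, hu.mul hv, mul_ne_zero hu0 hv0, ?_⟩
  filter_upwards [hu1, hv1, GB2_ne z₀] with z h1 h2 h3
  rw [h1, h2, zpow_add₀ h3]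
  ring

theorem Od.inv {g : ℂ → ℂ} {z₀ : ℂ} {n : ℤ} (h : Od g z₀ n) : Od (fun z => (g z)⁻¹) z₀ (-n) := by
  obtain ⟨u, hu, hu0, hu1⟩ := h
  refine ⟨fun z => (u z)⁻¹, hu.inv hu0, inv_ne_zero hu0, ?_⟩
  filter_upwards [hu1] with z h1
  rw [h1, mul_inv, zpow_neg]

theorem Od.of_ne {g : ℂ → ℂ} {z₀ : ℂ} (h : AnalyticAt ℂ g z₀) (h0 : g z₀ ≠ 0) : Od g z₀ 0 :=
  ⟨g, h, h0, Filter.Eventually.of_forall fun z => by rw [zpow_zero, one_mul]⟩

theorem Od.prod {ι : Type} (s : Finset ι) {g : ι → ℂ → ℂ} {z₀ : ℂ} {n : ι → ℤ}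
    (h : ∀ i ∈ s, Od (g i) z₀ (n i)) : Od (fun z => ∏ i ∈ s, g i z) z₀ (∑ i ∈ s, n i) := by
  classical
  induction s using Finset.induction_on with
  | empty =>
    simp only [Finset.prod_empty, Finset.sum_empty]
    exact Od.of_ne analyticAt_const one_ne_zero
  | insert a s ha ih =>
    simp only [Finset.prod_insert ha, Finset.sum_insert ha]
    exact (h a (Finset.mem_insert_self a s)).mul
      (ih fun i hi => h i (Finset.mem_insert_of_mem hi))

theorem Od.comp_add {g : ℂ → ℂ} {z₀ a : ℂ} {n : ℤ} (h : Od g (z₀ + a) n) :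
    Od (fun z => g (z + a)) z₀ n := by
  obtain ⟨u, hu, hu0, hu1⟩ := h
  refine ⟨fun z => u (z + a), ?_, hu0, ?_⟩
  · have h1 : AnalyticAt ℂ (fun z : ℂ => z + a) z₀ := analyticAt_id.add analyticAt_const
    exact AnalyticAt.fun_comp hu h1
  · have h2 : Filter.Tendsto (fun z : ℂ => z + a) (nhdsWithin z₀ {z₀}ᶜ)
        (nhdsWithin (z₀ + a) {z₀ + a}ᶜ) := by
      refine tendsto_nhdsWithin_iff.2 ⟨?_, ?_⟩
      · exact ((continuous_id.add continuous_const).tendsto z₀).mono_left nhdsWithin_le_nhds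
      · filter_upwards [self_mem_nhdsWithin] with z hz
        intro h0
        exact hz (add_right_cancel h0)
    filter_upwards [h2.eventually hu1] with z hz
    rw [hz]
    congr 2
    ring

theorem Od.comp_mul {g : ℂ → ℂ} {z₀ b : ℂ} (hb : b ≠ 0) {n : ℤ} (h : Od g (b * z₀) n) :
    Od (fun z => g (b * z)) z₀ n := by
  obtain ⟨u, hu, hu0, hu1⟩ := h
  refine ⟨fun z => b ^ n * u (b * z), ?_, mul_ne_zero (zpow_ne_zero n hb) hu0, ?_⟩
  · have h1 : AnalyticAt ℂ (fun z : ℂ => b * z) z₀ := analyticAt_const.mul analyticAt_id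
    exact analyticAt_const.mul (AnalyticAt.fun_comp hu h1)
  · have h2 : Filter.Tendsto (fun z : ℂ => b * z) (nhdsWithin z₀ {z₀}ᶜ)
        (nhdsWithin (b * z₀) {b * z₀}ᶜ) := by
      refine tendsto_nhdsWithin_iff.2 ⟨?_, ?_⟩
      · exact ((continuous_const.mul continuous_id).tendsto z₀).mono_left nhdsWithin_le_nhds
      · filter_upwards [self_mem_nhdsWithin] with z hz
        intro h0
        exact hz (mul_left_cancel₀ hb h0)
    filter_upwards [h2.eventually hu1] with z hz
    rw [hz, ← mul_sub, mul_zpow]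
    ring

theorem Od.of_simple {g : ℂ → ℂ} {z₀ : ℂ} (h : AnalyticAt ℂ g z₀) (h0 : g z₀ = 0)
    (h1 : deriv g z₀ ≠ 0) : Od g z₀ 1 := by
  have hne : ¬ ∀ᶠ z in nhds z₀, g z = 0 := by
    intro hz
    apply h1
    have : g =ᶠ[nhds z₀] fun _ => (0 : ℂ) := hz
    rw [this.deriv_eq, deriv_const]
  obtain ⟨u, hu, hu1⟩ : ∃ u : ℂ → ℂ, AnalyticAt ℂ u z₀ ∧ ∀ᶠ z in nhds z₀, g z = (z - z₀) * u z := by
    obtain ⟨n, u, hu, hu0, hu1⟩ := h.exists_eventuallyEq_pow_smul_nonzero_iff.2 hne
    rcases n with _ | n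
    · exfalso
      have := hu1.self_of_nhds
      simp at this
      exact hu0 (this ▸ h0)
    · refine ⟨fun z => (z - z₀) ^ n * u z, ?_, ?_⟩
      · exact ((analyticAt_id.sub analyticAt_const).pow n).mul hu
      · filter_upwards [hu1] with z hz
        rw [hz, smul_eq_mul, pow_succ]
        ring
  refine ⟨u, hu, ?_, ?_⟩
  · intro hu0
    apply h1
    have he : g =ᶠ[nhds z₀] fun z => (z - z₀) * u z := hu1
    rw [he.deriv_eq]
    have hd : HasDerivAt (fun z => (z - z₀) * u z) (1 * u z₀ + (z₀ - z₀) * deriv u z₀) z₀ :=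
      ((hasDerivAt_id z₀).sub_const z₀).mul hu.differentiableAt.hasDerivAt
    rw [hd.deriv, hu0]
    ring
  · filter_upwards [nhdsWithin_le_nhds hu1] with z hz
    rw [hz, zpow_one]

end H28G
end

-- from Lib.H55K.C6
section

namespace H55K.CC

open H28G (Od)

/-! Chunk C6 (S/M): port of dist_gen in Lib/H28G/GB4.lean. D(z) = G z * (H z)^(-1) is periodic and near every z0 (punctured) equal to an analytic h with h z0 <> 0 (Od.mul, Od.inv, zpow 0). H35P.liouville: one
constant C = h z0 for all z0, C <> 0. For z near z0, z <> z0: h is analytic at z too and D = h on a punctured neighbourhood of z, so D z = h z = C; so H z <> 0 (otherwise D z = 0) and G z = C H z. -/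

theorem quot_const (L : PeriodPair) (G H : ℂ → ℂ) (hG : ∀ z, ∀ l ∈ L.lattice, G (z + l) = G z)
    (hH : ∀ z, ∀ l ∈ L.lattice, H (z + l) = H z) (n : ℂ → ℤ) (nG : ∀ z, Od G z (n z)) (nH : ∀ z, Od H z (n z)) :
    ∃ c : ℂ, c ≠ 0 ∧ ∀ z₀, ∀ᶠ z in nhdsWithin z₀ {z₀}ᶜ, G z = c * H z := by
  set D : ℂ → ℂ := fun z => G z * (H z)⁻¹ with hD
  have hDper : ∀ z, ∀ l ∈ L.lattice, D (z + l) = D z := by
    intro z l hl
    simp only [hD]
    rw [hG z l hl, hH z l hl]
  have hOd : ∀ z₀, ∃ h : ℂ → ℂ, AnalyticAt ℂ h z₀ ∧ h z₀ ≠ 0 ∧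
      ∀ᶠ z in nhdsWithin z₀ {z₀}ᶜ, D z = h z := by
    intro z₀
    obtain ⟨h, ha, h0, hh⟩ := Od.mul (nG z₀) (Od.inv (nH z₀))
    refine ⟨h, ha, h0, ?_⟩
    filter_upwards [hh] with z hz
    rw [add_neg_cancel, zpow_zero, one_mul] at hz
    exact hz
  obtain ⟨C, hC⟩ := H35P.liouville L D hDper fun z₀ => by
    obtain ⟨h, ha, _, hh⟩ := hOd z₀
    exact ⟨h, ha, hh⟩
  have hC0 : C ≠ 0 := by
    obtain ⟨h, ha, h0, hh⟩ := hOd 0
    rw [← hC 0 h ha.continuousAt hh]
    exact h0
  refine ⟨C, hC0, ?_⟩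
  intro z₀
  obtain ⟨h, ha, h0, hh⟩ := hOd z₀
  have h1 : ∀ᶠ z in nhds z₀, AnalyticAt ℂ h z := ha.eventually_analyticAt
  have hh' := hh
  rw [eventually_nhdsWithin_iff] at hh'
  have h2 := hh'.eventually_nhds
  rw [eventually_nhdsWithin_iff] at hh ⊢
  filter_upwards [h1, h2, hh] with z hz1 hz2 hz3 hne
  have hDz : D z = C := by
    rw [hz3 hne]
    apply hC z h hz1.continuousAt
    rw [eventually_nhdsWithin_iff]
    filter_upwards [hz2, isOpen_ne.mem_nhds hne] with w hw1 hw2 _
    exact hw1 hw2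
  have hg : H z ≠ 0 := by
    intro h3
    apply hC0
    rw [← hDz]
    simp only [hD]
    rw [h3, inv_zero, mul_zero]
  rw [← hDz]
  simp only [hD]
  rw [inv_mul_cancel_right₀ hg]

end H55K.CC
end

-- from Lib.H55R.BF1
section

open NumberField IsDedekindDomain
open scoped Pointwise

namespace H55R

variable {K L : Type} [Field K] [NumberField K] [Field L] [NumberField L] [Algebra K L]

/-! Chunk BF1 (M): the Galois action on the primes, L/K Galois.
smulP_one, smulP_mul: HeightOneSpectrum.ext, one_smul, mul_smul. under_smulP: the elements of O_K are fixed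
(Ideal.under_smul or comap; Mathlib: Ideal.under_smul). smulP_trans: two primes over the same prime are conjugate
(Ideal.exists_smul_eq_of_isGaloisGroup). ord_smul: ord (σ W) (σ y) = ord W y: for integral y the multiplicity of
σ W in σ (y) is that of W in (y) (σ is a ring automorphism of 𝓞 L: Ideal.map and normalizedFactors, or: y in W^n iff σ y in (σ W)^n =
σ (W^n)); for general y = a/b. ord_int: ord v x for x in 𝓞 K nonzero: n <= ord v x iff x in v^n
(HeightOneSpectrum.intValuation_le_pow_iff_mem). -/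

theorem BF1_val (v : Pl K) (y : Kˣ) : v.valuation K (y : K) = WithZero.exp (-ord v y) := by
  rw [← HeightOneSpectrum.valuationOfNeZero_eq]
  unfold ord
  rw [neg_neg]
  rfl

theorem ord_int (v : Pl K) (x : 𝓞 K) (y : Kˣ) (h : (y : K) = x) (n : ℕ) :
    (n : ℤ) ≤ ord v y ↔ x ∈ v.asIdeal ^ n := by
  have h1 := BF1_val v y
  rw [h] at h1
  have h2 : v.valuation K ((algebraMap (𝓞 K) K) x) = v.intValuation x :=
    v.valuation_of_algebraMap x
  rw [← v.intValuation_le_pow_iff_mem, ← h2]
  have h3 : v.valuation K ((algebraMap (𝓞 K) K) x) = WithZero.exp (-ord v y) := h1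
  rw [h3, WithZero.exp_le_exp]
  omega

theorem smulP_one (W : Pl L) : smulP (1 : Gal(L/K)) W = W := by
  apply HeightOneSpectrum.ext
  exact one_smul _ W.asIdeal

theorem smulP_mul (σ τ : Gal(L/K)) (W : Pl L) : smulP (σ * τ) W = smulP σ (smulP τ W) := by
  apply HeightOneSpectrum.ext
  exact mul_smul σ τ W.asIdeal

theorem BF1_comm : SMulCommClass Gal(L/K) (𝓞 K) (𝓞 L) := by
  refine ⟨fun σ a x => ?_⟩
  rw [Algebra.smul_def, Algebra.smul_def, smul_mul']
  congr 1
  apply RingOfIntegers.ext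
  exact σ.commutes (a : K)

theorem under_smulP (σ : Gal(L/K)) (W : Pl L) : (smulP σ W).under (𝓞 K) = W.under (𝓞 K) := by
  have := BF1_comm (K := K) (L := L)
  apply HeightOneSpectrum.ext
  exact Ideal.under_smul (𝓞 K) W.asIdeal σ

theorem smulP_trans [IsGalois K L] (W W' : Pl L) (h : W.under (𝓞 K) = W'.under (𝓞 K)) :
    ∃ σ : Gal(L/K), smulP σ W = W' := by
  have h1 : W.asIdeal.LiesOver (W.asIdeal.under (𝓞 K)) := ⟨rfl⟩
  have h2 : W'.asIdeal.LiesOver (W.asIdeal.under (𝓞 K)) := ⟨congrArg HeightOneSpectrum.asIdeal h⟩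
  have h3 := W.isPrime
  have h4 := W'.isPrime
  obtain ⟨σ, hσ⟩ := Ideal.exists_smul_eq_of_isGaloisGroup (W.asIdeal.under (𝓞 K)) W.asIdeal
    W'.asIdeal Gal(L/K)
  exact ⟨σ, HeightOneSpectrum.ext hσ⟩

theorem BF1_coe (σ : Gal(L/K)) (x : 𝓞 L) : ((σ • x : 𝓞 L) : L) = σ (x : L) := rfl

theorem BF1_int (σ : Gal(L/K)) (W : Pl L) (x : 𝓞 L) (y : Lˣ) (h : (y : L) = x) :
    ord (smulP σ W) (Units.map ((σ : L ≃ₐ[K] L) : L →* L) y) = ord W y := by
  have h1 : ∀ n : ℕ, (n : ℤ) ≤ ord (smulP σ W) (Units.map ((σ : L ≃ₐ[K] L) : L →* L) y) ↔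
      (n : ℤ) ≤ ord W y := by
    intro n
    have h2 : ((Units.map ((σ : L ≃ₐ[K] L) : L →* L) y : Lˣ) : L) = ((σ • x : 𝓞 L) : L) := by
      rw [BF1_coe, ← h]
      rfl
    rw [ord_int (smulP σ W) (σ • x) _ h2 n, ord_int W x y h n]
    have h3 : (smulP σ W).asIdeal ^ n = σ • (W.asIdeal ^ n) := by
      rw [smul_pow']
      rfl
    rw [h3, Ideal.smul_mem_pointwise_smul_iff]
  have h4 := (h1 0).2 ((ord_int W x y h 0).2 (by simp))
  have h5 := (ord_int W x y h 0).2 (by simp)
  push_cast at h4 h5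
  obtain ⟨a, ha⟩ := Int.eq_ofNat_of_zero_le h4
  obtain ⟨b, hb⟩ := Int.eq_ofNat_of_zero_le h5
  have h6 := (h1 a).1 ha.ge
  have h7 := (h1 b).2 hb.ge
  omega

theorem ord_smul (σ : Gal(L/K)) (W : Pl L) (y : Lˣ) :
    ord (smulP σ W) (Units.map ((σ : L ≃ₐ[K] L) : L →* L) y) = ord W y := by
  obtain ⟨a, b, hb, hab⟩ := IsFractionRing.div_surjective (A := 𝓞 L) (y : L)
  have hb0 : (algebraMap (𝓞 L) L) b ≠ 0 := by
    intro h0
    have := (map_eq_zero_iff _ (IsFractionRing.injective (𝓞 L) L)).1 h0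
    rw [this] at hb
    exact zero_notMem_nonZeroDivisors hb
  have ha0 : (algebraMap (𝓞 L) L) a ≠ 0 := by
    intro h0
    rw [h0, zero_div] at hab
    exact y.ne_zero hab.symm
  have hy : y = Units.mk0 _ ha0 * (Units.mk0 _ hb0)⁻¹ := by
    ext
    rw [← hab, Units.val_mul, Units.val_inv_eq_inv_val, Units.val_mk0, Units.val_mk0, div_eq_mul_inv]
  rw [hy, map_mul, map_inv, ord_mul, ord_inv, ord_mul, ord_inv, BF1_int σ W a (Units.mk0 _ ha0) rfl,
    BF1_int σ W b (Units.mk0 _ hb0) rfl]

end H55R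
end

-- from Lib.H55R.BF2
section

open NumberField IsDedekindDomain
open scoped Pointwise

namespace H55R

variable {K L : Type} [Field K] [NumberField K] [Field L] [NumberField L] [Algebra K L] [IsGalois K L]

/-! Chunk BF2 (M): ramification, degrees, norms; L/K Galois of degree n, v a prime of K.
es_pos, fs_pos: Ideal.ramificationIdxIn_ne_zero, inertiaDegIn_ne_zero. card_above: number of primes above v times e f is n
(Ideal.ncard_primesOver_mul_ramificationIdxIn_mul_inertiaDegIn; the primes W with W.under = v correspond to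
v.asIdeal.primesOver (𝓞 L)). card_stab: Ideal.card_stabilizer_eq.
ord_map: ord W (x) = e ord v (x) for x in Kˣ: v O_L = product of the W'^e over the primes W' above v (Ideal.ramificationIdx is the multiplicity
of W in v O_L), so for integral x with (x) = v^a b, b prime to v, the multiplicity of W in x O_L is e a; quotients.
under_exists: every v has a prime above it. -/

theorem es_pos (v : Pl K) : 0 < es K L v := by
  have h := v.isPrime
  exact Nat.pos_of_ne_zero (Ideal.ramificationIdxIn_ne_zero (A := 𝓞 K) (B := 𝓞 L) Gal(L/K)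
    (p := v.asIdeal))

theorem fs_pos (v : Pl K) : 0 < fs K L v := by
  have h := v.isPrime
  exact Nat.pos_of_ne_zero (Ideal.inertiaDegIn_ne_zero (A := 𝓞 K) (B := 𝓞 L) Gal(L/K)
    (p := v.asIdeal))

omit [IsGalois K L] in
theorem under_exists (v : Pl K) : ∃ W : Pl L, W.under (𝓞 K) = v := by
  have hm := v.isMaximal
  obtain ⟨Q, hQ1, hQ2⟩ := Ideal.exists_maximal_ideal_liesOver_of_isIntegral (S := 𝓞 L) v.asIdeal
  refine ⟨⟨Q, hQ1.isPrime, Ideal.ne_bot_of_liesOver_of_ne_bot v.ne_bot Q⟩, ?_⟩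
  apply HeightOneSpectrum.ext
  exact hQ2.over.symm

omit [IsGalois K L] in
theorem BF2_mem (v : Pl K) (W : Pl L) (h : W.under (𝓞 K) = v) :
    W.asIdeal ∈ v.asIdeal.primesOver (𝓞 L) :=
  ⟨W.isPrime, ⟨(congrArg HeightOneSpectrum.asIdeal h).symm⟩⟩

omit [IsGalois K L] in
theorem above_finite (v : Pl K) : {W : Pl L | W.under (𝓞 K) = v}.Finite := by
  have hm := v.isMaximal
  have h1 : (v.asIdeal.primesOver (𝓞 L)).Finite := IsDedekindDomain.primesOver_finite v.asIdeal (𝓞 L)
  refine Set.Finite.of_finite_image (f := HeightOneSpectrum.asIdeal) (h1.subset ?_) ?_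
  · rintro _ ⟨W, hW, rfl⟩
    exact BF2_mem v W hW
  · intro W _ W' _ h
    exact HeightOneSpectrum.ext h

theorem card_above (v : Pl K) (T : Finset (Pl L)) (hT : ∀ W, W ∈ T ↔ W.under (𝓞 K) = v) :
    T.card * (es K L v * fs K L v) = Module.finrank K L := by
  classical
  have hp := v.isPrime
  have h1 := Ideal.ncard_primesOver_mul_ramificationIdxIn_mul_inertiaDegIn v.asIdeal (𝓞 L) Gal(L/K)
  rw [IsGalois.card_aut_eq_finrank] at h1
  have h2 : ((T.image HeightOneSpectrum.asIdeal : Finset (Ideal (𝓞 L))) : Set (Ideal (𝓞 L))) =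
      v.asIdeal.primesOver (𝓞 L) := by
    ext P
    rw [Finset.coe_image]
    constructor
    · rintro ⟨W, hW, rfl⟩
      exact BF2_mem v W ((hT W).1 (Finset.mem_coe.1 hW))
    · rintro ⟨hP, hP2⟩
      refine ⟨⟨P, hP, Ideal.ne_bot_of_liesOver_of_ne_bot v.ne_bot P⟩, ?_, rfl⟩
      rw [Finset.mem_coe, hT]
      apply HeightOneSpectrum.ext
      exact hP2.over.symm
  rw [← h2, Set.ncard_coe_finset, Finset.card_image_of_injective] at h1
  · exact h1
  · intro W W' h
    exact HeightOneSpectrum.ext h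

theorem card_stab (W : Pl L) (v : Pl K) (h : W.under (𝓞 K) = v) :
    Nat.card {σ : Gal(L/K) // smulP σ W = W} = es K L v * fs K L v := by
  have hp := v.isPrime
  have hW := W.isPrime
  have hl : W.asIdeal.LiesOver v.asIdeal := (BF2_mem v W h).2
  have h1 := Ideal.card_stabilizer_eq (G := Gal(L/K)) v.asIdeal W.asIdeal
  have h2 : Nat.card {σ : Gal(L/K) // smulP σ W = W} =
      Nat.card (MulAction.stabilizer Gal(L/K) W.asIdeal) := by
    apply Nat.card_congr
    refine Equiv.subtypeEquivRight fun σ => ?_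
    rw [MulAction.mem_stabilizer_iff]
    constructor
    · intro h
      exact congrArg HeightOneSpectrum.asIdeal h
    · intro h
      exact HeightOneSpectrum.ext h
  rw [h2, h1]
  rfl

theorem ord_map (W : Pl L) (v : Pl K) (h : W.under (𝓞 K) = v) (x : Kˣ) :
    ord W (Units.map (algebraMap K L : K →* L) x) = es K L v * ord v x := by
  have hp := v.isPrime
  have hW := W.isPrime
  have hl : W.asIdeal.LiesOver v.asIdeal := (BF2_mem v W h).2
  have h1 := HeightOneSpectrum.valuation_liesOver L v W (x : K)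
  rw [Ideal.ramificationIdx'_eq_ramificationIdx v.asIdeal W.asIdeal v.ne_bot,
    ← Ideal.ramificationIdxIn_eq_ramificationIdx v.asIdeal W.asIdeal Gal(L/K)] at h1
  have h2 := BF1_val W (Units.map (algebraMap K L : K →* L) x)
  have h3 : ((Units.map (algebraMap K L : K →* L) x : Lˣ) : L) = algebraMap K L (x : K) := rfl
  rw [h3, ← h1, BF1_val, ← WithZero.exp_nsmul, WithZero.exp_inj] at h2
  have h4 : v.asIdeal.ramificationIdxIn (𝓞 L) = es K L v := rfl
  rw [h4, nsmul_eq_mul] at h2
  linarith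

end H55R
end

-- from Lib.H55R.X4
section

open NumberField IsDedekindDomain
open scoped Pointwise

namespace H55R

/-! Chunk X4 (M): decomposition groups in towers. spl_bot: in L/K Galois, Spl K L v iff all decomposition groups above v are trivial (card_stab,
es_pos, fs_pos; conjugate groups, under_exists). spl_iff (K < L < N, L/K and N/K Galois): (->) σ in Gal(N/K) with σ W = W (W a prime of N) restricts to an
element of Gal(L/K) fixing W.under (𝓞 L), which is 1. (<-) let W be a prime of N above v, W1 = W.under (𝓞 L), τ in Gal(L/K) with τ W1 = W1. Extend τ to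
τ' in Gal(N/K) (AlgEquiv.restrictNormalHom_surjective). τ' W and W lie above W1, so ρ τ' W = W for some ρ in Gal(N/L) (smulP_trans
for N/L), as an element ρ of Gal(N/K) (restrictScalars) it is in the kernel of the restriction; ρ τ' is in the decomposition
group of W, so in the kernel, so τ = 1. es_dvd: es K N = es K L * es of N/L (Ideal.ramificationIdx tower formula; ramificationIdxIn_eq_ramificationIdx). -/

theorem spl_bot (K L : Type) [Field K] [NumberField K] [Field L] [NumberField L] [Algebra K L]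
    [IsGalois K L] (v : Pl K) : Spl K L v ↔ SplA (⊥ : Subgroup Gal(L/K)) v := by
  constructor
  · rintro ⟨he, hf⟩ W hW σ hσ
    have h1 := card_stab W v hW
    rw [he, hf, mul_one, Nat.card_eq_one_iff_unique] at h1
    obtain ⟨h2, -⟩ := h1
    have h3 : (⟨σ, HeightOneSpectrum.ext hσ⟩ : {σ : Gal(L/K) // smulP σ W = W}) =
        ⟨1, smulP_one W⟩ := Subsingleton.elim _ _
    rw [Subgroup.mem_bot]
    exact congrArg Subtype.val h3
  · intro h
    obtain ⟨W, hW⟩ := under_exists (L := L) v
    have h1 := card_stab W v hW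
    have h2 : Nat.card {σ : Gal(L/K) // smulP σ W = W} = 1 := by
      rw [Nat.card_eq_one_iff_unique]
      refine ⟨⟨fun a b => ?_⟩, ⟨⟨1, smulP_one W⟩⟩⟩
      have ha := h W hW a.1 (congrArg HeightOneSpectrum.asIdeal a.2)
      have hb := h W hW b.1 (congrArg HeightOneSpectrum.asIdeal b.2)
      rw [Subgroup.mem_bot] at ha hb
      exact Subtype.ext (ha.trans hb.symm)
    rw [h2] at h1
    exact ⟨Nat.eq_one_of_mul_eq_one_right h1.symm, Nat.eq_one_of_mul_eq_one_left h1.symm⟩

theorem X4_coe (K L N : Type) [Field K] [NumberField K] [Field L] [NumberField L] [Field N]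
    [NumberField N] [Algebra K L] [Algebra L N] [Algebra K N] [IsScalarTower K L N]
    [IsGalois K L] [IsGalois K N] (σ : Gal(N/K)) (x : 𝓞 L) :
    algebraMap (𝓞 L) (𝓞 N) ((AlgEquiv.restrictNormalHom L σ : Gal(L/K)) • x) =
      σ • algebraMap (𝓞 L) (𝓞 N) x := by
  apply RingOfIntegers.ext
  exact AlgEquiv.restrictNormal_commutes σ L (x : L)

theorem X4_under (K L N : Type) [Field K] [NumberField K] [Field L] [NumberField L] [Field N]
    [NumberField N] [Algebra K L] [Algebra L N] [Algebra K N] [IsScalarTower K L N]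
    [IsGalois K L] [IsGalois K N] (σ : Gal(N/K)) (W : Pl N) :
    (smulP σ W).under (𝓞 L) =
      smulP (AlgEquiv.restrictNormalHom L σ : Gal(L/K)) (W.under (𝓞 L)) := by
  apply HeightOneSpectrum.ext
  change Ideal.comap (algebraMap (𝓞 L) (𝓞 N)) (σ • W.asIdeal) =
    (AlgEquiv.restrictNormalHom L σ : Gal(L/K)) •
      Ideal.comap (algebraMap (𝓞 L) (𝓞 N)) W.asIdeal
  ext x
  rw [Ideal.mem_comap, Ideal.mem_pointwise_smul_iff_inv_smul_mem,
    Ideal.mem_pointwise_smul_iff_inv_smul_mem, Ideal.mem_comap, ← map_inv, X4_coe]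

theorem spl_iff (K L N : Type) [Field K] [NumberField K] [Field L] [NumberField L] [Field N]
    [NumberField N] [Algebra K L] [Algebra L N] [Algebra K N] [IsScalarTower K L N]
    [IsGalois K L] [IsGalois K N] (v : Pl K) :
    Spl K L v ↔ SplA (AlgEquiv.restrictNormalHom L : Gal(N/K) →* Gal(L/K)).ker v := by
  have hunder : ∀ W : Pl N, (W.under (𝓞 L)).under (𝓞 K) = W.under (𝓞 K) := by
    intro W
    apply HeightOneSpectrum.ext
    exact Ideal.under_under W.asIdeal
  rw [spl_bot]
  constructor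
  · intro h W hW σ hσ
    rw [MonoidHom.mem_ker]
    have h1 : smulP σ W = W := HeightOneSpectrum.ext hσ
    have h2 := X4_under K L N σ W
    rw [h1] at h2
    have h3 := h (W.under (𝓞 L)) ((hunder W).trans hW) (AlgEquiv.restrictNormalHom L σ)
      (congrArg HeightOneSpectrum.asIdeal h2).symm
    rwa [Subgroup.mem_bot] at h3
  · intro h W₁ hW₁ τ hτ
    have hLN : IsGalois L N := IsGalois.tower_top_of_isGalois K L N
    obtain ⟨W, hW⟩ := under_exists (L := N) W₁
    obtain ⟨τ', hτ'⟩ := AlgEquiv.restrictNormalHom_surjective (F := K) (K₁ := L) (E := N) τ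
    have h1 : (smulP τ' W).under (𝓞 L) = W.under (𝓞 L) := by
      rw [X4_under K L N, hτ', hW]
      exact HeightOneSpectrum.ext hτ
    obtain ⟨ρ, hρ⟩ := smulP_trans (K := L) (smulP τ' W) W h1
    have h2 : (smulP ((ρ.restrictScalars K : Gal(N/K)) * τ') W) = W := by
      rw [smulP_mul]
      exact hρ
    have h3 : (AlgEquiv.restrictNormalHom L (ρ.restrictScalars K : Gal(N/K)) : Gal(L/K)) = 1 := by
      ext x
      apply (algebraMap L N).injective
      exact (AlgEquiv.restrictNormal_commutes (ρ.restrictScalars K : Gal(N/K)) L x).trans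
        (ρ.commutes x)
    have h4 := h W ((hunder W).symm.trans (by rw [hW, hW₁])) _
      (congrArg HeightOneSpectrum.asIdeal h2)
    rw [MonoidHom.mem_ker, map_mul, h3, one_mul, hτ'] at h4
    rw [Subgroup.mem_bot]
    exact h4

theorem es_dvd (K L N : Type) [Field K] [NumberField K] [Field L] [NumberField L] [Field N]
    [NumberField N] [Algebra K L] [Algebra L N] [Algebra K N] [IsScalarTower K L N]
    [IsGalois K L] [IsGalois K N] (v : Pl K) : es K L v ∣ es K N v := by
  have hLN : IsGalois L N := IsGalois.tower_top_of_isGalois K L N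
  obtain ⟨W, hW⟩ := under_exists (L := L) v
  have hp := v.isPrime
  have hP := W.isPrime
  have hl : W.asIdeal.LiesOver v.asIdeal := ⟨(congrArg HeightOneSpectrum.asIdeal hW).symm⟩
  refine Dvd.intro (W.asIdeal.ramificationIdxIn (𝓞 N)) ?_
  exact Ideal.ramificationIdxIn_mul_ramificationIdxIn (p := v.asIdeal) W.asIdeal Gal(L/K) (𝓞 N)
    Gal(N/K) Gal(N/L)

end H55R
end

-- from Lib.H55R.HA11
section

open NumberField IsDedekindDomain

namespace H55R

variable {K L : Type} [Field K] [NumberField K] [Field L] [NumberField L] [Algebra K L]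

/-! Chunk HA11 (M/L): the ambiguous ideals. n = [L : K], σ a generator. Nm n (sg σ) y = algebraMap (N y) (Algebra.norm_eq_prod_automorphisms; the powers
σ^i, i < n, are all elements of the group, once each). Let y in TUa T with norm 1. Hilbert 90 (groupCohomology.exists_div_of_norm_eq_one):
y = z / σ z, z in Lˣ. For W not in T: 0 = ord W y = ord W z - ord W (σ z), and ord (σ W') (σ z) = ord W' z (ord_smul), so the function W -> ord W z is
invariant under σ outside T, hence constant = a_v on the primes above v (smulP_trans), v not in S. Map y to (a_v mod e_v) in the product of ZMod (e_v) over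
v in R, v not in S. Well defined: z is unique up to Kˣ (z / z' fixed by σ), ord W k = e_v ord v k (ord_map). A homomorphism from
TUa ∩ ker Nm. If y is in the kernel: a_v = e_v b_v for all v not in S (for v not in R: e_v = 1), almost all b_v = 0. Let x = product of (x_v)^(b_v), x_v
from hS (GenS S): ord u x = b_u for u not in S. Then z / x is a T-unit and y = (z/x) / σ(z/x) is in the image of TUa under Dm. So
(TUa ∩ ker Nm) / Dm(TUa) embeds in the product: its order is at most the product of the e_v, v in R (e_v >= 1). (An injective map between finite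
sets is enough, or AddSubgroup.relIndex of the kernel.) -/

/-- the Galois action on the units -/
noncomputable def HA11_m (σ : Gal(L/K)) : Lˣ →* Lˣ := Units.map ((σ : L ≃ₐ[K] L) : L →* L)

theorem HA11_sg (σ : Gal(L/K)) (y : Lˣ) :
    (sg σ (Additive.ofMul y)).toMul = HA11_m σ y := rfl

theorem HA11_pow (σ : Gal(L/K)) (i : ℕ) (y : Lˣ) :
    (((sg σ) ^ i : AddMonoid.End (Additive Lˣ)) (Additive.ofMul y)).toMul = HA11_m (σ ^ i) y := by
  induction i with
  | zero =>
    rw [pow_zero, pow_zero]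
    exact Units.ext rfl
  | succ i ih =>
    rw [pow_succ', pow_succ']
    change (sg σ (((sg σ) ^ i : AddMonoid.End (Additive Lˣ)) (Additive.ofMul y))).toMul = _
    have h1 : ((sg σ) ^ i : AddMonoid.End (Additive Lˣ)) (Additive.ofMul y) =
        Additive.ofMul (HA11_m (σ ^ i) y) := by
      rw [← ih]
      rfl
    rw [h1, HA11_sg]
    exact Units.ext rfl

theorem norm_eq_Nm [IsGalois K L] (σ : Gal(L/K)) (hσ : ∀ g : Gal(L/K), g ∈ Subgroup.zpowers σ)
    (y : Lˣ) : (Nm (Module.finrank K L) (sg σ) (Additive.ofMul y)).toMul =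
      Units.map (algebraMap K L : K →* L) (nrm K L y) := by
  classical
  apply Units.ext
  have h1 : (Nm (Module.finrank K L) (sg σ) (Additive.ofMul y)).toMul =
      ∏ i ∈ Finset.range (Module.finrank K L), HA11_m (σ ^ i) y := by
    have h2 : Nm (Module.finrank K L) (sg σ) (Additive.ofMul y) =
        ∑ i ∈ Finset.range (Module.finrank K L),
          ((sg σ) ^ i : AddMonoid.End (Additive Lˣ)) (Additive.ofMul y) :=
      AddMonoidHom.finsetSum_apply _ _ _
    rw [h2, toMul_sum]
    exact Finset.prod_congr rfl fun i _ => HA11_pow σ i y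
  rw [h1]
  have hcard : Nat.card Gal(L/K) = Module.finrank K L := IsGalois.card_aut_eq_finrank K L
  have h3 : (Algebra.norm K (y : L) : K) = nrm K L y := rfl
  change _ = algebraMap K L (Algebra.norm K (y : L))
  rw [Algebra.norm_eq_prod_automorphisms, ← IsCyclic.image_range_card hσ, hcard,
    Finset.prod_image, Units.coe_prod]
  · rfl
  · intro i hi j hj hij
    rw [Finset.mem_coe, Finset.mem_range] at hi hj
    have h4 : orderOf σ = Module.finrank K L := by
      rw [← hcard]
      exact orderOf_eq_card_of_forall_mem_zpowers hσ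
    rw [← h4] at hi hj
    exact pow_injOn_Iio_orderOf hi hj hij

theorem HA11_Dm (σ : Gal(L/K)) (y : Lˣ) :
    Dm (sg σ) (Additive.ofMul y) = Additive.ofMul (y / HA11_m σ y) := rfl

/-- invariance outside `T` -/
theorem HA11_inv (σ : Gal(L/K)) (hσ : ∀ g : Gal(L/K), g ∈ Subgroup.zpowers σ)
    (S : Finset (Pl K)) (T : Finset (Pl L)) (hT : ∀ W, W ∈ T ↔ W.under (𝓞 K) ∈ S) (z : Lˣ)
    (hz : z / HA11_m σ z ∈ SU (T : Set (Pl L))) (g : Gal(L/K)) (W : Pl L) (hW : W ∉ T) :
    ord (smulP g W) z = ord W z := by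
  have hTs : ∀ (g : Gal(L/K)) (W : Pl L), W ∉ T → smulP g W ∉ T := by
    intro g W hW
    rw [hT, under_smulP, ← hT]
    exact hW
  let A : Subgroup Gal(L/K) :=
    { carrier := {g | ∀ W : Pl L, W ∉ T → ord (smulP g W) z = ord W z}
      mul_mem' := by
        intro a b ha hb W hW
        rw [smulP_mul, ha _ (hTs b W hW), hb W hW]
      one_mem' := by
        intro W _
        rw [smulP_one]
      inv_mem' := by
        intro a ha W hW
        have h1 := ha (smulP a⁻¹ W) (hTs _ W hW)
        rw [← smulP_mul, mul_inv_cancel, smulP_one] at h1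
        exact h1.symm }
  have hσA : σ ∈ A := by
    intro W hW
    have h1 := hz (smulP σ W) (hTs σ W hW)
    rw [div_eq_mul_inv, ord_mul, ord_inv] at h1
    have h2 : ord (smulP σ W) (HA11_m σ z) = ord W z := ord_smul σ W z
    rw [h2] at h1
    linarith
  have h1 : Subgroup.zpowers σ ≤ A := by
    rw [Subgroup.zpowers_le]
    exact hσA
  exact h1 (hσ g) W hW

theorem HA11_finite (z : Lˣ) : {W : Pl L | ord W z ≠ 0}.Finite := by
  have h1 := HeightOneSpectrum.Support.finite (𝓞 L) (z : L)
  have h2 := HeightOneSpectrum.Support.finite (𝓞 L) ((z⁻¹ : Lˣ) : L)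
  refine (h1.union h2).subset ?_
  intro W hW
  have key : ∀ x : Lˣ, ord W x < 0 → 1 < W.valuation L (x : L) := by
    intro x hx
    rw [← HeightOneSpectrum.valuationOfNeZero_eq]
    unfold ord at hx
    have h3 : 0 < Multiplicative.toAdd (W.valuationOfNeZero x) := by linarith
    rw [← WithZero.coe_one, WithZero.coe_lt_coe]
    exact h3
  rcases lt_or_gt_of_ne hW with h | h
  · left
    exact key z h
  · right
    apply key
    rw [ord_inv]
    linarith

theorem HA11_ord_prod {ι : Type} (F : Finset ι) (f : ι → Kˣ) (u : Pl K) :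
    ord u (∏ v ∈ F, f v) = ∑ v ∈ F, ord u (f v) := by
  classical
  induction F using Finset.induction_on with
  | empty => rw [Finset.prod_empty, Finset.sum_empty, ord_one]
  | insert a F ha ih => rw [Finset.prod_insert ha, Finset.sum_insert ha, ord_mul, ih]

/-- elements of the kernel -/
theorem HA11_ker [IsGalois K L] (σ : Gal(L/K)) (hσ : ∀ g : Gal(L/K), g ∈ Subgroup.zpowers σ)
    (S : Finset (Pl K)) (T : Finset (Pl L)) (hT : ∀ W, W ∈ T ↔ W.under (𝓞 K) ∈ S)
    (hS : GenS (S : Set (Pl K))) (Wv : Pl K → Pl L) (hWv : ∀ v, (Wv v).under (𝓞 K) = v) (z : Lˣ)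
    (hz : z / HA11_m σ z ∈ SU (T : Set (Pl L)))
    (hdvd : ∀ v, v ∉ S → (es K L v : ℤ) ∣ ord (Wv v) z) :
    ∃ t ∈ SU (T : Set (Pl L)), t / HA11_m σ t = z / HA11_m σ z := by
  classical
  choose b hb using hdvd
  choose x hx1 hx2 using hS
  have hinj : Function.Injective Wv := by
    intro v v' h
    rw [← hWv v, h, hWv v']
  have hfin : {v : Pl K | ord (Wv v) z ≠ 0}.Finite :=
    (HA11_finite z).preimage (hinj.injOn)
  set F : Finset (Pl K) := hfin.toFinset with hF
  set B : Pl K → ℤ := fun v => if h : v ∉ S then b v h else 0 with hB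
  set X : Kˣ := ∏ v ∈ F, x v ^ B v with hX
  have hordX : ∀ u : Pl K, u ∉ S → (es K L u : ℤ) * ord u X = ord (Wv u) z := by
    intro u hu
    rw [hX, HA11_ord_prod]
    have h1 : ∑ v ∈ F, ord u (x v ^ B v) = if u ∈ F then B u else 0 := by
      have h2 : ∀ v ∈ F, ord u (x v ^ B v) = if u = v then B u else 0 := by
        intro v _
        rw [ord_zpow]
        split_ifs with h
        · rw [← h, hx1 u hu, mul_one]
        · rw [hx2 v u hu h, mul_zero]
      rw [Finset.sum_congr rfl h2, Finset.sum_ite_eq]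
    rw [h1]
    split_ifs with h
    · have h3 : B u = b u hu := by
        rw [hB]
        exact dif_pos hu
      rw [h3, ← hb u hu]
    · rw [hF, Set.Finite.mem_toFinset, Set.mem_setOf_eq, not_not] at h
      rw [h, mul_zero]
  refine ⟨z / Units.map (algebraMap K L : K →* L) X, ?_, ?_⟩
  · intro W hW
    have hW' : W ∉ T := hW
    have hu : W.under (𝓞 K) ∉ S := fun h => hW' ((hT W).2 h)
    rw [div_eq_mul_inv, ord_mul, ord_inv, ord_map W _ rfl, hordX _ hu]
    have h1 : Wv (W.under (𝓞 K)) ∉ T := by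
      rw [hT, hWv]
      exact hu
    obtain ⟨g, hg⟩ := smulP_trans (Wv (W.under (𝓞 K))) W (hWv _)
    have h2 := HA11_inv σ hσ S T hT z hz g _ h1
    rw [hg] at h2
    rw [h2]
    ring
  · have h1 : HA11_m σ (Units.map (algebraMap K L : K →* L) X) =
        Units.map (algebraMap K L : K →* L) X := by
      apply Units.ext
      exact σ.commutes (X : K)
    rw [map_div, h1, div_div_div_cancel_right]

theorem h1_le [IsGalois K L] (σ : Gal(L/K)) (hσ : ∀ g : Gal(L/K), g ∈ Subgroup.zpowers σ)
    (S : Finset (Pl K)) (T : Finset (Pl L)) (hT : ∀ W, W ∈ T ↔ W.under (𝓞 K) ∈ S)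
    (hS : GenS (S : Set (Pl K))) (R : Finset (Pl K)) (hR : ∀ v, v ∉ R → es K L v = 1) :
    h1 (Module.finrank K L) (sg σ) (TUa T) ≤ ∏ v ∈ R, es K L v := by
  classical
  have hcyc : IsCyclic Gal(L/K) := ⟨σ, hσ⟩
  choose Wv hWv using under_exists (K := K) (L := L)
  unfold h1
  set Q : AddSubgroup (Additive Lˣ) := TUa T ⊓ (Nm (Module.finrank K L) (sg σ)).ker with hQ
  -- Hilbert 90
  have h90 : ∀ y : Q, ∃ z : Lˣ, z / HA11_m σ z = (y : Additive Lˣ).toMul := by
    intro y
    have h1 : Nm (Module.finrank K L) (sg σ) (y : Additive Lˣ) = 0 := y.2.2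
    have h2 := norm_eq_Nm σ hσ (y : Additive Lˣ).toMul
    have h3 : Additive.ofMul (y : Additive Lˣ).toMul = (y : Additive Lˣ) := rfl
    rw [h3, h1, toMul_zero] at h2
    have h4 : algebraMap K L (Algebra.norm K (((y : Additive Lˣ).toMul : Lˣ) : L)) = 1 := by
      have := congrArg (fun u : Lˣ => (u : L)) h2
      exact this.symm
    have h5 : Algebra.norm K (((y : Additive Lˣ).toMul : Lˣ) : L) = 1 := by
      apply (algebraMap K L).injective
      rw [h4, map_one]
    obtain ⟨z, hz⟩ := groupCohomology.exists_div_of_norm_eq_one hσ h5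
    refine ⟨z, Units.ext ?_⟩
    rw [← hz, Units.val_div_eq_div_val]
    rfl
  choose z hz using h90
  -- the map
  let f : Q → (∀ v : R, ZMod (es K L v)) := fun y v => (ord (Wv v) (z y) : ZMod (es K L v))
  have hf : ∀ y y' : Q, f y = f y' →
      (y : Additive Lˣ) - (y' : Additive Lˣ) ∈ (TUa T).map (Dm (sg σ)) := by
    intro y y' h
    have h1 : z y / z y' / HA11_m σ (z y / z y') =
        ((y : Additive Lˣ) - (y' : Additive Lˣ)).toMul := by
      rw [map_div, toMul_sub, ← hz y, ← hz y', div_div_div_comm]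
    have h2 : z y / z y' / HA11_m σ (z y / z y') ∈ SU (T : Set (Pl L)) := by
      rw [h1]
      exact (TUa T).sub_mem y.2.1 y'.2.1
    have h3 : ∀ v, v ∉ S → (es K L v : ℤ) ∣ ord (Wv v) (z y / z y') := by
      intro v _
      by_cases hv : v ∈ R
      · have h4 : (ord (Wv v) (z y) : ZMod (es K L v)) = (ord (Wv v) (z y') : ZMod (es K L v)) :=
          congrFun h ⟨v, hv⟩
        rw [ZMod.intCast_eq_intCast_iff_dvd_sub] at h4
        rw [div_eq_mul_inv, ord_mul, ord_inv, ← dvd_neg]
        have h5 : -(ord (Wv v) (z y) + -ord (Wv v) (z y')) = ord (Wv v) (z y') - ord (Wv v) (z y) := by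
          ring
        rw [h5]
        exact h4
      · rw [hR v hv]
        exact one_dvd _
    obtain ⟨t, ht, htz⟩ := HA11_ker σ hσ S T hT hS Wv hWv _ h2 h3
    refine ⟨Additive.ofMul t, ht, ?_⟩
    rw [HA11_Dm, htz, h1]
    rfl
  have hfin : Finite (∀ v : R, ZMod (es K L v)) := by
    have : ∀ v : R, NeZero (es K L v) := fun v => ⟨(es_pos (v : Pl K)).ne'⟩
    infer_instance
  have hcard : Nat.card (∀ v : R, ZMod (es K L v)) = ∏ v ∈ R, es K L v := by
    rw [Nat.card_pi]
    simp only [Nat.card_zmod]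
    exact Finset.prod_coe_sort R (fun v => es K L v)
  unfold AddSubgroup.relIndex AddSubgroup.index
  rw [← hcard]
  apply Nat.card_le_card_of_injective
    (fun q : Q ⧸ ((TUa T).map (Dm (sg σ))).addSubgroupOf Q => f q.out)
  intro q q' h
  have h1 := hf _ _ h
  rw [← QuotientAddGroup.out_eq' q, ← QuotientAddGroup.out_eq' q']
  rw [QuotientAddGroup.eq]
  rw [AddSubgroup.mem_addSubgroupOf]
  have h2 := AddSubgroup.neg_mem _ h1
  have h3 : -((q.out : Additive Lˣ) - (q'.out : Additive Lˣ)) =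
      ((-q.out + q'.out : Q) : Additive Lˣ) := by
    rw [AddSubgroup.coe_add, AddSubgroup.coe_neg]
    abel
  rw [h3] at h2
  exact h2

end H55R
end

-- from Lib.H55K.W4A
section

/-! # H55K, part W: different points give different classes -/

open Polynomial

open scoped Polynomial.Bivariate

namespace H55K.WZ

open WeierstrassCurve (Affine)

variable {k : Type} [Field k] (W : Affine k)

/-- Chunk W4A (M). Uses Mathlib's Affine.Point.toClass_injective. For a nonsingular point (x, y) (hΔ: Affine.equation_iff_nonsingular_of_Δ_ne_zero) toClass (some x y) is the class of PI x y in the ideal class group (XYIdeal', toClass_some). If I = span {f} and I * PI x y = span {g} then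
f PI x y = span {g}, so the class of PI x y is trivial (ClassGroup.mk_eq_one_of_coe_ideal or ClassGroup.mk_eq_mk_of_coe_ideal : f J = g J'), so some x y = 0: contradiction (toClass_eq_zero, some_ne_zero). -/
theorem pr_PI (hΔ : W.Δ ≠ 0) {x y : k} (h : W.Equation x y) {f g : W.CoordinateRing} (hf : f ≠ 0) (hg : g ≠ 0) :
    Ideal.span {f} * PI W x y ≠ Ideal.span {g} := by
  classical
  intro hfg
  have hn : W.Nonsingular x y := (Affine.equation_iff_nonsingular_of_Δ_ne_zero hΔ).1 h
  have h1 : ClassGroup.mk W.FunctionField (Affine.CoordinateRing.XYIdeal' (W := W) hn) =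
      ClassGroup.mk W.FunctionField 1 := by
    refine (ClassGroup.mk_eq_mk_of_coe_ideal (I' := PI W x y) (J' := ⊤)
      (Affine.CoordinateRing.XYIdeal'_eq hn) ?_).2 ⟨f, g, hf, hg, ?_⟩
    · rw [Units.val_one, FractionalIdeal.coeIdeal_top]
    · rw [hfg, Ideal.mul_top]
  have h2 : Affine.Point.toClass (Affine.Point.some x y hn) = 0 := by
    rw [Affine.Point.toClass_some, h1, map_one]
    rfl
  exact Affine.Point.some_ne_zero _ ((Affine.Point.toClass_eq_zero _).1 h2)

/-- Chunk W4A. I * PI x y = span {f}, I * PI x' y' = span {g}: g PI x y = (1/I) f g.. : multiply the first by PI x' y' and use the second: span {g} * PI x y = I * PI x' y' * PI x y = span {f} * PI x' y'. So the classes of PI x y and PI x' y' are equal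
(ClassGroup.mk_eq_mk_of_coe_ideal), toClass_injective, Affine.Point.some.injEq. -/
theorem pr_uniq (hΔ : W.Δ ≠ 0) {x y x' y' : k} (h : W.Equation x y) (h' : W.Equation x' y') {I : Ideal W.CoordinateRing}
    {f g : W.CoordinateRing} (hf : f ≠ 0) (hg : g ≠ 0) (h1 : I * PI W x y = Ideal.span {f})
    (h2 : I * PI W x' y' = Ideal.span {g}) : x = x' ∧ y = y' := by
  classical
  have hn : W.Nonsingular x y := (Affine.equation_iff_nonsingular_of_Δ_ne_zero hΔ).1 h
  have hn' : W.Nonsingular x' y' := (Affine.equation_iff_nonsingular_of_Δ_ne_zero hΔ).1 h'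
  have h3 : Ideal.span {g} * PI W x y = Ideal.span {f} * PI W x' y' := by
    rw [← h1, ← h2]
    ring
  have h4 : ClassGroup.mk W.FunctionField (Affine.CoordinateRing.XYIdeal' (W := W) hn) =
      ClassGroup.mk W.FunctionField (Affine.CoordinateRing.XYIdeal' (W := W) hn') :=
    (ClassGroup.mk_eq_mk_of_coe_ideal (I' := PI W x y) (J' := PI W x' y')
      (Affine.CoordinateRing.XYIdeal'_eq hn) (Affine.CoordinateRing.XYIdeal'_eq hn')).2
      ⟨g, f, hg, hf, h3⟩
  have h5 : Affine.Point.toClass (Affine.Point.some x y hn) =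
      Affine.Point.toClass (Affine.Point.some x' y' hn') := by
    rw [Affine.Point.toClass_some, Affine.Point.toClass_some, h4]
  have h6 := Affine.Point.toClass_injective h5
  rw [Affine.Point.some.injEq] at h6
  exact h6

end H55K.WZ
end

-- from Lib.H55K.W5A
section

/-! # H55K, part W: points are homomorphisms -/

open Polynomial

open scoped Polynomial.Bivariate

namespace H55K.WZ

open WeierstrassCurve (Affine)

variable {k : Type} [Field k] (W : Affine k)



theorem w5a_comp (K : Type) [Field K] [Algebra k K] (φ : W.CoordinateRing →ₐ[k] K) (p : k[X]) :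
    φ (algebraMap k[X] W.CoordinateRing p) = aeval (φ (algebraMap k[X] W.CoordinateRing X)) p := by
  have h : φ.comp (IsScalarTower.toAlgHom k k[X] W.CoordinateRing) = aeval (φ (algebraMap k[X] W.CoordinateRing X)) := by
    refine Polynomial.algHom_ext ?_
    rw [aeval_X]
    rfl
  exact DFunLike.congr_fun h p

theorem w5a_eq (K : Type) [Field K] [Algebra k K] (φ : W.CoordinateRing →ₐ[k] K) :
    (WeierstrassCurve.baseChange W K).toAffine.Equation (φ (algebraMap k[X] W.CoordinateRing X))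
      (φ (Affine.CoordinateRing.mk W Y)) := by
  have h0 : Affine.CoordinateRing.mk W (Y ^ 2 + C (C W.a₁ * X + C W.a₃) * Y -
      C (X ^ 3 + C W.a₂ * X ^ 2 + C W.a₄ * X + C W.a₆)) = 0 := AdjoinRoot.mk_self
  have h1 := congrArg φ h0
  simp only [map_add, map_sub, map_mul, map_pow, map_zero] at h1
  have hC : ∀ p : k[X], φ (Affine.CoordinateRing.mk W (C p)) = aeval (φ (algebraMap k[X] W.CoordinateRing X)) p :=
    fun p => w5a_comp W K φ p
  simp only [hC, aeval_X, aeval_C] at h1
  rw [WeierstrassCurve.Affine.equation_iff]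
  simp only [WeierstrassCurve.baseChange, WeierstrassCurve.map]
  linear_combination h1

theorem w5a_ext (K : Type) [Field K] [Algebra k K] (φ ψ : W.CoordinateRing →ₐ[k] K)
    (hx : φ (algebraMap k[X] W.CoordinateRing X) = ψ (algebraMap k[X] W.CoordinateRing X))
    (hy : φ (Affine.CoordinateRing.mk W Y) = ψ (Affine.CoordinateRing.mk W Y)) : φ = ψ := by
  refine AlgHom.ext fun f => ?_
  obtain ⟨p, q, rfl⟩ := exists_el W f
  rw [el, Algebra.smul_def, Algebra.smul_def, mul_one]
  simp only [map_add, map_mul]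
  rw [w5a_comp W K φ p, w5a_comp W K φ q, w5a_comp W K ψ p, w5a_comp W K ψ q, hx, hy]

theorem w5a_surj (K : Type) [Field K] [Algebra k K] (x y : K)
    (h : (WeierstrassCurve.baseChange W K).toAffine.Equation x y) : ∃ φ : W.CoordinateRing →ₐ[k] K,
    φ (algebraMap k[X] W.CoordinateRing X) = x ∧ φ (Affine.CoordinateRing.mk W Y) = y := by
  have h0 : eval₂ ((aeval x : k[X] →ₐ[k] K) : k[X] →+* K) y W.polynomial = 0 := by
    rw [WeierstrassCurve.Affine.equation_iff] at h
    simp only [WeierstrassCurve.baseChange, WeierstrassCurve.map] at h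
    rw [WeierstrassCurve.Affine.polynomial]
    simp only [eval₂_add, eval₂_sub, eval₂_mul, eval₂_pow, eval₂_X, eval₂_C, RingHom.coe_coe, map_add, map_mul, map_pow,
      aeval_X, aeval_C]
    linear_combination h
  obtain ⟨g, hg⟩ : ∃ g : W.CoordinateRing →+* K, g = AdjoinRoot.lift ((aeval x : k[X] →ₐ[k] K) : k[X] →+* K) y h0 := ⟨_, rfl⟩
  have hgC : ∀ p : k[X], g (algebraMap k[X] W.CoordinateRing p) = aeval x p := fun p => by
    rw [hg]
    exact AdjoinRoot.lift_of h0
  have hgY : g (Affine.CoordinateRing.mk W Y) = y := by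
    rw [hg]
    exact AdjoinRoot.lift_root h0
  have hc : ∀ c : k, g (algebraMap k W.CoordinateRing c) = algebraMap k K c := fun c => by
    rw [IsScalarTower.algebraMap_apply k k[X] W.CoordinateRing, hgC]
    exact aeval_C x c
  refine ⟨{ g with commutes' := hc }, ?_, ?_⟩
  · show g (algebraMap k[X] W.CoordinateRing X) = x
    rw [hgC, aeval_X]
  · exact hgY

/-- Chunk W5A (S/M). Points ≠ 0 of W over K are the pairs (x, y) with the equation (W.baseChange K has discriminant the image of Δ ≠ 0: map_Δ; Affine.pointEquiv / nonsingularPointEquiv, equation_iff_nonsingular_of_Δ_ne_zero), and these are the k-algebra homomorphisms R → K: AdjoinRoot.lift (aeval x) y,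
conversely (f X, f Y) (AdjoinRoot.algHom_ext, Polynomial.algHom_ext). K finite, so everything is finite (Nat.card of Option / WithZero is + 1). -/
theorem card_pt (hΔ : W.Δ ≠ 0) (K : Type) [Field K] [Finite K] [Algebra k K] :
    Nat.card (WeierstrassCurve.baseChange W K).toAffine.Point = 1 + Nat.card (W.CoordinateRing →ₐ[k] K) := by
  have hΔ' : (WeierstrassCurve.baseChange W K).toAffine.Δ ≠ 0 := by
    show (W.map (algebraMap k K)).Δ ≠ 0
    rw [WeierstrassCurve.map_Δ]
    exact fun h => hΔ ((algebraMap k K).injective (by rw [h, map_zero]))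
  have hbij : Function.Bijective (fun φ : W.CoordinateRing →ₐ[k] K =>
      (⟨(φ (algebraMap k[X] W.CoordinateRing X), φ (Affine.CoordinateRing.mk W Y)),
        (WeierstrassCurve.Affine.equation_iff_nonsingular_of_Δ_ne_zero hΔ').1 (w5a_eq W K φ)⟩ :
        {xy : K × K // (WeierstrassCurve.baseChange W K).toAffine.Nonsingular xy.fst xy.snd})) := by
    constructor
    · intro φ ψ h
      have h1 := congrArg Subtype.val h
      exact w5a_ext W K φ ψ (congrArg Prod.fst h1) (congrArg Prod.snd h1)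
    · rintro ⟨⟨x, y⟩, h⟩
      obtain ⟨φ, h1, h2⟩ := w5a_surj W K x y h.1
      exact ⟨φ, Subtype.ext (Prod.ext h1 h2)⟩
  rw [Nat.card_congr (WeierstrassCurve.Affine.nonsingularPointEquiv (WeierstrassCurve.baseChange W K).toAffine),
    Nat.card_congr (Equiv.ofBijective _ hbij)]
  show Nat.card (Option _) = _
  rw [Finite.card_option, add_comm]

end H55K.WZ
end

-- from Lib.H55K.W5B
section

/-! # H55K, part W: homomorphisms and prime ideals -/

open Polynomial

open scoped Polynomial.Bivariate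

namespace H55K.WZ

open WeierstrassCurve (Affine)

variable {k : Type} [Field k] (W : Affine k)

theorem w5b_inf : Infinite W.CoordinateRing := by
  refine Infinite.of_injective (fun p : k[X] => el W p 0) ?_
  intro p q h
  have h2 : el W (p - q) 0 = 0 := by
    have : el W (p - q) 0 = el W p 0 - el W q 0 := by
      simp only [el, sub_smul, zero_smul, add_zero]
    rw [this]
    exact sub_eq_zero.2 h
  exact sub_eq_zero.1 (el_eq_zero W h2).1

theorem w5b_bot {K : Type} [Field K] [Finite K] [Algebra k K] (φ : W.CoordinateRing →ₐ[k] K) :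
    RingHom.ker φ ≠ ⊥ := by
  intro h
  have h1 : Function.Injective φ := (RingHom.injective_iff_ker_eq_bot φ).2 h
  have := w5b_inf W
  exact not_finite_iff_infinite.2 this (Finite.of_injective _ h1)

theorem w5b_fin [Finite k] {P : Ideal W.CoordinateRing} (hP : P ≠ ⊥) : Finite (W.CoordinateRing ⧸ P) := by
  have := fin_quot W hP
  exact Module.finite_of_finite k

theorem w5b_max [Finite k] {P : Ideal W.CoordinateRing} (hP : P ≠ ⊥) (h : P.IsPrime) : P.IsMaximal := by
  have := w5b_fin W hP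
  have : IsDomain (W.CoordinateRing ⧸ P) := Ideal.Quotient.isDomain P
  exact Ideal.Quotient.maximal_of_isField P (Finite.isField_of_domain _)

theorem w5b_dvd [Finite k] {K : Type} [Field K] [Finite K] [Algebra k K] (φ : W.CoordinateRing →ₐ[k] K) :
    dg W (RingHom.ker φ) ∣ Module.finrank k K := by
  have hb := w5b_bot W φ
  have hp : (RingHom.ker φ).IsPrime := RingHom.ker_isPrime φ
  have hm := w5b_max W hb hp
  letI := Ideal.Quotient.field (RingHom.ker φ)
  exact FiniteField.nonempty_algHom_iff_finrank_dvd.1 ⟨Ideal.kerLiftAlg φ⟩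

/-- The homomorphisms with a given kernel. -/
noncomputable def w5b_eq [Finite k] {K : Type} [Field K] [Finite K] [Algebra k K] (P : Ideal W.CoordinateRing)
    (hP : P ≠ ⊥) (h : P.IsPrime) :
    {φ : W.CoordinateRing →ₐ[k] K // RingHom.ker φ = P} ≃ (W.CoordinateRing ⧸ P →ₐ[k] K) where
  toFun φ := Ideal.Quotient.liftₐ P φ.1 (fun a ha => by
    have : a ∈ RingHom.ker φ.1 := by rw [φ.2]; exact ha
    exact this)
  invFun ψ := ⟨ψ.comp (Ideal.Quotient.mkₐ k P), by
    have hm := w5b_max W hP h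
    letI := Ideal.Quotient.field P
    have hi : Function.Injective ψ := ψ.toRingHom.injective
    ext a
    rw [RingHom.mem_ker, AlgHom.comp_apply]
    constructor
    · intro h1
      exact Ideal.Quotient.eq_zero_iff_mem.1 (hi (h1.trans (map_zero ψ).symm))
    · intro h1
      have h2 : Ideal.Quotient.mkₐ k P a = 0 := Ideal.Quotient.eq_zero_iff_mem.2 h1
      rw [h2, map_zero]⟩
  left_inv φ := by
    apply Subtype.ext
    exact Ideal.Quotient.liftₐ_comp P φ.1 _
  right_inv ψ := by
    apply Ideal.Quotient.algHom_ext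
    exact Ideal.Quotient.liftₐ_comp P _ _

theorem w5b_card [Finite k] {K : Type} [Field K] [Finite K] [Algebra k K] (P : Ideal W.CoordinateRing)
    (hP : P ≠ ⊥) (h : P.IsPrime) (hd : dg W P ∣ Module.finrank k K) :
    Finite {φ : W.CoordinateRing →ₐ[k] K // RingHom.ker φ = P} ∧
    Nat.card {φ : W.CoordinateRing →ₐ[k] K // RingHom.ker φ = P} = dg W P := by
  have hm := w5b_max W hP h
  have h1 := w5b_fin W hP
  letI := Ideal.Quotient.field P
  have h2 : Nat.card (W.CoordinateRing ⧸ P →ₐ[k] K) = Module.finrank k (W.CoordinateRing ⧸ P) :=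
    FiniteField.natCard_algHom_of_finrank_dvd hd
  have h3 : Nat.card {φ : W.CoordinateRing →ₐ[k] K // RingHom.ker φ = P} = dg W P := by
    rw [Nat.card_congr (w5b_eq W P hP h), h2]
    rfl
  refine ⟨?_, h3⟩
  apply Nat.finite_of_card_ne_zero
  rw [h3]
  have := fin_quot W hP
  exact (Module.finrank_pos (R := k) (M := W.CoordinateRing ⧸ P)).ne'

/-- Chunk W5B (M). A k-algebra homomorphism φ : R → K has a prime kernel P, nonzero (K finite, R infinite: it contains k[X]), R/P is a field (dedekind: maximal) of degree dg P over k embedding into K, so dg P divides finrank k K (Module.finrank_mul_finrank). For a prime P ≠ ⊥ of degree d dividing n = finrank k K the homomorphisms with kernel P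
are the k-algebra homomorphisms R/P → K (Ideal.Quotient.liftₐ), and there are d of them: for finite fields L, K over k with [L:k] | [K:k] the number of k-algebra homomorphisms L → K is [L:k] (FiniteField.nonempty_algHom_of_finrank_dvd, and L/k Galois: AlgHom.card / IsGalois: fix one ι, the others are ι ∘ g, g in Gal(L/k),
because L/k is normal: AlgHom.restrictNormal / AlgEquiv; IsGalois.card_aut_eq_finrank). Sum over the finite set of primes of degree d (fin_id), over the divisors d of n. -/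
theorem hom_card (hΔ : W.Δ ≠ 0) [Finite k] (K : Type) [Field K] [Finite K] [Algebra k K] :
    Nat.card (W.CoordinateRing →ₐ[k] K) = ∑ d ∈ (Module.finrank k K).divisors, d * pn W d := by
  classical
  have hfin : ∀ d, (prs W d).Finite := fun d =>
    (fin_id W d).subset (fun P hP => ⟨hP.2.1, hP.2.2⟩)
  set T : Finset (Ideal W.CoordinateRing) :=
    (Module.finrank k K).divisors.biUnion (fun d => (hfin d).toFinset) with hT
  have hn : Module.finrank k K ≠ 0 := by
    have : Module.Finite k K := Module.Finite.of_finite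
    exact Module.finrank_pos.ne'
  have hTm : ∀ P, P ∈ T ↔ P.IsPrime ∧ P ≠ ⊥ ∧ dg W P ∣ Module.finrank k K := by
    intro P
    rw [hT, Finset.mem_biUnion]
    constructor
    · rintro ⟨d, hd, hP⟩
      rw [Set.Finite.mem_toFinset] at hP
      refine ⟨hP.1, hP.2.1, ?_⟩
      rw [hP.2.2]
      exact Nat.dvd_of_mem_divisors hd
    · rintro ⟨h1, h2, h3⟩
      exact ⟨dg W P, Nat.mem_divisors.2 ⟨h3, hn⟩, (Set.Finite.mem_toFinset _).2 ⟨h1, h2, rfl⟩⟩
  let F : (W.CoordinateRing →ₐ[k] K) → T := fun φ =>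
    ⟨RingHom.ker φ, (hTm _).2 ⟨RingHom.ker_isPrime φ, w5b_bot W φ, w5b_dvd W φ⟩⟩
  have hF : ∀ P : T, Finite {φ // F φ = P} ∧ Nat.card {φ // F φ = P} = dg W P.1 := by
    intro P
    obtain ⟨h1, h2, h3⟩ := (hTm P.1).1 P.2
    have h4 := w5b_card (K := K) W P.1 h2 h1 h3
    have e : {φ // F φ = P} ≃ {φ : W.CoordinateRing →ₐ[k] K // RingHom.ker φ = P.1} :=
      Equiv.subtypeEquivRight (fun φ => by
        rw [Subtype.ext_iff])
    refine ⟨?_, ?_⟩
    · have := h4.1
      exact Finite.of_equiv _ e.symm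
    · rw [Nat.card_congr e, h4.2]
  have hFf : ∀ P : T, Finite {φ // F φ = P} := fun P => (hF P).1
  rw [← Nat.card_congr (Equiv.sigmaFiberEquiv F), Nat.card_sigma]
  calc ∑ P : T, Nat.card {φ // F φ = P} = ∑ P : T, dg W P.1 :=
        Finset.sum_congr rfl (fun P _ => (hF P).2)
    _ = ∑ P ∈ T, dg W P := Finset.sum_coe_sort T (fun P => dg W P)
    _ = ∑ d ∈ (Module.finrank k K).divisors, ∑ P ∈ (hfin d).toFinset, dg W P := by
        rw [hT, Finset.sum_biUnion]
        intro d _ e _ hde
        rw [Function.onFun, Finset.disjoint_left]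
        intro P hP hP2
        rw [Set.Finite.mem_toFinset] at hP hP2
        exact hde (hP.2.2.symm.trans hP2.2.2)
    _ = ∑ d ∈ (Module.finrank k K).divisors, d * pn W d := by
        refine Finset.sum_congr rfl (fun d _ => ?_)
        rw [Finset.sum_congr rfl (g := fun _ => d) (fun P hP => ?_), Finset.sum_const, smul_eq_mul,
          mul_comm, pn, Set.ncard_eq_toFinset_card _ (hfin d)]
        rw [Set.Finite.mem_toFinset] at hP
        exact hP.2.2

end H55K.WZ
end

-- from Lib.H55R.CH2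
section

open NumberField IsDedekindDomain

namespace H55R

/-! Chunk CH2 (M): the decomposition law in a Galois extension of degree 3. By card_above (number of primes above w) * (e f) = 3. The prime W has relNorm W = w^f
(Ideal.relNorm_eq_pow_of_isMaximal, Ideal.inertiaDegIn_eq_inertiaDeg). The set of primes above w is finite (above_finite). -/

theorem CH2_norm {K K' : Type} [Field K] [NumberField K] [Field K'] [NumberField K']
    [Algebra K K'] [IsGalois K K'] (w : Pl K) (W : Pl K') (h : W.asIdeal.under (𝓞 K) = w.asIdeal) :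
    Ideal.relNorm (𝓞 K) W.asIdeal = w.asIdeal ^ fs K K' w := by
  have hl : W.asIdeal.LiesOver w.asIdeal := ⟨h.symm⟩
  have hw := w.isMaximal
  have hwp := w.isPrime
  have hW := W.isMaximal
  have hWp := W.isPrime
  have h1 := Ideal.relNorm_eq_pow_of_isMaximal W.asIdeal w.asIdeal
  have h2 := Ideal.inertiaDegIn_eq_inertiaDeg w.asIdeal W.asIdeal Gal(K'/K)
  rw [h1, ← h2]
  rfl






end H55R
end

-- from Lib.H55R.X12
section

open NumberField IsDedekindDomain

namespace H55R

/-! Chunk X12 (M): the modulus. Only finitely many primes v of K are ramified in L: e.g. es K L v <> 1 implies that the prime number below v divides the discriminant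
of L (Mathlib: NumberField.not_dvd_discr_iff_forall_mem, es divides the absolute ramification index of the primes above), or that a prime W above v divides the
different of L/K; a nonzero ideal has finitely many prime divisors. f = product of the ramified v.asIdeal over the finite set: f <> 0, squarefree (product of distinct
primes), f <= v.asIdeal iff v.asIdeal is one of the factors (Ideal.IsPrime.prod_le, maximal ideals). -/

theorem ram_fin (K L : Type) [Field K] [NumberField K] [Field L] [NumberField L] [Algebra K L]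
    [IsGalois K L] : {v : Pl K | es K L v ≠ 1}.Finite := by
  have hD : differentIdeal (𝓞 K) (𝓞 L) ≠ ⊥ := differentIdeal_ne_bot
  refine Set.Finite.subset (Set.Finite.image (fun W : Pl L => W.under (𝓞 K))
    (Ideal.finite_factors (I := differentIdeal (𝓞 K) (𝓞 L)) hD)) ?_
  intro v hv
  obtain ⟨W, hW⟩ := under_exists (L := L) v
  refine ⟨W, ?_, hW⟩
  have hp := v.isPrime
  have hm := v.isMaximal
  have hWp := W.isPrime
  have hl : W.asIdeal.LiesOver v.asIdeal := (BF2_mem v W hW).2
  have h1 : es K L v = Ideal.ramificationIdx' v.asIdeal W.asIdeal := by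
    rw [Ideal.ramificationIdx'_eq_ramificationIdx v.asIdeal W.asIdeal v.ne_bot,
      ← Ideal.ramificationIdxIn_eq_ramificationIdx v.asIdeal W.asIdeal Gal(L/K)]
    rfl
  have h2 : W.asIdeal ^ es K L v ∣ v.asIdeal.map (algebraMap (𝓞 K) (𝓞 L)) := by
    rw [Ideal.dvd_iff_le, h1]
    exact Ideal.le_pow_ramificationIdx'
  have h3 := pow_sub_one_dvd_differentIdeal (𝓞 K) W.asIdeal _ v.ne_bot h2
  have h4 : es K L v - 1 ≠ 0 := by
    have h5 := es_pos (L := L) v
    have h6 : es K L v ≠ 1 := hv
    omega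
  exact (dvd_pow_self _ h4).trans h3

theorem exists_mod (K L : Type) [Field K] [NumberField K] [Field L] [NumberField L] [Algebra K L]
    [IsGalois K L] : ∃ f : Ideal (𝓞 K), f ≠ ⊥ ∧ Squarefree f ∧
      ∀ v : Pl K, f ≤ v.asIdeal ↔ es K L v ≠ 1 := by
  classical
  have hfin := ram_fin K L
  refine ⟨∏ v ∈ hfin.toFinset, v.asIdeal, ?_, ?_, fun v => ?_⟩
  · exact Finset.prod_ne_zero_iff.2 fun v _ => v.ne_bot
  · refine Finset.squarefree_prod_of_pairwise_isCoprime ?_ fun v _ => ?_
    · intro v _ w _ hvw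
      have hvm := v.isMaximal
      have hwm := w.isMaximal
      exact (Ideal.isCoprime_of_isMaximal fun h => hvw (HeightOneSpectrum.ext h)).isRelPrime
    · exact v.irreducible.squarefree
  · have hp := v.isPrime
    rw [hp.prod_le]
    constructor
    · rintro ⟨w, hw, hle⟩
      rw [Set.Finite.mem_toFinset] at hw
      have hwm := w.isMaximal
      have h1 : w = v := HeightOneSpectrum.ext (hwm.eq_of_le hp.ne_top hle)
      rw [← h1]
      exact hw
    · intro h
      exact ⟨v, by rw [Set.Finite.mem_toFinset]; exact h, le_refl _⟩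

end H55R
end

-- from Lib.H55R.X8
section

open NumberField IsDedekindDomain
open scoped Pointwise

namespace H55R

variable (K L N : Type) [Field K] [NumberField K] [Field L] [NumberField L] [Field N]
  [NumberField N] [Algebra K L] [Algebra L N] [Algebra K N] [IsScalarTower K L N]
  [IsGalois K L] [IsGalois K N]

/-! Chunk X8 (M): ramification in N = L(zeta_p). I = inertia group of a prime W of N above v in Gal(N/K) (g x - x in W for all x in 𝓞 N), of order es K N v
(Ideal.card_inertia_eq_ramificationIdxIn). Restriction maps I to the inertia group I1 of W.under (𝓞 L) in Gal(L/K), of order es K L v.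
es_N: p not in v. The map I -> I1 is injective: if g in I fixes L pointwise, g ζ = ζ^a with ζ^a - ζ in W; if ζ^a <> ζ then p is in W, hence in v; so g ζ = ζ and
g = 1 (hN). So the order of I divides the order of I1 (Subgroup.card_dvd_of_injective or card_range_dvd).
es_N': es K L v = 1: then I fixes L pointwise, and g -> a (g ζ = ζ^a, IsPrimitiveRoot.autToPow) is an injective homomorphism from I to (ZMod p)ˣ, of order
p - 1. -/

omit [NumberField K] [NumberField L] [NumberField N] [IsGalois K N] in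
theorem X8_res (σ : Gal(N/K)) (x : L) :
    algebraMap L N (AlgEquiv.restrictNormalHom L σ x) = σ (algebraMap L N x) :=
  AlgEquiv.restrictNormal_commutes σ L x

omit [NumberField K] [NumberField L] [IsGalois K L] [IsGalois K N] [Algebra K L] [Algebra L N]
  [IsScalarTower K L N] in
theorem X8_zeta (p : ℕ) (hp : p.Prime) (ζ : N) (hζ : IsPrimitiveRoot ζ p) (W : Pl N)
    (σ : Gal(N/K)) (hσ : σ ∈ W.asIdeal.inertia Gal(N/K)) (hne : σ ζ ≠ ζ) :
    (p : 𝓞 N) ∈ W.asIdeal := by
  have : NeZero p := ⟨hp.ne_zero⟩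
  have hint : IsIntegral ℤ ζ := hζ.isIntegral hp.pos
  set z : 𝓞 N := ⟨ζ, hint⟩ with hz
  have hzp : z ^ p = 1 := by
    apply RingOfIntegers.ext
    exact hζ.pow_eq_one
  have hs : ((σ • z : 𝓞 N) : N) = σ ζ := rfl
  have hsp : (σ • z) ^ p = 1 := by
    rw [← smul_pow', hzp, smul_one]
  set η : 𝓞 N := (σ • z) * z ^ (p - 1) with hη
  have hηp : η ^ p = 1 := by
    rw [hη, mul_pow, hsp, one_mul, ← pow_mul, mul_comm, pow_mul, hzp, one_pow]
  have hpp : z ^ (p - 1) * z = 1 := by
    rw [← pow_succ, Nat.sub_add_cancel hp.one_le, hzp]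
  have hη1 : η ≠ 1 := by
    intro h
    apply hne
    have h1 : σ • z = z := by
      calc σ • z = (σ • z) * (z ^ (p - 1) * z) := by rw [hpp, mul_one]
        _ = η * z := by rw [hη, mul_assoc]
        _ = z := by rw [h, one_mul]
    rw [← hs, h1]
    rfl
  have hord : orderOf η = p := by
    have : Fact p.Prime := ⟨hp⟩
    exact orderOf_eq_prime hηp hη1
  have hprim : IsPrimitiveRoot η p := by
    rw [← hord]
    exact IsPrimitiveRoot.orderOf η
  have hsum := hprim.geom_sum_eq_zero hp.one_lt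
  have hmem : η - 1 ∈ W.asIdeal := by
    have h1 : σ • z - z ∈ W.asIdeal := hσ z
    have h2 : η - 1 = z ^ (p - 1) * (σ • z - z) := by
      rw [mul_sub, hpp, hη]
      ring
    rw [h2]
    exact Ideal.mul_mem_left _ _ h1
  have hq : Ideal.Quotient.mk W.asIdeal η = 1 := by
    rw [← map_one (Ideal.Quotient.mk W.asIdeal), Ideal.Quotient.eq]
    exact hmem
  rw [← Ideal.Quotient.eq_zero_iff_mem, map_natCast]
  have h3 := congrArg (Ideal.Quotient.mk W.asIdeal) hsum
  rw [map_sum, map_zero] at h3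
  simp only [map_pow, hq, one_pow, Finset.sum_const, Finset.card_range, nsmul_eq_mul, mul_one] at h3
  exact h3

omit [IsGalois K N] in
theorem X8_inertia (W : Pl N) (σ : Gal(N/K))
    (hσ : σ ∈ W.asIdeal.inertia Gal(N/K)) :
    AlgEquiv.restrictNormalHom L σ ∈ (W.under (𝓞 L)).asIdeal.inertia Gal(L/K) := by
  intro x
  show algebraMap (𝓞 L) (𝓞 N) ((AlgEquiv.restrictNormalHom L σ) • x - x) ∈ W.asIdeal
  have h1 : algebraMap (𝓞 L) (𝓞 N) ((AlgEquiv.restrictNormalHom L σ) • x) =
      σ • algebraMap (𝓞 L) (𝓞 N) x := by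
    apply RingOfIntegers.ext
    exact X8_res K L N σ (x : L)
  rw [map_sub, h1]
  exact hσ _

theorem X8_card (W : Pl N) (v : Pl K) (h : W.under (𝓞 K) = v) :
    Nat.card (W.asIdeal.inertia Gal(N/K)) = es K N v := by
  have hp := v.isPrime
  have hW := W.isPrime
  have hl : W.asIdeal.LiesOver v.asIdeal := (BF2_mem v W h).2
  exact Ideal.card_inertia_eq_ramificationIdxIn (G := Gal(N/K)) v.asIdeal W.asIdeal

theorem X8_under (W : Pl N) (v : Pl K) (h : W.under (𝓞 K) = v) :
    (W.under (𝓞 L)).under (𝓞 K) = v := by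
  rw [← h]
  apply HeightOneSpectrum.ext
  show (W.asIdeal.under (𝓞 L)).under (𝓞 K) = W.asIdeal.under (𝓞 K)
  rw [Ideal.under_under]

theorem es_N (p : ℕ) (hp : p.Prime) (ζ : N) (hζ : IsPrimitiveRoot ζ p)
    (hN : ∀ g : Gal(N/K), g ζ = ζ → (∀ x : L, g (algebraMap L N x) = algebraMap L N x) → g = 1)
    (v : Pl K) (hv : (p : 𝓞 K) ∉ v.asIdeal) : es K N v ∣ es K L v := by
  obtain ⟨W, hW⟩ := under_exists (L := N) v
  rw [← X8_card K N W v hW, ← X8_card K L (W.under (𝓞 L)) v (X8_under K L N W v hW)]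
  let f : (W.asIdeal.inertia Gal(N/K)) →* ((W.under (𝓞 L)).asIdeal.inertia Gal(L/K)) :=
    ((AlgEquiv.restrictNormalHom L : Gal(N/K) →* Gal(L/K)).comp
      (W.asIdeal.inertia Gal(N/K)).subtype).codRestrict _
      (fun σ => X8_inertia K L N W σ.1 σ.2)
  refine Subgroup.card_dvd_of_injective f ?_
  rw [injective_iff_map_eq_one]
  rintro ⟨σ, hσ⟩ h1
  have h2 : (AlgEquiv.restrictNormalHom L σ : Gal(L/K)) = 1 := congrArg Subtype.val h1
  apply Subtype.ext
  apply hN
  · by_contra hne
    apply hv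
    have h3 := X8_zeta K N p hp ζ hζ W σ hσ hne
    have h4 : v.asIdeal = W.asIdeal.under (𝓞 K) := (congrArg HeightOneSpectrum.asIdeal hW).symm
    rw [h4, Ideal.under, Ideal.mem_comap, map_natCast]
    exact h3
  · intro x
    rw [← X8_res K L N σ x, h2]
    rfl

theorem X8_pow (p : ℕ) (hp : p.Prime) (ζ : N) (hζ : IsPrimitiveRoot ζ p) [NeZero p] (σ : Gal(N/K))
    (h : hζ.autToPow K σ = 1) : σ ζ = ζ := by
  have h1 := hζ.autToPow_spec K σ
  have : Fact (1 < p) := ⟨hp.one_lt⟩
  rw [h, Units.val_one, ZMod.val_one, pow_one] at h1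
  exact h1.symm

theorem es_N' (p : ℕ) (hp : p.Prime) (ζ : N) (hζ : IsPrimitiveRoot ζ p)
    (hN : ∀ g : Gal(N/K), g ζ = ζ → (∀ x : L, g (algebraMap L N x) = algebraMap L N x) → g = 1)
    (v : Pl K) (hv : es K L v = 1) : es K N v ∣ p - 1 := by
  have : NeZero p := ⟨hp.ne_zero⟩
  have : Fact p.Prime := ⟨hp⟩
  obtain ⟨W, hW⟩ := under_exists (L := N) v
  have hc := X8_card K L (W.under (𝓞 L)) v (X8_under K L N W v hW)
  rw [hv] at hc
  have hu : Nat.card (ZMod p)ˣ = p - 1 := by
    rw [Nat.card_eq_fintype_card, ZMod.card_units]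
  rw [← X8_card K N W v hW, ← hu]
  let f : (W.asIdeal.inertia Gal(N/K)) →* (ZMod p)ˣ :=
    (hζ.autToPow K).comp (W.asIdeal.inertia Gal(N/K)).subtype
  refine Subgroup.card_dvd_of_injective f ?_
  rw [injective_iff_map_eq_one]
  rintro ⟨σ, hσ⟩ h1
  have h2 : hζ.autToPow K σ = 1 := h1
  have h3 : (AlgEquiv.restrictNormalHom L σ : Gal(L/K)) = 1 := by
    have h4 := X8_inertia K L N W σ hσ
    have h5 : Subsingleton ((W.under (𝓞 L)).asIdeal.inertia Gal(L/K)) :=
      (Nat.card_eq_one_iff_unique.1 hc).1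
    exact congrArg Subtype.val (h5.elim (⟨_, h4⟩ : ((W.under (𝓞 L)).asIdeal.inertia Gal(L/K))) 1)
  apply Subtype.ext
  apply hN
  · exact X8_pow K N p hp ζ hζ σ h2
  · intro x
    rw [← X8_res K L N σ x, h3]
    rfl

/-- The kernel of the restriction to L is cyclic (it embeds in (ZMod p)ˣ) of index [L : K]. -/
theorem ker_cyclic (p : ℕ) (hp : p.Prime) (ζ : N) (hζ : IsPrimitiveRoot ζ p)
    (hN : ∀ g : Gal(N/K), g ζ = ζ → (∀ x : L, g (algebraMap L N x) = algebraMap L N x) → g = 1) :
    IsCyclic (AlgEquiv.restrictNormalHom L : Gal(N/K) →* Gal(L/K)).ker ∧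
      (AlgEquiv.restrictNormalHom L : Gal(N/K) →* Gal(L/K)).ker.index = Module.finrank K L := by
  have : NeZero p := ⟨hp.ne_zero⟩
  have : Fact p.Prime := ⟨hp⟩
  constructor
  · refine isCyclic_of_injective ((hζ.autToPow K).comp
      (AlgEquiv.restrictNormalHom L : Gal(N/K) →* Gal(L/K)).ker.subtype) ?_
    rw [injective_iff_map_eq_one]
    rintro ⟨σ, hσ⟩ h1
    have h2 : hζ.autToPow K σ = 1 := h1
    apply Subtype.ext
    apply hN
    · exact X8_pow K N p hp ζ hζ σ h2
    · intro x
      rw [← X8_res K L N σ x, MonoidHom.mem_ker.1 hσ]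
      rfl
  · rw [Subgroup.index_ker, MonoidHom.range_eq_top.2
      (AlgEquiv.restrictNormalHom_surjective (F := K) (K₁ := L) N), Subgroup.card_top,
      IsGalois.card_aut_eq_finrank]

end H55R
end

-- from Lib.H55R.BF3
section

open NumberField IsDedekindDomain
open scoped Pointwise

namespace H55R

variable {K L : Type} [Field K] [NumberField K] [Field L] [NumberField L] [Algebra K L] [IsGalois K L]

/-! Chunk BF3 (M): the order of a norm. In L: N y = product of the σ y over the Galois group (Algebra.norm_eq_prod_automorphisms). For a prime W above v: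
e ord v (N y) = ord W (N y) (ord_map) = sum over σ of ord W (σ y) = sum over σ of ord (σ^-1 W) y (ord_smul), and σ^-1 W runs
through the primes above v, each of them e f times (smulP_trans, card_stab: fibres of the orbit map). Divide by e. -/

omit [IsGalois K L] in
theorem BF3_prod {ι : Type} (W : Pl L) (s : Finset ι) (f : ι → Lˣ) :
    ord W (∏ i ∈ s, f i) = ∑ i ∈ s, ord W (f i) := by
  classical
  induction s using Finset.induction_on with
  | empty => rw [Finset.prod_empty, Finset.sum_empty, ord_one]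
  | insert a s ha ih => rw [Finset.prod_insert ha, Finset.sum_insert ha, ord_mul, ih]

open Classical in
theorem BF3_fib (v : Pl K) (W₀ W : Pl L) (h₀ : W₀.under (𝓞 K) = v) (h : W.under (𝓞 K) = v)
    [Fintype Gal(L/K)] :
    (Finset.univ.filter fun σ : Gal(L/K) => smulP σ W₀ = W).card = es K L v * fs K L v := by
  obtain ⟨τ, hτ⟩ := smulP_trans W₀ W (h₀.trans h.symm)
  rw [← card_stab W₀ v h₀, ← Fintype.card_subtype, ← Nat.card_eq_fintype_card]
  apply Nat.card_congr
  refine Equiv.subtypeEquiv (Equiv.mulLeft τ⁻¹) fun σ => ?_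
  rw [Equiv.coe_mulLeft, smulP_mul]
  constructor
  · intro h1
    rw [h1, ← hτ, ← smulP_mul, inv_mul_cancel, smulP_one]
  · intro h1
    have h2 := congrArg (smulP τ) h1
    rwa [← smulP_mul, mul_inv_cancel, smulP_one, hτ] at h2

theorem ord_norm (v : Pl K) (T : Finset (Pl L)) (hT : ∀ W, W ∈ T ↔ W.under (𝓞 K) = v) (y : Lˣ) :
    ord v (nrm K L y) = fs K L v * ∑ W ∈ T, ord W y := by
  classical
  obtain ⟨W₀, h₀⟩ := under_exists (L := L) v
  have h1 := ord_map W₀ v h₀ (nrm K L y)
  have h2 : Units.map (algebraMap K L : K →* L) (nrm K L y) =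
      ∏ σ : Gal(L/K), Units.map ((σ : L ≃ₐ[K] L) : L →* L) y := by
    ext
    rw [Units.coe_prod]
    exact Algebra.norm_eq_prod_automorphisms K (y : L)
  rw [h2, BF3_prod] at h1
  have h3 : ∀ σ : Gal(L/K), ord W₀ (Units.map ((σ : L ≃ₐ[K] L) : L →* L) y) =
      ord (smulP σ⁻¹ W₀) y := by
    intro σ
    have h4 := ord_smul σ (smulP σ⁻¹ W₀) y
    rwa [← smulP_mul, mul_inv_cancel, smulP_one] at h4
  rw [Finset.sum_congr rfl fun σ _ => h3 σ] at h1
  have h5 : ∑ σ : Gal(L/K), ord (smulP σ⁻¹ W₀) y = ∑ σ : Gal(L/K), ord (smulP σ W₀) y :=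
    Equiv.sum_comp (Equiv.inv Gal(L/K)) fun σ => ord (smulP σ W₀) y
  have h6 : ∑ σ : Gal(L/K), ord (smulP σ W₀) y = ∑ W ∈ T, ((es K L v * fs K L v : ℕ) : ℤ) * ord W y := by
    rw [← Finset.sum_fiberwise_of_maps_to (s := Finset.univ) (t := T)
      (g := fun σ : Gal(L/K) => smulP σ W₀)]
    · refine Finset.sum_congr rfl fun W hW => ?_
      rw [← BF3_fib v W₀ W h₀ ((hT W).1 hW), ← nsmul_eq_mul, ← Finset.sum_const]
      refine Finset.sum_congr rfl fun σ hσ => ?_
      rw [(Finset.mem_filter.1 hσ).2]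
    · intro σ _
      rw [hT, under_smulP]
      exact h₀
  rw [h5, h6, ← Finset.mul_sum] at h1
  have h7 : (es K L v : ℤ) ≠ 0 := by
    have := es_pos (L := L) v
    exact_mod_cast this.ne'
  apply mul_left_cancel₀ h7
  rw [← h1]
  push_cast
  ring

end H55R
end

-- from Lib.H55R.HA5
section

open NumberField IsDedekindDomain

namespace H55R

/-! Chunk HA5 (S/M): units. unit_place: NumberField.Units.dirichletUnitTheorem.exists_unit (a unit y with log V y < 0 for all
V <> V₀). prime_unit: let h be the class number; W^h = (y) (the class of W has finite order: pow_card_eq_one' in the class group,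
ClassGroup.mk0_eq_one_iff). ord W' y is the multiplicity of W' in (y) (valuationOfNeZero_eq, HeightOneSpectrum.valuation_of_algebraMap,
intValuation and the count of W' in the factorisation of (y) = W^h): h for W' = W and 0 otherwise. -/

theorem HA5_ord {K : Type} [Field K] [NumberField K] (v : Pl K) (u : Kˣ) (x : 𝓞 K) (hx : x ≠ 0)
    (hu : (u : K) = algebraMap (𝓞 K) K x) :
    ord v u = ((Associates.mk v.asIdeal).count (Associates.mk (Ideal.span {x} : Ideal (𝓞 K))).factors : ℤ) := by
  have h1 := v.valuationOfNeZero_eq (K := K) u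
  rw [hu, HeightOneSpectrum.valuation_of_algebraMap, HeightOneSpectrum.intValuation_if_neg v hx] at h1
  have h2 : v.valuationOfNeZero u = Multiplicative.ofAdd
      (-(Associates.mk v.asIdeal).count (Associates.mk (Ideal.span {x} : Ideal (𝓞 K))).factors : ℤ) := by
    rw [← WithZero.coe_inj]
    exact h1
  unfold ord
  rw [h2, toAdd_ofAdd, neg_neg]

theorem unit_place (L : Type) [Field L] [NumberField L] (V₀ : InfinitePlace L) :
    ∃ y : (𝓞 L)ˣ, ∀ V : InfinitePlace L, V ≠ V₀ → V ((y : 𝓞 L) : L) < 1 := by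
  obtain ⟨y, hy⟩ := NumberField.Units.dirichletUnitTheorem.exists_unit (K := L) V₀
  refine ⟨y, fun V hV => ?_⟩
  have h1 := hy V hV
  have h0 : 0 < V ((y : 𝓞 L) : L) := by
    rw [InfinitePlace.pos_iff]
    exact NumberField.Units.coe_ne_zero y
  by_contra h
  push_neg at h
  exact absurd (Real.log_nonneg h) (not_le.2 h1)

theorem prime_unit (L : Type) [Field L] [NumberField L] (W : Pl L) :
    ∃ y : Lˣ, 0 < ord W y ∧ ∀ W' : Pl L, W' ≠ W → ord W' y = 0 := by
  classical
  set h : ℕ := Nat.card (ClassGroup (𝓞 L)) with hh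
  have hpos : 0 < h := Nat.card_pos
  have hW : (W.asIdeal) ∈ nonZeroDivisors (Ideal (𝓞 L)) :=
    mem_nonZeroDivisors_iff_ne_zero.2 W.ne_bot
  have h1 : (ClassGroup.mk0 (⟨W.asIdeal, hW⟩ : nonZeroDivisors (Ideal (𝓞 L)))) ^ h = 1 :=
    pow_card_eq_one'
  rw [← map_pow, ClassGroup.mk0_eq_one_iff] at h1
  obtain ⟨y, hy⟩ := h1
  have hy' : W.asIdeal ^ h = Ideal.span {y} := hy
  have hWh : W.asIdeal ^ h ≠ 0 := pow_ne_zero _ W.ne_bot
  have hy0 : y ≠ 0 := by
    rintro rfl
    apply hWh
    rw [hy']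
    exact Ideal.span_singleton_eq_bot.2 rfl
  have hyL : algebraMap (𝓞 L) L y ≠ 0 := by
    rw [Ne, FaithfulSMul.algebraMap_eq_zero_iff]
    exact hy0
  have hmk : Associates.mk (Ideal.span {y} : Ideal (𝓞 L)) = (Associates.mk W.asIdeal) ^ h := by
    rw [← hy', Associates.mk_pow]
  refine ⟨Units.mk0 _ hyL, ?_, fun W' hW' => ?_⟩
  · rw [HA5_ord W _ y hy0 rfl, hmk,
      Associates.count_pow (Associates.mk_ne_zero.2 W.ne_bot) W.associates_irreducible,
      Associates.count_self W.associates_irreducible, mul_one]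
    exact_mod_cast hpos
  · rw [HA5_ord W' _ y hy0 rfl, hmk,
      Associates.count_pow (Associates.mk_ne_zero.2 W.ne_bot) W'.associates_irreducible,
      Associates.count_eq_zero_of_ne W'.associates_irreducible W.associates_irreducible, mul_zero,
      Nat.cast_zero]
    intro he
    apply hW'
    apply HeightOneSpectrum.ext
    rwa [Associates.mk_eq_mk_iff_associated, associated_iff_eq] at he

end H55R
end

-- from Lib.H55R.HB1
section

open NumberField IsDedekindDomain

namespace H55R

variable {K : Type} [Field K] [NumberField K]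

/-! Chunk HB1 (M): the residue map. Choose p in 𝓞 K of order exactly 1 at v (an element of v not in v^2), as an element of Kˣ. Every x in Kˣ of order 0 at
v is a/b with a, b in 𝓞 K, not in v: (x) = I/J with coprime integral ideals I, J, J not contained in v; choose b in J, b not in v; then
a = x b is integral (its order is >= 0 everywhere) and has order 0 at v. (Or: x is in the localisation at v, use
HeightOneSpectrum.valuation_le_one_iff / IsLocalization.AtPrime and IsLocalization.mk'_surjective.) Put res x = a/b mod v (well defined: a b' = a' b), multiplicative on the elements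
of order 0, and resv x = res (x p^(- ord v x)). -/

theorem HB1_val (v : Pl K) (x : Kˣ) : v.valuation K (x : K) =
    ((Multiplicative.ofAdd (-ord v x) : Multiplicative ℤ) : WithZero (Multiplicative ℤ)) := by
  rw [← HeightOneSpectrum.valuationOfNeZero_eq]
  unfold ord
  rw [neg_neg]
  rfl

theorem HB1_ord_zero (v : Pl K) (x : Kˣ) : ord v x = 0 ↔ v.valuation K (x : K) = 1 := by
  rw [HB1_val]
  constructor
  · intro h
    rw [h]
    rfl
  · intro h
    have h1 : (Multiplicative.ofAdd (-ord v x) : Multiplicative ℤ) = 1 := by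
      exact WithZero.coe_injective h
    have h2 : -ord v x = 0 := by
      have := congrArg Multiplicative.toAdd h1
      simpa using this
    linarith

theorem exists_frac (v : Pl K) (x : Kˣ) (hx : ord v x = 0) : ∃ a b : 𝓞 K, a ∉ v.asIdeal ∧
    b ∉ v.asIdeal ∧ (x : K) = a / b := by
  have h1 := (HB1_ord_zero v x).1 hx
  obtain ⟨n, d, h⟩ := HeightOneSpectrum.exists_primeCompl_mul_eq_of_integer v (x : K) h1.le
  have hd : (d : 𝓞 K) ∉ v.asIdeal := d.2
  have hd1 : v.valuation K (algebraMap (𝓞 K) K (d : 𝓞 K)) = 1 :=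
    (HeightOneSpectrum.valuation_eq_one_iff_notMem (K := K) v).2 hd
  have hn1 : v.valuation K (algebraMap (𝓞 K) K n) = 1 := by
    rw [← h, map_mul, h1, hd1, mul_one]
  have hn : n ∉ v.asIdeal := (HeightOneSpectrum.valuation_eq_one_iff_notMem (K := K) v).1 hn1
  refine ⟨n, d, hn, hd, ?_⟩
  have hd0 : (algebraMap (𝓞 K) K (d : 𝓞 K)) ≠ 0 := by
    intro h0
    rw [h0, map_zero] at hd1
    exact zero_ne_one hd1
  exact (eq_div_iff hd0).2 h

theorem HB1_unit (v : Pl K) (a : 𝓞 K) (ha : a ∉ v.asIdeal) :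
    IsUnit (Ideal.Quotient.mk v.asIdeal a) := by
  have hmax : v.asIdeal.IsMaximal := v.isMaximal
  obtain ⟨y, i, hi, h⟩ := hmax.exists_inv ha
  apply IsUnit.of_mul_eq_one (Ideal.Quotient.mk v.asIdeal y)
  rw [← map_mul, mul_comm, ← map_one (Ideal.Quotient.mk v.asIdeal), Ideal.Quotient.eq]
  have h2 : y * a - 1 = -i := by
    rw [← h]
    ring
  rw [h2]
  exact neg_mem hi

theorem HB1_ex (v : Pl K) (x : Kˣ) (hx : ord v x = 0) : ∃ y : (𝓞 K ⧸ v.asIdeal)ˣ,
    ∀ a b : 𝓞 K, a ∉ v.asIdeal → b ∉ v.asIdeal → (x : K) = a / b →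
      (y : 𝓞 K ⧸ v.asIdeal) * Ideal.Quotient.mk v.asIdeal b = Ideal.Quotient.mk v.asIdeal a := by
  obtain ⟨a₀, b₀, ha₀, hb₀, hx₀⟩ := exists_frac v x hx
  obtain ⟨ua, hua⟩ := HB1_unit v a₀ ha₀
  obtain ⟨ub, hub⟩ := HB1_unit v b₀ hb₀
  refine ⟨ua * ub⁻¹, ?_⟩
  intro a b ha hb hab
  have hb0 : (b : K) ≠ 0 := by
    intro h0
    apply hb
    have : b = 0 := by exact_mod_cast h0
    rw [this]
    exact zero_mem _
  have hb₀0 : (b₀ : K) ≠ 0 := by
    intro h0
    apply hb₀
    have : b₀ = 0 := by exact_mod_cast h0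
    rw [this]
    exact zero_mem _
  have h1 : a₀ * b = a * b₀ := by
    have h2 : (a₀ : K) / b₀ = a / b := hx₀.symm.trans hab
    rw [div_eq_div_iff hb₀0 hb0] at h2
    exact_mod_cast h2
  have h3 : (ua : 𝓞 K ⧸ v.asIdeal) * Ideal.Quotient.mk v.asIdeal b =
      Ideal.Quotient.mk v.asIdeal a * ub := by
    rw [hua, hub, ← map_mul, h1, map_mul]
  rw [Units.val_mul, mul_assoc, mul_comm ((ub⁻¹ : (𝓞 K ⧸ v.asIdeal)ˣ) : 𝓞 K ⧸ v.asIdeal),
    ← mul_assoc, h3, mul_assoc, Units.mul_inv, mul_one]

theorem HB1_pi (v : Pl K) : ∃ p : Kˣ, ord v p = 1 := by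
  obtain ⟨p, hp⟩ := HeightOneSpectrum.valuation_exists_uniformizer K v
  have hp0 : p ≠ 0 := by
    rintro rfl
    rw [map_zero] at hp
    exact WithZero.zero_ne_coe hp
  refine ⟨Units.mk0 p hp0, ?_⟩
  have h1 := HB1_val v (Units.mk0 p hp0)
  rw [Units.val_mk0, hp] at h1
  have h2 := WithZero.coe_injective h1
  have h3 := congrArg Multiplicative.toAdd h2
  have h4 : (-1 : ℤ) = -ord v (Units.mk0 p hp0) := h3
  linarith

theorem exists_res (v : Pl K) : ∃ r : Kˣ →* (𝓞 K ⧸ v.asIdeal)ˣ, ∀ (a : 𝓞 K) (x : Kˣ),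
    (x : K) = a → a ∉ v.asIdeal → ((r x : (𝓞 K ⧸ v.asIdeal)ˣ) : 𝓞 K ⧸ v.asIdeal) =
      Ideal.Quotient.mk v.asIdeal a := by
  obtain ⟨p, hp⟩ := HB1_pi v
  have hex := HB1_ex v
  choose! f hf using hex
  have hmul : ∀ x y : Kˣ, ord v x = 0 → ord v y = 0 → f (x * y) = f x * f y := by
    intro x y hx hy
    obtain ⟨a, b, ha, hb, hab⟩ := exists_frac v x hx
    obtain ⟨c, d, hc, hd, hcd⟩ := exists_frac v y hy
    have hac : a * c ∉ v.asIdeal := fun h => (v.isPrime.mem_or_mem h).elim ha hc
    have hbd : b * d ∉ v.asIdeal := fun h => (v.isPrime.mem_or_mem h).elim hb hd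
    have h1 := hf x hx a b ha hb hab
    have h2 := hf y hy c d hc hd hcd
    have h3 := hf (x * y) (by rw [ord_mul, hx, hy, add_zero]) (a * c) (b * d) hac hbd (by
      rw [Units.val_mul, hab, hcd]
      push_cast
      rw [div_mul_div_comm])
    obtain ⟨u, hu⟩ := HB1_unit v (b * d) hbd
    apply Units.ext
    have h4 : (f (x * y) : 𝓞 K ⧸ v.asIdeal) * u = (f x * f y : (𝓞 K ⧸ v.asIdeal)ˣ) * u := by
      rw [hu, h3, map_mul, map_mul, ← h1, ← h2, Units.val_mul]
      exact mul_mul_mul_comm _ _ _ _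
    exact (Units.mul_left_inj u).1 h4
  have hg : ∀ x : Kˣ, ord v (x * p ^ (-ord v x)) = 0 := by
    intro x
    rw [ord_mul, ord_zpow, hp]
    ring
  refine ⟨MonoidHom.mk' (fun x => f (x * p ^ (-ord v x))) ?_, ?_⟩
  · intro x y
    rw [← hmul _ _ (hg x) (hg y)]
    congr 1
    rw [ord_mul, neg_add, zpow_add]
    exact mul_mul_mul_comm _ _ _ _
  · intro a x hx ha
    have h0 : ord v x = 0 := by
      rw [HB1_ord_zero, hx]
      exact (HeightOneSpectrum.valuation_eq_one_iff_notMem (K := K) v).2 ha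
    have h1 : (1 : 𝓞 K) ∉ v.asIdeal := fun h => v.isPrime.ne_top ((Ideal.eq_top_iff_one _).2 h)
    have h2 := hf x h0 a 1 ha h1 (by rw [hx]; simp)
    rw [map_one, mul_one] at h2
    show ((f (x * p ^ (-ord v x)) : (𝓞 K ⧸ v.asIdeal)ˣ) : 𝓞 K ⧸ v.asIdeal) = _
    rw [h0, neg_zero, zpow_zero, mul_one]
    exact h2

/-- The residue map at v (meaningful on the elements of order 0). -/
noncomputable def resv (v : Pl K) : Kˣ →* (𝓞 K ⧸ v.asIdeal)ˣ := (exists_res v).choose

theorem resv_apply (v : Pl K) (a : 𝓞 K) (x : Kˣ) (h : (x : K) = a) (ha : a ∉ v.asIdeal) :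
    ((resv v x : (𝓞 K ⧸ v.asIdeal)ˣ) : 𝓞 K ⧸ v.asIdeal) = Ideal.Quotient.mk v.asIdeal a :=
  (exists_res v).choose_spec a x h ha

end H55R
end

-- from Lib.H55R.HCD
section

/-! # H55R: definitions for the construction of characters -/

open NumberField IsDedekindDomain

namespace H55R

variable {K : Type} [Field K] [NumberField K]

/-- Local data: characters of the residue fields at R and values at S. -/
abbrev XX (R S : Finset (Pl K)) : Type :=
  ((w : R) → ((𝓞 K ⧸ w.1.asIdeal)ˣ →* ℂˣ)) × (S → ℂˣ)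

/-- The character of Kˣ defined by local data. -/
noncomputable def Psi (R S : Finset (Pl K)) : XX R S →* (Kˣ →* ℂˣ) where
  toFun q :=
    { toFun := fun x => (∏ w : R, q.1 w (resv w.1 x)) * ∏ s : S, q.2 s ^ ord s.1 x
      map_one' := by simp [ord_one]
      map_mul' := fun x y => by
        simp only [map_mul, ord_mul, zpow_add, Finset.prod_mul_distrib]
        exact mul_mul_mul_comm _ _ _ _ }
  map_one' := by
    ext x
    simp
  map_mul' q r := by
    apply MonoidHom.ext
    intro x
    simp only [MonoidHom.coe_mk, OneHom.coe_mk, Prod.fst_mul, Prod.snd_mul, Pi.mul_apply,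
      MonoidHom.mul_apply, mul_zpow, Finset.prod_mul_distrib]
    exact mul_mul_mul_comm _ _ _ _

theorem Psi_apply (R S : Finset (Pl K)) (q : XX R S) (x : Kˣ) :
    Psi R S q x = (∏ w : R, q.1 w (resv w.1 x)) * ∏ s : S, q.2 s ^ ord s.1 x := rfl

open Classical in
/-- The character defined by local data; xs v generates v up to primes in S. -/
noncomputable def phi (f : Ideal (𝓞 K)) (R S : Finset (Pl K)) (xs : Pl K → Kˣ) :
    XX R S →* (Pl K → ℂˣ) where
  toFun q := fun v => if f ≤ v.asIdeal then 1 else if h : v ∈ S then q.2 ⟨v, h⟩ else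
    (Psi R S q (xs v))⁻¹
  map_one' := by
    funext v
    by_cases h : f ≤ v.asIdeal
    · rw [if_pos h, Pi.one_apply]
    · rw [if_neg h]
      by_cases h' : v ∈ S
      · rw [dif_pos h']
        rfl
      · rw [dif_neg h', map_one, MonoidHom.one_apply, inv_one, Pi.one_apply]
  map_mul' q r := by
    funext v
    rw [Pi.mul_apply]
    by_cases h : f ≤ v.asIdeal
    · rw [if_pos h, if_pos h, if_pos h, mul_one]
    · rw [if_neg h, if_neg h, if_neg h]
      by_cases h' : v ∈ S
      · rw [dif_pos h', dif_pos h', dif_pos h']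
        rfl
      · rw [dif_neg h', dif_neg h', dif_neg h', map_mul, MonoidHom.mul_apply, mul_inv]

theorem phi_of_dvd (f : Ideal (𝓞 K)) (R S : Finset (Pl K)) (xs : Pl K → Kˣ) (q : XX R S) (v : Pl K)
    (h : f ≤ v.asIdeal) : phi f R S xs q v = 1 := if_pos h

open Classical in
theorem phi_of_mem (f : Ideal (𝓞 K)) (R S : Finset (Pl K)) (xs : Pl K → Kˣ) (q : XX R S) (v : Pl K)
    (h : ¬ f ≤ v.asIdeal) (h' : v ∈ S) : phi f R S xs q v = q.2 ⟨v, h'⟩ := by
  have h1 : phi f R S xs q v = if f ≤ v.asIdeal then 1 else if h : v ∈ S then q.2 ⟨v, h⟩ else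
    (Psi R S q (xs v))⁻¹ := rfl
  rw [h1, if_neg h, dif_pos h']

open Classical in
theorem phi_of_not_mem (f : Ideal (𝓞 K)) (R S : Finset (Pl K)) (xs : Pl K → Kˣ) (q : XX R S)
    (v : Pl K) (h : ¬ f ≤ v.asIdeal) (h' : v ∉ S) :
    phi f R S xs q v = (Psi R S q (xs v))⁻¹ := by
  have h1 : phi f R S xs q v = if f ≤ v.asIdeal then 1 else if h : v ∈ S then q.2 ⟨v, h⟩ else
    (Psi R S q (xs v))⁻¹ := rfl
  rw [h1, if_neg h, dif_neg h']

/-- Local data of the right orders. -/
def X0 (K L : Type) [Field K] [NumberField K] [Field L] [NumberField L] [Algebra K L]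
    (R S : Finset (Pl K)) : Subgroup (XX R S) where
  carrier := {q | (∀ (w : R) (x : (𝓞 K ⧸ w.1.asIdeal)ˣ), q.1 w x ^ es K L w.1 = 1) ∧
    ∀ s : S, q.2 s ^ fs K L s.1 = 1}
  mul_mem' := by
    rintro q r ⟨h1, h2⟩ ⟨h3, h4⟩
    refine ⟨fun w x => ?_, fun s => ?_⟩
    · have h : (q * r).1 w x = q.1 w x * r.1 w x := rfl
      rw [h, mul_pow, h1 w x, h3 w x, mul_one]
    · have h : (q * r).2 s = q.2 s * r.2 s := rfl
      rw [h, mul_pow, h2 s, h4 s, mul_one]
  one_mem' := ⟨fun w x => one_pow _, fun s => one_pow _⟩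
  inv_mem' := by
    rintro q ⟨h1, h2⟩
    refine ⟨fun w x => ?_, fun s => ?_⟩
    · have h : (q⁻¹).1 w x = (q.1 w x)⁻¹ := rfl
      rw [h, inv_pow, h1 w x, inv_one]
    · have h : (q⁻¹).2 s = (q.2 s)⁻¹ := rfl
      rw [h, inv_pow, h2 s, inv_one]

/-- xs v generates v up to primes in S. -/
def GenX (S : Finset (Pl K)) (xs : Pl K → Kˣ) : Prop :=
  ∀ v : Pl K, (v ∉ S → ord v (xs v) = 1) ∧ ∀ u : Pl K, u ∉ S → u ≠ v → ord u (xs v) = 0

end H55R
end
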