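import Mathlib
import Pool.Agent.Lib.H1M.PP2.D_H55B_Defs
import Pool.Agent.Lib.H1M.PP2.D_H55P_Sel
import Pool.Agent.Lib.H1M.PP2.M007
import Pool.Agent.Lib.H1M.PP2.M010
import Pool.Agent.Lib.H1M.PP2.M016
import Pool.Agent.Lib.H1M.PP2.M020
import Pool.Agent.Lib.H1M.PP2.M021

/-! Merged copies (to shorten the build) of Lib.H16C.D0, Lib.H16C.D1, Lib.H16C.D2, Lib.H16C.D3, Lib.H16C.FR2, Lib.H35T.Defs, Lib.H35T.Defs2, Lib.H35T.L5, Lib.H35T.L3, Lib.H55P.S1, Lib.H35T.E1, Lib.H55P.T11, Lib.H55R.HA1, Lib.H55R.HC1, Lib.H55R.HA2, Lib.H55R.HB2, Lib.H55R.HC2, Lib.H55R.HC3, Lib.H55R.HC6. -/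

-- from Lib.H16C.D0
section

/-!
# D0 (S): the values of the division polynomials

`psi W x y n = normEDS (2y) (Ψ₃(x)) (preΨ₄(x)) n`, `W` short, `(x, y)` on the curve.
`psi_sq`: by definition (Mathlib) `normEDS b c d n = preNormEDS (b^4) c d n * (if Even n then b else 1)`
and `W.preΨ n = preNormEDS (Ψ₂Sq ^ 2) Ψ₃ preΨ₄ n`, `W.ΨSq n = preΨ n ^ 2 * (if Even n then Ψ₂Sq else 1)`;
evaluation at `x` is a ring homomorphism (`map_preNormEDS`) and
`Ψ₂Sq(x) = 4 x³ + b₂ x² + 2 b₄ x + b₆ = 4 (x³ + a₄ x + a₆) = (2y)²`.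
`psi_phi`: `W.Φ n = X * ΨSq n - preΨ (n+1) * preΨ (n-1) * (if Even n then 1 else Ψ₂Sq)`; if `n` is even
then `n ± 1` are odd and `psi (n±1) = preΨ (n±1)(x)`; if `n` is odd then
`psi (n+1) psi (n-1) = preΨ(n+1)(x) preΨ(n-1)(x) (2y)²`.
`psi_even`, `psi_odd` are `normEDS_even`, `normEDS_odd`; `psi_three`, `psi_four`: unfold `Ψ₃`,
`preΨ₄` (`b₂ = 0, b₄ = 2 a₄, b₆ = 4 a₆, b₈ = - a₄²`).
-/

open WeierstrassCurve Polynomial

namespace H16C

variable {F : Type*} [Field F] (W : WeierstrassCurve.Affine F) [W.IsShortNF] {x y : F}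

theorem D0_pre (h : y ^ 2 = x ^ 3 + W.a₄ * x + W.a₆) (n : ℤ) :
    preNormEDS ((2 * y) ^ 4) (W.Ψ₃.eval x) (W.preΨ₄.eval x) n = (W.preΨ n).eval x := by
  have h2 : (W.Ψ₂Sq).eval x = (2 * y) ^ 2 := by
    have e : (2 * y) ^ 2 = 4 * y ^ 2 := by ring
    rw [e, h]
    simp only [Ψ₂Sq, b₂, b₄, b₆, IsShortNF.a₁, IsShortNF.a₂, IsShortNF.a₃, eval_add, eval_mul,
      eval_pow, eval_X, eval_C]
    ring
  rw [WeierstrassCurve.preΨ, ← coe_evalRingHom, map_preNormEDS, coe_evalRingHom, eval_pow, h2]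
  congr 1
  ring

theorem D0_two (h : y ^ 2 = x ^ 3 + W.a₄ * x + W.a₆) :
    (W.Ψ₂Sq).eval x = (2 * y) ^ 2 := by
  have e : (2 * y) ^ 2 = 4 * y ^ 2 := by ring
  rw [e, h]
  simp only [Ψ₂Sq, b₂, b₄, b₆, IsShortNF.a₁, IsShortNF.a₂, IsShortNF.a₃, eval_add, eval_mul,
    eval_pow, eval_X, eval_C]
  ring

theorem psi_sq (h : y ^ 2 = x ^ 3 + W.a₄ * x + W.a₆) (n : ℤ) :
    psi W x y n ^ 2 = (W.ΨSq n).eval x := by
  rw [psi, normEDS, D0_pre W h, ΨSq]
  split_ifs with hn
  · rw [eval_mul, eval_pow, D0_two W h]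
    ring
  · rw [eval_mul, eval_pow]
    simp

theorem psi_phi (h : y ^ 2 = x ^ 3 + W.a₄ * x + W.a₆) (n : ℤ) :
    x * psi W x y n ^ 2 - psi W x y (n + 1) * psi W x y (n - 1) = (W.Φ n).eval x := by
  rw [psi_sq W h, WeierstrassCurve.Φ, eval_sub, eval_mul, eval_X, eval_mul, eval_mul]
  congr 1
  rw [psi, psi, normEDS, normEDS, D0_pre W h, D0_pre W h]
  by_cases hn : Even n
  · have h1 : ¬ Even (n + 1) := by
      rw [Int.even_add_one]
      exact not_not.mpr hn
    have h3 : ¬ Even (n - 1) := by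
      rw [Int.even_sub_one]
      exact not_not.mpr hn
    rw [if_neg h1, if_neg h3, if_pos hn]
    simp
  · have h1 : Even (n + 1) := by
      rw [Int.even_add_one]
      exact hn
    have h3 : Even (n - 1) := by
      rw [Int.even_sub_one]
      exact hn
    rw [if_pos h1, if_pos h3, if_neg hn, D0_two W h]
    ring

omit [W.IsShortNF] in
theorem psi_zero : psi W x y 0 = 0 := by
  simp [psi]

omit [W.IsShortNF] in
theorem psi_one : psi W x y 1 = 1 := by
  simp [psi]

omit [W.IsShortNF] in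
theorem psi_two : psi W x y 2 = 2 * y := by
  simp [psi]

theorem psi_three : psi W x y 3 = 3 * x ^ 4 + 6 * W.a₄ * x ^ 2 + 12 * W.a₆ * x - W.a₄ ^ 2 := by
  rw [psi, normEDS_three]
  simp only [WeierstrassCurve.Ψ₃, b₂, b₄, b₆, b₈, IsShortNF.a₁, IsShortNF.a₂, IsShortNF.a₃, eval_add, eval_mul,
    eval_pow, eval_X, eval_C]
  simp
  ring

theorem psi_four : psi W x y 4 = 4 * y * (x ^ 6 + 5 * W.a₄ * x ^ 4 + 20 * W.a₆ * x ^ 3 -
    5 * W.a₄ ^ 2 * x ^ 2 - 4 * W.a₄ * W.a₆ * x - 8 * W.a₆ ^ 2 - W.a₄ ^ 3) := by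
  rw [psi, normEDS_four]
  simp only [WeierstrassCurve.preΨ₄, b₂, b₄, b₆, b₈, IsShortNF.a₁, IsShortNF.a₂, IsShortNF.a₃, eval_add, eval_mul,
    eval_pow, eval_X, eval_C]
  simp
  ring

omit [W.IsShortNF] in
theorem psi_even (m : ℤ) : psi W x y (2 * m) * (2 * y) =
    psi W x y (m - 1) ^ 2 * psi W x y m * psi W x y (m + 2) -
      psi W x y (m - 2) * psi W x y m * psi W x y (m + 1) ^ 2 :=
  normEDS_even _ _ _ m

omit [W.IsShortNF] in
theorem psi_odd (m : ℤ) : psi W x y (2 * m + 1) =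
    psi W x y (m + 2) * psi W x y m ^ 3 - psi W x y (m - 1) * psi W x y (m + 1) ^ 3 :=
  normEDS_odd _ _ _ m

end H16C
end

-- from Lib.H16C.D1
section

/-!
# D1 (S/M): the coordinates of `P ± Q` and of `2P`, elementary facts on points

Short curve: `negY x y = - y`, the addition formula: for `x₁ ≠ x₂`, `λ = (y₁ - y₂)/(x₁ - x₂)`,
`x(P + Q) = λ² - x₁ - x₂` (Mathlib: `Point.add_some`, `slope_of_X_ne`, `addX`, `addY`).  With
`y_i² = x_i³ + a₄ x_i + a₆`:
`(x₁-x₂)² (x(P+Q) + x(P-Q)) = (y₁-y₂)² + (y₁+y₂)² - 2(x₁+x₂)(x₁-x₂)² = 2((x₁+x₂)(a₄+x₁x₂) + 2a₆)`,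
the product and the difference are the same kind of computation (`field_simp`, `linear_combination`).
Doubling, `y ≠ 0`: `λ = (3x² + a₄)/(2y)`, `x(2P) = λ² - 2x`, `y(2P) = λ (x - x(2P)) - y`.
`xc_eq`: two points with the same `x` satisfy `y₁² = y₂²`, so `y₁ = y₂` or `y₁ = -y₂`.
-/

open WeierstrassCurve

namespace H16C

variable {F : Type*} [Field F] [DecidableEq F] {W : WeierstrassCurve.Affine F} [W.IsShortNF]

omit [DecidableEq F] in
theorem D1_negY (x y : F) : W.negY x y = -y := by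
  rw [WeierstrassCurve.Affine.negY, a₁_of_isShortNF, a₃_of_isShortNF]
  ring

omit [DecidableEq F] in
theorem D1_equation {x y : F} : W.Equation x y ↔ y ^ 2 = x ^ 3 + W.a₄ * x + W.a₆ := by
  rw [WeierstrassCurve.Affine.equation_iff, a₁_of_isShortNF, a₂_of_isShortNF, a₃_of_isShortNF]
  ring_nf

omit [DecidableEq F] in
theorem eqn {P : W.Point} (hP : P ≠ 0) : yc P ^ 2 = xc P ^ 3 + W.a₄ * xc P + W.a₆ := by
  rcases P with _ | ⟨x, y, h⟩
  · exact absurd rfl hP
  · exact D1_equation.mp h.1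

omit [DecidableEq F] in
theorem xc_neg (P : W.Point) : xc (-P) = xc P := by
  rcases P with _ | ⟨x, y, h⟩
  · rfl
  · rfl

omit [DecidableEq F] in
theorem yc_neg (P : W.Point) : yc (-P) = -yc P := by
  rcases P with _ | ⟨x, y, h⟩
  · change (0 : F) = -0
    rw [neg_zero]
  · exact D1_negY x y

omit [DecidableEq F] in
theorem pt_ext {P Q : W.Point} (hP : P ≠ 0) (hQ : Q ≠ 0) (hx : xc P = xc Q) (hy : yc P = yc Q) :
    P = Q := by
  rcases P with _ | ⟨x, y, h⟩
  · exact absurd rfl hP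
  rcases Q with _ | ⟨x', y', h'⟩
  · exact absurd rfl hQ
  change x = x' at hx
  change y = y' at hy
  subst hx hy
  rfl

omit [DecidableEq F] in
theorem xc_eq {P Q : W.Point} (hP : P ≠ 0) (hQ : Q ≠ 0) (h : xc P = xc Q) : P = Q ∨ P = -Q := by
  have hQ' : -Q ≠ 0 := by
    intro h0
    apply hQ
    rw [← neg_neg Q, h0]
    rfl
  have h1 := eqn hP
  have h2 := eqn hQ
  rw [h, ← h2] at h1
  rcases sq_eq_sq_iff_eq_or_eq_neg.mp h1 with h3 | h3
  · exact Or.inl (pt_ext hP hQ h h3)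
  · right
    apply pt_ext hP hQ'
    · rw [xc_neg, h]
    · rw [yc_neg, h3]

/-- the points of a curve over a field where `f(x)` is a square -/
theorem exists_pt [W.IsElliptic] (x y : F) (h : y ^ 2 = x ^ 3 + W.a₄ * x + W.a₆) :
    ∃ P : W.Point, P ≠ 0 ∧ xc P = x ∧ yc P = y :=
  ⟨WeierstrassCurve.Affine.Point.mk (D1_equation.mpr h),
    WeierstrassCurve.Affine.Point.some_ne_zero _, rfl, rfl⟩

theorem xc_ne {P Q : W.Point} (hP : P ≠ 0) (hQ : Q ≠ 0) (h1 : P + Q ≠ 0) (h2 : P - Q ≠ 0) :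
    xc P ≠ xc Q := by
  intro h
  rcases xc_eq hP hQ h with h3 | h3
  · apply h2
    rw [h3, sub_self]
  · apply h1
    rw [h3, neg_add_cancel]

theorem ne_zero_of_xc_ne {P Q : W.Point} (hP : P ≠ 0) (hQ : Q ≠ 0) (h : xc P ≠ xc Q) :
    P + Q ≠ 0 ∧ P - Q ≠ 0 := by
  constructor
  · intro h1
    apply h
    rw [eq_neg_of_add_eq_zero_left h1, xc_neg]
  · intro h1
    apply h
    rw [sub_eq_zero.mp h1]

/-- the addition formula -/
theorem D1_xc_add {P Q : W.Point} (hP : P ≠ 0) (hQ : Q ≠ 0) (h : xc P ≠ xc Q) :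
    xc (P + Q) = ((yc P - yc Q) / (xc P - xc Q)) ^ 2 - xc P - xc Q := by
  rcases P with _ | ⟨x, y, h1⟩
  · exact absurd rfl hP
  rcases Q with _ | ⟨x', y', h2⟩
  · exact absurd rfl hQ
  change x ≠ x' at h
  rw [WeierstrassCurve.Affine.Point.add_of_X_ne h]
  change W.addX x x' (W.slope x x' y y') = ((y - y') / (x - x')) ^ 2 - x - x'
  rw [WeierstrassCurve.Affine.slope_of_X_ne h, WeierstrassCurve.Affine.addX, a₁_of_isShortNF,
    a₂_of_isShortNF]
  ring

theorem D1_xc_sub {P Q : W.Point} (hP : P ≠ 0) (hQ : Q ≠ 0) (h : xc P ≠ xc Q) :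
    xc (P - Q) = ((yc P + yc Q) / (xc P - xc Q)) ^ 2 - xc P - xc Q := by
  have hQ' : -Q ≠ 0 := neg_ne_zero.mpr hQ
  have h' : xc P ≠ xc (-Q) := by rwa [xc_neg]
  rw [sub_eq_add_neg, D1_xc_add hP hQ' h', xc_neg, yc_neg, sub_neg_eq_add]

theorem xc_add_sub {P Q : W.Point} (hP : P ≠ 0) (hQ : Q ≠ 0) (h : xc P ≠ xc Q) :
    (xc P - xc Q) ^ 2 * (xc (P + Q) + xc (P - Q)) =
      2 * ((xc P + xc Q) * (W.a₄ + xc P * xc Q) + 2 * W.a₆) := by
  rw [D1_xc_add hP hQ h, D1_xc_sub hP hQ h]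
  have h1 := eqn hP
  have h2 := eqn hQ
  have h3 : xc P - xc Q ≠ 0 := sub_ne_zero.mpr h
  have e : (xc P - xc Q) ^ 2 * (((yc P - yc Q) / (xc P - xc Q)) ^ 2 - xc P - xc Q +
      (((yc P + yc Q) / (xc P - xc Q)) ^ 2 - xc P - xc Q)) =
      (yc P - yc Q) ^ 2 + (yc P + yc Q) ^ 2 - 2 * (xc P + xc Q) * (xc P - xc Q) ^ 2 := by
    rw [div_pow, div_pow]
    field_simp
    ring
  rw [e]
  linear_combination 2 * h1 + 2 * h2

theorem xc_add_mul_sub {P Q : W.Point} (hP : P ≠ 0) (hQ : Q ≠ 0) (h : xc P ≠ xc Q) :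
    (xc P - xc Q) ^ 2 * (xc (P + Q) * xc (P - Q)) =
      (xc P * xc Q - W.a₄) ^ 2 - 4 * W.a₆ * (xc P + xc Q) := by
  rw [D1_xc_add hP hQ h, D1_xc_sub hP hQ h]
  have h1 := eqn hP
  have h2 := eqn hQ
  have h3 : xc P - xc Q ≠ 0 := sub_ne_zero.mpr h
  apply mul_left_cancel₀ (pow_ne_zero 2 h3)
  have e : (xc P - xc Q) ^ 2 * ((xc P - xc Q) ^ 2 *
      ((((yc P - yc Q) / (xc P - xc Q)) ^ 2 - xc P - xc Q) *
      (((yc P + yc Q) / (xc P - xc Q)) ^ 2 - xc P - xc Q))) =
      ((yc P - yc Q) ^ 2 - (xc P + xc Q) * (xc P - xc Q) ^ 2) *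
      ((yc P + yc Q) ^ 2 - (xc P + xc Q) * (xc P - xc Q) ^ 2) := by
    rw [div_pow, div_pow]
    field_simp
    ring
  rw [e]
  generalize xc P = x at *
  generalize xc Q = x' at *
  generalize yc P = y at *
  generalize yc Q = y' at *
  have e1 : ((y - y') ^ 2 - (x + x') * (x - x') ^ 2) * ((y + y') ^ 2 - (x + x') * (x - x') ^ 2)
      = (y ^ 2 - y' ^ 2) ^ 2 - 2 * (y ^ 2 + y' ^ 2) * ((x + x') * (x - x') ^ 2) +
        ((x + x') * (x - x') ^ 2) ^ 2 := by ring
  rw [e1, h1, h2]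
  ring

theorem xc_sub_sub_add {P Q : W.Point} (hP : P ≠ 0) (hQ : Q ≠ 0) (h : xc P ≠ xc Q) :
    (xc P - xc Q) ^ 2 * (xc (P - Q) - xc (P + Q)) = 4 * yc P * yc Q := by
  rw [D1_xc_add hP hQ h, D1_xc_sub hP hQ h]
  have h3 : xc P - xc Q ≠ 0 := sub_ne_zero.mpr h
  rw [div_pow, div_pow]
  field_simp
  ring

theorem D1_two_smul_of_yc_eq_zero {P : W.Point} (hP : P ≠ 0) (hy : yc P = 0) : P = -P := by
  apply pt_ext hP (neg_ne_zero.mpr hP)
  · rw [xc_neg]
  · rw [yc_neg, hy, neg_zero]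

theorem two_smul_eq_zero_iff (h2 : (2 : F) ≠ 0) {P : W.Point} (hP : P ≠ 0) :
    2 • P = 0 ↔ yc P = 0 := by
  constructor
  · intro h
    rw [two_nsmul] at h
    have h1 : P = -P := eq_neg_of_add_eq_zero_left h
    have h3 : yc P = -yc P := by
      rw [← yc_neg, ← h1]
    have h4 : 2 * yc P = 0 := by linear_combination h3
    exact (mul_eq_zero.mp h4).resolve_left h2
  · intro h
    rw [two_nsmul]
    nth_rewrite 2 [D1_two_smul_of_yc_eq_zero hP h]
    exact add_neg_cancel P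

theorem D1_dbl (h2 : (2 : F) ≠ 0) {P : W.Point} (hP : P ≠ 0) (hy : yc P ≠ 0) :
    xc (2 • P) = ((3 * xc P ^ 2 + W.a₄) / (2 * yc P)) ^ 2 - 2 * xc P ∧
    yc (2 • P) = ((3 * xc P ^ 2 + W.a₄) / (2 * yc P)) * (xc P - xc (2 • P)) - yc P := by
  rw [two_nsmul]
  rcases P with _ | ⟨x, y, h1⟩
  · exact absurd rfl hP
  change y ≠ 0 at hy
  have hne : y ≠ W.negY x y := by
    rw [D1_negY]
    intro h
    have h4 : 2 * y = 0 := by linear_combination h
    exact hy ((mul_eq_zero.mp h4).resolve_left h2)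
  have hs : W.slope x x y y = (3 * x ^ 2 + W.a₄) / (2 * y) := by
    rw [WeierstrassCurve.Affine.slope_of_Y_ne rfl hne, D1_negY, a₁_of_isShortNF,
      a₂_of_isShortNF]
    congr 1 <;> ring
  rw [WeierstrassCurve.Affine.Point.add_self_of_Y_ne hne]
  have hx : W.addX x x (W.slope x x y y) = ((3 * x ^ 2 + W.a₄) / (2 * y)) ^ 2 - 2 * x := by
    rw [hs, WeierstrassCurve.Affine.addX, a₁_of_isShortNF, a₂_of_isShortNF]
    ring
  constructor
  · exact hx
  · change W.addY x x y (W.slope x x y y) = ((3 * x ^ 2 + W.a₄) / (2 * y)) *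
      (x - W.addX x x (W.slope x x y y)) - y
    rw [WeierstrassCurve.Affine.addY, WeierstrassCurve.Affine.negAddY, D1_negY, hs]
    ring

theorem xc_dbl (h2 : (2 : F) ≠ 0) {P : W.Point} (hP : P ≠ 0) (hy : yc P ≠ 0) :
    4 * yc P ^ 2 * xc (2 • P) = (xc P ^ 2 - W.a₄) ^ 2 - 8 * W.a₆ * xc P := by
  rw [(D1_dbl h2 hP hy).1]
  have h1 := eqn hP
  have e : 4 * yc P ^ 2 * (((3 * xc P ^ 2 + W.a₄) / (2 * yc P)) ^ 2 - 2 * xc P) =
      (3 * xc P ^ 2 + W.a₄) ^ 2 - 8 * xc P * yc P ^ 2 := by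
    rw [div_pow]
    field_simp
    ring
  rw [e, h1]
  ring

theorem yc_dbl (h2 : (2 : F) ≠ 0) {P : W.Point} (hP : P ≠ 0) (hy : yc P ≠ 0) :
    8 * yc P ^ 3 * yc (2 • P) = xc P ^ 6 + 5 * W.a₄ * xc P ^ 4 + 20 * W.a₆ * xc P ^ 3 -
      5 * W.a₄ ^ 2 * xc P ^ 2 - 4 * W.a₄ * W.a₆ * xc P - 8 * W.a₆ ^ 2 - W.a₄ ^ 3 := by
  have h1 := eqn hP
  have e : 8 * yc P ^ 3 * yc (2 • P) =
      (3 * xc P ^ 2 + W.a₄) * (4 * yc P ^ 2 * xc P - 4 * yc P ^ 2 * xc (2 • P)) -
        8 * (yc P ^ 2) ^ 2 := by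
    rw [(D1_dbl h2 hP hy).2]
    field_simp
    ring
  rw [e, xc_dbl h2 hP hy, h1]
  ring

end H16C
end

-- from Lib.H16C.D2
section

/-!
# D2 (S): two identities for the `x`-coordinates

Put `F(a, c, X) = (a-c)² X² - 2((a+c)(a₄+ac) + 2a₆) X + (ac-a₄)² - 4a₆(a+c)`.  By D1, for
`x(P) ≠ x(Q)`: `(x(P)-x(Q))² (X - x(P+Q)) (X - x(P-Q)) = F(x(P), x(Q), X)`.
`F` is symmetric in its three arguments (`ring`): this is `xsym`.
`F(a, c, a) = F(a, a, c) = (a²-a₄)² - 8 a₆ a - 4 (a³ + a₄ a + a₆) c = 4 y(P)² (x(2P) - c)` for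
`a = x(P)` (`eqn`, `xc_dbl`): this is `xdbl`; if `y(P) = 0` then `2P = 0`, excluded by hypothesis.
-/

open WeierstrassCurve

namespace H16C

variable {F : Type*} [Field F] [DecidableEq F] {W : WeierstrassCurve.Affine F} [W.IsShortNF]

theorem D2_expand {P Q : W.Point} (hP : P ≠ 0) (hQ : Q ≠ 0) (h : xc P ≠ xc Q) (X : F) :
    (xc P - xc Q) ^ 2 * ((X - xc (P + Q)) * (X - xc (P - Q))) =
      (xc P - xc Q) ^ 2 * X ^ 2 - 2 * ((xc P + xc Q) * (W.a₄ + xc P * xc Q) + 2 * W.a₆) * X +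
        (xc P * xc Q - W.a₄) ^ 2 - 4 * W.a₆ * (xc P + xc Q) := by
  have h1 := xc_add_sub hP hQ h
  have h2 := xc_add_mul_sub hP hQ h
  linear_combination -X * h1 + h2

theorem xsym {P Q R : W.Point} (hP : P ≠ 0) (hQ : Q ≠ 0) (hR : R ≠ 0) (h : xc P ≠ xc Q)
    (h' : xc P ≠ xc R) :
    (xc P - xc Q) ^ 2 * ((xc R - xc (P + Q)) * (xc R - xc (P - Q))) =
      (xc P - xc R) ^ 2 * ((xc Q - xc (P + R)) * (xc Q - xc (P - R))) := by
  rw [D2_expand hP hQ h, D2_expand hP hR h']
  ring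

theorem xdbl (h2 : (2 : F) ≠ 0) {P Q : W.Point} (hP : P ≠ 0) (hQ : Q ≠ 0) (h : xc P ≠ xc Q)
    (hy : yc P ≠ 0) :
    (xc P - xc Q) ^ 2 * ((xc P - xc (P + Q)) * (xc P - xc (P - Q))) =
      (2 * yc P) ^ 2 * (xc (2 • P) - xc Q) := by
  rw [D2_expand hP hQ h]
  have h3 := xc_dbl h2 hP hy
  have h4 := eqn hP
  linear_combination -h3 + 4 * xc Q * h4

end H16C
end

-- from Lib.H16C.D3
section

/-!
# D3 (M): `x(kP) = x - ψ_{k+1} ψ_{k-1} / ψ_k²` and rank of apparition

Notation: `P = (x, y)`, `g_k = psi W x y k`, `x_k = xc (k • P)`, `h_k = 2 yc (k • P)`.  Assume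
`k • P ≠ 0` for `0 < k < N`.  By strong induction on `k` prove, for `0 < k < N`:
  (a) `g_k ≠ 0`,   (b) `g_k² (x_1 - x_k) = g_{k+1} g_{k-1}`.
`k = 1`: `g_1 = 1`, `g_0 = 0`.
`k = 2`: `g_2 = 2y ≠ 0` (`two_smul_eq_zero_iff`), (b) is `(2y)² (x - x(2P)) = g_3`: `xc_dbl`,
`psi_three`, `eqn`.
(a) for `k ≥ 3`: (b) for `k - 1` gives `g_k g_{k-2} = g_{k-1}² (x_1 - x_{k-1})`, and
`x_1 ≠ x_{k-1}` because `P ± (k-1) P ≠ 0` (`xc_ne`).
If (b) holds for `m` and `m + 1` then (`psi_odd`, `m ≥ 1`)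
  (c_m) `g_{2m+1} = g_{m+2} g_m³ - g_{m-1} g_{m+1}³ = (g_m g_{m+1})² (x_m - x_{m+1})`.
If (b) holds for `m - 1` and `m + 1`, `m ≥ 2` then (`psi_even`)
  (c'_m) `g_{2m} g_2 = g_m (g_{m+2} g_{m-1}² - g_{m-2} g_{m+1}²) = (g_{m-1} g_{m+1})² (x_{m-1} - x_{m+1})`,
and with `xc_sub_sub_add` for `(mP, P)`: `h_m h_1 = (x_{m-1} - x_{m+1}) (x_m - x_1)²`, (b) for `m`:
`(x_1 - x_m)² g_m⁴ = (g_{m+1} g_{m-1})²`, `g_2 = h_1 ≠ 0`:
  (d_m) `g_{2m} = g_m⁴ h_m`   (`m = 1`: `g_2 = h_1`; `m = 2` directly: `psi_four`, `yc_dbl`).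
(b) for `k = 2m`, `m ≥ 2` (`m + 1 < k`): `xdbl` for `(mP, P)`:
`(x_m - x_1)² (x_m - x_{m+1}) (x_m - x_{m-1}) = h_m² (x_{2m} - x_1)`; multiply by `g_m⁸`, use (b_m),
(c_m), (c_{m-1}), (d_m): `g_{2m}² (x_1 - x_{2m}) = g_{2m+1} g_{2m-1}` (after cancelling
`(g_{m+1} g_{m-1})²`).
(b) for `k = 2m - 1`, `m ≥ 2` (for `m ≥ 3`: `m + 1 < k`, so (d_m) is available; `m = 2`: (d_2)
directly): `xc_sub_sub_add` for `(mP, (m-1)P)`: `h_m h_{m-1} = (x_1 - x_{2m-1}) (x_m - x_{m-1})²`;
multiply by `(g_m g_{m-1})⁴`, use (d_m), (d_{m-1}), (c_{m-1}):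
`g_{2m} g_{2m-2} = (x_1 - x_{2m-1}) g_{2m-1}²`.
The points `m P, (m ± 1) P, ...` that occur are `≠ 0` and have different `x`-coordinates since all
`j P ≠ 0` for `0 < j < N` (`xc_ne`).
Second statement: `N • P = 0`, `N ≥ 3`: (b) for `k = N - 1`: `g_N g_{N-2} = g_{N-1}² (x_1 - x_{N-1})`
`= 0` because `(N-1) P = -P`, and `g_{N-2} ≠ 0`.  `N = 2`: `g_2 = 2y = 0`.
-/

open WeierstrassCurve

namespace H16C

variable {F : Type*} [Field F] [DecidableEq F] {W : WeierstrassCurve.Affine F} [W.IsShortNF]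

theorem D3_two {P : W.Point} (h2 : (2 : F) ≠ 0) (hP : P ≠ 0) (hy : yc P ≠ 0) :
    psi W (xc P) (yc P) 4 = psi W (xc P) (yc P) 2 ^ 4 * (2 * yc (2 • P)) := by
  have h1 := yc_dbl h2 hP hy
  rw [psi_four, psi_two, ← h1]
  ring

theorem psi_main (h2 : (2 : F) ≠ 0) {P : W.Point} (hP : P ≠ 0) (N : ℕ)
    (hN : ∀ k : ℕ, 0 < k → k < N → k • P ≠ 0) (k : ℕ) (hk : 0 < k) (hkN : k < N) :
    psi W (xc P) (yc P) k ≠ 0 ∧
      psi W (xc P) (yc P) k ^ 2 * (xc P - xc (k • P)) =
        psi W (xc P) (yc P) (k + 1) * psi W (xc P) (yc P) (k - 1) := by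
  obtain ⟨g, hg⟩ : ∃ g : ℤ → F, g = psi W (xc P) (yc P) := ⟨_, rfl⟩
  obtain ⟨X, hX⟩ : ∃ X : ℕ → F, X = fun j => xc (j • P) := ⟨_, rfl⟩
  obtain ⟨Y, hY⟩ : ∃ Y : ℕ → F, Y = fun j => yc (j • P) := ⟨_, rfl⟩
  have hX' : ∀ j : ℕ, xc (j • P) = X j := fun j => by rw [hX]
  have hY' : ∀ j : ℕ, yc (j • P) = Y j := fun j => by rw [hY]
  have hX1 : xc P = X 1 := by rw [hX]; simp
  have hY1 : yc P = Y 1 := by rw [hY]; simp
  have g0 : g 0 = 0 := by rw [hg]; exact psi_zero W
  have g1 : g 1 = 1 := by rw [hg]; exact psi_one W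
  have g2 : g 2 = 2 * Y 1 := by rw [hg, ← hY1]; exact psi_two W
  have godd : ∀ m : ℤ, g (2 * m + 1) = g (m + 2) * g m ^ 3 - g (m - 1) * g (m + 1) ^ 3 := by
    rw [hg]; exact psi_odd W
  have geven : ∀ m : ℤ, g (2 * m) * (2 * Y 1) =
      g (m - 1) ^ 2 * g m * g (m + 2) - g (m - 2) * g m * g (m + 1) ^ 2 := by
    rw [hg, ← hY1]; exact psi_even W
  -- main claim
  suffices H : ∀ k : ℕ, 0 < k → k < N → g k ≠ 0 ∧ g k ^ 2 * (X 1 - X k) = g (k + 1) * g (k - 1) by
    have := H k hk hkN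
    rw [← hg, hX1, hX']
    exact this
  clear hk hkN k
  intro k
  induction k using Nat.strong_induction_on with
  | _ k ih =>
  intro hk hkN
  -- the cases `k = 1`
  rcases Nat.lt_or_ge k 2 with hk2 | hk2
  · have : k = 1 := by omega
    subst this
    refine ⟨?_, ?_⟩
    · rw [Nat.cast_one, g1]
      exact one_ne_zero
    · rw [Nat.cast_one, sub_self, sub_self, g0]
      ring
  -- `2 P ≠ 0`
  have h2P : 2 • P ≠ 0 := hN 2 (by norm_num) (by omega)
  have hy0 : yc P ≠ 0 := fun h => h2P ((two_smul_eq_zero_iff h2 hP).mpr h)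
  have hY10 : Y 1 ≠ 0 := by rwa [← hY1]
  have hg20 : g 2 ≠ 0 := by
    rw [g2]
    exact mul_ne_zero h2 hY10
  rcases Nat.lt_or_ge k 3 with hk3 | hk3
  · have : k = 2 := by omega
    subst this
    refine ⟨?_, ?_⟩
    · exact_mod_cast hg20
    · have e1 := xc_dbl h2 hP hy0
      have e2 := eqn hP
      have e3 : g 3 = 3 * X 1 ^ 4 + 6 * W.a₄ * X 1 ^ 2 + 12 * W.a₆ * X 1 - W.a₄ ^ 2 := by
        rw [hg, ← hX1]
        exact psi_three W
      rw [show ((2 : ℕ) : ℤ) + 1 = 3 by norm_num, show ((2 : ℕ) : ℤ) - 1 = 1 by norm_num,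
        show ((2 : ℕ) : ℤ) = 2 by norm_num, g1, g2, e3]
      rw [hX1, hY1, hX'] at e1
      rw [hX1, hY1] at e2
      linear_combination -e1 + 4 * X 1 * e2
  -- the main case
  have ih' : ∀ j : ℕ, 0 < j → j < k →
      g j ≠ 0 ∧ g j ^ 2 * (X 1 - X j) = g (j + 1) * g (j - 1) :=
    fun j hj hjk => ih j hjk hj (hjk.trans hkN)
  -- the points
  have hsm : ∀ i j : ℕ, j ≤ i → i • P - j • P = (i - j) • P := by
    intro i j h
    rw [sub_nsmul P h, sub_eq_add_neg]
  have hne : ∀ i j : ℕ, 0 < j → j < i → i + j < N → X i ≠ X j := by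
    intro i j hj hji hij
    rw [← hX', ← hX']
    apply xc_ne (hN i (by omega) (by omega)) (hN j hj (by omega))
    · rw [← add_smul]
      exact hN _ (by omega) hij
    · rw [hsm i j hji.le]
      exact hN _ (by omega) (by omega)
  have hsub : ∀ i j : ℕ, 0 < j → j < i → i + j < N →
      (X i - X j) ^ 2 * (X (i - j) - X (i + j)) = (2 * Y i) * (2 * Y j) := by
    intro i j hj hji hij
    have e := xc_sub_sub_add (hN i (by omega) (by omega)) (hN j hj (by omega))
      (by rw [hX', hX']; exact hne i j hj hji hij)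
    rw [← add_smul, hsm i j hji.le, hX', hX', hX', hX', hY', hY'] at e
    rw [e]
    ring
  -- (c)
  have hc : ∀ n : ℕ, 0 < n → n + 1 < k →
      g (2 * n + 1) = (g n * g (n + 1)) ^ 2 * (X n - X (n + 1)) := by
    intro n hn hnk
    have b1 := (ih' n hn (by omega)).2
    have b2 := (ih' (n + 1) (by omega) hnk).2
    push_cast at b2
    rw [show (n : ℤ) + 1 + 1 = n + 2 by ring, show (n : ℤ) + 1 - 1 = n by ring] at b2
    rw [godd]
    linear_combination - g n ^ 2 * b2 + g (n + 1) ^ 2 * b1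
  -- (d)
  have hd : ∀ m : ℕ, 0 < m → m < k → (m = 1 ∨ m = 2 ∨ m + 1 < k) →
      g (2 * m) = g m ^ 4 * (2 * Y m) := by
    intro m hm hmk hcase
    rcases Nat.lt_or_ge m 2 with hm2 | hm2
    · have : m = 1 := by omega
      subst this
      rw [Nat.cast_one, mul_one, g1, g2]
      ring
    rcases Nat.lt_or_ge m 3 with hm3 | hm3
    · have : m = 2 := by omega
      subst this
      have := D3_two h2 hP hy0
      rw [← hg, hY'] at this
      exact this
    · have hmk1 : m + 1 < k := by omega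
      obtain ⟨n, rfl⟩ : ∃ n, m = n + 1 := ⟨m - 1, by omega⟩
      have b1 := (ih' n (by omega) (by omega)).2
      have b2 := (ih' (n + 1) (by omega) (by omega)).2
      have b3 := (ih' (n + 2) (by omega) (by omega)).2
      have hs := hsub (n + 1) 1 (by norm_num) (by omega) (by omega)
      rw [Nat.add_sub_cancel, show n + 1 + 1 = n + 2 by ring] at hs
      have he := geven (n + 1)
      push_cast at *
      rw [show (n : ℤ) + 1 + 1 = n + 2 by ring, show (n : ℤ) + 1 - 1 = n by ring] at b2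
      rw [show (n : ℤ) + 2 + 1 = n + 3 by ring, show (n : ℤ) + 2 - 1 = n + 1 by ring] at b3
      rw [show (n : ℤ) + 1 + 1 = n + 2 by ring, show (n : ℤ) + 1 - 1 = n by ring,
        show (n : ℤ) + 1 - 2 = n - 1 by ring, show (n : ℤ) + 1 + 2 = n + 3 by ring] at he
      apply mul_right_cancel₀ (mul_ne_zero h2 hY10)
      rw [he]
      have e1 : g n ^ 2 * g (n + 1) * g (n + 3) - g (n - 1) * g (n + 1) * g (n + 2) ^ 2 =
          (g (n + 2) * g n) ^ 2 * (X n - X (n + 2)) := by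
        linear_combination -g n ^ 2 * b3 + g (n + 2) ^ 2 * b1
      rw [e1, ← b2]
      linear_combination g (n + 1) ^ 4 * hs
  -- (a)
  have ha : g k ≠ 0 := by
    obtain ⟨n, rfl⟩ : ∃ n, k = n + 2 := ⟨k - 2, by omega⟩
    have b := ih' (n + 1) (by omega) (by omega)
    have hx := hne (n + 1) 1 (by norm_num) (by omega) (by omega)
    intro h0
    have b2 := b.2
    push_cast at b2 h0
    rw [show (n : ℤ) + 1 + 1 = n + 2 by ring, h0, zero_mul] at b2
    rcases mul_eq_zero.mp b2 with h3 | h3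
    · apply b.1
      push_cast
      exact pow_eq_zero_iff (two_ne_zero) |>.mp h3
    · exact hx (sub_eq_zero.mp h3).symm
  refine ⟨ha, ?_⟩
  rcases Nat.even_or_odd' k with ⟨m, hm | hm⟩
  · -- even
    obtain ⟨n, rfl⟩ : ∃ n, m = n + 1 := ⟨m - 1, by omega⟩
    have b2 := (ih' (n + 1) (by omega) (by omega)).2
    have c1 := hc n (by omega) (by omega)
    have c2 := hc (n + 1) (by omega) (by omega)
    have d := hd (n + 1) (by omega) (by omega) (by omega)
    have hx := hne (n + 1) 1 (by norm_num) (by omega) (by omega)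
    have hmP : (n + 1) • P ≠ 0 := hN _ (by omega) (by omega)
    have hY2 : yc ((n + 1) • P) ≠ 0 := by
      intro h
      have h3 := (two_smul_eq_zero_iff h2 hmP).mpr h
      rw [← mul_smul, ← hm] at h3
      exact hN k hk hkN h3
    have hdb := xdbl h2 hmP hP (by rw [hX', hX1]; exact hx) hY2
    rw [← mul_smul, ← hm] at hdb
    have e1 : (n + 1) • P + P = (n + 2) • P := by
      rw [show n + 2 = n + 1 + 1 by ring, add_smul (n + 1) 1 P, one_smul]
    have e2 : (n + 1) • P - P = n • P := by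
      rw [add_smul, one_smul, add_sub_cancel_right]
    rw [e1, e2, hX', hX', hX', hX', hX1, hY'] at hdb
    have hkz : (k : ℤ) = 2 * (n + 1) := by
      rw [hm]; push_cast; ring
    have hkz1 : (k : ℤ) + 1 = 2 * (n + 1) + 1 := by rw [hkz]
    have hkz2 : (k : ℤ) - 1 = 2 * n + 1 := by rw [hkz]; ring
    push_cast at *
    rw [show (n : ℤ) + 1 + 1 = n + 2 by ring, show (n : ℤ) + 1 - 1 = n by ring] at b2
    rw [show (n : ℤ) + 1 + 1 = n + 2 by ring] at c2
    rw [hkz1, hkz2, hkz, c1, c2, d]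
    have e3 : (g (n + 1) * g (n + 2)) ^ 2 * (X (n + 1) - X (n + 1 + 1)) *
        ((g n * g (n + 1)) ^ 2 * (X n - X (n + 1))) =
        g (n + 1) ^ 4 * (g (n + 2) * g n) ^ 2 * ((X (n + 1) - X (n + 2)) * (X n - X (n + 1))) := by
      ring
    rw [e3, ← b2]
    linear_combination g (n + 1) ^ 8 * hdb
  · -- odd
    obtain ⟨n, rfl⟩ : ∃ n, m = n + 1 := ⟨m - 1, by omega⟩
    have c1 := hc (n + 1) (by omega) (by omega)
    have d1 := hd (n + 1) (by omega) (by omega) (by omega)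
    have d2 := hd (n + 2) (by omega) (by omega) (by omega)
    have hs := hsub (n + 2) (n + 1) (by omega) (by omega) (by omega)
    rw [show n + 2 - (n + 1) = 1 by omega, show n + 2 + (n + 1) = k by omega] at hs
    have hkz : (k : ℤ) = 2 * (n + 1) + 1 := by
      rw [hm]; push_cast; ring
    have hkz1 : (k : ℤ) + 1 = 2 * (n + 2) := by rw [hkz]; ring
    have hkz2 : (k : ℤ) - 1 = 2 * (n + 1) := by rw [hkz]; ring
    push_cast at *
    rw [show (n : ℤ) + 1 + 1 = n + 2 by ring] at c1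
    rw [hkz1, hkz2, hkz, c1, d1, d2]
    linear_combination g (n + 1) ^ 4 * g (n + 2) ^ 4 * hs

theorem psi_order (h2 : (2 : F) ≠ 0) {P : W.Point} (hP : P ≠ 0) (N : ℕ) (hN2 : 2 ≤ N)
    (hN : ∀ k : ℕ, 0 < k → k < N → k • P ≠ 0) (hNP : N • P = 0) :
    psi W (xc P) (yc P) N = 0 := by
  rcases Nat.lt_or_ge N 3 with h3 | h3
  · have : N = 2 := by omega
    subst this
    have := psi_two W (x := xc P) (y := yc P)
    rw [(two_smul_eq_zero_iff h2 hP).mp hNP, mul_zero] at this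
    rw [(two_smul_eq_zero_iff h2 hP).mp hNP]
    exact_mod_cast this
  · obtain ⟨n, rfl⟩ : ∃ n, N = n + 2 := ⟨N - 2, by omega⟩
    have b := (psi_main h2 hP (n + 2) hN (n + 1) (by omega) (by omega)).2
    have b' := (psi_main h2 hP (n + 2) hN n (by omega) (by omega)).1
    have e : (n + 1) • P = -P := by
      apply eq_neg_of_add_eq_zero_left
      rw [show n + 2 = n + 1 + 1 by ring, add_smul (n + 1) 1 P, one_smul] at hNP
      exact hNP
    rw [e, xc_neg, sub_self, mul_zero] at b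
    push_cast at b ⊢
    rw [show (n : ℤ) + 1 + 1 = n + 2 by ring, show (n : ℤ) + 1 - 1 = n by ring] at b
    exact (mul_eq_zero.mp b.symm).resolve_right b'

end H16C
end

-- from Lib.H16C.FR2
section

/-!
# FR2 (M/L): Frobenius elements and the decomposition group modulo inertia

`K ≤ F` subfields of `Ω`, finite over the number field `k`, `F` stable under `Gal(Ω/K)`, so `F/K`
is a finite Galois extension (`Ω/k` algebraic, `Ω` algebraically closed, characteristic `0`).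
`A`, `v = A.valuation`, `v(q) < 1`.  `P₀ = {z ∈ 𝓞 K | v z < 1}`, `Q = #(𝓞 K / P₀)` (it does not
depend on `F`).  `P = {z ∈ 𝓞 F | v z < 1}`: a nonzero prime ideal above `P₀`; `𝓞 F / P` is finite.
Existence: `Gal(F/K)` acts on `𝓞 F` with invariants `𝓞 K` (`Algebra.IsInvariant`), Mathlib
(`NumberTheory/../Frobenius.lean`, `IsArithFrobAt`, `AlgHom.IsArithFrobAt`,
`exists_arithFrobAt..`) gives `s` with `s z - z ^ Q ∈ P` for `z ∈ 𝓞 F`; lift `s` to
`φ ∈ Gal(Ω/K)` (`AlgEquiv.liftNormal`, or `IntermediateField` lifting).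
`Frob A F Q φ`: `x = a / c` as in FR1: `φ a ≡ a^Q`, `φ c ≡ c^Q`, `v(c) = v(φ c) = 1`, so
`φ x ≡ x ^ Q`.
Decomposition: `g ∈ Gal(Ω/K)`, `v(g x) = v x` for all `x`.  The restriction `t` of `g` to `F`
satisfies `t P = P`, and acts on the finite field `𝓞 F / P` as an automorphism over `𝓞 K / P₀`, so as
`z ↦ z ^ (Q ^ j)` for some `j` (`FiniteField`: the Galois group of an extension of finite fields is
generated by the Frobenius, `FiniteField.bijective_frobeniusAlgEquivOfAlgebraic_pow`).  So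
`g⁻¹ φ^j` acts trivially on `𝓞 F / P` (if `z ∈ 𝓞 F`: `φ^j z ≡ z^(Q^j) ≡ g z`, and `g⁻¹` preserves
`v`), and `Inert A F (g⁻¹ φ^j)` by FR1.
Last statement: if all the residue classes of `K` are classes of integers then `𝓞 K / P₀` is the image
of `ℤ`, so `𝔽_q`: `Q = q`.
-/

open NumberField
open scoped Pointwise

namespace H16C

/-! ### general lemmas -/

theorem FR_div_congr {Ω : Type*} [Field Ω] (A : ValuationSubring Ω) {a a' c c' : Ω}
    (ha : A.valuation (a - a') < 1) (hc : A.valuation (c - c') < 1) (ha1 : A.valuation a' ≤ 1)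
    (hc1 : A.valuation c' = 1) : A.valuation (a / c - a' / c') < 1 := by
  have hc2 : A.valuation c = 1 := by
    have h := A.valuation.map_add_eq_of_lt_right (x := c - c') (y := c') (by rw [hc1]; exact hc)
    rw [sub_add_cancel, hc1] at h
    exact h
  have h0 : c ≠ 0 := by
    intro h
    rw [h, map_zero] at hc2
    exact zero_ne_one hc2
  have h0' : c' ≠ 0 := by
    intro h
    rw [h, map_zero] at hc1
    exact zero_ne_one hc1
  have e : a / c - a' / c' = ((a - a') * c' - a' * (c - c')) / (c * c') := by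
    field_simp
    ring
  rw [e, map_div₀, map_mul, hc2, hc1, one_mul, div_one]
  refine A.valuation.map_sub_lt ?_ ?_
  · rw [map_mul, hc1, mul_one]
    exact ha
  · rw [map_mul]
    exact lt_of_le_of_lt (mul_le_of_le_one_left' ha1) hc

theorem FR_pow {K N : Type*} [Field K] [NumberField K] [Field N] [NumberField N] [Algebra K N]
    [IsGalois K N] (v : Ideal (𝓞 K)) [v.IsPrime] (hv0 : v ≠ ⊥) (W : Ideal (𝓞 N)) [W.IsPrime] (hW0 : W ≠ ⊥)
    [hl : W.LiesOver v] [hc : SMulCommClass Gal(N/K) (𝓞 K) (𝓞 N)] (g : Gal(N/K))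
    (hg : IsArithFrobAt (𝓞 K) g W)
    (σ : Gal(N/K)) (hσ : σ • W = W) : ∃ n : ℕ, ∀ x : 𝓞 N, (g ^ n) • x - σ • x ∈ W := by
  have hWm : W.IsMaximal := Ideal.IsPrime.isMaximal inferInstance hW0
  have hpm : v.IsMaximal := Ideal.IsPrime.isMaximal inferInstance hv0
  have hfin : Finite (𝓞 N ⧸ W) := Ideal.finiteQuotientOfFreeOfNeBot _ hW0
  have hfin' : Finite (𝓞 K ⧸ v) := Ideal.finiteQuotientOfFreeOfNeBot _ hv0
  let _ := Ideal.Quotient.field v
  let _ := Ideal.Quotient.field W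
  let _ := Fintype.ofFinite (𝓞 K ⧸ v)
  have hgs := hg.mem_stabilizer
  obtain ⟨⟨n, hn⟩, hn2⟩ := (FiniteField.bijective_frobeniusAlgEquivOfAlgebraic_pow (𝓞 K ⧸ v)
    (𝓞 N ⧸ W)).2 (Ideal.Quotient.stabilizerHom W v Gal(N/K) ⟨σ, hσ⟩)
  have hF : Ideal.Quotient.stabilizerHom W v Gal(N/K) ⟨g, hgs⟩ =
      FiniteField.frobeniusAlgEquivOfAlgebraic (𝓞 K ⧸ v) (𝓞 N ⧸ W) := by
    apply AlgEquiv.ext
    intro y
    obtain ⟨x, rfl⟩ := Ideal.Quotient.mk_surjective y
    rw [FiniteField.coe_frobeniusAlgEquivOfAlgebraic]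
    have h1 := hg.mk_apply x
    rw [← hl.over, Nat.card_eq_fintype_card] at h1
    exact h1
  refine ⟨n, fun x => ?_⟩
  have h2 : Ideal.Quotient.stabilizerHom W v Gal(N/K) (⟨g, hgs⟩ ^ n) =
      Ideal.Quotient.stabilizerHom W v Gal(N/K) ⟨σ, hσ⟩ := by
    rw [map_pow, hF]
    exact hn2
  have h3 := DFunLike.congr_fun h2 (Ideal.Quotient.mk W x)
  exact (Ideal.Quotient.eq (I := W)).1 h3

theorem FR_card {K : Type*} [Field K] [NumberField K] (v : Ideal (𝓞 K)) [v.IsPrime] (hv0 : v ≠ ⊥) :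
    2 ≤ Nat.card (𝓞 K ⧸ v) := by
  have hfin' : Finite (𝓞 K ⧸ v) := Ideal.finiteQuotientOfFreeOfNeBot _ hv0
  exact Finite.one_lt_card

theorem FR_card_eq {K : Type*} [Field K] [NumberField K] (v : Ideal (𝓞 K)) [v.IsPrime] {q : ℕ}
    (hq : q.Prime) (hqv : (q : 𝓞 K) ∈ v) (h : ∀ z : 𝓞 K, ∃ m : ℤ, z - m ∈ v) :
    Nat.card (𝓞 K ⧸ v) = q := by
  have : Fact q.Prime := ⟨hq⟩
  have h0 : ((q : ℕ) : 𝓞 K ⧸ v) = 0 := by
    have := Ideal.Quotient.eq_zero_iff_mem.2 hqv
    rwa [map_natCast] at this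
  have hch : CharP (𝓞 K ⧸ v) q := by
    rcases (Nat.dvd_prime hq).1 ((CharP.cast_eq_zero_iff (𝓞 K ⧸ v) (ringChar (𝓞 K ⧸ v)) q).1 h0) with h1 | h1
    · exact absurd h1 (CharP.ringChar_ne_one)
    · rw [← h1]
      exact ringChar.charP _
  have hb : Function.Bijective (ZMod.castHom (dvd_refl q) (𝓞 K ⧸ v)) := by
    refine ⟨RingHom.injective _, fun y => ?_⟩
    obtain ⟨z, rfl⟩ := Ideal.Quotient.mk_surjective y
    obtain ⟨m, hm⟩ := h z
    refine ⟨(m : ZMod q), ?_⟩
    rw [map_intCast]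
    have := (Ideal.Quotient.eq (I := v)).2 hm
    rw [this, map_intCast]
  rw [← Nat.card_congr (Equiv.ofBijective _ hb), Nat.card_zmod]

variable {k : Type*} [Field k] [NumberField k] {Ω : Type*} [Field Ω] [Algebra k Ω] [IsAlgClosed Ω]
  [Algebra.IsAlgebraic k Ω] [CharZero Ω]

/-- An automorphism of `Ω` over `k` which fixes `K` is an automorphism over `K`. -/
noncomputable def FR_up {K : IntermediateField k Ω} (g : Ω ≃ₐ[k] Ω) (hg : g ∈ K.fixingSubgroup) :
    Ω ≃ₐ[K] Ω :=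
  AlgEquiv.ofRingEquiv (f := (g : Ω ≃+* Ω)) (fun x => hg x)

theorem FR_fin (K F : IntermediateField k Ω) (hKF : K ≤ F) [FiniteDimensional k F] :
    FiniteDimensional K (IntermediateField.extendScalars hKF) := by
  have h1 : FiniteDimensional k (IntermediateField.extendScalars hKF) :=
    inferInstanceAs (FiniteDimensional k F)
  exact Module.Finite.of_restrictScalars_finite k K _

theorem FR_galois (K F : IntermediateField k Ω) (hKF : K ≤ F) [FiniteDimensional k F]
    (hst : ∀ g ∈ K.fixingSubgroup, ∀ x ∈ F, g x ∈ F) :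
    IsGalois K (IntermediateField.extendScalars hKF) := by
  have hfin := FR_fin K F hKF
  have hal : Algebra.IsAlgebraic K Ω := Algebra.IsAlgebraic.tower_top (K := k) K
  have hcl : IsAlgClosure K Ω := ⟨inferInstance, hal⟩
  have hno : Normal K Ω := IsAlgClosure.normal K Ω
  have : Normal K (IntermediateField.extendScalars hKF) := by
    rw [IntermediateField.normal_iff_forall_map_le']
    intro σ
    rintro y ⟨x, hx, rfl⟩
    have hx' : x ∈ F := IntermediateField.mem_extendScalars hKF |>.1 hx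
    have h2 := hst (σ.restrictScalars k) (fun z => σ.commutes z) x hx'
    exact (IntermediateField.mem_extendScalars hKF).2 h2
  have : CharZero K := charZero_of_injective_algebraMap (algebraMap k K).injective
  exact { }

theorem FR_lift {K : IntermediateField k Ω} (F : IntermediateField K Ω) [Normal K F] (s : Gal(F/K)) :
    ∃ φ : Ω ≃ₐ[k] Ω, φ ∈ K.fixingSubgroup ∧ ∀ x : F, φ (x : Ω) = ((s x : F) : Ω) := by
  have hal : Algebra.IsAlgebraic K Ω := Algebra.IsAlgebraic.tower_top (K := k) K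
  have hcl : IsAlgClosure K Ω := ⟨inferInstance, hal⟩
  have hno : Normal K Ω := IsAlgClosure.normal K Ω
  refine ⟨(s.liftNormal Ω).restrictScalars k, fun x => (s.liftNormal Ω).commutes x, fun x => ?_⟩
  exact s.liftNormal_commutes Ω x

theorem FR_restr {K : IntermediateField k Ω} (F : IntermediateField K Ω) [Normal K F] (g : Ω ≃ₐ[k] Ω)
    (hg : g ∈ K.fixingSubgroup) : ∃ s : Gal(F/K), ∀ x : F, ((s x : F) : Ω) = g (x : Ω) :=
  ⟨(FR_up g hg).restrictNormal F, fun x => (FR_up g hg).restrictNormal_commutes F x⟩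

theorem FR_under (K : IntermediateField k Ω) (F : IntermediateField K Ω) (A : ValuationSubring Ω) :
    (plc F A).LiesOver (plc K A) := by
  constructor
  ext z
  rw [Ideal.mem_comap, mem_plc, mem_plc]
  rfl

theorem FR_smul {K : IntermediateField k Ω} (F : IntermediateField K Ω) [FiniteDimensional K F] (s : Gal(F/K))
    (g : Ω ≃ₐ[k] Ω) (h : ∀ x : F, ((s x : F) : Ω) = g (x : Ω)) (z : 𝓞 F) :
    (((s • z : 𝓞 F) : F) : Ω) = g ((z : F) : Ω) := by
  rw [← h]
  rfl

theorem FR_smul_plc {K : IntermediateField k Ω} (F : IntermediateField K Ω) [FiniteDimensional K F] (s : Gal(F/K))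
    (g : Ω ≃ₐ[k] Ω) (h : ∀ x : F, ((s x : F) : Ω) = g (x : Ω)) (A : ValuationSubring Ω)
    (hA : ∀ x, A.valuation (g x) = A.valuation x) : s • plc F A = plc F A := by
  have h1 : ∀ z : 𝓞 F, s • z ∈ plc F A ↔ z ∈ plc F A := by
    intro z
    rw [mem_plc, mem_plc, FR_smul F s g h, hA]
  ext z
  rw [Ideal.mem_pointwise_smul_iff_inv_smul_mem, ← h1 (s⁻¹ • z), smul_inv_smul]

theorem exists_frob (K : IntermediateField k Ω) [FiniteDimensional k K] (A : ValuationSubring Ω)
    (q : ℕ) (hq : q.Prime) (hA : A.valuation (q : Ω) < 1) :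
    ∃ Q : ℕ, 2 ≤ Q ∧
      ((∀ x ∈ K, A.valuation x ≤ 1 → ∃ m : ℤ, A.valuation (x - m) < 1) → Q = q) ∧
      ∀ F : IntermediateField k Ω, K ≤ F → FiniteDimensional k F →
        (∀ g ∈ K.fixingSubgroup, ∀ x ∈ F, g x ∈ F) →
        ∃ φ ∈ K.fixingSubgroup, Frob A F Q φ ∧
          ∀ g ∈ K.fixingSubgroup, (∀ x, A.valuation (g x) = A.valuation x) →
            ∃ j : ℕ, Inert A F (g⁻¹ * φ ^ j) := by
  have hKn : NumberField K := FR_numberField K
  have hv0 : plc K A ≠ ⊥ := plc_ne_bot K hq.ne_zero hA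
  refine ⟨Nat.card (𝓞 K ⧸ plc K A), FR_card _ hv0, fun h => ?_, ?_⟩
  · refine FR_card_eq _ hq (natCast_mem_plc K hA) fun z => ?_
    obtain ⟨m, hm⟩ := h ((z : K) : Ω) (z : K).2 (FR_le_one A (FR_isIntegral K z))
    refine ⟨m, ?_⟩
    rw [mem_plc]
    simpa using hm
  intro F0 hKF hF0 hst
  have hfin := FR_fin K F0 hKF
  have hgal := FR_galois K F0 hKF hst
  set F : IntermediateField K Ω := IntermediateField.extendScalars hKF with hFdef
  have hFn : NumberField F := FR_numberField F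
  have hW0 : plc F A ≠ ⊥ := plc_ne_bot F hq.ne_zero hA
  have hl : (plc F A).LiesOver (plc K A) := FR_under K F A
  have hWf : Finite (𝓞 F ⧸ plc F A) := Ideal.finiteQuotientOfFreeOfNeBot _ hW0
  obtain ⟨s, hs⟩ := IsArithFrobAt.exists_of_isInvariant (𝓞 K) Gal(F/K) (plc F A)
  obtain ⟨φ, hφ, hφs⟩ := FR_lift F s
  have hφs' : ∀ x : F, ((s x : F) : Ω) = φ (x : Ω) := fun x => (hφs x).symm
  have hfr : ∀ x ∈ F0, A.valuation x ≤ 1 → ∃ a c : 𝓞 F, A.valuation ((c : F) : Ω) = 1 ∧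
      x = ((a : F) : Ω) / ((c : F) : Ω) := by
    intro x hx hvx
    obtain ⟨a, c, hc, h⟩ := frac_rep_int F A q hq hA (x := ⟨x, hx⟩) hvx
    have hc1 := not_mem_plc.1 hc
    refine ⟨a, c, hc1, ?_⟩
    have hc0 : ((c : F) : Ω) ≠ 0 := by
      intro h0
      rw [h0, map_zero] at hc1
      exact zero_ne_one hc1
    rw [eq_div_iff hc0]
    have := congrArg (fun z : F => (z : Ω)) h
    simpa using this
  refine ⟨φ, hφ, ?_, ?_⟩
  · intro x hx hvx
    obtain ⟨a, c, hc, rfl⟩ := hfr x hx hvx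
    have key : ∀ z : 𝓞 F, A.valuation (φ ((z : F) : Ω) - ((z : F) : Ω) ^ Nat.card (𝓞 K ⧸ plc K A)) < 1 := by
      intro z
      have h1 := hs z
      rw [← hl.over] at h1
      have h2 := mem_plc.1 h1
      have e : (((MulSemiringAction.toAlgHom (𝓞 K) (𝓞 F) s z - z ^ Nat.card (𝓞 K ⧸ plc K A) : 𝓞 F) : F) : Ω) =
          φ ((z : F) : Ω) - ((z : F) : Ω) ^ Nat.card (𝓞 K ⧸ plc K A) := by
        rw [← FR_smul F s φ hφs' z]
        simp
      rwa [e] at h2
    rw [map_div₀, div_pow]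
    refine FR_div_congr A (key a) (key c) ?_ ?_
    · rw [map_pow]
      exact pow_le_one' (FR_le_one A (FR_isIntegral F a)) _
    · rw [map_pow, hc, one_pow]
  · intro g hg hgA
    obtain ⟨t, ht⟩ := FR_restr F g hg
    obtain ⟨j, hj⟩ := FR_pow (plc K A) hv0 (plc F A) hW0 s hs t (FR_smul_plc F t g ht A hgA)
    refine ⟨j, fun x hx hvx => ?_⟩
    obtain ⟨a, c, hc, rfl⟩ := hfr x hx hvx
    have hpow : ∀ (n : ℕ) (x : F), (((s ^ n) x : F) : Ω) = (φ ^ n) (x : Ω) := by
      intro n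
      induction n with
      | zero => intro x; rfl
      | succ n ih =>
        intro x
        rw [pow_succ, pow_succ, AlgEquiv.mul_apply, AlgEquiv.mul_apply, ih, hφs']
    have key : ∀ z : 𝓞 F, A.valuation ((φ ^ j) ((z : F) : Ω) - g ((z : F) : Ω)) < 1 := by
      intro z
      have h2 := mem_plc.1 (hj z)
      rw [← FR_smul F (s ^ j) (φ ^ j) (hpow j) z, ← FR_smul F t g ht z]
      simpa using h2
    have h3 : A.valuation ((φ ^ j) (((a : F) : Ω) / ((c : F) : Ω)) - g (((a : F) : Ω) / ((c : F) : Ω))) < 1 := by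
      rw [map_div₀, map_div₀]
      refine FR_div_congr A (key a) (key c) ?_ ?_
      · rw [hgA]
        exact FR_le_one A (FR_isIntegral F a)
      · rw [hgA, hc]
    rw [← hgA]
    rw [map_sub, AlgEquiv.mul_apply]
    have e : g (g⁻¹ ((φ ^ j) (((a : F) : Ω) / ((c : F) : Ω)))) = (φ ^ j) (((a : F) : Ω) / ((c : F) : Ω)) :=
      g.apply_symm_apply _
    rw [e]
    exact h3

end H16C
end

-- from Lib.H35T.Defs
section

/-!
# H35T: definitions

The 3-part of the Birch and Swinnerton-Dyer conjecture for y^2 = x^3 - 1 over 3-extensions of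
the field of cube roots of unity. See PROOF.md.
-/

open NumberField IsDedekindDomain Polynomial

namespace H35T

open H55B


/-- Good primes of the Eisenstein integers: not above 2 or 3, and -1 is not a square modulo v. -/
def Good (v : HeightOneSpectrum O) : Prop :=
  (2 : O) ∉ v.asIdeal ∧ (3 : O) ∉ v.asIdeal ∧ ¬ ∃ x : O, x ^ 2 + 1 ∈ v.asIdeal






/-- Good moduli (units allowed). -/
def GoodMod (α : O) : Prop :=
  Squarefree α ∧ ∀ v : HeightOneSpectrum O, α ∈ v.asIdeal → Good v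


/-- z is a 3-adic unit: a unit for all valuations of the complex numbers above 3. -/
def Unit3 (z : ℂ) : Prop := ∀ A : ValuationSubring ℂ, A.valuation 3 < 1 → A.valuation z = 1

/-- Twice the area of a period parallelogram. -/
noncomputable def Om (L : PeriodPair) : ℝ := 2 * |L.ω₁.re * L.ω₂.im - L.ω₁.im * L.ω₂.re|




/-! ## Auxiliary definitions (not used in the statement of the theorem) -/

/-- Multiplicative functions modulo α, invariant under units, with values roots of unity of 3-power order. -/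
structure Chr (α : O) (f : O → ℂ) : Prop where
  per : ∀ x y, f (x + α * y) = f x
  mul : ∀ x y, f (x * y) = f x * f y
  neg : ∀ x, f (-x) = f x
  om : ∀ x, f (om * x) = f x
  root : ∃ k : ℕ, ∀ x, IsCoprime x α → f x ^ (3 ^ k) = 1
  zero : ∀ x, ¬ IsCoprime x α → f x = 0

open Classical in
/-- The cubic residue class modulo 2, as a root of unity. -/
noncomputable def kap (x : O) : O :=
  if (2 : O) ∣ x - 1 then 1 else if (2 : O) ∣ x - om then om else
    if (2 : O) ∣ x - om ^ 2 then om ^ 2 else 0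

/-- The character of E144: the quadratic character modulo 4 of the norm times the cubic class modulo 2. -/
noncomputable def eta (x : O) : O := ((ZMod.χ₄ (Nm x : ZMod 4) : ℤ) : O) * kap x




/-- The Selmer conditions on an element m of N: the norm is a cube, the valuations are divisible by 3,
and a congruence condition above 3. -/
structure Cond (K N : Type) [Field K] [NumberField K] [Field N] [NumberField N] [Algebra K N]
    (T : N ≃+* N) (m : N) : Prop where
  ne : m ≠ 0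
  norm : ∃ n : K, n ≠ 0 ∧ m * T m = algebraMap K N n ^ 3
  val : ∀ P : HeightOneSpectrum (𝓞 N), ∃ k : ℤ, P.valuation N m = WithZero.exp (3 * k)
  three : ∀ P : HeightOneSpectrum (𝓞 N), (3 : 𝓞 N) ∈ P.asIdeal →
    ∃ b : N, b ≠ 0 ∧ P.valuation N (m / b ^ 3 - 1) ≤ P.valuation N 3

end H35T
end

-- from Lib.H35T.Defs2
section

open NumberField IsDedekindDomain

namespace H35T

open H55B

/-- Admissible elements: congruent to 1 modulo 3(om - 1), and every prime dividing a is good. -/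
def Adm (a : O) : Prop :=
  (3 * (om - 1) : O) ∣ a - 1 ∧ ∀ v : HeightOneSpectrum O, a ∈ v.asIdeal → Good v

open Classical in
/-- The cubic residue symbol at a prime ideal not above 3, with values 0, 1, om, om^2. -/
noncomputable def sym3 (v : HeightOneSpectrum O) (x : O) : O :=
  if x ∈ v.asIdeal then 0 else
    if x ^ ((Ideal.absNorm v.asIdeal - 1) / 3) - 1 ∈ v.asIdeal then 1 else
      if x ^ ((Ideal.absNorm v.asIdeal - 1) / 3) - om ∈ v.asIdeal then om else om ^ 2

/-- The cubic symbol of a product of primes. -/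
noncomputable def jac3 (l : Multiset (HeightOneSpectrum O)) (x : O) : O := (l.map fun v => sym3 v x).prod

end H35T
end

-- from Lib.H35T.L5
section

open NumberField IsDedekindDomain

namespace H35T

open H55B

/-! Chunk L5 (M): the character eta. O/2 has four elements 0, 1, om, om^2 (exists_repr, parity of the coefficients), kap is the multiplicative
map O -> {0, 1, om, om^2} with 2 | x - kap x. Nm mod 4: Nm (a + b om) = a^2 - a b + b^2 (Nm_repr) is multiplicative (Nm_mul) and only depends on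
a, b mod 4; it is odd iff a, b are not both even iff x is coprime to 2 (two_prime). chi4 is a multiplicative character (ZMod.χ₄). -/

theorem L5_two_dvd (a b : ℤ) : (2 : O) ∣ (a : O) + b * om ↔ 2 ∣ a ∧ 2 ∣ b := by
  constructor
  · rintro ⟨c, hc⟩
    obtain ⟨u, v, rfl⟩ := exists_repr c
    have h1 : (a : O) + b * om = ((2 * u : ℤ) : O) + ((2 * v : ℤ) : O) * om := by
      rw [hc]; push_cast; ring
    obtain ⟨h2, h3⟩ := repr_unique h1
    exact ⟨⟨u, h2⟩, ⟨v, h3⟩⟩
  · rintro ⟨⟨u, rfl⟩, ⟨v, rfl⟩⟩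
    exact ⟨u + v * om, by push_cast; ring⟩

theorem L5_om_sq : om ^ 2 = -1 - om := by
  linear_combination om_rel

theorem L5_om_cube : om ^ 3 = 1 := by
  linear_combination (om - 1) * om_rel

theorem L5_cls {z : O} (hz : z = 0 ∨ z = 1 ∨ z = om ∨ z = om ^ 2) :
    ∃ a b : ℤ, z = (a : O) + b * om ∧ ((a = 0 ∧ b = 0) ∨ (a = 1 ∧ b = 0) ∨ (a = 0 ∧ b = 1) ∨
      (a = -1 ∧ b = -1)) := by
  rcases hz with rfl | rfl | rfl | rfl
  · exact ⟨0, 0, by push_cast; ring, Or.inl ⟨rfl, rfl⟩⟩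
  · exact ⟨1, 0, by push_cast; ring, Or.inr (Or.inl ⟨rfl, rfl⟩)⟩
  · exact ⟨0, 1, by push_cast; ring, Or.inr (Or.inr (Or.inl ⟨rfl, rfl⟩))⟩
  · exact ⟨-1, -1, by rw [L5_om_sq]; push_cast; ring, Or.inr (Or.inr (Or.inr ⟨rfl, rfl⟩))⟩

theorem L5_uniq {z z' : O} (hz : z = 0 ∨ z = 1 ∨ z = om ∨ z = om ^ 2)
    (hz' : z' = 0 ∨ z' = 1 ∨ z' = om ∨ z' = om ^ 2) (h : (2 : O) ∣ z - z') : z = z' := by
  obtain ⟨a, b, rfl, h1⟩ := L5_cls hz
  obtain ⟨c, d, rfl, h2⟩ := L5_cls hz'
  have h3 : (a : O) + b * om - (c + d * om) = ((a - c : ℤ) : O) + ((b - d : ℤ) : O) * om := by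
    push_cast; ring
  rw [h3, L5_two_dvd] at h
  obtain ⟨⟨u, hu⟩, ⟨v, hv⟩⟩ := h
  have h4 : a = c ∧ b = d := by omega
  rw [h4.1, h4.2]

theorem kap_spec (x : O) : (2 : O) ∣ x - kap x ∧ (kap x = 0 ∨ kap x = 1 ∨ kap x = om ∨ kap x = om ^ 2) := by
  unfold kap
  split_ifs with h1 h2 h3
  · exact ⟨h1, Or.inr (Or.inl rfl)⟩
  · exact ⟨h2, Or.inr (Or.inr (Or.inl rfl))⟩
  · exact ⟨h3, Or.inr (Or.inr (Or.inr rfl))⟩
  · refine ⟨?_, Or.inl rfl⟩
    obtain ⟨a, b, rfl⟩ := exists_repr x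
    have e1 : (a : O) + b * om - 1 = ((a - 1 : ℤ) : O) + (b : ℤ) * om := by push_cast; ring
    have e2 : (a : O) + b * om - om = ((a : ℤ) : O) + ((b - 1 : ℤ) : O) * om := by push_cast; ring
    have e3 : (a : O) + b * om - om ^ 2 = ((a + 1 : ℤ) : O) + ((b + 1 : ℤ) : O) * om := by
      rw [L5_om_sq]; push_cast; ring
    rw [e1, L5_two_dvd] at h1
    rw [e2, L5_two_dvd] at h2
    rw [e3, L5_two_dvd] at h3
    rw [sub_zero, L5_two_dvd]
    omega

theorem kap_uniq (x : O) {z : O} (hz : z = 0 ∨ z = 1 ∨ z = om ∨ z = om ^ 2) (h : (2 : O) ∣ x - z) :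
    kap x = z := by
  obtain ⟨h1, h2⟩ := kap_spec x
  refine L5_uniq h2 hz ?_
  have h3 : kap x - z = (x - z) - (x - kap x) := by ring
  rw [h3]
  exact dvd_sub h h1

theorem kap_mul (x y : O) : kap (x * y) = kap x * kap y := by
  obtain ⟨h1, h2⟩ := kap_spec x
  obtain ⟨h3, h4⟩ := kap_spec y
  refine kap_uniq _ ?_ ?_
  · have h5 := L5_om_cube
    have e1 : om * om = om ^ 2 := by ring
    have e2 : om * om ^ 2 = 1 := by linear_combination h5
    have e3 : om ^ 2 * om = 1 := by linear_combination h5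
    have e4 : om ^ 2 * om ^ 2 = om := by linear_combination om * h5
    rcases h2 with h2 | h2 | h2 | h2 <;> rcases h4 with h4 | h4 | h4 | h4 <;> rw [h2, h4] <;>
      simp only [zero_mul, mul_zero, one_mul, mul_one, e1, e2, e3, e4, true_or, or_true]
  · have h5 : x * y - kap x * kap y = (x - kap x) * y + kap x * (y - kap y) := by ring
    rw [h5]
    exact dvd_add (Dvd.dvd.mul_right h1 _) (Dvd.dvd.mul_left h3 _)


theorem kap_one (x : O) : kap x = 1 ↔ (2 : O) ∣ x - 1 := by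
  constructor
  · intro h
    have h1 := (kap_spec x).1
    rwa [h] at h1
  · intro h
    exact kap_uniq x (Or.inr (Or.inl rfl)) h




















end H35T
end

-- from Lib.H35T.L3
section

open NumberField IsDedekindDomain

namespace H35T

open H55B

/-! Chunk L3 (M): dynamics of multiplication by the square root of -3, and its 3-adic consequences. Compare H55B.D1.
dyn3: x = x i, x' = x (f i), t = 4 x^3 - 1, t' = 4 x'^3 - 1. x is nonzero (else 0 = 1). From 3 x^2 x' = 1 - x^3: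
27 (t + 1)^2 t' = -t (t + 9)^2 (check: 27 (4x^3)^2 (4x'^3 - 1) = 64 (1 - x^3)^3 - 432 x^6 = -16 (4x^3 - 1)(x^3 + 2)^2).
Choose i with v(t i) maximal (finite) and suppose v(t)^2 > v(27). Put e = v(27) < 1, v(9) < 1. Claim v(t') > v(t), a contradiction.
v(t) > 1: v(t + 1) = v(t + 9) = v(t), v(t') = v(t)/e > v(t). v(t) = 1 and v(t + 1) < 1: v(t + 9) = 1, v(t') = 1/(e v(t+1)^2) > 1 (t + 1 is
nonzero). v(t) = 1, v(t + 1) = 1: v(t + 9) = 1: v(t') = 1/e > 1. v(t) < 1: v(t + 1) = 1; v(t) > v(9) because v(9)^2 = v(81) < v(27) < v(t)^2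
(v(81) <= v(27)), so v(t + 9) = v(t), v(t') = v(t)^3/e > v(t).
near: v(27) < 1 so v(4x^3 - 1) < 1, v(4) = v(3 + 1) = 1, v(x)^3 = 1, v(x) = 1; the same for r (4 r^3 = 1). s^2 = -3: v(27) = v(s)^6, so
v(4x^3 - 1) <= v(s)^3. 4x^3 - 1 = 4 (x - r)(x - w r)(x - w^2 r) with w = e om, 1 - w and 1 - w^2 of value v(s) (s = 2w + 1 = -w^2 (1 - w)...: s
times a unit). If v(x - r) > v(s) then the three factors have value v(x - r) and the product is > v(s)^3. -/

theorem L3_lt {Γ : Type*} [LinearOrderedCommGroupWithZero Γ] {a b c : Γ} (ha : a < 1) (hb : 0 < b)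
    (h : c ≤ b) : a * c < b := by
  calc a * c ≤ a * b := mul_le_mul_right h _
    _ < 1 * b := mul_lt_mul_of_pos_right ha hb
    _ = b := one_mul _









/-- v(n) = 1 for natural numbers n prime to 3 (Bezout: a n + b 3 = 1), v(e x) = 1 if Nm x is prime to 3 (e x * e (cj x) = Nm x, val_e_le). -/
theorem val_nat (A : ValuationSubring ℂ) (h3 : A.valuation 3 < 1) (n : ℕ) (hn : ¬ 3 ∣ n) :
    A.valuation (n : ℂ) = 1 := by
  have hle : ∀ m : ℤ, A.valuation (m : ℂ) ≤ 1 := by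
    intro m
    rw [ValuationSubring.valuation_le_one_iff]
    exact intCast_mem A m
  by_contra hcon
  have h1 : A.valuation (n : ℂ) < 1 := lt_of_le_of_ne (by simpa using hle n) hcon
  have hc : IsCoprime (n : ℤ) (3 : ℤ) := by
    have h2 : Nat.Coprime n 3 := ((Nat.Prime.coprime_iff_not_dvd Nat.prime_three).mpr hn).symm
    exact_mod_cast Nat.isCoprime_iff_coprime.mpr h2
  obtain ⟨a, b, hab⟩ := hc
  have h2 : (a : ℂ) * (n : ℂ) + (b : ℂ) * 3 = 1 := by exact_mod_cast hab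
  have h4 : A.valuation ((a : ℂ) * (n : ℂ) + (b : ℂ) * 3) < 1 := by
    apply Valuation.map_add_lt
    · rw [map_mul]
      rw [mul_comm]
      exact L3_lt h1 zero_lt_one (hle a)
    · rw [map_mul]
      rw [mul_comm]
      exact L3_lt h3 zero_lt_one (hle b)
  rw [h2, map_one] at h4
  exact lt_irrefl _ h4



end H35T
end

-- from Lib.H55P.S1
section

open NumberField IsDedekindDomain WeierstrassCurve

namespace H55P

variable {F : Type} [Field F] {Ω : Type} [Field Ω] [DecidableEq Ω] [Algebra F Ω]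

/-! Chunk PS1 (S/M). Elementary facts on the action, inertia and decomposition.
acR: ac W s = Affine.Point.map, map_map, map_id. inert_dec: x in V implies s x in V (s x - x in V). If s x in V but x not in V, then x⁻¹ in V with value < 1, v(s x⁻¹ - x⁻¹) < 1, so v(s x⁻¹) < 1 and s x = (s x⁻¹)⁻¹ has value > 1, contradiction.
inS: closed under products (v(s t x - x) <= max(v(s (t x) - t x), v(t x - x))), inverses by inert_dec. inS_conj: V' = V.comap of the automorphism g (ValuationSubring.comap), valuation < 1 means nonunit of V: see exists_comap in Lib/H16C/VC.lean.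
pt_open: P = 0 or (x, y): L = F(x, y) (IntermediateField.adjoin F {x, y}, finite since algebraic). -/

/-- The action as a homomorphism of monoids. -/
noncomputable def acR (W : WeierstrassCurve F) : (Ω ≃ₐ[F] Ω) →* AddMonoid.End (Pt W Ω) where
  toFun s := ac W s
  map_one' := by
    ext P
    cases P <;> rfl
  map_mul' s t := by
    ext P
    cases P <;> rfl

theorem acR_apply (W : WeierstrassCurve F) (s : Ω ≃ₐ[F] Ω) (P : Pt W Ω) : acR W s P = ac W s P := rfl

theorem lt1_iff (V : ValuationSubring Ω) (x : Ω) : V.valuation x < 1 ↔ x = 0 ∨ x⁻¹ ∉ V := by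
  by_cases hx : x = 0
  · subst hx
    simp
  · have h1 : V.valuation x ≠ 0 := by simpa using hx
    rw [← V.valuation_le_one_iff, map_inv₀]
    constructor
    · intro h
      right
      rw [not_le]
      exact (one_lt_inv₀ (zero_lt_iff.2 h1)).2 h
    · rintro (h | h)
      · exact absurd h hx
      · rw [not_le] at h
        exact (one_lt_inv₀ (zero_lt_iff.2 h1)).1 h

theorem dec_lt1 (V : ValuationSubring Ω) (s : Ω ≃ₐ[F] Ω) (h : Dec V s) (x : Ω) :
    V.valuation (s x) < 1 ↔ V.valuation x < 1 := by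
  rw [lt1_iff, lt1_iff, ← map_inv₀, h x⁻¹]
  simp

theorem inert_dec (V : ValuationSubring Ω) (s : Ω ≃ₐ[F] Ω) (h : Inert V s) : Dec V s := by
  have key : ∀ x ∈ V, s x ∈ V := by
    intro x hx
    have h1 : s x - x ∈ V := by
      rw [← V.valuation_le_one_iff]
      exact (h x hx).le
    have := V.add_mem _ _ h1 hx
    simpa using this
  intro x
  refine ⟨fun hs => ?_, key x⟩
  by_contra hx
  have hx0 : x ≠ 0 := by
    rintro rfl
    exact hx V.zero_mem
  have hi : V.valuation x⁻¹ < 1 := by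
    rw [lt1_iff, inv_inv]
    exact Or.inr hx
  have hi' : x⁻¹ ∈ V := by
    rw [← V.valuation_le_one_iff]
    exact hi.le
  have h2 := h _ hi'
  have h3 : V.valuation (s x⁻¹) < 1 := by
    have : s x⁻¹ = (s x⁻¹ - x⁻¹) + x⁻¹ := by ring
    rw [this]
    exact lt_of_le_of_lt (V.valuation.map_add _ _) (max_lt h2 hi)
  rw [lt1_iff, map_inv₀, inv_inv] at h3
  rcases h3 with h3 | h3
  · simp [hx0] at h3
  · exact h3 hs

/-- The inertia group. -/
def inS (F : Type) [Field F] {Ω : Type} [Field Ω] [Algebra F Ω] (V : ValuationSubring Ω) :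
    Subgroup (Ω ≃ₐ[F] Ω) where
  carrier := {s | Inert V s}
  one_mem' := by
    intro x _
    simp
  mul_mem' := by
    intro s t hs ht x hx
    have h1 : (s * t) x - x = (s (t x) - t x) + (t x - x) := by
      rw [AlgEquiv.mul_apply]
      ring
    rw [h1]
    classical
    exact lt_of_le_of_lt (V.valuation.map_add _ _) (max_lt (hs _ ((inert_dec V t ht x).2 hx)) (ht x hx))
  inv_mem' := by
    intro s hs x hx
    classical
    have hy : s⁻¹ x ∈ V := by
      rw [← inert_dec V s hs]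
      have : s (s⁻¹ x) = x := s.apply_symm_apply x
      rwa [this]
    have h1 := hs _ hy
    have h2 : s (s⁻¹ x) = x := s.apply_symm_apply x
    rw [h2, ← Valuation.map_neg] at h1
    have h3 : -(x - s⁻¹ x) = s⁻¹ x - x := by ring
    rwa [h3] at h1

/-- The decomposition group. -/
def decS (F : Type) [Field F] {Ω : Type} [Field Ω] [Algebra F Ω] (V : ValuationSubring Ω) :
    Subgroup (Ω ≃ₐ[F] Ω) where
  carrier := {s | Dec V s}
  one_mem' := by
    intro x
    rfl
  mul_mem' := by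
    intro s t hs ht x
    rw [AlgEquiv.mul_apply, hs, ht]
  inv_mem' := by
    intro s hs x
    have h2 : s (s⁻¹ x) = x := s.apply_symm_apply x
    rw [← hs (s⁻¹ x), h2]

theorem mem_inS (V : ValuationSubring Ω) (s : Ω ≃ₐ[F] Ω) : s ∈ inS F V ↔ Inert V s := Iff.rfl

theorem mem_decS (V : ValuationSubring Ω) (s : Ω ≃ₐ[F] Ω) : s ∈ decS F V ↔ Dec V s := Iff.rfl

theorem inS_conj (V : ValuationSubring Ω) (g : Ω ≃ₐ[F] Ω) : ∃ V' : ValuationSubring Ω,
    ∀ s, s ∈ inS F V' ↔ g * s * g⁻¹ ∈ inS F V := by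
  refine ⟨V.comap (g : Ω →+* Ω), fun s => ?_⟩
  have hm : ∀ x, x ∈ V.comap (g : Ω →+* Ω) ↔ g x ∈ V := fun x => ValuationSubring.mem_comap
  have hlt : ∀ x, (V.comap (g : Ω →+* Ω)).valuation x < 1 ↔ V.valuation (g x) < 1 := by
    intro x
    rw [lt1_iff, lt1_iff, hm, map_inv₀]
    simp
  rw [mem_inS, mem_inS]
  constructor
  · intro h x hx
    have h2 : g (g⁻¹ x) = x := g.apply_symm_apply x
    have h1 := h (g⁻¹ x) ((hm _).2 (by rwa [h2]))
    rw [hlt, map_sub, h2] at h1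
    exact h1
  · intro h x hx
    have h1 := h (g x) ((hm _).1 hx)
    have h2 : g⁻¹ (g x) = x := g.symm_apply_apply x
    rw [AlgEquiv.mul_apply, AlgEquiv.mul_apply, h2] at h1
    rw [hlt, map_sub]
    exact h1

theorem inS_dec (V : ValuationSubring Ω) (φ : Ω ≃ₐ[F] Ω) (hφ : φ ∈ decS F V) (s : Ω ≃ₐ[F] Ω)
    (hs : s ∈ inS F V) : φ * s * φ⁻¹ ∈ inS F V := by
  intro x hx
  have h2 : φ (φ⁻¹ x) = x := φ.apply_symm_apply x
  have hy : φ⁻¹ x ∈ V := by
    rw [← hφ (φ⁻¹ x), h2]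
    exact hx
  have h1 := hs _ hy
  rw [← dec_lt1 V φ hφ, map_sub, h2] at h1
  exact h1

theorem pt_open [Algebra.IsAlgebraic F Ω] (W : WeierstrassCurve F) (P : Pt W Ω) :
    ∃ L : IntermediateField F Ω, FiniteDimensional F L ∧ ∀ s ∈ L.fixingSubgroup, ac W s P = P := by
  cases P with
  | zero => exact ⟨⊥, inferInstance, fun s _ => rfl⟩
  | some x y h =>
    refine ⟨IntermediateField.adjoin F {x, y}, ?_, ?_⟩
    · exact IntermediateField.finiteDimensional_adjoin_pair (Algebra.IsIntegral.isIntegral x)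
        (Algebra.IsIntegral.isIntegral y)
    · intro s hs
      rw [IntermediateField.mem_fixingSubgroup_iff] at hs
      have hx : s x = x := hs x (IntermediateField.subset_adjoin F _ (by simp))
      have hy : s y = y := hs y (IntermediateField.subset_adjoin F _ (by simp))
      have : ac W s (Affine.Point.some x y h) = Affine.Point.some (s x) (s y)
          ((Affine.baseChange_nonsingular _ s.toAlgHom.injective ..).mpr h) := rfl
      rw [this]
      simp only [hx, hy]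

end H55P
end

-- from Lib.H35T.E1
section

open NumberField IsDedekindDomain

namespace H35T

open H55B


private lemma E1_cube_cases {R : Type*} [CommRing R] [IsDomain R] {w z : R} (hw : w ^ 2 + w + 1 = 0)
    (hz : z ^ 3 = 1) : z = 1 ∨ z = w ∨ z = w ^ 2 := by
  have h : (z - 1) * ((z - w) * (z - w ^ 2)) = 0 := by
    have hw3 : w ^ 3 = 1 := by linear_combination (w - 1) * hw
    linear_combination hz - (z ^ 2 - z) * hw - hw3 * (1 - z)
  rcases mul_eq_zero.mp h with h | h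
  · left; exact sub_eq_zero.mp h
  rcases mul_eq_zero.mp h with h | h
  · right; left; exact sub_eq_zero.mp h
  · right; right; exact sub_eq_zero.mp h

section
variable {k : Type*} [Field k] (φ : O →+* k)

private lemma E1_w_rel : (φ om) ^ 2 + φ om + 1 = 0 := by
  have h := congrArg φ om_rel
  simpa using h

private lemma E1_w_ne_one (h3 : φ 3 ≠ 0) : φ om ≠ 1 := by
  intro h
  apply h3
  have h1 := E1_w_rel φ
  rw [h] at h1
  rw [map_ofNat]
  linear_combination h1


end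

section E1
variable (k : Type*) [Field k] [Fintype k]

open Classical in
theorem E1_cnt (φ : O →+* k) (h3 : φ 3 ≠ 0) (χ : MulChar k O) (hχ3 : χ ^ 3 = 1)
    (h3c : 3 ∣ Fintype.card k - 1) (hφ : ∀ x : k, φ (χ x) = x ^ ((Fintype.card k - 1) / 3))
    (c : k) : ∑ x : k, (if c = x ^ 3 then (1 : O) else 0) = 1 + χ c + χ c ^ 2 := by
  have hw := E1_w_rel φ
  have hw1 := E1_w_ne_one φ h3
  have hw0 : φ om ≠ 0 := by
    intro h; rw [h] at hw; simp at hw
  have hw3 : (φ om) ^ 3 = 1 := by linear_combination (φ om - 1) * hw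
  obtain ⟨m, hm⟩ := h3c
  have hm' : (Fintype.card k - 1) / 3 = m := by omega
  have hcard : 1 < Fintype.card k := Fintype.one_lt_card
  have hmpos : 0 < m := by omega
  have hχ0 : χ 0 = 0 := MulChar.map_zero χ
  have hφχ : ∀ x : k, φ (χ x) = x ^ m := by
    intro x
    rw [hφ, hm']
  have hχc : ∀ x : k, x ≠ 0 → χ x ^ 3 = 1 := by
    intro x hx
    have h : (χ ^ 3) x = (1 : MulChar k O) x := by rw [hχ3]
    rw [MulChar.pow_apply' χ (by norm_num : (3 : ℕ) ≠ 0),
      MulChar.one_apply (isUnit_iff_ne_zero.2 hx)] at h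
    exact h
  -- cubes
  have hcube : ∀ c : k, c ≠ 0 → c ^ m = 1 → ∃ x, c = x ^ 3 := by
    intro c hc hcm
    obtain ⟨g, hg⟩ := IsCyclic.exists_generator (α := kˣ)
    obtain ⟨j, hj⟩ := (mem_powers_iff_mem_zpowers.mpr (hg (Units.mk0 c hc)))
    have hj' : (g : k) ^ j = c := by
      have := congrArg Units.val hj
      simpa using this
    have h1 : g ^ (j * m) = 1 := by
      apply Units.ext
      rw [Units.val_pow_eq_pow_val, pow_mul, hj', hcm, Units.val_one]
    have h2 : orderOf g = Fintype.card k - 1 := by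
      rw [orderOf_eq_card_of_forall_mem_zpowers hg, Nat.card_eq_fintype_card, Fintype.card_units]
    have h3 := orderOf_dvd_of_pow_eq_one h1
    rw [h2, hm] at h3
    obtain ⟨i, hi⟩ := Nat.dvd_of_mul_dvd_mul_right hmpos h3
    refine ⟨(g : k) ^ i, ?_⟩
    rw [← hj', hi, ← pow_mul, mul_comm]
  have hcnt : ∀ c : k, ∑ x : k, (if c = x ^ 3 then (1 : O) else 0) = 1 + χ c + χ c ^ 2 := by
    intro c
    by_cases hc : c = 0
    · subst hc
      rw [hχ0]
      have : ∀ x : k, (if (0 : k) = x ^ 3 then (1 : O) else 0) = if x = 0 then 1 else 0 := by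
        intro x
        by_cases hx : x = 0
        · simp [hx]
        · have : (0 : k) ≠ x ^ 3 := (pow_ne_zero 3 hx).symm
          simp [hx, this]
      simp [this]
    · by_cases hex : ∃ x, c = x ^ 3
      · obtain ⟨x0, hx0⟩ := hex
        have hx00 : x0 ≠ 0 := by
          rintro rfl
          apply hc; rw [hx0]; simp
        have hχc1 : χ c = 1 := by
          rw [hx0, map_pow, hχc x0 hx00]
        have hfil : (Finset.univ.filter fun x : k => c = x ^ 3) =
            {x0, φ om * x0, (φ om) ^ 2 * x0} := by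
          ext x
          simp only [Finset.mem_filter, Finset.mem_univ, true_and, Finset.mem_insert,
            Finset.mem_singleton]
          constructor
          · intro hx
            have h1 : (x / x0) ^ 3 = 1 := by
              rw [div_pow, ← hx, ← hx0, div_self hc]
            rcases E1_cube_cases hw h1 with h | h | h
            · left
              rw [div_eq_iff hx00, one_mul] at h; exact h
            · right; left
              rw [div_eq_iff hx00] at h; exact h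
            · right; right
              rw [div_eq_iff hx00] at h; exact h
          · rintro (h | h | h)
            · rw [h, hx0]
            · rw [h, mul_pow, hw3, one_mul, hx0]
            · rw [h, mul_pow, ← pow_mul, mul_comm 2 3, pow_mul, hw3, one_pow, one_mul, hx0]
        have hw2 : (φ om) ^ 2 ≠ 1 := by
          intro h
          apply hw1
          calc φ om = φ om * (φ om) ^ 2 := by rw [h, mul_one]
            _ = (φ om) ^ 3 := by ring
            _ = 1 := hw3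
        have hw12 : (φ om) ≠ φ om ^ 2 := by
          intro h
          apply hw1
          have : φ om * (φ om - 1) = 0 := by linear_combination -h
          rcases mul_eq_zero.mp this with h | h
          · exact absurd h hw0
          · exact sub_eq_zero.mp h
        have hcard3 : ({x0, φ om * x0, (φ om) ^ 2 * x0} : Finset k).card = 3 := by
          apply Finset.card_eq_three.mpr
          refine ⟨_, _, _, ?_, ?_, ?_, rfl⟩
          · intro h
            apply hw1
            exact (mul_right_cancel₀ hx00 (by rw [one_mul]; exact h)).symm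
          · intro h
            apply hw2
            exact (mul_right_cancel₀ hx00 (by rw [one_mul]; exact h)).symm
          · intro h
            exact hw12 (mul_right_cancel₀ hx00 h)
        rw [Finset.sum_ite, Finset.sum_const_zero, add_zero, Finset.sum_const, hfil, hcard3, hχc1]
        norm_num
      · have h1 : ∑ x : k, (if c = x ^ 3 then (1 : O) else 0) = 0 := by
          apply Finset.sum_eq_zero
          intro x _
          rw [if_neg]
          intro h
          exact hex ⟨x, h⟩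
        rw [h1]
        have h2 : χ c ≠ 1 := by
          intro h
          apply hex
          apply hcube c hc
          rw [← hφχ, h, map_one]
        have h3 : (χ c - 1) * (1 + χ c + χ c ^ 2) = 0 := by
          linear_combination hχc c hc
        rcases mul_eq_zero.mp h3 with h | h
        · exact absurd (sub_eq_zero.mp h) h2
        · exact h.symm
  exact hcnt c

theorem E1_J (h2 : (2 : k) ≠ 0) (χ : MulChar k O) :
    χ 4 * jacobiSum χ χ = ∑ z : k, χ (1 - z ^ 2) := by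
  unfold jacobiSum
  rw [Finset.mul_sum]
  refine Fintype.sum_bijective (fun a : k => 2 * a - 1) ?_ _ _ ?_
  · constructor
    · intro a b hab
      have h : (2 : k) * a = 2 * b := by
        have : 2 * a - 1 = 2 * b - 1 := hab
        linear_combination this
      exact mul_left_cancel₀ h2 h
    · intro z
      refine ⟨(z + 1) / 2, ?_⟩
      show 2 * ((z + 1) / 2) - 1 = z
      field_simp
      ring
  · intro a
    rw [← map_mul, ← map_mul]
    congr 1
    ring

open Classical in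
theorem E1_neg (h2 : (2 : k) ≠ 0) (χ : MulChar k O) (hχ : χ ≠ 1) (hs : ¬ IsSquare (-1 : k)) :
    ∑ z : k, χ (1 + z ^ 2) + ∑ z : k, χ (1 - z ^ 2) = 0 := by
  have hchar : ringChar k ≠ 2 := by
    intro h
    apply h2
    have := ringChar.Nat.cast_ringChar (R := k)
    rw [h] at this
    exact_mod_cast this
  have h1 : ∀ f : k → O, ∑ z : k, f (z ^ 2) =
      ∑ u : k, ((quadraticChar k u + 1 : ℤ) : O) * f u := by
    intro f
    rw [← Finset.sum_fiberwise' (Finset.univ : Finset k) (fun z : k => z ^ 2) f]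
    apply Finset.sum_congr rfl
    intro u _
    rw [Finset.sum_const, ← quadraticChar_card_sqrts hchar u, nsmul_eq_mul]
    congr 1
    rw [Int.cast_natCast]
    congr 2
    ext z
    simp
  have e1 := h1 (fun u => χ (1 + u))
  have e2 := h1 (fun u => χ (1 - u))
  rw [e1, e2, ← Equiv.sum_comp (Equiv.neg k) (fun u : k =>
    ((quadraticChar k u + 1 : ℤ) : O) * χ (1 - u)), ← Finset.sum_add_distrib]
  have h4 : ∀ u : k, ((quadraticChar k u + 1 : ℤ) : O) * χ (1 + u) +
      ((quadraticChar k ((Equiv.neg k) u) + 1 : ℤ) : O) * χ (1 - (Equiv.neg k) u) =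
      2 * χ (1 + u) := by
    intro u
    have h5 : (Equiv.neg k) u = (-1) * u := by simp
    have h6 : quadraticChar k (-1) = -1 := by
      rw [quadraticChar_neg_one_iff_not_isSquare]
      exact hs
    rw [h5, map_mul, h6]
    have h7 : (1 : k) - (-1) * u = 1 + u := by ring
    rw [h7]
    push_cast
    ring
  rw [Finset.sum_congr rfl (fun u _ => h4 u), ← Finset.mul_sum]
  have h8 : ∑ u : k, χ (1 + u) = 0 := by
    have h9 := MulChar.sum_eq_zero_of_ne_one hχ
    rw [← Equiv.sum_comp (Equiv.addLeft (1 : k))] at h9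
    simpa using h9
  rw [h8, mul_zero]

end E1

open Classical in
theorem count (k : Type*) [Field k] [Fintype k] (φ : O →+* k) (h3 : φ 3 ≠ 0) (h2 : φ 2 ≠ 0)
    (χ : MulChar k O) (hχ3 : χ ^ 3 = 1) (hχ : χ ≠ 1) (h3c : 3 ∣ Fintype.card k - 1)
    (hφ : ∀ x : k, φ (χ x) = x ^ ((Fintype.card k - 1) / 3)) (hcj : ∀ x : k, cj (χ x) = χ x ^ 2) :
    (Nat.card {p : k × k // p.2 ^ 2 = p.1 ^ 3 - 1} : O) = (Fintype.card k : O) +
      (if IsSquare (-1 : k) then 1 else -1) * (χ 4 * jacobiSum χ χ + cj (χ 4 * jacobiSum χ χ)) := by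
  have h2k : (2 : k) ≠ 0 := by
    rwa [map_ofNat] at h2
  have hS : ∑ y : k, χ (1 + y ^ 2) =
      (if IsSquare (-1 : k) then 1 else -1) * (χ 4 * jacobiSum χ χ) := by
    rw [E1_J k h2k χ]
    split_ifs with hs
    · rw [one_mul]
      obtain ⟨i, hi⟩ := hs
      have hi0 : i ≠ 0 := by
        rintro rfl
        simp at hi
      refine (Fintype.sum_bijective (fun z : k => i * z) ?_ _ _ ?_).symm
      · exact ⟨fun a b hab => mul_left_cancel₀ hi0 hab, fun z => ⟨z / i, by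
          show i * (z / i) = z
          field_simp⟩⟩
      · intro z
        congr 1
        linear_combination (z ^ 2) * hi
    · have h := E1_neg k h2k χ hχ hs
      linear_combination h
  rw [Nat.card_eq_fintype_card, Fintype.card_subtype, Finset.card_filter]
  push_cast
  rw [Fintype.sum_prod_type_right]
  simp only
  have h1 : ∀ y : k, ∑ x : k, (if y ^ 2 = x ^ 3 - 1 then (1 : O) else 0) =
      1 + χ (1 + y ^ 2) + cj (χ (1 + y ^ 2)) := by
    intro y
    rw [hcj, ← E1_cnt k φ h3 χ hχ3 h3c hφ (1 + y ^ 2)]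
    apply Finset.sum_congr rfl
    intro x _
    have h4 : (y ^ 2 = x ^ 3 - 1) ↔ (1 + y ^ 2 = x ^ 3) := by
      constructor
      · intro h
        linear_combination h
      · intro h
        linear_combination h
    simp only [h4]
  rw [Finset.sum_congr rfl (fun y _ => h1 y), Finset.sum_add_distrib, Finset.sum_add_distrib,
    ← map_sum cj, hS]
  have h5 : ∀ z : O, cj ((if IsSquare (-1 : k) then 1 else -1) * z) =
      (if IsSquare (-1 : k) then 1 else -1) * cj z := by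
    intro z
    split_ifs <;> simp
  rw [h5, Finset.sum_const, Finset.card_univ, nsmul_eq_mul, mul_one]
  ring

end H35T
end

-- from Lib.H55P.T11
section

open NumberField IsDedekindDomain

namespace H55P

open H55N
open H55B (g)



/-! Chunk PT11 (M). Tame ramification in a cyclic extension of prime degree p.
PROOF. v is ramified, not above p. e = p, f = 1, one prime W above v; every s in G = Gal(K'/K) fixes W and acts trivially on O'/W (f = 1: O/v -> O'/W is surjective; or inertia group = G as its order is e). Choose Π in W not in W^2. For s in G: s Π in W.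
The quotient W/W^2 is a one-dimensional vector space over k = O'/W; s acts on it k-linearly (s(a x) = s(a) s(x), s(a) = a mod W), by a scalar θ(s) in k^*: s Π = a_s Π mod W^2; θ is a homomorphism from G to k^*. θ is not trivial: otherwise the sum over s in G of s Π, an
element y of 𝓞 K (Algebra.trace / fixed), is p Π modulo W^2, and p is not in W, so y is in W and not in W^2; but y in 𝓞 K and y in W give y in v, and v O' = W^p <= W^2 (p >= 2), contradiction. G has prime order p, so θ is injective, so p divides #k^* = absNorm W - 1 = absNorm v - 1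
(absNorm W = absNorm v^f, f = 1). To avoid W/W^2 one may work with a_s directly: choose a_s in O' with s Π - a_s Π in W^2 (Π generates W modulo W^2: W = (Π) + W^2). -/

section aux

variable {K K' : Type} [Field K] [NumberField K] [Field K'] [NumberField K'] [Algebra K K']
    [IsGalois K K']

open scoped Pointwise

/-- if v is totally ramified, the elements of the Galois group fix the prime above v -/
theorem pt11_stab {v : H55R.Pl K} {W : H55R.Pl K'} (hW : W.under (𝓞 K) = v)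
    (h1 : (v.asIdeal.primesOver (𝓞 K')).ncard = 1) (σ : Gal(K'/K)) :
    σ • W.asIdeal = W.asIdeal := by
  obtain ⟨Q, hQ⟩ := Set.ncard_eq_one.mp h1
  have h2 := H55R.BF2_mem v W hW
  have h3 := H55R.BF2_mem v (H55R.smulP σ W) (by rw [H55R.under_smulP, hW])
  rw [hQ, Set.mem_singleton_iff] at h2 h3
  exact (show σ • W.asIdeal = Q from h3).trans h2.symm

omit [IsGalois K K'] in
theorem pt11_mem {W : H55R.Pl K'} {σ : Gal(K'/K)} (hσ : σ • W.asIdeal = W.asIdeal) {x : 𝓞 K'}
    (hx : x ∈ W.asIdeal) : σ • x ∈ W.asIdeal := by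
  rw [← hσ]
  exact Ideal.smul_mem_pointwise_smul σ x W.asIdeal hx

omit [IsGalois K K'] in
theorem pt11_mem2 {W : H55R.Pl K'} {σ : Gal(K'/K)} (hσ : σ • W.asIdeal = W.asIdeal) {x : 𝓞 K'}
    (hx : x ∈ W.asIdeal ^ 2) : σ • x ∈ W.asIdeal ^ 2 := by
  have h1 : W.asIdeal ^ 2 ≤ (W.asIdeal ^ 2).comap (MulSemiringAction.toRingHom Gal(K'/K) (𝓞 K') σ) := by
    rw [pow_two, Ideal.mul_le]
    intro a ha b hb
    rw [Ideal.mem_comap, map_mul]
    exact Ideal.mul_mem_mul (pt11_mem hσ ha) (pt11_mem hσ hb)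
  exact h1 hx

end aux

open scoped Pointwise

theorem tame_dvd (K K' : Type) [Field K] [NumberField K] [Field K'] [NumberField K'] [Algebra K K']
    [IsGalois K K'] (p : ℕ) (hp : p.Prime) (hn : Module.finrank K K' = p) (v : H55R.Pl K)
    (hv : (p : 𝓞 K) ∉ v.asIdeal) (he : H55R.es K K' v ≠ 1) : p ∣ Ideal.absNorm v.asIdeal - 1 := by
  by_contra hnd
  have hvp := v.isPrime
  have hvm := v.isMaximal
  obtain ⟨W, hW⟩ := H55R.under_exists (L := K') v
  have hWp := W.isPrime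
  have hWm := W.isMaximal
  have hl : W.asIdeal.LiesOver v.asIdeal := (H55R.BF2_mem v W hW).2
  have hcard := Ideal.ncard_primesOver_mul_ramificationIdxIn_mul_inertiaDegIn v.asIdeal (𝓞 K')
    Gal(K'/K)
  rw [IsGalois.card_aut_eq_finrank, hn] at hcard
  have hes : v.asIdeal.ramificationIdxIn (𝓞 K') = p := by
    have h1 : v.asIdeal.ramificationIdxIn (𝓞 K') ∣ p :=
      ⟨(v.asIdeal.primesOver (𝓞 K')).ncard * v.asIdeal.inertiaDegIn (𝓞 K'),
        hcard.symm.trans (by ring)⟩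
    rcases (Nat.dvd_prime hp).1 h1 with h | h
    · exact absurd h he
    · exact h
  rw [hes] at hcard
  have hmul : (v.asIdeal.primesOver (𝓞 K')).ncard * v.asIdeal.inertiaDegIn (𝓞 K') = 1 := by
    apply Nat.eq_of_mul_eq_mul_left hp.pos
    rw [mul_one]
    conv_rhs => rw [← hcard]
    ring
  have hnc : (v.asIdeal.primesOver (𝓞 K')).ncard = 1 := Nat.eq_one_of_mul_eq_one_right hmul
  have hf : v.asIdeal.inertiaDegIn (𝓞 K') = 1 := Nat.eq_one_of_mul_eq_one_left hmul
  have hst : ∀ σ : Gal(K'/K), σ • W.asIdeal = W.asIdeal := pt11_stab hW hnc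
  -- the residue fields
  rw [Ideal.inertiaDegIn_eq_inertiaDeg v.asIdeal W.asIdeal Gal(K'/K),
    Ideal.inertiaDeg_eq_of_isMaximal v.asIdeal W.asIdeal] at hf
  let i1 : Field (𝓞 K ⧸ v.asIdeal) := Ideal.Quotient.field _
  let i2 : Field (𝓞 K' ⧸ W.asIdeal) := Ideal.Quotient.field _
  have hsurj : ∀ x : 𝓞 K', ∃ a : 𝓞 K, x - algebraMap (𝓞 K) (𝓞 K') a ∈ W.asIdeal := by
    intro x
    obtain ⟨c, hc⟩ := (finrank_eq_one_iff_of_nonzero' (1 : 𝓞 K' ⧸ W.asIdeal) one_ne_zero).1 hf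
      (Ideal.Quotient.mk W.asIdeal x)
    obtain ⟨a, rfl⟩ := Ideal.Quotient.mk_surjective c
    refine ⟨a, ?_⟩
    rw [← Ideal.Quotient.eq, ← hc, Algebra.smul_def, mul_one]
    rfl
  have htriv : ∀ (σ : Gal(K'/K)) (x : 𝓞 K'), σ • x - x ∈ W.asIdeal := by
    intro σ x
    obtain ⟨a, ha⟩ := hsurj x
    have h1 := pt11_mem (hst σ) ha
    have h2 : σ • algebraMap (𝓞 K) (𝓞 K') a = algebraMap (𝓞 K) (𝓞 K') a := by
      apply RingOfIntegers.ext
      exact σ.commutes (a : K)
    rw [smul_sub, h2] at h1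
    have h3 : σ • x - x = (σ • x - algebraMap (𝓞 K) (𝓞 K') a) - (x - algebraMap (𝓞 K) (𝓞 K') a) := by
      ring
    rw [h3]
    exact W.asIdeal.sub_mem h1 ha
  have hfin : Finite (𝓞 K' ⧸ W.asIdeal) := Ideal.finiteQuotientOfFreeOfNeBot W.asIdeal W.ne_bot
  have hcards : Nat.card (𝓞 K' ⧸ W.asIdeal) = Ideal.absNorm v.asIdeal := by
    have h1 := Module.natCard_eq_pow_finrank (K := 𝓞 K ⧸ v.asIdeal) (V := 𝓞 K' ⧸ W.asIdeal)
    rw [hf, pow_one] at h1
    rw [h1, Ideal.absNorm_apply]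
    rfl
  -- the uniformizer
  obtain ⟨ϖ, hϖ1, hϖ2⟩ : ∃ ϖ : 𝓞 K', ϖ ∈ W.asIdeal ∧ ϖ ∉ W.asIdeal ^ 2 := by
    obtain ⟨x, hx1, hx2⟩ := Ideal.exists_mem_pow_notMem_pow_succ W.asIdeal W.ne_bot hWm.ne_top 1
    rw [pow_one] at hx1
    exact ⟨x, hx1, hx2⟩
  have hcancel : ∀ u : 𝓞 K', u * ϖ ∈ W.asIdeal ^ 2 → u ∈ W.asIdeal := by
    intro u hu
    exact (Ideal.IsPrime.mul_mem_pow W.asIdeal hu).resolve_right hϖ2
  have hone : ∀ σ : Gal(K'/K), σ • ϖ - ϖ ∈ W.asIdeal ^ 2 := by
    intro σ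
    obtain ⟨a, e, he2, hae⟩ := Ideal.exists_mul_add_mem_pow_succ (P := W.asIdeal) W.ne_bot
      (i := 1) ϖ (σ • ϖ) (by rwa [pow_one]) hϖ2 (by rw [pow_one]; exact pt11_mem (hst σ) hϖ1)
    have ha : σ • ϖ - a * ϖ ∈ W.asIdeal ^ 2 := by
      rw [← hae]
      have : ϖ * a + e - a * ϖ = e := by ring
      rw [this]
      exact he2
    have hk : ∀ k : ℕ, (σ ^ k) • ϖ - a ^ k * ϖ ∈ W.asIdeal ^ 2 := by
      intro k
      induction k with
      | zero => rw [pow_zero, pow_zero, one_smul, one_mul, sub_self]; exact zero_mem _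
      | succ k ih =>
        have h1 := pt11_mem2 (hst σ) ih
        rw [smul_sub, smul_mul', ← mul_smul, ← pow_succ'] at h1
        have h2 : σ • (a ^ k) - a ^ k ∈ W.asIdeal := htriv σ _
        have h3 : (σ • (a ^ k) - a ^ k) * (σ • ϖ) ∈ W.asIdeal ^ 2 := by
          rw [pow_two]
          exact Ideal.mul_mem_mul h2 (pt11_mem (hst σ) hϖ1)
        have h4 : a ^ k * (σ • ϖ - a * ϖ) ∈ W.asIdeal ^ 2 := Ideal.mul_mem_left _ _ ha
        have h5 : (σ ^ (k + 1)) • ϖ - a ^ (k + 1) * ϖ =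
            ((σ ^ (k + 1)) • ϖ - (σ • (a ^ k)) * (σ • ϖ)) +
            ((σ • (a ^ k) - a ^ k) * (σ • ϖ) + a ^ k * (σ • ϖ - a * ϖ)) := by ring
        rw [h5]
        exact add_mem h1 (add_mem h3 h4)
    have hσp : σ ^ p = 1 := by
      rw [← hn, ← IsGalois.card_aut_eq_finrank K K']
      exact pow_card_eq_one'
    have hap : a ^ p - 1 ∈ W.asIdeal := by
      apply hcancel
      have h1 := hk p
      rw [hσp, one_smul] at h1
      have h2 : (a ^ p - 1) * ϖ = -(ϖ - a ^ p * ϖ) := by ring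
      rw [h2]
      exact neg_mem h1
    have hb : (Ideal.Quotient.mk W.asIdeal a) ^ p = 1 := by
      rw [← map_pow, ← map_one (Ideal.Quotient.mk W.asIdeal), Ideal.Quotient.eq]
      exact hap
    have hb0 : Ideal.Quotient.mk W.asIdeal a ≠ 0 := by
      intro h0
      rw [h0, zero_pow hp.ne_zero] at hb
      exact zero_ne_one hb
    have hb2 : (Ideal.Quotient.mk W.asIdeal a) ^ (Ideal.absNorm v.asIdeal - 1) = 1 := by
      have h1 : (Units.mk0 _ hb0) ^ (Nat.card (𝓞 K' ⧸ W.asIdeal)ˣ) = 1 := pow_card_eq_one'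
      rw [Nat.card_units, hcards] at h1
      have h2 := congrArg Units.val h1
      rwa [Units.val_pow_eq_pow_val, Units.val_mk0, Units.val_one] at h2
    have hcop : p.gcd (Ideal.absNorm v.asIdeal - 1) = 1 := (Nat.Prime.coprime_iff_not_dvd hp).2 hnd
    have hb3 : (Ideal.Quotient.mk W.asIdeal a) = 1 := by
      have h1 := pow_gcd_eq_one.2 ⟨hb, hb2⟩
      rwa [hcop, pow_one] at h1
    have ha1 : a - 1 ∈ W.asIdeal := by
      rw [← Ideal.Quotient.eq, hb3, map_one]
    have h5 : σ • ϖ - ϖ = (σ • ϖ - a * ϖ) + (a - 1) * ϖ := by ring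
    rw [h5]
    refine add_mem ha ?_
    rw [pow_two]
    exact Ideal.mul_mem_mul ha1 hϖ1
  -- the trace
  let i3 : Fintype Gal(K'/K) := Fintype.ofFinite _
  have hcG : Fintype.card Gal(K'/K) = p := by
    rw [← Nat.card_eq_fintype_card, IsGalois.card_aut_eq_finrank, hn]
  have hy : (∑ σ : Gal(K'/K), σ • ϖ) - (p : 𝓞 K') * ϖ ∈ W.asIdeal ^ 2 := by
    have h1 : (∑ σ : Gal(K'/K), σ • ϖ) - (p : 𝓞 K') * ϖ = ∑ σ : Gal(K'/K), (σ • ϖ - ϖ) := by
      rw [Finset.sum_sub_distrib, Finset.sum_const, Finset.card_univ, hcG, nsmul_eq_mul]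
    rw [h1]
    exact sum_mem fun σ _ => hone σ
  obtain ⟨x, hx⟩ := Algebra.IsInvariant.isInvariant (A := 𝓞 K) (B := 𝓞 K') (G := Gal(K'/K))
    (∑ σ : Gal(K'/K), σ • ϖ) (by
      intro τ
      rw [Finset.smul_sum]
      exact Fintype.sum_equiv (Equiv.mulLeft τ) _ _ (fun σ => (mul_smul τ σ ϖ).symm))
  have hyW : algebraMap (𝓞 K) (𝓞 K') x ∈ W.asIdeal := by
    rw [hx]
    exact sum_mem fun σ _ => pt11_mem (hst σ) hϖ1
  have hxv : x ∈ v.asIdeal := by
    rw [hl.over]
    exact hyW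
  have hpW : (p : 𝓞 K') ∉ W.asIdeal := by
    intro h
    apply hv
    rw [hl.over, Ideal.mem_under, map_natCast]
    exact h
  have hy2 : algebraMap (𝓞 K) (𝓞 K') x ∈ W.asIdeal ^ 2 := by
    have h1 := HeightOneSpectrum.valuation_liesOver K' v W ((x : 𝓞 K) : K)
    rw [Ideal.ramificationIdx'_eq_ramificationIdx v.asIdeal W.asIdeal v.ne_bot,
      ← Ideal.ramificationIdxIn_eq_ramificationIdx v.asIdeal W.asIdeal Gal(K'/K), hes] at h1
    have h2 : v.valuation K ((x : 𝓞 K) : K) ≤ WithZero.exp (-1 : ℤ) := by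
      have h3 : v.valuation K ((algebraMap (𝓞 K) K) x) = v.intValuation x :=
        v.valuation_of_algebraMap x
      have h4 := (v.intValuation_le_pow_iff_mem x 1).2 (by rwa [pow_one])
      change v.valuation K ((algebraMap (𝓞 K) K) x) ≤ _
      rw [h3]
      exact_mod_cast h4
    rw [← W.intValuation_le_pow_iff_mem, ← W.valuation_of_algebraMap (K := K')]
    change W.valuation K' (algebraMap K K' ((x : 𝓞 K) : K)) ≤ _
    rw [← h1]
    calc v.valuation K ((x : 𝓞 K) : K) ^ p ≤ WithZero.exp (-1 : ℤ) ^ p :=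
          pow_le_pow_left₀ zero_le h2 p
      _ ≤ WithZero.exp (-((2 : ℕ) : ℤ)) := by
          rw [← WithZero.exp_nsmul, WithZero.exp_le_exp, nsmul_eq_mul]
          have := hp.two_le
          push_cast
          omega
  have h6 : (p : 𝓞 K') * ϖ ∈ W.asIdeal ^ 2 := by
    rw [← hx] at hy
    have h7 := sub_mem hy2 hy
    rwa [sub_sub_cancel] at h7
  exact hpW (hcancel _ h6)

end H55P
end

-- from Lib.H55R.HA1
section

namespace H55R

/-! Chunk HA1 (M, pure algebra): the Herbrand quotient does not change under finite index. Write D = Dm, N = Nm n, D N = N D = 0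
(1 - σ^n = 0), φ D = D φ, φ N = N φ. Put B = φ.range <= B'. For f in {Dm σ', Nm n σ'} (both map B' to B' and B to B):
(*) [B' : B] = [f B' : f B] [B' ∩ ker f : B ∩ ker f] (B <= B + (B' ∩ ker f) <= B'; B'/(B + B' ∩ ker f) is f B'/f B and
(B + B' ∩ ker f)/B is (B' ∩ ker f)/(B ∩ ker f)); all factors are nonzero. B ∩ ker D = φ(ker D), N B = φ(N A), so
h0 n σ ⊤ = [B ∩ ker D : N B] and h1 n σ ⊤ = [B ∩ ker N : D B]. From N B <= N B' <= B' ∩ ker D and N B <= B ∩ ker D <= B' ∩ ker D: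
[B' ∩ ker D : N B'][N B' : N B] = [B' ∩ ker D : B ∩ ker D][B ∩ ker D : N B] (AddSubgroup.relIndex_mul_relIndex), i.e.
h0' [N B' : N B] = [B' ∩ ker D : B ∩ ker D] h0, in the same way h1' [D B' : D B] = [B' ∩ ker N : B ∩ ker N] h1. Hence h0', h1' <> 0 and
with (*): h0 h1' = h0' h1. -/

theorem HA1_star {A : Type} [AddCommGroup A] (f : A →+ A) (B B' : AddSubgroup A) (h : B ≤ B') :
    B.relIndex B' = (B.map f).relIndex (B'.map f) * (B ⊓ f.ker).relIndex (B' ⊓ f.ker) := by
  have e1 : (B.map f).relIndex (B'.map f) = (B ⊔ f.ker).relIndex B' := by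
    rw [AddSubgroup.relIndex_map_map]
    have e : B' ⊔ f.ker = B' ⊔ (B ⊔ f.ker) := by
      rw [← sup_assoc, sup_eq_left.2 h]
    rw [e, AddSubgroup.relIndex_sup_right]
  have e2 : B.relIndex ((B ⊔ f.ker) ⊓ B') * (B ⊔ f.ker).relIndex B' = B.relIndex B' := by
    rw [AddSubgroup.relIndex_inf_mul_relIndex, inf_eq_left.2 le_sup_left]
  have e3 : (B ⊔ f.ker) ⊓ B' = B ⊔ (f.ker ⊓ B') := sup_inf_assoc_of_le f.ker h
  have e4 : B.relIndex (B ⊔ (f.ker ⊓ B')) = (B ⊓ f.ker).relIndex (B' ⊓ f.ker) := by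
    rw [AddSubgroup.relIndex_sup_left, ← AddSubgroup.inf_relIndex_right]
    congr 1
    · rw [← inf_assoc, inf_eq_left.2 (inf_le_left.trans h)]
    · exact inf_comm _ _
  rw [← e2, e3, e4, e1, mul_comm]

theorem HA1_core {A : Type} [AddCommGroup A] (f g : A →+ A) (hfg : ∀ a, f (g a) = 0)
    (hgf : ∀ a, g (f a) = 0) (B B' : AddSubgroup A) (h : B ≤ B') (hBf : ∀ b ∈ B, f b ∈ B)
    (hBg : ∀ b ∈ B, g b ∈ B) (hBf' : ∀ b ∈ B', f b ∈ B') (hBg' : ∀ b ∈ B', g b ∈ B')
    (hi : B.relIndex B' ≠ 0) (h0n : (B.map g).relIndex (B ⊓ f.ker) ≠ 0)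
    (h1n : (B.map f).relIndex (B ⊓ g.ker) ≠ 0) :
    (B'.map g).relIndex (B' ⊓ f.ker) ≠ 0 ∧ (B'.map f).relIndex (B' ⊓ g.ker) ≠ 0 ∧
      (B.map g).relIndex (B ⊓ f.ker) * (B'.map f).relIndex (B' ⊓ g.ker) =
        (B'.map g).relIndex (B' ⊓ f.ker) * (B.map f).relIndex (B ⊓ g.ker) := by
  have key : ∀ (f g : A →+ A) (_ : ∀ a, f (g a) = 0) (_ : ∀ b ∈ B, g b ∈ B)
      (_ : ∀ b ∈ B', g b ∈ B'), (B.map g).relIndex (B'.map g) * (B'.map g).relIndex (B' ⊓ f.ker) =
        (B.map g).relIndex (B ⊓ f.ker) * (B ⊓ f.ker).relIndex (B' ⊓ f.ker) := by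
    intro f g hfg hB hB'
    rw [AddSubgroup.relIndex_mul_relIndex _ _ _ (AddSubgroup.map_mono h),
      AddSubgroup.relIndex_mul_relIndex]
    · rintro _ ⟨b, hb, rfl⟩
      exact ⟨hB b hb, hfg b⟩
    · exact inf_le_inf_right _ h
    · rintro _ ⟨b, hb, rfl⟩
      exact ⟨hB' b hb, hfg b⟩
  have s1 := HA1_star f B B' h
  have s2 := HA1_star g B B' h
  have k1 := key f g hfg hBg hBg'
  have k2 := key g f hgf hBf hBf'
  generalize (B.map g).relIndex (B ⊓ f.ker) = hg at *
  generalize (B.map f).relIndex (B ⊓ g.ker) = hf at *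
  generalize (B'.map g).relIndex (B' ⊓ f.ker) = hg' at *
  generalize (B'.map f).relIndex (B' ⊓ g.ker) = hf' at *
  generalize (B.map f).relIndex (B'.map f) = af at *
  generalize (B.map g).relIndex (B'.map g) = ag at *
  generalize (B ⊓ f.ker).relIndex (B' ⊓ f.ker) = kf at *
  generalize (B ⊓ g.ker).relIndex (B' ⊓ g.ker) = kg at *
  generalize B.relIndex B' = m at *
  have haf : af ≠ 0 := by
    rintro rfl
    exact hi (by rw [s1, zero_mul])
  have hkf : kf ≠ 0 := by
    rintro rfl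
    exact hi (by rw [s1, mul_zero])
  have hag : ag ≠ 0 := by
    rintro rfl
    exact hi (by rw [s2, zero_mul])
  have hkg : kg ≠ 0 := by
    rintro rfl
    exact hi (by rw [s2, mul_zero])
  refine ⟨?_, ?_, ?_⟩
  · rintro rfl
    rw [mul_zero] at k1
    exact mul_ne_zero h0n hkf k1.symm
  · rintro rfl
    rw [mul_zero] at k2
    exact mul_ne_zero h1n hkg k2.symm
  · have h2 : (hg * hf') * m = (hg' * hf) * m := by
      calc (hg * hf') * m = (hg * kf) * (af * hf') := by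
            rw [s1]
            ring
        _ = (ag * hg') * (hf * kg) := by rw [← k1, k2]
        _ = (hg' * hf) * (ag * kg) := by ring
        _ = (hg' * hf) * m := by rw [← s2]
    exact Nat.eq_of_mul_eq_mul_right (Nat.pos_of_ne_zero hi) h2

theorem HA1_DN {A : Type} [AddCommGroup A] (n : ℕ) (σ : AddMonoid.End A) (hσ : σ ^ n = 1) (a : A) :
    Dm σ (Nm n σ a) = 0 := by
  have h := mul_neg_geom_sum σ n
  rw [hσ, sub_self] at h
  exact DFunLike.congr_fun h a

theorem HA1_ND {A : Type} [AddCommGroup A] (n : ℕ) (σ : AddMonoid.End A) (hσ : σ ^ n = 1) (a : A) :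
    Nm n σ (Dm σ a) = 0 := by
  have h := geom_sum_mul_neg σ n
  rw [hσ, sub_self] at h
  exact DFunLike.congr_fun h a

theorem HA1_D {A : Type} [AddCommGroup A] (σ : AddMonoid.End A) (a : A) : Dm σ a = a - σ a := rfl

theorem HA1_N {A : Type} [AddCommGroup A] (n : ℕ) (σ : AddMonoid.End A) (a : A) :
    Nm n σ a = ∑ i ∈ Finset.range n, (σ ^ i) a := by
  unfold Nm
  exact AddMonoidHom.finsetSum_apply _ _ _

theorem HA1_pow {A A' : Type} [AddCommGroup A] [AddCommGroup A'] (σ : AddMonoid.End A)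
    (σ' : AddMonoid.End A') (φ : A →+ A') (hφ : ∀ a, φ (σ a) = σ' (φ a)) (i : ℕ) (a : A) :
    φ ((σ ^ i) a) = (σ' ^ i) (φ a) := by
  induction i generalizing a with
  | zero => rfl
  | succ i ih =>
    rw [pow_succ, pow_succ]
    change φ ((σ ^ i) (σ a)) = (σ' ^ i) (σ' (φ a))
    rw [ih, hφ]

theorem HA1_stab {A : Type} [AddCommGroup A] (σ : AddMonoid.End A) (B : AddSubgroup A)
    (hB : ∀ b ∈ B, σ b ∈ B) (i : ℕ) (b : A) (hb : b ∈ B) : (σ ^ i) b ∈ B := by
  induction i generalizing b with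
  | zero => exact hb
  | succ i ih =>
    rw [pow_succ]
    exact ih _ (hB b hb)

theorem herb_fi {A A' : Type} [AddCommGroup A] [AddCommGroup A'] (n : ℕ) (σ : AddMonoid.End A)
    (σ' : AddMonoid.End A') (hσ : σ ^ n = 1) (hσ' : σ' ^ n = 1) (φ : A →+ A')
    (hφ : ∀ a, φ (σ a) = σ' (φ a)) (hi : Function.Injective φ) (B' : AddSubgroup A')
    (hB' : ∀ b ∈ B', σ' b ∈ B') (hr : φ.range ≤ B') (hf : φ.range.relIndex B' ≠ 0)
    (h0n : h0 n σ ⊤ ≠ 0) (h1n : h1 n σ ⊤ ≠ 0) :
    h0 n σ' B' ≠ 0 ∧ h1 n σ' B' ≠ 0 ∧ h0 n σ ⊤ * h1 n σ' B' = h0 n σ' B' * h1 n σ ⊤ := by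
  have hD : ∀ a, φ (Dm σ a) = Dm σ' (φ a) := by
    intro a
    rw [HA1_D, HA1_D, map_sub, hφ]
  have hN : ∀ a, φ (Nm n σ a) = Nm n σ' (φ a) := by
    intro a
    rw [HA1_N, HA1_N, map_sum]
    exact Finset.sum_congr rfl fun i _ => HA1_pow σ σ' φ hφ i a
  have hBs : ∀ b ∈ φ.range, σ' b ∈ φ.range := by
    rintro _ ⟨a, rfl⟩
    exact ⟨σ a, hφ a⟩
  have stD : ∀ B : AddSubgroup A', (∀ b ∈ B, σ' b ∈ B) → ∀ b ∈ B, Dm σ' b ∈ B := by
    intro B hB b hb
    rw [HA1_D]
    exact B.sub_mem hb (hB b hb)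
  have stN : ∀ B : AddSubgroup A', (∀ b ∈ B, σ' b ∈ B) → ∀ b ∈ B, Nm n σ' b ∈ B := by
    intro B hB b hb
    rw [HA1_N]
    exact B.sum_mem fun i _ => HA1_stab σ' B hB i b hb
  have tr : ∀ (f g : A →+ A) (f' g' : A' →+ A'), (∀ a, φ (f a) = f' (φ a)) →
      (∀ a, φ (g a) = g' (φ a)) → ((⊤ : AddSubgroup A).map g).relIndex (⊤ ⊓ f.ker) =
        (φ.range.map g').relIndex (φ.range ⊓ f'.ker) := by
    intro f g f' g' hf hg
    rw [← AddSubgroup.relIndex_map_map_of_injective _ _ hi]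
    congr 1
    · ext x
      constructor
      · rintro ⟨_, ⟨a, -, rfl⟩, rfl⟩
        exact ⟨φ a, ⟨a, rfl⟩, (hg a).symm⟩
      · rintro ⟨_, ⟨a, rfl⟩, rfl⟩
        exact ⟨g a, ⟨a, trivial, rfl⟩, hg a⟩
    · ext x
      constructor
      · rintro ⟨a, ⟨-, ha⟩, rfl⟩
        refine ⟨⟨a, rfl⟩, ?_⟩
        show f' (φ a) = 0
        have ha' : f a = 0 := ha
        rw [← hf, ha', map_zero]
      · rintro ⟨⟨a, rfl⟩, ha⟩
        refine ⟨a, ⟨trivial, ?_⟩, rfl⟩
        show f a = 0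
        apply hi
        rw [hf, map_zero]
        exact ha
  have e0 : h0 n σ ⊤ = (φ.range.map (Nm n σ')).relIndex (φ.range ⊓ (Dm σ').ker) :=
    tr (Dm σ) (Nm n σ) _ _ hD hN
  have e1 : h1 n σ ⊤ = (φ.range.map (Dm σ')).relIndex (φ.range ⊓ (Nm n σ').ker) :=
    tr (Nm n σ) (Dm σ) _ _ hN hD
  rw [e0] at h0n ⊢
  rw [e1] at h1n ⊢
  exact HA1_core (Dm σ') (Nm n σ') (HA1_DN n σ' hσ') (HA1_ND n σ' hσ') _ B' hr (stD _ hBs)
    (stN _ hBs) (stD _ hB') (stN _ hB') hf h0n h1n

end H55R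
end

-- from Lib.H55R.HC1
section

open NumberField IsDedekindDomain

namespace H55R

/-! Chunk HC1 (M, pure algebra): counting characters.
card_pow: the group of characters of a finite cyclic group of order c is cyclic of order c (CommGroup.monoidHom_mulEquiv_of_hasEnoughRootsOfUnity or:
a character is determined by the image of a generator, any c-th root of unity), so for e dividing c exactly e characters satisfy χ^e = 1, i.e. (χ x)^e = 1 for all x
(IsCyclic.card_pow_eq_one_eq... or IsCyclic.card_pow_eq_one). The group (𝓞 K ⧸ v)ˣ is cyclic of order absNorm v - 1 (units of a finite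
field; Ideal.absNorm is the cardinality of the quotient). card_root: the number of z in ℂˣ with z^k = 1 is k (Complex.card_rootsOfUnity).
dual_count: the restriction x -> (Ψ x restricted to U, factored through U/N) is a homomorphism from X to the group of characters of the finite
commutative group U/N, which has k elements (CommGroup.card_monoidHom_of_hasEnoughRootsOfUnity), with kernel {x | Ψ x = 1 on U}. -/

theorem card_root (k : ℕ) (hk : 0 < k) : Nat.card {z : ℂˣ // z ^ k = 1} = k := by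
  have : NeZero k := ⟨hk.ne'⟩
  exact (Nat.card_congr (Equiv.subtypeEquivRight fun z => (mem_rootsOfUnity k z).symm)).trans
    (Complex.card_rootsOfUnity k)

theorem hc1_cyc {G : Type} [Group G] [IsCyclic G] (e : ℕ) (he : e ∣ Nat.card G) (he0 : 0 < e) :
    Nat.card {χ : G →* ℂˣ // ∀ x, χ x ^ e = 1} = e := by
  obtain ⟨g, hg⟩ := IsCyclic.exists_generator (α := G)
  refine Eq.trans ?_ (card_root e he0)
  have hord : orderOf g = Nat.card G := orderOf_eq_card_of_forall_mem_zpowers hg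
  refine Nat.card_congr (Equiv.ofBijective
    (fun χ : {χ : G →* ℂˣ // ∀ x, χ x ^ e = 1} =>
      (⟨χ.1 g, χ.2 g⟩ : {z : ℂˣ // z ^ e = 1})) ⟨?_, ?_⟩)
  · intro χ ψ h
    have h1 : χ.1 g = ψ.1 g := congrArg Subtype.val h
    apply Subtype.ext
    refine MonoidHom.ext fun x => ?_
    obtain ⟨k, rfl⟩ := Subgroup.mem_zpowers_iff.1 (hg x)
    rw [map_zpow, map_zpow, h1]
  · rintro ⟨z, hz⟩
    have hd : orderOf z ∣ orderOf g := by
      rw [hord]
      exact (orderOf_dvd_of_pow_eq_one hz).trans he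
    refine ⟨⟨monoidHomOfForallMemZpowers hg hd, fun x => ?_⟩, Subtype.ext
      (monoidHomOfForallMemZpowers_apply_gen hg hd)⟩
    obtain ⟨k, rfl⟩ := Subgroup.mem_zpowers_iff.1 (hg x)
    rw [map_zpow, monoidHomOfForallMemZpowers_apply_gen, ← zpow_natCast, ← zpow_mul, mul_comm,
      zpow_mul, zpow_natCast, hz, one_zpow]

theorem card_pow {K : Type} [Field K] [NumberField K] (v : Pl K) (e : ℕ)
    (he : e ∣ Ideal.absNorm v.asIdeal - 1) (he0 : 0 < e) :
    Nat.card {χ : (𝓞 K ⧸ v.asIdeal)ˣ →* ℂˣ // ∀ x, χ x ^ e = 1} = e := by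
  have : v.asIdeal.IsMaximal := v.isMaximal
  have : Finite (𝓞 K ⧸ v.asIdeal) := Ideal.finiteQuotientOfFreeOfNeBot _ v.ne_bot
  let : Field (𝓞 K ⧸ v.asIdeal) := Ideal.Quotient.field v.asIdeal
  have hcard : Nat.card (𝓞 K ⧸ v.asIdeal)ˣ = Ideal.absNorm v.asIdeal - 1 := by
    rw [Nat.card_units, Ideal.absNorm_apply, Submodule.cardQuot_apply]
  have : IsCyclic (𝓞 K ⧸ v.asIdeal)ˣ := inferInstance
  exact hc1_cyc e (hcard ▸ he) he0

theorem dual_count {X G : Type} [CommGroup X] [Finite X] [CommGroup G] (U N : Subgroup G)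
    (hN : N ≤ U) (hk : N.relIndex U ≠ 0) (Ψ : X →* (G →* ℂˣ)) (hΨ : ∀ x, ∀ g ∈ N, Ψ x g = 1) :
    Nat.card X ≤ N.relIndex U * Nat.card {x : X // ∀ g ∈ U, Ψ x g = 1} := by
  have hindex : N.relIndex U = Nat.card (U ⧸ N.subgroupOf U) := rfl
  have hfin : Finite (U ⧸ N.subgroupOf U) := Nat.finite_of_card_ne_zero (hindex ▸ hk)
  have hker : ∀ x : X, N.subgroupOf U ≤ ((Ψ x).comp U.subtype).ker := by
    intro x g hg
    rw [MonoidHom.mem_ker]
    exact hΨ x g.1 (Subgroup.mem_subgroupOf.1 hg)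
  let r : X →* ((U ⧸ N.subgroupOf U) →* ℂˣ) :=
    { toFun := fun x => QuotientGroup.lift (N.subgroupOf U) ((Ψ x).comp U.subtype) (hker x)
      map_one' := by
        refine MonoidHom.ext fun q => ?_
        obtain ⟨g, rfl⟩ := QuotientGroup.mk_surjective q
        change Ψ 1 g.1 = 1
        rw [map_one]
        rfl
      map_mul' := fun x y => by
        refine MonoidHom.ext fun q => ?_
        obtain ⟨g, rfl⟩ := QuotientGroup.mk_surjective q
        change Ψ (x * y) g.1 = Ψ x g.1 * Ψ y g.1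
        rw [map_mul]
        rfl }
  have hr : ∀ (x : X) (g : U), r x (QuotientGroup.mk g) = Ψ x g.1 := fun x g => rfl
  have hexp : Monoid.exponent (U ⧸ N.subgroupOf U) ≠ 0 := Monoid.exponent_ne_zero_of_finite
  have : NeZero ((Monoid.exponent (U ⧸ N.subgroupOf U) : ℕ) : ℂ) := ⟨Nat.cast_ne_zero.2 hexp⟩
  have hdual : Nat.card ((U ⧸ N.subgroupOf U) →* ℂˣ) = N.relIndex U := by
    rw [hindex]
    exact CommGroup.card_monoidHom_of_hasEnoughRootsOfUnity (U ⧸ N.subgroupOf U) ℂ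
  have hfd : Finite ((U ⧸ N.subgroupOf U) →* ℂˣ) := Nat.finite_of_card_ne_zero (hdual ▸ hk)
  have h1 : Nat.card X = Nat.card (X ⧸ r.ker) * Nat.card r.ker :=
    Subgroup.card_eq_card_quotient_mul_card_subgroup r.ker
  have h2 : Nat.card (X ⧸ r.ker) ≤ N.relIndex U := by
    rw [← hdual, Nat.card_congr (QuotientGroup.quotientKerEquivRange r).toEquiv]
    exact Nat.card_le_card_of_injective Subtype.val Subtype.val_injective
  have h3 : Nat.card r.ker = Nat.card {x : X // ∀ g ∈ U, Ψ x g = 1} := by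
    refine Nat.card_congr (Equiv.subtypeEquivRight fun x => ?_)
    rw [MonoidHom.mem_ker]
    constructor
    · intro h g hg
      rw [← hr x ⟨g, hg⟩, h]
      rfl
    · intro h
      refine MonoidHom.ext fun q => ?_
      obtain ⟨g, rfl⟩ := QuotientGroup.mk_surjective q
      rw [hr, h g.1 g.2]
      rfl
  rw [h1, h3]
  exact Nat.mul_le_mul_right _ h2

end H55R
end

-- from Lib.H55R.HA2
section

namespace H55R

/-! Chunk HA2 (S/M, pure algebra). herb_prod: Nm n (σ × σ') = Nm n σ × Nm n σ' and the same for Dm (σ.prodMap σ' to the power i is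
the product of the powers); the map of a product subgroup is the product of the images, kernels and intersections too, and the
relative index of a product is the product of the relative indices. herb_Z: Dm 1 = 0, Nm n 1 = multiplication by n: h0 = [Z : nZ] = n
(Int.index_zmultiples or similar), h1: the kernel of multiplication by n is 0, relIndex in ⊥ is 1. -/

theorem HA2_N {A : Type} [AddCommGroup A] (n : ℕ) (σ : AddMonoid.End A) (a : A) :
    Nm n σ a = ∑ i ∈ Finset.range n, (σ ^ i) a := by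
  unfold Nm
  exact AddMonoidHom.finsetSum_apply _ _ _

theorem HA2_pow {A A' : Type} [AddCommGroup A] [AddCommGroup A'] (σ : AddMonoid.End A)
    (σ' : AddMonoid.End A') (τ : AddMonoid.End (A × A')) (hτ : ∀ x, τ x = (σ x.1, σ' x.2)) (i : ℕ)
    (x : A × A') : (τ ^ i) x = ((σ ^ i) x.1, (σ' ^ i) x.2) := by
  induction i generalizing x with
  | zero => rfl
  | succ i ih =>
    rw [pow_succ, pow_succ, pow_succ]
    change (τ ^ i) (τ x) = _
    rw [ih, hτ]
    rfl

theorem HA2_Nm {A A' : Type} [AddCommGroup A] [AddCommGroup A'] (n : ℕ) (σ : AddMonoid.End A)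
    (σ' : AddMonoid.End A') (τ : AddMonoid.End (A × A')) (hτ : ∀ x, τ x = (σ x.1, σ' x.2))
    (x : A × A') : Nm n τ x = (Nm n σ x.1, Nm n σ' x.2) := by
  rw [HA2_N, HA2_N, HA2_N]
  simp only [HA2_pow σ σ' τ hτ]
  ext
  · rw [Prod.fst_sum]
  · rw [Prod.snd_sum]

theorem HA2_Dm {A A' : Type} [AddCommGroup A] [AddCommGroup A'] (σ : AddMonoid.End A)
    (σ' : AddMonoid.End A') (τ : AddMonoid.End (A × A')) (hτ : ∀ x, τ x = (σ x.1, σ' x.2))
    (x : A × A') : Dm τ x = (Dm σ x.1, Dm σ' x.2) := by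
  show x - τ x = (x.1 - σ x.1, x.2 - σ' x.2)
  rw [hτ]
  rfl

theorem HA2_rel {A A' : Type} [AddCommGroup A] [AddCommGroup A'] (H K : AddSubgroup A)
    (H' K' : AddSubgroup A') :
    (H.prod H').relIndex (K.prod K') = H.relIndex K * H'.relIndex K' := by
  unfold AddSubgroup.relIndex
  rw [← AddSubgroup.index_prod]
  have h1 : (H.prod H').addSubgroupOf (K.prod K') =
      ((H.addSubgroupOf K).prod (H'.addSubgroupOf K')).comap
        ((K.prodEquiv K').toAddMonoidHom) := by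
    ext x
    rfl
  rw [h1]
  exact AddSubgroup.index_comap_of_surjective _ (K.prodEquiv K').surjective

theorem HA2_gen {A A' : Type} [AddCommGroup A] [AddCommGroup A'] (f g : A →+ A) (f' g' : A' →+ A')
    (F G : A × A' →+ A × A') (hF : ∀ x, F x = (f x.1, f' x.2)) (hG : ∀ x, G x = (g x.1, g' x.2))
    (B : AddSubgroup A) (B' : AddSubgroup A') :
    ((B.prod B').map F).relIndex ((B.prod B') ⊓ G.ker) =
      (B.map f).relIndex (B ⊓ g.ker) * (B'.map f').relIndex (B' ⊓ g'.ker) := by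
  rw [← HA2_rel]
  congr 1
  · ext x
    constructor
    · rintro ⟨y, ⟨hy1, hy2⟩, rfl⟩
      rw [hF]
      exact ⟨⟨y.1, hy1, rfl⟩, ⟨y.2, hy2, rfl⟩⟩
    · rintro ⟨⟨a, ha, h1⟩, ⟨b, hb, h2⟩⟩
      refine ⟨(a, b), ⟨ha, hb⟩, ?_⟩
      rw [hF]
      exact Prod.ext h1 h2
  · ext x
    constructor
    · rintro ⟨⟨hx1, hx2⟩, hx⟩
      have hx' : G x = 0 := hx
      rw [hG] at hx'
      exact ⟨⟨hx1, congrArg Prod.fst hx'⟩, ⟨hx2, congrArg Prod.snd hx'⟩⟩
    · rintro ⟨⟨hx1, h1⟩, ⟨hx2, h2⟩⟩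
      refine ⟨⟨hx1, hx2⟩, ?_⟩
      show G x = 0
      rw [hG]
      exact Prod.ext h1 h2

theorem herb_prod {A A' : Type} [AddCommGroup A] [AddCommGroup A'] (n : ℕ) (σ : AddMonoid.End A)
    (σ' : AddMonoid.End A') (B : AddSubgroup A) (B' : AddSubgroup A') :
    h0 n (AddMonoidHom.prodMap σ σ' : AddMonoid.End (A × A')) (B.prod B') = h0 n σ B * h0 n σ' B' ∧
    h1 n (AddMonoidHom.prodMap σ σ' : AddMonoid.End (A × A')) (B.prod B') = h1 n σ B * h1 n σ' B' :=
  ⟨HA2_gen _ _ _ _ _ _ (HA2_Nm n σ σ' _ fun _ => rfl) (HA2_Dm σ σ' _ fun _ => rfl) B B',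
    HA2_gen _ _ _ _ _ _ (HA2_Dm σ σ' _ fun _ => rfl) (HA2_Nm n σ σ' _ fun _ => rfl) B B'⟩

theorem herb_Z (n : ℕ) (hn : n ≠ 0) :
    h0 n (1 : AddMonoid.End ℤ) ⊤ = n ∧ h1 n (1 : AddMonoid.End ℤ) ⊤ = 1 := by
  have hN : ∀ a : ℤ, Nm n (1 : AddMonoid.End ℤ) a = n * a := by
    intro a
    rw [HA2_N]
    simp only [one_pow]
    rw [Finset.sum_const, Finset.card_range, nsmul_eq_mul]
    rfl
  have hD : ∀ a : ℤ, Dm (1 : AddMonoid.End ℤ) a = 0 := by
    intro a
    show a - a = 0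
    rw [sub_self]
  constructor
  · unfold h0
    have e1 : (⊤ : AddSubgroup ℤ) ⊓ (Dm (1 : AddMonoid.End ℤ)).ker = ⊤ := by
      rw [top_inf_eq, eq_top_iff]
      intro a _
      exact hD a
    have e2 : (⊤ : AddSubgroup ℤ).map (Nm n (1 : AddMonoid.End ℤ)) =
        AddSubgroup.zmultiples (n : ℤ) := by
      ext x
      rw [AddSubgroup.mem_zmultiples_iff]
      constructor
      · rintro ⟨a, -, rfl⟩
        refine ⟨a, ?_⟩
        rw [hN, smul_eq_mul, mul_comm]
      · rintro ⟨a, rfl⟩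
        refine ⟨a, trivial, ?_⟩
        rw [hN, smul_eq_mul, mul_comm]
    rw [e1, e2, AddSubgroup.relIndex_top_right, Int.index_zmultiples, Int.natAbs_natCast]
  · unfold h1
    have e1 : (⊤ : AddSubgroup ℤ) ⊓ (Nm n (1 : AddMonoid.End ℤ)).ker = ⊥ := by
      rw [top_inf_eq, eq_bot_iff]
      intro a ha
      have ha' : Nm n (1 : AddMonoid.End ℤ) a = 0 := ha
      rw [hN] at ha'
      have h3 : (n : ℤ) ≠ 0 := by exact_mod_cast hn
      rcases mul_eq_zero.1 ha' with h | h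
      · exact absurd h h3
      · exact h
    rw [e1, AddSubgroup.relIndex_bot_right]

end H55R
end

-- from Lib.H55R.HB2
section

open NumberField IsDedekindDomain
open scoped Pointwise

namespace H55R

variable {K L : Type} [Field K] [NumberField K] [Field L] [NumberField L] [Algebra K L]

/-! Chunk HB2 (M/L): norms of elements prime to v are e-th powers modulo v. G = Gal(L/K) commutative.
(a) y = a/b with a, b in 𝓞 L not in any prime W above v: there are finitely many such W; (y) = I/J with coprime integral ideals, J is contained in no W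
above v; choose b in J outside all W above v (prime avoidance, Ideal.subset_union_prime or the Chinese remainder theorem), a = y b. So it is enough
to treat y = a in 𝓞 L (resv and nrm are homomorphisms); N a = product of the g a is in 𝓞 K (Algebra.intNorm or RingOfIntegers.norm), not in v.
(b) Fix W above v, k_W = 𝓞 L / W, k_v = 𝓞 K / v, I = inertia group of W (W.asIdeal.inertia G, i x - x in W for all x in 𝓞 L), |I| = e
(Ideal.card_inertia_eq_ramificationIdxIn), D = stabilizer. Choose representatives c of G/I: in k_W: [N a] = product over g of [g a] = (product over c of [c a])^e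
because [i c a] = [c a]. The element z = product over c of [c a] of k_W does not depend on the choice of the representatives, and an
element d of D maps it to the product of the [d c a], i.e. to z (d c runs through representatives again; G commutative). D acts on k_W through
a surjection to Gal(k_W/k_v) (Ideal.Quotient.stabilizerHom_surjective), so z is in k_v, z <> 0 (a is not in c^-1 W).
k_v -> k_W is injective: N a = z^e in k_v. -/

theorem HB2_fib {G M : Type} [Group G] [Fintype G] [CommMonoid M] (I : Subgroup G) (φ : G → M)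
    [Fintype (G ⧸ I)] (φ' : G ⧸ I → M) (h : ∀ g, φ' (QuotientGroup.mk g) = φ g) :
    ∏ g, φ g = (∏ q, φ' q) ^ Nat.card I := by
  classical
  rw [← Finset.prod_fiberwise Finset.univ (fun g : G => (QuotientGroup.mk g : G ⧸ I)) φ,
    ← Finset.prod_pow]
  refine Finset.prod_congr rfl fun q _ => ?_
  obtain ⟨c, rfl⟩ := QuotientGroup.mk_surjective q
  have h1 : ∀ i ∈ Finset.univ.filter (fun g : G => (QuotientGroup.mk g : G ⧸ I) = QuotientGroup.mk c),
      φ i = φ' (QuotientGroup.mk c) := by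
    intro i hi
    rw [← h i, (Finset.mem_filter.1 hi).2]
  rw [Finset.prod_congr rfl h1, Finset.prod_const]
  congr 1
  rw [Nat.card_eq_fintype_card, ← Finset.card_univ]
  symm
  apply Finset.card_bij (fun (i : I) _ => c * i.1)
  · intro i _
    rw [Finset.mem_filter]
    refine ⟨Finset.mem_univ _, ?_⟩
    rw [eq_comm, QuotientGroup.eq, inv_mul_cancel_left]
    exact i.2
  · intro i _ j _ hij
    exact Subtype.ext (mul_left_cancel hij)
  · intro b hb
    rw [Finset.mem_filter] at hb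
    have h2 := hb.2
    rw [eq_comm, QuotientGroup.eq] at h2
    exact ⟨⟨c⁻¹ * b, h2⟩, Finset.mem_univ _, mul_inv_cancel_left _ _⟩

theorem HB2_under (σ : Gal(L/K)) (W : Pl L) (v : Pl K) (h : W.under (𝓞 K) = v) (a : 𝓞 L)
    (ha : ∀ W : Pl L, W.under (𝓞 K) = v → a ∉ W.asIdeal) : σ • a ∉ W.asIdeal := by
  intro h1
  apply ha (smulP σ⁻¹ W) (by rw [under_smulP, h])
  show a ∈ σ⁻¹ • W.asIdeal
  rw [Ideal.mem_inv_pointwise_smul_iff]
  exact h1

theorem HB2_int [IsGalois K L] (hc : ∀ g h : Gal(L/K), g * h = h * g) (v : Pl K) (a : 𝓞 L)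
    (ha : ∀ W : Pl L, W.under (𝓞 K) = v → a ∉ W.asIdeal) :
    RingOfIntegers.norm K a ∉ v.asIdeal ∧ ∃ z : (𝓞 K ⧸ v.asIdeal)ˣ,
      Ideal.Quotient.mk v.asIdeal (RingOfIntegers.norm K a) =
        (z : 𝓞 K ⧸ v.asIdeal) ^ es K L v := by
  classical
  obtain ⟨W, hW⟩ := under_exists (K := K) (L := L) v
  have hWv : v.asIdeal = W.asIdeal.under (𝓞 K) := by rw [← hW]; rfl
  have hl : W.asIdeal.LiesOver v.asIdeal := ⟨hWv⟩
  have hvm := v.isMaximal
  have hwm := W.isMaximal
  have hprod : algebraMap (𝓞 K) (𝓞 L) (RingOfIntegers.norm K a) = ∏ g : Gal(L/K), g • a := by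
    apply RingOfIntegers.ext
    rw [RingOfIntegers.coe_algebraMap_norm K a, Algebra.norm_eq_prod_automorphisms]
    show _ = algebraMap (𝓞 L) L (∏ g : Gal(L/K), g • a)
    rw [map_prod]
    rfl
  have hnot : RingOfIntegers.norm K a ∉ v.asIdeal := by
    intro h1
    rw [hWv] at h1
    have h2 : algebraMap (𝓞 K) (𝓞 L) (RingOfIntegers.norm K a) ∈ W.asIdeal := h1
    rw [hprod, W.isPrime.prod_mem_iff] at h2
    obtain ⟨g, -, hg⟩ := h2
    exact HB2_under g W v hW a ha hg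
  refine ⟨hnot, ?_⟩
  letI : Field (𝓞 K ⧸ v.asIdeal) := Ideal.Quotient.field v.asIdeal
  letI : Field (𝓞 L ⧸ W.asIdeal) := Ideal.Quotient.field W.asIdeal
  have hfin : Finite (𝓞 L ⧸ W.asIdeal) := Ideal.finiteQuotientOfFreeOfNeBot W.asIdeal W.ne_bot
  set I : Subgroup Gal(L/K) := W.asIdeal.inertia Gal(L/K) with hI
  have hcard : Nat.card I = es K L v :=
    Ideal.card_inertia_eq_ramificationIdxIn (G := Gal(L/K)) v.asIdeal W.asIdeal
  let φ : Gal(L/K) → 𝓞 L ⧸ W.asIdeal := fun g => Ideal.Quotient.mk W.asIdeal (g • a)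
  have hφ : ∀ g h : Gal(L/K), g⁻¹ * h ∈ I → φ g = φ h := by
    intro g h hgh
    have h1 := hgh (g • a)
    rw [smul_smul, mul_assoc, hc h g, inv_mul_cancel_left] at h1
    exact (Ideal.Quotient.eq.2 h1).symm
  let φ' : Gal(L/K) ⧸ I → 𝓞 L ⧸ W.asIdeal :=
    Quotient.lift φ fun g h hgh => hφ g h (QuotientGroup.leftRel_apply.1 hgh)
  have hφ' : ∀ g, φ' (QuotientGroup.mk g) = φ g := fun g => rfl
  set z : 𝓞 L ⧸ W.asIdeal := ∏ q, φ' q with hz
  have hN : Ideal.Quotient.mk W.asIdeal (algebraMap (𝓞 K) (𝓞 L) (RingOfIntegers.norm K a)) =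
      z ^ es K L v := by
    rw [hprod, map_prod, ← hcard]
    exact HB2_fib I φ φ' hφ'
  have hfix : ∀ f : (𝓞 L ⧸ W.asIdeal) ≃ₐ[𝓞 K ⧸ v.asIdeal] (𝓞 L ⧸ W.asIdeal), f z = z := by
    intro f
    obtain ⟨d, rfl⟩ := Ideal.Quotient.stabilizerHom_surjective Gal(L/K) v.asIdeal W.asIdeal f
    have hnorm : I.Normal := ⟨fun i hi g => by rwa [hc g i, mul_inv_cancel_right]⟩
    rw [hz, map_prod]
    have h1 : ∀ q, Ideal.Quotient.stabilizerHom W.asIdeal v.asIdeal Gal(L/K) d (φ' q) =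
        φ' (QuotientGroup.mk d.1 * q) := by
      intro q
      obtain ⟨g, rfl⟩ := QuotientGroup.mk_surjective q
      rw [hφ', ← QuotientGroup.mk_mul, hφ']
      show Ideal.Quotient.mk W.asIdeal (d.1 • (g • a)) = Ideal.Quotient.mk W.asIdeal ((d.1 * g) • a)
      rw [mul_smul]
    rw [Finset.prod_congr rfl fun q _ => h1 q]
    exact Fintype.prod_equiv (Equiv.mulLeft (QuotientGroup.mk d.1 : Gal(L/K) ⧸ I)) _ _ fun q => rfl
  have hzbot : z ∈ (⊥ : IntermediateField (𝓞 K ⧸ v.asIdeal) (𝓞 L ⧸ W.asIdeal)) := by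
    rw [IsGalois.mem_bot_iff_fixed]
    exact hfix
  rw [IntermediateField.mem_bot] at hzbot
  obtain ⟨z₀, hz₀⟩ := hzbot
  have h1 : Ideal.Quotient.mk v.asIdeal (RingOfIntegers.norm K a) = z₀ ^ es K L v := by
    apply (algebraMap (𝓞 K ⧸ v.asIdeal) (𝓞 L ⧸ W.asIdeal)).injective
    rw [map_pow, hz₀, ← hN]
    rfl
  have h2 : z₀ ≠ 0 := by
    rintro rfl
    rw [zero_pow (es_pos (L := L) v).ne', Ideal.Quotient.eq_zero_iff_mem] at h1
    exact hnot h1
  exact ⟨Units.mk0 z₀ h2, h1⟩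

theorem norm_res [IsGalois K L] (hc : ∀ g h : Gal(L/K), g * h = h * g) (v : Pl K) (y : Lˣ)
    (hy : ∀ W : Pl L, W.under (𝓞 K) = v → ord W y = 0) :
    ∃ z : (𝓞 K ⧸ v.asIdeal)ˣ, resv v (nrm K L y) = z ^ es K L v := by
  classical
  have hT : {W : Pl L | W.under (𝓞 K) = v}.Finite := above_finite v
  let J : Ideal (𝓞 L) :=
    { carrier := {b | ∃ a : 𝓞 L, algebraMap (𝓞 L) L a = algebraMap (𝓞 L) L b * y}
      add_mem' := by
        rintro b b' ⟨a, h⟩ ⟨a', h'⟩
        exact ⟨a + a', by rw [map_add, map_add, h, h']; ring⟩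
      zero_mem' := ⟨0, by rw [map_zero]; ring⟩
      smul_mem' := by
        rintro c b ⟨a, h⟩
        exact ⟨c * a, by rw [smul_eq_mul, map_mul, map_mul, h]; ring⟩ }
  have hfrac : ∀ W : Pl L, W.under (𝓞 K) = v → ∃ a b : 𝓞 L, a ∉ W.asIdeal ∧ b ∉ W.asIdeal ∧
      algebraMap (𝓞 L) L a = algebraMap (𝓞 L) L b * y := by
    intro W hW
    obtain ⟨a, b, ha, hb, hab⟩ := exists_frac W y (hy W hW)
    refine ⟨a, b, ha, hb, ?_⟩
    rw [hab]
    show (a : L) = (b : L) * ((a : L) / (b : L))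
    have hb0 : (b : L) ≠ 0 := by
      intro h
      apply hb
      have : b = 0 := RingOfIntegers.ext h
      rw [this]
      exact W.asIdeal.zero_mem
    rw [mul_div_cancel₀ _ hb0]
  obtain ⟨b, hbJ, hbW⟩ : ∃ b ∈ J, ∀ W : Pl L, W.under (𝓞 K) = v → b ∉ W.asIdeal := by
    by_contra hcon
    push Not at hcon
    have h1 : (J : Set (𝓞 L)) ⊆ ⋃ W ∈ (↑hT.toFinset : Set (Pl L)), (W.asIdeal : Set (𝓞 L)) := by
      intro b hb
      obtain ⟨W, hW, hbW⟩ := hcon b hb
      rw [Set.mem_iUnion₂]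
      exact ⟨W, by rw [Set.Finite.coe_toFinset]; exact hW, hbW⟩
    obtain ⟨W₀, hW₀⟩ := under_exists (K := K) (L := L) v
    rw [Ideal.subset_union_prime W₀ W₀ (fun W _ _ _ => W.isPrime)] at h1
    obtain ⟨W, hW, hJW⟩ := h1
    rw [Set.Finite.mem_toFinset] at hW
    obtain ⟨a, b, ha, hb, hab⟩ := hfrac W hW
    exact hb (hJW ⟨a, hab⟩)
  obtain ⟨a, hab⟩ := hbJ
  have haW : ∀ W : Pl L, W.under (𝓞 K) = v → a ∉ W.asIdeal := by
    intro W hW ha
    obtain ⟨a', b', ha', hb', hab'⟩ := hfrac W hW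
    have h1 : a * b' = b * a' := by
      apply RingOfIntegers.ext
      show algebraMap (𝓞 L) L (a * b') = algebraMap (𝓞 L) L (b * a')
      rw [map_mul, map_mul, hab, hab']
      ring
    have h2 : b * a' ∈ W.asIdeal := by
      rw [← h1]
      exact Ideal.mul_mem_right _ _ ha
    rcases W.isPrime.mem_or_mem h2 with h3 | h3
    · exact hbW W hW h3
    · exact ha' h3
  obtain ⟨W₀, hW₀⟩ := under_exists (K := K) (L := L) v
  have hne : ∀ c : 𝓞 L, (∀ W : Pl L, W.under (𝓞 K) = v → c ∉ W.asIdeal) → (c : L) ≠ 0 := by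
    intro c hcW h
    apply hcW W₀ hW₀
    have : c = 0 := RingOfIntegers.ext h
    rw [this]
    exact W₀.asIdeal.zero_mem
  have key : ∀ c : 𝓞 L, (hcW : ∀ W : Pl L, W.under (𝓞 K) = v → c ∉ W.asIdeal) →
      ∃ z : (𝓞 K ⧸ v.asIdeal)ˣ, resv v (nrm K L (Units.mk0 (c : L) (hne c hcW))) =
        z ^ es K L v := by
    intro c hcW
    obtain ⟨h1, z, hz⟩ := HB2_int hc v c hcW
    refine ⟨z, ?_⟩
    apply Units.ext
    rw [resv_apply v (RingOfIntegers.norm K c) _ rfl h1, hz, Units.val_pow_eq_pow_val]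
  obtain ⟨z₁, hz₁⟩ := key a haW
  obtain ⟨z₂, hz₂⟩ := key b hbW
  refine ⟨z₁ / z₂, ?_⟩
  have h1 : y = Units.mk0 (a : L) (hne a haW) / Units.mk0 (b : L) (hne b hbW) := by
    apply Units.ext
    rw [Units.val_div_eq_div_val]
    show (y : L) = algebraMap (𝓞 L) L a / algebraMap (𝓞 L) L b
    rw [hab, mul_comm]
    exact (mul_div_cancel_right₀ _ (hne b hbW)).symm
  rw [h1, map_div, map_div, hz₁, hz₂, div_pow]

end H55R
end

-- from Lib.H55R.HC2
section

open NumberField IsDedekindDomain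

namespace H55R

/-! Chunk HC2 (S/M): the number of local data. X0 K L R S is (as a set) the product over w in R of {χ | for all x, (χ x)^(e_w) = 1} (card_pow) and
over s in S of {z | z^(f_s) = 1} (card_root): Nat.card_pi, Nat.card_prod, Equiv of subtypes; es_pos, fs_pos; finite because the product is
nonzero (Nat.finite_of_card_ne_zero) or directly. -/

def hc2_equiv (K L : Type) [Field K] [NumberField K] [Field L] [NumberField L] [Algebra K L]
    (R S : Finset (Pl K)) :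
    X0 K L R S ≃ ((w : R) → {χ : (𝓞 K ⧸ w.1.asIdeal)ˣ →* ℂˣ // ∀ x, χ x ^ es K L w.1 = 1}) ×
      ((s : S) → {z : ℂˣ // z ^ fs K L s.1 = 1}) where
  toFun q := (fun w => ⟨q.1.1 w, fun x => q.2.1 w x⟩, fun s => ⟨q.1.2 s, q.2.2 s⟩)
  invFun p := ⟨(fun w => (p.1 w).1, fun s => (p.2 s).1), ⟨fun w x => (p.1 w).2 x,
    fun s => (p.2 s).2⟩⟩
  left_inv _ := rfl
  right_inv _ := rfl

theorem card_X0 (K L : Type) [Field K] [NumberField K] [Field L] [NumberField L] [Algebra K L]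
    [IsGalois K L] (R S : Finset (Pl K))
    (ht : ∀ w ∈ R, es K L w ∣ Ideal.absNorm w.asIdeal - 1) :
    Finite (X0 K L R S) ∧
      Nat.card (X0 K L R S) = (∏ w ∈ R, es K L w) * ∏ s ∈ S, fs K L s := by
  have hcard : Nat.card (X0 K L R S) = (∏ w ∈ R, es K L w) * ∏ s ∈ S, fs K L s := by
    rw [Nat.card_congr (hc2_equiv K L R S), Nat.card_prod, Nat.card_pi, Nat.card_pi,
      ← Finset.prod_coe_sort R (fun w => es K L w), ← Finset.prod_coe_sort S (fun s => fs K L s)]
    congr 1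
    · exact Finset.prod_congr rfl fun w _ => card_pow w.1 (es K L w.1) (ht w.1 w.2) (es_pos w.1)
    · exact Finset.prod_congr rfl fun s _ => card_root (fs K L s.1) (fs_pos s.1)
  refine ⟨Nat.finite_of_card_ne_zero ?_, hcard⟩
  rw [hcard]
  exact mul_ne_zero (Finset.prod_ne_zero_iff.2 fun w _ => (es_pos w).ne')
    (Finset.prod_ne_zero_iff.2 fun s _ => (fs_pos s).ne')

end H55R
end

-- from Lib.H55R.HC3
section

open NumberField IsDedekindDomain

namespace H55R

/-! Chunk HC3 (S): local data are trivial on norms. Psi_apply. For w in R: norm_res gives resv w (N y) = z^(e_w), so the factor is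
(q.1 w z)^(e_w) = 1. For s in S: ord_norm gives ord s (N y) = f_s k, so the factor is ((q.2 s)^(f_s))^k = 1. -/

theorem Psi_norm {K L : Type} [Field K] [NumberField K] [Field L] [NumberField L] [Algebra K L]
    [IsGalois K L] (hc : ∀ g h : Gal(L/K), g * h = h * g) (R S : Finset (Pl K)) (q : XX R S)
    (hq : q ∈ X0 K L R S) (y : Lˣ) (hy : ∀ W : Pl L, W.under (𝓞 K) ∈ R → ord W y = 0) :
    Psi R S q (nrm K L y) = 1 := by
  obtain ⟨hq1, hq2⟩ := hq
  rw [Psi_apply]
  have h1 : ∏ w : R, q.1 w (resv w.1 (nrm K L y)) = 1 := by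
    refine Finset.prod_eq_one fun w _ => ?_
    obtain ⟨z, hz⟩ := norm_res hc w.1 y fun W hW => hy W (by rw [hW]; exact w.2)
    rw [hz, map_pow]
    exact hq1 w z
  have h2 : ∏ s : S, q.2 s ^ ord s.1 (nrm K L y) = 1 := by
    refine Finset.prod_eq_one fun s _ => ?_
    have hfin := above_finite (L := L) s.1
    have hT : ∀ W : Pl L, W ∈ hfin.toFinset ↔ W.under (𝓞 K) = s.1 := fun W => by
      rw [Set.Finite.mem_toFinset]
      rfl
    rw [ord_norm s.1 hfin.toFinset hT y, zpow_mul, zpow_natCast, hq2 s, one_zpow]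
  rw [h1, h2, mul_one]

end H55R
end

-- from Lib.H55R.HC6
section

open NumberField IsDedekindDomain

namespace H55R

variable {K L : Type} [Field K] [NumberField K] [Field L] [NumberField L] [Algebra K L] [IsGalois K L]

/-! Chunk HC6 (M). phi_split: v does not contain f, e_v = f_v = 1. If v is in S: phi v = q.2 v and q.2 v ^ (f_v) = 1. If v is not in S: choose a prime W
above v (under_exists) and y in Lˣ with ord W y = 1 and ord U y = 0 for all U not in T, U <> W (hGT; W is not in T). For x = nrm y: by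
ord_norm ord v x = f_v * 1 = 1 and ord u x = 0 for u not in S, u <> v, so x / xs v is an S-unit and Psi (xs v) = Psi x. Psi x = 1 by Psi_norm:
for W' above w in R: ord W' y = 0 because w is not in S (w contains f) and w <> v. So phi v = (Psi (xs v))^-1 = 1.
phi_pow: q^n = 1 for q in X0, n = [L : K]: e_w and f_s divide n (card_above with any finite set of the primes above). -/

theorem HC6_dvd (v : Pl K) : es K L v ∣ Module.finrank K L ∧ fs K L v ∣ Module.finrank K L := by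
  have h := card_above v (above_finite (L := L) v).toFinset (fun W => by
    rw [Set.Finite.mem_toFinset]
    rfl)
  rw [← h]
  exact ⟨Dvd.dvd.mul_left (Dvd.intro _ rfl) _, Dvd.dvd.mul_left (Dvd.intro_left _ rfl) _⟩

theorem phi_split (hc : ∀ g h : Gal(L/K), g * h = h * g) (f : Ideal (𝓞 K)) (R S : Finset (Pl K))
    (T : Finset (Pl L)) (hT : ∀ W, W ∈ T ↔ W.under (𝓞 K) ∈ S) (hGT : GenS (T : Set (Pl L)))
    (xs : Pl K → Kˣ) (q : XX R S) (hR : ∀ v : Pl K, v ∈ R ↔ f ≤ v.asIdeal)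
    (hS : ∀ v ∈ S, ¬ f ≤ v.asIdeal) (hxs : GenX S xs)
    (hq : ∀ x ∈ SU (S : Set (Pl K)), Psi R S q x = 1) (hq0 : q ∈ X0 K L R S) (v : Pl K)
    (hv : ¬ f ≤ v.asIdeal) (hs : Spl K L v) : phi f R S xs q v = 1 := by
  by_cases hvS : v ∈ S
  · rw [phi_of_mem f R S xs q v hv hvS]
    have h1 : q.2 ⟨v, hvS⟩ ^ fs K L v = 1 := hq0.2 ⟨v, hvS⟩
    rwa [hs.2, pow_one] at h1
  · rw [phi_of_not_mem f R S xs q v hv hvS]
    obtain ⟨W, hW⟩ := under_exists (L := L) v
    have hWT : W ∉ T := by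
      rw [hT, hW]
      exact hvS
    obtain ⟨y, hy1, hy2⟩ := hGT W
    have hy1' : ord W y = 1 := hy1 (by rw [Finset.mem_coe]; exact hWT)
    have hy2' : ∀ U : Pl L, U.under (𝓞 K) ∉ S → U ≠ W → ord U y = 0 := by
      intro U hU hne
      refine hy2 U ?_ hne
      rw [Finset.mem_coe, hT]
      exact hU
    have hfin : ∀ u : Pl K, ∀ U : Pl L, U ∈ (above_finite (L := L) u).toFinset ↔
        U.under (𝓞 K) = u := by
      intro u U
      rw [Set.Finite.mem_toFinset]
      rfl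
    have hx1 : ord v (nrm K L y) = 1 := by
      rw [ord_norm v _ (hfin v) y, hs.2, Finset.sum_eq_single W, hy1']
      · norm_num
      · intro U hU hne
        rw [hfin] at hU
        exact hy2' U (by rw [hU]; exact hvS) hne
      · intro h
        exact absurd ((hfin v W).2 hW) h
    have hx2 : ∀ u : Pl K, u ∉ S → u ≠ v → ord u (nrm K L y) = 0 := by
      intro u hu hne
      rw [ord_norm u _ (hfin u) y, Finset.sum_eq_zero, mul_zero]
      intro U hU
      rw [hfin] at hU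
      refine hy2' U (by rw [hU]; exact hu) ?_
      rintro rfl
      exact hne (hU.symm.trans hW)
    have hz : nrm K L y * (xs v)⁻¹ ∈ SU (S : Set (Pl K)) := by
      intro u hu
      rw [Finset.mem_coe] at hu
      rw [ord_mul, ord_inv]
      by_cases huv : u = v
      · rw [huv, hx1, (hxs v).1 hvS]
        norm_num
      · rw [hx2 u hu huv, (hxs v).2 u hu huv]
        norm_num
    have h1 := hq _ hz
    rw [map_mul, map_inv, Psi_norm hc R S q hq0 y, one_mul] at h1
    · exact h1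
    · intro W' hW'
      refine hy2' W' ?_ ?_
      · intro h2
        exact hS _ h2 ((hR _).1 hW')
      · rintro rfl
        rw [hW] at hW'
        exact hv ((hR v).1 hW')

theorem phi_pow (R S : Finset (Pl K)) (q : XX R S) (hq0 : q ∈ X0 K L R S) :
    q ^ Module.finrank K L = 1 := by
  refine Prod.ext ?_ ?_
  · rw [Prod.pow_fst]
    funext w
    apply MonoidHom.ext
    intro x
    obtain ⟨k, hk⟩ := (HC6_dvd (L := L) w.1).1
    have h1 : (q.1 ^ Module.finrank K L) w x = q.1 w x ^ Module.finrank K L := rfl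
    rw [h1, hk, pow_mul, hq0.1 w x, one_pow]
    rfl
  · rw [Prod.pow_snd]
    funext s
    obtain ⟨k, hk⟩ := (HC6_dvd (L := L) s.1).2
    rw [Pi.pow_apply, hk, pow_mul, hq0.2 s, one_pow]
    rfl

end H55R
end
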