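import Mathlib
import Pool.Agent.Lib.H1M.PP2.M007
import Pool.Agent.Lib.H1M.PP2.M010
import Pool.Agent.Lib.H1M.PP2.M016
import Pool.Agent.Lib.H1M.PP2.M020
import Pool.Agent.Lib.H1M.PP2.M021
import Pool.Agent.Lib.H1M.PP2.M023
import Pool.Agent.Lib.H1M.PP2.M032

/-! Merged copies (to shorten the build) of Lib.H28G.Map, Lib.H13S.Defs, Lib.H28G.VDefs, Lib.H55N.TW1, Lib.H55R.HA8, Lib.H55R.HA9, Lib.H55R.HC4, Lib.H55R.HC5, Lib.H55N.E1. -/

-- from Lib.H28G.Map
section

/-! # H28G: functoriality -/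

open NumberField IsDedekindDomain WeierstrassCurve

namespace H28G

open H55B

variable {k : Type} [Field k] [Algebra F k] [DecidableEq k]
  {k' : Type} [Field k'] [Algebra F k'] [DecidableEq k']

/-- The map on points. -/
noncomputable def mp (j : k →ₐ[F] k') : P27 k →+ P27 k' := Affine.Point.map (W' := W27.toAffine) j

theorem mp_ne (j : k →ₐ[F] k') {P : P27 k} (hP : P ≠ 0) : mp j P ≠ 0 := by
  rcases P with _ | ⟨x, y, h⟩
  · exact absurd rfl hP
  · unfold mp
    rw [Affine.Point.map_some]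
    exact Affine.Point.some_ne_zero _

theorem xc_mp (j : k →ₐ[F] k') (P : P27 k) : xc (mp j P) = j (xc P) := by
  rcases P with _ | ⟨x, y, h⟩
  · have : mp j (Affine.Point.zero : P27 k) = 0 := map_zero (mp j)
    rw [this]
    exact (map_zero j).symm
  · unfold mp
    rw [Affine.Point.map_some]
    rfl

theorem yc_mp (j : k →ₐ[F] k') (P : P27 k) : yc (mp j P) = j (yc P) := by
  rcases P with _ | ⟨x, y, h⟩
  · have : mp j (Affine.Point.zero : P27 k) = 0 := map_zero (mp j)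
    rw [this]
    exact (map_zero j).symm
  · unfold mp
    rw [Affine.Point.map_some]
    rfl


theorem tt_mp (j : k →ₐ[F] k') (P : P27 k) : tt (mp j P) = j (tt P) := by
  unfold tt
  rw [xc_mp, yc_mp, map_div₀, map_neg]

theorem mp_inj (j : k →ₐ[F] k') : Function.Injective (mp j) := by
  rw [injective_iff_map_eq_zero]
  intro P hP
  by_contra h
  exact mp_ne j h hP

theorem ok_map (j : k →ₐ[F] k') : j (ok k) = ok k' := j.commutes _

theorem mp_omP (j : k →ₐ[F] k') (P : P27 k) : mp j (omP P) = omP (mp j P) := by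
  by_cases hP : P = 0
  · rw [hP, map_zero, map_zero, map_zero]
  · refine pt_ext (mp_ne j (omF_ne hP)) (omF_ne (mp_ne j hP)) ?_ ?_
    · rw [xc_mp, xc_omP, xc_omP, xc_mp, map_mul, ok_map]
    · rw [yc_mp, yc_omP, yc_omP, yc_mp]

theorem mp_act (j : k →ₐ[F] k') (c : O) (P : P27 k) : mp j (act c P) = act c (mp j P) := by
  obtain ⟨a, b, rfl⟩ := exists_repr c
  rw [act_apply, act_apply, map_add, map_zsmul, map_zsmul, mp_omP]

theorem mp_mem_Tor (j : k →ₐ[F] k') (c : O) (P : P27 k) : mp j P ∈ Tor c k' ↔ P ∈ Tor c k := by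
  rw [mem_Tor, mem_Tor, ← mp_act, map_eq_zero_iff _ (mp_inj j)]

/-- The action of an automorphism is a map on points. -/
theorem ac_eq (s : k ≃ₐ[F] k) (P : P27 k) : H55P.ac W27 s P = mp s.toAlgHom P := rfl

theorem Full.finite {c : O} (hc : c ≠ 0) (h : Full c k) : Finite (Tor c k) := by
  apply Nat.finite_of_card_ne_zero
  unfold Full at h
  rw [h]
  exact fun h0 => hc (Nm_eq_zero.1 h0)

/-- Full torsion is preserved by embeddings: the map is a bijection. -/
theorem Full.bij {c : O} (hc : c ≠ 0) (j : k →ₐ[F] k') (h : Full c k) (h' : Full c k') :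
    ∀ R ∈ Tor c k', ∃ S ∈ Tor c k, mp j S = R := by
  have f1 := h.finite hc
  have f2 := h'.finite hc
  let φ : Tor c k → Tor c k' := fun S => ⟨mp j S.1, (mp_mem_Tor j c S.1).2 S.2⟩
  have hφ : Function.Injective φ := fun a b hab => Subtype.ext (mp_inj j (congrArg Subtype.val hab))
  have hb : Function.Bijective φ := by
    rw [Nat.bijective_iff_injective_and_card]
    exact ⟨hφ, by rw [h, h']⟩
  intro R hR
  obtain ⟨S, hS⟩ := hb.2 ⟨R, hR⟩
  exact ⟨S.1, S.2, congrArg Subtype.val hS⟩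

end H28G
end

-- from Lib.H13S.Defs
section

/-!
# H13S: definitions

From Selmer classes of y^2 + y = x^3 over F = Q(om) to elements of the field of torsion points (part S of
the base case RB, problem MP_f50388). See PROOF.md.
-/

open NumberField IsDedekindDomain

namespace H13S

open H55P H28G H55B

/-- The valuation ring V of Ω lies above the prime w of the subfield K. -/
def Abv {F₀ : Type} [Field F₀] {Ω : Type} [Field Ω] [Algebra F₀ Ω] (K : IntermediateField F₀ Ω)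
    [NumberField K] (V : ValuationSubring Ω) (w : HeightOneSpectrum (𝓞 K)) : Prop :=
  ∀ x : K, (x : Ω) ∈ V ↔ w.valuation K x ≤ 1

variable {Ω : Type} [Field Ω] [DecidableEq Ω] [Algebra F Ω]

/-- The data: a primary prime element pi of O above the prime number l, and a cocycle c with values in the
points killed by the conjugate of pi, which is locally a coboundary on all inertia groups. -/
structure Cl (π : O) (l : ℕ) (c : (Ω ≃ₐ[F] Ω) → P27 Ω) : Prop where
  hl : l.Prime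
  five : 5 ≤ l
  pr : Prime π
  prim : Prim π
  dvd : π ∣ (l : O)
  mul : ∀ s t, c (s * t) = c s + ac W27 s (c t)
  cont : ∃ L : IntermediateField F Ω, FiniteDimensional F L ∧ ∀ s ∈ L.fixingSubgroup, c s = 0
  val : ∀ s, c s ∈ Tor (cj π) Ω
  loc : ∀ V : ValuationSubring Ω, ∃ P : P27 Ω, ∀ s, Inert V s → c s = ac W27 s P - P

/-- A Galois equivariant pairing between the points killed by the conjugate of pi and those killed by pi, with
values in the l-th roots of unity. -/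
structure Pairing (π : O) (l : ℕ) (e : P27 Ω → P27 Ω → Ω) : Prop where
  add_left : ∀ X ∈ Tor (cj π) Ω, ∀ X' ∈ Tor (cj π) Ω, ∀ T ∈ Tor π Ω, e (X + X') T = e X T * e X' T
  add_right : ∀ X ∈ Tor (cj π) Ω, ∀ T ∈ Tor π Ω, ∀ T' ∈ Tor π Ω, e X (T + T') = e X T * e X T'
  root : ∀ X ∈ Tor (cj π) Ω, ∀ T ∈ Tor π Ω, e X T ^ l = 1
  act : ∀ (s : Ω ≃ₐ[F] Ω), ∀ X ∈ Tor (cj π) Ω, ∀ T ∈ Tor π Ω, s (e X T) = e (ac W27 s X) (ac W27 s T)
  nondeg : ∀ X ∈ Tor (cj π) Ω, (∀ T ∈ Tor π Ω, e X T = 1) → X = 0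

/-- L is the field generated by the points killed by pi. -/
def IsTF (π : O) (L : IntermediateField F Ω) : Prop :=
  FiniteDimensional F L ∧ ∀ s : Ω ≃ₐ[F] Ω, s ∈ L.fixingSubgroup ↔ ∀ T ∈ Tor π Ω, ac W27 s T = T

/-- y is a Kummer generator for the point T. -/
def Kum (L : IntermediateField F Ω) (e : P27 Ω → P27 Ω → Ω) (c : (Ω ≃ₐ[F] Ω) → P27 Ω) (T : P27 Ω) (y : Ω) :
    Prop :=
  y ≠ 0 ∧ ∀ s ∈ L.fixingSubgroup, s y = e (c s) T * y

theorem ac_one (P : P27 Ω) : ac W27 (1 : Ω ≃ₐ[F] Ω) P = P := by cases P <;> rfl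

theorem ac_mul (s t : Ω ≃ₐ[F] Ω) (P : P27 Ω) : ac W27 (s * t) P = ac W27 s (ac W27 t P) := by
  cases P <;> rfl

theorem ac_inv (s : Ω ≃ₐ[F] Ω) (P : P27 Ω) : ac W27 s (ac W27 s⁻¹ P) = P := by
  rw [← ac_mul, mul_inv_cancel, ac_one]

theorem ac_act (s : Ω ≃ₐ[F] Ω) (a : O) (P : P27 Ω) : ac W27 s (act a P) = act a (ac W27 s P) :=
  mp_act s.toAlgHom a P

theorem ac_mem (s : Ω ≃ₐ[F] Ω) {a : O} {P : P27 Ω} (h : P ∈ Tor a Ω) : ac W27 s P ∈ Tor a Ω :=
  (mp_mem_Tor s.toAlgHom a P).2 h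

theorem Cl.one {π : O} {l : ℕ} {c : (Ω ≃ₐ[F] Ω) → P27 Ω} (h : Cl π l c) : c 1 = 0 := by
  have h1 := h.mul 1 1
  rw [mul_one, ac_one] at h1
  exact left_eq_add.mp h1

end H13S
end

-- from Lib.H28G.VDefs
section

/-! # H28G: reduction at a valuation (definitions) -/

open NumberField IsDedekindDomain WeierstrassCurve

namespace H28G

open H55B

section
variable {k : Type} [Field k] [Algebra F k]
  {Γ : Type} [LinearOrderedCommGroupWithZero Γ] (v : Valuation k Γ)

/-- The points that reduce to the point at infinity. -/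
def E1 (P : P27 k) : Prop := P = 0 ∨ 1 < v (xc P)

theorem E1_zero : E1 v (0 : P27 k) := Or.inl rfl

/-- The coordinate w = - 1 / y at infinity. -/
noncomputable def ww (P : P27 k) : k := -1 / yc P

end

end H28G
end

-- from Lib.H55N.TW1
section

open NumberField IsDedekindDomain

namespace H55N

open H55B H55C

theorem TW1_halfplane_preconnected (d : ℝ) : IsPreconnected {s : ℂ | d < s.re} :=
  (convex_halfSpace_re_gt d).isPreconnected

theorem TW1_isOpen (d : ℝ) : IsOpen {s : ℂ | d < s.re} :=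
  isOpen_lt continuous_const Complex.continuous_re

/-- Identity theorem on a half plane. -/
theorem TW1_ident (d : ℝ) (A B : ℂ → ℂ) (hA : AnalyticOnNhd ℂ A {s | d < s.re})
    (hB : AnalyticOnNhd ℂ B {s | d < s.re}) (h : ∀ s : ℂ, 3 / 2 < s.re → A s = B s)
    (hd : d < 2) (s : ℂ) (hs : d < s.re) : A s = B s := by
  have h1 : (2 : ℂ) ∈ {s : ℂ | d < s.re} := by simpa using hd
  have h2 : A =ᶠ[nhds (2 : ℂ)] B := by
    have h3 : {s : ℂ | 3 / 2 < s.re} ∈ nhds (2 : ℂ) :=
      (TW1_isOpen (3 / 2)).mem_nhds (by simp; norm_num)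
    filter_upwards [h3] with z hz
    exact h z hz
  exact hA.eqOn_of_preconnected_of_eventuallyEq hB (TW1_halfplane_preconnected d) h1 h2 hs

/-- Chunk TW1 (M), gluing. Put d0 = max(1/2, 3/2 - delta). On the half plane Re s > d0 the functions G and P * Z are analytic and agree for
Re s > 3/2, so they agree (AnalyticOnNhd.eqOn_of_preconnected_of_eventuallyEq; the half plane is convex). Define Lam s = Z s if
Re s > d0, and G s / P s otherwise. For d0 < Re s < 3/2 both formulas agree (P s <> 0). So Lam is analytic at every point with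
Re s > 1/2: near points with Re s > d0 it is Z, near points with 1/2 < Re s < 3/2 it is G/P. -/
theorem glue (δ : ℝ) (hδ : 0 < δ) (G Z P : ℂ → ℂ) (hG : AnalyticOnNhd ℂ G {s | 1 / 2 < s.re})
    (hZ : AnalyticOnNhd ℂ Z {s | 3 / 2 - δ < s.re}) (hP : AnalyticOnNhd ℂ P {s | 1 / 2 < s.re})
    (hP0 : ∀ s : ℂ, s.re < 3 / 2 → P s ≠ 0)
    (h : ∀ s : ℂ, 3 / 2 < s.re → G s = P s * Z s) :
    ∃ Λ : ℂ → ℂ, AnalyticOnNhd ℂ Λ {s | 1 / 2 < s.re} ∧ (∀ s : ℂ, 3 / 2 < s.re → Λ s = Z s) ∧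
      ∀ s : ℂ, 1 / 2 < s.re → G s = P s * Λ s := by
  classical
  set d := max (1 / 2) (3 / 2 - δ) with hd
  have hd1 : 1 / 2 ≤ d := le_max_left _ _
  have hd2 : 3 / 2 - δ ≤ d := le_max_right _ _
  have hd3 : d < 3 / 2 := max_lt (by norm_num) (by linarith)
  have hGd : AnalyticOnNhd ℂ G {s | d < s.re} := hG.mono fun s hs => lt_of_le_of_lt hd1 hs
  have hZd : AnalyticOnNhd ℂ Z {s | d < s.re} := hZ.mono fun s hs => lt_of_le_of_lt hd2 hs
  have hPd : AnalyticOnNhd ℂ P {s | d < s.re} := hP.mono fun s hs => lt_of_le_of_lt hd1 hs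
  have key : ∀ s : ℂ, d < s.re → G s = P s * Z s :=
    fun s hs => TW1_ident d G (fun s => P s * Z s) hGd (hPd.mul hZd) h (by linarith) s hs
  refine ⟨fun s => if d < s.re then Z s else G s / P s, ?_, ?_, ?_⟩
  · intro s hs
    by_cases hs' : d < s.re
    · refine (hZd s hs').congr ?_
      filter_upwards [(TW1_isOpen d).mem_nhds hs'] with z hz
      have hz' : d < z.re := hz
      rw [if_pos hz']
    · have h1 : s.re < 3 / 2 := lt_of_le_of_lt (not_lt.1 hs') hd3
      have h2 : AnalyticAt ℂ (fun z => G z / P z) s := (hG s hs).div (hP s hs) (hP0 s h1)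
      refine h2.congr ?_
      have h3 : {z : ℂ | z.re < 3 / 2} ∈ nhds s :=
        (isOpen_lt Complex.continuous_re continuous_const).mem_nhds h1
      filter_upwards [h3] with z hz
      by_cases hz' : d < z.re
      · rw [if_pos hz', key z hz', mul_comm, mul_div_assoc, div_self (hP0 z hz), mul_one]
      · rw [if_neg hz']
  · intro s hs
    have h1 : d < s.re := lt_trans hd3 hs
    exact if_pos h1
  · intro s hs
    by_cases hs' : d < s.re
    · simp only [if_pos hs']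
      exact key s hs'
    · have h1 : s.re < 3 / 2 := lt_of_le_of_lt (not_lt.1 hs') hd3
      simp only [if_neg hs']
      rw [mul_div_cancel₀ _ (hP0 s h1)]

/-- Identity theorem on the half plane. -/
theorem ident (A B : ℂ → ℂ) (hA : AnalyticOnNhd ℂ A {s | 1 / 2 < s.re})
    (hB : AnalyticOnNhd ℂ B {s | 1 / 2 < s.re}) (h : ∀ s : ℂ, 3 / 2 < s.re → A s = B s) (s : ℂ)
    (hs : 1 / 2 < s.re) : A s = B s :=
  TW1_ident (1 / 2) A B hA hB h (by norm_num) s hs

end H55N
end

-- from Lib.H55R.HA8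
section

open NumberField IsDedekindDomain

namespace H55R

variable {K L : Type} [Field K] [NumberField K] [Field L] [NumberField L] [Algebra K L]

/-- The permutation τ is the action of σ on the primes in T and on the infinite places. -/
structure Tau (σ : Gal(L/K)) (T : Finset (Pl L)) (τ : Equiv.Perm (T ⊕ InfinitePlace L)) : Prop where
  fin : ∀ W : T, ∃ W' : T, τ (Sum.inl W) = Sum.inl W' ∧ W'.1 = smulP σ W.1
  inf : ∀ V : InfinitePlace L, τ (Sum.inr V) = Sum.inr (σ • V)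

/-! Chunk HA8 (M): the equivariant family. n = [L : K]. exists_tau: T is stable under σ (under_smulP), σ has order dividing n
(pow_card_eq_one, IsGalois.card_aut_eq_finrank), smulP_mul, smulP_one, mul_smul. sg_pow: (sg σ)^n = 1 for the same reason.
exists_eta: eq_family (HA4) with R (inl W) y: 0 < ord W y and ord W' y = 0 for W' <> W; R (inr V) y: ord = 0 everywhere and V' y < 1 for V' <> V.
hadd: ord of a product is the sum, V' (y z) = V' y V' z. heq: ord_smul (for W' <> σ W write W' = σ W'' with W'' = σ^-1 W' <> W) and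
InfinitePlace.smul_apply: (σ • V')(σ y) = V' y. hex: unit_place, prime_unit (HA5; for a unit y of 𝓞 L the orders are 0). n > 0. -/

theorem HA8_pow [IsGalois K L] (σ : Gal(L/K)) : σ ^ Module.finrank K L = 1 := by
  rw [← IsGalois.card_aut_eq_finrank]
  exact pow_card_eq_one'

omit [NumberField K] [NumberField L] in
theorem HA8_sg_pow (σ : Gal(L/K)) (i : ℕ) : (sg σ) ^ i = sg (σ ^ i) := by
  induction i with
  | zero =>
    rw [pow_zero, pow_zero]
    ext a
    rfl
  | succ i ih =>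
    rw [pow_succ, ih, pow_succ]
    ext a
    rfl

theorem HA8_smulP_inv (σ : Gal(L/K)) (W : Pl L) : smulP σ⁻¹ (smulP σ W) = W := by
  rw [← smulP_mul, inv_mul_cancel, smulP_one]

theorem HA8_smulP_inv' (σ : Gal(L/K)) (W : Pl L) : smulP σ (smulP σ⁻¹ W) = W := by
  rw [← smulP_mul, mul_inv_cancel, smulP_one]

theorem sg_pow [IsGalois K L] (σ : Gal(L/K)) : (sg σ) ^ Module.finrank K L = 1 := by
  rw [HA8_sg_pow, HA8_pow]
  ext a
  rfl

theorem exists_tau [IsGalois K L] (σ : Gal(L/K)) (S : Set (Pl K)) (T : Finset (Pl L))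
    (hT : ∀ W, W ∈ T ↔ W.under (𝓞 K) ∈ S) :
    ∃ τ : Equiv.Perm (T ⊕ InfinitePlace L), Tau σ T τ ∧ τ ^ Module.finrank K L = 1 := by
  have hst : ∀ (ρ : Gal(L/K)) (W : Pl L), W ∈ T → smulP ρ W ∈ T := by
    intro ρ W hW
    rw [hT, under_smulP]
    exact (hT W).mp hW
  let e : Equiv.Perm T :=
    { toFun := fun W => ⟨smulP σ W.1, hst σ W.1 W.2⟩
      invFun := fun W => ⟨smulP σ⁻¹ W.1, hst σ⁻¹ W.1 W.2⟩
      left_inv := fun W => Subtype.ext (HA8_smulP_inv σ W.1)
      right_inv := fun W => Subtype.ext (HA8_smulP_inv' σ W.1) }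
  let f : Equiv.Perm (InfinitePlace L) := MulAction.toPerm σ
  refine ⟨Equiv.sumCongr e f, ⟨fun W => ⟨e W, rfl, rfl⟩, fun V => rfl⟩, ?_⟩
  have h1 : ∀ (i : ℕ) (W : T), ∃ h, ((Equiv.sumCongr e f) ^ i) (Sum.inl W) =
      Sum.inl ⟨smulP (σ ^ i) W.1, h⟩ := by
    intro i
    induction i with
    | zero =>
      intro W
      refine ⟨hst _ _ W.2, ?_⟩
      rw [pow_zero, Equiv.Perm.one_apply]
      congr 1
      exact Subtype.ext (show W.1 = smulP (σ ^ 0) W.1 by rw [pow_zero, smulP_one])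
    | succ i ih =>
      intro W
      refine ⟨hst _ _ W.2, ?_⟩
      obtain ⟨h, hi⟩ := ih W
      rw [pow_succ', Equiv.Perm.mul_apply, hi]
      show Sum.inl (e _) = _
      congr 1
      exact Subtype.ext (show smulP σ (smulP (σ ^ i) W.1) = smulP (σ ^ (i + 1)) W.1 by
        rw [pow_succ', smulP_mul])
  have h2 : ∀ (i : ℕ) (V : InfinitePlace L), ((Equiv.sumCongr e f) ^ i) (Sum.inr V) =
      Sum.inr ((σ ^ i) • V) := by
    intro i
    induction i with
    | zero =>
      intro V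
      rw [pow_zero, Equiv.Perm.one_apply, pow_zero, one_smul]
    | succ i ih =>
      intro V
      rw [pow_succ', Equiv.Perm.mul_apply, ih]
      show Sum.inr (f _) = _
      congr 1
      show σ • (σ ^ i • V) = _
      rw [← mul_smul, pow_succ']
  ext p
  rcases p with W | V
  · obtain ⟨h, hi⟩ := h1 (Module.finrank K L) W
    rw [hi, Equiv.Perm.one_apply]
    congr 1
    exact Subtype.ext (show smulP (σ ^ Module.finrank K L) W.1 = W.1 by rw [HA8_pow, smulP_one])
  · rw [h2, HA8_pow, one_smul, Equiv.Perm.one_apply]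

theorem exists_eta [IsGalois K L] (σ : Gal(L/K)) (T : Finset (Pl L))
    (τ : Equiv.Perm (T ⊕ InfinitePlace L)) (hτ : Tau σ T τ) (hn : τ ^ Module.finrank K L = 1) :
    ∃ η : T ⊕ InfinitePlace L → Additive Lˣ, Eta T η ∧ ∀ p, η (τ p) = sg σ (η p) := by
  let R : T ⊕ InfinitePlace L → Additive Lˣ → Prop := fun p y =>
    match p with
    | Sum.inl W => 0 < ord W.1 y.toMul ∧ ∀ W' : Pl L, W' ≠ W.1 → ord W' y.toMul = 0
    | Sum.inr V => (∀ W : Pl L, ord W y.toMul = 0) ∧
        ∀ V' : InfinitePlace L, V' ≠ V → V' (y.toMul : L) < 1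
  have hpos : 0 < Module.finrank K L := Module.finrank_pos
  have hsg : ∀ y : Additive Lˣ, (sg σ y).toMul =
      Units.map ((σ : L ≃ₐ[K] L) : L →* L) y.toMul := fun y => rfl
  have hordσ : ∀ (W : Pl L) (y : Lˣ),
      ord W (Units.map ((σ : L ≃ₐ[K] L) : L →* L) y) = ord (smulP σ⁻¹ W) y := by
    intro W y
    rw [← ord_smul σ (smulP σ⁻¹ W) y, HA8_smulP_inv']
  obtain ⟨η, h1, h2⟩ := eq_family (Module.finrank K L) hpos τ hn (sg σ) (sg_pow σ) R
    (by
      rintro (W | V) a b ha hb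
      · refine ⟨?_, fun W' hW' => ?_⟩
        · rw [toMul_add, ord_mul]
          exact add_pos ha.1 hb.1
        · rw [toMul_add, ord_mul, ha.2 W' hW', hb.2 W' hW', add_zero]
      · refine ⟨fun W => ?_, fun V' hV' => ?_⟩
        · rw [toMul_add, ord_mul, ha.1 W, hb.1 W, add_zero]
        · rw [toMul_add, Units.val_mul, map_mul]
          exact mul_lt_one_of_nonneg_of_lt_one_left (apply_nonneg _ _) (ha.2 V' hV') (hb.2 V' hV').le)
    (by
      rintro (W | V) a ha
      · obtain ⟨W', h1, h2⟩ := hτ.fin W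
        rw [h1]
        refine ⟨?_, fun W'' hW'' => ?_⟩
        · rw [hsg, h2, ord_smul]
          exact ha.1
        · rw [hsg, hordσ]
          refine ha.2 _ fun h => hW'' ?_
          rw [h2, ← h, HA8_smulP_inv']
      · rw [hτ.inf V]
        refine ⟨fun W => ?_, fun V' hV' => ?_⟩
        · rw [hsg, hordσ]
          exact ha.1 _
        · rw [hsg]
          have h3 := ha.2 (σ⁻¹ • V') (fun h => hV' (by rw [← h, smul_inv_smul]))
          rw [InfinitePlace.smul_apply] at h3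
          exact h3)
    (by
      rintro (W | V)
      · obtain ⟨y, h1, h2⟩ := prime_unit L W.1
        exact ⟨Additive.ofMul y, h1, h2⟩
      · obtain ⟨y, hy⟩ := unit_place L V
        refine ⟨Additive.ofMul (Units.map (algebraMap (𝓞 L) L : 𝓞 L →* L) y), fun W => ?_,
          fun V' hV' => hy V' hV'⟩
        rw [toMul_ofMul]
        have h1 := (ord_int W (y : 𝓞 L) (Units.map (algebraMap (𝓞 L) L : 𝓞 L →* L) y) rfl 0).mpr
          (by rw [pow_zero, Ideal.one_eq_top]; trivial)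
        have h2 := (ord_int W ((y⁻¹ : (𝓞 L)ˣ) : 𝓞 L)
          (Units.map (algebraMap (𝓞 L) L : 𝓞 L →* L) y⁻¹) rfl 0).mpr
          (by rw [pow_zero, Ideal.one_eq_top]; trivial)
        rw [map_inv, ord_inv] at h2
        rw [Nat.cast_zero] at h1 h2
        omega)
  refine ⟨η, ⟨fun W => h1 (Sum.inl W), fun V => h1 (Sum.inr V)⟩, h2⟩

end H55R
end

-- from Lib.H55R.HA9
section

open NumberField IsDedekindDomain

namespace H55R

variable {K L : Type} [Field K] [NumberField K] [Field L] [NumberField L] [Algebra K L]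

/-! Chunk HA9 (M): the permutation module of the places. Apply herb_perm (HA3) with P = T ⊕ infinite places of L, Q = S ⊕ infinite places of K,
π = the place below (W.under (𝓞 K), V.comap (algebraMap K L)). Surjective: under_exists, InfinitePlace.comap_surjective. Orbits: two primes over the
same prime are conjugate under a power of the generator σ (smulP_trans; every element of the group is a power σ^i with i a natural number because the
group is finite), the action of τ^i is the action of σ^i (smulP_mul, mul_smul, Tau); two infinite places with the same restriction are conjugate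
(InfinitePlace.exists_smul_eq_of_comap_eq). Fibres: above v in S: card_above, so n / card = e f; above an infinite place of K, which is
complex: the fibre is an orbit with trivial stabiliser (Mathlib: a complex place is unramified: InfinitePlace.isUnramified_iff,
InfinitePlace.card_stabilizer or even a direct argument: V.comap = V.comap for σ with σ V = V means that σ fixes the
embedding of L or conjugates it, and conjugation is not K-linear since the place of K is complex), so it has n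
elements and n / card = 1. The product over Q is the product over S. -/

theorem HA9_pow_fin (σ : Gal(L/K)) (T : Finset (Pl L)) (τ : Equiv.Perm (T ⊕ InfinitePlace L))
    (hτ : Tau σ T τ) (i : ℕ) (W : T) :
    ∃ W' : T, (τ ^ i) (Sum.inl W) = Sum.inl W' ∧ W'.1 = smulP (σ ^ i) W.1 := by
  induction i with
  | zero => exact ⟨W, rfl, by rw [pow_zero, smulP_one]⟩
  | succ i ih =>
    obtain ⟨W₁, h1, h2⟩ := ih
    obtain ⟨W₂, h3, h4⟩ := hτ.fin W₁
    refine ⟨W₂, ?_, ?_⟩
    · rw [pow_succ', Equiv.Perm.mul_apply, h1, h3]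
    · rw [h4, h2, pow_succ', smulP_mul]

theorem HA9_pow_inf (σ : Gal(L/K)) (T : Finset (Pl L)) (τ : Equiv.Perm (T ⊕ InfinitePlace L))
    (hτ : Tau σ T τ) (i : ℕ) (V : InfinitePlace L) :
    (τ ^ i) (Sum.inr V) = Sum.inr (σ ^ i • V) := by
  induction i with
  | zero => rw [pow_zero, pow_zero, one_smul]; rfl
  | succ i ih =>
    rw [pow_succ', Equiv.Perm.mul_apply, ih, hτ.inf, pow_succ', mul_smul]

theorem HA9_card_inf [IsGalois K L] (V : InfinitePlace K) (hV : V.IsComplex)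
    (s : Finset (InfinitePlace L)) (hs : ∀ w, w ∈ s ↔ w.comap (algebraMap K L) = V) :
    s.card = Module.finrank K L := by
  classical
  obtain ⟨w₀, hw₀⟩ := InfinitePlace.comap_surjective (K := L) V
  have hw₀' : w₀.comap (algebraMap K L) = V := hw₀
  have hun : w₀.IsUnramified K := by
    rw [InfinitePlace.isUnramified_iff]
    right
    rw [hw₀']
    exact hV
  have hst := hun.stabilizer_eq_bot
  have hinj : Function.Injective (fun g : Gal(L/K) => g • w₀) := by
    intro g h hgh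
    have h1 : g • w₀ = h • w₀ := hgh
    have h2 : h⁻¹ * g ∈ MulAction.stabilizer Gal(L/K) w₀ := by
      rw [MulAction.mem_stabilizer_iff, mul_smul, h1, inv_smul_smul]
    rw [hst, Subgroup.mem_bot] at h2
    exact (inv_mul_eq_one.1 h2).symm
  have hs' : s = Finset.univ.image (fun g : Gal(L/K) => g • w₀) := by
    ext w
    rw [hs, Finset.mem_image]
    constructor
    · intro h
      obtain ⟨g, hg⟩ := InfinitePlace.exists_smul_eq_of_comap_eq (k := K) (w := w₀) (w' := w)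
        (by rw [hw₀', h])
      exact ⟨g, Finset.mem_univ _, hg⟩
    · rintro ⟨g, -, rfl⟩
      have h1 := InfinitePlace.mem_orbit_iff (k := K) (w := w₀) (w' := g • w₀) |>.1 ⟨g, rfl⟩
      rw [← h1, hw₀']
  rw [hs', Finset.card_image_of_injective _ hinj, Finset.card_univ, ← Nat.card_eq_fintype_card,
    IsGalois.card_aut_eq_finrank]

theorem herb_places [IsGalois K L] (σ : Gal(L/K)) (hσ : ∀ g : Gal(L/K), g ∈ Subgroup.zpowers σ)
    (hK : ∀ v : InfinitePlace K, v.IsComplex) (S : Finset (Pl K)) (T : Finset (Pl L))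
    (hT : ∀ W, W ∈ T ↔ W.under (𝓞 K) ∈ S) (τ : Equiv.Perm (T ⊕ InfinitePlace L))
    (hτ : Tau σ T τ) (hn : τ ^ Module.finrank K L = 1) :
    h1 (Module.finrank K L) (pe τ) ⊤ = 1 ∧
      h0 (Module.finrank K L) (pe τ) ⊤ = ∏ v ∈ S, (es K L v * fs K L v) := by
  classical
  have hn0 : 0 < Module.finrank K L := Module.finrank_pos
  have hpow : ∀ g : Gal(L/K), ∃ i : ℕ, σ ^ i = g := by
    intro g
    have h1 := hσ g
    rw [← mem_powers_iff_mem_zpowers] at h1
    exact h1
  let π : T ⊕ InfinitePlace L → S ⊕ InfinitePlace K :=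
    Sum.map (fun W => ⟨W.1.under (𝓞 K), (hT W.1).1 W.2⟩) (fun V => V.comap (algebraMap K L))
  have hs : Function.Surjective π := by
    rintro (v | V)
    · obtain ⟨W, hW⟩ := under_exists (K := K) (L := L) v.1
      refine ⟨Sum.inl ⟨W, (hT W).2 (by rw [hW]; exact v.2)⟩, ?_⟩
      show Sum.inl _ = Sum.inl v
      congr 1
      exact Subtype.ext hW
    · obtain ⟨w₀, hw₀⟩ := InfinitePlace.comap_surjective (K := L) V
      exact ⟨Sum.inr w₀, congrArg Sum.inr hw₀⟩
  have ho : ∀ p p', π p = π p' ↔ ∃ i : ℕ, (τ ^ i) p = p' := by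
    rintro (W | V) (W' | V')
    · constructor
      · intro h
        have h1 : W.1.under (𝓞 K) = W'.1.under (𝓞 K) := congrArg Subtype.val (Sum.inl_injective h)
        obtain ⟨g, hg⟩ := smulP_trans W.1 W'.1 h1
        obtain ⟨i, hi⟩ := hpow g
        obtain ⟨W₁, h2, h3⟩ := HA9_pow_fin σ T τ hτ i W
        refine ⟨i, ?_⟩
        rw [h2]
        congr 1
        apply Subtype.ext
        rw [h3, hi, hg]
      · rintro ⟨i, hi⟩
        obtain ⟨W₁, h2, h3⟩ := HA9_pow_fin σ T τ hτ i W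
        rw [h2] at hi
        have h4 := Sum.inl_injective hi
        show Sum.inl _ = Sum.inl _
        congr 1
        apply Subtype.ext
        show W.1.under (𝓞 K) = W'.1.under (𝓞 K)
        rw [← h4, h3, under_smulP]
    · constructor
      · intro h
        exact absurd h Sum.inl_ne_inr
      · rintro ⟨i, hi⟩
        obtain ⟨W₁, h2, h3⟩ := HA9_pow_fin σ T τ hτ i W
        rw [h2] at hi
        exact absurd hi Sum.inl_ne_inr
    · constructor
      · intro h
        exact absurd h Sum.inr_ne_inl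
      · rintro ⟨i, hi⟩
        rw [HA9_pow_inf σ T τ hτ] at hi
        exact absurd hi Sum.inr_ne_inl
    · constructor
      · intro h
        have h1 : V.comap (algebraMap K L) = V'.comap (algebraMap K L) := Sum.inr_injective h
        obtain ⟨g, hg⟩ := InfinitePlace.exists_smul_eq_of_comap_eq (k := K) h1
        obtain ⟨i, hi⟩ := hpow g
        exact ⟨i, by rw [HA9_pow_inf σ T τ hτ, hi, hg]⟩
      · rintro ⟨i, hi⟩
        rw [HA9_pow_inf σ T τ hτ] at hi
        have h4 := Sum.inr_injective hi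
        show Sum.inr _ = Sum.inr _
        congr 1
        exact InfinitePlace.mem_orbit_iff (k := K) |>.1 ⟨σ ^ i, h4⟩
  obtain ⟨h1, h2⟩ := herb_perm τ _ hn0 hn π hs ho
  refine ⟨h1, ?_⟩
  rw [h2, Fintype.prod_sum_type]
  have h3 : ∀ V : InfinitePlace K, Module.finrank K L /
      (Finset.univ.filter fun p => π p = Sum.inr V).card = 1 := by
    intro V
    have h4 : (Finset.univ.filter fun p => π p = Sum.inr V).card = Module.finrank K L := by
      rw [← HA9_card_inf (L := L) V (hK V)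
        (Finset.univ.filter fun w : InfinitePlace L => w.comap (algebraMap K L) = V) (by simp)]
      symm
      apply Finset.card_bij (fun w _ => Sum.inr w)
      · intro w hw
        rw [Finset.mem_filter] at hw ⊢
        exact ⟨Finset.mem_univ _, congrArg Sum.inr hw.2⟩
      · intro a _ b _ hab
        exact Sum.inr_injective hab
      · rintro (W | w) hb
        · rw [Finset.mem_filter] at hb
          exact absurd hb.2 Sum.inl_ne_inr
        · rw [Finset.mem_filter] at hb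
          refine ⟨w, ?_, rfl⟩
          rw [Finset.mem_filter]
          exact ⟨Finset.mem_univ _, Sum.inr_injective hb.2⟩
    rw [h4, Nat.div_self hn0]
  rw [Finset.prod_congr rfl (fun V _ => h3 V), Finset.prod_const_one, mul_one,
    ← Finset.prod_coe_sort S]
  apply Finset.prod_congr rfl
  intro v _
  have h4 : (Finset.univ.filter fun p => π p = Sum.inl v).card =
      (T.filter fun W => W.under (𝓞 K) = v.1).card := by
    symm
    apply Finset.card_bij (fun W hW => Sum.inl ⟨W, (Finset.mem_filter.1 hW).1⟩)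
    · intro W hW
      rw [Finset.mem_filter] at hW ⊢
      exact ⟨Finset.mem_univ _, congrArg Sum.inl (Subtype.ext hW.2)⟩
    · intro a _ b _ hab
      exact congrArg Subtype.val (Sum.inl_injective hab)
    · rintro (W | w) hb
      · rw [Finset.mem_filter] at hb
        refine ⟨W.1, ?_, rfl⟩
        rw [Finset.mem_filter]
        exact ⟨W.2, congrArg Subtype.val (Sum.inl_injective hb.2)⟩
      · rw [Finset.mem_filter] at hb
        exact absurd hb.2 Sum.inr_ne_inl
  have h5 := card_above (K := K) (L := L) v.1 (T.filter fun W => W.under (𝓞 K) = v.1) (by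
    intro W
    rw [Finset.mem_filter, hT]
    constructor
    · exact fun h => h.2
    · intro h
      exact ⟨by rw [h]; exact v.2, h⟩)
  rw [h4]
  have h6 : 0 < (T.filter fun W => W.under (𝓞 K) = v.1).card := by
    rcases Nat.eq_zero_or_pos (T.filter fun W => W.under (𝓞 K) = v.1).card with h | h
    · rw [h, zero_mul] at h5
      omega
    · exact h
  rw [← h5, Nat.mul_div_cancel_left _ h6]

end H55R
end

-- from Lib.H55R.HC4
section

open NumberField IsDedekindDomain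

namespace H55R

variable {K : Type} [Field K] [NumberField K]

/-! Chunk HC4 (M): values at principal ideals. pv_elem: the multiset of prime factors of (x) contains v exactly ord v x times
(ord_int of chunk BF1, or the count of v in the factorisation; Finset/Multiset.prod over the distinct factors, Finset.prod_multiset_map_count);
the factors v in U not containing x have order 0.
phi_elem: let U be the set of the primes containing x; none contains f. By pv_elem pv φ (x) = product over v in U of φ(v)^(ord v y). Let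
z = y * product over v in U, v not in S, of (xs v)^(- ord v y); z is an S-unit (GenX; for u in neither U nor S all orders are 0), so Psi z = 1:
Psi y = product over v in U minus S of Psi (xs v)^(ord v y). With phi_of_mem and phi_of_not_mem pv φ (x) = (product over s in S of
q.2 s ^ ord s y) * (Psi y)^-1 = (product over R of q.1 w (resv w y))^-1 (Psi_apply; ord s y = 0 for s in S not in U). -/

theorem HC4_prod {ι : Type} (W : Pl K) (s : Finset ι) (f : ι → Kˣ) :
    ord W (∏ i ∈ s, f i) = ∑ i ∈ s, ord W (f i) := by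
  classical
  induction s using Finset.induction_on with
  | empty => rw [Finset.prod_empty, Finset.sum_empty, ord_one]
  | insert a s ha ih => rw [Finset.prod_insert ha, Finset.sum_insert ha, ord_mul, ih]

open Classical in
theorem HC4_count (x : 𝓞 K) (y : Kˣ) (h : (y : K) = x) (v : Pl K) :
    ((UniqueFactorizationMonoid.normalizedFactors (Ideal.span {x})).count v.asIdeal : ℤ) =
      ord v y := by
  have h0 : (0 : ℤ) ≤ ord v y := by
    have := (ord_int v x y h 0).2 (by simp)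
    exact_mod_cast this
  obtain ⟨n, hn⟩ := Int.eq_ofNat_of_zero_le h0
  have hp := v.isPrime
  rw [hn]
  congr 1
  apply Ideal.count_normalizedFactors_eq
  · rw [Ideal.span_singleton_le_iff_mem, ← ord_int v x y h, hn]
  · rw [Ideal.span_singleton_le_iff_mem, ← ord_int v x y h, hn]
    push_cast
    omega

theorem HC4_zero (x : 𝓞 K) (y : Kˣ) (h : (y : K) = x) (v : Pl K) (hv : x ∉ v.asIdeal) :
    ord v y = 0 := by
  have h0 : (0 : ℤ) ≤ ord v y := by
    have := (ord_int v x y h 0).2 (by simp)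
    exact_mod_cast this
  have h1 : ¬ ((1 : ℕ) : ℤ) ≤ ord v y := by
    rw [ord_int v x y h, pow_one]
    exact hv
  push_cast at h1
  omega

theorem HC4_ne (x : 𝓞 K) (y : Kˣ) (h : (y : K) = x) : x ≠ 0 := by
  rintro rfl
  apply y.ne_zero
  rw [h]
  simp

theorem pv_elem (φ : Pl K → ℂˣ) (x : 𝓞 K) (y : Kˣ) (h : (y : K) = x) (U : Finset (Pl K))
    (hU : ∀ v : Pl K, x ∈ v.asIdeal → v ∈ U) :
    pv φ (Ideal.span {x}) = ∏ v ∈ U, φ v ^ ord v y := by
  classical
  unfold pv
  rw [Finset.prod_multiset_map_count]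
  have h1 : (UniqueFactorizationMonoid.normalizedFactors (Ideal.span {x})).toFinset ⊆
      U.image HeightOneSpectrum.asIdeal := by
    intro P hP
    rw [Multiset.mem_toFinset] at hP
    have hpr := UniqueFactorizationMonoid.prime_of_normalized_factor P hP
    have hdvd := UniqueFactorizationMonoid.dvd_of_mem_normalizedFactors hP
    have hP1 : P.IsPrime := Ideal.isPrime_of_prime hpr
    rw [Finset.mem_image]
    refine ⟨⟨P, hP1, hpr.ne_zero⟩, hU _ ?_, rfl⟩
    exact Ideal.dvd_span_singleton.1 hdvd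
  rw [Finset.prod_subset h1]
  · rw [Finset.prod_image]
    · refine Finset.prod_congr rfl fun v _ => ?_
      have hv : v.asIdeal.IsPrime ∧ v.asIdeal ≠ ⊥ := ⟨v.isPrime, v.ne_bot⟩
      rw [dif_pos hv, ← HC4_count x y h v, zpow_natCast]
    · intro v _ w _ hvw
      exact HeightOneSpectrum.ext hvw
  · intro P _ hP
    rw [Multiset.mem_toFinset] at hP
    rw [Multiset.count_eq_zero_of_notMem hP, pow_zero]

theorem phi_elem (f : Ideal (𝓞 K)) (R S : Finset (Pl K)) (xs : Pl K → Kˣ) (q : XX R S)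
    (hR : ∀ v : Pl K, v ∈ R ↔ f ≤ v.asIdeal) (hS : ∀ v ∈ S, ¬ f ≤ v.asIdeal)
    (hxs : GenX S xs) (hq : ∀ x ∈ SU (S : Set (Pl K)), Psi R S q x = 1) (x : 𝓞 K) (y : Kˣ)
    (h : (y : K) = x) (hx : IsCoprime (Ideal.span {x}) f) :
    pv (phi f R S xs q) (Ideal.span {x}) = (∏ w : R, q.1 w (resv w.1 y))⁻¹ := by
  classical
  have hx0 := HC4_ne x y h
  have hfin : {v : Pl K | x ∈ v.asIdeal}.Finite := by
    have h1 := Ideal.finite_factors (I := Ideal.span {x}) (by
      intro h2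
      exact hx0 (Ideal.span_singleton_eq_bot.1 h2))
    refine h1.subset fun v hv => ?_
    exact Ideal.dvd_span_singleton.2 hv
  set U := hfin.toFinset with hUdef
  have hU : ∀ v : Pl K, v ∈ U ↔ x ∈ v.asIdeal := fun v => by
    rw [hUdef, Set.Finite.mem_toFinset]
    rfl
  have hUf : ∀ v ∈ U, ¬ f ≤ v.asIdeal := by
    intro v hv hf
    rw [Ideal.isCoprime_iff_sup_eq] at hx
    apply v.isPrime.ne_top
    rw [eq_top_iff, ← hx]
    exact sup_le ((Ideal.span_singleton_le_iff_mem _).2 ((hU v).1 hv)) hf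
  rw [pv_elem _ x y h U fun v hv => (hU v).2 hv,
    ← Finset.prod_filter_mul_prod_filter_not U (fun v => v ∈ S)]
  have e1 : ∏ v ∈ U.filter (fun v => v ∈ S), phi f R S xs q v ^ ord v y =
      ∏ s : S, q.2 s ^ ord s.1 y := by
    have e2 : ∏ s : S, q.2 s ^ ord s.1 y = ∏ s : S, phi f R S xs q s.1 ^ ord s.1 y := by
      refine Finset.prod_congr rfl fun s _ => ?_
      rw [phi_of_mem f R S xs q s.1 (hS s.1 s.2) s.2]
    rw [e2, Finset.prod_coe_sort S fun v => phi f R S xs q v ^ ord v y]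
    refine Finset.prod_subset (fun v hv => (Finset.mem_filter.1 hv).2) ?_
    intro v hv hv2
    rw [HC4_zero x y h v, zpow_zero]
    intro h3
    exact hv2 (Finset.mem_filter.2 ⟨(hU v).2 h3, hv⟩)
  have hz : y * ∏ v ∈ U.filter (fun v => v ∉ S), (xs v) ^ (-ord v y) ∈ SU (S : Set (Pl K)) := by
    intro u hu
    rw [Finset.mem_coe] at hu
    rw [ord_mul, HC4_prod]
    simp only [ord_zpow]
    by_cases huU : u ∈ U
    · rw [Finset.sum_eq_single u, (hxs u).1 hu]
      · ring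
      · intro v _ hne
        rw [(hxs v).2 u hu hne.symm, mul_zero]
      · intro h3
        exact absurd (Finset.mem_filter.2 ⟨huU, hu⟩) h3
    · rw [HC4_zero x y h u fun h3 => huU ((hU u).2 h3), zero_add]
      refine Finset.sum_eq_zero fun v hv => ?_
      rw [(hxs v).2 u hu, mul_zero]
      rintro rfl
      exact huU (Finset.mem_filter.1 hv).1
  have h4 := hq _ hz
  rw [map_mul, map_prod] at h4
  have e3 : ∏ v ∈ U.filter (fun v => ¬ v ∈ S), phi f R S xs q v ^ ord v y = (Psi R S q y)⁻¹ := by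
    rw [← mul_eq_one_iff_eq_inv, mul_comm, ← h4]
    congr 1
    refine Finset.prod_congr rfl fun v hv => ?_
    rw [Finset.mem_filter] at hv
    rw [phi_of_not_mem f R S xs q v (hUf v hv.1) hv.2, map_zpow, inv_zpow, zpow_neg]
  rw [e1, e3, Psi_apply, mul_inv, mul_comm, mul_assoc, inv_mul_cancel, mul_one]

end H55R
end

-- from Lib.H55R.HC5
section

open NumberField IsDedekindDomain

namespace H55R

variable {K : Type} [Field K] [NumberField K]

/-! Chunk HC5 (M). phi_RC: by phi_elem; if x - y is in f, x prime to f, then y is prime to f and for w in R, x and y have the same nonzero residue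
modulo w, so resv w x = resv w y (resv_apply, Units.ext). phi_inj: let phi q = 1. For s in S: q.2 s = phi q s = 1. For w0 in R and u in
(𝓞 K ⧸ w0)ˣ choose x in 𝓞 K with x = u mod w0 and x = 1 mod w for the other w in R (Chinese remainder theorem, the w are distinct maximal ideals), x <> 0
(not in w0); x is prime to f (a prime containing f is in R and does not contain x). By phi_elem 1 = pv 1 (x) = (q.1 w0 u)^-1
(resv w x = 1 for w <> w0). If R is empty nothing is to be shown for R. -/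

theorem HC5_notMem {f : Ideal (𝓞 K)} {x : 𝓞 K} (hx : IsCoprime (Ideal.span {x}) f) (v : Pl K)
    (hv : f ≤ v.asIdeal) : x ∉ v.asIdeal := by
  intro h
  rw [Ideal.isCoprime_iff_sup_eq] at hx
  apply v.isPrime.ne_top
  rw [eq_top_iff, ← hx]
  exact sup_le ((Ideal.span_singleton_le_iff_mem _).2 h) hv

theorem HC5_coe {x : 𝓞 K} (hx : x ≠ 0) : (x : K) ≠ 0 := by
  intro h
  exact hx (by exact_mod_cast h)

theorem phi_RC (f : Ideal (𝓞 K)) (R S : Finset (Pl K)) (xs : Pl K → Kˣ) (q : XX R S)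
    (hR : ∀ v : Pl K, v ∈ R ↔ f ≤ v.asIdeal) (hS : ∀ v ∈ S, ¬ f ≤ v.asIdeal)
    (hxs : GenX S xs) (hq : ∀ x ∈ SU (S : Set (Pl K)), Psi R S q x = 1) :
    phi f R S xs q ∈ RC f := by
  refine ⟨fun v hv => phi_of_dvd f R S xs q v hv, fun x y hx hy hc hxy => ?_⟩
  have hc' : IsCoprime (Ideal.span {y}) f := by
    rw [Ideal.isCoprime_iff_sup_eq] at hc ⊢
    rw [eq_top_iff, ← hc]
    refine sup_le ?_ le_sup_right
    rw [Ideal.span_singleton_le_iff_mem]
    have h1 : x = y + (x - y) := by ring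
    rw [h1]
    exact Ideal.add_mem _ (Ideal.mem_sup_left (Ideal.mem_span_singleton_self y))
      (Ideal.mem_sup_right hxy)
  rw [phi_elem f R S xs q hR hS hxs hq x (Units.mk0 (x : K) (HC5_coe hx)) rfl hc,
    phi_elem f R S xs q hR hS hxs hq y (Units.mk0 (y : K) (HC5_coe hy)) rfl hc']
  congr 1
  refine Finset.prod_congr rfl fun w _ => ?_
  congr 1
  apply Units.ext
  have hw := (hR w.1).1 w.2
  rw [resv_apply w.1 x _ rfl (HC5_notMem hc w.1 hw), resv_apply w.1 y _ rfl (HC5_notMem hc' w.1 hw),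
    Ideal.Quotient.eq]
  exact hw hxy

theorem phi_inj (f : Ideal (𝓞 K)) (R S : Finset (Pl K)) (xs : Pl K → Kˣ) (q : XX R S)
    (hR : ∀ v : Pl K, v ∈ R ↔ f ≤ v.asIdeal) (hS : ∀ v ∈ S, ¬ f ≤ v.asIdeal)
    (hxs : GenX S xs) (hq : ∀ x ∈ SU (S : Set (Pl K)), Psi R S q x = 1)
    (h1 : phi f R S xs q = 1) : q = 1 := by
  classical
  refine Prod.ext ?_ ?_
  swap
  · funext s
    rw [← phi_of_mem f R S xs q s.1 (hS s.1 s.2) s.2, h1]
    rfl
  funext w₀
  apply MonoidHom.ext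
  intro u
  obtain ⟨r, hr⟩ := Ideal.Quotient.mk_surjective (I := w₀.1.asIdeal) (u : 𝓞 K ⧸ w₀.1.asIdeal)
  obtain ⟨x, hx⟩ := IsDedekindDomain.exists_forall_sub_mem_ideal (s := R)
    (fun w : Pl K => w.asIdeal) (fun _ => 1) (fun w _ => w.prime)
    (fun w _ w' _ hne h => hne (HeightOneSpectrum.ext h)) (fun w => if w = w₀ then r else 1)
  have hx1 : x - r ∈ w₀.1.asIdeal := by
    have := hx w₀.1 w₀.2
    rwa [pow_one, if_pos rfl] at this
  have hx2 : ∀ w : R, w ≠ w₀ → x - 1 ∈ w.1.asIdeal := by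
    intro w hw
    have := hx w.1 w.2
    rwa [pow_one, if_neg hw] at this
  have hxu : Ideal.Quotient.mk w₀.1.asIdeal x = (u : 𝓞 K ⧸ w₀.1.asIdeal) := by
    rw [← hr, Ideal.Quotient.eq]
    exact hx1
  have hnot : ∀ w : R, x ∉ w.1.asIdeal := by
    intro w hw
    have hnt : Nontrivial (𝓞 K ⧸ w.1.asIdeal) := Ideal.Quotient.nontrivial_iff.2 w.1.isPrime.ne_top
    by_cases hww : w = w₀
    · subst hww
      have h2 : Ideal.Quotient.mk w.1.asIdeal x = 0 := Ideal.Quotient.eq_zero_iff_mem.2 hw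
      rw [hxu] at h2
      exact u.ne_zero h2
    · have h3 := hx2 w hww
      have h4 : (1 : 𝓞 K) ∈ w.1.asIdeal := by
        have : (1 : 𝓞 K) = x - (x - 1) := by ring
        rw [this]
        exact Ideal.sub_mem _ hw h3
      exact w.1.isPrime.ne_top ((Ideal.eq_top_iff_one _).2 h4)
  have hx0 : x ≠ 0 := by
    rintro rfl
    exact hnot w₀ (Ideal.zero_mem _)
  have hcop : IsCoprime (Ideal.span {x}) f := by
    rw [Ideal.isCoprime_iff_sup_eq]
    by_contra hne
    obtain ⟨M, hM, hle⟩ := Ideal.exists_le_maximal _ hne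
    have hxM : x ∈ M := hle (Ideal.mem_sup_left (Ideal.mem_span_singleton_self x))
    have hM0 : M ≠ ⊥ := by
      rintro rfl
      exact hx0 (by simpa using hxM)
    have hfM : f ≤ M := le_sup_right.trans hle
    exact hnot ⟨⟨M, hM.isPrime, hM0⟩, (hR _).2 hfM⟩ hxM
  have h5 := phi_elem f R S xs q hR hS hxs hq x (Units.mk0 (x : K) (HC5_coe hx0)) rfl hcop
  rw [h1, pv_one_fun] at h5
  have h6 : ∏ w : R, q.1 w (resv w.1 (Units.mk0 (x : K) (HC5_coe hx0))) = q.1 w₀ u := by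
    rw [Finset.prod_eq_single w₀]
    · congr 1
      apply Units.ext
      rw [resv_apply w₀.1 x _ rfl (hnot w₀), hxu]
    · intro w _ hw
      have h7 : resv w.1 (Units.mk0 (x : K) (HC5_coe hx0)) = 1 := by
        apply Units.ext
        rw [resv_apply w.1 x _ rfl (hnot w), Units.val_one, ← map_one (Ideal.Quotient.mk _),
          Ideal.Quotient.eq]
        exact hx2 w hw
      rw [h7, map_one]
    · intro h
      exact absurd (Finset.mem_univ _) h
  rw [h6] at h5
  exact (inv_eq_one.1 h5.symm)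

end H55R
end

-- from Lib.H55N.E1
section

open NumberField IsDedekindDomain

namespace H55N

open H55B

/-! ### Estimates -/

/-- The correction term. -/
noncomputable def E1_k (R : ℝ) (y : ℂ) : ℂ := (starRingEnd ℂ) y / ((R ^ 2 + ‖y‖ ^ 2 : ℝ) : ℂ)

theorem E1_term (R : ℝ) (hR : 0 < R) (y : ℂ) :
    y⁻¹ * ((R ^ 2 / (R ^ 2 + ‖y‖ ^ 2) : ℝ) : ℂ) = y⁻¹ - E1_k R y := by
  by_cases hy : y = 0
  · simp [hy, E1_k]
  · have h1 : (R ^ 2 + ‖y‖ ^ 2 : ℝ) ≠ 0 := by positivity
    have h1' : ((R ^ 2 + ‖y‖ ^ 2 : ℝ) : ℂ) ≠ 0 := by exact_mod_cast h1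
    have h2 : y * (starRingEnd ℂ) y = ((‖y‖ ^ 2 : ℝ) : ℂ) := by
      rw [Complex.mul_conj, Complex.normSq_eq_norm_sq]
    unfold E1_k
    rw [Complex.ofReal_div]
    have h3 : ((R ^ 2 : ℝ) : ℂ) = ((R ^ 2 + ‖y‖ ^ 2 : ℝ) : ℂ) - y * (starRingEnd ℂ) y := by
      rw [h2]
      push_cast
      ring
    rw [h3, sub_div, div_self h1']
    field_simp

theorem E1_low (R : ℝ) (hR : 1 ≤ R) (y w : ℂ) :
    (1 + ‖y‖) ^ 2 ≤ 4 * (1 + ‖w‖ ^ 2) * (R ^ 2 + ‖y + w‖ ^ 2) := by
  have hR1 : 1 ≤ R ^ 2 := by nlinarith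
  have h1 : ‖y‖ ≤ ‖y + w‖ + ‖w‖ := by
    have := norm_sub_le (y + w) w
    rwa [add_sub_cancel_right] at this
  have h2 : ‖y‖ ^ 2 ≤ 2 * ‖y + w‖ ^ 2 + 2 * ‖w‖ ^ 2 := by
    calc ‖y‖ ^ 2 ≤ (‖y + w‖ + ‖w‖) ^ 2 := pow_le_pow_left₀ (norm_nonneg y) h1 2
      _ ≤ 2 * ‖y + w‖ ^ 2 + 2 * ‖w‖ ^ 2 := by linarith [sq_nonneg (‖y + w‖ - ‖w‖)]
  have h3 : (1 + ‖y‖) ^ 2 ≤ 2 * (1 + ‖y‖ ^ 2) := by linarith [sq_nonneg (1 - ‖y‖)]
  have h4 : 0 ≤ ‖w‖ ^ 2 * ‖y + w‖ ^ 2 := by positivity
  have h5 : ‖w‖ ^ 2 * 1 ≤ ‖w‖ ^ 2 * R ^ 2 := by gcongr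
  have h6 : 4 * (1 + ‖w‖ ^ 2) * (R ^ 2 + ‖y + w‖ ^ 2) = 4 * R ^ 2 + 4 * ‖y + w‖ ^ 2 +
    4 * (‖w‖ ^ 2 * R ^ 2) + 4 * (‖w‖ ^ 2 * ‖y + w‖ ^ 2) := by ring
  rw [h6]
  have h7 : 0 ≤ ‖y + w‖ ^ 2 := by positivity
  linarith

theorem E1_sd (R : ℝ) (hR : 1 ≤ R) (y w : ℂ) :
    ‖E1_k R (y + w) + E1_k R (y - w) - 2 * E1_k R y‖ ≤
      (14 * ‖w‖ ^ 2 + 2 * (‖w‖ ^ 2) ^ 2) * (16 * (1 + ‖w‖ ^ 2) ^ 2) * (1 + ‖y‖) ^ (-3 : ℝ) := by
  set q : ℝ := R ^ 2 + ‖y‖ ^ 2 with hq
  set qp : ℝ := R ^ 2 + ‖y + w‖ ^ 2 with hqp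
  set qm : ℝ := R ^ 2 + ‖y - w‖ ^ 2 with hqm
  set s : ℝ := 2 * (y * (starRingEnd ℂ) w).re with hs
  set d : ℝ := ‖w‖ ^ 2 with hd
  have hd0 : 0 ≤ d := by positivity
  have hR1 : 1 ≤ R ^ 2 := by nlinarith
  have q0 : 0 < q := by positivity
  have qp0 : 0 < qp := by positivity
  have qm0 : 0 < qm := by positivity
  have e1 : qp = q + d + s := by
    rw [hqp, hq, hd, hs, Complex.sq_norm, Complex.sq_norm, Complex.sq_norm,
      Complex.normSq_add]
    ring
  have e2 : qm = q + d - s := by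
    rw [hqm, hq, hd, hs, Complex.sq_norm, Complex.sq_norm, Complex.sq_norm,
      Complex.normSq_sub]
    ring
  have hsb : |s| ≤ 2 * (‖y‖ * ‖w‖) := by
    rw [hs, abs_mul, abs_two]
    have := Complex.abs_re_le_norm (y * (starRingEnd ℂ) w)
    rw [norm_mul, Complex.norm_conj] at this
    linarith
  have cq : (q : ℂ) ≠ 0 := by exact_mod_cast q0.ne'
  have cqp : (qp : ℂ) ≠ 0 := by exact_mod_cast qp0.ne'
  have cqm : (qm : ℂ) ≠ 0 := by exact_mod_cast qm0.ne'
  have key : E1_k R (y + w) + E1_k R (y - w) - 2 * E1_k R y =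
      (starRingEnd ℂ) y * ((-2 * q * d - 2 * d ^ 2 + 2 * s ^ 2) / (q * qp * qm) : ℝ) -
        (starRingEnd ℂ) w * ((2 * s / (qp * qm) : ℝ) : ℂ) := by
    unfold E1_k
    rw [← hq, ← hqp, ← hqm]
    rw [map_add, map_sub]
    push_cast
    have c1 : (qp : ℂ) = q + d + s := by rw [e1]; push_cast; ring
    have c2 : (qm : ℂ) = q + d - s := by rw [e2]; push_cast; ring
    rw [c1] at cqp
    rw [c2] at cqm
    rw [c1, c2]
    field_simp
    ring
  rw [key]
  have hy2 : ‖y‖ ^ 2 ≤ q := by rw [hq]; nlinarith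
  have hs2 : s ^ 2 ≤ 4 * q * d := by
    have h1 : s ^ 2 ≤ (2 * (‖y‖ * ‖w‖)) ^ 2 := by
      rw [← sq_abs s]
      exact pow_le_pow_left₀ (abs_nonneg _) hsb 2
    calc s ^ 2 ≤ 4 * (‖y‖ ^ 2) * d := by rw [hd]; nlinarith
      _ ≤ 4 * q * d := by gcongr
  have hq1 : 1 ≤ q := by rw [hq]; nlinarith [sq_nonneg ‖y‖]
  have b1 : |(-2 * q * d - 2 * d ^ 2 + 2 * s ^ 2)| ≤ q * (10 * d + 2 * d ^ 2) := by
    rw [abs_le]
    have h5 : d ^ 2 ≤ q * d ^ 2 := by nlinarith [sq_nonneg d]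
    have h6 : 0 ≤ q * d := by positivity
    have h7 : 0 ≤ s ^ 2 := sq_nonneg s
    constructor
    · nlinarith
    · nlinarith [sq_nonneg d]
  have n1 : ‖(starRingEnd ℂ) y * ((-2 * q * d - 2 * d ^ 2 + 2 * s ^ 2) / (q * qp * qm) : ℝ)‖ ≤
      ‖y‖ * ((10 * d + 2 * d ^ 2) / (qp * qm)) := by
    rw [norm_mul, Complex.norm_conj, Complex.norm_real, Real.norm_eq_abs, abs_div]
    have h8 : 0 < q * qp * qm := by positivity
    rw [abs_of_pos h8]
    have h9 : (10 * d + 2 * d ^ 2) / (qp * qm) = q * (10 * d + 2 * d ^ 2) / (q * qp * qm) := by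
      field_simp
    rw [h9]
    gcongr
  have n2 : ‖(starRingEnd ℂ) w * ((2 * s / (qp * qm) : ℝ) : ℂ)‖ ≤
      ‖y‖ * (4 * d / (qp * qm)) := by
    rw [norm_mul, Complex.norm_conj, Complex.norm_real, Real.norm_eq_abs, abs_div]
    have h8 : 0 < qp * qm := by positivity
    rw [abs_of_pos h8, abs_mul, abs_two]
    have h9 : ‖w‖ * (2 * |s|) ≤ ‖y‖ * (4 * d) := by
      rw [hd]
      nlinarith [norm_nonneg w, norm_nonneg y]
    calc ‖w‖ * (2 * |s| / (qp * qm)) = ‖w‖ * (2 * |s|) / (qp * qm) := by ring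
      _ ≤ ‖y‖ * (4 * d) / (qp * qm) := by gcongr
      _ = _ := by ring
  have low1 : (1 + ‖y‖) ^ 2 ≤ 4 * (1 + d) * qp := E1_low R hR y w
  have low2 : (1 + ‖y‖) ^ 2 ≤ 4 * (1 + d) * qm := by
    have := E1_low R hR y (-w)
    rwa [norm_neg, ← sub_eq_add_neg] at this
  have hy0 : 0 < 1 + ‖y‖ := by positivity
  have low : (1 + ‖y‖) ^ 4 ≤ 16 * (1 + d) ^ 2 * (qp * qm) := by
    calc (1 + ‖y‖) ^ 4 = (1 + ‖y‖) ^ 2 * (1 + ‖y‖) ^ 2 := by ring
      _ ≤ (4 * (1 + d) * qp) * (4 * (1 + d) * qm) := by gcongr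
      _ = _ := by ring
  have hr : (1 + ‖y‖) ^ (-3 : ℝ) = 1 / (1 + ‖y‖) ^ 3 := by
    rw [Real.rpow_neg hy0.le]
    norm_num
  have hfin : ‖y‖ * ((14 * d + 2 * d ^ 2) / (qp * qm)) ≤
      (14 * d + 2 * d ^ 2) * (16 * (1 + d) ^ 2) * (1 + ‖y‖) ^ (-3 : ℝ) := by
    rw [hr, mul_one_div, ← mul_div_assoc, div_le_div_iff₀ (by positivity) (by positivity)]
    have h5 : ‖y‖ * (1 + ‖y‖) ^ 3 ≤ (1 + ‖y‖) ^ 4 := by
      have : (1 + ‖y‖) ^ 4 = (1 + ‖y‖) * (1 + ‖y‖) ^ 3 := by ring
      rw [this]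
      gcongr
      linarith
    have h6 : 0 ≤ 14 * d + 2 * d ^ 2 := by positivity
    calc ‖y‖ * (14 * d + 2 * d ^ 2) * (1 + ‖y‖) ^ 3
        = (14 * d + 2 * d ^ 2) * (‖y‖ * (1 + ‖y‖) ^ 3) := by ring
      _ ≤ (14 * d + 2 * d ^ 2) * (16 * (1 + d) ^ 2 * (qp * qm)) :=
          mul_le_mul_of_nonneg_left (h5.trans low) h6
      _ = _ := by ring
  calc _ ≤ ‖y‖ * ((10 * d + 2 * d ^ 2) / (qp * qm)) + ‖y‖ * (4 * d / (qp * qm)) :=
        (norm_sub_le _ _).trans (add_le_add n1 n2)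
    _ = ‖y‖ * ((14 * d + 2 * d ^ 2) / (qp * qm)) := by ring
    _ ≤ _ := hfin

/-- Summability along a coset of the lattice. -/
theorem E1_summable (a : ℂ) : Summable fun x : O => (1 + ‖a + 3 * e x‖) ^ (-3 : ℝ) := by
  have h1 : Summable (fun x : O => (1 + ‖e x‖) ^ (-(3 : ℝ))) := summable_e (by norm_num)
  refine h1.of_norm_bounded_eventually ?_
  rw [Filter.eventually_cofinite]
  refine (finite_norm_le (‖a‖ + 1)).subset ?_
  intro x hx
  simp only [Set.mem_ofPred_eq] at hx ⊢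
  by_contra hne
  apply hx
  have h2 := b2_low a x (not_le.mp hne).le
  have h3 : 0 < 1 + ‖e x‖ := by positivity
  rw [Real.norm_eq_abs, abs_of_nonneg (by positivity)]
  exact Real.rpow_le_rpow_of_nonpos h3 (by linarith) (by norm_num)

/-- Second differences of the correction terms. -/
noncomputable def E1_d (R : ℝ) (a w : ℂ) (x : O) : ℂ :=
  E1_k R (a + w + 3 * e x) + E1_k R (a - w + 3 * e x) - 2 * E1_k R (a + 3 * e x)

theorem E1_d_le (R : ℝ) (hR : 1 ≤ R) (a w : ℂ) (x : O) : ‖E1_d R a w x‖ ≤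
    (14 * ‖w‖ ^ 2 + 2 * (‖w‖ ^ 2) ^ 2) * (16 * (1 + ‖w‖ ^ 2) ^ 2) *
      (1 + ‖a + 3 * e x‖) ^ (-3 : ℝ) := by
  have h := E1_sd R hR (a + 3 * e x) w
  have e1 : a + 3 * e x + w = a + w + 3 * e x := by ring
  have e2 : a + 3 * e x - w = a - w + 3 * e x := by ring
  rw [e1, e2] at h
  exact h

theorem E1_d_summable (R : ℝ) (hR : 1 ≤ R) (a w : ℂ) : Summable (E1_d R a w) :=
  ((E1_summable a).mul_left _).of_norm_bounded (E1_d_le R hR a w)

theorem E1_k_tendsto (y : ℂ) : Filter.Tendsto (fun R : ℝ => E1_k R y) Filter.atTop (nhds 0) := by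
  unfold E1_k
  have h1 : Filter.Tendsto (fun R : ℝ => R ^ 2 + ‖y‖ ^ 2) Filter.atTop Filter.atTop :=
    Filter.tendsto_atTop_add_const_right _ _ (Filter.tendsto_pow_atTop two_ne_zero)
  have h2 : Filter.Tendsto (fun R : ℝ => (((R ^ 2 + ‖y‖ ^ 2)⁻¹ : ℝ) : ℂ)) Filter.atTop
      (nhds ((0 : ℝ) : ℂ)) :=
    (Complex.continuous_ofReal.tendsto _).comp (tendsto_inv_atTop_zero.comp h1)
  have h3 := h2.const_mul ((starRingEnd ℂ) y)
  rw [Complex.ofReal_zero, mul_zero] at h3
  refine h3.congr fun R => ?_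
  rw [Complex.ofReal_inv, div_eq_mul_inv]

theorem E1_d_tendsto (a w : ℂ) :
    Filter.Tendsto (fun R : ℝ => ∑' x : O, E1_d R a w x) Filter.atTop (nhds 0) := by
  have h0 : (∑' _ : O, (0 : ℂ)) = 0 := tsum_zero
  rw [← h0]
  refine tendsto_tsum_of_dominated_convergence
    (((E1_summable a).mul_left _)) (fun x => ?_) ?_ (bound := fun x : O =>
      (14 * ‖w‖ ^ 2 + 2 * (‖w‖ ^ 2) ^ 2) * (16 * (1 + ‖w‖ ^ 2) ^ 2) *
      (1 + ‖a + 3 * e x‖) ^ (-3 : ℝ))
  · have := ((E1_k_tendsto (a + w + 3 * e x)).add (E1_k_tendsto (a - w + 3 * e x))).sub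
      ((E1_k_tendsto (a + 3 * e x)).const_mul 2)
    simp only [add_zero, mul_zero, sub_zero] at this
    exact this
  · filter_upwards [Filter.eventually_ge_atTop 1] with R hR x
    exact E1_d_le R hR a w x

theorem sR_summable_aux (R : ℝ) (hR : 0 < R) (z : ℂ) : Summable fun x : O =>
    ‖(z + 3 * e x)⁻¹ * ((R ^ 2 / (R ^ 2 + ‖z + 3 * e x‖ ^ 2) : ℝ) : ℂ)‖ := by
  have h1 : Summable (fun x : O => R ^ 2 * (1 + ‖e x‖) ^ (-(3 : ℝ))) :=
    (summable_e (by norm_num)).mul_left _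
  refine h1.of_norm_bounded_eventually ?_
  rw [Filter.eventually_cofinite]
  refine (finite_norm_le (‖z‖ + 1)).subset ?_
  intro x hx
  simp only [Set.mem_ofPred_eq] at hx ⊢
  by_contra hne
  apply hx
  have h2 := b2_low z x (not_le.mp hne).le
  have h3 : 0 < 1 + ‖e x‖ := by positivity
  have h4 : 0 < ‖z + 3 * e x‖ := by linarith
  rw [norm_norm, norm_mul, norm_inv, Complex.norm_real, Real.norm_eq_abs,
    abs_of_nonneg (by positivity)]
  have h5 : (1 + ‖e x‖) ^ (-(3 : ℝ)) = 1 / (1 + ‖e x‖) ^ 3 := by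
    rw [Real.rpow_neg h3.le]
    norm_num
  rw [h5]
  calc ‖z + 3 * e x‖⁻¹ * (R ^ 2 / (R ^ 2 + ‖z + 3 * e x‖ ^ 2))
      ≤ (1 + ‖e x‖)⁻¹ * (R ^ 2 / ((1 + ‖e x‖) ^ 2)) := by
        gcongr
        nlinarith [sq_nonneg R]
    _ = R ^ 2 * (1 / (1 + ‖e x‖) ^ 3) := by
        field_simp

theorem E1_sR_summable (R : ℝ) (hR : 0 < R) (z : ℂ) : Summable fun x : O =>
    (z + 3 * e x)⁻¹ * ((R ^ 2 / (R ^ 2 + ‖z + 3 * e x‖ ^ 2) : ℝ) : ℂ) :=
  (sR_summable_aux R hR z).of_norm

/-- The second differences of the reciprocals. -/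
noncomputable def E1_T (a w : ℂ) (x : O) : ℂ :=
  (a + w + 3 * e x)⁻¹ + (a - w + 3 * e x)⁻¹ - 2 * (a + 3 * e x)⁻¹

theorem E1_split (R : ℝ) (hR : 0 < R) (a w : ℂ) (x : O) :
    E1_T a w x = ((a + w + 3 * e x)⁻¹ *
        ((R ^ 2 / (R ^ 2 + ‖a + w + 3 * e x‖ ^ 2) : ℝ) : ℂ) +
      (a - w + 3 * e x)⁻¹ * ((R ^ 2 / (R ^ 2 + ‖a - w + 3 * e x‖ ^ 2) : ℝ) : ℂ) -
      2 * ((a + 3 * e x)⁻¹ * ((R ^ 2 / (R ^ 2 + ‖a + 3 * e x‖ ^ 2) : ℝ) : ℂ))) +
      E1_d R a w x := by
  rw [E1_term R hR, E1_term R hR, E1_term R hR]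
  unfold E1_T E1_d
  ring

theorem E1_T_summable (a w : ℂ) : Summable (E1_T a w) := by
  have h1 := (((E1_sR_summable 1 one_pos (a + w)).add (E1_sR_summable 1 one_pos (a - w))).sub
    ((E1_sR_summable 1 one_pos a).mul_left 2)).add (E1_d_summable 1 le_rfl a w)
  refine h1.congr fun x => ?_
  exact (E1_split 1 one_pos a w x).symm

theorem E1_tsum (R : ℝ) (hR : 1 ≤ R) (a w : ℂ) : ∑' x, E1_T a w x =
    sR R (a + w) + sR R (a - w) - 2 * sR R a + ∑' x, E1_d R a w x := by
  have hR0 : 0 < R := by linarith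
  have s1 := E1_sR_summable R hR0 (a + w)
  have s2 := E1_sR_summable R hR0 (a - w)
  have s3 := (E1_sR_summable R hR0 a).mul_left 2
  unfold sR
  rw [← tsum_mul_left, ← s1.tsum_add s2, ← (s1.add s2).tsum_sub s3,
    ← ((s1.add s2).sub s3).tsum_add (E1_d_summable R hR a w)]
  exact tsum_congr fun x => E1_split R hR0 a w x

theorem E1_lim (a w : ℂ) : Filter.Tendsto (fun R : ℝ => sR R (a + w) + sR R (a - w) - 2 * sR R a)
    Filter.atTop (nhds (∑' x, E1_T a w x)) := by
  have h1 : Filter.Tendsto (fun R : ℝ => (∑' x, E1_T a w x) - ∑' x, E1_d R a w x) Filter.atTop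
      (nhds ((∑' x, E1_T a w x) - 0)) := tendsto_const_nhds.sub (E1_d_tendsto a w)
  rw [sub_zero] at h1
  refine h1.congr' ?_
  filter_upwards [Filter.eventually_ge_atTop 1] with R hR
  rw [E1_tsum R hR a w]
  ring

theorem E1_sR_per (R : ℝ) (z : ℂ) (y : O) : sR R (z + 3 * e y) = sR R z := by
  unfold sR
  rw [← (Equiv.addLeft y).tsum_eq (fun x : O => (z + 3 * e x)⁻¹ *
    ((R ^ 2 / (R ^ 2 + ‖z + 3 * e x‖ ^ 2) : ℝ) : ℂ))]
  refine tsum_congr fun x => ?_
  rw [Equiv.coe_addLeft, map_add]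
  have e1 : z + 3 * e y + 3 * e x = z + 3 * (e y + e x) := by ring
  rw [e1]

/-- The function T. -/
noncomputable def E1_F (a w : ℂ) : ℂ := ∑' x, E1_T a w x

theorem E1_F_per (a w : ℂ) (y : O) : E1_F a (w + 3 * e y) = E1_F a w := by
  refine tendsto_nhds_unique (E1_lim a (w + 3 * e y)) ?_
  refine (E1_lim a w).congr fun R => ?_
  have e1 : a + (w + 3 * e y) = a + w + 3 * e y := by ring
  have e2 : a - (w + 3 * e y) = a - w + 3 * e (-y) := by rw [map_neg]; ring
  rw [e1, e2, E1_sR_per, E1_sR_per]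

theorem E1_F_neg (a w : ℂ) : E1_F a (-w) = E1_F a w := by
  unfold E1_F E1_T
  refine tsum_congr fun x => ?_
  rw [sub_neg_eq_add, ← sub_eq_add_neg]
  ring

/-! ### The elliptic function -/

/-- The terms of the sum. -/
noncomputable def E1_tm (a l w : ℂ) : ℂ := 2 / (((a + l) ^ 2 - w ^ 2) * (a + l))

/-- The sum without one term. -/
noncomputable def E1_Rex (a l₀ w : ℂ) : ℂ :=
  ∑' l : LL.lattice, if l.1 = l₀ then 0 else E1_tm a l.1 w

theorem E1_bound (a : ℂ) (r : ℝ) (hr : 0 < r) (w : ℂ) (hw : ‖w‖ < r) (l : ℂ)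
    (h : 2 * r + 2 * ‖a‖ ≤ ‖l‖) : ‖E1_tm a l w‖ ≤ 16 * ‖l‖ ^ (-3 : ℝ) := by
  have ha := norm_nonneg a
  have hl : 0 < ‖l‖ := by linarith
  have h1 : ‖l‖ / 2 ≤ ‖a + l‖ := by
    have := norm_sub_norm_le l (-a)
    rw [norm_neg] at this
    have e1 : l - -a = a + l := by ring
    rw [e1] at this
    linarith
  have h2 : ‖l‖ / 2 ≤ ‖a + l - w‖ := by
    have := norm_sub_norm_le l (-a + w)
    have e1 : l - (-a + w) = a + l - w := by ring
    rw [e1] at this
    have h3 : ‖-a + w‖ ≤ ‖a‖ + ‖w‖ := by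
      refine (norm_add_le _ _).trans ?_
      rw [norm_neg]
    linarith
  have h2' : ‖l‖ / 2 ≤ ‖a + l + w‖ := by
    have := norm_sub_norm_le l (-a - w)
    have e1 : l - (-a - w) = a + l + w := by ring
    rw [e1] at this
    have h3 : ‖-a - w‖ ≤ ‖a‖ + ‖w‖ := by
      refine (norm_sub_le _ _).trans ?_
      rw [norm_neg]
    linarith
  unfold E1_tm
  have e2 : ((a + l) ^ 2 - w ^ 2) * (a + l) = (a + l - w) * (a + l + w) * (a + l) := by ring
  rw [e2, norm_div, norm_mul, norm_mul]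
  have h4 : (‖l‖ / 2) * (‖l‖ / 2) * (‖l‖ / 2) ≤ ‖a + l - w‖ * ‖a + l + w‖ * ‖a + l‖ := by
    gcongr
  have h5 : (‖l‖ : ℝ) ^ (-3 : ℝ) = 1 / ‖l‖ ^ 3 := by
    rw [Real.rpow_neg hl.le]
    norm_num
  rw [h5]
  have h6 : 0 < (‖l‖ / 2) * (‖l‖ / 2) * (‖l‖ / 2) := by positivity
  calc ‖(2 : ℂ)‖ / (‖a + l - w‖ * ‖a + l + w‖ * ‖a + l‖)
      ≤ ‖(2 : ℂ)‖ / ((‖l‖ / 2) * (‖l‖ / 2) * (‖l‖ / 2)) := by gcongr
    _ = 16 * (1 / ‖l‖ ^ 3) := by
        rw [Complex.norm_ofNat]
        field_simp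
        norm_num

theorem E1_hasSum (a l₀ : ℂ) : HasSumLocallyUniformly
    (fun (l : LL.lattice) (w : ℂ) => if l.1 = l₀ then 0 else E1_tm a l.1 w) (E1_Rex a l₀) := by
  refine LL.hasSumLocallyUniformly_aux (u := fun _ => (16 * ‖·‖ ^ (-3 : ℝ))) _
    (fun _ _ => (ZLattice.summable_norm_rpow _ _ (by simp; norm_num)).mul_left _) fun r hr =>
    Filter.eventually_atTop.mpr ⟨2 * r + 2 * ‖a‖, ?_⟩
  rintro _ h s hs l rfl
  split_ifs
  · rw [norm_zero]
    positivity
  · exact E1_bound a r hr s hs l h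

/-- The domain. -/
def E1_U (a l₀ : ℂ) : Set ℂ :=
  {w | w - a ∈ ((LL.lattice : Set ℂ) \ {l₀})ᶜ ∧ -w - a ∈ ((LL.lattice : Set ℂ) \ {l₀})ᶜ}

theorem E1_U_open (a l₀ : ℂ) : IsOpen (E1_U a l₀) := by
  have h1 : IsOpen {w : ℂ | w - a ∈ ((LL.lattice : Set ℂ) \ {l₀})ᶜ} :=
    LL.isOpen_compl_lattice_sdiff.preimage (by fun_prop)
  have h2 : IsOpen {w : ℂ | -w - a ∈ ((LL.lattice : Set ℂ) \ {l₀})ᶜ} :=
    LL.isOpen_compl_lattice_sdiff.preimage (by fun_prop)
  exact h1.inter h2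

theorem E1_ne {a : ℂ} (ha : a ∉ Lam) {l : ℂ} (hl : l ∈ LL.lattice) : a + l ≠ 0 := by
  intro h
  apply ha
  have : a = -l := by linear_combination h
  rw [this, ← mem_LL]
  exact neg_mem hl

theorem E1_analytic {a : ℂ} (ha : a ∉ Lam) (l₀ : ℂ) :
    AnalyticOnNhd ℂ (E1_Rex a l₀) (E1_U a l₀) := by
  refine DifferentiableOn.analyticOnNhd ?_ (E1_U_open a l₀)
  refine (E1_hasSum a l₀).hasSumLocallyUniformlyOn.differentiableOn
    (.of_forall fun s => .fun_sum fun i hi => ?_) (E1_U_open a l₀)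
  split_ifs with hl
  · exact differentiableOn_const 0
  · unfold E1_tm
    refine .div (by fun_prop) (by fun_prop) ?_
    intro w hw
    refine mul_ne_zero ?_ (E1_ne ha i.2)
    have e1 : (a + (i : ℂ)) ^ 2 - w ^ 2 = (a + i - w) * (a + i + w) := by ring
    rw [e1]
    refine mul_ne_zero ?_ ?_
    · intro h
      apply hw.1
      have e2 : w - a = i := by linear_combination -h
      rw [e2]
      exact ⟨i.2, hl⟩
    · intro h
      apply hw.2
      have e2 : -w - a = i := by linear_combination -h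
      rw [e2]
      exact ⟨i.2, hl⟩

theorem E1_F_eq {a : ℂ} (ha : a ∉ Lam) {w : ℂ} (h1 : a + w ∉ Lam) (h2 : a - w ∉ Lam) :
    E1_F a w = w ^ 2 * ∑' l : LL.lattice, E1_tm a l.1 w := by
  unfold E1_F
  rw [← A1_equiv.tsum_eq, ← tsum_mul_left]
  congr 1
  funext x
  show (a + w + 3 * e x)⁻¹ + (a - w + 3 * e x)⁻¹ - 2 * (a + 3 * e x)⁻¹ =
    w ^ 2 * (2 / (((a + 3 * e x) ^ 2 - w ^ 2) * (a + 3 * e x)))
  have n1 : a + w + 3 * e x ≠ 0 := by
    intro h
    apply h1
    exact ⟨-x, by rw [map_neg]; linear_combination h⟩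
  have n2 : a - w + 3 * e x ≠ 0 := by
    intro h
    apply h2
    exact ⟨-x, by rw [map_neg]; linear_combination h⟩
  have n3 : a + 3 * e x ≠ 0 := E1_ne ha ((mem_LL _).2 ⟨x, rfl⟩)
  have e1 : (a + 3 * e x) ^ 2 - w ^ 2 = (a + w + 3 * e x) * (a - w + 3 * e x) := by ring
  rw [e1]
  field_simp
  ring

theorem E1_F_one {a : ℂ} (ha : a ∉ Lam) {w : ℂ} (h1 : a + w ∉ Lam) (h2 : a - w ∉ Lam) :
    E1_F a w = w ^ 2 * E1_Rex a a w := by
  rw [E1_F_eq ha h1 h2]
  congr 1
  unfold E1_Rex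
  congr 1
  funext l
  rw [if_neg]
  intro h
  apply ha
  rw [← h, ← mem_LL]
  exact l.2

theorem E1_Rex_add (a w : ℂ) :
    ∑' l : LL.lattice, E1_tm a l.1 w = E1_Rex a 0 w + E1_tm a 0 w := by
  classical
  have h0 : (∑' l : LL.lattice, if l = 0 then E1_tm a 0 w else 0) = E1_tm a 0 w := by
    rw [tsum_ite_eq]
  conv_rhs => rw [← h0]
  unfold E1_Rex
  rw [← Summable.tsum_add]
  · congr 1
    funext l
    by_cases hl : l.1 = 0
    · have hl' : l = 0 := Subtype.ext hl
      rw [if_pos hl, if_pos hl', zero_add, hl]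
    · have hl' : l ≠ 0 := fun h => hl (by rw [h]; rfl)
      rw [if_neg hl, if_neg hl', add_zero]
  · exact ⟨_, (E1_hasSum a 0).hasSum⟩
  · exact summable_of_hasFiniteSupport ((Set.finite_singleton (0 : LL.lattice)).subset (by simp))

theorem E1_F_zero {a : ℂ} (ha : a ∉ Lam) {w : ℂ} (h1 : a + w ∉ Lam) (h2 : a - w ∉ Lam) :
    E1_F a w = w ^ 2 * (E1_Rex a 0 w + 2 / ((a ^ 2 - w ^ 2) * a)) := by
  rw [E1_F_eq ha h1 h2, E1_Rex_add]
  congr 2
  unfold E1_tm
  rw [add_zero]

theorem E1_Rex_zero {a : ℂ} (ha : a ∉ Lam) : E1_Rex a a 0 = -wpd a := by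
  unfold E1_Rex wpd PeriodPair.derivWeierstrassP
  rw [neg_neg, ← (Equiv.neg LL.lattice).tsum_eq]
  congr 1
  funext l
  have hl : l.1 ∈ LL.lattice := l.2
  rw [if_neg]
  · show E1_tm a (-l.1) 0 = 2 / (a - l.1) ^ 3
    unfold E1_tm
    congr 1
    ring
  · intro h
    apply ha
    have h' : -l.1 = a := h
    rw [← h', ← mem_LL]
    exact neg_mem hl

theorem E1_ev (a z₀ : ℂ) : ∀ᶠ z in nhdsWithin z₀ {z₀}ᶜ, a + z ∉ Lam ∧ a - z ∉ Lam := by
  have h1 := (A1_tendsto (fun z => a + z) z₀ (by fun_prop) (fun b c h => by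
    have : a + b = a + c := h
    linear_combination this)).eventually (A1_discrete _)
  have h2 := (A1_tendsto (fun z => a - z) z₀ (by fun_prop) (fun b c h => by
    have : a - b = a - c := h
    linear_combination -this)).eventually (A1_discrete _)
  filter_upwards [h1, h2] with z h3 h4 using ⟨h3, h4⟩

/-- The elliptic function. -/
noncomputable def E1_D (a w : ℂ) : ℂ := E1_F a w * (wp a - wp w)

/-- Removable singularity. -/
def E1_Rem (a z₀ : ℂ) : Prop := ∃ b : ℂ → ℂ, AnalyticAt ℂ b z₀ ∧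
  ∀ᶠ z in nhdsWithin z₀ {z₀}ᶜ, E1_D a z = b z

theorem E1_D_per (a z : ℂ) (y : O) : E1_D a (z + 3 * e y) = E1_D a z := by
  unfold E1_D
  rw [E1_F_per, wp_per]

theorem E1_D_neg (a z : ℂ) : E1_D a (-z) = E1_D a z := by
  unfold E1_D
  rw [E1_F_neg, wp_neg]

theorem E1_Rem_per {a z₀ : ℂ} (h : E1_Rem a z₀) (y : O) : E1_Rem a (z₀ + 3 * e y) := by
  obtain ⟨b, ha, h⟩ := h
  refine ⟨fun z => b (z - 3 * e y), ?_, ?_⟩
  · have : AnalyticAt ℂ b ((z₀ + 3 * e y) - 3 * e y) := by rw [add_sub_cancel_right]; exact ha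
    exact this.comp (f := fun w : ℂ => w - 3 * e y) (by fun_prop)
  · have ht := A1_tendsto (fun z => z - 3 * e y) (z₀ + 3 * e y) (by fun_prop) (fun a b h => by
      have : a - 3 * e y = b - 3 * e y := h
      linear_combination this)
    simp only [add_sub_cancel_right] at ht
    filter_upwards [ht.eventually h] with z h3
    rw [← h3, ← E1_D_per a (z - 3 * e y) y, sub_add_cancel]

theorem E1_Rem_neg {a z₀ : ℂ} (h : E1_Rem a z₀) : E1_Rem a (-z₀) := by
  obtain ⟨b, ha, h⟩ := h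
  refine ⟨fun z => b (-z), ?_, ?_⟩
  · have : AnalyticAt ℂ b (-(-z₀)) := by rw [neg_neg]; exact ha
    exact this.comp (f := fun w : ℂ => -w) (by fun_prop)
  · have ht := A1_tendsto (fun z => -z) (-z₀) (by fun_prop) neg_injective
    simp only [neg_neg] at ht
    filter_upwards [ht.eventually h] with z h3
    rw [← h3, E1_D_neg]

theorem E1_U_one {a z : ℂ} (h1 : a + z ∉ Lam) (h2 : a - z ∉ Lam) (l₀ : ℂ) : z ∈ E1_U a l₀ := by
  constructor
  · intro h
    apply h2
    have := A1_neg_mem ((mem_LL _).1 h.1)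
    have e1 : -(z - a) = a - z := by ring
    rwa [e1] at this
  · intro h
    apply h1
    have := A1_neg_mem ((mem_LL _).1 h.1)
    have e1 : -(-z - a) = a + z := by ring
    rwa [e1] at this

theorem E1_D_analytic {a z : ℂ} (ha : a ∉ Lam) (h0 : z ∉ Lam) (h1 : a + z ∉ Lam)
    (h2 : a - z ∉ Lam) : AnalyticAt ℂ (E1_D a) z := by
  have a1 := E1_analytic ha a z (E1_U_one h1 h2 a)
  have a2 := A1_wp_analytic h0
  have a3 : AnalyticAt ℂ (fun w => w ^ 2 * E1_Rex a a w * (wp a - wp w)) z := by fun_prop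
  refine a3.congr ?_
  have o1 : ∀ᶠ w in nhds z, a + w ∉ Lam :=
    (A1_open.preimage (f := fun w : ℂ => a + w) (by fun_prop)).mem_nhds h1
  have o2 : ∀ᶠ w in nhds z, a - w ∉ Lam :=
    (A1_open.preimage (f := fun w : ℂ => a - w) (by fun_prop)).mem_nhds h2
  filter_upwards [o1, o2] with w h3 h4
  unfold E1_D
  rw [E1_F_one ha h3 h4]

theorem E1_at_zero {a : ℂ} (ha : a ∉ Lam) : ∃ b : ℂ → ℂ, AnalyticAt ℂ b 0 ∧ b 0 = wpd a ∧
    ∀ᶠ z in nhdsWithin (0 : ℂ) {0}ᶜ, E1_D a z = b z := by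
  obtain ⟨u, hu, hu0, hexp⟩ := wp_expansion
  have hU : (0 : ℂ) ∈ E1_U a a := by
    apply E1_U_one
    · rw [add_zero]; exact ha
    · rw [sub_zero]; exact ha
  have a1 := E1_analytic ha a 0 hU
  refine ⟨fun w => E1_Rex a a w * (w ^ 2 * wp a - 1 - w ^ 6 * u w), by fun_prop, ?_, ?_⟩
  · simp only
    rw [E1_Rex_zero ha]
    ring
  · filter_upwards [hexp, E1_ev a 0, self_mem_nhdsWithin] with w h1 h2 hw
    have hw' : w ≠ 0 := hw
    unfold E1_D
    rw [E1_F_one ha h2.1 h2.2, h1]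
    field_simp
    ring

theorem E1_at_a {a : ℂ} (ha : a ∉ Lam) (h2a : 2 * a ∉ Lam) : E1_Rem a a := by
  have ha0 : a ≠ 0 := by
    rintro rfl
    exact ha A1_zero_mem
  have hU : a ∈ E1_U a 0 := by
    constructor
    · intro h
      apply h.2
      rw [sub_self]
      rfl
    · intro h
      apply h2a
      have := A1_neg_mem ((mem_LL _).1 h.1)
      have e1 : -(-a - a) = 2 * a := by ring
      rwa [e1] at this
  have a1 := E1_analytic ha 0 a hU
  have a2 := A1_wp_analytic ha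
  have a3 : AnalyticAt ℂ (dslope wp a) a := by
    obtain ⟨p, hp⟩ := a2
    exact ⟨_, hp.has_fpower_series_dslope_fslope⟩
  have a4 : AnalyticAt ℂ (fun w : ℂ => 2 * w ^ 2 / ((a + w) * a)) a := by
    refine AnalyticAt.div (by fun_prop) (by fun_prop) ?_
    refine mul_ne_zero ?_ ha0
    rw [← two_mul]
    exact mul_ne_zero two_ne_zero ha0
  obtain ⟨q, hq⟩ : ∃ q : ℂ → ℂ, q = fun w : ℂ => 2 * w ^ 2 / ((a + w) * a) := ⟨_, rfl⟩
  rw [← hq] at a4
  refine ⟨fun w => w ^ 2 * E1_Rex a 0 w * (wp a - wp w) + q w * dslope wp a w, by fun_prop, ?_⟩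
  filter_upwards [E1_ev a a, self_mem_nhdsWithin] with w h2 hw
  have hw' : w ≠ a := hw
  have hw1 : a - w ≠ 0 := sub_ne_zero.2 hw'.symm
  have hw1' : w - a ≠ 0 := sub_ne_zero.2 hw'
  have hw2 : a + w ≠ 0 := by
    intro h
    apply h2.1
    rw [h]
    exact A1_zero_mem
  unfold E1_D
  rw [E1_F_zero ha h2.1 h2.2, hq, dslope_of_ne _ hw', slope_def_field]
  have e1 : a ^ 2 - w ^ 2 = (a - w) * (a + w) := by ring
  rw [e1]
  field_simp
  ring

theorem E1_all {a : ℂ} (ha : a ∉ Lam) (h2a : 2 * a ∉ Lam) (z₀ : ℂ) : E1_Rem a z₀ := by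
  by_cases c0 : z₀ ∈ Lam
  · obtain ⟨y, hy⟩ := c0
    obtain ⟨b, hb, -, h⟩ := E1_at_zero ha
    have h0 : E1_Rem a 0 := ⟨b, hb, h⟩
    have := E1_Rem_per h0 y
    rwa [zero_add, ← hy] at this
  · by_cases c1 : a + z₀ ∈ Lam
    · obtain ⟨y, hy⟩ := c1
      have h1 := E1_Rem_per (E1_Rem_neg (E1_at_a ha h2a)) y
      have e1 : -a + 3 * e y = z₀ := by linear_combination -hy
      rwa [e1] at h1
    · by_cases c2 : a - z₀ ∈ Lam
      · obtain ⟨y, hy⟩ := c2
        have h1 := E1_Rem_per (E1_at_a ha h2a) (-y)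
        have e1 : a + 3 * e (-y) = z₀ := by rw [map_neg]; linear_combination hy
        rwa [e1] at h1
      · exact ⟨E1_D a, E1_D_analytic ha c0 c1 c2, Filter.Eventually.of_forall fun z => rfl⟩

/-- The half period case. -/
theorem E1_half {a : ℂ} (h2a : 2 * a ∈ Lam) (w : ℂ) : E1_F a w = 0 := by
  obtain ⟨y, hy⟩ := h2a
  have h1 : E1_F a w = -E1_F a w := by
    conv_lhs => unfold E1_F
    rw [← (Equiv.subLeft (-y)).tsum_eq (E1_T a w)]
    unfold E1_F
    rw [← tsum_neg]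
    refine tsum_congr fun x => ?_
    show E1_T a w (-y - x) = -E1_T a w x
    unfold E1_T
    have e1 : a + w + 3 * e (-y - x) = -(a - w + 3 * e x) := by
      rw [map_sub, map_neg]
      linear_combination hy
    have e2 : a - w + 3 * e (-y - x) = -(a + w + 3 * e x) := by
      rw [map_sub, map_neg]
      linear_combination hy
    have e3 : a + 3 * e (-y - x) = -(a + 3 * e x) := by
      rw [map_sub, map_neg]
      linear_combination hy
    rw [e1, e2, e3, inv_neg, inv_neg, inv_neg]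
    ring
  have h2 : 2 * E1_F a w = 0 := by linear_combination h1
  rcases mul_eq_zero.1 h2 with h | h
  · norm_num at h
  · exact h

theorem E1_wpd_half {a : ℂ} (h2a : 2 * a ∈ Lam) : wpd a = 0 := by
  obtain ⟨y, hy⟩ := h2a
  have h3 := A0_wpd_per (-a) y
  rw [← hy, A0_wpd_neg] at h3
  have h4 : -a + 2 * a = a := by ring
  rw [h4] at h3
  have h7 : 2 * wpd a = 0 := by linear_combination h3
  rcases mul_eq_zero.1 h7 with h | h
  · norm_num at h
  · exact h

/-! Chunk E1 (M/L). The second difference sum at a general base point: copy of H55B/A1 (R_identity, base point 1). For a not in Lam put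
T(w) = sum_x 1/(a+w+3x) + 1/(a-w+3x) - 2/(a+3x) = sum 2 w^2 / (((a+l)^2 - w^2)(a+l)), absolutely convergent. D(w) = T(w)(wp a - wp w) is even and Lam-periodic in w (T: shift of
the summation, telescoping of absolutely convergent sums as in R_per in H55B), and has removable singularities at all points: at 0 (wp w = w^(-2) + .., T(w) = w^2 * (-wpd(a)) + .. because sum 2/(a+l)^3 =
-wpd(a)), at ±a mod Lam (simple pole of T, simple zero of wp a - wp w; if a is a half period wp - wp a has a double zero). So D is constant (A0_liouville) and D(0) = wpd a.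
Reuse A1_tm, A1_bound etc. by replacing 1 with a; everything needed from A1 is a general lemma or its copy. -/

theorem T_formula (a w : ℂ) (ha : a ∉ Lam) (hw : w ∉ Lam) (h1 : a + w ∉ Lam) (h2 : a - w ∉ Lam) :
    ∃ T : ℂ, HasSum (fun x : O => (a + w + 3 * e x)⁻¹ + (a - w + 3 * e x)⁻¹ -
      2 * (a + 3 * e x)⁻¹) T ∧ T * (wp a - wp w) = wpd a := by
  refine ⟨E1_F a w, (E1_T_summable a w).hasSum, ?_⟩
  by_cases h2a : 2 * a ∈ Lam
  · rw [E1_half h2a, E1_wpd_half h2a, zero_mul]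
  · obtain ⟨c, hc⟩ := A0_liouville (E1_D a) (E1_D_per a) (E1_all ha h2a)
    obtain ⟨b, hb, hb0, h⟩ := E1_at_zero ha
    have e1 := hc 0 b hb.continuousAt h
    have e2 : E1_D a w = c := hc w (E1_D a) (E1_D_analytic ha hw h1 h2).continuousAt
      (Filter.Eventually.of_forall fun z => rfl)
    show E1_D a w = wpd a
    rw [e2, ← e1, hb0]

end H55N
end
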