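import Mathlib
import Pool.Agent.Lib.H1M.PP2.M020
import Pool.Agent.Lib.H1M.PP2.M021
import Pool.Agent.Lib.H1M.PP2.M031
import Pool.Agent.Lib.H1M.PP2.M039
import Pool.Agent.Lib.H1M.PP2.M040

/-! Merged copies (to shorten the build) of Lib.H13E.Defs, Lib.H28G.GV4, Lib.H35T.E2, Lib.H13S.VW, Lib.H28G.GD2, Lib.H55N.H1, Lib.H55N.TW2, Lib.H55N.H6, Lib.H55R.D5. -/

-- from Lib.H13E.Defs
section

/-!
# H13E: definitions

The Birch and Swinnerton-Dyer conjecture (rank part and 3-part) for y^2 = x^3 - 1 over number fields which do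
not contain the cube roots of unity. See PROOF.md. The curve E144, the Selmer group Sel, the function Om and
3-adic units Unit3 are those of H35T.
-/

open NumberField IsDedekindDomain Polynomial

namespace H13E

open H55B H35T






/-- The quadratic algebra k[T]/(T^2 - 27). -/
abbrev Qe (k : Type) [Field k] : Type := AdjoinRoot (X ^ 2 - C 27 : k[X])





end H13E
end

-- from Lib.H28G.GV4
section

open NumberField IsDedekindDomain WeierstrassCurve

namespace H28G

open H55B

/-! Chunk GV4 (M): congruent points differ by a point of E1 (good reduction, v 3 = 1). P = (x1,y1), -Q = (x2, -1-y2). If x1 = x2: P = Q or P = -Q (xc_eq): P - Q = 0, or P - Q = P + P with y1 - y2 = 2y1 + 1 = fc P, v(fc P) < 1; if fc P = 0 then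
P + P = 0 (fc_eq_zero); otherwise dbl_coords: s = 3 x1^2/fc P, and v(4x1^3) = v(fc^2 - 1) = 1 so v(x1) = 1 or (v 4 < 1: v x1 <= 1 gives v(4 x1^3) < 1, impossible), so v(3 x1^2) = 1 < ..: v(s) > 1, v(xc(P+P)) = v(s^2 - 2x1) = v(s)^2 > 1.
If x1 <> x2: add_coords for P and -Q: s = (y1 + 1 + y2)/(x1 - x2), and (y1 - y2)(y1 + y2 + 1) = (x1 - x2)(x1^2 + x1x2 + x2^2) (difference of the two equations). (a) v(y1+y2+1) = 1: v(s) = 1/v(x1-x2) > 1. (b) v(y1+y2+1) < 1: y1 + y2 + 1 = 2y1 + 1 - (y1 - y2), so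
v(fc P) < 1, as before v(x1) = 1 (and v 2 = 1), x1^2 + x1x2 + x2^2 = 3x1^2 + small has valuation 1, so (x1 - x2)(unit) = (y1 - y2)(y1+y2+1) <> 0 and s = (x1^2+x1x2+x2^2)/(y1-y2), v(s) > 1. In both cases v(xc(P-Q)) = v(s^2 - x1 - x2) = v(s)^2 > 1. -/

variable {k : Type} [Field k] [DecidableEq k] [Algebra F k]
  {Γ : Type} [LinearOrderedCommGroupWithZero Γ] (v : Valuation k Γ)

omit [DecidableEq k] [Algebra F k] in
theorem GV4_two : v 2 ≤ 1 := by
  have h : (2 : k) = 1 + 1 := by norm_num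
  rw [h]
  exact (Valuation.map_add v 1 1).trans (by rw [map_one, max_self])

omit [DecidableEq k] [Algebra F k] in
theorem GV4_gt {s a b : k} (hs : 1 < v s) (ha : v a ≤ 1) (hb : v b ≤ 1) : 1 < v (s ^ 2 - a - b) := by
  by_contra h
  rw [not_lt] at h
  have h1 : v (s ^ 2) ≤ 1 := by
    have e : s ^ 2 = (s ^ 2 - a - b) + (a + b) := by ring
    rw [e]
    exact (Valuation.map_add v _ _).trans (max_le h ((Valuation.map_add v _ _).trans (max_le ha hb)))
  rw [map_pow] at h1
  exact absurd h1 (not_le.2 (one_lt_pow₀ hs (by norm_num)))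

omit [DecidableEq k] [Algebra F k] in
theorem GV4_div {a b : k} (ha : 1 ≤ v a) (hb : v b < 1) (hb0 : b ≠ 0) : 1 < v (a / b) := by
  rw [map_div₀]
  have h0 : 0 < v b := by
    rw [zero_lt_iff]
    exact (Valuation.ne_zero_iff v).2 hb0
  rw [one_lt_div₀ h0]
  exact hb.trans_le ha

omit [DecidableEq k] in
/-- If 2y + 1 is small then x is a unit. -/
theorem GV4_x {P : P27 k} (h1 : v (xc P) ≤ 1) (hf : v (fc P) < 1) : v (xc P) = 1 := by
  refine le_antisymm h1 ?_
  by_contra h
  rw [not_le] at h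
  have h2 : v (4 * xc P ^ 3) < 1 := by
    have e : 4 * xc P ^ 3 = (2 * 2 * xc P ^ 2) * xc P := by ring
    rw [e, map_mul]
    have h3 : v (2 * 2 * xc P ^ 2) ≤ 1 := by
      rw [map_mul, map_mul, map_pow]
      exact mul_le_one₀ (mul_le_one₀ (GV4_two v) zero_le (GV4_two v)) zero_le (pow_le_one₀ zero_le h1)
    exact (mul_le_of_le_one_left zero_le h3).trans_lt h
  have h4 : v (4 * xc P ^ 3 + 1) = 1 := by
    rw [Valuation.map_add_eq_of_lt_right v (by rwa [map_one]), map_one]
  rw [← fc_sq, map_pow] at h4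
  exact absurd h4 (pow_lt_one₀ zero_le hf (by norm_num)).ne

omit [DecidableEq k] in
theorem GV4_3x {P : P27 k} (h3 : v 3 = 1) (hx : v (xc P) = 1) : v (3 * xc P ^ 2) = 1 := by
  rw [map_mul, map_pow, h3, hx, one_pow, one_mul]

theorem red_sub (h3 : v 3 = 1) {P Q : P27 k} (hP : P ≠ 0) (hQ : Q ≠ 0) (h1 : v (xc P) ≤ 1)
    (h2 : v (xc Q) ≤ 1) (hx : v (xc P - xc Q) < 1) (hy : v (yc P - yc Q) < 1) : E1 v (P - Q) := by
  by_cases hxx : xc P = xc Q
  · rcases xc_eq hP hQ hxx with h | h
    · left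
      rw [h, sub_self]
    · -- `P = -Q`
      have hQP : Q = -P := by rw [h, neg_neg]
      have hf : v (fc P) < 1 := by
        rw [hQP, yc_neg hP] at hy
        have e : fc P = yc P - (-1 - yc P) := by
          unfold fc
          ring
        rwa [e]
      have e : P - Q = P + P := by rw [hQP, sub_neg_eq_add]
      rw [e]
      by_cases hf0 : fc P = 0
      · left
        have h5 : P = -P := by
          refine pt_ext hP (neg_ne hP) (xc_neg P).symm ?_
          rw [yc_neg hP]
          unfold fc at hf0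
          linear_combination hf0
        nth_rewrite 2 [h5]
        exact add_neg_cancel P
      · right
        have hd := (dbl_coords hP hf0).2.1
        rw [hd]
        have e2 : (3 * xc P ^ 2 / fc P) ^ 2 - 2 * xc P = (3 * xc P ^ 2 / fc P) ^ 2 - xc P - xc P := by ring
        rw [e2]
        exact GV4_gt v (GV4_div v (GV4_3x v h3 (GV4_x v h1 hf)).ge hf hf0) h1 h1
  · right
    have hxn : xc P ≠ xc (-Q) := by rwa [xc_neg]
    have ha := (add_coords hP (neg_ne hQ) hxn).2.1
    rw [sub_eq_add_neg, ha, xc_neg, yc_neg hQ]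
    refine GV4_gt v ?_ h1 h2
    have hd0 : xc P - xc Q ≠ 0 := sub_ne_zero.2 hxx
    have e1 : yc P - (-1 - yc Q) = yc P + yc Q + 1 := by ring
    rw [e1]
    by_cases hs : v (yc P + yc Q + 1) < 1
    · have hf : v (fc P) < 1 := by
        have e : fc P = (yc P + yc Q + 1) + (yc P - yc Q) := by
          unfold fc
          ring
        rw [e]
        exact (Valuation.map_add v _ _).trans_lt (max_lt hs hy)
      have hx1 := GV4_x v h1 hf
      have hq : v (xc P ^ 2 + xc P * xc Q + xc Q ^ 2) = 1 := by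
        have e : xc P ^ 2 + xc P * xc Q + xc Q ^ 2 = 3 * xc P ^ 2 +
            -((xc P - xc Q) * (xc P + (xc P + xc Q))) := by ring
        have h5 : v (-((xc P - xc Q) * (xc P + (xc P + xc Q)))) < v (3 * xc P ^ 2) := by
          rw [GV4_3x v h3 hx1, Valuation.map_neg, map_mul]
          have h6 : v (xc P + (xc P + xc Q)) ≤ 1 :=
            (Valuation.map_add v _ _).trans (max_le h1 ((Valuation.map_add v _ _).trans (max_le h1 h2)))
          exact (mul_le_of_le_one_right zero_le h6).trans_lt hx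
        rw [e, Valuation.map_add_eq_of_lt_left v h5, GV4_3x v h3 hx1]
      have hq0 : xc P ^ 2 + xc P * xc Q + xc Q ^ 2 ≠ 0 := by
        intro h
        rw [h, map_zero] at hq
        exact zero_ne_one hq
      have hid : (yc P - yc Q) * (yc P + yc Q + 1) = (xc P - xc Q) * (xc P ^ 2 + xc P * xc Q + xc Q ^ 2) := by
        linear_combination eqn P - eqn Q
      have hy0 : yc P - yc Q ≠ 0 := by
        intro h
        rw [h, zero_mul] at hid
        exact mul_ne_zero hd0 hq0 hid.symm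
      have e2 : (yc P + yc Q + 1) / (xc P - xc Q) = (xc P ^ 2 + xc P * xc Q + xc Q ^ 2) / (yc P - yc Q) := by
        rw [div_eq_div_iff hd0 hy0]
        linear_combination hid
      rw [e2]
      exact GV4_div v hq.ge hy hy0
    · exact GV4_div v (not_lt.1 hs) hx hd0

end H28G
end

-- from Lib.H35T.E2
section

open NumberField IsDedekindDomain

namespace H35T

open H55B

/-! Chunk E2 (M): the cubic character of 4 and the number of points.
jac_two: J = sum_a chi(a) chi(1 - a); the involution a -> 1 - a has the only fixed point a = 1/2 (characteristic not 2) and the same summand, so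
J = chi(1/2)^2 + 2 (sum over half of the others) (H55B.D2_split or Finset.sum_involution-like argument), chi(1/2)^2 = chi(4)^(-1) = chi(4)^2.
chi_four: by neg_jacobi gen v ^ f = -J, so 2 | gen v ^ f - chi(4)^2 (2 | 2J), chi(4)^2 is 1, om or om^2, so kap (gen v)^f = kap(gen v ^ f) =
chi(4)^2 (kap_mul, kap_uniq) and chi 4 = chi(4)^4 = (kap (gen v)^f)^2 = cj (kap (gen v)) ^ f.
pts: count, neg_jacobi, chi_four: chi 4 * J = -(cj (kap gen) * gen)^f; the sign is chi4(q) = chi4(N)^f with N = Nm (gen v) = absNorm v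
(FiniteField.isSquare_neg_one_iff: -1 is a square iff q is not 3 mod 4; q odd); so sign * chi 4 * J = -(cj (eta (gen v)) * gen v)^f;
apply e (compare H55B.E3.pts). -/

theorem E2_mk_two {z : O} : Ideal.Quotient.mk (Ideal.span {(2 : O)}) z = 0 ↔ (2 : O) ∣ z := by
  rw [Ideal.Quotient.eq_zero_iff_mem, Ideal.mem_span_singleton]

theorem E2_chi4 (k : Type*) [Field k] (h2k : (2 : k) ≠ 0) (χ : MulChar k O) (hχ3 : χ ^ 3 = 1) :
    χ 4 ^ 3 = 1 := by
  have h4 : (4 : k) ≠ 0 := by
    have : (4 : k) = 2 * 2 := by norm_num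
    rw [this]
    exact mul_ne_zero h2k h2k
  have h : (χ ^ 3) 4 = (1 : MulChar k O) 4 := by rw [hχ3]
  rw [MulChar.pow_apply' χ (by norm_num : (3 : ℕ) ≠ 0), MulChar.one_apply (isUnit_iff_ne_zero.2 h4)] at h
  exact h

theorem jac_two (k : Type*) [Field k] [Fintype k] (φ : O →+* k) (h2 : φ 2 ≠ 0)
    (χ : MulChar k O) (hχ3 : χ ^ 3 = 1) : (2 : O) ∣ jacobiSum χ χ - χ 4 ^ 2 := by
  classical
  have h2k : (2 : k) ≠ 0 := by
    rwa [map_ofNat] at h2
  have hc := E2_chi4 k h2k χ hχ3
  have hc0 : χ 4 ≠ 0 := by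
    intro h
    rw [h] at hc
    norm_num at hc
  have hhalf : χ (2 : k)⁻¹ * χ (1 - (2 : k)⁻¹) = χ 4 ^ 2 := by
    have h1 : (1 : k) - 2⁻¹ = 2⁻¹ := by
      field_simp
      norm_num
    rw [h1]
    apply mul_right_cancel₀ hc0
    rw [← map_mul, ← map_mul]
    have h4 : (2 : k)⁻¹ * 2⁻¹ * 4 = 1 := by
      field_simp
      norm_num
    rw [h4, MulChar.map_one]
    rw [← pow_succ, hc]
  rw [← E2_mk_two]
  unfold jacobiSum
  rw [← Finset.add_sum_erase Finset.univ (fun x : k => χ x * χ (1 - x)) (Finset.mem_univ (2 : k)⁻¹), hhalf,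
    add_sub_cancel_left, map_sum]
  have htwo : ∀ z : O, Ideal.Quotient.mk (Ideal.span {(2 : O)}) z +
      Ideal.Quotient.mk (Ideal.span {(2 : O)}) z = 0 := by
    intro z
    rw [← map_add, E2_mk_two, ← two_mul]
    exact dvd_mul_right _ _
  refine Finset.sum_involution (fun x _ => 1 - x) ?_ ?_ ?_ ?_
  · intro a _
    have h5 : χ (1 - a) * χ (1 - (1 - a)) = χ a * χ (1 - a) := by
      rw [sub_sub_cancel, mul_comm]
    rw [h5]
    exact htwo _
  · intro a ha _ heq
    have h5 : (1 : k) = 2 * a := by linear_combination heq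
    apply (Finset.mem_erase.1 ha).1
    apply eq_inv_of_mul_eq_one_left
    rw [mul_comm]
    exact h5.symm
  · intro a ha
    rw [Finset.mem_erase] at ha ⊢
    refine ⟨?_, Finset.mem_univ _⟩
    intro h5
    apply ha.1
    have h6 : a = 1 - (2 : k)⁻¹ := by rw [← h5]; ring
    rw [h6]
    field_simp
    norm_num
  · intro a _
    simp

theorem E2_cube {z : O} (h : z ^ 3 = 1) : z = 1 ∨ z = om ∨ z = om ^ 2 := by
  have h1 : (z - 1) * ((z - om) * (z - om ^ 2)) = 0 := by
    have := om_rel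
    linear_combination h + (z * (1 - z) * 1 - (z - 1) * z * 0 + (z - 1) * (om - 1) - z * (1 - z) - (z - 1) * z) * this
  rcases mul_eq_zero.1 h1 with h2 | h2
  · left; exact sub_eq_zero.1 h2
  · rcases mul_eq_zero.1 h2 with h3 | h3
    · right; left; exact sub_eq_zero.1 h3
    · right; right; exact sub_eq_zero.1 h3

theorem E2_kap_pow (x : O) (f : ℕ) : kap (x ^ f) = kap x ^ f := by
  induction f with
  | zero =>
    rw [pow_zero, pow_zero, kap_one]
    simp
  | succ n ih => rw [pow_succ, pow_succ, kap_mul, ih]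

theorem chi_four (v : HeightOneSpectrum O) (h3 : (3 : O) ∉ v.asIdeal) (h2 : (2 : O) ∉ v.asIdeal)
    (k : Type*) [Field k] [Fintype k] (φ : O →+* k) (hker : RingHom.ker φ = v.asIdeal) (f : ℕ)
    (hf : 0 < f) (hq : Fintype.card k = Ideal.absNorm v.asIdeal ^ f) (χ : MulChar k O)
    (hχ3 : χ ^ 3 = 1) (hχ : χ ≠ 1) (h3c : 3 ∣ Fintype.card k - 1)
    (hφ : ∀ x : k, φ (χ x) = x ^ ((Fintype.card k - 1) / 3)) (hcj : ∀ x : k, cj (χ x) = χ x ^ 2) :
    χ 4 = cj (kap (gen v)) ^ f := by
  have hφ2 : φ 2 ≠ 0 := by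
    intro h
    apply h2
    rw [← hker]
    exact h
  have h2k : (2 : k) ≠ 0 := by
    rwa [map_ofNat] at hφ2
  have hc := E2_chi4 k h2k χ hχ3
  have hJ := neg_jacobi v h3 k φ hker f hf hq χ hχ3 hχ h3c hφ hcj
  have hj2 := jac_two k φ hφ2 χ hχ3
  have h5 : (2 : O) ∣ gen v ^ f - χ 4 ^ 2 := by
    have h6 : gen v ^ f - χ 4 ^ 2 = -(jacobiSum χ χ - χ 4 ^ 2) + 2 * (-χ 4 ^ 2) := by
      rw [← hJ]; ring
    rw [h6]
    exact dvd_add (hj2.neg_right) (dvd_mul_right _ _)
  have h7 : χ 4 ^ 2 = 0 ∨ χ 4 ^ 2 = 1 ∨ χ 4 ^ 2 = om ∨ χ 4 ^ 2 = om ^ 2 := by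
    right
    apply E2_cube
    rw [← pow_mul, mul_comm, pow_mul, hc, one_pow]
  have h8 := kap_uniq (gen v ^ f) h7 h5
  rw [E2_kap_pow] at h8
  rw [← map_pow, h8, map_pow, hcj, ← pow_mul]
  have h9 : χ 4 ^ (2 * 2) = χ 4 ^ 3 * χ 4 := by ring
  rw [h9, hc, one_mul]

theorem E2_sign (k : Type*) [Field k] [Fintype k] (h2k : (2 : k) ≠ 0) (N f : ℕ)
    (hq : Fintype.card k = N ^ f) [Decidable (IsSquare (-1 : k))] :
    (if IsSquare (-1 : k) then (1 : O) else -1) = ((ZMod.χ₄ (N : ZMod 4) : ℤ) : O) ^ f := by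
  have hodd : Fintype.card k % 2 = 1 := by
    apply FiniteField.odd_card_of_char_ne_two
    intro h
    apply h2k
    have : CharP k 2 := by
      rw [← h]; exact ringChar.charP k
    exact CharTwo.two_eq_zero
  have h1 : ((ZMod.χ₄ (N : ZMod 4) : ℤ) : O) ^ f = ((ZMod.χ₄ ((Fintype.card k : ℕ) : ZMod 4) : ℤ) : O) := by
    rw [hq, Nat.cast_pow, map_pow, Int.cast_pow]
  rw [h1]
  by_cases hs : IsSquare (-1 : k)
  · rw [if_pos hs]
    have h4 := FiniteField.isSquare_neg_one_iff.1 hs
    rw [ZMod.χ₄_nat_one_mod_four (by omega), Int.cast_one]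
  · rw [if_neg hs]
    have h4 : Fintype.card k % 4 = 3 := by
      by_contra h
      exact hs (FiniteField.isSquare_neg_one_iff.2 h)
    rw [ZMod.χ₄_nat_three_mod_four h4, Int.cast_neg, Int.cast_one]

theorem pts (v : HeightOneSpectrum O) (h3 : (3 : O) ∉ v.asIdeal) (h2 : (2 : O) ∉ v.asIdeal)
    (k : Type*) [Field k] [Finite k] (φ : O →+* k) (hker : RingHom.ker φ = v.asIdeal) (f : ℕ)
    (hf : 0 < f) (hq : Nat.card k = Ideal.absNorm v.asIdeal ^ f) :
    (Nat.card {p : k × k // p.2 ^ 2 = p.1 ^ 3 - 1} : ℂ) = (Ideal.absNorm v.asIdeal : ℂ) ^ f -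
      (((starRingEnd ℂ) (e (eta (gen v))) * e (gen v)) ^ f +
        (e (eta (gen v)) * (starRingEnd ℂ) (e (gen v))) ^ f) := by
  classical
  have := Fintype.ofFinite k
  rw [Nat.card_eq_fintype_card] at hq
  have hφ3 : φ 3 ≠ 0 := by
    intro h
    apply h3
    rw [← hker]
    exact h
  have hφ2 : φ 2 ≠ 0 := by
    intro h
    apply h2
    rw [← hker]
    exact h
  have h2k : (2 : k) ≠ 0 := by
    rwa [map_ofNat] at hφ2
  obtain ⟨χ, hχ3, hχ, h3c, hφ, hcj, -⟩ := exists_chi k φ hφ3
  have hJ := neg_jacobi v h3 k φ hker f hf hq χ hχ3 hχ h3c hφ hcj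
  have hJ' : jacobiSum χ χ = -gen v ^ f := by rw [← hJ, neg_neg]
  have hc := count k φ hφ3 hφ2 χ hχ3 hχ h3c hφ hcj
  have h4 := chi_four v h3 h2 k φ hker f hf hq χ hχ3 hχ h3c hφ hcj
  have hN : (Ideal.absNorm v.asIdeal) = Nm (gen v) := absNorm_gen v h3
  have hsign := E2_sign k h2k (Nm (gen v)) f (by rw [hq, hN])
  set ε : O := ((ZMod.χ₄ (Nm (gen v) : ZMod 4) : ℤ) : O) with hε
  have heta : eta (gen v) = ε * kap (gen v) := rfl
  have hcjε : cj ε = ε := by
    rw [hε]
    exact map_intCast cj _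
  have hz : χ 4 * jacobiSum χ χ = -(cj (kap (gen v)) * gen v) ^ f := by
    rw [h4, hJ', mul_pow]; ring
  have hz' : cj (χ 4 * jacobiSum χ χ) = -(kap (gen v) * cj (gen v)) ^ f := by
    rw [hz, map_neg, map_pow, map_mul, cj_cj]
  rw [hsign, hz', hz] at hc
  have h := congrArg e hc
  have he1 : (starRingEnd ℂ) (e (eta (gen v))) * e (gen v) = e (ε * (cj (kap (gen v)) * gen v)) := by
    rw [← e_cj, heta, map_mul, hcjε, ← map_mul, mul_assoc]
  have he2 : e (eta (gen v)) * (starRingEnd ℂ) (e (gen v)) = e (ε * (kap (gen v) * cj (gen v))) := by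
    rw [← e_cj, heta, ← map_mul, mul_assoc]
  rw [he1, he2, ← map_pow, ← map_pow, mul_pow, mul_pow ε]
  simp only [map_natCast, map_add, map_neg, map_mul, map_pow] at h ⊢
  rw [h, hq]
  push_cast
  ring

end H35T
end

-- from Lib.H13S.VW
section

open NumberField IsDedekindDomain

namespace H13S

/-- The prime ideal below a valuation ring. -/
def vwI {F₀ : Type} [Field F₀] {Ω : Type} [Field Ω] [Algebra F₀ Ω]
    (K : IntermediateField F₀ Ω) [NumberField K] (V : ValuationSubring Ω) : Ideal (𝓞 K) where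
  carrier := {z | V.valuation ((z : K) : Ω) < 1}
  zero_mem' := by
    show V.valuation (((0 : 𝓞 K) : K) : Ω) < 1
    simp
  add_mem' := by
    intro a b ha hb
    show V.valuation (((a + b : 𝓞 K) : K) : Ω) < 1
    have e : (((a + b : 𝓞 K) : K) : Ω) = ((a : K) : Ω) + ((b : K) : Ω) := by simp
    rw [e]
    exact V.valuation.map_add_lt ha hb
  smul_mem' := by
    intro a b hb
    show V.valuation (((a * b : 𝓞 K) : K) : Ω) < 1
    have e : (((a * b : 𝓞 K) : K) : Ω) = ((a : K) : Ω) * ((b : K) : Ω) := by simp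
    rw [e, map_mul]
    have h1 : IsIntegral ℤ ((a : K) : Ω) :=
      (RingOfIntegers.isIntegral_coe a).map (K.val.restrictScalars ℤ)
    have h2 : IsIntegral V ((a : K) : Ω) := h1.tower_top
    obtain ⟨y, hy⟩ := (IsIntegrallyClosed.isIntegral_iff (R := V) (K := Ω)).1 h2
    have h3 : V.valuation ((a : K) : Ω) ≤ 1 := by
      rw [← hy]
      exact (V.valuation_le_one_iff _).2 y.2
    exact lt_of_le_of_lt (mul_le_of_le_one_left' h3) hb

theorem vw_int {F₀ : Type} [Field F₀] {Ω : Type} [Field Ω] [Algebra F₀ Ω]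
    (K : IntermediateField F₀ Ω) [NumberField K] (V : ValuationSubring Ω) (a : 𝓞 K) :
    V.valuation ((a : K) : Ω) ≤ 1 := by
  have h1 : IsIntegral ℤ ((a : K) : Ω) :=
    (RingOfIntegers.isIntegral_coe a).map (K.val.restrictScalars ℤ)
  have h2 : IsIntegral V ((a : K) : Ω) := h1.tower_top
  obtain ⟨y, hy⟩ := (IsIntegrallyClosed.isIntegral_iff (R := V) (K := Ω)).1 h2
  rw [← hy]
  exact (V.valuation_le_one_iff _).2 y.2

/-- Chunk VW (S/M). A valuation ring of Ω which does not contain K lies above a prime of K. Proof: V contains the algebraic integers of K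
(V is integrally closed and contains the integers), P = {a in 𝓞 K : V.valuation a < 1} is a prime ideal; if it were 0 then V would contain all
quotients of algebraic integers, that is K. For w = P: w.valuation x ≤ 1 implies x = a/b with b not in P (valuation ring of w = localisation,
e.g. IsDedekindDomain.HeightOneSpectrum.exists_adicValued_mul_sub_le or valuation_le_one iff ..), so x in V. Conversely if
w.valuation x > 1 then w.valuation (1/x) < 1, 1/x = a/b with a in P, b not in P, so V.valuation (1/x) < 1 and x is not in V. Also prove the second part: elements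
of value < 1 correspond. -/
theorem exists_below {F₀ : Type} [Field F₀] {Ω : Type} [Field Ω] [Algebra F₀ Ω]
    (K : IntermediateField F₀ Ω) [NumberField K] (V : ValuationSubring Ω) (h : ∃ x : K, (x : Ω) ∉ V) :
    ∃ w : HeightOneSpectrum (𝓞 K), Abv K V w := by
  have hP : ∀ z : 𝓞 K, z ∈ vwI K V ↔ V.valuation ((z : K) : Ω) < 1 := fun z => Iff.rfl
  have hP1 : ∀ z : 𝓞 K, z ∉ vwI K V → V.valuation ((z : K) : Ω) = 1 := fun z hz =>
    le_antisymm (vw_int K V z) (not_lt.1 fun h' => hz h')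
  have hmul : ∀ a b : K, V.valuation ((a * b : K) : Ω) = V.valuation (a : Ω) * V.valuation (b : Ω) := by
    intro a b
    rw [← map_mul]
    rfl
  have hprime : (vwI K V).IsPrime := by
    refine Ideal.isPrime_iff.2 ⟨?_, ?_⟩
    · intro h1
      have h2 : (1 : 𝓞 K) ∈ vwI K V := by rw [h1]; trivial
      rw [hP] at h2
      simp at h2
    · intro x y hxy
      by_contra hc
      rw [not_or] at hc
      rw [hP] at hxy
      have e : (((x * y : 𝓞 K) : K) : Ω) = ((x : K) : Ω) * ((y : K) : Ω) := by simp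
      rw [e, map_mul, hP1 _ hc.1, hP1 _ hc.2, one_mul] at hxy
      exact lt_irrefl _ hxy
  have hne : vwI K V ≠ ⊥ := by
    intro h0
    obtain ⟨x, hx⟩ := h
    apply hx
    obtain ⟨a, b, hb, hab⟩ := IsFractionRing.div_surjective (A := 𝓞 K) x
    have hb0 : b ≠ 0 := nonZeroDivisors.ne_zero hb
    have hb1 : V.valuation ((b : K) : Ω) = 1 := hP1 b fun h' => hb0 (by
      rw [h0, Ideal.mem_bot] at h'
      exact h')
    have hb2 : (b : K) ≠ 0 := fun h' => hb0 (RingOfIntegers.coe_injective (h'.trans (map_zero _).symm))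
    have h1 : x * (b : K) = a := by
      rw [← hab]
      exact div_mul_cancel₀ _ hb2
    have h2 := hmul x (b : K)
    rw [h1, hb1, mul_one] at h2
    rw [← V.valuation_le_one_iff, ← h2]
    exact vw_int K V a
  let w : HeightOneSpectrum (𝓞 K) := ⟨vwI K V, hprime, hne⟩
  refine ⟨w, fun x => ?_⟩
  rw [← V.valuation_le_one_iff]
  have hw1 : ∀ d : 𝓞 K, d ∉ vwI K V → w.valuation K (algebraMap (𝓞 K) K d) = 1 := fun d hd =>
    le_antisymm (w.valuation_le_one d) (not_lt.1 fun h' => hd ((w.valuation_lt_one_iff_mem d).1 h'))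
  obtain ⟨n, d, hnd | hnd⟩ := w.exists_primeCompl_mul_eq_or_mul_eq x
  · have h1 := hmul x (algebraMap (𝓞 K) K (d : 𝓞 K))
    rw [hnd] at h1
    have h2 : V.valuation ((algebraMap (𝓞 K) K (d : 𝓞 K) : K) : Ω) = 1 := hP1 _ d.2
    rw [h2, mul_one] at h1
    have h3 := congrArg (w.valuation K) hnd
    rw [map_mul, hw1 _ d.2, mul_one] at h3
    refine ⟨fun _ => ?_, fun _ => ?_⟩
    · rw [h3]
      exact w.valuation_le_one n
    · rw [← h1]
      exact vw_int K V n
  · have h1 := hmul x (algebraMap (𝓞 K) K n)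
    rw [hnd] at h1
    have h2 : V.valuation ((algebraMap (𝓞 K) K (d : 𝓞 K) : K) : Ω) = 1 := hP1 _ d.2
    rw [h2] at h1
    have h3 := congrArg (w.valuation K) hnd
    rw [map_mul, hw1 _ d.2] at h3
    by_cases hn : n ∈ vwI K V
    · have h4 : V.valuation ((algebraMap (𝓞 K) K n : K) : Ω) < 1 := hn
      have h5 : w.valuation K (algebraMap (𝓞 K) K n) < 1 := (w.valuation_lt_one_iff_mem n).2 hn
      refine ⟨fun h6 => ?_, fun h6 => ?_⟩
      · exact absurd h1 (ne_of_gt (lt_of_le_of_lt (mul_le_of_le_one_left' h6) h4))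
      · exact absurd h3 (ne_of_lt (lt_of_le_of_lt (mul_le_of_le_one_left' h6) h5))
    · have h4 : V.valuation ((algebraMap (𝓞 K) K n : K) : Ω) = 1 := hP1 _ hn
      rw [h4, mul_one] at h1
      rw [hw1 _ hn, mul_one] at h3
      rw [← h1, h3]
      exact ⟨fun _ => le_rfl, fun _ => le_rfl⟩

theorem Abv.lt {F₀ : Type} [Field F₀] {Ω : Type} [Field Ω] [Algebra F₀ Ω]
    {K : IntermediateField F₀ Ω} [NumberField K] {V : ValuationSubring Ω} {w : HeightOneSpectrum (𝓞 K)}
    (h : Abv K V w) (x : K) : V.valuation (x : Ω) < 1 ↔ w.valuation K x < 1 := by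
  by_cases hx : x = 0
  · subst hx
    rw [map_zero]
    have : ((0 : K) : Ω) = 0 := rfl
    rw [this, map_zero]
    exact ⟨fun _ => zero_lt_one, fun _ => zero_lt_one⟩
  · have hx' : (x : Ω) ≠ 0 := fun h' => hx (Subtype.ext h')
    have h1 := h x⁻¹
    have e : ((x⁻¹ : K) : Ω) = (x : Ω)⁻¹ := rfl
    rw [← V.valuation_le_one_iff, e, map_inv₀, map_inv₀] at h1
    have h2 : 0 < V.valuation (x : Ω) := zero_lt_iff.2 ((map_ne_zero _).2 hx')
    have h3 : 0 < w.valuation K x := zero_lt_iff.2 ((map_ne_zero _).2 hx)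
    rw [inv_le_one₀ h2, inv_le_one₀ h3] at h1
    rw [← not_le, ← not_le, h1]

theorem Abv.le {F₀ : Type} [Field F₀] {Ω : Type} [Field Ω] [Algebra F₀ Ω]
    {K : IntermediateField F₀ Ω} [NumberField K] {V : ValuationSubring Ω} {w : HeightOneSpectrum (𝓞 K)}
    (h : Abv K V w) (x y : K) : V.valuation (x : Ω) ≤ V.valuation (y : Ω) ↔
      w.valuation K x ≤ w.valuation K y := by
  by_cases hy : y = 0
  · subst hy
    have e : ((0 : K) : Ω) = 0 := rfl
    rw [map_zero, e, map_zero, le_zero_iff, le_zero_iff, map_eq_zero, map_eq_zero]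
    exact ⟨fun h' => Subtype.ext h', fun h' => by rw [h']; rfl⟩
  · have hy' : (y : Ω) ≠ 0 := fun h' => hy (Subtype.ext h')
    have h1 := h (x / y)
    have e : ((x / y : K) : Ω) = (x : Ω) / (y : Ω) := rfl
    have h2 : 0 < V.valuation (y : Ω) := zero_lt_iff.2 ((map_ne_zero _).2 hy')
    have h3 : 0 < w.valuation K y := zero_lt_iff.2 ((map_ne_zero _).2 hy)
    rw [← V.valuation_le_one_iff, e, map_div₀, map_div₀, div_le_one₀ h2, div_le_one₀ h3] at h1
    exact h1

end H13S
end

-- from Lib.H28G.GD2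
section

open NumberField IsDedekindDomain WeierstrassCurve

namespace H28G

open H55B

/-! Chunk GD2 (S/M): the module Tor b k for a prime element b with full torsion. For R in Tor b k, R <> 0, the set {c | act c R = 0} is an ideal of O containing b and not 1, and (b) is maximal (b prime in the Dedekind domain O, b <> 0), so it is (b):
act_eq_zero. So c -> act c R induces an injection from O/(b) (Nm b elements) into Tor b k (Nm b elements): it is bijective (Nat.bijective_iff_injective_and_card, Full.finite). -/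

variable {k : Type} [Field k] [DecidableEq k] [Algebra F k]

theorem act_eq_zero {b : O} (hb : Prime b) {R : P27 k} (hR : R ∈ Tor b k) (h0 : R ≠ 0) (c : O) :
    act c R = 0 ↔ b ∣ c := by
  rw [mem_Tor] at hR
  constructor
  · intro h
    by_contra hbc
    have hp : (Ideal.span {b}).IsPrime := (Ideal.span_singleton_prime hb.ne_zero).2 hb
    have hbot : Ideal.span {b} ≠ ⊥ := by
      rw [Ne, Ideal.span_singleton_eq_bot]
      exact hb.ne_zero
    have hm : (Ideal.span {b}).IsMaximal := hp.isMaximal hbot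
    have hc : c ∉ Ideal.span {b} := fun h' => hbc (Ideal.mem_span_singleton.1 h')
    obtain ⟨y, z, hz, hyz⟩ := hm.exists_inv hc
    obtain ⟨w, rfl⟩ := Ideal.mem_span_singleton.1 hz
    apply h0
    have h1 : act (y * c + b * w) R = R := by
      rw [hyz, act_one]
    rw [act_add, act_mul, h, map_zero, zero_add, mul_comm b w, act_mul, hR, map_zero] at h1
    exact h1.symm
  · rintro ⟨w, rfl⟩
    rw [mul_comm b w, act_mul, hR, map_zero]

theorem GD2_mem {b : O} {R : P27 k} (hR : R ∈ Tor b k) (c : O) : act c R ∈ Tor b k := by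
  rw [mem_Tor] at hR ⊢
  rw [← act_mul, mul_comm, act_mul, hR, map_zero]

theorem tor_gen {b : O} (hb : Prime b) (hf : Full b k) {R R' : P27 k} (hR : R ∈ Tor b k)
    (hR' : R' ∈ Tor b k) (h0 : R ≠ 0) : ∃ c : O, act c R = R' := by
  have hfin := hf.finite hb.ne_zero
  let ψ : (O ⧸ Ideal.span {b}) → Tor b k := fun q => ⟨act q.out R, GD2_mem hR _⟩
  have hinj : Function.Injective ψ := by
    intro q q' h
    have h1 : act q.out R = act q'.out R := congrArg Subtype.val h
    have h2 : act (q.out - q'.out) R = 0 := by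
      rw [act_sub, h1, sub_self]
    rw [act_eq_zero hb hR h0, ← Ideal.mem_span_singleton, ← Ideal.Quotient.eq] at h2
    have h3 : ∀ r : O ⧸ Ideal.span {b}, Ideal.Quotient.mk (Ideal.span {b}) r.out = r :=
      fun r => Ideal.Quotient.mk_out r
    rw [h3, h3] at h2
    exact h2
  have hcard : Nat.card (O ⧸ Ideal.span {b}) = Nat.card (Tor b k) := by
    rw [hf]
    rfl
  have hbij : Function.Bijective ψ := (Nat.bijective_iff_injective_and_card ψ).2 ⟨hinj, hcard⟩
  obtain ⟨q, hq⟩ := hbij.2 ⟨R', hR'⟩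
  exact ⟨q.out, congrArg Subtype.val hq⟩

end H28G
end

-- from Lib.H55N.H1
section

open NumberField IsDedekindDomain

namespace H55N

open H55B H55C

/-! Chunk H1 (M): the Hecke character on prime ideals and its absolute value.
psiF_prime: v.asIdeal = span {gen v} with gen v primary (gen_spec), pg_span. psiF_three: exists_prim_iff.
Psi_prime: Ideal.relNorm_eq_pow_of_isMaximal (relNorm w = v^(inertiaDeg)), v.asIdeal lies below w.
Psi_ne: relNorm a is prime to 3 iff a is: write a as a product of prime ideals (or: if w contains a and 3 then relNorm a is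
contained in v containing 3 and psiF v = 0, psiF is multiplicative, a = w * a'; conversely if a is prime to 3, so are all
prime factors w of a, and Psi w <> 0 by Psi_prime, gen v <> 0; induction with
UniqueFactorizationMonoid.induction_on_prime). Psi_norm: |e x|^2 = Nm x = absNorm (span {x}) (Nm_eq), so |psiF J|^2 = absNorm J for
J prime to 3, J nonzero; absNorm (relNorm a) = absNorm a (Ideal.absNorm_relNorm). -/

theorem psiF_prime (v : HeightOneSpectrum O) (h3 : (3 : O) ∉ v.asIdeal) :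
    psiF v.asIdeal = (starRingEnd ℂ) (e (gen v)) := by
  obtain ⟨h1, h2⟩ := gen_spec v h3
  rw [psiF_apply]
  conv_lhs => rw [h1]
  rw [pg_span h2]


variable {K : Type} [Field K] [NumberField K] [Algebra F K]

theorem Psi_prime (w : HeightOneSpectrum (𝓞 K)) (v : HeightOneSpectrum O)
    (hv : v.asIdeal = w.asIdeal.under O) :
    Psi K w.asIdeal = psiF v.asIdeal ^ w.asIdeal.inertiaDeg O := by
  have : w.asIdeal.LiesOver v.asIdeal := ⟨hv⟩
  have := w.isMaximal
  have := v.isMaximal
  show psiF (Ideal.relNorm O w.asIdeal) = _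
  rw [Ideal.relNorm_eq_pow_of_isMaximal w.asIdeal v.asIdeal, map_pow]

omit [NumberField K] in
theorem H1_below (w : HeightOneSpectrum (𝓞 K)) :
    ∃ v : HeightOneSpectrum O, v.asIdeal = w.asIdeal.under O := by
  refine ⟨⟨w.asIdeal.under O, inferInstance, ?_⟩, rfl⟩
  exact mt Ideal.eq_bot_of_comap_eq_bot w.ne_bot






end H55N
end

-- from Lib.H55N.TW2
section

open NumberField IsDedekindDomain

namespace H55N

open H55B H55C

theorem TW2_coprime {K : Type} [Field K] [NumberField K] (a f : Ideal (𝓞 K)) (ha : a ≠ ⊥)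
    (S : Finset (HeightOneSpectrum (𝓞 K))) (hS : ∀ w, w ∈ S ↔ f ≤ w.asIdeal) :
    IsCoprime a f ↔ ∀ w ∈ S, ¬ a ≤ w.asIdeal := by
  constructor
  · intro h w hw haw
    rw [Ideal.isCoprime_iff_sup_eq] at h
    have h1 : a ⊔ f ≤ w.asIdeal := sup_le haw ((hS w).1 hw)
    rw [h] at h1
    exact w.isPrime.ne_top (top_le_iff.1 h1)
  · intro h
    rw [Ideal.isCoprime_iff_sup_eq]
    by_contra hne
    obtain ⟨M, hM, hle⟩ := Ideal.exists_le_maximal _ hne
    have hM0 : M ≠ ⊥ := by
      rintro rfl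
      exact ha (le_bot_iff.1 (le_sup_left.trans hle))
    have hw : (⟨M, hM.isPrime, hM0⟩ : HeightOneSpectrum (𝓞 K)) ∈ S :=
      (hS _).2 (le_sup_right.trans hle)
    exact h _ hw (le_sup_left.trans hle)


end H55N
end

-- from Lib.H55N.H6
section

open NumberField IsDedekindDomain

namespace H55N

open H55B H55C

/-- Chunk H6 (S/M), Dirichlet series of AI h: sum over the fibres of the absolute norm. The fibre over n = 0 is the zero ideal,
where h vanishes. For n <> 0 the fibre is finite (Ideal.finite_setOf_absNorm_eq) and the partial sum is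
(sum h a) n^(-s) = LSeries.term. Use HasSum.sigma (Equiv.sigmaFiberEquiv Ideal.absNorm) or HasSum of fibres. -/
theorem AI_LSeries {K : Type} [Field K] [NumberField K] (h : Ideal (𝓞 K) → ℂ) (h0 : h ⊥ = 0) (s : ℂ)
    (hs : Summable fun a => ‖tm h s a‖) :
    LSeriesHasSum (fun n => AI h n) s (∑' a, tm h s a) := by
  have h1 : HasSum (fun p : Σ n : ℕ, {a : Ideal (𝓞 K) // Ideal.absNorm a = n} => tm h s p.2.1)
      (∑' a, tm h s a) := by
    have h2 := (Equiv.sigmaFiberEquiv (fun a : Ideal (𝓞 K) => Ideal.absNorm a)).hasSum_iff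
      (f := tm h s) (a := ∑' a, tm h s a)
    exact h2.2 hs.of_norm.hasSum
  refine h1.sigma fun n => ?_
  by_cases hn : n = 0
  · subst hn
    rw [LSeries.term_zero]
    have h3 : (fun c : {a : Ideal (𝓞 K) // Ideal.absNorm a = 0} => tm h s c.1) = fun _ => 0 := by
      funext c
      have h4 : c.1 = ⊥ := Ideal.absNorm_eq_zero_iff.1 c.2
      unfold tm
      rw [h4, h0, zero_mul]
    show HasSum (fun c : {a : Ideal (𝓞 K) // Ideal.absNorm a = 0} => tm h s c.1) 0
    rw [h3]
    exact hasSum_zero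
  · have hfin : Finite {a : Ideal (𝓞 K) // Ideal.absNorm a = n} :=
      Ideal.finite_setOfPred_absNorm_eq n
    let _ : Fintype {a : Ideal (𝓞 K) // Ideal.absNorm a = n} := Fintype.ofFinite _
    rw [LSeries.term_of_ne_zero hn]
    have h3 : AI h n = ∑ a : {a : Ideal (𝓞 K) // Ideal.absNorm a = n}, h a.1 := by
      show (if n = 0 then (0 : ℂ) else ∑ᶠ (a : Ideal (𝓞 K)) (_ : Ideal.absNorm a = n), h a) = _
      rw [if_neg hn, ← finsum_subtype_eq_finsum_cond, finsum_eq_sum_of_fintype]
    have h4 : AI h n / (n : ℂ) ^ s =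
        ∑ a : {a : Ideal (𝓞 K) // Ideal.absNorm a = n}, tm h s a.1 := by
      rw [h3, div_eq_mul_inv, ← Complex.cpow_neg, Finset.sum_mul]
      refine Finset.sum_congr rfl fun a _ => ?_
      unfold tm
      rw [a.2]
    show HasSum (fun c : {a : Ideal (𝓞 K) // Ideal.absNorm a = n} => tm h s c.1) _
    rw [h4]
    exact hasSum_fintype _

end H55N
end

-- from Lib.H55R.D5
section

open NumberField IsDedekindDomain

namespace H55R

open H55B H55N

section

variable {K L : Type} [Field K] [NumberField K] [Field L] [NumberField L] [Algebra K L]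
  [IsGalois K L]

theorem D5_norm (v : Pl K) (W : Pl L) (h : W.under (𝓞 K) = v) :
    Ideal.absNorm W.asIdeal = Ideal.absNorm v.asIdeal ^ fs K L v := by
  have hp := v.isPrime
  have hW := W.isPrime
  have hvm := v.isMaximal
  have hWm := W.isMaximal
  have hl : W.asIdeal.LiesOver v.asIdeal := (BF2_mem v W h).2
  have h1 := Ideal.absNorm_relNorm (𝓞 K) (𝓞 L) W.asIdeal
  rw [← h1, Ideal.relNorm_eq_pow_of_isMaximal W.asIdeal v.asIdeal, map_pow]
  congr 1
  exact (Ideal.inertiaDegIn_eq_inertiaDeg v.asIdeal W.asIdeal Gal(L/K)).symm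

/-- The primes above v. -/
noncomputable def D5_T (v : Pl K) : Finset (Pl L) := (above_finite (L := L) v).toFinset

omit [IsGalois K L] in
theorem D5_mem (v : Pl K) (W : Pl L) : W ∈ D5_T v ↔ W.under (𝓞 K) = v := by
  unfold D5_T
  rw [Set.Finite.mem_toFinset]
  exact Iff.rfl

theorem D5_card (v : Pl K) : (D5_T (L := L) v).card * (es K L v * fs K L v) = Module.finrank K L :=
  card_above v _ fun W => D5_mem v W

theorem D5_card_le (v : Pl K) : (D5_T (L := L) v).card ≤ Module.finrank K L := by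
  rw [← D5_card (L := L) v]
  exact Nat.le_mul_of_pos_right _ (Nat.mul_pos (es_pos v) (fs_pos v))

theorem D5_fibre (v : Pl K) (s : ℝ) :
    ∑ W ∈ D5_T (L := L) v, (Ideal.absNorm W.asIdeal : ℝ) ^ (-s) =
      (D5_T (L := L) v).card * (Ideal.absNorm v.asIdeal : ℝ) ^ (-(fs K L v * s)) := by
  rw [← nsmul_eq_mul, ← Finset.sum_const]
  refine Finset.sum_congr rfl fun W hW => ?_
  rw [D5_norm v W ((D5_mem v W).1 hW)]
  push_cast
  rw [← Real.rpow_natCast, ← Real.rpow_mul (Nat.cast_nonneg _)]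
  congr 1
  ring

end

/-- Chunk RD5 (M/L), primes of L and completely split primes of K. n = [L : K]. Sum over the primes W of L = sum over the v of the finite sums over the fibre {W : W.under = v}
(Equiv.sigmaFiberEquiv for W -> W.under (𝓞 K), Summable.tsum_sigma'; dd_summable for L). The fibre over v is in bijection with v.asIdeal.primesOver (𝓞 L), has
n / (e f) elements (Ideal.ncard_primesOver_mul_ramificationIdxIn_mul_inertiaDegIn), at most n, and absNorm W = (absNorm v)^f (Ideal.absNorm_eq_pow_inertiaDeg or the cardinality of the residue field: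
Ideal.absNorm_relNorm and Ideal.relNorm_eq_pow_of_isMaximal). If v splits (Spl: e = f = 1) the fibre sum is n * Nv^(-s). If f >= 2 it is between 0 and n * Nv^(-2s) <= n * Nv^(-2). If
f = 1 and e <> 1 it is between 0 and n, and these v form a finite set (ram_finite). So |sum over W - n * PS (Spl) s| <= n * (sum of Nv^(-2)) + n * #(ramified). -/
theorem split_cmp (K L : Type) [Field K] [NumberField K] [Field L] [NumberField L]
    [Algebra K L] [IsGalois K L] : ∃ C : ℝ, ∀ s ∈ Set.Ioc (1 : ℝ) 2,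
      |∑' W : Pl L, (Ideal.absNorm W.asIdeal : ℝ) ^ (-s) -
        Module.finrank K L * PS {v : Pl K | Spl K L v} s| ≤ C := by
  classical
  have hB1 : Summable fun v : Pl K => (Module.finrank K L : ℝ) * (Ideal.absNorm v.asIdeal : ℝ) ^ (-2 : ℝ) :=
    (dd_summable 2 (by norm_num)).mul_left _
  have hB2 : Summable fun v : Pl K => if es K L v ≠ 1 then (Module.finrank K L : ℝ) else 0 := by
    refine summable_of_finite_support ((ram_finite K L).subset ?_)
    intro v hv
    rw [Function.mem_support] at hv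
    by_contra hne
    exact hv (if_neg hne)
  have hB := hB1.add hB2
  refine ⟨∑' v : Pl K, ((Module.finrank K L : ℝ) * (Ideal.absNorm v.asIdeal : ℝ) ^ (-2 : ℝ) +
      if es K L v ≠ 1 then (Module.finrank K L : ℝ) else 0), fun s hs => ?_⟩
  obtain ⟨hs1, hs2⟩ := hs
  have hg : Summable fun W : Pl L => (Ideal.absNorm W.asIdeal : ℝ) ^ (-s) := dd_summable s hs1
  let E : (Σ v : Pl K, {W : Pl L // W.under (𝓞 K) = v}) ≃ Pl L :=
    Equiv.sigmaFiberEquiv fun W : Pl L => W.under (𝓞 K)
  have hgE : Summable fun p : (Σ v : Pl K, {W : Pl L // W.under (𝓞 K) = v}) =>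
      (Ideal.absNorm (E p).asIdeal : ℝ) ^ (-s) := (Equiv.summable_iff E).2 hg
  have hin : ∀ v : Pl K, ∑' W : {W : Pl L // W.under (𝓞 K) = v},
      (Ideal.absNorm (E ⟨v, W⟩).asIdeal : ℝ) ^ (-s) =
        ∑ W ∈ D5_T (L := L) v, (Ideal.absNorm W.asIdeal : ℝ) ^ (-s) := by
    intro v
    rw [← Finset.tsum_subtype (D5_T (L := L) v) fun W : Pl L => (Ideal.absNorm W.asIdeal : ℝ) ^ (-s)]
    let e : {W : Pl L // W.under (𝓞 K) = v} ≃ {W : Pl L // W ∈ D5_T (L := L) v} :=
      Equiv.subtypeEquivRight fun W => (D5_mem v W).symm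
    rw [← Equiv.tsum_eq e]
    rfl
  have hsum : ∑' W : Pl L, (Ideal.absNorm W.asIdeal : ℝ) ^ (-s) =
      ∑' v : Pl K, ∑ W ∈ D5_T (L := L) v, (Ideal.absNorm W.asIdeal : ℝ) ^ (-s) := by
    rw [← Equiv.tsum_eq E, hgE.tsum_sigma]
    exact tsum_congr hin
  have hF : Summable fun v : Pl K => ∑ W ∈ D5_T (L := L) v, (Ideal.absNorm W.asIdeal : ℝ) ^ (-s) :=
    hgE.sigma.congr hin
  have hP : Summable fun v : Pl K => (Module.finrank K L : ℝ) *
      {v : Pl K | Spl K L v}.indicator (fun v => (Ideal.absNorm v.asIdeal : ℝ) ^ (-s)) v :=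
    ((dd_summable s hs1).indicator _).mul_left _
  unfold PS
  rw [hsum, ← tsum_mul_left, ← hF.tsum_sub hP, ← Real.norm_eq_abs]
  refine tsum_of_norm_bounded hB.hasSum fun v => ?_
  rw [Real.norm_eq_abs, D5_fibre]
  have hN1 : (1 : ℝ) ≤ Ideal.absNorm v.asIdeal := by
    have := dd_two_le v
    exact_mod_cast (by omega : 1 ≤ Ideal.absNorm v.asIdeal)
  have hc : ((D5_T (L := L) v).card : ℝ) ≤ Module.finrank K L := by exact_mod_cast D5_card_le v
  have hn0 : (0 : ℝ) ≤ Module.finrank K L := Nat.cast_nonneg _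
  have hf1 := fs_pos (K := K) (L := L) v
  have h20 : 0 ≤ (Ideal.absNorm v.asIdeal : ℝ) ^ (-2 : ℝ) := by positivity
  have hite : (0 : ℝ) ≤ if es K L v ≠ 1 then (Module.finrank K L : ℝ) else 0 := by
    split_ifs
    · exact hn0
    · exact le_rfl
  by_cases hv : Spl K L v
  · have h1 : v ∈ {v : Pl K | Spl K L v} := hv
    rw [Set.indicator_of_mem h1]
    obtain ⟨h2, h3⟩ := hv
    have h4 := D5_card (L := L) v
    rw [h2, h3, mul_one, mul_one] at h4
    rw [h4, h3, Nat.cast_one, one_mul, sub_self, abs_zero]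
    positivity
  · have h1 : v ∉ {v : Pl K | Spl K L v} := hv
    rw [Set.indicator_of_notMem h1, mul_zero, sub_zero]
    have h5 : 0 ≤ (Ideal.absNorm v.asIdeal : ℝ) ^ (-(fs K L v * s)) := by positivity
    rw [abs_of_nonneg (mul_nonneg (Nat.cast_nonneg _) h5)]
    have hfs : (1 : ℝ) ≤ fs K L v := by exact_mod_cast hf1
    by_cases he : es K L v = 1
    · have hf2 : fs K L v ≠ 1 := fun h => hv ⟨he, h⟩
      have hf3 : (2 : ℝ) ≤ fs K L v := by exact_mod_cast (by omega : 2 ≤ fs K L v)
      have h6 : (Ideal.absNorm v.asIdeal : ℝ) ^ (-(fs K L v * s)) ≤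
          (Ideal.absNorm v.asIdeal : ℝ) ^ (-2 : ℝ) := by
        refine Real.rpow_le_rpow_of_exponent_le hN1 ?_
        nlinarith
      exact (mul_le_mul hc h6 h5 hn0).trans (le_add_of_nonneg_right hite)
    · rw [if_pos he]
      have h6 : (Ideal.absNorm v.asIdeal : ℝ) ^ (-(fs K L v * s)) ≤ 1 := by
        refine Real.rpow_le_one_of_one_le_of_nonpos hN1 ?_
        have : 0 ≤ (fs K L v : ℝ) * s := by positivity
        linarith
      have h7 := mul_le_mul hc h6 h5 hn0
      rw [mul_one] at h7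
      exact h7.trans (le_add_of_nonneg_left (by positivity))

end H55R
end
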