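import Mathlib
import Pool.Agent.Lib.H1M.PP2.M010
import Pool.Agent.Lib.H1M.PP2.M020
import Pool.Agent.Lib.H1M.PP2.M022
import Pool.Agent.Lib.H1M.PP2.M032
import Pool.Agent.Lib.H1M.PP2.M048

/-! Merged copies (to shorten the build) of Lib.H35P.A9, Lib.H35P.B2, Lib.H55K.M2A, Lib.H55K.M2B, Lib.H55N.D1, Lib.H55N.L1, Lib.H55N.L2, Lib.H55N.E9, Lib.H55P.B11, Lib.H55P.R1, Lib.H55P.R5, Lib.H55P.U3, Lib.H55P.U5. -/

-- from Lib.H35P.A9
section

namespace H35P

variable (L : PeriodPair)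

/-! Chunk A9 (M). sL_add: sL_lim at (a, w) and at (w, a), sL_neg (sL (w - a) = -sL (a - w)): the sum of both is
2 sL(a+w) - 2 sL(a) - 2 sL(w) → T2 L a w + T2 L w a = (℘'a - ℘'w)/(℘a - ℘w) by T_formula and wp_ne.
sL_dbl: for w near 0, w ≠ 0: 2a = (a+w) + (a-w), so by sL_add and sL_lim
sL(2a) - 2 sL(a) → f(w) = mc L (a+w) (a-w) / 2 + ℘'a/(℘a - ℘w). The limit does not depend on w, so f is constant near 0 (fix w₀, tendsto_nhds_unique).
Now let w → 0: (℘'(a+w) - ℘'(a-w))/(2w) → 6℘a^2 - g₂/2, (℘(a+w) - ℘(a-w))/(2w) → ℘'a ≠ 0 (wpd_ne), and ℘'a/(℘a - ℘w) → 0 (wp_inv_tendsto). -/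

theorem sL_add (a w : ℂ) (ha : a ∉ L.lattice) (hw : w ∉ L.lattice) (h1 : a + w ∉ L.lattice)
    (h2 : a - w ∉ L.lattice) :
    Filter.Tendsto (fun R : ℝ => sL L R (a + w) - sL L R a - sL L R w) Filter.atTop (nhds (mc L a w / 2)) := by
  have h1' : w + a ∉ L.lattice := by rwa [add_comm]
  have h2' : w - a ∉ L.lattice := by
    intro h
    apply h2
    rw [← neg_sub]
    exact neg_mem h
  have hne := wp_ne L a w ha hw h1 h2
  have f1 := T_formula L a w ha hw h1 h2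
  have f2 := T_formula L w a hw ha h1' h2'
  have t1 := (sL_lim L a w).add (sL_lim L w a)
  have e : T2 L a w + T2 L w a = mc L a w := by
    have hd : L.weierstrassP a - L.weierstrassP w ≠ 0 := sub_ne_zero.2 hne
    rw [mc, eq_div_iff hd]
    linear_combination f1 - f2
  rw [e] at t1
  have t2 := t1.div_const 2
  refine t2.congr fun R => ?_
  have hs : sL L R (w - a) = -sL L R (a - w) := by rw [← sL_neg, neg_sub]
  rw [hs, add_comm w a]
  ring

/-- The reciprocal of the difference of the values tends to zero at the origin. -/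
theorem a9_inv (c : ℂ) : Filter.Tendsto (fun w => (c - L.weierstrassP w)⁻¹) (nhdsWithin (0 : ℂ) {0}ᶜ)
    (nhds 0) := by
  obtain ⟨u, hu, -, hu2⟩ := wp_zero L
  have hc : ContinuousAt (fun w : ℂ => w ^ 2 / (w ^ 2 * (c - u w) - 1)) 0 := by
    refine ContinuousAt.div (by fun_prop) ?_ (by simp)
    have := hu.continuousAt
    fun_prop
  have h0 : Filter.Tendsto (fun w : ℂ => w ^ 2 / (w ^ 2 * (c - u w) - 1)) (nhdsWithin (0 : ℂ) {0}ᶜ)
      (nhds 0) := by
    have := hc.tendsto.mono_left (nhdsWithin_le_nhds (s := ({0}ᶜ : Set ℂ)))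
    simpa using this
  refine h0.congr' ?_
  filter_upwards [self_mem_nhdsWithin] with w hw
  have hw0 : w ≠ 0 := hw
  rw [hu2 w hw0]
  have e : c - ((w ^ 2)⁻¹ + u w) = (w ^ 2 * (c - u w) - 1) / w ^ 2 := by
    field_simp
    ring
  rw [e, inv_div]

theorem a9_diff (f : ℂ → ℂ) (a f' : ℂ) (hf : HasDerivAt f f' a) :
    Filter.Tendsto (fun w => (f (a + w) - f (a - w)) / w) (nhdsWithin (0 : ℂ) {0}ᶜ) (nhds (2 * f')) := by
  have h1 : HasDerivAt (fun w : ℂ => f (a + w)) f' 0 :=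
    HasDerivAt.comp_const_add a 0 (by rwa [add_zero])
  have h2 : HasDerivAt (fun w : ℂ => f (a - w)) (-f') 0 :=
    HasDerivAt.comp_const_sub a 0 (by rwa [sub_zero])
  have h3 := hasDerivAt_iff_tendsto_slope.1 (h1.fun_sub h2)
  have e : f' - -f' = 2 * f' := by ring
  rw [e] at h3
  refine h3.congr' ?_
  filter_upwards [self_mem_nhdsWithin] with w hw
  rw [slope_def_field]
  simp

/-- The conditions near the origin. -/
theorem a9_ev (a : ℂ) (ha : a ∉ L.lattice) :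
    ∀ᶠ w in nhdsWithin (0 : ℂ) {0}ᶜ, w ∉ L.lattice ∧ a + w ∉ L.lattice ∧ a - w ∉ L.lattice ∧
      2 * w ∉ L.lattice := by
  have h1 : ∀ᶠ w in nhdsWithin (0 : ℂ) {0}ᶜ, w ∉ L.lattice := ev_compl L 0
  have h2 : ∀ᶠ w in nhdsWithin (0 : ℂ) {0}ᶜ, a + w ∉ L.lattice := by
    have hc : ContinuousAt (fun w : ℂ => a + w) 0 := by fun_prop
    have := hc.eventually_mem ((compl_open L).mem_nhds (show a + 0 ∈ _ by
      change a + 0 ∉ L.lattice
      rwa [add_zero]))
    exact this.filter_mono nhdsWithin_le_nhds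
  have h3 : ∀ᶠ w in nhdsWithin (0 : ℂ) {0}ᶜ, a - w ∉ L.lattice := by
    have hc : ContinuousAt (fun w : ℂ => a - w) 0 := by fun_prop
    have := hc.eventually_mem ((compl_open L).mem_nhds (show a - 0 ∈ _ by
      change a - 0 ∉ L.lattice
      rwa [sub_zero]))
    exact this.filter_mono nhdsWithin_le_nhds
  have h4 : ∀ᶠ w in nhdsWithin (0 : ℂ) {0}ᶜ, 2 * w ∉ L.lattice := by
    have ht := tendsto_punct (fun w : ℂ => 2 * w) 0 (by fun_prop) (fun x y h => by
      simpa using h)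
    exact ht.eventually (ev_compl L (2 * 0))
  filter_upwards [h1, h2, h3, h4] with w q1 q2 q3 q4
  exact ⟨q1, q2, q3, q4⟩

theorem sL_dbl (a : ℂ) (ha : a ∉ L.lattice) (h2 : 2 * a ∉ L.lattice) :
    Filter.Tendsto (fun R : ℝ => sL L R (2 * a) - sL L R a - sL L R a) Filter.atTop (nhds (md L a / 2)) := by
  -- the limit for every small w
  have key : ∀ w : ℂ, w ∉ L.lattice → a + w ∉ L.lattice → a - w ∉ L.lattice → 2 * w ∉ L.lattice →
      Filter.Tendsto (fun R : ℝ => sL L R (2 * a) - sL L R a - sL L R a) Filter.atTop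
        (nhds (mc L (a + w) (a - w) / 2 + L.derivWeierstrassP a * (L.weierstrassP a - L.weierstrassP w)⁻¹)) := by
    intro w hw h3 h4 h5
    have e1 : a + w + (a - w) = 2 * a := by ring
    have e2 : a + w - (a - w) = 2 * w := by ring
    have t1 := sL_add L (a + w) (a - w) h3 h4 (by rwa [e1]) (by rwa [e2])
    rw [e1] at t1
    have hne := wp_ne L a w ha hw h3 h4
    have hd : L.weierstrassP a - L.weierstrassP w ≠ 0 := sub_ne_zero.2 hne
    have t2 := sL_lim L a w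
    have e3 : T2 L a w = L.derivWeierstrassP a * (L.weierstrassP a - L.weierstrassP w)⁻¹ := by
      rw [← div_eq_mul_inv, eq_div_iff hd]
      exact T_formula L a w ha hw h3 h4
    rw [e3] at t2
    refine (t1.add t2).congr fun R => ?_
    ring
  obtain ⟨w₀, hw₀⟩ := (a9_ev L a ha).exists
  have k0 := key w₀ hw₀.1 hw₀.2.1 hw₀.2.2.1 hw₀.2.2.2
  -- the limit of the right side
  have l1 := a9_diff L.derivWeierstrassP a _ (wpd_hasDeriv L a ha)
  have l2 := a9_diff L.weierstrassP a _ (wp_hasDeriv L a ha)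
  have hd : (2 : ℂ) * L.derivWeierstrassP a ≠ 0 := mul_ne_zero two_ne_zero (wpd_ne L a ha h2)
  have l3 := ((l1.div l2 hd).div_const 2).add ((a9_inv L (L.weierstrassP a)).const_mul (L.derivWeierstrassP a))
  have e4 : 2 * (6 * L.weierstrassP a ^ 2 - L.g₂ / 2) / (2 * L.derivWeierstrassP a) / 2 +
      L.derivWeierstrassP a * 0 = md L a / 2 := by
    rw [mul_zero, add_zero, mul_div_mul_left _ _ two_ne_zero, md]
  rw [e4] at l3
  have e5 : md L a / 2 = mc L (a + w₀) (a - w₀) / 2 +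
      L.derivWeierstrassP a * (L.weierstrassP a - L.weierstrassP w₀)⁻¹ := by
    refine tendsto_nhds_unique_of_eventuallyEq l3 tendsto_const_nhds ?_
    filter_upwards [a9_ev L a ha, self_mem_nhdsWithin] with w hw hw0
    have hw0' : w ≠ 0 := hw0
    rw [tendsto_nhds_unique k0 (key w hw.1 hw.2.1 hw.2.2.1 hw.2.2.2), mc]
    simp only [Pi.div_apply]
    rw [div_div_div_cancel_right₀ hw0']
  rw [e5]
  exact k0

end H35P
end

-- from Lib.H35P.B2
section

open WeierstrassCurve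

namespace H35P

variable (L : PeriodPair)

/-! Chunk B2 (M). Let r₀ = the least n > 0 with n z in the lattice (Nat.find); r₀ divides r, r₀ ≥ 2, and k z ∈ L iff r₀ ∣ k. r₀ = 2: sL R z = 0 for all R (sL_neg, sL_per), S = 0.
r₀ ≥ 3: for 1 ≤ k ≤ r₀ - 2 put l_k = md z (k = 1), mc (k z) z (k ≥ 2): sL((k+1)z) - sL(kz) - sL(z) → l_k/2 (sL_dbl, sL_add: k z - z, k z + z ∉ L). Summing over k and sL((r₀-1)z) = sL(-z + r₀ z) =
-sL(z): -r₀ sL(z) → Σ l_k/2, so S = -(Σ l_k/2)/r₀.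
Integrality: the discriminant is ≠ 0, pt_exists, n = r: r • pt(k z) = pt(k (r z)) = 0; slope_int for the points pt(k z), pt(z) (V.valuation r = 1) gives
V(l_k/2/Om) ≤ 1 by slope_chord (wp_ne), slope_tangent (wpd_ne); V(r₀) = 1 because V(r) = V(r₀) V(r/r₀) and both are ≤ 1 (naturals lie in V).
GoodW (WAB A B) V: Δ = -16(4A^3+27B^2), V(2) = 1. The condition ¬(x₁ = x₂ ∧ y₁ = negY x₂ y₂): it would give pt(k z) + pt(z) = 0 = pt((k+1)z), but (k+1) z ∉ L and pt is then affine. -/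

theorem B2_good {A B : ℂ} {V : ValuationSubring ℂ} (hA : A ∈ V) (hB : B ∈ V) (h2 : V.valuation 2 = 1)
    (hD : V.valuation (4 * A ^ 3 + 27 * B ^ 2) = 1) : GoodW (WAB A B) V where
  a1 := V.zero_mem
  a2 := V.zero_mem
  a3 := V.zero_mem
  a4 := hA
  a6 := hB
  disc := by
    have e : (WAB A B).Δ = -(2 ^ 4 * (4 * A ^ 3 + 27 * B ^ 2)) := by
      unfold WAB WeierstrassCurve.Δ WeierstrassCurve.b₂ WeierstrassCurve.b₄ WeierstrassCurve.b₆
        WeierstrassCurve.b₈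
      ring
    rw [e, Valuation.map_neg, map_mul, map_pow, h2, hD, one_pow, one_mul]

/-- The condition on the valuation ring. -/
def B2_G (A B : ℂ) (r : ℕ) (V : ValuationSubring ℂ) : Prop :=
  A ∈ V ∧ B ∈ V ∧ V.valuation 2 = 1 ∧ V.valuation (4 * A ^ 3 + 27 * B ^ 2) = 1 ∧ V.valuation (r : ℂ) = 1

variable {L}

theorem B2_tors {A B : ℂ} (pt : ℂ →+ (WAB A B).toAffine.Point) (h0 : ∀ z ∈ L.lattice, pt z = 0)
    (r k : ℕ) (z : ℂ) (hrz : (r : ℂ) * z ∈ L.lattice) : r • pt ((k : ℂ) * z) = 0 := by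
  rw [← map_nsmul]
  apply h0
  have e : r • ((k : ℂ) * z) = k • ((r : ℂ) * z) := by
    rw [nsmul_eq_mul, nsmul_eq_mul]
    ring
  rw [e]
  exact nsmul_mem hrz k

/-- One step. -/
theorem B2_step (A B Om : ℂ) (hO : Om ≠ 0) (g2 : L.g₂ = -4 * A * Om ^ 4) (g3 : L.g₃ = -4 * B * Om ^ 6) (z : ℂ)
    (r : ℕ) (hrz : (r : ℂ) * z ∈ L.lattice) (r₀ : ℕ)
    (hmin : ∀ m : ℕ, 0 < m → m < r₀ → (m : ℂ) * z ∉ L.lattice) (k : ℕ) (hk : 0 < k) (hk1 : k + 1 < r₀) :
    ∃ l : ℂ, Filter.Tendsto (fun R : ℝ => sL L R (((k + 1 : ℕ) : ℂ) * z) - sL L R ((k : ℂ) * z) - sL L R z)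
      Filter.atTop (nhds l) ∧ ∀ V : ValuationSubring ℂ, B2_G A B r V → V.valuation (l / Om) ≤ 1 := by
  have hz : z ∉ L.lattice := by
    have := hmin 1 one_pos (by omega)
    rwa [Nat.cast_one, one_mul] at this
  have hkz := hmin k hk (by omega)
  have hk1z := hmin (k + 1) (by omega) hk1
  rcases Nat.lt_or_ge k 2 with h | h
  · have hk' : k = 1 := by omega
    subst hk'
    have e2 : ((1 + 1 : ℕ) : ℂ) * z = 2 * z := by norm_num
    rw [e2] at hk1z
    refine ⟨md L z / 2, ?_, ?_⟩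
    · have := sL_dbl L z hz hk1z
      rw [e2, Nat.cast_one, one_mul]
      exact this
    · rintro V ⟨hA, hB, hV2, hD, hr⟩
      have hd : 4 * A ^ 3 + 27 * B ^ 2 ≠ 0 := by
        intro h0
        rw [h0, map_zero] at hD
        exact zero_ne_one hD
      obtain ⟨pt, hp0, hp1⟩ := pt_exists L A B Om hO g2 g3 hd
      obtain ⟨hns, hns'⟩ := hp1 z hz
      have hy := wpd_ne L z hz hk1z
      rw [← slope_tangent L A B Om hO g2 z hy]
      have ht : r • pt z = 0 := by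
        have := B2_tors (L := L) pt hp0 r 1 z hrz
        rwa [Nat.cast_one, one_mul] at this
      rw [hns'] at ht
      refine slope_int (B2_good hA hB hV2 hD) hns hns r hr ht ht ?_
      rintro ⟨_, h3⟩
      apply hy
      unfold Affine.negY at h3
      have e3 : (WAB A B).toAffine.a₁ = 0 := rfl
      have e4 : (WAB A B).toAffine.a₃ = 0 := rfl
      rw [e3, e4] at h3
      have h4 : L.derivWeierstrassP z / (2 * Om ^ 3) = 0 := by linear_combination h3 / 2
      rcases div_eq_zero_iff.1 h4 with h5 | h5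
      · exact h5
      · exact absurd h5 (mul_ne_zero two_ne_zero (pow_ne_zero _ hO))
  · have e1 : ((k + 1 : ℕ) : ℂ) * z = (k : ℂ) * z + z := by push_cast; ring
    have e2 : ((k - 1 : ℕ) : ℂ) * z = (k : ℂ) * z - z := by
      rw [Nat.cast_sub (by omega)]
      push_cast
      ring
    have hm := hmin (k - 1) (by omega) (by omega)
    rw [e2] at hm
    rw [e1] at hk1z ⊢
    have hx := wp_ne L ((k : ℂ) * z) z hkz hz hk1z hm
    refine ⟨mc L ((k : ℂ) * z) z / 2, sL_add L _ _ hkz hz hk1z hm, ?_⟩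
    rintro V ⟨hA, hB, hV2, hD, hr⟩
    have hd : 4 * A ^ 3 + 27 * B ^ 2 ≠ 0 := by
      intro h0
      rw [h0, map_zero] at hD
      exact zero_ne_one hD
    obtain ⟨pt, hp0, hp1⟩ := pt_exists L A B Om hO g2 g3 hd
    obtain ⟨hns, hns'⟩ := hp1 z hz
    obtain ⟨hnk, hnk'⟩ := hp1 _ hkz
    rw [← slope_chord L A B Om hO _ _ hx]
    have ht : r • pt z = 0 := by
      have := B2_tors (L := L) pt hp0 r 1 z hrz
      rwa [Nat.cast_one, one_mul] at this
    have ht' := B2_tors (L := L) pt hp0 r k z hrz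
    rw [hns'] at ht
    rw [hnk'] at ht'
    refine slope_int (B2_good hA hB hV2 hD) hnk hns r hr ht' ht ?_
    rintro ⟨h3, _⟩
    exact hx ((div_left_inj' (pow_ne_zero 2 hO)).1 h3)

theorem B2_ind (A B Om : ℂ) (hO : Om ≠ 0) (g2 : L.g₂ = -4 * A * Om ^ 4) (g3 : L.g₃ = -4 * B * Om ^ 6) (z : ℂ)
    (r : ℕ) (hrz : (r : ℂ) * z ∈ L.lattice) (r₀ : ℕ)
    (hmin : ∀ m : ℕ, 0 < m → m < r₀ → (m : ℂ) * z ∉ L.lattice) (m : ℕ) (hm : m + 1 < r₀) :
    ∃ T : ℂ, Filter.Tendsto (fun R : ℝ => sL L R (((m + 1 : ℕ) : ℂ) * z) - ((m + 1 : ℕ) : ℂ) * sL L R z)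
      Filter.atTop (nhds T) ∧ ∀ V : ValuationSubring ℂ, B2_G A B r V → V.valuation (T / Om) ≤ 1 := by
  induction m with
  | zero =>
    refine ⟨0, ?_, fun V _ => by rw [zero_div, map_zero]; exact zero_le_one⟩
    refine tendsto_const_nhds.congr fun R => ?_
    norm_num
  | succ m ih =>
    obtain ⟨T, hT, hV⟩ := ih (by omega)
    obtain ⟨l, hl, hV'⟩ := B2_step A B Om hO g2 g3 z r hrz r₀ hmin (m + 1) (by omega) hm
    refine ⟨l + T, (hl.add hT).congr fun R => ?_, fun V hG => ?_⟩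
    · push_cast
      ring
    · rw [add_div]
      exact V.valuation.map_add_le (hV' V hG) (hV V hG)

theorem B2_nat (V : ValuationSubring ℂ) (n : ℕ) : V.valuation (n : ℂ) ≤ 1 :=
  (V.valuation_le_one_iff _).2 (natCast_mem V n)

theorem B2_dvd {V : ValuationSubring ℂ} {r r₀ : ℕ} (h : r₀ ∣ r) (hr : V.valuation (r : ℂ) = 1) :
    V.valuation (r₀ : ℂ) = 1 := by
  obtain ⟨c, rfl⟩ := h
  rw [Nat.cast_mul, map_mul] at hr
  refine le_antisymm (B2_nat V r₀) ?_
  rw [← hr]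
  exact mul_le_of_le_one_right' (B2_nat V c)

variable (L)

theorem sL_exists (A B Om : ℂ) (hO : Om ≠ 0) (g2 : L.g₂ = -4 * A * Om ^ 4) (g3 : L.g₃ = -4 * B * Om ^ 6) (z : ℂ)
    (r : ℕ) (hr : 0 < r) (hz : z ∉ L.lattice) (hrz : (r : ℂ) * z ∈ L.lattice) :
    ∃ S : ℂ, Filter.Tendsto (fun R : ℝ => sL L R z) Filter.atTop (nhds S) ∧
      ∀ V : ValuationSubring ℂ, A ∈ V → B ∈ V → V.valuation 2 = 1 → V.valuation (4 * A ^ 3 + 27 * B ^ 2) = 1 →
        V.valuation (r : ℂ) = 1 → V.valuation (S / Om) ≤ 1 := by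
  classical
  have hex : ∃ n : ℕ, 0 < n ∧ (n : ℂ) * z ∈ L.lattice := ⟨r, hr, hrz⟩
  obtain ⟨r₀, hr₀, hr₀z, hmin⟩ : ∃ r₀ : ℕ, 0 < r₀ ∧ (r₀ : ℂ) * z ∈ L.lattice ∧
      ∀ m : ℕ, 0 < m → m < r₀ → (m : ℂ) * z ∉ L.lattice :=
    ⟨Nat.find hex, (Nat.find_spec hex).1, (Nat.find_spec hex).2, fun m h1 h2 h3 => Nat.find_min hex h2 ⟨h1, h3⟩⟩
  have h2 : 2 ≤ r₀ := by
    by_contra hc
    have : r₀ = 1 := by omega
    subst this
    rw [Nat.cast_one, one_mul] at hr₀z
    exact hz hr₀z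
  have hdvd : r₀ ∣ r := by
    rw [Nat.dvd_iff_mod_eq_zero]
    by_contra hc
    apply hmin (r % r₀) (Nat.pos_of_ne_zero hc) (Nat.mod_lt _ hr₀)
    have e : ((r % r₀ : ℕ) : ℂ) * z = (r : ℂ) * z - (r / r₀ : ℕ) • ((r₀ : ℂ) * z) := by
      have h3 : ((r : ℕ) : ℂ) = ((r % r₀ : ℕ) : ℂ) + (r₀ : ℂ) * ((r / r₀ : ℕ) : ℂ) := by
        exact_mod_cast (Nat.mod_add_div r r₀).symm
      rw [nsmul_eq_mul, h3]
      ring
    rw [e]
    exact sub_mem hrz (nsmul_mem hr₀z _)
  obtain ⟨T, hT, hV⟩ := B2_ind A B Om hO g2 g3 z r hrz r₀ hmin (r₀ - 2) (by omega)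
  have e1 : r₀ - 2 + 1 = r₀ - 1 := by omega
  rw [e1] at hT
  have hr0 : (r₀ : ℂ) ≠ 0 := by exact_mod_cast hr₀.ne'
  have e2 : ∀ R : ℝ, sL L R (((r₀ - 1 : ℕ) : ℂ) * z) = -sL L R z := by
    intro R
    have e3 : ((r₀ - 1 : ℕ) : ℂ) * z = -z + (r₀ : ℂ) * z := by
      rw [Nat.cast_sub (by omega)]
      push_cast
      ring
    rw [e3, sL_per L R (-z) _ hr₀z, sL_neg]
  refine ⟨-(r₀ : ℂ)⁻¹ * T, ?_, ?_⟩
  · refine (hT.const_mul (-(r₀ : ℂ)⁻¹)).congr fun R => ?_
    rw [e2 R, Nat.cast_sub (by omega)]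
    push_cast
    field_simp
    ring
  · intro V hA hB hV2 hD hrV
    have h5 := hV V ⟨hA, hB, hV2, hD, hrV⟩
    have e4 : -(r₀ : ℂ)⁻¹ * T / Om = -((r₀ : ℂ)⁻¹ * (T / Om)) := by ring
    rw [e4, Valuation.map_neg, map_mul, map_inv₀, B2_dvd hdvd hrV, inv_one, one_mul]
    exact h5

end H35P
end

-- from Lib.H55K.M2A
section

open NumberField WeierstrassCurve

namespace H55K.MG

open H35P (WAB Ker GoodW IntW)

variable {Ω : Type} [Field Ω] [IsAlgClosed Ω] {V : ValuationSubring Ω}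

open Polynomial in
theorem m2a_root (c : Ω) : ∃ x : Ω, (x ^ 2 - x + 1) ^ 3 = c * (x ^ 2 * (x - 1) ^ 2) := by
  obtain ⟨p, hp⟩ : ∃ p : Polynomial Ω, p = X ^ 6 + C (-3) * X ^ 5 + C (6 - c) * X ^ 4 + C (2 * c - 7) * X ^ 3 +
      C (6 - c) * X ^ 2 + C (-3) * X + 1 := ⟨_, rfl⟩
  have hd : p.natDegree = 6 := by
    rw [hp]
    compute_degree!
  obtain ⟨x, hx⟩ := IsAlgClosed.exists_root p (by
    intro h
    have := natDegree_eq_of_degree_eq_some h
    rw [hd] at this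
    exact absurd this (by norm_num))
  refine ⟨x, ?_⟩
  rw [IsRoot.def, hp] at hx
  simp only [eval_add, eval_mul, eval_pow, eval_X, eval_C, eval_one] at hx
  linear_combination hx

/-! Chunk M2A (M), Legendre form. λ a root of the polynomial (X^2 - X + 1)^3 - (jj/256) X^2 (X - 1)^2, monic of degree 6 with coefficients in V (V(256) = V(2)^8 = 1), so λ in V (if V(λ) > 1 then the term λ^6 dominates: or Valuation /
IsIntegrallyClosed of a valuation ring; directly: λ^6 = -(sum of c_i λ^i, i < 6) with c_i in V, V(λ)^6 ≤ V(λ)^5). If V(λ) < 1 or V(λ - 1) < 1 then V((λ^2-λ+1)^3) = 1 (λ^2 - λ + 1 = 1 + λ(λ-1)) but the right side has value < 1: contradiction.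
W' = ⟨0, -(1+λ), 0, λ, 0⟩: Δ = 16 λ^2 (λ-1)^2, c4 = 16 (λ^2 - λ + 1), c4^3 = 4096 (λ^2-λ+1)^3 = 16 jj λ^2(λ-1)^2 = jj Δ (ring identities after unfolding Δ, b2, .., c4). -/

theorem legendre (h2 : V.valuation (2 : Ω) = 1) {jj : Ω} (hj : jj ∈ V) :
    ∃ W' : WeierstrassCurve Ω, GoodW W' V ∧ W'.c₄ ^ 3 = jj * W'.Δ ∧ W'.a₁ = 0 ∧ W'.a₃ = 0 := by
  have h20 : (2 : Ω) ≠ 0 := by
    intro h
    rw [h, map_zero] at h2
    exact zero_ne_one h2
  obtain ⟨c, hc⟩ : ∃ c, c = jj / 256 := ⟨_, rfl⟩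
  have h256 : (256 : Ω) ≠ 0 := by
    have : (256 : Ω) = 2 ^ 8 := by norm_num
    rw [this]
    exact pow_ne_zero _ h20
  have hcj : jj = 256 * c := by
    rw [hc]
    field_simp
  have hcV : V.valuation c ≤ 1 := by
    have h1 : V.valuation jj ≤ 1 := (V.valuation_le_one_iff _).2 hj
    have h3 : (256 : Ω) = 2 ^ 8 := by norm_num
    rw [hcj, map_mul, h3, map_pow, h2, one_pow, one_mul] at h1
    exact h1
  obtain ⟨lam, hl⟩ := m2a_root c
  have hmul : ∀ x y : Ω, V.valuation x ≤ 1 → V.valuation y < 1 → V.valuation (x * y) < 1 := by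
    intro x y hx hy
    rw [map_mul]
    exact lt_of_le_of_lt (mul_le_of_le_one_left' hx) hy
  have hcont : ∀ x y z : Ω, V.valuation x < 1 → V.valuation y ≤ 1 → V.valuation z ≤ 1 →
      (1 + x) ^ 3 = c * y * (z * x) → False := by
    intro x y z hx hy hz h
    have e1 : V.valuation ((1 + x) ^ 3) = 1 := by
      rw [map_pow, Valuation.map_one_add_of_lt _ hx, one_pow]
    have e2 : V.valuation (c * y * (z * x)) < 1 := by
      refine hmul _ _ ?_ (hmul _ _ hz hx)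
      rw [map_mul]
      exact mul_le_one' hcV hy
    rw [← h, e1] at e2
    exact lt_irrefl _ e2
  have hlV : V.valuation lam ≤ 1 := by
    by_contra hcon
    rw [not_le] at hcon
    have hl0 : lam ≠ 0 := by
      rintro rfl
      rw [map_zero] at hcon
      exact not_lt.2 zero_le hcon
    have hm : V.valuation lam⁻¹ < 1 := by
      rw [map_inv₀]
      exact inv_lt_one_of_one_lt₀ hcon
    have hm1 : V.valuation (lam⁻¹ - 1) ≤ 1 := by
      refine (V.valuation.map_sub _ _).trans (max_le hm.le ?_)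
      rw [map_one]
    have hx : V.valuation (lam⁻¹ * (lam⁻¹ - 1)) < 1 := by
      rw [mul_comm]
      exact hmul _ _ hm1 hm
    refine hcont (lam⁻¹ * (lam⁻¹ - 1)) (lam⁻¹ * (lam⁻¹ - 1)) 1 hx hx.le (by rw [map_one]) ?_
    field_simp
    linear_combination hl
  have hl1V : V.valuation (lam - 1) ≤ 1 := by
    refine (V.valuation.map_sub _ _).trans (max_le hlV ?_)
    rw [map_one]
  have hprod : ¬ V.valuation (lam * (lam - 1)) < 1 := by
    intro hx
    refine hcont (lam * (lam - 1)) (lam * (lam - 1)) 1 hx hx.le (by rw [map_one]) ?_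
    linear_combination hl
  have hl1 : V.valuation lam = 1 := by
    refine le_antisymm hlV (not_lt.1 fun h => hprod ?_)
    rw [mul_comm]
    exact hmul _ _ hl1V h
  have hl2 : V.valuation (lam - 1) = 1 := by
    refine le_antisymm hl1V (not_lt.1 fun h => hprod ?_)
    exact hmul _ _ hlV h
  have hmem : lam ∈ V := (V.valuation_le_one_iff _).1 hlV
  have hΔ : (⟨0, -(1 + lam), 0, lam, 0⟩ : WeierstrassCurve Ω).Δ = 2 ^ 4 * lam ^ 2 * (lam - 1) ^ 2 := by
    simp only [WeierstrassCurve.Δ, WeierstrassCurve.b₂, WeierstrassCurve.b₄, WeierstrassCurve.b₆, WeierstrassCurve.b₈]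
    ring
  refine ⟨⟨0, -(1 + lam), 0, lam, 0⟩, ⟨⟨V.zero_mem, V.neg_mem _ (V.add_mem _ _ V.one_mem hmem), V.zero_mem, hmem,
    V.zero_mem⟩, ?_⟩, ?_, rfl, rfl⟩
  · rw [hΔ, map_mul, map_mul, map_pow, map_pow, map_pow, h2, hl1, hl2]
    simp
  · rw [hΔ, hcj]
    simp only [WeierstrassCurve.c₄, WeierstrassCurve.b₂, WeierstrassCurve.b₄]
    linear_combination 4096 * hl

end H55K.MG
end

-- from Lib.H55K.M2B
section

open NumberField WeierstrassCurve

namespace H55K.MG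

open H35P (WAB Ker GoodW IntW)

variable {Ω : Type} [Field Ω] [IsAlgClosed Ω] {V : ValuationSubring Ω}

/-! Chunk M2B (M), Deuring form. V(2) < 1, so V(3) = V(1 + 2) = 1. w a root of X (X - 24)^3 - jj (X - 27), monic of degree 4 with coefficients in V, so w in V (w^4 = -(sum of c_i w^i), V(w) > 1 impossible). If V(w - 27) < 1 then
V(w) = V(27) = 1, V(w - 24) = V(3 + (w - 27)) = 1, so V(w (w-24)^3) = 1 but V(jj (w - 27)) < 1: contradiction. So V(w - 27) = 1. α with α^3 = w (IsAlgClosed.exists_pow_nat_eq), α in V. W' = ⟨α, 0, 1, 0, 0⟩ (a1 = α, a2 = 0, a3 = 1, a4 = 0,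
a6 = 0): Δ = α^3 - 27, c4 = α (α^3 - 24), c4^3 = w (w - 24)^3 = jj Δ (ring after unfolding). -/

open Polynomial in
omit [IsAlgClosed Ω] in
theorem m2b_deg (jj : Ω) :
    (X * (X - C 24) ^ 3 - C jj * (X - C 27) : Polynomial Ω).natDegree = 4 := by
  have e : (X * (X - C 24) ^ 3 - C jj * (X - C 27) : Polynomial Ω) =
      X ^ 4 + (C (-72) * X ^ 3 + C 1728 * X ^ 2 + C (-13824 - jj) * X + C (27 * jj)) := by
    simp only [map_sub, map_neg, map_mul, map_ofNat]
    ring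
  rw [e]
  compute_degree!

omit [IsAlgClosed Ω] in
theorem m2b_w (h2 : V.valuation (2 : Ω) < 1) {jj w : Ω} (hj : jj ∈ V)
    (hw : w * (w - 24) ^ 3 = jj * (w - 27)) : V.valuation w ≤ 1 ∧ V.valuation (w - 27) = 1 := by
  have hnat : ∀ n : ℕ, V.valuation (n : Ω) ≤ 1 := by
    intro n
    rw [V.valuation_le_one_iff]
    exact natCast_mem V n
  have h24 : V.valuation (24 : Ω) ≤ 1 := by exact_mod_cast hnat 24
  have h27 : V.valuation (27 : Ω) ≤ 1 := by exact_mod_cast hnat 27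
  have hjj : V.valuation jj ≤ 1 := (V.valuation_le_one_iff _).2 hj
  have h3 : V.valuation (3 : Ω) = 1 := by
    have e : (3 : Ω) = 1 + 2 := by norm_num
    rw [e, Valuation.map_add_eq_of_lt_left _ (by rwa [map_one]), map_one]
  have h1 : V.valuation w ≤ 1 := by
    by_contra hcon
    rw [not_le] at hcon
    have e1 : V.valuation (w - 24) = V.valuation w :=
      Valuation.map_sub_eq_of_lt_left _ (h24.trans_lt hcon)
    have e2 : V.valuation (w - 27) = V.valuation w :=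
      Valuation.map_sub_eq_of_lt_left _ (h27.trans_lt hcon)
    have e3 := congrArg V.valuation hw
    rw [map_mul, map_pow, map_mul, e1, e2] at e3
    have h0 : 0 < V.valuation w := zero_lt_one.trans hcon
    have e4 : V.valuation w * V.valuation w ^ 3 ≤ V.valuation w := by
      rw [e3]
      exact mul_le_of_le_one_left' hjj
    have e5 : V.valuation w < V.valuation w * V.valuation w ^ 3 :=
      lt_mul_of_one_lt_right h0 (one_lt_pow₀ hcon (by norm_num))
    exact absurd e4 (not_le.2 e5)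
  refine ⟨h1, ?_⟩
  have h4 : V.valuation (w - 27) ≤ 1 := V.valuation.map_sub_le h1 h27
  refine le_antisymm h4 (not_lt.1 fun hlt => ?_)
  have e27 : V.valuation (27 : Ω) = 1 := by
    have e : (27 : Ω) = 3 * 3 * 3 := by norm_num
    rw [e]
    simp only [map_mul, h3, one_mul]
  have ew : V.valuation w = 1 := by
    have e : w = 27 + (w - 27) := by ring
    rw [e, Valuation.map_add_eq_of_lt_left _ (by rwa [e27]), e27]
  have ew24 : V.valuation (w - 24) = 1 := by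
    have e : w - 24 = 3 + (w - 27) := by ring
    rw [e, Valuation.map_add_eq_of_lt_left _ (by rwa [h3]), h3]
  have e3 := congrArg V.valuation hw
  rw [map_mul, map_pow, map_mul, ew, ew24, one_pow, one_mul] at e3
  have e4 : V.valuation jj * V.valuation (w - 27) < 1 :=
    mul_lt_one_of_nonneg_of_lt_one_right hjj zero_le hlt
  rw [← e3] at e4
  exact lt_irrefl _ e4

theorem deuring (h2 : V.valuation (2 : Ω) < 1) {jj : Ω} (hj : jj ∈ V) :
    ∃ W' : WeierstrassCurve Ω, GoodW W' V ∧ W'.c₄ ^ 3 = jj * W'.Δ := by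
  obtain ⟨w, hw⟩ := IsAlgClosed.exists_root
    (Polynomial.X * (Polynomial.X - Polynomial.C 24) ^ 3 -
      Polynomial.C jj * (Polynomial.X - Polynomial.C 27) : Polynomial Ω)
    (Polynomial.degree_ne_of_natDegree_ne (by rw [m2b_deg]; norm_num))
  have hw' : w * (w - 24) ^ 3 = jj * (w - 27) := by
    rw [Polynomial.IsRoot] at hw
    simp only [Polynomial.eval_sub, Polynomial.eval_mul, Polynomial.eval_pow, Polynomial.eval_X,
      Polynomial.eval_C] at hw
    exact sub_eq_zero.1 hw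
  obtain ⟨h1, h3⟩ := m2b_w h2 hj hw'
  obtain ⟨α, hα⟩ := IsAlgClosed.exists_pow_nat_eq w (n := 3) (by norm_num)
  have hαV : α ∈ V := by
    rw [← V.valuation_le_one_iff]
    rw [← hα, map_pow] at h1
    exact (pow_le_one_iff (by norm_num)).1 h1
  have hΔ : (⟨α, 0, 1, 0, 0⟩ : WeierstrassCurve Ω).Δ = w - 27 := by
    rw [← hα]
    simp only [WeierstrassCurve.Δ, WeierstrassCurve.b₂, WeierstrassCurve.b₄, WeierstrassCurve.b₆,
      WeierstrassCurve.b₈]
    ring
  refine ⟨⟨α, 0, 1, 0, 0⟩, ⟨⟨hαV, V.zero_mem, V.one_mem, V.zero_mem, V.zero_mem⟩, ?_⟩, ?_⟩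
  · rw [hΔ]
    exact h3
  · rw [hΔ, ← hw', ← hα]
    simp only [WeierstrassCurve.c₄, WeierstrassCurve.b₂, WeierstrassCurve.b₄]
    ring

end H55K.MG
end

-- from Lib.H55N.D1
section

open NumberField IsDedekindDomain

namespace H55N

open H55B H55C

variable {K : Type} [Field K] [NumberField K] [Algebra F K] {m : ℕ}

/-! Chunk D1 (M/L). The units u = 1 mod J, J contained in 6 O_K, J nonzero. rank K = m: K has 0 real and m+1 complex places (complex_places in H55C/W8; F has no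
real place). Let U = {u : u - 1 in J} (a subgroup), the kernel of the map of O_K^* to the units of the finite ring O_K/J: finite index.
U is torsion free: if ζ in U has prime order l then ζ - 1 divides l in O_K (l = prod_{k=1}^{l-1} (1 - ζ^k)), so 6 divides l in O_K, so 6 divides l in Z (norms, or
Z is integrally closed), impossible. So U injects into (O_K^* / torsion), free of rank m (basisModTorsion / fundSystem), with image of finite index (finiteIndex_iff...): U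
is free of rank m: choose a Z-basis of the image (Submodule.smithNormalForm or Module.Free + finrank: a submodule of finite index has the same rank; Module.finBasis), lift to
units u_j in U. (Or: exist_unique_eq_mul_prod.) -/

omit [Algebra F K] in
lemma D1_six {J : Ideal (𝓞 K)} (hJ6 : J ≤ Ideal.span {6}) {ζ : (𝓞 K)ˣ}
    (hζ : (ζ : 𝓞 K) - 1 ∈ J) {l : ℕ} (hl : l.Prime) (h1 : ζ ^ l = 1) : ζ = 1 := by
  by_contra hne
  have hs : ∑ i ∈ Finset.range l, (ζ : 𝓞 K) ^ i = 0 := by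
    have h := mul_geom_sum (ζ : 𝓞 K) l
    have h2 : (ζ : 𝓞 K) ^ l = 1 := by
      have h0 := congrArg Units.val h1
      simpa using h0
    rw [h2, sub_self] at h
    rcases mul_eq_zero.1 h with h3 | h3
    · exact absurd (Units.ext (sub_eq_zero.1 h3)) hne
    · exact h3
  have h3 : (l : 𝓞 K) ∈ Ideal.span {(6 : 𝓞 K)} := by
    have h4 : (l : 𝓞 K) = - ∑ i ∈ Finset.range l, ((ζ : 𝓞 K) ^ i - 1) := by
      rw [Finset.sum_sub_distrib, hs]
      simp
    rw [h4]
    refine (Ideal.neg_mem_iff _).2 (Ideal.sum_mem _ fun i _ => ?_)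
    have h5 := sub_dvd_pow_sub_pow (ζ : 𝓞 K) 1 i
    rw [one_pow] at h5
    exact Ideal.mem_of_dvd _ h5 (hJ6 hζ)
  obtain ⟨y, hy⟩ := Ideal.mem_span_singleton.1 h3
  set b := RingOfIntegers.basis K
  have hn1 : Algebra.norm ℤ ((algebraMap ℤ (𝓞 K)) (l : ℤ)) =
      (l : ℤ) ^ Fintype.card (Module.Free.ChooseBasisIndex ℤ (𝓞 K)) :=
    Algebra.norm_algebraMap_of_basis b _
  have hn2 : Algebra.norm ℤ ((algebraMap ℤ (𝓞 K)) (6 : ℤ)) =
      (6 : ℤ) ^ Fintype.card (Module.Free.ChooseBasisIndex ℤ (𝓞 K)) :=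
    Algebra.norm_algebraMap_of_basis b _
  have hy2 : (algebraMap ℤ (𝓞 K)) (l : ℤ) = (algebraMap ℤ (𝓞 K)) (6 : ℤ) * y := by
    rw [map_natCast, hy]
    simp
  have hy3 := congrArg (Algebra.norm ℤ) hy2
  rw [map_mul, hn1, hn2] at hy3
  have hpos : Fintype.card (Module.Free.ChooseBasisIndex ℤ (𝓞 K)) ≠ 0 := by
    rw [← Module.finrank_eq_card_basis b]
    exact (Module.finrank_pos (R := ℤ) (M := 𝓞 K)).ne'
  have h6 : (6 : ℤ) ∣ (l : ℤ) := (Int.pow_dvd_pow_iff hpos).1 ⟨_, hy3⟩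
  have h7 : 6 ∣ l := by exact_mod_cast h6
  have h8 : 2 ∣ l := dvd_trans (by norm_num) h7
  have h9 : 3 ∣ l := dvd_trans (by norm_num) h7
  have h10 := (Nat.prime_dvd_prime_iff_eq Nat.prime_two hl).1 h8
  have h11 := (Nat.prime_dvd_prime_iff_eq Nat.prime_three hl).1 h9
  omega

theorem units_basis (hm : Module.finrank F K = m + 1) (J : Ideal (𝓞 K)) (hJ : J ≠ ⊥)
    (hJ6 : J ≤ Ideal.span {6}) : ∃ u : Fin m → (𝓞 K)ˣ, (∀ j, (u j : 𝓞 K) - 1 ∈ J) ∧
      (∀ z, (uu u z : 𝓞 K) - 1 ∈ J) ∧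
      (∀ v : (𝓞 K)ˣ, (v : 𝓞 K) - 1 ∈ J → ∃! z : Fin m → ℤ, v = uu u z) ∧
      (Subgroup.closure (Set.range u)).FiniteIndex := by
  classical
  have hrank : Units.rank K = m := by
    have h1 := complex_places K
    have h2 := InfinitePlace.card_eq_nrRealPlaces_add_nrComplexPlaces (K := K)
    have h3 : InfinitePlace.nrRealPlaces K = 0 := by
      have h4 := InfinitePlace.card_add_two_mul_card_eq_rank K
      have h5 := Module.finrank_mul_finrank ℚ F K
      have h6 : Module.finrank ℚ F = 2 := by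
        have h := IsCyclotomicExtension.finrank (n := 3) F
          (Polynomial.cyclotomic.irreducible_rat (by norm_num))
        rw [h]
        decide
      rw [h6] at h5
      omega
    unfold Units.rank
    omega
  let φ : (𝓞 K)ˣ →* (𝓞 K ⧸ J)ˣ := Units.map (Ideal.Quotient.mk J).toMonoidHom
  haveI : Finite (𝓞 K ⧸ J) := Ideal.finiteQuotientOfFreeOfNeBot J hJ
  have hV : ∀ v : (𝓞 K)ˣ, v ∈ φ.ker ↔ (v : 𝓞 K) - 1 ∈ J := by
    intro v
    rw [MonoidHom.mem_ker, Units.ext_iff, ← Ideal.Quotient.mk_eq_mk_iff_sub_mem]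
    exact Iff.rfl
  haveI hVfi : φ.ker.FiniteIndex := inferInstance
  let N : Submodule ℤ (Additive (𝓞 K)ˣ) := AddSubgroup.toIntSubmodule (Subgroup.toAddSubgroup φ.ker)
  have hmemN : ∀ x : Additive (𝓞 K)ˣ, x ∈ N ↔ Additive.toMul x ∈ φ.ker := fun x => Iff.rfl
  -- torsion free
  have htf : ∀ v ∈ φ.ker, ∀ n : ℕ, 0 < n → v ^ n = 1 → v = 1 := by
    intro v hv n hn h1
    by_contra hne
    have h2 : orderOf v ≠ 1 := fun h => hne (orderOf_eq_one_iff.1 h)
    obtain ⟨l, hl, hdvd⟩ := Nat.exists_prime_and_dvd h2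
    have hfo : IsOfFinOrder v := isOfFinOrder_iff_pow_eq_one.2 ⟨n, hn, h1⟩
    have hpos := hfo.orderOf_pos
    obtain ⟨k, hk⟩ := hdvd
    have h3 : (v ^ k) ^ l = 1 := by
      rw [← pow_mul, mul_comm, ← hk, pow_orderOf_eq_one]
    have h4 := D1_six hJ6 ((hV _).1 (Subgroup.pow_mem _ hv k)) hl h3
    have h5 := orderOf_dvd_of_pow_eq_one h4
    have hk0 : 0 < k := Nat.pos_of_ne_zero (fun h => by rw [hk, h, mul_zero] at hpos; exact lt_irrefl _ hpos)
    have h6 := Nat.le_of_dvd hk0 h5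
    have h7 := hl.two_le
    nlinarith
  haveI hN : Module.Finite ℤ N := inferInstance
  haveI hNt : Module.IsTorsionFree ℤ N := by
    apply Module.IsTorsionFree.of_smul_eq_zero
    intro r x hx
    by_contra hcon
    push Not at hcon
    obtain ⟨hr, hx0⟩ := hcon
    apply hx0
    apply Subtype.ext
    have h1 : r • (x : Additive (𝓞 K)ˣ) = 0 := congrArg Subtype.val hx
    have h2 : (r.natAbs) • (x : Additive (𝓞 K)ˣ) = 0 := by
      rcases Int.natAbs_eq r with h | h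
      · rw [h, natCast_zsmul] at h1
        exact h1
      · rw [h, neg_smul, natCast_zsmul, neg_eq_zero] at h1
        exact h1
    exact congrArg Additive.ofMul (htf (Additive.toMul (x : Additive (𝓞 K)ˣ)) ((hmemN _).1 x.2)
      r.natAbs (Int.natAbs_pos.2 hr) (congrArg Additive.toMul h2))
  haveI hNf : Module.Free ℤ N := Module.free_of_finite_type_torsion_free'
  have hfr : Module.finrank ℤ N = m := by
    have h1 := Submodule.finrank_quotient_add_finrank N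
    have h2 : Module.finrank ℤ (Additive (𝓞 K)ˣ ⧸ N) = 0 := by
      rw [Module.finrank_eq_zero_iff]
      intro x
      obtain ⟨y, rfl⟩ := Submodule.Quotient.mk_surjective N x
      refine ⟨(φ.ker.index : ℤ), by exact_mod_cast hVfi.index_ne_zero, ?_⟩
      rw [← Submodule.Quotient.mk_smul, Submodule.Quotient.mk_eq_zero, hmemN, natCast_zsmul]
      exact φ.ker.pow_index_mem (Additive.toMul y)
    rw [h2, zero_add, Units.finrank_eq, hrank] at h1
    exact h1
  let b : Module.Basis (Fin m) ℤ N := Module.finBasisOfFinrankEq ℤ N hfr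
  let u : Fin m → (𝓞 K)ˣ := fun j => Additive.toMul (b j : Additive (𝓞 K)ˣ)
  have huV : ∀ j, u j ∈ φ.ker := fun j => (hmemN _).1 (b j).2
  have huu : ∀ z : Fin m → ℤ, Additive.ofMul (uu u z) = ((∑ j, z j • b j : N) : Additive (𝓞 K)ˣ) := by
    intro z
    unfold uu
    rw [ofMul_prod, AddSubmonoidClass.coe_finset_sum]
    rfl
  have huz : ∀ z : Fin m → ℤ, uu u z ∈ φ.ker := fun z =>
    Subgroup.prod_mem _ fun j _ => Subgroup.zpow_mem _ (huV j) _
  have hex : ∀ v : (𝓞 K)ˣ, v ∈ φ.ker → ∃! z : Fin m → ℤ, v = uu u z := by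
    intro v hv
    have hvN : Additive.ofMul v ∈ N := (hmemN _).2 hv
    refine ⟨b.equivFun ⟨Additive.ofMul v, hvN⟩, ?_, ?_⟩
    · have h1 := huu (b.equivFun ⟨Additive.ofMul v, hvN⟩)
      rw [b.sum_equivFun] at h1
      exact (Additive.ofMul.injective h1).symm
    · intro z hz
      have h1 := huu z
      rw [← hz] at h1
      have h2 : (⟨Additive.ofMul v, hvN⟩ : N) = ∑ j, z j • b j := Subtype.ext h1
      rw [h2, ← b.equivFun_symm_apply, LinearEquiv.apply_symm_apply]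
  refine ⟨u, fun j => (hV _).1 (huV j), fun z => (hV _).1 (huz z),
    fun v hv => hex v ((hV v).2 hv), ?_⟩
  apply Subgroup.finiteIndex_of_le (H := φ.ker)
  intro v hv
  obtain ⟨z, hz, -⟩ := hex v hv
  rw [hz]
  exact Subgroup.prod_mem _ fun j _ =>
    Subgroup.zpow_mem _ (Subgroup.subset_closure (Set.mem_range_self j)) _

end H55N
end

-- from Lib.H55N.L1
section

open NumberField IsDedekindDomain

namespace H55N

open H55B H55C

variable {K : Type} [Field K] [NumberField K] [Algebra F K] {m : ℕ}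


theorem L1_smul (y : O) (x : 𝓞 K) : y • x = algebraMap O (𝓞 K) y * x := Algebra.smul_def y x

theorem L1_int_mem (b : Ideal (𝓞 K)) (hb : b ≠ ⊥) : ∃ N : ℕ, N ≠ 0 ∧ (N : 𝓞 K) ∈ b :=
  ⟨Ideal.absNorm b, fun h => hb (Ideal.absNorm_eq_zero_iff.1 h), Ideal.absNorm_mem b⟩

theorem L1_int_mul (x : K) : ∃ (M : ℤ) (z : 𝓞 K), M ≠ 0 ∧ (z : K) = (M : K) * x := by
  have hx : IsAlgebraic ℤ x := by
    have h1 : IsAlgebraic ℚ x := Algebra.IsAlgebraic.isAlgebraic x
    exact (IsFractionRing.isAlgebraic_iff ℤ ℚ K).2 h1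
  obtain ⟨M, hM, h⟩ := hx.exists_integral_multiple
  refine ⟨M, ⟨M • x, h⟩, hM, ?_⟩
  show M • x = _
  rw [zsmul_eq_mul]

theorem L1_basis (hm : Module.finrank F K = m + 1) (b : Ideal (𝓞 K)) (hb : b ≠ ⊥) :
    ∃ (β : Fin (m + 1) → 𝓞 K), (∀ j, β j ∈ b) ∧
      (∀ x ∈ b, ∃ y : Fin (m + 1) → O, x = ∑ j, algebraMap O (𝓞 K) (y j) * β j) ∧
      LinearIndependent F (fun j => (β j : K)) := by
  have := a1_fin hm
  have : Module.Finite O (𝓞 K) := inferInstance
  have : Module.Free O (b.restrictScalars O) := by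
    have : Module.IsTorsionFree O (𝓞 K) := inferInstance
    exact Module.free_of_finite_type_torsion_free'
  let B := Module.finBasis O (b.restrictScalars O)
  -- the images in K
  have hli0 : LinearIndependent O (fun j => ((B j : 𝓞 K) : K)) := by
    have h1 := B.linearIndependent
    have h2 : LinearIndependent O (fun j => ((B j : 𝓞 K))) :=
      h1.map' (Submodule.subtype _) (Submodule.ker_subtype _)
    have h3 := h2.map' (Algebra.linearMap (𝓞 K) K |>.restrictScalars O) (by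
      rw [LinearMap.ker_eq_bot]
      exact RingOfIntegers.coe_injective)
    exact h3
  have hli : LinearIndependent F (fun j => ((B j : 𝓞 K) : K)) :=
    LinearIndependent.localization F (nonZeroDivisors O) hli0
  have hrep : ∀ x ∈ b, ∃ y : Fin (Module.finrank O (b.restrictScalars O)) → O,
      x = ∑ j, algebraMap O (𝓞 K) (y j) * (B j : 𝓞 K) := by
    intro x hx
    have hx' : x ∈ b.restrictScalars O := hx
    refine ⟨fun j => B.repr ⟨x, hx'⟩ j, ?_⟩
    have h1 := B.sum_repr ⟨x, hx'⟩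
    have h2 := congrArg (Submodule.subtype (b.restrictScalars O)) h1
    rw [map_sum] at h2
    have h3 : x = ∑ j, (b.restrictScalars O).subtype (B.repr ⟨x, hx'⟩ j • B j) := h2.symm
    refine h3.trans (Finset.sum_congr rfl fun j _ => ?_)
    rw [map_smul, L1_smul]
    rfl
  have hspan : ⊤ ≤ Submodule.span F (Set.range fun j => ((B j : 𝓞 K) : K)) := by
    intro x _
    obtain ⟨N, hN, hNb⟩ := L1_int_mem b hb
    obtain ⟨M, z, hM, hz⟩ := L1_int_mul x
    obtain ⟨y, hy⟩ := hrep (N * z) (b.mul_mem_right z hNb)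
    have h1 := congrArg (algebraMap (𝓞 K) K) hy
    rw [map_mul, map_natCast, map_sum] at h1
    have hzK : algebraMap (𝓞 K) K z = (M : K) * x := hz
    rw [hzK] at h1
    have hc : (algebraMap F K ((N : F) * (M : F))) ≠ 0 := by
      rw [Ne, map_eq_zero]
      exact mul_ne_zero (Nat.cast_ne_zero.2 hN) (Int.cast_ne_zero.2 hM)
    have h2 : ((N : F) * (M : F)) • x ∈ Submodule.span F (Set.range fun j => ((B j : 𝓞 K) : K)) := by
      have h3 : ((N : F) * (M : F)) • x = (N : K) * ((M : K) * x) := by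
        rw [Algebra.smul_def, map_mul, map_natCast, map_intCast, mul_assoc]
      rw [h3, h1]
      refine Submodule.sum_mem _ fun j _ => ?_
      rw [map_mul]
      have h4 : algebraMap (𝓞 K) K (algebraMap O (𝓞 K) (y j)) * algebraMap (𝓞 K) K (B j : 𝓞 K) =
          (y j : F) • ((B j : 𝓞 K) : K) := by
        rw [Algebra.smul_def]
        rfl
      rw [h4]
      exact Submodule.smul_mem _ _ (Submodule.subset_span ⟨j, rfl⟩)
    have hc' : ((N : F) * (M : F)) ≠ 0 := fun h => hc (by rw [h, map_zero])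
    exact (Submodule.smul_mem_iff _ hc').1 h2
  have hcard : Module.finrank O (b.restrictScalars O) = m + 1 := by
    rw [← hm]
    have h := Module.finrank_eq_card_basis (Module.Basis.mk hli hspan)
    rw [h, Fintype.card_fin]
  let E : Fin (m + 1) ≃ Fin (Module.finrank O (b.restrictScalars O)) := finCongr hcard.symm
  refine ⟨fun j => (B (E j) : 𝓞 K), fun j => (B (E j)).2, ?_, ?_⟩
  · intro x hx
    obtain ⟨y, hy⟩ := hrep x hx
    refine ⟨fun j => y (E j), ?_⟩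
    rw [hy]
    exact (E.sum_comp fun j => algebraMap O (𝓞 K) (y j) * (B j : 𝓞 K)).symm
  · exact hli.comp E E.injective

/-- The dual basis for the trace form. -/
theorem L1_dual (hm : Module.finrank F K = m + 1) (A : Fin (m + 1) → K)
    (hA : LinearIndependent F A) :
    ∃ A' : Fin (m + 1) → K, LinearIndependent F A' ∧
      ∀ j k, Algebra.trace F K (A j * A' k) = if j = k then 1 else 0 := by
  have := a1_fin hm
  let B : Module.Basis (Fin (m + 1)) F K :=
    basisOfLinearIndependentOfCardEqFinrank hA (by rw [hm, Fintype.card_fin])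
  have hB : ∀ j, B j = A j := fun j => by
    rw [coe_basisOfLinearIndependentOfCardEqFinrank]
  let B' := (Algebra.traceForm F K).dualBasis (traceForm_nondegenerate F K) B
  refine ⟨B', B'.linearIndependent, fun j k => ?_⟩
  have h := LinearMap.BilinForm.apply_dualBasis_left (B := Algebra.traceForm F K)
    (hB := traceForm_nondegenerate F K) (b := B) k j
  rw [Algebra.traceForm_apply, hB] at h
  rw [mul_comm]
  exact h

theorem dual_basis (hm : Module.finrank F K = m + 1) (b : Ideal (𝓞 K)) (hb : b ≠ ⊥) :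
    ∃ (β : Fin (m + 1) → 𝓞 K) (β' : Fin (m + 1) → K), (∀ j, β j ∈ b) ∧
      (∀ j k, Algebra.trace F K ((β j : K) * β' k) = if j = k then 1 else 0) ∧
      (∀ x ∈ b, ∃ y : Fin (m + 1) → O, x = ∑ j, algebraMap O (𝓞 K) (y j) * β j) ∧
      LinearIndependent F β' := by
  obtain ⟨β, h1, h2, h3⟩ := L1_basis hm b hb
  obtain ⟨β', h4, h5⟩ := L1_dual hm _ h3
  exact ⟨β, β', h1, h5, h2, h4⟩

/-- Dual bases and directions: for a basis A of K/F and a nonzero ideal I there are nonzero d_j in I with Tr(d_j A_k) = 0 for k <> j. PROOF. The dual basis A* of A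
for the trace form; multiply A*_j by a nonzero integer M with M A*_j in O_K (exists_integral_multiple) and by a nonzero element of I. -/
theorem directions (hm : Module.finrank F K = m + 1) (A : Fin (m + 1) → K)
    (hA : LinearIndependent F A) (I : Ideal (𝓞 K)) (hI : I ≠ ⊥) :
    ∃ d : Fin (m + 1) → 𝓞 K, (∀ j, d j ∈ I) ∧ (∀ j, d j ≠ 0) ∧
      ∀ j k, k ≠ j → Algebra.trace F K ((d j : K) * A k) = 0 := by
  obtain ⟨A', h1, h2⟩ := L1_dual hm A hA
  obtain ⟨N, hN, hNI⟩ := L1_int_mem I hI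
  choose M z hM hz using fun j => L1_int_mul (A' j)
  refine ⟨fun j => N * z j, fun j => I.mul_mem_right _ hNI, fun j => ?_, fun j k hjk => ?_⟩
  · refine mul_ne_zero (Nat.cast_ne_zero.2 hN) ?_
    intro h
    have h3 : ((z j : 𝓞 K) : K) = 0 := by rw [h]; rfl
    rw [hz j] at h3
    rcases mul_eq_zero.1 h3 with h4 | h4
    · exact hM j (Int.cast_eq_zero.1 h4)
    · exact h1.ne_zero j h4
  · have h3 : (((N : 𝓞 K) * z j : 𝓞 K) : K) * A k = ((N : F) * (M j : F)) • (A k * A' j) := by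
      rw [Algebra.smul_def, map_mul, map_natCast, map_intCast]
      have h4 : (((N : 𝓞 K) * z j : 𝓞 K) : K) = (N : K) * ((z j : 𝓞 K) : K) := by
        rw [← map_natCast (algebraMap (𝓞 K) K) N]
        exact map_mul (algebraMap (𝓞 K) K) _ _
      rw [h4, hz j]
      ring
    rw [h3, map_smul, h2 k j, if_neg hjk, smul_zero]


theorem L1_odd (b : Ideal (𝓞 K)) (hb : IsCoprime b (Ideal.span {2})) :
    ∃ N : ℕ, ¬ 2 ∣ N ∧ (N : 𝓞 K) ∈ b := by
  have hb0 : b ≠ ⊥ := by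
    rintro rfl
    obtain ⟨x, hx, y, hy, h⟩ := Ideal.isCoprime_iff_exists.1 hb
    rw [Ideal.mem_bot] at hx
    rw [hx, zero_add] at h
    rw [h, Ideal.mem_span_singleton] at hy
    obtain ⟨c, hc⟩ := hy
    have h1 := congrArg (Algebra.norm ℤ) hc
    rw [map_one, map_mul] at h1
    have h2 : Algebra.norm ℤ (2 : 𝓞 K) = 2 ^ Module.finrank ℤ (𝓞 K) := by
      have := Algebra.norm_algebraMap (S := 𝓞 K) (2 : ℤ)
      rw [map_ofNat] at this
      exact this
    rw [h2] at h1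
    have h3 : 0 < Module.finrank ℤ (𝓞 K) := Module.finrank_pos
    have h4 : (2 : ℤ) ∣ 1 := by
      rw [h1]
      exact Dvd.dvd.mul_right (dvd_pow_self 2 h3.ne') _
    norm_num at h4
  refine ⟨Ideal.absNorm b, ?_, Ideal.absNorm_mem b⟩
  intro h2
  rw [Ideal.absNorm_apply, Submodule.cardQuot_apply] at h2
  have : Finite (𝓞 K ⧸ b) := Ideal.finiteQuotientOfFreeOfNeBot b hb0
  have : Fact (Nat.Prime 2) := ⟨Nat.prime_two⟩
  obtain ⟨z, hz⟩ := exists_prime_addOrderOf_dvd_card' (G := 𝓞 K ⧸ b) 2 h2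
  obtain ⟨t, rfl⟩ := Ideal.Quotient.mk_surjective z
  have hz0 : Ideal.Quotient.mk b t ≠ 0 := by
    intro h
    rw [h, addOrderOf_zero] at hz
    norm_num at hz
  have hz2 : 2 * t ∈ b := by
    have h3 := addOrderOf_nsmul_eq_zero (Ideal.Quotient.mk b t)
    rw [hz] at h3
    rw [← Ideal.Quotient.eq_zero_iff_mem, map_mul, map_ofNat]
    rw [nsmul_eq_mul] at h3
    exact_mod_cast h3
  obtain ⟨x, hx, y, hy, h⟩ := Ideal.isCoprime_iff_exists.1 hb
  obtain ⟨c, hc⟩ := Ideal.mem_span_singleton.1 hy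
  apply hz0
  rw [Ideal.Quotient.eq_zero_iff_mem]
  have h5 : t = x * t + c * (2 * t) := by
    rw [hc] at h
    linear_combination (-t) * h
  rw [h5]
  exact b.add_mem (b.mul_mem_right _ hx) (b.mul_mem_left _ hz2)

theorem L1_dual_int (a : K)
    (ha : ∀ x : 𝓞 K, ∃ z : ℤ, Algebra.trace ℚ K ((x : K) * a) = z) :
    ∃ y : 𝓞 K, (y : K) = (NumberField.discr K : K) * a := by
  have hone : (1 : FractionalIdeal (nonZeroDivisors (𝓞 K)) K) ≠ 0 := one_ne_zero
  have h1 : a ∈ FractionalIdeal.dual ℤ ℚ (1 : FractionalIdeal (nonZeroDivisors (𝓞 K)) K) := by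
    rw [FractionalIdeal.mem_dual hone]
    intro x hx
    rw [FractionalIdeal.mem_one_iff] at hx
    obtain ⟨x, rfl⟩ := hx
    obtain ⟨z, hz⟩ := ha x
    refine ⟨z, ?_⟩
    rw [Algebra.traceForm_apply, mul_comm]
    rw [eq_intCast]
    exact hz.symm
  have h2 : ((NumberField.discr K : ℤ) : 𝓞 K) ∈ differentIdeal ℤ (𝓞 K) := by
    have h3 := Ideal.absNorm_mem (differentIdeal ℤ (𝓞 K))
    rw [NumberField.absNorm_differentIdeal K (𝓞 K), ← Int.cast_natCast] at h3
    rcases Int.natAbs_eq (NumberField.discr K) with h4 | h4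
    · rw [h4]
      exact h3
    · rw [h4, Int.cast_neg]
      exact neg_mem h3
  have h3 : algebraMap (𝓞 K) K ((NumberField.discr K : ℤ) : 𝓞 K) ∈
      ((differentIdeal ℤ (𝓞 K) : Ideal (𝓞 K)) : FractionalIdeal (nonZeroDivisors (𝓞 K)) K) :=
    (FractionalIdeal.mem_coeIdeal (nonZeroDivisors (𝓞 K))).2 ⟨_, h2, rfl⟩
  have h4 := FractionalIdeal.mul_mem_mul h3 h1
  rw [coeIdeal_differentIdeal (K := ℚ), inv_mul_cancel₀ (FractionalIdeal.dual_ne_zero ℤ ℚ hone),
    FractionalIdeal.mem_one_iff] at h4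
  obtain ⟨y, hy⟩ := h4
  refine ⟨y, ?_⟩
  rw [map_intCast] at hy
  exact hy

theorem L1_trace_O (y : O) : ∃ z : ℤ, Algebra.trace ℚ F (y : F) = z := by
  have h : IsIntegral ℤ (Algebra.trace ℚ F (y : F)) := Algebra.isIntegral_trace y.2
  obtain ⟨z, hz⟩ := IsIntegrallyClosed.isIntegral_iff.1 h
  exact ⟨z, by rw [← hz, eq_intCast]⟩

/-- 2-integrality of the labels. Let b be prime to 2 and the discriminant of K odd (odd_discr in H55C/W7). If Tr_{K/F}(x a) is in O for all x in b then σ(a) is integral for every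
valuation ring V of C above 2 and every embedding σ. PROOF. b contains an odd natural number N (b + (2) = O_K: the finite ring O_K/b has odd characteristic; e.g. N = absNorm b is in b and odd).
Then Tr_{K/Q}(x N a) is in Z for all x in O_K, so with an integral basis ω of O_K and the trace matrix T (det T = discr K, odd), N a = sum c_j ω_j, T c in Z^r, c in
discr^(-1) Z^r. So discr * N * a is in O_K, σ of it is integral over Z, hence in V, and the odd integer discr * N is a unit of V. -/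
theorem label_int2 (hK : UnrOut K) (b : Ideal (𝓞 K)) (hb : IsCoprime b (Ideal.span {2})) (a : K)
    (ha : ∀ x ∈ b, ∃ y : O, Algebra.trace F K ((x : K) * a) = algebraMap O F y) (τ : K →+* ℂ) :
    Int2 (τ a) := by
  obtain ⟨N, hN, hNb⟩ := L1_odd b hb
  obtain ⟨y, hy⟩ := L1_dual_int (K := K) ((N : K) * a) (by
    intro x
    obtain ⟨y, hy⟩ := ha (N * x) (b.mul_mem_right x hNb)
    obtain ⟨z, hz⟩ := L1_trace_O y
    refine ⟨z, ?_⟩
    have h1 : (x : K) * ((N : K) * a) = (((N : 𝓞 K) * x : 𝓞 K) : K) * a := by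
      have h4 : (((N : 𝓞 K) * x : 𝓞 K) : K) = (N : K) * (x : K) := by
        rw [← map_natCast (algebraMap (𝓞 K) K) N]
        exact map_mul (algebraMap (𝓞 K) K) _ _
      rw [h4]
      ring
    rw [h1, ← Algebra.trace_trace (S := F), hy]
    exact hz)
  intro V hV
  have hd := H55C.odd_discr K hK
  have h1 : V.valuation (τ (y : K)) ≤ 1 := by
    have h2 : IsIntegral ℤ (τ (y : K)) := map_isIntegral_int τ y.2
    have h3 : IsIntegral V (τ (y : K)) := h2.tower_top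
    obtain ⟨t, ht⟩ := IsIntegrallyClosed.isIntegral_iff.1 h3
    rw [← ht]
    exact V.valuation_le_one t
  have hodd : ∀ n : ℤ, Odd n → V.valuation (n : ℂ) = 1 := by
    intro n hn
    have h1 := val_odd V hV n.natAbs (Int.natAbs_odd.2 hn)
    rw [← Int.cast_natCast] at h1
    rcases Int.natAbs_eq n with h2 | h2
    · rw [h2]
      exact h1
    · rw [h2, Int.cast_neg, Valuation.map_neg]
      exact h1
  rw [hy, map_mul, map_intCast, map_mul, hodd _ hd, one_mul, map_mul, map_natCast, map_mul] at h1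
  have h3 : V.valuation ((N : ℕ) : ℂ) = 1 := by
    have := hodd (N : ℤ) (by
      rw [← Int.not_even_iff_odd, even_iff_two_dvd]
      exact_mod_cast hN)
    exact_mod_cast this
  rw [h3, one_mul] at h1
  exact h1

end H55N
end

-- from Lib.H55N.L2
section

open NumberField IsDedekindDomain

namespace H55N

open H55B H55C

variable {K : Type} [Field K] [NumberField K] [Algebra F K] {m : ℕ}

/-! Chunk L2 (M/L). Existence of the labels, n = m+1. β, β' as in dual_basis; c₀ = sum_j c_j β_j with c_j in O; some c_{j0} is not divisible by lam (else c₀ = lam * (sum (c_j/lam) β_j) is in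
lam b). For r in the box {0..n-1}^m let s = (sum_i r_i) mod n (the colour) and L(r) = sum_j y_j β'_j, y = e_s + 2 q e_{j0}, q in O with
c_s + 2 q c_{j0} = 1 mod lam (2 c_{j0} is invertible mod lam: lam is a prime element of O; or use IsCoprime). For general a = r + n z (r_i = a_i mod n, z_i = a_i / n) put L(a) = u^z L(r): equi
(uu is multiplicative in z). int: Tr(x L(a)) = Tr((u^z x) L(r)) and u^z x in b. one: c₀ u^z = c₀ + (element of 6 b) (hu6), so Tr(c₀ L(a)) = Tr(c₀ L(r)) + 6(..) =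
sum_j y_j c_j + 6(..) = 1 mod lam (3 is divisible by lam). odd: write L(kv a π k) = sum_j Y_{kj} β'_j, Y_{kj} = Tr(β_j L(..)) in O; Y_k = e_{colour} mod 2 (u^z = 1 mod 6 changes the
coordinates by multiples of 6: Tr(β_j (u^z - 1) L(r)) in 6 O), where the colour of kv a π k is (sum a_i + k) mod n (kv a π k has coordinate sum sum a_i + k). So Y mod 2 is a
permutation matrix and d = det Y is congruent to ±1 mod 2: IsCoprime d 2. For y in O^n take the vector x' = adjugate(Y) y: Y x' = d y, and x = sum_j x'_j β_j: Tr(x L_k) = sum_j x'_j Y_{kj} = d y_k. -/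

/-- Rational labels. -/
structure LabOk (b : Ideal (𝓞 K)) (c₀ : 𝓞 K) (u : Fin m → (𝓞 K)ˣ) (L : (Fin m → ℤ) → K) : Prop where
  equi : ∀ a z : Fin m → ℤ, L (a + ((m + 1 : ℕ) : ℤ) • z) = ((uu u z : 𝓞 K) : K) * L a
  int : ∀ a, ∀ x ∈ b, ∃ y : O, Algebra.trace F K ((x : K) * L a) = algebraMap O F y
  one : ∀ a, ∃ y : O, Algebra.trace F K ((c₀ : K) * L a) = algebraMap O F (1 + lam * y)
  odd : ∀ (a : Fin m → ℤ) (π : Equiv.Perm (Fin m)), ∃ d : O, IsCoprime d 2 ∧
    ∀ y : Fin (m + 1) → O, ∃ x ∈ b, ∀ k : Fin (m + 1),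
      Algebra.trace F K ((x : K) * L (kv a π k)) = algebraMap O F (d * y k)

/-- The colour of an integral vector. -/
def L2_col (a : Fin m → ℤ) : Fin (m + 1) :=
  ⟨((∑ i, a i) % ((m + 1 : ℕ) : ℤ)).toNat, by
    have h1 : 0 ≤ (∑ i, a i) % ((m + 1 : ℕ) : ℤ) := Int.emod_nonneg _ (by positivity)
    have h2 : (∑ i, a i) % ((m + 1 : ℕ) : ℤ) < ((m + 1 : ℕ) : ℤ) :=
      Int.emod_lt_of_pos _ (by positivity)
    omega⟩

theorem L2_col_val (a : Fin m → ℤ) : ((L2_col a : ℕ) : ℤ) = (∑ i, a i) % ((m + 1 : ℕ) : ℤ) := by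
  unfold L2_col
  have h1 : 0 ≤ (∑ i, a i) % ((m + 1 : ℕ) : ℤ) := Int.emod_nonneg _ (by positivity)
  exact Int.toNat_of_nonneg h1

theorem L2_col_eq {a a' : Fin m → ℤ}
    (h : (∑ i, a i) % ((m + 1 : ℕ) : ℤ) = (∑ i, a' i) % ((m + 1 : ℕ) : ℤ)) :
    L2_col a = L2_col a' := by
  apply Fin.ext
  have h1 := L2_col_val a
  have h2 := L2_col_val a'
  rw [h, ← h2] at h1
  exact_mod_cast h1

theorem L2_sum_kv (a : Fin m → ℤ) (π : Equiv.Perm (Fin m)) (k : Fin (m + 1)) :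
    ∑ i, kv a π k i = ∑ i, a i + ((k : ℕ) : ℤ) := by
  unfold kv
  rw [Finset.sum_add_distrib]
  congr 1
  rw [π.symm.sum_comp (fun i : Fin m => if ((i : Fin m) : ℕ) < (k : ℕ) then (1 : ℤ) else 0)]
  rw [Fin.sum_univ_eq_sum_range (fun i => if i < (k : ℕ) then (1 : ℤ) else 0) m]
  rw [Finset.sum_ite, Finset.sum_const_zero, add_zero, Finset.sum_const, nsmul_eq_mul, mul_one]
  have h : (Finset.range m).filter (fun i => i < (k : ℕ)) = Finset.range k := by
    ext i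
    simp only [Finset.mem_filter, Finset.mem_range]
    have := k.2
    omega
  rw [h, Finset.card_range]

theorem L2_bij (a : Fin m → ℤ) (π : Equiv.Perm (Fin m)) :
    Function.Bijective (fun k : Fin (m + 1) => L2_col (kv a π k)) := by
  rw [Fintype.bijective_iff_injective_and_card]
  refine ⟨fun k k' h => ?_, rfl⟩
  have h1 : ((L2_col (kv a π k) : ℕ) : ℤ) = ((L2_col (kv a π k') : ℕ) : ℤ) := by
    have : L2_col (kv a π k) = L2_col (kv a π k') := h
    rw [this]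
  rw [L2_col_val, L2_col_val, L2_sum_kv, L2_sum_kv] at h1
  have h2 := Int.ModEq.add_left_cancel' _ h1
  have h3 : (((k : ℕ) : ℤ)) % ((m + 1 : ℕ) : ℤ) = ((k' : ℕ) : ℤ) % ((m + 1 : ℕ) : ℤ) := h2
  rw [Int.emod_eq_of_lt (by positivity) (by exact_mod_cast k.2),
    Int.emod_eq_of_lt (by positivity) (by exact_mod_cast k'.2)] at h3
  apply Fin.ext
  exact_mod_cast h3

theorem L2_lam_three : ∃ t : O, (3 : O) = lam * t := by
  refine ⟨-om ^ 2 * (om - 1), ?_⟩
  unfold lam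
  rw [three_eq]
  ring

theorem L2_lam_prime : Prime (lam : O) := lam_prime

theorem L2_trace_mul (t : O) (x : K) :
    Algebra.trace F K (((algebraMap O (𝓞 K) t : 𝓞 K) : K) * x) =
      algebraMap O F t * Algebra.trace F K x := by
  have h : ((algebraMap O (𝓞 K) t : 𝓞 K) : K) * x = (algebraMap O F t) • x := by
    rw [Algebra.smul_def]
    rfl
  rw [h, map_smul, smul_eq_mul]

theorem L2_coe_mul (x y : 𝓞 K) : ((x * y : 𝓞 K) : K) = (x : K) * (y : K) := rfl

theorem L2_coe_add (x y : 𝓞 K) : ((x + y : 𝓞 K) : K) = (x : K) + (y : K) := rfl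

theorem L2_coe_sum {ι : Type} (s : Finset ι) (f : ι → 𝓞 K) :
    ((∑ i ∈ s, f i : 𝓞 K) : K) = ∑ i ∈ s, (f i : K) := map_sum (algebraMap (𝓞 K) K) f s

/-- The trace pairing of two vectors in dual bases. -/
theorem L2_pair (β : Fin (m + 1) → 𝓞 K) (β' : Fin (m + 1) → K)
    (hdual : ∀ j k, Algebra.trace F K ((β j : K) * β' k) = if j = k then 1 else 0)
    (x y : Fin (m + 1) → O) :
    Algebra.trace F K (((∑ j, algebraMap O (𝓞 K) (x j) * β j : 𝓞 K) : K) *
      ∑ k, (algebraMap O F (y k)) • β' k) = algebraMap O F (∑ j, x j * y j) := by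
  rw [L2_coe_sum, Finset.sum_mul, map_sum, map_sum]
  refine Finset.sum_congr rfl fun j _ => ?_
  rw [L2_coe_mul, mul_assoc, L2_trace_mul, map_mul (algebraMap O F)]
  congr 1
  rw [Finset.mul_sum, map_sum, Finset.sum_eq_single j]
  · rw [mul_smul_comm, map_smul, hdual, if_pos rfl, smul_eq_mul, mul_one]
  · intro k _ hk
    rw [mul_smul_comm, map_smul, hdual, if_neg hk.symm, smul_zero]
  · intro h
    exact absurd (Finset.mem_univ j) h

theorem L2_uu_add (u : Fin m → (𝓞 K)ˣ) (z z' : Fin m → ℤ) : uu u (z + z') = uu u z * uu u z' := by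
  unfold uu
  rw [← Finset.prod_mul_distrib]
  exact Finset.prod_congr rfl fun j _ => by rw [Pi.add_apply, zpow_add]

theorem L2_coprime_of_sq {d : O} (h : Ideal.Quotient.mk (Ideal.span {(2 : O)}) (d * d) = 1) :
    IsCoprime d 2 := by
  rw [← map_one (Ideal.Quotient.mk (Ideal.span {(2 : O)})), Ideal.Quotient.eq,
    Ideal.mem_span_singleton] at h
  obtain ⟨t, ht⟩ := h
  exact ⟨d, -t, by linear_combination ht⟩

/-- A matrix congruent to a permutation matrix modulo 2 has odd determinant. -/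
theorem L2_det (s : Equiv.Perm (Fin (m + 1))) (Y W : Matrix (Fin (m + 1)) (Fin (m + 1)) O)
    (hY : ∀ k j, Y k j = (if s k = j then 1 else 0) + 2 * W k j) : IsCoprime Y.det 2 := by
  apply L2_coprime_of_sq
  set φ := Ideal.Quotient.mk (Ideal.span {(2 : O)}) with hφ
  have h2 : φ 2 = 0 := by
    rw [hφ, Ideal.Quotient.eq_zero_iff_mem]
    exact Ideal.mem_span_singleton_self 2
  have h1 : φ.mapMatrix Y = (1 : Matrix (Fin (m + 1)) (Fin (m + 1)) (O ⧸ Ideal.span {(2 : O)})).submatrix s id := by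
    ext k j
    rw [RingHom.mapMatrix_apply, Matrix.map_apply, hY, map_add, map_mul, h2, zero_mul, add_zero,
      Matrix.submatrix_apply, Matrix.one_apply]
    rw [id_eq]
    by_cases h : s k = j
    · rw [if_pos h, if_pos h, map_one]
    · rw [if_neg h, if_neg h, map_zero]
  rw [map_mul, RingHom.map_det, h1, Matrix.det_permute, Matrix.det_one, mul_one]
  rcases Int.units_eq_one_or (Equiv.Perm.sign s) with h | h <;> rw [h] <;> simp

theorem labels_exist (hm : Module.finrank F K = m + 1) (b f : Ideal (𝓞 K)) (hb : b ≠ ⊥)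
    (c₀ : 𝓞 K) (hc : c₀ ∈ b) (hc' : c₀ ∉ Ideal.span {algebraMap O (𝓞 K) lam} * b)
    (u : Fin m → (𝓞 K)ˣ) (hu6 : ∀ z, (uu u z : 𝓞 K) - 1 ∈ Ideal.span {6}) :
    ∃ L : (Fin m → ℤ) → K, LabOk b c₀ u L := by
  classical
  obtain ⟨β, β', hβ, hdual, hrep, hind⟩ := dual_basis hm b hb
  obtain ⟨c, hcc⟩ := hrep c₀ hc
  -- a coordinate not divisible by lam
  obtain ⟨j₀, hj₀⟩ : ∃ j₀, ¬ lam ∣ c j₀ := by
    by_contra hcon
    push Not at hcon
    choose c' hc'' using hcon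
    apply hc'
    rw [Ideal.mem_span_singleton_mul]
    refine ⟨∑ j, algebraMap O (𝓞 K) (c' j) * β j, b.sum_mem fun j _ => b.mul_mem_left _ (hβ j), ?_⟩
    rw [hcc, Finset.mul_sum]
    refine Finset.sum_congr rfl fun j _ => ?_
    rw [hc'' j, map_mul]
    ring
  have hlam := L2_lam_prime
  obtain ⟨t3, ht3⟩ := L2_lam_three
  have hl2 : ¬ lam ∣ (2 : O) := by
    rintro ⟨t, ht⟩
    apply hlam.not_isUnit
    apply isUnit_of_dvd_one
    exact ⟨t3 - t, by linear_combination ht3 - ht⟩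
  have hcop : IsCoprime lam (2 * c j₀) := by
    rw [Prime.coprime_iff_not_dvd hlam]
    intro h
    rcases hlam.dvd_or_dvd h with h1 | h1
    · exact hl2 h1
    · exact hj₀ h1
  obtain ⟨a', b', hab⟩ := hcop
  -- the coordinate vectors
  let Yv : Fin (m + 1) → Fin (m + 1) → O := fun s j =>
    (if s = j then 1 else 0) + 2 * (b' * (1 - c s) * if j₀ = j then 1 else 0)
  have hYone : ∀ s, ∑ j, c j * Yv s j = 1 + lam * (-(a' * (1 - c s))) := by
    intro s
    have h1 : ∑ j, c j * Yv s j = c s + 2 * (b' * (1 - c s)) * c j₀ := by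
      simp only [Yv, mul_add, Finset.sum_add_distrib]
      congr 1
      · simp
      · rw [Finset.sum_eq_single j₀]
        · rw [if_pos rfl]; ring
        · intro j _ hj
          rw [if_neg hj.symm]; ring
        · intro h
          exact absurd (Finset.mem_univ _) h
    rw [h1]
    linear_combination (1 - c s) * hab
  let L0 : Fin (m + 1) → K := fun s => ∑ k, (algebraMap O F (Yv s k)) • β' k
  have hL0 : ∀ (x : Fin (m + 1) → O) (s : Fin (m + 1)),
      Algebra.trace F K (((∑ j, algebraMap O (𝓞 K) (x j) * β j : 𝓞 K) : K) * L0 s) =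
        algebraMap O F (∑ j, x j * Yv s j) := fun x s => L2_pair β β' hdual x (Yv s)
  have hL0b : ∀ x ∈ b, ∀ s, ∃ y : O, Algebra.trace F K ((x : K) * L0 s) = algebraMap O F y := by
    intro x hx s
    obtain ⟨y, hy⟩ := hrep x hx
    exact ⟨_, by rw [hy]; exact hL0 y s⟩
  let L : (Fin m → ℤ) → K := fun a =>
    ((uu u (fun i => a i / ((m + 1 : ℕ) : ℤ)) : 𝓞 K) : K) * L0 (L2_col a)
  -- the action of the units modulo 6
  have hmod : ∀ (x : 𝓞 K) (_ : x ∈ b) (z : Fin m → ℤ) (s : Fin (m + 1)), ∃ w : O,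
      Algebra.trace F K ((x : K) * (((uu u z : 𝓞 K) : K) * L0 s)) =
        Algebra.trace F K ((x : K) * L0 s) + algebraMap O F (6 * w) := by
    intro x hx z s
    obtain ⟨t, ht⟩ := Ideal.mem_span_singleton.1 (hu6 z)
    obtain ⟨w, hw⟩ := hL0b (t * x) (b.mul_mem_left _ hx) s
    refine ⟨w, ?_⟩
    have h1 : (uu u z : 𝓞 K) = 1 + 6 * t := by linear_combination ht
    have h2 : (x : K) * (((uu u z : 𝓞 K) : K) * L0 s) =
        (x : K) * L0 s + ((algebraMap O (𝓞 K) 6 : 𝓞 K) : K) * (((t * x : 𝓞 K) : K) * L0 s) := by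
      rw [h1, map_ofNat]
      have h3 : ((1 + 6 * t : 𝓞 K) : K) = 1 + ((6 : 𝓞 K) : K) * (t : K) := by
        rw [L2_coe_add, L2_coe_mul]
        rfl
      rw [h3, L2_coe_mul]
      ring
    rw [h2, map_add, L2_trace_mul, hw, map_mul (algebraMap O F)]
  refine ⟨L, ⟨?_, ?_, ?_, ?_⟩⟩
  · intro a z
    have hn : ((m + 1 : ℕ) : ℤ) ≠ 0 := by positivity
    have h1 : L2_col (a + ((m + 1 : ℕ) : ℤ) • z) = L2_col a := by
      apply L2_col_eq
      have : ∑ i, (a + ((m + 1 : ℕ) : ℤ) • z) i = ∑ i, a i + ((m + 1 : ℕ) : ℤ) * ∑ i, z i := by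
        simp only [Pi.add_apply, Pi.smul_apply, smul_eq_mul, Finset.sum_add_distrib, Finset.mul_sum]
      rw [this, Int.add_mul_emod_self_left]
    have h2 : (fun i => (a + ((m + 1 : ℕ) : ℤ) • z) i / ((m + 1 : ℕ) : ℤ)) =
        (fun i => a i / ((m + 1 : ℕ) : ℤ)) + z := by
      funext i
      simp only [Pi.add_apply, Pi.smul_apply, smul_eq_mul]
      rw [Int.add_mul_ediv_left _ _ hn]
    show ((uu u (fun i => (a + ((m + 1 : ℕ) : ℤ) • z) i / ((m + 1 : ℕ) : ℤ)) : 𝓞 K) : K) *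
      L0 (L2_col (a + ((m + 1 : ℕ) : ℤ) • z)) = _
    rw [h1, h2, L2_uu_add, Units.val_mul, L2_coe_mul]
    show _ = ((uu u z : 𝓞 K) : K) *
      (((uu u (fun i => a i / ((m + 1 : ℕ) : ℤ)) : 𝓞 K) : K) * L0 (L2_col a))
    ring
  · intro a x hx
    have h1 : (x : K) * L a =
        ((x * (uu u (fun i => a i / ((m + 1 : ℕ) : ℤ)) : 𝓞 K) : 𝓞 K) : K) * L0 (L2_col a) := by
      rw [L2_coe_mul, mul_assoc]
    rw [h1]
    exact hL0b _ (b.mul_mem_right _ hx) _
  · intro a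
    obtain ⟨w, hw⟩ := hmod c₀ hc (fun i => a i / ((m + 1 : ℕ) : ℤ)) (L2_col a)
    have h1 := hL0 c (L2_col a)
    rw [← hcc, hYone] at h1
    refine ⟨-(a' * (1 - c (L2_col a))) + 2 * t3 * w, ?_⟩
    show Algebra.trace F K ((c₀ : K) *
      (((uu u (fun i => a i / ((m + 1 : ℕ) : ℤ)) : 𝓞 K) : K) * L0 (L2_col a))) = _
    rw [hw, h1, ← map_add]
    congr 1
    linear_combination 2 * w * ht3
  · intro a π
    let s : Equiv.Perm (Fin (m + 1)) := Equiv.ofBijective _ (L2_bij a π)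
    have hs : ∀ k, s k = L2_col (kv a π k) := fun k => rfl
    -- the matrix of the coordinates
    have hY : ∀ k j : Fin (m + 1), ∃ W : O, Algebra.trace F K ((β j : K) * L (kv a π k)) =
        algebraMap O F ((if s k = j then 1 else 0) + 2 * W) := by
      intro k j
      obtain ⟨w, hw⟩ := hmod (β j) (hβ j) (fun i => kv a π k i / ((m + 1 : ℕ) : ℤ))
        (L2_col (kv a π k))
      have h1 := hL0 (Pi.single j 1) (L2_col (kv a π k))
      have h2 : ∑ i, algebraMap O (𝓞 K) ((Pi.single j 1 : Fin (m + 1) → O) i) * β i = β j := by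
        rw [Finset.sum_eq_single j]
        · rw [Pi.single_eq_same, map_one, one_mul]
        · intro i _ hi
          rw [Pi.single_eq_of_ne hi, map_zero, zero_mul]
        · intro h
          exact absurd (Finset.mem_univ _) h
      have h3 : ∑ i, (Pi.single j 1 : Fin (m + 1) → O) i * Yv (L2_col (kv a π k)) i =
          Yv (L2_col (kv a π k)) j := by
        rw [Finset.sum_eq_single j]
        · rw [Pi.single_eq_same, one_mul]
        · intro i _ hi
          rw [Pi.single_eq_of_ne hi, zero_mul]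
        · intro h
          exact absurd (Finset.mem_univ _) h
      rw [h2, h3] at h1
      refine ⟨b' * (1 - c (L2_col (kv a π k))) * (if j₀ = j then 1 else 0) + 3 * w, ?_⟩
      show Algebra.trace F K ((β j : K) *
        (((uu u (fun i => kv a π k i / ((m + 1 : ℕ) : ℤ)) : 𝓞 K) : K) * L0 (L2_col (kv a π k)))) = _
      rw [hw, h1, ← map_add]
      congr 1
      rw [hs]
      simp only [Yv]
      ring
    choose W hW using hY
    let Y : Matrix (Fin (m + 1)) (Fin (m + 1)) O := fun k j => (if s k = j then 1 else 0) + 2 * W k j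
    refine ⟨Y.det, L2_det s Y W fun k j => rfl, fun y => ?_⟩
    refine ⟨∑ j, algebraMap O (𝓞 K) ((Y.adjugate.mulVec y) j) * β j,
      b.sum_mem fun j _ => b.mul_mem_left _ (hβ j), fun k => ?_⟩
    rw [L2_coe_sum, Finset.sum_mul, map_sum]
    have h1 : ∀ j, Algebra.trace F K
        (((algebraMap O (𝓞 K) ((Y.adjugate.mulVec y) j) * β j : 𝓞 K) : K) * L (kv a π k)) =
          algebraMap O F (Y k j * (Y.adjugate.mulVec y) j) := by
      intro j
      rw [L2_coe_mul, mul_assoc, L2_trace_mul, hW k j, mul_comm, ← map_mul]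
    rw [Finset.sum_congr rfl fun j _ => h1 j, ← map_sum]
    congr 1
    have h2 : Y.mulVec (Y.adjugate.mulVec y) = Y.det • y := by
      rw [Matrix.mulVec_mulVec, Matrix.mul_adjugate, Matrix.smul_mulVec, Matrix.one_mulVec]
    exact congrFun h2 k

/-- The labels of a simplex are linearly independent over F: if sum_k f_k L_k = 0, multiply by x in b with Tr(x L_k) = d y_k and take traces: sum_k f_k d y_k = 0 for all y in
O^n, d <> 0 (2 is not a unit of O). -/
theorem labels_indep (b : Ideal (𝓞 K)) (c₀ : 𝓞 K) (u : Fin m → (𝓞 K)ˣ) (L : (Fin m → ℤ) → K)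
    (hL : LabOk b c₀ u L) (a : Fin m → ℤ) (π : Equiv.Perm (Fin m)) :
    LinearIndependent F fun k : Fin (m + 1) => L (kv a π k) := by
  rw [Fintype.linearIndependent_iff]
  intro g hg k₀
  obtain ⟨d, hd, h⟩ := hL.odd a π
  obtain ⟨x, _, hx⟩ := h (Pi.single k₀ 1)
  have hd0 : d ≠ 0 := by
    rintro rfl
    exact two_prime.not_isUnit (isCoprime_zero_left.1 hd)
  have h1 := congrArg (fun t => Algebra.trace F K ((x : K) * t)) hg
  simp only [Finset.mul_sum, map_sum, mul_zero, map_zero, mul_smul_comm, map_smul, smul_eq_mul,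
    hx] at h1
  rw [Finset.sum_eq_single k₀] at h1
  · rw [Pi.single_eq_same, mul_one] at h1
    rcases mul_eq_zero.1 h1 with h2 | h2
    · exact h2
    · exfalso
      apply hd0
      exact RingOfIntegers.coe_injective (h2.trans (map_zero _).symm)
  · intro k _ hk
    rw [Pi.single_eq_of_ne hk, mul_zero, map_zero, mul_zero]
  · intro h
    exact absurd (Finset.mem_univ _) h

/-- The values on the class X = c₀ + 3 f b. -/
theorem labels_low (D : Ctx K m) (hE : Emb D.σ) (b f : Ideal (𝓞 K)) (c₀ : 𝓞 K)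
    (hD : D.I = Ideal.span {3} * f * b ∧ D.c₀ = c₀) (u : Fin m → (𝓞 K)ˣ) (L : (Fin m → ℤ) → K)
    (hL : LabOk b c₀ u L) (a : Fin m → ℤ) :
    ∀ x ∈ D.X, (∃ y : O, D.Tr (L a) x = e (1 + lam * y)) ∧ 1 ≤ ‖D.Tr (L a) x‖ := by
  intro x hx
  have key : ∃ y : O, D.Tr (L a) x = e (1 + lam * y) := by
    have hx1 : x - c₀ ∈ Ideal.span {(3 : 𝓞 K)} * (f * b) := by
      have h0 : Ideal.span {(3 : 𝓞 K)} * (f * b) = D.I := by
        rw [hD.1]
        exact (mul_assoc _ _ _).symm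
      rw [h0, ← hD.2]
      exact hx
    obtain ⟨t, ht, hxt⟩ := Ideal.mem_span_singleton_mul.1 hx1
    have htb : t ∈ b := Ideal.mul_le_right ht
    obtain ⟨y, hy⟩ := hL.one a
    obtain ⟨w, hw⟩ := hL.int a t htb
    obtain ⟨t3, ht3⟩ := L2_lam_three
    refine ⟨y + t3 * w, ?_⟩
    rw [Tr_eq D hE]
    have h1 : (x : K) * L a = (c₀ : K) * L a +
        ((algebraMap O (𝓞 K) 3 : 𝓞 K) : K) * ((t : K) * L a) := by
      have h2 : x = c₀ + 3 * t := by linear_combination -hxt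
      rw [h2, map_ofNat, L2_coe_add, L2_coe_mul]
      ring
    rw [h1, map_add, L2_trace_mul, hy, hw, ← map_mul (algebraMap O F), ← map_add (algebraMap O F)]
    show e _ = e _
    congr 1
    linear_combination w * ht3
  refine ⟨key, ?_⟩
  obtain ⟨y, hy⟩ := key
  rw [hy]
  have h1 := Nm_eq (1 + lam * y)
  have h2 : 1 ≤ Nm (1 + lam * y) := by
    rw [Nat.one_le_iff_ne_zero]
    intro h0
    have h3 := Nm_eq_zero.1 h0
    apply L2_lam_prime.not_isUnit
    apply isUnit_of_dvd_one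
    exact ⟨-y, by linear_combination h3⟩
  have h3 : (1 : ℝ) ≤ Nm (1 + lam * y) := by exact_mod_cast h2
  rw [h1] at h3
  nlinarith [norm_nonneg (e (1 + lam * y))]

end H55N
end

-- from Lib.H55N.E9
section

open NumberField IsDedekindDomain

namespace H55N

open H55B H55C

variable {K : Type} [Field K] [NumberField K] [Algebra F K] {m : ℕ}

/-! Chunk E9 (M). The integer m₀. f is prime to 2, so it contains an odd natural number N_f (absNorm f, odd: f + (2) = O_K); p_i in c_i, p_i odd (hp). LabOk.odd gives d in O prime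
to 2 with: for every y there is x in b with Tr(x L_k) = d y_k. Let N_d = Nm d (odd, divisible by d: Nm d = d conj d; IsCoprime d 2 implies that Nm d is odd). Put
m₀ = 3 N_f (prod p_i) N_d: for y in O^n choose x' in b with Tr(x' L_k) = d (N_d/d) y_k = N_d y_k; x = 3 N_f (prod p_i) x' is in 3 f b = D.I and in all c_i, Tr(x L_k) = m₀ y_k. -/

theorem E9_not_unit (K : Type) [Field K] [NumberField K] : ¬ IsUnit (2 : 𝓞 K) := by
  intro h
  have h1 : Ideal.absNorm (Ideal.span {(2 : 𝓞 K)}) = 1 := by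
    rw [Ideal.span_singleton_eq_top.2 h, Ideal.absNorm_top]
  rw [Ideal.absNorm_span_singleton] at h1
  have h2 : (2 : 𝓞 K) = algebraMap ℤ (𝓞 K) 2 := (map_ofNat _ 2).symm
  rw [h2, Algebra.norm_algebraMap, Int.natAbs_pow] at h1
  have h3 : Module.finrank ℤ (𝓞 K) ≠ 0 := by
    rw [RingOfIntegers.rank]
    exact Module.finrank_pos.ne'
  have h4 : Int.natAbs 2 = 2 := rfl
  rw [h4] at h1
  exact absurd h1 (Nat.one_lt_two_pow h3).ne'

theorem E9_odd {K : Type} [Field K] [NumberField K] (J : Ideal (𝓞 K))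
    (h : IsCoprime J (Ideal.span {2})) : Odd (Ideal.absNorm J) := by
  obtain ⟨a, ha, c, hc, hac⟩ := Ideal.isCoprime_iff_exists.1 h
  obtain ⟨c', rfl⟩ := Ideal.mem_span_singleton.1 hc
  have hJ : J ≠ ⊥ := by
    rintro rfl
    rw [Ideal.mem_bot] at ha
    rw [ha, zero_add] at hac
    exact E9_not_unit K (IsUnit.of_mul_eq_one _ hac)
  rw [← Nat.not_even_iff_odd]
  intro hev
  have hfin : Finite (𝓞 K ⧸ J) := Ideal.finiteQuotientOfFreeOfNeBot J hJ
  have hcard : 2 ∣ Nat.card (𝓞 K ⧸ J) := by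
    have : Ideal.absNorm J = Nat.card (𝓞 K ⧸ J) := rfl
    rw [← this]
    exact hev.two_dvd
  haveI : Fact (Nat.Prime 2) := ⟨Nat.prime_two⟩
  obtain ⟨x, hx⟩ := exists_prime_addOrderOf_dvd_card' 2 hcard
  have h2 : (2 : ℕ) • x = 0 := by rw [← hx]; exact addOrderOf_nsmul_eq_zero x
  have h3 : (Ideal.Quotient.mk J) a = 0 := Ideal.Quotient.eq_zero_iff_mem.2 ha
  have h4 : (Ideal.Quotient.mk J) (a + 2 * c') = 1 := by rw [hac, map_one]
  rw [map_add, h3, zero_add, map_mul] at h4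
  have h5 : x = 0 := by
    have h6 : (Ideal.Quotient.mk J) 2 = 2 := map_ofNat _ 2
    rw [h6] at h4
    calc x = (2 * (Ideal.Quotient.mk J) c') * x := by rw [h4, one_mul]
      _ = (Ideal.Quotient.mk J) c' * ((2 : ℕ) • x) := by rw [nsmul_eq_mul]; push_cast; ring
      _ = 0 := by rw [h2, mul_zero]
  rw [h5, addOrderOf_zero] at hx
  exact absurd hx (by norm_num)

theorem m0_exists (D : Ctx K m) (hD : D.Ok) (b f : Ideal (𝓞 K)) (hf2 : IsCoprime f (Ideal.span {2}))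
    (hI : D.I = Ideal.span {3} * f * b) (hp : ∀ i, D.p i ≠ 2) (u : Fin m → (𝓞 K)ˣ)
    (L : (Fin m → ℤ) → K) (hL : LabOk b D.c₀ u L) (a : Fin m → ℤ) (π : Equiv.Perm (Fin m)) :
    ∃ m₀ : ℕ, Odd m₀ ∧ 3 ∣ m₀ ∧ ∀ y : Fin (m + 1) → O, ∃ x : 𝓞 K, x ∈ D.I ∧ (∀ i, x ∈ D.c i) ∧
      ∀ k : Fin (m + 1), D.Tr (L (kv a π k)) x = m₀ * e (y k) := by
  classical
  obtain ⟨d, hd2, hd⟩ := hL.odd a π
  have hNf := E9_odd f hf2
  have hNd : Odd (Nm d) := by
    refine E9_odd (K := F) (Ideal.span {d}) ?_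
    rw [Ideal.isCoprime_span_singleton_iff]
    exact hd2
  have hP : Odd (∏ i, D.p i) := by
    refine Finset.prod_induction _ Odd (fun _ _ => Odd.mul) odd_one fun i _ => ?_
    exact (hD.smooth.prime i).odd_of_ne_two (hp i)
  refine ⟨3 * Ideal.absNorm f * (∏ i, D.p i) * Nm d, ?_, ?_, fun y => ?_⟩
  · exact (((by decide : Odd 3).mul hNf).mul hP).mul hNd
  · exact ⟨Ideal.absNorm f * (∏ i, D.p i) * Nm d, by ring⟩
  · obtain ⟨x, hx, hxk⟩ := hd fun k => cj d * y k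
    refine ⟨((3 * Ideal.absNorm f * (∏ i, D.p i) : ℕ) : 𝓞 K) * x, ?_, ?_, ?_⟩
    · rw [hI]
      refine Ideal.mul_mem_mul ?_ hx
      have h1 : (3 : 𝓞 K) * (Ideal.absNorm f : 𝓞 K) ∈ Ideal.span {3} * f :=
        Ideal.mul_mem_mul (Ideal.mem_span_singleton_self _) (Ideal.absNorm_mem f)
      have h2 : ((3 * Ideal.absNorm f * (∏ i, D.p i) : ℕ) : 𝓞 K) =
          ((∏ i, D.p i : ℕ) : 𝓞 K) * ((3 : 𝓞 K) * (Ideal.absNorm f : 𝓞 K)) := by
        push_cast; ring
      rw [h2]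
      exact Ideal.mul_mem_left _ _ h1
    · intro i
      refine Ideal.mul_mem_right _ _ ?_
      have h1 : ((D.p i : ℕ) : 𝓞 K) ∈ D.c i := by
        rw [← hD.smooth.norm i]
        exact Ideal.absNorm_mem _
      obtain ⟨t, ht⟩ : D.p i ∣ 3 * Ideal.absNorm f * (∏ i, D.p i) :=
        (Finset.dvd_prod_of_mem _ (Finset.mem_univ i)).mul_left _
      rw [ht, Nat.cast_mul]
      exact Ideal.mul_mem_right _ _ h1
    · intro k
      rw [Tr_eq D hD.emb]
      have h1 : ((((3 * Ideal.absNorm f * (∏ i, D.p i) : ℕ) : 𝓞 K) * x : 𝓞 K) : K) *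
          L (kv a π k) = ((3 * Ideal.absNorm f * (∏ i, D.p i) : ℕ) : F) • ((x : K) * L (kv a π k)) := by
        have h2 : ((((3 * Ideal.absNorm f * (∏ i, D.p i) : ℕ) : 𝓞 K) * x : 𝓞 K) : K) =
            ((3 * Ideal.absNorm f * (∏ i, D.p i) : ℕ) : K) * (x : K) := by
          have h := map_mul (algebraMap (𝓞 K) K)
            ((3 * Ideal.absNorm f * (∏ i, D.p i) : ℕ) : 𝓞 K) x
          rw [map_natCast] at h
          exact h
        rw [h2, Algebra.smul_def, map_natCast]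
        ring
      rw [h1, map_smul, hxk k, smul_eq_mul, map_mul, map_natCast]
      have h3 : d * (cj d * y k) = (Nm d : O) * y k := by rw [← mul_assoc, mul_cj]
      rw [h3]
      have h4 : emb ((algebraMap O F) ((Nm d : O) * y k)) = (Nm d : ℂ) * e (y k) := by
        show e ((Nm d : O) * y k) = _
        rw [map_mul, map_natCast]
      rw [h4]
      push_cast
      ring

end H55N
end

-- from Lib.H55P.B11
section

open NumberField IsDedekindDomain

namespace H55P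

open H55N
open H55B (g)

variable {F : Type} [Field F] [NumberField F] [IQ F] {K : Type} [Field K] [NumberField K] [Algebra F K] {m : ℕ}
  {P ι : Type} [Fintype ι] [DecidableEq ι]

/-! Chunk B11 (M). The cutoff functions. cut = (1/h_R)^(m+2), h_R = 1 + q(x)/R^2, q(x) = sum_i |sum_j B_ij σ_j x|^2.
c sz^2 <= q(x) <= C sz^2 on Y: B is invertible, so |σ x| <= C |B σ x|, and sz_le. h_R is SV uniformly in R >= 1 (|y-w|^2 <= 2|y|^2+2|w|^2 for the vectors
B σ x). q is Good with weight sz^2 (products of additive functions with their conjugates, as in B9), so q/R^2 is Good with weight sz^2/R^2 <= C h_R, so h_R is Good with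
weight h_R (Good.add with the constant 1, Good.mono); Good.inv, Good.pow, Good.mono (h_R >= 1).
cut_le: 0 <= cut <= 1, and for R >= 1 cut <= C_R sz^(-2(m+2)) on Y. cut_tendsto: for fixed x, cut -> 1 as R -> infinity. -/

/-- The linear forms. -/
noncomputable def b11L (D : Ctx F K m) (B : Matrix (Fin (m + 1)) (Fin (m + 1)) ℂ) (i : Fin (m + 1))
    (x : 𝓞 K) : ℂ := ∑ j, B i j * D.σ j x

/-- The quadratic form. -/
noncomputable def b11q (D : Ctx F K m) (B : Matrix (Fin (m + 1)) (Fin (m + 1)) ℂ) (x : 𝓞 K) : ℝ :=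
  ∑ i, ‖b11L D B i x‖ ^ 2

theorem b11q_nonneg (D : Ctx F K m) (B : Matrix (Fin (m + 1)) (Fin (m + 1)) ℂ) (x : 𝓞 K) :
    0 ≤ b11q D B x := Finset.sum_nonneg fun _ _ => by positivity

theorem b11_cut (D : Ctx F K m) (B : Matrix (Fin (m + 1)) (Fin (m + 1)) ℂ) (R : ℝ) (x : 𝓞 K) :
    D.cut B R x = (R ^ 2 / (R ^ 2 + b11q D B x)) ^ (m + 2) := rfl

theorem b11_low (D : Ctx F K m) (hE : Emb F D.σ) (B : Matrix (Fin (m + 1)) (Fin (m + 1)) ℂ)
    (hB : B.det ≠ 0) : ∃ c : ℝ, 0 < c ∧ ∀ x : 𝓞 K, x ≠ 0 → c * D.sz x ^ 2 ≤ b11q D B x := by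
  set M : ℝ := ∑ j, ∑ i, ‖B⁻¹ j i‖ with hM
  have hM0 : 0 ≤ M := Finset.sum_nonneg fun _ _ => Finset.sum_nonneg fun _ _ => norm_nonneg _
  have hden : 0 < 4 * M ^ 2 * (m + 1) + 1 := by positivity
  refine ⟨(4 * M ^ 2 * (m + 1) + 1)⁻¹, inv_pos.2 hden, fun x hx => ?_⟩
  obtain ⟨h1, h2⟩ := sz_le D hE x hx
  have hu : IsUnit B.det := isUnit_iff_ne_zero.2 hB
  have h3 : ∀ j, D.σ j x = ∑ i, B⁻¹ j i * b11L D B i x := by
    intro j
    have e1 : (B⁻¹ * B).mulVec (fun j => D.σ j x) = fun j => D.σ j x := by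
      rw [Matrix.nonsing_inv_mul _ hu, Matrix.one_mulVec]
    rw [← Matrix.mulVec_mulVec] at e1
    have e2 := congrFun e1 j
    rw [← e2]
    rfl
  set S : ℝ := ∑ i, ‖b11L D B i x‖ with hS
  have hS0 : 0 ≤ S := Finset.sum_nonneg fun _ _ => norm_nonneg _
  have h4 : ∑ j, ‖D.σ j x‖ ≤ M * S := by
    rw [hM, Finset.sum_mul]
    refine Finset.sum_le_sum fun j _ => ?_
    rw [h3 j, Finset.sum_mul]
    refine (norm_sum_le _ _).trans (Finset.sum_le_sum fun i _ => ?_)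
    rw [norm_mul]
    exact mul_le_mul_of_nonneg_left
      (Finset.single_le_sum (f := fun i => ‖b11L D B i x‖) (fun _ _ => norm_nonneg _)
        (Finset.mem_univ i)) (norm_nonneg _)
  have h5 : S ^ 2 ≤ (m + 1) * b11q D B x := by
    have := sq_sum_le_card_mul_sum_sq (s := (Finset.univ : Finset (Fin (m + 1))))
      (f := fun i => ‖b11L D B i x‖)
    rw [Finset.card_univ, Fintype.card_fin] at this
    push_cast at this
    exact this
  have h6 : D.sz x ≤ 2 * (M * S) := by linarith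
  have h7 : D.sz x ^ 2 ≤ (2 * (M * S)) ^ 2 := pow_le_pow_left₀ (D.sz_pos x).le h6 2
  have h8 : (2 * (M * S)) ^ 2 ≤ 4 * M ^ 2 * ((m + 1) * b11q D B x) := by
    have : (2 * (M * S)) ^ 2 = 4 * M ^ 2 * S ^ 2 := by ring
    rw [this]
    exact mul_le_mul_of_nonneg_left h5 (by positivity)
  have h9 := b11q_nonneg D B x
  rw [inv_mul_le_iff₀ hden]
  nlinarith

theorem b11_scale {M' : Type} [AddCommGroup M'] {X : Set M'} {w : ι → M'} {γ : ι → M' → ℝ}
    {β : P → M' → ℝ} {h : P → M' → ℂ} (h1 : Good X w γ β h) (a : P → ℝ) (ha : ∀ q, 0 ≤ a q) :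
    Good X w γ (fun q x => a q * β q x) (fun q x => (a q : ℂ) * h q x) := by
  obtain ⟨C, hC⟩ := h1
  refine ⟨C, fun q S x hx => ?_⟩
  rw [dif_const_mul, norm_mul, Complex.norm_real, Real.norm_eq_abs, abs_of_nonneg (ha q)]
  have := mul_le_mul_of_nonneg_left (hC q S x hx) (ha q)
  calc a q * ‖Dif w S (h q) x‖ ≤ a q * (C * β q x * ∏ i ∈ S, γ i x) := this
    _ = C * (a q * β q x) * ∏ i ∈ S, γ i x := by ring

theorem b11_goodL (D : Ctx F K m) (w : ι → 𝓞 K) (Y : Set (𝓞 K))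
    (B : Matrix (Fin (m + 1)) (Fin (m + 1)) ℂ) (i : Fin (m + 1)) :
    Good Y w D.gs (fun (_ : P) x => D.sz x) (fun _ x => b11L D B i x) := by
  have hg : ∀ (i : ι), ∀ x ∈ Y, 0 ≤ D.gs i x := fun _ x _ => (inv_pos.mpr (D.sz_pos x)).le
  unfold b11L
  exact Good.sum (P := P) (Finset.univ : Finset (Fin (m + 1))) (fun j _ (x : 𝓞 K) => B i j * D.σ j x)
    (fun j _ => Good.smul (good_sig D w Y j) hg (fun _ x _ => (D.sz_pos x).le) (fun _ => B i j)
      ‖B i j‖ (fun _ => le_rfl)) hg (fun _ x _ => (D.sz_pos x).le)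

theorem b11_goodq (D : Ctx F K m) (w : ι → 𝓞 K) (Y : Set (𝓞 K)) (hY : ∀ x ∈ Y, ∀ i, x - w i ∈ Y)
    (B : Matrix (Fin (m + 1)) (Fin (m + 1)) ℂ) :
    Good Y w D.gs (fun (_ : P) x => D.sz x ^ 2) (fun _ x => (b11q D B x : ℂ)) := by
  have hg : ∀ (i : ι), ∀ x ∈ Y, 0 ≤ D.gs i x := fun _ x _ => (inv_pos.mpr (D.sz_pos x)).le
  have h1 : ∀ i : Fin (m + 1), Good Y w D.gs (fun (_ : P) x => D.sz x ^ 2)
      (fun (_ : P) (x : 𝓞 K) => b11L D B i x * (starRingEnd ℂ) (b11L D B i x)) := by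
    intro i
    have h2 := Good.mul hY (sv_gs D w Y) (sv_sz (P := P) D w Y) (sv_sz (P := P) D w Y)
      (b11_goodL D w Y B i) (Good.conj (b11_goodL D w Y B i))
    have h4 : (fun (_ : P) (x : 𝓞 K) => D.sz x ^ 2) = fun _ x => D.sz x * D.sz x := by
      funext _ x
      ring
    rw [h4]
    exact h2
  have h5 := Good.sum (Finset.univ : Finset (Fin (m + 1))) _ (fun i _ => h1 i) hg
    (fun _ x _ => by positivity)
  have h6 : (fun (_ : P) (x : 𝓞 K) => (b11q D B x : ℂ)) =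
      fun (_ : P) (x : 𝓞 K) => ∑ i, b11L D B i x * (starRingEnd ℂ) (b11L D B i x) := by
    funext q x
    unfold b11q
    rw [Complex.ofReal_sum]
    refine Finset.sum_congr rfl fun i _ => ?_
    rw [Complex.mul_conj, Complex.normSq_eq_norm_sq]
  rw [h6]
  exact h5

/-- The slowly varying weight. -/
noncomputable def b11b (D : Ctx F K m) (R : P → ℝ) (q : P) (x : 𝓞 K) : ℝ :=
  1 + ((R q) ^ 2)⁻¹ * D.sz x ^ 2

theorem b11_sv (D : Ctx F K m) (w : ι → 𝓞 K) (Y : Set (𝓞 K)) (hY : ∀ x ∈ Y, ∀ i, x - w i ∈ Y)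
    (R : P → ℝ) : SV Y w (b11b D R) := by
  obtain ⟨C, hC, h⟩ := B8_one hY (SV.pow hY (sv_sz (P := P) D w Y) 2)
  refine ⟨fun q x _ => by unfold b11b; have := D.sz_pos x; positivity, C, fun q x hx i => ?_⟩
  obtain ⟨h1, h2⟩ := h q x hx i
  have hR : 0 ≤ ((R q) ^ 2)⁻¹ := by positivity
  unfold b11b
  constructor
  · have := mul_le_mul_of_nonneg_left h1 hR
    nlinarith
  · have := mul_le_mul_of_nonneg_left h2 hR
    nlinarith

theorem good_cut (D : Ctx F K m) (hE : Emb F D.σ) (w : ι → 𝓞 K) (Y : Set (𝓞 K))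
    (hY : ∀ x ∈ Y, ∀ i, x - w i ∈ Y) (h0 : (0 : 𝓞 K) ∉ Y)
    (B : Matrix (Fin (m + 1)) (Fin (m + 1)) ℂ) (hB : B.det ≠ 0) (R : P → ℝ) (hR : ∀ q, 1 ≤ R q) :
    Good Y w D.gs (fun (_ : P) _ => (1 : ℝ)) (fun q x => (D.cut B (R q) x : ℂ)) := by
  have hg : ∀ (i : ι), ∀ x ∈ Y, 0 ≤ D.gs i x := fun _ x _ => (inv_pos.mpr (D.sz_pos x)).le
  have hb0 : ∀ q, ∀ x ∈ Y, 0 ≤ b11b D R q x := fun q x _ => by unfold b11b; positivity
  have h1 : Good Y w D.gs (b11b D R) (fun (_ : P) _ => (1 : ℂ)) :=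
    Good.const hb0 hg (fun _ => 1) 1 (fun q x _ => by
      unfold b11b
      rw [norm_one, one_mul]
      have : 0 ≤ ((R q) ^ 2)⁻¹ * D.sz x ^ 2 := by positivity
      linarith)
  have h2 := b11_scale (b11_goodq (P := P) D w Y hY B) (fun q => ((R q) ^ 2)⁻¹)
    (fun q => by positivity)
  have h3 : Good Y w D.gs (b11b D R)
      (fun (q : P) x => ((((R q) ^ 2)⁻¹ : ℝ) : ℂ) * (b11q D B x : ℂ)) := by
    refine Good.mono h2 hg 1 zero_le_one (fun q x _ => ⟨by positivity, ?_⟩) (fun i x _ => by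
      rw [one_mul])
    unfold b11b
    linarith
  have h4 := Good.add h1 h3
  obtain ⟨c, hc, hlow⟩ := b11_low D hE B hB
  have h5 := Good.inv hY (sv_gs D w Y) (b11_sv D w Y hY R) h4 (min 1 c) (lt_min one_pos hc) (by
    intro q x hx
    have hx0 : x ≠ 0 := by
      rintro rfl
      exact h0 hx
    have e1 := hlow x hx0
    have hR' : 0 ≤ ((R q) ^ 2)⁻¹ := by positivity
    have e2 : ‖(1 : ℂ) + ((((R q) ^ 2)⁻¹ : ℝ) : ℂ) * (b11q D B x : ℂ)‖ =
        1 + ((R q) ^ 2)⁻¹ * b11q D B x := by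
      rw [← Complex.ofReal_one, ← Complex.ofReal_mul, ← Complex.ofReal_add, Complex.norm_real,
        Real.norm_eq_abs, abs_of_nonneg]
      have := b11q_nonneg D B x
      positivity
    rw [e2]
    unfold b11b
    have e3 : min 1 c ≤ 1 := min_le_left _ _
    have e4 : min 1 c ≤ c := min_le_right _ _
    have e5 : min 1 c * D.sz x ^ 2 ≤ b11q D B x :=
      (mul_le_mul_of_nonneg_right e4 (by positivity)).trans e1
    have e6 := mul_le_mul_of_nonneg_left e5 hR'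
    nlinarith)
  have h6 := Good.pow hY (sv_gs D w Y) (SV.inv hY (b11_sv D w Y hY R)) h5 (m + 2)
  have h7 : (fun (q : P) (x : 𝓞 K) => (D.cut B (R q) x : ℂ)) = fun (q : P) (x : 𝓞 K) =>
      ((1 + ((((R q) ^ 2)⁻¹ : ℝ) : ℂ) * (b11q D B x : ℂ))⁻¹) ^ (m + 2) := by
    funext q x
    rw [b11_cut]
    push_cast
    congr 1
    have hq := b11q_nonneg D B x
    have hR2 : (0 : ℝ) < (R q) ^ 2 := by have := hR q; positivity
    have e1 : (1 + ((R q) ^ 2)⁻¹ * b11q D B x) ≠ 0 := by positivity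
    have e2 : (R q) ^ 2 + b11q D B x ≠ 0 := by positivity
    have e3' : (R q) ^ 2 + b11q D B x = (R q) ^ 2 * (1 + ((R q) ^ 2)⁻¹ * b11q D B x) := by
      rw [mul_add, mul_one, mul_inv_cancel_left₀ hR2.ne']
    have e3 : (R q) ^ 2 / ((R q) ^ 2 + b11q D B x) = (1 + ((R q) ^ 2)⁻¹ * b11q D B x)⁻¹ := by
      rw [e3', div_mul_cancel_left₀ hR2.ne']
    have e4 := congrArg (fun r : ℝ => (r : ℂ)) e3
    push_cast at e4
    exact e4
  rw [h7]
  refine Good.mono h6 hg 1 zero_le_one (fun q x _ => ⟨?_, ?_⟩) (fun i x _ => by rw [one_mul])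
  · have : 0 ≤ b11b D R q x := by unfold b11b; positivity
    positivity
  · rw [one_mul]
    apply pow_le_one₀
    · exact inv_nonneg.2 (by unfold b11b; positivity)
    · apply inv_le_one_of_one_le₀
      unfold b11b
      have : 0 ≤ ((R q) ^ 2)⁻¹ * D.sz x ^ 2 := by positivity
      linarith

theorem cut_le (D : Ctx F K m) (hE : Emb F D.σ) (B : Matrix (Fin (m + 1)) (Fin (m + 1)) ℂ)
    (hB : B.det ≠ 0) (R : ℝ) (hR : 1 ≤ R) : ∃ C : ℝ, ∀ x : 𝓞 K, x ≠ 0 →
      |D.cut B R x| ≤ C * D.sz x ^ (-(2 * (m + 2) : ℝ)) := by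
  obtain ⟨c, hc, hlow⟩ := b11_low D hE B hB
  refine ⟨(R ^ 2 / c) ^ (m + 2), fun x hx => ?_⟩
  have h1 := hlow x hx
  have hs := D.sz_pos x
  have hq := b11q_nonneg D B x
  rw [b11_cut, abs_of_nonneg (by positivity)]
  have e1 : D.sz x ^ (-(2 * (m + 2) : ℝ)) = ((D.sz x ^ 2)⁻¹) ^ (m + 2) := by
    rw [Real.rpow_neg hs.le, inv_pow, ← pow_mul, ← Real.rpow_natCast]
    push_cast
    rfl
  rw [e1, ← mul_pow]
  apply pow_le_pow_left₀ (by positivity)
  have e2 : R ^ 2 / c * (D.sz x ^ 2)⁻¹ = R ^ 2 / (c * D.sz x ^ 2) := by field_simp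
  rw [e2]
  apply div_le_div_of_nonneg_left (by positivity) (by positivity)
  nlinarith [sq_nonneg R]

theorem cut_tendsto (D : Ctx F K m) (B : Matrix (Fin (m + 1)) (Fin (m + 1)) ℂ) (x : 𝓞 K) :
    Filter.Tendsto (fun R : ℝ => (D.cut B R x : ℂ)) Filter.atTop (nhds 1) := by
  have h1 : Filter.Tendsto (fun R : ℝ => R ^ 2 + b11q D B x) Filter.atTop Filter.atTop :=
    Filter.tendsto_atTop_add_const_right _ _ (Filter.tendsto_pow_atTop (by norm_num))
  have h2 : Filter.Tendsto (fun R : ℝ => b11q D B x / (R ^ 2 + b11q D B x)) Filter.atTop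
      (nhds 0) := tendsto_const_nhds.div_atTop h1
  have h3 : Filter.Tendsto (fun R : ℝ => (1 - b11q D B x / (R ^ 2 + b11q D B x)) ^ (m + 2))
      Filter.atTop (nhds ((1 - 0) ^ (m + 2))) := (tendsto_const_nhds.sub h2).pow _
  rw [sub_zero, one_pow] at h3
  have h4 : Filter.Tendsto (fun R : ℝ => D.cut B R x) Filter.atTop (nhds 1) := by
    refine h3.congr' ?_
    filter_upwards [Filter.eventually_ge_atTop 1] with R hR
    rw [b11_cut]
    congr 1
    have hq := b11q_nonneg D B x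
    have : R ^ 2 + b11q D B x ≠ 0 := by positivity
    field_simp
    ring
  have h5 := (Complex.continuous_ofReal.tendsto 1).comp h4
  rw [Complex.ofReal_one] at h5
  exact h5

end H55P
end

-- from Lib.H55P.R1
section

open NumberField IsDedekindDomain

namespace H55P

open H55N
open H55B (g)

variable {F : Type} [Field F] [NumberField F] [IQ F] {K : Type} [Field K] [NumberField K] [Algebra F K] {m : ℕ}

/-! Chunk R1 (M). Rules for HasReg. g is bounded (gw is a finite product of 1 or 1 - p_i). summable_cut: for h bounded on X and R >= 1 the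
function g h cut is absolutely summable over X: |cut| <= C sz^(-2(m+2)) (cut_le; 0 is not in X), 2(m+2) > 2(m+1), sum_sz (restricted to the subtype X:
Summable.subtype / comp_injective). Then add, smul, sum: tsum_add etc. for R >= 1 (Filter.Tendsto.congr'). unique: B = 1, tendsto_nhds_unique. congr: only
values on X matter. Jv_eq: definition and unique; Jv_congr. -/

theorem g_bdd (D : Ctx F K m) : ∃ C : ℝ, ∀ x, ‖D.g x‖ ≤ C := by
  refine ⟨∏ i, (1 + (D.p i : ℝ)), fun x => ?_⟩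
  unfold Ctx.g gw
  rw [norm_prod]
  refine Finset.prod_le_prod (fun i _ => norm_nonneg _) fun i _ => ?_
  split_ifs
  · refine (norm_sub_le _ _).trans ?_
    simp
  · simp

theorem summable_cut (D : Ctx F K m) (hD : D.Ok) (h : 𝓞 K → ℂ) (hb : ∃ C : ℝ, ∀ x ∈ D.X, ‖h x‖ ≤ C)
    (B : Matrix (Fin (m + 1)) (Fin (m + 1)) ℂ) (hB : B.det ≠ 0) (R : ℝ) (hR : 1 ≤ R) :
    Summable fun x : D.X => ‖h x * (D.cut B R x : ℂ)‖ := by
  obtain ⟨C, hC⟩ := hb
  obtain ⟨C', hC'⟩ := cut_le D hD.emb B hB R hR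
  have h1 : Summable fun x : 𝓞 K => D.sz x ^ (-(2 * (m + 2) : ℝ)) :=
    sum_sz D hD.emb _ (by linarith)
  have h2 : Summable fun x : D.X => D.sz (x : 𝓞 K) ^ (-(2 * (m + 2) : ℝ)) :=
    h1.comp_injective Subtype.val_injective
  refine (h2.mul_left (|C| * C')).of_nonneg_of_le (fun x => norm_nonneg _) fun x => ?_
  rw [norm_mul, Complex.norm_real, Real.norm_eq_abs, mul_assoc]
  have h3 := hC' x (D.X_ne hD.ne x.2)
  exact mul_le_mul ((hC x x.2).trans (le_abs_self C)) h3 (abs_nonneg _) (abs_nonneg _)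

theorem r1_summable (D : Ctx F K m) (hD : D.Ok) (h : 𝓞 K → ℂ) (hb : ∃ C : ℝ, ∀ x ∈ D.X, ‖h x‖ ≤ C)
    (B : Matrix (Fin (m + 1)) (Fin (m + 1)) ℂ) (hB : B.det ≠ 0) (R : ℝ) (hR : 1 ≤ R) :
    Summable fun x : D.X => D.g x * h x * (D.cut B R x : ℂ) := by
  apply Summable.of_norm
  apply summable_cut D hD (fun x => D.g x * h x) _ B hB R hR
  obtain ⟨C, hC⟩ := hb
  obtain ⟨C', hC'⟩ := g_bdd D
  refine ⟨C' * C, fun x hx => ?_⟩
  rw [norm_mul]
  exact mul_le_mul (hC' x) (hC x hx) (norm_nonneg _) ((norm_nonneg _).trans (hC' x))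

theorem HasReg.unique (D : Ctx F K m) {h : 𝓞 K → ℂ} {S S' : ℂ} (h1 : D.HasReg h S)
    (h2 : D.HasReg h S') : S = S' := by
  have hB : (1 : Matrix (Fin (m + 1)) (Fin (m + 1)) ℂ).det ≠ 0 := by
    rw [Matrix.det_one]
    exact one_ne_zero
  exact tendsto_nhds_unique (h1.2 1 hB) (h2.2 1 hB)

theorem HasReg.congr (D : Ctx F K m) {h k : 𝓞 K → ℂ} {S : ℂ} (h1 : D.HasReg h S)
    (hk : ∀ x ∈ D.X, h x = k x) : D.HasReg k S := by
  obtain ⟨⟨C, hC⟩, h2⟩ := h1
  refine ⟨⟨C, fun x hx => by rw [← hk x hx]; exact hC x hx⟩, fun B hB => ?_⟩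
  refine (h2 B hB).congr fun R => ?_
  exact tsum_congr fun x => by rw [hk x x.2]

theorem HasReg.smul (D : Ctx F K m) {h : 𝓞 K → ℂ} {S : ℂ} (h1 : D.HasReg h S) (c : ℂ) :
    D.HasReg (fun x => c * h x) (c * S) := by
  obtain ⟨⟨C, hC⟩, h2⟩ := h1
  refine ⟨⟨‖c‖ * C, fun x hx => ?_⟩, fun B hB => ?_⟩
  · rw [norm_mul]
    exact mul_le_mul_of_nonneg_left (hC x hx) (norm_nonneg _)
  · refine ((h2 B hB).const_mul c).congr fun R => ?_
    rw [← tsum_mul_left]
    exact tsum_congr fun x => by ring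

theorem HasReg.add (D : Ctx F K m) (hD : D.Ok) {h k : 𝓞 K → ℂ} {S S' : ℂ} (h1 : D.HasReg h S)
    (h2 : D.HasReg k S') : D.HasReg (fun x => h x + k x) (S + S') := by
  obtain ⟨⟨C, hC⟩, h3⟩ := h1
  obtain ⟨⟨C', hC'⟩, h4⟩ := h2
  refine ⟨⟨C + C', fun x hx => (norm_add_le _ _).trans (add_le_add (hC x hx) (hC' x hx))⟩,
    fun B hB => ?_⟩
  refine ((h3 B hB).add (h4 B hB)).congr' ?_
  filter_upwards [Filter.eventually_ge_atTop 1] with R hR
  rw [← (r1_summable D hD h ⟨C, hC⟩ B hB R hR).tsum_add (r1_summable D hD k ⟨C', hC'⟩ B hB R hR)]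
  exact tsum_congr fun x => by ring

theorem HasReg.zero (D : Ctx F K m) : D.HasReg (fun _ => 0) 0 := by
  refine ⟨⟨0, fun x _ => by simp⟩, fun B _ => ?_⟩
  simp

theorem HasReg.sum (D : Ctx F K m) (hD : D.Ok) {κ : Type} (s : Finset κ) (h : κ → 𝓞 K → ℂ)
    (S : κ → ℂ) (h1 : ∀ i ∈ s, D.HasReg (h i) (S i)) :
    D.HasReg (fun x => ∑ i ∈ s, h i x) (∑ i ∈ s, S i) := by
  classical
  induction s using Finset.induction_on with
  | empty =>
    simp only [Finset.sum_empty]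
    exact HasReg.zero D
  | insert a s ha ih =>
    simp only [Finset.sum_insert ha]
    exact HasReg.add D hD (h1 a (Finset.mem_insert_self a s))
      (ih fun i hi => h1 i (Finset.mem_insert_of_mem hi))

theorem Jv_eq (D : Ctx F K m) {L : Fin (m + 1) → Lab K m} {S : ℂ} (h : D.HasReg (D.Idet L) S) :
    D.Jv L = S := by
  have h1 : ∃ S, D.HasReg (D.Idet L) S := ⟨S, h⟩
  unfold Ctx.Jv
  rw [dif_pos h1]
  exact HasReg.unique D h1.choose_spec h

/-- Degenerate simplices: two equal rows. -/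
theorem Jv_degenerate (D : Ctx F K m) (L : Fin (m + 1) → Lab K m)
    (h : ∃ j : Fin m, L j.castSucc = L j.succ) : D.Jv L = 0 := by
  obtain ⟨j, hj⟩ := h
  apply Jv_eq
  refine HasReg.congr D (HasReg.zero D) fun x _ => ?_
  symm
  unfold Ctx.Idet
  have hne : j.castSucc ≠ j.succ := (Fin.castSucc_lt_succ).ne
  refine Matrix.det_zero_of_row_eq hne ?_
  funext i
  simp only [Matrix.of_apply]
  rw [hj]

end H55P
end

-- from Lib.H55P.R5
section

open NumberField IsDedekindDomain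

namespace H55P

open H55N
open H55B (g)

variable {F : Type} [Field F] [NumberField F] [IQ F] {K : Type} [Field K] [NumberField K] [Algebra F K] {m : ℕ}

/-! Chunk R5 (M). Invariance under units v with v X = X and N(v) = 1.
Idet(v L)(x) = Idet(L)(v x): row(v.T t)(x)_i = conj(x_i)|v_i|^2 t_i / sum_k |v_k|^2 t_k |x_k|^2 = v_i row(T t)(v x)_i, and
row(v.A a)(x)_i = v_i a_i/Tr(v a x) = v_i row(A a)(v x)_i; the columns give prod v_i = 1 (Matrix.det_mul_row). x -> v x is a bijection of X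
(v x - c0 = v (x - c0) + (v - 1) c0; inverse v^(-1)), g(v x) = g(x) (x in c_i iff v x in c_i), and cut B R x = cut (B diag(σ_j v)^(-1)) R (v x). So
HasReg (Idet L) S implies HasReg (Idet (v L)) S (for B use B diag(σ_j v)^(-1), of nonzero determinant), and conversely with v^(-1)
(act v (act v^(-1) l) = l). Jv: by cases on existence. -/

omit [NumberField K] [Algebra F K] in
theorem R5_mul (s : K →+* ℂ) (v x : 𝓞 K) : s ((v * x : 𝓞 K) : K) = s (v : K) * s (x : K) := by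
  have h : ((v * x : 𝓞 K) : K) = (v : K) * (x : K) := map_mul (algebraMap (𝓞 K) K) v x
  rw [h, map_mul]

theorem R5_row (D : Ctx F K m) (v : (𝓞 K)ˣ) (l : Lab K m) (x : 𝓞 K) (i : Fin (m + 1)) :
    D.row (D.act v l) x i = D.σ i ((v : 𝓞 K) : K) * D.row l (v * x) i := by
  cases l with
  | T t =>
    show (starRingEnd ℂ) (D.σ i x) * ((‖D.σ i ((v : 𝓞 K) : K)‖ ^ 2 * t i : ℝ) : ℂ) /
        (D.Q (fun i => ‖D.σ i ((v : 𝓞 K) : K)‖ ^ 2 * t i) x : ℂ) =
      D.σ i ((v : 𝓞 K) : K) * ((starRingEnd ℂ) (D.σ i ((v * x : 𝓞 K) : K)) * t i / D.Q t (v * x))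
    have hQ : D.Q (fun i => ‖D.σ i ((v : 𝓞 K) : K)‖ ^ 2 * t i) x = D.Q t (v * x) := by
      unfold Ctx.Q
      refine Finset.sum_congr rfl fun k _ => ?_
      have h := R5_mul (D.σ k) (v : 𝓞 K) x
      show ‖D.σ k ((v : 𝓞 K) : K)‖ ^ 2 * t k * ‖D.σ k (x : K)‖ ^ 2 =
        t k * ‖D.σ k (((v : 𝓞 K) * x : 𝓞 K) : K)‖ ^ 2
      rw [h, norm_mul]
      ring
    rw [hQ]
    have h1 : ((‖D.σ i ((v : 𝓞 K) : K)‖ ^ 2 * t i : ℝ) : ℂ) =
        D.σ i ((v : 𝓞 K) : K) * (starRingEnd ℂ) (D.σ i ((v : 𝓞 K) : K)) * t i := by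
      rw [Complex.mul_conj, Complex.normSq_eq_norm_sq]
      push_cast
      ring
    rw [h1, R5_mul (D.σ i) (v : 𝓞 K) x, map_mul]
    ring
  | A a =>
    show D.σ i (((v : 𝓞 K) : K) * a) / D.Tr (((v : 𝓞 K) : K) * a) x =
      D.σ i ((v : 𝓞 K) : K) * (D.σ i a / D.Tr a (v * x))
    have hT : D.Tr (((v : 𝓞 K) : K) * a) x = D.Tr a (v * x) := by
      unfold Ctx.Tr
      refine Finset.sum_congr rfl fun k _ => ?_
      congr 1
      have h : (((v : 𝓞 K) * x : 𝓞 K) : K) = ((v : 𝓞 K) : K) * (x : K) :=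
        map_mul (algebraMap (𝓞 K) K) (v : 𝓞 K) x
      rw [h]
      ring
    rw [hT, map_mul]
    ring

theorem R5_Idet (D : Ctx F K m) (v : (𝓞 K)ˣ) (hN : ∏ i, D.σ i ((v : 𝓞 K) : K) = 1)
    (L : Fin (m + 1) → Lab K m) (x : 𝓞 K) :
    D.Idet (fun j => D.act v (L j)) x = D.Idet L (v * x) := by
  unfold Ctx.Idet
  have h1 : (Matrix.of fun j i => D.row (D.act v (L j)) x i) =
      Matrix.of fun j i => D.σ i ((v : 𝓞 K) : K) * (Matrix.of fun j i => D.row (L j) (v * x) i) j i := by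
    ext j i
    simp only [Matrix.of_apply]
    exact R5_row D v (L j) x i
  rw [h1, Matrix.det_mul_row, hN, one_mul]

theorem R5_inv (D : Ctx F K m) (v : (𝓞 K)ˣ) (hv : ((v : 𝓞 K) - 1) * D.c₀ ∈ D.I) :
    (((v⁻¹ : (𝓞 K)ˣ) : 𝓞 K) - 1) * D.c₀ ∈ D.I := by
  have h1 : (((v⁻¹ : (𝓞 K)ˣ) : 𝓞 K) - 1) * D.c₀ =
      -((v⁻¹ : (𝓞 K)ˣ) : 𝓞 K) * (((v : 𝓞 K) - 1) * D.c₀) := by
    have h2 : ((v⁻¹ : (𝓞 K)ˣ) : 𝓞 K) * (v : 𝓞 K) = 1 := v.inv_mul
    linear_combination (D.c₀) * h2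
  rw [h1]
  exact D.I.mul_mem_left _ hv

theorem R5_memX (D : Ctx F K m) (v : (𝓞 K)ˣ) (hv : ((v : 𝓞 K) - 1) * D.c₀ ∈ D.I) {x : 𝓞 K}
    (hx : x ∈ D.X) : (v : 𝓞 K) * x ∈ D.X := by
  rw [Ctx.mem_X] at hx ⊢
  have : (v : 𝓞 K) * x - D.c₀ = v * (x - D.c₀) + (v - 1) * D.c₀ := by ring
  rw [this]
  exact D.I.add_mem (D.I.mul_mem_left _ hx) hv

/-- Multiplication by v as a permutation of X. -/
noncomputable def R5_equiv (D : Ctx F K m) (v : (𝓞 K)ˣ) (hv : ((v : 𝓞 K) - 1) * D.c₀ ∈ D.I) :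
    D.X ≃ D.X where
  toFun x := ⟨v * x, R5_memX D v hv x.2⟩
  invFun x := ⟨((v⁻¹ : (𝓞 K)ˣ) : 𝓞 K) * x, R5_memX D v⁻¹ (R5_inv D v hv) x.2⟩
  left_inv x := by
    apply Subtype.ext
    show ((v⁻¹ : (𝓞 K)ˣ) : 𝓞 K) * (v * x) = x
    rw [← mul_assoc, v.inv_mul, one_mul]
  right_inv x := by
    apply Subtype.ext
    show (v : 𝓞 K) * (((v⁻¹ : (𝓞 K)ˣ) : 𝓞 K) * x) = x
    rw [← mul_assoc, v.mul_inv, one_mul]

theorem R5_g (D : Ctx F K m) (v : (𝓞 K)ˣ) (x : 𝓞 K) : D.g (v * x) = D.g x := by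
  classical
  unfold Ctx.g gw
  refine Finset.prod_congr rfl fun i _ => ?_
  have h : (v : 𝓞 K) * x ∈ D.c i ↔ x ∈ D.c i := by
    constructor
    · intro h
      have h2 := (D.c i).mul_mem_left ((v⁻¹ : (𝓞 K)ˣ) : 𝓞 K) h
      rwa [← mul_assoc, v.inv_mul, one_mul] at h2
    · exact fun h => (D.c i).mul_mem_left _ h
  by_cases hx : x ∈ D.c i
  · rw [if_pos (h.2 hx), if_pos hx]
  · rw [if_neg (fun h' => hx (h.1 h')), if_neg hx]

theorem R5_ne (D : Ctx F K m) (v : (𝓞 K)ˣ) (j : Fin (m + 1)) : D.σ j ((v : 𝓞 K) : K) ≠ 0 :=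
  (map_ne_zero _).2 (NumberField.Units.coe_ne_zero _)

theorem R5_cut (D : Ctx F K m) (v : (𝓞 K)ˣ) (B : Matrix (Fin (m + 1)) (Fin (m + 1)) ℂ) (R : ℝ)
    (x : 𝓞 K) : D.cut (B * Matrix.diagonal fun j => (D.σ j ((v : 𝓞 K) : K))⁻¹) R (v * x) =
      D.cut B R x := by
  unfold Ctx.cut
  have h : ∀ i, ∑ j, (B * Matrix.diagonal fun j => (D.σ j ((v : 𝓞 K) : K))⁻¹) i j *
      D.σ j ((v * x : 𝓞 K) : K) = ∑ j, B i j * D.σ j x := by
    intro i
    refine Finset.sum_congr rfl fun j _ => ?_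
    rw [Matrix.mul_diagonal, R5_mul (D.σ j) (v : 𝓞 K) x]
    have := R5_ne D v j
    field_simp
  simp only [h]

theorem R5_reg (D : Ctx F K m) (v : (𝓞 K)ˣ) (hv : ((v : 𝓞 K) - 1) * D.c₀ ∈ D.I)
    {h : 𝓞 K → ℂ} {S : ℂ} (hS : D.HasReg h S) : D.HasReg (fun x => h (v * x)) S := by
  obtain ⟨⟨C, hC⟩, hB⟩ := hS
  refine ⟨⟨C, fun x hx => hC _ (R5_memX D v hv hx)⟩, fun B hdet => ?_⟩
  have hd : (B * Matrix.diagonal fun j => (D.σ j ((v : 𝓞 K) : K))⁻¹).det ≠ 0 := by
    rw [Matrix.det_mul, Matrix.det_diagonal]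
    exact mul_ne_zero hdet (Finset.prod_ne_zero_iff.2 fun j _ => inv_ne_zero (R5_ne D v j))
  have h1 := hB _ hd
  refine h1.congr fun R => ?_
  rw [← (R5_equiv D v hv).tsum_eq]
  refine tsum_congr fun x => ?_
  show D.g (v * x) * h (v * x) * (D.cut _ R (v * x) : ℂ) = _
  rw [R5_g, R5_cut]

theorem reg_act (D : Ctx F K m) (v : (𝓞 K)ˣ) (hv : ((v : 𝓞 K) - 1) * D.c₀ ∈ D.I)
    (hN : ∏ i, D.σ i ((v : 𝓞 K) : K) = 1) (L : Fin (m + 1) → Lab K m) (S : ℂ) :
    D.HasReg (D.Idet fun j => D.act v (L j)) S ↔ D.HasReg (D.Idet L) S := by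
  have h1 : (D.Idet fun j => D.act v (L j)) = fun x => D.Idet L (v * x) :=
    funext fun x => R5_Idet D v hN L x
  rw [h1]
  constructor
  · intro h
    have h2 := R5_reg D v⁻¹ (R5_inv D v hv) h
    have h3 : (fun x : 𝓞 K => D.Idet L (v * (((v⁻¹ : (𝓞 K)ˣ) : 𝓞 K) * x))) = D.Idet L := by
      funext x
      rw [← mul_assoc, v.mul_inv, one_mul]
    rwa [h3] at h2
  · exact fun h => R5_reg D v hv h

theorem Jv_act (D : Ctx F K m) (v : (𝓞 K)ˣ) (hv : ((v : 𝓞 K) - 1) * D.c₀ ∈ D.I)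
    (hN : ∏ i, D.σ i ((v : 𝓞 K) : K) = 1) (L : Fin (m + 1) → Lab K m) :
    D.Jv (fun j => D.act v (L j)) = D.Jv L := by
  by_cases h : ∃ S, D.HasReg (D.Idet L) S
  · obtain ⟨S, hS⟩ := h
    rw [Jv_eq D hS, Jv_eq D ((reg_act D v hv hN L S).2 hS)]
  · have h' : ¬ ∃ S, D.HasReg (D.Idet fun j => D.act v (L j)) S :=
      fun ⟨S, hS⟩ => h ⟨S, (reg_act D v hv hN L S).1 hS⟩
    unfold Ctx.Jv
    rw [dif_neg h, dif_neg h']

/-- The units v with v X = X. -/
def R5_sub (D : Ctx F K m) : Subgroup (𝓞 K)ˣ where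
  carrier := {v | ((v : 𝓞 K) - 1) * D.c₀ ∈ D.I}
  one_mem' := by simp
  mul_mem' := by
    intro a b ha hb
    have : ((a * b : (𝓞 K)ˣ) : 𝓞 K) - 1 = a * (b - 1) + (a - 1) := by push_cast; ring
    rw [Set.mem_ofPred_eq, this, add_mul, mul_assoc]
    exact D.I.add_mem (D.I.mul_mem_left _ hb) ha
  inv_mem' := fun {a} ha => R5_inv D a ha

/-- The units of norm one. -/
def R5_sub1 (D : Ctx F K m) : Subgroup (𝓞 K)ˣ where
  carrier := {v | ∏ i, D.σ i ((v : 𝓞 K) : K) = 1}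
  one_mem' := by simp
  mul_mem' := by
    intro a b ha hb
    rw [Set.mem_ofPred_eq] at ha hb ⊢
    simp only [Units.val_mul, map_mul, Finset.prod_mul_distrib, ha, hb, mul_one]
  inv_mem' := by
    intro a ha
    rw [Set.mem_ofPred_eq] at ha ⊢
    have h : (∏ i, D.σ i ((a : 𝓞 K) : K)) * ∏ i, D.σ i (((a⁻¹ : (𝓞 K)ˣ) : 𝓞 K) : K) = 1 := by
      rw [← Finset.prod_mul_distrib]
      refine Finset.prod_eq_one fun i _ => ?_
      rw [← map_mul, ← map_mul, a.mul_inv, map_one, map_one]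
    rwa [ha, one_mul] at h

omit [NumberField K] [Algebra F K] in
theorem R5_coe (u : Fin m → (𝓞 K)ˣ) (z : Fin m → ℤ) (s : K →+* ℂ) :
    s ((uu u z : 𝓞 K) : K) = ∏ j, (s ((u j : 𝓞 K) : K)) ^ z j := by
  let f : (𝓞 K)ˣ →* ℂˣ := Units.map ((s.comp (algebraMap (𝓞 K) K) : 𝓞 K →+* ℂ) : 𝓞 K →* ℂ)
  have h1 : f (uu u z) = ∏ j, f (u j) ^ z j := by
    unfold uu
    rw [map_prod]
    exact Finset.prod_congr rfl fun j _ => map_zpow f _ _
  have h2 := congrArg (fun t : ℂˣ => (t : ℂ)) h1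
  simp only [Units.coe_prod, Units.val_zpow_eq_zpow_val] at h2
  exact h2

/-- The group generated by the units u. -/
theorem uu_act (D : Ctx F K m) (u : Fin m → (𝓞 K)ˣ) (hu : D.UOk u) (z : Fin m → ℤ) :
    ((uu u z : 𝓞 K) - 1) * D.c₀ ∈ D.I ∧ ∏ i, D.σ i ((uu u z : 𝓞 K) : K) = 1 ∧
      ∀ i, ‖D.σ i ((uu u z : 𝓞 K) : K)‖ ^ 2 = Real.exp (∑ j, (z j : ℝ) * D.lm u i j) := by
  refine ⟨?_, ?_, ?_⟩
  · have : uu u z ∈ R5_sub D :=
      Subgroup.prod_mem _ fun j _ => Subgroup.zpow_mem _ (hu.act j) _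
    exact this
  · have : uu u z ∈ R5_sub1 D :=
      Subgroup.prod_mem _ fun j _ => Subgroup.zpow_mem _ (hu.norm j) _
    exact this
  · intro i
    rw [R5_coe, norm_prod, ← Finset.prod_pow, Real.exp_sum]
    refine Finset.prod_congr rfl fun j _ => ?_
    have h1 : 0 < ‖D.σ i ((u j : 𝓞 K) : K)‖ := norm_pos_iff.2 (R5_ne D (u j) i)
    have h2 : ‖D.σ i ((u j : 𝓞 K) : K) ^ z j‖ = Real.exp ((z j : ℝ) *
        Real.log ‖D.σ i ((u j : 𝓞 K) : K)‖) := by
      rw [norm_zpow, ← Real.log_zpow, Real.exp_log (zpow_pos h1 _)]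
    rw [h2, ← Real.exp_nat_mul]
    congr 1
    unfold Ctx.lm
    push_cast
    ring

theorem lm_sum (D : Ctx F K m) (u : Fin m → (𝓞 K)ˣ) (hu : D.UOk u) (j : Fin m) :
    ∑ i, D.lm u i j = 0 := by
  unfold Ctx.lm
  rw [← Finset.mul_sum, ← Real.log_prod (fun i _ => norm_ne_zero_iff.2 (R5_ne D (u j) i)),
    ← norm_prod, hu.norm j, norm_one, Real.log_one, mul_zero]

end H55P
end

-- from Lib.H55P.U3
section

open NumberField IsDedekindDomain MeasureTheory

namespace H55P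

open H55N
open H55B (g)

variable {F : Type} [Field F] [NumberField F] [IQ F] {K : Type} [Field K] [NumberField K] [Algebra F K] {m : ℕ}

/-! Chunk U3 (L). Unfolding. n = m+1, r = Re s > 3/2, lm = D.lm u, Fz(x) = g(x) conj N(x) Q_{tt z}(x)^(-n s).
(a) Q_{tt z}(u^a x) = Q_{tt(z+a)}(x) and N(u^a x) = N(x) (uu_act; tt lm (z + a) i = tt lm z i * |σ_i u^a|^2), g(u^a x) = g(x).
(b) sum_{x in X} int_[0,1]^m |Fz(x)| dz <= C sum_X sz^n sz^(-2 n r) < infinity (|N x| <= sz^n, Q >= c sz^2 uniformly for z in the cube (Q_low), 2nr - n > 2n, sum_sz).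
So int_cube sum_X Fz(x) dz = sum_X int_cube Fz(x) dz (hasSum_integral_of_summable_integral_norm or integral_tsum).
(c) By the bijection (a, x) -> u^a x from Z^m x T to X (T as in hbij; it maps into X by uu_act) the last sum is sum_{x in T} sum_a int_cube F_{z+a}(x) dz =
sum_{x in T} int_{R^m} Fz(x) dz (tiling) = sum_{x in T} g(x) conj N(x) (prod |x_i|^2)^(-s) cst(s) (shift_eq with y_i = |σ_i x|^2 > 0; x <> 0) and
(prod |x_i|^2)^(-s) conj N = |N x|^(-2s) conj N = nf F s x (norm_eq; cpow of a positive real).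
(d) Absolute convergence of the sum over T: the same with g, s replaced by |g|, r (use norms: |g(x) nf F s x| cst(r) is the integral over R^m of |Fz(x)|, cst(r) > 0: cst_eq;
tiling_lintegral or tiling for the norm). -/

theorem u3_sz_pos (D : Ctx F K m) (x : 𝓞 K) : 1 ≤ D.sz x := by
  unfold Ctx.sz
  have : 0 ≤ ∑ i, ‖D.σ i x‖ := Finset.sum_nonneg fun i _ => norm_nonneg _
  linarith

theorem u3_N_le (D : Ctx F K m) (x : 𝓞 K) : ‖D.N x‖ ≤ D.sz x ^ (m + 1) := by
  unfold Ctx.N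
  rw [norm_prod]
  have h1 : ∀ i, ‖D.σ i x‖ ≤ D.sz x := by
    intro i
    unfold Ctx.sz
    have := Finset.single_le_sum (f := fun i => ‖D.σ i x‖) (fun i _ => norm_nonneg _)
      (Finset.mem_univ i)
    linarith
  calc ∏ i, ‖D.σ i x‖ ≤ ∏ _i : Fin (m + 1), D.sz x :=
        Finset.prod_le_prod (fun i _ => norm_nonneg _) fun i _ => h1 i
    _ = D.sz x ^ (m + 1) := by simp

theorem u3_fs_le (D : Ctx F K m) (t : Fin (m + 1) → ℝ) (s : ℂ) (hs : 0 < s.re) (c : ℝ) (hc : 0 < c)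
    (x : 𝓞 K) (hx : c * D.sz x ^ 2 ≤ D.Q t x) :
    ‖D.fs t s x‖ ≤ c ^ (-((m + 1 : ℕ) * s.re)) * D.sz x ^ (-((2 * s.re - 1) * (m + 1 : ℝ))) := by
  have hsz := u3_sz_pos D x
  have hsz0 : 0 < D.sz x := by linarith
  have hcs : 0 < c * D.sz x ^ 2 := by positivity
  have hQ : 0 < D.Q t x := lt_of_lt_of_le hcs hx
  unfold Ctx.fs
  rw [norm_mul, RCLike.norm_conj, Complex.norm_cpow_eq_rpow_re_of_pos hQ]
  have hre : (-(((m + 1 : ℕ) : ℂ) * s)).re = -(((m + 1 : ℕ) : ℝ) * s.re) := by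
    rw [Complex.neg_re, ← Complex.ofReal_natCast, Complex.re_ofReal_mul]
  rw [hre]
  have hneg : -(((m + 1 : ℕ) : ℝ) * s.re) ≤ 0 := by
    have : 0 ≤ ((m + 1 : ℕ) : ℝ) * s.re := by positivity
    linarith
  have h1 : D.Q t x ^ (-(((m + 1 : ℕ) : ℝ) * s.re)) ≤
      (c * D.sz x ^ 2) ^ (-(((m + 1 : ℕ) : ℝ) * s.re)) :=
    Real.rpow_le_rpow_of_nonpos hcs hx hneg
  have h2 : (c * D.sz x ^ 2) ^ (-(((m + 1 : ℕ) : ℝ) * s.re)) =
      c ^ (-(((m + 1 : ℕ) : ℝ) * s.re)) * D.sz x ^ (2 * (-(((m + 1 : ℕ) : ℝ) * s.re))) := by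
    rw [Real.mul_rpow hc.le (by positivity), Real.rpow_mul hsz0.le]
    norm_cast
  have h3 : D.sz x ^ (m + 1) * D.sz x ^ (2 * (-(((m + 1 : ℕ) : ℝ) * s.re))) =
      D.sz x ^ (-((2 * s.re - 1) * (m + 1 : ℝ))) := by
    rw [← Real.rpow_natCast, ← Real.rpow_add hsz0]
    congr 1
    push_cast
    ring
  calc ‖D.N x‖ * D.Q t x ^ (-(((m + 1 : ℕ) : ℝ) * s.re))
      ≤ D.sz x ^ (m + 1) * (c ^ (-(((m + 1 : ℕ) : ℝ) * s.re)) *
          D.sz x ^ (2 * (-(((m + 1 : ℕ) : ℝ) * s.re)))) := by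
        rw [← h2]
        exact mul_le_mul (u3_N_le D x) h1 (Real.rpow_nonneg hQ.le _) (by positivity)
    _ = c ^ (-(((m + 1 : ℕ) : ℝ) * s.re)) * (D.sz x ^ (m + 1) *
          D.sz x ^ (2 * (-(((m + 1 : ℕ) : ℝ) * s.re)))) := by ring
    _ = _ := by rw [h3]

theorem u3_sum (D : Ctx F K m) (hE : Emb F D.σ) (s : ℂ) (hs : 3 / 2 < s.re) :
    Summable fun x : D.X => D.sz (x : 𝓞 K) ^ (-((2 * s.re - 1) * (m + 1 : ℝ))) := by
  have h := sum_sz D hE ((2 * s.re - 1) * (m + 1 : ℝ)) (by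
    have : (0 : ℝ) < m + 1 := by positivity
    nlinarith)
  exact h.subtype D.X

/-- For Re s > 3/2 the family fs is absolutely summable over X. -/
theorem fs_summable (D : Ctx F K m) (hE : Emb F D.σ) (h0 : D.c₀ ∉ D.I) (t : Fin (m + 1) → ℝ)
    (ht : ∀ i, 0 < t i) (s : ℂ) (hs : 3 / 2 < s.re) :
    Summable fun x : D.X => ‖D.fs t s (x : 𝓞 K)‖ := by
  obtain ⟨a, ha, hat⟩ : ∃ a : ℝ, 0 < a ∧ ∀ i, a ≤ t i := by
    obtain ⟨i, hi⟩ := Finite.exists_min t
    exact ⟨t i, ht i, hi⟩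
  obtain ⟨c, hc, hQ⟩ := Q_low D hE a ha
  refine Summable.of_nonneg_of_le (fun x => norm_nonneg _) (fun x => ?_)
    ((u3_sum D hE s hs).mul_left (c ^ (-((m + 1 : ℕ) * s.re))))
  exact u3_fs_le D t s (by linarith) c hc x (hQ t hat x (D.X_ne h0 x.2))

theorem u3_countable (K : Type) [Field K] [NumberField K] : Countable (𝓞 K) := by
  have eq1 := (NumberField.RingOfIntegers.basis K).equivFun
  exact eq1.toEquiv.countable_iff.2 inferInstance

/-- The translation of the parameter by the action of the units. -/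
theorem u3_trans (D : Ctx F K m) (u : Fin m → (𝓞 K)ˣ) (hu : D.UOk u) (s : ℂ) (z : Fin m → ℝ)
    (a : Fin m → ℤ) (x : 𝓞 K) :
    D.fs (tt (D.lm u) z) s ((uu u a : 𝓞 K) * x) =
      D.fs (tt (D.lm u) fun k => z k + a k) s x := by
  obtain ⟨-, h2, h3⟩ := uu_act D u hu a
  have hσ : ∀ i, D.σ i (((uu u a : 𝓞 K) * x : 𝓞 K) : K) =
      D.σ i ((uu u a : 𝓞 K) : K) * D.σ i (x : K) := by
    intro i
    rw [← map_mul]
    norm_cast
  have hN : D.N ((uu u a : 𝓞 K) * x) = D.N x := by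
    unfold Ctx.N
    rw [Finset.prod_congr rfl fun i _ => hσ i, Finset.prod_mul_distrib, h2, one_mul]
  have hQ : D.Q (tt (D.lm u) z) ((uu u a : 𝓞 K) * x) =
      D.Q (tt (D.lm u) fun k => z k + a k) x := by
    unfold Ctx.Q
    refine Finset.sum_congr rfl fun i _ => ?_
    rw [hσ i, norm_mul, mul_pow, h3 i, ← mul_assoc]
    congr 1
    unfold tt
    rw [← Real.exp_add]
    congr 1
    rw [← Finset.sum_add_distrib]
    exact Finset.sum_congr rfl fun j _ => by ring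
  unfold Ctx.fs
  rw [hN, hQ]

theorem u3_pos (D : Ctx F K m) (x : 𝓞 K) (hx : x ≠ 0) (i : Fin (m + 1)) : 0 < ‖D.σ i x‖ ^ 2 := by
  have h1 : (x : K) ≠ 0 := by exact_mod_cast hx
  have h2 : D.σ i x ≠ 0 := by
    rw [Ne, map_eq_zero]
    exact h1
  have := norm_pos_iff.2 h2
  positivity

theorem u3_integrable (D : Ctx F K m) (u : Fin m → (𝓞 K)ˣ) (hu : D.UOk u) (s : ℂ) (hs : 0 < s.re)
    (x : 𝓞 K) (hx : x ≠ 0) : Integrable fun z : Fin m → ℝ => D.fs (tt (D.lm u) z) s x :=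
  (shift_integrable (D.lm u) (lm_sum D u hu) hu.reg s hs (fun i => ‖D.σ i x‖ ^ 2)
    (u3_pos D x hx)).const_mul ((starRingEnd ℂ) (D.N x))

theorem u3_nf (D : Ctx F K m) (hE : Emb F D.σ) (s : ℂ) (x : 𝓞 K) (hx : x ≠ 0) :
    (starRingEnd ℂ) (D.N x) * (((∏ i, ‖D.σ i x‖ ^ 2 : ℝ) : ℂ) ^ (-s)) = nf F s x := by
  have hN : D.N x = (embF F) (Algebra.norm F (x : K)) := norm_eq hE _
  have hpos : 0 < ‖D.N x‖ := by
    unfold Ctx.N
    rw [norm_prod]
    refine Finset.prod_pos fun i _ => ?_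
    have := u3_pos D x hx i
    exact lt_of_le_of_ne (norm_nonneg _) fun h => by
      rw [← h] at this
      norm_num at this
  have h1 : (∏ i, ‖D.σ i x‖ ^ 2 : ℝ) = ‖D.N x‖ * ‖D.N x‖ := by
    rw [Finset.prod_pow]
    unfold Ctx.N
    rw [norm_prod, sq]
  unfold nf H55B.g
  rw [← hN, h1, Complex.ofReal_mul, Complex.mul_cpow_ofReal_nonneg hpos.le hpos.le,
    ← Complex.cpow_add _ _ (by exact_mod_cast hpos.ne')]
  congr 2
  ring

theorem u3_integral (D : Ctx F K m) (hE : Emb F D.σ) (u : Fin m → (𝓞 K)ˣ) (hu : D.UOk u) (s : ℂ)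
    (hs : 0 < s.re) (x : 𝓞 K) (hx : x ≠ 0) :
    ∫ z : Fin m → ℝ, D.fs (tt (D.lm u) z) s x = nf F s x * cst (D.lm u) s := by
  have h := shift_eq (D.lm u) (lm_sum D u hu) hu.reg s hs (fun i => ‖D.σ i x‖ ^ 2)
    (u3_pos D x hx)
  have h2 : ∫ z : Fin m → ℝ, D.fs (tt (D.lm u) z) s x =
      (starRingEnd ℂ) (D.N x) * ∫ z : Fin m → ℝ,
        ((∑ i, tt (D.lm u) z i * ‖D.σ i x‖ ^ 2 : ℝ) : ℂ) ^ (-((m + 1 : ℕ) * s)) := by
    rw [← integral_const_mul]
    rfl
  rw [h2, h, ← mul_assoc, u3_nf D hE s x hx]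

theorem u3_mem (D : Ctx F K m) (u : Fin m → (𝓞 K)ˣ) (hu : D.UOk u) (a : Fin m → ℤ) (x : 𝓞 K)
    (hx : x ∈ D.X) : (uu u a : 𝓞 K) * x ∈ D.X := by
  obtain ⟨h1, -, -⟩ := uu_act D u hu a
  rw [D.mem_X] at hx ⊢
  have : (uu u a : 𝓞 K) * x - D.c₀ = (uu u a : 𝓞 K) * (x - D.c₀) +
      ((uu u a : 𝓞 K) - 1) * D.c₀ := by ring
  rw [this]
  exact D.I.add_mem (D.I.mul_mem_left _ hx) h1

/-- The bijection. -/
noncomputable def u3E (D : Ctx F K m) (u : Fin m → (𝓞 K)ˣ) (hu : D.UOk u) (T : Set (𝓞 K))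
    (hT : T ⊆ D.X)
    (hbij : ∀ x ∈ D.X, ∃! q : (Fin m → ℤ) × T, x = (uu u q.1 : 𝓞 K) * q.2) :
    T × (Fin m → ℤ) ≃ D.X :=
  Equiv.ofBijective (fun q => ⟨(uu u q.2 : 𝓞 K) * q.1, u3_mem D u hu q.2 q.1 (hT q.1.2)⟩) (by
    constructor
    · rintro ⟨x, a⟩ ⟨y, b⟩ h
      have h1 : (uu u a : 𝓞 K) * x = (uu u b : 𝓞 K) * y := congrArg Subtype.val h
      obtain ⟨q, hq, hq'⟩ := hbij _ (u3_mem D u hu a x (hT x.2))
      have e1 := hq' (a, x) rfl
      have e2 := hq' (b, y) h1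
      have e3 := e1.trans e2.symm
      rw [Prod.mk.injEq] at e3
      rw [Prod.mk.injEq]
      exact ⟨e3.2, e3.1⟩
    · rintro ⟨x, hx⟩
      obtain ⟨q, hq, -⟩ := hbij x hx
      exact ⟨(q.2, q.1), Subtype.ext hq.symm⟩)

theorem u3_vol {m : ℕ} : volume.real (Set.Icc (0 : Fin m → ℝ) 1) = 1 := by
  rw [Measure.real, Real.volume_Icc_pi]
  simp

theorem u3_tt {m : ℕ} (lm : Fin (m + 1) → Fin m → ℝ) : ∃ a : ℝ, 0 < a ∧
    ∀ z ∈ Set.Icc (0 : Fin m → ℝ) 1, ∀ i, a ≤ tt lm z i := by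
  obtain ⟨i0, h0⟩ := Finite.exists_max fun i : Fin (m + 1) => ∑ j, |lm i j|
  refine ⟨Real.exp (-∑ j, |lm i0 j|), Real.exp_pos _, fun z hz i => ?_⟩
  unfold tt
  apply Real.exp_le_exp.2
  have h1 : -∑ j, |lm i j| ≤ ∑ j, z j * lm i j := by
    rw [← Finset.sum_neg_distrib]
    refine Finset.sum_le_sum fun j _ => ?_
    have hz0 : 0 ≤ z j := hz.1 j
    have hz1 : z j ≤ 1 := hz.2 j
    have h2 : |z j * lm i j| ≤ |lm i j| := by
      rw [abs_mul, abs_of_nonneg hz0]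
      exact mul_le_of_le_one_left (abs_nonneg _) hz1
    have := (abs_le.1 h2).1
    exact this
  have h3 : ∑ j, |lm i j| ≤ ∑ j, |lm i0 j| := h0 i
  linarith

theorem unfold (D : Ctx F K m) (hE : Emb F D.σ) (h0 : D.c₀ ∉ D.I) (u : Fin m → (𝓞 K)ˣ) (hu : D.UOk u)
    (g : 𝓞 K → ℂ) (hgb : ∃ C : ℝ, ∀ x, ‖g x‖ ≤ C)
    (hgu : ∀ x ∈ D.X, ∀ z, g ((uu u z : 𝓞 K) * x) = g x) (T : Set (𝓞 K)) (hT : T ⊆ D.X)
    (hbij : ∀ x ∈ D.X, ∃! q : (Fin m → ℤ) × T, x = (uu u q.1 : 𝓞 K) * q.2) (s : ℂ)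
    (hs : 3 / 2 < s.re) :
    (Summable fun x : T => ‖g x * nf F s (x : 𝓞 K)‖) ∧
    (∑' x : T, g x * nf F s (x : 𝓞 K)) * cst (D.lm u) s =
      ∫ z in Set.Icc (0 : Fin m → ℝ) 1, ∑' x : D.X, g x * D.fs (tt (D.lm u) z) s x := by
  have hs0 : 0 < s.re := by linarith
  have := u3_countable K
  obtain ⟨C, hC⟩ := hgb
  have hC0 : 0 ≤ C := (norm_nonneg _).trans (hC 0)
  obtain ⟨a, ha, hat⟩ := u3_tt (D.lm u)
  obtain ⟨c, hc, hQ⟩ := Q_low D hE a ha
  have hint : ∀ x : 𝓞 K, x ≠ 0 →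
      Integrable fun z : Fin m → ℝ => g x * D.fs (tt (D.lm u) z) s x := fun x hx =>
    (u3_integrable D u hu s hs0 x hx).const_mul (g x)
  -- the bound on the cube
  have hbd : ∀ x : D.X, ∫ z in Set.Icc (0 : Fin m → ℝ) 1, ‖g x * D.fs (tt (D.lm u) z) s x‖ ≤
      (C * c ^ (-((m + 1 : ℕ) * s.re))) * D.sz (x : 𝓞 K) ^ (-((2 * s.re - 1) * (m + 1 : ℝ))) := by
    intro x
    have hx := D.X_ne h0 x.2
    have h1 : ∫ z in Set.Icc (0 : Fin m → ℝ) 1, ‖g x * D.fs (tt (D.lm u) z) s x‖ ≤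
        ∫ z in Set.Icc (0 : Fin m → ℝ) 1, (C * c ^ (-((m + 1 : ℕ) * s.re))) *
          D.sz (x : 𝓞 K) ^ (-((2 * s.re - 1) * (m + 1 : ℝ))) := by
      refine setIntegral_mono_on (hint x hx).norm.integrableOn ?_ measurableSet_Icc ?_
      · exact integrableOn_const (by
          rw [Real.volume_Icc_pi]
          simp)
      · intro z hz
        rw [norm_mul, mul_assoc]
        refine mul_le_mul (hC x) ?_ (norm_nonneg _) hC0
        exact u3_fs_le D _ s hs0 c hc x (hQ _ (hat z hz) x hx)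
    refine h1.trans (le_of_eq ?_)
    rw [setIntegral_const, u3_vol, one_smul]
  have hsum1 : Summable fun x : D.X =>
      ∫ z in Set.Icc (0 : Fin m → ℝ) 1, ‖g x * D.fs (tt (D.lm u) z) s x‖ :=
    Summable.of_nonneg_of_le (fun x => integral_nonneg fun z => norm_nonneg _) hbd
      ((u3_sum D hE s hs).mul_left _)
  have hs1 := hasSum_integral_of_summable_integral_norm
    (μ := volume.restrict (Set.Icc (0 : Fin m → ℝ) 1))
    (F := fun (x : D.X) (z : Fin m → ℝ) => g x * D.fs (tt (D.lm u) z) s x)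
    (fun x => (hint x (D.X_ne h0 x.2)).integrableOn) hsum1
  have hs2 := (u3E D u hu T hT hbij).hasSum_iff.2 hs1
  have hs3 : HasSum (fun x : T => ∫ z : Fin m → ℝ, g x * D.fs (tt (D.lm u) z) s x)
      (∫ z in Set.Icc (0 : Fin m → ℝ) 1, ∑' x : D.X, g x * D.fs (tt (D.lm u) z) s x) := by
    refine hs2.prod_fiberwise fun x => ?_
    have hx := D.X_ne h0 (hT x.2)
    have h1 := tiling (fun z => g x * D.fs (tt (D.lm u) z) s x) (hint x hx)
    have h2 : (fun b : Fin m → ℤ => ((fun x : D.X => ∫ z in Set.Icc (0 : Fin m → ℝ) 1,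
        g x * D.fs (tt (D.lm u) z) s x) ∘ (u3E D u hu T hT hbij)) (x, b)) =
        fun b : Fin m → ℤ => ∫ z in Set.Icc (0 : Fin m → ℝ) 1,
          (fun z => g x * D.fs (tt (D.lm u) z) s x) (fun k => z k + b k) := by
      funext b
      show ∫ z in Set.Icc (0 : Fin m → ℝ) 1, g ((uu u b : 𝓞 K) * x) *
        D.fs (tt (D.lm u) z) s ((uu u b : 𝓞 K) * x) = _
      refine integral_congr_ae (Filter.Eventually.of_forall fun z => ?_)
      show g ((uu u b : 𝓞 K) * x) * D.fs (tt (D.lm u) z) s ((uu u b : 𝓞 K) * x) =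
        g x * D.fs (tt (D.lm u) fun k => z k + b k) s x
      rw [hgu x (hT x.2) b, u3_trans D u hu]
    rw [h2]
    exact h1
  have hcst : cst (D.lm u) s ≠ 0 := by
    intro h
    have h1 := cst_eq (D.lm u) (lm_sum D u hu) hu.reg s hs0
    rw [h, mul_zero, zero_mul] at h1
    exact pow_ne_zero (m + 1) (Complex.Gamma_ne_zero_of_re_pos hs0) h1.symm
  have hs4 : HasSum (fun x : T => (g x * nf F s (x : 𝓞 K)) * cst (D.lm u) s)
      (∫ z in Set.Icc (0 : Fin m → ℝ) 1, ∑' x : D.X, g x * D.fs (tt (D.lm u) z) s x) := by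
    have h1 : (fun x : T => (g x * nf F s (x : 𝓞 K)) * cst (D.lm u) s) =
        fun x : T => ∫ z : Fin m → ℝ, g x * D.fs (tt (D.lm u) z) s x := by
      funext x
      rw [integral_const_mul, u3_integral D hE u hu s hs0 x (D.X_ne h0 (hT x.2)), mul_assoc]
    rw [h1]
    exact hs3
  refine ⟨((summable_mul_right_iff hcst).1 hs4.summable).norm, ?_⟩
  rw [← tsum_mul_right]
  exact hs4.tsum_eq

end H55P
end

-- from Lib.H55P.U5
section

open NumberField IsDedekindDomain MeasureTheory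

namespace H55P

open H55N
open H55B (g)

variable {F : Type} [Field F] [NumberField F] [IQ F] {K : Type} [Field K] [NumberField K]
  [Algebra F K] {m : ℕ}

/-! Chunk PU5a (S/M), PORT of U5_gam, U5_fs_one, zfun of Lib/H55N/U5.lean (no change but the namespace: Ctx F K m, Emb F, nf F). -/

/-- The gamma factors. -/
theorem U5_gam (D : Ctx F K m) (u : Fin m → (𝓞 K)ˣ) (hu : D.UOk u) (V : ℂ → ℂ) (r : ℝ) (hr : 0 ≤ r)
    (hV : AnalyticOnNhd ℂ V {s | r < s.re}) : AnalyticOnNhd ℂ (fun s => V s *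
      ((|Delta (D.lm u)| : ℝ) : ℂ) * Complex.Gamma ((m + 1 : ℕ) * s) / Complex.Gamma s ^ (m + 1))
      {s | r < s.re} ∧
    ∀ s : ℂ, 0 < s.re → ∀ S : ℂ, S * cst (D.lm u) s = V s → V s *
      ((|Delta (D.lm u)| : ℝ) : ℂ) * Complex.Gamma ((m + 1 : ℕ) * s) / Complex.Gamma s ^ (m + 1) =
        S := by
  have hopen : IsOpen {s : ℂ | r < s.re} := isOpen_lt continuous_const Complex.continuous_re
  have hpos : ∀ s : ℂ, r < s.re → 0 < s.re := fun s hs => lt_of_le_of_lt hr hs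
  have hne : ∀ s : ℂ, 0 < s.re → ∀ k : ℕ, s ≠ -(k : ℂ) := by
    intro s hs k hk
    rw [hk] at hs
    simp only [Complex.neg_re, Complex.natCast_re] at hs
    have : (0 : ℝ) ≤ k := Nat.cast_nonneg k
    linarith
  have hG : AnalyticOnNhd ℂ Complex.Gamma {s | r < s.re} := by
    apply DifferentiableOn.analyticOnNhd _ hopen
    intro s hs
    exact (Complex.differentiableAt_Gamma s (hne s (hpos s hs))).differentiableWithinAt
  have hG2 : AnalyticOnNhd ℂ (fun s => Complex.Gamma ((m + 1 : ℕ) * s)) {s | r < s.re} := by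
    apply DifferentiableOn.analyticOnNhd _ hopen
    intro s hs
    have h1 : 0 < (((m + 1 : ℕ) : ℂ) * s).re := by
      rw [← Complex.ofReal_natCast, Complex.re_ofReal_mul]
      have := hpos s hs
      positivity
    have h2 := Complex.differentiableAt_Gamma _ (hne _ h1)
    exact (h2.comp s ((differentiableAt_const _).mul differentiableAt_id)).differentiableWithinAt
  constructor
  · exact ((hV.mul analyticOnNhd_const).mul hG2).div (hG.pow _) fun s hs =>
      pow_ne_zero _ (Complex.Gamma_ne_zero_of_re_pos (hpos s hs))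
  · intro s hs S hS
    have h1 := cst_eq (D.lm u) (lm_sum D u hu) hu.reg s hs
    have h2 : Complex.Gamma s ^ (m + 1) ≠ 0 :=
      pow_ne_zero _ (Complex.Gamma_ne_zero_of_re_pos hs)
    rw [div_eq_iff h2, ← h1, ← hS]
    ring

theorem pu5_fs_one (D : Ctx F K m) (t : Fin (m + 1) → ℝ) (x : 𝓞 K) :
    D.fs t 1 x = (starRingEnd ℂ) (D.N x) / ∏ _j : Fin (m + 1), (D.Q t x : ℂ) := by
  unfold Ctx.fs
  rw [mul_one, Complex.cpow_neg, Complex.cpow_natCast, Finset.prod_const, Finset.card_univ,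
    Fintype.card_fin, div_eq_mul_inv]

theorem zfun (D : Ctx F K m) (hD : D.Ok) (u : Fin m → (𝓞 K)ˣ) (hu : D.UOk u)
    (A : Fin (m + 1) → K) (w : Fin (m + 1) × Fin 2 → 𝓞 K) (hdir : D.Dirs A w) (G : 𝓞 K → ℂ)
    (hG : D.GSpec w G) : ∃ Z : ℂ → ℂ, AnalyticOnNhd ℂ Z {s | 1 / 2 < s.re} ∧
      (∀ T : Set (𝓞 K), T ⊆ D.X →
        (∀ x ∈ D.X, ∃! q : (Fin m → ℤ) × T, x = (uu u q.1 : 𝓞 K) * q.2) →
        ∀ s : ℂ, 3 / 2 < s.re → HasSum (fun x : T => D.g x * nf F s (x : 𝓞 K)) (Z s)) ∧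
      Z 1 = (m.factorial : ℂ) * ((|Delta (D.lm u)| : ℝ) : ℂ) *
        ∫ z in Set.Icc (0 : Fin m → ℝ) 1, D.Bv w G (fun _ => tt (D.lm u) z) := by
  set V : ℂ → ℂ := fun s => ∫ z in Set.Icc (0 : Fin m → ℝ) 1,
      ∑' x : D.X, G x * Dif w Finset.univ (D.fs (tt (D.lm u) z) s) x with hVdef
  have hcard : Fintype.card (Fin (m + 1) × Fin 2) = 2 * (m + 1) := by
    rw [Fintype.card_prod, Fintype.card_fin, Fintype.card_fin, mul_comm]
  have hreg : 3 / 2 - (Fintype.card (Fin (m + 1) × Fin 2) : ℝ) / (2 * (m + 1)) = 1 / 2 := by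
    rw [hcard]
    push_cast
    field_simp
    norm_num
  have hV : AnalyticOnNhd ℂ V {s | 1 / 2 < s.re} := by
    have h := cont_analytic D hD.emb D.I le_rfl hD.ne w hdir.mem hcard.le G hG.1 (D.lm u)
    rw [hreg] at h
    exact h
  obtain ⟨hA1, hA2⟩ := U5_gam D u hu V (1 / 2) (by norm_num) hV
  refine ⟨_, hA1, ?_, ?_⟩
  · intro T hT hbij s hs
    obtain ⟨h1, h2⟩ := unfold D hD.emb hD.ne u hu D.g (g_bdd D)
      (fun x _ z => R5_g D (uu u z) x) T hT hbij s hs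
    have h3 : (∑' x : T, D.g x * nf F s (x : 𝓞 K)) * cst (D.lm u) s = V s := by
      rw [h2]
      refine integral_congr_ae (Filter.Eventually.of_forall fun z => ?_)
      exact hG.2 _ (fs_summable D hD.emb hD.ne _ (fun i => Real.exp_pos _) s hs)
    have h4 := hA2 s (by linarith) _ h3
    rw [h4]
    exact h1.of_norm.hasSum
  · have h1 : V 1 = ∫ z in Set.Icc (0 : Fin m → ℝ) 1, D.Bv w G (fun _ => tt (D.lm u) z) := by
      refine integral_congr_ae (Filter.Eventually.of_forall fun z => ?_)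
      show ∑' x : D.X, _ = ∑' x : D.X, _
      refine tsum_congr fun x => ?_
      congr 2
      funext y
      exact pu5_fs_one D _ y
    show V 1 * _ * _ / _ = _
    rw [h1, mul_one, Complex.Gamma_one, one_pow, div_one]
    have h2 : Complex.Gamma ((m + 1 : ℕ) : ℂ) = (m.factorial : ℂ) := by
      have := Complex.Gamma_nat_eq_factorial m
      rw [← this]
      push_cast
      rfl
    rw [h2]
    ring

end H55P
end
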