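import Mathlib
import Pool.Agent.Lib.H1M.PP2.D_H55C_Defs
import Pool.Agent.Lib.H1M.PP2.M010
import Pool.Agent.Lib.H1M.PP2.M020
import Pool.Agent.Lib.H1M.PP2.M023
import Pool.Agent.Lib.H1M.PP2.M032
import Pool.Agent.Lib.H1M.PP2.M039
import Pool.Agent.Lib.H1M.PP2.M040
import Pool.Agent.Lib.H1M.PP2.M041
import Pool.Agent.Lib.H1M.PP2.M042
import Pool.Agent.Lib.H1M.PP2.M048

/-! Merged copies (to shorten the build) of Lib.H55B.I2, Lib.H55C.B8, Lib.H55N.H5, Lib.H55P.B10, Lib.H55P.R4, Lib.H55R.D3, Lib.H55R.D7, Lib.H55R.D6, Lib.H55R.D8, Lib.H55R.D9, Lib.H55N.E3, Lib.H55N.E4, Lib.H55N.E6, Lib.H55N.E8, Lib.H55N.R1, Lib.H55N.R5, Lib.H55N.U3. -/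

-- from Lib.H55B.I2
section

open NumberField IsDedekindDomain

namespace H55B

/-! Chunk I2: the L-function of E27 over K as a product.
Fix n. LFunction n = (product over a finite set s of places of K of the local Euler factors) n for all large s
(ArithmeticFunction.tendsTo_eulerProduct_ofPowerSeries, Northcott property of absNorm: finitely many ideals of
bounded norm). Take s = places above t, t a large finite set of places v of F not above 3, together with the
places above 3 (Euler factor 1 by loc_bad, val_three). For w above v: F4.loc_good, f = inertiaDeg w =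
inertiaDegIn v (Galois), absNorm w = absNorm v ^ f (F4.absNorm_inertia), ofPowerSeries_pow turns the factor at
absNorm v ^ f into a factor at absNorm v with X replaced by X^f; there are g = ncard primesOver of them. By
G5.dec (x = e(gen v) and x = conj e(gen v)) the product over w | v equals the product over chi of
ofPowerSeries (absNorm v) (1/(1 - Sym(a chi)(gen v) e(gen v) X)) times the conjugate. Then EP for the completely
multiplicative functions Sym(a chi) e and Sym (a chi) conj e, and compatibility of finite convolution products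
with eventual equality at all divisors of n. Casting Z -> C commutes with everything
(map of power series and of arithmetic functions). -/

theorem I2_mul_congr {f f' g g' : ArithmeticFunction ℂ} {n : ℕ} (hf : ∀ m ≤ n, f m = f' m)
    (hg : ∀ m ≤ n, g m = g' m) : ∀ m ≤ n, (f * g) m = (f' * g') m := by
  intro m hm
  rw [ArithmeticFunction.mul_apply, ArithmeticFunction.mul_apply]
  refine Finset.sum_congr rfl fun k hk => ?_
  have h := (Nat.mem_divisorsAntidiagonal.mp hk)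
  have h1 : k.1 ≤ n := (Nat.divisor_le (Nat.fst_mem_divisors_of_mem_antidiagonal hk)).trans hm
  have h2 : k.2 ≤ n := (Nat.divisor_le (Nat.snd_mem_divisors_of_mem_antidiagonal hk)).trans hm
  rw [hf _ h1, hg _ h2]

theorem I2_prod_congr {ι : Type*} (s : Finset ι) (f g : ι → ArithmeticFunction ℂ) {n : ℕ}
    (h : ∀ i ∈ s, ∀ m ≤ n, f i m = g i m) : ∀ m ≤ n, (∏ i ∈ s, f i) m = (∏ i ∈ s, g i) m := by
  classical
  induction s using Finset.induction_on with
  | empty => intro m _; simp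
  | insert i s hi ih =>
    rw [Finset.prod_insert hi, Finset.prod_insert hi]
    exact I2_mul_congr (h i (Finset.mem_insert_self _ _))
      (ih fun j hj => h j (Finset.mem_insert_of_mem hj))

theorem I2_cast_prod {ι : Type*} (s : Finset ι) (f : ι → ArithmeticFunction ℤ) :
    ((∏ i ∈ s, f i : ArithmeticFunction ℤ) : ArithmeticFunction ℂ) =
      ∏ i ∈ s, ((f i : ArithmeticFunction ℤ) : ArithmeticFunction ℂ) := by
  classical
  induction s using Finset.induction_on with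
  | empty => simp
  | insert i s hi ih =>
    rw [Finset.prod_insert hi, Finset.prod_insert hi, ArithmeticFunction.intCoe_mul, ih]

theorem I2_cast_ofPS {q : ℕ} (hq : 1 < q) (f : PowerSeries ℤ) :
    ((ArithmeticFunction.ofPowerSeries q f : ArithmeticFunction ℤ) : ArithmeticFunction ℂ) =
      ArithmeticFunction.ofPowerSeries q (PowerSeries.map (Int.castRingHom ℂ) f) := by
  ext n
  rw [ArithmeticFunction.intCoe_apply, ArithmeticFunction.ofPowerSeries_apply hq,
    ArithmeticFunction.ofPowerSeries_apply hq]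
  by_cases hn : ∃ k, q ^ k = n
  · obtain ⟨k, rfl⟩ := hn
    rw [(Nat.pow_right_injective hq).extend_apply, (Nat.pow_right_injective hq).extend_apply]
    simp
  · rw [Function.extend_apply' _ _ _ hn, Function.extend_apply' _ _ _ hn]
    simp

theorem I2_inv_unique {a b : PowerSeries ℂ} (ha : PowerSeries.constantCoeff a = 1)
    (h : a * b = 1) : b = a⁻¹ := by
  rw [PowerSeries.eq_inv_iff_mul_eq_one (by rw [ha]; exact one_ne_zero), mul_comm]
  exact h

theorem I2_map_invOfUnit (P : Polynomial ℤ) (hP : P.coeff 0 = 1) :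
    PowerSeries.map (Int.castRingHom ℂ) (PowerSeries.invOfUnit (P : PowerSeries ℤ) 1) =
      ((P.map (Int.castRingHom ℂ) : Polynomial ℂ) : PowerSeries ℂ)⁻¹ := by
  have h0 : PowerSeries.constantCoeff (P : PowerSeries ℤ) = ((1 : ℤˣ) : ℤ) := by
    simp [hP]
  apply I2_inv_unique
  · rw [Polynomial.polynomial_map_coe, ← PowerSeries.coeff_zero_eq_constantCoeff_apply,
      PowerSeries.coeff_map]
    simp [hP]
  · rw [Polynomial.polynomial_map_coe, ← map_mul, PowerSeries.mul_invOfUnit _ _ h0, map_one]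

theorem I2_subst_inv {k : ℕ} (hk : k ≠ 0) (a : PowerSeries ℂ)
    (ha : PowerSeries.constantCoeff a = 1) :
    (a⁻¹).subst (PowerSeries.X ^ k : PowerSeries ℂ) = (a.subst (PowerSeries.X ^ k : PowerSeries ℂ))⁻¹ := by
  apply I2_inv_unique
  · rw [PowerSeries.constantCoeff_subst_X_pow hk, ha]
    simp
  · rw [← PowerSeries.subst_mul (PowerSeries.HasSubst.X_pow hk),
      PowerSeries.mul_inv_cancel _ (by rw [ha]; exact one_ne_zero),
      ← PowerSeries.coe_substAlgHom (PowerSeries.HasSubst.X_pow hk), map_one]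

theorem I2_subst_lin {k : ℕ} (hk : k ≠ 0) (c : ℂ) :
    (1 - PowerSeries.C c * PowerSeries.X : PowerSeries ℂ).subst (PowerSeries.X ^ k : PowerSeries ℂ) =
      1 - PowerSeries.C c * PowerSeries.X ^ k := by
  have h := PowerSeries.HasSubst.X_pow (R := ℂ) hk
  have e1 : (1 - PowerSeries.C c * PowerSeries.X : PowerSeries ℂ).subst (PowerSeries.X ^ k : PowerSeries ℂ)
      = PowerSeries.substAlgHom (R := ℂ) h (1 - PowerSeries.C c * PowerSeries.X : PowerSeries ℂ) := by
    rw [PowerSeries.coe_substAlgHom]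
  rw [e1, map_sub, map_one, map_mul]
  congr 1
  have e2 : (PowerSeries.substAlgHom (R := ℂ) h) (PowerSeries.C c) = PowerSeries.C c := by
    have := (PowerSeries.substAlgHom (R := ℂ) h).commutes c
    simpa using this
  have e3 : (PowerSeries.substAlgHom (R := ℂ) h) (PowerSeries.X : PowerSeries ℂ) = PowerSeries.X ^ k :=
    PowerSeries.substAlgHom_X h
  rw [e2, e3]

theorem I2_ofPS_pow {q k : ℕ} (hk : k ≠ 0) (c d : ℂ) :
    ArithmeticFunction.ofPowerSeries (q ^ k)
      (((1 - PowerSeries.C c * PowerSeries.X) * (1 - PowerSeries.C d * PowerSeries.X) :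
        PowerSeries ℂ)⁻¹) =
    ArithmeticFunction.ofPowerSeries q ((1 - PowerSeries.C c * PowerSeries.X ^ k)⁻¹ *
      (1 - PowerSeries.C d * PowerSeries.X ^ k)⁻¹) := by
  rw [ArithmeticFunction.ofPowerSeries_pow q hk, I2_subst_inv hk _ (by simp),
    PowerSeries.subst_mul (PowerSeries.HasSubst.X_pow hk), I2_subst_lin hk, I2_subst_lin hk,
    PowerSeries.mul_inv_rev, mul_comm]

variable {K : Type*} [Field K] [NumberField K] [Algebra F K]












end H55B
end

-- from Lib.H55C.B8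
section

open NumberField IsDedekindDomain

namespace H55C

open H55B




variable {K : Type} [Field K] [NumberField K] [Algebra F K]

omit [Algebra F K] in
theorem b8_one_lt (w : HeightOneSpectrum (𝓞 K)) : 1 < Ideal.absNorm w.asIdeal := by
  have h1 : Ideal.absNorm w.asIdeal ≠ 1 := by
    rw [Ne, Ideal.absNorm_eq_one_iff]; exact w.isPrime.ne_top
  have h0 : Ideal.absNorm w.asIdeal ≠ 0 := by
    rw [Ne, Ideal.absNorm_eq_zero_iff]; exact w.ne_bot
  omega





end H55C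
end

-- from Lib.H55N.H5
section

open NumberField IsDedekindDomain

namespace H55N

open H55B H55C

section H5

variable {K : Type} [Field K] [NumberField K]

/-- The ideals of norm n. -/
noncomputable def H5_fs (K : Type) [Field K] [NumberField K] (n : ℕ) : Finset (Ideal (𝓞 K)) :=
  (Ideal.finite_setOf_absNorm_eq n).toFinset

theorem H5_mem_fs {n : ℕ} {a : Ideal (𝓞 K)} : a ∈ H5_fs K n ↔ Ideal.absNorm a = n := by
  unfold H5_fs
  rw [Set.Finite.mem_toFinset]
  rfl

/-- All prime divisors of a are in S. -/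
def H5_sp (S : Finset (HeightOneSpectrum (𝓞 K))) (a : Ideal (𝓞 K)) : Prop :=
  ∀ w : HeightOneSpectrum (𝓞 K), a ≤ w.asIdeal → w ∈ S

open Classical in
/-- The partial Euler products. -/
noncomputable def H5_B (h : Ideal (𝓞 K) →*₀ ℂ) (S : Finset (HeightOneSpectrum (𝓞 K))) :
    ArithmeticFunction ℂ where
  toFun n := if n = 0 then 0 else ∑ a ∈ (H5_fs K n).filter (H5_sp S), h a
  map_zero' := if_pos rfl

open Classical in
theorem H5_B_apply (h : Ideal (𝓞 K) →*₀ ℂ) (S : Finset (HeightOneSpectrum (𝓞 K))) {n : ℕ}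
    (hn : n ≠ 0) : H5_B h S n = ∑ a ∈ (H5_fs K n).filter (H5_sp S), h a := if_neg hn

theorem H5_ne_bot {n : ℕ} (hn : n ≠ 0) {a : Ideal (𝓞 K)} (ha : Ideal.absNorm a = n) :
    a ≠ ⊥ := by
  rintro rfl
  apply hn
  rw [← ha]
  exact Ideal.absNorm_bot

theorem H5_B_empty (h : Ideal (𝓞 K) →*₀ ℂ) : H5_B h ∅ = 1 := by
  classical
  ext n
  by_cases hn : n = 0
  · subst hn
    rw [ArithmeticFunction.map_zero, ArithmeticFunction.map_zero]
  rw [H5_B_apply h ∅ hn]
  by_cases h1 : n = 1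
  · subst h1
    rw [ArithmeticFunction.one_one]
    have h2 : (H5_fs K 1).filter (H5_sp ∅) = {1} := by
      ext a
      rw [Finset.mem_filter, Finset.mem_singleton, H5_mem_fs, Ideal.absNorm_eq_one_iff,
        Ideal.one_eq_top]
      constructor
      · exact fun h => h.1
      · rintro rfl
        refine ⟨rfl, ?_⟩
        intro w hw
        exact absurd (top_le_iff.1 hw) w.isPrime.ne_top
    rw [h2, Finset.sum_singleton, map_one]
  · rw [ArithmeticFunction.one_apply_ne h1]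
    apply Finset.sum_eq_zero
    intro a ha
    exfalso
    rw [Finset.mem_filter, H5_mem_fs] at ha
    obtain ⟨ha1, ha2⟩ := ha
    have hat : a ≠ ⊤ := by
      rintro rfl
      rw [Ideal.absNorm_top] at ha1
      exact h1 ha1.symm
    obtain ⟨M, hM, hM2⟩ := Ideal.exists_le_maximal _ hat
    have hM0 : M ≠ ⊥ := by
      rintro rfl
      exact H5_ne_bot hn ha1 (le_bot_iff.1 hM2)
    exact absurd (ha2 ⟨M, hM.isPrime, hM0⟩ hM2) (Finset.notMem_empty _)

theorem H5_le {w v : HeightOneSpectrum (𝓞 K)} (h : w.asIdeal ≤ v.asIdeal) : w = v :=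
  HeightOneSpectrum.ext
    ((w.isPrime.isMaximal w.ne_bot).eq_of_le v.isPrime.ne_top h)

theorem H5_sp_mul (S : Finset (HeightOneSpectrum (𝓞 K))) (w : HeightOneSpectrum (𝓞 K))
    [DecidableEq (HeightOneSpectrum (𝓞 K))] (a : Ideal (𝓞 K)) :
    H5_sp (insert w S) (w.asIdeal * a) ↔ H5_sp (insert w S) a := by
  constructor
  · intro h v hv
    exact h v (Ideal.mul_le_right.trans hv)
  · intro h v hv
    rcases v.isPrime.mul_le.1 hv with h1 | h1
    · rw [H5_le h1]
      exact Finset.mem_insert_self _ _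
    · exact h v h1

theorem H5_rec [DecidableEq (HeightOneSpectrum (𝓞 K))] (h : Ideal (𝓞 K) →*₀ ℂ)
    (S : Finset (HeightOneSpectrum (𝓞 K)))
    (w : HeightOneSpectrum (𝓞 K)) (hw : w ∉ S) {n : ℕ} (hn : n ≠ 0) :
    H5_B h (insert w S) n = (if Ideal.absNorm w.asIdeal ∣ n then
      h w.asIdeal * H5_B h (insert w S) (n / Ideal.absNorm w.asIdeal) else 0) + H5_B h S n := by
  classical
  rw [H5_B_apply h _ hn, H5_B_apply h S hn]
  rw [← Finset.sum_filter_add_sum_filter_not _ (fun a : Ideal (𝓞 K) => a ≤ w.asIdeal)]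
  congr 1
  · split_ifs with hd
    · obtain ⟨k, rfl⟩ := hd
      have hq : Ideal.absNorm w.asIdeal ≠ 0 := left_ne_zero_of_mul hn
      have hk : k ≠ 0 := right_ne_zero_of_mul hn
      rw [Nat.mul_div_cancel_left k (Nat.pos_of_ne_zero hq), H5_B_apply h _ hk, Finset.mul_sum]
      symm
      refine Finset.sum_nbij (fun a => w.asIdeal * a) ?_ ?_ ?_ ?_
      · intro a ha
        rw [Finset.mem_filter, H5_mem_fs] at ha
        rw [Finset.mem_filter, Finset.mem_filter, H5_mem_fs]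
        refine ⟨⟨?_, ?_⟩, Ideal.mul_le_left⟩
        · rw [map_mul, ha.1]
        · exact (H5_sp_mul S w a).2 ha.2
      · intro a _ b _ hab
        exact mul_left_cancel₀ (show w.asIdeal ≠ 0 from w.ne_bot) hab
      · intro a ha
        rw [Finset.mem_coe, Finset.mem_filter, Finset.mem_filter, H5_mem_fs] at ha
        obtain ⟨⟨h1, h2⟩, h3⟩ := ha
        obtain ⟨b, hb⟩ := Ideal.dvd_iff_le.2 h3
        refine ⟨b, ?_, hb.symm⟩
        rw [Finset.mem_coe, Finset.mem_filter, H5_mem_fs]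
        rw [hb, map_mul] at h1
        refine ⟨Nat.eq_of_mul_eq_mul_left (Nat.pos_of_ne_zero hq) h1, ?_⟩
        rw [hb, H5_sp_mul] at h2
        exact h2
      · intro a _
        rw [map_mul]
    · apply Finset.sum_eq_zero
      intro a ha
      exfalso
      rw [Finset.mem_filter, Finset.mem_filter, H5_mem_fs] at ha
      apply hd
      rw [← ha.1.1]
      exact Ideal.absNorm_dvd_absNorm_of_le ha.2
  · refine Finset.sum_congr ?_ fun _ _ => rfl
    ext a
    rw [Finset.mem_filter, Finset.mem_filter, Finset.mem_filter]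
    constructor
    · rintro ⟨⟨h1, h2⟩, h3⟩
      refine ⟨h1, fun v hv => ?_⟩
      rcases Finset.mem_insert.1 (h2 v hv) with h4 | h4
      · exact absurd (h4 ▸ hv) h3
      · exact h4
    · rintro ⟨h1, h2⟩
      refine ⟨⟨h1, fun v hv => Finset.mem_insert_of_mem (h2 v hv)⟩, fun h3 => hw (h2 w h3)⟩

theorem H5_X {q : ℕ} (hq : 1 < q) (B : ArithmeticFunction ℂ) {n : ℕ} (hn : n ≠ 0) :
    (ArithmeticFunction.ofPowerSeries q (PowerSeries.X : PowerSeries ℂ) * B) n =
      if q ∣ n then B (n / q) else 0 := by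
  have hX : ∀ d : ℕ, ArithmeticFunction.ofPowerSeries q (PowerSeries.X : PowerSeries ℂ) d =
      if d = q then 1 else 0 := by
    intro d
    by_cases hd : ∃ k, q ^ k = d
    · obtain ⟨k, rfl⟩ := hd
      rw [ArithmeticFunction.ofPowerSeries_apply_pow hq, PowerSeries.coeff_X]
      by_cases hk : k = 1
      · subst hk
        simp
      · rw [if_neg hk, if_neg]
        intro h
        apply hk
        have h2 : q ^ k = q ^ 1 := by rw [h, pow_one]
        exact Nat.pow_right_injective hq h2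
    · rw [ArithmeticFunction.ofPowerSeries_apply hq, Function.extend_apply' _ _ _ hd, if_neg]
      · rfl
      · intro h
        exact hd ⟨1, by rw [pow_one, h]⟩
  rw [ArithmeticFunction.mul_apply]
  simp only [hX, ite_mul, one_mul, zero_mul]
  split_ifs with hd
  · obtain ⟨k, rfl⟩ := hd
    rw [Nat.mul_div_cancel_left k (by omega)]
    rw [Finset.sum_eq_single (q, k)]
    · simp
    · rintro ⟨d, e⟩ h1 h2
      rw [Nat.mem_divisorsAntidiagonal] at h1
      rw [if_neg]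
      rintro rfl
      apply h2
      have h3 : e = k := Nat.eq_of_mul_eq_mul_left (by omega) h1.1
      rw [h3]
    · intro h1
      exfalso
      apply h1
      rw [Nat.mem_divisorsAntidiagonal]
      exact ⟨rfl, hn⟩
  · apply Finset.sum_eq_zero
    rintro ⟨d, e⟩ h1
    rw [Nat.mem_divisorsAntidiagonal] at h1
    rw [if_neg]
    rintro rfl
    exact hd ⟨e, h1.1.symm⟩

theorem H5_step [DecidableEq (HeightOneSpectrum (𝓞 K))] (h : Ideal (𝓞 K) →*₀ ℂ)
    (S : Finset (HeightOneSpectrum (𝓞 K)))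
    (w : HeightOneSpectrum (𝓞 K)) (hw : w ∉ S) :
    ArithmeticFunction.ofPowerSeries (Ideal.absNorm w.asIdeal)
        ((1 - PowerSeries.C (h w.asIdeal) * PowerSeries.X)⁻¹ : PowerSeries ℂ) * H5_B h S =
      H5_B h (insert w S) := by
  have hq := b8_one_lt w
  have h1 : H5_B h S = ArithmeticFunction.ofPowerSeries (Ideal.absNorm w.asIdeal)
        ((1 - PowerSeries.C (h w.asIdeal) * PowerSeries.X) : PowerSeries ℂ) *
        H5_B h (insert w S) := by
    have h2 : (1 - PowerSeries.C (h w.asIdeal) * PowerSeries.X : PowerSeries ℂ) =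
        1 - (h w.asIdeal) • PowerSeries.X := by
      rw [PowerSeries.smul_eq_C_mul]
    rw [h2, map_sub, map_one, map_smul, sub_mul, one_mul, smul_mul_assoc]
    ext n
    by_cases hn : n = 0
    · subst hn
      rw [ArithmeticFunction.map_zero, ArithmeticFunction.map_zero]
    have h3 := H5_rec h S w hw hn
    have h4 := H5_X hq (H5_B h (insert w S)) hn
    have h5 : (H5_B h (insert w S) - h w.asIdeal •
        (ArithmeticFunction.ofPowerSeries (Ideal.absNorm w.asIdeal)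
          (PowerSeries.X : PowerSeries ℂ) * H5_B h (insert w S))) n =
        H5_B h (insert w S) n - h w.asIdeal *
        (ArithmeticFunction.ofPowerSeries (Ideal.absNorm w.asIdeal)
          (PowerSeries.X : PowerSeries ℂ) * H5_B h (insert w S)) n := by
      rw [sub_eq_add_neg, ArithmeticFunction.add_apply, ArithmeticFunction.neg_apply,
        ArithmeticFunction.smul_map, smul_eq_mul, sub_eq_add_neg]
    rw [h5, h4]
    have h6 : H5_B h (insert w S) n = (if Ideal.absNorm w.asIdeal ∣ n then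
      h w.asIdeal * H5_B h (insert w S) (n / Ideal.absNorm w.asIdeal) else 0) +
        H5_B h S n := by
      exact h3
    rw [h6]
    split_ifs <;> ring
  rw [h1, ← mul_assoc, ← map_mul, PowerSeries.inv_mul_cancel _ (by simp), map_one, one_mul]

/-- Chunk H5 (M/L), formal Euler product. For a finite set S of primes put B_S(n) = the sum of h a over the ideals a of norm n all of
whose prime factors are in S (n <> 0). By induction on S the finite product over S is B_S: the factor of w is the arithmetic function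
with value h(w)^k at N(w)^k and 0 elsewhere (b8_ps in H55C.B8, ArithmeticFunction.ofPowerSeries_apply), and every ideal
a supported on S + w is uniquely w^k a' with a' supported on S, N(a) = N(w)^k N(a'), h(a) = h(w)^k h(a'). If S contains
all primes of norm <= n (finitely many: Ideal.finite_setOf_absNorm_le and injectivity of asIdeal), then B_S(n) = AI h n for
n <> 0. For n = 0 both sides are 0. Compare the Euler product for O in H55B.I1. -/
theorem AI_euler {K : Type} [Field K] [NumberField K] (h : Ideal (𝓞 K) →*₀ ℂ) (n : ℕ) :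
    ∀ᶠ S : Finset (HeightOneSpectrum (𝓞 K)) in Filter.atTop,
      (∏ w ∈ S, ArithmeticFunction.ofPowerSeries (Ideal.absNorm w.asIdeal)
        ((1 - PowerSeries.C (h w.asIdeal) * PowerSeries.X)⁻¹ : PowerSeries ℂ)) n = AI h n := by
  classical
  have hprod : ∀ S : Finset (HeightOneSpectrum (𝓞 K)),
      (∏ w ∈ S, ArithmeticFunction.ofPowerSeries (Ideal.absNorm w.asIdeal)
        ((1 - PowerSeries.C (h w.asIdeal) * PowerSeries.X)⁻¹ : PowerSeries ℂ)) = H5_B h S := by
    intro S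
    induction S using Finset.induction_on with
    | empty => rw [Finset.prod_empty, H5_B_empty]
    | insert w S hw ih => rw [Finset.prod_insert hw, ih, H5_step h S w hw]
  by_cases hn : n = 0
  · subst hn
    filter_upwards with S
    rw [ArithmeticFunction.map_zero, ArithmeticFunction.map_zero]
  have hfin : {w : HeightOneSpectrum (𝓞 K) | Ideal.absNorm w.asIdeal ≤ n}.Finite := by
    have h1 := Ideal.finite_setOf_absNorm_le (S := 𝓞 K) n
    exact h1.preimage (f := fun w : HeightOneSpectrum (𝓞 K) => w.asIdeal)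
      (fun v _ w _ hvw => HeightOneSpectrum.ext hvw)
  filter_upwards [Filter.eventually_ge_atTop hfin.toFinset] with S hS
  rw [hprod, H5_B_apply h S hn]
  have h2 : AI h n = ∑ᶠ (a : Ideal (𝓞 K)) (_ : Ideal.absNorm a = n), h a := if_neg hn
  rw [h2]
  have h3 : ∑ᶠ (a : Ideal (𝓞 K)) (_ : Ideal.absNorm a = n), h a =
      ∑ a ∈ H5_fs K n, h a := by
    rw [← finsum_mem_finset_eq_sum]
    refine finsum_congr fun a => ?_
    simp only [H5_mem_fs]
  rw [h3]
  refine Finset.sum_congr ?_ fun _ _ => rfl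
  rw [Finset.filter_eq_self]
  intro a ha w hw
  rw [H5_mem_fs] at ha
  apply hS
  rw [Set.Finite.mem_toFinset, Set.mem_setOf_eq]
  have h4 := Ideal.absNorm_dvd_absNorm_of_le hw
  rw [ha] at h4
  exact Nat.le_of_dvd (Nat.pos_of_ne_zero hn) h4

end H5

end H55N
end

-- from Lib.H55P.B10
section

open NumberField IsDedekindDomain

namespace H55P

open H55N
open H55B (g)

variable {F : Type} [Field F] [NumberField F] [IQ F] {K : Type} [Field K] [NumberField K] [Algebra F K] {m : ℕ} {P : Type}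

/-! Chunk B10 (M). The functions 1/Tr(A_k x) and the product cutoffs. X = D.X is stable under x -> x - w_i (Dirs.mem).
SV: 1 + |Tr(A_k, x - w)| <= (1 + C)(1 + |Tr(A_k, x)|) and conversely; gl is the inverse.
good_tr: Tr(A_k, .) is additive, |Tr(A_k, w_i)| = 0 if k <> i.1 (orth) and <= C = C (1 + |Tr(A_k, x)|) gl i x if k = i.1; so it is Good with weight
1 + |Tr(A_k,x)| and Good.inv applies: |Tr| >= (1 + |Tr|)/2 by low.
good_pcut: each factor is 1/h_R, h_R = 1 + |Tr(A_k,x)|^2/R^2 = β_R: SV uniformly in R >= 1 (|y - w|^2 <= 2|y|^2 + 2|w|^2), h_R is Good with weight β_R: it is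
1 + R^(-2) Tr conj(Tr); differences: D_i for i.1 = k is O((1+|Tr|)/R^2) <= C β_R / (1+|Tr|) because (1+|Tr|)^2 <= 4 |Tr|^2 <= 4 R^2 β_R on X;
second differences O(1/R^2) <= C β_R (1+|Tr|)^(-2); the others vanish. (Prove it by Good.mul for Tr * conj Tr with weight (1+|Tr|)^2, then multiply by R^(-2) and use
(1+|Tr|)^2 / R^2 <= 4 β_R and Good.mono, plus the constant 1.) Good.inv, then Good.prod over k, weights prod 1/β_R <= 1 (Good.mono).
gl_gs: 1/sz x <= C gl i x (Tr_le). -/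

/-- A bound for the traces of the directions. -/
noncomputable def B10_C (D : Ctx F K m) (A : Fin (m + 1) → K) (w : Fin (m + 1) × Fin 2 → 𝓞 K) : ℝ :=
  1 + ∑ k, ∑ i, ‖D.Tr (A k) (w i)‖

theorem B10_le_C (D : Ctx F K m) (A : Fin (m + 1) → K) (w : Fin (m + 1) × Fin 2 → 𝓞 K)
    (k : Fin (m + 1)) (i : Fin (m + 1) × Fin 2) : 1 + ‖D.Tr (A k) (w i)‖ ≤ B10_C D A w := by
  unfold B10_C
  have h1 : ‖D.Tr (A k) (w i)‖ ≤ ∑ i, ‖D.Tr (A k) (w i)‖ :=
    Finset.single_le_sum (f := fun i => ‖D.Tr (A k) (w i)‖) (fun i _ => norm_nonneg _)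
      (Finset.mem_univ i)
  have h2 : ∑ i, ‖D.Tr (A k) (w i)‖ ≤ ∑ k, ∑ i, ‖D.Tr (A k) (w i)‖ :=
    Finset.single_le_sum (f := fun k => ∑ i, ‖D.Tr (A k) (w i)‖)
      (fun k _ => Finset.sum_nonneg fun i _ => norm_nonneg _) (Finset.mem_univ k)
  linarith

theorem B10_one_le_C (D : Ctx F K m) (A : Fin (m + 1) → K) (w : Fin (m + 1) × Fin 2 → 𝓞 K) :
    1 ≤ B10_C D A w := by
  have h1 := B10_le_C D A w 0 (0, 0)
  have h2 := norm_nonneg (D.Tr (A 0) (w (0, 0)))
  linarith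

theorem B10_tri (D : Ctx F K m) (a : K) (x y : 𝓞 K) :
    ‖D.Tr a (x - y)‖ ≤ ‖D.Tr a x‖ + ‖D.Tr a y‖ ∧ ‖D.Tr a x‖ ≤ ‖D.Tr a (x - y)‖ + ‖D.Tr a y‖ := by
  rw [D.Tr_sub]
  refine ⟨norm_sub_le _ _, ?_⟩
  have h3 : D.Tr a x = (D.Tr a x - D.Tr a y) + D.Tr a y := by ring
  calc ‖D.Tr a x‖ = ‖(D.Tr a x - D.Tr a y) + D.Tr a y‖ := by rw [← h3]
    _ ≤ _ := norm_add_le _ _

theorem B10_b (D : Ctx F K m) (A : Fin (m + 1) → K) (w : Fin (m + 1) × Fin 2 → 𝓞 K)
    (k : Fin (m + 1)) (i : Fin (m + 1) × Fin 2) (x : 𝓞 K) :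
    1 + ‖D.Tr (A k) (x - w i)‖ ≤ B10_C D A w * (1 + ‖D.Tr (A k) x‖) ∧
    1 + ‖D.Tr (A k) x‖ ≤ B10_C D A w * (1 + ‖D.Tr (A k) (x - w i)‖) := by
  obtain ⟨h1, h2⟩ := B10_tri D (A k) x (w i)
  have h3 := B10_le_C D A w k i
  have h4 := norm_nonneg (D.Tr (A k) (w i))
  have h5 := norm_nonneg (D.Tr (A k) x)
  have h6 := norm_nonneg (D.Tr (A k) (x - w i))
  constructor <;> nlinarith

theorem B10_inv {a b C : ℝ} (ha : 0 < a) (hb : 0 < b) (h : b ≤ C * a) : a⁻¹ ≤ C * b⁻¹ := by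
  rw [← div_eq_mul_inv, le_div_iff₀ hb, inv_mul_le_iff₀ ha]
  linarith

theorem sv_tr (D : Ctx F K m) (A : Fin (m + 1) → K) (w : Fin (m + 1) × Fin 2 → 𝓞 K)
    (k : Fin (m + 1)) : SV D.X w fun (_ : P) x => 1 + ‖D.Tr (A k) x‖ := by
  refine ⟨fun _ x _ => by positivity, B10_C D A w, ?_⟩
  intro _ x _ i
  exact B10_b D A w k i x

theorem sv_gl (D : Ctx F K m) (A : Fin (m + 1) → K) (w : Fin (m + 1) × Fin 2 → 𝓞 K) :
    SV D.X w (D.gl A) := by
  refine ⟨fun q x _ => by unfold Ctx.gl; positivity, B10_C D A w, ?_⟩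
  intro q x _ i
  obtain ⟨h1, h2⟩ := B10_b D A w q.1 i x
  unfold Ctx.gl
  exact ⟨B10_inv (by positivity) (by positivity) h2, B10_inv (by positivity) (by positivity) h1⟩

theorem sv_bl (D : Ctx F K m) (A : Fin (m + 1) → K) (w : Fin (m + 1) × Fin 2 → 𝓞 K) :
    SV D.X w fun (_ : P) x => D.bl A x := by
  refine ⟨fun _ x _ => ?_, B10_C D A w ^ (m + 1), ?_⟩
  · unfold Ctx.bl
    exact Finset.prod_pos fun k _ => by positivity
  · intro _ x _ i
    unfold Ctx.bl
    have hc : B10_C D A w ^ (m + 1) = ∏ _k : Fin (m + 1), B10_C D A w := by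
      rw [Finset.prod_const, Finset.card_univ, Fintype.card_fin]
    rw [hc, ← Finset.prod_mul_distrib, ← Finset.prod_mul_distrib]
    constructor
    · apply Finset.prod_le_prod (fun k _ => by positivity)
      intro k _
      exact B10_inv (by positivity) (by positivity) (B10_b D A w k i x).2
    · apply Finset.prod_le_prod (fun k _ => by positivity)
      intro k _
      exact B10_inv (by positivity) (by positivity) (B10_b D A w k i x).1

theorem gs_le_gl (D : Ctx F K m) (A : Fin (m + 1) → K) : ∃ C : ℝ, 0 < C ∧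
    (∀ x k, (D.sz x)⁻¹ ≤ C * (1 + ‖D.Tr (A k) x‖)⁻¹) ∧
    ∀ (i : Fin (m + 1) × Fin 2) x, D.gs i x ≤ C * D.gl A i x := by
  choose C hC h using fun k => Tr_le D (A k)
  have h1 : ∀ k, C k ≤ ∑ k, C k := fun k =>
    Finset.single_le_sum (f := C) (fun k _ => (hC k).le) (Finset.mem_univ k)
  have h2 : 0 < ∑ k, C k := lt_of_lt_of_le (hC 0) (h1 0)
  have h3 : ∀ x k, (D.sz x)⁻¹ ≤ (∑ k, C k) * (1 + ‖D.Tr (A k) x‖)⁻¹ := by
    intro x k
    apply B10_inv (D.sz_pos x) (by positivity)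
    exact (h k x).trans (mul_le_mul_of_nonneg_right (h1 k) (D.sz_pos x).le)
  exact ⟨∑ k, C k, h2, h3, fun i x => h3 x i.1⟩

theorem B10_X (D : Ctx F K m) (A : Fin (m + 1) → K) (w : Fin (m + 1) × Fin 2 → 𝓞 K)
    (h : D.Dirs A w) : ∀ x ∈ D.X, ∀ i, x - w i ∈ D.X := fun _ hx i => D.X_sub hx (h.mem i)

theorem B10_T (D : Ctx F K m) (A : Fin (m + 1) → K) (w : Fin (m + 1) × Fin 2 → 𝓞 K)
    (h : D.Dirs A w) (k : Fin (m + 1)) : Good D.X w (D.gl A)
      (fun (_ : P) x => 1 + ‖D.Tr (A k) x‖) (fun _ x => D.Tr (A k) x) := by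
  apply Good.additive (fun _ x _ => by positivity) (fun i x _ => by unfold Ctx.gl; positivity)
    (fun _ x y => D.Tr_sub (A k) x y) (B10_C D A w)
  · intro _ x _
    have h1 := B10_one_le_C D A w
    have h2 := norm_nonneg (D.Tr (A k) x)
    nlinarith
  · intro _ x _ i
    have h0 := B10_one_le_C D A w
    by_cases hk : k = i.1
    · have h1 := B10_le_C D A w k i
      have h2 : B10_C D A w * (1 + ‖D.Tr (A k) x‖) * D.gl A i x = B10_C D A w := by
        unfold Ctx.gl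
        rw [← hk]
        have : 0 < 1 + ‖D.Tr (A k) x‖ := by positivity
        field_simp
      rw [h2]
      linarith
    · rw [h.orth i k hk, norm_zero]
      unfold Ctx.gl
      positivity

theorem good_tr (D : Ctx F K m) (A : Fin (m + 1) → K) (w : Fin (m + 1) × Fin 2 → 𝓞 K)
    (h : D.Dirs A w) (k : Fin (m + 1)) : Good D.X w (D.gl A)
      (fun (_ : P) x => (1 + ‖D.Tr (A k) x‖)⁻¹) (fun _ x => (D.Tr (A k) x)⁻¹) := by
  apply Good.inv (B10_X D A w h) (sv_gl D A w) (sv_tr D A w k) (B10_T D A w h k) (1 / 2)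
    (by norm_num)
  intro _ x hx
  have h1 := h.low x hx k
  linarith

/-- The functions 1 + |Tr|^2/R^2. -/
noncomputable def B10_h (D : Ctx F K m) (A : Fin (m + 1) → K) (k : Fin (m + 1)) (R : ℝ) (x : 𝓞 K) :
    ℝ := 1 + ‖D.Tr (A k) x‖ ^ 2 * (R ^ 2)⁻¹

theorem B10_h_pos (D : Ctx F K m) (A : Fin (m + 1) → K) (k : Fin (m + 1)) (R : ℝ) (x : 𝓞 K) :
    1 ≤ B10_h D A k R x := by
  unfold B10_h
  have : 0 ≤ ‖D.Tr (A k) x‖ ^ 2 * (R ^ 2)⁻¹ := by positivity
  linarith

theorem B10_num (a b c r C : ℝ) (ha : 0 ≤ a) (hb : 0 ≤ b) (hc : 0 ≤ c) (h : a ≤ b + c)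
    (hC : 1 + c ≤ C) (hr : 0 ≤ r) (hr1 : r ≤ 1) :
    1 + a ^ 2 * r ≤ (2 + 2 * C ^ 2) * (1 + b ^ 2 * r) := by
  have h1 : a ^ 2 ≤ 2 * b ^ 2 + 2 * c ^ 2 := by nlinarith [sq_nonneg (b - c)]
  have h2 : a ^ 2 * r ≤ (2 * b ^ 2 + 2 * c ^ 2) * r := mul_le_mul_of_nonneg_right h1 hr
  have h3 : c ^ 2 * r ≤ c ^ 2 := by nlinarith [sq_nonneg c]
  have h4 : c ^ 2 ≤ C ^ 2 := by nlinarith
  have h5 : 0 ≤ b ^ 2 * r := by positivity
  have h6 : 0 ≤ C ^ 2 * (b ^ 2 * r) := by positivity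
  nlinarith

theorem B10_sv_h (D : Ctx F K m) (A : Fin (m + 1) → K) (w : Fin (m + 1) × Fin 2 → 𝓞 K)
    (R : P → ℝ) (hR : ∀ q, 1 ≤ R q) (k : Fin (m + 1)) :
    SV D.X w fun (q : P) x => B10_h D A k (R q) x := by
  refine ⟨fun q x _ => lt_of_lt_of_le one_pos (B10_h_pos D A k (R q) x),
    2 + 2 * B10_C D A w ^ 2, ?_⟩
  intro q x _ i
  obtain ⟨h1, h2⟩ := B10_tri D (A k) x (w i)
  have h3 := B10_le_C D A w k i
  have h4 := norm_nonneg (D.Tr (A k) (w i))
  have h5 := norm_nonneg (D.Tr (A k) x)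
  have h6 := norm_nonneg (D.Tr (A k) (x - w i))
  have h7 : (0 : ℝ) ≤ (R q ^ 2)⁻¹ := by positivity
  have h8 : (R q ^ 2)⁻¹ ≤ 1 := by
    apply inv_le_one_of_one_le₀
    nlinarith [hR q]
  exact ⟨B10_num _ _ _ _ _ h6 h5 h4 h1 h3 h7 h8, B10_num _ _ _ _ _ h5 h6 h4 h2 h3 h7 h8⟩

theorem B10_fac (D : Ctx F K m) (A : Fin (m + 1) → K) (w : Fin (m + 1) × Fin 2 → 𝓞 K)
    (h : D.Dirs A w) (R : P → ℝ) (hR : ∀ q, 1 ≤ R q) (k : Fin (m + 1)) : Good D.X w (D.gl A)
      (fun (_ : P) _ => (1 : ℝ)) (fun q x => ((B10_h D A k (R q) x : ℂ))⁻¹) := by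
  have hX := B10_X D A w h
  have hgl := sv_gl D A w
  have hgl0 : ∀ i, ∀ x ∈ D.X, 0 ≤ D.gl A i x := fun i x _ => by unfold Ctx.gl; positivity
  have hR0 : ∀ q, 0 < R q := fun q => lt_of_lt_of_le one_pos (hR q)
  -- the square
  have g1 := Good.mul hX hgl (sv_tr (P := P) D A w k) (sv_tr (P := P) D A w k)
    (B10_T D A w h k) (Good.conj (B10_T D A w h k))
  have svR : SV D.X w fun (q : P) (_ : 𝓞 K) => (R q ^ 2)⁻¹ := by
    refine ⟨fun q x _ => by have := hR0 q; positivity, 1, ?_⟩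
    intro q x _ i
    constructor <;> linarith
  have g2 : Good D.X w (D.gl A) (fun (q : P) (_ : 𝓞 K) => (R q ^ 2)⁻¹)
      (fun q _ => (((R q ^ 2)⁻¹ : ℝ) : ℂ)) := by
    apply Good.const (fun q x _ => by positivity) hgl0 _ 1
    intro q x _
    rw [Complex.norm_real, Real.norm_eq_abs, abs_of_nonneg (by positivity), one_mul]
  have g3 := Good.mul hX hgl (SV.mul hX (sv_tr (P := P) D A w k) (sv_tr (P := P) D A w k)) svR g1 g2
  have g4 : Good D.X w (D.gl A) (fun (q : P) x => B10_h D A k (R q) x)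
      (fun q x => D.Tr (A k) x * (starRingEnd ℂ) (D.Tr (A k) x) * (((R q ^ 2)⁻¹ : ℝ) : ℂ)) := by
    apply Good.mono g3 hgl0 4 (by norm_num)
    · intro q x hx
      have h1 := h.low x hx k
      have h2 : (0 : ℝ) ≤ (R q ^ 2)⁻¹ := by positivity
      refine ⟨by positivity, ?_⟩
      unfold B10_h
      have h3 : (1 + ‖D.Tr (A k) x‖) * (1 + ‖D.Tr (A k) x‖) ≤ 4 * ‖D.Tr (A k) x‖ ^ 2 := by
        nlinarith
      have h4 := mul_le_mul_of_nonneg_right h3 h2
      nlinarith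
    · intro i x hx
      have := hgl0 i x hx
      linarith
  have g5 : Good D.X w (D.gl A) (fun (q : P) x => B10_h D A k (R q) x)
      (fun _ _ => (1 : ℂ)) := by
    apply Good.const (fun q x _ => (zero_le_one.trans (B10_h_pos D A k (R q) x))) hgl0 _ 1
    intro q x _
    rw [norm_one, one_mul]
    exact B10_h_pos D A k (R q) x
  have g6 := Good.add g5 g4
  have g7 : Good D.X w (D.gl A) (fun (q : P) x => B10_h D A k (R q) x)
      (fun q x => (B10_h D A k (R q) x : ℂ)) := by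
    have eq1 : (fun (q : P) (x : 𝓞 K) => (B10_h D A k (R q) x : ℂ)) = fun (q : P) (x : 𝓞 K) =>
        (1 : ℂ) + D.Tr (A k) x * (starRingEnd ℂ) (D.Tr (A k) x) * (((R q ^ 2)⁻¹ : ℝ) : ℂ) := by
      funext q x
      unfold B10_h
      rw [Complex.mul_conj, Complex.normSq_eq_norm_sq]
      push_cast
      ring
    rw [eq1]
    exact g6
  have g8 := Good.inv hX hgl (B10_sv_h D A w R hR k) g7 1 one_pos (by
    intro q x _
    rw [Complex.norm_real, Real.norm_eq_abs, one_mul]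
    exact le_abs_self _)
  apply Good.mono g8 hgl0 1 zero_le_one
  · intro q x _
    have h1 := B10_h_pos D A k (R q) x
    refine ⟨by positivity, ?_⟩
    rw [mul_one]
    exact inv_le_one_of_one_le₀ h1
  · intro i x _
    rw [one_mul]

theorem good_pcut (D : Ctx F K m) (A : Fin (m + 1) → K) (w : Fin (m + 1) × Fin 2 → 𝓞 K)
    (h : D.Dirs A w) (R : P → ℝ) (hR : ∀ q, 1 ≤ R q) : Good D.X w (D.gl A)
      (fun (_ : P) _ => (1 : ℝ)) (fun q x => (D.pcut A (R q) x : ℂ)) := by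
  have h1 := Good.prod (B10_X D A w h) (sv_gl D A w) (Finset.univ : Finset (Fin (m + 1)))
    (fun _ (_ : P) _ => (1 : ℝ)) (fun k q x => ((B10_h D A k (R q) x : ℂ))⁻¹)
    (fun _ _ => SV.one) (fun k _ => B10_fac D A w h R hR k)
  simp only [Finset.prod_const_one] at h1
  have eq1 : (fun (q : P) (x : 𝓞 K) => (D.pcut A (R q) x : ℂ)) = fun (q : P) (x : 𝓞 K) =>
      ∏ k, ((B10_h D A k (R q) x : ℂ))⁻¹ := by
    funext q x
    unfold Ctx.pcut
    rw [Complex.ofReal_prod]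
    refine Finset.prod_congr rfl fun k _ => ?_
    rw [← Complex.ofReal_inv]
    congr 1
    unfold B10_h
    have hR0 : 0 < R q := lt_of_lt_of_le one_pos (hR q)
    field_simp
  rw [eq1]
  exact h1

end H55P
end

-- from Lib.H55P.R4
section

open NumberField IsDedekindDomain

namespace H55P

open H55N
open H55B (g)

variable {F : Type} [Field F] [NumberField F] [IQ F] {K : Type} [Field K] [NumberField K] [Algebra F K] {m : ℕ}

/-! Chunk R4 (M). The determinant of admissible labels is Good. Idet L x = sum over permutations of sign * prod_j row (L j) x (perm j) (Matrix.det_apply). For a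
label T t, t > 0: row is Good with weight sz^(-1) and gains gs (good_row with P = Unit, a, b = min, max of t; D.X stable, 0 not in D.X), hence with gains gl. For a label
A (A_k): row = σ_i(A_k) * (Tr(A_k x))^(-1), Good with weight (1+|Tr(A_k x)|)^(-1) (good_tr, Good.smul). Good.prod over j: weight
prod_{j of type T} sz^(-1) * prod_{j of type A} (1+|Tr(A_(κ j) x)|)^(-1) <= C bl A x: κ is injective on the indices of type A, so the complement of the image of
these indices has as many elements as there are indices of type T, and sz^(-1) <= C (1+|Tr(A_k x)|)^(-1) for every k (gs_le_gl). Good.mono, Good.sum, sv_sz, sv_tr. -/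

theorem r4_X (D : Ctx F K m) {A : Fin (m + 1) → K} {w : Fin (m + 1) × Fin 2 → 𝓞 K}
    (hdir : D.Dirs A w) : ∀ x ∈ D.X, ∀ i, x - w i ∈ D.X :=
  fun _ hx i => D.X_sub hx (hdir.mem i)

theorem r4_gl (D : Ctx F K m) (A : Fin (m + 1) → K) :
    ∀ (i : Fin (m + 1) × Fin 2), ∀ x ∈ D.X, 0 ≤ D.gl A i x :=
  fun i x _ => by unfold Ctx.gl; positivity

theorem r4_gs (D : Ctx F K m) :
    ∀ (i : Fin (m + 1) × Fin 2), ∀ x ∈ D.X, 0 ≤ D.gs i x :=
  fun _ x _ => (inv_pos.mpr (D.sz_pos x)).le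

/-- The weight of a label. -/
noncomputable def r4wt (D : Ctx F K m) (A : Fin (m + 1) → K) (l : Lab K m) (k : Fin (m + 1))
    (_ : Unit) (x : 𝓞 K) : ℝ :=
  match l with
  | .T _ => (D.sz x)⁻¹
  | .A _ => (1 + ‖D.Tr (A k) x‖)⁻¹

theorem r4wt_pos (D : Ctx F K m) (A : Fin (m + 1) → K) (l : Lab K m) (k : Fin (m + 1))
    (q : Unit) (x : 𝓞 K) : 0 < r4wt D A l k q x := by
  cases l with
  | T t => exact inv_pos.2 (D.sz_pos x)
  | A a =>
    show 0 < (1 + ‖D.Tr (A k) x‖)⁻¹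
    positivity

theorem r4_sv (D : Ctx F K m) (A : Fin (m + 1) → K) (w : Fin (m + 1) × Fin 2 → 𝓞 K)
    (hdir : D.Dirs A w) (l : Lab K m) (k : Fin (m + 1)) : SV D.X w (r4wt D A l k) := by
  cases l with
  | T t => exact SV.inv (r4_X D hdir) (sv_sz (P := Unit) D w D.X)
  | A a => exact SV.inv (r4_X D hdir) (sv_tr (P := Unit) D A w k)

theorem r4_row (D : Ctx F K m) (hD : D.Ok) (A : Fin (m + 1) → K)
    (w : Fin (m + 1) × Fin 2 → 𝓞 K) (hdir : D.Dirs A w) (l : Lab K m) (k : Fin (m + 1))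
    (hT : ∀ t, l = .T t → ∀ i, 0 < t i) (hA : ∀ a, l = .A a → a = A k) (i : Fin (m + 1)) :
    Good D.X w (D.gl A) (r4wt D A l k) (fun _ x => D.row l x i) := by
  have h0 : (0 : 𝓞 K) ∉ D.X := fun h => D.X_ne hD.ne h rfl
  cases l with
  | T t =>
    obtain ⟨i0, hi0⟩ := Finite.exists_min t
    obtain ⟨i1, hi1⟩ := Finite.exists_max t
    have h1 := good_row (P := Unit) D hD.emb w D.X (r4_X D hdir) h0 (fun _ => t) (t i0) (t i1)
      (hT t rfl i0) (fun _ i => ⟨hi0 i, hi1 i⟩) i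
    obtain ⟨C, hC, _, hC2⟩ := gs_le_gl D A
    refine Good.mono h1 (r4_gs D) (max 1 C) (by positivity) (fun q x _ => ⟨?_, ?_⟩)
      (fun j x hx => ?_)
    · exact (inv_pos.2 (D.sz_pos x)).le
    · show (D.sz x)⁻¹ ≤ max 1 C * (D.sz x)⁻¹
      have : 0 < (D.sz x)⁻¹ := inv_pos.2 (D.sz_pos x)
      have h2 := le_max_left 1 C
      nlinarith
    · exact (hC2 j x).trans (mul_le_mul_of_nonneg_right (le_max_right _ _) (r4_gl D A j x hx))
  | A a =>
    obtain rfl := hA a rfl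
    have h1 := Good.smul (good_tr (P := Unit) D A w hdir k) (r4_gl D A) (fun _ x _ => by
      positivity) (fun _ => D.σ i (A k)) ‖D.σ i (A k)‖ (fun _ => le_rfl)
    exact h1

theorem r4_prod (D : Ctx F K m) (A : Fin (m + 1) → K) (L : Fin (m + 1) → Lab K m)
    (κ : Fin (m + 1) → Fin (m + 1)) (hκ : Set.InjOn κ {j | ∃ a, L j = .A a}) :
    ∃ c : ℝ, 0 ≤ c ∧ ∀ x, ∏ j, r4wt D A (L j) (κ j) () x ≤ c * D.bl A x := by
  classical
  obtain ⟨C, hC, hC1, _⟩ := gs_le_gl D A
  set C' := max 1 C with hC'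
  refine ⟨C' ^ (m + 1), by positivity, fun x => ?_⟩
  set S : Finset (Fin (m + 1)) := Finset.univ.filter fun j => ∃ a, L j = .A a with hS
  have hcard : Fintype.card (Fin (m + 1)) = (Finset.univ : Finset (Fin (m + 1))).card := by
    rw [Finset.card_univ]
  obtain ⟨g, hg⟩ := Finset.exists_equiv_extend_of_card_eq (s := S) (f := κ) hcard
    (Finset.subset_univ _) (by
      intro i hi j hj hij
      rw [hS, Finset.coe_filter] at hi hj
      exact hκ hi.2 hj.2 hij)
  have h1 : ∀ j, r4wt D A (L j) (κ j) () x ≤ C' * (1 + ‖D.Tr (A (g j)) x‖)⁻¹ := by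
    intro j
    have hp : 0 ≤ (1 + ‖D.Tr (A (g j)) x‖)⁻¹ := by positivity
    by_cases hj : ∃ a, L j = .A a
    · have hj' : j ∈ S := by
        rw [hS, Finset.mem_filter]
        exact ⟨Finset.mem_univ _, hj⟩
      obtain ⟨a, ha⟩ := hj
      rw [hg j hj'] at hp ⊢
      rw [ha]
      show (1 + ‖D.Tr (A (κ j)) x‖)⁻¹ ≤ _
      have := le_max_left 1 C
      nlinarith
    · have : ∃ t, L j = .T t := by
        cases hl : L j with
        | T t => exact ⟨t, rfl⟩
        | A a => exact absurd ⟨a, hl⟩ hj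
      obtain ⟨t, ht⟩ := this
      rw [ht]
      show (D.sz x)⁻¹ ≤ _
      exact (hC1 x (g j)).trans (mul_le_mul_of_nonneg_right (le_max_right _ _) hp)
  calc ∏ j, r4wt D A (L j) (κ j) () x ≤ ∏ j, (C' * (1 + ‖D.Tr (A (g j)) x‖)⁻¹) :=
        Finset.prod_le_prod (fun j _ => (r4wt_pos D A _ _ _ x).le) fun j _ => h1 j
    _ = C' ^ (m + 1) * ∏ j, (1 + ‖D.Tr (A (g j)) x‖)⁻¹ := by
        rw [Finset.prod_mul_distrib, Finset.prod_const, Finset.card_univ, Fintype.card_fin]
    _ = C' ^ (m + 1) * D.bl A x := by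
        congr 1
        unfold Ctx.bl
        have h2 : ∏ j, (1 + ‖D.Tr (A (g j)) x‖)⁻¹ =
            ∏ k : (Finset.univ : Finset (Fin (m + 1))), (1 + ‖D.Tr (A k) x‖)⁻¹ :=
          g.prod_comp (fun k : (Finset.univ : Finset (Fin (m + 1))) => (1 + ‖D.Tr (A k) x‖)⁻¹)
        rw [h2, Finset.prod_coe_sort Finset.univ (fun k => (1 + ‖D.Tr (A k) x‖)⁻¹)]

theorem good_idet (D : Ctx F K m) (hD : D.Ok) (A : Fin (m + 1) → K)
    (w : Fin (m + 1) × Fin 2 → 𝓞 K) (hdir : D.Dirs A w) (L : Fin (m + 1) → Lab K m)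
    (κ : Fin (m + 1) → Fin (m + 1)) (hT : ∀ j t, L j = .T t → ∀ i, 0 < t i)
    (hA : ∀ j a, L j = .A a → a = A (κ j)) (hκ : Set.InjOn κ {j | ∃ a, L j = .A a}) :
    Good D.X w (D.gl A) (fun (_ : Unit) x => D.bl A x) (fun _ => D.Idet L) := by
  obtain ⟨c, hc, hle⟩ := r4_prod D A L κ hκ
  have hX := r4_X D hdir
  have hgl := r4_gl D A
  have h1 : ∀ τ : Equiv.Perm (Fin (m + 1)), Good D.X w (D.gl A)
      (fun q x => ∏ j, r4wt D A (L j) (κ j) q x)
      (fun (_ : Unit) x => ((Equiv.Perm.sign τ : ℤ) : ℂ) * ∏ j, D.row (L (τ j)) x j) := by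
    intro τ
    have h2 := Good.prod hX (sv_gl D A w) Finset.univ
      (fun j q x => r4wt D A (L (τ j)) (κ (τ j)) q x)
      (fun j (_ : Unit) x => D.row (L (τ j)) x j)
      (fun j _ => r4_sv D A w hdir (L (τ j)) (κ (τ j)))
      (fun j _ => r4_row D hD A w hdir (L (τ j)) (κ (τ j)) (hT (τ j)) (hA (τ j)) j)
    have h3 : (fun (q : Unit) (x : 𝓞 K) => ∏ j, r4wt D A (L (τ j)) (κ (τ j)) q x) =
        fun q x => ∏ j, r4wt D A (L j) (κ j) q x := by
      funext q x
      exact Equiv.prod_comp τ (fun j => r4wt D A (L j) (κ j) q x)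
    rw [h3] at h2
    exact Good.smul h2 hgl
      (fun q x _ => Finset.prod_nonneg fun j _ => (r4wt_pos D A _ _ _ x).le)
      (fun _ => ((Equiv.Perm.sign τ : ℤ) : ℂ)) ‖((Equiv.Perm.sign τ : ℤ) : ℂ)‖ (fun _ => le_rfl)
  have h4 := Good.sum (Finset.univ : Finset (Equiv.Perm (Fin (m + 1)))) _ (fun τ _ => h1 τ) hgl
    (fun q x _ => Finset.prod_nonneg fun j _ => (r4wt_pos D A _ _ _ x).le)
  have h5 : (fun (_ : Unit) => D.Idet L) = fun (_ : Unit) x =>
      ∑ τ : Equiv.Perm (Fin (m + 1)), ((Equiv.Perm.sign τ : ℤ) : ℂ) *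
        ∏ j, D.row (L (τ j)) x j := by
    funext _ x
    unfold Ctx.Idet
    rw [Matrix.det_apply']
    rfl
  rw [h5]
  refine Good.mono h4 hgl (max 1 c) (by positivity) (fun q x _ => ⟨?_, ?_⟩) (fun j x hx => ?_)
  · exact Finset.prod_nonneg fun j _ => (r4wt_pos D A _ _ _ x).le
  · refine (hle x).trans (mul_le_mul_of_nonneg_right (le_max_right _ _) ?_)
    unfold Ctx.bl
    exact Finset.prod_nonneg fun k _ => by positivity
  · have := hgl j x hx
    have h6 := le_max_left 1 c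
    nlinarith

end H55P
end

-- from Lib.H55R.D3
section

open NumberField IsDedekindDomain

namespace H55R

open H55B H55N

theorem RD3_zeta {K : Type} [Field K] [NumberField K] (s : ℝ) (hs : 1 < s) :
    dedekindZeta K s = ((∑' a : Ideal (𝓞 K), (Ideal.absNorm a : ℝ) ^ (-s) : ℝ) : ℂ) := by
  have h0 := ideal_summable (K := K) s hs
  have h1 : HasSum (fun p : Σ n : ℕ, {a : Ideal (𝓞 K) // Ideal.absNorm a = n} =>
      (((Ideal.absNorm p.2.1 : ℝ) ^ (-s) : ℝ) : ℂ))
      ((∑' a : Ideal (𝓞 K), (Ideal.absNorm a : ℝ) ^ (-s) : ℝ) : ℂ) := by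
    have h2 := (Equiv.sigmaFiberEquiv (fun a : Ideal (𝓞 K) => Ideal.absNorm a)).hasSum_iff
      (f := fun a : Ideal (𝓞 K) => (((Ideal.absNorm a : ℝ) ^ (-s) : ℝ) : ℂ))
      (a := ((∑' a : Ideal (𝓞 K), (Ideal.absNorm a : ℝ) ^ (-s) : ℝ) : ℂ))
    exact h2.2 (Complex.hasSum_ofReal.2 h0.hasSum)
  have h2 : HasSum (LSeries.term (fun n => (Nat.card {I : Ideal (𝓞 K) // Ideal.absNorm I = n} : ℂ)) s)
      ((∑' a : Ideal (𝓞 K), (Ideal.absNorm a : ℝ) ^ (-s) : ℝ) : ℂ) := by
    refine h1.sigma fun n => ?_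
    have hfin : Finite {a : Ideal (𝓞 K) // Ideal.absNorm a = n} :=
      Ideal.finite_setOfPred_absNorm_eq n
    let _ : Fintype {a : Ideal (𝓞 K) // Ideal.absNorm a = n} := Fintype.ofFinite _
    have h3 : LSeries.term (fun n => (Nat.card {I : Ideal (𝓞 K) // Ideal.absNorm I = n} : ℂ)) s n =
        ∑ a : {a : Ideal (𝓞 K) // Ideal.absNorm a = n},
          (((Ideal.absNorm a.1 : ℝ) ^ (-s) : ℝ) : ℂ) := by
      rw [Finset.sum_congr rfl (g := fun _ => (((n : ℝ) ^ (-s) : ℝ) : ℂ))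
        (fun a _ => by rw [a.2]), Finset.sum_const, Finset.card_univ, ← Nat.card_eq_fintype_card,
        nsmul_eq_mul]
      rcases Nat.eq_zero_or_pos n with rfl | hn
      · rw [LSeries.term_zero, Nat.cast_zero, Real.zero_rpow (by linarith), Complex.ofReal_zero,
          mul_zero]
      · rw [LSeries.term_of_ne_zero (by omega), div_eq_mul_inv, ← Complex.cpow_neg,
          Complex.ofReal_cpow (Nat.cast_nonneg _)]
        push_cast
        rfl
    rw [h3]
    exact hasSum_fintype _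
  exact h2.tsum_eq

theorem RD3_one {K : Type} [Field K] [NumberField K] (s : ℝ) (hs : 1 < s) :
    1 ≤ ∑' a : Ideal (𝓞 K), (Ideal.absNorm a : ℝ) ^ (-s) := by
  have h1 := (ideal_summable (K := K) s hs).le_tsum (1 : Ideal (𝓞 K)) fun _ _ => by positivity
  rw [map_one, Nat.cast_one, Real.one_rpow] at h1
  exact h1

theorem RD3_anti {K : Type} [Field K] [NumberField K] {s t : ℝ} (hs : 1 < s) (hst : s ≤ t) :
    ∑' a : Ideal (𝓞 K), (Ideal.absNorm a : ℝ) ^ (-t) ≤
      ∑' a : Ideal (𝓞 K), (Ideal.absNorm a : ℝ) ^ (-s) := by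
  refine Summable.tsum_le_tsum (fun a => ?_) (ideal_summable (K := K) t (by linarith))
    (ideal_summable (K := K) s hs)
  rcases Nat.eq_zero_or_pos (Ideal.absNorm a) with h0 | h0
  · rw [h0, Nat.cast_zero, Real.zero_rpow (by linarith), Real.zero_rpow (by linarith)]
  · have h1 : (1 : ℝ) ≤ (Ideal.absNorm a : ℝ) := by exact_mod_cast h0
    exact Real.rpow_le_rpow_of_exponent_le h1 (by linarith)

open Filter Topology in
theorem RD3_bd (K : Type) [Field K] [NumberField K] : ∃ A B : ℝ, 0 < A ∧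
    ∀ s ∈ Set.Ioc (1 : ℝ) 2,
      A ≤ (s - 1) * ∑' a : Ideal (𝓞 K), (Ideal.absNorm a : ℝ) ^ (-s) ∧
      (s - 1) * ∑' a : Ideal (𝓞 K), (Ideal.absNorm a : ℝ) ^ (-s) ≤ B := by
  have hκ := dedekindZeta_residue_pos K
  set κ := dedekindZeta_residue K with hk
  have h1 : Tendsto (fun s : ℝ => (s - 1) * ∑' a : Ideal (𝓞 K), (Ideal.absNorm a : ℝ) ^ (-s))
      (𝓝[>] 1) (𝓝 κ) := by
    have h2 := (Complex.continuous_re.tendsto _).comp (tendsto_sub_one_mul_dedekindZeta_nhdsGT K)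
    rw [Complex.ofReal_re] at h2
    refine h2.congr' ?_
    filter_upwards [self_mem_nhdsWithin] with s hs
    show ((s - 1 : ℂ) * dedekindZeta K s).re = _
    rw [RD3_zeta s hs]
    rw [show ((s : ℂ) - 1) = ((s - 1 : ℝ) : ℂ) by push_cast; rfl, ← Complex.ofReal_mul,
      Complex.ofReal_re]
  have h3 : ∀ᶠ s in 𝓝[>] (1 : ℝ),
      (s - 1) * ∑' a : Ideal (𝓞 K), (Ideal.absNorm a : ℝ) ^ (-s) ∈ Set.Icc (κ / 2) (2 * κ) :=
    h1 (Icc_mem_nhds (by linarith) (by linarith))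
  obtain ⟨u, hu, hu2⟩ := (mem_nhdsGT_iff_exists_Ioo_subset).1 h3
  have hu1 : (1 : ℝ) < u := hu
  obtain ⟨d, hd⟩ : ∃ d, d = min ((u - 1) / 2) 1 := ⟨_, rfl⟩
  have hd0 : 0 < d := by rw [hd]; exact lt_min (by linarith) one_pos
  have hdu : d < u - 1 := by rw [hd]; exact (min_le_left _ _).trans_lt (by linarith)
  refine ⟨min (κ / 2) d, max (2 * κ)
    (∑' a : Ideal (𝓞 K), (Ideal.absNorm a : ℝ) ^ (-(1 + d))), lt_min (by linarith) hd0,
    fun s hs => ?_⟩
  have hs1 : 1 < s := hs.1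
  have hs2 : s ≤ 2 := hs.2
  by_cases hsd : s < 1 + d
  · have h4 : s ∈ Set.Ioo 1 u := ⟨hs1, by linarith⟩
    have h5 := hu2 h4
    exact ⟨(min_le_left _ _).trans h5.1, h5.2.trans (le_max_left _ _)⟩
  · push Not at hsd
    have h6 := RD3_one (K := K) s hs1
    have h7 := RD3_anti (K := K) (s := 1 + d) (t := s) (by linarith) hsd
    constructor
    · refine (min_le_right _ _).trans ?_
      nlinarith
    · refine le_trans ?_ (le_max_right _ _)
      nlinarith

/-- Chunk RD3 (M), the pole of the zeta function. Z s = sum over the ideals of Na^(-s) (the zero ideal contributes 0). For s > 1, Z s (as a complex number) is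
dedekindZeta K s, the L-series of the numbers of ideals of norm n (sum over the fibres of the norm; see the proof of ideal_summable in H55N/H3.lean, or AI_LSeries
in H55N/H6.lean for the pattern), and (s - 1) * dedekindZeta K s tends to the residue, which is positive (NumberField.tendsto_sub_one_mul_dedekindZeta_nhdsGT,
NumberField.dedekindZeta_residue_pos). Z is antitone on s > 1 (each term is, Na >= 1 or Na = 0; Summable.tsum_le_tsum) and Z s >= 1 (the term of the unit ideal). Near 1: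
there is d in (0,1) with residue/2 <= (s-1) Z s <= 2 residue for s in (1, 1 + d); for s in [1 + d, 2]: d * 1 <= (s - 1) Z s <= Z (1 + d). So
(s - 1) Z s lies in a fixed interval [A, B], 0 < A, and log Z s - log (1/(s-1)) = log ((s - 1) Z s) lies in [log A, log B]. -/
theorem zeta_log (K : Type) [Field K] [NumberField K] : ∃ C : ℝ, ∀ s ∈ Set.Ioc (1 : ℝ) 2,
    0 < ∑' a : Ideal (𝓞 K), (Ideal.absNorm a : ℝ) ^ (-s) ∧
    |Real.log (∑' a : Ideal (𝓞 K), (Ideal.absNorm a : ℝ) ^ (-s)) - Real.log (1 / (s - 1))| ≤ C := by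
  obtain ⟨A, B, hA, hAB⟩ := RD3_bd K
  refine ⟨|Real.log A| + |Real.log B|, fun s hs => ?_⟩
  have h1 := RD3_one (K := K) s hs.1
  have hs1 : 0 < s - 1 := sub_pos.2 hs.1
  refine ⟨by linarith, ?_⟩
  obtain ⟨h2, h3⟩ := hAB s hs
  rw [one_div, Real.log_inv, sub_neg_eq_add, add_comm, ← Real.log_mul hs1.ne' (by linarith)]
  have h4 := Real.log_le_log hA h2
  have h5 := Real.log_le_log (hA.trans_le h2) h3
  rw [abs_le]
  constructor
  · linarith [neg_abs_le (Real.log A), abs_nonneg (Real.log B)]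
  · linarith [le_abs_self (Real.log B), abs_nonneg (Real.log A)]

end H55R
end

-- from Lib.H55R.D7
section

open NumberField IsDedekindDomain

namespace H55R

open H55B H55N

/-- Chunk RD7 (M), a prime with nontrivial value outside a given modulus. Suppose that phi c = 1 for all primes c with not f <= c, not g <= c (for f <= c we have phi c = 1 by the
definition of RC). Take v with phi v <> 1; then not f <= v. exists_mem_cop with J = v, g := f * g gives x <> 0 with (x) = v b, b coprime to f g, so pv phi b = 1 (dd_pv_eq_one) and pv phi (x) =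
phi v (pv_mul, pv_prime). Let g' be the product of the primes w with g <= w, not f <= w (a finite set because g <> bot: Ideal.finite_factors); g' is coprime to f. By the Chinese
remainder theorem there is y with y - x in f and y - 1 in g' (write 1 = p + q, p in f, q in g', y = x q + p). (x) is coprime to f (v and b are), so (y) is coprime to f; y is not in
any of the w dividing g'. We may also take y <> 0 (replace y by y + t with t <> 0 in f g' if y = 0, or show it: if y = 0 then x in f so f = top by coprimality, and 1 in g' so g' = top; in this case take y = 1). So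
every prime containing y contains neither f nor g, pv phi (y) = 1 (dd_pv_eq_one), but pv phi (x) = pv phi (y) (RC), so phi v = 1, a contradiction. -/
theorem exists_prime {K : Type} [Field K] [NumberField K] (f : Ideal (𝓞 K)) (hf : f ≠ ⊥)
    (φ : Pl K → ℂˣ) (hφ : φ ∈ RC f) (h1 : φ ≠ 1) (g : Ideal (𝓞 K)) (hg : g ≠ ⊥) :
    ∃ c : Pl K, ¬ f ≤ c.asIdeal ∧ ¬ g ≤ c.asIdeal ∧ φ c ≠ 1 := by
  classical
  by_contra hcon
  push Not at hcon
  obtain ⟨hφ1, hφ2⟩ := hφ
  obtain ⟨v, hv⟩ : ∃ v, φ v ≠ 1 := by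
    by_contra h
    push Not at h
    exact h1 (funext h)
  have hfv : ¬ f ≤ v.asIdeal := fun h => hv (hφ1 v h)
  have hgv : g ≤ v.asIdeal := by
    by_contra h
    exact hv (hcon v hfv h)
  obtain ⟨x, hxv, b, hx0, hxb, hcop⟩ := exists_mem_cop v.asIdeal (f * g) v.ne_bot
    (mul_ne_zero hf hg)
  have hbf : IsCoprime b f := hcop.of_mul_right_left
  have hbg : IsCoprime b g := hcop.of_mul_right_right
  have hnot : ∀ (I J : Ideal (𝓞 K)) (w : Pl K), IsCoprime I J → I ≤ w.asIdeal → ¬ J ≤ w.asIdeal := by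
    intro I J w hIJ hI hJ
    have h2 := Ideal.isCoprime_iff_sup_eq.1 hIJ
    exact w.isPrime.ne_top (top_le_iff.1 (h2 ▸ sup_le hI hJ))
  have hb0 : b ≠ ⊥ := by
    rintro rfl
    rw [Ideal.mul_bot, Ideal.span_singleton_eq_bot] at hxb
    exact hx0 hxb
  have hb : pv φ b = 1 := dd_pv_eq_one φ b fun w hw =>
    hcon w (hnot b f w hbf hw) (hnot b g w hbg hw)
  have hx : pv φ (Ideal.span {x}) = φ v := by
    rw [hxb, pv_mul φ v.ne_bot hb0, pv_prime, hb, mul_one]
  have hfin : {w : Pl K | g ≤ w.asIdeal ∧ ¬ f ≤ w.asIdeal}.Finite := by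
    refine (Ideal.finite_factors hg).subset ?_
    rintro w ⟨hw, -⟩
    exact Ideal.dvd_iff_le.2 hw
  have hmaxcop : ∀ w : Pl K, ¬ f ≤ w.asIdeal → IsCoprime f w.asIdeal := by
    intro w hw
    rw [Ideal.isCoprime_iff_sup_eq, sup_comm]
    have hm : w.asIdeal.IsMaximal := w.isPrime.isMaximal w.ne_bot
    exact hm.out.2 _ (left_lt_sup.2 hw)
  have hgcop : IsCoprime f (∏ w ∈ hfin.toFinset, w.asIdeal) := by
    refine IsCoprime.prod_right fun w hw => ?_
    exact hmaxcop w ((hfin.mem_toFinset.1 hw).2)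
  obtain ⟨p, hp, q, hq, hpq⟩ := Ideal.isCoprime_iff_exists.1 hgcop
  obtain ⟨y, hy⟩ : ∃ y, y = x * q + p := ⟨_, rfl⟩
  have hyx : x - y ∈ f := by
    have : x - y = (x - 1) * p := by
      rw [hy]
      linear_combination (-x) * hpq
    rw [this]
    exact Ideal.mul_mem_left _ _ hp
  have hy1 : ∀ w : Pl K, g ≤ w.asIdeal → ¬ f ≤ w.asIdeal → y ∉ w.asIdeal := by
    intro w hgw hfw hyw
    have hwm : w ∈ hfin.toFinset := hfin.mem_toFinset.2 ⟨hgw, hfw⟩
    have hqw : q ∈ w.asIdeal := by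
      have h3 : ∏ w ∈ hfin.toFinset, w.asIdeal ≤ w.asIdeal :=
        Ideal.dvd_iff_le.1 (Finset.dvd_prod_of_mem _ hwm)
      exact h3 hq
    have h4 : (1 : 𝓞 K) = y - (x - 1) * q := by
      rw [hy]
      linear_combination -hpq
    apply w.isPrime.ne_top
    rw [Ideal.eq_top_iff_one, h4]
    exact Ideal.sub_mem _ hyw (Ideal.mul_mem_left _ _ hqw)
  have hy0 : y ≠ 0 := by
    rintro h0
    apply hy1 v hgv hfv
    rw [h0]
    exact Ideal.zero_mem _
  have hxf : IsCoprime (Ideal.span {x}) f := by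
    rw [hxb]
    exact (hmaxcop v hfv).symm.mul_left hbf
  have h5 := hφ2 x y hx0 hy0 hxf hyx
  have h6 : pv φ (Ideal.span {y}) = 1 := by
    refine dd_pv_eq_one φ _ fun w hw => ?_
    have hyw : y ∈ w.asIdeal := hw (Ideal.mem_span_singleton_self y)
    by_cases hfw : f ≤ w.asIdeal
    · exact hφ1 w hfw
    · by_cases hgw : g ≤ w.asIdeal
      · exact absurd hyw (hy1 w hgw hfw)
      · exact hcon w hfw hgw
  rw [hx, h6] at h5
  exact hv h5

end H55R
end

-- from Lib.H55R.D6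
section

open NumberField IsDedekindDomain

namespace H55R

open H55B H55N

theorem D6_cop {K : Type} [Field K] [NumberField K] (f : Ideal (𝓞 K)) (v : Pl K) :
    IsCoprime v.asIdeal f ↔ ¬ f ≤ v.asIdeal := by
  rw [Ideal.isCoprime_iff_sup_eq]
  constructor
  · intro h hf
    rw [sup_eq_left.2 hf] at h
    exact v.isPrime.ne_top h
  · intro h
    by_contra hne
    apply h
    have h1 := v.isMaximal.eq_of_le hne le_sup_left
    rw [h1]
    exact le_sup_right

theorem D6_sum {K : Type} [Field K] [NumberField K] (Y : Subgroup (Pl K → ℂˣ)) [Fintype Y]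
    (v : Pl K) (h : ¬ ∀ φ ∈ Y, φ v = 1) : ∑ φ : Y, ((φ : Pl K → ℂˣ) v : ℂ) = 0 := by
  push Not at h
  obtain ⟨ψ, hψ, hv⟩ := h
  have h1 : (ψ v : ℂ) * ∑ φ : Y, ((φ : Pl K → ℂˣ) v : ℂ) = ∑ φ : Y, ((φ : Pl K → ℂˣ) v : ℂ) := by
    rw [Finset.mul_sum]
    exact Fintype.sum_equiv (Equiv.mulLeft (⟨ψ, hψ⟩ : Y)) _ _ fun φ => rfl
  have h2 : ((ψ v : ℂ) - 1) * ∑ φ : Y, ((φ : Pl K → ℂˣ) v : ℂ) = 0 := by
    rw [sub_mul, h1, one_mul, sub_self]
  rcases mul_eq_zero.1 h2 with h3 | h3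
  · exact absurd (Units.ext (sub_eq_zero.1 h3)) hv
  · exact h3

open Classical in
theorem D6_point {K : Type} [Field K] [NumberField K] (f : Ideal (𝓞 K))
    (Y : Subgroup (Pl K → ℂˣ)) [Fintype Y] (v : Pl K) :
    ∑ φ : Y, (tI f (φ : Pl K → ℂˣ) v.asIdeal).re =
      if ¬ f ≤ v.asIdeal ∧ ∀ φ ∈ Y, φ v = 1 then (Nat.card Y : ℝ) else 0 := by
  by_cases hf : f ≤ v.asIdeal
  · rw [if_neg fun h => h.1 hf]
    refine Finset.sum_eq_zero fun φ _ => ?_
    rw [tI_zero f _ fun h => (D6_cop f v).1 h hf, Complex.zero_re]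
  · have h1 : ∀ φ : Y, tI f (φ : Pl K → ℂˣ) v.asIdeal = ((φ : Pl K → ℂˣ) v : ℂ) := by
      intro φ
      rw [tI_apply f _ v.ne_bot ((D6_cop f v).2 hf), pv_prime]
    simp only [h1]
    by_cases h : ∀ φ ∈ Y, φ v = 1
    · rw [if_pos ⟨hf, h⟩]
      have h2 : ∀ φ : Y, (((φ : Pl K → ℂˣ) v : ℂ)).re = 1 := by
        intro φ
        rw [h φ.1 φ.2, Units.val_one, Complex.one_re]
      rw [Finset.sum_congr rfl fun φ _ => h2 φ, Finset.sum_const, Finset.card_univ, nsmul_eq_mul,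
        mul_one, Nat.card_eq_fintype_card]
    · rw [if_neg fun h' => h h'.2, ← Complex.re_sum, D6_sum Y v h, Complex.zero_re]

/-- Chunk RD6 (S/M), orthogonality. For v with f <= v all tI f phi v = 0 (v is not coprime to f) and v is not in the set. For v not containing f, v and f are coprime, tI f phi v = phi v (tI_apply,
pv_prime), and the sum over phi in Y of phi v is card Y if phi v = 1 for all phi in Y, and 0 otherwise (multiply by psi v <> 1: reindex phi -> psi phi, Fintype.sum_equiv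
Equiv.mulLeft). So the sum over phi of Re (tI f phi v) is card Y times the indicator function. Exchange the finite sum and the convergent series (Summable.tsum_finsetSum;
each series is dominated by Nv^(-s), dd_summable, dd_norm_tI, dd_norm_Y). -/
theorem orth {K : Type} [Field K] [NumberField K] (f : Ideal (𝓞 K)) (Y : Subgroup (Pl K → ℂˣ))
    [Fintype Y] (s : ℝ) (hs : 1 < s) :
    (Nat.card Y : ℝ) * PS {v : Pl K | ¬ f ≤ v.asIdeal ∧ ∀ φ ∈ Y, φ v = 1} s =
      ∑ φ : Y, ∑' v : Pl K, (tI f (φ : Pl K → ℂˣ) v.asIdeal).re *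
        (Ideal.absNorm v.asIdeal : ℝ) ^ (-s) := by
  classical
  have hsum : ∀ φ : Y, Summable fun v : Pl K => (tI f (φ : Pl K → ℂˣ) v.asIdeal).re *
      (Ideal.absNorm v.asIdeal : ℝ) ^ (-s) := by
    intro φ
    refine Summable.of_norm_bounded (dd_summable (K := K) s hs) fun v => ?_
    rw [norm_mul, Real.norm_eq_abs, Real.norm_eq_abs]
    have h1 : |(tI f (φ : Pl K → ℂˣ) v.asIdeal).re| ≤ 1 :=
      (Complex.abs_re_le_norm _).trans (dd_norm_tI f _ (dd_norm_Y Y φ.1 φ.2) _)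
    have h2 : |(Ideal.absNorm v.asIdeal : ℝ) ^ (-s)| = (Ideal.absNorm v.asIdeal : ℝ) ^ (-s) :=
      abs_of_nonneg (by positivity)
    rw [h2]
    exact mul_le_of_le_one_left (by positivity) h1
  rw [← Summable.tsum_finsetSum fun φ _ => hsum φ]
  unfold PS
  rw [← tsum_mul_left]
  refine tsum_congr fun v => ?_
  rw [← Finset.sum_mul, D6_point f Y v]
  by_cases h : ¬ f ≤ v.asIdeal ∧ ∀ φ ∈ Y, φ v = 1
  · rw [if_pos h, Set.indicator_of_mem (by exact h)]
  · rw [if_neg h, Set.indicator_of_notMem (by exact h), mul_zero, zero_mul]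

end H55R
end

-- from Lib.H55R.D8
section

open NumberField IsDedekindDomain

namespace H55R

open H55B H55N

theorem D8_cop {K : Type} [Field K] [NumberField K] (f : Ideal (𝓞 K)) (a : Ideal (𝓞 K))
    (ha : a ≠ ⊥) (hf : IsCoprime a f)
    (h : ∀ v : Pl K, (3 : 𝓞 K) ∈ v.asIdeal → ¬ f ≤ v.asIdeal → ¬ a ≤ v.asIdeal) :
    IsCoprime a (Ideal.span {3} * f) := by
  refine IsCoprime.mul_right ?_ hf
  rw [Ideal.isCoprime_iff_sup_eq]
  by_contra hne
  obtain ⟨M, hM, hle⟩ := Ideal.exists_le_maximal _ hne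
  have haM : a ≤ M := le_sup_left.trans hle
  have hM0 : M ≠ ⊥ := by
    rintro rfl
    exact ha (le_bot_iff.1 haM)
  refine h ⟨M, hM.isPrime, hM0⟩ ?_ ?_ haM
  · exact (le_sup_right.trans hle) (Ideal.mem_span_singleton_self _)
  · intro hfM
    rw [Ideal.isCoprime_iff_sup_eq] at hf
    exact hM.ne_top (top_le_iff.1 (hf ▸ sup_le haM hfM))

/-- Chunk RD8 (S/M), removing finitely many Euler factors. S = the finite set of primes v with 3 in v and not f <= v. For an ideal a, a is coprime to (3) f iff it is coprime to f and a is not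
contained in any v in S. smooth_sum (index type S, c v = v.asIdeal, p = 1, k = tmH (tI f phi) s): the sum over a of tm (tI f phi) s a * prod over S (if a <= v then 0 else 1), which is
tm (tI (3f) phi) s a, equals (prod over S of (1 - k v)) * Ls (tI f phi) s. Since |k v| <= 1/2 (dd_norm_tm, dd_norm_tI, dd_half), |1 - k v| >= 1/2, so C = 2^(card S). -/
theorem change_mod {K : Type} [Field K] [NumberField K] (f : Ideal (𝓞 K)) (hf : f ≠ ⊥)
    (φ : Pl K → ℂˣ) (hφ : ∀ v, ‖(φ v : ℂ)‖ = 1) :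
    ∃ C : ℝ, 0 < C ∧ ∀ s ∈ Set.Ioc (1 : ℝ) 2,
      ‖Ls (tI f φ) s‖ ≤ C * ‖Ls (tI (Ideal.span {3} * f) φ) s‖ := by
  classical
  have h3 : Ideal.span {(3 : 𝓞 K)} ≠ 0 := by
    intro h
    have h3 : ((3 : ℕ) : 𝓞 K) ≠ 0 := Nat.cast_ne_zero.2 (by decide)
    apply h3
    rw [Nat.cast_ofNat]
    exact Ideal.span_singleton_eq_bot.1 h
  have hfin : {v : Pl K | (3 : 𝓞 K) ∈ v.asIdeal ∧ ¬ f ≤ v.asIdeal}.Finite := by
    refine (Ideal.finite_factors h3).subset fun v hv => ?_
    show v.asIdeal ∣ Ideal.span {(3 : 𝓞 K)}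
    rw [Ideal.dvd_iff_le, Ideal.span_singleton_le_iff_mem]
    exact hv.1
  set S : Finset (Pl K) := hfin.toFinset with hS
  have hmemS : ∀ v, v ∈ S ↔ (3 : 𝓞 K) ∈ v.asIdeal ∧ ¬ f ≤ v.asIdeal := by
    intro v
    rw [hS, Set.Finite.mem_toFinset]
    rfl
  refine ⟨2 ^ S.card, by positivity, fun s hs => ?_⟩
  set k := tmH (tI f φ) (s : ℂ) with hk
  have hk1 : ∀ a, k a = tm (tI f φ) s a := fun a => rfl
  have hksum : Summable fun a => ‖k a‖ := dd_tm_summable _ (dd_norm_tI f φ hφ) s hs.1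
  have h1 := smooth_sum k hksum (fun v : S => v.1.asIdeal) (fun v => v.1.isPrime)
    (fun v => v.1.ne_bot) (fun v w h => Subtype.ext (dd_inj h)) (fun _ => 1)
  have h2 : ∀ a, k a * ∏ v : S, (if a ≤ v.1.asIdeal then 1 - (1 : ℂ) else 1) =
      tm (tI (Ideal.span {3} * f) φ) s a := by
    intro a
    by_cases ha : a = ⊥
    · have e1 : k a = 0 := by
        rw [ha]
        exact map_zero k
      have e2 : tI (Ideal.span {3} * f) φ a = 0 := by
        rw [ha]
        exact map_zero _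
      unfold tm
      rw [e1, e2, zero_mul, zero_mul]
    by_cases hf' : IsCoprime a f
    · by_cases hv : ∀ v : Pl K, (3 : 𝓞 K) ∈ v.asIdeal → ¬ f ≤ v.asIdeal → ¬ a ≤ v.asIdeal
      · have hc := D8_cop f a ha hf' hv
        have e1 : ∏ v : S, (if a ≤ v.1.asIdeal then 1 - (1 : ℂ) else 1) = 1 := by
          refine Finset.prod_eq_one fun v _ => ?_
          rw [if_neg]
          exact hv v.1 ((hmemS v.1).1 v.2).1 ((hmemS v.1).1 v.2).2
        rw [e1, mul_one, hk1]
        unfold tm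
        rw [tI_apply f φ ha hf', tI_apply _ φ ha hc]
      · push Not at hv
        obtain ⟨v, hv3, hvf, hav⟩ := hv
        have e1 : ∏ v : S, (if a ≤ v.1.asIdeal then 1 - (1 : ℂ) else 1) = 0 := by
          refine Finset.prod_eq_zero (Finset.mem_univ (⟨v, (hmemS v).2 ⟨hv3, hvf⟩⟩ : S)) ?_
          rw [if_pos hav, sub_self]
        have e2 : ¬ IsCoprime a (Ideal.span {3} * f) := by
          intro hc
          have hc' := hc.of_mul_right_left
          rw [Ideal.isCoprime_iff_sup_eq] at hc'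
          apply v.isPrime.ne_top
          rw [← top_le_iff, ← hc']
          exact sup_le hav ((Ideal.span_singleton_le_iff_mem _).2 hv3)
        rw [e1, mul_zero]
        unfold tm
        rw [tI_zero _ φ e2, zero_mul]
    · have e2 : ¬ IsCoprime a (Ideal.span {3} * f) := fun hc => hf' hc.of_mul_right_right
      rw [hk1]
      unfold tm
      rw [tI_zero f φ hf', tI_zero _ φ e2, zero_mul, zero_mul]
  have h4 : Ls (tI (Ideal.span {3} * f) φ) s =
      (∏ v : S, (1 - 1 * k v.1.asIdeal)) * Ls (tI f φ) s := by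
    unfold Ls
    rw [← tsum_congr h2]
    exact h1.tsum_eq
  have h5 : ∀ v : S, (1 / 2 : ℝ) ≤ ‖1 - 1 * k v.1.asIdeal‖ := by
    intro v
    have h6 : ‖k v.1.asIdeal‖ ≤ 1 / 2 := by
      rw [hk1, dd_norm_tm _ s (by linarith [hs.1]) _]
      calc ‖tI f φ v.1.asIdeal‖ * (Ideal.absNorm v.1.asIdeal : ℝ) ^ (-s)
          ≤ (Ideal.absNorm v.1.asIdeal : ℝ) ^ (-s) :=
            mul_le_of_le_one_left (by positivity) (dd_norm_tI f φ hφ _)
        _ ≤ 1 / 2 := dd_half v.1 s hs.1.le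
    have h7 := norm_sub_norm_le (1 : ℂ) (1 * k v.1.asIdeal)
    rw [one_mul] at h7 ⊢
    rw [NormOneClass.norm_one] at h7
    linarith
  have h8 : (1 / 2 : ℝ) ^ S.card ≤ ‖∏ v : S, (1 - 1 * k v.1.asIdeal)‖ := by
    rw [norm_prod]
    calc (1 / 2 : ℝ) ^ S.card = ∏ _v : S, (1 / 2 : ℝ) := by
          rw [Finset.prod_const, Finset.card_univ, Fintype.card_coe]
      _ ≤ _ := Finset.prod_le_prod (fun _ _ => by norm_num) fun v _ => h5 v
  rw [h4, norm_mul]
  have h9 : (2 : ℝ) ^ S.card * (1 / 2) ^ S.card = 1 := by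
    rw [← mul_pow]
    norm_num
  calc ‖Ls (tI f φ) s‖ = 2 ^ S.card * ((1 / 2) ^ S.card * ‖Ls (tI f φ) s‖) := by
        rw [← mul_assoc, h9, one_mul]
    _ ≤ _ := by
        gcongr

end H55R
end

-- from Lib.H55R.D9
section

namespace H55R

open H55N

/-! Chunk RD9 (S), two lower bounds by compactness. fac_low: the function s -> |1 - q zeta q^(-s)| is continuous on [1,2] (q > 0) and has no zero: a zero gives |q q^(-s)| = q^(1-s) = 1,
so s = 1 and zeta = 1. IsCompact.exists_isMinOn. cst_low: for real s > 0, cst_eq gives Gamma(n s) cst(s) |Delta| = Gamma(s)^n with Gamma(s), Gamma(n s) <> 0, so |cst(s)| = |Gamma(s)|^n / (|Gamma(n s)| |Delta|), a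
continuous positive function on the compact interval (Complex.differentiableAt_Gamma or Real.Gamma with Real.Gamma_pos_of_pos, Complex.Gamma_ofReal). -/

theorem d9_compact (a b : ℝ) (hab : a ≤ b) (φ : ℝ → ℝ) (hφ : ContinuousOn φ (Set.Icc a b))
    (hp : ∀ s ∈ Set.Icc a b, 0 < φ s) : ∃ δ : ℝ, 0 < δ ∧ ∀ s ∈ Set.Icc a b, δ ≤ φ s := by
  obtain ⟨s₀, h1, h2⟩ := isCompact_Icc.exists_isMinOn (Set.nonempty_Icc.2 hab) hφ
  exact ⟨φ s₀, hp s₀ h1, fun s hs => h2 hs⟩

theorem fac_low (q : ℕ) (hq : 2 ≤ q) (ζ : ℂ) (h1 : ‖ζ‖ = 1) (hζ : ζ ≠ 1) :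
    ∃ δ : ℝ, 0 < δ ∧ ∀ s ∈ Set.Icc (1 : ℝ) 2,
      δ ≤ ‖1 - (q : ℂ) * (ζ * (q : ℂ) ^ (-(s : ℂ)))‖ := by
  have hq0 : (q : ℂ) ≠ 0 := by
    have : q ≠ 0 := by omega
    exact_mod_cast this
  refine d9_compact 1 2 (by norm_num) _ ?_ ?_
  · have h2 : Continuous fun s : ℝ => (q : ℂ) ^ (-(s : ℂ)) :=
      Continuous.const_cpow (by fun_prop) (Or.inl hq0)
    exact (continuous_norm.comp (continuous_const.sub
      (continuous_const.mul (continuous_const.mul h2)))).continuousOn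
  · intro s hs
    rw [norm_pos_iff]
    intro h
    have h3 : (q : ℂ) * (ζ * (q : ℂ) ^ (-(s : ℂ))) = 1 := (sub_eq_zero.1 h).symm
    have hq' : (0 : ℝ) < q := by exact_mod_cast (by omega : 0 < q)
    have h4 : (q : ℝ) * (q : ℝ) ^ (-s) = 1 := by
      have h5 := congrArg norm h3
      rw [norm_mul, norm_mul, h1, one_mul, norm_one, Complex.norm_natCast,
        Complex.norm_natCast_cpow_of_pos (by omega)] at h5
      simpa using h5
    have h5 : (q : ℝ) ^ (1 - s) = 1 := by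
      rw [sub_eq_add_neg, Real.rpow_add hq', Real.rpow_one]
      exact h4
    have h6 : s = 1 := by
      by_contra hne
      have h7 : 1 - s < 0 := by
        rcases lt_or_eq_of_le hs.1 with h | h
        · linarith
        · exact absurd h.symm hne
      have h8 : (q : ℝ) ^ (1 - s) < 1 := Real.rpow_lt_one_of_one_lt_of_neg
        (by exact_mod_cast (by omega : 1 < q)) h7
      linarith
    apply hζ
    rw [h6] at h3
    have h7 : (q : ℂ) ^ (-((1 : ℝ) : ℂ)) = (q : ℂ)⁻¹ := by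
      rw [Complex.ofReal_one, Complex.cpow_neg_one]
    rw [h7] at h3
    field_simp at h3
    exact h3

theorem cst_low {m : ℕ} (lm : Fin (m + 1) → Fin m → ℝ) (h0 : ∀ j, ∑ i, lm i j = 0)
    (hD : Delta lm ≠ 0) :
    ∃ δ : ℝ, 0 < δ ∧ ∀ s ∈ Set.Icc (3 / 2 : ℝ) (5 / 2), δ ≤ ‖cst lm (s : ℂ)‖ := by
  have hΔ : 0 < |Delta lm| := abs_pos.2 hD
  have key : ∀ s : ℝ, 0 < s → ‖cst lm (s : ℂ)‖ =
      Real.Gamma s ^ (m + 1) / (Real.Gamma ((m + 1 : ℕ) * s) * |Delta lm|) := by
    intro s hs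
    have h1 := cst_eq lm h0 hD (s : ℂ) (by simpa using hs)
    have h2 := congrArg norm h1
    have e1 : Complex.Gamma ((m + 1 : ℕ) * (s : ℂ)) = ((Real.Gamma ((m + 1 : ℕ) * s) : ℝ) : ℂ) := by
      rw [← Complex.Gamma_ofReal]
      push_cast
      rfl
    have hp1 : 0 < Real.Gamma s := Real.Gamma_pos_of_pos hs
    have hp2 : 0 < Real.Gamma ((m + 1 : ℕ) * s) := Real.Gamma_pos_of_pos (by positivity)
    rw [norm_mul, norm_mul, norm_pow, e1, Complex.Gamma_ofReal, Complex.norm_real, Complex.norm_real,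
      Complex.norm_real, Real.norm_of_nonneg hp1.le, Real.norm_of_nonneg hp2.le,
      Real.norm_of_nonneg hΔ.le] at h2
    rw [eq_div_iff (by positivity), ← h2]
    ring
  have hc : ∀ s : ℝ, 0 < s → ContinuousAt Real.Gamma s := fun s hs =>
    (Real.differentiableAt_Gamma fun n h => by
      have : (0 : ℝ) ≤ n := Nat.cast_nonneg n
      linarith).continuousAt
  obtain ⟨δ, hδ, h⟩ := d9_compact (3 / 2) (5 / 2) (by norm_num)
    (fun s => Real.Gamma s ^ (m + 1) / (Real.Gamma ((m + 1 : ℕ) * s) * |Delta lm|)) (by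
      intro s hs
      have hs0 : 0 < s := by
        have := hs.1
        linarith
      have hp2 : 0 < Real.Gamma ((m + 1 : ℕ) * s) := Real.Gamma_pos_of_pos (by positivity)
      refine ContinuousAt.continuousWithinAt ?_
      refine ((hc s hs0).pow _).div (ContinuousAt.mul ?_ continuousAt_const) (by positivity)
      exact ContinuousAt.comp (f := fun s : ℝ => ((m + 1 : ℕ) : ℝ) * s) (hc _ (by positivity))
        (by fun_prop)) (by
      intro s hs
      have hs0 : 0 < s := by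
        have := hs.1
        linarith
      have hp1 : 0 < Real.Gamma s := Real.Gamma_pos_of_pos hs0
      have hp2 : 0 < Real.Gamma ((m + 1 : ℕ) * s) := Real.Gamma_pos_of_pos (by positivity)
      positivity)
  refine ⟨δ, hδ, fun s hs => ?_⟩
  have hs0 : 0 < s := by
    have := hs.1
    linarith
  rw [key s hs0]
  exact h s hs

end H55R
end

-- from Lib.H55N.E3
section

open NumberField IsDedekindDomain

namespace H55N

open H55B

/-! Chunk E3 (M). y^(-1) R^2/(R^2+|y|^2) = y^(-1) - k_R(y), k_R(y) = conj(y)/(R^2+|y|^2), for y <> 0. Each sR R z converges absolutely (terms O(R^2 |y|^(-3))). So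
sR(a+w) + sR(a-w) - 2 sR(a) = sum of the second differences of 1/y (absolutely convergent: T_formula gives HasSum, hence Summable in C) minus the sum of the second differences of k_R.
The latter tends to 0: termwise k_R(y) -> 0, and |k_R(y+w) + k_R(y-w) - 2k_R(y)| <= C(w) (1+|y|)^(-3) for all R >= 1, y in C: this is Dif w' univ k_R y up to the sign, with M = C,
X = univ, ι = Fin 2, w' = ![w, -w], and conj(y) is Good with weight 1+|y|, gains (1+|y|)^(-1), R^2+|y|^2 is Good with weight R^2+|y|^2 (>= (1+|y|)^2/2), so k_R is Good with weight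
(1+|y|)/(R^2+|y|^2) <= 2/(1+|y|) (Good.inv, Good.mul, SV: easy). Or a direct estimate. Dominated convergence tendsto_tsum_of_dominated_convergence, H55B.summable_e. -/

theorem sR_summable (R : ℝ) (hR : 0 < R) (z : ℂ) : Summable fun x : O =>
    ‖(z + 3 * e x)⁻¹ * ((R ^ 2 / (R ^ 2 + ‖z + 3 * e x‖ ^ 2) : ℝ) : ℂ)‖ :=
  sR_summable_aux R hR z

theorem sR_diff (a w T : ℂ) (ha : a ∉ Lam) (hw : w ∉ Lam) (h1 : a + w ∉ Lam) (h2 : a - w ∉ Lam)
    (hT : HasSum (fun x : O => (a + w + 3 * e x)⁻¹ + (a - w + 3 * e x)⁻¹ -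
      2 * (a + 3 * e x)⁻¹) T) :
    Filter.Tendsto (fun R : ℝ => sR R (a + w) + sR R (a - w) - 2 * sR R a) Filter.atTop (nhds T) := by
  have h := E1_lim a w
  have h3 : ∑' x, E1_T a w x = T := hT.tsum_eq
  rwa [h3] at h

end H55N
end

-- from Lib.H55N.E4
section

open NumberField IsDedekindDomain

namespace H55N

open H55B

/-! Chunk E4 (M). Symmetries (reindex the sum: x -> -x, x -> x + y, x -> om x; |e om| = 1, (e om)^3 = 1) and the duplication formula.
sR_double: T(z,2z) - T(2z,z) where T(a,w) = lim sR(a+w) + sR(a-w) - 2 sR(a) (T_formula, sR_diff): sR(3z) + sR(-z) - 2 sR(z) - (sR(3z) + sR(z) - 2 sR(2z)) = 2 sR(2z) - 4 sR(z);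
T(z,2z)(wp z - wp 2z) = wpd z, T(2z,z)(wp 2z - wp z) = wpd 2z; wpd z <> 0 (wpd_double) so wp z <> wp 2z and the difference is (wpd z + wpd 2z)/(wp z - wp 2z) = 6 wp z^2/wpd z.
sR_one: T with a = 1, w = om - 1: 1 + w = om, 1 - w = 2 - om = om^2 + 3 (mod 3O: 2 - om - om^2 = 3): sR(om) + sR(om^2) - 2 sR(1) = (om^(-1) + om^(-2) - 2) sR(1) = -3 sR(1), and the limit
is R (e om - 1) = R0 (definition of R; the HasSum is T_formula, tsum). -/

theorem sR_neg (R : ℝ) (z : ℂ) : sR R (-z) = -sR R z := by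
  unfold sR
  rw [← (Equiv.neg O).tsum_eq (fun x : O => (-z + 3 * e x)⁻¹ *
    ((R ^ 2 / (R ^ 2 + ‖-z + 3 * e x‖ ^ 2) : ℝ) : ℂ)), ← tsum_neg]
  refine tsum_congr fun x => ?_
  rw [Equiv.neg_apply, map_neg]
  have e1 : -z + 3 * -e x = -(z + 3 * e x) := by ring
  rw [e1, norm_neg, inv_neg, neg_mul]

theorem sR_per (R : ℝ) (z : ℂ) (y : O) : sR R (z + 3 * e y) = sR R z :=
  E1_sR_per R z y

theorem sR_om (R : ℝ) (z : ℂ) : sR R (e om * z) = e om ^ 2 * sR R z := by
  unfold sR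
  rw [← b2_eq.tsum_eq (fun x : O => (e om * z + 3 * e x)⁻¹ *
    ((R ^ 2 / (R ^ 2 + ‖e om * z + 3 * e x‖ ^ 2) : ℝ) : ℂ)), ← tsum_mul_left]
  refine tsum_congr fun x => ?_
  have e1 : e om * z + 3 * e (b2_eq x) = e om * (z + 3 * e x) := by
    show e om * z + 3 * e (om * x) = _
    rw [map_mul]
    ring
  have e2 : (e om)⁻¹ = e om ^ 2 := by
    apply inv_eq_of_mul_eq_one_right
    rw [← pow_succ']
    exact A0_om_cube
  rw [e1, norm_mul, norm_e_om, one_mul, mul_inv, e2]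
  ring

theorem sR_double (z : ℂ) (h1 : z ∉ Lam) (h2 : 2 * z ∉ Lam) (h3 : 3 * z ∉ Lam) :
    Filter.Tendsto (fun R : ℝ => sR R (2 * z) - 2 * sR R z) Filter.atTop
      (nhds (3 * wp z ^ 2 / wpd z)) := by
  have e1 : z + 2 * z = 3 * z := by ring
  have e2 : z - 2 * z = -z := by ring
  have e3 : 2 * z + z = 3 * z := by ring
  have e4 : 2 * z - z = z := by ring
  have n1 : -z ∉ Lam := fun h => h1 (by simpa using A1_neg_mem h)
  obtain ⟨T1, hT1, f1⟩ := T_formula z (2 * z) h1 h2 (by rw [e1]; exact h3) (by rw [e2]; exact n1)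
  obtain ⟨T2, hT2, f2⟩ := T_formula (2 * z) z h2 h1 (by rw [e3]; exact h3) (by rw [e4]; exact h1)
  have t1 := sR_diff z (2 * z) T1 h1 h2 (by rw [e1]; exact h3) (by rw [e2]; exact n1) hT1
  have t2 := sR_diff (2 * z) z T2 h2 h1 (by rw [e3]; exact h3) (by rw [e4]; exact h1) hT2
  have t3 := (t1.sub t2).const_mul (1 / 2)
  obtain ⟨hy, hd⟩ := wpd_double z h1 h2
  have hne : wp z - wp (2 * z) ≠ 0 := by
    intro h
    rw [h, mul_zero] at f1
    exact hy f1.symm
  have hlim : (1 / 2 : ℂ) * (T1 - T2) = 3 * wp z ^ 2 / wpd z := by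
    rw [eq_div_iff hy]
    have h5 : (wp z - wp (2 * z)) * ((1 / 2 : ℂ) * (T1 - T2) * wpd z - 3 * wp z ^ 2) = 0 := by
      linear_combination (1 / 2) * wpd z * f1 + (1 / 2) * wpd z * f2 + (1 / 2) * hd
    rcases mul_eq_zero.1 h5 with h | h
    · exact absurd h hne
    · linear_combination h
  rw [hlim] at t3
  refine t3.congr fun R => ?_
  rw [e1, e2, e3, e4, sR_neg]
  ring

theorem sR_one : Filter.Tendsto (fun R : ℝ => sR R 1) Filter.atTop (nhds (-R0 / 3)) := by
  have t1 := E1_lim 1 (e om - 1)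
  have h1 : ∑' x, E1_T 1 (e om - 1) x = R0 := rfl
  rw [h1] at t1
  have t2 := t1.const_mul (-1 / 3 : ℂ)
  have h2 : (-1 / 3 : ℂ) * R0 = -R0 / 3 := by ring
  rw [h2] at t2
  refine t2.congr fun R => ?_
  have e1 : (1 : ℂ) + (e om - 1) = e om * 1 := by ring
  have e2 : (1 : ℂ) - (e om - 1) = e om * (e om * 1) + 3 * e 1 := by
    rw [map_one]
    linear_combination -e_om_rel
  rw [e1, e2, sR_per, sR_om R (e om * 1), sR_om R 1]
  linear_combination (-1 / 3 : ℂ) * sR R 1 * (e_om_rel + e om * A0_om_cube)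

end H55N
end

-- from Lib.H55N.E6
section

open NumberField IsDedekindDomain

namespace H55N

open H55B

/-! Chunk E6 (M). The values of the first Eisenstein function at points of odd order. r > 0 with 2^r = 1 mod k (Nat.exists.. orderOf, Euler's theorem), so 2^r z = z mod Lam.
Case 3z not in Lam: the points 2^i z, 2 * 2^i z, 3 * 2^i z are not in Lam (2 is invertible mod k: if 2 w in Lam and k w in Lam with k odd then w in Lam). By sR_double at 2^i z:
sR(2^(i+1) z) - 2 sR(2^i z) -> c_i, c_i = 3 wp^2/wpd at 2^i z. So sR(2^r z) - 2^r sR(z) -> sum_{i<r} 2^(r-1-i) c_i, and sR(2^r z) = sR(z) (sR_per): (1 - 2^r) sR(z) converges to C,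
C/R0 integral (int_point at the points 2^i z), and 2^r - 1 is odd, so S = C/(1 - 2^r), S/R0 integral (val_odd in H55B/D0).
Case 3z in Lam: z = e y, y in O not divisible by 3. The residues mod 3 are a + b om, a, b in {0,1,2}, not both 0 (exists_repr, A1_not_dvd in H55B): either z = ±om^j mod 3O (6 classes) and S = ∓.. R0 om^(2j)/3 by sR_one, sR_neg,
sR_om, sR_per, integral as 3 is odd and e om is a root of unity; or z = ±(om - 1) mod 3O (2 classes): om (om - 1) = (om - 1) - 3 om, so sR(z) = sR(om z) = om^2 sR(z), sR(z) = 0, S = 0. -/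

theorem E6_int_add {x y : ℂ} (hx : Int2 x) (hy : Int2 y) : Int2 (x + y) := fun V hV =>
  (Valuation.map_add _ _ _).trans (max_le (hx V hV) (hy V hV))

theorem E6_int_two {x : ℂ} (hx : Int2 x) : Int2 (2 * x) := by
  rw [two_mul]
  exact E6_int_add hx hx

theorem E6_zero : Int2 0 := fun V _ => by
  rw [map_zero]
  exact zero_le

theorem E6_coprime {y : O} (h : ¬ lam ∣ y) : IsCoprime y 3 := by
  have h1 : IsCoprime lam y := (lam_prime.irreducible.coprime_iff_not_dvd).2 h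
  have h2 : IsCoprime y (lam ^ 2) := (h1.symm).pow_right
  have h3 : (3 : O) = lam ^ 2 * (-om ^ 2) := by
    rw [three_eq]
    unfold lam
    ring
  rw [h3]
  refine h2.mul_right ?_
  have h4 : IsUnit (-om ^ 2 : O) := by
    rw [IsUnit.neg_iff]
    refine IsUnit.pow 2 ?_
    exact IsUnit.of_mul_eq_one (om ^ 2) (by rw [← pow_succ']; exact b2_om3)
  obtain ⟨c, hc⟩ := h4
  exact ⟨0, ((c⁻¹ : Oˣ) : O), by rw [← hc]; simp⟩

/-- The case of order three. -/
theorem E6_three (y : O) (hz : e y ∉ Lam) : ∃ S : ℂ,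
    Filter.Tendsto (fun R : ℝ => sR R (e y)) Filter.atTop (nhds S) ∧ Int2 (S / R0) := by
  have hR0 := E5_R0.2
  by_cases hl : lam ∣ y
  · obtain ⟨t, ht⟩ := hl
    refine ⟨0, ?_, ?_⟩
    · have h0 : ∀ R : ℝ, sR R (e y) = 0 := by
        intro R
        have h1 : e om * e y = e y + 3 * e (-om * t) := by
          rw [ht]
          unfold lam
          simp only [map_mul, map_sub, map_one, map_neg]
          linear_combination (e t) * e_om_rel
        have h2 := sR_om R (e y)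
        rw [h1, sR_per] at h2
        have h3 : (1 - e om ^ 2) * sR R (e y) = 0 := by linear_combination h2
        rcases mul_eq_zero.1 h3 with h | h
        · exfalso
          apply A0_om_ne_one
          have h7 : e om ^ 2 = 1 := by linear_combination -h
          have : e om ^ 3 = e om := by rw [pow_succ, h7, one_mul]
          rw [← this, A0_om_cube]
        · exact h
      simp only [h0]
      exact tendsto_const_nhds
    · rw [zero_div]
      exact E6_zero
  · obtain ⟨u, s, hs⟩ := exists_unit_prim (E6_coprime hl)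
    -- u y = 1 + 3 s
    have h1 : y = (u⁻¹ : Oˣ) + 3 * ((u⁻¹ : Oˣ) * s) := by
      have h2 : (u⁻¹ : Oˣ) * ((u : O) * y) = y := by
        rw [← mul_assoc, Units.inv_mul, one_mul]
      rw [← h2]
      have h3 : (u : O) * y = 1 + 3 * s := by linear_combination hs
      rw [h3]
      ring
    have h2 : e y = e ((u⁻¹ : Oˣ) : O) + 3 * e ((u⁻¹ : Oˣ) * s) := by
      conv_lhs => rw [h1]
      simp only [map_add, map_mul, map_ofNat]
    obtain ⟨c, hc, hcv⟩ : ∃ c : ℂ, (∀ R : ℝ, sR R (e ((u⁻¹ : Oˣ) : O)) = c * sR R 1) ∧ Int2 c := by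
      have hom : Int2 (e om) := fun V _ => val_e_le V om
      have hom2 : Int2 (e om ^ 2) := fun V _ => by
        rw [← map_pow]
        exact val_e_le V _
      have hone : Int2 1 := fun V _ => by rw [map_one]
      have hneg : ∀ x : ℂ, Int2 x → Int2 (-x) := fun x hx V hV => by
        rw [Valuation.map_neg]
        exact hx V hV
      have e1 : ∀ R : ℝ, sR R (e om) = e om ^ 2 * sR R 1 := fun R => by
        have := sR_om R 1
        rwa [mul_one] at this
      have e2 : ∀ R : ℝ, sR R (e om ^ 2) = e om * sR R 1 := fun R => by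
        have := sR_om R (e om)
        rw [e1, ← pow_two] at this
        rw [this]
        linear_combination e om * sR R 1 * A0_om_cube
      rcases unit_cases u⁻¹ with h | h | h | h | h | h
      · exact ⟨1, fun R => by rw [h, map_one, one_mul], hone⟩
      · exact ⟨-1, fun R => by rw [h, map_neg, map_one, sR_neg]; ring, hneg _ hone⟩
      · exact ⟨e om ^ 2, fun R => by rw [h, e1], hom2⟩
      · exact ⟨-e om ^ 2, fun R => by rw [h, map_neg, sR_neg, e1]; ring, hneg _ hom2⟩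
      · exact ⟨e om, fun R => by rw [h, map_pow, e2], hom⟩
      · exact ⟨-e om, fun R => by rw [h, map_neg, map_pow, sR_neg, e2]; ring, hneg _ hom⟩
    refine ⟨c * (-R0 / 3), ?_, ?_⟩
    · refine (sR_one.const_mul c).congr fun R => ?_
      rw [h2, sR_per, hc]
    · intro V hV
      have h3 : c * (-R0 / 3) / R0 = -(c / 3) := by
        field_simp
      have v3 : V.valuation 3 = 1 := by
        have := val_odd V hV 3 (by decide)
        exact_mod_cast this
      rw [h3, Valuation.map_neg, map_div₀, v3, div_one]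
      exact hcv V hV

/-- The case of order not dividing three. -/
theorem E6_gen (z : ℂ) (k : ℕ) (hk : Odd k) (hkz : (k : ℂ) * z ∈ Lam) (hz : z ∉ Lam)
    (h3 : 3 * z ∉ Lam) : ∃ S : ℂ,
    Filter.Tendsto (fun R : ℝ => sR R z) Filter.atTop (nhds S) ∧ Int2 (S / R0) := by
  have m1 := E5_pow_mem hk hz hkz
  have m3 := E5_pow_mem hk h3 (by
    have := A1_add_mem (A1_add_mem hkz hkz) hkz
    have e1 : (k : ℂ) * z + k * z + k * z = k * (3 * z) := by ring
    rwa [e1] at this)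
  have key : ∀ n : ℕ, ∃ C : ℂ, Filter.Tendsto (fun R : ℝ => sR R ((2 : ℂ) ^ n * z) -
      (2 : ℂ) ^ n * sR R z) Filter.atTop (nhds C) ∧ Int2 (C / R0) := by
    intro n
    induction n with
    | zero =>
      refine ⟨0, ?_, ?_⟩
      · refine tendsto_const_nhds.congr fun R => ?_
        rw [pow_zero, one_mul, one_mul, sub_self]
      · rw [zero_div]
        exact E6_zero
    | succ n ih =>
      obtain ⟨C, hC, hCv⟩ := ih
      have e1 : 2 * ((2 : ℂ) ^ n * z) = (2 : ℂ) ^ (n + 1) * z := by ring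
      have e2 : 3 * ((2 : ℂ) ^ n * z) = (2 : ℂ) ^ n * (3 * z) := by ring
      have t1 := sR_double ((2 : ℂ) ^ n * z) (m1 n) (by rw [e1]; exact m1 (n + 1))
        (by rw [e2]; exact m3 n)
      refine ⟨3 * wp ((2 : ℂ) ^ n * z) ^ 2 / wpd ((2 : ℂ) ^ n * z) + 2 * C, ?_, ?_⟩
      · refine (t1.add (hC.const_mul 2)).congr fun R => ?_
        rw [e1]
        ring
      · have e5 : (3 * wp ((2 : ℂ) ^ n * z) ^ 2 / wpd ((2 : ℂ) ^ n * z) + 2 * C) / R0 =
            3 * wp ((2 : ℂ) ^ n * z) ^ 2 / wpd ((2 : ℂ) ^ n * z) / R0 + 2 * (C / R0) := by ring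
        rw [e5]
        refine E6_int_add ?_ (E6_int_two hCv)
        refine int_point _ (m1 n) k hk ?_
        have := E5_int_mul hkz (2 ^ n)
        push_cast at this
        have e3 : (2 : ℂ) ^ n * (k * z) = k * ((2 : ℂ) ^ n * z) := by ring
        rwa [e3] at this
  obtain ⟨r, hr, q, hq⟩ := E5_pow hk
  obtain ⟨C, hC, hCv⟩ := key r
  obtain ⟨y, hy⟩ := hkz
  have hc3 : ((2 ^ r : ℕ) : ℂ) = ((1 + k * q : ℕ) : ℂ) := by rw [hq]
  push_cast at hc3
  have h2 : (2 : ℂ) ^ r * z = z + 3 * e (q * y) := by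
    rw [hc3, map_mul, map_natCast]
    linear_combination (q : ℂ) * hy
  have hodd : Odd (k * q) := by
    have h5 : Even (1 + k * q) := by
      rw [← hq]
      exact Even.pow_of_ne_zero even_two hr.ne'
    rcases Nat.even_or_odd (k * q) with h | h
    · exfalso
      have h6 : Odd (1 + k * q) := by rw [add_comm]; exact h.add_one
      exact (Nat.not_even_iff_odd.2 h6) h5
    · exact h
  have hne : ((k * q : ℕ) : ℂ) ≠ 0 := by
    have := hodd.pos
    exact_mod_cast this.ne'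
  refine ⟨-C / ((k * q : ℕ) : ℂ), ?_, ?_⟩
  · have t := (hC.neg).div_const ((k * q : ℕ) : ℂ)
    refine t.congr fun R => ?_
    rw [h2, sR_per, hc3]
    field_simp
    push_cast
    ring
  · intro V hV
    have v := val_odd V hV _ hodd
    have e4 : -C / ((k * q : ℕ) : ℂ) / R0 = -(C / R0) / ((k * q : ℕ) : ℂ) := by ring
    rw [e4, map_div₀, v, div_one, Valuation.map_neg]
    exact hCv V hV

theorem s_exists (z : ℂ) (hz : z ∉ Lam) (k : ℕ) (hk : Odd k) (hkz : (k : ℂ) * z ∈ Lam) :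
    ∃ S : ℂ, Filter.Tendsto (fun R : ℝ => sR R z) Filter.atTop (nhds S) ∧ Int2 (S / R0) := by
  by_cases h3 : 3 * z ∈ Lam
  · obtain ⟨y, hy⟩ := h3
    have h1 : z = e y := mul_left_cancel₀ three_ne_zero hy
    rw [h1] at hz ⊢
    exact E6_three y hz
  · exact E6_gen z k hk hkz hz h3

/-- The sums over a residue class modulo an odd integer m₀ divisible by 3. PROOF. Scaling: e α + m₀ e y = (m₀/3)(z + 3 e y) with z = 3 e α / m₀, so the sum is
(3/m₀) sR (3R/m₀) z. m₀ z = 3 e α in Lam; z not in Lam because otherwise α = m₀ y would be divisible by 3, hence by lam. -/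
theorem e1_sum (α : O) (hα : ¬ lam ∣ α) (m₀ : ℕ) (hodd : Odd m₀) (h3 : 3 ∣ m₀) :
    (∀ R : ℝ, 0 < R → Summable fun y : O => ‖(e α + m₀ * e y)⁻¹ *
      ((R ^ 2 / (R ^ 2 + ‖e α + m₀ * e y‖ ^ 2) : ℝ) : ℂ)‖) ∧
    ∃ S : ℂ, Filter.Tendsto (fun R : ℝ => ∑' y : O, (e α + m₀ * e y)⁻¹ *
      ((R ^ 2 / (R ^ 2 + ‖e α + m₀ * e y‖ ^ 2) : ℝ) : ℂ)) Filter.atTop (nhds S) ∧
      Int2 (S / R0) := by
  obtain ⟨j, hj⟩ := h3
  have hj0 : 0 < j := by
    rcases Nat.eq_zero_or_pos j with h | h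
    · rw [h, mul_zero] at hj
      rw [hj] at hodd
      exact absurd hodd (by decide)
    · exact h
  have hjo : Odd j := by
    rw [hj] at hodd
    exact (Nat.odd_mul.1 hodd).2
  have hjr : (0 : ℝ) < j := by exact_mod_cast hj0
  have hjc : (j : ℂ) ≠ 0 := by exact_mod_cast hj0.ne'
  set z : ℂ := e α / j with hzdef
  have hsc : ∀ y : O, e α + m₀ * e y = j * (z + 3 * e y) := by
    intro y
    rw [hzdef, hj]
    push_cast
    field_simp
  have hz : z ∉ Lam := by
    rintro ⟨y, hy⟩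
    apply hα
    have h1 : e α = e (3 * (j * y)) := by
      simp only [map_mul, map_ofNat, map_natCast]
      have h2 : e α = j * z := by
        rw [hzdef]
        field_simp
      rw [h2, hy]
      ring
    have h2 := e_injective h1
    have h3 : lam ∣ (3 : O) := by
      refine ⟨-om ^ 2 * lam, ?_⟩
      rw [three_eq]
      unfold lam
      ring
    rw [h2]
    exact Dvd.dvd.mul_right h3 _
  have hmz : (m₀ : ℂ) * z ∈ Lam := by
    refine ⟨α, ?_⟩
    rw [hzdef, hj]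
    push_cast
    field_simp
  have hterm : ∀ (R : ℝ) (y : O), (e α + m₀ * e y)⁻¹ *
      ((R ^ 2 / (R ^ 2 + ‖e α + m₀ * e y‖ ^ 2) : ℝ) : ℂ) =
      (j : ℂ)⁻¹ * ((z + 3 * e y)⁻¹ *
        (((R / j) ^ 2 / ((R / j) ^ 2 + ‖z + 3 * e y‖ ^ 2) : ℝ) : ℂ)) := by
    intro R y
    rw [hsc y, norm_mul, Complex.norm_natCast, mul_inv]
    have h5 : R ^ 2 / (R ^ 2 + (j * ‖z + 3 * e y‖) ^ 2) =
        (R / j) ^ 2 / ((R / j) ^ 2 + ‖z + 3 * e y‖ ^ 2) := by
      have h6 : R ^ 2 = (j : ℝ) ^ 2 * (R / j) ^ 2 := by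
        field_simp
      have h7 : R ^ 2 + (j * ‖z + 3 * e y‖) ^ 2 =
          (j : ℝ) ^ 2 * ((R / j) ^ 2 + ‖z + 3 * e y‖ ^ 2) := by
        rw [mul_add, ← h6]
        ring
      rw [h7]
      conv_lhs => rw [h6]
      exact mul_div_mul_left _ _ (by positivity)
    rw [h5]
    ring
  constructor
  · intro R hR
    have h1 := (sR_summable (R / j) (by positivity) z).mul_left ‖(j : ℂ)⁻¹‖
    refine h1.congr fun y => ?_
    rw [hterm R y, norm_mul (j : ℂ)⁻¹]
  · obtain ⟨S, hS, hSv⟩ := s_exists z hz m₀ hodd hmz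
    refine ⟨(j : ℂ)⁻¹ * S, ?_, ?_⟩
    · have ht : Filter.Tendsto (fun R : ℝ => R / j) Filter.atTop Filter.atTop :=
        Filter.tendsto_id.atTop_div_const hjr
      refine ((hS.comp ht).const_mul (j : ℂ)⁻¹).congr fun R => ?_
      simp only [hterm]
      rw [tsum_mul_left]
      rfl
    · intro V hV
      have v := val_odd V hV _ hjo
      rw [mul_div_assoc, map_mul, map_inv₀, v, inv_one, one_mul]
      exact hSv V hV

end H55N
end

-- from Lib.H55N.E8
section

open NumberField IsDedekindDomain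

namespace H55N

open H55B H55C

variable {K : Type} [Field K] [NumberField K] [Algebra F K] {m : ℕ}

/-! Chunk E8 (L). Integrality of the regularised sum for rational labels. n = m+1, l_k(x) = y(x)_k in O, e(y(x)_k) = Tr(A_k x) (hdir.int; for x in X, y(x)_k = 1 mod lam by hone). Call x, x' in X equivalent
if y(x) = y(x') mod m₀ O^n: finitely many classes (O/m₀ is finite). By hm₀ and Tr_inj the class of x0 is exactly {x0 + x(y) : y in O^n}, where x(y) in I and in all c_i is the unique element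
with Tr(A_k x(y)) = m₀ e(y_k); y -> x0 + x(y) is a bijection of O^n with the class, and g(x0 + x(y)) = g(x0), since x(y) is in all c_i. So for R > 0
sum_X g prod_k l_k^(-1) pcut = sum over the classes of g(x0) prod_k (sum_{y in O} (e α_k + m₀ e y)^(-1) R^2/(R^2 + |e α_k + m₀ e y|^2)), α_k = y(x0)_k (everything converges absolutely: e1_sum and
pi_hasSum; a finite partition of X: Summable/HasSum over a sigma type or finite union), which tends to sum g(x0) prod_k S(α_k) by e1_sum (α_k is not divisible by lam). g(x0) is an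
integer. So S/R0^n = sum g(x0) prod_k (S(α_k)/R0) is integral (valuations: finite sums, products). -/

theorem E8_int_mul {a b : ℂ} (ha : Int2 a) (hb : Int2 b) : Int2 (a * b) := by
  intro V hV
  rw [map_mul]
  exact mul_le_one' (ha V hV) (hb V hV)

theorem E8_int_sum {ι : Type} (s : Finset ι) (a : ι → ℂ) (ha : ∀ i ∈ s, Int2 (a i)) :
    Int2 (∑ i ∈ s, a i) := by
  intro V hV
  rw [ValuationSubring.valuation_le_one_iff]
  exact V.toSubring.sum_mem fun i hi => (ValuationSubring.valuation_le_one_iff V _).1 (ha i hi V hV)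

theorem E8_int_prod {ι : Type} (s : Finset ι) (a : ι → ℂ) (ha : ∀ i ∈ s, Int2 (a i)) :
    Int2 (∏ i ∈ s, a i) := by
  intro V hV
  rw [ValuationSubring.valuation_le_one_iff]
  exact V.toSubring.prod_mem fun i hi => (ValuationSubring.valuation_le_one_iff V _).1 (ha i hi V hV)

theorem E8_int_g (D : Ctx K m) (x : 𝓞 K) : Int2 (D.g x) := by
  classical
  unfold Ctx.g gw
  refine E8_int_prod _ _ fun i _ => ?_
  intro V hV
  rw [ValuationSubring.valuation_le_one_iff]
  split_ifs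
  · exact V.toSubring.sub_mem V.toSubring.one_mem (natCast_mem V.toSubring _)
  · exact V.toSubring.one_mem

theorem E8_g (D : Ctx K m) (x z : 𝓞 K) (hz : ∀ i, z ∈ D.c i) : D.g (x + z) = D.g x := by
  classical
  unfold Ctx.g gw
  refine Finset.prod_congr rfl fun i _ => ?_
  have h : x + z ∈ D.c i ↔ x ∈ D.c i := (D.c i).add_mem_iff_left (hz i)
  by_cases hx : x ∈ D.c i
  · rw [if_pos (h.2 hx), if_pos hx]
  · rw [if_neg (fun h' => hx (h.1 h')), if_neg hx]

theorem rat_val (D : Ctx K m) (hD : D.Ok) (A : Fin (m + 1) → K) (w : Fin (m + 1) × Fin 2 → 𝓞 K)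
    (hdir : D.Dirs A w) (hone : ∀ x ∈ D.X, ∀ k, ∃ y : O, D.Tr (A k) x = e (1 + lam * y))
    (m₀ : ℕ) (hodd : Odd m₀) (h3 : 3 ∣ m₀)
    (hm₀ : ∀ y : Fin (m + 1) → O, ∃ x : 𝓞 K, x ∈ D.I ∧ (∀ i, x ∈ D.c i) ∧
      ∀ k, D.Tr (A k) x = m₀ * e (y k)) (S : ℂ)
    (hS : Filter.Tendsto (fun R : ℝ => ∑' x : D.X, D.g x * (∏ k, (D.Tr (A k) x)⁻¹) *
      (D.pcut A R x : ℂ)) Filter.atTop (nhds S)) : Int2 (S / R0 ^ (m + 1)) := by
  classical
  -- coordinates
  have hY : ∀ x : D.X, ∃ y : Fin (m + 1) → O, ∀ k, D.Tr (A k) x = e (y k) ∧ ¬ lam ∣ y k := by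
    intro x
    choose y hy using hone x x.2
    refine ⟨fun k => 1 + lam * y k, fun k => ⟨hy k, ?_⟩⟩
    intro hdvd
    have h1 : lam ∣ 1 := by
      have := dvd_sub hdvd (Dvd.intro (y k) rfl : lam ∣ lam * y k)
      rwa [add_sub_cancel_right] at this
    exact lam_prime.not_isUnit (isUnit_of_dvd_one h1)
  choose Y hYY using hY
  choose z hzI hzc hzT using hm₀
  have hm0 : (m₀ : ℂ) ≠ 0 := by
    have : m₀ ≠ 0 := by
      rintro rfl
      exact absurd hodd (by decide)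
    exact_mod_cast this
  have hm0' : (m₀ : O) ≠ 0 := by
    intro h
    apply hm0
    have := congrArg e h
    rwa [map_natCast, map_zero] at this
  have hfin : Finite (O ⧸ Ideal.span {(m₀ : O)}) :=
    Ideal.finiteQuotientOfFreeOfNeBot _ (fun h => hm0' (Ideal.span_singleton_eq_bot.1 h))
  have hfin' : Finite (Fin (m + 1) → (O ⧸ Ideal.span {(m₀ : O)})) := inferInstance
  letI : Fintype (Fin (m + 1) → (O ⧸ Ideal.span {(m₀ : O)})) := Fintype.ofFinite _
  let q : D.X → (Fin (m + 1) → (O ⧸ Ideal.span {(m₀ : O)})) := fun x k =>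
    Ideal.Quotient.mk (Ideal.span {(m₀ : O)}) (Y x k)
  let T : ℝ → D.X → ℂ := fun R x => D.g x * (∏ k, (D.Tr (A k) x)⁻¹) * (D.pcut A R x : ℂ)
  let φ : ℝ → O → O → ℂ := fun R α y => (e α + m₀ * e y)⁻¹ *
      ((R ^ 2 / (R ^ 2 + ‖e α + m₀ * e y‖ ^ 2) : ℝ) : ℂ)
  have hclass : ∀ c : Fin (m + 1) → (O ⧸ Ideal.span {(m₀ : O)}), ∃ (V : ℝ → ℂ) (L : ℂ),
      (∀ R : ℝ, 0 < R → HasSum (fun x : D.X => if q x = c then T R x else 0) (V R)) ∧
      Filter.Tendsto V Filter.atTop (nhds L) ∧ Int2 (L / R0 ^ (m + 1)) := by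
    intro c
    by_cases hc : ∃ x₀ : D.X, q x₀ = c
    · obtain ⟨x₀, rfl⟩ := hc
      have hE := fun k => e1_sum (Y x₀ k) (hYY x₀ k).2 m₀ hodd h3
      choose Sk hSk hSi using fun k => (hE k).2
      let j : (Fin (m + 1) → O) → D.X := fun y => ⟨x₀ + z y, D.X_add x₀.2 (hzI y)⟩
      have hjT : ∀ y k, D.Tr (A k) (j y) = e (Y x₀ k) + m₀ * e (y k) := by
        intro y k
        show D.Tr (A k) (x₀ + z y) = _
        rw [D.Tr_add, (hYY x₀ k).1, hzT]
      have hjY : ∀ y k, Y (j y) k = Y x₀ k + m₀ * y k := by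
        intro y k
        apply e_injective
        rw [← (hYY (j y) k).1, hjT, map_add, map_mul, map_natCast]
      have hjinj : Function.Injective j := by
        intro y y' h
        funext k
        have h1 := hjT y k
        rw [h, hjT y' k] at h1
        have h2 : e (y' k) = e (y k) := mul_left_cancel₀ hm0 (add_left_cancel h1)
        exact (e_injective h2).symm
      have hjq : ∀ y, q (j y) = q x₀ := by
        intro y
        funext k
        show Ideal.Quotient.mk _ (Y (j y) k) = Ideal.Quotient.mk _ (Y x₀ k)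
        rw [hjY, Ideal.Quotient.eq, add_sub_cancel_left]
        exact Ideal.mul_mem_right _ _ (Ideal.mem_span_singleton_self _)
      have hjr : ∀ x : D.X, q x = q x₀ → x ∈ Set.range j := by
        intro x hx
        have h1 : ∀ k, ∃ t : O, Y x k - Y x₀ k = m₀ * t := by
          intro k
          have h2 : Ideal.Quotient.mk (Ideal.span {(m₀ : O)}) (Y x k) =
              Ideal.Quotient.mk (Ideal.span {(m₀ : O)}) (Y x₀ k) := congrFun hx k
          exact Ideal.mem_span_singleton.1 (Ideal.Quotient.eq.1 h2)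
        choose t ht using h1
        refine ⟨t, Subtype.ext ?_⟩
        show (x₀ : 𝓞 K) + z t = x
        have h2 : z t = x - x₀ := by
          refine Tr_inj D hD.emb A hdir.ind _ _ fun k => ?_
          rw [hzT, D.Tr_sub, (hYY x k).1, (hYY x₀ k).1, ← map_sub, ht k, map_mul, map_natCast]
        rw [h2]; ring
      refine ⟨fun R => D.g x₀ * ∏ k, ∑' y, φ R (Y x₀ k) y, D.g x₀ * ∏ k, Sk k, ?_, ?_, ?_⟩
      · intro R hR
        have hs := (pi_hasSum (m + 1) (fun k => φ R (Y x₀ k)) (fun k => (hE k).1 R hR)).mul_left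
          (D.g x₀)
        refine (hjinj.hasSum_iff ?_).1 ?_
        · intro x hx
          exact if_neg fun h => hx (hjr x h)
        · have hcongr : ((fun x : D.X => if q x = q x₀ then T R x else 0) ∘ j) =
              fun y => D.g x₀ * ∏ k, φ R (Y x₀ k) (y k) := by
            funext y
            show (if q (j y) = q x₀ then T R (j y) else 0) = _
            rw [if_pos (hjq y)]
            show D.g ((x₀ : 𝓞 K) + z y) * (∏ k, (D.Tr (A k) (j y))⁻¹) *
              ((∏ k, R ^ 2 / (R ^ 2 + ‖D.Tr (A k) (j y)‖ ^ 2) : ℝ) : ℂ) = _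
            rw [E8_g D _ _ (hzc y), Complex.ofReal_prod, mul_assoc, ← Finset.prod_mul_distrib]
            congr 1
            refine Finset.prod_congr rfl fun k _ => ?_
            rw [hjT]
          rw [hcongr]
          exact hs
      · exact (tendsto_finsetProd _ fun k _ => hSk k).const_mul _
      · have h1 : D.g x₀ * (∏ k, Sk k) / R0 ^ (m + 1) = D.g x₀ * ∏ k, (Sk k / R0) := by
          rw [Finset.prod_div_distrib, Finset.prod_const, Finset.card_univ, Fintype.card_fin,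
            mul_div_assoc]
        rw [h1]
        exact E8_int_mul (E8_int_g D _) (E8_int_prod _ _ fun k _ => hSi k)
    · refine ⟨fun _ => 0, 0, fun R _ => ?_, tendsto_const_nhds, ?_⟩
      · have : (fun x : D.X => if q x = c then T R x else 0) = fun _ => 0 := by
          funext x
          exact if_neg fun h => hc ⟨x, h⟩
        rw [this]
        exact hasSum_zero
      · rw [zero_div]
        intro V _
        rw [map_zero]
        exact zero_le_one
  choose V L hV hL hLi using hclass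
  have hsum : ∀ R : ℝ, 0 < R → ∑' x : D.X, T R x = ∑ c, V c R := by
    intro R hR
    have h1 := hasSum_sum (s := Finset.univ) (fun c _ => hV c R hR)
    have h2 : (fun x : D.X => ∑ c, if q x = c then T R x else 0) = T R := by
      funext x
      rw [Finset.sum_ite_eq]
      exact if_pos (Finset.mem_univ _)
    rw [h2] at h1
    exact h1.tsum_eq
  have hlim : Filter.Tendsto (fun R : ℝ => ∑' x : D.X, T R x) Filter.atTop (nhds (∑ c, L c)) := by
    refine (tendsto_finsetSum _ fun c _ => hL c).congr' ?_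
    filter_upwards [Filter.eventually_gt_atTop 0] with R hR
    exact (hsum R hR).symm
  have hSL : S = ∑ c, L c := tendsto_nhds_unique hS hlim
  rw [hSL, Finset.sum_div]
  exact E8_int_sum _ _ fun c _ => hLi c

end H55N
end

-- from Lib.H55N.R1
section

open NumberField IsDedekindDomain

namespace H55N

open H55B H55C

variable {K : Type} [Field K] [NumberField K] [Algebra F K] {m : ℕ}

/-! Chunk R1 (M). Rules for HasReg. g is bounded (gw is a finite product of 1 or 1 - p_i). summable_cut: for h bounded on X and R >= 1 the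
function g h cut is absolutely summable over X: |cut| <= C sz^(-2(m+2)) (cut_le; 0 is not in X), 2(m+2) > 2(m+1), sum_sz (restricted to the subtype X:
Summable.subtype / comp_injective). Then add, smul, sum: tsum_add etc. for R >= 1 (Filter.Tendsto.congr'). unique: B = 1, tendsto_nhds_unique. congr: only
values on X matter. Jv_eq: definition and unique; Jv_congr. -/

theorem g_bdd (D : Ctx K m) : ∃ C : ℝ, ∀ x, ‖D.g x‖ ≤ C := by
  refine ⟨∏ i, (1 + (D.p i : ℝ)), fun x => ?_⟩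
  unfold Ctx.g gw
  rw [norm_prod]
  refine Finset.prod_le_prod (fun i _ => norm_nonneg _) fun i _ => ?_
  split_ifs
  · refine (norm_sub_le _ _).trans ?_
    simp
  · simp

theorem summable_cut (D : Ctx K m) (hD : D.Ok) (h : 𝓞 K → ℂ) (hb : ∃ C : ℝ, ∀ x ∈ D.X, ‖h x‖ ≤ C)
    (B : Matrix (Fin (m + 1)) (Fin (m + 1)) ℂ) (hB : B.det ≠ 0) (R : ℝ) (hR : 1 ≤ R) :
    Summable fun x : D.X => ‖h x * (D.cut B R x : ℂ)‖ := by
  obtain ⟨C, hC⟩ := hb
  obtain ⟨C', hC'⟩ := cut_le D hD.emb B hB R hR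
  have h1 : Summable fun x : 𝓞 K => D.sz x ^ (-(2 * (m + 2) : ℝ)) :=
    sum_sz D hD.emb _ (by linarith)
  have h2 : Summable fun x : D.X => D.sz (x : 𝓞 K) ^ (-(2 * (m + 2) : ℝ)) :=
    h1.comp_injective Subtype.val_injective
  refine (h2.mul_left (|C| * C')).of_nonneg_of_le (fun x => norm_nonneg _) fun x => ?_
  rw [norm_mul, Complex.norm_real, Real.norm_eq_abs, mul_assoc]
  have h3 := hC' x (D.X_ne hD.ne x.2)
  exact mul_le_mul ((hC x x.2).trans (le_abs_self C)) h3 (abs_nonneg _) (abs_nonneg _)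

theorem r1_summable (D : Ctx K m) (hD : D.Ok) (h : 𝓞 K → ℂ) (hb : ∃ C : ℝ, ∀ x ∈ D.X, ‖h x‖ ≤ C)
    (B : Matrix (Fin (m + 1)) (Fin (m + 1)) ℂ) (hB : B.det ≠ 0) (R : ℝ) (hR : 1 ≤ R) :
    Summable fun x : D.X => D.g x * h x * (D.cut B R x : ℂ) := by
  apply Summable.of_norm
  apply summable_cut D hD (fun x => D.g x * h x) _ B hB R hR
  obtain ⟨C, hC⟩ := hb
  obtain ⟨C', hC'⟩ := g_bdd D
  refine ⟨C' * C, fun x hx => ?_⟩
  rw [norm_mul]
  exact mul_le_mul (hC' x) (hC x hx) (norm_nonneg _) ((norm_nonneg _).trans (hC' x))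

theorem HasReg.unique (D : Ctx K m) {h : 𝓞 K → ℂ} {S S' : ℂ} (h1 : D.HasReg h S)
    (h2 : D.HasReg h S') : S = S' := by
  have hB : (1 : Matrix (Fin (m + 1)) (Fin (m + 1)) ℂ).det ≠ 0 := by
    rw [Matrix.det_one]
    exact one_ne_zero
  exact tendsto_nhds_unique (h1.2 1 hB) (h2.2 1 hB)

theorem HasReg.congr (D : Ctx K m) {h k : 𝓞 K → ℂ} {S : ℂ} (h1 : D.HasReg h S)
    (hk : ∀ x ∈ D.X, h x = k x) : D.HasReg k S := by
  obtain ⟨⟨C, hC⟩, h2⟩ := h1
  refine ⟨⟨C, fun x hx => by rw [← hk x hx]; exact hC x hx⟩, fun B hB => ?_⟩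
  refine (h2 B hB).congr fun R => ?_
  exact tsum_congr fun x => by rw [hk x x.2]

theorem HasReg.smul (D : Ctx K m) {h : 𝓞 K → ℂ} {S : ℂ} (h1 : D.HasReg h S) (c : ℂ) :
    D.HasReg (fun x => c * h x) (c * S) := by
  obtain ⟨⟨C, hC⟩, h2⟩ := h1
  refine ⟨⟨‖c‖ * C, fun x hx => ?_⟩, fun B hB => ?_⟩
  · rw [norm_mul]
    exact mul_le_mul_of_nonneg_left (hC x hx) (norm_nonneg _)
  · refine ((h2 B hB).const_mul c).congr fun R => ?_
    rw [← tsum_mul_left]
    exact tsum_congr fun x => by ring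

theorem HasReg.add (D : Ctx K m) (hD : D.Ok) {h k : 𝓞 K → ℂ} {S S' : ℂ} (h1 : D.HasReg h S)
    (h2 : D.HasReg k S') : D.HasReg (fun x => h x + k x) (S + S') := by
  obtain ⟨⟨C, hC⟩, h3⟩ := h1
  obtain ⟨⟨C', hC'⟩, h4⟩ := h2
  refine ⟨⟨C + C', fun x hx => (norm_add_le _ _).trans (add_le_add (hC x hx) (hC' x hx))⟩,
    fun B hB => ?_⟩
  refine ((h3 B hB).add (h4 B hB)).congr' ?_
  filter_upwards [Filter.eventually_ge_atTop 1] with R hR
  rw [← (r1_summable D hD h ⟨C, hC⟩ B hB R hR).tsum_add (r1_summable D hD k ⟨C', hC'⟩ B hB R hR)]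
  exact tsum_congr fun x => by ring

theorem HasReg.zero (D : Ctx K m) : D.HasReg (fun _ => 0) 0 := by
  refine ⟨⟨0, fun x _ => by simp⟩, fun B _ => ?_⟩
  simp

theorem HasReg.sum (D : Ctx K m) (hD : D.Ok) {κ : Type} (s : Finset κ) (h : κ → 𝓞 K → ℂ)
    (S : κ → ℂ) (h1 : ∀ i ∈ s, D.HasReg (h i) (S i)) :
    D.HasReg (fun x => ∑ i ∈ s, h i x) (∑ i ∈ s, S i) := by
  classical
  induction s using Finset.induction_on with
  | empty =>
    simp only [Finset.sum_empty]
    exact HasReg.zero D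
  | insert a s ha ih =>
    simp only [Finset.sum_insert ha]
    exact HasReg.add D hD (h1 a (Finset.mem_insert_self a s))
      (ih fun i hi => h1 i (Finset.mem_insert_of_mem hi))

theorem Jv_eq (D : Ctx K m) {L : Fin (m + 1) → Lab K m} {S : ℂ} (h : D.HasReg (D.Idet L) S) :
    D.Jv L = S := by
  have h1 : ∃ S, D.HasReg (D.Idet L) S := ⟨S, h⟩
  unfold Ctx.Jv
  rw [dif_pos h1]
  exact HasReg.unique D h1.choose_spec h

/-- Degenerate simplices: two equal rows. -/
theorem Jv_degenerate (D : Ctx K m) (L : Fin (m + 1) → Lab K m)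
    (h : ∃ j : Fin m, L j.castSucc = L j.succ) : D.Jv L = 0 := by
  obtain ⟨j, hj⟩ := h
  apply Jv_eq
  refine HasReg.congr D (HasReg.zero D) fun x _ => ?_
  symm
  unfold Ctx.Idet
  have hne : j.castSucc ≠ j.succ := (Fin.castSucc_lt_succ).ne
  refine Matrix.det_zero_of_row_eq hne ?_
  funext i
  simp only [Matrix.of_apply]
  rw [hj]

end H55N
end

-- from Lib.H55N.R5
section

open NumberField IsDedekindDomain

namespace H55N

open H55B H55C

variable {K : Type} [Field K] [NumberField K] [Algebra F K] {m : ℕ}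

/-! Chunk R5 (M). Invariance under units v with v X = X and N(v) = 1.
Idet(v L)(x) = Idet(L)(v x): row(v.T t)(x)_i = conj(x_i)|v_i|^2 t_i / sum_k |v_k|^2 t_k |x_k|^2 = v_i row(T t)(v x)_i, and
row(v.A a)(x)_i = v_i a_i/Tr(v a x) = v_i row(A a)(v x)_i; the columns give prod v_i = 1 (Matrix.det_mul_row). x -> v x is a bijection of X
(v x - c0 = v (x - c0) + (v - 1) c0; inverse v^(-1)), g(v x) = g(x) (x in c_i iff v x in c_i), and cut B R x = cut (B diag(σ_j v)^(-1)) R (v x). So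
HasReg (Idet L) S implies HasReg (Idet (v L)) S (for B use B diag(σ_j v)^(-1), of nonzero determinant), and conversely with v^(-1)
(act v (act v^(-1) l) = l). Jv: by cases on existence. -/

omit [NumberField K] [Algebra F K] in
theorem R5_mul (s : K →+* ℂ) (v x : 𝓞 K) : s ((v * x : 𝓞 K) : K) = s (v : K) * s (x : K) := by
  have h : ((v * x : 𝓞 K) : K) = (v : K) * (x : K) := map_mul (algebraMap (𝓞 K) K) v x
  rw [h, map_mul]

theorem R5_row (D : Ctx K m) (v : (𝓞 K)ˣ) (l : Lab K m) (x : 𝓞 K) (i : Fin (m + 1)) :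
    D.row (D.act v l) x i = D.σ i ((v : 𝓞 K) : K) * D.row l (v * x) i := by
  cases l with
  | T t =>
    show (starRingEnd ℂ) (D.σ i x) * ((‖D.σ i ((v : 𝓞 K) : K)‖ ^ 2 * t i : ℝ) : ℂ) /
        (D.Q (fun i => ‖D.σ i ((v : 𝓞 K) : K)‖ ^ 2 * t i) x : ℂ) =
      D.σ i ((v : 𝓞 K) : K) * ((starRingEnd ℂ) (D.σ i ((v * x : 𝓞 K) : K)) * t i / D.Q t (v * x))
    have hQ : D.Q (fun i => ‖D.σ i ((v : 𝓞 K) : K)‖ ^ 2 * t i) x = D.Q t (v * x) := by
      unfold Ctx.Q
      refine Finset.sum_congr rfl fun k _ => ?_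
      have h := R5_mul (D.σ k) (v : 𝓞 K) x
      show ‖D.σ k ((v : 𝓞 K) : K)‖ ^ 2 * t k * ‖D.σ k (x : K)‖ ^ 2 =
        t k * ‖D.σ k (((v : 𝓞 K) * x : 𝓞 K) : K)‖ ^ 2
      rw [h, norm_mul]
      ring
    rw [hQ]
    have h1 : ((‖D.σ i ((v : 𝓞 K) : K)‖ ^ 2 * t i : ℝ) : ℂ) =
        D.σ i ((v : 𝓞 K) : K) * (starRingEnd ℂ) (D.σ i ((v : 𝓞 K) : K)) * t i := by
      rw [Complex.mul_conj, Complex.normSq_eq_norm_sq]
      push_cast
      ring
    rw [h1, R5_mul (D.σ i) (v : 𝓞 K) x, map_mul]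
    ring
  | A a =>
    show D.σ i (((v : 𝓞 K) : K) * a) / D.Tr (((v : 𝓞 K) : K) * a) x =
      D.σ i ((v : 𝓞 K) : K) * (D.σ i a / D.Tr a (v * x))
    have hT : D.Tr (((v : 𝓞 K) : K) * a) x = D.Tr a (v * x) := by
      unfold Ctx.Tr
      refine Finset.sum_congr rfl fun k _ => ?_
      congr 1
      have h : (((v : 𝓞 K) * x : 𝓞 K) : K) = ((v : 𝓞 K) : K) * (x : K) :=
        map_mul (algebraMap (𝓞 K) K) (v : 𝓞 K) x
      rw [h]
      ring
    rw [hT, map_mul]
    ring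

theorem R5_Idet (D : Ctx K m) (v : (𝓞 K)ˣ) (hN : ∏ i, D.σ i ((v : 𝓞 K) : K) = 1)
    (L : Fin (m + 1) → Lab K m) (x : 𝓞 K) :
    D.Idet (fun j => D.act v (L j)) x = D.Idet L (v * x) := by
  unfold Ctx.Idet
  have h1 : (Matrix.of fun j i => D.row (D.act v (L j)) x i) =
      Matrix.of fun j i => D.σ i ((v : 𝓞 K) : K) * (Matrix.of fun j i => D.row (L j) (v * x) i) j i := by
    ext j i
    simp only [Matrix.of_apply]
    exact R5_row D v (L j) x i
  rw [h1, Matrix.det_mul_row, hN, one_mul]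

theorem R5_inv (D : Ctx K m) (v : (𝓞 K)ˣ) (hv : ((v : 𝓞 K) - 1) * D.c₀ ∈ D.I) :
    (((v⁻¹ : (𝓞 K)ˣ) : 𝓞 K) - 1) * D.c₀ ∈ D.I := by
  have h1 : (((v⁻¹ : (𝓞 K)ˣ) : 𝓞 K) - 1) * D.c₀ =
      -((v⁻¹ : (𝓞 K)ˣ) : 𝓞 K) * (((v : 𝓞 K) - 1) * D.c₀) := by
    have h2 : ((v⁻¹ : (𝓞 K)ˣ) : 𝓞 K) * (v : 𝓞 K) = 1 := v.inv_mul
    linear_combination (D.c₀) * h2
  rw [h1]
  exact D.I.mul_mem_left _ hv

theorem R5_memX (D : Ctx K m) (v : (𝓞 K)ˣ) (hv : ((v : 𝓞 K) - 1) * D.c₀ ∈ D.I) {x : 𝓞 K}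
    (hx : x ∈ D.X) : (v : 𝓞 K) * x ∈ D.X := by
  rw [Ctx.mem_X] at hx ⊢
  have : (v : 𝓞 K) * x - D.c₀ = v * (x - D.c₀) + (v - 1) * D.c₀ := by ring
  rw [this]
  exact D.I.add_mem (D.I.mul_mem_left _ hx) hv

/-- Multiplication by v as a permutation of X. -/
noncomputable def R5_equiv (D : Ctx K m) (v : (𝓞 K)ˣ) (hv : ((v : 𝓞 K) - 1) * D.c₀ ∈ D.I) :
    D.X ≃ D.X where
  toFun x := ⟨v * x, R5_memX D v hv x.2⟩
  invFun x := ⟨((v⁻¹ : (𝓞 K)ˣ) : 𝓞 K) * x, R5_memX D v⁻¹ (R5_inv D v hv) x.2⟩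
  left_inv x := by
    apply Subtype.ext
    show ((v⁻¹ : (𝓞 K)ˣ) : 𝓞 K) * (v * x) = x
    rw [← mul_assoc, v.inv_mul, one_mul]
  right_inv x := by
    apply Subtype.ext
    show (v : 𝓞 K) * (((v⁻¹ : (𝓞 K)ˣ) : 𝓞 K) * x) = x
    rw [← mul_assoc, v.mul_inv, one_mul]

theorem R5_g (D : Ctx K m) (v : (𝓞 K)ˣ) (x : 𝓞 K) : D.g (v * x) = D.g x := by
  classical
  unfold Ctx.g gw
  refine Finset.prod_congr rfl fun i _ => ?_
  have h : (v : 𝓞 K) * x ∈ D.c i ↔ x ∈ D.c i := by
    constructor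
    · intro h
      have h2 := (D.c i).mul_mem_left ((v⁻¹ : (𝓞 K)ˣ) : 𝓞 K) h
      rwa [← mul_assoc, v.inv_mul, one_mul] at h2
    · exact fun h => (D.c i).mul_mem_left _ h
  by_cases hx : x ∈ D.c i
  · rw [if_pos (h.2 hx), if_pos hx]
  · rw [if_neg (fun h' => hx (h.1 h')), if_neg hx]

theorem R5_ne (D : Ctx K m) (v : (𝓞 K)ˣ) (j : Fin (m + 1)) : D.σ j ((v : 𝓞 K) : K) ≠ 0 :=
  (map_ne_zero _).2 (NumberField.Units.coe_ne_zero _)

theorem R5_cut (D : Ctx K m) (v : (𝓞 K)ˣ) (B : Matrix (Fin (m + 1)) (Fin (m + 1)) ℂ) (R : ℝ)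
    (x : 𝓞 K) : D.cut (B * Matrix.diagonal fun j => (D.σ j ((v : 𝓞 K) : K))⁻¹) R (v * x) =
      D.cut B R x := by
  unfold Ctx.cut
  have h : ∀ i, ∑ j, (B * Matrix.diagonal fun j => (D.σ j ((v : 𝓞 K) : K))⁻¹) i j *
      D.σ j ((v * x : 𝓞 K) : K) = ∑ j, B i j * D.σ j x := by
    intro i
    refine Finset.sum_congr rfl fun j _ => ?_
    rw [Matrix.mul_diagonal, R5_mul (D.σ j) (v : 𝓞 K) x]
    have := R5_ne D v j
    field_simp
  simp only [h]

theorem R5_reg (D : Ctx K m) (v : (𝓞 K)ˣ) (hv : ((v : 𝓞 K) - 1) * D.c₀ ∈ D.I)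
    {h : 𝓞 K → ℂ} {S : ℂ} (hS : D.HasReg h S) : D.HasReg (fun x => h (v * x)) S := by
  obtain ⟨⟨C, hC⟩, hB⟩ := hS
  refine ⟨⟨C, fun x hx => hC _ (R5_memX D v hv hx)⟩, fun B hdet => ?_⟩
  have hd : (B * Matrix.diagonal fun j => (D.σ j ((v : 𝓞 K) : K))⁻¹).det ≠ 0 := by
    rw [Matrix.det_mul, Matrix.det_diagonal]
    exact mul_ne_zero hdet (Finset.prod_ne_zero_iff.2 fun j _ => inv_ne_zero (R5_ne D v j))
  have h1 := hB _ hd
  refine h1.congr fun R => ?_
  rw [← (R5_equiv D v hv).tsum_eq]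
  refine tsum_congr fun x => ?_
  show D.g (v * x) * h (v * x) * (D.cut _ R (v * x) : ℂ) = _
  rw [R5_g, R5_cut]

theorem reg_act (D : Ctx K m) (v : (𝓞 K)ˣ) (hv : ((v : 𝓞 K) - 1) * D.c₀ ∈ D.I)
    (hN : ∏ i, D.σ i ((v : 𝓞 K) : K) = 1) (L : Fin (m + 1) → Lab K m) (S : ℂ) :
    D.HasReg (D.Idet fun j => D.act v (L j)) S ↔ D.HasReg (D.Idet L) S := by
  have h1 : (D.Idet fun j => D.act v (L j)) = fun x => D.Idet L (v * x) :=
    funext fun x => R5_Idet D v hN L x
  rw [h1]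
  constructor
  · intro h
    have h2 := R5_reg D v⁻¹ (R5_inv D v hv) h
    have h3 : (fun x : 𝓞 K => D.Idet L (v * (((v⁻¹ : (𝓞 K)ˣ) : 𝓞 K) * x))) = D.Idet L := by
      funext x
      rw [← mul_assoc, v.mul_inv, one_mul]
    rwa [h3] at h2
  · exact fun h => R5_reg D v hv h

theorem Jv_act (D : Ctx K m) (v : (𝓞 K)ˣ) (hv : ((v : 𝓞 K) - 1) * D.c₀ ∈ D.I)
    (hN : ∏ i, D.σ i ((v : 𝓞 K) : K) = 1) (L : Fin (m + 1) → Lab K m) :
    D.Jv (fun j => D.act v (L j)) = D.Jv L := by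
  by_cases h : ∃ S, D.HasReg (D.Idet L) S
  · obtain ⟨S, hS⟩ := h
    rw [Jv_eq D hS, Jv_eq D ((reg_act D v hv hN L S).2 hS)]
  · have h' : ¬ ∃ S, D.HasReg (D.Idet fun j => D.act v (L j)) S :=
      fun ⟨S, hS⟩ => h ⟨S, (reg_act D v hv hN L S).1 hS⟩
    unfold Ctx.Jv
    rw [dif_neg h, dif_neg h']

/-- The units v with v X = X. -/
def R5_sub (D : Ctx K m) : Subgroup (𝓞 K)ˣ where
  carrier := {v | ((v : 𝓞 K) - 1) * D.c₀ ∈ D.I}
  one_mem' := by simp
  mul_mem' := by
    intro a b ha hb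
    have : ((a * b : (𝓞 K)ˣ) : 𝓞 K) - 1 = a * (b - 1) + (a - 1) := by push_cast; ring
    rw [Set.mem_ofPred_eq, this, add_mul, mul_assoc]
    exact D.I.add_mem (D.I.mul_mem_left _ hb) ha
  inv_mem' := fun {a} ha => R5_inv D a ha

/-- The units of norm one. -/
def R5_sub1 (D : Ctx K m) : Subgroup (𝓞 K)ˣ where
  carrier := {v | ∏ i, D.σ i ((v : 𝓞 K) : K) = 1}
  one_mem' := by simp
  mul_mem' := by
    intro a b ha hb
    rw [Set.mem_ofPred_eq] at ha hb ⊢
    simp only [Units.val_mul, map_mul, Finset.prod_mul_distrib, ha, hb, mul_one]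
  inv_mem' := by
    intro a ha
    rw [Set.mem_ofPred_eq] at ha ⊢
    have h : (∏ i, D.σ i ((a : 𝓞 K) : K)) * ∏ i, D.σ i (((a⁻¹ : (𝓞 K)ˣ) : 𝓞 K) : K) = 1 := by
      rw [← Finset.prod_mul_distrib]
      refine Finset.prod_eq_one fun i _ => ?_
      rw [← map_mul, ← map_mul, a.mul_inv, map_one, map_one]
    rwa [ha, one_mul] at h

omit [NumberField K] [Algebra F K] in
theorem R5_coe (u : Fin m → (𝓞 K)ˣ) (z : Fin m → ℤ) (s : K →+* ℂ) :
    s ((uu u z : 𝓞 K) : K) = ∏ j, (s ((u j : 𝓞 K) : K)) ^ z j := by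
  let f : (𝓞 K)ˣ →* ℂˣ := Units.map ((s.comp (algebraMap (𝓞 K) K) : 𝓞 K →+* ℂ) : 𝓞 K →* ℂ)
  have h1 : f (uu u z) = ∏ j, f (u j) ^ z j := by
    unfold uu
    rw [map_prod]
    exact Finset.prod_congr rfl fun j _ => map_zpow f _ _
  have h2 := congrArg (fun t : ℂˣ => (t : ℂ)) h1
  simp only [Units.coe_prod, Units.val_zpow_eq_zpow_val] at h2
  exact h2

/-- The group generated by the units u. -/
theorem uu_act (D : Ctx K m) (u : Fin m → (𝓞 K)ˣ) (hu : D.UOk u) (z : Fin m → ℤ) :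
    ((uu u z : 𝓞 K) - 1) * D.c₀ ∈ D.I ∧ ∏ i, D.σ i ((uu u z : 𝓞 K) : K) = 1 ∧
      ∀ i, ‖D.σ i ((uu u z : 𝓞 K) : K)‖ ^ 2 = Real.exp (∑ j, (z j : ℝ) * D.lm u i j) := by
  refine ⟨?_, ?_, ?_⟩
  · have : uu u z ∈ R5_sub D :=
      Subgroup.prod_mem _ fun j _ => Subgroup.zpow_mem _ (hu.act j) _
    exact this
  · have : uu u z ∈ R5_sub1 D :=
      Subgroup.prod_mem _ fun j _ => Subgroup.zpow_mem _ (hu.norm j) _
    exact this
  · intro i
    rw [R5_coe, norm_prod, ← Finset.prod_pow, Real.exp_sum]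
    refine Finset.prod_congr rfl fun j _ => ?_
    have h1 : 0 < ‖D.σ i ((u j : 𝓞 K) : K)‖ := norm_pos_iff.2 (R5_ne D (u j) i)
    have h2 : ‖D.σ i ((u j : 𝓞 K) : K) ^ z j‖ = Real.exp ((z j : ℝ) *
        Real.log ‖D.σ i ((u j : 𝓞 K) : K)‖) := by
      rw [norm_zpow, ← Real.log_zpow, Real.exp_log (zpow_pos h1 _)]
    rw [h2, ← Real.exp_nat_mul]
    congr 1
    unfold Ctx.lm
    push_cast
    ring

theorem lm_sum (D : Ctx K m) (u : Fin m → (𝓞 K)ˣ) (hu : D.UOk u) (j : Fin m) :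
    ∑ i, D.lm u i j = 0 := by
  unfold Ctx.lm
  rw [← Finset.mul_sum, ← Real.log_prod (fun i _ => norm_ne_zero_iff.2 (R5_ne D (u j) i)),
    ← norm_prod, hu.norm j, norm_one, Real.log_one, mul_zero]

end H55N
end

-- from Lib.H55N.U3
section

open NumberField IsDedekindDomain MeasureTheory

namespace H55N

open H55B H55C

variable {K : Type} [Field K] [NumberField K] [Algebra F K] {m : ℕ}

/-! Chunk U3 (L). Unfolding. n = m+1, r = Re s > 3/2, lm = D.lm u, Fz(x) = g(x) conj N(x) Q_{tt z}(x)^(-n s).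
(a) Q_{tt z}(u^a x) = Q_{tt(z+a)}(x) and N(u^a x) = N(x) (uu_act; tt lm (z + a) i = tt lm z i * |σ_i u^a|^2), g(u^a x) = g(x).
(b) sum_{x in X} int_[0,1]^m |Fz(x)| dz <= C sum_X sz^n sz^(-2 n r) < infinity (|N x| <= sz^n, Q >= c sz^2 uniformly for z in the cube (Q_low), 2nr - n > 2n, sum_sz).
So int_cube sum_X Fz(x) dz = sum_X int_cube Fz(x) dz (hasSum_integral_of_summable_integral_norm or integral_tsum).
(c) By the bijection (a, x) -> u^a x from Z^m x T to X (T as in hbij; it maps into X by uu_act) the last sum is sum_{x in T} sum_a int_cube F_{z+a}(x) dz =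
sum_{x in T} int_{R^m} Fz(x) dz (tiling) = sum_{x in T} g(x) conj N(x) (prod |x_i|^2)^(-s) cst(s) (shift_eq with y_i = |σ_i x|^2 > 0; x <> 0) and
(prod |x_i|^2)^(-s) conj N = |N x|^(-2s) conj N = nf s x (norm_eq; cpow of a positive real).
(d) Absolute convergence of the sum over T: the same with g, s replaced by |g|, r (use norms: |g(x) nf s x| cst(r) is the integral over R^m of |Fz(x)|, cst(r) > 0: cst_eq;
tiling_lintegral or tiling for the norm). -/

theorem u3_sz_pos (D : Ctx K m) (x : 𝓞 K) : 1 ≤ D.sz x := by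
  unfold Ctx.sz
  have : 0 ≤ ∑ i, ‖D.σ i x‖ := Finset.sum_nonneg fun i _ => norm_nonneg _
  linarith

theorem u3_N_le (D : Ctx K m) (x : 𝓞 K) : ‖D.N x‖ ≤ D.sz x ^ (m + 1) := by
  unfold Ctx.N
  rw [norm_prod]
  have h1 : ∀ i, ‖D.σ i x‖ ≤ D.sz x := by
    intro i
    unfold Ctx.sz
    have := Finset.single_le_sum (f := fun i => ‖D.σ i x‖) (fun i _ => norm_nonneg _)
      (Finset.mem_univ i)
    linarith
  calc ∏ i, ‖D.σ i x‖ ≤ ∏ _i : Fin (m + 1), D.sz x :=
        Finset.prod_le_prod (fun i _ => norm_nonneg _) fun i _ => h1 i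
    _ = D.sz x ^ (m + 1) := by simp

theorem u3_fs_le (D : Ctx K m) (t : Fin (m + 1) → ℝ) (s : ℂ) (hs : 0 < s.re) (c : ℝ) (hc : 0 < c)
    (x : 𝓞 K) (hx : c * D.sz x ^ 2 ≤ D.Q t x) :
    ‖D.fs t s x‖ ≤ c ^ (-((m + 1 : ℕ) * s.re)) * D.sz x ^ (-((2 * s.re - 1) * (m + 1 : ℝ))) := by
  have hsz := u3_sz_pos D x
  have hsz0 : 0 < D.sz x := by linarith
  have hcs : 0 < c * D.sz x ^ 2 := by positivity
  have hQ : 0 < D.Q t x := lt_of_lt_of_le hcs hx
  unfold Ctx.fs
  rw [norm_mul, RCLike.norm_conj, Complex.norm_cpow_eq_rpow_re_of_pos hQ]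
  have hre : (-(((m + 1 : ℕ) : ℂ) * s)).re = -(((m + 1 : ℕ) : ℝ) * s.re) := by
    rw [Complex.neg_re, ← Complex.ofReal_natCast, Complex.re_ofReal_mul]
  rw [hre]
  have hneg : -(((m + 1 : ℕ) : ℝ) * s.re) ≤ 0 := by
    have : 0 ≤ ((m + 1 : ℕ) : ℝ) * s.re := by positivity
    linarith
  have h1 : D.Q t x ^ (-(((m + 1 : ℕ) : ℝ) * s.re)) ≤
      (c * D.sz x ^ 2) ^ (-(((m + 1 : ℕ) : ℝ) * s.re)) :=
    Real.rpow_le_rpow_of_nonpos hcs hx hneg
  have h2 : (c * D.sz x ^ 2) ^ (-(((m + 1 : ℕ) : ℝ) * s.re)) =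
      c ^ (-(((m + 1 : ℕ) : ℝ) * s.re)) * D.sz x ^ (2 * (-(((m + 1 : ℕ) : ℝ) * s.re))) := by
    rw [Real.mul_rpow hc.le (by positivity), Real.rpow_mul hsz0.le]
    norm_cast
  have h3 : D.sz x ^ (m + 1) * D.sz x ^ (2 * (-(((m + 1 : ℕ) : ℝ) * s.re))) =
      D.sz x ^ (-((2 * s.re - 1) * (m + 1 : ℝ))) := by
    rw [← Real.rpow_natCast, ← Real.rpow_add hsz0]
    congr 1
    push_cast
    ring
  calc ‖D.N x‖ * D.Q t x ^ (-(((m + 1 : ℕ) : ℝ) * s.re))
      ≤ D.sz x ^ (m + 1) * (c ^ (-(((m + 1 : ℕ) : ℝ) * s.re)) *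
          D.sz x ^ (2 * (-(((m + 1 : ℕ) : ℝ) * s.re)))) := by
        rw [← h2]
        exact mul_le_mul (u3_N_le D x) h1 (Real.rpow_nonneg hQ.le _) (by positivity)
    _ = c ^ (-(((m + 1 : ℕ) : ℝ) * s.re)) * (D.sz x ^ (m + 1) *
          D.sz x ^ (2 * (-(((m + 1 : ℕ) : ℝ) * s.re)))) := by ring
    _ = _ := by rw [h3]

theorem u3_sum (D : Ctx K m) (hE : Emb D.σ) (s : ℂ) (hs : 3 / 2 < s.re) :
    Summable fun x : D.X => D.sz (x : 𝓞 K) ^ (-((2 * s.re - 1) * (m + 1 : ℝ))) := by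
  have h := sum_sz D hE ((2 * s.re - 1) * (m + 1 : ℝ)) (by
    have : (0 : ℝ) < m + 1 := by positivity
    nlinarith)
  exact h.subtype D.X

/-- For Re s > 3/2 the family fs is absolutely summable over X. -/
theorem fs_summable (D : Ctx K m) (hE : Emb D.σ) (h0 : D.c₀ ∉ D.I) (t : Fin (m + 1) → ℝ)
    (ht : ∀ i, 0 < t i) (s : ℂ) (hs : 3 / 2 < s.re) :
    Summable fun x : D.X => ‖D.fs t s (x : 𝓞 K)‖ := by
  obtain ⟨a, ha, hat⟩ : ∃ a : ℝ, 0 < a ∧ ∀ i, a ≤ t i := by
    obtain ⟨i, hi⟩ := Finite.exists_min t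
    exact ⟨t i, ht i, hi⟩
  obtain ⟨c, hc, hQ⟩ := Q_low D hE a ha
  refine Summable.of_nonneg_of_le (fun x => norm_nonneg _) (fun x => ?_)
    ((u3_sum D hE s hs).mul_left (c ^ (-((m + 1 : ℕ) * s.re))))
  exact u3_fs_le D t s (by linarith) c hc x (hQ t hat x (D.X_ne h0 x.2))

theorem u3_countable (K : Type) [Field K] [NumberField K] : Countable (𝓞 K) := by
  have e := (NumberField.RingOfIntegers.basis K).equivFun
  exact e.toEquiv.countable_iff.2 inferInstance

/-- The translation of the parameter by the action of the units. -/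
theorem u3_trans (D : Ctx K m) (u : Fin m → (𝓞 K)ˣ) (hu : D.UOk u) (s : ℂ) (z : Fin m → ℝ)
    (a : Fin m → ℤ) (x : 𝓞 K) :
    D.fs (tt (D.lm u) z) s ((uu u a : 𝓞 K) * x) =
      D.fs (tt (D.lm u) fun k => z k + a k) s x := by
  obtain ⟨-, h2, h3⟩ := uu_act D u hu a
  have hσ : ∀ i, D.σ i (((uu u a : 𝓞 K) * x : 𝓞 K) : K) =
      D.σ i ((uu u a : 𝓞 K) : K) * D.σ i (x : K) := by
    intro i
    rw [← map_mul]
    norm_cast
  have hN : D.N ((uu u a : 𝓞 K) * x) = D.N x := by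
    unfold Ctx.N
    rw [Finset.prod_congr rfl fun i _ => hσ i, Finset.prod_mul_distrib, h2, one_mul]
  have hQ : D.Q (tt (D.lm u) z) ((uu u a : 𝓞 K) * x) =
      D.Q (tt (D.lm u) fun k => z k + a k) x := by
    unfold Ctx.Q
    refine Finset.sum_congr rfl fun i _ => ?_
    rw [hσ i, norm_mul, mul_pow, h3 i, ← mul_assoc]
    congr 1
    unfold tt
    rw [← Real.exp_add]
    congr 1
    rw [← Finset.sum_add_distrib]
    exact Finset.sum_congr rfl fun j _ => by ring
  unfold Ctx.fs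
  rw [hN, hQ]

theorem u3_pos (D : Ctx K m) (x : 𝓞 K) (hx : x ≠ 0) (i : Fin (m + 1)) : 0 < ‖D.σ i x‖ ^ 2 := by
  have h1 : (x : K) ≠ 0 := by exact_mod_cast hx
  have h2 : D.σ i x ≠ 0 := by
    rw [Ne, map_eq_zero]
    exact h1
  have := norm_pos_iff.2 h2
  positivity

theorem u3_integrable (D : Ctx K m) (u : Fin m → (𝓞 K)ˣ) (hu : D.UOk u) (s : ℂ) (hs : 0 < s.re)
    (x : 𝓞 K) (hx : x ≠ 0) : Integrable fun z : Fin m → ℝ => D.fs (tt (D.lm u) z) s x :=
  (shift_integrable (D.lm u) (lm_sum D u hu) hu.reg s hs (fun i => ‖D.σ i x‖ ^ 2)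
    (u3_pos D x hx)).const_mul ((starRingEnd ℂ) (D.N x))

theorem u3_nf (D : Ctx K m) (hE : Emb D.σ) (s : ℂ) (x : 𝓞 K) (hx : x ≠ 0) :
    (starRingEnd ℂ) (D.N x) * (((∏ i, ‖D.σ i x‖ ^ 2 : ℝ) : ℂ) ^ (-s)) = nf s x := by
  have hN : D.N x = emb (Algebra.norm F (x : K)) := norm_eq hE _
  have hpos : 0 < ‖D.N x‖ := by
    unfold Ctx.N
    rw [norm_prod]
    refine Finset.prod_pos fun i _ => ?_
    have := u3_pos D x hx i
    exact lt_of_le_of_ne (norm_nonneg _) fun h => by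
      rw [← h] at this
      norm_num at this
  have h1 : (∏ i, ‖D.σ i x‖ ^ 2 : ℝ) = ‖D.N x‖ * ‖D.N x‖ := by
    rw [Finset.prod_pow]
    unfold Ctx.N
    rw [norm_prod, sq]
  unfold nf H55B.g
  rw [← hN, h1, Complex.ofReal_mul, Complex.mul_cpow_ofReal_nonneg hpos.le hpos.le,
    ← Complex.cpow_add _ _ (by exact_mod_cast hpos.ne')]
  congr 2
  ring

theorem u3_integral (D : Ctx K m) (hE : Emb D.σ) (u : Fin m → (𝓞 K)ˣ) (hu : D.UOk u) (s : ℂ)
    (hs : 0 < s.re) (x : 𝓞 K) (hx : x ≠ 0) :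
    ∫ z : Fin m → ℝ, D.fs (tt (D.lm u) z) s x = nf s x * cst (D.lm u) s := by
  have h := shift_eq (D.lm u) (lm_sum D u hu) hu.reg s hs (fun i => ‖D.σ i x‖ ^ 2)
    (u3_pos D x hx)
  have h2 : ∫ z : Fin m → ℝ, D.fs (tt (D.lm u) z) s x =
      (starRingEnd ℂ) (D.N x) * ∫ z : Fin m → ℝ,
        ((∑ i, tt (D.lm u) z i * ‖D.σ i x‖ ^ 2 : ℝ) : ℂ) ^ (-((m + 1 : ℕ) * s)) := by
    rw [← integral_const_mul]
    rfl
  rw [h2, h, ← mul_assoc, u3_nf D hE s x hx]

theorem u3_mem (D : Ctx K m) (u : Fin m → (𝓞 K)ˣ) (hu : D.UOk u) (a : Fin m → ℤ) (x : 𝓞 K)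
    (hx : x ∈ D.X) : (uu u a : 𝓞 K) * x ∈ D.X := by
  obtain ⟨h1, -, -⟩ := uu_act D u hu a
  rw [D.mem_X] at hx ⊢
  have : (uu u a : 𝓞 K) * x - D.c₀ = (uu u a : 𝓞 K) * (x - D.c₀) +
      ((uu u a : 𝓞 K) - 1) * D.c₀ := by ring
  rw [this]
  exact D.I.add_mem (D.I.mul_mem_left _ hx) h1

/-- The bijection. -/
noncomputable def u3E (D : Ctx K m) (u : Fin m → (𝓞 K)ˣ) (hu : D.UOk u) (T : Set (𝓞 K))
    (hT : T ⊆ D.X)
    (hbij : ∀ x ∈ D.X, ∃! q : (Fin m → ℤ) × T, x = (uu u q.1 : 𝓞 K) * q.2) :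
    T × (Fin m → ℤ) ≃ D.X :=
  Equiv.ofBijective (fun q => ⟨(uu u q.2 : 𝓞 K) * q.1, u3_mem D u hu q.2 q.1 (hT q.1.2)⟩) (by
    constructor
    · rintro ⟨x, a⟩ ⟨y, b⟩ h
      have h1 : (uu u a : 𝓞 K) * x = (uu u b : 𝓞 K) * y := congrArg Subtype.val h
      obtain ⟨q, hq, hq'⟩ := hbij _ (u3_mem D u hu a x (hT x.2))
      have e1 := hq' (a, x) rfl
      have e2 := hq' (b, y) h1
      have e3 := e1.trans e2.symm
      rw [Prod.mk.injEq] at e3
      rw [Prod.mk.injEq]
      exact ⟨e3.2, e3.1⟩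
    · rintro ⟨x, hx⟩
      obtain ⟨q, hq, -⟩ := hbij x hx
      exact ⟨(q.2, q.1), Subtype.ext hq.symm⟩)

theorem u3_vol {m : ℕ} : volume.real (Set.Icc (0 : Fin m → ℝ) 1) = 1 := by
  rw [Measure.real, Real.volume_Icc_pi]
  simp

theorem u3_tt {m : ℕ} (lm : Fin (m + 1) → Fin m → ℝ) : ∃ a : ℝ, 0 < a ∧
    ∀ z ∈ Set.Icc (0 : Fin m → ℝ) 1, ∀ i, a ≤ tt lm z i := by
  obtain ⟨i0, h0⟩ := Finite.exists_max fun i : Fin (m + 1) => ∑ j, |lm i j|
  refine ⟨Real.exp (-∑ j, |lm i0 j|), Real.exp_pos _, fun z hz i => ?_⟩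
  unfold tt
  apply Real.exp_le_exp.2
  have h1 : -∑ j, |lm i j| ≤ ∑ j, z j * lm i j := by
    rw [← Finset.sum_neg_distrib]
    refine Finset.sum_le_sum fun j _ => ?_
    have hz0 : 0 ≤ z j := hz.1 j
    have hz1 : z j ≤ 1 := hz.2 j
    have h2 : |z j * lm i j| ≤ |lm i j| := by
      rw [abs_mul, abs_of_nonneg hz0]
      exact mul_le_of_le_one_left (abs_nonneg _) hz1
    have := (abs_le.1 h2).1
    exact this
  have h3 : ∑ j, |lm i j| ≤ ∑ j, |lm i0 j| := h0 i
  linarith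

theorem unfold (D : Ctx K m) (hE : Emb D.σ) (h0 : D.c₀ ∉ D.I) (u : Fin m → (𝓞 K)ˣ) (hu : D.UOk u)
    (g : 𝓞 K → ℂ) (hgb : ∃ C : ℝ, ∀ x, ‖g x‖ ≤ C)
    (hgu : ∀ x ∈ D.X, ∀ z, g ((uu u z : 𝓞 K) * x) = g x) (T : Set (𝓞 K)) (hT : T ⊆ D.X)
    (hbij : ∀ x ∈ D.X, ∃! q : (Fin m → ℤ) × T, x = (uu u q.1 : 𝓞 K) * q.2) (s : ℂ)
    (hs : 3 / 2 < s.re) :
    (Summable fun x : T => ‖g x * nf s (x : 𝓞 K)‖) ∧
    (∑' x : T, g x * nf s (x : 𝓞 K)) * cst (D.lm u) s =
      ∫ z in Set.Icc (0 : Fin m → ℝ) 1, ∑' x : D.X, g x * D.fs (tt (D.lm u) z) s x := by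
  have hs0 : 0 < s.re := by linarith
  have := u3_countable K
  obtain ⟨C, hC⟩ := hgb
  have hC0 : 0 ≤ C := (norm_nonneg _).trans (hC 0)
  obtain ⟨a, ha, hat⟩ := u3_tt (D.lm u)
  obtain ⟨c, hc, hQ⟩ := Q_low D hE a ha
  have hint : ∀ x : 𝓞 K, x ≠ 0 →
      Integrable fun z : Fin m → ℝ => g x * D.fs (tt (D.lm u) z) s x := fun x hx =>
    (u3_integrable D u hu s hs0 x hx).const_mul (g x)
  -- the bound on the cube
  have hbd : ∀ x : D.X, ∫ z in Set.Icc (0 : Fin m → ℝ) 1, ‖g x * D.fs (tt (D.lm u) z) s x‖ ≤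
      (C * c ^ (-((m + 1 : ℕ) * s.re))) * D.sz (x : 𝓞 K) ^ (-((2 * s.re - 1) * (m + 1 : ℝ))) := by
    intro x
    have hx := D.X_ne h0 x.2
    have h1 : ∫ z in Set.Icc (0 : Fin m → ℝ) 1, ‖g x * D.fs (tt (D.lm u) z) s x‖ ≤
        ∫ z in Set.Icc (0 : Fin m → ℝ) 1, (C * c ^ (-((m + 1 : ℕ) * s.re))) *
          D.sz (x : 𝓞 K) ^ (-((2 * s.re - 1) * (m + 1 : ℝ))) := by
      refine setIntegral_mono_on (hint x hx).norm.integrableOn ?_ measurableSet_Icc ?_
      · exact integrableOn_const (by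
          rw [Real.volume_Icc_pi]
          simp)
      · intro z hz
        rw [norm_mul, mul_assoc]
        refine mul_le_mul (hC x) ?_ (norm_nonneg _) hC0
        exact u3_fs_le D _ s hs0 c hc x (hQ _ (hat z hz) x hx)
    refine h1.trans (le_of_eq ?_)
    rw [setIntegral_const, u3_vol, one_smul]
  have hsum1 : Summable fun x : D.X =>
      ∫ z in Set.Icc (0 : Fin m → ℝ) 1, ‖g x * D.fs (tt (D.lm u) z) s x‖ :=
    Summable.of_nonneg_of_le (fun x => integral_nonneg fun z => norm_nonneg _) hbd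
      ((u3_sum D hE s hs).mul_left _)
  have hs1 := hasSum_integral_of_summable_integral_norm
    (μ := volume.restrict (Set.Icc (0 : Fin m → ℝ) 1))
    (F := fun (x : D.X) (z : Fin m → ℝ) => g x * D.fs (tt (D.lm u) z) s x)
    (fun x => (hint x (D.X_ne h0 x.2)).integrableOn) hsum1
  have hs2 := (u3E D u hu T hT hbij).hasSum_iff.2 hs1
  have hs3 : HasSum (fun x : T => ∫ z : Fin m → ℝ, g x * D.fs (tt (D.lm u) z) s x)
      (∫ z in Set.Icc (0 : Fin m → ℝ) 1, ∑' x : D.X, g x * D.fs (tt (D.lm u) z) s x) := by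
    refine hs2.prod_fiberwise fun x => ?_
    have hx := D.X_ne h0 (hT x.2)
    have h1 := tiling (fun z => g x * D.fs (tt (D.lm u) z) s x) (hint x hx)
    have h2 : (fun b : Fin m → ℤ => ((fun x : D.X => ∫ z in Set.Icc (0 : Fin m → ℝ) 1,
        g x * D.fs (tt (D.lm u) z) s x) ∘ (u3E D u hu T hT hbij)) (x, b)) =
        fun b : Fin m → ℤ => ∫ z in Set.Icc (0 : Fin m → ℝ) 1,
          (fun z => g x * D.fs (tt (D.lm u) z) s x) (fun k => z k + b k) := by
      funext b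
      show ∫ z in Set.Icc (0 : Fin m → ℝ) 1, g ((uu u b : 𝓞 K) * x) *
        D.fs (tt (D.lm u) z) s ((uu u b : 𝓞 K) * x) = _
      refine integral_congr_ae (Filter.Eventually.of_forall fun z => ?_)
      show g ((uu u b : 𝓞 K) * x) * D.fs (tt (D.lm u) z) s ((uu u b : 𝓞 K) * x) =
        g x * D.fs (tt (D.lm u) fun k => z k + b k) s x
      rw [hgu x (hT x.2) b, u3_trans D u hu]
    rw [h2]
    exact h1
  have hcst : cst (D.lm u) s ≠ 0 := by
    intro h
    have h1 := cst_eq (D.lm u) (lm_sum D u hu) hu.reg s hs0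
    rw [h, mul_zero, zero_mul] at h1
    exact pow_ne_zero (m + 1) (Complex.Gamma_ne_zero_of_re_pos hs0) h1.symm
  have hs4 : HasSum (fun x : T => (g x * nf s (x : 𝓞 K)) * cst (D.lm u) s)
      (∫ z in Set.Icc (0 : Fin m → ℝ) 1, ∑' x : D.X, g x * D.fs (tt (D.lm u) z) s x) := by
    have h1 : (fun x : T => (g x * nf s (x : 𝓞 K)) * cst (D.lm u) s) =
        fun x : T => ∫ z : Fin m → ℝ, g x * D.fs (tt (D.lm u) z) s x := by
      funext x
      rw [integral_const_mul, u3_integral D hE u hu s hs0 x (D.X_ne h0 (hT x.2)), mul_assoc]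
    rw [h1]
    exact hs3
  refine ⟨((summable_mul_right_iff hcst).1 hs4.summable).norm, ?_⟩
  rw [← tsum_mul_right]
  exact hs4.tsum_eq

end H55N
end
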