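import Mathlib
import Pool.Agent.Lib.H1M.PP2.D_H55K_QD
import Pool.Agent.Lib.H1M.PP2.D_H55P_Stm
import Pool.Agent.Lib.H1M.PP2.M010
import Pool.Agent.Lib.H1M.PP2.M020
import Pool.Agent.Lib.H1M.PP2.M022
import Pool.Agent.Lib.H1M.PP2.M040
import Pool.Agent.Lib.H1M.PP2.M046
import Pool.Agent.Lib.H1M.PP2.M048
import Pool.Agent.Lib.H1M.PP2.M049
import Pool.Agent.Lib.H1M.PP2.M050
import Pool.Agent.Lib.H1M.PP2.M054

/-! Merged copies (to shorten the build) of Lib.H55K.M1A, Lib.H55K.M1B, Lib.H55K.M3A, Lib.H55K.M3B, Lib.H55K.M2C, Lib.H55K.QC1A, Lib.H55K.M4B, Lib.H55K.T0, Lib.H55N.H9, Lib.H55P.T4, Lib.H55P.T5, Lib.H55P.T2, Lib.H55P.T6, Lib.H55K.QD_T, Lib.H55P.T3, Lib.H55P.R2, Lib.H55P.R7, Lib.H55P.R8, Lib.H55P.CN. -/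

-- from Lib.H55K.M1A
section

open NumberField WeierstrassCurve

namespace H55K.MG

open H35P (WAB Ker GoodW IntW)

variable {k : Type} [Field k] {W W' : WeierstrassCurve k} {u r s t : k}

/-! Chunk M1A (M, several polynomial identities). Port of PS4_eq, PS4_negY, PS4_cond, PS4_slope, PS4_addX, PS4_addY in Lib/H55P/S4.lean to a general change of variables. vc_eq: Affine.equation_iff; the equation of W at
(u^2 x + r, u^3 y + s u^2 x + t) is u^6 times the equation of W' (linear_combination with h.h1 .. h.h6, cancel u^6). vc_slope: x1 = x2: slope_of_Y_ne, the numerator of W is u^4 (numerator of W') + s u^3 (denominator of W'), the denominator is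
u^3 times that of W' (vc_negY; it is not 0); x1 <> x2: slope_of_X_ne. -/

theorem vc_eq (h : VC W W' u r s t) (x y : k) : W'.toAffine.Equation x y ↔
    W.toAffine.Equation (u ^ 2 * x + r) (u ^ 3 * y + s * u ^ 2 * x + t) := by
  have h1 : u * W'.toAffine.a₁ = W.toAffine.a₁ + 2 * s := h.h1
  have h2 : u ^ 2 * W'.toAffine.a₂ = W.toAffine.a₂ - s * W.toAffine.a₁ + 3 * r - s ^ 2 := h.h2
  have h3 : u ^ 3 * W'.toAffine.a₃ = W.toAffine.a₃ + r * W.toAffine.a₁ + 2 * t := h.h3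
  have h4 : u ^ 4 * W'.toAffine.a₄ = W.toAffine.a₄ - s * W.toAffine.a₃ + 2 * r * W.toAffine.a₂ -
    (t + r * s) * W.toAffine.a₁ + 3 * r ^ 2 - 2 * s * t := h.h4
  have h6 : u ^ 6 * W'.toAffine.a₆ = W.toAffine.a₆ + r * W.toAffine.a₄ + r ^ 2 * W.toAffine.a₂ + r ^ 3 -
    t * W.toAffine.a₃ - t ^ 2 - r * t * W.toAffine.a₁ := h.h6

  rw [Affine.equation_iff', Affine.equation_iff']
  have key : (u ^ 3 * y + s * u ^ 2 * x + t) ^ 2 + W.toAffine.a₁ * (u ^ 2 * x + r) * (u ^ 3 * y + s * u ^ 2 * x + t) +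
      W.toAffine.a₃ * (u ^ 3 * y + s * u ^ 2 * x + t) - ((u ^ 2 * x + r) ^ 3 + W.toAffine.a₂ * (u ^ 2 * x + r) ^ 2 +
      W.toAffine.a₄ * (u ^ 2 * x + r) + W.toAffine.a₆) = u ^ 6 * (y ^ 2 + W'.toAffine.a₁ * x * y +
      W'.toAffine.a₃ * y - (x ^ 3 + W'.toAffine.a₂ * x ^ 2 + W'.toAffine.a₄ * x + W'.toAffine.a₆)) := by
    linear_combination (-(u ^ 5 * x * y)) * h1 + u ^ 4 * x ^ 2 * h2 - u ^ 3 * y * h3 + u ^ 2 * x * h4 + h6
  rw [key]
  constructor
  · intro e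
    rw [e, mul_zero]
  · intro e
    exact (mul_eq_zero.1 e).resolve_left (pow_ne_zero 6 h.une)

theorem vc_negY (h : VC W W' u r s t) (x y : k) :
    W.toAffine.negY (u ^ 2 * x + r) (u ^ 3 * y + s * u ^ 2 * x + t) =
      u ^ 3 * W'.toAffine.negY x y + s * u ^ 2 * x + t := by
  have h1 : u * W'.toAffine.a₁ = W.toAffine.a₁ + 2 * s := h.h1
  have h2 : u ^ 2 * W'.toAffine.a₂ = W.toAffine.a₂ - s * W.toAffine.a₁ + 3 * r - s ^ 2 := h.h2
  have h3 : u ^ 3 * W'.toAffine.a₃ = W.toAffine.a₃ + r * W.toAffine.a₁ + 2 * t := h.h3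
  have h4 : u ^ 4 * W'.toAffine.a₄ = W.toAffine.a₄ - s * W.toAffine.a₃ + 2 * r * W.toAffine.a₂ -
    (t + r * s) * W.toAffine.a₁ + 3 * r ^ 2 - 2 * s * t := h.h4
  have h6 : u ^ 6 * W'.toAffine.a₆ = W.toAffine.a₆ + r * W.toAffine.a₄ + r ^ 2 * W.toAffine.a₂ + r ^ 3 -
    t * W.toAffine.a₃ - t ^ 2 - r * t * W.toAffine.a₁ := h.h6

  rw [Affine.negY, Affine.negY]
  linear_combination u ^ 2 * x * h1 + h3

theorem vc_cond (h : VC W W' u r s t) (x₁ y₁ x₂ y₂ : k) :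
    (u ^ 2 * x₁ + r = u ^ 2 * x₂ + r ∧ u ^ 3 * y₁ + s * u ^ 2 * x₁ + t =
      W.toAffine.negY (u ^ 2 * x₂ + r) (u ^ 3 * y₂ + s * u ^ 2 * x₂ + t)) ↔
      (x₁ = x₂ ∧ y₁ = W'.toAffine.negY x₂ y₂) := by
  rw [vc_negY h]
  have hu2 : u ^ 2 ≠ 0 := pow_ne_zero 2 h.une
  have hu3 : u ^ 3 ≠ 0 := pow_ne_zero 3 h.une
  constructor
  · rintro ⟨e1, e2⟩
    have e3 : x₁ = x₂ := mul_left_cancel₀ hu2 (by linear_combination e1)
    refine ⟨e3, ?_⟩
    rw [e3] at e2
    exact mul_left_cancel₀ hu3 (by linear_combination e2)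
  · rintro ⟨e1, e2⟩
    rw [e1, e2]
    exact ⟨rfl, rfl⟩

theorem vc_slope [DecidableEq k] (h : VC W W' u r s t) {x₁ y₁ x₂ y₂ : k}
    (E₁ : W'.toAffine.Equation x₁ y₁) (E₂ : W'.toAffine.Equation x₂ y₂)
    (hxy : ¬(x₁ = x₂ ∧ y₁ = W'.toAffine.negY x₂ y₂)) :
    W.toAffine.slope (u ^ 2 * x₁ + r) (u ^ 2 * x₂ + r) (u ^ 3 * y₁ + s * u ^ 2 * x₁ + t)
      (u ^ 3 * y₂ + s * u ^ 2 * x₂ + t) = u * W'.toAffine.slope x₁ x₂ y₁ y₂ + s := by
  have h1 : u * W'.toAffine.a₁ = W.toAffine.a₁ + 2 * s := h.h1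
  have h2 : u ^ 2 * W'.toAffine.a₂ = W.toAffine.a₂ - s * W.toAffine.a₁ + 3 * r - s ^ 2 := h.h2
  have h3 : u ^ 3 * W'.toAffine.a₃ = W.toAffine.a₃ + r * W.toAffine.a₁ + 2 * t := h.h3
  have h4 : u ^ 4 * W'.toAffine.a₄ = W.toAffine.a₄ - s * W.toAffine.a₃ + 2 * r * W.toAffine.a₂ -
    (t + r * s) * W.toAffine.a₁ + 3 * r ^ 2 - 2 * s * t := h.h4
  have h6 : u ^ 6 * W'.toAffine.a₆ = W.toAffine.a₆ + r * W.toAffine.a₄ + r ^ 2 * W.toAffine.a₂ + r ^ 3 -
    t * W.toAffine.a₃ - t ^ 2 - r * t * W.toAffine.a₁ := h.h6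

  have hu2 : u ^ 2 ≠ 0 := pow_ne_zero 2 h.une
  have hu3 : u ^ 3 ≠ 0 := pow_ne_zero 3 h.une
  by_cases hx : x₁ = x₂
  · have hy : y₁ ≠ W'.toAffine.negY x₂ y₂ := fun e => hxy ⟨hx, e⟩
    have hy' : u ^ 3 * y₁ + s * u ^ 2 * x₁ + t ≠ W.toAffine.negY (u ^ 2 * x₂ + r) (u ^ 3 * y₂ + s * u ^ 2 * x₂ + t) :=
      fun e => hxy ((vc_cond h x₁ y₁ x₂ y₂).1 ⟨by rw [hx], e⟩)
    have hyy : y₁ = y₂ := Affine.Y_eq_of_Y_ne E₁ E₂ hx hy
    rw [Affine.slope_of_Y_ne (by rw [hx]) hy', Affine.slope_of_Y_ne hx hy, vc_negY h]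
    have hne : y₁ - W'.toAffine.negY x₁ y₁ ≠ 0 := by
      rw [sub_ne_zero]
      rw [← hx, ← hyy] at hy
      exact hy
    have e5 : u ^ 3 * y₁ + s * u ^ 2 * x₁ + t - (u ^ 3 * W'.toAffine.negY x₁ y₁ + s * u ^ 2 * x₁ + t) =
        u ^ 3 * (y₁ - W'.toAffine.negY x₁ y₁) := by
      ring
    rw [e5, mul_div_assoc', div_add' _ _ _ hne, div_eq_div_iff (mul_ne_zero hu3 hne) hne]
    have e6 : 3 * (u ^ 2 * x₁ + r) ^ 2 + 2 * W.toAffine.a₂ * (u ^ 2 * x₁ + r) + W.toAffine.a₄ -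
        W.toAffine.a₁ * (u ^ 3 * y₁ + s * u ^ 2 * x₁ + t) =
        u ^ 4 * (3 * x₁ ^ 2 + 2 * W'.toAffine.a₂ * x₁ + W'.toAffine.a₄ - W'.toAffine.a₁ * y₁) +
        s * u ^ 3 * (y₁ - W'.toAffine.negY x₁ y₁) := by
      rw [Affine.negY]
      linear_combination (u ^ 3 * y₁ - s * u ^ 2 * x₁) * h1 - 2 * u ^ 2 * x₁ * h2 - s * h3 - h4
    rw [e6]
    ring
  · have hx' : u ^ 2 * x₁ + r ≠ u ^ 2 * x₂ + r := fun e => hx (mul_left_cancel₀ hu2 (by linear_combination e))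
    have h0 : x₁ - x₂ ≠ 0 := sub_ne_zero.2 hx
    have h0' : u ^ 2 * x₁ + r - (u ^ 2 * x₂ + r) ≠ 0 := sub_ne_zero.2 hx'
    rw [Affine.slope_of_X_ne hx', Affine.slope_of_X_ne hx, mul_div_assoc', div_add' _ _ _ h0, div_eq_div_iff h0' h0]
    ring

theorem vc_addX (h : VC W W' u r s t) (x₁ x₂ l : k) :
    W.toAffine.addX (u ^ 2 * x₁ + r) (u ^ 2 * x₂ + r) (u * l + s) = u ^ 2 * W'.toAffine.addX x₁ x₂ l + r := by
  have h1 : u * W'.toAffine.a₁ = W.toAffine.a₁ + 2 * s := h.h1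
  have h2 : u ^ 2 * W'.toAffine.a₂ = W.toAffine.a₂ - s * W.toAffine.a₁ + 3 * r - s ^ 2 := h.h2
  have h3 : u ^ 3 * W'.toAffine.a₃ = W.toAffine.a₃ + r * W.toAffine.a₁ + 2 * t := h.h3
  have h4 : u ^ 4 * W'.toAffine.a₄ = W.toAffine.a₄ - s * W.toAffine.a₃ + 2 * r * W.toAffine.a₂ -
    (t + r * s) * W.toAffine.a₁ + 3 * r ^ 2 - 2 * s * t := h.h4
  have h6 : u ^ 6 * W'.toAffine.a₆ = W.toAffine.a₆ + r * W.toAffine.a₄ + r ^ 2 * W.toAffine.a₂ + r ^ 3 -
    t * W.toAffine.a₃ - t ^ 2 - r * t * W.toAffine.a₁ := h.h6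

  rw [Affine.addX, Affine.addX]
  linear_combination (-(u * l)) * h1 + h2

theorem vc_addY (h : VC W W' u r s t) (x₁ x₂ y₁ l : k) :
    W.toAffine.addY (u ^ 2 * x₁ + r) (u ^ 2 * x₂ + r) (u ^ 3 * y₁ + s * u ^ 2 * x₁ + t) (u * l + s) =
      u ^ 3 * W'.toAffine.addY x₁ x₂ y₁ l + s * u ^ 2 * W'.toAffine.addX x₁ x₂ l + t := by
  rw [Affine.addY, Affine.addY, ← vc_negY h, Affine.negAddY, Affine.negAddY, vc_addX h]
  congr 1
  ring

end H55K.MG
end

-- from Lib.H55K.M1B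
section

open NumberField WeierstrassCurve

namespace H55K.MG

open H35P (WAB Ker GoodW IntW)

variable {k : Type} [Field k] {W W' : WeierstrassCurve k} {u r s t : k}

/-! Chunk M1B (M). Port of PS4_ns .. PS4_iso in Lib/H55P/S4.lean. All points of W, W' are nonsingular (Affine.equation_iff_nonsingular_of_Δ_ne_zero as in Lib/H35P/B1.lean). Map f : W' points -> W points, some x y to
some (u^2 x + r) (u^3 y + s u^2 x + t) (vc_eq), additive by vc_cond, vc_slope, vc_addX, vc_addY (cases), injective, surjective (x' = (x - r)/u^2, y' = (y - s (x - r) - t)/u^3). Θ is the inverse of f. -/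

theorem m1b_ns (h : VC W W' u r s t) (h1 : W.Δ ≠ 0) (h2 : W'.Δ ≠ 0) (x y : k) :
    W'.toAffine.Nonsingular x y ↔ W.toAffine.Nonsingular (u ^ 2 * x + r) (u ^ 3 * y + s * u ^ 2 * x + t) := by
  rw [← Affine.equation_iff_nonsingular_of_Δ_ne_zero h2, ← Affine.equation_iff_nonsingular_of_Δ_ne_zero h1]
  exact vc_eq h x y

/-- The map on points. -/
noncomputable def m1b_f (h : VC W W' u r s t) (h1 : W.Δ ≠ 0) (h2 : W'.Δ ≠ 0) :
    W'.toAffine.Point → W.toAffine.Point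
  | 0 => 0
  | .some x y hxy => .some (u ^ 2 * x + r) (u ^ 3 * y + s * u ^ 2 * x + t) ((m1b_ns h h1 h2 x y).1 hxy)

theorem m1b_f_add [DecidableEq k] (h : VC W W' u r s t) (h1 : W.Δ ≠ 0) (h2 : W'.Δ ≠ 0)
    (P Q : W'.toAffine.Point) : m1b_f h h1 h2 (P + Q) = m1b_f h h1 h2 P + m1b_f h h1 h2 Q := by
  rcases P with _ | ⟨x₁, y₁, g₁⟩
  · change m1b_f h h1 h2 (0 + Q) = 0 + m1b_f h h1 h2 Q
    rw [zero_add, zero_add]
  rcases Q with _ | ⟨x₂, y₂, g₂⟩
  · change m1b_f h h1 h2 (_ + 0) = _ + 0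
    rw [add_zero, add_zero]
  by_cases hxy : x₁ = x₂ ∧ y₁ = W'.toAffine.negY x₂ y₂
  · rw [Affine.Point.add_of_Y_eq hxy.1 hxy.2]
    have h3 := (vc_cond h x₁ y₁ x₂ y₂).2 hxy
    exact (Affine.Point.add_of_Y_eq (h₁ := (m1b_ns h h1 h2 x₁ y₁).1 g₁) (h₂ := (m1b_ns h h1 h2 x₂ y₂).1 g₂)
      h3.1 h3.2).symm
  · have hxy' : ¬(u ^ 2 * x₁ + r = u ^ 2 * x₂ + r ∧ u ^ 3 * y₁ + s * u ^ 2 * x₁ + t =
      W.toAffine.negY (u ^ 2 * x₂ + r) (u ^ 3 * y₂ + s * u ^ 2 * x₂ + t)) :=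
      fun h3 => hxy ((vc_cond h x₁ y₁ x₂ y₂).1 h3)
    have e1 := Affine.Point.add_some hxy' (h₁ := (m1b_ns h h1 h2 x₁ y₁).1 g₁)
      (h₂ := (m1b_ns h h1 h2 x₂ y₂).1 g₂)
    rw [Affine.Point.add_some hxy]
    refine Eq.trans ?_ e1.symm
    change Affine.Point.some _ _ _ = Affine.Point.some _ _ _
    rw [Affine.Point.some.injEq]
    rw [vc_slope h g₁.1 g₂.1 hxy, vc_addX h, vc_addY h]
    exact ⟨rfl, rfl⟩

theorem m1b_f_inj (h : VC W W' u r s t) (h1 : W.Δ ≠ 0) (h2 : W'.Δ ≠ 0) :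
    Function.Injective (m1b_f h h1 h2) := by
  intro P Q hPQ
  rcases P with _ | ⟨x₁, y₁, g₁⟩
  · rcases Q with _ | ⟨x₂, y₂, g₂⟩
    · rfl
    · exact absurd hPQ (Affine.Point.some_ne_zero _).symm
  · rcases Q with _ | ⟨x₂, y₂, g₂⟩
    · exact absurd hPQ (Affine.Point.some_ne_zero _)
    · have h3 := Affine.Point.some.inj hPQ
      have hx : x₁ = x₂ := by
        have h4 : u ^ 2 * x₁ = u ^ 2 * x₂ := by linear_combination h3.1
        exact mul_left_cancel₀ (pow_ne_zero 2 h.une) h4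
      have hy : y₁ = y₂ := by
        have h4 : u ^ 3 * y₁ = u ^ 3 * y₂ := by linear_combination h3.2 - s * u ^ 2 * hx
        exact mul_left_cancel₀ (pow_ne_zero 3 h.une) h4
      subst hx hy
      rfl

theorem m1b_f_surj (h : VC W W' u r s t) (h1 : W.Δ ≠ 0) (h2 : W'.Δ ≠ 0) :
    Function.Surjective (m1b_f h h1 h2) := by
  intro P
  rcases P with _ | ⟨x, y, g⟩
  · exact ⟨0, rfl⟩
  · have hu := h.une
    have e1 : u ^ 2 * ((x - r) / u ^ 2) + r = x := by
      field_simp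
      ring
    have e2 : u ^ 3 * ((y - s * (x - r) - t) / u ^ 3) + s * u ^ 2 * ((x - r) / u ^ 2) + t = y := by
      field_simp
      ring
    have h' : W'.toAffine.Nonsingular ((x - r) / u ^ 2) ((y - s * (x - r) - t) / u ^ 3) := by
      rw [m1b_ns h h1 h2, e1, e2]
      exact g
    refine ⟨.some ((x - r) / u ^ 2) ((y - s * (x - r) - t) / u ^ 3) h', ?_⟩
    change Affine.Point.some _ _ _ = Affine.Point.some _ _ _
    rw [Affine.Point.some.injEq]
    exact ⟨e1, e2⟩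

theorem vc_iso [DecidableEq k] (h : VC W W' u r s t) (h1 : W.Δ ≠ 0) (h2 : W'.Δ ≠ 0) :
    ∃ Θ : W.toAffine.Point ≃+ W'.toAffine.Point, Crd u r s t Θ := by
  obtain ⟨f, hf⟩ : ∃ f : W'.toAffine.Point ≃+ W.toAffine.Point, ∀ P, f P = m1b_f h h1 h2 P :=
    ⟨AddEquiv.ofBijective (AddMonoidHom.mk' (m1b_f h h1 h2) (m1b_f_add h h1 h2))
      ⟨m1b_f_inj h h1 h2, m1b_f_surj h h1 h2⟩, fun P => rfl⟩
  refine ⟨f.symm, fun P hP => ?_⟩
  obtain ⟨Q, rfl⟩ := f.surjective P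
  rw [f.symm_apply_apply]
  rcases Q with _ | ⟨x, y, g⟩
  · exact absurd (map_zero f) hP
  · refine ⟨Affine.Point.some_ne_zero _, ?_, ?_⟩
    · rw [hf]
      rfl
    · rw [hf]
      rfl

end H55K.MG
end

-- from Lib.H55K.M3A
section

open NumberField WeierstrassCurve

namespace H55K.MG

open H35P (WAB Ker GoodW IntW)

variable {k : Type} [Field k] [DecidableEq k] {W : WeierstrassCurve k} {V : ValuationSubring k}

/-! Chunk M3A (S/M). int_crd: cases on P; x in V, H35P.int_y for y. ker_crd: definition of Ker. cong_ker: Cong of the two points, H35P.rd. unit_diff: V(x - x') ≤ 1; if < 1, subtract the two equations: (y - y')(y + y' + a1 x + a3) =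
(x - x') (..integral..) has value < 1, so V(y - y') < 1 (then Ker (P - Q) by cong_ker) or V(y - negY x' y') < 1: y + y' + a1 x' + a3 = (y + y' + a1 x + a3) - a1 (x - x') (then Ker (P + Q) = Ker (P - (-Q)) by cong_ker, coordinates of
-Q = (x', negY x' y')). ker_sub', ker_zero: H35P.ker_add, ker_neg. -/

theorem int_crd (h : GoodW W V) {P : W.toAffine.Point} (hP : ¬ Ker V P) : P ≠ 0 ∧ xc P ∈ V ∧ yc P ∈ V := by
  rcases P with _ | ⟨x, y, hn⟩
  · exact absurd trivial hP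
  · have hx : V.valuation x ≤ 1 := not_lt.1 hP
    refine ⟨Affine.Point.some_ne_zero _, (V.valuation_le_one_iff _).1 hx, ?_⟩
    exact (V.valuation_le_one_iff _).1 (H35P.int_y h.toIntW hn.1 hx)

theorem ker_crd {P : W.toAffine.Point} (h0 : P ≠ 0) : Ker V P ↔ 1 < V.valuation (xc P) := by
  rcases P with _ | ⟨x, y, hn⟩
  · exact absurd rfl h0
  · exact Iff.rfl

theorem cong_ker (h : GoodW W V) {P Q : W.toAffine.Point} (hP : ¬ Ker V P) (hQ : ¬ Ker V Q)
    (hx : V.valuation (xc P - xc Q) < 1) (hy : V.valuation (yc P - yc Q) < 1) : Ker V (P - Q) := by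
  obtain ⟨hP0, hPx, hPy⟩ := int_crd h hP
  obtain ⟨hQ0, hQx, hQy⟩ := int_crd h hQ
  rcases P with _ | ⟨x, y, hn⟩
  · exact absurd rfl hP0
  rcases Q with _ | ⟨x', y', hn'⟩
  · exact absurd rfl hQ0
  exact H35P.rd h _ _ ⟨x, y, hn, x', y', hn', rfl, rfl, hPx, hPy, hQx, hQy, hx, hy⟩

theorem unit_diff (h : GoodW W V) {P Q : W.toAffine.Point} (hP : ¬ Ker V P) (hQ : ¬ Ker V Q)
    (h1 : ¬ Ker V (P - Q)) (h2 : ¬ Ker V (P + Q)) : V.valuation (xc P - xc Q) = 1 := by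
  have hQn : ¬ Ker V (-Q) := fun hk => hQ ((H35P.ker_neg Q).1 hk)
  obtain ⟨hP0, hPx, hPy⟩ := int_crd h hP
  obtain ⟨hQ0, hQx, hQy⟩ := int_crd h hQ
  have hxle : V.valuation (xc P - xc Q) ≤ 1 :=
    (V.valuation_le_one_iff _).2 (sub_mem hPx hQx)
  refine le_antisymm hxle (not_lt.1 fun hlt => ?_)
  have hc1 := fun hy => h1 (cong_ker h hP hQ hlt hy)
  have hxn : V.valuation (xc P - xc (-Q)) < 1 ∧ yc (-Q) = -yc Q - W.a₁ * xc Q - W.a₃ := by
    rcases Q with _ | ⟨x', y', hn'⟩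
    · exact absurd rfl hQ0
    · exact ⟨hlt, rfl⟩
  have hc2 : ¬ V.valuation (yc P - yc (-Q)) < 1 := by
    intro hy
    apply h2
    have h3 := cong_ker h hP hQn hxn.1 hy
    rwa [sub_neg_eq_add] at h3
  have hPe : yc P ^ 2 + W.a₁ * xc P * yc P + W.a₃ * yc P =
      xc P ^ 3 + W.a₂ * xc P ^ 2 + W.a₄ * xc P + W.a₆ := by
    rcases P with _ | ⟨x, y, hn⟩
    · exact absurd rfl hP0
    · exact (Affine.equation_iff _ _).1 hn.1
  have hQe : yc Q ^ 2 + W.a₁ * xc Q * yc Q + W.a₃ * yc Q =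
      xc Q ^ 3 + W.a₂ * xc Q ^ 2 + W.a₄ * xc Q + W.a₆ := by
    rcases Q with _ | ⟨x, y, hn⟩
    · exact absurd rfl hQ0
    · exact (Affine.equation_iff _ _).1 hn.1
  have hkey : (yc P - yc Q) * (yc P - yc (-Q)) = (xc P ^ 2 + xc P * xc Q + xc Q ^ 2 +
      W.a₂ * (xc P + xc Q) + W.a₄ - W.a₁ * yc P) * (xc P - xc Q) := by
    rw [hxn.2]
    linear_combination hPe - hQe
  have hin : xc P ^ 2 + xc P * xc Q + xc Q ^ 2 + W.a₂ * (xc P + xc Q) + W.a₄ - W.a₁ * yc P ∈ V :=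
    sub_mem (add_mem (add_mem (add_mem (add_mem (pow_mem hPx 2) (mul_mem hPx hQx)) (pow_mem hQx 2))
      (mul_mem h.a2 (add_mem hPx hQx))) h.a4) (mul_mem h.a1 hPy)
  have hv := congrArg V.valuation hkey
  rw [map_mul, map_mul] at hv
  have hlt2 : V.valuation (yc P - yc Q) * V.valuation (yc P - yc (-Q)) < 1 := by
    rw [hv]
    exact mul_lt_one_of_nonneg_of_lt_one_right ((V.valuation_le_one_iff _).2 hin) zero_le hlt
  have ha : 1 ≤ V.valuation (yc P - yc Q) := not_lt.1 hc1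
  have hb : 1 ≤ V.valuation (yc P - yc (-Q)) := not_lt.1 hc2
  exact absurd hlt2 (not_lt.2 (one_le_mul_of_one_le_of_one_le ha hb))

theorem unit_y (h : GoodW W V) (h1 : W.a₁ = 0) (h3 : W.a₃ = 0) {P : W.toAffine.Point} (hP : ¬ Ker V P)
    (h2 : ¬ Ker V (P + P)) : V.valuation (yc P) = 1 := by
  have hPn : ¬ Ker V (-P) := fun hk => hP ((H35P.ker_neg P).1 hk)
  obtain ⟨hP0, hPx, hPy⟩ := int_crd h hP
  refine le_antisymm ((V.valuation_le_one_iff _).2 hPy) (not_lt.1 fun hlt => ?_)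
  have hneg : xc (-P) = xc P ∧ yc (-P) = -yc P := by
    rcases P with _ | ⟨x, y, hn⟩
    · exact absurd rfl hP0
    · refine ⟨rfl, ?_⟩
      show W.toAffine.negY x y = -y
      rw [Affine.negY]
      simp only [h1, h3]
      ring
  apply h2
  have h4 := cong_ker h hP hPn (by
    rw [hneg.1, sub_self, map_zero]
    exact zero_lt_one) (by
    rw [hneg.2, sub_neg_eq_add, ← two_mul, map_mul]
    have h5 : V.valuation (2 : k) ≤ 1 := by
      rw [V.valuation_le_one_iff]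
      exact_mod_cast natCast_mem V 2
    exact mul_lt_one_of_nonneg_of_lt_one_right h5 zero_le hlt)
  rwa [sub_neg_eq_add] at h4

theorem yc_neg' (h1 : W.a₁ = 0) (h3 : W.a₃ = 0) {P : W.toAffine.Point} : xc (-P) = xc P ∧ yc (-P) = -yc P := by
  rcases P with _ | ⟨x, y, hn⟩
  · exact ⟨rfl, neg_zero.symm⟩
  · refine ⟨rfl, ?_⟩
    show W.toAffine.negY x y = -y
    rw [Affine.negY]
    simp only [h1, h3]
    ring

end H55K.MG
end

-- from Lib.H55K.M3B
section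

open NumberField WeierstrassCurve

namespace H55K.MG

open H55P (IQ Pt ac Inert)
open H35P (WAB Ker GoodW IntW)

variable {k : Type} [Field k] [DecidableEq k] {W W' : WeierstrassCurve k} {V : ValuationSubring k} {u r s t : k}
  {Θ : W.toAffine.Point ≃+ W'.toAffine.Point}

/-! Chunk M3B (S/M). kg_ex: Kg = the preimage of Ker V under Θ (H35P.ker_add, ker_neg; h.toIntW). kg_tors: H35P.fg for Θ T. kg_diff: xc P - xc Q = u^2 (xc (Θ P) - xc (Θ Q)) (hc; P, Q are not 0), unit_diff. kg_far: V(xc (Θ P) - xc (Θ Q)) =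
V(xc (Θ Q)) > 1 since V(xc (Θ P)) ≤ 1 (Valuation.map_sub_eq_of_lt_right or the like), the same for P'. -/

theorem kg_ex (h : GoodW W' V) (Θ : W.toAffine.Point ≃+ W'.toAffine.Point) :
    ∃ Kg : AddSubgroup W.toAffine.Point, ∀ P, P ∈ Kg ↔ Ker V (Θ P) := by
  refine ⟨{ carrier := {P | Ker V (Θ P)}, zero_mem' := ?_, add_mem' := ?_, neg_mem' := ?_ },
    fun P => Iff.rfl⟩
  · intro P Q hP hQ
    show Ker V (Θ (P + Q))
    rw [map_add]
    exact H35P.ker_add h.toIntW _ _ hP hQ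
  · show Ker V (Θ 0)
    rw [map_zero]
    trivial
  · intro P hP
    show Ker V (Θ (-P))
    rw [map_neg]
    exact (H35P.ker_neg _).2 hP

theorem kg_tors (h : GoodW W' V) {n : ℕ} (hn : V.valuation (n : k) = 1) {T : W.toAffine.Point} (hT : Ker V (Θ T))
    (h0 : n • T = 0) : T = 0 := by
  have h1 := H35P.fg h.toIntW (Θ T) n hn (by rw [← map_nsmul, h0, map_zero]) hT
  exact (map_eq_zero_iff Θ Θ.injective).1 h1

theorem kg_diff (h : GoodW W' V) (hc : Crd u r s t Θ) {P Q : W.toAffine.Point} (hP : ¬ Ker V (Θ P))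
    (hQ : ¬ Ker V (Θ Q)) (h1 : ¬ Ker V (Θ (P - Q))) (h2 : ¬ Ker V (Θ (P + Q))) :
    V.valuation (xc P - xc Q) = V.valuation u ^ 2 := by
  have hP0 : P ≠ 0 := by
    rintro rfl
    exact hP (by rw [map_zero]; trivial)
  have hQ0 : Q ≠ 0 := by
    rintro rfl
    exact hQ (by rw [map_zero]; trivial)
  rw [map_sub] at h1
  rw [map_add] at h2
  have h3 := unit_diff h hP hQ h1 h2
  have h4 : xc P - xc Q = u ^ 2 * (xc (Θ P) - xc (Θ Q)) := by
    rw [(hc P hP0).2.1, (hc Q hQ0).2.1]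
    ring
  rw [h4, map_mul, h3, mul_one, map_pow]

theorem kg_far (h : GoodW W' V) (hc : Crd u r s t Θ) {P P' Q : W.toAffine.Point} (hP : ¬ Ker V (Θ P))
    (hP' : ¬ Ker V (Θ P')) (hQ : Ker V (Θ Q)) (h0 : Q ≠ 0) :
    V.valuation (xc P - xc Q) = V.valuation (xc P' - xc Q) := by
  have key : ∀ R : W.toAffine.Point, ¬ Ker V (Θ R) →
      V.valuation (xc R - xc Q) = V.valuation u ^ 2 * V.valuation (xc (Θ Q)) := by
    intro R hR
    have hR0 : R ≠ 0 := by
      rintro rfl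
      exact hR (by rw [map_zero]; trivial)
    have h4 : xc R - xc Q = u ^ 2 * (xc (Θ R) - xc (Θ Q)) := by
      rw [(hc R hR0).2.1, (hc Q h0).2.1]
      ring
    have h5 : V.valuation (xc (Θ R)) ≤ 1 := (V.valuation_le_one_iff _).2 (int_crd h hR).2.1
    have h6 : 1 < V.valuation (xc (Θ Q)) := (ker_crd (hc Q h0).1).1 hQ
    rw [h4, map_mul, map_pow, Valuation.map_sub_eq_of_lt_right _ (h5.trans_lt h6)]
  rw [key P hP, key P' hP']

end H55K.MG
end

-- from Lib.H55K.M2C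
section

open NumberField WeierstrassCurve

namespace H55K.MG

open H55P (IQ Pt ac Inert)
open H35P (WAB Ker GoodW IntW)

/-! Chunk M2C (S/M). vc_of_j: both curves are elliptic (Δ <> 0: isUnit), W.j = W'.j (j = Δ'^(-1) c4^3), WeierstrassCurve.exists_variableChange_of_j_eq (IsAlgClosed gives IsSepClosed): C • W = W'; u = C.u, r, s, t; the equations of VC
are variableChange_a₁ .. a₆ multiplied by powers of u. good_model: jj = algebraMap F Ω j0, in V since j0 is an integer (ak_in: V is integrally closed; see eg ak_le in Lib/H55K/GI.lean or VW/ValuationSubring lemmas: integral elements are in V);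
W = (WAB A B)⁄Ω: a1 = a2 = a3 = 0 (map_zero), a4 = algebraMap A, a6 = algebraMap B, c4 = -48 A, Δ = -16 (4A^3 + 27B^2), so c4^3 = jj Δ by hj: -110592 A^3 = -16 * 6912 A^3. Cases V(2) = 1 or V(2) < 1 (V(2) ≤ 1). -/

theorem vc_of_j {Ω : Type} [Field Ω] [IsAlgClosed Ω] {W W' : WeierstrassCurve Ω} {jj : Ω} (h1 : W.Δ ≠ 0) (h2 : W'.Δ ≠ 0)
    (h3 : W.c₄ ^ 3 = jj * W.Δ) (h4 : W'.c₄ ^ 3 = jj * W'.Δ) : ∃ u r s t, VC W W' u r s t := by
  have e1 : W.IsElliptic := ⟨isUnit_iff_ne_zero.2 h1⟩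
  have e2 : W'.IsElliptic := ⟨isUnit_iff_ne_zero.2 h2⟩
  have hj1 : W.j = jj := by
    rw [WeierstrassCurve.j, h3, ← W.coe_Δ', mul_comm jj, ← mul_assoc, Units.inv_mul, one_mul]
  have hj2 : W'.j = jj := by
    rw [WeierstrassCurve.j, h4, ← W'.coe_Δ', mul_comm jj, ← mul_assoc, Units.inv_mul, one_mul]
  obtain ⟨C, hC⟩ := WeierstrassCurve.exists_variableChange_of_j_eq W W' (hj1.trans hj2.symm)
  have hu : (C.u : Ω) ≠ 0 := C.u.ne_zero
  have hu1 : (C.u : Ω) * ((C.u⁻¹ : Ωˣ) : Ω) = 1 := C.u.mul_inv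
  refine ⟨C.u, C.r, C.s, C.t, ⟨hu, ?_, ?_, ?_, ?_, ?_⟩⟩
  · rw [← hC, variableChange_a₁, ← mul_assoc, hu1, one_mul]
  · rw [← hC, variableChange_a₂, ← mul_assoc, ← mul_pow, hu1, one_pow, one_mul]
  · rw [← hC, variableChange_a₃, ← mul_assoc, ← mul_pow, hu1, one_pow, one_mul]
  · rw [← hC, variableChange_a₄, ← mul_assoc, ← mul_pow, hu1, one_pow, one_mul]
  · rw [← hC, variableChange_a₆, ← mul_assoc, ← mul_pow, hu1, one_pow, one_mul]

theorem good_model {F : Type} [Field F] [NumberField F] {Ω : Type} [Field Ω] [Algebra F Ω]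
    [IsAlgClosed Ω] {A B : F} (hd : 4 * A ^ 3 + 27 * B ^ 2 ≠ 0)
    (hj : ∃ j₀ : 𝓞 F, (j₀ : F) * (4 * A ^ 3 + 27 * B ^ 2) = 6912 * A ^ 3) (V : ValuationSubring Ω) :
    ∃ (W' : WeierstrassCurve Ω) (u r s t : Ω), VC ((WAB A B)⁄Ω) W' u r s t ∧ ((WAB A B)⁄Ω).Δ ≠ 0 ∧ GoodW W' V ∧
      ((V.valuation (2 : Ω) = 1 ∧ W'.a₁ = 0 ∧ W'.a₃ = 0) ∨ V.valuation (2 : Ω) < 1) := by
  obtain ⟨j₀, hj₀⟩ := hj
  set jj : Ω := algebraMap F Ω (j₀ : F) with hjj
  have hjV : jj ∈ V := by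
    have h1 : IsIntegral ℤ jj := by
      have h2 : IsIntegral ℤ (j₀ : F) := RingOfIntegers.isIntegral_coe j₀
      exact h2.map ((algebraMap F Ω).toIntAlgHom)
    have h3 : IsIntegral V jj := h1.tower_top
    obtain ⟨y, hy⟩ := IsIntegrallyClosed.isIntegral_iff.1 h3
    rw [← hy]
    exact y.2
  have c0 : CharZero Ω := charZero_of_injective_algebraMap (algebraMap F Ω).injective
  have hΔ : ((WAB A B)⁄Ω).Δ = algebraMap F Ω (-16 * (4 * A ^ 3 + 27 * B ^ 2)) := by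
    refine ((WAB A B).map_Δ (algebraMap F Ω)).trans ?_
    congr 1
    simp only [WAB, WeierstrassCurve.Δ, WeierstrassCurve.b₂, WeierstrassCurve.b₄,
      WeierstrassCurve.b₆, WeierstrassCurve.b₈]
    ring
  have hc : ((WAB A B)⁄Ω).c₄ = algebraMap F Ω (-48 * A) := by
    refine ((WAB A B).map_c₄ (algebraMap F Ω)).trans ?_
    congr 1
    simp only [WAB, WeierstrassCurve.c₄, WeierstrassCurve.b₂, WeierstrassCurve.b₄]
    ring
  have h1 : ((WAB A B)⁄Ω).Δ ≠ 0 := by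
    rw [hΔ]
    exact (map_ne_zero _).2 (mul_ne_zero (by norm_num) hd)
  have h3 : ((WAB A B)⁄Ω).c₄ ^ 3 = jj * ((WAB A B)⁄Ω).Δ := by
    rw [hΔ, hc, hjj, ← map_pow, ← map_mul]
    congr 1
    linear_combination (16 : F) * hj₀
  have h0 : V.valuation (0 : Ω) < 1 := by
    rw [map_zero]
    exact zero_lt_one
  have hne : ∀ W' : WeierstrassCurve Ω, GoodW W' V → W'.Δ ≠ 0 := by
    intro W' hG h
    have h5 := hG.disc
    rw [h, map_zero] at h5
    exact zero_ne_one h5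
  have h2le : V.valuation (2 : Ω) ≤ 1 := by
    rw [V.valuation_le_one_iff]
    exact_mod_cast natCast_mem V 2
  rcases h2le.eq_or_lt with h2 | h2
  · obtain ⟨W', hG, hW, ha1, ha3⟩ := legendre h2 hjV
    obtain ⟨u, r, s, t, hvc⟩ := vc_of_j h1 (hne W' hG) h3 hW
    exact ⟨W', u, r, s, t, hvc, h1, hG, Or.inl ⟨h2, ha1, ha3⟩⟩
  · obtain ⟨W', hG, hW⟩ := deuring h2 hjV
    obtain ⟨u, r, s, t, hvc⟩ := vc_of_j h1 (hne W' hG) h3 hW
    exact ⟨W', u, r, s, t, hvc, h1, hG, Or.inr h2⟩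

end H55K.MG
end

-- from Lib.H55K.QC1A
section

/-! # H55K: the good model of a curve with integral j-invariant -/

open NumberField IsDedekindDomain WeierstrassCurve

namespace H55K.TQ

open H55P (IQ embF eF LF Per IsHecke Pt ac Inert Dec Nm UnitP)
open H35P (WAB Ker tt GoodW IntW)
open H55K.MG (VC Crd)

/-- Chunk QC1A (S). V(2) = 1: MG.legendre; V(2) < 1: MG.deuring (V(2) ≤ 1 always); both for jj. W'.Δ ≠ 0 since V(W'.Δ) = 1. MG.vc_of_j. -/
theorem gmodel {Ω : Type} [Field Ω] [IsAlgClosed Ω] {W : WeierstrassCurve Ω} {V : ValuationSubring Ω} (hΔ : W.Δ ≠ 0)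
    {jj : Ω} (hj : jj ∈ V) (h : W.c₄ ^ 3 = jj * W.Δ) :
    ∃ (W' : WeierstrassCurve Ω) (u r s t : Ω), VC W W' u r s t ∧ GoodW W' V := by
  obtain ⟨W', hG, hc⟩ : ∃ W' : WeierstrassCurve Ω, GoodW W' V ∧ W'.c₄ ^ 3 = jj * W'.Δ := by
    have h2 : V.valuation (2 : Ω) ≤ 1 := by
      rw [V.valuation_le_one_iff]
      have e : (2 : Ω) = 1 + 1 := by norm_num
      rw [e]
      exact V.add_mem _ _ V.one_mem V.one_mem
    rcases h2.lt_or_eq with h2 | h2
    · exact MG.deuring h2 hj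
    · obtain ⟨W', h1, h3, _⟩ := MG.legendre h2 hj
      exact ⟨W', h1, h3⟩
  have hΔ' : W'.Δ ≠ 0 := by
    intro e
    have h1 := hG.disc
    rw [e, map_zero] at h1
    exact zero_ne_one h1
  obtain ⟨u, r, s, t, hv⟩ := MG.vc_of_j hΔ hΔ' h hc
  exact ⟨W', u, r, s, t, hv, hG⟩

end H55K.TQ
end

-- from Lib.H55K.M4B
section

open NumberField WeierstrassCurve

namespace H55K.MG

open H55P (IQ Pt ac Inert)
open H35P (WAB Ker GoodW IntW)

variable {F : Type} [Field F] {Ω : Type} [Field Ω] [DecidableEq Ω] [Algebra F Ω] {W : WeierstrassCurve F}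
  {W' : WeierstrassCurve Ω} {u r s t : Ω} {Θ : (W⁄Ω).toAffine.Point ≃+ W'.toAffine.Point}

/-! Chunk M4B (S/M). ac_crd: cases on P; ac is Affine.Point.map: map_some, rfl; ac W g P = 0 iff P = 0. tilde: P <> 0: xc (ac W g P) = g (xc P), so u^2 X + r = (g u)^2 (g x') + g r with X = xc (Θ (ac W g P)), x' = xc (Θ P);
the same for y; divide by u^2, u^3 (field_simp, linear_combination). -/

theorem ac_crd (g : Ω ≃ₐ[F] Ω) (P : Pt W Ω) : xc (ac W g P) = g (xc P) ∧ yc (ac W g P) = g (yc P) ∧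
    (ac W g P = 0 ↔ P = 0) := by
  rcases P with _ | ⟨x, y, h⟩
  · have h0 : ac W g (Affine.Point.zero : Pt W Ω) = 0 := map_zero _
    rw [h0]
    exact ⟨(map_zero g).symm, (map_zero g).symm, ⟨fun _ => rfl, fun _ => rfl⟩⟩
  · have h1 : ac W g (Affine.Point.some x y h : Pt W Ω) ≠ 0 := by
      unfold ac
      rw [Affine.Point.map_some]
      exact Affine.Point.some_ne_zero _
    refine ⟨?_, ?_, ⟨fun h2 => absurd h2 h1, fun h2 => absurd h2 (Affine.Point.some_ne_zero _)⟩⟩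
    · unfold ac
      rw [Affine.Point.map_some]
      rfl
    · unfold ac
      rw [Affine.Point.map_some]
      rfl

theorem tilde (hu : u ≠ 0) (hc : Crd u r s t Θ) (g : Ω ≃ₐ[F] Ω) {P : Pt W Ω} (h0 : P ≠ 0) :
    xc (Θ (ac W g P)) = (g u / u) ^ 2 * g (xc (Θ P)) + (g r - r) / u ^ 2 ∧
    yc (Θ (ac W g P)) = (g u / u) ^ 3 * g (yc (Θ P)) + (g u ^ 2 * (g s - s) / u ^ 3) * g (xc (Θ P)) +
      (g t - t - s * (g r - r)) / u ^ 3 := by
  obtain ⟨a1, a2, a3⟩ := ac_crd g P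
  obtain ⟨-, b2, b3⟩ := hc P h0
  obtain ⟨-, c2, c3⟩ := hc (ac W g P) (fun h => h0 (a3.1 h))
  rw [a1, b2, map_add, map_mul, map_pow] at c2
  rw [a2, b3, map_add, map_add, map_mul, map_mul, map_mul, map_pow, map_pow] at c3
  obtain ⟨X, hX⟩ : ∃ X, X = xc (Θ (ac W g P)) := ⟨_, rfl⟩
  obtain ⟨Y, hY⟩ : ∃ Y, Y = yc (Θ (ac W g P)) := ⟨_, rfl⟩
  rw [← hX] at c2 c3 ⊢
  rw [← hY] at c3 ⊢
  constructor
  · field_simp
    linear_combination -c2
  · field_simp
    linear_combination -c3 + s * c2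

end H55K.MG
end

-- from Lib.H55K.T0
section

/-! # H55K: part T: bad reduction stays bad in p-extensions (definitions) -/

open NumberField IsDedekindDomain WeierstrassCurve

namespace H55K.TQ

open H55P (IQ embF eF LF Per IsHecke Pt ac Inert Dec Nm UnitP)
open H35P (WAB Ker tt GoodW IntW)
open H55K.MG (VC Crd)

/-- W (over Ω) has a good equation at V after a change of variables with coefficients in the set M. -/
def GMd {Ω : Type} [Field Ω] (W : WeierstrassCurve Ω) (V : ValuationSubring Ω) (M : Set Ω) : Prop :=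
  ∃ (W' : WeierstrassCurve Ω) (u r s t : Ω), u ∈ M ∧ r ∈ M ∧ s ∈ M ∧ t ∈ M ∧ VC W W' u r s t ∧ GoodW W' V

end H55K.TQ
end

-- from Lib.H55N.H9
section

open NumberField IsDedekindDomain

namespace H55N

open H55B H55C

/-- The Euler factor. -/
noncomputable def H9_EF {K : Type} [Field K] [NumberField K] (h : Ideal (𝓞 K) →*₀ ℂ)
    (w : HeightOneSpectrum (𝓞 K)) : ArithmeticFunction ℂ :=
  ArithmeticFunction.ofPowerSeries (Ideal.absNorm w.asIdeal)
    ((1 - PowerSeries.C (h w.asIdeal) * PowerSeries.X)⁻¹ : PowerSeries ℂ)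



section

variable (K K' : Type) [Field K] [NumberField K] [Algebra F K] [Field K'] [NumberField K']
    [Algebra F K'] [Algebra K K'] [IsScalarTower F K K']




end


end H55N
end

-- from Lib.H55P.T4
section

open NumberField IsDedekindDomain

namespace H55P

open H55N
open H55B (g)

variable {F : Type} [Field F] [NumberField F] [IQ F]

/-! Chunk PT4 (M/L), the step of prime degree p for the Euler products; PORT of Lib/H19T/A5.lean (AI_stepT, with H9_EF, H9_norm of H55N/H9.lean). For a prime w of K, a = Ψ(w), z = χ(w), q = absNorm w. Identity of power series for a primitive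
p-th root of unity z: 1 - a^p X^p = prod_{j=0}^{p-1} (1 - a z^j X) (IsPrimitiveRoot: X^p - Y^p = prod (X - z^j Y): Polynomial/IsPrimitiveRoot.pow_sub_pow_eq_prod_sub_mul). split: p factors 1/(1 - aX) at q, z = 1. inert: 1/(1 - a^p X) at
q^p, = the product over j of 1/(1 - a z^j X) at q; z primitive since z^p = 1, z <> 1, p prime (IsPrimitiveRoot from orderOf_eq_prime). ramified: z = 0: 1/(1-aX) at q, the other factors 1. Then finite sets of primes as in A5. -/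

theorem pt4_prod {R : Type} [CommRing R] [IsDomain R] {p : ℕ} (hp : 0 < p) {z : R}
    (hz : IsPrimitiveRoot z p) (y : R) : 1 - y ^ p = ∏ j ∈ Finset.range p, (1 - z ^ j * y) := by
  classical
  have h1 := hz.pow_sub_pow_eq_prod_sub_mul 1 y hp
  rw [one_pow] at h1
  rw [h1, Polynomial.nthRootsFinset_def, hz.nthRoots_eq (one_pow p)]
  simp only [mul_one]
  have h2 : (Multiset.map (fun x => z ^ x) (Multiset.range p)).toFinset =
      (Finset.range p).image (fun x => z ^ x) := rfl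
  rw [h2, Finset.prod_image]
  intro i hi j hj hij
  exact hz.pow_inj (Finset.mem_range.1 hi) (Finset.mem_range.1 hj) hij

theorem pt4_ps (a z : ℂ) (p : ℕ) (hp : 0 < p) (hz : IsPrimitiveRoot z p) :
    ((1 - PowerSeries.C (a ^ p) * PowerSeries.X ^ p)⁻¹ : PowerSeries ℂ) =
    ∏ j ∈ Finset.range p, (1 - PowerSeries.C (a * z ^ j) * PowerSeries.X)⁻¹ := by
  symm
  apply H55B.I2_inv_unique
  · have hp' : p ≠ 0 := hp.ne'
    simp [hp']
  · have hz' : IsPrimitiveRoot (PowerSeries.C z : PowerSeries ℂ) p :=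
      hz.map_of_injective (f := (PowerSeries.C : ℂ →+* PowerSeries ℂ)) PowerSeries.C_injective
    have h1 : (1 - PowerSeries.C (a ^ p) * PowerSeries.X ^ p : PowerSeries ℂ) =
        ∏ j ∈ Finset.range p, (1 - PowerSeries.C (a * z ^ j) * PowerSeries.X) := by
      rw [map_pow, ← mul_pow, pt4_prod hp hz']
      refine Finset.prod_congr rfl fun j _ => ?_
      rw [map_mul, map_pow]
      ring
    rw [h1, ← Finset.prod_mul_distrib]
    refine Finset.prod_eq_one fun j _ => ?_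
    exact PowerSeries.mul_inv_cancel _ (by simp)

theorem pt4_cu (q : ℕ) (a z : ℂ) (p : ℕ) (hp : 0 < p) (hz : IsPrimitiveRoot z p) :
    ArithmeticFunction.ofPowerSeries (q ^ p)
      ((1 - PowerSeries.C (a ^ p) * PowerSeries.X)⁻¹ : PowerSeries ℂ) =
    ∏ j ∈ Finset.range p, ArithmeticFunction.ofPowerSeries q
      ((1 - PowerSeries.C (a * z ^ j) * PowerSeries.X)⁻¹ : PowerSeries ℂ) := by
  rw [ArithmeticFunction.ofPowerSeries_pow q hp.ne', H55B.I2_subst_inv hp.ne' _ (by simp),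
    H55B.I2_subst_lin hp.ne', ← map_prod, pt4_ps a z p hp hz]

section

variable (K K' : Type) [Field K] [NumberField K] [Algebra F K] [Field K'] [NumberField K']
    [Algebra F K'] [Algebra K K'] [IsScalarTower F K K']

omit [IQ F] [Algebra F K] [Algebra F K'] [IsScalarTower F K K'] in
theorem pt4_norm (W : Ideal (𝓞 K')) :
    Ideal.absNorm W = Ideal.absNorm (Ideal.relNorm (𝓞 K) W) := by
  rw [Ideal.absNorm_relNorm]

theorem pt4_loc (ψ : Ideal (𝓞 F) →*₀ 𝓞 F) (p : ℕ) (hp : p.Prime)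
    (χ : Ideal (𝓞 K) →*₀ ℂ) (hχ : SplitP K K' p χ) (w : HeightOneSpectrum (𝓞 K)) :
    ∃ A : Finset (HeightOneSpectrum (𝓞 K')), (∀ W, W ∈ A ↔ W.asIdeal.under (𝓞 K) = w.asIdeal) ∧
      ∏ W ∈ A, H9_EF (PsiP K' ψ) W = H9_EF (PsiP K ψ) w *
        ∏ j ∈ Finset.range (p - 1), H9_EF (PsiP K ψ * chp χ j : Ideal (𝓞 K) →*₀ ℂ) w := by
  classical
  have hmul : ∀ j, (PsiP K ψ * chp χ j : Ideal (𝓞 K) →*₀ ℂ) w.asIdeal =
      PsiP K ψ w.asIdeal * χ w.asIdeal ^ (j + 1) := by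
    intro j
    rw [← chp_apply]
    rfl
  have hp1 : p - 1 + 1 = p := Nat.sub_add_cancel hp.one_le
  obtain ⟨T, hT, h⟩ := hχ w
  refine ⟨T, hT, ?_⟩
  rcases h with ⟨h1, hc, hn⟩ | ⟨h1, h1', hc, hn⟩ | ⟨h1, hc, hn⟩
  · have e1 : ∀ W ∈ T, H9_EF (PsiP K' ψ) W = H9_EF (PsiP K ψ) w := by
      intro W hW
      unfold H9_EF
      rw [PsiP_top (K := K) ψ K', pt4_norm K K', hn W hW]
    have e2 : ∀ j ∈ Finset.range (p - 1), H9_EF (PsiP K ψ * chp χ j : Ideal (𝓞 K) →*₀ ℂ) w =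
        H9_EF (PsiP K ψ) w := by
      intro j _
      unfold H9_EF
      rw [hmul, h1, one_pow, mul_one]
    rw [Finset.prod_congr rfl e1, Finset.prod_congr rfl e2, Finset.prod_const, Finset.prod_const,
      hc, Finset.card_range, ← pow_succ', hp1]
  · obtain ⟨W, rfl⟩ := Finset.card_eq_one.1 hc
    have hW := hn W (Finset.mem_singleton_self _)
    have hz : IsPrimitiveRoot (χ w.asIdeal) p := by
      have := Fact.mk hp
      rw [← orderOf_eq_prime h1 h1']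
      exact IsPrimitiveRoot.orderOf _
    rw [Finset.prod_singleton]
    have e1 : H9_EF (PsiP K' ψ) W = ∏ j ∈ Finset.range p,
        ArithmeticFunction.ofPowerSeries (Ideal.absNorm w.asIdeal)
          ((1 - PowerSeries.C (PsiP K ψ w.asIdeal * χ w.asIdeal ^ j) * PowerSeries.X)⁻¹ :
            PowerSeries ℂ) := by
      unfold H9_EF
      rw [PsiP_top (K := K) ψ K', pt4_norm K K', hW, map_pow, map_pow]
      exact pt4_cu _ _ _ p hp.pos hz
    rw [e1]
    conv_lhs => rw [← hp1]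
    rw [Finset.prod_range_succ', pow_zero, mul_one, mul_comm]
    unfold H9_EF
    refine congrArg₂ _ rfl (Finset.prod_congr rfl fun j _ => ?_)
    rw [hmul]
  · obtain ⟨W, rfl⟩ := Finset.card_eq_one.1 hc
    have hW := hn W (Finset.mem_singleton_self _)
    rw [Finset.prod_singleton]
    have e1 : H9_EF (PsiP K' ψ) W = H9_EF (PsiP K ψ) w := by
      unfold H9_EF
      rw [PsiP_top (K := K) ψ K', pt4_norm K K', hW]
    rw [e1, Finset.prod_eq_one, mul_one]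
    intro j _
    unfold H9_EF
    rw [hmul, h1, zero_pow (Nat.succ_ne_zero j), mul_zero, map_zero, zero_mul, sub_zero]
    have h2 : ((1 : PowerSeries ℂ)⁻¹) = 1 := by simp
    rw [h2, map_one]

end

theorem AI_stepP (K K' : Type) [Field K] [NumberField K] [Algebra F K] [Field K'] [NumberField K']
    [Algebra F K'] [Algebra K K'] [IsScalarTower F K K'] (ψ : Ideal (𝓞 F) →*₀ 𝓞 F) (p : ℕ) (hp : p.Prime)
    (χ : Ideal (𝓞 K) →*₀ ℂ) (hχ : SplitP K K' p χ) :
    AI (PsiP K' ψ) = AI (PsiP K ψ) *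
      ∏ j ∈ Finset.range (p - 1), AI (PsiP K ψ * chp χ j : Ideal (𝓞 K) →*₀ ℂ) := by
  classical
  choose A hA hprod using pt4_loc K K' ψ p hp χ hχ
  ext n
  have e1 : ∀ᶠ S : Finset (HeightOneSpectrum (𝓞 K)) in Filter.atTop,
      (∏ W ∈ S.biUnion A, H9_EF (PsiP K' ψ) W) n = AI (PsiP K' ψ) n := by
    have h1 := AI_euler (PsiP K' ψ) n
    have h2 : Filter.Tendsto (fun S : Finset (HeightOneSpectrum (𝓞 K)) => S.biUnion A)
        Filter.atTop Filter.atTop := by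
      rw [Filter.tendsto_atTop]
      intro T
      filter_upwards [Filter.eventually_ge_atTop (T.image (HeightOneSpectrum.under (𝓞 K)))] with S hS
      intro W hW
      rw [Finset.mem_biUnion]
      refine ⟨HeightOneSpectrum.under (𝓞 K) W, hS (Finset.mem_image_of_mem _ hW), ?_⟩
      rw [hA]
      rfl
    exact h2.eventually h1
  have e2 : ∀ h : Ideal (𝓞 K) →*₀ ℂ, ∀ᶠ S : Finset (HeightOneSpectrum (𝓞 K)) in Filter.atTop,
      ∀ m ∈ Finset.range (n + 1), (∏ w ∈ S, H9_EF h w) m = AI h m := by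
    intro h
    rw [Filter.eventually_all_finset]
    intro m _
    exact AI_euler h m
  have e3 : ∀ᶠ S : Finset (HeightOneSpectrum (𝓞 K)) in Filter.atTop,
      ∀ j ∈ Finset.range (p - 1), ∀ m ∈ Finset.range (n + 1),
        (∏ w ∈ S, H9_EF (PsiP K ψ * chp χ j : Ideal (𝓞 K) →*₀ ℂ) w) m =
          AI (PsiP K ψ * chp χ j : Ideal (𝓞 K) →*₀ ℂ) m := by
    rw [Filter.eventually_all_finset]
    intro j _
    exact e2 _
  obtain ⟨S, h1, h2, h3⟩ := (e1.and ((e2 (PsiP K ψ)).and e3)).exists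
  rw [← h1, Finset.prod_biUnion, Finset.prod_congr rfl fun w _ => hprod w,
    Finset.prod_mul_distrib, Finset.prod_comm]
  · exact H55B.I2_mul_congr (fun m hm => h2 m (Finset.mem_range.2 (by omega)))
      (H55B.I2_prod_congr _ _ _ fun j hj m hm => h3 j hj m (Finset.mem_range.2 (by omega))) n le_rfl
  · intro w _ w' _ hne
    rw [Function.onFun, Finset.disjoint_left]
    intro W hW hW'
    rw [hA] at hW hW'
    exact hne (HeightOneSpectrum.ext (hW.symm.trans hW'))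

end H55P
end

-- from Lib.H55P.T5
section

open NumberField IsDedekindDomain

namespace H55P

open H55N
open H55B (g)

variable {F : Type} [Field F] [NumberField F] [IQ F]

/-! Chunk PT5 (M), the step for the L-values; PORT of Lib/H19T/A5b.lean. Λ' = Λ * prod_j Λ_j. The L-series of the product of arithmetic functions over a finset: induction with LSeriesHasSum_mul (or
ArithmeticFunction.LSeriesHasSum_mul) . Value: V multiplicative, Om^(finrank F K') = Om^(finrank F K * p), finrank F K' = finrank F K * p. chp_PChr: val: (χ^(j+1))^p = (χ^p)^(j+1). -/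

theorem PChr.norm_le {K : Type} [Field K] [NumberField K] {p : ℕ} (hp : p ≠ 0) {f : Ideal (𝓞 K)}
    {χ : Ideal (𝓞 K) →*₀ ℂ} (h : PChr p f χ) (a : Ideal (𝓞 K)) : ‖χ a‖ ≤ 1 := by
  by_cases ha : a = ⊥
  · have : χ ⊥ = 0 := χ.map_zero
    rw [ha, this, norm_zero]
    exact zero_le_one
  · by_cases hc : IsCoprime a f
    · exact (Complex.norm_eq_one_of_pow_eq_one (h.val a ha hc) hp).le
    · rw [h.zero a hc, norm_zero]
      exact zero_le_one

theorem chp_PChr {K : Type} [Field K] [NumberField K] {p : ℕ} {f : Ideal (𝓞 K)}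
    {χ : Ideal (𝓞 K) →*₀ ℂ} (h : PChr p f χ) (j : ℕ) : PChr p f (chp χ j) := by
  refine ⟨h.ne, h.cop, ?_, ?_, ?_⟩
  · intro a ha hc
    rw [chp_apply, ← pow_mul, mul_comm, pow_mul, h.val a ha hc, one_pow]
  · intro a hc
    rw [chp_apply, h.zero a hc, zero_pow (Nat.succ_ne_zero j)]
  · intro x y hx hy hc hxy
    rw [chp_apply, chp_apply, h.per x y hx hy hc hxy]

theorem pt5_prod {s : ℂ} (n : ℕ) (f : ℕ → ArithmeticFunction ℂ) (a : ℕ → ℂ)
    (h : ∀ j, j < n → LSeriesHasSum (fun k => f j k) s (a j)) :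
    LSeriesHasSum (fun k => (∏ j ∈ Finset.range n, f j) k) s (∏ j ∈ Finset.range n, a j) := by
  induction n with
  | zero =>
    rw [Finset.prod_range_zero, Finset.prod_range_zero]
    have h1 : HasSum (LSeries.term (fun k => (1 : ArithmeticFunction ℂ) k) s)
        (LSeries.term (fun k => (1 : ArithmeticFunction ℂ) k) s 1) := by
      refine hasSum_single 1 fun n hn => ?_
      rw [LSeries.term_def]
      split_ifs with h0
      · rfl
      · rw [ArithmeticFunction.one_apply_ne hn, zero_div]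
    have h2 : LSeries.term (fun k => (1 : ArithmeticFunction ℂ) k) s 1 = 1 := by
      rw [LSeries.term_def, if_neg one_ne_zero, ArithmeticFunction.one_one, Nat.cast_one,
        Complex.one_cpow, div_one]
    rw [h2] at h1
    exact h1
  | succ n ih =>
    rw [Finset.prod_range_succ, Finset.prod_range_succ]
    exact ArithmeticFunction.LSeriesHasSum_mul (ih fun j hj => h j (by omega)) (h n (by omega))

theorem LVP_of_step (K K' : Type) [Field K] [NumberField K] [Algebra F K] [Field K'] [NumberField K']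
    [Algebra F K'] [Algebra K K'] [IsScalarTower F K K'] {M : Ideal (𝓞 F)} {ψ : Ideal (𝓞 F) →*₀ 𝓞 F}
    (h : IsHecke M ψ) (p : ℕ) (hp : p.Prime) (hn : Module.finrank K K' = p)
    (f : Ideal (𝓞 K)) (χ : Ideal (𝓞 K) →*₀ ℂ) (hf : PChr p f χ) (hχ : SplitP K K' p χ)
    (V : ValuationSubring ℂ) (Om : ℂ) (h1 : LVP F V Om (PsiP K ψ))
    (h2 : ∀ j, j < p - 1 → LVP F V Om (PsiP K ψ * chp χ j : Ideal (𝓞 K) →*₀ ℂ)) :
    LVP F V Om (PsiP K' ψ) := by
  obtain ⟨Λ₁, ha1, hs1, hu1⟩ := h1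
  have h2' : ∀ j, ∃ Λ : ℂ → ℂ, j < p - 1 → AnalyticOnNhd ℂ Λ {s | 1 / 2 < s.re} ∧
      (∀ s : ℂ, 3 / 2 < s.re → HasSum (tm (PsiP K ψ * chp χ j : Ideal (𝓞 K) →*₀ ℂ) s) (Λ s)) ∧
      V.valuation (Λ 1 / Om ^ Module.finrank F K) = 1 := by
    intro j
    by_cases hj : j < p - 1
    · obtain ⟨Λ, hΛ⟩ := h2 j hj
      exact ⟨Λ, fun _ => hΛ⟩
    · exact ⟨fun _ => 0, fun h => absurd h hj⟩
  choose Λ hΛ using h2'
  have hb : ∀ j, ∀ a : Ideal (𝓞 K),
      ‖(PsiP K ψ * chp χ j : Ideal (𝓞 K) →*₀ ℂ) a‖ ^ 2 ≤ Ideal.absNorm a := by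
    intro j a
    refine le_trans ?_ (PsiP_norm_le h a)
    have h4 : (PsiP K ψ * chp χ j : Ideal (𝓞 K) →*₀ ℂ) a = PsiP K ψ a * chp χ j a := rfl
    rw [h4, norm_mul, mul_pow]
    exact mul_le_of_le_one_right (by positivity)
      (pow_le_one₀ (norm_nonneg _) ((chp_PChr hf j).norm_le hp.ne_zero a))
  refine ⟨fun s => Λ₁ s * ∏ j ∈ Finset.range (p - 1), Λ j s, fun s hs => (ha1 s hs).mul ?_,
    fun s hs => ?_, ?_⟩
  · exact Finset.analyticAt_fun_prod _ fun j hj => (hΛ j (Finset.mem_range.1 hj)).1 s hs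
  · have hsum := tm_summable (PsiP K' ψ) (fun a => PsiP_norm_le h a) s hs
    have hL := AI_LSeries (PsiP K' ψ) (PsiP K' ψ).map_zero s hsum
    have hsum1 := tm_summable (PsiP K ψ) (fun a => PsiP_norm_le h a) s hs
    have hL1 := AI_LSeries (PsiP K ψ) (PsiP K ψ).map_zero s hsum1
    have hL2 := fun j => AI_LSeries (PsiP K ψ * chp χ j : Ideal (𝓞 K) →*₀ ℂ)
      (PsiP K ψ * chp χ j : Ideal (𝓞 K) →*₀ ℂ).map_zero s
      (tm_summable (PsiP K ψ * chp χ j : Ideal (𝓞 K) →*₀ ℂ) (hb j) s hs)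
    have hL3 := pt5_prod (p - 1) (fun j => AI (PsiP K ψ * chp χ j : Ideal (𝓞 K) →*₀ ℂ))
      (fun j => Λ j s) (fun j hj => by
        have h3 := hL2 j
        rw [((hΛ j hj).2.1 s hs).tsum_eq] at h3
        exact h3)
    have hL4 := ArithmeticFunction.LSeriesHasSum_mul hL1 hL3
    rw [← AI_stepP K K' ψ p hp χ hχ] at hL4
    have h5 : ∑' a, tm (PsiP K' ψ) s a = Λ₁ s * ∏ j ∈ Finset.range (p - 1), Λ j s := by
      rw [hL.unique hL4, (hs1 s hs).tsum_eq]
    show HasSum (tm (PsiP K' ψ) s) (Λ₁ s * ∏ j ∈ Finset.range (p - 1), Λ j s)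
    rw [← h5]
    exact hsum.of_norm.hasSum
  · have h5 : Om ^ Module.finrank F K' = Om ^ Module.finrank F K *
        ∏ j ∈ Finset.range (p - 1), Om ^ Module.finrank F K := by
      rw [← Module.finrank_mul_finrank F K K', hn, pow_mul, Finset.prod_const, Finset.card_range,
        ← pow_succ', Nat.sub_add_cancel hp.one_le]
    show V.valuation ((Λ₁ 1 * ∏ j ∈ Finset.range (p - 1), Λ j 1) / Om ^ Module.finrank F K') = 1
    rw [h5, mul_div_mul_comm, ← Finset.prod_div_distrib, map_mul, hu1, one_mul, map_prod]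
    exact Finset.prod_eq_one fun j hj => (hΛ j (Finset.mem_range.1 hj)).2.2

end H55P
end

-- from Lib.H55P.T2
section

open NumberField IsDedekindDomain

namespace H55P

open H55N
open H55B (g)

variable {F : Type} [Field F] [NumberField F] [IQ F] {K : Type} [Field K] [NumberField K]
  [Algebra F K] {m : ℕ}

/-! Chunk PT2 (M). The constants of the classes; PORT of exists_kappa in Lib/H55N/H14.lean. For x in X: (x) = a b, x is prime to J = mK K M * f (at a prime w containing J: x in w b would give c₀ in w b, hp; b is coprime to J),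
so x, c₀ are coprime to mK K M and f. With N = intNorm: relNorm (x) = (N x) (Ideal.relNorm_singleton), so ψ(relNorm a) ψ(relNorm b) = ψ((N x)), and N x - N c₀ in M (intNorm_cong), so by per
ψ((N x)) N c₀ = ψ((N c₀)) N x. Hence Ψ(a) = κ' conj(e(N x)) with κ' = conj(e(ψ((N c₀))))/(conj(e(N c₀)) Ψ(b)) ; ψ((N c₀)) and N c₀ generate the same ideal, their quotient is a unit of O, so a unit at every V; Ψ(b) is a
unit at V by PsiP_unit. χ(a) χ(b) = χ((x)) = χ((c₀)) (per), ζ = χ((c₀)) χ(b)^(-1), ζ^p = 1 (val; both coprime to f). -/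

theorem PT2_norm (x : 𝓞 K) :
    embF F (Algebra.norm F (x : K)) = eF F (Algebra.intNorm (𝓞 F) (𝓞 K) x) := by
  rw [eF_apply]
  congr 1
  exact (Algebra.algebraMap_intNorm (A := 𝓞 F) (K := F) (L := K) (B := 𝓞 K) x).symm

omit [IQ F] in
theorem PT2_mK (M : Ideal (𝓞 F)) (hM : M ≠ ⊥) : mK K M ≠ ⊥ := by
  intro h
  apply hM
  unfold mK at h
  rwa [Ideal.map_eq_bot_iff_of_injective (FaithfulSMul.algebraMap_injective (𝓞 F) (𝓞 K))] at h

theorem PT2_ne (M : Ideal (𝓞 F)) (hM : M ≠ ⊤) (x : 𝓞 K)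
    (hx : IsCoprime (Ideal.span {x}) (mK K M)) : x ≠ 0 := by
  rintro rfl
  rw [Ideal.span_singleton_eq_bot.2 rfl, ← Ideal.zero_eq_bot, isCoprime_zero_left,
    Ideal.isUnit_iff] at hx
  apply hM
  have h1 : (1 : 𝓞 K) - 0 ∈ mK K M := by
    rw [hx]
    exact Submodule.mem_top
  have h2 := intNorm_cong M 1 0 h1
  rw [map_one, Algebra.intNorm_zero, sub_zero] at h2
  exact (Ideal.eq_top_iff_one M).2 h2

theorem PT2_unit (u : (𝓞 F)ˣ) (V : ValuationSubring ℂ) :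
    V.valuation ((starRingEnd ℂ) (eF F (u : 𝓞 F))) = 1 := by
  have h1 := PT1_int ((starRingEnd ℂ).comp (eF F)) (u : 𝓞 F) V
  have h2 := PT1_int ((starRingEnd ℂ).comp (eF F)) ((u⁻¹ : (𝓞 F)ˣ) : 𝓞 F) V
  have h3 : V.valuation ((starRingEnd ℂ) (eF F (u : 𝓞 F))) *
      V.valuation ((starRingEnd ℂ) (eF F ((u⁻¹ : (𝓞 F)ˣ) : 𝓞 F))) = 1 := by
    rw [← map_mul, ← map_mul, ← map_mul, u.mul_inv, map_one, map_one, map_one]
  refine le_antisymm h1 ?_
  by_contra hlt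
  have h5 := mul_lt_one_of_nonneg_of_lt_one_left zero_le (not_le.1 hlt) h2
  have h6 : V.valuation ((starRingEnd ℂ) (eF F (u : 𝓞 F))) *
      V.valuation ((starRingEnd ℂ) (eF F ((u⁻¹ : (𝓞 F)ˣ) : 𝓞 F))) < 1 := h5
  rw [h3] at h6
  exact lt_irrefl _ h6

theorem exists_kappaP (p : ℕ) (hp : p.Prime) {M : Ideal (𝓞 F)} {ψ : Ideal (𝓞 F) →*₀ 𝓞 F}
    (h : IsHecke M ψ) (hMp : IsCoprime M (Ideal.span {(p : 𝓞 F)})) (f : Ideal (𝓞 K))
    (χ : Ideal (𝓞 K) →*₀ ℂ) (hχ : PChr p f χ) (b : Ideal (𝓞 K)) (hb : b ≠ ⊥)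
    (hbc : IsCoprime b (Ideal.span {(p : 𝓞 K)} * (mK K M * f))) (c₀ : 𝓞 K) (hc : c₀ ∈ b)
    (hpr : ∀ w : HeightOneSpectrum (𝓞 K), mK K M * f ≤ w.asIdeal → c₀ ∉ w.asIdeal * b) :
    ∃ κ κ' ζ : ℂ, (∀ V : ValuationSubring ℂ, V.valuation (p : ℂ) < 1 → V.valuation κ' = 1) ∧
      ζ ^ p = 1 ∧ κ = κ' * ζ ∧
      ∀ x ∈ XS (mK K M * f * b) c₀, ∀ a : Ideal (𝓞 K), a * b = Ideal.span {x} → x ≠ 0 ∧
        (PsiP K ψ * χ) a = κ * (starRingEnd ℂ) (embF F (Algebra.norm F (x : K))) ∧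
        (PsiP K ψ * oneI f) a = κ' * (starRingEnd ℂ) (embF F (Algebra.norm F (x : K))) := by
  classical
  have hm0 : mK K M ≠ ⊥ := PT2_mK M h.ne
  have hJ0 : mK K M * f ≠ ⊥ := mul_ne_zero hm0 hχ.ne
  have hbJ : IsCoprime b (mK K M * f) := hbc.of_mul_right_right
  have hbp : IsCoprime b (Ideal.span {(p : 𝓞 K)}) := hbc.of_mul_right_left
  have hbM : IsCoprime b (mK K M) := hbJ.of_mul_right_left
  have hbf : IsCoprime b f := hbJ.of_mul_right_right
  have hcop : IsCoprime (Ideal.span {c₀}) (mK K M * f) := by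
    rw [Ideal.isCoprime_iff_sup_eq]
    by_contra hne
    obtain ⟨P, hP, hle⟩ := Ideal.exists_le_maximal _ hne
    have hPf : mK K M * f ≤ P := le_sup_right.trans hle
    have hPc : Ideal.span {c₀} ≤ P := le_sup_left.trans hle
    have hP0 : P ≠ ⊥ := by
      rintro rfl
      exact hJ0 (le_bot_iff.1 hPf)
    have hbP : ¬ b ≤ P := by
      intro h1
      rw [Ideal.isCoprime_iff_sup_eq] at hbJ
      exact hP.ne_top (top_le_iff.1 (hbJ ▸ sup_le h1 hPf))
    obtain ⟨d, hd⟩ := Ideal.dvd_iff_le.2 ((Ideal.span_singleton_le_iff_mem b).2 hc)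
    rw [hd] at hPc
    have hdP : d ≤ P := (hP.isPrime.mul_le.1 hPc).resolve_left hbP
    refine hpr ⟨P, hP.isPrime, hP0⟩ hPf ?_
    have h1 : c₀ ∈ b * d := by rw [← hd]; exact Ideal.mem_span_singleton_self _
    rw [mul_comm]
    exact Ideal.mul_mono_right hdP h1
  have hXcop : ∀ x ∈ XS (mK K M * f * b) c₀,
      IsCoprime (Ideal.span {x}) (mK K M * f) := by
    intro x hx
    have hx' : x - c₀ ∈ mK K M * f :=
      Ideal.mul_le_left (show x - c₀ ∈ mK K M * f * b from hx)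
    rw [Ideal.isCoprime_iff_exists] at hcop ⊢
    obtain ⟨i, hi, j, hj, hij⟩ := hcop
    obtain ⟨r, rfl⟩ := Ideal.mem_span_singleton.1 hi
    refine ⟨x * r, Ideal.mul_mem_right _ _ (Ideal.mem_span_singleton_self x),
      j - (x - c₀) * r, Ideal.sub_mem _ hj (Ideal.mul_mem_right _ _ hx'), ?_⟩
    linear_combination hij
  have hcM : IsCoprime (Ideal.span {c₀}) (mK K M) := hcop.of_mul_right_left
  have hc0 : c₀ ≠ 0 := PT2_ne M h.ntop c₀ hcM
  have hc0' : Ideal.span {c₀} ≠ ⊥ := fun h1 => hc0 (Ideal.span_singleton_eq_bot.1 h1)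
  have hPb : PsiP K ψ b ≠ 0 := (PsiP_ne h b hb).2 hbM
  have hχb := hχ.val b hb hbf
  have hχb0 : χ b ≠ 0 := by
    intro h0
    rw [h0, zero_pow hp.ne_zero] at hχb
    exact zero_ne_one hχb
  have hχc := hχ.val (Ideal.span {c₀}) hc0' hcop.of_mul_right_right
  have hNc := (PsiP_cop h (Ideal.span {c₀}) hc0').2 hcM
  rw [Ideal.relNorm_singleton] at hNc
  obtain ⟨nc, hnc⟩ : ∃ nc, nc = Algebra.intNorm (𝓞 F) (𝓞 K) c₀ := ⟨_, rfl⟩
  rw [← hnc] at hNc
  have hnc0 : nc ≠ 0 := by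
    rintro rfl
    have h1 := Ideal.relNorm_singleton (𝓞 F) c₀
    rw [← hnc, Ideal.span_singleton_eq_bot.2 rfl] at h1
    exact hc0' (Ideal.relNorm_eq_bot_iff.1 h1)
  obtain ⟨A, hA⟩ : ∃ A, A = (starRingEnd ℂ) (eF F (ψ (Ideal.span {nc}))) := ⟨_, rfl⟩
  obtain ⟨B, hB⟩ : ∃ B, B = (starRingEnd ℂ) (eF F nc) := ⟨_, rfl⟩
  have hB0 : B ≠ 0 := by
    rw [hB, map_ne_zero]
    exact eF_ne hnc0
  refine ⟨A / (B * PsiP K ψ b) * (χ (Ideal.span {c₀}) * (χ b)⁻¹), A / (B * PsiP K ψ b),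
    χ (Ideal.span {c₀}) * (χ b)⁻¹, ?_, ?_, rfl, ?_⟩
  · intro V hV
    have h1 := (PsiP_unit p hp h b hb hbM hbp V hV).1
    obtain ⟨u, hu⟩ := Ideal.span_singleton_eq_span_singleton.1 (h.gen _ hNc)
    have h2 : V.valuation A = V.valuation B := by
      rw [hB, ← hu, map_mul, map_mul, map_mul, PT2_unit u V, mul_one, hA]
    rw [map_div₀, map_mul, h1, mul_one, h2]
    exact div_self ((Valuation.ne_zero_iff _).2 hB0)
  · rw [mul_pow, inv_pow, hχb, hχc, inv_one, mul_one]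
  · intro x hx a hab
    have hxc := hXcop x hx
    have hxM : IsCoprime (Ideal.span {x}) (mK K M) := hxc.of_mul_right_left
    have hx0 : x ≠ 0 := PT2_ne M h.ntop x hxM
    have hx0' : Ideal.span {x} ≠ ⊥ := fun h1 => hx0 (Ideal.span_singleton_eq_bot.1 h1)
    have hxJ : x - c₀ ∈ mK K M * f :=
      Ideal.mul_le_left (show x - c₀ ∈ mK K M * f * b from hx)
    have hxm : x - c₀ ∈ mK K M := Ideal.mul_le_left hxJ
    have hxf : x - c₀ ∈ f := Ideal.mul_le_right hxJ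
    have hNx := (PsiP_cop h (Ideal.span {x}) hx0').2 hxM
    rw [Ideal.relNorm_singleton] at hNx
    have hper := h.per _ _ hNx hNc (by rw [hnc]; exact intNorm_cong M x c₀ hxm)
    have ha0 : a ≠ ⊥ := by
      rintro rfl
      apply hx0
      rw [← Ideal.span_singleton_eq_bot, ← hab]
      exact zero_mul b
    have haf : IsCoprime a f := by
      have h1 : IsCoprime (a * b) f := by rw [hab]; exact hxc.of_mul_right_right
      exact h1.of_mul_left_left
    have hPx : PsiP K ψ (Ideal.span {x}) * B = A * (starRingEnd ℂ) (embF F (Algebra.norm F (x : K))) := by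
      rw [PsiP_apply, Ideal.relNorm_singleton, hA, hB, PT2_norm, ← map_mul, ← map_mul, ← map_mul,
        ← map_mul, hper]
    have hPa : PsiP K ψ a = A / (B * PsiP K ψ b) *
        (starRingEnd ℂ) (embF F (Algebra.norm F (x : K))) := by
      have h1 : PsiP K ψ a * PsiP K ψ b = PsiP K ψ (Ideal.span {x}) := by rw [← map_mul, hab]
      rw [div_mul_eq_mul_div, ← hPx, ← h1, eq_div_iff (mul_ne_zero hB0 hPb)]
      ring
    have hχa : χ a = χ (Ideal.span {c₀}) * (χ b)⁻¹ := by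
      have h1 : χ a * χ b = χ (Ideal.span {x}) := by rw [← map_mul, hab]
      rw [hχ.per x c₀ hx0 hc0 hxc.of_mul_right_right hxf] at h1
      rw [← h1, mul_assoc, mul_inv_cancel₀ hχb0, mul_one]
    refine ⟨hx0, ?_, ?_⟩
    · show PsiP K ψ a * χ a = _
      rw [hPa, hχa]
      ring
    · show PsiP K ψ a * oneI f a = _
      have h1 : oneI f a = 1 := if_pos ⟨ha0, haf⟩
      rw [hPa, h1, mul_one]

end H55P
end

-- from Lib.H55P.T6
section

open NumberField IsDedekindDomain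

namespace H55P

open H55N
open H55B (g)

variable {F : Type} [Field F] [NumberField F] [IQ F] {K : Type} [Field K] [NumberField K]
  [Algebra F K] {m : ℕ}

/-! Chunk PT6 (S/M). Ports: one_sumP of one_sum (Lib/H55N/TW2.lean; TW2_coprime is reusable), P_neP of P_ne (Lib/H55N/TW3.lean: |q Ψ(c) χ(c) q^(-s)| = q^(3/2 - Re s) > 1 or the value is 0), factorP: 1 - q tm(Ψχ) 1 c = 1 - Ψ(c) χ(c) =
(1 - Ψ(c)) - Ψ(c)(χ(c) - 1), and V(χ(c) - 1) < 1 (root_max) or χ(c) = 0. EfacP: if Ψ(w) <> 0: tm Ψ 1 w = Ψ(w)/absNorm w = 1/conj(Ψ(w)) (PsiP_norm), 1 - 1/c = (c - 1)/c, V(c) = 1. root_max: ζ^p = 1 implies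
(ζ - 1)^p in p Z[ζ]: (ζ-1)^p = ζ^p - 1 + p(..) (add_pow_char style: exists_add_pow_prime_eq), ζ in V, so V(ζ-1)^p <= V(p) < 1. pow_max: x in V: V(1 - x) = 1 iff V(1 - x^(p^j)) = 1 (Frobenius of the residue field: (1-x)^(p^j) = 1 - x^(p^j) modulo p). -/

theorem pt6_le {V : ValuationSubring ℂ} {x : ℂ} {n : ℕ} (hn : n ≠ 0)
    (h : V.valuation x ^ n = 1) : V.valuation x = 1 := by
  rcases lt_trichotomy (V.valuation x) 1 with h1 | h1 | h1
  · exact absurd h (ne_of_lt (pow_lt_one₀ zero_le h1 hn))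
  · exact h1
  · exact absurd h (ne_of_gt (one_lt_pow₀ h1 hn))

theorem pt6_pow (p : ℕ) (hp : p.Prime) (V : ValuationSubring ℂ) (x : ℂ) (hx : V.valuation x ≤ 1) :
    ∃ r : ℂ, V.valuation r ≤ 1 ∧ (x + 1) ^ p = x ^ p + 1 + p * r := by
  have hx' : x ∈ V := (ValuationSubring.valuation_le_one_iff V x).1 hx
  obtain ⟨r, hr⟩ := exists_add_pow_prime_eq hp (⟨x, hx'⟩ : V) 1
  refine ⟨x * r, ?_, ?_⟩
  · rw [map_mul]
    exact mul_le_one' hx ((ValuationSubring.valuation_le_one_iff V _).2 r.2)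
  · have h1 := congrArg (fun z : V => (z : ℂ)) hr
    simp only [one_pow, mul_one] at h1
    have h2 : (((⟨x, hx'⟩ + 1) ^ p : V) : ℂ) = (x + 1) ^ p := rfl
    have h3 : (((⟨x, hx'⟩ : V) ^ p + 1 + (p : V) * (⟨x, hx'⟩ : V) * r : V) : ℂ) =
        x ^ p + 1 + ((p : V) : ℂ) * x * r := rfl
    have h4 : ((p : V) : ℂ) = (p : ℂ) := by
      exact map_natCast V.subtype p
    rw [h2, h3, h4] at h1
    rw [h1, mul_assoc]

theorem root_max (p : ℕ) (hp : p.Prime) (V : ValuationSubring ℂ) (hV : V.valuation (p : ℂ) < 1) (ζ : ℂ)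
    (h : ζ ^ p = 1) : V.valuation (ζ - 1) < 1 := by
  have h1 : V.valuation ζ = 1 := by
    apply pt6_le hp.ne_zero
    rw [← map_pow, h, map_one]
  have h2 : V.valuation (ζ - 1) ≤ 1 :=
    (Valuation.map_sub _ _ _).trans (max_le h1.le (by rw [map_one]))
  obtain ⟨r, hr, h3⟩ := pt6_pow p hp V (ζ - 1) h2
  rw [sub_add_cancel, h] at h3
  have h4 : (ζ - 1) ^ p = -(p * r) := by linear_combination -h3
  by_contra hcon
  have h5 : V.valuation (ζ - 1) = 1 := le_antisymm h2 (not_lt.1 hcon)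
  have h6 := congrArg V.valuation h4
  rw [map_pow, h5, one_pow, Valuation.map_neg, map_mul] at h6
  exact absurd h6.symm (ne_of_lt (lt_of_le_of_lt (mul_le_of_le_one_right' hr) hV))

theorem pt6_pow1 (p : ℕ) (hp : p.Prime) (V : ValuationSubring ℂ) (hV : V.valuation (p : ℂ) < 1) (x : ℂ)
    (hx : V.valuation x ≤ 1) (h : V.valuation (1 - x) = 1) : V.valuation (1 - x ^ p) = 1 := by
  have h1 : V.valuation (x - 1) = 1 := by rw [← h, Valuation.map_sub_swap]
  obtain ⟨r, hr, h3⟩ := pt6_pow p hp V (x - 1) h1.le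
  rw [sub_add_cancel] at h3
  have h4 : x ^ p - 1 = (p : ℂ) * r + (x - 1) ^ p := by rw [h3]; ring
  rw [Valuation.map_sub_swap, h4]
  have h5 : V.valuation ((x - 1) ^ p) = 1 := by rw [map_pow, h1, one_pow]
  have h6 : V.valuation ((p : ℂ) * r) < 1 := by
    rw [map_mul]
    exact lt_of_le_of_lt (mul_le_of_le_one_right' hr) hV
  rw [Valuation.map_add_eq_of_lt_right _ (by rw [h5]; exact h6), h5]

theorem pow_max (p : ℕ) (hp : p.Prime) (V : ValuationSubring ℂ) (hV : V.valuation (p : ℂ) < 1) (x : ℂ)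
    (hx : V.valuation x ≤ 1) (h : V.valuation (1 - x) = 1) (j : ℕ) : V.valuation (1 - x ^ p ^ j) = 1 := by
  induction j with
  | zero => rw [pow_zero, pow_one]; exact h
  | succ j ih =>
    rw [pow_succ, pow_mul]
    refine pt6_pow1 p hp V hV _ ?_ ih
    rw [map_pow]
    exact pow_le_one₀ zero_le hx

theorem one_sumP {M : Ideal (𝓞 F)} {ψ : Ideal (𝓞 F) →*₀ 𝓞 F} (h : IsHecke M ψ) (f : Ideal (𝓞 K))
    (hf : f ≠ ⊥) :
    ∃ S : Finset (HeightOneSpectrum (𝓞 K)), (∀ w, w ∈ S ↔ f ≤ w.asIdeal) ∧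
      ∀ s : ℂ, 3 / 2 < s.re →
        HasSum (tm (PsiP K ψ * oneI f : Ideal (𝓞 K) →*₀ ℂ) s)
          ((∏ w ∈ S, (1 - tm (PsiP K ψ) s w.asIdeal)) * ∑' a, tm (PsiP K ψ) s a) := by
  classical
  have hfin : {w : HeightOneSpectrum (𝓞 K) | w.asIdeal ∣ f}.Finite := Ideal.finite_factors hf
  have hS : ∀ w, w ∈ hfin.toFinset ↔ f ≤ w.asIdeal := by
    intro w
    rw [Set.Finite.mem_toFinset]
    exact Ideal.dvd_iff_le
  refine ⟨hfin.toFinset, hS, fun s hs => ?_⟩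
  set S := hfin.toFinset with hSd
  have hk : Summable fun a => ‖tmH (PsiP K ψ) s a‖ := tm_summable (PsiP K ψ) (PsiP_norm_le h) s hs
  have h1 := smooth_sum (tmH (PsiP K ψ) s) hk (fun w : S => w.1.asIdeal) (fun w => w.1.isPrime)
    (fun w => w.1.ne_bot) (fun w w' h => Subtype.ext (HeightOneSpectrum.ext h)) (fun _ => 1)
  have h2 : (∏ w : S, (1 - 1 * (tmH (PsiP K ψ) s) w.1.asIdeal)) =
      ∏ w ∈ S, (1 - tm (PsiP K ψ) s w.asIdeal) := by
    rw [← Finset.prod_coe_sort S]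
    refine Finset.prod_congr rfl fun w _ => ?_
    rw [one_mul]
    rfl
  rw [h2] at h1
  refine h1.congr_fun fun a => ?_
  have h3 : tm (PsiP K ψ * oneI f : Ideal (𝓞 K) →*₀ ℂ) s a = tmH (PsiP K ψ) s a * oneI f a := by
    show (PsiP K ψ a * oneI f a) * (Ideal.absNorm a : ℂ) ^ (-s) =
      (PsiP K ψ a * (Ideal.absNorm a : ℂ) ^ (-s)) * oneI f a
    ring
  rw [h3]
  by_cases ha : a = ⊥
  · rw [ha]
    have h4 : tmH (PsiP K ψ) s (⊥ : Ideal (𝓞 K)) = 0 := (tmH (PsiP K ψ) s).map_zero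
    rw [h4, zero_mul, zero_mul]
  · congr 1
    have h5 : oneI f a = if a ≠ ⊥ ∧ IsCoprime a f then 1 else 0 := rfl
    rw [h5]
    by_cases hc : IsCoprime a f
    · rw [if_pos ⟨ha, hc⟩]
      symm
      refine Finset.prod_eq_one fun w _ => ?_
      rw [if_neg ((TW2_coprime a f ha S hS).1 hc w.1 w.2)]
    · rw [if_neg (fun h => hc h.2)]
      rw [TW2_coprime a f ha S hS] at hc
      push Not at hc
      obtain ⟨w, hw, haw⟩ := hc
      symm
      refine Finset.prod_eq_zero (Finset.mem_univ (⟨w, hw⟩ : S)) ?_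
      rw [if_pos haw, sub_self]

theorem P_neP {M : Ideal (𝓞 F)} {ψ : Ideal (𝓞 F) →*₀ 𝓞 F} (h : IsHecke M ψ) (p : ℕ) (hp : p.Prime)
    (f : Ideal (𝓞 K)) (χ : Ideal (𝓞 K) →*₀ ℂ) (hχ : PChr p f χ) (c : Ideal (𝓞 K)) (q : ℕ) (hq : q.Prime)
    (hc : Ideal.absNorm c = q) (s : ℂ) (hs : s.re < 3 / 2) :
    1 - (q : ℂ) * tm (PsiP K ψ * χ : Ideal (𝓞 K) →*₀ ℂ) s c ≠ 0 := by
  have hp0 : (0 : ℝ) < q := by exact_mod_cast hq.pos
  have hp1 : (1 : ℝ) < q := by exact_mod_cast hq.one_lt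
  have hc0 : c ≠ ⊥ := by
    intro h
    rw [h, Ideal.absNorm_bot] at hc
    exact hq.ne_zero hc.symm
  intro hh
  have h1 : (q : ℂ) * tm (PsiP K ψ * χ : Ideal (𝓞 K) →*₀ ℂ) s c = 1 := by linear_combination -hh
  have h2 : tm (PsiP K ψ * χ : Ideal (𝓞 K) →*₀ ℂ) s c = PsiP K ψ c * χ c * (q : ℂ) ^ (-s) := by
    unfold tm
    rw [hc]
    rfl
  rw [h2] at h1
  have h3 : PsiP K ψ c ≠ 0 := by
    intro h0
    rw [h0] at h1
    simp at h1
  have h4 : χ c ≠ 0 := by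
    intro h0
    rw [h0] at h1
    simp at h1
  have h5 : ‖χ c‖ = 1 := by
    have hcop : IsCoprime c f := by
      by_contra hn
      exact h4 (hχ.zero c hn)
    have h9 := congrArg norm (hχ.val c hc0 hcop)
    rw [norm_pow, NormOneClass.norm_one] at h9
    exact (pow_eq_one_iff_of_nonneg (norm_nonneg _) hp.ne_zero).1 h9
  have h6 : ‖PsiP K ψ c‖ ^ 2 = q := by
    rw [PsiP_norm h c hc0 ((PsiP_ne h c hc0).1 h3), hc]
  have h7 : ‖PsiP K ψ c‖ = (q : ℝ) ^ (1 / 2 : ℝ) := by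
    rw [← Real.sqrt_eq_rpow, ← h6, Real.sqrt_sq (norm_nonneg _)]
  have h8 := congrArg norm h1
  rw [norm_mul, norm_mul, norm_mul, h5, h7, NormOneClass.norm_one, Complex.norm_natCast,
    Complex.norm_natCast_cpow_of_pos hq.pos, mul_one, Complex.neg_re] at h8
  have h9 : (q : ℝ) * ((q : ℝ) ^ (1 / 2 : ℝ) * (q : ℝ) ^ (-s.re)) = (q : ℝ) ^ (3 / 2 - s.re) := by
    have h11 : (3 / 2 - s.re) = 1 + (1 / 2 + -s.re) := by ring
    rw [h11, Real.rpow_add hp0, Real.rpow_add hp0, Real.rpow_one]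
  rw [h9] at h8
  have h10 : 1 < (q : ℝ) ^ (3 / 2 - s.re) := Real.one_lt_rpow hp1 (by linarith)
  rw [h8] at h10
  exact lt_irrefl _ h10

theorem factorP (p : ℕ) (hp : p.Prime) (V : ValuationSubring ℂ) (hV : V.valuation (p : ℂ) < 1)
    (ψ : Ideal (𝓞 F) →*₀ 𝓞 F) (χ : Ideal (𝓞 K) →*₀ ℂ) (c : Ideal (𝓞 K)) (q : ℕ) (hq : q.Prime)
    (hc : Ideal.absNorm c = q) (hu : V.valuation (1 - PsiP K ψ c) = 1) (hχ : χ c ^ p = 1 ∨ χ c = 0) :
    V.valuation (1 - (q : ℂ) * tm (PsiP K ψ * χ : Ideal (𝓞 K) →*₀ ℂ) 1 c) = 1 := by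
  have hq0 : (q : ℂ) ≠ 0 := by exact_mod_cast hq.ne_zero
  have h2 : (q : ℂ) * tm (PsiP K ψ * χ : Ideal (𝓞 K) →*₀ ℂ) 1 c = PsiP K ψ c * χ c := by
    have h1 : tm (PsiP K ψ * χ : Ideal (𝓞 K) →*₀ ℂ) 1 c = PsiP K ψ c * χ c * (q : ℂ) ^ (-1 : ℂ) := by
      unfold tm
      rw [hc]
      rfl
    rw [h1, Complex.cpow_neg_one]
    field_simp
  rw [h2]
  rcases hχ with h | h
  · have h3 : 1 - PsiP K ψ c * χ c = -(PsiP K ψ c * (χ c - 1)) + (1 - PsiP K ψ c) := by ring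
    rw [h3, Valuation.map_add_eq_of_lt_right, hu]
    rw [hu, Valuation.map_neg, map_mul]
    exact lt_of_le_of_lt (mul_le_of_le_one_left' (PsiP_int ψ c V).1) (root_max p hp V hV _ h)
  · rw [h, mul_zero, sub_zero, map_one]

theorem EfacP (p : ℕ) (hp : p.Prime) (V : ValuationSubring ℂ) (hV : V.valuation (p : ℂ) < 1)
    {M : Ideal (𝓞 F)} {ψ : Ideal (𝓞 F) →*₀ 𝓞 F} (h : IsHecke M ψ) (w : HeightOneSpectrum (𝓞 K))
    (hwp : IsCoprime w.asIdeal (Ideal.span {(p : 𝓞 K)}))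
    (hw : V.valuation (1 - (starRingEnd ℂ) (PsiP K ψ w.asIdeal)) = 1) :
    V.valuation (1 - tm (PsiP K ψ) 1 w.asIdeal) = 1 := by
  by_cases h0 : PsiP K ψ w.asIdeal = 0
  · unfold tm
    rw [h0, zero_mul, sub_zero, map_one]
  · have hcop := (PsiP_ne h w.asIdeal w.ne_bot).1 h0
    have hn := PsiP_norm h w.asIdeal w.ne_bot hcop
    have hu := PsiP_unit p hp h w.asIdeal w.ne_bot hcop hwp V hV
    have hc0 : (starRingEnd ℂ) (PsiP K ψ w.asIdeal) ≠ 0 := by
      rw [Ne, map_eq_zero]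
      exact h0
    have hN : (Ideal.absNorm w.asIdeal : ℂ) =
        PsiP K ψ w.asIdeal * (starRingEnd ℂ) (PsiP K ψ w.asIdeal) := by
      rw [Complex.mul_conj, Complex.normSq_eq_norm_sq, hn]
      push_cast
      rfl
    have h1 : 1 - tm (PsiP K ψ) 1 w.asIdeal =
        -((1 - (starRingEnd ℂ) (PsiP K ψ w.asIdeal)) / (starRingEnd ℂ) (PsiP K ψ w.asIdeal)) := by
      unfold tm
      rw [Complex.cpow_neg_one, hN]
      field_simp
      ring
    rw [h1, Valuation.map_neg, map_div₀, hw, hu.2, div_one]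

end H55P
end

-- from Lib.H55K.QD_T
section

/-! # H55K: part Q: definitions (Tamagawa numbers, minimal equations, the analytic order) -/

open NumberField IsDedekindDomain WeierstrassCurve

namespace H55K.TQ

open H55P (IQ embF eF LF Per IsHecke Pt ac Inert Dec Nm UnitP)
open H35P (WAB Ker tt GoodW IntW)
open H55K.MG (VC Crd)

section loc

variable {k : Type} [Field k]

/-- The valuation ring has finite residue rings modulo all nonzero elements. -/
def FinR (V : ValuationSubring k) : Prop :=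
  ∀ c : k, c ≠ 0 → ∃ S : Set k, S.Finite ∧ ∀ x ∈ V, ∃ z ∈ S, V.valuation (x - z) < V.valuation c

/-- The valuation has rank one. -/
def Arch (V : ValuationSubring k) : Prop :=
  ∀ b c : k, V.valuation b < 1 → c ≠ 0 → ∃ n : ℕ, V.valuation b ^ n < V.valuation c

/-- W becomes good at V after a change of variables over k. -/
def PG (W : WeierstrassCurve k) (V : ValuationSubring k) : Prop :=
  ∃ (W' : WeierstrassCurve k) (u r s t : k), VC W W' u r s t ∧ GoodW W' V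


end loc

section glob

variable (K : Type) [Field K] [NumberField K] (W : WeierstrassCurve K) (w : HeightOneSpectrum (𝓞 K))





end glob




end H55K.TQ
end

-- from Lib.H55P.T3
section

open NumberField IsDedekindDomain

namespace H55P

open H55N
open H55B (g)

variable {F : Type} [Field F] [NumberField F] [IQ F] {K : Type} [Field K] [NumberField K]
  [Algebra F K] {m : ℕ}

/-! Chunk PT3 (M). The series; PORT of term_eq (Lib/H55N/H15.lean; absNorm_spanF of H55P/N1.lean in place of absNorm_span) and of Coef, series_eq, series_eq0, coef_mul in Lib/H55N/TW.lean (TW_ne, TW_inj, cpow facts are reusable),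
with J = mK K M * f and CDJ in place of CD, cdj_hasSum in place of cd_hasSum. -/

/-- The hypotheses on the coefficients. -/
structure CoefP (F : Type) [Field F] [NumberField F] [IQ F] {K : Type} [Field K] [NumberField K]
    [Algebra F K] (J : Ideal (𝓞 K)) (ι : Type) (b : ι → Ideal (𝓞 K)) (c₀ : ι → 𝓞 K)
    (h : Ideal (𝓞 K) →*₀ ℂ) (κ : ι → ℂ) : Prop where
  sup : ∀ a, h a ≠ 0 → a ≠ ⊥ ∧ IsCoprime a J
  nrm : ∀ a, ‖h a‖ ^ 2 ≤ Ideal.absNorm a
  kap : ∀ i, ∀ x ∈ XS (J * b i) (c₀ i), ∀ a : Ideal (𝓞 K), a * b i = Ideal.span {x} →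
      x ≠ 0 ∧ h a = κ i * (starRingEnd ℂ) (embF F (Algebra.norm F (x : K)))

/-! General facts without the base field. -/

theorem pt3_ne {K : Type} [Field K] [NumberField K] {m : ℕ}
    {c : Fin (m + 1) × Fin 2 → Ideal (𝓞 K)} {p : Fin (m + 1) × Fin 2 → ℕ}
    (hs : Smooth c p) (i) : c i ≠ ⊥ := by
  intro h
  have h1 := hs.norm i
  rw [h, Ideal.absNorm_bot] at h1
  exact (hs.prime i).ne_zero h1.symm

theorem pt3_inj {K : Type} [Field K] [NumberField K] {m : ℕ}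
    {c : Fin (m + 1) × Fin 2 → Ideal (𝓞 K)} {p : Fin (m + 1) × Fin 2 → ℕ}
    (hs : Smooth c p) : Function.Injective c := by
  intro i j h
  apply hs.inj
  rw [← hs.norm i, ← hs.norm j, h]

open Classical in
theorem pt3_oneI_norm_le {K : Type} [Field K] [NumberField K] (f a : Ideal (𝓞 K)) :
    ‖oneI f a‖ ≤ 1 := by
  show ‖(if a ≠ ⊥ ∧ IsCoprime a f then (1 : ℂ) else 0)‖ ≤ 1
  split_ifs <;> simp

open Classical in
theorem pt3_oneI_zero {K : Type} [Field K] [NumberField K] (f a : Ideal (𝓞 K))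
    (h : ¬ IsCoprime a f) : oneI f a = 0 := by
  show (if a ≠ ⊥ ∧ IsCoprime a f then (1 : ℂ) else 0) = 0
  rw [if_neg fun h1 => h h1.2]

open Classical in
theorem pt3_oneI_eq {K : Type} [Field K] [NumberField K] (f a : Ideal (𝓞 K)) :
    oneI f a = 1 ∨ oneI f a = 0 := by
  show (if a ≠ ⊥ ∧ IsCoprime a f then (1 : ℂ) else 0) = 1 ∨
    (if a ≠ ⊥ ∧ IsCoprime a f then (1 : ℂ) else 0) = 0
  split_ifs <;> simp

theorem pt3_pow_analytic (n : ℕ) (hn : n ≠ 0) (U : Set ℂ) :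
    AnalyticOnNhd ℂ (fun s : ℂ => (n : ℂ) ^ s) U := by
  have h : (n : ℂ) ≠ 0 := Nat.cast_ne_zero.2 hn
  have h1 : (fun s : ℂ => (n : ℂ) ^ s) = fun s => Complex.exp (Complex.log n * s) := by
    funext s
    rw [Complex.cpow_def_of_ne_zero h]
  rw [h1]
  intro s _
  exact (analyticAt_const.mul analyticAt_id).cexp

theorem pt3_tm_analytic {K : Type} [Field K] [NumberField K] (h : Ideal (𝓞 K) → ℂ)
    (a : Ideal (𝓞 K)) (ha : a ≠ ⊥) (U : Set ℂ) :
    AnalyticOnNhd ℂ (fun s : ℂ => tm h s a) U := by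
  have hn : Ideal.absNorm a ≠ 0 := by
    rw [Ne, Ideal.absNorm_eq_zero_iff]
    exact ha
  have h : (Ideal.absNorm a : ℂ) ≠ 0 := Nat.cast_ne_zero.2 hn
  intro s _
  unfold tm
  have h1 : (fun s : ℂ => (Ideal.absNorm a : ℂ) ^ (-s)) =
      fun s => Complex.exp (Complex.log (Ideal.absNorm a : ℂ) * (-s)) := by
    funext s
    rw [Complex.cpow_def_of_ne_zero h]
  have h2 : AnalyticAt ℂ (fun s : ℂ => (Ideal.absNorm a : ℂ) ^ (-s)) s := by
    rw [h1]
    exact (analyticAt_const.mul analyticAt_id.neg).cexp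
  exact analyticAt_const.mul h2

open Classical in
theorem term_eqP {m : ℕ} (h : Ideal (𝓞 K) → ℂ) (κ : ℂ) (a b : Ideal (𝓞 K)) (x : 𝓞 K) (hx : x ≠ 0)
    (hab : a * b = Ideal.span {x})
    (hh : h a = κ * (starRingEnd ℂ) (embF F (Algebra.norm F (x : K)))) (s : ℂ) :
    tm h s a = κ * (Ideal.absNorm b : ℂ) ^ s * nf F s x ∧
    ∀ (c : Fin (m + 1) × Fin 2 → Ideal (𝓞 K)) (p : Fin (m + 1) × Fin 2 → ℕ),
      (∀ i, (c i).IsPrime) → (∀ i, IsCoprime b (c i)) →
      tm h s a * ∏ i, (if a ≤ c i then 1 - (p i : ℂ) else 1) =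
        κ * (Ideal.absNorm b : ℂ) ^ s * (gw c p x * nf F s x) := by
  have hx0 : Ideal.span {x} ≠ ⊥ := fun h => hx (Ideal.span_singleton_eq_bot.1 h)
  have ha0 : a ≠ ⊥ := by
    rintro rfl
    apply hx0
    rw [← hab]
    exact zero_mul b
  have hb0 : b ≠ ⊥ := by
    rintro rfl
    apply hx0
    rw [← hab]
    exact mul_zero a
  have hA : (0 : ℝ) < (Ideal.absNorm a : ℝ) := by
    have h1 : Ideal.absNorm a ≠ 0 := fun h => ha0 (Ideal.absNorm_eq_zero_iff.1 h)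
    exact_mod_cast Nat.pos_of_ne_zero h1
  have hB : (0 : ℝ) < (Ideal.absNorm b : ℝ) := by
    have h1 : Ideal.absNorm b ≠ 0 := fun h => hb0 (Ideal.absNorm_eq_zero_iff.1 h)
    exact_mod_cast Nat.pos_of_ne_zero h1
  have hAB : (Ideal.absNorm a : ℝ) * (Ideal.absNorm b : ℝ) =
      ‖embF F (Algebra.norm F (x : K))‖ ^ 2 := by
    have h1 := absNorm_spanF (F := F) x
    rw [← hab, map_mul, Nat.cast_mul] at h1
    exact h1
  set r : ℝ := ‖embF F (Algebra.norm F (x : K))‖ with hr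
  have hr0 : 0 < r := by
    have h1 : 0 ≤ r := norm_nonneg _
    have h2 : r ≠ 0 := by
      intro h3
      rw [h3] at hAB
      have : 0 < (Ideal.absNorm a : ℝ) * (Ideal.absNorm b : ℝ) := mul_pos hA hB
      rw [hAB] at this
      norm_num at this
    exact lt_of_le_of_ne h1 (Ne.symm h2)
  have hlog : Real.log (Ideal.absNorm a : ℝ) = 2 * Real.log r - Real.log (Ideal.absNorm b : ℝ) := by
    have h1 := congrArg Real.log hAB
    rw [Real.log_mul hA.ne' hB.ne', Real.log_pow] at h1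
    push_cast at h1
    linarith
  have hkey : (Ideal.absNorm a : ℂ) ^ (-s) = (Ideal.absNorm b : ℂ) ^ s * (r : ℂ) ^ (-2 * s) := by
    have e1 : (Ideal.absNorm a : ℂ) = ((Ideal.absNorm a : ℝ) : ℂ) := by push_cast; rfl
    have e2 : (Ideal.absNorm b : ℂ) = ((Ideal.absNorm b : ℝ) : ℂ) := by push_cast; rfl
    rw [e1, e2, H15_cpow hA, H15_cpow hB, H15_cpow hr0, ← Complex.exp_add, hlog]
    congr 1
    push_cast
    ring
  have hmain : tm h s a = κ * (Ideal.absNorm b : ℂ) ^ s * nf F s x := by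
    unfold tm nf H55B.g
    rw [hh, hkey]
    ring
  refine ⟨hmain, fun c p hc hbc => ?_⟩
  have hprod : ∏ i, (if a ≤ c i then 1 - (p i : ℂ) else 1) = gw c p x := by
    unfold gw
    refine Finset.prod_congr rfl fun i _ => ?_
    have hiff : a ≤ c i ↔ x ∈ c i := by
      constructor
      · intro h1
        apply h1
        have h2 : x ∈ a * b := by rw [hab]; exact Ideal.mem_span_singleton_self x
        exact Ideal.mul_le_left h2
      · intro h1
        have h2 : a * b ≤ c i := by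
          rw [hab, Ideal.span_singleton_le_iff_mem]
          exact h1
        rcases (hc i).mul_le.1 h2 with h3 | h3
        · exact h3
        · exfalso
          have h4 := Ideal.isCoprime_iff_sup_eq.1 (hbc i)
          rw [sup_eq_right.2 h3] at h4
          exact (hc i).ne_top h4
    by_cases h1 : a ≤ c i
    · rw [if_pos h1, if_pos (hiff.1 h1)]
    · rw [if_neg h1, if_neg fun h2 => h1 (hiff.2 h2)]
  rw [hprod, hmain]
  ring

theorem series_eqP {J g : Ideal (𝓞 K)} (hgJ : g ≤ J) (hJ1 : J ≠ ⊤) {ι : Type} [Fintype ι]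
    {b : ι → Ideal (𝓞 K)} {c₀ : ι → 𝓞 K}
    {T : ι → Set (𝓞 K)} (hcd : CDJ J g ι b c₀ T) {h : Ideal (𝓞 K) →*₀ ℂ} {κ : ι → ℂ}
    (hc : CoefP F J ι b c₀ h κ) {m : ℕ} {c : Fin (m + 1) × Fin 2 → Ideal (𝓞 K)}
    {p : Fin (m + 1) × Fin 2 → ℕ} (hs : Smooth c p) (hcp : ∀ i, (c i).IsPrime)
    (hbc : ∀ i j, IsCoprime (b i) (c j)) (Z : ι → ℂ → ℂ) (s : ℂ) (hre : 3 / 2 < s.re)
    (hZ : ∀ i, HasSum (fun x : T i => gw c p x * nf F s (x : 𝓞 K)) (Z i s)) :
    (∏ i, (1 - (p i : ℂ) * tm h s (c i))) * ∑' a, tm h s a =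
      ∑ i, κ i * (Ideal.absNorm (b i) : ℂ) ^ s * Z i s := by
  classical
  have hsum : Summable fun a => ‖tmH h s a‖ := tm_summable h hc.nrm s hre
  have h1 := smooth_sum (tmH h s) hsum c hcp (pt3_ne hs) (pt3_inj hs) (fun i => (p i : ℂ))
  have h2 := cdj_hasSum J g hgJ hJ1 ι b c₀ T hcd
    (fun a => tmH h s a * ∏ i, (if a ≤ c i then 1 - (p i : ℂ) else 1))
    (by
      intro a ha
      have : h a ≠ 0 := by
        intro h0
        apply ha
        show tm h s a * _ = 0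
        unfold tm
        rw [h0, zero_mul, zero_mul]
      exact hc.sup a this)
    (fun i x => κ i * (Ideal.absNorm (b i) : ℂ) ^ s * (gw c p x * nf F s x))
    (by
      intro i x hx a ha
      obtain ⟨hx0, hh⟩ := hc.kap i x ((hcd.trans i).sub hx) a ha
      have h3 := (term_eqP (m := m) h (κ i) a (b i) x hx0 ha hh s).2 c p hcp (fun j => hbc i j)
      rw [← h3]
      show tm h s a * _ = _
      congr 1)
    (fun i => κ i * (Ideal.absNorm (b i) : ℂ) ^ s * Z i s)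
    (fun i => (hZ i).mul_left _)
  exact h1.unique (by convert h2)

theorem series_eq0P {J g : Ideal (𝓞 K)} (hgJ : g ≤ J) (hJ1 : J ≠ ⊤) {ι : Type} [Fintype ι]
    {b : ι → Ideal (𝓞 K)}
    {c₀ : ι → 𝓞 K} {T : ι → Set (𝓞 K)} (hcd : CDJ J g ι b c₀ T) {h : Ideal (𝓞 K) →*₀ ℂ} {κ : ι → ℂ}
    (hc : CoefP F J ι b c₀ h κ) (Z : ι → ℂ → ℂ) (s : ℂ)
    (hZ : ∀ i, HasSum (fun x : T i => nf F s (x : 𝓞 K)) (Z i s)) :
    HasSum (tm h s) (∑ i, κ i * (Ideal.absNorm (b i) : ℂ) ^ s * Z i s) := by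
  classical
  exact cdj_hasSum J g hgJ hJ1 ι b c₀ T hcd (tm h s)
    (by
      intro a ha
      have : h a ≠ 0 := by
        intro h0
        apply ha
        unfold tm
        rw [h0, zero_mul]
      exact hc.sup a this)
    (fun i x => κ i * (Ideal.absNorm (b i) : ℂ) ^ s * nf F s x)
    (by
      intro i x hx a ha
      obtain ⟨hx0, hh⟩ := hc.kap i x ((hcd.trans i).sub hx) a ha
      exact (term_eqP (m := 0) h (κ i) a (b i) x hx0 ha hh s).1)
    (fun i => κ i * (Ideal.absNorm (b i) : ℂ) ^ s * Z i s)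
    (fun i => (hZ i).mul_left _)

theorem coef_mulP {M : Ideal (𝓞 F)} {ψ : Ideal (𝓞 F) →*₀ 𝓞 F} (hH : IsHecke M ψ)
    {f : Ideal (𝓞 K)} {ι : Type} {b : ι → Ideal (𝓞 K)} {c₀ : ι → 𝓞 K}
    {χ : Ideal (𝓞 K) →*₀ ℂ} {κ : ι → ℂ} (h0 : ∀ a, ¬ IsCoprime a f → χ a = 0)
    (h1 : ∀ a, ‖χ a‖ ≤ 1)
    (hk : ∀ i, ∀ x ∈ XS (mK K M * f * b i) (c₀ i), ∀ a : Ideal (𝓞 K),
      a * b i = Ideal.span {x} →
        x ≠ 0 ∧ (PsiP K ψ * χ) a = κ i * (starRingEnd ℂ) (embF F (Algebra.norm F (x : K)))) :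
    CoefP F (mK K M * f) ι b c₀ (PsiP K ψ * χ) κ where
  sup a ha := by
    have ha' : PsiP K ψ a * χ a ≠ 0 := ha
    have hPsi : PsiP K ψ a ≠ 0 := left_ne_zero_of_mul ha'
    have hchi : χ a ≠ 0 := right_ne_zero_of_mul ha'
    have hne : a ≠ ⊥ := by
      rintro rfl
      exact hchi (map_zero χ)
    refine ⟨hne, IsCoprime.mul_right ((PsiP_ne hH a hne).1 hPsi) ?_⟩
    by_contra h
    exact hchi (h0 a h)
  nrm a := by
    show ‖PsiP K ψ a * χ a‖ ^ 2 ≤ _
    rw [norm_mul, mul_pow]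
    have h2 := PsiP_norm_le (K := K) hH a
    have h3 : ‖χ a‖ ^ 2 ≤ 1 := pow_le_one₀ (norm_nonneg _) (h1 a)
    calc ‖PsiP K ψ a‖ ^ 2 * ‖χ a‖ ^ 2 ≤ ‖PsiP K ψ a‖ ^ 2 * 1 :=
          mul_le_mul_of_nonneg_left h3 (by positivity)
      _ = ‖PsiP K ψ a‖ ^ 2 := mul_one _
      _ ≤ _ := h2
  kap := hk

end H55P
end

-- from Lib.H55P.R2
section

open NumberField IsDedekindDomain

namespace H55P

open H55N
open H55B (g)

variable {F : Type} [Field F] [NumberField F] [IQ F] {K : Type} [Field K] [NumberField K] [Algebra F K] {m : ℕ}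

/-! Chunk R2 (M/L). Existence of regularised sums, for h Good with weight bl = prod_k (1+|Tr(A_k x)|)^(-1) and gains gl. Index set I = Fin (m+1) x Fin 2.
The family h cut_{B,R}, R >= 1, is Good with weight bl and gains gl: Good.mul of hh (constant in the parameter) and good_cut (gains gs <= C gl: gs_le_gl, Good.mono; weight
1: SV.one), sv_bl, sv_gl. For S = univ: |D(h cut_R)(x)| <= C bl(x) prod_{i in I} gl_i(x) = C prod_k (1+|Tr(A_k x)|)^(-3) (two i for each k), summable over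
X (sum_l with r = 3; Dirs.int, Dirs.ind). By GSpec and summable_cut: sum_X g h cut_R = sum_X G D(h cut_R), and D(h cut_R)(x) -> D h(x) as R -> infinity for fixed x
(finite sum, cut_tendsto). Dominated convergence: tendsto_tsum_of_dominated_convergence. h is bounded on X: S = empty, bl <= 1.
R3: the same with pcut (good_pcut) instead of cut; g h pcut_R is absolutely summable over X: |h| <= C bl, pcut_R <= C_R prod_k (1+|Tr|)^(-2). -/

theorem R2_prod (D : Ctx F K m) (A : Fin (m + 1) → K) (x : 𝓞 K) :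
    D.bl A x * ∏ i : Fin (m + 1) × Fin 2, D.gl A i x =
      ∏ k, (1 + ‖D.Tr (A k) x‖) ^ (-(3 : ℝ)) := by
  have h1 : ∏ i : Fin (m + 1) × Fin 2, D.gl A i x =
      ∏ k : Fin (m + 1), ((1 + ‖D.Tr (A k) x‖)⁻¹ * (1 + ‖D.Tr (A k) x‖)⁻¹) := by
    rw [Fintype.prod_prod_type]
    refine Finset.prod_congr rfl fun k _ => ?_
    rw [Fin.prod_univ_two]
    rfl
  rw [h1]
  unfold Ctx.bl
  rw [← Finset.prod_mul_distrib]
  refine Finset.prod_congr rfl fun k _ => ?_
  have h2 : 0 < 1 + ‖D.Tr (A k) x‖ := by positivity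
  rw [Real.rpow_neg h2.le, show (3 : ℝ) = ((3 : ℕ) : ℝ) by norm_num, Real.rpow_natCast]
  field_simp

theorem R2_summable (D : Ctx F K m) (hD : D.Ok) (A : Fin (m + 1) → K)
    (w : Fin (m + 1) × Fin 2 → 𝓞 K) (hdir : D.Dirs A w) :
    Summable fun x : D.X => D.bl A x * ∏ i : Fin (m + 1) × Fin 2, D.gl A i x := by
  have h := sum_l D hD.emb D.X A hdir.ind hdir.int 3 (by norm_num)
  exact h.congr fun x => (R2_prod D A x).symm

theorem R2_bl_nonneg (D : Ctx F K m) (A : Fin (m + 1) → K) (x : 𝓞 K) : 0 ≤ D.bl A x := by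
  unfold Ctx.bl
  positivity

theorem R2_gl_nonneg (D : Ctx F K m) (A : Fin (m + 1) → K) (i : Fin (m + 1) × Fin 2) (x : 𝓞 K) :
    0 ≤ D.gl A i x := by
  unfold Ctx.gl
  positivity

theorem R2_bl_le (D : Ctx F K m) (A : Fin (m + 1) → K) (x : 𝓞 K) : D.bl A x ≤ 1 := by
  unfold Ctx.bl
  apply Finset.prod_le_one
  · intro k _
    positivity
  · intro k _
    apply inv_le_one_of_one_le₀
    have := norm_nonneg (D.Tr (A k) x)
    linarith

theorem R2_stab (D : Ctx F K m) (A : Fin (m + 1) → K)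
    (w : Fin (m + 1) × Fin 2 → 𝓞 K) (hdir : D.Dirs A w) : ∀ x ∈ D.X, ∀ i, x - w i ∈ D.X :=
  fun _ hx i => D.X_sub hx (hdir.mem i)

/-- Summability of the differences. -/
theorem R2_sumD (D : Ctx F K m) (hD : D.Ok) (A : Fin (m + 1) → K)
    (w : Fin (m + 1) × Fin 2 → 𝓞 K) (hdir : D.Dirs A w) (G : 𝓞 K → ℂ) (hG : D.GSpec w G)
    (h : 𝓞 K → ℂ) (hh : Good D.X w (D.gl A) (fun (_ : Unit) x => D.bl A x) (fun _ => h)) :
    Summable fun x : D.X => ‖G x * Dif w Finset.univ h x‖ := by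
  obtain ⟨C, hC⟩ := hh
  obtain ⟨CG, hCG⟩ := hG.1
  have h1 := (R2_summable D hD A w hdir).mul_left (|CG| * |C|)
  refine Summable.of_nonneg_of_le (fun x => norm_nonneg _) (fun x => ?_) h1
  rw [norm_mul]
  have hp : 0 ≤ ∏ i : Fin (m + 1) × Fin 2, D.gl A i x :=
    Finset.prod_nonneg fun i _ => R2_gl_nonneg D A i x
  have h2 : ‖Dif w Finset.univ h x‖ ≤ |C| * (D.bl A x * ∏ i : Fin (m + 1) × Fin 2, D.gl A i x) := by
    refine (hC () Finset.univ x x.2).trans ?_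
    rw [mul_assoc]
    exact mul_le_mul_of_nonneg_right (le_abs_self C) (mul_nonneg (R2_bl_nonneg D A x) hp)
  calc ‖G x‖ * ‖Dif w Finset.univ h x‖
      ≤ |CG| * (|C| * (D.bl A x * ∏ i : Fin (m + 1) × Fin 2, D.gl A i x)) :=
        mul_le_mul ((hCG x).trans (le_abs_self _)) h2 (norm_nonneg _) (abs_nonneg _)
    _ = _ := by ring

/-- The limit for a family of cutoff functions. -/
theorem R2_lim (D : Ctx F K m) (hD : D.Ok) (A : Fin (m + 1) → K)
    (w : Fin (m + 1) × Fin 2 → 𝓞 K) (hdir : D.Dirs A w) (G : 𝓞 K → ℂ) (hG : D.GSpec w G)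
    (h : 𝓞 K → ℂ) (hh : Good D.X w (D.gl A) (fun (_ : Unit) x => D.bl A x) (fun _ => h))
    (ψ : ℝ → 𝓞 K → ℝ)
    (h1 : Good D.X w (D.gl A) (fun (_ : {R : ℝ // 1 ≤ R}) _ => (1 : ℝ))
      (fun q x => (ψ q.1 x : ℂ)))
    (h2 : ∀ x, Filter.Tendsto (fun R : ℝ => (ψ R x : ℂ)) Filter.atTop (nhds 1))
    (h3 : ∀ R : ℝ, 1 ≤ R → Summable fun x : D.X => ‖h x * (ψ R x : ℂ)‖) :
    Filter.Tendsto (fun R : ℝ => ∑' x : D.X, D.g x * h x * (ψ R x : ℂ)) Filter.atTop
      (nhds (∑' x : D.X, G x * Dif w Finset.univ h x)) := by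
  obtain ⟨CG, hCG⟩ := hG.1
  have hh' : Good D.X w (D.gl A) (fun (_ : {R : ℝ // 1 ≤ R}) x => D.bl A x) (fun _ => h) := by
    obtain ⟨C, hC⟩ := hh
    exact ⟨C, fun q S x hx => hC () S x hx⟩
  obtain ⟨C, hC⟩ := Good.mul (R2_stab D A w hdir) (sv_gl D A w) (sv_bl D A w) SV.one hh' h1
  have hev : (fun R : ℝ => ∑' x : D.X, G x * Dif w Finset.univ (fun y => h y * (ψ R y : ℂ)) x)
      =ᶠ[Filter.atTop] fun R : ℝ => ∑' x : D.X, D.g x * h x * (ψ R x : ℂ) := by
    filter_upwards [Filter.eventually_ge_atTop (1 : ℝ)] with R hR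
    have := hG.2 (fun y => h y * (ψ R y : ℂ)) (h3 R hR)
    rw [← this]
    exact tsum_congr fun x => (mul_assoc _ _ _).symm
  refine Filter.Tendsto.congr' hev ?_
  refine tendsto_tsum_of_dominated_convergence
    (bound := fun x : D.X => (|CG| * |C|) *
      (D.bl A x * ∏ i : Fin (m + 1) × Fin 2, D.gl A i x)) ?_ ?_ ?_
  · exact (R2_summable D hD A w hdir).mul_left _
  · intro x
    refine Filter.Tendsto.const_mul _ ?_
    unfold Dif
    refine tendsto_finsetSum _ fun T _ => ?_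
    refine Filter.Tendsto.const_mul _ ?_
    have h4 := (h2 (x.1 - ∑ i ∈ T, w i)).const_mul (h (x.1 - ∑ i ∈ T, w i))
    rw [mul_one] at h4
    exact h4
  · filter_upwards [Filter.eventually_ge_atTop (1 : ℝ)] with R hR
    intro x
    rw [norm_mul]
    have hp : 0 ≤ ∏ i : Fin (m + 1) × Fin 2, D.gl A i x :=
      Finset.prod_nonneg fun i _ => R2_gl_nonneg D A i x
    have h5 : ‖Dif w Finset.univ (fun y => h y * (ψ R y : ℂ)) x‖ ≤
        |C| * (D.bl A x * ∏ i : Fin (m + 1) × Fin 2, D.gl A i x) := by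
      refine (hC ⟨R, hR⟩ Finset.univ x x.2).trans ?_
      change C * (D.bl A x * 1) * ∏ i : Fin (m + 1) × Fin 2, D.gl A i x ≤ _
      rw [mul_one, mul_assoc]
      exact mul_le_mul_of_nonneg_right (le_abs_self C) (mul_nonneg (R2_bl_nonneg D A x) hp)
    calc ‖G x‖ * ‖Dif w Finset.univ (fun y => h y * (ψ R y : ℂ)) x‖
        ≤ |CG| * (|C| * (D.bl A x * ∏ i : Fin (m + 1) × Fin 2, D.gl A i x)) :=
          mul_le_mul ((hCG x).trans (le_abs_self _)) h5 (norm_nonneg _) (abs_nonneg _)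
      _ = _ := by ring

theorem R2_bdd (D : Ctx F K m) (A : Fin (m + 1) → K)
    (w : Fin (m + 1) × Fin 2 → 𝓞 K)
    (h : 𝓞 K → ℂ) (hh : Good D.X w (D.gl A) (fun (_ : Unit) x => D.bl A x) (fun _ => h)) :
    ∃ C : ℝ, 0 ≤ C ∧ ∀ x ∈ D.X, ‖h x‖ ≤ C * D.bl A x := by
  obtain ⟨C, hC⟩ := hh
  refine ⟨|C|, abs_nonneg C, fun x hx => ?_⟩
  have h1 := hC () ∅ x hx
  rw [dif_empty, Finset.prod_empty, mul_one] at h1
  exact h1.trans (mul_le_mul_of_nonneg_right (le_abs_self C) (R2_bl_nonneg D A x))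

theorem reg_of_good (D : Ctx F K m) (hD : D.Ok) (A : Fin (m + 1) → K)
    (w : Fin (m + 1) × Fin 2 → 𝓞 K) (hdir : D.Dirs A w) (G : 𝓞 K → ℂ) (hG : D.GSpec w G)
    (h : 𝓞 K → ℂ) (hh : Good D.X w (D.gl A) (fun (_ : Unit) x => D.bl A x) (fun _ => h)) :
    (Summable fun x : D.X => ‖G x * Dif w Finset.univ h x‖) ∧
      D.HasReg h (∑' x : D.X, G x * Dif w Finset.univ h x) := by
  refine ⟨R2_sumD D hD A w hdir G hG h hh, ?_, ?_⟩
  · obtain ⟨C, hC0, hC⟩ := R2_bdd D A w h hh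
    refine ⟨C, fun x hx => (hC x hx).trans ?_⟩
    have := mul_le_mul_of_nonneg_left (R2_bl_le D A x) hC0
    linarith
  · intro B hB
    have hstab := R2_stab D A w hdir
    have h0 : (0 : 𝓞 K) ∉ D.X := fun h => D.X_ne hD.ne h rfl
    refine R2_lim D hD A w hdir G hG h hh (fun R x => D.cut B R x) ?_ ?_ ?_
    · have h1 := good_cut (P := {R : ℝ // 1 ≤ R}) D hD.emb w D.X hstab h0 B hB (fun q => q.1)
        (fun q => q.2)
      obtain ⟨C, hC0, _, hC⟩ := gs_le_gl D A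
      refine Good.mono h1 (fun i x _ => inv_nonneg.2 (D.sz_pos x).le) (max 1 C) (by positivity) ?_ ?_
      · intro q x _
        refine ⟨zero_le_one, ?_⟩
        rw [mul_one]
        exact le_max_left _ _
      · intro i x _
        exact (hC i x).trans (mul_le_mul_of_nonneg_right (le_max_right _ _)
          (R2_gl_nonneg D A i x))
    · exact fun x => cut_tendsto D B x
    · intro R hR
      refine summable_cut D hD h ?_ B hB R hR
      obtain ⟨C, hC0, hC⟩ := R2_bdd D A w h hh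
      refine ⟨C, fun x hx => (hC x hx).trans ?_⟩
      have := mul_le_mul_of_nonneg_left (R2_bl_le D A x) hC0
      linarith

theorem R2_pcut_tendsto (D : Ctx F K m) (A : Fin (m + 1) → K) (x : 𝓞 K) :
    Filter.Tendsto (fun R : ℝ => (D.pcut A R x : ℂ)) Filter.atTop (nhds 1) := by
  have h1 : ∀ c : ℝ, Filter.Tendsto (fun R : ℝ => R ^ 2 / (R ^ 2 + c)) Filter.atTop (nhds 1) := by
    intro c
    have h2 : Filter.Tendsto (fun R : ℝ => (1 + c / R ^ 2)⁻¹) Filter.atTop (nhds 1) := by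
      have h3 : Filter.Tendsto (fun R : ℝ => c / R ^ 2) Filter.atTop (nhds 0) :=
        Filter.Tendsto.const_div_atTop (Filter.tendsto_pow_atTop (by norm_num)) c
      have h4 := (h3.const_add 1).inv₀ (by norm_num)
      simpa using h4
    refine h2.congr' ?_
    filter_upwards [Filter.eventually_gt_atTop (0 : ℝ)] with R hR
    have hR2 : R ^ 2 ≠ 0 := by positivity
    rw [show 1 + c / R ^ 2 = (R ^ 2 + c) / R ^ 2 by field_simp, inv_div]
  have h5 : Filter.Tendsto (fun R : ℝ => D.pcut A R x) Filter.atTop (nhds 1) := by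
    unfold Ctx.pcut
    have h6 := tendsto_finsetProd (Finset.univ : Finset (Fin (m + 1)))
      (fun k _ => h1 (‖D.Tr (A k) x‖ ^ 2))
    simpa using h6
  have h7 := (Complex.continuous_ofReal.tendsto 1).comp h5
  rw [Complex.ofReal_one] at h7
  exact h7

theorem R2_pcut_le (D : Ctx F K m) (A : Fin (m + 1) → K) (R : ℝ) (hR : 1 ≤ R) (x : 𝓞 K) :
    0 ≤ D.pcut A R x ∧
      D.pcut A R x ≤ (2 * R ^ 2) ^ (m + 1) * ∏ i : Fin (m + 1) × Fin 2, D.gl A i x := by
  have hR0 : 0 < R := by linarith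
  constructor
  · unfold Ctx.pcut
    positivity
  · have h1 : ∏ i : Fin (m + 1) × Fin 2, D.gl A i x =
        ∏ k : Fin (m + 1), ((1 + ‖D.Tr (A k) x‖)⁻¹ * (1 + ‖D.Tr (A k) x‖)⁻¹) := by
      rw [Fintype.prod_prod_type]
      refine Finset.prod_congr rfl fun k _ => ?_
      rw [Fin.prod_univ_two]
      rfl
    rw [h1]
    unfold Ctx.pcut
    have h2 : (2 * R ^ 2) ^ (m + 1) = ∏ _k : Fin (m + 1), (2 * R ^ 2) := by
      rw [Finset.prod_const, Finset.card_univ, Fintype.card_fin]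
    rw [h2, ← Finset.prod_mul_distrib]
    apply Finset.prod_le_prod
    · intro k _
      positivity
    · intro k _
      have h3 := norm_nonneg (D.Tr (A k) x)
      have h4 : 0 < 1 + ‖D.Tr (A k) x‖ := by positivity
      have hR1 : 1 ≤ R ^ 2 := by nlinarith
      rw [← mul_inv, ← div_eq_mul_inv, div_le_div_iff₀ (by positivity) (by positivity)]
      have h5 : (1 + ‖D.Tr (A k) x‖) * (1 + ‖D.Tr (A k) x‖) ≤
          2 * (R ^ 2 + ‖D.Tr (A k) x‖ ^ 2) := by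
        nlinarith [sq_nonneg (1 - ‖D.Tr (A k) x‖)]
      calc R ^ 2 * ((1 + ‖D.Tr (A k) x‖) * (1 + ‖D.Tr (A k) x‖))
          ≤ R ^ 2 * (2 * (R ^ 2 + ‖D.Tr (A k) x‖ ^ 2)) :=
            mul_le_mul_of_nonneg_left h5 (by positivity)
        _ = _ := by ring

theorem pcut_of_good (D : Ctx F K m) (hD : D.Ok) (A : Fin (m + 1) → K)
    (w : Fin (m + 1) × Fin 2 → 𝓞 K) (hdir : D.Dirs A w) (G : 𝓞 K → ℂ) (hG : D.GSpec w G)
    (h : 𝓞 K → ℂ) (hh : Good D.X w (D.gl A) (fun (_ : Unit) x => D.bl A x) (fun _ => h)) :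
    Filter.Tendsto (fun R : ℝ => ∑' x : D.X, D.g x * h x * (D.pcut A R x : ℂ)) Filter.atTop
      (nhds (∑' x : D.X, G x * Dif w Finset.univ h x)) := by
  have g1 : Good D.X w (D.gl A) (fun (_ : {R : ℝ // 1 ≤ R}) _ => (1 : ℝ))
      (fun q x => (D.pcut A q.1 x : ℂ)) :=
    good_pcut D A w hdir (fun q : {R : ℝ // 1 ≤ R} => q.1) (fun q => q.2)
  have g3 : ∀ R : ℝ, 1 ≤ R → Summable fun x : D.X => ‖h x * (D.pcut A R x : ℂ)‖ := by
    intro R hR
    obtain ⟨C, hC0, hC⟩ := R2_bdd D A w h hh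
    have h1 := (R2_summable D hD A w hdir).mul_left (C * (2 * R ^ 2) ^ (m + 1))
    refine Summable.of_nonneg_of_le (fun x => norm_nonneg _) (fun x => ?_) h1
    obtain ⟨h2, h3⟩ := R2_pcut_le D A R hR x
    rw [norm_mul, Complex.norm_real, Real.norm_eq_abs, abs_of_nonneg h2]
    calc ‖h x‖ * D.pcut A R x
        ≤ (C * D.bl A x) * ((2 * R ^ 2) ^ (m + 1) * ∏ i : Fin (m + 1) × Fin 2, D.gl A i x) :=
          mul_le_mul (hC x x.2) h3 h2 (mul_nonneg hC0 (R2_bl_nonneg D A x))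
      _ = _ := by ring
  exact R2_lim D hD A w hdir G hG h hh (fun R x => D.pcut A R x) g1
    (fun x => R2_pcut_tendsto D A x) g3

end H55P
end

-- from Lib.H55P.R7
section

open NumberField IsDedekindDomain

namespace H55P

open H55N
open H55B (g)

variable {F : Type} [Field F] [NumberField F] [IQ F] {K : Type} [Field K] [NumberField K] [Algebra F K] {m : ℕ}

/-! Chunk R7 (M). The cocycle identity for the regularised sums on a prism.
row_sum: sum_i σ_i(x) row(l)(x)_i = 1 for x in X, l = T t with t > 0 (Q_t(x) <> 0) or l = A (A_k) (Tr <> 0, Dirs.low).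
prism_cocycle: the m+2 entries of the prism are L(v_0)..L(v_i) (label A (A_k) or a positive T label) and positive T labels. For every j the m+1
entries left satisfy the assumptions of good_idet: κ(k) := the number j.succAbove k if it is <= i (then the label is L(v_(that number)), A (A_that) or T), otherwise
anything (the label is of type T); injective on the indices of type A because succAbove is injective. So HasReg (Idet ..) by reg_of_good with a G from gspec_exists;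
Jv_eq; the alternating sum of the Idet is 0 on X (det_cocycle); HasReg.sum, HasReg.smul, HasReg.congr, HasReg.unique with HasReg.zero. -/

theorem r7_Q_pos (D : Ctx F K m) (hE : Emb F D.σ) (t : Fin (m + 1) → ℝ) (ht : ∀ i, 0 < t i)
    (x : 𝓞 K) (hx : x ≠ 0) : 0 < D.Q t x := by
  obtain ⟨i0, hi0⟩ := Finite.exists_min t
  obtain ⟨c, hc, h⟩ := Q_low D hE (t i0) (ht i0)
  have h1 := h t hi0 x hx
  have h2 := D.sz_pos x
  have h3 : 0 < c * D.sz x ^ 2 := by positivity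
  linarith

theorem row_sum (D : Ctx F K m) (hD : D.Ok) (t : Fin (m + 1) → ℝ) (ht : ∀ i, 0 < t i) (x : 𝓞 K)
    (hx : x ∈ D.X) : ∑ i, D.σ i x * D.row (.T t) x i = 1 := by
  have hQ := r7_Q_pos D hD.emb t ht x (D.X_ne hD.ne hx)
  have hQ' : ((D.Q t x : ℝ) : ℂ) ≠ 0 := by exact_mod_cast hQ.ne'
  have h1 : ∀ i, D.σ i x * D.row (.T t) x i = ((t i * ‖D.σ i x‖ ^ 2 : ℝ) : ℂ) / (D.Q t x : ℂ) := by
    intro i
    show D.σ i x * ((starRingEnd ℂ) (D.σ i x) * t i / D.Q t x) = _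
    rw [mul_div_assoc', ← mul_assoc, Complex.mul_conj, Complex.normSq_eq_norm_sq]
    push_cast
    ring
  rw [Finset.sum_congr rfl fun i _ => h1 i, ← Finset.sum_div, ← Complex.ofReal_sum]
  exact div_self hQ'

theorem row_sum' (D : Ctx F K m) (a : K) (x : 𝓞 K) (hx : D.Tr a x ≠ 0) :
    ∑ i, D.σ i x * D.row (.A a) x i = 1 := by
  have h1 : ∀ i, D.σ i x * D.row (.A a) x i = D.σ i ((x : K) * a) / D.Tr a x := by
    intro i
    show D.σ i x * (D.σ i a / D.Tr a x) = _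
    rw [map_mul, mul_div_assoc]
  rw [Finset.sum_congr rfl fun i _ => h1 i, ← Finset.sum_div]
  exact div_self hx

theorem prism_cocycle {V : Type} (D : Ctx F K m) (hD : D.Ok) (A : Fin (m + 1) → K)
    (w : Fin (m + 1) × Fin 2 → 𝓞 K) (hdir : D.Dirs A w) (L L' : V → Lab K m) (v : ℕ → V)
    (hL : ∀ k : Fin (m + 1), L (v k) = .A (A k) ∨ ∃ t, L (v k) = .T t ∧ ∀ i, 0 < t i)
    (hL' : ∀ k ≤ m, ∃ t, L' (v k) = .T t ∧ ∀ i, 0 < t i) (i : ℕ) (hi : i ≤ m) :
    ∑ j : Fin (m + 2), (-1) ^ (j : ℕ) * D.Jv (fun k : Fin (m + 1) =>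
      prism L L' v i (j.succAbove k : Fin (m + 2))) = 0 := by
  obtain ⟨G, hG⟩ := gspec_exists D hD A w hdir
  -- the entries of the prism
  have hent : ∀ j : Fin (m + 2),
      (∃ t, prism L L' v i j = .T t ∧ ∀ i, 0 < t i) ∨
      ((j : ℕ) < m + 1 ∧ prism L L' v i j = .A (A (Fin.ofNat (m + 1) j))) := by
    intro j
    unfold prism
    by_cases hj : (j : ℕ) ≤ i
    · rw [if_pos hj]
      have hjm : (j : ℕ) < m + 1 := by omega
      have h1 := hL ⟨j, hjm⟩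
      rcases h1 with h1 | ⟨t, h1, h2⟩
      · right
        refine ⟨hjm, ?_⟩
        have : Fin.ofNat (m + 1) (j : ℕ) = ⟨j, hjm⟩ := by
          apply Fin.ext
          simp [Nat.mod_eq_of_lt hjm]
        rw [this]
        exact h1
      · left
        exact ⟨t, h1, h2⟩
    · rw [if_neg hj]
      left
      exact hL' ((j : ℕ) - 1) (by have := j.2; omega)
  set M : Fin (m + 2) → Lab K m := fun j => prism L L' v i j with hM
  set Lj : Fin (m + 2) → Fin (m + 1) → Lab K m := fun j k => M (j.succAbove k) with hLj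
  have hreg : ∀ j : Fin (m + 2), D.HasReg (D.Idet (Lj j)) (D.Jv (Lj j)) := by
    intro j
    have hgood := good_idet D hD A w hdir (Lj j)
      (fun k => Fin.ofNat (m + 1) (j.succAbove k : Fin (m + 2))) ?_ ?_ ?_
    · have h1 := (reg_of_good D hD A w hdir G hG _ hgood).2
      rw [Jv_eq D h1]
      exact h1
    · intro k t hk i'
      rcases hent (j.succAbove k) with ⟨t', h1, h2⟩ | ⟨_, h1⟩
      · have h3 : Lj j k = .T t' := h1
        rw [hk] at h3
        obtain rfl : t = t' := by injection h3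
        exact h2 i'
      · have h3 : Lj j k = .A _ := h1
        rw [hk] at h3
        exact absurd h3 (by simp)
    · intro k a hk
      rcases hent (j.succAbove k) with ⟨t', h1, h2⟩ | ⟨_, h1⟩
      · have h3 : Lj j k = .T t' := h1
        rw [hk] at h3
        exact absurd h3 (by simp)
      · have h3 : Lj j k = .A _ := h1
        rw [hk] at h3
        injection h3
    · have hlt : ∀ k, (∃ a, Lj j k = .A a) → ((j.succAbove k : Fin (m + 2)) : ℕ) < m + 1 := by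
        rintro k ⟨a, hk⟩
        rcases hent (j.succAbove k) with ⟨t', h1, h2⟩ | ⟨h4, h1⟩
        · have h3 : Lj j k = .T t' := h1
          rw [hk] at h3
          exact absurd h3 (by simp)
        · exact h4
      intro k hk k' hk' hkk
      have e1 := hlt k hk
      have e2 := hlt k' hk'
      have e3 := congrArg Fin.val hkk
      simp only [Fin.val_ofNat, Nat.mod_eq_of_lt e1, Nat.mod_eq_of_lt e2] at e3
      exact Fin.succAbove_right_injective (Fin.ext e3)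
  have h1 := HasReg.sum D hD Finset.univ
    (fun (j : Fin (m + 2)) x => (-1) ^ (j : ℕ) * D.Idet (Lj j) x)
    (fun (j : Fin (m + 2)) => (-1) ^ (j : ℕ) * D.Jv (Lj j))
    (fun j _ => HasReg.smul D (hreg j) ((-1) ^ (j : ℕ)))
  have h2 : ∀ x ∈ D.X, ∑ j : Fin (m + 2), (-1) ^ (j : ℕ) * D.Idet (Lj j) x = 0 := by
    intro x hx
    have h3 := det_cocycle (n := m + 1) (fun i => D.σ i x) (fun j i => D.row (M j) x i) ?_
    · exact h3
    · intro j
      rcases hent j with ⟨t, h4, h5⟩ | ⟨_, h4⟩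
      · have : M j = .T t := h4
        rw [this]
        exact row_sum D hD t h5 x hx
      · have : M j = .A (A (Fin.ofNat (m + 1) j)) := h4
        rw [this]
        apply row_sum'
        intro h0
        have h6 := hdir.low x hx (Fin.ofNat (m + 1) j)
        rw [h0, norm_zero] at h6
        linarith
  have h3 := HasReg.congr D h1 h2
  exact HasReg.unique D h3 (HasReg.zero D)

end H55P
end

-- from Lib.H55P.R8
section

open NumberField IsDedekindDomain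

namespace H55P

open H55N
open H55B (g)

variable {F : Type} [Field F] [NumberField F] [IQ F] {K : Type} [Field K] [NumberField K] [Algebra F K] {m : ℕ}

/-! Chunk R8 (M). The T labels. On X: Idet(T t_j)(x) = det(t_j(i)) conj(N x)/prod_j Q_{t_j}(x) (columns: conj(σ_i x); rows: 1/Q). conj N/prod_j Q_{t_j} is Good with
weight bl: it is a product over j of conj(σ_j x)/Q_{t_j}(x), i.e. Good with weights sz^(-1) (as in R4: B9, gs_le_gl). So
HasReg (conj N/prod Q) (Bv w G t) by reg_of_good; Jv_T: HasReg.smul, Jv_eq (HasReg.congr).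
Bv_cont: for t in a compact set a <= t <= b all bounds are uniform (parameter P = set of such t in good_row): |G D(conj N/prod Q_{t_j})(x)| <= C prod_k (1+|Tr(A_k x)|)^(-3),
summable, each term continuous in t (Q_t(y) > 0 for y in X): continuousOn_tsum on the open sets {a < t < b}, every point of the positive set has such a neighbourhood.
Jv_A: Idet(A A_k)(x) = det(σ_i(A_k)) prod_k Tr(A_k x)^(-1), the last product is Good with weight bl (good_tr, Good.prod). -/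

theorem r8_Q_pos (D : Ctx F K m) (hE : Emb F D.σ) (t : Fin (m + 1) → ℝ) (ht : ∀ i, 0 < t i)
    (x : 𝓞 K) (hx : x ≠ 0) : 0 < D.Q t x := by
  obtain ⟨i0, hi0⟩ := Finite.exists_min t
  obtain ⟨c, hc, h⟩ := Q_low D hE (t i0) (ht i0)
  have h1 := h t hi0 x hx
  have h2 := D.sz_pos x
  have h3 : 0 < c * D.sz x ^ 2 := by positivity
  linarith

/-- The function conj N / prod Q. -/
noncomputable def r8h (D : Ctx F K m) (t : Fin (m + 1) → Fin (m + 1) → ℝ) (x : 𝓞 K) : ℂ :=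
  (starRingEnd ℂ) (D.N x) / ∏ j, (D.Q (t j) x : ℂ)

theorem r8_factor (D : Ctx F K m) (hD : D.Ok) (A : Fin (m + 1) → K)
    (w : Fin (m + 1) × Fin 2 → 𝓞 K) (hdir : D.Dirs A w) {P : Type}
    (t : P → Fin (m + 1) → ℝ) (a b : ℝ) (ha : 0 < a) (ht : ∀ q i, a ≤ t q i ∧ t q i ≤ b)
    (k : Fin (m + 1)) :
    Good D.X w (D.gl A) (fun (_ : P) x => (1 + ‖D.Tr (A k) x‖)⁻¹)
      (fun q x => (starRingEnd ℂ) (D.σ k x) / (D.Q (t q) x : ℂ)) := by
  have h0 : (0 : 𝓞 K) ∉ D.X := fun h => D.X_ne hD.ne h rfl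
  have hX := R2_stab D A w hdir
  have hgs : ∀ (i : Fin (m + 1) × Fin 2), ∀ x ∈ D.X, 0 ≤ D.gs i x :=
    fun _ x _ => (inv_pos.mpr (D.sz_pos x)).le
  have hgl : ∀ (i : Fin (m + 1) × Fin 2), ∀ x ∈ D.X, 0 ≤ D.gl A i x :=
    fun i x _ => R2_gl_nonneg D A i x
  have h1 := good_row (P := P) D hD.emb w D.X hX h0 t a b ha ht k
  have h2 := Good.smul h1 hgs (fun _ x _ => (inv_pos.2 (D.sz_pos x)).le)
    (fun q => ((t q k : ℝ) : ℂ)⁻¹) a⁻¹ (fun q => by
      rw [norm_inv, Complex.norm_real, Real.norm_eq_abs, abs_of_pos (ha.trans_le (ht q k).1)]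
      exact inv_anti₀ ha (ht q k).1)
  obtain ⟨C, hC, hC1, hC2⟩ := gs_le_gl D A
  have h3 : (fun (q : P) (x : 𝓞 K) => (starRingEnd ℂ) (D.σ k x) / (D.Q (t q) x : ℂ)) =
      fun (q : P) (x : 𝓞 K) => ((t q k : ℝ) : ℂ)⁻¹ * D.row (.T (t q)) x k := by
    funext q x
    show _ = ((t q k : ℝ) : ℂ)⁻¹ * ((starRingEnd ℂ) (D.σ k x) * (t q k) / D.Q (t q) x)
    have : ((t q k : ℝ) : ℂ) ≠ 0 := by exact_mod_cast (ha.trans_le (ht q k).1).ne'
    field_simp
  rw [h3]
  refine Good.mono h2 hgs C hC.le (fun q x _ => ⟨(inv_pos.2 (D.sz_pos x)).le, hC1 x k⟩)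
    (fun i x _ => hC2 i x)

theorem r8_good (D : Ctx F K m) (hD : D.Ok) (A : Fin (m + 1) → K)
    (w : Fin (m + 1) × Fin 2 → 𝓞 K) (hdir : D.Dirs A w) {P : Type}
    (t : P → Fin (m + 1) → Fin (m + 1) → ℝ) (a b : ℝ) (ha : 0 < a)
    (ht : ∀ q j i, a ≤ t q j i ∧ t q j i ≤ b) :
    Good D.X w (D.gl A) (fun (_ : P) x => D.bl A x) (fun q => r8h D (t q)) := by
  have hX := R2_stab D A w hdir
  have h1 := Good.prod hX (sv_gl D A w) Finset.univ
    (fun k (_ : P) x => (1 + ‖D.Tr (A k) x‖)⁻¹)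
    (fun k (q : P) x => (starRingEnd ℂ) (D.σ k x) / (D.Q (t q k) x : ℂ))
    (fun k _ => SV.inv hX (sv_tr (P := P) D A w k))
    (fun k _ => r8_factor D hD A w hdir (fun q => t q k) a b ha (fun q i => ht q k i) k)
  have h2 : (fun (q : P) => r8h D (t q)) = fun (q : P) (x : 𝓞 K) =>
      ∏ k, ((starRingEnd ℂ) (D.σ k x) / (D.Q (t q k) x : ℂ)) := by
    funext q x
    unfold r8h Ctx.N
    rw [Finset.prod_div_distrib, map_prod]
  rw [h2]
  exact h1

theorem r8_idet (D : Ctx F K m) (t : Fin (m + 1) → Fin (m + 1) → ℝ) (x : 𝓞 K) :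
    D.Idet (fun j => .T (t j)) x = ((Matrix.det (Matrix.of t) : ℝ) : ℂ) * r8h D t x := by
  have h1 : ((Matrix.det (Matrix.of t) : ℝ) : ℂ) =
      Matrix.det (Matrix.of fun j i => ((t j i : ℝ) : ℂ)) := by
    have := RingHom.map_det Complex.ofRealHom (Matrix.of t)
    exact this
  have h2 : D.Idet (fun j => .T (t j)) x = Matrix.det (Matrix.of fun j i : Fin (m + 1) =>
      ((D.Q (t j) x : ℂ))⁻¹ * (Matrix.of fun j i : Fin (m + 1) =>
        (starRingEnd ℂ) (D.σ i x) * (Matrix.of fun j i => ((t j i : ℝ) : ℂ)) j i) j i) := by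
    unfold Ctx.Idet
    congr 1
    ext j i
    show (starRingEnd ℂ) (D.σ i x) * (t j i) / D.Q (t j) x =
      ((D.Q (t j) x : ℂ))⁻¹ * ((starRingEnd ℂ) (D.σ i x) * (t j i : ℂ))
    rw [div_eq_inv_mul]
  rw [h2, Matrix.det_mul_column, Matrix.det_mul_row, ← h1]
  unfold r8h Ctx.N
  rw [Finset.prod_inv_distrib, map_prod]
  ring

theorem r8_reg (D : Ctx F K m) (hD : D.Ok) (A : Fin (m + 1) → K)
    (w : Fin (m + 1) × Fin 2 → 𝓞 K) (hdir : D.Dirs A w) (G : 𝓞 K → ℂ) (hG : D.GSpec w G)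
    (t : Fin (m + 1) → Fin (m + 1) → ℝ) (ht : ∀ j i, 0 < t j i) :
    D.HasReg (r8h D t) (D.Bv w G t) := by
  have hex : ∃ a b : ℝ, 0 < a ∧ ∀ j i, a ≤ t j i ∧ t j i ≤ b := by
    obtain ⟨p0, hp0⟩ := Finite.exists_min fun p : Fin (m + 1) × Fin (m + 1) => t p.1 p.2
    obtain ⟨p1, hp1⟩ := Finite.exists_max fun p : Fin (m + 1) × Fin (m + 1) => t p.1 p.2
    exact ⟨t p0.1 p0.2, t p1.1 p1.2, ht _ _, fun j i => ⟨hp0 (j, i), hp1 (j, i)⟩⟩
  obtain ⟨a, b, ha, hab⟩ := hex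
  have h1 := r8_good D hD A w hdir (fun (_ : Unit) => t) a b ha (fun _ => hab)
  exact (reg_of_good D hD A w hdir G hG _ h1).2

theorem reg_T (D : Ctx F K m) (hD : D.Ok) (A : Fin (m + 1) → K) (w : Fin (m + 1) × Fin 2 → 𝓞 K)
    (hdir : D.Dirs A w) (G : 𝓞 K → ℂ) (hG : D.GSpec w G) (t : Fin (m + 1) → Fin (m + 1) → ℝ)
    (ht : ∀ j i, 0 < t j i) :
    D.Jv (fun j => .T (t j)) = ((Matrix.det (Matrix.of t) : ℝ) : ℂ) * D.Bv w G t := by
  apply Jv_eq
  refine HasReg.congr D (HasReg.smul D (r8_reg D hD A w hdir G hG t ht)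
    ((Matrix.det (Matrix.of t) : ℝ) : ℂ)) fun x _ => ?_
  exact (r8_idet D t x).symm

theorem r8_cont (D : Ctx F K m) (hE : Emb F D.σ) (y : 𝓞 K) (hy : y ≠ 0) :
    ContinuousOn (fun t : Fin (m + 1) → Fin (m + 1) → ℝ => r8h D t y)
      {t | ∀ j i, 0 < t j i} := by
  unfold r8h
  apply ContinuousOn.div continuousOn_const
  · apply Continuous.continuousOn
    apply continuous_finsetProd
    intro j _
    apply Complex.continuous_ofReal.comp
    unfold Ctx.Q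
    fun_prop
  · intro t ht
    rw [Finset.prod_ne_zero_iff]
    intro j _
    exact_mod_cast (r8_Q_pos D hE (t j) (ht j) y hy).ne'

theorem r8_stab (D : Ctx F K m) (A : Fin (m + 1) → K) (w : Fin (m + 1) × Fin 2 → 𝓞 K)
    (hdir : D.Dirs A w) (T : Finset (Fin (m + 1) × Fin 2)) (x : 𝓞 K) (hx : x ∈ D.X) :
    x - ∑ i ∈ T, w i ∈ D.X :=
  D.X_sub hx (D.I.sum_mem fun i _ => hdir.mem i)

theorem r8_contOn (D : Ctx F K m) (hD : D.Ok) (A : Fin (m + 1) → K)
    (w : Fin (m + 1) × Fin 2 → 𝓞 K) (hdir : D.Dirs A w) (G : 𝓞 K → ℂ) (hG : D.GSpec w G)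
    (a b : ℝ) (ha : 0 < a) :
    ContinuousOn (D.Bv w G) {t | ∀ j i, a < t j i ∧ t j i < b} := by
  set P : Type := {t : Fin (m + 1) → Fin (m + 1) → ℝ // ∀ j i, a < t j i ∧ t j i < b} with hP
  obtain ⟨C, hC⟩ := r8_good D hD A w hdir (fun q : P => q.1) a b ha
    (fun q j i => ⟨(q.2 j i).1.le, (q.2 j i).2.le⟩)
  obtain ⟨CG, hCG⟩ := hG.1
  have h1 : (D.Bv w G) = fun t => ∑' x : D.X, G x * Dif w Finset.univ (r8h D t) x := rfl
  rw [h1]
  apply continuousOn_tsum (u := fun x : D.X => (|CG| * |C|) *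
      (D.bl A x * ∏ i : Fin (m + 1) × Fin 2, D.gl A i x))
  · intro x
    apply ContinuousOn.mul continuousOn_const
    unfold Dif
    apply continuousOn_finsetSum
    intro T _
    apply ContinuousOn.mul continuousOn_const
    refine (r8_cont D hD.emb _ (D.X_ne hD.ne (r8_stab D A w hdir T x x.2))).mono ?_
    intro t ht j i
    exact ha.trans (ht j i).1
  · exact (R2_summable D hD A w hdir).mul_left _
  · intro x t ht
    rw [norm_mul]
    have hp : 0 ≤ ∏ i : Fin (m + 1) × Fin 2, D.gl A i x :=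
      Finset.prod_nonneg fun i _ => R2_gl_nonneg D A i x
    have h2 : ‖Dif w Finset.univ (r8h D t) (x : 𝓞 K)‖ ≤
        |C| * (D.bl A x * ∏ i : Fin (m + 1) × Fin 2, D.gl A i x) := by
      refine (hC ⟨t, ht⟩ Finset.univ x x.2).trans ?_
      rw [mul_assoc]
      exact mul_le_mul_of_nonneg_right (le_abs_self C) (mul_nonneg (R2_bl_nonneg D A x) hp)
    calc ‖G x‖ * ‖Dif w Finset.univ (r8h D t) (x : 𝓞 K)‖
        ≤ |CG| * (|C| * (D.bl A x * ∏ i : Fin (m + 1) × Fin 2, D.gl A i x)) :=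
          mul_le_mul ((hCG x).trans (le_abs_self _)) h2 (norm_nonneg _) (abs_nonneg _)
      _ = _ := by ring

theorem Bv_cont (D : Ctx F K m) (hD : D.Ok) (A : Fin (m + 1) → K) (w : Fin (m + 1) × Fin 2 → 𝓞 K)
    (hdir : D.Dirs A w) (G : 𝓞 K → ℂ) (hG : D.GSpec w G) :
    ContinuousOn (D.Bv w G) {t | ∀ j i, 0 < t j i} := by
  intro t ht
  have ht' : ∀ j i, 0 < t j i := ht
  obtain ⟨p0, hp0⟩ := Finite.exists_min fun p : Fin (m + 1) × Fin (m + 1) => t p.1 p.2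
  obtain ⟨p1, hp1⟩ := Finite.exists_max fun p : Fin (m + 1) × Fin (m + 1) => t p.1 p.2
  set a : ℝ := t p0.1 p0.2 / 2 with ha
  set b : ℝ := t p1.1 p1.2 + 1 with hb
  have ha0 : 0 < a := by
    have := ht' p0.1 p0.2
    positivity
  have hmem : t ∈ {t : Fin (m + 1) → Fin (m + 1) → ℝ | ∀ j i, a < t j i ∧ t j i < b} := by
    intro j i
    have h1 : t p0.1 p0.2 ≤ t j i := hp0 (j, i)
    have h2 : t j i ≤ t p1.1 p1.2 := hp1 (j, i)
    have h3 := ht' p0.1 p0.2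
    constructor <;> [rw [ha]; rw [hb]] <;> linarith
  have hopen : IsOpen {t : Fin (m + 1) → Fin (m + 1) → ℝ | ∀ j i, a < t j i ∧ t j i < b} := by
    have : {t : Fin (m + 1) → Fin (m + 1) → ℝ | ∀ j i, a < t j i ∧ t j i < b} =
        ⋂ j, ⋂ i, ({t : Fin (m + 1) → Fin (m + 1) → ℝ | a < t j i} ∩
          {t : Fin (m + 1) → Fin (m + 1) → ℝ | t j i < b}) := by
      ext t
      simp
    rw [this]
    refine isOpen_iInter_of_finite fun j => isOpen_iInter_of_finite fun i => ?_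
    exact (isOpen_lt continuous_const (by fun_prop)).inter
      (isOpen_lt (by fun_prop) continuous_const)
  exact ((r8_contOn D hD A w hdir G hG a b ha0).continuousAt
    (hopen.mem_nhds hmem)).continuousWithinAt

set_option maxHeartbeats 400000 in
theorem Jv_A (D : Ctx F K m) (hD : D.Ok) (A : Fin (m + 1) → K) (w : Fin (m + 1) × Fin 2 → 𝓞 K)
    (hdir : D.Dirs A w) : ∃ S : ℂ,
      D.Jv (fun k => .A (A k)) = Matrix.det (Matrix.of fun k i => D.σ i (A k)) * S ∧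
      Filter.Tendsto (fun R : ℝ => ∑' x : D.X, D.g x * (∏ k, (D.Tr (A k) x)⁻¹) *
        (D.pcut A R x : ℂ)) Filter.atTop (nhds S) := by
  have hX := R2_stab D A w hdir
  obtain ⟨G, hG⟩ := gspec_exists D hD A w hdir
  have h1 : Good D.X w (D.gl A) (fun (_ : Unit) x => D.bl A x)
      (fun _ (x : 𝓞 K) => ∏ k, (D.Tr (A k) x)⁻¹) :=
    Good.prod hX (sv_gl D A w) Finset.univ
      (fun k (_ : Unit) x => (1 + ‖D.Tr (A k) x‖)⁻¹)
      (fun k (_ : Unit) x => (D.Tr (A k) x)⁻¹)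
      (fun k _ => SV.inv hX (sv_tr (P := Unit) D A w k))
      (fun k _ => good_tr (P := Unit) D A w hdir k)
  have h4 := pcut_of_good D hD A w hdir G hG (fun x : 𝓞 K => ∏ k, (D.Tr (A k) x)⁻¹) h1
  have h2 := (reg_of_good D hD A w hdir G hG (fun x : 𝓞 K => ∏ k, (D.Tr (A k) x)⁻¹) h1).2
  refine ⟨∑' x : D.X, G x * Dif w Finset.univ (fun x : 𝓞 K => ∏ k, (D.Tr (A k) x)⁻¹) x,
    ?_, h4⟩
  have h5 := HasReg.smul D h2 (Matrix.det (Matrix.of fun k i : Fin (m + 1) => D.σ i (A k)))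
  apply Jv_eq
  refine HasReg.congr D h5 fun x _ => ?_
  symm
  have h3 : D.Idet (fun k => .A (A k)) x = Matrix.det (Matrix.of fun k i : Fin (m + 1) =>
      (D.Tr (A k) x)⁻¹ * (Matrix.of fun k i : Fin (m + 1) => D.σ i (A k)) k i) := by
    unfold Ctx.Idet
    congr 1
    ext k i
    show D.σ i (A k) / D.Tr (A k) x = (D.Tr (A k) x)⁻¹ * D.σ i (A k)
    rw [div_eq_inv_mul]
  rw [h3, Matrix.det_mul_column]
  ring

end H55P
end

-- from Lib.H55P.CN
section

open NumberField IsDedekindDomain MeasureTheory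

namespace H55P

open H55N
open H55B (g)

variable {F : Type} [Field F] [NumberField F] [IQ F] {K : Type} [Field K] [NumberField K] [Algebra F K] {m : ℕ}

/-! Chunk Z1 (M). The value. lm = D.lm u, J = D.Jv, τ z = D.act (uu u z); J (τ z l) = J l (uu_act, Jv_act). For N >= 1 put Lin_N a = T (tt lm (a/N)) and
Fl a = T (tt lm a); Lin_N (a + N z) = τ z (Lin_N a) since tt lm (x + z) i = tt lm x i * |σ_i u^z|^2 (uu_act), and the same for a -> Fl (a/N) (integer division,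
Int.add_mul_ediv_left). (1) CN_eq with N = m+1, L = A o L, L' = Lin_(m+1): hcoc by prism_cocycle with A_k = L(kv a π k) and w' from hdirs. So CN (m+1) J (A o L) = CN (m+1) J Lin_(m+1).
(2) For every N >= 1: CN N J Lin_N = CN N J (Fl o (./N)) by CN_eq, hcoc by prism_cocycle with the given A, w (second alternative in hL), and = CN 1 J Fl by CN_floor (Jv_degenerate).
(3) So CN N J Lin_N does not depend on N; by reg_T it is the sum in riemann (B = D.Bv w G, Bv_cont, lm_sum) whose limit is m! Delta int; the limit of a constant sequence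
(tendsto_nhds_unique, for N >= 1 eventually). -/

/-- The labels on a line. -/
noncomputable def Z1_Lin (D : Ctx F K m) (u : Fin m → (𝓞 K)ˣ) (N : ℕ) (a : Fin m → ℤ) : Lab K m :=
  .T (tt (D.lm u) fun k => (a k : ℝ) / N)

/-- The integral labels. -/
noncomputable def Z1_Fl (D : Ctx F K m) (u : Fin m → (𝓞 K)ˣ) (a : Fin m → ℤ) : Lab K m :=
  .T (tt (D.lm u) fun k => (a k : ℝ))

theorem Z1_tt (D : Ctx F K m) (u : Fin m → (𝓞 K)ˣ) (hu : D.UOk u) (x : Fin m → ℝ) (z : Fin m → ℤ) :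
    (Lab.T (tt (D.lm u) fun k => x k + (z k : ℝ)) : Lab K m) =
      D.act (uu u z) (.T (tt (D.lm u) x)) := by
  have h := (uu_act D u hu z).2.2
  show Lab.T _ = Lab.T fun i => ‖D.σ i ((uu u z : 𝓞 K) : K)‖ ^ 2 * tt (D.lm u) x i
  congr 1
  funext i
  rw [h i]
  unfold tt
  rw [← Real.exp_add, ← Finset.sum_add_distrib]
  congr 1
  refine Finset.sum_congr rfl fun j _ => ?_
  ring

theorem Z1_Lin_add (D : Ctx F K m) (u : Fin m → (𝓞 K)ˣ) (hu : D.UOk u) (N : ℕ) (hN : 0 < N)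
    (a z : Fin m → ℤ) : Z1_Lin D u N (a + (N : ℤ) • z) = D.act (uu u z) (Z1_Lin D u N a) := by
  unfold Z1_Lin
  rw [← Z1_tt D u hu]
  congr 2
  funext k
  have hN' : (N : ℝ) ≠ 0 := by exact_mod_cast hN.ne'
  simp only [Pi.add_apply, Pi.smul_apply, smul_eq_mul]
  push_cast
  field_simp

theorem Z1_Fl_add (D : Ctx F K m) (u : Fin m → (𝓞 K)ˣ) (hu : D.UOk u) (N : ℕ) (hN : 0 < N)
    (a z : Fin m → ℤ) : (Z1_Fl D u fun k => (a + (N : ℤ) • z) k / (N : ℤ)) =
      D.act (uu u z) (Z1_Fl D u fun k => a k / (N : ℤ)) := by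
  unfold Z1_Fl
  rw [← Z1_tt D u hu]
  congr 2
  funext k
  have hN' : (N : ℤ) ≠ 0 := by exact_mod_cast hN.ne'
  simp only [Pi.add_apply, Pi.smul_apply, smul_eq_mul]
  rw [Int.add_mul_ediv_left _ _ hN']
  push_cast
  ring

theorem Z1_tt_pos (lm : Fin (m + 1) → Fin m → ℝ) (z : Fin m → ℝ) (i : Fin (m + 1)) :
    0 < tt lm z i := Real.exp_pos _

theorem CN_value (D : Ctx F K m) (hD : D.Ok) (u : Fin m → (𝓞 K)ˣ) (hu : D.UOk u)
    (A : Fin (m + 1) → K) (w : Fin (m + 1) × Fin 2 → 𝓞 K) (hdir : D.Dirs A w) (G : 𝓞 K → ℂ)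
    (hG : D.GSpec w G) (L : (Fin m → ℤ) → K)
    (hequi : ∀ a z : Fin m → ℤ, L (a + ((m + 1 : ℕ) : ℤ) • z) = ((uu u z : 𝓞 K) : K) * L a)
    (hdirs : ∀ (a : Fin m → Fin (m + 1)) (π : Equiv.Perm (Fin m)),
      ∃ w', D.Dirs (fun k : Fin (m + 1) => L (kv (fun k => ((a k : ℕ) : ℤ)) π k)) w') :
    CN (m + 1) D.Jv (fun a => .A (L a)) = (m.factorial : ℂ) * ((Delta (D.lm u) : ℝ) : ℂ) *
      ∫ z in Set.Icc (0 : Fin m → ℝ) 1, D.Bv w G (fun _ => tt (D.lm u) z) := by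
  have hJ : ∀ (z : Fin m → ℤ) (l : Fin (m + 1) → Lab K m),
      D.Jv (fun j => D.act (uu u z) (l j)) = D.Jv l := fun z l =>
    Jv_act D (uu u z) (uu_act D u hu z).1 (uu_act D u hu z).2.1 l
  have h1 : CN (m + 1) D.Jv (fun a => .A (L a)) = CN (m + 1) D.Jv (Z1_Lin D u (m + 1)) := by
    refine CN_eq (m + 1) (Nat.succ_pos m) D.Jv (fun a => .A (L a)) (Z1_Lin D u (m + 1))
      (fun z => D.act (uu u z)) hJ ?_ (fun a z => Z1_Lin_add D u hu (m + 1) (Nat.succ_pos m) a z) ?_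
    · intro a z
      show Lab.A (L (a + ((m + 1 : ℕ) : ℤ) • z)) = Lab.A (((uu u z : 𝓞 K) : K) * L a)
      rw [hequi]
    · intro a π i hi
      obtain ⟨w', hw'⟩ := hdirs a π
      exact prism_cocycle D hD _ w' hw' (fun a => .A (L a)) (Z1_Lin D u (m + 1)) _
        (fun k => Or.inl rfl) (fun k _ => ⟨_, rfl, Z1_tt_pos _ _⟩) i hi
  have h2 : ∀ N : ℕ, 0 < N → CN N D.Jv (Z1_Lin D u N) = CN 1 D.Jv (Z1_Fl D u) := by
    intro N hN
    rw [← CN_floor N hN D.Jv (Jv_degenerate D) (Z1_Fl D u)]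
    refine CN_eq N hN D.Jv (Z1_Lin D u N) (fun a => Z1_Fl D u fun k => a k / (N : ℤ))
      (fun z => D.act (uu u z)) hJ (fun a z => Z1_Lin_add D u hu N hN a z)
      (fun a z => Z1_Fl_add D u hu N hN a z) ?_
    intro a π i hi
    exact prism_cocycle D hD A w hdir (Z1_Lin D u N) (fun a => Z1_Fl D u fun k => a k / (N : ℤ)) _
      (fun k => Or.inr ⟨_, rfl, Z1_tt_pos _ _⟩) (fun k _ => ⟨_, rfl, Z1_tt_pos _ _⟩) i hi
  rw [h1, h2 _ (Nat.succ_pos m)]
  have h3 := riemann m (D.lm u) (lm_sum D u hu) (D.Bv w G) (Bv_cont D hD A w hdir G hG)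
  refine tendsto_nhds_unique ?_ h3
  refine (tendsto_const_nhds (x := CN 1 D.Jv (Z1_Fl D u))).congr' ?_
  filter_upwards [Filter.eventually_gt_atTop 0] with N hN
  rw [← h2 N hN]
  unfold CN
  refine Finset.sum_congr rfl fun a _ => Finset.sum_congr rfl fun π _ => ?_
  congr 1
  exact reg_T D hD A w hdir G hG _ fun j i => Z1_tt_pos _ _ _

end H55P
end
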