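import Mathlib
import Pool.Agent.Lib.H1M.PP2.D_H55B_Defs
import Pool.Agent.Lib.H1M.PP2.D_H55K_D2
import Pool.Agent.Lib.H1M.PP2.M007
import Pool.Agent.Lib.H1M.PP2.M010
import Pool.Agent.Lib.H1M.PP2.M016

/-! Merged copies (to shorten the build) of Lib.H16A.Defs, Lib.H16A.V0, Lib.H16A.V1, Lib.H16A.U3, Lib.H16A.M1, Lib.H16C.MW2, Lib.SSG.F.Defs, Lib.SSG.E.A1, Lib.H16C.GE3, Lib.H99B.Defs, Lib.SSG.E.A2, Lib.H55K.A.Defs, Lib.H55K.A.A2, Lib.H55K.A.A5, Lib.H55K.A.B2, Lib.H55K.A.A4, Lib.H55K.A.B1, Lib.H55K.A.B4, Lib.H19Z.L1, Lib.H55K.D2B, Lib.H55R.X2, Lib.H55R.X5, Lib.H55K.D2A, Lib.H55K.D2C, Lib.H55K.D2_T, Lib.H55K.D4. -/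

-- from Lib.H16A.Defs
section

/-!
# H16A: definitions

`E : Cub` is the integral monic cubic `f = X³ + a X² + b X + c`; the elliptic curve is
`y² = x³ + a x² + b x + c` (`E.disc ≠ 0`).  Every elliptic curve over `ℚ` has such a model.

For a ring `L`, `E.Alg L = L[X]/(f)`, `E.th L` is the class `θ` of `X`.
For a field `L` the descent map of the curve sends `P = (x, y)` to the class of `x - θ` in
`(L[θ])ˣ / squares`; `E.Rel L u P` says that the unit `u` of `L[θ]` lies in the class of `P`: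
the norm of `u` is a square and `u z² = x - θ` for some `z ∈ L[θ]` (this determines the class of `u`,
also if `P` is a `2`-torsion point).
-/

open Polynomial IsDedekindDomain NumberField

namespace H16A

/-- The integral monic cubic `X³ + a X² + b X + c`. -/
@[ext] structure Cub where
  /-- coefficient of `X²` -/
  a : ℤ
  /-- coefficient of `X` -/
  b : ℤ
  /-- constant coefficient -/
  c : ℤ

/-- The group of square classes of a field. -/
def SqC (M : Type*) [Field M] : Type _ := Mˣ ⧸ (powMonoidHom 2 : Mˣ →* Mˣ).range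

noncomputable instance SqC.instCommGroup (M : Type*) [Field M] : CommGroup (SqC M) :=
  QuotientGroup.Quotient.commGroup _

/-- The class of a unit. -/
def sqMk (M : Type*) [Field M] : Mˣ →* SqC M where
  toFun u := (QuotientGroup.mk u : Mˣ ⧸ (powMonoidHom 2 : Mˣ →* Mˣ).range)
  map_one' := rfl
  map_mul' _ _ := rfl

theorem sqMk_surjective (M : Type*) [Field M] : Function.Surjective (sqMk M) :=
  fun x => Quotient.exists_rep x

theorem sqMk_eq_one_iff {M : Type*} [Field M] (u : Mˣ) : sqMk M u = 1 ↔ IsSquare (u : M) := by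
  have h : sqMk M u = 1 ↔ u ∈ (powMonoidHom 2 : Mˣ →* Mˣ).range :=
    QuotientGroup.eq_one_iff (N := (powMonoidHom 2 : Mˣ →* Mˣ).range) u
  rw [h]
  constructor
  · rintro ⟨v, rfl⟩
    exact ⟨(v : M), by simp [powMonoidHom, pow_two]⟩
  · rintro ⟨m, hm⟩
    have hm0 : m ≠ 0 := by
      rintro rfl
      exact u.ne_zero (by simp at hm)
    exact ⟨Units.mk0 m hm0, Units.ext (by simp [powMonoidHom, pow_two, hm])⟩

/-- The square class of `m` (`1` if `m = 0`). -/
noncomputable def cls {M : Type*} [Field M] (m : M) : SqC M :=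
  open Classical in if h : m = 0 then 1 else sqMk M (Units.mk0 m h)




/-- The subgroup `2 G` of an additive group. -/
def twoG (G : Type*) [AddCommGroup G] : AddSubgroup G := (nsmulAddMonoidHom 2 : G →+ G).range

namespace Cub

variable (E : Cub)

/-- The discriminant of `X³ + a X² + b X + c`. -/
def disc : ℤ :=
  E.a ^ 2 * E.b ^ 2 - 4 * E.b ^ 3 - 4 * E.a ^ 3 * E.c - 27 * E.c ^ 2 + 18 * E.a * E.b * E.c

/-- The cubic `f` over a commutative ring. -/
noncomputable def poly (L : Type*) [CommRing L] : L[X] :=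
  X ^ 3 + C (E.a : L) * X ^ 2 + C (E.b : L) * X + C (E.c : L)

/-- The value `f(x)`. -/
def val {L : Type*} [CommRing L] (x : L) : L := x ^ 3 + E.a * x ^ 2 + E.b * x + E.c

/-- The value `f'(x)`. -/
def der {L : Type*} [CommRing L] (x : L) : L := 3 * x ^ 2 + 2 * E.a * x + E.b

/-- The Weierstrass curve `y² = x³ + a x² + b x + c` over `ℤ`. -/
def W : WeierstrassCurve.Affine ℤ where
  a₁ := 0
  a₂ := E.a
  a₃ := 0
  a₄ := E.b
  a₆ := E.c

/-- The points of the curve over the field `L` (Mathlib's type of points). -/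
abbrev Pt (L : Type*) [Field L] : Type _ :=
  (WeierstrassCurve.Affine.baseChange E.W L).Point

/-- The quadratic twist `y² = x³ + a d x² + b d² x + c d³`. -/
def twist (d : ℤ) : Cub := ⟨E.a * d, E.b * d ^ 2, E.c * d ^ 3⟩

/-- The algebra `L[θ] = L[X]/(f)`. -/
abbrev Alg (L : Type*) [CommRing L] : Type _ := AdjoinRoot (E.poly L)




theorem eval_poly {L : Type*} [CommRing L] (x : L) : (E.poly L).eval x = E.val x := by
  simp only [poly, val, eval_add, eval_mul, eval_pow, eval_X, eval_C]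


/-- The ring homomorphism `L[θ] → L'`, `θ ↦ e`, for a ring homomorphism `φ : L → L'` and a root
`e` of `f` in `L'`. -/
noncomputable def evAt {L L' : Type*} [CommRing L] [CommRing L'] (φ : L →+* L') (e : L')
    (he : E.val e = 0) : E.Alg L →+* L' :=
  AdjoinRoot.lift φ e (by
    simp only [poly, eval₂_add, eval₂_mul, eval₂_pow, eval₂_X, eval₂_C]
    simp only [map_intCast]
    exact he)










/-- The homomorphism `E(L) → E(L')` induced by a homomorphism of fields. -/
noncomputable def ptMap {L L' : Type*} [Field L] [Field L'] [DecidableEq L] [DecidableEq L']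
    (φ : L →+* L') : E.Pt L →+ E.Pt L' :=
  WeierstrassCurve.Affine.Point.map (W' := E.W) φ.toIntAlgHom

/-- The component of the descent map at the root `e` of `f`: the class of `x - e`, and the class of
`f'(e)` at the point `(e, 0)`. -/
noncomputable def dl {M : Type*} [Field M] (e : M) : E.Pt M → SqC M
  | .zero => 1
  | .some x _ _ => open Classical in if x = e then cls (E.der e) else cls (x - e)

end Cub

section NumberField

variable {F : Type*} [Field F] [NumberField F]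

/-- The normalised additive valuation at `w` (`0` at `x = 0`). -/
noncomputable def ord (w : HeightOneSpectrum (𝓞 F)) (x : F) : ℤ := -(w.valuation F x).log

/-- The parity of the valuation at `w` of a square class. -/
noncomputable def par (w : HeightOneSpectrum (𝓞 F)) : SqC F →* Multiplicative (ZMod 2) where
  toFun := w.valuationOfNeZeroMod 2
  map_one' := map_one (w.valuationOfNeZeroMod 2 : (Fˣ ⧸ (powMonoidHom 2 : Fˣ →* Fˣ).range) →* _)
  map_mul' := map_mul (w.valuationOfNeZeroMod 2 : (Fˣ ⧸ (powMonoidHom 2 : Fˣ →* Fˣ).range) →* _)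

end NumberField

/-- The number field `F` is the splitting field of `f`, with the roots `e 0, e 1, e 2`. -/
structure Split (E : Cub) (F : Type) [Field F] [NumberField F] where
  /-- the roots -/
  e : Fin 3 → F
  poly_eq : E.poly F = ∏ i, (X - C (e i))
  inj : Function.Injective e
  gen : IntermediateField.adjoin ℚ (Set.range e) = ⊤

namespace Split

variable {E : Cub} {F : Type} [Field F] [NumberField F] (S : Split E F)

include S in
theorem root (i : Fin 3) : E.val (S.e i) = 0 := by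
  rw [← E.eval_poly, S.poly_eq, eval_prod]
  exact Finset.prod_eq_zero (Finset.mem_univ i) (by simp)

/-- The homomorphism `ℚ[θ] → F`, `θ ↦ e i`. -/
noncomputable def ev (i : Fin 3) : E.Alg ℚ →+* F := E.evAt (algebraMap ℚ F) (S.e i) (S.root i)






/-- The three components over `F` of the descent map of the twist `E^D` on `E^D(ℚ)`. -/
noncomputable def beta (D : ℤ) (P : (E.twist D).Pt ℚ) (i : Fin 3) : SqC F :=
  open Classical in
  (E.twist D).dl ((D : F) * S.e i) ((E.twist D).ptMap (algebraMap ℚ F) P)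

/-- The image of `E^D(ℚ)` (the subgroup generated by it; it is equal to the image). -/
noncomputable def G (D : ℤ) : Subgroup (Fin 3 → SqC F) :=
  Subgroup.closure (Set.range fun P : (E.twist D).Pt ℚ => S.beta D P)


end Split

/-- The conjugate prime `σ⁻¹(w)`. -/
noncomputable def cj {F : Type*} [Field F] [NumberField F] (σ : F ≃ₐ[ℚ] F)
    (w : HeightOneSpectrum (𝓞 F)) : HeightOneSpectrum (𝓞 F) where
  asIdeal := w.asIdeal.comap (RingOfIntegers.mapRingEquiv (σ : F ≃+* F) : 𝓞 F →+* 𝓞 F)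
  isPrime := by
    have := w.isPrime
    exact Ideal.comap_isPrime _ _
  ne_bot := by
    intro h
    apply w.ne_bot
    rw [eq_bot_iff]
    intro x hx
    have h1 : (RingOfIntegers.mapRingEquiv (σ : F ≃+* F)).symm x ∈
        w.asIdeal.comap (RingOfIntegers.mapRingEquiv (σ : F ≃+* F) : 𝓞 F →+* 𝓞 F) := by
      rw [Ideal.mem_comap]
      simpa using hx
    rw [h] at h1
    have h2 : (RingOfIntegers.mapRingEquiv (σ : F ≃+* F)).symm x = 0 := by simpa using h1
    have h3 := congrArg (RingOfIntegers.mapRingEquiv (σ : F ≃+* F)) h2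
    simpa using h3

end H16A
end

-- from Lib.H16A.V0
section

/-!
# V0 (S): square classes, basic API

Elementary: `cls m` is the class of `m ≠ 0` in `Mˣ / squares`; use `sqMk_eq_one_iff`,
`sqMk_surjective`, `sqMap_mk` of `Defs.lean`.
-/

open Polynomial IsDedekindDomain NumberField

namespace H16A

section Classes

variable {M : Type*} [Field M]

theorem cls_eq {m : M} (h : m ≠ 0) : cls m = sqMk M (Units.mk0 m h) := by
  simp [cls, h]


theorem cls_mul {m n : M} (hm : m ≠ 0) (hn : n ≠ 0) : cls (m * n) = cls m * cls n := by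
  rw [cls_eq hm, cls_eq hn, cls_eq (mul_ne_zero hm hn), ← map_mul]
  congr 1
  exact Units.ext rfl

theorem cls_eq_one_iff {m : M} (hm : m ≠ 0) : cls m = 1 ↔ IsSquare m := by
  rw [cls_eq hm, sqMk_eq_one_iff, Units.val_mk0]

theorem sqC_mul_self (x : SqC M) : x * x = 1 := by
  obtain ⟨u, rfl⟩ := sqMk_surjective M x
  rw [← map_mul, sqMk_eq_one_iff]
  exact ⟨(u : M), Units.val_mul u u⟩

/-- `m` and `n` have the same class iff `m n` is a square -/
theorem cls_eq_cls_iff {m n : M} (hm : m ≠ 0) (hn : n ≠ 0) : cls m = cls n ↔ IsSquare (m * n) := by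
  rw [← cls_eq_one_iff (mul_ne_zero hm hn), cls_mul hm hn]
  constructor
  · intro h
    rw [h, sqC_mul_self]
  · intro h
    have h1 := congrArg (fun z => z * cls n) h
    simp only [mul_assoc, sqC_mul_self, mul_one, one_mul] at h1
    exact h1

theorem cls_surj (x : SqC M) : ∃ m : M, m ≠ 0 ∧ cls m = x := by
  obtain ⟨u, rfl⟩ := sqMk_surjective M x
  refine ⟨(u : M), u.ne_zero, ?_⟩
  rw [cls_eq u.ne_zero, Units.mk0_val]



end Classes

end H16A
end

-- from Lib.H16A.V1
section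

/-!
# V1 (M): the additive valuations `ord w` of a number field, basic API

`ord w x = - log (w.valuation F x)`; use `WithZero.log_mul`, `WithZero.log_pow`,
`Valuation.map_add`, `HeightOneSpectrum.valuation_le_one`, `valuationOfNeZero_eq`,
`HeightOneSpectrum.valuation_lt_one_iff_mem`, `HeightOneSpectrum.valuation_exists_uniformizer`.
For `par_cls` unfold `par`, `valuationOfNeZeroMod` (as in Mathlib's `SelmerGroup.lean`).
-/

open Polynomial IsDedekindDomain NumberField

namespace H16A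

section Ord

variable {F : Type*} [Field F] [NumberField F] (w : HeightOneSpectrum (𝓞 F))

theorem v1_ne {x : F} (hx : x ≠ 0) : w.valuation F x ≠ 0 := (Valuation.ne_zero_iff _).2 hx

theorem ord_mul {x y : F} (hx : x ≠ 0) (hy : y ≠ 0) : ord w (x * y) = ord w x + ord w y := by
  unfold ord
  rw [map_mul, WithZero.log_mul (v1_ne w hx) (v1_ne w hy)]
  ring

theorem ord_one : ord w (1 : F) = 0 := by
  unfold ord
  rw [map_one, WithZero.log_one, neg_zero]

theorem ord_inv (x : F) : ord w x⁻¹ = - ord w x := by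
  unfold ord
  rw [map_inv₀, WithZero.log_inv]

theorem ord_div {x y : F} (hx : x ≠ 0) (hy : y ≠ 0) : ord w (x / y) = ord w x - ord w y := by
  rw [div_eq_mul_inv, ord_mul w hx (inv_ne_zero hy), ord_inv, sub_eq_add_neg]

theorem ord_pow (x : F) (n : ℕ) : ord w (x ^ n) = n * ord w x := by
  unfold ord
  rw [map_pow, WithZero.log_pow, nsmul_eq_mul]
  ring

theorem ord_neg (x : F) : ord w (-x) = ord w x := by
  unfold ord
  rw [Valuation.map_neg]


theorem v1_le_iff {x y : F} (hx : x ≠ 0) (hy : y ≠ 0) :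
    ord w x ≤ ord w y ↔ w.valuation F y ≤ w.valuation F x := by
  unfold ord
  rw [neg_le_neg_iff, WithZero.log_le_log (v1_ne w hy) (v1_ne w hx)]

theorem v1_lt_iff {x y : F} (hx : x ≠ 0) (hy : y ≠ 0) :
    ord w x < ord w y ↔ w.valuation F y < w.valuation F x := by
  unfold ord
  rw [neg_lt_neg_iff, WithZero.log_lt_log (v1_ne w hy) (v1_ne w hx)]

theorem le_ord_add {x y : F} (h : x + y ≠ 0) (hx : x ≠ 0) (hy : y ≠ 0) :
    min (ord w x) (ord w y) ≤ ord w (x + y) := by
  rw [min_le_iff, v1_le_iff w hx h, v1_le_iff w hy h]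
  exact le_max_iff.1 ((w.valuation F).map_add x y)

/-- if the two orders are different, the order of the sum is the minimum -/
theorem ord_add_of_lt {x y : F} (hx : x ≠ 0) (hy : y ≠ 0) (h : ord w x < ord w y) :
    x + y ≠ 0 ∧ ord w (x + y) = ord w x := by
  rw [v1_lt_iff w hx hy] at h
  have h1 : w.valuation F (x + y) = w.valuation F x := Valuation.map_add_eq_of_lt_left _ h
  refine ⟨?_, ?_⟩
  · intro h0
    rw [h0, map_zero] at h1
    exact v1_ne w hx h1.symm
  · unfold ord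
    rw [h1]

theorem v1_nonneg_iff {x : F} (hx : x ≠ 0) : 0 ≤ ord w x ↔ w.valuation F x ≤ 1 := by
  rw [← ord_one w, v1_le_iff w one_ne_zero hx, map_one]

theorem v1_pos_iff {x : F} (hx : x ≠ 0) : 0 < ord w x ↔ w.valuation F x < 1 := by
  rw [← ord_one w, v1_lt_iff w one_ne_zero hx, map_one]

theorem v1_ord_zero : ord w (0 : F) = 0 := by
  unfold ord
  rw [map_zero, WithZero.log_zero, neg_zero]

theorem ord_int_nonneg (x : 𝓞 F) : 0 ≤ ord w (x : F) := by
  by_cases hx : (x : F) = 0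
  · rw [hx, v1_ord_zero]
  · rw [v1_nonneg_iff w hx]
    exact w.valuation_le_one x

theorem ord_int_pos_iff {x : 𝓞 F} (hx : x ≠ 0) : 0 < ord w (x : F) ↔ x ∈ w.asIdeal := by
  have hx' : (x : F) ≠ 0 := fun h => hx (RingOfIntegers.ext h)
  rw [v1_pos_iff w hx']
  exact w.valuation_lt_one_iff_mem x

/-- an element with nonnegative order at `w` is a quotient of integers with denominator prime
to `w` -/
theorem exists_div_of_ord_nonneg {x : F} (h : 0 ≤ ord w x) :
    ∃ a b : 𝓞 F, b ∉ w.asIdeal ∧ x = (a : F) / (b : F) := by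
  have hv : w.valuation F x ≤ 1 := by
    by_cases hx : x = 0
    · rw [hx, map_zero]
      exact zero_le_one
    · exact (v1_nonneg_iff w hx).1 h
  obtain ⟨n, d, hd⟩ := w.exists_primeCompl_mul_eq_of_integer x hv
  refine ⟨n, d, d.2, ?_⟩
  have hd0 : ((d : 𝓞 F) : F) ≠ 0 := by
    intro h0
    have h1 : (d : 𝓞 F) = 0 := RingOfIntegers.ext h0
    exact d.2 (h1 ▸ w.asIdeal.zero_mem)
  rw [eq_div_iff hd0]
  exact hd


/-- the parity of a class -/
theorem par_cls {x : F} (hx : x ≠ 0) : par w (cls x) = Multiplicative.ofAdd ((ord w x : ℤ) : ZMod 2) := by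
  rw [cls_eq hx]
  have h1 : par w (sqMk F (Units.mk0 x hx)) =
      Multiplicative.ofAdd ((Multiplicative.toAdd (w.valuationOfNeZero (Units.mk0 x hx)) : ℤ) :
        ZMod 2) := by
    rfl
  rw [h1]
  have h2 : ((w.valuationOfNeZero (Units.mk0 x hx) : Multiplicative ℤ) :
      WithZero (Multiplicative ℤ)) = w.valuation F x := w.valuationOfNeZero_eq (Units.mk0 x hx)
  have h3 : Multiplicative.toAdd (w.valuationOfNeZero (Units.mk0 x hx)) = -ord w x := by
    unfold ord
    rw [← h2, neg_neg]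
    rfl
  rw [h3]
  congr 1
  push_cast
  exact ZMod.neg_eq_self_mod_two _

theorem par_cls_eq_one_iff {x : F} (hx : x ≠ 0) : par w (cls x) = 1 ↔ Even (ord w x) := by
  rw [par_cls w hx]
  have h1 : (1 : Multiplicative (ZMod 2)) = Multiplicative.ofAdd 0 := rfl
  rw [h1, Multiplicative.ofAdd.injective.eq_iff]
  exact ZMod.intCast_eq_zero_iff_even

end Ord

end H16A
end

-- from Lib.H16A.U3
section

/-!
# U3 (M): finiteness of the group of square classes unramified outside a finite set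

`F` a number field, `B` a finite set of primes.  The subgroup `{x ∈ Fˣ/squares : par w x = 1 for all
w ∉ B}` is finite.  Proof.  The map to `(ℤ/2)^B` (parities at `B`) has finite target; its kernel consists
of the classes of `x` with all orders even: `(x) = J²`, and the class of `J` is in the finite group
`ClassGroup (𝓞 F)`; if `J` and `J'` are in the same class then `x/x' = (unit) · square`, and the group of units modulo
squares is finite (`NumberField.Units`: finitely generated).  (Mathlib: `IsDedekindDomain.selmerGroup`,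
`fromUnit`.)  Equivalently: the subgroup `F⟮B, 2⟯` is finite.
-/

open Polynomial IsDedekindDomain NumberField

namespace H16A

variable (F : Type*) [Field F] [NumberField F]

open Classical in
theorem U3_ord_eq_count (w : HeightOneSpectrum (𝓞 F)) (a : 𝓞 F) (ha : a ≠ 0) :
    ord w (a : F) =
      ((Associates.mk w.asIdeal).count (Associates.mk (Ideal.span {a})).factors : ℤ) := by
  unfold ord
  have h : w.valuation F (a : F) = w.intValuation a := w.valuation_of_algebraMap a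
  rw [h, w.intValuation_if_neg ha, WithZero.log_exp, neg_neg]

open Classical in
theorem U3_even_sq (a : 𝓞 F) (ha : a ≠ 0)
    (h : ∀ w : HeightOneSpectrum (𝓞 F), Even (ord w (a : F))) :
    ∃ J : Ideal (𝓞 F), J ≠ 0 ∧ Ideal.span {a} = J ^ 2 := by
  set I : Ideal (𝓞 F) := Ideal.span {a} with hI
  have hI0 : I ≠ 0 := by
    rw [hI, Ideal.zero_eq_bot, Ne, Ideal.span_singleton_eq_bot]
    exact ha
  set n : HeightOneSpectrum (𝓞 F) → ℕ := fun w =>
    (Associates.mk w.asIdeal).count (Associates.mk I).factors with hn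
  have hev : ∀ w, Even (n w) := by
    intro w
    have := h w
    rw [U3_ord_eq_count F w a ha] at this
    exact_mod_cast this
  have hfin : (Function.mulSupport fun w : HeightOneSpectrum (𝓞 F) =>
      w.asIdeal ^ (n w / 2)).Finite := by
    have h1 := Associates.finite_factors hI0
    rw [Filter.eventually_cofinite] at h1
    refine h1.subset ?_
    intro w hw
    rw [Function.mem_mulSupport] at hw
    intro h2
    apply hw
    have h3 : n w = 0 := by exact_mod_cast h2
    rw [h3]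
    simp
  have hJ : I = (∏ᶠ w : HeightOneSpectrum (𝓞 F), w.asIdeal ^ (n w / 2)) ^ 2 := by
    rw [finprod_pow hfin]
    conv_lhs => rw [← Ideal.finprod_heightOneSpectrum_factorization hI0]
    refine finprod_congr fun w => ?_
    rw [← pow_mul, Nat.div_mul_cancel (hev w).two_dvd]
    rfl
  refine ⟨_, ?_, hJ⟩
  intro h0
  apply hI0
  rw [hJ, h0]
  simp

/-- the homomorphism from the units of the ring of integers to the square classes -/
noncomputable def U3_unitMap : (𝓞 F)ˣ →* SqC F :=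
  (sqMk F).comp (Units.map (algebraMap (𝓞 F) F : 𝓞 F →* F))

theorem U3_unitMap_eq (u : (𝓞 F)ˣ) : U3_unitMap F u = cls ((u : 𝓞 F) : F) := by
  have h : ((u : 𝓞 F) : F) ≠ 0 := by
    simp
  rw [cls_eq h]
  unfold U3_unitMap
  rw [MonoidHom.comp_apply]
  congr 1
  ext
  rfl

theorem U3_range_finite : (Set.range (U3_unitMap F)).Finite := by
  have h1 : Monoid.FG (U3_unitMap F).range := by
    have h2 : Group.FG (𝓞 F)ˣ := by
      rw [Group.fg_iff_monoid_fg]
      infer_instance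
    have h3 : Group.FG (U3_unitMap F).range := Group.fg_range _
    rwa [Group.fg_iff_monoid_fg] at h3
  have h4 : Group.FG (U3_unitMap F).range := by
    rwa [Group.fg_iff_monoid_fg]
  have h5 : Finite (U3_unitMap F).range := by
    refine CommGroup.finite_of_fg_isMulTorsion _ ?_
    rintro ⟨x, hx⟩
    rw [isOfFinOrder_iff_pow_eq_one]
    refine ⟨2, by norm_num, ?_⟩
    ext
    simp [pow_two, sqC_mul_self]
  exact Set.toFinite ((U3_unitMap F).range : Set (SqC F))

theorem U3_exists_int (x : SqC F) : ∃ a : 𝓞 F, a ≠ 0 ∧ cls (a : F) = x := by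
  obtain ⟨m, hm, rfl⟩ := cls_surj x
  obtain ⟨a, b, hb, hab⟩ := IsFractionRing.div_surjective (A := 𝓞 F) m
  have hb0 : b ≠ 0 := nonZeroDivisors.ne_zero hb
  have hb1 : (b : F) ≠ 0 := by
    simpa using hb0
  have hab' : (a : F) / (b : F) = m := hab
  have ha1 : (a : F) ≠ 0 := by
    intro h
    rw [h, zero_div] at hab'
    exact hm hab'.symm
  have ha0 : a ≠ 0 := by
    intro h
    rw [h] at ha1
    simp at ha1
  refine ⟨a * b, mul_ne_zero ha0 hb0, ?_⟩
  have h2 : (((a * b : 𝓞 F)) : F) = (a : F) * (b : F) := by simp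
  rw [h2, cls_eq_cls_iff (mul_ne_zero ha1 hb1) hm, ← hab']
  exact ⟨(a : F), by field_simp⟩

theorem U3_kernel_finite : {x : SqC F | ∀ w, par w x = 1}.Finite := by
  classical
  have hcover : {x : SqC F | ∀ w, par w x = 1} ⊆
      ⋃ c : ClassGroup (𝓞 F), {x : SqC F | ∃ (J : nonZeroDivisors (Ideal (𝓞 F))) (a : 𝓞 F),
        ClassGroup.mk0 J = c ∧ a ≠ 0 ∧ cls (a : F) = x ∧ Ideal.span {a} = (J : Ideal (𝓞 F)) ^ 2} := by
    intro x hx
    obtain ⟨a, ha, rfl⟩ := U3_exists_int F x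
    have ha1 : (a : F) ≠ 0 := by simpa using ha
    obtain ⟨J, hJ, hJ2⟩ := U3_even_sq F a ha fun w => (par_cls_eq_one_iff w ha1).mp (hx w)
    rw [Set.mem_iUnion]
    exact ⟨ClassGroup.mk0 ⟨J, mem_nonZeroDivisors_of_ne_zero hJ⟩, ⟨J, mem_nonZeroDivisors_of_ne_zero hJ⟩,
      a, rfl, ha, rfl, hJ2⟩
  refine Set.Finite.subset (Set.finite_iUnion fun c => ?_) hcover
  rcases Set.eq_empty_or_nonempty {x : SqC F | ∃ (J : nonZeroDivisors (Ideal (𝓞 F))) (a : 𝓞 F),
        ClassGroup.mk0 J = c ∧ a ≠ 0 ∧ cls (a : F) = x ∧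
          Ideal.span {a} = (J : Ideal (𝓞 F)) ^ 2} with h | ⟨x0, J0, a0, hJ0, ha0, hx0, hs0⟩
  · rw [h]
    exact Set.finite_empty
  · refine ((U3_range_finite F).image (fun u => x0 * u)).subset ?_
    rintro x ⟨J, a, hJ, ha, hx, hs⟩
    obtain ⟨y, z, hy, hz, hyz⟩ := (ClassGroup.mk0_eq_mk0_iff).mp (hJ0.trans hJ.symm)
    have h1 : Ideal.span {y ^ 2 * a0} = Ideal.span {z ^ 2 * a} := by
      rw [← Ideal.span_singleton_mul_span_singleton, ← Ideal.span_singleton_mul_span_singleton,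
        ← Ideal.span_singleton_pow, ← Ideal.span_singleton_pow, hs0, hs, ← mul_pow, ← mul_pow, hyz]
    obtain ⟨u, hu⟩ := Ideal.span_singleton_eq_span_singleton.mp h1
    refine ⟨U3_unitMap F u, ⟨u, rfl⟩, ?_⟩
    have hy1 : (y : F) ≠ 0 := by simpa using hy
    have hz1 : (z : F) ≠ 0 := by simpa using hz
    have ha1 : (a : F) ≠ 0 := by simpa using ha
    have ha01 : (a0 : F) ≠ 0 := by simpa using ha0
    have hu1 : ((u : 𝓞 F) : F) ≠ 0 := by
      simp
    have hu' : (y : F) ^ 2 * (a0 : F) * ((u : 𝓞 F) : F) = (z : F) ^ 2 * (a : F) := by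
      exact_mod_cast congrArg (fun t : 𝓞 F => (t : F)) hu
    change x0 * U3_unitMap F u = x
    rw [← hx0, ← hx, U3_unitMap_eq, ← cls_mul ha01 hu1, cls_eq_cls_iff (mul_ne_zero ha01 hu1) ha1]
    refine ⟨(z : F) * (a : F) / (y : F), ?_⟩
    field_simp
    linear_combination hu'

theorem finite_unramified (B : Set (HeightOneSpectrum (𝓞 F))) (hB : B.Finite) :
    {x : SqC F | ∀ w, w ∉ B → par w x = 1}.Finite := by
  classical
  have : Finite B := hB.to_subtype
  have hcover : {x : SqC F | ∀ w, w ∉ B → par w x = 1} ⊆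
      ⋃ f : B → Multiplicative (ZMod 2), {x : SqC F | (∀ w, w ∉ B → par w x = 1) ∧
        ∀ w : B, par w.1 x = f w} := by
    intro x hx
    rw [Set.mem_iUnion]
    exact ⟨fun w => par w.1 x, hx, fun w => rfl⟩
  refine Set.Finite.subset (Set.finite_iUnion fun f => ?_) hcover
  rcases Set.eq_empty_or_nonempty {x : SqC F | (∀ w, w ∉ B → par w x = 1) ∧
        ∀ w : B, par w.1 x = f w} with h | ⟨x0, h0, h0'⟩
  · rw [h]
    exact Set.finite_empty
  · refine ((U3_kernel_finite F).image (fun u => x0 * u)).subset ?_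
    rintro x ⟨hx, hx'⟩
    refine ⟨x0⁻¹ * x, ?_, by simp⟩
    intro w
    rw [map_mul, map_inv]
    by_cases hw : w ∈ B
    · rw [h0' ⟨w, hw⟩, hx' ⟨w, hw⟩, inv_mul_cancel]
    · rw [h0 w hw, hx w hw, inv_mul_cancel]


end H16A
end

-- from Lib.H16A.M1
section

/-!
# M1 (M): the addition-and-subtraction map on x-coordinates

Mathlib (`AlgebraicGeometry/EllipticCurve/Affine/AddSubMap.lean`) defines `addSubMap W` and
`Point.sym2x P Q = ![x(P)x(Q), x(P)+x(Q), 1]` (with the obvious modifications at the point `0`), but does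
not prove that `addSubMap` maps `sym2x P Q` to a multiple of `sym2x (P + Q) (P - Q)`.
Proof for `y² = x³ + a x² + b x + c` by cases.
* `P = 0` or `Q = 0`: `sym2x 0 Q = ![x, 1, 0]`, `addSubMap = ![x², 2x, 1]`, `P ± Q = ± Q`.
* `x(P) ≠ x(Q)`: `x(P ± Q) = ((y_P ∓ y_Q)/(x_P - x_Q))² - a - x_P - x_Q`; the sum and the product are
  rational functions of `x_P, x_Q` (use `y² = f(x)`), the factor is `(x_P - x_Q)²`.
* `x(P) = x(Q)`, so `Q = ± P`: one of `P ± Q` is `0` and the other is `2P`; `sym2x = ![x(2P), 1, 0]` if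
  `2P ≠ 0` (`x(2P) = (f'(x)/(2y))² - a - 2x`, factor `4 f(x)`), `![1, 0, 0]` if `2P = 0`, i.e. `y = 0`
  (factor `f'(x)² ≠ 0`).
-/

open WeierstrassCurve

namespace H16A
namespace Cub

section M1

variable {K : Type*} [Field K] [DecidableEq K] (W : WeierstrassCurve.Affine K)

omit [DecidableEq K] in
theorem M1_eval (s t u : K) :
    (fun i => (addSubMap W i).eval ![s, t, u]) =
      ![s ^ 2 - W.b₄ * s * u - W.b₆ * t * u - W.b₈ * u ^ 2,
        2 * t * s + W.b₂ * s * u + W.b₄ * t * u + W.b₆ * u ^ 2, t ^ 2 - 4 * s * u] := by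
  funext i
  fin_cases i <;> simp [addSubMap]

variable {W} (ha1 : W.a₁ = 0) (ha3 : W.a₃ = 0)
include ha1 ha3

omit [DecidableEq K] in
theorem M1_eval' (s t u : K) :
    (fun i => (addSubMap W i).eval ![s, t, u]) =
      ![s ^ 2 - 2 * W.a₄ * s * u - 4 * W.a₆ * t * u - (4 * W.a₂ * W.a₆ - W.a₄ ^ 2) * u ^ 2,
        2 * t * s + 4 * W.a₂ * s * u + 2 * W.a₄ * t * u + 4 * W.a₆ * u ^ 2,
        t ^ 2 - 4 * s * u] := by
  rw [M1_eval]
  have e2 : W.b₂ = 4 * W.a₂ := by rw [WeierstrassCurve.b₂, ha1]; ring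
  have e4 : W.b₄ = 2 * W.a₄ := by rw [WeierstrassCurve.b₄, ha1]; ring
  have e6 : W.b₆ = 4 * W.a₆ := by rw [WeierstrassCurve.b₆, ha3]; ring
  have e8 : W.b₈ = 4 * W.a₂ * W.a₆ - W.a₄ ^ 2 := by rw [WeierstrassCurve.b₈, ha1, ha3]; ring
  rw [e2, e4, e6, e8]

omit [DecidableEq K] in
theorem M1_equation {x y : K} (h : W.Nonsingular x y) :
    y ^ 2 = x ^ 3 + W.a₂ * x ^ 2 + W.a₄ * x + W.a₆ := by
  have := (W.equation_iff x y).1 h.1
  rw [ha1, ha3] at this
  linear_combination this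

omit [DecidableEq K] in
theorem M1_negY (x y : K) : W.negY x y = -y := by
  rw [WeierstrassCurve.Affine.negY, ha1, ha3]; ring

theorem M1_ne {x1 y1 x2 y2 : K} (h1 : W.Nonsingular x1 y1) (h2 : W.Nonsingular x2 y2)
    (hx : x1 ≠ x2) : ∃ t : K, t ≠ 0 ∧
      (fun i => (addSubMap W i).eval
        ((WeierstrassCurve.Affine.Point.some x1 y1 h1).sym2x
          (WeierstrassCurve.Affine.Point.some x2 y2 h2))) =
        t • ((WeierstrassCurve.Affine.Point.some x1 y1 h1 +
          WeierstrassCurve.Affine.Point.some x2 y2 h2).sym2x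
          (WeierstrassCurve.Affine.Point.some x1 y1 h1 -
          WeierstrassCurve.Affine.Point.some x2 y2 h2)) := by
  have hxy : x1 - x2 ≠ 0 := sub_ne_zero.2 hx
  refine ⟨(x1 - x2) ^ 2, pow_ne_zero 2 hxy, ?_⟩
  rw [sub_eq_add_neg (WeierstrassCurve.Affine.Point.some x1 y1 h1),
    WeierstrassCurve.Affine.Point.neg_some,
    WeierstrassCurve.Affine.Point.add_of_X_ne hx, WeierstrassCurve.Affine.Point.add_of_X_ne hx,
    WeierstrassCurve.Affine.Point.sym2x_some_some, WeierstrassCurve.Affine.Point.sym2x_some_some,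
    M1_eval' ha1 ha3, WeierstrassCurve.Affine.slope_of_X_ne hx,
    WeierstrassCurve.Affine.slope_of_X_ne hx, M1_negY ha1 ha3]
  have E1 := M1_equation ha1 ha3 h1
  have E2 := M1_equation ha1 ha3 h2
  simp only [WeierstrassCurve.Affine.addX, ha1]
  have key0 : (y1 ^ 2 + y2 ^ 2 - (W.a₂ + x1 + x2) * (x1 - x2) ^ 2) ^ 2 - 4 * y1 ^ 2 * y2 ^ 2 =
      (x1 - x2) ^ 2 * ((x1 * x2) ^ 2 - 2 * W.a₄ * (x1 * x2) * 1 - 4 * W.a₆ * (x1 + x2) * 1 -
        (4 * W.a₂ * W.a₆ - W.a₄ ^ 2) * 1 ^ 2) := by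
    rw [E1, E2]; ring
  have key1 : 2 * (y1 ^ 2 + y2 ^ 2 - (W.a₂ + x1 + x2) * (x1 - x2) ^ 2) =
      2 * (x1 + x2) * (x1 * x2) + 4 * W.a₂ * (x1 * x2) * 1 + 2 * W.a₄ * (x1 + x2) * 1 +
        4 * W.a₆ * 1 ^ 2 := by
    rw [E1, E2]; ring
  have f0 : (x1 - x2) ^ 2 * ((((y1 - y2) / (x1 - x2)) ^ 2 + 0 * ((y1 - y2) / (x1 - x2)) - W.a₂ -
      x1 - x2) * (((y1 - -y2) / (x1 - x2)) ^ 2 + 0 * ((y1 - -y2) / (x1 - x2)) - W.a₂ - x1 - x2)) =
      (x1 * x2) ^ 2 - 2 * W.a₄ * (x1 * x2) * 1 - 4 * W.a₆ * (x1 + x2) * 1 -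
        (4 * W.a₂ * W.a₆ - W.a₄ ^ 2) * 1 ^ 2 := by
    have h3 : (x1 - x2) ^ 2 * ((x1 - x2) ^ 2 * ((((y1 - y2) / (x1 - x2)) ^ 2 +
        0 * ((y1 - y2) / (x1 - x2)) - W.a₂ - x1 - x2) * (((y1 - -y2) / (x1 - x2)) ^ 2 +
        0 * ((y1 - -y2) / (x1 - x2)) - W.a₂ - x1 - x2))) =
        (y1 ^ 2 + y2 ^ 2 - (W.a₂ + x1 + x2) * (x1 - x2) ^ 2) ^ 2 - 4 * y1 ^ 2 * y2 ^ 2 := by
      field_simp
      ring
    rw [key0] at h3
    exact mul_left_cancel₀ (pow_ne_zero 2 hxy) h3
  have f1 : (x1 - x2) ^ 2 * ((((y1 - y2) / (x1 - x2)) ^ 2 + 0 * ((y1 - y2) / (x1 - x2)) - W.a₂ -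
      x1 - x2) + (((y1 - -y2) / (x1 - x2)) ^ 2 + 0 * ((y1 - -y2) / (x1 - x2)) - W.a₂ - x1 - x2)) =
      2 * (x1 + x2) * (x1 * x2) + 4 * W.a₂ * (x1 * x2) * 1 + 2 * W.a₄ * (x1 + x2) * 1 +
        4 * W.a₆ * 1 ^ 2 := by
    rw [← key1]
    field_simp
    ring
  rw [Matrix.smul_vec3, smul_eq_mul, smul_eq_mul, smul_eq_mul, f0, f1]
  congr 3
  ring

theorem M1_same (h2 : (2 : K) ≠ 0) {x y : K} (h : W.Nonsingular x y) : ∃ t : K, t ≠ 0 ∧
      (fun i => (addSubMap W i).eval ![x * x, x + x, 1]) =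
        t • ((WeierstrassCurve.Affine.Point.some x y h +
          WeierstrassCurve.Affine.Point.some x y h).sym2x 0) := by
  have E1 := M1_equation ha1 ha3 h
  rw [M1_eval' ha1 ha3]
  by_cases hy : y = 0
  · subst hy
    have hy' : (0 : K) = W.negY x 0 := by rw [M1_negY ha1 ha3, neg_zero]
    rw [WeierstrassCurve.Affine.Point.add_self_of_Y_eq hy',
      WeierstrassCurve.Affine.Point.sym2x_zero_zero]
    have hd : 3 * x ^ 2 + 2 * W.a₂ * x + W.a₄ ≠ 0 := by
      rcases ((W.nonsingular_iff x 0).1 h).2 with h3 | h3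
      · rw [ha1, zero_mul] at h3
        exact h3.symm
      · rw [ha1, ha3] at h3
        exact absurd (by ring) h3
    refine ⟨(3 * x ^ 2 + 2 * W.a₂ * x + W.a₄) ^ 2, pow_ne_zero 2 hd, ?_⟩
    rw [Matrix.smul_vec3, smul_eq_mul, smul_eq_mul]
    have e6 : W.a₆ = -(x ^ 3 + W.a₂ * x ^ 2 + W.a₄ * x) := by linear_combination -E1
    rw [e6]
    congr 1
    · ring
    · congr 1
      · ring
      · congr 1
        ring
  · have hy2 : y ≠ W.negY x y := by
      rw [M1_negY ha1 ha3]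
      intro h3
      apply hy
      have : 2 * y = 0 := by linear_combination h3
      exact (mul_eq_zero.1 this).resolve_left h2
    rw [WeierstrassCurve.Affine.Point.add_self_of_Y_ne hy2,
      WeierstrassCurve.Affine.Point.sym2x_some_zero,
      WeierstrassCurve.Affine.slope_of_Y_ne rfl hy2, M1_negY ha1 ha3]
    refine ⟨4 * y ^ 2, mul_ne_zero (by
      have : (4 : K) = 2 * 2 := by norm_num
      rw [this]; exact mul_ne_zero h2 h2) (pow_ne_zero 2 hy), ?_⟩
    simp only [WeierstrassCurve.Affine.addX, ha1]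
    have f0 : 4 * y ^ 2 * (((3 * x ^ 2 + 2 * W.a₂ * x + W.a₄ - 0 * y) / (y - -y)) ^ 2 +
        0 * ((3 * x ^ 2 + 2 * W.a₂ * x + W.a₄ - 0 * y) / (y - -y)) - W.a₂ - x - x) =
        (x * x) ^ 2 - 2 * W.a₄ * (x * x) * 1 - 4 * W.a₆ * (x + x) * 1 -
        (4 * W.a₂ * W.a₆ - W.a₄ ^ 2) * 1 ^ 2 := by
      have h4 : y - -y = 2 * y := by ring
      rw [h4]
      have h5 : 4 * y ^ 2 * (((3 * x ^ 2 + 2 * W.a₂ * x + W.a₄ - 0 * y) / (2 * y)) ^ 2 +
        0 * ((3 * x ^ 2 + 2 * W.a₂ * x + W.a₄ - 0 * y) / (2 * y)) - W.a₂ - x - x) =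
        (3 * x ^ 2 + 2 * W.a₂ * x + W.a₄) ^ 2 - 4 * (W.a₂ + 2 * x) * y ^ 2 := by
        field_simp
        ring
      rw [h5, E1]
      ring
    rw [Matrix.smul_vec3, smul_eq_mul, smul_eq_mul, smul_eq_mul, f0]
    congr 1
    congr 1
    · have h6 : 4 * y ^ 2 * 1 = 4 * (x ^ 3 + W.a₂ * x ^ 2 + W.a₄ * x + W.a₆) := by rw [E1]; ring
      rw [h6]
      ring
    · congr 1
      ring

theorem M1_gen (h2 : (2 : K) ≠ 0) (P Q : W.Point) : ∃ t : K, t ≠ 0 ∧
      (fun i => (addSubMap W i).eval (P.sym2x Q)) = t • ((P + Q).sym2x (P - Q)) := by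
  rcases P with _ | ⟨x1, y1, h1⟩
  · rw [← WeierstrassCurve.Affine.Point.zero_def, zero_add, zero_sub]
    refine ⟨1, one_ne_zero, ?_⟩
    rw [one_smul, WeierstrassCurve.Affine.Point.sym2x_neg_right]
    rcases Q with _ | ⟨x2, y2, h2'⟩
    · rw [← WeierstrassCurve.Affine.Point.zero_def,
        WeierstrassCurve.Affine.Point.sym2x_zero_zero, M1_eval' ha1 ha3]
      congr 1
      · ring
      · congr 1
        · ring
        · congr 1
          ring
    · rw [WeierstrassCurve.Affine.Point.sym2x_zero_some,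
        WeierstrassCurve.Affine.Point.sym2x_some_some, M1_eval' ha1 ha3]
      congr 1
      · ring
      · congr 1
        · ring
        · congr 1
          ring
  · rcases Q with _ | ⟨x2, y2, h2'⟩
    · rw [← WeierstrassCurve.Affine.Point.zero_def, add_zero, sub_zero]
      refine ⟨1, one_ne_zero, ?_⟩
      rw [one_smul, WeierstrassCurve.Affine.Point.sym2x_some_zero,
        WeierstrassCurve.Affine.Point.sym2x_some_some, M1_eval' ha1 ha3]
      congr 1
      · ring
      · congr 1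
        · ring
        · congr 1
          ring
    · by_cases hx : x1 = x2
      · rcases WeierstrassCurve.Affine.Point.X_eq_iff.1 hx with h3 | h3
        · rw [← h3, sub_self, WeierstrassCurve.Affine.Point.sym2x_some_some]
          exact M1_same ha1 ha3 h2 h1
        · have h4 : WeierstrassCurve.Affine.Point.some x2 y2 h2' =
              -WeierstrassCurve.Affine.Point.some x1 y1 h1 := by rw [h3, neg_neg]
          rw [h4, sub_neg_eq_add, add_neg_cancel, WeierstrassCurve.Affine.Point.sym2x_neg_right,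
            WeierstrassCurve.Affine.Point.sym2x_comm 0,
            WeierstrassCurve.Affine.Point.sym2x_some_some]
          exact M1_same ha1 ha3 h2 h1
      · exact M1_ne ha1 ha3 h1 h2' hx

end M1

variable (E : Cub)


end Cub
end H16A
end

-- from Lib.H16C.MW2
section

/-!
# MW2 (S/M): Mordell-Weil theorem from the weak one (copy of H16A/M2)

The proof of `H16A.Cub.mordell_weil` (file H16A/M2.lean: `m2_par`, `m2_northcott`, `mordell_weil`) for a
general short elliptic curve over a number field: replace `E.Pt K` by `W.Point`,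
`E.addSub_sym2x` by `H16A.Cub.M1_gen (W := W) ha1 ha3 two_ne_zero P Q` (H16A/M1.lean, with
`W.a₁ = W.a₃ = 0`: `a₁_of_isShortNF`, `a₃_of_isShortNF`), and `E.m2_elliptic` by the instance.
-/

open WeierstrassCurve NumberField

namespace H16C

open Height

/-- the naive height -/
noncomputable def mw2_h {L : Type*} [Field L] [AdmissibleAbsValues L]
    {W : WeierstrassCurve.Affine L} (P : W.Point) : ℝ :=
  logHeight P.xRep

theorem mw2_par {L : Type*} [Field L] [NumberField L] [DecidableEq L]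
    (W : WeierstrassCurve.Affine L) [W.IsShortNF] [W.IsElliptic] :
    ∃ C : ℝ, ∀ P Q : W.Point,
      |mw2_h (P + Q) + mw2_h (P - Q) - 2 * (mw2_h P + mw2_h Q)| ≤ C := by
  obtain ⟨C₁, h1⟩ := abs_logHeight_addSubMap_sub_two_mul_logHeight_le W
  obtain ⟨C₂, h2⟩ := abs_logHeight_sym2_sub_le L
  have hx : ∀ P : W.Point, P.xRep = ![P.xRep 0, P.xRep 1] := by
    intro P
    funext i
    fin_cases i <;> rfl
  have h3 : ∀ P Q : W.Point, |logHeight (P.sym2x Q) - (mw2_h P + mw2_h Q)| ≤ C₂ := by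
    intro P Q
    have h4 := h2 (a := P.xRep 0) (b := P.xRep 1) (c := Q.xRep 0) (d := Q.xRep 1)
      (by rw [← hx]; exact P.xRep_ne_zero) (by rw [← hx]; exact Q.xRep_ne_zero)
    rw [← hx, ← hx] at h4
    exact h4
  refine ⟨C₁ + 3 * C₂, fun P Q => ?_⟩
  obtain ⟨t, ht, h5⟩ := H16A.Cub.M1_gen (W := W) (a₁_of_isShortNF W) (a₃_of_isShortNF W)
    two_ne_zero P Q
  have h6 := h1 (P.sym2x Q)
  rw [h5, logHeight_smul_eq_logHeight _ ht] at h6
  have h7 := h3 P Q
  have h8 := h3 (P + Q) (P - Q)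
  rw [abs_le] at h6 h7 h8 ⊢
  constructor <;> linarith [h6.1, h6.2, h7.1, h7.2, h8.1, h8.2]

theorem mw2_northcott {L : Type*} [Field L] [NumberField L] (W : WeierstrassCurve.Affine L) :
    Northcott (fun P : W.Point => mw2_h P) := by
  refine ⟨fun B => ?_⟩
  have h1 := NumberField.finite_setOfPred_logHeight₁_le L B
  have h2 : ((fun x : L => ![x, 1]) '' {x : L | logHeight₁ x ≤ B} ∪ {![1, 0]}).Finite :=
    (h1.image _).union (Set.finite_singleton _)
  refine Set.Finite.subset (Set.Finite.preimage' (f := fun P : W.Point => P.xRep) h2 ?_) ?_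
  · intro b _
    by_cases h : ∃ P : W.Point, P.xRep = b
    · obtain ⟨P, rfl⟩ := h
      refine Set.Finite.subset (Set.toFinite {P, -P}) ?_
      intro Q hQ
      exact WeierstrassCurve.Affine.Point.xRep_eq_xRep_iff.1 hQ
    · refine Set.Finite.subset Set.finite_empty ?_
      intro Q hQ
      exact h ⟨Q, hQ⟩
  · intro P hP
    rcases P with _ | ⟨x, y, h⟩
    · exact Or.inr rfl
    · refine Or.inl ⟨x, ?_, rfl⟩
      change logHeight₁ x ≤ B
      rw [logHeight₁_eq_logHeight]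
      exact hP

theorem mordell_weil {L : Type*} [Field L] [NumberField L] [DecidableEq L]
    (W : WeierstrassCurve.Affine L) [W.IsShortNF] [W.IsElliptic]
    (hw : (H16A.twoG W.Point).index ≠ 0) : Module.Finite ℤ W.Point := by
  obtain ⟨C, hC⟩ := mw2_par W
  have hN := mw2_northcott W
  have h1 : AddGroup.FG W.Point := by
    refine AddCommGroup.fg_of_descent' (h := fun P : W.Point => mw2_h P) (C := C) ⟨hw⟩ ?_ hC
    intro P
    unfold mw2_h
    rw [logHeight_eq_log_mulHeight]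
    exact Real.log_nonneg (one_le_mulHeight _)
  exact Module.Finite.iff_addGroup_fg.2 h1

end H16C
end

-- from Lib.SSG.F.Defs
section

/-!
SSG, module (F): the one-variable functional at a supersingular prime.
Lubin-Tate frame `LTF`, functions `Fn`, and the target `F_main` (file `Main.lean`).
-/

open NumberField

namespace SSG

/-- J_k = floor (p^k / (p+1)) -/
def Jn (p k : ℕ) : ℕ := p ^ k / (p + 1)

/-- the coordinates of the points `a t_N` (`a : 𝓞 F`, `t_N` a generator of `E[p^N]`,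
`-p t_(N+1) = t_N`) and a coherent system of roots of unity -/
structure LTF (F : Type) [Field F] [NumberField F] (C : Type) [NormedField C] where
  X : ℕ → 𝓞 F → C
  z : ℕ → C

/-- norm to `ℕ` (F imaginary quadratic) -/
noncomputable def nrm {F : Type} [Field F] [NumberField F] (a : 𝓞 F) : ℕ := (Algebra.norm ℤ a).natAbs

/-- Lubin-Tate frame: `[-p](X) = -p X + X^(p^2)`, and `z_N ^ (norm a)` is, for `a` prime to `p`, a polynomial in
`X_N(a)` with coefficients in an unramified ring (a coefficient which is not a unit is divisible by `p`). -/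
structure LTF.Ok (p : ℕ) {F : Type} [Field F] [NumberField F] {C : Type} [NormedField C] (L : LTF F C) : Prop where
  small : ∀ N a, ‖L.X N a‖ < 1
  inj : ∀ N a b, L.X N a = L.X N b ↔ (p : 𝓞 F) ^ N ∣ a - b
  down : ∀ N a, L.X N a = L.X (N + 1) (-(p : 𝓞 F) * a)
  g : ∀ N a, L.X N a = -(p : C) * L.X (N + 1) a + L.X (N + 1) a ^ (p ^ 2)
  prim : ∀ N, IsPrimitiveRoot (L.z N) (p ^ N)
  zdown : ∀ N, L.z (N + 1) ^ p = L.z N
  w : ∀ N, 1 ≤ N → ∃ w : Polynomial C, (∀ i, ‖w.coeff i‖ ≤ 1) ∧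
    (∀ i, ‖(w - 1).coeff i‖ < 1 → ‖(w - 1).coeff i‖ ≤ ‖(p : C)‖) ∧
    ∀ a : 𝓞 F, ¬ (p : 𝓞 F) ∣ a → w.eval (L.X N a) = L.z N ^ nrm a

/-- representatives modulo `p^N` -/
def Rep (p N : ℕ) {F : Type} [Field F] [NumberField F] (T : Finset (𝓞 F)) : Prop :=
  ∀ x : 𝓞 F, ∃! a, a ∈ T ∧ (p : 𝓞 F) ^ N ∣ x - a

/-- uniform limits of polynomials with integral coefficients in the coordinates of level `N` -/
def LTF.Fn {F : Type} [Field F] [NumberField F] {C : Type} [NormedField C] (L : LTF F C) (N : ℕ)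
    (ι : Type) [Fintype ι] (H : (ι → 𝓞 F) → C) : Prop :=
  ∀ ε : ℝ, 0 < ε → ∃ Q : MvPolynomial ι C, (∀ m, ‖Q.coeff m‖ ≤ 1) ∧
    ∀ a : ι → 𝓞 F, ‖H a - MvPolynomial.eval (fun i => L.X N (a i)) Q‖ ≤ ε

/-- the exponents `e` with `|2 e - N| ≤ 1` -/
def EN (N : ℕ) : Finset ℕ := (Finset.range (N + 1)).filter (fun e => N ≤ 2 * e + 1 ∧ 2 * e ≤ N + 1)

/-- `S(H)`: the sum over the units with a character of the norms -/
noncomputable def SH {F : Type} [Field F] [NumberField F] {C : Type} [NormedField C] {p N : ℕ}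
    (χ : DirichletCharacter C (p ^ N)) (ι : Type) [Fintype ι] [DecidableEq ι] (T : Finset (𝓞 F))
    (H : (ι → 𝓞 F) → C) : C :=
  ∑ a ∈ Fintype.piFinset (fun _ : ι => T), (∏ i, χ ((nrm (a i) : ℕ) : ZMod (p ^ N))) * H a

open Classical in
/-- `T_e(H)` -/
noncomputable def TH {F : Type} [Field F] [NumberField F] {C : Type} [NormedField C] (p N : ℕ)
    (ι : Type) [Fintype ι] (T : Finset (𝓞 F)) (e : ι → ℕ)
    (H : (ι → 𝓞 F) → C) : C :=
  (∏ i, (-(p : C)) ^ e i)⁻¹ *
    ∑ a ∈ (Fintype.piFinset (fun _ : ι => T)).filter (fun a => ∀ i, (p : 𝓞 F) ^ (N - e i) ∣ a i), H a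

end SSG
end

-- from Lib.SSG.E.A1
section

open NumberField

namespace SSG

variable {F : Type} [Field F] [NumberField F] {C : Type} [NormedField C] [IsUltrametricDist C] {L : LTF F C} {N : ℕ}
  {ι : Type} [Fintype ι]

/-! Chunk A1 (M). The functions Fn form a ring, closed under uniform limits. hs : all coordinates have norm < 1 (field small of LTF.Ok).
Poly: for Q with coefficients of norm <= 1 and points of norm <= 1 the value has norm <= 1 (MvPolynomial.eval_eq: finite sum, IsUltrametricDist.norm_sum_le_of_forall_le_of_nonneg or induction; norm_prod). Fn_le: ‖H a‖ <= max (‖H a - Q(a)‖, ‖Q(a)‖) <= max (ε, 1) for all ε.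
const: MvPolynomial.C c. X: the coordinate function (MvPolynomial.X k). add: Q1 + Q2 (coeff_add, ultrametric). neg: -Q. mul: Q1 * Q2 (MvPolynomial.coeff_mul: a finite sum over the antidiagonal of products of norm <= 1), H1 H2 - Q1 Q2 = H1 (H2 - Q2) + (H1 - Q1) Q2, norms <= ε.
sum, prod: Finset.induction. lim: take H' for ε, then Q for H' and ε. scal: const * H. pow: induction. -/

theorem Fn_const {c : C} (hc : ‖c‖ ≤ 1) : L.Fn N ι (fun _ => c) := by
  classical
  intro ε hε
  refine ⟨MvPolynomial.C c, fun m => ?_, fun a => ?_⟩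
  · rw [MvPolynomial.coeff_C]
    split_ifs
    · exact hc
    · rw [norm_zero]
      exact zero_le_one
  · rw [MvPolynomial.eval_C, sub_self, norm_zero]
    exact hε.le


theorem a1_eval_le {Q : MvPolynomial ι C} (hQ : ∀ m, ‖Q.coeff m‖ ≤ 1) {x : ι → C}
    (hx : ∀ i, ‖x i‖ ≤ 1) : ‖MvPolynomial.eval x Q‖ ≤ 1 := by
  rw [MvPolynomial.eval_eq']
  refine IsUltrametricDist.norm_sum_le_of_forall_le_of_nonneg zero_le_one fun m _ => ?_
  rw [norm_mul, norm_prod]
  refine mul_le_one₀ (hQ m) (Finset.prod_nonneg fun i _ => norm_nonneg _)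
    (Finset.prod_le_one (fun i _ => norm_nonneg _) fun i _ => ?_)
  rw [norm_pow]
  exact pow_le_one₀ (norm_nonneg _) (hx i)

theorem a1_max {x y : C} {ε : ℝ} (hx : ‖x‖ ≤ ε) (hy : ‖y‖ ≤ ε) : ‖x + y‖ ≤ ε :=
  (IsUltrametricDist.norm_add_le_max x y).trans (max_le hx hy)

theorem Fn_le (hs : ∀ N a, ‖L.X N a‖ < 1) {H : (ι → 𝓞 F) → C} (h : L.Fn N ι H) (a : ι → 𝓞 F) : ‖H a‖ ≤ 1 := by
  obtain ⟨Q, hQ, hQ2⟩ := h 1 one_pos
  have h1 := a1_max (hQ2 a) (a1_eval_le hQ fun i => (hs N (a i)).le)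
  rwa [sub_add_cancel] at h1

theorem Fn_add {H₁ H₂ : (ι → 𝓞 F) → C} (h₁ : L.Fn N ι H₁) (h₂ : L.Fn N ι H₂) : L.Fn N ι (fun a => H₁ a + H₂ a) := by
  intro ε hε
  obtain ⟨Q₁, hQ₁, hQ₁'⟩ := h₁ ε hε
  obtain ⟨Q₂, hQ₂, hQ₂'⟩ := h₂ ε hε
  refine ⟨Q₁ + Q₂, fun m => ?_, fun a => ?_⟩
  · rw [MvPolynomial.coeff_add]
    exact a1_max (hQ₁ m) (hQ₂ m)
  · rw [map_add, add_sub_add_comm]
    exact a1_max (hQ₁' a) (hQ₂' a)

theorem Fn_neg {H : (ι → 𝓞 F) → C} (h : L.Fn N ι H) : L.Fn N ι (fun a => -H a) := by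
  intro ε hε
  obtain ⟨Q, hQ, hQ'⟩ := h ε hε
  refine ⟨-Q, fun m => ?_, fun a => ?_⟩
  · rw [MvPolynomial.coeff_neg, norm_neg]
    exact hQ m
  · rw [map_neg, neg_sub_neg, norm_sub_rev]
    exact hQ' a

theorem Fn_sub {H₁ H₂ : (ι → 𝓞 F) → C} (h₁ : L.Fn N ι H₁) (h₂ : L.Fn N ι H₂) : L.Fn N ι (fun a => H₁ a - H₂ a) := by
  have h := Fn_add h₁ (Fn_neg h₂)
  simp only [← sub_eq_add_neg] at h
  exact h

theorem Fn_mul (hs : ∀ N a, ‖L.X N a‖ < 1) {H₁ H₂ : (ι → 𝓞 F) → C} (h₁ : L.Fn N ι H₁) (h₂ : L.Fn N ι H₂) :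
    L.Fn N ι (fun a => H₁ a * H₂ a) := by
  classical
  intro ε hε
  obtain ⟨Q₁, hQ₁, hQ₁'⟩ := h₁ ε hε
  obtain ⟨Q₂, hQ₂, hQ₂'⟩ := h₂ ε hε
  refine ⟨Q₁ * Q₂, fun m => ?_, fun a => ?_⟩
  · rw [MvPolynomial.coeff_mul]
    refine IsUltrametricDist.norm_sum_le_of_forall_le_of_nonneg zero_le_one fun x _ => ?_
    rw [norm_mul]
    exact mul_le_one₀ (hQ₁ _) (norm_nonneg _) (hQ₂ _)
  · rw [map_mul]
    have h3 : H₁ a * H₂ a - MvPolynomial.eval (fun i => L.X N (a i)) Q₁ *
        MvPolynomial.eval (fun i => L.X N (a i)) Q₂ =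
        H₁ a * (H₂ a - MvPolynomial.eval (fun i => L.X N (a i)) Q₂) +
          (H₁ a - MvPolynomial.eval (fun i => L.X N (a i)) Q₁) *
            MvPolynomial.eval (fun i => L.X N (a i)) Q₂ := by ring
    rw [h3]
    refine a1_max ?_ ?_
    · rw [norm_mul]
      exact (mul_le_of_le_one_left (norm_nonneg _) (Fn_le hs h₁ a)).trans (hQ₂' a)
    · rw [norm_mul]
      exact (mul_le_of_le_one_right (norm_nonneg _)
        (a1_eval_le hQ₂ fun i => (hs N (a i)).le)).trans (hQ₁' a)

theorem Fn_pow (hs : ∀ N a, ‖L.X N a‖ < 1) {H : (ι → 𝓞 F) → C} (h : L.Fn N ι H) (n : ℕ) :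
    L.Fn N ι (fun a => H a ^ n) := by
  induction n with
  | zero =>
    simp only [pow_zero]
    exact Fn_const norm_one.le
  | succ n ih =>
    simp only [pow_succ]
    exact Fn_mul hs ih h

theorem Fn_scal (hs : ∀ N a, ‖L.X N a‖ < 1) {c : C} (hc : ‖c‖ ≤ 1) {H : (ι → 𝓞 F) → C} (h : L.Fn N ι H) :
    L.Fn N ι (fun a => c * H a) :=
  Fn_mul hs (Fn_const hc) h

theorem Fn_sum {κ : Type} (s : Finset κ) {H : κ → (ι → 𝓞 F) → C} (h : ∀ k ∈ s, L.Fn N ι (H k)) :
    L.Fn N ι (fun a => ∑ k ∈ s, H k a) := by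
  classical
  induction s using Finset.induction_on with
  | empty =>
    simp only [Finset.sum_empty]
    exact Fn_const (by rw [norm_zero]; exact zero_le_one)
  | insert k s hk ih =>
    simp only [Finset.sum_insert hk]
    exact Fn_add (h k (Finset.mem_insert_self k s))
      (ih fun l hl => h l (Finset.mem_insert_of_mem hl))

theorem Fn_prod (hs : ∀ N a, ‖L.X N a‖ < 1) {κ : Type} (s : Finset κ) {H : κ → (ι → 𝓞 F) → C}
    (h : ∀ k ∈ s, L.Fn N ι (H k)) : L.Fn N ι (fun a => ∏ k ∈ s, H k a) := by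
  classical
  induction s using Finset.induction_on with
  | empty =>
    simp only [Finset.prod_empty]
    exact Fn_const norm_one.le
  | insert k s hk ih =>
    simp only [Finset.prod_insert hk]
    exact Fn_mul hs (h k (Finset.mem_insert_self k s))
      (ih fun l hl => h l (Finset.mem_insert_of_mem hl))

theorem Fn_lim {H : (ι → 𝓞 F) → C} (h : ∀ ε : ℝ, 0 < ε → ∃ H', L.Fn N ι H' ∧ ∀ a, ‖H a - H' a‖ ≤ ε) : L.Fn N ι H := by
  intro ε hε
  obtain ⟨H', h1, h2⟩ := h ε hε
  obtain ⟨Q, hQ, hQ'⟩ := h1 ε hε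
  refine ⟨Q, hQ, fun a => ?_⟩
  have h3 := a1_max (h2 a) (hQ' a)
  rwa [sub_add_sub_cancel] at h3

end SSG
end

-- from Lib.H16C.GE3
section

/-!
# GE3 (M): the places of `Ω` on a number field; extension of a prime to `Ω`

`F` a subfield of `Ω` of finite degree over the number field `k` (so a number field; instances:
`FiniteDimensional k F` gives `NumberField F`), `A` a valuation subring of `Ω`, `v = A.valuation`.
`val_cases`: `𝔭 = {z ∈ 𝓞 F | v z < 1}` is a prime ideal.  If `𝔭 = 0`: `v z = 1` for `0 ≠ z ∈ 𝓞 F` and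
hence for all `0 ≠ x ∈ F` (fractions).  Otherwise let `w` be the corresponding
`HeightOneSpectrum (𝓞 F)`.  For `0 ≠ x ∈ F`: if `ord_w x ≥ 0` then `x = a/c`, `c ∉ 𝔭`
(`w.valuation F x ≤ 1`; the localisation at `w`), so `v x = v a/v c ≤ 1`; if `ord_w x > 0` then
`a ∈ 𝔭`, so `v x < 1`; apply this to `x` and `x⁻¹`: `v x ≤ 1 ↔ 0 ≤ ord w x`, `v x < 1 ↔ 0 < ord w x`,
`v x = 1 ↔ ord w x = 0`.
(`ord w x = - (w.valuation F x).log`, `w.valuation F x ≠ 0` for `x ≠ 0`.)
`exists_above`: for `w : HeightOneSpectrum (𝓞 F)` there is a valuation subring `A` of `Ω` such that,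
for `0 ≠ x ∈ F`, `v x ≤ 1 ↔ 0 ≤ ord w x`: the local subring of `Ω` image of the localisation
of `𝓞 F` at `w` is dominated by a valuation subring (Mathlib: `LocalSubring.exists_le_valuationSubring`,
`exists_factor_valuationRing`, Zorn); its maximal ideal contracts to `w`, then `val_cases`.
-/

open NumberField IsDedekindDomain H16A

namespace H16C

variable {k : Type*} [Field k] [NumberField k] {Ω : Type*} [Field Ω] [Algebra k Ω]

omit [NumberField k] in
theorem ge3_dom {F : IntermediateField k Ω} [NumberField F] (A : ValuationSubring Ω)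
    (w : HeightOneSpectrum (𝓞 F)) (hw : w.asIdeal = plc F A) {x : F} (hx : x ≠ 0)
    (h : 0 ≤ ord w x) :
    A.valuation (x : Ω) ≤ 1 ∧ (0 < ord w x → A.valuation (x : Ω) < 1) := by
  obtain ⟨a, b, hb, hxab⟩ := exists_div_of_ord_nonneg w h
  have hb1 : A.valuation ((b : F) : Ω) = 1 := by
    rw [hw] at hb
    exact not_mem_plc.1 hb
  have hb0 : (b : F) ≠ 0 := by
    intro h0
    rw [h0, div_zero] at hxab
    exact hx hxab
  have hb0' : b ≠ 0 := by
    intro h0
    apply hb0
    rw [h0]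
    simp
  have hval : A.valuation (x : Ω) = A.valuation ((a : F) : Ω) := by
    have h1 : (x : Ω) * ((b : F) : Ω) = ((a : F) : Ω) := by
      have h2 : x * (b : F) = (a : F) := by rw [hxab, div_mul_cancel₀ _ hb0]
      have := congrArg (fun z : F => (z : Ω)) h2
      simpa using this
    rw [← h1, map_mul, hb1, mul_one]
  refine ⟨by rw [hval]; exact FR_le_one A (FR_isIntegral F a), fun hpos => ?_⟩
  have ha0 : a ≠ 0 := by
    intro h0
    apply hx
    rw [hxab, h0]
    simp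
  have ha0F : (a : F) ≠ 0 := fun h => ha0 (RingOfIntegers.ext h)
  have hob : ord w (b : F) = 0 := by
    have h1 := ord_int_nonneg w b
    have h2 : ¬ 0 < ord w (b : F) := fun h => hb ((ord_int_pos_iff w hb0').1 h)
    omega
  have hoa : 0 < ord w (a : F) := by
    rw [hxab, ord_div w ha0F hb0, hob] at hpos
    omega
  have hmem := (ord_int_pos_iff w ha0).1 hoa
  rw [hw, mem_plc] at hmem
  rw [hval]
  exact hmem

omit [NumberField k] in
theorem ge3_iff {F : IntermediateField k Ω} [NumberField F] (A : ValuationSubring Ω)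
    (w : HeightOneSpectrum (𝓞 F)) (hw : w.asIdeal = plc F A) {x : F} (hx : x ≠ 0) :
    (A.valuation (x : Ω) ≤ 1 ↔ 0 ≤ ord w x) ∧ (A.valuation (x : Ω) < 1 ↔ 0 < ord w x) ∧
      (A.valuation (x : Ω) = 1 ↔ ord w x = 0) := by
  have hxi : x⁻¹ ≠ 0 := inv_ne_zero hx
  have hxO : (x : Ω) ≠ 0 := by
    intro h0
    exact hx (by exact_mod_cast h0)
  have hv0 : A.valuation (x : Ω) ≠ 0 := (Valuation.ne_zero_iff _).2 hxO
  have hinv : A.valuation ((x⁻¹ : F) : Ω) = (A.valuation (x : Ω))⁻¹ := by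
    have h1 : ((x⁻¹ : F) : Ω) = (x : Ω)⁻¹ := by simp
    rw [h1, map_inv₀]
  have h1 := ge3_dom A w hw hx
  have h2 := ge3_dom A w hw hxi
  rw [hinv, ord_inv] at h2
  have hneg : ord w x < 0 → 1 < A.valuation (x : Ω) := by
    intro h
    have h3 := (h2 (by omega)).2 (by omega)
    exact (inv_lt_one₀ (zero_lt_iff.2 hv0)).1 h3
  have hzero : ord w x = 0 → A.valuation (x : Ω) = 1 := by
    intro h
    have h3 := (h2 (by omega)).1
    have h4 := (h1 (by omega)).1
    exact le_antisymm h4 ((inv_le_one₀ (zero_lt_iff.2 hv0)).1 h3)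
  have hposi : 0 < ord w x → A.valuation (x : Ω) < 1 := fun h => (h1 h.le).2 h
  rcases lt_trichotomy (ord w x) 0 with h | h | h
  · have h5 := hneg h
    refine ⟨⟨fun h6 => absurd h6 (not_le.2 h5), fun h6 => absurd h (not_lt.2 h6)⟩,
      ⟨fun h6 => absurd h6 (not_lt.2 h5.le), fun h6 => absurd h (not_lt.2 h6.le)⟩,
      ⟨fun h6 => absurd h6 h5.ne', fun h6 => absurd h6 h.ne⟩⟩
  · have h5 := hzero h
    refine ⟨⟨fun _ => h.ge, fun _ => h5.le⟩, ⟨fun h6 => absurd h5 h6.ne, fun h6 => absurd h h6.ne'⟩,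
      ⟨fun _ => h, fun _ => h5⟩⟩
  · have h5 := hposi h
    refine ⟨⟨fun _ => h.le, fun _ => h5.le⟩, ⟨fun _ => h, fun _ => h5⟩,
      ⟨fun h6 => absurd h6 h5.ne, fun h6 => absurd h6 h.ne'⟩⟩




theorem exists_above (F : IntermediateField k Ω) [NumberField F] (w : HeightOneSpectrum (𝓞 F)) :
    ∃ A : ValuationSubring Ω, ∀ x : F, x ≠ 0 →
      (A.valuation (x : Ω) ≤ 1 ↔ 0 ≤ ord w x) ∧ (A.valuation (x : Ω) < 1 ↔ 0 < ord w x) ∧
      (A.valuation (x : Ω) = 1 ↔ ord w x = 0) := by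
  let φ : 𝓞 F →+* Ω := (algebraMap F Ω).comp (algebraMap (𝓞 F) F)
  have hφ : Function.Injective φ := (algebraMap F Ω).injective.comp RingOfIntegers.coe_injective
  let e : 𝓞 F ≃+* φ.range := RingEquiv.ofBijective φ.rangeRestrict
    ⟨fun a b h => hφ (congrArg (fun z : φ.range => (z : Ω)) h), φ.rangeRestrict_surjective⟩
  let I : Ideal φ.range := w.asIdeal.comap e.symm.toRingHom
  have hI : I ≠ ⊤ := by
    intro h
    have h1 : (1 : φ.range) ∈ I := by rw [h]; trivial
    have h2 : (1 : 𝓞 F) ∈ w.asIdeal := by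
      have h3 : e.symm.toRingHom 1 ∈ w.asIdeal := h1
      rwa [map_one] at h3
    exact w.isPrime.ne_top ((Ideal.eq_top_iff_one _).2 h2)
  obtain ⟨A, -, hA⟩ := Ideal.image_subset_nonunits_valuationSubring I hI
  have hle : w.asIdeal ≤ plc F A := by
    intro z hz
    rw [mem_plc]
    have h1 : e z ∈ I := by
      change e.symm (e z) ∈ w.asIdeal
      rwa [e.symm_apply_apply]
    have h2 := hA ⟨e z, h1, rfl⟩
    exact (ValuationSubring.mem_nonunits_iff A).1 h2
  have hmax : w.asIdeal = plc F A :=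
    w.isMaximal.eq_of_le (plc_isPrime F A).ne_top hle
  exact ⟨A, fun x hx => ge3_iff A w hmax hx⟩

end H16C
end

-- from Lib.H99B.Defs
section

/-!
# H99B: the base case Sel_l(E27/F) = 0 for every prime l >= 5 (definitions of the abstract part)

L/F is a finite Galois extension with group Δ = Gal(L/F), χ : Δ → kˣ is bijective, k a finite field of
characteristic l. See PROOF.md.
-/

open NumberField IsDedekindDomain

namespace H99B

open H55B H55R

section lin

/-- A linear form ρ on k with sum over c of ρ(a/c) c = -a. -/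
structure IsRho (l : ℕ) {k : Type} [Field k] [Fintype k] [DecidableEq k] (ρ : k →+ ZMod l) :
    Prop where
  sum : ∀ a : k, ∑ c : kˣ, ((ρ (a * (c⁻¹ : kˣ))).val : k) * (c : k) = -a

variable {l : ℕ} {k : Type} [Field k]

/-- The exponents of the group ring element M_a. -/
def cf {D : Type} [Group D] (χ : D →* kˣ) (ρ : k →+ ZMod l) (a : k) (d : D) : ℤ :=
  ((ρ (a * ((χ d)⁻¹ : kˣ))).val : ℤ)

variable {G : Type} [Group G] [Fintype G]

/-- The action of the integral group ring on a multiplicative group. -/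
noncomputable def pw {A : Type} [CommGroup A] (ac : G →* Monoid.End A) (α : G → ℤ) (x : A) : A :=
  ∏ g, (ac g x) ^ α g



/-- The ring homomorphism from the integral group ring to k given by χ. -/
def chs (χ : G →* kˣ) (α : G → ℤ) : k := ∑ g, (α g : k) * (χ g : k)

end lin

section act

variable {L : Type} [Field L] [NumberField L] [Algebra F L]

/-- The Galois action on the multiplicative group of L. -/
noncomputable def gu : Gal(L/F) →* Monoid.End Lˣ where
  toFun σ := Units.map ((σ : L ≃ₐ[F] L) : L →* L)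
  map_one' := by
    ext x
    rfl
  map_mul' σ τ := by
    ext x
    rfl


variable {l : ℕ} {k : Type} [Field k]

/-- The element M_a x. -/
noncomputable def eta (χ : Gal(L/F) →* kˣ) (ρ : k →+ ZMod l) (a : k) (x : Lˣ) : Lˣ :=
  pw gu (cf χ ρ a) x

/-- Equivariant homomorphisms from k to Lˣ modulo l-th powers, given by representatives. -/
structure EqHom (l : ℕ) (χ : Gal(L/F) →* kˣ) (m : k → Lˣ) : Prop where
  add : ∀ a b : k, ∃ z : Lˣ, m (a + b) = m a * m b * z ^ l
  equiv : ∀ (σ : Gal(L/F)) (a : k), ∃ z : Lˣ, m (χ σ * a) = gu σ (m a) * z ^ l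

/-- The level one component at w is trivial: x is an l-th power times an element congruent to 1 modulo
the square of w. -/
def Lev (l : ℕ) (w : Pl L) (x : Lˣ) : Prop :=
  ∃ z : Lˣ, w.valuation L (((x * (z ^ l)⁻¹ : Lˣ) : L) - 1) ≤ WithZero.exp (-2 : ℤ)


end act

section cls

variable {L : Type} [Field L] [NumberField L] [Algebra F L] {k : Type} [Field k]


end cls

section loc

variable {L : Type} [Field L] [NumberField L] [Algebra F L] {k : Type} [Field k]


end loc

section thaine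

/-- The auxiliary field of Kolyvagin and Thaine for the prime Q of L: B/L is cyclic of degree q - 1,
q = N Q, totally tamely ramified at the conjugates of Q, with one element t which is a uniformizer at all
these primes and on which the Galois group acts through the character κ (modulo squares), unramified outside 3
and the conjugates of Q; al is a unit of B outside 3, of norm 1, congruent to ξ at the primes above the
conjugates of Q. -/
structure Aux (L : Type) [Field L] [NumberField L] [Algebra F L] (Q : Pl L) (ξ : Lˣ) (B : Type)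
    [Field B] [NumberField B] [Algebra L B] (κ : Gal(B/L) → ℤ) (t al : Bˣ) : Prop where
  gal : IsGalois L B
  cyc : IsCyclic Gal(B/L)
  card : Nat.card Gal(B/L) = Ideal.absNorm Q.asIdeal - 1
  ram : ∀ σ : Gal(L/F), es L B (smulP σ Q) = Ideal.absNorm Q.asIdeal - 1
  unr : ∀ v : Pl L, (3 : 𝓞 L) ∉ v.asIdeal → (∀ σ : Gal(L/F), v ≠ smulP σ Q) → es L B v = 1
  unif : ∀ (σ : Gal(L/F)) (W : Pl B), W.under (𝓞 L) = smulP σ Q → ord W t = 1
  tame : ∀ (σ : Gal(L/F)) (W : Pl B), W.under (𝓞 L) = smulP σ Q → ∀ g : Gal(B/L),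
    W.valuation B (g (t : B) - κ g * (t : B)) ≤ WithZero.exp (-2 : ℤ)
  norm : Algebra.norm L (al : B) = 1
  unit : ∀ W : Pl B, (3 : 𝓞 B) ∉ W.asIdeal → ord W al = 0
  congr : ∀ (σ : Gal(L/F)) (W : Pl B), W.under (𝓞 L) = smulP σ Q →
    W.valuation B ((al : B) - algebraMap L B (ξ : L)) < 1

end thaine

end H99B
end

-- from Lib.SSG.E.A2
section

open NumberField

namespace SSG

variable {F : Type} [Field F] [NumberField F] {C : Type} [NormedField C] [IsUltrametricDist C] {L : LTF F C} {N : ℕ}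
  {ι : Type} [Fintype ι]

/-! Chunk A2 (M). (1) A function of Fn is periodic modulo p^N: the coordinates X N (a k) are equal (hL.inj), so the polynomials have the same value at a and b, ‖H a - H b‖ <= ε for all ε. (2) H has finitely many values: it factors through
(ι → 𝓞 F ⧸ span {p^N}), a finite type (Ideal.finiteQuotientOfFreeOfNeBot or the instance of absNorm; p^N <> 0); the maximum of ‖H a - u‖ over the finitely many classes is < 1 (if ι → quotient is a Fintype: Finset.exists_max_image on univ; choose representatives by Quotient.out). -/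

theorem Fn_per {p : ℕ} (hL : L.Ok p) {H : (ι → 𝓞 F) → C} (h : L.Fn N ι H) (a b : ι → 𝓞 F)
    (hab : ∀ k, (p : 𝓞 F) ^ N ∣ a k - b k) : H a = H b := by
  have h1 : ∀ ε > 0, ‖H a - H b‖ ≤ ε := by
    intro ε hε
    obtain ⟨Q, _, hQ⟩ := h (ε / 2) (by positivity)
    have h2 := hQ a
    have h3 := hQ b
    have h4 : (fun i => L.X N (b i)) = fun i => L.X N (a i) := by
      funext i
      exact ((hL.inj N (a i) (b i)).2 (hab i)).symm
    rw [h4] at h3
    have h5 : H a - H b =
        (H a - MvPolynomial.eval (fun i => L.X N (a i)) Q) -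
          (H b - MvPolynomial.eval (fun i => L.X N (a i)) Q) := by
      ring
    rw [h5]
    refine (norm_sub_le _ _).trans ?_
    linarith
  have h2 : ‖H a - H b‖ ≤ 0 := le_of_forall_pos_le_add (by
    intro ε hε
    rw [zero_add]
    exact h1 ε hε)
  exact sub_eq_zero.1 (norm_le_zero_iff.1 h2)

theorem Fn_unif {p : ℕ} (hp : p ≠ 0) (hL : L.Ok p) {H : (ι → 𝓞 F) → C} (h : L.Fn N ι H) (u : C)
    (hu : ∀ a, ‖H a - u‖ < 1) : ∃ ρ : ℝ, 0 ≤ ρ ∧ ρ < 1 ∧ ∀ a, ‖H a - u‖ ≤ ρ := by
  have hne : Ideal.span {((p : 𝓞 F)) ^ N} ≠ ⊥ := by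
    rw [Ne, Ideal.span_singleton_eq_bot]
    exact pow_ne_zero _ (by exact_mod_cast hp)
  haveI : Finite (𝓞 F ⧸ Ideal.span {((p : 𝓞 F)) ^ N}) :=
    Ring.HasFiniteQuotients.finiteQuotient hne
  have hout : ∀ x : 𝓞 F ⧸ Ideal.span {((p : 𝓞 F)) ^ N}, ∃ r : 𝓞 F, Ideal.Quotient.mk _ r = x :=
    Ideal.Quotient.mk_surjective
  choose r hr using hout
  obtain ⟨x₀, hx₀⟩ := Finite.exists_max
    (fun x : ι → 𝓞 F ⧸ Ideal.span {((p : 𝓞 F)) ^ N} => ‖H (fun i => r (x i)) - u‖)
  refine ⟨‖H (fun i => r (x₀ i)) - u‖, norm_nonneg _, hu _, fun a => ?_⟩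
  · have h1 : H a = H (fun i => r (Ideal.Quotient.mk _ (a i))) := by
      refine Fn_per hL h _ _ fun k => ?_
      rw [← Ideal.mem_span_singleton, ← Ideal.Quotient.eq]
      exact (hr _).symm
    rw [h1]
    exact hx₀ (fun i => Ideal.Quotient.mk _ (a i))

end SSG
end

-- from Lib.H55K.A.Defs
section

/-!
# H55K part A (port of H99B): the abstract theorem of Kolyvagin and Rubin over an arbitrary base field F (definitions)

L/F is a finite Galois extension with group Δ = Gal(L/F), χ : Δ → kˣ is bijective, k a finite field of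
characteristic l. See PROOF.md.
-/

open NumberField IsDedekindDomain

namespace H55K.Ab

open H55R

variable {F : Type} [Field F] [NumberField F]

section lin

/-- A linear form ρ on k with sum over c of ρ(a/c) c = -a. -/
structure IsRho (l : ℕ) {k : Type} [Field k] [Fintype k] [DecidableEq k] (ρ : k →+ ZMod l) :
    Prop where
  sum : ∀ a : k, ∑ c : kˣ, ((ρ (a * (c⁻¹ : kˣ))).val : k) * (c : k) = -a

variable {l : ℕ} {k : Type} [Field k]

/-- The exponents of the group ring element M_a. -/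
def cf {D : Type} [Group D] (χ : D →* kˣ) (ρ : k →+ ZMod l) (a : k) (d : D) : ℤ :=
  ((ρ (a * ((χ d)⁻¹ : kˣ))).val : ℤ)

variable {G : Type} [Group G] [Fintype G]

/-- The action of the integral group ring on a multiplicative group. -/
noncomputable def pw {A : Type} [CommGroup A] (ac : G →* Monoid.End A) (α : G → ℤ) (x : A) : A :=
  ∏ g, (ac g x) ^ α g

/-- The action of the integral group ring on an additive group. -/
noncomputable def pa {A : Type} [AddCommGroup A] (ac : G →* AddMonoid.End A) (α : G → ℤ) (x : A) :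
    A :=
  ∑ g, α g • ac g x

/-- The product of the group ring. -/
def conv (α β : G → ℤ) : G → ℤ := fun g => ∑ h, α h * β (h⁻¹ * g)

/-- The ring homomorphism from the integral group ring to k given by χ. -/
def chs (χ : G →* kˣ) (α : G → ℤ) : k := ∑ g, (α g : k) * (χ g : k)

end lin

section act

variable {L : Type} [Field L] [NumberField L] [Algebra F L]

/-- The Galois action on the multiplicative group of L. -/
noncomputable def gu : Gal(L/F) →* Monoid.End Lˣ where
  toFun σ := Units.map ((σ : L ≃ₐ[F] L) : L →* L)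
  map_one' := by
    ext x
    rfl
  map_mul' σ τ := by
    ext x
    rfl

theorem gu_apply (σ : Gal(L/F)) (x : Lˣ) : ((gu σ x : Lˣ) : L) = σ (x : L) := rfl

variable {l : ℕ} {k : Type} [Field k]

/-- The element M_a x. -/
noncomputable def eta (χ : Gal(L/F) →* kˣ) (ρ : k →+ ZMod l) (a : k) (x : Lˣ) : Lˣ :=
  pw gu (cf χ ρ a) x

/-- Equivariant homomorphisms from k to Lˣ modulo l-th powers, given by representatives. -/
structure EqHom (l : ℕ) (χ : Gal(L/F) →* kˣ) (m : k → Lˣ) : Prop where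
  add : ∀ a b : k, ∃ z : Lˣ, m (a + b) = m a * m b * z ^ l
  equiv : ∀ (σ : Gal(L/F)) (a : k), ∃ z : Lˣ, m (χ σ * a) = gu σ (m a) * z ^ l

/-- The level one component at w is trivial: x is an l-th power times an element congruent to 1 modulo
the square of w. -/
def Lev (l : ℕ) (w : Pl L) (x : Lˣ) : Prop :=
  ∃ z : Lˣ, w.valuation L (((x * (z ^ l)⁻¹ : Lˣ) : L) - 1) ≤ WithZero.exp (-2 : ℤ)

/-- x is an l-th power modulo v (x prime to v). -/
def PowMod (l : ℕ) (v : Pl L) (x : Lˣ) : Prop :=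
  ∃ z : Lˣ, v.valuation L (((x * (z ^ l)⁻¹ : Lˣ) : L) - 1) < 1

end act

section cls

variable {L : Type} [Field L] [NumberField L] [Algebra F L] {k : Type} [Field k]

/-- Functions on the primes of L given by the equivariant homomorphisms from the class group of L to k. -/
structure IsTh (χ : Gal(L/F) →* kˣ) (θ : Pl L → k) : Prop where
  equiv : ∀ (σ : Gal(L/F)) (v : Pl L), θ (smulP σ v) = χ σ * θ v
  princ : ∀ x : Lˣ, ∑ᶠ v : Pl L, (ord v x : k) * θ v = 0

end cls

section loc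

variable {L : Type} [Field L] [NumberField L] [Algebra F L] {k : Type} [Field k]

/-- Local data at the totally ramified prime w of L: r is the reduction modulo w with values in k, every
element of k is the reduction of an element of 𝓞 F, t is a uniformizer on which the Galois group acts through
χ modulo the square of w. -/
structure Loc (χ : Gal(L/F) →* kˣ) (w : Pl L) (t : Lˣ) (r : 𝓞 L →+* k) : Prop where
  ker : ∀ x : 𝓞 L, r x = 0 ↔ x ∈ w.asIdeal
  surj : ∀ b : k, ∃ y : 𝓞 F, r (algebraMap (𝓞 F) (𝓞 L) y) = b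
  ram : ∀ y : 𝓞 F, r (algebraMap (𝓞 F) (𝓞 L) y) = 0 →
    w.valuation L (algebraMap F L (y : F)) ≤ WithZero.exp (-2 : ℤ)
  inv : ∀ σ : Gal(L/F), smulP σ w = w
  unif : ord w t = 1
  act : ∀ (σ : Gal(L/F)) (y : 𝓞 F), r (algebraMap (𝓞 F) (𝓞 L) y) = χ σ →
    w.valuation L (σ (t : L) - algebraMap F L (y : F) * (t : L)) ≤ WithZero.exp (-2 : ℤ)

end loc

section thaine

/-- The auxiliary field of Kolyvagin and Thaine for the prime Q of L: B/L is cyclic of degree q - 1,
q = N Q, totally tamely ramified at the conjugates of Q, with one element t which is a uniformizer at all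
these primes and on which the Galois group acts through the character κ (modulo squares), unramified outside
the conjugates of Q; al is a unit of B, of norm 1, congruent to ξ at the primes above the
conjugates of Q. -/
structure Aux (F L : Type) [Field F] [NumberField F] [Field L] [NumberField L] [Algebra F L] (Q : Pl L)
    (ξ : Lˣ) (B : Type) [Field B] [NumberField B] [Algebra L B] (κ : Gal(B/L) → ℤ) (t al : Bˣ) :
    Prop where
  gal : IsGalois L B
  cyc : IsCyclic Gal(B/L)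
  card : Nat.card Gal(B/L) = Ideal.absNorm Q.asIdeal - 1
  ram : ∀ σ : Gal(L/F), es L B (smulP σ Q) = Ideal.absNorm Q.asIdeal - 1
  unr : ∀ v : Pl L, (∀ σ : Gal(L/F), v ≠ smulP σ Q) → es L B v = 1
  unif : ∀ (σ : Gal(L/F)) (W : Pl B), W.under (𝓞 L) = smulP σ Q → ord W t = 1
  tame : ∀ (σ : Gal(L/F)) (W : Pl B), W.under (𝓞 L) = smulP σ Q → ∀ g : Gal(B/L),
    W.valuation B (g (t : B) - κ g * (t : B)) ≤ WithZero.exp (-2 : ℤ)
  norm : Algebra.norm L (al : B) = 1
  unit : ∀ W : Pl B, ord W al = 0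
  congr : ∀ (σ : Gal(L/F)) (W : Pl B), W.under (𝓞 L) = smulP σ Q →
    W.valuation B ((al : B) - algebraMap L B (ξ : L)) < 1

end thaine

end H55K.Ab
end

-- from Lib.H55K.A.A2
section

/-!
Chunk A2 (S/M). Rules for pw (action of the integral group ring on a multiplicative group), conv and chs.
PROOFS. pw_mul, pw_npow, pw_add, pw_smul: Finset.prod_mul_distrib, map_mul, zpow_add, zpow_mul. pw_conv: expand
pw ac α (pw ac β x) = prod_h ac h (prod_g (ac g x)^(β g))^(α h) = prod_h prod_g (ac (h g) x)^(α h β g) (map_prod, map_zpow for the monoid endomorphism ac h,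
ac (h g) = ac h * ac g), substitute g -> h⁻¹ g (Equiv.mulLeft), exchange the products, collect exponents. chs_conv: the same computation in k with χ (h g) = χ h χ g.
chs_single: one term. chs_el: IsRho for a = -1 (IsRho.sum) transported along the bijection χ: chs χ (cf χ ρ a) = sum_g ρ(a χ(g)⁻¹).val χ(g) =
sum_c ρ(a c⁻¹).val c = -a. el_conv: for g: (conv α β)(g) with α = cf χ ρ (-1), modulo l: substitute h -> g h⁻¹ : the sum of α(g h⁻¹) β(h), and in ZMod l:
α(g h⁻¹) = ρ(-(χ g)⁻¹ χ h) (ZMod.natCast_zmod_val), ρ additive, so the sum is ρ(-(χ g)⁻¹ * sum_h β(h) χ(h)) = ρ 0 = 0; (ZMod.intCast_zmod_eq_zero_iff_dvd).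
-/

namespace H55K.Ab

variable {G : Type} [Group G] [Fintype G] {A : Type} [CommGroup A] (ac : G →* Monoid.End A)

omit [Group G] [Fintype G] in
theorem a2_zsum (s : Finset G) (f : G → ℤ) (x : A) : x ^ (∑ h ∈ s, f h) = ∏ h ∈ s, x ^ f h := by
  classical
  induction s using Finset.induction_on with
  | empty => simp
  | insert a s ha ih => rw [Finset.sum_insert ha, Finset.prod_insert ha, zpow_add, ih]

theorem pw_mul (α : G → ℤ) (x y : A) : pw ac α (x * y) = pw ac α x * pw ac α y := by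
  unfold pw
  rw [← Finset.prod_mul_distrib]
  refine Finset.prod_congr rfl fun g _ => ?_
  rw [map_mul, mul_zpow]

theorem pw_zpow (α : G → ℤ) (x : A) (n : ℤ) : pw ac α (x ^ n) = pw ac α x ^ n := by
  unfold pw
  rw [← Finset.prod_zpow]
  refine Finset.prod_congr rfl fun g _ => ?_
  rw [map_zpow, ← zpow_mul, ← zpow_mul, mul_comm]

theorem pw_pow (α : G → ℤ) (x : A) (n : ℕ) : pw ac α (x ^ n) = pw ac α x ^ n := by
  have h := pw_zpow ac α x n
  rwa [zpow_natCast, zpow_natCast] at h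

theorem pw_inv (α : G → ℤ) (x : A) : pw ac α x⁻¹ = (pw ac α x)⁻¹ := by
  have h := pw_zpow ac α x (-1)
  rwa [zpow_neg_one, zpow_neg_one] at h

theorem pw_smul (α : G → ℤ) (x : A) (n : ℤ) : pw ac (fun g => n * α g) x = pw ac α x ^ n := by
  unfold pw
  rw [← Finset.prod_zpow]
  refine Finset.prod_congr rfl fun g _ => ?_
  rw [← zpow_mul, mul_comm]

theorem pw_conv (α β : G → ℤ) (x : A) : pw ac (conv α β) x = pw ac α (pw ac β x) := by
  have h1 : ∀ h : G, (ac h (pw ac β x)) ^ α h = ∏ g, (ac g x) ^ (α h * β (h⁻¹ * g)) := by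
    intro h
    unfold pw
    rw [map_prod, ← Finset.prod_zpow, ← Equiv.prod_comp (Equiv.mulLeft h) (fun g => (ac g x) ^ (α h * β (h⁻¹ * g)))]
    refine Finset.prod_congr rfl fun g _ => ?_
    rw [map_zpow, ← zpow_mul, Equiv.coe_mulLeft, inv_mul_cancel_left, mul_comm (β g), map_mul]
    rfl
  unfold conv
  change ∏ g, (ac g x) ^ (∑ h, α h * β (h⁻¹ * g)) = ∏ h, (ac h (pw ac β x)) ^ α h
  simp only [h1]
  rw [Finset.prod_comm]
  refine Finset.prod_congr rfl fun g _ => ?_
  rw [a2_zsum]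


/-- Elements of finite order are stable. -/
theorem pw_fin (α : G → ℤ) (x : A) (hx : IsOfFinOrder x) : IsOfFinOrder (pw ac α x) := by
  unfold pw
  refine Subgroup.prod_mem (CommGroup.torsion A) fun g _ => ?_
  refine Subgroup.zpow_mem _ ?_ _
  exact MonoidHom.isOfFinOrder (ac g : A →* A) hx

variable {l : ℕ} [Fact l.Prime] {k : Type} [Field k] (χ : G →* kˣ)

omit [Fact l.Prime] in
theorem chs_conv (α β : G → ℤ) : chs χ (conv α β) = chs χ α * chs χ β := by
  unfold chs conv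
  rw [Finset.sum_mul]
  have h1 : ∀ h : G, (α h : k) * (χ h : k) * ∑ g, (β g : k) * (χ g : k) =
      ∑ g, (α h : k) * (β (h⁻¹ * g) : k) * (χ g : k) := by
    intro h
    rw [Finset.mul_sum, ← Equiv.sum_comp (Equiv.mulLeft h) (fun g => (α h : k) * (β (h⁻¹ * g) : k) * (χ g : k))]
    refine Finset.sum_congr rfl fun g _ => ?_
    rw [Equiv.coe_mulLeft, inv_mul_cancel_left, map_mul, Units.val_mul]
    ring
  simp only [h1]
  rw [Finset.sum_comm]
  refine Finset.sum_congr rfl fun g _ => ?_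
  rw [Int.cast_sum, Finset.sum_mul]
  refine Finset.sum_congr rfl fun h _ => ?_
  rw [Int.cast_mul]

theorem conv_comm (hc : ∀ a b : G, a * b = b * a) (α β : G → ℤ) : conv α β = conv β α := by
  funext g
  unfold conv
  rw [← Equiv.sum_comp ((Equiv.inv G).trans (Equiv.mulLeft g)) (fun h => α h * β (h⁻¹ * g))]
  refine Finset.sum_congr rfl fun h _ => ?_
  simp only [Equiv.trans_apply, Equiv.inv_apply, Equiv.coe_mulLeft, mul_inv_rev, inv_inv]
  rw [mul_comm, hc g h⁻¹, mul_assoc, inv_mul_cancel, mul_one]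



variable [Fintype k] [DecidableEq k] [CharP k l] (ρ : k →+ ZMod l)

theorem chs_nn (hχ : Function.Bijective χ) (hρ : IsRho l ρ) (a : k) :
    chs χ (cf χ ρ a) = -a := by
  rw [← hρ.sum a]
  unfold chs cf
  rw [← Equiv.sum_comp (Equiv.ofBijective χ hχ) (fun c : kˣ => ((ρ (a * (c⁻¹ : kˣ))).val : k) * (c : k))]
  refine Finset.sum_congr rfl fun g _ => ?_
  rw [Equiv.ofBijective_apply, Int.cast_natCast]

theorem el_conv (β : G → ℤ) (hβ : chs χ β = 0) (g : G) :
    (l : ℤ) ∣ conv (cf χ ρ (-1)) β g := by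
  have : NeZero l := ⟨(Fact.out : l.Prime).ne_zero⟩
  rw [← ZMod.intCast_zmod_eq_zero_iff_dvd]
  unfold conv
  rw [← Equiv.sum_comp ((Equiv.inv G).trans (Equiv.mulLeft g)) (fun h => cf χ ρ (-1) h * β (h⁻¹ * g)), Int.cast_sum]
  have h1 : ∀ h : G, ((cf χ ρ (-1) (((Equiv.inv G).trans (Equiv.mulLeft g)) h) *
      β ((((Equiv.inv G).trans (Equiv.mulLeft g)) h)⁻¹ * g) : ℤ) : ZMod l) =
      ρ (-((χ g)⁻¹ : kˣ) * ((β h : k) * (χ h : k))) := by
    intro h
    simp only [Equiv.trans_apply, Equiv.inv_apply, Equiv.coe_mulLeft, mul_inv_rev, inv_inv]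
    rw [mul_assoc, inv_mul_cancel, mul_one]
    unfold cf
    rw [Int.cast_mul, Int.cast_natCast, ZMod.natCast_zmod_val]
    have e : -((χ g)⁻¹ : kˣ) * ((β h : k) * (χ h : k)) = (β h) • (-1 * (((χ (g * h⁻¹))⁻¹ : kˣ) : k)) := by
      rw [zsmul_eq_mul, map_mul, map_inv, mul_inv_rev, inv_inv, Units.val_mul]
      ring
    rw [e, map_zsmul, zsmul_eq_mul, mul_comm]
  rw [Finset.sum_congr rfl fun h _ => h1 h, ← map_sum, ← Finset.mul_sum]
  have h2 : ∑ h, (β h : k) * (χ h : k) = 0 := hβ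
  rw [h2, mul_zero, map_zero]

end H55K.Ab
end

-- from Lib.H55K.A.A5
section

/-!
Chunk A5 (M/L). Duality for a finite abelian group C with an action of G (χ : G → kˣ bijective).
PROOF. Suppose that no such θ exists. For λ : C →+ ZMod l put θ_λ(x) = sum_g ((λ (ac g⁻¹ x)).val : k) χ(g): the map ZMod l → k, c ↦ (c.val : k) is the ring
homomorphism ZMod.castHom (dvd_refl l) k (CharP k l), so θ_λ is additive, and θ_λ (ac h x) = χ(h) θ_λ(x) (substitute g → h g). Hence θ_λ = 0 for all λ.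
Let n(g) = (ρ(-χ(g)⁻¹)).val = cf χ ρ (-1) g. ρ is additive, so ρ((c.val : k) * b) = c * ρ b in ZMod l for c : ZMod l, and
0 = ρ(-θ_λ(x)) = sum_g λ(ac g⁻¹ x) ρ(-χ(g)) = λ(sum_g n(g⁻¹) ac g⁻¹ x) = λ(M x) with M x = pa ac (cf χ ρ (-1)) x. So λ (M x) = 0 for all λ : C →+ ZMod l, hence M x ∈ lC: C/lC is a
vector space over ZMod l (AddCommGroup.zmodModule), and linear forms separate points (Module.forall_dual_apply_eq_zero_iff or exists basis), composed with C → C/lC.
M is additive and commutes with multiplication by l, so M^j x ∈ l^j C for all j. On the other hand M (m b) = sum_g n(g) m(χ(g) b) = m(sum_g n(g) χ(g) b) = m(-(-1) b) = m b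
(IsRho for a = -1, χ bijective, integer multiples: (n : k) b = n • b). So m b ∈ l^j C for every j, and l • m b = m(l • b) = 0. With j = card C:
m b = l^j • x, the order of x divides l^(j+1) and card C, so it is l^i with l^i ≤ card C < l^(card C), i ≤ j, so m b = 0. Contradiction.
-/

namespace H55K.Ab

section A5

variable {G : Type} [Group G] [Fintype G] {C : Type} [AddCommGroup C]
  (ac : G →* AddMonoid.End C) {l : ℕ} [Fact l.Prime] {k : Type} [Field k] [CharP k l]

/-- The homomorphism of a linear form. -/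
noncomputable def A5_th (χ : G →* kˣ) (f : C →+ ZMod l) : C →+ k :=
  ∑ g : G, (AddMonoidHom.mulRight ((χ g : kˣ) : k)).comp
    (((ZMod.castHom (dvd_refl l) k : ZMod l →+* k) : ZMod l →+ k).comp (f.comp (ac g⁻¹ : C →+ C)))

theorem A5_th_apply (χ : G →* kˣ) (f : C →+ ZMod l) (x : C) :
    A5_th ac χ f x = ∑ g : G, ((f (ac g⁻¹ x)).val : k) * (χ g : k) := by
  unfold A5_th
  rw [AddMonoidHom.finsetSum_apply]
  refine Finset.sum_congr rfl fun g _ => ?_
  show (ZMod.castHom (dvd_refl l) k) (f (ac g⁻¹ x)) * (χ g : k) = _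
  rw [ZMod.castHom_apply, ZMod.natCast_val]

theorem A5_equiv (χ : G →* kˣ) (f : C →+ ZMod l) (h : G) (x : C) :
    A5_th ac χ f (ac h x) = χ h * A5_th ac χ f x := by
  rw [A5_th_apply, A5_th_apply, ← Equiv.sum_comp (Equiv.mulLeft h), Finset.mul_sum]
  refine Finset.sum_congr rfl fun g _ => ?_
  have e1 : ac (h * g)⁻¹ (ac h x) = ac g⁻¹ x := by
    have e2 : ac g⁻¹ = ac (h * g)⁻¹ * ac h := by
      rw [← map_mul]
      congr 1
      group
    rw [e2]
    rfl
  show ((f (ac (h * g)⁻¹ (ac h x))).val : k) * (χ (h * g) : k) = _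
  rw [e1, map_mul, Units.val_mul]
  ring

omit [CharP k l] in
theorem A5_rho (ρ : k →+ ZMod l) (y : ZMod l) (b : k) : ρ ((y.val : k) * b) = y * ρ b := by
  rw [← nsmul_eq_mul, map_nsmul, nsmul_eq_mul, ZMod.natCast_val, ZMod.cast_id]

/-- The group ring element of value one. -/
noncomputable def A5_M (χ : G →* kˣ) (ρ : k →+ ZMod l) (x : C) : C := pa ac (cf χ ρ (-1)) x

omit [CharP k l] in
theorem A5_M_nsmul (χ : G →* kˣ) (ρ : k →+ ZMod l) (n : ℕ) (x : C) :
    A5_M ac χ ρ (n • x) = n • A5_M ac χ ρ x := by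
  unfold A5_M pa
  rw [Finset.smul_sum]
  refine Finset.sum_congr rfl fun g _ => ?_
  rw [map_nsmul, smul_comm]

theorem A5_lam (χ : G →* kˣ) (ρ : k →+ ZMod l) (f : C →+ ZMod l) (x : C) :
    f (A5_M ac χ ρ x) = ρ (-A5_th ac χ f x) := by
  rw [A5_th_apply, map_neg, map_sum]
  unfold A5_M pa
  rw [map_sum, ← Finset.sum_neg_distrib, ← Equiv.sum_comp (Equiv.inv G)]
  refine Finset.sum_congr rfl fun g _ => ?_
  rw [A5_rho, map_zsmul, zsmul_eq_mul]
  show ((cf χ ρ (-1) g⁻¹ : ℤ) : ZMod l) * f (ac g⁻¹ x) = _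
  unfold cf
  rw [map_inv, inv_inv, Int.cast_natCast, ZMod.natCast_val, ZMod.cast_id, neg_one_mul, map_neg]
  ring

theorem A5_sep0 {Q : Type} [AddCommGroup Q] [Module (ZMod l) Q] (y : Q)
    (h : ∀ f : Q →+ ZMod l, f y = 0) : y = 0 := by
  refine (Module.forall_dual_apply_eq_zero_iff (ZMod l) y).1 ?_
  intro φ
  exact h φ.toAddMonoidHom

theorem A5_sep {Q : Type} [AddCommGroup Q] (hS : ∀ q : Q, l • q = 0) (y : Q)
    (h : ∀ f : Q →+ ZMod l, f y = 0) : y = 0 :=
  @A5_sep0 l _ Q _ (AddCommGroup.zmodModule hS) y h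

theorem A5_div (y : C) (h : ∀ f : C →+ ZMod l, f y = 0) : ∃ z : C, y = l • z := by
  let S : AddSubgroup C := (nsmulAddMonoidHom l : C →+ C).range
  have hS : ∀ q : C ⧸ S, l • q = 0 := by
    intro q
    obtain ⟨x, rfl⟩ := QuotientAddGroup.mk_surjective q
    rw [← QuotientAddGroup.mk_nsmul, QuotientAddGroup.eq_zero_iff]
    exact ⟨x, rfl⟩
  have h1 : (QuotientAddGroup.mk y : C ⧸ S) = 0 :=
    A5_sep hS _ fun φ => h (φ.comp (QuotientAddGroup.mk' S))
  rw [QuotientAddGroup.eq_zero_iff] at h1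
  obtain ⟨z, hz⟩ := h1
  exact ⟨z, hz.symm⟩

theorem A5_tors [Finite C] (y : C) (h1 : l • y = 0) (h2 : ∀ j : ℕ, ∃ z : C, y = l ^ j • z) :
    y = 0 := by
  have hp : l.Prime := Fact.out
  obtain ⟨z, hz⟩ := h2 (Nat.card C)
  have h3 : l ^ (Nat.card C + 1) • z = 0 := by
    rw [pow_succ', mul_smul, ← hz, h1]
  obtain ⟨i, hi, hi'⟩ := (Nat.dvd_prime_pow hp).1 (addOrderOf_dvd_of_nsmul_eq_zero h3)
  have h4 : addOrderOf z ≤ Nat.card C := addOrderOf_le_card
  have h5 : Nat.card C < l ^ Nat.card C := Nat.lt_pow_self hp.one_lt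
  have h6 : i ≤ Nat.card C := by
    by_contra hc
    push Not at hc
    have h7 : l ^ Nat.card C ≤ l ^ i := Nat.pow_le_pow_right hp.pos hc.le
    rw [← hi'] at h7
    omega
  rw [hz]
  apply addOrderOf_dvd_iff_nsmul_eq_zero.1
  rw [hi']
  exact pow_dvd_pow _ h6

end A5

theorem dual_hom {G : Type} [Group G] [Fintype G] {C : Type} [AddCommGroup C] [Finite C]
    (ac : G →* AddMonoid.End C) {l : ℕ} [Fact l.Prime] {k : Type} [Field k] [Fintype k]
    [DecidableEq k] [CharP k l] (χ : G →* kˣ) (hχ : Function.Bijective χ) (ρ : k →+ ZMod l)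
    (hρ : IsRho l ρ) (m : k →+ C) (hm : ∀ (g : G) (a : k), m (χ g * a) = ac g (m a))
    (hm0 : ∃ a, m a ≠ 0) :
    ∃ θ : C →+ k, (∀ (g : G) (x : C), θ (ac g x) = χ g * θ x) ∧ ∃ x, θ x ≠ 0 := by
  by_contra hcon
  push Not at hcon
  have h0 : ∀ (f : C →+ ZMod l) (x : C), A5_th ac χ f x = 0 := fun f =>
    hcon (A5_th ac χ f) (A5_equiv ac χ f)
  have h1 : ∀ x : C, ∃ z : C, A5_M ac χ ρ x = l • z := fun x =>
    A5_div _ fun f => by rw [A5_lam, h0, neg_zero, map_zero]
  obtain ⟨b, hb⟩ := hm0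
  apply hb
  have h2 : A5_M ac χ ρ (m b) = m b := by
    have e1 : ∀ g : G, cf χ ρ (-1) g • ac g (m b) = m (((cf χ ρ (-1) g : ℤ) : k) * (χ g : k) * b) := by
      intro g
      rw [mul_assoc, ← zsmul_eq_mul, map_zsmul, hm]
    have e2 : ∑ g : G, ((cf χ ρ (-1) g : ℤ) : k) * (χ g : k) = 1 := by
      have := chs_nn χ ρ hχ hρ (-1)
      rw [neg_neg] at this
      exact this
    unfold A5_M pa
    rw [Finset.sum_congr rfl fun g _ => e1 g, ← map_sum, ← Finset.sum_mul, e2, one_mul]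
  have h3 : ∀ j : ℕ, ∃ z : C, m b = l ^ j • z := by
    intro j
    induction j with
    | zero => exact ⟨m b, by rw [pow_zero, one_smul]⟩
    | succ j ih =>
      obtain ⟨z, hz⟩ := ih
      obtain ⟨z', hz'⟩ := h1 z
      refine ⟨z', ?_⟩
      rw [← h2, hz, A5_M_nsmul, hz', smul_smul, ← pow_succ]
  refine A5_tors (m b) ?_ h3
  rw [← map_nsmul, nsmul_eq_mul, CharP.cast_eq_zero, zero_mul, map_zero]

end H55K.Ab
end

-- from Lib.H55K.A.B2
section

/-!
Chunk B2 (S/M). Rules for Lev and PowMod.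
PROOFS. Lev l w x means: x / z^l - 1 has order at least 2 at w. lev_mul: (x y)/(z z')^l - 1 = (x/z^l - 1)(y/z'^l) + (y/z'^l - 1), where y/z'^l has valuation 1
(its difference to 1 has valuation < 1). lev_inv: x⁻¹ z^l - 1 = -(x/z^l - 1) * (z^l / x), valuation of z^l/x is 1. lev_pow (x = z^l): x/z^l - 1 = 0. lev_lpow: Lev x iff Lev (x y^l).
The same for PowMod (< 1 instead of <= exp(-2)). powmod_of_lpow.
-/

open NumberField IsDedekindDomain

namespace H55K.Ab

open H55R

variable {F : Type} [Field F] [NumberField F]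

variable {L : Type} [Field L] [NumberField L] {l : ℕ} {w : Pl L}

theorem B2_mul {Γ : Type} [LinearOrderedCommGroupWithZero Γ] (v : Valuation L Γ) {γ : Γ} (hγ : γ < 1)
    {u u' : Lˣ} (h : v ((u : L) - 1) ≤ γ) (h' : v ((u' : L) - 1) ≤ γ) :
    v (((u * u' : Lˣ) : L) - 1) ≤ γ := by
  have h1 : v (u' : L) ≤ 1 := by
    have e1 : (u' : L) = ((u' : L) - 1) + 1 := by ring
    rw [e1]
    exact v.map_add_le (h'.trans hγ.le) (by rw [map_one])
  have e2 : ((u * u' : Lˣ) : L) - 1 = ((u : L) - 1) * u' + ((u' : L) - 1) := by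
    rw [Units.val_mul]
    ring
  rw [e2]
  refine v.map_add_le ?_ h'
  rw [map_mul]
  calc v ((u : L) - 1) * v (u' : L) ≤ γ * 1 := mul_le_mul' h h1
    _ = γ := mul_one γ

theorem B2_inv {Γ : Type} [LinearOrderedCommGroupWithZero Γ] (v : Valuation L Γ) {γ : Γ} (hγ : γ < 1)
    {u : Lˣ} (h : v ((u : L) - 1) ≤ γ) : v (((u⁻¹ : Lˣ) : L) - 1) ≤ γ := by
  have h1 : v (u : L) = 1 := by
    have e1 : (u : L) = 1 + ((u : L) - 1) := by ring
    rw [e1]
    exact v.map_one_add_of_lt (lt_of_le_of_lt h hγ)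
  have e2 : ((u⁻¹ : Lˣ) : L) - 1 = -(((u : L) - 1) * ((u⁻¹ : Lˣ) : L)) := by
    rw [sub_mul, one_mul, Units.mul_inv]
    ring
  have h2 : v ((u⁻¹ : Lˣ) : L) = 1 := by
    have h3 : v ((u : L) * ((u⁻¹ : Lˣ) : L)) = 1 := by rw [Units.mul_inv, map_one]
    rwa [map_mul, h1, one_mul] at h3
  rw [e2, Valuation.map_neg, map_mul, h2, mul_one]
  exact h

theorem B2_exp : (WithZero.exp (-2 : ℤ) : WithZero (Multiplicative ℤ)) < 1 := by
  rw [← WithZero.exp_zero, WithZero.exp_lt_exp]
  norm_num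

theorem B2_rw (x y z z' : Lˣ) : x * y * ((z * z') ^ l)⁻¹ = x * (z ^ l)⁻¹ * (y * (z' ^ l)⁻¹) := by
  rw [mul_pow, mul_inv]
  exact mul_mul_mul_comm _ _ _ _

theorem B2_rw2 (x z : Lˣ) : x⁻¹ * (z⁻¹ ^ l)⁻¹ = (x * (z ^ l)⁻¹)⁻¹ := by
  rw [mul_inv, inv_pow, inv_inv]

theorem lev_mul {x y : Lˣ} (hx : Lev l w x) (hy : Lev l w y) : Lev l w (x * y) := by
  obtain ⟨z, hz⟩ := hx
  obtain ⟨z', hz'⟩ := hy
  refine ⟨z * z', ?_⟩
  rw [B2_rw]
  exact B2_mul (w.valuation L) B2_exp hz hz'

theorem lev_inv {x : Lˣ} (hx : Lev l w x) : Lev l w x⁻¹ := by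
  obtain ⟨z, hz⟩ := hx
  refine ⟨z⁻¹, ?_⟩
  rw [B2_rw2]
  exact B2_inv (w.valuation L) B2_exp hz

theorem lev_pow (z : Lˣ) : Lev l w (z ^ l) := by
  refine ⟨z, ?_⟩
  rw [mul_inv_cancel, Units.val_one, sub_self, map_zero]
  exact zero_le





end H55K.Ab
end

-- from Lib.H55K.A.A4
section

/-!
Chunk A4 (M). The dimension lemma. G is commutative because χ is injective.
PROOF by strong induction on n, for all x, y, α, β. Write = for equality up to elements of finite order (they form a subgroup stable under pw, pw_fin).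
Case chs α ≠ 0 or chs β ≠ 0: take γ = β, γ' = α, w = 1: (pw β x)^n = pw β (x^n) = pw β (pw α z) = pw α (pw β z) = (pw α y)^n, so
(pw β x / pw α y)^n has finite order, hence pw β x / pw α y too (n > 0).
Case chs α = chs β = 0: ε = cf χ ρ (-1) (chs ε = 1 by chs_nn), conv ε α = l α', conv ε β = l β' (el_conv), so (pw ε x)^n = pw (conv ε α) z = (pw α' z)^l,
(pw ε y)^n = (pw β' z)^l. If n = l n1 (n1 < n, n1 > 0): ((pw ε x)^n1 / pw α' z)^l has finite order, so (pw ε x)^n1 = pw α' z, the same for y: the induction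
hypothesis for (pw ε x, pw ε y, n1, α', β') gives γ, γ', w; then conv γ ε, conv γ' ε do for x, y (chs_conv, chs ε = 1). If l does not divide n: u n + v l = 1:
pw ε x = (pw ε x)^(u n) (pw ε x)^(v l) = ((pw α' z)^u (pw ε x)^v)^l: take γ = ε, γ' = 0 (pw 0 y = 1, chs 0 = 0).
-/

namespace H55K.Ab

/-- Equality up to elements of finite order. -/
theorem a4_trans {A : Type} [CommGroup A] {x y z : A} (h1 : IsOfFinOrder (x * y⁻¹)) (h2 : IsOfFinOrder (y * z⁻¹)) :
    IsOfFinOrder (x * z⁻¹) := by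
  have h := Subgroup.mul_mem (CommGroup.torsion A) h1 h2
  have e : x * y⁻¹ * (y * z⁻¹) = x * z⁻¹ := by group
  rwa [e] at h

theorem a4_symm {A : Type} [CommGroup A] {x y : A} (h1 : IsOfFinOrder (x * y⁻¹)) : IsOfFinOrder (y * x⁻¹) := by
  have h := Subgroup.inv_mem (CommGroup.torsion A) h1
  have e : (x * y⁻¹)⁻¹ = y * x⁻¹ := by group
  rwa [e] at h

theorem a4_root {A : Type} [CommGroup A] {x : A} {n : ℕ} (hn : 0 < n) (h : IsOfFinOrder (x ^ n)) : IsOfFinOrder x := by
  rw [isOfFinOrder_iff_pow_eq_one] at h ⊢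
  obtain ⟨m, hm, h1⟩ := h
  exact ⟨n * m, Nat.mul_pos hn hm, by rw [pow_mul, h1]⟩

theorem a4_pow {A : Type} [CommGroup A] {x : A} (n : ℤ) (h : IsOfFinOrder x) : IsOfFinOrder (x ^ n) :=
  Subgroup.zpow_mem (CommGroup.torsion A) h n

theorem dim_lemma {G : Type} [Group G] [Fintype G] {A : Type} [CommGroup A]
    (ac : G →* Monoid.End A) {l : ℕ} [Fact l.Prime] {k : Type} [Field k] [Fintype k]
    [DecidableEq k] [CharP k l] (χ : G →* kˣ) (hχ : Function.Bijective χ) (ρ : k →+ ZMod l)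
    (hρ : IsRho l ρ) (n : ℕ) (hn : 0 < n) (x y z : A) (α β : G → ℤ)
    (hx : IsOfFinOrder (x ^ n * (pw ac α z)⁻¹)) (hy : IsOfFinOrder (y ^ n * (pw ac β z)⁻¹)) :
    ∃ (γ γ' : G → ℤ) (w : A), (chs χ γ ≠ 0 ∨ chs χ γ' ≠ 0) ∧
      IsOfFinOrder (pw ac γ x * (pw ac γ' y)⁻¹ * w ^ l) := by
  have hl : l.Prime := Fact.out
  have hc : ∀ a b : G, a * b = b * a := by
    intro a b
    apply hχ.1
    rw [map_mul, map_mul, mul_comm]
  have hε : chs χ (cf χ ρ (-1)) = 1 := by rw [chs_nn χ ρ hχ hρ, neg_neg]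
  -- the action respects equality up to torsion
  have hpw : ∀ (δ : G → ℤ) {u v : A}, IsOfFinOrder (u * v⁻¹) → IsOfFinOrder (pw ac δ u * (pw ac δ v)⁻¹) := by
    intro δ u v h
    have h1 := pw_fin ac δ _ h
    rwa [pw_mul, pw_inv] at h1
  induction n using Nat.strong_induction_on generalizing x y α β with
  | _ n ih =>
    by_cases hαβ : chs χ α ≠ 0 ∨ chs χ β ≠ 0
    · -- the first case
      refine ⟨β, α, 1, hαβ.symm, ?_⟩
      rw [one_pow, mul_one]
      refine a4_root hn ?_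
      rw [mul_pow, inv_pow]
      have h1 : IsOfFinOrder (pw ac β x ^ n * (pw ac β (pw ac α z))⁻¹) := by
        have := hpw β hx
        rwa [pw_pow] at this
      have h2 : IsOfFinOrder (pw ac α y ^ n * (pw ac α (pw ac β z))⁻¹) := by
        have := hpw α hy
        rwa [pw_pow] at this
      have h3 : pw ac β (pw ac α z) = pw ac α (pw ac β z) := by
        rw [← pw_conv, ← pw_conv, conv_comm hc]
      rw [h3] at h1
      exact a4_trans h1 (a4_symm h2)
    · push Not at hαβ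
      obtain ⟨hα, hβ⟩ := hαβ
      set ε := cf χ ρ (-1) with hεd
      have hα' : ∃ α' : G → ℤ, conv ε α = fun g => (l : ℤ) * α' g := by
        choose α' h using fun g => el_conv χ ρ α hα g
        exact ⟨α', funext h⟩
      have hβ' : ∃ β' : G → ℤ, conv ε β = fun g => (l : ℤ) * β' g := by
        choose β' h using fun g => el_conv χ ρ β hβ g
        exact ⟨β', funext h⟩
      obtain ⟨α', hα'⟩ := hα'
      obtain ⟨β', hβ'⟩ := hβ'
      have h1 : IsOfFinOrder (pw ac ε x ^ n * ((pw ac α' z) ^ l)⁻¹) := by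
        have := hpw ε hx
        rwa [pw_pow, ← pw_conv, hα', pw_smul, zpow_natCast] at this
      have h2 : IsOfFinOrder (pw ac ε y ^ n * ((pw ac β' z) ^ l)⁻¹) := by
        have := hpw ε hy
        rwa [pw_pow, ← pw_conv, hβ', pw_smul, zpow_natCast] at this
      by_cases hdiv : l ∣ n
      · obtain ⟨n1, hn1⟩ := hdiv
        have hn1pos : 0 < n1 := by
          rcases Nat.eq_zero_or_pos n1 with h | h
          · rw [h, mul_zero] at hn1
            omega
          · exact h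
        have hlt : n1 < n := by
          rw [hn1]
          have := hl.two_le
          nlinarith
        have h3 : IsOfFinOrder ((pw ac ε x) ^ n1 * (pw ac α' z)⁻¹) := by
          refine a4_root hl.pos ?_
          rw [mul_pow, inv_pow, ← pow_mul, mul_comm n1 l, ← hn1]
          exact h1
        have h4 : IsOfFinOrder ((pw ac ε y) ^ n1 * (pw ac β' z)⁻¹) := by
          refine a4_root hl.pos ?_
          rw [mul_pow, inv_pow, ← pow_mul, mul_comm n1 l, ← hn1]
          exact h2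
        obtain ⟨γ, γ', w, h5, h6⟩ := ih n1 hlt hn1pos (pw ac ε x) (pw ac ε y) α' β' h3 h4
        refine ⟨conv γ ε, conv γ' ε, w, ?_, ?_⟩
        · rw [chs_conv, chs_conv, hε, mul_one, mul_one]
          exact h5
        · rw [pw_conv, pw_conv]
          exact h6
      · -- l does not divide n
        have hcop : Nat.Coprime n l := ((Nat.Prime.coprime_iff_not_dvd hl).2 hdiv).symm
        have hab := Nat.gcd_eq_gcd_ab n l
        rw [hcop.gcd_eq_one] at hab
        set u := Nat.gcdA n l with hu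
        set v := Nat.gcdB n l with hv
        set X := pw ac ε x with hX
        set P := pw ac α' z with hP
        refine ⟨ε, 0, (P ^ u * X ^ v)⁻¹, Or.inl (by rw [hε]; exact one_ne_zero), ?_⟩
        have h0 : pw ac 0 y = 1 := by
          unfold pw
          simp
        rw [h0, inv_one, mul_one]
        have h3 := a4_pow u h1
        have e : (X ^ n * ((P ^ l))⁻¹) ^ u = X * ((P ^ u * X ^ v)⁻¹) ^ l := by
          have e1 : X = X ^ (((n : ℤ) * u + (l : ℤ) * v)) := by
            rw [← hab, Nat.cast_one, zpow_one]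
          have e2 : X ^ (((n : ℤ) * u + (l : ℤ) * v)) * ((P ^ u * X ^ v)⁻¹) ^ l = (X ^ n * ((P ^ l))⁻¹) ^ u := by
            rw [zpow_add, zpow_mul, zpow_mul, zpow_natCast, zpow_natCast, mul_zpow, inv_zpow, inv_pow, mul_pow, mul_inv]
            have e3 : (X ^ l) ^ v = (X ^ v) ^ l := by
              rw [← zpow_natCast, ← zpow_natCast, ← zpow_mul, ← zpow_mul, mul_comm]
            have e4 : (P ^ l) ^ u = (P ^ u) ^ l := by
              rw [← zpow_natCast, ← zpow_natCast, ← zpow_mul, ← zpow_mul, mul_comm]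
            rw [e3, e4]
            set a := (X ^ n) ^ u
            set b := (X ^ v) ^ l
            set c := (P ^ u) ^ l
            rw [mul_assoc, mul_comm c⁻¹ b⁻¹, mul_inv_cancel_left]
          rw [← e2, ← e1]
        rw [← e]
        exact h3

end H55K.Ab
end

-- from Lib.H55K.A.B1
section

/-!
Chunk B1 (S/M). Equivariant homomorphisms k → Lˣ modulo l-th powers.
PROOFS. Write x ~ y for: exists z, x = y z^l (an equivalence relation, compatible with products, inverses, powers, gu σ and pw gu α by pw_mul, pw_pow). m induces an additive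
map k → Lˣ/~ with m(χ σ a) ~ gu σ (m a). eq_zero: m(0) ~ m(0)^2. eq_neg, eq_zsmul: from add. eq_pw: m b ^ .. : pw gu α (m b) = prod (gu σ (m b))^(α σ) ~ prod m(χ σ b)^(α σ)
~ m(sum α(σ) χ(σ) b). eta_hom: eta χ ρ (a+b) x: cf χ ρ (a+b) σ = cf χ ρ a σ + cf χ ρ b σ modulo l (ρ additive, ZMod.natCast_zmod_val), so the quotient
of the two sides is prod (gu σ x)^(l t σ) = z^l. eta_equiv: cf χ ρ (χ τ a) σ = cf χ ρ a (τ⁻¹ σ) exactly (χ(τ) χ(σ)⁻¹ = χ(τ⁻¹ σ)⁻¹, k commutative), so
eta χ ρ (χ τ a) x = prod_σ (gu σ x)^(n(τ⁻¹ σ)) = prod_σ' (gu τ (gu σ' x))^(n σ') = gu τ (eta χ ρ a x), z = 1.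
eta_pw: pw gu α (eta χ ρ 1 x) ~ eta χ ρ (chs χ α) x: eq_pw for the homomorphism eta. lpow_of_coprime: u n + v l = 1.
trans_comb: combination a ↦ m(c a) * (m'(c' a))⁻¹ of two equivariant homomorphisms is one (k commutative).
-/

open NumberField IsDedekindDomain

namespace H55K.Ab

open H55R

variable {F : Type} [Field F] [NumberField F]

section b1aux

variable {A : Type} [CommGroup A] {l : ℕ}

/-- Equality up to l-th powers. -/
private def b1R (l : ℕ) (x y : A) : Prop := ∃ z : A, x = y * z ^ l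

private theorem b1_refl (x : A) : b1R l x x := ⟨1, by simp⟩

private theorem b1_symm {x y : A} (h : b1R l x y) : b1R l y x := by
  obtain ⟨z, rfl⟩ := h
  exact ⟨z⁻¹, by simp⟩

private theorem b1_trans {x y w : A} (h : b1R l x y) (h' : b1R l y w) : b1R l x w := by
  obtain ⟨z, rfl⟩ := h
  obtain ⟨v, rfl⟩ := h'
  exact ⟨v * z, by rw [mul_pow, mul_assoc]⟩

private theorem b1_mul {x y x' y' : A} (h : b1R l x y) (h' : b1R l x' y') : b1R l (x * x') (y * y') := by
  obtain ⟨z, rfl⟩ := h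
  obtain ⟨v, rfl⟩ := h'
  exact ⟨z * v, by rw [mul_pow, mul_mul_mul_comm]⟩

private theorem b1_inv {x y : A} (h : b1R l x y) : b1R l x⁻¹ y⁻¹ := by
  obtain ⟨z, rfl⟩ := h
  exact ⟨z⁻¹, by rw [mul_inv, inv_pow]⟩

private theorem b1_zpow {x y : A} (h : b1R l x y) (n : ℤ) : b1R l (x ^ n) (y ^ n) := by
  obtain ⟨z, rfl⟩ := h
  refine ⟨z ^ n, ?_⟩
  rw [mul_zpow, ← zpow_natCast z, ← zpow_natCast (z ^ n), ← zpow_mul, ← zpow_mul, mul_comm n]


private theorem b1_prod {ι : Type} (s : Finset ι) {f g : ι → A} (h : ∀ i ∈ s, b1R l (f i) (g i)) :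
    b1R l (∏ i ∈ s, f i) (∏ i ∈ s, g i) := by
  classical
  induction s using Finset.induction_on with
  | empty => exact b1_refl _
  | insert a s ha ih =>
    rw [Finset.prod_insert ha, Finset.prod_insert ha]
    exact b1_mul (h a (Finset.mem_insert_self a s)) (ih fun i hi => h i (Finset.mem_insert_of_mem hi))

private theorem b1_one {x : A} (h : b1R l x 1) : ∃ z : A, x = z ^ l := by
  obtain ⟨z, hz⟩ := h
  exact ⟨z, by rw [hz, one_mul]⟩

private theorem b1_of_pow (z : A) : b1R l (z ^ l) 1 := ⟨z, by rw [one_mul]⟩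

end b1aux

variable {L : Type} [Field L] [NumberField L] [Algebra F L] {l : ℕ} {k : Type} [Field k]
  {χ : Gal(L/F) →* kˣ} {m : k → Lˣ}

theorem eq_zero (hm : EqHom l χ m) : ∃ z : Lˣ, m 0 = z ^ l := by
  obtain ⟨z, hz⟩ := hm.add 0 0
  rw [add_zero] at hz
  refine ⟨z⁻¹, ?_⟩
  rw [inv_pow]
  refine eq_inv_of_mul_eq_one_left ?_
  have h2 : m 0 * (m 0 * z ^ l) = m 0 * 1 := by rw [mul_one, ← mul_assoc, ← hz]
  exact mul_left_cancel h2

theorem eq_neg (hm : EqHom l χ m) (a : k) : ∃ z : Lˣ, m (-a) = (m a)⁻¹ * z ^ l := by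
  obtain ⟨w, hw⟩ := eq_zero hm
  obtain ⟨z, hz⟩ := hm.add (-a) a
  rw [neg_add_cancel, hw] at hz
  refine ⟨w * z⁻¹, ?_⟩
  rw [mul_pow, hz, inv_pow, mul_inv_cancel_right, mul_comm (m (-a)), inv_mul_cancel_left]

theorem eq_zsmul (hm : EqHom l χ m) (n : ℤ) (a : k) : ∃ z : Lˣ, m (n • a) = m a ^ n * z ^ l := by
  have h0 : b1R l (m 0) 1 := by
    obtain ⟨w, hw⟩ := eq_zero hm
    rw [hw]
    exact b1_of_pow w
  change b1R l (m (n • a)) (m a ^ n)
  induction n using Int.induction_on with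
  | zero =>
    rw [zero_smul, zpow_zero]
    exact h0
  | succ i ih =>
    rw [add_smul, one_smul, zpow_add, zpow_one]
    exact b1_trans (hm.add _ _) (b1_mul ih (b1_refl _))
  | pred i ih =>
    rw [sub_smul, one_smul, sub_eq_add_neg ((-(i : ℤ)) • a), zpow_sub, zpow_one]
    exact b1_trans (hm.add _ _) (b1_mul ih (eq_neg hm a))

theorem eq_sum (hm : EqHom l χ m) {ι : Type} (s : Finset ι) (f : ι → k) :
    ∃ z : Lˣ, m (∑ i ∈ s, f i) = (∏ i ∈ s, m (f i)) * z ^ l := by
  classical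
  change b1R l (m (∑ i ∈ s, f i)) (∏ i ∈ s, m (f i))
  induction s using Finset.induction_on with
  | empty =>
    rw [Finset.sum_empty, Finset.prod_empty]
    obtain ⟨w, hw⟩ := eq_zero hm
    rw [hw]
    exact b1_of_pow w
  | insert a s ha ih =>
    rw [Finset.sum_insert ha, Finset.prod_insert ha]
    exact b1_trans (hm.add _ _) (b1_mul (b1_refl _) ih)

theorem eq_pw (hm : EqHom l χ m) (α : Gal(L/F) → ℤ) (b : k) :
    ∃ z : Lˣ, pw gu α (m b) = m (chs χ α * b) * z ^ l := by
  have e : chs χ α * b = ∑ g, α g • ((χ g : k) * b) := by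
    unfold chs
    rw [Finset.sum_mul]
    exact Finset.sum_congr rfl fun g _ => by rw [zsmul_eq_mul, mul_assoc]
  change b1R l (pw gu α (m b)) (m (chs χ α * b))
  refine b1_symm ?_
  rw [e]
  refine b1_trans (eq_sum hm _ _) ?_
  unfold pw
  refine b1_prod _ fun g _ => ?_
  exact b1_trans (eq_zsmul hm (α g) ((χ g : k) * b)) (b1_zpow (hm.equiv g b) (α g))

theorem trans_comb (hm : EqHom l χ m) {m' : k → Lˣ} (hm' : EqHom l χ m') (c c' : k) :
    EqHom l χ fun a => m (c * a) * (m' (c' * a))⁻¹ := by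
  constructor
  · intro a b
    change b1R l (m (c * (a + b)) * (m' (c' * (a + b)))⁻¹) ((m (c * a) * (m' (c' * a))⁻¹) * (m (c * b) * (m' (c' * b))⁻¹))
    rw [mul_add, mul_add]
    have h1 : b1R l (m (c * a + c * b)) (m (c * a) * m (c * b)) := hm.add _ _
    have h2 : b1R l (m' (c' * a + c' * b)) (m' (c' * a) * m' (c' * b)) := hm'.add _ _
    have h3 := b1_mul h1 (b1_inv h2)
    have e : m (c * a) * (m' (c' * a))⁻¹ * (m (c * b) * (m' (c' * b))⁻¹) =
        m (c * a) * m (c * b) * (m' (c' * a) * m' (c' * b))⁻¹ := by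
      rw [mul_inv, mul_mul_mul_comm]
    rw [e]
    exact h3
  · intro σ a
    change b1R l (m (c * (χ σ * a)) * (m' (c' * (χ σ * a)))⁻¹) (gu σ (m (c * a) * (m' (c' * a))⁻¹))
    rw [map_mul, map_inv, mul_left_comm c, mul_left_comm c']
    exact b1_mul (hm.equiv σ _) (b1_inv (hm'.equiv σ _))

theorem eta_hom [Fact l.Prime] (ρ : k →+ ZMod l) (x : Lˣ) :
    EqHom l χ fun a => eta χ ρ a x := by
  constructor
  · intro a b
    have hcf : ∀ g, ∃ t : ℤ, cf χ ρ (a + b) g = cf χ ρ a g + cf χ ρ b g + t * l := by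
      intro g
      have h : ((cf χ ρ a g + cf χ ρ b g : ℤ) : ZMod l) = ((cf χ ρ (a + b) g : ℤ) : ZMod l) := by
        unfold cf
        push_cast
        simp only [ZMod.natCast_zmod_val]
        rw [← map_add, ← add_mul]
      rw [ZMod.intCast_eq_intCast_iff_dvd_sub] at h
      obtain ⟨t, ht⟩ := h
      exact ⟨t, by rw [mul_comm t, ← ht]; ring⟩
    choose t ht using hcf
    refine ⟨∏ g, (gu g x) ^ t g, ?_⟩
    change pw gu (cf χ ρ (a + b)) x = pw gu (cf χ ρ a) x * pw gu (cf χ ρ b) x * _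
    unfold pw
    rw [← Finset.prod_mul_distrib, ← Finset.prod_pow, ← Finset.prod_mul_distrib]
    refine Finset.prod_congr rfl fun g _ => ?_
    rw [ht g, zpow_add, zpow_add, zpow_mul, zpow_natCast]
  · intro τ a
    refine ⟨1, ?_⟩
    rw [one_pow, mul_one]
    change pw gu (cf χ ρ (χ τ * a)) x = gu τ (pw gu (cf χ ρ a) x)
    unfold pw
    rw [map_prod]
    refine (Fintype.prod_equiv (Equiv.mulLeft τ) _ _ fun g => ?_).symm
    simp only [Equiv.coe_mulLeft]
    rw [map_zpow, map_mul]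
    have e : cf χ ρ ((χ τ : k) * a) (τ * g) = cf χ ρ a g := by
      unfold cf
      congr 3
      rw [map_mul, mul_inv, Units.val_mul]
      have h : (χ τ : k) * (((χ τ)⁻¹ : kˣ) : k) = 1 := Units.mul_inv _
      linear_combination (a * (((χ g)⁻¹ : kˣ) : k)) * h
    rw [e]
    rfl

theorem lpow_of_coprime {A : Type} [CommGroup A] (n : ℤ) (x : A) (h : IsCoprime n (l : ℤ))
    (hx : ∃ z : A, x ^ n = z ^ l) : ∃ z : A, x = z ^ l := by
  obtain ⟨u, v, huv⟩ := h
  obtain ⟨z, hz⟩ := hx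
  refine ⟨z ^ u * x ^ v, ?_⟩
  rw [mul_pow, ← zpow_natCast (z ^ u), ← zpow_mul, mul_comm u, zpow_mul, zpow_natCast, ← hz, ← zpow_mul,
    ← zpow_natCast (x ^ v), ← zpow_mul, ← zpow_add, mul_comm n, huv, zpow_one]

end H55K.Ab
end

-- from Lib.H55K.A.B4
section

/-!
Chunk B4 (M). No torsion: an equivariant homomorphism k → Lˣ/l whose values are torsion modulo l-th powers is trivial, if the Galois group does not act on the l-th
roots of unity in L (if there are any) through χ.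
PROOF. Choose τ a of finite order with m a = τ a z^l; τ is again EqHom. The elements of finite order of Lˣ form a finite cyclic group μ (NumberField: rootsOfUnity / torsion;
a subgroup of Lˣ of finite order is cyclic; finiteness: NumberField.Units torsion, or Units.finite_of.. for CommGroup.torsion) of order N, generated by g.
If l does not divide N: every element of μ is an l-th power in μ (lpow_of_coprime with n = N, x^N = 1 = 1^l). If l | N: τ a = g^(t a), t a in Z modulo N. Let K0 = {a : τ a is an l-th power in Lˣ}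
= {a : l | t a} (if g^t = z^l then z is of finite order, z = g^s, t = l s modulo N). K0 is a subgroup of k stable under multiplication by χ σ for all σ, i.e. by all units of k
(χ bijective), so K0 = k or K0 = 0. If K0 = k: done. If K0 = 0: a ↦ t a mod l is an injective additive map k → ZMod l, so t 1 ≠ 0. Let ζ = g^(N/l), a primitive
l-th root of unity. For σ and n with (n : k) = χ σ: τ(χ σ * 1) = τ(n • 1) ~ τ(1)^n and ~ gu σ (τ 1). gu σ g = g^r for some r (g generates); then gu σ (τ 1) = g^(r t 1), and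
g^(r t 1) ~ g^(n t 1) gives r t1 = n t1 mod l, r = n mod l, hence gu σ ζ = g^(r N/l) = g^(n N/l) = ζ^n. This holds for all σ, n: contradiction to hcyc.
-/

open NumberField IsDedekindDomain

namespace H55K.Ab

open H55R

variable {F : Type} [Field F] [NumberField F]

theorem b4_finite (L : Type) [Field L] [NumberField L] : Finite (CommGroup.torsion Lˣ) := by
  have h := NumberField.Embeddings.finite_of_norm_le L ℂ 1
  have h2 : Set.Finite ((CommGroup.torsion Lˣ : Set Lˣ)) := by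
    refine Set.Finite.of_finite_image (f := fun x : Lˣ => (x : L)) (h.subset ?_) (fun x _ y _ hxy => Units.ext hxy)
    rintro _ ⟨x, hx, rfl⟩
    obtain ⟨n, hn, h1⟩ := isOfFinOrder_iff_pow_eq_one.1 hx
    have h2 : (x : L) ^ n = 1 := by rw [← Units.val_pow_eq_pow_val, h1, Units.val_one]
    refine ⟨IsIntegral.of_pow hn (by rw [h2]; exact isIntegral_one), fun φ => ?_⟩
    have h3 : (φ (x : L)) ^ n = 1 := by rw [← map_pow, h2, map_one]
    exact (Complex.norm_eq_one_of_pow_eq_one h3 hn.ne').le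
  exact h2.to_subtype

theorem torsion_triv {L : Type} [Field L] [NumberField L] [Algebra F L] {l : ℕ} [Fact l.Prime]
    {k : Type} [Field k] [CharP k l] {χ : Gal(L/F) →* kˣ} (hχ : Function.Bijective χ)
    (hcyc : ∀ ζ : Lˣ, IsPrimitiveRoot ζ l →
      ¬ ∀ (σ : Gal(L/F)) (n : ℕ), (n : k) = χ σ → gu σ ζ = ζ ^ n)
    {m : k → Lˣ} (hm : EqHom l χ m)
    (ht : ∀ a, ∃ τ z : Lˣ, IsOfFinOrder τ ∧ m a = τ * z ^ l) (a : k) : ∃ z : Lˣ, m a = z ^ l := by
  have hl : l.Prime := Fact.out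
  have hfin := b4_finite L
  choose τ z hτ hz using ht
  obtain ⟨g, hg⟩ := IsCyclic.exists_generator (α := CommGroup.torsion Lˣ)
  set N := Nat.card (CommGroup.torsion Lˣ) with hN
  have hN0 : 0 < N := Nat.card_pos
  have hgN : orderOf (g : Lˣ) = N := by
    rw [Subgroup.orderOf_coe, orderOf_eq_card_of_forall_mem_zpowers hg]
  -- every torsion element is a power of g
  have hpow : ∀ x : Lˣ, IsOfFinOrder x → ∃ t : ℤ, x = (g : Lˣ) ^ t := by
    intro x hx
    obtain ⟨t, h⟩ := hg ⟨x, hx⟩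
    exact ⟨t, (congrArg (Subtype.val) h).symm⟩
  by_cases hlN : l ∣ N
  · -- powers of g which are l-th powers
    have key : ∀ t : ℤ, (∃ w : Lˣ, (g : Lˣ) ^ t = w ^ l) → (l : ℤ) ∣ t := by
      rintro t ⟨w, hw⟩
      have hwf : IsOfFinOrder w := by
        have h1 : IsOfFinOrder ((g : Lˣ) ^ t) := Subgroup.zpow_mem (CommGroup.torsion Lˣ) g.2 t
        rw [hw] at h1
        rw [isOfFinOrder_iff_pow_eq_one] at h1 ⊢
        obtain ⟨q, hq, h2⟩ := h1
        exact ⟨l * q, Nat.mul_pos hl.pos hq, by rw [pow_mul, h2]⟩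
      obtain ⟨s, hs⟩ := hpow w hwf
      have h1 : (g : Lˣ) ^ (t - s * l) = 1 := by
        rw [zpow_sub, hw, hs, zpow_mul, zpow_natCast, mul_inv_cancel]
      have h2 : (N : ℤ) ∣ t - s * l := by
        rw [← hgN]
        exact orderOf_dvd_iff_zpow_eq_one.2 h1
      have h3 : (l : ℤ) ∣ t - s * l := (Int.natCast_dvd_natCast.2 hlN).trans h2
      have h4 := dvd_add h3 (dvd_mul_left (l : ℤ) s)
      rwa [sub_add_cancel] at h4
    choose t htt using fun a => hpow (τ a) (hτ a)
    -- additivity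
    have hadd : ∀ a b : k, ((t (a + b) : ℤ) : ZMod l) = (t a : ZMod l) + (t b : ZMod l) := by
      intro a b
      obtain ⟨w, hw⟩ := hm.add a b
      have h1 : (l : ℤ) ∣ t (a + b) - (t a + t b) := by
        refine key _ ⟨z a * z b * w * (z (a + b))⁻¹, ?_⟩
        rw [hz, hz a, hz b, htt, htt a, htt b] at hw
        rw [zpow_sub, zpow_add, mul_pow, mul_pow, mul_pow, inv_pow, mul_inv_eq_iff_eq_mul]
        have e : (g : Lˣ) ^ t (a + b) = (g : Lˣ) ^ t a * z a ^ l * ((g : Lˣ) ^ t b * z b ^ l) * w ^ l * (z (a + b) ^ l)⁻¹ := by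
          rw [← hw, mul_inv_cancel_right]
        rw [e]
        ac_rfl
      have h2 := (ZMod.intCast_zmod_eq_zero_iff_dvd _ l).2 h1
      push_cast at h2
      linear_combination h2
    set ψ : k →+ ZMod l := AddMonoidHom.mk' (fun a => ((t a : ℤ) : ZMod l)) hadd with hψ
    have hψa : ∀ a, ψ a = ((t a : ℤ) : ZMod l) := fun a => rfl
    choose r hr using fun σ : Gal(L/F) => hpow (gu σ (g : Lˣ)) (MonoidHom.isOfFinOrder (gu σ : Lˣ →* Lˣ) g.2)
    have hequiv : ∀ (σ : Gal(L/F)) (a : k), ψ (χ σ * a) = (r σ : ZMod l) * ψ a := by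
      intro σ a
      obtain ⟨w, hw⟩ := hm.equiv σ a
      have h1 : (l : ℤ) ∣ t (χ σ * a) - r σ * t a := by
        refine key _ ⟨gu σ (z a) * w * (z (χ σ * a))⁻¹, ?_⟩
        rw [hz, hz a, htt, htt a, map_mul, map_zpow, map_pow, hr, ← zpow_mul] at hw
        rw [zpow_sub, mul_pow, mul_pow, inv_pow, mul_inv_eq_iff_eq_mul]
        have e : (g : Lˣ) ^ t (χ σ * a) = (g : Lˣ) ^ (r σ * t a) * gu σ (z a) ^ l * w ^ l * (z (χ σ * a) ^ l)⁻¹ := by
          rw [← hw, mul_inv_cancel_right]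
        rw [e]
        ac_rfl
      have h2 := (ZMod.intCast_zmod_eq_zero_iff_dvd _ l).2 h1
      push_cast at h2
      rw [hψa, hψa]
      linear_combination h2
    by_cases h1 : ψ 1 = 0
    · -- everything is trivial
      have h2 : ψ a = 0 := by
        by_cases ha : a = 0
        · rw [ha, map_zero]
        · obtain ⟨σ, hσ⟩ := hχ.2 (Units.mk0 a ha)
          have h3 := hequiv σ 1
          rw [hσ, h1, mul_zero, Units.val_mk0, mul_one] at h3
          exact h3
      rw [hψa, ZMod.intCast_zmod_eq_zero_iff_dvd] at h2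
      obtain ⟨s, hs⟩ := h2
      refine ⟨(g : Lˣ) ^ s * z a, ?_⟩
      rw [hz a, htt a, hs, mul_pow, ← zpow_natCast ((g : Lˣ) ^ s), ← zpow_mul, mul_comm s]
    · exfalso
      obtain ⟨M, hM⟩ := hlN
      have hM0 : 0 < M := by
        rcases Nat.eq_zero_or_pos M with h | h
        · rw [h, mul_zero] at hM
          omega
        · exact h
      have hprim : IsPrimitiveRoot ((g : Lˣ) ^ M) l := by
        have h2 : IsPrimitiveRoot (g : Lˣ) N := by
          rw [← hgN]
          exact IsPrimitiveRoot.orderOf _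
        exact h2.pow hN0 (by rw [hM, mul_comm])
      refine hcyc _ hprim fun σ n hn => ?_
      have h2 := hequiv σ 1
      rw [mul_one, ← hn] at h2
      have h3 : ψ (n : k) = (n : ZMod l) * ψ 1 := by
        have h4 : (n : k) = n • (1 : k) := by rw [nsmul_eq_mul, mul_one]
        rw [h4, map_nsmul, nsmul_eq_mul]
      rw [h3] at h2
      have h4 : (n : ZMod l) = (r σ : ZMod l) := mul_right_cancel₀ h1 h2
      have h5 : (l : ℤ) ∣ (r σ) - n := by
        rw [← ZMod.intCast_zmod_eq_zero_iff_dvd]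
        push_cast
        rw [h4, sub_self]
      obtain ⟨c, hc⟩ := h5
      rw [map_pow, hr]
      have h6 : r σ = (n : ℤ) + l * c := by linarith
      have h7 : (((g : Lˣ) ^ M) ^ (l : ℤ)) = 1 := by
        rw [zpow_natCast, hprim.pow_eq_one]
      calc ((g : Lˣ) ^ r σ) ^ M = ((g : Lˣ) ^ M) ^ (r σ) := by
            rw [← zpow_natCast, ← zpow_natCast, ← zpow_mul, ← zpow_mul, mul_comm]
        _ = ((g : Lˣ) ^ M) ^ n := by
            rw [h6, zpow_add, zpow_mul, h7, one_zpow, mul_one, zpow_natCast]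
  · have h1 : ∃ w : Lˣ, τ a = w ^ l := by
      refine lpow_of_coprime (l := l) (N : ℤ) (τ a) ?_ ⟨1, ?_⟩
      · rw [Nat.isCoprime_iff_coprime]
        exact ((Nat.Prime.coprime_iff_not_dvd hl).2 hlN).symm
      · obtain ⟨t, ht⟩ := hpow (τ a) (hτ a)
        rw [one_pow, ht, ← zpow_mul, mul_comm, zpow_mul, zpow_natCast, ← hgN, pow_orderOf_eq_one, one_zpow]
    obtain ⟨w, hw⟩ := h1
    exact ⟨w * z a, by rw [hz a, hw, mul_pow]⟩

end H55K.Ab
end

-- from Lib.H19Z.L1
section

/-! Chunk ZL1 (M): the change of variables x = u^2 x' + r, y = u^3 y' + u^2 s x' + t is an isomorphism of the groups of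
points. Copy H55P/S4.lean (PS4_eq, PS4_negY, PS4_cond, PS4_slope, PS4_addX, PS4_addY, PS4_ns, PS4_f, PS4_f_add, PS4_iso; there
u = 1 and W₂ is short): first the structure of the relations between the coefficients
  u a1' = a1 + 2s, u^2 a2' = a2 - s a1 + 3r - s^2, u^3 a3' = a3 + r a1 + 2t,
  u^4 a4' = a4 - s a3 + 2r a2 - (t + rs) a1 + 3r^2 - 2st, u^6 a6' = a6 + r a4 + r^2 a2 + r^3 - t a3 - t^2 - r t a1
(from WeierstrassCurve.variableChange_a₁ ..., Mathlib AlgebraicGeometry/EllipticCurve/VariableChange.lean), the map on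
coordinates f(x', y') = (u^2 x' + r, u^3 y' + u^2 s x' + t). Equation' <-> Equation (the difference is u^6 times);
negY (f P) = f (negY' P); slope: slope = u slope' + s (cases x1 = x2, y1 <> negY: slope_of_Y_ne; x1 <> x2: slope_of_X_ne);
addX: addX = u^2 addX' + r. The curves are elliptic, so Nonsingular <-> Equation (Affine.equation_iff_nonsingular;
Mathlib has the instance (C • W).IsElliptic). -/

open WeierstrassCurve

namespace H19Z

/-- The coefficients of the two curves are related by the change of variables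
`X = u^2 x + r`, `Y = u^3 y + u^2 s x + t`. -/
structure ZL1_D {k : Type} [Field k] (W₁ W₂ : WeierstrassCurve k) (u r s t : k) : Prop where
  hu : u ≠ 0
  h1 : u * W₁.a₁ = W₂.a₁ + 2 * s
  h2 : u ^ 2 * W₁.a₂ = W₂.a₂ - s * W₂.a₁ + 3 * r - s ^ 2
  h3 : u ^ 3 * W₁.a₃ = W₂.a₃ + r * W₂.a₁ + 2 * t
  h4 : u ^ 4 * W₁.a₄ = W₂.a₄ - s * W₂.a₃ + 2 * r * W₂.a₂ - (t + r * s) * W₂.a₁ + 3 * r ^ 2
      - 2 * s * t
  h6 : u ^ 6 * W₁.a₆ = W₂.a₆ + r * W₂.a₄ + r ^ 2 * W₂.a₂ + r ^ 3 - t * W₂.a₃ - t ^ 2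
      - r * t * W₂.a₁

section

variable {k : Type} [Field k] {W₁ W₂ : WeierstrassCurve k} {u r s t : k}

theorem ZL1_eq (D : ZL1_D W₁ W₂ u r s t) (x y : k) :
    W₁.toAffine.Equation x y ↔
      W₂.toAffine.Equation (u ^ 2 * x + r) (u ^ 3 * y + u ^ 2 * s * x + t) := by
  have h1 : u * W₁.toAffine.a₁ = W₂.toAffine.a₁ + 2 * s := D.h1
  have h2 : u ^ 2 * W₁.toAffine.a₂ = W₂.toAffine.a₂ - s * W₂.toAffine.a₁ + 3 * r - s ^ 2 := D.h2
  have h3 : u ^ 3 * W₁.toAffine.a₃ = W₂.toAffine.a₃ + r * W₂.toAffine.a₁ + 2 * t := D.h3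
  have h4 : u ^ 4 * W₁.toAffine.a₄ = W₂.toAffine.a₄ - s * W₂.toAffine.a₃ +
      2 * r * W₂.toAffine.a₂ - (t + r * s) * W₂.toAffine.a₁ + 3 * r ^ 2 - 2 * s * t := D.h4
  have h6 : u ^ 6 * W₁.toAffine.a₆ = W₂.toAffine.a₆ + r * W₂.toAffine.a₄ +
      r ^ 2 * W₂.toAffine.a₂ + r ^ 3 - t * W₂.toAffine.a₃ - t ^ 2
      - r * t * W₂.toAffine.a₁ := D.h6
  rw [Affine.equation_iff, Affine.equation_iff]
  constructor
  · intro h
    linear_combination u ^ 6 * h - u ^ 5 * x * y * h1 - u ^ 3 * y * h3 + u ^ 4 * x ^ 2 * h2 +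
      u ^ 2 * x * h4 + h6
  · intro h
    refine mul_left_cancel₀ (pow_ne_zero 6 D.hu) ?_
    linear_combination h + u ^ 5 * x * y * h1 + u ^ 3 * y * h3 - u ^ 4 * x ^ 2 * h2 -
      u ^ 2 * x * h4 - h6

theorem ZL1_negY (D : ZL1_D W₁ W₂ u r s t) (x y : k) :
    W₂.toAffine.negY (u ^ 2 * x + r) (u ^ 3 * y + u ^ 2 * s * x + t) =
      u ^ 3 * W₁.toAffine.negY x y + u ^ 2 * s * x + t := by
  have h1 : u * W₁.toAffine.a₁ = W₂.toAffine.a₁ + 2 * s := D.h1
  have h3 : u ^ 3 * W₁.toAffine.a₃ = W₂.toAffine.a₃ + r * W₂.toAffine.a₁ + 2 * t := D.h3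
  rw [Affine.negY, Affine.negY]
  linear_combination u ^ 2 * x * h1 + h3

theorem ZL1_cond (D : ZL1_D W₁ W₂ u r s t) (x₁ y₁ x₂ y₂ : k) :
    (u ^ 2 * x₁ + r = u ^ 2 * x₂ + r ∧ u ^ 3 * y₁ + u ^ 2 * s * x₁ + t =
      W₂.toAffine.negY (u ^ 2 * x₂ + r) (u ^ 3 * y₂ + u ^ 2 * s * x₂ + t)) ↔
      (x₁ = x₂ ∧ y₁ = W₁.toAffine.negY x₂ y₂) := by
  rw [ZL1_negY D]
  constructor
  · rintro ⟨h1, h2⟩
    have h3 : x₁ = x₂ := mul_left_cancel₀ (pow_ne_zero 2 D.hu) (by linear_combination h1)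
    refine ⟨h3, ?_⟩
    rw [h3] at h2
    exact mul_left_cancel₀ (pow_ne_zero 3 D.hu) (by linear_combination h2)
  · rintro ⟨h1, h2⟩
    rw [h1, h2]
    exact ⟨rfl, rfl⟩

theorem ZL1_slope [DecidableEq k] (D : ZL1_D W₁ W₂ u r s t) {x₁ y₁ x₂ y₂ : k}
    (E₁ : W₁.toAffine.Equation x₁ y₁) (E₂ : W₁.toAffine.Equation x₂ y₂)
    (hxy : ¬(x₁ = x₂ ∧ y₁ = W₁.toAffine.negY x₂ y₂)) :
    W₂.toAffine.slope (u ^ 2 * x₁ + r) (u ^ 2 * x₂ + r) (u ^ 3 * y₁ + u ^ 2 * s * x₁ + t)
      (u ^ 3 * y₂ + u ^ 2 * s * x₂ + t) = u * W₁.toAffine.slope x₁ x₂ y₁ y₂ + s := by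
  have hu := D.hu
  by_cases hx : x₁ = x₂
  · have hy : y₁ ≠ W₁.toAffine.negY x₂ y₂ := fun h => hxy ⟨hx, h⟩
    have hy' : u ^ 3 * y₁ + u ^ 2 * s * x₁ + t ≠
        W₂.toAffine.negY (u ^ 2 * x₂ + r) (u ^ 3 * y₂ + u ^ 2 * s * x₂ + t) := fun h =>
      hxy ((ZL1_cond D x₁ y₁ x₂ y₂).1 ⟨by rw [hx], h⟩)
    have hyy : y₁ = y₂ := Affine.Y_eq_of_Y_ne E₁ E₂ hx hy
    rw [Affine.slope_of_Y_ne (by rw [hx]) hy', Affine.slope_of_Y_ne hx hy, ZL1_negY D]
    have hne : y₁ - W₁.toAffine.negY x₁ y₁ ≠ 0 := by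
      rw [sub_ne_zero]
      rw [← hx, ← hyy] at hy
      exact hy
    have h1 : u * W₁.toAffine.a₁ = W₂.toAffine.a₁ + 2 * s := D.h1
    have h2 : u ^ 2 * W₁.toAffine.a₂ = W₂.toAffine.a₂ - s * W₂.toAffine.a₁ + 3 * r - s ^ 2 := D.h2
    have h3 : u ^ 3 * W₁.toAffine.a₃ = W₂.toAffine.a₃ + r * W₂.toAffine.a₁ + 2 * t := D.h3
    have h4 : u ^ 4 * W₁.toAffine.a₄ = W₂.toAffine.a₄ - s * W₂.toAffine.a₃ +
      2 * r * W₂.toAffine.a₂ - (t + r * s) * W₂.toAffine.a₁ + 3 * r ^ 2 - 2 * s * t := D.h4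
    have e5 : u ^ 3 * y₁ + u ^ 2 * s * x₁ + t -
        (u ^ 3 * W₁.toAffine.negY x₁ y₁ + u ^ 2 * s * x₁ + t) =
        u ^ 3 * (y₁ - W₁.toAffine.negY x₁ y₁) := by
      ring
    rw [e5, div_eq_iff (mul_ne_zero (pow_ne_zero 3 hu) hne)]
    have e6 : (u * ((3 * x₁ ^ 2 + 2 * W₁.toAffine.a₂ * x₁ + W₁.toAffine.a₄ -
        W₁.toAffine.a₁ * y₁) / (y₁ - W₁.toAffine.negY x₁ y₁)) + s) *
        (u ^ 3 * (y₁ - W₁.toAffine.negY x₁ y₁)) =
        u ^ 4 * (3 * x₁ ^ 2 + 2 * W₁.toAffine.a₂ * x₁ + W₁.toAffine.a₄ -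
        W₁.toAffine.a₁ * y₁) + s * u ^ 3 * (y₁ - W₁.toAffine.negY x₁ y₁) := by
      field_simp
    rw [e6, Affine.negY]
    linear_combination (-2) * u ^ 2 * x₁ * h2 - h4 + u ^ 3 * y₁ * h1 - s * u ^ 2 * x₁ * h1 -
      s * h3
  · have hx' : u ^ 2 * x₁ + r ≠ u ^ 2 * x₂ + r := fun h =>
      hx (mul_left_cancel₀ (pow_ne_zero 2 hu) (by linear_combination h))
    have h0 : x₁ - x₂ ≠ 0 := sub_ne_zero.2 hx
    rw [Affine.slope_of_X_ne hx', Affine.slope_of_X_ne hx]
    have e5 : u ^ 2 * x₁ + r - (u ^ 2 * x₂ + r) = u ^ 2 * (x₁ - x₂) := by ring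
    rw [e5, div_eq_iff (mul_ne_zero (pow_ne_zero 2 hu) h0)]
    have e6 : (u * ((y₁ - y₂) / (x₁ - x₂)) + s) * (u ^ 2 * (x₁ - x₂)) =
        u ^ 3 * (y₁ - y₂) + s * u ^ 2 * (x₁ - x₂) := by
      field_simp
    rw [e6]
    ring

theorem ZL1_addX (D : ZL1_D W₁ W₂ u r s t) (x₁ x₂ l : k) :
    W₂.toAffine.addX (u ^ 2 * x₁ + r) (u ^ 2 * x₂ + r) (u * l + s) =
      u ^ 2 * W₁.toAffine.addX x₁ x₂ l + r := by
  have h1 : u * W₁.toAffine.a₁ = W₂.toAffine.a₁ + 2 * s := D.h1
  have h2 : u ^ 2 * W₁.toAffine.a₂ = W₂.toAffine.a₂ - s * W₂.toAffine.a₁ + 3 * r - s ^ 2 := D.h2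
  rw [Affine.addX, Affine.addX]
  linear_combination -(u * l) * h1 + h2

theorem ZL1_addY (D : ZL1_D W₁ W₂ u r s t) (x₁ x₂ y₁ l : k) :
    W₂.toAffine.addY (u ^ 2 * x₁ + r) (u ^ 2 * x₂ + r) (u ^ 3 * y₁ + u ^ 2 * s * x₁ + t)
      (u * l + s) =
      u ^ 3 * W₁.toAffine.addY x₁ x₂ y₁ l + u ^ 2 * s * W₁.toAffine.addX x₁ x₂ l + t := by
  have h : W₂.toAffine.negAddY (u ^ 2 * x₁ + r) (u ^ 2 * x₂ + r)
      (u ^ 3 * y₁ + u ^ 2 * s * x₁ + t) (u * l + s) =
      u ^ 3 * W₁.toAffine.negAddY x₁ x₂ y₁ l + u ^ 2 * s * W₁.toAffine.addX x₁ x₂ l + t := by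
    rw [Affine.negAddY, Affine.negAddY, ZL1_addX D]
    ring
  rw [Affine.addY, Affine.addY, h, ZL1_addX D, ZL1_negY D]

theorem ZL1_ns [W₁.IsElliptic] [W₂.IsElliptic] (D : ZL1_D W₁ W₂ u r s t) (x y : k) :
    W₁.toAffine.Nonsingular x y ↔
      W₂.toAffine.Nonsingular (u ^ 2 * x + r) (u ^ 3 * y + u ^ 2 * s * x + t) := by
  rw [← Affine.equation_iff_nonsingular (W := W₁.toAffine),
    ← Affine.equation_iff_nonsingular (W := W₂.toAffine)]
  exact ZL1_eq D x y

/-- The map on points. -/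
noncomputable def ZL1_f [W₁.IsElliptic] [W₂.IsElliptic] (D : ZL1_D W₁ W₂ u r s t) :
    W₁.toAffine.Point → W₂.toAffine.Point
  | 0 => 0
  | .some x y h => .some (u ^ 2 * x + r) (u ^ 3 * y + u ^ 2 * s * x + t) ((ZL1_ns D x y).1 h)

theorem ZL1_f_add [DecidableEq k] [W₁.IsElliptic] [W₂.IsElliptic] (D : ZL1_D W₁ W₂ u r s t)
    (P Q : W₁.toAffine.Point) : ZL1_f D (P + Q) = ZL1_f D P + ZL1_f D Q := by
  rcases P with _ | ⟨x₁, y₁, h₁⟩
  · change ZL1_f D (0 + Q) = 0 + ZL1_f D Q
    rw [zero_add, zero_add]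
  rcases Q with _ | ⟨x₂, y₂, h₂⟩
  · change ZL1_f D (_ + 0) = _ + 0
    rw [add_zero, add_zero]
  by_cases hxy : x₁ = x₂ ∧ y₁ = W₁.toAffine.negY x₂ y₂
  · rw [Affine.Point.add_of_Y_eq hxy.1 hxy.2]
    have h := (ZL1_cond D x₁ y₁ x₂ y₂).2 hxy
    exact (Affine.Point.add_of_Y_eq (h₁ := (ZL1_ns D x₁ y₁).1 h₁) (h₂ := (ZL1_ns D x₂ y₂).1 h₂)
      h.1 h.2).symm
  · have hxy' := fun h => hxy ((ZL1_cond D x₁ y₁ x₂ y₂).1 h)
    have e1 := Affine.Point.add_some hxy' (h₁ := (ZL1_ns D x₁ y₁).1 h₁)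
      (h₂ := (ZL1_ns D x₂ y₂).1 h₂)
    rw [Affine.Point.add_some hxy]
    refine Eq.trans ?_ e1.symm
    change Affine.Point.some _ _ _ = Affine.Point.some _ _ _
    rw [Affine.Point.some.injEq]
    rw [ZL1_slope D h₁.1 h₂.1 hxy, ZL1_addX D, ZL1_addY D]
    exact ⟨rfl, rfl⟩

theorem ZL1_f_inj [W₁.IsElliptic] [W₂.IsElliptic] (D : ZL1_D W₁ W₂ u r s t) :
    Function.Injective (ZL1_f D) := by
  intro P Q hPQ
  rcases P with _ | ⟨x₁, y₁, h₁⟩
  · rcases Q with _ | ⟨x₂, y₂, h₂⟩
    · rfl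
    · exact absurd hPQ (Affine.Point.some_ne_zero _).symm
  · rcases Q with _ | ⟨x₂, y₂, h₂⟩
    · exact absurd hPQ (Affine.Point.some_ne_zero _)
    · have h := Affine.Point.some.inj hPQ
      have hx : x₁ = x₂ :=
        mul_left_cancel₀ (pow_ne_zero 2 D.hu) (by linear_combination h.1)
      have hy : y₁ = y₂ :=
        mul_left_cancel₀ (pow_ne_zero 3 D.hu) (by linear_combination h.2 - u ^ 2 * s * hx)
      subst hx hy
      rfl

theorem ZL1_f_surj [W₁.IsElliptic] [W₂.IsElliptic] (D : ZL1_D W₁ W₂ u r s t) :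
    Function.Surjective (ZL1_f D) := by
  intro P
  rcases P with _ | ⟨x, y, h⟩
  · exact ⟨0, rfl⟩
  · have hu := D.hu
    have e1 : u ^ 2 * ((x - r) / u ^ 2) + r = x := by field_simp; ring
    have e2 : u ^ 3 * ((y - u ^ 2 * s * ((x - r) / u ^ 2) - t) / u ^ 3) +
        u ^ 2 * s * ((x - r) / u ^ 2) + t = y := by field_simp; ring
    have h' : W₁.toAffine.Nonsingular ((x - r) / u ^ 2)
        ((y - u ^ 2 * s * ((x - r) / u ^ 2) - t) / u ^ 3) := by
      rw [ZL1_ns D, e1, e2]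
      exact h
    refine ⟨.some _ _ h', ?_⟩
    change Affine.Point.some _ _ _ = Affine.Point.some _ _ _
    rw [Affine.Point.some.injEq]
    exact ⟨e1, e2⟩

/-- The isomorphism of the groups of points. -/
noncomputable def ZL1_iso [DecidableEq k] [W₁.IsElliptic] [W₂.IsElliptic]
    (D : ZL1_D W₁ W₂ u r s t) : W₁.toAffine.Point ≃+ W₂.toAffine.Point :=
  AddEquiv.ofBijective (AddMonoidHom.mk' (ZL1_f D) (ZL1_f_add D)) ⟨ZL1_f_inj D, ZL1_f_surj D⟩

end

theorem ZL1_rel {k : Type} [Field k] (W : WeierstrassCurve k) (C : VariableChange k) :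
    ZL1_D (C • W) W (C.u : k) C.r C.s C.t where
  hu := C.u.ne_zero
  h1 := by
    rw [variableChange_a₁, ← mul_assoc, Units.mul_inv, one_mul]
  h2 := by
    rw [variableChange_a₂, ← mul_assoc, ← mul_pow, Units.mul_inv, one_pow, one_mul]
  h3 := by
    rw [variableChange_a₃, ← mul_assoc, ← mul_pow, Units.mul_inv, one_pow, one_mul]
  h4 := by
    rw [variableChange_a₄, ← mul_assoc, ← mul_pow, Units.mul_inv, one_pow, one_mul]
  h6 := by
    rw [variableChange_a₆, ← mul_assoc, ← mul_pow, Units.mul_inv, one_pow, one_mul]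

theorem vc_iso {k : Type} [Field k] [DecidableEq k] (W : WeierstrassCurve k) [W.IsElliptic]
    (C : VariableChange k) :
    ∃ φ : (C • W).toAffine.Point ≃+ W.toAffine.Point,
      ∀ (x y : k) (h : (C • W).toAffine.Nonsingular x y),
        ∃ h' : W.toAffine.Nonsingular ((C.u : k) ^ 2 * x + C.r)
            ((C.u : k) ^ 3 * y + (C.u : k) ^ 2 * C.s * x + C.t),
          φ (Affine.Point.some x y h) = Affine.Point.some _ _ h' :=
  ⟨ZL1_iso (ZL1_rel W C), fun x y h => ⟨(ZL1_ns (ZL1_rel W C) x y).1 h, rfl⟩⟩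

end H19Z
end

-- from Lib.H55K.D2B
section

/-! # H55K, part D: the number of points does not change under a change of variables -/

open WeierstrassCurve

namespace H55K.DD

/-- Chunk D2B (S/M). The points of D • E are (x, y) with (u^2 x + r, u^3 y + s u^2 x + t) on E (see H55B.F1_count, Lib/H55B/F1.lean; or Affine / VariableChange lemmas in Mathlib, or H35P, MG.vc_iso). Discriminants are nonzero, so nonsingular = equation
(Affine.equation_iff_nonsingular_of_Δ_ne_zero); an equivalence of the point types (Affine.pointEquiv / nonsingularPointEquiv). -/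
theorem card_vc (k : Type) [Field k] (D : VariableChange k) (E : WeierstrassCurve k) (hΔ : E.Δ ≠ 0) :
    Nat.card (D • E).toAffine.Point = Nat.card E.toAffine.Point := by
  classical
  have : E.IsElliptic := ⟨isUnit_iff_ne_zero.2 hΔ⟩
  obtain ⟨φ, -⟩ := H19Z.vc_iso E D
  exact Nat.card_congr φ.toEquiv

end H55K.DD
end

-- from Lib.H55R.X2
section

namespace H55R

/-! Chunk X2 (S/M, pure group theory). exists_theta: u is not in the subgroup H generated by u^l (l divides the order of u, so orderOf (u^l) < orderOf u);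
the finite commutative group (ZMod p)ˣ / H has a character which is not 1 on the class of u (CommGroup.exists_apply_ne_one_of_hasEnoughRootsOfUnity).
gen_exists: σ a generator of B; G/B has prime order and g is not in B, so every x is g^k b, b in B = <σ>, b = σ^i.
index_pow: l divides orderOf g, so the subgroup generated by g^l has index l in that generated by g; Subgroup.relIndex_mul_index.
pow_mem: B normal of index l: g^l is in B (the quotient has order l). -/

theorem exists_theta (p l : ℕ) [Fact p.Prime] (hl : l.Prime) (u : (ZMod p)ˣ) (h : l ∣ orderOf u) :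
    ∃ θ : (ZMod p)ˣ →* ℂˣ, θ u ≠ 1 ∧ θ (u ^ l) = 1 := by
  have hpos : 0 < orderOf u := orderOf_pos u
  have hu : u ∉ Subgroup.zpowers (u ^ l) := by
    intro hu
    have h1 : orderOf u ∣ orderOf (u ^ l) := orderOf_dvd_of_mem_zpowers hu
    rw [orderOf_pow_of_dvd hl.ne_zero h] at h1
    have h2 : 0 < orderOf u / l := Nat.div_pos (Nat.le_of_dvd hpos h) hl.pos
    have h3 := Nat.le_of_dvd h2 h1
    have h4 : orderOf u / l < orderOf u := Nat.div_lt_self hpos hl.one_lt
    omega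
  have hne : (QuotientGroup.mk u : (ZMod p)ˣ ⧸ Subgroup.zpowers (u ^ l)) ≠ 1 := by
    intro h1
    exact hu ((QuotientGroup.eq_one_iff u).1 h1)
  have : NeZero (Monoid.exponent ((ZMod p)ˣ ⧸ Subgroup.zpowers (u ^ l))) :=
    ⟨Monoid.exponent_ne_zero_of_finite⟩
  obtain ⟨φ, hφ⟩ := CommGroup.exists_apply_ne_one_of_hasEnoughRootsOfUnity
    ((ZMod p)ˣ ⧸ Subgroup.zpowers (u ^ l)) ℂ hne
  refine ⟨φ.comp (QuotientGroup.mk' _), hφ, ?_⟩
  have h1 : (QuotientGroup.mk' (Subgroup.zpowers (u ^ l))) (u ^ l) = 1 :=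
    (QuotientGroup.eq_one_iff _).2 (Subgroup.mem_zpowers _)
  rw [MonoidHom.comp_apply, h1, map_one]

theorem gen_exists {G : Type} [Group G] [Finite G] (hc : ∀ g h : G, g * h = h * g) (l : ℕ)
    (hl : l.Prime) (g : G) (B : Subgroup G) (hB : B.index = l) (hBc : IsCyclic B) (hg : g ∉ B) :
    ∃ σ : G, ∀ x : G, ∃ i : ℤ, x * (σ ^ i)⁻¹ ∈ Subgroup.zpowers g := by
  obtain ⟨σ, hσ⟩ := hBc.exists_generator
  refine ⟨σ, fun x => ?_⟩
  have hn : B.Normal := ⟨fun b hb y => by rwa [hc y b, mul_assoc, mul_inv_cancel, mul_one]⟩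
  have := Fact.mk hl
  have hcard : Nat.card (G ⧸ B) = l := hB
  have hgne : (QuotientGroup.mk g : G ⧸ B) ≠ 1 := fun h => hg ((QuotientGroup.eq_one_iff g).1 h)
  have hmem : (QuotientGroup.mk x : G ⧸ B) ∈ Subgroup.zpowers (QuotientGroup.mk g : G ⧸ B) :=
    mem_zpowers_of_prime_card hcard hgne
  obtain ⟨k, hk⟩ := hmem
  have h1 : (g ^ k)⁻¹ * x ∈ B := by
    rw [← QuotientGroup.eq]
    exact_mod_cast hk
  obtain ⟨i, hi⟩ := hσ ⟨_, h1⟩
  have h2 : (σ : G) ^ i = (g ^ k)⁻¹ * x := by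
    have := congrArg Subtype.val hi
    simpa using this
  refine ⟨i, k, ?_⟩
  rw [h2]
  change g ^ k = _
  group

theorem index_pow {G : Type} [Group G] [Finite G] (l : ℕ) (hl : l.Prime) (g : G)
    (h : l ∣ orderOf g) :
    (Subgroup.zpowers (g ^ l)).index = l * (Subgroup.zpowers g).index := by
  have h1 := Subgroup.card_mul_index (Subgroup.zpowers (g ^ l))
  have h2 := Subgroup.card_mul_index (Subgroup.zpowers g)
  rw [Nat.card_zpowers] at h1 h2
  rw [orderOf_pow_of_dvd hl.ne_zero h] at h1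
  obtain ⟨o, ho⟩ := h
  have hpos : 0 < orderOf g := orderOf_pos g
  have ho0 : 0 < o := by
    rcases Nat.eq_zero_or_pos o with h0 | h0
    · rw [ho, h0] at hpos
      simp at hpos
    · exact h0
  rw [ho, Nat.mul_div_cancel_left o hl.pos] at h1
  rw [ho] at h2
  refine Nat.eq_of_mul_eq_mul_left ho0 ?_
  rw [h1, ← h2]
  ring

theorem pow_mem_index {G : Type} [Group G] [Finite G] (hc : ∀ g h : G, g * h = h * g) (l : ℕ)
    (g : G) (B : Subgroup G) (hB : B.index = l) : g ^ l ∈ B := by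
  have hn : B.Normal := ⟨fun b hb y => by rwa [hc y b, mul_assoc, mul_inv_cancel, mul_one]⟩
  rw [← hB]
  exact Subgroup.pow_index_mem B g

end H55R
end

-- from Lib.H55R.X5
section

open NumberField IsDedekindDomain

namespace H55R

/-! Chunk X5 (S/M): the fixed field of a normal subgroup as a type. M = IntermediateField.fixedField A (coerced to a type), a number field (NumberField.of_module_finite or
of_intermediateField), algebras and scalar tower from IntermediateField, IsGalois K M because A is normal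
(IsGalois.of_fixedField_normal_subgroup), finrank K M = A.index (IntermediateField.finrank_fixedField_eq_card, Lagrange), and an element σ restricts to the
identity of M iff it fixes M pointwise iff it is in the fixing subgroup of the fixed field = A (IsGalois / IntermediateField.fixingSubgroup_fixedField). -/

theorem exists_fixed (K N : Type) [Field K] [NumberField K] [Field N] [NumberField N] [Algebra K N]
    [IsGalois K N] (A : Subgroup Gal(N/K)) (hA : A.Normal) :
    ∃ (M : Type) (_ : Field M) (_ : NumberField M) (_ : Algebra K M) (_ : Algebra M N)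
      (_ : IsScalarTower K M N) (_ : IsGalois K M), Module.finrank K M = A.index ∧
      (AlgEquiv.restrictNormalHom M : Gal(N/K) →* Gal(M/K)).ker = A := by
  have h1 : IsGalois K (IntermediateField.fixedField A) := IsGalois.of_fixedField_normal_subgroup A
  have h2 : NumberField (IntermediateField.fixedField A) := NumberField.of_module_finite K _
  refine ⟨IntermediateField.fixedField A, inferInstance, h2, inferInstance, inferInstance,
    inferInstance, h1, ?_, ?_⟩
  · rw [IntermediateField.finrank_eq_fixingSubgroup_index, IntermediateField.fixingSubgroup_fixedField]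
  · rw [IntermediateField.restrictNormalHom_ker, IntermediateField.fixingSubgroup_fixedField]

end H55R
end

-- from Lib.H55K.D2A
section

/-! # H55K, part D: two good models differ by an integral change of variables -/

open WeierstrassCurve

namespace H55K.DD

theorem d2a_good (R : Type) [CommRing R] [IsDomain R] [IsDiscreteValuationRing R] (K : Type)
    [Field K] [Algebra R K] [IsFractionRing R K] (W : WeierstrassCurve R) (hΔ : IsUnit W.Δ) :
    ((W⁄K).minimal R).HasGoodReduction R := by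
  obtain ⟨C, hC⟩ : ∃ C : VariableChange K, (W⁄K).minimal R = C • (W⁄K) := ⟨_, rfl⟩
  have hmin : IsMinimal R ((W⁄K).minimal R) := inferInstance
  rw [hasGoodReduction_iff]
  refine ⟨hmin, ?_⟩
  have hWint : IsIntegral R (W⁄K) := ⟨⟨W, rfl⟩⟩
  have hback : C⁻¹ • (W⁄K).minimal R = (W⁄K) := by rw [hC, inv_smul_smul]
  have hmax := hmin.val_Δ_maximal
  have hj : IsIntegral R (C⁻¹ • (W⁄K).minimal R) := by rw [hback]; exact hWint
  have hval : (valuation_Δ_aux R (C⁻¹ • (W⁄K).minimal R)).1 = 1 := by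
    rw [hback]
    rw [valuation_Δ_aux_eq_of_isIntegral]
    have h1 : (W⁄K).Δ = algebraMap R K W.Δ := map_Δ W (algebraMap R K)
    rw [h1]
    exact H55B.F1_val_unit R K hΔ
  have hle : valuation_Δ_aux R ((1 : VariableChange K) •
      (W⁄K).minimal R) ≤ valuation_Δ_aux R (C⁻¹ • (W⁄K).minimal R) := by
    rw [← Subtype.coe_le_coe, hval]
    exact (valuation_Δ_aux R _).2
  have hge := hmax.2 hj hle
  rw [← Subtype.coe_le_coe, hval] at hge
  change 1 ≤ (valuation_Δ_aux R ((1 : VariableChange K) •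
      (W⁄K).minimal R)).1 at hge
  rw [one_smul, valuation_Δ_aux_eq_of_isIntegral] at hge
  refine le_antisymm ?_ hge
  obtain ⟨r, hr⟩ := Δ_integral_of_isIntegral R ((W⁄K).minimal R)
  rw [← hr]
  exact IsDedekindDomain.HeightOneSpectrum.valuation_le_one _ _

/-- Chunk D2A (M), PORT of H55B.F1_good and F1_core (Lib/H55B/F1.lean) to a general integral model W with unit discriminant. F1_good: W⁄K is integral with valuation of the discriminant 1 (F1_val_unit), so the minimal model has valuation of the discriminant 1. core: (W⁄K).minimal R = C • (W⁄K), C = (u, r, s, t) over K; I = integral model, unit discriminant.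
u^12 is a unit times a unit (variableChange_Δ): u and u⁻¹ are in R (IsIntegrallyClosed.exists_algebraMap_eq_of_isIntegral_pow). r: with b₆' = b₆(I), b₈' = b₈(I): u^6 b₆' = b₆ + 2 r b₄ + r^2 b₂ + 4 r^3 and u^8 b₈' = b₈ + 3 r b₆ + 3 r^2 b₄ + r^3 b₂ + 3 r^4 (variableChange_b₆, variableChange_b₈), so
r u^6 b₆' - u^8 b₈' = r^4 - b₄ r^2 - 2 b₆ r - b₈: r is a root of the monic polynomial X^4 - b₄ X^2 - (2 b₆ + u^6 b₆') X + (u^8 b₈' - b₈) over R, so r is in R (IsIntegrallyClosed.isIntegral_iff). s: u^2 a₂' = a₂ - s a₁ + 3 r - s^2 (monic in s). t: u^6 a₆' = a₆ + r a₄ + r^2 a₂ + r^3 - t a₃ - t^2 - r t a₁ (monic in t). The end is as in F1_core. -/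
theorem core (R : Type) [CommRing R] [IsDomain R] [IsDiscreteValuationRing R] (K : Type) [Field K] [Algebra R K]
    [IsFractionRing R K] (W : WeierstrassCurve R) (hΔ : IsUnit W.Δ) :
    ((W⁄K).minimal R).HasGoodReduction R ∧
      ∃ C : VariableChange R, integralModel R ((W⁄K).minimal R) = C • W := by
  refine ⟨d2a_good R K W hΔ, ?_⟩
  obtain ⟨C, hC⟩ : ∃ C : VariableChange K, (W⁄K).minimal R = C • (W⁄K) := ⟨_, rfl⟩
  set I := integralModel R ((W⁄K).minimal R) with hI
  have inj : Function.Injective (algebraMap R K) := IsFractionRing.injective R K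
  -- the discriminant of the integral model is a unit
  have hΔI : IsUnit I.Δ := by
    have hg := (d2a_good R K W hΔ).goodReduction
    rw [← integralModel_Δ_eq R] at hg
    by_contra h
    have := (IsDedekindDomain.HeightOneSpectrum.valuation_lt_one_iff_mem
      (K := K) (IsDiscreteValuationRing.maximalIdeal R) I.Δ).2
      ((IsLocalRing.mem_maximalIdeal _).2 h)
    exact absurd hg this.ne
  have mΔ : (W⁄K).Δ = algebraMap R K W.Δ := map_Δ W (algebraMap R K)
  have mb₂ : (W⁄K).b₂ = algebraMap R K W.b₂ := map_b₂ W (algebraMap R K)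
  have mb₄ : (W⁄K).b₄ = algebraMap R K W.b₄ := map_b₄ W (algebraMap R K)
  have mb₆ : (W⁄K).b₆ = algebraMap R K W.b₆ := map_b₆ W (algebraMap R K)
  have mb₈ : (W⁄K).b₈ = algebraMap R K W.b₈ := map_b₈ W (algebraMap R K)
  have ma₁ : (W⁄K).a₁ = algebraMap R K W.a₁ := rfl
  have ma₂ : (W⁄K).a₂ = algebraMap R K W.a₂ := rfl
  have ma₃ : (W⁄K).a₃ = algebraMap R K W.a₃ := rfl
  have ma₄ : (W⁄K).a₄ = algebraMap R K W.a₄ := rfl
  have ma₆ : (W⁄K).a₆ = algebraMap R K W.a₆ := rfl
  have eΔ : algebraMap R K I.Δ = ((C.u⁻¹ : Kˣ) : K) ^ 12 * algebraMap R K W.Δ := by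
    rw [hI, integralModel_Δ_eq, hC, variableChange_Δ, mΔ]
  have eb₆ : algebraMap R K I.b₆ = ((C.u⁻¹ : Kˣ) : K) ^ 6 * (algebraMap R K W.b₆ +
      2 * C.r * algebraMap R K W.b₄ + C.r ^ 2 * algebraMap R K W.b₂ + 4 * C.r ^ 3) := by
    rw [hI, integralModel_b₆_eq, hC, variableChange_b₆, mb₆, mb₄, mb₂]
  have eb₈ : algebraMap R K I.b₈ = ((C.u⁻¹ : Kˣ) : K) ^ 8 * (algebraMap R K W.b₈ +
      3 * C.r * algebraMap R K W.b₆ + 3 * C.r ^ 2 * algebraMap R K W.b₄ + C.r ^ 3 * algebraMap R K W.b₂ +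
      3 * C.r ^ 4) := by
    rw [hI, integralModel_b₈_eq, hC, variableChange_b₈, mb₈, mb₆, mb₄, mb₂]
  have ea₂ : algebraMap R K I.a₂ = ((C.u⁻¹ : Kˣ) : K) ^ 2 * (algebraMap R K W.a₂ - C.s * algebraMap R K W.a₁ +
      3 * C.r - C.s ^ 2) := by
    rw [hI, integralModel_a₂_eq, hC, variableChange_a₂, ma₂, ma₁]
  have ea₆ : algebraMap R K I.a₆ = ((C.u⁻¹ : Kˣ) : K) ^ 6 * (algebraMap R K W.a₆ + C.r * algebraMap R K W.a₄ +
      C.r ^ 2 * algebraMap R K W.a₂ + C.r ^ 3 - C.t * algebraMap R K W.a₃ - C.t ^ 2 -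
      C.r * C.t * algebraMap R K W.a₁) := by
    rw [hI, integralModel_a₆_eq, hC, variableChange_a₆, ma₆, ma₄, ma₂, ma₃, ma₁]
  set u : K := (C.u : K) with hu
  have hu0 : u ≠ 0 := C.u.ne_zero
  have huinv : ((C.u⁻¹ : Kˣ) : K) = u⁻¹ := Units.val_inv_eq_inv_val _
  rw [huinv] at eΔ eb₆ eb₈ ea₂ ea₆
  obtain ⟨d, hd⟩ := hΔI
  obtain ⟨m, hm⟩ := hΔ
  -- u is integral
  have hdm : algebraMap R K d = u⁻¹ ^ 12 * algebraMap R K m := by
    rw [hd, eΔ, hm]
  have hu12 : u ^ 12 = algebraMap R K ((m : R) * ((d⁻¹ : Rˣ) : R)) := by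
    rw [map_mul]
    have h1 : algebraMap R K d * algebraMap R K ((d⁻¹ : Rˣ) : R) = 1 := by
      rw [← map_mul, Units.mul_inv, map_one]
    have h2 : u ^ 12 * algebraMap R K d = algebraMap R K m := by
      rw [hdm, inv_pow, mul_inv_cancel_left₀ (pow_ne_zero _ hu0)]
    calc u ^ 12 = u ^ 12 * (algebraMap R K d * algebraMap R K ((d⁻¹ : Rˣ) : R)) := by rw [h1, mul_one]
      _ = (u ^ 12 * algebraMap R K d) * algebraMap R K ((d⁻¹ : Rˣ) : R) := by ring
      _ = _ := by rw [h2]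
  have huinv12 : u⁻¹ ^ 12 = algebraMap R K ((d : R) * ((m⁻¹ : Rˣ) : R)) := by
    rw [map_mul]
    have h1 : algebraMap R K m * algebraMap R K ((m⁻¹ : Rˣ) : R) = 1 := by
      rw [← map_mul, Units.mul_inv, map_one]
    rw [hdm, mul_assoc, h1, mul_one]
  obtain ⟨u₀, hu₀⟩ : ∃ u₀ : R, algebraMap R K u₀ = u := by
    apply IsIntegrallyClosed.exists_algebraMap_eq_of_isIntegral_pow (n := 12) (by norm_num)
    rw [hu12]; exact isIntegral_algebraMap
  obtain ⟨v₀, hv₀⟩ : ∃ v₀ : R, algebraMap R K v₀ = u⁻¹ := by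
    apply IsIntegrallyClosed.exists_algebraMap_eq_of_isIntegral_pow (n := 12) (by norm_num)
    rw [huinv12]; exact isIntegral_algebraMap
  have huv : u₀ * v₀ = 1 := by
    apply inj
    rw [map_mul, hu₀, hv₀, map_one, mul_inv_cancel₀ hu0]
  -- r
  obtain ⟨r₀, hr₀⟩ : ∃ r₀ : R, algebraMap R K r₀ = C.r := by
    rw [← IsIntegrallyClosed.isIntegral_iff]
    refine ⟨Polynomial.X ^ 4 - Polynomial.C W.b₄ * Polynomial.X ^ 2 -
      Polynomial.C (2 * W.b₆ + u₀ ^ 6 * I.b₆) * Polynomial.X + Polynomial.C (u₀ ^ 8 * I.b₈ - W.b₈), ?_, ?_⟩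
    · monicity!
    · simp only [Polynomial.eval₂_sub, Polynomial.eval₂_add, Polynomial.eval₂_pow, Polynomial.eval₂_mul,
        Polynomial.eval₂_X, Polynomial.eval₂_C]
      rw [map_add, map_mul, map_mul, map_sub, map_mul, map_pow, map_pow, hu₀, eb₆, eb₈, map_ofNat]
      have h6 : u ^ 6 * (u⁻¹ ^ 6 * (algebraMap R K W.b₆ +
          2 * C.r * algebraMap R K W.b₄ + C.r ^ 2 * algebraMap R K W.b₂ + 4 * C.r ^ 3)) =
          algebraMap R K W.b₆ + 2 * C.r * algebraMap R K W.b₄ + C.r ^ 2 * algebraMap R K W.b₂ + 4 * C.r ^ 3 := by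
        rw [inv_pow, mul_inv_cancel_left₀ (pow_ne_zero _ hu0)]
      have h8 : u ^ 8 * (u⁻¹ ^ 8 * (algebraMap R K W.b₈ +
          3 * C.r * algebraMap R K W.b₆ + 3 * C.r ^ 2 * algebraMap R K W.b₄ + C.r ^ 3 * algebraMap R K W.b₂ +
          3 * C.r ^ 4)) = algebraMap R K W.b₈ +
          3 * C.r * algebraMap R K W.b₆ + 3 * C.r ^ 2 * algebraMap R K W.b₄ + C.r ^ 3 * algebraMap R K W.b₂ +
          3 * C.r ^ 4 := by
        rw [inv_pow, mul_inv_cancel_left₀ (pow_ne_zero _ hu0)]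
      rw [h6, h8]
      ring
  obtain ⟨s₀, hs₀⟩ : ∃ s₀ : R, algebraMap R K s₀ = C.s := by
    rw [← IsIntegrallyClosed.isIntegral_iff]
    refine ⟨Polynomial.X ^ 2 + Polynomial.C W.a₁ * Polynomial.X -
      Polynomial.C (W.a₂ + 3 * r₀ - u₀ ^ 2 * I.a₂), ?_, ?_⟩
    · monicity!
    · simp only [Polynomial.eval₂_sub, Polynomial.eval₂_add, Polynomial.eval₂_pow, Polynomial.eval₂_mul,
        Polynomial.eval₂_X, Polynomial.eval₂_C]
      rw [map_sub, map_add, map_mul, map_mul, map_pow, hu₀, hr₀, ea₂, map_ofNat]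
      have h2 : u ^ 2 * (u⁻¹ ^ 2 * (algebraMap R K W.a₂ - C.s * algebraMap R K W.a₁ + 3 * C.r - C.s ^ 2)) =
          algebraMap R K W.a₂ - C.s * algebraMap R K W.a₁ + 3 * C.r - C.s ^ 2 := by
        rw [inv_pow, mul_inv_cancel_left₀ (pow_ne_zero _ hu0)]
      rw [h2]
      ring
  obtain ⟨t₀, ht₀⟩ : ∃ t₀ : R, algebraMap R K t₀ = C.t := by
    rw [← IsIntegrallyClosed.isIntegral_iff]
    refine ⟨Polynomial.X ^ 2 + Polynomial.C (W.a₃ + r₀ * W.a₁) * Polynomial.X -
      Polynomial.C (W.a₆ + r₀ * W.a₄ + r₀ ^ 2 * W.a₂ + r₀ ^ 3 - u₀ ^ 6 * I.a₆), ?_, ?_⟩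
    · monicity!
    · simp only [Polynomial.eval₂_sub, Polynomial.eval₂_add, Polynomial.eval₂_pow, Polynomial.eval₂_mul,
        Polynomial.eval₂_X, Polynomial.eval₂_C, map_sub, map_add, map_mul, map_pow, hu₀, hr₀, ea₆]
      have h6 : u ^ 6 * (u⁻¹ ^ 6 * (algebraMap R K W.a₆ + C.r * algebraMap R K W.a₄ +
          C.r ^ 2 * algebraMap R K W.a₂ + C.r ^ 3 - C.t * algebraMap R K W.a₃ - C.t ^ 2 -
          C.r * C.t * algebraMap R K W.a₁)) = algebraMap R K W.a₆ + C.r * algebraMap R K W.a₄ +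
          C.r ^ 2 * algebraMap R K W.a₂ + C.r ^ 3 - C.t * algebraMap R K W.a₃ - C.t ^ 2 -
          C.r * C.t * algebraMap R K W.a₁ := by
        rw [inv_pow, mul_inv_cancel_left₀ (pow_ne_zero _ hu0)]
      rw [h6]
      ring
  refine ⟨⟨⟨u₀, v₀, huv, by rw [mul_comm]; exact huv⟩, r₀, s₀, t₀⟩, ?_⟩
  have hmapinj : Function.Injective
      (fun E : WeierstrassCurve R => E.map (algebraMap R K)) := map_injective inj
  apply hmapinj
  show I.map (algebraMap R K) = (_ : WeierstrassCurve R).map (algebraMap R K)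
  rw [← map_variableChange]
  have e1 : I.map (algebraMap R K) = (W⁄K).minimal R := baseChange_integralModel_eq R _
  rw [e1, hC]
  congr 1
  ext
  · show u = algebraMap R K u₀
    rw [hu₀]
  · exact hr₀.symm
  · exact hs₀.symm
  · exact ht₀.symm

end H55K.DD
end

-- from Lib.H55K.D2C
section

/-! # H55K, part D: the local polynomial of a good model -/

open WeierstrassCurve Polynomial

namespace H55K.DD

/-- The local polynomial of a model with unit discriminant. -/
theorem good_loc (R : Type) [CommRing R] [IsDomain R] [IsDiscreteValuationRing R] (K : Type) [Field K] [Algebra R K]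
    [IsFractionRing R K] (W : WeierstrassCurve R) (hΔ : IsUnit W.Δ) :
    (W⁄K).localPolynomial R = 1 - C ((Nat.card (IsLocalRing.ResidueField R) : ℤ) + 1 -
      (Nat.card (W.map (IsLocalRing.residue R)).toAffine.Point : ℤ)) * X +
        C (Nat.card (IsLocalRing.ResidueField R) : ℤ) * X ^ 2 := by
  obtain ⟨hg, D, hD⟩ := core R K W hΔ
  have hred : ((W⁄K).minimal R).reduction R = (D.map (IsLocalRing.residue R)) • (W.map (IsLocalRing.residue R)) := by
    unfold WeierstrassCurve.reduction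
    rw [hD, ← WeierstrassCurve.map_variableChange]
  have h0 : (W.map (IsLocalRing.residue R)).Δ ≠ 0 := by
    rw [WeierstrassCurve.map_Δ]
    exact (hΔ.map (IsLocalRing.residue R)).ne_zero
  unfold WeierstrassCurve.localPolynomial
  rw [if_pos hg, hred, card_vc _ _ _ h0]

end H55K.DD
end

-- from Lib.H55K.D2_T
section

/-!
# H55K, part D: the L-function of a curve with complex multiplication over a number field

Definitions. R is a discrete valuation ring with fraction field K.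
-/

open NumberField IsDedekindDomain WeierstrassCurve

namespace H55K


namespace DD

/-- The local Euler factor of W at w, with complex coefficients. -/
noncomputable def LF' {K : Type} [Field K] [NumberField K] (W : WeierstrassCurve K) (w : HeightOneSpectrum (𝓞 K)) :
    ArithmeticFunction ℂ :=
  (((W.baseChange (w.adicCompletion K)).localEulerFactor (w.adicCompletionIntegers K) : ArithmeticFunction ℤ) :
    ArithmeticFunction ℂ)

/-- The Euler factor of degree one with parameter a. -/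
noncomputable def ef (q : ℕ) (a : ℂ) : ArithmeticFunction ℂ :=
  ArithmeticFunction.ofPowerSeries q ((1 - PowerSeries.C a * PowerSeries.X)⁻¹ : PowerSeries ℂ)

end DD

end H55K
end

-- from Lib.H55K.D4
section

/-! # H55K, part D: good reduction over the completion -/

open NumberField IsDedekindDomain WeierstrassCurve

namespace H55K.DD

theorem d4_approx (K : Type) [Field K] [NumberField K] (w : HeightOneSpectrum (𝓞 K))
    (y ε : w.adicCompletion K) (hε : ε ≠ 0) :
    ∃ k : K, Valued.v (y - (k : w.adicCompletion K)) ≤ Valued.v ε := by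
  have hopen : IsOpen {z : w.adicCompletion K | (y - z) * ε⁻¹ ∈ w.adicCompletionIntegers K} := by
    have h1 : IsOpen ((w.adicCompletionIntegers K : Set (w.adicCompletion K))) :=
      Valued.isOpen_valuationSubring (w.adicCompletion K)
    exact h1.preimage ((continuous_const.sub continuous_id).mul continuous_const)
  obtain ⟨k, hk⟩ := (HeightOneSpectrum.denseRange_algebraMap K w).exists_mem_open hopen
    ⟨y, by
      show (y - y) * ε⁻¹ ∈ w.adicCompletionIntegers K
      rw [sub_self, zero_mul]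
      exact zero_mem _⟩
  refine ⟨k, ?_⟩
  have hk' : Valued.v ((y - (k : w.adicCompletion K)) * ε⁻¹) ≤ 1 := hk
  have h2 : y - (k : w.adicCompletion K) = ((y - (k : w.adicCompletion K)) * ε⁻¹) * ε := by
    rw [mul_assoc, inv_mul_cancel₀ hε, mul_one]
  rw [h2, map_mul]
  calc Valued.v ((y - (k : w.adicCompletion K)) * ε⁻¹) * Valued.v ε
      ≤ 1 * Valued.v ε := mul_le_mul_left hk' _
    _ = Valued.v ε := one_mul _

theorem d4_quot (K : Type) [Field K] [NumberField K] (w : HeightOneSpectrum (𝓞 K))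
    (y ε k : w.adicCompletion K) (hε : ε ≠ 0) (h : Valued.v (y - k) ≤ Valued.v ε) :
    Valued.v ((k - y) * ε⁻¹) ≤ 1 := by
  have h0 : Valued.v ε ≠ 0 := (Valuation.ne_zero_iff _).2 hε
  rw [map_mul, map_inv₀, Valuation.map_sub_swap]
  calc Valued.v (y - k) * (Valued.v ε)⁻¹ ≤ Valued.v ε * (Valued.v ε)⁻¹ := mul_le_mul_left h _
    _ = 1 := mul_inv_cancel₀ h0

theorem d4_val (K : Type) [Field K] [NumberField K] (w : HeightOneSpectrum (𝓞 K)) (x : K)
    (r : w.adicCompletionIntegers K)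
    (h : algebraMap K (w.adicCompletion K) x = algebraMap (w.adicCompletionIntegers K) (w.adicCompletion K) r) :
    w.valuation K x = Valued.v (r : w.adicCompletion K) := by
  have h1 : Valued.v (x : w.adicCompletion K) = w.valuation K x :=
    HeightOneSpectrum.valuedAdicCompletion_eq_valuation' w x
  rw [← h1]
  exact congrArg Valued.v h

/-- Chunk D4 (M), approximation. Suppose C = (u, r, s, t) over K_w = w.adicCompletion K and C • (W⁄K_w) is integral with discriminant of valuation 1. K is dense in K_w (H55B.F3_approx, HeightOneSpectrum.denseRange_algebraMap; F3_approx scaled: for y and ε ≠ 0 in K_w there is k in K with v(y - k) ≤ v(ε)). Choose u₀ in K with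
v(u₀ - u) < v(u), so u₀ ≠ 0 and v(u₀/u) = 1; s₀ with v(s₀ - s) ≤ v(u); r₀ with v(r₀ - r) ≤ v(u)^2 and v((r₀ - r) s) ≤ v(u)^3; t₀ with v(t₀ - t) ≤ v(u)^3. C₀ = (u₀, r₀, s₀, t₀). D = C₀ * C⁻¹ (product of variable changes) is (u₀/u, (r₀ - r)/u^2, (s₀ - s)/u, (t₀ - t - (r₀ - r) s)/u^3): all v-integral, v(D.u) = 1
(D * C = C₀: VariableChange mul formulas), so C₀ • (W⁄K_w) = D • (C • (W⁄K_w)) has integral coefficients (variableChange_a₁ .. a₆: polynomials in u⁻¹, r, s, t and the coefficients) and discriminant of valuation v(D.u)^-12 = 1. C₀ • (W⁄K_w) = (C₀ • W)⁄K_w (map_variableChange); the valuation of K_w restricted to K is w.valuation K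
(HeightOneSpectrum.valuedAdicCompletion_eq_valuation'): GoodAt W w. The valuation of the maximal ideal of the discrete valuation ring adicCompletionIntegers: value 1 iff unit iff Valued.v = 1 (see H55B valuation_compl, F3_mem_maximalIdeal, Lib/H55B/F3.lean, F4.lean); IsIntegral: coefficients in w.adicCompletionIntegers K, i.e. Valued.v ≤ 1. -/
theorem bad_compl {K : Type} [Field K] [NumberField K] (W : WeierstrassCurve K) (w : HeightOneSpectrum (𝓞 K))
    (h : ¬ GoodAt W w) (C : VariableChange (w.adicCompletion K))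
    (hC : IsIntegral (w.adicCompletionIntegers K) (C • (W⁄(w.adicCompletion K)))) :
    (IsDiscreteValuationRing.maximalIdeal (w.adicCompletionIntegers K)).valuation (w.adicCompletion K)
      (C • (W⁄(w.adicCompletion K))).Δ ≠ 1 := by
  intro hΔ1
  apply h
  obtain ⟨Wi, hWi⟩ := hC.integral
  have hΔu : Valued.v ((Wi.Δ : w.adicCompletionIntegers K) : w.adicCompletion K) = 1 := by
    rw [hWi] at hΔ1
    have h1 : (Wi⁄(w.adicCompletion K)).Δ =
      algebraMap (w.adicCompletionIntegers K) (w.adicCompletion K) Wi.Δ := WeierstrassCurve.map_Δ _ _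
    rw [h1, HeightOneSpectrum.valuation_of_algebraMap, HeightOneSpectrum.intValuation_eq_one_iff] at hΔ1
    have h2 : Wi.Δ ∉ IsLocalRing.maximalIdeal (w.adicCompletionIntegers K) := hΔ1
    rw [H55B.F3_mem_maximalIdeal] at h2
    exact le_antisymm (Wi.Δ).2 (not_lt.1 h2)
  obtain ⟨π, hπ⟩ := w.valuation_exists_uniformizer K
  have hπv : Valued.v (π : w.adicCompletion K) = w.valuation K π :=
    HeightOneSpectrum.valuedAdicCompletion_eq_valuation' w π
  have hπ1 : w.valuation K π < 1 := by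
    rw [hπ, ← WithZero.exp_zero]
    exact WithZero.exp_lt_exp.mpr (by norm_num)
  have hπ0 : w.valuation K π ≠ 0 := by
    rw [hπ]
    exact WithZero.exp_ne_zero
  have hπ' : (π : w.adicCompletion K) ≠ 0 := by
    intro h
    apply hπ0
    rw [← hπv, h, map_zero]
  have hu0 : (C.u : w.adicCompletion K) ≠ 0 := C.u.ne_zero
  have hvu : Valued.v (C.u : w.adicCompletion K) ≠ 0 := (Valuation.ne_zero_iff _).2 hu0
  obtain ⟨u₀, hu₀⟩ := d4_approx K w (C.u : w.adicCompletion K) ((C.u : w.adicCompletion K) * π)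
    (mul_ne_zero hu0 hπ')
  have hlt : Valued.v ((C.u : w.adicCompletion K) - (u₀ : w.adicCompletion K)) <
      Valued.v (C.u : w.adicCompletion K) := by
    refine lt_of_le_of_lt hu₀ ?_
    rw [map_mul, hπv]
    calc Valued.v (C.u : w.adicCompletion K) * w.valuation K π
        < Valued.v (C.u : w.adicCompletion K) * 1 :=
          mul_lt_mul_of_pos_left hπ1 (zero_lt_iff.2 hvu)
      _ = _ := mul_one _
  have hvu₀ : Valued.v (u₀ : w.adicCompletion K) = Valued.v (C.u : w.adicCompletion K) := by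
    have h1 : (u₀ : w.adicCompletion K) = (C.u : w.adicCompletion K) - (C.u - u₀) := by ring
    rw [h1]
    exact Valuation.map_sub_eq_of_lt_left _ hlt
  have hu₀0 : u₀ ≠ 0 := by
    rintro rfl
    apply hvu
    rw [← hvu₀, HeightOneSpectrum.adicCompletion.coe_zero, map_zero]
  obtain ⟨s₀, hs₀⟩ := d4_approx K w C.s (C.u : w.adicCompletion K) hu0
  obtain ⟨r₀, hr₀⟩ := d4_approx K w C.r ((C.u : w.adicCompletion K) ^ 2) (pow_ne_zero 2 hu0)
  obtain ⟨t₀, ht₀⟩ := d4_approx K w (C.t + ((r₀ : w.adicCompletion K) - C.r) * C.s)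
    ((C.u : w.adicCompletion K) ^ 3) (pow_ne_zero 3 hu0)
  have hxu : Valued.v ((u₀ : w.adicCompletion K) * (C.u : w.adicCompletion K)⁻¹) = 1 := by
    rw [map_mul, map_inv₀, hvu₀, mul_inv_cancel₀ hvu]
  have hunit : IsUnit (⟨(u₀ : w.adicCompletion K) * (C.u : w.adicCompletion K)⁻¹, hxu.le⟩ :
      w.adicCompletionIntegers K) := by
    rw [HeightOneSpectrum.adicCompletionIntegers.isUnit_iff_valued_eq_one]
    exact hxu
  set D : VariableChange (w.adicCompletionIntegers K) :=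
    ⟨hunit.unit, ⟨_, d4_quot K w _ _ _ (pow_ne_zero 2 hu0) hr₀⟩, ⟨_, d4_quot K w _ _ _ hu0 hs₀⟩,
      ⟨_, d4_quot K w _ _ _ (pow_ne_zero 3 hu0) ht₀⟩⟩ with hD
  set C₀ : VariableChange K := ⟨Units.mk0 u₀ hu₀0, r₀, s₀, t₀⟩ with hC₀
  have hDu : algebraMap (w.adicCompletionIntegers K) (w.adicCompletion K) (D.u : w.adicCompletionIntegers K) =
    (u₀ : w.adicCompletion K) * (C.u : w.adicCompletion K)⁻¹ := rfl
  have hDr : algebraMap (w.adicCompletionIntegers K) (w.adicCompletion K) D.r =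
    ((r₀ : w.adicCompletion K) - C.r) * ((C.u : w.adicCompletion K) ^ 2)⁻¹ := rfl
  have hDs : algebraMap (w.adicCompletionIntegers K) (w.adicCompletion K) D.s =
    ((s₀ : w.adicCompletion K) - C.s) * (C.u : w.adicCompletion K)⁻¹ := rfl
  have hDt : algebraMap (w.adicCompletionIntegers K) (w.adicCompletion K) D.t =
    ((t₀ : w.adicCompletion K) - (C.t + ((r₀ : w.adicCompletion K) - C.r) * C.s)) *
      ((C.u : w.adicCompletion K) ^ 3)⁻¹ := rfl
  have hprod : C₀.map (algebraMap K (w.adicCompletion K)) =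
      D.map (algebraMap (w.adicCompletionIntegers K) (w.adicCompletion K)) * C := by
    rw [VariableChange.mul_def]
    refine VariableChange.ext (Units.ext ?_) ?_ ?_ ?_
    · show (u₀ : w.adicCompletion K) =
        algebraMap (w.adicCompletionIntegers K) (w.adicCompletion K) (D.u : w.adicCompletionIntegers K) * C.u
      rw [hDu, mul_assoc, inv_mul_cancel₀ hu0, mul_one]
    · show (r₀ : w.adicCompletion K) =
        algebraMap (w.adicCompletionIntegers K) (w.adicCompletion K) D.r * C.u ^ 2 + C.r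
      rw [hDr, mul_assoc, inv_mul_cancel₀ (pow_ne_zero 2 hu0), mul_one, sub_add_cancel]
    · show (s₀ : w.adicCompletion K) =
        C.u * algebraMap (w.adicCompletionIntegers K) (w.adicCompletion K) D.s + C.s
      rw [hDs, mul_comm, mul_assoc, inv_mul_cancel₀ hu0, mul_one, sub_add_cancel]
    · show (t₀ : w.adicCompletion K) =
        algebraMap (w.adicCompletionIntegers K) (w.adicCompletion K) D.t * C.u ^ 3 +
          algebraMap (w.adicCompletionIntegers K) (w.adicCompletion K) D.r * C.s * C.u ^ 2 + C.t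
      rw [hDt, hDr]
      have h2 := inv_mul_cancel₀ (pow_ne_zero 2 hu0)
      have h3 := inv_mul_cancel₀ (pow_ne_zero 3 hu0)
      linear_combination (-((t₀ : w.adicCompletion K) - (C.t + ((r₀ : w.adicCompletion K) - C.r) * C.s))) * h3 -
        ((r₀ : w.adicCompletion K) - C.r) * C.s * h2
  have hmodel : (C₀ • W).map (algebraMap K (w.adicCompletion K)) =
      (D • Wi).map (algebraMap (w.adicCompletionIntegers K) (w.adicCompletion K)) := by
    rw [← map_variableChange, ← map_variableChange, hprod, mul_smul]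
    congr 1
  have ha1 := congrArg WeierstrassCurve.a₁ hmodel
  have ha2 := congrArg WeierstrassCurve.a₂ hmodel
  have ha3 := congrArg WeierstrassCurve.a₃ hmodel
  have ha4 := congrArg WeierstrassCurve.a₄ hmodel
  have ha6 := congrArg WeierstrassCurve.a₆ hmodel
  have hdd := congrArg WeierstrassCurve.Δ hmodel
  rw [map_a₁, map_a₁] at ha1
  rw [map_a₂, map_a₂] at ha2
  rw [map_a₃, map_a₃] at ha3
  rw [map_a₄, map_a₄] at ha4
  rw [map_a₆, map_a₆] at ha6
  rw [map_Δ, map_Δ] at hdd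
  refine ⟨C₀, ?_, ?_, ?_, ?_, ?_, ?_⟩
  · rw [d4_val K w _ _ ha1]; exact (D • Wi).a₁.2
  · rw [d4_val K w _ _ ha2]; exact (D • Wi).a₂.2
  · rw [d4_val K w _ _ ha3]; exact (D • Wi).a₃.2
  · rw [d4_val K w _ _ ha4]; exact (D • Wi).a₄.2
  · rw [d4_val K w _ _ ha6]; exact (D • Wi).a₆.2
  · rw [d4_val K w _ _ hdd, variableChange_Δ]
    have h1 : IsUnit ((↑D.u⁻¹ : w.adicCompletionIntegers K) ^ 12 * Wi.Δ) := by
      refine IsUnit.mul (IsUnit.pow 12 (Units.isUnit _)) ?_
      rw [HeightOneSpectrum.adicCompletionIntegers.isUnit_iff_valued_eq_one]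
      exact hΔu
    rw [HeightOneSpectrum.adicCompletionIntegers.isUnit_iff_valued_eq_one] at h1
    exact h1

end H55K.DD
end
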