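import Mathlib
import Pool.Agent.Lib.H1M.PP2.D_H55P_GD
import Pool.Agent.Lib.H1M.PP2.D_H55P_SD
import Pool.Agent.Lib.H1M.PP2.M054

open NumberField IsDedekindDomain WeierstrassCurve

namespace H55P

section gen

variable {F : Type} [Field F] [NumberField F] {Ω : Type} [Field Ω] [Algebra F Ω]

/-- The prime v of F is ramified in L. -/
def RamF (L : IntermediateField F Ω) (v : Ideal (𝓞 F)) : Prop :=
  ∃ W : Ideal (𝓞 L), W.IsPrime ∧ v.map (algebraMap (𝓞 F) (𝓞 L)) ≤ W ^ 2

end gen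

end H55P
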