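import Mathlib
import Pool.Agent.Lib.H1M.PP2.D_H55P_SD

/-! Merged copies (to shorten the build) of Lib.CFT.D0, Lib.H55K.D3, Lib.H55P.SA2, Lib.H55R.X11, Lib.H55R.X3, Lib.H55P.SA1, Lib.H55P.S12. -/

-- from Lib.CFT.D0
section

/-! # CFT (class field theory): divisors, ray condition, Frobenius elements, Artin symbol: DEFINITIONS

Divisors of a number field K: Dv K = finitely supported functions from the set Pr K of prime ideals to the integers (the group of fractional
ideals, written additively). od v x: order of x at v. dv x: the divisor of x. below K w: the prime of K below the prime w of L. Nd K L: the norm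
of divisors. S: a finite set of primes, N a natural number. Ray S N x: x in K^*, the order of x - 1 at the primes of S is > N, and x is positive
at all real embeddings. Pray S N: the divisors which outside S agree with dv x, Ray S N x; so the quotient of Dv K by Pray S N is the
(narrow) ray class group modulo the product of the v^(N+1), v in S. Unr K L v: v is unramified in L. frob K L v: the Frobenius element, for L/K abelian and v unramified (1 otherwise).
art S chi D: the Artin symbol: chi (the product of the Frobenius elements), primes in S are ignored. -/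

open NumberField IsDedekindDomain

namespace CFT

/-- The prime ideals. -/
abbrev Pr (K : Type) [Field K] := HeightOneSpectrum (𝓞 K)

/-- The group of divisors. -/
abbrev Dv (K : Type) [Field K] := HeightOneSpectrum (𝓞 K) →₀ ℤ

section one

variable {K : Type} [Field K] [NumberField K]

/-- The order of x at v (0 for x = 0). -/
noncomputable def od (v : Pr K) (x : K) : ℤ := -WithZero.log (v.valuation K x)

theorem od_zero (v : Pr K) : od v (0 : K) = 0 := by
  unfold od
  rw [map_zero, WithZero.log_zero, neg_zero]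

theorem od_one (v : Pr K) : od v (1 : K) = 0 := by
  unfold od
  rw [map_one, WithZero.log_one, neg_zero]

theorem od_mul (v : Pr K) {x y : K} (hx : x ≠ 0) (hy : y ≠ 0) : od v (x * y) = od v x + od v y := by
  unfold od
  rw [map_mul, WithZero.log_mul ((Valuation.ne_zero_iff _).2 hx) ((Valuation.ne_zero_iff _).2 hy), neg_add]

theorem od_inv (v : Pr K) (x : K) : od v x⁻¹ = -od v x := by
  unfold od
  rw [map_inv₀, WithZero.log_inv]

/-- The relation with the valuation. -/
theorem val_eq (v : Pr K) {x : K} (hx : x ≠ 0) : v.valuation K x = WithZero.exp (-od v x) := by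
  unfold od
  rw [neg_neg, WithZero.exp_log ((Valuation.ne_zero_iff _).2 hx)]

/-- Elements of the ring of integers have finitely many zeros. -/
theorem fin_int {r : 𝓞 K} (hr : r ≠ 0) : {v : Pr K | v.valuation K (r : K) ≠ 1}.Finite := by
  have h := Ideal.finite_factors (I := Ideal.span {r}) (fun h => hr (Ideal.span_singleton_eq_bot.1 h))
  refine h.subset fun v hv => ?_
  show v.asIdeal ∣ Ideal.span {r}
  have h1 : v.valuation K (algebraMap (𝓞 K) K r) < 1 := lt_of_le_of_ne (v.valuation_le_one r) hv
  rwa [HeightOneSpectrum.valuation_lt_one_iff_dvd] at h1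

theorem od_fin (x : K) : {v : Pr K | od v x ≠ 0}.Finite := by
  by_cases hx : x = 0
  · subst hx
    refine Set.finite_empty.subset fun v hv => ?_
    exact hv (od_zero v)
  obtain ⟨a, b, hb, rfl⟩ := IsFractionRing.div_surjective (A := 𝓞 K) x
  have hb0 : b ≠ 0 := nonZeroDivisors.ne_zero hb
  have ha0 : a ≠ 0 := by
    rintro rfl
    rw [map_zero, zero_div] at hx
    exact hx rfl
  refine ((fin_int ha0).union (fin_int hb0)).subset fun v hv => ?_
  by_contra hcon
  rw [Set.mem_union, not_or, Set.mem_ofPred_eq, Set.mem_ofPred_eq, not_not, not_not] at hcon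
  apply hv
  unfold od
  rw [map_div₀]
  erw [hcon.1, hcon.2]
  rw [div_one, WithZero.log_one, neg_zero]

/-- The divisor of x (0 for x = 0). -/
noncomputable def dv (x : K) : Dv K := Finsupp.ofSupportFinite (fun v => od v x) (od_fin x)

@[simp] theorem dv_apply (x : K) (v : Pr K) : dv x v = od v x := rfl

theorem dv_one : dv (1 : K) = 0 := by
  ext v
  rw [dv_apply, od_one]
  rfl

theorem dv_mul {x y : K} (hx : x ≠ 0) (hy : y ≠ 0) : dv (x * y) = dv x + dv y := by
  ext v
  rw [dv_apply, od_mul v hx hy]
  rfl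

theorem dv_inv (x : K) : dv x⁻¹ = -dv x := by
  ext v
  rw [dv_apply, od_inv]
  rfl

/-- The absolute norm of a prime. -/
noncomputable def Nm (v : Pr K) : ℕ := Ideal.absNorm v.asIdeal

/-- The (narrow) ray modulo the product of the v^(N+1), v in S. -/
structure Ray (S : Finset (Pr K)) (N : ℕ) (x : K) : Prop where
  ne : x ≠ 0
  cong : ∀ v ∈ S, v.valuation K (x - 1) < WithZero.exp (-(N : ℤ))
  pos : ∀ φ : K →+* ℝ, 0 < φ x

theorem ray_one (S : Finset (Pr K)) (N : ℕ) : Ray S N (1 : K) := by
  refine ⟨one_ne_zero, fun v _ => ?_, fun φ => ?_⟩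
  · rw [sub_self, map_zero]
    exact WithZero.zero_lt_coe _
  · rw [map_one]
    exact one_pos

theorem exp_le_one (N : ℕ) : WithZero.exp (-(N : ℤ)) ≤ 1 := by
  rw [← WithZero.exp_zero, WithZero.exp_le_exp]
  omega

theorem Ray.unit {S : Finset (Pr K)} {N : ℕ} {x : K} (h : Ray S N x) {v : Pr K} (hv : v ∈ S) : v.valuation K x = 1 := by
  have h1 : v.valuation K (x - 1) < 1 := (h.cong v hv).trans_le (exp_le_one N)
  have h2 : x = 1 + (x - 1) := by ring
  rw [h2]
  exact Valuation.map_one_add_of_lt _ h1

theorem Ray.mul {S : Finset (Pr K)} {N : ℕ} {x y : K} (hx : Ray S N x) (hy : Ray S N y) : Ray S N (x * y) := by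
  refine ⟨mul_ne_zero hx.ne hy.ne, fun v hv => ?_, fun φ => ?_⟩
  · have e : x * y - 1 = (x - 1) * y + (y - 1) := by ring
    rw [e]
    refine Valuation.map_add_lt _ ?_ (hy.cong v hv)
    rw [map_mul, hy.unit hv, mul_one]
    exact hx.cong v hv
  · rw [map_mul]
    exact mul_pos (hx.pos φ) (hy.pos φ)

theorem Ray.inv {S : Finset (Pr K)} {N : ℕ} {x : K} (hx : Ray S N x) : Ray S N x⁻¹ := by
  refine ⟨inv_ne_zero hx.ne, fun v hv => ?_, fun φ => ?_⟩
  · have e : x⁻¹ - 1 = -((x - 1) * x⁻¹) := by
      field_simp [hx.ne]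
      ring
    rw [e, Valuation.map_neg, map_mul, map_inv₀, hx.unit hv, inv_one, mul_one]
    exact hx.cong v hv
  · rw [map_inv₀]
    exact inv_pos.2 (hx.pos φ)

/-- The divisors which outside S are the divisor of an element of the ray. -/
def Pray (S : Finset (Pr K)) (N : ℕ) : AddSubgroup (Dv K) where
  carrier := {D | ∃ x : K, Ray S N x ∧ ∀ v ∉ S, D v = od v x}
  zero_mem' := ⟨1, ray_one S N, fun v _ => (od_one v).symm⟩
  add_mem' := by
    rintro D E ⟨x, hx, h1⟩ ⟨y, hy, h2⟩
    refine ⟨x * y, hx.mul hy, fun v hv => ?_⟩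
    rw [Finsupp.add_apply, h1 v hv, h2 v hv, od_mul v hx.ne hy.ne]
  neg_mem' := by
    rintro D ⟨x, hx, h1⟩
    refine ⟨x⁻¹, hx.inv, fun v hv => ?_⟩
    rw [Finsupp.neg_apply, h1 v hv, od_inv]

end one

section two

variable (K : Type) [Field K] [NumberField K] (L : Type) [Field L] [NumberField L] [Algebra K L]

variable {L} in
/-- The prime of K below a prime of L. -/
noncomputable def below (w : Pr L) : Pr K :=
  ⟨w.asIdeal.under (𝓞 K), inferInstance, mt Ideal.eq_bot_of_comap_eq_bot w.ne_bot⟩

/-- The norm of divisors. -/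
noncomputable def Nd : Dv L →+ Dv K :=
  Finsupp.liftAddHom fun w => ((Finsupp.singleAddHom (below K w)).comp
    (AddMonoidHom.mulLeft ((w.asIdeal.inertiaDeg (𝓞 K) : ℕ) : ℤ)))

/-- v is unramified in L. -/
def Unr (v : Pr K) : Prop := ∀ w : Pr L, below K w = v → w.asIdeal.ramificationIdx (𝓞 K) = 1

/-- s is a Frobenius element at all primes above v. -/
def IsFr (v : Pr K) (s : L ≃ₐ[K] L) : Prop := ∀ w : Pr L, below K w = v → ∀ x : 𝓞 L, s • x - x ^ Nm v ∈ w.asIdeal

open Classical in
/-- The Frobenius element. -/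
noncomputable def frob (v : Pr K) : L ≃ₐ[K] L := if h : Unr K L v ∧ ∃ s, IsFr K L v s then h.2.choose else 1

variable {K L}

open Classical in
/-- The Artin symbol, composed with a homomorphism chi from the Galois group to an abelian group. -/
noncomputable def art (S : Finset (Pr K)) {A : Type} [CommGroup A] (χ : (L ≃ₐ[K] L) →* A) : Dv K →+ Additive A :=
  Finsupp.liftAddHom fun v => zmultiplesHom (Additive A) (if v ∈ S then 0 else Additive.ofMul (χ (frob K L v)))

end two

end CFT
end

-- from Lib.H55K.D3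
section

/-! # H55K, part D: the local polynomial at a prime of additive reduction -/

open WeierstrassCurve

namespace H55K.DD

/-- Chunk D3 (S/M), PORT of H55B.bad_local (Lib/H55B/F2.lean). W.minimal R = C • W is integral. Not good: hbad. Not multiplicative: c₄' = u^-4 c₄ and Δ' = u^-12 Δ (variableChange_c₄, variableChange_Δ), so c₄'^3 = j₀ Δ'; if the valuation of c₄' is 1 and that of Δ' is < 1 then 1 = v(j₀) v(Δ') < 1 (v(j₀) ≤ 1: HeightOneSpectrum.valuation_le_one). -/
theorem bad_loc (R : Type) [CommRing R] [IsDomain R] [IsDiscreteValuationRing R] (K : Type) [Field K] [Algebra R K]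
    [IsFractionRing R K] (W : WeierstrassCurve K) (j₀ : R) (hj : W.c₄ ^ 3 = algebraMap R K j₀ * W.Δ)
    (hbad : ∀ C : VariableChange K, IsIntegral R (C • W) →
      (IsDiscreteValuationRing.maximalIdeal R).valuation K (C • W).Δ ≠ 1) : W.localPolynomial R = 1 := by
  obtain ⟨C, hC⟩ : ∃ C : WeierstrassCurve.VariableChange K, W.minimal R = C • W :=
    ⟨_, rfl⟩
  have hint : IsIntegral R (C • W) := by
    rw [← hC]
    infer_instance
  have hgood : ¬ (W.minimal R).HasGoodReduction R := by
    intro hg
    have h1 := hg.goodReduction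
    rw [hC] at h1
    exact hbad C hint h1
  have hmult : ¬ (W.minimal R).HasMultiplicativeReduction R := by
    intro hm
    have h1 := hm.multiplicativeReduction
    have h2 := hm.badReduction
    rw [hC] at h1 h2
    have h3 : (C • W).c₄ ^ 3 = algebraMap R K j₀ * (C • W).Δ := by
      rw [WeierstrassCurve.variableChange_c₄, WeierstrassCurve.variableChange_Δ, mul_pow, hj]
      ring
    have h4 := congrArg ((IsDiscreteValuationRing.maximalIdeal R).valuation K) h3
    rw [map_pow, h1, one_pow, map_mul] at h4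
    have h5 : (IsDiscreteValuationRing.maximalIdeal R).valuation K (algebraMap R K j₀) ≤ 1 :=
      IsDedekindDomain.HeightOneSpectrum.valuation_le_one _ _
    have h6 : (IsDiscreteValuationRing.maximalIdeal R).valuation K (algebraMap R K j₀) *
        (IsDiscreteValuationRing.maximalIdeal R).valuation K (C • W).Δ < 1 :=
      by rw [mul_comm]; exact mul_lt_one_of_lt_of_le h2 h5
    rw [← h4] at h6
    exact lt_irrefl _ h6
  have hsplit : ¬ (W.minimal R).HasSplitMultiplicativeReduction R := fun hs =>
    hmult hs.toHasMultiplicativeReduction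
  unfold WeierstrassCurve.localPolynomial
  rw [if_neg hgood, if_neg hsplit, if_neg hmult]

end H55K.DD
end

-- from Lib.H55P.SA2
section

namespace H55P

/-! Chunk PSA2 (M). Pure group theory: a cocycle on N whose class is invariant under H extends to H.
PROOF. For g in H choose T_g (hinv), unique by h0 (the difference of two is fixed by N and killed by p). c' g = T_g for g in H (0 outside). For g in N: ρ g (c (g⁻¹ s g)) - c s = ρ s (c g) - c g: expand c (g⁻¹ s g) = c (g⁻¹) + ρ g⁻¹ (c (s g)),
ρ g (c g⁻¹) = - c g (from c 1 = 0), c (s g) = c s + ρ s (c g); so T_g = c g by uniqueness. For g, h in H: with g.c = the function s -> ρ g (c (g⁻¹ s g)): (gh).c - c = g.(h.c - c) + (g.c - c), and g.(∂T)(s) = ρ g (ρ (g⁻¹ s g) T - T) = ρ s (ρ g T) - ρ g T;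
so ρ g T_h + T_g has the property of T_(gh): T_(gh) = T_g + ρ g T_h. -/

theorem ext_coc {G M : Type} [Group G] [AddCommGroup M] (ρ : G →* AddMonoid.End M) (p : ℕ)
    (N H : Subgroup G) (hNH : N ≤ H) (hn : ∀ h ∈ H, ∀ n ∈ N, h * n * h⁻¹ ∈ N)
    (h0 : ∀ T : M, p • T = 0 → (∀ n ∈ N, ρ n T = T) → T = 0) (c : G → M)
    (hc : ∀ s ∈ N, ∀ t ∈ N, c (s * t) = c s + ρ s (c t)) (hpc : ∀ s ∈ N, p • c s = 0)
    (hinv : ∀ g ∈ H, ∃ T : M, p • T = 0 ∧ ∀ s ∈ N, ρ g (c (g⁻¹ * s * g)) - c s = ρ s T - T) :
    ∃ c' : G → M, (∀ s ∈ H, ∀ t ∈ H, c' (s * t) = c' s + ρ s (c' t)) ∧ (∀ s ∈ H, p • c' s = 0) ∧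
      ∀ s ∈ N, c' s = c s := by
  choose! T hpT hT using hinv
  have hmul : ∀ (a b : G) (x : M), ρ (a * b) x = ρ a (ρ b x) := by
    intro a b x
    rw [map_mul]; rfl
  have hcj : ∀ g ∈ H, ∀ s ∈ N, g⁻¹ * s * g ∈ N := by
    intro g hg s hs
    have := hn g⁻¹ (H.inv_mem hg) s hs
    simpa using this
  have huniq : ∀ g ∈ H, ∀ T' : M, p • T' = 0 →
      (∀ s ∈ N, ρ g (c (g⁻¹ * s * g)) - c s = ρ s T' - T') → T g = T' := by
    intro g hg T' hp' hT'
    rw [← sub_eq_zero]
    apply h0
    · rw [smul_sub, hpT g hg, hp', sub_zero]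
    · intro n hnN
      have h1 := hT g hg n hnN
      rw [hT' n hnN] at h1
      rw [map_sub, sub_eq_sub_iff_sub_eq_sub]
      exact h1.symm
  refine ⟨T, ?_, hpT, ?_⟩
  · intro g hg h hh
    apply huniq _ (H.mul_mem hg hh)
    · rw [smul_add, hpT g hg, ← map_nsmul, hpT h hh, map_zero, add_zero]
    · intro s hs
      have hs' := hcj g hg s hs
      have e1 : (g * h)⁻¹ * s * (g * h) = h⁻¹ * (g⁻¹ * s * g) * h := by group
      have e2 : ρ h (c (h⁻¹ * (g⁻¹ * s * g) * h)) =
          c (g⁻¹ * s * g) + (ρ (g⁻¹ * s * g) (T h) - T h) := by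
        rw [← hT h hh _ hs']
        abel
      have e3 : ρ g (c (g⁻¹ * s * g)) = c s + (ρ s (T g) - T g) := by
        rw [← hT g hg s hs]
        abel
      have e4 : ρ g (ρ (g⁻¹ * s * g) (T h)) = ρ s (ρ g (T h)) := by
        rw [← hmul, ← hmul]
        congr 2
        group
      rw [e1, hmul, e2, map_add, map_sub, e3, e4, map_add]
      abel
  · intro s hs
    apply huniq s (hNH hs) _ (hpc s hs)
    intro t ht
    have hs' := hcj s (hNH hs) t ht
    have e1 : c (s * (s⁻¹ * t * s)) = c s + ρ s (c (s⁻¹ * t * s)) := hc s hs _ hs'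
    have e2 : c (t * s) = c t + ρ t (c s) := hc t ht s hs
    have e3 : s * (s⁻¹ * t * s) = t * s := by group
    rw [e3, e2] at e1
    rw [sub_eq_sub_iff_add_eq_add, add_comm (ρ s _), ← e1, add_comm]

end H55P
end

-- from Lib.H55R.X11
section

namespace H55R

/-! Chunk X11 (S, group theory). fin_adjoin: the product map Y × zpowers φ -> Y ⊔ zpowers φ is surjective (commutative group, Subgroup.mem_sup).
card_adjoin: zpowers φ has prime order l (φ <> 1 as φ is not in Y) and meets Y in 1 (its subgroups are trivial or everything), so the product map is injective too.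
mem_adjoin: elements of Y ⊔ zpowers φ are μ φ^j. -/

theorem X11_map {P : Type} [CommGroup P] (Y : Subgroup P) (φ : P) :
    Function.Surjective (fun q : Y × Subgroup.zpowers φ =>
      (⟨q.1.1 * q.2.1, Subgroup.mul_mem_sup q.1.2 q.2.2⟩ : (Y ⊔ Subgroup.zpowers φ : Subgroup P))) := by
  rintro ⟨x, hx⟩
  obtain ⟨y, hy, z, hz, h⟩ := Subgroup.mem_sup.1 hx
  exact ⟨(⟨y, hy⟩, ⟨z, hz⟩), Subtype.ext h⟩

theorem fin_adjoin {P : Type} [CommGroup P] (Y : Subgroup P) (hY : Finite Y) (φ : P) (k : ℕ)
    (hk : 0 < k) (hφ : φ ^ k = 1) : Finite (Y ⊔ Subgroup.zpowers φ : Subgroup P) := by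
  have h1 : Finite (Subgroup.zpowers φ) :=
    (finite_zpowers.2 (isOfFinOrder_iff_pow_eq_one.2 ⟨k, hk, hφ⟩)).to_subtype
  exact Finite.of_surjective _ (X11_map Y φ)

theorem card_adjoin {P : Type} [CommGroup P] (Y : Subgroup P) (hY : Finite Y) (φ : P) (l : ℕ)
    (hl : l.Prime) (hφ : φ ^ l = 1) (hn : φ ∉ Y) :
    l * Nat.card Y ≤ Nat.card (Y ⊔ Subgroup.zpowers φ : Subgroup P) := by
  have hfin := fin_adjoin Y hY φ l hl.pos hφ
  have hf : Fact l.Prime := ⟨hl⟩
  have h1 : φ ≠ 1 := fun h => hn (by rw [h]; exact Y.one_mem)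
  have hord : orderOf φ = l := orderOf_eq_prime hφ h1
  have hcard : Nat.card (Subgroup.zpowers φ) = l := by rw [Nat.card_zpowers, hord]
  have hinj : Function.Injective (fun q : Y × Subgroup.zpowers φ =>
      (⟨q.1.1 * q.2.1, Subgroup.mul_mem_sup q.1.2 q.2.2⟩ : (Y ⊔ Subgroup.zpowers φ : Subgroup P))) := by
    rintro ⟨⟨y, hy⟩, ⟨z, hz⟩⟩ ⟨⟨y', hy'⟩, ⟨z', hz'⟩⟩ h
    have h2 : y * z = y' * z' := congrArg Subtype.val h
    have h3 : z * z'⁻¹ ∈ Y := by
      have : z * z'⁻¹ = y⁻¹ * y' := by
        calc z * z'⁻¹ = y⁻¹ * (y * z) * z'⁻¹ := by group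
          _ = y⁻¹ * y' := by rw [h2]; group
      rw [this]
      exact Y.mul_mem (Y.inv_mem hy) hy'
    have h4 : z * z'⁻¹ = 1 := by
      by_contra hne
      have h5 : z * z'⁻¹ ∈ Subgroup.zpowers φ :=
        (Subgroup.zpowers φ).mul_mem hz ((Subgroup.zpowers φ).inv_mem hz')
      -- a nontrivial element of a group of prime order generates
      have hf' : Fact (Nat.card (Subgroup.zpowers φ)).Prime := ⟨by rw [hcard]; exact hl⟩
      have h6 : (⟨φ, Subgroup.mem_zpowers φ⟩ : Subgroup.zpowers φ) ∈
          Subgroup.zpowers (⟨z * z'⁻¹, h5⟩ : Subgroup.zpowers φ) :=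
        mem_zpowers_of_prime_card hcard (by
          intro h
          exact hne (congrArg Subtype.val h))
      obtain ⟨j, hj⟩ := Subgroup.mem_zpowers_iff.1 h6
      have h7 : (z * z'⁻¹) ^ j = φ := congrArg Subtype.val hj
      apply hn
      rw [← h7]
      exact Y.zpow_mem h3 j
    have h5 : z = z' := mul_inv_eq_one.1 h4
    have h6 : y = y' := by
      rw [h5] at h2
      exact mul_right_cancel h2
    simp only [h5, h6]
  have h2 := Nat.card_le_card_of_injective _ hinj
  rw [Nat.card_prod, hcard] at h2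
  rwa [mul_comm]

theorem mem_adjoin {P : Type} [CommGroup P] (Y : Subgroup P) (φ θ : P)
    (h : θ ∈ Y ⊔ Subgroup.zpowers φ) : ∃ μ ∈ Y, ∃ j : ℤ, θ = μ * φ ^ j := by
  obtain ⟨y, hy, z, hz, h⟩ := Subgroup.mem_sup.1 h
  obtain ⟨j, rfl⟩ := Subgroup.mem_zpowers_iff.1 hz
  exact ⟨y, hy, j, h.symm⟩

end H55R
end

-- from Lib.H55R.X3
section

open NumberField IsDedekindDomain

namespace H55R

/-! Chunk X3 (M): the field N = L(zeta_p). Take N = CyclotomicField p L (a number field, IsCyclotomicExtension {p} L N, ζ = IsCyclotomicExtension.zeta),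
Algebra K N by composition (toAlgebra), scalar tower. N/K is normal: the splitting field of f (X^p - 1) if L is the splitting field
of f over K (IsGalois.of_isSplittingField..., or: every K-embedding of N into an algebraic closure maps L to L (normal) and ζ to a p-th root of unity,
hence N to N: Normal via AlgHom.fieldRange), separable in characteristic 0. An automorphism fixing L and ζ is the identity (N is generated by ζ over L).
Commutative: (g h)(x) = (h g)(x) for x in L (restrictions to L commute by hc; AlgEquiv.restrictNormal) and for ζ: g ζ = ζ^a, h ζ = ζ^b;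
so (g h)(h g)^-1 fixes L and ζ. -/

theorem exists_N (K L : Type) [Field K] [NumberField K] [Field L] [NumberField L] [Algebra K L]
    [IsGalois K L] (hc : ∀ g h : Gal(L/K), g * h = h * g) (p : ℕ) (hp : p.Prime) :
    ∃ (N : Type) (_ : Field N) (_ : NumberField N) (_ : Algebra K N) (_ : Algebra L N)
      (_ : IsScalarTower K L N) (ζ : N), IsPrimitiveRoot ζ p ∧ IsGalois K N ∧
      (∀ g h : Gal(N/K), g * h = h * g) ∧
      (∀ g : Gal(N/K), g ζ = ζ → (∀ x : L, g (algebraMap L N x) = algebraMap L N x) → g = 1) := by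
  have : NeZero p := ⟨hp.ne_zero⟩
  have hζ : IsPrimitiveRoot (IsCyclotomicExtension.zeta p L (CyclotomicField p L)) p :=
    IsCyclotomicExtension.zeta_spec p L (CyclotomicField p L)
  have hgal : IsGalois K (CyclotomicField p L) := by
    have hff : ∃ f : Polynomial K, f ≠ 0 ∧ Polynomial.IsSplittingField K L f := by
      obtain ⟨f, hf⟩ := Normal.exists_isSplittingField K L
      rcases ne_or_eq f 0 with h0 | h0
      · exact ⟨f, h0, hf⟩
      · refine ⟨1, one_ne_zero, ⟨?_, ?_⟩⟩
        · rw [Polynomial.map_one]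
          exact Polynomial.Splits.one
        · have h1 := hf.adjoin_rootSet
          rw [h0, Polynomial.rootSet_zero] at h1
          rw [Polynomial.rootSet_one]
          exact h1
    obtain ⟨f, hf0, hf⟩ := hff
    have hg0 : ((Polynomial.X : Polynomial K) ^ p - 1) ≠ 0 :=
      Polynomial.X_pow_sub_C_ne_zero hp.pos (1 : K)
    have h2 : Polynomial.IsSplittingField L (CyclotomicField p L)
        (((Polynomial.X : Polynomial K) ^ p - 1).map (algebraMap K L)) := by
      rw [Polynomial.map_sub, Polynomial.map_pow, Polynomial.map_X, Polynomial.map_one]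
      exact IsCyclotomicExtension.isSplittingField_X_pow_sub_one p L (CyclotomicField p L)
    have h3 : Normal K (CyclotomicField p L) := by
      have h4 := Polynomial.IsSplittingField.mul (F := K) (K := L) (CyclotomicField p L) f
        ((Polynomial.X : Polynomial K) ^ p - 1) hf0 hg0
      exact Normal.of_isSplittingField (f * ((Polynomial.X : Polynomial K) ^ p - 1))
    exact ⟨⟩
  have hfix : ∀ g : Gal((CyclotomicField p L)/K),
      g (IsCyclotomicExtension.zeta p L (CyclotomicField p L)) =
        IsCyclotomicExtension.zeta p L (CyclotomicField p L) →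
      (∀ x : L, g (algebraMap L (CyclotomicField p L) x) = algebraMap L (CyclotomicField p L) x) →
      g = 1 := by
    intro g h1 h2
    let g' : (CyclotomicField p L) →ₐ[L] (CyclotomicField p L) :=
      { ((g : (CyclotomicField p L) ≃ₐ[K] (CyclotomicField p L)) :
          (CyclotomicField p L) →+* (CyclotomicField p L)) with
        commutes' := h2 }
    have h3 : g' = AlgHom.id L (CyclotomicField p L) := by
      refine AlgHom.ext_of_adjoin_eq_top
        (IsCyclotomicExtension.adjoin_primitive_root_eq_top (A := L) hζ) ?_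
      intro x hx
      rw [Set.mem_singleton_iff] at hx
      rw [hx]
      exact h1
    ext x
    exact DFunLike.congr_fun h3 x
  refine ⟨CyclotomicField p L, inferInstance, inferInstance, inferInstance, inferInstance,
    inferInstance, IsCyclotomicExtension.zeta p L (CyclotomicField p L), hζ, hgal, ?_, hfix⟩
  intro g h
  have hres : ∀ (k : Gal((CyclotomicField p L)/K)) (x : L),
      k (algebraMap L (CyclotomicField p L) x) =
        algebraMap L (CyclotomicField p L) (AlgEquiv.restrictNormal k L x) := fun k x =>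
    (AlgEquiv.restrictNormal_commutes k L x).symm
  have h1 : (h * g)⁻¹ * (g * h) = 1 := by
    apply hfix
    · have h2 : (g * h) (IsCyclotomicExtension.zeta p L (CyclotomicField p L)) =
          (h * g) (IsCyclotomicExtension.zeta p L (CyclotomicField p L)) := by
        rw [AlgEquiv.mul_apply, AlgEquiv.mul_apply, ← hζ.autToPow_spec K h, ← hζ.autToPow_spec K g,
          map_pow, map_pow, ← hζ.autToPow_spec K g, ← hζ.autToPow_spec K h, ← pow_mul, ← pow_mul,
          mul_comm]
      rw [AlgEquiv.mul_apply, h2, ← AlgEquiv.mul_apply, inv_mul_cancel]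
      rfl
    · intro x
      have h2 : (g * h) (algebraMap L (CyclotomicField p L) x) =
          (h * g) (algebraMap L (CyclotomicField p L) x) := by
        rw [AlgEquiv.mul_apply, AlgEquiv.mul_apply, hres h x, hres g x, hres, hres]
        congr 1
        exact DFunLike.congr_fun (hc (AlgEquiv.restrictNormal g L) (AlgEquiv.restrictNormal h L)) x
      rw [AlgEquiv.mul_apply, h2, ← AlgEquiv.mul_apply, inv_mul_cancel]
      rfl
  exact (inv_mul_eq_one.1 h1).symm

end H55R
end

-- from Lib.H55P.SA1
section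

namespace H55P

/-! Chunk PSA1 (S/M). Pure group theory.
op_zero: work in the ring AddMonoid.End X. (σ - 1)^p = σ^p - 1 + p * r for a polynomial r in σ (Commute.add_pow / exists_add_pow_prime_eq with x = σ, y = -1, and for p = 2 the sign: (-1)^p = -1 + 2 or so; r maps Z to Z since it is an
integer polynomial in σ). So for z in Z: (σ - 1)^p z = (σ^p z - z) + p r z (+ p z) is in B (hσ, hZ). If (σ - 1)^(j+1) z is in B then (σ - 1)^j z is in Z and in B by h0 (apply h0 to (σ-1)^j z); descend from p to 0. (σ^[p] is the iterate, AddMonoid.End.coe_pow.)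
fix_up: X = the set of T with p T = 0 fixed by N, finite, an additive subgroup stable under H (T in X, h in H, n in N: n h T = h (h^-1 n h) T = h T). H acts on X; the subgroup N acts trivially, so the image H' of H in Equiv.Perm X satisfies h^(p^k) = 1,
so it is a p-group (IsPGroup). IsPGroup.card_modEq_card_fixedPoints: card X = number of fixed points = 1 mod p (h0). If X <> 0 then p divides card X (an element T of order p, Lagrange), contradiction. -/

theorem op_zero {X : Type} [AddCommGroup X] (p : ℕ) (hp : p.Prime) (Z B : AddSubgroup X)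
    (hZ : ∀ z ∈ Z, p • z ∈ B) (σ : X →+ X) (hσZ : ∀ z ∈ Z, σ z ∈ Z) (hσB : ∀ b ∈ B, σ b ∈ B)
    (hσ : ∀ z ∈ Z, σ^[p] z - z ∈ B) (h0 : ∀ z ∈ Z, σ z - z ∈ B → z ∈ B) : ∀ z ∈ Z, z ∈ B := by
  classical
  -- the subring of endomorphisms preserving `Z`
  let S : Subring (AddMonoid.End X) :=
    { carrier := {f | ∀ z ∈ Z, f z ∈ Z}
      mul_mem' := fun {f g} hf hg z hz => hf _ (hg z hz)
      one_mem' := fun z hz => hz
      add_mem' := fun {f g} hf hg z hz => Z.add_mem (hf z hz) (hg z hz)
      zero_mem' := fun z _ => Z.zero_mem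
      neg_mem' := fun {f} hf z hz => Z.neg_mem (hf z hz) }
  let s : AddMonoid.End X := σ
  have hsS : s ∈ S := fun z hz => hσZ z hz
  let x : S := ⟨s, hsS⟩
  obtain ⟨r, hr⟩ := Commute.exists_add_pow_prime_eq hp (Commute.neg_right (Commute.one_right x))
  have hsign : ∃ e : S, (-1 : S) ^ p = -1 + (p : S) * e := by
    rcases hp.eq_two_or_odd' with h2 | hodd
    · subst h2
      refine ⟨1, ?_⟩
      push_cast
      ring_nf
      norm_num
    · exact ⟨0, by rw [hodd.neg_one_pow]; simp⟩
  obtain ⟨e, he⟩ := hsign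
  obtain ⟨r', hr'⟩ : ∃ r' : S, (x + -1) ^ p = x ^ p + (-1) ^ p + (p : S) * r' :=
    ⟨x * -1 * r, by rw [hr]; simp only [mul_assoc]⟩
  have hmain : (x + -1) ^ p = x ^ p - 1 + (p : S) * (e + r') := by
    rw [hr', he, mul_add]
    abel
  have hMul : ∀ (f g : AddMonoid.End X) (z : X), (f * g) z = f (g z) := fun _ _ _ => rfl
  have hAdd : ∀ (f g : AddMonoid.End X) (z : X), (f + g) z = f z + g z := fun _ _ _ => rfl
  have hSub : ∀ (f g : AddMonoid.End X) (z : X), (f - g) z = f z - g z := fun _ _ _ => rfl
  have hmul : ∀ (q : AddMonoid.End X) (z : X), ((p : AddMonoid.End X) * q) z = p • q z := by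
    intro q z
    rw [hMul, AddMonoid.End.natCast_apply]
  have htop : ∀ z ∈ Z, ((s + -1) ^ p) z ∈ B := by
    intro z hz
    have h1 : ((s + -1) ^ p : AddMonoid.End X) = s ^ p - 1 + (p : AddMonoid.End X) * ((e : AddMonoid.End X) + r') := by
      have := congrArg (Subtype.val) hmain
      simpa using this
    rw [h1]
    have h2 : ((s ^ p - 1 + (p : AddMonoid.End X) * ((e : AddMonoid.End X) + r')) : AddMonoid.End X) z
        = (σ^[p] z - z) + p • (((e : AddMonoid.End X) + r') z) := by
      rw [hAdd, hmul, hSub, AddMonoid.End.coe_pow]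
      rfl
    rw [h2]
    exact B.add_mem (hσ z hz) (hZ _ ((e + r').2 z hz))
  have hpowZ : ∀ j : ℕ, ∀ z ∈ Z, ((s + -1) ^ j) z ∈ Z := by
    intro j z hz
    have : (s + -1) ^ j ∈ S := S.pow_mem (S.add_mem hsS (S.neg_mem S.one_mem)) j
    exact this z hz
  intro z hz
  have hdesc : ∀ j : ℕ, ((s + -1) ^ j) z ∈ B → z ∈ B := by
    intro j
    induction j with
    | zero => intro h; simpa using h
    | succ j ih =>
      intro h
      apply ih
      apply h0 _ (hpowZ j z hz)
      rw [pow_succ', hMul, hAdd] at h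
      have : (s (((s + -1) ^ j) z)) + (-1 : AddMonoid.End X) (((s + -1) ^ j) z)
          = σ (((s + -1) ^ j) z) - ((s + -1) ^ j) z := by
        rw [sub_eq_add_neg]
        rfl
      rw [this] at h
      exact h
  exact hdesc p (htop z hz)

theorem fix_up {G M : Type} [Group G] [AddCommGroup M] (ρ : G →* AddMonoid.End M) (p : ℕ) (hp : p.Prime)
    (hfin : {T : M | p • T = 0}.Finite) (N H : Subgroup G) (hNH : N ≤ H)
    (hn : ∀ h ∈ H, ∀ n ∈ N, h * n * h⁻¹ ∈ N) (k : ℕ) (hk : ∀ h ∈ H, h ^ p ^ k ∈ N)
    (h0 : ∀ T : M, p • T = 0 → (∀ h ∈ H, ρ h T = T) → T = 0) (T : M) (hT : p • T = 0)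
    (hf : ∀ n ∈ N, ρ n T = T) : T = 0 := by
  classical
  have : Fact p.Prime := ⟨hp⟩
  have hMul : ∀ (f g : AddMonoid.End M) (z : M), (f * g) z = f (g z) := fun _ _ _ => rfl
  let X : AddSubgroup M :=
    { carrier := {T | p • T = 0 ∧ ∀ n ∈ N, ρ n T = T}
      add_mem' := fun {a b} ha hb => ⟨by rw [smul_add, ha.1, hb.1, add_zero],
        fun n hn => by rw [map_add, ha.2 n hn, hb.2 n hn]⟩
      zero_mem' := ⟨by simp, fun n _ => map_zero _⟩
      neg_mem' := fun {a} ha => ⟨by rw [smul_neg, ha.1, neg_zero],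
        fun n hn => by rw [map_neg, ha.2 n hn]⟩ }
  have : Finite X := (hfin.subset (fun T hT => hT.1)).to_subtype
  have hstab : ∀ h ∈ H, ∀ T ∈ X, ρ h T ∈ X := by
    intro h hh T hT
    refine ⟨?_, ?_⟩
    · rw [← map_nsmul, hT.1, map_zero]
    · intro n hnN
      have h1 : h⁻¹ * n * h ∈ N := by
        have := hn h⁻¹ (H.inv_mem hh) n hnN
        simpa using this
      have h2 : ρ n (ρ h T) = ρ h (ρ (h⁻¹ * n * h) T) := by
        rw [← hMul, ← hMul, ← map_mul, ← map_mul]
        congr 2
        group
      rw [h2, hT.2 _ h1]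
  have hinv : ∀ (h : G) (T : M), ρ h⁻¹ (ρ h T) = T := by
    intro h T
    rw [← hMul, ← map_mul, inv_mul_cancel, map_one]
    rfl
  have hinv' : ∀ (h : G) (T : M), ρ h (ρ h⁻¹ T) = T := by
    intro h T
    rw [← hMul, ← map_mul, mul_inv_cancel, map_one]
    rfl
  let φ : H →* Equiv.Perm X :=
    { toFun := fun h =>
        { toFun := fun x => ⟨ρ (h : G) x.1, hstab h h.2 _ x.2⟩
          invFun := fun x => ⟨ρ (h : G)⁻¹ x.1, hstab _ (H.inv_mem h.2) _ x.2⟩
          left_inv := fun x => Subtype.ext (hinv _ _)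
          right_inv := fun x => Subtype.ext (hinv' _ _) }
      map_one' := by
        ext x
        simp
      map_mul' := fun a b => by
        ext x
        simp [map_mul, hMul] }
  have hφ : ∀ (h : H) (x : X), ((φ h x : X) : M) = ρ (h : G) x := fun h x => rfl
  have hP : IsPGroup p φ.range := by
    rintro ⟨_, ⟨h, rfl⟩⟩
    refine ⟨k, ?_⟩
    apply Subtype.ext
    rw [SubgroupClass.coe_pow, ← map_pow]
    ext x
    show ((φ (h ^ p ^ k) x : X) : M) = x
    rw [hφ]
    have := x.2.2 _ (hk h h.2)
    simpa using this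
  by_contra hne
  let t : X := ⟨T, hT, hf⟩
  have ht : t ≠ 0 := fun h => hne (congrArg Subtype.val h)
  have hord : addOrderOf t = p := by
    apply addOrderOf_eq_prime
    · apply Subtype.ext
      exact hT
    · exact ht
  have hdvd : p ∣ Nat.card X := by
    rw [← hord]
    exact addOrderOf_dvd_natCard t
  have h0fix : (0 : X) ∈ MulAction.fixedPoints φ.range X := by
    rintro ⟨_, ⟨h, rfl⟩⟩
    apply Subtype.ext
    show ((φ h 0 : X) : M) = 0
    rw [hφ]
    exact map_zero _
  obtain ⟨b, hb, hb0⟩ := hP.exists_fixed_point_of_prime_dvd_card_of_fixed_point X hdvd h0fix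
  apply hb0
  symm
  apply Subtype.ext
  apply h0 _ b.2.1
  intro h hh
  have := hb ⟨φ ⟨h, hh⟩, ⟨⟨h, hh⟩, rfl⟩⟩
  have h3 := congrArg Subtype.val this
  exact h3

end H55P
end

-- from Lib.H55P.S12
section

open NumberField IsDedekindDomain WeierstrassCurve

namespace H55P

variable {F : Type} [Field F] [NumberField F] {Ω : Type} [Field Ω] [DecidableEq Ω] [Algebra F Ω]
  [IsAlgClosed Ω] [Algebra.IsAlgebraic F Ω] [CharZero Ω]

/-! Chunk PS12 (M). The tower; PORT of exists_sub3 in Lib/H19T/A9b.lean (p = 3, base field F there) to a prime p and to fields between M and L inside Ω.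
G = the group of automorphisms of L over M (L as an extension of M: IntermediateField.extendScalars, FR_galois in Lib/H16C/FR2.lean; order p^k), H' = the fixing subgroup of K, H = a subgroup containing H' with index p (Sylow.exists_subgroup_card_pow_succ), H' normal in H, N = the fixed field of H.
Conclude with the restriction of automorphisms of Ω to L (normal): s in N.fixingSubgroup restricts to an element of H, which maps K to K. chain_types: the instances for the types of N and K: the algebra structure by IntermediateField.inclusion; IsGalois: normal since every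
s in N.fixingSubgroup maps K to K (FR_galois), separable in characteristic 0; finrank from hdeg and finrank F K = finrank F N * finrank N K. PExt.sub: finrank of K over F divides. -/

/-- An automorphism of Ω over F which fixes K is an automorphism over K. -/
noncomputable def S12_up {K : IntermediateField F Ω} (g : Ω ≃ₐ[F] Ω) (hg : g ∈ K.fixingSubgroup) :
    Ω ≃ₐ[K] Ω :=
  AlgEquiv.ofRingEquiv (f := (g : Ω ≃+* Ω)) (fun x => hg x)

theorem S12_fin (K L : IntermediateField F Ω) (hKL : K ≤ L) [FiniteDimensional F L] :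
    FiniteDimensional K (IntermediateField.extendScalars hKL) := by
  have h1 : FiniteDimensional F (IntermediateField.extendScalars hKL) :=
    inferInstanceAs (FiniteDimensional F L)
  exact Module.Finite.of_restrictScalars_finite F K _

theorem S12_galois (K L : IntermediateField F Ω) (hKL : K ≤ L) [FiniteDimensional F L]
    (hst : ∀ g ∈ K.fixingSubgroup, ∀ x ∈ L, g x ∈ L) :
    IsGalois K (IntermediateField.extendScalars hKL) := by
  have hfin := S12_fin K L hKL
  have hal : Algebra.IsAlgebraic K Ω := Algebra.IsAlgebraic.tower_top (K := F) K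
  have hcl : IsAlgClosure K Ω := ⟨inferInstance, hal⟩
  have hno : Normal K Ω := IsAlgClosure.normal K Ω
  have : Normal K (IntermediateField.extendScalars hKL) := by
    rw [IntermediateField.normal_iff_forall_map_le']
    intro σ
    rintro y ⟨x, hx, rfl⟩
    have hx' : x ∈ L := IntermediateField.mem_extendScalars hKL |>.1 hx
    have h2 := hst (σ.restrictScalars F) (fun z => σ.commutes z) x hx'
    exact (IntermediateField.mem_extendScalars hKL).2 h2
  have : CharZero K := charZero_of_injective_algebraMap (algebraMap F K).injective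
  exact { }

theorem S12_restr {K : IntermediateField F Ω} (L : IntermediateField K Ω) [Normal K L] (g : Ω ≃ₐ[F] Ω)
    (hg : g ∈ K.fixingSubgroup) : ∃ s : Gal(L/K), ∀ x : L, ((s x : L) : Ω) = g (x : Ω) :=
  ⟨(S12_up g hg).restrictNormal L, fun x => (S12_up g hg).restrictNormal_commutes L x⟩

theorem S12_rank (M K : IntermediateField F Ω) (h : M ≤ K) :
    Module.finrank F M * Module.finrank M (IntermediateField.extendScalars h) = Module.finrank F K := by
  rw [Module.finrank_mul_finrank]
  rfl

theorem S12_normal (p : ℕ) (hp : p.Prime) {G : Type} [Group G] [Finite G] (H' H : Subgroup G) (j : ℕ)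
    (h1 : Nat.card H' = p ^ j) (h2 : Nat.card H = p ^ (j + 1)) (hle : H' ≤ H) :
    (H'.subgroupOf H).Normal := by
  have hp0 := hp.pos
  have hidx : (H'.subgroupOf H).index = p := by
    have h3 := Subgroup.card_mul_index (H'.subgroupOf H)
    have h4 : Nat.card (H'.subgroupOf H) = Nat.card H' :=
      Nat.card_congr (Subgroup.subgroupOfEquivOfLe hle).toEquiv
    rw [h4, h1, h2, pow_succ] at h3
    exact Nat.eq_of_mul_eq_mul_left (by positivity) h3
  apply Subgroup.normal_of_index_eq_minFac_card
  rw [hidx, h2, Nat.pow_minFac (by omega)]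
  exact hp.minFac_eq.symm

theorem chain_step (p : ℕ) (hp : p.Prime) (M K L : IntermediateField F Ω) (hL : PExt p M L) (hMK : M ≤ K)
    (hKL : K ≤ L) (hne : K ≠ M) : ∃ N : IntermediateField F Ω, M ≤ N ∧ N ≤ K ∧
      Module.finrank F K = Module.finrank F N * p ∧ ∀ s ∈ N.fixingSubgroup, ∀ x ∈ K, s x ∈ K := by
  have hfinL := hL.fin
  have hp0 := hp.pos
  have hp' := Fact.mk hp
  obtain ⟨k, hk⟩ := hL.deg
  have hfin := S12_fin M L hL.le
  have hgal := S12_galois M L hL.le hL.norm
  obtain ⟨L', hL'⟩ : ∃ L' : IntermediateField M Ω, L' = IntermediateField.extendScalars hL.le :=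
    ⟨_, rfl⟩
  rw [← hL'] at hfin hgal
  have hmem : ∀ x : Ω, x ∈ L' ↔ x ∈ L := by
    intro x
    rw [hL']
    exact Iff.rfl
  have hKL' : IntermediateField.extendScalars hMK ≤ L' := fun x hx => (hmem x).2 (hKL hx)
  obtain ⟨K', hK'⟩ : ∃ K' : IntermediateField M L', K' = IntermediateField.restrict hKL' :=
    ⟨_, rfl⟩
  have hmemK : ∀ x : L', x ∈ K' ↔ (x : Ω) ∈ K := by
    intro x
    rw [hK', IntermediateField.mem_restrict]
    exact Iff.rfl
  have hrk : Module.finrank F M * Module.finrank M K' = Module.finrank F K := by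
    rw [← S12_rank M K hMK, hK',
      (IntermediateField.restrictAlgEquiv hKL').toLinearEquiv.finrank_eq]
  have hrl : Module.finrank F M * Module.finrank M L' = Module.finrank F L := by
    rw [hL']
    exact S12_rank M L hL.le
  have hM0 : 0 < Module.finrank F M := by
    have : 0 < Module.finrank F L := Module.finrank_pos
    rw [← hrl] at this
    exact Nat.pos_of_mul_pos_right this
  have hLp : Module.finrank M L' = p ^ k := by
    rw [hk] at hrl
    exact Nat.eq_of_mul_eq_mul_left hM0 hrl
  have h2 : Module.finrank M K' * Module.finrank K' L' = p ^ k := by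
    rw [Module.finrank_mul_finrank, hLp]
  obtain ⟨j, hj, hj2⟩ := (Nat.dvd_prime_pow hp).1 (Dvd.intro_left _ h2 : Module.finrank K' L' ∣ p ^ k)
  have h3 : Nat.card K'.fixingSubgroup = p ^ j := by
    rw [IsGalois.card_fixingSubgroup_eq_finrank, hj2]
  have hcardG : Nat.card (L' ≃ₐ[M] L') = p ^ k := by
    rw [IsGalois.card_aut_eq_finrank, hLp]
  have hjk : j < k := by
    rcases lt_or_eq_of_le hj with h | h
    · exact h
    · exfalso
      apply hne
      rw [hj2, h] at h2
      have h5 : Module.finrank M K' = 1 := by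
        have h4 : (0 : ℕ) < p ^ k := by positivity
        exact Nat.eq_of_mul_eq_mul_right h4 (by rw [one_mul]; exact h2)
      have h6 : K' = ⊥ := IntermediateField.finrank_eq_one_iff.1 h5
      refine le_antisymm ?_ hMK
      intro x hx
      have h7 : (⟨x, hKL' hx⟩ : L') ∈ K' := (hmemK _).2 hx
      rw [h6, IntermediateField.mem_bot] at h7
      obtain ⟨y, hy⟩ := h7
      have h8 := congrArg (fun z : L' => (z : Ω)) hy
      have h9 : (y : Ω) = x := h8
      rw [← h9]
      exact y.2
  obtain ⟨H, hH, hle⟩ := Sylow.exists_subgroup_card_pow_succ (p := p) (G := L' ≃ₐ[M] L') (n := j)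
    (by rw [hcardG]; exact pow_dvd_pow p hjk) h3
  obtain ⟨N', hN'⟩ : ∃ N' : IntermediateField M L', N' = IntermediateField.fixedField H := ⟨_, rfl⟩
  have hNK : N' ≤ K' := by
    intro x hx
    rw [← IsGalois.fixedField_fixingSubgroup K', IntermediateField.mem_fixedField_iff]
    intro σ hσ
    rw [hN'] at hx
    exact (IntermediateField.mem_fixedField_iff H x).1 hx σ (hle hσ)
  have h6 : Module.finrank N' L' = p ^ (j + 1) := by
    rw [hN', IntermediateField.finrank_fixedField_eq_card, hH]
  have h7 : Module.finrank M N' * Module.finrank N' L' = p ^ k := by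
    rw [Module.finrank_mul_finrank, hLp]
  have h8 : Module.finrank M K' = Module.finrank M N' * p := by
    rw [hj2] at h2
    rw [h6, ← h2, pow_succ] at h7
    have h4 : (0 : ℕ) < p ^ j := by positivity
    refine Nat.eq_of_mul_eq_mul_right h4 ?_
    rw [← h7]
    ring
  obtain ⟨N, hN⟩ : ∃ N : IntermediateField F Ω,
      N = (IntermediateField.lift N').restrictScalars F := ⟨_, rfl⟩
  have hmemN : ∀ x : L', x ∈ N' ↔ (x : Ω) ∈ N := by
    intro x
    rw [hN, IntermediateField.mem_restrictScalars, IntermediateField.mem_lift]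
  have hMN : M ≤ N := by
    intro x hx
    rw [hN, IntermediateField.mem_restrictScalars]
    exact (IntermediateField.lift N').algebraMap_mem ⟨x, hx⟩
  have hNL : ∀ x ∈ N, x ∈ L' := by
    intro x hx
    rw [hN, IntermediateField.mem_restrictScalars] at hx
    exact IntermediateField.lift_le N' hx
  have hrn : Module.finrank F M * Module.finrank M N' = Module.finrank F N := by
    rw [← S12_rank M N hMN]
    congr 1
    rw [(IntermediateField.liftAlgEquiv N').toLinearEquiv.finrank_eq]
    have h9 : IntermediateField.lift N' = IntermediateField.extendScalars hMN := by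
      ext x
      rw [IntermediateField.mem_extendScalars, hN, IntermediateField.mem_restrictScalars]
    rw [h9]
  refine ⟨N, hMN, ?_, ?_, ?_⟩
  · intro x hx
    have h9 : (⟨x, hNL x hx⟩ : L') ∈ N' := (hmemN _).2 hx
    exact (hmemK _).1 (hNK h9)
  · rw [← hrk, ← hrn, h8, mul_assoc]
  · intro s hs x hx
    have hsM : s ∈ M.fixingSubgroup := by
      rw [IntermediateField.mem_fixingSubgroup_iff] at hs ⊢
      exact fun y hy => hs y (hMN hy)
    obtain ⟨t, ht⟩ := S12_restr L' s hsM
    have htH : t ∈ H := by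
      rw [← IntermediateField.fixingSubgroup_fixedField H, ← hN',
        IntermediateField.mem_fixingSubgroup_iff]
      intro y hy
      apply Subtype.ext
      rw [ht]
      rw [IntermediateField.mem_fixingSubgroup_iff] at hs
      exact hs _ ((hmemN y).1 hy)
    have hnorm := S12_normal p hp K'.fixingSubgroup H j h3 hH hle
    have hxL : x ∈ L' := hKL' hx
    have hxK : (⟨x, hxL⟩ : L') ∈ K' := (hmemK _).2 hx
    have hmem2 : t ⟨x, hxL⟩ ∈ K' := by
      rw [← IsGalois.fixedField_fixingSubgroup K', IntermediateField.mem_fixedField_iff]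
      intro τ hτ
      have h12 : (⟨τ, hle hτ⟩ : H) ∈ K'.fixingSubgroup.subgroupOf H := by
        rw [Subgroup.mem_subgroupOf]
        exact hτ
      have h13 := hnorm.conj_mem _ h12 (⟨t, htH⟩ : H)⁻¹
      rw [Subgroup.mem_subgroupOf] at h13
      have h14 : t⁻¹ * τ * t ∈ K'.fixingSubgroup := by
        simpa using h13
      have h15 : (t⁻¹ * τ * t) ⟨x, hxL⟩ = ⟨x, hxL⟩ :=
        (IntermediateField.mem_fixingSubgroup_iff K' _).1 h14 _ hxK
      have h16 : τ (t ⟨x, hxL⟩) = t ((t⁻¹ * τ * t) ⟨x, hxL⟩) := by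
        rw [← AlgEquiv.mul_apply, ← AlgEquiv.mul_apply]
        congr 1
        group
      rw [h16, h15]
    have h17 := (hmemK _).1 hmem2
    rw [ht] at h17
    exact h17

theorem chain_types (p : ℕ) (hp : p.Prime) (N K : IntermediateField F Ω) [FiniteDimensional F K]
    (hNK : N ≤ K) (hnorm : ∀ s ∈ N.fixingSubgroup, ∀ x ∈ K, s x ∈ K)
    (hdeg : Module.finrank F K = Module.finrank F N * p) :
    letI : Algebra N K := (IntermediateField.inclusion hNK).toRingHom.toAlgebra
    IsScalarTower F N K ∧ IsGalois N K ∧ Module.finrank N K = p := by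
  letI : Algebra N K := (IntermediateField.inclusion hNK).toRingHom.toAlgebra
  have ht : IsScalarTower F N K := IsScalarTower.of_algebraMap_eq fun x => rfl
  have hg := S12_galois N K hNK hnorm
  let E : (IntermediateField.extendScalars hNK) ≃ₐ[N] K :=
    { toFun := fun x => ⟨x.1, x.2⟩
      invFun := fun x => ⟨x.1, x.2⟩
      left_inv := fun _ => rfl
      right_inv := fun _ => rfl
      map_mul' := fun _ _ => rfl
      map_add' := fun _ _ => rfl
      commutes' := fun _ => rfl }
  refine ⟨ht, IsGalois.of_algEquiv E, ?_⟩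
  have h1 : Module.finrank F N * Module.finrank N K = Module.finrank F K :=
    Module.finrank_mul_finrank F N K
  rw [hdeg] at h1
  have h0 : 0 < Module.finrank F N := by
    have : 0 < Module.finrank F K := Module.finrank_pos
    rw [hdeg] at this
    exact Nat.pos_of_mul_pos_right this
  exact Nat.eq_of_mul_eq_mul_left h0 h1

/-- For every s in the group of M a power s^(p^k) fixes L. -/
theorem PExt.pow (p : ℕ) (hp : p.Prime) (M L : IntermediateField F Ω) (hL : PExt p M L) :
    ∃ k : ℕ, ∀ s ∈ M.fixingSubgroup, s ^ p ^ k ∈ L.fixingSubgroup := by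
  have hfinL := hL.fin
  obtain ⟨k, hk⟩ := hL.deg
  have hfin := S12_fin M L hL.le
  have hgal := S12_galois M L hL.le hL.norm
  have hrl := S12_rank M L hL.le
  have hM0 : 0 < Module.finrank F M := by
    have : 0 < Module.finrank F L := Module.finrank_pos
    rw [← hrl] at this
    exact Nat.pos_of_mul_pos_right this
  have hLp : Module.finrank M (IntermediateField.extendScalars hL.le) = p ^ k := by
    rw [hk] at hrl
    exact Nat.eq_of_mul_eq_mul_left hM0 hrl
  refine ⟨k, ?_⟩
  intro s hs
  obtain ⟨t, ht⟩ := S12_restr (IntermediateField.extendScalars hL.le) s hs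
  have hpow : ∀ (n : ℕ) (x : IntermediateField.extendScalars hL.le),
      (((t ^ n) x : IntermediateField.extendScalars hL.le) : Ω) = (s ^ n) (x : Ω) := by
    intro n
    induction n with
    | zero => intro x; rfl
    | succ n ih =>
      intro x
      rw [pow_succ, pow_succ, AlgEquiv.mul_apply, AlgEquiv.mul_apply, ih, ht]
  have h1 : t ^ p ^ k = 1 := by
    have h2 : Nat.card (IntermediateField.extendScalars hL.le ≃ₐ[M]
        IntermediateField.extendScalars hL.le) = p ^ k := by
      rw [IsGalois.card_aut_eq_finrank, hLp]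
    rw [← h2]
    exact pow_card_eq_one'
  rw [IntermediateField.mem_fixingSubgroup_iff]
  intro x hx
  have h3 := hpow (p ^ k) ⟨x, hx⟩
  rw [h1] at h3
  exact h3.symm

theorem PExt.conj (p : ℕ) (M L : IntermediateField F Ω) (hL : PExt p M L) (s : Ω ≃ₐ[F] Ω)
    (hs : s ∈ M.fixingSubgroup) (t : Ω ≃ₐ[F] Ω) (ht : t ∈ L.fixingSubgroup) :
    s * t * s⁻¹ ∈ L.fixingSubgroup := by
  rw [IntermediateField.mem_fixingSubgroup_iff] at ht ⊢
  intro x hx
  have h1 : s⁻¹ x ∈ L := hL.norm s⁻¹ (inv_mem hs) x hx
  rw [AlgEquiv.mul_apply, AlgEquiv.mul_apply, ht _ h1]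
  exact s.apply_symm_apply x

end H55P
end
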