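import Mathlib
import Pool.Agent.Lib.H1M.PP2.D_H55C_Defs
import Pool.Agent.Lib.H1M.PP2.M007
import Pool.Agent.Lib.H1M.PP2.M010
import Pool.Agent.Lib.H1M.PP2.M020
import Pool.Agent.Lib.H1M.PP2.M021
import Pool.Agent.Lib.H1M.PP2.M022
import Pool.Agent.Lib.H1M.PP2.M031
import Pool.Agent.Lib.H1M.PP2.M032
import Pool.Agent.Lib.H1M.PP2.M039
import Pool.Agent.Lib.H1M.PP2.M040

/-! Merged copies (to shorten the build) of Lib.H16C.RM, Lib.H13S.IN3, Lib.H55C.B9, Lib.H55K.W4C, Lib.H55K.WM, Lib.H55K.D5, Lib.H55R.HA10, Lib.H55R.HA12, Lib.H55R.HC8, Lib.H55N.B10, Lib.H55N.R4, Lib.H55N.B14, Lib.H55N.U4. -/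

-- from Lib.H16C.RM
section

/-!
# RM (M/L): inertia elements in a totally ramified Kummer extension

`L ≤ F` finite over the number field `k`, `F` stable under `Gal(Ω/L)` (so `F/L` is Galois),
`ζ ∈ L` primitive `n`-th root of unity, `δ ∈ F`, `δ^n = d ∈ L`, `v(d) < 1`, and `v(d)` generates the
value group of `L` at `A` (`v = A.valuation`).  `M = L(δ)`, `P = {z ∈ 𝓞 F | v z < 1}`,
`P_M = P ∩ 𝓞 M`, `P_L = P ∩ 𝓞 L`.  `v(δ)^n = v(d)`, so the ramification index `e(P_M / P_L)` is a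
multiple of `n`, `≤ [M : L] ≤ n`: it is `n` and `[M : L] = n`, the residue degree is 1 and `P_M` is the
only prime of `M` above `P_L`.
First proof: `I = ` inertia group of `P` in `Gal(F/L)`; `#I = e(P/P_L)`
(`Ideal.card_inertia_eq_ramificationIdxIn`), the inertia group of `P` in `Gal(F/M)` is
`I ∩ Gal(F/M)` and has order `e(P/P_M) = e(P/P_L)/n` (multiplicativity,
`ramificationIdxIn_mul_ramificationIdxIn`).  The homomorphism `I → ⟨ζ⟩`, `g ↦ g δ / δ` has kernel
`I ∩ Gal(F/M)`, so its image has `n` elements: some `s ∈ I` has `s δ = ζ δ`.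
Second proof: some `h ∈ Gal(F/L)` has `h δ = ζ δ` (`[M : L] = n`, so all `ζ^i δ` are conjugate over
`L`).  `h P` and `P` lie above the same prime of `M` (the only one above `P_L`), so
`u h P = P` for some `u ∈ Gal(F/M)` (transitivity); replace `h` by `u h`.  `h` acts on
`𝓞 F / P` over `𝓞 L / P_L = 𝓞 M / P_M`, and the stabiliser of `P` in `Gal(F/M)` maps onto
`Aut((𝓞 F/P)/(𝓞 M/P_M))` (`Ideal.Quotient.stabilizerHom_surjective`): correct `h` by an element of
`Gal(F/M)` so that it acts trivially on `𝓞 F / P`.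
Lift `s` to `g ∈ Gal(Ω/L)`; `Inert A F g` by FR1 (`x = a / c`).
-/

open NumberField IsDedekindDomain
open scoped Pointwise

namespace H16C

theorem RM_unr {L F : Type*} [Field L] [NumberField L] [Field F] [NumberField F] [Algebra L F] [IsGalois L F]
    (p : Ideal (𝓞 L)) [p.IsPrime] (hp : p ≠ ⊥) (P : Ideal (𝓞 F)) [P.IsPrime] [hl : P.LiesOver p]
    (T : IntermediateField L F) (hT : IsGaloisGroup (P.inertia Gal(F/L)) T F) :
    (P.under (𝓞 T)).ramificationIdx (𝓞 L) = 1 := by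
  have inst1 : IsGaloisGroup (P.inertia Gal(F/L)) (𝓞 T) (𝓞 F) := .of_isFractionRing _ _ _ T F
  have e1 := Ideal.card_inertia_eq_ramificationIdxIn (G := Gal(F/L)) p P
  have e2 := Ideal.card_inertia_eq_ramificationIdxIn (G := P.inertia Gal(F/L)) (P.under (𝓞 T)) P
  have e3 : P.inertia (P.inertia Gal(F/L)) = ⊤ := by
    rw [eq_top_iff]
    intro g _ x
    exact g.2 x
  rw [e3, Ideal.ramificationIdxIn_eq_ramificationIdx (P.under (𝓞 T)) P (P.inertia Gal(F/L))] at e2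
  rw [Ideal.ramificationIdxIn_eq_ramificationIdx p P Gal(F/L)] at e1
  have e4 := Ideal.ramificationIdx_tower (R := 𝓞 L) (P.under (𝓞 T)) P
  have e5 : Nat.card (⊤ : Subgroup (P.inertia Gal(F/L))) = Nat.card (P.inertia Gal(F/L)) :=
    Nat.card_congr Subgroup.topEquiv.toEquiv
  rw [← e1, ← e2, e5] at e4
  have e6 : Nat.card (P.inertia Gal(F/L)) ≠ 0 := Nat.card_pos.ne'
  exact Nat.eq_of_mul_eq_mul_right (Nat.pos_of_ne_zero e6) (by rw [one_mul]; exact e4.symm)

theorem RM_val {L F : Type*} [Field L] [NumberField L] [Field F] [NumberField F] [Algebra L F] [IsGalois L F]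
    (p : Ideal (𝓞 L)) [p.IsPrime] (hp : p ≠ ⊥) (P : Ideal (𝓞 F)) [P.IsPrime] (hP : P ≠ ⊥) [hl : P.LiesOver p]
    (T : IntermediateField L F) (hT : IsGaloisGroup (P.inertia Gal(F/L)) T F) (x : T) (hx : x ≠ 0) :
    ∃ (y : L) (a c : 𝓞 F), y ≠ 0 ∧ a ∉ P ∧ c ∉ P ∧
      (x : F) * algebraMap (𝓞 F) F c = algebraMap L F y * algebraMap (𝓞 F) F a := by
  have hu := RM_unr p hp P T hT
  have hT0 : P.under (𝓞 T) ≠ ⊥ := Ideal.ne_bot_of_liesOver_of_ne_bot hp (P.under (𝓞 T))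
  let v : HeightOneSpectrum (𝓞 L) := ⟨p, inferInstance, hp⟩
  let w : HeightOneSpectrum (𝓞 T) := ⟨P.under (𝓞 T), inferInstance, hT0⟩
  have hwv : w.asIdeal.LiesOver v.asIdeal := inferInstanceAs ((P.under (𝓞 T)).LiesOver p)
  have hr : v.asIdeal.ramificationIdx' w.asIdeal = 1 := by
    rw [Ideal.ramificationIdx'_eq_ramificationIdx]
    · exact hu
    · exact hp
  obtain ⟨y, hy⟩ := v.valuation_surjective L (w.valuation T x)
  have hy1 : w.valuation T (algebraMap L T y) = w.valuation T x := by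
    rw [← hy, ← HeightOneSpectrum.valuation_liesOver T v w, hr, pow_one]
  have hwx : w.valuation T x ≠ 0 := (Valuation.ne_zero_iff _).2 hx
  have hy0 : y ≠ 0 := by
    rintro rfl
    rw [map_zero, map_zero] at hy1
    exact hwx hy1.symm
  have hy0' : algebraMap L T y ≠ 0 := by simpa using hy0
  have hq : w.valuation T (x / algebraMap L T y) = 1 := by
    rw [map_div₀, hy1, div_self hwx]
  obtain ⟨n, d, hnd⟩ := w.exists_primeCompl_mul_eq_of_integer _ hq.le
  have hn : n ∉ w.asIdeal := by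
    intro h
    have h1 : w.valuation T (algebraMap (𝓞 T) T n) < 1 := (w.valuation_lt_one_iff_mem (K := T) n).2 h
    rw [← hnd, map_mul, hq, one_mul] at h1
    exact d.2 ((w.valuation_lt_one_iff_mem (K := T) (d : 𝓞 T)).1 h1)
  refine ⟨y, algebraMap (𝓞 T) (𝓞 F) n, algebraMap (𝓞 T) (𝓞 F) d, hy0, hn, d.2, ?_⟩
  have h2 : x * algebraMap (𝓞 T) T d = algebraMap L T y * algebraMap (𝓞 T) T n := by
    rw [← hnd]
    field_simp
  have h3 := congrArg (algebraMap T F) h2
  rw [map_mul, map_mul] at h3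
  exact h3

/-- The Kummer part: some element of the inertia group acts on `δ` as multiplication with `ζ`. -/
theorem RM_kummer {L F : Type*} [Field L] [NumberField L] [Field F] [NumberField F] [Algebra L F] [IsGalois L F]
    (P : Ideal (𝓞 F)) (n : ℕ) (hn : 0 < n) (ζ : F) (hζ : IsPrimitiveRoot ζ n)
    (ζL : L) (hζL : algebraMap L F ζL = ζ) (δ : F) (d : L) (hδ0 : δ ≠ 0) (hδ : δ ^ n = algebraMap L F d)
    (hkey : ∀ m : ℕ, 0 < m → (∀ g ∈ P.inertia Gal(F/L), g (δ ^ m) = δ ^ m) → n ∣ m) :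
    ∃ g ∈ P.inertia Gal(F/L), g δ = ζ * δ := by
  have hne : NeZero n := ⟨hn.ne'⟩
  have hfix : ∀ (g : Gal(F/L)) (u : rootsOfUnity n F), g ((u : Fˣ) : F) = ((u : Fˣ) : F) := by
    intro g u
    have hu : ((u : Fˣ) : F) ^ n = 1 := by
      rw [← Units.val_pow_eq_pow_val, (mem_rootsOfUnity n _).1 u.2, Units.val_one]
    obtain ⟨i, _, hi⟩ := hζ.eq_pow_of_pow_eq_one hu
    rw [← hi, map_pow, ← hζL, g.commutes]
  let H : Subgroup (rootsOfUnity n F) :=
    { carrier := {u | ∃ g ∈ P.inertia Gal(F/L), g δ = ((u : Fˣ) : F) * δ}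
      one_mem' := ⟨1, one_mem _, by simp⟩
      mul_mem' := by
        rintro u u' ⟨g, hg, h⟩ ⟨g', hg', h'⟩
        refine ⟨g * g', mul_mem hg hg', ?_⟩
        rw [AlgEquiv.mul_apply, h', map_mul, hfix, h]
        push_cast
        ring
      inv_mem' := by
        rintro u ⟨g, hg, h⟩
        refine ⟨g⁻¹, inv_mem hg, ?_⟩
        have h1 : g⁻¹ (g δ) = δ := g.symm_apply_apply δ
        rw [h, map_mul, hfix] at h1
        have h2 : ((u : Fˣ) : F) ≠ 0 := Units.ne_zero _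
        have e : (((u⁻¹ : rootsOfUnity n F) : Fˣ) : F) = (((u : rootsOfUnity n F) : Fˣ) : F)⁻¹ := by
          simp
        rw [e]
        field_simp
        rw [mul_comm]
        exact h1 }
  have hfin : Finite H := inferInstance
  have hm : 0 < Nat.card H := Nat.card_pos
  have h1 : n ∣ Nat.card H := by
    refine hkey _ hm fun g hg => ?_
    have h2 : (g δ / δ) ^ n = 1 := by
      rw [div_pow, ← map_pow, hδ, g.commutes, ← hδ, div_self (pow_ne_zero _ hδ0)]
    have h3 : g δ / δ ≠ 0 := div_ne_zero (by simpa using hδ0) hδ0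
    let u : rootsOfUnity n F := ⟨Units.mk0 _ h3, by
      rw [mem_rootsOfUnity]
      ext
      simpa using h2⟩
    have hu : u ∈ H := ⟨g, hg, by
      change g δ = g δ / δ * δ
      field_simp⟩
    have h4 : (⟨u, hu⟩ : H) ^ Nat.card H = 1 := pow_card_eq_one'
    have h5 : (g δ / δ) ^ Nat.card H = 1 := by
      have h6 : u ^ Nat.card H = 1 := congrArg Subtype.val h4
      have h7 : (Units.mk0 _ h3) ^ Nat.card H = 1 := congrArg Subtype.val h6
      have h8 := congrArg Units.val h7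
      rw [Units.val_pow_eq_pow_val] at h8
      exact h8
    rw [div_pow, div_eq_one_iff_eq (pow_ne_zero _ hδ0)] at h5
    rw [map_pow]
    exact h5
  have h2 : Nat.card (rootsOfUnity n F) = n := hζ.card_rootsOfUnity
  have h3 : H = ⊤ := by
    apply Subgroup.eq_top_of_card_eq
    apply Nat.dvd_antisymm (Subgroup.card_subgroup_dvd_card H)
    rw [h2]
    exact h1
  have h4 : hζ.toRootsOfUnity ∈ H := by
    rw [h3]
    trivial
  obtain ⟨g, hg, h⟩ := h4
  exact ⟨g, hg, by simpa using h⟩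

variable {k : Type*} [Field k] [NumberField k] {Ω : Type*} [Field Ω] [Algebra k Ω] [IsAlgClosed Ω]
  [Algebra.IsAlgebraic k Ω] [CharZero Ω]

theorem exists_inert (L F : IntermediateField k Ω) (hLF : L ≤ F) [FiniteDimensional k F]
    (hst : ∀ g ∈ L.fixingSubgroup, ∀ x ∈ F, g x ∈ F) (A : ValuationSubring Ω) (q : ℕ)
    (hq : q.Prime) (hA : A.valuation (q : Ω) < 1) (n : ℕ) (hn : 0 < n) (ζ : Ω)
    (hζ : IsPrimitiveRoot ζ n) (hζL : ζ ∈ L) (δ d : Ω) (hδ : δ ^ n = d) (hδF : δ ∈ F) (hd : d ∈ L)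
    (hd0 : d ≠ 0) (hvd : A.valuation d < 1)
    (hgen : ∀ z ∈ L, z ≠ 0 → ∃ j : ℤ, A.valuation z = A.valuation d ^ j) :
    ∃ g ∈ L.fixingSubgroup, Inert A F g ∧ g δ = ζ * δ := by
  have hLfin : FiniteDimensional k L :=
    FiniteDimensional.of_injective (IntermediateField.inclusion hLF).toLinearMap
      (IntermediateField.inclusion_injective hLF)
  have hLn : NumberField L := FR_numberField L
  have hfin := FR_fin L F hLF
  have hgal := FR_galois L F hLF hst
  set F' : IntermediateField L Ω := IntermediateField.extendScalars hLF with hFdef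
  have hFn : NumberField F' := FR_numberField F'
  have hp0 : plc L A ≠ ⊥ := plc_ne_bot L hq.ne_zero hA
  have hP0 : plc F' A ≠ ⊥ := plc_ne_bot F' hq.ne_zero hA
  have hl : (plc F' A).LiesOver (plc L A) := FR_under L F' A
  have hδ0 : δ ≠ 0 := by
    rintro rfl
    rw [zero_pow hn.ne'] at hδ
    exact hd0 hδ.symm
  let δ' : F' := ⟨δ, hδF⟩
  let ζ' : F' := algebraMap L F' ⟨ζ, hζL⟩
  have hζ' : IsPrimitiveRoot ζ' n := by
    have : IsPrimitiveRoot (algebraMap F' Ω ζ') n := hζ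
    exact IsPrimitiveRoot.of_map_of_injective this (algebraMap F' Ω).injective
  have hδ' : δ' ^ n = algebraMap L F' ⟨d, hd⟩ := by
    apply Subtype.ext
    exact hδ
  obtain ⟨s, hs, hsδ⟩ := RM_kummer (L := L) (F := F') (plc F' A) n hn ζ' hζ' ⟨ζ, hζL⟩ rfl δ' ⟨d, hd⟩
    (fun h => hδ0 (congrArg Subtype.val h)) hδ' (by
      intro m hm hfix
      have hT := IsGaloisGroup.subgroup Gal(F'/L) L F' ((plc F' A).inertia Gal(F'/L))
      have hmem : δ' ^ m ∈ (FixedPoints.intermediateField ((plc F' A).inertia Gal(F'/L)) : IntermediateField L F') := by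
        intro g
        exact hfix g.1 g.2
      obtain ⟨y, a, c, hy0, ha, hc, hyac⟩ := RM_val (plc L A) hp0 (plc F' A) hP0 _ hT ⟨δ' ^ m, hmem⟩
        (fun h => by
          have h1 := congrArg Subtype.val h
          exact (pow_ne_zero m (fun h' : δ' = 0 => hδ0 (congrArg Subtype.val h'))) h1)
      have ha1 := not_mem_plc.1 ha
      have hc1 := not_mem_plc.1 hc
      have h2 := congrArg (fun z : F' => A.valuation (z : Ω)) hyac
      have h3 : A.valuation (δ ^ m) = A.valuation (y : Ω) := by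
        have e1 : A.valuation (δ ^ m) * A.valuation ((c : F') : Ω) = A.valuation (y : Ω) * A.valuation ((a : F') : Ω) := by
          rw [← map_mul, ← map_mul]
          exact h2
        rwa [ha1, hc1, mul_one, mul_one] at e1
      obtain ⟨j, hj⟩ := hgen (y : Ω) y.2 (fun h => hy0 (Subtype.ext h))
      rw [hj, ← hδ, map_pow, map_pow, ← zpow_natCast, ← zpow_natCast, ← zpow_mul] at h3
      have hvδ0 : A.valuation δ ≠ 0 := (Valuation.ne_zero_iff _).2 hδ0
      have hvδ1 : A.valuation δ < 1 := by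
        by_contra hge
        rw [not_lt] at hge
        rw [← hδ, map_pow] at hvd
        exact absurd hvd (not_lt.2 (one_le_pow_of_one_le' hge n))
      have h4 : ((m : ℕ) : ℤ) = (n : ℤ) * j := by
        rcases lt_trichotomy ((m : ℕ) : ℤ) ((n : ℤ) * j) with h | h | h
        · exact absurd h3 (zpow_lt_zpow_right_of_lt_one₀ (zero_lt_iff.2 hvδ0) hvδ1 h).ne'
        · exact h
        · exact absurd h3 (zpow_lt_zpow_right_of_lt_one₀ (zero_lt_iff.2 hvδ0) hvδ1 h).ne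
      exact Int.natCast_dvd_natCast.1 ⟨j, h4⟩)
  obtain ⟨φ, hφ, hφs⟩ := FR_lift F' s
  refine ⟨φ, hφ, ?_, ?_⟩
  · intro x hx hvx
    obtain ⟨a, c, hc, h⟩ := frac_rep_int F' A q hq hA (x := ⟨x, hx⟩) hvx
    have hc1 := not_mem_plc.1 hc
    have hc0 : ((c : F') : Ω) ≠ 0 := by
      intro h0
      rw [h0, map_zero] at hc1
      exact zero_ne_one hc1
    have hxe : x = ((a : F') : Ω) / ((c : F') : Ω) := by
      rw [eq_div_iff hc0]
      have := congrArg (fun z : F' => (z : Ω)) h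
      simpa using this
    have key : ∀ z : 𝓞 F', A.valuation (φ ((z : F') : Ω) - ((z : F') : Ω)) < 1 := by
      intro z
      have h2 := mem_plc.1 (hs z)
      rw [← FR_smul F' s φ (fun x => (hφs x).symm) z]
      simpa using h2
    rw [hxe, map_div₀]
    exact FR_div_congr A (key a) (key c) (FR_le_one A (FR_isIntegral F' a)) hc1
  · have h1 := hφs δ'
    rw [hsδ] at h1
    exact h1

end H16C
end

-- from Lib.H13S.IN3
section

open NumberField IsDedekindDomain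

namespace H13S

/-- Chunk IN3 (M). An element fixed by the inertia group has the value of an element of the base field.
Proof. Let I be the inertia group of W, M = IntermediateField.fixedField I, u = W ∩ M, w = W ∩ K. ramificationIdx
(W over w) = card I (Ideal.card_inertia_eq_ramificationIdxIn or the like; see also H55C.inertia_iff and Lib/H55R/X8 for the
dictionary with ramificationIdx), the inertia group of W in Gal(N/M) is I again, so ramificationIdx(W over u) = card I, and by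
multiplicativity ramificationIdx (u over w) = 1. So a uniformizer t in K at w is a uniformizer at u; y in M, y = t^n
times a unit at u, W.valuation y = W.valuation (t^n). (Valuation of N restricted to M: W.valuation (algebraMap M N z) = u.valuation z ^ e, see
H55C or H35T (A4_val, ram lemmas), or valuation_comap in Mathlib.) -/
theorem value_fixed_fin (K N : Type) [Field K] [NumberField K] [Field N] [NumberField N] [Algebra K N]
    [IsGalois K N] (W : HeightOneSpectrum (𝓞 N)) (y : N) (hy : y ≠ 0)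
    (h : ∀ s : N ≃ₐ[K] N, (∀ x : 𝓞 N, s • x - x ∈ W.asIdeal) → s y = y) :
    ∃ a : K, a ≠ 0 ∧ W.valuation N y = W.valuation N (algebraMap K N a) := by
  have hP := W.isPrime
  have hp0 : W.asIdeal.under (𝓞 K) ≠ ⊥ := Ideal.under_ne_bot (𝓞 K) W.ne_bot
  let T : IntermediateField K N := FixedPoints.intermediateField (W.asIdeal.inertia Gal(N/K))
  have hT : IsGaloisGroup (W.asIdeal.inertia Gal(N/K)) T N :=
    IsGaloisGroup.subgroup Gal(N/K) K N (W.asIdeal.inertia Gal(N/K))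
  have hyT : y ∈ T := by
    intro g
    exact h g.1 g.2
  obtain ⟨a, b, c, ha, hb, hc, he⟩ := H16C.RM_val (W.asIdeal.under (𝓞 K)) hp0 W.asIdeal W.ne_bot T hT
    ⟨y, hyT⟩ (fun h0 => hy (congrArg Subtype.val h0))
  refine ⟨a, ha, ?_⟩
  have h1 := congrArg (W.valuation N) he
  have h2 : ∀ z : 𝓞 N, z ∉ W.asIdeal → W.valuation N (algebraMap (𝓞 N) N z) = 1 := by
    intro z hz
    exact le_antisymm (W.valuation_le_one z) (not_lt.1 fun h3 => hz ((W.valuation_lt_one_iff_mem z).1 h3))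
  rw [map_mul, map_mul, h2 b hb, h2 c hc, mul_one, mul_one] at h1
  exact h1

end H13S
end

-- from Lib.H55C.B9
section

open NumberField IsDedekindDomain

namespace H55C

open H55B

/-! Chunk B9 (M): 2-adic units. conj: the pull back of a valuation subring by complex conjugation. ne_zero: exists_val.
gen_not_one: H55B.X1.even_norm is the other direction; here: for v good, Odd (Nm (gen v - 1)) (H55B.odd_norm), so 2 does
not divide gen v - 1; gen v is odd, so gen v is congruent to om or om^2 modulo 2, hence so is gen v^(2^j), and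
Nm (gen v^(2^j) - 1) is odd. EF_unit: with a = e(gen v)^f, q = a conj(a): (1 - a/q)(1 - conj(a)/q) =
(conj a - 1)(a - 1)/q, all 2-adic units (val_e_odd; q = Nm odd). inertia_pow: g e f = |G| = 2^k. -/

variable {K : Type} [Field K] [NumberField K] [Algebra F K]

theorem Unit2.mul {x y : ℂ} (hx : Unit2 x) (hy : Unit2 y) : Unit2 (x * y) := by
  intro A hA
  rw [map_mul, hx A hA, hy A hA, one_mul]

theorem Unit2.inv {x : ℂ} (hx : Unit2 x) : Unit2 x⁻¹ := by
  intro A hA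
  rw [map_inv₀, hx A hA, inv_one]

theorem B9_lt (A : ValuationSubring ℂ) {x : ℂ} (hx : x ≠ 0) : A.valuation x < 1 ↔ x⁻¹ ∉ A := by
  rw [← A.valuation_le_one_iff, map_inv₀, not_le]
  exact (one_lt_inv₀ (zero_lt_iff.2 ((Valuation.ne_zero_iff _).2 hx))).symm

theorem B9_eq (A : ValuationSubring ℂ) {x : ℂ} (hx : x ≠ 0) :
    A.valuation x = 1 ↔ x ∈ A ∧ x⁻¹ ∈ A := by
  have h1 := B9_lt A hx
  rw [← A.valuation_le_one_iff x]
  constructor
  · intro h
    refine ⟨h.le, ?_⟩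
    by_contra h2
    exact absurd h (h1.2 h2).ne
  · rintro ⟨h2, h3⟩
    refine le_antisymm h2 ?_
    by_contra h4
    exact h1.1 (not_le.1 h4) h3

theorem Unit2.ne_zero {x : ℂ} (hx : Unit2 x) : x ≠ 0 := by
  obtain ⟨A, hA⟩ := exists_val
  intro h
  have h1 := hx A hA
  rw [h, map_zero] at h1
  exact zero_ne_one h1

theorem Unit2.conj {x : ℂ} (hx : Unit2 x) : Unit2 ((starRingEnd ℂ) x) := by
  intro A hA
  have hx0 := hx.ne_zero
  have h2 : (2 : ℂ) ≠ 0 := two_ne_zero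
  set B : ValuationSubring ℂ := A.comap (starRingEnd ℂ) with hB
  have hmem : ∀ z : ℂ, z ∈ B ↔ (starRingEnd ℂ) z ∈ A := fun z => Iff.rfl
  have hB2 : B.valuation 2 < 1 := by
    rw [B9_lt B h2, hmem, map_inv₀, map_ofNat, ← B9_lt A h2]
    exact hA
  have h3 := (B9_eq B hx0).1 (hx B hB2)
  rw [hmem, hmem, map_inv₀] at h3
  exact (B9_eq A ((map_ne_zero (starRingEnd ℂ)).2 hx0)).2 h3


theorem Unit2.prod {ι : Type} (s : Finset ι) (x : ι → ℂ) (hx : ∀ i ∈ s, Unit2 (x i)) :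
    Unit2 (∏ i ∈ s, x i) := by
  intro A hA
  rw [map_prod]
  exact Finset.prod_eq_one fun i hi => hx i hi A hA

theorem Unit2.pow {x : ℂ} (hx : Unit2 x) (n : ℕ) : Unit2 (x ^ n) := by
  intro A hA
  rw [map_pow, hx A hA, one_pow]





end H55C
end

-- from Lib.H55K.W4C
section

set_option autoImplicit false

/-! # H55K, part W: the number of ideals of given degree -/

open Polynomial

open scoped Polynomial.Bivariate

namespace H55K.WZ

open WeierstrassCurve (Affine)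

variable {k : Type} [Field k] (W : Affine k)

/-- the affine points -/
noncomputable def w4c_equiv (hΔ : W.Δ ≠ 0) :
    W.Point ≃ Option {p : k × k // W.Equation p.1 p.2} where
  toFun P := match P with
    | .zero => none
    | .some x y h => some ⟨(x, y), h.1⟩
  invFun o := match o with
    | none => .zero
    | some p => .some p.1.1 p.1.2 ((Affine.equation_iff_nonsingular_of_Δ_ne_zero hΔ).1 p.2)
  left_inv P := by
    cases P with
    | zero => rfl
    | some x y h => rfl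
  right_inv o := by
    cases o with
    | none => rfl
    | some p => rfl

theorem w4c_card (hΔ : W.Δ ≠ 0) [Finite k] :
    Nat.card W.Point = Nat.card {p : k × k // W.Equation p.1 p.2} + 1 := by
  rw [Nat.card_congr (w4c_equiv W hΔ), Finite.card_option]

theorem idn_two (hΔ : W.Δ ≠ 0) [Finite k] (n : ℕ) (hn : 2 ≤ n) : idn W n = Nat.card W.Point * Nat.card k ^ (n - 1) := by
  classical
  set E := {p : k × k // W.Equation p.1 p.2} with hE
  haveI : Fintype E := Fintype.ofFinite E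
  have hq : 0 < Nat.card k ^ (n - 1) := pow_pos Nat.card_pos _
  let A := {I : Ideal W.CoordinateRing // ∃ f, f ≠ 0 ∧ nd W f = n ∧ I = Ideal.span {f}}
  let B : E → Type := fun e => {I : Ideal W.CoordinateRing // I ≠ ⊥ ∧ dg W I = n ∧
    ∃ f, f ≠ 0 ∧ I * PI W e.1.1 e.1.2 = Ideal.span {f}}
  have hA : Nat.card A = Nat.card k ^ (n - 1) := card_pr W n hn
  have hB : ∀ e, Nat.card (B e) = Nat.card k ^ (n - 1) := fun e =>
    card_prP W hΔ e.2 n (by omega)
  haveI fA : Finite A := Nat.finite_of_card_ne_zero (by rw [hA]; exact hq.ne')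
  haveI fB : ∀ e, Finite (B e) := fun e => Nat.finite_of_card_ne_zero (by rw [hB e]; exact hq.ne')
  let φ : A ⊕ (Σ e, B e) → {I : Ideal W.CoordinateRing // I ≠ ⊥ ∧ dg W I = n} := fun s =>
    match s with
    | Sum.inl a => ⟨a.1, by
        obtain ⟨f, hf, hfn, hI⟩ := a.2
        rw [hI]
        exact ⟨fun h => hf (Ideal.span_singleton_eq_bot.1 h), by rw [dg_span W hf, hfn]⟩⟩
    | Sum.inr s => ⟨s.2.1, s.2.2.1, s.2.2.2.1⟩
  have hφ : Function.Bijective φ := by
    constructor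
    · rintro (a | ⟨e, b⟩) (a' | ⟨e', b'⟩) h
      · have h1 : (φ (Sum.inl a)).1 = (φ (Sum.inl a')).1 := congrArg Subtype.val h
        have h2 : a = a' := Subtype.ext h1
        rw [h2]
      · exfalso
        have h1 : a.1 = b'.1 := congrArg Subtype.val h
        obtain ⟨f, hf, _, hI⟩ := a.2
        obtain ⟨g, hg, hJ⟩ := b'.2.2.2
        rw [← h1, hI] at hJ
        exact pr_PI W hΔ e'.2 hf hg hJ
      · exfalso
        have h1 : b.1 = a'.1 := congrArg Subtype.val h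
        obtain ⟨f, hf, _, hI⟩ := a'.2
        obtain ⟨g, hg, hJ⟩ := b.2.2.2
        rw [h1, hI] at hJ
        exact pr_PI W hΔ e.2 hf hg hJ
      · have h1 : b.1 = b'.1 := congrArg Subtype.val h
        obtain ⟨f, hf, hI⟩ := b.2.2.2
        obtain ⟨g, hg, hJ⟩ := b'.2.2.2
        rw [← h1] at hJ
        have h2 := pr_uniq W hΔ e.2 e'.2 hf hg hI hJ
        have h3 : e = e' := Subtype.ext (Prod.ext h2.1 h2.2)
        subst h3
        rw [Subtype.ext h1]
    · rintro ⟨I, hI, hIn⟩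
      obtain ⟨f, hf, h1 | ⟨x, y, hxy, h1⟩⟩ := exists_comp W hΔ hI
      · refine ⟨Sum.inl ⟨I, f, hf, ?_, h1⟩, rfl⟩
        rw [← hIn, h1, dg_span W hf]
      · exact ⟨Sum.inr ⟨⟨(x, y), hxy⟩, ⟨I, hI, hIn, f, hf, h1⟩⟩, rfl⟩
  have h1 : idn W n = Nat.card (A ⊕ (Σ e, B e)) := (Nat.card_congr (Equiv.ofBijective φ hφ)).symm
  rw [h1, Nat.card_sum, Nat.card_sigma, hA, w4c_card W hΔ]
  have h2 : ∑ e, Nat.card (B e) = Nat.card E * Nat.card k ^ (n - 1) := by
    rw [Finset.sum_congr rfl fun e _ => hB e, Finset.sum_const, smul_eq_mul, Finset.card_univ,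
      ← Nat.card_eq_fintype_card (α := E)]
  rw [h2]
  ring

theorem w4c_PI_inj (hΔ : W.Δ ≠ 0) {x y x' y' : k} (h : W.Equation x y) (h' : W.Equation x' y')
    (hP : PI W x y = PI W x' y') : x = x' ∧ y = y' := by
  obtain ⟨f, hf, h1 | ⟨a, b, hab, h1⟩⟩ := exists_comp W hΔ (dg_PI W h).1
  · exfalso
    refine pr_PI W hΔ h (f := 1) (g := f) one_ne_zero hf ?_
    rw [Ideal.span_singleton_one, Ideal.top_mul, h1]
  · have h2 : PI W a b * PI W x y = Ideal.span {f} := by rw [mul_comm, h1]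
    have h3 : PI W a b * PI W x' y' = Ideal.span {f} := by rw [← hP, h2]
    exact pr_uniq W hΔ h h' hf hf h2 h3

theorem idn_one (hΔ : W.Δ ≠ 0) [Finite k] : idn W 1 + 1 = Nat.card W.Point := by
  rw [w4c_card W hΔ]
  congr 1
  let φ : {p : k × k // W.Equation p.1 p.2} →
      {I : Ideal W.CoordinateRing // I ≠ ⊥ ∧ dg W I = 1} := fun e =>
    ⟨PI W e.1.1 e.1.2, dg_PI W e.2⟩
  have hφ : Function.Bijective φ := by
    constructor
    · intro e e' h
      have h1 : PI W e.1.1 e.1.2 = PI W e'.1.1 e'.1.2 := congrArg Subtype.val h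
      have h2 := w4c_PI_inj W hΔ e.2 e'.2 h1
      exact Subtype.ext (Prod.ext h2.1 h2.2)
    · rintro ⟨I, hI, hI1⟩
      obtain ⟨x, y, hxy, h1⟩ := PI_of_dg W hI hI1
      exact ⟨⟨(x, y), hxy⟩, Subtype.ext h1.symm⟩
  exact (Nat.card_congr (Equiv.ofBijective φ hφ)).symm

theorem idn_zero : idn W 0 = 1 := by
  unfold idn
  have h0 : (⊤ : Ideal W.CoordinateRing) ≠ ⊥ := top_ne_bot
  haveI : Unique {I : Ideal W.CoordinateRing // I ≠ ⊥ ∧ dg W I = 0} :=
    { default := ⟨⊤, h0, (dg_zero W h0).2 rfl⟩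
      uniq := fun I => Subtype.ext ((dg_zero W I.2.1).1 I.2.2) }
  exact Nat.card_unique

end H55K.WZ
end

-- from Lib.H55K.WM
section

/-! # H55K, part W: the number of points of an elliptic curve over the extensions of a finite field -/

namespace H55K

open WZ

/-- THE NUMBER OF POINTS OVER AN EXTENSION (Artin, Hasse, F. K. Schmidt). W is an elliptic curve over a finite field k, α and β are the complex numbers with
α + β = #k + 1 - #W(k) and α β = #k. Then #W(K) = #K + 1 - α^n - β^n for every extension K of degree n. -/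
theorem weil {k K : Type} [Field k] [Finite k] [Field K] [Finite K] [Algebra k K] (W : WeierstrassCurve k) (hΔ : W.Δ ≠ 0)
    (α β : ℂ) (h1 : α + β = (Nat.card k : ℂ) + 1 - (Nat.card W.toAffine.Point : ℂ)) (h2 : α * β = (Nat.card k : ℂ)) :
    (Nat.card (WeierstrassCurve.baseChange W K).toAffine.Point : ℂ) =
      (Nat.card K : ℂ) + 1 - α ^ Module.finrank k K - β ^ Module.finrank k K := by
  have hfin : Module.Finite k K := Module.Finite.of_finite
  have hn : 1 ≤ Module.finrank k K := Module.finrank_pos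
  have hK : Nat.card K = Nat.card k ^ Module.finrank k K := Module.natCard_eq_pow_finrank
  have key := alg (Nat.card k : ℂ) α β (fun n => (idn W.toAffine n : ℂ))
    (fun m => ((∑ d ∈ m.divisors, d * pn W.toAffine d : ℕ) : ℂ)) (by
      show (idn W.toAffine 0 : ℂ) = 1
      rw [idn_zero, Nat.cast_one]) (by
      have h3 := idn_one W.toAffine hΔ
      show (idn W.toAffine 1 : ℂ) = _
      have h4 : (Nat.card W.toAffine.Point : ℂ) = (idn W.toAffine 1 : ℂ) + 1 := by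
        rw [← h3]
        push_cast
        ring
      rw [h1, h4]
      ring) (by
      intro n hn'
      show (idn W.toAffine n : ℂ) = _
      rw [idn_two W.toAffine hΔ n hn', h1]
      push_cast
      ring) h2 (by
      intro n _
      show (n : ℂ) * (idn W.toAffine n : ℂ) = _
      rw [← Nat.cast_mul, recur W.toAffine hΔ n]
      push_cast
      rfl) (Module.finrank k K) hn
  have h5 := card_pt W.toAffine hΔ K
  rw [hom_card W.toAffine hΔ K] at h5
  have h6 : (Nat.card (WeierstrassCurve.baseChange W K).toAffine.Point : ℂ) =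
      1 + ((∑ d ∈ (Module.finrank k K).divisors, d * pn W.toAffine d : ℕ) : ℂ) := by
    have h7 := congrArg (fun z : ℕ => (z : ℂ)) h5
    rw [Nat.cast_add, Nat.cast_one] at h7
    exact h7
  have h8 : ((∑ d ∈ (Module.finrank k K).divisors, d * pn W.toAffine d : ℕ) : ℂ) =
      (Nat.card k : ℂ) ^ Module.finrank k K - α ^ Module.finrank k K - β ^ Module.finrank k K := key
  rw [h6, h8, hK]
  push_cast
  ring

end H55K
end

-- from Lib.H55K.D5
section

/-! # H55K, part D: the number of points over the residue fields -/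

open NumberField IsDedekindDomain WeierstrassCurve

namespace H55K.DD

/-- Chunk D5 (M). k = 𝓞 F ⧸ v.asIdeal is a finite field (Ideal.Quotient.field, finiteQuotientOfFreeOfNeBot), card absNorm v; κ = φ ∘ algebraMap : 𝓞 F → k' has kernel v.asIdeal (hv, hker), so it factors through k (Ideal.Quotient.lift): k' is a k-algebra (RingHom.toAlgebra), card k' = absNorm w = (absNorm v)^f
(φ surjective with kernel w; H55B.absNorm_inertia in Lib/H55B/F4.lean is the model: Ideal.absNorm_eq_pow_inertiaDeg'_of_liesOver, Ideal.inertiaDeg_eq_of_isMaximal), so finrank k k' = f (Module.natCard_eq_pow_finrank, Nat.pow_right_injective). H55K.weil for W = W₀⁄k (discriminant the image of W₀.Δ, nonzero by hΔ; map_Δ),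
(W₀⁄k)⁄k' = W₀.map κ (map_map). -/
theorem pts_res {F K : Type} [Field F] [NumberField F] [Field K] [NumberField K] [Algebra F K]
    (W₀ : WeierstrassCurve (𝓞 F)) (w : HeightOneSpectrum (𝓞 K)) (v : HeightOneSpectrum (𝓞 F))
    (hv : v.asIdeal = w.asIdeal.under (𝓞 F)) (hΔ : W₀.Δ ∉ v.asIdeal) (α β : ℂ)
    (h1 : α + β = (Ideal.absNorm v.asIdeal : ℂ) + 1 - (Nat.card (W₀⁄(𝓞 F ⧸ v.asIdeal)).toAffine.Point : ℂ))
    (h2 : α * β = (Ideal.absNorm v.asIdeal : ℂ)) (k' : Type) [Field k'] (φ : 𝓞 K →+* k')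
    (hφ : Function.Surjective φ) (hker : RingHom.ker φ = w.asIdeal) :
    (Nat.card (W₀.map (φ.comp (algebraMap (𝓞 F) (𝓞 K)))).toAffine.Point : ℂ) =
      (Ideal.absNorm w.asIdeal : ℂ) + 1 - α ^ (w.asIdeal.inertiaDeg (𝓞 F)) - β ^ (w.asIdeal.inertiaDeg (𝓞 F)) := by
  have hlies : w.asIdeal.LiesOver v.asIdeal := ⟨hv⟩
  have hmax : v.asIdeal.IsMaximal := v.isMaximal
  letI : Field (𝓞 F ⧸ v.asIdeal) := Ideal.Quotient.field v.asIdeal
  haveI : Finite (𝓞 F ⧸ v.asIdeal) := v.asIdeal.finiteQuotientOfFreeOfNeBot v.ne_bot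
  have e1 : (𝓞 K ⧸ RingHom.ker φ) ≃+* k' := RingHom.quotientKerEquivOfSurjective hφ
  have e2 : (𝓞 K ⧸ w.asIdeal) ≃+* (𝓞 K ⧸ RingHom.ker φ) := Ideal.quotEquivOfEq hker.symm
  have hf : Finite (𝓞 K ⧸ w.asIdeal) := w.asIdeal.finiteQuotientOfFreeOfNeBot w.ne_bot
  haveI : Finite k' := Finite.of_equiv _ (e2.trans e1).toEquiv
  have hcard' : Nat.card k' = Ideal.absNorm w.asIdeal := by
    rw [← Nat.card_congr (e2.trans e1).toEquiv, Ideal.absNorm_apply, Submodule.cardQuot_apply]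
  have hcard : Nat.card (𝓞 F ⧸ v.asIdeal) = Ideal.absNorm v.asIdeal := by
    rw [Ideal.absNorm_apply, Submodule.cardQuot_apply]
  have hnorm : Ideal.absNorm w.asIdeal = Ideal.absNorm v.asIdeal ^ (w.asIdeal.inertiaDeg (𝓞 F)) := by
    rw [Ideal.inertiaDeg_eq_of_isMaximal v.asIdeal w.asIdeal]
    have h := Ideal.absNorm_eq_pow_inertiaDeg'_of_liesOver w.asIdeal v.asIdeal v.isPrime v.ne_bot
    rw [Ideal.inertiaDeg'_algebraMap] at h
    exact h
  have hκ : ∀ a ∈ v.asIdeal, (φ.comp (algebraMap (𝓞 F) (𝓞 K))) a = 0 := by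
    intro a ha
    rw [hv, Ideal.mem_comap, ← hker, RingHom.mem_ker] at ha
    exact ha
  let ι : (𝓞 F ⧸ v.asIdeal) →+* k' := Ideal.Quotient.lift v.asIdeal (φ.comp (algebraMap (𝓞 F) (𝓞 K))) hκ
  letI : Algebra (𝓞 F ⧸ v.asIdeal) k' := ι.toAlgebra
  haveI : Module.Finite (𝓞 F ⧸ v.asIdeal) k' := Module.Finite.of_finite
  have hfin : Module.finrank (𝓞 F ⧸ v.asIdeal) k' = w.asIdeal.inertiaDeg (𝓞 F) := by
    have h3 : Nat.card k' = Nat.card (𝓞 F ⧸ v.asIdeal) ^ Module.finrank (𝓞 F ⧸ v.asIdeal) k' :=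
      Module.natCard_eq_pow_finrank
    rw [hcard', hcard, hnorm] at h3
    have h4 : 2 ≤ Ideal.absNorm v.asIdeal := by
      rw [← hcard]
      exact Finite.one_lt_card
    exact (Nat.pow_right_injective h4 h3).symm
  have hmap : W₀.map (φ.comp (algebraMap (𝓞 F) (𝓞 K))) =
      WeierstrassCurve.baseChange (W₀.map (Ideal.Quotient.mk v.asIdeal)) k' := by
    rw [WeierstrassCurve.baseChange, WeierstrassCurve.map_map]
    congr 1
  have hD : (W₀.map (Ideal.Quotient.mk v.asIdeal)).Δ ≠ 0 := by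
    rw [WeierstrassCurve.map_Δ, Ne, Ideal.Quotient.eq_zero_iff_mem]
    exact hΔ
  have key := H55K.weil (k := 𝓞 F ⧸ v.asIdeal) (K := k') (W₀.map (Ideal.Quotient.mk v.asIdeal)) hD α β
    (by rw [hcard]; exact h1) (by rw [hcard]; exact h2)
  rw [hmap, key, hfin, hcard']

end H55K.DD
end

-- from Lib.H55R.HA10
section

open NumberField IsDedekindDomain

namespace H55R

variable {K L : Type} [Field K] [NumberField K] [Field L] [NumberField L] [Algebra K L]

/-! Chunk HA10 (M): the Herbrand quotient of the T-units. Take τ, η from HA8. Apply herb_fi (HA1) to φ = Th T η, A' = Additive Lˣ × ℤ,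
σ' = (sg σ).prodMap 1, B' = (TUa T).prod ⊤: φ (pe τ a) = σ' (φ a): sum_p a(τ^-1 p) η p = sum_p a p η (τ p) = sg σ (sum_p a p η p)
(Equiv.sum_comp), and the second component is invariant because τ permutes the infinite places; injective: theta_inj; finite index:
theta_mem, theta_index; T-units are stable under σ (ord_smul, under_smulP). With herb_places, herb_prod and
herb_Z: h0(A) = product of the e f, h1(A) = 1, h0(B') = h0(TUa) n, h1(B') = h1(TUa). -/

theorem HA10_mul {A : Type} [AddCommGroup A] (f g : AddMonoid.End A) (a : A) :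
    (f * g) a = f (g a) := rfl

theorem HA10_pe_pow {P : Type} (τ : Equiv.Perm P) (k : ℕ) (a : P → ℤ) :
    ((pe τ) ^ k) a = fun p => a ((τ ^ k).symm p) := by
  induction k with
  | zero =>
    rw [pow_zero, pow_zero]
    rfl
  | succ k ih =>
    rw [pow_succ', HA10_mul, ih]
    funext p
    change a ((τ ^ k).symm (τ.symm p)) = a ((τ ^ (k + 1)).symm p)
    rw [pow_succ']
    rfl

theorem HA10_pe {P : Type} (τ : Equiv.Perm P) (n : ℕ) (h : τ ^ n = 1) : (pe τ) ^ n = 1 := by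
  ext a p
  rw [HA10_pe_pow, h]
  rfl

/-- σ on the first factor -/
def HA10_P {A : Type} [AddCommGroup A] (σ : AddMonoid.End A) : AddMonoid.End (A × ℤ) :=
  AddMonoidHom.prodMap σ (1 : AddMonoid.End ℤ)

theorem HA10_prod_pow {A : Type} [AddCommGroup A] (σ : AddMonoid.End A) (k : ℕ) (x : A × ℤ) :
    ((HA10_P σ) ^ k) x = ((σ ^ k) x.1, x.2) := by
  induction k with
  | zero => rfl
  | succ k ih =>
    rw [pow_succ', HA10_mul, ih, pow_succ', HA10_mul]
    rfl

theorem HA10_stable (σ : Gal(L/K)) (S : Finset (Pl K)) (T : Finset (Pl L))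
    (hT : ∀ W, W ∈ T ↔ W.under (𝓞 K) ∈ S) (y : Additive Lˣ) (hy : y ∈ TUa T) :
    sg σ y ∈ TUa T := by
  intro W hW
  have h := ord_smul σ (smulP σ⁻¹ W) y.toMul
  rw [← smulP_mul, mul_inv_cancel, smulP_one] at h
  have h1 : ord W (Units.map ((σ : L ≃ₐ[K] L) : L →* L) y.toMul) = 0 := by
    rw [h]
    refine hy _ ?_
    intro h2
    have h3 := (hT _).mp h2
    rw [under_smulP] at h3
    exact hW ((hT W).mpr h3)
  exact h1

theorem HA10_comm (σ : Gal(L/K)) (T : Finset (Pl L)) (τ : Equiv.Perm (T ⊕ InfinitePlace L))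
    (hτ : Tau σ T τ) (η : T ⊕ InfinitePlace L → Additive Lˣ) (hη : ∀ p, η (τ p) = sg σ (η p))
    (a : T ⊕ InfinitePlace L → ℤ) : Th T η (pe τ a) = HA10_P (sg σ) (Th T η a) := by
  classical
  refine Prod.ext ?_ ?_
  · change ∑ p, a (τ.symm p) • η p = sg σ (∑ p, a p • η p)
    rw [map_sum, ← Equiv.sum_comp τ]
    refine Finset.sum_congr rfl fun p _ => ?_
    rw [Equiv.symm_apply_apply, map_zsmul, hη]
  · change ∑ V : InfinitePlace L, a (τ.symm (Sum.inr V)) = ∑ V : InfinitePlace L, a (Sum.inr V)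
    have h1 : ∀ V : InfinitePlace L, τ.symm (Sum.inr V) = Sum.inr (σ⁻¹ • V) := by
      intro V
      rw [Equiv.symm_apply_eq, hτ.inf, smul_inv_smul]
    simp only [h1]
    exact Equiv.sum_comp (MulAction.toPerm (σ⁻¹)) fun V : InfinitePlace L => a (Sum.inr V)

theorem herbrand [IsGalois K L] (σ : Gal(L/K)) (hσ : ∀ g : Gal(L/K), g ∈ Subgroup.zpowers σ)
    (hK : ∀ v : InfinitePlace K, v.IsComplex) (S : Finset (Pl K)) (T : Finset (Pl L))
    (hT : ∀ W, W ∈ T ↔ W.under (𝓞 K) ∈ S) :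
    h0 (Module.finrank K L) (sg σ) (TUa T) ≠ 0 ∧ h1 (Module.finrank K L) (sg σ) (TUa T) ≠ 0 ∧
      h0 (Module.finrank K L) (sg σ) (TUa T) * Module.finrank K L =
        h1 (Module.finrank K L) (sg σ) (TUa T) * ∏ v ∈ S, (es K L v * fs K L v) := by
  obtain ⟨τ, hτ, hτn⟩ := exists_tau σ (S : Set (Pl K)) T (fun W => by rw [hT W]; rfl)
  obtain ⟨η, hη, hηe⟩ := exists_eta σ T τ hτ hτn
  obtain ⟨hp1, hp0⟩ := herb_places σ hσ hK S T hT τ hτ hτn
  have hn0 : Module.finrank K L ≠ 0 := Module.finrank_pos.ne'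
  have hprod : ∏ v ∈ S, (es K L v * fs K L v) ≠ 0 :=
    Finset.prod_ne_zero_iff.mpr fun v _ => mul_ne_zero (es_pos v).ne' (fs_pos v).ne'
  have hσ'n : (HA10_P (sg (K := K) (L := L) σ)) ^ Module.finrank K L = 1 := by
    refine AddMonoidHom.ext fun x => ?_
    have h := HA10_prod_pow (sg σ) (Module.finrank K L) x
    rw [sg_pow] at h
    exact h
  obtain ⟨g1, g2, g3⟩ := herb_fi (Module.finrank K L) (pe τ) (HA10_P (sg σ)) (HA10_pe τ _ hτn) hσ'n (Th T η)
    (HA10_comm σ T τ hτ η hηe) (theta_inj T η hη) ((TUa T).prod (⊤ : AddSubgroup ℤ))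
    (fun b hb => ⟨HA10_stable σ S T hT b.1 hb.1, trivial⟩) (theta_mem T η hη) (theta_index T η hη)
    (by rw [hp0]; exact hprod) (by rw [hp1]; exact one_ne_zero)
  obtain ⟨h4, h5⟩ : h0 (Module.finrank K L) (HA10_P (sg σ)) ((TUa T).prod (⊤ : AddSubgroup ℤ)) =
      h0 (Module.finrank K L) (sg σ) (TUa T) *
        h0 (Module.finrank K L) (1 : AddMonoid.End ℤ) (⊤ : AddSubgroup ℤ) ∧
      h1 (Module.finrank K L) (HA10_P (sg σ)) ((TUa T).prod (⊤ : AddSubgroup ℤ)) =
      h1 (Module.finrank K L) (sg σ) (TUa T) *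
        h1 (Module.finrank K L) (1 : AddMonoid.End ℤ) (⊤ : AddSubgroup ℤ) :=
    herb_prod (Module.finrank K L) (sg σ) (1 : AddMonoid.End ℤ) (TUa T) (⊤ : AddSubgroup ℤ)
  obtain ⟨h6, h7⟩ := herb_Z (Module.finrank K L) hn0
  rw [h6] at h4
  rw [h7, mul_one] at h5
  rw [h4] at g1
  rw [h5] at g2
  rw [hp0, hp1, h4, h5, mul_one] at g3
  exact ⟨left_ne_zero_of_mul g1, g2, by rw [← g3, mul_comm]⟩

end H55R
end

-- from Lib.H55R.HA12
section

open NumberField IsDedekindDomain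

namespace H55R

variable {K L : Type} [Field K] [NumberField K] [Field L] [NumberField L] [Algebra K L]

/-! Chunk HA12 (S/M): h0 is the index of the norms of the T-units in the S-units of K. TUa ∩ ker Dm = the T-units fixed by σ, i.e. the elements of Kˣ
which are T-units, i.e. the image of the S-units of K (ord_map, es_pos, under_exists); the image of TUa under Nm is the image of the norms
(norm_eq_Nm). The map Kˣ -> Lˣ is injective, so the relative indices agree (Subgroup.relIndex of maps under an injective map; pass between Additive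
and multiplicative). norm_mem: the norm of a T-unit is an S-unit. index_bound: herbrand, h1_le. -/

/-- units of K in L -/
noncomputable abbrev HA12_i (K L : Type) [Field K] [Field L] [Algebra K L] : Kˣ →* Lˣ :=
  Units.map (algebraMap K L : K →* L)

theorem HA12_inj : Function.Injective (HA12_i K L) :=
  Units.map_injective (algebraMap K L).injective

theorem HA12_smul (σ : Gal(L/K)) (W : Pl L) (y : Lˣ) :
    ord W (Units.map ((σ : L ≃ₐ[K] L) : L →* L) y) = ord (smulP σ⁻¹ W) y := by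
  have h := ord_smul σ (smulP σ⁻¹ W) y
  rw [← smulP_mul, mul_inv_cancel, smulP_one] at h
  exact h

theorem HA12_norm_prod [IsGalois K L] (y : Lˣ) : HA12_i K L (nrm K L y) =
    ∏ σ : Gal(L/K), Units.map ((σ : L ≃ₐ[K] L) : L →* L) y := by
  ext
  rw [Units.coe_prod]
  exact Algebra.norm_eq_prod_automorphisms K (y : L)

theorem norm_mem [IsGalois K L] (S : Finset (Pl K)) (T : Finset (Pl L))
    (hT : ∀ W, W ∈ T ↔ W.under (𝓞 K) ∈ S) :
    (SU (T : Set (Pl L))).map (nrm K L) ≤ SU (S : Set (Pl K)) := by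
  rintro x ⟨y, hy, rfl⟩ v hv
  obtain ⟨W, hW⟩ := under_exists (K := K) (L := L) v
  have h1 := ord_map W v hW (nrm K L y)
  have h2 : ord W (HA12_i K L (nrm K L y)) = 0 := by
    rw [HA12_norm_prod]
    refine Finset.prod_induction _ (fun x => ord W x = 0) ?_ (ord_one W) ?_
    · intro a b ha hb
      rw [ord_mul, ha, hb, add_zero]
    · intro σ _
      rw [HA12_smul]
      refine hy _ ?_
      intro h3
      have h4 := (hT _).mp h3
      rw [under_smulP, hW] at h4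
      exact hv h4
  have h3 : (es K L v : ℤ) * ord v (nrm K L y) = 0 := by
    rw [← h1]
    exact h2
  rcases mul_eq_zero.mp h3 with h4 | h4
  · exact absurd (by exact_mod_cast h4) (es_pos (K := K) (L := L) v).ne'
  · exact h4

theorem HA12_map [IsGalois K L] (σ : Gal(L/K)) (hσ : ∀ g : Gal(L/K), g ∈ Subgroup.zpowers σ)
    (T : Finset (Pl L)) : (TUa T).map (Nm (Module.finrank K L) (sg σ)) =
      Subgroup.toAddSubgroup (((SU (T : Set (Pl L))).map (nrm K L)).map (HA12_i K L)) := by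
  ext x
  constructor
  · rintro ⟨y, hy, rfl⟩
    exact ⟨nrm K L y.toMul, ⟨y.toMul, hy, rfl⟩, (norm_eq_Nm σ hσ y.toMul).symm⟩
  · rintro ⟨z, ⟨y, hy, rfl⟩, hz⟩
    refine ⟨Additive.ofMul y, hy, ?_⟩
    have h := norm_eq_Nm σ hσ y
    apply Additive.toMul.injective
    rw [h]
    exact hz

theorem HA12_fixed [IsGalois K L] (σ : Gal(L/K)) (hσ : ∀ g : Gal(L/K), g ∈ Subgroup.zpowers σ)
    (x : Lˣ) (hx : σ (x : L) = x) : ∃ k : Kˣ, HA12_i K L k = x := by
  have h1 : ∀ g : Gal(L/K), g (x : L) = x := by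
    intro g
    have h2 : Subgroup.zpowers σ ≤ MulAction.stabilizer (Gal(L/K)) (x : L) := by
      rw [Subgroup.zpowers_le]
      exact hx
    exact h2 (hσ g)
  obtain ⟨k, hk⟩ := (IsGalois.mem_range_algebraMap_iff_fixed (F := K) (x : L)).mpr h1
  have hk0 : k ≠ 0 := by
    rintro rfl
    rw [map_zero] at hk
    exact x.ne_zero hk.symm
  refine ⟨Units.mk0 k hk0, ?_⟩
  ext
  exact hk

theorem HA12_ker [IsGalois K L] (σ : Gal(L/K)) (hσ : ∀ g : Gal(L/K), g ∈ Subgroup.zpowers σ)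
    (S : Finset (Pl K)) (T : Finset (Pl L)) (hT : ∀ W, W ∈ T ↔ W.under (𝓞 K) ∈ S) :
    TUa T ⊓ (Dm (sg σ)).ker =
      Subgroup.toAddSubgroup ((SU (S : Set (Pl K))).map (HA12_i K L)) := by
  ext x
  constructor
  · rintro ⟨hx, hx2⟩
    have h1 : x - sg σ x = 0 := hx2
    have h2 : sg σ x = x := (sub_eq_zero.mp h1).symm
    have h3 : σ (x.toMul : L) = x.toMul := by
      have h4 := congrArg (fun z : Additive Lˣ => ((z.toMul : Lˣ) : L)) h2
      exact h4
    obtain ⟨k, hk⟩ := HA12_fixed σ hσ x.toMul h3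
    refine ⟨k, ?_, hk⟩
    intro v hv
    obtain ⟨W, hW⟩ := under_exists (K := K) (L := L) v
    have h4 := ord_map W v hW k
    have h5 : ord W (HA12_i K L k) = 0 := by
      rw [hk]
      refine hx W ?_
      intro h6
      have h7 := (hT _).mp h6
      rw [hW] at h7
      exact hv h7
    have h6 : (es K L v : ℤ) * ord v k = 0 := by
      rw [← h4]
      exact h5
    rcases mul_eq_zero.mp h6 with h7 | h7
    · exact absurd (by exact_mod_cast h7) (es_pos (K := K) (L := L) v).ne'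
    · exact h7
  · rintro ⟨k, hk, hkx⟩
    have hkx' : HA12_i K L k = x.toMul := hkx
    refine ⟨?_, ?_⟩
    · intro W hW
      change ord W x.toMul = 0
      rw [← hkx', ord_map W _ rfl k, hk _ (fun h => hW ((hT W).mpr h)), mul_zero]
    · change x - sg σ x = 0
      rw [sub_eq_zero]
      apply Additive.toMul.injective
      ext
      change (x.toMul : L) = σ (x.toMul : L)
      rw [← hkx']
      exact (σ.commutes (k : K)).symm

theorem h0_eq [IsGalois K L] (σ : Gal(L/K)) (hσ : ∀ g : Gal(L/K), g ∈ Subgroup.zpowers σ)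
    (S : Finset (Pl K)) (T : Finset (Pl L)) (hT : ∀ W, W ∈ T ↔ W.under (𝓞 K) ∈ S) :
    h0 (Module.finrank K L) (sg σ) (TUa T) =
      ((SU (T : Set (Pl L))).map (nrm K L)).relIndex (SU (S : Set (Pl K))) := by
  unfold h0
  rw [HA12_map σ hσ T, HA12_ker σ hσ S T hT, Subgroup.relIndex_toAddSubgroup,
    Subgroup.relIndex_map_map_of_injective _ _ HA12_inj]

theorem index_bound [IsGalois K L] (σ : Gal(L/K)) (hσ : ∀ g : Gal(L/K), g ∈ Subgroup.zpowers σ)
    (hK : ∀ v : InfinitePlace K, v.IsComplex) (S : Finset (Pl K)) (T : Finset (Pl L))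
    (hT : ∀ W, W ∈ T ↔ W.under (𝓞 K) ∈ S) (hS : GenS (S : Set (Pl K))) (R : Finset (Pl K))
    (hR : ∀ v, v ∉ R → es K L v = 1) :
    ((SU (T : Set (Pl L))).map (nrm K L)).relIndex (SU (S : Set (Pl K))) ≠ 0 ∧
    ((SU (T : Set (Pl L))).map (nrm K L)).relIndex (SU (S : Set (Pl K))) * Module.finrank K L ≤
      (∏ v ∈ R, es K L v) * ∏ v ∈ S, (es K L v * fs K L v) := by
  obtain ⟨h1, h2, h3⟩ := herbrand σ hσ hK S T hT
  rw [← h0_eq σ hσ S T hT]
  refine ⟨h1, ?_⟩
  rw [h3]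
  exact Nat.mul_le_mul_right _ (h1_le σ hσ S T hT hS R hR)

end H55R
end

-- from Lib.H55R.HC8
section

open NumberField IsDedekindDomain

namespace H55R

/-! The first inequality for cyclic extensions (assembly). -/

/-- The local data trivial on the S-units. -/
def Y0 (K L : Type) [Field K] [NumberField K] [Field L] [NumberField L] [Algebra K L]
    (R S : Finset (Pl K)) : Subgroup (XX R S) where
  carrier := {q | q ∈ X0 K L R S ∧ ∀ x ∈ SU (S : Set (Pl K)), Psi R S q x = 1}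
  mul_mem' := by
    rintro q r ⟨h1, h2⟩ ⟨h3, h4⟩
    refine ⟨mul_mem h1 h3, fun x hx => ?_⟩
    rw [map_mul, MonoidHom.mul_apply, h2 x hx, h4 x hx, mul_one]
  one_mem' := ⟨one_mem _, fun x _ => by rw [map_one, MonoidHom.one_apply]⟩
  inv_mem' := by
    rintro q ⟨h1, h2⟩
    refine ⟨inv_mem h1, fun x hx => ?_⟩
    rw [map_inv, MonoidHom.inv_apply, h2 x hx, inv_one]

theorem primes_finite {K : Type} [Field K] [NumberField K] (f : Ideal (𝓞 K)) (hf : f ≠ ⊥) :
    {v : Pl K | f ≤ v.asIdeal}.Finite := by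
  have h := Ideal.finite_factors hf
  refine h.subset fun v hv => ?_
  exact Ideal.dvd_iff_le.2 hv

theorem first_ineq {K L : Type} [Field K] [NumberField K] [Field L] [NumberField L] [Algebra K L]
    [IsGalois K L] (σ : Gal(L/K)) (hσ : ∀ g : Gal(L/K), g ∈ Subgroup.zpowers σ)
    (hK : ∀ v : InfinitePlace K, v.IsComplex) (f : Ideal (𝓞 K)) (hf : f ≠ ⊥)
    (hram : ∀ v : Pl K, ¬ f ≤ v.asIdeal → es K L v = 1)
    (htame : ∀ v : Pl K, es K L v ∣ Ideal.absNorm v.asIdeal - 1) :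
    ∃ Y : Subgroup (Pl K → ℂˣ), Finite Y ∧ Y ≤ RC f ∧ Module.finrank K L ≤ Nat.card Y ∧
      (∀ φ ∈ Y, φ ^ Module.finrank K L = 1) ∧
      ∀ φ ∈ Y, ∀ v : Pl K, ¬ f ≤ v.asIdeal → Spl K L v → φ v = 1 := by
  classical
  have hc : ∀ g h : Gal(L/K), g * h = h * g := by
    intro g h
    obtain ⟨i, rfl⟩ := hσ g
    obtain ⟨j, rfl⟩ := hσ h
    exact (Commute.zpow_zpow (Commute.refl σ) i j)
  obtain ⟨S, T, hT, hS, hGS, hGT⟩ := exists_S K L f hf
  obtain ⟨R, hR⟩ : ∃ R : Finset (Pl K), ∀ v, v ∈ R ↔ f ≤ v.asIdeal :=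
    ⟨(primes_finite f hf).toFinset, fun v => by simp⟩
  choose xs hxs using hGS
  have hxs' : GenX S xs := fun v => ⟨fun h => (hxs v).1 (by simpa using h),
    fun u hu huv => (hxs v).2 u (by simpa using hu) huv⟩
  have hR1 : ∀ v, v ∉ R → es K L v = 1 := fun v hv => hram v fun h => hv ((hR v).2 h)
  obtain ⟨hfin, hcard⟩ := card_X0 K L R S fun w _ => htame w
  obtain ⟨hi1, hi2⟩ := index_bound σ hσ hK S T hT (fun v => ⟨xs v, hxs v⟩) R hR1
  set N := (SU (T : Set (Pl L))).map (nrm K L) with hN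
  set U := SU (S : Set (Pl K)) with hU
  have hdc := dual_count (X := X0 K L R S) U N (norm_mem S T hT) hi1
    ((Psi R S).comp (X0 K L R S).subtype) (by
      rintro ⟨q, hq⟩ g hg
      obtain ⟨y, hy, rfl⟩ := hg
      refine Psi_norm hc R S q hq y fun W hW => ?_
      refine hy W fun hWT => ?_
      have h1 : W.under (𝓞 K) ∈ S := (hT W).1 (by simpa using hWT)
      exact hS _ h1 ((hR _).1 hW))
  -- the number of elements of Y0
  let e : {x : X0 K L R S // ∀ g ∈ U, ((Psi R S).comp (X0 K L R S).subtype) x g = 1} ≃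
      Y0 K L R S :=
    { toFun := fun x => ⟨x.1.1, x.1.2, x.2⟩
      invFun := fun q => ⟨⟨q.1, q.2.1⟩, q.2.2⟩
      left_inv := fun _ => rfl
      right_inv := fun _ => rfl }
  have hfinY : Finite (Y0 K L R S) := Finite.of_equiv _ e
  have hcY : Nat.card (Y0 K L R S) = Nat.card {x : X0 K L R S //
      ∀ g ∈ U, ((Psi R S).comp (X0 K L R S).subtype) x g = 1} := (Nat.card_congr e).symm
  have hSe : ∏ v ∈ S, (es K L v * fs K L v) = ∏ v ∈ S, fs K L v := by
    refine Finset.prod_congr rfl fun v hv => ?_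
    rw [hram v (hS v hv), one_mul]
  have hle : Module.finrank K L ≤ Nat.card (Y0 K L R S) := by
    rw [hSe, ← hcard] at hi2
    have h1 : N.relIndex U * Module.finrank K L ≤ N.relIndex U * Nat.card (Y0 K L R S) := by
      rw [hcY]
      exact hi2.trans hdc
    exact Nat.le_of_mul_le_mul_left h1 (Nat.pos_of_ne_zero hi1)
  have hinj : Function.Injective fun q : Y0 K L R S => phi f R S xs q.1 := by
    intro q r hqr
    have h1 : phi f R S xs (q.1 * r.1⁻¹) = 1 := by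
      have h2 : phi f R S xs q.1 = phi f R S xs r.1 := hqr
      have h5 : q.1 * r.1⁻¹ * r.1 = q.1 := inv_mul_cancel_right q.1 r.1
      have h3 : phi f R S xs (q.1 * r.1⁻¹) * phi f R S xs r.1 = 1 * phi f R S xs r.1 := by
        rw [← map_mul, h5, one_mul, h2]
      exact mul_right_cancel h3
    have h3 : q.1 * r.1⁻¹ ∈ Y0 K L R S := mul_mem q.2 (inv_mem r.2)
    have h4 := phi_inj f R S xs (q.1 * r.1⁻¹) hR hS hxs' h3.2 h1
    exact Subtype.ext (mul_inv_eq_one.1 h4)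
  have hmap : ∀ φ, φ ∈ (Y0 K L R S).map (phi f R S xs) ↔ ∃ q : Y0 K L R S, phi f R S xs q.1 = φ := by
    intro φ
    constructor
    · rintro ⟨q, hq, rfl⟩
      exact ⟨⟨q, hq⟩, rfl⟩
    · rintro ⟨q, rfl⟩
      exact ⟨q.1, q.2, rfl⟩
  let e2 : Y0 K L R S ≃ (Y0 K L R S).map (phi f R S xs) :=
    Equiv.ofBijective (fun q => ⟨phi f R S xs q.1, ⟨q.1, q.2, rfl⟩⟩)
      ⟨fun q r h => hinj (congrArg Subtype.val h), fun φ => by
        obtain ⟨q, hq⟩ := (hmap φ.1).1 φ.2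
        exact ⟨q, Subtype.ext hq⟩⟩
  refine ⟨(Y0 K L R S).map (phi f R S xs), Finite.of_equiv _ e2, ?_, ?_, ?_, ?_⟩
  · intro φ hφ
    obtain ⟨q, rfl⟩ := (hmap φ).1 hφ
    exact phi_RC f R S xs q.1 hR hS hxs' q.2.2
  · rw [← Nat.card_congr e2]
    exact hle
  · intro φ hφ
    obtain ⟨q, rfl⟩ := (hmap φ).1 hφ
    rw [← map_pow, phi_pow (K := K) (L := L) R S q.1 q.2.1, map_one]
  · intro φ hφ v hv hs
    obtain ⟨q, rfl⟩ := (hmap φ).1 hφ
    exact phi_split hc f R S T hT hGT xs q.1 hR hS hxs' q.2.2 q.2.1 v hv hs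

end H55R
end

-- from Lib.H55N.B10
section

open NumberField IsDedekindDomain

namespace H55N

open H55B H55C

variable {K : Type} [Field K] [NumberField K] [Algebra F K] {m : ℕ} {P : Type}

/-! Chunk B10 (M). The functions 1/Tr(A_k x) and the product cutoffs. X = D.X is stable under x -> x - w_i (Dirs.mem).
SV: 1 + |Tr(A_k, x - w)| <= (1 + C)(1 + |Tr(A_k, x)|) and conversely; gl is the inverse.
good_tr: Tr(A_k, .) is additive, |Tr(A_k, w_i)| = 0 if k <> i.1 (orth) and <= C = C (1 + |Tr(A_k, x)|) gl i x if k = i.1; so it is Good with weight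
1 + |Tr(A_k,x)| and Good.inv applies: |Tr| >= (1 + |Tr|)/2 by low.
good_pcut: each factor is 1/h_R, h_R = 1 + |Tr(A_k,x)|^2/R^2 = β_R: SV uniformly in R >= 1 (|y - w|^2 <= 2|y|^2 + 2|w|^2), h_R is Good with weight β_R: it is
1 + R^(-2) Tr conj(Tr); differences: D_i for i.1 = k is O((1+|Tr|)/R^2) <= C β_R / (1+|Tr|) because (1+|Tr|)^2 <= 4 |Tr|^2 <= 4 R^2 β_R on X;
second differences O(1/R^2) <= C β_R (1+|Tr|)^(-2); the others vanish. (Prove it by Good.mul for Tr * conj Tr with weight (1+|Tr|)^2, then multiply by R^(-2) and use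
(1+|Tr|)^2 / R^2 <= 4 β_R and Good.mono, plus the constant 1.) Good.inv, then Good.prod over k, weights prod 1/β_R <= 1 (Good.mono).
gl_gs: 1/sz x <= C gl i x (Tr_le). -/

/-- A bound for the traces of the directions. -/
noncomputable def B10_C (D : Ctx K m) (A : Fin (m + 1) → K) (w : Fin (m + 1) × Fin 2 → 𝓞 K) : ℝ :=
  1 + ∑ k, ∑ i, ‖D.Tr (A k) (w i)‖

theorem B10_le_C (D : Ctx K m) (A : Fin (m + 1) → K) (w : Fin (m + 1) × Fin 2 → 𝓞 K)
    (k : Fin (m + 1)) (i : Fin (m + 1) × Fin 2) : 1 + ‖D.Tr (A k) (w i)‖ ≤ B10_C D A w := by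
  unfold B10_C
  have h1 : ‖D.Tr (A k) (w i)‖ ≤ ∑ i, ‖D.Tr (A k) (w i)‖ :=
    Finset.single_le_sum (f := fun i => ‖D.Tr (A k) (w i)‖) (fun i _ => norm_nonneg _)
      (Finset.mem_univ i)
  have h2 : ∑ i, ‖D.Tr (A k) (w i)‖ ≤ ∑ k, ∑ i, ‖D.Tr (A k) (w i)‖ :=
    Finset.single_le_sum (f := fun k => ∑ i, ‖D.Tr (A k) (w i)‖)
      (fun k _ => Finset.sum_nonneg fun i _ => norm_nonneg _) (Finset.mem_univ k)
  linarith

theorem B10_one_le_C (D : Ctx K m) (A : Fin (m + 1) → K) (w : Fin (m + 1) × Fin 2 → 𝓞 K) :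
    1 ≤ B10_C D A w := by
  have h1 := B10_le_C D A w 0 (0, 0)
  have h2 := norm_nonneg (D.Tr (A 0) (w (0, 0)))
  linarith

theorem B10_tri (D : Ctx K m) (a : K) (x y : 𝓞 K) :
    ‖D.Tr a (x - y)‖ ≤ ‖D.Tr a x‖ + ‖D.Tr a y‖ ∧ ‖D.Tr a x‖ ≤ ‖D.Tr a (x - y)‖ + ‖D.Tr a y‖ := by
  rw [D.Tr_sub]
  refine ⟨norm_sub_le _ _, ?_⟩
  have h3 : D.Tr a x = (D.Tr a x - D.Tr a y) + D.Tr a y := by ring
  calc ‖D.Tr a x‖ = ‖(D.Tr a x - D.Tr a y) + D.Tr a y‖ := by rw [← h3]
    _ ≤ _ := norm_add_le _ _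

theorem B10_b (D : Ctx K m) (A : Fin (m + 1) → K) (w : Fin (m + 1) × Fin 2 → 𝓞 K)
    (k : Fin (m + 1)) (i : Fin (m + 1) × Fin 2) (x : 𝓞 K) :
    1 + ‖D.Tr (A k) (x - w i)‖ ≤ B10_C D A w * (1 + ‖D.Tr (A k) x‖) ∧
    1 + ‖D.Tr (A k) x‖ ≤ B10_C D A w * (1 + ‖D.Tr (A k) (x - w i)‖) := by
  obtain ⟨h1, h2⟩ := B10_tri D (A k) x (w i)
  have h3 := B10_le_C D A w k i
  have h4 := norm_nonneg (D.Tr (A k) (w i))
  have h5 := norm_nonneg (D.Tr (A k) x)
  have h6 := norm_nonneg (D.Tr (A k) (x - w i))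
  constructor <;> nlinarith

theorem B10_inv {a b C : ℝ} (ha : 0 < a) (hb : 0 < b) (h : b ≤ C * a) : a⁻¹ ≤ C * b⁻¹ := by
  rw [← div_eq_mul_inv, le_div_iff₀ hb, inv_mul_le_iff₀ ha]
  linarith

theorem sv_tr (D : Ctx K m) (A : Fin (m + 1) → K) (w : Fin (m + 1) × Fin 2 → 𝓞 K)
    (k : Fin (m + 1)) : SV D.X w fun (_ : P) x => 1 + ‖D.Tr (A k) x‖ := by
  refine ⟨fun _ x _ => by positivity, B10_C D A w, ?_⟩
  intro _ x _ i
  exact B10_b D A w k i x

theorem sv_gl (D : Ctx K m) (A : Fin (m + 1) → K) (w : Fin (m + 1) × Fin 2 → 𝓞 K) :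
    SV D.X w (D.gl A) := by
  refine ⟨fun q x _ => by unfold Ctx.gl; positivity, B10_C D A w, ?_⟩
  intro q x _ i
  obtain ⟨h1, h2⟩ := B10_b D A w q.1 i x
  unfold Ctx.gl
  exact ⟨B10_inv (by positivity) (by positivity) h2, B10_inv (by positivity) (by positivity) h1⟩

theorem sv_bl (D : Ctx K m) (A : Fin (m + 1) → K) (w : Fin (m + 1) × Fin 2 → 𝓞 K) :
    SV D.X w fun (_ : P) x => D.bl A x := by
  refine ⟨fun _ x _ => ?_, B10_C D A w ^ (m + 1), ?_⟩
  · unfold Ctx.bl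
    exact Finset.prod_pos fun k _ => by positivity
  · intro _ x _ i
    unfold Ctx.bl
    have hc : B10_C D A w ^ (m + 1) = ∏ _k : Fin (m + 1), B10_C D A w := by
      rw [Finset.prod_const, Finset.card_univ, Fintype.card_fin]
    rw [hc, ← Finset.prod_mul_distrib, ← Finset.prod_mul_distrib]
    constructor
    · apply Finset.prod_le_prod (fun k _ => by positivity)
      intro k _
      exact B10_inv (by positivity) (by positivity) (B10_b D A w k i x).2
    · apply Finset.prod_le_prod (fun k _ => by positivity)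
      intro k _
      exact B10_inv (by positivity) (by positivity) (B10_b D A w k i x).1

theorem gs_le_gl (D : Ctx K m) (A : Fin (m + 1) → K) : ∃ C : ℝ, 0 < C ∧
    (∀ x k, (D.sz x)⁻¹ ≤ C * (1 + ‖D.Tr (A k) x‖)⁻¹) ∧
    ∀ (i : Fin (m + 1) × Fin 2) x, D.gs i x ≤ C * D.gl A i x := by
  choose C hC h using fun k => Tr_le D (A k)
  have h1 : ∀ k, C k ≤ ∑ k, C k := fun k =>
    Finset.single_le_sum (f := C) (fun k _ => (hC k).le) (Finset.mem_univ k)
  have h2 : 0 < ∑ k, C k := lt_of_lt_of_le (hC 0) (h1 0)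
  have h3 : ∀ x k, (D.sz x)⁻¹ ≤ (∑ k, C k) * (1 + ‖D.Tr (A k) x‖)⁻¹ := by
    intro x k
    apply B10_inv (D.sz_pos x) (by positivity)
    exact (h k x).trans (mul_le_mul_of_nonneg_right (h1 k) (D.sz_pos x).le)
  exact ⟨∑ k, C k, h2, h3, fun i x => h3 x i.1⟩

theorem B10_X (D : Ctx K m) (A : Fin (m + 1) → K) (w : Fin (m + 1) × Fin 2 → 𝓞 K)
    (h : D.Dirs A w) : ∀ x ∈ D.X, ∀ i, x - w i ∈ D.X := fun _ hx i => D.X_sub hx (h.mem i)

theorem B10_T (D : Ctx K m) (A : Fin (m + 1) → K) (w : Fin (m + 1) × Fin 2 → 𝓞 K)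
    (h : D.Dirs A w) (k : Fin (m + 1)) : Good D.X w (D.gl A)
      (fun (_ : P) x => 1 + ‖D.Tr (A k) x‖) (fun _ x => D.Tr (A k) x) := by
  apply Good.additive (fun _ x _ => by positivity) (fun i x _ => by unfold Ctx.gl; positivity)
    (fun _ x y => D.Tr_sub (A k) x y) (B10_C D A w)
  · intro _ x _
    have h1 := B10_one_le_C D A w
    have h2 := norm_nonneg (D.Tr (A k) x)
    nlinarith
  · intro _ x _ i
    have h0 := B10_one_le_C D A w
    by_cases hk : k = i.1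
    · have h1 := B10_le_C D A w k i
      have h2 : B10_C D A w * (1 + ‖D.Tr (A k) x‖) * D.gl A i x = B10_C D A w := by
        unfold Ctx.gl
        rw [← hk]
        have : 0 < 1 + ‖D.Tr (A k) x‖ := by positivity
        field_simp
      rw [h2]
      linarith
    · rw [h.orth i k hk, norm_zero]
      unfold Ctx.gl
      positivity

theorem good_tr (D : Ctx K m) (A : Fin (m + 1) → K) (w : Fin (m + 1) × Fin 2 → 𝓞 K)
    (h : D.Dirs A w) (k : Fin (m + 1)) : Good D.X w (D.gl A)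
      (fun (_ : P) x => (1 + ‖D.Tr (A k) x‖)⁻¹) (fun _ x => (D.Tr (A k) x)⁻¹) := by
  apply Good.inv (B10_X D A w h) (sv_gl D A w) (sv_tr D A w k) (B10_T D A w h k) (1 / 2)
    (by norm_num)
  intro _ x hx
  have h1 := h.low x hx k
  linarith

/-- The functions 1 + |Tr|^2/R^2. -/
noncomputable def B10_h (D : Ctx K m) (A : Fin (m + 1) → K) (k : Fin (m + 1)) (R : ℝ) (x : 𝓞 K) :
    ℝ := 1 + ‖D.Tr (A k) x‖ ^ 2 * (R ^ 2)⁻¹

theorem B10_h_pos (D : Ctx K m) (A : Fin (m + 1) → K) (k : Fin (m + 1)) (R : ℝ) (x : 𝓞 K) :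
    1 ≤ B10_h D A k R x := by
  unfold B10_h
  have : 0 ≤ ‖D.Tr (A k) x‖ ^ 2 * (R ^ 2)⁻¹ := by positivity
  linarith

theorem B10_num (a b c r C : ℝ) (ha : 0 ≤ a) (hb : 0 ≤ b) (hc : 0 ≤ c) (h : a ≤ b + c)
    (hC : 1 + c ≤ C) (hr : 0 ≤ r) (hr1 : r ≤ 1) :
    1 + a ^ 2 * r ≤ (2 + 2 * C ^ 2) * (1 + b ^ 2 * r) := by
  have h1 : a ^ 2 ≤ 2 * b ^ 2 + 2 * c ^ 2 := by nlinarith [sq_nonneg (b - c)]
  have h2 : a ^ 2 * r ≤ (2 * b ^ 2 + 2 * c ^ 2) * r := mul_le_mul_of_nonneg_right h1 hr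
  have h3 : c ^ 2 * r ≤ c ^ 2 := by nlinarith [sq_nonneg c]
  have h4 : c ^ 2 ≤ C ^ 2 := by nlinarith
  have h5 : 0 ≤ b ^ 2 * r := by positivity
  have h6 : 0 ≤ C ^ 2 * (b ^ 2 * r) := by positivity
  nlinarith

theorem B10_sv_h (D : Ctx K m) (A : Fin (m + 1) → K) (w : Fin (m + 1) × Fin 2 → 𝓞 K)
    (R : P → ℝ) (hR : ∀ q, 1 ≤ R q) (k : Fin (m + 1)) :
    SV D.X w fun (q : P) x => B10_h D A k (R q) x := by
  refine ⟨fun q x _ => lt_of_lt_of_le one_pos (B10_h_pos D A k (R q) x),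
    2 + 2 * B10_C D A w ^ 2, ?_⟩
  intro q x _ i
  obtain ⟨h1, h2⟩ := B10_tri D (A k) x (w i)
  have h3 := B10_le_C D A w k i
  have h4 := norm_nonneg (D.Tr (A k) (w i))
  have h5 := norm_nonneg (D.Tr (A k) x)
  have h6 := norm_nonneg (D.Tr (A k) (x - w i))
  have h7 : (0 : ℝ) ≤ (R q ^ 2)⁻¹ := by positivity
  have h8 : (R q ^ 2)⁻¹ ≤ 1 := by
    apply inv_le_one_of_one_le₀
    nlinarith [hR q]
  exact ⟨B10_num _ _ _ _ _ h6 h5 h4 h1 h3 h7 h8, B10_num _ _ _ _ _ h5 h6 h4 h2 h3 h7 h8⟩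

theorem B10_fac (D : Ctx K m) (A : Fin (m + 1) → K) (w : Fin (m + 1) × Fin 2 → 𝓞 K)
    (h : D.Dirs A w) (R : P → ℝ) (hR : ∀ q, 1 ≤ R q) (k : Fin (m + 1)) : Good D.X w (D.gl A)
      (fun (_ : P) _ => (1 : ℝ)) (fun q x => ((B10_h D A k (R q) x : ℂ))⁻¹) := by
  have hX := B10_X D A w h
  have hgl := sv_gl D A w
  have hgl0 : ∀ i, ∀ x ∈ D.X, 0 ≤ D.gl A i x := fun i x _ => by unfold Ctx.gl; positivity
  have hR0 : ∀ q, 0 < R q := fun q => lt_of_lt_of_le one_pos (hR q)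
  -- the square
  have g1 := Good.mul hX hgl (sv_tr (P := P) D A w k) (sv_tr (P := P) D A w k)
    (B10_T D A w h k) (Good.conj (B10_T D A w h k))
  have svR : SV D.X w fun (q : P) (_ : 𝓞 K) => (R q ^ 2)⁻¹ := by
    refine ⟨fun q x _ => by have := hR0 q; positivity, 1, ?_⟩
    intro q x _ i
    constructor <;> linarith
  have g2 : Good D.X w (D.gl A) (fun (q : P) (_ : 𝓞 K) => (R q ^ 2)⁻¹)
      (fun q _ => (((R q ^ 2)⁻¹ : ℝ) : ℂ)) := by
    apply Good.const (fun q x _ => by positivity) hgl0 _ 1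
    intro q x _
    rw [Complex.norm_real, Real.norm_eq_abs, abs_of_nonneg (by positivity), one_mul]
  have g3 := Good.mul hX hgl (SV.mul hX (sv_tr (P := P) D A w k) (sv_tr (P := P) D A w k)) svR g1 g2
  have g4 : Good D.X w (D.gl A) (fun (q : P) x => B10_h D A k (R q) x)
      (fun q x => D.Tr (A k) x * (starRingEnd ℂ) (D.Tr (A k) x) * (((R q ^ 2)⁻¹ : ℝ) : ℂ)) := by
    apply Good.mono g3 hgl0 4 (by norm_num)
    · intro q x hx
      have h1 := h.low x hx k
      have h2 : (0 : ℝ) ≤ (R q ^ 2)⁻¹ := by positivity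
      refine ⟨by positivity, ?_⟩
      unfold B10_h
      have h3 : (1 + ‖D.Tr (A k) x‖) * (1 + ‖D.Tr (A k) x‖) ≤ 4 * ‖D.Tr (A k) x‖ ^ 2 := by
        nlinarith
      have h4 := mul_le_mul_of_nonneg_right h3 h2
      nlinarith
    · intro i x hx
      have := hgl0 i x hx
      linarith
  have g5 : Good D.X w (D.gl A) (fun (q : P) x => B10_h D A k (R q) x)
      (fun _ _ => (1 : ℂ)) := by
    apply Good.const (fun q x _ => (zero_le_one.trans (B10_h_pos D A k (R q) x))) hgl0 _ 1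
    intro q x _
    rw [norm_one, one_mul]
    exact B10_h_pos D A k (R q) x
  have g6 := Good.add g5 g4
  have g7 : Good D.X w (D.gl A) (fun (q : P) x => B10_h D A k (R q) x)
      (fun q x => (B10_h D A k (R q) x : ℂ)) := by
    have e : (fun (q : P) (x : 𝓞 K) => (B10_h D A k (R q) x : ℂ)) = fun (q : P) (x : 𝓞 K) =>
        (1 : ℂ) + D.Tr (A k) x * (starRingEnd ℂ) (D.Tr (A k) x) * (((R q ^ 2)⁻¹ : ℝ) : ℂ) := by
      funext q x
      unfold B10_h
      rw [Complex.mul_conj, Complex.normSq_eq_norm_sq]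
      push_cast
      ring
    rw [e]
    exact g6
  have g8 := Good.inv hX hgl (B10_sv_h D A w R hR k) g7 1 one_pos (by
    intro q x _
    rw [Complex.norm_real, Real.norm_eq_abs, one_mul]
    exact le_abs_self _)
  apply Good.mono g8 hgl0 1 zero_le_one
  · intro q x _
    have h1 := B10_h_pos D A k (R q) x
    refine ⟨by positivity, ?_⟩
    rw [mul_one]
    exact inv_le_one_of_one_le₀ h1
  · intro i x _
    rw [one_mul]

theorem good_pcut (D : Ctx K m) (A : Fin (m + 1) → K) (w : Fin (m + 1) × Fin 2 → 𝓞 K)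
    (h : D.Dirs A w) (R : P → ℝ) (hR : ∀ q, 1 ≤ R q) : Good D.X w (D.gl A)
      (fun (_ : P) _ => (1 : ℝ)) (fun q x => (D.pcut A (R q) x : ℂ)) := by
  have h1 := Good.prod (B10_X D A w h) (sv_gl D A w) (Finset.univ : Finset (Fin (m + 1)))
    (fun _ (_ : P) _ => (1 : ℝ)) (fun k q x => ((B10_h D A k (R q) x : ℂ))⁻¹)
    (fun _ _ => SV.one) (fun k _ => B10_fac D A w h R hR k)
  simp only [Finset.prod_const_one] at h1
  have e : (fun (q : P) (x : 𝓞 K) => (D.pcut A (R q) x : ℂ)) = fun (q : P) (x : 𝓞 K) =>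
      ∏ k, ((B10_h D A k (R q) x : ℂ))⁻¹ := by
    funext q x
    unfold Ctx.pcut
    rw [Complex.ofReal_prod]
    refine Finset.prod_congr rfl fun k _ => ?_
    rw [← Complex.ofReal_inv]
    congr 1
    unfold B10_h
    have hR0 : 0 < R q := lt_of_lt_of_le one_pos (hR q)
    field_simp
  rw [e]
  exact h1

end H55N
end

-- from Lib.H55N.R4
section

open NumberField IsDedekindDomain

namespace H55N

open H55B H55C

variable {K : Type} [Field K] [NumberField K] [Algebra F K] {m : ℕ}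

/-! Chunk R4 (M). The determinant of admissible labels is Good. Idet L x = sum over permutations of sign * prod_j row (L j) x (perm j) (Matrix.det_apply). For a
label T t, t > 0: row is Good with weight sz^(-1) and gains gs (good_row with P = Unit, a, b = min, max of t; D.X stable, 0 not in D.X), hence with gains gl. For a label
A (A_k): row = σ_i(A_k) * (Tr(A_k x))^(-1), Good with weight (1+|Tr(A_k x)|)^(-1) (good_tr, Good.smul). Good.prod over j: weight
prod_{j of type T} sz^(-1) * prod_{j of type A} (1+|Tr(A_(κ j) x)|)^(-1) <= C bl A x: κ is injective on the indices of type A, so the complement of the image of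
these indices has as many elements as there are indices of type T, and sz^(-1) <= C (1+|Tr(A_k x)|)^(-1) for every k (gs_le_gl). Good.mono, Good.sum, sv_sz, sv_tr. -/

theorem r4_X (D : Ctx K m) {A : Fin (m + 1) → K} {w : Fin (m + 1) × Fin 2 → 𝓞 K}
    (hdir : D.Dirs A w) : ∀ x ∈ D.X, ∀ i, x - w i ∈ D.X :=
  fun _ hx i => D.X_sub hx (hdir.mem i)

theorem r4_gl (D : Ctx K m) (A : Fin (m + 1) → K) :
    ∀ (i : Fin (m + 1) × Fin 2), ∀ x ∈ D.X, 0 ≤ D.gl A i x :=
  fun i x _ => by unfold Ctx.gl; positivity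

theorem r4_gs (D : Ctx K m) :
    ∀ (i : Fin (m + 1) × Fin 2), ∀ x ∈ D.X, 0 ≤ D.gs i x :=
  fun _ x _ => (inv_pos.mpr (D.sz_pos x)).le

/-- The weight of a label. -/
noncomputable def r4wt (D : Ctx K m) (A : Fin (m + 1) → K) (l : Lab K m) (k : Fin (m + 1))
    (_ : Unit) (x : 𝓞 K) : ℝ :=
  match l with
  | .T _ => (D.sz x)⁻¹
  | .A _ => (1 + ‖D.Tr (A k) x‖)⁻¹

theorem r4wt_pos (D : Ctx K m) (A : Fin (m + 1) → K) (l : Lab K m) (k : Fin (m + 1))
    (q : Unit) (x : 𝓞 K) : 0 < r4wt D A l k q x := by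
  cases l with
  | T t => exact inv_pos.2 (D.sz_pos x)
  | A a =>
    show 0 < (1 + ‖D.Tr (A k) x‖)⁻¹
    positivity

theorem r4_sv (D : Ctx K m) (A : Fin (m + 1) → K) (w : Fin (m + 1) × Fin 2 → 𝓞 K)
    (hdir : D.Dirs A w) (l : Lab K m) (k : Fin (m + 1)) : SV D.X w (r4wt D A l k) := by
  cases l with
  | T t => exact SV.inv (r4_X D hdir) (sv_sz (P := Unit) D w D.X)
  | A a => exact SV.inv (r4_X D hdir) (sv_tr (P := Unit) D A w k)

theorem r4_row (D : Ctx K m) (hD : D.Ok) (A : Fin (m + 1) → K)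
    (w : Fin (m + 1) × Fin 2 → 𝓞 K) (hdir : D.Dirs A w) (l : Lab K m) (k : Fin (m + 1))
    (hT : ∀ t, l = .T t → ∀ i, 0 < t i) (hA : ∀ a, l = .A a → a = A k) (i : Fin (m + 1)) :
    Good D.X w (D.gl A) (r4wt D A l k) (fun _ x => D.row l x i) := by
  have h0 : (0 : 𝓞 K) ∉ D.X := fun h => D.X_ne hD.ne h rfl
  cases l with
  | T t =>
    obtain ⟨i0, hi0⟩ := Finite.exists_min t
    obtain ⟨i1, hi1⟩ := Finite.exists_max t
    have h1 := good_row (P := Unit) D hD.emb w D.X (r4_X D hdir) h0 (fun _ => t) (t i0) (t i1)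
      (hT t rfl i0) (fun _ i => ⟨hi0 i, hi1 i⟩) i
    obtain ⟨C, hC, _, hC2⟩ := gs_le_gl D A
    refine Good.mono h1 (r4_gs D) (max 1 C) (by positivity) (fun q x _ => ⟨?_, ?_⟩)
      (fun j x hx => ?_)
    · exact (inv_pos.2 (D.sz_pos x)).le
    · show (D.sz x)⁻¹ ≤ max 1 C * (D.sz x)⁻¹
      have : 0 < (D.sz x)⁻¹ := inv_pos.2 (D.sz_pos x)
      have h2 := le_max_left 1 C
      nlinarith
    · exact (hC2 j x).trans (mul_le_mul_of_nonneg_right (le_max_right _ _) (r4_gl D A j x hx))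
  | A a =>
    obtain rfl := hA a rfl
    have h1 := Good.smul (good_tr (P := Unit) D A w hdir k) (r4_gl D A) (fun _ x _ => by
      positivity) (fun _ => D.σ i (A k)) ‖D.σ i (A k)‖ (fun _ => le_rfl)
    exact h1

theorem r4_prod (D : Ctx K m) (A : Fin (m + 1) → K) (L : Fin (m + 1) → Lab K m)
    (κ : Fin (m + 1) → Fin (m + 1)) (hκ : Set.InjOn κ {j | ∃ a, L j = .A a}) :
    ∃ c : ℝ, 0 ≤ c ∧ ∀ x, ∏ j, r4wt D A (L j) (κ j) () x ≤ c * D.bl A x := by
  classical
  obtain ⟨C, hC, hC1, _⟩ := gs_le_gl D A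
  set C' := max 1 C with hC'
  refine ⟨C' ^ (m + 1), by positivity, fun x => ?_⟩
  set S : Finset (Fin (m + 1)) := Finset.univ.filter fun j => ∃ a, L j = .A a with hS
  have hcard : Fintype.card (Fin (m + 1)) = (Finset.univ : Finset (Fin (m + 1))).card := by
    rw [Finset.card_univ]
  obtain ⟨g, hg⟩ := Finset.exists_equiv_extend_of_card_eq (s := S) (f := κ) hcard
    (Finset.subset_univ _) (by
      intro i hi j hj hij
      rw [hS, Finset.coe_filter] at hi hj
      exact hκ hi.2 hj.2 hij)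
  have h1 : ∀ j, r4wt D A (L j) (κ j) () x ≤ C' * (1 + ‖D.Tr (A (g j)) x‖)⁻¹ := by
    intro j
    have hp : 0 ≤ (1 + ‖D.Tr (A (g j)) x‖)⁻¹ := by positivity
    by_cases hj : ∃ a, L j = .A a
    · have hj' : j ∈ S := by
        rw [hS, Finset.mem_filter]
        exact ⟨Finset.mem_univ _, hj⟩
      obtain ⟨a, ha⟩ := hj
      rw [hg j hj'] at hp ⊢
      rw [ha]
      show (1 + ‖D.Tr (A (κ j)) x‖)⁻¹ ≤ _
      have := le_max_left 1 C
      nlinarith
    · have : ∃ t, L j = .T t := by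
        cases hl : L j with
        | T t => exact ⟨t, rfl⟩
        | A a => exact absurd ⟨a, hl⟩ hj
      obtain ⟨t, ht⟩ := this
      rw [ht]
      show (D.sz x)⁻¹ ≤ _
      exact (hC1 x (g j)).trans (mul_le_mul_of_nonneg_right (le_max_right _ _) hp)
  calc ∏ j, r4wt D A (L j) (κ j) () x ≤ ∏ j, (C' * (1 + ‖D.Tr (A (g j)) x‖)⁻¹) :=
        Finset.prod_le_prod (fun j _ => (r4wt_pos D A _ _ _ x).le) fun j _ => h1 j
    _ = C' ^ (m + 1) * ∏ j, (1 + ‖D.Tr (A (g j)) x‖)⁻¹ := by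
        rw [Finset.prod_mul_distrib, Finset.prod_const, Finset.card_univ, Fintype.card_fin]
    _ = C' ^ (m + 1) * D.bl A x := by
        congr 1
        unfold Ctx.bl
        have h2 : ∏ j, (1 + ‖D.Tr (A (g j)) x‖)⁻¹ =
            ∏ k : (Finset.univ : Finset (Fin (m + 1))), (1 + ‖D.Tr (A k) x‖)⁻¹ :=
          g.prod_comp (fun k : (Finset.univ : Finset (Fin (m + 1))) => (1 + ‖D.Tr (A k) x‖)⁻¹)
        rw [h2, Finset.prod_coe_sort Finset.univ (fun k => (1 + ‖D.Tr (A k) x‖)⁻¹)]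

theorem good_idet (D : Ctx K m) (hD : D.Ok) (A : Fin (m + 1) → K)
    (w : Fin (m + 1) × Fin 2 → 𝓞 K) (hdir : D.Dirs A w) (L : Fin (m + 1) → Lab K m)
    (κ : Fin (m + 1) → Fin (m + 1)) (hT : ∀ j t, L j = .T t → ∀ i, 0 < t i)
    (hA : ∀ j a, L j = .A a → a = A (κ j)) (hκ : Set.InjOn κ {j | ∃ a, L j = .A a}) :
    Good D.X w (D.gl A) (fun (_ : Unit) x => D.bl A x) (fun _ => D.Idet L) := by
  obtain ⟨c, hc, hle⟩ := r4_prod D A L κ hκ
  have hX := r4_X D hdir
  have hgl := r4_gl D A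
  have h1 : ∀ τ : Equiv.Perm (Fin (m + 1)), Good D.X w (D.gl A)
      (fun q x => ∏ j, r4wt D A (L j) (κ j) q x)
      (fun (_ : Unit) x => ((Equiv.Perm.sign τ : ℤ) : ℂ) * ∏ j, D.row (L (τ j)) x j) := by
    intro τ
    have h2 := Good.prod hX (sv_gl D A w) Finset.univ
      (fun j q x => r4wt D A (L (τ j)) (κ (τ j)) q x)
      (fun j (_ : Unit) x => D.row (L (τ j)) x j)
      (fun j _ => r4_sv D A w hdir (L (τ j)) (κ (τ j)))
      (fun j _ => r4_row D hD A w hdir (L (τ j)) (κ (τ j)) (hT (τ j)) (hA (τ j)) j)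
    have h3 : (fun (q : Unit) (x : 𝓞 K) => ∏ j, r4wt D A (L (τ j)) (κ (τ j)) q x) =
        fun q x => ∏ j, r4wt D A (L j) (κ j) q x := by
      funext q x
      exact Equiv.prod_comp τ (fun j => r4wt D A (L j) (κ j) q x)
    rw [h3] at h2
    exact Good.smul h2 hgl
      (fun q x _ => Finset.prod_nonneg fun j _ => (r4wt_pos D A _ _ _ x).le)
      (fun _ => ((Equiv.Perm.sign τ : ℤ) : ℂ)) ‖((Equiv.Perm.sign τ : ℤ) : ℂ)‖ (fun _ => le_rfl)
  have h4 := Good.sum (Finset.univ : Finset (Equiv.Perm (Fin (m + 1)))) _ (fun τ _ => h1 τ) hgl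
    (fun q x _ => Finset.prod_nonneg fun j _ => (r4wt_pos D A _ _ _ x).le)
  have h5 : (fun (_ : Unit) => D.Idet L) = fun (_ : Unit) x =>
      ∑ τ : Equiv.Perm (Fin (m + 1)), ((Equiv.Perm.sign τ : ℤ) : ℂ) *
        ∏ j, D.row (L (τ j)) x j := by
    funext _ x
    unfold Ctx.Idet
    rw [Matrix.det_apply']
    rfl
  rw [h5]
  refine Good.mono h4 hgl (max 1 c) (by positivity) (fun q x _ => ⟨?_, ?_⟩) (fun j x hx => ?_)
  · exact Finset.prod_nonneg fun j _ => (r4wt_pos D A _ _ _ x).le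
  · refine (hle x).trans (mul_le_mul_of_nonneg_right (le_max_right _ _) ?_)
    unfold Ctx.bl
    exact Finset.prod_nonneg fun k _ => by positivity
  · have := hgl j x hx
    have h6 := le_max_left 1 c
    nlinarith

end H55N
end

-- from Lib.H55N.B14
section

open NumberField IsDedekindDomain MeasureTheory

namespace H55N

open H55B H55C

variable {K : Type} [Field K] [NumberField K] [Algebra F K] {m : ℕ}
  {P ι : Type} [Fintype ι] [DecidableEq ι]

/-! Chunk B14 (M/L). Complex powers of the quadratic forms.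
good_tau: h = 1 + τ Q_t(x), β = h itself on Y: SV uniformly in τ > 0, a <= t <= b (c sz^2 <= Q_t <= C sz^2 on Y by Q_low, Q_up, and sz is SV); h is Good with
weight β (Q_t is Good with weight sz^2, good_Q; τ sz^2 <= C β; the constant 1); Good.inv, Good.pow.
good_Qpow: choose a natural number k > r1. For every y in Y: Q^(-z) = B(z)^(-1) int_0^oo τ^(z-1) (1+τ Q)^(-k) dτ (beta_eq), B(z) = Gamma(z) Gamma(k-z)/Gamma(k), so
D_S Q^(-z)(x) = B(z)^(-1) int τ^(z-1) D_S (1+τ Q)^(-k)(x) dτ and |..| <= |B(z)|^(-1) C int τ^(Re z - 1) (1+τ Q_t(x))^(-k) dτ prod γ =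
C B(Re z)/|B(z)| Q_t(x)^(-Re z) prod γ, with good_tau (P replaced by P x {τ > 0}); |B(z)| is bounded below and B(Re z) above on the compact set r0 <= Re z <= r1, |z| <= M
(continuous, Gamma has no zeros); Q_t(x)^(-Re z) <= C sz^(-2 Re z) <= C sz^(-2 r0). -/

theorem B14_tau_sv (D : Ctx K m) (hE : Emb D.σ) (w : ι → 𝓞 K) (Y : Set (𝓞 K))
    (hY : ∀ x ∈ Y, ∀ i, x - w i ∈ Y) (h0 : (0 : 𝓞 K) ∉ Y) (t : P → Fin (m + 1) → ℝ) (a b : ℝ)
    (ha : 0 < a) (ht : ∀ q i, a ≤ t q i ∧ t q i ≤ b) (τ : P → ℝ) (hτ : ∀ q, 0 < τ q) :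
    SV Y w (fun q x => 1 + τ q * D.Q (t q) x) := by
  obtain ⟨c, hc, hlow⟩ := Q_low D hE a ha
  obtain ⟨C, hC, hup⟩ := Q_up D |b| (abs_nonneg b)
  obtain ⟨_, C1, hC1⟩ := SV.pow hY (sv_sz (P := Unit) D w Y) 2
  have hne : ∀ x ∈ Y, x ≠ 0 := fun x hx h => h0 (h ▸ hx)
  have habs : ∀ q i, |t q i| ≤ |b| := by
    intro q i
    rw [abs_of_pos (lt_of_lt_of_le ha (ht q i).1)]
    exact (ht q i).2.trans (le_abs_self b)
  have hl : ∀ q, ∀ x ∈ Y, c * D.sz x ^ 2 ≤ D.Q (t q) x := fun q x hx =>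
    hlow (t q) (fun i => (ht q i).1) x (hne x hx)
  have hu : ∀ q x, D.Q (t q) x ≤ C * D.sz x ^ 2 := fun q x =>
    (le_abs_self _).trans (hup (t q) (habs q) x)
  have hQpos : ∀ q, ∀ x ∈ Y, 0 < D.Q (t q) x := fun q x hx =>
    lt_of_lt_of_le (mul_pos hc (pow_pos (D.sz_pos x) 2)) (hl q x hx)
  have key : ∀ q, ∀ x ∈ Y, ∀ y ∈ Y, D.sz x ^ 2 ≤ C1 * D.sz y ^ 2 →
      1 + τ q * D.Q (t q) x ≤ max 1 (C * C1 / c) * (1 + τ q * D.Q (t q) y) := by
    intro q x hx y hy h
    have h1 : D.Q (t q) x ≤ (C * C1 / c) * D.Q (t q) y := by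
      have hC1' : 0 ≤ C1 := by
        by_contra hneg
        push Not at hneg
        have h2 : 0 < D.sz x ^ 2 := pow_pos (D.sz_pos x) 2
        have h3 : 0 < D.sz y ^ 2 := pow_pos (D.sz_pos y) 2
        have h4 := mul_neg_of_neg_of_pos hneg h3
        linarith
      calc D.Q (t q) x ≤ C * D.sz x ^ 2 := hu q x
        _ ≤ C * (C1 * D.sz y ^ 2) := mul_le_mul_of_nonneg_left h hC.le
        _ = (C * C1 / c) * (c * D.sz y ^ 2) := by field_simp
        _ ≤ (C * C1 / c) * D.Q (t q) y :=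
          mul_le_mul_of_nonneg_left (hl q y hy) (by positivity)
    have h2 : D.Q (t q) x ≤ max 1 (C * C1 / c) * D.Q (t q) y :=
      h1.trans (mul_le_mul_of_nonneg_right (le_max_right _ _) (hQpos q y hy).le)
    have h3 := mul_le_mul_of_nonneg_left h2 (hτ q).le
    have h4 : (1 : ℝ) ≤ max 1 (C * C1 / c) := le_max_left _ _
    nlinarith
  refine ⟨fun q x hx => ?_, max 1 (C * C1 / c), fun q x hx i => ⟨?_, ?_⟩⟩
  · have := mul_pos (hτ q) (hQpos q x hx)
    linarith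
  · exact key q _ (hY x hx i) x hx (hC1 () x hx i).1
  · exact key q x hx _ (hY x hx i) (hC1 () x hx i).2

theorem B14_tau_good (D : Ctx K m) (hE : Emb D.σ) (w : ι → 𝓞 K) (Y : Set (𝓞 K))
    (hY : ∀ x ∈ Y, ∀ i, x - w i ∈ Y) (h0 : (0 : 𝓞 K) ∉ Y) (t : P → Fin (m + 1) → ℝ) (a b : ℝ)
    (ha : 0 < a) (ht : ∀ q i, a ≤ t q i ∧ t q i ≤ b) (τ : P → ℝ) (hτ : ∀ q, 0 < τ q) :
    Good Y w D.gs (fun q x => 1 + τ q * D.Q (t q) x)
      (fun q x => 1 + (τ q : ℂ) * (D.Q (t q) x : ℂ)) := by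
  obtain ⟨c, hc, hlow⟩ := Q_low D hE a ha
  have hne : ∀ x ∈ Y, x ≠ 0 := fun x hx h => h0 (h ▸ hx)
  have habs : ∀ q i, |t q i| ≤ |b| := by
    intro q i
    rw [abs_of_pos (lt_of_lt_of_le ha (ht q i).1)]
    exact (ht q i).2.trans (le_abs_self b)
  have hl : ∀ q, ∀ x ∈ Y, c * D.sz x ^ 2 ≤ D.Q (t q) x := fun q x hx =>
    hlow (t q) (fun i => (ht q i).1) x (hne x hx)
  have hQpos : ∀ q, ∀ x ∈ Y, 0 < D.Q (t q) x := fun q x hx =>
    lt_of_lt_of_le (mul_pos hc (pow_pos (D.sz_pos x) 2)) (hl q x hx)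
  have hβ : ∀ q, ∀ x ∈ Y, 0 ≤ 1 + τ q * D.Q (t q) x := by
    intro q x hx
    have := mul_pos (hτ q) (hQpos q x hx)
    linarith
  have hγ : ∀ i : ι, ∀ x ∈ Y, 0 ≤ D.gs i x := fun i x _ => inv_nonneg.2 (D.sz_pos x).le
  refine Good.add ?_ ?_
  · refine Good.const hβ hγ (fun _ => 1) 1 ?_
    intro q x hx
    have := mul_pos (hτ q) (hQpos q x hx)
    rw [norm_one]
    linarith
  · obtain ⟨C, hC⟩ := good_Q D w Y hY t |b| habs
    refine ⟨|C| / c, ?_⟩
    intro q S x hx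
    have e1 : Dif w S ((fun q x => (τ q : ℂ) * (D.Q (t q) x : ℂ)) q) x =
        (τ q : ℂ) * Dif w S (fun x => (D.Q (t q) x : ℂ)) x :=
      dif_const_mul w S (τ q : ℂ) (fun x => (D.Q (t q) x : ℂ)) x
    have hp0 : 0 ≤ ∏ i ∈ S, D.gs i x := Finset.prod_nonneg fun i _ => hγ i x hx
    rw [e1, norm_mul, Complex.norm_real, Real.norm_eq_abs, abs_of_pos (hτ q)]
    have h1 := hC q S x hx
    have h2 : C * D.sz x ^ 2 ≤ |C| / c * D.Q (t q) x := by
      calc C * D.sz x ^ 2 ≤ |C| * D.sz x ^ 2 :=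
            mul_le_mul_of_nonneg_right (le_abs_self C) (by positivity)
        _ = |C| / c * (c * D.sz x ^ 2) := by field_simp
        _ ≤ |C| / c * D.Q (t q) x := mul_le_mul_of_nonneg_left (hl q x hx) (by positivity)
    calc τ q * ‖Dif w S (fun x => (D.Q (t q) x : ℂ)) x‖
        ≤ τ q * ((|C| / c * D.Q (t q) x) * ∏ i ∈ S, D.gs i x) :=
          mul_le_mul_of_nonneg_left (h1.trans (mul_le_mul_of_nonneg_right h2 hp0)) (hτ q).le
      _ = (|C| / c * (τ q * D.Q (t q) x)) * ∏ i ∈ S, D.gs i x := by ring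
      _ ≤ |C| / c * (1 + τ q * D.Q (t q) x) * ∏ i ∈ S, D.gs i x := by
          apply mul_le_mul_of_nonneg_right _ hp0
          apply mul_le_mul_of_nonneg_left _ (by positivity)
          linarith

theorem good_tau (D : Ctx K m) (hE : Emb D.σ) (w : ι → 𝓞 K) (Y : Set (𝓞 K))
    (hY : ∀ x ∈ Y, ∀ i, x - w i ∈ Y) (h0 : (0 : 𝓞 K) ∉ Y) (t : P → Fin (m + 1) → ℝ) (a b : ℝ)
    (ha : 0 < a) (ht : ∀ q i, a ≤ t q i ∧ t q i ≤ b) (τ : P → ℝ) (hτ : ∀ q, 0 < τ q) (k : ℕ) :
    Good Y w D.gs (fun q x => ((1 + τ q * D.Q (t q) x) ^ k)⁻¹)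
      (fun q x => ((((1 + τ q * D.Q (t q) x) ^ k)⁻¹ : ℝ) : ℂ)) := by
  have hsv := B14_tau_sv D hE w Y hY h0 t a b ha ht τ hτ
  have hg := B14_tau_good D hE w Y hY h0 t a b ha ht τ hτ
  have hγ := sv_gs D w Y
  have hinv := Good.inv hY hγ hsv hg 1 one_pos (by
    intro q x hx
    have h1 := hsv.1 q x hx
    have h2 : (1 + (τ q : ℂ) * (D.Q (t q) x : ℂ)) = ((1 + τ q * D.Q (t q) x : ℝ) : ℂ) := by
      push_cast; ring
    rw [one_mul, h2, Complex.norm_real, Real.norm_eq_abs, abs_of_pos h1])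
  have hpow := Good.pow hY hγ (SV.inv hY hsv) hinv k
  have e1 : (fun (q : P) (x : 𝓞 K) => ((1 + τ q * D.Q (t q) x) ^ k)⁻¹) =
      fun q x => ((1 + τ q * D.Q (t q) x)⁻¹) ^ k := by
    funext q x
    rw [inv_pow]
  have e2 : (fun (q : P) (x : 𝓞 K) => ((((1 + τ q * D.Q (t q) x) ^ k)⁻¹ : ℝ) : ℂ)) =
      fun q x => ((1 + (τ q : ℂ) * (D.Q (t q) x : ℂ))⁻¹) ^ k := by
    funext q x
    rw [inv_pow]
    push_cast
    ring
  rw [e1, e2]
  exact hpow

/-- The normalising factor of the beta integral. -/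
noncomputable def B14_B (k : ℕ) (z : ℂ) : ℂ :=
  Complex.Gamma z * Complex.Gamma (k - z) / Complex.Gamma k

theorem B14_B_ne (k : ℕ) (z : ℂ) (h0 : 0 < z.re) (hk : z.re < k) : B14_B k z ≠ 0 := by
  have hk0 : (0 : ℝ) < k := h0.trans hk
  refine div_ne_zero (mul_ne_zero (Complex.Gamma_ne_zero_of_re_pos h0)
    (Complex.Gamma_ne_zero_of_re_pos ?_)) (Complex.Gamma_ne_zero_of_re_pos ?_)
  · rw [Complex.sub_re, Complex.natCast_re]
    linarith
  · rw [Complex.natCast_re]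
    exact hk0

theorem B14_B_cont (k : ℕ) (z : ℂ) (h0 : 0 < z.re) (hk : z.re < k) :
    ContinuousAt (B14_B k) z := by
  have hk0 : (0 : ℝ) < k := h0.trans hk
  have hG : ∀ u : ℂ, 0 < u.re → ContinuousAt Complex.Gamma u := fun u hu =>
    (Complex.differentiableAt_Gamma u fun n hn => by
      rw [hn, Complex.neg_re, Complex.natCast_re] at hu
      have : (0 : ℝ) ≤ n := Nat.cast_nonneg n
      linarith).continuousAt
  have h1 : ContinuousAt (fun z : ℂ => Complex.Gamma (k - z)) z := by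
    have h2 := hG (k - z) (by rw [Complex.sub_re, Complex.natCast_re]; linarith)
    exact ContinuousAt.comp (f := fun z : ℂ => (k : ℂ) - z) h2 (by fun_prop)
  exact ((hG z h0).mul h1).div_const _

theorem B14_ratio (k : ℕ) (r₀ M : ℝ) (hr : 0 < r₀) (hM : M < k) : ∃ C : ℝ, 0 ≤ C ∧
    ∀ z : ℂ, r₀ ≤ z.re → ‖z‖ ≤ M → ‖B14_B k z.re‖ * ‖B14_B k z‖⁻¹ ≤ C := by
  have hcomp : IsCompact ({z : ℂ | r₀ ≤ z.re} ∩ Metric.closedBall (0 : ℂ) M) := by
    refine IsCompact.inter_left (isCompact_closedBall 0 M) ?_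
    exact isClosed_le continuous_const Complex.continuous_re
  have hre : ∀ z ∈ ({z : ℂ | r₀ ≤ z.re} ∩ Metric.closedBall (0 : ℂ) M), 0 < z.re ∧ z.re < k := by
    intro z hz
    have h1 : r₀ ≤ z.re := hz.1
    have h2 : ‖z‖ ≤ M := by
      have := hz.2
      rwa [mem_closedBall_zero_iff] at this
    exact ⟨lt_of_lt_of_le hr h1, lt_of_le_of_lt ((Complex.re_le_norm z).trans h2) hM⟩
  have hcont : ContinuousOn (fun z : ℂ => ‖B14_B k z.re‖ * ‖B14_B k z‖⁻¹)
      ({z : ℂ | r₀ ≤ z.re} ∩ Metric.closedBall (0 : ℂ) M) := by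
    intro z hz
    obtain ⟨h1, h2⟩ := hre z hz
    apply ContinuousAt.continuousWithinAt
    have h3 : ContinuousAt (fun z : ℂ => B14_B k (z.re : ℂ)) z := by
      have h4 := B14_B_cont k (z.re : ℂ) (by simpa using h1) (by simpa using h2)
      exact ContinuousAt.comp (f := fun z : ℂ => (z.re : ℂ)) h4 (by fun_prop)
    refine h3.norm.mul ((B14_B_cont k z h1 h2).norm.inv₀ ?_)
    rw [norm_ne_zero_iff]
    exact B14_B_ne k z h1 h2
  obtain ⟨C, hC⟩ := hcomp.exists_bound_of_continuousOn hcont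
  refine ⟨|C|, abs_nonneg C, ?_⟩
  intro z h1 h2
  have h3 := hC z ⟨h1, by rw [mem_closedBall_zero_iff]; exact h2⟩
  rw [Real.norm_eq_abs] at h3
  exact (le_abs_self _).trans (h3.trans (le_abs_self C))

/-- The real beta integral. -/
theorem B14_real (k : ℕ) (r q : ℝ) (hr : 0 < r) (hk : r < k) (hq : 0 < q) :
    IntegrableOn (fun τ : ℝ => τ ^ (r - 1) * ((1 + τ * q) ^ k)⁻¹) (Set.Ioi 0) ∧
    ∫ τ in Set.Ioi (0 : ℝ), τ ^ (r - 1) * ((1 + τ * q) ^ k)⁻¹ = q ^ (-r) * ‖B14_B k r‖ := by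
  have hi := beta_integrable (r : ℂ) k (by simpa using hr) (by simpa using hk) q hq
  have he := beta_eq (r : ℂ) k (by simpa using hr) (by simpa using hk) q hq
  have hcongr : ∀ τ ∈ Set.Ioi (0 : ℝ), (τ : ℂ) ^ ((r : ℂ) - 1) * (((1 + τ * q) ^ k)⁻¹ : ℝ) =
      ((τ ^ (r - 1) * ((1 + τ * q) ^ k)⁻¹ : ℝ) : ℂ) := by
    intro τ hτ
    rw [Complex.ofReal_mul, Complex.ofReal_cpow (le_of_lt hτ)]
    push_cast
    ring
  have hi2 : IntegrableOn (fun τ : ℝ => ((τ ^ (r - 1) * ((1 + τ * q) ^ k)⁻¹ : ℝ) : ℂ))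
      (Set.Ioi 0) := (integrableOn_congr_fun hcongr measurableSet_Ioi).1 hi
  have hi3 : IntegrableOn (fun τ : ℝ => τ ^ (r - 1) * ((1 + τ * q) ^ k)⁻¹) (Set.Ioi 0) := by
    have := hi2.re
    exact this
  refine ⟨hi3, ?_⟩
  rw [setIntegral_congr_fun measurableSet_Ioi hcongr, integral_complex_ofReal] at he
  have h0 : 0 ≤ ∫ τ in Set.Ioi (0 : ℝ), τ ^ (r - 1) * ((1 + τ * q) ^ k)⁻¹ := by
    refine setIntegral_nonneg measurableSet_Ioi fun τ hτ => ?_
    have hτ' : (0 : ℝ) < τ := hτ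
    positivity
  have h1 := congrArg norm he
  rw [Complex.norm_real, Real.norm_eq_abs, abs_of_nonneg h0, norm_mul] at h1
  rw [h1]
  congr 1
  rw [Complex.norm_cpow_eq_rpow_re_of_pos hq]
  simp

theorem good_Qpow (D : Ctx K m) (hE : Emb D.σ) (w : ι → 𝓞 K) (Y : Set (𝓞 K))
    (hY : ∀ x ∈ Y, ∀ i, x - w i ∈ Y) (h0 : (0 : 𝓞 K) ∉ Y) (t : P → Fin (m + 1) → ℝ) (a b : ℝ)
    (ha : 0 < a) (ht : ∀ q i, a ≤ t q i ∧ t q i ≤ b) (z : P → ℂ) (r₀ M : ℝ) (hr : 0 < r₀)
    (hz : ∀ q, r₀ ≤ (z q).re ∧ ‖z q‖ ≤ M) :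
    Good Y w D.gs (fun (_ : P) x => D.sz x ^ (-2 * r₀))
      (fun q x => (D.Q (t q) x : ℂ) ^ (-(z q))) := by
  obtain ⟨k, hk⟩ := exists_nat_gt M
  obtain ⟨c, hc, hlow⟩ := Q_low D hE a ha
  have hne : ∀ x ∈ Y, x ≠ 0 := fun x hx h => h0 (h ▸ hx)
  have hl : ∀ q, ∀ x ∈ Y, c * D.sz x ^ 2 ≤ D.Q (t q) x := fun q x hx =>
    hlow (t q) (fun i => (ht q i).1) x (hne x hx)
  have hQpos : ∀ q, ∀ x ∈ Y, 0 < D.Q (t q) x := fun q x hx =>
    lt_of_lt_of_le (mul_pos hc (pow_pos (D.sz_pos x) 2)) (hl q x hx)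
  obtain ⟨C, hC⟩ := good_tau (P := P × {τ : ℝ // 0 < τ}) D hE w Y hY h0 (fun q => t q.1) a b ha
    (fun q i => ht q.1 i) (fun q => q.2.1) (fun q => q.2.2) k
  obtain ⟨C2, hC2, hratio⟩ := B14_ratio k r₀ M hr hk
  have hstab : ∀ T : Finset ι, ∀ x ∈ Y, x - ∑ i ∈ T, w i ∈ Y := by
    intro T
    induction T using Finset.induction_on with
    | empty => intro x hx; simpa using hx
    | insert a T ha ih =>
      intro x hx
      rw [Finset.sum_insert ha, ← sub_sub]
      exact ih _ (hY x hx a)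
  refine ⟨|C| * C2 * (max 1 c⁻¹) ^ M, ?_⟩
  intro q S x hx
  obtain ⟨hz1, hz2⟩ := hz q
  have hre0 : 0 < (z q).re := lt_of_lt_of_le hr hz1
  have hreM : (z q).re ≤ M := (Complex.re_le_norm _).trans hz2
  have hrek : (z q).re < k := lt_of_le_of_lt hreM hk
  have hBne := B14_B_ne k (z q) hre0 hrek
  have hp0 : 0 ≤ ∏ i ∈ S, D.gs i x :=
    Finset.prod_nonneg fun i _ => inv_nonneg.2 (D.sz_pos x).le
  -- the representation of the difference
  have hrep : Dif w S (fun x => (D.Q (t q) x : ℂ) ^ (-(z q))) x =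
      (B14_B k (z q))⁻¹ * ∫ τ in Set.Ioi (0 : ℝ), (τ : ℂ) ^ (z q - 1) *
        Dif w S (fun x => ((((1 + τ * D.Q (t q) x) ^ k)⁻¹ : ℝ) : ℂ)) x := by
    have h1 : ∀ y ∈ Y, (D.Q (t q) y : ℂ) ^ (-(z q)) = (B14_B k (z q))⁻¹ *
        ∫ τ in Set.Ioi (0 : ℝ), (τ : ℂ) ^ (z q - 1) * ((((1 + τ * D.Q (t q) y) ^ k)⁻¹ : ℝ) : ℂ) := by
      intro y hy
      rw [beta_eq (z q) k hre0 hrek _ (hQpos q y hy)]
      change _ = (B14_B k (z q))⁻¹ * (_ * B14_B k (z q))
      field_simp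
    have h2 : ∀ T ∈ S.powerset, (-1 : ℂ) ^ T.card * (D.Q (t q) (x - ∑ i ∈ T, w i) : ℂ) ^ (-(z q)) =
        (B14_B k (z q))⁻¹ * ∫ τ in Set.Ioi (0 : ℝ), (-1 : ℂ) ^ T.card * ((τ : ℂ) ^ (z q - 1) *
          ((((1 + τ * D.Q (t q) (x - ∑ i ∈ T, w i)) ^ k)⁻¹ : ℝ) : ℂ)) := by
      intro T _
      rw [h1 _ (hstab T x hx), integral_const_mul]
      ring
    unfold Dif
    rw [Finset.sum_congr rfl h2, ← Finset.mul_sum, ← integral_finsetSum]
    · congr 1
      refine setIntegral_congr_fun measurableSet_Ioi fun τ _ => ?_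
      simp only [Finset.mul_sum]
      exact Finset.sum_congr rfl fun T _ => by ring
    · intro T _
      exact (beta_integrable (z q) k hre0 hrek _ (hQpos q _ (hstab T x hx))).const_mul _
  obtain ⟨hi, he⟩ := B14_real k (z q).re (D.Q (t q) x) hre0 hrek (hQpos q x hx)
  have hint : ‖∫ τ in Set.Ioi (0 : ℝ), (τ : ℂ) ^ (z q - 1) *
        Dif w S (fun x => ((((1 + τ * D.Q (t q) x) ^ k)⁻¹ : ℝ) : ℂ)) x‖ ≤
      (|C| * ∏ i ∈ S, D.gs i x) * (D.Q (t q) x ^ (-(z q).re) * ‖B14_B k (z q).re‖) := by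
    rw [← he, ← integral_const_mul]
    refine norm_integral_le_of_norm_le (hi.const_mul _) ?_
    refine (ae_restrict_iff' measurableSet_Ioi).2 (Filter.Eventually.of_forall fun τ hτ => ?_)
    have hτ' : (0 : ℝ) < τ := hτ
    rw [norm_mul, Complex.norm_cpow_eq_rpow_re_of_pos hτ']
    have h1 := hC (q, ⟨τ, hτ'⟩) S x hx
    have h2 : C * ((1 + τ * D.Q (t q) x) ^ k)⁻¹ ≤ |C| * ((1 + τ * D.Q (t q) x) ^ k)⁻¹ := by
      apply mul_le_mul_of_nonneg_right (le_abs_self C)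
      have := mul_pos hτ' (hQpos q x hx)
      positivity
    have h3 : (z q - 1).re = (z q).re - 1 := by simp
    rw [h3]
    calc τ ^ ((z q).re - 1) * ‖Dif w S (fun x => ((((1 + τ * D.Q (t q) x) ^ k)⁻¹ : ℝ) : ℂ)) x‖
        ≤ τ ^ ((z q).re - 1) * ((|C| * ((1 + τ * D.Q (t q) x) ^ k)⁻¹) * ∏ i ∈ S, D.gs i x) :=
          mul_le_mul_of_nonneg_left (h1.trans (mul_le_mul_of_nonneg_right h2 hp0))
            (by positivity)
      _ = (|C| * ∏ i ∈ S, D.gs i x) *
            (τ ^ ((z q).re - 1) * ((1 + τ * D.Q (t q) x) ^ k)⁻¹) := by ring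
  have hQle : D.Q (t q) x ^ (-(z q).re) ≤ (max 1 c⁻¹) ^ M * D.sz x ^ (-2 * r₀) := by
    have hs := D.sz_pos x
    have hs1 := D.one_le_sz x
    calc D.Q (t q) x ^ (-(z q).re) ≤ (c * D.sz x ^ 2) ^ (-(z q).re) :=
          Real.rpow_le_rpow_of_nonpos (by positivity) (hl q x hx) (by linarith)
      _ = c⁻¹ ^ (z q).re * D.sz x ^ (-2 * (z q).re) := by
          rw [Real.mul_rpow hc.le (by positivity), Real.rpow_neg hc.le, Real.inv_rpow hc.le,
            ← Real.rpow_natCast, ← Real.rpow_mul hs.le]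
          congr 2
          push_cast
          ring
      _ ≤ (max 1 c⁻¹) ^ M * D.sz x ^ (-2 * r₀) := by
          apply mul_le_mul
          · calc c⁻¹ ^ (z q).re ≤ (max 1 c⁻¹) ^ (z q).re :=
                Real.rpow_le_rpow (by positivity) (le_max_right _ _) hre0.le
              _ ≤ (max 1 c⁻¹) ^ M := Real.rpow_le_rpow_of_exponent_le (le_max_left _ _) hreM
          · exact Real.rpow_le_rpow_of_exponent_le hs1 (by linarith)
          · positivity
          · positivity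
  change ‖Dif w S (fun x => (D.Q (t q) x : ℂ) ^ (-(z q))) x‖ ≤ _
  rw [hrep, norm_mul, norm_inv]
  calc ‖B14_B k (z q)‖⁻¹ * ‖∫ τ in Set.Ioi (0 : ℝ), (τ : ℂ) ^ (z q - 1) *
        Dif w S (fun x => ((((1 + τ * D.Q (t q) x) ^ k)⁻¹ : ℝ) : ℂ)) x‖
      ≤ ‖B14_B k (z q)‖⁻¹ * ((|C| * ∏ i ∈ S, D.gs i x) *
          (D.Q (t q) x ^ (-(z q).re) * ‖B14_B k (z q).re‖)) :=
        mul_le_mul_of_nonneg_left hint (by positivity)
    _ = (|C| * ∏ i ∈ S, D.gs i x) * (D.Q (t q) x ^ (-(z q).re) *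
          (‖B14_B k (z q).re‖ * ‖B14_B k (z q)‖⁻¹)) := by ring
    _ ≤ (|C| * ∏ i ∈ S, D.gs i x) * (((max 1 c⁻¹) ^ M * D.sz x ^ (-2 * r₀)) * C2) := by
        apply mul_le_mul_of_nonneg_left _ (by positivity)
        exact mul_le_mul hQle (hratio (z q) hz1 hz2) (by positivity)
          (by have := D.sz_pos x; positivity)
    _ = |C| * C2 * (max 1 c⁻¹) ^ M * D.sz x ^ (-2 * r₀) * ∏ i ∈ S, D.gs i x := by ring

/-- The family fs: conj N is a product of m+1 functions conj(σ_i x) (Good.prod, good_sig, Good.conj). -/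
theorem good_fs (D : Ctx K m) (hE : Emb D.σ) (w : ι → 𝓞 K) (Y : Set (𝓞 K))
    (hY : ∀ x ∈ Y, ∀ i, x - w i ∈ Y) (h0 : (0 : 𝓞 K) ∉ Y) (t : P → Fin (m + 1) → ℝ) (a b : ℝ)
    (ha : 0 < a) (ht : ∀ q i, a ≤ t q i ∧ t q i ≤ b) (s : P → ℂ) (r M : ℝ) (hr : 0 < r)
    (hs : ∀ q, r ≤ (s q).re ∧ ‖s q‖ ≤ M) :
    Good Y w D.gs (fun (_ : P) x => D.sz x ^ ((m + 1 : ℝ) - 2 * (m + 1) * r))
      (fun q x => D.fs (t q) (s q) x) := by
  have hγ := sv_gs D w Y
  have hsz := sv_sz (P := P) D w Y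
  have h1 := good_Qpow D hE w Y hY h0 t a b ha ht (fun q => ((m + 1 : ℕ) : ℂ) * s q)
    ((m + 1) * r) ((m + 1) * M) (by positivity) (by
      intro q
      obtain ⟨h1, h2⟩ := hs q
      constructor
      · rw [Complex.mul_re, Complex.natCast_re, Complex.natCast_im, zero_mul, sub_zero]
        push_cast
        exact mul_le_mul_of_nonneg_left h1 (by positivity)
      · rw [norm_mul, Complex.norm_natCast]
        push_cast
        exact mul_le_mul_of_nonneg_left h2 (by positivity))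
  have h2 := Good.prod hY hγ (Finset.univ : Finset (Fin (m + 1)))
    (fun _ (_ : P) x => D.sz x) (fun i (_ : P) x => D.σ i x) (fun _ _ => hsz)
    (fun i _ => good_sig D w Y i)
  have h3 := Good.conj h2
  have hsv1 := SV.prod hY (Finset.univ : Finset (Fin (m + 1)))
    (fun _ (_ : P) x => D.sz x) (fun _ _ => hsz)
  have hsv2 := SV.rpow hsz hY (-2 * ((m + 1) * r))
  have h4 := Good.mul hY hγ hsv1 hsv2 h3 h1
  have e1 : (fun (_ : P) x => D.sz x ^ ((m + 1 : ℝ) - 2 * (m + 1) * r)) =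
      fun (_ : P) x => (∏ _i : Fin (m + 1), D.sz x) * D.sz x ^ (-2 * ((m + 1) * r)) := by
    funext q x
    have hs0 := D.sz_pos x
    rw [Finset.prod_const, Finset.card_univ, Fintype.card_fin, ← Real.rpow_natCast,
      ← Real.rpow_add hs0]
    congr 1
    push_cast
    ring
  rw [e1]
  exact h4

end H55N
end

-- from Lib.H55N.U4
section

open NumberField IsDedekindDomain MeasureTheory

namespace H55N

open H55B H55C

variable {K : Type} [Field K] [NumberField K] [Algebra F K] {m : ℕ}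
  {ι : Type} [Fintype ι] [DecidableEq ι]

/-! Chunk U4 (M/L). Analytic continuation of the differenced series, n = m+1, d = card ι <= 2n. Y = XS I' c₀ contains D.X, is stable under x -> x - w_i, and
0 is not in Y. Let s0 in the region, r < Re s0 with r > 3/2 - d/(2n) (so r > 0 since d <= 2n gives r > 1/2), M = |s0| + 1, U = {r < Re s, |s| < M}. For
z in the cube the tt lm z i lie in some [a,b], 0 < a. good_fs (P = pairs (z, s)) gives |Dif univ (fs (tt lm z) s) x| <= C sz(x)^(n - 2nr) sz(x)^(-d), n - 2nr - d < -2n, summable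
(sum_sz) uniformly in z, s. Each term s -> int_cube G x Dif(..) dz is holomorphic (fs is holomorphic in s, jointly continuous in (z,s) for x <> 0, continuous z-integral over a compact
set: hasDerivAt_integral_of_dominated_loc_of_deriv_le, or differentiability under the integral for compact domains); int_cube sum = sum int_cube (dominated), and a locally uniformly
convergent series of holomorphic functions is holomorphic (differentiableOn_tsum_of_summable_norm). AnalyticOnNhd from DifferentiableOn on an open set. -/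

/-- The exponent of the decay. -/
noncomputable def U4_e (m d : ℕ) (r : ℝ) : ℝ := 2 * (m + 1) * r + d - (m + 1)

/-- The uniform bound. -/
theorem U4_bound (D : Ctx K m) (hE : Emb D.σ) (I' : Ideal (𝓞 K))
    (h0 : D.c₀ ∉ I') (w : ι → 𝓞 K) (hw : ∀ i, w i ∈ I') (a b : ℝ) (ha : 0 < a) (r M : ℝ)
    (hr : 0 < r) : ∃ C : ℝ, 0 ≤ C ∧ ∀ t : Fin (m + 1) → ℝ, (∀ i, a ≤ t i ∧ t i ≤ b) →
      ∀ s : ℂ, r ≤ s.re → ‖s‖ ≤ M → ∀ x ∈ XS I' D.c₀,
      ‖Dif w Finset.univ (D.fs t s) x‖ ≤ C * D.sz x ^ (-(U4_e m (Fintype.card ι) r)) := by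
  have hY : ∀ x ∈ XS I' D.c₀, ∀ i, x - w i ∈ XS I' D.c₀ := by
    intro x hx i
    change x - w i - D.c₀ ∈ I'
    have h1 : x - w i - D.c₀ = (x - D.c₀) - w i := by ring
    rw [h1]
    exact I'.sub_mem hx (hw i)
  have hY0 : (0 : 𝓞 K) ∉ XS I' D.c₀ := by
    intro h
    change 0 - D.c₀ ∈ I' at h
    rw [zero_sub, neg_mem_iff] at h
    exact h0 h
  obtain ⟨C, hC⟩ := good_fs
    (P := {q : (Fin (m + 1) → ℝ) × ℂ // (∀ i, a ≤ q.1 i ∧ q.1 i ≤ b) ∧ r ≤ q.2.re ∧ ‖q.2‖ ≤ M})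
    D hE w (XS I' D.c₀) hY hY0 (fun q => q.1.1) a b ha (fun q => q.2.1) (fun q => q.1.2) r M hr
    (fun q => q.2.2)
  refine ⟨|C|, abs_nonneg C, ?_⟩
  intro t ht s hs1 hs2 x hx
  have h1 : ‖Dif w Finset.univ (D.fs t s) x‖ ≤ C * D.sz x ^ ((m + 1 : ℝ) - 2 * (m + 1) * r) *
      ∏ i : ι, D.gs i x := hC ⟨(t, s), ht, hs1, hs2⟩ Finset.univ x hx
  have hs0 := D.sz_pos x
  have h2 : ∏ i : ι, D.gs i x = D.sz x ^ (-(Fintype.card ι : ℝ)) := by
    unfold Ctx.gs
    rw [Finset.prod_const, Finset.card_univ, Real.rpow_neg hs0.le, Real.rpow_natCast, inv_pow]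
  rw [h2] at h1
  refine h1.trans ?_
  rw [mul_assoc, ← Real.rpow_add hs0]
  have h3 : (m + 1 : ℝ) - 2 * (m + 1) * r + -(Fintype.card ι : ℝ) =
      -(U4_e m (Fintype.card ι) r) := by
    unfold U4_e
    ring
  rw [h3]
  exact mul_le_mul_of_nonneg_right (le_abs_self C) (by positivity)

theorem U4_sum (D : Ctx K m) (hE : Emb D.σ) (d : ℕ) (r : ℝ)
    (hr : 3 / 2 - (d : ℝ) / (2 * (m + 1)) < r) :
    Summable fun x : D.X => D.sz x ^ (-(U4_e m d r)) := by
  have h1 : 2 * (m + 1 : ℝ) < U4_e m d r := by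
    unfold U4_e
    have hm : (0 : ℝ) < 2 * (m + 1) := by positivity
    have h2 := mul_lt_mul_of_pos_left hr hm
    have h3 : (2 * (m + 1) : ℝ) * (3 / 2 - (d : ℝ) / (2 * (m + 1))) = 3 * (m + 1) - d := by
      field_simp
    rw [h3] at h2
    linarith
  exact (sum_sz D hE _ h1).comp_injective Subtype.val_injective

theorem U4_pos (d : ℕ) (hd : d ≤ 2 * (m + 1)) (r : ℝ)
    (hr : 3 / 2 - (d : ℝ) / (2 * (m + 1)) < r) : 0 < r := by
  have h1 : (d : ℝ) / (2 * (m + 1)) ≤ 1 := by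
    rw [div_le_one (by positivity)]
    exact_mod_cast hd
  linarith

theorem U4_sub (D : Ctx K m) (I' : Ideal (𝓞 K)) (hI : D.I ≤ I') (x : 𝓞 K) (hx : x ∈ D.X) :
    x ∈ XS I' D.c₀ := hI hx


theorem U4_Qpos (D : Ctx K m) (t : Fin (m + 1) → ℝ) (ht : ∀ i, 0 < t i) (x : 𝓞 K)
    (hx : x ≠ 0) : 0 < D.Q t x := by
  unfold Ctx.Q
  refine Finset.sum_pos (fun i _ => ?_) ⟨0, Finset.mem_univ 0⟩
  refine mul_pos (ht i) (pow_pos ?_ 2)
  rw [norm_pos_iff, Ne, map_eq_zero]
  intro h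
  exact hx (RingOfIntegers.coe_injective (h.trans (map_zero (algebraMap (𝓞 K) K)).symm))

theorem U4_tt_pos (lm : Fin (m + 1) → Fin m → ℝ) (z : Fin m → ℝ) (i : Fin (m + 1)) :
    0 < tt lm z i := Real.exp_pos _

theorem U4_tt_cont (lm : Fin (m + 1) → Fin m → ℝ) (i : Fin (m + 1)) :
    Continuous fun z => tt lm z i := by
  unfold tt
  fun_prop

theorem U4_Q_cont (D : Ctx K m) (lm : Fin (m + 1) → Fin m → ℝ) (x : 𝓞 K) :
    Continuous fun z => D.Q (tt lm z) x := by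
  unfold Ctx.Q
  exact continuous_finsetSum _ fun i _ => (U4_tt_cont lm i).mul continuous_const

/-- The values of tt on the cube. -/
theorem U4_tt_bd (lm : Fin (m + 1) → Fin m → ℝ) : ∃ a b : ℝ, 0 < a ∧
    ∀ z ∈ Set.Icc (0 : Fin m → ℝ) 1, ∀ i, a ≤ tt lm z i ∧ tt lm z i ≤ b := by
  refine ⟨Real.exp (-(∑ i, ∑ j, |lm i j|)), Real.exp (∑ i, ∑ j, |lm i j|), Real.exp_pos _, ?_⟩
  intro z hz i
  have h1 : |∑ j, z j * lm i j| ≤ ∑ i, ∑ j, |lm i j| := by
    refine (Finset.abs_sum_le_sum_abs _ _).trans ?_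
    refine le_trans (Finset.sum_le_sum (g := fun j => |lm i j|) fun j _ => ?_)
      (Finset.single_le_sum (f := fun i => ∑ j, |lm i j|)
        (fun i _ => Finset.sum_nonneg fun j _ => abs_nonneg _) (Finset.mem_univ i))
    rw [abs_mul]
    have h2 : |z j| ≤ 1 := by
      rw [abs_of_nonneg (hz.1 j)]
      exact hz.2 j
    exact mul_le_of_le_one_left (abs_nonneg _) h2
  obtain ⟨h3, h4⟩ := abs_le.1 h1
  exact ⟨Real.exp_le_exp.2 h3, Real.exp_le_exp.2 h4⟩

theorem U4_fs_cont (D : Ctx K m) (lm : Fin (m + 1) → Fin m → ℝ) (x : 𝓞 K) (hx : x ≠ 0) (s : ℂ) :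
    Continuous fun z => D.fs (tt lm z) s x := by
  unfold Ctx.fs
  refine continuous_const.mul ?_
  refine Continuous.cpow (Complex.continuous_ofReal.comp (U4_Q_cont D lm x)) continuous_const ?_
  intro z
  exact Complex.ofReal_mem_slitPlane.2 (U4_Qpos D _ (U4_tt_pos lm z) x hx)

theorem U4_diff_int (Q : (Fin m → ℝ) → ℝ) (hQ : Continuous Q) (hpos : ∀ z, 0 < Q z) (n : ℂ)
    (S : Set (Fin m → ℝ)) (hS : IsCompact S) :
    Differentiable ℂ fun s : ℂ => ∫ z in S, (Q z : ℂ) ^ (-(n * s)) := by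
  intro s₀
  have hQc : Continuous fun z => (Q z : ℂ) := Complex.continuous_ofReal.comp hQ
  have hslit : ∀ z, (Q z : ℂ) ∈ Complex.slitPlane := fun z =>
    Complex.ofReal_mem_slitPlane.2 (hpos z)
  have hcF : ∀ s : ℂ, Continuous fun z => (Q z : ℂ) ^ (-(n * s)) := fun s =>
    Continuous.cpow hQc continuous_const hslit
  have hcF' : ∀ s : ℂ, Continuous fun z => (Q z : ℂ) ^ (-(n * s)) * Complex.log (Q z) * (-n) :=
    fun s => ((hcF s).mul (hQc.clog hslit)).mul continuous_const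
  have hjoint : Continuous fun p : ℂ × (Fin m → ℝ) =>
      (Q p.2 : ℂ) ^ (-(n * p.1)) * Complex.log (Q p.2) * (-n) := by
    have h1 : Continuous fun p : ℂ × (Fin m → ℝ) => (Q p.2 : ℂ) := hQc.comp continuous_snd
    have h2 : ∀ p : ℂ × (Fin m → ℝ), (Q p.2 : ℂ) ∈ Complex.slitPlane := fun p => hslit p.2
    refine (Continuous.mul (Continuous.cpow h1 (by fun_prop) h2) (h1.clog h2)).mul continuous_const
  obtain ⟨B, hB⟩ := ((isCompact_closedBall s₀ 1).prod hS).exists_bound_of_continuousOn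
    hjoint.continuousOn
  have hfin : IsFiniteMeasure (volume.restrict S) :=
    ⟨by rw [Measure.restrict_apply_univ]; exact hS.measure_lt_top⟩
  have hmS : ∀ᵐ z ∂(volume.restrict S), z ∈ S := ae_restrict_mem hS.measurableSet
  have key := hasDerivAt_integral_of_dominated_loc_of_deriv_le (μ := volume.restrict S)
    (F := fun s z => (Q z : ℂ) ^ (-(n * s)))
    (F' := fun s z => (Q z : ℂ) ^ (-(n * s)) * Complex.log (Q z) * (-n))
    (bound := fun _ => B) (x₀ := s₀) (Metric.closedBall_mem_nhds s₀ one_pos)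
    (Filter.Eventually.of_forall fun s => (hcF s).aestronglyMeasurable)
    ((hcF s₀).continuousOn.integrableOn_compact hS)
    (hcF' s₀).aestronglyMeasurable
    (by
      filter_upwards [hmS] with z hz
      intro s hs
      exact hB (s, z) ⟨hs, hz⟩)
    (integrable_const B)
    (by
      filter_upwards with z
      intro s _
      have h1 : HasDerivAt (fun s : ℂ => -(n * s)) (-n) s := by
        have h2 := ((hasDerivAt_id s).const_mul n).neg
        rw [mul_one] at h2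
        exact h2
      exact h1.const_cpow (Or.inl (by
        rw [Ne, Complex.ofReal_eq_zero]
        exact (hpos z).ne')))
  exact key.2.differentiableAt

theorem U4_cube : IsCompact (Set.Icc (0 : Fin m → ℝ) 1) := isCompact_Icc

omit [DecidableEq ι] in
/-- Each term is holomorphic. -/
theorem U4_term_diff (D : Ctx K m) (w : ι → 𝓞 K) (lm : Fin (m + 1) → Fin m → ℝ) (x : 𝓞 K)
    (hx : ∀ T : Finset ι, x - ∑ i ∈ T, w i ≠ 0) :
    Differentiable ℂ fun s : ℂ => ∫ z in Set.Icc (0 : Fin m → ℝ) 1,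
      Dif w Finset.univ (D.fs (tt lm z) s) x := by
  have h1 : (fun s : ℂ => ∫ z in Set.Icc (0 : Fin m → ℝ) 1,
      Dif w Finset.univ (D.fs (tt lm z) s) x) = fun s : ℂ =>
      ∑ T ∈ (Finset.univ : Finset ι).powerset, (-1) ^ T.card *
        ((starRingEnd ℂ) (D.N (x - ∑ i ∈ T, w i)) * ∫ z in Set.Icc (0 : Fin m → ℝ) 1,
          (D.Q (tt lm z) (x - ∑ i ∈ T, w i) : ℂ) ^ (-(((m + 1 : ℕ) : ℂ) * s))) := by
    funext s
    unfold Dif
    rw [integral_finsetSum]
    · refine Finset.sum_congr rfl fun T _ => ?_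
      rw [integral_const_mul]
      congr 1
      unfold Ctx.fs
      rw [integral_const_mul]
    · intro T _
      exact ((U4_fs_cont D lm _ (hx T) s).continuousOn.integrableOn_compact U4_cube).const_mul _
  rw [h1]
  refine Differentiable.fun_sum fun T _ => ?_
  refine (differentiable_const _).mul ((differentiable_const _).mul ?_)
  exact U4_diff_int _ (U4_Q_cont D lm _) (fun z => U4_Qpos D _ (U4_tt_pos lm z) _ (hx T)) _ _ U4_cube

omit [DecidableEq ι] in
theorem U4_Dif_cont (D : Ctx K m) (w : ι → 𝓞 K) (lm : Fin (m + 1) → Fin m → ℝ) (x : 𝓞 K)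
    (hx : ∀ T : Finset ι, x - ∑ i ∈ T, w i ≠ 0) (s : ℂ) :
    Continuous fun z => Dif w Finset.univ (D.fs (tt lm z) s) x := by
  unfold Dif
  exact continuous_finsetSum _ fun T _ => continuous_const.mul (U4_fs_cont D lm _ (hx T) s)

theorem U4_countable (D : Ctx K m) (hE : Emb D.σ) : Countable (𝓞 K) := by
  have h := (sum_sz D hE (2 * (m + 1) + 1) (by linarith)).countable_support
  have h2 : Function.support (fun x : 𝓞 K => D.sz x ^ (-(2 * (m + 1) + 1 : ℝ))) = Set.univ := by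
    ext x
    simp only [Function.mem_support, Set.mem_univ, iff_true]
    exact (Real.rpow_pos_of_pos (D.sz_pos x) _).ne'
  rw [h2] at h
  exact Set.countable_univ_iff.1 h

theorem cont_analytic (D : Ctx K m) (hE : Emb D.σ) (I' : Ideal (𝓞 K)) (hI : D.I ≤ I')
    (h0 : D.c₀ ∉ I') (w : ι → 𝓞 K) (hw : ∀ i, w i ∈ I') (hι : Fintype.card ι ≤ 2 * (m + 1))
    (G : 𝓞 K → ℂ) (hG : ∃ C : ℝ, ∀ x, ‖G x‖ ≤ C) (lm : Fin (m + 1) → Fin m → ℝ) :
    AnalyticOnNhd ℂ (fun s => ∫ z in Set.Icc (0 : Fin m → ℝ) 1,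
      ∑' x : D.X, G x * Dif w Finset.univ (D.fs (tt lm z) s) x)
      {s | 3 / 2 - (Fintype.card ι : ℝ) / (2 * (m + 1)) < s.re} := by
  obtain ⟨CG, hCG⟩ := hG
  obtain ⟨a, b, ha, hab⟩ := U4_tt_bd lm
  have hcount := U4_countable D hE
  have hstab : ∀ x ∈ XS I' D.c₀, ∀ T : Finset ι, x - ∑ i ∈ T, w i ≠ 0 := by
    intro x hx T h
    have h1 : x - D.c₀ ∈ I' := hx
    have h2 : ∑ i ∈ T, w i ∈ I' := I'.sum_mem fun i _ => hw i
    have h3 : D.c₀ = ∑ i ∈ T, w i - (x - D.c₀) := by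
      rw [sub_eq_zero] at h
      rw [← h]
      ring
    exact h0 (h3 ▸ I'.sub_mem h2 h1)
  have hopen : IsOpen {s : ℂ | 3 / 2 - (Fintype.card ι : ℝ) / (2 * (m + 1)) < s.re} :=
    isOpen_lt continuous_const Complex.continuous_re
  refine DifferentiableOn.analyticOnNhd ?_ hopen
  intro s₀ hs₀
  have hs₀' : 3 / 2 - (Fintype.card ι : ℝ) / (2 * (m + 1)) < s₀.re := hs₀
  obtain ⟨r, hr1, hr2⟩ := exists_between hs₀'
  have hr0 : 0 < r := U4_pos _ hι _ hr1
  obtain ⟨C, hC0, hC⟩ := U4_bound D hE I' h0 w hw a b ha r (‖s₀‖ + 1) hr0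
  have hUopen : IsOpen ({s : ℂ | r < s.re} ∩ Metric.ball (0 : ℂ) (‖s₀‖ + 1)) :=
    (isOpen_lt continuous_const Complex.continuous_re).inter Metric.isOpen_ball
  have hmem : s₀ ∈ ({s : ℂ | r < s.re} ∩ Metric.ball (0 : ℂ) (‖s₀‖ + 1)) :=
    ⟨hr2, by rw [mem_ball_zero_iff]; linarith⟩
  have hUprop : ∀ s ∈ ({s : ℂ | r < s.re} ∩ Metric.ball (0 : ℂ) (‖s₀‖ + 1)),
      r ≤ s.re ∧ ‖s‖ ≤ ‖s₀‖ + 1 := by
    intro s hs
    refine ⟨le_of_lt hs.1, ?_⟩
    have h1 := hs.2
    rw [mem_ball_zero_iff] at h1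
    exact h1.le
  have hsum := (U4_sum D hE (Fintype.card ι) r hr1).mul_left (|CG| * C)
  have hterm : ∀ s ∈ ({s : ℂ | r < s.re} ∩ Metric.ball (0 : ℂ) (‖s₀‖ + 1)),
      ∀ z ∈ Set.Icc (0 : Fin m → ℝ) 1, ∀ x : D.X,
      ‖G x * Dif w Finset.univ (D.fs (tt lm z) s) x‖ ≤
        |CG| * C * D.sz x ^ (-(U4_e m (Fintype.card ι) r)) := by
    intro s hs z hz x
    obtain ⟨h1, h2⟩ := hUprop s hs
    rw [norm_mul]
    calc ‖G x‖ * ‖Dif w Finset.univ (D.fs (tt lm z) s) x‖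
        ≤ |CG| * (C * D.sz x ^ (-(U4_e m (Fintype.card ι) r))) :=
          mul_le_mul ((hCG x).trans (le_abs_self _))
            (hC (tt lm z) (hab z hz) s h1 h2 x (U4_sub D I' hI x x.2)) (norm_nonneg _)
            (abs_nonneg _)
      _ = _ := by ring
  have hvol : (volume (Set.Icc (0 : Fin m → ℝ) 1)) = 1 := by
    rw [Real.volume_Icc_pi]
    simp
  have hvolr : volume.real (Set.Icc (0 : Fin m → ℝ) 1) = 1 := by
    rw [Measure.real, hvol, ENNReal.toReal_one]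
  have hint : ∀ s : ℂ, ∀ x : D.X, IntegrableOn
      (fun z => G x * Dif w Finset.univ (D.fs (tt lm z) s) x) (Set.Icc (0 : Fin m → ℝ) 1) := by
    intro s x
    exact ((U4_Dif_cont D w lm x.1 (hstab x.1 (U4_sub D I' hI x x.2)) s).continuousOn.integrableOn_compact
      U4_cube).const_mul _
  -- the exchange of the sum and the integral
  have hex : ∀ s ∈ ({s : ℂ | r < s.re} ∩ Metric.ball (0 : ℂ) (‖s₀‖ + 1)),
      (∫ z in Set.Icc (0 : Fin m → ℝ) 1,
        ∑' x : D.X, G x * Dif w Finset.univ (D.fs (tt lm z) s) x) =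
      ∑' x : D.X, ∫ z in Set.Icc (0 : Fin m → ℝ) 1,
        G x * Dif w Finset.univ (D.fs (tt lm z) s) x := by
    intro s hs
    refine (hasSum_integral_of_summable_integral_norm (fun x : D.X => hint s x) ?_).tsum_eq.symm
    refine Summable.of_nonneg_of_le (fun x => integral_nonneg fun z => norm_nonneg _)
      (fun x => ?_) hsum
    have h1 : (∫ z in Set.Icc (0 : Fin m → ℝ) 1,
        ‖G x * Dif w Finset.univ (D.fs (tt lm z) s) x‖) ≤
        ∫ _z in Set.Icc (0 : Fin m → ℝ) 1,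
          |CG| * C * D.sz x ^ (-(U4_e m (Fintype.card ι) r)) := by
      refine setIntegral_mono_on (hint s x).norm ?_ measurableSet_Icc
        fun z hz => hterm s hs z hz x
      exact continuousOn_const.integrableOn_compact U4_cube
    rw [setIntegral_const, hvolr, one_smul] at h1
    exact h1
  have hdiff : DifferentiableOn ℂ (fun s => ∑' x : D.X, ∫ z in Set.Icc (0 : Fin m → ℝ) 1,
        G x * Dif w Finset.univ (D.fs (tt lm z) s) x)
      ({s : ℂ | r < s.re} ∩ Metric.ball (0 : ℂ) (‖s₀‖ + 1)) := by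
    refine Complex.differentiableOn_tsum_of_summable_norm hsum ?_ hUopen ?_
    · intro x
      have h1 : (fun s : ℂ => ∫ z in Set.Icc (0 : Fin m → ℝ) 1,
          G x * Dif w Finset.univ (D.fs (tt lm z) s) x) = fun s : ℂ =>
          G x * ∫ z in Set.Icc (0 : Fin m → ℝ) 1, Dif w Finset.univ (D.fs (tt lm z) s) x := by
        funext s
        rw [integral_const_mul]
      rw [h1]
      exact ((U4_term_diff D w lm x.1 (hstab x.1 (U4_sub D I' hI x x.2))).const_mul _).differentiableOn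
    · intro x s hs
      have h1 := norm_setIntegral_le_of_norm_le_const (μ := volume)
        (s := Set.Icc (0 : Fin m → ℝ) 1)
        (f := fun z => G x * Dif w Finset.univ (D.fs (tt lm z) s) x)
        (C := |CG| * C * D.sz x ^ (-(U4_e m (Fintype.card ι) r)))
        (by rw [hvol]; exact ENNReal.one_lt_top) (fun z hz => hterm s hs z hz x)
      rw [hvolr, mul_one] at h1
      exact h1
  have hdiff2 : DifferentiableOn ℂ (fun s => ∫ z in Set.Icc (0 : Fin m → ℝ) 1,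
        ∑' x : D.X, G x * Dif w Finset.univ (D.fs (tt lm z) s) x)
      ({s : ℂ | r < s.re} ∩ Metric.ball (0 : ℂ) (‖s₀‖ + 1)) :=
    hdiff.congr fun s hs => hex s hs
  exact (hdiff2.differentiableAt (hUopen.mem_nhds hmem)).differentiableWithinAt

end H55N
end
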