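import Mathlib
import Pool.Agent.Lib.H1M.PP2.D_H55P_Stm
import Pool.Agent.Lib.H1M.PP2.M010
import Pool.Agent.Lib.H1M.PP2.M017
import Pool.Agent.Lib.H1M.PP2.M019
import Pool.Agent.Lib.H1M.PP2.M047
import Pool.Agent.Lib.H1M.PP2.M048
import Pool.Agent.Lib.H1M.PP2.M049
import Pool.Agent.Lib.H1M.PP2.M050
import Pool.Agent.Lib.H1M.PP2.M054

/-! Merged copies (to shorten the build) of Lib.H55K.D6, Lib.H55K.D8, Lib.H55K.QA1A, Lib.H55K.QA1B, Lib.H55K.QB1A, Lib.H55K.T9D, Lib.H55K.QD2, Lib.H55K.QC1B, Lib.H55K.QC1C, Lib.H55K.QC1D, Lib.H55P.L2. -/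

-- from Lib.H55K.D6
section

/-! # H55K, part D: the local Euler factors -/

open NumberField IsDedekindDomain WeierstrassCurve

namespace H55K.DD

theorem d6_one_lt {K : Type} [Field K] [NumberField K] (w : HeightOneSpectrum (𝓞 K)) :
    1 < Ideal.absNorm w.asIdeal := by
  have h1 : Ideal.absNorm w.asIdeal ≠ 1 := by
    rw [Ne, Ideal.absNorm_eq_one_iff]; exact w.isPrime.ne_top
  have h0 : Ideal.absNorm w.asIdeal ≠ 0 := by
    rw [Ne, Ideal.absNorm_eq_zero_iff]; exact w.ne_bot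
  omega

/-- The ring homomorphism from the integers of F to the integers of the completion. -/
noncomputable def d6_hom (F K : Type) [Field F] [NumberField F] [Field K] [NumberField K] [Algebra F K]
    (w : HeightOneSpectrum (𝓞 K)) : 𝓞 F →+* w.adicCompletionIntegers K :=
  (algebraMap (𝓞 K) (w.adicCompletionIntegers K)).comp (algebraMap (𝓞 F) (𝓞 K))

theorem d6_curve {F K : Type} [Field F] [NumberField F] [Field K] [NumberField K] [Algebra F K]
    (W₀ : WeierstrassCurve (𝓞 F)) (w : HeightOneSpectrum (𝓞 K)) :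
    ((W₀⁄F)⁄K)⁄(w.adicCompletion K) = (W₀.map (d6_hom F K w))⁄(w.adicCompletion K) := by
  show ((W₀.map (algebraMap (𝓞 F) F)).map (algebraMap F K)).map (algebraMap K (w.adicCompletion K)) =
    (W₀.map (d6_hom F K w)).map (algebraMap (w.adicCompletionIntegers K) (w.adicCompletion K))
  rw [WeierstrassCurve.map_map, WeierstrassCurve.map_map, WeierstrassCurve.map_map]
  congr 1

theorem d6_unit {F K : Type} [Field F] [NumberField F] [Field K] [NumberField K] [Algebra F K]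
    (W₀ : WeierstrassCurve (𝓞 F)) (w : HeightOneSpectrum (𝓞 K)) (v : HeightOneSpectrum (𝓞 F))
    (hv : v.asIdeal = w.asIdeal.under (𝓞 F)) (hΔ : W₀.Δ ∉ v.asIdeal) :
    IsUnit (W₀.map (d6_hom F K w)).Δ := by
  rw [WeierstrassCurve.map_Δ]
  by_contra hcon
  apply hΔ
  rw [hv, Ideal.under_def, Ideal.mem_comap, ← H55B.residue_ker K w, RingHom.mem_ker,
    RingHom.comp_apply, IsLocalRing.residue_eq_zero_iff, IsLocalRing.mem_maximalIdeal]
  exact hcon

/-- Chunk D6 (M). Good w: R_w = w.adicCompletionIntegers K, W₀' = W₀.map (algebraMap (𝓞 F) → 𝓞 K → R_w), unit discriminant (residue_ker: W₀.Δ not in v = w ∩ 𝓞 F; see H55B.F4_unit); ((W₀⁄F)⁄K)⁄K_w = W₀'⁄K_w (map_map and compatibility of the algebra maps). good_loc; the residue field k' = ResidueField R_w, φ = residue ∘ algebraMap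
(H55B.residue_ker, residue_surj, residue_card); pts_res: the number of points N is q + 1 - α^f - β^f, q = absNorm w = (α β)^f (absNorm v ^ f). So the local polynomial with complex coefficients is (1 - α^f X)(1 - β^f X) (see H55B.loc_good), and the Euler factor is the product of two (H55B.I2_local_good, I2_cast_ofPS, I2_map_invOfUnit; PowerSeries.mul_inv_rev;
H55N or H55C.b8_LEF: the form with absNorm w). -/
theorem lf_good {F K : Type} [Field F] [NumberField F] [Field K] [NumberField K] [Algebra F K]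
    (W₀ : WeierstrassCurve (𝓞 F)) (w : HeightOneSpectrum (𝓞 K)) (v : HeightOneSpectrum (𝓞 F))
    (hv : v.asIdeal = w.asIdeal.under (𝓞 F)) (hΔ : W₀.Δ ∉ v.asIdeal) (α β : ℂ)
    (h1 : α + β = (Ideal.absNorm v.asIdeal : ℂ) + 1 - (Nat.card (W₀⁄(𝓞 F ⧸ v.asIdeal)).toAffine.Point : ℂ))
    (h2 : α * β = (Ideal.absNorm v.asIdeal : ℂ)) :
    LF' ((W₀⁄F)⁄K) w = ef (Ideal.absNorm w.asIdeal) (α ^ (w.asIdeal.inertiaDeg (𝓞 F))) *
      ef (Ideal.absNorm w.asIdeal) (β ^ (w.asIdeal.inertiaDeg (𝓞 F))) := by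
  have hq := d6_one_lt w
  set f := w.asIdeal.inertiaDeg (𝓞 F) with hf
  obtain ⟨hfin, hcard⟩ := H55B.residue_card K w
  have hker := H55B.residue_ker K w
  set φ := (IsLocalRing.residue (w.adicCompletionIntegers K)).comp
    (algebraMap (𝓞 K) (w.adicCompletionIntegers K)) with hφ
  have hpts := pts_res W₀ w v hv hΔ α β h1 h2 (IsLocalRing.ResidueField (w.adicCompletionIntegers K)) φ
    (H55B.residue_surj K w) hker
  have hnorm : (Ideal.absNorm w.asIdeal : ℂ) = α ^ f * β ^ f := by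
    have hlies : w.asIdeal.LiesOver v.asIdeal := ⟨hv⟩
    have hmax : v.asIdeal.IsMaximal := v.isMaximal
    have h := Ideal.absNorm_eq_pow_inertiaDeg'_of_liesOver w.asIdeal v.asIdeal v.isPrime v.ne_bot
    rw [Ideal.inertiaDeg'_algebraMap] at h
    rw [hf, Ideal.inertiaDeg_eq_of_isMaximal v.asIdeal w.asIdeal, h, ← mul_pow, h2]
    push_cast
    rfl
  have hcomp : W₀.map (φ.comp (algebraMap (𝓞 F) (𝓞 K))) =
      (W₀.map (d6_hom F K w)).map (IsLocalRing.residue (w.adicCompletionIntegers K)) := by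
    rw [WeierstrassCurve.map_map]
    rfl
  rw [hcomp] at hpts
  have hP : ((((W₀⁄F)⁄K)⁄(w.adicCompletion K)).localPolynomial (w.adicCompletionIntegers K)).map
      (Int.castRingHom ℂ) =
      (1 - Polynomial.C (α ^ f) * Polynomial.X) * (1 - Polynomial.C (β ^ f) * Polynomial.X) := by
    rw [d6_curve, good_loc _ _ _ (d6_unit W₀ w v hv hΔ), hcard]
    simp only [Polynomial.map_add, Polynomial.map_sub, Polynomial.map_one, Polynomial.map_mul,
      Polynomial.map_X, Polynomial.map_pow, Polynomial.map_C]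
    set N := Nat.card ((W₀.map (d6_hom F K w)).map
      (IsLocalRing.residue (w.adicCompletionIntegers K))).toAffine.Point with hN
    have e1 : (Int.castRingHom ℂ) ((Ideal.absNorm w.asIdeal : ℤ) + 1 - (N : ℤ)) = α ^ f + β ^ f := by
      simp only [eq_intCast, Int.cast_sub, Int.cast_add, Int.cast_natCast, Int.cast_one]
      rw [hpts]
      ring
    have e2 : (Int.castRingHom ℂ) (Ideal.absNorm w.asIdeal : ℤ) = α ^ f * β ^ f := by
      rw [eq_intCast, Int.cast_natCast, hnorm]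
    rw [e1, e2, map_add, map_mul]
    ring
  have hP0 : ((((W₀⁄F)⁄K)⁄(w.adicCompletion K)).localPolynomial
      (w.adicCompletionIntegers K)).coeff 0 = 1 := by
    have := congrArg (fun P : Polynomial ℂ => P.coeff 0) hP
    simp only [Polynomial.coeff_map, Polynomial.mul_coeff_zero] at this
    simpa using this
  unfold LF' ef
  rw [WeierstrassCurve.localEulerFactor, hcard, H55B.I2_cast_ofPS hq,
    WeierstrassCurve.localPowerSeries, H55B.I2_map_invOfUnit _ hP0, hP, ← map_mul,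
    mul_comm ((1 - PowerSeries.C (α ^ f) * PowerSeries.X)⁻¹ : PowerSeries ℂ),
    ← PowerSeries.mul_inv_rev]
  congr 2
  simp

/-- Chunk D6. Bad w: bad_loc with bad_compl, the element j₀ of R_w is the image of j₀ of 𝓞 F (c₄ and Δ of the base change: map_c₄, map_Δ). Then the Euler factor is 1 (see H55B.I2_local_bad). -/
theorem lf_bad {F K : Type} [Field F] [NumberField F] [Field K] [NumberField K] [Algebra F K]
    (W₀ : WeierstrassCurve (𝓞 F)) (w : HeightOneSpectrum (𝓞 K)) (j₀ : 𝓞 F) (hj : W₀.c₄ ^ 3 = j₀ * W₀.Δ)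
    (hb : ¬ GoodAt ((W₀⁄F)⁄K) w) : LF' ((W₀⁄F)⁄K) w = 1 := by
  have hloc : (((W₀⁄F)⁄K)⁄(w.adicCompletion K)).localPolynomial (w.adicCompletionIntegers K) = 1 := by
    refine bad_loc (w.adicCompletionIntegers K) (w.adicCompletion K)
      (((W₀⁄F)⁄K)⁄(w.adicCompletion K)) (d6_hom F K w j₀) ?_ (fun C hC => bad_compl ((W₀⁄F)⁄K) w hb C hC)
    rw [d6_curve]
    show ((W₀.map (d6_hom F K w)).map
      (algebraMap (w.adicCompletionIntegers K) (w.adicCompletion K))).c₄ ^ 3 =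
      algebraMap (w.adicCompletionIntegers K) (w.adicCompletion K) (d6_hom F K w j₀) *
      ((W₀.map (d6_hom F K w)).map
        (algebraMap (w.adicCompletionIntegers K) (w.adicCompletion K))).Δ
    rw [WeierstrassCurve.map_c₄, WeierstrassCurve.map_Δ, WeierstrassCurve.map_c₄,
      WeierstrassCurve.map_Δ, ← map_pow, ← map_pow, hj, map_mul, map_mul]
  unfold LF'
  rw [WeierstrassCurve.localEulerFactor, WeierstrassCurve.localPowerSeries, hloc]
  have h1 : PowerSeries.invOfUnit ((1 : Polynomial ℤ) : PowerSeries ℤ) 1 = 1 := by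
    have h2 := PowerSeries.mul_invOfUnit ((1 : Polynomial ℤ) : PowerSeries ℤ) 1 (by simp)
    rw [Polynomial.coe_one, one_mul] at h2
    rw [Polynomial.coe_one]
    exact h2
  rw [h1, map_one]
  simp

end H55K.DD
end

-- from Lib.H55K.D8
section

/-! # H55K, part D: the values of the Hecke character -/

open NumberField IsDedekindDomain WeierstrassCurve

namespace H55K.DD

open H55P (IQ embF eF IsHecke Nm PsiP mK)

variable {F : Type} [Field F] [NumberField F] [IQ F] {K : Type} [Field K] [NumberField K] [Algebra F K]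
  {m : Ideal (𝓞 F)} {ψ : Ideal (𝓞 F) →*₀ 𝓞 F}

/-- Chunk D8 (S/M). The prime below w; relNorm w = v^f (Ideal.relNorm_eq_pow_of_isMaximal, see H55N.Psi_prime in Lib/H55N/H1.lean). -/
theorem below (w : HeightOneSpectrum (𝓞 K)) : ∃ v : HeightOneSpectrum (𝓞 F), v.asIdeal = w.asIdeal.under (𝓞 F) ∧
    Ideal.relNorm (𝓞 F) w.asIdeal = v.asIdeal ^ (w.asIdeal.inertiaDeg (𝓞 F)) ∧ 0 < w.asIdeal.inertiaDeg (𝓞 F) ∧
    (mK K m ≤ w.asIdeal ↔ m ≤ v.asIdeal) := by
  refine ⟨⟨w.asIdeal.under (𝓞 F), inferInstance, mt Ideal.eq_bot_of_comap_eq_bot w.ne_bot⟩, rfl, ?_, ?_, ?_⟩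
  · have h0 : w.asIdeal.LiesOver (w.asIdeal.under (𝓞 F)) := ⟨rfl⟩
    have h1 := w.isMaximal
    have h2 : (w.asIdeal.under (𝓞 F)).IsMaximal := Ideal.IsMaximal.under (𝓞 F) w.asIdeal
    exact Ideal.relNorm_eq_pow_of_isMaximal w.asIdeal (w.asIdeal.under (𝓞 F))
  · have h1 := w.isMaximal
    exact Ideal.inertiaDeg_pos w.asIdeal (𝓞 F)
  · show m.map (algebraMap (𝓞 F) (𝓞 K)) ≤ w.asIdeal ↔ m ≤ w.asIdeal.under (𝓞 F)
    rw [Ideal.under_def, Ideal.map_le_iff_le_comap]

theorem d8_cop {v : HeightOneSpectrum (𝓞 F)} (hv : ¬ m ≤ v.asIdeal) : IsCoprime v.asIdeal m := by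
  rw [Ideal.isCoprime_iff_sup_eq]
  have hm := v.isMaximal
  refine hm.out.2 _ (lt_of_le_of_ne le_sup_left ?_)
  intro he
  apply hv
  rw [he]
  exact le_sup_right

/-- Chunk D8. α = eF (ψ v), β its complex conjugate, v prime to m (so v = span {ψ v}, hecke.gen): α β = Nm (ψ v) = absNorm v and α + β = absNorm v + 1 - Nm (1 - ψ v) (mul_cj / Nm_eq: Nm x = ‖eF x‖^2 = eF x * conj (eF x)). -/
theorem trc (hψ : IsHecke m ψ) {v : HeightOneSpectrum (𝓞 F)} (hv : ¬ m ≤ v.asIdeal) :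
    eF F (ψ v.asIdeal) * (starRingEnd ℂ) (eF F (ψ v.asIdeal)) = (Ideal.absNorm v.asIdeal : ℂ) ∧
    eF F (ψ v.asIdeal) + (starRingEnd ℂ) (eF F (ψ v.asIdeal)) =
      (Ideal.absNorm v.asIdeal : ℂ) + 1 - (Nm (1 - ψ v.asIdeal) : ℂ) := by
  have h1 : Ideal.span {ψ v.asIdeal} = v.asIdeal := hψ.gen _ (d8_cop hv)
  have h2 : (Ideal.absNorm v.asIdeal : ℂ) = eF F (ψ v.asIdeal) * (starRingEnd ℂ) (eF F (ψ v.asIdeal)) := by
    have h3 : Nm (ψ v.asIdeal) = Ideal.absNorm v.asIdeal := by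
      conv_rhs => rw [← h1]
      rfl
    have h4 := congrArg (eF F) (mul_cj (ψ v.asIdeal))
    rw [map_mul, e_cj, map_natCast, h3] at h4
    exact h4.symm
  have h5 : (Nm (1 - ψ v.asIdeal) : ℂ) = (1 - eF F (ψ v.asIdeal)) * (1 - (starRingEnd ℂ) (eF F (ψ v.asIdeal))) := by
    have h4 := congrArg (eF F) (mul_cj (1 - ψ v.asIdeal))
    rw [map_mul, e_cj, map_natCast, map_sub, map_one, map_sub, map_one] at h4
    exact h4.symm
  refine ⟨h2.symm, ?_⟩
  rw [h5, h2]
  ring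

/-- Chunk D8. hecke.zero: v contains m, so v is not coprime to m, ψ v = 0; PsiP_apply, map_pow, f > 0. -/
theorem psi_bad (hψ : IsHecke m ψ) (w : HeightOneSpectrum (𝓞 K)) (hw : mK K m ≤ w.asIdeal) : PsiP K ψ w.asIdeal = 0 := by
  obtain ⟨v, h1, h2, h3, h4⟩ := below (m := m) w
  have h5 : ψ v.asIdeal = 0 := by
    apply hψ.zero
    intro hc
    have h6 := Ideal.isCoprime_iff_sup_eq.1 hc
    rw [sup_eq_left.2 (h4.1 hw)] at h6
    exact v.isPrime.ne_top h6
  rw [H55P.PsiP_apply, h2, map_pow, h5, zero_pow h3.ne', map_zero, map_zero]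

end H55K.DD
end

-- from Lib.H55K.QA1A
section

/-! # H55K: congruent points -/

open NumberField IsDedekindDomain WeierstrassCurve

namespace H55K.TQ

open H55P (IQ embF eF LF Per IsHecke Pt ac Inert Dec Nm UnitP)
open H35P (WAB Ker tt GoodW IntW)
open H55K.MG (VC Crd)

variable {k : Type} [Field k] {W : WeierstrassCurve k} {V : ValuationSubring k}

/-- Chunk QA1A (S/M). Translate (x, y) to the origin: with α = a₄ + 2 x a₂ - y a₁ + 3 x^2, β = a₃ + x a₁ + 2 y, c = a₂ + 3 x (a₆ becomes 0 by the equation):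
b₂ = a₁^2 + 4c, b₄ = 2α + a₁ β, b₆ = β^2, b₈ = -a₁ α β + c β^2 - α^2 and Δ = -b₂^2 b₈ - 8 b₄^3 - 27 b₆^2 + 9 b₂ b₄ b₆ (Δ does not change under translation: substitute a₆ = y^2 + a₁ x y + a₃ y - x^3 - a₂ x^2 - a₄ x from the
equation and ring). Every term is α times an integral element plus β times an integral element, so V(Δ) ≤ max (V α) (V β). -/
theorem disc_le (hI : IntW W V) {x y : k} (h : W.toAffine.Equation x y) (hx : x ∈ V) (hy : y ∈ V) :
    V.valuation W.Δ ≤ V.valuation (3 * x ^ 2 + 2 * W.a₂ * x + W.a₄ - W.a₁ * y) ∨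
      V.valuation W.Δ ≤ V.valuation (2 * y + W.a₁ * x + W.a₃) := by
  obtain ⟨α, hα⟩ : ∃ α, α = 3 * x ^ 2 + 2 * W.a₂ * x + W.a₄ - W.a₁ * y := ⟨_, rfl⟩
  obtain ⟨β, hβ⟩ : ∃ β, β = 2 * y + W.a₁ * x + W.a₃ := ⟨_, rfl⟩
  rw [← hα, ← hβ]
  rw [Affine.equation_iff] at h
  have h6 : W.a₆ = y ^ 2 + W.a₁ * x * y + W.a₃ * y - x ^ 3 - W.a₂ * x ^ 2 - W.a₄ * x := by linear_combination -h
  obtain ⟨b, hb⟩ : ∃ b, b = W.a₁ ^ 2 + 4 * (W.a₂ + 3 * x) := ⟨_, rfl⟩
  have key : W.Δ = α * (b ^ 2 * W.a₁ * β + b ^ 2 * α - 64 * α ^ 2 - 96 * α * W.a₁ * β - 48 * W.a₁ ^ 2 * β ^ 2) +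
      β * (-(b ^ 2 * (W.a₂ + 3 * x) * β) - 8 * W.a₁ ^ 3 * β ^ 2 - 27 * β ^ 3 + 9 * b * (2 * α + W.a₁ * β) * β) := by
    rw [hb, hα, hβ]
    simp only [WeierstrassCurve.Δ, WeierstrassCurve.b₂, WeierstrassCurve.b₄, WeierstrassCurve.b₆, WeierstrassCurve.b₈]
    rw [h6]
    ring
  have hn : ∀ m : ℕ, (m : k) ∈ V := fun m => natCast_mem V m
  have hαV : α ∈ V := by
    rw [hα]
    exact V.sub_mem (V.add_mem _ _ (V.add_mem _ _ (V.mul_mem _ _ (hn 3) (pow_mem hx 2)) (V.mul_mem _ _ (V.mul_mem _ _ (hn 2) hI.a2) hx)) hI.a4)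
      (V.mul_mem _ _ hI.a1 hy)
  have hβV : β ∈ V := by
    rw [hβ]
    exact V.add_mem _ _ (V.add_mem _ _ (V.mul_mem _ _ (hn 2) hy) (V.mul_mem _ _ hI.a1 hx)) hI.a3
  have hcV : W.a₂ + 3 * x ∈ V := V.add_mem _ _ hI.a2 (V.mul_mem _ _ (hn 3) hx)
  have hbV : b ∈ V := by
    rw [hb]
    exact V.add_mem _ _ (pow_mem hI.a1 2) (V.mul_mem _ _ (hn 4) hcV)
  obtain ⟨A, hA⟩ : ∃ A, A = b ^ 2 * W.a₁ * β + b ^ 2 * α - 64 * α ^ 2 - 96 * α * W.a₁ * β - 48 * W.a₁ ^ 2 * β ^ 2 := ⟨_, rfl⟩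
  obtain ⟨B, hB⟩ : ∃ B, B = -(b ^ 2 * (W.a₂ + 3 * x) * β) - 8 * W.a₁ ^ 3 * β ^ 2 - 27 * β ^ 3 + 9 * b * (2 * α + W.a₁ * β) * β := ⟨_, rfl⟩
  have hAV : A ∈ V := by
    rw [hA]
    refine V.sub_mem (V.sub_mem (V.sub_mem (V.add_mem _ _ ?_ ?_) ?_) ?_) ?_
    · exact V.mul_mem _ _ (V.mul_mem _ _ (pow_mem hbV 2) hI.a1) hβV
    · exact V.mul_mem _ _ (pow_mem hbV 2) hαV
    · exact V.mul_mem _ _ (hn 64) (pow_mem hαV 2)
    · exact V.mul_mem _ _ (V.mul_mem _ _ (V.mul_mem _ _ (hn 96) hαV) hI.a1) hβV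
    · exact V.mul_mem _ _ (V.mul_mem _ _ (hn 48) (pow_mem hI.a1 2)) (pow_mem hβV 2)
  have hBV : B ∈ V := by
    rw [hB]
    refine V.add_mem _ _ (V.sub_mem (V.sub_mem (V.neg_mem _ ?_) ?_) ?_) ?_
    · exact V.mul_mem _ _ (V.mul_mem _ _ (pow_mem hbV 2) hcV) hβV
    · exact V.mul_mem _ _ (V.mul_mem _ _ (hn 8) (pow_mem hI.a1 3)) (pow_mem hβV 2)
    · exact V.mul_mem _ _ (hn 27) (pow_mem hβV 3)
    · exact V.mul_mem _ _ (V.mul_mem _ _ (V.mul_mem _ _ (hn 9) hbV) (V.add_mem _ _ (V.mul_mem _ _ (hn 2) hαV) (V.mul_mem _ _ hI.a1 hβV))) hβV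
  rw [← hA, ← hB] at key
  have h1 : V.valuation (α * A) ≤ V.valuation α := by
    rw [map_mul]
    exact mul_le_of_le_one_right' ((V.valuation_le_one_iff A).2 hAV)
  have h2 : V.valuation (β * B) ≤ V.valuation β := by
    rw [map_mul]
    exact mul_le_of_le_one_right' ((V.valuation_le_one_iff B).2 hBV)
  have h3 : V.valuation W.Δ ≤ max (V.valuation (α * A)) (V.valuation (β * B)) := by
    rw [key]
    exact V.valuation.map_add _ _
  rcases le_max_iff.1 h3 with h4 | h4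
  · exact Or.inl (h4.trans h1)
  · exact Or.inr (h4.trans h2)

end H55K.TQ
end

-- from Lib.H55K.QA1B
section

/-! # H55K: congruent points -/

open NumberField IsDedekindDomain WeierstrassCurve

namespace H55K.TQ

open H55P (IQ embF eF LF Per IsHecke Pt ac Inert Dec Nm UnitP)
open H35P (WAB Ker tt GoodW IntW)
open H55K.MG (VC Crd)

variable {k : Type} [Field k] {W : WeierstrassCurve k} {V : ValuationSubring k}

theorem QA1B_le {a : k} (h : a ∈ V) : V.valuation a ≤ 1 := (V.valuation_le_one_iff a).2 h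

/-- An integral combination with one small factor. -/
theorem QA1B_mul_lt {a b : k} {g : V.ValueGroup} (h : a ∈ V) (hb : V.valuation b < g) :
    V.valuation (a * b) < g := by
  rw [map_mul]
  exact (mul_le_of_le_one_left' (QA1B_le h)).trans_lt hb

theorem QA1B_big [DecidableEq k] (hI : IntW W V) {x₁ x₂ l : k} (h1 : x₁ ∈ V) (h2 : x₂ ∈ V)
    (hl : 1 < V.valuation l) : 1 < V.valuation (W.toAffine.addX x₁ x₂ l) := by
  have e : W.toAffine.addX x₁ x₂ l = l ^ 2 + (W.a₁ * l - (W.a₂ + x₁ + x₂)) := by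
    unfold Affine.addX
    ring
  have hll : V.valuation l < V.valuation (l ^ 2) := by
    rw [map_pow, pow_two]
    exact lt_mul_of_one_lt_left (zero_lt_one.trans hl) hl
  have h3 : V.valuation (W.a₁ * l - (W.a₂ + x₁ + x₂)) < V.valuation (l ^ 2) := by
    refine lt_of_le_of_lt (V.valuation.map_sub_le ?_ ?_) hll
    · rw [map_mul]
      exact mul_le_of_le_one_left' (QA1B_le hI.a1)
    · exact (QA1B_le (V.add_mem _ _ (V.add_mem _ _ hI.a2 h1) h2)).trans hl.le
  rw [e, V.valuation.map_add_eq_of_lt_left h3]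
  exact hl.trans hll

theorem QA1B_div {a b : k} (hab : V.valuation b < V.valuation a) (hb0 : b ≠ 0) :
    1 < V.valuation (a / b) := by
  rw [map_div₀]
  exact (one_lt_div₀ ((V.valuation.pos_iff).2 hb0)).2 hab

/-- Chunk QA1B (M). Port of H35P.rd (RD.lean) with nonsing replaced by disc_le. int coordinates: Ker is false (H35P.Ker; V(x) ≤ 1, and V(y) ≤ 1 by H35P.int_y). P - Q = P + (-Q). Chord, x₁ ≠ x₂: slope = n1/(x₁ - x₂), n1 = y₁ + y₂ + a₁ x₂ + a₃ = β(P) + (small of value < V Δ): if V(β(P)) ≥ V(Δ)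
then V(n1) ≥ V(Δ) > V(x₁ - x₂). Otherwise V(α(P)) ≥ V(Δ) > V(y₁ - y₂), n1 (y₁ - y₂) = (x₁ - x₂)(x₁^2 + x₁x₂ + x₂^2 + a₂(x₁+x₂) + a₄ - a₁ y₁), the second factor is α(P) + (small), so it has the value V(α(P)), it is not 0, y₁ ≠ y₂ and slope = (second factor)/(y₁ - y₂). In both cases V(slope) > 1 and x(P - Q) has value
V(slope)^2 > 1 (RD_big, private in RD.lean: copy it). Tangent: x₁ = x₂, y₁ ≠ y₂, β(P) = y₁ - y₂ has value < V(Δ), slope = α(P)/β(P). P = Q: P - Q = 0. -/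
theorem near [DecidableEq k] (hI : IntW W V) (hΔ : W.Δ ≠ 0) {P Q : W.toAffine.Point} (hP : ¬ Ker V P) (hQ : ¬ Ker V Q)
    (hx : V.valuation (xc P - xc Q) < V.valuation W.Δ) (hy : V.valuation (yc P - yc Q) < V.valuation W.Δ) :
    Ker V (P - Q) := by
  rcases P with _ | ⟨x₁, y₁, h₁⟩
  · exact absurd trivial hP
  rcases Q with _ | ⟨x₂, y₂, h₂⟩
  · exact absurd trivial hQ
  have hvx1 : V.valuation x₁ ≤ 1 := not_lt.1 hP
  have hvx2 : V.valuation x₂ ≤ 1 := not_lt.1 hQ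
  have hvy1 := H35P.int_y hI h₁.1 hvx1
  have hvy2 := H35P.int_y hI h₂.1 hvx2
  have hx1 : x₁ ∈ V := (V.valuation_le_one_iff x₁).1 hvx1
  have hx2 : x₂ ∈ V := (V.valuation_le_one_iff x₂).1 hvx2
  have hy1 : y₁ ∈ V := (V.valuation_le_one_iff y₁).1 hvy1
  have hy2 : y₂ ∈ V := (V.valuation_le_one_iff y₂).1 hvy2
  change V.valuation (x₁ - x₂) < V.valuation W.Δ at hx
  change V.valuation (y₁ - y₂) < V.valuation W.Δ at hy
  have hΔ0 : 0 < V.valuation W.Δ := (V.valuation.pos_iff).2 hΔ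
  have hdisc := disc_le hI h₁.1 hx1 hy1
  rw [sub_eq_add_neg, Affine.Point.neg_some]
  by_cases hc : x₁ = x₂ ∧ y₁ = W.toAffine.negY x₂ (W.toAffine.negY x₂ y₂)
  · rw [Affine.Point.add_of_Y_eq hc.1 hc.2]
    trivial
  rw [Affine.Point.add_some hc]
  change 1 < V.valuation (W.toAffine.addX x₁ x₂ (W.toAffine.slope x₁ x₂ y₁ (W.toAffine.negY x₂ y₂)))
  refine QA1B_big hI hx1 hx2 ?_
  have hE1 := (Affine.equation_iff ..).1 h₁.1
  have hE2 := (Affine.equation_iff ..).1 h₂.1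
  by_cases hxx : x₁ = x₂
  · -- tangent
    have hyy : y₁ ≠ y₂ := fun h => hc ⟨hxx, by rw [Affine.negY_negY]; exact h⟩
    have hneg : y₁ = W.toAffine.negY x₂ y₂ := (Affine.Y_eq_of_X_eq h₁.1 h₂.1 hxx).resolve_left hyy
    have hy' : y₁ ≠ W.toAffine.negY x₂ (W.toAffine.negY x₂ y₂) := fun h => hc ⟨hxx, h⟩
    rw [Affine.slope_of_Y_ne hxx hy']
    have e : y₁ - W.toAffine.negY x₁ y₁ = y₁ - y₂ := by
      congr 1
      rw [hneg, hxx, Affine.negY_negY]
    have e2 : 2 * y₁ + W.a₁ * x₁ + W.a₃ = y₁ - y₂ := by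
      rw [← e]
      unfold Affine.negY
      ring
    rw [e]
    refine QA1B_div ?_ (sub_ne_zero.2 hyy)
    rcases hdisc with h | h
    · exact hy.trans_le h
    · rw [e2] at h
      exact absurd hy (not_lt.2 h)
  · -- chord
    have hxx0 : x₁ - x₂ ≠ 0 := sub_ne_zero.2 hxx
    rw [Affine.slope_of_X_ne hxx]
    have hnegY : y₁ - W.toAffine.negY x₂ y₂ = y₁ + y₂ + W.a₁ * x₂ + W.a₃ := by
      unfold Affine.negY
      ring
    rcases hdisc with hF | hF
    · have hG1 : V.valuation W.Δ ≤ V.valuation (x₁ ^ 2 + x₁ * x₂ + x₂ ^ 2 + W.a₂ * (x₁ + x₂) + W.a₄ - W.a₁ * y₁) := by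
        have e : x₁ ^ 2 + x₁ * x₂ + x₂ ^ 2 + W.a₂ * (x₁ + x₂) + W.a₄ - W.a₁ * y₁ =
            (3 * x₁ ^ 2 + 2 * W.a₂ * x₁ + W.a₄ - W.a₁ * y₁) + -((x₂ + 2 * x₁ + W.a₂) * (x₁ - x₂)) := by ring
        have hsm : V.valuation (-((x₂ + 2 * x₁ + W.a₂) * (x₁ - x₂))) <
            V.valuation (3 * x₁ ^ 2 + 2 * W.a₂ * x₁ + W.a₄ - W.a₁ * y₁) := by
          rw [Valuation.map_neg]
          exact (QA1B_mul_lt (V.add_mem _ _ (V.add_mem _ _ hx2 (V.mul_mem _ _ (by simp) hx1)) hI.a2) hx).trans_le hF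
        rw [e, V.valuation.map_add_eq_of_lt_left hsm]
        exact hF
      have hid : (y₁ - W.toAffine.negY x₂ y₂) * (y₁ - y₂) =
          (x₁ - x₂) * (x₁ ^ 2 + x₁ * x₂ + x₂ ^ 2 + W.a₂ * (x₁ + x₂) + W.a₄ - W.a₁ * y₁) := by
        rw [hnegY]
        linear_combination hE1 - hE2
      have hyy : y₁ - y₂ ≠ 0 := by
        intro h0
        rw [h0, mul_zero] at hid
        rcases mul_eq_zero.1 hid.symm with h | h
        · exact hxx0 h
        · rw [h, map_zero] at hG1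
          exact absurd hG1 (not_le.2 hΔ0)
      have e : (y₁ - W.toAffine.negY x₂ y₂) / (x₁ - x₂) =
          (x₁ ^ 2 + x₁ * x₂ + x₂ ^ 2 + W.a₂ * (x₁ + x₂) + W.a₄ - W.a₁ * y₁) / (y₁ - y₂) := by
        rw [div_eq_div_iff hxx0 hyy, hid]
        ring
      rw [e]
      exact QA1B_div (hy.trans_le hG1) hyy
    · have hn : V.valuation W.Δ ≤ V.valuation (y₁ - W.toAffine.negY x₂ y₂) := by
        have e : y₁ - W.toAffine.negY x₂ y₂ = (2 * y₁ + W.a₁ * x₁ + W.a₃) + -((y₁ - y₂) + W.a₁ * (x₁ - x₂)) := by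
          rw [hnegY]
          ring
        have hsm : V.valuation (-((y₁ - y₂) + W.a₁ * (x₁ - x₂))) <
            V.valuation (2 * y₁ + W.a₁ * x₁ + W.a₃) := by
          rw [Valuation.map_neg]
          exact (V.valuation.map_add_lt hy (QA1B_mul_lt hI.a1 hx)).trans_le hF
        rw [e, V.valuation.map_add_eq_of_lt_left hsm]
        exact hF
      exact QA1B_div (hx.trans_le hn) hxx0

end H55K.TQ
end

-- from Lib.H55K.QB1A
section

/-! # H55K: extension of the valuation ring to an algebraic closure -/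

open NumberField IsDedekindDomain WeierstrassCurve

namespace H55K.TQ

open H55P (IQ embF eF LF Per IsHecke Pt ac Inert Dec Nm UnitP)
open H35P (WAB Ker tt GoodW IntW)
open H55K.MG (VC Crd)

variable {k : Type} [Field k] {Ω : Type} [Field Ω] [Algebra k Ω]

/-- Chunk QB1A (S/M). The image of V₀ in Ω is a local subring (V₀ as a LocalSubring: ValuationSubring.toLocalSubring, its image under algebraMap: LocalSubring.map or by hand); LocalSubring.exists_le_valuationSubring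
gives V dominating it: V₀ maps into V and the maximal ideal of V₀ maps into the elements of value < 1. So x in V₀ implies x in V, and if x is not in V₀ then 1/x has value < 1 in V₀, so 1/x has value < 1 in V and x is not in V. -/
theorem exists_ext (V₀ : ValuationSubring k) :
    ∃ V : ValuationSubring Ω, ∀ x : k, algebraMap k Ω x ∈ V ↔ x ∈ V₀ := by
  obtain ⟨V, hV⟩ := LocalSubring.exists_le_valuationSubring (V₀.toLocalSubring.map (algebraMap k Ω))
  have hmem : ∀ x ∈ V₀, algebraMap k Ω x ∈ V := fun x hx => hV.1 ⟨x, hx, rfl⟩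
  refine ⟨V, fun x => ⟨fun hx => ?_, hmem x⟩⟩
  by_contra hn
  have hx0 : x ≠ 0 := by
    rintro rfl
    exact hn V₀.zero_mem
  have hinv : x⁻¹ ∈ V₀ := (V₀.mem_or_inv_mem x).resolve_left hn
  -- the image of x⁻¹ is a unit of V, so of the image of V₀
  have hu : IsUnit (Subring.inclusion hV.1 ⟨algebraMap k Ω x⁻¹, ⟨x⁻¹, hinv, rfl⟩⟩) := by
    refine isUnit_iff_exists_inv.mpr ⟨⟨algebraMap k Ω x, hx⟩, Subtype.ext ?_⟩
    show algebraMap k Ω x⁻¹ * algebraMap k Ω x = 1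
    rw [← map_mul, inv_mul_cancel₀ hx0, map_one]
  obtain ⟨y, hy⟩ := isUnit_iff_exists_inv.mp (hV.2.1 _ hu)
  obtain ⟨z, hz, hzy⟩ := y.2
  have h1 : algebraMap k Ω x⁻¹ * (y : Ω) = 1 := congrArg Subtype.val hy
  rw [← hzy] at h1
  have h2 : algebraMap k Ω (x⁻¹ * z) = algebraMap k Ω 1 := by
    rw [map_mul, map_one]
    exact h1
  have h3 := (algebraMap k Ω).injective h2
  have h4 : z = x := by
    field_simp at h3
    exact h3
  rw [h4] at hz
  exact hn hz

/-- Chunk QB1A (S). The values correspond. -/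
theorem ext_val {V₀ : ValuationSubring k} {V : ValuationSubring Ω}
    (h : ∀ x : k, algebraMap k Ω x ∈ V ↔ x ∈ V₀) (x y : k) :
    (V.valuation (algebraMap k Ω x) ≤ V.valuation (algebraMap k Ω y) ↔ V₀.valuation x ≤ V₀.valuation y) ∧
    (V.valuation (algebraMap k Ω x) < V.valuation (algebraMap k Ω y) ↔ V₀.valuation x < V₀.valuation y) := by
  have hle : ∀ x y : k, (V.valuation (algebraMap k Ω x) ≤ V.valuation (algebraMap k Ω y) ↔ V₀.valuation x ≤ V₀.valuation y) := by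
    intro x y
    by_cases hy : y = 0
    · subst hy
      rw [map_zero, map_zero, map_zero, le_zero_iff, le_zero_iff, map_eq_zero, map_eq_zero, map_eq_zero]
    · have hy' : algebraMap k Ω y ≠ 0 := (map_ne_zero _).2 hy
      have h1 : V.valuation (algebraMap k Ω x) ≤ V.valuation (algebraMap k Ω y) ↔ algebraMap k Ω (x / y) ∈ V := by
        rw [← V.valuation_le_one_iff, map_div₀, map_div₀, div_le_one₀]
        exact zero_lt_iff.2 ((map_ne_zero _).2 hy')
      have h2 : V₀.valuation x ≤ V₀.valuation y ↔ x / y ∈ V₀ := by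
        rw [← V₀.valuation_le_one_iff, map_div₀, div_le_one₀]
        exact zero_lt_iff.2 ((map_ne_zero _).2 hy)
      rw [h1, h2]
      exact h _
  refine ⟨hle x y, ?_⟩
  rw [← not_le, ← not_le, hle y x]

end H55K.TQ
end

-- from Lib.H55K.T9D
section

/-! # H55K: good reduction over a subfield and valuation rings of the algebraic closure -/

open NumberField IsDedekindDomain WeierstrassCurve

namespace H55K.TQ

open H55P (IQ embF eF LF Per IsHecke Pt ac Inert Dec Nm UnitP)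
open H35P (WAB Ker tt GoodW IntW)
open H55K.MG (VC Crd)

/-- Chunk T9D (S/M). A valuation ring of Ω above a prime w of M: exists_ext (QB1A) for the valuation subring of w.valuation M. -/
theorem exists_V {F : Type} [Field F] [NumberField F] {Ω : Type} [Field Ω] [Algebra F Ω]
    (M : IntermediateField F Ω) [NumberField M] (w : HeightOneSpectrum (𝓞 M)) :
    ∃ V : ValuationSubring Ω, ∀ a : 𝓞 M, a ∈ w.asIdeal → V.valuation ((a : M) : Ω) < 1 := by
  obtain ⟨V, hV⟩ := exists_ext (k := M) (Ω := Ω) (w.valuation M).valuationSubring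
  refine ⟨V, fun a ha => ?_⟩
  have h1 := (ext_val hV (a : M) 1).2
  rw [map_one, map_one, map_one] at h1
  refine h1.2 ?_
  have h2 := (Valuation.isEquiv_valuation_valuationSubring (w.valuation M)).lt_one_iff_lt_one (x := (a : M))
  rw [← h2]
  have h3 : w.valuation M (algebraMap (𝓞 M) M a) < 1 := (HeightOneSpectrum.valuation_lt_one_iff_mem w a).2 ha
  exact h3

end H55K.TQ
end

-- from Lib.H55K.QD2
section

/-! # H55K: points over the base field -/

open NumberField IsDedekindDomain WeierstrassCurve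

namespace H55K.TQ

open H55P (IQ embF eF LF Per IsHecke Pt ac Inert Dec Nm UnitP)
open H35P (WAB Ker tt GoodW IntW)
open H55K.MG (VC Crd)

/-- The identity on coordinates for equal curves. -/
noncomputable def qd2_cast {k : Type} [Field k] [DecidableEq k] {W₁ W₂ : WeierstrassCurve k} (h : W₁ = W₂) :
    W₁.toAffine.Point ≃+ W₂.toAffine.Point := by
  subst h
  exact AddEquiv.refl _

theorem qd2_cast_some {k : Type} [Field k] [DecidableEq k] {W₁ W₂ : WeierstrassCurve k} (h : W₁ = W₂) (x y : k)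
    (hn : W₁.toAffine.Nonsingular x y) :
    qd2_cast h (Affine.Point.some x y hn) = Affine.Point.some x y (h ▸ hn) := by
  subst h
  rfl

theorem qd2_base {k : Type} [Field k] (W : WeierstrassCurve k) : W⁄k = W := by
  cases W
  rfl

/-- φ is the inclusion of the points over k in the points over Ω. -/
def Inc {k : Type} [Field k] [DecidableEq k] {Ω : Type} [Field Ω] [DecidableEq Ω] [Algebra k Ω] (W : WeierstrassCurve k)
    (φ : W.toAffine.Point →+ Pt W Ω) : Prop :=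
  ∀ P, P ≠ 0 → φ P ≠ 0 ∧ xc (φ P) = algebraMap k Ω (xc P) ∧ yc (φ P) = algebraMap k Ω (yc P)

/-- Chunk QD2 (S/M). Affine.Point.map for the algebra map k → Ω (base change of W from k to k is W: W.map (algebraMap k k) = W; use Affine.Point.map (Algebra.ofId k Ω) and the identification W⁄k = W, see H55P.z11_cast in Z11.lean, or Affine.Point.map for W with R = k, F = k if W⁄k unfolds). -/
theorem exists_inc {k : Type} [Field k] [DecidableEq k] {Ω : Type} [Field Ω] [DecidableEq Ω] [Algebra k Ω]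
    (W : WeierstrassCurve k) : ∃ φ : W.toAffine.Point →+ Pt W Ω, Inc W φ := by
  refine ⟨(Affine.Point.map (W' := W.toAffine) (Algebra.ofId k Ω)).comp
    (qd2_cast (qd2_base W).symm).toAddMonoidHom, ?_⟩
  intro P hP
  rcases P with _ | ⟨x, y, h⟩
  · exact absurd rfl hP
  · have e1 : ((Affine.Point.map (W' := W.toAffine) (Algebra.ofId k Ω)).comp
        (qd2_cast (qd2_base W).symm).toAddMonoidHom) (Affine.Point.some x y h) =
        Affine.Point.map (W' := W.toAffine) (Algebra.ofId k Ω) (qd2_cast (qd2_base W).symm (Affine.Point.some x y h)) := rfl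
    rw [e1, qd2_cast_some]
    exact ⟨Affine.Point.some_ne_zero _, rfl, rfl⟩

end H55K.TQ
end

-- from Lib.H55K.QC1B
section

/-! # H55K: the good model of a curve with integral j-invariant -/

open NumberField IsDedekindDomain WeierstrassCurve

namespace H55K.TQ

open H55P (IQ embF eF LF Per IsHecke Pt ac Inert Dec Nm UnitP)
open H35P (WAB Ker tt GoodW IntW)
open H55K.MG (VC Crd)

/-- Chunk QC1B (S/M). Composition of changes of variables. -/
theorem vc_comp {k : Type} [Field k] {W W' W'' : WeierstrassCurve k} {u r s t u' r' s' t' : k} (h : VC W W' u r s t)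
    (h' : VC W' W'' u' r' s' t') :
    VC W W'' (u * u') (u ^ 2 * r' + r) (u * s' + s) (u ^ 3 * t' + s * u ^ 2 * r' + t) := by
  obtain ⟨hu, e1, e2, e3, e4, e6⟩ := h
  obtain ⟨hu', f1, f2, f3, f4, f6⟩ := h'
  refine ⟨mul_ne_zero hu hu', ?_, ?_, ?_, ?_, ?_⟩
  · linear_combination u * f1 + e1
  · linear_combination u ^ 2 * f2 + e2 - u * s' * e1
  · linear_combination u ^ 3 * f3 + e3 + u ^ 2 * r' * e1
  · linear_combination u ^ 4 * f4 + e4 - u * s' * e3 + 2 * r' * u ^ 2 * e2 - (t' + r' * s') * u ^ 3 * e1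
  · linear_combination u ^ 6 * f6 + e6 + r' * u ^ 2 * e4 + r' ^ 2 * u ^ 4 * e2 - t' * u ^ 3 * e3 -
      r' * t' * u ^ 5 * e1

/-- Chunk QC1B (S/M). The inverse. -/
theorem vc_inv {k : Type} [Field k] {W W' : WeierstrassCurve k} {u r s t : k} (h : VC W W' u r s t) :
    VC W' W u⁻¹ (-(r / u ^ 2)) (-(s / u)) ((s * r - t) / u ^ 3) := by
  obtain ⟨hu, e1, e2, e3, e4, e6⟩ := h
  refine ⟨inv_ne_zero hu, ?_, ?_, ?_, ?_, ?_⟩
  · apply mul_left_cancel₀ hu
    field_simp
    linear_combination -e1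
  · apply mul_left_cancel₀ (pow_ne_zero 2 hu)
    field_simp
    linear_combination -e2 - s * e1
  · apply mul_left_cancel₀ (pow_ne_zero 3 hu)
    field_simp
    linear_combination -e3 + r * e1
  · apply mul_left_cancel₀ (pow_ne_zero 4 hu)
    field_simp
    linear_combination -e4 - s * e3 + 2 * r * e2 + (2 * s * r - t) * e1
  · apply mul_left_cancel₀ (pow_ne_zero 6 hu)
    field_simp
    linear_combination -e6 + r * e4 - r ^ 2 * e2 + (s * r - t) * e3 - r * (s * r - t) * e1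

/-- Chunk QC1B (S). Existence: divide. -/
theorem vc_ex {k : Type} [Field k] (W : WeierstrassCurve k) {u : k} (hu : u ≠ 0) (r s t : k) :
    ∃ W', VC W W' u r s t := by
  refine ⟨⟨(W.a₁ + 2 * s) / u, (W.a₂ - s * W.a₁ + 3 * r - s ^ 2) / u ^ 2, (W.a₃ + r * W.a₁ + 2 * t) / u ^ 3,
    (W.a₄ - s * W.a₃ + 2 * r * W.a₂ - (t + r * s) * W.a₁ + 3 * r ^ 2 - 2 * s * t) / u ^ 4,
    (W.a₆ + r * W.a₄ + r ^ 2 * W.a₂ + r ^ 3 - t * W.a₃ - t ^ 2 - r * t * W.a₁) / u ^ 6⟩, hu, ?_, ?_, ?_, ?_, ?_⟩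
  · exact mul_div_cancel₀ _ hu
  · exact mul_div_cancel₀ _ (pow_ne_zero 2 hu)
  · exact mul_div_cancel₀ _ (pow_ne_zero 3 hu)
  · exact mul_div_cancel₀ _ (pow_ne_zero 4 hu)
  · exact mul_div_cancel₀ _ (pow_ne_zero 6 hu)

/-- Chunk QC1B (S). Uniqueness. -/
theorem vc_uniq {k : Type} [Field k] {W W₁ W₂ : WeierstrassCurve k} {u r s t : k} (h₁ : VC W W₁ u r s t)
    (h₂ : VC W W₂ u r s t) : W₁ = W₂ := by
  have hu := h₁.une
  apply WeierstrassCurve.ext
  · exact mul_left_cancel₀ hu (h₁.h1.trans h₂.h1.symm)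
  · exact mul_left_cancel₀ (pow_ne_zero 2 hu) (h₁.h2.trans h₂.h2.symm)
  · exact mul_left_cancel₀ (pow_ne_zero 3 hu) (h₁.h3.trans h₂.h3.symm)
  · exact mul_left_cancel₀ (pow_ne_zero 4 hu) (h₁.h4.trans h₂.h4.symm)
  · exact mul_left_cancel₀ (pow_ne_zero 6 hu) (h₁.h6.trans h₂.h6.symm)

end H55K.TQ
end

-- from Lib.H55K.QC1C
section

/-! # H55K: the good model of a curve with integral j-invariant -/

open NumberField IsDedekindDomain WeierstrassCurve

namespace H55K.TQ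

open H55P (IQ embF eF LF Per IsHecke Pt ac Inert Dec Nm UnitP)
open H35P (WAB Ker tt GoodW IntW)
open H55K.MG (VC Crd)

theorem qc1c_smul {k : Type} [Field k] (W : WeierstrassCurve k) (C : VariableChange k) :
    VC W (C • W) (C.u : k) C.r C.s C.t := by
  have hu : (C.u : k) ≠ 0 := C.u.ne_zero
  have hi : (C.u : k) * ((C.u⁻¹ : kˣ) : k) = 1 := Units.mul_inv C.u
  have hp : ∀ n : ℕ, (C.u : k) ^ n * ((C.u⁻¹ : kˣ) : k) ^ n = 1 := by
    intro n
    rw [← mul_pow, hi, one_pow]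
  refine ⟨hu, ?_, ?_, ?_, ?_, ?_⟩
  · rw [variableChange_a₁, ← mul_assoc, hi, one_mul]
  · rw [variableChange_a₂, ← mul_assoc, hp, one_mul]
  · rw [variableChange_a₃, ← mul_assoc, hp, one_mul]
  · rw [variableChange_a₄, ← mul_assoc, hp, one_mul]
  · rw [variableChange_a₆, ← mul_assoc, hp, one_mul]

/-- Chunk QC1C (S/M). The discriminant and c₄ (VariableChange: variableChange_Δ in Mathlib, or ring after multiplying with powers of u). -/
theorem vc_disc {k : Type} [Field k] {W W' : WeierstrassCurve k} {u r s t : k} (h : VC W W' u r s t) :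
    u ^ 12 * W'.Δ = W.Δ ∧ u ^ 4 * W'.c₄ = W.c₄ ∧ u ^ 6 * W'.c₆ = W.c₆ := by
  have hW : W' = (⟨Units.mk0 u h.une, r, s, t⟩ : VariableChange k) • W :=
    vc_uniq h (qc1c_smul W ⟨Units.mk0 u h.une, r, s, t⟩)
  have hp : ∀ n : ℕ, u ^ n * (((Units.mk0 u h.une)⁻¹ : kˣ) : k) ^ n = 1 := by
    intro n
    rw [← mul_pow]
    have h1 : u * (((Units.mk0 u h.une)⁻¹ : kˣ) : k) = 1 := Units.mul_inv (Units.mk0 u h.une)
    rw [h1, one_pow]
  refine ⟨?_, ?_, ?_⟩
  · rw [hW, variableChange_Δ, ← mul_assoc, hp, one_mul]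
  · rw [hW, variableChange_c₄, ← mul_assoc, hp, one_mul]
  · rw [hW, variableChange_c₆, ← mul_assoc, hp, one_mul]

/-- Chunk QC1C (S/M). The relation with the changes of variables of Mathlib (VariableChange, C • W): coefficients of variableChange_def. -/
theorem vc_smul {k : Type} [Field k] (W : WeierstrassCurve k) (C : VariableChange k) :
    VC W (C • W) (C.u : k) C.r C.s C.t := by
  exact qc1c_smul W C

/-- Chunk QC1C (S). Base change. -/
theorem vc_map {k k' : Type} [Field k] [Field k'] (f : k →+* k') {W W' : WeierstrassCurve k} {u r s t : k} (h : VC W W' u r s t) :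
    VC (W.map f) (W'.map f) (f u) (f r) (f s) (f t) := by
  obtain ⟨hu, e1, e2, e3, e4, e6⟩ := h
  refine ⟨(map_ne_zero f).2 hu, ?_, ?_, ?_, ?_, ?_⟩
  · have := congrArg f e1
    simp only [map_mul, map_add, map_sub, map_pow, map_ofNat] at this
    exact this
  · have := congrArg f e2
    simp only [map_mul, map_add, map_sub, map_pow, map_ofNat] at this
    exact this
  · have := congrArg f e3
    simp only [map_mul, map_add, map_sub, map_pow, map_ofNat] at this
    exact this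
  · have := congrArg f e4
    simp only [map_mul, map_add, map_sub, map_pow, map_ofNat] at this
    exact this
  · have := congrArg f e6
    simp only [map_mul, map_add, map_sub, map_pow, map_ofNat] at this
    exact this

end H55K.TQ
end

-- from Lib.H55K.QC1D
section

/-! # H55K: the good model of a curve with integral j-invariant -/

open NumberField IsDedekindDomain WeierstrassCurve

namespace H55K.TQ

open H55P (IQ embF eF LF Per IsHecke Pt ac Inert Dec Nm UnitP)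
open H35P (WAB Ker tt GoodW IntW)
open H55K.MG (VC Crd)

theorem qc1d_two {k : Type} [Field k] {V : ValuationSubring k} {x b c : k} (hb : b ∈ V) (hc : c ∈ V)
    (h : x ^ 2 + b * x = c) : x ∈ V := by
  rcases V.mem_or_inv_mem x with h1 | h1
  · exact h1
  · by_cases h0 : x = 0
    · rw [h0]
      exact V.zero_mem
    · have e : x = c * x⁻¹ - b := by
        field_simp
        linear_combination h
      rw [e]
      exact sub_mem (V.mul_mem _ _ hc h1) hb

theorem qc1d_four {k : Type} [Field k] {V : ValuationSubring k} {x b c d : k} (hb : b ∈ V) (hc : c ∈ V)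
    (hd : d ∈ V) (h : x ^ 4 = b * x ^ 2 + c * x + d) : x ∈ V := by
  rcases V.mem_or_inv_mem x with h1 | h1
  · exact h1
  · by_cases h0 : x = 0
    · rw [h0]
      exact V.zero_mem
    · have e : x = b * x⁻¹ + c * (x⁻¹ * x⁻¹) + d * (x⁻¹ * x⁻¹ * x⁻¹) := by
        field_simp
        linear_combination h
      rw [e]
      exact V.add_mem _ _ (V.add_mem _ _ (V.mul_mem _ _ hb h1) (V.mul_mem _ _ hc (V.mul_mem _ _ h1 h1)))
        (V.mul_mem _ _ hd (V.mul_mem _ _ (V.mul_mem _ _ h1 h1) h1))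

theorem qc1d_nat {k : Type} [Field k] (V : ValuationSubring k) (n : ℕ) : (n : k) ∈ V := by
  exact natCast_mem V n

theorem qc1d_inv {k : Type} [Field k] {V : ValuationSubring k} {u : k} (hu : V.valuation u = 1) :
    u ∈ V ∧ u⁻¹ ∈ V := by
  constructor
  · rw [← V.valuation_le_one_iff, hu]
  · rw [← V.valuation_le_one_iff, map_inv₀, hu, inv_one]

theorem qc1d_div {k : Type} [Field k] {V : ValuationSubring k} {u x y : k} (hu : V.valuation u = 1) (n : ℕ)
    (h : u ^ n * x = y) (hy : y ∈ V) : x ∈ V := by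
  rw [← V.valuation_le_one_iff] at hy ⊢
  rw [← h, map_mul, map_pow, hu, one_pow, one_mul] at hy
  exact hy

/-- Chunk QC1D (S). Integral change of variables with a unit u: W' is good if W is. -/
theorem vc_good {k : Type} [Field k] {V : ValuationSubring k} {W W' : WeierstrassCurve k} {u r s t : k} (h : VC W W' u r s t)
    (hG : GoodW W V) (hu : V.valuation u = 1) (hr : r ∈ V) (hs : s ∈ V) (ht : t ∈ V) : GoodW W' V := by
  have h2 : (2 : k) ∈ V := by exact_mod_cast qc1d_nat V 2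
  have h3 : (3 : k) ∈ V := by exact_mod_cast qc1d_nat V 3
  have m : ∀ {x y : k}, x ∈ V → y ∈ V → x * y ∈ V := fun hx hy => V.mul_mem _ _ hx hy
  have a : ∀ {x y : k}, x ∈ V → y ∈ V → x + y ∈ V := fun hx hy => V.add_mem _ _ hx hy
  have b : ∀ {x y : k}, x ∈ V → y ∈ V → x - y ∈ V := fun hx hy => sub_mem hx hy
  have p : ∀ {x : k} (n : ℕ), x ∈ V → x ^ n ∈ V := fun n hx => pow_mem hx n
  have a1 := hG.a1
  have a2 := hG.a2
  have a3 := hG.a3
  have a4 := hG.a4
  have a6 := hG.a6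
  refine ⟨⟨?_, ?_, ?_, ?_, ?_⟩, ?_⟩
  · exact qc1d_div hu 1 (by rw [pow_one]; exact h.h1) (a a1 (m h2 hs))
  · exact qc1d_div hu 2 h.h2 (b (a (b a2 (m hs a1)) (m h3 hr)) (p 2 hs))
  · exact qc1d_div hu 3 h.h3 (a (a a3 (m hr a1)) (m h2 ht))
  · exact qc1d_div hu 4 h.h4 (b (a (b (a (b a4 (m hs a3)) (m (m h2 hr) a2)) (m (a ht (m hr hs)) a1))
      (m h3 (p 2 hr))) (m (m h2 hs) ht))
  · exact qc1d_div hu 6 h.h6 (b (b (b (a (a (a a6 (m hr a4)) (m (p 2 hr) a2)) (p 3 hr)) (m ht a3)) (p 2 ht))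
      (m (m hr ht) a1))
  · have h4 := (vc_disc h).1
    have h5 := congrArg V.valuation h4
    rw [map_mul, map_pow, hu, one_pow, one_mul, hG.disc] at h5
    exact h5

/-- Chunk QC1D (S/M). Two good equations: the change of variables is integral with a unit u. u: u^12 Δ' = Δ. Then (u = unit): 2s and 3 r - s^2 - s a₁ are in V from h1, h2, h3.. and from h4, h6: r satisfies an integral equation (the standard argument: Silverman VII.1.3 (d)):
b₂: u^2 b₂' = b₂ + 12 r, b₄: u^4 b₄' = b₄ + r b₂ + 6 r^2, b₆: u^6 b₆' = b₆ + 2 r b₄ + r^2 b₂ + 4 r^3, b₈: u^8 b₈' = b₈ + 3 r b₆ + 3 r^2 b₄ + r^3 b₂ + 3 r^4. The b₆ and b₈ relations give monic-like equations: if V(r) > 1 then V(4 r^3) ≤ V(r)^2 and V(3 r^4) ≤ V(r)^3, so V(4) V(r) ≤ 1 and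
V(3) V(r) ≤ 1, 4 - 3 = 1: V(r) ≤ 1. Then s: s^2 + s a₁ = (integral) (h2), so s is in V; t: t^2 + t (a₃ + r a₁) = integral (h6), so t is in V. -/
theorem vc_int {k : Type} [Field k] {V : ValuationSubring k} {W W' : WeierstrassCurve k} {u r s t : k} (h : VC W W' u r s t)
    (hG : IntW W V) (hG' : IntW W' V) (hu : V.valuation u = 1) : r ∈ V ∧ s ∈ V ∧ t ∈ V := by
  have h2 : (2 : k) ∈ V := by exact_mod_cast qc1d_nat V 2
  have h3 : (3 : k) ∈ V := by exact_mod_cast qc1d_nat V 3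
  have h4 : (4 : k) ∈ V := by exact_mod_cast qc1d_nat V 4
  have m : ∀ {x y : k}, x ∈ V → y ∈ V → x * y ∈ V := fun hx hy => V.mul_mem _ _ hx hy
  have a : ∀ {x y : k}, x ∈ V → y ∈ V → x + y ∈ V := fun hx hy => V.add_mem _ _ hx hy
  have b : ∀ {x y : k}, x ∈ V → y ∈ V → x - y ∈ V := fun hx hy => sub_mem hx hy
  have p : ∀ {x : k} (n : ℕ), x ∈ V → x ^ n ∈ V := fun n hx => pow_mem hx n
  have hb : ∀ {X : WeierstrassCurve k}, IntW X V → X.b₄ ∈ V ∧ X.b₆ ∈ V ∧ X.b₈ ∈ V := by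
    intro X hX
    have a1 := hX.a1
    have a2 := hX.a2
    have a3 := hX.a3
    have a4 := hX.a4
    have a6 := hX.a6
    refine ⟨?_, ?_, ?_⟩
    · unfold WeierstrassCurve.b₄
      exact a (m h2 a4) (m a1 a3)
    · unfold WeierstrassCurve.b₆
      exact a (p 2 a3) (m h4 a6)
    · unfold WeierstrassCurve.b₈
      exact b (a (b (a (m (p 2 a1) a6) (m (m h4 a2) a6)) (m (m a1 a3) a4)) (m a2 (p 2 a3))) (p 2 a4)
  obtain ⟨b4, b6, b8⟩ := hb hG
  obtain ⟨b4', b6', b8'⟩ := hb hG'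
  have hu1 := (qc1d_inv hu).1
  have e6 : u ^ 6 * W'.b₆ = W.b₆ + 2 * r * W.b₄ + r ^ 2 * W.b₂ + 4 * r ^ 3 := by
    have e : u ^ 6 * W'.b₆ = (u ^ 3 * W'.a₃) ^ 2 + 4 * (u ^ 6 * W'.a₆) := by
      unfold WeierstrassCurve.b₆
      ring
    rw [e, h.h3, h.h6]
    unfold WeierstrassCurve.b₆ WeierstrassCurve.b₄ WeierstrassCurve.b₂
    ring
  have e8 : u ^ 8 * W'.b₈ = W.b₈ + 3 * r * W.b₆ + 3 * r ^ 2 * W.b₄ + r ^ 3 * W.b₂ + 3 * r ^ 4 := by
    have e : u ^ 8 * W'.b₈ = (u * W'.a₁) ^ 2 * (u ^ 6 * W'.a₆) + 4 * (u ^ 2 * W'.a₂) * (u ^ 6 * W'.a₆) -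
        (u * W'.a₁) * (u ^ 3 * W'.a₃) * (u ^ 4 * W'.a₄) + (u ^ 2 * W'.a₂) * (u ^ 3 * W'.a₃) ^ 2 -
        (u ^ 4 * W'.a₄) ^ 2 := by
      unfold WeierstrassCurve.b₈
      ring
    rw [e, h.h1, h.h2, h.h3, h.h4, h.h6]
    unfold WeierstrassCurve.b₈ WeierstrassCurve.b₆ WeierstrassCurve.b₄ WeierstrassCurve.b₂
    ring
  have hr : r ∈ V := by
    refine qc1d_four (b := W.b₄) (c := 2 * W.b₆ + u ^ 6 * W'.b₆) (d := W.b₈ - u ^ 8 * W'.b₈) b4
      (a (m h2 b6) (m (p 6 hu1) b6')) (b b8 (m (p 8 hu1) b8')) ?_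
    rw [e6, e8]
    ring
  have hs : s ∈ V := by
    refine qc1d_two (b := W.a₁) (c := W.a₂ + 3 * r - u ^ 2 * W'.a₂) hG.a1
      (b (a hG.a2 (m h3 hr)) (m (p 2 hu1) hG'.a2)) ?_
    rw [h.h2]
    ring
  refine ⟨hr, hs, ?_⟩
  refine qc1d_two (b := W.a₃ + r * W.a₁) (c := W.a₆ + r * W.a₄ + r ^ 2 * W.a₂ + r ^ 3 - u ^ 6 * W'.a₆)
    (a hG.a3 (m hr hG.a1)) (b (a (a (a hG.a6 (m hr hG.a4)) (m (p 2 hr) hG.a2)) (p 3 hr))
      (m (p 6 hu1) hG'.a6)) ?_
  rw [h.h6]
  ring


end H55K.TQ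
end

-- from Lib.H55P.L2
section

open NumberField IsDedekindDomain

namespace H55P

open H55N
open H55B (g)

variable {F : Type} [Field F] [NumberField F] [IQ F] {K : Type} [Field K] [NumberField K]
  [Algebra F K] {m : ℕ}

/-! Chunk PL2 (M), PORT of Lib/H55N/L2.lean (L2_col, L2_bij, L2_uu_add, ... of H55N/L2.lean do not use F: use them). Changes: 2 becomes p, lam becomes l, 6 becomes p l; the coordinate
vectors are Yv s j = [s = j] + p (b' (1 - c s)) [j0 = j] with a' l + b' (p c_{j0}) = 1. In labels_low: D.I = mK K M * f * b and M <= (l), so an element of mK K M * (f * b) is l t with t in b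
(mK K M <= span {algebraMap l}, Ideal.mem_span_singleton_mul). one_le_e in H55P/F0.lean gives the lower bound. labels_indep: d <> 0 because p is not a unit of O. -/

theorem L2F_trace_mul (t : 𝓞 F) (x : K) :
    Algebra.trace F K (((algebraMap (𝓞 F) (𝓞 K) t : 𝓞 K) : K) * x) =
      algebraMap (𝓞 F) F t * Algebra.trace F K x := by
  have h : ((algebraMap (𝓞 F) (𝓞 K) t : 𝓞 K) : K) * x = (algebraMap (𝓞 F) F t) • x := by
    rw [Algebra.smul_def]
    rfl
  rw [h, map_smul, smul_eq_mul]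

theorem L2F_coe_mul {K : Type} [Field K] [NumberField K] (x y : 𝓞 K) :
    ((x * y : 𝓞 K) : K) = (x : K) * (y : K) := rfl

theorem L2F_coe_add {K : Type} [Field K] [NumberField K] (x y : 𝓞 K) :
    ((x + y : 𝓞 K) : K) = (x : K) + (y : K) := rfl

theorem L2F_coe_sum {K : Type} [Field K] [NumberField K] {ι : Type} (s : Finset ι) (f : ι → 𝓞 K) :
    ((∑ i ∈ s, f i : 𝓞 K) : K) = ∑ i ∈ s, (f i : K) := map_sum (algebraMap (𝓞 K) K) f s

/-- The trace pairing of two vectors in dual bases. -/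
theorem L2F_pair (β : Fin (m + 1) → 𝓞 K) (β' : Fin (m + 1) → K)
    (hdual : ∀ j k, Algebra.trace F K ((β j : K) * β' k) = if j = k then 1 else 0)
    (x y : Fin (m + 1) → 𝓞 F) :
    Algebra.trace F K (((∑ j, algebraMap (𝓞 F) (𝓞 K) (x j) * β j : 𝓞 K) : K) *
      ∑ k, (algebraMap (𝓞 F) F (y k)) • β' k) = algebraMap (𝓞 F) F (∑ j, x j * y j) := by
  rw [L2F_coe_sum, Finset.sum_mul, map_sum, map_sum]
  refine Finset.sum_congr rfl fun j _ => ?_
  rw [L2F_coe_mul, mul_assoc, L2F_trace_mul, map_mul (algebraMap (𝓞 F) F)]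
  congr 1
  rw [Finset.mul_sum, map_sum, Finset.sum_eq_single j]
  · rw [mul_smul_comm, map_smul, hdual, if_pos rfl, smul_eq_mul, mul_one]
  · intro k _ hk
    rw [mul_smul_comm, map_smul, hdual, if_neg hk.symm, smul_zero]
  · intro h
    exact absurd (Finset.mem_univ j) h

theorem L2F_uu_add {K : Type} [Field K] [NumberField K] (u : Fin m → (𝓞 K)ˣ) (z z' : Fin m → ℤ) :
    uu u (z + z') = uu u z * uu u z' := by
  unfold uu
  rw [← Finset.prod_mul_distrib]
  exact Finset.prod_congr rfl fun j _ => by rw [Pi.add_apply, zpow_add]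

theorem L2F_coprime_of_sq {p d : 𝓞 F} (h : Ideal.Quotient.mk (Ideal.span {p}) (d * d) = 1) :
    IsCoprime d p := by
  rw [← map_one (Ideal.Quotient.mk (Ideal.span {p})), Ideal.Quotient.eq,
    Ideal.mem_span_singleton] at h
  obtain ⟨t, ht⟩ := h
  exact ⟨d, -t, by linear_combination ht⟩

/-- A matrix congruent to a permutation matrix modulo p has determinant prime to p. -/
theorem L2F_det (p : 𝓞 F) (s : Equiv.Perm (Fin (m + 1)))
    (Y W : Matrix (Fin (m + 1)) (Fin (m + 1)) (𝓞 F))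
    (hY : ∀ k j, Y k j = (if s k = j then 1 else 0) + p * W k j) : IsCoprime Y.det p := by
  apply L2F_coprime_of_sq
  set φ := Ideal.Quotient.mk (Ideal.span {p}) with hφ
  have h2 : φ p = 0 := by
    rw [hφ, Ideal.Quotient.eq_zero_iff_mem]
    exact Ideal.mem_span_singleton_self p
  have h1 : φ.mapMatrix Y =
      (1 : Matrix (Fin (m + 1)) (Fin (m + 1)) (𝓞 F ⧸ Ideal.span {p})).submatrix s id := by
    ext k j
    rw [RingHom.mapMatrix_apply, Matrix.map_apply, hY, map_add, map_mul, h2, zero_mul, add_zero,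
      Matrix.submatrix_apply, Matrix.one_apply]
    rw [id_eq]
    by_cases h : s k = j
    · rw [if_pos h, if_pos h, map_one]
    · rw [if_neg h, if_neg h, map_zero]
  rw [map_mul, RingHom.map_det, h1, Matrix.det_permute, Matrix.det_one, mul_one]
  rcases Int.units_eq_one_or (Equiv.Perm.sign s) with h | h <;> rw [h] <;> simp

theorem L2F_not_unit (p : ℕ) (hp : p.Prime) : ¬ IsUnit (p : 𝓞 F) := by
  intro h
  have h4 := (Ideal.absNorm_eq_one_iff (I := Ideal.span {(p : 𝓞 F)})).2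
    (Ideal.span_singleton_eq_top.2 h)
  rw [Ideal.absNorm_span_singleton] at h4
  have h5 : (Algebra.norm ℤ (p : 𝓞 F)) = (p : ℤ) ^ Module.finrank ℤ (𝓞 F) := by
    have h6 := Algebra.norm_algebraMap (S := 𝓞 F) (p : ℤ)
    simpa using h6
  rw [h5, Int.natAbs_pow, Int.natAbs_natCast] at h4
  have h7 : Module.finrank ℤ (𝓞 F) ≠ 0 := by
    rw [RingOfIntegers.rank]
    exact Module.finrank_pos.ne'
  have h9 := Nat.one_lt_pow h7 hp.one_lt
  omega

theorem labels_exist (hm : Module.finrank F K = m + 1) (p : ℕ) (hp : p.Prime) (l : 𝓞 F)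
    (hl : Prime l) (hlp : IsCoprime l (p : 𝓞 F)) (b : Ideal (𝓞 K)) (hb : b ≠ ⊥)
    (c₀ : 𝓞 K) (hc : c₀ ∈ b) (hc' : c₀ ∉ Ideal.span {algebraMap (𝓞 F) (𝓞 K) l} * b)
    (u : Fin m → (𝓞 K)ˣ)
    (hu : ∀ z, (uu u z : 𝓞 K) - 1 ∈ Ideal.span {(p : 𝓞 K) * algebraMap (𝓞 F) (𝓞 K) l}) :
    ∃ L : (Fin m → ℤ) → K, LabP p l b c₀ u L := by
  classical
  obtain ⟨β, β', hβ, hdual, hrep, hind⟩ := dual_basis hm b hb
  obtain ⟨c, hcc⟩ := hrep c₀ hc
  -- a coordinate not divisible by l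
  obtain ⟨j₀, hj₀⟩ : ∃ j₀, ¬ l ∣ c j₀ := by
    by_contra hcon
    push Not at hcon
    choose c' hc'' using hcon
    apply hc'
    rw [Ideal.mem_span_singleton_mul]
    refine ⟨∑ j, algebraMap (𝓞 F) (𝓞 K) (c' j) * β j, b.sum_mem fun j _ => b.mul_mem_left _ (hβ j), ?_⟩
    rw [hcc, Finset.mul_sum]
    refine Finset.sum_congr rfl fun j _ => ?_
    rw [hc'' j, map_mul]
    ring
  have hcop : IsCoprime l ((p : 𝓞 F) * c j₀) :=
    IsCoprime.mul_right hlp ((Prime.coprime_iff_not_dvd hl).2 hj₀)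
  obtain ⟨a', b', hab⟩ := hcop
  -- the coordinate vectors
  let Yv : Fin (m + 1) → Fin (m + 1) → 𝓞 F := fun s j =>
    (if s = j then 1 else 0) + (p : 𝓞 F) * (b' * (1 - c s) * if j₀ = j then 1 else 0)
  have hYone : ∀ s, ∑ j, c j * Yv s j = 1 + l * (-(a' * (1 - c s))) := by
    intro s
    have h1 : ∑ j, c j * Yv s j = c s + (p : 𝓞 F) * (b' * (1 - c s)) * c j₀ := by
      simp only [Yv, mul_add, Finset.sum_add_distrib]
      congr 1
      · simp
      · rw [Finset.sum_eq_single j₀]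
        · rw [if_pos rfl]; ring
        · intro j _ hj
          rw [if_neg hj.symm]; ring
        · intro h
          exact absurd (Finset.mem_univ _) h
    rw [h1]
    linear_combination (1 - c s) * hab
  let L0 : Fin (m + 1) → K := fun s => ∑ k, (algebraMap (𝓞 F) F (Yv s k)) • β' k
  have hL0 : ∀ (x : Fin (m + 1) → 𝓞 F) (s : Fin (m + 1)),
      Algebra.trace F K (((∑ j, algebraMap (𝓞 F) (𝓞 K) (x j) * β j : 𝓞 K) : K) * L0 s) =
        algebraMap (𝓞 F) F (∑ j, x j * Yv s j) := fun x s => L2F_pair β β' hdual x (Yv s)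
  have hL0b : ∀ x ∈ b, ∀ s, ∃ y : 𝓞 F, Algebra.trace F K ((x : K) * L0 s) = algebraMap (𝓞 F) F y := by
    intro x hx s
    obtain ⟨y, hy⟩ := hrep x hx
    exact ⟨_, by rw [hy]; exact hL0 y s⟩
  let L : (Fin m → ℤ) → K := fun a =>
    ((uu u (fun i => a i / ((m + 1 : ℕ) : ℤ)) : 𝓞 K) : K) * L0 (L2_col a)
  -- the action of the units modulo p l
  have hmod : ∀ (x : 𝓞 K) (_ : x ∈ b) (z : Fin m → ℤ) (s : Fin (m + 1)), ∃ w : 𝓞 F,
      Algebra.trace F K ((x : K) * (((uu u z : 𝓞 K) : K) * L0 s)) =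
        Algebra.trace F K ((x : K) * L0 s) + algebraMap (𝓞 F) F ((p : 𝓞 F) * l * w) := by
    intro x hx z s
    obtain ⟨t, ht⟩ := Ideal.mem_span_singleton.1 (hu z)
    obtain ⟨w, hw⟩ := hL0b (t * x) (b.mul_mem_left _ hx) s
    refine ⟨w, ?_⟩
    have h1 : (uu u z : 𝓞 K) = 1 + algebraMap (𝓞 F) (𝓞 K) ((p : 𝓞 F) * l) * t := by
      rw [map_mul, map_natCast]
      linear_combination ht
    have h2 : (x : K) * (((uu u z : 𝓞 K) : K) * L0 s) =
        (x : K) * L0 s + ((algebraMap (𝓞 F) (𝓞 K) ((p : 𝓞 F) * l) : 𝓞 K) : K) *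
          (((t * x : 𝓞 K) : K) * L0 s) := by
      rw [h1]
      have h3 : ((1 + algebraMap (𝓞 F) (𝓞 K) ((p : 𝓞 F) * l) * t : 𝓞 K) : K) =
          1 + ((algebraMap (𝓞 F) (𝓞 K) ((p : 𝓞 F) * l) : 𝓞 K) : K) * (t : K) := by
        rw [L2F_coe_add, L2F_coe_mul]
        rfl
      rw [h3, L2F_coe_mul]
      ring
    rw [h2, map_add, L2F_trace_mul, hw, ← map_mul (algebraMap (𝓞 F) F)]
  refine ⟨L, ⟨?_, ?_, ?_, ?_⟩⟩
  · intro a z
    have hn : ((m + 1 : ℕ) : ℤ) ≠ 0 := by positivity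
    have h1 : L2_col (a + ((m + 1 : ℕ) : ℤ) • z) = L2_col a := by
      apply L2_col_eq
      have : ∑ i, (a + ((m + 1 : ℕ) : ℤ) • z) i = ∑ i, a i + ((m + 1 : ℕ) : ℤ) * ∑ i, z i := by
        simp only [Pi.add_apply, Pi.smul_apply, smul_eq_mul, Finset.sum_add_distrib, Finset.mul_sum]
      rw [this, Int.add_mul_emod_self_left]
    have h2 : (fun i => (a + ((m + 1 : ℕ) : ℤ) • z) i / ((m + 1 : ℕ) : ℤ)) =
        (fun i => a i / ((m + 1 : ℕ) : ℤ)) + z := by
      funext i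
      simp only [Pi.add_apply, Pi.smul_apply, smul_eq_mul]
      rw [Int.add_mul_ediv_left _ _ hn]
    show ((uu u (fun i => (a + ((m + 1 : ℕ) : ℤ) • z) i / ((m + 1 : ℕ) : ℤ)) : 𝓞 K) : K) *
      L0 (L2_col (a + ((m + 1 : ℕ) : ℤ) • z)) = _
    rw [h1, h2, L2F_uu_add, Units.val_mul, L2F_coe_mul]
    show _ = ((uu u z : 𝓞 K) : K) *
      (((uu u (fun i => a i / ((m + 1 : ℕ) : ℤ)) : 𝓞 K) : K) * L0 (L2_col a))
    ring
  · intro a x hx
    have h1 : (x : K) * L a =
        ((x * (uu u (fun i => a i / ((m + 1 : ℕ) : ℤ)) : 𝓞 K) : 𝓞 K) : K) * L0 (L2_col a) := by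
      rw [L2F_coe_mul, mul_assoc]
    rw [h1]
    exact hL0b _ (b.mul_mem_right _ hx) _
  · intro a
    obtain ⟨w, hw⟩ := hmod c₀ hc (fun i => a i / ((m + 1 : ℕ) : ℤ)) (L2_col a)
    have h1 := hL0 c (L2_col a)
    rw [← hcc, hYone] at h1
    refine ⟨-(a' * (1 - c (L2_col a))) + (p : 𝓞 F) * w, ?_⟩
    show Algebra.trace F K ((c₀ : K) *
      (((uu u (fun i => a i / ((m + 1 : ℕ) : ℤ)) : 𝓞 K) : K) * L0 (L2_col a))) = _
    rw [hw, h1, ← map_add]
    congr 1
    ring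
  · intro a π
    let s : Equiv.Perm (Fin (m + 1)) := Equiv.ofBijective _ (L2_bij a π)
    have hs : ∀ k, s k = L2_col (kv a π k) := fun k => rfl
    -- the matrix of the coordinates
    have hY : ∀ k j : Fin (m + 1), ∃ W : 𝓞 F, Algebra.trace F K ((β j : K) * L (kv a π k)) =
        algebraMap (𝓞 F) F ((if s k = j then 1 else 0) + (p : 𝓞 F) * W) := by
      intro k j
      obtain ⟨w, hw⟩ := hmod (β j) (hβ j) (fun i => kv a π k i / ((m + 1 : ℕ) : ℤ))
        (L2_col (kv a π k))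
      have h1 := hL0 (Pi.single j 1) (L2_col (kv a π k))
      have h2 : ∑ i, algebraMap (𝓞 F) (𝓞 K) ((Pi.single j 1 : Fin (m + 1) → 𝓞 F) i) * β i = β j := by
        rw [Finset.sum_eq_single j]
        · rw [Pi.single_eq_same, map_one, one_mul]
        · intro i _ hi
          rw [Pi.single_eq_of_ne hi, map_zero, zero_mul]
        · intro h
          exact absurd (Finset.mem_univ _) h
      have h3 : ∑ i, (Pi.single j 1 : Fin (m + 1) → 𝓞 F) i * Yv (L2_col (kv a π k)) i =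
          Yv (L2_col (kv a π k)) j := by
        rw [Finset.sum_eq_single j]
        · rw [Pi.single_eq_same, one_mul]
        · intro i _ hi
          rw [Pi.single_eq_of_ne hi, zero_mul]
        · intro h
          exact absurd (Finset.mem_univ _) h
      rw [h2, h3] at h1
      refine ⟨b' * (1 - c (L2_col (kv a π k))) * (if j₀ = j then 1 else 0) + l * w, ?_⟩
      show Algebra.trace F K ((β j : K) *
        (((uu u (fun i => kv a π k i / ((m + 1 : ℕ) : ℤ)) : 𝓞 K) : K) * L0 (L2_col (kv a π k)))) = _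
      rw [hw, h1, ← map_add]
      congr 1
      rw [hs]
      simp only [Yv]
      ring
    choose W hW using hY
    let Y : Matrix (Fin (m + 1)) (Fin (m + 1)) (𝓞 F) := fun k j => (if s k = j then 1 else 0) + (p : 𝓞 F) * W k j
    refine ⟨Y.det, L2F_det (p : 𝓞 F) s Y W fun k j => rfl, fun y => ?_⟩
    refine ⟨∑ j, algebraMap (𝓞 F) (𝓞 K) ((Y.adjugate.mulVec y) j) * β j,
      b.sum_mem fun j _ => b.mul_mem_left _ (hβ j), fun k => ?_⟩
    rw [L2F_coe_sum, Finset.sum_mul, map_sum]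
    have h1 : ∀ j, Algebra.trace F K
        (((algebraMap (𝓞 F) (𝓞 K) ((Y.adjugate.mulVec y) j) * β j : 𝓞 K) : K) * L (kv a π k)) =
          algebraMap (𝓞 F) F (Y k j * (Y.adjugate.mulVec y) j) := by
      intro j
      rw [L2F_coe_mul, mul_assoc, L2F_trace_mul, hW k j, mul_comm, ← map_mul]
    rw [Finset.sum_congr rfl fun j _ => h1 j, ← map_sum]
    congr 1
    have h2 : Y.mulVec (Y.adjugate.mulVec y) = Y.det • y := by
      rw [Matrix.mulVec_mulVec, Matrix.mul_adjugate, Matrix.smul_mulVec, Matrix.one_mulVec]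
    exact congrFun h2 k

/-- The labels of a simplex are linearly independent over F: if sum_k f_k L_k = 0, multiply by x in b with Tr(x L_k) = d y_k and take traces: sum_k f_k d y_k = 0 for all y in
O^n, d <> 0 (2 is not a unit of O). -/
theorem labels_indep (p : ℕ) (hp : p.Prime) (l : 𝓞 F) (b : Ideal (𝓞 K)) (c₀ : 𝓞 K) (u : Fin m → (𝓞 K)ˣ)
    (L : (Fin m → ℤ) → K) (hL : LabP p l b c₀ u L) (a : Fin m → ℤ) (π : Equiv.Perm (Fin m)) :
    LinearIndependent F fun k : Fin (m + 1) => L (kv a π k) := by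
  rw [Fintype.linearIndependent_iff]
  intro g hg k₀
  obtain ⟨d, hd, h⟩ := hL.cop a π
  obtain ⟨x, _, hx⟩ := h (Pi.single k₀ 1)
  have hd0 : d ≠ 0 := by
    rintro rfl
    exact L2F_not_unit p hp (isCoprime_zero_left.1 hd)
  have h1 := congrArg (fun t => Algebra.trace F K ((x : K) * t)) hg
  simp only [Finset.mul_sum, map_sum, mul_zero, map_zero, mul_smul_comm, map_smul, smul_eq_mul,
    hx] at h1
  rw [Finset.sum_eq_single k₀] at h1
  · rw [Pi.single_eq_same, mul_one] at h1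
    rcases mul_eq_zero.1 h1 with h2 | h2
    · exact h2
    · exfalso
      apply hd0
      exact RingOfIntegers.coe_injective (h2.trans (map_zero _).symm)
  · intro k _ hk
    rw [Pi.single_eq_of_ne hk, mul_zero, map_zero, mul_zero]
  · intro h
    exact absurd (Finset.mem_univ _) h

/-- The values on the class X = c₀ + 3 f b. -/
theorem labels_low (D : Ctx F K m) (hE : Emb F D.σ) (p : ℕ) (M : Ideal (𝓞 F)) (l : 𝓞 F) (hl : Prime l)
    (hM : M ≤ Ideal.span {l}) (b f : Ideal (𝓞 K)) (c₀ : 𝓞 K)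
    (hD : D.I = mK K M * f * b ∧ D.c₀ = c₀) (u : Fin m → (𝓞 K)ˣ) (L : (Fin m → ℤ) → K)
    (hL : LabP p l b c₀ u L) (a : Fin m → ℤ) :
    ∀ x ∈ D.X, (∃ y : 𝓞 F, D.Tr (L a) x = eF F (1 + l * y)) ∧ 1 ≤ ‖D.Tr (L a) x‖ := by
  intro x hx
  have key : ∃ y : 𝓞 F, D.Tr (L a) x = eF F (1 + l * y) := by
    have hx1 : x - c₀ ∈ Ideal.span {algebraMap (𝓞 F) (𝓞 K) l} * (f * b) := by
      have h0 : mK K M * (f * b) = D.I := by
        rw [hD.1]
        exact (mul_assoc _ _ _).symm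
      have h1 : mK K M ≤ Ideal.span {algebraMap (𝓞 F) (𝓞 K) l} := by
        have h2 := Ideal.map_mono (f := algebraMap (𝓞 F) (𝓞 K)) hM
        rw [Ideal.map_span, Set.image_singleton] at h2
        exact h2
      refine Ideal.mul_mono_left h1 ?_
      rw [h0, ← hD.2]
      exact hx
    obtain ⟨t, ht, hxt⟩ := Ideal.mem_span_singleton_mul.1 hx1
    have htb : t ∈ b := Ideal.mul_le_right ht
    obtain ⟨y, hy⟩ := hL.one a
    obtain ⟨w, hw⟩ := hL.int a t htb
    refine ⟨y + w, ?_⟩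
    rw [Tr_eq D hE]
    have h1 : (x : K) * L a = (c₀ : K) * L a +
        ((algebraMap (𝓞 F) (𝓞 K) l : 𝓞 K) : K) * ((t : K) * L a) := by
      have h2 : x = c₀ + algebraMap (𝓞 F) (𝓞 K) l * t := by linear_combination -hxt
      rw [h2, L2F_coe_add, L2F_coe_mul]
      ring
    rw [h1, map_add, L2F_trace_mul, hy, hw, ← map_mul (algebraMap (𝓞 F) F),
      ← map_add (algebraMap (𝓞 F) F)]
    show eF F _ = eF F _
    congr 1
    ring
  refine ⟨key, ?_⟩
  obtain ⟨y, hy⟩ := key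
  rw [hy]
  refine one_le_e ?_
  intro h3
  apply hl.not_isUnit
  apply isUnit_of_dvd_one
  exact ⟨-y, by linear_combination h3⟩

end H55P
end
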