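import Mathlib
import Pool.Agent.Lib.H1M.PP2.D_H55K_FD
import Pool.Agent.Lib.H1M.PP2.D_H55K_QD
import Pool.Agent.Lib.H1M.PP2.D_H55P_CStm
import Pool.Agent.Lib.H1M.PP2.D_H55P_GD
import Pool.Agent.Lib.H1M.PP2.D_H55P_SD
import Pool.Agent.Lib.H1M.PP2.D_H55P_Stm
import Pool.Agent.Lib.H1M.PP2.D_H55P_Z10
import Pool.Agent.Lib.H1M.PP2.M007
import Pool.Agent.Lib.H1M.PP2.M010
import Pool.Agent.Lib.H1M.PP2.M022
import Pool.Agent.Lib.H1M.PP2.M054
import Pool.Agent.Lib.H1M.PP2.M062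
import Pool.Agent.Lib.H1M.PP2.M063
import Pool.Agent.Lib.H1M.PP2.M073

/-! Merged copies (to shorten the build) of Lib.H55K.FD_T, Lib.H55K.J11, Lib.H55P.T12, Lib.H55K.G7B, Lib.H55K.T2, Lib.H55K.T7A, Lib.H55K.G4B, Lib.H55K.G4C, Lib.H55K.G5B, Lib.H55K.G7A, Lib.H55K.M4C, Lib.H55K.T1, Lib.H55K.QE0, Lib.H55K.T5, Lib.H55K.J4A, Lib.H55K.J4B, Lib.H55P.Z10_T. -/

-- from Lib.H55K.FD_T
section

/-! # H55K: the statements for curves over the rationals -/

open NumberField IsDedekindDomain WeierstrassCurve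

namespace H55K.TQ

open H55P (IQ embF eF LF Per IsHecke Pt ac Inert Dec Nm UnitP)
open H35P (WAB Ker tt GoodW IntW)
open H55K.MG (VC Crd)






/-- K is (isomorphic to) a subfield of a Galois extension L of F of degree a power of p in which p is unramified. -/
def SubUF (F : Type) [Field F] [NumberField F] (p : ℕ) (K : Type) [Field K] [NumberField K] : Prop :=
  ∃ (L : Type) (_ : Field L) (_ : NumberField L) (_ : Algebra F L) (_ : Algebra K L),
    IsGalois F L ∧ (∃ k : ℕ, Module.finrank F L = p ^ k) ∧ H55P.UnrP p L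



/-- The product of the algebraic part of the Hecke L-value over K and of its complex conjugate is divisible by all primes above p. -/
def NonG {F : Type} [Field F] [NumberField F] [IQ F] (p : ℕ) (Om : ℂ) (ψ : Ideal (𝓞 F) →*₀ 𝓞 F)
    (K : IntermediateField F (AlgebraicClosure F)) [NumberField K] : Prop :=
  ∃ Φ : ℂ → ℂ, AnalyticOnNhd ℂ Φ {s | 1 / 2 < s.re} ∧
    (∀ s : ℂ, 3 / 2 < s.re → HasSum (H55N.tm (H55P.PsiP K ψ) s) (Φ s)) ∧
    ∀ V : ValuationSubring ℂ, V.valuation (p : ℂ) < 1 →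
      V.valuation (Φ 1 / Om ^ Module.finrank F K) * V.valuation ((starRingEnd ℂ) (Φ 1 / Om ^ Module.finrank F K)) < 1

end H55K.TQ
end

-- from Lib.H55K.J11
section

open NumberField WeierstrassCurve

namespace H55K.JJ

open H55P (IQ embF eF LF Per Pt ac Nm)
open H35P (WAB Ker IntW)

/-! Chunk J11 (S/M). jj = 6912 A^3/(4A^3 + 27B^2) in Ω, V(jj) > 1, so V(jj - 1728) = V(jj) > 1. W' = ⟨1, 0, 0, -36/(jj - 1728), -1/(jj - 1728)⟩: V(a4), V(a6) < 1; Δ = jj^2/(jj - 1728)^3 <> 0, c4 = jj/(jj - 1728), c4^3 = jj Δ (unfold, field_simp, ring).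
W = (WAB A B)⁄Ω: c4^3 = jj Δ, Δ <> 0 as in good_model (M2C). vc_of_j: VC W W' u r s t; h1: u = 2 s (a1 = 0, a1' = 1), h2: 0 = 3 r - s^2, h3: 0 = 2 t, so s = u/2, r = u^2/12, t = 0. vc_iso (M1B): Θ. -/

theorem exists_md {F : Type} [Field F] [NumberField F] {Ω : Type} [Field Ω] [DecidableEq Ω] [Algebra F Ω]
    [IsAlgClosed Ω] {A B : F} (hd : 4 * A ^ 3 + 27 * B ^ 2 ≠ 0) (V : ValuationSubring Ω)
    (hj : 1 < V.valuation (algebraMap F Ω (6912 * A ^ 3 / (4 * A ^ 3 + 27 * B ^ 2)))) :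
    ∃ (W' : WeierstrassCurve Ω) (u : Ω) (Θ : Pt (WAB A B) Ω ≃+ W'.toAffine.Point), Md A B V W' u Θ := by
  have c0 : CharZero Ω := charZero_of_injective_algebraMap (algebraMap F Ω).injective
  obtain ⟨jj, hjj⟩ : ∃ jj, jj = algebraMap F Ω (6912 * A ^ 3 / (4 * A ^ 3 + 27 * B ^ 2)) := ⟨_, rfl⟩
  rw [← hjj] at hj
  have hΔ : ((WAB A B)⁄Ω).Δ = algebraMap F Ω (-16 * (4 * A ^ 3 + 27 * B ^ 2)) := by
    refine ((WAB A B).map_Δ (algebraMap F Ω)).trans ?_
    congr 1
    simp only [WAB, WeierstrassCurve.Δ, WeierstrassCurve.b₂, WeierstrassCurve.b₄,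
      WeierstrassCurve.b₆, WeierstrassCurve.b₈]
    ring
  have hc : ((WAB A B)⁄Ω).c₄ = algebraMap F Ω (-48 * A) := by
    refine ((WAB A B).map_c₄ (algebraMap F Ω)).trans ?_
    congr 1
    simp only [WAB, WeierstrassCurve.c₄, WeierstrassCurve.b₂, WeierstrassCurve.b₄]
    ring
  have h1 : ((WAB A B)⁄Ω).Δ ≠ 0 := by
    rw [hΔ]
    exact (map_ne_zero _).2 (mul_ne_zero (by norm_num) hd)
  have h3 : ((WAB A B)⁄Ω).c₄ ^ 3 = jj * ((WAB A B)⁄Ω).Δ := by
    rw [hΔ, hc, hjj, ← map_pow, ← map_mul]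
    congr 1
    have e := div_mul_cancel₀ (6912 * A ^ 3) hd
    linear_combination (16 : F) * e
  have hnat : ∀ n : ℕ, V.valuation (n : Ω) ≤ 1 := by
    intro n
    rw [V.valuation_le_one_iff]
    exact natCast_mem V n
  have hj0 : jj ≠ 0 := by
    intro h
    rw [h, map_zero] at hj
    exact not_lt_zero hj
  have hm : V.valuation (jj - 1728) = V.valuation jj := by
    have h := hnat 1728
    have e : jj - 1728 = jj + -((1728 : ℕ) : Ω) := by push_cast; ring
    rw [e]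
    exact Valuation.map_add_eq_of_lt_left _ (by rw [Valuation.map_neg]; exact lt_of_le_of_lt h hj)
  have hm0 : jj - 1728 ≠ 0 := by
    intro h
    rw [h, map_zero] at hm
    rw [← hm] at hj
    exact not_lt_zero hj
  have hvm : 1 < V.valuation (jj - 1728) := by rw [hm]; exact hj
  have hinv : V.valuation (jj - 1728)⁻¹ < 1 := by
    rw [map_inv₀]
    exact inv_lt_one_of_one_lt₀ hvm
  have hΔ' : (⟨1, 0, 0, -36 / (jj - 1728), -1 / (jj - 1728)⟩ : WeierstrassCurve Ω).Δ =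
      jj ^ 2 / (jj - 1728) ^ 3 := by
    simp only [WeierstrassCurve.Δ, WeierstrassCurve.b₂, WeierstrassCurve.b₄,
      WeierstrassCurve.b₆, WeierstrassCurve.b₈]
    field_simp
    ring
  have hc' : (⟨1, 0, 0, -36 / (jj - 1728), -1 / (jj - 1728)⟩ : WeierstrassCurve Ω).c₄ =
      jj / (jj - 1728) := by
    simp only [WeierstrassCurve.c₄, WeierstrassCurve.b₂, WeierstrassCurve.b₄]
    field_simp
    ring
  have h2 : (⟨1, 0, 0, -36 / (jj - 1728), -1 / (jj - 1728)⟩ : WeierstrassCurve Ω).Δ ≠ 0 := by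
    rw [hΔ']
    exact div_ne_zero (pow_ne_zero _ hj0) (pow_ne_zero _ hm0)
  have h4 : (⟨1, 0, 0, -36 / (jj - 1728), -1 / (jj - 1728)⟩ : WeierstrassCurve Ω).c₄ ^ 3 =
      jj * (⟨1, 0, 0, -36 / (jj - 1728), -1 / (jj - 1728)⟩ : WeierstrassCurve Ω).Δ := by
    rw [hΔ', hc']
    field_simp
  obtain ⟨u, r, s, t, hvc⟩ := MG.vc_of_j h1 h2 h3 h4
  obtain ⟨Θ, hΘ⟩ := MG.vc_iso hvc h1 h2
  have e1 : ((WAB A B)⁄Ω).a₁ = 0 := by
    refine ((WAB A B).map_a₁ (algebraMap F Ω)).trans ?_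
    simp [WAB]
  have e2 : ((WAB A B)⁄Ω).a₂ = 0 := by
    refine ((WAB A B).map_a₂ (algebraMap F Ω)).trans ?_
    simp [WAB]
  have e3 : ((WAB A B)⁄Ω).a₃ = 0 := by
    refine ((WAB A B).map_a₃ (algebraMap F Ω)).trans ?_
    simp [WAB]
  have g1 := hvc.h1
  have g2 := hvc.h2
  have g3 := hvc.h3
  rw [e1] at g1 g2 g3
  rw [e2] at g2
  rw [e3] at g3
  simp only at g1 g2 g3
  have hs : s = u / 2 := by linear_combination -(g1 / 2)
  have ht : t = 0 := by linear_combination -(g3 / 2)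
  have hr : r = u ^ 2 / 12 := by
    have h12 : (12 : Ω) ≠ 0 := by norm_num
    rw [eq_div_iff h12]
    linear_combination (-4) * g2 + 4 * (s + u / 2) * hs
  refine ⟨_, u, Θ, ⟨hvc.une, ⟨rfl, rfl, rfl, ?_, ?_⟩, h2, ?_⟩⟩
  · show V.valuation (-36 / (jj - 1728)) < 1
    rw [neg_div, Valuation.map_neg, div_eq_mul_inv, map_mul]
    have h := hnat 36
    push_cast at h
    exact lt_of_le_of_lt (mul_le_of_le_one_left' h) hinv
  · show V.valuation (-1 / (jj - 1728)) < 1
    rw [neg_div, Valuation.map_neg, one_div]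
    exact hinv
  · rw [hs, ht, hr] at hΘ
    exact hΘ

end H55K.JJ
end

-- from Lib.H55P.T12
section

open NumberField IsDedekindDomain

namespace H55P

open H55N
open H55B (g)

variable {F : Type} [Field F] [NumberField F] [IQ F]

/-! Chunk PT12 (M). Going up. NTP_up: the ideal a O' (a.map): relNorm (a.map) = a^[K':K] (Ideal.relNorm_algebraMap), so PsiP K' (a.map) = PsiP K a ^ (p^k) by PsiP_top, pow_max. Coprimality: map. adm_up: for W above w, relNorm W = w^f (CH2_norm or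
Ideal.relNorm_eq_pow_of_isMaximal), f = inertiaDeg is a power of p: hf. PsiP K' W = PsiP K w ^ f; conj; pow_max with x = conj (PsiP K w), PsiP_int. -/

theorem pt12_rank (K K' : Type) [Field K] [NumberField K] [Field K'] [NumberField K']
    [Algebra K K'] : Module.finrank (𝓞 K) (𝓞 K') = Module.finrank K K' :=
  (IsFractionRing.finrank_eq (𝓞 K) K (𝓞 K') K').symm

theorem NTP_up (K K' : Type) [Field K] [NumberField K] [Algebra F K] [Field K'] [NumberField K']
    [Algebra F K'] [Algebra K K'] [IsScalarTower F K K'] (p : ℕ) (hp : p.Prime) (k : ℕ)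
    (hn : Module.finrank K K' = p ^ k) {M : Ideal (𝓞 F)} {ψ : Ideal (𝓞 F) →*₀ 𝓞 F}
    (V : ValuationSubring ℂ) (hV : V.valuation (p : ℂ) < 1) (h : NTP K p M ψ V) : NTP K' p M ψ V := by
  obtain ⟨a, ha1, ha2, ha3⟩ := h
  refine ⟨a.map (algebraMap (𝓞 K) (𝓞 K')), ?_, ?_, ?_⟩
  · have h1 := ha1.map (Ideal.mapHom (algebraMap (𝓞 K) (𝓞 K')))
    have h2 : (Ideal.span {(p : 𝓞 K)}).map (algebraMap (𝓞 K) (𝓞 K')) =
        Ideal.span {(p : 𝓞 K')} := by
      rw [Ideal.map_span, Set.image_singleton, map_natCast]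
    rw [← h2]
    exact h1
  · have h1 := ha2.map (Ideal.mapHom (algebraMap (𝓞 K) (𝓞 K')))
    have h2 : (mK K M).map (algebraMap (𝓞 K) (𝓞 K')) = mK K' M := by
      unfold mK
      rw [Ideal.map_map, ← IsScalarTower.algebraMap_eq]
    rw [← h2]
    exact h1
  · rw [PsiP_top (K := K), Ideal.relNorm_algebraMap, pt12_rank, hn, map_pow]
    exact pow_max p hp V hV _ (PsiP_int ψ a V).1 ha3 k

theorem adm_up (K K' : Type) [Field K] [NumberField K] [Algebra F K] [Field K'] [NumberField K']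
    [Algebra F K'] [Algebra K K'] [IsScalarTower F K K'] (p : ℕ) (hp : p.Prime)
    {ψ : Ideal (𝓞 F) →*₀ 𝓞 F} (V : ValuationSubring ℂ) (hV : V.valuation (p : ℂ) < 1)
    (w : HeightOneSpectrum (𝓞 K)) (W : HeightOneSpectrum (𝓞 K'))
    (hW : W.asIdeal.under (𝓞 K) = w.asIdeal) (hf : ∃ j : ℕ, W.asIdeal.inertiaDeg (𝓞 K) = p ^ j)
    (h : V.valuation (1 - (starRingEnd ℂ) (PsiP K ψ w.asIdeal)) = 1) :
    V.valuation (1 - (starRingEnd ℂ) (PsiP K' ψ W.asIdeal)) = 1 := by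
  obtain ⟨j, hj⟩ := hf
  have hl : W.asIdeal.LiesOver w.asIdeal := ⟨hW.symm⟩
  have hw := w.isMaximal
  have hwp := w.isPrime
  have hWm := W.isMaximal
  have hWp := W.isPrime
  have h1 := Ideal.relNorm_eq_pow_of_isMaximal W.asIdeal w.asIdeal
  rw [PsiP_top (K := K), h1, hj, map_pow, map_pow]
  exact pow_max p hp V hV _ (PsiP_int ψ w.asIdeal V).2 h j

end H55P
end

-- from Lib.H55K.G7B
section

/-! # H55K: Frobenius elements: the x-coordinate -/

open NumberField IsDedekindDomain WeierstrassCurve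

namespace H55K

open H55P (IQ embF eF LF Per IsHecke Pt ac Inert Dec Nm)
open H35P (WAB Ker tt)


variable {F : Type} [Field F] [NumberField F] [IQ F] {A B : F} {Om : ℂ} {Ω : Type} [Field Ω] [DecidableEq Ω]
  [Algebra F Ω] {j : Ω →+* ℂ} {act : 𝓞 F →+* AddMonoid.End (Pt (WAB A B) Ω)} {V : ValuationSubring Ω}

omit [NumberField F] [IQ F] in
theorem g7b_act2 (T : Pt (WAB A B) Ω) : act 2 T = T + T := by
  have h1 : (2 : 𝓞 F) = 1 + 1 := by norm_num
  rw [h1, map_add, map_one]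
  rfl

theorem g7b_vieta {k : Type} [Field k] {a b x y z : k} (hx : 0 = x ^ 3 + a * x + b)
    (hy : 0 = y ^ 3 + a * y + b) (hz : 0 = z ^ 3 + a * z + b) (h1 : x ≠ y) (h2 : x ≠ z) (h3 : y ≠ z) :
    x + y + z = 0 ∧ x * y + x * z + y * z = a ∧ x * y * z = -b := by
  have e1 : x ^ 2 + x * y + y ^ 2 + a = 0 := by
    have : (x - y) * (x ^ 2 + x * y + y ^ 2 + a) = 0 := by linear_combination hy - hx
    rcases mul_eq_zero.1 this with h | h
    · exact absurd (sub_eq_zero.1 h) h1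
    · exact h
  have e2 : x ^ 2 + x * z + z ^ 2 + a = 0 := by
    have : (x - z) * (x ^ 2 + x * z + z ^ 2 + a) = 0 := by linear_combination hz - hx
    rcases mul_eq_zero.1 this with h | h
    · exact absurd (sub_eq_zero.1 h) h2
    · exact h
  have e3 : x + y + z = 0 := by
    have : (y - z) * (x + y + z) = 0 := by linear_combination e1 - e2
    rcases mul_eq_zero.1 this with h | h
    · exact absurd (sub_eq_zero.1 h) h3
    · exact h
  have hz' : z = -(x + y) := by linear_combination e3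
  have ha : a = -(x ^ 2 + x * y + y ^ 2) := by linear_combination e1
  refine ⟨e3, ?_, ?_⟩
  · rw [hz', ha]
    ring
  · have hb : b = -x ^ 3 - a * x := by linear_combination -hx
    rw [hb, hz', ha]
    ring

/-- Chunk G7B (S/M). The three points of order 2: y = 0 (2 T = 0: T = -T, yc_neg), the x-coordinates are the three different roots of x^3 + A x + B (eqnA): Vieta. exists_TN for b = 2, Nm 2 = 4 (Nm_nat), act 2 T = 2 • T. -/
theorem two_tors (h : CMA F A B Om j act) : ∃ e₁ e₂ e₃ : Pt (WAB A B) Ω,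
    (∀ T, act 2 T = 0 ∧ T ≠ 0 ↔ T = e₁ ∨ T = e₂ ∨ T = e₃) ∧ e₁ ≠ e₂ ∧ e₁ ≠ e₃ ∧ e₂ ≠ e₃ ∧
    xc e₁ + xc e₂ + xc e₃ = 0 ∧
    xc e₁ * xc e₂ + xc e₁ * xc e₃ + xc e₂ * xc e₃ = algebraMap F Ω A ∧
    xc e₁ * xc e₂ * xc e₃ = -algebraMap F Ω B := by
  have hc : CharZero Ω := charZero_of_injective_algebraMap (algebraMap F Ω).injective
  have h20 : (2 : 𝓞 F) ≠ 0 := two_ne_zero
  obtain ⟨S, hS, hcard⟩ := exists_TN h h20
  have hN : Nm (2 : 𝓞 F) = 4 := by
    have := Nm_nat (F := F) 2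
    rw [Nat.cast_ofNat] at this
    rw [this]
    norm_num
  rw [hN] at hcard
  obtain ⟨e₁, e₂, e₃, h12, h13, h23, hS3⟩ := Finset.card_eq_three.1 hcard
  have hmem : ∀ T, act 2 T = 0 ∧ T ≠ 0 ↔ T = e₁ ∨ T = e₂ ∨ T = e₃ := by
    intro T
    rw [← hS T, hS3, Finset.mem_insert, Finset.mem_insert, Finset.mem_singleton]
  have hself : ∀ T, (T = e₁ ∨ T = e₂ ∨ T = e₃) → T ≠ 0 ∧ -T = T ∧
      0 = xc T ^ 3 + algebraMap F Ω A * xc T + algebraMap F Ω B := by
    intro T hT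
    obtain ⟨hT2, hT0⟩ := (hmem T).2 hT
    rw [g7b_act2] at hT2
    have hneg : -T = T := neg_eq_of_add_eq_zero_left hT2
    refine ⟨hT0, hneg, ?_⟩
    have hy : yc T = 0 := by
      have h1 := yc_neg T
      rw [hneg] at h1
      have h2 : (2 : Ω) * yc T = 0 := by linear_combination h1
      rcases mul_eq_zero.1 h2 with h3 | h3
      · exact absurd h3 two_ne_zero
      · exact h3
    have := eqnA hT0
    rw [hy] at this
    rw [← this]
    ring
  obtain ⟨z1, n1, q1⟩ := hself e₁ (Or.inl rfl)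
  obtain ⟨z2, n2, q2⟩ := hself e₂ (Or.inr (Or.inl rfl))
  obtain ⟨z3, n3, q3⟩ := hself e₃ (Or.inr (Or.inr rfl))
  have hx : ∀ {P Q : Pt (WAB A B) Ω}, P ≠ 0 → Q ≠ 0 → -Q = Q → P ≠ Q → xc P ≠ xc Q := by
    intro P Q hP hQ hn hne hxx
    rcases xc_eq hP hQ hxx with h1 | h1
    · exact hne h1
    · exact hne (h1.trans hn)
  obtain ⟨v1, v2, v3⟩ := g7b_vieta q1 q2 q3 (hx z1 z2 n2 h12) (hx z1 z3 n3 h13) (hx z2 z3 n3 h23)
  exact ⟨e₁, e₂, e₃, hmem, h12, h13, h23, v1, v2, v3⟩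

end H55K
end

-- from Lib.H55K.T2
section

/-! # H55K: the p-power of an automorphism fixes a p-extension -/

open NumberField IsDedekindDomain WeierstrassCurve

namespace H55K.TQ

open H55P (IQ embF eF LF Per IsHecke Pt ac Inert Dec Nm UnitP)
open H35P (WAB Ker tt GoodW IntW)
open H55K.MG (VC Crd)

variable {F : Type} [Field F] [NumberField F] {Ω : Type} [Field Ω] [Algebra F Ω]

/-- Chunk T2 (S/M). The restriction of g to L (normal over F: hL.norm with the bottom field) is an element of a group of order p^k (hL.deg; IsGalois as in H55P s3_galois, or: the restriction map to L ≃ₐ[F] L; its cardinality is finrank F L = p^k because L/F is Galois in characteristic 0). -/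
theorem pow_fix {p : ℕ} {L : IntermediateField F Ω} [IsAlgClosed Ω] [Algebra.IsAlgebraic F Ω]
    (hL : H55P.PExt p ⊥ L) : ∃ k : ℕ, ∀ g : Ω ≃ₐ[F] Ω, g ^ (p ^ k) ∈ L.fixingSubgroup := by
  have hfin := hL.fin
  have hcl : IsAlgClosure F Ω := ⟨inferInstance, inferInstance⟩
  have hno : Normal F Ω := IsAlgClosure.normal F Ω
  have hL' : Normal F L := by
    rw [IntermediateField.normal_iff_forall_map_le']
    rintro σ _ ⟨x, hx, rfl⟩
    refine hL.norm σ ?_ x hx
    rw [IntermediateField.mem_fixingSubgroup_iff]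
    intro y hy
    obtain ⟨z, rfl⟩ := IntermediateField.mem_bot.1 hy
    exact σ.commutes z
  have hG : IsGalois F L := ⟨⟩
  obtain ⟨k, hk⟩ := hL.deg
  rw [IntermediateField.finrank_bot, one_mul] at hk
  refine ⟨k, fun g => ?_⟩
  rw [IntermediateField.mem_fixingSubgroup_iff]
  intro x hx
  have h1 : (AlgEquiv.restrictNormalHom L g : L ≃ₐ[F] L) ^ (p ^ k) = 1 := by
    rw [← hk, ← IsGalois.card_aut_eq_finrank]
    exact pow_card_eq_one'
  rw [← map_pow] at h1
  have h2 := (g ^ (p ^ k)).restrictNormal_commutes L ⟨x, hx⟩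
  have h3 : (g ^ (p ^ k)).restrictNormal L = 1 := h1
  rw [h3] at h2
  exact h2.symm

end H55K.TQ
end

-- from Lib.H55K.T7A
section

/-! # H55K: descent of a good equation from the inertia field -/

open NumberField IsDedekindDomain WeierstrassCurve

namespace H55K.TQ

open H55P (IQ embF eF LF Per IsHecke Pt ac Inert Dec Nm UnitP)
open H35P (WAB Ker tt GoodW IntW)
open H55K.MG (VC Crd)

variable {F : Type} [Field F] [NumberField F] {Ω : Type} [Field Ω] [Algebra F Ω] [IsAlgClosure F Ω] {V : ValuationSubring Ω}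

/-- Chunk T7A (S/M). g in the decomposition group maps V to V, so the curve W'^g (coefficients g (a_i)) is good at V and VC (W⁄Ω) (W'^g) (g u) (g r) (g s) (g t) (vc_map for g; g fixes the coefficients of W). With g u = u: vc_inv and vc_comp: VC W' (W'^g) 1 ((g r - r)/u^2) ((g s - s)/u) _ ; vc_int. -/
theorem dec_int {W : WeierstrassCurve F} {W' : WeierstrassCurve Ω} {u r s t : Ω} (h : VC (W⁄Ω) W' u r s t)
    (hG : GoodW W' V) (g : Ω ≃ₐ[F] Ω) (hg : Dec V g) (hu : g u = u) :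
    V.valuation (g r - r) ≤ V.valuation (u ^ 2) ∧ V.valuation (g s - s) ≤ V.valuation u ∧
      (g r = r → g s = s → V.valuation (g t - t) ≤ V.valuation (u ^ 3)) := by


  have hu0 : u ≠ 0 := h.une
  have hmap : (W⁄Ω).map (g : Ω →+* Ω) = W⁄Ω := by
    have hcomp : ((g : Ω →+* Ω)).comp (algebraMap F Ω) = algebraMap F Ω := by
      ext x
      exact g.commutes x
    rw [WeierstrassCurve.baseChange, WeierstrassCurve.map_map, hcomp]
  have hg1 := vc_map (g : Ω →+* Ω) h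
  rw [hmap] at hg1
  have hgV : ∀ x : Ω, x ∈ V → (g : Ω →+* Ω) x ∈ V := fun x hx => (hg x).2 hx
  have hint : IntW (W'.map (g : Ω →+* Ω)) V :=
    ⟨hgV _ hG.a1, hgV _ hG.a2, hgV _ hG.a3, hgV _ hG.a4, hgV _ hG.a6⟩
  have hc := vc_comp (vc_inv h) hg1
  have hgu : (g : Ω →+* Ω) u = u := hu
  rw [hgu] at hc
  obtain ⟨i1, i2, i3⟩ := vc_int hc hG.toIntW hint (by rw [inv_mul_cancel₀ hu0, map_one])
  have e1 : (g : Ω →+* Ω) r = g r := rfl
  have e2 : (g : Ω →+* Ω) s = g s := rfl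
  have e3 : (g : Ω →+* Ω) t = g t := rfl
  rw [e1] at i1
  rw [e2] at i2
  rw [e1, e3] at i3
  have key : ∀ a b : Ω, b ≠ 0 → a / b ∈ V → V.valuation a ≤ V.valuation b := by
    intro a b hb hab
    rw [← V.valuation_le_one_iff, map_div₀] at hab
    have hb' : V.valuation b ≠ 0 := (map_ne_zero _).2 hb
    rwa [div_le_one₀ (zero_lt_iff.2 hb')] at hab
  refine ⟨key _ _ (pow_ne_zero 2 hu0) ?_, key _ _ hu0 ?_, ?_⟩
  · convert i1 using 1
    field_simp
    ring
  · convert i2 using 1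
    field_simp
    ring
  · intro hr hs
    refine key _ _ (pow_ne_zero 3 hu0) ?_
    rw [hr] at i3
    convert i3 using 1
    field_simp
    ring

end H55K.TQ
end

-- from Lib.H55K.G4B
section

/-! # H55K: the action on the kernel of reduction -/

open NumberField IsDedekindDomain WeierstrassCurve

namespace H55K

open H55P (IQ embF eF LF Per IsHecke Pt ac Inert Dec Nm)
open H35P (WAB Ker tt)


variable {F : Type} [Field F] [NumberField F] [IQ F] {A B : F} {Om : ℂ} {Ω : Type} [Field Ω] [DecidableEq Ω]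
  [Algebra F Ω] {j : Ω →+* ℂ} {act : 𝓞 F →+* AddMonoid.End (Pt (WAB A B) Ω)} {V : ValuationSubring Ω}

/-- Chunk G4B (M). a with V(Nm a) = 1. P = 0 clear. exists_TN: S. a ≠ 0; V(ak a) = 1 because ak a * ak (cj a) = Nm a and both are ≤ 1 (ak_le). For T in S: Nm a • T = 0 (tor_nm), so T is not in Ker (ker_tors), and
act a P ≠ 0 (else P in S). cls_conv for T, P + T: V(xc (P + T) - xc T) < 1, and V(yc (P + T)) ≤ 1 (gv_y). e1x: V(a^2 xc (aP) - xc P) < 1, so V(xc (aP)) = V(xc P) > 1: aP in Ker (ker_of). e1y: V(a^3 yc (aP) - yc P) ≤ 1, so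
V(yc (aP)) = V(yc P). a^3 y(aP) y(P) (tt (aP) - a tt P) = a (y(P) (a^2 x(aP) - x(P)) - x(P) (a^3 y(aP) - y(P))) has value ≤ max(V(yP), V(xP)) = V(yP) (tt_val), so V(tt (aP) - a tt P) ≤ 1/V(yP) = V(tt P)^3 ≤ V(tt P)^2. -/
theorem act_unit (h : CMA F A B Om j act) (hV : GV A B V) {a : 𝓞 F} (ha : V.valuation (Nm a : Ω) = 1)
    {P : Pt (WAB A B) Ω} (hP : Ker V P) : Ker V (act a P) ∧
      V.valuation (tt (act a P) - ak Ω a * tt P) ≤ V.valuation (tt P) ^ 2 := by
  have e0 : tt (0 : Pt (WAB A B) Ω) = 0 := by rw [tt_eq, xc_zero, zero_div]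
  by_cases hP0 : P = 0
  · subst hP0
    rw [map_zero, e0]
    exact ⟨trivial, by simp⟩
  have ha0 : a ≠ 0 := by
    rintro rfl
    have h1 : Nm (0 : 𝓞 F) = 0 := by
      unfold Nm
      rw [Ideal.absNorm_eq_zero_iff, Ideal.span_singleton_eq_bot]
    rw [h1, Nat.cast_zero, map_zero] at ha
    exact zero_ne_one ha
  have hva : V.valuation (ak Ω a) = 1 := by
    have e1 : ak Ω a * ak Ω (cj a) = (Nm a : Ω) := by
      have e2 : ak Ω (a * cj a) = ak Ω ((Nm a : 𝓞 F)) := by rw [mul_cj]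
      have e3 : ak Ω (a * cj a) = ak Ω a * ak Ω (cj a) := by
        show algebraMap F Ω (algebraMap (𝓞 F) F (a * cj a)) =
          algebraMap F Ω (algebraMap (𝓞 F) F a) * algebraMap F Ω (algebraMap (𝓞 F) F (cj a))
        rw [map_mul, map_mul]
      have e4 : ak Ω ((Nm a : 𝓞 F)) = (Nm a : Ω) := by
        show algebraMap F Ω (algebraMap (𝓞 F) F ((Nm a : 𝓞 F))) = _
        rw [map_natCast, map_natCast]
      rw [← e3, e2, e4]
    have e5 : V.valuation (ak Ω a) * V.valuation (ak Ω (cj a)) = 1 := by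
      rw [← map_mul, e1, ha]
    refine le_antisymm (ak_le V a) ?_
    rw [← e5]
    exact mul_le_of_le_one_right zero_le (ak_le V (cj a))
  have hva0 : ak Ω a ≠ 0 := by
    intro h0
    rw [h0, map_zero] at hva
    exact zero_ne_one hva
  obtain ⟨S, hS, -⟩ := exists_TN h ha0
  have hne : act a P ≠ 0 := by
    intro h0
    exact hP0 (ker_tors hV (Nm a) ha (tor_nm h0) hP)
  have hT : ∀ T ∈ S, ¬ Ker V T := by
    intro T hT hK
    obtain ⟨h1, h2⟩ := (hS T).1 hT
    exact h2 (ker_tors hV (Nm a) ha (tor_nm h1) hK)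
  have hPT : ∀ T ∈ S, ¬ Ker V (P + T) ∧ V.valuation (xc (P + T) - xc T) < 1 ∧
      V.valuation (yc (P + T) - yc T) < 1 := by
    intro T hTS
    refine cls_conv hV (hT T hTS) ?_
    rwa [add_sub_cancel_right]
  obtain ⟨t1, t2, t3⟩ := tt_val hV hP hP0
  have hx1 : 1 < V.valuation (xc P) := (ker_iff V hP0).1 hP
  have hy1 : 1 < V.valuation (yc P) := hx1.trans t3
  have htl := ttlt hV hP
  have E1 := h.e1x a S ha0 hS P hne
  have E2 := h.e1y a S ha0 hS P hne
  have hs1 : V.valuation (∑ T ∈ S, (xc (P + T) - xc T)) < 1 :=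
    Valuation.map_sum_lt _ one_ne_zero fun T hTS => (hPT T hTS).2.1
  have hs2 : V.valuation (∑ T ∈ S, yc (P + T)) ≤ 1 :=
    Valuation.map_sum_le _ fun T hTS => gv_y hV (hPT T hTS).1
  have hx2 : V.valuation (xc (act a P)) = V.valuation (xc P) := by
    have h1 : V.valuation (ak Ω a ^ 2 * xc (act a P)) = V.valuation (xc (act a P)) := by
      rw [map_mul, map_pow, hva, one_pow, one_mul]
    rw [← h1, E1]
    exact Valuation.map_add_eq_of_lt_left _ (hs1.trans hx1)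
  have hy2 : V.valuation (yc (act a P)) = V.valuation (yc P) := by
    have h1 : V.valuation (ak Ω a ^ 3 * yc (act a P)) = V.valuation (yc (act a P)) := by
      rw [map_mul, map_pow, hva, one_pow, one_mul]
    rw [← h1, E2]
    exact Valuation.map_add_eq_of_lt_left _ (hs2.trans_lt hy1)
  refine ⟨ker_of V (by rw [hx2]; exact hx1), ?_⟩
  have hyP0 : yc P ≠ 0 := by
    intro h0
    rw [h0, map_zero] at hy1
    exact absurd hy1 (not_lt.2 zero_le)
  have hyQ0 : yc (act a P) ≠ 0 := by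
    intro h0
    rw [h0, map_zero] at hy2
    exact hyP0 ((Valuation.zero_iff _).1 hy2.symm)
  obtain ⟨D, hD⟩ : ∃ D, D = tt (act a P) - ak Ω a * tt P := ⟨_, rfl⟩
  rw [← hD]
  have key : ak Ω a ^ 3 * yc (act a P) * yc P * D = ak Ω a * (yc P * (∑ T ∈ S, (xc (P + T) - xc T)) -
      xc P * (∑ T ∈ S, yc (P + T))) := by
    have h1 : (∑ T ∈ S, (xc (P + T) - xc T)) = ak Ω a ^ 2 * xc (act a P) - xc P := by
      rw [E1]
      ring
    have h2 : (∑ T ∈ S, yc (P + T)) = ak Ω a ^ 3 * yc (act a P) - yc P := by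
      rw [E2]
      ring
    rw [h1, h2, hD, tt_eq, tt_eq]
    field_simp
    ring
  have hle : V.valuation (yc P) * V.valuation (yc P) * V.valuation D ≤ V.valuation (yc P) := by
    have h1 : V.valuation (ak Ω a ^ 3 * yc (act a P) * yc P * D) =
        V.valuation (yc P) * V.valuation (yc P) * V.valuation D := by
      rw [map_mul, map_mul, map_mul, map_pow, hva, one_pow, one_mul, hy2]
    rw [← h1, key, map_mul, hva, one_mul]
    refine (V.valuation.map_sub _ _).trans (max_le ?_ ?_)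
    · rw [map_mul]
      exact mul_le_of_le_one_right zero_le hs1.le
    · rw [map_mul]
      exact (mul_le_of_le_one_right zero_le hs2).trans t3.le
  calc V.valuation D = (V.valuation (tt P) ^ 3 * V.valuation (yc P)) ^ 2 * V.valuation D := by
        rw [t2, one_pow, one_mul]
    _ = V.valuation (tt P) ^ 6 * (V.valuation (yc P) * V.valuation (yc P) * V.valuation D) := by
        rw [mul_pow, ← pow_mul, pow_two (V.valuation (yc P)), mul_assoc]
    _ ≤ V.valuation (tt P) ^ 6 * V.valuation (yc P) := mul_le_mul_right hle _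
    _ = V.valuation (tt P) ^ 3 * (V.valuation (tt P) ^ 3 * V.valuation (yc P)) := by
        rw [← mul_assoc, ← pow_add]
    _ = V.valuation (tt P) ^ 3 := by rw [t2, mul_one]
    _ ≤ V.valuation (tt P) ^ 2 := pow_le_pow_right_of_le_one' htl.le (by norm_num)

end H55K
end

-- from Lib.H55K.G4C
section

/-! # H55K: the action on the kernel of reduction -/

open NumberField IsDedekindDomain WeierstrassCurve

namespace H55K

open H55P (IQ embF eF LF Per IsHecke Pt ac Inert Dec Nm)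
open H35P (WAB Ker tt)


variable {F : Type} [Field F] [NumberField F] [IQ F] {A B : F} {Om : ℂ} {Ω : Type} [Field Ω] [DecidableEq Ω]
  [Algebra F Ω] {j : Ω →+* ℂ} {act : 𝓞 F →+* AddMonoid.End (Pt (WAB A B) Ω)} {V : ValuationSubring Ω}

theorem g4c_nat {Ω : Type} [Field Ω] (V : ValuationSubring Ω) (n : ℕ) : V.valuation (n : Ω) ≤ 1 :=
  (V.valuation_le_one_iff _).2 (natCast_mem V n)

theorem g4c_key {F : Type} [Field F] [NumberField F] [IQ F] (a : 𝓞 F) :
    Nm (a + ((2 : ℕ) : 𝓞 F)) + Nm (a + ((0 : ℕ) : 𝓞 F)) = 2 * Nm (a + ((1 : ℕ) : 𝓞 F)) + 2 := by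
  have h : ((Nm (a + ((2 : ℕ) : 𝓞 F)) + Nm (a + ((0 : ℕ) : 𝓞 F)) : ℕ) : 𝓞 F) =
      ((2 * Nm (a + ((1 : ℕ) : 𝓞 F)) + 2 : ℕ) : 𝓞 F) := by
    push_cast
    rw [← mul_cj, ← mul_cj, ← mul_cj]
    simp only [map_add, map_zero, map_one, map_ofNat]
    ring
  exact_mod_cast h

theorem g4c_lt {Ω : Type} [Field Ω] {V : ValuationSubring Ω} {c : V.ValueGroup} (h0 : c ≠ 0) (h1 : c < 1) :
    c ^ 2 < c := by
  have h2 : 0 < c := zero_lt_iff.mpr h0
  calc c ^ 2 = c * c := pow_two c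
    _ < c * 1 := mul_lt_mul_of_pos_left h1 h2
    _ = c := mul_one c

theorem g4c_le {Ω : Type} [Field Ω] {V : ValuationSubring Ω} {c : V.ValueGroup} (h1 : c < 1) :
    c ^ 2 ≤ c := by
  by_cases h0 : c = 0
  · rw [h0]; simp
  · exact (g4c_lt h0 h1).le

omit [DecidableEq Ω] in
/-- Chunk G4C (S). Nm (a + 2) + Nm a = 2 Nm (a + 1) + 2 (mul_cj: Nm (a + n) = (a + n) (cj a + n)); if the values of Nm a, Nm (a + 1), Nm (a + 2) are all < 1 then V(2) < 1. -/
theorem exists_shift (hV : GV A B V) (a : 𝓞 F) : ∃ n : ℕ, n ≤ 2 ∧ V.valuation (Nm (a + (n : 𝓞 F)) : Ω) = 1 := by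
  by_contra hno
  push Not at hno
  have hlt : ∀ n : ℕ, n ≤ 2 → V.valuation (Nm (a + (n : 𝓞 F)) : Ω) < 1 :=
    fun n hn => lt_of_le_of_ne (g4c_nat V _) (hno n hn)
  have h2 : (2 : Ω) = (Nm (a + ((2 : ℕ) : 𝓞 F)) : Ω) + (Nm (a + ((0 : ℕ) : 𝓞 F)) : Ω) -
      2 * (Nm (a + ((1 : ℕ) : 𝓞 F)) : Ω) := by
    have h3 := congrArg (Nat.cast : ℕ → Ω) (g4c_key a)
    push_cast at h3 ⊢
    rw [h3]
    ring
  have h4 := hV.two
  rw [h2] at h4
  have h5 : V.valuation ((Nm (a + ((2 : ℕ) : 𝓞 F)) : Ω) + (Nm (a + ((0 : ℕ) : 𝓞 F)) : Ω) -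
      2 * (Nm (a + ((1 : ℕ) : 𝓞 F)) : Ω)) < 1 := by
    refine Valuation.map_sub_lt _ (Valuation.map_add_lt _ (hlt 2 le_rfl) (hlt 0 (by norm_num))) ?_
    rw [map_mul]
    calc V.valuation (2 : Ω) * V.valuation (Nm (a + ((1 : ℕ) : 𝓞 F)) : Ω)
        = V.valuation (Nm (a + ((1 : ℕ) : 𝓞 F)) : Ω) := by rw [hV.two, one_mul]
      _ < 1 := hlt 1 (by norm_num)
  rw [h4] at h5
  exact lt_irrefl _ h5

theorem g4c_split (act : 𝓞 F →+* AddMonoid.End (Pt (WAB A B) Ω)) (a : 𝓞 F) (n : ℕ) (P : Pt (WAB A B) Ω) :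
    act a P = act (a + (n : 𝓞 F)) P + -(n • P) := by
  rw [map_add, map_natCast]
  show act a P = (act a P + (n : AddMonoid.End (Pt (WAB A B) Ω)) P) + -(n • P)
  rw [AddMonoid.End.natCast_apply]
  abel

/-- Chunk G4C. n from exists_shift, act a P = act (a + n) P - n • P; n • P for n ≤ 2 by tt_add2 with c = V(tt P): V(tt (n • P) - n tt P) ≤ V(tt P)^2, V(tt (n • P)) ≤ V(tt P); tt_add2 for act (a + n) P and -(n • P)
(tt_neg). -/
theorem ker_act (h : CMA F A B Om j act) (hV : GV A B V) (a : 𝓞 F) {P : Pt (WAB A B) Ω} (hP : Ker V P) :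
    Ker V (act a P) := by
  obtain ⟨n, _, hN⟩ := exists_shift hV a
  rw [g4c_split act a n P]
  exact kadd hV (act_unit h hV hN hP).1 (kneg (knsmul hV hP n))

theorem g4c_nsmul (hV : GV A B V) {P : Pt (WAB A B) Ω} (hP : Ker V P) {n : ℕ} (hn : n ≤ 2) :
    V.valuation (tt (n • P) - n * tt P) ≤ V.valuation (tt P) ^ 2 := by
  have h0 : (0 : V.ValueGroup) ≤ V.valuation (tt P) ^ 2 := zero_le
  interval_cases n
  · rw [zero_smul, Nat.cast_zero, zero_mul, sub_zero]
    have : (tt (0 : Pt (WAB A B) Ω) : Ω) = 0 := rfl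
    rw [this, map_zero]
    exact h0
  · rw [one_smul, Nat.cast_one, one_mul, sub_self, map_zero]
    exact h0
  · have h1 := tt_add2 hV hP hP (V.valuation (tt P)) le_rfl le_rfl
    rw [two_smul]
    have h2 : tt (P + P) - ((2 : ℕ) : Ω) * tt P = tt (P + P) - tt P - tt P := by push_cast; ring
    rw [h2]
    exact h1

/-- Chunk G4C. -/
theorem tt_act (h : CMA F A B Om j act) (hV : GV A B V) (a : 𝓞 F) {P : Pt (WAB A B) Ω} (hP : Ker V P) :
    V.valuation (tt (act a P) - ak Ω a * tt P) ≤ V.valuation (tt P) ^ 2 := by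
  obtain ⟨n, hn, hN⟩ := exists_shift hV a
  obtain ⟨hK, h1⟩ := act_unit h hV hN hP
  have hc1 := ttlt hV hP
  have hcc := g4c_le hc1
  have h2 := g4c_nsmul hV hP hn
  have hX : V.valuation (tt (act (a + (n : 𝓞 F)) P)) ≤ V.valuation (tt P) := by
    have e : tt (act (a + (n : 𝓞 F)) P) = (tt (act (a + (n : 𝓞 F)) P) - ak Ω (a + (n : 𝓞 F)) * tt P) +
      ak Ω (a + (n : 𝓞 F)) * tt P := by ring
    rw [e]
    refine Valuation.map_add_le _ (h1.trans hcc) ?_
    rw [map_mul]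
    exact mul_le_of_le_one_left' (ak_le V _)
  have hY : V.valuation (tt (-(n • P))) ≤ V.valuation (tt P) := by
    rw [tt_neg, Valuation.map_neg]
    have e : tt (n • P) = (tt (n • P) - n * tt P) + n * tt P := by ring
    rw [e]
    refine Valuation.map_add_le _ (h2.trans hcc) ?_
    rw [map_mul]
    exact mul_le_of_le_one_left' (g4c_nat V _)
  have h3 := tt_add2 hV hK (kneg (knsmul hV hP n)) _ hX hY
  rw [g4c_split act a n P]
  have hak : ak Ω (a + (n : 𝓞 F)) = ak Ω a + n := by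
    unfold ak
    simp
  have e : tt (act (a + (n : 𝓞 F)) P + -(n • P)) - ak Ω a * tt P =
      (tt (act (a + (n : 𝓞 F)) P + -(n • P)) - tt (act (a + (n : 𝓞 F)) P) - tt (-(n • P))) +
      (tt (act (a + (n : 𝓞 F)) P) - ak Ω (a + (n : 𝓞 F)) * tt P) - (tt (n • P) - n * tt P) := by
    rw [tt_neg, hak]
    ring
  rw [e]
  exact Valuation.map_sub_le _ (Valuation.map_add_le _ h3 h1) h2

/-- Chunk G4C. If act b T = 0 and V(b) = 1 then V(tt T) = V(b tt T) ≤ V(tt T)^2 and V(tt T) < 1, so tt T = 0, T = 0 (tt_zero). -/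
theorem tor_unit (h : CMA F A B Om j act) (hV : GV A B V) {b : 𝓞 F} (hb : V.valuation (ak Ω b) = 1)
    {T : Pt (WAB A B) Ω} (hT : T ∈ Tor act b) (hK : Ker V T) : T = 0 := by
  have h1 := tt_act h hV b hK
  have h2 : act b T = 0 := hT
  rw [h2] at h1
  have h3 : (tt (0 : Pt (WAB A B) Ω) : Ω) = 0 := rfl
  rw [h3, zero_sub, Valuation.map_neg, map_mul, hb, one_mul] at h1
  rw [← tt_zero hV hK]
  by_contra h4
  have h5 : V.valuation (tt T) ≠ 0 := (Valuation.ne_zero_iff _).2 h4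
  exact absurd h1 (not_le.2 (g4c_lt h5 (ttlt hV hK)))

/-- Chunk G4C. If V(a) = 1 and P in Ker: V(tt (act a P)) = V(tt P). -/
theorem tt_act_unit (h : CMA F A B Om j act) (hV : GV A B V) {a : 𝓞 F} (ha : V.valuation (ak Ω a) = 1)
    {P : Pt (WAB A B) Ω} (hP : Ker V P) : V.valuation (tt (act a P)) = V.valuation (tt P) := by
  by_cases h0 : P = 0
  · rw [h0, map_zero]
  · have h1 := tt_act h hV a hP
    have h2 : V.valuation (tt P) ≠ 0 := (Valuation.ne_zero_iff _).2 (fun h3 => h0 ((tt_zero hV hP).1 h3))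
    have h3 := h1.trans_lt (g4c_lt h2 (ttlt hV hP))
    have h4 : V.valuation (ak Ω a * tt P) = V.valuation (tt P) := by rw [map_mul, ha, one_mul]
    rw [← h4]
    exact Valuation.map_eq_of_sub_lt _ (by rw [h4]; exact h3)

end H55K
end

-- from Lib.H55K.G5B
section

/-! # H55K: points killed by a prime element below V -/

open NumberField IsDedekindDomain WeierstrassCurve

namespace H55K

open H55P (IQ embF eF LF Per IsHecke Pt ac Inert Dec Nm)
open H35P (WAB Ker tt)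


variable {F : Type} [Field F] [NumberField F] [IQ F] {A B : F} {Om : ℂ} {Ω : Type} [Field Ω] [DecidableEq Ω]
  [Algebra F Ω] {j : Ω →+* ℂ} {act : 𝓞 F →+* AddMonoid.End (Pt (WAB A B) Ω)} {V : ValuationSubring Ω}

/-- Chunk G5B (S). The subgroup of the X with act β X in Ker V. -/
noncomputable def Hb (act : 𝓞 F →+* AddMonoid.End (Pt (WAB A B) Ω)) (hV : GV A B V) (β : 𝓞 F) :
    AddSubgroup (Pt (WAB A B) Ω) := (kerG hV).comap (act β : Pt (WAB A B) Ω →+ Pt (WAB A B) Ω)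

theorem mem_Hb (hV : GV A B V) (β : 𝓞 F) (X : Pt (WAB A B) Ω) : X ∈ Hb act hV β ↔ Ker V (act β X) := Iff.rfl

theorem g5b_ex (h : CMA F A B Om j act) : ∃ X : Pt (WAB A B) Ω, X ≠ 0 := by
  obtain ⟨T₀, hT, _, h1, _⟩ := h.gen 2 two_ne_zero
  refine ⟨T₀, ?_⟩
  rintro rfl
  have h2 : act (1 : 𝓞 F) (0 : Pt (WAB A B) Ω) = 0 := map_zero _
  have h3 : (2 : 𝓞 F) ∣ 1 := (h1 1).1 h2
  obtain ⟨c, hc⟩ := h3
  have h4 : IsUnit (2 : 𝓞 F) := IsUnit.of_mul_eq_one c hc.symm
  have h5 : Nm (2 : 𝓞 F) = 1 := by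
    unfold H55P.Nm
    rw [Ideal.span_singleton_eq_top.2 h4, Ideal.absNorm_top]
  have h6 := Nm_nat (F := F) 2
  have h7 : ((2 : ℕ) : 𝓞 F) = 2 := by norm_num
  rw [h7, h5] at h6
  norm_num at h6

/-- Chunk G5B (S). A point P outside Ker (inf_cls for H = bottom, C = {0}; some X ≠ 0 exists), surj. -/
theorem Hb_ne (h : CMA F A B Om j act) (hV : GV A B V) {β : 𝓞 F} (hβ : β ≠ 0) : ∃ X, X ∉ Hb act hV β := by
  obtain ⟨X₀, hX₀⟩ := g5b_ex h
  obtain ⟨P, _, hP⟩ := inf_cls h hV ⊥ ⟨X₀, hX₀⟩ {0}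
  have hP' : ¬ Ker V P := by
    have := hP 0 (Finset.mem_singleton_self 0)
    rwa [sub_zero] at this
  obtain ⟨Q, hQ⟩ := h.surj β hβ P
  refine ⟨Q, fun hQ' => hP' ?_⟩
  rw [mem_Hb, hQ] at hQ'
  exact hQ'

/-- Chunk G5B. X outside Hb is outside Ker (ker_act), and so are all X + R, R killed by β. -/
theorem Hb_add (h : CMA F A B Om j act) (hV : GV A B V) {β : 𝓞 F} {X R : Pt (WAB A B) Ω}
    (hX : X ∉ Hb act hV β) (hR : act β R = 0) : ¬ Ker V (X + R) ∧ ¬ Ker V X ∧ X + R ∉ Hb act hV β := by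
  have h1 : ∀ Y, Y ∉ Hb act hV β → ¬ Ker V Y := fun Y hY hK => hY ((mem_Hb hV β Y).2 (ker_act h hV β hK))
  have h2 : X + R ∉ Hb act hV β := by
    rw [mem_Hb, map_add, hR, add_zero]
    exact hX
  exact ⟨h1 _ h2, h1 _ hX, h2⟩

/-- Chunk G5B. Prime β: any two nonzero points killed by β are multiples: gen gives R = act a T₀, R' = act a' T₀, β does not divide a, so a is invertible modulo β (span {β} is maximal), R' = act c R with β not dividing c. If V(β) < 1 then
V(c) = 1 (u c + w β = 1). -/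
theorem tor_trans (h : CMA F A B Om j act) (V : ValuationSubring Ω) {β : 𝓞 F} (hβ : Prime β)
    (hv : V.valuation (ak Ω β) < 1) {R R' : Pt (WAB A B) Ω} (hR : R ∈ Tor act β) (h0 : R ≠ 0)
    (hR' : R' ∈ Tor act β) (h0' : R' ≠ 0) : ∃ c : 𝓞 F, R' = act c R ∧ V.valuation (ak Ω c) = 1 := by
  obtain ⟨T₀, hT, hgen, hz, _⟩ := h.gen β hβ.ne_zero
  obtain ⟨a, ha⟩ := hgen R hR
  obtain ⟨a', ha'⟩ := hgen R' hR'
  have hna : ¬ β ∣ a := fun hd => h0 (by rw [ha]; exact (hz a).2 hd)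
  have hna' : ¬ β ∣ a' := fun hd => h0' (by rw [ha']; exact (hz a').2 hd)
  have hmax : (Ideal.span {β}).IsMaximal := by
    have hp : (Ideal.span {β}).IsPrime := (Ideal.span_singleton_prime hβ.ne_zero).2 hβ
    exact hp.isMaximal (by rw [Ne, Ideal.span_singleton_eq_bot]; exact hβ.ne_zero)
  have hinv : ∀ x : 𝓞 F, ¬ β ∣ x → ∃ u w : 𝓞 F, u * x + w * β = 1 := by
    intro x hx
    obtain ⟨u, y, hy, hu⟩ := hmax.exists_inv (fun hm => hx (Ideal.mem_span_singleton.1 hm))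
    obtain ⟨w, rfl⟩ := Ideal.mem_span_singleton.1 hy
    exact ⟨u, w, by rw [← hu]; ring⟩
  obtain ⟨u, w, huw⟩ := hinv a hna
  -- T₀ = act u R
  have hT0 : T₀ = act u R := by
    rw [ha]
    have h1 : act u (act a T₀) = act (u * a) T₀ := by rw [map_mul]; rfl
    rw [h1]
    have h2 : act (u * a + w * β) T₀ = act (u * a) T₀ := by
      rw [map_add]
      show act (u * a) T₀ + act (w * β) T₀ = act (u * a) T₀
      rw [map_mul act w β]
      show act (u * a) T₀ + act w (act β T₀) = act (u * a) T₀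
      have h3 : act β T₀ = 0 := hT
      rw [h3, map_zero, add_zero]
    rw [← h2, huw, map_one]
    rfl
  have hR'2 : R' = act (a' * u) R := by
    rw [map_mul]
    show R' = act a' (act u R)
    rw [← hT0]
    exact ha'
  refine ⟨a' * u, hR'2, ?_⟩
  have hnc : ¬ β ∣ a' * u := by
    intro hd
    obtain ⟨y, hy⟩ := hd
    apply h0'
    rw [hR'2, hy, mul_comm, map_mul]
    show act y (act β R) = 0
    have h3 : act β R = 0 := hR
    rw [h3, map_zero]
  obtain ⟨u', w', h'⟩ := hinv _ hnc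
  refine le_antisymm (ak_le V _) ?_
  by_contra hlt
  push Not at hlt
  have h4 : V.valuation (ak Ω (u' * (a' * u) + w' * β)) < 1 := by
    have e : ak Ω (u' * (a' * u) + w' * β) = ak Ω u' * ak Ω (a' * u) + ak Ω w' * ak Ω β := by
      unfold ak
      simp only [map_add, map_mul]
    rw [e]
    refine Valuation.map_add_lt _ ?_ ?_
    · rw [map_mul]
      exact lt_of_le_of_lt (mul_le_of_le_one_left' (ak_le V _)) hlt
    · rw [map_mul]
      exact lt_of_le_of_lt (mul_le_of_le_one_left' (ak_le V _)) hv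
  rw [h'] at h4
  have e1 : ak Ω (1 : 𝓞 F) = 1 := by unfold ak; simp
  rw [e1, map_one] at h4
  exact lt_irrefl _ h4

end H55K
end

-- from Lib.H55K.G7A
section

/-! # H55K: Frobenius elements: the x-coordinate -/

open NumberField IsDedekindDomain WeierstrassCurve

namespace H55K

open H55P (IQ embF eF LF Per IsHecke Pt ac Inert Dec Nm)
open H35P (WAB Ker tt)


variable {F : Type} [Field F] [NumberField F] [IQ F] {A B : F} {Om : ℂ} {Ω : Type} [Field Ω] [DecidableEq Ω]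
  [Algebra F Ω] {j : Ω →+* ℂ} {act : 𝓞 F →+* AddMonoid.End (Pt (WAB A B) Ω)} {V : ValuationSubring Ω}

theorem g7a_ml {V : ValuationSubring Ω} {a b : V.ValueGroup} (ha : a ≤ 1) (hb : b < 1) : a * b < 1 :=
  (mul_le_of_le_one_left' ha).trans_lt hb

theorem g7a_mr {V : ValuationSubring Ω} {a b : V.ValueGroup} (ha : a < 1) (hb : b ≤ 1) : a * b < 1 :=
  (mul_le_of_le_one_right' hb).trans_lt ha

/-- An integer not divisible by β is a unit at V. -/
theorem g7a_unit {V : ValuationSubring Ω} {β : 𝓞 F} (hβ : Prime β) (hv : V.valuation (ak Ω β) < 1) {c : 𝓞 F}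
    (hc : ¬ β ∣ c) : V.valuation (ak Ω c) = 1 := by
  have h1 : IsCoprime β c := (Irreducible.coprime_iff_not_dvd hβ.irreducible).2 hc
  obtain ⟨u, w, huw⟩ := h1
  have h2 : ak Ω u * ak Ω β + ak Ω w * ak Ω c = 1 := by
    have h0 : (u : F) * (β : F) + (w : F) * (c : F) = 1 := by
      exact_mod_cast congrArg (fun z : 𝓞 F => (z : F)) huw
    have h00 := congrArg (algebraMap F Ω) h0
    rw [map_add, map_mul, map_mul, map_one] at h00
    exact h00
  refine le_antisymm (ak_le V c) ?_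
  by_contra hlt
  rw [not_le] at hlt
  have h3 : V.valuation (ak Ω u * ak Ω β) < 1 := by
    rw [map_mul]
    exact g7a_ml (ak_le V u) hv
  have h4 : V.valuation (ak Ω w * ak Ω c) < 1 := by
    rw [map_mul]
    exact g7a_ml (ak_le V w) hlt
  have h5 := Valuation.map_add_lt V.valuation h3 h4
  rw [h2, map_one] at h5
  exact lt_irrefl _ h5

/-- Fermat in the ring of integers. -/
theorem g7a_int {β : 𝓞 F} (hβ : Prime β) (a : 𝓞 F) : β ∣ a ^ Nm β - a := by
  have hI : (Ideal.span {β}).IsPrime := (Ideal.span_singleton_prime hβ.ne_zero).2 hβ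
  have hne : Ideal.span {β} ≠ ⊥ := by
    rw [Ne, Ideal.span_singleton_eq_bot]
    exact hβ.ne_zero
  have hM : (Ideal.span {β}).IsMaximal := hI.isMaximal hne
  let _ : Field (𝓞 F ⧸ Ideal.span {β}) := Ideal.Quotient.field _
  have _ : Finite (𝓞 F ⧸ Ideal.span {β}) := Ideal.finiteQuotientOfFreeOfNeBot _ hne
  let _ : Fintype (𝓞 F ⧸ Ideal.span {β}) := Fintype.ofFinite _
  have h1 : Fintype.card (𝓞 F ⧸ Ideal.span {β}) = Nm β := by
    rw [← Nat.card_eq_fintype_card, Nm, Ideal.absNorm_apply, Submodule.cardQuot_apply]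
  have h2 := FiniteField.pow_card (Ideal.Quotient.mk (Ideal.span {β}) a)
  rw [h1] at h2
  rw [← Ideal.mem_span_singleton, ← Ideal.Quotient.eq_zero_iff_mem, map_sub, map_pow, h2, sub_self]

/-- Chunk G7A (S/M). Fermat: x = a/b with a, b in 𝓞 F, β not dividing b (V(β) < 1, V(x) ≤ 1: if x = a/b with V(b) < 1 cancel powers of β: the ring 𝓞 F is a principal ideal domain; V(c) = 1 for c not divisible by β). For a in 𝓞 F: β divides a^(Nm β) - a
(𝓞 F ⧸ span {β} is a field with Nm β elements). -/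
theorem fermat {V : ValuationSubring Ω} {β : 𝓞 F} (hβ : Prime β) (hv : V.valuation (ak Ω β) < 1) (x : F)
    (hx : V.valuation (algebraMap F Ω x) ≤ 1) :
    V.valuation (algebraMap F Ω x ^ Nm β - algebraMap F Ω x) < 1 := by
  obtain ⟨a, ⟨b, hb⟩, hab, hx'⟩ := IsFractionRing.exists_reduced_fraction (A := 𝓞 F) (K := F) x
  have hb0 : b ≠ 0 := nonZeroDivisors.ne_zero hb
  have hbF : (b : F) ≠ 0 := by exact_mod_cast hb0
  have hxab : x * (b : F) = (a : F) := by
    rw [← hx']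
    exact IsLocalization.mk'_spec F a ⟨b, hb⟩
  have hbu : V.valuation (ak Ω b) = 1 := by
    refine g7a_unit hβ hv fun hdb => ?_
    have hda : ¬ β ∣ a := fun hda => hβ.not_isUnit (hab hda hdb)
    have h1 := g7a_unit hβ hv hda
    have h2 : ak Ω a = algebraMap F Ω x * ak Ω b := by
      unfold ak
      rw [← map_mul, hxab]
    rw [h2, map_mul] at h1
    obtain ⟨c, hc⟩ := hdb
    have h3 : V.valuation (ak Ω b) < 1 := by
      have h4 : ak Ω b = ak Ω β * ak Ω c := by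
        unfold ak
        rw [← map_mul, hc]
        rfl
      rw [h4, map_mul]
      exact g7a_mr hv (ak_le V c)
    have h5 := g7a_ml hx h3
    rw [h1] at h5
    exact lt_irrefl _ h5
  have hN : Nm β ≠ 0 := by
    rw [Ne, H55P.Nm_eq_zero]
    exact hβ.ne_zero
  obtain ⟨n, hn⟩ : ∃ n, Nm β = n + 1 := ⟨Nm β - 1, by omega⟩
  obtain ⟨c, hc⟩ := g7a_int hβ a
  obtain ⟨e, he⟩ := g7a_int hβ b
  rw [hn] at hc he ⊢
  have hak : ak Ω a = algebraMap F Ω x * ak Ω b := by
    unfold ak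
    rw [← map_mul, hxab]
  have hc' : ak Ω a ^ (n + 1) - ak Ω a = ak Ω β * ak Ω c := by
    unfold ak
    rw [← map_pow, ← map_sub, ← map_mul]
    congr 1
    exact_mod_cast congrArg (fun z : 𝓞 F => (z : F)) hc
  have he' : ak Ω b ^ (n + 1) - ak Ω b = ak Ω β * ak Ω e := by
    unfold ak
    rw [← map_pow, ← map_sub, ← map_mul]
    congr 1
    exact_mod_cast congrArg (fun z : 𝓞 F => (z : F)) he
  have key : (algebraMap F Ω x ^ (n + 1) - algebraMap F Ω x) * ak Ω b ^ (n + 1) =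
      ak Ω β * (ak Ω c - algebraMap F Ω x * ak Ω e) := by
    rw [hak] at hc'
    linear_combination hc' - algebraMap F Ω x * he'
  have h6 := congrArg V.valuation key
  rw [map_mul, map_mul, map_pow, hbu, one_pow, mul_one] at h6
  rw [h6]
  refine g7a_mr hv ?_
  refine Valuation.map_sub_le _ (ak_le V c) ?_
  rw [map_mul]
  exact mul_le_one' hx (ak_le V e)

end H55K
end

-- from Lib.H55K.M4C
section

open NumberField WeierstrassCurve

namespace H55K.MG

open H55P (IQ Pt ac Inert)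
open H35P (WAB Ker GoodW IntW)

variable {F : Type} [Field F] {Ω : Type} [Field Ω] [DecidableEq Ω] [Algebra F Ω] {W : WeierstrassCurve F}
  {W' : WeierstrassCurve Ω} {u r s t : Ω} {Θ : (W⁄Ω).toAffine.Point ≃+ W'.toAffine.Point} {V : ValuationSubring Ω}

/-! Chunk M4C (M). ũ = g u/u, r̃, s̃, t̃ as in tilde. small_tilde: T1, T2 fixed by g: X_i = xc (Θ T_i), Y_i = yc (Θ T_i) in V (int_crd), X_i' = g X_i, Y_i' = g Y_i (hg: Inert gives V(X_i' - X_i) < 1); tilde gives e_i, f_i;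
V(X1 - X2) = 1 (unit_diff, Θ (T1 ± T2) = Θ T1 ± Θ T2). If V(2) = 1, a1 = a3 = 0: V(Y1) = 1 (unit_y), and tilde for -T_i (also fixed: map_neg) with yc (Θ (-T_i)) = -Y_i (yc_neg'): -Y_i = -ũ^3 Y_i' + s̃ X_i' + t̃; adding f_i:
2 (s̃ X_i' + t̃) = 0 (2 <> 0 as V(2) = 1). val_tilde. inert_ker: P <> 0. P not in the kernel: X = xc (Θ P), Y in V; V(g X - X) < 1, so xc (Θ (g P)) - X = ũ^2 g X + r̃ - X has value < 1 (V(ũ - 1) < 1, g X in V), the same for Y, so Θ (g P) is not in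
the kernel (ker_crd: its x-coordinate is in V; it is not 0) and cong_ker. P in the kernel: V(X) > 1, so V(g X) > 1 (Inert for X^(-1): V(g(X^(-1)) - X^(-1)) < 1), V(ũ^2 g X + r̃) > 1: Θ (g P) is in the kernel, and so is the difference
(H35P.ker_sub). -/

theorem m4c_ne {P : Pt W Ω} (h : ¬ Ker V (Θ P)) : P ≠ 0 := by
  rintro rfl
  apply h
  rw [map_zero]
  trivial

theorem small_tilde (hu : u ≠ 0) (hW : GoodW W' V) (hc : Crd u r s t Θ)
    (h2 : (V.valuation (2 : Ω) = 1 ∧ W'.a₁ = 0 ∧ W'.a₃ = 0) ∨ V.valuation (2 : Ω) < 1) (g : Ω ≃ₐ[F] Ω)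
    (hg : Inert V g) {T₁ T₂ : Pt W Ω} (k₁ : ¬ Ker V (Θ T₁)) (k₂ : ¬ Ker V (Θ T₂)) (k₃ : ¬ Ker V (Θ (T₁ - T₂)))
    (k₄ : ¬ Ker V (Θ (T₁ + T₂))) (k₅ : ¬ Ker V (Θ (T₁ + T₁))) (f₁ : ac W g T₁ = T₁) (f₂ : ac W g T₂ = T₂) :
    V.valuation (g u / u - 1) < 1 ∧ V.valuation ((g r - r) / u ^ 2) < 1 ∧
      V.valuation (g u ^ 2 * (g s - s) / u ^ 3) < 1 ∧ V.valuation ((g t - t - s * (g r - r)) / u ^ 3) < 1 := by
  obtain ⟨-, x1, y1⟩ := int_crd hW k₁
  obtain ⟨-, x2, y2⟩ := int_crd hW k₂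
  have n1 := m4c_ne k₁
  have n2 := m4c_ne k₂
  obtain ⟨e1, f1⟩ := tilde hu hc g n1
  obtain ⟨e2, f2⟩ := tilde hu hc g n2
  rw [f₁] at e1 f1
  rw [f₂] at e2 f2
  have hδ := unit_diff hW k₁ k₂ (by rw [← map_sub]; exact k₃) (by rw [← map_add]; exact k₄)
  refine val_tilde V x1 x2 y1 y2 (hg _ x1) (hg _ x2) (hg _ y1) (hg _ y2) e1 e2 f1 f2 hδ ?_
  rcases h2 with ⟨h2, a1, a3⟩ | h2
  · left
    have h20 : (2 : Ω) ≠ 0 := by
      intro h
      rw [h, map_zero] at h2
      exact zero_ne_one h2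
    refine ⟨unit_y hW a1 a3 k₁ (by rw [← map_add]; exact k₅), ?_, ?_⟩
    · obtain ⟨-, q⟩ := tilde hu hc g (neg_ne_zero.2 n1)
      rw [map_neg, f₁, map_neg, (yc_neg' a1 a3).1, (yc_neg' a1 a3).2, map_neg] at q
      have q2 : 2 * (g u ^ 2 * (g s - s) / u ^ 3 * g (xc (Θ T₁)) + (g t - t - s * (g r - r)) / u ^ 3) = 0 := by
        linear_combination (-1) * q - f1
      exact (mul_eq_zero.1 q2).resolve_left h20
    · obtain ⟨-, q⟩ := tilde hu hc g (neg_ne_zero.2 n2)
      rw [map_neg, f₂, map_neg, (yc_neg' a1 a3).1, (yc_neg' a1 a3).2, map_neg] at q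
      have q2 : 2 * (g u ^ 2 * (g s - s) / u ^ 3 * g (xc (Θ T₂)) + (g t - t - s * (g r - r)) / u ^ 3) = 0 := by
        linear_combination (-1) * q - f2
      exact (mul_eq_zero.1 q2).resolve_left h20
  · exact Or.inr h2

theorem m4c_lt {x y : Ω} (hx : V.valuation x < 1) (hy : V.valuation y ≤ 1) : V.valuation (x * y) < 1 := by
  rw [map_mul]
  exact mul_lt_one_of_lt_of_le hx hy

theorem m4c_in (g : Ω ≃ₐ[F] Ω) (hg : Inert V g) {x : Ω} (hx : x ∈ V) : V.valuation (g x) ≤ 1 := by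
  have h1 := (hg x hx).le
  have h2 := (V.valuation_le_one_iff x).2 hx
  have e : g x = (g x - x) + x := by ring
  rw [e]
  exact (Valuation.map_add _ _ _).trans (max_le h1 h2)

theorem inert_ker (hu : u ≠ 0) (hW : GoodW W' V) (hc : Crd u r s t Θ) (g : Ω ≃ₐ[F] Ω) (hg : Inert V g)
    (hs : V.valuation (g u / u - 1) < 1 ∧ V.valuation ((g r - r) / u ^ 2) < 1 ∧
      V.valuation (g u ^ 2 * (g s - s) / u ^ 3) < 1 ∧ V.valuation ((g t - t - s * (g r - r)) / u ^ 3) < 1)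
    (P : Pt W Ω) : Ker V (Θ (ac W g P - P)) := by
  rcases eq_or_ne P 0 with rfl | hP
  · rw [map_zero, sub_zero, map_zero]
    trivial
  obtain ⟨s1, s2, s3, s4⟩ := hs
  obtain ⟨e1, f1⟩ := tilde hu hc g hP
  have hgP : ac W g P ≠ 0 := fun h => hP ((ac_crd g P).2.2.1 h)
  have hΘg : Θ (ac W g P) ≠ 0 := (hc _ hgP).1
  have hΘ : Θ P ≠ 0 := (hc _ hP).1
  have hu1 : V.valuation (g u / u) = 1 := by
    have e : g u / u = 1 + (g u / u - 1) := by ring
    rw [e]
    exact Valuation.map_one_add_of_lt _ s1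
  rw [map_sub]
  by_cases hK : Ker V (Θ P)
  · have h1 : 1 < V.valuation (xc (Θ P)) := (ker_crd hΘ).1 hK
    have h0 : xc (Θ P) ≠ 0 := by
      intro h
      rw [h, map_zero] at h1
      exact not_lt.2 zero_le h1
    have h2 : V.valuation (xc (Θ P))⁻¹ < 1 := by
      rw [map_inv₀]
      exact inv_lt_one_of_one_lt₀ h1
    have h3 := hg _ ((V.valuation_le_one_iff _).1 h2.le)
    have h4 : V.valuation (g (xc (Θ P))⁻¹) < 1 := by
      have e : g (xc (Θ P))⁻¹ = (g (xc (Θ P))⁻¹ - (xc (Θ P))⁻¹) + (xc (Θ P))⁻¹ := by ring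
      rw [e]
      exact Valuation.map_add_lt _ h3 h2
    have h5 : 1 < V.valuation (g (xc (Θ P))) := by
      rw [map_inv₀, map_inv₀] at h4
      have h6 : V.valuation (g (xc (Θ P))) ≠ 0 :=
        (V.valuation).ne_zero_iff.2 ((map_ne_zero g).2 h0)
      have h7 := (inv_lt_one₀ (zero_lt_iff.2 h6)).1 h4
      exact h7
    have h6 : 1 < V.valuation ((g u / u) ^ 2 * g (xc (Θ P))) := by
      rw [map_mul, map_pow, hu1, one_pow, one_mul]
      exact h5
    have h7 : Ker V (Θ (ac W g P)) := by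
      rw [ker_crd hΘg, e1, Valuation.map_add_eq_of_lt_left _ (s2.trans h6)]
      exact h6
    exact H35P.ker_sub hW.toIntW _ _ h7 hK
  · obtain ⟨-, x1, y1⟩ := int_crd hW hK
    have gx := m4c_in g hg x1
    have gy := m4c_in g hg y1
    have v1 : V.valuation (1 : Ω) = 1 := map_one _
    have hp : V.valuation (g u / u + 1) ≤ 1 :=
      (Valuation.map_add _ _ _).trans (max_le hu1.le v1.le)
    have hq : V.valuation ((g u / u) ^ 2 + g u / u + 1) ≤ 1 := by
      refine (Valuation.map_add _ _ _).trans (max_le ((Valuation.map_add _ _ _).trans (max_le ?_ hu1.le)) v1.le)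
      rw [map_pow, hu1, one_pow]
    have d1 : V.valuation (xc (Θ (ac W g P)) - xc (Θ P)) < 1 := by
      have e : xc (Θ (ac W g P)) - xc (Θ P) = (g u / u - 1) * ((g u / u + 1) * g (xc (Θ P))) +
          (g (xc (Θ P)) - xc (Θ P)) + (g r - r) / u ^ 2 := by
        rw [e1]
        ring
      rw [e]
      refine Valuation.map_add_lt _ (Valuation.map_add_lt _ (m4c_lt s1 ?_) (hg _ x1)) s2
      rw [map_mul]
      exact mul_le_one' hp gx
    have d2 : V.valuation (yc (Θ (ac W g P)) - yc (Θ P)) < 1 := by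
      have e : yc (Θ (ac W g P)) - yc (Θ P) = (g u / u - 1) * (((g u / u) ^ 2 + g u / u + 1) * g (yc (Θ P))) +
          (g (yc (Θ P)) - yc (Θ P)) + (g u ^ 2 * (g s - s) / u ^ 3) * g (xc (Θ P)) +
          (g t - t - s * (g r - r)) / u ^ 3 := by
        rw [f1]
        ring
      rw [e]
      refine Valuation.map_add_lt _ (Valuation.map_add_lt _ (Valuation.map_add_lt _ (m4c_lt s1 ?_) (hg _ y1))
        (m4c_lt s3 gx)) s4
      rw [map_mul]
      exact mul_le_one' hq gy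
    have hK' : ¬ Ker V (Θ (ac W g P)) := by
      rw [ker_crd hΘg, not_lt]
      have e : xc (Θ (ac W g P)) = (xc (Θ (ac W g P)) - xc (Θ P)) + xc (Θ P) := by ring
      rw [e]
      exact (Valuation.map_add _ _ _).trans (max_le d1.le ((V.valuation_le_one_iff _).2 x1))
    exact cong_ker hW hK' hK d1 d2

end H55K.MG
end

-- from Lib.H55K.T1
section

/-! # H55K: good reduction over M: inertia acts trivially on torsion points -/

open NumberField IsDedekindDomain WeierstrassCurve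

namespace H55K.TQ

open H55P (IQ embF eF LF Per IsHecke Pt ac Inert Dec Nm UnitP)
open H35P (WAB Ker tt GoodW IntW)
open H55K.MG (VC Crd)

variable {F : Type} [Field F] [NumberField F] {Ω : Type} [Field Ω] [DecidableEq Ω] [Algebra F Ω]

/-- Chunk T1 (S/M). Θ from MG.vc_iso (Δ ≠ 0; W'.Δ ≠ 0: GoodW). s fixes u, r, s, t (they are in M). MG.inert_ker (M4C.lean): the four values are V(0) < 1 (s u / u = 1), so Ker V (Θ (ac W g T - T)); n • (ac T - T) = 0, MG.kg_tors. -/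
theorem inert_triv {W : WeierstrassCurve F} (hΔ : W.Δ ≠ 0) {V : ValuationSubring Ω} {M : Set Ω}
    (h : GMd (W⁄Ω) V M) (g : Ω ≃ₐ[F] Ω) (hM : ∀ x ∈ M, g x = x) (hg : Inert V g) (n : ℕ)
    (hn : V.valuation (n : Ω) = 1) (T : Pt W Ω) (hT : n • T = 0) : ac W g T = T := by
  obtain ⟨W', u, r, s, t, hu, hr, hs, ht, hv, hG⟩ := h
  have h1 : (W⁄Ω).Δ ≠ 0 := by
    have e : (W⁄Ω).Δ = algebraMap F Ω W.Δ := W.map_Δ (algebraMap F Ω)
    rw [e]
    exact (map_ne_zero _).2 hΔ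
  have h2 : W'.Δ ≠ 0 := by
    intro h0
    have h3 := hG.disc
    rw [h0, map_zero] at h3
    exact zero_ne_one h3
  obtain ⟨Θ, hc⟩ := MG.vc_iso hv h1 h2
  have hK := MG.inert_ker hv.une hG hc g hg (by
    rw [hM u hu, hM r hr, hM s hs, hM t ht, div_self hv.une, sub_self, sub_self, sub_self, sub_self, zero_div,
      mul_zero, zero_div, mul_zero, sub_zero, zero_div, map_zero]
    exact ⟨zero_lt_one, zero_lt_one, zero_lt_one, zero_lt_one⟩) T
  have h4 : n • (ac W g T - T) = 0 := by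
    rw [smul_sub, ← map_nsmul, hT, map_zero, sub_zero]
  exact sub_eq_zero.1 (MG.kg_tors hG hn hK h4)

end H55K.TQ
end

-- from Lib.H55K.QE0
section

/-! # H55K: the good model given by a point -/

open NumberField IsDedekindDomain WeierstrassCurve

namespace H55K.TQ

open H55P (IQ embF eF LF Per IsHecke Pt ac Inert Dec Nm UnitP)
open H35P (WAB Ker tt GoodW IntW)
open H55K.MG (VC Crd)

/-- Chunk QE0 (M). A point P of W over Ω with P, 2P, 3P, 4P outside the kernel of reduction of the good model W' gives a good model with coefficients in terms of P and 2P. x₁ = xc P, x₂ = xc (2P) and so on; on W': Θ P = (x', y'), Θ (2P) = (x₂', y₂') integral (not Ker: MG.int_crd),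
x = u^2 x' + r, ... (Crd), δ = x' - x₂' is a unit (MG.unit_diff for ΘP, 2ΘP: their difference and sum are ∓ΘP, 3ΘP, not in Ker), η = y₂' - negY' x₂' y₂' is a unit (MG.cong_ker: otherwise 2ΘP and -2ΘP are congruent, they have the same x-coordinate, and 4ΘP is in Ker), λ = (y' - y₂')/δ is integral.
vc_negY (M1A.lean): y₂ - negY x₂ y₂ = u^3 η, x₁ - x₂ = u^2 δ, y₁ - y₂ = u^3 (y' - y₂') + s u^2 δ, so u₀ = u e with e = η/δ a unit; s₀ = u λ + s; r₀ = u^2 x' + r, t₀ = u^3 y' + s u^2 x' + t: the change (u₀, r₀, s₀, t₀) is the composition (vc_comp) of (u, r, s, t) with (e, x', λ, y') on W'; W'' from vc_ex (for W' and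
(e, x', λ, y')), good by vc_good. -/
theorem rat_core {Ω : Type} [Field Ω] [DecidableEq Ω] {W W' : WeierstrassCurve Ω} {V : ValuationSubring Ω} {u r s t : Ω}
    (hv : VC W W' u r s t) (hG : GoodW W' V) {Θ : W.toAffine.Point ≃+ W'.toAffine.Point} (hc : Crd u r s t Θ)
    (P : W.toAffine.Point) (h1 : ¬ Ker V (Θ P)) (h2 : ¬ Ker V (Θ (2 • P))) (h3 : ¬ Ker V (Θ (3 • P)))
    (h4 : ¬ Ker V (Θ (4 • P))) :
    ∃ W'' : WeierstrassCurve Ω, VC W W''
      ((yc (2 • P) - W.toAffine.negY (xc (2 • P)) (yc (2 • P))) / (xc P - xc (2 • P))) (xc P)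
      ((yc P - yc (2 • P)) / (xc P - xc (2 • P))) (yc P) ∧ GoodW W'' V := by


  have hP0 : P ≠ 0 := by
    rintro rfl
    apply h1
    rw [map_zero]
    exact trivial
  have h2P0 : 2 • P ≠ 0 := by
    intro h0
    apply h2
    rw [h0, map_zero]
    exact trivial
  obtain ⟨-, hx1, hy1⟩ := hc P hP0
  obtain ⟨-, hx2, hy2⟩ := hc (2 • P) h2P0
  obtain ⟨-, ix, iy⟩ := MG.int_crd hG h1
  obtain ⟨hΘ2, ix2, iy2⟩ := MG.int_crd hG h2
  have hd : V.valuation (xc (Θ P) - xc (Θ (2 • P))) = 1 := by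
    refine MG.unit_diff hG h1 h2 ?_ ?_
    · intro hk
      apply h1
      rw [← map_sub] at hk
      have e : P - 2 • P = -P := by
        rw [two_nsmul]; abel
      rw [e, map_neg] at hk
      exact (H35P.ker_neg (Θ P)).1 hk
    · intro hk
      apply h3
      rw [← map_add] at hk
      have e : P + 2 • P = 3 • P := by
        rw [succ_nsmul P 2, add_comm]
      rw [e] at hk
      exact hk
  have hneg2 : ¬ Ker V (-Θ (2 • P)) := fun hk => h2 ((H35P.ker_neg _).1 hk)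
  have hxn : xc (-Θ (2 • P)) = xc (Θ (2 • P)) ∧
      yc (-Θ (2 • P)) = W'.toAffine.negY (xc (Θ (2 • P))) (yc (Θ (2 • P))) := by
    rcases hq : Θ (2 • P) with _ | ⟨x', y', hn'⟩
    · exact absurd hq hΘ2
    · exact ⟨rfl, rfl⟩
  have iyn : W'.toAffine.negY (xc (Θ (2 • P))) (yc (Θ (2 • P))) ∈ V := by
    rw [← hxn.2]
    exact (MG.int_crd hG hneg2).2.2
  have he : V.valuation (yc (Θ (2 • P)) - W'.toAffine.negY (xc (Θ (2 • P))) (yc (Θ (2 • P)))) = 1 := by
    refine le_antisymm ((V.valuation_le_one_iff _).2 (sub_mem iy2 iyn)) (not_lt.1 fun hlt => ?_)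
    apply h4
    have hk := MG.cong_ker hG h2 hneg2 (by
      rw [hxn.1, sub_self, map_zero]
      exact zero_lt_one) (by rw [hxn.2]; exact hlt)
    rw [sub_neg_eq_add, ← map_add] at hk
    have e : 2 • P + 2 • P = 4 • P := by
      rw [← add_nsmul]
    rw [e] at hk
    exact hk
  have hd0 : xc (Θ P) - xc (Θ (2 • P)) ≠ 0 := by
    intro h0
    rw [h0, map_zero] at hd
    exact zero_ne_one hd
  have he0 : yc (Θ (2 • P)) - W'.toAffine.negY (xc (Θ (2 • P))) (yc (Θ (2 • P))) ≠ 0 := by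
    intro h0
    rw [h0, map_zero] at he
    exact zero_ne_one he
  have hu := hv.une
  obtain ⟨W'', hW''⟩ := vc_ex W' (div_ne_zero he0 hd0) (xc (Θ P))
    ((yc (Θ P) - yc (Θ (2 • P))) / (xc (Θ P) - xc (Θ (2 • P)))) (yc (Θ P))
  have hcomp := vc_comp hv hW''
  have hgood : GoodW W'' V := by
    refine vc_good hW'' hG ?_ ix ?_ iy
    · rw [map_div₀, he, hd, div_one]
    · rw [← V.valuation_le_one_iff, map_div₀, hd, div_one, V.valuation_le_one_iff]
      exact sub_mem iy iy2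
  refine ⟨W'', ?_, hgood⟩
  have ex : xc P - xc (2 • P) = u ^ 2 * (xc (Θ P) - xc (Θ (2 • P))) := by
    rw [hx1, hx2]; ring
  have e1 : (yc (2 • P) - W.toAffine.negY (xc (2 • P)) (yc (2 • P))) / (xc P - xc (2 • P)) =
      u * ((yc (Θ (2 • P)) - W'.toAffine.negY (xc (Θ (2 • P))) (yc (Θ (2 • P)))) /
        (xc (Θ P) - xc (Θ (2 • P)))) := by
    rw [ex, hx2, hy2, MG.vc_negY hv]
    rw [mul_div_assoc', div_eq_div_iff (mul_ne_zero (pow_ne_zero 2 hu) hd0) hd0]
    ring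
  have e2 : (yc P - yc (2 • P)) / (xc P - xc (2 • P)) =
      u * ((yc (Θ P) - yc (Θ (2 • P))) / (xc (Θ P) - xc (Θ (2 • P)))) + s := by
    rw [ex, hy1, hy2, mul_div_assoc', div_add' _ _ _ hd0,
      div_eq_div_iff (mul_ne_zero (pow_ne_zero 2 hu) hd0) hd0]
    ring
  rw [e1, e2, hx1, hy1]
  exact hcomp

end H55K.TQ
end

-- from Lib.H55K.T5
section

/-! # H55K: Neron-Ogg-Shafarevich over the inertia field -/

open NumberField IsDedekindDomain WeierstrassCurve

namespace H55K.TQ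

open H55P (IQ embF eF LF Per IsHecke Pt ac Inert Dec Nm UnitP)
open H35P (WAB Ker tt GoodW IntW)
open H55K.MG (VC Crd)

variable {F : Type} [Field F] [NumberField F] {Ω : Type} [Field Ω] [DecidableEq Ω] [Algebra F Ω]

/-- Chunk T5 (S/M). W'₀, u, r, s, t from gmodel over Ω, Θ from MG.vc_iso. T ≠ 0, p • T = 0: T, 2T, 3T, 4T are not 0 (p ≥ 5), killed by p, so not in the kernel (MG.kg_tors, V(p) = 1). rat_core for T: the change of variables is given by the coordinates of T and 2T, which are fixed by the g with ac W g T = T (MG.ac_crd in M4B.lean: xc (ac g T) = g (xc T); ac g (2T) = 2 (ac g T);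
negY has coefficients in F). M = the set of the elements fixed by all g with Inert V g. -/
theorem nos_up [IsAlgClosed Ω] {W : WeierstrassCurve F} (hΔ : W.Δ ≠ 0) {V : ValuationSubring Ω} {jj : Ω} (hj : jj ∈ V)
    (h : (W⁄Ω).c₄ ^ 3 = jj * (W⁄Ω).Δ) {p : ℕ} (hp : p.Prime) (h5 : 5 ≤ p) (hV : V.valuation (p : Ω) = 1)
    {T : Pt W Ω} (hT : p • T = 0) (h0 : T ≠ 0) (hfix : ∀ g : Ω ≃ₐ[F] Ω, Inert V g → ac W g T = T) :
    GMd (W⁄Ω) V {x | ∀ g : Ω ≃ₐ[F] Ω, Inert V g → g x = x} := by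
  have h1 : (W⁄Ω).Δ ≠ 0 := by
    have e : (W⁄Ω).Δ = algebraMap F Ω W.Δ := W.map_Δ (algebraMap F Ω)
    rw [e]
    exact (map_ne_zero _).2 hΔ
  obtain ⟨W', u, r, s, t, hv, hG⟩ := gmodel h1 hj h
  have h2 : W'.Δ ≠ 0 := by
    intro h0
    have h3 := hG.disc
    rw [h0, map_zero] at h3
    exact zero_ne_one h3
  obtain ⟨Θ, hc⟩ := MG.vc_iso hv h1 h2
  have hnk : ∀ i : ℕ, 0 < i → i < 5 → ¬ Ker V (Θ (i • T)) := by
    intro i hi0 hi5 hK
    have h3 : p • (i • T) = 0 := by rw [smul_comm, hT, smul_zero]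
    have h4 := MG.kg_tors hG hV hK h3
    have hcop : Nat.Coprime i p := by
      rw [Nat.coprime_comm, Nat.Prime.coprime_iff_not_dvd hp]
      intro h5
      have h6 := Nat.le_of_dvd hi0 h5
      omega
    obtain ⟨x, y, hxy⟩ := Nat.isCoprime_iff_coprime.2 hcop
    apply h0
    have h7 : (1 : ℤ) • T = 0 := by
      rw [← hxy, add_smul, mul_smul, mul_smul, natCast_zsmul, natCast_zsmul, h4, hT, smul_zero, smul_zero,
        add_zero]
    rwa [one_smul] at h7
  have k1 : ¬ Ker V (Θ T) := by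
    have := hnk 1 (by norm_num) (by norm_num)
    rwa [one_nsmul] at this
  obtain ⟨W'', hv', hG'⟩ := rat_core hv hG hc T k1 (hnk 2 (by norm_num) (by norm_num))
    (hnk 3 (by norm_num) (by norm_num)) (hnk 4 (by norm_num) (by norm_num))
  have hx : ∀ g : Ω ≃ₐ[F] Ω, Inert V g → g (xc T) = xc T ∧ g (yc T) = yc T ∧ g (xc (2 • T)) = xc (2 • T) ∧
      g (yc (2 • T)) = yc (2 • T) := by
    intro g hg
    have h3 := hfix g hg
    have h4 : ac W g (2 • T) = 2 • T := by rw [map_nsmul, h3]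
    obtain ⟨a1, a2, -⟩ := MG.ac_crd (W := W) g T
    obtain ⟨b1, b2, -⟩ := MG.ac_crd (W := W) g (2 • T)
    rw [h3] at a1 a2
    rw [h4] at b1 b2
    exact ⟨a1.symm, a2.symm, b1.symm, b2.symm⟩
  refine ⟨W'', _, _, _, _, ?_, ?_, ?_, ?_, hv', hG'⟩
  · intro g hg
    obtain ⟨e1, e2, e3, e4⟩ := hx g hg
    have e5 : g ((W⁄Ω).toAffine.negY (xc (2 • T)) (yc (2 • T))) =
        (W⁄Ω).toAffine.negY (xc (2 • T)) (yc (2 • T)) := by
      unfold Affine.negY
      have ea1 : g ((W⁄Ω).toAffine.a₁) = (W⁄Ω).toAffine.a₁ := g.commutes W.a₁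
      have ea3 : g ((W⁄Ω).toAffine.a₃) = (W⁄Ω).toAffine.a₃ := g.commutes W.a₃
      rw [map_sub, map_sub, map_neg, map_mul, e3, e4, ea1, ea3]
    rw [map_div₀, map_sub, map_sub, e1, e3, e4, e5]
  · intro g hg
    exact (hx g hg).1
  · intro g hg
    obtain ⟨e1, e2, e3, e4⟩ := hx g hg
    rw [map_div₀, map_sub, map_sub, e1, e2, e3, e4]
  · intro g hg
    exact (hx g hg).2.1

end H55K.TQ
end

-- from Lib.H55K.J4A
section

open Polynomial

namespace H55K.JJ

/-! Chunk J4A (M, PURE ALGEBRA). From hf: for u <> 0, prod (1 - f i u) = u^c prod (u^(-1) - f i) = 1 - u^c (c = S.card; also as an identity of polynomials R(X) = prod (1 - f i X) = 1 - X^c: it holds for infinitely many u if K is infinite; or by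
Polynomial.reverse; K may be assumed infinite: hK). With a_i = f i/(1 - f i u), A_k = sum a_i^k (1 - f i u <> 0 since the product is 1 - u^c <> 0), general identities for R = prod (1 - f i X) (Finset induction, evaluate derivatives at u):
R' = -R A1, R'' = R (A1^2 - A2), R''' = -R (A1^3 - 3 A1 A2 + 2 A3). For R = 1 - X^c: R' = -c X^(c-1), R'' = -c(c-1) X^(c-2), R''' = -c(c-1)(c-2) X^(c-3) (multiply by u, u^2, u^3: no negative exponents; w = u^c). So
u A1 = c w/(1-w), u^2 A2 = (u A1)^2 + c(c-1) w/(1-w), 2 u^3 A3 = -(u A1)^3 + 3 (u A1)(u^2 A2) + c(c-1)(c-2) w/(1-w).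
xu(f i u) = u a_i + u^2 a_i^2 and zu(f i u) = -(u a_i + 3 u^2 a_i^2 + 2 u^3 a_i^3). The sums: field_simp; ring. -/

theorem j4a_der {K : Type} [Field K] {ι : Type} (S : Finset ι) (f : ι → K) {v : K}
    (hv : ∀ i ∈ S, v - f i ≠ 0) :
    eval v (derivative (∏ i ∈ S, (X - C (f i)))) =
        (∏ i ∈ S, (v - f i)) * ∑ i ∈ S, (v - f i)⁻¹ ∧
    eval v (derivative (derivative (∏ i ∈ S, (X - C (f i))))) =
        (∏ i ∈ S, (v - f i)) * ((∑ i ∈ S, (v - f i)⁻¹) ^ 2 - ∑ i ∈ S, (v - f i)⁻¹ ^ 2) ∧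
    eval v (derivative (derivative (derivative (∏ i ∈ S, (X - C (f i)))))) =
        (∏ i ∈ S, (v - f i)) * ((∑ i ∈ S, (v - f i)⁻¹) ^ 3 -
          3 * (∑ i ∈ S, (v - f i)⁻¹) * (∑ i ∈ S, (v - f i)⁻¹ ^ 2) + 2 * ∑ i ∈ S, (v - f i)⁻¹ ^ 3) := by
  classical
  induction S using Finset.induction_on with
  | empty => simp
  | insert a S ha ih =>
    have hva : v - f a ≠ 0 := hv a (Finset.mem_insert_self a S)
    obtain ⟨i1, i2, i3⟩ := ih fun i hi => hv i (Finset.mem_insert_of_mem hi)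
    have i0 : eval v (∏ i ∈ S, (X - C (f i))) = ∏ i ∈ S, (v - f i) := by
      rw [eval_prod]
      simp
    set P := ∏ i ∈ S, (X - C (f i)) with hP
    have d1 : derivative ((X - C (f a)) * P) = P + (X - C (f a)) * derivative P := by
      rw [derivative_mul, derivative_sub, derivative_X, derivative_C]
      ring
    have d2 : derivative (derivative ((X - C (f a)) * P)) =
        2 * derivative P + (X - C (f a)) * derivative (derivative P) := by
      rw [d1, derivative_add, derivative_mul, derivative_sub, derivative_X, derivative_C]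
      ring
    have d3 : derivative (derivative (derivative ((X - C (f a)) * P))) =
        3 * derivative (derivative P) + (X - C (f a)) * derivative (derivative (derivative P)) := by
      have e2 : (2 : K[X]) = C 2 := (map_ofNat C 2).symm
      rw [d2, derivative_add, derivative_mul, e2, derivative_mul, derivative_sub, derivative_X,
        derivative_C, derivative_C, ← e2]
      ring
    rw [Finset.prod_insert ha, Finset.prod_insert ha, Finset.sum_insert ha, Finset.sum_insert ha,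
      Finset.sum_insert ha, ← hP, d3, d2, d1]
    simp only [eval_add, eval_mul, eval_sub, eval_X, eval_C, eval_ofNat, i0, i1, i2, i3]
    refine ⟨?_, ?_, ?_⟩
    · generalize ∑ i ∈ S, (v - f i)⁻¹ = B1
      generalize ∏ i ∈ S, (v - f i) = Q
      field_simp
      try ring
    · generalize ∑ i ∈ S, (v - f i)⁻¹ = B1
      generalize ∑ i ∈ S, (v - f i)⁻¹ ^ 2 = B2
      generalize ∏ i ∈ S, (v - f i) = Q
      field_simp
      ring
    · generalize ∑ i ∈ S, (v - f i)⁻¹ = B1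
      generalize ∑ i ∈ S, (v - f i)⁻¹ ^ 2 = B2
      generalize ∑ i ∈ S, (v - f i)⁻¹ ^ 3 = B3
      generalize ∏ i ∈ S, (v - f i) = Q
      field_simp
      ring

theorem j4a_alg {K : Type} [Field K] {v V c B1 B2 B3 : K} (hV : V - 1 ≠ 0)
    (x1 : v * ((V - 1) * B1) = c * V) (x2 : v ^ 2 * ((V - 1) * (B1 ^ 2 - B2)) = c * (c - 1) * V)
    (x3 : v ^ 3 * ((V - 1) * (B1 ^ 3 - 3 * B1 * B2 + 2 * B3)) = c * (c - 1) * (c - 2) * V) :
    v * B1 = c * (V / (V - 1)) ∧
    v ^ 2 * B2 = (c * (V / (V - 1))) ^ 2 - c * (c - 1) * (V / (V - 1)) ∧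
    2 * (v ^ 3 * B3) = c * (c - 1) * (c - 2) * (V / (V - 1)) - (c * (V / (V - 1))) ^ 3 +
      3 * (c * (V / (V - 1))) * ((c * (V / (V - 1))) ^ 2 - c * (c - 1) * (V / (V - 1))) := by
  obtain ⟨T, hT⟩ : ∃ T, T = V / (V - 1) := ⟨_, rfl⟩
  have hTV : V = (V - 1) * T := by
    rw [hT]
    field_simp
  rw [← hT]
  have e1 : v * B1 = c * T := by
    apply mul_left_cancel₀ hV
    linear_combination x1 + c * hTV
  have e2' : v ^ 2 * (B1 ^ 2 - B2) = c * (c - 1) * T := by
    apply mul_left_cancel₀ hV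
    linear_combination x2 + c * (c - 1) * hTV
  have e2 : v ^ 2 * B2 = (c * T) ^ 2 - c * (c - 1) * T := by
    rw [← e1]
    linear_combination -e2'
  have e3' : v ^ 3 * (B1 ^ 3 - 3 * B1 * B2 + 2 * B3) = c * (c - 1) * (c - 2) * T := by
    apply mul_left_cancel₀ hV
    linear_combination x3 + c * (c - 1) * (c - 2) * hTV
  refine ⟨e1, e2, ?_⟩
  rw [← e2, ← e1]
  linear_combination e3'

theorem j4a_X {K : Type} [Field K] (n : ℕ) (v : K) :
    v * eval v (derivative (X ^ n - 1 : K[X])) = n * v ^ n ∧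
    v ^ 2 * eval v (derivative (derivative (X ^ n - 1 : K[X]))) = n * (n - 1) * v ^ n ∧
    v ^ 3 * eval v (derivative (derivative (derivative (X ^ n - 1 : K[X])))) =
      n * (n - 1) * (n - 2) * v ^ n := by
  rcases n with _ | _ | _ | n
  · simp
  · simp
  · simp
    refine ⟨?_, ?_⟩
    · ring
    · ring
  · simp
    refine ⟨?_, ?_, ?_⟩
    · ring
    · ring
    · ring

theorem j4a_main {K : Type} [Field K] {ι : Type} (S : Finset ι) (f : ι → K)
    (hf : ∏ i ∈ S, (X - C (f i)) = X ^ S.card - 1) {u : K} (hu : u ^ S.card ≠ 1) (hu0 : u ≠ 0) :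
    ∃ (s : ι → K) (T : K), T ≠ 0 ∧ (∀ i ∈ S, s i ≠ 0 ∧ f i * u = (s i - 1) / s i) ∧
      u ^ S.card = (T - 1) / T ∧ ∑ i ∈ S, s i = S.card * T ∧
      ∑ i ∈ S, s i ^ 2 = (S.card * T) ^ 2 - S.card * (S.card - 1) * T ∧
      2 * ∑ i ∈ S, s i ^ 3 = S.card * (S.card - 1) * (S.card - 2) * T - (S.card * T) ^ 3 +
        3 * (S.card * T) * ((S.card * T) ^ 2 - S.card * (S.card - 1) * T) := by
  set c := S.card with hc
  set v := u⁻¹ with hv
  have hv0 : v ≠ 0 := inv_ne_zero hu0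
  have hP : ∏ i ∈ S, (v - f i) = v ^ c - 1 := by
    have := congrArg (eval v) hf
    rw [eval_prod] at this
    simpa using this
  have hvc : v ^ c - 1 ≠ 0 := by
    rw [hv, inv_pow, sub_ne_zero]
    intro h
    apply hu
    rw [inv_eq_one] at h
    exact h
  have hne : ∀ i ∈ S, v - f i ≠ 0 := by
    intro i hi h
    apply hvc
    rw [← hP]
    exact Finset.prod_eq_zero hi h
  obtain ⟨d1, d2, d3⟩ := j4a_der S f hne
  obtain ⟨x1, x2, x3⟩ := j4a_X c v
  rw [hf, hP] at d1 d2 d3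
  rw [d1] at x1
  rw [d2] at x2
  rw [d3] at x3
  have hT : v ^ c / (v ^ c - 1) ≠ 0 := div_ne_zero (pow_ne_zero _ hv0) hvc
  obtain ⟨e1, e2, e3⟩ := j4a_alg hvc x1 x2 x3
  refine ⟨fun i => v * (v - f i)⁻¹, v ^ c / (v ^ c - 1), hT, ?_, ?_, ?_, ?_, ?_⟩
  · intro i hi
    have h := hne i hi
    refine ⟨mul_ne_zero hv0 (inv_ne_zero h), ?_⟩
    have : u = v⁻¹ := by rw [hv, inv_inv]
    rw [this]
    field_simp
    ring
  · have : u = v⁻¹ := by rw [hv, inv_inv]
    rw [this, inv_pow]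
    have hvn : v ^ c ≠ 0 := pow_ne_zero _ hv0
    field_simp
    ring
  · rw [← Finset.mul_sum]
    exact e1
  · rw [← e2, Finset.mul_sum]
    exact Finset.sum_congr rfl fun i _ => by ring
  · rw [← e3, Finset.mul_sum (a := v ^ 3)]
    congr 1
    exact Finset.sum_congr rfl fun i _ => by ring

theorem j4a_xu {K : Type} [Field K] {s : K} (hs : s ≠ 0) : xu ((s - 1) / s) = s ^ 2 - s := by
  have h : (s - 1) / s - 1 = -(1 / s) := by field_simp; ring
  unfold xu
  rw [h]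
  field_simp

theorem j4a_zu {K : Type} [Field K] {s : K} (hs : s ≠ 0) :
    zu ((s - 1) / s) = -(2 * s ^ 3 - 3 * s ^ 2 + s) := by
  have h : (s - 1) / s - 1 = -(1 / s) := by field_simp; ring
  unfold zu
  rw [h]
  field_simp
  ring

theorem j4a_pos {K : Type} [Field K] {ι : Type} {S : Finset ι} {u : K} (hu : u ^ S.card ≠ 1) :
    S.card ≠ 0 := by
  intro h
  rw [h, pow_zero] at hu
  exact hu rfl

theorem sum_xu {K : Type} [Field K] [Infinite K] {ι : Type} (S : Finset ι) (f : ι → K)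
    (hf : ∏ i ∈ S, (X - C (f i)) = X ^ S.card - 1) {u : K} (hu : u ^ S.card ≠ 1) :
    ∑ i ∈ S, xu (f i * u) = (S.card : K) ^ 2 * xu (u ^ S.card) := by
  by_cases hu0 : u = 0
  · subst hu0
    rw [zero_pow (j4a_pos hu)]
    simp [xu]
  obtain ⟨s, T, hT, hs, hw, s1, s2, -⟩ := j4a_main S f hf hu hu0
  rw [hw, j4a_xu hT]
  have : ∀ i ∈ S, xu (f i * u) = s i ^ 2 - s i := by
    intro i hi
    rw [(hs i hi).2, j4a_xu (hs i hi).1]
  rw [Finset.sum_congr rfl this, Finset.sum_sub_distrib, s1, s2]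
  ring

theorem sum_zu {K : Type} [Field K] [Infinite K] {ι : Type} (S : Finset ι) (f : ι → K)
    (hf : ∏ i ∈ S, (X - C (f i)) = X ^ S.card - 1) {u : K} (hu : u ^ S.card ≠ 1) :
    ∑ i ∈ S, zu (f i * u) = (S.card : K) ^ 3 * zu (u ^ S.card) := by
  by_cases hu0 : u = 0
  · subst hu0
    rw [zero_pow (j4a_pos hu)]
    simp [zu]
  obtain ⟨s, T, hT, hs, hw, s1, s2, s3⟩ := j4a_main S f hf hu hu0
  rw [hw, j4a_zu hT]
  have : ∀ i ∈ S, zu (f i * u) = -(2 * s i ^ 3 - 3 * s i ^ 2 + s i) := by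
    intro i hi
    rw [(hs i hi).2, j4a_zu (hs i hi).1]
  rw [Finset.sum_congr rfl this, Finset.sum_neg_distrib, Finset.sum_add_distrib,
    Finset.sum_sub_distrib, ← Finset.mul_sum, ← Finset.mul_sum, s1, s2, s3]
  ring

end H55K.JJ
end

-- from Lib.H55K.J4B
section

open Polynomial

namespace H55K.JJ

/-! Chunk J4B (S/M, PURE ALGEBRA). zu_sq: (zu u)^2 = 4 (xu u)^3 + (xu u)^2 (field_simp, ring). xu_inj: cross multiply, (u - w)(u w - 1) = 0. compare: for w in the infinite set put x = xu w; multiply hX by β^(-2): X = (c^2 x + δ)/β^2;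
β^6 Z^2 = c^6 (zu w)^2 = c^6 (4 x^3 + x^2), and β^6 Z^2 = β^6 (4 X^3 + X^2) = 4 (c^2 x + δ)^3 + β^2 (c^2 x + δ)^2. So the polynomial 4 (c^2 T + δ)^3 + β^2 (c^2 T + δ)^2 - c^6 (4 T^3 + T^2) vanishes at infinitely many T = xu w (xu is at most 2 to 1:
xu_inj), so its coefficients are 0: T^0: 4 δ^3 + β^2 δ^2 = 0; T^1: 12 c^2 δ^2 + 2 β^2 c^2 δ = 0; T^2: 12 c^4 δ + β^2 c^4 = c^6. If δ <> 0: 4 δ = -β^2 and 12 δ = -2 β^2, so β^2 = 0: contradiction. δ = 0 and β^2 = c^2. -/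

theorem zu_sq {K : Type} [Field K] {u : K} (hu : u ≠ 1) : zu u ^ 2 = 4 * xu u ^ 3 + xu u ^ 2 := by
  have h : u - 1 ≠ 0 := sub_ne_zero.2 hu
  unfold zu xu
  field_simp
  ring

theorem xu_inj {K : Type} [Field K] {u w : K} (h0 : u ≠ 1) (h1 : w ≠ 1) (h : xu u = xu w) :
    u = w ∨ u * w = 1 := by
  have hu : u - 1 ≠ 0 := sub_ne_zero.2 h0
  have hw : w - 1 ≠ 0 := sub_ne_zero.2 h1
  unfold xu at h
  rw [div_eq_div_iff (pow_ne_zero 2 hu) (pow_ne_zero 2 hw)] at h
  have h2 : (u - w) * (u * w - 1) = 0 := by linear_combination -h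
  rcases mul_eq_zero.1 h2 with h3 | h3
  · exact Or.inl (sub_eq_zero.1 h3)
  · exact Or.inr (sub_eq_zero.1 h3)

theorem compare {K : Type} [Field K] {β c δ : K} (hβ : β ≠ 0) (hc : c ≠ 0) {I : Set K} (hI : I.Infinite)
    (h : ∀ w ∈ I, w ≠ 0 ∧ w ≠ 1 ∧ ∃ x z : K, z ^ 2 = 4 * x ^ 3 + x ^ 2 ∧ β ^ 2 * x = c ^ 2 * xu w + δ ∧
      β ^ 3 * z = c ^ 3 * zu w) : δ = 0 ∧ β ^ 2 = c ^ 2 := by
  have hT : (xu '' I).Infinite := by
    intro hf
    apply hI
    refine Set.Finite.of_finite_fibers xu hf ?_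
    rintro x ⟨w0, hw0, rfl⟩
    refine Set.Finite.subset (Set.toFinite {w0, w0⁻¹}) ?_
    rintro w ⟨hw, hx⟩
    have hx' : xu w = xu w0 := hx
    rcases xu_inj (h w hw).2.1 (h w0 hw0).2.1 hx' with h1 | h1
    · left; exact h1
    · right; exact eq_inv_of_mul_eq_one_left h1
  set a2 : K := 12 * c ^ 4 * δ + β ^ 2 * c ^ 4 - c ^ 6 with ha2
  set a1 : K := 12 * c ^ 2 * δ ^ 2 + 2 * β ^ 2 * c ^ 2 * δ with ha1
  set a0 : K := 4 * δ ^ 3 + β ^ 2 * δ ^ 2 with ha0
  have hG : (C a2 * X ^ 2 + C a1 * X + C a0 : K[X]) = 0 := by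
    apply Polynomial.eq_zero_of_infinite_isRoot
    refine hT.mono ?_
    rintro t ⟨w, hw, rfl⟩
    obtain ⟨hw0, hw1, x, z, hz, hx, hy⟩ := h w hw
    have hsq := zu_sq hw1
    show IsRoot _ _
    simp only [IsRoot.def, eval_add, eval_mul, eval_C, eval_X, eval_pow]
    rw [ha2, ha1, ha0]
    have e1 : β ^ 6 * z ^ 2 = c ^ 6 * (4 * xu w ^ 3 + xu w ^ 2) := by
      rw [← hsq]
      linear_combination (β ^ 3 * z + c ^ 3 * zu w) * hy
    have e2 : β ^ 6 * z ^ 2 = 4 * (c ^ 2 * xu w + δ) ^ 3 + β ^ 2 * (c ^ 2 * xu w + δ) ^ 2 := by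
      rw [hz, ← hx]
      ring
    linear_combination e1 - e2
  have c0 : a0 = 0 := by
    have := congrArg (fun p => coeff p 0) hG
    simpa using this
  have c1 : a1 = 0 := by
    have := congrArg (fun p => coeff p 1) hG
    simpa [coeff_C, coeff_X_pow] using this
  have c2 : a2 = 0 := by
    have := congrArg (fun p => coeff p 2) hG
    simpa [coeff_C, coeff_X] using this
  have hδ : δ = 0 := by
    by_contra hd
    have e0 : 4 * δ + β ^ 2 = 0 := by
      have : δ ^ 2 * (4 * δ + β ^ 2) = 0 := by rw [← c0, ha0]; ring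
      exact (mul_eq_zero.1 this).resolve_left (pow_ne_zero 2 hd)
    have e1 : β ^ 2 * (δ * c ^ 2) = 0 := by
      linear_combination 3 * δ * c ^ 2 * e0 - c1
    exact mul_ne_zero (pow_ne_zero 2 hβ) (mul_ne_zero hd (pow_ne_zero 2 hc)) e1
  refine ⟨hδ, ?_⟩
  have : c ^ 4 * (β ^ 2 - c ^ 2) = 0 := by
    rw [ha2, hδ] at c2
    linear_combination c2
  exact sub_eq_zero.1 ((mul_eq_zero.1 this).resolve_left (pow_ne_zero 4 hc))

end H55K.JJ
end

-- from Lib.H55P.Z10_T
section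

open NumberField IsDedekindDomain WeierstrassCurve

namespace H55P

section gen

variable {F : Type} [Field F] [NumberField F] {Ω : Type} [Field Ω] [Algebra F Ω]


/-! Chunk PZ10 (M). Conversions.
bot_conv: the ring homomorphism algebraMap : 𝓞 F → 𝓞 ⊥ is bijective (IntermediateField.botEquiv; see T2_equiv in Lib/H55N/T2.lean), v₀ = the inverse image of v. Ram: unfold, x in v₀. The residue rings are isomorphic as O_F-algebras, so the sets of points are in bijection: a point (x, y) goes to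
(f x, f y) (Affine.map_nonsingular, Affine.Point is an inductive type: build the Equiv, or use nonsingularPointEquiv and Nat.card_congr).
unr_sub: e(W|v) = e(W|w) e(w|v) (Ideal.ramificationIdx_tower), W a prime of L above w: if e(W|v) >= 2 then v.map <= W^2, so RamF. unrP_sub: let W be a prime of L with W^2 dividing (p) (a nonunit square divisor has a prime factor), v = W ∩ F. hsq: (p) = v a with v not dividing a; if v.map is not contained
in W^2 then W does not divide a.map (W ∩ F = v does not contain a) and W^2 does not divide v.map * a.map (multiplicities of the prime W), contradiction. So RamF L v and p not in v, but p is in v. -/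

/-- The points of a curve over isomorphic fields. -/
theorem pz10_card {A B : Type} [CommRing A] [CommRing B] (W : WeierstrassCurve A) (f : A ≃+* B) :
    Nat.card ((W.map (f : A →+* B)).toAffine.Point) = Nat.card W.toAffine.Point := by
  have h : ∀ x y, (W.map (f : A →+* B)).toAffine.Nonsingular ((f : A →+* B) x) ((f : A →+* B) y) ↔
      W.toAffine.Nonsingular x y := fun x y =>
    WeierstrassCurve.Affine.map_nonsingular (W := W.toAffine) (f := (f : A →+* B)) f.injective x y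
  have h' : ∀ x y, (W.map (f : A →+* B)).toAffine.Nonsingular x y →
      W.toAffine.Nonsingular (f.symm x) (f.symm y) := by
    intro x y hxy
    rw [← h]
    show (W.map (f : A →+* B)).toAffine.Nonsingular (f (f.symm x)) (f (f.symm y))
    rw [f.apply_symm_apply, f.apply_symm_apply]
    exact hxy
  have hsome : ∀ {R : Type} [CommRing R] (V : WeierstrassCurve.Affine R) {x y x' y' : R}
      (hx : x = x') (hy : y = y') (h1 : V.Nonsingular x y) (h2 : V.Nonsingular x' y'),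
      WeierstrassCurve.Affine.Point.some x y h1 = WeierstrassCurve.Affine.Point.some x' y' h2 := by
    intro R _ V x y x' y' hx hy h1 h2
    subst hx
    subst hy
    rfl
  refine Nat.card_congr ?_
  refine
    { toFun := fun P => match P with
        | .zero => .zero
        | .some x y hxy => .some (f.symm x) (f.symm y) (h' x y hxy)
      invFun := fun P => match P with
        | .zero => .zero
        | .some x y hxy => .some (f x) (f y) ((h x y).2 hxy)
      left_inv := ?_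
      right_inv := ?_ }
  · rintro (_ | ⟨x, y, hxy⟩)
    · rfl
    · exact hsome _ (f.apply_symm_apply x) (f.apply_symm_apply y) _ _
  · rintro (_ | ⟨x, y, hxy⟩)
    · rfl
    · exact hsome _ (f.symm_apply_apply x) (f.symm_apply_apply y) _ _

theorem bot_conv (W₀ : WeierstrassCurve (𝓞 F)) (L : IntermediateField F Ω)
    (v : HeightOneSpectrum (𝓞 (⊥ : IntermediateField F Ω))) :
    ∃ v₀ : HeightOneSpectrum (𝓞 F),
      (∀ x : 𝓞 F, x ∈ v₀.asIdeal ↔ algebraMap (𝓞 F) (𝓞 (⊥ : IntermediateField F Ω)) x ∈ v.asIdeal) ∧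
      (Ram (⊥ : IntermediateField F Ω) L v.asIdeal → RamF L v₀.asIdeal) ∧
      Nat.card (W₀⁄(𝓞 (⊥ : IntermediateField F Ω) ⧸ v.asIdeal)).toAffine.Point =
        Nat.card (W₀⁄(𝓞 F ⧸ v₀.asIdeal)).toAffine.Point := by
  obtain ⟨g, hg⟩ : ∃ g : 𝓞 F →+* 𝓞 (⊥ : IntermediateField F Ω),
    g = algebraMap (𝓞 F) (𝓞 (⊥ : IntermediateField F Ω)) := ⟨_, rfl⟩
  have hsurj : Function.Surjective g := by
    intro x
    obtain ⟨y, hy⟩ := IntermediateField.mem_bot.1 ((x : (⊥ : IntermediateField F Ω))).2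
    have hyi : IsIntegral ℤ y := by
      have h2 : IsIntegral ℤ ((x : (⊥ : IntermediateField F Ω)) : Ω) :=
        (RingOfIntegers.isIntegral_coe x).map
          ((⊥ : IntermediateField F Ω).val.toRingHom.toIntAlgHom)
      rw [← hy] at h2
      exact (isIntegral_algebraMap_iff (algebraMap F Ω).injective).1 h2
    refine ⟨⟨y, hyi⟩, ?_⟩
    rw [hg]
    apply RingOfIntegers.ext
    apply Subtype.ext
    rw [← hy]
    rfl
  have hvp := v.isPrime
  have hne : v.asIdeal.comap g ≠ ⊥ := by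
    intro h0
    apply v.ne_bot
    rw [eq_bot_iff]
    intro x hx
    obtain ⟨y, rfl⟩ := hsurj x
    have h1 : y ∈ v.asIdeal.comap g := hx
    rw [h0, Ideal.mem_bot] at h1
    rw [Ideal.mem_bot, h1, map_zero]
  have hp : (v.asIdeal.comap g).IsPrime := Ideal.IsPrime.comap g
  refine ⟨⟨v.asIdeal.comap g, hp, hne⟩, ?_, ?_, ?_⟩
  · intro x
    rw [← hg]
    exact Iff.rfl
  · rintro ⟨W, hW, h⟩
    refine ⟨W, hW, ?_⟩
    rw [Ideal.map_le_iff_le_comap]
    intro x hx
    have h1 : g x ∈ v.asIdeal := hx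
    rw [Ideal.mem_comap]
    refine h (g x) (algebraMap (𝓞 F) (𝓞 L) x) h1 ?_
    rw [hg]
    rfl
  · have hinj : Function.Injective g := by
      intro x y hxy
      have h1 : algebraMap F Ω (x : F) = algebraMap F Ω (y : F) := by
        rw [hg] at hxy
        exact congrArg (fun z : 𝓞 (⊥ : IntermediateField F Ω) =>
          ((z : (⊥ : IntermediateField F Ω)) : Ω)) hxy
      exact RingOfIntegers.ext ((algebraMap F Ω).injective h1)
    obtain ⟨gE, hgE⟩ : ∃ gE : 𝓞 F ≃+* 𝓞 (⊥ : IntermediateField F Ω), (gE : 𝓞 F →+* _) = g :=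
      ⟨RingEquiv.ofBijective g ⟨hinj, hsurj⟩, rfl⟩
    have hIJ : v.asIdeal = (v.asIdeal.comap g).map (gE : 𝓞 F →+* 𝓞 (⊥ : IntermediateField F Ω)) := by
      rw [hgE, Ideal.map_comap_of_surjective g hsurj]
    have e : W₀⁄(𝓞 (⊥ : IntermediateField F Ω) ⧸ v.asIdeal) =
        (W₀⁄(𝓞 F ⧸ v.asIdeal.comap g)).map
          ((Ideal.quotientEquiv (v.asIdeal.comap g) v.asIdeal gE hIJ : _ ≃+* _) :
            (𝓞 F ⧸ v.asIdeal.comap g) →+* (𝓞 (⊥ : IntermediateField F Ω) ⧸ v.asIdeal)) := by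
      show W₀.map (algebraMap (𝓞 F) (𝓞 (⊥ : IntermediateField F Ω) ⧸ v.asIdeal)) =
        (W₀.map (algebraMap (𝓞 F) (𝓞 F ⧸ v.asIdeal.comap g))).map
          ((Ideal.quotientEquiv (v.asIdeal.comap g) v.asIdeal gE hIJ : _ ≃+* _) :
            (𝓞 F ⧸ v.asIdeal.comap g) →+* (𝓞 (⊥ : IntermediateField F Ω) ⧸ v.asIdeal))
      rw [WeierstrassCurve.map_map]
      have h1 : algebraMap (𝓞 F) (𝓞 (⊥ : IntermediateField F Ω) ⧸ v.asIdeal) =
          ((Ideal.quotientEquiv (v.asIdeal.comap g) v.asIdeal gE hIJ : _ ≃+* _) :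
            (𝓞 F ⧸ v.asIdeal.comap g) →+* (𝓞 (⊥ : IntermediateField F Ω) ⧸ v.asIdeal)).comp
            (algebraMap (𝓞 F) (𝓞 F ⧸ v.asIdeal.comap g)) := by
        refine RingHom.ext fun x => ?_
        have h2 : (gE : 𝓞 F →+* 𝓞 (⊥ : IntermediateField F Ω)) x = algebraMap (𝓞 F) _ x := by
          rw [hgE, hg]
        exact (congrArg (Ideal.Quotient.mk v.asIdeal) h2).symm
      rw [← h1]
    rw [e]
    exact pz10_card _ _


theorem pz10_sq {R : Type} [CommRing R] [IsDedekindDomain R] (I x : Ideal R) (hI : I ≠ ⊥) (hx : x * x ∣ I)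
    (hu : ¬ IsUnit x) : ∃ W : Ideal R, W.IsMaximal ∧ W ≠ ⊥ ∧ I ≤ W ^ 2 := by
  rw [Ideal.isUnit_iff] at hu
  obtain ⟨W, hW, hle⟩ := Ideal.exists_le_maximal x hu
  refine ⟨W, hW, ?_, ?_⟩
  · rintro rfl
    have h1 : x = ⊥ := le_bot_iff.1 hle
    apply hI
    rw [h1] at hx
    obtain ⟨c, hc⟩ := hx
    rw [hc]
    simp
  · rw [← Ideal.dvd_iff_le, pow_two]
    exact (mul_dvd_mul (Ideal.dvd_iff_le.2 hle) (Ideal.dvd_iff_le.2 hle)).trans hx

theorem unrP_sub (p : ℕ) (hp : p.Prime) (L : IntermediateField F Ω) [FiniteDimensional F L]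
    [NumberField L] (hsq : Squarefree (Ideal.span {(p : 𝓞 F)}))
    (h : ∀ v : HeightOneSpectrum (𝓞 F), RamF L v.asIdeal → (p : 𝓞 F) ∉ v.asIdeal) : UnrP p L := by
  intro x hx
  by_contra hu
  have hp0 : (p : 𝓞 L) ≠ 0 := Nat.cast_ne_zero.2 hp.ne_zero
  obtain ⟨W, hW, hWb, hle⟩ := pz10_sq (Ideal.span {(p : 𝓞 L)}) x
    (by rw [Ne, Ideal.span_singleton_eq_bot]; exact hp0) hx hu
  have hWp := hW.isPrime
  have hpW : (p : 𝓞 L) ∈ W := by
    have h1 : (p : 𝓞 L) ∈ W ^ 2 := hle (Ideal.mem_span_singleton_self _)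
    exact Ideal.pow_le_self two_ne_zero h1
  have hpv : (p : 𝓞 F) ∈ W.under (𝓞 F) := by
    rw [Ideal.mem_under, map_natCast]
    exact hpW
  have hvne : W.under (𝓞 F) ≠ ⊥ := by
    intro h0
    rw [h0, Ideal.mem_bot] at hpv
    exact hp.ne_zero (Nat.cast_eq_zero.1 hpv)
  obtain ⟨v, hv⟩ : ∃ v : HeightOneSpectrum (𝓞 F), v.asIdeal = W.under (𝓞 F) :=
    ⟨⟨_, inferInstance, hvne⟩, rfl⟩
  refine h v ⟨W, hWp, ?_⟩ (by rw [hv]; exact hpv)
  have hdvd : v.asIdeal ∣ Ideal.span {(p : 𝓞 F)} := by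
    rw [Ideal.dvd_iff_le, Ideal.span_singleton_le_iff_mem, hv]
    exact hpv
  obtain ⟨a, ha⟩ := hdvd
  have hav : ¬ a ≤ v.asIdeal := by
    intro hle2
    have h1 : v.asIdeal * v.asIdeal ∣ Ideal.span {(p : 𝓞 F)} := by
      rw [ha]
      exact mul_dvd_mul_left _ (Ideal.dvd_iff_le.2 hle2)
    have h2 := hsq _ h1
    rw [Ideal.isUnit_iff] at h2
    exact v.isPrime.ne_top h2
  have haW : ¬ a.map (algebraMap (𝓞 F) (𝓞 L)) ≤ W := by
    rw [Ideal.map_le_iff_le_comap]
    intro hle2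
    apply hav
    rw [hv]
    exact hle2
  have hcop : IsCoprime (W ^ 2) (a.map (algebraMap (𝓞 F) (𝓞 L))) := by
    apply IsCoprime.pow_left
    rw [Ideal.isCoprime_iff_sup_eq]
    refine hW.1.2 _ (lt_of_le_of_ne le_sup_left fun he => haW ?_)
    rw [he]
    exact le_sup_right
  rw [← Ideal.dvd_iff_le]
  apply hcop.dvd_of_dvd_mul_right
  rw [← Ideal.map_mul, ← ha, Ideal.map_span, Set.image_singleton, map_natCast, Ideal.dvd_iff_le]
  exact hle

end gen

/-- p >= 5 is unramified in the field of cube roots of unity: the discriminant is -3 (H55C.W7_discrF in Lib/H55C/W7.lean; NumberField.not_dvd_discr_iff_forall_mem), or p is prime or a product of two coprime primes. -/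
theorem sqfree_E (p : ℕ) (hp : p.Prime) (h5 : 5 ≤ p) : Squarefree (Ideal.span {(p : H55B.O)}) := by
  have hpp : Prime (p : ℤ) := Nat.prime_iff_prime_int.1 hp
  have hd : ¬ (p : ℤ) ∣ NumberField.discr H55B.F := by
    have : Fact (Nat.Prime 3) := ⟨by norm_num⟩
    have h : NumberField.discr H55B.F = (-1) ^ ((3 - 1) / 2) * 3 ^ (3 - 2) :=
      IsCyclotomicExtension.Rat.discr_prime 3 H55B.F
    rw [h]
    intro hdv
    have h1 : (p : ℤ) ∣ 3 := by
      have h2 : ((-1) ^ ((3 - 1) / 2) * 3 ^ (3 - 2) : ℤ) = -3 := by norm_num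
      rw [h2] at hdv
      exact (dvd_neg (a := (p : ℤ))).1 hdv
    have h3 := Int.le_of_dvd (by norm_num) h1
    omega
  rw [NumberField.not_dvd_discr_iff_forall_mem H55B.F H55B.O hpp] at hd
  intro x hx
  by_contra hu
  have hp0 : (p : H55B.O) ≠ 0 := Nat.cast_ne_zero.2 hp.ne_zero
  obtain ⟨W, hW, hWb, hle⟩ := pz10_sq (Ideal.span {(p : H55B.O)}) x
    (by rw [Ne, Ideal.span_singleton_eq_bot]; exact hp0) hx hu
  have hWp := hW.isPrime
  have hpW : (p : H55B.O) ∈ W := by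
    have h1 : (p : H55B.O) ∈ W ^ 2 := hle (Ideal.mem_span_singleton_self _)
    exact Ideal.pow_le_self two_ne_zero h1
  have hF := hd W hWp (by exact_mod_cast hpW)
  have he2 : W.ramificationIdx ℤ = 1 := Ideal.ramificationIdx_eq_one_iff.2 hF
  have hover : W.under ℤ = Ideal.span {(p : ℤ)} := by
    have hmax : (Ideal.span {(p : ℤ)}).IsMaximal :=
      PrincipalIdealRing.isMaximal_of_irreducible hpp.irreducible
    refine (hmax.eq_of_le (Ideal.IsPrime.ne_top inferInstance) ?_).symm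
    rw [Ideal.span_singleton_le_iff_mem, Ideal.under_def, Ideal.mem_comap, map_natCast]
    exact hpW
  have : W.LiesOver (Ideal.span {(p : ℤ)}) := ⟨hover.symm⟩
  have hne : Ideal.span {(p : ℤ)} ≠ ⊥ := by
    rw [Ne, Ideal.span_singleton_eq_bot]
    exact hpp.ne_zero
  rw [← Ideal.ramificationIdx'_eq_ramificationIdx (Ideal.span {(p : ℤ)}) W hne] at he2
  have hmap : Ideal.map (algebraMap ℤ H55B.O) (Ideal.span {(p : ℤ)}) = Ideal.span {(p : H55B.O)} := by
    rw [Ideal.map_span, Set.image_singleton, map_natCast]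
  refine (Ideal.ramificationIdx'_ne_one_iff (p := Ideal.span {(p : ℤ)}) (P := W) ?_).2 ?_ he2
  · rw [hmap, Ideal.span_singleton_le_iff_mem]
    exact hpW
  · rw [hmap]
    exact hle

end H55P
end
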