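import Mathlib
import Pool.Agent.Lib.H1M.PP2.D_H55K_D2
import Pool.Agent.Lib.H1M.PP2.D_H55K_FD
import Pool.Agent.Lib.H1M.PP2.D_H55P_SD
import Pool.Agent.Lib.H1M.PP2.M019
import Pool.Agent.Lib.H1M.PP2.M086

/-! # H13R: the relative theorem (arbitrary base field M): definitions -/

open NumberField IsDedekindDomain WeierstrassCurve

namespace H13R

open H55P (IQ Ram UnitP)
open H55K (GoodAt)
open H55K.TQ

section fields

variable {F : Type} [Field F] [NumberField F] {Ω : Type} [Field Ω] [Algebra F Ω]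

/-- W₀ has bad reduction at all primes of M which divide its discriminant. -/
def BadM (W₀ : WeierstrassCurve (𝓞 F)) (M : IntermediateField F Ω) [NumberField M] : Prop :=
  ∀ w : HeightOneSpectrum (𝓞 M), algebraMap (𝓞 F) (𝓞 M) W₀.Δ ∈ w.asIdeal → ¬ GoodAt ((W₀⁄F)⁄M) w

/-- No prime of M which does not divide the discriminant and at which the number of points is divisible by p is ramified in K. -/
def NoRel (p : ℕ) (W₀ : WeierstrassCurve (𝓞 F)) (M K : IntermediateField F Ω) [NumberField M] : Prop :=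
  ∀ v : HeightOneSpectrum (𝓞 M), Ram M K v.asIdeal → algebraMap (𝓞 F) (𝓞 M) W₀.Δ ∉ v.asIdeal →
    ¬ p ∣ Nat.card (W₀⁄(𝓞 M ⧸ v.asIdeal)).toAffine.Point

end fields





/-- As AnUnitG, without the order of the group of points: the L-series converges absolutely for Re s > 3/2, continues to Re s > 1/2, does not
vanish at s = 1 and the algebraic part of the value is a p-adic unit. -/
def LUnitG (p : ℕ) (W : WeierstrassCurve ℤ) (K : Type) [Field K] [NumberField K] : Prop :=
  (∃ L : PeriodPair, PerZ W L) ∧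
  ∃ Λ : ℂ → ℂ, AnalyticOnNhd ℂ Λ {s | 1 / 2 < s.re} ∧
    (∀ s : ℂ, 3 / 2 < s.re →
      LSeriesSummable (fun n => (((W⁄K).LFunction n : ℤ) : ℂ)) s ∧ Λ s = (W⁄K).LSeries s) ∧
    Λ 1 ≠ 0 ∧
    ∀ L : PeriodPair, PerZ W L → UnitP p (lG K W L (Λ 1))

end H13R
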