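import Mathlib
import Pool.Agent.Lib.H1M.PP2.D_H55P_Stm
import Pool.Agent.Lib.H1M.PP2.M007
import Pool.Agent.Lib.H1M.PP2.M049
import Pool.Agent.Lib.H1M.PP2.M054

/-! # H55K: part R: the field generated by F over a field K -/

open NumberField IsDedekindDomain WeierstrassCurve

namespace H55K.TQ

open H55P (IQ embF eF LF Per IsHecke Pt ac Inert Dec Nm UnitP)
open H35P (WAB Ker tt GoodW IntW)
open H55K.MG (VC Crd)

variable (F : Type) [Field F] [NumberField F] [IQ F] {Ω : Type} [Field Ω] [Algebra F Ω] [Algebra ℚ Ω] [IsScalarTower ℚ F Ω]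

/-- The field generated by F and the image of K. -/
noncomputable def KG (K : Type) [Field K] [NumberField K] (ι : K →ₐ[ℚ] Ω) : IntermediateField F Ω :=
  IntermediateField.adjoin F (Set.range ι)

end H55K.TQ
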