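import Mathlib
import Pool.Agent.Lib.H1M.PP2.D_H55C_Defs
import Pool.Agent.Lib.H1M.PP2.D_H55K_D2
import Pool.Agent.Lib.H1M.PP2.D_H55K_RD
import Pool.Agent.Lib.H1M.PP2.D_H55P_SD
import Pool.Agent.Lib.H1M.PP2.D_H55P_Sel
import Pool.Agent.Lib.H1M.PP2.D_H55P_Stm
import Pool.Agent.Lib.H1M.PP2.M007
import Pool.Agent.Lib.H1M.PP2.M010
import Pool.Agent.Lib.H1M.PP2.M016
import Pool.Agent.Lib.H1M.PP2.M019
import Pool.Agent.Lib.H1M.PP2.M020
import Pool.Agent.Lib.H1M.PP2.M022
import Pool.Agent.Lib.H1M.PP2.M031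
import Pool.Agent.Lib.H1M.PP2.M032
import Pool.Agent.Lib.H1M.PP2.M040
import Pool.Agent.Lib.H1M.PP2.M041
import Pool.Agent.Lib.H1M.PP2.M046
import Pool.Agent.Lib.H1M.PP2.M048
import Pool.Agent.Lib.H1M.PP2.M049
import Pool.Agent.Lib.H1M.PP2.M050
import Pool.Agent.Lib.H1M.PP2.M054

/-! Merged copies (to shorten the build) of Lib.H13E.Q6, Lib.H55K.RI1, Lib.H55D.Q3, Lib.H55K.G10A, Lib.H55K.G8A, Lib.H55K.QE2A, Lib.H55K.Z1A, Lib.H55K.Z1B, Lib.H55K.Z1C, Lib.H55C.B0, Lib.H55P.GenStm, Lib.H55K.Y7B, Lib.H55K.J10, Lib.H55K.Y1, Lib.H55K.Y3, Lib.H55K.T3A, Lib.H55K.T3B, Lib.H55K.KD, Lib.H55K.K0A, Lib.H55K.J12, Lib.H55K.RD_T, Lib.H55K.RB2, Lib.H55K.RP2. -/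

-- from Lib.H13E.Q6
section

open NumberField IsDedekindDomain

namespace H13E

open H55B H35T

variable {K₀ K : Type} [Field K₀] [NumberField K₀] [Field K] [NumberField K] [Algebra F K] [Algebra K₀ K]


/-- the place below -/
noncomputable def q6_under (K₀ : Type) {K : Type} [Field K₀] [NumberField K₀] [Field K] [NumberField K]
    [Algebra K₀ K] (w : HeightOneSpectrum (𝓞 K)) : HeightOneSpectrum (𝓞 K₀) :=
  ⟨w.asIdeal.under (𝓞 K₀), w.isPrime.under (𝓞 K₀), Ideal.IsIntegral.comap_ne_bot _ w.ne_bot⟩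

theorem q6_fin (K : Type) [Field K] [NumberField K] [Algebra K₀ K] (w' : HeightOneSpectrum (𝓞 K₀)) :
    {w : HeightOneSpectrum (𝓞 K) | w'.asIdeal = w.asIdeal.under (𝓞 K₀)}.Finite := by
  have himg : (fun w : HeightOneSpectrum (𝓞 K) => w.asIdeal) ''
      {w : HeightOneSpectrum (𝓞 K) | w'.asIdeal = w.asIdeal.under (𝓞 K₀)} ⊆
        w'.asIdeal.primesOver (𝓞 K) := by
    rintro P ⟨w, hw, rfl⟩
    exact ⟨w.isPrime, ⟨hw⟩⟩
  have hinj : Function.Injective (fun w : HeightOneSpectrum (𝓞 K) => w.asIdeal) :=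
    fun a b h => HeightOneSpectrum.ext h
  have hvm := w'.isMaximal
  apply Set.Finite.of_finite_image (f := fun w : HeightOneSpectrum (𝓞 K) => w.asIdeal)
  · exact (IsDedekindDomain.primesOver_finite w'.asIdeal (𝓞 K)).subset himg
  · exact hinj.injOn


end H13E
end

-- from Lib.H55K.RI1
section

/-! # H55K: the L-function over a field which does not contain F -/

open NumberField IsDedekindDomain WeierstrassCurve

namespace H55K.TQ

open H55P (IQ embF eF LF Per IsHecke Pt ac Inert Dec Nm UnitP)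
open H35P (WAB Ker tt GoodW IntW)
open H55K.MG (VC Crd)
open H55K.DD (LF' ef)

variable {F K₀ K : Type} [Field F] [NumberField F] [IQ F] [Field K₀] [NumberField K₀] [Field K] [NumberField K]
  [Algebra F K] [Algebra K₀ K]

/-- the Euler product, up to m -/
theorem ri1_ev {K : Type} [Field K] [NumberField K] (W : WeierstrassCurve K) (m : ℕ) :
    ∀ᶠ T : Finset (HeightOneSpectrum (𝓞 K)) in Filter.atTop,
      (∏ w ∈ T, LF' W w) m = ((W.LFunction m : ℤ) : ℂ) := by
  have hN : Northcott (fun w : HeightOneSpectrum (𝓞 K) =>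
      Nat.card (IsLocalRing.ResidueField (w.adicCompletionIntegers K))) := by
    have h1 : (fun w : HeightOneSpectrum (𝓞 K) =>
      Nat.card (IsLocalRing.ResidueField (w.adicCompletionIntegers K))) =
        fun w => Ideal.absNorm w.asIdeal := funext fun w => (H55B.residue_card K w).2
    rw [h1]
    infer_instance
  have h := ArithmeticFunction.tendsTo_eulerProduct_ofPowerSeries
    (fun w : HeightOneSpectrum (𝓞 K) =>
      Nat.card (IsLocalRing.ResidueField (w.adicCompletionIntegers K)))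
    (fun w => (W.baseChange (w.adicCompletion K)).localPowerSeries
      (w.adicCompletionIntegers K))
    (fun w => by simp [WeierstrassCurve.localPowerSeries]) m
  have h' : ∀ᶠ T : Finset (HeightOneSpectrum (𝓞 K)) in Filter.atTop,
      (∏ w ∈ T, (W.baseChange (w.adicCompletion K)).localEulerFactor
        (w.adicCompletionIntegers K)) m = W.LFunction m := h
  refine h'.mono fun T hT => ?_
  rw [← hT, ← ArithmeticFunction.intCoe_apply, H55B.I2_cast_prod]
  rfl

/-- Chunk RI1 (M). Port of H55P.pz7_sq (Z7.lean) with LF' for LEF (H55D.DQ6_ev: the coefficient of the L-function is eventually the one of finite products of local factors: copy for W⁄K; q6_fin, q6_under from H13E.Q6). -/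
theorem lfun_sq {W : WeierstrassCurve ℤ}
    (h : ∀ (v : HeightOneSpectrum (𝓞 K₀)) (T : Finset (HeightOneSpectrum (𝓞 K))),
      (∀ w, w ∈ T ↔ v.asIdeal = w.asIdeal.under (𝓞 K₀)) → ∏ w ∈ T, LF' (W⁄K) w = LF' (W⁄K₀) v * LF' (W⁄K₀) v)
    (n : ℕ) : (((W⁄K).LFunction n : ℤ) : ℂ) =
      ((((W⁄K₀).LFunction : ArithmeticFunction ℤ) : ArithmeticFunction ℂ) *
        (((W⁄K₀).LFunction : ArithmeticFunction ℤ) : ArithmeticFunction ℂ)) n := by
  classical
  obtain ⟨s0, hs0⟩ := Filter.eventually_atTop.1 (ri1_ev (W⁄K) n)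
  have hR : ∀ᶠ t : Finset (HeightOneSpectrum (𝓞 K₀)) in Filter.atTop,
      ∀ m ∈ Finset.range (n + 1),
      (∏ w ∈ t, LF' (W⁄K₀) w) m = (((W⁄K₀).LFunction m : ℤ) : ℂ) := by
    rw [Filter.eventually_all_finset]
    intro m _
    exact ri1_ev (W⁄K₀) m
  obtain ⟨t0, ht0⟩ := Filter.eventually_atTop.1 hR
  set ov : HeightOneSpectrum (𝓞 K₀) → Finset (HeightOneSpectrum (𝓞 K)) :=
    fun v => (H13E.q6_fin K v).toFinset with hov
  have hmo : ∀ v w, w ∈ ov v ↔ v.asIdeal = w.asIdeal.under (𝓞 K₀) := by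
    intro v w
    simp [hov]
  set t : Finset (HeightOneSpectrum (𝓞 K₀)) := t0 ∪ s0.image (H13E.q6_under K₀) with ht
  set T : Finset (HeightOneSpectrum (𝓞 K)) := t.biUnion ov with hTdef
  have hsub : s0 ⊆ T := by
    intro w hw
    rw [hTdef, Finset.mem_biUnion]
    refine ⟨H13E.q6_under K₀ w, Finset.mem_union_right _ (Finset.mem_image_of_mem _ hw), ?_⟩
    rw [hmo]
    rfl
  rw [← hs0 T hsub, hTdef, Finset.prod_biUnion]
  · have h2 : ∀ v ∈ t, ∏ w ∈ ov v, LF' (W⁄K) w = LF' (W⁄K₀) v * LF' (W⁄K₀) v := by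
      intro v _
      exact h v (ov v) (hmo v)
    rw [Finset.prod_congr rfl h2, Finset.prod_mul_distrib]
    have hts : t0 ⊆ t := Finset.subset_union_left
    refine H55B.I2_mul_congr ?_ ?_ n le_rfl
    · intro m hm
      rw [ht0 t hts m (Finset.mem_range.2 (by omega)), ArithmeticFunction.intCoe_apply]
    · intro m hm
      rw [ht0 t hts m (Finset.mem_range.2 (by omega)), ArithmeticFunction.intCoe_apply]
  · intro v _ v' _ hne
    rw [Function.onFun, Finset.disjoint_left]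
    intro w hw hw'
    rw [hmo] at hw hw'
    apply hne
    apply HeightOneSpectrum.ext
    rw [hw, hw']

end H55K.TQ
end

-- from Lib.H55D.Q3
section

open NumberField IsDedekindDomain Polynomial

namespace H55D

open H55B H55C

/-! Chunk Q3 (M): local factors of E27 over any number field, at primes not above 3. COPY of H13E/Q3 with E144 replaced by E27 (y^2 = x^3 - 1 by y^2 + y = x^3; 2 need not be a unit). loc_good0:
H55B.good_local for R = adicCompletionIntegers (3 is a unit of R), residue field of absNorm w elements (residue_card), E27 base changed to the completion is (0,0,1,0,0); two finite fields with the same number of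
elements are isomorphic. count_inert: cubing is a bijection of k when q = 2 mod 3: for every y there is exactly one x with x^3 = y^2 + y (also in characteristic 2). LEF_eq: loc_good0 for both with the same q. LEF_inert: the local
polynomial is 1 + q X^2; I2_cast_ofPS, I2_map_invOfUnit. -/

theorem DQ3_unit (K : Type) [Field K] [NumberField K] (w : HeightOneSpectrum (𝓞 K)) (n : ℕ) [n.AtLeastTwo]
    (h3 : (OfNat.ofNat n : 𝓞 K) ∉ w.asIdeal) : IsUnit (OfNat.ofNat n : w.adicCompletionIntegers K) := by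
  rw [← residue_ker K w, RingHom.mem_ker, RingHom.comp_apply, map_ofNat] at h3
  by_contra hcon
  apply h3
  rw [IsLocalRing.residue_eq_zero_iff, IsLocalRing.mem_maximalIdeal]
  exact hcon

theorem DQ3_count (k k' : Type) [Field k] [Finite k] [Field k'] [Finite k'] (h : Nat.card k = Nat.card k') :
    Nat.card {p : k × k // p.2 ^ 2 + p.2 = p.1 ^ 3} = Nat.card {p : k' × k' // p.2 ^ 2 + p.2 = p.1 ^ 3} := by
  classical
  let _ := Fintype.ofFinite k
  let _ := Fintype.ofFinite k'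
  have e : k ≃+* k' := FiniteField.ringEquivOfCardEq (by
    rw [← Nat.card_eq_fintype_card, ← Nat.card_eq_fintype_card, h])
  refine Nat.card_congr ((Equiv.prodCongr e.toEquiv e.toEquiv).subtypeEquiv ?_)
  rintro ⟨x, y⟩
  show y ^ 2 + y = x ^ 3 ↔ (e y) ^ 2 + e y = (e x) ^ 3
  rw [← map_pow, ← map_pow, ← map_add]
  exact e.injective.eq_iff.symm

theorem loc_good0 (K : Type) [Field K] [NumberField K] (w : HeightOneSpectrum (𝓞 K))
    (h3 : (3 : 𝓞 K) ∉ w.asIdeal) (k : Type) [Field k] [Finite k]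
    (hk : Nat.card k = Ideal.absNorm w.asIdeal) :
    ((E27.baseChange K).baseChange (w.adicCompletion K)).localPolynomial
      (w.adicCompletionIntegers K) =
      1 - C ((Ideal.absNorm w.asIdeal : ℤ) - Nat.card {p : k × k // p.2 ^ 2 + p.2 = p.1 ^ 3}) * X +
        C (Ideal.absNorm w.asIdeal : ℤ) * X ^ 2 := by
  obtain ⟨hfin, hcard⟩ := residue_card K w
  have hcurve : (E27.baseChange K).baseChange (w.adicCompletion K) = ⟨0, 0, 1, 0, 0⟩ := by
    ext <;> simp [E27, WeierstrassCurve.baseChange]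
  rw [hcurve, H55B.good_local (w.adicCompletionIntegers K) (w.adicCompletion K) (DQ3_unit K w 3 h3),
    hcard, DQ3_count (IsLocalRing.ResidueField (w.adicCompletionIntegers K)) k (by rw [hcard, hk])]





end H55D
end

-- from Lib.H55K.G10A
section

/-! # H55K: the Frobenius elements are the values of the Hecke character -/

open NumberField IsDedekindDomain WeierstrassCurve

namespace H55K

open H55P (IQ embF eF LF Per IsHecke Pt ac Inert Dec Nm)
open H35P (WAB Ker tt)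


variable {F : Type} [Field F] [NumberField F] [IQ F] {A B : F} {Om : ℂ} {Ω : Type} [Field Ω] [DecidableEq Ω]
  [Algebra F Ω] {j : Ω →+* ℂ} {act : 𝓞 F →+* AddMonoid.End (Pt (WAB A B) Ω)} {V : ValuationSubring Ω}

theorem g10a_D (F : Type) [Field F] [NumberField F] [IQ F] :
    H55P.bF F 0 * cj (H55P.bF F 1) - H55P.bF F 1 * cj (H55P.bF F 0) ≠ 0 := by
  intro h
  have hi := H55P.LF_indep (F := F)
  rw [LinearIndependent.pair_iff] at hi
  obtain ⟨e0, he0⟩ : ∃ e0, e0 = eF F (H55P.bF F 0) := ⟨_, rfl⟩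
  obtain ⟨e1, he1⟩ : ∃ e1, e1 = eF F (H55P.bF F 1) := ⟨_, rfl⟩
  rw [← he0, ← he1] at hi
  have h1 : e0 * (starRingEnd ℂ) e1 - e1 * (starRingEnd ℂ) e0 = 0 := by
    have := congrArg (eF F) h
    rw [map_sub, map_mul, map_mul, e_cj, e_cj, ← he0, ← he1] at this
    rw [this]
    exact map_zero (eF F)
  have hne : e0 ≠ 0 := by
    rw [he0]
    exact H55P.eF_ne ((H55P.bF F).ne_zero 0)
  have h2 := hi (-(e1 * (starRingEnd ℂ) e0).re) (Complex.normSq e0) (by
    rw [Complex.real_smul, Complex.real_smul]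
    have h3 : (((e1 * (starRingEnd ℂ) e0).re : ℝ) : ℂ) = e1 * (starRingEnd ℂ) e0 := by
      apply Complex.conj_eq_iff_re.1
      rw [map_mul, Complex.conj_conj]
      linear_combination h1
    rw [Complex.ofReal_neg, h3, Complex.normSq_eq_conj_mul_self]
    ring)
  have h3 := h2.2
  rw [map_eq_zero] at h3
  exact hne h3

/-- Chunk G10A (M), arithmetic. There is a finite set S of primes of F such that for v outside S of degree one: if ψ generates v, γ is associated to ψ and Nm (γ - 1) = Nm (1 - ψ) then γ = ψ. b₀, b₁ an integral basis (H55P.bF, bF_repr), D = b₀ cj b₁ - b₁ cj b₀ ≠ 0 (else cj x = x for all x: cj (b₀)/b₀ = cj (b₁)/b₁ =: r, cj x = r x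
for all x, r = 1 for x = 1, against IQ.im, e_cj). S = {v : D in v}. Nm γ = Nm ψ and Nm (γ - 1) = Nm γ - (γ + cj γ) + 1 (mul_cj), so γ + cj γ = ψ + cj ψ and γ cj γ = ψ cj ψ: (γ - ψ)(γ - cj ψ) = 0. If γ = cj ψ: v contains ψ and cj ψ. ψ = m₀ b₀ + m₁ b₁ (integers): D m₀ = ψ cj b₁ - cj ψ b₁ (up to sign) is in v, so m₀ is in v, m₁ too; the
integers in v are the multiples of the prime q = absNorm v, so q divides ψ, Nm ψ = q is divisible by q^2: absurd. -/
theorem gam_eq (F : Type) [Field F] [NumberField F] [IQ F] : ∃ S : Set (HeightOneSpectrum (𝓞 F)), S.Finite ∧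
    ∀ v ∉ S, (Ideal.absNorm v.asIdeal).Prime → ∀ ψ γ : 𝓞 F, Ideal.span {ψ} = v.asIdeal → Associated ψ γ →
      Nm (γ - 1) = Nm (1 - ψ) → γ = ψ := by
  obtain ⟨b0, hb0⟩ : ∃ b0, b0 = H55P.bF F 0 := ⟨_, rfl⟩
  obtain ⟨b1, hb1⟩ : ∃ b1, b1 = H55P.bF F 1 := ⟨_, rfl⟩
  have hD := g10a_D F
  rw [← hb0, ← hb1] at hD
  obtain ⟨D, hDd⟩ : ∃ D, D = b0 * cj b1 - b1 * cj b0 := ⟨_, rfl⟩
  rw [← hDd] at hD
  refine ⟨{v | D ∈ v.asIdeal}, ?_, ?_⟩
  · have h := Ideal.finite_factors (R := 𝓞 F) (I := Ideal.span {D}) (by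
      rw [Ideal.zero_eq_bot, Ne, Ideal.span_singleton_eq_bot]
      exact hD)
    refine h.subset fun v hv => ?_
    exact Ideal.dvd_span_singleton.2 hv
  · intro v hvS hq ψ γ hψ hass hN
    have hvD : D ∉ v.asIdeal := hvS
    obtain ⟨q, hqd⟩ : ∃ q, q = Ideal.absNorm v.asIdeal := ⟨_, rfl⟩
    rw [← hqd] at hq
    have hNN : Nm γ = Nm ψ := by
      unfold H55P.Nm
      rw [Ideal.span_singleton_eq_span_singleton.2 hass.symm]
    have h1 := mul_cj (γ - 1)
    have h2 := mul_cj (1 - ψ)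
    have h3 := mul_cj γ
    have h4 := mul_cj ψ
    rw [hN] at h1
    rw [hNN] at h3
    rw [map_sub, map_one] at h1 h2
    have htr : γ + cj γ = ψ + cj ψ := by linear_combination h2 - h1 + h3 - h4
    have hprod : (γ - ψ) * (γ - cj ψ) = 0 := by linear_combination γ * htr + (h4 - h3)
    rcases mul_eq_zero.1 hprod with h | h
    · exact sub_eq_zero.1 h
    · exfalso
      have hγ : γ = cj ψ := sub_eq_zero.1 h
      have hψv : ψ ∈ v.asIdeal := by
        rw [← hψ]
        exact Ideal.mem_span_singleton_self ψ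
      have hcv : cj ψ ∈ v.asIdeal := by
        rw [← hψ, ← hγ, Ideal.span_singleton_eq_span_singleton.2 hass]
        exact Ideal.mem_span_singleton_self γ
      obtain ⟨m0, hm0⟩ : ∃ m0, m0 = (H55P.bF F).repr ψ 0 := ⟨_, rfl⟩
      obtain ⟨m1, hm1⟩ : ∃ m1, m1 = (H55P.bF F).repr ψ 1 := ⟨_, rfl⟩
      have e1 : ψ = (m0 : 𝓞 F) * b0 + (m1 : 𝓞 F) * b1 := by
        rw [hm0, hm1, hb0, hb1]
        exact H55P.bF_repr ψ
      have e2 : cj ψ = (m0 : 𝓞 F) * cj b0 + (m1 : 𝓞 F) * cj b1 := by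
        conv_lhs => rw [e1]
        rw [map_add, map_mul, map_mul, cj_int, cj_int]
      have hpr : v.asIdeal.IsPrime := v.isPrime
      have hm : ∀ m : ℤ, (D * (m : 𝓞 F)) ∈ v.asIdeal → (q : ℤ) ∣ m := by
        intro m hDm
        have hmv : (m : 𝓞 F) ∈ v.asIdeal := (hpr.mem_or_mem hDm).resolve_left hvD
        by_contra hndvd
        have hcop : IsCoprime (q : ℤ) m := (Nat.prime_iff_prime_int.1 hq).coprime_iff_not_dvd.2 hndvd
        obtain ⟨a, b, hab⟩ := hcop
        apply hpr.ne_top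
        rw [Ideal.eq_top_iff_one]
        have hqv : ((q : ℕ) : 𝓞 F) ∈ v.asIdeal := by
          rw [hqd]
          exact Ideal.absNorm_mem v.asIdeal
        have h5 : (1 : 𝓞 F) = (a : 𝓞 F) * ((q : ℕ) : 𝓞 F) + (b : 𝓞 F) * (m : 𝓞 F) := by
          have := congrArg (fun z : ℤ => (z : 𝓞 F)) hab
          push_cast at this
          exact this.symm
        rw [h5]
        exact Ideal.add_mem _ (Ideal.mul_mem_left _ _ hqv) (Ideal.mul_mem_left _ _ hmv)
      obtain ⟨n0, hn0⟩ := hm m0 (by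
        have : D * (m0 : 𝓞 F) = cj b1 * ψ - b1 * cj ψ := by
          rw [hDd, e2]
          conv_rhs => rw [e1]
          ring
        rw [this]
        exact Ideal.sub_mem _ (Ideal.mul_mem_left _ _ hψv) (Ideal.mul_mem_left _ _ hcv))
      obtain ⟨n1, hn1⟩ := hm m1 (by
        have : D * (m1 : 𝓞 F) = b0 * cj ψ - cj b0 * ψ := by
          rw [hDd, e2]
          conv_rhs => rw [e1]
          ring
        rw [this]
        exact Ideal.sub_mem _ (Ideal.mul_mem_left _ _ hcv) (Ideal.mul_mem_left _ _ hψv))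
      have hqψ : ((q : ℕ) : 𝓞 F) ∣ ψ := by
        refine ⟨(n0 : 𝓞 F) * b0 + (n1 : 𝓞 F) * b1, ?_⟩
        rw [e1, hn0, hn1]
        push_cast
        ring
      have hvq : v.asIdeal = Ideal.span {((q : ℕ) : 𝓞 F)} := by
        apply le_antisymm
        · rw [← hψ, Ideal.span_singleton_le_span_singleton]
          exact hqψ
        · rw [Ideal.span_singleton_le_iff_mem, hqd]
          exact Ideal.absNorm_mem v.asIdeal
      have hNq : Nm ((q : ℕ) : 𝓞 F) = q * q := by
        have := mul_cj ((q : ℕ) : 𝓞 F)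
        rw [cj_nat, ← Nat.cast_mul] at this
        exact (Nat.cast_injective this).symm
      have hqq : q = q * q := by
        conv_lhs => rw [hqd, hvq]
        exact hNq
      have := hq.one_lt
      nlinarith

end H55K
end

-- from Lib.H55K.G8A
section

/-! # H55K: Frobenius elements: the generator -/

open NumberField IsDedekindDomain WeierstrassCurve

namespace H55K

open H55P (IQ embF eF LF Per IsHecke Pt ac Inert Dec Nm)
open H35P (WAB Ker tt)


variable {F : Type} [Field F] [NumberField F] [IQ F] {A B : F} {Om : ℂ} {Ω : Type} [Field Ω] [DecidableEq Ω]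
  [Algebra F Ω] {j : Ω →+* ℂ} {act : 𝓞 F →+* AddMonoid.End (Pt (WAB A B) Ω)} {V : ValuationSubring Ω}

omit [NumberField F] [IQ F] [DecidableEq Ω] in
/-- Chunk G8A (S/M). κ is congruent to the square of a unit of 𝓞 F. A ≠ 0 and B ≠ 0: V(κ^2 - 1) < 1, V(κ^3 - 1) < 1, so V(κ - 1) < 1 (κ^3 - 1 - κ (κ^2 - 1) = κ - 1): u = 1. A = 0 (then V(B) = 1): V(κ^3 - 1) < 1, κ^3 - 1 = (κ - 1)(κ - w)(κ - w^2), w from hA0: κ is congruent to 1, w = (w^2)^2 or w^2.
B = 0: V(κ^2 - 1) < 1: κ is congruent to 1 or -1 = i^2. -/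
theorem unit_sq {F : Type} [Field F] [NumberField F] {A B : F} {Ω : Type} [Field Ω] [Algebra F Ω]
    (V : ValuationSubring Ω) (hA : A = 0 ∨ V.valuation (algebraMap F Ω A) = 1)
    (hB : B = 0 ∨ V.valuation (algebraMap F Ω B) = 1) (hAB : ¬ (A = 0 ∧ B = 0))
    (hA0 : A = 0 → ∃ w : 𝓞 F, w ^ 2 + w + 1 = 0) (hB0 : B = 0 → ∃ w : 𝓞 F, w ^ 2 + 1 = 0) (κ : Ω)
    (hκ : V.valuation κ = 1) (h2 : V.valuation (κ ^ 2 * algebraMap F Ω A - algebraMap F Ω A) < 1)
    (h3 : V.valuation (κ ^ 3 * algebraMap F Ω B - algebraMap F Ω B) < 1) :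
    ∃ u : (𝓞 F)ˣ, V.valuation (κ - ak Ω (u : 𝓞 F) ^ 2) < 1 := by
  have hk2 : B = 0 ∨ A ≠ 0 → A = 0 ∨ V.valuation (κ ^ 2 - 1) < 1 := by
    intro _
    rcases hA with h | h
    · exact Or.inl h
    · right
      have e : κ ^ 2 * algebraMap F Ω A - algebraMap F Ω A = (κ ^ 2 - 1) * algebraMap F Ω A := by ring
      rw [e, map_mul, h, mul_one] at h2
      exact h2
  have hk3 : B = 0 ∨ V.valuation (κ ^ 3 - 1) < 1 := by
    rcases hB with h | h
    · exact Or.inl h
    · right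
      have e : κ ^ 3 * algebraMap F Ω B - algebraMap F Ω B = (κ ^ 3 - 1) * algebraMap F Ω B := by ring
      rw [e, map_mul, h, mul_one] at h3
      exact h3
  have hak1 : ak Ω (((1 : (𝓞 F)ˣ) : 𝓞 F)) = 1 := by
    show algebraMap F Ω (((1 : (𝓞 F)ˣ) : 𝓞 F) : F) = 1
    rw [Units.val_one]
    simp
  have hone : V.valuation (κ - 1) < 1 → ∃ u : (𝓞 F)ˣ, V.valuation (κ - ak Ω (u : 𝓞 F) ^ 2) < 1 := by
    intro h
    refine ⟨1, ?_⟩
    rw [hak1, one_pow]
    exact h
  have hmulp : ∀ a b : Ω, V.valuation (a * b) < 1 → V.valuation a < 1 ∨ V.valuation b < 1 := by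
    intro a b hab
    by_contra hcon
    push Not at hcon
    rw [map_mul] at hab
    exact absurd hab (not_lt.2 (one_le_mul hcon.1 hcon.2))
  by_cases hA1 : A = 0
  · have hB1 : B ≠ 0 := fun h => hAB ⟨hA1, h⟩
    have hk := hk3.resolve_left hB1
    obtain ⟨w, hw⟩ := hA0 hA1
    have hw3 : w * w ^ 2 = 1 := by linear_combination (w - 1) * hw
    have hw3' : w ^ 2 * w = 1 := by rw [mul_comm]; exact hw3
    have hwΩ : (ak Ω w) ^ 2 + ak Ω w + 1 = 0 := by
      have h5 := congrArg (fun z : 𝓞 F => algebraMap F Ω (z : F)) hw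
      simpa [ak] using h5
    have hf : κ ^ 3 - 1 = (κ - 1) * ((κ - ak Ω w) * (κ - (ak Ω w) ^ 2)) := by
      linear_combination (κ - 1) * (κ + 1 - ak Ω w) * hwΩ
    rw [hf] at hk
    rcases hmulp _ _ hk with h | h
    · exact hone h
    · rcases hmulp _ _ h with h | h
      · refine ⟨⟨w ^ 2, w, hw3', hw3⟩, ?_⟩
        have e : ak Ω (((⟨w ^ 2, w, hw3', hw3⟩ : (𝓞 F)ˣ)) : 𝓞 F) = (ak Ω w) ^ 2 := by
          simp [ak]
        rw [e]
        have e2 : κ - ((ak Ω w) ^ 2) ^ 2 = κ - ak Ω w := by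
          linear_combination (-(ak Ω w) ^ 2 + ak Ω w) * hwΩ
        rw [e2]
        exact h
      · refine ⟨⟨w, w ^ 2, hw3, hw3'⟩, ?_⟩
        exact h
  · have hk2' := (hk2 (Or.inr hA1)).resolve_left hA1
    by_cases hB1 : B = 0
    · obtain ⟨i, hi⟩ := hB0 hB1
      have hi1 : i * (-i) = 1 := by linear_combination -hi
      have hi2 : (-i) * i = 1 := by linear_combination -hi
      have e : κ ^ 2 - 1 = (κ - 1) * (κ + 1) := by ring
      rw [e] at hk2'
      rcases hmulp _ _ hk2' with h | h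
      · exact hone h
      · refine ⟨⟨i, -i, hi1, hi2⟩, ?_⟩
        have hiΩ : (ak Ω i) ^ 2 + 1 = 0 := by
          have h5 := congrArg (fun z : 𝓞 F => algebraMap F Ω (z : F)) hi
          simpa [ak] using h5
        have e2 : κ - (ak Ω (((⟨i, -i, hi1, hi2⟩ : (𝓞 F)ˣ)) : 𝓞 F)) ^ 2 = κ + 1 := by
          show κ - (ak Ω i) ^ 2 = κ + 1
          linear_combination -hiΩ
        rw [e2]
        exact h
    · have hk3' := hk3.resolve_left hB1
      apply hone
      have e : κ - 1 = (κ ^ 3 - 1) - κ * (κ ^ 2 - 1) := by ring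
      rw [e]
      refine V.valuation.map_sub_lt hk3' ?_
      rw [map_mul, hκ, one_mul]
      exact hk2'

end H55K
end

-- from Lib.H55K.QE2A
section

/-! # H55K: the parameter x/y is additive modulo squares -/

open NumberField IsDedekindDomain WeierstrassCurve

namespace H55K.TQ

open H55P (IQ embF eF LF Per IsHecke Pt ac Inert Dec Nm UnitP)
open H35P (WAB Ker tt GoodW IntW)
open H55K.MG (VC Crd)

variable {k : Type} [Field k] [DecidableEq k] {W : WeierstrassCurve k} {V : ValuationSubring k}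

theorem qe2a_mon {Γ : Type*} [LinearOrderedCommGroupWithZero Γ] {a b c u w : Γ} (ha : a ≤ c) (hb : b ≤ c)
    (hu : u ≤ 1) (hw : w ≤ 1) : u * (a * b) * w ≤ c ^ 2 := by
  calc u * (a * b) * w ≤ 1 * (c * c) * 1 := mul_le_mul' (mul_le_mul' hu (mul_le_mul' ha hb)) hw
    _ = c ^ 2 := by rw [one_mul, mul_one, sq]

theorem qe2a_ord {Γ : Type*} [LinearOrderedCommGroupWithZero Γ] {a b d c L M n : Γ} (ha : a ≤ c) (hb : b ≤ c)
    (hd : d ≤ c) (hc : c ≤ 1) (hM : M * (a * b * d) = 1) (hL : L * a ≤ 1 ∨ L * b ≤ 1 ∨ L * d ≤ 1)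
    (hn : n ≤ max (max (L ^ 2 * M) (L * M ^ 2)) (M ^ 2)) : n * (a * b * d) ^ 3 ≤ c ^ 2 := by
  have ha1 : a ≤ 1 := ha.trans hc
  have hb1 : b ≤ 1 := hb.trans hc
  have hd1 : d ≤ 1 := hd.trans hc
  have p : ∀ {x : Γ} (m : ℕ), x ≤ 1 → x ^ m ≤ 1 := fun m hx => pow_le_one₀ zero_le hx
  rcases le_max_iff.1 hn with h | h
  · rcases le_max_iff.1 h with h | h
    · refine (mul_le_mul_left h _).trans ?_
      have e : L ^ 2 * M * (a * b * d) ^ 3 = L ^ 2 * (a * b * d) ^ 2 := by
        calc L ^ 2 * M * (a * b * d) ^ 3 = L ^ 2 * (a * b * d) ^ 2 * (M * (a * b * d)) := by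
              simp only [pow_succ, pow_zero, one_mul]; ac_rfl
          _ = L ^ 2 * (a * b * d) ^ 2 := by rw [hM, mul_one]
      rw [e]
      rcases hL with h1 | h1 | h1
      · calc L ^ 2 * (a * b * d) ^ 2 = (L * a) ^ 2 * (b * d) * (b * d) := by
              simp only [pow_succ, pow_zero, one_mul]; ac_rfl
          _ ≤ c ^ 2 := qe2a_mon hb hd (p 2 h1) (mul_le_one' hb1 hd1)
      · calc L ^ 2 * (a * b * d) ^ 2 = (L * b) ^ 2 * (a * d) * (a * d) := by
              simp only [pow_succ, pow_zero, one_mul]; ac_rfl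
          _ ≤ c ^ 2 := qe2a_mon ha hd (p 2 h1) (mul_le_one' ha1 hd1)
      · calc L ^ 2 * (a * b * d) ^ 2 = (L * d) ^ 2 * (a * b) * (a * b) := by
              simp only [pow_succ, pow_zero, one_mul]; ac_rfl
          _ ≤ c ^ 2 := qe2a_mon ha hb (p 2 h1) (mul_le_one' ha1 hb1)
    · refine (mul_le_mul_left h _).trans ?_
      have e : L * M ^ 2 * (a * b * d) ^ 3 = L * (a * b * d) := by
        calc L * M ^ 2 * (a * b * d) ^ 3 = L * (a * b * d) * (M * (a * b * d)) ^ 2 := by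
              simp only [pow_succ, pow_zero, one_mul]; ac_rfl
          _ = L * (a * b * d) := by rw [hM, one_pow, mul_one]
      rw [e]
      rcases hL with h1 | h1 | h1
      · calc L * (a * b * d) = (L * a) * (b * d) * 1 := by
              rw [mul_one]; ac_rfl
          _ ≤ c ^ 2 := qe2a_mon hb hd h1 le_rfl
      · calc L * (a * b * d) = (L * b) * (a * d) * 1 := by
              rw [mul_one]; ac_rfl
          _ ≤ c ^ 2 := qe2a_mon ha hd h1 le_rfl
      · calc L * (a * b * d) = (L * d) * (a * b) * 1 := by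
              rw [mul_one]; ac_rfl
          _ ≤ c ^ 2 := qe2a_mon ha hb h1 le_rfl
  · refine (mul_le_mul_left h _).trans ?_
    have e : M ^ 2 * (a * b * d) ^ 3 = a * b * d := by
      calc M ^ 2 * (a * b * d) ^ 3 = (a * b * d) * (M * (a * b * d)) ^ 2 := by
            simp only [pow_succ, pow_zero, one_mul]; ac_rfl
        _ = a * b * d := by rw [hM, one_pow, mul_one]
    rw [e]
    calc a * b * d = 1 * (a * b) * d := by rw [one_mul]
      _ ≤ c ^ 2 := qe2a_mon ha hb le_rfl hd1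

/-- The size of a root of z^2 + a z = s. -/
theorem qe2a_root {k : Type*} [Field k] {Γ : Type*} [LinearOrderedCommGroupWithZero Γ] (v : Valuation k Γ)
    {z a b s : k} (h : z ^ 2 + a * z = s + b) (ha : v a ≤ 1) (hb : v b ≤ 1) (hs : 1 < v s) :
    1 < v z ∧ v z ^ 2 = v s := by
  have hsb : v (s + b) = v s := Valuation.map_add_eq_of_lt_left v (hb.trans_lt hs)
  have hz : 1 < v z := by
    by_contra hcon
    have hz1 := not_lt.1 hcon
    have h1 : v (z ^ 2 + a * z) ≤ 1 := by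
      refine (v.map_add _ _).trans (max_le ?_ ?_)
      · rw [map_pow]
        exact pow_le_one₀ zero_le hz1
      · rw [map_mul]
        exact mul_le_one' ha hz1
    rw [h, hsb] at h1
    exact absurd hs (not_lt.2 h1)
  refine ⟨hz, ?_⟩
  have h2 : v (a * z) < v (z ^ 2) := by
    rw [map_mul, map_pow, sq]
    calc v a * v z ≤ 1 * v z := mul_le_mul_left ha _
      _ = v z := one_mul _
      _ < v z * v z := by
        calc v z = 1 * v z := (one_mul _).symm
          _ < v z * v z := mul_lt_mul_of_pos_right hz (zero_lt_one.trans hz)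
  rw [← map_pow, ← hsb, ← h, Valuation.map_add_eq_of_lt_left v h2]

theorem qe2a_val {k : Type*} [Field k] {Γ : Type*} [LinearOrderedCommGroupWithZero Γ] (v : Valuation k Γ)
    {x₁ x₂ x₃ y₁ y₂ y₃ l m a₁ a₂ a₃ a₄ a₆ : k} {c : Γ} (h1 : 1 < v x₁) (h2 : 1 < v x₂) (h3 : 1 < v x₃)
    (s1 : x₁ + x₂ + x₃ = l ^ 2 + a₁ * l - a₂) (s3 : x₁ * x₂ * x₃ = m ^ 2 + a₃ * m - a₆)
    (g1 : v a₁ ≤ 1) (g2 : v a₂ ≤ 1) (g3 : v a₃ ≤ 1) (g4 : v a₄ ≤ 1) (g6 : v a₆ ≤ 1)
    (v1 : v y₁ ^ 2 = v x₁ ^ 3) (v2 : v y₂ ^ 2 = v x₂ ^ 3) (v3 : v y₃ ^ 2 = v x₃ ^ 3)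
    (i3 : v (3 : k) ≤ 1) (i2 : v (2 : k) ≤ 1)
    (hN : x₁ * y₂ * y₃ + x₂ * y₁ * y₃ + x₃ * y₁ * y₂ =
      a₃ * l ^ 2 * m - 3 * a₆ * l ^ 2 + 2 * a₄ * l * m - a₁ * l * m ^ 2 - a₂ * m ^ 2)
    (c1 : v (x₁ / y₁) ≤ c) (c2 : v (x₂ / y₂) ≤ c) (c3 : v (x₃ / y₃) ≤ c) (hc : c ≤ 1) :
    v (x₁ / y₁ + x₂ / y₂ + x₃ / y₃) ≤ c ^ 2 := by
  have key : ∀ x y : k, 1 < v x → v y ^ 2 = v x ^ 3 →
      v (x / y) ^ 2 * v x = 1 ∧ v (x / y) ^ 3 * v y = 1 ∧ y ≠ 0 := by
    intro x y hx hxy
    have hx0 : v x ≠ 0 := (zero_lt_one.trans hx).ne'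
    have hy0 : v y ≠ 0 := by
      intro h
      rw [h, zero_pow two_ne_zero] at hxy
      exact pow_ne_zero 3 hx0 hxy.symm
    refine ⟨?_, ?_, fun h => hy0 (by rw [h, map_zero])⟩
    · rw [map_div₀, div_pow, hxy, ← mul_div_right_comm, ← pow_succ, div_self (pow_ne_zero _ hx0)]
    · rw [map_div₀, div_pow, ← hxy, ← mul_div_right_comm, ← pow_succ, div_self (pow_ne_zero _ hy0)]
  obtain ⟨e1, f1, n1⟩ := key _ _ h1 v1
  obtain ⟨e2, f2, n2⟩ := key _ _ h2 v2
  obtain ⟨e3, f3, n3⟩ := key _ _ h3 v3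
  have h123 : 1 < v (x₁ * x₂ * x₃) := by
    rw [map_mul, map_mul]
    exact one_lt_mul'' (one_lt_mul'' h1 h2) h3
  obtain ⟨hm1, hm2⟩ := qe2a_root v (z := m) (a := a₃) (b := a₆) (s := x₁ * x₂ * x₃) (by rw [s3]; ring) g3 g6 h123
  have hb : v m ^ 2 = v x₁ * v x₂ * v x₃ := by rw [hm2, map_mul, map_mul]
  have hM : v m * (v (x₁ / y₁) * v (x₂ / y₂) * v (x₃ / y₃)) = 1 := by
    have h : (v m * (v (x₁ / y₁) * v (x₂ / y₂) * v (x₃ / y₃))) ^ 2 = 1 := by
      calc (v m * (v (x₁ / y₁) * v (x₂ / y₂) * v (x₃ / y₃))) ^ 2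
          = v m ^ 2 * (v (x₁ / y₁) ^ 2 * v (x₂ / y₂) ^ 2 * v (x₃ / y₃) ^ 2) := by
            simp only [mul_pow]
        _ = (v (x₁ / y₁) ^ 2 * v x₁) * (v (x₂ / y₂) ^ 2 * v x₂) * (v (x₃ / y₃) ^ 2 * v x₃) := by
            rw [hb]; ac_rfl
        _ = 1 := by rw [e1, e2, e3, one_mul, one_mul]
    exact (pow_eq_one_iff_of_nonneg zero_le two_ne_zero).1 h
  have le1 : ∀ x y : k, v l ^ 2 ≤ v x → v (x / y) ^ 2 * v x = 1 → v l * v (x / y) ≤ 1 := by
    intro x y hl he
    refine (pow_le_one_iff_of_nonneg zero_le two_ne_zero).1 ?_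
    calc (v l * v (x / y)) ^ 2 = v (x / y) ^ 2 * v l ^ 2 := by rw [mul_pow, mul_comm]
      _ ≤ v (x / y) ^ 2 * v x := mul_le_mul_right hl _
      _ = 1 := he
  have hL : v l * v (x₁ / y₁) ≤ 1 ∨ v l * v (x₂ / y₂) ≤ 1 ∨ v l * v (x₃ / y₃) ≤ 1 := by
    have h : v l ^ 2 ≤ max (max (v x₁) (v x₂)) (v x₃) := by
      have hle : v (x₁ + x₂ + x₃) ≤ max (max (v x₁) (v x₂)) (v x₃) :=
        (v.map_add _ _).trans (max_le_max (v.map_add _ _) le_rfl)
      by_cases hs : 1 < v (x₁ + x₂ + x₃)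
      · rw [(qe2a_root v (z := l) (a := a₁) (b := a₂) (s := x₁ + x₂ + x₃) (by rw [s1]; ring) g1 g2 hs).2]
        exact hle
      · have hmx : 1 ≤ max (max (v x₁) (v x₂)) (v x₃) := h3.le.trans (le_max_right _ _)
        refine le_trans ?_ hmx
        have hl1 : v l ≤ 1 := by
          by_contra hcon
          have hl := not_le.1 hcon
          have e : l ^ 2 + a₁ * l = (x₁ + x₂ + x₃) + a₂ := by rw [s1]; ring
          have hlt : v (a₁ * l) < v (l ^ 2) := by
            rw [map_mul, map_pow, sq]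
            calc v a₁ * v l ≤ 1 * v l := mul_le_mul_left g1 _
              _ < v l * v l := mul_lt_mul_of_pos_right hl (zero_lt_one.trans hl)
          have h5 : v (l ^ 2 + a₁ * l) = v (l ^ 2) := Valuation.map_add_eq_of_lt_left v hlt
          have h6 : v (l ^ 2) ≤ 1 := by
            rw [← h5, e]
            exact (v.map_add _ _).trans (max_le (not_lt.1 hs) g2)
          rw [map_pow] at h6
          exact absurd (one_lt_pow₀ hl two_ne_zero) (not_lt.2 h6)
        exact pow_le_one₀ zero_le hl1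
    rcases le_max_iff.1 h with h | h
    · rcases le_max_iff.1 h with h | h
      · exact Or.inl (le1 _ _ h e1)
      · exact Or.inr (Or.inl (le1 _ _ h e2))
    · exact Or.inr (Or.inr (le1 _ _ h e3))
  have hn : v (a₃ * l ^ 2 * m - 3 * a₆ * l ^ 2 + 2 * a₄ * l * m - a₁ * l * m ^ 2 - a₂ * m ^ 2) ≤
      max (max (v l ^ 2 * v m) (v l * v m ^ 2)) (v m ^ 2) := by
    have t1 : v (a₃ * l ^ 2 * m) ≤ v l ^ 2 * v m := by
      rw [map_mul, map_mul, map_pow, mul_assoc]
      exact mul_le_of_le_one_left' g3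
    have t2 : v (3 * a₆ * l ^ 2) ≤ v l ^ 2 * v m := by
      rw [map_mul, map_mul, map_pow]
      exact (mul_le_of_le_one_left' (mul_le_one' i3 g6)).trans (le_mul_of_one_le_right' hm1.le)
    have t3 : v (2 * a₄ * l * m) ≤ v l * v m ^ 2 := by
      rw [map_mul, map_mul, map_mul, mul_assoc]
      refine (mul_le_of_le_one_left' (mul_le_one' i2 g4)).trans (mul_le_mul_right ?_ _)
      rw [sq]
      exact le_mul_of_one_le_right' hm1.le
    have t4 : v (a₁ * l * m ^ 2) ≤ v l * v m ^ 2 := by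
      rw [map_mul, map_mul, map_pow, mul_assoc]
      exact mul_le_of_le_one_left' g1
    have t5 : v (a₂ * m ^ 2) ≤ v m ^ 2 := by
      rw [map_mul, map_pow]
      exact mul_le_of_le_one_left' g2
    have m1 : v l ^ 2 * v m ≤ max (max (v l ^ 2 * v m) (v l * v m ^ 2)) (v m ^ 2) :=
      (le_max_left _ _).trans (le_max_left _ _)
    have m2 : v l * v m ^ 2 ≤ max (max (v l ^ 2 * v m) (v l * v m ^ 2)) (v m ^ 2) :=
      (le_max_right _ _).trans (le_max_left _ _)
    refine Valuation.map_sub_le _ (Valuation.map_sub_le _ (Valuation.map_add_le _ (Valuation.map_sub_le _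
      (t1.trans m1) (t2.trans m1)) (t3.trans m2)) (t4.trans m2)) (t5.trans (le_max_right _ _))
  have hT : x₁ / y₁ + x₂ / y₂ + x₃ / y₃ =
      (a₃ * l ^ 2 * m - 3 * a₆ * l ^ 2 + 2 * a₄ * l * m - a₁ * l * m ^ 2 - a₂ * m ^ 2) / (y₁ * y₂ * y₃) := by
    rw [← hN]
    field_simp
  have hv : v (x₁ / y₁ + x₂ / y₂ + x₃ / y₃) =
      v (a₃ * l ^ 2 * m - 3 * a₆ * l ^ 2 + 2 * a₄ * l * m - a₁ * l * m ^ 2 - a₂ * m ^ 2) *
        (v (x₁ / y₁) * v (x₂ / y₂) * v (x₃ / y₃)) ^ 3 := by
    rw [hT, map_div₀, div_eq_mul_inv]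
    congr 1
    refine inv_eq_of_mul_eq_one_right ?_
    rw [map_mul, map_mul]
    calc v y₁ * v y₂ * v y₃ * (v (x₁ / y₁) * v (x₂ / y₂) * v (x₃ / y₃)) ^ 3 =
        (v (x₁ / y₁) ^ 3 * v y₁) * (v (x₂ / y₂) ^ 3 * v y₂) * (v (x₃ / y₃) ^ 3 * v y₃) := by
          rw [mul_pow, mul_pow]; ac_rfl
      _ = 1 := by rw [f1, f2, f3, one_mul, one_mul]
  rw [hv]
  exact qe2a_ord c1 c2 c3 hc hM hL hn

/-- Chunk QE2A (M/L), port of H55K.g2_gen, g2_val, g2_ord (G2.lean; there a₁ = a₂ = a₃ = 0) to a general integral equation. P = 0, Q = 0, P + Q = 0 (H35P.tt_neg: V(tt (-P) + tt P) ≤ V(tt P)^2) are clear; let c be ≤ 1 and V(tt P), V(tt Q) ≤ c. Let (x₁, y₁), (x₂, y₂), (x₃, y₃ = l x₃ + m) be the three points on the line (H35P.vieta in R2.lean; P + Q = -(x₃, y₃)),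
T_i = x_i/y_i, a = V(T₁), b = V(T₂), d = V(T₃), all < 1, V(x_i) = V(T_i)^-2, V(y_i) = V(T_i)^-3 (H35P.tt_sq, val_y), a, b ≤ c. First d ≤ c if c < 1: H35P.tt_add for the points P, Q (V(tt (P + Q) - tt P - tt Q) < c) and tt_neg; or without: see the end. s3: x₁ x₂ x₃ = m^2 + a₃ m - a₆ has value > 1, so V(m)^2 = (a b d)^-2, V(m) a b d = 1.
s1: x₁ + x₂ + x₃ = l^2 + a₁ l - a₂: if V(l) > 1 then V(l)^2 ≤ max of the V(x_i), so V(l) e ≤ 1 with e = min a b d. The last relation of vieta divided by y₁ y₂ y₃: T₁ + T₂ + T₃ = (a₃ l^2 m - 3 a₆ l^2 + 2 a₄ l m - a₁ l m^2 - a₂ m^2)/(y₁ y₂ y₃); values of the five terms: V(l)^2 V(m) (abd)^3 = V(l)^2 (abd)^2, V(l)^2 (abd)^3, V(l) (abd)^2, V(l) (abd), (abd).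
With V(l) ≤ 1/e and e one of a, b, d the worst is (abd)/e = product of the two others ≤ c^2 (using d ≤ c), and abd ≤ c^2. So V(T₁ + T₂ + T₃) ≤ c^2; tt(P + Q) = -T₃ up to d^2 ≤ c^2 (tt_neg). The case c = 1: all values are < 1 (tt_lt), the claim is V(..) ≤ 1: clear. -/
theorem tt_add2g (hI : IntW W V) (P Q : W.toAffine.Point) (hP : Ker V P) (hQ : Ker V Q) (c : V.ValueGroup)
    (h1 : c ≤ 1) (hPc : V.valuation (tt P) ≤ c) (hQc : V.valuation (tt Q) ≤ c) :
    V.valuation (tt (P + Q) - tt P - tt Q) ≤ c ^ 2 := by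
  rcases P with _ | ⟨x₁, y₁, h₁⟩
  · have e : tt (W := W) (Affine.Point.zero + Q) - tt (W := W) Affine.Point.zero - tt Q = 0 := by
      change tt (0 + Q) - 0 - tt Q = 0
      rw [zero_add, sub_zero, sub_self]
    rw [e, map_zero]
    exact zero_le
  rcases Q with _ | ⟨x₂, y₂, h₂⟩
  · have e : tt (W := W) (Affine.Point.some x₁ y₁ h₁ + Affine.Point.zero) -
        tt (W := W) (Affine.Point.some x₁ y₁ h₁) - tt (W := W) Affine.Point.zero = 0 := by
      change tt (Affine.Point.some x₁ y₁ h₁ + 0) - tt (W := W) (Affine.Point.some x₁ y₁ h₁) - 0 = 0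
      rw [add_zero, sub_zero, sub_self]
    rw [e, map_zero]
    exact zero_le
  by_cases hxy : x₁ = x₂ ∧ y₁ = W.toAffine.negY x₂ y₂
  · have e0 : (Affine.Point.some x₁ y₁ h₁ : W.toAffine.Point) + Affine.Point.some x₂ y₂ h₂ = 0 :=
      Affine.Point.add_of_Y_eq hxy.1 hxy.2
    have e1 : (Affine.Point.some x₁ y₁ h₁ : W.toAffine.Point) = -Affine.Point.some x₂ y₂ h₂ :=
      eq_neg_of_add_eq_zero_left e0
    have e2 := H35P.tt_neg hI _ hQ
    have e3 : tt (0 : W.toAffine.Point) = 0 := rfl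
    rw [e0, e1, e3, zero_sub, sub_eq_add_neg, ← neg_add, Valuation.map_neg]
    exact e2.trans (pow_le_pow_left' hQc 2)
  · obtain ⟨s1, s2, s3, p1, p2, p3, hN⟩ := H35P.vieta h₁.1 h₂.1 hxy _ _ _ rfl rfl rfl
    set l : k := W.toAffine.slope x₁ x₂ y₁ y₂ with hl
    set x₃ : k := W.toAffine.addX x₁ x₂ l with hx₃
    set m : k := y₁ - l * x₁ with hm
    set y₃ : k := W.toAffine.negAddY x₁ x₂ y₁ l with hy₃
    have h₃ : W.toAffine.Nonsingular x₃ y₃ := Affine.nonsingular_negAdd h₁ h₂ hxy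
    have hd : 1 < V.valuation x₃ := H35P.third_big hI.a1 hI.a2 hI.a3 hI.a4 hI.a6 s1 s2 s3 hP hQ
    have v1 := (H35P.val_y hI h₁.1 hP).1
    have v2 := (H35P.val_y hI h₂.1 hQ).1
    have v3 := (H35P.val_y hI h₃.1 hd).1
    have hR : Ker V (Affine.Point.some x₃ y₃ h₃ : W.toAffine.Point) := hd
    have hsum : (Affine.Point.some x₁ y₁ h₁ : W.toAffine.Point) + Affine.Point.some x₂ y₂ h₂ =
        -Affine.Point.some x₃ y₃ h₃ := by
      rw [Affine.Point.add_some hxy, Affine.Point.neg_some]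
      rfl
    have hPc' : V.valuation (x₁ / y₁) ≤ c := hPc
    have hQc' : V.valuation (x₂ / y₂) ≤ c := hQc
    have key : V.valuation (x₁ / y₁ + x₂ / y₂ + x₃ / y₃) < c := by
      have v1' := v1
      have v2' := v2
      have v3' := v3
      have hPc'' := hPc'
      have hQc'' := hQc'
      rw [p1] at v1' hPc''
      rw [p2] at v2' hQc''
      rw [p3] at v3'
      rw [p1, p2, p3]
      exact H35P.third_tt hI.a1 hI.a2 hI.a3 hI.a4 hI.a6 s1 s2 s3 hN hP hQ v1' v2' v3' c hPc'' hQc''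
    have hRc : V.valuation (x₃ / y₃) ≤ c := by
      have e : x₃ / y₃ = (x₁ / y₁ + x₂ / y₂ + x₃ / y₃) - x₁ / y₁ - x₂ / y₂ := by ring
      rw [e]
      exact Valuation.map_sub_le _ (Valuation.map_sub_le _ key.le hPc') hQc'
    have hRc' : V.valuation (tt (W := W) (Affine.Point.some x₃ y₃ h₃)) ≤ c := hRc
    have hneg := H35P.tt_neg hI _ hR
    have hmain : V.valuation (x₁ / y₁ + x₂ / y₂ + x₃ / y₃) ≤ c ^ 2 := by
      have hN' := hN
      rw [← p1, ← p2, ← p3] at hN'
      refine qe2a_val V.valuation hP hQ hd s1 s3 ((V.valuation_le_one_iff _).2 hI.a1) ((V.valuation_le_one_iff _).2 hI.a2)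
        ((V.valuation_le_one_iff _).2 hI.a3) ((V.valuation_le_one_iff _).2 hI.a4) ((V.valuation_le_one_iff _).2 hI.a6)
        v1 v2 v3 ?_ ?_ hN' hPc' hQc' hRc h1
      · have := H35P.r3_nat (V := V) 3
        rwa [Nat.cast_ofNat] at this
      · have := H35P.r3_nat (V := V) 2
        rwa [Nat.cast_ofNat] at this
    have e : tt (W := W) (-Affine.Point.some x₃ y₃ h₃) - tt (W := W) (Affine.Point.some x₁ y₁ h₁) -
        tt (W := W) (Affine.Point.some x₂ y₂ h₂) =
        (tt (W := W) (-Affine.Point.some x₃ y₃ h₃) + tt (W := W) (Affine.Point.some x₃ y₃ h₃)) -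
          (x₁ / y₁ + x₂ / y₂ + x₃ / y₃) := by
      change tt (W := W) (-Affine.Point.some x₃ y₃ h₃) - x₁ / y₁ - x₂ / y₂ =
        (tt (W := W) (-Affine.Point.some x₃ y₃ h₃) + x₃ / y₃) - (x₁ / y₁ + x₂ / y₂ + x₃ / y₃)
      ring
    rw [hsum, e]
    exact Valuation.map_sub_le _ (hneg.trans (pow_le_pow_left' hRc' 2)) hmain

end H55K.TQ
end

-- from Lib.H55K.Z1A
section

/-! # H55K: the lattice is determined by g2 and g3 -/

open NumberField IsDedekindDomain WeierstrassCurve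

namespace H55K

open H55P (IQ embF eF LF Per IsHecke Pt ac Inert Dec Nm)
open H35P (WAB Ker tt)


variable {F : Type} [Field F] [NumberField F] [IQ F] {A B : F} {Om : ℂ}

theorem z1a_alg {a b x y u v w1 w2 z G g2 g3 m g' : ℂ} (n : ℕ) (hz : z ≠ 0) (ha : a = (z ^ 2)⁻¹ + u) (hb : b = (z ^ 2)⁻¹ + v)
    (hx : x = -2 * (z ^ 3)⁻¹ + w1) (hy : y = -2 * (z ^ 3)⁻¹ + w2) (h1 : x ^ 2 = 4 * a ^ 3 - g2 * a - g3)
    (h2 : y ^ 2 = 4 * b ^ 3 - g2 * b - g3) (hD : u - v = z ^ n * G) (hD' : z * (w1 - w2) = z ^ n * (m * G + z * g')) :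
    (m * G + z * g') * (-4 + z ^ 3 * (w1 + w2)) - G * (4 * ((1 + z ^ 2 * u) ^ 2 + (1 + z ^ 2 * u) * (1 + z ^ 2 * v) +
      (1 + z ^ 2 * v) ^ 2) - g2 * z ^ 4) = 0 := by
  have hA : z ^ 2 * a = 1 + z ^ 2 * u := by
    rw [ha, mul_add, mul_inv_cancel₀ (pow_ne_zero 2 hz)]
  have hB : z ^ 2 * b = 1 + z ^ 2 * v := by
    rw [hb, mul_add, mul_inv_cancel₀ (pow_ne_zero 2 hz)]
  have hX : z ^ 3 * x = -2 + z ^ 3 * w1 := by
    rw [hx]
    field_simp
  have hY : z ^ 3 * y = -2 + z ^ 3 * w2 := by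
    rw [hy]
    field_simp
  have e1 : (z ^ 3 * x) ^ 2 = 4 * (z ^ 2 * a) ^ 3 - g2 * z ^ 4 * (z ^ 2 * a) - g3 * z ^ 6 := by
    linear_combination z ^ 6 * h1
  have e2 : (z ^ 3 * y) ^ 2 = 4 * (z ^ 2 * b) ^ 3 - g2 * z ^ 4 * (z ^ 2 * b) - g3 * z ^ 6 := by
    linear_combination z ^ 6 * h2
  rw [hA, hX] at e1
  rw [hB, hY] at e2
  have hzn : z ^ 2 * z ^ n ≠ 0 := mul_ne_zero (pow_ne_zero 2 hz) (pow_ne_zero n hz)
  apply mul_left_cancel₀ hzn
  rw [mul_zero]
  linear_combination e1 - e2 - z ^ 2 * (-4 + z ^ 3 * (w1 + w2)) * hD' +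
    z ^ 2 * (4 * ((1 + z ^ 2 * u) ^ 2 + (1 + z ^ 2 * u) * (1 + z ^ 2 * v) + (1 + z ^ 2 * v) ^ 2) - g2 * z ^ 4) * hD

theorem z1a_dv (L : PeriodPair) {u : ℂ → ℂ} (hu : AnalyticAt ℂ u 0) (hU : ∀ z : ℂ, z ≠ 0 → L.weierstrassP z = (z ^ 2)⁻¹ + u z) :
    ∀ᶠ z in nhdsWithin (0 : ℂ) {0}ᶜ, L.derivWeierstrassP z = -2 * (z ^ 3)⁻¹ + deriv u z := by
  filter_upwards [H35P.ev_compl L 0, self_mem_nhdsWithin, hu.eventually_analyticAt.filter_mono nhdsWithin_le_nhds] with z h1 h2 h3
  have hz : z ≠ 0 := h2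
  have d1 := H35P.wp_hasDeriv L z h1
  have d2 : HasDerivAt (fun z : ℂ => (z ^ 2)⁻¹ + u z) (-(2 * z) / (z ^ 2) ^ 2 + deriv u z) z := by
    exact (((hasDerivAt_pow 2 z).inv (pow_ne_zero 2 hz)).add h3.differentiableAt.hasDerivAt).congr_deriv (by simp)
  have e : L.weierstrassP =ᶠ[nhds z] fun z : ℂ => (z ^ 2)⁻¹ + u z := by
    filter_upwards [isOpen_ne.mem_nhds hz] with w hw
    exact hU w hw
  rw [d1.unique (d2.congr_of_eventuallyEq e)]
  congr 1
  field_simp

/-- The two functions agree near `0`. -/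
theorem z1a_near (L L' : PeriodPair) (h2 : L.g₂ = L'.g₂) (h3 : L.g₃ = L'.g₃) :
    ∀ᶠ z in nhdsWithin (0 : ℂ) {0}ᶜ, L.weierstrassP z = L'.weierstrassP z := by
  obtain ⟨u, hu, hu0, hU⟩ := H35P.wp_zero L
  obtain ⟨v, hv, hv0, hV⟩ := H35P.wp_zero L'
  have hD : AnalyticAt ℂ (fun z => u z - v z) 0 := hu.sub hv
  by_cases h : ∀ᶠ z in nhds (0 : ℂ), u z - v z = 0
  · filter_upwards [h.filter_mono nhdsWithin_le_nhds, self_mem_nhdsWithin] with z hz hz0
    rw [hU z hz0, hV z hz0, sub_eq_zero.1 hz]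
  · exfalso
    obtain ⟨n, g, hg, hg0, hgD⟩ := hD.exists_eventuallyEq_pow_smul_nonzero_iff.2 h
    simp only [sub_zero, smul_eq_mul] at hgD
    have hev : ∀ᶠ z in nhdsWithin (0 : ℂ) {0}ᶜ, ((n : ℂ) * g z + z * deriv g z) * (-4 + z ^ 3 * (deriv u z + deriv v z)) -
        g z * (4 * ((1 + z ^ 2 * u z) ^ 2 + (1 + z ^ 2 * u z) * (1 + z ^ 2 * v z) + (1 + z ^ 2 * v z) ^ 2) - L.g₂ * z ^ 4) = 0 := by
      filter_upwards [H35P.ev_compl L 0, H35P.ev_compl L' 0, self_mem_nhdsWithin, z1a_dv L hu hU, z1a_dv L' hv hV,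
        hgD.eventually_nhds.filter_mono nhdsWithin_le_nhds, hu.eventually_analyticAt.filter_mono nhdsWithin_le_nhds,
        hv.eventually_analyticAt.filter_mono nhdsWithin_le_nhds, hg.eventually_analyticAt.filter_mono nhdsWithin_le_nhds]
        with z a1 a2 a3 a4 a5 a6 a7 a8 a9
      have hz : z ≠ 0 := a3
      have o1 := L.derivWeierstrassP_sq z a1
      have o2 := L'.derivWeierstrassP_sq z a2
      rw [← h2, ← h3] at o2
      have d1 : HasDerivAt (fun z => u z - v z) (deriv u z - deriv v z) z :=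
        a7.differentiableAt.hasDerivAt.sub a8.differentiableAt.hasDerivAt
      have d2 : HasDerivAt (fun z => z ^ n * g z) ((n : ℂ) * z ^ (n - 1) * g z + z ^ n * deriv g z) z :=
        (hasDerivAt_pow n z).mul a9.differentiableAt.hasDerivAt
      have d3 := d1.unique (d2.congr_of_eventuallyEq a6)
      have d4 : z * (deriv u z - deriv v z) = z ^ n * ((n : ℂ) * g z + z * deriv g z) := by
        rw [d3]
        rcases n with _ | n
        · simp
        · rw [Nat.add_sub_cancel, pow_succ]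
          ring
      exact z1a_alg n hz (hU z hz) (hV z hz) a4 a5 o1 o2 a6.self_of_nhds d4
    have hc : ContinuousAt (fun z => ((n : ℂ) * g z + z * deriv g z) * (-4 + z ^ 3 * (deriv u z + deriv v z)) -
        g z * (4 * ((1 + z ^ 2 * u z) ^ 2 + (1 + z ^ 2 * u z) * (1 + z ^ 2 * v z) + (1 + z ^ 2 * v z) ^ 2) - L.g₂ * z ^ 4)) 0 := by
      have c1 := hg.continuousAt
      have c2 := hg.deriv.continuousAt
      have c3 := hu.continuousAt
      have c4 := hu.deriv.continuousAt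
      have c5 := hv.continuousAt
      have c6 := hv.deriv.continuousAt
      fun_prop
    have t1 := hc.tendsto.mono_left (nhdsWithin_le_nhds (s := {0}ᶜ))
    have t2 : Filter.Tendsto (fun _ : ℂ => (0 : ℂ)) (nhdsWithin (0 : ℂ) {0}ᶜ) (nhds 0) := tendsto_const_nhds
    have t3 := tendsto_nhds_unique (t2.congr' (hev.mono fun z hz => hz.symm)) t1
    have h5 : ((n : ℂ) + 3) * g 0 = 0 := by
      have h6 : (0 : ℂ) = (n : ℂ) * g 0 * -4 - g 0 * (4 * (1 + 1 + 1)) := by
        simpa using t3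
      linear_combination (-(1 / 4) : ℂ) * h6.symm
    rcases mul_eq_zero.1 h5 with h6 | h6
    · have : ((n + 3 : ℕ) : ℂ) = 0 := by
        push_cast
        exact h6
      exact absurd (Nat.cast_eq_zero.1 this) (by omega)
    · exact hg0 h6

theorem z1a_conn (L L' : PeriodPair) : IsPreconnected (((L.lattice : Set ℂ) ∪ (L'.lattice : Set ℂ))ᶜ) := by
  have h1 : (L.lattice : Set ℂ).Countable := countable_of_Lindelof_of_discrete (X := L.lattice)
  have h2 : (L'.lattice : Set ℂ).Countable := countable_of_Lindelof_of_discrete (X := L'.lattice)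
  exact ((h1.union h2).isConnected_compl_of_one_lt_rank (by simp)).isPreconnected

theorem z1a_eq (L L' : PeriodPair) (h2 : L.g₂ = L'.g₂) (h3 : L.g₃ = L'.g₃) :
    Set.EqOn L.weierstrassP L'.weierstrassP (((L.lattice : Set ℂ) ∪ (L'.lattice : Set ℂ))ᶜ) := by
  have hn := z1a_near L L' h2 h3
  have hn2 : ∀ᶠ z in nhdsWithin (0 : ℂ) {0}ᶜ, ∀ᶠ w in nhds z, L.weierstrassP w = L'.weierstrassP w := by
    filter_upwards [eventually_eventually_nhdsWithin.2 hn, self_mem_nhdsWithin] with z h4 h5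
    have hz : z ≠ 0 := h5
    rwa [isOpen_compl_singleton.nhdsWithin_eq hz] at h4
  obtain ⟨z, a1, a2, a3⟩ := (hn2.and ((H35P.ev_compl L 0).and (H35P.ev_compl L' 0))).exists
  have hz : z ∈ (((L.lattice : Set ℂ) ∪ (L'.lattice : Set ℂ))ᶜ) := fun h => h.elim a2 a3
  refine AnalyticOnNhd.eqOn_of_preconnected_of_eventuallyEq (fun w hw => L.analyticOnNhd_weierstrassP w fun h => hw (Or.inl h))
    (fun w hw => L'.analyticOnNhd_weierstrassP w fun h => hw (Or.inr h)) (z1a_conn L L') hz a1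

theorem z1a_sub (L L' : PeriodPair) (h2 : L.g₂ = L'.g₂) (h3 : L.g₃ = L'.g₃) {l : ℂ} (hl : l ∈ L.lattice) : l ∈ L'.lattice := by
  by_contra hl'
  have he := z1a_eq L L' h2 h3
  obtain ⟨u, hu, hu0, hU⟩ := H35P.wp_zero L
  have t1 : Filter.Tendsto (fun z => (z - l) ^ 2 * L'.weierstrassP z) (nhdsWithin l {l}ᶜ) (nhds 0) := by
    have hc : ContinuousAt (fun z => (z - l) ^ 2 * L'.weierstrassP z) l := by
      have := (L'.analyticOnNhd_weierstrassP l hl').continuousAt
      fun_prop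
    have := hc.tendsto.mono_left (nhdsWithin_le_nhds (s := {l}ᶜ))
    simpa using this
  have t2 : Filter.Tendsto (fun z => 1 + (z - l) ^ 2 * u (z - l)) (nhdsWithin l {l}ᶜ) (nhds 1) := by
    have hu' : ContinuousAt u (l - l) := by
      rw [sub_self]
      exact hu.continuousAt
    have hc : ContinuousAt (fun z => 1 + (z - l) ^ 2 * u (z - l)) l := by
      have h4 : ContinuousAt (fun z => u (z - l)) l :=
        ContinuousAt.comp (g := u) (f := fun z => z - l) hu' (by fun_prop)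
      fun_prop
    have := hc.tendsto.mono_left (nhdsWithin_le_nhds (s := {l}ᶜ))
    simpa using this
  have hev : (fun z => 1 + (z - l) ^ 2 * u (z - l)) =ᶠ[nhdsWithin l {l}ᶜ] fun z => (z - l) ^ 2 * L'.weierstrassP z := by
    filter_upwards [H35P.ev_compl L l, H35P.ev_compl L' l, self_mem_nhdsWithin] with z a1 a2 a3
    have hz : z - l ≠ 0 := sub_ne_zero.2 a3
    have h4 : L.weierstrassP z = L'.weierstrassP z := he fun h => h.elim a1 a2
    have h5 : L.weierstrassP (z - l) = L.weierstrassP z := L.weierstrassP_sub_coe z ⟨l, hl⟩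
    rw [← h4, ← h5, hU _ hz, mul_add, mul_inv_cancel₀ (pow_ne_zero 2 hz)]
  exact one_ne_zero (tendsto_nhds_unique t2 (t1.congr' hev.symm))

/-- Chunk Z1A (M). A lattice is determined by g2 and g3. Put p = L.weierstrassP, p' = L'.weierstrassP. H35P.wp_zero: p = z^-2 + u, p' = z^-2 + u', u, u' analytic at 0, u(0) = u'(0) = 0. Both satisfy p_z^2 = 4p^3 - g₂ p - g₃ (derivWeierstrassP_sq) near 0 (z ≠ 0, z not in the lattices), the derivative of p is derivWeierstrassP. D = u - u' is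
analytic at 0. Subtract: (-4 z^-3 + u_z + u'_z) D_z = D (12 z^-4 + 12 z^-2 (u + u') + 4 (u^2 + u u' + u'^2) - g₂). If D is not identically 0 near 0, D = z^n h(z), h(0) ≠ 0, n ≥ 0 (AnalyticAt.exists_eventuallyEq_pow_smul_nonzero_iff, order): multiply by z^(4-n) and let z tend to 0: -4 n h(0) = 12 h(0), absurd. So p = p' near 0 (z ≠ 0), hence on the
complement of both lattices, which is connected (identity theorem; see H28G/GA2.lean, GA2_conn for the complement of a countable closed set: IsPreconnected via Set.Countable.isPathConnected_compl_of_one_lt_rank). If l is in L but not in L': p tends to infinity at l, p' is bounded near l: absurd. -/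
theorem lat_eq (L L' : PeriodPair) (h2 : L.g₂ = L'.g₂) (h3 : L.g₃ = L'.g₃) : L.lattice = L'.lattice := by
  ext z
  exact ⟨fun h => z1a_sub L L' h2 h3 h, fun h => z1a_sub L' L h2.symm h3.symm h⟩

end H55K
end

-- from Lib.H55K.Z1B
section

/-! # H55K: the lattice is determined by g2 and g3 -/

open NumberField IsDedekindDomain WeierstrassCurve

namespace H55K

open H55P (IQ embF eF LF Per IsHecke Pt ac Inert Dec Nm)
open H35P (WAB Ker tt)


variable {F : Type} [Field F] [NumberField F] [IQ F] {A B : F} {Om : ℂ}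

theorem z1b_indep (L : PeriodPair) (c : ℂ) (hc : c ≠ 0) : LinearIndependent ℝ ![c * L.ω₁, c * L.ω₂] := by
  have h := L.indep.map' (LinearMap.mulLeft ℝ c) (by
    rw [LinearMap.ker_eq_bot]
    exact mul_right_injective₀ hc)
  have e : (LinearMap.mulLeft ℝ c) ∘ ![L.ω₁, L.ω₂] = ![c * L.ω₁, c * L.ω₂] := by
    ext i
    fin_cases i <;> rfl
  rwa [e] at h

theorem z1b_G (L L' : PeriodPair) (c : ℂ) (hc : c ≠ 0) (h : ∀ z, z ∈ L'.lattice ↔ ∃ l ∈ L.lattice, z = c * l)
    (n : ℕ) : L'.G n = L.G n / c ^ n := by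
  have hf : ∀ l : L.lattice, c * (l : ℂ) ∈ L'.lattice := fun l => (h _).2 ⟨l, l.2, rfl⟩
  have hb : Function.Bijective (fun l : L.lattice => (⟨c * l, hf l⟩ : L'.lattice)) := by
    constructor
    · intro a b hab
      exact Subtype.ext (mul_right_injective₀ hc (congrArg Subtype.val hab))
    · rintro ⟨z, hz⟩
      obtain ⟨l, hl, e⟩ := (h z).1 hz
      exact ⟨⟨l, hl⟩, Subtype.ext e.symm⟩
  unfold PeriodPair.G
  rw [← (Equiv.ofBijective _ hb).tsum_eq, div_eq_mul_inv, ← tsum_mul_right]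
  refine tsum_congr fun l => ?_
  show ((c * (l : ℂ)) ^ n)⁻¹ = _
  rw [mul_pow, mul_inv, mul_comm]

/-- Chunk Z1B (S/M). Scaling: the period pair c L; g₂(cL) = c^-4 g₂(L), g₃(cL) = c^-6 g₃(L) (tsum over the lattice, Equiv by multiplication by c). -/
theorem lat_scale (L : PeriodPair) (c : ℂ) (hc : c ≠ 0) : ∃ L' : PeriodPair,
    (∀ z, z ∈ L'.lattice ↔ ∃ l ∈ L.lattice, z = c * l) ∧ L'.g₂ = L.g₂ / c ^ 4 ∧ L'.g₃ = L.g₃ / c ^ 6 := by
  have h : ∀ z, z ∈ (⟨c * L.ω₁, c * L.ω₂, z1b_indep L c hc⟩ : PeriodPair).lattice ↔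
      ∃ l ∈ L.lattice, z = c * l := by
    intro z
    rw [PeriodPair.mem_lattice]
    constructor
    · rintro ⟨m, n, rfl⟩
      exact ⟨m * L.ω₁ + n * L.ω₂, PeriodPair.mem_lattice.2 ⟨m, n, rfl⟩, by ring⟩
    · rintro ⟨l, hl, rfl⟩
      obtain ⟨m, n, rfl⟩ := PeriodPair.mem_lattice.1 hl
      exact ⟨m, n, by ring⟩
  refine ⟨⟨c * L.ω₁, c * L.ω₂, z1b_indep L c hc⟩, h, ?_, ?_⟩
  · unfold PeriodPair.g₂
    rw [z1b_G L _ c hc h, mul_div_assoc]
  · unfold PeriodPair.g₃
    rw [z1b_G L _ c hc h, mul_div_assoc]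

end H55K
end

-- from Lib.H55K.Z1C
section

/-! # H55K: the lattice is determined by g2 and g3 -/

open NumberField IsDedekindDomain WeierstrassCurve

namespace H55K

open H55P (IQ embF eF LF Per IsHecke Pt ac Inert Dec Nm)
open H35P (WAB Ker tt)


variable {F : Type} [Field F] [NumberField F] [IQ F] {A B : F} {Om : ℂ}

theorem z1c_mem (F : Type) [Field F] [NumberField F] [IQ F] (c : ℂ) (hc : c ≠ 0)
    (h2 : (LF F).g₂ / c ^ 4 = (LF F).g₂) (h3 : (LF F).g₃ / c ^ 6 = (LF F).g₃) : ∃ w : 𝓞 F, c = eF F w := by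
  obtain ⟨L', hL, h4, h5⟩ := lat_scale (LF F) c hc
  have h6 : L'.lattice = (LF F).lattice := lat_eq L' (LF F) (h4.trans h2) (h5.trans h3)
  have h7 : c ∈ L'.lattice := (hL c).2 ⟨1, (H55P.mem_LF 1).2 ⟨1, (map_one _).symm⟩, (mul_one c).symm⟩
  rw [h6] at h7
  exact (H55P.mem_LF c).1 h7

/-- Chunk Z1C (S). A = 0: g₂(LF F) = 0 (Per.g2; embF F A = 0). c = a primitive cube root of unity in ℂ: g₂(c LF) = 0, g₃(c LF) = g₃(LF). lat_eq: c * 1 is in the lattice of LF F, so c = eF F w (mem_LF), w^2 + w + 1 = 0 (eF_inj). -/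
theorem zero_A (hp : H55P.Per F (embF F A) (embF F B) Om) (hA : A = 0) : ∃ w : 𝓞 F, w ^ 2 + w + 1 = 0 := by
  have hg2 : (LF F).g₂ = 0 := by
    rw [hp.g2, hA, map_zero, mul_zero, zero_mul]
  have hprim : IsPrimitiveRoot (Complex.exp (2 * Real.pi * Complex.I / (3 : ℕ))) 3 :=
    Complex.isPrimitiveRoot_exp 3 (by norm_num)
  set c : ℂ := Complex.exp (2 * Real.pi * Complex.I / (3 : ℕ)) with hcdef
  have h3 : c ^ 3 = 1 := hprim.pow_eq_one
  have hne : c ≠ 1 := hprim.ne_one (by norm_num)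
  have hc0 : c ≠ 0 := Complex.exp_ne_zero _
  have hq : c ^ 2 + c + 1 = 0 := by
    have h4 : (c - 1) * (c ^ 2 + c + 1) = 0 := by
      linear_combination h3
    rcases mul_eq_zero.1 h4 with h5 | h5
    · exact absurd (sub_eq_zero.1 h5) hne
    · exact h5
  have h6 : c ^ 6 = 1 := by
    have : c ^ 6 = (c ^ 3) ^ 2 := by ring
    rw [this, h3, one_pow]
  obtain ⟨w, hw⟩ := z1c_mem F c hc0 (by rw [hg2, zero_div]) (by rw [h6, div_one])
  refine ⟨w, H55P.eF_inj ?_⟩
  rw [map_add, map_add, map_pow, ← hw, map_one, map_zero]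
  exact hq

/-- Chunk Z1C. B = 0: the same with c = I. -/
theorem zero_B (hp : H55P.Per F (embF F A) (embF F B) Om) (hB : B = 0) : ∃ w : 𝓞 F, w ^ 2 + 1 = 0 := by
  have hg3 : (LF F).g₃ = 0 := by
    rw [hp.g3, hB, map_zero, mul_zero, zero_mul]
  obtain ⟨w, hw⟩ := z1c_mem F Complex.I Complex.I_ne_zero (by rw [Complex.I_pow_four, div_one])
    (by rw [hg3, zero_div])
  refine ⟨w, H55P.eF_inj ?_⟩
  rw [map_add, map_pow, ← hw, map_one, map_zero, Complex.I_sq]
  norm_num

end H55K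
end

-- from Lib.H55C.B0
section

open NumberField IsDedekindDomain

namespace H55C

open H55B

/-! Chunk B0 (S): consequences of the modulus. unrOut_of_modulus: if the prime v below w is not good then alpha is not in v
(GoodMod), so alpha is not in w. val_three: 3 = -om^2 (om - 1)^2 and val_lam. alpha is prime to 6 because the
primes (2) and (om - 1) are not good. -/

variable {K : Type} [Field K] [NumberField K] [Algebra F K]





theorem GoodMod.ne_zero {α : O} (hα : GoodMod α) : α ≠ 0 := hα.1.ne_zero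


end H55C
end

-- from Lib.H55P.GenStm
section

/-!
# H55P: the statement for all curves with complex multiplication by the integers of a field of class number one

F is an imaginary quadratic field of class number one, Ω = AlgebraicClosure F, W₀ a Weierstrass equation over the
integers of F, M and K number fields between F and Ω.
-/

open NumberField IsDedekindDomain WeierstrassCurve

namespace H55P

/-- W₀ is an elliptic curve over F with complex multiplication by the integers of F: its period lattice is Om times the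
lattice of integers (y^2 = x^3 - (c4/48) x - (c6/864) is isomorphic to W₀); ψ is a Hecke character of F of type (1,0)
with values in F and modulus m. -/
structure CMData (F : Type) [Field F] [NumberField F] [IQ F] (W₀ : WeierstrassCurve (𝓞 F)) (Om : ℂ)
    (m : Ideal (𝓞 F)) (ψ : Ideal (𝓞 F) →*₀ 𝓞 F) : Prop where
  ell : W₀.Δ ≠ 0
  per : Per F (-(eF F W₀.c₄) / 48) (-(eF F W₀.c₆) / 864) Om
  hecke : IsHecke m ψ

section fields

variable {F : Type} [Field F] [NumberField F] [IQ F]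

/-- The prime v of M divides neither the discriminant of W₀ nor the modulus m nor p, and p divides neither the number
of points of W₀ over the residue field nor the norm of 1 - ψ(N v), N the norm from M to F (by a theorem of Deuring these two
numbers are equal if ψ is the Hecke character of W₀). -/
structure GoodG (p : ℕ) (W₀ : WeierstrassCurve (𝓞 F)) (m : Ideal (𝓞 F)) (ψ : Ideal (𝓞 F) →*₀ 𝓞 F)
    (M : IntermediateField F (AlgebraicClosure F)) [NumberField M] (v : HeightOneSpectrum (𝓞 M)) : Prop where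
  disc : algebraMap (𝓞 F) (𝓞 M) W₀.Δ ∉ v.asIdeal
  modulus : ¬ mK M m ≤ v.asIdeal
  res : (p : 𝓞 M) ∉ v.asIdeal
  pts : ¬ p ∣ Nat.card (W₀⁄(𝓞 M ⧸ v.asIdeal)).toAffine.Point
  hecke : ¬ p ∣ Ideal.absNorm (Ideal.span {1 - ψ (Ideal.relNorm (𝓞 F) v.asIdeal)})

open Classical in
/-- The p-Selmer group of W₀ over M is zero (cocycles on the absolute Galois group of M). -/
def SelG (p : ℕ) (W₀ : WeierstrassCurve (𝓞 F)) (M : IntermediateField F (AlgebraicClosure F)) : Prop :=
  SelZero (W₀⁄F) p M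

open Classical in
/-- The p-torsion of the Tate-Shafarevich group of W₀ over M is zero. -/
def ShaG (p : ℕ) (W₀ : WeierstrassCurve (𝓞 F)) (M : IntermediateField F (AlgebraicClosure F)) : Prop :=
  ShaZero (W₀⁄F) p M

/-- The Hecke L-series of the complex conjugate of ψ ∘ N over M, absolutely convergent for Re s > 3/2, continues to
Re s > 1/2, does not vanish at 1 and its value at 1 divided by the power of the period is a p-adic unit. -/
def ValG (p : ℕ) (Om : ℂ) (ψ : Ideal (𝓞 F) →*₀ 𝓞 F) (M : IntermediateField F (AlgebraicClosure F))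
    [NumberField M] : Prop :=
  ∃ Λ : ℂ → ℂ, AnalyticOnNhd ℂ Λ {s | 1 / 2 < s.re} ∧
    (∀ s : ℂ, 3 / 2 < s.re → HasSum (H55N.tm (PsiP M ψ) s) (Λ s)) ∧ Λ 1 ≠ 0 ∧
    UnitP p (Λ 1 / Om ^ Module.finrank F M)

/-- The Hecke L-series of the complex conjugate of ψ ∘ N over M, absolutely convergent for Re s > 3/2, continues to
Re s > 1/2, and its value at 1 divided by the power of the period is integral above p: in all valuation rings of the complex
numbers above p (in particular it is an algebraic number). -/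
def IntG (p : ℕ) (Om : ℂ) (ψ : Ideal (𝓞 F) →*₀ 𝓞 F) (M : IntermediateField F (AlgebraicClosure F))
    [NumberField M] : Prop :=
  ∃ Λ : ℂ → ℂ, AnalyticOnNhd ℂ Λ {s | 1 / 2 < s.re} ∧
    (∀ s : ℂ, 3 / 2 < s.re → HasSum (H55N.tm (PsiP M ψ) s) (Λ s)) ∧
    ∀ A : ValuationSubring ℂ, A.valuation (p : ℂ) < 1 → Λ 1 / Om ^ Module.finrank F M ∈ A

/-- The group of points of W₀ over M is finite of order prime to p. -/
def PtsG (p : ℕ) (W₀ : WeierstrassCurve (𝓞 F)) (M : IntermediateField F (AlgebraicClosure F)) : Prop :=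
  Finite ((W₀⁄F)⁄M).toAffine.Point ∧ ¬ p ∣ Nat.card ((W₀⁄F)⁄M).toAffine.Point

/-- The Euler product of the L-function of W₀ over M is the one of ψ and its conjugate (a theorem of Deuring if ψ is
the Hecke character of W₀ and the primes dividing m remain of bad reduction over M). -/
def DeuG (W₀ : WeierstrassCurve (𝓞 F)) (ψ : Ideal (𝓞 F) →*₀ 𝓞 F)
    (M : IntermediateField F (AlgebraicClosure F)) [NumberField M] : Prop :=
  ∀ n : ℕ, ((((W₀⁄F)⁄M).LFunction n : ℤ) : ℂ) =
    (H55N.AI (PsiP M ψ) * H55N.AI (fun a => (starRingEnd ℂ) (PsiP M ψ a))) n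

/-- The L-series of W₀ over M converges absolutely for Re s > 3/2, continues to Re s > 1/2, does not vanish at 1, and its
value at 1 divided by the power of the square of the absolute value of the period is a p-adic unit. -/
def LvalG (p : ℕ) (W₀ : WeierstrassCurve (𝓞 F)) (Om : ℂ) (M : IntermediateField F (AlgebraicClosure F))
    [NumberField M] : Prop :=
  ∃ Λ : ℂ → ℂ, AnalyticOnNhd ℂ Λ {s | 1 / 2 < s.re} ∧
    (∀ s : ℂ, 3 / 2 < s.re →
      LSeriesSummable (fun n => ((((W₀⁄F)⁄M).LFunction n : ℤ) : ℂ)) s ∧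
      Λ s = ((W₀⁄F)⁄M).LSeries s) ∧ Λ 1 ≠ 0 ∧
    UnitP p (Λ 1 / ((‖Om‖ ^ 2 : ℝ) : ℂ) ^ Module.finrank F M)

end fields

end H55P
end

-- from Lib.H55K.Y7B
section

/-! # H55K: a good prime exists -/

open NumberField IsDedekindDomain WeierstrassCurve

namespace H55K

open H55P (IQ embF eF LF Per IsHecke Pt ac Inert Dec Nm)
open H35P (WAB Ker tt)


variable {F : Type} [Field F] [NumberField F] [IQ F]

theorem y7b_jac {D q : ℕ} (hD : 0 < D) (hm : q % (4 * D) = 4 * D - 1) : jacobiSym (-(D : ℤ)) q = -1 := by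
  have h4 : q % 4 = 3 := by
    have h := Nat.mod_mod_of_dvd q (Dvd.intro D rfl : 4 ∣ 4 * D)
    rw [hm] at h
    omega
  have hodd : Odd q := Nat.odd_iff.2 (by omega)
  have h1 : jacobiSym (D : ℤ) q = 1 := by
    rw [jacobiSym.mod_right' D hodd, hm]
    have hodd2 : Odd (4 * D - 1) := Nat.odd_iff.2 (by omega)
    have e1 : jacobiSym ((4 : ℤ) * D) (4 * D - 1) = 1 := by
      have e2 : ((4 : ℤ) * D) % ((4 * D - 1 : ℕ) : ℤ) = 1 % ((4 * D - 1 : ℕ) : ℤ) := by
        rw [Nat.cast_sub (by omega)]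
        push_cast
        rw [Int.emod_eq_emod_iff_emod_sub_eq_zero, Int.emod_self]
      rw [jacobiSym.mod_left, e2, ← jacobiSym.mod_left, jacobiSym.one_left]
    rw [jacobiSym.mul_left] at e1
    have e4 : jacobiSym (4 : ℤ) (4 * D - 1) = 1 := by
      have : (4 : ℤ) = 2 ^ 2 := by norm_num
      rw [this]
      refine jacobiSym.sq_one' ?_
      have h5 : Nat.gcd 2 (4 * D - 1) = 1 := Nat.coprime_two_left.2 hodd2
      exact_mod_cast h5
    rw [e4, one_mul] at e1
    exact e1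
  rw [neg_eq_neg_one_mul, jacobiSym.mul_left, h1, mul_one, jacobiSym.at_neg_one hodd,
    ZMod.χ₄_nat_three_mod_four h4]

theorem y7b_field {R : Type} [CommRing R] {q : ℕ} (hq : q.Prime) (hc : Nat.card R = q) {D : ℕ} {z : R}
    (hz : z ^ 2 = -(D : R)) : IsSquare (-(D : ZMod q)) := by
  have : Finite R := Nat.finite_of_card_ne_zero (by rw [hc]; exact hq.ne_zero)
  have := Fintype.ofFinite R
  rw [Nat.card_eq_fintype_card] at hc
  let e : ZMod q ≃+* R := ZMod.ringEquivOfPrime R hq hc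
  refine ⟨e.symm z, ?_⟩
  rw [← map_mul, ← sq, hz, map_neg, map_natCast]

/-- Chunk Y7B (M). If (q) is not prime in 𝓞 F: a prime v containing q (q is not a unit), q = x y with x a prime element generating v, y not a unit (if y is a unit then q is prime), Nm x * Nm y = q^2 (Nm_mul, Nm_nat), both > 1, so absNorm v = q, 𝓞 F ⧸ v is isomorphic to ZMod q (card a prime number, or: every element is congruent to a natural number), so -D is a square in ZMod q.
But the Jacobi symbol J(-D | q) with q congruent to -1 modulo 4 D is -1: jacobiSym.mod_right (q replaced by 4D - 1), J(-1 | 4D-1) = -1 (4D - 1 is 3 modulo 4), J(D | 4D-1) = J(4D | 4D-1) = J(1 | 4D-1) = 1; jacobiSym.legendreSym.to_jacobiSym, legendreSym.eq_neg_one_iff. -/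
theorem inert_q {F : Type} [Field F] [NumberField F] [IQ F] {D : ℕ} {δ : 𝓞 F} (hD : 0 < D)
    (hδ : δ ^ 2 = -(D : 𝓞 F)) {q : ℕ} (hq : q.Prime) (hm : q % (4 * D) = 4 * D - 1) : Prime (q : 𝓞 F) := by
  have hq0 : (q : 𝓞 F) ≠ 0 := Nat.cast_ne_zero.2 hq.ne_zero
  have hu : ∀ x : 𝓞 F, Nm x = 1 → IsUnit x := by
    intro x hx
    unfold H55P.Nm at hx
    rwa [Ideal.absNorm_eq_one_iff, Ideal.span_singleton_eq_top] at hx
  have hq1 : ¬ IsUnit (q : 𝓞 F) := by
    intro h
    have h1 : Nm (q : 𝓞 F) = 1 := by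
      unfold H55P.Nm
      rw [Ideal.absNorm_eq_one_iff, Ideal.span_singleton_eq_top]
      exact h
    rw [Nm_nat] at h1
    exact hq.one_lt.ne' (by nlinarith [hq.one_lt])
  by_contra hnp
  obtain ⟨x, hx, y, hxy⟩ := WfDvdMonoid.exists_irreducible_factor hq1 hq0
  have hxp : Prime x := hx.prime
  have hy : ¬ IsUnit y := by
    intro h
    apply hnp
    have : Associated x (q : 𝓞 F) := ⟨h.unit, hxy.symm⟩
    exact this.prime hxp
  have hN : Nm x * Nm y = q ^ 2 := by rw [← Nm_mul, ← hxy, Nm_nat]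
  have hx1 : Nm x ≠ 1 := fun h => hxp.not_isUnit (hu _ h)
  have hy1 : Nm y ≠ 1 := fun h => hy (hu _ h)
  have hxq : Nm x = q := by
    obtain ⟨i, hi, e⟩ := (Nat.dvd_prime_pow hq).1 (Dvd.intro _ hN)
    have hi3 : i = 0 ∨ i = 1 ∨ i = 2 := by omega
    rcases hi3 with rfl | rfl | rfl
    · rw [pow_zero] at e
      exact absurd e hx1
    · rwa [pow_one] at e
    · rw [e] at hN
      have : q ^ 2 * Nm y = q ^ 2 * 1 := by rw [hN, mul_one]
      exact absurd (Nat.eq_of_mul_eq_mul_left (pow_pos hq.pos 2) this) hy1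
  have hcard : Nat.card (𝓞 F ⧸ Ideal.span {x}) = q := by
    rw [← hxq]
    unfold H55P.Nm
    rw [Ideal.absNorm_apply, Submodule.cardQuot_apply]
  have hsq : IsSquare (-(D : ZMod q)) := by
    refine y7b_field hq hcard (z := Ideal.Quotient.mk _ δ) ?_
    rw [← map_pow, hδ, map_neg, map_natCast]
  have := Fact.mk hq
  have h1 : legendreSym q (-(D : ℤ)) = -1 := by
    rw [jacobiSym.legendreSym.to_jacobiSym, y7b_jac hD hm]
  rw [legendreSym.eq_neg_one_iff] at h1
  apply h1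
  push_cast
  exact hsq

end H55K
end

-- from Lib.H55K.J10
section

open NumberField IsDedekindDomain

namespace H55K.JJ

open H55P (IQ embF eF LF Per Pt ac Nm)

/-! Chunk J10 (M). δ = x - cj x, x from H55P.F0_im: cj δ = -δ, δ^2 = -D, D = Nm δ > 0 (see the beginning of the proof of exists_delta in Y7A.lean). m = 1 if V(D + 1) = 1, otherwise m = D + 1 (V(m) < 1, so V(m^2 D + 1) = 1). b = m δ + 1: b * cj b = m^2 D + 1 = Nm b (mul_cj).
l: a prime, l = -1 modulo 4D, l > D + 1, V(l) = 1: take two such primes l1 < l2 (Nat.forall_exists_prime_gt_and_eq_mod / setOf_prime_and_eq_mod_infinite, y7c_q for the style); if V(l1) < 1 and V(l2) < 1 then V(1) < 1 (u l1 + v l2 = 1). Prime (l : 𝓞 F): inert_q (Y7B).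
If l | b - n = m δ + k (k = 1 - n): apply cj: l | -m δ + k; sum: l | 2k in 𝓞 F, so l | 2k in ℤ (norm, or Nm; (l : 𝓞 F) | (z : 𝓞 F) iff l | z), l odd, so l | k, l | m δ; l prime: l | m (0 < m ≤ D + 1 < l: no) or l | δ, then l^2 | D, no. -/

theorem j10_nat {Ω : Type} [Field Ω] (V : ValuationSubring Ω) (n : ℕ) : V.valuation (n : Ω) ≤ 1 :=
  (V.valuation_le_one_iff _).2 (natCast_mem V n)

theorem j10_int {Ω : Type} [Field Ω] (V : ValuationSubring Ω) (n : ℤ) : V.valuation (n : Ω) ≤ 1 :=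
  (V.valuation_le_one_iff _).2 (intCast_mem V n)

theorem j10_mul {Ω : Type} [Field Ω] (V : ValuationSubring Ω) {x y : Ω} (hx : V.valuation x < 1)
    (hy : V.valuation y ≤ 1) : V.valuation (x * y) < 1 := by
  rw [map_mul]
  exact mul_lt_one_of_lt_of_le hx hy

theorem j10_dvd {F : Type} [Field F] [NumberField F] [IQ F] {l k : ℕ} (h : (l : 𝓞 F) ∣ (k : 𝓞 F)) : l ∣ k := by
  obtain ⟨c, hc⟩ := h
  have h1 := congrArg (fun z : 𝓞 F => Nm z) hc
  simp only [Nm_mul, Nm_nat] at h1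
  exact (Nat.pow_dvd_pow_iff two_ne_zero).1 ⟨_, h1⟩

theorem choose_lb (F : Type) [Field F] [NumberField F] [IQ F] {Ω : Type} [Field Ω] [CharZero Ω]
    (V : ValuationSubring Ω) : ∃ (l : ℕ) (b : 𝓞 F), l.Prime ∧ Prime (l : 𝓞 F) ∧ V.valuation (l : Ω) = 1 ∧
      V.valuation ((Nm b : ℕ) : Ω) = 1 ∧ ∀ n : ℤ, ¬ (l : 𝓞 F) ∣ b - n := by
  classical
  obtain ⟨δ, hδ0, hcj⟩ : ∃ δ : 𝓞 F, δ ≠ 0 ∧ cj δ = -δ := by
    obtain ⟨x, hx⟩ := H55P.F0_im (F := F)
    refine ⟨x - cj x, ?_, ?_⟩
    · intro h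
      have h1 : x = cj x := sub_eq_zero.1 h
      have h2 := congrArg (eF F) h1
      rw [e_cj] at h2
      exact hx (Complex.conj_eq_iff_im.1 h2.symm)
    · rw [map_sub, cj_cj]
      ring
  obtain ⟨D, hD, hδ⟩ : ∃ D : ℕ, 0 < D ∧ δ ^ 2 = -(D : 𝓞 F) := by
    refine ⟨Nm δ, Nat.pos_of_ne_zero fun h => hδ0 (H55P.Nm_eq_zero.1 h), ?_⟩
    rw [← mul_cj, hcj]
    ring
  obtain ⟨m, hm0, hm1, hmV⟩ : ∃ m : ℕ, 0 < m ∧ m ≤ D + 1 ∧ V.valuation ((m ^ 2 * D + 1 : ℕ) : Ω) = 1 := by
    by_cases hV : V.valuation ((D + 1 : ℕ) : Ω) = 1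
    · refine ⟨1, one_pos, by omega, ?_⟩
      rw [one_pow, one_mul]
      exact hV
    · refine ⟨D + 1, by omega, le_rfl, ?_⟩
      have h1 : V.valuation ((D + 1 : ℕ) : Ω) < 1 := lt_of_le_of_ne (j10_nat V _) hV
      have h2 : V.valuation (((D + 1) ^ 2 * D : ℕ) : Ω) < 1 := by
        have e : (((D + 1) ^ 2 * D : ℕ) : Ω) = ((D + 1 : ℕ) : Ω) * (((D + 1) * D : ℕ) : Ω) := by
          push_cast
          ring
        rw [e]
        exact j10_mul V h1 (j10_nat V _)
      rw [Nat.cast_add, Nat.cast_one]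
      rw [Valuation.map_add_eq_of_lt_right _ (by rw [map_one]; exact h2)]
      exact map_one _
  obtain ⟨l, hl, hlD, hlm, hlV⟩ : ∃ l : ℕ, l.Prime ∧ D + 1 < l ∧ l % (4 * D) = 4 * D - 1 ∧
      V.valuation (l : Ω) = 1 := by
    have hex : ∀ X : ℕ, ∃ l : ℕ, l.Prime ∧ X < l ∧ l % (4 * D) = 4 * D - 1 := by
      intro X
      have hc : Nat.Coprime (4 * D - 1) (4 * D) := by
        obtain ⟨n, hn⟩ : ∃ n, 4 * D = n + 1 := ⟨4 * D - 1, by omega⟩
        rw [hn, Nat.add_sub_cancel]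
        simp
      obtain ⟨q, h1, h2, h3⟩ := Nat.forall_exists_prime_gt_and_modEq X (q := 4 * D) (by omega) hc
      refine ⟨q, h2, h1, ?_⟩
      rw [h3, Nat.mod_eq_of_lt (by omega)]
    obtain ⟨l1, p1, g1, m1⟩ := hex (D + 1)
    obtain ⟨l2, p2, g2, m2⟩ := hex l1
    by_cases hV1 : V.valuation (l1 : Ω) = 1
    · exact ⟨l1, p1, g1, m1, hV1⟩
    · by_cases hV2 : V.valuation (l2 : Ω) = 1
      · exact ⟨l2, p2, g1.trans g2, m2, hV2⟩
      · exfalso
        have v1 : V.valuation (l1 : Ω) < 1 := lt_of_le_of_ne (j10_nat V _) hV1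
        have v2 : V.valuation (l2 : Ω) < 1 := lt_of_le_of_ne (j10_nat V _) hV2
        have hc : IsCoprime (l1 : ℤ) (l2 : ℤ) := by
          rw [Nat.isCoprime_iff_coprime, Nat.coprime_primes p1 p2]
          omega
        obtain ⟨a, b, hab⟩ := hc
        have h6 : (l1 : Ω) * (a : Ω) + (l2 : Ω) * (b : Ω) = 1 := by
          have := congrArg (fun z : ℤ => (z : Ω)) hab
          push_cast at this
          rw [← this]
          ring
        have h7 : V.valuation (1 : Ω) < 1 := by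
          rw [← h6]
          exact Valuation.map_add_lt _ (j10_mul V v1 (j10_int V _)) (j10_mul V v2 (j10_int V _))
        rw [map_one] at h7
        exact lt_irrefl _ h7
  have hlp : Prime (l : 𝓞 F) := inert_q hD hδ hl hlm
  refine ⟨l, (m : 𝓞 F) * δ + 1, hl, hlp, hlV, ?_, ?_⟩
  · have h1 : Nm ((m : 𝓞 F) * δ + 1) = m ^ 2 * D + 1 := by
      have h2 : ((Nm ((m : 𝓞 F) * δ + 1) : ℕ) : 𝓞 F) = ((m ^ 2 * D + 1 : ℕ) : 𝓞 F) := by
        rw [← mul_cj, map_add, map_mul, map_one, cj_nat, hcj]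
        push_cast
        linear_combination (-(m : 𝓞 F) ^ 2) * hδ
      exact_mod_cast h2
    rw [h1]
    exact hmV
  · intro n hn
    obtain ⟨c, hc⟩ := hn
    have h1 := congrArg cj hc
    rw [map_mul, map_sub, map_add, map_mul, map_one, cj_nat, cj_nat, hcj, map_intCast] at h1
    have h2 : (l : 𝓞 F) ∣ ((2 * m : ℕ) : 𝓞 F) * δ := by
      refine ⟨c - cj c, ?_⟩
      push_cast
      linear_combination hc - h1
    rcases hlp.dvd_or_dvd h2 with h3 | h3
    · have h4 := j10_dvd h3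
      rcases hl.dvd_mul.1 h4 with h5 | h5
      · have := Nat.le_of_dvd two_pos h5
        omega
      · have := Nat.le_of_dvd hm0 h5
        omega
    · have h4 : (l : 𝓞 F) ∣ (D : 𝓞 F) := by
        have h5 : (l : 𝓞 F) ∣ δ ^ 2 := dvd_pow h3 two_ne_zero
        rw [hδ] at h5
        exact (dvd_neg).1 h5
      have h6 := Nat.le_of_dvd hD (j10_dvd h4)
      omega

end H55K.JJ
end

-- from Lib.H55K.Y1
section

/-! # H55K: a complex embedding of the algebraic closure -/

open NumberField IsDedekindDomain WeierstrassCurve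

namespace H55K

open H55P (IQ embF eF LF Per IsHecke Pt ac Inert Dec Nm)
open H35P (WAB Ker tt)


variable {F : Type} [Field F] [NumberField F]
omit [NumberField F] in
/-- Chunk Y1 (S). ℂ is an algebraically closed extension of F by embF F (RingHom.toAlgebra); IsAlgClosed.lift. -/
theorem exists_j (F : Type) [Field F] [NumberField F] [IQ F] (Ω : Type) [Field Ω] [Algebra F Ω]
    [Algebra.IsAlgebraic F Ω] : ∃ j : Ω →+* ℂ, ∀ x : F, j (algebraMap F Ω x) = embF F x := by
  letI : Algebra F ℂ := (embF F).toAlgebra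
  let j : Ω →ₐ[F] ℂ := IsAlgClosed.lift
  exact ⟨j.toRingHom, fun x => j.commutes x⟩

end H55K
end

-- from Lib.H55K.Y3
section

/-! # H55K: the short equation -/

open NumberField IsDedekindDomain WeierstrassCurve

namespace H55K

open H55P (IQ embF eF LF Per IsHecke Pt ac Inert Dec Nm)
open H35P (WAB Ker tt)


variable {F : Type} [Field F] [NumberField F] [IQ F]

omit [IQ F] in
theorem y3_le {Ω : Type} [Field Ω] [Algebra F Ω] (V : ValuationSubring Ω) (x : 𝓞 F) :
    V.valuation (ak Ω x) ≤ 1 := by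
  rw [V.valuation_le_one_iff]
  have h1 : IsIntegral ℤ (ak Ω x) := by
    have h2 : IsIntegral ℤ (x : F) := RingOfIntegers.isIntegral_coe x
    exact h2.map ((algebraMap F Ω).toIntAlgHom)
  have h3 : IsIntegral V (ak Ω x) := h1.tower_top
  obtain ⟨y, hy⟩ := IsIntegrallyClosed.isIntegral_iff.1 h3
  rw [← hy]
  exact y.2

omit [IQ F] in
theorem y3_cop {Ω : Type} [Field Ω] [Algebra F Ω] (V : ValuationSubring Ω) {p : ℕ}
    (hV : V.valuation (p : Ω) < 1) {z : 𝓞 F} (hz : IsCoprime z (p : 𝓞 F)) :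
    V.valuation (ak Ω z) = 1 := by
  obtain ⟨a, b, hab⟩ := hz
  have h1 : ak Ω a * ak Ω z + ak Ω b * (p : Ω) = 1 := by
    have h4 := congrArg (fun t : 𝓞 F => algebraMap F Ω (t : F)) hab
    simpa using h4
  refine le_antisymm (y3_le V z) (not_lt.1 fun hlt => ?_)
  have h5 : V.valuation (ak Ω a * ak Ω z + ak Ω b * (p : Ω)) < 1 := by
    refine Valuation.map_add_lt _ ?_ ?_
    · rw [map_mul]
      exact mul_lt_one_of_nonneg_of_lt_one_right (y3_le V a) zero_le hlt
    · rw [map_mul]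
      exact mul_lt_one_of_nonneg_of_lt_one_right (y3_le V b) zero_le hV
  rw [h1, map_one] at h5
  exact lt_irrefl _ h5

omit [NumberField F] [IQ F] in
theorem y3_nat {Ω : Type} [Field Ω] (V : ValuationSubring Ω) {p : ℕ}
    (hV : V.valuation (p : Ω) < 1) {n : ℕ} (hn : Nat.Coprime n p) : V.valuation (n : Ω) = 1 := by
  have hle : ∀ k : ℤ, V.valuation (k : Ω) ≤ 1 := by
    intro k
    rw [V.valuation_le_one_iff]
    exact intCast_mem V k
  have h0 := Nat.gcd_eq_gcd_ab n p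
  rw [hn.gcd_eq_one] at h0
  have h1 : (n : Ω) * ((n.gcdA p : ℤ) : Ω) + (p : Ω) * ((n.gcdB p : ℤ) : Ω) = 1 := by
    have h2 := congrArg (fun t : ℤ => (t : Ω)) h0
    push_cast at h2
    exact h2.symm
  have hn1 : V.valuation (n : Ω) ≤ 1 := by
    have := hle n
    rwa [Int.cast_natCast] at this
  refine le_antisymm hn1 (not_lt.1 fun hlt => ?_)
  have h5 : V.valuation ((n : Ω) * ((n.gcdA p : ℤ) : Ω) + (p : Ω) * ((n.gcdB p : ℤ) : Ω)) < 1 := by
    refine Valuation.map_add_lt _ ?_ ?_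
    · rw [map_mul, mul_comm]
      exact mul_lt_one_of_nonneg_of_lt_one_right (hle _) zero_le hlt
    · rw [map_mul, mul_comm]
      exact mul_lt_one_of_nonneg_of_lt_one_right (hle _) zero_le hV
  rw [h1, map_one] at h5
  exact lt_irrefl _ h5

omit [IQ F] in
/-- Chunk Y3 (S/M). W₀.c_relation: 1728 Δ = c₄^3 - c₆^2 (see H55P.gen_good in Gen.lean). -/
theorem y3_disc (W₀ : WeierstrassCurve (𝓞 F)) {A B : F} (hA : A = -(algebraMap (𝓞 F) F W₀.c₄) / 48)
    (hB : B = -(algebraMap (𝓞 F) F W₀.c₆) / 864) :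
    4 * A ^ 3 + 27 * B ^ 2 = -(algebraMap (𝓞 F) F W₀.Δ) / 16 := by
  have h1 : (1728 : F) * algebraMap (𝓞 F) F W₀.Δ =
      algebraMap (𝓞 F) F W₀.c₄ ^ 3 - algebraMap (𝓞 F) F W₀.c₆ ^ 2 := by
    have := congrArg (algebraMap (𝓞 F) F) W₀.c_relation
    rw [map_mul, map_sub, map_pow, map_pow, map_ofNat] at this
    exact this
  rw [hA, hB]
  linear_combination (1 / 27648 : F) * h1

omit [IQ F] in
/-- Chunk Y3. -/
theorem y3_ne (W₀ : WeierstrassCurve (𝓞 F)) {A B : F} (hA : A = -(algebraMap (𝓞 F) F W₀.c₄) / 48)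
    (hB : B = -(algebraMap (𝓞 F) F W₀.c₆) / 864) (h : W₀.Δ ≠ 0) : 4 * A ^ 3 + 27 * B ^ 2 ≠ 0 := by
  rw [y3_disc W₀ hA hB]
  refine div_ne_zero (neg_ne_zero.2 fun h0 => h ?_) (by norm_num)
  exact (map_eq_zero_iff _ (FaithfulSMul.algebraMap_injective (𝓞 F) F)).1 h0

omit [IQ F] in
/-- Chunk Y3. The same j₀. -/
theorem y3_j (W₀ : WeierstrassCurve (𝓞 F)) {A B : F} (hA : A = -(algebraMap (𝓞 F) F W₀.c₄) / 48)
    (hB : B = -(algebraMap (𝓞 F) F W₀.c₆) / 864) (h : ∃ j₀ : 𝓞 F, W₀.c₄ ^ 3 = j₀ * W₀.Δ) :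
    ∃ j₀ : 𝓞 F, (j₀ : F) * (4 * A ^ 3 + 27 * B ^ 2) = 6912 * A ^ 3 := by
  obtain ⟨j₀, hj⟩ := h
  refine ⟨j₀, ?_⟩
  have h1 : algebraMap (𝓞 F) F W₀.c₄ ^ 3 = (j₀ : F) * algebraMap (𝓞 F) F W₀.Δ := by
    have := congrArg (algebraMap (𝓞 F) F) hj
    rw [map_mul, map_pow] at this
    exact this
  rw [y3_disc W₀ hA hB, hA]
  linear_combination (1 / 16 : F) * h1

omit [IQ F] in
/-- Chunk Y3. Port of H55P.gen_good (Gen.lean) from ℂ to Ω: V(2) = V(3) = 1 (p ≥ 5, V(p) < 1), the coefficients are integral, V(Δ) = 1 because Δ is prime to p. -/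
theorem gv_l {p : ℕ} (hp : p.Prime) (h5 : 5 ≤ p) (W₀ : WeierstrassCurve (𝓞 F))
    (hΔ : IsCoprime (Ideal.span {W₀.Δ}) (Ideal.span {(p : 𝓞 F)})) {A B : F}
    (hA : A = -(algebraMap (𝓞 F) F W₀.c₄) / 48) (hB : B = -(algebraMap (𝓞 F) F W₀.c₆) / 864)
    {Ω : Type} [Field Ω] [Algebra F Ω] (V : ValuationSubring Ω) (hV : V.valuation (p : Ω) < 1) :
    GV A B V := by
  have h2 : V.valuation (2 : Ω) = 1 := by
    have h1 := y3_nat V hV (n := 2) ((Nat.coprime_primes Nat.prime_two hp).2 (by omega))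
    exact_mod_cast h1
  have h3 : V.valuation (3 : Ω) = 1 := by
    have h1 := y3_nat V hV (n := 3) ((Nat.coprime_primes Nat.prime_three hp).2 (by omega))
    exact_mod_cast h1
  have h48 : V.valuation (48 : Ω) = 1 := by
    have e : (48 : Ω) = 2 * 2 * 2 * 2 * 3 := by norm_num
    rw [e]
    simp only [map_mul, h2, h3, one_mul]
  have h864 : V.valuation (864 : Ω) = 1 := by
    have e : (864 : Ω) = 2 * 2 * 2 * 2 * 2 * 3 * 3 * 3 := by norm_num
    rw [e]
    simp only [map_mul, h2, h3, one_mul]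
  have h16 : V.valuation (16 : Ω) = 1 := by
    have e : (16 : Ω) = 2 * 2 * 2 * 2 := by norm_num
    rw [e]
    simp only [map_mul, h2, one_mul]
  refine ⟨?_, ?_, h2, h3, ?_⟩
  · rw [← V.valuation_le_one_iff, hA, map_div₀, map_neg, map_ofNat, map_div₀, Valuation.map_neg, h48,
      div_one]
    exact y3_le V _
  · rw [← V.valuation_le_one_iff, hB, map_div₀, map_neg, map_ofNat, map_div₀, Valuation.map_neg, h864,
      div_one]
    exact y3_le V _
  · rw [y3_disc W₀ hA hB, map_div₀, map_neg, map_ofNat, map_div₀, Valuation.map_neg, h16, div_one]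
    exact y3_cop V hV ((Ideal.isCoprime_span_singleton_iff _ _).1 hΔ)

end H55K
end

-- from Lib.H55K.T3A
section

/-! # H55K: the Frobenius map is injective modulo an unramified prime number -/

open NumberField IsDedekindDomain WeierstrassCurve

namespace H55K.TQ

open H55P (IQ embF eF LF Per IsHecke Pt ac Inert Dec Nm UnitP)
open H35P (WAB Ker tt GoodW IntW)
open H55K.MG (VC Crd)

/-- Chunk T3A (S/M). (a - 1)^(p^k) - (a^(p^k) - 1) is divisible by p (add_pow_char_pow modulo p, or in the quotient ring of characteristic p), so p divides (a - 1)^(p^k). The ideal (p) is a product of distinct primes (hunr: no v^2 divides (p)), so it is radical: every prime v containing p contains a - 1,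
and (p) is the intersection (product) of these v (squarefree ideal in a Dedekind domain: Ideal.IsRadical or UniqueFactorizationMonoid: Squarefree.dvd_pow_iff_dvd). -/
theorem frob_inj {F : Type} [Field F] [NumberField F] {p : ℕ} (hp : p.Prime)
    (hunr : ∀ v : HeightOneSpectrum (𝓞 F), (p : 𝓞 F) ∉ v.asIdeal ^ 2) {a : 𝓞 F} {k : ℕ}
    (h : (p : 𝓞 F) ∣ a ^ (p ^ k) - 1) : (p : 𝓞 F) ∣ a - 1 := by
  have hp0 : (p : 𝓞 F) ≠ 0 := by exact_mod_cast hp.ne_zero
  have hsq : Squarefree (Ideal.span {(p : 𝓞 F)}) := by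
    have hne : Ideal.span {(p : 𝓞 F)} ≠ 0 := by
      rw [Ne, Ideal.zero_eq_bot, Ideal.span_singleton_eq_bot]
      exact hp0
    rw [squarefree_iff_irreducible_sq_not_dvd_of_ne_zero hne]
    intro I hI hdvd
    have hpr : Prime I := UniqueFactorizationMonoid.irreducible_iff_prime.1 hI
    refine hunr ⟨I, Ideal.isPrime_of_prime hpr, hpr.ne_zero⟩ ?_
    rw [Ideal.dvd_iff_le, Ideal.span_singleton_le_iff_mem, ← sq] at hdvd
    exact hdvd
  obtain ⟨r, hr⟩ := exists_add_pow_prime_pow_eq hp (a - 1) 1 k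
  rw [sub_add_cancel, one_pow] at hr
  have h1 : (p : 𝓞 F) ∣ (a - 1) ^ (p ^ k) := by
    have e : (a - 1) ^ (p ^ k) = (a ^ (p ^ k) - 1) - (p : 𝓞 F) * ((a - 1) * 1 * r) := by
      rw [hr]
      ring
    rw [e]
    exact dvd_sub h (Dvd.intro _ rfl)
  have h2 : Ideal.span {(p : 𝓞 F)} ∣ (Ideal.span {a - 1}) ^ (p ^ k) := by
    rw [Ideal.span_singleton_pow, Ideal.dvd_iff_le, Ideal.span_singleton_le_span_singleton]
    exact h1
  rw [hsq.dvd_pow_iff_dvd (pow_ne_zero k hp.ne_zero), Ideal.dvd_iff_le,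
    Ideal.span_singleton_le_span_singleton] at h2
  exact h2

end H55K.TQ
end

-- from Lib.H55K.T3B
section

/-! # H55K: the Frobenius map is injective modulo an unramified prime number -/

open NumberField IsDedekindDomain WeierstrassCurve

namespace H55K.TQ

open H55P (IQ embF eF LF Per IsHecke Pt ac Inert Dec Nm UnitP)
open H35P (WAB Ker tt GoodW IntW)
open H55K.MG (VC Crd)

/-- Chunk T3B (S/M). T₀ from h.gen for b = p: every T in Tor act p is act a T₀, act a T₀ = 0 iff p divides a. g T₀ is in Tor (h.gal: act p (g T₀) = g (act p T₀)), so g T₀ = act a T₀, g (act b T₀) = act b (act a T₀); g^(p^k) T₀ = act (a^(p^k)) T₀ = T₀, so p divides a^(p^k) - 1; frob_inj. -/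
theorem fix_all {F : Type} [Field F] [NumberField F] [IQ F] {A B : F} {Om : ℂ} {Ω : Type} [Field Ω] [DecidableEq Ω]
    [Algebra F Ω] {j : Ω →+* ℂ} {act : 𝓞 F →+* AddMonoid.End (Pt (WAB A B) Ω)} (h : CMA F A B Om j act) {p : ℕ}
    (hp : p.Prime) (hunr : ∀ v : HeightOneSpectrum (𝓞 F), (p : 𝓞 F) ∉ v.asIdeal ^ 2) (g : Ω ≃ₐ[F] Ω) {k : ℕ}
    (hg : ∀ T : Pt (WAB A B) Ω, p • T = 0 → ac (WAB A B) (g ^ (p ^ k)) T = T) (T : Pt (WAB A B) Ω)
    (hT : p • T = 0) : ac (WAB A B) g T = T := by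
  have hp0 : (p : 𝓞 F) ≠ 0 := by exact_mod_cast hp.ne_zero
  obtain ⟨T₀, hT₀, hgen, hz, -⟩ := h.gen (p : 𝓞 F) hp0
  have hact : ∀ P : Pt (WAB A B) Ω, act (p : 𝓞 F) P = p • P := by
    intro P
    rw [map_natCast]
    rfl
  have hmem : ∀ P : Pt (WAB A B) Ω, p • P = 0 → P ∈ Tor act (p : 𝓞 F) := by
    intro P hP
    show act (p : 𝓞 F) P = 0
    rw [hact, hP]
  have hT₀' : act (p : 𝓞 F) T₀ = 0 := hT₀
  have hgT : act (p : 𝓞 F) (ac (WAB A B) g T₀) = 0 := by
    rw [← h.gal, hT₀', map_zero]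
  obtain ⟨a, ha⟩ := hgen (ac (WAB A B) g T₀) hgT
  have hmul : ∀ (b c : 𝓞 F) (P : Pt (WAB A B) Ω), act (b * c) P = act b (act c P) := by
    intro b c P
    rw [map_mul]
    rfl
  have hpow : ∀ n : ℕ, ac (WAB A B) (g ^ n) T₀ = act (a ^ n) T₀ := by
    intro n
    induction n with
    | zero =>
      rw [pow_zero, pow_zero, map_one]
      cases T₀ <;> rfl
    | succ n ih =>
      have h1 : ac (WAB A B) (g ^ (n + 1)) T₀ = ac (WAB A B) g (ac (WAB A B) (g ^ n) T₀) := by
        rw [pow_succ']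
        cases T₀ <;> rfl
      rw [h1, ih, h.gal, ha, ← hmul, pow_succ]
  have h2 := hg T₀ (by rw [← hact]; exact hT₀')
  rw [hpow] at h2
  have h3 : (p : 𝓞 F) ∣ a ^ (p ^ k) - 1 := by
    rw [← hz]
    have : act (a ^ (p ^ k) - 1) T₀ = act (a ^ (p ^ k)) T₀ - T₀ := by
      rw [map_sub, map_one]
      rfl
    rw [this, h2, sub_self]
  have h4 := frob_inj hp hunr h3
  rw [← hz] at h4
  have h5 : act a T₀ = T₀ := by
    have : act (a - 1) T₀ = act a T₀ - T₀ := by
      rw [map_sub, map_one]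
      rfl
    rw [this, sub_eq_zero] at h4
    exact h4
  obtain ⟨b, rfl⟩ := hgen T (hmem T hT)
  rw [h.gal, ha, h5]

end H55K.TQ
end

-- from Lib.H55K.KD
section

/-!
# H55K part K: the fields of torsion points (definitions)

K, N are number fields with F ⊂ K ⊂ N ⊂ Ω (abstract types with algebra maps to Ω). s always denotes an element of Gal(Ω/F).
-/

open NumberField IsDedekindDomain WeierstrassCurve

namespace H55K

open H55P (IQ embF eF LF Per IsHecke Pt ac Inert Dec Nm)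
open H35P (WAB Ker tt)
open H55R (Pl ord es fs smulP)

section

variable {F : Type} [Field F] {Ω : Type} [Field Ω] [Algebra F Ω]

/-- s fixes the elements of K. -/
def Fxd (K : Type) [Field K] [Algebra K Ω] (s : Ω ≃ₐ[F] Ω) : Prop :=
  ∀ x : K, s (algebraMap K Ω x) = algebraMap K Ω x

/-- s extends σ. -/
def Lft {K N : Type} [Field K] [Field N] [Algebra K N] [Algebra N Ω] (σ : Gal(N/K)) (s : Ω ≃ₐ[F] Ω) :
    Prop :=
  ∀ x : N, s (algebraMap N Ω x) = algebraMap N Ω (σ x)

end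

/-- The valuation ring V of Ω lies above the prime W of N. -/
def Abw {Ω : Type} [Field Ω] {N : Type} [Field N] [NumberField N] [Algebra N Ω] (V : ValuationSubring Ω)
    (W : Pl N) : Prop :=
  ∀ x : N, algebraMap N Ω x ∈ V ↔ W.valuation N x ≤ 1

section

variable {F : Type} [Field F] {A B : F} {Ω : Type} [Field Ω] [DecidableEq Ω] [Algebra F Ω]

/-- N/K is a Galois extension generated by the coordinates of the points killed by b. -/
structure TFld (act : 𝓞 F →+* AddMonoid.End (Pt (WAB A B) Ω)) (K N : Type) [Field K] [Field N]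
    [Algebra K N] [Algebra K Ω] [Algebra N Ω] (b : 𝓞 F) : Prop where
  gal : IsGalois K N
  crd : ∀ T ∈ Tor act b, ∃ x y : N, algebraMap N Ω x = xc T ∧ algebraMap N Ω y = yc T
  gen : ∀ s : Ω ≃ₐ[F] Ω, Fxd K s → (∀ T ∈ Tor act b, ac (WAB A B) s T = T) → Fxd N s

end

variable {F : Type} [Field F] [NumberField F] [IQ F] {A B : F} {Om : ℂ} {Ω : Type} [Field Ω] [DecidableEq Ω]
  [Algebra F Ω]

/-- N/K is totally ramified at v, of degree Nb - 1. -/
structure TotRam (act : 𝓞 F →+* AddMonoid.End (Pt (WAB A B) Ω)) (K N : Type) [Field K] [NumberField K]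
    [Field N] [NumberField N] [Algebra K N] [Algebra N Ω] (b : 𝓞 F) (v : Pl K) : Prop where
  deg : Module.finrank K N = Nm b - 1
  es : es K N v = Nm b - 1
  fs : fs K N v = 1
  one : ∀ W W' : Pl N, W.under (𝓞 K) = v → W'.under (𝓞 K) = v → W = W'
  val : ∀ W : Pl N, W.under (𝓞 K) = v → ∀ R ∈ Tor act b, R ≠ 0 → ∀ t : N, algebraMap N Ω t = tt R →
    W.valuation N t = WithZero.exp (-1 : ℤ)
  orb : ∀ R ∈ Tor act b, R ≠ 0 → ∀ R' ∈ Tor act b, R' ≠ 0 → ∃ σ : Gal(N/K), ∀ s : Ω ≃ₐ[F] Ω, Lft σ s →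
    ac (WAB A B) s R = R'

/-- L is the field generated by the points killed by π. -/
def IsTF (act : 𝓞 F →+* AddMonoid.End (Pt (WAB A B) Ω)) (π : 𝓞 F) (L : IntermediateField F Ω) : Prop :=
  FiniteDimensional F L ∧ ∀ s : Ω ≃ₐ[F] Ω, s ∈ L.fixingSubgroup ↔
    ∀ T ∈ Tor act π, ac (WAB A B) s T = T

end H55K
end

-- from Lib.H55K.K0A
section

open NumberField IsDedekindDomain WeierstrassCurve

namespace H55K

open H55P (IQ embF eF LF Per IsHecke Pt ac Inert Dec Nm)
open H35P (WAB Ker tt)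
open H55R (Pl ord es fs smulP)

/-! Chunk K0A (M, many small). Valuation rings above primes, N an abstract number field with an algebra map to Ω.
exists_abw: copy H13S/EXV.lean (f = algebraMap N Ω). lt, le: copy H13S/VW.lean (Abv.lt, Abv.le) with algebraMap N Ω x for (x : Ω); eq from le twice, eq_one from eq with y = 1.
below: x in K: algebraMap K Ω x = algebraMap N Ω (algebraMap K N x); W.valuation (algebraMap K N x) ≤ 1 iff v.valuation x ≤ 1 (HeightOneSpectrum.valuation_liesOver: v(x)^e = W(x), e ≠ 0, and LiesOver from hW as in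
H28G/K9.lean lift_le, BF2_mem of H55R.BF2 or ⟨hW.symm⟩-like). under: if V is above W and above v then W.under = v: for x : 𝓞 K, x in v iff V(x) < 1 iff algebraMap x in W (lt twice), HeightOneSpectrum.ext. int: elements of 𝓞 N are in V: V contains the integral elements (see
vw_int in H13S/VW.lean). -/

section
variable {Ω : Type} [Field Ω] {N : Type} [Field N] [NumberField N] [Algebra N Ω]

theorem exists_abw (Ω : Type) [Field Ω] {N : Type} [Field N] [NumberField N] [Algebra N Ω] (W : Pl N) :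
    ∃ V : ValuationSubring Ω, Abw V W := by
  let A : ValuationSubring N := (W.valuation N).valuationSubring
  let f : N →+* Ω := algebraMap N Ω
  obtain ⟨V, hV⟩ := (A.toLocalSubring.map f).exists_le_valuationSubring
  obtain ⟨h1, h2⟩ := LocalSubring.le_def.1 hV
  refine ⟨V, fun x => ⟨fun hx => ?_, fun hx => ?_⟩⟩
  · by_contra hc
    have hx0 : x ≠ 0 := by
      rintro rfl
      exact hc (by rw [map_zero]; exact zero_le_one)
    have hi : W.valuation N x⁻¹ ≤ 1 := by
      rw [map_inv₀]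
      exact inv_le_one_of_one_le₀ (not_le.1 hc).le
    have hA : x⁻¹ ∈ A.toSubring := (Valuation.mem_valuationSubring_iff _ _).2 hi
    have hm : f x⁻¹ ∈ (A.toLocalSubring.map f).toSubring := ⟨x⁻¹, hA, rfl⟩
    have hu : IsUnit (Subring.inclusion h1 ⟨f x⁻¹, hm⟩) := by
      refine isUnit_iff_exists_inv.2 ⟨⟨f x, hx⟩, Subtype.ext ?_⟩
      show f x⁻¹ * f x = 1
      rw [← map_mul, inv_mul_cancel₀ hx0, map_one]
    obtain ⟨⟨b, hb⟩, hb1⟩ := isUnit_iff_exists_inv.1 (h2.map_nonunit _ hu)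
    obtain ⟨z, hz, rfl⟩ := hb
    have h3 : f (x⁻¹ * z) = f 1 := by
      rw [map_mul, map_one]
      exact congrArg Subtype.val hb1
    have h4 : x⁻¹ * z = 1 := f.injective h3
    have h5 : z = x := by
      rw [inv_mul_eq_iff_eq_mul₀ hx0, mul_one] at h4
      exact h4
    rw [h5] at hz
    exact hc ((Valuation.mem_valuationSubring_iff _ _).1 hz)
  · exact h1 ⟨x, (Valuation.mem_valuationSubring_iff _ _).2 hx, rfl⟩

theorem Abw.lt {V : ValuationSubring Ω} {W : Pl N} (h : Abw V W) (x : N) :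
    V.valuation (algebraMap N Ω x) < 1 ↔ W.valuation N x < 1 := by
  by_cases hx : x = 0
  · subst hx
    rw [map_zero, map_zero, map_zero]
    exact ⟨fun _ => zero_lt_one, fun _ => zero_lt_one⟩
  · have hx' : algebraMap N Ω x ≠ 0 := (map_ne_zero _).2 hx
    have h1 := h x⁻¹
    rw [← V.valuation_le_one_iff, map_inv₀, map_inv₀, map_inv₀] at h1
    have h2 : 0 < V.valuation (algebraMap N Ω x) := zero_lt_iff.2 ((map_ne_zero _).2 hx')
    have h3 : 0 < W.valuation N x := zero_lt_iff.2 ((map_ne_zero _).2 hx)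
    rw [inv_le_one₀ h2, inv_le_one₀ h3] at h1
    rw [← not_le, ← not_le, h1]

theorem Abw.le {V : ValuationSubring Ω} {W : Pl N} (h : Abw V W) (x y : N) :
    V.valuation (algebraMap N Ω x) ≤ V.valuation (algebraMap N Ω y) ↔ W.valuation N x ≤ W.valuation N y := by
  by_cases hy : y = 0
  · subst hy
    rw [map_zero, map_zero, map_zero, le_zero_iff, le_zero_iff, map_eq_zero, map_eq_zero, map_eq_zero]
  · have hy' : algebraMap N Ω y ≠ 0 := (map_ne_zero _).2 hy
    have h1 := h (x / y)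
    have h2 : 0 < V.valuation (algebraMap N Ω y) := zero_lt_iff.2 ((map_ne_zero _).2 hy')
    have h3 : 0 < W.valuation N y := zero_lt_iff.2 ((map_ne_zero _).2 hy)
    rw [← V.valuation_le_one_iff, map_div₀, map_div₀, map_div₀, div_le_one₀ h2, div_le_one₀ h3] at h1
    exact h1

theorem Abw.eq {V : ValuationSubring Ω} {W : Pl N} (h : Abw V W) (x y : N) :
    V.valuation (algebraMap N Ω x) = V.valuation (algebraMap N Ω y) ↔ W.valuation N x = W.valuation N y := by
  rw [le_antisymm_iff, le_antisymm_iff, h.le x y, h.le y x]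

theorem Abw.eq_one {V : ValuationSubring Ω} {W : Pl N} (h : Abw V W) (x : N) :
    V.valuation (algebraMap N Ω x) = 1 ↔ W.valuation N x = 1 := by
  have h1 := h.eq x 1
  rwa [map_one, map_one, map_one] at h1

/-- Integers are integral. -/
theorem k0_int (V : ValuationSubring Ω) (x : 𝓞 N) : V.valuation (algebraMap N Ω (x : N)) ≤ 1 := by
  have h1 : IsIntegral ℤ (algebraMap N Ω (x : N)) :=
    (RingOfIntegers.isIntegral_coe x).map ((algebraMap N Ω).toIntAlgHom)
  have h2 : IsIntegral V (algebraMap N Ω (x : N)) := h1.tower_top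
  obtain ⟨y, hy⟩ := (IsIntegrallyClosed.isIntegral_iff (R := V) (K := Ω)).1 h2
  rw [← hy]
  exact (V.valuation_le_one_iff _).2 y.2

end

section
variable {Ω : Type} [Field Ω] {K N : Type} [Field K] [NumberField K] [Field N] [NumberField N]
  [Algebra K N] [Algebra K Ω] [Algebra N Ω] [IsScalarTower K N Ω]

theorem Abw.below {V : ValuationSubring Ω} {W : Pl N} (h : Abw V W) {v : Pl K} (hW : W.under (𝓞 K) = v) :
    Abw V v := by
  intro x
  have hl : W.asIdeal.LiesOver v.asIdeal := ⟨(congrArg HeightOneSpectrum.asIdeal hW).symm⟩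
  have hp := v.isPrime
  have hWp := W.isPrime
  rw [IsScalarTower.algebraMap_apply K N Ω x, h (algebraMap K N x),
    ← HeightOneSpectrum.valuation_liesOver N v W x]
  exact pow_le_one_iff (Ideal.IsDedekindDomain.ramificationIdx'_ne_zero_of_liesOver W.asIdeal v.ne_bot)

theorem Abw.under {V : ValuationSubring Ω} {W : Pl N} (h : Abw V W) {v : Pl K} (hv : Abw V v) :
    W.under (𝓞 K) = v := by
  apply HeightOneSpectrum.ext
  ext x
  have h1 : x ∈ v.asIdeal ↔ V.valuation (algebraMap K Ω (x : K)) < 1 := by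
    rw [hv.lt]
    exact (v.valuation_lt_one_iff_mem x).symm
  have h2 : algebraMap (𝓞 K) (𝓞 N) x ∈ W.asIdeal ↔ V.valuation (algebraMap K Ω (x : K)) < 1 := by
    rw [IsScalarTower.algebraMap_apply K N Ω, h.lt]
    exact (W.valuation_lt_one_iff_mem (algebraMap (𝓞 K) (𝓞 N) x)).symm
  rw [h1, ← h2]
  rfl

end

end H55K
end

-- from Lib.H55K.J12
section

open NumberField IsDedekindDomain

namespace H55K.JJ

/-! Chunk J12 (S). For every height one prime v of 𝓞 F there is V over v (exists_abw with N = F in K0A.lean), so v.valuation x ≤ 1 (Abw.le with y = 1); then x is an integer: HeightOneSpectrum.mem_integers_of_valuation_le_one. -/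

theorem int_of_val {F : Type} [Field F] [NumberField F] (Ω : Type) [Field Ω] [Algebra F Ω] (x : F)
    (hx : ∀ V : ValuationSubring Ω, V.valuation (algebraMap F Ω x) ≤ 1) : ∃ x₀ : 𝓞 F, (x₀ : F) = x := by
  have h1 : ∀ v : HeightOneSpectrum (𝓞 F), v.valuation F x ≤ 1 := by
    intro v
    obtain ⟨V, hV⟩ := exists_abw Ω (N := F) v
    have h3 := hV.le x 1
    rw [map_one, map_one, map_one] at h3
    exact h3.1 (hx V)
  obtain ⟨x₀, hx₀⟩ := HeightOneSpectrum.mem_integers_of_valuation_le_one F x h1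
  exact ⟨x₀, hx₀⟩

end H55K.JJ
end

-- from Lib.H55K.RD_T
section

/-! # H55K: part R: the field generated by F over a field K -/

open NumberField IsDedekindDomain WeierstrassCurve

namespace H55K.TQ

open H55P (IQ embF eF LF Per IsHecke Pt ac Inert Dec Nm UnitP)
open H35P (WAB Ker tt GoodW IntW)
open H55K.MG (VC Crd)

/-- K is the quadratic extension of K₀ generated by F; there is an automorphism of K over K₀ which is the complex conjugation on F. -/
structure QuadG (F K₀ K : Type) [Field F] [NumberField F] [IQ F] [Field K₀] [NumberField K₀] [Field K] [NumberField K]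
    [Algebra F K] [Algebra K₀ K] : Prop where
  rank : Module.finrank K₀ K = 2
  tau : ∃ τ : K ≃ₐ[K₀] K, ∀ x : 𝓞 F, τ (algebraMap F K (x : F)) = algebraMap F K ((cj x : 𝓞 F) : F)

variable (F : Type) [Field F] [NumberField F] [IQ F] {Ω : Type} [Field Ω] [Algebra F Ω] [Algebra ℚ Ω] [IsScalarTower ℚ F Ω]


/-- K as a subfield of KG. -/
noncomputable def KGmap (K : Type) [Field K] [NumberField K] (ι : K →ₐ[ℚ] Ω) : K →+* KG F K ι where
  toFun x := ⟨ι x, IntermediateField.subset_adjoin F _ ⟨x, rfl⟩⟩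
  map_one' := Subtype.ext (map_one ι)
  map_mul' x y := Subtype.ext (map_mul ι x y)
  map_zero' := Subtype.ext (map_zero ι)
  map_add' x y := Subtype.ext (map_add ι x y)

end H55K.TQ
end

-- from Lib.H55K.RB2
section

/-! # H55K: primes in the quadratic extension -/

open NumberField IsDedekindDomain WeierstrassCurve

namespace H55K.TQ

open H55P (IQ embF eF LF Per IsHecke Pt ac Inert Dec Nm UnitP)
open H35P (WAB Ker tt GoodW IntW)
open H55K.MG (VC Crd)

variable {F K₀ K : Type} [Field F] [NumberField F] [IQ F] [Field K₀] [NumberField K₀] [Field K] [NumberField K]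
  [Algebra F K] [Algebra K₀ K]

omit F K₀ K in
theorem rb2_roots {k k' : Type} [Field k] [Field k'] [Fintype k] {q : ℕ} (φ : k →+* k')
    (h1 : ∀ x : k, x ^ q = x) (h2 : Fintype.card k = q) (hq : 1 < q) (y : k') (hy : y ^ q = y) :
    ∃ x : k, φ x = y := by
  classical
  obtain ⟨p, hp⟩ : ∃ p : Polynomial k', p = Polynomial.X ^ q - Polynomial.X := ⟨_, rfl⟩
  have hd : p.natDegree = q := by
    rw [hp]
    exact FiniteField.X_pow_card_sub_X_natDegree_eq k' hq
  have hp0 : p ≠ 0 := by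
    intro h0
    rw [h0, Polynomial.natDegree_zero] at hd
    omega
  have hr : ∀ y : k', y ^ q = y → y ∈ p.roots.toFinset := by
    intro y hy
    rw [Multiset.mem_toFinset, Polynomial.mem_roots hp0, Polynomial.IsRoot.def, hp]
    simp [hy]
  have hsub : Finset.univ.image φ ⊆ p.roots.toFinset := by
    intro y hy
    obtain ⟨x, -, rfl⟩ := Finset.mem_image.1 hy
    exact hr _ (by rw [← map_pow, h1])
  have hcard : p.roots.toFinset.card ≤ (Finset.univ.image φ).card := by
    rw [Finset.card_image_of_injective _ φ.injective, Finset.card_univ, h2]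
    refine (Multiset.toFinset_card_le _).trans ?_
    rw [← hd]
    exact Polynomial.card_roots' p
  have heq := Finset.eq_of_subset_of_card_le hsub hcard
  have h3 := hr y hy
  rw [← heq] at h3
  obtain ⟨x, -, hx⟩ := Finset.mem_image.1 h3
  exact ⟨x, hx⟩

/-- Chunk RB2 (M). Let w be the only prime above v, N w = (N v)^2, l the rational prime below, not ramified in F in the sense h. Then l is inert in F and N v = l^f with f odd: v_F = w ∩ 𝓞 F. τ w = w and τ = cj on 𝓞 F, so cj v_F = v_F. 𝓞 F ⧸ v_F has l or l^2 elements (degree 2). If it has l elements then every a in 𝓞 F is congruent to an integer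
modulo v_F, so a - cj a is in v_F for all a: against h. So it has l^2 elements and v_F = (l). If f were even, the field 𝓞 K₀ ⧸ v (l^f elements) would contain a root of the polynomial x^2 - t x + n (t = a + cj a, n = a cj a integers) of every a in 𝓞 F (it contains the field with l^2 elements); take a with a not congruent to an integer modulo (l): there is z in 𝓞 K₀ with
z^2 - t z + n in v, so (z - a)(z - cj a) is in w: z - a or z - cj a in w, so a (or cj a) is congruent to z modulo w, and τ z = z gives a - cj a in w for this a, hence the class of a in 𝓞 F ⧸ v_F is fixed by the conjugation; l^2 elements, generated by a over the prime field: the conjugation acts trivially on 𝓞 F ⧸ v_F, against h. -/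
theorem quad_inert (hQ : QuadG F K₀ K) (v : HeightOneSpectrum (𝓞 K₀)) (w : HeightOneSpectrum (𝓞 K))
    (hN : Ideal.absNorm w.asIdeal = Ideal.absNorm v.asIdeal ^ 2)
    (hw : ∀ w' : HeightOneSpectrum (𝓞 K), v.asIdeal = w'.asIdeal.under (𝓞 K₀) ↔ w' = w)
    (h : ¬ ∀ a : 𝓞 F, algebraMap (𝓞 F) (𝓞 K) (a - cj a) ∈ w.asIdeal) {l f : ℕ} (hl : l.Prime)
    (hf : Ideal.absNorm v.asIdeal = l ^ f) :
    Odd f ∧ w.asIdeal.under (𝓞 F) = Ideal.span {(l : 𝓞 F)} := by
  classical
  obtain ⟨τ, hτ⟩ := hQ.tau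
  obtain ⟨T, hT⟩ : ∃ T : 𝓞 K ≃+* 𝓞 K, ∀ x : 𝓞 K, ((T x : 𝓞 K) : K) = τ (x : K) :=
    ⟨RingOfIntegers.mapRingEquiv (τ : K ≃+* K), fun x => rfl⟩
  have hTF : ∀ a : 𝓞 F, T (algebraMap (𝓞 F) (𝓞 K) a) = algebraMap (𝓞 F) (𝓞 K) (cj a) := by
    intro a
    apply RingOfIntegers.ext
    rw [hT]
    exact hτ a
  have hTK : ∀ z : 𝓞 K₀, T (algebraMap (𝓞 K₀) (𝓞 K) z) = algebraMap (𝓞 K₀) (𝓞 K) z := by
    intro z
    apply RingOfIntegers.ext
    rw [hT]
    exact τ.commutes (z : K₀)
  have hv0 : v.asIdeal = w.asIdeal.under (𝓞 K₀) := (hw w).2 rfl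
  have hwT : ∀ x : 𝓞 K, T x ∈ w.asIdeal ↔ x ∈ w.asIdeal := by
    have hp : (w.asIdeal.comap (T : 𝓞 K →+* 𝓞 K)).IsPrime := Ideal.comap_isPrime _ _
    have hb : w.asIdeal.comap (T : 𝓞 K →+* 𝓞 K) ≠ ⊥ := by
      intro h0
      obtain ⟨x, hx, hx0⟩ := Submodule.exists_mem_ne_zero_of_ne_bot w.ne_bot
      have h1 : T.symm x ∈ w.asIdeal.comap (T : 𝓞 K →+* 𝓞 K) := by
        rw [Ideal.mem_comap]
        show T (T.symm x) ∈ w.asIdeal
        rw [T.apply_symm_apply]
        exact hx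
      rw [h0] at h1
      have h2 : T.symm x = 0 := h1
      exact hx0 ((map_eq_zero_iff T.symm T.symm.injective).1 h2)
    have h1 := (hw ⟨w.asIdeal.comap (T : 𝓞 K →+* 𝓞 K), hp, hb⟩).1 (by
      rw [hv0]
      ext z
      rw [Ideal.under_def, Ideal.under_def, Ideal.mem_comap, Ideal.mem_comap, Ideal.mem_comap]
      show _ ↔ T (algebraMap (𝓞 K₀) (𝓞 K) z) ∈ w.asIdeal
      rw [hTK])
    intro x
    have h2 := congrArg HeightOneSpectrum.asIdeal h1
    have h3 : x ∈ w.asIdeal.comap (T : 𝓞 K →+* 𝓞 K) ↔ x ∈ w.asIdeal := by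
      rw [show w.asIdeal.comap (T : 𝓞 K →+* 𝓞 K) = w.asIdeal from h2]
    exact h3
  obtain ⟨P, hP⟩ : ∃ P, P = w.asIdeal.under (𝓞 F) := ⟨_, rfl⟩
  have hPm : ∀ a : 𝓞 F, a ∈ P ↔ algebraMap (𝓞 F) (𝓞 K) a ∈ w.asIdeal := by
    intro a
    rw [hP, Ideal.under_def, Ideal.mem_comap]
  have hPp : P.IsPrime := by
    rw [hP]
    infer_instance
  have hPc : ∀ a : 𝓞 F, cj a ∈ P ↔ a ∈ P := by
    intro a
    rw [hPm, hPm, ← hTF, hwT]
  -- l in w
  have hlv : (l : 𝓞 K₀) ∈ v.asIdeal := by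
    have h1 := Ideal.absNorm_mem v.asIdeal
    rw [hf, Nat.cast_pow] at h1
    exact v.isPrime.mem_of_pow_mem _ h1
  have hlP : (l : 𝓞 F) ∈ P := by
    rw [hPm, map_natCast]
    rw [hv0, Ideal.under_def, Ideal.mem_comap, map_natCast] at hlv
    exact hlv
  have hint : ∀ n : ℤ, (n : 𝓞 F) ∈ P → (l : ℤ) ∣ n := by
    intro n hn
    by_contra hnd
    have hc : IsCoprime (l : ℤ) n := (Nat.prime_iff_prime_int.1 hl).coprime_iff_not_dvd.2 hnd
    obtain ⟨a, b, hab⟩ := hc
    apply hPp.ne_top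
    rw [Ideal.eq_top_iff_one]
    have h1 : ((a * l + b * n : ℤ) : 𝓞 F) ∈ P := by
      push_cast
      exact P.add_mem (P.mul_mem_left _ hlP) (P.mul_mem_left _ hn)
    rw [hab] at h1
    exact_mod_cast h1
  have htr : ∀ x : 𝓞 F, ∃ n : ℤ, x + cj x = n := by
    intro x
    refine ⟨(Nm (1 + x) : ℤ) - Nm x - 1, ?_⟩
    have h1 := mul_cj (1 + x)
    have h2 := mul_cj x
    rw [map_add, map_one] at h1
    push_cast
    rw [← h1, ← h2]
    ring
  push Not at h
  obtain ⟨a₀, ha₀⟩ := h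
  rw [← hPm] at ha₀
  have hlmul : ∀ x : 𝓞 F, x + cj x ∈ P → ∃ y : 𝓞 F, x + cj x = l * y := by
    intro x hx
    obtain ⟨n, hn⟩ := htr x
    rw [hn] at hx
    obtain ⟨k, hk⟩ := hint n hx
    exact ⟨k, by rw [hn, hk]; push_cast; ring⟩
  have hPl : P = Ideal.span {(l : 𝓞 F)} := by
    apply le_antisymm
    · intro b hb
      have hb' := (hPc b).2 hb
      obtain ⟨y1, hy1⟩ := hlmul b (P.add_mem hb hb')
      obtain ⟨y2, hy2⟩ := hlmul (b * a₀) (P.add_mem (P.mul_mem_right _ hb) (by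
        rw [map_mul]; exact P.mul_mem_right _ hb'))
      rw [map_mul] at hy2
      have h1 : b * (a₀ - cj a₀) = l * (y2 - cj a₀ * y1) := by linear_combination hy2 - cj a₀ * hy1
      have h2 : ¬ (l : ℤ) ∣ (Nm (a₀ - cj a₀) : ℤ) := by
        intro hd
        obtain ⟨k, hk⟩ := hd
        have h3 : ((Nm (a₀ - cj a₀) : ℤ) : 𝓞 F) ∈ P := by
          rw [hk]
          push_cast
          exact P.mul_mem_right _ hlP
        have h4 : (a₀ - cj a₀) * cj (a₀ - cj a₀) ∈ P := by
          rw [mul_cj]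
          exact_mod_cast h3
        rcases hPp.mem_or_mem h4 with h5 | h5
        · exact ha₀ h5
        · exact ha₀ ((hPc _).1 h5)
      obtain ⟨c, d, hcd⟩ := (Nat.prime_iff_prime_int.1 hl).coprime_iff_not_dvd.2 h2
      rw [Ideal.mem_span_singleton]
      have h6 : (c : 𝓞 F) * l + d * (Nm (a₀ - cj a₀) : 𝓞 F) = 1 := by exact_mod_cast hcd
      rw [← mul_cj] at h6
      refine ⟨c * b + d * cj (a₀ - cj a₀) * (y2 - cj a₀ * y1), ?_⟩
      linear_combination (-b) * h6 + d * cj (a₀ - cj a₀) * h1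
    · rw [Ideal.span_singleton_le_iff_mem]
      exact hlP
  refine ⟨?_, by rw [← hP, hPl]⟩
  -- f is odd
  rw [← Nat.not_even_iff_odd]
  rintro ⟨m, hm⟩
  have hPne : P ≠ ⊥ := by
    intro h0
    rw [h0] at hlP
    have h1 : (l : 𝓞 F) = 0 := hlP
    exact hl.ne_zero (by exact_mod_cast h1)
  have hPmax : P.IsMaximal := hPp.isMaximal hPne
  have hN2 : Ideal.absNorm P = l ^ 2 := by
    rw [hPl]
    exact Nm_nat l
  letI : Field (𝓞 F ⧸ P) := Ideal.Quotient.field P
  have hfin : Finite (𝓞 F ⧸ P) := Ideal.finiteQuotientOfFreeOfNeBot P hPne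
  letI := Fintype.ofFinite (𝓞 F ⧸ P)
  have hcard : Fintype.card (𝓞 F ⧸ P) = l ^ 2 := by
    rw [← Nat.card_eq_fintype_card, ← hN2]
    rfl
  have hpow : ∀ a : 𝓞 F, a ^ (l ^ 2) - a ∈ P := by
    intro a
    rw [← Ideal.Quotient.eq_zero_iff_mem, map_sub, map_pow, ← hcard, FiniteField.pow_card, sub_self]
  have hpow2 : ∀ (k : ℕ) (a : 𝓞 F), a ^ ((l ^ 2) ^ k) - a ∈ P := by
    intro k
    induction k with
    | zero =>
      intro a
      rw [pow_zero, pow_one, sub_self]
      exact P.zero_mem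
    | succ k ih =>
      intro a
      have h1 := hpow (a ^ ((l ^ 2) ^ k))
      rw [← pow_mul, ← pow_succ] at h1
      have h2 := P.add_mem h1 (ih a)
      rwa [sub_add_sub_cancel] at h2
  have hq : (l ^ 2) ^ m = Ideal.absNorm v.asIdeal := by
    rw [hf, hm, ← pow_mul]
    congr 1
    ring
  -- the residue fields
  have hvmax := v.isMaximal
  have hwmax := w.isMaximal
  letI : Field (𝓞 K ⧸ w.asIdeal) := Ideal.Quotient.field w.asIdeal
  letI : Field (𝓞 K₀ ⧸ v.asIdeal) := Ideal.Quotient.field v.asIdeal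
  have hfinv : Finite (𝓞 K₀ ⧸ v.asIdeal) := Ideal.finiteQuotientOfFreeOfNeBot v.asIdeal v.ne_bot
  letI := Fintype.ofFinite (𝓞 K₀ ⧸ v.asIdeal)
  have hcardv : Fintype.card (𝓞 K₀ ⧸ v.asIdeal) = Ideal.absNorm v.asIdeal := by
    rw [← Nat.card_eq_fintype_card]
    rfl
  obtain ⟨φ, hφ⟩ : ∃ φ : (𝓞 K₀ ⧸ v.asIdeal) →+* (𝓞 K ⧸ w.asIdeal), ∀ z : 𝓞 K₀,
      φ (Ideal.Quotient.mk v.asIdeal z) = Ideal.Quotient.mk w.asIdeal (algebraMap (𝓞 K₀) (𝓞 K) z) := by
    refine ⟨Ideal.quotientMap w.asIdeal (algebraMap (𝓞 K₀) (𝓞 K)) (by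
      rw [hv0, Ideal.under_def]), fun z => ?_⟩
    rw [Ideal.quotientMap_mk]
  have hqq : 1 < Ideal.absNorm v.asIdeal := by
    rw [← hcardv]
    exact Fintype.one_lt_card
  have key := rb2_roots φ (fun x => by rw [← hcardv]; exact FiniteField.pow_card x)
    (by rw [hcardv]) hqq
  apply ha₀
  have h1 : (Ideal.Quotient.mk w.asIdeal (algebraMap (𝓞 F) (𝓞 K) a₀)) ^ (Ideal.absNorm v.asIdeal) =
      Ideal.Quotient.mk w.asIdeal (algebraMap (𝓞 F) (𝓞 K) a₀) := by
    rw [← sub_eq_zero, ← map_pow, ← map_pow, ← map_sub, ← map_sub, Ideal.Quotient.eq_zero_iff_mem,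
      ← hPm, ← hq]
    exact hpow2 m a₀
  obtain ⟨z, hz⟩ := key _ h1
  obtain ⟨z, rfl⟩ := Ideal.Quotient.mk_surjective z
  rw [hφ, Ideal.Quotient.eq] at hz
  have h2 := (hwT _).2 hz
  rw [map_sub, hTK, hTF] at h2
  rw [hPm]
  have h3 := w.asIdeal.sub_mem h2 hz
  rw [map_sub]
  have e : algebraMap (𝓞 F) (𝓞 K) a₀ - algebraMap (𝓞 F) (𝓞 K) (cj a₀) =
    (algebraMap (𝓞 K₀) (𝓞 K) z - algebraMap (𝓞 F) (𝓞 K) (cj a₀)) -
      (algebraMap (𝓞 K₀) (𝓞 K) z - algebraMap (𝓞 F) (𝓞 K) a₀) := by ring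
  rw [e]
  exact h3

end H55K.TQ
end

-- from Lib.H55K.RP2
section

/-! # H55K: the field generated by F over a field K -/

open NumberField IsDedekindDomain WeierstrassCurve

namespace H55K.TQ

open H55P (IQ embF eF LF Per IsHecke Pt ac Inert Dec Nm UnitP)
open H35P (WAB Ker tt GoodW IntW)
open H55K.MG (VC Crd)

variable (F : Type) [Field F] [NumberField F] [IQ F] {Ω : Type} [Field Ω] [Algebra F Ω] [Algebra ℚ Ω] [IsScalarTower ℚ F Ω]

theorem rp2_lift (K : Type) [Field K] [NumberField K] (ι : K →ₐ[ℚ] Ω)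
    (hg : ∀ y, algebraMap F Ω y ∈ ι.fieldRange) : ∃ f : F →+* K, ∀ y, ι (f y) = algebraMap F Ω y := by
  let e0 : K →+* ι.fieldRange :=
    { toFun := fun x => ⟨ι x, ⟨x, rfl⟩⟩
      map_one' := Subtype.ext (map_one ι)
      map_mul' := fun x y => Subtype.ext (map_mul ι x y)
      map_zero' := Subtype.ext (map_zero ι)
      map_add' := fun x y => Subtype.ext (map_add ι x y) }
  have hs : Function.Surjective e0 := by
    rintro ⟨_, y, rfl⟩
    exact ⟨y, rfl⟩
  let e : K ≃+* ι.fieldRange := RingEquiv.ofBijective e0 ⟨e0.injective, hs⟩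
  let g' : F →+* ι.fieldRange := (algebraMap F Ω).codRestrict ι.fieldRange hg
  refine ⟨(e.symm : ι.fieldRange →+* K).comp g', fun y => ?_⟩
  have h1 : e (e.symm (g' y)) = g' y := e.apply_symm_apply _
  exact congrArg Subtype.val h1

omit [Algebra ℚ Ω] [IsScalarTower ℚ F Ω] [Algebra F Ω] [Field Ω] in
theorem rp2_span (z : F) (hz : ∀ q : ℚ, z ≠ (q : F)) (y : F) : ∃ c d : ℚ, y = c + d * z := by
  have hli : LinearIndependent ℚ ![(1 : F), z] := by
    rw [LinearIndependent.pair_iff]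
    intro s t h
    rw [Rat.smul_def, Rat.smul_def, mul_one] at h
    by_cases ht : t = 0
    · rw [ht, Rat.cast_zero, zero_mul, add_zero] at h
      exact ⟨by exact_mod_cast h, ht⟩
    · exfalso
      apply hz (-s / t)
      have ht' : (t : F) ≠ 0 := by exact_mod_cast ht
      push_cast
      field_simp
      linear_combination h
  have hc : Fintype.card (Fin 2) = Module.finrank ℚ F := by
    rw [Fintype.card_fin, IQ.deg]
  have hB := (basisOfLinearIndependentOfCardEqFinrank hli hc).sum_repr y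
  rw [Fin.sum_univ_two, coe_basisOfLinearIndependentOfCardEqFinrank] at hB
  refine ⟨(basisOfLinearIndependentOfCardEqFinrank hli hc).repr y 0,
    (basisOfLinearIndependentOfCardEqFinrank hli hc).repr y 1, ?_⟩
  conv_lhs => rw [← hB]
  rw [Rat.smul_def, Rat.smul_def]
  simp

theorem rp2_ind (K : Type) [Field K] [NumberField K] (ι : K →ₐ[ℚ] Ω) (z : F)
    (hz : algebraMap F Ω z ∉ ι.fieldRange) (u v : K) (h : ι u + ι v * algebraMap F Ω z = 0) :
    u = 0 ∧ v = 0 := by
  by_cases hv : v = 0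
  · rw [hv, map_zero, zero_mul, add_zero] at h
    exact ⟨(map_eq_zero ι).1 h, hv⟩
  · exfalso
    apply hz
    refine ⟨-u / v, ?_⟩
    have hv' : ι v ≠ 0 := fun h0 => hv ((map_eq_zero ι).1 h0)
    change ι (-u / v) = _
    rw [map_div₀, map_neg]
    field_simp
    linear_combination -h

theorem rp2_car (K : Type) [Field K] [NumberField K] (ι : K →ₐ[ℚ] Ω) (z : F)
    (hz : algebraMap F Ω z ∉ ι.fieldRange) (b a : ℚ) (hspan : ∀ y : F, ∃ c d : ℚ, y = c + d * z)
    (hZ : (algebraMap F Ω z) ^ 2 = ι (b : K) + ι (a : K) * algebraMap F Ω z) (x : Ω) (hx : x ∈ KG F K ι) :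
    ∃ u v : K, x = ι u + ι v * algebraMap F Ω z := by
  refine IntermediateField.adjoin_induction F
    (p := fun x _ => ∃ u v : K, x = ι u + ι v * algebraMap F Ω z) ?_ ?_ ?_ ?_ ?_ hx
  · rintro _ ⟨y, rfl⟩
    exact ⟨y, 0, by rw [map_zero, zero_mul, add_zero]⟩
  · intro y
    obtain ⟨c, d, rfl⟩ := hspan y
    refine ⟨(c : K), (d : K), ?_⟩
    rw [map_add, map_mul, map_ratCast, map_ratCast, map_ratCast, map_ratCast]
  · rintro x y _ _ ⟨u, v, rfl⟩ ⟨u', v', rfl⟩
    exact ⟨u + u', v + v', by rw [map_add, map_add]; ring⟩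
  · rintro x _ ⟨u, v, rfl⟩
    by_cases h0 : ι u + ι v * algebraMap F Ω z = 0
    · refine ⟨0, 0, ?_⟩
      rw [h0, inv_zero, map_zero, zero_mul, add_zero]
    · -- the norm
      have hN : (ι u + ι v * algebraMap F Ω z) * (ι (u + v * a) - ι v * algebraMap F Ω z) =
          ι (u ^ 2 + u * v * a - v ^ 2 * b) := by
        simp only [map_add, map_sub, map_mul, map_pow]
        linear_combination -(ι v ^ 2) * hZ
      have hN0 : ι (u ^ 2 + u * v * a - v ^ 2 * b) ≠ 0 := by
        rw [← hN]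
        intro h1
        rcases mul_eq_zero.1 h1 with h2 | h2
        · exact h0 h2
        · have h3 := rp2_ind F K ι z hz (u + v * a) (-v) (by rw [map_neg]; linear_combination h2)
          have h4 : v = 0 := neg_eq_zero.1 h3.2
          have h5 := h3.1
          rw [h4, zero_mul, add_zero] at h5
          apply h0
          rw [h4, h5, map_zero, zero_mul, add_zero]
      refine ⟨(u + v * a) / (u ^ 2 + u * v * a - v ^ 2 * b), -v / (u ^ 2 + u * v * a - v ^ 2 * b), ?_⟩
      rw [map_div₀, map_div₀, map_neg, ← hN]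
      have h6 : ι (u + v * a) - ι v * algebraMap F Ω z ≠ 0 := by
        intro h7
        rw [h7, mul_zero] at hN
        exact hN0 hN.symm
      field_simp
      ring
  · rintro x y _ _ ⟨u, v, rfl⟩ ⟨u', v', rfl⟩
    refine ⟨u * u' + v * v' * b, u * v' + v * u' + v * v' * a, ?_⟩
    simp only [map_add, map_mul]
    linear_combination (ι v * ι v') * hZ

/-- Chunk RP2 (M). Either the image of F is contained in the range of ι: then f is the composite with the inverse (H55P.pz14_lift in Z14.lean); or some element z of F is not mapped into the range of ι. F = ℚ + ℚ z, z satisfies x^2 - t x + n = 0 over ℚ, which has no root in K (the roots in Ω are z and its conjugate, t - z). So KG is ι K + ι K z, of dimension 2 over K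
(port of H55P.kf_quad; KG is generated by z over ι K). The automorphism: τ(a + b z) = a + b (t - z) (for example: KG/K is Galois of degree 2, τ the nontrivial element; it maps z to the other root t - z, which is the image of the conjugate of z; so it is the conjugation on F; e_cj for elements of 𝓞 F: the nontrivial automorphism of F/ℚ maps x to cj x (exists_cj, d1_sigma in D1.lean)). -/
theorem kg_dich (K : Type) [Field K] [NumberField K] (ι : K →ₐ[ℚ] Ω) [NumberField (KG F K ι)] :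
    (∃ f : F →+* K, ∀ y : F, ι (f y) = algebraMap F Ω y) ∨
      (letI : Algebra K (KG F K ι) := (KGmap F K ι).toAlgebra
       QuadG F K (KG F K ι)) := by
  classical
  by_cases h : ∀ y : F, algebraMap F Ω y ∈ ι.fieldRange
  · exact Or.inl (rp2_lift F K ι h)
  · right
    push Not at h
    obtain ⟨z, hz⟩ := h
    letI : Algebra K (KG F K ι) := (KGmap F K ι).toAlgebra
    have hrat : ∀ q : ℚ, algebraMap F Ω (q : F) = ι (q : K) := by
      intro q
      rw [map_ratCast, map_ratCast]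
    have hzq : ∀ q : ℚ, z ≠ (q : F) := by
      rintro q rfl
      exact hz ⟨(q : K), (hrat q).symm⟩
    have hspan := rp2_span F z hzq
    obtain ⟨b, a, hab⟩ := hspan (z ^ 2)
    obtain ⟨σ, hσ⟩ := H55K.d1_sigma F
    have hσr : ∀ q : ℚ, σ (q : F) = q := fun q => map_ratCast σ q
    have hσz : σ z = a - z := by
      have h1 : (σ z) ^ 2 = b + a * σ z := by
        have h0 := congrArg σ hab
        rwa [map_pow, map_add, map_mul, hσr, hσr] at h0
      have h2 : (σ z - z) * (σ z + z - a) = 0 := by linear_combination h1 - hab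
      rcases mul_eq_zero.1 h2 with h3 | h3
      · exfalso
        obtain ⟨x, hx⟩ := IQ.im (F := F)
        obtain ⟨c, d, rfl⟩ := hspan x
        apply hx
        have h4 := hσ (c + d * z)
        rw [map_add, map_mul, hσr, hσr, sub_eq_zero.1 h3] at h4
        exact Complex.conj_eq_iff_im.1 h4.symm
      · linear_combination h3
    -- the conjugation on the integers
    have hcj : ∀ x : 𝓞 F, σ (x : F) = ((cj x : 𝓞 F) : F) := by
      intro x
      apply (embF F).injective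
      rw [hσ]
      exact (e_cj x).symm
    -- elements of KG
    have hZ : (algebraMap F Ω z) ^ 2 = ι (b : K) + ι (a : K) * algebraMap F Ω z := by
      have h0 := congrArg (algebraMap F Ω) hab
      rwa [map_pow, map_add, map_mul, hrat, hrat] at h0
    have hcar := rp2_car F K ι z hz b a hspan hZ
    obtain ⟨Z, hZdef⟩ : ∃ Z : KG F K ι, Z = algebraMap F (KG F K ι) z := ⟨_, rfl⟩
    have hZc : (Z : Ω) = algebraMap F Ω z := by
      rw [hZdef]
      rfl
    have hac : ∀ u : K, ((algebraMap K (KG F K ι) u : KG F K ι) : Ω) = ι u := fun u => rfl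
    have hcar' : ∀ x : KG F K ι, ∃ u v : K, x = algebraMap K (KG F K ι) u + algebraMap K (KG F K ι) v * Z := by
      rintro ⟨x, hx⟩
      obtain ⟨u, v, huv⟩ := hcar x hx
      refine ⟨u, v, Subtype.ext ?_⟩
      show x = ι u + ι v * (Z : Ω)
      rw [hZc]
      exact huv
    have hind : ∀ u v : K, algebraMap K (KG F K ι) u + algebraMap K (KG F K ι) v * Z = 0 → u = 0 ∧ v = 0 := by
      intro u v h0
      have h1 : ι u + ι v * algebraMap F Ω z = 0 := by
        have h2 := congrArg Subtype.val h0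
        rw [← hZc]
        exact h2
      exact rp2_ind F K ι z hz u v h1
    have hrank : Module.finrank K (KG F K ι) = 2 := by
      let f : (K × K) →ₗ[K] KG F K ι := LinearMap.coprod (LinearMap.toSpanSingleton K (KG F K ι) 1)
        (LinearMap.toSpanSingleton K (KG F K ι) Z)
      have hf : ∀ p : K × K, f p = algebraMap K (KG F K ι) p.1 + algebraMap K (KG F K ι) p.2 * Z := by
        intro p
        rw [LinearMap.coprod_apply, LinearMap.toSpanSingleton_apply, LinearMap.toSpanSingleton_apply,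
          Algebra.smul_def, Algebra.smul_def, mul_one]
      have hinj : Function.Injective f := by
        rw [injective_iff_map_eq_zero]
        intro p hp
        rw [hf] at hp
        have h1 := hind _ _ hp
        exact Prod.ext h1.1 h1.2
      have hsurj : Function.Surjective f := by
        intro x
        obtain ⟨u, v, huv⟩ := hcar' x
        exact ⟨(u, v), by rw [hf]; exact huv.symm⟩
      have h1 := LinearEquiv.finrank_eq (LinearEquiv.ofBijective f ⟨hinj, hsurj⟩)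
      rw [← h1, Module.finrank_prod, Module.finrank_self]
    refine ⟨hrank, ?_⟩
    have hq : Algebra.IsQuadraticExtension K (KG F K ι) := ⟨hrank⟩
    have hfd : FiniteDimensional K (KG F K ι) := Module.finite_of_finrank_pos (by rw [hrank]; norm_num)
    have hG : IsGalois K (KG F K ι) := inferInstance
    have hc : Nat.card (KG F K ι ≃ₐ[K] KG F K ι) = 2 := by
      rw [IsGalois.card_aut_eq_finrank, hrank]
    have hn : Nontrivial (KG F K ι ≃ₐ[K] KG F K ι) := Finite.one_lt_card_iff_nontrivial.1 (by rw [hc]; norm_num)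
    obtain ⟨τ, hτ⟩ := exists_ne (1 : KG F K ι ≃ₐ[K] KG F K ι)
    have hτr : ∀ q : ℚ, τ (q : KG F K ι) = q := fun q => map_ratCast τ q
    have hZ2 : Z ^ 2 = b + a * Z := by
      have h0 := congrArg (algebraMap F (KG F K ι)) hab
      rw [map_pow, map_add, map_mul, map_ratCast, map_ratCast, ← hZdef] at h0
      exact h0
    have hτz : τ Z = a - Z := by
      have h1 : (τ Z) ^ 2 = b + a * τ Z := by
        have h0 := congrArg τ hZ2
        rwa [map_pow, map_add, map_mul, hτr, hτr] at h0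
      have h2 : (τ Z - Z) * (τ Z + Z - a) = 0 := by linear_combination h1 - hZ2
      rcases mul_eq_zero.1 h2 with h3 | h3
      · exfalso
        apply hτ
        ext x
        obtain ⟨u, v, rfl⟩ := hcar' x
        rw [AlgEquiv.one_apply, map_add, map_mul, AlgEquiv.commutes, AlgEquiv.commutes, sub_eq_zero.1 h3]
      · linear_combination h3
    refine ⟨τ, fun x => ?_⟩
    rw [← hcj]
    obtain ⟨c, d, hcd⟩ := hspan (x : F)
    rw [hcd]
    rw [map_add, map_mul, map_ratCast, map_ratCast, ← hZdef, map_add, map_mul, hτr, hτr, hτz,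
      map_add, map_mul, hσr, hσr, hσz, map_add, map_mul, map_sub, map_ratCast, map_ratCast, map_ratCast, ← hZdef]

end H55K.TQ
end
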