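import Mathlib
import Pool.Agent.Lib.H1M.PP2.D_H55P_Stm
import Pool.Agent.Lib.H1M.PP2.M010
import Pool.Agent.Lib.H1M.PP2.M016
import Pool.Agent.Lib.H1M.PP2.M019
import Pool.Agent.Lib.H1M.PP2.M020
import Pool.Agent.Lib.H1M.PP2.M021
import Pool.Agent.Lib.H1M.PP2.M031
import Pool.Agent.Lib.H1M.PP2.M039
import Pool.Agent.Lib.H1M.PP2.M040
import Pool.Agent.Lib.H1M.PP2.M046
import Pool.Agent.Lib.H1M.PP2.M048
import Pool.Agent.Lib.H1M.PP2.M049

/-! Merged copies (to shorten the build) of Lib.H13S.EXV, Lib.H13S.KU1, Lib.H13Z.Defs, Lib.H55K.A.D3, Lib.H55P.Z11, Lib.H55P.Z12, Lib.H35P.EVp, Lib.H55P.E8, Lib.H55P.L4, Lib.H28G.GA0, Lib.H28G.GA1, Lib.H28G.GA2, Lib.H28G.GA3, Lib.H28G.GA4, Lib.H28G.GB1, Lib.H28G.GB3, Lib.H28G.GB4, Lib.H28G.GB6, Lib.H28G.GB5, Lib.H28G.GC1, Lib.H28G.GC2, Lib.H13S.GI0, Lib.H28G.GD1, Lib.H28G.GV1, Lib.H28G.GV5, Lib.H28G.GV2, Lib.H28G.GV3, Lib.H28G.GV6, Lib.H28G.GV7, Lib.H13S.GIA. -/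

-- from Lib.H13S.EXV
section

open NumberField IsDedekindDomain

namespace H13S

/-- Chunk EXV (S/M). Extension of valuation rings. The valuation ring of w in K is a local subring of Ω (map it); a maximal local subring
dominating it is a valuation ring (LocalSubring.exists_le_valuationSubring or similar in
Mathlib.RingTheory.LocalRing.LocalSubring / Valuation.LocalSubring); its intersection with K is a valuation ring of K dominating, hence
equal to, the valuation ring of w (a discrete valuation ring is a maximal proper subring; or: valuation rings are maximal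
for domination). -/
theorem exists_above {F₀ : Type} [Field F₀] {Ω : Type} [Field Ω] [Algebra F₀ Ω]
    (K : IntermediateField F₀ Ω) [NumberField K] (w : HeightOneSpectrum (𝓞 K)) :
    ∃ V : ValuationSubring Ω, Abv K V w := by
  let A : ValuationSubring K := (w.valuation K).valuationSubring
  let f : K →+* Ω := algebraMap K Ω
  obtain ⟨V, hV⟩ := (A.toLocalSubring.map f).exists_le_valuationSubring
  obtain ⟨h1, h2⟩ := LocalSubring.le_def.1 hV
  refine ⟨V, fun x => ⟨fun hx => ?_, fun hx => ?_⟩⟩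
  · by_contra hc
    have hx0 : x ≠ 0 := by
      rintro rfl
      exact hc (by rw [map_zero]; exact zero_le_one)
    have hi : w.valuation K x⁻¹ ≤ 1 := by
      rw [map_inv₀]
      exact inv_le_one_of_one_le₀ (not_le.1 hc).le
    have hA : x⁻¹ ∈ A.toSubring := (Valuation.mem_valuationSubring_iff _ _).2 hi
    have hm : f x⁻¹ ∈ (A.toLocalSubring.map f).toSubring := ⟨x⁻¹, hA, rfl⟩
    have hu : IsUnit (Subring.inclusion h1 ⟨f x⁻¹, hm⟩) := by
      refine isUnit_iff_exists_inv.2 ⟨⟨(x : Ω), hx⟩, Subtype.ext ?_⟩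
      show f x⁻¹ * f x = 1
      rw [← map_mul, inv_mul_cancel₀ hx0, map_one]
    obtain ⟨⟨b, hb⟩, hb1⟩ := isUnit_iff_exists_inv.1 (h2.map_nonunit _ hu)
    obtain ⟨z, hz, rfl⟩ := hb
    have h3 : f (x⁻¹ * z) = f 1 := by
      rw [map_mul, map_one]
      exact congrArg Subtype.val hb1
    have h4 : x⁻¹ * z = 1 := f.injective h3
    have h5 : z = x := by
      rw [inv_mul_eq_iff_eq_mul₀ hx0, mul_one] at h4
      exact h4
    rw [h5] at hz
    exact hc ((Valuation.mem_valuationSubring_iff _ _).1 hz)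
  · exact h1 ⟨x, (Valuation.mem_valuationSubring_iff _ _).2 hx, rfl⟩

end H13S
end

-- from Lib.H13S.KU1
section

open NumberField IsDedekindDomain

namespace H13S

open H55P H28G H55B

/-- Hilbert 90 for a cocycle which is trivial on the automorphisms fixing a finite set. -/
theorem ku1_h90 {k Ω : Type} [Field k] [Field Ω] [Algebra k Ω] [Normal k Ω]
    (u : (Ω ≃ₐ[k] Ω) → Ω) (hu0 : ∀ s, u s ≠ 0) (hcoc : ∀ s t, u (s * t) = u s * s (u t))
    (S : Set Ω) [Finite S] (hS1 : ∀ s, u s ∈ S)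
    (hS2 : ∀ n : Ω ≃ₐ[k] Ω, (∀ x ∈ S, n x = x) → u n = 1) :
    ∃ y : Ω, y ≠ 0 ∧ ∀ s : Ω ≃ₐ[k] Ω, s y = u s * y := by
  classical
  have hfin : FiniteDimensional k (IntermediateField.adjoin k S) :=
    IntermediateField.finiteDimensional_adjoin fun x _ => Normal.isIntegral inferInstance x
  let N : IntermediateField k Ω :=
    IntermediateField.normalClosure k (IntermediateField.adjoin k S) Ω
  have hNn : Normal k N := normalClosure.normal k (IntermediateField.adjoin k S) Ω
  have hNf : FiniteDimensional k N := normalClosure.is_finiteDimensional k (IntermediateField.adjoin k S) Ω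
  have hSN : ∀ x ∈ S, x ∈ N := fun x hx =>
    (IntermediateField.le_normalClosure (IntermediateField.adjoin k S))
      (IntermediateField.subset_adjoin k S hx)
  have hres : ∀ (s : Ω ≃ₐ[k] Ω) (x : N), ((AlgEquiv.restrictNormalHom N s x : N) : Ω) = s x :=
    fun s x => s.restrictNormal_commutes N x
  have hsur := AlgEquiv.restrictNormalHom_surjective (F := k) (K₁ := N) Ω
  choose g hg using hsur
  -- u depends only on the restriction
  have hdep : ∀ s t : Ω ≃ₐ[k] Ω, AlgEquiv.restrictNormalHom N s = AlgEquiv.restrictNormalHom N t →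
      u s = u t := by
    intro s t hst
    have h1 : u (t⁻¹ * s) = 1 := by
      apply hS2
      intro x hx
      have h2 : AlgEquiv.restrictNormalHom N (t⁻¹ * s) = 1 := by
        rw [map_mul, map_inv, hst, inv_mul_cancel]
      have h3 := hres (t⁻¹ * s) ⟨x, hSN x hx⟩
      rw [h2] at h3
      exact h3.symm
    have h2 := hcoc t (t⁻¹ * s)
    rw [h1, map_one, mul_one, mul_inv_cancel_left] at h2
    exact h2
  let f : (N ≃ₐ[k] N) → Nˣ := fun σ => Units.mk0 ⟨u (g σ), hSN _ (hS1 _)⟩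
    (fun h => hu0 (g σ) (congrArg Subtype.val h))
  have hf : groupCohomology.IsMulCocycle₁ f := by
    intro σ τ
    apply Units.ext
    apply Subtype.ext
    show u (g (σ * τ)) = ((σ ⟨u (g τ), hSN _ (hS1 _)⟩ : N) : Ω) * u (g σ)
    rw [hdep (g (σ * τ)) (g σ * g τ) (by rw [hg, map_mul, hg, hg]), hcoc, mul_comm]
    congr 1
    have h1 := hres (g σ) ⟨u (g τ), hSN _ (hS1 _)⟩
    rw [hg] at h1
    exact h1.symm
  obtain ⟨β, hβ⟩ := groupCohomology.isMulCoboundary₁_of_isMulCocycle₁_of_aut_to_units f hf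
  refine ⟨((β : N) : Ω), ?_, fun s => ?_⟩
  · intro h
    exact β.ne_zero (Subtype.ext h)
  · have h1 := hβ (AlgEquiv.restrictNormalHom N s)
    rw [div_eq_iff_eq_mul] at h1
    have h2 : (((AlgEquiv.restrictNormalHom N s) • β : Nˣ) : N) = AlgEquiv.restrictNormalHom N s (β : N) := rfl
    have h3 := congrArg (fun z : Nˣ => ((z : N) : Ω)) h1
    simp only [h2] at h3
    rw [hres] at h3
    rw [h3]
    show u (g (AlgEquiv.restrictNormalHom N s)) * ((β : N) : Ω) = _
    rw [hdep (g (AlgEquiv.restrictNormalHom N s)) s (hg _)]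

variable {Ω : Type} [Field Ω] [DecidableEq Ω] [Algebra F Ω] [IsAlgClosure F Ω]

/-- Chunk KU1 (M). Kummer generators by Hilbert 90. E₁ = the field of C.cont; zeta = a primitive l-th root of unity; N = normal closure over F of the compositum of
E₁, L, F(zeta): finite Galois over F, N ≥ L. For n in N.fixingSubgroup: c n = 0; so c (s n) = c s. For s in L.fixingSubgroup put u s = e (c s) T: an l-th root of
unity (he.root, C.val), in N. u (s t) = e (c s + ac s (c t)) T = u s * e (ac s (c t)) (ac s T) = u s * s (u t), because ac s T = T (IsTF), he.add_left, he.act. So u induces a multiplicative 1-cocycle of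
Gal(N/L) (elements of Gal(N/L) lift to L.fixingSubgroup, u does not depend on the lift) with values in N^*. Hilbert 90
(groupCohomology.isMulCoboundary₁_of_isMulCocycle₁_of_aut_to_units, or Dedekind independence by hand) gives y in N^* with s y = u s * y. -/
theorem exists_kum {π : O} {l : ℕ} {c : (Ω ≃ₐ[F] Ω) → P27 Ω} (C : Cl π l c) {e : P27 Ω → P27 Ω → Ω}
    (he : Pairing π l e) {L : IntermediateField F Ω} (hL : IsTF π L) {T : P27 Ω} (hT : T ∈ Tor π Ω) :
    ∃ y : Ω, Kum L e c T y := by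
  classical
  obtain ⟨E₁, hE₁, hc₁⟩ := C.cont
  have hNF : Normal F Ω := IsAlgClosure.normal F Ω
  have hNL : Normal L Ω := Normal.tower_top_of_normal F L Ω
  let b := Module.finBasis F E₁
  let S : Set Ω := Set.range (fun i => ((b i : E₁) : Ω)) ∪ {x : Ω | x ^ l = 1}
  have hl0 : 0 < l := C.hl.pos
  have hfr : {x : Ω | x ^ l = 1}.Finite := by
    have h1 := (Polynomial.nthRoots l (1 : Ω)).toFinset.finite_toSet
    refine h1.subset fun x hx => ?_
    rw [Finset.mem_coe, Multiset.mem_toFinset, Polynomial.mem_nthRoots hl0]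
    exact hx
  have hSf : Finite S := ((Set.finite_range _).union hfr).to_subtype
  -- the inclusion of the automorphism groups
  have hmem : ∀ s : Ω ≃ₐ[L] Ω, s.restrictScalars F ∈ L.fixingSubgroup := by
    intro s
    rw [IntermediateField.mem_fixingSubgroup_iff]
    intro x hx
    exact s.commutes ⟨x, hx⟩
  have hacT : ∀ s : Ω ≃ₐ[L] Ω, ac W27 (s.restrictScalars F) T = T := fun s =>
    (hL.2 _).1 (hmem s) T hT
  have h0 : ∀ s : Ω ≃ₐ[L] Ω, e (c (s.restrictScalars F)) T ≠ 0 := by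
    intro s h0
    have h1 := he.root _ (C.val (s.restrictScalars F)) T hT
    rw [h0, zero_pow hl0.ne'] at h1
    exact zero_ne_one h1
  have hcoc : ∀ s t : Ω ≃ₐ[L] Ω, e (c ((s * t).restrictScalars F)) T =
      e (c (s.restrictScalars F)) T * s (e (c (t.restrictScalars F)) T) := by
    intro s t
    have h1 : (s * t).restrictScalars F = s.restrictScalars F * t.restrictScalars F := rfl
    rw [h1, C.mul, he.add_left _ (C.val _) _ (ac_mem _ (C.val _)) T hT]
    congr 1
    have h2 := he.act (s.restrictScalars F) _ (C.val (t.restrictScalars F)) T hT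
    rw [hacT] at h2
    exact h2.symm
  have htriv : ∀ n : Ω ≃ₐ[L] Ω, (∀ x ∈ S, n x = x) → e (c (n.restrictScalars F)) T = 1 := by
    intro n hn
    have h1 : n.restrictScalars F ∈ E₁.fixingSubgroup := by
      rw [IntermediateField.mem_fixingSubgroup_iff]
      intro x hx
      have h2 := b.sum_repr ⟨x, hx⟩
      have h3 : x = ∑ i, (b.repr ⟨x, hx⟩ i) • ((b i : E₁) : Ω) := by
        have h4 := congrArg (fun z : E₁ => (z : Ω)) h2
        refine h4.symm.trans ?_
        push_cast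
        rfl
      rw [h3, map_sum]
      refine Finset.sum_congr rfl fun i _ => ?_
      rw [map_smul]
      congr 1
      exact hn _ (Or.inl ⟨i, rfl⟩)
    have h2 := hc₁ _ h1
    rw [h2]
    have h3 := he.add_left 0 (zero_mem _) 0 (zero_mem _) T hT
    rw [add_zero] at h3
    have h4 := he.root 0 (zero_mem _) T hT
    have h5 : e 0 T ≠ 0 := by
      intro h0
      rw [h0, zero_pow hl0.ne'] at h4
      exact zero_ne_one h4
    exact (mul_eq_left₀ h5).1 h3.symm
  obtain ⟨y, hy0, hy⟩ := ku1_h90 (k := L) (Ω := Ω) (fun s => e (c (s.restrictScalars F)) T) h0 hcoc S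
    (fun s => Or.inr (he.root _ (C.val _) T hT)) htriv
  refine ⟨y, hy0, fun s hs => ?_⟩
  exact hy (IntermediateField.fixingSubgroupEquiv L ⟨s, hs⟩)

end H13S
end

-- from Lib.H13Z.Defs
section

/-!
# H13Z: definitions

The algebraic half of the exact criterion for every prime l at least 5 (problem MP_f50388): a prime v of F with
l | #E(k_v) that ramifies in a Galois extension K/F of l-power degree gives a nonzero element of the l-Selmer group
of E over K. See PROOF.md.
-/

open NumberField IsDedekindDomain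

namespace H13Z

open H55P H28G H55B H13S

variable {Ω : Type} [Field Ω] [DecidableEq Ω] [Algebra F Ω]

/-- pi is a primary prime element of O above the prime number l at least 5. -/
structure Dat (π : O) (l : ℕ) : Prop where
  hl : l.Prime
  five : 5 ≤ l
  pr : Prime π
  prim : Prim π
  dvd : π ∣ (l : O)

/-- c is a continuous cocycle on the group of B with values in the points killed by the conjugate of pi. -/
structure Cc (π : O) (B : IntermediateField F Ω) (c : (Ω ≃ₐ[F] Ω) → P27 Ω) : Prop where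
  mul : ∀ s ∈ B.fixingSubgroup, ∀ t ∈ B.fixingSubgroup, c (s * t) = c s + ac W27 s (c t)
  cont : ∃ N : IntermediateField F Ω, FiniteDimensional F N ∧
    ∀ s ∈ B.fixingSubgroup, s ∈ N.fixingSubgroup → c s = 0
  val : ∀ s ∈ B.fixingSubgroup, c s ∈ Tor (cj π) Ω

/-- L is the field generated over B by the points killed by pi. -/
structure IsTB (π : O) (B L : IntermediateField F Ω) : Prop where
  fin : FiniteDimensional F L
  le : B ≤ L
  fix : ∀ s : Ω ≃ₐ[F] Ω, s ∈ L.fixingSubgroup ↔ s ∈ B.fixingSubgroup ∧ ∀ T ∈ Tor π Ω, ac W27 s T = T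

theorem fix_bot (s : Ω ≃ₐ[F] Ω) : s ∈ (⊥ : IntermediateField F Ω).fixingSubgroup := by
  rw [IntermediateField.fixingSubgroup_bot]
  exact Subgroup.mem_top s

theorem IsTB.mono {π : O} {B L : IntermediateField F Ω} (h : IsTB π B L) {s : Ω ≃ₐ[F] Ω}
    (hs : s ∈ L.fixingSubgroup) : s ∈ B.fixingSubgroup := ((h.fix s).1 hs).1

theorem Cc.one {π : O} {B : IntermediateField F Ω} {c : (Ω ≃ₐ[F] Ω) → P27 Ω} (h : Cc π B c) : c 1 = 0 := by
  have h1 := h.mul 1 (Subgroup.one_mem _) 1 (Subgroup.one_mem _)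
  rw [mul_one, ac_one] at h1
  exact left_eq_add.mp h1

theorem Cc.inv {π : O} {B : IntermediateField F Ω} {c : (Ω ≃ₐ[F] Ω) → P27 Ω} (h : Cc π B c)
    {s : Ω ≃ₐ[F] Ω} (hs : s ∈ B.fixingSubgroup) : ac W27 s (c s⁻¹) = -c s := by
  have h1 := h.mul s hs s⁻¹ (Subgroup.inv_mem _ hs)
  rw [mul_inv_cancel, h.one] at h1
  exact (neg_eq_of_add_eq_zero_right h1.symm).symm

/-- The cocycle b c, b in O. -/
theorem Cc.act {π : O} {B : IntermediateField F Ω} {c : (Ω ≃ₐ[F] Ω) → P27 Ω} (h : Cc π B c) (b : O) :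
    Cc π B fun s => H28G.act b (c s) := by
  refine ⟨fun s hs t ht => ?_, ?_, fun s hs => ?_⟩
  · rw [h.mul s hs t ht, map_add, ac_act]
  · obtain ⟨N, hN, h1⟩ := h.cont
    refine ⟨N, hN, fun s hs hsN => ?_⟩
    rw [h1 s hs hsN, map_zero]
  · have h1 := h.val s hs
    rw [mem_Tor] at h1 ⊢
    rw [← act_mul, mul_comm, act_mul, h1, map_zero]

end H13Z
end

-- from Lib.H55K.A.D3
section

/-!
Chunk D3 (M). The ray class character of L' defined by θ.
PROOF. Choose v0 with θ v0 ≠ 0 and W0 above v0; f0 = fs L L' v0 divides [L':L] (card_above), so (f0 : k) ≠ 0 (CharP k l, coprime). ρ ≠ 0 (hρ), so there is c : k with ρ(c * (f0 * θ v0)) ≠ 0.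
Let e : ZMod l → ℂˣ be the additive character: e(t) = exp(2 π i t/l) (ZMod.toCircle or ZMod.rootsOfUnity..; a monoid hom Multiplicative (ZMod l) → ℂˣ which is injective).
φ0 W = e(ρ(c * (fs L L' v * θ v))), v = W.under (𝓞 L). For x ∈ 𝓞 L' nonzero: pv φ0 (span x) = e(ρ(c * sum_W ord W x * f_W θ(W.under))) = e(ρ(c * sum_v ord v (N x) θ v)) = 1: pv over the prime
factorisation (HC4.pv_elem expresses pv by orders), ord_norm: ord v (nrm x) = fs * sum_{W | v} ord W x, and IsTh.princ for nrm x. So φ0 ∈ RC ⊤ (⊤ ≤ v.asIdeal is impossible), φ = resF f φ0 ∈ RC f (resF_RC, f ≤ ⊤), φ ≠ 1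
by resF_one because φ0 W0 ≠ 1. φ^l = 1 because l • t = 0 in ZMod l. If θ (W.under) = 0 then φ W = e 0 = 1.
-/

open NumberField IsDedekindDomain

namespace H55K.Ab

open H55R

variable {F : Type} [Field F] [NumberField F]

/-- The additive character of ZMod l with values in the units of the complex numbers. -/
private noncomputable def D3_e (l : ℕ) [NeZero l] (t : ZMod l) : ℂˣ :=
  Circle.toUnits (ZMod.toCircle t)

private theorem D3_e_add (l : ℕ) [NeZero l] (a b : ZMod l) : D3_e l (a + b) = D3_e l a * D3_e l b := by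
  unfold D3_e
  rw [AddChar.map_add_eq_mul, map_mul]

private theorem D3_e_zero (l : ℕ) [NeZero l] : D3_e l 0 = 1 := by
  unfold D3_e
  rw [AddChar.map_zero_eq_one, map_one]

private noncomputable def D3_hom (l : ℕ) [NeZero l] : Multiplicative (ZMod l) →* ℂˣ where
  toFun t := D3_e l t.toAdd
  map_one' := D3_e_zero l
  map_mul' a b := D3_e_add l a.toAdd b.toAdd

private theorem D3_e_zsmul (l : ℕ) [NeZero l] (n : ℤ) (a : ZMod l) : D3_e l (n • a) = D3_e l a ^ n :=
  map_zpow (D3_hom l) (Multiplicative.ofAdd a) n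

private theorem D3_e_sum (l : ℕ) [NeZero l] {ι : Type} (s : Finset ι) (f : ι → ZMod l) :
    D3_e l (∑ i ∈ s, f i) = ∏ i ∈ s, D3_e l (f i) := by
  classical
  induction s using Finset.induction_on with
  | empty => rw [Finset.sum_empty, Finset.prod_empty, D3_e_zero]
  | insert a s ha ih => rw [Finset.sum_insert ha, Finset.prod_insert ha, D3_e_add, ih]

private theorem D3_zpow {ι : Type} (s : Finset ι) (f : ι → ℤ) (a : ℂˣ) :
    ∏ i ∈ s, a ^ f i = a ^ ∑ i ∈ s, f i := by
  classical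
  induction s using Finset.induction_on with
  | empty => rw [Finset.sum_empty, Finset.prod_empty, zpow_zero]
  | insert a s ha ih => rw [Finset.sum_insert ha, Finset.prod_insert ha, zpow_add, ih]

private theorem D3_e_inj (l : ℕ) [NeZero l] {t : ZMod l} (h : D3_e l t = 1) : t = 0 := by
  apply ZMod.injective_toCircle
  rw [AddChar.map_zero_eq_one]
  have h1 : ((D3_e l t : ℂˣ) : ℂ) = 1 := by rw [h]; rfl
  apply Subtype.ext
  exact h1

theorem theta_char {L L' : Type} [Field L] [NumberField L] [Algebra F L] [Field L']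
    [NumberField L'] [Algebra L L'] [IsGalois L L'] {l : ℕ} [Fact l.Prime]
    (hc : (Module.finrank L L').Coprime l) {k : Type} [Field k] [CharP k l]
    {χ : Gal(L/F) →* kˣ} (ρ : k →+ ZMod l) (hρ : ρ ≠ 0) {θ : Pl L → k} (hθ : IsTh χ θ)
    (h0 : ∃ v, θ v ≠ 0) (f : Ideal (𝓞 L')) (hf : f ≠ ⊥) :
    ∃ φ ∈ RC f, φ ≠ 1 ∧ φ ^ l = 1 ∧ ∀ W : Pl L', θ (W.under (𝓞 L)) = 0 → φ W = 1 := by
  classical
  have hl : l.Prime := Fact.out
  have : NeZero l := ⟨hl.ne_zero⟩
  obtain ⟨v0, hv0⟩ := h0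
  obtain ⟨W0, hW0⟩ := under_exists (L := L') v0
  have hf0 : ((fs L L' v0 : ℕ) : k) ≠ 0 := by
    intro h
    rw [CharP.cast_eq_zero_iff k l] at h
    have h1 := card_above v0 (above_finite (L := L') v0).toFinset (fun W => by simp)
    have h2 : l ∣ Module.finrank L L' := by
      rw [← h1]
      exact Dvd.dvd.mul_left (Dvd.dvd.mul_left h _) _
    have h3 : l ∣ 1 := by
      have := Nat.dvd_gcd h2 (dvd_refl l)
      rwa [hc] at this
    exact hl.one_lt.ne' (Nat.dvd_one.1 h3)
  obtain ⟨a, ha⟩ : ∃ a, ρ a ≠ 0 := by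
    by_contra hne
    push Not at hne
    exact hρ (AddMonoidHom.ext hne)
  obtain ⟨c, hcc⟩ : ∃ c : k, c * ((fs L L' v0 : ℕ) * θ v0) = a :=
    ⟨a / ((fs L L' v0 : ℕ) * θ v0), div_mul_cancel₀ _ (mul_ne_zero hf0 hv0)⟩
  let φ0 : Pl L' → ℂˣ := fun W =>
    D3_e l (ρ (c * ((fs L L' (W.under (𝓞 L)) : ℕ) * θ (W.under (𝓞 L)))))
  have hpv : ∀ x : 𝓞 L', x ≠ 0 → pv φ0 (Ideal.span {x}) = 1 := by
    intro x hx
    have hx' : (x : L') ≠ 0 := by
      intro h
      exact hx (RingOfIntegers.ext (by rw [h]; rfl))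
    let y : L'ˣ := Units.mk0 (x : L') hx'
    have hy : (y : L') = x := rfl
    -- primes containing x are finite
    have hfin : {W : Pl L' | x ∈ W.asIdeal}.Finite := by
      have h1 : (Ideal.span {x} : Ideal (𝓞 L')) ≠ 0 := by
        rw [Ne, Ideal.zero_eq_bot, Ideal.span_singleton_eq_bot]
        exact hx
      refine (Ideal.finite_factors h1).subset fun W hW => ?_
      exact Ideal.dvd_span_singleton.2 hW
    let V : Finset (Pl L) := hfin.toFinset.image (fun W => W.under (𝓞 L))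
    let U : Finset (Pl L') := V.biUnion fun v => (above_finite (L := L') v).toFinset
    have hU : ∀ W : Pl L', x ∈ W.asIdeal → W ∈ U := by
      intro W hW
      rw [Finset.mem_biUnion]
      refine ⟨W.under (𝓞 L), ?_, ?_⟩
      · rw [Finset.mem_image]
        exact ⟨W, by simpa using hW, rfl⟩
      · simp
    rw [pv_elem φ0 x y hy U hU, Finset.prod_biUnion]
    swap
    · intro v _ v' _ hne
      rw [Function.onFun, Finset.disjoint_left]
      intro W h1 h2
      simp only [Set.Finite.mem_toFinset, Set.mem_ofPred_eq] at h1 h2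
      exact hne (h1.symm.trans h2)
    have hstep : ∀ v ∈ V, ∏ W ∈ (above_finite (L := L') v).toFinset, φ0 W ^ ord W y =
        D3_e l (ρ (c * ((ord v (nrm L L' y) : k) * θ v))) := by
      intro v _
      have h1 : ∀ W ∈ (above_finite (L := L') v).toFinset, φ0 W ^ ord W y =
          D3_e l (ρ (c * ((fs L L' v : ℕ) * θ v))) ^ ord W y := by
        intro W hW
        simp only [Set.Finite.mem_toFinset, Set.mem_ofPred_eq] at hW
        simp only [φ0]
        rw [hW]
      rw [Finset.prod_congr rfl h1, D3_zpow, ← D3_e_zsmul, ← map_zsmul]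
      congr 2
      rw [ord_norm v (above_finite (L := L') v).toFinset (fun W => by simp) y, zsmul_eq_mul]
      push_cast
      ring
    rw [Finset.prod_congr rfl hstep, ← D3_e_sum, ← map_sum, ← Finset.mul_sum]
    have hsum : ∑ v ∈ V, (ord v (nrm L L' y) : k) * θ v = 0 := by
      have h1 := hθ.princ (nrm L L' y)
      rw [finsum_eq_sum_of_support_subset _ (s := V)] at h1
      · exact h1
      · intro v hv
        rw [Function.mem_support] at hv
        by_contra hvV
        apply hv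
        have h2 : ord v (nrm L L' y) = 0 := by
          rw [ord_norm v (above_finite (L := L') v).toFinset (fun W => by simp) y]
          rw [Finset.sum_eq_zero, mul_zero]
          intro W hW
          simp only [Set.Finite.mem_toFinset, Set.mem_ofPred_eq] at hW
          apply HC4_zero x y hy
          intro hxW
          apply hvV
          simp only [V, Finset.coe_image, Set.mem_image, Finset.mem_coe, Set.Finite.mem_toFinset,
            Set.mem_ofPred_eq]
          exact ⟨W, hxW, hW⟩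
        rw [h2]
        simp
    rw [hsum, mul_zero, map_zero, D3_e_zero]
  have hRC : φ0 ∈ RC (⊤ : Ideal (𝓞 L')) := by
    refine ⟨fun v hv => absurd (top_unique hv) v.isPrime.ne_top, fun x y hx hy _ _ => ?_⟩
    rw [hpv x hx, hpv y hy]
  refine ⟨resF f φ0, resF_RC ⊤ f le_top φ0 hRC, ?_, ?_, ?_⟩
  · intro h
    have h1 := resF_one ⊤ f le_top hf φ0 hRC h
    have h2 := congrFun h1 W0
    simp only [φ0, Pi.one_apply] at h2
    rw [hW0] at h2
    have h3 := D3_e_inj l h2
    rw [hcc] at h3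
    exact ha h3
  · funext W
    rw [Pi.pow_apply, Pi.one_apply]
    unfold resF
    split_ifs with h
    · exact one_pow l
    · have h1 : D3_e l (ρ (c * ((fs L L' (W.under (𝓞 L)) : ℕ) * θ (W.under (𝓞 L))))) ^ (l : ℤ) = 1 := by
        rw [← D3_e_zsmul, zsmul_eq_mul]
        rw [show (((l : ℤ) : ZMod l)) = 0 by simp, zero_mul, D3_e_zero]
      exact_mod_cast h1
  · intro W hW
    unfold resF
    split_ifs with h
    · rfl
    · simp only [φ0]
      rw [hW, mul_zero, mul_zero, map_zero, D3_e_zero]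

end H55K.Ab
end

-- from Lib.H55P.Z11
section

open NumberField IsDedekindDomain WeierstrassCurve

namespace H55P

variable {k F Ω : Type} [Field k] [Field F] [Field Ω] [DecidableEq Ω] [Algebra k F] [Algebra k Ω]
  [Algebra F Ω] [IsScalarTower k F Ω]

/-! Chunk PZ11 (M). Change of the base field and descent for SelZero.
base_iso: W⁄Ω and (W⁄F)⁄Ω are the same curve (WeierstrassCurve.map_map, IsScalarTower.algebraMap_eq); the identity on coordinates (a general lemma: an equality W1 = W2 of curves gives an additive equivalence preserving coordinates: subst; see TR3_act in Lib/H16C/TR3.lean). The action commutes.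
sel_base: c on Gal(Ω/k) for K.restrictScalars k; c' s = φ (c (s.restrictScalars k)) on Gal(Ω/F) for K. Coc: continuity: L/k finite, L' = the field generated by L over F, finite over F. Inert, fixingSubgroup: same condition on functions. SelZero for F gives T'; T = φ⁻¹ T'. Every s in
(K.restrictScalars k).fixingSubgroup fixes the image of F (contained in K), so it is t.restrictScalars k for some t in K.fixingSubgroup (AlgEquiv over F with the same function).
tors_base: the same for the points fixed by the group.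
sel_down: c on K₀, its restriction to K₁ is killed by T: c' = c - (ac W s T - T) is zero on the group of K₁. For s in the group of K₀ and t in the group of K₁: c' (t s) = ac W t (c' s), c' (s t') = c' s with t' = s⁻¹ t s in the group of K₁; so c' s is fixed by the group of K₁, and
p c' s = 0; c' s = 0 by h0. -/

omit [DecidableEq Ω] in
theorem Z11_curve (W : WeierstrassCurve k) : (W⁄F)⁄Ω = W⁄Ω := by
  have h : ((algebraMap F Ω).comp (algebraMap k F)) = algebraMap k Ω :=
    (IsScalarTower.algebraMap_eq k F Ω).symm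
  exact congrArg W.map h

/-- The identity on coordinates for equal curves. -/
noncomputable def z11_cast {W₁ W₂ : WeierstrassCurve Ω} (h : W₁ = W₂) :
    W₁.toAffine.Point ≃+ W₂.toAffine.Point := by
  subst h
  exact AddEquiv.refl _

theorem z11_cast_some {W₁ W₂ : WeierstrassCurve Ω} (h : W₁ = W₂) (x y : Ω)
    (hn : W₁.toAffine.Nonsingular x y) :
    z11_cast h (Affine.Point.some x y hn) = Affine.Point.some x y (h ▸ hn) := by
  subst h
  rfl

theorem base_iso (W : WeierstrassCurve k) : ∃ φ : Pt W Ω ≃+ Pt (W⁄F) Ω,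
    ∀ (s : Ω ≃ₐ[F] Ω) (P : Pt W Ω), φ (ac W (s.restrictScalars k) P) = ac (W⁄F) s (φ P) := by
  refine ⟨z11_cast (Z11_curve (F := F) W).symm, ?_⟩
  intro s P
  rcases P with _ | ⟨x, y, h⟩
  · show z11_cast _ (ac W (s.restrictScalars k) 0) = ac (W⁄F) s (z11_cast _ 0)
    rw [map_zero, map_zero, map_zero]
  · have e1 : ac W (s.restrictScalars k) (Affine.Point.some x y h) = Affine.Point.some (s x) (s y)
        ((Affine.baseChange_nonsingular (W := W.toAffine) (f := (s.restrictScalars k).toAlgHom)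
          (s.restrictScalars k).toAlgHom.injective ..).2 h) := rfl
    rw [e1, z11_cast_some, z11_cast_some]
    rfl

omit [DecidableEq Ω] in
theorem Z11_lift (K : IntermediateField F Ω) (s : Ω ≃ₐ[k] Ω)
    (hs : s ∈ (K.restrictScalars k).fixingSubgroup) :
    ∃ t : Ω ≃ₐ[F] Ω, t.restrictScalars k = s ∧ t ∈ K.fixingSubgroup := by
  rw [IntermediateField.mem_fixingSubgroup_iff] at hs
  have h1 : ∀ x : F, s (algebraMap F Ω x) = algebraMap F Ω x := fun x =>
    hs _ (K.algebraMap_mem x)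
  refine ⟨AlgEquiv.ofRingEquiv (f := (s : Ω ≃+* Ω)) h1, AlgEquiv.ext fun x => rfl, ?_⟩
  rw [IntermediateField.mem_fixingSubgroup_iff]
  exact hs

omit [DecidableEq Ω] in
theorem Z11_mem (K : IntermediateField F Ω) (s : Ω ≃ₐ[F] Ω) (hs : s ∈ K.fixingSubgroup) :
    s.restrictScalars k ∈ (K.restrictScalars k).fixingSubgroup := by
  rw [IntermediateField.mem_fixingSubgroup_iff] at hs ⊢
  exact hs

omit [DecidableEq Ω] in
theorem Z11_field (L : IntermediateField k Ω) [FiniteDimensional k L] :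
    ∃ L' : IntermediateField F Ω, FiniteDimensional F L' ∧
      ∀ g ∈ L'.fixingSubgroup, g.restrictScalars k ∈ L.fixingSubgroup := by
  let b := Module.finBasis k L
  refine ⟨IntermediateField.adjoin F (Set.range fun i => ((b i : L) : Ω)), ?_, ?_⟩
  · refine IntermediateField.finiteDimensional_adjoin fun x hx => ?_
    obtain ⟨i, rfl⟩ := hx
    have h1 : IsIntegral k (b i) := IsIntegral.of_finite k (b i)
    have h2 : IsIntegral k ((b i : L) : Ω) := h1.map L.val
    exact IsIntegral.tower_top (R := k) h2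
  · intro g hg
    rw [IntermediateField.mem_fixingSubgroup_iff] at hg ⊢
    intro x hx
    have h1 := congrArg (algebraMap L Ω) (b.sum_repr ⟨x, hx⟩)
    rw [map_sum] at h1
    have h2 : x = ∑ i, b.repr ⟨x, hx⟩ i • ((b i : L) : Ω) := by
      refine Eq.trans ?_ (h1.symm.trans ?_)
      · rfl
      · rfl
    rw [h2, map_sum]
    refine Finset.sum_congr rfl fun i _ => ?_
    rw [map_smul]
    congr 1
    exact hg _ (IntermediateField.subset_adjoin F _ ⟨i, rfl⟩)

theorem sel_base [FiniteDimensional k F] (W : WeierstrassCurve k) (p : ℕ) (K : IntermediateField F Ω)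
    [FiniteDimensional F K] (hS : SelZero (W⁄F) p K) : SelZero W p (K.restrictScalars k) := by
  intro c hc hp hV
  obtain ⟨φ, hφ⟩ := base_iso (F := F) (Ω := Ω) W
  have g1 : Coc (W⁄F) K (fun s => φ (c (s.restrictScalars k))) := by
    refine ⟨?_, ?_⟩
    · intro s hs t ht
      have h1 := hc.mul _ (Z11_mem (k := k) K s hs) _ (Z11_mem (k := k) K t ht)
      have h2 : (s * t).restrictScalars k = s.restrictScalars k * t.restrictScalars k := rfl
      show φ (c ((s * t).restrictScalars k)) = _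
      rw [h2, h1, map_add, hφ]
    · obtain ⟨L, hL, hLc⟩ := hc.cont
      obtain ⟨L', hL', hg⟩ := Z11_field (F := F) L
      refine ⟨L', hL', ?_⟩
      intro s hs hsL
      show φ (c (s.restrictScalars k)) = 0
      rw [hLc _ (Z11_mem K s hs) (hg s hsL), map_zero]
  have g2 : ∀ s ∈ K.fixingSubgroup, p • (fun s => φ (c (s.restrictScalars k))) s = 0 := by
    intro s hs
    show p • φ (c (s.restrictScalars k)) = 0
    rw [← map_nsmul, hp _ (Z11_mem K s hs), map_zero]
  obtain ⟨T', hT', hcT⟩ := hS (fun s => φ (c (s.restrictScalars k))) g1 g2 (by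
    intro V
    obtain ⟨P, hP⟩ := hV V
    refine ⟨φ P, ?_⟩
    intro s hs hI
    show φ (c (s.restrictScalars k)) = _
    rw [hP _ (Z11_mem K s hs) hI, map_sub, hφ])
  refine ⟨φ.symm T', ?_, ?_⟩
  · rw [← map_nsmul, hT', map_zero]
  · intro s hs
    obtain ⟨t, rfl, ht⟩ := Z11_lift K s hs
    apply φ.injective
    rw [map_sub, hφ, AddEquiv.apply_symm_apply]
    exact hcT t ht

theorem tors_base (W : WeierstrassCurve k) (p : ℕ) (K : IntermediateField F Ω)
    (h : ∀ T : Pt (W⁄F) Ω, p • T = 0 → (∀ s ∈ K.fixingSubgroup, ac (W⁄F) s T = T) → T = 0)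
    (T : Pt W Ω) (hT : p • T = 0) (hf : ∀ s ∈ (K.restrictScalars k).fixingSubgroup, ac W s T = T) :
    T = 0 := by
  obtain ⟨φ, hφ⟩ := base_iso (F := F) (Ω := Ω) W
  apply φ.injective
  rw [map_zero]
  apply h
  · rw [← map_nsmul, hT, map_zero]
  · intro s hs
    rw [← hφ, hf _ (Z11_mem K s hs)]

theorem sel_down (W : WeierstrassCurve k) (p : ℕ) (K₀ K₁ : IntermediateField k Ω) (h : K₀ ≤ K₁)
    [FiniteDimensional k K₁]
    (hn : ∀ s ∈ K₀.fixingSubgroup, ∀ t ∈ K₁.fixingSubgroup, s * t * s⁻¹ ∈ K₁.fixingSubgroup)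
    (h0 : ∀ T : Pt W Ω, p • T = 0 → (∀ s ∈ K₁.fixingSubgroup, ac W s T = T) → T = 0)
    (hS : SelZero W p K₁) : SelZero W p K₀ := by
  intro c hc hp hV
  have hle : ∀ s ∈ K₁.fixingSubgroup, s ∈ K₀.fixingSubgroup := by
    intro s hs
    rw [IntermediateField.mem_fixingSubgroup_iff] at hs ⊢
    exact fun x hx => hs x (h hx)
  have hac : ∀ (s t : Ω ≃ₐ[k] Ω) (P : Pt W Ω), ac W (s * t) P = ac W s (ac W t P) := by
    intro s t P
    have h1 := (acR W).map_mul s t
    have h2 := DFunLike.congr_fun h1 P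
    exact h2
  obtain ⟨T, hT, hcT⟩ := hS c ⟨fun s hs t ht => hc.mul s (hle s hs) t (hle t ht), by
      obtain ⟨L, hL, hLc⟩ := hc.cont
      exact ⟨L, hL, fun s hs hsL => hLc s (hle s hs) hsL⟩⟩ (fun s hs => hp s (hle s hs)) (by
      intro V
      obtain ⟨P, hP⟩ := hV V
      exact ⟨P, fun s hs hI => hP s (hle s hs) hI⟩)
  refine ⟨T, hT, ?_⟩
  intro s hs
  have hd : c s - (ac W s T - T) = 0 := by
    apply h0
    · rw [nsmul_sub, nsmul_sub, hp s hs, ← map_nsmul, hT, map_zero, sub_zero, sub_zero]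
    · intro t ht
      have ht' : s⁻¹ * t * s ∈ K₁.fixingSubgroup := by
        have h1 := hn s⁻¹ (inv_mem hs) t ht
        rwa [inv_inv] at h1
      have e1 : s * (s⁻¹ * t * s) = t * s := by group
      have h2 := hc.mul s hs _ (hle _ ht')
      have h3 := hc.mul t (hle t ht) s hs
      rw [e1] at h2
      rw [h2, hcT t ht, hcT _ ht', map_sub, ← hac, e1, hac] at h3
      rw [map_sub, map_sub]
      -- h3 : c s + (ac t (ac s T) - ac s T) = (ac t T - T) + ac t (c s)
      have h4 : ac W t (c s) = c s + (ac W t (ac W s T) - ac W s T) - (ac W t T - T) := by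
        rw [h3]
        abel
      rw [h4]
      abel
  rw [← sub_eq_zero]
  exact hd

end H55P
end

-- from Lib.H55P.Z12
section

open NumberField IsDedekindDomain WeierstrassCurve

namespace H55P

/-! Chunk PZ12 (M). From fields inside Ω to abstract fields.
PROOF. The field Ω with the algebra structure over K given by ι is an algebraic closure of K (IsAlgClosed Ω, algebraic over k hence over K), so there is an isomorphism θ : AlgebraicClosure K → Ω of K-algebras (IsAlgClosure.equiv). It gives the bijection s -> θ s θ⁻¹ from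
Gal(AlgebraicClosure K / K) to the automorphisms of Ω over k fixing ι.fieldRange, the bijection V -> V.comap of the valuation rings, and an additive equivalence Φ : Pt (W⁄K) (AlgebraicClosure K) ≃+ Pt W Ω (the curves (W⁄K)⁄(AlgebraicClosure K) and W⁄(AlgebraicClosure K) agree: base_iso in Z11.lean with F = K; then
Affine.Point.map θ restricted to k, bijective), compatible with the actions. Given a cocycle c for K put c' t = Φ (c (θ⁻¹ t θ)) for t in ι.fieldRange.fixingSubgroup (0 otherwise). Coc: continuity: the image of L under θ is finite over K, hence over k (K finite over k). Inert V t iff Inert (comap V) (θ⁻¹ t θ).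
The set of all s corresponds to the fixing subgroup. Transport the conclusion back by Φ⁻¹. DecidableEq instances: Subsingleton.elim (the group law of the points depends on them; open Classical in the statement, DecidableEq Ω arbitrary: use Subsingleton.elim to rewrite). -/
section z12

variable {k : Type} [Field k]

/-- The isomorphism on points given by an isomorphism of fields. -/
noncomputable def z12_pt (W : WeierstrassCurve k) {A B : Type} [Field A] [Field B] [DecidableEq A]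
    [DecidableEq B] [Algebra k A] [Algebra k B] (θ : A ≃ₐ[k] B) : Pt W A ≃+ Pt W B where
  toFun := Affine.Point.map (W' := W.toAffine) θ.toAlgHom
  invFun := Affine.Point.map (W' := W.toAffine) θ.symm.toAlgHom
  left_inv := by
    intro P
    rw [Affine.Point.map_map]
    have h : (θ.symm.toAlgHom.comp θ.toAlgHom) = AlgHom.id k A := by
      ext x
      exact θ.symm_apply_apply x
    rw [h]
    cases P <;> rfl
  right_inv := by
    intro P
    rw [Affine.Point.map_map]
    have h : (θ.toAlgHom.comp θ.symm.toAlgHom) = AlgHom.id k B := by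
      ext x
      exact θ.apply_symm_apply x
    rw [h]
    cases P <;> rfl
  map_add' P Q := map_add _ P Q

/-- Conjugation with θ. -/
noncomputable def z12_hat {K : Type} [Field K] [Algebra k K] {A B : Type} [Field A] [Field B]
    [Algebra k A] [Algebra K A] [IsScalarTower k K A] [Algebra k B] (θ : A ≃ₐ[k] B) (s : A ≃ₐ[K] A) :
    B ≃ₐ[k] B := (θ.symm.trans (s.restrictScalars k)).trans θ

theorem z12_hat_apply {K : Type} [Field K] [Algebra k K] {A B : Type} [Field A] [Field B]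
    [Algebra k A] [Algebra K A] [IsScalarTower k K A] [Algebra k B] (θ : A ≃ₐ[k] B) (s : A ≃ₐ[K] A)
    (x : B) : z12_hat θ s x = θ (s (θ.symm x)) := rfl

theorem z12_core (W : WeierstrassCurve k) (K : Type) [Field K]
    [Algebra k K] [FiniteDimensional k K] {Ω : Type} [Field Ω] [DecidableEq Ω] [Algebra k Ω]
    [IsAlgClosed Ω] [Algebra.IsAlgebraic k Ω] (ι : K →ₐ[k] Ω) [DecidableEq (AlgebraicClosure K)] :
    ∃ (Φ : Pt (W⁄K) (AlgebraicClosure K) ≃+ Pt W Ω)
      (hat : (AlgebraicClosure K ≃ₐ[K] AlgebraicClosure K) → (Ω ≃ₐ[k] Ω)),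
      Function.Injective hat ∧ (∀ s t, hat (s * t) = hat s * hat t) ∧
      (∀ t, t ∈ ι.fieldRange.fixingSubgroup ↔ ∃ s, hat s = t) ∧
      (∀ s P, Φ (ac (W⁄K) s P) = ac W (hat s) (Φ P)) ∧
      (∀ L : IntermediateField K (AlgebraicClosure K), FiniteDimensional K L →
        ∃ L' : IntermediateField k Ω, FiniteDimensional k L' ∧
          ∀ s, hat s ∈ L'.fixingSubgroup → s ∈ L.fixingSubgroup) ∧
      (∀ V : ValuationSubring Ω, ∃ V' : ValuationSubring (AlgebraicClosure K), (V ≠ ⊤ → V' ≠ ⊤) ∧ ∀ s,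
        (Inert V' s → Inert V (hat s)) ∧ (Inert V (hat s) → Inert V' s) ∧
        (Dec V (hat s) → Dec V' s)) := by
  let algKΩ : Algebra K Ω := ι.toRingHom.toAlgebra
  have htow : IsScalarTower k K Ω := IsScalarTower.of_algebraMap_eq fun x => (ι.commutes x).symm
  have halg : Algebra.IsAlgebraic K Ω := Algebra.IsAlgebraic.tower_top (K := k) K
  have hcl : IsAlgClosure K Ω := ⟨inferInstance, halg⟩
  let θ : AlgebraicClosure K ≃ₐ[K] Ω := IsAlgClosure.equiv K (AlgebraicClosure K) Ω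
  let θk : AlgebraicClosure K ≃ₐ[k] Ω := θ.restrictScalars k
  obtain ⟨φ, hφ⟩ := base_iso (k := k) (F := K) (Ω := AlgebraicClosure K) W
  refine ⟨φ.symm.trans (z12_pt W θk), z12_hat θk, ?_, ?_, ?_, ?_, ?_, ?_⟩
  · intro s t hst
    apply AlgEquiv.ext
    intro x
    have h1 := DFunLike.congr_fun hst (θk x)
    rw [z12_hat_apply, z12_hat_apply, θk.symm_apply_apply] at h1
    exact θk.injective h1
  · intro s t
    apply AlgEquiv.ext
    intro x
    rw [AlgEquiv.mul_apply, z12_hat_apply, z12_hat_apply, z12_hat_apply, θk.symm_apply_apply,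
      AlgEquiv.mul_apply]
  · intro t
    rw [IntermediateField.mem_fixingSubgroup_iff]
    constructor
    · intro ht
      have h1 : ∀ x : K, t (algebraMap K Ω x) = algebraMap K Ω x := fun x => ht _ ⟨x, rfl⟩
      let tK : Ω ≃ₐ[K] Ω := AlgEquiv.ofRingEquiv (f := (t : Ω ≃+* Ω)) h1
      refine ⟨(θ.trans tK).trans θ.symm, AlgEquiv.ext fun x => ?_⟩
      rw [z12_hat_apply]
      show θ (θ.symm (t (θ (θ.symm x)))) = t x
      rw [θ.apply_symm_apply, θ.apply_symm_apply]
    · rintro ⟨s, rfl⟩ x ⟨y, rfl⟩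
      rw [z12_hat_apply]
      show θ (s (θ.symm (algebraMap K Ω y))) = algebraMap K Ω y
      rw [θ.symm.commutes, s.commutes, θ.commutes]
  · intro s P
    have h1 : φ.symm (ac (W⁄K) s P) = ac W (s.restrictScalars k) (φ.symm P) := by
      apply φ.injective
      rw [hφ, φ.apply_symm_apply, φ.apply_symm_apply]
    show z12_pt W θk (φ.symm (ac (W⁄K) s P)) = ac W (z12_hat θk s) (z12_pt W θk (φ.symm P))
    rw [h1]
    generalize φ.symm P = Q
    show Affine.Point.map (W' := W.toAffine) θk.toAlgHom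
      (Affine.Point.map (W' := W.toAffine) (s.restrictScalars k).toAlgHom Q) =
      Affine.Point.map (W' := W.toAffine) (z12_hat θk s).toAlgHom
        (Affine.Point.map (W' := W.toAffine) θk.toAlgHom Q)
    rw [Affine.Point.map_map, Affine.Point.map_map]
    congr 1
    congr 1
    ext x
    show θk (s x) = z12_hat θk s (θk x)
    rw [z12_hat_apply, θk.symm_apply_apply]
  · intro L hL
    have h1 : FiniteDimensional k (L.restrictScalars k) := FiniteDimensional.trans k K L
    let e := IntermediateField.intermediateFieldMap θk (L.restrictScalars k)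
    refine ⟨(L.restrictScalars k).map θk.toAlgHom, Module.Finite.equiv e.toLinearEquiv, ?_⟩
    intro s hs
    rw [IntermediateField.mem_fixingSubgroup_iff] at hs ⊢
    intro x hx
    have h2 := hs (θk x) ⟨x, hx, rfl⟩
    rw [z12_hat_apply, θk.symm_apply_apply] at h2
    exact θk.injective h2
  · intro V
    have hm : ∀ x, x ∈ V.comap (θk : AlgebraicClosure K →+* Ω) ↔ θk x ∈ V := fun x =>
      ValuationSubring.mem_comap
    refine ⟨V.comap (θk : AlgebraicClosure K →+* Ω), fun hV h => hV ?_, fun s => ?_⟩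
    · refine eq_top_iff.2 fun x _ => ?_
      have h1 : θk.symm x ∈ V.comap (θk : AlgebraicClosure K →+* Ω) := by
        rw [h]
        exact ValuationSubring.mem_top _
      rwa [hm, θk.apply_symm_apply] at h1
    have hlt : ∀ x, (V.comap (θk : AlgebraicClosure K →+* Ω)).valuation x < 1 ↔
        V.valuation (θk x) < 1 := by
      intro x
      rw [lt1_iff, lt1_iff, hm, map_inv₀]
      simp
    refine ⟨fun h x hx => ?_, fun h x hx => ?_, fun h x => ?_⟩
    · have h1 := h (θk.symm x) ((hm _).2 (by rwa [θk.apply_symm_apply]))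
      rw [hlt, map_sub, θk.apply_symm_apply] at h1
      exact h1
    · have h1 := h (θk x) ((hm _).1 hx)
      rw [z12_hat_apply, θk.symm_apply_apply] at h1
      rw [hlt, map_sub]
      exact h1
    · have h1 := h (θk x)
      rw [z12_hat_apply, θk.symm_apply_apply] at h1
      rw [hm, hm]
      exact h1

end z12

theorem sel_transport {k : Type} [Field k] (W : WeierstrassCurve k) (p : ℕ) (K : Type) [Field K]
    [Algebra k K] [FiniteDimensional k K] {Ω : Type} [Field Ω] [DecidableEq Ω] [Algebra k Ω]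
    [IsAlgClosed Ω] [Algebra.IsAlgebraic k Ω] (ι : K →ₐ[k] Ω) (hS : SelZero W p ι.fieldRange) :
    SelTriv (W⁄K) p := by
  classical
  unfold SelTriv
  intro c hc hp hV
  obtain ⟨Φ, hat, hinj, hmul, hfix, hact, hfield, hval⟩ := z12_core W K ι
  have hinv : ∀ s, Function.invFun hat (hat s) = s := Function.leftInverse_invFun hinj
  have g1 : Coc W ι.fieldRange (fun t => Φ (c (Function.invFun hat t))) := by
    refine ⟨?_, ?_⟩
    · intro s hs t ht
      obtain ⟨s, rfl⟩ := (hfix _).1 hs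
      obtain ⟨t, rfl⟩ := (hfix _).1 ht
      simp only [← hmul, hinv]
      rw [hc.mul, map_add, hact]
    · obtain ⟨L, hL, hLc⟩ := hc.cont
      obtain ⟨L', hL', h1⟩ := hfield L hL
      refine ⟨L', hL', ?_⟩
      intro s hs hsL
      obtain ⟨s, rfl⟩ := (hfix _).1 hs
      simp only [hinv]
      rw [hLc s (h1 s hsL), map_zero]
  have g2 : ∀ s ∈ ι.fieldRange.fixingSubgroup,
      p • (fun t => Φ (c (Function.invFun hat t))) s = 0 := by
    intro s hs
    simp only
    rw [← map_nsmul, hp, map_zero]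
  have g3 : ∀ V : ValuationSubring Ω, ∃ P : Pt W Ω, ∀ s ∈ ι.fieldRange.fixingSubgroup,
      Inert V s → (fun t => Φ (c (Function.invFun hat t))) s = ac W s P - P := by
    intro V
    obtain ⟨V', -, hV'⟩ := hval V
    obtain ⟨P, hP⟩ := hV V'
    refine ⟨Φ P, ?_⟩
    intro s hs hI
    obtain ⟨s, rfl⟩ := (hfix _).1 hs
    simp only [hinv]
    rw [hP s ((hV' s).2.1 hI), map_sub, hact]
  obtain ⟨T, hT, hcT⟩ := hS _ g1 g2 g3
  refine ⟨Φ.symm T, ?_, fun s => ?_⟩
  · rw [← map_nsmul, hT, map_zero]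
  · have h1 := hcT (hat s) ((hfix _).2 ⟨s, rfl⟩)
    simp only [hinv] at h1
    apply Φ.injective
    rw [h1, map_sub, hact, Φ.apply_symm_apply]

theorem sha_transport {k : Type} [Field k] (W : WeierstrassCurve k) (p : ℕ) (K : Type) [Field K]
    [Algebra k K] [FiniteDimensional k K] {Ω : Type} [Field Ω] [DecidableEq Ω] [Algebra k Ω]
    [IsAlgClosed Ω] [Algebra.IsAlgebraic k Ω] (ι : K →ₐ[k] Ω) (hS : ShaZero W p ι.fieldRange) :
    ShaTriv (W⁄K) p := by
  classical
  unfold ShaTriv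
  intro c hc hQ hV
  obtain ⟨Φ, hat, hinj, hmul, hfix, hact, hfield, hval⟩ := z12_core W K ι
  have hinv : ∀ s, Function.invFun hat (hat s) = s := Function.leftInverse_invFun hinj
  have g1 : Coc W ι.fieldRange (fun t => Φ (c (Function.invFun hat t))) := by
    refine ⟨?_, ?_⟩
    · intro s hs t ht
      obtain ⟨s, rfl⟩ := (hfix _).1 hs
      obtain ⟨t, rfl⟩ := (hfix _).1 ht
      simp only [← hmul, hinv]
      rw [hc.mul, map_add, hact]
    · obtain ⟨L, hL, hLc⟩ := hc.cont
      obtain ⟨L', hL', h1⟩ := hfield L hL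
      refine ⟨L', hL', ?_⟩
      intro s hs hsL
      obtain ⟨s, rfl⟩ := (hfix _).1 hs
      simp only [hinv]
      rw [hLc s (h1 s hsL), map_zero]
  have g2 : ∃ Q : Pt W Ω, ∀ s ∈ ι.fieldRange.fixingSubgroup,
      p • (fun t => Φ (c (Function.invFun hat t))) s = ac W s Q - Q := by
    obtain ⟨Q, hQ⟩ := hQ
    refine ⟨Φ Q, ?_⟩
    intro s hs
    obtain ⟨s, rfl⟩ := (hfix _).1 hs
    simp only [hinv]
    rw [← map_nsmul, hQ s, map_sub, hact]
  have g3 : ∀ V : ValuationSubring Ω, V ≠ ⊤ → ∃ P : Pt W Ω, ∀ s ∈ ι.fieldRange.fixingSubgroup,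
      Dec V s → (fun t => Φ (c (Function.invFun hat t))) s = ac W s P - P := by
    intro V hVt
    obtain ⟨V', hV't, hV'⟩ := hval V
    obtain ⟨P, hP⟩ := hV V' (hV't hVt)
    refine ⟨Φ P, ?_⟩
    intro s hs hI
    obtain ⟨s, rfl⟩ := (hfix _).1 hs
    simp only [hinv]
    rw [hP s ((hV' s).2.2 hI), map_sub, hact]
  obtain ⟨T, hcT⟩ := hS _ g1 g2 g3
  refine ⟨Φ.symm T, fun s => ?_⟩
  have h1 := hcT (hat s) ((hfix _).2 ⟨s, rfl⟩)
  simp only [hinv] at h1
  apply Φ.injective
  rw [h1, map_sub, hact, Φ.apply_symm_apply]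

end H55P
end

-- from Lib.H35P.EVp
section

/-! The target of the elliptic part, from the general lattice. -/

open NumberField IsDedekindDomain

namespace H55P

theorem sR_eq (F : Type) [Field F] [NumberField F] [IQ F] (R : ℝ) (z : ℂ) : sR F R z = H35P.sL (LF F) R z := by
  unfold sR H35P.sL
  rw [← (LF_equiv F).tsum_eq]
  rfl

/-- The values of the Eisenstein sum at points of order prime to the residue characteristic. -/
theorem s_exists (F : Type) [Field F] [NumberField F] [IQ F] (A B Om : ℂ) (h : Per F A B Om) (z : ℂ)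
    (r : ℕ) (hr : 0 < r) (hz : ¬ ∃ y : 𝓞 F, z = eF F y) (hrz : ∃ y : 𝓞 F, (r : ℂ) * z = eF F y) :
    ∃ S : ℂ, Filter.Tendsto (fun R : ℝ => sR F R z) Filter.atTop (nhds S) ∧
      ∀ V : ValuationSubring ℂ, GoodV A B V → V.valuation (r : ℂ) = 1 → V.valuation (S / Om) ≤ 1 := by
  obtain ⟨S, hS, hV⟩ := H35P.sL_exists (LF F) A B Om h.ne h.g2 h.g3 z r hr
    (fun hc => hz ((mem_LF z).1 hc)) ((mem_LF _).2 hrz)
  refine ⟨S, ?_, fun V hG hrV => hV V hG.a hG.b hG.two hG.disc hrV⟩
  simpa only [sR_eq] using hS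

end H55P
end

-- from Lib.H55P.E8
section

open NumberField IsDedekindDomain

namespace H55P

open H55N
open H55B (g)

variable {F : Type} [Field F] [NumberField F] [IQ F] {K : Type} [Field K] [NumberField K]
  [Algebra F K] {m : ℕ}

/-! Chunk PE8 (M), PORT of Lib/H55N/E8.lean. The one dimensional sums: e1_sum below replaces e1_sum of H55N/E6.lean: (e a + m0 e x)^(-1) R^2/(R^2+|e a + m0 e x|^2) = m0^(-1) times the
term of sR F (R/m0) at z = e a/m0 (|m0| = m0 > 0), so the sum is m0^(-1) sR F (R/m0) z, and R/m0 tends to infinity; s_exists (H55P/EV.lean) with r = m0: m0 z = e a, z is not in the lattice because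
m0 does not divide a (l divides m0 and not a). Its value at V: V(S/Om) <= 1, V(m0) = 1. In rat_val everything is as in H55N, at the fixed valuation ring V (in place of Int2). -/

theorem pe8_fin (F : Type) [Field F] [NumberField F] [IQ F] (C : ℝ) :
    {x : 𝓞 F | ‖eF F x‖ ≤ C}.Finite := by
  rcases lt_or_ge C 0 with hC | hC
  · refine Set.Finite.subset Set.finite_empty fun x hx => ?_
    have h1 : ‖eF F x‖ ≤ C := hx
    exact absurd (norm_nonneg (eF F x)) (by linarith)
  · have h1 := (summable_e (F := F) (r := 3) (by norm_num)).tendsto_cofinite_zero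
    have h2 : (0 : ℝ) < (1 + C) ^ (-(3 : ℝ)) := Real.rpow_pos_of_pos (by linarith) _
    have h3 := h1.eventually (gt_mem_nhds h2)
    rw [Filter.eventually_cofinite] at h3
    refine h3.subset fun x hx => ?_
    have h4 : ‖eF F x‖ ≤ C := hx
    change ¬ ((1 + ‖eF F x‖) ^ (-(3 : ℝ)) < (1 + C) ^ (-(3 : ℝ)))
    rw [not_lt]
    exact Real.rpow_le_rpow_of_nonpos (by positivity) (by linarith) (by norm_num)

theorem pe8_summable (F : Type) [Field F] [NumberField F] [IQ F] (R : ℝ) (hR : 0 < R) (z : ℂ) :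
    Summable fun x : 𝓞 F =>
      ‖(z + eF F x)⁻¹ * ((R ^ 2 / (R ^ 2 + ‖z + eF F x‖ ^ 2) : ℝ) : ℂ)‖ := by
  have h1 : Summable (fun x : 𝓞 F => 8 * R ^ 2 * (1 + ‖eF F x‖) ^ (-(3 : ℝ))) :=
    (summable_e (by norm_num)).mul_left _
  refine h1.of_norm_bounded_eventually ?_
  rw [Filter.eventually_cofinite]
  refine (pe8_fin F (2 * ‖z‖ + 1)).subset ?_
  intro x hx
  by_contra hne
  apply hx
  have hne' : 2 * ‖z‖ + 1 < ‖eF F x‖ := not_le.mp hne
  have h2 : (1 + ‖eF F x‖) / 2 ≤ ‖z + eF F x‖ := by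
    have h3 : ‖eF F x‖ ≤ ‖z + eF F x‖ + ‖z‖ := by
      have h4 : eF F x = (z + eF F x) - z := by ring
      calc ‖eF F x‖ = ‖(z + eF F x) - z‖ := by rw [← h4]
        _ ≤ _ := norm_sub_le _ _
    linarith
  have h3 : 0 < 1 + ‖eF F x‖ := by positivity
  have h4 : 0 < ‖z + eF F x‖ := by linarith
  rw [norm_norm, norm_mul, norm_inv, Complex.norm_real, Real.norm_eq_abs,
    abs_of_nonneg (by positivity)]
  have h5 : (1 + ‖eF F x‖) ^ (-(3 : ℝ)) = 1 / (1 + ‖eF F x‖) ^ 3 := by
    rw [Real.rpow_neg h3.le]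
    norm_num
  rw [h5]
  calc ‖z + eF F x‖⁻¹ * (R ^ 2 / (R ^ 2 + ‖z + eF F x‖ ^ 2))
      ≤ ((1 + ‖eF F x‖) / 2)⁻¹ * (R ^ 2 / (((1 + ‖eF F x‖) / 2) ^ 2)) := by
        gcongr
        nlinarith [sq_nonneg R]
    _ = 8 * R ^ 2 * (1 / (1 + ‖eF F x‖) ^ 3) := by
        field_simp
        ring

theorem e1_sum (Ac Bc Om : ℂ) (hper : Per F Ac Bc Om) (a : 𝓞 F) (m₀ : ℕ) (h0 : m₀ ≠ 0)
    (ha : ¬ (m₀ : 𝓞 F) ∣ a) :
    (∀ R : ℝ, 0 < R → Summable fun x : 𝓞 F => ‖(eF F a + m₀ * eF F x)⁻¹ *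
      ((R ^ 2 / (R ^ 2 + ‖eF F a + m₀ * eF F x‖ ^ 2) : ℝ) : ℂ)‖) ∧
    ∃ S : ℂ, Filter.Tendsto (fun R : ℝ => ∑' x : 𝓞 F, (eF F a + m₀ * eF F x)⁻¹ *
      ((R ^ 2 / (R ^ 2 + ‖eF F a + m₀ * eF F x‖ ^ 2) : ℝ) : ℂ)) Filter.atTop (nhds S) ∧
      ∀ V : ValuationSubring ℂ, GoodV Ac Bc V → V.valuation (m₀ : ℂ) = 1 → V.valuation (S / Om) ≤ 1 := by
  have hj0 : 0 < m₀ := Nat.pos_of_ne_zero h0
  have hjr : (0 : ℝ) < m₀ := by exact_mod_cast hj0
  have hjc : (m₀ : ℂ) ≠ 0 := by exact_mod_cast h0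
  set z : ℂ := eF F a / m₀ with hzdef
  have hmz : (m₀ : ℂ) * z = eF F a := by
    rw [hzdef]
    field_simp
  have hsc : ∀ y : 𝓞 F, eF F a + m₀ * eF F y = m₀ * (z + eF F y) := by
    intro y
    rw [mul_add, hmz]
  have hz : ¬ ∃ y : 𝓞 F, z = eF F y := by
    rintro ⟨y, hy⟩
    apply ha
    refine ⟨y, eF_inj ?_⟩
    rw [map_mul, map_natCast, ← hmz, hy]
  have hterm : ∀ (R : ℝ) (y : 𝓞 F), (eF F a + m₀ * eF F y)⁻¹ *
      ((R ^ 2 / (R ^ 2 + ‖eF F a + m₀ * eF F y‖ ^ 2) : ℝ) : ℂ) =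
      (m₀ : ℂ)⁻¹ * ((z + eF F y)⁻¹ *
        (((R / m₀) ^ 2 / ((R / m₀) ^ 2 + ‖z + eF F y‖ ^ 2) : ℝ) : ℂ)) := by
    intro R y
    rw [hsc y, norm_mul, Complex.norm_natCast, mul_inv]
    have h5 : R ^ 2 / (R ^ 2 + (m₀ * ‖z + eF F y‖) ^ 2) =
        (R / m₀) ^ 2 / ((R / m₀) ^ 2 + ‖z + eF F y‖ ^ 2) := by
      have h6 : R ^ 2 = (m₀ : ℝ) ^ 2 * (R / m₀) ^ 2 := by
        field_simp
      have h7 : R ^ 2 + (m₀ * ‖z + eF F y‖) ^ 2 =
          (m₀ : ℝ) ^ 2 * ((R / m₀) ^ 2 + ‖z + eF F y‖ ^ 2) := by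
        rw [mul_add, ← h6]
        ring
      rw [h7]
      conv_lhs => rw [h6]
      exact mul_div_mul_left _ _ (by positivity)
    rw [h5]
    ring
  constructor
  · intro R hR
    have h1 := (pe8_summable F (R / m₀) (by positivity) z).mul_left ‖(m₀ : ℂ)⁻¹‖
    refine h1.congr fun y => ?_
    rw [hterm R y, norm_mul (m₀ : ℂ)⁻¹]
  · obtain ⟨S, hS, hSv⟩ := s_exists F Ac Bc Om hper z m₀ hj0 hz ⟨a, hmz⟩
    refine ⟨(m₀ : ℂ)⁻¹ * S, ?_, ?_⟩
    · have ht : Filter.Tendsto (fun R : ℝ => R / m₀) Filter.atTop Filter.atTop :=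
        Filter.tendsto_id.atTop_div_const hjr
      refine ((hS.comp ht).const_mul (m₀ : ℂ)⁻¹).congr fun R => ?_
      simp only [hterm]
      rw [tsum_mul_left]
      rfl
    · intro V hV v
      rw [mul_div_assoc, map_mul, map_inv₀, v, inv_one, one_mul]
      exact hSv V hV v

theorem pe8_int_sum (V : ValuationSubring ℂ) {ι : Type} (s : Finset ι) (a : ι → ℂ)
    (ha : ∀ i ∈ s, V.valuation (a i) ≤ 1) : V.valuation (∑ i ∈ s, a i) ≤ 1 := by
  rw [ValuationSubring.valuation_le_one_iff]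
  exact V.toSubring.sum_mem fun i hi => (ValuationSubring.valuation_le_one_iff V _).1 (ha i hi)

theorem pe8_int_prod (V : ValuationSubring ℂ) {ι : Type} (s : Finset ι) (a : ι → ℂ)
    (ha : ∀ i ∈ s, V.valuation (a i) ≤ 1) : V.valuation (∏ i ∈ s, a i) ≤ 1 := by
  rw [ValuationSubring.valuation_le_one_iff]
  exact V.toSubring.prod_mem fun i hi => (ValuationSubring.valuation_le_one_iff V _).1 (ha i hi)

theorem pe8_int_g (V : ValuationSubring ℂ) (D : Ctx F K m) (x : 𝓞 K) :
    V.valuation (D.g x) ≤ 1 := by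
  classical
  unfold Ctx.g gw
  refine pe8_int_prod V _ _ fun i _ => ?_
  rw [ValuationSubring.valuation_le_one_iff]
  split_ifs
  · exact V.toSubring.sub_mem V.toSubring.one_mem (natCast_mem V.toSubring _)
  · exact V.toSubring.one_mem

theorem pe8_g (D : Ctx F K m) (x z : 𝓞 K) (hz : ∀ i, z ∈ D.c i) : D.g (x + z) = D.g x := by
  classical
  unfold Ctx.g gw
  refine Finset.prod_congr rfl fun i _ => ?_
  have h : x + z ∈ D.c i ↔ x ∈ D.c i := (D.c i).add_mem_iff_left (hz i)
  by_cases hx : x ∈ D.c i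
  · rw [if_pos (h.2 hx), if_pos hx]
  · rw [if_neg (fun h' => hx (h.1 h')), if_neg hx]

theorem rat_val (D : Ctx F K m) (hD : D.Ok) (A : Fin (m + 1) → K) (w : Fin (m + 1) × Fin 2 → 𝓞 K)
    (hdir : D.Dirs A w) (l : 𝓞 F) (hl : Prime l)
    (hone : ∀ x ∈ D.X, ∀ k, ∃ y : 𝓞 F, D.Tr (A k) x = eF F (1 + l * y))
    (m₀ : ℕ) (h0 : m₀ ≠ 0) (hlm : l ∣ (m₀ : 𝓞 F))
    (hm₀ : ∀ y : Fin (m + 1) → 𝓞 F, ∃ x : 𝓞 K, x ∈ D.I ∧ (∀ i, x ∈ D.c i) ∧
      ∀ k, D.Tr (A k) x = m₀ * eF F (y k)) (S : ℂ)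
    (hS : Filter.Tendsto (fun R : ℝ => ∑' x : D.X, D.g x * (∏ k, (D.Tr (A k) x)⁻¹) *
      (D.pcut A R x : ℂ)) Filter.atTop (nhds S)) (Ac Bc Om : ℂ) (hper : Per F Ac Bc Om)
    (V : ValuationSubring ℂ) (hV : GoodV Ac Bc V) (hVm : V.valuation (m₀ : ℂ) = 1) :
    V.valuation (S / Om ^ (m + 1)) ≤ 1 := by
  classical
  -- coordinates
  have hY : ∀ x : D.X, ∃ y : Fin (m + 1) → 𝓞 F, ∀ k, D.Tr (A k) x = eF F (y k) ∧ ¬ l ∣ y k := by
    intro x
    choose y hy using hone x x.2
    refine ⟨fun k => 1 + l * y k, fun k => ⟨hy k, ?_⟩⟩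
    intro hdvd
    have h1 : l ∣ 1 := by
      have := dvd_sub hdvd (Dvd.intro (y k) rfl : l ∣ l * y k)
      rwa [add_sub_cancel_right] at this
    exact hl.not_isUnit (isUnit_of_dvd_one h1)
  choose Y hYY using hY
  have hndvd : ∀ x k, ¬ (m₀ : 𝓞 F) ∣ Y x k := fun x k h => (hYY x k).2 (hlm.trans h)
  choose z hzI hzc hzT using hm₀
  have hm0 : (m₀ : ℂ) ≠ 0 := by exact_mod_cast h0
  have hm0' : (m₀ : 𝓞 F) ≠ 0 := by
    intro h
    apply hm0
    have := congrArg (eF F) h
    rwa [map_natCast, map_zero] at this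
  have hfin : Finite (𝓞 F ⧸ Ideal.span {(m₀ : 𝓞 F)}) :=
    Ideal.finiteQuotientOfFreeOfNeBot _ (fun h => hm0' (Ideal.span_singleton_eq_bot.1 h))
  have hfin' : Finite (Fin (m + 1) → (𝓞 F ⧸ Ideal.span {(m₀ : 𝓞 F)})) := inferInstance
  letI : Fintype (Fin (m + 1) → (𝓞 F ⧸ Ideal.span {(m₀ : 𝓞 F)})) := Fintype.ofFinite _
  let q : D.X → (Fin (m + 1) → (𝓞 F ⧸ Ideal.span {(m₀ : 𝓞 F)})) := fun x k =>
    Ideal.Quotient.mk (Ideal.span {(m₀ : 𝓞 F)}) (Y x k)
  let T : ℝ → D.X → ℂ := fun R x => D.g x * (∏ k, (D.Tr (A k) x)⁻¹) * (D.pcut A R x : ℂ)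
  let φ : ℝ → 𝓞 F → 𝓞 F → ℂ := fun R α y => (eF F α + m₀ * eF F y)⁻¹ *
      ((R ^ 2 / (R ^ 2 + ‖eF F α + m₀ * eF F y‖ ^ 2) : ℝ) : ℂ)
  have hclass : ∀ c : Fin (m + 1) → (𝓞 F ⧸ Ideal.span {(m₀ : 𝓞 F)}), ∃ (U : ℝ → ℂ) (L : ℂ),
      (∀ R : ℝ, 0 < R → HasSum (fun x : D.X => if q x = c then T R x else 0) (U R)) ∧
      Filter.Tendsto U Filter.atTop (nhds L) ∧ V.valuation (L / Om ^ (m + 1)) ≤ 1 := by
    intro c
    by_cases hc : ∃ x₀ : D.X, q x₀ = c
    · obtain ⟨x₀, rfl⟩ := hc
      have hE := fun k => e1_sum Ac Bc Om hper (Y x₀ k) m₀ h0 (hndvd x₀ k)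
      choose Sk hSk hSi using fun k => (hE k).2
      let j : (Fin (m + 1) → 𝓞 F) → D.X := fun y => ⟨x₀ + z y, D.X_add x₀.2 (hzI y)⟩
      have hjT : ∀ y k, D.Tr (A k) (j y) = eF F (Y x₀ k) + m₀ * eF F (y k) := by
        intro y k
        show D.Tr (A k) (x₀ + z y) = _
        rw [D.Tr_add, (hYY x₀ k).1, hzT]
      have hjY : ∀ y k, Y (j y) k = Y x₀ k + m₀ * y k := by
        intro y k
        apply eF_inj
        rw [← (hYY (j y) k).1, hjT, map_add, map_mul, map_natCast]
      have hjinj : Function.Injective j := by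
        intro y y' h
        funext k
        have h1 := hjT y k
        rw [h, hjT y' k] at h1
        have h2 : eF F (y' k) = eF F (y k) := mul_left_cancel₀ hm0 (add_left_cancel h1)
        exact (eF_inj h2).symm
      have hjq : ∀ y, q (j y) = q x₀ := by
        intro y
        funext k
        show Ideal.Quotient.mk _ (Y (j y) k) = Ideal.Quotient.mk _ (Y x₀ k)
        rw [hjY, Ideal.Quotient.eq, add_sub_cancel_left]
        exact Ideal.mul_mem_right _ _ (Ideal.mem_span_singleton_self _)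
      have hjr : ∀ x : D.X, q x = q x₀ → x ∈ Set.range j := by
        intro x hx
        have h1 : ∀ k, ∃ t : 𝓞 F, Y x k - Y x₀ k = m₀ * t := by
          intro k
          have h2 : Ideal.Quotient.mk (Ideal.span {(m₀ : 𝓞 F)}) (Y x k) =
              Ideal.Quotient.mk (Ideal.span {(m₀ : 𝓞 F)}) (Y x₀ k) := congrFun hx k
          exact Ideal.mem_span_singleton.1 (Ideal.Quotient.eq.1 h2)
        choose t ht using h1
        refine ⟨t, Subtype.ext ?_⟩
        show (x₀ : 𝓞 K) + z t = x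
        have h2 : z t = x - x₀ := by
          refine Tr_inj D hD.emb A hdir.ind _ _ fun k => ?_
          rw [hzT, D.Tr_sub, (hYY x k).1, (hYY x₀ k).1, ← map_sub, ht k, map_mul, map_natCast]
        rw [h2]; ring
      refine ⟨fun R => D.g x₀ * ∏ k, ∑' y, φ R (Y x₀ k) y, D.g x₀ * ∏ k, Sk k, ?_, ?_, ?_⟩
      · intro R hR
        have hs := (pi_hasSum (m + 1) (fun k => φ R (Y x₀ k)) (fun k => (hE k).1 R hR)).mul_left
          (D.g x₀)
        refine (hjinj.hasSum_iff ?_).1 ?_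
        · intro x hx
          exact if_neg fun h => hx (hjr x h)
        · have hcongr : ((fun x : D.X => if q x = q x₀ then T R x else 0) ∘ j) =
              fun y => D.g x₀ * ∏ k, φ R (Y x₀ k) (y k) := by
            funext y
            show (if q (j y) = q x₀ then T R (j y) else 0) = _
            rw [if_pos (hjq y)]
            show D.g ((x₀ : 𝓞 K) + z y) * (∏ k, (D.Tr (A k) (j y))⁻¹) *
              ((∏ k, R ^ 2 / (R ^ 2 + ‖D.Tr (A k) (j y)‖ ^ 2) : ℝ) : ℂ) = _
            rw [pe8_g D _ _ (hzc y), Complex.ofReal_prod, mul_assoc, ← Finset.prod_mul_distrib]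
            congr 1
            refine Finset.prod_congr rfl fun k _ => ?_
            rw [hjT]
          rw [hcongr]
          exact hs
      · exact (tendsto_finsetProd _ fun k _ => hSk k).const_mul _
      · have h1 : D.g x₀ * (∏ k, Sk k) / Om ^ (m + 1) = D.g x₀ * ∏ k, (Sk k / Om) := by
          rw [Finset.prod_div_distrib, Finset.prod_const, Finset.card_univ, Fintype.card_fin,
            mul_div_assoc]
        rw [h1, map_mul]
        exact mul_le_one' (pe8_int_g V D _) (pe8_int_prod V _ _ fun k _ => hSi k V hV hVm)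
    · refine ⟨fun _ => 0, 0, fun R _ => ?_, tendsto_const_nhds, ?_⟩
      · have : (fun x : D.X => if q x = c then T R x else 0) = fun _ => 0 := by
          funext x
          exact if_neg fun h => hc ⟨x, h⟩
        rw [this]
        exact hasSum_zero
      · rw [zero_div, map_zero]
        exact zero_le_one
  choose U L hU hL hLi using hclass
  have hsum : ∀ R : ℝ, 0 < R → ∑' x : D.X, T R x = ∑ c, U c R := by
    intro R hR
    have h1 := hasSum_sum (s := Finset.univ) (fun c _ => hU c R hR)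
    have h2 : (fun x : D.X => ∑ c, if q x = c then T R x else 0) = T R := by
      funext x
      rw [Finset.sum_ite_eq]
      exact if_pos (Finset.mem_univ _)
    rw [h2] at h1
    exact h1.tsum_eq
  have hlim : Filter.Tendsto (fun R : ℝ => ∑' x : D.X, T R x) Filter.atTop (nhds (∑ c, L c)) := by
    refine (tendsto_finsetSum _ fun c _ => hL c).congr' ?_
    filter_upwards [Filter.eventually_gt_atTop 0] with R hR
    exact (hsum R hR).symm
  have hSL : S = ∑ c, L c := tendsto_nhds_unique hS hlim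
  rw [hSL, Finset.sum_div]
  exact pe8_int_sum V _ _ fun c _ => hLi c

end H55P
end

-- from Lib.H55P.L4
section

open NumberField IsDedekindDomain

namespace H55P

open H55N
open H55B (g)

variable {F : Type} [Field F] [NumberField F] [IQ F] {K : Type} [Field K] [NumberField K] [Algebra F K] {m : ℕ}

/-! Chunk L4 (M). Direction data from directions d_j and smoothing primes c_i not containing the d_j: P = prod_k p_k, w_i = (P/p_i) d_{i.1}, i.e.
w_i = (prod_{k <> i} p_k) d_{i.1}. mem: d in I. oth: for k <> i the factor p_k is in c_k (absNorm c_k = p_k: Ideal.absNorm_mem). self: c_i is prime (Ideal.isPrime_of_irreducible_absNorm),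
d_{i.1} not in c_i, and p_k not in c_i for k <> i: p_k and p_i are distinct primes, c_i contains p_i, so it would contain 1. orth: Tr_eq, linearity. int, low, ind: hypotheses. -/

theorem dirs_of (D : Ctx F K m) (hD : D.Ok) (A : Fin (m + 1) → K) (d : Fin (m + 1) → 𝓞 K)
    (hd : ∀ j, d j ∈ D.I) (hdc : ∀ i j, d j ∉ D.c i)
    (horth : ∀ j k, k ≠ j → Algebra.trace F K ((d j : K) * A k) = 0)
    (hint : ∀ x ∈ D.X, ∀ k, ∃ y : (𝓞 F), D.Tr (A k) x = (eF F) y)
    (hlow : ∀ x ∈ D.X, ∀ k, 1 ≤ ‖D.Tr (A k) x‖) (hA : LinearIndependent F A) :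
    ∃ w, D.Dirs A w := by
  classical
  have hprime : ∀ i, (D.c i).IsPrime := fun i =>
    Ideal.isPrime_of_irreducible_absNorm (by
      rw [hD.smooth.norm i]
      exact (hD.smooth.prime i))
  have hpc : ∀ i, (D.p i : 𝓞 K) ∈ D.c i := fun i => by
    have := Ideal.absNorm_mem (D.c i)
    rwa [hD.smooth.norm i] at this
  refine ⟨fun i => ((∏ k ∈ Finset.univ.erase i, D.p k : ℕ) : 𝓞 K) * d i.1, ?_, ?_, ?_, ?_, hint,
    hlow, hA⟩
  · intro i
    exact D.I.mul_mem_left _ (hd _)
  · intro i h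
    rcases (hprime i).mem_or_mem h with h1 | h1
    · have hcop : Nat.Coprime (∏ k ∈ Finset.univ.erase i, D.p k) (D.p i) := by
        refine Nat.Coprime.prod_left fun k hk => ?_
        rw [Nat.coprime_primes (hD.smooth.prime k) (hD.smooth.prime i)]
        intro h2
        exact (Finset.mem_erase.1 hk).1 (hD.smooth.inj h2)
      have h2 := Nat.isCoprime_iff_coprime.2 hcop
      obtain ⟨a, b, hab⟩ := h2
      apply (hprime i).ne_top
      rw [Ideal.eq_top_iff_one]
      have h3 := congrArg (Int.cast : ℤ → 𝓞 K) hab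
      push_cast at h3
      rw [← h3]
      refine (D.c i).add_mem ((D.c i).mul_mem_left _ ?_) ((D.c i).mul_mem_left _ (hpc i))
      push_cast at h1
      exact h1
    · exact hdc i i.1 h1
  · intro i k hk
    refine (D.c k).mul_mem_right _ ?_
    rw [← Finset.mul_prod_erase (Finset.univ.erase i) (fun k => D.p k)
      (Finset.mem_erase.2 ⟨hk, Finset.mem_univ k⟩)]
    push_cast
    exact (D.c k).mul_mem_right _ (hpc k)
  · intro i k hk
    rw [Tr_eq D hD.emb]
    have h1 : (((((∏ k ∈ Finset.univ.erase i, D.p k : ℕ) : 𝓞 K) * d i.1 : 𝓞 K)) : K) * A k =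
        ((∏ k ∈ Finset.univ.erase i, D.p k : ℕ) : F) • ((d i.1 : K) * A k) := by
      rw [Algebra.smul_def, map_natCast, ← mul_assoc]
      congr 1
    rw [h1, map_smul, horth i.1 k hk, smul_zero, map_zero]

/-- Finiteness of the set of ideals containing a nonzero element. -/
theorem finite_ideals (x : 𝓞 K) (hx : x ≠ 0) : {c : Ideal (𝓞 K) | x ∈ c}.Finite := by
  classical
  have h : Ideal.span {x} ≠ (0 : Ideal (𝓞 K)) := by
    rw [Ideal.zero_eq_bot, Ne, Ideal.span_singleton_eq_bot]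
    exact hx
  have h1 : Fintype {c : Ideal (𝓞 K) // c ∣ Ideal.span {x}} :=
    UniqueFactorizationMonoid.fintypeSubtypeDvd _ h
  have h2 : {c : Ideal (𝓞 K) | c ∣ Ideal.span {x}}.Finite := by
    rw [← Set.finite_coe_iff, Set.coe_ofPred]
    exact Finite.of_fintype _
  refine Set.Finite.subset h2 ?_
  intro c hc
  exact Ideal.dvd_iff_le.2 ((Ideal.span_singleton_le_iff_mem _).2 hc)

end H55P
end

-- from Lib.H28G.GA0
section

open NumberField IsDedekindDomain WeierstrassCurve

namespace H28G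

open H55B

/-! Chunk GA0 (S/M): derivatives and the expansion of wp' at 0.
wp_hasDeriv: Mathlib has PeriodPair.eqOn_deriv_weierstrassPExcept_derivWeierstrassPExcept (deriv of weierstrassPExcept l0 is derivWeierstrassPExcept l0 on the
complement of lattice minus l0), weierstrassPExcept_of_notMem and derivWeierstrassPExcept_of_notMem (l0 not in the lattice: equal to weierstrassP,
derivWeierstrassP); take any l0 not in the lattice (for example l0 = z); differentiability from analyticOnNhd_weierstrassP (A2_wp_analytic).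
wpd_hasDeriv: differentiate wp_ode (Lam is closed, so wp_ode holds near z): 2 wpd wpd' = 12 wp^2 wpd, so wpd' = 6 wp^2 where wpd <> 0; wpd is analytic and not
locally zero (otherwise wp would be constant near z, hence constant on the preconnected set Lam complement (A3_conn) by the identity theorem, but wp is
unbounded near 0 by wp_expansion), so the analytic functions deriv wpd and 6 wp^2 agree on a punctured neighbourhood of z and by continuity at z.
wpd_expansion: differentiate wp_expansion near 0: wp = z^(-2) + z^4 u for 0 < |z| < r, so wpd = -2 z^(-3) + 4 z^3 u + z^4 u' = -2 z^(-3) + z^3 (4 u + z u').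
wp_nonconst: for z0 not in Lam and every c, wp z <> c for all z near z0, z <> z0 (AnalyticAt.eventually_eq_or_eventually_ne and the argument above). -/

theorem GA0_ne (c : ℂ) : ∃ z, z ∉ Lam ∧ wp z ≠ c := by
  obtain ⟨u, hu, -, hexp⟩ := wp_expansion
  have c1 : ContinuousAt (fun z : ℂ => 1 + z ^ 6 * u z - c * z ^ 2) 0 := by
    have := hu.continuousAt
    fun_prop
  have h1 : (fun z : ℂ => 1 + z ^ 6 * u z - c * z ^ 2) 0 ≠ 0 := by norm_num
  have h2 : ∀ᶠ z in nhdsWithin (0 : ℂ) {0}ᶜ, 1 + z ^ 6 * u z - c * z ^ 2 ≠ 0 :=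
    (c1.eventually_ne h1).filter_mono nhdsWithin_le_nhds
  obtain ⟨z, h3, h4, h5, h6⟩ :=
    (hexp.and (h2.and ((A1_discrete 0).and self_mem_nhdsWithin))).exists
  have h6' : z ≠ 0 := h6
  refine ⟨z, h5, ?_⟩
  rw [h3]
  intro h
  apply h4
  have : z ^ 2 * ((z ^ 2)⁻¹ + z ^ 4 * u z) = 1 + z ^ 6 * u z := by
    field_simp
  rw [← this, h]
  ring

theorem wp_nonconst {z₀ : ℂ} (h : z₀ ∉ Lam) (c : ℂ) : ∀ᶠ z in nhdsWithin z₀ {z₀}ᶜ, wp z ≠ c := by
  rcases (A2_wp_analytic h).eventually_eq_or_eventually_ne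
    (analyticAt_const (v := c)) with h1 | h1
  · exfalso
    have hA : AnalyticOnNhd ℂ (fun z => wp z - c) (Lamᶜ : Set ℂ) := fun z hz =>
      (A2_wp_analytic hz).sub analyticAt_const
    have hz : (fun z => wp z - c) =ᶠ[nhds z₀] 0 := by
      filter_upwards [h1] with z hz
      show wp z - c = 0
      rw [hz, sub_self]
    have hall := hA.eqOn_zero_of_preconnected_of_eventuallyEq_zero A3_conn (z₀ := z₀) h hz
    obtain ⟨z, hz1, hz2⟩ := GA0_ne c
    exact hz2 (sub_eq_zero.1 (hall hz1))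
  · exact h1

theorem wp_hasDeriv {z : ℂ} (h : z ∉ Lam) : HasDerivAt wp (wpd z) z := by
  have h1 : deriv wp z = wpd z := by
    have h2 : wp = LL.weierstrassP := rfl
    rw [h2, PeriodPair.deriv_weierstrassP]
    rfl
  rw [← h1]
  exact (A2_wp_analytic h).differentiableAt.hasDerivAt



theorem wpd_expansion : ∃ v : ℂ → ℂ, AnalyticAt ℂ v 0 ∧
    ∀ᶠ z in nhdsWithin (0 : ℂ) {0}ᶜ, wpd z = -2 * (z ^ 3)⁻¹ + z ^ 3 * v z := by
  obtain ⟨u, hu, -, hexp⟩ := wp_expansion
  refine ⟨fun z => 4 * u z + z * deriv u z,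
    (analyticAt_const.mul hu).add (analyticAt_id.mul hu.deriv), ?_⟩
  have h1 : ∀ᶠ z in nhdsWithin (0 : ℂ) {0}ᶜ, AnalyticAt ℂ u z :=
    hu.eventually_analyticAt.filter_mono nhdsWithin_le_nhds
  have h2 := eventually_eventually_nhdsWithin.2 hexp
  filter_upwards [h1, h2, A2_Lam_discrete 0, self_mem_nhdsWithin] with z h3 h4 h5 h6
  have hz : z ≠ 0 := h6
  rw [IsOpen.nhdsWithin_eq isOpen_compl_singleton h6] at h4
  have d1 : HasDerivAt (fun z : ℂ => (z ^ 2)⁻¹ + z ^ 4 * u z)
      (-(2 * z) / (z ^ 2) ^ 2 + (4 * z ^ 3 * u z + z ^ 4 * deriv u z)) z := by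
    have e1 : HasDerivAt (fun z : ℂ => z ^ 2) (2 * z) z := by
      simpa using hasDerivAt_pow 2 z
    have e2 : HasDerivAt (fun z : ℂ => z ^ 4) (4 * z ^ 3) z := by
      simpa using hasDerivAt_pow 4 z
    exact (e1.inv (pow_ne_zero 2 hz)).add (e2.mul h3.differentiableAt.hasDerivAt)
  have d2 : HasDerivAt wp (-(2 * z) / (z ^ 2) ^ 2 + (4 * z ^ 3 * u z + z ^ 4 * deriv u z)) z :=
    d1.congr_of_eventuallyEq h4
  rw [(wp_hasDeriv h5).unique d2]
  field_simp

end H28G
end

-- from Lib.H28G.GA1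
section

open NumberField IsDedekindDomain WeierstrassCurve

namespace H28G

open H55B

/-! Chunk GA1 (M): the addition theorem as a determinant. Fix w not in Lam and put
D(z) = (wp z - wp w) wpd(z+w) + (wpd z - wpd w) wp(z+w) + wp z wpd w - wpd z wp w.
D is Lam-periodic in z. It is analytic at every z with z, z+w not in Lam (A2_wp_analytic, A2_wpd_analytic). Symmetry: D(-w-z) = -D(z).
At z = 0: with P(z) = wp(z+w) = P(0) + Q(0) z + z^2 P2(z), Q = P', the polar part is z^(-3)(z Q - 2 P + z Q(0) + 2 P(0)) = P2'(z).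
At z = -w: by the symmetry. So A0_liouville applies; the constant is zero by the symmetry. -/

noncomputable def GA1_D (w z : ℂ) : ℂ :=
  (wp z - wp w) * wpd (z + w) + (wpd z - wpd w) * wp (z + w) + wp z * wpd w - wpd z * wp w

theorem GA1_per (w z : ℂ) (y : O) : GA1_D w (z + 3 * e y) = GA1_D w z := by
  unfold GA1_D
  have h : z + 3 * e y + w = z + w + 3 * e y := by ring
  rw [h, wp_per, wp_per, A0_wpd_per, A0_wpd_per]

theorem GA1_symm (w z : ℂ) : GA1_D w (-w - z) = -GA1_D w z := by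
  unfold GA1_D
  have h1 : -w - z = -(z + w) := by ring
  have h2 : -(z + w) + w = -z := by ring
  rw [h1, h2, wp_neg, wp_neg, A0_wpd_neg, A0_wpd_neg]
  ring

theorem GA1_analytic {w z : ℂ} (h1 : z ∉ Lam) (h2 : z + w ∉ Lam) : AnalyticAt ℂ (GA1_D w) z := by
  have a1 := A2_wp_analytic h1
  have a2 := A2_wpd_analytic h1
  have a3 : AnalyticAt ℂ (fun t => wp (t + w)) z :=
    (A2_wp_analytic h2).comp (f := fun t => t + w) (by fun_prop)
  have a4 : AnalyticAt ℂ (fun t => wpd (t + w)) z :=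
    (A2_wpd_analytic h2).comp (f := fun t => t + w) (by fun_prop)
  unfold GA1_D
  fun_prop

theorem GA1_at_zero {w : ℂ} (hw : w ∉ Lam) : ∃ a : ℂ → ℂ, AnalyticAt ℂ a 0 ∧
    ∀ᶠ z in nhdsWithin (0 : ℂ) {0}ᶜ, GA1_D w z = a z := by
  obtain ⟨u, hu, -, hexp⟩ := wp_expansion
  obtain ⟨v, hv, hexpd⟩ := wpd_expansion
  have hw0 : (0 : ℂ) + w ∉ Lam := by rwa [zero_add]
  obtain ⟨P, hP⟩ : ∃ P : ℂ → ℂ, P = fun t => wp (t + w) := ⟨_, rfl⟩
  obtain ⟨Q, hQ⟩ : ∃ Q : ℂ → ℂ, Q = fun t => wpd (t + w) := ⟨_, rfl⟩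
  have hPa : AnalyticAt ℂ P 0 := by
    rw [hP]
    exact (A2_wp_analytic hw0).comp (f := fun t => t + w) (by fun_prop)
  have hQa : AnalyticAt ℂ Q 0 := by
    rw [hQ]
    exact (A2_wpd_analytic hw0).comp (f := fun t => t + w) (by fun_prop)
  have hder : ∀ t : ℂ, t + w ∉ Lam → HasDerivAt P (Q t) t := by
    intro t ht
    rw [hP, hQ]
    have h := (wp_hasDeriv ht).comp t ((hasDerivAt_id t).add_const w)
    rw [mul_one] at h
    exact h
  have hP0 : P 0 = wp w := by rw [hP]; simp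
  have hQ0 : Q 0 = wpd w := by rw [hQ]; simp
  obtain ⟨P1, hP1⟩ : ∃ P1 : ℂ → ℂ, P1 = dslope P 0 := ⟨_, rfl⟩
  have hP1a : AnalyticAt ℂ P1 0 := by rw [hP1]; exact A2_dslope hPa
  have hP10 : P1 0 = wpd w := by
    rw [hP1, dslope_same, (hder 0 hw0).deriv, hQ0]
  obtain ⟨P2, hP2⟩ : ∃ P2 : ℂ → ℂ, P2 = dslope P1 0 := ⟨_, rfl⟩
  have hP2a : AnalyticAt ℂ P2 0 := by rw [hP2]; exact A2_dslope hP1a
  have hPeq : ∀ z : ℂ, P z = wp w + wpd w * z + z ^ 2 * P2 z := by
    intro z
    have e1 : P z = P 0 + z * P1 z := by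
      have := sub_smul_dslope P 0 z
      rw [← hP1, sub_zero, smul_eq_mul] at this
      rw [this]
      ring
    have e2 : P1 z = P1 0 + z * P2 z := by
      have := sub_smul_dslope P1 0 z
      rw [← hP2, sub_zero, smul_eq_mul] at this
      rw [this]
      ring
    rw [e1, e2, hP0, hP10]
    ring
  have hQeq : ∀ᶠ z in nhds (0 : ℂ), Q z = wpd w + 2 * z * P2 z + z ^ 2 * deriv P2 z := by
    have h1 : ∀ᶠ z in nhds (0 : ℂ), AnalyticAt ℂ P2 z := hP2a.eventually_analyticAt
    have h2 : ∀ᶠ z in nhds (0 : ℂ), z + w ∉ Lam := by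
      have h3 : ∀ᶠ t in nhds (0 + w), t ∉ Lam := by
        have h4 := LL.isClosed_lattice.isOpen_compl.mem_nhds
          (show (0 + w) ∈ ((LL.lattice : Set ℂ))ᶜ from fun h => hw0 ((mem_LL _).1 h))
        filter_upwards [h4] with t ht h
        exact ht ((mem_LL t).2 h)
      have h5 : Filter.Tendsto (fun z : ℂ => z + w) (nhds 0) (nhds (0 + w)) :=
        (continuous_id.add continuous_const).tendsto 0
      exact h5.eventually h3
    filter_upwards [h1, h2] with z hz1 hz2
    have h3 := hz1.differentiableAt.hasDerivAt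
    have h4 : HasDerivAt (fun z => wp w + wpd w * z + z ^ 2 * P2 z)
        (wpd w * 1 + (2 * z * P2 z + z ^ 2 * deriv P2 z)) z := by
      have h5 := ((hasDerivAt_id z).const_mul (wpd w)).const_add (wp w)
      have h6 := (hasDerivAt_pow 2 z).mul h3
      have h7 := h5.add h6
      refine h7.congr_deriv ?_
      push_cast
      ring
    have h5 : (fun z => wp w + wpd w * z + z ^ 2 * P2 z) = P := (funext hPeq).symm
    rw [h5] at h4
    have h6 := h4.unique (hder z hz2)
    rw [← h6]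
    ring
  refine ⟨fun z => deriv P2 z + (z ^ 4 * u z - wp w) * Q z + (z ^ 3 * v z - wpd w) * P z +
    z ^ 4 * u z * wpd w - z ^ 3 * v z * wp w, ?_, ?_⟩
  · have := hP2a.deriv
    fun_prop
  · filter_upwards [hexp, hexpd, self_mem_nhdsWithin, nhdsWithin_le_nhds hQeq] with z h1 h2 hz h3
    have hz' : z ≠ 0 := hz
    have h4 : wp (z + w) = P z := by rw [hP]
    have h5 : wpd (z + w) = Q z := by rw [hQ]
    unfold GA1_D
    rw [h4, h5, h1, h2, hPeq z, h3]
    field_simp
    ring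

theorem GA1_at_Lam {w : ℂ} (hw : w ∉ Lam) {z₀ : ℂ} (h : z₀ ∈ Lam) : ∃ a : ℂ → ℂ, AnalyticAt ℂ a z₀ ∧
    ∀ᶠ z in nhdsWithin z₀ {z₀}ᶜ, GA1_D w z = a z := by
  obtain ⟨y, hy⟩ := h
  obtain ⟨a, ha, h⟩ := GA1_at_zero hw
  have ht : Filter.Tendsto (fun z : ℂ => z - z₀) (nhdsWithin z₀ {z₀}ᶜ)
      (nhdsWithin (0 : ℂ) {0}ᶜ) := by
    rw [tendsto_nhdsWithin_iff]
    constructor
    · have : ContinuousAt (fun z : ℂ => z - z₀) z₀ := by fun_prop
      have h := this.tendsto
      simp only [sub_self] at h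
      exact h.mono_left nhdsWithin_le_nhds
    · filter_upwards [self_mem_nhdsWithin] with z hz
      have hz' : z ≠ z₀ := hz
      show z - z₀ ≠ 0
      exact sub_ne_zero.2 hz'
  refine ⟨fun z => a (z - z₀), ?_, ?_⟩
  · have : AnalyticAt ℂ a (z₀ - z₀) := by rw [sub_self]; exact ha
    exact this.comp (f := fun w : ℂ => w - z₀) (by fun_prop)
  · filter_upwards [ht.eventually h] with z h3
    rw [← h3, ← GA1_per w (z - z₀) y, ← hy, sub_add_cancel]

theorem GA1_neg_mem {z : ℂ} (h : z ∈ Lam) : -z ∈ Lam := by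
  rw [← mem_LL] at h ⊢
  exact neg_mem h

theorem det_zero {z w : ℂ} (hz : z ∉ Lam) (hw : w ∉ Lam) (hzw : z + w ∉ Lam) :
    (wp z - wp w) * wpd (z + w) + (wpd z - wpd w) * wp (z + w) + wp z * wpd w - wpd z * wp w = 0 := by
  have hall : ∀ z₀, ∃ a : ℂ → ℂ, AnalyticAt ℂ a z₀ ∧
      ∀ᶠ z in nhdsWithin z₀ {z₀}ᶜ, GA1_D w z = a z := by
    intro z₀
    by_cases c1 : z₀ ∈ Lam
    · exact GA1_at_Lam hw c1
    · by_cases c2 : z₀ + w ∈ Lam
      · have c3 : -w - z₀ ∈ Lam := by
          have h := GA1_neg_mem c2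
          have h1 : -(z₀ + w) = -w - z₀ := by ring
          rwa [h1] at h
        obtain ⟨a, ha, h⟩ := GA1_at_Lam hw c3
        have ht : Filter.Tendsto (fun z : ℂ => -w - z) (nhdsWithin z₀ {z₀}ᶜ)
            (nhdsWithin (-w - z₀) {-w - z₀}ᶜ) := by
          rw [tendsto_nhdsWithin_iff]
          constructor
          · have : ContinuousAt (fun z : ℂ => -w - z) z₀ := by fun_prop
            exact this.tendsto.mono_left nhdsWithin_le_nhds
          · filter_upwards [self_mem_nhdsWithin] with z hz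
            have hz' : z ≠ z₀ := hz
            intro h
            have h5 : -w - z = -w - z₀ := h
            exact hz' (by linear_combination (-1 : ℂ) * h5)
        refine ⟨fun z => -a (-w - z), ?_, ?_⟩
        · exact (ha.comp (f := fun z : ℂ => -w - z) (by fun_prop)).neg
        · filter_upwards [ht.eventually h] with z h3
          rw [← h3, GA1_symm, neg_neg]
      · exact ⟨GA1_D w, GA1_analytic c1 c2, Filter.Eventually.of_forall fun z => rfl⟩
  obtain ⟨c, hc⟩ := A0_liouville (GA1_D w) (GA1_per w) hall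
  have e1 : GA1_D w z = c := hc z (GA1_D w) (GA1_analytic hz hzw).continuousAt
    (Filter.Eventually.of_forall fun z => rfl)
  have h1 : -w - z ∉ Lam := by
    intro h
    apply hzw
    have h2 := GA1_neg_mem h
    have h3 : -(-w - z) = z + w := by ring
    rwa [h3] at h2
  have h2 : -w - z + w ∉ Lam := by
    intro h
    apply hz
    have h2 := GA1_neg_mem h
    have h3 : -(-w - z + w) = z := by ring
    rwa [h3] at h2
  have e2 : GA1_D w (-w - z) = c := hc (-w - z) (GA1_D w) (GA1_analytic h1 h2).continuousAt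
    (Filter.Eventually.of_forall fun z => rfl)
  rw [GA1_symm] at e2
  have h6 : GA1_D w z = 0 := by linear_combination (1 / 2) * e1 - (1 / 2) * e2
  exact h6

end H28G
end

-- from Lib.H28G.GA2
section

open NumberField IsDedekindDomain WeierstrassCurve

namespace H28G

open H55B

/-! Chunk GA2 (M): the addition formula. add_wp: fix w not in Lam, V = {z : z not in Lam, z + w not in Lam}: open, preconnected (the complement of a countable set: as
A3_conn, IsPreconnected of the complement of a countable set in C), G(z) = 4 (wp(z+w) + wp z + wp w)(wp z - wp w)^2 - (wpd z - wpd w)^2 is analytic on V.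
Algebra: with a = wp z, b = wp w, x = wp(z+w), a', b', x' the values of wpd: det_zero is (a-b) x' + (a'-b') x + a b' - a' b = 0, wp_ode gives
a'^2 = 4a^3 - g, b'^2 = 4b^3 - g, x'^2 = 4x^3 - g. Then (x-a)(x-b) G = 0: for a <> b the line through (a,a'), (b,b') meets the cubic in x = a, b,
m^2/4 - a - b (m = (a'-b')/(a-b)): multiply the equation of the cubic at (x,-x') by (a-b)^2 and use linear_combination; for a = b the determinant says
(a'-b')(x - a) = 0 and G = -(a'-b')^2. (In one identity: (a-b)^2 (x'^2 - 4x^3 + g) = ((a'-b')x + ab' - a'b)^2 - (a-b)^2(4x^3 - g), which is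
-(x-a)(x-b) G - (a-b)(...) times the equations of a', b'; find the cofactors with linear_combination (exp := 1).)
The product of the three analytic functions x - a, x - b, G of z vanishes on V, so one of them vanishes identically on V (AnalyticOnNhd, identity theorem:
if G is nonzero at some point of V, then x - a or x - b vanishes on a small ball, hence on V). wp(z+w) - wp z is unbounded near z = 0 (w is not in Lam; wp_expansion),
wp(z+w) - wp w is unbounded near z = -w. So G = 0 on V.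
Phi_add_gen: xz = wp/kap^2, fz = wpd/kap^3, yz = (fz - 1)/2, (yz z - yz w)/(xz z - xz w) = (wpd z - wpd w)/(2 kap (wp z - wp w)); add_coords and pt_ext: the x-coordinate is
add_wp divided by kap^2, the y-coordinate follows from det_zero: fz(z+w) = -(fz z) - 2 s (xz(z+w) - xz z), s the slope. -/

theorem GA2_lim {h : ℂ → ℂ} (hh : ContinuousAt h 0)
    (he : ∀ᶠ s in nhdsWithin (0 : ℂ) {0}ᶜ, wp s = h s) : False := by
  obtain ⟨u, hu, hu0, hexp⟩ := wp_expansion
  have c1 : ContinuousAt (fun z : ℂ => 1 + z ^ 6 * u z) 0 := by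
    have := hu.continuousAt
    fun_prop
  have c2 : ContinuousAt (fun z : ℂ => z ^ 2 * h z) 0 := by fun_prop
  have t1 : Filter.Tendsto (fun z : ℂ => 1 + z ^ 6 * u z) (nhdsWithin (0 : ℂ) {0}ᶜ)
      (nhds (1 + (0 : ℂ) ^ 6 * u 0)) := c1.tendsto.mono_left nhdsWithin_le_nhds
  have t2 : Filter.Tendsto (fun z : ℂ => z ^ 2 * h z) (nhdsWithin (0 : ℂ) {0}ᶜ)
      (nhds ((0 : ℂ) ^ 2 * h 0)) := c2.tendsto.mono_left nhdsWithin_le_nhds
  have t3 : Filter.Tendsto (fun z : ℂ => 1 + z ^ 6 * u z) (nhdsWithin (0 : ℂ) {0}ᶜ)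
      (nhds ((0 : ℂ) ^ 2 * h 0)) := by
    refine t2.congr' ?_
    filter_upwards [hexp, he, self_mem_nhdsWithin] with z h1 h2 hz
    have hz' : z ≠ 0 := hz
    rw [← h2, h1]
    field_simp
  have h4 := tendsto_nhds_unique t1 t3
  norm_num at h4

theorem GA2_conn (w : ℂ) : IsPreconnected {z : ℂ | z ∉ Lam ∧ z + w ∉ Lam} := by
  have hc : (Lam : Set ℂ).Countable := by
    have : (Lam : Set ℂ) = Set.range (fun l : LL.lattice => (l : ℂ)) := by
      ext z
      rw [← mem_LL]
      simp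
    rw [this]
    exact Set.countable_range _
  have hc2 : ((fun z : ℂ => z + w) ⁻¹' Lam).Countable :=
    hc.preimage (add_left_injective w)
  have h := Set.Countable.isConnected_compl_of_one_lt_rank (E := ℂ) (by simp) (hc.union hc2)
  have h2 : {z : ℂ | z ∉ Lam ∧ z + w ∉ Lam} = ((Lam : Set ℂ) ∪ (fun z : ℂ => z + w) ⁻¹' Lam)ᶜ := by
    ext z
    simp [not_or]
  rw [h2]
  exact h.isPreconnected

theorem GA2_alg {a b x a' b' x' g : ℂ} (ha : a' ^ 2 = 4 * a ^ 3 - g) (hb : b' ^ 2 = 4 * b ^ 3 - g)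
    (hx : x' ^ 2 = 4 * x ^ 3 - g) (hd : (a - b) * x' + (a' - b') * x + a * b' - a' * b = 0) :
    (x - a) * (x - b) * (4 * (x + a + b) * (a - b) ^ 2 - (a' - b') ^ 2) = 0 := by
  linear_combination (-(a - b) ^ 2) * hx + ((a - b) * (x - b)) * ha - ((a - b) * (x - a)) * hb +
    ((a - b) * x' - ((a' - b') * x + a * b' - a' * b)) * hd

theorem add_wp {z w : ℂ} (hz : z ∉ Lam) (hw : w ∉ Lam) (hzw : z + w ∉ Lam) :
    4 * (wp (z + w) + wp z + wp w) * (wp z - wp w) ^ 2 = (wpd z - wpd w) ^ 2 := by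
  let V : Set ℂ := {z : ℂ | z ∉ Lam ∧ z + w ∉ Lam}
  let G : ℂ → ℂ := fun z => 4 * (wp (z + w) + wp z + wp w) * (wp z - wp w) ^ 2 -
    (wpd z - wpd w) ^ 2
  let f₁ : ℂ → ℂ := fun z => wp (z + w) - wp z
  let f₂ : ℂ → ℂ := fun z => wp (z + w) - wp w
  have hV : ∀ z ∈ V, ∀ᶠ t in nhds z, t ∈ V := by
    rintro z ⟨h1, h2⟩
    have o1 : ∀ᶠ t in nhds z, t ∉ Lam := A1_open.mem_nhds h1
    have o2 : ∀ᶠ t in nhds z, t + w ∉ Lam :=
      (A1_open.preimage (f := fun t : ℂ => t + w) (by fun_prop)).mem_nhds h2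
    filter_upwards [o1, o2] with t h3 h4
    exact ⟨h3, h4⟩
  have ha : ∀ z ∈ V, AnalyticAt ℂ wp z := fun z h => A2_wp_analytic h.1
  have hb : ∀ z ∈ V, AnalyticAt ℂ (fun z => wp (z + w)) z := fun z h =>
    (A2_wp_analytic h.2).comp (f := fun t : ℂ => t + w) (by fun_prop)
  have hc : ∀ z ∈ V, AnalyticAt ℂ wpd z := fun z h => A2_wpd_analytic h.1
  have hG : ∀ z ∈ V, AnalyticAt ℂ G z := by
    intro z h
    have h1 := ha z h
    have h2 := hb z h
    have h3 := hc z h
    fun_prop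
  have hf₁ : ∀ z ∈ V, AnalyticAt ℂ f₁ z := by
    intro z h
    have h1 := ha z h
    have h2 := hb z h
    fun_prop
  have hf₂ : ∀ z ∈ V, AnalyticAt ℂ f₂ z := by
    intro z h
    have h2 := hb z h
    fun_prop
  have hprod : ∀ z ∈ V, f₁ z * f₂ z * G z = 0 := by
    intro z h
    exact GA2_alg (wp_ode z h.1) (wp_ode w hw) (wp_ode (z + w) h.2) (det_zero h.1 hw h.2)
  -- `f₁` is not identically zero
  have n1 : ¬ ∀ z ∈ V, f₁ z = 0 := by
    intro hall
    have hc' : ContinuousAt (fun s => wp (s + w)) 0 := by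
      have h1 : AnalyticAt ℂ wp (0 + w) := by rw [zero_add]; exact A2_wp_analytic hw
      exact (h1.comp (f := fun t : ℂ => t + w) (by fun_prop)).continuousAt
    refine GA2_lim hc' ?_
    have o2 : ∀ᶠ t in nhds (0 : ℂ), t + w ∉ Lam :=
      (A1_open.preimage (f := fun t : ℂ => t + w) (by fun_prop)).mem_nhds
        (by show 0 + w ∉ Lam; rw [zero_add]; exact hw)
    filter_upwards [A2_Lam_discrete 0, o2.filter_mono nhdsWithin_le_nhds] with s h1 h2
    have h3 := hall s ⟨h1, h2⟩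
    exact (sub_eq_zero.1 h3).symm
  have n2 : ¬ ∀ z ∈ V, f₂ z = 0 := by
    intro hall
    refine GA2_lim (h := fun _ => wp w) continuousAt_const ?_
    have o2 : ∀ᶠ t in nhds (0 : ℂ), t - w ∉ Lam :=
      (A1_open.preimage (f := fun t : ℂ => t - w) (by fun_prop)).mem_nhds
        (by show 0 - w ∉ Lam; rw [zero_sub]; exact fun h => hw (neg_mem_iff.1 h))
    filter_upwards [A2_Lam_discrete 0, o2.filter_mono nhdsWithin_le_nhds] with s h1 h2
    have h3 := hall (s - w) ⟨h2, by rw [sub_add_cancel]; exact h1⟩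
    have h4 : wp (s - w + w) - wp w = 0 := h3
    rw [sub_add_cancel] at h4
    exact sub_eq_zero.1 h4
  have hGz : G z = 0 := by
    by_contra hne
    have hzV : z ∈ V := ⟨hz, hzw⟩
    have e1 : ∀ᶠ t in nhds z, f₁ t * f₂ t = 0 := by
      filter_upwards [(hG z hzV).continuousAt.eventually_ne hne, hV z hzV] with t h1 h2
      exact (mul_eq_zero.1 (hprod t h2)).resolve_right h1
    rcases (hf₁ z hzV).eventually_eq_zero_or_eventually_ne_zero with h1 | h1
    · apply n1
      have hA : AnalyticOnNhd ℂ f₁ V := fun t ht => hf₁ t ht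
      exact fun t ht => hA.eqOn_zero_of_preconnected_of_eventuallyEq_zero (GA2_conn w) hzV h1 ht
    · rcases (hf₂ z hzV).eventually_eq_zero_or_eventually_ne_zero with h2 | h2
      · apply n2
        have hA : AnalyticOnNhd ℂ f₂ V := fun t ht => hf₂ t ht
        exact fun t ht => hA.eqOn_zero_of_preconnected_of_eventuallyEq_zero (GA2_conn w) hzV h2 ht
      · obtain ⟨t, h3, h4, h5⟩ :=
          (h1.and (h2.and (e1.filter_mono nhdsWithin_le_nhds))).exists
        rcases mul_eq_zero.1 h5 with h6 | h6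
        · exact h3 h6
        · exact h4 h6
  exact sub_eq_zero.1 hGz

theorem Phi_add_gen {z w : ℂ} (hz : z ∉ Lam) (hw : w ∉ Lam) (hzw : z + w ∉ Lam) (hne : wp z ≠ wp w) :
    Phi (z + w) = Phi z + Phi w := by
  have hk := kap_ne
  have hzne : Phi z ≠ 0 := fun h => hz (Phi_eq_zero.1 h)
  have hwne : Phi w ≠ 0 := fun h => hw (Phi_eq_zero.1 h)
  have hzwne : Phi (z + w) ≠ 0 := fun h => hzw (Phi_eq_zero.1 h)
  have hd : wp z - wp w ≠ 0 := sub_ne_zero.2 hne
  have hx : xc (Phi z) ≠ xc (Phi w) := by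
    rw [xc_Phi hz, xc_Phi hw]
    unfold xz
    intro h
    exact hne ((div_left_inj' (pow_ne_zero 2 hk)).1 h)
  obtain ⟨h1, h2, h3⟩ := add_coords hzne hwne hx
  rw [xc_Phi hz, xc_Phi hw, yc_Phi hz, yc_Phi hw] at h2
  rw [h2, xc_Phi hz, xc_Phi hw, yc_Phi hz, yc_Phi hw] at h3
  have hs : (yz z - yz w) / (xz z - xz w) = (wpd z - wpd w) / (2 * kap * (wp z - wp w)) := by
    unfold yz fz xz
    have h5 : wp z / kap ^ 2 - wp w / kap ^ 2 ≠ 0 := by
      rw [← sub_div]
      exact div_ne_zero hd (pow_ne_zero 2 hk)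
    rw [div_eq_div_iff h5 (mul_ne_zero (mul_ne_zero two_ne_zero hk) hd)]
    field_simp
    ring
  have hX : xz (z + w) = ((yz z - yz w) / (xz z - xz w)) ^ 2 - xz z - xz w := by
    rw [hs]
    unfold xz
    have h5 := add_wp hz hw hzw
    field_simp
    linear_combination h5
  refine pt_ext hzwne h1 ?_ ?_
  · rw [xc_Phi hzw, h2, hX]
  · rw [yc_Phi hzw, h3, ← hX, hs]
    have h6 := det_zero hz hw hzw
    unfold yz fz xz
    field_simp
    linear_combination h6

end H28G
end

-- from Lib.H28G.GA3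
section

open NumberField IsDedekindDomain WeierstrassCurve

namespace H28G

open H55B

/-! Chunk GA3 (S/M): Phi is additive. If z in Lam or w in Lam: Phi_per, Phi_of_mem. If z + w in Lam: w = -z + 3 e y, Phi w = Phi(-z) = -Phi z. Otherwise choose u
close to -z, u <> -z, such that u, z + u, w - u are not in Lam, wp u <> wp z, wp u <> wp w, wp(z+u) <> wp(w-u): all six hold for all u in a punctured neighbourhood
of -z: u -> -z not in Lam, z + u -> 0 but z + u <> 0 (Lam is discrete: A2_Lam_discrete), w - u -> w + z not in Lam; wp u <> wp z and wp u <> wp w by wp_nonconst at -z;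
wp(z+u) -> infinity (wp_expansion) and wp(w-u) -> wp(w+z) is bounded. Then, by Phi_add_gen three times (wp(-u) = wp u):
Phi(z+u) = Phi z + Phi u, Phi(w-u) = Phi w + Phi(-u) = Phi w - Phi u, Phi(z+w) = Phi((z+u) + (w-u)) = Phi(z+u) + Phi(w-u) = Phi z + Phi w.
Phi_act: Phi as AddMonoidHom, map_zsmul, Phi_om, exists_repr, act_apply, Z1_e_repr. -/

theorem GA3_gen {z w : ℂ} (hz : z ∉ Lam) (hw : w ∉ Lam) (hzw : z + w ∉ Lam) :
    Phi (z + w) = Phi z + Phi w := by
  have hz' : -z ∉ Lam := fun h => hz (neg_mem_iff.1 h)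
  have c1 : ∀ᶠ u in nhdsWithin (-z) {-z}ᶜ, u ∉ Lam :=
    nhdsWithin_le_nhds (A1_open.mem_nhds hz')
  have t2 : Filter.Tendsto (fun u => z + u) (nhdsWithin (-z) {-z}ᶜ) (nhdsWithin 0 {0}ᶜ) := by
    have h := A1_tendsto (fun u => z + u) (-z) (by fun_prop) (add_right_injective z)
    simp only [add_neg_cancel] at h
    exact h
  have c2 : ∀ᶠ u in nhdsWithin (-z) {-z}ᶜ, z + u ∉ Lam := t2.eventually (A2_Lam_discrete 0)
  have c3 : ∀ᶠ u in nhdsWithin (-z) {-z}ᶜ, w - u ∉ Lam := by
    have hc : ContinuousAt (fun u : ℂ => w - u) (-z) := by fun_prop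
    have h0 : w - (-z) ∉ Lam := by
      rw [sub_neg_eq_add, add_comm]
      exact hzw
    exact nhdsWithin_le_nhds (hc.tendsto.eventually (A1_open.mem_nhds h0))
  have c4 := wp_nonconst hz' (wp z)
  have c5 := wp_nonconst hz' (wp w)
  obtain ⟨U, hU, -, hexp⟩ := wp_expansion
  have c6 : ∀ᶠ u in nhdsWithin (-z) {-z}ᶜ, wp (z + u) ≠ wp (w - u) := by
    have e1 := t2.eventually hexp
    have hc : ContinuousAt (fun u : ℂ => 1 + (z + u) ^ 6 * U (z + u) - (z + u) ^ 2 * wp (w - u)) (-z) := by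
      have h1 : ContinuousAt (fun u : ℂ => U (z + u)) (-z) := by
        have h2 : ContinuousAt U (z + -z) := by
          rw [add_neg_cancel]
          exact hU.continuousAt
        exact ContinuousAt.comp (f := fun u => z + u) h2 (by fun_prop)
      have h3 : ContinuousAt (fun u : ℂ => wp (w - u)) (-z) := by
        have h4 : w - (-z) ∉ Lam := by
          rw [sub_neg_eq_add, add_comm]
          exact hzw
        have h2 : ContinuousAt wp (w - (-z)) := (A2_wp_analytic h4).continuousAt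
        exact ContinuousAt.comp (f := fun u => w - u) h2 (by fun_prop)
      have h5 : ContinuousAt (fun u : ℂ => (z + u) ^ 6) (-z) := by fun_prop
      have h6 : ContinuousAt (fun u : ℂ => (z + u) ^ 2) (-z) := by fun_prop
      exact (continuousAt_const.add (h5.mul h1)).sub (h6.mul h3)
    have e2 : ∀ᶠ u in nhds (-z), 1 + (z + u) ^ 6 * U (z + u) - (z + u) ^ 2 * wp (w - u) ≠ 0 := by
      apply hc.eventually_ne
      rw [add_neg_cancel]
      simp
    filter_upwards [e1, nhdsWithin_le_nhds e2, self_mem_nhdsWithin] with u hu1 hu2 hu3 h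
    apply hu2
    have hne : z + u ≠ 0 := by
      intro h0
      apply hu3
      show u = -z
      linear_combination h0
    rw [← h, hu1]
    field_simp
    ring
  have hall := c1.and (c2.and (c3.and (c4.and (c5.and c6))))
  obtain ⟨u, u1, u2, u3, u4, u5, u6⟩ := hall.exists
  have a1 := Phi_add_gen hz u1 u2 (fun h => u4 h.symm)
  have u1' : -u ∉ Lam := fun h => u1 (neg_mem_iff.1 h)
  have a2 : Phi (w + -u) = Phi w + Phi (-u) := by
    refine Phi_add_gen hw u1' ?_ ?_
    · rw [← sub_eq_add_neg]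
      exact u3
    · rw [wp_neg]
      exact fun h => u5 h.symm
  have a3 : Phi ((z + u) + (w - u)) = Phi (z + u) + Phi (w - u) := by
    refine Phi_add_gen u2 u3 ?_ u6
    have : (z + u) + (w - u) = z + w := by ring
    rw [this]
    exact hzw
  have e3 : (z + u) + (w - u) = z + w := by ring
  rw [e3] at a3
  rw [a3, a1, sub_eq_add_neg, a2, Phi_neg]
  abel

theorem Phi_add (z w : ℂ) : Phi (z + w) = Phi z + Phi w := by
  by_cases hz : z ∈ Lam
  · rw [Phi_of_mem hz, zero_add]
    obtain ⟨y, rfl⟩ := hz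
    rw [add_comm, Phi_per]
  by_cases hw : w ∈ Lam
  · rw [Phi_of_mem hw, add_zero]
    obtain ⟨y, rfl⟩ := hw
    rw [Phi_per]
  by_cases hzw : z + w ∈ Lam
  · rw [Phi_of_mem hzw]
    obtain ⟨y, hy⟩ := hzw
    have h1 : w = -z + 3 * e y := by linear_combination hy
    rw [h1, Phi_per, Phi_neg, add_neg_cancel]
  · exact GA3_gen hz hw hzw

/-- The uniformisation as a homomorphism. -/
noncomputable def GA3_hom : ℂ →+ P27 ℂ where
  toFun := Phi
  map_zero' := Phi_of_mem A1_zero_mem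
  map_add' := Phi_add

theorem Phi_act (c : O) (z : ℂ) : Phi (e c * z) = act c (Phi z) := by
  obtain ⟨a, b, rfl⟩ := exists_repr c
  have h1 : e ((a : O) + b * om) * z = a • z + b • (e om * z) := by
    rw [map_add, map_mul, map_intCast, map_intCast, zsmul_eq_mul, zsmul_eq_mul]
    ring
  rw [h1, act_apply]
  show GA3_hom (a • z + b • (e om * z)) = _
  rw [map_add, map_zsmul, map_zsmul]
  show a • Phi z + b • Phi (e om * z) = _
  rw [Phi_om]

end H28G
end

-- from Lib.H28G.GA4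
section

open NumberField IsDedekindDomain WeierstrassCurve

namespace H28G

open H55B

/-! Chunk GA4 (M): Phi is surjective. P = 0: Phi 0 (0 in Lam). P = (x, y): first some z not in Lam with wp z = c, c = kap^2 x. Otherwise D(z) = if z in Lam then 0 else
(wp z - c)^(-1) is Lam-periodic, analytic off Lam, and tends to 0 at the points of Lam (near 0: (wp z - c)^(-1) = z^2/(1 + z^6 u - c z^2)), so A0_liouville gives a constant,
equal to its value 0 at 0; but D(z) <> 0 for z not in Lam: contradiction. Then xz z = x and yz z^2 + yz z = x^3 = y^2 + y, so yz z = y or yz z = -1 - y; in the second case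
take -z (Phi_neg, xc_eq). -/

/-- The Weierstrass function takes every value. -/
theorem GA4_exists (c : ℂ) : ∃ z, z ∉ Lam ∧ wp z = c := by
  classical
  by_contra hcon
  push Not at hcon
  set D : ℂ → ℂ := fun z => if z ∈ Lam then 0 else (wp z - c)⁻¹ with hD
  have hper : ∀ z (y : O), D (z + 3 * e y) = D z := by
    intro z y
    simp only [hD]
    by_cases h : z ∈ Lam
    · rw [if_pos h, if_pos ((Lam_per y).2 h)]
    · rw [if_neg h, if_neg (fun h1 => h ((Lam_per y).1 h1)), wp_per]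
  obtain ⟨u, hu, -, hu2⟩ := wp_expansion
  set a0 : ℂ → ℂ := fun z => z ^ 2 / (1 + z ^ 6 * u z - c * z ^ 2) with ha0
  have ha0A : AnalyticAt ℂ a0 0 := by
    have hz : AnalyticAt ℂ (fun z : ℂ => z) 0 := analyticAt_id
    refine (hz.pow 2).div ((analyticAt_const.add ((hz.pow 6).mul hu)).sub
      (analyticAt_const.mul (hz.pow 2))) ?_
    simp
  have hloc0 : ∀ᶠ z in nhdsWithin (0 : ℂ) {0}ᶜ, D z = a0 z := by
    filter_upwards [hu2, A1_discrete 0, self_mem_nhdsWithin] with z h1 h2 h3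
    have hz : z ≠ 0 := h3
    simp only [hD, ha0]
    rw [if_neg h2, h1]
    have e1 : (z ^ 2)⁻¹ + z ^ 4 * u z - c = (1 + z ^ 6 * u z - c * z ^ 2) / z ^ 2 := by
      field_simp
    rw [e1, inv_div]
  have hloc : ∀ z₀, ∃ a : ℂ → ℂ, AnalyticAt ℂ a z₀ ∧ ∀ᶠ z in nhdsWithin z₀ {z₀}ᶜ, D z = a z := by
    intro z₀
    by_cases h : z₀ ∈ Lam
    · obtain ⟨y, hy⟩ := h
      refine ⟨fun z => a0 (z - z₀), ?_, ?_⟩
      · have h1 : AnalyticAt ℂ (fun z : ℂ => z - z₀) z₀ := analyticAt_id.sub analyticAt_const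
        have h2 : AnalyticAt ℂ a0 (z₀ - z₀) := by rwa [sub_self]
        exact AnalyticAt.fun_comp (f := fun z : ℂ => z - z₀) h2 h1
      · have ht := A1_tendsto (fun z : ℂ => z - z₀) z₀ (by fun_prop) (fun x y h => by
          simpa using h)
        have h4 : ∀ᶠ z in nhdsWithin (z₀ - z₀) {z₀ - z₀}ᶜ, D z = a0 z := by
          rw [sub_self]
          exact hloc0
        filter_upwards [ht.eventually h4] with z hz
        rw [← hz, ← hper (z - z₀) y]
        congr 1
        rw [← hy, sub_add_cancel]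
    · refine ⟨fun z => (wp z - c)⁻¹, ?_, ?_⟩
      · exact ((A1_wp_analytic h).sub analyticAt_const).inv (sub_ne_zero.2 (hcon z₀ h))
      · filter_upwards [A1_discrete z₀] with z hz
        simp only [hD]
        rw [if_neg hz]
  obtain ⟨c0, hc0⟩ := A0_liouville D hper hloc
  have h1 : a0 0 = c0 := hc0 0 a0 ha0A.continuousAt hloc0
  have h2 : (wp 1 - c)⁻¹ = c0 := by
    refine hc0 1 (fun z => (wp z - c)⁻¹) ?_ ?_
    · exact (((A1_wp_analytic A1_one_notMem).sub analyticAt_const).inv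
        (sub_ne_zero.2 (hcon 1 A1_one_notMem))).continuousAt
    · filter_upwards [A1_discrete 1] with z hz
      simp only [hD]
      rw [if_neg hz]
  have h3 : a0 0 = 0 := by
    simp [ha0]
  rw [h3] at h1
  rw [← h1] at h2
  exact inv_ne_zero (sub_ne_zero.2 (hcon 1 A1_one_notMem)) h2

theorem Phi_surj : Function.Surjective Phi := by
  intro P
  by_cases hP : P = 0
  · exact ⟨0, by rw [Phi_of_mem A1_zero_mem, hP]⟩
  obtain ⟨z, hz, hw⟩ := GA4_exists (kap ^ 2 * xc P)
  have hne : Phi z ≠ 0 := fun h0 => hz (Phi_eq_zero.1 h0)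
  have hx : xc (Phi z) = xc P := by
    rw [xc_Phi hz, xz, hw, mul_div_cancel_left₀ _ (pow_ne_zero 2 kap_ne)]
  rcases xc_eq hne hP hx with h | h
  · exact ⟨z, h⟩
  · refine ⟨-z, ?_⟩
    rw [Phi_neg, h, neg_neg]

end H28G
end

-- from Lib.H28G.GB1
section

open NumberField IsDedekindDomain WeierstrassCurve

namespace H28G

open H55B

/-! Chunk GB1 (S/M): the torsion points over C. rho b c = 3 e(c)/e(b), c in O/(b) (any representative). Phi (rho b c) is killed by b: Phi_act, e b * rho = 3 e(c) in Lam.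
Injective: Phi(rho c) = Phi(rho c') => 3 e(c - c')/e b in Lam (Phi_add, Phi_neg, Phi_eq_zero) => c - c' = b y. Surjective: P = Phi z, act b P = 0 => e b * z = 3 e y => z = 3 e y / e b and
the representative of y differs from y by b y', so Phi z = Phi(rho (mk y)) (Phi_per). Nat.card (O/(b)) = Nm b (absNorm, definition of Nm: Ideal.absNorm_apply, Submodule.cardQuot). -/

/-- Representatives of the points killed by b. -/
noncomputable def rho (b : O) (c : O ⧸ Ideal.span {b}) : ℂ := 3 * e (Quotient.out c) / e b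

theorem GB1_e_ne {b : O} (hb : b ≠ 0) : e b ≠ 0 := by
  intro h
  exact hb (e_injective (by rw [h, map_zero]))

theorem rho_mem (b : O) (hb : b ≠ 0) (c : O ⧸ Ideal.span {b}) : Phi (rho b c) ∈ Tor b ℂ := by
  have h0 := GB1_e_ne hb
  rw [mem_Tor, ← Phi_act, Phi_eq_zero]
  refine ⟨Quotient.out c, ?_⟩
  unfold rho
  field_simp

theorem rho_bij (b : O) (hb : b ≠ 0) :
    Function.Bijective (fun c : O ⧸ Ideal.span {b} => (⟨Phi (rho b c), rho_mem b hb c⟩ : Tor b ℂ)) := by
  have h0 := GB1_e_ne hb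
  constructor
  · intro c c' h
    have h1 : Phi (rho b c) = Phi (rho b c') := congrArg Subtype.val h
    have h2 : Phi (rho b c + -rho b c') = 0 := by
      rw [Phi_add, Phi_neg, h1, add_neg_cancel]
    obtain ⟨y, hy⟩ := Phi_eq_zero.1 h2
    have h3 : e (Quotient.out c - Quotient.out c') = e (b * y) := by
      rw [map_sub, map_mul]
      unfold rho at hy
      have h4 : (3 : ℂ) * (e (Quotient.out c) - e (Quotient.out c')) = 3 * (e b * e y) := by
        field_simp at hy
        linear_combination 3 * hy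
      exact mul_left_cancel₀ (by norm_num) h4
    have h5 := e_injective h3
    have h6 : (Ideal.Quotient.mk (Ideal.span {b}) (Quotient.out c)) =
        Ideal.Quotient.mk (Ideal.span {b}) (Quotient.out c') := by
      rw [Ideal.Quotient.eq, Ideal.mem_span_singleton]
      exact ⟨y, h5⟩
    have e1 : (Ideal.Quotient.mk (Ideal.span {b}) (Quotient.out c)) = c := Quotient.out_eq c
    have e2 : (Ideal.Quotient.mk (Ideal.span {b}) (Quotient.out c')) = c' := Quotient.out_eq c'
    rw [← e1, h6, e2]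
  · rintro ⟨P, hP⟩
    obtain ⟨z, rfl⟩ := Phi_surj P
    rw [mem_Tor, ← Phi_act, Phi_eq_zero] at hP
    obtain ⟨y, hy⟩ := hP
    refine ⟨Ideal.Quotient.mk (Ideal.span {b}) y, Subtype.ext ?_⟩
    show Phi (rho b (Ideal.Quotient.mk (Ideal.span {b}) y)) = Phi z
    have e1 : (Ideal.Quotient.mk (Ideal.span {b})
        (Quotient.out (Ideal.Quotient.mk (Ideal.span {b}) y))) =
        Ideal.Quotient.mk (Ideal.span {b}) y := Quotient.out_eq _
    rw [Ideal.Quotient.eq, Ideal.mem_span_singleton] at e1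
    obtain ⟨y', hy'⟩ := e1
    have h1 : rho b (Ideal.Quotient.mk (Ideal.span {b}) y) = z + 3 * e y' := by
      have h2 : e (Quotient.out (Ideal.Quotient.mk (Ideal.span {b}) y)) = e y + e b * e y' := by
        rw [← map_mul, ← map_add, ← hy', add_sub_cancel]
      unfold rho
      rw [h2]
      field_simp
      linear_combination -hy
    rw [h1, Phi_per]

theorem finite_quot (b : O) (hb : b ≠ 0) : Finite (O ⧸ Ideal.span {b}) := by
  apply Ideal.finiteQuotientOfFreeOfNeBot
  rwa [Ne, Ideal.span_singleton_eq_bot]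

theorem full_C (b : O) (hb : b ≠ 0) : Full b ℂ := by
  unfold Full Nm
  rw [← Nat.card_congr (Equiv.ofBijective _ (rho_bij b hb)), Ideal.absNorm_apply,
    Submodule.cardQuot_apply]

end H28G
end

-- from Lib.H28G.GB3
section

open NumberField IsDedekindDomain WeierstrassCurve

namespace H28G

open H55B

/-! Chunk GB3 (S/M): counting. count_pt: if z0 + rho c - p and z0 + rho c' - p are in Lam, then rho c - rho c' is in Lam, so Phi(rho c) = Phi(rho c') and c = c' (rho_bij): at most one term is 1. If one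
term is 1: e b (z0 + rho c - p) in Lam (Lam is an O-module: e b * 3 e y = 3 e (b y)), e b rho c in Lam, e b p - p in Lam, so e b z0 - p in Lam. Conversely if e b z0 - p in Lam then
e b (p - z0) in Lam, so p - z0 = 3 e y/e b and Phi(p - z0) is in Tor b, = Phi(rho c) for some c (rho_bij), so p - z0 - rho c in Lam.
count_half, b not divisible by 2 (2 is prime in O: two_prime): H = {h : h not in Lam, 2 h in Lam}. At most one term: if h = z0 + rho c, h' = z0 + rho c' in H then rho c - rho c' =: d satisfies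
2 d in Lam and e b d in Lam; 1 = 2 x + b y in O (O is a PID, 2 prime, 2 does not divide b), so d = x (2 d) + y (b d) in Lam, c = c'. If one term is 1: 2 e b z0 in Lam; e b z0 not in
Lam: otherwise e b h in Lam and 2 h in Lam give h in Lam. Conversely let e b z0 in H. With 1 = 2 x + b y: put h = b y z0 (h = z0 - 2 x z0): then e b (z0 - h) = e x * (2 e b z0) in Lam, so z0 - h = -rho c mod Lam for
some c; 2 h = e y (2 e b z0) in Lam, h not in Lam since otherwise e b h in Lam, and e b z0 = e b h + e b (z0 - h) in Lam. So z0 + rho c = h mod Lam is in H. -/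

theorem Lam_mul (b : O) {z : ℂ} (h : z ∈ Lam) : e b * z ∈ Lam := by
  obtain ⟨y, rfl⟩ := h
  exact ⟨b * y, by rw [map_mul]; ring⟩

theorem GB3_sub {z w : ℂ} (h : z ∈ Lam) (h' : w ∈ Lam) : z - w ∈ Lam := by
  rw [sub_eq_add_neg]
  exact A1_add_mem h (A1_neg_mem h')

theorem GB3_sum {ι : Type} [Fintype ι] (P : ι → Prop) [DecidablePred P] (Q : Prop) [Decidable Q]
    (h1 : ∀ c c', P c → P c' → c = c') (h2 : (∃ c, P c) ↔ Q) :
    (∑ c : ι, if P c then (1 : ℤ) else 0) = if Q then 1 else 0 := by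
  classical
  by_cases hQ : Q
  · rw [if_pos hQ]
    obtain ⟨c, hc⟩ := h2.2 hQ
    rw [Finset.sum_eq_single c]
    · exact if_pos hc
    · intro c' _ hne
      exact if_neg fun h => hne (h1 _ _ h hc)
    · intro h
      exact absurd (Finset.mem_univ c) h
  · rw [if_neg hQ]
    refine Finset.sum_eq_zero fun c _ => if_neg fun h => hQ (h2.1 ⟨c, h⟩)

theorem GB3_eb {b : O} (hb : b ≠ 0) : e b ≠ 0 := by
  intro h
  apply hb
  apply e_injective
  rw [h, map_zero]

theorem GB3_rho {b : O} (hb : b ≠ 0) (c : O ⧸ Ideal.span {b}) : e b * rho b c ∈ Lam := by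
  refine ⟨Quotient.out c, ?_⟩
  unfold rho
  have := GB3_eb hb
  field_simp

theorem GB3_inj {b : O} (hb : b ≠ 0) {c c' : O ⧸ Ideal.span {b}} (h : rho b c - rho b c' ∈ Lam) :
    c = c' := by
  obtain ⟨y, hy⟩ := h
  have hb' := GB3_eb hb
  have h1 : e (Quotient.out c - Quotient.out c') = e (b * y) := by
    unfold rho at hy
    rw [map_sub, map_mul]
    field_simp at hy
    linear_combination hy
  have h2 := e_injective h1
  have h3 : ∀ c : O ⧸ Ideal.span {b}, Ideal.Quotient.mk (Ideal.span {b}) (Quotient.out c) = c :=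
    fun c => Quotient.out_eq c
  rw [← h3 c, ← h3 c', Ideal.Quotient.eq, h2]
  exact Ideal.mul_mem_right _ _ (Ideal.mem_span_singleton_self b)

theorem GB3_ex {b : O} (hb : b ≠ 0) {w : ℂ} (h : e b * w ∈ Lam) :
    ∃ c : O ⧸ Ideal.span {b}, w - rho b c ∈ Lam := by
  obtain ⟨y, hy⟩ := h
  have hb' := GB3_eb hb
  have h3 : Ideal.Quotient.mk (Ideal.span {b})
      (Quotient.out (Ideal.Quotient.mk (Ideal.span {b}) y)) =
      Ideal.Quotient.mk (Ideal.span {b}) y := Quotient.out_eq _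
  rw [Ideal.Quotient.eq, Ideal.mem_span_singleton] at h3
  obtain ⟨t, ht⟩ := h3
  refine ⟨Ideal.Quotient.mk (Ideal.span {b}) y, -t, ?_⟩
  have h4 : e (Quotient.out (Ideal.Quotient.mk (Ideal.span {b}) y)) = e y + e b * e t := by
    have h5 := congrArg e ht
    rw [map_sub, map_mul] at h5
    linear_combination h5
  unfold rho
  rw [h4, map_neg]
  field_simp
  linear_combination hy

open Classical in
theorem count_pt (b : O) (hb : b ≠ 0) [Fintype (O ⧸ Ideal.span {b})] (p : ℂ) (hp : e b * p - p ∈ Lam)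
    (z₀ : ℂ) : (∑ c : O ⧸ Ideal.span {b}, if z₀ + rho b c - p ∈ Lam then (1 : ℤ) else 0) =
      if e b * z₀ - p ∈ Lam then 1 else 0 := by
  refine GB3_sum _ _ ?_ ⟨?_, ?_⟩
  · intro c c' h h'
    apply GB3_inj hb
    have h1 := GB3_sub h h'
    have h2 : z₀ + rho b c - p - (z₀ + rho b c' - p) = rho b c - rho b c' := by ring
    rwa [h2] at h1
  · rintro ⟨c, hc⟩
    have h1 := A1_add_mem (GB3_sub (Lam_mul b hc) (GB3_rho hb c)) hp
    have h2 : e b * (z₀ + rho b c - p) - e b * rho b c + (e b * p - p) = e b * z₀ - p := by ring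
    rwa [h2] at h1
  · intro h
    have h1 := GB3_sub hp h
    have h2 : e b * p - p - (e b * z₀ - p) = e b * (p - z₀) := by ring
    rw [h2] at h1
    obtain ⟨c, hc⟩ := GB3_ex hb h1
    refine ⟨c, ?_⟩
    have h3 := A1_neg_mem hc
    have h4 : -(p - z₀ - rho b c) = z₀ + rho b c - p := by ring
    rwa [h4] at h3


end H28G
end

-- from Lib.H28G.GB4
section

open NumberField IsDedekindDomain WeierstrassCurve

namespace H28G

open H55B

/-! Chunk GB4 (M): the general distribution relation. D(z) = (prod over c of g(z + rho c)) * (g(e b z))^(-1). D is Lam-periodic: z -> z + 3 e y changes e b z by 3 e (b y). At every z0: Od (fun z => D z) z0 0 by Od.prod,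
Od.comp_add, Od.comp_mul, Od.inv, Od.mul and hcount: D z = (z - z0)^0 h z = h z near z0 with h analytic, h z0 <> 0. A0_liouville: there is C with a z0 = C for every z0 and every
continuous a equal to D near z0; with a = h: C = h z0 <> 0. For z near z0, z <> z0, z <> singular: h is also an admissible a at z (h is continuous near z0, D = h on a punctured
neighbourhood of z0, which is a neighbourhood of z), so h z = C, so D z = C, and since the product D z = C <> 0 the value g(e b z) is not 0: multiply. -/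

theorem GB4_e_inj : Function.Injective e :=
  emb.injective.comp NumberField.RingOfIntegers.coe_injective

theorem dist_gen (g : ℂ → ℂ) (hper : ∀ z (y : O), g (z + 3 * e y) = g z) (n : ℂ → ℤ)
    (hn : ∀ z, Od g z (n z)) (b : O) (hb : b ≠ 0) [Fintype (O ⧸ Ideal.span {b})]
    (hcount : ∀ z₀, ∑ c : O ⧸ Ideal.span {b}, n (z₀ + rho b c) = n (e b * z₀)) :
    ∃ C : ℂ, C ≠ 0 ∧ ∀ z₀, ∀ᶠ z in nhdsWithin z₀ {z₀}ᶜ,
      ∏ c : O ⧸ Ideal.span {b}, g (z + rho b c) = C * g (e b * z) := by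
  have heb : e b ≠ 0 := by
    intro h
    apply hb
    have h1 : e b = e 0 := by rw [h, map_zero]
    exact GB4_e_inj h1
  set D : ℂ → ℂ := fun z => (∏ c : O ⧸ Ideal.span {b}, g (z + rho b c)) * (g (e b * z))⁻¹ with hD
  have hDper : ∀ z (y : O), D (z + 3 * e y) = D z := by
    intro z y
    have e1 : e b * (z + 3 * e y) = e b * z + 3 * e (b * y) := by
      rw [map_mul]
      ring
    simp only [hD]
    rw [e1, hper]
    congr 1
    refine Finset.prod_congr rfl fun c _ => ?_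
    have e2 : z + 3 * e y + rho b c = z + rho b c + 3 * e y := by ring
    rw [e2, hper]
  have hOd : ∀ z₀, ∃ h : ℂ → ℂ, AnalyticAt ℂ h z₀ ∧ h z₀ ≠ 0 ∧
      ∀ᶠ z in nhdsWithin z₀ {z₀}ᶜ, D z = h z := by
    intro z₀
    have h1 : Od (fun z => ∏ c : O ⧸ Ideal.span {b}, g (z + rho b c)) z₀
        (∑ c : O ⧸ Ideal.span {b}, n (z₀ + rho b c)) :=
      Od.prod Finset.univ fun c _ => Od.comp_add (hn (z₀ + rho b c))
    have h2 : Od (fun z => (g (e b * z))⁻¹) z₀ (-n (e b * z₀)) :=
      Od.inv (Od.comp_mul heb (hn (e b * z₀)))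
    obtain ⟨h, ha, h0, hh⟩ := Od.mul h1 h2
    refine ⟨h, ha, h0, ?_⟩
    filter_upwards [hh] with z hz
    rw [hcount, add_neg_cancel, zpow_zero, one_mul] at hz
    exact hz
  obtain ⟨C, hC⟩ := A0_liouville D hDper fun z₀ => by
    obtain ⟨h, ha, _, hh⟩ := hOd z₀
    exact ⟨h, ha, hh⟩
  have hC0 : C ≠ 0 := by
    obtain ⟨h, ha, h0, hh⟩ := hOd 0
    rw [← hC 0 h ha.continuousAt hh]
    exact h0
  refine ⟨C, hC0, ?_⟩
  intro z₀
  obtain ⟨h, ha, h0, hh⟩ := hOd z₀
  have h1 : ∀ᶠ z in nhds z₀, AnalyticAt ℂ h z := ha.eventually_analyticAt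
  have hh' := hh
  rw [eventually_nhdsWithin_iff] at hh'
  have h2 := hh'.eventually_nhds
  rw [eventually_nhdsWithin_iff] at hh ⊢
  filter_upwards [h1, h2, hh] with z hz1 hz2 hz3 hne
  have hDz : D z = C := by
    rw [hz3 hne]
    apply hC z h hz1.continuousAt
    rw [eventually_nhdsWithin_iff]
    filter_upwards [hz2, isOpen_ne.mem_nhds hne] with w hw1 hw2 _
    exact hw1 hw2
  have hg : g (e b * z) ≠ 0 := by
    intro h3
    apply hC0
    rw [← hDz]
    simp only [hD]
    rw [h3, inv_zero, mul_zero]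
  rw [← hDz]
  simp only [hD]
  rw [inv_mul_cancel_right₀ hg]

end H28G
end

-- from Lib.H28G.GB6
section

open NumberField IsDedekindDomain WeierstrassCurve

namespace H28G

open H55B

/-! Chunk GB6 (M): the orders of xz, fz, yz. -/

theorem GB6_congr {g g' : ℂ → ℂ} {z₀ : ℂ} {n : ℤ} (h : Od g z₀ n)
    (he : ∀ᶠ z in nhdsWithin z₀ {z₀}ᶜ, g' z = g z) : Od g' z₀ n := by
  obtain ⟨u, hu, hu0, hu1⟩ := h
  refine ⟨u, hu, hu0, ?_⟩
  filter_upwards [hu1, he] with z h1 h2
  rw [h2, h1]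

theorem GB6_zero {g : ℂ → ℂ} (hg : ∀ z (y : O), g (z + 3 * e y) = g z) {z₀ : ℂ} {n : ℤ}
    (h : Od g 0 n) (hz : z₀ ∈ Lam) : Od g z₀ n := by
  obtain ⟨y, hy⟩ := hz
  have h1 : Od (fun z => g (z + -z₀)) z₀ n := by
    apply Od.comp_add
    rwa [add_neg_cancel]
  refine GB6_congr h1 (Filter.Eventually.of_forall fun z => ?_)
  show g z = g (z + -z₀)
  have h2 := hg (z + -z₀) y
  rw [← hy] at h2
  rw [← h2]
  congr 1
  ring

theorem GB6_Phi {z w : ℂ} : Phi z = Phi w ↔ z - w ∈ Lam := by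
  rw [← Phi_eq_zero]
  have h : Phi (z - w) = Phi z - Phi w := by
    rw [sub_eq_add_neg, Phi_add, Phi_neg, ← sub_eq_add_neg]
  rw [h, sub_eq_zero]

theorem GB6_Phi' {z w : ℂ} : Phi z = -Phi w ↔ z + w ∈ Lam := by
  rw [← Phi_neg, GB6_Phi, sub_neg_eq_add]

theorem GB6_xz {z w : ℂ} (hz : z ∉ Lam) (hw : w ∉ Lam) (h : xz z = xz w) :
    z - w ∈ Lam ∨ z + w ∈ Lam := by
  rw [← xc_Phi hz, ← xc_Phi hw] at h
  rcases xc_eq (fun h0 => hz (Phi_eq_zero.1 h0)) (fun h0 => hw (Phi_eq_zero.1 h0)) h with h1 | h1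
  · exact Or.inl (GB6_Phi.1 h1)
  · exact Or.inr (GB6_Phi'.1 h1)

theorem GB6_xz_sub {z w : ℂ} (h : z - w ∈ Lam) : xz z = xz w ∧ yz z = yz w := by
  obtain ⟨y, hy⟩ := h
  have h1 : z = w + 3 * e y := by
    rw [← hy]
    ring
  rw [h1]
  exact ⟨xz_per w y, yz_per w y⟩

theorem GB6_xz_add {z w : ℂ} (h : z + w ∈ Lam) : xz z = xz w := by
  have h1 : z - -w ∈ Lam := by rwa [sub_neg_eq_add]
  rw [(GB6_xz_sub h1).1]
  unfold xz
  rw [wp_neg]

theorem GB6_xz_a : xz (e om - 1) = 0 := by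
  unfold xz
  rw [wp_zero_at, zero_div]

theorem GB6_xz_an {z : ℂ} (hz : z ∉ Lam) : AnalyticAt ℂ xz z := by
  have h := A2_wp_analytic hz
  unfold xz
  fun_prop (disch := exact pow_ne_zero _ kap_ne)

theorem GB6_fz_an {z : ℂ} (hz : z ∉ Lam) : AnalyticAt ℂ fz z := by
  have h := A2_wpd_analytic hz
  unfold fz
  fun_prop (disch := exact pow_ne_zero _ kap_ne)

theorem GB6_yz_an {z : ℂ} (hz : z ∉ Lam) : AnalyticAt ℂ yz z := by
  have h := GB6_fz_an hz
  unfold yz
  fun_prop (disch := norm_num)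

open Classical in
theorem Od_xz (z : ℂ) : Od xz z (if z ∈ Lam then -2 else
    if z - (e om - 1) ∈ Lam ∨ z + (e om - 1) ∈ Lam then 1 else 0) := by
  have hk := kap_ne
  split_ifs with h1 h2
  · refine GB6_zero xz_per ?_ h1
    obtain ⟨u, hu, -, hexp⟩ := wp_expansion
    refine ⟨fun z => (1 + z ^ 6 * u z) / kap ^ 2, ?_, ?_, ?_⟩
    · fun_prop (disch := exact pow_ne_zero _ kap_ne)
    · simp [hk]
    · filter_upwards [hexp, self_mem_nhdsWithin] with z h3 hz
      have hz' : z ≠ 0 := hz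
      unfold xz
      rw [h3, sub_zero, zpow_neg]
      have h4 : z ^ (2 : ℤ) = z ^ 2 := by norm_cast
      rw [h4]
      field_simp
  · have h3 : xz z = 0 := by
      rw [← GB6_xz_a]
      rcases h2 with h | h
      · exact (GB6_xz_sub h).1
      · exact GB6_xz_add h
    refine Od.of_simple (GB6_xz_an h1) h3 ?_
    have h4 : HasDerivAt xz (wpd z / kap ^ 2) z := (wp_hasDeriv h1).div_const _
    rw [h4.deriv]
    have h5 := fz_sq h1
    rw [h3] at h5
    intro h6
    have h7 : wpd z = 0 := by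
      rcases div_eq_zero_iff.1 h6 with h | h
      · exact h
      · exact absurd h (pow_ne_zero 2 hk)
    have h8 : fz z = 0 := by
      unfold fz
      rw [h7, zero_div]
    rw [h8] at h5
    norm_num at h5
  · refine Od.of_ne (GB6_xz_an h1) fun h3 => h2 ?_
    exact GB6_xz h1 A3_n1 (h3.trans GB6_xz_a.symm)


theorem exists_a0 : ∃ a : ℂ, (a = e om - 1 ∨ a = -(e om - 1)) ∧ a ∉ Lam ∧ xz a = 0 ∧ yz a = 0 := by
  have h := yz_eqn A3_n1
  rw [GB6_xz_a] at h
  have h1 : yz (e om - 1) * (yz (e om - 1) + 1) = 0 := by linear_combination h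
  rcases mul_eq_zero.1 h1 with h2 | h2
  · exact ⟨e om - 1, Or.inl rfl, A3_n1, GB6_xz_a, h2⟩
  · refine ⟨-(e om - 1), Or.inr rfl, fun h => A3_n1 (neg_mem_iff.1 h), ?_, ?_⟩
    · unfold xz
      rw [wp_neg, wp_zero_at, zero_div]
    · have h3 := fz_eq (e om - 1)
      have h4 : fz (-(e om - 1)) = -fz (e om - 1) := by
        unfold fz
        rw [A0_wpd_neg]
        ring
      unfold yz
      rw [h4, h3]
      linear_combination -h2

open Classical in
theorem Od_yz (a : ℂ) (ha : a ∉ Lam) (h1 : xz a = 0) (h2 : yz a = 0) (z : ℂ) :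
    Od yz z (if z ∈ Lam then -3 else if z - a ∈ Lam then 3 else 0) := by
  have hk := kap_ne
  split_ifs with h3 h4
  · refine GB6_zero yz_per ?_ h3
    obtain ⟨v, hv, hexp⟩ := wpd_expansion
    refine ⟨fun z => (-2 + z ^ 6 * v z - kap ^ 3 * z ^ 3) / (2 * kap ^ 3), ?_, ?_, ?_⟩
    · fun_prop (disch := exact mul_ne_zero two_ne_zero (pow_ne_zero _ kap_ne))
    · simp [hk]
    · filter_upwards [hexp, self_mem_nhdsWithin] with z h3 hz
      have hz' : z ≠ 0 := hz
      unfold yz fz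
      rw [h3, sub_zero, zpow_neg]
      have h4 : z ^ (3 : ℤ) = z ^ 3 := by norm_cast
      rw [h4]
      field_simp
  · obtain ⟨h5, h6⟩ := GB6_xz_sub h4
    rw [h1] at h5
    rw [h2] at h6
    have h7 : Od xz z 1 := by
      have h8 := Od_xz z
      rw [if_neg h3] at h8
      have h9 : z - (e om - 1) ∈ Lam ∨ z + (e om - 1) ∈ Lam :=
        GB6_xz h3 A3_n1 (h5.trans GB6_xz_a.symm)
      rwa [if_pos h9] at h8
    have hy := GB6_yz_an h3
    have h8 : Od (fun t => yz t + 1) z 0 := by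
      refine Od.of_ne (by fun_prop) ?_
      show yz z + 1 ≠ 0
      rw [h6, zero_add]
      exact one_ne_zero
    have h9 := (h7.mul (h7.mul h7)).mul h8.inv
    have h10 : (1 : ℤ) + (1 + 1) + -0 = 3 := by norm_num
    rw [h10] at h9
    refine GB6_congr h9 ?_
    have h11 : ∀ᶠ t in nhds z, yz t + 1 ≠ 0 := by
      have h12 : ContinuousAt (fun t => yz t + 1) z :=
        hy.continuousAt.add continuousAt_const
      apply h12.eventually_ne
      rw [h6, zero_add]
      exact one_ne_zero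
    filter_upwards [A2_Lam_discrete z, nhdsWithin_le_nhds h11] with t ht1 ht2
    have h12 := yz_eqn ht1
    rw [eq_mul_inv_iff_mul_eq₀ ht2]
    linear_combination h12
  · refine Od.of_ne (GB6_yz_an h3) fun h5 => h4 ?_
    have h6 : xz z = 0 := by
      have h7 := yz_eqn h3
      rw [h5] at h7
      have h8 : xz z ^ 3 = 0 := by linear_combination -h7
      exact pow_eq_zero_iff (by norm_num) |>.1 h8
    rw [← GB6_Phi]
    refine pt_ext (fun h0 => h3 (Phi_eq_zero.1 h0)) (fun h0 => ha (Phi_eq_zero.1 h0)) ?_ ?_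
    · rw [xc_Phi h3, xc_Phi ha, h6, h1]
    · rw [yc_Phi h3, yc_Phi ha, h5, h2]

end H28G
end

-- from Lib.H28G.GB5
section

open NumberField IsDedekindDomain WeierstrassCurve

namespace H28G

open H55B

/-! Chunk GB5 (M): the distribution relations for xz, yz, fz. Prim b: 3 | b - 1, so e b p - p in Lam for p with 3-torsion: e b p - p = 3 e(y) p, and for p = 0, p = +-(e om - 1) this is in Lam. b <> 0 (Prim.ne_zero).
distz_x: dist_gen with n from Od_xz; the sum over c of n(z0 + rho c) is by count_pt at p = 0 (with z0 + rho c - 0), p = a, p = -a: write the nested if as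
-2 [z in Lam] + [z - a in Lam] + [z + a in Lam] (the three conditions exclude each other: a, 2a not in Lam because (om - 1), 2 (om - 1) are not divisible by 3 in O, A1_mem_iff, A1_not_dvd).
Equality at z0 with e b z0 not in Lam: then z0 + rho c not in Lam for all c (else e b z0 in Lam), both sides are continuous at z0 and equal on a punctured neighbourhood: equal at z0
(tendsto_nhds_unique).
zero: near 0: xz z * prod_(c <> 0) xz(z + rho c) = C xz(e b z); multiply by z^2: z^2 xz z -> 1/kap^2 (wp_expansion), z^2 xz(e b z) -> 1/(kap^2 (e b)^2); note rho 0 is in Lam and rho c is not in Lam for c <> 0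
(rho_bij), so xz(z + rho 0) = xz z (periodicity). third: at a = +-(e om - 1): xz(a + u + rho 0) = xz(a+u), divide by u: xz(a+u)/u -> xz'(a) = kap fz(a) <> 0, xz(e b (a+u))/u = xz(a + e b u)/u -> e b xz'(a).
distz_y: dist_gen with Od_yz, n = -3 [z in Lam] + 3 [z - a in Lam]. distz_f: Od_fz, count_pt at 0 and count_half. -/

theorem GB5_prim_ne {x : O} (hx : Prim x) : x ≠ 0 := by
  rintro rfl
  have h : (3 : O) ∣ ((-1 : ℤ) : O) + ((0 : ℤ) : O) * om := by
    have h1 : (3 : O) ∣ 0 - 1 := hx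
    simpa using h1
  exact A1_not_dvd (by omega) h

theorem GB5_e_ne {b : O} (hb : b ≠ 0) : e b ≠ 0 := by
  intro h
  apply hb
  apply e_injective
  rw [h, map_zero]

theorem GB5_rho {b : O} (hb : b ≠ 0) (c : O ⧸ Ideal.span {b}) : e b * rho b c ∈ Lam := by
  have h := GB5_e_ne hb
  refine ⟨Quotient.out c, ?_⟩
  unfold rho
  field_simp

theorem GB5_notMem {b : O} (hb : b ≠ 0) (c : O ⧸ Ideal.span {b}) {z : ℂ} (hz : e b * z ∉ Lam) :
    z + rho b c ∉ Lam := by
  intro h
  apply hz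
  have h1 := Lam_mul b h
  rw [mul_add] at h1
  have h2 := A1_add_mem h1 (A1_neg_mem (GB5_rho hb c))
  rwa [add_neg_cancel_right] at h2

theorem GB5_rho_zero (b : O) (hb : b ≠ 0) : ∃ y : O, rho b 0 = 3 * e y := by
  have h0 : (Ideal.Quotient.mk (Ideal.span {b})) (Quotient.out (0 : O ⧸ Ideal.span {b})) = 0 :=
    Ideal.Quotient.mk_out _
  rw [Ideal.Quotient.eq_zero_iff_mem, Ideal.mem_span_singleton] at h0
  obtain ⟨y, hy⟩ := h0
  have h := GB5_e_ne hb
  refine ⟨y, ?_⟩
  unfold rho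
  rw [hy, map_mul]
  field_simp

theorem GB5_rho_ne {b : O} (hb : b ≠ 0) {c : O ⧸ Ideal.span {b}} (hc : c ≠ 0) : rho b c ∉ Lam := by
  rintro ⟨y, hy⟩
  apply hc
  have h := GB5_e_ne hb
  unfold rho at hy
  rw [div_eq_iff h] at hy
  have h1 : e (Quotient.out c) = e (b * y) := by
    rw [map_mul]
    have h3 : (3 : ℂ) ≠ 0 := by norm_num
    apply mul_left_cancel₀ h3
    linear_combination hy
  have h2 := e_injective h1
  rw [← Ideal.Quotient.mk_out c, h2, Ideal.Quotient.eq_zero_iff_mem, Ideal.mem_span_singleton]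
  exact ⟨y, rfl⟩

theorem GB5_wp_deriv {z : ℂ} (h : z ∉ Lam) : HasDerivAt wp (wpd z) z := by
  have h1 := (A2_wp_analytic h).differentiableAt.hasDerivAt
  have h2 : deriv wp z = wpd z := congrFun LL.deriv_weierstrassP z
  rwa [h2] at h1

theorem GB5_xz_an {z : ℂ} (h : z ∉ Lam) : AnalyticAt ℂ xz z := by
  have h1 := A2_wp_analytic h
  have h2 : AnalyticAt ℂ (fun w => wp w / kap ^ 2) z := h1.div analyticAt_const (pow_ne_zero 2 kap_ne)
  exact h2

theorem GB5_fz_an {z : ℂ} (h : z ∉ Lam) : AnalyticAt ℂ fz z := by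
  have h1 := A2_wpd_analytic h
  have h2 : AnalyticAt ℂ (fun w => wpd w / kap ^ 3) z := h1.div analyticAt_const (pow_ne_zero 3 kap_ne)
  exact h2

theorem GB5_yz_an {z : ℂ} (h : z ∉ Lam) : AnalyticAt ℂ yz z := by
  have h1 := GB5_fz_an h
  have h2 : AnalyticAt ℂ (fun w => (fz w - 1) / 2) z :=
    (h1.sub analyticAt_const).div analyticAt_const (by norm_num)
  exact h2

theorem GB5_point (g : ℂ → ℂ) (hg : ∀ z, z ∉ Lam → ContinuousAt g z) (b : O) (hb : b ≠ 0)
    [Fintype (O ⧸ Ideal.span {b})] (C : ℂ)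
    (h : ∀ z₀, ∀ᶠ z in nhdsWithin z₀ {z₀}ᶜ,
      ∏ c : O ⧸ Ideal.span {b}, g (z + rho b c) = C * g (e b * z)) (z : ℂ) (hz : e b * z ∉ Lam) :
    ∏ c : O ⧸ Ideal.span {b}, g (z + rho b c) = C * g (e b * z) := by
  have h1 : ContinuousAt (fun w => ∏ c : O ⧸ Ideal.span {b}, g (w + rho b c)) z := by
    have h2 : ContinuousAt (fun w => ∏ c ∈ (Finset.univ : Finset (O ⧸ Ideal.span {b})),
        g (w + rho b c)) z := by
      refine tendsto_finsetProd _ fun c _ => ?_
      have h3 : ContinuousAt (fun w => w + rho b c) z := by fun_prop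
      exact (hg _ (GB5_notMem hb c hz)).comp (f := fun w => w + rho b c) h3
    exact h2
  have h2 : ContinuousAt (fun w => C * g (e b * w)) z := by
    have h3 : ContinuousAt (fun w => e b * w) z := by fun_prop
    exact continuousAt_const.mul ((hg _ hz).comp (f := fun w => e b * w) h3)
  have h3 := h1.tendsto.mono_left (nhdsWithin_le_nhds (s := {z}ᶜ))
  have h4 := h2.tendsto.mono_left (nhdsWithin_le_nhds (s := {z}ᶜ))
  exact tendsto_nhds_unique (h3.congr' (h z)) h4

theorem GB5_pt_mem {b : O} (hb : Prim b) {p : ℂ} (hp : p = 0 ∨ p = e om - 1 ∨ p = -(e om - 1)) :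
    e b * p - p ∈ Lam := by
  obtain ⟨y, hy⟩ := hb
  have h1 : e b = 1 + 3 * e y := by
    have : b = 1 + 3 * y := by linear_combination hy
    rw [this, map_add, map_mul, map_one, map_ofNat]
  rw [h1]
  rcases hp with rfl | rfl | rfl
  · refine ⟨0, ?_⟩
    rw [map_zero]
    ring
  · refine ⟨y * (om - 1), ?_⟩
    rw [map_mul, map_sub, map_one]
    ring
  · refine ⟨-(y * (om - 1)), ?_⟩
    rw [map_neg, map_mul, map_sub, map_one]
    ring

theorem GB5_two_n1 : 2 * (e om - 1) ∉ Lam := by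
  have h : ¬ (3 : O) ∣ ((-2 : ℤ) : O) + ((2 : ℤ) : O) * om := A1_not_dvd (by omega)
  intro h1
  apply h
  rw [← A1_mem_iff]
  have h2 : e (((-2 : ℤ) : O) + ((2 : ℤ) : O) * om) = 2 * (e om - 1) := by
    push_cast
    rw [map_add, map_neg, map_mul, map_ofNat]
    ring
  rw [h2]
  exact h1

open Classical in
theorem GB5_count_zero (b : O) (hb : b ≠ 0) [Fintype (O ⧸ Ideal.span {b})] (z₀ : ℂ) :
    (∑ c : O ⧸ Ideal.span {b}, if z₀ + rho b c ∈ Lam then (1 : ℤ) else 0) =
      if e b * z₀ ∈ Lam then 1 else 0 := by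
  have h := count_pt b hb 0 (by rw [mul_zero, sub_zero]; exact A1_zero_mem) z₀
  simp only [sub_zero] at h
  exact h

open Classical in
theorem GB5_nx (z : ℂ) : (if z ∈ Lam then (-2 : ℤ) else
    if z - (e om - 1) ∈ Lam ∨ z + (e om - 1) ∈ Lam then 1 else 0) =
    -2 * (if z ∈ Lam then (1 : ℤ) else 0) + (if z - (e om - 1) ∈ Lam then (1 : ℤ) else 0) +
      (if z - (-(e om - 1)) ∈ Lam then (1 : ℤ) else 0) := by
  rw [sub_neg_eq_add]
  by_cases h1 : z ∈ Lam
  · have h2 : z - (e om - 1) ∉ Lam := by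
      intro h
      apply A3_n1
      have := A1_add_mem h1 (A1_neg_mem h)
      have e1 : z + -(z - (e om - 1)) = e om - 1 := by ring
      rwa [e1] at this
    have h3 : z + (e om - 1) ∉ Lam := by
      intro h
      apply A3_n1
      have := A1_add_mem h (A1_neg_mem h1)
      have e1 : z + (e om - 1) + -z = e om - 1 := by ring
      rwa [e1] at this
    simp [h1, h2, h3]
  · by_cases h2 : z - (e om - 1) ∈ Lam
    · have h3 : z + (e om - 1) ∉ Lam := by
        intro h
        apply GB5_two_n1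
        have := A1_add_mem h (A1_neg_mem h2)
        have e1 : z + (e om - 1) + -(z - (e om - 1)) = 2 * (e om - 1) := by ring
        rwa [e1] at this
      simp [h1, h2, h3]
    · simp [h1, h2]

theorem GB5_dist_x (b : O) (hb : Prim b) [Fintype (O ⧸ Ideal.span {b})] :
    ∃ C : ℂ, C ≠ 0 ∧ ∀ z₀, ∀ᶠ z in nhdsWithin z₀ {z₀}ᶜ,
      ∏ c : O ⧸ Ideal.span {b}, xz (z + rho b c) = C * xz (e b * z) := by
  classical
  refine dist_gen xz xz_per _ Od_xz b (GB5_prim_ne hb) ?_
  intro z₀
  simp only [GB5_nx]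
  rw [Finset.sum_add_distrib, Finset.sum_add_distrib, ← Finset.mul_sum,
    GB5_count_zero b (GB5_prim_ne hb) z₀]
  have h1 := count_pt b (GB5_prim_ne hb) (e om - 1) (GB5_pt_mem hb (Or.inr (Or.inl rfl))) z₀
  have h2 := count_pt b (GB5_prim_ne hb) (-(e om - 1)) (GB5_pt_mem hb (Or.inr (Or.inr rfl))) z₀
  rw [h1, h2]

theorem GB5_lim : Filter.Tendsto (fun z => z ^ 2 * xz z) (nhdsWithin 0 {0}ᶜ) (nhds (1 / kap ^ 2)) := by
  obtain ⟨u, hu, -, hexp⟩ := wp_expansion
  have h1 : ContinuousAt (fun z => (1 + z ^ 6 * u z) / kap ^ 2) 0 := by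
    have := hu.continuousAt
    fun_prop
  have h2 := h1.tendsto.mono_left (nhdsWithin_le_nhds (s := {(0 : ℂ)}ᶜ))
  have h3 : (1 + (0 : ℂ) ^ 6 * u 0) / kap ^ 2 = 1 / kap ^ 2 := by
    norm_num
  rw [h3] at h2
  refine h2.congr' ?_
  filter_upwards [hexp, self_mem_nhdsWithin] with z hz hne
  have hne' : z ≠ 0 := hne
  unfold xz
  rw [hz]
  field_simp

theorem distz_x (b : O) (hb : Prim b) [Fintype (O ⧸ Ideal.span {b})] [DecidableEq (O ⧸ Ideal.span {b})] :
    ∃ C : ℂ, C ≠ 0 ∧
    (∀ z, e b * z ∉ Lam → ∏ c : O ⧸ Ideal.span {b}, xz (z + rho b c) = C * xz (e b * z)) ∧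
    (∏ c ∈ Finset.univ.erase (0 : O ⧸ Ideal.span {b}), xz (rho b c) = C / (e b) ^ 2) ∧
    (∀ a : ℂ, a = e om - 1 ∨ a = -(e om - 1) →
      ∏ c ∈ Finset.univ.erase (0 : O ⧸ Ideal.span {b}), xz (a + rho b c) = C * e b) := by
  obtain ⟨C, hC, h⟩ := GB5_dist_x b hb
  have hb0 := (GB5_prim_ne hb)
  have heb := GB5_e_ne hb0
  have hk := kap_ne
  obtain ⟨y0, hy0⟩ := GB5_rho_zero b hb0
  have hsplit : ∀ z, xz z * ∏ c ∈ Finset.univ.erase (0 : O ⧸ Ideal.span {b}), xz (z + rho b c) =
      ∏ c : O ⧸ Ideal.span {b}, xz (z + rho b c) := by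
    intro z
    rw [← Finset.mul_prod_erase Finset.univ _ (Finset.mem_univ (0 : O ⧸ Ideal.span {b})), hy0, xz_per]
  refine ⟨C, hC, GB5_point xz (fun z hz => (GB5_xz_an hz).continuousAt) b hb0 C h, ?_, ?_⟩
  · -- limit at 0
    have h1 : Filter.Tendsto (fun z : ℂ => ∏ c ∈ Finset.univ.erase (0 : O ⧸ Ideal.span {b}),
        xz (z + rho b c)) (nhdsWithin 0 {0}ᶜ)
        (nhds (∏ c ∈ Finset.univ.erase (0 : O ⧸ Ideal.span {b}), xz (rho b c))) := by
      refine tendsto_finsetProd _ fun c hc => ?_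
      have hne := GB5_rho_ne hb0 (Finset.ne_of_mem_erase hc)
      have h3 : ContinuousAt (fun w : ℂ => w + rho b c) 0 := by fun_prop
      have h4 : ContinuousAt xz (0 + rho b c) := by
        rw [zero_add]
        exact (GB5_xz_an hne).continuousAt
      have h5 := (h4.comp (f := fun w : ℂ => w + rho b c) h3).tendsto
      have h6 : (xz ∘ fun w : ℂ => w + rho b c) 0 = xz (rho b c) := by
        simp
      rw [h6] at h5
      exact h5.mono_left nhdsWithin_le_nhds
    have h2 := GB5_lim.mul h1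
    have h3 : Filter.Tendsto (fun z : ℂ => C * (((e b * z) ^ 2 * xz (e b * z)) / (e b) ^ 2))
        (nhdsWithin 0 {0}ᶜ) (nhds (C * (1 / kap ^ 2 / (e b) ^ 2))) := by
      have ht := A1_tendsto (fun z => e b * z) 0 (by fun_prop) (mul_right_injective₀ heb)
      simp only [mul_zero] at ht
      exact ((GB5_lim.comp ht).div_const _).const_mul _
    have h4 : C * (1 / kap ^ 2 / (e b) ^ 2) =
        1 / kap ^ 2 * ∏ c ∈ Finset.univ.erase (0 : O ⧸ Ideal.span {b}), xz (rho b c) := by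
      refine tendsto_nhds_unique (h3.congr' ?_) h2
      filter_upwards [h 0, self_mem_nhdsWithin] with z hz hne
      have hne' : z ≠ 0 := hne
      have := hsplit z
      rw [hz] at this
      field_simp
      linear_combination -this
    field_simp at h4 ⊢
    linear_combination -h4
  · intro a ha
    have haL : a ∉ Lam := by
      rcases ha with rfl | rfl
      · exact A3_n1
      · exact fun h => A3_n1 (neg_mem_iff.1 h)
    have hxa : xz a = 0 := by
      unfold xz
      rcases ha with rfl | rfl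
      · rw [wp_zero_at, zero_div]
      · rw [wp_neg, wp_zero_at, zero_div]
    have hmem : e b * a - a ∈ Lam := GB5_pt_mem hb (Or.inr ha)
    have hda : wpd a ≠ 0 := by
      intro h0
      have h1 := fz_sq haL
      rw [hxa] at h1
      unfold fz at h1
      rw [h0] at h1
      norm_num at h1
    have hebL : e b * a ∉ Lam := by
      intro h0
      apply haL
      have := A1_add_mem h0 (A1_neg_mem hmem)
      have e1 : e b * a + -(e b * a - a) = a := by ring
      rwa [e1] at this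
    obtain ⟨y, hy⟩ := hmem
    have hX : HasDerivAt xz (wpd a / kap ^ 2) a := (GB5_wp_deriv haL).div_const _
    have hP : AnalyticAt ℂ (fun z : ℂ => ∏ c ∈ Finset.univ.erase (0 : O ⧸ Ideal.span {b}),
        xz (z + rho b c)) a := by
      refine Finset.analyticAt_fun_prod _ fun c _ => ?_
      have h1 := GB5_xz_an (GB5_notMem hb0 c hebL)
      exact h1.comp (f := fun w : ℂ => w + rho b c) (by fun_prop)
    have hL := hX.fun_mul hP.differentiableAt.hasDerivAt
    rw [hxa, zero_mul, add_zero] at hL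
    have hR : HasDerivAt (fun z : ℂ => C * xz (a + e b * (z - a))) (C * (wpd a / kap ^ 2 * e b)) a := by
      have h1 : HasDerivAt (fun z : ℂ => a + e b * (z - a)) (e b) a := by
        have h2 := (((hasDerivAt_id a).sub_const a).const_mul (e b)).const_add a
        rw [mul_one] at h2
        exact h2
      have h2 : HasDerivAt xz (wpd a / kap ^ 2) (a + e b * (a - a)) := by
        rw [sub_self, mul_zero, add_zero]
        exact hX
      exact (h2.comp a h1).const_mul C
    have hxz : ∀ z, xz (e b * z) = xz (a + e b * (z - a)) := by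
      intro z
      rw [← xz_per (a + e b * (z - a)) y]
      congr 1
      linear_combination hy
    have heq : (fun z : ℂ => C * xz (a + e b * (z - a))) =ᶠ[nhds a]
        fun z : ℂ => xz z * ∏ c ∈ Finset.univ.erase (0 : O ⧸ Ideal.span {b}), xz (z + rho b c) := by
      have h1 := h a
      rw [eventually_nhdsWithin_iff] at h1
      filter_upwards [h1] with z hz
      by_cases hza : z = a
      · rw [hza, sub_self, mul_zero, add_zero, hxa, zero_mul, mul_zero]
      · rw [hsplit, hz hza, hxz]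
    have h1 := (hR.congr_of_eventuallyEq heq.symm).unique hL
    have h2 : wpd a / kap ^ 2 ≠ 0 := div_ne_zero hda (pow_ne_zero 2 hk)
    apply mul_left_cancel₀ h2
    linear_combination -h1

theorem distz_y (b : O) (hb : Prim b) [Fintype (O ⧸ Ideal.span {b})] : ∃ C : ℂ, C ≠ 0 ∧
    ∀ z, e b * z ∉ Lam → ∏ c : O ⧸ Ideal.span {b}, yz (z + rho b c) = C * yz (e b * z) := by
  classical
  obtain ⟨a, ha, haL, hxa, hya⟩ := exists_a0
  have hn : ∀ z : ℂ, (if z ∈ Lam then (-3 : ℤ) else if z - a ∈ Lam then 3 else 0) =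
      -3 * (if z ∈ Lam then (1 : ℤ) else 0) + 3 * (if z - a ∈ Lam then (1 : ℤ) else 0) := by
    intro z
    by_cases h1 : z ∈ Lam
    · have h2 : z - a ∉ Lam := by
        intro h
        apply haL
        have := A1_add_mem h1 (A1_neg_mem h)
        have e1 : z + -(z - a) = a := by ring
        rwa [e1] at this
      simp [h1, h2]
    · by_cases h2 : z - a ∈ Lam
      · simp [h1, h2]
      · simp [h1, h2]
  obtain ⟨C, hC, h⟩ := dist_gen yz yz_per _ (Od_yz a haL hxa hya) b (GB5_prim_ne hb) (by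
    intro z₀
    simp only [hn]
    rw [Finset.sum_add_distrib, ← Finset.mul_sum, ← Finset.mul_sum, GB5_count_zero b (GB5_prim_ne hb) z₀]
    have h1 := count_pt b (GB5_prim_ne hb) a (GB5_pt_mem hb (Or.inr ha)) z₀
    rw [h1])
  exact ⟨C, hC, GB5_point yz (fun z hz => (GB5_yz_an hz).continuousAt) b (GB5_prim_ne hb) C h⟩


end H28G
end

-- from Lib.H28G.GC1
section

open NumberField IsDedekindDomain WeierstrassCurve

namespace H28G

open H55B

/-! Chunk GC1 (M): the distribution relations over C for points. X = Phi z (Phi_surj), act b X = Phi (e b z), <> 0 iff e b z not in Lam; the points R of Tor b C are the Phi (rho b c) (rho_bij):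
finprod over Tor b C = product over c (finprod_eq_of_bijective / Fintype.prod_equiv, finprod_eq_prod_of_fintype), X + Phi(rho c) = Phi(z + rho c) (Phi_add), z + rho c not in Lam
(otherwise e b z in Lam), xc_Phi, yc_Phi, fc_Phi. For R <> 0: the c <> 0 (rho 0 in Lam, rho_bij).
C^6 = 1: let q1 be the number of the c <> 0, a = e om - 1 (xz a = 0: wp_zero_at, a not in Lam, A = Phi a). For c <> 0, R = Phi(rho c): xc R <> 0 (otherwise R = A or -A (xc_eq), act b A = A because e b a - a in Lam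
(Prim b), but act b R = 0). add_coords for A and R: xc(A+R) = ((yc A - yc R)/(- xc R))^2 - xc R; with yc A in {0, -1}: yc A = 0: = (yc R^2 - xc R^3)/xc R^2 = - yc R/xc R^2; for yc A = -1: ((1 + yc R)^2 - xc R^3)/xc R^2 =
(1 + yc R)/xc R^2. In both cases xc(A+R) xc(A-R) = -1/xc R (replace yc R by -1 - yc R in the second factor; yc R (1 + yc R) = xc R^3). xz(-a + rho c) = xz(a - rho c) = xc(A - R). So the product of the two relations
prod xz(a + rho c) = C e b, prod xz(-a + rho c) = C e b is (C e b)^2 = prod over c <> 0 of (-1/xz(rho c)) = (-1)^q1 (e b)^2/C, so C^3 = (-1)^q1 and C^6 = 1. -/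

theorem GC1_a_notMem : e om - 1 ∉ Lam := by
  have h : e om - 1 = e (((-1 : ℤ) : O) + ((1 : ℤ) : O) * om) := by
    rw [map_add, map_mul, map_intCast, map_intCast]
    push_cast
    ring
  rw [h, A1_mem_iff]
  exact A1_not_dvd (by norm_num)

theorem GC1_ne {b : O} (hb : Prim b) : b ≠ 0 := by
  rintro rfl
  have h : (3 : O) ∣ ((-1 : ℤ) : O) + ((0 : ℤ) : O) * om := by
    have h1 : (3 : O) ∣ 0 - 1 := hb
    simpa using h1
  exact A1_not_dvd (by norm_num) h

theorem GC1_e_ne {b : O} (hb : b ≠ 0) : e b ≠ 0 := fun h => hb (e_injective (by rw [h, map_zero]))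

theorem GC1_rho_mul {b : O} (hb : b ≠ 0) (c : O ⧸ Ideal.span {b}) : e b * rho b c ∈ Lam := by
  refine ⟨Quotient.out c, ?_⟩
  unfold rho
  rw [mul_div_cancel₀ _ (GC1_e_ne hb)]

theorem GC1_notMem {b : O} (hb : b ≠ 0) {z : ℂ} (hz : e b * z ∉ Lam) (c : O ⧸ Ideal.span {b}) :
    z + rho b c ∉ Lam := by
  intro h
  apply hz
  have h1 := Lam_mul b h
  have h2 : e b * z = e b * (z + rho b c) + -(e b * rho b c) := by ring
  rw [h2]
  exact A1_add_mem h1 (A1_neg_mem (GC1_rho_mul hb c))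

theorem GC1_finprod {b : O} (hb : b ≠ 0) [Fintype (O ⧸ Ideal.span {b})] (g : P27 ℂ → ℂ) :
    ∏ᶠ R : Tor b ℂ, g (R : P27 ℂ) = ∏ c : O ⧸ Ideal.span {b}, g (Phi (rho b c)) := by
  rw [← finprod_eq_prod_of_fintype]
  exact (finprod_eq_of_bijective _ (rho_bij b hb) fun c => rfl).symm

theorem GC1_main {b : O} (hb : b ≠ 0) [Fintype (O ⧸ Ideal.span {b})] (g : P27 ℂ → ℂ) (gz : ℂ → ℂ)
    (hg : ∀ z, z ∉ Lam → g (Phi z) = gz z) {C : ℂ}
    (h : ∀ z, e b * z ∉ Lam → ∏ c : O ⧸ Ideal.span {b}, gz (z + rho b c) = C * gz (e b * z))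
    (X : P27 ℂ) (hX : act b X ≠ 0) :
    ∏ᶠ R : Tor b ℂ, g (X + (R : P27 ℂ)) = C * g (act b X) := by
  obtain ⟨z, rfl⟩ := Phi_surj X
  have hz : e b * z ∉ Lam := by
    intro h1
    apply hX
    rw [← Phi_act]
    exact Phi_of_mem h1
  rw [← Phi_act, hg _ hz, ← h z hz, GC1_finprod hb (fun R => g (Phi z + R))]
  refine Finset.prod_congr rfl fun c _ => ?_
  rw [← Phi_add, hg _ (GC1_notMem hb hz c)]

theorem GC1_zero {b : O} (hb : b ≠ 0) (c : O ⧸ Ideal.span {b}) : Phi (rho b c) = 0 ↔ c = 0 := by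
  have h0 : Phi (rho b 0) = 0 := by
    rw [Phi_eq_zero]
    have h1 : Ideal.Quotient.mk (Ideal.span {b}) (Quotient.out (0 : O ⧸ Ideal.span {b})) = 0 :=
      Ideal.Quotient.mk_out _
    rw [Ideal.Quotient.eq_zero_iff_mem, Ideal.mem_span_singleton] at h1
    obtain ⟨y, hy⟩ := h1
    refine ⟨y, ?_⟩
    unfold rho
    rw [hy, map_mul, div_eq_iff (GC1_e_ne hb)]
    ring
  constructor
  · intro h
    apply (rho_bij b hb).1
    apply Subtype.ext
    change Phi (rho b c) = Phi (rho b 0)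
    rw [h, h0]
  · rintro rfl
    exact h0

theorem GC1_finprod' {b : O} (hb : b ≠ 0) [Fintype (O ⧸ Ideal.span {b})]
    [DecidableEq (O ⧸ Ideal.span {b})] (g : P27 ℂ → ℂ) :
    ∏ᶠ R : {R : Tor b ℂ // R ≠ 0}, g (R.1 : P27 ℂ) =
      ∏ c ∈ Finset.univ.erase (0 : O ⧸ Ideal.span {b}), g (Phi (rho b c)) := by
  have hbij := rho_bij b hb
  let ψ : {c : O ⧸ Ideal.span {b} // c ≠ 0} → {R : Tor b ℂ // R ≠ 0} := fun c =>
    ⟨⟨Phi (rho b c.1), rho_mem b hb c.1⟩, fun h => c.2 ((GC1_zero hb c.1).1 (congrArg Subtype.val h))⟩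
  have hψ : Function.Bijective ψ := by
    constructor
    · intro c c' h
      apply Subtype.ext
      apply hbij.1
      exact congrArg Subtype.val h
    · rintro ⟨R, hR⟩
      obtain ⟨c, hc⟩ := hbij.2 R
      refine ⟨⟨c, ?_⟩, ?_⟩
      · intro h0
        apply hR
        rw [← hc]
        exact Subtype.ext ((GC1_zero hb c).2 h0)
      · apply Subtype.ext
        exact hc
  rw [Finset.prod_subtype (Finset.univ.erase (0 : O ⧸ Ideal.span {b})) (p := fun c => c ≠ 0)
    (fun x => by simp) (fun c => g (Phi (rho b c))), ← finprod_eq_prod_of_fintype]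
  exact (finprod_eq_of_bijective ψ hψ fun c => rfl).symm

/-- The product of the two translates by a point A with x(A) = 0. -/
theorem GC1_pair {A R : P27 ℂ} (hA : A ≠ 0) (hR : R ≠ 0) (hxA : xc A = 0) (hxR : xc R ≠ 0) :
    xc (A + R) * xc (-A + R) = -1 / xc R := by
  have hxA' : xc (-A) = 0 := by rw [xc_neg, hxA]
  obtain ⟨-, h1, -⟩ := add_coords hA hR (by rw [hxA]; exact hxR.symm)
  obtain ⟨-, h2, -⟩ := add_coords (neg_ne hA) hR (by rw [hxA']; exact hxR.symm)
  have hy := eqn A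
  rw [hxA] at hy
  have hyA : yc A * (yc A + 1) = 0 := by linear_combination hy
  have hyR := eqn R
  rw [h1, h2, hxA, hxA', yc_neg hA]
  obtain ⟨x, hx⟩ : ∃ x, x = xc R := ⟨_, rfl⟩
  obtain ⟨y, hy⟩ : ∃ y, y = yc R := ⟨_, rfl⟩
  rw [← hx, ← hy] at hyR
  rw [← hx] at hxR
  rw [← hx, ← hy]
  rcases mul_eq_zero.1 hyA with h | h
  · rw [h]
    have e1 : ((0 - y) / (0 - x)) ^ 2 - 0 - x = -y / x ^ 2 := by
      field_simp
      linear_combination x ^ 2 * hyR
    have e2 : ((-1 - 0 - y) / (0 - x)) ^ 2 - 0 - x = (1 + y) / x ^ 2 := by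
      field_simp
      linear_combination x ^ 2 * hyR
    rw [e1, e2]
    field_simp
    linear_combination -hyR
  · have h' : yc A = -1 := by linear_combination h
    rw [h']
    have e1 : ((-1 - y) / (0 - x)) ^ 2 - 0 - x = (1 + y) / x ^ 2 := by
      field_simp
      linear_combination x ^ 2 * hyR
    have e2 : ((-1 - -1 - y) / (0 - x)) ^ 2 - 0 - x = -y / x ^ 2 := by
      field_simp
      linear_combination x ^ 2 * hyR
    rw [e1, e2]
    field_simp
    linear_combination -hyR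

theorem distC_x (b : O) (hb : Prim b) : ∃ C : ℂ, C ^ 6 = 1 ∧
    (∀ X : P27 ℂ, act b X ≠ 0 → ∏ᶠ R : Tor b ℂ, xc (X + (R : P27 ℂ)) = C * xc (act b X)) ∧
    ∏ᶠ R : {R : Tor b ℂ // R ≠ 0}, xc (R.1 : P27 ℂ) = C / (e b) ^ 2 := by
  classical
  have hb0 : b ≠ 0 := GC1_ne hb
  have := finite_quot b hb0
  have : Fintype (O ⧸ Ideal.span {b}) := Fintype.ofFinite _
  obtain ⟨C, hC0, h1, h2, h3⟩ := distz_x b hb
  have heb := GC1_e_ne hb0
  have hne : ∀ c ∈ Finset.univ.erase (0 : O ⧸ Ideal.span {b}), Phi (rho b c) ≠ 0 := by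
    intro c hc h
    exact Finset.ne_of_mem_erase hc ((GC1_zero hb0 c).1 h)
  have hnL : ∀ c ∈ Finset.univ.erase (0 : O ⧸ Ideal.span {b}), rho b c ∉ Lam :=
    fun c hc h => hne c hc (Phi_of_mem h)
  refine ⟨C, ?_, ?_, ?_⟩
  · -- the sixth power
    obtain ⟨a, ha⟩ : ∃ a, a = e om - 1 := ⟨_, rfl⟩
    have ha0 : a ∉ Lam := by rw [ha]; exact GC1_a_notMem
    have hA0 : Phi a ≠ 0 := fun h => ha0 (Phi_eq_zero.1 h)
    have hxA : xc (Phi a) = 0 := by
      rw [xc_Phi ha0, ha]
      unfold xz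
      rw [wp_zero_at, zero_div]
    have hbA : act b (Phi a) = Phi a := by
      obtain ⟨y, hy⟩ := hb
      rw [← Phi_act]
      have h4 : e b * a = a + 3 * e (y * (om - 1)) := by
        have h5 : b = 1 + 3 * y := by linear_combination hy
        rw [h5, ha]
        simp only [map_add, map_mul, map_sub, map_one, map_ofNat]
        ring
      rw [h4, Phi_per]
    have hxR : ∀ c ∈ Finset.univ.erase (0 : O ⧸ Ideal.span {b}), xc (Phi (rho b c)) ≠ 0 := by
      intro c hc h
      have h4 : act b (Phi (rho b c)) = 0 := rho_mem b hb0 c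
      rcases xc_eq (hne c hc) hA0 (by rw [h, hxA]) with h5 | h5
      · rw [h5, hbA] at h4
        exact hA0 h4
      · rw [h5, map_neg, hbA] at h4
        exact neg_ne hA0 h4
    have hpair : ∀ c ∈ Finset.univ.erase (0 : O ⧸ Ideal.span {b}),
        xz (a + rho b c) * xz (-a + rho b c) = -1 / xz (rho b c) := by
      intro c hc
      have h4 : a + rho b c ∉ Lam := by
        intro h
        have h5 := Phi_of_mem h
        rw [Phi_add] at h5
        apply hxR c hc
        have h6 : Phi (rho b c) = -Phi a := (neg_eq_of_add_eq_zero_right h5).symm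
        rw [h6, xc_neg, hxA]
      have h4' : -a + rho b c ∉ Lam := by
        intro h
        have h5 := Phi_of_mem h
        rw [Phi_add, Phi_neg] at h5
        apply hxR c hc
        have h6 : Phi (rho b c) = Phi a := (neg_add_eq_zero.1 h5).symm
        rw [h6, hxA]
      rw [← xc_Phi h4, ← xc_Phi h4', ← xc_Phi (hnL c hc), Phi_add, Phi_add, Phi_neg]
      exact GC1_pair hA0 (hne c hc) hxA (hxR c hc)
    have h4 := h3 a (Or.inl ha)
    have h5 := h3 (-a) (Or.inr (by rw [ha]))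
    have h6 : (C * e b) * (C * e b) = (-1) ^ (Finset.univ.erase (0 : O ⧸ Ideal.span {b})).card /
        (C / (e b) ^ 2) := by
      rw [← h2]
      nth_rewrite 1 [← h4]
      rw [← h5, ← Finset.prod_mul_distrib, Finset.prod_congr rfl hpair, Finset.prod_div_distrib,
        Finset.prod_const]
    have h7 : C ^ 3 = (-1) ^ (Finset.univ.erase (0 : O ⧸ Ideal.span {b})).card := by
      rw [eq_div_iff (div_ne_zero hC0 (pow_ne_zero 2 heb))] at h6
      rw [← h6]
      field_simp
    calc C ^ 6 = (C ^ 3) ^ 2 := by ring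
      _ = 1 := by rw [h7, ← pow_mul, mul_comm, pow_mul, neg_one_sq, one_pow]
  · exact GC1_main hb0 xc xz (fun z hz => xc_Phi hz) h1
  · rw [← h2, GC1_finprod' hb0 xc]
    exact Finset.prod_congr rfl fun c hc => xc_Phi (hnL c hc)

theorem distC_y (b : O) (hb : Prim b) : ∃ C : ℂ, C ≠ 0 ∧
    ∀ X : P27 ℂ, act b X ≠ 0 → ∏ᶠ R : Tor b ℂ, yc (X + (R : P27 ℂ)) = C * yc (act b X) := by
  have hb0 : b ≠ 0 := GC1_ne hb
  have := finite_quot b hb0
  have : Fintype (O ⧸ Ideal.span {b}) := Fintype.ofFinite _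
  obtain ⟨C, hC0, h1⟩ := distz_y b hb
  exact ⟨C, hC0, GC1_main hb0 yc yz (fun z hz => yc_Phi hz) h1⟩


end H28G
end

-- from Lib.H28G.GC2
section

open NumberField IsDedekindDomain WeierstrassCurve

namespace H28G

open H55B

/-! Chunk GC2 (S/M): transfer to a field k over F with an embedding j into C and full b-torsion. mp j is a bijection Tor b k -> Tor b C (Full.bij, full_C, mp_inj). Put C' = (ak k b)^2 * finprod in k; its image is C
(j (ak k b) = e b: j.commutes, algC_e; map_finprod or finite products: Full.finite), so C'^6 = 1 by injectivity. For X over k: apply the relation over C to mp j X: mp j (X + R) = mp j X + mp j R, mp_act, xc_mp; both sides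
are images under j: injectivity of j. For y and f: C in C is not a priori in j(k): if there is a point X over k with act b X <> 0 and yc (act b X) <> 0 then C = j(quotient): use X = Spt = pt (-1) (ok k) (yc <> 0;
act b Spt = Spt for Prim b) for y. For f: X = Spt with b replaced: act b Spt <> 0 because 3 Spt = 0 and b prime to 3; here Prim b is assumed too (fc Spt = 2 om + 1 <> 0). So C' = (finprod over R of yc (Spt + R)) / yc Spt. -/

/-- The ring homomorphism from O to k. -/
noncomputable def ak (k : Type) [Field k] [Algebra F k] : O →+* k := (algebraMap F k).comp (algebraMap O F)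

section
variable {k : Type} [Field k] [DecidableEq k] [Algebra F k]

omit [DecidableEq k] in
theorem Spt_aux : (ok k) ^ 2 + ok k = (-1 : k) ^ 3 := by linear_combination ok_rel (k := k)

/-- The point S = (-1, om) of order 3. -/
noncomputable def Spt (k : Type) [Field k] [Algebra F k] : P27 k := pt (-1) (ok k) Spt_aux

omit [DecidableEq k] in
theorem GC2_ne : Spt k ≠ 0 := pt_ne _ _ _

omit [DecidableEq k] in
theorem GC2_xc : xc (Spt k) = -1 := rfl

omit [DecidableEq k] in
theorem GC2_yc : yc (Spt k) = ok k := rfl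

omit [DecidableEq k] in
theorem GC2_fc : fc (Spt k) = 2 * ok k + 1 := rfl

omit [DecidableEq k] in
theorem GC2_fc_sq : (2 * ok k + 1) ^ 2 = -3 := by linear_combination 4 * ok_rel (k := k)

omit [DecidableEq k] in
theorem GC2_fc_ne : fc (Spt k) ≠ 0 := by
  intro h
  rw [GC2_fc] at h
  have h1 := GC2_fc_sq (k := k)
  rw [h] at h1
  have := char0 (k := k)
  norm_num at h1

theorem three_Spt : (3 : ℤ) • Spt k = 0 := by
  obtain ⟨h1, h2, h3⟩ := dbl_coords (P := Spt k) GC2_ne GC2_fc_ne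
  have hs := GC2_fc_sq (k := k)
  have hf := GC2_fc_ne (k := k)
  have hx : xc (Spt k + Spt k) = xc (Spt k) := by
    rw [h2, div_pow, GC2_fc, hs, GC2_xc]
    have := char0 (k := k)
    norm_num
  have hy : yc (Spt k + Spt k) = yc (-Spt k) := by
    rw [h3, hx, sub_self, mul_zero, zero_add, yc_neg GC2_ne]
  have h4 : Spt k + Spt k = -Spt k := pt_ext h1 (neg_ne GC2_ne) (by rw [hx, xc_neg]) hy
  have h5 : (3 : ℤ) • Spt k = Spt k + Spt k + Spt k := by
    have : (3 : ℤ) = 1 + 1 + 1 := by norm_num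
    rw [this, add_zsmul, add_zsmul, one_zsmul]
  rw [h5, h4, neg_add_cancel]

theorem act_Spt (b : O) (hb : Prim b) : act b (Spt k) = Spt k := by
  obtain ⟨c, hc⟩ := hb
  have h1 : b = c * ((3 : ℤ) : O) + 1 := by
    push_cast
    linear_combination hc
  rw [h1, act_add, act_mul, act_int, three_Spt, map_zero, act_one, zero_add]

theorem GC2_prod (j : k →ₐ[F] ℂ) {b : O} (hb : b ≠ 0) (hf : Full b k) (g : P27 k → k) (g' : P27 ℂ → ℂ)
    (hg : ∀ P, g' (mp j P) = j (g P)) (X : P27 k) :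
    j (∏ᶠ R : Tor b k, g (X + (R : P27 k))) = ∏ᶠ R : Tor b ℂ, g' (mp j X + (R : P27 ℂ)) := by
  have h1 : j (∏ᶠ R : Tor b k, g (X + (R : P27 k))) = ∏ᶠ R : Tor b k, j (g (X + (R : P27 k))) :=
    MonoidHom.map_finprod_of_injective (j : k →* ℂ) j.injective _
  have hb' := Full.bij hb j hf (full_C b hb)
  let φ : Tor b k → Tor b ℂ := fun S => ⟨mp j S.1, (mp_mem_Tor j b S.1).2 S.2⟩
  have hφ : Function.Bijective φ := by
    refine ⟨fun a b hab => Subtype.ext (mp_inj j (congrArg Subtype.val hab)), ?_⟩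
    intro R
    obtain ⟨S, hS, hS'⟩ := hb' R.1 R.2
    exact ⟨⟨S, hS⟩, Subtype.ext hS'⟩
  rw [h1, ← finprod_comp φ hφ]
  refine finprod_congr fun R => ?_
  rw [← hg, map_add]

theorem GC2_prod0 (j : k →ₐ[F] ℂ) {b : O} (hb : b ≠ 0) (hf : Full b k) (g : P27 k → k) (g' : P27 ℂ → ℂ)
    (hg : ∀ P, g' (mp j P) = j (g P)) :
    j (∏ᶠ R : {R : Tor b k // R ≠ 0}, g (R.1 : P27 k)) = ∏ᶠ R : {R : Tor b ℂ // R ≠ 0}, g' (R.1 : P27 ℂ) := by
  have h1 : j (∏ᶠ R : {R : Tor b k // R ≠ 0}, g (R.1 : P27 k)) =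
      ∏ᶠ R : {R : Tor b k // R ≠ 0}, j (g (R.1 : P27 k)) :=
    MonoidHom.map_finprod_of_injective (j : k →* ℂ) j.injective _
  have hb' := Full.bij hb j hf (full_C b hb)
  let φ : {R : Tor b k // R ≠ 0} → {R : Tor b ℂ // R ≠ 0} := fun S =>
    ⟨⟨mp j S.1.1, (mp_mem_Tor j b S.1.1).2 S.1.2⟩, fun h => by
      have h2 : mp j S.1.1 = 0 := congrArg Subtype.val h
      exact mp_ne j (fun h3 => S.2 (Subtype.ext h3)) h2⟩
  have hφ : Function.Bijective φ := by
    refine ⟨fun a b hab => ?_, ?_⟩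
    · have h2 : mp j a.1.1 = mp j b.1.1 := congrArg (fun x => (x.1 : Tor _ ℂ).1) hab
      exact Subtype.ext (Subtype.ext (mp_inj j h2))
    · intro R
      obtain ⟨S, hS, hS'⟩ := hb' R.1.1 R.1.2
      refine ⟨⟨⟨S, hS⟩, fun h => R.2 ?_⟩, Subtype.ext (Subtype.ext hS')⟩
      have h2 : S = 0 := congrArg Subtype.val h
      rw [h2, map_zero] at hS'
      exact Subtype.ext hS'.symm
  rw [h1, ← finprod_comp φ hφ]
  refine finprod_congr fun R => ?_
  rw [← hg]

theorem GC2_ne_zero {b : O} (hb : Prim b) : b ≠ 0 := by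
  rintro rfl
  obtain ⟨c, hc⟩ := hb
  have h1 : (3 : O) ∣ 1 := ⟨-c, by linear_combination -hc⟩
  have h2 : e 1 ∈ Lam := (A1_mem_iff 1).2 h1
  rw [map_one] at h2
  exact A1_one_notMem h2

omit [DecidableEq k] in
theorem GC2_inj (j : k →ₐ[F] ℂ) {x y : k} (h : j x = j y) : x = y := j.injective h

omit [DecidableEq k] in
theorem GC2_ak (j : k →ₐ[F] ℂ) (b : O) : j (ak k b) = e b := j.commutes _

theorem dist_x (j : k →ₐ[F] ℂ) (b : O) (hb : Prim b) (hf : Full b k) : ∃ C : k, C ^ 6 = 1 ∧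
    (∀ X : P27 k, act b X ≠ 0 → ∏ᶠ R : Tor b k, xc (X + (R : P27 k)) = C * xc (act b X)) ∧
    ∏ᶠ R : {R : Tor b k // R ≠ 0}, xc (R.1 : P27 k) = C / (ak k b) ^ 2 := by
  have hb0 := GC2_ne_zero hb
  have heb : e b ≠ 0 := fun h => hb0 (e_injective (by rw [h, map_zero]))
  have hak : ak k b ≠ 0 := by
    intro h
    have := GC2_ak j b
    rw [h, map_zero] at this
    exact heb this.symm
  obtain ⟨C, h6, hX, h0⟩ := distC_x b hb
  set C' : k := (ak k b) ^ 2 * ∏ᶠ R : {R : Tor b k // R ≠ 0}, xc (R.1 : P27 k) with hC'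
  have hj : j C' = C := by
    rw [hC', map_mul, map_pow, GC2_ak, GC2_prod0 j hb0 hf xc xc (fun P => xc_mp j P), h0]
    field_simp
  refine ⟨C', ?_, ?_, ?_⟩
  · refine GC2_inj j ?_
    rw [map_pow, hj, h6, map_one]
  · intro X hXb
    refine GC2_inj j ?_
    rw [GC2_prod j hb0 hf xc xc (fun P => xc_mp j P), map_mul, hj, ← xc_mp, mp_act]
    apply hX
    rw [← mp_act]
    exact mp_ne j hXb
  · rw [hC', mul_div_cancel_left₀ _ (pow_ne_zero 2 hak)]

theorem dist_y (j : k →ₐ[F] ℂ) (b : O) (hb : Prim b) (hf : Full b k) : ∃ C : k, C ≠ 0 ∧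
    ∀ X : P27 k, act b X ≠ 0 → ∏ᶠ R : Tor b k, yc (X + (R : P27 k)) = C * yc (act b X) := by
  have hb0 := GC2_ne_zero hb
  obtain ⟨C, hC, hX⟩ := distC_y b hb
  set C' : k := (∏ᶠ R : Tor b k, yc (Spt k + (R : P27 k))) / yc (Spt k) with hC'
  have hj : j C' = C := by
    have h1 : act b (mp j (Spt k)) ≠ 0 := by
      rw [← mp_act, act_Spt b hb]
      exact mp_ne j GC2_ne
    have h2 : yc (mp j (Spt k)) ≠ 0 := by
      rw [yc_mp]
      exact (map_ne_zero j).2 (by rw [GC2_yc]; exact ok_ne)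
    rw [hC', map_div₀, GC2_prod j hb0 hf yc yc (fun P => yc_mp j P), hX _ h1, ← mp_act,
      act_Spt b hb, ← yc_mp, mul_div_cancel_right₀ _ h2]
  refine ⟨C', ?_, ?_⟩
  · intro h
    rw [h, map_zero] at hj
    exact hC hj.symm
  · intro X hXb
    refine GC2_inj j ?_
    rw [GC2_prod j hb0 hf yc yc (fun P => yc_mp j P), map_mul, hj, ← yc_mp, mp_act]
    apply hX
    rw [← mp_act]
    exact mp_ne j hXb


end

end H28G
end

-- from Lib.H13S.GI0
section

/-! # H13S: reduction (definitions). Kr is E1 of H28G for the valuation of a valuation ring. -/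

open NumberField IsDedekindDomain

namespace H13S

open H55P H28G H55B

variable {Ω : Type} [Field Ω] [DecidableEq Ω] [Algebra F Ω]

/-- The kernel of reduction. -/
def Kr (V : ValuationSubring Ω) (P : P27 Ω) : Prop := P = 0 ∨ 1 < V.valuation (xc P)

/-- The value of an element of O. -/
noncomputable abbrev vo (V : ValuationSubring Ω) (a : O) : V.ValueGroup :=
  V.valuation (algebraMap F Ω (a : F))

theorem vo_eq (V : ValuationSubring Ω) (a : O) : V.valuation (ak Ω a) = vo V a := rfl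

theorem kr_zero (V : ValuationSubring Ω) : Kr V (0 : P27 Ω) := Or.inl rfl

end H13S
end

-- from Lib.H28G.GD1
section

open NumberField IsDedekindDomain WeierstrassCurve

namespace H28G

open H55B

/-! Chunk GD1 (M): the torsion points are algebraic. alg_coord: let R in Tor b C, R <> 0, x = xc R, and suppose x is transcendental over F. M0 = F(x) (IntermediateField.adjoin F {x}), M1 = the algebraic closure of M0 in C
(algebraicClosure M0 C or the integral closure; algebraically closed is not needed, only algebraic over M0, and it contains y = yc R since y^2 + y = x^3). For n in N there is an F-algebra homomorphism s_n : M0 -> C with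
s_n x = x + n (x + n is transcendental: IsFractionRing/RatFunc lift, or AlgebraicIndependent.aevalEquiv, IntermediateField.algHomAdjoinIntegralEquiv is only for algebraic x; use
RatFunc/FractionRing F[X] ≃ F(x): IntermediateField.adjoin of a transcendental element, Transcendental), extended to M1 -> C by IsAlgClosed.lift. R comes from a point R1 over M1 (coordinates in M1), act b R1 = 0 (mp_mem_Tor for the inclusion); its image
under mp s_n is in Tor b C and has x-coordinate x + n: infinitely many elements in the finite group Tor b C (Full.finite (full_C)). Contradiction. So x and y are algebraic over F.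
full_Om: j : Om -> C over F (IsAlgClosed.lift). Every R in Tor b C, R <> 0, has algebraic coordinates, so they are in j(Om) (Om algebraically closed: the minimal polynomial of x over F splits in Om, its image under j has the roots
j(roots), x is one of them: e.g. via algebraicClosure F C = range of j, or Polynomial.Splits.image_rootSet), hence R = mp j S with S = pt of the preimages (the equation holds by injectivity of j). So mp j is a bijection from Tor b Om to Tor b C
(mp_mem_Tor) and the cardinalities agree. -/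

open IntermediateField in
/-- The embedding of F(x) with x to x + n. -/
noncomputable def GD1_s (x : ℂ) (h : Transcendental F x) (n : ℕ) (h' : Transcendental F (x + n)) : F⟮x⟯ →ₐ[F] ℂ :=
  (F⟮x + n⟯).val.comp (((RatFunc.algEquivOfTranscendental (x + n) h').toAlgHom).comp
    (RatFunc.algEquivOfTranscendental x h).symm.toAlgHom)

open IntermediateField in
theorem GD1_s_gen (x : ℂ) (h : Transcendental F x) (n : ℕ) (h' : Transcendental F (x + n)) :
    GD1_s x h n h' (AdjoinSimple.gen F x) = x + n := by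
  change (F⟮x + n⟯).val ((RatFunc.algEquivOfTranscendental (x + n) h') ((RatFunc.algEquivOfTranscendental x h).symm
    (AdjoinSimple.gen F x))) = x + n
  rw [RatFunc.algEquivOfTranscendental_symm_gen]
  exact RatFunc.algEquivOfTranscendental_X (x + n) h'

theorem GD1_y (P : P27 ℂ) (h : IsAlgebraic F (xc P)) : IsAlgebraic F (yc P) := by
  have h1 : IsAlgebraic F (4 * xc P ^ 3 + 1) := by
    have h4 : IsAlgebraic F (4 : ℂ) := by
      have := isAlgebraic_algebraMap (R := F) (A := ℂ) (4 : F)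
      rwa [map_ofNat] at this
    have h5 : IsAlgebraic F (1 : ℂ) := isAlgebraic_one
    exact (h4.mul (h.pow 3)).add h5
  rw [← fc_sq] at h1
  have h2 : IsAlgebraic F (fc P) := IsAlgebraic.of_pow (by norm_num) h1
  have h3 : yc P = (algebraMap F ℂ (1 / 2)) * (fc P - 1) := by
    unfold fc
    rw [map_div₀, map_one, map_ofNat]
    ring
  rw [h3]
  exact (isAlgebraic_algebraMap _).mul (h2.sub isAlgebraic_one)

open IntermediateField in
theorem GD1_x (b : O) (hb : b ≠ 0) (R : P27 ℂ) (hR : R ∈ Tor b ℂ) : IsAlgebraic F (xc R) := by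
  classical
  by_contra htr
  have h : Transcendental F (xc R) := htr
  have hR0 : R ≠ 0 := by
    rintro rfl
    exact htr (by rw [xc_zero]; exact isAlgebraic_zero)
  have hn : ∀ n : ℕ, Transcendental F (xc R + n) := by
    intro n h1
    apply htr
    have h2 : xc R = (xc R + n) - algebraMap F ℂ (n : F) := by
      rw [map_natCast]
      ring
    rw [h2]
    exact h1.sub (isAlgebraic_algebraMap _)
  have hfin : Finite (Tor b ℂ) := (full_C b hb).finite hb
  let M0 := F⟮xc R⟯
  let M1 := algebraicClosure M0 ℂ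
  have hx1 : xc R ∈ M1 := by
    rw [mem_algebraicClosure_iff]
    exact isAlgebraic_algebraMap (R := M0) (A := ℂ) (AdjoinSimple.gen F (xc R))
  have hy1 : yc R ∈ M1 := by
    rw [mem_algebraicClosure_iff]
    have h1 : IsAlgebraic M0 (fc R) := by
      refine IsAlgebraic.of_pow (n := 2) (by norm_num) ?_
      rw [fc_sq]
      have e : (4 * xc R ^ 3 + 1 : ℂ) = algebraMap M0 ℂ (4 * (AdjoinSimple.gen F (xc R)) ^ 3 + 1) := by
        rw [map_add, map_mul, map_pow, map_one, map_ofNat]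
        rfl
      rw [e]
      exact isAlgebraic_algebraMap _
    have h3 : yc R = (algebraMap M0 ℂ (1 / 2)) * (fc R - 1) := by
      unfold fc
      rw [map_div₀, map_one, map_ofNat]
      ring
    rw [h3]
    exact (isAlgebraic_algebraMap _).mul (h1.sub isAlgebraic_one)
  let j : M1 →ₐ[F] ℂ := AlgHom.restrictScalars F M1.val
  have hinj : Function.Injective j := j.toRingHom.injective
  have hE : (⟨yc R, hy1⟩ : M1) ^ 2 + ⟨yc R, hy1⟩ = (⟨xc R, hx1⟩ : M1) ^ 3 := by
    apply hinj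
    rw [map_add, map_pow, map_pow]
    exact eqn R
  let R1 : P27 M1 := pt ⟨xc R, hx1⟩ ⟨yc R, hy1⟩ hE
  have hR1 : mp j R1 = R := by
    refine pt_ext (mp_ne j (pt_ne _ _ _)) hR0 ?_ ?_
    · rw [xc_mp]
      rfl
    · rw [yc_mp]
      rfl
  have hT1 : R1 ∈ Tor b M1 := by
    rw [← mp_mem_Tor j, hR1]
    exact hR
  have hext : ∀ n : ℕ, ∃ φ : M1 →ₐ[F] ℂ, φ (⟨xc R, hx1⟩ : M1) = xc R + n := by
    intro n
    obtain ⟨φ, hφ⟩ := IsAlgClosed.surjective_domRestrict_of_isAlgebraic (K := F) (L := M0) (M := ℂ) (E := M1)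
      (GD1_s (xc R) h n (hn n))
    refine ⟨φ, ?_⟩
    have h1 := congrArg (fun f : M0 →ₐ[F] ℂ => f (AdjoinSimple.gen F (xc R))) hφ
    exact h1.trans (GD1_s_gen (xc R) h n (hn n))
  choose φ hφ using hext
  have hmem : ∀ n, mp (φ n) R1 ∈ Tor b ℂ := fun n => (mp_mem_Tor (φ n) b R1).2 hT1
  have hinj2 : Function.Injective (fun n : ℕ => (⟨mp (φ n) R1, hmem n⟩ : Tor b ℂ)) := by
    intro m n hmn
    have h1 := congrArg (fun P : Tor b ℂ => xc P.1) hmn
    simp only at h1
    rw [xc_mp, xc_mp] at h1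
    have e : xc R1 = (⟨xc R, hx1⟩ : M1) := rfl
    rw [e, hφ, hφ] at h1
    have h2 : (m : ℂ) = n := add_left_cancel h1
    exact_mod_cast h2
  exact not_injective_infinite_finite _ hinj2

theorem alg_coord (b : O) (hb : b ≠ 0) (R : P27 ℂ) (hR : R ∈ Tor b ℂ) :
    IsAlgebraic F (xc R) ∧ IsAlgebraic F (yc R) :=
  ⟨GD1_x b hb R hR, GD1_y R (GD1_x b hb R hR)⟩

theorem GD1_range (Ω : Type) [Field Ω] [Algebra F Ω] [IsAlgClosed Ω] (j : Ω →ₐ[F] ℂ) (x : ℂ) (hx : IsAlgebraic F x) :
    ∃ z : Ω, j z = x := by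
  let _ : Algebra Ω ℂ := j.toRingHom.toAlgebra
  have : IsScalarTower F Ω ℂ := IsScalarTower.of_algebraMap_eq fun y => (j.commutes y).symm
  have h1 : IsIntegral Ω x := (hx.tower_top (L := Ω)).isIntegral
  have h2 : (minpoly Ω x).degree = 1 := IsAlgClosed.degree_eq_one_of_irreducible Ω (minpoly.irreducible h1)
  obtain ⟨z, hz⟩ := minpoly.mem_range_of_degree_eq_one Ω x h2
  exact ⟨z, hz⟩

theorem full_Om (Ω : Type) [Field Ω] [DecidableEq Ω] [Algebra F Ω] [IsAlgClosed Ω]
    [Algebra.IsAlgebraic F Ω] (b : O) (hb : b ≠ 0) : Full b Ω := by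
  let j : Ω →ₐ[F] ℂ := IsAlgClosed.lift
  have hC := full_C b hb
  let ψ : Tor b Ω → Tor b ℂ := fun S => ⟨mp j S.1, (mp_mem_Tor j b S.1).2 S.2⟩
  have hψ : Function.Bijective ψ := by
    constructor
    · intro S T h
      exact Subtype.ext (mp_inj j (congrArg Subtype.val h))
    · rintro ⟨R, hR⟩
      by_cases hR0 : R = 0
      · refine ⟨0, Subtype.ext ?_⟩
        change mp j 0 = R
        rw [hR0, map_zero]
      · obtain ⟨hx, hy⟩ := alg_coord b hb R hR
        obtain ⟨x, hx⟩ := GD1_range Ω j _ hx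
        obtain ⟨y, hy⟩ := GD1_range Ω j _ hy
        have hE : y ^ 2 + y = x ^ 3 := by
          apply j.toRingHom.injective
          change j (y ^ 2 + y) = j (x ^ 3)
          rw [map_add, map_pow, map_pow, hx, hy]
          exact eqn R
        have h1 : mp j (pt x y hE) = R := by
          refine pt_ext (mp_ne j (pt_ne _ _ _)) hR0 ?_ ?_
          · rw [xc_mp, xc_pt, hx]
          · rw [yc_mp, yc_pt, hy]
        refine ⟨⟨pt x y hE, ?_⟩, Subtype.ext h1⟩
        rw [← mp_mem_Tor j, h1]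
        exact hR
  unfold Full at hC ⊢
  rw [← hC]
  exact Nat.card_eq_of_bijective ψ hψ

end H28G
end

-- from Lib.H28G.GV1
section

open NumberField IsDedekindDomain WeierstrassCurve

namespace H28G

open H55B

/-! Chunk GV1 (S/M): coordinates near infinity and integers. y^2 + y = x^3, v x > 1: v y > 1 (otherwise v(y^2+y) <= 1), so v(y^2 + y) = v(y)^2 (v y < v y^2; Valuation.map_add_eq_of_lt_left), v(y)^2 = v(x)^3.
t = -x/y: v(t)^2 = v(x)^2/v(x)^3, v(t)^3 = v(x)^3/v(y)^3 = 1/v(y). w = -1/y: w = t^3 + w^2, v(w) = v(t)^3. x = t/w, y = -1/w. Conversely int_y: v x <= 1 => v y <= 1 (otherwise v(y^2+y) = v(y)^2 > 1).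
ak_le: c = a + b om with integers a, b, v(integer) <= 1, v(om) = 1 (om^3 = 1). E1_neg: xc_neg. E1_om: v(ok) = 1. -/

variable {k : Type} [Field k] [DecidableEq k] [Algebra F k]
  {Γ : Type} [LinearOrderedCommGroupWithZero Γ] (v : Valuation k Γ)

omit [DecidableEq k] in
theorem GV1_big {x y : k} (h : y ^ 2 + y = x ^ 3) (hy : 1 < v y) : v y ^ 2 = v x ^ 3 := by
  have h1 : v y < v (y ^ 2) := by
    rw [map_pow]
    have h2 := pow_lt_pow_right₀ hy one_lt_two
    rwa [pow_one] at h2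
  have h3 := Valuation.map_add_eq_of_lt_left v h1
  rw [h, map_pow, map_pow] at h3
  exact h3.symm

theorem y_sq {P : P27 k} (h : 1 < v (xc P)) : v (yc P) ^ 2 = v (xc P) ^ 3 ∧ 1 < v (yc P) := by
  have hy : 1 < v (yc P) := by
    by_contra hc
    rw [not_lt] at hc
    have h1 : v (yc P ^ 2 + yc P) ≤ 1 := by
      refine v.map_add_le ?_ hc
      rw [map_pow]
      exact pow_le_one' hc 2
    rw [eqn P, map_pow] at h1
    exact absurd h1 (not_le.2 (one_lt_pow₀ h three_ne_zero))
  exact ⟨GV1_big v (eqn P) hy, hy⟩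

theorem GV1_ne {P : P27 k} (h : 1 < v (xc P)) : xc P ≠ 0 ∧ yc P ≠ 0 := by
  have hy := (y_sq v h).2
  constructor
  · intro h0
    rw [h0, map_zero] at h
    exact absurd h (not_lt.2 zero_le_one)
  · intro h0
    rw [h0, map_zero] at hy
    exact absurd hy (not_lt.2 zero_le_one)

theorem tt_val {P : P27 k} (h : 1 < v (xc P)) :
    v (tt P) < 1 ∧ v (tt P) ≠ 0 ∧ v (tt P) ^ 2 * v (xc P) = 1 ∧ v (tt P) ^ 3 * v (yc P) = 1 := by
  obtain ⟨hs, hy⟩ := y_sq v h
  obtain ⟨hx0, hy0⟩ := GV1_ne v h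
  have hvx0 : v (xc P) ≠ 0 := (Valuation.ne_zero_iff v).2 hx0
  have hvy0 : v (yc P) ≠ 0 := (Valuation.ne_zero_iff v).2 hy0
  have ht : v (tt P) = v (xc P) / v (yc P) := by
    unfold tt
    rw [map_div₀, Valuation.map_neg]
  rw [ht]
  refine ⟨?_, div_ne_zero hvx0 hvy0, ?_, ?_⟩
  · rw [div_lt_one₀ (zero_lt_iff.2 hvy0)]
    refine lt_of_pow_lt_pow_left₀ 2 zero_le ?_
    rw [hs]
    exact pow_lt_pow_right₀ h (by norm_num)
  · rw [div_pow, hs, div_mul_eq_mul_div, ← pow_succ]
    exact div_self (pow_ne_zero 3 hvx0)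
  · rw [div_pow, ← hs, div_mul_eq_mul_div, ← pow_succ]
    exact div_self (pow_ne_zero 3 hvy0)

theorem ww_val {P : P27 k} (h : 1 < v (xc P)) :
    ww P ≠ 0 ∧ v (ww P) = v (tt P) ^ 3 ∧ ww P = tt P ^ 3 + ww P ^ 2 ∧ xc P = tt P / ww P ∧
      yc P = -1 / ww P := by
  obtain ⟨hx0, hy0⟩ := GV1_ne v h
  obtain ⟨-, -, -, h4⟩ := tt_val v h
  have he := eqn P
  refine ⟨?_, ?_, ?_, ?_, ?_⟩
  · unfold ww
    exact div_ne_zero (neg_ne_zero.2 one_ne_zero) hy0
  · unfold ww
    rw [map_div₀, Valuation.map_neg, map_one]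
    exact (eq_one_div_of_mul_eq_one_left h4).symm
  · unfold ww tt
    field_simp
    linear_combination -he
  · unfold ww tt
    field_simp
  · unfold ww
    field_simp

theorem int_y {P : P27 k} (h : v (xc P) ≤ 1) : v (yc P) ≤ 1 := by
  by_contra hc
  rw [not_le] at hc
  have h1 := GV1_big v (eqn P) hc
  have h2 : v (xc P) ^ 3 ≤ 1 := pow_le_one' h 3
  rw [← h1] at h2
  exact absurd h2 (not_le.2 (one_lt_pow₀ hc two_ne_zero))

omit [DecidableEq k] in
theorem GV1_int (n : ℤ) : v (n : k) ≤ 1 := by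
  have h1 : (n : k) ∈ v.integer := intCast_mem v.integer n
  exact h1

theorem ok_val : v (ok k) = 1 := by
  have h1 : v (ok k) ^ 3 = 1 := by rw [← map_pow, ok_cube, map_one]
  exact (pow_eq_one_iff.1 h1).resolve_right (by norm_num)

theorem ak_le (c : O) : v (ak k c) ≤ 1 := by
  obtain ⟨a, b, rfl⟩ := exists_repr c
  have h1 : ak k ((a : O) + b * om) = (a : k) + (b : k) * ok k := by
    unfold ak ok
    simp
  rw [h1]
  refine v.map_add_le (GV1_int v a) ?_
  rw [map_mul, ok_val v, mul_one]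
  exact GV1_int v b

theorem E1_neg {P : P27 k} (h : E1 v P) : E1 v (-P) := by
  rcases h with h | h
  · left
    rw [h]
    rfl
  · right
    rw [xc_neg]
    exact h

theorem E1_om {P : P27 k} (h : E1 v P) : E1 v (omP P) ∧ tt (omP P) = ok k * tt P := by
  constructor
  · rcases h with h | h
    · left
      rw [h, map_zero]
    · right
      rw [xc_omP, map_mul, ok_val v, one_mul]
      exact h
  · unfold tt
    rw [xc_omP, yc_omP]
    ring

end H28G
end

-- from Lib.H28G.GV5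
section

open NumberField IsDedekindDomain WeierstrassCurve

namespace H28G

open H55B

/-! Chunk GV5 (M): P + R for P integral and R near infinity, to first order in t = tt R. (x0,y0) = P, (t,w) coordinates of R, w(1-w) = t^3, x(R) = t/w <> x0 since v(t/w) > 1. add_coords for P and R (or R and P: P + R = R + P):
s = (y0 + 1/w)/(x0 - t/w) = -(1 + y0 w)/(t - x0 w). Put a = w/t = t^2/(1-w), v(a) = v(t)^2. Then s = -(1 + y0 w)/(t (1 - x0 a)), t/w = (1-w)/t^2 and
x(P+R) + x0 = s^2 - t/w = [ (1+y0w)^2 - (1-w)(1-x0a)^2 ] / (t^2 (1-x0a)^2) = [ 2x0 + (2y0+1) w/t^2 - x0^2 a + y0^2 w^2/t^2 ] / (1-x0a)^2, w/t^2 = t/(1-w).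
So X1 := x(P+R) - x0 = [ (2y0+1) t/(1-w) - x0^2 a + y0^2 w^2/t^2 + 2x0 (1 - (1-x0a)^2) ]/(1-x0a)^2 = (2y0+1) t + 3 x0^2 t^2 + (terms of valuation <= v(t)^3)
(a = t^2 + a w, 2x0 (2 x0 a - x0^2a^2)). This gives the statement for x and v(X1 - (2y0+1)t - 3x0^2t^2) <= v(t)^3. y(P+R) = -1 - (s X1 + y0), s = -(1/t)(1 + y0w)/(1-x0a) = -(1/t)(1 + O(t^2)):
s X1 = -(2y0+1) - 3x0^2 t + (valuation <= v(t)^2), so y(P+R) = y0 + 3x0^2 t + (valuation <= v(t)^2). R = 0: tt 0 = 0, trivial. -/

variable {k : Type} [Field k] [DecidableEq k] [Algebra F k]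
  {Γ : Type} [LinearOrderedCommGroupWithZero Γ] (v : Valuation k Γ)

omit [DecidableEq k] [Algebra F k] in
/-- The algebra: t, w = t^3 g, a = t^2 g, b = 1/(1 - x0 t^2 g). -/
theorem GV5_alg {x y t w s X Y : k} (ht0 : t ≠ 0) (hw0 : w ≠ 0) (hw : w = t ^ 3 + w ^ 2)
    (hx : v x ≤ 1) (hy : v y ≤ 1) (ht : v t < 1) (hvw : v w = v t ^ 3)
    (hs : s = (y - -1 / w) / (x - t / w)) (hX : X = s ^ 2 - x - t / w) (hY : Y = -1 - (s * (X - x) + y)) :
    v X ≤ 1 ∧ v (X - x - (2 * y + 1) * t) ≤ v t ^ 2 ∧ v (Y - y - 3 * x ^ 2 * t) ≤ v t ^ 2 := by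
  have hvt0 : 0 < v t := by
    rw [zero_lt_iff]
    exact (Valuation.ne_zero_iff v).2 ht0
  have hw1 : v w < 1 := by
    rw [hvw]
    exact pow_lt_one₀ zero_le ht (by norm_num)
  have hγ : v (1 - w) = 1 := by
    rw [Valuation.map_sub_eq_of_lt_left v (by rwa [map_one]), map_one]
  have hγ0 : 1 - w ≠ 0 := by
    intro h
    rw [h, map_zero] at hγ
    exact zero_ne_one hγ
  obtain ⟨g, hg⟩ : ∃ g, g = (1 - w)⁻¹ := ⟨_, rfl⟩
  have hvg : v g ≤ 1 := by rw [hg, map_inv₀, hγ, inv_one]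
  have hg1 : g * (1 - w) = 1 := by rw [hg, inv_mul_cancel₀ hγ0]
  have ew : w = t ^ 3 * g := by
    have h1 : w * (1 - w) = t ^ 3 := by linear_combination hw
    have h2 : w = w * (1 - w) * g := by linear_combination (-w) * hg1
    rw [h2, h1]
  have hg2 : g = 1 + t ^ 3 * g ^ 2 := by
    rw [ew] at hg1
    linear_combination hg1
  have hβ : v (1 - x * (t ^ 2 * g)) = 1 := by
    have h1 : v (x * (t ^ 2 * g)) < 1 := by
      rw [map_mul, map_mul, map_pow]
      have h2 : v t ^ 2 < 1 := pow_lt_one₀ zero_le ht (by norm_num)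
      have h3 : v t ^ 2 * v g < 1 := (mul_le_of_le_one_right zero_le hvg).trans_lt h2
      exact (mul_le_of_le_one_left zero_le hx).trans_lt h3
    rw [Valuation.map_sub_eq_of_lt_left v (by rwa [map_one]), map_one]
  have hβ0 : 1 - x * (t ^ 2 * g) ≠ 0 := by
    intro h
    rw [h, map_zero] at hβ
    exact zero_ne_one hβ
  obtain ⟨b, hb⟩ : ∃ b, b = (1 - x * (t ^ 2 * g))⁻¹ := ⟨_, rfl⟩
  have hvb : v b ≤ 1 := by rw [hb, map_inv₀, hβ, inv_one]
  have hb1 : b * (1 - x * (t ^ 2 * g)) = 1 := by rw [hb, inv_mul_cancel₀ hβ0]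
  have hg0 : g ≠ 0 := by
    rw [hg]
    exact inv_ne_zero hγ0
  -- the slope
  have es : s * t = -((1 + y * (t ^ 3 * g)) * b) := by
    have hD : x - t / w = -(t * (1 - x * (t ^ 2 * g))) / w := by
      rw [ew]
      field_simp
      ring
    rw [hs, hD, hb]
    rw [ew]
    field_simp
    ring
  have etw : t / w * t ^ 2 = 1 - w := by
    have h1 : t / w * t ^ 2 = t ^ 3 / w := by ring
    rw [h1, div_eq_iff hw0]
    linear_combination -hw
  -- the integers
  let t' : v.integer := ⟨t, ht.le⟩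
  let g' : v.integer := ⟨g, hvg⟩
  let b' : v.integer := ⟨b, hvb⟩
  let x' : v.integer := ⟨x, hx⟩
  let y' : v.integer := ⟨y, hy⟩
  obtain ⟨M3, hM3⟩ : ∃ M : v.integer, M = (2 * y' + 1) * t' * g' ^ 2 + x' ^ 2 * t' ^ 2 * (3 * g' ^ 2 - g' ^ 3) +
    (y' ^ 2 * t' * g' ^ 2 - 2 * x' ^ 3 * t' * g' ^ 2 + x' ^ 2 * t' ^ 2 * g' ^ 3) := ⟨_, rfl⟩
  have hM3' : (M3 : k) = (2 * y + 1) * t * g ^ 2 + x ^ 2 * t ^ 2 * (3 * g ^ 2 - g ^ 3) +
    (y ^ 2 * t * g ^ 2 - 2 * x ^ 3 * t * g ^ 2 + x ^ 2 * t ^ 2 * g ^ 3) := by rw [hM3]; rfl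
  obtain ⟨M1, hM1⟩ : ∃ M : v.integer, M = (2 * y' + 1) + 3 * x' ^ 2 * t' + t' ^ 2 * M3 := ⟨_, rfl⟩
  have hM1' : (M1 : k) = (2 * y + 1) + 3 * x ^ 2 * t + t ^ 2 * M3 := by rw [hM1]; rfl
  obtain ⟨Q, hQ⟩ : ∃ M : v.integer, M = M3 + x' * g' * b' * (b' + 1) * M1 := ⟨_, rfl⟩
  have hQ' : (Q : k) = M3 + x * g * b * (b + 1) * M1 := by rw [hQ]; rfl
  obtain ⟨B, hB⟩ : ∃ M : v.integer, M = x' * g' * b' + y' * t' * g' * b' := ⟨_, rfl⟩
  have hB' : (B : k) = x * g * b + y * t * g * b := by rw [hB]; rfl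
  -- X
  have eX0 : (X - x) * t ^ 2 = (1 + y * (t ^ 3 * g)) ^ 2 * b ^ 2 - 2 * x * t ^ 2 - (1 - w) := by
    have h1 : (s * t) ^ 2 = (1 + y * (t ^ 3 * g)) ^ 2 * b ^ 2 := by rw [es]; ring
    rw [hX]
    linear_combination h1 - etw
  obtain ⟨β, hβd⟩ : ∃ β, β = 1 - x * (t ^ 2 * g) := ⟨_, rfl⟩
  rw [← hβd] at hb1
  obtain ⟨T, hT⟩ : ∃ T : k, T = (2 * y + 1) * t + 3 * x ^ 2 * t ^ 2 + t ^ 3 * M3 := ⟨_, rfl⟩
  have hbr : (1 + y * (t ^ 3 * g)) ^ 2 - 2 * x * t ^ 2 * β ^ 2 - (1 - t ^ 3 * g) * β ^ 2 = t ^ 2 * T := by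
    rw [hT, hM3', hβd]
    linear_combination t ^ 2 * (2 * x + (2 * y + 1) * t + x ^ 2 * t ^ 2 * (3 - g)) * hg2
  have hTM : T = t * M1 := by
    rw [hT, hM1']
    ring
  have hb2 : b - 1 = x * t ^ 2 * g * b := by
    rw [hβd] at hb1
    linear_combination hb1
  have eX : X - x = T + t ^ 3 * (x * g * b * (b + 1) * M1) := by
    have ht2 : t ^ 2 ≠ 0 := pow_ne_zero 2 ht0
    apply mul_right_cancel₀ ht2
    have h1 : (X - x) * t ^ 2 = b ^ 2 * (t ^ 2 * T) := by
      rw [ew] at eX0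
      linear_combination eX0 + b ^ 2 * hbr + (2 * x * t ^ 2 + (1 - t ^ 3 * g)) * (b * β + 1) * hb1
    rw [h1, hTM]
    linear_combination t ^ 3 * M1 * (b + 1) * hb2
  have eX2 : X - x = (2 * y + 1) * t + 3 * x ^ 2 * t ^ 2 + t ^ 3 * Q := by
    rw [eX, hT, hQ']
    ring
  have vt2 : ∀ z : v.integer, v (t ^ 2 * z) ≤ v t ^ 2 := fun z => by
    rw [map_mul, map_pow]
    exact mul_le_of_le_one_right zero_le z.2
  have hvt2 : v t ^ 2 ≤ 1 := pow_le_one₀ zero_le ht.le
  refine ⟨?_, ?_, ?_⟩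
  · have e : X = ((x' + ((2 * y' + 1) * t' + 3 * x' ^ 2 * t' ^ 2 + t' ^ 3 * Q) : v.integer) : k) := by
      change X = x + ((2 * y + 1) * t + 3 * x ^ 2 * t ^ 2 + t ^ 3 * (Q : k))
      rw [← eX2]
      ring
    rw [e]
    exact (x' + ((2 * y' + 1) * t' + 3 * x' ^ 2 * t' ^ 2 + t' ^ 3 * Q)).2
  · have e : X - x - (2 * y + 1) * t = t ^ 2 * ((3 * x' ^ 2 + t' * Q : v.integer) : k) := by
      change X - x - (2 * y + 1) * t = t ^ 2 * (3 * x ^ 2 + t * (Q : k))
      rw [eX2]
      ring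
    rw [e]
    exact vt2 _
  · have e : Y - y - 3 * x ^ 2 * t = t ^ 2 * ((Q + B * ((2 * y' + 1) + 3 * x' ^ 2 * t' + t' ^ 2 * Q) : v.integer) : k) := by
      change Y - y - 3 * x ^ 2 * t = t ^ 2 * ((Q : k) + (B : k) * ((2 * y + 1) + 3 * x ^ 2 * t + t ^ 2 * (Q : k)))
      apply mul_right_cancel₀ ht0
      have h2 : (1 + y * (t ^ 3 * g)) * b = 1 + t ^ 2 * (B : k) := by
        rw [hB']
        linear_combination hb2
      have h3 : Y * t = (-1 - y) * t - (s * t) * (X - x) := by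
        rw [hY]
        ring
      have h4 : (Y - y - 3 * x ^ 2 * t) * t = Y * t - y * t - 3 * x ^ 2 * t * t := by ring
      rw [h4, h3, es, eX2, h2]
      ring
    rw [e]
    exact vt2 _

theorem transl {P R : P27 k} (hP : P ≠ 0) (h : v (xc P) ≤ 1) (hR : E1 v R) :
    P + R ≠ 0 ∧ v (xc (P + R)) ≤ 1 ∧
    v (xc (P + R) - xc P - fc P * tt R) ≤ v (tt R) ^ 2 ∧
    v (yc (P + R) - yc P - 3 * xc P ^ 2 * tt R) ≤ v (tt R) ^ 2 := by
  by_cases hR0 : R = 0
  · subst hR0
    have e : tt (0 : P27 k) = 0 := by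
      unfold tt
      rw [xc_zero, neg_zero, zero_div]
    rw [add_zero, e]
    refine ⟨hP, h, ?_, ?_⟩ <;> simp
  · have h1 : 1 < v (xc R) := hR.resolve_left hR0
    obtain ⟨ht1, ht2, _, _⟩ := tt_val v h1
    obtain ⟨hw0, hvw, hw, hxR, hyR⟩ := ww_val v h1
    have ht0 : tt R ≠ 0 := (Valuation.ne_zero_iff v).1 ht2
    have hne : xc P ≠ xc R := by
      intro he
      rw [he] at h
      exact absurd h1 (not_lt.2 h)
    obtain ⟨a1, a2, a3⟩ := add_coords hP hR0 hne
    have h5 := GV5_alg v (x := xc P) (y := yc P) (t := tt R) (w := ww R) (s := (yc P - yc R) / (xc P - xc R))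
      (X := xc (P + R)) (Y := yc (P + R)) ht0 hw0 hw h (int_y v h) ht1 hvw (by rw [← hxR, ← hyR])
      (by rw [a2, ← hxR]) a3
    refine ⟨a1, h5.1, ?_, h5.2.2⟩
    unfold fc
    exact h5.2.1

end H28G
end

-- from Lib.H28G.GV2
section

open NumberField IsDedekindDomain WeierstrassCurve

namespace H28G

open H55B

/-! Chunk GV2 (M/L): addition near infinity. m = max (v tt P) (v tt Q) < 1. add_cases. P = 0 or Q = 0: trivial. P = -Q: P + Q = 0, tt Q + tt(-Q) = - 1/x(Q)^2 (tt(-Q) = x/(1+y)), of valuation v(tt Q)^4.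
P, Q <> 0 otherwise, both with v x > 1 (GV1). t_i, w_i coordinates, w_i = t_i^3 + w_i^2. Let
L = (t1^2 + t1 t2 + t2^2)/(1 - w1 - w2), v(1 - w1 - w2) = 1, v(L) <= m^2; (w1 - w2)(1 - w1 - w2) = (t1 - t2)(t1^2 + t1 t2 + t2^2), so w1 - w2 = L (t1 - t2). N = w1 - L t1 = w2 - L t2, v(N) <= m^3.
t3 = -L^2 - t1 - t2, w3 = L t3 + N. Claim: t1+t2+t3 = -L^2, t1t2+t1t3+t2t3 = 2 L N - L, t1t2t3 = N - N^2 (the cubic t^3 + (Lt+N)^2 - (Lt+N) has the roots t1, t2, hence t3; for t1 <> t2 subtract the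
equations of t1 and t2 and divide by t1 - t2; t1 = t2 implies w1 = w2, P = Q, and there the derivative 3t^2 + 2LN' .. vanishes by the definition of L = 3t^2/(1-2w)). Consequences (pure algebra):
w1 w2 w3 = N^3 and t1 w2 w3 + t2 w1 w3 + t3 w1 w2 = L^2 N, w3 = t3^3 + w3^2.
Case x(P) <> x(Q) (add_coords): slope s = (y1-y2)/(x1-x2) with x = t/w, y = -1/w. N <> 0: if N = 0 then w_i = L t_i, so x1 = 1/L = x2. s = L/N (1 = L x_i - N y_i). w3 <> 0 (w1w2w3 = N^3). So
x(P+Q) = s^2 - x1 - x2 = L^2/N^2 - t1/w1 - t2/w2 = t3/w3, and y(-(P+Q)) = s (x3 - x1) + y1 = -1/w3 (from 1 = L x3 - N y3). v(t3) <= m, v(w3) <= m^3 < 1, w3 = t3^3 + w3^2 gives v(w3) = v(t3)^3, v(x3) = v(t3)^(-2) > 1: E1.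
tt(P+Q) = x3/(1 + y3) = - t3/(1 - w3), y3 = -1/w3, so tt(P+Q) - t1 - t2 = (L^2 + (t1+t2) w3)/(1 - w3), of valuation <= m^4 <= m^2.
Case P = Q, fc P <> 0 (dbl_coords): the same with s = 3x^2/(2y+1) = L/N: (1-2w)w - 3t^3 = w(w-2) (N (1-2w) = w(w-2)), N <> 0. -/

theorem GV2_alg {k : Type} [Field k] {t1 w1 t2 w2 L N : k} (h1 : w1 = t1 ^ 3 + w1 ^ 2)
    (hL : L * (1 - w1 - w2) = t1 ^ 2 + t1 * t2 + t2 ^ 2) (hw1 : w1 = L * t1 + N)
    (hw2 : w2 = L * t2 + N) {t3 w3 : k} (ht3 : t3 = -L ^ 2 - t1 - t2) (hw3 : w3 = L * t3 + N) :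
    w1 * w2 * w3 = N ^ 3 ∧ t1 * w2 * w3 + t2 * w1 * w3 + t3 * w1 * w2 = L ^ 2 * N ∧
      w3 = t3 ^ 3 + w3 ^ 2 := by
  have E1 : t1 + t2 + t3 = -L ^ 2 := by rw [ht3]; ring
  have E2 : t1 * t2 + t1 * t3 + t2 * t3 = 2 * L * N - L := by
    rw [hw1, hw2] at hL
    rw [ht3]
    linear_combination hL
  have E3 : t1 * t2 * t3 = N - N ^ 2 := by
    have h1' : L * t1 + N = t1 ^ 3 + (L * t1 + N) ^ 2 := by rw [← hw1]; exact h1
    linear_combination t1 * E2 - t1 ^ 2 * E1 - h1'
  rw [hw1, hw2, hw3]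
  refine ⟨?_, ?_, ?_⟩
  · linear_combination L ^ 3 * E3 + L ^ 2 * N * E2 + L * N ^ 2 * E1
  · linear_combination 3 * L ^ 2 * E3 + 2 * L * N * E2 + N ^ 2 * E1
  · linear_combination -t3 ^ 2 * E1 + t3 * E2 - E3

variable {k : Type} [Field k] [DecidableEq k] [Algebra F k]
  {Γ : Type} [LinearOrderedCommGroupWithZero Γ] (v : Valuation k Γ)

theorem GV2_aux {m : Γ} (hm : m < 1) {n : ℕ} (hn : 1 ≤ n) {a : Γ} (ha : a ≤ m ^ n) : a ≤ m :=
  ha.trans (by
    calc m ^ n ≤ m ^ 1 := pow_le_pow_right_of_le_one' hm.le hn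
      _ = m := pow_one m)

/-- The addition in the coordinates t, w. -/
theorem GV2_core {P Q : P27 k} (hP : 1 < v (xc P)) (hQ : 1 < v (xc Q)) (s : k)
    (hs : ∀ L N : k, L * (1 - ww P - ww Q) = tt P ^ 2 + tt P * tt Q + tt Q ^ 2 →
      ww P = L * tt P + N → ww Q = L * tt Q + N → N ≠ 0 ∧ s * N = L)
    (hx : xc (P + Q) = s ^ 2 - xc P - xc Q)
    (hy : yc (P + Q) = -1 - (s * (xc (P + Q) - xc P) + yc P)) :
    E1 v (P + Q) ∧ v (tt (P + Q) - tt P - tt Q) ≤ (max (v (tt P)) (v (tt Q))) ^ 2 := by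
  obtain ⟨a1, a2, -, -⟩ := tt_val v hP
  obtain ⟨b1, b2, -, -⟩ := tt_val v hQ
  obtain ⟨c1, c2, c3, c4, c5⟩ := ww_val v hP
  obtain ⟨d1, d2, d3, d4, d5⟩ := ww_val v hQ
  generalize tt P = t1 at *
  generalize tt Q = t2 at *
  generalize ww P = w1 at *
  generalize ww Q = w2 at *
  set m : Γ := max (v t1) (v t2) with hmdef
  have hm : m < 1 := max_lt a1 b1
  have hm1 : v t1 ≤ m := le_max_left _ _
  have hm2 : v t2 ≤ m := le_max_right _ _
  have hw1m : v w1 ≤ m ^ 3 := by rw [c2]; exact pow_le_pow_left₀ zero_le hm1 3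
  have hw2m : v w2 ≤ m ^ 3 := by rw [d2]; exact pow_le_pow_left₀ zero_le hm2 3
  have hw1l : v w1 < 1 := lt_of_le_of_lt (GV2_aux hm (by norm_num) hw1m) hm
  have hw2l : v w2 < 1 := lt_of_le_of_lt (GV2_aux hm (by norm_num) hw2m) hm
  have hu : v (1 - w1 - w2) = 1 := by
    have : (1 : k) - w1 - w2 = 1 - (w1 + w2) := by ring
    rw [this]
    exact v.map_one_sub_of_lt (v.map_add_lt hw1l hw2l)
  have hu0 : (1 : k) - w1 - w2 ≠ 0 := by
    intro h
    rw [h, map_zero] at hu
    exact zero_ne_one hu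
  obtain ⟨L, hLdef⟩ : ∃ L : k, L = (t1 ^ 2 + t1 * t2 + t2 ^ 2) / (1 - w1 - w2) := ⟨_, rfl⟩
  have hL : L * (1 - w1 - w2) = t1 ^ 2 + t1 * t2 + t2 ^ 2 := by
    rw [hLdef, div_mul_cancel₀ _ hu0]
  obtain ⟨N, hNdef⟩ : ∃ N : k, N = w1 - L * t1 := ⟨_, rfl⟩
  have hw1 : w1 = L * t1 + N := by rw [hNdef]; ring
  have hw2 : w2 = L * t2 + N := by
    have h : (w1 - w2 - L * (t1 - t2)) * (1 - w1 - w2) = 0 := by
      linear_combination c3 - d3 - (t1 - t2) * hL
    rcases mul_eq_zero.1 h with h | h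
    · rw [hNdef]
      linear_combination -h
    · exact absurd h hu0
  obtain ⟨hN0, hsN⟩ := hs L N hL hw1 hw2
  obtain ⟨t3, ht3⟩ : ∃ t3 : k, t3 = -L ^ 2 - t1 - t2 := ⟨_, rfl⟩
  obtain ⟨w3, hw3⟩ : ∃ w3 : k, w3 = L * t3 + N := ⟨_, rfl⟩
  obtain ⟨A1, A2, A3⟩ := GV2_alg c3 hL hw1 hw2 ht3 hw3
  have hw30 : w3 ≠ 0 := by
    intro h
    rw [h, mul_zero] at A1
    exact hN0 (pow_eq_zero_iff (by norm_num) |>.1 A1.symm)
  -- coordinates of the sum
  have hX : xc (P + Q) = t3 / w3 := by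
    have hs' : s = L / N := by rw [eq_div_iff hN0]; exact hsN
    rw [hx, c4, d4, hs']
    have h : L ^ 2 * (w1 * w2 * w3) = N ^ 2 * (t1 * w2 * w3 + t2 * w1 * w3 + t3 * w1 * w2) := by
      rw [A1, A2]; ring
    field_simp
    linear_combination h
  have hY : yc (P + Q) = -1 + 1 / w3 := by
    have hs' : s = L / N := by rw [eq_div_iff hN0]; exact hsN
    rw [hy, hX, c4, c5, hs']
    have h : L * (t3 * w1 - t1 * w3) = N * (w3 - w1) := by
      rw [hw3, hw1]; ring
    field_simp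
    linear_combination -h
  -- valuations
  have hLm : v L ≤ m ^ 2 := by
    have e : v L = v (t1 ^ 2 + t1 * t2 + t2 ^ 2) := by
      rw [← hL, map_mul, hu, mul_one]
    rw [e]
    refine v.map_add_le (v.map_add_le ?_ ?_) ?_
    · rw [map_pow]; exact pow_le_pow_left₀ zero_le hm1 2
    · rw [map_mul, sq]; exact mul_le_mul' hm1 hm2
    · rw [map_pow]; exact pow_le_pow_left₀ zero_le hm2 2
  have hNm : v N ≤ m ^ 3 := by
    rw [hNdef]
    refine v.map_sub_le hw1m ?_
    rw [map_mul, pow_succ]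
    exact mul_le_mul' hLm hm1
  have hL4 : v (L ^ 2) ≤ m ^ 4 := by
    rw [map_pow]
    calc v L ^ 2 ≤ (m ^ 2) ^ 2 := pow_le_pow_left₀ zero_le hLm 2
      _ = m ^ 4 := by rw [← pow_mul]
  have ht3m : v t3 ≤ m := by
    rw [ht3]
    refine v.map_sub_le (v.map_sub_le ?_ hm1) hm2
    rw [Valuation.map_neg]
    exact GV2_aux hm (by norm_num) hL4
  have hw3m : v w3 ≤ m ^ 3 := by
    rw [hw3]
    refine v.map_add_le ?_ hNm
    rw [map_mul, pow_succ]
    exact mul_le_mul' hLm ht3m
  have hw3l : v w3 < 1 := lt_of_le_of_lt (GV2_aux hm (by norm_num) hw3m) hm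
  have hu3 : v (1 - w3) = 1 := v.map_one_sub_of_lt hw3l
  have hu30 : (1 : k) - w3 ≠ 0 := by
    intro h
    rw [h, map_zero] at hu3
    exact zero_ne_one hu3
  have hvw3 : v w3 = v t3 ^ 3 := by
    have h : w3 * (1 - w3) = t3 ^ 3 := by linear_combination A3
    have h2 := congrArg v h
    rw [map_mul, hu3, mul_one, map_pow] at h2
    exact h2
  have hvt3 : v t3 ≠ 0 := by
    intro h
    rw [h, zero_pow (by norm_num)] at hvw3
    exact hw30 ((v.zero_iff).1 hvw3)
  have ht3l : v t3 < 1 := lt_of_le_of_lt ht3m hm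
  have hE : 1 < v (xc (P + Q)) := by
    rw [hX, map_div₀, hvw3]
    rw [lt_div_iff₀ (pow_pos (zero_lt_iff.2 hvt3) 3), one_mul]
    calc v t3 ^ 3 < v t3 ^ 1 := pow_lt_pow_right_of_lt_one₀ (zero_lt_iff.2 hvt3) ht3l (by norm_num)
      _ = v t3 := pow_one _
  refine ⟨Or.inr hE, ?_⟩
  have hT : tt (P + Q) - t1 - t2 = (L ^ 2 + (t1 + t2) * w3) / (1 - w3) := by
    unfold tt
    rw [hX, hY]
    have h1 : (-1 : k) + 1 / w3 = (1 - w3) / w3 := by field_simp; ring
    rw [h1]
    have h2 : -(t3 / w3) / ((1 - w3) / w3) = -t3 / (1 - w3) := by field_simp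
    rw [h2, eq_div_iff hu30, ht3]
    field_simp
    ring
  rw [hT, map_div₀, hu3, div_one]
  have hm42 : m ^ 4 ≤ m ^ 2 := pow_le_pow_right_of_le_one' hm.le (by norm_num)
  refine v.map_add_le (hL4.trans hm42) ?_
  rw [map_mul]
  calc v (t1 + t2) * v w3 ≤ m * m ^ 3 := mul_le_mul' (v.map_add_le hm1 hm2) hw3m
    _ = m ^ 4 := by rw [← pow_succ']
    _ ≤ m ^ 2 := hm42

theorem E1_add {P Q : P27 k} (hP : E1 v P) (hQ : E1 v Q) :
    E1 v (P + Q) ∧ v (tt (P + Q) - tt P - tt Q) ≤ (max (v (tt P)) (v (tt Q))) ^ 2 := by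
  have ht0 : tt (0 : P27 k) = 0 := by
    unfold tt
    rw [xc_zero, neg_zero, zero_div]
  rcases add_cases P Q with h | h | h | ⟨hP0, h, hf⟩ | ⟨hP0, hQ0, h⟩
  · rw [h, zero_add, ht0, sub_zero, sub_self, map_zero]
    exact ⟨hQ, zero_le⟩
  · rw [h, add_zero, ht0, sub_zero, sub_self, map_zero]
    exact ⟨hP, zero_le⟩
  · rcases hQ with hQ | hQ
    · have hP0 : P = 0 := by rw [h, hQ, neg_zero]
      rw [hP0, hQ, add_zero, ht0, sub_zero, sub_self, map_zero]
      exact ⟨Or.inl rfl, zero_le⟩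
    · have hQ0 : Q ≠ 0 := by
        rintro rfl
        rw [xc_zero, map_zero] at hQ
        exact absurd hQ (not_lt.2 zero_le)
      refine ⟨?_, ?_⟩
      · rw [h, neg_add_cancel]
        exact Or.inl rfl
      obtain ⟨b1, b2, b3, b4⟩ := tt_val v hQ
      have hxne : xc Q ≠ 0 := by
        intro h0
        rw [h0, map_zero] at hQ
        exact absurd hQ (not_lt.2 zero_le)
      have hvx : v (xc Q) ≠ 0 := (v.ne_zero_iff).2 hxne
      have hy0 : yc Q ≠ 0 := by
        intro h0
        have := eqn Q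
        rw [h0] at this
        apply hxne
        apply pow_eq_zero_iff (three_ne_zero) |>.1
        rw [← this]
        ring
      have hy1 : 1 + yc Q ≠ 0 := by
        intro h0
        have := eqn Q
        apply hxne
        apply pow_eq_zero_iff (three_ne_zero) |>.1
        rw [← this]
        linear_combination yc Q * h0
      have hsum : tt (P + Q) - tt P - tt Q = 1 / xc Q ^ 2 := by
        rw [h, neg_add_cancel, ht0]
        unfold tt
        rw [xc_neg, yc_neg hQ0]
        have h1 : (-1 : k) - yc Q ≠ 0 := by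
          intro h0
          apply hy1
          linear_combination -h0
        rw [eq_div_iff (pow_ne_zero 2 hxne)]
        field_simp
        linear_combination eqn Q
      rw [hsum, map_div₀, map_one, map_pow]
      have h4 : v (tt Q) ^ 4 = 1 / v (xc Q) ^ 2 := by
        rw [eq_div_iff (pow_ne_zero 2 hvx)]
        calc v (tt Q) ^ 4 * v (xc Q) ^ 2 = (v (tt Q) ^ 2 * v (xc Q)) ^ 2 := by
              rw [mul_pow, ← pow_mul]
          _ = 1 := by rw [b3, one_pow]
      rw [← h4]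
      calc v (tt Q) ^ 4 ≤ v (tt Q) ^ 2 := pow_le_pow_right_of_le_one' b1.le (by norm_num)
        _ ≤ _ := pow_le_pow_left₀ zero_le (le_max_right _ _) 2
  · subst h
    have hP1 : 1 < v (xc P) := hP.resolve_left hP0
    obtain ⟨e1, e2, e3⟩ := dbl_coords hP0 hf
    refine GV2_core v hP1 hP1 (3 * xc P ^ 2 / fc P) ?_ (by rw [e2]; ring) e3
    intro L N hL hw _
    obtain ⟨c1, c2, c3, c4, c5⟩ := ww_val v hP1
    have hf2 : fc P = (ww P - 2) / ww P := by
      unfold fc
      rw [c5]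
      field_simp
      ring
    have hw2 : ww P - 2 ≠ 0 := by
      intro h0
      apply hf
      rw [hf2, h0, zero_div]
    have hvw : v (ww P) < 1 := by
      rw [c2]
      exact pow_lt_one' (tt_val v hP1).1 (by norm_num)
    have hu : v (1 - ww P - ww P) = 1 := by
      have : (1 : k) - ww P - ww P = 1 - (ww P + ww P) := by ring
      rw [this]
      exact v.map_one_sub_of_lt (v.map_add_lt hvw hvw)
    have hu0 : (1 : k) - ww P - ww P ≠ 0 := by
      intro h
      rw [h, map_zero] at hu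
      exact zero_ne_one hu
    have hNu : N * (1 - ww P - ww P) = ww P * (ww P - 2) := by
      linear_combination (1 - ww P - ww P) * (-hw) - tt P * hL + 3 * c3
    refine ⟨?_, ?_⟩
    · intro hN
      rw [hN, zero_mul] at hNu
      exact mul_ne_zero c1 hw2 hNu.symm
    · have h3 : (3 * xc P ^ 2 / fc P) = 3 * tt P ^ 2 / (ww P * (ww P - 2)) := by
        rw [hf2, c4]
        field_simp
      rw [h3]
      apply mul_right_cancel₀ hu0
      rw [hL, mul_assoc, hNu, div_mul_cancel₀ _ (mul_ne_zero c1 hw2)]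
      ring
  · have hP1 : 1 < v (xc P) := hP.resolve_left hP0
    have hQ1 : 1 < v (xc Q) := hQ.resolve_left hQ0
    obtain ⟨e1, e2, e3⟩ := add_coords hP0 hQ0 h
    refine GV2_core v hP1 hQ1 ((yc P - yc Q) / (xc P - xc Q)) ?_ e2 e3
    intro L N hL hw1 hw2
    obtain ⟨c1, c2, c3, c4, c5⟩ := ww_val v hP1
    obtain ⟨d1, d2, d3, d4, d5⟩ := ww_val v hQ1
    have hx : (xc P - xc Q) * (ww P * ww Q) = N * (tt P - tt Q) := by
      have : (xc P - xc Q) * (ww P * ww Q) = tt P * ww Q - tt Q * ww P := by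
        rw [c4, d4]
        field_simp
      rw [this, hw1, hw2]
      ring
    have hy : (yc P - yc Q) * (ww P * ww Q) = L * (tt P - tt Q) := by
      have : (yc P - yc Q) * (ww P * ww Q) = ww P - ww Q := by
        rw [c5, d5]
        field_simp
        ring
      rw [this, hw1, hw2]
      ring
    have hd : xc P - xc Q ≠ 0 := sub_ne_zero.2 h
    have hne : N * (tt P - tt Q) ≠ 0 := by
      rw [← hx]
      exact mul_ne_zero hd (mul_ne_zero c1 d1)
    refine ⟨left_ne_zero_of_mul hne, ?_⟩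
    have ht : tt P - tt Q ≠ 0 := right_ne_zero_of_mul hne
    rw [div_mul_eq_mul_div, div_eq_iff hd]
    apply mul_right_cancel₀ (mul_ne_zero c1 d1)
    apply mul_right_cancel₀ ht
    linear_combination (N * (tt P - tt Q)) * hy - L * (tt P - tt Q) * hx

end H28G
end

-- from Lib.H28G.GV3
section

open NumberField IsDedekindDomain WeierstrassCurve

namespace H28G

open H55B

/-! Chunk GV3 (S/M): multiplication by c near infinity. If v(tt P) = 0 or P = 0: P = 0, trivial (tt 0 = 0). tt_int: for n in N by induction: E1 (nP), v(tt(nP) - n tt P) <= v(tt P)^2, hence v(tt(nP)) <= v(tt P) (v(n) <= 1, v(tt P) < 1), E1_add with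
max = v(tt P). For negative n: tt(-P) + tt P = -1/x^2 (or E1_add for P and -P). c = a + b om: E1_om, tt(omP P) = ok tt P, act_apply, E1_add once more (all the valuations are <= v(tt P)); ak c = a + b ok.
act_val: if c' c = 1 mod the annihilator (act c' (act c P) = P): v(tt(act c P)) <= v(tt P) <= v(tt(act c P)). -/

variable {k : Type} [Field k] [DecidableEq k] [Algebra F k]
  {Γ : Type} [LinearOrderedCommGroupWithZero Γ] (v : Valuation k Γ)

omit [DecidableEq k] in
theorem GV3_tt0 : tt (0 : P27 k) = 0 := by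
  unfold tt
  rw [xc_zero, neg_zero, zero_div]

theorem GV3_tt_lt {P : P27 k} (hP : E1 v P) : v (tt P) < 1 := by
  rcases hP with h | h
  · rw [h, GV3_tt0, map_zero]
    exact zero_lt_one
  · exact (tt_val v h).1

theorem GV3_tt_neg {P : P27 k} (hP : E1 v P) : v (tt (-P)) = v (tt P) := by
  rcases hP with h | h
  · rw [h]
    rfl
  · have h1 : 1 < v (xc (-P)) := by rw [xc_neg]; exact h
    obtain ⟨-, -, a3, -⟩ := tt_val v h
    obtain ⟨-, -, b3, -⟩ := tt_val v h1
    rw [xc_neg] at b3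
    have hx : v (xc P) ≠ 0 := by
      intro h0
      rw [h0] at h
      exact absurd h (not_lt.2 zero_le)
    have h2 : v (tt (-P)) ^ 2 = v (tt P) ^ 2 := by
      apply mul_right_cancel₀ hx
      rw [a3, b3]
    exact (pow_left_inj₀ zero_le zero_le two_ne_zero).1 h2

/-- P is in E1 and tt P = a T up to squares. -/
def GV3_R (T : k) (P : P27 k) (a : k) : Prop := E1 v P ∧ v a ≤ 1 ∧ v (tt P - a * T) ≤ v T ^ 2

omit [DecidableEq k] in
theorem GV3_le {T : k} (hT : v T < 1) {P : P27 k} {a : k} (h : GV3_R v T P a) : v (tt P) ≤ v T := by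
  have e1 : tt P = (tt P - a * T) + a * T := by ring
  rw [e1]
  refine v.map_add_le (h.2.2.trans ?_) ?_
  · rw [sq]
    exact mul_le_of_le_one_left' hT.le
  · rw [map_mul]
    exact mul_le_of_le_one_left' h.2.1

theorem GV3_add {T : k} (hT : v T < 1) {P Q : P27 k} {a b : k} (h : GV3_R v T P a)
    (h' : GV3_R v T Q b) : GV3_R v T (P + Q) (a + b) := by
  obtain ⟨h1, h2⟩ := E1_add v h.1 h'.1
  refine ⟨h1, v.map_add_le h.2.1 h'.2.1, ?_⟩
  have e1 : tt (P + Q) - (a + b) * T = (tt (P + Q) - tt P - tt Q) + (tt P - a * T) +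
      (tt Q - b * T) := by ring
  rw [e1]
  refine v.map_add_le (v.map_add_le (h2.trans ?_) h.2.2) h'.2.2
  exact pow_le_pow_left₀ zero_le (max_le (GV3_le v hT h) (GV3_le v hT h')) 2

theorem GV3_neg {T : k} (hT : v T < 1) {P : P27 k} {a : k} (h : GV3_R v T P a) :
    GV3_R v T (-P) (-a) := by
  have hn := E1_neg v h.1
  obtain ⟨h1, h2⟩ := E1_add v h.1 hn
  refine ⟨hn, by rw [Valuation.map_neg]; exact h.2.1, ?_⟩
  rw [add_neg_cancel, GV3_tt0, GV3_tt_neg v h.1, max_self] at h2
  have e1 : tt (-P) - -a * T = -(0 - tt P - tt (-P)) - (tt P - a * T) := by ring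
  rw [e1]
  refine v.map_sub_le ?_ h.2.2
  rw [Valuation.map_neg]
  exact h2.trans (pow_le_pow_left₀ zero_le (GV3_le v hT h) 2)

theorem GV3_nsmul {T : k} (hT : v T < 1) {P : P27 k} {a : k} (h : GV3_R v T P a) (n : ℕ) :
    GV3_R v T (n • P) ((n : k) * a) := by
  induction n with
  | zero =>
    rw [zero_smul, Nat.cast_zero, zero_mul]
    refine ⟨E1_zero v, ?_, ?_⟩
    · rw [map_zero]
      exact zero_le
    · rw [GV3_tt0, zero_mul, sub_zero, map_zero]
      exact zero_le
  | succ n ih =>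
    have h1 := GV3_add v hT ih h
    rw [succ_nsmul]
    have e1 : ((n + 1 : ℕ) : k) * a = (n : k) * a + a := by
      push_cast
      ring
    rw [e1]
    exact h1

theorem GV3_zsmul {T : k} (hT : v T < 1) {P : P27 k} {a : k} (h : GV3_R v T P a) (n : ℤ) :
    GV3_R v T (n • P) ((n : k) * a) := by
  obtain ⟨m, rfl | rfl⟩ := n.eq_nat_or_neg
  · have h1 := GV3_nsmul v hT h m
    rw [natCast_zsmul, Int.cast_natCast]
    exact h1
  · have h1 := GV3_neg v hT (GV3_nsmul v hT h m)
    rw [neg_smul, natCast_zsmul, Int.cast_neg, Int.cast_natCast, neg_mul]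
    exact h1

theorem E1_act {P : P27 k} (hP : E1 v P) (c : O) :
    E1 v (act c P) ∧ v (tt (act c P) - ak k c * tt P) ≤ v (tt P) ^ 2 ∧ v (tt (act c P)) ≤ v (tt P) := by
  have hT := GV3_tt_lt v hP
  have h1 : GV3_R v (tt P) P 1 := by
    refine ⟨hP, by rw [map_one], ?_⟩
    rw [one_mul, sub_self, map_zero]
    exact zero_le
  have h2 : GV3_R v (tt P) (omP P) (ok k) := by
    obtain ⟨h3, h4⟩ := E1_om v hP
    refine ⟨h3, (ok_val v).le, ?_⟩
    rw [h4, sub_self, map_zero]
    exact zero_le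
  obtain ⟨a, b, rfl⟩ := exists_repr c
  have h3 := GV3_add v hT (GV3_zsmul v hT h1 a) (GV3_zsmul v hT h2 b)
  rw [← act_apply] at h3
  have e1 : ak k ((a : O) + b * om) = (a : k) * 1 + (b : k) * ok k := by
    unfold ak ok
    simp
  rw [← e1] at h3
  exact ⟨h3.1, h3.2.2, GV3_le v hT h3⟩

theorem act_val {P : P27 k} (hP : E1 v P) (c c' : O) (h : act c' (act c P) = P) :
    v (tt (act c P)) = v (tt P) := by
  have h1 := E1_act v hP c
  have h2 := E1_act v h1.1 c'
  rw [h] at h2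
  exact le_antisymm h1.2.2 h2.2.2


end H28G
end

-- from Lib.H28G.GV6
section

open NumberField IsDedekindDomain WeierstrassCurve

namespace H28G

open H55B

/-! Chunk GV6 (M): points killed by c. tor_unit: R in E1, act c R = 0: E1_act gives v(tt 0 - ak c * tt R) <= v(tt R)^2, tt 0 = 0, so v(tt R) <= v(tt R)^2 with v(tt R) < 1 (tt_val) unless R = 0.
tor_val (b a prime element, 3 | b - 1): dist_x: the product over R <> 0 in Tor b of v(xc R) is v(C)/v(b)^2 = v(b)^(-2) > 1 (C^6 = 1 gives v(C) = 1; v(ak b) <> 0; Full.finite, finprod_eq_prod_of_fintype, map_prod), so some R0 <> 0 has v(xc R0) > 1. Every R <> 0 in Tor b is act c R0 (tor_gen) and R0 = act c' R, so E1 (E1_act)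
and v(tt R) = v(tt R0) (act_val), v(tt R)^2 v(xc R) = 1 (tt_val). The number of the R <> 0 is Nm b - 1 (Full). So v(tt R)^(2 (Nm b - 1)) = v(b)^2, and squares are injective in a linearly ordered commutative group with zero (pow_left_injective, or compare with lt). -/

variable {k : Type} [Field k] [DecidableEq k] [Algebra F k]
  {Γ : Type} [LinearOrderedCommGroupWithZero Γ] (v : Valuation k Γ)

theorem tor_unit {c : O} (hc : v (ak k c) = 1) {R : P27 k} (hR : R ∈ Tor c k) (h1 : E1 v R) : R = 0 := by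
  by_contra h0
  have h2 : 1 < v (xc R) := by
    rcases h1 with h | h
    · exact absurd h h0
    · exact h
  obtain ⟨h3, h4, -, -⟩ := tt_val v h2
  have h5 := (E1_act v h1 c).2.1
  have h6 : act c R = 0 := hR
  have ht0 : tt (0 : P27 k) = 0 := by
    unfold tt
    rw [xc_zero, neg_zero, zero_div]
  rw [h6, ht0, zero_sub, Valuation.map_neg, map_mul, hc, one_mul, sq] at h5
  have h7 : v (tt R) * v (tt R) < 1 * v (tt R) :=
    mul_lt_mul_of_pos_right h3 (zero_lt_iff.2 h4)
  rw [one_mul] at h7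
  exact absurd h5 (not_le.2 h7)

theorem GV6_ak_ne {b : O} (hb : b ≠ 0) : ak k b ≠ 0 := by
  intro h
  apply hb
  unfold ak at h
  rw [RingHom.comp_apply] at h
  have h1 : algebraMap O F b = 0 := (algebraMap F k).injective (by rw [h, map_zero])
  exact FaithfulSMul.algebraMap_injective O F (by rw [h1, map_zero])

theorem tor_val (j : k →ₐ[F] ℂ) {b : O} (hp : Prime b) (hb : Prim b) (hf : Full b k)
    (hv : v (ak k b) < 1) {R : P27 k} (hR : R ∈ Tor b k) (h0 : R ≠ 0) :
    1 < v (xc R) ∧ v (tt R) ^ (Nm b - 1) = v (ak k b) := by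
  classical
  have hb0 : b ≠ 0 := hp.ne_zero
  have hfin : Finite (Tor b k) := hf.finite hb0
  have : Fintype (Tor b k) := Fintype.ofFinite _
  obtain ⟨C, hC6, -, hC⟩ := dist_x j b hb hf
  have hak : v (ak k b) ≠ 0 := (Valuation.ne_zero_iff v).2 (GV6_ak_ne hb0)
  have hvC : v C = 1 := by
    have h1 : v C ^ 6 = 1 := by rw [← map_pow, hC6, map_one]
    exact (pow_eq_one_iff.1 h1).resolve_right (by norm_num)
  rw [finprod_eq_prod_of_fintype] at hC
  have hprod : ∏ S : {R : Tor b k // R ≠ 0}, v (xc (S.1 : P27 k)) = (v (ak k b) ^ 2)⁻¹ := by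
    rw [← map_prod, hC, map_div₀, hvC, map_pow, one_div]
  have hgt : 1 < (v (ak k b) ^ 2)⁻¹ := by
    rw [one_lt_inv₀ (pow_pos (zero_lt_iff.2 hak) 2)]
    exact pow_lt_one₀ zero_le hv two_ne_zero
  obtain ⟨S0, hS0⟩ : ∃ S0 : {R : Tor b k // R ≠ 0}, 1 < v (xc (S0.1 : P27 k)) := by
    by_contra hcon
    push Not at hcon
    have h1 : ∏ S : {R : Tor b k // R ≠ 0}, v (xc (S.1 : P27 k)) ≤ 1 :=
      Finset.prod_le_one' fun S _ => hcon S
    rw [hprod] at h1
    exact absurd h1 (not_le.2 hgt)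
  have hS0' : ((S0.1 : Tor b k) : P27 k) ≠ 0 := fun h => S0.2 (Subtype.ext h)
  have hE : E1 v (S0.1 : P27 k) := Or.inr hS0
  have hall : ∀ R : P27 k, R ∈ Tor b k → R ≠ 0 →
      1 < v (xc R) ∧ v (tt R) = v (tt (S0.1 : P27 k)) := by
    intro R hR h0
    obtain ⟨c, hc⟩ := tor_gen hp hf S0.1.2 hR hS0'
    obtain ⟨c', hc'⟩ := tor_gen hp hf hR S0.1.2 h0
    have h1 := (E1_act v hE c).1
    have h2 := act_val v hE c c' (by rw [hc, hc'])
    rw [hc] at h1 h2
    refine ⟨?_, h2⟩
    rcases h1 with h | h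
    · exact absurd h h0
    · exact h
  obtain ⟨h1, h2⟩ := hall R hR h0
  refine ⟨h1, ?_⟩
  have hcard : Fintype.card {R : Tor b k // R ≠ 0} = Nm b - 1 := by
    have h3 : Nat.card (Tor b k) = Nm b := hf
    rw [Nat.card_eq_fintype_card] at h3
    have h4 := Fintype.card_subtype_compl (fun R : Tor b k => R = 0)
    rw [Fintype.card_subtype_eq, h3] at h4
    exact h4
  obtain ⟨t, ht⟩ : ∃ t, t = v (tt R) := ⟨_, rfl⟩
  have hconst : ∀ S : {R : Tor b k // R ≠ 0}, v (xc (S.1 : P27 k)) = (t ^ 2)⁻¹ := by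
    intro S
    have hS : ((S.1 : Tor b k) : P27 k) ≠ 0 := fun h => S.2 (Subtype.ext h)
    obtain ⟨h3, h4⟩ := hall S.1 S.1.2 hS
    have h5 := (tt_val v h3).2.2.1
    rw [h4, ← h2, ← ht] at h5
    exact (eq_inv_of_mul_eq_one_right h5)
  rw [Finset.prod_congr rfl fun S _ => hconst S, Finset.prod_const, Finset.card_univ, hcard,
    inv_pow, inv_inj, ← pow_mul, mul_comm, pow_mul] at hprod
  rw [← ht]
  exact (pow_left_inj₀ zero_le zero_le two_ne_zero).1 hprod

end H28G
end

-- from Lib.H28G.GV7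
section

open NumberField IsDedekindDomain WeierstrassCurve

namespace H28G

open H55B

/-! Chunk GV7 (M): Kronecker congruence: multiplication by b is the Frobenius modulo b. q = Nm b. For R in Tor b: E1 (tor_val, or R = 0), so for X integral (X <> 0, v(xc X) <= 1): by transl xc(X+R) = xc X + (something of valuation < 1), same for yc (v(fc X), v(3 xc X^2) <= 1, v(tt R) < 1).
act b X <> 0: otherwise X in Tor b, X in E1. So prod_R xc(X+R) = (xc X)^q + (valuation < 1) (finite product of q factors: congruences modulo the ideal of the valuation ring; Full.finite, finprod_eq_prod_of_fintype; card = Nm b). dist_x: = C xc(act b X).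
C = 1 + (valuation < 1): apply this to X = Spt: xc Spt = -1, act b Spt = Spt: (-1)^q = -C + small; q is odd, or q = 4 and then v(2) < 1 (Nm b = q even: b | 2 up to units, v b < 1 gives v 2 < 1) so that -1 = 1 + small. For y: C_y yc(Spt) = yc(Spt)^q + small, yc Spt = ok, ok^q = ok because
q = Nm b = 1 mod 3 (Prim b: Nm b = b * cj b, both = 1 mod 3; or Nm_repr) so C_y = 1 + small (v(ok) = 1). Hence v(xc(act b X) - (xc X)^q) < 1 and the same for y (v(C) = 1). -/

variable {k : Type} [Field k] [DecidableEq k] [Algebra F k]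
  {Γ : Type} [LinearOrderedCommGroupWithZero Γ] (v : Valuation k Γ)

section GV7aux
variable {k : Type} [Field k] {Γ : Type} [LinearOrderedCommGroupWithZero Γ] (v : Valuation k Γ)

theorem GV7_nat (n : ℕ) : v (n : k) ≤ 1 := by
  induction n with
  | zero => simp
  | succ n ih =>
    rw [Nat.cast_succ]
    exact (v.map_add _ _).trans (max_le ih (le_of_eq v.map_one))

theorem GV7_mul_lt {x y : k} (hx : v x ≤ 1) (hy : v y < 1) : v (x * y) < 1 := by
  rw [map_mul]
  exact mul_lt_one_of_nonneg_of_lt_one_right hx zero_le hy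

theorem GV7_add_lt {x y : k} (hx : v x < 1) (hy : v y < 1) : v (x + y) < 1 :=
  (v.map_add _ _).trans_lt (max_lt hx hy)

theorem GV7_sub_lt {x y : k} (hx : v x < 1) (hy : v y < 1) : v (x - y) < 1 :=
  (v.map_sub _ _).trans_lt (max_lt hx hy)

theorem GV7_le_one {x y : k} (hx : v x ≤ 1) (hy : v (y - x) < 1) : v y ≤ 1 := by
  have h : y = x + (y - x) := by ring
  rw [h]
  exact (v.map_add _ _).trans (max_le hx (le_of_lt hy))

/-- A product of elements congruent to a. -/
theorem GV7_prod {ι : Type} (s : Finset ι) (f : ι → k) (a : k) (ha : v a ≤ 1)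
    (hf : ∀ i ∈ s, v (f i - a) < 1) : v (∏ i ∈ s, f i - a ^ s.card) < 1 := by
  classical
  induction s using Finset.induction_on with
  | empty => simp
  | insert i s hi ih =>
    have h1 := ih (fun j hj => hf j (Finset.mem_insert_of_mem hj))
    have h2 := hf i (Finset.mem_insert_self i s)
    rw [Finset.prod_insert hi, Finset.card_insert_of_notMem hi, pow_succ]
    have hP : v (∏ j ∈ s, f j) ≤ 1 := GV7_le_one v (x := a ^ s.card) (by
      rw [map_pow]
      exact pow_le_one' ha _) h1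
    have e : f i * ∏ j ∈ s, f j - a ^ s.card * a = (∏ j ∈ s, f j) * (f i - a) + a * (∏ j ∈ s, f j - a ^ s.card) := by
      ring
    rw [e]
    exact GV7_add_lt v (GV7_mul_lt v hP h2) (GV7_mul_lt v ha h1)

theorem GV7_finprod {ι : Type} [Finite ι] (f : ι → k) (a : k) (ha : v a ≤ 1)
    (hf : ∀ i, v (f i - a) < 1) : v (∏ᶠ i, f i - a ^ Nat.card ι) < 1 := by
  have := Fintype.ofFinite ι
  rw [finprod_eq_prod_of_fintype, Nat.card_eq_fintype_card]
  exact GV7_prod v Finset.univ f a ha fun i _ => hf i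

end GV7aux

theorem GV7_tt_lt {P : P27 k} (h : E1 v P) : v (tt P) < 1 := by
  rcases h with h | h
  · rw [h]
    have : tt (0 : P27 k) = 0 := by
      unfold tt
      rw [xc_zero, neg_zero, zero_div]
    rw [this, map_zero]
    exact zero_lt_one
  · exact (tt_val v h).1

theorem GV7_fc_le {P : P27 k} (h : v (xc P) ≤ 1) : v (fc P) ≤ 1 := by
  unfold fc
  refine (v.map_add _ _).trans (max_le ?_ (le_of_eq v.map_one))
  rw [map_mul]
  exact mul_le_one' (by simpa using GV7_nat v 2) (int_y v h)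

/-- Congruences of the coordinates of X + R. -/
theorem GV7_cong {X R : P27 k} (hX : X ≠ 0) (h1 : v (xc X) ≤ 1) (hR : E1 v R) :
    v (xc (X + R) - xc X) < 1 ∧ v (yc (X + R) - yc X) < 1 := by
  obtain ⟨_, _, h2, h3⟩ := transl v hX h1 hR
  have ht := GV7_tt_lt v hR
  have ht2 : v (tt R) ^ 2 < 1 := pow_lt_one' ht two_ne_zero
  constructor
  · have e : xc (X + R) - xc X = (xc (X + R) - xc X - fc X * tt R) + fc X * tt R := by ring
    rw [e]
    exact GV7_add_lt v (h2.trans_lt ht2) (GV7_mul_lt v (GV7_fc_le v h1) ht)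
  · have e : yc (X + R) - yc X = (yc (X + R) - yc X - 3 * xc X ^ 2 * tt R) + 3 * xc X ^ 2 * tt R := by ring
    rw [e]
    refine GV7_add_lt v (h3.trans_lt ht2) (GV7_mul_lt v ?_ ht)
    rw [map_mul, map_pow]
    exact mul_le_one' (by simpa using GV7_nat v 3) (pow_le_one' h1 2)

/-- The norm of a primary element is 1 modulo 3. -/
theorem GV7_Nm_mod {b : O} (hb : Prim b) : ∃ n : ℕ, Nm b = 3 * n + 1 := by
  obtain ⟨c, hc⟩ := hb
  obtain ⟨x, y, rfl⟩ := exists_repr c
  have h1 : b = ((1 + 3 * x : ℤ) : O) + ((3 * y : ℤ) : O) * om := by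
    push_cast
    linear_combination hc
  have h2 := Nm_repr (1 + 3 * x) (3 * y)
  rw [← h1] at h2
  have h3 : (Nm b : ℤ) = 3 * (2 * x + 3 * x ^ 2 - y - 3 * x * y + 3 * y ^ 2) + 1 := by
    rw [h2]
    ring
  have h4 : 0 ≤ 2 * x + 3 * x ^ 2 - y - 3 * x * y + 3 * y ^ 2 := by
    by_contra hneg
    push Not at hneg
    have : (0 : ℤ) ≤ Nm b := Int.natCast_nonneg _
    omega
  refine ⟨(2 * x + 3 * x ^ 2 - y - 3 * x * y + 3 * y ^ 2).toNat, ?_⟩
  zify
  rw [Int.toNat_of_nonneg h4]
  exact h3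

/-- If the norm of the prime b is even then b divides 2. -/
theorem GV7_even {b : O} (hp : Prime b) (he : Even (Nm b)) : b ∣ 2 := by
  obtain ⟨x, y, rfl⟩ := exists_repr b
  have h2 := Nm_repr x y
  have h3 : (2 : ℤ) ∣ x ^ 2 - x * y + y ^ 2 := by
    rw [← h2]
    obtain ⟨m, hm⟩ := he
    exact ⟨m, by rw [hm]; push_cast; ring⟩
  have hxy : (2 : ℤ) ∣ x ∧ (2 : ℤ) ∣ y := by
    rcases Int.even_or_odd' x with ⟨c, hc | hc⟩ <;> rcases Int.even_or_odd' y with ⟨d, hd | hd⟩
    · exact ⟨⟨c, hc⟩, ⟨d, hd⟩⟩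
    all_goals
      exfalso
      obtain ⟨m, hm⟩ := h3
      subst hc hd
      ring_nf at hm
      omega
  obtain ⟨⟨c, hc⟩, ⟨d, hd⟩⟩ := hxy
  have e : ((x : O) + y * om) = 2 * ((c : O) + d * om) := by
    rw [hc, hd]
    push_cast
    ring
  have hirr := hp.irreducible
  rcases hirr.isUnit_or_isUnit e with h | h
  · exfalso
    have h5 : Nm (2 : O) = 4 := by
      have := Nm_repr 2 0
      have e2 : ((2 : ℤ) : O) + ((0 : ℤ) : O) * om = 2 := by push_cast; ring
      rw [e2] at this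
      have h6 : (Nm (2 : O) : ℤ) = 4 := by rw [this]; norm_num
      exact_mod_cast h6
    have h7 : Nm (2 : O) = 1 := by
      unfold Nm
      rw [Ideal.span_singleton_eq_top.2 h, Ideal.absNorm_top]
    omega
  · obtain ⟨u, hu⟩ := h
    refine ⟨((u⁻¹ : Oˣ) : O), ?_⟩
    rw [e, ← hu, mul_assoc, Units.mul_inv, mul_one]

theorem kron (j : k →ₐ[F] ℂ) {b : O} (hp : Prime b) (hb : Prim b) (hf : Full b k)
    (hv : v (ak k b) < 1) {X : P27 k} (hX : X ≠ 0) (h1 : v (xc X) ≤ 1) :
    act b X ≠ 0 ∧ v (xc (act b X)) ≤ 1 ∧ v (xc (act b X) - xc X ^ Nm b) < 1 ∧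
      v (yc (act b X) - yc X ^ Nm b) < 1 := by
  have hfin : Finite (Tor b k) := hf.finite hp.ne_zero
  have hcard : Nat.card (Tor b k) = Nm b := hf
  have hE : ∀ R : Tor b k, E1 v (R : P27 k) := by
    intro R
    by_cases h0 : (R : P27 k) = 0
    · exact Or.inl h0
    · exact Or.inr (tor_val v j hp hb hf hv R.2 h0).1
  have hact : ∀ {Y : P27 k}, Y ≠ 0 → v (xc Y) ≤ 1 → act b Y ≠ 0 := by
    intro Y hY hY1 h0
    exact absurd (tor_val v j hp hb hf hv (mem_Tor.2 h0) hY).1 (not_lt.2 hY1)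
  have hxX : ∀ {Y : P27 k}, Y ≠ 0 → v (xc Y) ≤ 1 →
      v (∏ᶠ R : Tor b k, xc (Y + (R : P27 k)) - xc Y ^ Nm b) < 1 := by
    intro Y hY hY1
    rw [← hcard]
    exact GV7_finprod v _ _ hY1 fun R => (GV7_cong v hY hY1 (hE R)).1
  have hyX : ∀ {Y : P27 k}, Y ≠ 0 → v (xc Y) ≤ 1 →
      v (∏ᶠ R : Tor b k, yc (Y + (R : P27 k)) - yc Y ^ Nm b) < 1 := by
    intro Y hY hY1
    rw [← hcard]
    exact GV7_finprod v _ _ (int_y v hY1) fun R => (GV7_cong v hY hY1 (hE R)).2
  obtain ⟨C, hC6, hC, _⟩ := dist_x j b hb hf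
  obtain ⟨D, hD0, hD⟩ := dist_y j b hb hf
  have hS0 : Spt k ≠ 0 := pt_ne _ _ _
  have hSx : xc (Spt k) = -1 := rfl
  have hSy : yc (Spt k) = ok k := rfl
  have hS1 : v (xc (Spt k)) ≤ 1 := by
    rw [hSx, Valuation.map_neg, map_one]
  have haS := act_Spt (k := k) b hb
  have hC1 : v (C - 1) < 1 := by
    have h2 := hxX hS0 hS1
    rw [hC (Spt k) (by rw [haS]; exact hS0), haS, hSx] at h2
    rcases Nat.even_or_odd (Nm b) with he | ho
    · rw [he.neg_one_pow] at h2
      have h3 : v (2 : k) < 1 := by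
        obtain ⟨c, hc⟩ := GV7_even hp he
        have h4 : (2 : k) = ak k c * ak k b := by
          rw [← map_mul, mul_comm, ← hc]
          exact (map_ofNat (ak k) 2).symm
        rw [h4]
        exact GV7_mul_lt v (ak_le v c) hv
      have e : C - 1 = -((C * -1 - 1) + 2) := by ring
      rw [e, Valuation.map_neg]
      exact GV7_add_lt v h2 h3
    · rw [ho.neg_one_pow] at h2
      have e : C - 1 = -(C * -1 - -1) := by ring
      rw [e, Valuation.map_neg]
      exact h2
  have hD1 : v (D - 1) < 1 := by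
    have h2 := hyX hS0 hS1
    rw [hD (Spt k) (by rw [haS]; exact hS0), haS, hSy] at h2
    obtain ⟨n, hn⟩ := GV7_Nm_mod hb
    have h3 : ok k ^ Nm b = ok k := by
      rw [hn, pow_succ, pow_mul, ok_cube, one_pow, one_mul]
    rw [h3] at h2
    have e : D * ok k - ok k = (D - 1) * ok k := by ring
    rw [e, map_mul, ok_val, mul_one] at h2
    exact h2
  have hone : ∀ c : k, v (c - 1) < 1 → v c = 1 := by
    intro c hc
    have e : c = 1 + (c - 1) := by ring
    rw [e, Valuation.map_add_eq_of_lt_left v (by rw [map_one]; exact hc), map_one]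
  have hCv := hone C hC1
  have hDv := hone D hD1
  have hX2 := hact hX h1
  have fin : ∀ (c z w : k), v (c - 1) < 1 → v c = 1 → v w ≤ 1 → v (c * z - w) < 1 → v (z - w) < 1 := by
    intro c z w h2 h3 h4 h5
    have e : c * (z - w) = (c * z - w) - w * (c - 1) := by ring
    have h6 : v (c * (z - w)) < 1 := by
      rw [e]
      exact GV7_sub_lt v h5 (GV7_mul_lt v h4 h2)
    rw [map_mul, h3, one_mul] at h6
    exact h6
  have hxw : v (xc X ^ Nm b) ≤ 1 := by
    rw [map_pow]
    exact pow_le_one' h1 _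
  have hyw : v (yc X ^ Nm b) ≤ 1 := by
    rw [map_pow]
    exact pow_le_one' (int_y v h1) _
  have r1 : v (xc (act b X) - xc X ^ Nm b) < 1 := by
    refine fin C _ _ hC1 hCv hxw ?_
    rw [← hC X hX2]
    exact hxX hX h1
  have r2 : v (yc (act b X) - yc X ^ Nm b) < 1 := by
    refine fin D _ _ hD1 hDv hyw ?_
    rw [← hD X hX2]
    exact hyX hX h1
  exact ⟨hX2, GV7_le_one v hxw r1, r1, r2⟩

end H28G
end

-- from Lib.H13S.GIA
section

open NumberField IsDedekindDomain

namespace H13S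

open H55P H28G H55B

/-! Chunk GIA (M): translations of the statements of H28G for the valuation V.valuation of a valuation ring V of Ω (Kr V P is E1 V.valuation P by definition, vo V a is V.valuation (ak Ω a) by definition;
j : Ω →ₐ[F] ℂ is IsAlgClosed.lift, algebra structure H28G.algC; IsAlgClosure F Ω gives IsAlgClosed Ω and Algebra.IsAlgebraic F Ω).
gi_gen: full_Om, tor_gen, act_eq_zero (Nm β ≥ 2 so there is a nonzero point, Full, Nat.card). kr_add, kr_tt_add: E1_add (the case P = -Q etc. is included). kr_act, kr_tt_act: E1_act. kr_tt_lt, kr_tt_zero: tt_val. kr_congr: red_sub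
(V.valuation (xc Q) ≤ 1 follows from the congruence). kr_tor: tor_unit. kr_tor_ram: tor_val. kr_kron: kron. kr_prod: if act β Q ≠ 0: dist_x for X = Q: product over R of V(xc (Q+R)) = V(C) V(xc (act β Q)), V(C) = 1 as C^6 = 1; Q + R is in Kr (kr_tor_ram, kr_add), not 0
(act β (Q + R) = act β Q ≠ 0), and V(tt P)^2 V(xc P) = 1 (tt_val): take the product (finprod over a finite type: finprod_eq_prod_of_fintype, Finset.prod_pow), squares are injective. If act β Q = 0: Q is in Tor β, the factor R = -Q is tt 0 = 0 and the right side is 0 too. -/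

variable {Ω : Type} [Field Ω] [DecidableEq Ω] [Algebra F Ω]

theorem gia_j (Ω : Type) [Field Ω] [Algebra F Ω] [IsAlgClosure F Ω] : Nonempty (Ω →ₐ[F] ℂ) := by
  have hal : Algebra.IsAlgebraic F Ω := IsAlgClosure.isAlgebraic
  exact ⟨IsAlgClosed.lift⟩

theorem gia_full (Ω : Type) [Field Ω] [DecidableEq Ω] [Algebra F Ω] [IsAlgClosure F Ω] {β : O} (hβ : β ≠ 0) :
    Full β Ω := by
  have hal : Algebra.IsAlgebraic F Ω := IsAlgClosure.isAlgebraic
  have hac : IsAlgClosed Ω := IsAlgClosure.isAlgClosed F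
  exact full_Om Ω β hβ

theorem gia_Nm {β : O} (hβ : Prime β) : 2 ≤ H55B.Nm β := by
  have h0 : H55B.Nm β ≠ 0 := fun h => hβ.ne_zero (H55B.Nm_eq_zero.1 h)
  have h1 : H55B.Nm β ≠ 1 := by
    intro h
    unfold H55B.Nm at h
    rw [Ideal.absNorm_eq_one_iff, Ideal.span_singleton_eq_top] at h
    exact hβ.not_unit h
  omega

theorem gi_gen [IsAlgClosure F Ω] (β : O) (hβ : Prime β) (h3 : Prim β) :
    Nat.card (Tor β Ω) = H55B.Nm β ∧ ∃ T₀ ∈ Tor β Ω, (∀ T ∈ Tor β Ω, ∃ a : O, T = act a T₀) ∧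
      ∀ a : O, act a T₀ = 0 ↔ β ∣ a := by
  have hf := gia_full Ω hβ.ne_zero
  refine ⟨hf, ?_⟩
  have hfin := hf.finite hβ.ne_zero
  have h2 : 1 < Nat.card (Tor β Ω) := by
    rw [show Nat.card (Tor β Ω) = H55B.Nm β from hf]
    exact gia_Nm hβ
  have h4 : Nontrivial (Tor β Ω) := Finite.one_lt_card_iff_nontrivial.1 h2
  obtain ⟨T, hT⟩ := exists_ne (0 : Tor β Ω)
  have hT0 : (T : P27 Ω) ≠ 0 := fun h => hT (Subtype.ext h)
  refine ⟨T, T.2, ?_, ?_⟩
  · intro T' hT'
    obtain ⟨c, hc⟩ := tor_gen hβ hf T.2 hT' hT0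
    exact ⟨c, hc.symm⟩
  · intro a
    exact act_eq_zero hβ T.2 hT0 a

theorem kr_add (V : ValuationSubring Ω) {P Q : P27 Ω} (hP : Kr V P) (hQ : Kr V Q) : Kr V (P + Q) :=
  (E1_add V.valuation hP hQ).1

theorem kr_act (V : ValuationSubring Ω) (a : O) {P : P27 Ω} (hP : Kr V P) : Kr V (act a P) :=
  (E1_act V.valuation hP a).1

/-- t is additive modulo squares. -/
theorem kr_tt_add (V : ValuationSubring Ω) {P Q : P27 Ω} (hP : Kr V P) (hQ : Kr V Q) (c : V.ValueGroup)
    (h1 : V.valuation (tt P) ≤ c) (h2 : V.valuation (tt Q) ≤ c) :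
    V.valuation (tt (P + Q) - tt P - tt Q) ≤ c ^ 2 :=
  ((E1_add V.valuation hP hQ).2).trans (pow_le_pow_left' (max_le h1 h2) 2)

/-- t(a P) = a t(P) modulo squares. -/
theorem kr_tt_act (V : ValuationSubring Ω) (a : O) {P : P27 Ω} (hP : Kr V P) :
    V.valuation (tt (act a P) - algebraMap F Ω (a : F) * tt P) ≤ V.valuation (tt P) ^ 2 :=
  (E1_act V.valuation hP a).2.1

theorem kr_tt_lt (V : ValuationSubring Ω) {P : P27 Ω} (hP : Kr V P) : V.valuation (tt P) < 1 :=
  GV7_tt_lt V.valuation hP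

theorem gia_tt0 : tt (0 : P27 Ω) = 0 := by
  unfold tt
  rw [xc_zero, neg_zero, zero_div]

theorem kr_tt_zero (V : ValuationSubring Ω) {P : P27 Ω} (hP : Kr V P) : tt P = 0 ↔ P = 0 := by
  constructor
  · intro h
    rcases hP with h1 | h1
    · exact h1
    · exfalso
      have h2 := (tt_val V.valuation h1).2.1
      rw [h, map_zero] at h2
      exact h2 rfl
  · rintro rfl
    exact gia_tt0

/-- Congruent integral points differ by a point of the kernel of reduction (good reduction outside 3). -/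
theorem kr_congr (V : ValuationSubring Ω) (h3 : V.valuation (3 : Ω) = 1) {P Q : P27 Ω} (hP : P ≠ 0)
    (hQ : Q ≠ 0) (hP1 : V.valuation (xc P) ≤ 1) (hx : V.valuation (xc P - xc Q) < 1)
    (hy : V.valuation (yc P - yc Q) < 1) : Kr V (P - Q) := by
  refine red_sub V.valuation h3 hP hQ hP1 ?_ hx hy
  have e : xc Q = xc P - (xc P - xc Q) := by ring
  rw [e]
  exact (Valuation.map_sub _ _ _).trans (max_le hP1 hx.le)

/-- Points killed by an element which is a unit are not in the kernel of reduction. -/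
theorem kr_tor (V : ValuationSubring Ω) (β : O) (hβ : vo V β = 1) {T : P27 Ω} (hT : T ∈ Tor β Ω)
    (hK : Kr V T) : T = 0 :=
  tor_unit V.valuation hβ hT hK

/-- The points killed by a prime element below V. -/
theorem kr_tor_ram [IsAlgClosure F Ω] (β : O) (hβ : Prime β) (h3 : Prim β) (V : ValuationSubring Ω)
    (hV : vo V β < 1) {T : P27 Ω} (hT : T ∈ Tor β Ω) (h0 : T ≠ 0) :
    Kr V T ∧ V.valuation (tt T) ^ (H55B.Nm β - 1) = vo V β := by
  obtain ⟨j⟩ := gia_j Ω
  obtain ⟨h1, h2⟩ := tor_val V.valuation j hβ h3 (gia_full Ω hβ.ne_zero) hV hT h0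
  exact ⟨Or.inr h1, h2⟩

/-- The product formula. -/
theorem kr_prod [IsAlgClosure F Ω] (β : O) (hβ : Prime β) (h3 : Prim β) (V : ValuationSubring Ω)
    (hV : vo V β < 1) {Q : P27 Ω} (hQ : Kr V Q) :
    ∏ᶠ R : Tor β Ω, V.valuation (tt (Q + (R : P27 Ω))) = V.valuation (tt (act β Q)) := by
  obtain ⟨j⟩ := gia_j Ω
  have hf := gia_full Ω hβ.ne_zero
  have hfin := hf.finite hβ.ne_zero
  have hfi : Fintype (Tor β Ω) := Fintype.ofFinite _
  have hKr : ∀ R : Tor β Ω, Kr V (Q + (R : P27 Ω)) := by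
    intro R
    by_cases h0 : (R : P27 Ω) = 0
    · rw [h0, add_zero]
      exact hQ
    · exact kr_add V hQ (kr_tor_ram β hβ h3 V hV R.2 h0).1
  by_cases hz : act β Q = 0
  · rw [hz, gia_tt0, map_zero]
    rw [finprod_eq_prod_of_fintype]
    apply Finset.prod_eq_zero (Finset.mem_univ (-⟨Q, mem_Tor.2 hz⟩ : Tor β Ω))
    show V.valuation (tt (Q + -Q)) = 0
    rw [add_neg_cancel, gia_tt0, map_zero]
  · obtain ⟨C, hC6, hC, -⟩ := dist_x j β h3 hf
    have hCv : V.valuation C = 1 := by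
      have h1 : V.valuation C ^ 6 = 1 := by rw [← map_pow, hC6, map_one]
      exact (pow_eq_one_iff_of_nonneg zero_le (by norm_num)).1 h1
    have h1 := hC Q hz
    have hne : ∀ R : Tor β Ω, Q + (R : P27 Ω) ≠ 0 := by
      intro R h
      apply hz
      have h2 : act β (Q + (R : P27 Ω)) = act β Q := by
        rw [map_add, mem_Tor.1 R.2, add_zero]
      rw [← h2, h, map_zero]
    have hgt : ∀ P : P27 Ω, Kr V P → P ≠ 0 → V.valuation (tt P) ^ 2 * V.valuation (xc P) = 1 := by
      intro P hP hP0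
      rcases hP with h | h
      · exact absurd h hP0
      · exact (tt_val V.valuation h).2.2.1
    have h2 : (∏ R : Tor β Ω, V.valuation (tt (Q + (R : P27 Ω)))) ^ 2 *
        ∏ R : Tor β Ω, V.valuation (xc (Q + (R : P27 Ω))) = 1 := by
      rw [← Finset.prod_pow, ← Finset.prod_mul_distrib]
      exact Finset.prod_eq_one fun R _ => hgt _ (hKr R) (hne R)
    have h3' : ∏ R : Tor β Ω, V.valuation (xc (Q + (R : P27 Ω))) = V.valuation (xc (act β Q)) := by
      rw [finprod_eq_prod_of_fintype] at h1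
      rw [← map_prod, h1, map_mul, hCv, one_mul]
    have h4 := hgt _ (kr_act V β hQ) hz
    rw [h3'] at h2
    rw [finprod_eq_prod_of_fintype]
    have hx0 : V.valuation (xc (act β Q)) ≠ 0 := by
      intro h0
      rw [h0, mul_zero] at h4
      exact zero_ne_one h4
    have h5 : (∏ R : Tor β Ω, V.valuation (tt (Q + (R : P27 Ω)))) ^ 2 = V.valuation (tt (act β Q)) ^ 2 :=
      mul_right_cancel₀ hx0 (h2.trans h4.symm)
    exact (pow_left_inj₀ zero_le zero_le two_ne_zero).1 h5

/-- Kronecker congruence. -/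
theorem kr_kron [IsAlgClosure F Ω] (β : O) (hβ : Prime β) (h3 : Prim β) (V : ValuationSubring Ω)
    (hV : vo V β < 1) {X : P27 Ω} (hX : X ≠ 0) (h1 : V.valuation (xc X) ≤ 1) :
    act β X ≠ 0 ∧ V.valuation (xc (act β X)) ≤ 1 ∧ V.valuation (xc (act β X) - xc X ^ H55B.Nm β) < 1 ∧
      V.valuation (yc (act β X) - yc X ^ H55B.Nm β) < 1 := by
  obtain ⟨j⟩ := gia_j Ω
  exact kron V.valuation j hβ h3 (gia_full Ω hβ.ne_zero) hV hX h1

end H13S
end
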