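import Mathlib
import Pool.Agent.Lib.H1M.PP2.M052

open NumberField IsDedekindDomain WeierstrassCurve

namespace H13Z

open H55P

open Classical in
/-- The same with the algebraic closure of K. -/
def SelNonT {K : Type} [Field K] (W : WeierstrassCurve K) (p : ℕ) : Prop :=
  ∃ c : (AlgebraicClosure K ≃ₐ[K] AlgebraicClosure K) → Pt W (AlgebraicClosure K), Cocycle W c ∧
    (∀ s, p • c s = 0) ∧
    (∀ V : ValuationSubring (AlgebraicClosure K), V ≠ ⊤ → ∃ P, ∀ s, Dec V s → c s = ac W s P - P) ∧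
    ¬ ∃ T, p • T = 0 ∧ ∀ s, c s = ac W s T - T

end H13Z
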