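import Mathlib
import Pool.Agent.Lib.H1M.PP2.D_H55P_Stm
import Pool.Agent.Lib.H1M.PP2.M010

/-!
# H28R: realisation of p-groups over F = Q(om), p >= 5 (definitions)

See PROOF.md.
-/

open NumberField IsDedekindDomain

namespace H28R

open H55B (F O om Prim gen)
open H55P H55R

/-- The cyclic group of order p. -/
abbrev CP (p : ℕ) : Type := Multiplicative (ZMod p)

/-- H is isomorphic to a quotient of a subgroup of Γ. -/
def SubQ (Γ : Type) [Group Γ] (H : Type) [Group H] : Prop :=
  ∃ (S : Subgroup Γ) (φ : S →* H), Function.Surjective φ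

end H28R
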