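import Mathlib
import Pool.Agent.Lib.H1M.PP2.D_H28R_Defs
import Pool.Agent.Lib.H1M.PP2.D_H55P_Defs
import Pool.Agent.Lib.H1M.PP2.D_H55P_SD
import Pool.Agent.Lib.H1M.PP2.D_H55P_Sel
import Pool.Agent.Lib.H1M.PP2.D_H55P_Stm
import Pool.Agent.Lib.H1M.PP2.M010
import Pool.Agent.Lib.H1M.PP2.M017
import Pool.Agent.Lib.H1M.PP2.M019
import Pool.Agent.Lib.H1M.PP2.M020
import Pool.Agent.Lib.H1M.PP2.M021
import Pool.Agent.Lib.H1M.PP2.M022
import Pool.Agent.Lib.H1M.PP2.M031
import Pool.Agent.Lib.H1M.PP2.M038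
import Pool.Agent.Lib.H1M.PP2.M040
import Pool.Agent.Lib.H1M.PP2.M046
import Pool.Agent.Lib.H1M.PP2.M047
import Pool.Agent.Lib.H1M.PP2.M048

/-! Merged copies (to shorten the build) of Lib.H13S.IN2, Lib.H13S.FR, Lib.H55P.S13, Lib.H55P.SA3, Lib.H55P.S3, Lib.H13S.IN4, Lib.H55N.T2, Lib.H55P.S8, Lib.H55P.S10, Lib.H55P.S14, Lib.H55P.S6, Lib.H13S.LU, Lib.H13S.OR1, Lib.H28R.Defs_T, Lib.H55K.A.B3, Lib.H55K.A.B5, Lib.H55K.A.D1. -/

-- from Lib.H13S.IN2
section

open NumberField IsDedekindDomain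
open scoped Pointwise

namespace H13S

open H55P

/-- fixed points of the Frobenius map -/
theorem in2_fin {k L : Type} [Field k] [Fintype k] [Field L] (i : k →+* L) (y : L)
    (hy : y ^ Fintype.card k = y) : ∃ a : k, i a = y := by
  classical
  set f : Polynomial L := Polynomial.X ^ Fintype.card k - Polynomial.X with hf
  have hf0 : f ≠ 0 := FiniteField.X_pow_card_sub_X_ne_zero L Fintype.one_lt_card
  have hroot : ∀ z : L, z ∈ f.roots.toFinset ↔ z ^ Fintype.card k = z := by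
    intro z
    rw [Multiset.mem_toFinset, Polynomial.mem_roots hf0, Polynomial.IsRoot.def, hf, Polynomial.eval_sub,
      Polynomial.eval_pow, Polynomial.eval_X, sub_eq_zero]
  have hsub : (Finset.univ.image i) ⊆ f.roots.toFinset := by
    intro z hz
    obtain ⟨a, -, rfl⟩ := Finset.mem_image.1 hz
    rw [hroot, ← map_pow, FiniteField.pow_card]
  have hcard : f.roots.toFinset.card ≤ (Finset.univ.image i).card := by
    rw [Finset.card_image_of_injective _ i.injective, Finset.card_univ]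
    calc f.roots.toFinset.card ≤ Multiset.card f.roots := Multiset.toFinset_card_le _
      _ ≤ f.natDegree := Polynomial.card_roots' f
      _ = Fintype.card k := FiniteField.X_pow_card_sub_X_natDegree_eq L Fintype.one_lt_card
  have heq := Finset.eq_of_subset_of_card_le hsub hcard
  have hy' : y ∈ Finset.univ.image i := by
    rw [heq, hroot]
    exact hy
  obtain ⟨a, -, ha⟩ := Finset.mem_image.1 hy'
  exact ⟨a, ha⟩

section general

variable {K : Type} [Field K] [NumberField K] {Ω : Type} [Field Ω] [Algebra K Ω]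

theorem in2_mem (V : ValuationSubring Ω) (z : 𝓞 Ω) : (z : Ω) ∈ V := by
  have h1 : IsIntegral V (z : Ω) := z.isIntegral_coe.tower_top
  obtain ⟨y, hy⟩ := (IsIntegrallyClosed.isIntegral_iff (R := V) (K := Ω)).1 h1
  rw [← hy]
  exact y.2

theorem in2_le (V : ValuationSubring Ω) {x : Ω} (hx : IsIntegral ℤ x) : V.valuation x ≤ 1 :=
  (V.valuation_le_one_iff _).2 (in2_mem V ⟨x, hx⟩)

/-- the map to V -/
noncomputable def in2c (V : ValuationSubring Ω) : 𝓞 Ω →+* V :=
  (algebraMap (𝓞 Ω) Ω).codRestrict V (fun x => in2_mem V x)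

/-- the prime of the algebraic integers below V -/
noncomputable def in2Q (V : ValuationSubring Ω) : Ideal (𝓞 Ω) :=
  (IsLocalRing.maximalIdeal V).comap (in2c V)

theorem in2Q_lt (V : ValuationSubring Ω) (z : 𝓞 Ω) : z ∈ in2Q V ↔ V.valuation (z : Ω) < 1 := by
  unfold in2Q
  rw [Ideal.mem_comap, ValuationSubring.valuation_lt_one_iff]
  rfl

theorem in2Q_prime (V : ValuationSubring Ω) : (in2Q V).IsPrime := by
  unfold in2Q
  infer_instance

theorem in2Q_one (V : ValuationSubring Ω) (z : 𝓞 Ω) : z ∉ in2Q V ↔ V.valuation (z : Ω) = 1 := by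
  rw [in2Q_lt, not_lt]
  have h := (V.valuation_le_one_iff _).2 (in2_mem V z)
  exact ⟨fun h1 => le_antisymm h h1, fun h1 => h1.ge⟩

/-- fractions -/
theorem in2_frac (K : Type) [Field K] [NumberField K] [Algebra K Ω] [Algebra.IsAlgebraic K Ω]
    (V : ValuationSubring Ω) (q : ℕ) (hq : q.Prime) (hV : V.valuation (q : Ω) < 1) (x : Ω)
    (hx : x ∈ V) : ∃ a c : 𝓞 Ω, V.valuation (c : Ω) = 1 ∧ x = (a : Ω) / (c : Ω) := by
  have hint : IsIntegral K x := Algebra.IsIntegral.isIntegral x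
  have hfd : FiniteDimensional K (IntermediateField.adjoin K {x}) :=
    IntermediateField.adjoin.finiteDimensional hint
  obtain ⟨a, c, -, -, ha, hc, hc1, hxac⟩ := H16C.frac_rep (IntermediateField.adjoin K {x}) V q hq hV
    (IntermediateField.mem_adjoin_simple_self K x) ((V.valuation_le_one_iff _).2 hx)
  exact ⟨⟨a, ha⟩, ⟨c, hc⟩, hc1, hxac⟩

theorem in2_inv [IsAlgClosure K Ω] : Algebra.IsInvariant (𝓞 K) (𝓞 Ω) Gal(Ω/K) := by
  have hG : IsGalois K Ω := IsAlgClosure.isGalois K Ω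
  refine ⟨fun x hx => ?_⟩
  have h1 : ∀ g : Gal(Ω/K), g (x : Ω) = x := fun g =>
    congrArg (fun y : 𝓞 Ω => (y : Ω)) (hx g)
  have h2 : (x : Ω) ∈ (⊥ : IntermediateField K Ω) := by
    rw [← InfiniteGalois.fixedField_bot]
    rw [IntermediateField.mem_fixedField_iff]
    intro g _
    exact h1 g
  obtain ⟨y, hy⟩ := IntermediateField.mem_bot.1 h2
  have h3 : IsIntegral ℤ y := by
    have h4 : IsIntegral ℤ (algebraMap K Ω y) := by
      rw [hy]; exact x.isIntegral_coe
    exact (isIntegral_algebraMap_iff (algebraMap K Ω).injective).1 h4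
  refine ⟨⟨y, h3⟩, ?_⟩
  apply RingOfIntegers.coe_injective
  exact hy

theorem in2_dec [Algebra.IsAlgebraic K Ω] (q : ℕ) (hq : q.Prime) (V : ValuationSubring Ω)
    (hV : V.valuation (q : Ω) < 1) (s : Ω ≃ₐ[K] Ω)
    (hs : ∀ z : 𝓞 Ω, ∀ w : 𝓞 Ω, (w : Ω) = s (z : Ω) → (w ∈ in2Q V ↔ z ∈ in2Q V)) (x : Ω)
    (hx : x ∈ V) : s x ∈ V := by
  obtain ⟨a, c, hc, rfl⟩ := in2_frac K V q hq hV x hx
  have hint : ∀ z : 𝓞 Ω, IsIntegral ℤ (s (z : Ω)) := fun z => z.isIntegral_coe.map (s.toAlgHom.restrictScalars ℤ)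
  have h1 : V.valuation (s (c : Ω)) = 1 := by
    have h2 := (hs c ⟨s (c : Ω), hint c⟩ rfl)
    have h3 := (in2Q_one V c).2 hc
    exact (in2Q_one V ⟨s (c : Ω), hint c⟩).1 (fun h4 => h3 (h2.1 h4))
  rw [← V.valuation_le_one_iff, map_div₀ s, map_div₀, h1, div_one]
  exact in2_le V (hint a)

/-- Frobenius elements of infinite extensions. -/
theorem in2_gen [IsAlgClosure K Ω] (q : ℕ) (hq : q.Prime) (V : ValuationSubring Ω)
    (hV : V.valuation (q : Ω) < 1) : ∃ s : Ω ≃ₐ[K] Ω, (∀ x : Ω, s x ∈ V ↔ x ∈ V) ∧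
      ∀ x ∈ V, V.valuation (s x - x ^ Nat.card (𝓞 K ⧸ (in2Q V).comap (algebraMap (𝓞 K) (𝓞 Ω)))) < 1 := by
  classical
  have hac : IsAlgClosed Ω := IsAlgClosure.isAlgClosed K
  have hal : Algebra.IsAlgebraic K Ω := IsAlgClosure.isAlgebraic
  have hG : IsGalois K Ω := IsAlgClosure.isGalois K Ω
  have hc0 : CharZero Ω := charZero_of_injective_algebraMap (algebraMap K Ω).injective
  set Q : Ideal (𝓞 Ω) := in2Q V with hQ
  have hQp : Q.IsPrime := in2Q_prime V
  set P : Ideal (𝓞 K) := Q.comap (algebraMap (𝓞 K) (𝓞 Ω)) with hP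
  have hPp : P.IsPrime := Ideal.IsPrime.comap _
  have hqP : (q : 𝓞 K) ∈ P := by
    rw [hP, Ideal.mem_comap, map_natCast, hQ, in2Q_lt]
    simpa using hV
  have hPb : P ≠ ⊥ := by
    intro h
    rw [h, Ideal.mem_bot] at hqP
    exact hq.ne_zero (by exact_mod_cast hqP)
  have hvm : P.IsMaximal := Ideal.IsPrime.isMaximal hPp hPb
  let _ : Field (𝓞 K ⧸ P) := Ideal.Quotient.field P
  have hfin : Finite (𝓞 K ⧸ P) := Ideal.finiteQuotientOfFreeOfNeBot _ hPb
  let _ : Fintype (𝓞 K ⧸ P) := Fintype.ofFinite _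
  have hlo : Q.LiesOver P := ⟨rfl⟩
  have hinv := in2_inv (K := K) (Ω := Ω)
  have hsc : SMulCommClass Gal(Ω/K) (𝓞 K) (𝓞 Ω) := by
    constructor
    intro g a z
    rw [Algebra.smul_def, Algebra.smul_def, smul_mul']
    congr 1
    apply RingOfIntegers.ext
    exact g.commutes (a : K)
  let _ : TopologicalSpace (𝓞 Ω) := ⊥
  have : DiscreteTopology (𝓞 Ω) := ⟨rfl⟩
  have hcont : ContinuousSMul Gal(Ω/K) (𝓞 Ω) := by
    rw [continuousSMul_iff_stabilizer_isOpen]
    intro z
    have h1 := stabilizer_isOpen_of_isIntegral (K := K) (z : Ω)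
    convert! h1 using 1
    ext g
    simp only [SetLike.mem_coe, MulAction.mem_stabilizer_iff]
    constructor
    · intro h
      exact congrArg (fun y : 𝓞 Ω => (y : Ω)) h
    · intro h
      exact RingOfIntegers.coe_injective h
  have hint : Algebra.IsIntegral (𝓞 K) (𝓞 Ω) := Algebra.IsInvariant.isIntegral_of_profinite (G := Gal(Ω/K))
  have hQm : Q.IsMaximal := Ideal.isMaximal_of_isIntegral_of_isMaximal_comap Q hvm
  let _ : Field (𝓞 Ω ⧸ Q) := Ideal.Quotient.field Q
  have halg : Algebra.IsAlgebraic (𝓞 K ⧸ P) (𝓞 Ω ⧸ Q) := by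
    have : Algebra.IsIntegral (𝓞 K ⧸ P) (𝓞 Ω ⧸ Q) := inferInstance
    infer_instance
  obtain ⟨σ, hσ⟩ := Ideal.Quotient.stabilizerHom_surjective_of_profinite (G := Gal(Ω/K)) P Q
    (FiniteField.frobeniusAlgEquivOfAlgebraic (𝓞 K ⧸ P) (𝓞 Ω ⧸ Q))
  have hσ1 : ∀ z : 𝓞 Ω, (σ : Gal(Ω/K)) • z - z ^ Fintype.card (𝓞 K ⧸ P) ∈ Q := by
    intro z
    rw [← Ideal.Quotient.eq]
    exact DFunLike.congr_fun hσ (Ideal.Quotient.mk Q z)
  set s : Ω ≃ₐ[K] Ω := (σ : Gal(Ω/K)) with hs
  have hsz : ∀ z : 𝓞 Ω, ((((σ : Gal(Ω/K)) • z : 𝓞 Ω)) : Ω) = s (z : Ω) := fun z => rfl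
  have hmem : ∀ (τ : MulAction.stabilizer Gal(Ω/K) Q) (z : 𝓞 Ω), (τ : Gal(Ω/K)) • z ∈ Q ↔ z ∈ Q := by
    rintro ⟨g, hg⟩ z
    have h1 : g • Q = Q := hg
    have h2 : g • z ∈ g • Q ↔ z ∈ Q := Ideal.smul_mem_pointwise_smul_iff
    rwa [h1] at h2
  have hdec1 : ∀ (τ : MulAction.stabilizer Gal(Ω/K) Q) (y : Ω), y ∈ V → (τ : Gal(Ω/K)) y ∈ V := by
    intro τ y hy
    refine in2_dec q hq V hV _ ?_ y hy
    intro z w hw
    have h1 : w = (τ : Gal(Ω/K)) • z := RingOfIntegers.coe_injective hw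
    rw [h1]
    exact hmem τ z
  refine ⟨s, ?_, ?_⟩
  · intro y
    refine ⟨fun h => ?_, hdec1 σ y⟩
    have h1 := hdec1 σ⁻¹ (s y) h
    have h2 : ((σ⁻¹ : MulAction.stabilizer Gal(Ω/K) Q) : Gal(Ω/K)) (s y) = y :=
      (σ : Gal(Ω/K)).symm_apply_apply y
    rwa [h2] at h1
  · intro x hx
    obtain ⟨a, c, hc, hxac⟩ := in2_frac K V q hq hV x hx
    rw [Nat.card_eq_fintype_card]
    set N := Fintype.card (𝓞 K ⧸ P) with hN
    have key : ∀ z : 𝓞 Ω, V.valuation (s (z : Ω) - (z : Ω) ^ N) < 1 := by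
      intro z
      have h1 := (in2Q_lt V _).1 (hσ1 z)
      rw [← hsz z]
      simpa using h1
    have h1 : V.valuation (s (a : Ω) / s (c : Ω) - (a : Ω) ^ N / (c : Ω) ^ N) < 1 := by
      refine H16C.FR_div_congr V (key a) (key c) ?_ ?_
      · rw [map_pow]
        exact pow_le_one' (in2_le V a.isIntegral_coe) _
      · rw [map_pow, hc, one_pow]
    rw [← map_div₀ s, ← div_pow, ← hxac] at h1
    exact h1

end general

/-- a proper valuation ring lies above a prime number -/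
theorem in2_prime {Ω : Type} [Field Ω] [CharZero Ω] [Algebra.IsAlgebraic ℤ Ω] (V : ValuationSubring Ω)
    (hV : V ≠ ⊤) : ∃ q : ℕ, q.Prime ∧ V.valuation (q : Ω) < 1 := by
  obtain ⟨y, hy⟩ : ∃ y : Ω, y ∉ V := by
    by_contra hcon
    apply hV
    rw [eq_top_iff]
    intro y _
    by_contra hy
    exact hcon ⟨y, hy⟩
  have hy1 : 1 < V.valuation y := by
    rw [← not_le, V.valuation_le_one_iff]
    exact hy
  have hy0 : y ≠ 0 := by
    rintro rfl
    exact hy V.zero_mem
  set z : Ω := y⁻¹ with hz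
  have hz1 : V.valuation z < 1 := by
    rw [hz, map_inv₀]
    exact inv_lt_one_of_one_lt₀ hy1
  have hz0 : z ≠ 0 := inv_ne_zero hy0
  have hzV : z ∈ V := (V.valuation_le_one_iff _).1 hz1.le
  obtain ⟨p, hp0, hp⟩ := (Algebra.IsAlgebraic.isAlgebraic (R := ℤ) z).exists_nonzero_coeff_and_aeval_eq_zero
    (mem_nonZeroDivisors_of_ne_zero hz0)
  have h1 : Polynomial.aeval z p.divX * z + ((p.coeff 0 : ℤ) : Ω) = 0 := by
    have h2 := congrArg (Polynomial.aeval z) (Polynomial.divX_mul_X_add p)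
    rw [hp, map_add, map_mul, Polynomial.aeval_X, Polynomial.aeval_C] at h2
    simpa using h2
  have h3 : V.valuation (Polynomial.aeval z p.divX) ≤ 1 := by
    rw [V.valuation_le_one_iff]
    have h4 : Polynomial.aeval z p.divX = ((Polynomial.aeval (⟨z, hzV⟩ : V) p.divX : V) : Ω) := by
      have h5 := Polynomial.aeval_algebraMap_apply Ω (⟨z, hzV⟩ : V) p.divX
      exact h5
    rw [h4]
    exact (Polynomial.aeval (⟨z, hzV⟩ : V) p.divX).2
  have h5 : V.valuation ((p.coeff 0 : ℤ) : Ω) < 1 := by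
    have h6 : ((p.coeff 0 : ℤ) : Ω) = -(Polynomial.aeval z p.divX * z) := by
      rw [← sub_eq_zero, sub_neg_eq_add, add_comm]
      exact h1
    rw [h6, Valuation.map_neg, map_mul]
    exact lt_of_le_of_lt (mul_le_of_le_one_left' h3) hz1
  have h7 : V.valuation (((p.coeff 0).natAbs : ℕ) : Ω) < 1 := by
    rcases Int.natAbs_eq (p.coeff 0) with h | h
    · rw [h] at h5
      simpa using h5
    · rw [h] at h5
      simpa [Valuation.map_neg] using h5
  have key : ∀ n : ℕ, n ≠ 0 → V.valuation (n : Ω) < 1 → ∃ q : ℕ, q.Prime ∧ V.valuation (q : Ω) < 1 := by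
    intro n
    induction n using Nat.recOnMul with
    | zero => intro h; exact absurd rfl h
    | one => intro _ h; simp at h
    | prime p hp => intro _ h; exact ⟨p, hp, h⟩
    | mul a b iha ihb =>
      intro hab h
      have ha : a ≠ 0 := left_ne_zero_of_mul hab
      have hb : b ≠ 0 := right_ne_zero_of_mul hab
      by_contra hcon
      have h8 : ¬ V.valuation (a : Ω) < 1 := fun h9 => hcon (iha ha h9)
      have h9 : ¬ V.valuation (b : Ω) < 1 := fun h9 => hcon (ihb hb h9)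
      rw [Nat.cast_mul, map_mul] at h
      refine absurd h (not_lt.2 ((not_lt.1 h8).trans ?_))
      exact le_mul_of_one_le_right' (not_lt.1 h9)
  exact key _ (Int.natAbs_ne_zero.2 hp0) h7

/-- Chunk IN2 (M/L). The residue field of the decomposition field. Notation of IN1 with K in place of N: B = all
algebraic integers of Ω, A = integers of K, G = Gal(Ω/K), Wb = {x in B : V.valuation x < 1}. If V = ⊤ then T is fixed by all of
G (Dec is trivial), so T lies in K; T need not be an integer, but then V.valuation (T - a) < 1 means T = a; so this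
case is excluded by the hypothesis hV (V lies above a prime). T = b/d with b, d in B, d not in Wb (see IN1), and B/Wb is a field (algebraic over
the finite field A/(Wb ∩ A)), so there is b' in B with V.valuation (T - b') < 1. Every automorphism of B/Wb over A/(Wb ∩ A) comes from some
s in G with s Wb = Wb (Ideal.Quotient.stabilizerHom_surjective_of_profinite), that is from s with Dec V s; s T = T, so the class of b' is
invariant under all automorphisms of B/Wb over the finite field A/(Wb ∩ A); an algebraic extension of a finite field is Galois, so the class of b' is the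
class of some a in A. -/
theorem residue_fixed {F₀ : Type} [Field F₀] [NumberField F₀] {Ω : Type} [Field Ω] [Algebra F₀ Ω]
    [IsAlgClosure F₀ Ω] (K : IntermediateField F₀ Ω) [NumberField K] (V : ValuationSubring Ω) (hV : V ≠ ⊤)
    (T : Ω) (hT : T ∈ V) (h : ∀ s ∈ K.fixingSubgroup, Dec V s → s T = T) :
    ∃ a : 𝓞 K, V.valuation (T - ((a : K) : Ω)) < 1 := by
  classical
  have hac : IsAlgClosed Ω := IsAlgClosure.isAlgClosed F₀
  have hal0 : Algebra.IsAlgebraic F₀ Ω := IsAlgClosure.isAlgebraic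
  have hc0 : CharZero Ω := charZero_of_injective_algebraMap (algebraMap F₀ Ω).injective
  have hal : Algebra.IsAlgebraic K Ω := Algebra.IsAlgebraic.tower_top (K := F₀) K
  have hcl : IsAlgClosure K Ω := ⟨inferInstance, hal⟩
  have halQ : Algebra.IsAlgebraic ℚ Ω := Algebra.IsAlgebraic.trans ℚ F₀ Ω
  have halZ : Algebra.IsAlgebraic ℤ Ω := (IsFractionRing.comap_isAlgebraic_iff (K := ℚ)).2 halQ
  obtain ⟨q, hq, hVq⟩ := in2_prime V hV
  obtain ⟨s, hs1, hs2⟩ := in2_gen (K := K) q hq V hVq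
  have hfix : s T = T := h (s.restrictScalars F₀) (fun y => s.commutes y) hs1
  have hQp : (in2Q V).IsPrime := in2Q_prime V
  set P : Ideal (𝓞 K) := (in2Q V).comap (algebraMap (𝓞 K) (𝓞 Ω)) with hP
  have hPp : P.IsPrime := Ideal.IsPrime.comap _
  have hqP : (q : 𝓞 K) ∈ P := by
    rw [hP, Ideal.mem_comap, map_natCast, in2Q_lt]
    simpa using hVq
  have hPb : P ≠ ⊥ := by
    intro h
    rw [h, Ideal.mem_bot] at hqP
    exact hq.ne_zero (by exact_mod_cast hqP)
  have hvm : P.IsMaximal := Ideal.IsPrime.isMaximal hPp hPb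
  let _ : Field (𝓞 K ⧸ P) := Ideal.Quotient.field P
  have hfin : Finite (𝓞 K ⧸ P) := Ideal.finiteQuotientOfFreeOfNeBot _ hPb
  let _ : Fintype (𝓞 K ⧸ P) := Fintype.ofFinite _
  have hxN := hs2 T hT
  rw [hfix, Nat.card_eq_fintype_card] at hxN
  let i : (𝓞 K ⧸ P) →+* IsLocalRing.ResidueField V :=
    Ideal.Quotient.lift P ((IsLocalRing.residue V).comp ((in2c V).comp (algebraMap (𝓞 K) (𝓞 Ω)))) (by
      intro z hz
      rw [RingHom.comp_apply, IsLocalRing.residue_eq_zero_iff, ValuationSubring.valuation_lt_one_iff]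
      exact (in2Q_lt V _).1 hz)
  obtain ⟨y, hy⟩ := in2_fin i (IsLocalRing.residue V ⟨T, hT⟩) (by
    rw [← map_pow, ← sub_eq_zero, ← map_sub, IsLocalRing.residue_eq_zero_iff,
      ValuationSubring.valuation_lt_one_iff]
    rw [← Valuation.map_neg]
    have h1 : -(((⟨T, hT⟩ : V) ^ Fintype.card (𝓞 K ⧸ P) - ⟨T, hT⟩ : V) : Ω) =
        T - T ^ Fintype.card (𝓞 K ⧸ P) := by
      push_cast
      ring
    rw [h1]
    exact hxN)
  obtain ⟨b, rfl⟩ := Ideal.Quotient.mk_surjective y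
  refine ⟨b, ?_⟩
  have h1 : IsLocalRing.residue V (in2c V (algebraMap (𝓞 K) (𝓞 Ω) b)) = IsLocalRing.residue V ⟨T, hT⟩ := hy
  rw [eq_comm, ← sub_eq_zero, ← map_sub, IsLocalRing.residue_eq_zero_iff,
    ValuationSubring.valuation_lt_one_iff] at h1
  exact h1

end H13S
end

-- from Lib.H13S.FR
section

open NumberField IsDedekindDomain
open scoped Pointwise

namespace H13S

open H55P H28G H55B



/-- Chunk FR (M). Frobenius elements. B = all algebraic integers of Ω, A = 𝓞 F₀, G = Gal(Ω/F₀), Wb = {x in B :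
V.valuation x < 1}, Wb ∩ A = v. B/Wb is an algebraic extension of the finite field A/v; x -> x^q (q = card A/v) is an
automorphism of it over A/v (surjective: every element lies in a finite field). Ideal.Quotient.stabilizerHom_surjective_of_profinite
gives s in G with s Wb = Wb inducing it. Every x in V is b/d with b, d in B, d not in Wb, so s x = s b/s d is congruent to b^q/d^q. Dec V s:
x = b/d in V iff ... (s d not in Wb). -/
theorem exists_frob {F₀ : Type} [Field F₀] [NumberField F₀] {Ω : Type} [Field Ω] [Algebra F₀ Ω]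
    [IsAlgClosure F₀ Ω] (v : HeightOneSpectrum (𝓞 F₀)) (V : ValuationSubring Ω)
    (hv : ∀ a : 𝓞 F₀, a ∈ v.asIdeal → V.valuation (algebraMap F₀ Ω (a : F₀)) < 1) :
    ∃ s : Ω ≃ₐ[F₀] Ω, Dec V s ∧ ∀ x ∈ V, V.valuation (s x - x ^ Ideal.absNorm v.asIdeal) < 1 := by
  have hvm := v.isMaximal
  let _ : Field (𝓞 F₀ ⧸ v.asIdeal) := Ideal.Quotient.field v.asIdeal
  have hfin : Finite (𝓞 F₀ ⧸ v.asIdeal) := Ideal.finiteQuotientOfFreeOfNeBot _ v.ne_bot
  obtain ⟨q, hqc⟩ := CharP.exists (𝓞 F₀ ⧸ v.asIdeal)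
  have hq : q.Prime := by
    rcases CharP.char_is_prime_or_zero (𝓞 F₀ ⧸ v.asIdeal) q with h | h
    · exact h
    · exact absurd h (CharP.char_ne_zero_of_finite (𝓞 F₀ ⧸ v.asIdeal) q)
  have hqv : (q : 𝓞 F₀) ∈ v.asIdeal := by
    rw [← Ideal.Quotient.eq_zero_iff_mem, map_natCast]
    exact CharP.cast_eq_zero _ q
  have hV : V.valuation (q : Ω) < 1 := by
    have h1 := hv (q : 𝓞 F₀) hqv
    simpa using h1
  obtain ⟨s, hs1, hs2⟩ := in2_gen (K := F₀) q hq V hV
  refine ⟨s, hs1, ?_⟩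
  have h1 : v.asIdeal = (in2Q V).comap (algebraMap (𝓞 F₀) (𝓞 Ω)) := by
    have h2 : (in2Q V).IsPrime := in2Q_prime V
    apply hvm.eq_of_le (Ideal.IsPrime.ne_top (Ideal.IsPrime.comap _))
    intro z hz
    rw [Ideal.mem_comap, in2Q_lt]
    exact hv z hz
  rw [← h1] at hs2
  have h3 : Ideal.absNorm v.asIdeal = Nat.card (𝓞 F₀ ⧸ v.asIdeal) := rfl
  rw [h3]
  exact hs2

end H13S
end

-- from Lib.H55P.S13
section

open NumberField IsDedekindDomain WeierstrassCurve

namespace H55P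

/-- Ramification index different from 1: the image of v is in the square. -/
theorem s13_le_sq {A B : Type} [Field A] [NumberField A] [Field B] [NumberField B] [Algebra A B]
    (v : Ideal (𝓞 A)) (hv : v ≠ ⊥) (W : Ideal (𝓞 B)) [W.IsPrime] [W.LiesOver v]
    (h : W.ramificationIdx (𝓞 A) ≠ 1) (x : 𝓞 A) (hx : x ∈ v) :
    algebraMap (𝓞 A) (𝓞 B) x ∈ W ^ 2 := by
  have h1 : 0 < W.ramificationIdx (𝓞 A) := Ideal.ramificationIdx_pos W (𝓞 A)
  have h2 : 2 ≤ v.ramificationIdx' W := by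
    rw [Ideal.ramificationIdx'_eq_ramificationIdx v W hv]
    omega
  exact (Ideal.le_pow_of_le_ramificationIdx' h2) (Ideal.mem_map_of_mem _ hx)

theorem s13_inertia (p : ℕ) (hp : p.Prime) {M L : Type} [Field M] [NumberField M] [Field L]
    [NumberField L] [Algebra M L] [IsGalois M L] (k : ℕ) (hk : Module.finrank M L = p ^ k)
    (W : Ideal (𝓞 L)) [W.IsPrime] (hW : W ≠ ⊥) : ∃ j : ℕ, W.inertiaDeg (𝓞 M) = p ^ j := by
  have hl : W.LiesOver (W.under (𝓞 M)) := ⟨rfl⟩
  have hne : W.under (𝓞 M) ≠ ⊥ := fun h => hW (Ideal.eq_bot_of_comap_eq_bot (R := 𝓞 M) (I := W) h)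
  have hp' : (W.under (𝓞 M)).IsPrime := inferInstance
  have hmax : (W.under (𝓞 M)).IsMaximal := hp'.isMaximal hne
  have h1 := Ideal.ncard_primesOver_mul_ramificationIdxIn_mul_inertiaDegIn (W.under (𝓞 M)) (𝓞 L)
    Gal(L/M)
  rw [IsGalois.card_aut_eq_finrank, hk,
    Ideal.inertiaDegIn_eq_inertiaDeg (W.under (𝓞 M)) W Gal(L/M)] at h1
  have h2 : W.inertiaDeg (𝓞 M) ∣ p ^ k := by
    rw [← h1]
    exact Dvd.intro_left _ (by rw [← mul_assoc])
  obtain ⟨j, _, hj⟩ := (Nat.dvd_prime_pow hp).1 h2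
  exact ⟨j, hj⟩

theorem s13_down (p : ℕ) (hp : p.Prime) {M N K L : Type} [Field M] [NumberField M] [Field N]
    [NumberField N] [Field K] [NumberField K] [Field L] [NumberField L] [Algebra M N] [Algebra N K]
    [Algebra K L] [Algebra M L] [Algebra N L] [IsScalarTower M N L] [IsScalarTower N K L]
    [IsGalois N K] [IsGalois M L] (k : ℕ) (hk : Module.finrank M L = p ^ k)
    (w : HeightOneSpectrum (𝓞 N)) (h : w.asIdeal.ramificationIdxIn (𝓞 K) ≠ 1) :
    ∃ v : HeightOneSpectrum (𝓞 M), w.asIdeal.under (𝓞 M) = v.asIdeal ∧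
      (∃ W : Ideal (𝓞 L), W.IsPrime ∧ ∀ x ∈ v.asIdeal, algebraMap (𝓞 M) (𝓞 L) x ∈ W ^ 2) ∧
      ∃ j : ℕ, w.asIdeal.inertiaDeg (𝓞 M) = p ^ j := by
  have hwm := w.isMaximal
  obtain ⟨Q, hQ1, hQ2⟩ := Ideal.exists_maximal_ideal_liesOver_of_isIntegral (S := 𝓞 K) w.asIdeal
  obtain ⟨W, hW1, hW2⟩ := Ideal.exists_maximal_ideal_liesOver_of_isIntegral (S := 𝓞 L) Q
  have hQp := hQ1.isPrime
  have hWp := hW1.isPrime
  have hQb : Q ≠ ⊥ := Ideal.ne_bot_of_liesOver_of_ne_bot w.ne_bot Q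
  have hWb : W ≠ ⊥ := Ideal.ne_bot_of_liesOver_of_ne_bot hQb W
  have hWw : W.LiesOver w.asIdeal := Ideal.LiesOver.trans W Q w.asIdeal
  have hvb : w.asIdeal.under (𝓞 M) ≠ ⊥ := fun h0 =>
    w.ne_bot (Ideal.eq_bot_of_comap_eq_bot (R := 𝓞 M) (I := w.asIdeal) h0)
  have hvp : (w.asIdeal.under (𝓞 M)).IsPrime := inferInstance
  refine ⟨⟨w.asIdeal.under (𝓞 M), hvp, hvb⟩, rfl, ⟨W, hWp, ?_⟩, ?_⟩
  · intro x hx
    have h1 : algebraMap (𝓞 M) (𝓞 N) x ∈ w.asIdeal := hx
    rw [Ideal.ramificationIdxIn_eq_ramificationIdx w.asIdeal Q Gal(K/N)] at h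
    have h2 := s13_le_sq w.asIdeal w.ne_bot Q h _ h1
    have h3 : algebraMap (𝓞 K) (𝓞 L) (algebraMap (𝓞 N) (𝓞 K) (algebraMap (𝓞 M) (𝓞 N) x)) ∈ W ^ 2 := by
      have h4 : (Q ^ 2).map (algebraMap (𝓞 K) (𝓞 L)) ≤ W ^ 2 := by
        rw [Ideal.map_pow]
        exact Ideal.pow_right_mono (Ideal.map_le_of_le_comap hW2.over.le) 2
      exact h4 (Ideal.mem_map_of_mem _ h2)
    have h5 : algebraMap (𝓞 M) (𝓞 L) x =
        algebraMap (𝓞 K) (𝓞 L) (algebraMap (𝓞 N) (𝓞 K) (algebraMap (𝓞 M) (𝓞 N) x)) := by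
      apply RingOfIntegers.ext
      show algebraMap M L (x : M) = algebraMap K L (algebraMap N K (algebraMap M N (x : M)))
      rw [← IsScalarTower.algebraMap_apply N K L, ← IsScalarTower.algebraMap_apply M N L]
    rw [h5]
    exact h3
  · obtain ⟨j, hj⟩ := s13_inertia p hp k hk W hWb
    have h2 := Ideal.inertiaDeg_tower (R := 𝓞 M) w.asIdeal W
    have h3 : w.asIdeal.inertiaDeg (𝓞 M) ∣ p ^ j := by
      rw [← hj, h2]
      exact dvd_mul_right _ _
    obtain ⟨i, -, hi⟩ := (Nat.dvd_prime_pow hp).1 h3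
    exact ⟨i, hi⟩

variable {F : Type} [Field F] [NumberField F] {Ω : Type} [Field Ω] [DecidableEq Ω] [Algebra F Ω]
  [IsAlgClosed Ω] [Algebra.IsAlgebraic F Ω] [CharZero Ω]

/-! Chunk PS13 (M). Ramification.
below_cases: the ideal of the x in 𝓞 M with V.valuation x < 1 is prime (plc in Lib/H16C/FR1.lean); if it is zero then all nonzero elements of M (quotients of integers) have value 1, and V contains every element of Ω (x algebraic over M, coefficients in V: V is
integrally closed, x is integral over M), so value < 1 means 0 and Inert V s gives s x = x for all x.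
inert_mem: if there is no v below V: trivial case. Otherwise L/M is Galois (FR_galois), W = the ideal of the x in 𝓞 L with V.valuation x < 1, above v. The restriction of s to L is in the inertia group of W (Ideal.inertia, mem_inertia: s x - x in W for x in 𝓞 L) for Gal(L/M) acting on 𝓞 L, of order
the ramification index (Ideal.card_inertia_eq_ramificationIdxIn), which is 1: by hunr the image of v is not contained in W^2 (Ram), and ramificationIdx >= 2 would give it (Ideal.le_pow_ramificationIdx). So s is trivial on L.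
ram_down: es N K w <> 1: by the Galois case all primes of K above w have ramification index >= 2 over w: W' in K with w 𝓞 K contained in W'^2; take a prime W of L above W'; x in v = w ∩ M is mapped into W^2. Inertia degree: inertiaDeg(W over v) is a power of p
(IsGalois M L of degree p^k: Ideal.ncard_primesOver_mul_ramificationIdxIn_mul_inertiaDegIn, see inertia_pow3 in Lib/H19T/A9a.lean) and inertiaDeg(w over v) divides it (Ideal.inertiaDeg_algebra_tower). -/

/-- The algebra structure given by the inclusion. -/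
@[reducible] noncomputable def s13_alg {A B : IntermediateField F Ω} (h : A ≤ B) : Algebra A B :=
  (IntermediateField.inclusion h).toRingHom.toAlgebra

omit [DecidableEq Ω] in
theorem s13_galois (A B : IntermediateField F Ω) (h : A ≤ B) [FiniteDimensional F B]
    (hst : ∀ g ∈ A.fixingSubgroup, ∀ x ∈ B, g x ∈ B) :
    letI := s13_alg h
    IsGalois A B := by
  let _ := s13_alg h
  have h1 := H16C.FR_galois A B h hst
  let e : (IntermediateField.extendScalars h) ≃+* B :=
    { toFun := fun x => ⟨x.1, (IntermediateField.mem_extendScalars h).1 x.2⟩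
      invFun := fun x => ⟨x.1, (IntermediateField.mem_extendScalars h).2 x.2⟩
      left_inv := fun x => rfl
      right_inv := fun x => rfl
      map_mul' := fun x y => rfl
      map_add' := fun x y => rfl }
  exact IsGalois.of_algEquiv (AlgEquiv.ofRingEquiv (f := e) (fun x => rfl))

omit [NumberField F] [DecidableEq Ω] [IsAlgClosed Ω] [Algebra.IsAlgebraic F Ω] [CharZero Ω] in
theorem s13_fin {A B : IntermediateField F Ω} (h : A ≤ B) [FiniteDimensional F B] :
    FiniteDimensional F A :=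
  FiniteDimensional.of_injective (IntermediateField.inclusion h).toLinearMap
    (IntermediateField.inclusion_injective h)

omit [DecidableEq Ω] [IsAlgClosed Ω] in
theorem s13_top (M : IntermediateField F Ω) [FiniteDimensional F M] (V : ValuationSubring Ω)
    (h : ∀ z : 𝓞 M, z ≠ 0 → V.valuation ((z : M) : Ω) = 1) (x : Ω) : x ∈ V := by
  have hMn : NumberField M := H16C.FR_numberField M
  have hM : ∀ y : M, (y : Ω) ∈ V := by
    intro y
    obtain ⟨a, b, hb, hab⟩ := IsFractionRing.div_surjective (A := 𝓞 M) y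
    have hb0 : b ≠ 0 := nonZeroDivisors.ne_zero hb
    have hbv := h b hb0
    have hav : V.valuation ((a : M) : Ω) ≤ 1 := H16C.FR_le_one V (H16C.FR_isIntegral M a)
    have hy : (y : Ω) = ((a : M) : Ω) / ((b : M) : Ω) := by
      rw [← hab]
      rfl
    rw [← ValuationSubring.valuation_le_one_iff, hy, map_div₀, hbv, div_one]
    exact hav
  have halg : IsAlgebraic M x := Algebra.IsAlgebraic.isAlgebraic (R := M) x
  have hint : IsIntegral M x := halg.isIntegral
  obtain ⟨f, hf, hfx⟩ := hint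
  let g : M →+* V :=
    { toFun := fun y => ⟨(y : Ω), hM y⟩
      map_one' := rfl
      map_mul' := fun a b => rfl
      map_zero' := rfl
      map_add' := fun a b => rfl }
  have hintV : IsIntegral V x := by
    refine ⟨f.map g, hf.map g, ?_⟩
    rw [Polynomial.eval₂_map]
    exact hfx
  obtain ⟨y, hy⟩ := (IsIntegrallyClosed.isIntegral_iff (R := V) (K := Ω)).1 hintV
  rw [← hy]
  exact y.2

theorem below_cases (M : IntermediateField F Ω) [FiniteDimensional F M] (V : ValuationSubring Ω) :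
    (∃ v : HeightOneSpectrum (𝓞 M), Below V M v.asIdeal) ∨ ∀ s : Ω ≃ₐ[F] Ω, Inert V s → s = 1 := by
  by_cases h : H16C.plc M V = ⊥
  · right
    have h1 : ∀ z : 𝓞 M, z ≠ 0 → V.valuation ((z : M) : Ω) = 1 := by
      intro z hz
      apply H16C.not_mem_plc.1
      rw [h, Ideal.mem_bot]
      exact hz
    have htop := s13_top M V h1
    have hval : ∀ x : Ω, V.valuation x < 1 → x = 0 := by
      intro x hx
      by_contra hx0
      have h2 := (V.valuation_le_one_iff x⁻¹).2 (htop x⁻¹)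
      rw [map_inv₀] at h2
      have h3 : V.valuation x ≠ 0 := (Valuation.ne_zero_iff _).2 hx0
      have h4 : 1 < (V.valuation x)⁻¹ := (one_lt_inv₀ (zero_lt_iff.2 h3)).2 hx
      exact absurd (lt_of_lt_of_le h4 h2) (lt_irrefl _)
    intro s hs
    apply AlgEquiv.ext
    intro x
    exact sub_eq_zero.1 (hval _ (hs x (htop x)))
  · left
    exact ⟨⟨H16C.plc M V, inferInstance, h⟩, fun x => Iff.rfl⟩

theorem inert_mem (M L : IntermediateField F Ω) [FiniteDimensional F L] (hML : M ≤ L)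
    (hnorm : ∀ s ∈ M.fixingSubgroup, ∀ x ∈ L, s x ∈ L) (V : ValuationSubring Ω)
    (hunr : ∀ v : HeightOneSpectrum (𝓞 M), Below V M v.asIdeal → ¬ Ram M L v.asIdeal) :
    ∀ s ∈ M.fixingSubgroup, Inert V s → s ∈ L.fixingSubgroup := by
  intro s hs hin
  have hMf : FiniteDimensional F M := s13_fin hML
  rcases below_cases M V with ⟨v, hv⟩ | h
  · have hMn : NumberField M := H16C.FR_numberField M
    have hLn : NumberField L := H16C.FR_numberField L
    let _ := s13_alg hML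
    have hgal : IsGalois M L := s13_galois M L hML hnorm
    have hvm := v.isMaximal
    have hvp := v.isPrime
    have hl : (H16C.plc L V).LiesOver v.asIdeal := by
      constructor
      ext x
      rw [hv x]
      rfl
    have hidx : v.asIdeal.ramificationIdxIn (𝓞 L) = 1 := by
      by_contra hcon
      rw [Ideal.ramificationIdxIn_eq_ramificationIdx v.asIdeal (H16C.plc L V) Gal(L/M)] at hcon
      apply hunr v hv
      refine ⟨H16C.plc L V, inferInstance, fun x y hx hxy => ?_⟩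
      have h1 := s13_le_sq v.asIdeal v.ne_bot (H16C.plc L V) hcon x hx
      have h2 : y = algebraMap (𝓞 M) (𝓞 L) x := by
        apply RingOfIntegers.ext
        apply Subtype.ext
        exact hxy
      rw [h2]
      exact h1
    have hcard := Ideal.card_inertia_eq_ramificationIdxIn (G := Gal(L/M)) v.asIdeal (H16C.plc L V)
    rw [hidx] at hcard
    have hbot := Subgroup.card_eq_one.1 hcard
    let e : L ≃+* L :=
      { toFun := fun x => ⟨s x.1, hnorm s hs x.1 x.2⟩
        invFun := fun x => ⟨s⁻¹ x.1, hnorm s⁻¹ (inv_mem hs) x.1 x.2⟩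
        left_inv := fun x => Subtype.ext (s.symm_apply_apply x.1)
        right_inv := fun x => Subtype.ext (s.apply_symm_apply x.1)
        map_mul' := fun x y => Subtype.ext (map_mul s x.1 y.1)
        map_add' := fun x y => Subtype.ext (map_add s x.1 y.1) }
    let t : Gal(L/M) := AlgEquiv.ofRingEquiv (f := e) (fun x => Subtype.ext (hs x))
    have ht : t ∈ (H16C.plc L V).inertia Gal(L/M) := by
      intro x
      show V.valuation (s ((x : L) : Ω) - ((x : L) : Ω)) < 1
      apply hin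
      rw [← ValuationSubring.valuation_le_one_iff]
      exact H16C.FR_le_one V (H16C.FR_isIntegral L x)
    rw [hbot, Subgroup.mem_bot] at ht
    intro x
    have h3 := DFunLike.congr_fun ht x
    exact congrArg Subtype.val h3
  · rw [h s hin]
    exact one_mem _

theorem ram_down (p : ℕ) (hp : p.Prime) (M N K L : IntermediateField F Ω) (hL : PExt p M L)
    [NumberField M] [NumberField N] [NumberField K] (hMN : M ≤ N) (hNK : N ≤ K) (hKL : K ≤ L)
    (hnorm : ∀ s ∈ N.fixingSubgroup, ∀ x ∈ K, s x ∈ K) :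
    letI : Algebra N K := (IntermediateField.inclusion hNK).toRingHom.toAlgebra
    letI : Algebra M N := (IntermediateField.inclusion hMN).toRingHom.toAlgebra
    ∀ w : HeightOneSpectrum (𝓞 N), H55R.es N K w ≠ 1 → ∃ v : HeightOneSpectrum (𝓞 M),
      w.asIdeal.under (𝓞 M) = v.asIdeal ∧ Ram M L v.asIdeal ∧
        ∃ j : ℕ, w.asIdeal.inertiaDeg (𝓞 M) = p ^ j := by
  let _ : Algebra N K := (IntermediateField.inclusion hNK).toRingHom.toAlgebra
  let _ : Algebra M N := (IntermediateField.inclusion hMN).toRingHom.toAlgebra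
  let _ : Algebra K L := s13_alg hKL
  let _ : Algebra M L := s13_alg (hMN.trans (hNK.trans hKL))
  let _ : Algebra N L := s13_alg (hNK.trans hKL)
  have hLf := hL.fin
  have hLn : NumberField L := H16C.FR_numberField L
  have hKf : FiniteDimensional F K := s13_fin hKL
  have hMf : FiniteDimensional F M := s13_fin (hMN.trans (hNK.trans hKL))
  have t1 : IsScalarTower M N L := IsScalarTower.of_algebraMap_eq fun x => rfl
  have t2 : IsScalarTower N K L := IsScalarTower.of_algebraMap_eq fun x => rfl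
  have g1 : IsGalois N K := s13_galois N K hNK hnorm
  have g2 : IsGalois M L := s13_galois M L (hMN.trans (hNK.trans hKL)) hL.norm
  obtain ⟨k, hk⟩ := hL.deg
  have t3 : IsScalarTower F M L := IsScalarTower.of_algebraMap_eq fun x => rfl
  have hk' : Module.finrank M L = p ^ k := by
    have h1 := Module.finrank_mul_finrank F M L
    rw [hk] at h1
    exact Nat.eq_of_mul_eq_mul_left Module.finrank_pos h1
  intro w hw
  obtain ⟨v, hv, ⟨W, hW1, hW2⟩, hj⟩ := s13_down p hp (M := M) (N := N) (K := K) (L := L) k hk' w hw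
  refine ⟨v, hv, ⟨W, hW1, fun x y hx hxy => ?_⟩, hj⟩
  have h2 : y = algebraMap (𝓞 M) (𝓞 L) x := by
    apply RingOfIntegers.ext
    apply Subtype.ext
    exact hxy
  rw [h2]
  exact hW2 x hx

end H55P
end

-- from Lib.H55P.SA3
section

namespace H55P

/-- The Selmer group of H (classes killed by p, trivial on the groups I v) is zero. -/
def SelA {G M Vs : Type} [Group G] [AddCommGroup M] (ρ : G →* AddMonoid.End M) (p : ℕ)
    (U : Set (Subgroup G)) (I : Vs → Subgroup G) (H : Subgroup G) : Prop :=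
  ∀ c : G → M, (∀ s ∈ H, ∀ t ∈ H, c (s * t) = c s + ρ s (c t)) →
    (∃ O ∈ U, ∀ s ∈ H, s ∈ O → c s = 0) → (∀ s ∈ H, p • c s = 0) →
    (∀ v, ∃ P : M, ∀ s ∈ H, s ∈ I v → c s = ρ s P - P) →
    ∃ T : M, p • T = 0 ∧ ∀ s ∈ H, c s = ρ s T - T

/-! Chunk PSA3 (M). Pure group theory, the step of the Selmer group in a cyclic extension of degree p (N = the smaller group).
PROOF. X = G → M, Z = the cocycles on N which are killed by p on N, continuous (zero on N ⊓ O for some O in U) and trivial on N ⊓ I v for each v: a subgroup (P adds, hUi). B = the elements z of Z with z s = ρ s T - T on N for some T, p T = 0.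
Φ c s = ρ σ (c (σ⁻¹ s σ)), additive; Φ Z <= Z: cocycle: direct (N is normalized by σ: from hcomm: σ n σ⁻¹ = (σ n σ⁻¹ n⁻¹) n); continuity hUc; local conditions: v' from hconj with g = σ⁻¹ (which is in H): s in I v, then σ⁻¹ s σ in I v', P becomes ρ σ P.
Φ B <= B. Φ^p c s = ρ (σ^p) (c (σ^(-p) s σ^p)) = c s + ρ s (c σ^p) - c σ^p (computation in PSA2), so in B + c with T = c (σ^p). op_zero reduces the claim (every c in Z is in B) to: z in Z, Φ z - z in B implies z in B.
For such z = c: hinv of ext_coc holds for g = σ, for g in N (computation in PSA2) and for products, so for all g in H (hgen; for g = σ^i n: induction). ext_coc gives c' on H. c' is continuous: c' s = c s = 0 for s in N ⊓ O (N ⊓ O is in U by hN, hUi). Local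
conditions for c' at v: in the first case of hloc H ⊓ I v <= N, clear. In the second case: (1) s in H ⊓ I v acts trivially on the T with p T = 0; (2) for u in N ⊓ I v: c u = ρ u P - P is killed by p, so it is 0. (3) for t in H ⊓ I v and φ in H ⊓ D v:
u = φ t φ⁻¹ t⁻¹ is in N (hcomm) and in I v (hDI), c' (φ t φ⁻¹) = c' (u t) = c' u + ρ u (c' t) = c' t; on the other hand c' (φ t φ⁻¹) = c' φ + ρ φ (c' t) - ρ (φ t φ⁻¹) (c' φ) = ρ φ (c' t) by (1). So ρ φ (c' t) = c' t for all φ, and c' t = 0 by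
hloc: P = 0. So SelA for H gives c' = ∂T, and c = ∂T on N. -/

section SA3

variable {G M Vs : Type} [Group G] [AddCommGroup M] (ρ : G →* AddMonoid.End M)

theorem sa3_mul (s t : G) (x : M) : ρ (s * t) x = ρ s (ρ t x) := by
  rw [map_mul]
  rfl

theorem sa3_inv (s : G) (x : M) : ρ s (ρ s⁻¹ x) = x := by
  rw [← sa3_mul, mul_inv_cancel, map_one]
  rfl

theorem sa3_one (x : M) : ρ 1 x = x := by
  rw [map_one]
  rfl

theorem sa3_nsmul (p : ℕ) (s : G) (x : M) (h : p • x = 0) : p • ρ s x = 0 := by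
  rw [← map_nsmul, h, map_zero]

/-- Coboundaries under the action. -/
theorem sa3_bd (g s : G) (T : M) : ρ g (ρ (g⁻¹ * s * g) T - T) = ρ s (ρ g T) - ρ g T := by
  rw [map_sub, ← sa3_mul, ← sa3_mul]
  congr 2
  congr 1
  group

/-- The local conditions. -/
def sa3_P (p : ℕ) (U : Set (Subgroup G)) (I : Vs → Subgroup G) (N : Subgroup G) (c : G → M) : Prop :=
  (∀ s ∈ N, ∀ t ∈ N, c (s * t) = c s + ρ s (c t)) ∧ (∃ O ∈ U, ∀ s ∈ N, s ∈ O → c s = 0) ∧
    (∀ s ∈ N, p • c s = 0) ∧ ∀ v, ∃ P : M, ∀ s ∈ N, s ∈ I v → c s = ρ s P - P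

/-- The group of cocycles. -/
def sa3_Z (p : ℕ) (U : Set (Subgroup G)) (I : Vs → Subgroup G) (N : Subgroup G) (hN : N ∈ U)
    (hUi : ∀ O ∈ U, ∀ O' ∈ U, O ⊓ O' ∈ U) : AddSubgroup (G → M) where
  carrier := {c | sa3_P ρ p U I N c}
  add_mem' := by
    rintro a b ⟨a1, ⟨O, hO, a2⟩, a3, a4⟩ ⟨b1, ⟨O', hO', b2⟩, b3, b4⟩
    refine ⟨fun s hs t ht => ?_, ⟨O ⊓ O', hUi O hO O' hO', fun s hs h => ?_⟩, fun s hs => ?_, fun v => ?_⟩
    · rw [Pi.add_apply, Pi.add_apply, Pi.add_apply, a1 s hs t ht, b1 s hs t ht, map_add]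
      abel
    · rw [Pi.add_apply, a2 s hs h.1, b2 s hs h.2, add_zero]
    · rw [Pi.add_apply, smul_add, a3 s hs, b3 s hs, add_zero]
    · obtain ⟨P, hP⟩ := a4 v
      obtain ⟨Q, hQ⟩ := b4 v
      refine ⟨P + Q, fun s hs h => ?_⟩
      rw [Pi.add_apply, hP s hs h, hQ s hs h, map_add]
      abel
  zero_mem' := by
    refine ⟨fun s _ t _ => ?_, ⟨N, hN, fun s _ _ => rfl⟩, fun s _ => ?_, fun v => ⟨0, fun s _ _ => ?_⟩⟩
    · rw [Pi.zero_apply, Pi.zero_apply, Pi.zero_apply, map_zero, add_zero]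
    · rw [Pi.zero_apply, smul_zero]
    · rw [Pi.zero_apply, map_zero, sub_zero]
  neg_mem' := by
    rintro a ⟨a1, ⟨O, hO, a2⟩, a3, a4⟩
    refine ⟨fun s hs t ht => ?_, ⟨O, hO, fun s hs h => ?_⟩, fun s hs => ?_, fun v => ?_⟩
    · rw [Pi.neg_apply, Pi.neg_apply, Pi.neg_apply, a1 s hs t ht, map_neg]
      abel
    · rw [Pi.neg_apply, a2 s hs h, neg_zero]
    · rw [Pi.neg_apply, smul_neg, a3 s hs, neg_zero]
    · obtain ⟨P, hP⟩ := a4 v
      refine ⟨-P, fun s hs h => ?_⟩
      rw [Pi.neg_apply, hP s hs h, map_neg]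
      abel

/-- The group of coboundaries. -/
def sa3_B (p : ℕ) (N : Subgroup G) : AddSubgroup (G → M) where
  carrier := {c | ∃ T : M, p • T = 0 ∧ ∀ s ∈ N, c s = ρ s T - T}
  add_mem' := by
    rintro a b ⟨P, hp, hP⟩ ⟨Q, hq, hQ⟩
    refine ⟨P + Q, by rw [smul_add, hp, hq, add_zero], fun s hs => ?_⟩
    rw [Pi.add_apply, hP s hs, hQ s hs, map_add]
    abel
  zero_mem' := ⟨0, smul_zero _, fun s _ => by rw [Pi.zero_apply, map_zero, sub_zero]⟩
  neg_mem' := by
    rintro a ⟨P, hp, hP⟩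
    refine ⟨-P, by rw [smul_neg, hp, neg_zero], fun s hs => ?_⟩
    rw [Pi.neg_apply, hP s hs, map_neg]
    abel

/-- The action of an element. -/
def sa3_F (σ : G) : (G → M) →+ (G → M) where
  toFun c := fun s => ρ σ (c (σ⁻¹ * s * σ))
  map_zero' := by
    funext s
    exact map_zero (ρ σ)
  map_add' a b := by
    funext s
    exact map_add (ρ σ) _ _

theorem sa3_F_apply (σ : G) (c : G → M) (s : G) : sa3_F ρ σ c s = ρ σ (c (σ⁻¹ * s * σ)) := rfl

theorem sa3_iter (σ : G) (i : ℕ) (c : G → M) (s : G) :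
    (sa3_F ρ σ)^[i] c s = ρ (σ ^ i) (c ((σ ^ i)⁻¹ * s * σ ^ i)) := by
  induction i generalizing s with
  | zero =>
    rw [Function.iterate_zero, id, pow_zero, sa3_one, inv_one, one_mul, mul_one]
  | succ i ih =>
    rw [Function.iterate_succ_apply', sa3_F_apply, ih, ← sa3_mul, ← pow_succ', pow_succ']
    congr 2
    group

variable {ρ}

/-- A cocycle is invariant under its own group, up to a coboundary. -/
theorem sa3_self {N : Subgroup G} {c : G → M} (hc : ∀ s ∈ N, ∀ t ∈ N, c (s * t) = c s + ρ s (c t))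
    (n : G) (hn : n ∈ N) (s : G) (hs : s ∈ N) :
    ρ n (c (n⁻¹ * s * n)) - c s = ρ s (c n) - c n := by
  have h1 : c 1 = 0 := by
    have := hc 1 N.one_mem 1 N.one_mem
    rw [mul_one, sa3_one] at this
    exact left_eq_add.1 this
  have h2 : c n + ρ n (c n⁻¹) = 0 := by
    rw [← hc n hn n⁻¹ (N.inv_mem hn), mul_inv_cancel, h1]
  rw [mul_assoc, hc n⁻¹ (N.inv_mem hn) (s * n) (N.mul_mem hs hn), map_add, sa3_inv, hc s hs n hn]
  have h3 : ρ n (c n⁻¹) = -c n := (neg_eq_of_add_eq_zero_right h2).symm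
  rw [h3]
  abel

theorem sa3_norm {N H : Subgroup G} (hNH : N ≤ H)
    (hcomm : ∀ a ∈ H, ∀ b ∈ H, a * b * a⁻¹ * b⁻¹ ∈ N) (h : G) (hh : h ∈ H) (n : G) (hn : n ∈ N) :
    h * n * h⁻¹ ∈ N := by
  have h1 := N.mul_mem (hcomm h hh n (hNH hn)) hn
  rwa [inv_mul_cancel_right] at h1

theorem sa3_norm' {N H : Subgroup G} (hNH : N ≤ H)
    (hcomm : ∀ a ∈ H, ∀ b ∈ H, a * b * a⁻¹ * b⁻¹ ∈ N) (h : G) (hh : h ∈ H) (n : G) (hn : n ∈ N) :
    h⁻¹ * n * h ∈ N := by
  have h1 := sa3_norm hNH hcomm h⁻¹ (H.inv_mem hh) n hn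
  rwa [inv_inv] at h1

theorem sa3_FZ (p : ℕ) (U : Set (Subgroup G)) (I : Vs → Subgroup G) (N H : Subgroup G)
    (hUc : ∀ O ∈ U, ∀ g : G, ∃ O' ∈ U, ∀ s ∈ O', g * s * g⁻¹ ∈ O) (hNH : N ≤ H)
    (hcomm : ∀ a ∈ H, ∀ b ∈ H, a * b * a⁻¹ * b⁻¹ ∈ N) (σ : G) (hσ : σ ∈ H)
    (hconj : ∀ g ∈ H, ∀ v, ∃ v', ∀ s, s ∈ I v' ↔ g * s * g⁻¹ ∈ I v) (c : G → M)
    (hc : sa3_P ρ p U I N c) : sa3_P ρ p U I N (sa3_F ρ σ c) := by
  obtain ⟨c1, ⟨O, hO, c2⟩, c3, c4⟩ := hc
  have hn := sa3_norm' hNH hcomm σ hσ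
  refine ⟨fun s hs t ht => ?_, ?_, fun s hs => ?_, fun v => ?_⟩
  · rw [sa3_F_apply, sa3_F_apply, sa3_F_apply]
    have e : σ⁻¹ * (s * t) * σ = (σ⁻¹ * s * σ) * (σ⁻¹ * t * σ) := by group
    rw [e, c1 _ (hn s hs) _ (hn t ht), map_add, ← sa3_mul, ← sa3_mul]
    congr 3
    group
  · obtain ⟨O', hO', h⟩ := hUc O hO σ⁻¹
    refine ⟨O', hO', fun s hs hsO => ?_⟩
    have h1 := h s hsO
    rw [inv_inv] at h1
    rw [sa3_F_apply, c2 _ (hn s hs) h1, map_zero]
  · exact sa3_nsmul ρ p σ _ (c3 _ (hn s hs))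
  · obtain ⟨v', hv'⟩ := hconj σ hσ v
    obtain ⟨P, hP⟩ := c4 v'
    refine ⟨ρ σ P, fun s hs h => ?_⟩
    have h1 : σ⁻¹ * s * σ ∈ I v' := by
      rw [hv']
      have e : σ * (σ⁻¹ * s * σ) * σ⁻¹ = s := by group
      rw [e]
      exact h
    rw [sa3_F_apply, hP _ (hn s hs) h1, sa3_bd]

/-- Invariance under an element, up to a coboundary. -/
def sa3_I (ρ : G →* AddMonoid.End M) (p : ℕ) (N : Subgroup G) (c : G → M) (g : G) : Prop :=
  ∃ T : M, p • T = 0 ∧ ∀ s ∈ N, ρ g (c (g⁻¹ * s * g)) - c s = ρ s T - T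

theorem sa3_I_mul {p : ℕ} {N : Subgroup G} {c : G → M} {g h : G} (hn : ∀ n ∈ N, g⁻¹ * n * g ∈ N)
    (h1 : sa3_I ρ p N c g) (h2 : sa3_I ρ p N c h) : sa3_I ρ p N c (g * h) := by
  obtain ⟨T, hT, h3⟩ := h1
  obtain ⟨S, hS, h4⟩ := h2
  refine ⟨ρ g S + T, by rw [smul_add, hT, sa3_nsmul ρ p g S hS, add_zero], fun s hs => ?_⟩
  have e : (g * h)⁻¹ * s * (g * h) = h⁻¹ * (g⁻¹ * s * g) * h := by group
  have h5 := h4 _ (hn s hs)
  have h6 := h3 s hs
  have h7 : ρ h (c (h⁻¹ * (g⁻¹ * s * g) * h)) = c (g⁻¹ * s * g) + (ρ (g⁻¹ * s * g) S - S) := by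
    rw [← h5]
    abel
  rw [e, sa3_mul, h7, map_add, sa3_bd, map_add]
  have h8 : ρ g (c (g⁻¹ * s * g)) = c s + (ρ s T - T) := by
    rw [← h6]
    abel
  rw [h8]
  abel

/-- The local conditions for the extended cocycle. -/
theorem sa3_loc (p : ℕ) (I D : Vs → Subgroup G) (N H : Subgroup G) (hNH : N ≤ H)
    (hcomm : ∀ a ∈ H, ∀ b ∈ H, a * b * a⁻¹ * b⁻¹ ∈ N)
    (hDI : ∀ v, ∀ φ ∈ D v, ∀ s ∈ I v, φ * s * φ⁻¹ ∈ I v) (v : Vs)
    (hloc : (∀ s ∈ H, s ∈ I v → s ∈ N) ∨
      ((∀ s ∈ H, s ∈ I v → ∀ P : M, p • (ρ s P - P) = 0 → ρ s P = P) ∧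
        ∀ T : M, p • T = 0 → (∀ s ∈ H, s ∈ D v → ρ s T = T) → T = 0))
    (c c' : G → M) (hc : ∃ P : M, ∀ s ∈ N, s ∈ I v → c s = ρ s P - P) (hpc : ∀ s ∈ N, p • c s = 0)
    (h1 : ∀ s ∈ H, ∀ t ∈ H, c' (s * t) = c' s + ρ s (c' t)) (h2 : ∀ s ∈ H, p • c' s = 0)
    (h3 : ∀ s ∈ N, c' s = c s) : ∃ P : M, ∀ s ∈ H, s ∈ I v → c' s = ρ s P - P := by
  obtain ⟨P, hP⟩ := hc
  rcases hloc with h | ⟨ha, hb⟩
  · exact ⟨P, fun s hs hI => by rw [h3 s (h s hs hI), hP s (h s hs hI) hI]⟩
  · have triv : ∀ s ∈ H, s ∈ I v → ∀ T : M, p • T = 0 → ρ s T = T := by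
      intro s hs hI T hT
      refine ha s hs hI T ?_
      rw [smul_sub, sa3_nsmul ρ p s T hT, hT, sub_zero]
    have hzero : ∀ u ∈ N, u ∈ I v → c u = 0 := by
      intro u hu hI
      have e := hP u hu hI
      have := ha u (hNH hu) hI P (by rw [← e]; exact hpc u hu)
      rw [e, this, sub_self]
    refine ⟨0, fun t ht hI => ?_⟩
    rw [map_zero, sub_zero]
    refine hb _ (h2 t ht) ?_
    intro φ hφ hD
    have hφi := H.inv_mem hφ
    have ht' : φ * t * φ⁻¹ ∈ H := H.mul_mem (H.mul_mem hφ ht) hφi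
    have hI' : φ * t * φ⁻¹ ∈ I v := hDI v φ hD t hI
    have hu : φ * t * φ⁻¹ * t⁻¹ ∈ N := hcomm φ hφ t ht
    have huI : φ * t * φ⁻¹ * t⁻¹ ∈ I v := (I v).mul_mem hI' ((I v).inv_mem hI)
    have e1 : c' (φ * t * φ⁻¹) = c' t := by
      have := h1 _ (hNH hu) t ht
      rw [inv_mul_cancel_right, h3 _ hu, hzero _ hu huI, zero_add,
        triv _ (hNH hu) huI _ (h2 t ht)] at this
      exact this
    have h4 : c' 1 = 0 := by
      have := h1 1 H.one_mem 1 H.one_mem
      rw [mul_one, sa3_one] at this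
      exact left_eq_add.1 this
    have e2 : c' (φ * t * φ⁻¹) = ρ φ (c' t) := by
      have h5 : c' φ + ρ φ (c' φ⁻¹) = 0 := by
        rw [← h1 φ hφ φ⁻¹ hφi, mul_inv_cancel, h4]
      have h6 : ρ (φ * t * φ⁻¹) (c' φ) = c' φ := triv _ ht' hI' _ (h2 φ hφ)
      have h7 : ρ (φ * t) (c' φ⁻¹) = -c' φ := by
        have h8 : c' φ⁻¹ = ρ φ⁻¹ (-c' φ) := by
          have h9 : ρ φ (c' φ⁻¹) = -c' φ := (neg_eq_of_add_eq_zero_right h5).symm
          rw [← h9, ← sa3_mul, inv_mul_cancel, sa3_one]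
        rw [h8, ← sa3_mul, map_neg, h6]
      rw [h1 _ (H.mul_mem hφ ht) _ hφi, h1 φ hφ t ht, h7]
      abel
    rw [← e2, e1]

end SA3

theorem abs_step {G M Vs : Type} [Group G] [AddCommGroup M] (ρ : G →* AddMonoid.End M) (p : ℕ)
    (hp : p.Prime) (U : Set (Subgroup G)) (I D : Vs → Subgroup G) (N H : Subgroup G)
    (hUi : ∀ O ∈ U, ∀ O' ∈ U, O ⊓ O' ∈ U) (hUc : ∀ O ∈ U, ∀ g : G, ∃ O' ∈ U, ∀ s ∈ O', g * s * g⁻¹ ∈ O)
    (hN : N ∈ U) (hNH : N ≤ H) (hcomm : ∀ a ∈ H, ∀ b ∈ H, a * b * a⁻¹ * b⁻¹ ∈ N) (σ : G) (hσ : σ ∈ H)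
    (hgen : ∀ h ∈ H, ∃ i : ℕ, ∃ n ∈ N, h = σ ^ i * n) (hσp : σ ^ p ∈ N)
    (hconj : ∀ g ∈ H, ∀ v, ∃ v', ∀ s, s ∈ I v' ↔ g * s * g⁻¹ ∈ I v)
    (hDI : ∀ v, ∀ φ ∈ D v, ∀ s ∈ I v, φ * s * φ⁻¹ ∈ I v)
    (h0 : ∀ T : M, p • T = 0 → (∀ s ∈ N, ρ s T = T) → T = 0)
    (hloc : ∀ v, (∀ s ∈ H, s ∈ I v → s ∈ N) ∨
      ((∀ s ∈ H, s ∈ I v → ∀ P : M, p • (ρ s P - P) = 0 → ρ s P = P) ∧
        ∀ T : M, p • T = 0 → (∀ s ∈ H, s ∈ D v → ρ s T = T) → T = 0))
    (hS : SelA ρ p U I H) : SelA ρ p U I N := by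
  intro c hc1 hc2 hc3 hc4
  have hn := sa3_norm hNH hcomm
  have hn' := sa3_norm' hNH hcomm
  refine op_zero p hp (sa3_Z ρ p U I N hN hUi) (sa3_B ρ p N) ?_ (sa3_F ρ σ)
    (fun z hz => sa3_FZ p U I N H hUc hNH hcomm σ hσ hconj z hz) ?_ ?_ ?_ c ⟨hc1, hc2, hc3, hc4⟩
  · rintro z ⟨-, -, hz, -⟩
    exact ⟨0, smul_zero _, fun s hs => by rw [Pi.smul_apply, hz s hs, map_zero, sub_zero]⟩
  · rintro b ⟨T, hT, hb⟩
    refine ⟨ρ σ T, sa3_nsmul ρ p σ T hT, fun s hs => ?_⟩
    rw [sa3_F_apply, hb _ (hn' σ hσ s hs), sa3_bd]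
  · rintro z ⟨z1, -, z3, -⟩
    refine ⟨z (σ ^ p), z3 _ hσp, fun s hs => ?_⟩
    rw [Pi.sub_apply, sa3_iter]
    exact sa3_self z1 _ hσp s hs
  · rintro z ⟨z1, ⟨O, hO, z2⟩, z3, z4⟩ ⟨T, hT, hb⟩
    have hI : sa3_I ρ p N z σ := ⟨T, hT, fun s hs => hb s hs⟩
    have hI1 : ∀ n ∈ N, sa3_I ρ p N z n := fun n hn => ⟨z n, z3 n hn, fun s hs => sa3_self z1 n hn s hs⟩
    have hI2 : ∀ i : ℕ, sa3_I ρ p N z (σ ^ i) := by
      intro i
      induction i with
      | zero =>
        rw [pow_zero]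
        exact hI1 1 N.one_mem
      | succ i ih =>
        rw [pow_succ']
        exact sa3_I_mul (hn' σ hσ) hI ih
    have hinv : ∀ g ∈ H, sa3_I ρ p N z g := by
      intro g hg
      obtain ⟨i, n, hnN, rfl⟩ := hgen g hg
      exact sa3_I_mul (hn' _ (H.pow_mem hσ i)) (hI2 i) (hI1 n hnN)
    obtain ⟨c', e1, e2, e3⟩ := ext_coc ρ p N H hNH hn h0 z z1 z3 hinv
    obtain ⟨T', hT', h5⟩ := hS c' e1 ⟨N ⊓ O, hUi N hN O hO, fun s _ h => by rw [e3 s h.1, z2 s h.1 h.2]⟩ e2
      (fun v => sa3_loc p I D N H hNH hcomm hDI v (hloc v) z c' (z4 v) z3 e1 e2 e3)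
    exact ⟨T', hT', fun s hs => by rw [← e3 s hs, h5 s (hNH hs)]⟩

end H55P
end

-- from Lib.H55P.S3
section

open NumberField IsDedekindDomain WeierstrassCurve

namespace H55P

variable {F : Type} [Field F] [NumberField F] {Ω : Type} [Field Ω] [DecidableEq Ω] [Algebra F Ω]
  [IsAlgClosed Ω] [Algebra.IsAlgebraic F Ω] [CharZero Ω]

/-! Chunk PS3 (M). abs_step of Lib/H55P/SA3.lean for the Galois groups. sel_iff: unfold; U = the set of the fixing subgroups of the L with FiniteDimensional F L.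
sel_step: H = N.fixingSubgroup, the smaller group is K.fixingSubgroup. hUi: fixing subgroup of the sup (IntermediateField.fixingSubgroup_sup or le arguments: the elements fixing L and L' fix L ⊔ L'; finite). hUc: L.map g⁻¹. hcomm, σ: the restriction r : N.fixingSubgroup → Gal(K/N) (K as an
extension of N: IntermediateField.extendScalars; see FR_restr, FR_galois in Lib/H16C/FR2.lean; normal by hnorm), kernel = K.fixingSubgroup, the group has order [K : N] = p (IsGalois.card_aut_eq_finrank, finrank F K = finrank F N * finrank N K), so it is cyclic and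
commutative (isCyclic_of_prime_card). If r is trivial take σ = 1, otherwise any σ with r σ <> 1: r σ is a generator. hconj, hDI: S1. -/

theorem s3_fin (N K : IntermediateField F Ω) (hNK : N ≤ K) [FiniteDimensional F K] :
    FiniteDimensional N (IntermediateField.extendScalars hNK) := by
  have h1 : FiniteDimensional F (IntermediateField.extendScalars hNK) :=
    inferInstanceAs (FiniteDimensional F K)
  exact Module.Finite.of_restrictScalars_finite F N _

theorem s3_galois (N K : IntermediateField F Ω) (hNK : N ≤ K) [FiniteDimensional F K]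
    (hst : ∀ g ∈ N.fixingSubgroup, ∀ x ∈ K, g x ∈ K) :
    IsGalois N (IntermediateField.extendScalars hNK) := by
  have hfin := s3_fin N K hNK
  have hal : Algebra.IsAlgebraic N Ω := Algebra.IsAlgebraic.tower_top (K := F) N
  have hcl : IsAlgClosure N Ω := ⟨inferInstance, hal⟩
  have hno : Normal N Ω := IsAlgClosure.normal N Ω
  have : Normal N (IntermediateField.extendScalars hNK) := by
    rw [IntermediateField.normal_iff_forall_map_le']
    intro σ
    rintro y ⟨x, hx, rfl⟩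
    have hx' : x ∈ K := IntermediateField.mem_extendScalars hNK |>.1 hx
    have h2 := hst (σ.restrictScalars F) (fun z => σ.commutes z) x hx'
    exact (IntermediateField.mem_extendScalars hNK).2 h2
  have : CharZero N := charZero_of_injective_algebraMap (algebraMap F N).injective
  exact { }

theorem s3_lift {N : IntermediateField F Ω} (E : IntermediateField N Ω) [Normal N E] (s : Gal(E/N)) :
    ∃ φ : Ω ≃ₐ[F] Ω, φ ∈ N.fixingSubgroup ∧ ∀ x : E, φ (x : Ω) = ((s x : E) : Ω) := by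
  have hal : Algebra.IsAlgebraic N Ω := Algebra.IsAlgebraic.tower_top (K := F) N
  have hcl : IsAlgClosure N Ω := ⟨inferInstance, hal⟩
  have hno : Normal N Ω := IsAlgClosure.normal N Ω
  refine ⟨(s.liftNormal Ω).restrictScalars F, fun x => (s.liftNormal Ω).commutes x, fun x => ?_⟩
  exact s.liftNormal_commutes Ω x

theorem s3_restr {N : IntermediateField F Ω} (E : IntermediateField N Ω) [Normal N E] (g : Ω ≃ₐ[F] Ω)
    (hg : g ∈ N.fixingSubgroup) : ∃ s : Gal(E/N), ∀ x : E, ((s x : E) : Ω) = g (x : Ω) :=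
  ⟨(AlgEquiv.ofRingEquiv (f := (g : Ω ≃+* Ω)) (fun x => hg x) : Ω ≃ₐ[N] Ω).restrictNormal E,
    fun x => (AlgEquiv.ofRingEquiv (f := (g : Ω ≃+* Ω)) (fun x => hg x) : Ω ≃ₐ[N] Ω).restrictNormal_commutes E x⟩

theorem sel_iff (W : WeierstrassCurve F) (p : ℕ) (K : IntermediateField F Ω) :
    SelZero W p K ↔ SelA (acR W) p {O | ∃ L : IntermediateField F Ω, FiniteDimensional F L ∧
      O = L.fixingSubgroup} (fun V : ValuationSubring Ω => inS F V) K.fixingSubgroup := by
  constructor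
  · intro h c h1 h2 h3 h4
    obtain ⟨O, ⟨L, hL, rfl⟩, hO⟩ := h2
    exact h c ⟨h1, L, hL, hO⟩ h3 h4
  · intro h c h1 h3 h4
    obtain ⟨L, hL, hO⟩ := h1.cont
    exact h c h1.mul ⟨L.fixingSubgroup, ⟨L, hL, rfl⟩, hO⟩ h3 h4

theorem s3_mem (K : IntermediateField F Ω) (s : Ω ≃ₐ[F] Ω) :
    s ∈ K.fixingSubgroup ↔ ∀ x ∈ K, s x = x :=
  IntermediateField.mem_fixingSubgroup_iff K s

theorem sel_step (W : WeierstrassCurve F) (p : ℕ) (hp : p.Prime) (N K : IntermediateField F Ω)
    [FiniteDimensional F K] (hNK : N ≤ K) (hnorm : ∀ s ∈ N.fixingSubgroup, ∀ x ∈ K, s x ∈ K)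
    (hdeg : Module.finrank F K = Module.finrank F N * p)
    (h0 : ∀ T : Pt W Ω, p • T = 0 → (∀ s ∈ K.fixingSubgroup, ac W s T = T) → T = 0)
    (hloc : ∀ V : ValuationSubring Ω, (∀ s ∈ N.fixingSubgroup, Inert V s → s ∈ K.fixingSubgroup) ∨
      ((∀ s ∈ N.fixingSubgroup, Inert V s → ∀ P : Pt W Ω, p • (ac W s P - P) = 0 → ac W s P = P) ∧
        ∀ T : Pt W Ω, p • T = 0 → (∀ s ∈ N.fixingSubgroup, Dec V s → ac W s T = T) → T = 0))
    (hS : SelZero W p N) : SelZero W p K := by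
  rw [sel_iff] at hS ⊢
  have hfin := s3_fin N K hNK
  have hgal := s3_galois N K hNK hnorm
  have hdN : Module.finrank F N ≠ 0 := by
    intro h
    rw [h, zero_mul] at hdeg
    exact (Module.finrank_pos (R := F) (M := K)).ne' hdeg
  have hfr : Module.finrank N (IntermediateField.extendScalars hNK) = p := by
    have h1 := Module.finrank_mul_finrank F N (IntermediateField.extendScalars hNK)
    have h2 : Module.finrank F (IntermediateField.extendScalars hNK) = Module.finrank F K := rfl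
    rw [h2, hdeg] at h1
    exact Nat.eq_of_mul_eq_mul_left (Nat.pos_of_ne_zero hdN) h1
  have hcard : Nat.card Gal((IntermediateField.extendScalars hNK)/N) = p := by
    rw [IsGalois.card_aut_eq_finrank, hfr]
  have : Fact p.Prime := ⟨hp⟩
  have hcyc : IsCyclic Gal((IntermediateField.extendScalars hNK)/N) := isCyclic_of_prime_card hcard
  obtain ⟨τ, hτ⟩ := hcyc.exists_generator
  obtain ⟨σ, hσ, hστ⟩ := s3_lift (IntermediateField.extendScalars hNK) τ
  have hpow : ∀ (i : ℕ) (x : IntermediateField.extendScalars hNK),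
      (σ ^ i) (x : Ω) = (((τ ^ i) x : IntermediateField.extendScalars hNK) : Ω) := by
    intro i
    induction i with
    | zero => intro x; rfl
    | succ n ih =>
      intro x
      rw [pow_succ', pow_succ', AlgEquiv.mul_apply, AlgEquiv.mul_apply, ih, hστ]
  refine abs_step (acR W) p hp _ (fun V : ValuationSubring Ω => inS F V)
    (fun V : ValuationSubring Ω => decS F V) K.fixingSubgroup N.fixingSubgroup ?_ ?_ ?_ ?_ ?_ σ hσ
    ?_ ?_ ?_ ?_ ?_ ?_ hS
  · rintro _ ⟨L, hL, rfl⟩ _ ⟨L', hL', rfl⟩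
    exact ⟨L ⊔ L', IntermediateField.finiteDimensional_sup L L',
      (IntermediateField.fixingSubgroup_sup).symm⟩
  · rintro _ ⟨L, hL, rfl⟩ g
    refine ⟨(L.map (g⁻¹ : Ω ≃ₐ[F] Ω).toAlgHom).fixingSubgroup, ⟨_, ?_, rfl⟩, ?_⟩
    · exact LinearEquiv.finiteDimensional
        (IntermediateField.equivMap L (g⁻¹ : Ω ≃ₐ[F] Ω).toAlgHom).toLinearEquiv
    · intro s hs
      rw [s3_mem] at hs ⊢
      intro x hx
      have h1 : g (g⁻¹ x) = x := g.apply_symm_apply x
      have h2 : s (g⁻¹ x) = g⁻¹ x := hs _ ⟨x, hx, rfl⟩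
      rw [AlgEquiv.mul_apply, AlgEquiv.mul_apply, h2, h1]
  · exact ⟨K, inferInstance, rfl⟩
  · exact IntermediateField.fixingSubgroup_le hNK
  · intro a ha b hb
    obtain ⟨sa, hsa⟩ := s3_restr (IntermediateField.extendScalars hNK) a ha
    obtain ⟨sb, hsb⟩ := s3_restr (IntermediateField.extendScalars hNK) b hb
    have hcm : sa * sb = sb * sa := by
      obtain ⟨i, hi⟩ := Subgroup.mem_zpowers_iff.1 (hτ sa)
      obtain ⟨j, hj⟩ := Subgroup.mem_zpowers_iff.1 (hτ sb)
      rw [← hi, ← hj, ← zpow_add, ← zpow_add, add_comm]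
    rw [s3_mem]
    intro x hx
    have hy : a⁻¹ (b⁻¹ x) ∈ K :=
      hnorm _ (inv_mem ha) _ (hnorm _ (inv_mem hb) _ hx)
    have h3 : a (b (a⁻¹ (b⁻¹ x))) = b (a (a⁻¹ (b⁻¹ x))) := by
      have h4 := hsb ⟨a⁻¹ (b⁻¹ x), hy⟩
      have h5 := hsa ⟨a⁻¹ (b⁻¹ x), hy⟩
      have h6 := hsa (sb ⟨a⁻¹ (b⁻¹ x), hy⟩)
      have h7 := hsb (sa ⟨a⁻¹ (b⁻¹ x), hy⟩)
      have h8 : sa (sb ⟨a⁻¹ (b⁻¹ x), hy⟩) = sb (sa ⟨a⁻¹ (b⁻¹ x), hy⟩) := by
        rw [← AlgEquiv.mul_apply, hcm, AlgEquiv.mul_apply]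
      rw [h8, h7, h4, h5] at h6
      exact h6.symm
    have h1 : a (a⁻¹ (b⁻¹ x)) = b⁻¹ x := a.apply_symm_apply _
    have h2 : b (b⁻¹ x) = x := b.apply_symm_apply _
    rw [AlgEquiv.mul_apply, AlgEquiv.mul_apply, AlgEquiv.mul_apply, h3, h1, h2]
  · intro h hh
    obtain ⟨sh, hsh⟩ := s3_restr (IntermediateField.extendScalars hNK) h hh
    have h1 : sh ∈ Submonoid.powers τ := by
      have := hτ sh
      rwa [← mem_powers_iff_mem_zpowers] at this
    obtain ⟨i, hi⟩ := h1
    refine ⟨i, (σ ^ i)⁻¹ * h, ?_, by group⟩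
    rw [s3_mem]
    intro x hx
    have h2 : h x = (σ ^ i) x := by
      have h3 := hsh ⟨x, hx⟩
      have h4 := hpow i ⟨x, hx⟩
      have hi' : τ ^ i = sh := hi
      rw [hi', h3] at h4
      exact h4.symm
    rw [AlgEquiv.mul_apply, h2]
    exact (σ ^ i).symm_apply_apply x
  · rw [s3_mem]
    intro x hx
    have h4 := hpow p ⟨x, hx⟩
    have h5 : τ ^ p = 1 := by
      rw [← hcard]
      exact pow_card_eq_one'
    rw [h5] at h4
    exact h4
  · intro g _ v
    exact inS_conj v g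
  · intro v φ hφ s hs
    exact inS_dec v φ hφ s hs
  · exact h0
  · exact hloc

end H55P
end

-- from Lib.H13S.IN4
section

open NumberField IsDedekindDomain

namespace H13S

open H55P

theorem in4_val {K N : Type} [Field K] [Field N] [NumberField N] [Algebra K N]
    (W : HeightOneSpectrum (𝓞 N)) (s : N ≃ₐ[K] N) (hs : ∀ x : 𝓞 N, s • x - x ∈ W.asIdeal) (x : N)
    (hx : W.valuation N x ≤ 1) : W.valuation N (s x - x) < 1 := by
  obtain ⟨n, d, hnd⟩ := W.exists_primeCompl_mul_eq_of_integer x hx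
  have hd : (d : 𝓞 N) ∉ W.asIdeal := d.2
  have hP := W.isPrime
  have hsd : s • (d : 𝓞 N) ∉ W.asIdeal := by
    intro h1
    have h2 := W.asIdeal.sub_mem h1 (hs d)
    rw [sub_sub_cancel] at h2
    exact hd h2
  have hcoe : ∀ z : 𝓞 N, algebraMap (𝓞 N) N (s • z) = s (algebraMap (𝓞 N) N z) := fun z => rfl
  have hv1 : W.valuation N (algebraMap (𝓞 N) N (d : 𝓞 N)) = 1 :=
    le_antisymm (W.valuation_le_one _) (not_lt.1 fun h3 => hd ((W.valuation_lt_one_iff_mem _).1 h3))
  have hv2 : W.valuation N (algebraMap (𝓞 N) N (s • (d : 𝓞 N))) = 1 :=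
    le_antisymm (W.valuation_le_one _) (not_lt.1 fun h3 => hsd ((W.valuation_lt_one_iff_mem _).1 h3))
  have hx2 : s x * algebraMap (𝓞 N) N (s • (d : 𝓞 N)) = algebraMap (𝓞 N) N (s • (n : 𝓞 N)) := by
    rw [hcoe, hcoe, ← map_mul, hnd]
  have hnum : (s x - x) * (algebraMap (𝓞 N) N (s • (d : 𝓞 N)) * algebraMap (𝓞 N) N (d : 𝓞 N)) =
      algebraMap (𝓞 N) N ((s • n - n) * d - n * (s • (d : 𝓞 N) - d) : 𝓞 N) := by
    rw [map_sub, map_mul, map_mul, map_sub, map_sub, ← hnd, ← hx2]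
    ring
  have hmem : ((s • n - n) * d - n * (s • (d : 𝓞 N) - d) : 𝓞 N) ∈ W.asIdeal :=
    W.asIdeal.sub_mem (W.asIdeal.mul_mem_right _ (hs n)) (W.asIdeal.mul_mem_left _ (hs d))
  have h3 := congrArg (W.valuation N) hnum
  rw [map_mul, map_mul, hv1, hv2, mul_one, mul_one] at h3
  rw [h3]
  exact (W.valuation_lt_one_iff_mem _).2 hmem

/-- Chunk IN4 (M). The value group of the field fixed by an inertia group. Let N be a finite Galois extension of K
inside Ω containing y (normal closure of F₀(y) K over F₀: IntermediateField.normalClosure; number field). If N is contained in V then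
V = ⊤ (Ω is algebraic over N and V is integrally closed), all values are 1, a = 1. Otherwise V lies above a prime W of N (exists_below). An
element of the inertia group of W in Gal(N/K) extends to an automorphism s of Ω over K; it satisfies the hypothesis of inertia_lift (for x in N ∩ V: the residue
field of W consists of classes of algebraic integers, x = b/d with b, d in 𝓞 N, d not in W); so it is the restriction of s' with Inert V s', s' fixes K
(s' = s on N), and s' y = y by h. value_fixed_fin gives a, and Abv.le translates equality of values of W into equality of values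
of V. -/
theorem value_fixed {F₀ : Type} [Field F₀] [NumberField F₀] {Ω : Type} [Field Ω] [Algebra F₀ Ω]
    [IsAlgClosure F₀ Ω] (K : IntermediateField F₀ Ω) [NumberField K] (V : ValuationSubring Ω) (y : Ω)
    (hy : y ≠ 0) (h : ∀ s ∈ K.fixingSubgroup, Inert V s → s y = y) :
    ∃ a : K, a ≠ 0 ∧ V.valuation y = V.valuation (a : Ω) := by
  have hac : IsAlgClosed Ω := IsAlgClosure.isAlgClosed F₀
  have halg : Algebra.IsAlgebraic F₀ Ω := IsAlgClosure.isAlgebraic
  have hnorm : Normal F₀ Ω := IsAlgClosure.normal F₀ Ω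
  have hKfin : FiniteDimensional F₀ K := FiniteDimensional.right ℚ F₀ K
  have hyfin : FiniteDimensional F₀ (IntermediateField.adjoin F₀ {y}) :=
    IntermediateField.adjoin.finiteDimensional (Algebra.IsIntegral.isIntegral y)
  let M : IntermediateField F₀ Ω := K ⊔ IntermediateField.adjoin F₀ {y}
  have hMfin : FiniteDimensional F₀ M := IntermediateField.finiteDimensional_sup K _
  let N : IntermediateField F₀ Ω := IntermediateField.normalClosure F₀ M Ω
  have hNfin : FiniteDimensional F₀ N := normalClosure.is_finiteDimensional F₀ M Ω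
  have hNnorm : Normal F₀ N := normalClosure.normal F₀ M Ω
  have hMN : M ≤ N := IntermediateField.le_normalClosure M
  have hKN : K ≤ N := le_trans le_sup_left hMN
  have hyN : y ∈ N := hMN ((le_sup_right : IntermediateField.adjoin F₀ {y} ≤ M)
    (IntermediateField.mem_adjoin_simple_self F₀ y))
  clear_value N
  have hNQ : FiniteDimensional ℚ N := FiniteDimensional.trans ℚ F₀ N
  have hchar : CharZero N := charZero_of_injective_algebraMap (algebraMap F₀ N).injective
  have hNnf : NumberField N := ⟨⟩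
  by_cases hV : ∃ x : N, (x : Ω) ∉ V
  · obtain ⟨W, hW⟩ := exists_below N V hV
    let alg : Algebra K N := (IntermediateField.inclusion hKN).toRingHom.toAlgebra
    have hmap : ∀ a : K, ((algebraMap K N a : N) : Ω) = (a : Ω) := fun a => rfl
    have htow : IsScalarTower F₀ K N := IsScalarTower.of_algebraMap_eq fun a => rfl
    have hgalF : IsGalois F₀ N := IsGalois.mk
    have hgal : IsGalois K N := IsGalois.tower_top_of_isGalois F₀ K N
    obtain ⟨a, ha0, ha⟩ := value_fixed_fin K N W ⟨y, hyN⟩ (fun h0 => hy (congrArg Subtype.val h0)) (by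
      intro s hs
      let σ : Ω ≃ₐ[F₀] Ω := (s.restrictScalars F₀).liftNormal Ω
      have hσ : ∀ x : N, σ (x : Ω) = ((s x : N) : Ω) := fun x =>
        AlgEquiv.liftNormal_commutes (s.restrictScalars F₀) Ω x
      obtain ⟨s', hs'1, hs'2⟩ := inertia_lift N V σ (fun x hx => by
          have h1 := hσ ⟨x, hx⟩
          rw [h1]
          exact (s ⟨x, hx⟩).2) (fun x hx hxV => by
          have h1 := hσ ⟨x, hx⟩
          have h2 := in4_val W s hs ⟨x, hx⟩ ((hW ⟨x, hx⟩).1 hxV)
          have h3 := (hW.lt _).2 h2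
          rw [h1]
          exact h3)
      have hfix : s' ∈ K.fixingSubgroup := by
        rw [IntermediateField.mem_fixingSubgroup_iff]
        intro x hx
        rw [hs'2 x (hKN hx)]
        have h1 := hσ ⟨x, hKN hx⟩
        rw [h1]
        have h2 := s.commutes ⟨x, hx⟩
        exact congrArg Subtype.val h2
      have h1 := h s' hfix hs'1
      rw [hs'2 y hyN] at h1
      have h2 := hσ ⟨y, hyN⟩
      exact Subtype.ext (h2.symm.trans h1))
    refine ⟨a, ha0, ?_⟩
    have h1 := (hW.le ⟨y, hyN⟩ (algebraMap K N a)).2 ha.le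
    have h2 := (hW.le (algebraMap K N a) ⟨y, hyN⟩).2 ha.ge
    exact le_antisymm h1 h2
  · push Not at hV
    refine ⟨1, one_ne_zero, ?_⟩
    have h1 : V.valuation y ≤ 1 := (V.valuation_le_one_iff y).2 (hV ⟨y, hyN⟩)
    have h2 : V.valuation y⁻¹ ≤ 1 := (V.valuation_le_one_iff _).2 (hV ⟨y⁻¹, N.inv_mem hyN⟩)
    have h3 : V.valuation y ≠ 0 := (Valuation.ne_zero_iff _).2 hy
    rw [map_inv₀] at h2
    have h4 : 1 ≤ V.valuation y := by
      rwa [inv_le_one₀ (zero_lt_iff.2 h3)] at h2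
    have h5 : V.valuation ((1 : K) : Ω) = 1 := map_one _
    rw [h5]
    exact le_antisymm h1 h4

end H13S
end

-- from Lib.H55N.T2
section

open NumberField IsDedekindDomain

namespace H55N

open H55B H55C

/-- the ideals of `O` and those of `𝓞 K` -/
theorem T2_equiv (K : Type) [Field K] [NumberField K] [Algebra F K] (h1 : Module.finrank F K = 1) :
    ∃ ε : Ideal O ≃ Ideal (𝓞 K), ∀ J : Ideal O, Ideal.relNorm O (ε J) = J ∧
      Ideal.absNorm (ε J) = Ideal.absNorm J := by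
  have hsurj : Function.Surjective (algebraMap F K) := by
    intro x
    obtain ⟨c, hc⟩ := (finrank_eq_one_iff_of_nonzero' (1 : K) one_ne_zero).1 h1 x
    exact ⟨c, by rw [← hc, Algebra.smul_def, mul_one]⟩
  have hinj : Function.Injective (algebraMap O (𝓞 K)) := FaithfulSMul.algebraMap_injective O (𝓞 K)
  have hsurjO : Function.Surjective (algebraMap O (𝓞 K)) := by
    intro x
    obtain ⟨y, hy⟩ := hsurj (x : K)
    have hyi : IsIntegral ℤ y := by
      have h2 : IsIntegral ℤ (algebraMap F K y) := by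
        rw [hy]
        exact RingOfIntegers.isIntegral_coe x
      exact (isIntegral_algebraMap_iff (algebraMap F K).injective).1 h2
    refine ⟨⟨y, hyi⟩, ?_⟩
    apply RingOfIntegers.ext
    rw [← hy]
    rfl
  let ε₀ : O ≃+* 𝓞 K := RingEquiv.ofBijective (algebraMap O (𝓞 K)) ⟨hinj, hsurjO⟩
  have hr : Module.finrank O (𝓞 K) = 1 := by
    rw [← h1]
    exact (IsFractionRing.finrank_eq O F (𝓞 K) K).symm
  have key : ∀ J : Ideal O, Ideal.relNorm O (J.map (algebraMap O (𝓞 K))) = J := by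
    intro J
    rw [Ideal.relNorm_algebraMap (𝓞 K) J, hr, pow_one]
  refine ⟨(ε₀.idealComapOrderIso.symm).toEquiv, fun J => ?_⟩
  have h3 : (ε₀.idealComapOrderIso.symm).toEquiv J = J.map (algebraMap O (𝓞 K)) := rfl
  rw [h3]
  refine ⟨key J, ?_⟩
  rw [← Ideal.absNorm_relNorm O (𝓞 K), key J]

theorem T2_cpow (r : ℝ) (hr : 0 < r) (s : ℂ) : ((r ^ 2 : ℝ) : ℂ) ^ (-s) = (r : ℂ) ^ (-2 * s) := by
  have h0 : ((r ^ 2 : ℝ) : ℂ) ≠ 0 := by
    exact_mod_cast (pow_pos hr 2).ne'
  have h1 : (r : ℂ) ≠ 0 := by exact_mod_cast hr.ne'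
  rw [Complex.cpow_def_of_ne_zero h0, Complex.cpow_def_of_ne_zero h1, ← Complex.ofReal_log (by positivity),
    ← Complex.ofReal_log hr.le, Real.log_pow]
  congr 1
  push_cast
  ring

theorem T2_term (y : O) (s : ℂ) :
    psiF (Ideal.span {1 + 3 * y}) * (Ideal.absNorm (Ideal.span {1 + 3 * y} : Ideal O) : ℂ) ^ (-s) =
      g s (1 + 3 * e y) := by
  have hp : Prim (1 + 3 * y) := ⟨y, by ring⟩
  have he : e (1 + 3 * y) = 1 + 3 * e y := by
    rw [map_add, map_mul, map_one, map_ofNat]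
  have hne : e (1 + 3 * y) ≠ 0 := by
    rw [Ne, map_eq_zero_iff e e_injective]
    exact hp.ne_zero
  rw [psiF_apply, pg_span hp, ← he]
  unfold g
  congr 1
  have h1 : ((Ideal.absNorm (Ideal.span {1 + 3 * y} : Ideal O) : ℕ) : ℝ) = ‖e (1 + 3 * y)‖ ^ 2 :=
    Nm_eq (1 + 3 * y)
  rw [← T2_cpow _ (norm_pos_iff.2 hne), ← h1]
  rfl

theorem T2_hasSum (s : ℂ) (hs : 3 / 2 < s.re) :
    HasSum (fun J : Ideal O => psiF J * (Ideal.absNorm J : ℂ) ^ (-s)) (Kf 1 s) := by
  have hinj : Function.Injective (fun y : O => (Ideal.span {1 + 3 * y} : Ideal O)) := by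
    intro y z h
    have h1 : Prim (1 + 3 * y) := ⟨y, by ring⟩
    have h2 : Prim (1 + 3 * z) := ⟨z, by ring⟩
    have h3 : 1 + 3 * y = 1 + 3 * z :=
      h1.eq_of_associated h2 (Ideal.span_singleton_eq_span_singleton.1 h)
    have h4 : (3 : O) ≠ 0 := by norm_num
    exact mul_left_cancel₀ h4 (add_left_cancel h3)
  rw [← hinj.hasSum_iff]
  · have h1 : (fun J : Ideal O => psiF J * (Ideal.absNorm J : ℂ) ^ (-s)) ∘
        (fun y : O => (Ideal.span {1 + 3 * y} : Ideal O)) = fun y : O => g s (1 + 3 * e y) := by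
      funext y
      exact T2_term y s
    rw [h1]
    exact (Kf_summable 1 s hs).hasSum
  · intro J hJ
    have h1 : psiF J = 0 := by
      rw [psiF_apply, pg_of_not, map_zero, map_zero]
      rintro ⟨x, hx, y, hy⟩
      apply hJ
      refine ⟨y, ?_⟩
      show Ideal.span {1 + 3 * y} = J
      rw [hx]
      congr 2
      linear_combination -hy
    show psiF J * _ = 0
    rw [h1, zero_mul]



end H55N
end

-- from Lib.H55P.S8
section

open NumberField IsDedekindDomain WeierstrassCurve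

namespace H55P

/-! Chunk PS8 (M). Reduction (with the lemmas of Lib/H35P, valid for general Weierstrass equations).
red_fix: P = 0 trivial. If x(P) is not in V then s x(P) is not in V (inert_dec), so P and s P are in Ker, s P - P in Ker (ker_sub). If x is in V then y is in V (H35P.int_y or the equation) and s P, P are congruent (Inert), so s P - P in Ker (rd). It is killed
by p, so zero (fg).
exists_red: f T = 0 for T = 0 and f (x, y) = (r x, r y) with x, y in V (torsion_int); the reduced point satisfies the equation of W', which has discriminant r Δ <> 0, so is nonsingular (equation_iff_nonsingular). f (-T) = - f T. Additivity for T1, T2, T1 + T2 nonzero: slope_int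
(SL.lean): the slope l of T1, T2 is in V. If r x1 <> r x2: the slope of the reduced points is r l (slope_of_X_ne), and addX, addY are polynomials. If r x1 = r x2: then r y1 = r y2 or r y1 = negY (both are roots of the quadratic equation in y at r x1; reduced curve). In the second case T1 and -T2
are congruent, so T1 = -T2 (inj), contradiction. In the first case T1 = T2 (inj), x1 = x2; slope = (3x^2+...)/(y - negY), y - negY is a unit of V (otherwise T1 and -T1 are congruent, T1 = -T1), so the reduced slope is r l. For T1 + T2 = 0: f T2 = - f T1. -/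

theorem red_fix {F : Type} [Field F] {Ω : Type} [Field Ω] [DecidableEq Ω] [Algebra F Ω]
    (W : WeierstrassCurve F) (V : ValuationSubring Ω) (hG : H35P.GoodW (W⁄Ω) V) (p : ℕ)
    (hp : V.valuation (p : Ω) = 1) (s : Ω ≃ₐ[F] Ω) (hs : Inert V s) (P : Pt W Ω)
    (h : p • (ac W s P - P) = 0) : ac W s P = P := by
  have hdec := inert_dec V s hs
  have key : H35P.Ker V (ac W s P - P) := by
    rcases P with _ | ⟨x, y, hP⟩
    · have e : ac W s Affine.Point.zero - Affine.Point.zero = (0 : Pt W Ω) := by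
        show ac W s 0 - 0 = 0
        rw [map_zero, sub_zero]
      rw [e]
      trivial
    · by_cases hx : x ∈ V
      · have hy : y ∈ V := (V.valuation_le_one_iff y).1
          (H35P.int_y hG.toIntW hP.1 ((V.valuation_le_one_iff x).2 hx))
        exact H35P.rd hG _ _ ⟨s x, s y, _, x, y, hP, rfl, rfl, (hdec x).2 hx, (hdec y).2 hy, hx, hy,
          hs x hx, hs y hy⟩
      · refine H35P.ker_sub hG.toIntW _ _ ?_ ?_
        · show 1 < V.valuation (s x)
          rw [← not_le, V.valuation_le_one_iff]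
          exact fun hc => hx ((hdec x).1 hc)
        · show 1 < V.valuation x
          rw [← not_le, V.valuation_le_one_iff]
          exact hx
  exact sub_eq_zero.1 (H35P.fg hG.toIntW _ p hp h key)

section S8

variable {k : Type} [Field k] {W : WeierstrassCurve k} {V : ValuationSubring k}

/-- The equation over the valuation ring. -/
def s8_WV (hI : H35P.IntW W V) : WeierstrassCurve V :=
  ⟨⟨W.a₁, hI.a1⟩, ⟨W.a₂, hI.a2⟩, ⟨W.a₃, hI.a3⟩, ⟨W.a₄, hI.a4⟩, ⟨W.a₆, hI.a6⟩⟩


theorem s8_negY (hI : H35P.IntW W V) (X Y : V) :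
    W.toAffine.negY (X : k) (Y : k) = (((s8_WV hI).toAffine.negY X Y : V) : k) :=
  Affine.map_negY (W' := (s8_WV hI).toAffine) V.subtype X Y

theorem s8_addX (hI : H35P.IntW W V) (X Y l : V) :
    W.toAffine.addX (X : k) (Y : k) (l : k) = (((s8_WV hI).toAffine.addX X Y l : V) : k) :=
  Affine.map_addX (W' := (s8_WV hI).toAffine) V.subtype X Y l

theorem s8_addY (hI : H35P.IntW W V) (X Y Z l : V) :
    W.toAffine.addY (X : k) (Y : k) (Z : k) (l : k) = (((s8_WV hI).toAffine.addY X Y Z l : V) : k) :=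
  Affine.map_addY (W' := (s8_WV hI).toAffine) V.subtype X Z Y l

variable {κ : Type} [Field κ] (r : V →+* κ) (hr : ∀ x : V, r x = 0 ↔ V.valuation (x : k) < 1)

include hr in
theorem s8_ns (hG : H35P.GoodW W V) (X Y : V) (h : W.toAffine.Nonsingular (X : k) (Y : k)) :
    ((s8_WV hG.toIntW).map r).toAffine.Nonsingular (r X) (r Y) := by
  have h1 : (s8_WV hG.toIntW).toAffine.Equation X Y :=
    (Affine.map_equation (s8_WV hG.toIntW).toAffine (f := V.subtype) Subtype.coe_injective X Y).1 h.1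
  have h2 : ((s8_WV hG.toIntW).map r).toAffine.Equation (r X) (r Y) := h1.map r
  have h3 : ((s8_WV hG.toIntW).map r).Δ ≠ 0 := by
    rw [WeierstrassCurve.map_Δ]
    intro h0
    rw [hr] at h0
    have h4 : (((s8_WV hG.toIntW).Δ : V) : k) = W.Δ :=
      (WeierstrassCurve.map_Δ (s8_WV hG.toIntW) V.subtype).symm
    rw [h4, hG.disc] at h0
    exact lt_irrefl _ h0
  exact (Affine.equation_iff_nonsingular_of_Δ_ne_zero h3).1 h2

open Classical in
/-- The reduction map. -/
noncomputable def s8_f (hG : H35P.GoodW W V) :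
    W.toAffine.Point → ((s8_WV hG.toIntW).map r).toAffine.Point
  | .zero => .zero
  | .some x y h => if hx : x ∈ V ∧ y ∈ V then
      .some (r ⟨x, hx.1⟩) (r ⟨y, hx.2⟩) (s8_ns r hr hG ⟨x, hx.1⟩ ⟨y, hx.2⟩ h) else .zero

theorem s8_f_zero (hG : H35P.GoodW W V) : s8_f r hr hG 0 = 0 := rfl

theorem s8_f_some (hG : H35P.GoodW W V) (X Y : V) (h : W.toAffine.Nonsingular (X : k) (Y : k)) :
    s8_f r hr hG (.some (X : k) (Y : k) h) = .some (r X) (r Y) (s8_ns r hr hG X Y h) :=
  dif_pos ⟨X.2, Y.2⟩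

theorem s8_some_congr {W' : WeierstrassCurve κ} {a b c d : κ} {h : W'.toAffine.Nonsingular a b}
    {h' : W'.toAffine.Nonsingular c d} (e1 : a = c) (e2 : b = d) :
    (Affine.Point.some a b h : W'.toAffine.Point) = .some c d h' := by
  subst e1
  subst e2
  rfl

include hr in
theorem s8_eq_iff (X Y : V) : r X = r Y ↔ V.valuation ((X : k) - (Y : k)) < 1 := by
  rw [← sub_eq_zero, ← map_sub, hr]
  rfl

variable [DecidableEq k]

include hr in
/-- Torsion points with equal reduction are equal. -/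
theorem s8_inj (hG : H35P.GoodW W V) (n : ℕ) (hn : V.valuation (n : k) = 1) (X₁ Y₁ X₂ Y₂ : V)
    (h₁ : W.toAffine.Nonsingular (X₁ : k) (Y₁ : k)) (h₂ : W.toAffine.Nonsingular (X₂ : k) (Y₂ : k))
    (hP : n • (Affine.Point.some _ _ h₁ : W.toAffine.Point) = 0)
    (hQ : n • (Affine.Point.some _ _ h₂ : W.toAffine.Point) = 0)
    (hX : r X₁ = r X₂) (hY : r Y₁ = r Y₂) : X₁ = X₂ ∧ Y₁ = Y₂ := by
  have h := H35P.inj hG _ _ n hn hP hQ ⟨X₁, Y₁, h₁, X₂, Y₂, h₂, rfl, rfl, X₁.2, Y₁.2, X₂.2, Y₂.2,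
    (s8_eq_iff r hr X₁ X₂).1 hX, (s8_eq_iff r hr Y₁ Y₂).1 hY⟩
  simp only [Affine.Point.some.injEq] at h
  exact ⟨Subtype.ext h.1, Subtype.ext h.2⟩

include hr in
/-- Torsion points with opposite reduction are opposite. -/
theorem s8_inj' (hG : H35P.GoodW W V) (n : ℕ) (hn : V.valuation (n : k) = 1) (X₁ Y₁ X₂ Y₂ : V)
    (h₁ : W.toAffine.Nonsingular (X₁ : k) (Y₁ : k)) (h₂ : W.toAffine.Nonsingular (X₂ : k) (Y₂ : k))
    (hP : n • (Affine.Point.some _ _ h₁ : W.toAffine.Point) = 0)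
    (hQ : n • (Affine.Point.some _ _ h₂ : W.toAffine.Point) = 0)
    (hX : r X₁ = r X₂) (hY : r Y₁ = ((s8_WV hG.toIntW).map r).toAffine.negY (r X₂) (r Y₂)) :
    (X₁ : k) = X₂ ∧ (Y₁ : k) = W.toAffine.negY (X₂ : k) (Y₂ : k) := by
  have h3 : W.toAffine.Nonsingular (X₂ : k) (((s8_WV hG.toIntW).toAffine.negY X₂ Y₂ : V) : k) := by
    rw [← s8_negY]
    exact (Affine.nonsingular_neg ..).2 h₂
  have hQ' : n • (Affine.Point.some _ _ h3 : W.toAffine.Point) = 0 := by
    have e : (Affine.Point.some _ _ h3 : W.toAffine.Point) = -Affine.Point.some _ _ h₂ := by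
      rw [Affine.Point.neg_some]
      exact s8_some_congr rfl (s8_negY hG.toIntW X₂ Y₂).symm
    rw [e, smul_neg, hQ, neg_zero]
  have hY' : r Y₁ = r ((s8_WV hG.toIntW).toAffine.negY X₂ Y₂) := by
    rw [hY]
    exact Affine.map_negY (W' := (s8_WV hG.toIntW).toAffine) r X₂ Y₂
  obtain ⟨e1, e2⟩ := s8_inj r hr hG n hn X₁ Y₁ X₂ _ h₁ h3 hP hQ' hX hY'
  rw [s8_negY hG.toIntW]
  exact ⟨congrArg _ e1, congrArg _ e2⟩

variable [DecidableEq κ]

include hr in
/-- The slope is compatible with the reduction. -/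
theorem s8_slope (hG : H35P.GoodW W V) (n : ℕ) (hn : V.valuation (n : k) = 1) (X₁ Y₁ X₂ Y₂ : V)
    (h₁ : W.toAffine.Nonsingular (X₁ : k) (Y₁ : k)) (h₂ : W.toAffine.Nonsingular (X₂ : k) (Y₂ : k))
    (hP : n • (Affine.Point.some _ _ h₁ : W.toAffine.Point) = 0)
    (hQ : n • (Affine.Point.some _ _ h₂ : W.toAffine.Point) = 0)
    (hc : ¬((X₁ : k) = X₂ ∧ (Y₁ : k) = W.toAffine.negY (X₂ : k) (Y₂ : k))) :
    ∃ l : V, W.toAffine.slope (X₁ : k) X₂ Y₁ Y₂ = l ∧
      ((s8_WV hG.toIntW).map r).toAffine.slope (r X₁) (r X₂) (r Y₁) (r Y₂) = r l := by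
  have hl := H35P.slope_int hG h₁ h₂ n hn hP hQ hc
  rw [V.valuation_le_one_iff] at hl
  refine ⟨⟨_, hl⟩, rfl, ?_⟩
  have hc' : ¬(r X₁ = r X₂ ∧ r Y₁ = ((s8_WV hG.toIntW).map r).toAffine.negY (r X₂) (r Y₂)) :=
    fun h => hc (s8_inj' r hr hG n hn X₁ Y₁ X₂ Y₂ h₁ h₂ hP hQ h.1 h.2)
  by_cases hx : r X₁ = r X₂
  · have hy := fun h => hc' ⟨hx, h⟩
    have hyy : r Y₁ = r Y₂ :=
      Affine.Y_eq_of_Y_ne (s8_ns r hr hG X₁ Y₁ h₁).1 (s8_ns r hr hG X₂ Y₂ h₂).1 hx hy
    obtain ⟨rfl, rfl⟩ := s8_inj r hr hG n hn X₁ Y₁ X₂ Y₂ h₁ h₂ hP hQ hx hyy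
    have hyk : (Y₁ : k) ≠ W.toAffine.negY (X₁ : k) (Y₁ : k) := fun h => hc ⟨rfl, h⟩
    rw [Affine.slope_of_Y_ne rfl hy, div_eq_iff (sub_ne_zero.2 hy)]
    have e1 : (⟨W.toAffine.slope (X₁ : k) X₁ Y₁ Y₁, hl⟩ : V) *
        (Y₁ - (s8_WV hG.toIntW).toAffine.negY X₁ Y₁) =
        3 * X₁ ^ 2 + 2 * (s8_WV hG.toIntW).a₂ * X₁ + (s8_WV hG.toIntW).a₄ -
          (s8_WV hG.toIntW).a₁ * Y₁ := by
      apply Subtype.ext
      have e2 := s8_negY hG.toIntW X₁ Y₁
      show W.toAffine.slope (X₁ : k) X₁ Y₁ Y₁ * ((Y₁ : k) -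
        (((s8_WV hG.toIntW).toAffine.negY X₁ Y₁ : V) : k)) =
        3 * (X₁ : k) ^ 2 + 2 * W.a₂ * X₁ + W.a₄ - W.a₁ * Y₁
      rw [← e2, Affine.slope_of_Y_ne rfl hyk, div_mul_cancel₀ _ (sub_ne_zero.2 hyk)]
    have e3 := congrArg r e1
    rw [map_mul, map_sub, ← Affine.map_negY] at e3
    rw [e3, map_sub, map_add, map_add, map_mul, map_mul, map_mul, map_mul, map_pow, map_ofNat,
      map_ofNat]
    rfl
  · have hxk : (X₁ : k) ≠ X₂ := fun h => hx (congrArg r (Subtype.ext h))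
    rw [Affine.slope_of_X_ne hx, div_eq_iff (sub_ne_zero.2 hx)]
    have e1 : (⟨W.toAffine.slope (X₁ : k) X₂ Y₁ Y₂, hl⟩ : V) * (X₁ - X₂) = Y₁ - Y₂ := by
      apply Subtype.ext
      show W.toAffine.slope (X₁ : k) X₂ Y₁ Y₂ * ((X₁ : k) - X₂) = (Y₁ : k) - Y₂
      rw [Affine.slope_of_X_ne hxk, div_mul_cancel₀ _ (sub_ne_zero.2 hxk)]
    have e3 := congrArg r e1
    rw [map_mul, map_sub, map_sub] at e3
    exact e3.symm

/-- Additivity. -/
theorem s8_add (hG : H35P.GoodW W V) (n : ℕ) (hn : V.valuation (n : k) = 1) (P Q : W.toAffine.Point)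
    (hP : n • P = 0) (hQ : n • Q = 0) :
    s8_f r hr hG (P + Q) = s8_f r hr hG P + s8_f r hr hG Q := by
  rcases P with _ | ⟨x₁, y₁, h₁⟩
  · show s8_f r hr hG (0 + Q) = 0 + s8_f r hr hG Q
    rw [zero_add, zero_add]
  rcases Q with _ | ⟨x₂, y₂, h₂⟩
  · show s8_f r hr hG (_ + 0) = s8_f r hr hG _ + 0
    rw [add_zero, add_zero]
  obtain ⟨hx1, hy1⟩ := H35P.SL_mem hG h₁ n hn hP
  obtain ⟨hx2, hy2⟩ := H35P.SL_mem hG h₂ n hn hQ
  lift x₁ to V using hx1
  lift y₁ to V using hy1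
  lift x₂ to V using hx2
  lift y₂ to V using hy2
  rw [s8_f_some, s8_f_some]
  by_cases hc : (x₁ : k) = x₂ ∧ (y₁ : k) = W.toAffine.negY (x₂ : k) (y₂ : k)
  · rw [Affine.Point.add_of_Y_eq hc.1 hc.2, s8_f_zero, Affine.Point.add_of_Y_eq]
    · exact congrArg r (Subtype.ext hc.1)
    · have e := hc.2
      rw [s8_negY hG.toIntW] at e
      rw [Subtype.ext e]
      exact (Affine.map_negY (W' := (s8_WV hG.toIntW).toAffine) r x₂ y₂).symm
  · have hc' : ¬(r x₁ = r x₂ ∧ r y₁ = ((s8_WV hG.toIntW).map r).toAffine.negY (r x₂) (r y₂)) :=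
      fun h => hc (s8_inj' r hr hG n hn x₁ y₁ x₂ y₂ h₁ h₂ hP hQ h.1 h.2)
    obtain ⟨l, hl, hl'⟩ := s8_slope r hr hG n hn x₁ y₁ x₂ y₂ h₁ h₂ hP hQ hc
    rw [Affine.Point.add_some hc, Affine.Point.add_some hc']
    have hns : W.toAffine.Nonsingular (((s8_WV hG.toIntW).toAffine.addX x₁ x₂ l : V) : k)
        (((s8_WV hG.toIntW).toAffine.addY x₁ x₂ y₁ l : V) : k) := by
      rw [← s8_addX, ← s8_addY, ← hl]
      exact Affine.nonsingular_add h₁ h₂ hc
    have e : (Affine.Point.some _ _ (Affine.nonsingular_add h₁ h₂ hc) : W.toAffine.Point) =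
        Affine.Point.some _ _ hns := by
      refine s8_some_congr ?_ ?_
      · rw [hl, s8_addX hG.toIntW]
      · rw [hl, s8_addY hG.toIntW]
    rw [e, s8_f_some]
    refine s8_some_congr ?_ ?_
    · rw [hl']
      exact (Affine.map_addX (W' := (s8_WV hG.toIntW).toAffine) r x₁ x₂ l).symm
    · rw [hl']
      exact (Affine.map_addY (W' := (s8_WV hG.toIntW).toAffine) r x₁ y₁ x₂ l).symm

end S8

theorem exists_red {k : Type} [Field k] [DecidableEq k] {W : WeierstrassCurve k} {V : ValuationSubring k}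
    (hG : H35P.GoodW W V) {κ : Type} [Field κ] [DecidableEq κ] (r : V →+* κ)
    (hr : ∀ x : V, r x = 0 ↔ V.valuation (x : k) < 1) (W' : WeierstrassCurve κ)
    (h1 : r ⟨W.a₁, hG.a1⟩ = W'.a₁) (h2 : r ⟨W.a₂, hG.a2⟩ = W'.a₂) (h3 : r ⟨W.a₃, hG.a3⟩ = W'.a₃)
    (h4 : r ⟨W.a₄, hG.a4⟩ = W'.a₄) (h6 : r ⟨W.a₆, hG.a6⟩ = W'.a₆) (n : ℕ)
    (hn : V.valuation (n : k) = 1) :
    ∃ f : (nsmulAddMonoidHom n : W.toAffine.Point →+ W.toAffine.Point).ker →+ W'.toAffine.Point,
      (∀ T, f T = 0 → T = 0) ∧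
      ∀ (x y : k) (h : W.toAffine.Nonsingular x y)
        (hT : (Affine.Point.some x y h : W.toAffine.Point) ∈
          (nsmulAddMonoidHom n : W.toAffine.Point →+ W.toAffine.Point).ker) (hx : x ∈ V) (hy : y ∈ V),
        ∃ h' : W'.toAffine.Nonsingular (r ⟨x, hx⟩) (r ⟨y, hy⟩),
          f ⟨Affine.Point.some x y h, hT⟩ = Affine.Point.some _ _ h' := by
  have hW' : W' = (s8_WV hG.toIntW).map r :=
    WeierstrassCurve.ext h1.symm h2.symm h3.symm h4.symm h6.symm
  subst hW'
  refine ⟨{ toFun := fun T => s8_f r hr hG T.1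
            map_zero' := rfl
            map_add' := fun P Q => s8_add r hr hG n hn P.1 Q.1 P.2 Q.2 }, ?_, ?_⟩
  · rintro ⟨T, hT⟩ h0
    apply Subtype.ext
    rcases T with _ | ⟨x, y, h⟩
    · rfl
    · exfalso
      obtain ⟨hx, hy⟩ := H35P.SL_mem hG h n hn hT
      have h5 : s8_f r hr hG (.some x y h) = 0 := h0
      have h7 : s8_f r hr hG (.some x y h) = .some (r ⟨x, hx⟩) (r ⟨y, hy⟩)
          (s8_ns r hr hG ⟨x, hx⟩ ⟨y, hy⟩ h) := s8_f_some r hr hG ⟨x, hx⟩ ⟨y, hy⟩ h
      rw [h7] at h5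
      exact Affine.Point.some_ne_zero _ h5
  · intro x y h hT hx hy
    exact ⟨s8_ns r hr hG ⟨x, hx⟩ ⟨y, hy⟩ h, s8_f_some r hr hG ⟨x, hx⟩ ⟨y, hy⟩ h⟩

end H55P
end

-- from Lib.H55P.S10
section

open NumberField IsDedekindDomain WeierstrassCurve

namespace H55P

variable {F : Type} [Field F] [NumberField F] {Ω : Type} [Field Ω] [DecidableEq Ω] [Algebra F Ω]
  [IsAlgClosed Ω] [Algebra.IsAlgebraic F Ω] [CharZero Ω]

/-! Chunk PS10 (M). Good reduction and no point of order p on the reduced curve: no p-torsion point fixed by the decomposition group.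
good_below: the coefficients of W₀ are algebraic integers, so in V; Δ: Below. val_below: V.valuation (n) <= 1 for natural numbers and the case < 1 means n in v. 
fix_local: suppose T <> 0; T = (x, y) with x, y in V (torsion_int). x and y are fixed by the s in Dec V fixing M (ac W s T = T), so there are a, b in 𝓞 M congruent to x, y (res_descent). κ = the residue field of V, r the residue map (or any), ι : 𝓞 M / v → κ the induced injective homomorphism,
W' = (W₀⁄(𝓞 M ⧸ v)) mapped by ι. exists_red gives f with f T = (r x, r y) = (ι a, ι b) <> 0, p f T = 0. (a, b) is a point T' of the curve over the field 𝓞 M / v (injectivity of ι: Affine.map_equation, map_nonsingular), f T = the image of T' under the injective homomorphism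
Affine.Point.map (or the ring homomorphism version), so p T' = 0, T' <> 0: an element of order p in the finite group of points (finite field, v <> 0), so p divides its order (addOrderOf_dvd_natCard). -/

omit [DecidableEq Ω] [NumberField F] [IsAlgClosed Ω] [Algebra.IsAlgebraic F Ω] [CharZero Ω] in
theorem S10_mem (M : IntermediateField F Ω) (V : ValuationSubring Ω) (z : 𝓞 M) :
    ((z : M) : Ω) ∈ V := by
  rw [← V.valuation_le_one_iff]
  exact H16C.FR_le_one V (H16C.FR_isIntegral M z)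

omit [DecidableEq Ω] [NumberField F] [IsAlgClosed Ω] [Algebra.IsAlgebraic F Ω] [CharZero Ω] in
theorem S10_coe (M : IntermediateField F Ω) (z : 𝓞 F) :
    algebraMap F Ω (algebraMap (𝓞 F) F z) = ((algebraMap (𝓞 F) (𝓞 M) z : M) : Ω) := rfl

omit [DecidableEq Ω] [NumberField F] [IsAlgClosed Ω] [Algebra.IsAlgebraic F Ω] [CharZero Ω] in
theorem S10_val (M : IntermediateField F Ω) (V : ValuationSubring Ω) (v : HeightOneSpectrum (𝓞 M))
    (hv : Below V M v.asIdeal) (z : 𝓞 M) (hz : z ∉ v.asIdeal) : V.valuation ((z : M) : Ω) = 1 := by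
  refine le_antisymm ((V.valuation_le_one_iff _).2 (S10_mem M V z)) ?_
  rw [← not_lt]
  exact fun h => hz ((hv z).2 h)

theorem good_below (W₀ : WeierstrassCurve (𝓞 F)) (M : IntermediateField F Ω) (V : ValuationSubring Ω)
    (v : HeightOneSpectrum (𝓞 M)) (hv : Below V M v.asIdeal)
    (hΔ : algebraMap (𝓞 F) (𝓞 M) W₀.Δ ∉ v.asIdeal) : H35P.GoodW ((W₀⁄F)⁄Ω) V where
  a1 := S10_mem M V (algebraMap (𝓞 F) (𝓞 M) W₀.a₁)
  a2 := S10_mem M V (algebraMap (𝓞 F) (𝓞 M) W₀.a₂)
  a3 := S10_mem M V (algebraMap (𝓞 F) (𝓞 M) W₀.a₃)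
  a4 := S10_mem M V (algebraMap (𝓞 F) (𝓞 M) W₀.a₄)
  a6 := S10_mem M V (algebraMap (𝓞 F) (𝓞 M) W₀.a₆)
  disc := by
    have h1 : ((W₀⁄F)⁄Ω).Δ = ((algebraMap (𝓞 F) (𝓞 M) W₀.Δ : M) : Ω) := by
      exact (WeierstrassCurve.map_Δ (W₀⁄F) (algebraMap F Ω)).trans
        ((congrArg (algebraMap F Ω) (WeierstrassCurve.map_Δ W₀ (algebraMap (𝓞 F) F))).trans
          (S10_coe M W₀.Δ))
    rw [h1]
    exact S10_val M V v hv _ hΔ

theorem val_below (M : IntermediateField F Ω) (V : ValuationSubring Ω) (v : HeightOneSpectrum (𝓞 M))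
    (hv : Below V M v.asIdeal) (n : ℕ) (hn : (n : 𝓞 M) ∉ v.asIdeal) : V.valuation (n : Ω) = 1 := by
  have h := S10_val M V v hv _ hn
  have e1 : ((((n : ℕ) : 𝓞 M) : M) : Ω) = (n : Ω) := by simp
  rwa [e1] at h

theorem fix_local (W₀ : WeierstrassCurve (𝓞 F)) (p : ℕ) (hp : p.Prime) (M : IntermediateField F Ω)
    [FiniteDimensional F M] (V : ValuationSubring Ω) (v : HeightOneSpectrum (𝓞 M))
    (hv : Below V M v.asIdeal) (hΔ : algebraMap (𝓞 F) (𝓞 M) W₀.Δ ∉ v.asIdeal)
    (hpv : (p : 𝓞 M) ∉ v.asIdeal) (hc : ¬ p ∣ Nat.card (W₀⁄(𝓞 M ⧸ v.asIdeal)).toAffine.Point)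
    (T : Pt (W₀⁄F) Ω) (hT : p • T = 0)
    (hf : ∀ s ∈ M.fixingSubgroup, Dec V s → ac (W₀⁄F) s T = T) : T = 0 := by
  classical
  by_contra hT0
  have hG := good_below W₀ M V v hv hΔ
  have hpV := val_below M V v hv p hpv
  have hnf : NumberField M := H16C.FR_numberField M
  have hmax : v.asIdeal.IsMaximal := v.isMaximal
  let _ : Field (𝓞 M ⧸ v.asIdeal) := Ideal.Quotient.field v.asIdeal
  obtain ⟨r, hr⟩ : ∃ r : V →+* IsLocalRing.ResidueField V, r = IsLocalRing.residue V := ⟨_, rfl⟩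
  have hr0 : ∀ x : V, r x = 0 ↔ V.valuation (x : Ω) < 1 := by
    intro x
    rw [hr, IsLocalRing.residue_eq_zero_iff]
    exact V.valuation_lt_one_iff x
  obtain ⟨φ, hφ⟩ : ∃ φ : 𝓞 M →+* V, ∀ z, ((φ z : V) : Ω) = ((z : M) : Ω) :=
    ⟨((algebraMap M Ω).comp (algebraMap (𝓞 M) M)).codRestrict V.toSubring (S10_mem M V),
      fun z => rfl⟩
  have hker : ∀ z ∈ v.asIdeal, (r.comp φ) z = 0 := by
    intro z hz
    rw [RingHom.comp_apply, hr0, hφ]
    exact (hv z).1 hz
  obtain ⟨ι, hι⟩ : ∃ ι : (𝓞 M ⧸ v.asIdeal) →+* IsLocalRing.ResidueField V,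
      ∀ z, ι (Ideal.Quotient.mk v.asIdeal z) = r (φ z) :=
    ⟨Ideal.Quotient.lift v.asIdeal (r.comp φ) hker, fun z => Ideal.Quotient.lift_mk _ _ _⟩
  let algκ : Algebra (𝓞 F) (IsLocalRing.ResidueField V) :=
    (ι.comp (algebraMap (𝓞 F) (𝓞 M ⧸ v.asIdeal))).toAlgebra
  let ιA : (𝓞 M ⧸ v.asIdeal) →ₐ[𝓞 F] IsLocalRing.ResidueField V :=
    { ι with commutes' := fun z => rfl }
  have hcoef : ∀ (z : 𝓞 F) (h : algebraMap F Ω (algebraMap (𝓞 F) F z) ∈ V),
      r ⟨algebraMap F Ω (algebraMap (𝓞 F) F z), h⟩ =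
        algebraMap (𝓞 F) (IsLocalRing.ResidueField V) z := by
    intro z h
    have e1 : algebraMap (𝓞 F) (IsLocalRing.ResidueField V) z =
        ι (Ideal.Quotient.mk v.asIdeal (algebraMap (𝓞 F) (𝓞 M) z)) := rfl
    rw [e1, hι]
    congr 1
    apply Subtype.ext
    rw [hφ]
    rfl
  obtain ⟨f, hf0, hfs⟩ := exists_red hG r hr0 (W₀⁄(IsLocalRing.ResidueField V))
    (hcoef W₀.a₁ _) (hcoef W₀.a₂ _) (hcoef W₀.a₃ _) (hcoef W₀.a₄ _) (hcoef W₀.a₆ _) p hpV
  rcases T with _ | ⟨x, y, h⟩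
  · exact hT0 rfl
  obtain ⟨hx, hy⟩ := H35P.SL_mem hG h p hpV hT
  have hfix : ∀ s ∈ M.fixingSubgroup, Dec V s → s x = x ∧ s y = y := by
    intro s hs hd
    have h1 := hf s hs hd
    have h2 : ac (W₀⁄F) s (Affine.Point.some x y h) = Affine.Point.some (s x) (s y)
        ((Affine.baseChange_nonsingular (W := (W₀⁄F).toAffine) (f := s.toAlgHom)
          s.toAlgHom.injective ..).2 h) := rfl
    rw [h2] at h1
    simp only [Affine.Point.some.injEq] at h1
    exact h1
  obtain ⟨a, ha⟩ := res_descent M V v hv x hx fun s hs hd => (hfix s hs hd).1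
  obtain ⟨b, hb⟩ := res_descent M V v hv y hy fun s hs hd => (hfix s hs hd).2
  have hra : r ⟨x, hx⟩ = ι (Ideal.Quotient.mk v.asIdeal a) := by
    rw [hι, ← sub_eq_zero, ← map_sub, hr0]
    have e1 : ((⟨x, hx⟩ - φ a : V) : Ω) = x - ((a : M) : Ω) := by
      rw [← hφ]
      rfl
    rw [e1]
    exact ha
  have hrb : r ⟨y, hy⟩ = ι (Ideal.Quotient.mk v.asIdeal b) := by
    rw [hι, ← sub_eq_zero, ← map_sub, hr0]
    have e1 : ((⟨y, hy⟩ - φ b : V) : Ω) = y - ((b : M) : Ω) := by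
      rw [← hφ]
      rfl
    rw [e1]
    exact hb
  obtain ⟨h', hfT⟩ := hfs x y h hT hx hy
  have hns : (W₀⁄(𝓞 M ⧸ v.asIdeal)).toAffine.Nonsingular (Ideal.Quotient.mk v.asIdeal a)
      (Ideal.Quotient.mk v.asIdeal b) := by
    have h3 := h'
    rw [hra, hrb] at h3
    exact (Affine.baseChange_nonsingular (W := W₀.toAffine) (f := ιA) ι.injective _ _).1 h3
  have hmap : Affine.Point.map (W' := W₀.toAffine) ιA (Affine.Point.some _ _ hns) =
      f ⟨Affine.Point.some x y h, hT⟩ := by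
    rw [hfT]
    exact s8_some_congr hra.symm hrb.symm
  have hp0 : p • (Affine.Point.some _ _ hns : (W₀⁄(𝓞 M ⧸ v.asIdeal)).toAffine.Point) = 0 := by
    apply Affine.Point.map_injective (W' := W₀.toAffine) (f := ιA)
    rw [map_nsmul, hmap, ← map_nsmul, map_zero]
    have e2 : (p • (⟨Affine.Point.some x y h, hT⟩ :
        (nsmulAddMonoidHom p : Pt (W₀⁄F) Ω →+ Pt (W₀⁄F) Ω).ker)) = 0 := Subtype.ext hT
    rw [e2, map_zero]
  have hord : addOrderOf (Affine.Point.some _ _ hns : (W₀⁄(𝓞 M ⧸ v.asIdeal)).toAffine.Point) = p :=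
    addOrderOf_eq_prime hp0 (Affine.Point.some_ne_zero _) (hp := ⟨hp⟩)
  apply hc
  rw [← hord]
  exact addOrderOf_dvd_natCard _

end H55P
end

-- from Lib.H55P.S14
section

open NumberField IsDedekindDomain WeierstrassCurve

namespace H55P

variable {F : Type} [Field F] [NumberField F] {Ω : Type} [Field Ω] [DecidableEq Ω] [Algebra F Ω]
  [IsAlgClosed Ω] [Algebra.IsAlgebraic F Ω] [CharZero Ω]

/-! Assembly of the Selmer part: the tower theorem. -/

omit [NumberField F] [DecidableEq Ω] [IsAlgClosed Ω] [Algebra.IsAlgebraic F Ω] [CharZero Ω] in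
theorem fixing_anti {K L : IntermediateField F Ω} (h : K ≤ L) {s : Ω ≃ₐ[F] Ω}
    (hs : s ∈ L.fixingSubgroup) : s ∈ K.fixingSubgroup := by
  rw [IntermediateField.mem_fixingSubgroup_iff] at hs ⊢
  exact fun x hx => hs x (h hx)

omit [DecidableEq Ω] [IsAlgClosed Ω] [Algebra.IsAlgebraic F Ω] [CharZero Ω] in
/-- There is a valuation ring above each prime. -/
theorem exists_below (M : IntermediateField F Ω) [FiniteDimensional F M]
    (v : HeightOneSpectrum (𝓞 M)) : ∃ V : ValuationSubring Ω, Below V M v.asIdeal := by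
  have : NumberField M := H16C.FR_numberField M
  obtain ⟨A, hA⟩ := H16C.exists_above M v
  refine ⟨A, fun x => ?_⟩
  rcases eq_or_ne x 0 with rfl | hx
  · simp
  · rw [← H16A.ord_int_pos_iff v hx]
    exact ((hA (x : M) (by exact_mod_cast hx)).2.1).symm

/-- No p-torsion over M if there is a good prime without p-torsion. -/
theorem tors_of_prime (W₀ : WeierstrassCurve (𝓞 F)) (p : ℕ) (hp : p.Prime) (M : IntermediateField F Ω)
    [FiniteDimensional F M] (v : HeightOneSpectrum (𝓞 M))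
    (hΔ : algebraMap (𝓞 F) (𝓞 M) W₀.Δ ∉ v.asIdeal) (hpv : (p : 𝓞 M) ∉ v.asIdeal)
    (hc : ¬ p ∣ Nat.card (W₀⁄(𝓞 M ⧸ v.asIdeal)).toAffine.Point) (T : Pt (W₀⁄F) Ω) (hT : p • T = 0)
    (hf : ∀ s ∈ M.fixingSubgroup, ac (W₀⁄F) s T = T) : T = 0 := by
  obtain ⟨V, hV⟩ := exists_below M v
  exact fix_local W₀ p hp M V v hV hΔ hpv hc T hT fun s hs _ => hf s hs

/-- No p-torsion over the fields between M and L. -/
theorem tors_tower (W : WeierstrassCurve F) [W.IsElliptic] (p : ℕ) (hp : p.Prime)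
    (M L : IntermediateField F Ω) (hL : PExt p M L)
    (h0 : ∀ T : Pt W Ω, p • T = 0 → (∀ s ∈ M.fixingSubgroup, ac W s T = T) → T = 0)
    (K : IntermediateField F Ω) (hKL : K ≤ L) (T : Pt W Ω) (hT : p • T = 0)
    (hf : ∀ s ∈ K.fixingSubgroup, ac W s T = T) : T = 0 := by
  obtain ⟨k, hk⟩ := hL.pow p hp M L
  exact fix_up (acR W) p hp (tors_fin (Ω := Ω) W p hp.pos) L.fixingSubgroup M.fixingSubgroup
    (fun s hs => fixing_anti hL.le hs) (fun s hs t ht => hL.conj p M L s hs t ht) k hk h0 T hT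
    fun s hs => hf s (fixing_anti hKL hs)

theorem sel_tower (W₀ : WeierstrassCurve (𝓞 F)) [(W₀⁄F).IsElliptic] (p : ℕ) (hp : p.Prime)
    (M L : IntermediateField F Ω) (hL : PExt p M L)
    (h0 : ∀ T : Pt (W₀⁄F) Ω, p • T = 0 → (∀ s ∈ M.fixingSubgroup, ac (W₀⁄F) s T = T) → T = 0)
    (hram : ∀ v : HeightOneSpectrum (𝓞 M), Ram M L v.asIdeal →
      algebraMap (𝓞 F) (𝓞 M) W₀.Δ ∉ v.asIdeal ∧ (p : 𝓞 M) ∉ v.asIdeal ∧
        ¬ p ∣ Nat.card (W₀⁄(𝓞 M ⧸ v.asIdeal)).toAffine.Point)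
    (hS : SelZero (W₀⁄F) p M) (K : IntermediateField F Ω) (hMK : M ≤ K) (hKL : K ≤ L) :
    SelZero (W₀⁄F) p K := by
  have hLf : FiniteDimensional F L := hL.fin
  have hMf : FiniteDimensional F M :=
    (Module.Finite.of_injective (IntermediateField.inclusion hL.le).toLinearMap
      (IntermediateField.inclusion hL.le).injective)
  obtain ⟨k, hk⟩ := hL.pow p hp M L
  have hconj : ∀ s ∈ M.fixingSubgroup, ∀ t ∈ L.fixingSubgroup, s * t * s⁻¹ ∈ L.fixingSubgroup :=
    fun s hs t ht => hL.conj p M L s hs t ht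
  have hfin := tors_fin (Ω := Ω) (W₀⁄F) p hp.pos
  -- no torsion over L
  have htL : ∀ T : Pt (W₀⁄F) Ω, p • T = 0 → (∀ s ∈ L.fixingSubgroup, ac (W₀⁄F) s T = T) → T = 0 := by
    intro T hT hf
    exact fix_up (acR (W₀⁄F)) p hp hfin L.fixingSubgroup M.fixingSubgroup
      (fun s hs => fixing_anti hL.le hs) hconj k hk h0 T hT hf
  induction hn : Module.finrank F K using Nat.strong_induction_on generalizing K with
  | _ n ih =>
    rcases eq_or_ne K M with rfl | hne
    · exact hS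
    obtain ⟨N, hMN, hNK, hdeg, hnorm⟩ := chain_step p hp M K L hL hMK hKL hne
    have hKf : FiniteDimensional F K :=
      (Module.Finite.of_injective (IntermediateField.inclusion hKL).toLinearMap
        (IntermediateField.inclusion hKL).injective)
    have hNf : FiniteDimensional F N :=
      (Module.Finite.of_injective (IntermediateField.inclusion hNK).toLinearMap
        (IntermediateField.inclusion hNK).injective)
    have hNpos : 0 < Module.finrank F N := Module.finrank_pos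
    have hlt : Module.finrank F N < n := by
      rw [← hn, hdeg]
      exact lt_mul_of_one_lt_right hNpos hp.one_lt
    have hSN := ih _ hlt N hMN (hNK.trans hKL) rfl
    refine sel_step (W₀⁄F) p hp N K hNK hnorm hdeg
      (fun T hT hf => htL T hT fun s hs => hf s (fixing_anti hKL hs)) (fun V => ?_) hSN
    rcases below_cases M V with ⟨v, hv⟩ | htriv
    · by_cases hr : Ram M L v.asIdeal
      · right
        obtain ⟨hΔ, hpv, hc⟩ := hram v hr
        refine ⟨fun s _ hI P hP => ?_, fun T hT hf => ?_⟩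
        · exact red_fix (W₀⁄F) V (good_below W₀ M V v hv hΔ) p (val_below M V v hv p hpv) s hI P hP
        · refine fix_up (acR (W₀⁄F)) p hp hfin (L.fixingSubgroup ⊓ decS F V)
            (M.fixingSubgroup ⊓ decS F V) ?_ ?_ k ?_ ?_ T hT ?_
          · exact inf_le_inf_right _ fun s hs => fixing_anti hL.le hs
          · intro s hs t ht
            exact ⟨hconj s hs.1 t ht.1,
              (decS F V).mul_mem ((decS F V).mul_mem hs.2 ht.2) ((decS F V).inv_mem hs.2)⟩
          · intro s hs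
            exact ⟨hk s hs.1, (decS F V).pow_mem hs.2 _⟩
          · intro T' hT' hf'
            exact fix_local W₀ p hp M V v hv hΔ hpv hc T' hT' fun s hs hd => hf' s ⟨hs, hd⟩
          · intro s hs
            exact hf s (fixing_anti (hNK.trans hKL) hs.1) hs.2
      · left
        intro s hs hI
        refine fixing_anti hKL (inert_mem M L hL.le hL.norm V ?_ s (fixing_anti hMN hs) hI)
        intro v' hv' hr'
        apply hr
        have : v' = v := by
          apply HeightOneSpectrum.ext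
          ext x
          rw [hv' x, hv x]
        rwa [← this]
    · left
      intro s _ hI
      rw [htriv s hI]
      exact one_mem _

end H55P
end

-- from Lib.H55P.S6
section

open NumberField IsDedekindDomain WeierstrassCurve

namespace H55P

variable {F : Type} [Field F] [NumberField F] {Ω : Type} [Field Ω] [DecidableEq Ω] [Algebra F Ω]
  [IsAlgClosed Ω] [Algebra.IsAlgebraic F Ω] [CharZero Ω]

/-! Chunk PS6 (S/M). Consequences of SelZero.
pts_div: Q with p Q = P (div_pt), c s = ac W s Q - Q, a cocycle, killed by p, continuous (pt_open), locally trivial with the point Q. So c s = ac W s T - T with p T = 0: Q - T. sha_zero: Q = p R, c' s = c s - (ac W s R - R): killed by p,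
continuous, trivial on inertia (inert_dec, point P - R); c' s = ac W s T - T; the point T + R. pts_fin: M = Pt W K is a finitely generated ℤ-module (mw) with p M = M (fix_iff, pts_div, injectivity of the map): by Nakayama (Submodule.exists_sub_one_mem_and_smul_eq_zero_of_fg_of_le_smul with
the ideal (p)) there is r = 1 mod p with r M = 0, so M is finite (finitely generated torsion: Module.finite_of_fg_torsion or AddCommGroup.finite_of_fg_torsion) and has no element of order p (Cauchy: exists_prime_addOrderOf_dvd_card). -/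

omit [NumberField F] [DecidableEq Ω] [IsAlgClosed Ω] [Algebra.IsAlgebraic F Ω] [CharZero Ω] in
theorem ps6_fix {K : IntermediateField F Ω} {s : Ω ≃ₐ[F] Ω} {L : IntermediateField F Ω}
    (h : s ∈ (K ⊔ L).fixingSubgroup) : s ∈ K.fixingSubgroup ∧ s ∈ L.fixingSubgroup :=
  ⟨IntermediateField.fixingSubgroup_antitone le_sup_left h,
    IntermediateField.fixingSubgroup_antitone le_sup_right h⟩

omit [NumberField F] [IsAlgClosed Ω] [CharZero Ω] in
theorem ps6_cob (W : WeierstrassCurve F) (K : IntermediateField F Ω) (Q : Pt W Ω) :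
    Coc W K fun s => ac W s Q - Q := by
  constructor
  · intro s _ t _
    have h1 : ac W (s * t) Q = ac W s (ac W t Q) := by
      rw [← acR_apply, ← acR_apply, ← acR_apply, map_mul]
      rfl
    rw [h1, map_sub]
    abel
  · obtain ⟨L, hL, h⟩ := pt_open W Q
    exact ⟨L, hL, fun s _ hs => by rw [h s hs, sub_self]⟩

omit [NumberField F] [IsAlgClosed Ω] [CharZero Ω] [Algebra.IsAlgebraic F Ω] in
theorem ps6_sub (W : WeierstrassCurve F) (K : IntermediateField F Ω) {c d : (Ω ≃ₐ[F] Ω) → Pt W Ω}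
    (hc : Coc W K c) (hd : Coc W K d) : Coc W K fun s => c s - d s := by
  constructor
  · intro s hs t ht
    rw [hc.mul s hs t ht, hd.mul s hs t ht, map_sub]
    abel
  · obtain ⟨L, hL, h⟩ := hc.cont
    obtain ⟨L', hL', h'⟩ := hd.cont
    refine ⟨L ⊔ L', inferInstance, fun s hs hs' => ?_⟩
    obtain ⟨h1, h2⟩ := ps6_fix hs'
    rw [h s hs h1, h' s hs h2, sub_self]

theorem pts_div (W : WeierstrassCurve F) [W.IsElliptic] (p : ℕ) (hp : p.Prime) (K : IntermediateField F Ω)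
    (hS : SelZero W p K) (P : Pt W Ω) (hP : ∀ s ∈ K.fixingSubgroup, ac W s P = P) :
    ∃ Q : Pt W Ω, p • Q = P ∧ ∀ s ∈ K.fixingSubgroup, ac W s Q = Q := by
  obtain ⟨Q, hQ⟩ := div_pt W p hp.pos P
  obtain ⟨T, hT, hT'⟩ := hS (fun s => ac W s Q - Q) (ps6_cob W K Q) (fun s hs => by
    rw [smul_sub, ← map_nsmul, hQ, hP s hs, sub_self]) fun V => ⟨Q, fun s _ _ => rfl⟩
  refine ⟨Q - T, ?_, fun s hs => ?_⟩
  · rw [smul_sub, hQ, hT, sub_zero]
  · rw [map_sub]
    have h1 : ac W s Q - Q = ac W s T - T := hT' s hs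
    rw [sub_eq_sub_iff_sub_eq_sub] at h1
    exact h1

theorem sha_zero (W : WeierstrassCurve F) [W.IsElliptic] (p : ℕ) (hp : p.Prime) (K : IntermediateField F Ω)
    (hS : SelZero W p K) : ShaZero W p K := by
  rintro c hc ⟨Q, hQ⟩ hloc
  obtain ⟨R, hR⟩ := div_pt W p hp.pos Q
  obtain ⟨T, hT, hT'⟩ := hS (fun s => c s - (ac W s R - R)) (ps6_sub W K hc (ps6_cob W K R))
    (fun s hs => by
      rw [smul_sub, hQ s hs, smul_sub, ← map_nsmul, hR, sub_self]) fun V => by
    by_cases hV : V = ⊤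
    · refine ⟨0, fun s hs hi => ?_⟩
      have h1 : s = 1 := by
        refine AlgEquiv.ext fun x => ?_
        have h2 := hi x (hV ▸ ValuationSubring.mem_top x)
        rw [hV] at h2
        have h3 : s x - x = 0 := by
          by_contra h3
          have h4 : (⊤ : ValuationSubring Ω).valuation (s x - x)⁻¹ ≤ 1 :=
            ((⊤ : ValuationSubring Ω).valuation_le_one_iff _).2 (ValuationSubring.mem_top _)
          rw [map_inv₀] at h4
          have h5 : 1 < ((⊤ : ValuationSubring Ω).valuation (s x - x))⁻¹ :=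
            (one_lt_inv₀ (by
              rw [Valuation.pos_iff]
              exact h3)).2 h2
          exact absurd h4 (not_le.2 h5)
        exact sub_eq_zero.1 h3
      have h2 : c 1 = 0 := by
        have h3 := hc.mul 1 (one_mem _) 1 (one_mem _)
        rw [one_mul] at h3
        have h4 : ac W (1 : Ω ≃ₐ[F] Ω) (c 1) = c 1 := by
          cases c 1 <;> rfl
        rw [h4] at h3
        exact left_eq_add.1 h3
      have h5 : ∀ P : Pt W Ω, ac W (1 : Ω ≃ₐ[F] Ω) P = P := fun P => by cases P <;> rfl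
      subst h1
      show c 1 - (ac W 1 R - R) = _
      rw [h2, h5, h5, sub_self, sub_self]
    obtain ⟨P, hP⟩ := hloc V hV
    refine ⟨P - R, fun s hs hi => ?_⟩
    show c s - (ac W s R - R) = _
    rw [hP s hs (inert_dec V s hi), map_sub]
    abel
  refine ⟨T + R, fun s hs => ?_⟩
  have h1 : c s - (ac W s R - R) = ac W s T - T := hT' s hs
  rw [map_add, sub_eq_iff_eq_add.1 h1]
  abel

theorem pts_fin (W : WeierstrassCurve F) [W.IsElliptic] (p : ℕ) (hp : p.Prime) (K : IntermediateField F Ω)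
    [FiniteDimensional F K] [DecidableEq K] (hS : SelZero W p K) :
    Finite (Pt W K) ∧ ¬ p ∣ Nat.card (Pt W K) := by
  have hN : NumberField K := NumberField.of_module_finite F K
  have hfg : Module.Finite ℤ (Pt W K) := mw W K
  have hinj : Function.Injective (Affine.Point.map (W' := W.toAffine) K.val) :=
    Affine.Point.map_injective _
  have hdiv : ∀ P : Pt W K, ∃ Q : Pt W K, p • Q = P := by
    intro P
    obtain ⟨Q', hQ', hQ2⟩ := pts_div W p hp K hS (Affine.Point.map (W' := W.toAffine) K.val P)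
      ((fix_iff W K _).2 ⟨P, rfl⟩)
    obtain ⟨Q, hQ⟩ := (fix_iff W K Q').1 hQ2
    refine ⟨Q, hinj ?_⟩
    rw [map_nsmul, hQ, hQ']
  obtain ⟨r, hr, hr'⟩ := Submodule.exists_sub_one_mem_and_smul_eq_zero_of_fg_of_le_smul
    (Ideal.span {(p : ℤ)}) (⊤ : Submodule ℤ (Pt W K)) hfg.fg_top (by
      intro P _
      obtain ⟨Q, hQ⟩ := hdiv P
      rw [← hQ, ← natCast_zsmul]
      exact Submodule.smul_mem_smul (Ideal.mem_span_singleton_self _) Submodule.mem_top)
  have hr0 : r ≠ 0 := by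
    rintro rfl
    rw [Ideal.mem_span_singleton, zero_sub, dvd_neg] at hr
    exact hp.one_lt.ne' (by exact_mod_cast Int.natAbs_dvd_natAbs.2 hr |> Nat.dvd_one.1)
  have hfin : Finite (Pt W K) := by
    have h1 : AddGroup.FG (Pt W K) := Module.Finite.iff_addGroup_fg.1 inferInstance
    refine AddCommGroup.finite_of_fg_isAddTorsion _ fun P => ?_
    rw [isOfFinAddOrder_iff_zsmul_eq_zero]
    exact ⟨r, hr0, hr' P Submodule.mem_top⟩
  refine ⟨hfin, fun hd => ?_⟩
  haveI := Fact.mk hp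
  obtain ⟨P, hP⟩ := exists_prime_addOrderOf_dvd_card' (G := Pt W K) p hd
  have hsurj : Function.Surjective fun Q : Pt W K => p • Q := hdiv
  have hinj' := Finite.injective_iff_surjective.2 hsurj
  have h1 : p • P = 0 := by
    rw [← hP]
    exact addOrderOf_nsmul_eq_zero P
  have h2 : P = 0 := hinj' (by
    show p • P = p • 0
    rw [h1, smul_zero])
  rw [h2, addOrderOf_zero] at hP
  exact hp.one_lt.ne hP

end H55P
end

-- from Lib.H13S.LU
section

open NumberField IsDedekindDomain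

namespace H13S

open H55P H28G H55B

/-- Every integral element is congruent to an l-th power modulo a prime above l. -/
theorem lu_frob {L : Type} [Field L] [NumberField L] (w : HeightOneSpectrum (𝓞 L)) (l : ℕ)
    (hl : l.Prime) (hlw : (l : 𝓞 L) ∈ w.asIdeal) (u : L) (hu : w.valuation L u ≤ 1) :
    ∃ b : L, w.valuation L (u - b ^ l) < 1 := by
  obtain ⟨u₀, hu₀⟩ := w.exists_valuation_sub_lt_of_integer hu 1
  have hm := w.isMaximal
  let k := 𝓞 L ⧸ w.asIdeal
  let _ : Field k := Ideal.Quotient.field w.asIdeal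
  have hfin : Finite k := Ring.HasFiniteQuotients.finiteQuotient w.ne_bot
  have hch : CharP k l := by
    rw [CharP.charP_iff_prime_eq_zero hl, ← map_natCast (Ideal.Quotient.mk w.asIdeal),
      Ideal.Quotient.eq_zero_iff_mem]
    exact hlw
  have hF : Fact l.Prime := ⟨hl⟩
  obtain ⟨b', hb'⟩ := surjective_frobenius k l (Ideal.Quotient.mk w.asIdeal u₀)
  obtain ⟨b, rfl⟩ := Ideal.Quotient.mk_surjective b'
  rw [frobenius_def, ← map_pow, eq_comm, ← sub_eq_zero, ← map_sub, Ideal.Quotient.eq_zero_iff_mem] at hb'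
  refine ⟨algebraMap (𝓞 L) L b, ?_⟩
  have h1 : w.valuation L (algebraMap (𝓞 L) L (u₀ - b ^ l)) < 1 := (w.valuation_lt_one_iff_mem _).2 hb'
  have h2 : w.valuation L (algebraMap (𝓞 L) L u₀ - u) < 1 := by
    simpa using hu₀
  have e : u - algebraMap (𝓞 L) L b ^ l =
      algebraMap (𝓞 L) L (u₀ - b ^ l) - (algebraMap (𝓞 L) L u₀ - u) := by
    rw [map_sub, map_pow]
    ring
  rw [e]
  exact Valuation.map_sub_lt _ h1 h2

theorem lu_exp {x : WithZero (Multiplicative ℤ)} (hx : x < 1) : x ≤ WithZero.exp (-1 : ℤ) := by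
  by_cases h0 : x = 0
  · rw [h0]
    exact zero_le
  · rw [← WithZero.exp_log h0] at hx ⊢
    rw [← WithZero.exp_zero, WithZero.exp_lt_exp] at hx
    rw [WithZero.exp_le_exp]
    omega

/-- Chunk LU (M). The level of a Kummer generator fixed by inertia, at a prime w above l. value_fixed: V.valuation y = V.valuation a, a in L; y₁ = y/a, u = y₁^l = m/a^l is a w-unit. The residue field of w is finite of
characteristic l, so its Frobenius is surjective: b in L, a w-unit, with w.valuation (u - b^l) < 1. y₂ = y₁/b: y₂^l = u/b^l =: u₂, V.valuation (u₂ - 1) < 1, so V.valuation (y₂ - 1) < 1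
((y₂ - 1)^l = y₂^l - 1 modulo l). Z = y₂ - 1 is fixed by the inertia group over L; if Z = 0 take z = a b. Otherwise value_fixed: V.valuation Z is the value of an element of L, < 1, so at most
the value of a uniformizer t of w. u₂ - 1 = (1 + Z)^l - 1 = Z^l + l Z (...): value at most max(value t^l, value l * value t) ≤ (value t)^2, as l ≥ 2 and value l ≤ value t. z = a b. -/
theorem level_unr {F₀ : Type} [Field F₀] [NumberField F₀] {Ω : Type} [Field Ω] [Algebra F₀ Ω]
    [IsAlgClosure F₀ Ω] (L : IntermediateField F₀ Ω) [NumberField L] (V : ValuationSubring Ω)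
    (w : HeightOneSpectrum (𝓞 L)) (hw : Abv L V w) (l : ℕ) (hl : l.Prime) (hV : V.valuation (l : Ω) < 1) (m : L)
    (hm : m ≠ 0) (y : Ω) (hy : y ^ l = (m : Ω)) (h : ∀ s ∈ L.fixingSubgroup, Inert V s → s y = y) :
    ∃ z : L, z ≠ 0 ∧ w.valuation L (m / z ^ l - 1) ≤ WithZero.exp (-2 : ℤ) := by
  have hl0 : l ≠ 0 := hl.ne_zero
  have hmΩ : (m : Ω) ≠ 0 := fun h0 => hm (Subtype.ext h0)
  have hy0 : y ≠ 0 := by
    rintro rfl
    rw [zero_pow hl0] at hy
    exact hmΩ hy.symm
  obtain ⟨a, ha, hya⟩ := value_fixed L V y hy0 h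
  have haΩ : (a : Ω) ≠ 0 := fun h0 => ha (Subtype.ext h0)
  have hva : V.valuation (a : Ω) ≠ 0 := (Valuation.ne_zero_iff _).2 haΩ
  set u : L := m / a ^ l with hu
  have huΩ : ((u : L) : Ω) = y ^ l / (a : Ω) ^ l := by
    rw [hu, hy]
    push_cast
    rfl
  have hvu : V.valuation ((u : L) : Ω) = 1 := by
    rw [huΩ, map_div₀, map_pow, map_pow, hya, div_self (pow_ne_zero _ hva)]
  have h1Ω : (((1 : L) : L) : Ω) = 1 := rfl
  have hwu : w.valuation L u = 1 := by
    refine le_antisymm ?_ ?_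
    · have := (hw.le u 1).1 (by rw [hvu, h1Ω, map_one])
      rwa [map_one] at this
    · have := (hw.le 1 u).1 (by rw [hvu, h1Ω, map_one])
      rwa [map_one] at this
  have hlL : (((l : L) : L) : Ω) = (l : Ω) := by push_cast; rfl
  have hwl : w.valuation L (l : L) < 1 := (hw.lt _).1 (by rw [hlL]; exact hV)
  have hlw : (l : 𝓞 L) ∈ w.asIdeal := by
    rw [← w.valuation_lt_one_iff_mem (K := L)]
    change w.valuation L (algebraMap (𝓞 L) L (l : 𝓞 L)) < 1
    rw [map_natCast]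
    exact hwl
  obtain ⟨b, hb⟩ := lu_frob w l hl hlw u hwu.le
  have hwbl : w.valuation L (b ^ l) = 1 := by
    have e : b ^ l = u + -(u - b ^ l) := by ring
    rw [e, Valuation.map_add_eq_of_lt_left, hwu]
    rw [Valuation.map_neg, hwu]
    exact hb
  have hb0 : b ≠ 0 := by
    rintro rfl
    rw [zero_pow hl0, map_zero] at hwbl
    exact zero_ne_one hwbl
  have hbΩ : (b : Ω) ≠ 0 := fun h0 => hb0 (Subtype.ext h0)
  have hvbl : V.valuation ((b : Ω) ^ l) = 1 := by
    have e : (((b ^ l : L) : L) : Ω) = (b : Ω) ^ l := by push_cast; rfl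
    rw [← e]
    refine le_antisymm ?_ ?_
    · have := (hw.le (b ^ l) 1).2 (by rw [hwbl, map_one])
      rwa [h1Ω, map_one] at this
    · have := (hw.le 1 (b ^ l)).2 (by rw [hwbl, map_one])
      rwa [h1Ω, map_one] at this
  have hvb : V.valuation (b : Ω) = 1 := by
    rw [map_pow] at hvbl
    exact (pow_eq_one_iff.1 hvbl).resolve_right hl0
  set z : L := a * b with hz
  have hz0 : z ≠ 0 := mul_ne_zero ha hb0
  have hzΩ : (z : Ω) = (a : Ω) * b := rfl
  have hzΩ0 : (z : Ω) ≠ 0 := by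
    rw [hzΩ]
    exact mul_ne_zero haΩ hbΩ
  set D : L := m / z ^ l - 1 with hD
  have hDu : D = (u - b ^ l) / b ^ l := by
    rw [hD, hu, hz, mul_pow]
    field_simp
  have hwD : w.valuation L D < 1 := by
    rw [hDu, map_div₀, hwbl, div_one]
    exact hb
  have hvD : V.valuation ((D : L) : Ω) < 1 := (hw.lt D).2 hwD
  set Z : Ω := y / z - 1 with hZ
  have hvy2 : V.valuation (y / z) = 1 := by
    rw [hzΩ, map_div₀, map_mul, hvb, mul_one, hya, div_self hva]
  have hZV : Z ∈ V := by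
    rw [← V.valuation_le_one_iff]
    exact Valuation.map_sub_le _ hvy2.le (by rw [map_one])
  obtain ⟨r, hr⟩ := exists_add_pow_prime_eq hl (⟨Z, hZV⟩ : V) 1
  have hrΩ : (Z + 1) ^ l = Z ^ l + 1 + l * Z * r := by
    have := congrArg (fun x : V => (x : Ω)) hr
    push_cast at this
    rw [one_pow, mul_one] at this
    exact this
  have hDΩ : ((D : L) : Ω) = Z ^ l + l * Z * r := by
    have e1 : ((D : L) : Ω) = (y / z) ^ l - 1 := by
      rw [hD, div_pow, hy]
      push_cast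
      rfl
    have e2 : y / (z : Ω) = Z + 1 := by rw [hZ]; ring
    rw [e1, e2, hrΩ]
    ring
  have hvZ : V.valuation Z < 1 := by
    have hvZ1 : V.valuation Z ≤ 1 := (V.valuation_le_one_iff _).2 hZV
    have hvr : V.valuation (r : Ω) ≤ 1 := (V.valuation_le_one_iff _).2 r.2
    have e1 : V.valuation (l * Z * r) < 1 := by
      rw [map_mul, map_mul]
      calc V.valuation (l : Ω) * V.valuation Z * V.valuation (r : Ω) ≤ V.valuation (l : Ω) * 1 * 1 :=
            mul_le_mul' (mul_le_mul' le_rfl hvZ1) hvr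
        _ < 1 := by rw [mul_one, mul_one]; exact hV
    have e2 : V.valuation (Z ^ l) < 1 := by
      have e3 : Z ^ l = ((D : L) : Ω) - l * Z * r := by rw [hDΩ]; ring
      rw [e3]
      exact Valuation.map_sub_lt _ hvD e1
    rw [map_pow] at e2
    exact lt_of_not_ge fun h5 => not_lt.2 (one_le_pow_of_one_le' h5 l) e2
  refine ⟨z, hz0, ?_⟩
  rw [← hD]
  by_cases hZ0 : Z = 0
  · have hD0 : ((D : L) : Ω) = 0 := by
      rw [hDΩ, hZ0, zero_pow hl0]
      ring
    have hD0' : D = 0 := Subtype.ext hD0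
    rw [hD0', map_zero]
    exact zero_le
  · have hfix : ∀ s ∈ L.fixingSubgroup, Inert V s → s Z = Z := by
      intro s hs hs'
      have e1 : s (z : Ω) = z := (IntermediateField.mem_fixingSubgroup_iff L s).1 hs _ z.2
      rw [hZ, map_sub, map_div₀, h s hs hs', e1, map_one]
    obtain ⟨a', ha', hZa⟩ := value_fixed L V Z hZ0 hfix
    have hwa' : w.valuation L a' < 1 := (hw.lt a').1 (by rw [← hZa]; exact hvZ)
    have h6 := lu_exp hwa'
    have h7 := lu_exp hwl
    have hvr : V.valuation (r : Ω) ≤ 1 := (V.valuation_le_one_iff _).2 r.2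
    have hmax : V.valuation ((D : L) : Ω) ≤
        max (V.valuation (((a' ^ 2 : L) : L) : Ω)) (V.valuation (((l * a' : L) : L) : Ω)) := by
      rw [hDΩ]
      have e2 : (((a' ^ 2 : L) : L) : Ω) = (a' : Ω) ^ 2 := by push_cast; rfl
      have e3 : (((l * a' : L) : L) : Ω) = (l : Ω) * (a' : Ω) := by push_cast; rfl
      rw [e2, e3]
      refine Valuation.map_add_le _ (le_max_of_le_left ?_) (le_max_of_le_right ?_)
      · rw [map_pow, map_pow, hZa]
        rw [hZa] at hvZ
        exact pow_le_pow_right_of_le_one' hvZ.le hl.two_le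
      · rw [map_mul, map_mul, map_mul, hZa]
        calc _ ≤ V.valuation (l : Ω) * V.valuation (a' : Ω) * 1 := mul_le_mul' le_rfl hvr
          _ = _ := mul_one _
    have hexp : WithZero.exp (-2 : ℤ) = WithZero.exp (-1 : ℤ) * WithZero.exp (-1 : ℤ) := by
      rw [← WithZero.exp_add]
      norm_num
    rw [hexp]
    rcases max_choice (V.valuation (((a' ^ 2 : L) : L) : Ω)) (V.valuation (((l * a' : L) : L) : Ω)) with
      hc | hc
    · rw [hc] at hmax
      have h8 := (hw.le D (a' ^ 2)).1 hmax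
      rw [map_pow, sq] at h8
      exact h8.trans (mul_le_mul' h6 h6)
    · rw [hc] at hmax
      have h8 := (hw.le D (l * a')).1 hmax
      rw [map_mul] at h8
      exact h8.trans (mul_le_mul' h7 h6)

end H13S
end

-- from Lib.H13S.OR1
section

open NumberField IsDedekindDomain

namespace H13S

open H55P H28G H55B

/-- Chunk OR1 (S). value_fixed: V.valuation y = V.valuation a, so V.valuation m = V.valuation (a^l); Abv.le: w.valuation m = w.valuation (a^l) =
(w.valuation a)^l, w.valuation a = exp k. -/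
theorem ord_of_unr {F₀ : Type} [Field F₀] [NumberField F₀] {Ω : Type} [Field Ω] [Algebra F₀ Ω]
    [IsAlgClosure F₀ Ω] (L : IntermediateField F₀ Ω) [NumberField L] (V : ValuationSubring Ω)
    (w : HeightOneSpectrum (𝓞 L)) (hw : Abv L V w) (l : ℕ) (m : L) (hm : m ≠ 0) (y : Ω)
    (hy : y ^ l = (m : Ω)) (h : ∀ s ∈ L.fixingSubgroup, Inert V s → s y = y) :
    ∃ k : ℤ, w.valuation L m = WithZero.exp ((l : ℤ) * k) := by
  by_cases hl : l = 0
  · subst hl
    have h1 : m = 1 := Subtype.ext (by rw [← hy, pow_zero]; rfl)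
    refine ⟨0, ?_⟩
    rw [h1, map_one, mul_zero, WithZero.exp_zero]
  have hy0 : y ≠ 0 := by
    rintro rfl
    rw [zero_pow hl] at hy
    exact hm (Subtype.ext hy.symm)
  obtain ⟨a, ha0, ha⟩ := value_fixed L V y hy0 h
  have h1 : V.valuation (m : Ω) = V.valuation ((a ^ l : L) : Ω) := by
    rw [← hy, map_pow, ha]
    exact (map_pow V.valuation (a : Ω) l).symm
  have h2 : w.valuation L m = w.valuation L (a ^ l) :=
    le_antisymm ((hw.le m (a ^ l)).1 h1.le) ((hw.le (a ^ l) m).1 h1.ge)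
  have h3 : w.valuation L a ≠ 0 := (Valuation.ne_zero_iff _).2 ha0
  refine ⟨WithZero.log (w.valuation L a), ?_⟩
  rw [h2, map_pow]
  conv_lhs => rw [← WithZero.exp_log h3]
  rw [← WithZero.exp_nsmul, nsmul_eq_mul]

end H13S
end

-- from Lib.H28R.Defs_T
section

/-!
# H28R: realisation of p-groups over F = Q(om), p >= 5 (definitions)

See PROOF.md.
-/

open NumberField IsDedekindDomain

namespace H28R

open H55B (F O om Prim gen)
open H55P H55R


/-- K/F is Galois of p-power degree, unramified outside the good primes, and all ramified primes have norm greater than B. -/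
def PB (p : ℕ) (K : Type) [Field K] [NumberField K] [Algebra F K] (B : ℕ) : Prop :=
  ExtP p K ∧ ∀ w : HeightOneSpectrum (𝓞 K), w.asIdeal.ramificationIdx O ≠ 1 →
    B < Ideal.absNorm w.asIdeal

/-- All primes of F above the number l are good. -/
def GoodL (p l : ℕ) : Prop := ∀ v : HeightOneSpectrum O, (l : O) ∈ v.asIdeal → GoodP p v






/-! ### The wreath step -/

/-- The automorphisms over F₀ which fix ζ. -/
def FixZ (F₀ : Type) {E : Type} [Field F₀] [Field E] [Algebra F₀ E] (ζ : E) :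
    Subgroup (E ≃ₐ[F₀] E) where
  carrier := {σ | σ ζ = ζ}
  mul_mem' := by
    intro a b ha hb
    show a (b ζ) = ζ
    rw [show b ζ = ζ from hb]
    exact ha
  one_mem' := rfl
  inv_mem' := by
    intro a ha
    show a.symm ζ = ζ
    rw [AlgEquiv.symm_apply_eq]
    exact (show a ζ = ζ from ha).symm

theorem mem_FixZ {F₀ E : Type} [Field F₀] [Field E] [Algebra F₀ E] {ζ : E} {σ : E ≃ₐ[F₀] E} :
    σ ∈ FixZ F₀ ζ ↔ σ ζ = ζ := Iff.rfl

/-- C = K(ζ), ζ a primitive p-th root of unity, K/F Galois of p-power degree: the group of C/F is the direct product of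
FixZ F ζ (isomorphic to the group of K/F) and the group of C/K. -/
structure Cyc (p : ℕ) (K C : Type) [Field K] [NumberField K] [Field C] [NumberField C]
    [Algebra F K] [Algebra F C] [Algebra K C] [IsScalarTower F K C] (ζ : C) : Prop where
  galK : IsGalois F K
  gal : IsGalois F C
  prim : IsPrimitiveRoot ζ p
  gen : ∀ σ : C ≃ₐ[K] C, σ ζ = ζ → σ = 1
  deg : Module.finrank K C ∣ p - 1
  pow : ∃ k : ℕ, Module.finrank F K = p ^ k
  iso : ∃ e : FixZ F ζ ≃* (K ≃ₐ[F] K), ∀ (σ : FixZ F ζ) (x : K),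
    (σ : C ≃ₐ[F] C) (algebraMap K C x) = algebraMap K C (e σ x)
  comm : ∀ (σ : FixZ F ζ) (δ : C ≃ₐ[K] C) (x : C),
    (σ : C ≃ₐ[F] C) (δ x) = δ ((σ : C ≃ₐ[F] C) x)
  dec : ∀ s : C ≃ₐ[F] C, ∃ (σ : FixZ F ζ) (δ : C ≃ₐ[K] C), ∀ x : C, s x = (σ : C ≃ₐ[F] C) (δ x)

/-- The prime w of C has degree one over F, is unramified over F, lies over a good prime, and has norm greater than B. -/
structure Nice (p : ℕ) (C : Type) [Field C] [NumberField C] [Algebra F C] (B : ℕ) (w : Pl C) :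
    Prop where
  deg : w.asIdeal.inertiaDeg O = 1
  unr : w.asIdeal.ramificationIdx O = 1
  good : ∀ v : HeightOneSpectrum O, v.asIdeal = w.asIdeal.under O → GoodP p v
  big : B < Ideal.absNorm w.asIdeal

/-- α is congruent to 1 modulo p^2, and its order is divisible by p except at w and w', two nice primes over different primes of
F, where it is 1 and -1 modulo p. -/
structure Alp (p : ℕ) (C : Type) [Field C] [NumberField C] [Algebra F C] (B : ℕ) (α : Cˣ)
    (w w' : Pl C) : Prop where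
  pp : ∃ a : 𝓞 C, (a : C) = α ∧ (p : 𝓞 C) ^ 2 ∣ a - 1
  at1 : (p : ℤ) ∣ ord w α - 1
  at2 : (p : ℤ) ∣ ord w' α + 1
  oth : ∀ P : Pl C, P ≠ w → P ≠ w' → (p : ℤ) ∣ ord P α
  ne : w.asIdeal.under O ≠ w'.asIdeal.under O
  nice : Nice p C B w
  nice' : Nice p C B w'

/-- γ is as α, with the conjugates of w, w' over K, and is an eigenvector for the group of C/K modulo p-th powers. -/
structure Gam (p : ℕ) (K C : Type) [Field K] [NumberField K] [Field C] [NumberField C]
    [Algebra F K] [Algebra F C] [Algebra K C] [IsScalarTower F K C] (ζ : C) (B : ℕ) (γ : Cˣ)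
    (w w' : Pl C) : Prop where
  pp : ∃ a : 𝓞 C, (a : C) = γ ∧ (p : 𝓞 C) ^ 2 ∣ a - 1
  at1 : ¬ (p : ℤ) ∣ ord w γ
  oth : ∀ P : Pl C, (∀ δ : C ≃ₐ[K] C, P ≠ smulP δ w ∧ P ≠ smulP δ w') → (p : ℤ) ∣ ord P γ
  eig : ∀ (δ : C ≃ₐ[K] C) (n : ℕ), δ ζ = ζ ^ n → ∃ z : Cˣ, δ (γ : C) = (γ : C) ^ n * (z : C) ^ p
  ne : w.asIdeal.under O ≠ w'.asIdeal.under O
  nice : Nice p C B w
  nice' : Nice p C B w'

/-- N is generated over C by p-th roots r g of the conjugates g γ, g in FixZ F₀ ζ, and N/F₀ is Galois. -/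
structure WrP (p : ℕ) (F₀ C N : Type) [Field F₀] [Field C] [Field N] [Algebra F₀ C] [Algebra F₀ N]
    [Algebra C N] (ζ γ : C) (r : FixZ F₀ ζ → N) : Prop where
  pow : ∀ g : FixZ F₀ ζ, r g ^ p = algebraMap C N ((g : C ≃ₐ[F₀] C) γ)
  gen : Algebra.adjoin C (Set.range r) = ⊤
  gal : IsGalois F₀ N

end H28R
end

-- from Lib.H55K.A.B3
section

/-!
Chunk B3 (M). The Minkowski unit. L/F Galois, F = Q(om) has exactly one infinite place, which is complex.
PROOF. Fix an infinite place V0 of L. H55R.unit_place gives a unit y with V y < 1 for all V ≠ V0; z = its image in Lˣ (ord v z = 0: HA7_ord_unit).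
The Galois group Gal(L/F) acts on the infinite places (σ • V), transitively on those above a place of F (NumberField.InfinitePlace.exists_smul_eq_of_comap_eq or the
like; F has only one place: card (InfinitePlace F) = nrRealPlaces + nrComplexPlaces = 0 + 1, IsCyclotomicExtension.Rat.nrComplexPlaces_eq_totient_div_two for n = 3, or
Fintype.card_eq from finrank 2 and no real place), and simply: |Gal(L/F)| = [L:F] and L has exactly [L:F] infinite places (all complex: complexF, finrank_eq: 2 r2 = [L:Q] = 2 [L:F]).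
So σ ↦ σ • V0 is a bijection. For T = ∅ define η (inr (σ • V0)) = gu σ z. Then Eta ∅ η: ord v (gu σ z) = 0 (ord_smul), and V' (gu σ z) = (σ⁻¹ • V') z < 1 for
V' ≠ σ • V0 (InfinitePlace.smul_apply: (σ • V) x = V (σ⁻¹ x)). H55R.theta_index for T = ∅: the range of Th has finite nonzero relative index n in (TUa ∅) × Z;
for a unit u: n • (u, 0) is in the range (the relative index kills the quotient: AddSubgroup.relIndex, pow_mem / nsmul_mem of index; for an additive commutative group: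
AddSubgroup.nsmul_index_mem): n u = sum_V a_V η_V, i.e. u^n = prod_σ (gu σ z)^(a (σ • V0)). So even u ^ n = pw gu α z. n = that relative index.
-/

open NumberField IsDedekindDomain

namespace H55K.Ab

open H55R


open H55P in
theorem b3_real (F : Type) [Field F] [NumberField F] [IQ F] : InfinitePlace.nrRealPlaces F = 0 := by
  classical
  have h2 := InfinitePlace.card_add_two_mul_card_eq_rank F
  have h3 : Module.finrank ℚ F = 2 := IQ.deg
  have h4 : 0 < InfinitePlace.nrComplexPlaces F := by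
    refine Fintype.card_pos_iff.2 ⟨⟨InfinitePlace.mk (embF F), ?_⟩⟩
    rw [InfinitePlace.isComplex_mk_iff]
    intro h
    obtain ⟨x, hx⟩ := IQ.im (F := F)
    apply hx
    have h5 := congrArg (fun φ : F →+* ℂ => φ x) h
    have h6 : (starRingEnd ℂ) (embF F x) = embF F x := h5
    exact Complex.conj_eq_iff_im.1 h6
  omega

open H55P in
theorem b3_sub (F : Type) [Field F] [NumberField F] [IQ F] : Subsingleton (InfinitePlace F) := by
  have h1 := b3_real F
  have h2 := InfinitePlace.card_add_two_mul_card_eq_rank F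
  have h3 : Module.finrank ℚ F = 2 := IQ.deg
  have h4 := InfinitePlace.card_eq_nrRealPlaces_add_nrComplexPlaces F
  have h5 : Fintype.card (InfinitePlace F) ≤ 1 := by omega
  exact Fintype.card_le_one_iff_subsingleton.1 h5

open H55P in
theorem b3_cpx (F K : Type) [Field F] [NumberField F] [IQ F] [Field K] [NumberField K] [Algebra F K]
    (v : InfinitePlace K) : v.IsComplex := by
  classical
  rw [← InfinitePlace.not_isReal_iff_isComplex]
  intro h
  have h1 : (v.comap (algebraMap F K)).IsReal := h.comap (algebraMap F K)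
  have h2 := b3_real F
  have h3 : 0 < InfinitePlace.nrRealPlaces F := Fintype.card_pos_iff.2 ⟨⟨_, h1⟩⟩
  omega

open H55P in
theorem b3_card (F L : Type) [Field F] [NumberField F] [IQ F] [Field L] [NumberField L] [Algebra F L] :
    Fintype.card (InfinitePlace L) = Module.finrank F L := by
  classical
  have h0 : InfinitePlace.nrRealPlaces L = 0 := by
    rw [InfinitePlace.nrRealPlaces, Fintype.card_eq_zero_iff]
    exact ⟨fun v => (InfinitePlace.not_isReal_iff_isComplex.2 (b3_cpx F L v.1)) v.2⟩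
  have h2 := InfinitePlace.card_add_two_mul_card_eq_rank L
  have h4 := InfinitePlace.card_eq_nrRealPlaces_add_nrComplexPlaces L
  have h5 := Module.finrank_mul_finrank ℚ F L
  rw [IQ.deg (F := F)] at h5
  omega

open H55P in
theorem minkowski (F L : Type) [Field F] [NumberField F] [IQ F] [Field L] [NumberField L]
    [Algebra F L] [IsGalois F L] :
    ∃ (z : Lˣ) (n : ℕ), 0 < n ∧ (∀ v : Pl L, ord v z = 0) ∧
      ∀ u : Lˣ, (∀ v : Pl L, ord v u = 0) → ∃ α : Gal(L/F) → ℤ, u ^ n = pw gu α z := by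
  classical
  obtain ⟨V0⟩ : Nonempty (InfinitePlace L) := inferInstance
  obtain ⟨y, hy⟩ := unit_place L V0
  set z : Lˣ := Units.map (algebraMap (𝓞 L) L : 𝓞 L →* L) y with hzd
  have hz : ∀ v : Pl L, ord v z = 0 := HA7_ord_unit y
  have hsub := b3_sub F
  have hbij : Function.Bijective (fun σ : Gal(L/F) => σ • V0) := by
    rw [Fintype.bijective_iff_surjective_and_card]
    refine ⟨fun V => InfinitePlace.exists_smul_eq_of_comap_eq (Subsingleton.elim _ _), ?_⟩
    rw [b3_card F L, ← IsGalois.card_aut_eq_finrank, Nat.card_eq_fintype_card]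
  let e : Gal(L/F) ≃ InfinitePlace L := Equiv.ofBijective _ hbij
  have he : ∀ σ : Gal(L/F), e σ = σ • V0 := fun σ => rfl
  let η : (∅ : Finset (Pl L)) ⊕ InfinitePlace L → Additive Lˣ :=
    Sum.elim (fun _ => 0) (fun V => Additive.ofMul (gu (e.symm V) z))
  have hη : Eta ∅ η := by
    constructor
    · rintro ⟨W, hW⟩
      exact absurd hW (Finset.notMem_empty W)
    · intro V
      set σ := e.symm V with hσ
      have hV : V = σ • V0 := by rw [← he, hσ, Equiv.apply_symm_apply]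
      constructor
      · intro W
        show ord W (gu σ z) = 0
        have h1 := ord_smul σ (smulP σ⁻¹ W) z
        rw [← smulP_mul, mul_inv_cancel, smulP_one] at h1
        have h2 : ord W (gu σ z) = ord (smulP σ⁻¹ W) z := h1
        rw [h2, hz]
      · intro V' hV'
        show V' (σ (z : L)) < 1
        have h1 : σ⁻¹ • V' ≠ V0 := by
          intro h2
          apply hV'
          rw [hV, ← h2, smul_inv_smul]
        have h2 := hy _ h1
        rw [InfinitePlace.smul_apply] at h2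
        exact h2
  have hidx := theta_index ∅ η hη
  refine ⟨z, _, Nat.pos_of_ne_zero hidx, hz, ?_⟩
  intro u hu
  have hmem : ((Additive.ofMul u, 0) : Additive Lˣ × ℤ) ∈ (TUa (∅ : Finset (Pl L))).prod (⊤ : AddSubgroup ℤ) := by
    rw [AddSubgroup.mem_prod]
    exact ⟨fun v _ => hu v, trivial⟩
  have h1 : (Th ∅ η).range.relIndex ((TUa ∅).prod (⊤ : AddSubgroup ℤ)) • ((Additive.ofMul u, 0) : Additive Lˣ × ℤ) ∈ (Th ∅ η).range := by
    have h2 := AddSubgroup.nsmul_index_mem ((Th ∅ η).range.addSubgroupOf ((TUa ∅).prod (⊤ : AddSubgroup ℤ)))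
      ⟨((Additive.ofMul u, 0) : Additive Lˣ × ℤ), hmem⟩
    exact AddSubgroup.mem_addSubgroupOf.1 h2
  obtain ⟨a, ha⟩ := h1
  refine ⟨fun σ => a (Sum.inr (e σ)), ?_⟩
  have h2 := congrArg Prod.fst ha
  have h3 : (∑ p, a p • η p) = (Th ∅ η).range.relIndex ((TUa ∅).prod (⊤ : AddSubgroup ℤ)) • Additive.ofMul u := h2
  rw [Fintype.sum_sum_type, Finset.univ_eq_empty, Finset.sum_empty, zero_add, ← e.sum_comp] at h3
  apply Additive.ofMul.injective
  rw [ofMul_pow, ← h3]
  unfold pw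
  rw [ofMul_prod]
  refine Finset.sum_congr rfl fun σ _ => ?_
  show a (Sum.inr (e σ)) • Additive.ofMul (gu (e.symm (e σ)) z) = _
  rw [Equiv.symm_apply_apply]
  rfl

end H55K.Ab
end

-- from Lib.H55K.A.B5
section

/-!
Chunk B5 (M). The step with the units. See PROOF.md, B5.
PROOF. (z, n) from minkowski. x = m 1, y = eta χ ρ 1 ξ are units (ord v (pw gu α ξ) = sum α(σ) ord v (gu σ ξ) = 0, ord_smul), so x^n = pw gu α z, y^n = pw gu β z
(minkowski). dim_lemma (hχ makes the group commutative) gives γ, γ', w with IsOfFinOrder (pw γ x (pw γ' y)⁻¹ w^l). Let c = chs χ γ, c' = chs χ γ', (c, c') ≠ 0, and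
h a = m (c a) (eta χ ρ (c' a) ξ)⁻¹ (EqHom by trans_comb, eta_hom). h 1 ~ pw γ x (pw γ' y)⁻¹ (eq_pw for m and for eta) is torsion modulo l-th powers; for a ≠ 0, a = χ σ and
h a = h (χ σ * 1) ~ gu σ (h 1) is torsion modulo l-th powers; h 0 ~ 1 (eq_zero). torsion_triv: every h a is an l-th power.
If c = 0 then c' ≠ 0 and, for a = 1: m 0 is an l-th power, so eta χ ρ c' ξ is an l-th power, hence Lev (lev_pow), contradiction to hlev. So c ≠ 0. If c' ≠ 0: a = 1: eta χ ρ c' ξ = m c * (l-th power)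
is Lev (lev_mul, hL), contradiction. So c' = 0: m (c a) ~ eta χ ρ 0 ξ ~ 1 for all a (eq_zero), and every element of k is c a.
-/

open NumberField IsDedekindDomain

namespace H55K.Ab

open H55R

variable {F : Type} [Field F] [NumberField F]

private theorem b5_ord_gu {L : Type} [Field L] [NumberField L] [Algebra F L] (v : Pl L) (σ : Gal(L/F)) (x : Lˣ) :
    ord v (gu σ x) = ord (smulP σ⁻¹ v) x := by
  have h := ord_smul σ (smulP σ⁻¹ v) x
  rw [← smulP_mul, mul_inv_cancel, smulP_one] at h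
  exact h

private theorem b5_e {A : Type} [CommGroup A] (a b x y w : A) :
    a * b⁻¹ = a * x * (b⁻¹ * y⁻¹) * w * (x⁻¹ * y * w⁻¹) := by
  apply (Additive.ofMul : A ≃ Additive A).injective
  simp only [ofMul_mul, ofMul_inv]
  abel

private theorem b5_ord_prod {L : Type} [Field L] [NumberField L] (v : Pl L) {ι : Type} (s : Finset ι) (f : ι → Lˣ)
    (h : ∀ i ∈ s, ord v (f i) = 0) : ord v (∏ i ∈ s, f i) = 0 := by
  classical
  induction s using Finset.induction_on with
  | empty => exact ord_one v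
  | insert a s ha ih =>
    rw [Finset.prod_insert ha, ord_mul, h a (Finset.mem_insert_self a s),
      ih fun i hi => h i (Finset.mem_insert_of_mem hi), add_zero]

private theorem b5_ord_pw {L : Type} [Field L] [NumberField L] [Algebra F L] (v : Pl L) (α : Gal(L/F) → ℤ) (x : Lˣ)
    (hx : ∀ v : Pl L, ord v x = 0) : ord v (pw gu α x) = 0 := by
  unfold pw
  refine b5_ord_prod v _ _ fun σ _ => ?_
  rw [ord_zpow, b5_ord_gu, hx, mul_zero]

theorem unit_step [H55P.IQ F] {L : Type} [Field L] [NumberField L] [Algebra F L] [IsGalois F L] {l : ℕ}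
    [Fact l.Prime] {k : Type} [Field k] [Fintype k] [DecidableEq k] [CharP k l]
    {χ : Gal(L/F) →* kˣ} (hχ : Function.Bijective χ) (ρ : k →+ ZMod l) (hρ : IsRho l ρ)
    (hcyc : ∀ ζ : Lˣ, IsPrimitiveRoot ζ l →
      ¬ ∀ (σ : Gal(L/F)) (n : ℕ), (n : k) = χ σ → gu σ ζ = ζ ^ n)
    (w : Pl L) (ξ : Lˣ) (hξ : ∀ v : Pl L, ord v ξ = 0)
    (hlev : ∀ a : k, a ≠ 0 → ¬ Lev l w (eta χ ρ a ξ))
    {m : k → Lˣ} (hm : EqHom l χ m) (hu : ∀ (a : k) (v : Pl L), ord v (m a) = 0)
    (hL : ∀ a, Lev l w (m a)) (a : k) : ∃ z : Lˣ, m a = z ^ l := by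
  obtain ⟨z, n, hn, hz, hall⟩ := minkowski F L
  have heta := eta_hom (χ := χ) ρ ξ
  obtain ⟨α, hα⟩ := hall (m 1) (hu 1)
  obtain ⟨β, hβ⟩ := hall (eta χ ρ 1 ξ) (fun v => b5_ord_pw v _ ξ hξ)
  have hone : ∀ x y : Lˣ, x = y → IsOfFinOrder (x * y⁻¹) := by
    rintro x _ rfl
    rw [mul_inv_cancel]
    exact IsOfFinOrder.one
  have hx1 : IsOfFinOrder (m 1 ^ n * (pw gu α z)⁻¹) := hone _ _ hα
  have hy1 : IsOfFinOrder (eta χ ρ 1 ξ ^ n * (pw gu β z)⁻¹) := hone _ _ hβ
  obtain ⟨γ, γ', w', hne, hfin⟩ := dim_lemma (G := Gal(L/F)) (A := Lˣ) gu χ hχ ρ hρ n hn (m 1) (eta χ ρ 1 ξ) z α β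
    hx1 hy1
  set c := chs χ γ with hc
  set c' := chs χ γ' with hc'
  have hh := trans_comb hm heta c c'
  obtain ⟨z1, hz1⟩ := eq_pw hm γ 1
  obtain ⟨z2, hz2⟩ := eq_pw heta γ' 1
  set τ0 : Lˣ := pw gu γ (m 1) * (pw gu γ' (eta χ ρ 1 ξ))⁻¹ * w' ^ l with hτ0
  have h1 : m (c * 1) * (eta χ ρ (c' * 1) ξ)⁻¹ = τ0 * (z1⁻¹ * z2 * w'⁻¹) ^ l := by
    rw [hτ0, hz1, hz2, mul_inv, mul_pow, mul_pow, inv_pow, inv_pow]
    rw [← hc, ← hc']
    exact b5_e _ _ _ _ _
  have ht : ∀ b : k, ∃ τ zz : Lˣ, IsOfFinOrder τ ∧ m (c * b) * (eta χ ρ (c' * b) ξ)⁻¹ = τ * zz ^ l := by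
    intro b
    by_cases hb : b = 0
    · obtain ⟨zz, hzz⟩ := eq_zero hh
      refine ⟨1, zz, IsOfFinOrder.one, ?_⟩
      rw [hb, one_mul]
      exact hzz
    · obtain ⟨σ, hσ⟩ := hχ.2 (Units.mk0 b hb)
      obtain ⟨zz, hzz⟩ := hh.equiv σ 1
      have hb' : ((χ σ : kˣ) : k) * 1 = b := by
        rw [hσ, mul_one]
        rfl
      rw [hb'] at hzz
      refine ⟨gu σ τ0, gu σ (z1⁻¹ * z2 * w'⁻¹) * zz, ?_, ?_⟩
      · exact MonoidHom.isOfFinOrder (gu σ) hfin
      · rw [hzz, h1, map_mul, map_pow, mul_pow, mul_assoc]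
  have htriv := fun b => torsion_triv hχ hcyc hh ht b
  by_cases h0 : c' = 0
  · have hc0 : c ≠ 0 := hne.resolve_right (fun h => h h0)
    obtain ⟨z3, hz3⟩ := eq_zero heta
    obtain ⟨z4, hz4⟩ := htriv (c⁻¹ * a)
    have e1 : c * (c⁻¹ * a) = a := by rw [← mul_assoc, mul_inv_cancel₀ hc0, one_mul]
    simp only [e1, h0, zero_mul] at hz4
    refine ⟨z4 * z3, ?_⟩
    rw [mul_pow, ← hz4, ← hz3, inv_mul_cancel_right]
  · exfalso
    obtain ⟨z4, hz4⟩ := htriv 1
    simp only [mul_one] at hz4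
    have e : eta χ ρ c' ξ = m c * (z4⁻¹) ^ l := by
      rw [inv_pow, ← hz4]
      simp
    apply hlev c' h0
    rw [e]
    exact lev_mul (hL c) (lev_pow _)

end H55K.Ab
end

-- from Lib.H55K.A.D1
section

/-!
Chunk D1 (M). Primes of degree greater than one are negligible.
PROOF. If N v is not prime then N v ≥ p² for the prime number p below v (N v = p^f, f ≥ 2), so N v^(-s) ≤ p^(-2s) ≤ p^(-2) for s ≥ 1, and at most [K:ℚ] primes lie above p. So the sum over any finite
set of such primes is at most [K:ℚ] sum_p p^(-2) = C (Real.summable_one_div_nat_pow); hence PS ≤ C (tsum_le_of_sum_le). Compare H55R.D5 (split_cmp), where the same estimate is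
made; it may contain a lemma which can be cited.
stab_triv: absNorm Q prime gives fs F L (Q.under) = 1 (absNorm Q = absNorm(v)^f: H55R.D5_norm), with es = 1 the stabiliser is trivial (card_stab), so σ ↦ smulP σ Q is injective.
-/

open NumberField IsDedekindDomain

namespace H55K.Ab

open H55R

variable {F : Type} [Field F] [NumberField F]

section d1

variable {K : Type} [Field K] [NumberField K]

theorem d1_pow (v : Pl K) : ∃ q f : ℕ, q.Prime ∧ 0 < f ∧ Ideal.absNorm v.asIdeal = q ^ f ∧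
    (q : 𝓞 K) ∈ v.asIdeal := by
  have hm : v.asIdeal.IsMaximal := v.isMaximal
  have h0 : Ideal.absNorm v.asIdeal ≠ 0 := fun h => v.ne_bot (Ideal.absNorm_eq_zero_iff.1 h)
  let _ : Field (𝓞 K ⧸ v.asIdeal) := Ideal.Quotient.field v.asIdeal
  have hfin : Finite (𝓞 K ⧸ v.asIdeal) := by
    apply Nat.finite_of_card_ne_zero
    exact h0
  let _ : Fintype (𝓞 K ⧸ v.asIdeal) := Fintype.ofFinite _
  obtain ⟨q, hq⟩ := CharP.exists (𝓞 K ⧸ v.asIdeal)
  obtain ⟨n, hp, hc⟩ := FiniteField.card (𝓞 K ⧸ v.asIdeal) q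
  refine ⟨q, n, hp, n.pos, ?_, ?_⟩
  · show Nat.card (𝓞 K ⧸ v.asIdeal) = _
    rw [Nat.card_eq_fintype_card, hc]
  · rw [← Ideal.Quotient.eq_zero_iff_mem, map_natCast]
    exact CharP.cast_eq_zero _ q

/-- The primes above a rational prime. -/
theorem d1_count (q : ℕ) (hq : q.Prime) (U : Finset (Pl K))
    (hU : ∀ v ∈ U, (q : 𝓞 K) ∈ v.asIdeal) (hU2 : ∀ v ∈ U, q ≤ Ideal.absNorm v.asIdeal) :
    U.card ≤ Module.finrank ℚ K := by
  classical
  have h1 : ∏ v ∈ U, v.asIdeal ∣ Ideal.span {(q : 𝓞 K)} := by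
    apply Finset.prod_dvd_of_coprime
    · intro v _ w _ hvw
      refine Ideal.isCoprime_of_isMaximal ?_
      intro h
      exact hvw (HeightOneSpectrum.ext h)
    · intro v hv
      rw [Ideal.dvd_span_singleton]
      exact hU v hv
  have h2 := map_dvd Ideal.absNorm h1
  rw [map_prod] at h2
  have h3 : Ideal.absNorm (Ideal.span {(q : 𝓞 K)}) = q ^ Module.finrank ℚ K := by
    rw [Ideal.absNorm_span_singleton]
    have h4 := Algebra.norm_algebraMap (S := 𝓞 K) (q : ℤ)
    rw [map_natCast, RingOfIntegers.rank] at h4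
    rw [h4, Int.natAbs_pow, Int.natAbs_natCast]
  rw [h3] at h2
  have h5 : ∏ v ∈ U, q ≤ ∏ v ∈ U, Ideal.absNorm v.asIdeal := Finset.prod_le_prod' hU2
  rw [Finset.prod_const] at h5
  have h6 := Nat.le_of_dvd (pow_pos hq.pos _) h2
  exact (Nat.pow_le_pow_iff_right hq.one_lt).1 (h5.trans h6)


theorem d1_one_le (v : Pl K) : (1 : ℝ) ≤ (Ideal.absNorm v.asIdeal : ℝ) := by
  have h0 : Ideal.absNorm v.asIdeal ≠ 0 := fun h => v.ne_bot (Ideal.absNorm_eq_zero_iff.1 h)
  exact_mod_cast Nat.one_le_iff_ne_zero.2 h0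

theorem d1_summable (s : ℝ) (hs : 1 < s) :
    Summable fun v : Pl K => (Ideal.absNorm v.asIdeal : ℝ) ^ (-s) :=
  (H55N.ideal_summable (K := K) s hs).comp_injective (i := fun v : Pl K => v.asIdeal)
    fun _ _ h => HeightOneSpectrum.ext h

theorem d1_sum (S : Set (Pl K)) (s : ℝ) (hs : 1 < s) :
    Summable (S.indicator fun v : Pl K => (Ideal.absNorm v.asIdeal : ℝ) ^ (-s)) :=
  (d1_summable s hs).indicator S





/-- The primes whose norm is not a prime number. -/
theorem d1_np : ∃ C : ℝ, ∀ s : ℝ, 1 < s →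
    PS {v : Pl K | ¬ (Ideal.absNorm v.asIdeal).Prime} s ≤ C := by
  classical
  have hz : Summable fun q : ℕ => (Module.finrank ℚ K : ℝ) * ((q : ℝ) ^ 2)⁻¹ :=
    (Real.summable_nat_pow_inv.2 one_lt_two).mul_left _
  refine ⟨∑' q : ℕ, (Module.finrank ℚ K : ℝ) * ((q : ℝ) ^ 2)⁻¹, fun s hs => ?_⟩
  unfold PS
  refine (d1_sum _ s hs).tsum_le_of_sum_le fun U => ?_
  choose q f hq hf hn hm using fun v : Pl K => d1_pow v
  have h1 : ∑ v ∈ U, ({v : Pl K | ¬ (Ideal.absNorm v.asIdeal).Prime}.indicator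
      (fun v => (Ideal.absNorm v.asIdeal : ℝ) ^ (-s))) v =
      ∑ r ∈ U.image q, ∑ v ∈ U with q v = r, ({v : Pl K | ¬ (Ideal.absNorm v.asIdeal).Prime}.indicator
      (fun v => (Ideal.absNorm v.asIdeal : ℝ) ^ (-s))) v := by
    rw [Finset.sum_fiberwise_of_maps_to]
    intro v hv
    exact Finset.mem_image_of_mem q hv
  rw [h1]
  have h2 : ∀ v : Pl K, ({v : Pl K | ¬ (Ideal.absNorm v.asIdeal).Prime}.indicator
      (fun v => (Ideal.absNorm v.asIdeal : ℝ) ^ (-s))) v ≤ ((q v : ℝ) ^ 2)⁻¹ := by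
    intro v
    by_cases hv : (Ideal.absNorm v.asIdeal).Prime
    · rw [Set.indicator_of_notMem (show v ∉ {v : Pl K | ¬ (Ideal.absNorm v.asIdeal).Prime} from
        fun h => h hv)]
      positivity
    · rw [Set.indicator_of_mem (show v ∈ {v : Pl K | ¬ (Ideal.absNorm v.asIdeal).Prime} from hv)]
      have h3 : 2 ≤ f v := by
        by_contra h4
        have h5 : f v = 1 := by
          have := hf v
          omega
        apply hv
        rw [hn v, h5, pow_one]
        exact hq v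
      have h6 : (Ideal.absNorm v.asIdeal : ℝ) ^ (-s) ≤ (Ideal.absNorm v.asIdeal : ℝ) ^ (-(1 : ℝ)) :=
        Real.rpow_le_rpow_of_exponent_le (d1_one_le v) (by linarith)
      refine h6.trans ?_
      rw [Real.rpow_neg_one, hn v]
      have hq1 : (1 : ℝ) ≤ (q v : ℝ) := by exact_mod_cast (hq v).one_lt.le
      push_cast
      apply inv_anti₀ (by positivity)
      exact pow_le_pow_right₀ hq1 h3
  have h3 : ∀ r ∈ U.image q, ∑ v ∈ U with q v = r, ({v : Pl K | ¬ (Ideal.absNorm v.asIdeal).Prime}.indicator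
      (fun v => (Ideal.absNorm v.asIdeal : ℝ) ^ (-s))) v ≤ (Module.finrank ℚ K : ℝ) * ((r : ℝ) ^ 2)⁻¹ := by
    intro r hr
    obtain ⟨v₀, -, hv₀⟩ := Finset.mem_image.1 hr
    have hrp : r.Prime := hv₀ ▸ hq v₀
    have h4 : ∀ v ∈ U.filter (fun v => q v = r), ({v : Pl K | ¬ (Ideal.absNorm v.asIdeal).Prime}.indicator
      (fun v => (Ideal.absNorm v.asIdeal : ℝ) ^ (-s))) v ≤ ((r : ℝ) ^ 2)⁻¹ := by
      intro v hv
      have h5 := h2 v
      rw [(Finset.mem_filter.1 hv).2] at h5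
      exact h5
    refine (Finset.sum_le_sum h4).trans ?_
    rw [Finset.sum_const, nsmul_eq_mul]
    refine mul_le_mul_of_nonneg_right ?_ (by positivity)
    have h6 : (U.filter (fun v => q v = r)).card ≤ Module.finrank ℚ K := by
      apply d1_count r hrp
      · intro v hv
        have h7 := hm v
        rw [(Finset.mem_filter.1 hv).2] at h7
        exact h7
      · intro v hv
        have h7 := hn v
        rw [(Finset.mem_filter.1 hv).2] at h7
        rw [h7]
        exact Nat.le_self_pow (hf v).ne' r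
    exact_mod_cast h6
  refine (Finset.sum_le_sum h3).trans ?_
  exact hz.sum_le_tsum _ fun r _ => by positivity

end d1

theorem deg_bound (K : Type) [Field K] [NumberField K] :
    ∃ C : ℝ, ∀ s ∈ Set.Ioc (1 : ℝ) 2, PS {v : Pl K | ¬ (Ideal.absNorm v.asIdeal).Prime} s ≤ C := by
  obtain ⟨C, hC⟩ := d1_np (K := K)
  exact ⟨C, fun s hs => hC s hs.1⟩

theorem stab_triv {K L : Type} [Field K] [NumberField K] [Field L] [NumberField L] [Algebra K L]
    [IsGalois K L] (Q : Pl L) (hQ : (Ideal.absNorm Q.asIdeal).Prime)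
    (he : es K L (Q.under (𝓞 K)) = 1) : Function.Injective fun σ : Gal(L/K) => smulP σ Q := by
  have h1 := D5_norm (Q.under (𝓞 K)) Q rfl
  have hf : fs K L (Q.under (𝓞 K)) = 1 := by
    rw [h1] at hQ
    by_contra hne
    exact Nat.Prime.not_prime_pow' hne hQ
  have h2 := card_stab Q (Q.under (𝓞 K)) rfl
  rw [he, hf, mul_one, Nat.card_eq_one_iff_unique] at h2
  have h3 := h2.1
  intro σ τ hστ
  have h4 : smulP (τ⁻¹ * σ) Q = Q := by
    rw [smulP_mul]
    have h5 : smulP σ Q = smulP τ Q := hστ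
    rw [h5, ← smulP_mul, inv_mul_cancel, smulP_one]
  have h6 : (⟨τ⁻¹ * σ, h4⟩ : {σ : Gal(L/K) // smulP σ Q = Q}) = ⟨1, smulP_one Q⟩ := Subsingleton.elim _ _
  have h7 := congrArg Subtype.val h6
  exact (inv_mul_eq_one.1 h7).symm

end H55K.Ab
end
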