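import Mathlib
import Pool.Agent.Lib.H1M.PP2.D_H28R_Defs
import Pool.Agent.Lib.H1M.PP2.M051

/-!
# H28T: realisation of p-groups over an arbitrary number field F, with ramification in a given set G of primes (definitions)

See PROOF.md.
-/

open NumberField IsDedekindDomain

namespace H28T

open H28R
open H55P H55R

variable {F : Type} [Field F] [NumberField F]

/-- K/F is Galois of p-power degree and unramified outside the primes in G. -/
def ExtG (G : HeightOneSpectrum (𝓞 F) → Prop) (p : ℕ) (K : Type) [Field K] [NumberField K] [Algebra F K] : Prop :=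
  IsGalois F K ∧ (∃ k : ℕ, Module.finrank F K = p ^ k) ∧
    ∀ (w : HeightOneSpectrum (𝓞 K)) (v : HeightOneSpectrum (𝓞 F)), v.asIdeal = w.asIdeal.under (𝓞 F) → ¬ G v →
      w.asIdeal.ramificationIdx (𝓞 F) = 1

/-- The same, and all ramified primes have norm greater than B. -/
def PB (G : HeightOneSpectrum (𝓞 F) → Prop) (p : ℕ) (K : Type) [Field K] [NumberField K] [Algebra F K] (B : ℕ) : Prop :=
  ExtG G p K ∧ ∀ w : HeightOneSpectrum (𝓞 K), w.asIdeal.ramificationIdx (𝓞 F) ≠ 1 →
    B < Ideal.absNorm w.asIdeal

end H28T
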