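import Mathlib
import Pool.Agent.Lib.H1M.PP2.D_H55P_SD
import Pool.Agent.Lib.H1M.PP2.D_H55P_Sel
import Pool.Agent.Lib.H1M.PP2.M019
import Pool.Agent.Lib.H1M.PP2.M020
import Pool.Agent.Lib.H1M.PP2.M031

/-! Merged copies (to shorten the build) of Lib.H55P.S9, Lib.H13S.IN1, Lib.H16C.D4, Lib.H16C.D5, Lib.H16C.D6, Lib.H16C.MW1, Lib.H16C.T1, Lib.H16C.MW3, Lib.H55P.S4, Lib.H55P.S5. -/

-- from Lib.H55P.S9
section

open NumberField IsDedekindDomain WeierstrassCurve
open scoped Pointwise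

namespace H55P

variable {F : Type} [Field F] [NumberField F] {Ω : Type} [Field Ω] [DecidableEq Ω] [Algebra F Ω]
  [IsAlgClosed Ω] [Algebra.IsAlgebraic F Ω] [CharZero Ω]

/-! Chunk PS9 (M/L). Elements fixed by the decomposition group reduce into the residue field of M.
PROOF. G = Ω ≃ₐ[M] Ω (Galois group of Ω over M, profinite: the Krull topology instances), B = the integral closure of 𝓞 M (or of ℤ) in Ω with the action of G and the discrete topology, A = 𝓞 M, P = v, Q = the elements b of B with V.valuation b < 1 (all elements of B are in V).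
Algebra.IsInvariant A B G: an integer fixed by G is in M (Galois theory), so in 𝓞 M. ContinuousSMul: stabilizers are open. Ideal.Quotient.stabilizerHom_surjective_of_profinite (Mathlib/RingTheory/Invariant/Profinite.lean): the stabilizer of Q maps onto Aut((B/Q)/(A/P)). An element s of the stabilizer
of Q satisfies Dec V s: for x in Ω, x = b / c with b in B, c in A nonzero or better: V is the localization of B at Q: for x in V there are b, c in B, c not in Q, x = b / c (frac_rep in Lib/H16C/FR1.lean for the field F(x); if V.valuation q = 1 for all primes q, V is everything and the statement is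
trivial: then v = ⊥, excluded). A/P is a finite field, B/Q is algebraic over it and normal (Ideal.Quotient.normal or B/Q is algebraically closed), so it is Galois (perfect field) and the elements fixed by all automorphisms are in A/P. x = b / c with c not in Q; the class of b/c in B/Q (a field) is fixed by
the stabilizer since s x = x: s b / s c = b / c. So it is the class of an element a of A: b - a c in Q, V.valuation (x - a) < 1. An alternative is the finite level: N = a finite Galois extension of M containing x, and lifting of elements of the decomposition group of V ∩ N to Dec V. -/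

/-- fixed points of the Frobenius map -/
theorem ps9_fin {k L : Type} [Field k] [Fintype k] [Field L] (i : k →+* L) (y : L)
    (hy : y ^ Fintype.card k = y) : ∃ a : k, i a = y := by
  classical
  set f : Polynomial L := Polynomial.X ^ Fintype.card k - Polynomial.X with hf
  have hf0 : f ≠ 0 := FiniteField.X_pow_card_sub_X_ne_zero L Fintype.one_lt_card
  have hroot : ∀ z : L, z ∈ f.roots.toFinset ↔ z ^ Fintype.card k = z := by
    intro z
    rw [Multiset.mem_toFinset, Polynomial.mem_roots hf0, Polynomial.IsRoot.def, hf, Polynomial.eval_sub,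
      Polynomial.eval_pow, Polynomial.eval_X, sub_eq_zero]
  have hsub : (Finset.univ.image i) ⊆ f.roots.toFinset := by
    intro z hz
    obtain ⟨a, -, rfl⟩ := Finset.mem_image.1 hz
    rw [hroot, ← map_pow, FiniteField.pow_card]
  have hcard : f.roots.toFinset.card ≤ (Finset.univ.image i).card := by
    rw [Finset.card_image_of_injective _ i.injective, Finset.card_univ]
    calc f.roots.toFinset.card ≤ Multiset.card f.roots := Multiset.toFinset_card_le _
      _ ≤ f.natDegree := Polynomial.card_roots' f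
      _ = Fintype.card k := FiniteField.X_pow_card_sub_X_natDegree_eq L Fintype.one_lt_card
  have heq := Finset.eq_of_subset_of_card_le hsub hcard
  have hy' : y ∈ Finset.univ.image i := by
    rw [heq, hroot]
    exact hy
  obtain ⟨a, -, ha⟩ := Finset.mem_image.1 hy'
  exact ⟨a, ha⟩

theorem ps9_mem (V : ValuationSubring Ω) (z : 𝓞 Ω) : (z : Ω) ∈ V :=
  (V.valuation_le_one_iff _).1 (H16C.FR_le_one V z.isIntegral_coe)

/-- the map to V -/
noncomputable def ps9c (V : ValuationSubring Ω) : 𝓞 Ω →+* V :=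
  (algebraMap (𝓞 Ω) Ω).codRestrict V (fun x => ps9_mem V x)

/-- the prime of the algebraic integers below V -/
noncomputable def ps9Q (V : ValuationSubring Ω) : Ideal (𝓞 Ω) :=
  (IsLocalRing.maximalIdeal V).comap (ps9c V)

theorem ps9_lt (V : ValuationSubring Ω) (z : 𝓞 Ω) : z ∈ ps9Q V ↔ V.valuation (z : Ω) < 1 := by
  unfold ps9Q
  rw [Ideal.mem_comap, ValuationSubring.valuation_lt_one_iff]
  rfl

theorem ps9_prime (V : ValuationSubring Ω) : (ps9Q V).IsPrime := by
  unfold ps9Q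
  infer_instance

theorem ps9_one (V : ValuationSubring Ω) (z : 𝓞 Ω) : z ∉ ps9Q V ↔ V.valuation (z : Ω) = 1 := by
  rw [ps9_lt, not_lt]
  have h := (V.valuation_le_one_iff _).2 (ps9_mem V z)
  exact ⟨fun h1 => le_antisymm h h1, fun h1 => h1.ge⟩

/-- fractions -/
theorem ps9_frac (F : Type) [Field F] [NumberField F] [Algebra F Ω] [Algebra.IsAlgebraic F Ω] (V : ValuationSubring Ω) (q : ℕ) (hq : q.Prime) (hV : V.valuation (q : Ω) < 1) (x : Ω)
    (hx : x ∈ V) : ∃ a c : 𝓞 Ω, V.valuation (c : Ω) = 1 ∧ x = (a : Ω) / (c : Ω) := by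
  have hint : IsIntegral F x := Algebra.IsIntegral.isIntegral x
  have hfd : FiniteDimensional F (IntermediateField.adjoin F {x}) :=
    IntermediateField.adjoin.finiteDimensional hint
  obtain ⟨a, c, -, -, ha, hc, hc1, hxac⟩ := H16C.frac_rep (IntermediateField.adjoin F {x}) V q hq hV
    (IntermediateField.mem_adjoin_simple_self F x) ((V.valuation_le_one_iff _).2 hx)
  exact ⟨⟨a, ha⟩, ⟨c, hc⟩, hc1, hxac⟩

theorem ps9_inv (M : IntermediateField F Ω) [FiniteDimensional F M] :
    Algebra.IsInvariant (𝓞 M) (𝓞 Ω) Gal(Ω/M) := by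
  have hal : Algebra.IsAlgebraic M Ω := Algebra.IsAlgebraic.tower_top (K := F) M
  have hcl : IsAlgClosure M Ω := ⟨inferInstance, hal⟩
  have hc0 : CharZero M := charZero_of_injective_algebraMap (algebraMap F M).injective
  have hG : IsGalois M Ω := IsAlgClosure.isGalois M Ω
  refine ⟨fun x hx => ?_⟩
  have h1 : ∀ g : Gal(Ω/M), g (x : Ω) = x := fun g =>
    congrArg (fun y : 𝓞 Ω => (y : Ω)) (hx g)
  have h2 : (x : Ω) ∈ (⊥ : IntermediateField M Ω) := by
    rw [← InfiniteGalois.fixedField_bot]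
    rw [IntermediateField.mem_fixedField_iff]
    intro g _
    exact h1 g
  obtain ⟨y, hy⟩ := IntermediateField.mem_bot.1 h2
  have h3 : IsIntegral ℤ y := by
    have h4 : IsIntegral ℤ (algebraMap M Ω y) := by
      rw [hy]; exact x.isIntegral_coe
    exact (isIntegral_algebraMap_iff (algebraMap M Ω).injective).1 h4
  refine ⟨⟨y, h3⟩, ?_⟩
  apply RingOfIntegers.coe_injective
  exact hy

theorem ps9_dec (q : ℕ) (hq : q.Prime) (V : ValuationSubring Ω) (hV : V.valuation (q : Ω) < 1)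
    (s : Ω ≃ₐ[F] Ω) (hs : ∀ z : 𝓞 Ω, ∀ w : 𝓞 Ω, (w : Ω) = s (z : Ω) → (w ∈ ps9Q V ↔ z ∈ ps9Q V)) (x : Ω)
    (hx : x ∈ V) : s x ∈ V := by
  obtain ⟨a, c, hc, rfl⟩ := ps9_frac F V q hq hV x hx
  have hint : ∀ z : 𝓞 Ω, IsIntegral ℤ (s (z : Ω)) := fun z => z.isIntegral_coe.map (s.toAlgHom.restrictScalars ℤ)
  have h1 : V.valuation (s (c : Ω)) = 1 := by
    have h2 := (hs c ⟨s (c : Ω), hint c⟩ rfl)
    have h3 := (ps9_one V c).2 hc
    exact (ps9_one V ⟨s (c : Ω), hint c⟩).1 (fun h4 => h3 (h2.1 h4))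
  rw [← V.valuation_le_one_iff, map_div₀ s, map_div₀, h1, div_one]
  exact H16C.FR_le_one V (hint a)

theorem res_descent (M : IntermediateField F Ω) [FiniteDimensional F M] (V : ValuationSubring Ω)
    (v : HeightOneSpectrum (𝓞 M)) (hv : Below V M v.asIdeal) (x : Ω) (hx : x ∈ V)
    (hf : ∀ s ∈ M.fixingSubgroup, Dec V s → s x = x) :
    ∃ a : 𝓞 M, V.valuation (x - ((a : M) : Ω)) < 1 := by
  classical
  have hMn : NumberField M := NumberField.of_module_finite F M
  have hal : Algebra.IsAlgebraic M Ω := Algebra.IsAlgebraic.tower_top (K := F) M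
  have hcl : IsAlgClosure M Ω := ⟨inferInstance, hal⟩
  have hG : IsGalois M Ω := IsAlgClosure.isGalois M Ω
  have hvm := v.isMaximal
  let _ : Field (𝓞 M ⧸ v.asIdeal) := Ideal.Quotient.field v.asIdeal
  have hfin : Finite (𝓞 M ⧸ v.asIdeal) := Ideal.finiteQuotientOfFreeOfNeBot _ v.ne_bot
  let _ : Fintype (𝓞 M ⧸ v.asIdeal) := Fintype.ofFinite _
  -- the residue characteristic
  obtain ⟨q, hqc⟩ := CharP.exists (𝓞 M ⧸ v.asIdeal)
  have hq : q.Prime := by
    rcases CharP.char_is_prime_or_zero (𝓞 M ⧸ v.asIdeal) q with h | h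
    · exact h
    · exact absurd h (CharP.char_ne_zero_of_finite (𝓞 M ⧸ v.asIdeal) q)
  have hqv : (q : 𝓞 M) ∈ v.asIdeal := by
    rw [← Ideal.Quotient.eq_zero_iff_mem, map_natCast]
    exact CharP.cast_eq_zero _ q
  have hV : V.valuation (q : Ω) < 1 := by
    have h1 := (hv (q : 𝓞 M)).1 hqv
    simpa using h1
  -- the prime of the integers of Ω
  set Q : Ideal (𝓞 Ω) := ps9Q V with hQ
  have hQp : Q.IsPrime := ps9_prime V
  have hlo : Q.LiesOver v.asIdeal := by
    constructor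
    ext z
    rw [hv z, Ideal.mem_comap, hQ, ps9_lt]
    rfl
  have hinv := ps9_inv (Ω := Ω) M
  have hsc : SMulCommClass Gal(Ω/M) (𝓞 M) (𝓞 Ω) := by
    constructor
    intro g a z
    rw [Algebra.smul_def, Algebra.smul_def, smul_mul']
    congr 1
    apply RingOfIntegers.ext
    exact g.commutes (a : M)
  let _ : TopologicalSpace (𝓞 Ω) := ⊥
  have : DiscreteTopology (𝓞 Ω) := ⟨rfl⟩
  have hcont : ContinuousSMul Gal(Ω/M) (𝓞 Ω) := by
    rw [continuousSMul_iff_stabilizer_isOpen]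
    intro z
    have h1 := stabilizer_isOpen_of_isIntegral (K := M) (z : Ω)
    convert! h1 using 1
    ext g
    simp only [SetLike.mem_coe, MulAction.mem_stabilizer_iff]
    constructor
    · intro h
      exact congrArg (fun y : 𝓞 Ω => (y : Ω)) h
    · intro h
      exact RingOfIntegers.coe_injective h
  have hint : Algebra.IsIntegral (𝓞 M) (𝓞 Ω) := Algebra.IsInvariant.isIntegral_of_profinite (G := Gal(Ω/M))
  have hQm : Q.IsMaximal := Ideal.isMaximal_of_isIntegral_of_isMaximal_comap Q (by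
    have h1 : v.asIdeal = Q.comap (algebraMap (𝓞 M) (𝓞 Ω)) := hlo.over
    rw [← h1]
    exact hvm)
  let _ : Field (𝓞 Ω ⧸ Q) := Ideal.Quotient.field Q
  have halg : Algebra.IsAlgebraic (𝓞 M ⧸ v.asIdeal) (𝓞 Ω ⧸ Q) := by
    have : Algebra.IsIntegral (𝓞 M ⧸ v.asIdeal) (𝓞 Ω ⧸ Q) := inferInstance
    infer_instance
  obtain ⟨σ, hσ⟩ := Ideal.Quotient.stabilizerHom_surjective_of_profinite (G := Gal(Ω/M)) v.asIdeal Q
    (FiniteField.frobeniusAlgEquivOfAlgebraic (𝓞 M ⧸ v.asIdeal) (𝓞 Ω ⧸ Q))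
  have hσ1 : ∀ z : 𝓞 Ω, (σ : Gal(Ω/M)) • z - z ^ Fintype.card (𝓞 M ⧸ v.asIdeal) ∈ Q := by
    intro z
    rw [← Ideal.Quotient.eq]
    exact DFunLike.congr_fun hσ (Ideal.Quotient.mk Q z)
  -- the automorphism over F
  set s : Ω ≃ₐ[F] Ω := (σ : Gal(Ω/M)).restrictScalars F with hs
  have hsz : ∀ z : 𝓞 Ω, ((((σ : Gal(Ω/M)) • z : 𝓞 Ω)) : Ω) = s (z : Ω) := fun z => rfl
  have hsM : s ∈ M.fixingSubgroup := fun y => (σ : Gal(Ω/M)).commutes y
  have hmem : ∀ (τ : MulAction.stabilizer Gal(Ω/M) Q) (z : 𝓞 Ω), (τ : Gal(Ω/M)) • z ∈ Q ↔ z ∈ Q := by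
    rintro ⟨g, hg⟩ z
    have h1 : g • Q = Q := hg
    have h2 : g • z ∈ g • Q ↔ z ∈ Q := Ideal.smul_mem_pointwise_smul_iff
    rwa [h1] at h2
  have hdec1 : ∀ (τ : MulAction.stabilizer Gal(Ω/M) Q) (y : Ω), y ∈ V →
      ((τ : Gal(Ω/M)).restrictScalars F) y ∈ V := by
    intro τ y hy
    refine ps9_dec q hq V hV _ ?_ y hy
    intro z w hw
    have h1 : w = (τ : Gal(Ω/M)) • z := RingOfIntegers.coe_injective hw
    rw [h1]
    exact hmem τ z
  have hdec : Dec V s := by
    intro y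
    refine ⟨fun h => ?_, hdec1 σ y⟩
    have h1 := hdec1 σ⁻¹ (s y) h
    have h2 : ((σ⁻¹ : MulAction.stabilizer Gal(Ω/M) Q) : Gal(Ω/M)).restrictScalars F (s y) = y :=
      (σ : Gal(Ω/M)).symm_apply_apply y
    rwa [h2] at h1
  have hfix := hf s hsM hdec
  obtain ⟨a, c, hc, hxac⟩ := ps9_frac F V q hq hV x hx
  set N := Fintype.card (𝓞 M ⧸ v.asIdeal) with hN
  have key : ∀ z : 𝓞 Ω, V.valuation (s (z : Ω) - (z : Ω) ^ N) < 1 := by
    intro z
    have h1 := (ps9_lt V _).1 (hσ1 z)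
    rw [← hsz z]
    simpa using h1
  have hxN : V.valuation (x - x ^ N) < 1 := by
    have h1 : V.valuation (s (a : Ω) / s (c : Ω) - (a : Ω) ^ N / (c : Ω) ^ N) < 1 := by
      refine H16C.FR_div_congr V (key a) (key c) ?_ ?_
      · rw [map_pow]
        exact pow_le_one' (H16C.FR_le_one V a.isIntegral_coe) _
      · rw [map_pow, hc, one_pow]
    rw [← map_div₀ s, ← div_pow, ← hxac, hfix] at h1
    exact h1
  -- the residue field of V
  let i : (𝓞 M ⧸ v.asIdeal) →+* IsLocalRing.ResidueField V :=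
    Ideal.Quotient.lift v.asIdeal ((IsLocalRing.residue V).comp ((ps9c V).comp (algebraMap (𝓞 M) (𝓞 Ω)))) (by
      intro z hz
      rw [RingHom.comp_apply, IsLocalRing.residue_eq_zero_iff, ValuationSubring.valuation_lt_one_iff]
      exact (hv z).1 hz)
  obtain ⟨y, hy⟩ := ps9_fin i (IsLocalRing.residue V ⟨x, hx⟩) (by
    rw [← map_pow, ← sub_eq_zero, ← map_sub, IsLocalRing.residue_eq_zero_iff,
      ValuationSubring.valuation_lt_one_iff]
    rw [← Valuation.map_neg]
    have h1 : -(((⟨x, hx⟩ : V) ^ Fintype.card (𝓞 M ⧸ v.asIdeal) - ⟨x, hx⟩ : V) : Ω) = x - x ^ N := by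
      push_cast
      ring
    rw [h1]
    exact hxN)
  obtain ⟨b, rfl⟩ := Ideal.Quotient.mk_surjective y
  refine ⟨b, ?_⟩
  have h1 : IsLocalRing.residue V (ps9c V (algebraMap (𝓞 M) (𝓞 Ω) b)) = IsLocalRing.residue V ⟨x, hx⟩ := hy
  rw [eq_comm, ← sub_eq_zero, ← map_sub, IsLocalRing.residue_eq_zero_iff,
    ValuationSubring.valuation_lt_one_iff] at h1
  exact h1

end H55P
end

-- from Lib.H13S.IN1
section

open NumberField IsDedekindDomain
open scoped Pointwise

namespace H13S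

open H55P

theorem in1_inv_gt {Γ : Type*} [LinearOrderedCommGroupWithZero Γ] {a : Γ} (h0 : 0 < a) (h : a < 1) : 1 < a⁻¹ :=
  (one_lt_inv₀ h0).2 h

/-- The residue characteristic of a valuation ring of algebraic numbers. -/
theorem in1_char {F₀ : Type} [Field F₀] [NumberField F₀] {Ω : Type} [Field Ω] [Algebra F₀ Ω]
    [IsAlgClosed Ω] [Algebra.IsAlgebraic F₀ Ω] [CharZero Ω] (V : ValuationSubring Ω) (hV : V ≠ ⊤) :
    ∃ q : ℕ, q.Prime ∧ V.valuation (q : Ω) < 1 := by
  classical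
  have h1 : ∃ x : Ω, x ∉ V := by
    by_contra hcon
    push Not at hcon
    exact hV (top_le_iff.1 (fun x _ => hcon x))
  obtain ⟨x, hx⟩ := h1
  have hx1 : 1 < V.valuation x := by
    rw [← V.valuation_le_one_iff] at hx
    exact not_le.1 hx
  have hx0 : x ≠ 0 := by
    rintro rfl
    exact hx V.zero_mem
  have hy : V.valuation x⁻¹ < 1 := by
    rw [map_inv₀]
    exact inv_lt_one_of_one_lt₀ hx1
  have halQ : Algebra.IsAlgebraic ℚ F₀ := inferInstance
  have hint0 : IsIntegral F₀ x⁻¹ := Algebra.IsIntegral.isIntegral x⁻¹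
  have hintQ : IsIntegral ℚ x⁻¹ := by
    have : Algebra.IsIntegral ℚ F₀ := inferInstance
    exact isIntegral_trans (R := ℚ) (A := F₀) _ hint0
  have halg : IsAlgebraic ℤ x⁻¹ := (IsFractionRing.isAlgebraic_iff ℤ ℚ Ω).2 hintQ.isAlgebraic
  obtain ⟨n, hn, hnz⟩ := halg.exists_integral_multiple
  have hz0 : n • x⁻¹ ≠ 0 := by
    rw [zsmul_eq_mul]
    exact mul_ne_zero (Int.cast_ne_zero.2 hn) (inv_ne_zero hx0)
  have hzV : V.valuation (n • x⁻¹) < 1 := by
    rw [zsmul_eq_mul, map_mul]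
    refine lt_of_le_of_lt (mul_le_of_le_one_left' ?_) hy
    exact H16C.FR_le_one V (isIntegral_intCast n)
  have hzQ : (⟨n • x⁻¹, hnz⟩ : 𝓞 Ω) ∈ ps9Q V := (ps9_lt V _).2 hzV
  have hne : (ps9Q V).comap (algebraMap ℤ (𝓞 Ω)) ≠ ⊥ := by
    refine Ideal.comap_ne_bot_of_integral_mem (x := (⟨n • x⁻¹, hnz⟩ : 𝓞 Ω)) ?_ hzQ ?_
    · intro h
      apply hz0
      exact congrArg (fun y : 𝓞 Ω => (y : Ω)) h
    · exact Algebra.IsIntegral.isIntegral _
  have hp : ((ps9Q V).comap (algebraMap ℤ (𝓞 Ω))).IsPrime := by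
    have := ps9_prime V
    infer_instance
  obtain ⟨P, hP⟩ : ∃ P, P = (ps9Q V).comap (algebraMap ℤ (𝓞 Ω)) := ⟨_, rfl⟩
  rw [← hP] at hne hp
  have h2 := Submodule.IsPrincipal.prime_generator_of_isPrime P hne
  obtain ⟨g, hg⟩ : ∃ g, g = Submodule.IsPrincipal.generator P := ⟨_, rfl⟩
  rw [← hg] at h2
  have hgP : g ∈ P := by
    rw [hg]
    exact Submodule.IsPrincipal.generator_mem P
  have hqP : ((g.natAbs : ℕ) : ℤ) ∈ P := by
    rcases Int.natAbs_eq g with h | h
    · rw [← h]; exact hgP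
    · have h3 : ((g.natAbs : ℕ) : ℤ) = -g := by omega
      rw [h3]
      exact P.neg_mem hgP
  refine ⟨g.natAbs, Int.prime_iff_natAbs_prime.1 h2, ?_⟩
  rw [hP, Ideal.mem_comap, ps9_lt] at hqP
  simpa using hqP

/-- Chunk IN1 (M/L). Inertia groups of infinite extensions surject onto those of finite extensions. s is an
automorphism of Ω mapping the finite subfield N to itself and acting on N as an element of the inertia group of
V; then some s' in the inertia group of V has the same restriction to N.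

Proof. B = all algebraic integers of Ω (integralClosure ℤ Ω), A = 𝓞 N (or the integers of N), G = Ω ≃ₐ[N] Ω
(= N.fixingSubgroup) acts on B with invariants A, profinite (krullTopology: compact, totally disconnected), continuous
for the discrete topology of B. Wb = {x in B : V.valuation x < 1} is a prime ideal of B. B is contained in V (V is
integrally closed), and every x in V is b/d with b, d in B, V.valuation d = 1 (x lies in a number field E; V ∩ E contains
𝓞 E, so it is the localisation of 𝓞 E at {V.valuation < 1}: HeightOneSpectrum or bottom; or: choose an ideal-theoretic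
denominator). For x in N: s x in V iff x in V (if x in V then s x = x + (s x - x) in V; if s x in V, x not in V, then
1/x in V with value < 1, so s(1/x) has value < 1, contradiction). Hence s⁻¹-translate (or translate) Wb' of Wb under s has the
same intersection with N as Wb: Algebra.IsInvariant.exists_smul_of_under_eq_of_profinite (Mathlib, RingTheory/Invariant/
Profinite) gives u in G with u s Wb = Wb. u s acts on B/Wb (an algebraic extension of the field A/(Wb ∩ A) or of A if Wb ∩ A = 0: it is a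
prime ideal in any case) over A/(Wb ∩ A), because s acts trivially on A modulo Wb:
Ideal.Quotient.stabilizerHom_surjective_of_profinite gives u2 in G with u2 Wb = Wb and the same action on B/Wb. s' = u2⁻¹ u s: it acts trivially on
B/Wb, and for x = b/d in V: s' x - x = (s' b d - b s' d)/(d s' d) has value < 1. On N: s' = s. If V.valuation < 1 never happens on B (V contains
all 1/b, V = ⊤), s' = s works directly (V.valuation (s x - x) < 1 forces s x = x on N, take s' = 1). -/
theorem inertia_lift {F₀ : Type} [Field F₀] [NumberField F₀] {Ω : Type} [Field Ω] [Algebra F₀ Ω]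
    [IsAlgClosure F₀ Ω] (N : IntermediateField F₀ Ω) [FiniteDimensional F₀ N] (V : ValuationSubring Ω)
    (s : Ω ≃ₐ[F₀] Ω) (hN : ∀ x ∈ N, s x ∈ N) (hI : ∀ x ∈ N, x ∈ V → V.valuation (s x - x) < 1) :
    ∃ s' : Ω ≃ₐ[F₀] Ω, Inert V s' ∧ ∀ x ∈ N, s' x = s x := by
  classical
  have hcl0 : IsAlgClosed Ω := IsAlgClosure.isAlgClosed F₀
  have hal0 : Algebra.IsAlgebraic F₀ Ω := IsAlgClosure.isAlgebraic
  have hc0 : CharZero Ω := charZero_of_injective_algebraMap (algebraMap F₀ Ω).injective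
  by_cases hV : V = ⊤
  · refine ⟨1, ?_, ?_⟩
    · intro x _
      simp
    · intro x hx
      have h1 := hI x hx (by rw [hV]; trivial)
      by_contra hne
      have hne' : s x - x ≠ 0 := sub_ne_zero.2 (fun h => hne h.symm)
      have h2 : V.valuation (s x - x)⁻¹ ≤ 1 := (V.valuation_le_one_iff _).2 (by rw [hV]; trivial)
      rw [map_inv₀] at h2
      have h3 : V.valuation (s x - x) ≠ 0 := (Valuation.ne_zero_iff _).2 hne'
      have h4 := in1_inv_gt (zero_lt_iff.2 h3) h1
      exact absurd h2 (not_le.2 h4)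
  obtain ⟨q, hq, hqV⟩ := in1_char (F₀ := F₀) V hV
  have hMn : NumberField N := NumberField.of_module_finite F₀ N
  have hal : Algebra.IsAlgebraic N Ω := Algebra.IsAlgebraic.tower_top (K := F₀) N
  have hcl : IsAlgClosure N Ω := ⟨inferInstance, hal⟩
  have hG : IsGalois N Ω := IsAlgClosure.isGalois N Ω
  -- s on N preserves the values below one
  have hmemV : ∀ x : Ω, V.valuation x < 1 → x ∈ V := fun x hx => (V.valuation_le_one_iff _).1 hx.le
  have hlt1 : ∀ x ∈ N, V.valuation x < 1 → V.valuation (s x) < 1 := by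
    intro x hx h
    have h1 := hI x hx (hmemV x h)
    have h2 : s x = (s x - x) + x := by ring
    rw [h2]
    exact V.valuation.map_add_lt h1 h
  have hlt2 : ∀ x ∈ N, V.valuation (s x) < 1 → V.valuation x < 1 := by
    intro x hx h
    rcases lt_trichotomy (V.valuation x) 1 with h1 | h1 | h1
    · exact h1
    · exfalso
      have h2 := hI x hx ((V.valuation_le_one_iff _).1 h1.le)
      have h3 : V.valuation x < 1 := by
        have h4 : x = s x - (s x - x) := by ring
        rw [h4]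
        exact lt_of_le_of_lt (V.valuation.map_sub _ _) (max_lt h h2)
      rw [h1] at h3
      exact lt_irrefl _ h3
    · exfalso
      have h2 : V.valuation x⁻¹ < 1 := by
        rw [map_inv₀]
        exact inv_lt_one_of_one_lt₀ h1
      have h3 := hlt1 x⁻¹ (N.inv_mem hx) h2
      rw [map_inv₀ s, map_inv₀] at h3
      have hx0 : x ≠ 0 := by
        rintro rfl
        rw [map_zero] at h1
        exact absurd h1 (not_lt.2 zero_le_one)
      have h4 : V.valuation (s x) ≠ 0 := (Valuation.ne_zero_iff _).2 (by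
        intro h5
        exact hx0 (s.injective (by rw [h5, map_zero])))
      have h5 := in1_inv_gt (zero_lt_iff.2 h4) h
      exact lt_irrefl _ (h3.trans h5)
  -- s is surjective on N
  have hsurj : ∀ y ∈ N, ∃ x ∈ N, s x = y := by
    let f : N →ₗ[F₀] N := LinearMap.restrict s.toLinearMap (p := N.toSubmodule) (q := N.toSubmodule) hN
    have hf : Function.Injective f := by
      intro a b hab
      have h1 := congrArg (fun y : N => (y : Ω)) hab
      exact Subtype.ext (s.injective h1)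
    have hf' : Function.Surjective f := LinearMap.injective_iff_surjective.1 hf
    intro y hy
    obtain ⟨x, hx⟩ := hf' ⟨y, hy⟩
    exact ⟨x, x.2, congrArg (fun y : N => (y : Ω)) hx⟩
  obtain ⟨Q, hQ⟩ : ∃ Q : Ideal (𝓞 Ω), Q = ps9Q V := ⟨_, rfl⟩
  have hQlt : ∀ z : 𝓞 Ω, z ∈ Q ↔ V.valuation (z : Ω) < 1 := by
    intro z
    rw [hQ]
    exact ps9_lt V z
  have hQp : Q.IsPrime := by
    rw [hQ]
    exact ps9_prime V
  have hinv := ps9_inv (Ω := Ω) N
  have hsc : SMulCommClass Gal(Ω/N) (𝓞 N) (𝓞 Ω) := by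
    constructor
    intro g a z
    rw [Algebra.smul_def, Algebra.smul_def, smul_mul']
    congr 1
    apply RingOfIntegers.ext
    exact g.commutes (a : N)
  let _ : TopologicalSpace (𝓞 Ω) := ⊥
  have : DiscreteTopology (𝓞 Ω) := ⟨rfl⟩
  have hcont : ContinuousSMul Gal(Ω/N) (𝓞 Ω) := by
    rw [continuousSMul_iff_stabilizer_isOpen]
    intro z
    have h1 := stabilizer_isOpen_of_isIntegral (K := N) (z : Ω)
    convert! h1 using 1
    ext g
    simp only [SetLike.mem_coe, MulAction.mem_stabilizer_iff]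
    constructor
    · intro h
      exact congrArg (fun y : 𝓞 Ω => (y : Ω)) h
    · intro h
      exact RingOfIntegers.coe_injective h
  -- the translate of the prime under s
  let si : 𝓞 Ω →+* 𝓞 Ω := RingOfIntegers.mapRingHom s.symm
  have hsi : ∀ z : 𝓞 Ω, ((si z : 𝓞 Ω) : Ω) = s.symm (z : Ω) := fun z => rfl
  let Q' : Ideal (𝓞 Ω) := Q.comap si
  have hQ'p : Q'.IsPrime := Ideal.comap_isPrime si Q
  have hQ' : ∀ z : 𝓞 Ω, z ∈ Q' ↔ V.valuation (s.symm (z : Ω)) < 1 := by
    intro z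
    rw [Ideal.mem_comap, hQlt, hsi]
  have hunder : Q'.under (𝓞 N) = Q.under (𝓞 N) := by
    ext a
    show (algebraMap (𝓞 N) (𝓞 Ω) a : 𝓞 Ω) ∈ Q' ↔ (algebraMap (𝓞 N) (𝓞 Ω) a : 𝓞 Ω) ∈ Q
    rw [hQ', hQlt]
    have ha : ((algebraMap (𝓞 N) (𝓞 Ω) a : 𝓞 Ω) : Ω) ∈ N := (a : N).2
    obtain ⟨x, hx, hxa⟩ := hsurj _ ha
    rw [← hxa, s.symm_apply_apply]
    exact ⟨fun h => hlt1 x hx h, fun h => hlt2 x hx h⟩
  obtain ⟨u, hu⟩ := Algebra.IsInvariant.exists_smul_of_under_eq_of_profinite (A := 𝓞 N) (B := 𝓞 Ω)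
    (G := Gal(Ω/N)) Q' Q hunder
  have humem : ∀ z : 𝓞 Ω, u • z ∈ Q ↔ z ∈ Q' := by
    intro z
    rw [hu]
    exact Ideal.smul_mem_pointwise_smul_iff
  -- the automorphism t = u s
  obtain ⟨t, ht⟩ : ∃ t : Ω ≃ₐ[F₀] Ω, ∀ x, t x = u (s x) :=
    ⟨s.trans (u.restrictScalars F₀), fun x => rfl⟩
  have htN : ∀ x ∈ N, t x = s x := by
    intro x hx
    rw [ht]
    exact u.commutes ⟨s x, hN x hx⟩
  let tB : 𝓞 Ω ≃+* 𝓞 Ω := RingOfIntegers.mapRingEquiv t
  have htB : ∀ z : 𝓞 Ω, ((tB z : 𝓞 Ω) : Ω) = t (z : Ω) := fun z => rfl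
  have htQ : ∀ z : 𝓞 Ω, tB z ∈ Q ↔ z ∈ Q := by
    intro z
    have h1 : tB z = u • (RingOfIntegers.mapRingHom s z : 𝓞 Ω) := by
      apply RingOfIntegers.coe_injective
      show t (z : Ω) = u (s (z : Ω))
      exact ht _
    rw [h1, humem, hQ', hQlt]
    show V.valuation (s.symm (s (z : Ω))) < 1 ↔ _
    rw [s.symm_apply_apply]
  have hmap : Q = Q.map (tB : 𝓞 Ω →+* 𝓞 Ω) := by
    ext z
    constructor
    · intro hz
      have h1 : tB (tB.symm z) = z := tB.apply_symm_apply z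
      rw [← h1]
      refine Ideal.mem_map_of_mem _ ?_
      rw [← htQ, h1]
      exact hz
    · intro hz
      have h1 : Q.map (tB : 𝓞 Ω →+* 𝓞 Ω) ≤ Q := by
        rw [Ideal.map_le_iff_le_comap]
        intro w hw
        exact (htQ w).2 hw
      exact h1 hz
  let P : Ideal (𝓞 N) := Q.under (𝓞 N)
  have hlo : Q.LiesOver P := ⟨rfl⟩
  let e0 : (𝓞 Ω ⧸ Q) ≃+* (𝓞 Ω ⧸ Q) := Ideal.quotientEquiv Q Q tB hmap
  have he0 : ∀ z : 𝓞 Ω, e0 (Ideal.Quotient.mk Q z) = Ideal.Quotient.mk Q (tB z) := fun z => rfl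
  let e : (𝓞 Ω ⧸ Q) ≃ₐ[𝓞 N ⧸ P] (𝓞 Ω ⧸ Q) := AlgEquiv.ofRingEquiv (f := e0) (by
    intro r
    obtain ⟨a, rfl⟩ := Ideal.Quotient.mk_surjective r
    rw [Ideal.Quotient.algebraMap_mk_of_liesOver, he0, Ideal.Quotient.eq, hQlt]
    have ha : ((algebraMap (𝓞 N) (𝓞 Ω) a : 𝓞 Ω) : Ω) ∈ N := (a : N).2
    have h1 := hI _ ha (ps9_mem V _)
    rw [← htN _ ha] at h1
    exact h1)
  obtain ⟨τ, hτ⟩ := Ideal.Quotient.stabilizerHom_surjective_of_profinite (G := Gal(Ω/N)) P Q e
  have hτ1 : ∀ z : 𝓞 Ω, (τ : Gal(Ω/N)) • z - tB z ∈ Q := by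
    intro z
    rw [← Ideal.Quotient.eq]
    exact DFunLike.congr_fun hτ (Ideal.Quotient.mk Q z)
  have hτQ : ∀ z : 𝓞 Ω, (τ : Gal(Ω/N)) • z ∈ Q ↔ z ∈ Q := by
    intro z
    have h1 : (τ : Gal(Ω/N)) • Q = Q := τ.2
    have h2 : (τ : Gal(Ω/N)) • z ∈ (τ : Gal(Ω/N)) • Q ↔ z ∈ Q := Ideal.smul_mem_pointwise_smul_iff
    rwa [h1] at h2
  obtain ⟨s', hs'⟩ : ∃ s' : Ω ≃ₐ[F₀] Ω, ∀ x, s' x = (τ : Gal(Ω/N)).symm (t x) :=
    ⟨t.trans ((τ : Gal(Ω/N)).symm.restrictScalars F₀), fun x => rfl⟩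
  have hs'B : ∀ z : 𝓞 Ω, V.valuation (s' (z : Ω) - (z : Ω)) < 1 := by
    intro z
    have h1 : (τ : Gal(Ω/N)) • ((RingOfIntegers.mapRingHom s' z : 𝓞 Ω) - z) ∈ Q := by
      have h2 : (τ : Gal(Ω/N)) • ((RingOfIntegers.mapRingHom s' z : 𝓞 Ω) - z) =
          -((τ : Gal(Ω/N)) • z - tB z) := by
        rw [smul_sub]
        have h3 : (τ : Gal(Ω/N)) • (RingOfIntegers.mapRingHom s' z : 𝓞 Ω) = tB z := by
          apply RingOfIntegers.coe_injective
          show (τ : Gal(Ω/N)) (s' (z : Ω)) = t (z : Ω)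
          rw [hs']
          exact (τ : Gal(Ω/N)).apply_symm_apply _
        rw [h3]
        ring
      rw [h2]
      exact Q.neg_mem (hτ1 z)
    rw [hτQ, hQlt] at h1
    exact h1
  refine ⟨s', ?_, ?_⟩
  · intro x hx
    obtain ⟨a, c, hc, rfl⟩ := ps9_frac F₀ V q hq hqV x hx
    rw [map_div₀ s']
    exact H16C.FR_div_congr V (hs'B a) (hs'B c) (H16C.FR_le_one V a.isIntegral_coe) hc
  · intro x hx
    rw [hs', htN x hx]
    exact (τ : Gal(Ω/N)).symm.commutes ⟨s x, hN x hx⟩

end H13S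
end

-- from Lib.H16C.D4
section

/-!
# D4 (S/M): the elliptic relation at a point of large order

Notation of D3.  If `k • P ≠ 0` for `0 < k ≤ i + j` then, for `0 < j < i`,
  `D(i, j) : g_{i+j} g_{i-j} = g_i² g_j² (x_j - x_i)`.
Induction on `i`.  `i = j + 1`: (c_j) of D3, i.e. `psi_odd` for `m = j` and (b) (= `psi_main`) for
`j`, `j + 1`.  `i = j + 2`: `psi_even` for `m = j + 1` and (b) for `j`, `j + 2`:
`g_{2m} g_2 = g_m (g_{m+2} g_{m-1}² - g_{m-2} g_{m+1}²) = (g_{m-1} g_{m+1})² (x_{m-1} - x_{m+1})`.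
`i → i + 1` for `i ≥ j + 2`: `xsym` for `(iP, jP, P)`:
`(x_i-x_j)² (x_1-x_{i+j}) (x_1-x_{i-j}) = (x_i-x_1)² (x_j-x_{i+1}) (x_j-x_{i-1})`; insert `D(i, j)`,
`D(i-1, j)` and (b) for `i`, `i + j`, `i - j` and cancel the nonzero factors
(`x_j ≠ x_{i-1}`, `g_k ≠ 0` for `0 < k ≤ i + j`):
`g_{i+j+1} g_{i-j+1} = g_{i+1}² g_j² (x_j - x_{i+1})`.
The statement follows from `D(i, j)` and (b) for `i`, `j`:
`g_i² g_j² (x_j - x_i) = g_j² g_i² (x_1 - x_i) - g_i² g_j² (x_1 - x_j)`.
-/

open WeierstrassCurve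

namespace H16C

variable {F : Type*} [Field F] [DecidableEq F] {W : WeierstrassCurve.Affine F} [W.IsShortNF]

theorem D4_b (h2 : (2 : F) ≠ 0) {P : W.Point} (hP : P ≠ 0) (M : ℕ)
    (hN : ∀ k : ℕ, 0 < k → k ≤ M → k • P ≠ 0) (k : ℕ) (a b c : ℤ) (hk : 0 < k) (hkM : k ≤ M)
    (ha : a = k) (hb : b = k + 1) (hc : c = k - 1) :
    psi W (xc P) (yc P) a ≠ 0 ∧
      psi W (xc P) (yc P) a ^ 2 * (xc P - xc (k • P)) =
        psi W (xc P) (yc P) b * psi W (xc P) (yc P) c := by
  subst ha hb hc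
  exact psi_main h2 hP (M + 1) (fun k h1 h3 => hN k h1 (Nat.lt_succ_iff.1 h3)) k hk
    (Nat.lt_succ_iff.2 hkM)

theorem D4_D (h2 : (2 : F) ≠ 0) {P : W.Point} (hP : P ≠ 0) (j : ℕ) (hj : 0 < j) (d : ℕ) :
    (∀ k : ℕ, 0 < k → k ≤ 2 * j + d + 1 → k • P ≠ 0) →
    psi W (xc P) (yc P) (2 * j + d + 1) * psi W (xc P) (yc P) (d + 1) =
      psi W (xc P) (yc P) (j + d + 1) ^ 2 * psi W (xc P) (yc P) j ^ 2 *
        (xc (j • P) - xc ((j + d + 1) • P)) := by
  induction d using Nat.twoStepInduction with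
  | zero =>
    intro hN
    obtain ⟨_, b1⟩ := D4_b h2 hP _ hN j j (j + 1) (j - 1) hj (by omega) rfl rfl rfl
    obtain ⟨_, b2⟩ := D4_b h2 hP _ hN (j + 1) (j + 1) (j + 2) j (by omega) (by omega)
      (by push_cast; ring) (by push_cast; ring) (by push_cast; ring)
    have h3 := psi_odd W (x := xc P) (y := yc P) (j : ℤ)
    simp only [Nat.cast_zero, add_zero, zero_add]
    rw [psi_one, h3]
    linear_combination (-psi W (xc P) (yc P) j ^ 2) * b2 + psi W (xc P) (yc P) (j + 1) ^ 2 * b1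
  | one =>
    intro hN
    obtain ⟨_, b1⟩ := D4_b h2 hP _ hN j j (j + 1) (j - 1) hj (by omega) rfl rfl rfl
    obtain ⟨_, b2⟩ := D4_b h2 hP _ hN (j + 1 + 1) (j + 1 + 1) (j + 3) (j + 1) (by omega) (by omega)
      (by push_cast; ring) (by push_cast; ring) (by push_cast; ring)
    have h3 := psi_even W (x := xc P) (y := yc P) ((j : ℤ) + 1)
    have e1 : 2 * ((j : ℤ) + 1) = 2 * (j : ℤ) + 1 + 1 := by ring
    have e2 : (j : ℤ) + 1 - 1 = j := by ring
    have e3 : (j : ℤ) + 1 + 2 = j + 3 := by ring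
    have e4 : (j : ℤ) + 1 - 2 = j - 1 := by ring
    rw [e1, e2, e3, e4] at h3
    simp only [Nat.cast_one]
    have e5 : (1 : ℤ) + 1 = 2 := by norm_num
    rw [e5, psi_two]
    linear_combination h3 + (-psi W (xc P) (yc P) j ^ 2) * b2 +
      psi W (xc P) (yc P) (j + 1 + 1) ^ 2 * b1
  | more d ih1 ih2 =>
    intro hN
    have hD1 := ih1 (fun k h1 h3 => hN k h1 (by omega))
    have hD2 := ih2 (fun k h1 h3 => hN k h1 (by omega))
    have z : ∀ k : ℕ, 0 < k → k ≤ 2 * j + (d + 2) + 1 → k • P ≠ 0 := hN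
    -- the points
    have p1 : (j + d + 2) • P + j • P = (2 * j + d + 2) • P := by
      rw [← add_nsmul]
      congr 1
      ring
    have p2 : (j + d + 2) • P - j • P = (d + 2) • P := by
      rw [sub_eq_iff_eq_add, ← add_nsmul]
      congr 1
      ring
    have p3 : (j + d + 2) • P + P = (j + d + 3) • P := by
      rw [← succ_nsmul]
    have p4 : (j + d + 2) • P - P = (j + d + 1) • P := by
      rw [sub_eq_iff_eq_add, ← succ_nsmul]
    have z1 := z (j + d + 2) (by omega) (by omega)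
    have z2 := z j hj (by omega)
    have x1 : xc ((j + d + 2) • P) ≠ xc (j • P) := xc_ne z1 z2
      (by rw [p1]; exact z _ (by omega) (by omega)) (by rw [p2]; exact z _ (by omega) (by omega))
    have x2 : xc ((j + d + 2) • P) ≠ xc P := xc_ne z1 hP
      (by rw [p3]; exact z _ (by omega) (by omega)) (by rw [p4]; exact z _ (by omega) (by omega))
    have hx := xsym z1 z2 hP x1 x2
    rw [p1, p2, p3, p4] at hx
    obtain ⟨_, b3⟩ := D4_b h2 hP _ hN (j + d + 2) (j + d + 2) (j + d + 3) (j + d + 1) (by omega)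
      (by omega) (by push_cast; ring) (by push_cast; ring) (by push_cast; ring)
    obtain ⟨_, b4⟩ := D4_b h2 hP _ hN (2 * j + d + 2) (2 * j + d + 2) (2 * j + d + 3)
      (2 * j + d + 1) (by omega) (by omega) (by push_cast; ring) (by push_cast; ring)
      (by push_cast; ring)
    obtain ⟨_, b5⟩ := D4_b h2 hP _ hN (d + 2) (d + 2) (d + 3) (d + 1) (by omega) (by omega)
      (by push_cast; ring) (by push_cast; ring) (by push_cast; ring)
    obtain ⟨n1, _⟩ := D4_b h2 hP _ hN (2 * j + d + 1) (2 * j + d + 1) (2 * j + d + 2)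
      (2 * j + d) (by omega) (by omega) (by push_cast; ring) (by push_cast; ring)
      (by push_cast; ring)
    obtain ⟨n2, _⟩ := D4_b h2 hP _ hN (d + 1) (d + 1) (d + 2) d (by omega) (by omega)
      (by push_cast; ring) (by push_cast; ring) (by push_cast; ring)
    -- normal forms of the indices
    have c1 : (2 * (j : ℤ) + ((d + 1 : ℕ) : ℤ) + 1) = 2 * j + d + 2 := by push_cast; ring
    have c2 : (((d + 1 : ℕ) : ℤ) + 1) = d + 2 := by push_cast; ring
    have c3 : ((j : ℤ) + ((d + 1 : ℕ) : ℤ) + 1) = j + d + 2 := by push_cast; ring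
    have c4 : (2 * (j : ℤ) + ((d + 2 : ℕ) : ℤ) + 1) = 2 * j + d + 3 := by push_cast; ring
    have c5 : (((d + 2 : ℕ) : ℤ) + 1) = d + 3 := by push_cast; ring
    have c6 : ((j : ℤ) + ((d + 2 : ℕ) : ℤ) + 1) = j + d + 3 := by push_cast; ring
    have c7 : j + (d + 1) + 1 = j + d + 2 := by ring
    have c8 : j + (d + 2) + 1 = j + d + 3 := by ring
    rw [c1, c2, c3, c7] at hD2
    rw [c4, c5, c6, c8]
    generalize psi W (xc P) (yc P) (2 * j + d + 1) = A1 at *
    generalize psi W (xc P) (yc P) (2 * j + d + 2) = A2 at *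
    generalize psi W (xc P) (yc P) (2 * j + d + 3) = A3 at *
    generalize psi W (xc P) (yc P) (d + 1) = B1 at *
    generalize psi W (xc P) (yc P) (d + 2) = B2 at *
    generalize psi W (xc P) (yc P) (d + 3) = B3 at *
    generalize psi W (xc P) (yc P) (j + d + 1) = C1 at *
    generalize psi W (xc P) (yc P) (j + d + 2) = C2 at *
    generalize psi W (xc P) (yc P) (j + d + 3) = C3 at *
    generalize psi W (xc P) (yc P) j = G at *
    generalize xc P = X at *
    generalize xc (j • P) = Xj at *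
    generalize xc ((j + d + 1) • P) = X1 at *
    generalize xc ((j + d + 2) • P) = X2 at *
    generalize xc ((j + d + 3) • P) = X3 at *
    generalize xc ((2 * j + d + 2) • P) = Y2 at *
    generalize xc ((d + 2) • P) = Z2 at *
    have hn : X2 - Xj ≠ 0 := sub_ne_zero.mpr x1
    -- hD1 : A1 * B1 = C1 ^ 2 * G ^ 2 * (Xj - X1)
    -- hD2 : A2 * B2 = C2 ^ 2 * G ^ 2 * (Xj - X2)
    have k1 : (X2 - Xj) ^ 2 * (A1 * B1) * (A3 * B3 - C3 ^ 2 * G ^ 2 * (Xj - X3)) = 0 := by
      have e1 : (X2 - Xj) ^ 2 * (A3 * A1 * (B3 * B1)) =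
          (A2 * B2) ^ 2 * ((X2 - Xj) ^ 2 * ((X - Y2) * (X - Z2))) := by
        rw [← b4, ← b5]
        ring
      rw [hx, hD2] at e1
      have e2 : (C2 ^ 2 * G ^ 2 * (Xj - X2)) ^ 2 * ((X2 - X) ^ 2 * ((Xj - X3) * (Xj - X1))) =
          (X2 - Xj) ^ 2 * (C2 ^ 2 * (X - X2)) ^ 2 * G ^ 4 * ((Xj - X3) * (Xj - X1)) := by ring
      rw [e2, b3] at e1
      have e3 : (X2 - Xj) ^ 2 * (A1 * B1) * (A3 * B3 - C3 ^ 2 * G ^ 2 * (Xj - X3)) =
          (X2 - Xj) ^ 2 * (A3 * A1 * (B3 * B1)) -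
            (X2 - Xj) ^ 2 * (A1 * B1) * (C3 ^ 2 * G ^ 2 * (Xj - X3)) := by ring
      rw [e3, e1, hD1]
      ring
    rcases mul_eq_zero.mp k1 with h | h
    · exact absurd h (mul_ne_zero (pow_ne_zero 2 hn) (mul_ne_zero n1 n2))
    · exact sub_eq_zero.mp h

theorem ell_generic (h2 : (2 : F) ≠ 0) {P : W.Point} (hP : P ≠ 0) (i j : ℕ) (hj : 0 < j)
    (hij : j < i) (hN : ∀ k : ℕ, 0 < k → k ≤ i + j → k • P ≠ 0) :
    psi W (xc P) (yc P) (i + j) * psi W (xc P) (yc P) (i - j) =
      psi W (xc P) (yc P) (i + 1) * psi W (xc P) (yc P) (i - 1) * psi W (xc P) (yc P) j ^ 2 -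
        psi W (xc P) (yc P) (j + 1) * psi W (xc P) (yc P) (j - 1) * psi W (xc P) (yc P) i ^ 2 := by
  obtain ⟨d, rfl⟩ : ∃ d, i = j + d + 1 := ⟨i - j - 1, by omega⟩
  have hD := D4_D h2 hP j hj d (fun k h1 h3 => hN k h1 (by omega))
  obtain ⟨_, b1⟩ := D4_b h2 hP _ hN j j (j + 1) (j - 1) hj (by omega) rfl rfl rfl
  obtain ⟨_, b2⟩ := D4_b h2 hP _ hN (j + d + 1) (j + d + 1) (j + d + 1 + 1) (j + d + 1 - 1)
    (by omega) (by omega) (by push_cast; ring) (by push_cast; ring) (by push_cast; ring)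
  have c1 : (((j + d + 1 : ℕ) : ℤ) + j) = 2 * j + d + 1 := by push_cast; ring
  have c2 : (((j + d + 1 : ℕ) : ℤ) - j) = d + 1 := by push_cast; ring
  have c3 : (((j + d + 1 : ℕ) : ℤ)) = j + d + 1 := by push_cast; ring
  rw [c1, c2, c3, hD]
  linear_combination (-psi W (xc P) (yc P) (j + d + 1) ^ 2) * b1 +
    psi W (xc P) (yc P) j ^ 2 * b2

end H16C
end

-- from Lib.H16C.D5
section

/-!
# D5 (M): the elliptic relation at every point (universal point)

Characteristic `0`, `W` elliptic.  `R = W.CoordinateRing = F[X, Y]/(Y² - f(X))` is a domain with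
fraction field `K = W.FunctionField`.  The curve over `K` (`WeierstrassCurve.Affine.baseChange W K`,
short and elliptic) has the universal point `U = (X, Y)` (`exists_pt`).
`U` has infinite order: otherwise let `N ≥ 2` be its exact order; `psi_order` gives
`psi (X) (Y) N = 0`, so `(W.ΨSq N)(X) = 0` in `K` (`psi_sq`, `map_ΨSq`); but `F[X] → R` is injective
(Mathlib: `CoordinateRing` has basis `1, Y` over `F[X]`, `CoordinateRing.basis`, `XYIdeal` file;
e.g. `AdjoinRoot.of` is injective since `polynomial` is monic of degree `2 > 0`) and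
`W.ΨSq N ≠ 0` (`ΨSq_ne_zero`, characteristic `0`).
So `ell_generic` holds for `U` and all `i > j > 0`: an identity in `K` between elements of `R`
(`psi` of the images of `X, Y ∈ R` is the image of `normEDS (2Y) (Ψ₃(X)) (preΨ₄(X)) n ∈ R`,
`map_normEDS`), so an identity in `R` (`R → K` injective).  Apply the ring homomorphism `R → F`,
`X ↦ x`, `Y ↦ y` (`AdjoinRoot.lift`, `AdjoinRoot.evalEval` or `CoordinateRing.map`; `(x, y)` on the
curve) and `map_normEDS` again.
-/

open WeierstrassCurve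

namespace H16C

variable {F : Type*} [Field F] [CharZero F] {W : WeierstrassCurve.Affine F} [W.IsShortNF]
  [W.IsElliptic] {x y : F}

section D5aux

open Polynomial

omit [CharZero F] [W.IsShortNF] [W.IsElliptic] in
theorem D5_aeval (p : F[X]) :
    aeval (algebraMap F[X] W.CoordinateRing X) p = algebraMap F[X] W.CoordinateRing p := by
  rw [aeval_algebraMap_apply, aeval_X_left_apply]

/-- the value of the division polynomial at the universal point -/
noncomputable def D5psi (W : WeierstrassCurve.Affine F) (n : ℤ) : W.CoordinateRing :=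
  normEDS (2 * AdjoinRoot.root W.polynomial) (algebraMap F[X] W.CoordinateRing W.Ψ₃)
    (algebraMap F[X] W.CoordinateRing W.preΨ₄) n

omit [CharZero F] [W.IsElliptic] in
theorem D5_poly : W.polynomial = X ^ 2 - C (X ^ 3 + C W.a₄ * X + C W.a₆) := by
  rw [WeierstrassCurve.Affine.polynomial]
  simp

omit [CharZero F] [W.IsElliptic] in
theorem D5_eqn : (AdjoinRoot.root W.polynomial : W.CoordinateRing) ^ 2 =
    algebraMap F[X] W.CoordinateRing X ^ 3 +
      algebraMap F W.CoordinateRing W.a₄ * algebraMap F[X] W.CoordinateRing X +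
      algebraMap F W.CoordinateRing W.a₆ := by
  have h := AdjoinRoot.eval₂_root W.polynomial
  have h2 : eval₂ (AdjoinRoot.of W.polynomial) (AdjoinRoot.root W.polynomial)
      (X ^ 2 - C (X ^ 3 + C W.a₄ * X + C W.a₆) : F[X][X]) = 0 := by
    rw [← D5_poly]
    exact h
  simp only [eval₂_add, eval₂_sub, eval₂_mul, eval₂_pow, eval₂_X, eval₂_C, map_add, map_mul,
    map_pow] at h2
  have e1 : ∀ a : F, algebraMap F W.CoordinateRing a = AdjoinRoot.of W.polynomial (C a) := by
    intro a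
    rfl
  have e2 : ∀ p : F[X], algebraMap F[X] W.CoordinateRing p = AdjoinRoot.of W.polynomial p := by
    intro p
    rfl
  rw [e1, e1, e2]
  linear_combination h2

omit [CharZero F] [W.IsElliptic] in
/-- the evaluation at a point of the curve -/
theorem D5_ev (h : y ^ 2 = x ^ 3 + W.a₄ * x + W.a₆) :
    ∃ f : W.CoordinateRing →+* F, ∀ n : ℤ, f (D5psi W n) = psi W x y n := by
  have h0 : eval₂ (evalRingHom x) y W.polynomial = 0 := by
    rw [D5_poly]
    simp only [eval₂_add, eval₂_sub, eval₂_mul, eval₂_pow, eval₂_X, eval₂_C, coe_evalRingHom,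
      eval_add, eval_mul, eval_pow, eval_X, eval_C]
    linear_combination h
  refine ⟨AdjoinRoot.lift (evalRingHom x) y h0, fun n => ?_⟩
  have e2 : ∀ p : F[X], AdjoinRoot.lift (evalRingHom x) y h0
      (algebraMap F[X] W.CoordinateRing p) = p.eval x := by
    intro p
    change AdjoinRoot.lift (evalRingHom x) y h0 (AdjoinRoot.of W.polynomial p) = p.eval x
    rw [AdjoinRoot.lift_of]
    rfl
  have e3 : AdjoinRoot.lift (evalRingHom x) y h0 (AdjoinRoot.root W.polynomial) = y :=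
    AdjoinRoot.lift_root h0
  rw [D5psi, psi, map_normEDS, e2, e2, map_mul, e3, map_ofNat]

open Classical in
/-- the relation at the universal point -/
theorem D5_univ (i j : ℕ) (hj : 0 < j) (hij : j < i) :
    D5psi W (i + j) * D5psi W (i - j) =
      D5psi W (i + 1) * D5psi W (i - 1) * D5psi W j ^ 2 -
        D5psi W (j + 1) * D5psi W (j - 1) * D5psi W i ^ 2 := by
  have hinj : Function.Injective (algebraMap W.CoordinateRing W.FunctionField) :=
    IsFractionRing.injective _ _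
  haveI : CharZero W.FunctionField := charZero_of_injective_algebraMap
    (FaithfulSMul.algebraMap_injective F W.FunctionField)
  set W' : WeierstrassCurve.Affine W.FunctionField :=
    WeierstrassCurve.Affine.baseChange W W.FunctionField with hW'
  set X' : W.FunctionField := algebraMap W.CoordinateRing W.FunctionField
    (algebraMap F[X] W.CoordinateRing X) with hX'
  set Y' : W.FunctionField := algebraMap W.CoordinateRing W.FunctionField
    (AdjoinRoot.root W.polynomial) with hY'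
  have hW4 : W'.a₄ = algebraMap W.CoordinateRing W.FunctionField
      (algebraMap F W.CoordinateRing W.a₄) := by
    rw [← IsScalarTower.algebraMap_apply]
    rfl
  have hW6 : W'.a₆ = algebraMap W.CoordinateRing W.FunctionField
      (algebraMap F W.CoordinateRing W.a₆) := by
    rw [← IsScalarTower.algebraMap_apply]
    rfl
  have hXY : Y' ^ 2 = X' ^ 3 + W'.a₄ * X' + W'.a₆ := by
    rw [hW4, hW6, hX', hY', ← map_pow, ← map_pow, ← map_mul, ← map_add, ← map_add, D5_eqn]
  have hpe : ∀ p : F[X], (p.map (algebraMap F W.FunctionField)).eval X' =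
      algebraMap W.CoordinateRing W.FunctionField (algebraMap F[X] W.CoordinateRing p) := by
    intro p
    rw [eval_map, ← aeval_def, hX', aeval_algebraMap_apply, D5_aeval]
  have hpsi : ∀ n : ℤ, psi W' X' Y' n =
      algebraMap W.CoordinateRing W.FunctionField (D5psi W n) := by
    intro n
    rw [D5psi, psi, map_normEDS, map_mul, map_ofNat]
    have e3 : W'.Ψ₃.eval X' = algebraMap W.CoordinateRing W.FunctionField
        (algebraMap F[X] W.CoordinateRing W.Ψ₃) := by
      rw [← hpe]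
      exact congrArg (fun p => eval X' p) (map_Ψ₃ W (algebraMap F W.FunctionField))
    have e4 : W'.preΨ₄.eval X' = algebraMap W.CoordinateRing W.FunctionField
        (algebraMap F[X] W.CoordinateRing W.preΨ₄) := by
      rw [← hpe]
      exact congrArg (fun p => eval X' p) (map_preΨ₄ W (algebraMap F W.FunctionField))
    rw [e3, e4]
  obtain ⟨U, hU0, hUx, hUy⟩ := exists_pt (W := W') X' Y' hXY
  have hinf : ∀ N : ℕ, 0 < N → N • U ≠ 0 := by
    intro N
    induction N using Nat.strong_induction_on with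
    | _ N ih =>
      intro hN hNU
      have hN2 : 2 ≤ N := by
        rcases Nat.lt_or_ge N 2 with h | h
        · have : N = 1 := by omega
          subst this
          rw [one_smul] at hNU
          exact absurd hNU hU0
        · exact h
      have h1 := psi_order (W := W') (two_ne_zero) hU0 N hN2
        (fun k hk hkN => ih k hkN hk) hNU
      rw [hUx, hUy] at h1
      have h2 := psi_sq W' hXY (N : ℤ)
      rw [h1] at h2
      have h3 : W'.ΨSq N = (W.ΨSq N).map (algebraMap F W.FunctionField) :=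
        map_ΨSq W (algebraMap F W.FunctionField) N
      rw [h3, hpe, zero_pow two_ne_zero] at h2
      have h4 : algebraMap F[X] W.CoordinateRing (W.ΨSq N) = 0 := by
        apply hinj
        rw [← h2, map_zero]
      have h5 : W.ΨSq (N : ℤ) = 0 := by
        apply FaithfulSMul.algebraMap_injective F[X] W.CoordinateRing
        rw [h4, map_zero]
      exact W.ΨSq_ne_zero (n := (N : ℤ)) (by exact_mod_cast (by omega : N ≠ 0)) h5
  have key := ell_generic (W := W') two_ne_zero hU0 i j hj hij (fun k hk _ => hinf k hk)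
  rw [hUx, hUy] at key
  simp only [hpsi, ← map_mul, ← map_pow, ← map_sub] at key
  exact hinj key

end D5aux

theorem ell_rel (h : y ^ 2 = x ^ 3 + W.a₄ * x + W.a₆) (i j : ℕ) (hj : 0 < j) (hij : j < i) :
    psi W x y (i + j) * psi W x y (i - j) =
      psi W x y (i + 1) * psi W x y (i - 1) * psi W x y j ^ 2 -
        psi W x y (j + 1) * psi W x y (j - 1) * psi W x y i ^ 2 := by
  obtain ⟨f, hf⟩ := D5_ev (W := W) h
  have key := congrArg f (D5_univ (W := W) i j hj hij)
  simp only [map_mul, map_pow, map_sub, hf] at key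
  exact key

end H16C
end

-- from Lib.H16C.D6
section

/-!
# D6 (S/M): `ψ_m(P) = 0` implies `mP = O`

If `P` has infinite order: `psi_main`.  Let `N ≥ 2` be the exact order of `P` (`addOrderOf P`),
`g_k = psi W x y k`: `g_k ≠ 0` for `0 < k < N` (`psi_main`), `g_N = 0` (`psi_order`).
(1) `g_{N+1} ≠ 0`.  `N = 2`: `y = 0` and, with `a₆ = -x³ - a₄ x`, `g_3 = -(3x² + a₄)²`
(`psi_three`); `3x² + a₄ ≠ 0` because `Δ = -16(4a₄³ + 27a₆²) ≠ 0` (if `3x² + a₄ = 0` then
`a₆ = 2x³`, `a₄ = -3x²`, `Δ = 0`).  `N = 3`: `2P = -P`, `y(2P) = -y ≠ 0`, and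
`g_4 = 4y · (...) = 4y · 8y³ y(2P) = -32 y⁵ ≠ 0` (`psi_four`, `yc_dbl`).  `N ≥ 4`: `ell_rel` for
`(N-1, 2)`: `g_{N+1} g_{N-3} = g_N g_{N-2} g_2² - g_3 g_1 g_{N-1}² = - g_3 g_{N-1}² ≠ 0`.
(2) Suppose `g_m = 0`, `m > 0`, `N ∤ m`, `m` minimal.  Then `m > N`.  If `m < 2N`: `ell_rel` for
`(N, m - N)`: `g_m g_{2N-m} = g_{N+1} g_{N-1} g_{m-N}² - g_{m-N+1} g_{m-N-1} g_N² ≠ 0` (as
`g_N = 0`), contradiction.  If `m > 2N`: `ell_rel` for `(m - N, N)`:
`0 = g_m g_{m-2N} = g_{m-N+1} g_{m-N-1} g_N² - g_{N+1} g_{N-1} g_{m-N}²`, so `g_{m-N} = 0`, and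
`N ∣ m - N` by minimality.
-/

open WeierstrassCurve

namespace H16C

variable {F : Type*} [Field F] [DecidableEq F] [CharZero F] {W : WeierstrassCurve.Affine F}
  [W.IsShortNF] [W.IsElliptic]

omit [DecidableEq F] [CharZero F] in
theorem D6_deriv {x y : F} (h : y ^ 2 = x ^ 3 + W.a₄ * x + W.a₆) (hy : y = 0) :
    3 * x ^ 2 + W.a₄ ≠ 0 := by
  intro h0
  apply W.isUnit_Δ.ne_zero
  rw [W.Δ_of_isShortNF]
  rw [hy] at h
  have h1 : W.a₄ = -3 * x ^ 2 := by linear_combination h0
  have h2 : W.a₆ = 2 * x ^ 3 := by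
    rw [h1] at h
    linear_combination -h
  rw [h1, h2]
  ring

/-- the facts on the values at a point of exact order `N ≥ 2` -/
theorem D6_succ {P : W.Point} (hP : P ≠ 0) (N : ℕ) (hN2 : 2 ≤ N)
    (hN : ∀ k : ℕ, 0 < k → k < N → k • P ≠ 0) (hNP : N • P = 0) :
    psi W (xc P) (yc P) (N + 1) ≠ 0 := by
  have h2 : (2 : F) ≠ 0 := two_ne_zero
  have hE := eqn hP
  have hN0 := psi_order h2 hP N hN2 hN hNP
  have hne : ∀ k : ℕ, 0 < k → k < N → psi W (xc P) (yc P) k ≠ 0 := fun k h1 h3 =>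
    (psi_main h2 hP N hN k h1 h3).1
  rcases Nat.lt_or_ge N 4 with h4 | h4
  · interval_cases N
    · have hy : yc P = 0 := (two_smul_eq_zero_iff h2 hP).mp hNP
      have hd := D6_deriv hE hy
      have e : (((2 : ℕ) : ℤ) + 1) = 3 := by norm_num
      rw [e, psi_three]
      rw [hy] at hE
      have h6 : W.a₆ = -xc P ^ 3 - W.a₄ * xc P := by linear_combination -hE
      have e1 : 3 * xc P ^ 4 + 6 * W.a₄ * xc P ^ 2 + 12 * W.a₆ * xc P - W.a₄ ^ 2 =
          -(3 * xc P ^ 2 + W.a₄) ^ 2 := by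
        rw [h6]
        ring
      rw [e1]
      exact neg_ne_zero.mpr (pow_ne_zero 2 hd)
    · have h2P : 2 • P ≠ 0 := hN 2 (by norm_num) (by norm_num)
      have hy : yc P ≠ 0 := fun h => h2P ((two_smul_eq_zero_iff h2 hP).mpr h)
      have e : (((3 : ℕ) : ℤ) + 1) = 4 := by norm_num
      rw [e, psi_four, ← yc_dbl h2 hP hy]
      have h3 : 2 • P = -P := by
        rw [eq_neg_iff_add_eq_zero, ← succ_nsmul]
        exact hNP
      rw [h3, yc_neg]
      have e1 : 4 * yc P * (8 * yc P ^ 3 * -yc P) = -32 * yc P ^ 5 := by ring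
      rw [e1]
      exact mul_ne_zero (by norm_num) (pow_ne_zero 5 hy)
  · obtain ⟨M, rfl⟩ : ∃ M, N = M + 4 := ⟨N - 4, by omega⟩
    have h := ell_rel hE (M + 3) 2 (by norm_num) (by omega)
    have c1 : (((M + 3 : ℕ) : ℤ) + ((2 : ℕ) : ℤ)) = ((M + 4 : ℕ) : ℤ) + 1 := by push_cast; ring
    have c2 : (((M + 3 : ℕ) : ℤ) + 1) = ((M + 4 : ℕ) : ℤ) := by push_cast; ring
    have c3 : (((2 : ℕ) : ℤ) + 1) = ((3 : ℕ) : ℤ) := by norm_num
    have c4 : (((2 : ℕ) : ℤ) - 1) = 1 := by norm_num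
    rw [c1, c2, c3, c4, hN0, psi_one] at h
    intro h0
    rw [h0] at h
    have h5 := hne 3 (by norm_num) (by omega)
    have h6 := hne (M + 3) (by omega) (by omega)
    have h7 : psi W (xc P) (yc P) ((3 : ℕ) : ℤ) * psi W (xc P) (yc P) ((M + 3 : ℕ) : ℤ) ^ 2 = 0 := by
      linear_combination h
    exact mul_ne_zero h5 (pow_ne_zero 2 h6) h7

theorem D6_dvd {P : W.Point} (hP : P ≠ 0) (N : ℕ) (hN2 : 2 ≤ N)
    (hN : ∀ k : ℕ, 0 < k → k < N → k • P ≠ 0) (hNP : N • P = 0) (m : ℕ) :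
    0 < m → psi W (xc P) (yc P) m = 0 → N ∣ m := by
  have h2 : (2 : F) ≠ 0 := two_ne_zero
  have hE := eqn hP
  have hN0 := psi_order h2 hP N hN2 hN hNP
  have hN1 := D6_succ hP N hN2 hN hNP
  have hne : ∀ k : ℕ, 0 < k → k < N → psi W (xc P) (yc P) k ≠ 0 := fun k h1 h3 =>
    (psi_main h2 hP N hN k h1 h3).1
  have hNm : psi W (xc P) (yc P) ((N : ℤ) - 1) ≠ 0 := by
    have := hne (N - 1) (by omega) (by omega)
    rwa [Nat.cast_sub (by omega), Nat.cast_one] at this
  induction m using Nat.strong_induction_on with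
  | _ m ih =>
    intro hm h
    rcases Nat.lt_trichotomy m N with hlt | rfl | hgt
    · exact absurd h (hne m hm hlt)
    · exact dvd_rfl
    · rcases Nat.lt_trichotomy m (2 * N) with h3 | rfl | h3
      · exfalso
        obtain ⟨j, rfl⟩ : ∃ j, m = N + j := ⟨m - N, by omega⟩
        have h4 := ell_rel hE N j (by omega) (by omega)
        rw [Nat.cast_add] at h
        rw [h, hN0, zero_mul] at h4
        have h5 : psi W (xc P) (yc P) (N + 1) * psi W (xc P) (yc P) (N - 1) *
            psi W (xc P) (yc P) j ^ 2 = 0 := by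
          linear_combination -h4
        exact mul_ne_zero (mul_ne_zero hN1 hNm) (pow_ne_zero 2 (hne j (by omega) (by omega))) h5
      · exact Dvd.intro_left 2 rfl
      · obtain ⟨i, rfl⟩ : ∃ i, m = i + N := ⟨m - N, by omega⟩
        have h4 := ell_rel hE i N (by omega) (by omega)
        rw [Nat.cast_add] at h
        rw [h, hN0, zero_mul] at h4
        have h5 : psi W (xc P) (yc P) (N + 1) * psi W (xc P) (yc P) (N - 1) *
            psi W (xc P) (yc P) i ^ 2 = 0 := by
          linear_combination h4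
        have h6 : psi W (xc P) (yc P) i = 0 := by
          by_contra h7
          exact mul_ne_zero (mul_ne_zero hN1 hNm) (pow_ne_zero 2 h7) h5
        exact dvd_add (ih i (by omega) (by omega) h6) dvd_rfl

theorem smul_eq_zero_of_psi {P : W.Point} (hP : P ≠ 0) (m : ℕ) (hm : 0 < m)
    (h : psi W (xc P) (yc P) m = 0) : m • P = 0 := by
  have h2 : (2 : F) ≠ 0 := two_ne_zero
  by_cases h0 : addOrderOf P = 0
  · exfalso
    have hk : ∀ k : ℕ, 0 < k → k < m + 1 → k • P ≠ 0 := by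
      intro k hk _ h1
      rw [addOrderOf_eq_zero_iff'] at h0
      exact h0 k hk h1
    exact (psi_main h2 hP (m + 1) hk m hm (Nat.lt_succ_self m)).1 h
  · have h1 : addOrderOf P ≠ 1 := by
      intro h1
      exact hP (AddMonoid.addOrderOf_eq_one_iff.mp h1)
    rw [← addOrderOf_dvd_iff_nsmul_eq_zero]
    refine D6_dvd hP (addOrderOf P) (by omega) ?_ (addOrderOf_nsmul_eq_zero P) m hm h
    intro k hk hk2 h3
    exact absurd (addOrderOf_le_of_nsmul_eq_zero hk h3) (not_le.mpr hk2)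

end H16C
end

-- from Lib.H16C.MW1
section

/-!
# MW1 (M): weak Mordell-Weil theorem for the multiplication by 2, full 2-torsion

`L` a number field, `W` short and elliptic, `x³ + a₄ x + a₆ = (x - e₁)(x - e₂)(x - e₃)` with
`e_i ∈ L` (`e` injective since `Δ ≠ 0`; `e₁ + e₂ + e₃ = 0`).
(1) Halving: `P ≠ O`, `x - e_i = s_i²`, after a change of the sign of `s₁`: `y = s₁ s₂ s₃`
(`y² = ∏ (x - e_i)`; if `y = 0` any sign).  Put `D = (s₁+s₂)(s₁+s₃)(s₂+s₃)`, `D ≠ 0`
(`s_i² ≠ s_j²`), `x_Q = x + s₁s₂ + s₁s₃ + s₂s₃`, `y_Q = D`: `x_Q - e₁ = (s₁+s₂)(s₁+s₃)`, ..., so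
`Q ∈ E(L)`, `f'(x_Q) = 2 (s₁+s₂+s₃) D`, the tangent has the slope `s₁+s₂+s₃`, and `2 Q = P`.
(`xc_dbl`, `yc_dbl` or `Point.add_self`; a direct computation with `linear_combination`.)
(2) `P, P' ≠ O`, `x(P) - e_i`, `x(P') - e_i ≠ 0`, and `(x(P) - e_i)(x(P') - e_i)` is a square for
`i = 1, 2, 3`.  Then `P - P' ∈ 2 E(L)`: if `R = P - P' ≠ O` and `x(P) ≠ x(P')`: the three points
`P, -P', -R` lie on a line `Y = λ X + μ`, `f(X) - (λX + μ)² = (X - x(P))(X - x(P'))(X - x(R))`, at
`X = e_i`: `(x(P) - e_i)(x(P') - e_i)(x(R) - e_i) = (λ e_i + μ)²`; so `x(R) - e_i` is a square for all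
`i` and (1) applies.  If `x(P) = x(P')`: `P' = P`, `R = O`, or `P' = -P`, `R = 2P`.
(3) For `P ≠ O` with `y(P) ≠ 0` let `β_i(P)` = the class of `x(P) - e_i` in `H16A.SqC L`.  Let `B` be
the set of the primes `w` at which some `e_i` or some `(e_i - e_j)⁻¹` has a negative order: finite
(`HeightOneSpectrum.Support.finite`, cf. `H16A.finite_above`).  For `w ∉ B`: `ord_w(x - e_i)` is even:
if `ord x < 0` then `ord(x - e_i) = ord x` for the three `i` and the sum is `2 ord y`; if `ord x ≥ 0`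
at most one of the three orders is `> 0` (their differences are units), the others are `0`, the sum
is even (the same proof as `H16A.u1_par`).  So `β(P)` takes finitely many values
(`H16A.finite_unramified`, `H16A.par`), and by (2) the number of the classes of `E(L)/2E(L)` is at most
that number plus 4 (the points `O`, `(e_i, 0)`).
-/

open WeierstrassCurve NumberField IsDedekindDomain

namespace H16C

section Alg

variable {L : Type*} [Field L] [DecidableEq L] {W : WeierstrassCurve.Affine L} [W.IsShortNF]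
  {e : Fin 3 → L}

theorem MW1_coef [CharZero L]
    (he : ∀ x : L, x ^ 3 + W.a₄ * x + W.a₆ = (x - e 0) * (x - e 1) * (x - e 2)) :
    e 0 + e 1 + e 2 = 0 ∧ W.a₄ = e 0 * e 1 + e 0 * e 2 + e 1 * e 2 ∧ W.a₆ = -(e 0 * e 1 * e 2) := by
  have h0 := he 0
  have h1 := he 1
  have h2 := he (-1)
  have a6 : W.a₆ = -(e 0 * e 1 * e 2) := by linear_combination h0
  have s1 : e 0 + e 1 + e 2 = 0 := by
    have h3 : (2 : L) * (e 0 + e 1 + e 2) = 0 := by linear_combination h1 + h2 - 2 * a6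
    exact (mul_eq_zero.1 h3).resolve_left two_ne_zero
  have a4 : W.a₄ = e 0 * e 1 + e 0 * e 2 + e 1 * e 2 := by
    have h4 : (2 : L) * (W.a₄ - (e 0 * e 1 + e 0 * e 2 + e 1 * e 2)) = 0 := by
      linear_combination h1 - h2
    exact sub_eq_zero.1 ((mul_eq_zero.1 h4).resolve_left two_ne_zero)
  exact ⟨s1, a4, a6⟩

theorem MW1_disc [CharZero L]
    (he : ∀ x : L, x ^ 3 + W.a₄ * x + W.a₆ = (x - e 0) * (x - e 1) * (x - e 2)) :
    W.Δ = 16 * ((e 0 - e 1) * (e 0 - e 2) * (e 1 - e 2)) ^ 2 := by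
  obtain ⟨s1, a4, a6⟩ := MW1_coef he
  have h2 : e 2 = -e 0 - e 1 := by linear_combination s1
  rw [Δ_of_isShortNF, a4, a6, h2]
  ring

theorem MW1_inj [CharZero L] [W.IsElliptic]
    (he : ∀ x : L, x ^ 3 + W.a₄ * x + W.a₆ = (x - e 0) * (x - e 1) * (x - e 2)) :
    e 0 ≠ e 1 ∧ e 0 ≠ e 2 ∧ e 1 ≠ e 2 := by
  have hΔ : W.Δ ≠ 0 := W.isUnit_Δ.ne_zero
  rw [MW1_disc he] at hΔ
  refine ⟨fun h => hΔ ?_, fun h => hΔ ?_, fun h => hΔ ?_⟩
  · rw [h]; ring
  · rw [h]; ring
  · rw [h]; ring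

/-- halving -/
theorem MW1_halve [CharZero L] [W.IsElliptic]
    (he : ∀ x : L, x ^ 3 + W.a₄ * x + W.a₆ = (x - e 0) * (x - e 1) * (x - e 2))
    {P : W.Point} (hP : P ≠ 0) {a b c : L} (h0 : xc P - e 0 = a ^ 2) (h1 : xc P - e 1 = b ^ 2)
    (h2 : xc P - e 2 = c ^ 2) : P ∈ H16A.twoG W.Point := by
  obtain ⟨n01, n02, n12⟩ := MW1_inj he
  obtain ⟨s1, a4, a6⟩ := MW1_coef he
  have e0 : e 0 = xc P - a ^ 2 := by linear_combination -h0
  have e1 : e 1 = xc P - b ^ 2 := by linear_combination -h1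
  have e2 : e 2 = xc P - c ^ 2 := by linear_combination -h2
  have hx : 3 * xc P = a ^ 2 + b ^ 2 + c ^ 2 := by linear_combination h0 + h1 + h2 + s1
  have hab : a + b ≠ 0 := by
    intro h
    apply n01
    have : a = -b := by linear_combination h
    rw [e0, e1, this]
    ring
  have hac : a + c ≠ 0 := by
    intro h
    apply n02
    have : a = -c := by linear_combination h
    rw [e0, e2, this]
    ring
  have hbc : b + c ≠ 0 := by
    intro h
    apply n12
    have : b = -c := by linear_combination h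
    rw [e1, e2, this]
    ring
  have hD : (a + b) * (a + c) * (b + c) ≠ 0 := mul_ne_zero (mul_ne_zero hab hac) hbc
  obtain ⟨Q, hQ, hxQ, hyQ⟩ := exists_pt (W := W) (xc P + a * b + a * c + b * c)
    ((a + b) * (a + c) * (b + c)) (by
      rw [he, e0, e1, e2]
      ring)
  have h20 : (2 : L) ≠ 0 := two_ne_zero
  have hy0 : yc Q ≠ 0 := by rwa [hyQ]
  have h2Q : 2 • Q ≠ 0 := by
    intro h
    exact hy0 ((two_smul_eq_zero_iff h20 hQ).1 h)
  have hd := xc_dbl h20 hQ hy0
  have hxx : xc (2 • Q) = xc P := by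
    have h4 : (4 * yc Q ^ 2) ≠ 0 := mul_ne_zero (by norm_num) (pow_ne_zero 2 hy0)
    apply mul_left_cancel₀ h4
    rw [hd, hxQ, hyQ, a4, a6, e0, e1, e2]
    have hxP : xc P = (a ^ 2 + b ^ 2 + c ^ 2) / 3 := by
      rw [← hx]
      field_simp
    rw [hxP]
    ring
  rcases xc_eq h2Q hP hxx with h | h
  · exact ⟨Q, h⟩
  · refine ⟨-Q, ?_⟩
    change 2 • (-Q) = P
    rw [smul_neg, h, neg_neg]

theorem MW1_sub {P Q : W.Point} (hP : P ≠ 0) (hQ : Q ≠ 0) (h : xc P ≠ xc Q) :
    (xc P - xc Q) ^ 2 * xc (P - Q) = (yc P + yc Q) ^ 2 - (xc P + xc Q) * (xc P - xc Q) ^ 2 := by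
  cases P with
  | zero => exact absurd rfl hP
  | some x₁ y₁ h₁ =>
    cases Q with
    | zero => exact absurd rfl hQ
    | some x₂ y₂ h₂ =>
      have hx : x₁ ≠ x₂ := h
      have hx' : x₁ - x₂ ≠ 0 := sub_ne_zero.2 hx
      rw [sub_eq_add_neg (WeierstrassCurve.Affine.Point.some x₁ y₁ h₁),
        WeierstrassCurve.Affine.Point.neg_some,
        WeierstrassCurve.Affine.Point.add_of_X_ne hx]
      change (x₁ - x₂) ^ 2 * (W.addX x₁ x₂ (W.slope x₁ x₂ y₁ (W.negY x₂ y₂))) =
        (y₁ + y₂) ^ 2 - (x₁ + x₂) * (x₁ - x₂) ^ 2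
      rw [WeierstrassCurve.Affine.slope_of_X_ne hx, WeierstrassCurve.Affine.addX,
        WeierstrassCurve.Affine.negY, a₁_of_isShortNF, a₂_of_isShortNF, a₃_of_isShortNF]
      field_simp
      ring

theorem MW1_line {P Q : W.Point} (hP : P ≠ 0) (hQ : Q ≠ 0) (h : xc P ≠ xc Q) {r : L}
    (hr : r ^ 3 + W.a₄ * r + W.a₆ = 0) :
    (xc P - r) * (xc Q - r) * (xc (P - Q) - r) * (xc P - xc Q) ^ 2 =
      (yc P * (xc Q - r) + yc Q * (xc P - r)) ^ 2 := by
  have h1 := MW1_sub hP hQ h
  have h2 := eqn hP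
  have h3 := eqn hQ
  have h4 : (xc P - r) * (xc Q - r) * (xc (P - Q) - r) * (xc P - xc Q) ^ 2 =
      (xc P - r) * (xc Q - r) * ((yc P + yc Q) ^ 2 - (xc P + xc Q + r) * (xc P - xc Q) ^ 2) := by
    linear_combination (xc P - r) * (xc Q - r) * h1
  rw [h4]
  have h5 : yc P ^ 2 = (xc P - r) * (xc P ^ 2 + xc P * r + r ^ 2 + W.a₄) := by
    linear_combination h2 + hr
  have h6 : yc Q ^ 2 = (xc Q - r) * (xc Q ^ 2 + xc Q * r + r ^ 2 + W.a₄) := by
    linear_combination h3 + hr
  linear_combination ((xc P - r) * (xc Q - r) - (xc Q - r) ^ 2) * h5 +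
    ((xc P - r) * (xc Q - r) - (xc P - r) ^ 2) * h6

theorem MW1_diff [CharZero L] [W.IsElliptic]
    (he : ∀ x : L, x ^ 3 + W.a₄ * x + W.a₆ = (x - e 0) * (x - e 1) * (x - e 2))
    {P Q : W.Point} (hP : P ≠ 0) (hQ : Q ≠ 0) (hPe : ∀ i, xc P ≠ e i) (hQe : ∀ i, xc Q ≠ e i)
    (hs : ∀ i, IsSquare ((xc P - e i) * (xc Q - e i))) : P - Q ∈ H16A.twoG W.Point := by
  by_cases h : xc P = xc Q
  · rcases xc_eq hP hQ h with h1 | h1
    · rw [h1, sub_self]
      exact zero_mem _
    · have h2 : P - Q = 2 • P := by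
        have : Q = -P := by rw [h1, neg_neg]
        rw [this, sub_neg_eq_add, two_smul]
      rw [h2]
      exact ⟨P, rfl⟩
  · have hne := (ne_zero_of_xc_ne hP hQ h).2
    have hroot : ∀ i, e i ^ 3 + W.a₄ * e i + W.a₆ = 0 := by
      intro i
      rw [he]
      fin_cases i <;> simp
    have hsq : ∀ i, ∃ s, xc (P - Q) - e i = s ^ 2 := by
      intro i
      obtain ⟨r, hr⟩ := hs i
      have h1 := MW1_line hP hQ h (hroot i)
      have hr0 : r ≠ 0 := by
        rintro rfl
        rw [mul_zero] at hr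
        exact mul_ne_zero (sub_ne_zero.2 (hPe i)) (sub_ne_zero.2 (hQe i)) hr
      have hx0 : xc P - xc Q ≠ 0 := sub_ne_zero.2 h
      refine ⟨(yc P * (xc Q - e i) + yc Q * (xc P - e i)) / (r * (xc P - xc Q)), ?_⟩
      rw [div_pow, eq_div_iff (pow_ne_zero 2 (mul_ne_zero hr0 hx0)), ← h1, hr]
      ring
    obtain ⟨a, ha⟩ := hsq 0
    obtain ⟨b, hb⟩ := hsq 1
    obtain ⟨c, hc⟩ := hsq 2
    exact MW1_halve he hne ha hb hc

end Alg

section Ord

open H16A

variable {F : Type*} [Field F] [NumberField F] (w : HeightOneSpectrum (𝓞 F))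

theorem MW1_sub_nonneg {x y : F} (hx : 0 ≤ ord w x) (hy : 0 ≤ ord w y) : 0 ≤ ord w (x - y) := by
  by_cases h : x - y = 0
  · rw [h, v1_ord_zero]
  by_cases hx0 : x = 0
  · rw [hx0, zero_sub, ord_neg]
    exact hy
  by_cases hy0 : y = 0
  · rw [hy0, sub_zero]
    exact hx
  · rw [sub_eq_add_neg] at h ⊢
    have h1 := le_ord_add w h hx0 (neg_ne_zero.2 hy0)
    rw [ord_neg] at h1
    exact le_trans (le_min hx hy) h1

theorem MW1_sub_of_neg {x y : F} (hx : ord w x < 0) (hy : 0 ≤ ord w y) :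
    ord w (x - y) = ord w x := by
  have hx0 : x ≠ 0 := by
    rintro rfl
    rw [v1_ord_zero] at hx
    exact lt_irrefl _ hx
  by_cases hy0 : y = 0
  · rw [hy0, sub_zero]
  · rw [sub_eq_add_neg]
    exact (ord_add_of_lt w hx0 (neg_ne_zero.2 hy0) (by rw [ord_neg]; omega)).2

theorem MW1_even {r : Fin 3 → F} (h0 : ∀ i, 0 ≤ ord w (r i))
    (hne : ∀ i j, i ≠ j → r i - r j ≠ 0) (h1 : ∀ i j, i ≠ j → ord w (r i - r j) = 0)
    {x y : F} (hprod : y ^ 2 = (x - r 0) * (x - r 1) * (x - r 2)) (hj : ∀ j, x ≠ r j)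
    (i : Fin 3) : Even (ord w (x - r i)) := by
  have n0 := sub_ne_zero.2 (hj 0)
  have n1 := sub_ne_zero.2 (hj 1)
  have n2 := sub_ne_zero.2 (hj 2)
  have hsum : 2 * ord w y = ord w (x - r 0) + ord w (x - r 1) + ord w (x - r 2) := by
    have h2 := congrArg (ord w) hprod
    rw [ord_pow, ord_mul w (mul_ne_zero n0 n1) n2, ord_mul w n0 n1] at h2
    exact_mod_cast h2
  by_cases hxn : ord w x < 0
  · rw [MW1_sub_of_neg w hxn (h0 i)]
    rw [MW1_sub_of_neg w hxn (h0 0), MW1_sub_of_neg w hxn (h0 1),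
      MW1_sub_of_neg w hxn (h0 2)] at hsum
    exact ⟨ord w y - ord w x, by omega⟩
  · push Not at hxn
    have hnn : ∀ j, 0 ≤ ord w (x - r j) := fun j => MW1_sub_nonneg w hxn (h0 j)
    have hone : ∀ j k : Fin 3, j ≠ k → 0 < ord w (x - r j) → ord w (x - r k) = 0 := by
      intro j k hjk hpos
      by_contra hk
      have hk' : 0 < ord w (x - r k) := lt_of_le_of_ne (hnn k) (Ne.symm hk)
      have h3 : r j - r k = (x - r k) + -(x - r j) := by ring
      have h4 : (x - r k) + -(x - r j) ≠ 0 := h3 ▸ hne j k hjk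
      have h5 := le_ord_add w h4 (sub_ne_zero.2 (hj k)) (neg_ne_zero.2 (sub_ne_zero.2 (hj j)))
      rw [← h3, h1 j k hjk, ord_neg] at h5
      rcases min_le_iff.1 h5 with h6 | h6 <;> omega
    have a0 := hnn 0
    have a1 := hnn 1
    have a2 := hnn 2
    have b01 := hone 0 1 (by decide)
    have b02 := hone 0 2 (by decide)
    have b10 := hone 1 0 (by decide)
    have b12 := hone 1 2 (by decide)
    have b20 := hone 2 0 (by decide)
    have b21 := hone 2 1 (by decide)
    fin_cases i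
    · change Even (ord w (x - r 0))
      rcases eq_or_lt_of_le a0 with h6 | h6
      · rw [← h6]; exact Even.zero
      · exact ⟨ord w y, by have := b01 h6; have := b02 h6; omega⟩
    · change Even (ord w (x - r 1))
      rcases eq_or_lt_of_le a1 with h6 | h6
      · rw [← h6]; exact Even.zero
      · exact ⟨ord w y, by have := b10 h6; have := b12 h6; omega⟩
    · change Even (ord w (x - r 2))
      rcases eq_or_lt_of_le a2 with h6 | h6
      · rw [← h6]; exact Even.zero
      · exact ⟨ord w y, by have := b20 h6; have := b21 h6; omega⟩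

variable (F) in
theorem MW1_fin (z : F) : {w : HeightOneSpectrum (𝓞 F) | ord w z < 0}.Finite := by
  by_cases hz : z = 0
  · refine Set.Finite.subset Set.finite_empty ?_
    intro w hw
    rw [hz] at hw
    exact absurd hw (by
      change ¬ ord w 0 < 0
      rw [v1_ord_zero]
      exact lt_irrefl _)
  · obtain ⟨a, b, hb, hab⟩ := IsFractionRing.div_surjective (A := 𝓞 F) z
    have hb0 : b ≠ 0 := nonZeroDivisors.ne_zero hb
    have hI : Ideal.span {b} ≠ 0 := by
      rw [Ideal.zero_eq_bot, Ne, Ideal.span_singleton_eq_bot]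
      exact hb0
    refine (Ideal.finite_factors hI).subset ?_
    intro w hw
    rw [Set.mem_ofPred_eq, Ideal.dvd_span_singleton]
    by_contra hcon
    have hb1 : (b : F) ≠ 0 := fun h => hb0 (RingOfIntegers.ext h)
    have hab' : (a : F) / (b : F) = z := hab
    have ha1 : (a : F) ≠ 0 := by
      intro h
      rw [h, zero_div] at hab'
      exact hz hab'.symm
    have h1 : ord w (b : F) = 0 := by
      have h2 := ord_int_nonneg w b
      have h3 : ¬ 0 < ord w (b : F) := fun h => hcon ((ord_int_pos_iff w hb0).1 h)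
      omega
    have h4 : 0 ≤ ord w z := by
      rw [← hab', ord_div w ha1 hb1, h1, sub_zero]
      exact ord_int_nonneg w a
    exact absurd hw (not_lt.2 h4)

end Ord

theorem weak_mw {L : Type*} [Field L] [NumberField L] [DecidableEq L] (W : WeierstrassCurve.Affine L)
    [W.IsShortNF] [W.IsElliptic] (e : Fin 3 → L)
    (he : ∀ x : L, x ^ 3 + W.a₄ * x + W.a₆ = (x - e 0) * (x - e 1) * (x - e 2)) :
    (H16A.twoG W.Point).index ≠ 0 := by
  classical
  obtain ⟨n01, n02, n12⟩ := MW1_inj he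
  have hne : ∀ i j : Fin 3, i ≠ j → e i - e j ≠ 0 := by
    intro i j hij
    fin_cases i <;> fin_cases j
    · exact absurd rfl hij
    · exact sub_ne_zero.2 n01
    · exact sub_ne_zero.2 n02
    · exact sub_ne_zero.2 n01.symm
    · exact absurd rfl hij
    · exact sub_ne_zero.2 n12
    · exact sub_ne_zero.2 n02.symm
    · exact sub_ne_zero.2 n12.symm
    · exact absurd rfl hij
  set B : Set (HeightOneSpectrum (𝓞 L)) :=
    (⋃ i : Fin 3, {w | H16A.ord w (e i) < 0}) ∪
      ⋃ p : Fin 3 × Fin 3, {w | H16A.ord w ((e p.1 - e p.2)⁻¹) < 0} with hB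
  have hBfin : B.Finite :=
    (Set.finite_iUnion fun i => MW1_fin L (e i)).union (Set.finite_iUnion fun p => MW1_fin L _)
  set S : Set (H16A.SqC L) := {x | ∀ w, w ∉ B → H16A.par w x = 1} with hS
  have hSfin : S.Finite := H16A.finite_unramified L B hBfin
  have hpi : (Set.pi Set.univ fun _ : Fin 3 => S).Finite := Set.Finite.pi fun _ => hSfin
  -- the generic points
  set A : Set W.Point := {P | P ≠ 0 ∧ ∀ i, xc P ≠ e i} with hA
  set beta : W.Point → Fin 3 → H16A.SqC L := fun P i => H16A.cls (xc P - e i) with hbeta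
  have hβ : ∀ P ∈ A, beta P ∈ Set.pi Set.univ fun _ : Fin 3 => S := by
    rintro P ⟨hP, hPe⟩ i -
    intro w hw
    have h0 : ∀ i, 0 ≤ H16A.ord w (e i) := by
      intro i
      by_contra hcon
      exact hw (Or.inl (Set.mem_iUnion.2 ⟨i, not_le.1 hcon⟩))
    have h1 : ∀ i j, i ≠ j → H16A.ord w (e i - e j) = 0 := by
      intro i j hij
      have h2 : 0 ≤ H16A.ord w (e i - e j) := MW1_sub_nonneg w (h0 i) (h0 j)
      have h3 : 0 ≤ H16A.ord w ((e i - e j)⁻¹) := by
        by_contra hcon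
        exact hw (Or.inr (Set.mem_iUnion.2 ⟨(i, j), not_le.1 hcon⟩))
      rw [H16A.ord_inv] at h3
      omega
    change H16A.par w (H16A.cls (xc P - e i)) = 1
    rw [H16A.par_cls_eq_one_iff w (sub_ne_zero.2 (hPe i))]
    refine MW1_even w h0 hne h1 (y := yc P) ?_ hPe i
    rw [eqn hP, he]
  set q : W.Point → W.Point ⧸ H16A.twoG W.Point := QuotientAddGroup.mk with hq
  have hgen : (q '' A).Finite := by
    have hfac : ∀ P ∈ A, ∀ P' ∈ A, beta P = beta P' → q P = q P' := by
      rintro P ⟨hP, hPe⟩ P' ⟨hP', hPe'⟩ h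
      have h1 : P' - P ∈ H16A.twoG W.Point := by
        refine MW1_diff he hP' hP hPe' hPe fun i => ?_
        have h2 := congrFun h i
        rw [eq_comm] at h2
        exact (H16A.cls_eq_cls_iff (sub_ne_zero.2 (hPe' i)) (sub_ne_zero.2 (hPe i))).1 h2
      rw [hq, QuotientAddGroup.eq]
      rwa [neg_add_eq_sub]
    have hex : ∀ b : Fin 3 → H16A.SqC L, ∃ c : W.Point ⧸ H16A.twoG W.Point,
        ∀ P ∈ A, beta P = b → q P = c := by
      intro b
      by_cases h : ∃ P ∈ A, beta P = b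
      · obtain ⟨P, hP, hb⟩ := h
        exact ⟨q P, fun P' hP' hb' => hfac P' hP' P hP (hb'.trans hb.symm)⟩
      · exact ⟨0, fun P hP hb => absurd ⟨P, hP, hb⟩ h⟩
    choose k hk using hex
    refine (hpi.image k).subset ?_
    rintro c ⟨P, hP, rfl⟩
    exact ⟨beta P, hβ P hP, (hk (beta P) P hP rfl).symm⟩
  have hroot : ∀ i, {P : W.Point | P ≠ 0 ∧ xc P = e i}.Finite := by
    intro i
    refine Set.Subsingleton.finite ?_
    rintro P ⟨hP, hPe⟩ P' ⟨hP', hPe'⟩
    have hy : ∀ R : W.Point, R ≠ 0 → xc R = e i → yc R = 0 := by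
      intro R hR hx
      have h1 := eqn hR
      rw [he, hx] at h1
      have h2 : (e i - e 0) * (e i - e 1) * (e i - e 2) = 0 := by
        fin_cases i <;> simp
      rw [h2] at h1
      exact pow_eq_zero_iff (two_ne_zero) |>.1 h1
    exact pt_ext hP hP' (hPe.trans hPe'.symm) ((hy P hP hPe).trans (hy P' hP' hPe').symm)
  have hall : (Set.univ : Set (W.Point ⧸ H16A.twoG W.Point)) ⊆
      (q '' A) ∪ ({q 0} ∪ ⋃ i : Fin 3, q '' {P : W.Point | P ≠ 0 ∧ xc P = e i}) := by
    intro c _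
    obtain ⟨P, rfl⟩ := QuotientAddGroup.mk_surjective c
    by_cases h0 : P = 0
    · right; left
      rw [h0]
      rfl
    · by_cases hi : ∀ i, xc P ≠ e i
      · left
        exact ⟨P, ⟨h0, hi⟩, rfl⟩
      · push Not at hi
        obtain ⟨i, hi⟩ := hi
        right; right
        exact Set.mem_iUnion.2 ⟨i, P, ⟨h0, hi⟩, rfl⟩
  have hfin : (Set.univ : Set (W.Point ⧸ H16A.twoG W.Point)).Finite :=
    (hgen.union ((Set.finite_singleton _).union
      (Set.finite_iUnion fun i => (hroot i).image q))).subset hall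
  have : Finite (W.Point ⧸ H16A.twoG W.Point) := Set.finite_univ_iff.1 hfin
  exact AddSubgroup.index_ne_zero_of_finite

end H16C
end

-- from Lib.H16C.T1
section

/-!
# T1 (M): torsion and divisibility of `E(F)`, `F` algebraically closed of characteristic `0`

`tors_finite`: (any field of characteristic 0) if `n • P = 0`, `P ≠ 0`, let `N = addOrderOf P`,
`2 ≤ N ∣ n`: `psi_order` and `psi_sq` give `(W.ΨSq N)(xc P) = 0`, and `ΨSq N ≠ 0` (`ΨSq_ne_zero`).
So `xc P` is in a finite set and for every `x` there are at most 2 points (`xc_eq`).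
`no_common_root`: `F` algebraically closed.  Let `y² = f(x)`, `P = (x, y)` (`exists_pt`).  If
`ΨSq n (x) = 0` then `psi n = 0` (`psi_sq`), so `n • P = 0` (`smul_eq_zero_of_psi`).  If also
`Φ n (x) = 0` then `psi (n+1) psi (n-1) = 0` (`psi_phi`), so `(n+1) • P = 0` or
(`n ≥ 2`) `(n-1) • P = 0`; so `P = 0`, contradiction.  (`n = 1`: `ΨSq 1 = 1`.)
`xc_smul`: if `k • P ≠ 0` for `0 < k ≤ n`: `psi_main` and `psi_phi`.
`divisible`: `n ≥ 1`.  Let `B` be the finite set of the `xc P` with `P ≠ 0` and `k • P = 0` for some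
`0 < k ≤ n`.  For `c ∈ F` the polynomial `h_c = Φ n - c ΨSq n` is monic of degree `n²`
(`natDegree_Φ`, `leadingCoeff_Φ`, `natDegree_ΨSq_le`).  Let `C` be the set of the `c` such that some
element of `B` is a root of `h_c`: finite, because for `x ∈ B` either `ΨSq n (x) ≠ 0` and
`c = Φ n (x)/ΨSq n (x)` or `Φ n (x) ≠ 0` and there is no such `c` (`no_common_root`).
If `R ≠ 0`, `c = xc R ∉ C`: a root `x'` of `h_c`, `P' = (x', y')` (`exists_pt`), `xc_smul`:
`xc (n • P') ΨSq n (x') = Φ n (x') = c ΨSq n (x')`, so `xc (n • P') = c` and `n • P' = ± R`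
(`xc_eq`).  Hence only finitely many points are not in `n E(F)`.  `E(F)` is infinite (`exists_pt`),
so `n E(F)` is infinite; if `R ∉ n E(F)` then the infinite coset `R + n E(F)` is disjoint from
`n E(F)`, contradiction.
-/

open WeierstrassCurve Polynomial

namespace H16C

variable {F : Type*} [Field F] [DecidableEq F] [CharZero F] (W : WeierstrassCurve.Affine F)
  [W.IsShortNF] [W.IsElliptic]

variable {W} in
omit [DecidableEq F] [CharZero F] [W.IsElliptic] in
theorem T1_fiber (x : F) : {P : W.Point | P ≠ 0 ∧ xc P = x}.Finite := by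
  by_cases h : ∃ P : W.Point, P ≠ 0 ∧ xc P = x
  · obtain ⟨P, hP, hx⟩ := h
    apply Set.Finite.subset (Set.toFinite ({P, -P} : Set W.Point))
    rintro Q ⟨hQ, hxQ⟩
    rcases xc_eq hQ hP (hxQ.trans hx.symm) with h1 | h1
    · exact Or.inl h1
    · exact Or.inr h1
  · convert Set.finite_empty
    ext P
    constructor
    · intro hP
      exact absurd ⟨P, hP⟩ h
    · intro hP
      exact absurd hP (Set.notMem_empty _)

variable {W} in
omit [CharZero F] [W.IsElliptic] in
theorem T1_fin {S : Set F} (hS : S.Finite) : {P : W.Point | P ≠ 0 ∧ xc P ∈ S}.Finite := by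
  apply Set.Finite.subset (hS.biUnion (fun x _ => T1_fiber (W := W) x))
  rintro P ⟨hP, hx⟩
  rw [Set.mem_iUnion₂]
  exact ⟨xc P, hx, hP, rfl⟩

omit [W.IsElliptic] in
theorem tors_finite (n : ℕ) (hn : 0 < n) : {P : W.Point | n • P = 0}.Finite := by
  have h2 : (2 : F) ≠ 0 := two_ne_zero
  have hS : (⋃ N ∈ Finset.Icc 1 n, {x : F | (W.ΨSq N).eval x = 0}).Finite := by
    apply Set.Finite.biUnion (Finset.finite_toSet _)
    intro N hN
    rw [Finset.mem_coe, Finset.mem_Icc] at hN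
    have h0 : W.ΨSq N ≠ 0 := W.ΨSq_ne_zero (by
      rw [Int.cast_natCast]
      exact_mod_cast (by omega : N ≠ 0))
    apply Set.Finite.subset (W.ΨSq N).roots.toFinset.finite_toSet
    intro x hx
    rw [Finset.mem_coe, Multiset.mem_toFinset, mem_roots h0]
    exact hx
  apply Set.Finite.subset ((Set.finite_singleton (0 : W.Point)).union (T1_fin (W := W) hS))
  intro P hP
  by_cases h0 : P = 0
  · exact Or.inl h0
  · right
    refine ⟨h0, ?_⟩
    rw [Set.mem_iUnion₂]
    have hN0 : addOrderOf P ≠ 0 := by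
      intro h1
      rw [addOrderOf_eq_zero_iff'] at h1
      exact h1 n hn hP
    have hN1 : addOrderOf P ≠ 1 := by
      intro h1
      exact h0 (AddMonoid.addOrderOf_eq_one_iff.mp h1)
    have hNn : addOrderOf P ≤ n := addOrderOf_le_of_nsmul_eq_zero hn hP
    refine ⟨addOrderOf P, Finset.mem_Icc.mpr ⟨by omega, hNn⟩, ?_⟩
    have h3 := psi_order h2 h0 (addOrderOf P) (by omega) (fun k hk hk2 h3 =>
      absurd (addOrderOf_le_of_nsmul_eq_zero hk h3) (not_le.mpr hk2)) (addOrderOf_nsmul_eq_zero P)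
    show (W.ΨSq (addOrderOf P : ℕ)).eval (xc P) = 0
    rw [← psi_sq W (eqn h0), h3]
    ring

theorem no_common_root [IsAlgClosed F] (n : ℕ) (hn : 0 < n) (x : F) (h : (W.ΨSq n).eval x = 0) :
    (W.Φ n).eval x ≠ 0 := by
  intro hΦ
  obtain ⟨y, hy⟩ := IsAlgClosed.exists_pow_nat_eq (x ^ 3 + W.a₄ * x + W.a₆) (n := 2) (by norm_num)
  obtain ⟨P, hP, rfl, rfl⟩ := exists_pt x y hy
  rw [← psi_sq W hy, sq_eq_zero_iff] at h
  have h1 : n • P = 0 := smul_eq_zero_of_psi hP n hn h
  rw [← psi_phi W hy, h] at hΦ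
  have h3 : psi W (xc P) (yc P) (n + 1) * psi W (xc P) (yc P) (n - 1) = 0 := by
    linear_combination -hΦ
  rcases mul_eq_zero.mp h3 with h4 | h4
  · have h5 : (n + 1) • P = 0 := smul_eq_zero_of_psi hP (n + 1) (by omega) (by
      rw [Nat.cast_add, Nat.cast_one]
      exact h4)
    rw [succ_nsmul, h1, zero_add] at h5
    exact hP h5
  · obtain ⟨m, rfl⟩ : ∃ m, n = m + 1 := ⟨n - 1, by omega⟩
    rw [Nat.cast_add, Nat.cast_one, add_sub_cancel_right] at h4
    rcases Nat.eq_zero_or_pos m with rfl | hm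
    · rw [zero_add, one_nsmul] at h1
      exact hP h1
    · have h5 : m • P = 0 := smul_eq_zero_of_psi hP m hm h4
      rw [succ_nsmul, h5, zero_add] at h1
      exact hP h1

variable {W} in
omit [W.IsElliptic] in
theorem xc_smul (n : ℕ) (hn : 0 < n) {P : W.Point} (hP : ∀ k : ℕ, 0 < k → k ≤ n → k • P ≠ 0) :
    (W.ΨSq n).eval (xc P) ≠ 0 ∧ xc (n • P) * (W.ΨSq n).eval (xc P) = (W.Φ n).eval (xc P) := by
  have h2 : (2 : F) ≠ 0 := two_ne_zero
  have h0 : P ≠ 0 := by
    have := hP 1 (by norm_num) hn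
    rwa [one_nsmul] at this
  have hE := eqn h0
  obtain ⟨h3, h4⟩ := psi_main h2 h0 (n + 1) (fun k h1 h3 => hP k h1 (Nat.lt_succ_iff.mp h3)) n hn
    (Nat.lt_succ_self n)
  rw [← psi_sq W hE, ← psi_phi W hE]
  refine ⟨pow_ne_zero 2 h3, ?_⟩
  linear_combination -h4

variable {W} in
theorem divisible [IsAlgClosed F] (n : ℕ) (hn : 0 < n) (R : W.Point) : ∃ P : W.Point, n • P = R := by
  by_contra hR
  push Not at hR
  -- the points of small order
  have hB : {P : W.Point | ∃ k : ℕ, 0 < k ∧ k ≤ n ∧ k • P = 0}.Finite := by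
    apply Set.Finite.subset (Set.Finite.biUnion (Finset.finite_toSet (Finset.Icc 1 n))
      (fun k (hk : k ∈ ((Finset.Icc 1 n : Finset ℕ) : Set ℕ)) => tors_finite W k (by
        rw [Finset.mem_coe, Finset.mem_Icc] at hk
        omega)))
    rintro P ⟨k, h1, h2, h3⟩
    rw [Set.mem_iUnion₂]
    exact ⟨k, Finset.mem_coe.mpr (Finset.mem_Icc.mpr ⟨h1, h2⟩), h3⟩
  have hBx : (xc '' {P : W.Point | ∃ k : ℕ, 0 < k ∧ k ≤ n ∧ k • P = 0}).Finite := hB.image _
  -- the exceptional values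
  have hC : {c : F | ∃ x ∈ (xc '' {P : W.Point | ∃ k : ℕ, 0 < k ∧ k ≤ n ∧ k • P = 0}),
      (W.Φ n).eval x = c * (W.ΨSq n).eval x}.Finite := by
    apply Set.Finite.subset (hBx.image (fun x => (W.Φ n).eval x / (W.ΨSq n).eval x))
    rintro c ⟨x, hx, hc⟩
    refine ⟨x, hx, ?_⟩
    have h1 : (W.ΨSq n).eval x ≠ 0 := by
      intro h1
      have h2 := no_common_root W n hn x h1
      rw [hc, h1, mul_zero] at h2
      exact h2 rfl
    show (W.Φ n).eval x / (W.ΨSq n).eval x = c
    rw [hc, mul_div_assoc, div_self h1, mul_one]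
  have hsurj : ∀ Q : W.Point, Q ≠ 0 → xc Q ∉ {c : F | ∃ x ∈
      (xc '' {P : W.Point | ∃ k : ℕ, 0 < k ∧ k ≤ n ∧ k • P = 0}),
      (W.Φ n).eval x = c * (W.ΨSq n).eval x} → ∃ P : W.Point, n • P = Q := by
    intro Q hQ hc
    obtain ⟨c, hcQ⟩ : ∃ c, c = xc Q := ⟨_, rfl⟩
    rw [← hcQ] at hc
    have hdeg : (W.Φ n - C c * W.ΨSq n).degree ≠ 0 := by
      have h1 : (W.Φ n - C c * W.ΨSq n).coeff (n ^ 2) = 1 := by
        have h2 := W.coeff_Φ n
        rw [Int.natAbs_natCast] at h2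
        have h3 : (C c * W.ΨSq n).coeff (n ^ 2) = 0 := by
          apply coeff_eq_zero_of_natDegree_lt
          refine (natDegree_C_mul_le _ _).trans_lt ((W.natDegree_ΨSq_le n).trans_lt ?_)
          rw [Int.natAbs_natCast]
          have : 0 < n ^ 2 := by positivity
          omega
        rw [coeff_sub, h2, h3, sub_zero]
      have h2 : n ^ 2 ≤ (W.Φ n - C c * W.ΨSq n).natDegree :=
        le_natDegree_of_ne_zero (by rw [h1]; exact one_ne_zero)
      have h3 : 0 < n ^ 2 := by positivity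
      intro h4
      have h5 : (W.Φ n - C c * W.ΨSq n).natDegree = 0 := natDegree_eq_of_degree_eq_some h4
      rw [h5] at h2
      omega
    obtain ⟨x, hx⟩ := IsAlgClosed.exists_root _ hdeg
    rw [IsRoot.def, eval_sub, eval_mul, eval_C, sub_eq_zero] at hx
    obtain ⟨y, hy⟩ := IsAlgClosed.exists_pow_nat_eq (x ^ 3 + W.a₄ * x + W.a₆) (n := 2)
      (by norm_num)
    obtain ⟨P, hP, rfl, rfl⟩ := exists_pt x y hy
    have hPk : ∀ k : ℕ, 0 < k → k ≤ n → k • P ≠ 0 := by
      intro k h1 h2 h3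
      exact hc ⟨xc P, ⟨P, ⟨k, h1, h2, h3⟩, rfl⟩, hx⟩
    obtain ⟨h1, h2⟩ := xc_smul n hn hPk
    rw [hx] at h2
    have h3 := mul_right_cancel₀ h1 h2
    rcases xc_eq (hPk n hn le_rfl) hQ (h3.trans hcQ) with h4 | h4
    · exact ⟨P, h4⟩
    · exact ⟨-P, by rw [smul_neg, h4, neg_neg]⟩
  have hbad : {Q : W.Point | ∀ P : W.Point, n • P ≠ Q}.Finite := by
    apply Set.Finite.subset ((Set.finite_singleton (0 : W.Point)).union (T1_fin (W := W) hC))
    intro Q hQ
    by_cases h0 : Q = 0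
    · exact Or.inl h0
    · right
      refine ⟨h0, ?_⟩
      by_contra h1
      obtain ⟨P, hP⟩ := hsurj Q h0 h1
      exact hQ P hP
  have hinf : Infinite W.Point := by
    have h1 : ∀ x : F, ∃ P : W.Point, xc P = x := by
      intro x
      obtain ⟨y, hy⟩ := IsAlgClosed.exists_pow_nat_eq (x ^ 3 + W.a₄ * x + W.a₆) (n := 2)
        (by norm_num)
      obtain ⟨P, -, hP, -⟩ := exists_pt x y hy
      exact ⟨P, hP⟩
    exact Infinite.of_surjective xc h1
  have hrange : (Set.range (fun P : W.Point => n • P)).Infinite := by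
    intro hfin
    apply (Set.infinite_univ (α := W.Point))
    apply (hfin.union hbad).subset
    intro Q _
    by_cases h : ∃ P : W.Point, n • P = Q
    · exact Or.inl h
    · push Not at h
      exact Or.inr h
  apply (hrange.image (f := fun Q => R + Q) (add_right_injective R).injOn)
  apply hbad.subset
  rintro _ ⟨_, ⟨P, rfl⟩, rfl⟩ P' hP'
  apply hR (P' - P)
  change n • P' = R + n • P at hP'
  rw [nsmul_sub, hP']
  abel

end H16C
end

-- from Lib.H16C.MW3
section

/-!
# MW3 (M): `E(L)/n E(L)` is finite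

`E(L)` = the points `P ∈ E(Ω)` with `rho W g P = P` for `g ∈ N`: their coordinates are in `L`
(`Setup.coord_mem`); `L` is a number field (`S.fin`).  The three points `(e_i, 0)`, `e_i` the roots of
`x³ + a₄ x + a₆` in `Ω`, are killed by `2`, so by `2n`, so fixed by `N` (`S.fix`): `e_i ∈ L`.  The
curve `W_L = WeierstrassCurve.Affine.baseChange W S.L` is short and elliptic (instances), so
`weak_mw` and `mordell_weil` apply: `E(L) = W_L.Point` is finitely generated, and
`E(L)/n E(L)` is finite (a finitely generated abelian group killed by `n > 0`).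
`WeierstrassCurve.Affine.Point.map` (inclusion `L → Ω` over `k`) identifies `W_L.Point` with the points
fixed by `N` (a point with coordinates in `L` comes from `W_L.Point`; `Point.map_some`).
`cl P` = the class of `P` (any value for the points that are not over `L`).
-/

open WeierstrassCurve NumberField

namespace H16C

theorem MW3_cubic {Ω : Type*} [Field Ω] [IsAlgClosed Ω] (a b : Ω) : ∃ e : Fin 3 → Ω,
    ∀ x : Ω, x ^ 3 + a * x + b = (x - e 0) * (x - e 1) * (x - e 2) := by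
  obtain ⟨r, hr⟩ : ∃ r : Ω, r ^ 3 + a * r + b = 0 := by
    have h := IsAlgClosed.exists_root (Polynomial.X ^ 3 + Polynomial.C a * Polynomial.X +
      Polynomial.C b : Polynomial Ω) (by
        have : (Polynomial.X ^ 3 + Polynomial.C a * Polynomial.X +
          Polynomial.C b : Polynomial Ω).degree = 3 := by compute_degree!
        rw [this]
        norm_num)
    obtain ⟨r, hr⟩ := h
    refine ⟨r, ?_⟩
    simpa [Polynomial.IsRoot] using hr
  obtain ⟨s, hs⟩ : ∃ s : Ω, s ^ 2 + r * s + (r ^ 2 + a) = 0 := by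
    have h := IsAlgClosed.exists_root (Polynomial.X ^ 2 + Polynomial.C r * Polynomial.X +
      Polynomial.C (r ^ 2 + a) : Polynomial Ω) (by
        have : (Polynomial.X ^ 2 + Polynomial.C r * Polynomial.X +
          Polynomial.C (r ^ 2 + a) : Polynomial Ω).degree = 2 := by compute_degree!
        rw [this]
        norm_num)
    obtain ⟨s, hs⟩ := h
    refine ⟨s, ?_⟩
    simpa [Polynomial.IsRoot] using hs
  refine ⟨![r, s, -r - s], fun x => ?_⟩
  change x ^ 3 + a * x + b = (x - r) * (x - s) * (x - (-r - s))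
  linear_combination hr + (x - r) * hs

section

variable {k : Type*} [Field k] {Ω : Type*} [Field Ω] [Algebra k Ω]
  [DecidableEq Ω] {W : WeierstrassCurve.Affine k}







end

variable {k : Type*} [Field k] [NumberField k] {Ω : Type*} [Field Ω] [Algebra k Ω] [IsAlgClosed Ω]
  [Algebra.IsAlgebraic k Ω] [CharZero Ω] [DecidableEq Ω] {W : WeierstrassCurve.Affine k}
  [W.IsShortNF] [W.IsElliptic] {n b : ℕ} [NeZero n] {S : Setup W Ω n}




end H16C
end

-- from Lib.H55P.S4
section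

open NumberField IsDedekindDomain WeierstrassCurve

namespace H55P

/-! Chunk PS4 (M). The change of variables (x, y) -> (x', y') with x = u^2 x' + r, y = u^3 y' + u^2 s x' + t is an isomorphism of the groups of points, natural in the field.
Mathlib: WeierstrassCurve.VariableChange, the curve C • W (VariableChange.lean: variableChange_a₁ ..), W.exists_variableChange_isShortNF (NormalForms.lean; characteristic 0: 2 and 3 invertible). Only the short form is needed: in characteristic 0 the change is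
x' = x + (a1^2 + 4 a2)/12, y' = y + (a1 x + a3)/2, with a4' = -c4/48, a6' = -c6/864; doing only this explicit change (u = 1) by hand is enough: Equation, then the map on points (all points of W⁄Ω are nonsingular, IsElliptic: Affine.equation_iff_nonsingular), then
additivity: the slope transforms by slope' = slope + a1/2 (cases x1 = x2 and y1 = negY: sum zero; equal points; x1 <> x2), with the lemmas Affine.Point.add_some, slope_of_Y_ne, slope_of_X_ne, add_of_Y_eq. Naturality: map_some. -/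

/-- The coefficients of the two curves are related by the change of variables
`x' = x + β`, `y' = y + s x + t`. -/
structure PS4_D {Ω : Type} [Field Ω] (W₁ W₂ : WeierstrassCurve Ω) (β s t : Ω) : Prop where
  b1 : W₂.a₁ = 0
  b2 : W₂.a₂ = 0
  b3 : W₂.a₃ = 0
  h1 : 2 * s = W₁.a₁
  h3 : 2 * t = W₁.a₃
  h2 : 3 * β = W₁.a₂ + s ^ 2
  h4 : W₂.a₄ = W₁.a₄ + 2 * s * t - 3 * β ^ 2
  h6 : W₂.a₆ = W₁.a₆ + t ^ 2 - β ^ 3 - W₂.a₄ * β

section

variable {Ω : Type} [Field Ω] {W₁ W₂ : WeierstrassCurve Ω} {β s t : Ω}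

theorem PS4_eq (D : PS4_D W₁ W₂ β s t) (x y : Ω) :
    W₁.toAffine.Equation x y ↔ W₂.toAffine.Equation (x + β) (y + s * x + t) := by
  have e1 : W₂.toAffine.a₁ = 0 := D.b1
  have e2 : W₂.toAffine.a₂ = 0 := D.b2
  have e3 : W₂.toAffine.a₃ = 0 := D.b3
  have h1 : 2 * s = W₁.toAffine.a₁ := D.h1
  have h3 : 2 * t = W₁.toAffine.a₃ := D.h3
  have h2 : 3 * β = W₁.toAffine.a₂ + s ^ 2 := D.h2
  have h4 : W₂.toAffine.a₄ = W₁.toAffine.a₄ + 2 * s * t - 3 * β ^ 2 := D.h4
  have h6 : W₂.toAffine.a₆ = W₁.toAffine.a₆ + t ^ 2 - β ^ 3 - W₂.toAffine.a₄ * β := D.h6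
  rw [Affine.equation_iff, Affine.equation_iff, e1, e2, e3]
  constructor
  · intro h
    linear_combination h + x * y * h1 + y * h3 - x ^ 2 * h2 - x * h4 - h6
  · intro h
    linear_combination h - x * y * h1 - y * h3 + x ^ 2 * h2 + x * h4 + h6

theorem PS4_negY (D : PS4_D W₁ W₂ β s t) (x y : Ω) :
    W₂.toAffine.negY (x + β) (y + s * x + t) = W₁.toAffine.negY x y + s * x + t := by
  have e1 : W₂.toAffine.a₁ = 0 := D.b1
  have e3 : W₂.toAffine.a₃ = 0 := D.b3
  have h1 : 2 * s = W₁.toAffine.a₁ := D.h1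
  have h3 : 2 * t = W₁.toAffine.a₃ := D.h3
  rw [Affine.negY, Affine.negY, e1, e3]
  linear_combination (-x) * h1 - h3

theorem PS4_cond (D : PS4_D W₁ W₂ β s t) (x₁ y₁ x₂ y₂ : Ω) :
    (x₁ + β = x₂ + β ∧ y₁ + s * x₁ + t = W₂.toAffine.negY (x₂ + β) (y₂ + s * x₂ + t)) ↔
      (x₁ = x₂ ∧ y₁ = W₁.toAffine.negY x₂ y₂) := by
  rw [PS4_negY D]
  constructor
  · rintro ⟨h1, h2⟩
    have h3 : x₁ = x₂ := by linear_combination h1
    refine ⟨h3, ?_⟩
    rw [h3] at h2
    linear_combination h2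
  · rintro ⟨h1, h2⟩
    rw [h1, h2]
    exact ⟨rfl, rfl⟩

theorem PS4_slope [DecidableEq Ω] (D : PS4_D W₁ W₂ β s t) {x₁ y₁ x₂ y₂ : Ω}
    (E₁ : W₁.toAffine.Equation x₁ y₁) (E₂ : W₁.toAffine.Equation x₂ y₂)
    (hxy : ¬(x₁ = x₂ ∧ y₁ = W₁.toAffine.negY x₂ y₂)) :
    W₂.toAffine.slope (x₁ + β) (x₂ + β) (y₁ + s * x₁ + t) (y₂ + s * x₂ + t) =
      W₁.toAffine.slope x₁ x₂ y₁ y₂ + s := by
  by_cases hx : x₁ = x₂
  · have hy : y₁ ≠ W₁.toAffine.negY x₂ y₂ := fun h => hxy ⟨hx, h⟩
    have hy' : y₁ + s * x₁ + t ≠ W₂.toAffine.negY (x₂ + β) (y₂ + s * x₂ + t) := fun h =>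
      hxy ((PS4_cond D x₁ y₁ x₂ y₂).1 ⟨by rw [hx], h⟩)
    have hyy : y₁ = y₂ := Affine.Y_eq_of_Y_ne E₁ E₂ hx hy
    rw [Affine.slope_of_Y_ne (by rw [hx]) hy', Affine.slope_of_Y_ne hx hy, PS4_negY D]
    have hne : y₁ - W₁.toAffine.negY x₁ y₁ ≠ 0 := by
      rw [sub_ne_zero]
      rw [← hx, ← hyy] at hy
      exact hy
    have e1 : W₂.toAffine.a₁ = 0 := D.b1
    have e2 : W₂.toAffine.a₂ = 0 := D.b2
    have h1 : 2 * s = W₁.toAffine.a₁ := D.h1
    have h3 : 2 * t = W₁.toAffine.a₃ := D.h3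
    have h2 : 3 * β = W₁.toAffine.a₂ + s ^ 2 := D.h2
    have h4 : W₂.toAffine.a₄ = W₁.toAffine.a₄ + 2 * s * t - 3 * β ^ 2 := D.h4
    have e5 : y₁ + s * x₁ + t - (W₁.toAffine.negY x₁ y₁ + s * x₁ + t) = y₁ - W₁.toAffine.negY x₁ y₁ := by
      ring
    rw [e5, div_add' _ _ _ hne]
    congr 1
    rw [e1, e2, Affine.negY]
    linear_combination h4 + 2 * x₁ * h2 + (-y₁ + s * x₁) * h1 + s * h3
  · have hx' : x₁ + β ≠ x₂ + β := fun h => hx (by linear_combination h)
    have h0 : x₁ - x₂ ≠ 0 := sub_ne_zero.2 hx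
    rw [Affine.slope_of_X_ne hx', Affine.slope_of_X_ne hx, add_sub_add_right_eq_sub,
      add_sub_add_right_eq_sub, div_add' _ _ _ h0]
    congr 1
    ring

theorem PS4_addX (D : PS4_D W₁ W₂ β s t) (x₁ x₂ l : Ω) :
    W₂.toAffine.addX (x₁ + β) (x₂ + β) (l + s) = W₁.toAffine.addX x₁ x₂ l + β := by
  have e1 : W₂.toAffine.a₁ = 0 := D.b1
  have e2 : W₂.toAffine.a₂ = 0 := D.b2
  have h1 : 2 * s = W₁.toAffine.a₁ := D.h1
  have h2 : 3 * β = W₁.toAffine.a₂ + s ^ 2 := D.h2
  rw [Affine.addX, Affine.addX, e1, e2]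
  linear_combination l * h1 - h2

theorem PS4_addY (D : PS4_D W₁ W₂ β s t) (x₁ x₂ y₁ l : Ω) :
    W₂.toAffine.addY (x₁ + β) (x₂ + β) (y₁ + s * x₁ + t) (l + s) =
      W₁.toAffine.addY x₁ x₂ y₁ l + s * W₁.toAffine.addX x₁ x₂ l + t := by
  have h : W₂.toAffine.negAddY (x₁ + β) (x₂ + β) (y₁ + s * x₁ + t) (l + s) =
      W₁.toAffine.negAddY x₁ x₂ y₁ l + s * W₁.toAffine.addX x₁ x₂ l + t := by
    rw [Affine.negAddY, Affine.negAddY, PS4_addX D]
    ring
  rw [Affine.addY, Affine.addY, h, PS4_addX D, PS4_negY D]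

theorem PS4_ns [W₁.IsElliptic] [W₂.IsElliptic] (D : PS4_D W₁ W₂ β s t) (x y : Ω) :
    W₁.toAffine.Nonsingular x y ↔ W₂.toAffine.Nonsingular (x + β) (y + s * x + t) := by
  rw [← Affine.equation_iff_nonsingular (W := W₁.toAffine),
    ← Affine.equation_iff_nonsingular (W := W₂.toAffine)]
  exact PS4_eq D x y

/-- The map on points. -/
noncomputable def PS4_f [W₁.IsElliptic] [W₂.IsElliptic] (D : PS4_D W₁ W₂ β s t) :
    W₁.toAffine.Point → W₂.toAffine.Point
  | 0 => 0
  | .some x y h => .some (x + β) (y + s * x + t) ((PS4_ns D x y).1 h)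

theorem PS4_f_add [DecidableEq Ω] [W₁.IsElliptic] [W₂.IsElliptic] (D : PS4_D W₁ W₂ β s t)
    (P Q : W₁.toAffine.Point) : PS4_f D (P + Q) = PS4_f D P + PS4_f D Q := by
  rcases P with _ | ⟨x₁, y₁, h₁⟩
  · change PS4_f D (0 + Q) = 0 + PS4_f D Q
    rw [zero_add, zero_add]
  rcases Q with _ | ⟨x₂, y₂, h₂⟩
  · change PS4_f D (_ + 0) = _ + 0
    rw [add_zero, add_zero]
  by_cases hxy : x₁ = x₂ ∧ y₁ = W₁.toAffine.negY x₂ y₂
  · rw [Affine.Point.add_of_Y_eq hxy.1 hxy.2]
    have h := (PS4_cond D x₁ y₁ x₂ y₂).2 hxy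
    exact (Affine.Point.add_of_Y_eq (h₁ := (PS4_ns D x₁ y₁).1 h₁) (h₂ := (PS4_ns D x₂ y₂).1 h₂)
      h.1 h.2).symm
  · have hxy' : ¬(x₁ + β = x₂ + β ∧ y₁ + s * x₁ + t = W₂.toAffine.negY (x₂ + β) (y₂ + s * x₂ + t)) :=
      fun h => hxy ((PS4_cond D x₁ y₁ x₂ y₂).1 h)
    have e1 := Affine.Point.add_some hxy' (h₁ := (PS4_ns D x₁ y₁).1 h₁) (h₂ := (PS4_ns D x₂ y₂).1 h₂)
    rw [Affine.Point.add_some hxy]
    refine Eq.trans ?_ e1.symm
    change Affine.Point.some _ _ _ = Affine.Point.some _ _ _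
    rw [Affine.Point.some.injEq]
    rw [PS4_slope D h₁.1 h₂.1 hxy, PS4_addX D, PS4_addY D]
    exact ⟨rfl, rfl⟩

theorem PS4_f_inj [W₁.IsElliptic] [W₂.IsElliptic] (D : PS4_D W₁ W₂ β s t) :
    Function.Injective (PS4_f D) := by
  intro P Q hPQ
  rcases P with _ | ⟨x₁, y₁, h₁⟩
  · rcases Q with _ | ⟨x₂, y₂, h₂⟩
    · rfl
    · exact absurd hPQ (Affine.Point.some_ne_zero _).symm
  · rcases Q with _ | ⟨x₂, y₂, h₂⟩
    · exact absurd hPQ (Affine.Point.some_ne_zero _)
    · have h := Affine.Point.some.inj hPQ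
      have hx : x₁ = x₂ := by linear_combination h.1
      have hy : y₁ = y₂ := by linear_combination h.2 - s * hx
      subst hx hy
      rfl

theorem PS4_f_surj [W₁.IsElliptic] [W₂.IsElliptic] (D : PS4_D W₁ W₂ β s t) :
    Function.Surjective (PS4_f D) := by
  intro P
  rcases P with _ | ⟨x, y, h⟩
  · exact ⟨0, rfl⟩
  · have e1 : x - β + β = x := by ring
    have e2 : y - s * (x - β) - t + s * (x - β) + t = y := by ring
    have h' : W₁.toAffine.Nonsingular (x - β) (y - s * (x - β) - t) := by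
      rw [PS4_ns D, e1, e2]
      exact h
    refine ⟨.some (x - β) (y - s * (x - β) - t) h', ?_⟩
    change Affine.Point.some _ _ _ = Affine.Point.some _ _ _
    rw [Affine.Point.some.injEq]
    exact ⟨e1, e2⟩

/-- The isomorphism of the groups of points. -/
noncomputable def PS4_iso [DecidableEq Ω] [W₁.IsElliptic] [W₂.IsElliptic] (D : PS4_D W₁ W₂ β s t) :
    W₁.toAffine.Point ≃+ W₂.toAffine.Point :=
  AddEquiv.ofBijective (AddMonoidHom.mk' (PS4_f D) (PS4_f_add D)) ⟨PS4_f_inj D, PS4_f_surj D⟩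

end

/-- The relation is preserved by base change. -/
theorem PS4_map {k Ω : Type} [Field k] [Field Ω] [Algebra k Ω] {W₁ W₂ : WeierstrassCurve k} {β s t : k}
    (D : PS4_D W₁ W₂ β s t) :
    PS4_D (W₁⁄Ω) (W₂⁄Ω) (algebraMap k Ω β) (algebraMap k Ω s) (algebraMap k Ω t) where
  b1 := by
    change algebraMap k Ω W₂.a₁ = 0
    rw [D.b1, map_zero]
  b2 := by
    change algebraMap k Ω W₂.a₂ = 0
    rw [D.b2, map_zero]
  b3 := by
    change algebraMap k Ω W₂.a₃ = 0
    rw [D.b3, map_zero]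
  h1 := by
    change _ = algebraMap k Ω W₁.a₁
    rw [← D.h1, map_mul, map_ofNat]
  h3 := by
    change _ = algebraMap k Ω W₁.a₃
    rw [← D.h3, map_mul, map_ofNat]
  h2 := by
    change _ = algebraMap k Ω W₁.a₂ + _
    have h := congrArg (algebraMap k Ω) D.h2
    rw [map_mul, map_ofNat, map_add, map_pow] at h
    exact h
  h4 := by
    change algebraMap k Ω W₂.a₄ = algebraMap k Ω W₁.a₄ + _ - _
    have h := congrArg (algebraMap k Ω) D.h4
    simp only [map_sub, map_add, map_mul, map_pow, map_ofNat] at h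
    exact h
  h6 := by
    change algebraMap k Ω W₂.a₆ = algebraMap k Ω W₁.a₆ + _ - _ - algebraMap k Ω W₂.a₄ * _
    have h := congrArg (algebraMap k Ω) D.h6
    simp only [map_sub, map_add, map_mul, map_pow] at h
    exact h

theorem exists_short {k : Type} [Field k] [CharZero k] (W : WeierstrassCurve k) [W.IsElliptic] :
    ∃ W' : WeierstrassCurve k, W'.IsShortNF ∧ W'.IsElliptic ∧
      ∃ φ : ∀ (Ω : Type) [Field Ω] [DecidableEq Ω] [Algebra k Ω], Pt W Ω ≃+ Pt W' Ω,
        ∀ (Ω Ω' : Type) [Field Ω] [DecidableEq Ω] [Algebra k Ω] [Field Ω'] [DecidableEq Ω'] [Algebra k Ω']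
          (f : Ω →ₐ[k] Ω') (P : Pt W Ω), φ Ω' (Affine.Point.map (W' := W.toAffine) f P) =
            Affine.Point.map (W' := W'.toAffine) f (φ Ω P) := by
  set s : k := W.a₁ / 2 with hs
  set t : k := W.a₃ / 2 with ht
  set β : k := (W.a₂ + s ^ 2) / 3 with hβ
  set A : k := W.a₄ + 2 * s * t - 3 * β ^ 2 with hA
  set B : k := W.a₆ + t ^ 2 - β ^ 3 - A * β with hB
  set W' : WeierstrassCurve k := ⟨0, 0, 0, A, B⟩ with hW'
  have D : PS4_D W W' β s t := by
    refine ⟨rfl, rfl, rfl, ?_, ?_, ?_, rfl, rfl⟩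
    · rw [hs]
      field_simp
    · rw [ht]
      field_simp
    · rw [hβ]
      field_simp
  have hΔ : W'.Δ = W.Δ := by
    have h1 := D.h1
    have h3 := D.h3
    have h2 : W.a₂ = 3 * β - s ^ 2 := by linear_combination -D.h2
    have h4 : W.a₄ = A - 2 * s * t + 3 * β ^ 2 := by rw [hA]; ring
    have h6 : W.a₆ = B - t ^ 2 + β ^ 3 + A * β := by rw [hB]; ring
    simp only [WeierstrassCurve.Δ, WeierstrassCurve.b₂, WeierstrassCurve.b₄, WeierstrassCurve.b₆,
      WeierstrassCurve.b₈]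
    rw [← h1, ← h3, h2, h4, h6]
    simp only [hW']
    ring
  have hE : W'.IsElliptic := ⟨by rw [hΔ]; exact W.isUnit_Δ⟩
  have i1 : ∀ (Ω : Type) [Field Ω] [Algebra k Ω], (W⁄Ω).IsElliptic := fun Ω _ _ =>
    inferInstanceAs (W.map (algebraMap k Ω)).IsElliptic
  have i2 : ∀ (Ω : Type) [Field Ω] [Algebra k Ω], (W'⁄Ω).IsElliptic := fun Ω _ _ =>
    inferInstanceAs (W'.map (algebraMap k Ω)).IsElliptic
  refine ⟨W', ⟨rfl, rfl, rfl⟩, hE, fun Ω _ _ _ => PS4_iso (PS4_map (Ω := Ω) D), ?_⟩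
  intro Ω Ω' _ _ _ _ _ _ f P
  rcases P with _ | ⟨x, y, h⟩
  · rfl
  · have e1 : f (algebraMap k Ω β) = algebraMap k Ω' β := f.commutes _
    have e2 : f (algebraMap k Ω s) = algebraMap k Ω' s := f.commutes _
    have e3 : f (algebraMap k Ω t) = algebraMap k Ω' t := f.commutes _
    change Affine.Point.some _ _ _ = Affine.Point.some _ _ _
    rw [Affine.Point.some.injEq]
    constructor
    · change f x + algebraMap k Ω' β = f (x + algebraMap k Ω β)
      rw [map_add, e1]
    · change f y + algebraMap k Ω' s * f x + algebraMap k Ω' t =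
        f (y + algebraMap k Ω s * x + algebraMap k Ω t)
      rw [map_add, map_add, map_mul, e2, e3]

end H55P
end

-- from Lib.H55P.S5
section

open NumberField IsDedekindDomain WeierstrassCurve

namespace H55P

variable {F : Type} [Field F] [NumberField F] {Ω : Type} [Field Ω] [DecidableEq Ω] [Algebra F Ω]
  [IsAlgClosed Ω] [Algebra.IsAlgebraic F Ω] [CharZero Ω]

/-! Chunk PS5 (M). Divisibility, torsion, Mordell-Weil, fixed points.
div_pt, tors_fin: exists_short (S4) and divisible, tors_finite of Lib/H16C/T1.lean (short curves; Pt of H16C is the same type). fix_iff: P = 0 or (x, y) with x, y fixed by K.fixingSubgroup, so in K (Ω/F is Galois, characteristic 0: InfiniteGalois.fixedField_fixingSubgroup;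
see Setup.mem_L in Lib/H16C/SE3.lean, MW3_lift in MW3.lean). mw: short curve by exists_short; E the splitting field over K of x^3 + a4 x + a6 (number field), weak_mw (Lib/H16C/MW1.lean), mordell_weil (MW2.lean) for the curve over E; Pt W K embeds into Pt W E
(Affine.Point.map_injective) and subgroups of finitely generated abelian groups are finitely generated (Module.Finite over the noetherian ring ℤ: Module.Finite.of_injective). Model: MW3_fg in Lib/H16C/MW3.lean (the types Pt W E and the points of the curve over E agree: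
baseChange_baseChange or map_map, see there). -/

theorem div_pt (W : WeierstrassCurve F) [W.IsElliptic] (n : ℕ) (hn : 0 < n) (P : Pt W Ω) :
    ∃ Q : Pt W Ω, n • Q = P := by
  obtain ⟨W', hs, he, φ, -⟩ := exists_short W
  obtain ⟨Q, hQ⟩ := H16C.divisible (W := (W'⁄Ω).toAffine) n hn (φ Ω P)
  refine ⟨(φ Ω).symm Q, ?_⟩
  rw [← map_nsmul, hQ, AddEquiv.symm_apply_apply]

theorem tors_fin (W : WeierstrassCurve F) [W.IsElliptic] (n : ℕ) (hn : 0 < n) :
    {P : Pt W Ω | n • P = 0}.Finite := by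
  obtain ⟨W', hs, he, φ, -⟩ := exists_short W
  have h1 := H16C.tors_finite (W'⁄Ω).toAffine n hn
  refine Set.Finite.subset (h1.preimage (φ Ω).injective.injOn) ?_
  intro P hP
  have hP' : n • P = 0 := hP
  show n • (φ Ω P) = 0
  rw [← map_nsmul, hP', map_zero]

omit [NumberField F] [DecidableEq Ω] in
theorem ps5_mem [CharZero F] (K : IntermediateField F Ω) {x : Ω}
    (h : ∀ g ∈ K.fixingSubgroup, g x = x) : x ∈ K := by
  have h1 : IsAlgClosure F Ω := ⟨inferInstance, inferInstance⟩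
  have h2 : Normal F Ω := IsAlgClosure.normal F Ω
  have h3 : IsGalois F Ω := { }
  rw [← InfiniteGalois.fixedField_fixingSubgroup K, IntermediateField.mem_fixedField_iff]
  exact h

theorem fix_iff (W : WeierstrassCurve F) [W.IsElliptic] (K : IntermediateField F Ω) [DecidableEq K]
    (P : Pt W Ω) : (∀ s ∈ K.fixingSubgroup, ac W s P = P) ↔
      ∃ Q : Pt W K, Affine.Point.map (W' := W.toAffine) K.val Q = P := by
  constructor
  · intro h
    cases P with
    | zero => exact ⟨0, map_zero _⟩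
    | some x y hxy =>
      have hx : x ∈ K := by
        refine ps5_mem K fun g hg => ?_
        have h1 := h g hg
        unfold ac at h1
        rw [Affine.Point.map_some] at h1
        exact (Affine.Point.some.inj h1).1
      have hy : y ∈ K := by
        refine ps5_mem K fun g hg => ?_
        have h1 := h g hg
        unfold ac at h1
        rw [Affine.Point.map_some] at h1
        exact (Affine.Point.some.inj h1).2
      have h2 : (W⁄K).toAffine.Nonsingular ⟨x, hx⟩ ⟨y, hy⟩ := by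
        have h3 := Affine.baseChange_nonsingular W.toAffine (f := K.val)
          (RingHom.injective K.val.toRingHom) (⟨x, hx⟩ : K) (⟨y, hy⟩ : K)
        exact h3.1 hxy
      exact ⟨.some _ _ h2, rfl⟩
  · rintro ⟨Q, rfl⟩ s hs
    unfold ac
    rw [Affine.Point.map_map]
    congr 2
    ext x
    exact (IntermediateField.mem_fixingSubgroup_iff K s).1 hs x x.2

theorem mw (W : WeierstrassCurve F) [W.IsElliptic] (K : Type) [Field K] [NumberField K] [DecidableEq K]
    [Algebra F K] : Module.Finite ℤ (Pt W K) := by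
  classical
  obtain ⟨W', hs, he, φ, -⟩ := exists_short W
  obtain ⟨e, he'⟩ := H16C.MW3_cubic (algebraMap F (AlgebraicClosure K) W'.a₄)
    (algebraMap F (AlgebraicClosure K) W'.a₆)
  let L : IntermediateField K (AlgebraicClosure K) := IntermediateField.adjoin K (Set.range e)
  have hL : FiniteDimensional K L := by
    refine IntermediateField.finiteDimensional_adjoin fun x _ => ?_
    exact Algebra.IsIntegral.isIntegral x
  have hN : NumberField L := NumberField.of_module_finite K L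
  have hw := H16C.weak_mw (W'⁄L).toAffine
    (fun i => (⟨e i, IntermediateField.subset_adjoin K _ (Set.mem_range_self i)⟩ : L)) (fun x => by
      apply Subtype.ext
      push_cast
      exact he' x)
  have h1 : Module.Finite ℤ (Pt W' L) := H16C.mordell_weil _ hw
  have h2 : Module.Finite ℤ (Pt W' K) := by
    refine Module.Finite.of_injective
      (Affine.Point.map (W' := W'.toAffine) (IsScalarTower.toAlgHom F K L)).toIntLinearMap ?_
    exact Affine.Point.map_injective _
  exact Module.Finite.equiv (φ K).symm.toIntLinearEquiv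

end H55P
end
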