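import Mathlib
import Pool.Agent.Lib.H1M.PP2.M010
import Pool.Agent.Lib.H1M.PP2.M021
import Pool.Agent.Lib.H1M.PP2.M022
import Pool.Agent.Lib.H1M.PP2.M031
import Pool.Agent.Lib.H1M.PP2.M040
import Pool.Agent.Lib.H1M.PP2.M048
import Pool.Agent.Lib.H1M.PP2.M054

/-! Merged copies (to shorten the build) of Lib.H55K.C1, Lib.H55K.C11, Lib.H55K.C2, Lib.H55K.E0, Lib.H55K.G1, Lib.H55K.G3, Lib.H55K.C13, Lib.H55K.C15, Lib.H55P.E9, Lib.H55K.J0, Lib.H55K.J1A, Lib.H55K.C25, Lib.H55K.C4, Lib.H55K.C5, Lib.H55K.C7, Lib.H55K.C8, Lib.H55K.C9, Lib.H55K.C3, Lib.H55K.J5, Lib.H55K.J1B, Lib.H55K.J2B, Lib.H55K.J3A, Lib.H55K.G2, Lib.H55K.G4A, Lib.H55K.G5A. -/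

-- from Lib.H55K.C1
section

namespace H55K.CC

/-! Chunk C1 (M): port of GA4_exists in Lib/H28G/GA4.lean to a general PeriodPair L. Suppose wp z <> c for all z not in Λ. D(z) = if z in Λ then 0 else (wp z - c)^(-1).
D is periodic (wp_per). u from H35P.wp_zero: wp z = (z^2)^(-1) + u z for z <> 0, u analytic at 0. At z0 in Λ: D(z) = a0(z - z0) near z0, z <> z0, where a0(z) = z^2/(1 + z^2 u z - c z^2) is
analytic at 0 (periodicity, H35P.ev_compl, H35P.tendsto_punct). At z0 not in Λ: D = (wp - c)^(-1) near z0, analytic (H35P.wp_analytic). H35P.liouville: all the values agree with one constant; at 0 it is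
a0 0 = 0, at a point z1 not in Λ (exists: H35P.ev_compl, the punctured neighbourhoods are nonempty) it is (wp z1 - c)^(-1) <> 0: contradiction. -/

/-- The Weierstrass function takes every value. -/
theorem wp_surj (L : PeriodPair) (c : ℂ) : ∃ z, z ∉ L.lattice ∧ L.weierstrassP z = c := by
  classical
  by_contra hcon
  push Not at hcon
  set D : ℂ → ℂ := fun z => if z ∈ L.lattice then 0 else (L.weierstrassP z - c)⁻¹ with hD
  have hper : ∀ z, ∀ l ∈ L.lattice, D (z + l) = D z := by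
    intro z l hl
    simp only [hD]
    by_cases h : z ∈ L.lattice
    · rw [if_pos h, if_pos (add_mem h hl)]
    · have h' : z + l ∉ L.lattice := by
        intro h1
        apply h
        have h2 := sub_mem h1 hl
        rwa [add_sub_cancel_right] at h2
      rw [if_neg h, if_neg h', wp_per L z hl]
  obtain ⟨u, hu, -, hu2⟩ := H35P.wp_zero L
  set a0 : ℂ → ℂ := fun z => z ^ 2 / (1 + z ^ 2 * u z - c * z ^ 2) with ha0
  have ha0A : AnalyticAt ℂ a0 0 := by
    have hz : AnalyticAt ℂ (fun z : ℂ => z) 0 := analyticAt_id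
    refine (hz.pow 2).div ((analyticAt_const.add ((hz.pow 2).mul hu)).sub
      (analyticAt_const.mul (hz.pow 2))) ?_
    simp
  have hloc0 : ∀ᶠ z in nhdsWithin (0 : ℂ) {0}ᶜ, D z = a0 z := by
    filter_upwards [H35P.ev_compl L 0, self_mem_nhdsWithin] with z h2 h3
    have hz : z ≠ 0 := h3
    simp only [hD, ha0]
    rw [if_neg h2, hu2 z hz]
    have e1 : (z ^ 2)⁻¹ + u z - c = (1 + z ^ 2 * u z - c * z ^ 2) / z ^ 2 := by
      field_simp
    rw [e1, inv_div]
  have hloc : ∀ z₀, ∃ a : ℂ → ℂ, AnalyticAt ℂ a z₀ ∧ ∀ᶠ z in nhdsWithin z₀ {z₀}ᶜ, D z = a z := by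
    intro z₀
    by_cases h : z₀ ∈ L.lattice
    · refine ⟨fun z => a0 (z - z₀), ?_, ?_⟩
      · have h1 : AnalyticAt ℂ (fun z : ℂ => z - z₀) z₀ := analyticAt_id.sub analyticAt_const
        have h2 : AnalyticAt ℂ a0 (z₀ - z₀) := by rwa [sub_self]
        exact AnalyticAt.fun_comp (f := fun z : ℂ => z - z₀) h2 h1
      · have ht := H35P.tendsto_punct (fun z : ℂ => z - z₀) z₀ (by fun_prop) (fun x y h => by
          simpa using h)
        have h4 : ∀ᶠ z in nhdsWithin (z₀ - z₀) {z₀ - z₀}ᶜ, D z = a0 z := by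
          rw [sub_self]
          exact hloc0
        filter_upwards [ht.eventually h4] with z hz
        rw [← hz, ← hper (z - z₀) z₀ h]
        congr 1
        ring
    · refine ⟨fun z => (L.weierstrassP z - c)⁻¹, ?_, ?_⟩
      · exact ((H35P.wp_analytic L z₀ h).sub analyticAt_const).inv (sub_ne_zero.2 (hcon z₀ h))
      · filter_upwards [H35P.ev_compl L z₀] with z hz
        simp only [hD]
        rw [if_neg hz]
  obtain ⟨z₁, hz₁⟩ : ∃ z₁, z₁ ∉ L.lattice := by
    have h := H35P.ev_compl L 0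
    exact h.exists
  obtain ⟨c0, hc0⟩ := H35P.liouville L D hper hloc
  have h1 : a0 0 = c0 := hc0 0 a0 ha0A.continuousAt hloc0
  have h2 : (L.weierstrassP z₁ - c)⁻¹ = c0 := by
    refine hc0 z₁ (fun z => (L.weierstrassP z - c)⁻¹) ?_ ?_
    · exact (((H35P.wp_analytic L z₁ hz₁).sub analyticAt_const).inv
        (sub_ne_zero.2 (hcon z₁ hz₁))).continuousAt
    · filter_upwards [H35P.ev_compl L z₁] with z hz
      simp only [hD]
      rw [if_neg hz]
  have h3 : a0 0 = 0 := by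
    simp [ha0]
  rw [h3] at h1
  rw [← h1] at h2
  exact inv_ne_zero (sub_ne_zero.2 (hcon z₁ hz₁)) h2

end H55K.CC
end

-- from Lib.H55K.C11
section

open NumberField WeierstrassCurve Polynomial

namespace H55K.CC

open H55P (IQ embF eF LF Per Pt ac mem_LF eF_inj eF_ne Nm Nm_eq)
open H35P (WAB)

variable {F : Type} [Field F] [NumberField F] [IQ F] {Ω : Type} [Field Ω] [DecidableEq Ω] [Algebra F Ω]
  {A B : F} {Om : ℂ} {j : Ω →+* ℂ}

/-! Chunk C11 (M). J is induced by j: give ℂ the algebra structures (embF F).toAlgebra and j.toAlgebra; j is an F-algebra homomorphism by h.ovr; Affine.Point.map (W' := (WAB A B).toAffine) gives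
Pt (WAB A B) Ω →+ points of (WAB A B)⁄ℂ, and (WAB A B)⁄ℂ = WAB (embF F A) (embF F B) (WeierstrassCurve.ext, map_zero): prove the statement for every W' with (WAB A B)⁄ℂ = W' by subst (rintro _ rfl).
Injective: Affine.Point.map_injective. Coordinates: cases on P, Affine.Point.map_some, rfl (see xc_mp in Lib/H28G/Map.lean). Last part: R = (x, y) with x = j x', y = j y': the equation y'^2 = x'^3 + A x' + B
holds in Ω by injectivity of j, the point is nonsingular since the discriminant of the curve is not 0 (h.disc; Affine.equation_iff_nonsingular_of_Δ_ne_zero as in Lib/H35P/B1.lean), or use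
Affine.map_nonsingular (j injective). -/

theorem c11_curve [Algebra F ℂ] (e : ∀ x : F, algebraMap F ℂ x = embF F x) :
    (WAB A B).baseChange ℂ = WAB (embF F A) (embF F B) := by
  ext
  · exact map_zero (algebraMap F ℂ)
  · exact map_zero (algebraMap F ℂ)
  · exact map_zero (algebraMap F ℂ)
  · exact e A
  · exact e B

omit [NumberField F] [IQ F] in
theorem c11_key [Algebra F ℂ] (φ : Ω →ₐ[F] ℂ) (W' : WeierstrassCurve ℂ)
    (hW : (WAB A B).baseChange ℂ = W') : ∃ J : Pt (WAB A B) Ω →+ W'.toAffine.Point,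
    Function.Injective J ∧ (∀ P, P ≠ 0 → J P ≠ 0 ∧ xc (J P) = φ (xc P) ∧ yc (J P) = φ (yc P)) ∧
    ∀ R, R ≠ 0 → (∃ x, φ x = xc R) → (∃ y, φ y = yc R) → ∃ P, J P = R := by
  subst hW
  refine ⟨Affine.Point.map (W' := (WAB A B).toAffine) φ, Affine.Point.map_injective φ, ?_, ?_⟩
  · intro P hP
    rcases P with _ | ⟨x, y, hxy⟩
    · exact absurd rfl hP
    · rw [Affine.Point.map_some]
      exact ⟨Affine.Point.some_ne_zero _, rfl, rfl⟩
  · intro R hR hx hy
    rcases R with _ | ⟨x, y, hxy⟩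
    · exact absurd rfl hR
    · obtain ⟨x', hx⟩ := hx
      obtain ⟨y', hy⟩ := hy
      change φ x' = x at hx
      change φ y' = y at hy
      subst hx hy
      have hns : ((WAB A B)⁄Ω).toAffine.Nonsingular x' y' :=
        ((WAB A B).toAffine.baseChange_nonsingular (f := φ) φ.injective x' y').1 hxy
      refine ⟨Affine.Point.some x' y' hns, ?_⟩
      rw [Affine.Point.map_some]

theorem exists_J (h : CH A B Om j) : ∃ J : Pt (WAB A B) Ω →+ (WAB (embF F A) (embF F B)).toAffine.Point,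
    Function.Injective J ∧ (∀ P, P ≠ 0 → J P ≠ 0 ∧ xc (J P) = j (xc P) ∧ yc (J P) = j (yc P)) ∧
    ∀ R, R ≠ 0 → (∃ x, j x = xc R) → (∃ y, j y = yc R) → ∃ P, J P = R := by
  let iF : Algebra F ℂ := (embF F).toAlgebra
  let φ : Ω →ₐ[F] ℂ := { j with commutes' := h.ovr }
  exact c11_key φ _ (c11_curve fun x => rfl)

end H55K.CC
end

-- from Lib.H55K.C2
section

namespace H55K.CC

/-! Chunk C2 (M). D(z) = β^2 wp(β z) - wp z - sum over r in S of wp(z + r). Periodic (h.st, wp_per). Local: let T = insert 0 S (0 is not in S by h.out).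
(i) β z0 not in Λ: D is analytic at z0 (Rep.z_out, Rep.zr_out, H35P.wp_analytic, composition with z -> β z and z -> z + r).
(ii) β z0 in Λ: there is r0 in T with z0 + r0 in Λ (h.ex applied to -z0) and it is unique (h.inj, h.out): the other z0 + r, r in T, are not in Λ. u from H35P.wp_zero. For z near z0, z <> z0:
wp(z + r0) = wp(z - z0) = ((z - z0)^2)^(-1) + u(z - z0) and wp(β z) = wp(β (z - z0)) = (β^2 (z - z0)^2)^(-1) + u(β (z - z0)) (wp_per), so
D(z) = a(z) := β^2 u(β (z - z0)) - u(z - z0) - sum over r in T, r <> r0 of wp(z + r), analytic at z0.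
H35P.liouville gives c; at z0 = 0 (r0 = 0, u 0 = 0): c = a(0) = - sum over S of wp r. At z with β z not in Λ (take a = D): D(z) = c. -/

/-- The difference. -/
noncomputable def c2_D (L : PeriodPair) (β : ℂ) (T : Finset ℂ) (z : ℂ) : ℂ :=
  β ^ 2 * L.weierstrassP (β * z) - ∑ r ∈ T, L.weierstrassP (z + r)

theorem c2_zero_notMem {L : PeriodPair} {β : ℂ} {S : Finset ℂ} (h : Rep L β S) : (0 : ℂ) ∉ S :=
  fun h0 => h.out 0 h0 (zero_mem _)

theorem c2_per {L : PeriodPair} {β : ℂ} {S : Finset ℂ} (h : Rep L β S) (T : Finset ℂ) (z : ℂ) (l : ℂ)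
    (hl : l ∈ L.lattice) : c2_D L β T (z + l) = c2_D L β T z := by
  unfold c2_D
  rw [mul_add, wp_per L (β * z) (h.st l hl)]
  congr 1
  refine Finset.sum_congr rfl fun r _ => ?_
  rw [show z + l + r = z + r + l by ring, wp_per L (z + r) hl]

open Classical in
theorem c2_out {L : PeriodPair} {β : ℂ} {S : Finset ℂ} (h : Rep L β S) {z₀ r₀ : ℂ} (hr₀ : r₀ ∈ insert 0 S)
    (h0 : z₀ + r₀ ∈ L.lattice) {r : ℂ} (hr : r ∈ (insert 0 S).erase r₀) : z₀ + r ∉ L.lattice := by
  intro h1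
  have hd : r - r₀ ∈ L.lattice := by
    have := sub_mem h1 h0
    rwa [show z₀ + r - (z₀ + r₀) = r - r₀ by ring] at this
  rw [Finset.mem_erase, Finset.mem_insert] at hr
  rw [Finset.mem_insert] at hr₀
  obtain ⟨hne, hr⟩ := hr
  rcases hr with rfl | hr
  · rcases hr₀ with rfl | hr₀
    · exact hne rfl
    · rw [zero_sub, neg_mem_iff] at hd
      exact h.out _ hr₀ hd
  · rcases hr₀ with rfl | hr₀
    · rw [sub_zero] at hd
      exact h.out _ hr hd
    · exact hne (h.inj r hr r₀ hr₀ hd)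

theorem c2_an {L : PeriodPair} {z₀ r : ℂ} (h : z₀ + r ∉ L.lattice) :
    AnalyticAt ℂ (fun z => L.weierstrassP (z + r)) z₀ := by
  have h1 : AnalyticAt ℂ L.weierstrassP ((fun z : ℂ => z + r) z₀) := H35P.wp_analytic L _ h
  exact h1.comp (f := fun z : ℂ => z + r) (by fun_prop)

open Classical in
theorem c2_loc {L : PeriodPair} {β : ℂ} {S : Finset ℂ} (h : Rep L β S) {z₀ r₀ : ℂ} (hr₀ : r₀ ∈ insert 0 S)
    (h0 : z₀ + r₀ ∈ L.lattice) {u : ℂ → ℂ} (hu : AnalyticAt ℂ u 0)
    (hwp : ∀ z : ℂ, z ≠ 0 → L.weierstrassP z = (z ^ 2)⁻¹ + u z) :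
    AnalyticAt ℂ (fun z => β ^ 2 * u (β * (z - z₀)) - u (z - z₀) -
      ∑ r ∈ (insert 0 S).erase r₀, L.weierstrassP (z + r)) z₀ ∧
    ∀ z, z ≠ z₀ → c2_D L β (insert 0 S) z = β ^ 2 * u (β * (z - z₀)) - u (z - z₀) -
      ∑ r ∈ (insert 0 S).erase r₀, L.weierstrassP (z + r) := by
  constructor
  · have h1 : AnalyticAt ℂ (fun z => u (β * (z - z₀))) z₀ := by
      have e : AnalyticAt ℂ u ((fun z : ℂ => β * (z - z₀)) z₀) := by simpa using hu
      exact e.comp (f := fun z : ℂ => β * (z - z₀)) (by fun_prop)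
    have h2 : AnalyticAt ℂ (fun z => u (z - z₀)) z₀ := by
      have e : AnalyticAt ℂ u ((fun z : ℂ => z - z₀) z₀) := by simpa using hu
      exact e.comp (f := fun z : ℂ => z - z₀) (by fun_prop)
    have h3 : AnalyticAt ℂ (fun z => ∑ r ∈ (insert 0 S).erase r₀, L.weierstrassP (z + r)) z₀ :=
      Finset.analyticAt_fun_sum _ fun r hr => c2_an (c2_out h hr₀ h0 hr)
    exact ((analyticAt_const.mul h1).sub h2).sub h3
  · intro z hz
    have hz' : z - z₀ ≠ 0 := sub_ne_zero.2 hz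
    have hb : β * z₀ ∈ L.lattice := by
      have h1 := h.st _ h0
      have h2 : β * r₀ ∈ L.lattice := by
        rw [Finset.mem_insert] at hr₀
        rcases hr₀ with rfl | hr₀
        · rw [mul_zero]; exact zero_mem _
        · exact h.mem _ hr₀
      have := sub_mem h1 h2
      rwa [show β * (z₀ + r₀) - β * r₀ = β * z₀ by ring] at this
    have e1 : L.weierstrassP (β * z) = ((β * (z - z₀)) ^ 2)⁻¹ + u (β * (z - z₀)) := by
      rw [← hwp _ (mul_ne_zero h.ne hz'), ← wp_per L (β * (z - z₀)) hb]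
      congr 1
      ring
    have e2 : L.weierstrassP (z + r₀) = ((z - z₀) ^ 2)⁻¹ + u (z - z₀) := by
      rw [← hwp _ hz', ← wp_per L (z - z₀) h0]
      congr 1
      ring
    unfold c2_D
    rw [← Finset.add_sum_erase _ _ hr₀, e1, e2]
    have hβ := h.ne
    field_simp
    ring

open Classical in
/-- (E1) -/
theorem E1 {L : PeriodPair} {β : ℂ} {S : Finset ℂ} (h : Rep L β S) {z : ℂ} (hz : β * z ∉ L.lattice) :
    β ^ 2 * L.weierstrassP (β * z) =
      L.weierstrassP z + ∑ r ∈ S, (L.weierstrassP (z + r) - L.weierstrassP r) := by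
  obtain ⟨u, hu, hu0, hwp⟩ := H35P.wp_zero L
  have han : ∀ z₀, β * z₀ ∉ L.lattice → AnalyticAt ℂ (c2_D L β (insert 0 S)) z₀ := by
    intro z₀ hz₀
    have h1 : AnalyticAt ℂ (fun z => L.weierstrassP (β * z)) z₀ := by
      have e : AnalyticAt ℂ L.weierstrassP ((fun z : ℂ => β * z) z₀) := H35P.wp_analytic L _ hz₀
      exact e.comp (f := fun z : ℂ => β * z) (by fun_prop)
    have h3 : AnalyticAt ℂ (fun z => ∑ r ∈ insert 0 S, L.weierstrassP (z + r)) z₀ := by
      refine Finset.analyticAt_fun_sum _ fun r hr => c2_an ?_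
      rw [Finset.mem_insert] at hr
      rcases hr with rfl | hr
      · rw [add_zero]; exact h.z_out hz₀
      · exact h.zr_out hz₀ hr
    exact (analyticAt_const.mul h1).sub h3
  obtain ⟨c, hc⟩ := H35P.liouville L (c2_D L β (insert 0 S)) (fun z l hl => c2_per h _ z l hl) (by
    intro z₀
    by_cases hz₀ : β * z₀ ∈ L.lattice
    · obtain ⟨r₀, hr₀, h0⟩ : ∃ r₀ ∈ insert 0 S, z₀ + r₀ ∈ L.lattice := by
        have h1 : β * (-z₀) ∈ L.lattice := by
          rw [mul_neg, neg_mem_iff]; exact hz₀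
        rcases h.ex _ h1 with h2 | ⟨r, hr, h2⟩
        · exact ⟨0, Finset.mem_insert_self _ _, by rw [add_zero]; exact neg_mem_iff.1 h2⟩
        · refine ⟨r, Finset.mem_insert_of_mem hr, ?_⟩
          rw [← neg_mem_iff]
          rwa [show -(z₀ + r) = -z₀ - r by ring]
      obtain ⟨k1, k2⟩ := c2_loc h hr₀ h0 hu hwp
      refine ⟨_, k1, ?_⟩
      filter_upwards [self_mem_nhdsWithin] with z hz using k2 z hz
    · exact ⟨_, han z₀ hz₀, Filter.Eventually.of_forall fun z => rfl⟩)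
  have h0 : (0 : ℂ) + 0 ∈ L.lattice := by rw [add_zero]; exact zero_mem _
  obtain ⟨k1, k2⟩ := c2_loc h (Finset.mem_insert_self 0 S) h0 hu hwp
  have e1 := hc 0 _ k1.continuousAt (by
    filter_upwards [self_mem_nhdsWithin] with z hz using k2 z hz)
  have e2 := hc z _ (han z hz).continuousAt (Filter.Eventually.of_forall fun z => rfl)
  rw [← e1] at e2
  simp only [sub_zero, mul_zero, hu0, zero_add, zero_sub] at e2
  rw [Finset.erase_insert (c2_zero_notMem h)] at e2
  unfold c2_D at e2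
  rw [Finset.sum_insert (c2_zero_notMem h), add_zero] at e2
  rw [Finset.sum_sub_distrib]
  linear_combination e2

end H55K.CC
end

-- from Lib.H55K.E0
section

/-! # H55K: coordinates of the points of y^2 = x^3 + A x + B -/

open NumberField IsDedekindDomain WeierstrassCurve

namespace H55K

open H55P (IQ embF eF LF Per IsHecke Pt ac Inert Dec Nm)
open H35P (WAB Ker tt)

section gen

variable {k : Type} [Field k] {W : WeierstrassCurve k}

theorem xc_zero : xc (0 : W.toAffine.Point) = 0 := rfl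

theorem yc_zero : yc (0 : W.toAffine.Point) = 0 := rfl



theorem tt_eq (P : W.toAffine.Point) : tt P = xc P / yc P := by
  rcases P with _ | ⟨x, y, h⟩
  · show (0 : k) = 0 / 0
    simp
  · rfl

theorem pt_ext {P Q : W.toAffine.Point} (hP : P ≠ 0) (hQ : Q ≠ 0) (hx : xc P = xc Q) (hy : yc P = yc Q) :
    P = Q := by
  rcases P with _ | ⟨x, y, h⟩
  · exact absurd rfl hP
  rcases Q with _ | ⟨x', y', h'⟩
  · exact absurd rfl hQ
  change x = x' at hx
  change y = y' at hy
  subst hx hy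
  rfl

theorem xc_neg (P : W.toAffine.Point) : xc (-P) = xc P := by
  rcases P with _ | ⟨x, y, h⟩
  · rfl
  · rfl

theorem neg_ne {P : W.toAffine.Point} (hP : P ≠ 0) : -P ≠ 0 := by
  rcases P with _ | ⟨x, y, h⟩
  · exact absurd rfl hP
  · exact Affine.Point.some_ne_zero _

theorem ker_zero (V : ValuationSubring k) : Ker V (0 : W.toAffine.Point) := trivial

theorem ker_iff (V : ValuationSubring k) {P : W.toAffine.Point} (hP : P ≠ 0) : Ker V P ↔ 1 < V.valuation (xc P) := by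
  rcases P with _ | ⟨x, y, h⟩
  · exact absurd rfl hP
  · exact Iff.rfl

theorem ker_of (V : ValuationSubring k) {P : W.toAffine.Point} (h : 1 < V.valuation (xc P)) : Ker V P := by
  rcases P with _ | ⟨x, y, h'⟩
  · trivial
  · exact h

/-- Points outside the kernel of reduction. -/
theorem not_ker (V : ValuationSubring k) {P : W.toAffine.Point} (h : ¬ Ker V P) :
    P ≠ 0 ∧ V.valuation (xc P) ≤ 1 := by
  have h0 : P ≠ 0 := by
    rintro rfl
    exact h trivial
  rw [ker_iff V h0] at h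
  exact ⟨h0, not_lt.1 h⟩

end gen

section short

variable {k : Type} [Field k] {W : WeierstrassCurve k} [W.IsShortNF]

theorem s_eq (x y : k) : W.toAffine.Equation x y ↔ y ^ 2 = x ^ 3 + W.a₄ * x + W.a₆ := by
  rw [Affine.equation_iff]
  simp only [W.a₁_of_isShortNF, W.a₂_of_isShortNF, W.a₃_of_isShortNF]
  ring_nf

theorem s_Δ : W.Δ = -16 * (4 * W.a₄ ^ 3 + 27 * W.a₆ ^ 2) := by
  unfold WeierstrassCurve.Δ WeierstrassCurve.b₂ WeierstrassCurve.b₄ WeierstrassCurve.b₆ WeierstrassCurve.b₈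
  rw [W.a₁_of_isShortNF, W.a₂_of_isShortNF, W.a₃_of_isShortNF]
  ring

theorem eqn {P : W.toAffine.Point} (hP : P ≠ 0) : yc P ^ 2 = xc P ^ 3 + W.a₄ * xc P + W.a₆ := by
  rcases P with _ | ⟨x, y, h⟩
  · exact absurd rfl hP
  · exact (s_eq x y).1 h.1

theorem yc_neg (P : W.toAffine.Point) : yc (-P) = -yc P := by
  rcases P with _ | ⟨x, y, h⟩
  · exact neg_zero.symm
  · show W.toAffine.negY x y = -y
    rw [Affine.negY]
    simp only [W.a₁_of_isShortNF, W.a₃_of_isShortNF]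
    ring

theorem tt_neg (P : W.toAffine.Point) : tt (-P) = -tt P := by
  rw [tt_eq, tt_eq, xc_neg, yc_neg, div_neg]

theorem xc_eq {P Q : W.toAffine.Point} (hP : P ≠ 0) (hQ : Q ≠ 0) (h : xc P = xc Q) : P = Q ∨ P = -Q := by
  have h1 := eqn hP
  have h2 := eqn hQ
  rw [h, ← h2] at h1
  have h3 : (yc P - yc Q) * (yc P + yc Q) = 0 := by linear_combination h1
  rcases mul_eq_zero.1 h3 with h4 | h4
  · exact Or.inl (pt_ext hP hQ h (sub_eq_zero.1 h4))
  · right
    refine pt_ext hP (neg_ne hQ) ?_ ?_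
    · rw [xc_neg, h]
    · rw [yc_neg]
      linear_combination h4

variable [DecidableEq k]

theorem add_coords {P Q : W.toAffine.Point} (hP : P ≠ 0) (hQ : Q ≠ 0) (h : xc P ≠ xc Q) :
    P + Q ≠ 0 ∧
    xc (P + Q) = ((yc P - yc Q) / (xc P - xc Q)) ^ 2 - xc P - xc Q ∧
    yc (P + Q) = -((yc P - yc Q) / (xc P - xc Q) * (xc (P + Q) - xc P) + yc P) := by
  rcases P with _ | ⟨x₁, y₁, h₁⟩
  · exact absurd rfl hP
  rcases Q with _ | ⟨x₂, y₂, h₂⟩
  · exact absurd rfl hQ
  change x₁ ≠ x₂ at h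
  have e1 : Affine.Point.some x₁ y₁ h₁ + Affine.Point.some x₂ y₂ h₂ =
      Affine.Point.some _ _ (Affine.nonsingular_add h₁ h₂ fun hxy => h hxy.1) :=
    Affine.Point.add_some fun hxy => h hxy.1
  have hs : W.toAffine.slope x₁ x₂ y₁ y₂ = (y₁ - y₂) / (x₁ - x₂) :=
    Affine.slope_of_X_ne h
  have hx : xc (Affine.Point.some x₁ y₁ h₁ + Affine.Point.some x₂ y₂ h₂) =
      ((y₁ - y₂) / (x₁ - x₂)) ^ 2 - x₁ - x₂ := by
    rw [e1]
    show W.toAffine.addX x₁ x₂ _ = _
    rw [Affine.addX, hs]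
    simp only [W.a₁_of_isShortNF, W.a₂_of_isShortNF]
    ring
  refine ⟨?_, hx, ?_⟩
  · rw [e1]
    exact Affine.Point.some_ne_zero _
  · rw [hx]
    rw [e1]
    show W.toAffine.addY x₁ x₂ y₁ _ = -((y₁ - y₂) / (x₁ - x₂) *
      (((y₁ - y₂) / (x₁ - x₂)) ^ 2 - x₁ - x₂ - x₁) + y₁)
    rw [Affine.addY, Affine.negAddY, Affine.negY, Affine.addX, hs]
    simp only [W.a₁_of_isShortNF, W.a₂_of_isShortNF, W.a₃_of_isShortNF]
    ring

theorem dbl_coords {P : W.toAffine.Point} (hP : P ≠ 0) (h : 2 * yc P ≠ 0) :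
    P + P ≠ 0 ∧
    xc (P + P) = ((3 * xc P ^ 2 + W.a₄) / (2 * yc P)) ^ 2 - 2 * xc P ∧
    yc (P + P) = -((3 * xc P ^ 2 + W.a₄) / (2 * yc P) * (xc (P + P) - xc P) + yc P) := by
  rcases P with _ | ⟨x, y, h₁⟩
  · exact absurd rfl hP
  change 2 * y ≠ 0 at h
  have h2 : y ≠ W.toAffine.negY x y := by
    rw [Affine.negY]
    simp only [W.a₁_of_isShortNF, W.a₃_of_isShortNF]
    intro h3
    apply h
    linear_combination h3
  have hxy : ¬(x = x ∧ y = W.toAffine.negY x y) := fun h' => h2 h'.2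
  have e1 : Affine.Point.some x y h₁ + Affine.Point.some x y h₁ =
      Affine.Point.some _ _ (Affine.nonsingular_add h₁ h₁ hxy) :=
    Affine.Point.add_some hxy
  have hs : W.toAffine.slope x x y y = (3 * x ^ 2 + W.a₄) / (2 * y) := by
    rw [Affine.slope_of_Y_ne rfl h2, Affine.negY]
    simp only [W.a₁_of_isShortNF, W.a₂_of_isShortNF, W.a₃_of_isShortNF]
    congr 1
    · ring
    · ring
  have hx : xc (Affine.Point.some x y h₁ + Affine.Point.some x y h₁) =
      ((3 * x ^ 2 + W.a₄) / (2 * y)) ^ 2 - 2 * x := by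
    rw [e1]
    show W.toAffine.addX x x _ = _
    rw [Affine.addX, hs]
    simp only [W.a₁_of_isShortNF, W.a₂_of_isShortNF]
    ring
  refine ⟨?_, hx, ?_⟩
  · rw [e1]
    exact Affine.Point.some_ne_zero _
  · rw [hx]
    rw [e1]
    show W.toAffine.addY x x y _ = -((3 * x ^ 2 + W.a₄) / (2 * y) *
      (((3 * x ^ 2 + W.a₄) / (2 * y)) ^ 2 - 2 * x - x) + y)
    rw [Affine.addY, Affine.negAddY, Affine.negY, Affine.addX, hs]
    simp only [W.a₁_of_isShortNF, W.a₂_of_isShortNF, W.a₃_of_isShortNF]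
    ring

omit [DecidableEq k] in
/-- A point with given coordinates. -/
theorem exists_pt (hΔ : W.Δ ≠ 0) {x y : k} (h : y ^ 2 = x ^ 3 + W.a₄ * x + W.a₆) :
    ∃ P : W.toAffine.Point, P ≠ 0 ∧ xc P = x ∧ yc P = y :=
  ⟨Affine.Point.some x y ((Affine.equation_iff_nonsingular_of_Δ_ne_zero hΔ).1 ((s_eq x y).2 h)),
    Affine.Point.some_ne_zero _, rfl, rfl⟩

end short

section base

variable {F : Type} [Field F] {A B : F} {Ω : Type} [Field Ω] [Algebra F Ω]

instance isShort_WAB (A B : F) : (WAB A B).IsShortNF := ⟨rfl, rfl, rfl⟩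

instance isShort_base (A B : F) (Ω : Type) [Field Ω] [Algebra F Ω] : ((WAB A B)⁄Ω).IsShortNF :=
  ⟨map_zero (algebraMap F Ω), map_zero (algebraMap F Ω), map_zero (algebraMap F Ω)⟩

theorem base_a4 : ((WAB A B)⁄Ω).a₄ = algebraMap F Ω A := rfl

theorem base_a6 : ((WAB A B)⁄Ω).a₆ = algebraMap F Ω B := rfl

theorem eqnA {P : Pt (WAB A B) Ω} (hP : P ≠ 0) :
    yc P ^ 2 = xc P ^ 3 + algebraMap F Ω A * xc P + algebraMap F Ω B := eqn hP

variable [DecidableEq Ω]

theorem ac_zero (W : WeierstrassCurve F) (s : Ω ≃ₐ[F] Ω) : ac W s (0 : Pt W Ω) = 0 := map_zero _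

theorem ac_ne (W : WeierstrassCurve F) (s : Ω ≃ₐ[F] Ω) {P : Pt W Ω} (hP : P ≠ 0) : ac W s P ≠ 0 := by
  rcases P with _ | ⟨x, y, h⟩
  · exact absurd rfl hP
  · unfold ac
    rw [Affine.Point.map_some]
    exact Affine.Point.some_ne_zero _

theorem xc_ac (W : WeierstrassCurve F) (s : Ω ≃ₐ[F] Ω) (P : Pt W Ω) : xc (ac W s P) = s (xc P) := by
  rcases P with _ | ⟨x, y, h⟩
  · have : ac W s (Affine.Point.zero : Pt W Ω) = 0 := map_zero _
    rw [this]
    exact (map_zero s).symm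
  · unfold ac
    rw [Affine.Point.map_some]
    rfl

theorem yc_ac (W : WeierstrassCurve F) (s : Ω ≃ₐ[F] Ω) (P : Pt W Ω) : yc (ac W s P) = s (yc P) := by
  rcases P with _ | ⟨x, y, h⟩
  · have : ac W s (Affine.Point.zero : Pt W Ω) = 0 := map_zero _
    rw [this]
    exact (map_zero s).symm
  · unfold ac
    rw [Affine.Point.map_some]
    rfl

theorem tt_ac (W : WeierstrassCurve F) (s : Ω ≃ₐ[F] Ω) (P : Pt W Ω) : tt (ac W s P) = s (tt P) := by
  rw [tt_eq, tt_eq, xc_ac, yc_ac, map_div₀]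

theorem ac_one (W : WeierstrassCurve F) (P : Pt W Ω) : ac W (1 : Ω ≃ₐ[F] Ω) P = P := by cases P <;> rfl

theorem ac_mul (W : WeierstrassCurve F) (s t : Ω ≃ₐ[F] Ω) (P : Pt W Ω) :
    ac W (s * t) P = ac W s (ac W t P) := by
  cases P <;> rfl

theorem ac_inv (W : WeierstrassCurve F) (s : Ω ≃ₐ[F] Ω) (P : Pt W Ω) : ac W s (ac W s⁻¹ P) = P := by
  rw [← ac_mul, mul_inv_cancel, ac_one]

end base

end H55K
end

-- from Lib.H55K.G1
section

/-! # H55K: basic facts at a good valuation ring -/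

open NumberField IsDedekindDomain WeierstrassCurve

namespace H55K

open H55P (IQ embF eF LF Per IsHecke Pt ac Inert Dec Nm)
open H35P (WAB Ker tt)


variable {F : Type} [Field F] [NumberField F] [IQ F] {A B : F} {Om : ℂ} {Ω : Type} [Field Ω] [DecidableEq Ω]
  [Algebra F Ω] {j : Ω →+* ℂ} {act : 𝓞 F →+* AddMonoid.End (Pt (WAB A B) Ω)} {V : ValuationSubring Ω}

/-! Chunk G1 (S/M, many small facts). W = WAB A B over F, W⁄Ω has a₁ = a₂ = a₃ = 0 (isShort_base), a₄ = algebraMap F Ω A, a₆ = algebraMap F Ω B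
(base_a4, base_a6). -/

omit [NumberField F] [IQ F] [DecidableEq Ω] in
/-- ak Ω a is integral over the integers and V is integrally closed (V.valuation: Valuation.Integers / IsIntegrallyClosed; see H28G.ak_le,
H13S.vw_int). -/
theorem ak_le (V : ValuationSubring Ω) (a : 𝓞 F) : V.valuation (ak Ω a) ≤ 1 := by
  rw [V.valuation_le_one_iff]
  have h1 : IsIntegral ℤ (ak Ω a) := by
    have h2 : IsIntegral ℤ (a : F) := RingOfIntegers.isIntegral_coe a
    exact h2.map ((algebraMap F Ω).toIntAlgHom)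
  have h3 : IsIntegral V (ak Ω a) := h1.tower_top
  obtain ⟨y, hy⟩ := IsIntegrallyClosed.isIntegral_iff.1 h3
  rw [← hy]
  exact y.2

omit [NumberField F] [IQ F] [DecidableEq Ω] in
/-- s_Δ: Δ = -16 (4A^3 + 27B^2), V(16) = 1. -/
theorem gv_good (hV : GV A B V) : H35P.GoodW ((WAB A B)⁄Ω) V := by
  have h0 : ∀ x : Ω, x = 0 → x ∈ V := fun x hx => hx ▸ V.zero_mem
  refine ⟨⟨h0 _ (WeierstrassCurve.a₁_of_isShortNF _), h0 _ (WeierstrassCurve.a₂_of_isShortNF _),
    h0 _ (WeierstrassCurve.a₃_of_isShortNF _), hV.a, hV.b⟩, ?_⟩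
  rw [s_Δ, base_a4, base_a6]
  have h1 : (-16 : Ω) * (4 * algebraMap F Ω A ^ 3 + 27 * algebraMap F Ω B ^ 2) =
      -((2 : Ω) ^ 4 * algebraMap F Ω (4 * A ^ 3 + 27 * B ^ 2)) := by
    simp only [map_add, map_mul, map_pow, map_ofNat]
    ring
  rw [h1, Valuation.map_neg, map_mul, map_pow, hV.two, hV.disc, one_pow, one_mul]

omit [NumberField F] [IQ F] [DecidableEq Ω] in
/-- eqnA and hV.a, hV.b (H35P.int_y). -/
theorem gv_y (hV : GV A B V) {P : Pt (WAB A B) Ω} (hP : ¬ Ker V P) : V.valuation (yc P) ≤ 1 := by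
  obtain ⟨h0, hx⟩ := not_ker V hP
  rcases P with _ | ⟨x, y, h⟩
  · exact absurd rfl h0
  · exact H35P.int_y (gv_good hV).toIntW h.1 hx

omit [NumberField F] [IQ F] in
/-- H35P.ker_add, FG.ker_sub, ker_neg. -/
theorem kadd (hV : GV A B V) {P Q : Pt (WAB A B) Ω} (hP : Ker V P) (hQ : Ker V Q) : Ker V (P + Q) := by
  exact H35P.ker_add (gv_good hV).toIntW P Q hP hQ

omit [NumberField F] [IQ F] [DecidableEq Ω] in
theorem kneg {P : Pt (WAB A B) Ω} (hP : Ker V P) : Ker V (-P) := by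
  exact (H35P.ker_neg P).2 hP

omit [NumberField F] [IQ F] in
theorem ksub (hV : GV A B V) {P Q : Pt (WAB A B) Ω} (hP : Ker V P) (hQ : Ker V Q) : Ker V (P - Q) := by
  exact H35P.ker_sub (gv_good hV).toIntW P Q hP hQ

/-- The kernel of reduction as a subgroup. -/
def kerG (hV : GV A B V) : AddSubgroup (Pt (WAB A B) Ω) where
  carrier := {P | Ker V P}
  add_mem' := fun hP hQ => kadd hV hP hQ
  zero_mem' := trivial
  neg_mem' := fun hP => kneg hP


omit [NumberField F] [IQ F] in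
theorem knsmul (hV : GV A B V) {P : Pt (WAB A B) Ω} (hP : Ker V P) (n : ℕ) : Ker V (n • P) :=
  AddSubgroup.nsmul_mem (kerG hV) hP n

omit [NumberField F] [IQ F] [DecidableEq Ω] in
/-- H35P.tt_lt. -/
theorem ttlt (hV : GV A B V) {P : Pt (WAB A B) Ω} (hP : Ker V P) : V.valuation (tt P) < 1 := by
  exact H35P.tt_lt (gv_good hV).toIntW P hP

omit [NumberField F] [IQ F] [DecidableEq Ω] in
/-- H35P.tt_eq_zero. -/
theorem tt_zero (hV : GV A B V) {P : Pt (WAB A B) Ω} (hP : Ker V P) : tt P = 0 ↔ P = 0 := by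
  exact H35P.tt_eq_zero (gv_good hV).toIntW P hP

omit [NumberField F] [IQ F] [DecidableEq Ω] in
/-- From val_y (H35P/R1.lean): V(y)^2 = V(x)^3, tt P = x/y. -/
theorem tt_val (hV : GV A B V) {P : Pt (WAB A B) Ω} (hP : Ker V P) (h0 : P ≠ 0) :
    V.valuation (tt P) ^ 2 * V.valuation (xc P) = 1 ∧ V.valuation (tt P) ^ 3 * V.valuation (yc P) = 1 ∧
      V.valuation (xc P) < V.valuation (yc P) := by
  rcases P with _ | ⟨x, y, h⟩
  · exact absurd rfl h0
  · have hx : 1 < V.valuation x := hP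
    obtain ⟨h1, h2⟩ := H35P.val_y (gv_good hV).toIntW h.1 hx
    have x0 : V.valuation x ≠ 0 := (zero_lt_one.trans hx).ne'
    have y0 : V.valuation y ≠ 0 := (zero_lt_one.trans (hx.trans h2)).ne'
    refine ⟨H35P.tt_sq (gv_good hV).toIntW h hx, ?_, h2⟩
    show V.valuation (x / y) ^ 3 * V.valuation y = 1
    rw [map_div₀, div_pow, ← h1, pow_succ (V.valuation y) 2, div_mul_eq_mul_div, div_self]
    exact mul_ne_zero (pow_ne_zero 2 y0) y0

omit [NumberField F] [IQ F] [DecidableEq Ω] in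
theorem g1_cong {P Q : Pt (WAB A B) Ω} (h1 : V.valuation (xc P) ≤ 1) (h2 : V.valuation (yc P) ≤ 1)
    (h3 : V.valuation (xc Q) ≤ 1) (h4 : V.valuation (yc Q) ≤ 1) (hP : P ≠ 0) (hQ : Q ≠ 0)
    (hx : V.valuation (xc P - xc Q) < 1) (hy : V.valuation (yc P - yc Q) < 1) : H35P.Cong V P Q := by
  rcases P with _ | ⟨x, y, h⟩
  · exact absurd rfl hP
  rcases Q with _ | ⟨x', y', h'⟩
  · exact absurd rfl hQ
  exact ⟨x, y, h, x', y', h', rfl, rfl, (V.valuation_le_one_iff _).1 h1, (V.valuation_le_one_iff _).1 h2,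
    (V.valuation_le_one_iff _).1 h3, (V.valuation_le_one_iff _).1 h4, hx, hy⟩

omit [NumberField F] [IQ F] in
/-- eqnA for P and Q: (yP - yQ)(yP + yQ) has value < 1, so one factor has; H35P.rd (RD.lean) for P, Q or P, -Q (Cong: not_ker, gv_y). -/
theorem cls_x (hV : GV A B V) {P Q : Pt (WAB A B) Ω} (hP : ¬ Ker V P) (hQ : ¬ Ker V Q)
    (hx : V.valuation (xc P - xc Q) < 1) : Ker V (P - Q) ∨ Ker V (P + Q) := by
  obtain ⟨hP0, hPx⟩ := not_ker V hP
  obtain ⟨hQ0, hQx⟩ := not_ker V hQ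
  have hPy := gv_y hV hP
  have hQy := gv_y hV hQ
  have hA : V.valuation (algebraMap F Ω A) ≤ 1 := (V.valuation_le_one_iff _).2 hV.a
  have e : (yc P - yc Q) * (yc P + yc Q) =
      (xc P - xc Q) * (xc P ^ 2 + xc P * xc Q + xc Q ^ 2 + algebraMap F Ω A) := by
    linear_combination eqnA hP0 - eqnA hQ0
  have h1 : V.valuation (xc P ^ 2 + xc P * xc Q + xc Q ^ 2 + algebraMap F Ω A) ≤ 1 := by
    refine V.valuation.map_add_le (V.valuation.map_add_le (V.valuation.map_add_le ?_ ?_) ?_) hA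
    · rw [map_pow]
      exact pow_le_one' hPx 2
    · rw [map_mul]
      exact mul_le_one' hPx hQx
    · rw [map_pow]
      exact pow_le_one' hQx 2
  have h2 : V.valuation ((yc P - yc Q) * (yc P + yc Q)) < 1 := by
    rw [e, map_mul]
    exact mul_lt_one_of_lt_of_le hx h1
  rw [map_mul] at h2
  have h3 : V.valuation (yc P - yc Q) < 1 ∨ V.valuation (yc P + yc Q) < 1 := by
    by_contra hcon
    push Not at hcon
    exact absurd (one_le_mul hcon.1 hcon.2) (not_le.2 h2)
  rcases h3 with h3 | h3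
  · left
    exact H35P.rd (gv_good hV) P Q (g1_cong hPx hPy hQx hQy hP0 hQ0 hx h3)
  · right
    have h4 : Ker V (P - -Q) := by
      apply H35P.rd (gv_good hV) P (-Q)
      refine g1_cong hPx hPy ?_ ?_ hP0 (neg_ne hQ0) ?_ ?_
      · rw [xc_neg]
        exact hQx
      · rw [yc_neg, Valuation.map_neg]
        exact hQy
      · rw [xc_neg]
        exact hx
      · rw [yc_neg, sub_neg_eq_add]
        exact h3
    rwa [sub_neg_eq_add] at h4

omit [NumberField F] [IQ F] in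
/-- cls_x and integrality of the coordinates. -/
theorem cls_diff (hV : GV A B V) {P Q : Pt (WAB A B) Ω} (hP : ¬ Ker V P) (hQ : ¬ Ker V Q)
    (h1 : ¬ Ker V (P - Q)) (h2 : ¬ Ker V (P + Q)) : V.valuation (xc P - xc Q) = 1 := by
  obtain ⟨hP0, hPx⟩ := not_ker V hP
  obtain ⟨hQ0, hQx⟩ := not_ker V hQ
  refine le_antisymm (V.valuation.map_sub_le hPx hQx) ?_
  by_contra hcon
  rcases cls_x hV hP hQ (not_le.1 hcon) with h | h
  · exact h1 h
  · exact h2 h

omit [NumberField F] [IQ F] in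
/-- H35P.rd. -/
theorem cls_xy (hV : GV A B V) {P Q : Pt (WAB A B) Ω} (hP : ¬ Ker V P) (hQ : ¬ Ker V Q)
    (hx : V.valuation (xc P - xc Q) < 1) (hy : V.valuation (yc P - yc Q) < 1) : Ker V (P - Q) := by
  obtain ⟨hP0, hPx⟩ := not_ker V hP
  obtain ⟨hQ0, hQx⟩ := not_ker V hQ
  exact H35P.rd (gv_good hV) P Q (g1_cong hPx (gv_y hV hP) hQx (gv_y hV hQ) hP0 hQ0 hx hy)

omit [NumberField F] [IQ F] in
/-- H35P.fg (FG.lean). -/
theorem ker_tors (hV : GV A B V) (n : ℕ) (hn : V.valuation (n : Ω) = 1) {T : Pt (WAB A B) Ω} (hT : n • T = 0)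
    (hK : Ker V T) : T = 0 := by
  exact H35P.fg (gv_good hV).toIntW T n hn hT hK

omit [NumberField F] [IQ F] in
/-- Automorphisms in the decomposition group preserve the kernel of reduction: xc_ac; V(s x) ≤ 1 iff V(x) ≤ 1. -/
theorem ker_ac (s : Ω ≃ₐ[F] Ω) (hs : Dec V s) {P : Pt (WAB A B) Ω} : Ker V (ac (WAB A B) s P) ↔ Ker V P := by
  rcases eq_or_ne P 0 with rfl | hP
  · rw [ac_zero]
  · rw [ker_iff V (ac_ne _ s hP), ker_iff V hP, xc_ac, ← not_le, ← not_le, V.valuation_le_one_iff,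
      V.valuation_le_one_iff, hs]

end H55K
end

-- from Lib.H55K.G3
section

/-! # H55K: translation by a point of the kernel of reduction -/

open NumberField IsDedekindDomain WeierstrassCurve

namespace H55K

open H55P (IQ embF eF LF Per IsHecke Pt ac Inert Dec Nm)
open H35P (WAB Ker tt)


variable {F : Type} [Field F] [NumberField F] [IQ F] {A B : F} {Om : ℂ} {Ω : Type} [Field Ω] [DecidableEq Ω]
  [Algebra F Ω] {j : Ω →+* ℂ} {act : 𝓞 F →+* AddMonoid.End (Pt (WAB A B) Ω)} {V : ValuationSubring Ω}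

/-- The algebra: t, w = t^3 g, b = 1/(1 - x t^2 g). -/
theorem g3_alg {k : Type} [Field k] {Γ : Type} [LinearOrderedCommGroupWithZero Γ] (v : Valuation k Γ)
    {a c x y t w s X Y : k} (ht0 : t ≠ 0) (hw0 : w ≠ 0) (hw : w = t ^ 3 + a * t * w ^ 2 + c * w ^ 3)
    (ha : v a ≤ 1) (hc : v c ≤ 1) (hx : v x ≤ 1) (hy : v y ≤ 1) (ht : v t < 1) (hvw : v w = v t ^ 3)
    (hs : s = (y - 1 / w) / (x - t / w)) (hX : X = s ^ 2 - x - t / w) (hY : Y = -(s * (X - x) + y)) :
    v X ≤ 1 ∧ v (X - x + 2 * y * t) ≤ v t ^ 2 ∧ v (Y - y + (3 * x ^ 2 + a) * t) ≤ v t ^ 2 := by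
  have hvt0 : 0 < v t := by
    rw [zero_lt_iff]
    exact (Valuation.ne_zero_iff v).2 ht0
  obtain ⟨g, hg⟩ : ∃ g, g = w / t ^ 3 := ⟨_, rfl⟩
  have ht3 : t ^ 3 ≠ 0 := pow_ne_zero 3 ht0
  have hvg : v g = 1 := by
    rw [hg, map_div₀, map_pow, hvw, div_self (pow_ne_zero 3 hvt0.ne')]
  have ew : w = t ^ 3 * g := by
    rw [hg, mul_div_cancel₀ _ ht3]
  have hg0 : g ≠ 0 := by
    rintro rfl
    rw [mul_zero] at ew
    exact hw0 ew
  have hg2 : g = 1 + t ^ 4 * (a * g ^ 2 + c * t ^ 2 * g ^ 3) := by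
    apply mul_left_cancel₀ ht3
    rw [ew] at hw
    linear_combination hw
  have hβ : v (1 - x * (t ^ 2 * g)) = 1 := by
    have h1 : v (x * (t ^ 2 * g)) < 1 := by
      rw [map_mul, map_mul, map_pow, hvg, mul_one]
      have h2 : v t ^ 2 < 1 := pow_lt_one₀ zero_le ht (by norm_num)
      exact (mul_le_of_le_one_left zero_le hx).trans_lt h2
    rw [Valuation.map_sub_eq_of_lt_left v (by rwa [map_one]), map_one]
  have hβ0 : 1 - x * (t ^ 2 * g) ≠ 0 := by
    intro h
    rw [h, map_zero] at hβ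
    exact zero_ne_one hβ
  obtain ⟨b, hb⟩ : ∃ b, b = (1 - x * (t ^ 2 * g))⁻¹ := ⟨_, rfl⟩
  have hvb : v b ≤ 1 := by rw [hb, map_inv₀, hβ, inv_one]
  have hb1 : b * (1 - x * (t ^ 2 * g)) = 1 := by rw [hb, inv_mul_cancel₀ hβ0]
  have es : s * t = (1 - y * (t ^ 3 * g)) * b := by
    have hD : x - t / w = -(t * (1 - x * (t ^ 2 * g))) / w := by
      rw [ew]
      field_simp
      ring
    rw [hs, hD, hb]
    rw [ew]
    field_simp
    ring
  have etw : t / w * t ^ 2 * g = 1 := by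
    rw [ew]
    field_simp
  -- the integers
  let t' : v.integer := ⟨t, ht.le⟩
  let g' : v.integer := ⟨g, hvg.le⟩
  let b' : v.integer := ⟨b, hvb⟩
  let x' : v.integer := ⟨x, hx⟩
  let y' : v.integer := ⟨y, hy⟩
  let a' : v.integer := ⟨a, ha⟩
  let c' : v.integer := ⟨c, hc⟩
  obtain ⟨h', hh'⟩ : ∃ M : v.integer, M = a' * g' ^ 2 + c' * t' ^ 2 * g' ^ 3 := ⟨_, rfl⟩
  have hhc : (h' : k) = a * g ^ 2 + c * t ^ 2 * g ^ 3 := by rw [hh']; rfl
  obtain ⟨M3, hM3⟩ : ∃ M : v.integer, M = -2 * y' * t' ^ 2 * h' + (a' + 3 * x' ^ 2) * t' ^ 3 * h' +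
    t' * (g' ^ 2 * (c' + y' ^ 2 - 2 * x' ^ 3)) := ⟨_, rfl⟩
  have hM3' : (M3 : k) = -2 * y * t ^ 2 * h' + (a + 3 * x ^ 2) * t ^ 3 * h' +
    t * (g ^ 2 * (c + y ^ 2 - 2 * x ^ 3)) := by rw [hM3]; rfl
  obtain ⟨M1, hM1⟩ : ∃ M : v.integer, M = -2 * y' + (a' + 3 * x' ^ 2) * t' + t' ^ 2 * M3 := ⟨_, rfl⟩
  have hM1' : (M1 : k) = -2 * y + (a + 3 * x ^ 2) * t + t ^ 2 * M3 := by rw [hM1]; rfl
  obtain ⟨Q, hQ⟩ : ∃ M : v.integer, M = M3 + x' * g' * b' * (b' + 1) * M1 := ⟨_, rfl⟩
  have hQ' : (Q : k) = M3 + x * g * b * (b + 1) * M1 := by rw [hQ]; rfl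
  obtain ⟨B, hB⟩ : ∃ M : v.integer, M = x' * g' * b' - y' * t' * g' * b' := ⟨_, rfl⟩
  have hB' : (B : k) = x * g * b - y * t * g * b := by rw [hB]; rfl
  have hgh : g = 1 + t ^ 4 * (h' : k) := by rw [hhc]; exact hg2
  -- X
  obtain ⟨β, hβd⟩ : ∃ β, β = 1 - x * (t ^ 2 * g) := ⟨_, rfl⟩
  rw [← hβd] at hb1
  have hb2 : b - 1 = x * t ^ 2 * g * b := by
    rw [hβd] at hb1
    linear_combination hb1
  obtain ⟨T, hT⟩ : ∃ T : k, T = -2 * y * t + (a + 3 * x ^ 2) * t ^ 2 + t ^ 3 * M3 := ⟨_, rfl⟩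
  have hTM : T = t * M1 := by
    rw [hT, hM1']
    ring
  have hN : a * t ^ 2 * g + c * t ^ 4 * g ^ 2 - 2 * y * t * g + y ^ 2 * t ^ 4 * g ^ 2 + 2 * x - x ^ 2 * t ^ 2 * g
      - 2 * x * β ^ 2 = T := by
    rw [hT, hM3', hβd]
    linear_combination (-2 * y * t + (a + 3 * x ^ 2) * t ^ 2) * hgh
  have eX0 : (X - x) * t ^ 2 = t ^ 2 * (b ^ 2 * T) := by
    have h1 : (s * t) ^ 2 = (1 - y * (t ^ 3 * g)) ^ 2 * b ^ 2 := by rw [es]; ring
    have h5 : t ^ 2 * g * ((X - x) * t ^ 2) = t ^ 2 * g * (t ^ 2 * (b ^ 2 * T)) := by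
      rw [hX, ← hN]
      have h6 : b ^ 2 * β ^ 2 = 1 := by rw [← mul_pow, hb1, one_pow]
      have h7 : t ^ 2 * g * (t / w) = 1 := by linear_combination etw
      have h8 : g - 1 = t ^ 4 * (a * g ^ 2 + c * t ^ 2 * g ^ 3) := by linear_combination hg2
      have h9 : t ^ 2 * g * ((s ^ 2 - x - t / w - x) * t ^ 2) =
          t ^ 2 * g * (s * t) ^ 2 - 2 * x * t ^ 4 * g - t ^ 2 * (t ^ 2 * g * (t / w)) := by ring
      rw [h9, h1, h7]
      have h10 : β = 1 - x * (t ^ 2 * g) := hβd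
      have h11 : t ^ 2 * 1 = t ^ 2 * (b ^ 2 * β ^ 2) := by rw [h6]
      rw [h11]
      have h12 : 2 * x * t ^ 4 * g = 2 * x * t ^ 4 * g * (b ^ 2 * β ^ 2) := by rw [h6, mul_one]
      rw [h12]
      have h13 : β ^ 2 = (1 - x * (t ^ 2 * g)) ^ 2 := by rw [h10]
      linear_combination (t ^ 2 * b ^ 2) * h8 - (t ^ 2 * b ^ 2) * h13
    exact mul_left_cancel₀ (mul_ne_zero (pow_ne_zero 2 ht0) hg0) h5
  have eX : X - x = T + t ^ 3 * (x * g * b * (b + 1) * M1) := by
    have ht2 : t ^ 2 ≠ 0 := pow_ne_zero 2 ht0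
    have h1 : X - x = b ^ 2 * T := by
      apply mul_right_cancel₀ ht2
      rw [eX0]
      ring
    rw [h1, hTM]
    linear_combination t * M1 * (b + 1) * hb2
  have eX2 : X - x = -2 * y * t + (a + 3 * x ^ 2) * t ^ 2 + t ^ 3 * Q := by
    rw [eX, hT, hQ']
    ring
  have vt2 : ∀ z : v.integer, v (t ^ 2 * z) ≤ v t ^ 2 := fun z => by
    rw [map_mul, map_pow]
    exact mul_le_of_le_one_right zero_le z.2
  refine ⟨?_, ?_, ?_⟩
  · have e : X = ((x' + (-2 * y' * t' + (a' + 3 * x' ^ 2) * t' ^ 2 + t' ^ 3 * Q) : v.integer) : k) := by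
      change X = x + (-2 * y * t + (a + 3 * x ^ 2) * t ^ 2 + t ^ 3 * (Q : k))
      rw [← eX2]
      ring
    rw [e]
    exact (x' + (-2 * y' * t' + (a' + 3 * x' ^ 2) * t' ^ 2 + t' ^ 3 * Q)).2
  · have e : X - x + 2 * y * t = t ^ 2 * (((a' + 3 * x' ^ 2) + t' * Q : v.integer) : k) := by
      change X - x + 2 * y * t = t ^ 2 * ((a + 3 * x ^ 2) + t * (Q : k))
      rw [eX2]
      ring
    rw [e]
    exact vt2 _
  · have e : Y - y + (3 * x ^ 2 + a) * t = t ^ 2 * ((-Q - B * (-2 * y' + (a' + 3 * x' ^ 2) * t' + t' ^ 2 * Q) : v.integer) : k) := by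
      change Y - y + (3 * x ^ 2 + a) * t = t ^ 2 * (-(Q : k) - (B : k) * (-2 * y + (a + 3 * x ^ 2) * t + t ^ 2 * (Q : k)))
      apply mul_right_cancel₀ ht0
      have h2 : (1 - y * (t ^ 3 * g)) * b = 1 + t ^ 2 * (B : k) := by
        rw [hB']
        linear_combination hb2
      have h3 : Y * t = -(s * t) * (X - x) - y * t := by
        rw [hY]
        ring
      have h4 : (Y - y + (3 * x ^ 2 + a) * t) * t = Y * t - y * t + (3 * x ^ 2 + a) * t * t := by ring
      rw [h4, h3, es, eX2, h2]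
      ring
    rw [e]
    exact vt2 _

omit [NumberField F] [IQ F] in
/-- Chunk G3 (M), port of H28G/GV5.lean (GV5_alg, transl). R = 0 clear. P = (x, y) integral (not_ker, gv_y), R in Ker, R ≠ 0: put t = tt R = x_R/y_R, w = 1/y_R, so x_R = t/w, y_R = 1/w, w = t^3 + A t w^2 + B w^3
(from eqnA), V(w) = V(t)^3, V(t) < 1. x ≠ x_R (values). add_coords for P + R (or R + P): slope s = (y - 1/w)/(x - t/w) = (1 - y w)/(t - x w),
X := xc (P + R) = s^2 - x - t/w, and s^2 - t/w = (A t w + B w^2 - 2 y w + y^2 w^2 + 2 x t^2 - x^2 t w)/(t - x w)^2. With w = t^3 g, g = 1 + A t (w^2/t^3) + B w^3/t^3 (V(g - 1) ≤ V(t)^4, V(g) = 1),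
t - x w = t b, b = 1 - x t^2 g (V(b) = 1, V(b - 1) ≤ V(t)^2): X + x = (2x - 2 y t g - x^2 t^2 g + A t^2 g + y^2 t^4 g^2 + B t^4 g^2)/b^2. So X = x - 2 y t + (3x^2 + A) t^2 + terms of value ≤ V(t)^3
(2x (1/b^2 - 1) = 4 x^2 t^2 + ..). Y := yc (P + R) = -(s (X - x) + y) with s = (1 - y t^3 g)/(t b) = t^-1 (1 + O(t^2)): Y = y - (3x^2 + A) t + O(t^2). X, Y are integral, so P + R is not in Ker. -/
theorem transl (hV : GV A B V) {P R : Pt (WAB A B) Ω} (hP : ¬ Ker V P) (hR : Ker V R) : ¬ Ker V (P + R) ∧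
    V.valuation (xc (P + R) - xc P + 2 * yc P * tt R) ≤ V.valuation (tt R) ^ 2 ∧
    V.valuation (yc (P + R) - yc P + (3 * xc P ^ 2 + algebraMap F Ω A) * tt R) ≤ V.valuation (tt R) ^ 2 := by
  obtain ⟨hP0, hPx⟩ := not_ker V hP
  have hPy := gv_y hV hP
  by_cases hR0 : R = 0
  · subst hR0
    have e : tt (0 : Pt (WAB A B) Ω) = 0 := by rw [tt_eq, xc_zero, zero_div]
    rw [add_zero, e]
    refine ⟨hP, ?_, ?_⟩ <;> simp
  · obtain ⟨h1, h2, h3⟩ := tt_val hV hR hR0
    have ht1 := ttlt hV hR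
    have hx1 : 1 < V.valuation (xc R) := (ker_iff V hR0).1 hR
    have hy0 : yc R ≠ 0 := by
      intro h0
      rw [h0, map_zero, mul_zero] at h2
      exact zero_ne_one h2
    have hx0 : xc R ≠ 0 := by
      intro h0
      rw [h0, map_zero] at hx1
      exact absurd hx1 (not_lt.2 zero_le)
    have htt : tt R = xc R / yc R := tt_eq R
    have ht0 : tt R ≠ 0 := by rw [htt]; exact div_ne_zero hx0 hy0
    have hne : xc P ≠ xc R := by
      intro he
      rw [he] at hPx
      exact absurd hx1 (not_lt.2 hPx)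
    obtain ⟨a1, a2, a3⟩ := add_coords hP0 hR0 hne
    have heq := eqnA hR0
    have hxw : tt R / (1 / yc R) = xc R := by rw [htt]; field_simp
    have hyw : 1 / (1 / yc R) = yc R := by field_simp
    have hvw : V.valuation (1 / yc R) = V.valuation (tt R) ^ 3 := by
      have hv0 : V.valuation (yc R) ≠ 0 := (Valuation.ne_zero_iff _).2 hy0
      rw [map_div₀, map_one, one_div]
      exact (eq_inv_of_mul_eq_one_left h2).symm
    have hww : 1 / yc R = tt R ^ 3 + algebraMap F Ω A * tt R * (1 / yc R) ^ 2 + algebraMap F Ω B * (1 / yc R) ^ 3 := by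
      rw [htt]
      field_simp
      linear_combination heq
    have h5 := g3_alg V.valuation (a := algebraMap F Ω A) (c := algebraMap F Ω B) (x := xc P) (y := yc P) (t := tt R)
      (w := 1 / yc R) (s := (yc P - yc R) / (xc P - xc R)) (X := xc (P + R)) (Y := yc (P + R)) ht0 (one_div_ne_zero hy0) hww
      ((V.valuation_le_one_iff _).2 hV.a) ((V.valuation_le_one_iff _).2 hV.b) hPx hPy ht1 hvw (by rw [hxw, hyw])
      (by rw [a2, hxw]) a3
    refine ⟨?_, h5.2.1, h5.2.2⟩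
    rw [ker_iff V a1]
    exact not_lt.2 h5.1

omit [NumberField F] [IQ F] in
/-- Corollary (same chunk): congruent points. Q = P + (Q - P). -/
theorem cls_conv (hV : GV A B V) {P Q : Pt (WAB A B) Ω} (hP : ¬ Ker V P) (h : Ker V (Q - P)) : ¬ Ker V Q ∧
    V.valuation (xc Q - xc P) < 1 ∧ V.valuation (yc Q - yc P) < 1 := by
  obtain ⟨hP0, hPx⟩ := not_ker V hP
  have hPy := gv_y hV hP
  have ht := ttlt hV h
  obtain ⟨h1, h2, h3⟩ := transl hV hP h
  have e : P + (Q - P) = Q := by abel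
  rw [e] at h1 h2 h3
  have ht2 : V.valuation (tt (Q - P)) ^ 2 < 1 := pow_lt_one₀ zero_le ht (by norm_num)
  refine ⟨h1, ?_, ?_⟩
  · have h4 : V.valuation (2 * yc P * tt (Q - P)) < 1 := by
      rw [map_mul, map_mul, hV.two, one_mul]
      exact (mul_le_of_le_one_left zero_le hPy).trans_lt ht
    have e2 : xc Q - xc P = (xc Q - xc P + 2 * yc P * tt (Q - P)) - 2 * yc P * tt (Q - P) := by ring
    rw [e2]
    exact (V.valuation.map_sub _ _).trans_lt (max_lt (h2.trans_lt ht2) h4)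
  · have h4 : V.valuation ((3 * xc P ^ 2 + algebraMap F Ω A) * tt (Q - P)) < 1 := by
      have h5 : V.valuation (3 * xc P ^ 2 + algebraMap F Ω A) ≤ 1 := by
        refine V.valuation.map_add_le ?_ ((V.valuation_le_one_iff _).2 hV.a)
        rw [map_mul, hV.three, one_mul, map_pow]
        exact pow_le_one₀ zero_le hPx
      rw [map_mul]
      exact (mul_le_of_le_one_left zero_le h5).trans_lt ht
    have e2 : yc Q - yc P = (yc Q - yc P + (3 * xc P ^ 2 + algebraMap F Ω A) * tt (Q - P)) -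
        (3 * xc P ^ 2 + algebraMap F Ω A) * tt (Q - P) := by ring
    rw [e2]
    exact (V.valuation.map_sub _ _).trans_lt (max_lt (h3.trans_lt ht2) h4)

end H55K
end

-- from Lib.H55K.C13
section

open NumberField WeierstrassCurve Polynomial

namespace H55K.CC

open H55P (IQ embF eF LF Per Pt ac mem_LF eF_inj eF_ne Nm Nm_eq)
open H35P (WAB)

variable {F : Type} [Field F] [NumberField F] [IQ F] {Ω : Type} [Field Ω] [DecidableEq Ω] [Algebra F Ω]
  {A B : F} {Om : ℂ} {j : Ω →+* ℂ}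

/-! Chunk C13 (M): torsion points are algebraic. W = WAB (embF F A) (embF F B) is IsShortNF (a1 = a2 = a3 = 0) and CharZero. As in the proof of H16C.tors_finite (Lib/H16C/T1.lean): with N = addOrderOf R, 2 ≤ N,
H16C.psi_order and H16C.psi_sq give (W.ΨSq N).eval x = 0, x = xc R (the functions xc of H16C and of H55K agree: cases on R, rfl). W = (the curve W' = WAB (algebraMap F Ω A) (algebraMap F Ω B) over Ω).map j
(h.ovr), so W.ΨSq N = (W'.ΨSq N).map j (WeierstrassCurve.map_ΨSq), and W'.ΨSq N <> 0 splits over Ω (IsAlgClosed): the roots of its image are the images of its roots (Polynomial.Splits.roots_map or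
IsAlgClosed.splits, Polynomial.roots_map), so x = j x'. y^2 = x^3 + A x + B = j(x'^3 + A x' + B); take y' with y'^2 = x'^3 + A x' + B (IsAlgClosed.exists_pow_nat_eq): y = j y' or y = j(-y'). -/

theorem c13_psi {a b : ℂ} (R : (WAB a b).toAffine.Point) (hR : R ≠ 0)
    {n : ℕ} (hn : 0 < n) (h0 : n • R = 0) : ∃ N : ℤ, N ≠ 0 ∧ ((WAB a b).ΨSq N).eval (xc R) = 0 := by
  have hs : (WAB a b).toAffine.IsShortNF := ⟨rfl, rfl, rfl⟩
  have h2 : (2 : ℂ) ≠ 0 := two_ne_zero
  have hN0 : addOrderOf R ≠ 0 := by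
    intro h1
    rw [addOrderOf_eq_zero_iff'] at h1
    exact h1 n hn h0
  have hN1 : addOrderOf R ≠ 1 := by
    intro h1
    exact hR (AddMonoid.addOrderOf_eq_one_iff.mp h1)
  have h3 := H16C.psi_order (W := (WAB a b).toAffine) h2 hR (addOrderOf R) (by omega) (fun k hk hk2 h3 =>
      absurd (addOrderOf_le_of_nsmul_eq_zero hk h3) (not_le.mpr hk2)) (addOrderOf_nsmul_eq_zero R)
  refine ⟨(addOrderOf R : ℤ), by exact_mod_cast hN0, ?_⟩
  have hx : xc R = H16C.xc R := by
    rcases R with _ | ⟨x, y, h⟩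
    · rfl
    · rfl
  rw [hx]
  have h4 := H16C.psi_sq (WAB a b).toAffine (H16C.eqn hR) (addOrderOf R : ℤ)
  rw [h3] at h4
  rw [← h4]
  ring

theorem tors_range [IsAlgClosed Ω] (h : CH A B Om j) (R : (WAB (embF F A) (embF F B)).toAffine.Point) (hR : R ≠ 0)
    {n : ℕ} (hn : 0 < n) (h0 : n • R = 0) : (∃ x, j x = xc R) ∧ ∃ y, j y = yc R := by
  have hcz : CharZero Ω := charZero_of_injective_algebraMap (algebraMap F Ω).injective
  obtain ⟨N, hN, hev⟩ := c13_psi R hR hn h0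
  have hmap : (WAB (algebraMap F Ω A) (algebraMap F Ω B)).map j = WAB (embF F A) (embF F B) := by
    ext
    · exact map_zero j
    · exact map_zero j
    · exact map_zero j
    · exact h.ovr A
    · exact h.ovr B
  have hx : ∃ x, j x = xc R := by
    have hps : (WAB (embF F A) (embF F B)).ΨSq N =
        ((WAB (algebraMap F Ω A) (algebraMap F Ω B)).ΨSq N).map j := by
      rw [← hmap, WeierstrassCurve.map_ΨSq]
    rw [hps] at hev
    have hne : (WAB (algebraMap F Ω A) (algebraMap F Ω B)).ΨSq N ≠ 0 :=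
      WeierstrassCurve.ΨSq_ne_zero _ (by exact_mod_cast hN)
    have hne' : ((WAB (algebraMap F Ω A) (algebraMap F Ω B)).ΨSq N).map j ≠ 0 :=
      (Polynomial.map_ne_zero_iff j.injective).2 hne
    have hroot : xc R ∈ (((WAB (algebraMap F Ω A) (algebraMap F Ω B)).ΨSq N).map j).roots := by
      rw [Polynomial.mem_roots hne']
      exact hev
    rw [(IsAlgClosed.splits _).roots_map j, Multiset.mem_map] at hroot
    obtain ⟨x, -, hx⟩ := hroot
    exact ⟨x, hx⟩
  refine ⟨hx, ?_⟩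
  obtain ⟨x, hx⟩ := hx
  have hE : yc R ^ 2 = xc R ^ 3 + embF F A * xc R + embF F B := by
    rcases R with _ | ⟨x', y', hxy⟩
    · exact absurd rfl hR
    · have hE := (Affine.equation_iff _ _).1 hxy.1
      simp only [WAB] at hE
      change y' ^ 2 = x' ^ 3 + embF F A * x' + embF F B
      linear_combination hE
  obtain ⟨y, hy⟩ := IsAlgClosed.exists_pow_nat_eq (x ^ 3 + algebraMap F Ω A * x + algebraMap F Ω B)
    (n := 2) (by norm_num)
  have hy2 : j y ^ 2 = yc R ^ 2 := by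
    rw [hE, ← hx, ← map_pow, hy, map_add, map_add, map_mul, map_pow, h.ovr, h.ovr]
  rcases sq_eq_sq_iff_eq_or_eq_neg.1 hy2 with h3 | h3
  · exact ⟨y, h3⟩
  · exact ⟨-y, by rw [map_neg, h3, neg_neg]⟩

end H55K.CC
end

-- from Lib.H55K.C15
section

open NumberField WeierstrassCurve Polynomial

namespace H55K.CC

open H55P (IQ embF eF LF Per Pt ac mem_LF eF_inj eF_ne Nm Nm_eq)
open H35P (WAB)

variable {F : Type} [Field F] [NumberField F] [IQ F] {Ω : Type} [Field Ω] [DecidableEq Ω] [Algebra F Ω]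
  {A B : F} {Om : ℂ} {j : Ω →+* ℂ}

/-! Chunk C15 (S/M). S = image of the nonzero classes c of 𝓞 F ⧸ (b) (finite: Ideal.finiteQuotientOfFreeOfNeBot, see finite_quot in Lib/H28G/GB1.lean) under c -> e(Quotient.out c)/e(b). Lattice: mem_LF. Model:
rho_bij in Lib/H28G/GB1.lean, GB3_inj, GB3_ex in Lib/H28G/GB3.lean. lat_nm: n = Ideal.absNorm (span b) is in (b) (Ideal.absNorm_mem), n = b c. -/

theorem exists_Rep {b : 𝓞 F} (hb : b ≠ 0) : ∃ S : Finset ℂ, Rep (LF F) (eF F b) S := by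
  classical
  have hb' : eF F b ≠ 0 := eF_ne hb
  have hfin : Finite (𝓞 F ⧸ Ideal.span {b}) := by
    apply Ideal.finiteQuotientOfFreeOfNeBot
    rwa [Ne, Ideal.span_singleton_eq_bot]
  have : Fintype (𝓞 F ⧸ Ideal.span {b}) := Fintype.ofFinite _
  have hout : ∀ c : 𝓞 F ⧸ Ideal.span {b}, Ideal.Quotient.mk (Ideal.span {b}) (Quotient.out c) = c :=
    fun c => Quotient.out_eq c
  have hdv : ∀ x y : 𝓞 F, eF F x / eF F b = eF F y → b ∣ x := by
    intro x y h
    rw [div_eq_iff hb', ← map_mul] at h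
    exact ⟨y, by rw [eF_inj h, mul_comm]⟩
  refine ⟨(Finset.univ.filter fun c : 𝓞 F ⧸ Ideal.span {b} => c ≠ 0).image fun c => eF F (Quotient.out c) / eF F b,
    hb', ?_, ?_, ?_, ?_, ?_⟩
  · intro l hl
    rw [mem_LF] at hl ⊢
    obtain ⟨y, rfl⟩ := hl
    exact ⟨b * y, by rw [map_mul]⟩
  · intro r hr
    obtain ⟨c, -, rfl⟩ := Finset.mem_image.1 hr
    rw [mem_LF]
    exact ⟨Quotient.out c, by rw [mul_div_cancel₀ _ hb']⟩
  · intro r hr
    obtain ⟨c, hc, rfl⟩ := Finset.mem_image.1 hr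
    rw [mem_LF]
    rintro ⟨y, hy⟩
    have h1 := hdv _ _ hy
    rw [← Ideal.mem_span_singleton, ← Ideal.Quotient.eq_zero_iff_mem, hout] at h1
    exact (Finset.mem_filter.1 hc).2 h1
  · intro r hr r' hr' h
    obtain ⟨c, hc, rfl⟩ := Finset.mem_image.1 hr
    obtain ⟨c', hc', rfl⟩ := Finset.mem_image.1 hr'
    rw [mem_LF] at h
    obtain ⟨y, hy⟩ := h
    rw [← sub_div, ← map_sub] at hy
    have h1 := hdv _ _ hy
    rw [← Ideal.mem_span_singleton, ← Ideal.Quotient.eq, hout, hout] at h1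
    rw [h1]
  · intro w hw
    rw [mem_LF] at hw
    obtain ⟨y, hy⟩ := hw
    have hw' : w = eF F y / eF F b := by
      rw [eq_div_iff hb', mul_comm, hy]
    by_cases h0 : Ideal.Quotient.mk (Ideal.span {b}) y = 0
    · left
      rw [Ideal.Quotient.eq_zero_iff_mem, Ideal.mem_span_singleton] at h0
      obtain ⟨y', rfl⟩ := h0
      rw [mem_LF]
      exact ⟨y', by rw [hw', map_mul, mul_div_cancel_left₀ _ hb']⟩
    · right
      refine ⟨_, Finset.mem_image.2 ⟨Ideal.Quotient.mk (Ideal.span {b}) y,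
        Finset.mem_filter.2 ⟨Finset.mem_univ _, h0⟩, rfl⟩, ?_⟩
      have h1 := hout (Ideal.Quotient.mk (Ideal.span {b}) y)
      rw [eq_comm, Ideal.Quotient.eq, Ideal.mem_span_singleton] at h1
      obtain ⟨y', hy'⟩ := h1
      rw [mem_LF]
      refine ⟨y', ?_⟩
      rw [hw', ← sub_div, ← map_sub, hy', map_mul, mul_div_cancel_left₀ _ hb']

theorem lat_nm {b : 𝓞 F} (hb : b ≠ 0) {w : ℂ} (hw : eF F b * w ∈ (LF F).lattice) : 0 < Nm b ∧
    (Nm b : ℂ) * w ∈ (LF F).lattice := by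
  refine ⟨Nat.pos_of_ne_zero fun h => hb (H55P.Nm_eq_zero.1 h), ?_⟩
  have h1 : (Nm b : 𝓞 F) ∈ Ideal.span {b} := Ideal.absNorm_mem (Ideal.span {b})
  rw [Ideal.mem_span_singleton] at h1
  obtain ⟨c, hc⟩ := h1
  rw [mem_LF] at hw ⊢
  obtain ⟨y, hy⟩ := hw
  refine ⟨c * y, ?_⟩
  have h2 : (Nm b : ℂ) = eF F b * eF F c := by
    rw [← map_mul, ← hc, map_natCast]
  rw [h2, map_mul, ← hy]
  ring

end H55K.CC
end

-- from Lib.H55P.E9
section

open NumberField IsDedekindDomain

namespace H55P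

open H55N
open H55B (g)

variable {F : Type} [Field F] [NumberField F] [IQ F] {K : Type} [Field K] [NumberField K]
  [Algebra F K] {m : ℕ}

/-! Chunk PE9 (S/M), PORT of Lib/H55N/E9.lean. m0 = absNorm (mK K M * f) * prod p_i * Nm d, where Nm d = absNorm (span {d}) (H55P/F0.lean); d divides Nm d in O (Ideal.absNorm_mem), which
replaces cj d * d. ¬ p ∣ m0: absNorm_cop (H55P/L1.lean) for mK K M * f (coprime to p: M is coprime to p, map the relation) and for span {d}, p_i <> p. l divides m0: absNorm (mK K M * f) is in mK K M <= (l) O_K, and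
(l) O_K contracts to (l) (for x in O, l divides x in O_K implies l divides x in O: O integrally closed: x/l is in F and integral). -/

theorem pe9_cop {M : Ideal (𝓞 F)} {p : ℕ} (h : IsCoprime M (Ideal.span {(p : 𝓞 F)})) :
    IsCoprime (mK K M) (Ideal.span {(p : 𝓞 K)}) := by
  obtain ⟨a, ha, c, hc, hac⟩ := Ideal.isCoprime_iff_exists.1 h
  obtain ⟨c', rfl⟩ := Ideal.mem_span_singleton.1 hc
  refine Ideal.isCoprime_iff_exists.2 ⟨algebraMap (𝓞 F) (𝓞 K) a, Ideal.mem_map_of_mem _ ha,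
    algebraMap (𝓞 F) (𝓞 K) ((p : 𝓞 F) * c'), ?_, ?_⟩
  · rw [map_mul, map_natCast]
    exact Ideal.mul_mem_right _ _ (Ideal.mem_span_singleton_self _)
  · rw [← map_add, hac, map_one]

theorem pe9_dvd {M : Ideal (𝓞 F)} {l : 𝓞 F} (hl : l ≠ 0) (hM : M ≤ Ideal.span {l}) {n : ℕ}
    (hn : (n : 𝓞 K) ∈ mK K M) : l ∣ (n : 𝓞 F) := by
  have h1 : mK K M ≤ Ideal.span {algebraMap (𝓞 F) (𝓞 K) l} := by
    unfold mK
    rw [Ideal.map_le_iff_le_comap]
    intro x hx
    obtain ⟨t, rfl⟩ := Ideal.mem_span_singleton.1 (hM hx)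
    rw [Ideal.mem_comap, map_mul]
    exact Ideal.mul_mem_right _ _ (Ideal.mem_span_singleton_self _)
  obtain ⟨t, ht⟩ := Ideal.mem_span_singleton.1 (h1 hn)
  have hl' : (l : F) ≠ 0 := by
    intro h0
    exact hl (RingOfIntegers.coe_injective (h0.trans (map_zero (algebraMap (𝓞 F) F)).symm))
  have h2 : ((n : ℕ) : K) = algebraMap F K (l : F) * (t : K) := by
    have h3 := congrArg (algebraMap (𝓞 K) K) ht
    rw [map_natCast, map_mul] at h3
    exact h3
  have h4 : algebraMap F K ((n : F) / (l : F)) = (t : K) := by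
    rw [map_div₀, map_natCast, h2, mul_div_cancel_left₀]
    exact (map_ne_zero _).2 hl'
  have h5 : IsIntegral ℤ ((n : F) / (l : F)) := by
    rw [← isIntegral_algebraMap_iff (algebraMap F K).injective, h4]
    exact t.2
  refine ⟨⟨_, h5⟩, ?_⟩
  apply RingOfIntegers.coe_injective
  rw [map_natCast, map_mul]
  change (n : F) = (l : F) * ((n : F) / (l : F))
  field_simp

theorem m0_exists (D : Ctx F K m) (hD : D.Ok) (p : ℕ) (hp : p.Prime) {M : Ideal (𝓞 F)} {l : 𝓞 F}
    (hM : Mod p M l) (b f : Ideal (𝓞 K)) (hf : f ≠ ⊥) (hfp : IsCoprime f (Ideal.span {(p : 𝓞 K)}))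
    (hI : D.I = mK K M * f * b) (hpi : ∀ i, D.p i ≠ p) (u : Fin m → (𝓞 K)ˣ)
    (L : (Fin m → ℤ) → K) (hL : LabP p l b D.c₀ u L) (a : Fin m → ℤ) (π : Equiv.Perm (Fin m)) :
    ∃ m₀ : ℕ, m₀ ≠ 0 ∧ ¬ p ∣ m₀ ∧ l ∣ (m₀ : 𝓞 F) ∧
      ∀ y : Fin (m + 1) → 𝓞 F, ∃ x : 𝓞 K, x ∈ D.I ∧ (∀ i, x ∈ D.c i) ∧
        ∀ k : Fin (m + 1), D.Tr (L (kv a π k)) x = m₀ * eF F (y k) := by
  classical
  obtain ⟨d, hd2, hd⟩ := hL.cop a π
  have hN1 : ¬ p ∣ Ideal.absNorm (mK K M * f) :=
    absNorm_cop p hp _ ((pe9_cop hM.cop).mul_left hfp)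
  have hNd : ¬ p ∣ Nm d := by
    refine absNorm_cop (K := F) p hp (Ideal.span {d}) ?_
    rw [Ideal.isCoprime_span_singleton_iff]
    exact hd2
  have hP : ¬ p ∣ ∏ i, D.p i := by
    intro h
    obtain ⟨i, -, hi⟩ := (Prime.dvd_finset_prod_iff hp.prime _).1 h
    exact hpi i ((Nat.prime_dvd_prime_iff_eq hp (hD.smooth.prime i)).1 hi).symm
  obtain ⟨N, hN⟩ : ∃ N : ℕ, N = Ideal.absNorm (mK K M * f) := ⟨_, rfl⟩
  have hNmem : (N : 𝓞 K) ∈ mK K M * f := by
    rw [hN]
    exact Ideal.absNorm_mem _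
  rw [← hN] at hN1
  have hm0 : ¬ p ∣ N * (∏ i, D.p i) * Nm d := by
    intro h
    rcases (hp.dvd_mul).1 h with h | h
    · rcases (hp.dvd_mul).1 h with h | h
      · exact hN1 h
      · exact hP h
    · exact hNd h
  obtain ⟨d', hd'⟩ : d ∣ (Nm d : 𝓞 F) := by
    rw [← Ideal.mem_span_singleton]
    exact Ideal.absNorm_mem _
  refine ⟨N * (∏ i, D.p i) * Nm d, ?_, hm0, ?_, fun y => ?_⟩
  · intro h0
    rw [h0] at hm0
    exact hm0 (dvd_zero p)
  · have h1 : l ∣ (N : 𝓞 F) := pe9_dvd (K := K) hM.prime.ne_zero hM.le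
      (Ideal.mul_le_left hNmem)
    rw [Nat.cast_mul, Nat.cast_mul]
    exact (h1.mul_right _).mul_right _
  · obtain ⟨x, hx, hxk⟩ := hd fun k => d' * y k
    refine ⟨((N * (∏ i, D.p i) : ℕ) : 𝓞 K) * x, ?_, ?_, ?_⟩
    · rw [hI]
      refine Ideal.mul_mem_mul ?_ hx
      rw [Nat.cast_mul]
      exact Ideal.mul_mem_right _ _ hNmem
    · intro i
      refine Ideal.mul_mem_right _ _ ?_
      have h1 : ((D.p i : ℕ) : 𝓞 K) ∈ D.c i := by
        rw [← hD.smooth.norm i]
        exact Ideal.absNorm_mem _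
      obtain ⟨t, ht⟩ : D.p i ∣ N * (∏ i, D.p i) :=
        (Finset.dvd_prod_of_mem _ (Finset.mem_univ i)).mul_left _
      rw [ht, Nat.cast_mul]
      exact Ideal.mul_mem_right _ _ h1
    · intro k
      rw [Tr_eq D hD.emb]
      have h1 : ((((N * (∏ i, D.p i) : ℕ) : 𝓞 K) * x : 𝓞 K) : K) *
          L (kv a π k) = ((N * (∏ i, D.p i) : ℕ) : F) • ((x : K) * L (kv a π k)) := by
        have h2 : ((((N * (∏ i, D.p i) : ℕ) : 𝓞 K) * x : 𝓞 K) : K) =
            ((N * (∏ i, D.p i) : ℕ) : K) * (x : K) := by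
          have h := map_mul (algebraMap (𝓞 K) K) ((N * (∏ i, D.p i) : ℕ) : 𝓞 K) x
          rw [map_natCast] at h
          exact h
        rw [h2, Algebra.smul_def, map_natCast]
        ring
      rw [h1, map_smul, hxk k, smul_eq_mul, map_mul, map_natCast]
      have h3 : d * (d' * y k) = (Nm d : 𝓞 F) * y k := by rw [hd', mul_assoc]
      rw [h3]
      have h4 : embF F ((algebraMap (𝓞 F) F) ((Nm d : 𝓞 F) * y k)) = (Nm d : ℂ) * eF F (y k) := by
        show eF F ((Nm d : 𝓞 F) * y k) = _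
        rw [map_mul, map_natCast]
      rw [h4]
      push_cast
      ring

end H55P
end

-- from Lib.H55K.J0
section

/-! # H55K, part J: the j-invariant is integral (definitions, residues) -/

open NumberField WeierstrassCurve

namespace H55K.JJ

open H35P (WAB Ker IntW)

section residue

variable {k : Type} [Field k] {V : ValuationSubring k}

open Classical in
/-- The residue (0 for elements which are not integral). -/
noncomputable def rs (V : ValuationSubring k) (x : k) : IsLocalRing.ResidueField V :=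
  if h : x ∈ V then IsLocalRing.residue V ⟨x, h⟩ else 0

theorem rs_of {x : k} (hx : x ∈ V) : rs V x = IsLocalRing.residue V ⟨x, hx⟩ := dif_pos hx

theorem rs_add {x y : k} (hx : x ∈ V) (hy : y ∈ V) : rs V (x + y) = rs V x + rs V y := by
  rw [rs_of hx, rs_of hy, rs_of (V.add_mem _ _ hx hy), ← map_add]
  rfl

theorem rs_mul {x y : k} (hx : x ∈ V) (hy : y ∈ V) : rs V (x * y) = rs V x * rs V y := by
  rw [rs_of hx, rs_of hy, rs_of (V.mul_mem _ _ hx hy), ← map_mul]
  rfl

theorem rs_neg {x : k} (hx : x ∈ V) : rs V (-x) = -rs V x := by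
  rw [rs_of hx, rs_of (V.neg_mem _ hx), ← map_neg]
  rfl

theorem rs_sub {x y : k} (hx : x ∈ V) (hy : y ∈ V) : rs V (x - y) = rs V x - rs V y := by
  rw [sub_eq_add_neg, rs_add hx (V.neg_mem _ hy), rs_neg hy, ← sub_eq_add_neg]

theorem rs_one : rs V (1 : k) = 1 := by
  rw [rs_of V.one_mem]
  exact map_one (IsLocalRing.residue V)

theorem rs_zero : rs V (0 : k) = 0 := by
  rw [rs_of V.zero_mem]
  exact map_zero (IsLocalRing.residue V)

theorem rs_pow {x : k} (hx : x ∈ V) (n : ℕ) : rs V (x ^ n) = rs V x ^ n := by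
  induction n with
  | zero => rw [pow_zero, pow_zero, rs_one]
  | succ n ih => rw [pow_succ, pow_succ, rs_mul (pow_mem hx n) hx, ih]

theorem rs_nat (n : ℕ) : rs V (n : k) = (n : IsLocalRing.ResidueField V) := by
  rw [rs_of (natCast_mem V n), ← map_natCast (IsLocalRing.residue V) n]
  rfl

theorem rs_sum {ι : Type} (s : Finset ι) (f : ι → k) (hf : ∀ i ∈ s, f i ∈ V) :
    rs V (∑ i ∈ s, f i) = ∑ i ∈ s, rs V (f i) := by
  classical
  induction s using Finset.induction_on with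
  | empty => rw [Finset.sum_empty, Finset.sum_empty, rs_zero]
  | insert a s ha ih =>
    rw [Finset.sum_insert ha, Finset.sum_insert ha, rs_add (hf a (Finset.mem_insert_self a s))
      (sum_mem fun i hi => hf i (Finset.mem_insert_of_mem hi)), ih fun i hi => hf i (Finset.mem_insert_of_mem hi)]

theorem rs_eq_zero {x : k} (hx : x ∈ V) : rs V x = 0 ↔ V.valuation x < 1 := by
  rw [rs_of hx, IsLocalRing.residue_eq_zero_iff, V.valuation_lt_one_iff]

theorem rs_ne_zero {x : k} (hx : x ∈ V) : rs V x ≠ 0 ↔ V.valuation x = 1 := by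
  have h1 := (V.valuation_le_one_iff x).2 hx
  rw [Ne, rs_eq_zero hx, not_lt]
  exact ⟨fun h => le_antisymm h1 h, fun h => h.ge⟩

theorem rs_eq {x y : k} (hx : x ∈ V) (hy : y ∈ V) : rs V x = rs V y ↔ V.valuation (x - y) < 1 := by
  rw [← rs_eq_zero (V.sub_mem hx hy), rs_sub hx hy, sub_eq_zero]

theorem rs_div {x y : k} (hx : x ∈ V) (hy : V.valuation y = 1) : rs V (x / y) = rs V x / rs V y := by
  have hy1 : y ∈ V := (V.valuation_le_one_iff y).1 hy.le
  have hy0 : rs V y ≠ 0 := (rs_ne_zero hy1).2 hy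
  have hy2 : y ≠ 0 := fun h => by
    rw [h, map_zero] at hy
    exact zero_ne_one hy
  have h1 : x / y ∈ V := by
    rw [← V.valuation_le_one_iff, map_div₀, hy, div_one]
    exact (V.valuation_le_one_iff x).2 hx
  rw [eq_div_iff hy0, ← rs_mul h1 hy1, div_mul_cancel₀ _ hy2]

end residue

/-- x as a function of the coordinate u of the nodal cubic y^2 + x y = x^3. -/
noncomputable def xu {κ : Type} [Field κ] (u : κ) : κ := u / (u - 1) ^ 2

/-- 2 y + x as a function of u. -/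
noncomputable def zu {κ : Type} [Field κ] (u : κ) : κ := u * (u + 1) / (u - 1) ^ 3

variable {k : Type} [Field k] [DecidableEq k] {W : WeierstrassCurve k}

/-- The curve y^2 + x y = x^3 + a4 x + a6 with a4, a6 of value less than one. -/
structure Nod (W : WeierstrassCurve k) (V : ValuationSubring k) : Prop where
  a1 : W.a₁ = 1
  a2 : W.a₂ = 0
  a3 : W.a₃ = 0
  a4 : V.valuation W.a₄ < 1
  a6 : V.valuation W.a₆ < 1

/-- The points with nonsingular reduction, outside the kernel of reduction. -/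
def Fn (V : ValuationSubring k) (P : W.toAffine.Point) : Prop := V.valuation (xc P) = 1

/-- The points with nonsingular reduction. -/
def E0 (V : ValuationSubring k) (P : W.toAffine.Point) : Prop := P = 0 ∨ 1 ≤ V.valuation (xc P)

/-- The coordinate u = 1 + x/y of the reduction. -/
noncomputable def ub (V : ValuationSubring k) (P : W.toAffine.Point) : IsLocalRing.ResidueField V :=
  rs V (1 + xc P / yc P)

omit [DecidableEq k] in
theorem Nod.intW {V : ValuationSubring k} (h : Nod W V) : IntW W V where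
  a1 := by
    rw [h.a1]
    exact V.one_mem
  a2 := by
    rw [h.a2]
    exact V.zero_mem
  a3 := by
    rw [h.a3]
    exact V.zero_mem
  a4 := (V.valuation_le_one_iff _).1 h.a4.le
  a6 := (V.valuation_le_one_iff _).1 h.a6.le

omit [DecidableEq k] in
theorem ub_zero {V : ValuationSubring k} : ub V (0 : W.toAffine.Point) = 1 := by
  have h1 : xc (0 : W.toAffine.Point) = 0 := rfl
  unfold ub
  rw [h1, zero_div, add_zero, rs_one]

end H55K.JJ
end

-- from Lib.H55K.J1A
section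

open NumberField WeierstrassCurve

namespace H55K.JJ

open H35P (WAB Ker IntW)

variable {k : Type} [Field k] [DecidableEq k] {W : WeierstrassCurve k} {V : ValuationSubring k}

/-! Chunk J1A (M, small facts; the equation is y^2 + x y = x^3 + a4 x + a6: cases on P, Affine.equation_iff, h.a1 ..). fn_crd: V(x) = 1, y in V by H35P.int_y (h.intW), y (y + x) = x^3 + (a4 x + a6) has value 1, both factors are in V.
fn_ub: 1 + x/y = (y + x)/y is in V; residues: with X = rs x, Y = rs y (Y <> 0, Y + X <> 0, X <> 0): Y (Y + X) = X^3, u = (Y + X)/Y, u - 1 = X/Y, xu u = Y (Y + X)/X^2 = X, zu u = X (u + 1)/(u - 1) = 2 Y + X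
(rs_div, rs_add, rs_mul, field_simp). fn_neg: Affine.Point.neg_some, negY = -y - x: ub (-P) = Y/(Y + X) (xc, yc of -P). nod_out: x of value < 1, so y is in V and y^2 + x y has value < 1. int_ker: H35P.int_y.
e0_iff: P = 0: Ker; V(x) > 1: Ker; V(x) = 1: Fn. ker_fn: not both. -/

theorem j1a_mul {Γ : Type*} [LinearOrderedCommGroupWithZero Γ] {a b : Γ} (ha : a ≤ 1) (hb : b ≤ 1)
    (h : a * b = 1) : a = 1 ∧ b = 1 := by
  have h1 : a = 1 := by
    refine le_antisymm ha ?_
    rw [← h]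
    exact mul_le_of_le_one_right' hb
  refine ⟨h1, ?_⟩
  rw [h1, one_mul] at h
  exact h

omit [DecidableEq k] in
theorem j1a_eqn (h : Nod W V) {x y : k} (he : W.toAffine.Equation x y) :
    y ^ 2 + x * y = x ^ 3 + (W.a₄ * x + W.a₆) := by
  rw [Affine.equation_iff, h.a1, h.a2, h.a3] at he
  linear_combination he

omit [DecidableEq k] in
theorem j1a_small (h : Nod W V) {x : k} (hx : V.valuation x ≤ 1) :
    V.valuation (W.a₄ * x + W.a₆) < 1 := by
  refine V.valuation.map_add_lt ?_ h.a6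
  rw [map_mul]
  exact lt_of_le_of_lt (mul_le_of_le_one_right' hx) h.a4

omit [DecidableEq k] in
theorem j1a_y (h : Nod W V) {x y : k} (he : W.toAffine.Equation x y) (hx : V.valuation x ≤ 1) :
    V.valuation y ≤ 1 := H35P.int_y h.intW he hx

omit [DecidableEq k] in
theorem j1a_rs (h : Nod W V) {x y : k} (he : W.toAffine.Equation x y) (hx : x ∈ V) (hy : y ∈ V) :
    rs V y ^ 2 + rs V x * rs V y = rs V x ^ 3 := by
  have h1 := congrArg (rs V) (j1a_eqn h he)
  have hs := j1a_small h ((V.valuation_le_one_iff x).2 hx)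
  have hsm : W.a₄ * x + W.a₆ ∈ V := (V.valuation_le_one_iff _).1 hs.le
  rw [rs_add (pow_mem hy 2) (V.mul_mem _ _ hx hy), rs_pow hy, rs_mul hx hy,
    rs_add (pow_mem hx 3) hsm, rs_pow hx, (rs_eq_zero hsm).2 hs, add_zero] at h1
  exact h1

omit [DecidableEq k] in
theorem j1a_fn (h : Nod W V) {x y : k} (he : W.toAffine.Equation x y) (hx : V.valuation x = 1) :
    V.valuation y = 1 ∧ V.valuation (y + x) = 1 := by
  have hy := j1a_y h he hx.le
  have hyx : V.valuation (y + x) ≤ 1 := V.valuation.map_add_le hy hx.le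
  refine j1a_mul hy hyx ?_
  rw [← map_mul]
  have e : y * (y + x) = x ^ 3 + (W.a₄ * x + W.a₆) := by
    rw [← j1a_eqn h he]
    ring
  rw [e]
  have h3 : V.valuation (x ^ 3) = 1 := by
    rw [map_pow, hx, one_pow]
  rw [V.valuation.map_add_eq_of_lt_left (by rw [h3]; exact j1a_small h hx.le), h3]

theorem fn_crd (h : Nod W V) {P : W.toAffine.Point} (hP : Fn V P) : P ≠ 0 ∧ xc P ∈ V ∧ yc P ∈ V ∧
    V.valuation (yc P) = 1 ∧ V.valuation (yc P + xc P) = 1 := by
  unfold Fn at hP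
  rcases P with _ | ⟨x, y, hxy⟩
  · exfalso
    change V.valuation (0 : k) = 1 at hP
    rw [map_zero] at hP
    exact zero_ne_one hP
  · change V.valuation x = 1 at hP
    obtain ⟨h1, h2⟩ := j1a_fn h hxy.1 hP
    refine ⟨?_, (V.valuation_le_one_iff x).1 hP.le, (V.valuation_le_one_iff y).1 h1.le, h1, h2⟩
    exact Affine.Point.some_ne_zero _

/-- A point with nonsingular reduction outside the kernel: coordinates. -/
theorem j1a_data (h : Nod W V) {P : W.toAffine.Point} (hP : Fn V P) :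
    rs V (xc P) ≠ 0 ∧ rs V (yc P) ≠ 0 ∧ rs V (yc P) + rs V (xc P) ≠ 0 ∧
    rs V (yc P) ^ 2 + rs V (xc P) * rs V (yc P) = rs V (xc P) ^ 3 ∧
    ub V P = 1 + rs V (xc P) / rs V (yc P) := by
  obtain ⟨h0, hx, hy, h1, h2⟩ := fn_crd h hP
  refine ⟨(rs_ne_zero hx).2 hP, (rs_ne_zero hy).2 h1, ?_, ?_, ?_⟩
  · rw [← rs_add hy hx]
    exact (rs_ne_zero (V.add_mem _ _ hy hx)).2 h2
  · rcases P with _ | ⟨x, y, hxy⟩
    · exact absurd rfl h0
    · exact j1a_rs h hxy.1 hx hy
  · unfold ub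
    rw [rs_add V.one_mem, rs_one, rs_div hx h1]
    rw [← V.valuation_le_one_iff, map_div₀, h1, div_one]
    exact (V.valuation_le_one_iff _).2 hx

theorem fn_ub (h : Nod W V) {P : W.toAffine.Point} (hP : Fn V P) : 1 + xc P / yc P ∈ V ∧ ub V P ≠ 0 ∧ ub V P ≠ 1 ∧
    rs V (xc P) = xu (ub V P) ∧ rs V (2 * yc P + xc P) = zu (ub V P) ∧
    rs V (yc P) * (ub V P - 1) = rs V (xc P) := by
  obtain ⟨h0, hx, hy, h1, h2⟩ := fn_crd h hP
  obtain ⟨hX, hY, hXY, he, hu⟩ := j1a_data h hP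
  have h2V : (2 : k) ∈ V := by
    have := natCast_mem V 2
    simpa using this
  have hr2 : rs V (2 : k) = 2 := by
    have := rs_nat (V := V) 2
    simpa using this
  have hz : rs V (2 * yc P + xc P) = 2 * rs V (yc P) + rs V (xc P) := by
    rw [rs_add (V.mul_mem _ _ h2V hy) hx, rs_mul h2V hy, hr2]
  rw [hz, hu]
  set X := rs V (xc P)
  set Y := rs V (yc P)
  have hdiv : X / Y ≠ 0 := div_ne_zero hX hY
  refine ⟨?_, ?_, ?_, ?_, ?_, ?_⟩
  · refine V.add_mem _ _ V.one_mem ?_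
    rw [← V.valuation_le_one_iff, map_div₀, h1, div_one]
    exact (V.valuation_le_one_iff _).2 hx
  · intro h3
    apply hXY
    have : Y * (1 + X / Y) = 0 := by rw [h3, mul_zero]
    rw [mul_add, mul_one, mul_div_cancel₀ _ hY] at this
    exact this
  · intro h3
    apply hdiv
    linear_combination h3
  · unfold xu
    have e : (1 : IsLocalRing.ResidueField V) + X / Y - 1 = X / Y := by ring
    rw [e, eq_div_iff (pow_ne_zero 2 hdiv)]
    field_simp
    linear_combination (-1 : IsLocalRing.ResidueField V) * he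
  · unfold zu
    have e : (1 : IsLocalRing.ResidueField V) + X / Y - 1 = X / Y := by ring
    rw [e, eq_div_iff (pow_ne_zero 3 hdiv)]
    field_simp
    linear_combination (-(2 * Y + X) : IsLocalRing.ResidueField V) * he
  · field_simp
    ring

theorem fn_neg (h : Nod W V) {P : W.toAffine.Point} (hP : Fn V P) : Fn V (-P) ∧ ub V (-P) = (ub V P)⁻¹ := by
  obtain ⟨h0, hx, hy, h1, h2⟩ := fn_crd h hP
  obtain ⟨hX, hY, hXY, he, hu⟩ := j1a_data h hP
  have hxn : xc (-P) = xc P ∧ yc (-P) = -(yc P + xc P) := by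
    rcases P with _ | ⟨x, y, hxy⟩
    · exact absurd rfl h0
    · refine ⟨rfl, ?_⟩
      change W.toAffine.negY x y = -(y + x)
      unfold Affine.negY
      rw [h.a1, h.a3]
      ring
  have hPn : Fn V (-P) := by
    unfold Fn
    rw [hxn.1]
    exact hP
  refine ⟨hPn, ?_⟩
  obtain ⟨-, -, -, -, hu'⟩ := j1a_data h hPn
  rw [hu', hu, hxn.1, hxn.2, rs_neg (V.add_mem _ _ hy hx), rs_add hy hx]
  set X := rs V (xc P)
  set Y := rs V (yc P)
  have e1 : (1 : IsLocalRing.ResidueField V) + X / Y = (Y + X) / Y := by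
    field_simp
  rw [e1, inv_div, div_neg]
  field_simp
  ring

theorem nod_out (h : Nod W V) {P : W.toAffine.Point} (hP : ¬ E0 V P) : P ≠ 0 ∧ V.valuation (xc P) < 1 ∧
    V.valuation (yc P) < 1 := by
  unfold E0 at hP
  push Not at hP
  obtain ⟨h0, hx⟩ := hP
  refine ⟨h0, hx, ?_⟩
  rcases P with _ | ⟨x, y, hxy⟩
  · exact absurd rfl h0
  · change V.valuation x < 1 at hx
    change V.valuation y < 1
    have hy := j1a_y h hxy.1 hx.le
    refine lt_of_le_of_ne hy ?_
    intro hy1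
    have h2 : V.valuation (y + x) = 1 := by
      rw [V.valuation.map_add_eq_of_lt_left (by rw [hy1]; exact hx), hy1]
    have h3 : V.valuation (y * (y + x)) = 1 := by
      rw [map_mul, hy1, h2, one_mul]
    have e : y * (y + x) = x ^ 3 + (W.a₄ * x + W.a₆) := by
      rw [← j1a_eqn h hxy.1]
      ring
    rw [e] at h3
    have h4 : V.valuation (x ^ 3 + (W.a₄ * x + W.a₆)) < 1 := by
      refine V.valuation.map_add_lt ?_ (j1a_small h hx.le)
      rw [map_pow]
      exact pow_lt_one₀ zero_le' hx (by norm_num)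
    exact absurd h3 h4.ne

theorem int_ker (h : Nod W V) {P : W.toAffine.Point} (hP : ¬ Ker V P) : P ≠ 0 ∧ xc P ∈ V ∧ yc P ∈ V := by
  rcases P with _ | ⟨x, y, hxy⟩
  · exact absurd trivial hP
  · change ¬ 1 < V.valuation x at hP
    rw [not_lt] at hP
    exact ⟨Affine.Point.some_ne_zero _, (V.valuation_le_one_iff x).1 hP,
      (V.valuation_le_one_iff y).1 (j1a_y h hxy.1 hP)⟩

theorem e0_iff {P : W.toAffine.Point} : E0 V P ↔ Ker V P ∨ Fn V P := by
  rcases P with _ | ⟨x, y, hxy⟩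
  · exact ⟨fun _ => Or.inl trivial, fun _ => Or.inl rfl⟩
  · change (Affine.Point.some x y hxy = 0 ∨ 1 ≤ V.valuation x) ↔ (1 < V.valuation x ∨ V.valuation x = 1)
    constructor
    · rintro (h1 | h1)
      · exact absurd h1 (Affine.Point.some_ne_zero _)
      · rcases h1.lt_or_eq with h2 | h2
        · exact Or.inl h2
        · exact Or.inr h2.symm
    · rintro (h1 | h1)
      · exact Or.inr h1.le
      · exact Or.inr h1.ge

theorem ker_fn {P : W.toAffine.Point} (hP : Fn V P) : ¬ Ker V P := by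
  rcases P with _ | ⟨x, y, hxy⟩
  · change V.valuation (0 : k) = 1 at hP
    rw [map_zero] at hP
    exact absurd hP zero_ne_one
  · change V.valuation x = 1 at hP
    change ¬ 1 < V.valuation x
    rw [hP]
    exact lt_irrefl _

/-- The equation of the reduction. -/
theorem z_sq (h : Nod W V) {P : W.toAffine.Point} (h0 : P ≠ 0) (hx : xc P ∈ V) (hy : yc P ∈ V) :
    rs V (2 * yc P + xc P) ^ 2 = 4 * rs V (xc P) ^ 3 + rs V (xc P) ^ 2 := by
  have h2V : (2 : k) ∈ V := by
    have := natCast_mem V 2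
    simpa using this
  have hr2 : rs V (2 : k) = 2 := by
    have := rs_nat (V := V) 2
    simpa using this
  have hz : rs V (2 * yc P + xc P) = 2 * rs V (yc P) + rs V (xc P) := by
    rw [rs_add (V.mul_mem _ _ h2V hy) hx, rs_mul h2V hy, hr2]
  rcases P with _ | ⟨x, y, hxy⟩
  · exact absurd rfl h0
  · have h1 := j1a_rs h hxy.1 hx hy
    rw [hz]
    change (2 * rs V y + rs V x) ^ 2 = 4 * rs V x ^ 3 + rs V x ^ 2
    linear_combination 4 * h1

end H55K.JJ
end

-- from Lib.H55K.C25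
section

open Polynomial

namespace H55K.CC

/-! Chunk C25 (M, pure algebra). U = N E - M D, G = D E, f = X^3 + C A X + C B. Suppose U <> 0, n = natDegree U, u = leading coefficient. Multiply the first equation by E^4, the second by D^4 and subtract:
f ((W1 E^2)^2 - (W2 D^2)^2) = C(α^2) G U Q, W1 = N'D - ND', W2 = M'E - ME', Q = N^2E^2 + N E M D + M^2D^2 + C A D^2E^2, and W1 E^2 - W2 D^2 = U'G - UG' (ring, derivative_mul). So
f (U'G - UG') (W1 E^2 + W2 D^2) = C(α^2) G U Q. Multiply by X^2 and compare the coefficients of X^(n + 3g + 4), g = d + e, with Polynomial.coeff_mul_of_natDegree_le (coeff (P Q) (m + k) = coeff P m * coeff Q k if natDegree P ≤ m,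
natDegree Q ≤ k). Top coefficients (γ = α^(-2), so N has γ, D has 1, M has γ, E has 1; the derivative enters as X P', whose coefficient of X^m is m times that of P):
f: 1 (degree 3); X(U'G - UG') = (XU')G - U(XG'), degree ≤ n + g: (n - g) u; X W1: degree ≤ 2d+1: ((d+1) - d) γ = γ; X W1 E^2: degree ≤ 2g+1: γ; X W2 D^2: γ; the sum 2γ.
Left side: 2 γ (n - g) u, total degree 3 + (n+g) + (2g+1). Right side: X^2 C(α^2) G U Q: 2 + g + n + (2g+2); Q: 3 γ^2 (the last term has degree ≤ 2g: coefficient 0 at 2g+2). So 2 γ (n-g) u = α^2 3 γ^2 u = 3 γ u,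
2 (n - g) = 3 in K, i.e. 2 n = 2 g + 3 in K, by CharZero in ℕ: absurd. -/

theorem ND_unique {K : Type} [Field K] [CharZero K] {α A B : K} (hα : α ≠ 0) {d e : ℕ} {N D M E : K[X]}
    (h1 : ND α A B d N D) (h2 : ND α A B e M E) : N * E = M * D := by
  obtain ⟨dN, cN, dD, cD, o1⟩ := h1
  obtain ⟨dM, cM, dE, cE, o2⟩ := h2
  obtain ⟨γ, hγ⟩ : ∃ γ, γ = N.coeff (d + 1) := ⟨_, rfl⟩
  rw [← hγ] at cN
  have hγM : M.coeff (e + 1) = γ := mul_left_cancel₀ (pow_ne_zero 2 hα) (cM.trans cN.symm)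
  have hγ0 : γ ≠ 0 := by
    rintro rfl
    rw [mul_zero] at cN
    exact zero_ne_one cN
  by_contra hne
  obtain ⟨U, hU⟩ : ∃ U, U = N * E - M * D := ⟨_, rfl⟩
  have hU0 : U ≠ 0 := by
    rw [hU]
    exact sub_ne_zero.2 hne
  obtain ⟨G, hG⟩ : ∃ G, G = D * E := ⟨_, rfl⟩
  obtain ⟨n, hn⟩ : ∃ n, n = U.natDegree := ⟨_, rfl⟩
  obtain ⟨u, hu⟩ : ∃ u, u = U.coeff n := ⟨_, rfl⟩
  have hu0 : u ≠ 0 := by
    rw [hu, hn]
    exact leadingCoeff_ne_zero.2 hU0
  obtain ⟨P1, hP1⟩ : ∃ P, P = (derivative N * D - N * derivative D) * E ^ 2 := ⟨_, rfl⟩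
  obtain ⟨P2, hP2⟩ : ∃ P, P = (derivative M * E - M * derivative E) * D ^ 2 := ⟨_, rfl⟩
  obtain ⟨Q, hQ⟩ : ∃ Q, Q = (N * E) ^ 2 + (N * E) * (M * D) + (M * D) ^ 2 + C A * G ^ 2 := ⟨_, rfl⟩
  have hdU : derivative U = derivative N * E + N * derivative E - (derivative M * D + M * derivative D) := by
    rw [hU, derivative_sub, derivative_mul, derivative_mul]
  have hdG : derivative G = derivative D * E + D * derivative E := by
    rw [hG, derivative_mul]
  have hdiff : P1 - P2 = derivative U * G - U * derivative G := by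
    rw [hdU, hdG, hP1, hP2, hG, hU]
    ring
  have hsq : (X ^ 3 + C A * X + C B) * ((P1 - P2) * (P1 + P2)) = C (α ^ 2) * (G * (U * Q)) := by
    have e1 := congrArg (· * E ^ 4) o1
    have e2 := congrArg (· * D ^ 4) o2
    beta_reduce at e1 e2
    have e3 : (X ^ 3 + C A * X + C B) * ((P1 - P2) * (P1 + P2)) =
        (X ^ 3 + C A * X + C B) * (derivative N * D - N * derivative D) ^ 2 * E ^ 4 -
        (X ^ 3 + C A * X + C B) * (derivative M * E - M * derivative E) ^ 2 * D ^ 4 := by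
      rw [hP1, hP2]
      ring
    rw [e3, e1, e2, hQ, hU, hG]
    ring
  have hθ : ∀ P : K[X], ∀ m : ℕ, (X * derivative P).coeff m = (m : K) * P.coeff m := by
    intro P m
    rcases m with _ | m
    · rw [coeff_X_mul_zero, Nat.cast_zero, zero_mul]
    · rw [coeff_X_mul, coeff_derivative]
      push_cast
      ring
  have hθd : ∀ P : K[X], ∀ m : ℕ, P.natDegree ≤ m → (X * derivative P).natDegree ≤ m := by
    intro P m hm
    rw [natDegree_le_iff_coeff_eq_zero]
    intro k hk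
    rw [hθ, coeff_eq_zero_of_natDegree_lt (lt_of_le_of_lt hm hk), mul_zero]
  have dG : G.natDegree ≤ d + e := by
    rw [hG]
    exact natDegree_mul_le_of_le dD dE
  have cG : G.coeff (d + e) = 1 := by
    rw [hG, coeff_mul_add_eq_of_natDegree_le dD dE, cD, cE, mul_one]
  -- the second factor
  have hF2 : (X * (P1 - P2)).coeff (n + (d + e)) = ((n : K) - (d + e : ℕ)) * u ∧
      (X * (P1 - P2)).natDegree ≤ n + (d + e) := by
    have e1 : X * (P1 - P2) = (X * derivative U) * G - U * (X * derivative G) := by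
      rw [hdiff]
      ring
    have a1 : (X * derivative U).natDegree ≤ n := hθd U n hn.ge
    have a2 : (X * derivative G).natDegree ≤ d + e := hθd G _ dG
    rw [e1]
    constructor
    · rw [coeff_sub, coeff_mul_add_eq_of_natDegree_le a1 dG, coeff_mul_add_eq_of_natDegree_le hn.ge a2, hθ, hθ, cG, ← hu]
      ring
    · exact (natDegree_sub_le _ _).trans (max_le (natDegree_mul_le_of_le a1 dG) (natDegree_mul_le_of_le hn.ge a2))
  have hW : ∀ (N D E : K[X]) (d e : ℕ), N.natDegree ≤ d + 1 → N.coeff (d + 1) = γ → D.natDegree ≤ d → D.coeff d = 1 →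
      E.natDegree ≤ e → E.coeff e = 1 →
      (X * ((derivative N * D - N * derivative D) * E ^ 2)).coeff (2 * (d + e) + 1) = γ ∧
      (X * ((derivative N * D - N * derivative D) * E ^ 2)).natDegree ≤ 2 * (d + e) + 1 := by
    intro N D E d e dN cN dD cD dE cE
    have e1 : X * ((derivative N * D - N * derivative D) * E ^ 2) =
        ((X * derivative N) * D - N * (X * derivative D)) * (E * E) := by ring
    have a1 : (X * derivative N).natDegree ≤ d + 1 := hθd N _ dN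
    have a2 : (X * derivative D).natDegree ≤ d := hθd D _ dD
    have a3 : (E * E).natDegree ≤ e + e := natDegree_mul_le_of_le dE dE
    have a4 : ((X * derivative N) * D - N * (X * derivative D)).natDegree ≤ (d + 1) + d :=
      (natDegree_sub_le _ _).trans (max_le (natDegree_mul_le_of_le a1 dD) (natDegree_mul_le_of_le dN a2))
    have e2 : 2 * (d + e) + 1 = ((d + 1) + d) + (e + e) := by ring
    rw [e1, e2]
    constructor
    · rw [coeff_mul_add_eq_of_natDegree_le a4 a3, coeff_sub, coeff_mul_add_eq_of_natDegree_le a1 dD, coeff_mul_add_eq_of_natDegree_le dN a2,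
        hθ, hθ, coeff_mul_add_eq_of_natDegree_le dE dE, cN, cD, cE]
      push_cast
      ring
    · exact natDegree_mul_le_of_le a4 a3
  obtain ⟨w1, w2⟩ := hW N D E d e dN hγ.symm dD cD dE cE
  obtain ⟨w3, w4⟩ := hW M E D e d dM hγM dE cE dD cD
  rw [← hP1] at w1 w2
  rw [← hP2, add_comm e d] at w3 w4
  have hF3 : (X * (P1 + P2)).coeff (2 * (d + e) + 1) = 2 * γ ∧ (X * (P1 + P2)).natDegree ≤ 2 * (d + e) + 1 := by
    rw [mul_add]
    constructor
    · rw [coeff_add, w1, w3]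
      ring
    · exact (natDegree_add_le _ _).trans (max_le w2 w4)
  have hF1 : (X ^ 3 + C A * X + C B : K[X]).coeff 3 = 1 ∧ (X ^ 3 + C A * X + C B : K[X]).natDegree ≤ 3 := by
    constructor
    · rw [coeff_add, coeff_add, coeff_C_mul, coeff_X_pow_self, coeff_C, coeff_X]
      norm_num
    · compute_degree
  have hNE : (N * E).coeff (d + e + 1) = γ ∧ (N * E).natDegree ≤ d + e + 1 := by
    have : d + e + 1 = (d + 1) + e := by ring
    rw [this]
    exact ⟨by rw [coeff_mul_add_eq_of_natDegree_le dN dE, cE, ← hγ, mul_one], natDegree_mul_le_of_le dN dE⟩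
  have hMD : (M * D).coeff (d + e + 1) = γ ∧ (M * D).natDegree ≤ d + e + 1 := by
    have : d + e + 1 = (e + 1) + d := by ring
    rw [this]
    exact ⟨by rw [coeff_mul_add_eq_of_natDegree_le dM dD, cD, hγM, mul_one], natDegree_mul_le_of_le dM dD⟩
  have hGG : (C A * G ^ 2).natDegree ≤ (d + e) + (d + e) := by
    rw [sq]
    exact (natDegree_C_mul_le _ _).trans (natDegree_mul_le_of_le dG dG)
  have hQ2 : Q.coeff ((d + e + 1) + (d + e + 1)) = 3 * γ ^ 2 ∧ Q.natDegree ≤ (d + e + 1) + (d + e + 1) := by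
    rw [hQ, sq (N * E), sq (M * D)]
    constructor
    · rw [coeff_add, coeff_add, coeff_add, coeff_mul_add_eq_of_natDegree_le hNE.2 hNE.2, coeff_mul_add_eq_of_natDegree_le hNE.2 hMD.2,
        coeff_mul_add_eq_of_natDegree_le hMD.2 hMD.2, coeff_eq_zero_of_natDegree_lt (lt_of_le_of_lt hGG (by omega)), hNE.1, hMD.1]
      ring
    · exact (natDegree_add_le _ _).trans (max_le ((natDegree_add_le _ _).trans (max_le ((natDegree_add_le _ _).trans
        (max_le (natDegree_mul_le_of_le hNE.2 hNE.2) (natDegree_mul_le_of_le hNE.2 hMD.2)))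
        (natDegree_mul_le_of_le hMD.2 hMD.2))) (hGG.trans (by omega)))
  have hfin := congrArg (fun P => (X ^ 2 * P).coeff (3 + ((n + (d + e)) + (2 * (d + e) + 1)))) hsq
  beta_reduce at hfin
  have l1 : X ^ 2 * ((X ^ 3 + C A * X + C B) * ((P1 - P2) * (P1 + P2))) =
      (X ^ 3 + C A * X + C B) * ((X * (P1 - P2)) * (X * (P1 + P2))) := by ring
  have l2 : X ^ 2 * (C (α ^ 2) * (G * (U * Q))) = C (α ^ 2) * (X ^ 2 * (G * (U * Q))) := by ring
  have l3 : 3 + ((n + (d + e)) + (2 * (d + e) + 1)) = 2 + ((d + e) + (n + ((d + e + 1) + (d + e + 1)))) := by ring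
  rw [l1, l2, coeff_mul_add_eq_of_natDegree_le hF1.2 (natDegree_mul_le_of_le hF2.2 hF3.2),
    coeff_mul_add_eq_of_natDegree_le hF2.2 hF3.2, l3, coeff_C_mul,
    coeff_mul_add_eq_of_natDegree_le (natDegree_X_pow_le 2) (natDegree_mul_le_of_le dG (natDegree_mul_le_of_le hn.ge hQ2.2)),
    coeff_mul_add_eq_of_natDegree_le dG (natDegree_mul_le_of_le hn.ge hQ2.2),
    coeff_mul_add_eq_of_natDegree_le hn.ge hQ2.2, hF1.1, hF2.1, hF3.1, coeff_X_pow_self, cG, ← hu, hQ2.1] at hfin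
  have h5 : (γ * u) * (2 * ((n : K) - (d + e : ℕ)) - 3) = 0 := by
    linear_combination hfin + 3 * u * γ * cN
  have h6 := (mul_eq_zero.1 h5).resolve_left (mul_ne_zero hγ0 hu0)
  have h7 : ((2 * n : ℕ) : K) = ((2 * (d + e) + 3 : ℕ) : K) := by
    push_cast
    push_cast at h6
    linear_combination h6
  have h8 := Nat.cast_injective h7
  omega

theorem ND_map {K : Type} [Field K] {α A B : K} {d : ℕ} {N D : K[X]} (h : ND α A B d N D) (s : K →+* K)
    (h1 : s α = α) (h2 : s A = A) (h3 : s B = B) : ND α A B d (N.map s) (D.map s) := by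
  refine ⟨(natDegree_map_le).trans h.dN, ?_, (natDegree_map_le).trans h.dD, ?_, ?_⟩
  · rw [coeff_map]
    have := congrArg s h.cN
    rwa [map_mul, map_pow, h1, map_one] at this
  · rw [coeff_map, h.cD, map_one]
  · have := congrArg (Polynomial.map s) h.ode
    simp only [Polynomial.map_mul, Polynomial.map_add, Polynomial.map_sub, Polynomial.map_pow, map_X, map_C,
      map_pow, h1, h2, h3, ← derivative_map] at this
    simpa only [map_pow] using this

end H55K.CC
end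

-- from Lib.H55K.C4
section

namespace H55K.CC

open H28G (Od)

/-! Chunk C4 (M). od_wp: z in Λ: for t near z, t <> z: wp t = wp(t - z) = ((t-z)^2)^(-1) + u(t - z) (H35P.wp_zero, wp_per), so wp t - wp w = (t-z)^(-2) (1 + (t-z)^2 (u(t-z) - wp w)).
z not in Λ, z - w or z + w in Λ: wp z = wp w (wp_per, L.weierstrassP_neg), the derivative wp' z is not 0 by H35P.wpd_ne (2 z is not in Λ since 2 w is not): H28G.Od.of_simple.
Otherwise wp z <> wp w by H35P.wp_ne: H28G.Od.of_ne. ind_wp: case distinctions (w, 2w not in Λ: the three conditions exclude each other). -/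

open Classical in
theorem od_wp (L : PeriodPair) {w : ℂ} (hw : w ∉ L.lattice) (h2 : 2 * w ∉ L.lattice) (z : ℂ) :
    Od (fun t => L.weierstrassP t - L.weierstrassP w) z
      (if z ∈ L.lattice then -2 else if z - w ∈ L.lattice ∨ z + w ∈ L.lattice then 1 else 0) := by
  by_cases hz : z ∈ L.lattice
  · rw [if_pos hz]
    obtain ⟨u, hu, hu0, hu1⟩ := H35P.wp_zero L
    refine ⟨fun t => 1 + (t - z) ^ 2 * (u (t - z) - L.weierstrassP w), ?_, ?_, ?_⟩
    · have h1 : AnalyticAt ℂ (fun t : ℂ => t - z) z := analyticAt_id.sub analyticAt_const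
      have h2 : AnalyticAt ℂ (fun t : ℂ => u (t - z)) z := by
        refine AnalyticAt.fun_comp ?_ h1
        rwa [sub_self]
      exact analyticAt_const.add ((h1.pow 2).mul (h2.sub analyticAt_const))
    · simp
    · filter_upwards [self_mem_nhdsWithin] with t ht
      have ht0 : t - z ≠ 0 := sub_ne_zero.2 ht
      have h1 : L.weierstrassP t = L.weierstrassP (t - z) := by
        have := wp_per L (t - z) hz
        rwa [sub_add_cancel] at this
      rw [h1, hu1 _ ht0]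
      have h2 : (t - z) ^ (-2 : ℤ) = ((t - z) ^ 2)⁻¹ := by
        rw [zpow_neg]
        rfl
      rw [h2]
      field_simp
      ring
  · rw [if_neg hz]
    have hand : AnalyticAt ℂ (fun t => L.weierstrassP t - L.weierstrassP w) z :=
      (H35P.wp_analytic L z hz).sub analyticAt_const
    by_cases hc : z - w ∈ L.lattice ∨ z + w ∈ L.lattice
    · rw [if_pos hc]
      have hval : L.weierstrassP z = L.weierstrassP w := by
        rcases hc with hc | hc
        · have := wp_per L w hc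
          rwa [add_sub_cancel] at this
        · have := wp_per L (-w) hc
          rw [L.weierstrassP_neg] at this
          have e1 : -w + (z + w) = z := by ring
          rwa [e1] at this
      have h2z : 2 * z ∉ L.lattice := by
        intro h
        apply h2
        rcases hc with hc | hc
        · have h3 := sub_mem (sub_mem h hc) hc
          have e1 : 2 * z - (z - w) - (z - w) = 2 * w := by ring
          rwa [e1] at h3
        · have h3 := sub_mem (add_mem hc hc) h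
          have e1 : z + w + (z + w) - 2 * z = 2 * w := by ring
          rwa [e1] at h3
      refine Od.of_simple hand ?_ ?_
      · rw [hval, sub_self]
      · rw [((H35P.wp_hasDeriv L z hz).sub_const _).deriv]
        exact H35P.wpd_ne L z hz h2z
    · rw [if_neg hc]
      push Not at hc
      exact Od.of_ne hand (sub_ne_zero.2 (H35P.wp_ne L z w hz hw hc.2 hc.1))

open Classical in
theorem ind_wp (L : PeriodPair) {w : ℂ} (hw : w ∉ L.lattice) (h2 : 2 * w ∉ L.lattice) (z : ℂ) :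
    (if z ∈ L.lattice then (-2 : ℤ) else if z - w ∈ L.lattice ∨ z + w ∈ L.lattice then 1 else 0) =
    -2 * (if z ∈ L.lattice then 1 else 0) + (if z - w ∈ L.lattice then 1 else 0) +
      (if z + w ∈ L.lattice then 1 else 0) := by
  by_cases hz : z ∈ L.lattice
  · have h3 : z - w ∉ L.lattice := by
      intro h
      apply hw
      have h4 := sub_mem hz h
      have e1 : z - (z - w) = w := by ring
      rwa [e1] at h4
    have h4 : z + w ∉ L.lattice := by
      intro h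
      apply hw
      have h4 := sub_mem h hz
      have e1 : z + w - z = w := by ring
      rwa [e1] at h4
    rw [if_pos hz, if_pos hz, if_neg h3, if_neg h4]
    norm_num
  · rw [if_neg hz, if_neg hz]
    by_cases h3 : z - w ∈ L.lattice
    · have h4 : z + w ∉ L.lattice := by
        intro h
        apply h2
        have h4 := sub_mem h h3
        have e1 : z + w - (z - w) = 2 * w := by ring
        rwa [e1] at h4
      rw [if_pos (Or.inl h3), if_pos h3, if_neg h4]
      norm_num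
    · by_cases h4 : z + w ∈ L.lattice
      · rw [if_pos (Or.inr h4), if_neg h3, if_pos h4]
        norm_num
      · rw [if_neg (not_or.2 ⟨h3, h4⟩), if_neg h3, if_neg h4]
        norm_num

end H55K.CC
end

-- from Lib.H55K.C5
section

namespace H55K.CC

/-! Chunk C5 (S/M). At most one term of the left side is 1: y + r, y + r' in Λ gives r - r' in Λ (h.inj, h.out; r or r' may be 0). If β y in Λ: h.ex for -y gives r in insert 0 S with y + r in Λ.
Conversely y + r in Λ gives β y in Λ (h.st, h.mem). Model: GB3_sum in Lib/H28G/GB3.lean. -/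

theorem c5_inj {L : PeriodPair} {β : ℂ} {S : Finset ℂ} (h : Rep L β S) {r r' : ℂ}
    (hr : r ∈ insert 0 S) (hr' : r' ∈ insert 0 S) (hd : r - r' ∈ L.lattice) : r = r' := by
  rw [Finset.mem_insert] at hr hr'
  rcases hr with rfl | hr
  · rcases hr' with rfl | hr'
    · rfl
    · exfalso
      apply h.out r' hr'
      rw [zero_sub] at hd
      simpa using neg_mem hd
  · rcases hr' with rfl | hr'
    · exfalso
      apply h.out r hr
      rwa [sub_zero] at hd
    · exact h.inj r hr r' hr' hd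

open Classical in
theorem count_rep {L : PeriodPair} {β : ℂ} {S : Finset ℂ} (h : Rep L β S) (y : ℂ) :
    (∑ r ∈ insert 0 S, if y + r ∈ L.lattice then (1 : ℤ) else 0) = if β * y ∈ L.lattice then 1 else 0 := by
  by_cases hQ : β * y ∈ L.lattice
  · rw [if_pos hQ]
    have hex : ∃ r ∈ insert 0 S, y + r ∈ L.lattice := by
      have h1 : β * (-y) ∈ L.lattice := by
        rw [mul_neg]
        exact neg_mem hQ
      rcases h.ex (-y) h1 with h2 | ⟨r, hr, h2⟩
      · refine ⟨0, Finset.mem_insert_self _ _, ?_⟩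
        rw [add_zero]
        simpa using neg_mem h2
      · refine ⟨r, Finset.mem_insert_of_mem hr, ?_⟩
        have h3 := neg_mem h2
        have h4 : -(-y - r) = y + r := by ring
        rwa [h4] at h3
    obtain ⟨r, hr, h1⟩ := hex
    rw [Finset.sum_eq_single_of_mem r hr]
    · exact if_pos h1
    · intro r' hr' hne
      refine if_neg fun h2 => hne (c5_inj h hr' hr ?_)
      have h3 := sub_mem h2 h1
      have h4 : y + r' - (y + r) = r' - r := by ring
      rwa [h4] at h3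
  · rw [if_neg hQ]
    refine Finset.sum_eq_zero fun r hr => if_neg fun h2 => hQ ?_
    have h3 := h.st _ h2
    have h4 : β * r ∈ L.lattice := by
      rw [Finset.mem_insert] at hr
      rcases hr with rfl | hr
      · rw [mul_zero]
        exact zero_mem _
      · exact h.mem r hr
    have h5 := sub_mem h3 h4
    have h6 : β * (y + r) - β * r = β * y := by ring
    rwa [h6] at h5

end H55K.CC
end

-- from Lib.H55K.C7
section

namespace H55K.CC

open H28G (Od)

/-! Chunk C7 (M). G z = product over r in insert 0 S of (wp(z + r) - wp w), H z = wp(β z) - wp(β w), both periodic (wp_per, h.st). w, 2 w are not in Λ (h.st). Orders: G at z0: Od.prod, Od.comp_add, od_wp at z0 + r;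
H at z0: Od.comp_mul (h.ne), od_wp at β z0 (for β w). Equal: ind_wp and count_rep for y = z0, z0 - w, z0 + w: (z0 + r) -+ w = (z0 -+ w) + r, β (z0 -+ w) = β z0 -+ β w (Finset.sum_add_distrib, Finset.mul_sum).
quot_const: G = c H near every point (punctured). Then at z with β z not in Λ both sides are continuous (Rep.z_out, Rep.zr_out), so G z = c H z (tendsto_nhds_unique on nhdsWithin z {z}ᶜ, see GB5_point in
Lib/H28G/GB5.lean). -/

theorem E2_aux {L : PeriodPair} {β : ℂ} {S : Finset ℂ} (h : Rep L β S) {w : ℂ} (hw : β * w ∉ L.lattice)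
    (h2 : 2 * (β * w) ∉ L.lattice) : ∃ c : ℂ, c ≠ 0 ∧ ∀ z, β * z ∉ L.lattice →
      ∏ r ∈ insert 0 S, (L.weierstrassP (z + r) - L.weierstrassP w) =
        c * (L.weierstrassP (β * z) - L.weierstrassP (β * w)) := by
  classical
  have hw0 : w ∉ L.lattice := h.z_out hw
  have hw2 : 2 * w ∉ L.lattice := by
    intro h0
    apply h2
    have h1 := h.st _ h0
    have e1 : β * (2 * w) = 2 * (β * w) := by ring
    rwa [e1] at h1
  obtain ⟨G, hG⟩ : ∃ G : ℂ → ℂ, G = fun z => ∏ r ∈ insert 0 S, (L.weierstrassP (z + r) - L.weierstrassP w) :=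
    ⟨_, rfl⟩
  obtain ⟨H, hH⟩ : ∃ H : ℂ → ℂ, H = fun z => L.weierstrassP (β * z) - L.weierstrassP (β * w) := ⟨_, rfl⟩
  have pG : ∀ z, ∀ l ∈ L.lattice, G (z + l) = G z := by
    intro z l hl
    rw [hG]
    refine Finset.prod_congr rfl fun r _ => ?_
    have e1 : z + l + r = z + r + l := by ring
    rw [e1, wp_per L _ hl]
  have pH : ∀ z, ∀ l ∈ L.lattice, H (z + l) = H z := by
    intro z l hl
    rw [hH]
    show L.weierstrassP (β * (z + l)) - L.weierstrassP (β * w) = L.weierstrassP (β * z) - L.weierstrassP (β * w)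
    rw [mul_add, wp_per L _ (h.st l hl)]
  have nH : ∀ z, Od H z (if β * z ∈ L.lattice then -2 else
      if β * z - β * w ∈ L.lattice ∨ β * z + β * w ∈ L.lattice then 1 else 0) := by
    intro z
    rw [hH]
    exact Od.comp_mul h.ne (od_wp L hw h2 (β * z))
  have nG : ∀ z, Od G z (if β * z ∈ L.lattice then -2 else
      if β * z - β * w ∈ L.lattice ∨ β * z + β * w ∈ L.lattice then 1 else 0) := by
    intro z
    have h1 := Od.prod (insert 0 S) (g := fun r t => L.weierstrassP (t + r) - L.weierstrassP w) (z₀ := z)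
      (n := fun r => if z + r ∈ L.lattice then -2 else
        if z + r - w ∈ L.lattice ∨ z + r + w ∈ L.lattice then 1 else 0)
      (fun r _ => Od.comp_add (od_wp L hw0 hw2 (z + r)))
    have h3 : (∑ r ∈ insert 0 S, (if z + r ∈ L.lattice then (-2 : ℤ) else
        if z + r - w ∈ L.lattice ∨ z + r + w ∈ L.lattice then 1 else 0)) =
        if β * z ∈ L.lattice then -2 else
        if β * z - β * w ∈ L.lattice ∨ β * z + β * w ∈ L.lattice then 1 else 0 := by
      have h4 : ∀ r, (if z + r ∈ L.lattice then (-2 : ℤ) else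
          if z + r - w ∈ L.lattice ∨ z + r + w ∈ L.lattice then 1 else 0) =
          -2 * (if z + r ∈ L.lattice then 1 else 0) + (if z - w + r ∈ L.lattice then 1 else 0) +
          (if z + w + r ∈ L.lattice then 1 else 0) := by
        intro r
        rw [ind_wp L hw0 hw2 (z + r), show z + r - w = z - w + r by ring, show z + r + w = z + w + r by ring]
      rw [Finset.sum_congr rfl fun r _ => h4 r, Finset.sum_add_distrib, Finset.sum_add_distrib, ← Finset.mul_sum,
        count_rep h z, count_rep h (z - w), count_rep h (z + w), ind_wp L hw h2 (β * z), mul_sub, mul_add]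
    rw [h3] at h1
    rw [hG]
    exact h1
  obtain ⟨c, hc, hcz⟩ := quot_const L G H pG pH _ nG nH
  refine ⟨c, hc, fun z hz => ?_⟩
  have cG : ContinuousAt G z := by
    rw [hG]
    refine tendsto_finsetProd _ fun r hr => ?_
    have hzr : z + r ∉ L.lattice := by
      rw [Finset.mem_insert] at hr
      rcases hr with rfl | hr
      · rw [add_zero]
        exact h.z_out hz
      · exact h.zr_out hz hr
    have h1 : ContinuousAt (fun t : ℂ => L.weierstrassP (t + r)) z :=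
      ContinuousAt.comp (f := fun t : ℂ => t + r) (g := L.weierstrassP) (H35P.wp_analytic L _ hzr).continuousAt
        (continuous_add_right r).continuousAt
    exact h1.sub continuousAt_const
  have cH : ContinuousAt H z := by
    rw [hH]
    have h1 : ContinuousAt (fun t : ℂ => L.weierstrassP (β * t)) z :=
      ContinuousAt.comp (f := fun t : ℂ => β * t) (g := L.weierstrassP) (H35P.wp_analytic L _ hz).continuousAt
        (continuous_const_mul β).continuousAt
    exact h1.sub continuousAt_const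
  have e1 : G z = c * H z := by
    have t1 : Filter.Tendsto G (nhdsWithin z {z}ᶜ) (nhds (G z)) := cG.tendsto.mono_left nhdsWithin_le_nhds
    have t2 : Filter.Tendsto (fun t => c * H t) (nhdsWithin z {z}ᶜ) (nhds (c * H z)) :=
      (cH.tendsto.const_mul c).mono_left nhdsWithin_le_nhds
    exact tendsto_nhds_unique (t1.congr' (hcz z)) t2
  rw [hG, hH] at e1
  exact e1

end H55K.CC
end

-- from Lib.H55K.C8
section

namespace H55K.CC

/-! Chunk C8 (M). Let c be from E2_aux. For z near 0, z <> 0: β z not in Λ (H35P.ev_compl, H35P.tendsto_punct). Multiply by z^2 and let z -> 0 (punctured): z^2 wp z -> 1 (H35P.wp_zero: z^2 wp z = 1 + z^2 u z), so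
z^2 (wp z - wp w) -> 1 and the left side tends to the product over r in S of (wp r - wp w) (0 is not in S: h.out; continuity of wp at r); z^2 (wp(β z) - wp(β w)) -> 1/β^2. So
c = β^2 prod over S of (wp r - wp w) (tendsto_nhds_unique). Then E2 for z by E2_aux, Finset.prod_insert. -/

theorem E2_gen {L : PeriodPair} {β : ℂ} {S : Finset ℂ} (h : Rep L β S) {z w : ℂ} (hz : β * z ∉ L.lattice)
    (hw : β * w ∉ L.lattice) (h2 : 2 * (β * w) ∉ L.lattice) :
    β ^ 2 * (L.weierstrassP (β * z) - L.weierstrassP (β * w)) * ∏ r ∈ S, (L.weierstrassP r - L.weierstrassP w) =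
      (L.weierstrassP z - L.weierstrassP w) * ∏ r ∈ S, (L.weierstrassP (z + r) - L.weierstrassP w) := by
  obtain ⟨c, hc0, hc⟩ := E2_aux h hw h2
  have h0S : (0 : ℂ) ∉ S := fun h0 => h.out 0 h0 (zero_mem _)
  have hc' : ∀ z, β * z ∉ L.lattice →
      (L.weierstrassP z - L.weierstrassP w) * ∏ r ∈ S, (L.weierstrassP (z + r) - L.weierstrassP w) =
        c * (L.weierstrassP (β * z) - L.weierstrassP (β * w)) := by
    intro z hz
    rw [← hc z hz, Finset.prod_insert h0S, add_zero]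
  obtain ⟨u, hu, hu0, hu2⟩ := H35P.wp_zero L
  have huc : ContinuousAt u 0 := hu.continuousAt
  have hβ := h.ne
  have hev : ∀ᶠ z in nhdsWithin (0 : ℂ) {0}ᶜ, β * z ∉ L.lattice := by
    have ht := H35P.tendsto_punct (fun z : ℂ => β * z) 0 (by fun_prop)
      (fun x y hxy => mul_left_cancel₀ hβ hxy)
    exact ht.eventually (H35P.ev_compl L _)
  have hL : Filter.Tendsto (fun z : ℂ => (1 + z ^ 2 * u z - z ^ 2 * L.weierstrassP w) *
      ∏ r ∈ S, (L.weierstrassP (z + r) - L.weierstrassP w)) (nhdsWithin (0 : ℂ) {0}ᶜ)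
      (nhds (∏ r ∈ S, (L.weierstrassP r - L.weierstrassP w))) := by
    have h3 : ContinuousAt (fun z : ℂ => (1 + z ^ 2 * u z - z ^ 2 * L.weierstrassP w) *
      ∏ r ∈ S, (L.weierstrassP (z + r) - L.weierstrassP w)) 0 := by
      refine ContinuousAt.mul (by fun_prop) ?_
      refine tendsto_finsetProd _ fun r hr => ?_
      have h4 : ContinuousAt L.weierstrassP (0 + r) := by
        rw [zero_add]
        exact (H35P.wp_analytic L r (h.out r hr)).continuousAt
      have h5 : ContinuousAt (fun z : ℂ => L.weierstrassP (z + r)) 0 :=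
        ContinuousAt.comp (f := fun z : ℂ => z + r) h4 (by fun_prop)
      exact (h5.sub continuousAt_const)
    have h6 := h3.tendsto
    simp only [zero_add, ne_eq, OfNat.ofNat_ne_zero, not_false_eq_true, zero_pow, zero_mul, add_zero, sub_zero,
      one_mul] at h6
    exact h6.mono_left nhdsWithin_le_nhds
  have hR : Filter.Tendsto (fun z : ℂ => c * ((β ^ 2)⁻¹ + z ^ 2 * u (β * z) - z ^ 2 * L.weierstrassP (β * w)))
      (nhdsWithin (0 : ℂ) {0}ᶜ) (nhds (c * (β ^ 2)⁻¹)) := by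
    have h4 : ContinuousAt u (β * 0) := by rwa [mul_zero]
    have h5 : ContinuousAt (fun z : ℂ => u (β * z)) 0 :=
      ContinuousAt.comp (f := fun z : ℂ => β * z) h4 (by fun_prop)
    have h3 : ContinuousAt (fun z : ℂ => c * ((β ^ 2)⁻¹ + z ^ 2 * u (β * z) - z ^ 2 * L.weierstrassP (β * w))) 0 := by
      fun_prop
    have h6 := h3.tendsto
    simp only [ne_eq, OfNat.ofNat_ne_zero, not_false_eq_true, zero_pow, zero_mul, add_zero, sub_zero] at h6
    exact h6.mono_left nhdsWithin_le_nhds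
  have heq : ∀ᶠ z in nhdsWithin (0 : ℂ) {0}ᶜ, (1 + z ^ 2 * u z - z ^ 2 * L.weierstrassP w) *
      ∏ r ∈ S, (L.weierstrassP (z + r) - L.weierstrassP w) =
      c * ((β ^ 2)⁻¹ + z ^ 2 * u (β * z) - z ^ 2 * L.weierstrassP (β * w)) := by
    filter_upwards [hev, self_mem_nhdsWithin] with z hz1 hz2
    have hz0 : z ≠ 0 := hz2
    have h3 := hc' z hz1
    have e1 : 1 + z ^ 2 * u z - z ^ 2 * L.weierstrassP w = z ^ 2 * (L.weierstrassP z - L.weierstrassP w) := by
      rw [hu2 z hz0]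
      field_simp
    have e2 : (β ^ 2)⁻¹ + z ^ 2 * u (β * z) - z ^ 2 * L.weierstrassP (β * w) =
        z ^ 2 * (L.weierstrassP (β * z) - L.weierstrassP (β * w)) := by
      rw [hu2 (β * z) (mul_ne_zero hβ hz0)]
      field_simp
    rw [e1, e2, mul_assoc, h3]
    ring
  have hlim := tendsto_nhds_unique (hL.congr' heq) hR
  have hcc : c = β ^ 2 * ∏ r ∈ S, (L.weierstrassP r - L.weierstrassP w) := by
    rw [hlim]
    field_simp
  rw [hc' z hz, hcc]
  ring

end H55K.CC
end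

-- from Lib.H55K.C9
section

namespace H55K.CC

/-! Chunk C9 (S/M): continuity in w. For t near w, t <> w: β t not in Λ (open condition, H35P.compl_open) and 2 (β t) not in Λ (H35P.ev_compl at 2 β w, H35P.tendsto_punct for t -> 2 (β t)), so E2_gen holds for z, t.
Both sides are continuous functions of t at w (wp is continuous at w and at β w), so they agree at w: tendsto_nhds_unique on nhdsWithin w {w}ᶜ. -/

theorem c9_cont (L : PeriodPair) {z : ℂ} (hz : z ∉ L.lattice) : ContinuousAt L.weierstrassP z :=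
  (H35P.wp_hasDeriv L z hz).continuousAt

/-- (E2) -/
theorem E2 {L : PeriodPair} {β : ℂ} {S : Finset ℂ} (h : Rep L β S) {z w : ℂ} (hz : β * z ∉ L.lattice)
    (hw : β * w ∉ L.lattice) :
    β ^ 2 * (L.weierstrassP (β * z) - L.weierstrassP (β * w)) * ∏ r ∈ S, (L.weierstrassP r - L.weierstrassP w) =
      (L.weierstrassP z - L.weierstrassP w) * ∏ r ∈ S, (L.weierstrassP (z + r) - L.weierstrassP w) := by
  have hw' : w ∉ L.lattice := h.z_out hw
  have c1 : ContinuousAt (fun t : ℂ => L.weierstrassP t) w := c9_cont L hw'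
  have c2 : ContinuousAt (fun t : ℂ => L.weierstrassP (β * t)) w :=
    ContinuousAt.comp (f := fun t : ℂ => β * t) (c9_cont L hw) (by fun_prop)
  have hA : ContinuousAt (fun t : ℂ => β ^ 2 * (L.weierstrassP (β * z) - L.weierstrassP (β * t)) *
      ∏ r ∈ S, (L.weierstrassP r - L.weierstrassP t)) w := by
    refine (continuousAt_const.mul (continuousAt_const.sub c2)).mul ?_
    exact tendsto_finsetProd S fun r _ => (continuousAt_const.sub c1 : ContinuousAt _ w)
  have hB : ContinuousAt (fun t : ℂ => (L.weierstrassP z - L.weierstrassP t) *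
      ∏ r ∈ S, (L.weierstrassP (z + r) - L.weierstrassP t)) w := by
    refine (continuousAt_const.sub c1).mul ?_
    exact tendsto_finsetProd S fun r _ => (continuousAt_const.sub c1 : ContinuousAt _ w)
  have hinj : Function.Injective fun t : ℂ => 2 * (β * t) := by
    intro t t' htt
    exact mul_left_cancel₀ h.ne (mul_left_cancel₀ two_ne_zero htt)
  have e1 : ∀ᶠ t in nhdsWithin w {w}ᶜ, 2 * (β * t) ∉ L.lattice :=
    (H35P.tendsto_punct (fun t : ℂ => 2 * (β * t)) w (by fun_prop) hinj).eventually (H35P.ev_compl L _)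
  have e2 : ∀ᶠ t in nhdsWithin w {w}ᶜ, β * t ∉ L.lattice := by
    apply Filter.Eventually.filter_mono nhdsWithin_le_nhds
    have h3 : ContinuousAt (fun t : ℂ => β * t) w := by fun_prop
    exact h3.eventually ((H35P.compl_open L).mem_nhds hw)
  have e3 : (fun t : ℂ => β ^ 2 * (L.weierstrassP (β * z) - L.weierstrassP (β * t)) *
      ∏ r ∈ S, (L.weierstrassP r - L.weierstrassP t)) =ᶠ[nhdsWithin w {w}ᶜ]
      fun t : ℂ => (L.weierstrassP z - L.weierstrassP t) *
      ∏ r ∈ S, (L.weierstrassP (z + r) - L.weierstrassP t) := by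
    filter_upwards [e1, e2] with t h1 h2
    exact E2_gen h hz h2 h1
  have t1 := hA.tendsto.mono_left (nhdsWithin_le_nhds (s := {w}ᶜ))
  have t2 := hB.tendsto.mono_left (nhdsWithin_le_nhds (s := {w}ᶜ))
  exact tendsto_nhds_unique t1 (t2.congr' e3.symm)

end H55K.CC
end

-- from Lib.H55K.C3
section

namespace H55K.CC

/-! Chunk C3 (S): differentiate E1 at z (E1 holds in a neighbourhood of z since {β t not in Λ} is open: H35P.compl_open): HasDerivAt of both sides (H35P.wp_hasDeriv, chain rule, HasDerivAt.fun_sum),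
HasDerivAt.unique after congr_of_eventuallyEq. -/

theorem E1d {L : PeriodPair} {β : ℂ} {S : Finset ℂ} (h : Rep L β S) {z : ℂ} (hz : β * z ∉ L.lattice) :
    β ^ 3 * L.derivWeierstrassP (β * z) =
      L.derivWeierstrassP z + ∑ r ∈ S, L.derivWeierstrassP (z + r) := by
  have hz0 := h.z_out hz
  have hL : HasDerivAt (fun t => β ^ 2 * L.weierstrassP (β * t))
      (β ^ 2 * (L.derivWeierstrassP (β * z) * β)) z := by
    have h1 := H35P.wp_hasDeriv L (β * z) hz
    have h2 : HasDerivAt (fun t : ℂ => β * t) β z := by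
      simpa using (hasDerivAt_id z).const_mul β
    exact (HasDerivAt.comp z h1 h2).const_mul (β ^ 2)
  have hR : HasDerivAt (fun t => L.weierstrassP t +
      ∑ r ∈ S, (L.weierstrassP (t + r) - L.weierstrassP r))
      (L.derivWeierstrassP z + ∑ r ∈ S, L.derivWeierstrassP (z + r)) z := by
    refine (H35P.wp_hasDeriv L z hz0).add (HasDerivAt.fun_sum fun r hr => ?_)
    exact ((H35P.wp_hasDeriv L (z + r) (h.zr_out hz hr)).comp_add_const z r).sub_const _
  have hev : (fun t => β ^ 2 * L.weierstrassP (β * t)) =ᶠ[nhds z]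
      (fun t => L.weierstrassP t + ∑ r ∈ S, (L.weierstrassP (t + r) - L.weierstrassP r)) := by
    have hopen : IsOpen {t : ℂ | β * t ∉ L.lattice} :=
      (H35P.compl_open L).preimage (by fun_prop)
    filter_upwards [hopen.mem_nhds hz] with t ht
    exact E1 h ht
  have h3 := hL.unique (hR.congr_of_eventuallyEq hev)
  rw [← h3]
  ring

end H55K.CC
end

-- from Lib.H55K.J5
section

/-! # H55K, part J: the model -/

open NumberField WeierstrassCurve

namespace H55K.JJ

open H55P (IQ embF eF LF Per Pt ac Nm)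
open H35P (WAB Ker IntW)

/-- The model with multiplicative reduction. -/
structure Md {F : Type} [Field F] {Ω : Type} [Field Ω] [DecidableEq Ω] [Algebra F Ω] (A B : F)
    (V : ValuationSubring Ω) (W' : WeierstrassCurve Ω) (u : Ω) (Θ : Pt (WAB A B) Ω ≃+ W'.toAffine.Point) : Prop where
  une : u ≠ 0
  nod : Nod W' V
  ell : W'.Δ ≠ 0
  crd : MG.Crd u (u ^ 2 / 12) (u / 2) 0 Θ

variable {F : Type} [Field F] [NumberField F] [IQ F] {A B : F} {Om : ℂ} {Ω : Type} [Field Ω] [DecidableEq Ω]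
  [Algebra F Ω] {j : Ω →+* ℂ} {act : 𝓞 F →+* AddMonoid.End (Pt (WAB A B) Ω)} {V : ValuationSubring Ω}
  {W' : WeierstrassCurve Ω} {u : Ω} {Θ : Pt (WAB A B) Ω ≃+ W'.toAffine.Point}

/-! Chunk J5 (S/M). m_e1x, m_e1z: h.e1x, h.e1y with xc P = u^2 xc (Θ P) + u^2/12 and yc P = u^3 yc (Θ P) + (u/2) u^2 xc (Θ P) (hM.crd for P, P + T, T in S, act b P: all nonzero: act b (P + T) = act b P <> 0), divide by u^2 and by u^3/2
(CharZero Ω: 2, 12 <> 0, charZero_of_injective_algebraMap). tor_out: T in E[b], T <> 0, V(Nm b) = 1: Nm b • T = 0 (Nm b = b * cj b, mul_cj, D1; act (n : 𝓞 F) = n •, see G1 or E0 files), so Θ T is not in Ker (H35P.fg for W', hM.nod.intW). -/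

theorem j5_char (h : CMA F A B Om j act) : CharZero Ω :=
  charZero_of_injective_algebraMap (FaithfulSMul.algebraMap_injective F Ω)

/-- The points P and P + T. -/
theorem j5_ne {b : 𝓞 F} {S : Finset (Pt (WAB A B) Ω)} (hS : TN act b S) {P : Pt (WAB A B) Ω}
    (hP : act b P ≠ 0) : P ≠ 0 ∧ ∀ T ∈ S, T ≠ 0 ∧ P + T ≠ 0 := by
  refine ⟨?_, ?_⟩
  · rintro rfl
    exact hP (map_zero _)
  · intro T hT
    obtain ⟨h1, h2⟩ := (hS T).1 hT
    refine ⟨h2, ?_⟩
    intro h3
    apply hP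
    have h4 : act b (P + T) = 0 := by rw [h3, map_zero]
    rwa [map_add, h1, add_zero] at h4

theorem m_e1x (h : CMA F A B Om j act) (hM : Md A B V W' u Θ) {b : 𝓞 F} (hb : b ≠ 0)
    {S : Finset (Pt (WAB A B) Ω)} (hS : TN act b S) {P : Pt (WAB A B) Ω} (hP : act b P ≠ 0) :
    ak Ω b ^ 2 * (xc (Θ (act b P)) + 1 / 12) =
      xc (Θ P) + 1 / 12 + ∑ T ∈ S, (xc (Θ (P + T)) - xc (Θ T)) := by
  obtain ⟨hP0, hT⟩ := j5_ne hS hP
  have hu := hM.une
  have h1 := h.e1x b S hb hS P hP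
  have hs : ∑ T ∈ S, (xc (P + T) - xc T) = u ^ 2 * ∑ T ∈ S, (xc (Θ (P + T)) - xc (Θ T)) := by
    rw [Finset.mul_sum]
    refine Finset.sum_congr rfl fun T hTS => ?_
    rw [(hM.crd (P + T) (hT T hTS).2).2.1, (hM.crd T (hT T hTS).1).2.1]
    ring
  rw [hs, (hM.crd P hP0).2.1, (hM.crd (act b P) hP).2.1] at h1
  have hu2 : u ^ 2 ≠ 0 := pow_ne_zero 2 hu
  apply mul_left_cancel₀ hu2
  linear_combination h1

theorem m_e1z (h : CMA F A B Om j act) (hM : Md A B V W' u Θ) {b : 𝓞 F} (hb : b ≠ 0)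
    {S : Finset (Pt (WAB A B) Ω)} (hS : TN act b S) {P : Pt (WAB A B) Ω} (hP : act b P ≠ 0) :
    ak Ω b ^ 3 * (2 * yc (Θ (act b P)) + xc (Θ (act b P))) =
      2 * yc (Θ P) + xc (Θ P) + ∑ T ∈ S, (2 * yc (Θ (P + T)) + xc (Θ (P + T))) := by
  obtain ⟨hP0, hT⟩ := j5_ne hS hP
  have hc := j5_char h
  have hu := hM.une
  have h1 := h.e1y b S hb hS P hP
  have hy : ∀ Q : Pt (WAB A B) Ω, Q ≠ 0 → 2 * yc Q = u ^ 3 * (2 * yc (Θ Q) + xc (Θ Q)) := by
    intro Q hQ
    rw [(hM.crd Q hQ).2.2]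
    have h2 : (2 : Ω) ≠ 0 := two_ne_zero
    field_simp
    ring
  have hs : 2 * ∑ T ∈ S, yc (P + T) = u ^ 3 * ∑ T ∈ S, (2 * yc (Θ (P + T)) + xc (Θ (P + T))) := by
    rw [Finset.mul_sum, Finset.mul_sum]
    refine Finset.sum_congr rfl fun T hTS => ?_
    exact hy _ (hT T hTS).2
  have hu2 : u ^ 3 ≠ 0 := pow_ne_zero 3 hu
  apply mul_left_cancel₀ hu2
  have h3 := hy P hP0
  have h4 := hy (act b P) hP
  linear_combination 2 * h1 + h3 + hs - ak Ω b ^ 3 * h4

theorem tor_out (h : CMA F A B Om j act) (hM : Md A B V W' u Θ) {b : 𝓞 F} (hb : V.valuation ((Nm b : ℕ) : Ω) = 1)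
    {T : Pt (WAB A B) Ω} (hT : act b T = 0) (h0 : T ≠ 0) : ¬ Ker V (Θ T) := by
  intro hK
  have h1 : Nm b • T = 0 := by
    have h1 : act (Nm b : 𝓞 F) T = Nm b • T := by
      rw [map_natCast]
      rfl
    have h2 : act (Nm b : 𝓞 F) T = act (cj b) (act b T) := by
      have e1 : (Nm b : 𝓞 F) = cj b * b := by rw [← mul_cj, mul_comm]
      rw [e1, map_mul]
      rfl
    rw [← h1, h2, hT, map_zero]
  have h2 : Nm b • Θ T = 0 := by rw [← map_nsmul, h1, map_zero]
  have h3 := H35P.fg hM.nod.intW (Θ T) (Nm b) hb h2 hK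
  exact (hM.crd T h0).1 h3

end H55K.JJ
end

-- from Lib.H55K.J1B
section

open NumberField WeierstrassCurve

namespace H55K.JJ

open H35P (WAB Ker IntW)

variable {k : Type} [Field k] [DecidableEq k] {W : WeierstrassCurve k} {V : ValuationSubring k}

/-! Chunk J1B (M). fn_add_out: P = (x1, y1), T = (x2, y2) with x2, y2 of value < 1, x1, y1 units: x1 - x2 is a unit, slope l = (y1 - y2)/(x1 - x2) in V, P + T = (x3, ..), x3 = l^2 + l - x1 - x2 (addX, h.a1, h.a2), with residue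
(Y1/X1)^2 + Y1/X1 - X1 = (Y1^2 + X1 Y1 - X1^3)/X1^2 = 0: V(x3) < 1 and P + T <> 0 (Affine.Point.add_some, x1 <> x2). e0_neg: xc (-P) = xc P. e0_add_out: P in Ker: put Q = P + T. If E0 Q: Q in Fn: -T = P - Q... precisely P = Q + (-T) with Q in Fn
and -T not in E0 is not in E0 by fn_add_out, but P in Ker is in E0 (e0_iff): contradiction; Q in Ker: T = Q - P in Ker (H35P.ker_sub): contradiction. P in Fn: fn_add_out. e0_add: if P + Q =: T is not in E0 then Q = -P + T is not in E0 (e0_add_out):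
contradiction. -/

theorem fn_add_out (h : Nod W V) {P T : W.toAffine.Point} (hP : Fn V P) (hT : ¬ E0 V T) : ¬ E0 V (P + T) := by
  obtain ⟨hP0, hx1, hy1, -, -⟩ := fn_crd h hP
  obtain ⟨hT0, hx2, hy2⟩ := nod_out h hT
  have hP' : V.valuation (xc P) = 1 := hP
  rcases P with _ | ⟨x₁, y₁, h₁⟩
  · exact absurd rfl hP0
  rcases T with _ | ⟨x₂, y₂, h₂⟩
  · exact absurd rfl hT0
  have hx1' : V.valuation x₁ = 1 := hP'
  have hx2' : V.valuation x₂ < 1 := hx2
  have hy2' : V.valuation y₂ < 1 := hy2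
  have mx1 : x₁ ∈ V := hx1
  have my1 : y₁ ∈ V := hy1
  have mx2 : x₂ ∈ V := (V.valuation_le_one_iff _).1 hx2'.le
  have my2 : y₂ ∈ V := (V.valuation_le_one_iff _).1 hy2'.le
  have hne : x₁ ≠ x₂ := by
    intro h0
    rw [h0] at hx1'
    exact absurd hx1' hx2'.ne
  have hX0 : rs V x₁ ≠ 0 := (rs_ne_zero mx1).2 hx1'
  have rx2 : rs V x₂ = 0 := (rs_eq_zero mx2).2 hx2'
  have ry2 : rs V y₂ = 0 := (rs_eq_zero my2).2 hy2'
  have hd : V.valuation (x₁ - x₂) = 1 := by
    rw [← rs_ne_zero (V.sub_mem mx1 mx2), rs_sub mx1 mx2, rx2, sub_zero]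
    exact hX0
  have hsl : W.toAffine.slope x₁ x₂ y₁ y₂ = (y₁ - y₂) / (x₁ - x₂) := Affine.slope_of_X_ne hne
  have rsl : rs V ((y₁ - y₂) / (x₁ - x₂)) = rs V y₁ / rs V x₁ := by
    rw [rs_div (V.sub_mem my1 my2) hd, rs_sub my1 my2, rs_sub mx1 mx2, rx2, ry2, sub_zero, sub_zero]
  have msl : (y₁ - y₂) / (x₁ - x₂) ∈ V := by
    rw [← V.valuation_le_one_iff, map_div₀, hd, div_one]
    exact (V.valuation_le_one_iff _).2 (V.sub_mem my1 my2)
  have heq : y₁ ^ 2 + x₁ * y₁ = x₁ ^ 3 + (W.a₄ * x₁ + W.a₆) := by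
    have h3 := h₁.1
    rw [Affine.equation_iff] at h3
    have e1 : W.toAffine.a₁ = 1 := h.a1
    have e2 : W.toAffine.a₂ = 0 := h.a2
    have e3 : W.toAffine.a₃ = 0 := h.a3
    rw [e1, e2, e3] at h3
    linear_combination h3
  have m4 : W.a₄ ∈ V := (V.valuation_le_one_iff _).1 h.a4.le
  have m6 : W.a₆ ∈ V := (V.valuation_le_one_iff _).1 h.a6.le
  have r4 : rs V W.a₄ = 0 := (rs_eq_zero m4).2 h.a4
  have r6 : rs V W.a₆ = 0 := (rs_eq_zero m6).2 h.a6
  have hres : rs V y₁ ^ 2 + rs V x₁ * rs V y₁ = rs V x₁ ^ 3 := by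
    have h4 := congrArg (rs V) heq
    rw [rs_add (pow_mem my1 2) (V.mul_mem _ _ mx1 my1), rs_pow my1, rs_mul mx1 my1,
      rs_add (pow_mem mx1 3) (V.add_mem _ _ (V.mul_mem _ _ m4 mx1) m6), rs_pow mx1,
      rs_add (V.mul_mem _ _ m4 mx1) m6, rs_mul m4 mx1, r4, r6, zero_mul, add_zero, add_zero] at h4
    exact h4
  have hx3 : W.toAffine.addX x₁ x₂ (W.toAffine.slope x₁ x₂ y₁ y₂) =
      ((y₁ - y₂) / (x₁ - x₂)) ^ 2 + (y₁ - y₂) / (x₁ - x₂) - x₁ - x₂ := by
    have e1 : W.toAffine.a₁ = 1 := h.a1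
    have e2 : W.toAffine.a₂ = 0 := h.a2
    rw [Affine.addX, e1, e2, hsl]
    ring
  have m3 : ((y₁ - y₂) / (x₁ - x₂)) ^ 2 + (y₁ - y₂) / (x₁ - x₂) - x₁ - x₂ ∈ V :=
    V.sub_mem (V.sub_mem (V.add_mem _ _ (pow_mem msl 2) msl) mx1) mx2
  have hv3 : V.valuation (W.toAffine.addX x₁ x₂ (W.toAffine.slope x₁ x₂ y₁ y₂)) < 1 := by
    rw [hx3, ← rs_eq_zero m3, rs_sub (V.sub_mem (V.add_mem _ _ (pow_mem msl 2) msl) mx1) mx2,
      rs_sub (V.add_mem _ _ (pow_mem msl 2) msl) mx1, rs_add (pow_mem msl 2) msl, rs_pow msl, rsl, rx2, sub_zero]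
    field_simp
    linear_combination hres
  rw [Affine.Point.add_some (fun h0 => hne h0.1)]
  rintro (h0 | h0)
  · cases h0
  · exact absurd hv3 (not_lt.2 h0)

theorem e0_neg {P : W.toAffine.Point} : E0 V (-P) ↔ E0 V P := by
  rcases P with _ | ⟨x₁, y₁, h₁⟩
  · exact Iff.rfl
  · rw [Affine.Point.neg_some]
    constructor
    · rintro (h0 | h0)
      · cases h0
      · exact Or.inr h0
    · rintro (h0 | h0)
      · cases h0
      · exact Or.inr h0

theorem e0_add_out (h : Nod W V) {P T : W.toAffine.Point} (hP : E0 V P) (hT : ¬ E0 V T) : ¬ E0 V (P + T) := by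
  rcases e0_iff.1 hP with hk | hf
  · intro hQ
    rcases e0_iff.1 hQ with hk2 | hf2
    · have h1 := H35P.ker_sub h.intW (P + T) P hk2 hk
      rw [add_sub_cancel_left] at h1
      exact hT (e0_iff.2 (Or.inl h1))
    · have h1 := fn_add_out h hf2 (T := -T) (fun h2 => hT (e0_neg.1 h2))
      rw [← sub_eq_add_neg, add_sub_cancel_right] at h1
      exact h1 hP
  · exact fn_add_out h hf hT

theorem e0_add (h : Nod W V) {P Q : W.toAffine.Point} (hP : E0 V P) (hQ : E0 V Q) : E0 V (P + Q) := by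
  by_contra h1
  have h2 := e0_add_out h (e0_neg.2 hP) h1
  rw [neg_add_cancel_left] at h2
  exact h2 hQ

end H55K.JJ
end

-- from Lib.H55K.J2B
section

open NumberField WeierstrassCurve

namespace H55K.JJ

open H35P (WAB Ker IntW)

variable {k : Type} [Field k] [DecidableEq k] {W : WeierstrassCurve k} {V : ValuationSubring k}

omit [DecidableEq k] in
theorem j2b_le {a : k} (h : a ∈ V) : V.valuation a ≤ 1 := (V.valuation_le_one_iff a).2 h

/-- An integral combination with one factor of value less than one. -/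
theorem j2b_mul_lt {a b : k} (h : a ∈ V) (hb : V.valuation b < 1) : V.valuation (a * b) < 1 := by
  rw [map_mul]
  exact (mul_le_of_le_one_left' (j2b_le h)).trans_lt hb

theorem j2b_big (hI : IntW W V) {x₁ x₂ l : k} (h1 : x₁ ∈ V) (h2 : x₂ ∈ V) (hl : 1 < V.valuation l) :
    1 < V.valuation (W.toAffine.addX x₁ x₂ l) := by
  have e : W.toAffine.addX x₁ x₂ l = l ^ 2 + (W.a₁ * l - (W.a₂ + x₁ + x₂)) := by
    unfold Affine.addX
    ring
  have hll : V.valuation l < V.valuation (l ^ 2) := by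
    rw [map_pow, pow_two]
    exact lt_mul_of_one_lt_left (zero_lt_one.trans hl) hl
  have h3 : V.valuation (W.a₁ * l - (W.a₂ + x₁ + x₂)) < V.valuation (l ^ 2) := by
    refine lt_of_le_of_lt (V.valuation.map_sub_le ?_ ?_) hll
    · rw [map_mul]
      exact mul_le_of_le_one_left' (j2b_le hI.a1)
    · exact (j2b_le (V.add_mem _ _ (V.add_mem _ _ hI.a2 h1) h2)).trans hl.le
  rw [e, V.valuation.map_add_eq_of_lt_left h3]
  exact hl.trans hll

omit [DecidableEq k] in
theorem j2b_div {a b : k} (ha : V.valuation a = 1) (hb : V.valuation b < 1) (hb0 : b ≠ 0) :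
    1 < V.valuation (a / b) := by
  rw [map_div₀, ha, one_div]
  exact (one_lt_inv₀ ((V.valuation.pos_iff).2 hb0)).2 hb

theorem j2b_rd (hI : IntW W V) (P Q : W.toAffine.Point) (h : H35P.Cong V P Q)
    (hns : V.valuation (2 * yc P + W.a₁ * xc P + W.a₃) < 1 →
      V.valuation (3 * xc P ^ 2 + 2 * W.a₂ * xc P + W.a₄ - W.a₁ * yc P) = 1) : Ker V (P - Q) := by
  obtain ⟨x₁, y₁, h₁, x₂, y₂, h₂, rfl, rfl, hx1, hy1, hx2, hy2, hx, hy⟩ := h
  change V.valuation (2 * y₁ + W.a₁ * x₁ + W.a₃) < 1 →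
      V.valuation (3 * x₁ ^ 2 + 2 * W.a₂ * x₁ + W.a₄ - W.a₁ * y₁) = 1 at hns
  rw [sub_eq_add_neg, Affine.Point.neg_some]
  by_cases hc : x₁ = x₂ ∧ y₁ = W.toAffine.negY x₂ (W.toAffine.negY x₂ y₂)
  · rw [Affine.Point.add_of_Y_eq hc.1 hc.2]
    trivial
  rw [Affine.Point.add_some hc]
  change 1 < V.valuation (W.toAffine.addX x₁ x₂ (W.toAffine.slope x₁ x₂ y₁ (W.toAffine.negY x₂ y₂)))
  refine j2b_big hI hx1 hx2 ?_
  have hE1 := (Affine.equation_iff ..).1 h₁.1
  have hE2 := (Affine.equation_iff ..).1 h₂.1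
  by_cases hxx : x₁ = x₂
  · -- tangent
    have hyy : y₁ ≠ y₂ := fun h => hc ⟨hxx, by rw [Affine.negY_negY]; exact h⟩
    have hneg : y₁ = W.toAffine.negY x₂ y₂ := (Affine.Y_eq_of_X_eq h₁.1 h₂.1 hxx).resolve_left hyy
    have hy' : y₁ ≠ W.toAffine.negY x₂ (W.toAffine.negY x₂ y₂) := fun h => hc ⟨hxx, h⟩
    rw [Affine.slope_of_Y_ne hxx hy']
    have e : y₁ - W.toAffine.negY x₁ y₁ = y₁ - y₂ := by
      congr 1
      rw [hneg, hxx, Affine.negY_negY]
    have e2 : 2 * y₁ + W.a₁ * x₁ + W.a₃ = y₁ - y₂ := by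
      rw [← e]
      unfold Affine.negY
      ring
    rw [e]
    exact j2b_div (hns (by rw [e2]; exact hy)) hy (sub_ne_zero.2 hyy)
  · -- chord
    have hxx0 : x₁ - x₂ ≠ 0 := sub_ne_zero.2 hxx
    rw [Affine.slope_of_X_ne hxx]
    have hFy1 : V.valuation (2 * y₁ + W.a₁ * x₁ + W.a₃) ≤ 1 :=
      j2b_le (V.add_mem _ _ (V.add_mem _ _ (V.mul_mem _ _ (by simp) hy1) (V.mul_mem _ _ hI.a1 hx1)) hI.a3)
    have hnegY : y₁ - W.toAffine.negY x₂ y₂ = y₁ + y₂ + W.a₁ * x₂ + W.a₃ := by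
      unfold Affine.negY
      ring
    rcases hFy1.lt_or_eq with hF | hF
    · have hFx := hns hF
      have hG1 : V.valuation (x₁ ^ 2 + x₁ * x₂ + x₂ ^ 2 + W.a₂ * (x₁ + x₂) + W.a₄ - W.a₁ * y₁) = 1 := by
        have e : x₁ ^ 2 + x₁ * x₂ + x₂ ^ 2 + W.a₂ * (x₁ + x₂) + W.a₄ - W.a₁ * y₁ =
            (3 * x₁ ^ 2 + 2 * W.a₂ * x₁ + W.a₄ - W.a₁ * y₁) + -((x₂ + 2 * x₁ + W.a₂) * (x₁ - x₂)) := by ring
        rw [e, V.valuation.map_add_eq_of_lt_left, hFx]
        rw [hFx, Valuation.map_neg]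
        exact j2b_mul_lt (V.add_mem _ _ (V.add_mem _ _ hx2 (V.mul_mem _ _ (by simp) hx1)) hI.a2) hx
      have hid : (y₁ - W.toAffine.negY x₂ y₂) * (y₁ - y₂) =
          (x₁ - x₂) * (x₁ ^ 2 + x₁ * x₂ + x₂ ^ 2 + W.a₂ * (x₁ + x₂) + W.a₄ - W.a₁ * y₁) := by
        rw [hnegY]
        linear_combination hE1 - hE2
      have hyy : y₁ - y₂ ≠ 0 := by
        intro h0
        rw [h0, mul_zero] at hid
        rcases mul_eq_zero.1 hid.symm with h | h
        · exact hxx0 h
        · rw [h, map_zero] at hG1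
          exact zero_ne_one hG1
      have e : (y₁ - W.toAffine.negY x₂ y₂) / (x₁ - x₂) =
          (x₁ ^ 2 + x₁ * x₂ + x₂ ^ 2 + W.a₂ * (x₁ + x₂) + W.a₄ - W.a₁ * y₁) / (y₁ - y₂) := by
        rw [div_eq_div_iff hxx0 hyy, hid]
        ring
      rw [e]
      exact j2b_div hG1 hy hyy
    · have hn : V.valuation (y₁ - W.toAffine.negY x₂ y₂) = 1 := by
        have e : y₁ - W.toAffine.negY x₂ y₂ = (2 * y₁ + W.a₁ * x₁ + W.a₃) + -((y₁ - y₂) + W.a₁ * (x₁ - x₂)) := by
          rw [hnegY]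
          ring
        rw [e, V.valuation.map_add_eq_of_lt_left, hF]
        rw [hF, Valuation.map_neg]
        exact V.valuation.map_add_lt hy (j2b_mul_lt hI.a1 hx)
      exact j2b_div hn hx hxx0

/-! Chunk J2B (M). Port of H35P.rd (Lib/H35P/RD.lean; its private lemmas can be copied): in that proof GoodW is used only through nonsing at the point P. Here: at P = (x, y) in Fn: if V(2y + x) < 1 then V(3x^2 - y) = 1 (a2 = 0, a1 = 1, V(a4) < 1):
residues: otherwise Y = 3X^2 and 2Y + X = 0, so 6X + 1 = 0 (X <> 0), and Y^2 + XY = X^3 gives 9X^4 + 3X^3 = X^3, 9X + 2 = 0, so 4 = 3 (18 X = -3 = -4), 1 = 0. The points are congruent: ub P = ub Q gives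
rs x = xu u equal, rs y = rs x/(u - 1) equal (fn_ub), rs_eq. -/

theorem rd_fn (h : Nod W V) {P Q : W.toAffine.Point} (hP : Fn V P) (hQ : Fn V Q) (hu : ub V P = ub V Q) :
    Ker V (P - Q) := by
  obtain ⟨p0, p1, p2, -, -⟩ := fn_crd h hP
  obtain ⟨q0, q1, q2, -, -⟩ := fn_crd h hQ
  obtain ⟨-, -, p5, p6, -, p8⟩ := fn_ub h hP
  obtain ⟨-, -, q5, q6, -, q8⟩ := fn_ub h hQ
  have hX : rs V (xc P) = rs V (xc Q) := by rw [p6, q6, hu]
  have hY : rs V (yc P) = rs V (yc Q) := by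
    have h1 : ub V P - 1 ≠ 0 := sub_ne_zero.2 p5
    apply mul_right_cancel₀ h1
    rw [p8, hX, ← q8, hu]
  have hX0 : rs V (xc P) ≠ 0 := (rs_ne_zero p1).2 hP
  have hc : H35P.Cong V P Q := by
    have hx := (rs_eq p1 q1).1 hX
    have hy := (rs_eq p2 q2).1 hY
    rcases P with _ | ⟨x₁, y₁, h₁⟩
    · exact absurd rfl p0
    rcases Q with _ | ⟨x₂, y₂, h₂⟩
    · exact absurd rfl q0
    exact ⟨x₁, y₁, h₁, x₂, y₂, h₂, rfl, rfl, p1, p2, q1, q2, hx, hy⟩
  refine j2b_rd h.intW P Q hc ?_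
  rw [h.a1, h.a2, h.a3]
  intro h1
  have ha4 : W.a₄ ∈ V := h.intW.a4
  have e1 : 2 * yc P + 1 * xc P + 0 = 2 * yc P + xc P := by ring
  rw [e1] at h1
  have m2 : (2 : k) ∈ V := by exact_mod_cast natCast_mem V 2
  have m3 : (3 : k) ∈ V := by exact_mod_cast natCast_mem V 3
  have r2 : rs V (2 : k) = 2 := by exact_mod_cast rs_nat (V := V) 2
  have r3 : rs V (3 : k) = 3 := by exact_mod_cast rs_nat (V := V) 3
  have h2y : 2 * yc P ∈ V := V.mul_mem _ _ m2 p2
  have h2 : rs V (2 * yc P + xc P) = 0 := (rs_eq_zero (V.add_mem _ _ h2y p1)).2 h1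
  have h3 := z_sq h p0 p1 p2
  rw [h2] at h3
  rw [rs_add h2y p1, rs_mul m2 p2, r2] at h2
  have h4 : 4 * rs V (xc P) + 1 = 0 := by
    have h5 : rs V (xc P) ^ 2 * (4 * rs V (xc P) + 1) = 0 := by linear_combination -h3
    rcases mul_eq_zero.1 h5 with h6 | h6
    · exact absurd (pow_eq_zero_iff two_ne_zero |>.1 h6) hX0
    · exact h6
  have mem : 3 * xc P ^ 2 ∈ V := V.mul_mem _ _ m3 (pow_mem p1 2)
  have e2 : 3 * xc P ^ 2 + 2 * 0 * xc P + W.a₄ - 1 * yc P = 3 * xc P ^ 2 + W.a₄ - yc P := by ring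
  rw [e2]
  refine (rs_ne_zero (V.sub_mem (V.add_mem _ _ mem ha4) p2)).1 ?_
  rw [rs_sub (V.add_mem _ _ mem ha4) p2, rs_add mem ha4, rs_mul m3 (pow_mem p1 2), rs_pow p1, r3,
    (rs_eq_zero ha4).2 h.a4, add_zero]
  intro h7
  have h8 : rs V (xc P) * (6 * rs V (xc P) + 1) = 0 := by linear_combination 2 * h7 + h2
  rcases mul_eq_zero.1 h8 with h9 | h9
  · exact hX0 h9
  · exact one_ne_zero (α := IsLocalRing.ResidueField V) (by linear_combination 3 * h4 - 2 * h9)

end H55K.JJ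
end

-- from Lib.H55K.J3A
section

open NumberField WeierstrassCurve

namespace H55K.JJ

open H35P (WAB Ker IntW)

variable {k : Type} [Field k] [DecidableEq k] [IsAlgClosed k] {W : WeierstrassCurve k} {V : ValuationSubring k}

/-! Chunk J3A (M). res_inf: suppose the residue field is finite with q elements. X^q - X - 1 (monic of degree q ≥ 2, coefficients in V) has a root a in k (IsAlgClosed), integral over V, so in V (IsIntegrallyClosed.isIntegral_iff, see k0_int in
Lib/H55K/K0A.lean); its residue b satisfies b^q - b = 1, but b^q = b (FiniteField.pow_card): contradiction. ex_fn: choose w0 in V with residue w (w <> 0, 1), x = w0/(w0 - 1)^2, a unit; y a root of Y^2 + x Y = x^3 + a4 x + a6 (IsAlgClosed: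
exists_pow_nat_eq after completing the square needs 2 <> 0; use IsAlgClosed.exists_root of the quadratic polynomial). P = (x, y) is on W, nonsingular since Δ <> 0 (Affine.equation_iff_nonsingular_of_Δ_ne_zero). Fn V P; u = ub V P satisfies xu u = rs x = xu w
(fn_ub), so u (w - 1)^2 = w (u - 1)^2, (u - w)(u w - 1) = 0: u = w or u = w^(-1); take P or -P (fn_neg). -/

open Polynomial in
theorem res_inf (V : ValuationSubring k) : Infinite (IsLocalRing.ResidueField V) := by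
  rw [← not_finite_iff_infinite]
  intro hfin
  classical
  let _ : Fintype (IsLocalRing.ResidueField V) := Fintype.ofFinite _
  set q := Fintype.card (IsLocalRing.ResidueField V) with hq
  have hq1 : 1 < q := Fintype.one_lt_card
  have hdeg : ∀ (R : Type) [CommRing R] [Nontrivial R], (X ^ q - (X + 1) : R[X]).Monic ∧
      (X ^ q - (X + 1) : R[X]).natDegree = q := by
    intro R _ _
    have h1 : (X + 1 : R[X]).degree < q := by
      have h2 : (X + 1 : R[X]).degree = 1 := by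
        have := degree_X_add_C (1 : R)
        rwa [map_one] at this
      rw [h2]
      exact_mod_cast hq1
    have h2 : (X ^ q - (X + 1) : R[X]).Monic := monic_X_pow_sub h1
    refine ⟨h2, ?_⟩
    apply natDegree_eq_of_degree_eq_some
    rw [degree_sub_eq_left_of_degree_lt]
    · exact degree_X_pow q
    · rw [degree_X_pow]
      exact h1
  obtain ⟨a, ha⟩ := IsAlgClosed.exists_root (X ^ q - (X + 1) : k[X]) (by
    intro h0
    rw [degree_eq_natDegree (hdeg k).1.ne_zero, (hdeg k).2] at h0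
    have h3 : q = 0 := by exact_mod_cast h0
    omega)
  have ha' : a ^ q - (a + 1) = 0 := by
    have h1 := ha
    rw [IsRoot.def] at h1
    simpa using h1
  have hint : IsIntegral V a := by
    refine ⟨X ^ q - (X + 1), (hdeg V).1, ?_⟩
    simp only [eval₂_sub, eval₂_add, eval₂_X_pow, eval₂_X, eval₂_one]
    exact ha'
  obtain ⟨y, hy⟩ := IsIntegrallyClosed.isIntegral_iff.1 hint
  have haV : a ∈ V := by
    rw [← hy]
    exact y.2
  have h1 : rs V (a ^ q - (a + 1)) = 0 := by rw [ha', rs_zero]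
  rw [rs_sub (pow_mem haV q) (V.add_mem _ _ haV V.one_mem), rs_add haV V.one_mem, rs_pow haV, rs_one,
    hq, FiniteField.pow_card] at h1
  have h2 : rs V a - (rs V a + 1) = -1 := by ring
  rw [h2] at h1
  exact absurd (neg_eq_zero.1 h1) one_ne_zero

open Polynomial in
theorem ex_fn (h : Nod W V) (hΔ : W.Δ ≠ 0) {w : IsLocalRing.ResidueField V} (h0 : w ≠ 0) (h1 : w ≠ 1) :
    ∃ P : W.toAffine.Point, Fn V P ∧ ub V P = w := by
  obtain ⟨w0, hw0⟩ := IsLocalRing.residue_surjective w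
  have hw1 : rs V (w0 : k) = w := by rw [rs_of w0.2, ← hw0]
  have hv0 : V.valuation (w0 : k) = 1 := by
    rw [← rs_ne_zero w0.2, hw1]
    exact h0
  have hw2 : (w0 : k) - 1 ∈ V := V.sub_mem w0.2 V.one_mem
  have hr1 : rs V ((w0 : k) - 1) = w - 1 := by rw [rs_sub w0.2 V.one_mem, hw1, rs_one]
  have hv1 : V.valuation ((w0 : k) - 1) = 1 := by
    rw [← rs_ne_zero hw2, hr1]
    exact sub_ne_zero.2 h1
  set x : k := (w0 : k) / ((w0 : k) - 1) ^ 2 with hx
  have hvx : V.valuation x = 1 := by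
    rw [hx, map_div₀, map_pow, hv0, hv1, one_pow, div_one]
  have hrx : rs V x = xu w := by
    rw [hx, rs_div w0.2 (by rw [map_pow, hv1, one_pow]), rs_pow hw2, hw1, hr1]
    rfl
  obtain ⟨y, hy⟩ := IsAlgClosed.exists_root
    (C 1 * X ^ 2 + C x * X + C (-(x ^ 3 + W.a₄ * x + W.a₆)) : k[X]) (by
      rw [degree_quadratic one_ne_zero]
      norm_num)
  have hy' : y ^ 2 + x * y = x ^ 3 + W.a₄ * x + W.a₆ := by
    rw [IsRoot.def] at hy
    simp only [eval_add, eval_mul, eval_C, eval_pow, eval_X] at hy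
    linear_combination hy
  have hE : W.toAffine.Equation x y := by
    rw [Affine.equation_iff, h.a1, h.a2, h.a3]
    linear_combination hy'
  have hN : W.toAffine.Nonsingular x y :=
    (Affine.equation_iff_nonsingular_of_Δ_ne_zero hΔ).1 hE
  set P : W.toAffine.Point := Affine.Point.some x y hN with hP
  have hF : Fn V P := hvx
  obtain ⟨-, hu0, hu1, hu2, -, -⟩ := fn_ub h hF
  have hu3 : xu w = xu (ub V P) := by
    rw [← hrx, ← hu2]
    rfl
  set u := ub V P with hu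
  have hw3 : w - 1 ≠ 0 := sub_ne_zero.2 h1
  have hu4 : u - 1 ≠ 0 := sub_ne_zero.2 hu1
  have hu5 : w * (u - 1) ^ 2 = u * (w - 1) ^ 2 := by
    unfold xu at hu3
    rw [div_eq_div_iff (pow_ne_zero 2 hw3) (pow_ne_zero 2 hu4)] at hu3
    exact hu3
  have hu6 : (u - w) * (u * w - 1) = 0 := by linear_combination hu5
  rcases mul_eq_zero.1 hu6 with h7 | h7
  · exact ⟨P, hF, sub_eq_zero.1 h7⟩
  · obtain ⟨h8, h9⟩ := fn_neg h hF
    refine ⟨-P, h8, ?_⟩
    rw [h9, ← hu]
    exact inv_eq_of_mul_eq_one_right (sub_eq_zero.1 h7)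

end H55K.JJ
end

-- from Lib.H55K.G2
section

/-! # H55K: t is additive modulo squares -/

open NumberField IsDedekindDomain WeierstrassCurve

namespace H55K

open H55P (IQ embF eF LF Per IsHecke Pt ac Inert Dec Nm)
open H35P (WAB Ker tt)

theorem g2_mon {Γ : Type*} [LinearOrderedCommGroupWithZero Γ] {a b c u w : Γ} (ha : a ≤ c) (hb : b ≤ c)
    (hu : u ≤ 1) (hw : w ≤ 1) : u * (a * b) * w ≤ c ^ 2 := by
  calc u * (a * b) * w ≤ 1 * (c * c) * 1 := mul_le_mul' (mul_le_mul' hu (mul_le_mul' ha hb)) hw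
    _ = c ^ 2 := by rw [one_mul, mul_one, sq]

theorem g2_ord {Γ : Type*} [LinearOrderedCommGroupWithZero Γ] {a b d c L M n : Γ} (ha : a ≤ c) (hb : b ≤ c)
    (hc : c ≤ 1) (hd : d ≤ 1) (hM : M * (a * b * d) = 1) (hL : L * a ≤ 1 ∨ L * b ≤ 1 ∨ L * d ≤ 1)
    (hn : n ≤ max (L ^ 2) (L * M)) : n * (a * b * d) ^ 3 ≤ c ^ 2 := by
  have ha1 : a ≤ 1 := ha.trans hc
  have hb1 : b ≤ 1 := hb.trans hc
  have p : ∀ {x : Γ} (m : ℕ), x ≤ 1 → x ^ m ≤ 1 := fun m hx => pow_le_one₀ zero_le hx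
  rcases le_max_iff.1 hn with h | h
  · refine (mul_le_mul_left h _).trans ?_
    rcases hL with h1 | h1 | h1
    · calc L ^ 2 * (a * b * d) ^ 3 = (L * a) ^ 2 * (a * b) * (b ^ 2 * d ^ 3) := by
            simp only [pow_succ, pow_zero, one_mul]; ac_rfl
        _ ≤ c ^ 2 := g2_mon ha hb (p 2 h1) (mul_le_one' (p 2 hb1) (p 3 hd))
    · calc L ^ 2 * (a * b * d) ^ 3 = (L * b) ^ 2 * (a * b) * (a ^ 2 * d ^ 3) := by
            simp only [pow_succ, pow_zero, one_mul]; ac_rfl
        _ ≤ c ^ 2 := g2_mon ha hb (p 2 h1) (mul_le_one' (p 2 ha1) (p 3 hd))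
    · calc L ^ 2 * (a * b * d) ^ 3 = (L * d) ^ 2 * (a * b) * (a ^ 2 * b ^ 2 * d) := by
            simp only [pow_succ, pow_zero, one_mul]; ac_rfl
        _ ≤ c ^ 2 := g2_mon ha hb (p 2 h1) (mul_le_one' (mul_le_one' (p 2 ha1) (p 2 hb1)) hd)
  · refine (mul_le_mul_left h _).trans ?_
    have e : L * M * (a * b * d) ^ 3 = L * (a * b * d) ^ 2 := by
      calc L * M * (a * b * d) ^ 3 = L * (a * b * d) ^ 2 * (M * (a * b * d)) := by
            simp only [pow_succ, pow_zero, one_mul]; ac_rfl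
        _ = L * (a * b * d) ^ 2 := by rw [hM, mul_one]
    rw [e]
    rcases hL with h1 | h1 | h1
    · calc L * (a * b * d) ^ 2 = (L * a) * (a * b) * (b * d ^ 2) := by
            simp only [pow_succ, pow_zero, one_mul]; ac_rfl
        _ ≤ c ^ 2 := g2_mon ha hb h1 (mul_le_one' hb1 (p 2 hd))
    · calc L * (a * b * d) ^ 2 = (L * b) * (a * b) * (a * d ^ 2) := by
            simp only [pow_succ, pow_zero, one_mul]; ac_rfl
        _ ≤ c ^ 2 := g2_mon ha hb h1 (mul_le_one' ha1 (p 2 hd))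
    · calc L * (a * b * d) ^ 2 = (L * d) * (a * b) * (a * b * d) := by
            simp only [pow_succ, pow_zero, one_mul]; ac_rfl
        _ ≤ c ^ 2 := g2_mon ha hb h1 (mul_le_one' (mul_le_one' ha1 hb1) hd)

theorem g2_val {k : Type*} [Field k] {Γ : Type*} [LinearOrderedCommGroupWithZero Γ] (v : Valuation k Γ)
    {x₁ x₂ x₃ y₁ y₂ y₃ l m a₄ a₆ : k} {c : Γ} (h1 : 1 < v x₁) (h2 : 1 < v x₂) (h3 : 1 < v x₃)
    (s1 : x₁ + x₂ + x₃ = l ^ 2) (s3 : x₁ * x₂ * x₃ = m ^ 2 - a₆) (h4 : v a₄ ≤ 1) (h6 : v a₆ ≤ 1)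
    (v1 : v y₁ ^ 2 = v x₁ ^ 3) (v2 : v y₂ ^ 2 = v x₂ ^ 3) (v3 : v y₃ ^ 2 = v x₃ ^ 3)
    (i3 : v (-3 : k) ≤ 1) (i2 : v (2 : k) ≤ 1)
    (hN : x₁ * y₂ * y₃ + x₂ * y₁ * y₃ + x₃ * y₁ * y₂ = -3 * a₆ * l ^ 2 + 2 * a₄ * l * m)
    (c1 : v (x₁ / y₁) ≤ c) (c2 : v (x₂ / y₂) ≤ c) (hc : c ≤ 1) :
    v (x₁ / y₁ + x₂ / y₂ + x₃ / y₃) ≤ c ^ 2 := by
  have key : ∀ x y : k, 1 < v x → v y ^ 2 = v x ^ 3 →
      v (x / y) ^ 2 * v x = 1 ∧ v (x / y) ^ 3 * v y = 1 ∧ y ≠ 0 := by
    intro x y hx hxy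
    have hx0 : v x ≠ 0 := (zero_lt_one.trans hx).ne'
    have hy0 : v y ≠ 0 := by
      intro h
      rw [h, zero_pow two_ne_zero] at hxy
      exact pow_ne_zero 3 hx0 hxy.symm
    refine ⟨?_, ?_, fun h => hy0 (by rw [h, map_zero])⟩
    · rw [map_div₀, div_pow, hxy, ← mul_div_right_comm, ← pow_succ, div_self (pow_ne_zero _ hx0)]
    · rw [map_div₀, div_pow, ← hxy, ← mul_div_right_comm, ← pow_succ, div_self (pow_ne_zero _ hy0)]
  obtain ⟨e1, f1, n1⟩ := key _ _ h1 v1
  obtain ⟨e2, f2, n2⟩ := key _ _ h2 v2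
  obtain ⟨e3, f3, n3⟩ := key _ _ h3 v3
  have hb : v m ^ 2 = v x₁ * v x₂ * v x₃ := by
    have e : m ^ 2 = x₁ * x₂ * x₃ + a₆ := by rw [s3]; ring
    have hlt : v a₆ < v (x₁ * x₂ * x₃) := by
      rw [map_mul, map_mul]
      exact h6.trans_lt (one_lt_mul'' (one_lt_mul'' h1 h2) h3)
    rw [← map_pow, e, Valuation.map_add_eq_of_lt_left v hlt, map_mul, map_mul]
  have hM : v m * (v (x₁ / y₁) * v (x₂ / y₂) * v (x₃ / y₃)) = 1 := by
    have h : (v m * (v (x₁ / y₁) * v (x₂ / y₂) * v (x₃ / y₃))) ^ 2 = 1 := by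
      calc (v m * (v (x₁ / y₁) * v (x₂ / y₂) * v (x₃ / y₃))) ^ 2
          = v m ^ 2 * (v (x₁ / y₁) ^ 2 * v (x₂ / y₂) ^ 2 * v (x₃ / y₃) ^ 2) := by
            simp only [mul_pow]
        _ = (v (x₁ / y₁) ^ 2 * v x₁) * (v (x₂ / y₂) ^ 2 * v x₂) * (v (x₃ / y₃) ^ 2 * v x₃) := by
            rw [hb]; ac_rfl
        _ = 1 := by rw [e1, e2, e3, one_mul, one_mul]
    exact (pow_eq_one_iff_of_nonneg zero_le two_ne_zero).1 h
  have le1 : ∀ x y : k, v l ^ 2 ≤ v x → v (x / y) ^ 2 * v x = 1 → v l * v (x / y) ≤ 1 := by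
    intro x y hl he
    refine (pow_le_one_iff_of_nonneg zero_le two_ne_zero).1 ?_
    calc (v l * v (x / y)) ^ 2 = v (x / y) ^ 2 * v l ^ 2 := by rw [mul_pow, mul_comm]
      _ ≤ v (x / y) ^ 2 * v x := mul_le_mul_right hl _
      _ = 1 := he
  have hL : v l * v (x₁ / y₁) ≤ 1 ∨ v l * v (x₂ / y₂) ≤ 1 ∨ v l * v (x₃ / y₃) ≤ 1 := by
    have h : v l ^ 2 ≤ max (max (v x₁) (v x₂)) (v x₃) := by
      rw [← map_pow, ← s1]
      exact (v.map_add _ _).trans (max_le_max (v.map_add _ _) le_rfl)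
    rcases le_max_iff.1 h with h | h
    · rcases le_max_iff.1 h with h | h
      · exact Or.inl (le1 _ _ h e1)
      · exact Or.inr (Or.inl (le1 _ _ h e2))
    · exact Or.inr (Or.inr (le1 _ _ h e3))
  have hd : v (x₃ / y₃) ≤ 1 := by
    refine (pow_le_one_iff_of_nonneg zero_le two_ne_zero).1 ?_
    rw [← e3]
    exact le_mul_of_one_le_right' h3.le
  have hn : v (-3 * a₆ * l ^ 2 + 2 * a₄ * l * m) ≤ max (v l ^ 2) (v l * v m) := by
    refine (v.map_add _ _).trans (max_le_max ?_ ?_)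
    · rw [map_mul, map_mul, map_pow]
      exact mul_le_of_le_one_left' (mul_le_one' i3 h6)
    · rw [map_mul, map_mul, map_mul, mul_assoc]
      exact mul_le_of_le_one_left' (mul_le_one' i2 h4)
  have hT : x₁ / y₁ + x₂ / y₂ + x₃ / y₃ = (-3 * a₆ * l ^ 2 + 2 * a₄ * l * m) / (y₁ * y₂ * y₃) := by
    rw [← hN]
    field_simp
  have hv : v (x₁ / y₁ + x₂ / y₂ + x₃ / y₃) =
      v (-3 * a₆ * l ^ 2 + 2 * a₄ * l * m) * (v (x₁ / y₁) * v (x₂ / y₂) * v (x₃ / y₃)) ^ 3 := by
    rw [hT, map_div₀, div_eq_mul_inv]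
    congr 1
    refine inv_eq_of_mul_eq_one_right ?_
    rw [map_mul, map_mul]
    calc v y₁ * v y₂ * v y₃ * (v (x₁ / y₁) * v (x₂ / y₂) * v (x₃ / y₃)) ^ 3 =
        (v (x₁ / y₁) ^ 3 * v y₁) * (v (x₂ / y₂) ^ 3 * v y₂) * (v (x₃ / y₃) ^ 3 * v y₃) := by
          rw [mul_pow, mul_pow]; ac_rfl
      _ = 1 := by rw [f1, f2, f3, one_mul, one_mul]
  rw [hv]
  exact g2_ord c1 c2 hc hd hM hL hn

section

variable {k : Type} [Field k] [DecidableEq k] {W : WeierstrassCurve k} [W.IsShortNF] {V : ValuationSubring k}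

open H35P in
theorem g2_gen (hI : IntW W V) (P Q : W.toAffine.Point) (hP : Ker V P) (hQ : Ker V Q) (c : V.ValueGroup)
    (h1 : c ≤ 1) (hPc : V.valuation (tt P) ≤ c) (hQc : V.valuation (tt Q) ≤ c) :
    V.valuation (tt (P + Q) - tt P - tt Q) ≤ c ^ 2 := by
  rcases P with _ | ⟨x₁, y₁, h₁⟩
  · have e : tt (W := W) (Affine.Point.zero + Q) - tt (W := W) Affine.Point.zero - tt Q = 0 := by
      change tt (0 + Q) - 0 - tt Q = 0
      rw [zero_add, sub_zero, sub_self]
    rw [e, map_zero]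
    exact zero_le
  rcases Q with _ | ⟨x₂, y₂, h₂⟩
  · have e : tt (W := W) (Affine.Point.some x₁ y₁ h₁ + Affine.Point.zero) -
        tt (W := W) (Affine.Point.some x₁ y₁ h₁) - tt (W := W) Affine.Point.zero = 0 := by
      change tt (Affine.Point.some x₁ y₁ h₁ + 0) - tt (W := W) (Affine.Point.some x₁ y₁ h₁) - 0 = 0
      rw [add_zero, sub_zero, sub_self]
    rw [e, map_zero]
    exact zero_le
  by_cases hxy : x₁ = x₂ ∧ y₁ = W.toAffine.negY x₂ y₂
  · have e0 : (Affine.Point.some x₁ y₁ h₁ : W.toAffine.Point) + Affine.Point.some x₂ y₂ h₂ = 0 :=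
      Affine.Point.add_of_Y_eq hxy.1 hxy.2
    have e1 : (Affine.Point.some x₁ y₁ h₁ : W.toAffine.Point) = -Affine.Point.some x₂ y₂ h₂ :=
      eq_neg_of_add_eq_zero_left e0
    have e3 : tt (0 : W.toAffine.Point) = 0 := rfl
    rw [e0, e1, e3, H55K.tt_neg, zero_sub, neg_neg, sub_self, map_zero]
    exact zero_le
  · obtain ⟨s1, s2, s3, p1, p2, p3, hN⟩ := vieta h₁.1 h₂.1 hxy _ _ _ rfl rfl rfl
    set l : k := W.toAffine.slope x₁ x₂ y₁ y₂ with hl
    set x₃ : k := W.toAffine.addX x₁ x₂ l with hx₃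
    set m : k := y₁ - l * x₁ with hm
    set y₃ : k := W.toAffine.negAddY x₁ x₂ y₁ l with hy₃
    have h₃ : W.toAffine.Nonsingular x₃ y₃ := Affine.nonsingular_negAdd h₁ h₂ hxy
    have hd : 1 < V.valuation x₃ := third_big hI.a1 hI.a2 hI.a3 hI.a4 hI.a6 s1 s2 s3 hP hQ
    have v1 := (val_y hI h₁.1 hP).1
    have v2 := (val_y hI h₂.1 hQ).1
    have v3 := (val_y hI h₃.1 hd).1
    have hsum : (Affine.Point.some x₁ y₁ h₁ : W.toAffine.Point) + Affine.Point.some x₂ y₂ h₂ =
        -Affine.Point.some x₃ y₃ h₃ := by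
      rw [Affine.Point.add_some hxy, Affine.Point.neg_some]
      rfl
    rw [hsum, H55K.tt_neg]
    have e : -tt (W := W) (Affine.Point.some x₃ y₃ h₃) - tt (W := W) (Affine.Point.some x₁ y₁ h₁) -
        tt (W := W) (Affine.Point.some x₂ y₂ h₂) = -(x₁ / y₁ + x₂ / y₂ + x₃ / y₃) := by
      change -(x₃ / y₃) - x₁ / y₁ - x₂ / y₂ = _
      ring
    rw [e, Valuation.map_neg]
    simp only [W.a₁_of_isShortNF, W.a₂_of_isShortNF, W.a₃_of_isShortNF] at s1 s3 hN
    rw [← p1, ← p2, ← p3] at hN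
    refine g2_val V.valuation hP hQ hd (l := l) (m := m) (a₄ := W.a₄) (a₆ := W.a₆) ?_ ?_
      ((V.valuation_le_one_iff _).2 hI.a4) ((V.valuation_le_one_iff _).2 hI.a6) v1 v2 v3 ?_ ?_ ?_ hPc hQc h1
    · linear_combination s1
    · linear_combination s3
    · exact V.valuation_le_one_iff _ |>.2 (by exact_mod_cast intCast_mem V (-3))
    · exact V.valuation_le_one_iff _ |>.2 (by exact_mod_cast natCast_mem V 2)
    · linear_combination hN

end

variable {F : Type} [Field F] [NumberField F] [IQ F] {A B : F} {Om : ℂ} {Ω : Type} [Field Ω] [DecidableEq Ω]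
  [Algebra F Ω] {j : Ω →+* ℂ} {act : 𝓞 F →+* AddMonoid.End (Pt (WAB A B) Ω)} {V : ValuationSubring Ω}

omit [NumberField F] [IQ F] in
/-- Chunk G2 (M). W = (WAB A B)⁄Ω has a₁ = a₂ = a₃ = 0, a₄, a₆ in V. If c is not < 1 everything is clear: all three values are < 1 (ttlt, kadd). P = 0, Q = 0 clear; P = -Q: tt_neg (E0), tt 0 = 0.
Otherwise P = some x₁ y₁, Q = some x₂ y₂, H35P.vieta (R2.lean; the hypothesis hxy as in H35P/R4.lean, tt_add) with l = slope, m = y₁ - l x₁, third point (x₃, y₃ = l x₃ + m), P + Q = some x₃ (-y₃)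
(Affine.Point.add_some, addY, negY with a₁ = a₃ = 0), so tt (P + Q) = - x₃/y₃. Put T_i = x_i/y_i. The last relation of vieta is: (T₁ + T₂ + T₃) y₁ y₂ y₃ = - 3 a₆ l^2 + 2 a₄ l m. All three points are in Ker (kadd; V x₃ > 1).
Values (tt_val): V(T_i)^2 V(x_i) = 1, V(T_i)^3 V(y_i) = 1. Write a, b, d for V(T₁), V(T₂), V(T₃) (< 1). s3: x₁ x₂ x₃ = m^2 - a₆ gives V(m)^2 (a b d)^2 = 1, so V(m) a b d = 1. s1: x₁ + x₂ + x₃ = l^2 gives
V(l)^2 ≤ max of the V(x_i), so V(l) ≤ 1/e with e = min a b d (one of a, b, d). So V(3 a₆ l^2/(y₁y₂y₃)) ≤ (a b d)^3/e^2 ≤ c^2 and V(2 a₄ l m/(y₁y₂y₃)) ≤ (a b d)^2/e ≤ c^2 (a, b ≤ c < 1, d < 1; in each of the three cases for e). -/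
theorem tt_add2 (hV : GV A B V) {P Q : Pt (WAB A B) Ω} (hP : Ker V P) (hQ : Ker V Q) (c : V.ValueGroup)
    (h1 : V.valuation (tt P) ≤ c) (h2 : V.valuation (tt Q) ≤ c) :
    V.valuation (tt (P + Q) - tt P - tt Q) ≤ c ^ 2 := by
  rcases le_total c 1 with hc | hc
  · exact g2_gen (gv_good hV).toIntW P Q hP hQ c hc h1 h2
  · have h : V.valuation (tt (P + Q) - tt P - tt Q) ≤ 1 :=
      Valuation.map_sub_le _ (Valuation.map_sub_le _ (ttlt hV (kadd hV hP hQ)).le (ttlt hV hP).le) (ttlt hV hQ).le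
    exact h.trans (one_le_pow₀ hc)

end H55K
end

-- from Lib.H55K.G4A
section

/-! # H55K: the action on the kernel of reduction -/

open NumberField IsDedekindDomain WeierstrassCurve

namespace H55K

open H55P (IQ embF eF LF Per IsHecke Pt ac Inert Dec Nm)
open H35P (WAB Ker tt)


variable {F : Type} [Field F] [NumberField F] [IQ F] {A B : F} {Om : ℂ} {Ω : Type} [Field Ω] [DecidableEq Ω]
  [Algebra F Ω] {j : Ω →+* ℂ} {act : 𝓞 F →+* AddMonoid.End (Pt (WAB A B) Ω)} {V : ValuationSubring Ω}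

/-- Chunk G4A (S/M). gen gives a bijection from O/b (b ≠ 0) to Tor act b: a ↦ act a T₀ depends only on a modulo b; Nat.card (O ⧸ span {b}) = Nm b
(Submodule.cardQuot / Ideal.absNorm_apply; Nm b = absNorm (span {b})). -/
theorem tor_card (h : CMA F A B Om j act) {b : 𝓞 F} (hb : b ≠ 0) : Nat.card (Tor act b) = Nm b := by
  obtain ⟨T₀, hT₀, h1, h2, -⟩ := h.gen b hb
  let f : 𝓞 F →+ Pt (WAB A B) Ω :=
    { toFun := fun a => act a T₀
      map_zero' := by rw [map_zero]; rfl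
      map_add' := fun a c => by rw [map_add]; rfl }
  have hf : ∀ a, f a = act a T₀ := fun a => rfl
  have hker : f.ker = (Ideal.span {b} : Ideal (𝓞 F)).toAddSubgroup := by
    ext a
    rw [AddMonoidHom.mem_ker, hf, h2]
    exact Ideal.mem_span_singleton.symm
  have hran : f.range = Tor act b := by
    ext T
    rw [AddMonoidHom.mem_range]
    constructor
    · rintro ⟨a, rfl⟩
      show act b (act a T₀) = 0
      have e : act b (act a T₀) = act a (act b T₀) := by
        have e1 : act (b * a) = act (a * b) := by rw [mul_comm]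
        rw [map_mul, map_mul] at e1
        exact congrArg (fun φ : AddMonoid.End (Pt (WAB A B) Ω) => φ T₀) e1
      have e2 : act b T₀ = 0 := hT₀
      rw [e, e2, map_zero]
    · intro hT
      obtain ⟨a, ha⟩ := h1 T hT
      exact ⟨a, ha.symm⟩
  have h3 := AddSubgroup.index_ker f
  rw [hker, hran] at h3
  rw [← h3]
  rfl

/-- Chunk G4A. The finite set of the nonzero elements of Tor act b. -/
theorem exists_TN (h : CMA F A B Om j act) {b : 𝓞 F} (hb : b ≠ 0) :
    ∃ S : Finset (Pt (WAB A B) Ω), TN act b S ∧ S.card = Nm b - 1 := by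
  classical
  have hc := tor_card h hb
  have hN : Nm b ≠ 0 := by
    intro h0
    have h1 : Ideal.absNorm (Ideal.span {b} : Ideal (𝓞 F)) = 0 := h0
    rw [Ideal.absNorm_eq_zero_iff, Ideal.span_singleton_eq_bot] at h1
    exact hb h1
  have hfin : Finite (Tor act b) := (Nat.card_ne_zero.1 (by rw [hc]; exact hN)).2
  have hfin2 : (Tor act b : Set (Pt (WAB A B) Ω)).Finite := hfin
  refine ⟨hfin2.toFinset.erase 0, fun T => ?_, ?_⟩
  · rw [Finset.mem_erase, Set.Finite.mem_toFinset, and_comm]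
    exact Iff.rfl
  · have h0 : (0 : Pt (WAB A B) Ω) ∈ hfin2.toFinset := by
      rw [Set.Finite.mem_toFinset]
      exact (Tor act b).zero_mem
    rw [Finset.card_erase_of_mem h0, ← Nat.card_eq_card_finite_toFinset, ← hc]
    rfl

/-- Chunk G4A. act (Nm b) = act (b * cj b) (mul_cj), act n = n • (map_natCast). -/
theorem tor_nm {b : 𝓞 F} {T : Pt (WAB A B) Ω} (hT : act b T = 0) : Nm b • T = 0 := by
  have h1 : act (Nm b : 𝓞 F) T = Nm b • T := by
    rw [map_natCast]
    rfl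
  have h2 : act (Nm b : 𝓞 F) T = act (cj b) (act b T) := by
    have e1 : (Nm b : 𝓞 F) = cj b * b := by rw [← mul_cj, mul_comm]
    rw [e1, map_mul]
    rfl
  rw [← h1, h2, hT, map_zero]

end H55K
end

-- from Lib.H55K.G5A
section

/-! # H55K: points killed by a prime element below V -/

open NumberField IsDedekindDomain WeierstrassCurve

namespace H55K

open H55P (IQ embF eF LF Per IsHecke Pt ac Inert Dec Nm)
open H35P (WAB Ker tt)


variable {F : Type} [Field F] [NumberField F] [IQ F] {A B : F} {Om : ℂ} {Ω : Type} [Field Ω] [DecidableEq Ω]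
  [Algebra F Ω] {j : Ω →+* ℂ} {act : 𝓞 F →+* AddMonoid.End (Pt (WAB A B) Ω)} {V : ValuationSubring Ω}

/-- Chunk G5A (S/M). There are many classes modulo Ker V. Let X₀ not in H. Suppose every X not in H satisfies Ker V (X - c) for some c in C. For h in H: X₀ + h is not in H, so X₀ + h, and every element of the group outside H, lies in finitely many classes modulo kerG;
so the quotient by kerG is finite: there are at most 2 |C| classes. But Tor act (2^k) has 4^k elements (tor_card, Nm_nat), pairwise different modulo kerG (ker_tors with n = 2^k, V(2) = 1). -/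
theorem inf_cls (h : CMA F A B Om j act) (hV : GV A B V) (H : AddSubgroup (Pt (WAB A B) Ω)) (hH : ∃ X, X ∉ H)
    (C : Finset (Pt (WAB A B) Ω)) : ∃ X, X ∉ H ∧ ∀ c ∈ C, ¬ Ker V (X - c) := by
  classical
  by_contra hcon
  push Not at hcon
  obtain ⟨X₀, hX₀⟩ := hH
  obtain ⟨C', hC'⟩ : ∃ C' : Finset (Pt (WAB A B) Ω), C' = C ∪ C.image (fun c => c - X₀) := ⟨_, rfl⟩
  have hall : ∀ P : Pt (WAB A B) Ω, ∃ c ∈ C', Ker V (P - c) := by
    intro P
    by_cases hP : P ∈ H
    · have h1 : X₀ + P ∉ H := fun h2 => hX₀ (by simpa using H.sub_mem h2 hP)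
      obtain ⟨c, hc, hk⟩ := hcon _ h1
      refine ⟨c - X₀, ?_, ?_⟩
      · rw [hC', Finset.mem_union, Finset.mem_image]
        exact Or.inr ⟨c, hc, rfl⟩
      · have e : P - (c - X₀) = X₀ + P - c := by abel
        rw [e]
        exact hk
    · obtain ⟨c, hc, hk⟩ := hcon P hP
      exact ⟨c, by rw [hC', Finset.mem_union]; exact Or.inl hc, hk⟩
  obtain ⟨k, hk⟩ : ∃ k : ℕ, C'.card < (2 ^ k) ^ 2 := by
    refine ⟨C'.card, (Nat.lt_two_pow_self).trans_le ?_⟩
    exact Nat.le_self_pow (by norm_num) _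
  obtain ⟨b, hb⟩ : ∃ b : 𝓞 F, b = ((2 ^ k : ℕ) : 𝓞 F) := ⟨_, rfl⟩
  have hb0 : b ≠ 0 := by
    rw [hb]
    exact_mod_cast (pow_ne_zero k (two_ne_zero))
  have hcard := tor_card h hb0
  rw [hb, Nm_nat] at hcard
  choose f hf hfk using hall
  have hinj : Function.Injective (fun T : Tor act ((2 ^ k : ℕ) : 𝓞 F) => (⟨f T, hf T⟩ : C')) := by
    intro T T' hTT
    have h1 : f (T : Pt (WAB A B) Ω) = f (T' : Pt (WAB A B) Ω) := congrArg Subtype.val hTT
    have h2 := hfk (T : Pt (WAB A B) Ω)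
    have h3 := hfk (T' : Pt (WAB A B) Ω)
    rw [← h1] at h3
    have h4 := ksub hV h2 h3
    have e : (T : Pt (WAB A B) Ω) - f T - ((T' : Pt (WAB A B) Ω) - f T) = (T : Pt (WAB A B) Ω) - T' := by abel
    rw [e] at h4
    have h5 : (2 ^ k : ℕ) • ((T : Pt (WAB A B) Ω) - T') = 0 := by
      have h6 : (T : Pt (WAB A B) Ω) - T' ∈ Tor act ((2 ^ k : ℕ) : 𝓞 F) := AddSubgroup.sub_mem _ T.2 T'.2
      have h7 : act ((2 ^ k : ℕ) : 𝓞 F) ((T : Pt (WAB A B) Ω) - T') = 0 := h6
      rw [map_natCast act] at h7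
      exact h7
    have h6 : V.valuation (((2 ^ k : ℕ) : ℕ) : Ω) = 1 := by
      rw [Nat.cast_pow, map_pow]
      have : V.valuation ((2 : ℕ) : Ω) = 1 := by exact_mod_cast hV.two
      rw [this, one_pow]
    have h7 := ker_tors hV (2 ^ k) h6 h5 h4
    exact Subtype.ext (sub_eq_zero.1 h7)
  have hle := Nat.card_le_card_of_injective _ hinj
  rw [hcard, Nat.card_eq_fintype_card, Fintype.card_coe] at hle
  omega

end H55K
end
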