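import Mathlib
import Pool.Agent.Lib.H1M.PP2.D_H28R_Defs
import Pool.Agent.Lib.H1M.PP2.D_H28T_Defs
import Pool.Agent.Lib.H1M.PP2.D_H55K_D2
import Pool.Agent.Lib.H1M.PP2.D_H55K_QD
import Pool.Agent.Lib.H1M.PP2.D_H55P_SD
import Pool.Agent.Lib.H1M.PP2.D_H55P_Sel
import Pool.Agent.Lib.H1M.PP2.D_H55P_Stm
import Pool.Agent.Lib.H1M.PP2.M007
import Pool.Agent.Lib.H1M.PP2.M010
import Pool.Agent.Lib.H1M.PP2.M019
import Pool.Agent.Lib.H1M.PP2.M020
import Pool.Agent.Lib.H1M.PP2.M022
import Pool.Agent.Lib.H1M.PP2.M031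
import Pool.Agent.Lib.H1M.PP2.M038
import Pool.Agent.Lib.H1M.PP2.M041
import Pool.Agent.Lib.H1M.PP2.M046
import Pool.Agent.Lib.H1M.PP2.M048
import Pool.Agent.Lib.H1M.PP2.M049
import Pool.Agent.Lib.H1M.PP2.M051
import Pool.Agent.Lib.H1M.PP2.M052
import Pool.Agent.Lib.H1M.PP2.M054
import Pool.Agent.Lib.H1M.PP2.M062
import Pool.Agent.Lib.H1M.PP2.M063
import Pool.Agent.Lib.H1M.PP2.M073
import Pool.Agent.Lib.H1M.PP2.M074

/-! Merged copies (to shorten the build) of Lib.H13D.D, Lib.H13D.A1, Lib.H28I.D, Lib.H28I.LA0, Lib.H13Z.LDefs, Lib.H28T.Defs_T, Lib.H55K.K6B, Lib.H55K.XD, Lib.H55K.G6, Lib.H55K.G10B, Lib.H55K.G8B, Lib.H55K.QH4A, Lib.H55K.RG, Lib.H55K.QA2, Lib.H55K.QF1B, Lib.H55K.QB1B, Lib.H55K.QP1A, Lib.H55K.QP1B. -/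

-- from Lib.H13D.D
section

/-! # H13D: the Hecke character of an elliptic curve over the rational numbers with complex multiplication (Deuring): definitions -/

open NumberField IsDedekindDomain WeierstrassCurve

namespace H13D

open H55P (IQ embF eF LF Per IsHecke Pt ac Inert Dec Nm)
open H35P (WAB Ker tt GoodW IntW)
open H55K

section

variable {F : Type} [Field F] {Ω : Type} [Field Ω] [DecidableEq Ω] [Algebra F Ω]

/-- The normalised x-coordinate: x = u^2 xn + r. -/
noncomputable def xn {W : WeierstrassCurve F} (u r : Ω) (P : Pt W Ω) : Ω := (xc P - r) / u ^ 2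

/-- The points of y^2 = x^3 + A x + B over Ω have good reduction at V: Kg is the kernel of reduction, xn the x-coordinate of a good equation. -/
structure RM (A B : F) (V : ValuationSubring Ω) (Kg : AddSubgroup (Pt (WAB A B) Ω)) (u r : Ω) : Prop where
  une : u ≠ 0
  tors : ∀ n : ℕ, V.valuation (n : Ω) = 1 → ∀ T ∈ Kg, n • T = 0 → T = 0
  int : ∀ P, P ∉ Kg → V.valuation (xn u r P) ≤ 1
  big : ∀ P ∈ Kg, P ≠ 0 → 1 < V.valuation (xn u r P)
  diff : ∀ P Q, P ∉ Kg → Q ∉ Kg → P - Q ∉ Kg → P + Q ∉ Kg → V.valuation (xn u r P - xn u r Q) = 1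
  conv : ∀ P Q, P ∉ Kg → Q - P ∈ Kg → V.valuation (xn u r Q - xn u r P) < 1

/-- S is the set of the nonzero points killed by b in the kernel of reduction. -/
def KN {W : WeierstrassCurve F} (act : 𝓞 F →+* AddMonoid.End (Pt W Ω)) (b : 𝓞 F) (Kg : AddSubgroup (Pt W Ω)) (S : Finset (Pt W Ω)) :
    Prop := ∀ T, T ∈ S ↔ act b T = 0 ∧ T ≠ 0 ∧ T ∈ Kg

end

end H13D
end

-- from Lib.H13D.A1
section

/-! # H13D, part A: good reduction (generic) -/

open NumberField IsDedekindDomain WeierstrassCurve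

namespace H13D

open H55P (IQ embF eF LF Per IsHecke Pt ac Inert Dec Nm)
open H35P (WAB Ker tt GoodW IntW)
open H55K

variable {F : Type} [Field F] [NumberField F] [IQ F] {A B : F} {Om : ℂ} {Ω : Type} [Field Ω] [DecidableEq Ω]
  [Algebra F Ω] {j : Ω →+* ℂ} {act : 𝓞 F →+* AddMonoid.End (Pt (WAB A B) Ω)} {V : ValuationSubring Ω}
  {Kg : AddSubgroup (Pt (WAB A B) Ω)} {u r : Ω}

/-- Chunk A1 (S). Definition of xn. -/
theorem xn_sub (hu : u ≠ 0) (P Q : Pt (WAB A B) Ω) : xc P - xc Q = u ^ 2 * (xn u r P - xn u r Q) := by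
  unfold xn
  field_simp
  ring

/-- Chunk A1 (S). h.e2 with xn_sub everywhere; divide by (u^2)^(S.card + 1) (Finset.prod_mul_distrib, Finset.prod_const). -/
theorem e2n (h : CMA F A B Om j act) (hu : u ≠ 0) {b : 𝓞 F} {S : Finset (Pt (WAB A B) Ω)} (hb : b ≠ 0) (hS : TN act b S)
    {X Y : Pt (WAB A B) Ω} (hX : act b X ≠ 0) (hY : act b Y ≠ 0) :
    ak Ω b ^ 2 * (xn u r (act b X) - xn u r (act b Y)) * ∏ R ∈ S, (xn u r R - xn u r Y) =
      (xn u r X - xn u r Y) * ∏ R ∈ S, (xn u r (X + R) - xn u r Y) := by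
  have h1 := h.e2 b S hb hS X Y hX hY
  simp only [xn_sub (u := u) (r := r) hu, Finset.prod_mul_distrib, Finset.prod_const] at h1
  have hu2 : u ^ 2 * (u ^ 2) ^ S.card ≠ 0 := mul_ne_zero (pow_ne_zero _ hu) (pow_ne_zero _ (pow_ne_zero _ hu))
  apply mul_left_cancel₀ hu2
  linear_combination h1

/-- Chunk A1 (S). hR.int, hR.big. -/
theorem mem_iff (hR : RM A B V Kg u r) {P : Pt (WAB A B) Ω} (h0 : P ≠ 0) : P ∈ Kg ↔ 1 < V.valuation (xn u r P) := by
  constructor
  · intro hP
    exact hR.big P hP h0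
  · intro h1
    by_contra hP
    exact absurd (hR.int P hP) (not_le.2 h1)

/-- Chunk A1 (S). hR.diff: otherwise the value would be 1. -/
theorem cls_of (hR : RM A B V Kg u r) {P Q : Pt (WAB A B) Ω} (hP : P ∉ Kg) (hQ : Q ∉ Kg)
    (h : V.valuation (xn u r P - xn u r Q) < 1) : P - Q ∈ Kg ∨ P + Q ∈ Kg := by
  by_contra hcon
  push Not at hcon
  have h1 := hR.diff P Q hP hQ hcon.1 hcon.2
  rw [h1] at h
  exact lt_irrefl _ h

end H13D
end

-- from Lib.H28I.D
section

/-! # H28I: explicit 2- and 3-isogenies: definitions -/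

open NumberField IsDedekindDomain WeierstrassCurve

namespace H28I

open H55P (IQ embF eF LF Per IsHecke Pt ac Inert Dec Nm)
open H35P (WAB Ker tt GoodW IntW)
open H55K (xc yc)

/-- The parameters of an isogeny (Velu) of degree 2 or 3 from y^2 = x^3 + A x + B to y^2 = x^3 + A' x + B'; e is the x-coordinate of the nonzero
points of the kernel. -/
structure VI {k : Type} [Field k] (A B A' B' e t u : k) : Prop where
  disc : 4 * A ^ 3 + 27 * B ^ 2 ≠ 0
  disc' : 4 * A' ^ 3 + 27 * B' ^ 2 ≠ 0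
  hA : A' = A - 5 * t
  hB : B' = B - 7 * (u + e * t)
  cs : (u = 0 ∧ e ^ 3 + A * e + B = 0 ∧ t = 3 * e ^ 2 + A) ∨
    (t = 2 * (3 * e ^ 2 + A) ∧ u = 4 * (e ^ 3 + A * e + B) ∧ 3 * e ^ 4 + 6 * A * e ^ 2 + 12 * B * e - A ^ 2 = 0)

/-- The x-coordinate of the image. -/
def vx {k : Type} [Field k] (e t u x : k) : k := x + t / (x - e) + u / (x - e) ^ 2

/-- Its derivative: the y-coordinate of the image is this factor times y. -/
def vd {k : Type} [Field k] (e t u x : k) : k := 1 - t / (x - e) ^ 2 - 2 * u / (x - e) ^ 3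

/-- Φ is the isogeny. -/
structure IsV {k : Type} [Field k] (A B A' B' e t u : k) (Φ : (WAB A B).toAffine.Point → (WAB A' B').toAffine.Point) : Prop where
  zero : Φ 0 = 0
  ker : ∀ P, P ≠ 0 → xc P = e → Φ P = 0
  ne : ∀ P, P ≠ 0 → xc P ≠ e → Φ P ≠ 0
  x : ∀ P, P ≠ 0 → xc P ≠ e → xc (Φ P) = vx e t u (xc P)
  y : ∀ P, P ≠ 0 → xc P ≠ e → yc (Φ P) = vd e t u (xc P) * yc P

/-- The isogeny on the points over Ω, for curves over K, followed by the scaling (A'', B'') with A' = lam^4 A'', B' = lam^6 B''. -/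
structure IsW {K : Type} [Field K] {Ω : Type} [Field Ω] [DecidableEq Ω] [Algebra K Ω] (A B A'' B'' e t u lam : K)
    (Φ : Pt (WAB A B) Ω →+ Pt (WAB A'' B'') Ω) : Prop where
  ker : ∀ P, P ≠ 0 → xc P = algebraMap K Ω e → Φ P = 0
  ne : ∀ P, P ≠ 0 → xc P ≠ algebraMap K Ω e → Φ P ≠ 0
  x : ∀ P, P ≠ 0 → xc P ≠ algebraMap K Ω e →
    algebraMap K Ω lam ^ 2 * xc (Φ P) = vx (algebraMap K Ω e) (algebraMap K Ω t) (algebraMap K Ω u) (xc P)
  surj : Function.Surjective Φ
  six : ∀ P, Φ P = 0 → (6 : ℕ) • P = 0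
  gal : ∀ (s : Ω ≃ₐ[K] Ω) (P : Pt (WAB A B) Ω), Φ (ac (WAB A B) s P) = ac (WAB A'' B'') s (Φ P)

/-- The short equation of W over a field of characteristic 0. -/
def sA (W : WeierstrassCurve ℤ) (k : Type) [Field k] : k := -(W.c₄ : k) / 48

def sB (W : WeierstrassCurve ℤ) (k : Type) [Field k] : k := -(W.c₆ : k) / 864

/-- The equations W, W' over the integers are related by an explicit isogeny over the rational numbers; kap is a quotient of
discriminants, whose prime divisors are 2 or 3 and divide the discriminant of W. If the degree of the isogeny (2 or 3) is prime to the discriminant then it is 2 and the equation is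
ordinary at 2 with t integral at 2. -/
structure IP (W W' : WeierstrassCurve ℤ) (kap : ℤ) (e t u lam : ℚ) : Prop where
  lam0 : lam ≠ 0
  vi : VI (sA W ℚ) (sB W ℚ) (lam ^ 4 * sA W' ℚ) (lam ^ 6 * sB W' ℚ) e t u
  quo : lam ^ 12 * (W'.Δ : ℚ) = (kap : ℚ) * (W.Δ : ℚ)
  kd : ∃ n : ℕ, kap ∣ W.Δ ^ n
  k6 : ∃ n : ℕ, kap ∣ 6 ^ n
  two : u = 0 → (2 : ℤ) ∣ W.Δ ∨ (¬ (2 : ℤ) ∣ W.b₂ ∧ ∃ a b : ℤ, ¬ (2 : ℤ) ∣ b ∧ t = a / b)
  three : u ≠ 0 → (3 : ℤ) ∣ W.Δ

/-- An isogeny between the points over Ω, with a map back; the degree divides a power of 6. -/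
def Iso6 {K : Type} [Field K] (W₁ W₂ : WeierstrassCurve K) (Ω : Type) [Field Ω] [DecidableEq Ω] [Algebra K Ω] : Prop :=
  ∃ (Φ : Pt W₁ Ω →+ Pt W₂ Ω) (Ψ : Pt W₂ Ω →+ Pt W₁ Ω), (∀ P, Ψ (Φ P) = (6 : ℕ) • P) ∧ (∀ P, Φ (Ψ P) = (6 : ℕ) • P) ∧
    (∀ (s : Ω ≃ₐ[K] Ω) P, Φ (ac W₁ s P) = ac W₂ s (Φ P)) ∧ ∀ (s : Ω ≃ₐ[K] Ω) P, Ψ (ac W₂ s P) = ac W₁ s (Ψ P)

end H28I
end

-- from Lib.H28I.LA0
section

/-! # H28I, part LA: sublattices and overlattices: definitions -/

open NumberField IsDedekindDomain WeierstrassCurve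

namespace H28I

open H55P (IQ embF eF LF Per IsHecke Pt ac Inert Dec Nm)
open H35P (WAB Ker tt GoodW IntW)
open H55K (xc yc)

/-- S represents the nonzero classes of the lattice of L' modulo the lattice of L. -/
structure RepL (L L' : PeriodPair) (S : Finset ℂ) : Prop where
  le : ∀ z ∈ L.lattice, z ∈ L'.lattice
  mem : ∀ r ∈ S, r ∈ L'.lattice
  out : ∀ r ∈ S, r ∉ L.lattice
  inj : ∀ r ∈ S, ∀ r' ∈ S, r - r' ∈ L.lattice → r = r'
  ex : ∀ z ∈ L'.lattice, z ∈ L.lattice ∨ ∃ r ∈ S, z - r ∈ L.lattice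

/-- The conclusion of part LA: the lattice of the isogenous curve. -/
structure IsoL (L L' : PeriodPair) (A' B' e t u : ℂ) : Prop where
  g2 : L'.g₂ = -4 * A'
  g3 : L'.g₃ = -4 * B'
  le : ∀ z ∈ L.lattice, z ∈ L'.lattice
  six : ∀ z ∈ L'.lattice, 6 * z ∈ L.lattice
  pole : ∀ z ∈ L'.lattice, z ∈ L.lattice ∨ L.weierstrassP z = e
  out : ∀ z, z ∉ L'.lattice → L.weierstrassP z ≠ e
  x : ∀ z, z ∉ L'.lattice → L'.weierstrassP z = vx e t u (L.weierstrassP z)
  y : ∀ z, z ∉ L'.lattice → L'.derivWeierstrassP z = vd e t u (L.weierstrassP z) * L.derivWeierstrassP z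

end H28I
end

-- from Lib.H13Z.LDefs
section

/-!
# H13Z: definitions for the local theory

V is a valuation ring of Ω. DT = the elements of the decomposition group which fix the points killed by pi,
Hx = the elements of Ω fixed by DT (the henselization of F(E[pi]) at V). See PROOF.md.
-/

open NumberField IsDedekindDomain

namespace H13Z

open H55P H28G H55B H13S

variable {Ω : Type} [Field Ω] [DecidableEq Ω] [Algebra F Ω]

/-- s lies in the decomposition group of V and fixes the points killed by pi. -/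
def DT (π : O) (V : ValuationSubring Ω) (s : Ω ≃ₐ[F] Ω) : Prop :=
  Dec V s ∧ ∀ T ∈ Tor π Ω, ac W27 s T = T

/-- x is fixed by these automorphisms. -/
def Hx (π : O) (V : ValuationSubring Ω) (x : Ω) : Prop := ∀ s, DT π V s → s x = x

/-- s lies in the inertia group of V and fixes the points killed by pi and by its conjugate. -/
def JV (π : O) (V : ValuationSubring Ω) (s : Ω ≃ₐ[F] Ω) : Prop :=
  Inert V s ∧ (∀ T ∈ Tor π Ω, ac W27 s T = T) ∧ ∀ T ∈ Tor (cj π) Ω, ac W27 s T = T

/-- c is a cocycle on the decomposition group of V with values in the points killed by the conjugate of pi. -/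
structure Dc (π : O) (V : ValuationSubring Ω) (c : (Ω ≃ₐ[F] Ω) → P27 Ω) : Prop where
  mul : ∀ s, Dec V s → ∀ t, Dec V t → c (s * t) = c s + ac W27 s (c t)
  val : ∀ s, Dec V s → c s ∈ Tor (cj π) Ω

/-- The y T are Kummer generators for c over the henselization. -/
structure KS (π : O) (V : ValuationSubring Ω) (e : P27 Ω → P27 Ω → Ω) (c : (Ω ≃ₐ[F] Ω) → P27 Ω)
    (y : P27 Ω → Ω) : Prop where
  ne : ∀ T ∈ Tor π Ω, y T ≠ 0
  act : ∀ T ∈ Tor π Ω, ∀ s, DT π V s → s (y T) = e (c s) T * y T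

/-- An additive and equivariant system of elements of the henselization modulo l-th powers. -/
structure Sys (π : O) (l : ℕ) (V : ValuationSubring Ω) (m : P27 Ω → Ω) : Prop where
  ne : ∀ T ∈ Tor π Ω, m T ≠ 0
  fx : ∀ T ∈ Tor π Ω, Hx π V (m T)
  add : ∀ T ∈ Tor π Ω, ∀ T' ∈ Tor π Ω, ∃ z, Hx π V z ∧ z ≠ 0 ∧ m (T + T') = m T * m T' * z ^ l
  act : ∀ s, Dec V s → ∀ T ∈ Tor π Ω, ∃ z, Hx π V z ∧ z ≠ 0 ∧ m (ac W27 s T) = s (m T) * z ^ l

/-- The level: m is an l-th power times an element which differs from 1 by at most r. -/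
def Lv (π : O) (l : ℕ) (V : ValuationSubring Ω) (r : V.ValueGroup) (m : Ω) : Prop :=
  ∃ z, Hx π V z ∧ z ≠ 0 ∧ V.valuation (m / z ^ l - 1) ≤ r

/-- The coefficient a of m at the level i: m = z^l (1 + a t^i + smaller terms). -/
def Co (π : O) (l : ℕ) (V : ValuationSubring Ω) (t : Ω) (i : ℕ) (m : Ω) (a : O) : Prop :=
  ∃ z, Hx π V z ∧ z ≠ 0 ∧ V.valuation (m / z ^ l - 1 - algebraMap F Ω (a : F) * t ^ i) ≤
    V.valuation t ^ (i + 1)

/-- The ramified case: V lies above pi, t is the parameter of a point killed by pi, q = Nm pi, e0 (l - 1) = q - 1. -/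
structure RV (π : O) (l : ℕ) (V : ValuationSubring Ω) (t : Ω) (e0 : ℕ) : Prop where
  D : Dat π l
  above : vo V π < 1
  pt : ∃ T ∈ Tor π Ω, T ≠ 0 ∧ t = tt T
  e0 : e0 * (l - 1) = H55B.Nm π - 1


end H13Z
end

-- from Lib.H28T.Defs_T
section

/-!
# H28T: realisation of p-groups over an arbitrary number field F, with ramification in a given set G of primes (definitions)

See PROOF.md.
-/

open NumberField IsDedekindDomain

namespace H28T

open H28R
open H55P H55R

variable {F : Type} [Field F] [NumberField F]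



/-- C = K(ζ), ζ a primitive p-th root of unity, K/F Galois of p-power degree: the group of C/F is the direct product of
FixZ F ζ (isomorphic to the group of K/F) and the group of C/K. -/
structure Cyc (F : Type) [Field F] [NumberField F] (p : ℕ) (K C : Type) [Field K] [NumberField K] [Field C] [NumberField C]
    [Algebra F K] [Algebra F C] [Algebra K C] [IsScalarTower F K C] (ζ : C) : Prop where
  galK : IsGalois F K
  gal : IsGalois F C
  prim : IsPrimitiveRoot ζ p
  gen : ∀ σ : C ≃ₐ[K] C, σ ζ = ζ → σ = 1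
  deg : Module.finrank K C ∣ p - 1
  pow : ∃ k : ℕ, Module.finrank F K = p ^ k
  iso : ∃ e : FixZ F ζ ≃* (K ≃ₐ[F] K), ∀ (σ : FixZ F ζ) (x : K),
    (σ : C ≃ₐ[F] C) (algebraMap K C x) = algebraMap K C (e σ x)
  comm : ∀ (σ : FixZ F ζ) (δ : C ≃ₐ[K] C) (x : C),
    (σ : C ≃ₐ[F] C) (δ x) = δ ((σ : C ≃ₐ[F] C) x)
  dec : ∀ s : C ≃ₐ[F] C, ∃ (σ : FixZ F ζ) (δ : C ≃ₐ[K] C), ∀ x : C, s x = (σ : C ≃ₐ[F] C) (δ x)

/-- The prime w of C has degree one over F, is unramified over F, lies over a prime in G, and has norm greater than B. -/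
structure Nice (G : HeightOneSpectrum (𝓞 F) → Prop) (p : ℕ) (C : Type) [Field C] [NumberField C] [Algebra F C] (B : ℕ) (w : Pl C) :
    Prop where
  deg : w.asIdeal.inertiaDeg (𝓞 F) = 1
  unr : w.asIdeal.ramificationIdx (𝓞 F) = 1
  good : ∀ v : HeightOneSpectrum (𝓞 F), v.asIdeal = w.asIdeal.under (𝓞 F) → G v
  big : B < Ideal.absNorm w.asIdeal

/-- α is congruent to 1 modulo p^2, and its order is divisible by p except at w and w', two nice primes over different primes of
F, where it is 1 and -1 modulo p. -/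
structure Alp (G : HeightOneSpectrum (𝓞 F) → Prop) (p : ℕ) (C : Type) [Field C] [NumberField C] [Algebra F C] (B : ℕ) (α : Cˣ)
    (w w' : Pl C) : Prop where
  pp : ∃ a : 𝓞 C, (a : C) = α ∧ (p : 𝓞 C) ^ 2 ∣ a - 1
  at1 : (p : ℤ) ∣ ord w α - 1
  at2 : (p : ℤ) ∣ ord w' α + 1
  oth : ∀ P : Pl C, P ≠ w → P ≠ w' → (p : ℤ) ∣ ord P α
  ne : w.asIdeal.under (𝓞 F) ≠ w'.asIdeal.under (𝓞 F)
  nice : Nice G p C B w
  nice' : Nice G p C B w'

/-- γ is as α, with the conjugates of w, w' over K, and is an eigenvector for the group of C/K modulo p-th powers. -/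
structure Gam (G : HeightOneSpectrum (𝓞 F) → Prop) (p : ℕ) (K C : Type) [Field K] [NumberField K] [Field C] [NumberField C]
    [Algebra F K] [Algebra F C] [Algebra K C] [IsScalarTower F K C] (ζ : C) (B : ℕ) (γ : Cˣ)
    (w w' : Pl C) : Prop where
  pp : ∃ a : 𝓞 C, (a : C) = γ ∧ (p : 𝓞 C) ^ 2 ∣ a - 1
  at1 : ¬ (p : ℤ) ∣ ord w γ
  oth : ∀ P : Pl C, (∀ δ : C ≃ₐ[K] C, P ≠ smulP δ w ∧ P ≠ smulP δ w') → (p : ℤ) ∣ ord P γ
  eig : ∀ (δ : C ≃ₐ[K] C) (n : ℕ), δ ζ = ζ ^ n → ∃ z : Cˣ, δ (γ : C) = (γ : C) ^ n * (z : C) ^ p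
  ne : w.asIdeal.under (𝓞 F) ≠ w'.asIdeal.under (𝓞 F)
  nice : Nice G p C B w
  nice' : Nice G p C B w'

/-- There are infinitely many nice primes in all the fields K(ζ), K in the class. -/
def NiceH (G : HeightOneSpectrum (𝓞 F) → Prop) (p : ℕ) : Prop :=
  ∀ (K C : Type) [Field K] [NumberField K] [Field C] [NumberField C] [Algebra F K] [Algebra F C] [Algebra K C]
    [IsScalarTower F K C] (ζ : C), ExtG G p K → Cyc F p K C ζ → ∀ (B : ℕ) (S : Set (Pl C)), S.Finite →
      ∃ w : Pl C, w ∉ S ∧ Nice G p C B w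

end H28T
end

-- from Lib.H55K.K6B
section

open NumberField IsDedekindDomain WeierstrassCurve

namespace H55K

open H55P (IQ embF eF LF Per IsHecke Pt ac Inert Dec Nm)
open H35P (WAB Ker tt)
open H55R (Pl ord es fs smulP)

/-! Chunk K6B (M, port of H28G/K8.lean, aux_prime). v = Q.under (𝓞 F), β = ψ v.asIdeal: v.asIdeal = span {β} (IsHecke.gen with hv: v coprime to m), β prime (v.isPrime, v.ne_bot: Ideal.span_singleton_prime). The rest as in H28G/K8.lean: absNorm Q = absNorm(v)^fs (H55R.D5_norm) is prime so fs = 1 and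
absNorm v = absNorm Q = Nm β; membership: v is maximal, smulP_trans, under_smulP; valuation: ord_map, K8_ord (copy it for variable F), BF1_val. -/

variable {F : Type} [Field F] [NumberField F] [IQ F]

omit [IQ F] in
theorem k6b_ord (v : Pl F) {β : 𝓞 F} (hβ : Prime β) (hv : v.asIdeal = Ideal.span {β}) (x : Fˣ)
    (hx : (x : F) = (β : F)) : ord v x = 1 := by
  have h1 : ((1 : ℕ) : ℤ) ≤ ord v x := by
    rw [H55R.ord_int v β x hx, pow_one, hv]
    exact Ideal.mem_span_singleton_self _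
  have h2 : ¬ ((2 : ℕ) : ℤ) ≤ ord v x := by
    rw [H55R.ord_int v β x hx, hv, Ideal.span_singleton_pow, Ideal.mem_span_singleton]
    intro h
    obtain ⟨c, hc⟩ := h
    apply hβ.not_unit
    have h3 : β * 1 = β * (β * c) := by
      rw [mul_one]
      nth_rw 1 [hc]
      ring
    have h4 := mul_left_cancel₀ hβ.ne_zero h3
    exact IsUnit.of_mul_eq_one c h4.symm
  push_cast at h1 h2
  omega

theorem aux_prime {L : Type} [Field L] [NumberField L] [Algebra F L] [IsGalois F L] {m : Ideal (𝓞 F)}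
    {ψ : Ideal (𝓞 F) →*₀ 𝓞 F} (hψ : IsHecke m ψ) (Q : Pl L) (hv : IsCoprime (Q.under (𝓞 F)).asIdeal m)
    (hQ : (Ideal.absNorm Q.asIdeal).Prime) (he : es F L (Q.under (𝓞 F)) = 1) (β : 𝓞 F)
    (hβ : β = ψ (Q.under (𝓞 F)).asIdeal) :
    Prime β ∧ (Q.under (𝓞 F)).asIdeal = Ideal.span {β} ∧ Nm β = Ideal.absNorm Q.asIdeal ∧
      Ideal.absNorm (Q.under (𝓞 F)).asIdeal = Ideal.absNorm Q.asIdeal ∧
      (∀ v : Pl L, algebraMap (𝓞 F) (𝓞 L) β ∈ v.asIdeal ↔ ∃ σ : Gal(L/F), v = smulP σ Q) ∧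
      ∀ σ : Gal(L/F), (smulP σ Q).valuation L (algebraMap F L (β : F)) = WithZero.exp (-1 : ℤ) := by
  obtain ⟨v, hvd⟩ : ∃ v : Pl F, v = Q.under (𝓞 F) := ⟨_, rfl⟩
  rw [← hvd] at he hv hβ
  have hspan : v.asIdeal = Ideal.span {β} := by
    rw [hβ]
    exact (hψ.gen _ hv).symm
  have hβ0 : β ≠ 0 := by
    rintro rfl
    apply v.ne_bot
    rw [hspan, Ideal.span_singleton_eq_bot]
  have hprime : Prime β := by
    rw [← Ideal.span_singleton_prime hβ0, ← hspan]
    exact v.isPrime
  have hfs := H55R.D5_norm v Q hvd.symm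
  have hfs1 : fs F L v = 1 := by
    rw [hfs] at hQ
    exact Nat.Prime.eq_one_of_pow hQ
  rw [hfs1, pow_one] at hfs
  have hNm : Nm β = Ideal.absNorm Q.asIdeal := by
    rw [hfs]
    unfold H55P.Nm
    rw [← hspan]
  rw [← hvd]
  refine ⟨hprime, hspan, hNm, hfs.symm, ?_, ?_⟩
  · intro v'
    constructor
    · intro h
      have h1 : v.asIdeal ≤ (v'.under (𝓞 F)).asIdeal := by
        rw [hspan, Ideal.span_singleton_le_iff_mem]
        exact h
      have h2 : v = v'.under (𝓞 F) :=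
        HeightOneSpectrum.ext (v.isMaximal.eq_of_le (v'.under (𝓞 F)).isPrime.ne_top h1)
      obtain ⟨σ, hσ⟩ := H55R.smulP_trans (K := F) Q v' (hvd.symm.trans h2)
      exact ⟨σ, hσ.symm⟩
    · rintro ⟨σ, rfl⟩
      have h1 : β ∈ ((smulP σ Q).under (𝓞 F)).asIdeal := by
        rw [H55R.under_smulP, ← hvd, hspan]
        exact Ideal.mem_span_singleton_self _
      exact h1
  · intro σ
    have hβ0' : (β : F) ≠ 0 := by
      intro h
      exact hβ0 (RingOfIntegers.coe_injective (h.trans (map_zero (algebraMap (𝓞 F) F)).symm))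
    obtain ⟨x, hx⟩ : ∃ x : Fˣ, (x : F) = (β : F) := ⟨Units.mk0 _ hβ0', rfl⟩
    have h1 := H55R.ord_map (smulP σ Q) v ((H55R.under_smulP σ Q).trans hvd.symm) x
    rw [he, k6b_ord v hprime hspan x hx] at h1
    have h2 := H55R.BF1_val (smulP σ Q) (Units.map (algebraMap F L : F →* L) x)
    rw [h1] at h2
    have h3 : ((Units.map (algebraMap F L : F →* L) x : Lˣ) : L) = algebraMap F L (β : F) := by
      show algebraMap F L (x : F) = _
      rw [hx]
    rw [h3] at h2
    rw [h2]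
    norm_num

end H55K
end

-- from Lib.H55K.XD
section

/-!
# H55K: the interface between part U (elliptic units) and part K (fields)
-/

open NumberField IsDedekindDomain WeierstrassCurve

namespace H55K

open H55P (IQ embF eF LF Per IsHecke Pt ac Inert Dec Nm)
open H35P (WAB Ker tt)

variable {F : Type} [Field F] [NumberField F] [IQ F] {A B : F} {Ω : Type} [Field Ω] [DecidableEq Ω]
  [Algebra F Ω]

/-- The elliptic unit Ξ (part U): a function on the points over Ω. -/
structure XiD (act : 𝓞 F →+* AddMonoid.End (Pt (WAB A B) Ω)) (ψ : Ideal (𝓞 F) →*₀ 𝓞 F) (π : 𝓞 F)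
    (Ξ : Pt (WAB A B) Ω → Ω) : Prop where
  gal : ∀ (s : Ω ≃ₐ[F] Ω) (P : Pt (WAB A B) Ω), s (Ξ P) = Ξ (ac (WAB A B) s P)
  unit0 : ∀ T ∈ Tor act π, T ≠ 0 → ∀ V : ValuationSubring Ω, V.valuation (Ξ T) = 1
  exp : ∃ c : 𝓞 F, ¬ π ∣ c ∧ ∀ V : ValuationSubring Ω, V.valuation (ak Ω π) < 1 → ∀ T ∈ Tor act π, T ≠ 0 →
    V.valuation (Ξ T - 1 - ak Ω c * tt T) ≤ V.valuation (tt T) ^ 2
  fin : ∃ S : Set (HeightOneSpectrum (𝓞 F)), S.Finite ∧ ∀ v ∉ S, (Ideal.absNorm v.asIdeal).Prime →
    ∀ T ∈ Tor act π, T ≠ 0 →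
      (∀ R ∈ Tor act (ψ v.asIdeal), ∀ V : ValuationSubring Ω, V.valuation (Ξ (T + R)) = 1) ∧
      (∀ R ∈ Tor act (ψ v.asIdeal), ∀ V : ValuationSubring Ω, V.valuation (ak Ω (ψ v.asIdeal)) < 1 →
        V.valuation (Ξ (T + R) - Ξ T) < 1) ∧
      (act (ψ v.asIdeal) T = T → ∀ S' : Finset (Pt (WAB A B) Ω), TN act (ψ v.asIdeal) S' →
        ∏ R ∈ S', Ξ (T + R) = 1)

end H55K
end

-- from Lib.H55K.G6
section

/-! # H55K: points of finite order in the reduction -/

open NumberField IsDedekindDomain WeierstrassCurve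

namespace H55K

open H55P (IQ embF eF LF Per IsHecke Pt ac Inert Dec Nm)
open H35P (WAB Ker tt)


variable {F : Type} [Field F] [NumberField F] [IQ F] {A B : F} {Om : ℂ} {Ω : Type} [Field Ω] [DecidableEq Ω]
  [Algebra F Ω] {j : Ω →+* ℂ} {act : 𝓞 F →+* AddMonoid.End (Pt (WAB A B) Ω)} {V : ValuationSubring Ω}

omit [NumberField F] [IQ F] [DecidableEq Ω] in
theorem g6_cong {a b : V} (h : IsLocalRing.residue V a = IsLocalRing.residue V b) :
    V.valuation ((a : Ω) - (b : Ω)) < 1 := by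
  have h1 : a - b ∈ IsLocalRing.maximalIdeal V := by
    rw [← IsLocalRing.residue_eq_zero_iff, map_sub, h, sub_self]
  rw [V.valuation_lt_one_iff] at h1
  exact h1

omit [NumberField F] [IQ F] [DecidableEq Ω] in
theorem g6_fin (L : IntermediateField F Ω) [NumberField L] (V : ValuationSubring Ω) (q : ℕ) (hq : q.Prime)
    (hv : V.valuation (q : Ω) < 1) : ∃ S : Set (IsLocalRing.ResidueField V), S.Finite ∧
      ∀ (z : L) (hz : (z : Ω) ∈ V), IsLocalRing.residue V ⟨z, hz⟩ ∈ S := by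
  let f : 𝓞 L →+* V :=
    { toFun := fun a => ⟨((a : L) : Ω), (V.valuation_le_one_iff _).1 (H13S.vw_int L V a)⟩
      map_one' := by
        apply Subtype.ext
        simp
      map_mul' := fun a b => by
        apply Subtype.ext
        simp
      map_zero' := by
        apply Subtype.ext
        simp
      map_add' := fun a b => by
        apply Subtype.ext
        simp }
  let φ : 𝓞 L →+* IsLocalRing.ResidueField V := (IsLocalRing.residue V).comp f
  have hφ : ∀ a : 𝓞 L, φ a = 0 ↔ V.valuation ((a : L) : Ω) < 1 := by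
    intro a
    show IsLocalRing.residue V (f a) = 0 ↔ _
    rw [IsLocalRing.residue_eq_zero_iff, V.valuation_lt_one_iff]
    exact Iff.rfl
  have hq0 : φ (q : 𝓞 L) = 0 := by
    rw [hφ]
    have e : (((q : 𝓞 L) : L) : Ω) = (q : Ω) := by simp
    rw [e]
    exact hv
  have hle : ∀ a ∈ Ideal.span {(q : 𝓞 L)}, φ a = 0 := by
    intro a ha
    obtain ⟨b, rfl⟩ := Ideal.mem_span_singleton.1 ha
    rw [map_mul, hq0, zero_mul]
  have hne : Ideal.span {(q : 𝓞 L)} ≠ ⊥ := by
    rw [Ne, Ideal.span_singleton_eq_bot]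
    exact_mod_cast hq.ne_zero
  have hfin : Finite (𝓞 L ⧸ Ideal.span {(q : 𝓞 L)}) := Ideal.finiteQuotientOfFreeOfNeBot _ hne
  have hr : (Set.range φ).Finite := by
    have e : Set.range φ = Set.range (Ideal.Quotient.lift (Ideal.span {(q : 𝓞 L)}) φ hle) := by
      ext x
      constructor
      · rintro ⟨a, rfl⟩
        exact ⟨Ideal.Quotient.mk _ a, Ideal.Quotient.lift_mk _ _ _⟩
      · rintro ⟨a, rfl⟩
        obtain ⟨b, rfl⟩ := Ideal.Quotient.mk_surjective a
        exact ⟨b, (Ideal.Quotient.lift_mk _ _ _).symm⟩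
    rw [e]
    exact Set.finite_range _
  refine ⟨Set.image2 (fun a b => a / b) (Set.range φ) (Set.range φ), Set.Finite.image2 _ hr hr, ?_⟩
  intro z hz
  have hex : ∃ x : L, (x : Ω) ∉ V := by
    refine ⟨(q : L)⁻¹, fun h' => ?_⟩
    have e : (((q : L)⁻¹ : L) : Ω) = (q : Ω)⁻¹ := by simp
    rw [e, ← V.valuation_le_one_iff, map_inv₀] at h'
    have hq' : (q : Ω) ≠ 0 := by
      have hL0 : CharZero L := inferInstance
      have hO : CharZero Ω := charZero_of_injective_algebraMap (algebraMap L Ω).injective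
      exact_mod_cast hq.ne_zero
    have h2 : 0 < V.valuation (q : Ω) := zero_lt_iff.2 ((map_ne_zero _).2 hq')
    rw [inv_le_one₀ h2] at h'
    exact not_lt.2 h' hv
  obtain ⟨w, hw⟩ := H13S.exists_below L V hex
  obtain ⟨n, d, hnd⟩ := w.exists_primeCompl_mul_eq_of_integer z ((hw z).1 hz)
  have hd0 : φ (d : 𝓞 L) ≠ 0 := by
    rw [Ne, hφ, H13S.Abv.lt hw]
    intro h'
    exact d.2 ((w.valuation_lt_one_iff_mem _).1 h')
  refine ⟨φ n, ⟨n, rfl⟩, φ (d : 𝓞 L), ⟨_, rfl⟩, ?_⟩
  show φ n / φ (d : 𝓞 L) = _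
  rw [div_eq_iff hd0]
  show IsLocalRing.residue V (f n) = IsLocalRing.residue V ⟨z, hz⟩ * IsLocalRing.residue V (f d)
  rw [← map_mul]
  congr 1
  apply Subtype.ext
  have h3 := congrArg (fun t : L => (t : Ω)) hnd
  exact h3.symm

omit [IQ F] in
/-- Chunk G6 (M). Every point of the reduction has finite order. Suppose n • P is not in Ker for all n ≥ 1. All xc (n • P), yc (n • P) lie in V and in M = F(xc P, yc P), a finite extension of F (Ω is algebraic over F; a number field: NumberField M). The residue field of V ∩ M is finite: if M is not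
contained in V then V lies above a prime w of M (H13S.exists_below, VW.lean; Abv.lt), 𝓞 M ⧸ w.asIdeal is finite and every element of V ∩ M is congruent to an element of 𝓞 M modulo V (H13S.in4 / residue classes), or use H13S.qi_res (QI.lean): for x with V(x) ≤ 1 there is k > 0 with V(x^(q^(k m)) - x) < 1 for
all m, so with a common exponent N = q^K every element of V ∩ M is a root of X^N - X modulo V: finitely many classes. (M in V is impossible: 1/q is in M.) So two points n • P, n' • P, n < n', have coordinates congruent modulo V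
(pigeonhole), and (n' - n) • P is in Ker by cls_xy. The coordinates of n • P are in M: Affine.Point.map along M → Ω (the points with coordinates in M form a subgroup), see H55P.fix_iff or pt_open for the style: or argue with M' = a finite extension such that all s fixing M' fix P
(H55P.pt_open), then they fix n • P, so its coordinates (H55P.ps5_mem). -/
theorem ker_fin [IsAlgClosure F Ω] (hV : GV A B V) (q : ℕ) (hq : q.Prime) (hv : V.valuation (q : Ω) < 1)
    (P : Pt (WAB A B) Ω) : ∃ n : ℕ, 0 < n ∧ Ker V (n • P) := by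
  classical
  by_contra hc
  push Not at hc
  have hac : IsAlgClosed Ω := IsAlgClosure.isAlgClosed F
  have hal : Algebra.IsAlgebraic F Ω := IsAlgClosure.isAlgebraic
  have hcz : CharZero Ω := charZero_of_injective_algebraMap (algebraMap F Ω).injective
  obtain ⟨L, hL, hfix⟩ := H55P.pt_open (WAB A B) P
  have hfd : FiniteDimensional F L := hL
  have hnf : NumberField L := by
    have h1 : FiniteDimensional ℚ L := FiniteDimensional.trans ℚ F L
    exact { to_charZero := inferInstance, to_finiteDimensional := h1 }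
  have hfixn : ∀ (n : ℕ), ∀ s ∈ L.fixingSubgroup, ac (WAB A B) s (n • P) = n • P := by
    intro n s hs
    rw [map_nsmul, hfix s hs]
  have hxL : ∀ n : ℕ, xc (n • P) ∈ L := fun n => H55P.ps5_mem L fun s hs => by
    rw [← xc_ac (WAB A B), hfixn n s hs]
  have hyL : ∀ n : ℕ, yc (n • P) ∈ L := fun n => H55P.ps5_mem L fun s hs => by
    rw [← yc_ac (WAB A B), hfixn n s hs]
  have hk : ∀ n : ℕ, ¬ Ker V ((n + 1) • P) := fun n => hc (n + 1) n.succ_pos
  have hxV : ∀ n : ℕ, xc ((n + 1) • P) ∈ V := fun n =>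
    (V.valuation_le_one_iff _).1 (not_ker V (hk n)).2
  have hyV : ∀ n : ℕ, yc ((n + 1) • P) ∈ V := fun n => (V.valuation_le_one_iff _).1 (gv_y hV (hk n))
  obtain ⟨S, hS, hSm⟩ := g6_fin L V q hq hv
  have hfin : Finite S := hS
  let g : ℕ → S × S := fun n =>
    (⟨IsLocalRing.residue V ⟨xc ((n + 1) • P), hxV n⟩, hSm ⟨_, hxL (n + 1)⟩ (hxV n)⟩,
      ⟨IsLocalRing.residue V ⟨yc ((n + 1) • P), hyV n⟩, hSm ⟨_, hyL (n + 1)⟩ (hyV n)⟩)
  have key : ∀ m n : ℕ, m < n → g m = g n → False := by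
    intro m n hmn hg
    have h1 := congrArg (fun z => (z.1 : IsLocalRing.ResidueField V)) hg
    have h2 := congrArg (fun z => (z.2 : IsLocalRing.ResidueField V)) hg
    have h3 := cls_xy hV (hk n) (hk m) (g6_cong h1.symm) (g6_cong h2.symm)
    have e : (n + 1) • P - (m + 1) • P = (n - m) • P := by
      have e1 : n + 1 = (n - m) + (m + 1) := by omega
      rw [e1, add_nsmul P (n - m) (m + 1)]
      abel
    rw [e] at h3
    exact hc (n - m) (by omega) h3
  obtain ⟨m, n, hmn, hg⟩ := Finite.exists_ne_map_eq_of_infinite g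
  rcases lt_or_gt_of_ne hmn with h | h
  · exact key m n h hg
  · exact key n m h hg.symm

end H55K
end

-- from Lib.H55K.G10B
section

/-! # H55K: the Frobenius elements are the values of the Hecke character -/

open NumberField IsDedekindDomain WeierstrassCurve

namespace H55K

open H55P (IQ embF eF LF Per IsHecke Pt ac Inert Dec Nm)
open H35P (WAB Ker tt)


variable {F : Type} [Field F] [NumberField F] [IQ F] {A B : F} {Om : ℂ} {Ω : Type} [Field Ω] [DecidableEq Ω]
  [Algebra F Ω] {j : Ω →+* ℂ} {act : 𝓞 F →+* AddMonoid.End (Pt (WAB A B) Ω)} {V : ValuationSubring Ω}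

theorem g10b_fin {F : Type} [Field F] [NumberField F] (a : 𝓞 F) (ha : a ≠ 0) :
    {v : HeightOneSpectrum (𝓞 F) | a ∈ v.asIdeal}.Finite := by
  have h := Ideal.finite_factors (I := Ideal.span {a}) (by
    rw [Ne, Ideal.zero_eq_bot, Ideal.span_singleton_eq_bot]
    exact ha)
  refine h.subset fun v hv => ?_
  exact Ideal.dvd_span_singleton.2 hv

theorem g10b_one {F : Type} [Field F] [NumberField F] {Ω : Type} [Field Ω] [Algebra F Ω] (V : ValuationSubring Ω)
    (v : HeightOneSpectrum (𝓞 F)) (hv : ∀ a : 𝓞 F, a ∈ v.asIdeal → V.valuation (ak Ω a) < 1) (a : 𝓞 F)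
    (ha : a ∉ v.asIdeal) : V.valuation (ak Ω a) = 1 := by
  have hmax : v.asIdeal.IsMaximal := v.isMaximal
  obtain ⟨c, i, hi, hc⟩ := hmax.exists_inv ha
  have h1 : V.valuation (ak Ω i) < 1 := hv i hi
  have h2 : ak Ω c * ak Ω a = 1 - ak Ω i := by
    rw [eq_sub_iff_add_eq]
    show algebraMap F Ω (algebraMap (𝓞 F) F c) * algebraMap F Ω (algebraMap (𝓞 F) F a) +
      algebraMap F Ω (algebraMap (𝓞 F) F i) = 1
    rw [← map_mul, ← map_mul, ← map_add, ← map_add, hc, map_one, map_one]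
  have h3 : V.valuation (ak Ω c) * V.valuation (ak Ω a) = 1 := by
    rw [← map_mul, h2, Valuation.map_one_sub_of_lt _ h1]
  have h4 := ak_le V a
  refine le_antisymm h4 ?_
  rw [← h3]
  exact mul_le_of_le_one_left' (ak_le V c)

/-- Chunk G10B (S/M). For x ≠ 0 in F only finitely many v have a valuation ring V above v with V(x) ≠ 1: x = a/b, v contains a or b (Abv-like argument: hv; if v does not contain a then a c - 1 is in v for some c, so V(a) = 1). -/
theorem fin_unit (Ω : Type) [Field Ω] [Algebra F Ω] (x : F) (hx : x ≠ 0) :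
    ∃ S : Set (HeightOneSpectrum (𝓞 F)), S.Finite ∧ ∀ v ∉ S, ∀ V : ValuationSubring Ω,
      (∀ a : 𝓞 F, a ∈ v.asIdeal → V.valuation (ak Ω a) < 1) → V.valuation (algebraMap F Ω x) = 1 := by
  obtain ⟨a, b, hb, rfl⟩ := IsFractionRing.div_surjective (A := 𝓞 F) x
  have hb0 : b ≠ 0 := nonZeroDivisors.ne_zero hb
  have ha0 : a ≠ 0 := by
    rintro rfl
    apply hx
    rw [map_zero, zero_div]
  refine ⟨{v | a ∈ v.asIdeal} ∪ {v | b ∈ v.asIdeal}, (g10b_fin a ha0).union (g10b_fin b hb0), ?_⟩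
  intro v hvS V hv
  rw [Set.mem_union, not_or] at hvS
  have h1 := g10b_one V v hv a hvS.1
  have h2 := g10b_one V v hv b hvS.2
  rw [map_div₀, map_div₀]
  change V.valuation (ak Ω a) / V.valuation (ak Ω b) = 1
  rw [h1, h2, div_one]

end H55K
end

-- from Lib.H55K.G8B
section

/-! # H55K: Frobenius elements: the generator -/

open NumberField IsDedekindDomain WeierstrassCurve

namespace H55K

open H55P (IQ embF eF LF Per IsHecke Pt ac Inert Dec Nm)
open H35P (WAB Ker tt)


variable {F : Type} [Field F] [NumberField F] [IQ F] {A B : F} {Om : ℂ} {Ω : Type} [Field Ω] [DecidableEq Ω]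
  [Algebra F Ω] {j : Ω →+* ℂ} {act : 𝓞 F →+* AddMonoid.End (Pt (WAB A B) Ω)} {V : ValuationSubring Ω}

/-- Chunk G8B (S). e1x with S = the empty set (TN act u ∅ for a unit u). -/
theorem act_unit_x (h : CMA F A B Om j act) (u : (𝓞 F)ˣ) (P : Pt (WAB A B) Ω) :
    ak Ω (u : 𝓞 F) ^ 2 * xc (act (u : 𝓞 F) P) = xc P := by
  have hinv : ∀ T : Pt (WAB A B) Ω, act (u : 𝓞 F) T = 0 → T = 0 := by
    intro T hT
    have h1 : act ((u⁻¹ : (𝓞 F)ˣ) : 𝓞 F) (act (u : 𝓞 F) T) = T := by
      change (act ((u⁻¹ : (𝓞 F)ˣ) : 𝓞 F) * act (u : 𝓞 F)) T = T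
      rw [← map_mul, Units.inv_mul, map_one]
      rfl
    rw [← h1, hT, map_zero]
  by_cases hP : P = 0
  · rw [hP, map_zero, xc_zero, mul_zero]
  · have hTN : TN act (u : 𝓞 F) (∅ : Finset (Pt (WAB A B) Ω)) := by
      intro T
      constructor
      · intro hT
        exact absurd hT (Finset.notMem_empty T)
      · rintro ⟨hT, h0⟩
        exact absurd (hinv T hT) h0
    have h1 := h.e1x (u : 𝓞 F) ∅ u.ne_zero hTN P fun h0 => hP (hinv P h0)
    rw [Finset.sum_empty, add_zero] at h1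
    exact h1

omit [NumberField F] [IQ F] in
/-- Chunk G8B (S). Two endomorphisms f, g of an abelian group with f x = g x or f x = - g x modulo a subgroup K for every x: the sets {x : f x - g x in K}, {x : f x + g x in K} are subgroups with union everything. -/
theorem two_sub {M : Type} [AddCommGroup M] (K : AddSubgroup M) (f g : M →+ M)
    (hfg : ∀ x, f x - g x ∈ K ∨ f x + g x ∈ K) : (∀ x, f x - g x ∈ K) ∨ ∀ x, f x + g x ∈ K := by
  by_contra hc
  push Not at hc
  obtain ⟨⟨x, hx⟩, y, hy⟩ := hc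
  have hx' := (hfg x).resolve_left hx
  have hy' := (hfg y).resolve_right hy
  rcases hfg (x + y) with h1 | h1
  · apply hx
    have e : f x - g x = f (x + y) - g (x + y) - (f y - g y) := by
      rw [map_add, map_add]
      abel
    rw [e]
    exact K.sub_mem h1 hy'
  · apply hy
    have e : f y + g y = f (x + y) + g (x + y) - (f x + g x) := by
      rw [map_add, map_add]
      abel
    rw [e]
    exact K.sub_mem h1 hx'

end H55K
end

-- from Lib.H55K.QH4A
section

/-! # H55K: the factors of the discriminant are p-adic units -/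

open NumberField IsDedekindDomain WeierstrassCurve

namespace H55K.TQ

open H55P (IQ embF eF LF Per IsHecke Pt ac Inert Dec Nm UnitP)
open H35P (WAB Ker tt GoodW IntW)
open H55K.MG (VC Crd)

variable {K : Type} [Field K] [NumberField K] (w : HeightOneSpectrum (𝓞 K))

/-- Chunk QH4A (S/M). The norm of the completion: ‖x‖ = N^k for x ≠ 0, N = absNorm w, k an integer (NumberField.FinitePlace.norm_def or the instance; Valued.v x = exp k). -/
theorem norm_w (x : w.adicCompletion K) (hx : x ≠ 0) :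
    ∃ k : ℤ, ‖x‖ = (Ideal.absNorm w.asIdeal : ℝ) ^ k ∧ Valued.v x = WithZero.exp k := by
  have hv : (Valued.v x : WithZero (Multiplicative ℤ)) ≠ 0 := (Valuation.ne_zero_iff _).2 hx
  obtain ⟨k, hk⟩ : ∃ k : ℤ, (Valued.v x : WithZero (Multiplicative ℤ)) = WithZero.exp k :=
    ⟨WithZero.log (Valued.v x), (WithZero.exp_log hv).symm⟩
  refine ⟨k, ?_, hk⟩
  rw [FinitePlace.norm_def, hk, WithZeroMulInt.toNNReal_neg_apply _ WithZero.exp_ne_zero]
  have h1 : WithZero.unzero (WithZero.exp_ne_zero (a := k)) = Multiplicative.ofAdd k :=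
    WithZero.unzero_coe _
  rw [h1]
  simp

end H55K.TQ
end

-- from Lib.H55K.RG
section

/-! # H55K: good reduction over an extension -/

open NumberField IsDedekindDomain WeierstrassCurve

namespace H55K.TQ

open H55P (IQ embF eF LF Per IsHecke Pt ac Inert Dec Nm UnitP)
open H35P (WAB Ker tt GoodW IntW)
open H55K.MG (VC Crd)

/-- Chunk RG (S/M). The same change of variables over K; w.valuation K (algebraMap x) ≤ 1 iff v.valuation K₀ x ≤ 1, = 1 iff = 1 (x = a/b with b not in v if v-integral; HeightOneSpectrum.valuation_le_one_iff.. or the comparison of valuations for w above v, see H13E.q5_above). (C • W₀)⁄K = (C mapped) • (W₀⁄K): map_variableChange. -/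
theorem good_up {K₀ K : Type} [Field K₀] [NumberField K₀] [Field K] [NumberField K] [Algebra K₀ K] {W : WeierstrassCurve K₀}
    {v : HeightOneSpectrum (𝓞 K₀)} {w : HeightOneSpectrum (𝓞 K)} (hv : v.asIdeal = w.asIdeal.under (𝓞 K₀))
    (h : GoodAt W v) : GoodAt (W⁄K) w := by
  obtain ⟨C, h1, h2, h3, h4, h6, hD⟩ := h
  obtain ⟨v', e, hv', he, hval⟩ := H55C.A4_glob (K := K₀) (N := K) w
  have hvv : v' = v := HeightOneSpectrum.ext (hv'.trans hv.symm)
  subst hvv
  have hle : ∀ z : K₀, v'.valuation K₀ z ≤ 1 → w.valuation K (algebraMap K₀ K z) ≤ 1 := by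
    intro z hz
    rw [hval]
    exact pow_le_one' hz e
  have hC : (C.map (algebraMap K₀ K)) • (W⁄K) = (C • W).map (algebraMap K₀ K) := WeierstrassCurve.map_variableChange _ _ _
  refine ⟨C.map (algebraMap K₀ K), ?_⟩
  rw [hC]
  refine ⟨hle _ h1, hle _ h2, hle _ h3, hle _ h4, hle _ h6, ?_⟩
  rw [WeierstrassCurve.map_Δ, hval, hD, one_pow]

end H55K.TQ
end

-- from Lib.H55K.QA2
section

/-! # H55K: the kernel of reduction has finite index -/

open NumberField IsDedekindDomain WeierstrassCurve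

namespace H55K.TQ

open H55P (IQ embF eF LF Per IsHecke Pt ac Inert Dec Nm UnitP)
open H35P (WAB Ker tt GoodW IntW)
open H55K.MG (VC Crd)

variable {k : Type} [Field k] {W : WeierstrassCurve k} {V : ValuationSubring k}

/-- Chunk QA2 (S/M). The subgroup: H35P.ker_add, ker_neg, Ker V 0. Finite index: S from FinR for c = Δ. For P outside choose z₁, z₂ in S with V(xc P - z₁) < V(Δ), V(yc P - z₂) < V(Δ) (coordinates in V: not Ker, H35P.int_y).
Two points outside the subgroup with the same z₁, z₂ differ by an element of it (near). So the map of the quotient to Option (S × S) (none if the representative (Quotient.out) is in K1) is injective and the quotient is finite. -/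
theorem fin_index [DecidableEq k] (hI : IntW W V) (hΔ : W.Δ ≠ 0) (hf : FinR V) :
    ∃ K1 : AddSubgroup W.toAffine.Point, (∀ P, P ∈ K1 ↔ Ker V P) ∧ K1.FiniteIndex := by
  classical
  let K1 : AddSubgroup W.toAffine.Point :=
    { carrier := {P | Ker V P}
      add_mem' := fun {P Q} hP hQ => H35P.ker_add hI P Q hP hQ
      zero_mem' := (trivial : Ker V (0 : W.toAffine.Point))
      neg_mem' := fun {P} hP => (H35P.ker_neg P).2 hP }
  refine ⟨K1, fun P => Iff.rfl, ?_⟩
  obtain ⟨S, hS, hS'⟩ := hf W.Δ hΔ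
  have hco : ∀ P : W.toAffine.Point, ¬ Ker V P → xc P ∈ V ∧ yc P ∈ V := by
    intro P hP
    match P, hP with
    | .zero, hP => exact absurd trivial hP
    | .some x y h, hP =>
      have hx : V.valuation x ≤ 1 := not_lt.1 hP
      exact ⟨(V.valuation_le_one_iff x).1 hx, (V.valuation_le_one_iff y).1 (H35P.int_y hI h.1 hx)⟩
  have hch : ∀ P : W.toAffine.Point, ∃ z : S × S, ¬ Ker V P → V.valuation (xc P - z.1) < V.valuation W.Δ ∧
      V.valuation (yc P - z.2) < V.valuation W.Δ := by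
    intro P
    by_cases hP : Ker V P
    · obtain ⟨z, hz, _⟩ := hS' 0 V.zero_mem
      exact ⟨(⟨z, hz⟩, ⟨z, hz⟩), fun h => absurd hP h⟩
    · obtain ⟨h1, h2⟩ := hco P hP
      obtain ⟨z, hz, hz'⟩ := hS' _ h1
      obtain ⟨w, hw, hw'⟩ := hS' _ h2
      exact ⟨(⟨z, hz⟩, ⟨w, hw⟩), fun _ => ⟨hz', hw'⟩⟩
  choose Z hZ using hch
  have hfS : Finite S := hS
  let F : W.toAffine.Point ⧸ K1 → Option (S × S) := fun q => if Ker V q.out then none else some (Z q.out)
  have hF : Function.Injective F := by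
    intro q q' h
    have e1 : (QuotientAddGroup.mk q.out : W.toAffine.Point ⧸ K1) = q := QuotientAddGroup.out_eq' q
    have e2 : (QuotientAddGroup.mk q'.out : W.toAffine.Point ⧸ K1) = q' := QuotientAddGroup.out_eq' q'
    rw [← e1, ← e2]
    change (if Ker V q.out then none else some (Z q.out)) = (if Ker V q'.out then none else some (Z q'.out)) at h
    refine (QuotientAddGroup.eq (s := K1)).2 ?_
    show Ker V (-q.out + q'.out)
    by_cases h1 : Ker V q.out
    · by_cases h2 : Ker V q'.out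
      · exact H35P.ker_add hI _ _ ((H35P.ker_neg _).2 h1) h2
      · rw [if_pos h1, if_neg h2] at h
        exact absurd h (by simp)
    · by_cases h2 : Ker V q'.out
      · rw [if_neg h1, if_pos h2] at h
        exact absurd h (by simp)
      · rw [if_neg h1, if_neg h2] at h
        have h3 := Option.some.inj h
        have z1 := hZ _ h1
        have z2 := hZ _ h2
        rw [← h3] at z2
        have hx : V.valuation (xc q'.out - xc q.out) < V.valuation W.Δ := by
          have e : xc q'.out - xc q.out = (xc q'.out - (Z q.out).1) - (xc q.out - (Z q.out).1) := by ring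
          rw [e]
          exact V.valuation.map_sub_lt z2.1 z1.1
        have hy : V.valuation (yc q'.out - yc q.out) < V.valuation W.Δ := by
          have e : yc q'.out - yc q.out = (yc q'.out - (Z q.out).2) - (yc q.out - (Z q.out).2) := by ring
          rw [e]
          exact V.valuation.map_sub_lt z2.2 z1.2
        have h4 := near hI hΔ h2 h1 hx hy
        rw [neg_add_eq_sub]
        exact h4
  have hfin : Finite (W.toAffine.Point ⧸ K1) := Finite.of_injective F hF
  exact AddSubgroup.finiteIndex_of_finite_quotient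

end H55K.TQ
end

-- from Lib.H55K.QF1B
section

/-! # H55K: the index of the kernel of reduction at a bad place -/

open NumberField IsDedekindDomain WeierstrassCurve

namespace H55K.TQ

open H55P (IQ embF eF LF Per IsHecke Pt ac Inert Dec Nm UnitP)
open H35P (WAB Ker tt GoodW IntW)
open H55K.MG (VC Crd)

variable {k : Type} [Field k] {W : WeierstrassCurve k}

/-- Chunk QF1B (S). The kernel of reduction consists of points with nonsingular reduction: V(x) > 1, V(y)^2 = V(x)^3 (H35P.val_y); if V(3) = 1: V(3x^2) = V(x)^2 is greater than V(2 a₂ x + a₄ - a₁ y); if V(3) < 1 then V(2) = 1 and V(2 y) = V(y) > V(a₁ x + a₃). -/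
theorem ker_e0 {V₀ : ValuationSubring k} (hI : IntW W V₀) {P : W.toAffine.Point} (hP : Ker V₀ P) : P ∈ E0V W V₀ := by
  rcases P with _ | ⟨x, y, h⟩
  · exact Or.inl rfl
  refine Or.inr ⟨x, y, h, rfl, ?_⟩
  have hx : 1 < V₀.valuation x := hP
  obtain ⟨h1, h2⟩ := H35P.val_y hI h.1 hx
  have le1 : ∀ {a : k}, a ∈ V₀ → V₀.valuation a ≤ 1 := fun {a} ha => (V₀.valuation_le_one_iff a).2 ha
  have hx0 : (0 : V₀.ValueGroup) < V₀.valuation x := zero_lt_one.trans hx
  have hint : ∀ n : ℕ, V₀.valuation (n : k) ≤ 1 := fun n => le1 (natCast_mem V₀ n)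
  have hmul : ∀ {a b : k}, a ∈ V₀ → V₀.valuation (a * b) ≤ V₀.valuation b := by
    intro a b ha
    rw [map_mul]
    exact mul_le_of_le_one_left' (le1 ha)
  by_cases h3 : V₀.valuation (3 : k) = 1
  · left
    have hA : V₀.valuation (3 * x ^ 2) = V₀.valuation x ^ 2 := by
      rw [map_mul, map_pow, h3, one_mul]
    have hyx : V₀.valuation y < V₀.valuation x ^ 2 := by
      by_contra hcon
      have h4 := not_lt.1 hcon
      have h5 : (V₀.valuation x ^ 2) ^ 2 ≤ V₀.valuation y ^ 2 := by gcongr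
      rw [h1] at h5
      have h6 : V₀.valuation x ^ 3 < (V₀.valuation x ^ 2) ^ 2 := by
        rw [← pow_mul]
        exact pow_lt_pow_right₀ hx (by norm_num)
      exact absurd h5 (not_le.2 h6)
    have hB : V₀.valuation (2 * W.a₂ * x + W.a₄ - W.a₁ * y) ≤ V₀.valuation y := by
      refine (Valuation.map_sub _ _ _).trans (max_le ((Valuation.map_add _ _ _).trans (max_le ?_ ?_)) ?_)
      · have h2a : (2 : k) * W.a₂ ∈ V₀ := mul_mem (by simpa using natCast_mem V₀ 2) hI.a2
        exact (hmul h2a).trans h2.le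
      · exact (le1 hI.a4).trans (hx.le.trans h2.le)
      · exact hmul hI.a1
    have e : 3 * x ^ 2 + 2 * W.a₂ * x + W.a₄ - W.a₁ * y = 3 * x ^ 2 + (2 * W.a₂ * x + W.a₄ - W.a₁ * y) := by
      ring
    rw [e, Valuation.map_add_eq_of_lt_left V₀.valuation (by
      rw [hA]
      exact hB.trans_lt hyx), hA]
    exact one_le_pow₀ hx.le
  · right
    have h3' : V₀.valuation (3 : k) < 1 := lt_of_le_of_ne (by simpa using hint 3) h3
    have h2' : V₀.valuation (2 : k) = 1 := by
      refine le_antisymm (by simpa using hint 2) (not_lt.1 fun hlt => ?_)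
      have h4 : V₀.valuation ((3 : k) - 2) < 1 :=
        (Valuation.map_sub _ _ _).trans_lt (max_lt h3' hlt)
      have h5 : (3 : k) - 2 = 1 := by norm_num
      rw [h5, map_one] at h4
      exact lt_irrefl _ h4
    have hA : V₀.valuation (2 * y) = V₀.valuation y := by
      rw [map_mul, h2', one_mul]
    have hB : V₀.valuation (W.a₁ * x + W.a₃) ≤ V₀.valuation x :=
      (Valuation.map_add _ _ _).trans (max_le (hmul hI.a1) ((le1 hI.a3).trans hx.le))
    rw [add_assoc, Valuation.map_add_eq_of_lt_left V₀.valuation (by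
      rw [hA]
      exact hB.trans_lt h2), hA]
    exact hx.le.trans h2.le

/-- Chunk QF1B (S). Good equation: every point has nonsingular reduction (disc_le or H35P.nonsing for integral points; ker_e0 for the others). -/
theorem good_e0 {V₀ : ValuationSubring k} (hG : GoodW W V₀) (P : W.toAffine.Point) : P ∈ E0V W V₀ := by
  classical
  rcases P with _ | ⟨x, y, h⟩
  · exact Or.inl rfl
  by_cases hx : 1 < V₀.valuation x
  · exact ker_e0 hG.toIntW (P := Affine.Point.some x y h) hx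
  · refine Or.inr ⟨x, y, h, rfl, ?_⟩
    have hx1 := not_lt.1 hx
    have hy1 := H35P.int_y hG.toIntW h.1 hx1
    by_cases h1 : V₀.valuation (2 * y + W.a₁ * x + W.a₃) < 1
    · left
      exact (H35P.nonsing hG h.1 ((V₀.valuation_le_one_iff _).1 hx1) ((V₀.valuation_le_one_iff _).1 hy1) h1).ge
    · right
      exact not_lt.1 h1

end H55K.TQ
end

-- from Lib.H55K.QB1B
section

/-! # H55K: extension of the valuation ring to an algebraic closure -/

open NumberField IsDedekindDomain WeierstrassCurve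

namespace H55K.TQ

open H55P (IQ embF eF LF Per IsHecke Pt ac Inert Dec Nm UnitP)
open H35P (WAB Ker tt GoodW IntW)
open H55K.MG (VC Crd)

variable {k : Type} [Field k] {Ω : Type} [Field Ω] [Algebra k Ω]

/-- Chunk QB1B (S/M). a ≠ 0 is a root of a polynomial of k[X] (Algebra.IsAlgebraic), with a nonzero constant coefficient or not: in the sum of the c_i a^i = 0 two different nonzero terms have the same (maximal) value (ultrametric inequality: a sum with a unique term of maximal value is not 0), so V(a)^(i - j) = V(c_j/c_i), i > j. -/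
theorem val_pow [Algebra.IsAlgebraic k Ω] (V : ValuationSubring Ω) {a : Ω} (ha : a ≠ 0) :
    ∃ (m : ℕ) (b : k), 0 < m ∧ b ≠ 0 ∧ V.valuation a ^ m = V.valuation (algebraMap k Ω b) := by
  classical
  obtain ⟨p, hp0, hp⟩ := Algebra.IsAlgebraic.isAlgebraic (R := k) a
  rw [Polynomial.aeval_eq_sum_range' (n := p.natDegree + 1) (Nat.lt_succ_self _)] at hp
  have hvm : ∀ i, p.coeff i • a ^ i = algebraMap k Ω (p.coeff i) * a ^ i := fun i => Algebra.smul_def _ _
  have hsum : ∑ i ∈ p.support, algebraMap k Ω (p.coeff i) * a ^ i = 0 := by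
    rw [← hp]
    have h1 : p.support ⊆ Finset.range (p.natDegree + 1) := Polynomial.supp_subset_range_natDegree_succ
    rw [← Finset.sum_subset h1 (f := fun i => p.coeff i • a ^ i)]
    · exact Finset.sum_congr rfl fun i _ => (hvm i).symm
    · intro i _ hi
      rw [Polynomial.notMem_support_iff.1 hi, zero_smul]
  have hne : ∀ i ∈ p.support, algebraMap k Ω (p.coeff i) * a ^ i ≠ 0 := by
    intro i hi
    refine mul_ne_zero ?_ (pow_ne_zero i ha)
    rw [Ne, FaithfulSMul.algebraMap_eq_zero_iff]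
    exact Polynomial.mem_support_iff.1 hi
  have hsn : p.support.Nonempty := Polynomial.nonempty_support_iff.2 hp0
  obtain ⟨i, hi, hmax⟩ := Finset.exists_max_image p.support
    (fun i => V.valuation (algebraMap k Ω (p.coeff i) * a ^ i)) hsn
  have hex : ∃ j ∈ p.support, j ≠ i ∧ V.valuation (algebraMap k Ω (p.coeff j) * a ^ j) =
      V.valuation (algebraMap k Ω (p.coeff i) * a ^ i) := by
    by_contra hcon
    push Not at hcon
    have hlt : ∀ j ∈ p.support.erase i, V.valuation (algebraMap k Ω (p.coeff j) * a ^ j) <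
        V.valuation (algebraMap k Ω (p.coeff i) * a ^ i) := by
      intro j hj
      rw [Finset.mem_erase] at hj
      exact lt_of_le_of_ne (hmax j hj.2) (hcon j hj.2 hj.1)
    have hg : V.valuation (algebraMap k Ω (p.coeff i) * a ^ i) ≠ 0 :=
      (Valuation.ne_zero_iff _).2 (hne i hi)
    have h2 := Valuation.map_sum_lt V.valuation hg hlt
    rw [← Finset.add_sum_erase p.support _ hi] at hsum
    have h3 : ∑ j ∈ p.support.erase i, algebraMap k Ω (p.coeff j) * a ^ j =
        -(algebraMap k Ω (p.coeff i) * a ^ i) := eq_neg_of_add_eq_zero_right hsum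
    rw [h3, Valuation.map_neg] at h2
    exact lt_irrefl _ h2
  obtain ⟨j, hj, hji, hval⟩ := hex
  have key : ∀ i j : ℕ, i ∈ p.support → j ∈ p.support → j < i →
      V.valuation (algebraMap k Ω (p.coeff j) * a ^ j) = V.valuation (algebraMap k Ω (p.coeff i) * a ^ i) →
      ∃ (m : ℕ) (b : k), 0 < m ∧ b ≠ 0 ∧ V.valuation a ^ m = V.valuation (algebraMap k Ω b) := by
    intro i j hi hj hlt hv
    have hci := Polynomial.mem_support_iff.1 hi
    have hcj := Polynomial.mem_support_iff.1 hj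
    refine ⟨i - j, p.coeff j / p.coeff i, Nat.sub_pos_of_lt hlt, div_ne_zero hcj hci, ?_⟩
    have hva : V.valuation a ≠ 0 := (Valuation.ne_zero_iff _).2 ha
    have hvi : V.valuation (algebraMap k Ω (p.coeff i)) ≠ 0 := by
      refine (Valuation.ne_zero_iff _).2 ?_
      rw [Ne, FaithfulSMul.algebraMap_eq_zero_iff]
      exact hci
    rw [map_mul, map_mul, map_pow, map_pow] at hv
    rw [map_div₀, map_div₀, eq_div_iff hvi]
    apply mul_right_cancel₀ (pow_ne_zero j hva)
    rw [hv, mul_comm (V.valuation a ^ (i - j)), mul_assoc, ← pow_add, Nat.sub_add_cancel hlt.le]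
  rcases lt_or_gt_of_ne hji with h | h
  · exact key i j hi hj h hval
  · exact key j i hj hi h hval.symm

/-- Chunk QB1B (S). From val_pow for a (if a ≠ 0) and for c: V(a)^m = V(b), V(b) < 1, V(c)^m' = V(c'), V₀(b)^n < V₀(c'), so V(a)^(m n) < V(c)^m' ≤ ... : if V(c) ≤ 1 then V(a)^(m n) < V(c)^m' gives V(a)^(m n m') < V(c)^m' .. use V(a)^(m n) < V(c)^m' ≤ V(c) if V(c) ≤ 1 (m' ≥ 1); if V(c) > 1 take n = 0 or 1. -/
theorem arch_ext [Algebra.IsAlgebraic k Ω] {V₀ : ValuationSubring k} {V : ValuationSubring Ω}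
    (h : ∀ x : k, algebraMap k Ω x ∈ V ↔ x ∈ V₀) (hA : Arch V₀) : Arch V := by
  intro a c ha hc
  by_cases ha0 : a = 0
  · refine ⟨1, ?_⟩
    rw [ha0, map_zero, pow_one]
    exact zero_lt_iff.2 ((Valuation.ne_zero_iff _).2 hc)
  obtain ⟨m, b, hm, hb, hmb⟩ := val_pow (k := k) V ha0
  obtain ⟨m', c', hm', hc', hmc⟩ := val_pow (k := k) V hc
  have hb1 : V₀.valuation b < 1 := by
    have h1 := (ext_val h b 1).2.1
    rw [map_one, map_one, map_one] at h1
    apply h1
    rw [← hmb]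
    exact pow_lt_one₀ zero_le ha hm.ne'
  obtain ⟨n, hn⟩ := hA b c' hb1 hc'
  have h2 : V.valuation a ^ (m * n) < V.valuation c ^ m' := by
    rw [pow_mul, hmb, hmc, ← map_pow, ← map_pow]
    apply (ext_val h (b ^ n) c').2.2
    rw [map_pow]
    exact hn
  by_cases h3 : V.valuation c ≤ 1
  · exact ⟨m * n, lt_of_lt_of_le h2 (pow_le_of_le_one zero_le h3 hm'.ne')⟩
  · refine ⟨0, ?_⟩
    rw [pow_zero]
    exact not_le.1 h3

end H55K.TQ
end

-- from Lib.H55K.QP1A
section

/-! # H55K: the period lattice of a curve over the rationals -/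

open NumberField IsDedekindDomain WeierstrassCurve

namespace H55K.TQ

open H55P (IQ embF eF LF Per IsHecke Pt ac Inert Dec Nm UnitP)
open H35P (WAB Ker tt GoodW IntW)
open H55K.MG (VC Crd)

variable {F : Type} [Field F] [NumberField F] [IQ F] {W : WeierstrassCurve ℤ} {Om : ℂ} {L : PeriodPair} {p : ℕ}

/-- Per for W: (W.map (Int.castRingHom (𝓞 F))). -/
def PerW (F : Type) [Field F] [NumberField F] [IQ F] (W : WeierstrassCurve ℤ) (Om : ℂ) : Prop :=
  H55P.Per F (-(W.c₄ : ℂ) / 48) (-(W.c₆ : ℂ) / 864) Om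

theorem qp1a_ex (hper : PerW F W Om) : ∃ L' : PeriodPair,
    (∀ z, z ∈ L'.lattice ↔ ∃ a : 𝓞 F, z = Om * eF F a) ∧ PerZ W L' := by
  have hne := hper.ne
  obtain ⟨L', hL, h2, h3⟩ := lat_scale (LF F) Om hne
  refine ⟨L', ?_, ?_, ?_⟩
  · intro z
    rw [hL z]
    constructor
    · rintro ⟨l, hl, rfl⟩
      obtain ⟨a, rfl⟩ := (H55P.mem_LF l).1 hl
      exact ⟨a, rfl⟩
    · rintro ⟨a, rfl⟩
      exact ⟨eF F a, (H55P.mem_LF _).2 ⟨a, rfl⟩, rfl⟩
  · rw [h2, hper.g2]
    field_simp
    ring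
  · rw [h3, hper.g3]
    field_simp
    ring

/-- Chunk QP1A (M). The lattice of L is Om times the lattice of integers. The PeriodPair L' with periods Om ω₁, Om ω₂ (ω of LF F) has g₂ = Om^-4 g₂(LF) = c₄/12, g₃ = c₆/216 (homogeneity of the Eisenstein series: see H35P / H55P for the scaling of g₂, g₃ (search PeriodPair smul, e.g. Z1B, Z1C or E0)); lat_eq L L'; H55P.mem_LF. -/
theorem lat_W (hper : PerW F W Om) (hL : PerZ W L) (z : ℂ) : z ∈ L.lattice ↔ ∃ a : 𝓞 F, z = Om * eF F a := by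
  obtain ⟨L', h1, h2⟩ := qp1a_ex hper
  rw [lat_eq L L' (hL.g2.trans h2.g2.symm) (hL.g3.trans h2.g3.symm)]
  exact h1 z

/-- Chunk QP1A (S/M). Existence (the L' of lat_W). -/
theorem exists_perZ (hper : PerW F W Om) : ∃ L : PeriodPair, PerZ W L := by
  obtain ⟨L', _, h2⟩ := qp1a_ex hper
  exact ⟨L', h2⟩

end H55K.TQ
end

-- from Lib.H55K.QP1B
section

/-! # H55K: the period lattice of a curve over the rationals -/

open NumberField IsDedekindDomain WeierstrassCurve

namespace H55K.TQ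

open H55P (IQ embF eF LF Per IsHecke Pt ac Inert Dec Nm UnitP)
open H35P (WAB Ker tt GoodW IntW)
open H55K.MG (VC Crd)

variable {F : Type} [Field F] [NumberField F] [IQ F] {W : WeierstrassCurve ℤ} {Om : ℂ} {L : PeriodPair} {p : ℕ}

theorem qp1b_indep (L : PeriodPair) :
    LinearIndependent ℝ ![(starRingEnd ℂ) L.ω₁, (starRingEnd ℂ) L.ω₂] := by
  have h := L.indep.map' (Complex.conjLIE.toLinearEquiv : ℂ →ₗ[ℝ] ℂ) (by
    rw [LinearMap.ker_eq_bot]
    exact Complex.conjLIE.toLinearEquiv.injective)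
  have e : (Complex.conjLIE.toLinearEquiv : ℂ →ₗ[ℝ] ℂ) ∘ ![L.ω₁, L.ω₂] =
      ![(starRingEnd ℂ) L.ω₁, (starRingEnd ℂ) L.ω₂] := by
    ext i
    fin_cases i <;> rfl
  rwa [e] at h

theorem qp1b_G (L L' : PeriodPair) (h : ∀ z, z ∈ L'.lattice ↔ ∃ l ∈ L.lattice, z = (starRingEnd ℂ) l)
    (n : ℕ) : L'.G n = (starRingEnd ℂ) (L.G n) := by
  have hf : ∀ l : L.lattice, (starRingEnd ℂ) (l : ℂ) ∈ L'.lattice := fun l => (h _).2 ⟨l, l.2, rfl⟩
  have hb : Function.Bijective (fun l : L.lattice => (⟨(starRingEnd ℂ) l, hf l⟩ : L'.lattice)) := by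
    constructor
    · intro a b hab
      exact Subtype.ext ((starRingEnd ℂ).injective (congrArg Subtype.val hab))
    · rintro ⟨z, hz⟩
      obtain ⟨l, hl, e⟩ := (h z).1 hz
      exact ⟨⟨l, hl⟩, Subtype.ext e.symm⟩
  unfold PeriodPair.G
  rw [← (Equiv.ofBijective _ hb).tsum_eq, Complex.conj_tsum]
  refine tsum_congr fun l => ?_
  show (((starRingEnd ℂ) (l : ℂ)) ^ n)⁻¹ = (starRingEnd ℂ) (((l : ℂ) ^ n)⁻¹)
  rw [map_inv₀, map_pow]

/-- Chunk QP1B (M). The lattice of L is stable under complex conjugation: the conjugate pair (conj ω₁, conj ω₂) has g₂, g₃ the conjugates, that is the same real numbers; lat_eq. -/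
theorem lat_conj (hL : PerZ W L) {z : ℂ} (hz : z ∈ L.lattice) : (starRingEnd ℂ) z ∈ L.lattice := by
  have h : ∀ z, z ∈ (⟨(starRingEnd ℂ) L.ω₁, (starRingEnd ℂ) L.ω₂, qp1b_indep L⟩ : PeriodPair).lattice ↔
      ∃ l ∈ L.lattice, z = (starRingEnd ℂ) l := by
    intro z
    rw [PeriodPair.mem_lattice]
    constructor
    · rintro ⟨m, n, rfl⟩
      refine ⟨m * L.ω₁ + n * L.ω₂, PeriodPair.mem_lattice.2 ⟨m, n, rfl⟩, ?_⟩
      rw [map_add, map_mul, map_mul, map_intCast, map_intCast]
    · rintro ⟨l, hl, rfl⟩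
      obtain ⟨m, n, rfl⟩ := PeriodPair.mem_lattice.1 hl
      refine ⟨m, n, ?_⟩
      rw [map_add, map_mul, map_mul, map_intCast, map_intCast]
  have h2 : (⟨(starRingEnd ℂ) L.ω₁, (starRingEnd ℂ) L.ω₂, qp1b_indep L⟩ : PeriodPair).g₂ = L.g₂ := by
    have e1 : (⟨(starRingEnd ℂ) L.ω₁, (starRingEnd ℂ) L.ω₂, qp1b_indep L⟩ : PeriodPair).g₂ =
        (starRingEnd ℂ) L.g₂ := by
      unfold PeriodPair.g₂
      rw [qp1b_G L _ h, map_mul, map_ofNat]
    rw [e1, hL.g2, map_div₀, map_intCast, map_ofNat]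
  have h3 : (⟨(starRingEnd ℂ) L.ω₁, (starRingEnd ℂ) L.ω₂, qp1b_indep L⟩ : PeriodPair).g₃ = L.g₃ := by
    have e1 : (⟨(starRingEnd ℂ) L.ω₁, (starRingEnd ℂ) L.ω₂, qp1b_indep L⟩ : PeriodPair).g₃ =
        (starRingEnd ℂ) L.g₃ := by
      unfold PeriodPair.g₃
      rw [qp1b_G L _ h, map_mul, map_ofNat]
    rw [e1, hL.g3, map_div₀, map_intCast, map_ofNat]
  have h4 := lat_eq _ L h2 h3
  rw [← h4]
  exact (h _).2 ⟨z, hz, rfl⟩

/-- Chunk QP1B (S). conj Om = Om a, conj again: Om = conj Om * conj (eF a) = Om a conj a, so a is a unit (the inverse is cj a; or Nm a = 1). -/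
theorem om_conj (hper : PerW F W Om) (hL : PerZ W L) : ∃ η : (𝓞 F)ˣ, (starRingEnd ℂ) Om = Om * eF F η := by
  have hne : Om ≠ 0 := hper.ne
  have h1 : Om ∈ L.lattice := (lat_W hper hL Om).2 ⟨1, by rw [map_one, mul_one]⟩
  obtain ⟨a, ha⟩ := (lat_W hper hL _).1 (lat_conj hL h1)
  have h2 : Om = Om * (eF F a * (starRingEnd ℂ) (eF F a)) := by
    have h3 := congrArg (starRingEnd ℂ) ha
    rw [Complex.conj_conj, map_mul, ha] at h3
    calc Om = Om * (eF F) a * (starRingEnd ℂ) ((eF F) a) := h3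
      _ = _ := by ring
  have h4 : eF F a * (starRingEnd ℂ) (eF F a) = 1 := by
    have h5 : Om * 1 = Om * (eF F a * (starRingEnd ℂ) (eF F a)) := by rw [mul_one]; exact h2
    exact (mul_left_cancel₀ hne h5).symm
  have h6 : a * cj a = 1 := by
    apply H55P.eF_inj
    rw [map_mul, e_cj, map_one, h4]
  exact ⟨Units.mkOfMulEqOne a (cj a) h6, ha⟩

end H55K.TQ
end
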