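import Mathlib

/-! Merged copies (to shorten the build) of Lib.H13D.E8, Lib.H55W.FD, Lib.H16C.TR2, Lib.H13Y.GN5, Lib.H13Y.YPG, Lib.H55K.NA3, Lib.H13D.P0, Lib.H28T.CC1A, Lib.H13Z.CZ4, Lib.H55W.D, Lib.H28R.W10, Lib.H28R.W19, Lib.H55W.S0, Lib.H55W.S1, Lib.H55W.S2, Lib.H55W.S3, Lib.H55W.S4, Lib.H35K.Defs, Lib.SSG.E.A5, Lib.H16S.Defs, Lib.H16S.A1, Lib.SSG.LT.FC, Lib.SSG.LT.PS, Lib.SSG.LT.FC2. -/

-- from Lib.H13D.E8
section

/-! # H13D, part E: Frobenius elements and square roots -/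

namespace H13D

theorem e8_int {Ω : Type} [Field Ω] (V : ValuationSubring Ω) (k : ℤ) : V.valuation (k : Ω) ≤ 1 :=
  (V.valuation_le_one_iff _).2 (intCast_mem V k)

theorem e8_dvd {Ω : Type} [Field Ω] (V : ValuationSubring Ω) {p : ℕ} (hp : p.Prime) (hpV : V.valuation (p : Ω) < 1) (k : ℤ) :
    V.valuation (k : Ω) < 1 ↔ (p : ℤ) ∣ k := by
  constructor
  · intro h
    by_contra hk
    have hco : IsCoprime (p : ℤ) k := (Prime.coprime_iff_not_dvd (Nat.prime_iff_prime_int.1 hp)).2 hk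
    obtain ⟨a, b, hab⟩ := hco
    have h1 : ((a * p + b * k : ℤ) : Ω) = 1 := by rw [hab, Int.cast_one]
    have h2 : V.valuation ((a * p + b * k : ℤ) : Ω) < 1 := by
      push_cast
      refine V.valuation.map_add_lt ?_ ?_
      · rw [mul_comm, map_mul]
        exact mul_lt_one_of_lt_of_le hpV (e8_int V a)
      · rw [mul_comm, map_mul]
        exact mul_lt_one_of_lt_of_le h (e8_int V b)
    rw [h1, map_one] at h2
    exact lt_irrefl _ h2
  · rintro ⟨c, rfl⟩
    push_cast
    rw [map_mul]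
    exact mul_lt_one_of_lt_of_le hpV (e8_int V c)

theorem e8_euler {p : ℕ} (hp : p.Prime) (h2 : p ≠ 2) {d : ℤ} (n : ℕ) :
    ∃ m : ℕ, p ^ n = 2 * m + 1 ∧ (p : ℤ) ∣ jacobiSym d p ^ n - d ^ m := by
  have : Fact p.Prime := ⟨hp⟩
  have hodd : p % 2 = 1 := (hp.eq_two_or_odd).resolve_left h2
  induction n with
  | zero => exact ⟨0, by simp, by simp⟩
  | succ n ih =>
    obtain ⟨m, hm, hdv⟩ := ih
    refine ⟨p * m + p / 2, ?_, ?_⟩
    · rw [pow_succ, hm]
      have : p = 2 * (p / 2) + 1 := by omega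
      calc (2 * m + 1) * p = 2 * (p * m) + p := by ring
        _ = 2 * (p * m) + (2 * (p / 2) + 1) := by rw [← this]
        _ = 2 * (p * m + p / 2) + 1 := by ring
    · rw [← ZMod.intCast_zmod_eq_zero_iff_dvd] at hdv ⊢
      push_cast at hdv ⊢
      rw [sub_eq_zero] at hdv ⊢
      rw [pow_succ, hdv, pow_add, pow_mul', ZMod.pow_card, ← jacobiSym.legendreSym.to_jacobiSym, legendreSym.eq_pow]

/-- Chunk E8. Frobenius and square roots at an odd prime. -/
theorem frob_odd {Ω : Type} [Field Ω] (V : ValuationSubring Ω) {p : ℕ} (hp : p.Prime) (h2 : p ≠ 2)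
    (hpV : V.valuation (p : Ω) < 1) {d : ℤ} (hd : ¬ (p : ℤ) ∣ d) {w : Ω} (hw : w ^ 2 = (d : Ω)) (s : Ω →+* Ω) {n : ℕ}
    (hs : ∀ x ∈ V, V.valuation (s x - x ^ p ^ n) < 1) {η : ℤ} (hη : η = 1 ∨ η = -1) (hsw : s w = η * w) :
    η = jacobiSym d p ^ n := by
  have hvd : V.valuation (d : Ω) = 1 := by
    refine le_antisymm (e8_int V d) ?_
    rw [← not_lt, e8_dvd V hp hpV]
    exact hd
  have hvw : V.valuation w = 1 := by
    have h1 : V.valuation w ^ 2 = 1 := by rw [← map_pow, hw, hvd]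
    exact (pow_eq_one_iff_of_nonneg zero_le two_ne_zero).1 h1
  obtain ⟨m, hm, hdv⟩ := e8_euler hp h2 (d := d) n
  have h1 := hs w ((V.valuation_le_one_iff _).1 hvw.le)
  have h3 : s w - w ^ p ^ n = w * ((η - d ^ m : ℤ) : Ω) := by
    rw [hsw, hm, pow_succ, pow_mul, hw]
    push_cast
    ring
  rw [h3, map_mul, hvw, one_mul, e8_dvd V hp hpV] at h1
  have h4 : (p : ℤ) ∣ η - jacobiSym d p ^ n := by
    have h5 : η - jacobiSym d p ^ n = (η - d ^ m) - (jacobiSym d p ^ n - d ^ m) := by ring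
    rw [h5]
    exact dvd_sub h1 hdv
  have hco : IsCoprime d (p : ℤ) := by
    rw [isCoprime_comm]
    exact (Prime.coprime_iff_not_dvd (Nat.prime_iff_prime_int.1 hp)).2 hd
  have hj : jacobiSym d p = 1 ∨ jacobiSym d p = -1 := by
    refine jacobiSym.eq_one_or_neg_one ?_
    rw [← Int.isCoprime_iff_gcd_eq_one]
    exact hco
  have hj' : jacobiSym d p ^ n = 1 ∨ jacobiSym d p ^ n = -1 := by
    rcases hj with h | h
    · left
      rw [h, one_pow]
    · rw [h]
      exact neg_one_pow_eq_or ℤ n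
  have hp3 : 3 ≤ p := by
    have := hp.two_le
    omega
  have hle : |η - jacobiSym d p ^ n| < p := by
    rcases hη with h | h <;> rcases hj' with h' | h' <;> rw [h, h'] <;> norm_num <;> omega
  exact sub_eq_zero.1 (Int.eq_zero_of_abs_lt_dvd h4 hle)

/-- Chunk E8. Frobenius and square roots at 2. -/
theorem frob_two {Ω : Type} [Field Ω] (V : ValuationSubring Ω) (h2 : (2 : Ω) ≠ 0) (hV : V.valuation (2 : Ω) < 1) {d : ℤ} (hd : d % 4 = 1)
    {w : Ω} (hw : w ^ 2 = (d : Ω)) (s : Ω →+* Ω) {n : ℕ} (hs : ∀ x ∈ V, V.valuation (s x - x ^ 2 ^ n) < 1) {η : ℤ}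
    (hη : η = 1 ∨ η = -1) (hsw : s w = η * w) : (Even n → η = 1) ∧ (Odd n → (η = 1 ↔ d % 8 = 1)) := by
  obtain ⟨c, rfl⟩ : ∃ c : ℤ, d = 1 + 4 * c := ⟨d / 4, by omega⟩
  have hpV : V.valuation ((2 : ℕ) : Ω) < 1 := by
    rw [Nat.cast_ofNat]
    exact hV
  have hdvd := e8_dvd V Nat.prime_two hpV
  have hint := e8_int V
  set α : Ω := (1 + w) / 2 with hα
  have hα2 : α ^ 2 = α + (c : Ω) := by
    have h3 : (1 + w) = 2 * α := by
      rw [hα]
      field_simp
    have h4 : w = 2 * α - 1 := by linear_combination h3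
    rw [h4] at hw
    push_cast at hw
    have h5 : (2 * 2) * (α ^ 2 - (α + (c : Ω))) = 0 := by linear_combination hw
    rcases mul_eq_zero.1 h5 with h6 | h6
    · rcases mul_eq_zero.1 h6 with h7 | h7 <;> exact absurd h7 h2
    · exact sub_eq_zero.1 h6
  have hvα : V.valuation α ≤ 1 := by
    by_contra hc
    rw [not_le] at hc
    have h3 : V.valuation (α ^ 2) ≤ max (V.valuation α) (V.valuation (c : Ω)) := by
      rw [hα2]
      exact V.valuation.map_add _ _
    rw [max_eq_left ((hint c).trans hc.le), map_pow, sq] at h3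
    have h4 : V.valuation α * 1 < V.valuation α * V.valuation α :=
      mul_lt_mul_of_pos_left hc (zero_lt_one.trans hc)
    rw [mul_one] at h4
    exact absurd h3 (not_le.2 h4)
  have hpow : ∀ k : ℕ, V.valuation (α ^ 2 ^ k - (α + ((k * c : ℤ) : Ω))) < 1 := by
    intro k
    induction k with
    | zero => simp
    | succ k ih =>
      set a := α ^ 2 ^ k with ha
      set b := α + ((k * c : ℤ) : Ω) with hb
      have hva : V.valuation a ≤ 1 := by
        rw [ha, map_pow]
        exact pow_le_one₀ zero_le hvα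
      have hvb : V.valuation b ≤ 1 := (V.valuation.map_add _ _).trans (max_le hvα (hint _))
      have he : α ^ 2 ^ (k + 1) - (α + (((k + 1 : ℕ) * c : ℤ) : Ω)) =
          (a - b) * (a + b) + (2 * (α * ((k * c : ℤ) : Ω)) + (((k * c) ^ 2 - k * c : ℤ) : Ω)) := by
        have h3 : α ^ 2 ^ (k + 1) = a ^ 2 := by
          rw [ha, ← pow_mul, pow_succ]
        rw [h3, hb]
        push_cast
        linear_combination (1 : Ω) * hα2
      rw [he]
      refine V.valuation.map_add_lt ?_ (V.valuation.map_add_lt ?_ ?_)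
      · rw [map_mul]
        exact mul_lt_one_of_lt_of_le ih ((V.valuation.map_add _ _).trans (max_le hva hvb))
      · rw [map_mul]
        refine mul_lt_one_of_lt_of_le hV ?_
        rw [map_mul]
        exact mul_le_one' hvα (hint _)
      · rw [hdvd]
        have h4 : ((k : ℤ) * c) ^ 2 - k * c = (k * c) * (k * c - 1) := by ring
        rw [h4]
        have h5 := Int.even_mul_pred_self ((k : ℤ) * c)
        exact_mod_cast h5.two_dvd
  have h6 := hs α ((V.valuation_le_one_iff _).1 hvα)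
  have h7 : V.valuation (s α - (α + ((n * c : ℤ) : Ω))) < 1 := by
    have h8 : s α - (α + ((n * c : ℤ) : Ω)) = (s α - α ^ 2 ^ n) + (α ^ 2 ^ n - (α + ((n * c : ℤ) : Ω))) := by ring
    rw [h8]
    exact V.valuation.map_add_lt h6 (hpow n)
  have hsα : s α = (1 + η * w) / 2 := by
    rw [hα, map_div₀, map_add, map_one, hsw, map_ofNat]
  have key : (η = 1 → (2 : ℤ) ∣ n * c) ∧ (η = -1 → (2 : ℤ) ∣ n * c - 1) := by
    constructor
    · rintro rfl
      have h9 : s α - (α + ((n * c : ℤ) : Ω)) = ((-(n * c) : ℤ) : Ω) := by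
        rw [hsα, hα]
        push_cast
        ring
      rw [h9, hdvd] at h7
      exact_mod_cast (dvd_neg.1 h7)
    · rintro rfl
      have h9 : s α - (α + ((n * c : ℤ) : Ω)) = ((-(n * c - 1) : ℤ) : Ω) - 2 * α := by
        rw [hsα, hα]
        push_cast
        field_simp
        ring
      have h10 : V.valuation (2 * α) < 1 := by
        rw [map_mul]
        exact mul_lt_one_of_lt_of_le hV hvα
      have h11 : V.valuation ((-(n * c - 1) : ℤ) : Ω) < 1 := by
        have h12 : ((-(n * c - 1) : ℤ) : Ω) = (s α - (α + ((n * c : ℤ) : Ω))) + 2 * α := by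
          rw [h9]
          ring
        rw [h12]
        exact V.valuation.map_add_lt h7 h10
      rw [hdvd] at h11
      exact_mod_cast (dvd_neg.1 h11)
  constructor
  · rintro ⟨k, rfl⟩
    rcases hη with h | h
    · exact h
    · exfalso
      have h12 := key.2 h
      push_cast at h12
      have h13 : ((k : ℤ) + k) * c - 1 = 2 * (k * c) - 1 := by ring
      omega
  · rintro ⟨k, rfl⟩
    have e : ((2 * k + 1 : ℕ) : ℤ) * c = 2 * (k * c) + c := by
      push_cast
      ring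
    rw [e] at key
    rcases hη with h | h
    · have h12 := key.1 h
      constructor
      · intro _
        omega
      · intro _
        exact h
    · have h12 := key.2 h
      constructor
      · intro h13
        omega
      · intro h13
        exfalso
        omega

end H13D
end

-- from Lib.H55W.FD
section

/-! # H55W, part F: functions which define Hecke characters -/

open NumberField IsDedekindDomain

namespace H55W

/-- The conditions of exists_hecke on the function f. -/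
structure HF {F : Type} [Field F] [NumberField F] (M : Ideal (𝓞 F)) (f : 𝓞 F → 𝓞 F) : Prop where
  un : ∀ x, IsCoprime (Ideal.span {x}) M → IsUnit (f x)
  mul : ∀ x y, IsCoprime (Ideal.span {x}) M → IsCoprime (Ideal.span {y}) M → f (x * y) = f x * f y
  inv : ∀ u x : 𝓞 F, IsUnit u → IsCoprime (Ideal.span {x}) M → f (u * x) * u = f x
  per : ∀ x y, IsCoprime (Ideal.span {x}) M → IsCoprime (Ideal.span {y}) M → x - y ∈ M → f x = f y

end H55W
end

-- from Lib.H16C.TR2
section

/-!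
# TR2 (S/M): the decomposition groups of the infinite places

`L = v.Completion` is isomorphic to `ℝ` or `ℂ` (Mathlib `NumberField.InfinitePlace.Completion`:
`ringEquivRealOfIsReal`, `ringEquivComplexOfIsComplex`).  In both cases every element `x` of
`AlgebraicClosure L` has the form `a + b i` with `a, b ∈ L`, `i² = -1`: transport the statement that
`ℂ = ℝ(i)` is algebraically closed: `L(i) ⊆ AlgebraicClosure L` is isomorphic to `ℂ`, so it is
algebraically closed and equal to `AlgebraicClosure L` (algebraic over it).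
Let `i = ι I`: `σ i = σ(ι I) = ι(g I) = ι I = i`, so `σ = 1`, `ι(g x) = ι x`, `g = 1`.
`exists_restrict`: for every `σ` there is `g` with `ι (g x) = σ (ι x)`: `ι(Ω)` is the set of the
elements of `AlgebraicClosure L` algebraic over `K` (`Ω` algebraically closed, `Ω/K` algebraic), stable
under `σ`; e.g. `AlgHom.restrictNormal` for `σ` on `ι(Ω)`, or: `σ ∘ ι` and `ι` are two embeddings of the
normal extension `Ω/K`, they have the same image.
-/

open NumberField

namespace H16C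

theorem TR2_real {L : Type*} [Field L] (e : L ≃+* ℝ) (i : AlgebraicClosure L) (hi : i ^ 2 = -1)
    (σ : AlgebraicClosure L ≃ₐ[L] AlgebraicClosure L) (hσ : σ i = i) (x : AlgebraicClosure L) :
    σ x = x := by
  let algR : Algebra L ℝ := (e : L →+* ℝ).toAlgebra
  let algC : Algebra L ℂ := ((algebraMap ℝ ℂ).comp (e : L →+* ℝ)).toAlgebra
  have hR : ∀ l : L, algebraMap L ℝ l = e l := fun _ => rfl
  have htow : IsScalarTower L ℝ ℂ := IsScalarTower.of_algebraMap_eq fun _ => rfl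
  have h1 : Algebra.IsAlgebraic L ℝ := ⟨fun r => by
    have h2 : r = algebraMap L ℝ (e.symm r) := by rw [hR, RingEquiv.apply_symm_apply]
    rw [h2]
    exact isAlgebraic_algebraMap _⟩
  have h2 : Algebra.IsAlgebraic L ℂ := Algebra.IsAlgebraic.trans L ℝ ℂ
  have h3 : IsAlgClosure L ℂ := ⟨inferInstance, h2⟩
  let φ : AlgebraicClosure L ≃ₐ[L] ℂ := IsAlgClosure.equiv L _ _
  have hφL : ∀ l : L, φ (algebraMap L _ l) = ((e l : ℝ) : ℂ) := fun l => φ.commutes l
  have hsplit : x = algebraMap L _ (e.symm (φ x).re) + algebraMap L _ (e.symm (φ x).im) *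
      φ.symm Complex.I := by
    apply φ.injective
    rw [map_add, map_mul, hφL, hφL, AlgEquiv.apply_symm_apply, RingEquiv.apply_symm_apply,
      RingEquiv.apply_symm_apply]
    exact (Complex.re_add_im (φ x)).symm
  have hI : φ.symm Complex.I = i ∨ φ.symm Complex.I = -i := by
    have h4 : (φ.symm Complex.I) ^ 2 = i ^ 2 := by
      rw [hi, ← map_pow, Complex.I_sq, map_neg, map_one]
    exact sq_eq_sq_iff_eq_or_eq_neg.1 h4
  have hσI : σ (φ.symm Complex.I) = φ.symm Complex.I := by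
    rcases hI with h | h
    · rw [h, hσ]
    · rw [h, map_neg, hσ]
  rw [hsplit, map_add, map_mul, σ.commutes, σ.commutes, hσI]

theorem TR2_complex {L : Type*} [Field L] (e : L ≃+* ℂ)
    (σ : AlgebraicClosure L ≃ₐ[L] AlgebraicClosure L) (x : AlgebraicClosure L) : σ x = x := by
  let algC : Algebra L ℂ := (e : L →+* ℂ).toAlgebra
  have hC : ∀ l : L, algebraMap L ℂ l = e l := fun _ => rfl
  have h1 : Algebra.IsAlgebraic L ℂ := ⟨fun r => by
    have h2 : r = algebraMap L ℂ (e.symm r) := by rw [hC, RingEquiv.apply_symm_apply]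
    rw [h2]
    exact isAlgebraic_algebraMap _⟩
  have h3 : IsAlgClosure L ℂ := ⟨inferInstance, h1⟩
  let φ : AlgebraicClosure L ≃ₐ[L] ℂ := IsAlgClosure.equiv L _ _
  have hφL : ∀ l : L, φ (algebraMap L _ l) = e l := fun l => φ.commutes l
  have hx : x = algebraMap L _ (e.symm (φ x)) := by
    apply φ.injective
    rw [hφL, RingEquiv.apply_symm_apply]
  rw [hx, σ.commutes]

theorem place_inf {K : Type*} [Field K] [NumberField K] {Ω : Type*} [Field Ω] [Algebra K Ω]
    (v : InfinitePlace K) (ι : Ω →ₐ[K] AlgebraicClosure v.Completion) (I : Ω) (hI : I ^ 2 = -1)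
    (σ : AlgebraicClosure v.Completion ≃ₐ[v.Completion] AlgebraicClosure v.Completion)
    (g : Ω ≃ₐ[K] Ω) (h : ∀ x, ι (g x) = σ (ι x)) (hg : g I = I) : g = 1 := by
  have hσ : ∀ x, σ x = x := by
    intro x
    rcases v.isReal_or_isComplex with hv | hv
    · refine TR2_real (InfinitePlace.Completion.ringEquivRealOfIsReal hv) (ι I) ?_ σ ?_ x
      · rw [← map_pow, hI, map_neg, map_one]
      · rw [← h, hg]
    · exact TR2_complex (InfinitePlace.Completion.ringEquivComplexOfIsComplex hv) σ x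
  have hinj : Function.Injective ι := (ι : Ω →+* AlgebraicClosure v.Completion).injective
  ext x
  apply hinj
  rw [h, hσ]
  rfl

theorem exists_restrict {K : Type*} [Field K] {Ω : Type*} [Field Ω] [Algebra K Ω] [IsAlgClosed Ω]
    [Algebra.IsAlgebraic K Ω] {L : Type*} [Field L] [Algebra K L] (ι : Ω →ₐ[K] AlgebraicClosure L)
    (σ : AlgebraicClosure L ≃ₐ[L] AlgebraicClosure L) :
    ∃! g : Ω ≃ₐ[K] Ω, ∀ x, ι (g x) = σ (ι x) := by
  let alg : Algebra Ω (AlgebraicClosure L) := (ι : Ω →+* AlgebraicClosure L).toAlgebra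
  have htow : IsScalarTower K Ω (AlgebraicClosure L) :=
    IsScalarTower.of_algebraMap_eq fun x => (ι.commutes x).symm
  have h1 : IsAlgClosure K Ω := ⟨inferInstance, inferInstance⟩
  have h2 : Normal K Ω := IsAlgClosure.normal K Ω
  let σ' : AlgebraicClosure L ≃ₐ[K] AlgebraicClosure L := σ.restrictScalars K
  refine ⟨σ'.restrictNormal Ω, fun x => AlgEquiv.restrictNormal_commutes σ' Ω x, ?_⟩
  intro g hg
  have hinj : Function.Injective ι := (ι : Ω →+* AlgebraicClosure L).injective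
  ext x
  apply hinj
  rw [hg]
  exact (AlgEquiv.restrictNormal_commutes σ' Ω x).symm

end H16C
end

-- from Lib.H13Y.GN5
section

open NumberField

namespace H13Y

theorem gn5_real {L : Type} [Field L] [NumberField L] (hc : ∀ w : InfinitePlace L, w.IsComplex)
    (b : InfinitePlace L → ℝ)
    (h : ∀ u : (𝓞 L)ˣ, ∑ w : InfinitePlace L, b w * Real.log (w ((u : 𝓞 L) : L)) = 0)
    (w w' : InfinitePlace L) : b w = b w' := by
  classical
  obtain ⟨w₁, hw₁⟩ := Finite.exists_max b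
  obtain ⟨u, hu⟩ := NumberField.Units.dirichletUnitTheorem.exists_unit L w₁
  have h0 : ∑ w : InfinitePlace L, Real.log (w ((u : 𝓞 L) : L)) = 0 := by
    have h1 := NumberField.Units.sum_mult_mul_log u
    have h2 : ∀ w : InfinitePlace L, (w.mult : ℝ) * Real.log (w ((u : 𝓞 L) : L)) = 2 * Real.log (w ((u : 𝓞 L) : L)) := by
      intro w
      rw [InfinitePlace.mult, if_neg (InfinitePlace.not_isReal_iff_isComplex.2 (hc w))]
      norm_num
    simp only [h2] at h1
    rw [← Finset.mul_sum] at h1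
    linarith
  have h3 : ∑ w : InfinitePlace L, (b w - b w₁) * Real.log (w ((u : 𝓞 L) : L)) = 0 := by
    simp only [sub_mul]
    rw [Finset.sum_sub_distrib, h u, ← Finset.mul_sum, h0]
    ring
  have h4 : ∀ w ∈ (Finset.univ : Finset (InfinitePlace L)), 0 ≤ (b w - b w₁) * Real.log (w ((u : 𝓞 L) : L)) := by
    intro w _
    by_cases e : w = w₁
    · rw [e, sub_self, zero_mul]
    · exact mul_nonneg_of_nonpos_of_nonpos (sub_nonpos.2 (hw₁ w)) (hu w e).le
  have h5 : ∀ w, b w = b w₁ := by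
    intro w
    by_cases e : w = w₁
    · rw [e]
    · have h6 := (Finset.sum_eq_zero_iff_of_nonneg h4).1 h3 w (Finset.mem_univ w)
      rcases mul_eq_zero.1 h6 with h7 | h7
      · linarith
      · exact absurd h7 (hu w e).ne
  rw [h5 w, h5 w']

/-- Chunk GN5 (S/M). The only relations between the logarithms of units. First b real: w₁ with b w₁ maximal (Finite (InfinitePlace L)), Mathlib NumberField.Units.dirichletUnitTheorem.exists_unit w₁: a unit u with log (w u) < 0 for all w ≠ w₁. Product formula for units (NumberField.InfinitePlace.prod_eq_abs_norm and Units.norm / sum_mult_mul_log; mult = 2 at complex places): sum over w of log (w u) = 0.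
So 0 = sum of b w log (w u) = sum over w ≠ w₁ of (b w - b w₁) log (w u), a sum of terms ≥ 0: all are 0 and b w = b w₁. For complex b take real and imaginary parts. -/
theorem dir_rel {L : Type} [Field L] [NumberField L] (hc : ∀ w : InfinitePlace L, w.IsComplex)
    (b : InfinitePlace L → ℂ)
    (h : ∀ u : (𝓞 L)ˣ, ∑ w : InfinitePlace L, b w * (Real.log (w ((u : 𝓞 L) : L)) : ℂ) = 0)
    (w w' : InfinitePlace L) : b w = b w' := by
  apply Complex.ext
  · refine gn5_real hc (fun w => (b w).re) (fun u => ?_) w w'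
    have h1 := congrArg Complex.re (h u)
    rw [Complex.re_sum] at h1
    simpa using h1
  · refine gn5_real hc (fun w => (b w).im) (fun u => ?_) w w'
    have h1 := congrArg Complex.im (h u)
    rw [Complex.im_sum] at h1
    simpa using h1

end H13Y
end

-- from Lib.H13Y.YPG
section

/-!
# H13Y: two pigeonhole lemmas
-/

namespace H13Y

variable {Ω : Type} [Field Ω]

/-- Chunk YPG1 (S). f i = a class j with V (a i - r j) < 1 (hr); f is injective (if f i = f i' then V (a i - a i') < 1), so surjective (Finite.injective_iff_surjective); the class j of x is f i for some i, V (x - a i) < 1. -/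
theorem pigeon (V : ValuationSubring Ω) {q : ℕ} (S : Set Ω) (r a : Fin q → Ω)
    (hr : ∀ x ∈ S, x ∈ V → ∃ i, V.valuation (x - r i) < 1) (ha : ∀ i, a i ∈ S ∧ V.valuation (a i) ≤ 1)
    (hinj : ∀ i i', i ≠ i' → ¬ V.valuation (a i - a i') < 1) {x : Ω} (hx : x ∈ S)
    (hx1 : V.valuation x ≤ 1) : ∃ i, V.valuation (x - a i) < 1 := by
  have h1 : ∀ i, ∃ j, V.valuation (a i - r j) < 1 := fun i =>
    hr (a i) (ha i).1 ((V.valuation_le_one_iff _).1 (ha i).2)
  choose f hf using h1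
  have hfi : Function.Injective f := by
    intro i i' h
    by_contra hne
    apply hinj i i' hne
    have e : a i - a i' = (a i - r (f i)) - (a i' - r (f i')) := by
      rw [h]
      ring
    rw [e]
    exact lt_of_le_of_lt (Valuation.map_sub _ _ _) (max_lt (hf i) (hf i'))
  obtain ⟨j, hj⟩ := hr x hx ((V.valuation_le_one_iff _).1 hx1)
  obtain ⟨i, hi⟩ := (Finite.injective_iff_surjective.1 hfi) j
  refine ⟨i, ?_⟩
  have e : x - a i = (x - r j) - (a i - r (f i)) := by
    rw [hi]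
    ring
  rw [e]
  exact lt_of_le_of_lt (Valuation.map_sub _ _ _) (max_lt hj (hf i))

/-- Chunk YPG2 (S/M). In the residue field k of V the polynomial X^q - n X (q ≥ 2: not zero, degree q) has at most q roots (card_roots), and the classes of the x i are q distinct roots; the class of z is a root, so it is one of them. (IsLocalRing.residue V; residue = 0 iff V.valuation < 1: IsLocalRing.residue_eq_zero_iff, ValuationSubring.valuation_lt_one_iff.) -/
theorem pigeon2 (V : ValuationSubring Ω) {q n : ℕ} (hq : 2 ≤ q) (x : Fin q → Ω)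
    (hx : ∀ i, V.valuation (x i) ≤ 1 ∧ V.valuation (x i ^ q - n * x i) < 1)
    (hinj : ∀ i i', i ≠ i' → ¬ V.valuation (x i - x i') < 1) {z : Ω} (hz : V.valuation z ≤ 1)
    (h : V.valuation (z ^ q - n * z) < 1) : ∃ i, V.valuation (z - x i) < 1 := by
  classical
  have hres : ∀ y : V, IsLocalRing.residue V y = 0 ↔ V.valuation (y : Ω) < 1 := by
    intro y
    rw [IsLocalRing.residue_eq_zero_iff, V.valuation_lt_one_iff]
  have hmem : ∀ i, x i ∈ V := fun i => (V.valuation_le_one_iff _).1 (hx i).1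
  have hzV : z ∈ V := (V.valuation_le_one_iff _).1 hz
  obtain ⟨P, hP⟩ : ∃ P : Polynomial (IsLocalRing.ResidueField V),
      P = Polynomial.X ^ q - Polynomial.C (n : IsLocalRing.ResidueField V) * Polynomial.X := ⟨_, rfl⟩
  obtain ⟨k, rfl⟩ : ∃ k, q = k + 1 := ⟨q - 1, by omega⟩
  have hPm : P.Monic := by
    rw [hP]
    apply Polynomial.monic_X_pow_sub
    refine lt_of_le_of_lt (Polynomial.degree_C_mul_X_le (n : IsLocalRing.ResidueField V)) ?_
    exact_mod_cast (by omega : 1 < k + 1)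
  have hPd : P.natDegree ≤ k + 1 := by
    rw [hP]
    refine (Polynomial.natDegree_sub_le _ _).trans (max_le ?_ ?_)
    · exact Polynomial.natDegree_X_pow_le _
    · refine le_trans (Polynomial.natDegree_C_mul_le _ _) ?_
      refine le_trans Polynomial.natDegree_X_le ?_
      omega
  have hroot : ∀ y : V, V.valuation ((y : Ω) ^ (k + 1) - n * y) < 1 → IsLocalRing.residue V y ∈ P.roots.toFinset := by
    intro y hy
    rw [Multiset.mem_toFinset, Polynomial.mem_roots hPm.ne_zero, Polynomial.IsRoot, hP]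
    rw [Polynomial.eval_sub, Polynomial.eval_pow, Polynomial.eval_X, Polynomial.eval_mul, Polynomial.eval_C,
      Polynomial.eval_X]
    have h1 := (hres (y ^ (k + 1) - n * y)).2 (by push_cast; exact hy)
    rw [map_sub, map_pow, map_mul, map_natCast] at h1
    exact h1
  by_contra hcon
  push Not at hcon
  have hinj2 : Function.Injective (fun i => IsLocalRing.residue V (⟨x i, hmem i⟩ : V)) := by
    intro i i' hi
    by_contra hne
    apply hinj i i' hne
    have h1 : IsLocalRing.residue V ((⟨x i, hmem i⟩ : V) - ⟨x i', hmem i'⟩) = 0 := by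
      rw [map_sub, sub_eq_zero]
      exact hi
    exact (hres _).1 h1
  have hz2 : IsLocalRing.residue V (⟨z, hzV⟩ : V) ∉
      Finset.univ.image (fun i => IsLocalRing.residue V (⟨x i, hmem i⟩ : V)) := by
    intro hh
    obtain ⟨i, -, hi⟩ := Finset.mem_image.1 hh
    have h1 : IsLocalRing.residue V ((⟨z, hzV⟩ : V) - ⟨x i, hmem i⟩) = 0 := by
      rw [map_sub, sub_eq_zero]
      exact hi.symm
    exact absurd ((hres _).1 h1) (not_lt.2 (hcon i))
  have hsub : insert (IsLocalRing.residue V (⟨z, hzV⟩ : V))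
      (Finset.univ.image (fun i => IsLocalRing.residue V (⟨x i, hmem i⟩ : V))) ⊆ P.roots.toFinset := by
    intro y hy
    rw [Finset.mem_insert, Finset.mem_image] at hy
    rcases hy with rfl | ⟨i, -, rfl⟩
    · exact hroot _ h
    · exact hroot _ (hx i).2
  have h1 := Finset.card_le_card hsub
  rw [Finset.card_insert_of_notMem hz2, Finset.card_image_of_injective _ hinj2, Finset.card_univ,
    Fintype.card_fin] at h1
  have h2 := Multiset.toFinset_card_le P.roots
  have h3 := P.card_roots'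
  omega

end H13Y
end

-- from Lib.H55K.NA3
section

/-! # H55K, part N: Sah's lemma for a commuting action without fixed points (pure algebra) -/

namespace H55K.NB

/-- Commutative algebra: an ideal without nonzero killed elements in a finite module contains an element acting as 1. -/
theorem na3_one {R A : Type*} [CommRing R] [AddCommGroup A] [Module R A] [Finite A] (J : Ideal R)
    (h0 : ∀ x : A, (∀ j ∈ J, j • x = 0) → x = 0) : ∃ j ∈ J, ∀ x : A, j • x = x := by
  -- the decreasing chain J^k A is stationary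
  have hanti : Antitone fun k : ℕ => (J ^ k • (⊤ : Submodule R A)) := by
    intro a b hab
    exact Submodule.smul_mono_left (Ideal.pow_le_pow_right hab)
  have hfinS : Finite (Submodule R A) := Finite.of_injective (fun N : Submodule R A => (N : Set A)) SetLike.coe_injective
  obtain ⟨k, hk⟩ : ∃ k : ℕ, (J ^ k • (⊤ : Submodule R A)) = J ^ (k + 1) • ⊤ := by
    obtain ⟨a, b, hab, he⟩ := Finite.exists_ne_map_eq_of_infinite fun k : ℕ => (J ^ k • (⊤ : Submodule R A))
    have key : ∀ a b : ℕ, a < b → J ^ a • (⊤ : Submodule R A) = J ^ b • ⊤ →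
        J ^ a • (⊤ : Submodule R A) = J ^ (a + 1) • ⊤ :=
      fun a b hab he => le_antisymm (he.le.trans (hanti (Nat.succ_le_of_lt hab))) (hanti (Nat.le_succ a))
    rcases lt_or_gt_of_ne hab with h | h
    · exact ⟨a, key a b h he⟩
    · exact ⟨b, key b a h he.symm⟩
  set B : Submodule R A := J ^ k • (⊤ : Submodule R A) with hB
  have hBfg : B.FG := (Submodule.fg_def).2 ⟨(B : Set A), Set.toFinite _, Submodule.span_eq B⟩
  have hle : B ≤ J • B := by
    rw [hB, ← mul_smul, ← pow_succ', ← hk]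
  obtain ⟨r, hr1, hr2⟩ := Submodule.exists_sub_one_mem_and_smul_eq_zero_of_fg_of_le_smul J B hBfg hle
  have hkill : ∀ (i : ℕ) (y : A), (∀ a ∈ J ^ i, a • y = 0) → y = 0 := by
    intro i
    induction i with
    | zero =>
      intro y hy
      have := hy 1 (by rw [pow_zero, Ideal.one_eq_top]; exact Submodule.mem_top)
      rwa [one_smul] at this
    | succ i ih =>
      intro y hy
      apply ih
      intro a ha
      apply h0
      intro j hj
      rw [← mul_smul]
      exact hy _ (by rw [pow_succ']; exact Ideal.mul_mem_mul hj ha)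
  refine ⟨1 - r, by rw [← neg_sub]; exact J.neg_mem hr1, fun x => ?_⟩
  rw [sub_smul, one_smul, sub_eq_self]
  apply hkill k
  intro a ha
  rw [← mul_smul, mul_comm, mul_smul]
  exact hr2 _ (Submodule.smul_mem_smul ha Submodule.mem_top)

variable {G M : Type} [Group G] [AddCommGroup M]

/-- Sah's lemma. -/
theorem sah (ρ : G →* AddMonoid.End M) (p : ℕ) (hfin : {T : M | p • T = 0}.Finite) (I : Subgroup G)
    (hcomm : ∀ s ∈ I, ∀ t ∈ I, ∀ T : M, p • T = 0 → ρ s (ρ t T) = ρ t (ρ s T))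
    (h0 : ∀ T : M, p • T = 0 → (∀ s ∈ I, ρ s T = T) → T = 0) (c : G → M)
    (hc : ∀ s ∈ I, ∀ t ∈ I, c (s * t) = c s + ρ s (c t)) (hpc : ∀ s ∈ I, p • c s = 0)
    (hk : ∀ s ∈ I, ∀ t ∈ I, c (s * t * s⁻¹ * t⁻¹) = 0) :
    ∃ P : M, p • P = 0 ∧ ∀ s ∈ I, c s = ρ s P - P := by
  classical
  have hMul : ∀ (a b : G) (x : M), ρ (a * b) x = ρ a (ρ b x) := by
    intro a b x
    rw [map_mul]
    rfl
  have hone : ∀ x : M, ρ 1 x = x := fun x => by rw [map_one]; rfl
  let A : AddSubgroup M :=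
    { carrier := {T | p • T = 0}
      add_mem' := fun {a b} ha hb => by
        change p • (a + b) = 0
        rw [smul_add, show p • a = 0 from ha, show p • b = 0 from hb, add_zero]
      zero_mem' := smul_zero p
      neg_mem' := fun {a} ha => by
        change p • (-a) = 0
        rw [smul_neg, show p • a = 0 from ha, neg_zero] }
  have : Finite A := hfin.to_subtype
  have hA : ∀ (g : G) (x : A), p • ρ g (x : M) = 0 := by
    intro g x
    rw [← map_nsmul, show p • (x : M) = 0 from x.2, map_zero]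
  let ψ : G → AddMonoid.End A := fun g =>
    { toFun := fun x => ⟨ρ g x, hA g x⟩
      map_zero' := Subtype.ext (map_zero (ρ g))
      map_add' := fun x y => Subtype.ext (map_add (ρ g) _ _) }
  have hψ : ∀ g (x : A), ((ψ g x : A) : M) = ρ g x := fun _ _ => rfl
  let S : Set (AddMonoid.End A) := ψ '' (I : Set G)
  have hS : ∀ x ∈ S, ∀ y ∈ S, x * y = y * x := by
    rintro _ ⟨s, hs, rfl⟩ _ ⟨t, ht, rfl⟩
    ext x
    exact hcomm s hs t ht x x.2
  let _ : CommRing (Subring.closure S) := Subring.closureCommRingOfComm hS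
  let e : G → Subring.closure S := fun g => if h : g ∈ I then ⟨ψ g, Subring.subset_closure ⟨g, h, rfl⟩⟩ else 0
  have he : ∀ g ∈ I, ∀ x : A, e g • x = ψ g x := by
    intro g hg x
    have : e g = ⟨ψ g, Subring.subset_closure ⟨g, hg, rfl⟩⟩ := dif_pos hg
    rw [this]
    rfl
  let J : Ideal (Subring.closure S) := Ideal.span {a | ∃ g ∈ I, a = e g - 1}
  have hJ0 : ∀ x : A, (∀ j ∈ J, j • x = 0) → x = 0 := by
    intro x hx
    apply Subtype.ext
    apply h0 _ x.2
    intro s hs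
    have h1 := hx (e s - 1) (Ideal.subset_span ⟨s, hs, rfl⟩)
    rw [sub_smul, one_smul, he s hs, sub_eq_zero] at h1
    rw [← hψ, h1]
  obtain ⟨j, hjJ, hj⟩ := na3_one J hJ0
  -- the elements of J act on the class of c by zero
  let cA : G → A := fun g => if h : g ∈ I then ⟨c g, hpc g h⟩ else 0
  have hcA : ∀ g ∈ I, ((cA g : A) : M) = c g := by
    intro g hg
    have : cA g = ⟨c g, hpc g hg⟩ := dif_pos hg
    rw [this]
  have key : ∀ a ∈ J, ∃ P : A, ∀ t ∈ I, a • cA t = (e t - 1) • P := by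
    intro a ha
    refine Submodule.span_induction ?_ ?_ ?_ ?_ ha
    · rintro _ ⟨g, hg, rfl⟩
      refine ⟨cA g, fun t ht => ?_⟩
      have q1 : (e g - 1) • cA t = ψ g (cA t) - cA t := by
        rw [← he g hg, sub_smul, one_smul]
      have q2 : (e t - 1) • cA g = ψ t (cA g) - cA g := by
        rw [← he t ht, sub_smul, one_smul]
      rw [q1, q2]
      apply Subtype.ext
      rw [AddSubgroup.coe_sub, AddSubgroup.coe_sub, hψ, hψ, hcA t ht, hcA g hg]
      have h1 : c (g * t) = c g + ρ g (c t) := hc g hg t ht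
      have h2 : c (t * g) = c t + ρ t (c g) := hc t ht g hg
      have h3 : c (g * t) = c (t * g) := by
        have e1 : g * t = (g * t * g⁻¹ * t⁻¹) * (t * g) := by group
        have hm : g * t * g⁻¹ * t⁻¹ ∈ I :=
          I.mul_mem (I.mul_mem (I.mul_mem hg ht) (I.inv_mem hg)) (I.inv_mem ht)
        have hx := hpc _ (I.mul_mem ht hg)
        have e2 : ρ (g * t * g⁻¹ * t⁻¹) (c (t * g)) = c (t * g) := by
          rw [hMul, hMul, hMul]
          have q1 : p • ρ t⁻¹ (c (t * g)) = 0 := by rw [← map_nsmul, hx, map_zero]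
          rw [hcomm g hg t ht _ (by rw [← map_nsmul, q1, map_zero]), ← hMul g g⁻¹, mul_inv_cancel, hone, ← hMul,
            mul_inv_cancel, hone]
        calc c (g * t) = c ((g * t * g⁻¹ * t⁻¹) * (t * g)) := by rw [← e1]
          _ = c (g * t * g⁻¹ * t⁻¹) + ρ (g * t * g⁻¹ * t⁻¹) (c (t * g)) := hc _ hm _ (I.mul_mem ht hg)
          _ = c (t * g) := by rw [hk g hg t ht, zero_add, e2]
      rw [h1, h2] at h3
      rw [sub_eq_sub_iff_add_eq_add, add_comm (ρ g (c t)), h3, add_comm]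
    · exact ⟨0, fun t _ => by rw [zero_smul, smul_zero]⟩
    · rintro a b _ _ ⟨P, hP⟩ ⟨Q, hQ⟩
      exact ⟨P + Q, fun t ht => by rw [add_smul, hP t ht, hQ t ht, smul_add]⟩
    · rintro r a _ ⟨P, hP⟩
      refine ⟨r • P, fun t ht => ?_⟩
      rw [smul_assoc, hP t ht, ← mul_smul, ← mul_smul, mul_comm]
  obtain ⟨P, hP⟩ := key j hjJ
  refine ⟨P, P.2, fun s hs => ?_⟩
  have h1 := hP s hs
  rw [hj, sub_smul, one_smul, he s hs] at h1
  have h2 := congrArg Subtype.val h1
  rw [hcA s hs] at h2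
  rw [h2]
  rfl

end H55K.NB
end

-- from Lib.H13D.P0
section

/-! # H13D, part P: the prime number below a prime -/

open NumberField IsDedekindDomain

namespace H13D

/-- Copy of H55K.TQ.ra2_below. -/
theorem below_v {K : Type} [Field K] [NumberField K] (w : HeightOneSpectrum (𝓞 K)) :
    ∃ (l f : ℕ), l.Prime ∧ (l : 𝓞 K) ∈ w.asIdeal ∧ 0 < f ∧ Ideal.absNorm w.asIdeal = l ^ f := by
  have hmax : w.asIdeal.IsMaximal := w.isMaximal
  letI : Field (𝓞 K ⧸ w.asIdeal) := Ideal.Quotient.field w.asIdeal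
  have h0 : Ideal.absNorm w.asIdeal ≠ 0 := by
    rw [Ne, Ideal.absNorm_eq_zero_iff]; exact w.ne_bot
  have hcard : Ideal.absNorm w.asIdeal = Nat.card (𝓞 K ⧸ w.asIdeal) := rfl
  haveI : Finite (𝓞 K ⧸ w.asIdeal) := Nat.finite_of_card_ne_zero (by rw [← hcard]; exact h0)
  letI : Fintype (𝓞 K ⧸ w.asIdeal) := Fintype.ofFinite _
  obtain ⟨p, hp⟩ := CharP.exists (𝓞 K ⧸ w.asIdeal)
  obtain ⟨n, hpp, hn⟩ := FiniteField.card (𝓞 K ⧸ w.asIdeal) p
  refine ⟨p, n, hpp, ?_, n.pos, ?_⟩
  · rw [← Ideal.Quotient.eq_zero_iff_mem, map_natCast]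
    exact CharP.cast_eq_zero _ p
  · rw [hcard, Nat.card_eq_fintype_card, hn]

end H13D
end

-- from Lib.H28T.CC1A
section

namespace H28T

theorem cc1a_jac {D l : ℕ} (hD : 0 < D) (hlD : 4 * D ∣ l + 1) : jacobiSym (-(D : ℤ)) l = -1 := by
  obtain ⟨k, hk⟩ := hlD
  have hk0 : 0 < k := by
    rcases Nat.eq_zero_or_pos k with rfl | h
    · omega
    · exact h
  obtain ⟨k', rfl⟩ : ∃ k', k = k' + 1 := ⟨k - 1, by omega⟩
  have hlodd : Odd l := by
    refine ⟨2 * (D * (k' + 1)) - 1, ?_⟩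
    have h1 : 4 * D * (k' + 1) = 4 * (D * (k' + 1)) := by ring
    have h2 : 0 < D * (k' + 1) := Nat.mul_pos hD (Nat.succ_pos _)
    omega
  have hmod : l % (4 * D) = 4 * D - 1 := by
    have h1 : l = (4 * D - 1) + 4 * D * k' := by
      have h2 : 4 * D * (k' + 1) = 4 * D * k' + 4 * D := by ring
      omega
    rw [h1, Nat.add_mul_mod_self_left, Nat.mod_eq_of_lt (by omega)]
  have hodd : Odd (4 * D - 1) := ⟨2 * D - 1, by omega⟩
  have h1 : jacobiSym (-(D : ℤ)) l = jacobiSym (-(D : ℤ)) (4 * D - 1) := by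
    rw [jacobiSym.mod_right _ hlodd, Int.natAbs_neg, Int.natAbs_natCast, hmod]
  have h2 : jacobiSym 4 (4 * D - 1) = 1 := by
    have h3 : (4 : ℤ) = 2 ^ 2 := by norm_num
    rw [h3]
    refine jacobiSym.sq_one' ?_
    have h4 : Nat.Coprime 2 (4 * D - 1) := hodd.coprime_two_left
    exact_mod_cast h4
  have h3 : jacobiSym (-(D : ℤ)) (4 * D - 1) = jacobiSym (-1) (4 * D - 1) := by
    have h4 : jacobiSym (4 * (-(D : ℤ))) (4 * D - 1) = jacobiSym (-1) (4 * D - 1) := by
      refine jacobiSym.mod_left' ?_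
      have h5 : ((4 * D - 1 : ℕ) : ℤ) = 4 * D - 1 := by
        rw [Nat.cast_sub (by omega)]
        push_cast
        ring
      rw [h5]
      have h6 : (4 * (-(D : ℤ))) = -1 + (4 * D - 1) * (-1) := by ring
      rw [h6, Int.add_mul_emod_self_left]
    rw [jacobiSym.mul_left, h2, one_mul] at h4
    exact h4
  rw [h1, h3, jacobiSym.at_neg_one hodd, ZMod.χ₄_nat_three_mod_four (by omega)]

/-- Chunk CC1A (S/M). Let D > 0, l a prime number, l ≡ -1 modulo 4 D. Then -D is not a square modulo l. jacobiSym.mod_right (J(a | b) = J(a | b % (4 * a.natAbs)) for odd b): J(-D | l) = J(-D | 4 D - 1) (l is odd; l % (4 D) = 4 D - 1). J(-D | 4 D - 1) = J(-4 D | 4 D - 1) (J(4 | odd) = J(2)^2 = 1: jacobiSym.mul_left, sq_one'),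
-4 D ≡ -1 modulo 4 D - 1 (jacobiSym.mod_left'), J(-1 | 4 D - 1) = -1 because 4 D - 1 ≡ 3 modulo 4 (jacobiSym.at_neg_one, ZMod.χ₄_nat_three_mod_four). So the symbol is -1; jacobiSym for the prime l is the Legendre symbol (jacobiSym.legendreSym.to_jacobiSym), legendreSym.eq_neg_one_iff or eq_one_iff. -/
theorem cc1a_sq {D l : ℕ} (hD : 0 < D) (hl : l.Prime) (hlD : 4 * D ∣ l + 1) (x : ℤ) : ¬ (l : ℤ) ∣ x ^ 2 + D := by
  intro hdvd
  have : Fact l.Prime := ⟨hl⟩
  have h1 := cc1a_jac hD hlD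
  rw [← jacobiSym.legendreSym.to_jacobiSym, legendreSym.eq_neg_one_iff] at h1
  apply h1
  refine ⟨(x : ZMod l), ?_⟩
  have h2 : ((x ^ 2 + D : ℤ) : ZMod l) = 0 := (ZMod.intCast_zmod_eq_zero_iff_dvd _ l).2 hdvd
  push_cast at h2 ⊢
  linear_combination -h2

end H28T
end

-- from Lib.H13Z.CZ4
section

namespace H13Z

/-- Chunk CZ4 (M), pure group theory: extension of a cocycle from a normal subgroup N of finite index prime to l. Corestriction: choose representatives r q of the left cosets (q in G/N, s r q = r (s q) n(s, q), n(s, q) in N; Quotient.out). cor(s) = sum over q of a (r (s q)) (c₀ (n(s, q))).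
It is a cocycle: n(s t, q) = n(s, t q) n(t, q). For s in N: s q = q (N normal), n(s, q) = (r q)⁻¹ s (r q), so cor s = sum of a (r q) (c₀ ((r q)⁻¹ s (r q))) = index c₀ s + a s X - X, X = sum of the X_(r q) (hconj). c = u cor with u index = 1 modulo l (hl: values in B, killed by l).
If U is normal in G, contained in N, c₀ = 0 on U and U acts trivially on B then c = 0 on U. (Lib/H16C/C1, C2 contain a corestriction; look whether they can be used.) -/
theorem ext_cocycle {G M : Type} [Group G] [AddCommGroup M] (a : G → M →+ M)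
    (ha1 : ∀ m, a 1 m = m) (ha : ∀ s t m, a (s * t) m = a s (a t m)) (B : AddSubgroup M)
    (haB : ∀ g, ∀ m ∈ B, a g m ∈ B) (l : ℕ) (hl : ∀ m ∈ B, l • m = 0) (N : Subgroup G) [N.Normal]
    (hN : N.index ≠ 0) (hlN : l.Coprime N.index) (c₀ : G → M) (hB : ∀ s ∈ N, c₀ s ∈ B)
    (hc : ∀ s ∈ N, ∀ t ∈ N, c₀ (s * t) = c₀ s + a s (c₀ t))
    (hconj : ∀ g, ∃ X ∈ B, ∀ s ∈ N, a g (c₀ (g⁻¹ * s * g)) = c₀ s + a s X - X) :
    ∃ c : G → M, (∀ s, c s ∈ B) ∧ (∀ s t, c (s * t) = c s + a s (c t)) ∧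
      (∃ X ∈ B, ∀ s ∈ N, c s = c₀ s + a s X - X) ∧
      ∀ U : Subgroup G, U.Normal → U ≤ N → (∀ s ∈ U, c₀ s = 0) → (∀ s ∈ U, ∀ m ∈ B, a s m = m) →
        ∀ s ∈ U, c s = 0 := by
  classical
  have : Fintype (G ⧸ N) := Subgroup.fintypeOfIndexNeZero hN
  have hcard : Fintype.card (G ⧸ N) = N.index := by
    rw [Subgroup.index, Nat.card_eq_fintype_card]
  obtain ⟨r, hr⟩ : ∃ r : G ⧸ N → G, ∀ q, ((r q : G) : G ⧸ N) = q :=
    ⟨Quotient.out, fun q => Quotient.out_eq' q⟩
  obtain ⟨n, hn⟩ : ∃ n : G → G ⧸ N → G, ∀ s q, n s q = (r ((s : G ⧸ N) * q))⁻¹ * s * r q :=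
    ⟨fun s q => (r ((s : G ⧸ N) * q))⁻¹ * s * r q, fun _ _ => rfl⟩
  have hnN : ∀ s q, n s q ∈ N := by
    intro s q
    rw [hn, ← QuotientGroup.eq_one_iff]
    simp [hr]
  have hnr : ∀ (s : G) (q : G ⧸ N), r ((s : G ⧸ N) * q) * n s q = s * r q := by
    intro s q
    rw [hn]; group
  have hnm : ∀ (s t : G) (q : G ⧸ N), n (s * t) q = n s ((t : G ⧸ N) * q) * n t q := by
    intro s t q
    rw [hn, hn, hn]
    have : (((s * t : G) : G ⧸ N)) * q = (s : G ⧸ N) * ((t : G ⧸ N) * q) := by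
      rw [QuotientGroup.mk_mul, mul_assoc]
    rw [this]; group
  let cor : G → M := fun s => ∑ q : G ⧸ N, a (r ((s : G ⧸ N) * q)) (c₀ (n s q))
  have hcorB : ∀ s, cor s ∈ B := fun s => AddSubgroup.sum_mem _ fun q _ =>
    haB _ _ (hB _ (hnN s q))
  have hcor : ∀ s t, cor (s * t) = cor s + a s (cor t) := by
    intro s t
    have h1 : cor s = ∑ q : G ⧸ N, a (r ((s : G ⧸ N) * ((t : G ⧸ N) * q)))
        (c₀ (n s ((t : G ⧸ N) * q))) := by
      exact (Equiv.sum_comp (Equiv.mulLeft (t : G ⧸ N))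
        (fun q => a (r ((s : G ⧸ N) * q)) (c₀ (n s q)))).symm
    have h2 : a s (cor t) = ∑ q : G ⧸ N, a s (a (r ((t : G ⧸ N) * q)) (c₀ (n t q))) :=
      map_sum _ _ _
    rw [h1, h2, ← Finset.sum_add_distrib]
    refine Finset.sum_congr rfl fun q _ => ?_
    rw [hnm, hc _ (hnN _ _) _ (hnN _ _), map_add]
    have h3 : (((s * t : G) : G ⧸ N)) * q = (s : G ⧸ N) * ((t : G ⧸ N) * q) := by
      rw [QuotientGroup.mk_mul, mul_assoc]
    rw [h3]
    congr 1
    rw [← ha, hnr, ha]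
  have hs1 : ∀ s ∈ N, ∀ q : G ⧸ N, (s : G ⧸ N) * q = q := by
    intro s hs q
    rw [(QuotientGroup.eq_one_iff s).2 hs, one_mul]
  choose X hXB hX using hconj
  have hcorN : ∀ s ∈ N, cor s = (N.index : ℤ) • c₀ s +
      a s (∑ q : G ⧸ N, X (r q)) - ∑ q : G ⧸ N, X (r q) := by
    intro s hs
    have h1 : cor s = ∑ q : G ⧸ N, (c₀ s + a s (X (r q)) - X (r q)) := by
      refine Finset.sum_congr rfl fun q _ => ?_
      rw [hn, hs1 s hs q, hX (r q) s hs]
    rw [h1, Finset.sum_sub_distrib, Finset.sum_add_distrib, Finset.sum_const, map_sum,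
      Finset.card_univ, hcard, natCast_zsmul]
  obtain ⟨u, v, huv⟩ := Nat.isCoprime_iff_coprime.2 hlN
  have hu : ∀ m ∈ B, v • ((N.index : ℤ) • m) = m := by
    intro m hm
    have h1 : u • ((l : ℤ) • m) = 0 := by rw [natCast_zsmul, hl m hm, smul_zero]
    calc v • ((N.index : ℤ) • m) = u • ((l : ℤ) • m) + v • ((N.index : ℤ) • m) := by
          rw [h1, zero_add]
      _ = (u * l + v * N.index) • m := by rw [add_smul, mul_smul, mul_smul]
      _ = m := by rw [huv, one_smul]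
  refine ⟨fun s => v • cor s, fun s => AddSubgroup.zsmul_mem _ (hcorB s) _, fun s t => ?_,
    ⟨v • ∑ q : G ⧸ N, X (r q), AddSubgroup.zsmul_mem _ (AddSubgroup.sum_mem _ fun q _ => hXB _) _,
      fun s hs => ?_⟩, fun U hU hUN hc0 _ s hs => ?_⟩
  · show v • cor (s * t) = v • cor s + a s (v • cor t)
    rw [hcor, smul_add, map_zsmul]
  · show v • cor s = _
    rw [hcorN s hs, smul_sub, smul_add, hu _ (hB s hs), map_zsmul]
  · show v • cor s = 0
    have : cor s = 0 := by
      refine Finset.sum_eq_zero fun q _ => ?_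
      rw [hn, hs1 s (hUN hs) q]
      have h1 : (r q)⁻¹ * s * r q ∈ U := by
        have := hU.conj_mem s hs (r q)⁻¹
        simpa using this
      rw [hc0 _ h1, map_zero]
    rw [this, smul_zero]

end H13Z
end

-- from Lib.H55W.D
section

/-! # H55W: the Hecke characters of the curves with complex multiplication by the integers of the fields of discriminant -3, -4, -8: power residue characters -/

namespace H55W

/-- κ is the character x ↦ (n/x) of order m of the ring R: defined for x prime to c, periodic modulo k, trivial on the units and given by Euler's criterion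
at the prime elements which do not divide c and m. -/
structure PRC (R : Type) [CommRing R] (m : ℕ) (n c k : ℤ) (κ : R → R) : Prop where
  root : ∀ x, IsCoprime x (c : R) → κ x ^ m = 1
  mul : ∀ x y, IsCoprime x (c : R) → IsCoprime y (c : R) → κ (x * y) = κ x * κ y
  per : ∀ x y, IsCoprime x (c : R) → IsCoprime y (c : R) → (k : R) ∣ x - y → κ x = κ y
  unit : ∀ u, IsUnit u → κ u = 1
  euler : ∀ π : R, Prime π → ¬ π ∣ (c : R) → ¬ π ∣ (m : R) →
    π ∣ (n : R) ^ ((Nat.card (R ⧸ Ideal.span {π}) - 1) / m) - κ π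

end H55W
end

-- from Lib.H28R.W10
section

namespace H28R

/-! Chunk W10 (M), pure group theory. V <= H normal in the finite group A, V a p-group, [H:V] prime to p, V central in H; S a p-subgroup of A with [A:S] = [H:V]. By Schur-Zassenhaus (Subgroup.exists_right_complement'_of_coprime for V as a subgroup of H) there is D0 <= H with D0 V = H, D0 meets V trivially; as V is central, H = V x D0 and
D0 = {h in H : the order of h is prime to p} = {h in H : h^m = 1}, m = [H:V] (h = v d: h^m = v^m d^m = v^m, and v^m = 1 iff v = 1 as V is a p-group and m is prime to p). So D = {h in H | h^m = 1} is a subgroup, normal in A (H is normal), of order m. A -> A/D restricted to S is injective (S meets D trivially: orders p-power and prime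
to p) and |S| = |A|/m = |A/D|: an isomorphism S = A/D. -/

theorem hall {A : Type} [Group A] [Finite A] {p : ℕ} (hp : p.Prime) (V H S : Subgroup A)
    (hVn : V.Normal) (hHn : H.Normal) (hVH : V ≤ H) (hV : ∃ n : ℕ, Nat.card V = p ^ n)
    (hm : (V.relIndex H).Coprime p) (hc : ∀ v ∈ V, ∀ u ∈ H, v * u = u * v)
    (hS : ∃ n : ℕ, Nat.card S = p ^ n) (hSi : S.index = V.relIndex H) :
    ∃ (D : Subgroup A) (_ : D.Normal), D ≤ H ∧ Nonempty ((A ⧸ D) ≃* S) := by
  obtain ⟨n, hn⟩ := hV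
  obtain ⟨k, hk⟩ := hS
  set m := V.relIndex H with hmdef
  -- V as a subgroup of H
  have hNn : (V.subgroupOf H).Normal := hVn.subgroupOf H
  have hcardN : Nat.card (V.subgroupOf H) = p ^ n := by
    rw [← hn]
    exact Nat.card_congr (Subgroup.subgroupOfEquivOfLe hVH).toEquiv
  have hindN : (V.subgroupOf H).index = m := rfl
  obtain ⟨D0, hD0⟩ := Subgroup.exists_right_complement'_of_coprime (N := V.subgroupOf H) (by
    rw [hcardN, hindN]; exact (hm.pow_right n).symm)
  have hcardD0 : Nat.card D0 = m := by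
    rw [← hindN]; exact hD0.symm.index_eq_card.symm
  -- every element of H is v * d
  have hdec : ∀ h ∈ H, ∃ v ∈ V, ∃ d ∈ D0.map H.subtype, h = v * d := by
    intro h hh
    obtain ⟨⟨a, b⟩, hab⟩ := hD0.2 ⟨h, hh⟩
    refine ⟨(a : H), Subgroup.mem_subgroupOf.mp a.2, (b : H), ⟨(b : H), b.2, rfl⟩, ?_⟩
    have := congrArg (Subtype.val) hab
    simpa using this.symm
  have hdpow : ∀ d ∈ D0.map H.subtype, d ^ m = 1 := by
    rintro d ⟨d', hd', rfl⟩
    have h1 : (⟨d', hd'⟩ : D0) ^ m = 1 := by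
      rw [← hcardD0]; exact pow_card_eq_one'
    have h2 := congrArg (fun x : D0 => ((x : H) : A)) h1
    simpa using h2
  have hvpow : ∀ v ∈ V, v ^ m = 1 → v = 1 := by
    intro v hv h1
    have h2 : v ^ (p ^ n) = 1 := by
      have : (⟨v, hv⟩ : V) ^ (p ^ n) = 1 := by
        rw [← hn]; exact pow_card_eq_one'
      simpa using congrArg (fun x : V => (x : A)) this
    have h3 : orderOf v ∣ m := orderOf_dvd_of_pow_eq_one h1
    have h4 : orderOf v ∣ p ^ n := orderOf_dvd_of_pow_eq_one h2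
    have h5 : orderOf v = 1 := Nat.eq_one_of_dvd_coprimes (hm.pow_right n) h3 h4
    exact orderOf_eq_one_iff.mp h5
  have hDH : D0.map H.subtype ≤ H := by
    rintro d ⟨d', _, rfl⟩
    exact d'.2
  have hiff : ∀ h ∈ H, h ^ m = 1 → h ∈ D0.map H.subtype := by
    intro h hh h1
    obtain ⟨v, hv, d, hd, rfl⟩ := hdec h hh
    have hcomm : Commute v d := hc v hv d (hDH hd)
    rw [hcomm.mul_pow, hdpow d hd, mul_one] at h1
    rw [hvpow v hv h1, one_mul]
    exact hd
  have hDn : (D0.map H.subtype).Normal := by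
    constructor
    intro d hd g
    apply hiff _ (hHn.conj_mem d (hDH hd) g)
    rw [conj_pow, hdpow d hd]
    simp
  have hcardD : Nat.card (D0.map H.subtype) = m := by
    rw [← hcardD0]
    exact (Nat.card_congr (D0.equivMapOfInjective H.subtype H.subtype_injective).toEquiv).symm
  refine ⟨D0.map H.subtype, hDn, hDH, ?_⟩
  have hmpos : 0 < m := by
    rw [← hcardD0]; exact Nat.card_pos
  -- the map S -> A/D
  let f : S →* A ⧸ (D0.map H.subtype) := (QuotientGroup.mk' _).comp S.subtype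
  have hf : Function.Injective f := by
    rw [injective_iff_map_eq_one]
    intro s hs
    have h1 : (s : A) ∈ D0.map H.subtype := by
      have : QuotientGroup.mk' (D0.map H.subtype) (s : A) = 1 := hs
      rwa [QuotientGroup.mk'_apply, QuotientGroup.eq_one_iff] at this
    have h2 : (s : A) ^ m = 1 := hdpow _ h1
    have h3 : s ^ m = 1 := by
      apply Subtype.ext
      simpa using h2
    have h4 : s ^ (p ^ k) = 1 := by
      rw [← hk]; exact pow_card_eq_one'
    have h5 : orderOf s = 1 := Nat.eq_one_of_dvd_coprimes (hm.pow_right k)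
      (orderOf_dvd_of_pow_eq_one h3) (orderOf_dvd_of_pow_eq_one h4)
    exact orderOf_eq_one_iff.mp h5
  have hcards : Nat.card S = Nat.card (A ⧸ (D0.map H.subtype)) := by
    have h1 : Nat.card S * m = Nat.card A := by
      rw [← hSi]; exact S.card_mul_index
    have h2 : Nat.card (A ⧸ (D0.map H.subtype)) * m = Nat.card A := by
      rw [← hcardD]
      exact (Subgroup.card_eq_card_quotient_mul_card_subgroup _).symm
    exact Nat.eq_of_mul_eq_mul_right hmpos (h1.trans h2.symm)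
  have hbij : Function.Bijective f := by
    rw [Nat.bijective_iff_injective_and_card]
    exact ⟨hf, hcards⟩
  exact ⟨(MulEquiv.ofBijective f hbij).symm⟩

end H28R
end

-- from Lib.H28R.W19
section

namespace H28R

/-! Chunk W19 (S/M), pure group theory: ports of H19T/W8.lean (kk3) and of w9_centre in H19T/W9.lean, and functoriality of the regular wreath product in the top group. -/

/-- Kaloujnine-Krasner for a kernel of order p (the proof of H19T.kk3, H19T/W8.lean, with p in place of 3). -/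
theorem kkP {p : ℕ} (hp : p.Prime) (H G : Type) [Group H] [Finite H] [Group G] [Finite G]
    (φ : H →* G) (hk : Nat.card φ.ker = p) :
    ∃ ψ : H →* Multiplicative (ZMod p) ≀ᵣ G, Function.Injective ψ := by
  classical
  let c : G → G := fun x => Quotient.out (Quotient.mk (QuotientGroup.rightRel φ.range) x)
  have hc1 : ∀ x, x * (c x)⁻¹ ∈ φ.range := by
    intro x
    have h : (QuotientGroup.rightRel φ.range) (c x) x := Quotient.mk_out x
    rwa [QuotientGroup.rightRel_apply] at h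
  have hc2 : ∀ (h : H) (x : G), c (φ h * x) = c x := by
    intro h x
    have e : Quotient.mk (QuotientGroup.rightRel φ.range) (φ h * x) =
        Quotient.mk (QuotientGroup.rightRel φ.range) x := by
      apply Quotient.sound
      change (QuotientGroup.rightRel φ.range) (φ h * x) x
      rw [QuotientGroup.rightRel_apply]
      refine ⟨h⁻¹, ?_⟩
      rw [map_inv]; group
    change Quotient.out _ = Quotient.out _
    rw [e]
  choose s hs using hc1
  have hfm : ∀ (h : H) (x : G), (s x)⁻¹ * h * s ((φ h)⁻¹ * x) ∈ φ.ker := by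
    intro h x
    rw [MonoidHom.mem_ker, map_mul, map_mul, map_inv, hs, hs]
    have e : c ((φ h)⁻¹ * x) = c x := by
      rw [← map_inv]; exact hc2 h⁻¹ x
    rw [e]; group
  let ψ0 : H →* φ.ker ≀ᵣ G :=
    { toFun := fun h => ⟨fun x => ⟨(s x)⁻¹ * h * s ((φ h)⁻¹ * x), hfm h x⟩, φ h⟩
      map_one' := by
        ext x
        · simp
        · simp
      map_mul' := by
        intro h k
        ext x
        · simp only [RegularWreathProduct.mul_left, Pi.mul_apply, Subgroup.coe_mul, map_mul]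
          have e : (φ h * φ k)⁻¹ * x = (φ k)⁻¹ * ((φ h)⁻¹ * x) := by group
          rw [e]
          group
        · simp }
  have hψ0 : Function.Injective ψ0 := by
    rw [injective_iff_map_eq_one]
    intro h hh
    have h1 : φ h = 1 := congrArg RegularWreathProduct.right hh
    have h2 : (s 1)⁻¹ * h * s ((φ h)⁻¹ * 1) = 1 :=
      congrArg Subtype.val (congrFun (congrArg RegularWreathProduct.left hh) 1)
    rw [h1, inv_one, one_mul] at h2
    have h3 : h = s 1 * ((s 1)⁻¹ * h * s 1) * (s 1)⁻¹ := by group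
    rw [h3, h2]; group
  have hC : Nat.card (Multiplicative (ZMod p)) = p := by
    rw [Nat.card_eq_of_bijective Multiplicative.toAdd Multiplicative.toAdd.bijective, Nat.card_zmod]
  have hpF : Fact (Nat.Prime p) := ⟨hp⟩
  let e : φ.ker ≃* Multiplicative (ZMod p) := mulEquivOfPrimeCardEq hk hC
  refine ⟨(RegularWreathProduct.congr e (MulEquiv.refl G)).toMonoidHom.comp ψ0, ?_⟩
  exact (RegularWreathProduct.congr e (MulEquiv.refl G)).injective.comp hψ0

/-- A central subgroup of order p (H19T.w9_centre, H19T/W9.lean). -/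
theorem centreP {p : ℕ} (hp : p.Prime) (H : Type) [Group H] [Finite H] (k : ℕ)
    (hH : Nat.card H = p ^ (k + 1)) :
    ∃ Z : Subgroup H, Z.Normal ∧ Nat.card Z = p ∧ Nat.card (H ⧸ Z) = p ^ k := by
  haveI : Fact (Nat.Prime p) := ⟨hp⟩
  have hpG : IsPGroup p H := IsPGroup.of_card hH
  haveI : Nontrivial H := by
    apply Finite.one_lt_card_iff_nontrivial.1
    rw [hH]
    exact Nat.one_lt_pow (Nat.succ_ne_zero k) hp.one_lt
  haveI := hpG.center_nontrivial
  have hc : IsPGroup p (Subgroup.center H) := hpG.to_subgroup _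
  obtain ⟨j, hj⟩ := IsPGroup.iff_card.1 hc
  have hj0 : j ≠ 0 := by
    rintro rfl
    have h1 : 1 < Nat.card (Subgroup.center H) := Finite.one_lt_card_iff_nontrivial.2 inferInstance
    rw [hj, pow_zero] at h1
    exact lt_irrefl _ h1
  obtain ⟨z, hz⟩ := exists_prime_orderOf_dvd_card' (G := Subgroup.center H) p
    (by rw [hj]; exact dvd_pow_self p hj0)
  have hz2 : orderOf (z : H) = p := by rw [Subgroup.orderOf_coe, hz]
  have hle : Subgroup.zpowers (z : H) ≤ Subgroup.center H := by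
    rw [Subgroup.zpowers_le]
    exact z.2
  have hcard : Nat.card (Subgroup.zpowers (z : H)) = p := by rw [Nat.card_zpowers, hz2]
  refine ⟨Subgroup.zpowers (z : H), ⟨fun n hn g => ?_⟩, hcard, ?_⟩
  · have h1 := Subgroup.mem_center_iff.1 (hle hn) g
    rw [h1, mul_inv_cancel_right]
    exact hn
  · have h1 := Subgroup.card_eq_card_quotient_mul_card_subgroup (Subgroup.zpowers (z : H))
    rw [hH, hcard, pow_succ] at h1
    exact (Nat.eq_of_mul_eq_mul_right hp.pos h1).symm

/-- The regular wreath product respects isomorphisms of the top group. -/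
theorem wr_congr {D G G' : Type} [Group D] [Group G] [Group G'] (e : G ≃* G') :
    Nonempty ((D ≀ᵣ G) ≃* (D ≀ᵣ G')) :=
  ⟨RegularWreathProduct.congr (MulEquiv.refl D) e⟩

end H28R
end

-- from Lib.H55W.S0
section

/-! # H55W, part S: power residue symbols over the integers of a number field (definitions) -/

open NumberField

namespace H55W

variable {F : Type} [Field F] [NumberField F]

open Classical in
/-- The m-th power residue symbol at the prime ideal P (ζ a primitive m-th root of unity): the power of ζ congruent to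
x^((N - 1)/m) modulo P, and 0 if there is none. -/
noncomputable def ps (m : ℕ) (ζ : 𝓞 F) (P : Ideal (𝓞 F)) (x : 𝓞 F) : 𝓞 F :=
  if h : ∃ i : ℕ, x ^ ((Ideal.absNorm P - 1) / m) - ζ ^ i ∈ P then ζ ^ h.choose else 0

/-- The product of the symbols over the prime factors of the ideal J. -/
noncomputable def pj (m : ℕ) (ζ : 𝓞 F) (J : Ideal (𝓞 F)) (x : 𝓞 F) : 𝓞 F :=
  ((UniqueFactorizationMonoid.normalizedFactors J).map fun P => ps m ζ P x).prod

/-- P is a nonzero prime ideal which does not contain m, ζ is a primitive m-th root of unity, 2 ≤ m. -/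
structure PP (m : ℕ) (ζ : 𝓞 F) (P : Ideal (𝓞 F)) : Prop where
  pr : P.IsPrime
  ne : P ≠ ⊥
  nm : (m : 𝓞 F) ∉ P
  root : IsPrimitiveRoot ζ m
  two : 2 ≤ m

/-- J is a nonzero ideal prime to m, ζ is a primitive m-th root of unity, 2 ≤ m. -/
structure PJ (m : ℕ) (ζ : 𝓞 F) (J : Ideal (𝓞 F)) : Prop where
  ne : J ≠ ⊥
  cop : IsCoprime J (Ideal.span {(m : 𝓞 F)})
  root : IsPrimitiveRoot ζ m
  two : 2 ≤ m

end H55W
end

-- from Lib.H55W.S1
section

/-! # H55W, part S: power residue symbols -/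

open NumberField

namespace H55W

variable {F : Type} [Field F] [NumberField F] {m : ℕ} {ζ : 𝓞 F} {P : Ideal (𝓞 F)}

/-- Chunk S1 (S). ζ^i is a unit. -/
theorem s1_unit (h : PP m ζ P) (i : ℕ) : ζ ^ i ∉ P := by
  intro hi
  have h1 : (ζ ^ i) ^ m ∈ P := P.pow_mem_of_mem hi m (by have := h.two; omega)
  rw [← pow_mul, mul_comm, pow_mul, h.root.pow_eq_one, one_pow] at h1
  exact h.pr.ne_top ((Ideal.eq_top_iff_one P).2 h1)

theorem s1_one (h : PP m ζ P) {k : ℕ} (hk : 1 - ζ ^ k ∈ P) : ζ ^ k = 1 := by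
  have hm := h.two
  rw [← pow_mod_orderOf, ← h.root.eq_orderOf] at hk ⊢
  set r := k % m with hr
  have hrm : r < m := Nat.mod_lt _ (by omega)
  rcases Nat.eq_zero_or_pos r with h0 | h0
  · rw [h0, pow_zero]
  · exfalso
    obtain ⟨n, rfl⟩ : ∃ n, m = n + 1 := ⟨m - 1, by omega⟩
    have h1 := h.root.prod_one_sub_pow_eq_order
    apply h.nm
    have h2 : ((n + 1 : ℕ) : 𝓞 F) = ∏ k ∈ Finset.range n, (1 - ζ ^ (k + 1)) := by
      rw [h1]
      push_cast
      rfl
    rw [h2]
    refine Ideal.mem_of_dvd P (Finset.dvd_prod_of_mem (fun k => 1 - ζ ^ (k + 1)) (Finset.mem_range.2 (show r - 1 < n by omega))) ?_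
    have h3 : r - 1 + 1 = r := by omega
    simp only [h3]
    exact hk

/-- Chunk S1 (S). Suppose ζ^i ≠ ζ^j. Then ζ^i - ζ^j = ζ^j (ζ^(i-j) - 1) up to sign (take i ≤ j or j ≤ i), with ζ^k ≠ 1, k reduced modulo m, 0 < k < m; the product of 1 - ζ^k over 0 < k < m is m: IsPrimitiveRoot.prod_one_sub_pow_eq_order
(Mathlib.RingTheory.RootsOfUnity.Lemmas). So m is in P (a factor of the product is in P; ζ^j is a unit: ζ^m = 1): contradiction to h.nm. -/
theorem ps_inj (h : PP m ζ P) {i j : ℕ} (hij : ζ ^ i - ζ ^ j ∈ P) : ζ ^ i = ζ ^ j := by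
  have key : ∀ i j : ℕ, i ≤ j → ζ ^ i - ζ ^ j ∈ P → ζ ^ i = ζ ^ j := by
    intro i j hle h1
    obtain ⟨k, rfl⟩ := Nat.exists_eq_add_of_le hle
    have h2 : ζ ^ i - ζ ^ (i + k) = ζ ^ i * (1 - ζ ^ k) := by ring
    rw [h2] at h1
    have h3 := (h.pr.mem_or_mem h1).resolve_left (s1_unit h i)
    rw [pow_add, s1_one h h3, mul_one]
  rcases le_total i j with h1 | h1
  · exact key i j h1 hij
  · refine (key j i h1 ?_).symm
    have h2 : ζ ^ j - ζ ^ i = -(ζ ^ i - ζ ^ j) := by ring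
    rw [h2]
    exact P.neg_mem hij

/-- Chunk S1 (S). ζ^i is a unit. -/
theorem ps_unit (h : PP m ζ P) (i : ℕ) : ζ ^ i ∉ P := s1_unit h i

/-- Fermat in the residue field, and its cardinality. -/
theorem s1_field (h : PP m ζ P) : 1 < Ideal.absNorm P ∧
    ∀ x : 𝓞 F, x ∉ P → (Ideal.Quotient.mk P x) ^ (Ideal.absNorm P - 1) = 1 := by
  have hmax : P.IsMaximal := h.pr.isMaximal h.ne
  have hfin : Finite (𝓞 F ⧸ P) := Ideal.finiteQuotientOfFreeOfNeBot P h.ne
  let _ : Field (𝓞 F ⧸ P) := Ideal.Quotient.field P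
  let _ : Fintype (𝓞 F ⧸ P) := Fintype.ofFinite _
  have hc : Ideal.absNorm P = Fintype.card (𝓞 F ⧸ P) := by
    rw [Ideal.absNorm_apply, Submodule.cardQuot_apply, Nat.card_eq_fintype_card]
  refine ⟨?_, fun x hx => ?_⟩
  · rw [hc]
    exact Fintype.one_lt_card
  · rw [hc]
    apply FiniteField.pow_card_sub_one_eq_one
    intro h1
    exact hx (Ideal.Quotient.eq_zero_iff_mem.1 h1)

/-- Chunk S1 (S/M). k = 𝓞 F ⧸ P is a finite field (P is maximal: Ideal.IsPrime.isMaximal; Ideal.Quotient.field; finite: Ideal.finiteQuotientOfFreeOfNeBot or Ideal.fintypeQuotientOfFreeOfNeBot), with absNorm P elements (Ideal.absNorm_apply, Submodule.cardQuot_apply); the class of ζ has order exactly m in the unit group (ps_inj), so m divides the order N - 1 of the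
unit group (orderOf_dvd_card); N - 1 > 0. -/
theorem ps_dvd (h : PP m ζ P) : m ∣ Ideal.absNorm P - 1 ∧ 0 < (Ideal.absNorm P - 1) / m ∧ 1 < Ideal.absNorm P := by
  obtain ⟨h1, h2⟩ := s1_field h
  have hz : ζ ∉ P := by
    have h3 := s1_unit h 1
    rwa [pow_one] at h3
  have h3 := h2 ζ hz
  rw [← map_pow, ← map_one (Ideal.Quotient.mk P), Ideal.Quotient.eq] at h3
  have h4 : ζ ^ (Ideal.absNorm P - 1) = ζ ^ 0 := by
    apply ps_inj h
    rw [pow_zero]
    exact h3
  rw [pow_zero] at h4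
  have h5 : m ∣ Ideal.absNorm P - 1 := h.root.dvd_of_pow_eq_one _ h4
  have hm := h.two
  refine ⟨h5, Nat.div_pos (Nat.le_of_dvd (by omega) h5) (by omega), h1⟩

/-- Chunk S1 (S). x^(N-1) is 1 in the field 𝓞 F ⧸ P (FiniteField.pow_card_sub_one_eq_one). -/
theorem ps_fermat (h : PP m ζ P) {x : 𝓞 F} (hx : x ∉ P) : x ^ (Ideal.absNorm P - 1) - 1 ∈ P := by
  have h3 := (s1_field h).2 x hx
  rwa [← map_pow, ← map_one (Ideal.Quotient.mk P), Ideal.Quotient.eq] at h3

/-- Chunk S1 (S/M). w = x^((N-1)/m) satisfies w^m - 1 in P (ps_fermat, ps_dvd). X^m - 1 = product of (X - ζ^i) over i in range m (X_pow_sub_one_eq_prod, IsPrimitiveRoot.card_nthRoots..; or Polynomial.nthRoots; evaluate at w): the product is in P, so one factor is. -/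
theorem ps_ex (h : PP m ζ P) {x : 𝓞 F} (hx : x ∉ P) : ∃ i : ℕ, x ^ ((Ideal.absNorm P - 1) / m) - ζ ^ i ∈ P := by
  have hm := h.two
  set w := x ^ ((Ideal.absNorm P - 1) / m) with hw
  have h1 : w ^ m - 1 ∈ P := by
    have h2 := ps_fermat h hx
    rwa [hw, ← pow_mul, Nat.div_mul_cancel (ps_dvd h).1]
  have h2 := congrArg (Polynomial.eval w) (Polynomial.X_pow_sub_one_eq_prod (show 0 < m by omega) h.root)
  rw [Polynomial.eval_prod] at h2
  simp only [Polynomial.eval_sub, Polynomial.eval_pow, Polynomial.eval_X, Polynomial.eval_one, Polynomial.eval_C] at h2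
  rw [h2] at h1
  obtain ⟨η, hη, h3⟩ := (h.pr.prod_mem_iff).1 h1
  have h4 : η ^ m = 1 := (Polynomial.mem_nthRootsFinset (by omega) 1).1 hη
  have : NeZero m := ⟨by omega⟩
  obtain ⟨i, _, hi⟩ := h.root.eq_pow_of_pow_eq_one h4
  exact ⟨i, by rw [hi]; exact h3⟩

end H55W
end

-- from Lib.H55W.S2
section

/-! # H55W, part S: power residue symbols -/

open NumberField

namespace H55W

variable {F : Type} [Field F] [NumberField F] {m : ℕ} {ζ : 𝓞 F} {P : Ideal (𝓞 F)}

/-- Chunk S2 (S). ps_ex and the definition (dif_pos, choose_spec). -/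
theorem ps_spec (h : PP m ζ P) {x : 𝓞 F} (hx : x ∉ P) : (∃ i : ℕ, ps m ζ P x = ζ ^ i) ∧ x ^ ((Ideal.absNorm P - 1) / m) - ps m ζ P x ∈ P := by
  have h' := ps_ex h hx
  unfold ps
  rw [dif_pos h']
  exact ⟨⟨_, rfl⟩, h'.choose_spec⟩

/-- Chunk S2 (S). x is not in P (else ζ^i is: ps_unit; the exponent is positive: ps_dvd); ps_spec, ps_inj. -/
theorem ps_uniq (h : PP m ζ P) {x : 𝓞 F} {i : ℕ} (hi : x ^ ((Ideal.absNorm P - 1) / m) - ζ ^ i ∈ P) : ps m ζ P x = ζ ^ i := by
  have h' : ∃ i : ℕ, x ^ ((Ideal.absNorm P - 1) / m) - ζ ^ i ∈ P := ⟨i, hi⟩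
  unfold ps
  rw [dif_pos h']
  have h1 := P.sub_mem hi h'.choose_spec
  rw [sub_sub_sub_cancel_left] at h1
  exact ps_inj h h1

/-- Chunk S2 (S). The condition of the definition fails: ζ^i would be in P. -/
theorem ps_zero (h : PP m ζ P) {x : 𝓞 F} (hx : x ∈ P) : ps m ζ P x = 0 := by
  unfold ps
  rw [dif_neg]
  rintro ⟨i, hi⟩
  have h1 : x ^ ((Ideal.absNorm P - 1) / m) ∈ P := Ideal.pow_mem_of_mem P hx _ (ps_dvd h).2.1
  have h2 := P.sub_mem h1 hi
  rw [sub_sub_cancel] at h2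
  exact ps_unit h i h2

/-- Chunk S2 (S). Cases x in P, y in P (ps_zero); otherwise ps_uniq. -/
theorem ps_mul (h : PP m ζ P) (x y : 𝓞 F) : ps m ζ P (x * y) = ps m ζ P x * ps m ζ P y := by
  by_cases hx : x ∈ P
  · rw [ps_zero h (P.mul_mem_right y hx), ps_zero h hx, zero_mul]
  by_cases hy : y ∈ P
  · rw [ps_zero h (P.mul_mem_left x hy), ps_zero h hy, mul_zero]
  obtain ⟨⟨i, hi⟩, h1⟩ := ps_spec h hx
  obtain ⟨⟨j, hj⟩, h2⟩ := ps_spec h hy
  rw [hi] at h1 ⊢
  rw [hj] at h2 ⊢
  rw [← pow_add]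
  apply ps_uniq h
  have h3 : (x * y) ^ ((Ideal.absNorm P - 1) / m) - ζ ^ (i + j) = (x ^ ((Ideal.absNorm P - 1) / m) - ζ ^ i) * y ^ ((Ideal.absNorm P - 1) / m) +
      ζ ^ i * (y ^ ((Ideal.absNorm P - 1) / m) - ζ ^ j) := by
    rw [mul_pow, pow_add]
    ring
  rw [h3]
  exact P.add_mem (P.mul_mem_right _ h1) (P.mul_mem_left _ h2)

/-- Chunk S2 (S). ps_uniq, sub_dvd_pow_sub_pow; or ps_zero. -/
theorem ps_congr (h : PP m ζ P) {x y : 𝓞 F} (hxy : x - y ∈ P) : ps m ζ P x = ps m ζ P y := by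
  by_cases hx : x ∈ P
  · have hy : y ∈ P := by
      have := P.sub_mem hx hxy
      rwa [sub_sub_cancel] at this
    rw [ps_zero h hx, ps_zero h hy]
  · obtain ⟨⟨i, hi⟩, h1⟩ := ps_spec h hx
    rw [hi] at h1 ⊢
    symm
    apply ps_uniq h
    obtain ⟨c, hc⟩ := sub_dvd_pow_sub_pow x y ((Ideal.absNorm P - 1) / m)
    have h2 : x ^ ((Ideal.absNorm P - 1) / m) - y ^ ((Ideal.absNorm P - 1) / m) ∈ P := by
      rw [hc]
      exact P.mul_mem_right _ hxy
    have h3 := P.sub_mem h1 h2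
    have e : x ^ ((Ideal.absNorm P - 1) / m) - ζ ^ i - (x ^ ((Ideal.absNorm P - 1) / m) - y ^ ((Ideal.absNorm P - 1) / m)) =
        y ^ ((Ideal.absNorm P - 1) / m) - ζ ^ i := by ring
    rwa [e] at h3

/-- Chunk S2 (S). -/
theorem ps_one (h : PP m ζ P) : ps m ζ P 1 = 1 := by
  have h1 : ps m ζ P 1 = ζ ^ 0 := ps_uniq h (by
    rw [one_pow, pow_zero, sub_self]
    exact P.zero_mem)
  rw [h1, pow_zero]

/-- Chunk S2 (S). From ps_mul, ps_one, induction. -/
theorem ps_pow (h : PP m ζ P) (x : 𝓞 F) (n : ℕ) : ps m ζ P (x ^ n) = ps m ζ P x ^ n := by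
  induction n with
  | zero => rw [pow_zero, pow_zero, ps_one h]
  | succ n ih => rw [pow_succ, pow_succ, ps_mul h, ih]

/-- Chunk S2 (S). -/
theorem ps_root (h : PP m ζ P) {x : 𝓞 F} (hx : x ∉ P) : ps m ζ P x ^ m = 1 := by
  obtain ⟨⟨i, hi⟩, -⟩ := ps_spec h hx
  rw [hi, ← pow_mul, mul_comm, pow_mul, h.root.pow_eq_one, one_pow]

/-- Chunk S2 (S). ps_uniq with i = (N - 1)/m. -/
theorem ps_zeta (h : PP m ζ P) : ps m ζ P ζ = ζ ^ ((Ideal.absNorm P - 1) / m) := by
  apply ps_uniq h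
  rw [sub_self]
  exact P.zero_mem

omit [NumberField F] in
theorem s2_mem (P : Ideal (𝓞 F)) (e : 𝓞 F ≃+* 𝓞 F) (x : 𝓞 F) : e x ∈ P.map (e : 𝓞 F →+* 𝓞 F) ↔ x ∈ P := by
  constructor
  · intro h
    have h1 := (Ideal.mem_map_of_equiv e (e x)).1 h
    obtain ⟨y, hy, hxy⟩ := h1
    rwa [← e.injective hxy]
  · intro h
    exact Ideal.mem_map_of_mem _ h

theorem s2_norm (P : Ideal (𝓞 F)) (e : 𝓞 F ≃+* 𝓞 F) : Ideal.absNorm (P.map (e : 𝓞 F →+* 𝓞 F)) = Ideal.absNorm P := by
  rw [Ideal.absNorm_apply, Ideal.absNorm_apply, Submodule.cardQuot_apply, Submodule.cardQuot_apply]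
  exact Nat.card_congr (Ideal.quotientEquiv P (P.map (e : 𝓞 F →+* 𝓞 F)) e rfl).toEquiv.symm

theorem s2_pp (h : PP m ζ P) (e : 𝓞 F ≃+* 𝓞 F) : PP m (e ζ) (P.map (e : 𝓞 F →+* 𝓞 F)) := by
  have hp := h.pr
  refine ⟨?_, ?_, ?_, h.root.map_of_injective e.injective, h.two⟩
  · exact Ideal.map_isPrime_of_equiv e
  · intro h1
    apply h.ne
    rw [eq_bot_iff]
    intro x hx
    have h2 : e x ∈ P.map (e : 𝓞 F →+* 𝓞 F) := (s2_mem P e x).2 hx
    rw [h1, Ideal.mem_bot] at h2
    rw [Ideal.mem_bot]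
    exact (map_eq_zero_iff e e.injective).1 h2
  · intro h1
    apply h.nm
    rw [← s2_mem P e, map_natCast]
    exact h1

/-- Chunk S2 (S/M). e is an automorphism of the ring. absNorm (P.map e) = absNorm P (Ideal.absNorm_map or the quotients are isomorphic: Ideal.quotientEquiv, Nat.card_congr); x in P iff e x in P.map e (Ideal.mem_map_of_equiv or Ideal.map_comap_of_equiv). Both sides are 0 if x is in P; otherwise ps_uniq for P.map e and e ζ (a primitive m-th root, IsPrimitiveRoot.map_of_injective). -/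
theorem ps_map (h : PP m ζ P) (e : 𝓞 F ≃+* 𝓞 F) (x : 𝓞 F) : ps m (e ζ) (P.map (e : 𝓞 F →+* 𝓞 F)) (e x) = e (ps m ζ P x) := by
  have h' := s2_pp h e
  by_cases hx : x ∈ P
  · rw [ps_zero h hx, ps_zero h' ((s2_mem P e x).2 hx), map_zero]
  · obtain ⟨⟨i, hi⟩, h1⟩ := ps_spec h hx
    rw [hi] at h1 ⊢
    rw [map_pow]
    apply ps_uniq h'
    rw [s2_norm, ← map_pow, ← map_pow, ← map_sub, s2_mem]
    exact h1

/-- Chunk S2 (S/M). ζ' = ζ^(m-1) is the inverse of ζ, its powers are the powers of ζ: the symbol does not depend on the choice of ζ among the primitive roots. -/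
theorem ps_inv (h : PP m ζ P) {ζ' : 𝓞 F} (h' : ζ' * ζ = 1) (x : 𝓞 F) : ps m ζ' P x = ps m ζ P x := by
  have hm : ζ ^ (m - 1) * ζ = 1 := by
    rw [← pow_succ, Nat.sub_add_cancel (by have := h.two; omega), h.root.pow_eq_one]
  have hz0 : ζ ≠ 0 := by
    rintro rfl
    rw [mul_zero] at h'
    exact zero_ne_one h'
  have he : ζ' = ζ ^ (m - 1) := mul_right_cancel₀ hz0 (h'.trans hm.symm)
  have hr : IsPrimitiveRoot ζ' m := by
    rw [he]
    refine h.root.pow_of_coprime _ ?_
    have h2 := h.two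
    obtain ⟨k, rfl⟩ : ∃ k, m = k + 1 := ⟨m - 1, by omega⟩
    rw [Nat.add_sub_cancel]
    simp
  have h2 : PP m ζ' P := ⟨h.pr, h.ne, h.nm, hr, h.two⟩
  have he2 : ζ = ζ' ^ (m - 1) := by
    have h3 : ζ' ^ (m - 1) * ζ' = 1 := by
      rw [← pow_succ, Nat.sub_add_cancel (by have := h.two; omega), hr.pow_eq_one]
    have h4 : ζ' ≠ 0 := by
      rintro rfl
      rw [zero_mul] at h'
      exact zero_ne_one h'
    rw [mul_comm] at h'
    exact mul_right_cancel₀ h4 (h'.trans h3.symm)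
  by_cases hx : x ∈ P
  · rw [ps_zero h hx, ps_zero h2 hx]
  · obtain ⟨⟨i, hi⟩, h1⟩ := ps_spec h hx
    rw [hi] at h1 ⊢
    rw [he2, ← pow_mul] at h1 ⊢
    exact ps_uniq h2 h1

end H55W
end

-- from Lib.H55W.S3
section

/-! # H55W, part S: the residue symbol as a multiplicative character -/

open NumberField

namespace H55W

variable {F : Type} [Field F] [NumberField F] {m : ℕ} {ζ : 𝓞 F} {P : Ideal (𝓞 F)}

/-- Chunk S3 (S). 𝓞 F ⧸ P is isomorphic to k (RingHom.quotientKerEquivOfSurjective). -/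
theorem card_k (k : Type) [Field k] [Fintype k] (φ : 𝓞 F →+* k) (hφ : Function.Surjective φ) (hker : RingHom.ker φ = P) :
    Fintype.card k = Ideal.absNorm P := by
  subst hker
  rw [Ideal.absNorm_apply, Submodule.cardQuot_apply, ← Nat.card_eq_fintype_card]
  exact Nat.card_congr (RingHom.quotientKerEquivOfSurjective hφ).toEquiv.symm

/-- Chunk S3 (M). χ y = ps m ζ P (a lift of y) (Function.surjInv hφ; independent of the lift by ps_congr; MulChar with toFun, map_one', map_mul' (ps_mul, ps_congr), map_nonunit' (the only nonunit is 0: ps_zero)). χ^m = 1 (MulChar.ext: ps_root, MulChar.pow_apply'). orderOf χ = m: if χ^j = 1 with 0 < j < m, take y a generator of the cyclic unit group of k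
(IsCyclic kˣ), x a lift: ps(x)^j = 1, so x^(j (N-1)/m) - 1 is in P (ps_spec, powers), so N - 1 divides j (N-1)/m < N - 1: contradiction (orderOf_dvd_iff_pow_eq_one). -/
theorem exists_char (h : PP m ζ P) (k : Type) [Field k] [Fintype k] (φ : 𝓞 F →+* k) (hφ : Function.Surjective φ)
    (hker : RingHom.ker φ = P) : ∃ χ : MulChar k (𝓞 F), χ ^ m = 1 ∧ orderOf χ = m ∧ ∀ x : 𝓞 F, χ (φ x) = ps m ζ P x := by
  have hmem : ∀ x : 𝓞 F, φ x = 0 ↔ x ∈ P := by
    intro x
    rw [← hker]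
    exact RingHom.mem_ker.symm
  have hs : ∀ y : k, φ (Function.surjInv hφ y) = y := Function.surjInv_eq hφ
  have hcg : ∀ x y : 𝓞 F, φ x = φ y → ps m ζ P x = ps m ζ P y := by
    intro x y hxy
    apply ps_congr h
    rw [← hmem, map_sub, hxy, sub_self]
  let χ : MulChar k (𝓞 F) :=
    { toFun := fun y => ps m ζ P (Function.surjInv hφ y)
      map_one' := by
        rw [hcg _ 1 (by rw [hs, map_one]), ps_one h]
      map_mul' := fun y z => by
        rw [← ps_mul h]
        apply hcg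
        rw [hs, map_mul, hs, hs]
      map_nonunit' := fun y hy => by
        have h0 : y = 0 := by
          by_contra h1
          exact hy (isUnit_iff_ne_zero.2 h1)
        show ps m ζ P (Function.surjInv hφ y) = 0
        apply ps_zero h
        rw [← hmem, hs, h0] }
  have hχ : ∀ x : 𝓞 F, χ (φ x) = ps m ζ P x := by
    intro x
    show ps m ζ P (Function.surjInv hφ (φ x)) = ps m ζ P x
    apply hcg
    rw [hs]
  have hu : ∀ (a : kˣ) (x : 𝓞 F), φ x = (a : k) → x ∉ P := by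
    intro a x hx hxP
    rw [← hmem, hx] at hxP
    exact a.ne_zero hxP
  have h1 : χ ^ m = 1 := by
    ext a
    obtain ⟨x, hx⟩ := hφ (a : k)
    rw [MulChar.pow_apply_coe, MulChar.one_apply_coe, ← hx, hχ, ps_root h (hu a x hx)]
  refine ⟨χ, h1, Nat.dvd_antisymm (orderOf_dvd_of_pow_eq_one h1) ?_, hχ⟩
  obtain ⟨y, hy⟩ := IsCyclic.exists_generator (α := kˣ)
  obtain ⟨x, hx⟩ := hφ (y : k)
  have hxP := hu y x hx
  obtain ⟨-, h2⟩ := ps_spec h hxP
  have h3 : ps m ζ P x ^ orderOf χ = 1 := by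
    have h4 : (χ ^ orderOf χ) (y : k) = 1 := by rw [pow_orderOf_eq_one, MulChar.one_apply_coe]
    rw [MulChar.pow_apply_coe, ← hx, hχ] at h4
    exact h4
  obtain ⟨hd1, hd2, hd3⟩ := ps_dvd h
  have h5 : x ^ ((Ideal.absNorm P - 1) / m * orderOf χ) - 1 ∈ P := by
    rw [← h3, pow_mul]
    obtain ⟨c, hc⟩ := sub_dvd_pow_sub_pow (x ^ ((Ideal.absNorm P - 1) / m)) (ps m ζ P x) (orderOf χ)
    rw [hc]
    exact P.mul_mem_right _ h2
  have h6 : y ^ ((Ideal.absNorm P - 1) / m * orderOf χ) = 1 := by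
    apply Units.ext
    rw [Units.val_pow_eq_pow_val, Units.val_one, ← hx, ← map_pow, ← sub_eq_zero, ← map_one φ, ← map_sub, hmem]
    exact h5
  have h7 : orderOf y = Ideal.absNorm P - 1 := by
    rw [orderOf_eq_card_of_forall_mem_zpowers hy, Nat.card_units, Nat.card_eq_fintype_card, card_k k φ hφ hker]
  have h8 := orderOf_dvd_of_pow_eq_one h6
  rw [h7] at h8
  have h9 : (Ideal.absNorm P - 1) / m * m ∣ (Ideal.absNorm P - 1) / m * orderOf χ := by
    rw [Nat.div_mul_cancel hd1]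
    exact h8
  exact (Nat.mul_dvd_mul_iff_left hd2).1 h9

end H55W
end

-- from Lib.H55W.S4
section

/-! # H55W, part S: products of residue symbols -/

open NumberField UniqueFactorizationMonoid

namespace H55W

variable {F : Type} [Field F] [NumberField F] {m : ℕ} {ζ : 𝓞 F} {J K P : Ideal (𝓞 F)}

theorem s4_le (hP : P ∈ normalizedFactors J) : J ≤ P := Ideal.le_of_dvd (dvd_of_mem_normalizedFactors hP)

theorem s4_pr (hP : P ∈ normalizedFactors J) : P.IsPrime := Ideal.isPrime_of_prime (prime_of_normalized_factor P hP)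

/-- Chunk S4 (S). P divides J (dvd_of_mem_normalizedFactors), prime (prime_of_normalized_factor, Ideal.isPrime_of_prime), not bottom; if m is in P then J and (m) are in P, so P = top: contradiction. -/
theorem pp_of (h : PJ m ζ J) (hP : P ∈ normalizedFactors J) : PP m ζ P := by
  have hpr := s4_pr hP
  refine ⟨hpr, (prime_of_normalized_factor P hP).ne_zero, fun hm => ?_, h.root, h.two⟩
  apply hpr.ne_top
  have h1 := Ideal.isCoprime_iff_sup_eq.1 h.cop
  rw [eq_top_iff, ← h1]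
  refine sup_le (s4_le hP) ?_
  rw [Ideal.span_singleton_le_iff_mem]
  exact hm

/-- Chunk S4 (S). normalizedFactors_mul. -/
theorem pj_mul_left (hJ : J ≠ ⊥) (hK : K ≠ ⊥) (x : 𝓞 F) : pj m ζ (J * K) x = pj m ζ J x * pj m ζ K x := by
  unfold pj
  rw [normalizedFactors_mul hJ hK, Multiset.map_add, Multiset.prod_add]

/-- Chunk S4 (S). -/
theorem pj_mul (h : PJ m ζ J) (x y : 𝓞 F) : pj m ζ J (x * y) = pj m ζ J x * pj m ζ J y := by
  unfold pj
  rw [← Multiset.prod_map_mul]
  congr 1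
  exact Multiset.map_congr rfl fun P hP => ps_mul (pp_of h hP) x y

/-- Chunk S4 (S). J ≤ P for the factors P (Ideal.le_of_dvd): ps_congr. -/
theorem pj_congr (h : PJ m ζ J) {x y : 𝓞 F} (hxy : x - y ∈ J) : pj m ζ J x = pj m ζ J y := by
  unfold pj
  congr 1
  exact Multiset.map_congr rfl fun P hP => ps_congr (pp_of h hP) (s4_le hP hxy)

/-- Chunk S4 (S). normalizedFactors_irreducible: P is irreducible and normalized (the normalization of ideals is trivial: normalize_eq). -/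
theorem pj_prime (h : PP m ζ P) (x : 𝓞 F) : pj m ζ P x = ps m ζ P x := by
  unfold pj
  rw [normalizedFactors_irreducible (Ideal.prime_of_isPrime h.ne h.pr).irreducible, normalize_eq, Multiset.map_singleton, Multiset.prod_singleton]

/-- Chunk S4 (S). normalizedFactors 1 = 0, ⊤ = 1. -/
theorem pj_top (x : 𝓞 F) : pj m ζ (⊤ : Ideal (𝓞 F)) x = 1 := by
  unfold pj
  rw [← Ideal.one_eq_top, normalizedFactors_one, Multiset.map_zero, Multiset.prod_zero]

/-- Chunk S4 (S). x is in no factor P (J ≤ P and x in P would give P = top): ps_root; the product of the m-th powers. -/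
theorem pj_root (h : PJ m ζ J) {x : 𝓞 F} (hx : IsCoprime (Ideal.span {x}) J) : pj m ζ J x ^ m = 1 := by
  unfold pj
  rw [← Multiset.prod_map_pow]
  apply Multiset.prod_eq_one
  intro z hz
  obtain ⟨P, hP, rfl⟩ := Multiset.mem_map.1 hz
  apply ps_root (pp_of h hP)
  intro hxP
  apply (s4_pr hP).ne_top
  have h1 := Ideal.isCoprime_iff_sup_eq.1 hx
  rw [eq_top_iff, ← h1]
  refine sup_le ?_ (s4_le hP)
  rw [Ideal.span_singleton_le_iff_mem]
  exact hxP

/-- Chunk S4 (S). -/
theorem pj_one (h : PJ m ζ J) : pj m ζ J 1 = 1 := by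
  unfold pj
  apply Multiset.prod_eq_one
  intro z hz
  obtain ⟨P, hP, rfl⟩ := Multiset.mem_map.1 hz
  exact ps_one (pp_of h hP)

/-- Chunk S4 (S/M). For each factor ps(ζ) = ζ^((N - 1)/m) (ps_zeta). Multiset induction: (N N' - 1)/m is congruent to (N - 1)/m + (N' - 1)/m modulo m, because N, N' are 1 modulo m and (N - 1)(N' - 1)/m is divisible by m. Use induction over J (UniqueFactorizationMonoid.induction_on_prime or the multiset of factors: J = product of its
normalized factors), map_mul of Ideal.absNorm; ζ^m = 1. Also m divides absNorm J - 1. -/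
theorem pj_zeta (h : PJ m ζ J) : m ∣ Ideal.absNorm J - 1 ∧ pj m ζ J ζ = ζ ^ ((Ideal.absNorm J - 1) / m) := by
  have hm : 0 < m := by have := h.two; omega
  have key : ∀ s : Multiset (Ideal (𝓞 F)), (∀ P ∈ s, PP m ζ P) →
      ∃ a : ℕ, Ideal.absNorm s.prod = 1 + m * a ∧ (s.map fun P => ps m ζ P ζ).prod = ζ ^ a := by
    intro s
    induction s using Multiset.induction_on with
    | empty =>
      intro _
      exact ⟨0, by simp, by simp⟩
    | cons P s ih =>
      intro hs
      obtain ⟨a, ha1, ha2⟩ := ih fun Q hQ => hs Q (Multiset.mem_cons_of_mem hQ)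
      have hP := hs P (Multiset.mem_cons_self P s)
      obtain ⟨⟨b, hb⟩, -, hb2⟩ := ps_dvd hP
      have hb3 : Ideal.absNorm P = 1 + m * b := by omega
      have hb4 : (Ideal.absNorm P - 1) / m = b := by
        rw [hb]
        exact Nat.mul_div_cancel_left b hm
      refine ⟨b + a + m * (b * a), ?_, ?_⟩
      · rw [Multiset.prod_cons, map_mul, ha1, hb3]
        ring
      · rw [Multiset.map_cons, Multiset.prod_cons, ha2, ps_zeta hP, hb4, pow_add, pow_mul, h.root.pow_eq_one, one_pow, mul_one, pow_add]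
  obtain ⟨a, h1, h2⟩ := key (normalizedFactors J) fun P hP => pp_of h hP
  rw [Ideal.prod_normalizedFactors_eq_self h.ne] at h1
  have h3 : Ideal.absNorm J - 1 = m * a := by omega
  refine ⟨⟨a, h3⟩, ?_⟩
  unfold pj
  rw [h2, h3, Nat.mul_div_cancel_left a hm]

end H55W
end

-- from Lib.H35K.Defs
section

/-!
# H35K: the algebra of supersingular cyclotomic towers (definitions)

O is a commutative ring, p a prime number such that O/p is a field with q elements. R is the module of global classes, W the module of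
local classes (the same for all places above p), both O-modules of p-power torsion with an O-linear operator (gam, del: the action of a
topological generator of the Galois group of the cyclotomic Z_p-extension). The classes of level n are those fixed by gam^(p^n).
D n is the module of the local classes of points of level n. See PROOF.md.
-/

namespace H35K

/-- J p n is the integral part of p^n/(p+1). -/
def J (p n : ℕ) : ℕ := p ^ n / (p + 1)

/-- The norm from level n + 1 to level n: the sum of the powers f^(i p^n), i < p. -/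
def nrm {O Z : Type} [CommRing O] [AddCommGroup Z] [Module O Z] (p n : ℕ) (f : Z →ₗ[O] Z) : Z →ₗ[O] Z :=
  ∑ i ∈ Finset.range p, f ^ (i * p ^ n)

/-- z is of level n. -/
def Lev {O Z : Type} [CommRing O] [AddCommGroup Z] [Module O Z] (p n : ℕ) (f : Z →ₗ[O] Z) (z : Z) : Prop :=
  (f ^ p ^ n) z = z

/-- The data of a tower: g is the number of places above p. -/
structure Tow {O R W : Type} [CommRing O] [AddCommGroup R] [Module O R] [AddCommGroup W] [Module O W]
    (p q g : ℕ) (gam : R →ₗ[O] R) (del : W →ₗ[O] W) (loc : Fin g → R →ₗ[O] W) (D : ℕ → Submodule O W) : Prop where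
  pr : p.Prime
  odd : 3 ≤ p
  gpos : 0 < g
  max : (Ideal.span {(p : O)}).IsMaximal
  card : Nat.card (O ⧸ Ideal.span {(p : O)}) = q
  q2 : 2 ≤ q
  comm : ∀ v r, loc v (gam r) = del (loc v r)
  torR : ∀ r : R, ∃ k : ℕ, p ^ k • r = 0
  torW : ∀ w : W, ∃ k : ℕ, p ^ k • w = 0
  -- the local module: there are at most q^2 classes of level 0 killed by p
  w0f : Finite {w : W // p • w = 0 ∧ del w = w}
  w0 : Nat.card {w : W // p • w = 0 ∧ del w = w} ≤ q ^ 2
  -- the classes of points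
  dlev : ∀ n, ∀ w ∈ D n, Lev p n del w
  dmono : ∀ n, D n ≤ D (n + 1)
  dst : ∀ n, ∀ w ∈ D n, del w ∈ D n
  dnrm : ∀ n, ∀ w ∈ D (n + 1), nrm p n del w ∈ D n
  ddiv : ∀ n, ∀ w ∈ D n, ∃ w' ∈ D n, p • w' = w
  dp : ∀ n, Nat.card {w : W // w ∈ D n ∧ p • w = 0} = q ^ p ^ n
  ds : ∀ n, ∀ w : W, (w ∈ D 0 ∧ p • w = 0) ↔
    ∃ w' ∈ D n, p • w' = 0 ∧ ((del - 1) ^ (p ^ n - 1 - J p n)) w' = w
  -- the global module: the classes of level n are at least as many as in a cofree module of rank g, and divisible;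
  -- at level 0 no nonzero class killed by p is everywhere the class of a point
  inj : ∀ r : R, p • r = 0 → gam r = r → (∀ v, loc v r ∈ D 0) → r = 0
  rdim : ∀ n, q ^ (g * p ^ n) ≤ Nat.card {r : R // p • r = 0 ∧ Lev p n gam r}
  rdiv : ∀ n, ∀ r : R, Lev p n gam r → ∃ r' : R, Lev p n gam r' ∧ p • r' = r

/-- The Selmer classes of level n. -/
def Selm {O R W : Type} [CommRing O] [AddCommGroup R] [Module O R] [AddCommGroup W] [Module O W]
    {g : ℕ} (p : ℕ) (gam : R →ₗ[O] R) (loc : Fin g → R →ₗ[O] W) (D : ℕ → Submodule O W) (n : ℕ) (r : R) : Prop :=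
  Lev p n gam r ∧ ∀ v, loc v r ∈ D n

end H35K
end

-- from Lib.SSG.E.A5
section

namespace SSG

/-! Chunk A5 (S/M). Pure algebra (field_simp, linear_combination). t = x/y, v = y^2/x^3, so t^2 v = 1/x, t^3 v = 1/y, t v^2 = y^3/x^5, t^3 v^3 = y^3/x^6. -/

/-- The numerator of x(P + R) + x(P). -/
def nX {k : Type} [Field k] (A B x₀ y₀ t v : k) : k :=
  A * t ^ 2 * v ^ 2 + B * t ^ 4 * v ^ 3 - 2 * y₀ * t * v ^ 2 + y₀ ^ 2 * t ^ 4 * v ^ 3 + 2 * x₀ * v - x₀ ^ 2 * t ^ 2 * v ^ 2

/-- The numerator of y(P + R) + y(P) up to a factor. -/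
def nY {k : Type} [Field k] (A B x₀ y₀ t v : k) : k :=
  A * t * v ^ 2 + B * t ^ 3 * v ^ 3 - 2 * y₀ * v ^ 2 + y₀ ^ 2 * t ^ 3 * v ^ 3 + 3 * x₀ ^ 2 * t * v ^ 2 - 2 * x₀ ^ 3 * t ^ 3 * v ^ 3

theorem a5_v {k : Type} [Field k] {A B x y : k} (h : y ^ 2 = x ^ 3 + A * x + B) (hx : x ≠ 0) (hy : y ≠ 0) :
    y ^ 2 / x ^ 3 = 1 + A * (x / y) ^ 4 * (y ^ 2 / x ^ 3) ^ 2 + B * (x / y) ^ 6 * (y ^ 2 / x ^ 3) ^ 3 := by
  field_simp
  linear_combination h

theorem a5_x {k : Type} [Field k] {A B x₀ y₀ x y : k} (h : y ^ 2 = x ^ 3 + A * x + B)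
    (hx : x ≠ 0) (hy : y ≠ 0) (hne : x ≠ x₀) :
    ((y - y₀) / (x - x₀)) ^ 2 - x₀ - x =
      nX A B x₀ y₀ (x / y) (y ^ 2 / x ^ 3) * (y ^ 2 / x ^ 3 * (1 - x₀ * (x / y) ^ 2 * (y ^ 2 / x ^ 3)) ^ 2)⁻¹ - x₀ := by
  have h1 : x - x₀ ≠ 0 := sub_ne_zero.2 hne
  have e1 : y ^ 2 / x ^ 3 * (1 - x₀ * (x / y) ^ 2 * (y ^ 2 / x ^ 3)) ^ 2 = y ^ 2 * (x - x₀) ^ 2 / x ^ 5 := by
    field_simp
  rw [e1]
  unfold nX
  field_simp
  linear_combination h

theorem a5_y {k : Type} [Field k] {A B x₀ y₀ x y : k} (h : y ^ 2 = x ^ 3 + A * x + B)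
    (hx : x ≠ 0) (hy : y ≠ 0) (hne : x ≠ x₀) :
    -((y - y₀) / (x - x₀) * (((y - y₀) / (x - x₀)) ^ 2 - x₀ - x - x₀) + y₀) =
      -y₀ - (1 - y₀ * (x / y) ^ 3 * (y ^ 2 / x ^ 3)) * nY A B x₀ y₀ (x / y) (y ^ 2 / x ^ 3) *
        (y ^ 2 / x ^ 3 * (1 - x₀ * (x / y) ^ 2 * (y ^ 2 / x ^ 3)) ^ 3)⁻¹ := by
  have h1 : x - x₀ ≠ 0 := sub_ne_zero.2 hne
  have e1 : y ^ 2 / x ^ 3 * (1 - x₀ * (x / y) ^ 2 * (y ^ 2 / x ^ 3)) ^ 3 = y ^ 2 * (x - x₀) ^ 3 / x ^ 6 := by
    field_simp
  rw [e1]
  unfold nY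
  field_simp
  linear_combination (-(y - y₀)) * h

end SSG
end

-- from Lib.H16S.Defs
section

/-!
# H16S: the formal group of y^2 = x^3 + a x + b (definitions)

Coordinates near the origin: t = x/y, w = 1/y, so that w = t^3 + a t w^2 + b w^3. The addition in these coordinates is given by
rational functions whose denominators d1, d2 are units near the origin. Ring.inverse is the inverse of a unit of a ring.
See PROOF.md.
-/

open PowerSeries

namespace H16S

section alg

variable {S : Type} [CommRing S]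

/-- The equation of the curve in the coordinates t, w. -/
def Eqn (a b t w : S) : Prop := w = t ^ 3 + a * t * w ^ 2 + b * w ^ 3

/-- The denominator of the slope. -/
def d1 (a b t₁ w₁ t₂ w₂ : S) : S := 1 - a * t₂ * (w₁ + w₂) - b * (w₁ ^ 2 + w₁ * w₂ + w₂ ^ 2)

/-- The numerator of the slope. -/
def n1 (a t₁ w₁ t₂ : S) : S := t₁ ^ 2 + t₁ * t₂ + t₂ ^ 2 + a * w₁ ^ 2

/-- The slope of the line through the two points. -/
noncomputable def lam (a b t₁ w₁ t₂ w₂ : S) : S := n1 a t₁ w₁ t₂ * Ring.inverse (d1 a b t₁ w₁ t₂ w₂)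

/-- The line is w = lam t + nu. -/
noncomputable def nu (a b t₁ w₁ t₂ w₂ : S) : S := w₁ - lam a b t₁ w₁ t₂ w₂ * t₁

/-- The leading coefficient of the cubic equation for the intersection with the line. -/
noncomputable def d2 (a b t₁ w₁ t₂ w₂ : S) : S :=
  1 + a * lam a b t₁ w₁ t₂ w₂ ^ 2 + b * lam a b t₁ w₁ t₂ w₂ ^ 3

/-- The coordinate t of the sum. -/
noncomputable def addt (a b t₁ w₁ t₂ w₂ : S) : S :=
  t₁ + t₂ + (2 * a * lam a b t₁ w₁ t₂ w₂ + 3 * b * lam a b t₁ w₁ t₂ w₂ ^ 2) * nu a b t₁ w₁ t₂ w₂ *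
    Ring.inverse (d2 a b t₁ w₁ t₂ w₂)

/-- The coordinate w of the sum. -/
noncomputable def addw (a b t₁ w₁ t₂ w₂ : S) : S :=
  lam a b t₁ w₁ t₂ w₂ * addt a b t₁ w₁ t₂ w₂ - nu a b t₁ w₁ t₂ w₂

end alg

section ser

variable {R : Type} [CommRing R]

/-- A power series W with W = X^3 + a X W^2 + b W^3 and constant term 0. -/
def IsW (a b : R) (W : R⟦X⟧) : Prop := constantCoeff W = 0 ∧ Eqn (C a) (C b) X W

/-- The series for the coordinates of the multiples n P, P the point with coordinates X, W. -/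
noncomputable def TW (a b : R) (W : R⟦X⟧) : ℕ → R⟦X⟧ × R⟦X⟧
  | 0 => (0, 0)
  | n + 1 => (addt (C a) (C b) (TW a b W n).1 (TW a b W n).2 X W, addw (C a) (C b) (TW a b W n).1 (TW a b W n).2 X W)

/-- The value of a power series. -/
noncomputable def ev {K : Type} [NormedField K] (φ : R →+* K) (z : K) (f : R⟦X⟧) : K :=
  ∑' n : ℕ, φ (coeff n f) * z ^ n

end ser

/-- The unit ball of an ultrametric field. -/
def ball (K : Type) [NormedField K] [IsUltrametricDist K] : ValuationSubring K where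
  carrier := {x | ‖x‖ ≤ 1}
  mul_mem' := fun {x y} hx hy => by
    show ‖x * y‖ ≤ 1
    rw [norm_mul]
    exact mul_le_one₀ hx (norm_nonneg y) hy
  one_mem' := by
    show ‖(1 : K)‖ ≤ 1
    rw [norm_one]
  add_mem' := fun {x y} hx hy => (IsUltrametricDist.norm_add_le_max x y).trans (max_le hx hy)
  zero_mem' := by
    show ‖(0 : K)‖ ≤ 1
    rw [norm_zero]
    exact zero_le_one
  neg_mem' := fun {x} hx => by
    show ‖-x‖ ≤ 1
    rw [norm_neg]
    exact hx
  mem_or_inv_mem' := fun x => by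
    by_cases h : ‖x‖ ≤ 1
    · exact Or.inl h
    · right
      show ‖x⁻¹‖ ≤ 1
      rw [norm_inv]
      exact inv_le_one_of_one_le₀ (not_le.1 h).le

theorem mem_ball {K : Type} [NormedField K] [IsUltrametricDist K] (x : K) : x ∈ ball K ↔ ‖x‖ ≤ 1 := Iff.rfl

theorem ball_le {K : Type} [NormedField K] [IsUltrametricDist K] (x y : K) :
    (ball K).valuation x ≤ (ball K).valuation y ↔ ‖x‖ ≤ ‖y‖ := by
  by_cases hy : y = 0
  · rw [hy, map_zero, le_zero_iff, norm_zero, norm_le_zero_iff]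
    exact map_eq_zero _
  · have h1 : (ball K).valuation x ≤ (ball K).valuation y ↔ (ball K).valuation (x / y) ≤ 1 := by
      rw [map_div₀, div_le_one₀ (zero_lt_iff.2 ((map_ne_zero _).2 hy))]
    rw [h1, ValuationSubring.valuation_le_one_iff, mem_ball, norm_div, div_le_one₀ (norm_pos_iff.2 hy)]

theorem ball_lt {K : Type} [NormedField K] [IsUltrametricDist K] (x y : K) :
    (ball K).valuation x < (ball K).valuation y ↔ ‖x‖ < ‖y‖ := by
  rw [← not_le, ball_le, not_le]

theorem ball_le_one {K : Type} [NormedField K] [IsUltrametricDist K] (x : K) :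
    (ball K).valuation x ≤ 1 ↔ ‖x‖ ≤ 1 := by
  rw [ValuationSubring.valuation_le_one_iff, mem_ball]

theorem ball_lt_one {K : Type} [NormedField K] [IsUltrametricDist K] (x : K) :
    (ball K).valuation x < 1 ↔ ‖x‖ < 1 := by
  have := ball_lt x 1
  rwa [map_one, norm_one] at this

end H16S
end

-- from Lib.H16S.A1
section

/-! # H16S, chunk A1: the addition formulas over a commutative ring -/

namespace H16S

variable {S : Type} [CommRing S] {a b t₁ w₁ t₂ w₂ : S}

/-- Chunk A1 (S). lam times its denominator. -/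
theorem lam_mul (h1 : IsUnit (d1 a b t₁ w₁ t₂ w₂)) : lam a b t₁ w₁ t₂ w₂ * d1 a b t₁ w₁ t₂ w₂ = n1 a t₁ w₁ t₂ := by
  unfold lam
  rw [mul_assoc, Ring.inverse_mul_cancel _ h1, mul_one]

/-- Chunk A1 (S/M). The second point lies on the line. PROOF. Subtract the two equations: (w₁ - w₂) d1 = (t₁ - t₂) n1 (t₁ w₁² - t₂ w₂² = (t₁ - t₂) w₁² + t₂ (w₁ - w₂)(w₁ + w₂)),
so d1 (w₁ - w₂ - lam (t₁ - t₂)) = 0 by lam_mul and d1 is a unit. -/
theorem on_line (e1 : Eqn a b t₁ w₁) (e2 : Eqn a b t₂ w₂) (h1 : IsUnit (d1 a b t₁ w₁ t₂ w₂)) :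
    w₂ = lam a b t₁ w₁ t₂ w₂ * t₂ + nu a b t₁ w₁ t₂ w₂ := by
  have h := lam_mul h1
  apply h1.mul_left_cancel
  unfold nu
  generalize lam a b t₁ w₁ t₂ w₂ = l at h ⊢
  unfold Eqn at e1 e2
  unfold d1 n1 at h
  unfold d1
  linear_combination e2 - e1 - (t₂ - t₁) * h


/-- the inverse of a unit and ring homomorphisms -/
theorem a1_inv {S' : Type} [CommRing S'] (φ : S →+* S') {x : S} (h : IsUnit x) :
    φ (Ring.inverse x) = Ring.inverse (φ x) := by
  apply (h.map φ).mul_left_cancel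
  rw [Ring.mul_inverse_cancel _ (h.map φ), ← map_mul, Ring.mul_inverse_cancel _ h, map_one]

/-- Chunk A1 (S/M). Compatibility with ring homomorphisms. PROOF. For a unit x: φ (Ring.inverse x) = Ring.inverse (φ x) (Ring.inverse of a unit u is u⁻¹; map_units_inv or
multiply by φ x). d1, n1 are polynomials. -/
theorem map_lam {S' : Type} [CommRing S'] (φ : S →+* S') (h1 : IsUnit (d1 a b t₁ w₁ t₂ w₂)) :
    φ (lam a b t₁ w₁ t₂ w₂) = lam (φ a) (φ b) (φ t₁) (φ w₁) (φ t₂) (φ w₂) := by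
  unfold lam
  rw [map_mul, a1_inv φ h1]
  unfold n1 d1
  simp only [map_add, map_sub, map_mul, map_pow, map_one]

/-- Chunk A1 (S/M). -/
theorem map_add' {S' : Type} [CommRing S'] (φ : S →+* S') (h1 : IsUnit (d1 a b t₁ w₁ t₂ w₂))
    (h2 : IsUnit (d2 a b t₁ w₁ t₂ w₂)) :
    φ (addt a b t₁ w₁ t₂ w₂) = addt (φ a) (φ b) (φ t₁) (φ w₁) (φ t₂) (φ w₂) ∧
      φ (addw a b t₁ w₁ t₂ w₂) = addw (φ a) (φ b) (φ t₁) (φ w₁) (φ t₂) (φ w₂) := by
  have h3 := map_lam φ h1
  have h4 : φ (nu a b t₁ w₁ t₂ w₂) = nu (φ a) (φ b) (φ t₁) (φ w₁) (φ t₂) (φ w₂) := by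
    unfold nu
    rw [map_sub, map_mul, h3]
  have h5 : φ (d2 a b t₁ w₁ t₂ w₂) = d2 (φ a) (φ b) (φ t₁) (φ w₁) (φ t₂) (φ w₂) := by
    unfold d2
    simp only [map_add, map_mul, map_pow, map_one, h3]
  have h6 : φ (addt a b t₁ w₁ t₂ w₂) = addt (φ a) (φ b) (φ t₁) (φ w₁) (φ t₂) (φ w₂) := by
    unfold addt
    simp only [map_add, map_mul, map_pow, map_ofNat, h3, h4, a1_inv φ h2, h5]
  refine ⟨h6, ?_⟩
  unfold addw
  rw [map_sub, map_mul, h3, h4, h6]

end H16S
end

-- from Lib.SSG.LT.FC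
section

set_option linter.unusedSectionVars false

/-! # SSG/LT: uniform limits of integral polynomials in given functions -/

namespace SSG.LT

variable {C : Type} [NormedField C] {X ι : Type} [Fintype ι]

/-- `H` is a uniform limit of polynomials with integral coefficients in the functions `τ i`. -/
def Cl (τ : ι → X → C) (H : X → C) : Prop :=
  ∀ ε : ℝ, 0 < ε → ∃ Q : MvPolynomial ι C, (∀ m, ‖Q.coeff m‖ ≤ 1) ∧
    ∀ x, ‖H x - MvPolynomial.eval (fun i => τ i x) Q‖ ≤ ε

variable [IsUltrametricDist C]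

theorem int_mul {P Q : MvPolynomial ι C} (hP : ∀ m, ‖P.coeff m‖ ≤ 1) (hQ : ∀ m, ‖Q.coeff m‖ ≤ 1) (m : ι →₀ ℕ) :
    ‖(P * Q).coeff m‖ ≤ 1 := by
  classical
  rw [MvPolynomial.coeff_mul]
  refine IsUltrametricDist.norm_sum_le_of_forall_le_of_nonneg zero_le_one fun x _ => ?_
  rw [norm_mul]
  exact mul_le_one₀ (hP _) (norm_nonneg _) (hQ _)

theorem int_add {P Q : MvPolynomial ι C} (hP : ∀ m, ‖P.coeff m‖ ≤ 1) (hQ : ∀ m, ‖Q.coeff m‖ ≤ 1) (m : ι →₀ ℕ) :
    ‖(P + Q).coeff m‖ ≤ 1 := by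
  rw [MvPolynomial.coeff_add]
  exact (IsUltrametricDist.norm_add_le_max _ _).trans (max_le (hP m) (hQ m))

theorem int_C {a : C} (ha : ‖a‖ ≤ 1) (m : ι →₀ ℕ) : ‖(MvPolynomial.C a : MvPolynomial ι C).coeff m‖ ≤ 1 := by
  classical
  rw [MvPolynomial.coeff_C]
  split
  · exact ha
  · rw [norm_zero]
    exact zero_le_one

theorem int_X (i : ι) (m : ι →₀ ℕ) : ‖(MvPolynomial.X i : MvPolynomial ι C).coeff m‖ ≤ 1 := by
  classical
  rw [MvPolynomial.coeff_X]
  split
  · rw [norm_one]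
  · rw [norm_zero]
    exact zero_le_one

theorem eval_le {τ : ι → X → C} (hτ : ∀ i x, ‖τ i x‖ ≤ 1) {Q : MvPolynomial ι C} (hQ : ∀ m, ‖Q.coeff m‖ ≤ 1)
    (x : X) : ‖MvPolynomial.eval (fun i => τ i x) Q‖ ≤ 1 := by
  rw [MvPolynomial.eval_eq]
  refine IsUltrametricDist.norm_sum_le_of_forall_le_of_nonneg zero_le_one fun m _ => ?_
  rw [norm_mul]
  refine mul_le_one₀ (hQ _) (norm_nonneg _) ?_
  rw [norm_prod]
  refine Finset.prod_le_one (fun i _ => norm_nonneg _) fun i _ => ?_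
  rw [norm_pow]
  exact pow_le_one₀ (norm_nonneg _) (hτ i x)

variable {τ : ι → X → C}

theorem Cl.norm_le (hτ : ∀ i x, ‖τ i x‖ ≤ 1) {H : X → C} (h : Cl τ H) (x : X) : ‖H x‖ ≤ 1 := by
  obtain ⟨Q, hQ, h1⟩ := h 1 one_pos
  have h2 : H x = (H x - MvPolynomial.eval (fun i => τ i x) Q) + MvPolynomial.eval (fun i => τ i x) Q := by ring
  rw [h2]
  exact (IsUltrametricDist.norm_add_le_max _ _).trans (max_le (h1 x) (eval_le hτ hQ x))

theorem Cl.const {a : C} (ha : ‖a‖ ≤ 1) : Cl τ fun _ => a := by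
  intro ε hε
  refine ⟨MvPolynomial.C a, int_C ha, fun x => ?_⟩
  rw [MvPolynomial.eval_C, sub_self, norm_zero]
  exact hε.le

theorem Cl.var (i : ι) : Cl τ (τ i) := by
  intro ε hε
  refine ⟨MvPolynomial.X i, int_X i, fun x => ?_⟩
  rw [MvPolynomial.eval_X, sub_self, norm_zero]
  exact hε.le

theorem Cl.add {H K : X → C} (h : Cl τ H) (k : Cl τ K) : Cl τ fun x => H x + K x := by
  intro ε hε
  obtain ⟨P, hP, h1⟩ := h ε hε
  obtain ⟨Q, hQ, h2⟩ := k ε hε
  refine ⟨P + Q, int_add hP hQ, fun x => ?_⟩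
  rw [map_add]
  have e : H x + K x - (MvPolynomial.eval (fun i => τ i x) P + MvPolynomial.eval (fun i => τ i x) Q) =
      (H x - MvPolynomial.eval (fun i => τ i x) P) + (K x - MvPolynomial.eval (fun i => τ i x) Q) := by ring
  rw [e]
  exact (IsUltrametricDist.norm_add_le_max _ _).trans (max_le (h1 x) (h2 x))

theorem Cl.mul (hτ : ∀ i x, ‖τ i x‖ ≤ 1) {H K : X → C} (h : Cl τ H) (k : Cl τ K) : Cl τ fun x => H x * K x := by
  intro ε hε
  obtain ⟨P, hP, h1⟩ := h ε hε
  obtain ⟨Q, hQ, h2⟩ := k ε hε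
  refine ⟨P * Q, int_mul hP hQ, fun x => ?_⟩
  rw [map_mul]
  have e : H x * K x - MvPolynomial.eval (fun i => τ i x) P * MvPolynomial.eval (fun i => τ i x) Q =
      (H x - MvPolynomial.eval (fun i => τ i x) P) * K x +
        MvPolynomial.eval (fun i => τ i x) P * (K x - MvPolynomial.eval (fun i => τ i x) Q) := by ring
  rw [e]
  refine (IsUltrametricDist.norm_add_le_max _ _).trans (max_le ?_ ?_)
  · rw [norm_mul]
    calc _ ≤ ε * 1 := mul_le_mul (h1 x) (k.norm_le hτ x) (norm_nonneg _) hε.le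
      _ = ε := mul_one ε
  · rw [norm_mul]
    calc _ ≤ 1 * ε := mul_le_mul (eval_le hτ hP x) (h2 x) (norm_nonneg _) zero_le_one
      _ = ε := one_mul ε

theorem Cl.congr {H K : X → C} (h : Cl τ H) (e : ∀ x, K x = H x) : Cl τ K := by
  have : K = H := funext e
  rw [this]
  exact h

theorem Cl.smul (hτ : ∀ i x, ‖τ i x‖ ≤ 1) {H : X → C} (h : Cl τ H) {a : C} (ha : ‖a‖ ≤ 1) : Cl τ fun x => a * H x :=
  Cl.mul hτ (Cl.const ha) h

theorem Cl.neg (hτ : ∀ i x, ‖τ i x‖ ≤ 1) {H : X → C} (h : Cl τ H) : Cl τ fun x => - H x :=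
  (h.smul hτ (a := -1) (by rw [norm_neg, norm_one])).congr fun x => by ring

theorem Cl.sub (hτ : ∀ i x, ‖τ i x‖ ≤ 1) {H K : X → C} (h : Cl τ H) (k : Cl τ K) : Cl τ fun x => H x - K x :=
  (h.add (k.neg hτ)).congr fun x => by ring

theorem Cl.pow (hτ : ∀ i x, ‖τ i x‖ ≤ 1) {H : X → C} (h : Cl τ H) (n : ℕ) : Cl τ fun x => H x ^ n := by
  induction n with
  | zero => exact (Cl.const (τ := τ) (a := 1) norm_one.le).congr fun x => pow_zero _
  | succ n ih => exact (Cl.mul hτ ih h).congr fun x => pow_succ _ _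

theorem Cl.sum {κ : Type} (s : Finset κ) {H : κ → X → C} (h : ∀ k ∈ s, Cl τ (H k)) : Cl τ fun x => ∑ k ∈ s, H k x := by
  classical
  induction s using Finset.induction_on with
  | empty => exact (Cl.const (τ := τ) (a := 0) (by rw [norm_zero]; exact zero_le_one)).congr fun x => by simp
  | insert k s hk ih =>
    refine ((h k (Finset.mem_insert_self _ _)).add (ih fun l hl => h l (Finset.mem_insert_of_mem hl))).congr fun x => ?_
    rw [Finset.sum_insert hk]

theorem Cl.lim {H : X → C} (h : ∀ ε : ℝ, 0 < ε → ∃ K : X → C, Cl τ K ∧ ∀ x, ‖H x - K x‖ ≤ ε) : Cl τ H := by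
  intro ε hε
  obtain ⟨K, hK, h1⟩ := h ε hε
  obtain ⟨Q, hQ, h2⟩ := hK ε hε
  refine ⟨Q, hQ, fun x => ?_⟩
  have e : H x - MvPolynomial.eval (fun i => τ i x) Q =
      (H x - K x) + (K x - MvPolynomial.eval (fun i => τ i x) Q) := by ring
  rw [e]
  exact (IsUltrametricDist.norm_add_le_max _ _).trans (max_le (h1 x) (h2 x))

/-- The inverse of `1 + (small)`. -/
theorem Cl.inv (hτ : ∀ i x, ‖τ i x‖ ≤ 1) {H : X → C} (h : Cl τ H) {ρ : ℝ} (hρ : ρ < 1) (hb : ∀ x, ‖H x‖ ≤ ρ) :
    Cl τ fun x => (1 + H x)⁻¹ := by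
  rcases isEmpty_or_nonempty X with hX | ⟨⟨x₀⟩⟩
  · intro ε _
    exact ⟨0, fun m => by simp, fun x => (hX.false x).elim⟩
  have hρ0 : 0 ≤ ρ := (norm_nonneg _).trans (hb x₀)
  refine Cl.lim fun ε hε => ?_
  obtain ⟨n, hn⟩ := exists_pow_lt_of_lt_one hε hρ
  refine ⟨fun x => ∑ k ∈ Finset.range n, (-H x) ^ k, Cl.sum _ fun k _ => (h.neg hτ).pow hτ k, fun x => ?_⟩
  have h1 : ‖1 + H x‖ = 1 := by
    have h2 : ‖H x‖ < ‖(1 : C)‖ := by rw [norm_one]; exact (hb x).trans_lt hρ
    rw [IsUltrametricDist.norm_add_eq_max_of_norm_ne_norm h2.ne', max_eq_left h2.le, norm_one]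
  have h0 : 1 + H x ≠ 0 := by
    intro h0
    rw [h0, norm_zero] at h1
    exact zero_ne_one h1
  have h2 : (1 + H x) * ∑ k ∈ Finset.range n, (-H x) ^ k = 1 - (-H x) ^ n := by
    have := mul_neg_geom_sum (-H x) n
    rwa [sub_neg_eq_add] at this
  have h3 : (1 + H x)⁻¹ - ∑ k ∈ Finset.range n, (-H x) ^ k = (1 + H x)⁻¹ * (-H x) ^ n := by
    have h4 : ∑ k ∈ Finset.range n, (-H x) ^ k = (1 + H x)⁻¹ * (1 - (-H x) ^ n) := by
      rw [← h2, ← mul_assoc, inv_mul_cancel₀ h0, one_mul]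
    rw [h4]
    ring
  rw [h3, norm_mul, norm_inv, h1, inv_one, one_mul, norm_pow, norm_neg]
  exact (pow_le_pow_left₀ (norm_nonneg _) (hb x) n).trans hn.le

end SSG.LT
end

-- from Lib.SSG.LT.PS
section

set_option linter.unusedSectionVars false

/-! # SSG/LT: values of power series with integral coefficients -/

namespace SSG.LT

variable {C : Type} [NormedField C] [IsUltrametricDist C] [CompleteSpace C]

/-- The value of the power series with coefficients `a`. -/
noncomputable def sv (a : ℕ → C) (z : C) : C := ∑' n, a n * z ^ n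

theorem sv_summable {a : ℕ → C} (ha : ∀ n, ‖a n‖ ≤ 1) {z : C} (hz : ‖z‖ < 1) :
    Summable fun n => ‖a n * z ^ n‖ := by
  refine Summable.of_nonneg_of_le (fun n => norm_nonneg _) (fun n => ?_)
    (summable_geometric_of_lt_one (norm_nonneg z) hz)
  rw [norm_mul, norm_pow]
  exact mul_le_of_le_one_left (by positivity) (ha n)

theorem norm_tsum_le_of {f : ℕ → C} (hf : Summable f) {c : ℝ} (hc : 0 ≤ c) (h : ∀ n, ‖f n‖ ≤ c) : ‖∑' n, f n‖ ≤ c := by
  have h1 := hf.hasSum.tendsto_sum_nat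
  refine le_of_tendsto h1.norm (Filter.Eventually.of_forall fun n => ?_)
  exact IsUltrametricDist.norm_sum_le_of_forall_le_of_nonneg hc fun i _ => h i

theorem tail_aux {f : ℕ → C} (hs : Summable f) (n : ℕ) {c : ℝ} (hc : 0 ≤ c) (h : ∀ k, ‖f (k + n)‖ ≤ c) :
    ‖(∑' k, f k) - ∑ k ∈ Finset.range n, f k‖ ≤ c := by
  have h1 := hs.sum_add_tsum_nat_add n
  have h3 : Summable (fun k => f (k + n)) := (summable_nat_add_iff (f := f) n).2 hs
  have h2 : (∑' k, f k) - ∑ k ∈ Finset.range n, f k = ∑' k, f (k + n) := by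
    rw [sub_eq_iff_eq_add']
    exact h1.symm
  rw [h2]
  exact norm_tsum_le_of h3 hc h

/-- Truncation. -/
theorem sv_trunc {a : ℕ → C} (ha : ∀ n, ‖a n‖ ≤ 1) {z : C} (hz : ‖z‖ < 1) (n : ℕ) :
    ‖sv a z - ∑ k ∈ Finset.range n, a k * z ^ k‖ ≤ ‖z‖ ^ n := by
  have hs : Summable fun k => a k * z ^ k := (sv_summable ha hz).of_norm
  refine tail_aux hs n (by positivity) fun k => ?_
  show ‖a (k + n) * z ^ (k + n)‖ ≤ ‖z‖ ^ n
  rw [pow_add, norm_mul, norm_mul, norm_pow, norm_pow]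
  have h3 : ‖z‖ ^ k ≤ 1 := pow_le_one₀ (norm_nonneg _) hz.le
  calc ‖a (k + n)‖ * (‖z‖ ^ k * ‖z‖ ^ n) ≤ 1 * (1 * ‖z‖ ^ n) := by
        refine mul_le_mul (ha _) ?_ (by positivity) zero_le_one
        exact mul_le_mul_of_nonneg_right h3 (by positivity)
    _ = ‖z‖ ^ n := by rw [one_mul, one_mul]

theorem sv_le_one {a : ℕ → C} (ha : ∀ n, ‖a n‖ ≤ 1) {z : C} (hz : ‖z‖ < 1) : ‖sv a z‖ ≤ 1 := by
  have h := sv_trunc ha hz 0
  simpa using h

/-- Divisible by `X ^ n`. -/
theorem sv_dvd {a : ℕ → C} (ha : ∀ n, ‖a n‖ ≤ 1) {z : C} (hz : ‖z‖ < 1) {n : ℕ} (h0 : ∀ k < n, a k = 0) :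
    ‖sv a z‖ ≤ ‖z‖ ^ n := by
  have h := sv_trunc ha hz n
  rw [Finset.sum_eq_zero (fun k hk => by rw [h0 k (Finset.mem_range.1 hk), zero_mul]), sub_zero] at h
  exact h

/-- A Lipschitz estimate. -/
theorem sv_lip {a : ℕ → C} (ha : ∀ n, ‖a n‖ ≤ 1) (h0 : ∀ k < 2, a k = 0) {z z' : C} {ρ : ℝ} (hρ0 : 0 ≤ ρ)
    (hρ : ρ < 1) (hz : ‖z‖ ≤ ρ) (hz' : ‖z'‖ ≤ ρ) : ‖sv a z - sv a z'‖ ≤ ρ * ‖z - z'‖ := by
  have hs : Summable fun k => a k * z ^ k := (sv_summable ha (hz.trans_lt hρ)).of_norm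
  have hs' : Summable fun k => a k * z' ^ k := (sv_summable ha (hz'.trans_lt hρ)).of_norm
  unfold sv
  rw [← hs.tsum_sub hs']
  refine norm_tsum_le_of (hs.sub hs') (by positivity) fun k => ?_
  rw [← mul_sub, norm_mul]
  by_cases hk : k < 2
  · rw [h0 k hk, norm_zero, zero_mul]
    positivity
  · obtain ⟨l, rfl⟩ : ∃ l, k = l + 2 := ⟨k - 2, by omega⟩
    rw [← geom_sum₂_mul, norm_mul]
    have h1 : ‖∑ i ∈ Finset.range (l + 2), z ^ i * z' ^ (l + 2 - 1 - i)‖ ≤ ρ := by
      refine IsUltrametricDist.norm_sum_le_of_forall_le_of_nonneg hρ0 fun i hi => ?_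
      rw [Finset.mem_range] at hi
      rw [norm_mul, norm_pow, norm_pow]
      calc ‖z‖ ^ i * ‖z'‖ ^ (l + 2 - 1 - i) ≤ ρ ^ i * ρ ^ (l + 2 - 1 - i) :=
            mul_le_mul (pow_le_pow_left₀ (norm_nonneg _) hz _) (pow_le_pow_left₀ (norm_nonneg _) hz' _)
              (by positivity) (by positivity)
        _ = ρ ^ (l + 1) := by
            rw [← pow_add]
            congr 1
            omega
        _ ≤ ρ := by
            rw [pow_succ]
            exact mul_le_of_le_one_left hρ0 (pow_le_one₀ hρ0 hρ.le)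
    calc ‖a (l + 2)‖ * (‖∑ i ∈ Finset.range (l + 2), z ^ i * z' ^ (l + 2 - 1 - i)‖ * ‖z - z'‖)
        ≤ 1 * (ρ * ‖z - z'‖) := by
          refine mul_le_mul (ha _) (mul_le_mul_of_nonneg_right h1 (norm_nonneg _)) (by positivity) zero_le_one
      _ = ρ * ‖z - z'‖ := one_mul _

section hom

variable {R : Type} [CommRing R] (φ : R →+* C) (hφ : ∀ r, ‖φ r‖ ≤ 1) {z : C} (hz : ‖z‖ < 1)

open PowerSeries in
/-- The evaluation as a homomorphism. -/
noncomputable def ev : R⟦X⟧ →+* C where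
  toFun h := sv (fun n => φ (coeff n h)) z
  map_one' := by
    unfold sv
    rw [tsum_eq_single 0]
    · simp
    · intro n hn
      simp [coeff_one, hn]
  map_mul' f g := by
    unfold sv
    rw [tsum_mul_tsum_eq_tsum_sum_antidiagonal_of_summable_norm
      (sv_summable (fun n => hφ (coeff n f)) hz) (sv_summable (fun n => hφ (coeff n g)) hz)]
    congr 1
    funext n
    show φ (coeff n (f * g)) * z ^ n = _
    rw [coeff_mul, map_sum, Finset.sum_mul]
    refine Finset.sum_congr rfl fun x hx => ?_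
    have hx' : x.1 + x.2 = n := by simpa using hx
    rw [← hx', map_mul, pow_add]
    ring
  map_zero' := by
    unfold sv
    simp
  map_add' f g := by
    unfold sv
    rw [← ((sv_summable (fun n => hφ (coeff n f)) hz).of_norm).tsum_add
      ((sv_summable (fun n => hφ (coeff n g)) hz).of_norm)]
    congr 1
    funext n
    show φ (coeff n (f + g)) * z ^ n = _
    rw [map_add, map_add, add_mul]

theorem ev_apply (h : PowerSeries R) : ev φ hφ hz h = sv (fun n => φ (PowerSeries.coeff n h)) z := rfl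

theorem ev_X : ev φ hφ hz PowerSeries.X = z := by
  rw [ev_apply]
  unfold sv
  rw [tsum_eq_single 1]
  · simp
  · intro n hn
    simp [PowerSeries.coeff_X, hn]

theorem ev_C (r : R) : ev φ hφ hz (PowerSeries.C r) = φ r := by
  rw [ev_apply]
  unfold sv
  rw [tsum_eq_single 0]
  · simp
  · intro n hn
    simp [PowerSeries.coeff_C, hn]

theorem ev_dvd {n : ℕ} {h : PowerSeries R} (hd : PowerSeries.X ^ n ∣ h) : ‖ev φ hφ hz h‖ ≤ ‖z‖ ^ n := by
  rw [PowerSeries.X_pow_dvd_iff] at hd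
  rw [ev_apply]
  exact sv_dvd (fun n => hφ _) hz fun k hk => by rw [hd k hk, map_zero]

/-- A polynomial in a power series. -/
theorem ev_aeval (P : Polynomial R) (f : PowerSeries R) :
    ev φ hφ hz (P.eval₂ PowerSeries.C f) = P.eval₂ φ (ev φ hφ hz f) := by
  rw [Polynomial.hom_eval₂]
  congr 1
  ext r
  rw [RingHom.comp_apply, ev_C]

end hom

end SSG.LT
end

-- from Lib.SSG.LT.FC2
section

set_option linter.unusedSectionVars false

/-! # SSG/LT: power series in a function of the class -/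

namespace SSG.LT

variable {C : Type} [NormedField C] {X ι : Type} [Fintype ι] [IsUltrametricDist C] [CompleteSpace C]
  {τ : ι → X → C}

theorem Cl.sv (hτ : ∀ i x, ‖τ i x‖ ≤ 1) {H : X → C} (h : Cl τ H) {ρ : ℝ} (hρ : ρ < 1)
    (hb : ∀ x, ‖H x‖ ≤ ρ) {a : ℕ → C} (ha : ∀ n, ‖a n‖ ≤ 1) : Cl τ fun x => sv a (H x) := by
  refine Cl.lim fun ε hε => ?_
  rcases isEmpty_or_nonempty X with hX | ⟨⟨x₀⟩⟩
  · exact ⟨fun _ => 0, Cl.const (by rw [norm_zero]; exact zero_le_one), fun x => (hX.false x).elim⟩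
  have hρ0 : 0 ≤ ρ := (norm_nonneg _).trans (hb x₀)
  obtain ⟨n, hn⟩ := exists_pow_lt_of_lt_one hε hρ
  refine ⟨fun x => ∑ k ∈ Finset.range n, a k * H x ^ k, Cl.sum _ fun k _ => (h.pow hτ k).smul hτ (ha k), fun x => ?_⟩
  exact (sv_trunc ha ((hb x).trans_lt hρ) n).trans ((pow_le_pow_left₀ (norm_nonneg _) (hb x) n).trans hn.le)

/-- `a` without the terms of degree `0` and `1`. -/
noncomputable def a2 (a : ℕ → C) (n : ℕ) : C := if n < 2 then 0 else a n

theorem a2_le {a : ℕ → C} (ha : ∀ n, ‖a n‖ ≤ 1) (n : ℕ) : ‖a2 a n‖ ≤ 1 := by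
  unfold a2
  split
  · rw [norm_zero]
    exact zero_le_one
  · exact ha n

theorem a2_lt {a : ℕ → C} : ∀ k < 2, a2 a k = 0 := fun k hk => if_pos hk

theorem sv_a2 {a : ℕ → C} (ha : ∀ n, ‖a n‖ ≤ 1) (h0 : a 0 = 0) (h1 : a 1 = 1) {z : C} (hz : ‖z‖ < 1) :
    LT.sv a z = z + LT.sv (a2 a) z := by
  have hs : Summable fun k => a k * z ^ k := (sv_summable ha hz).of_norm
  have hs' : Summable fun k => a2 a k * z ^ k := (sv_summable (a2_le ha) hz).of_norm
  have e1 := hs.sum_add_tsum_nat_add 2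
  have e2 := hs'.sum_add_tsum_nat_add 2
  have e3 : ∑ k ∈ Finset.range 2, a k * z ^ k = z := by
    rw [Finset.sum_range_succ, Finset.sum_range_one, h0, h1]
    ring
  have e4 : ∑ k ∈ Finset.range 2, a2 a k * z ^ k = 0 :=
    Finset.sum_eq_zero fun k hk => by rw [a2_lt k (Finset.mem_range.1 hk), zero_mul]
  have e5 : (∑' k, a2 a (k + 2) * z ^ (k + 2)) = ∑' k, a (k + 2) * z ^ (k + 2) := by
    congr 1
  rw [e3] at e1
  rw [e4, zero_add, e5] at e2
  unfold LT.sv
  rw [← e1, ← e2]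

theorem sv_inj_aux {a : ℕ → C} (ha : ∀ n, ‖a n‖ ≤ 1) (h0 : a 0 = 0) {z : C} (hz : ‖z‖ < 1) :
    ‖LT.sv a z‖ ≤ ‖z‖ := by
  have h := sv_dvd ha hz (n := 1) (fun k hk => by
    have : k = 0 := by omega
    rw [this, h0])
  rwa [pow_one] at h

/-- `z + ...` is isometric. -/
theorem sv_isom {a : ℕ → C} (ha : ∀ n, ‖a n‖ ≤ 1) (h0 : a 0 = 0) (h1 : a 1 = 1) {z z' : C} (hz : ‖z‖ < 1)
    (hz' : ‖z'‖ < 1) : ‖LT.sv a z - LT.sv a z'‖ = ‖z - z'‖ := by
  set ρ : ℝ := max ‖z‖ ‖z'‖ with hρ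
  have hρ1 : ρ < 1 := max_lt hz hz'
  have hρ0 : 0 ≤ ρ := (norm_nonneg z).trans (le_max_left _ _)
  have h2 := sv_lip (a2_le ha) (a2_lt (a := a)) hρ0 hρ1 (le_max_left _ _) (le_max_right ‖z‖ ‖z'‖)
  rw [sv_a2 ha h0 h1 hz, sv_a2 ha h0 h1 hz']
  have e : z + LT.sv (a2 a) z - (z' + LT.sv (a2 a) z') = (z - z') + (LT.sv (a2 a) z - LT.sv (a2 a) z') := by ring
  rw [e]
  by_cases h3 : z = z'
  · rw [h3]
    simp
  have h4 : 0 < ‖z - z'‖ := norm_pos_iff.2 (sub_ne_zero.2 h3)
  have h5 : ‖LT.sv (a2 a) z - LT.sv (a2 a) z'‖ < ‖z - z'‖ := by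
    refine h2.trans_lt ?_
    calc ρ * ‖z - z'‖ < 1 * ‖z - z'‖ := mul_lt_mul_of_pos_right hρ1 h4
      _ = ‖z - z'‖ := one_mul _
  rw [IsUltrametricDist.norm_add_eq_max_of_norm_ne_norm h5.ne', max_eq_left h5.le]

/-- The inverse of a power series `z + ...`. -/
theorem Cl.of_sv (hτ : ∀ i x, ‖τ i x‖ ≤ 1) {H : X → C} {ρ : ℝ} (hρ : ρ < 1)
    (hb : ∀ x, ‖H x‖ ≤ ρ) {a : ℕ → C} (ha : ∀ n, ‖a n‖ ≤ 1) (h0 : a 0 = 0) (h1 : a 1 = 1)
    (h : Cl τ fun x => LT.sv a (H x)) : Cl τ H := by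
  rcases isEmpty_or_nonempty X with hX | ⟨⟨x₀⟩⟩
  · intro ε _
    exact ⟨0, fun m => by simp, fun x => (hX.false x).elim⟩
  have hρ0 : 0 ≤ ρ := (norm_nonneg _).trans (hb x₀)
  have key : ∀ n : ℕ, ∃ K : X → C, Cl τ K ∧ (∀ x, ‖K x‖ ≤ ρ) ∧ ∀ x, ‖H x - K x‖ ≤ ρ ^ n := by
    intro n
    induction n with
    | zero =>
      refine ⟨fun _ => 0, Cl.const (by rw [norm_zero]; exact zero_le_one), fun x => ?_, fun x => ?_⟩
      · rw [norm_zero]
        exact hρ0
      · rw [sub_zero, pow_zero]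
        exact (hb x).trans hρ.le
    | succ n ih =>
      obtain ⟨K, hK, hKb, hd⟩ := ih
      refine ⟨fun x => LT.sv a (H x) - LT.sv (a2 a) (K x), h.sub hτ (Cl.sv hτ hK hρ hKb (a2_le ha)),
        fun x => ?_, fun x => ?_⟩
      · have hx := (hb x).trans_lt hρ
        have hk := (hKb x).trans_lt hρ
        simp only [sub_eq_add_neg]
        refine (IsUltrametricDist.norm_add_le_max _ _).trans (max_le ?_ ?_)
        · exact (sv_inj_aux ha h0 hx).trans (hb x)
        · rw [norm_neg]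
          refine (sv_dvd (a2_le ha) hk (n := 1) fun k hk' => a2_lt k (by omega)).trans ?_
          rw [pow_one]
          exact hKb x
      · have hx := (hb x).trans_lt hρ
        have e : H x - (LT.sv a (H x) - LT.sv (a2 a) (K x)) = -(LT.sv (a2 a) (H x) - LT.sv (a2 a) (K x)) := by
          rw [sv_a2 ha h0 h1 hx]
          ring
        rw [e, norm_neg, pow_succ, mul_comm]
        exact (sv_lip (a2_le ha) (a2_lt (a := a)) hρ0 hρ (hb x) (hKb x)).trans
          (mul_le_mul_of_nonneg_left (hd x) hρ0)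
  refine Cl.lim fun ε hε => ?_
  obtain ⟨n, hn⟩ := exists_pow_lt_of_lt_one hε hρ
  obtain ⟨K, hK, -, hd⟩ := key n
  exact ⟨K, hK, fun x => (hd x).trans hn.le⟩

end SSG.LT
end
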