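import Mathlib
import Pool.Agent.Lib.H1M.PP2.D_H55B_Defs
import Pool.Agent.Lib.H1M.PP2.D_H55P_Sel
import Pool.Agent.Lib.H1M.PP2.M010
import Pool.Agent.Lib.H1M.PP2.M016
import Pool.Agent.Lib.H1M.PP2.M019
import Pool.Agent.Lib.H1M.PP2.M020
import Pool.Agent.Lib.H1M.PP2.M021

/-! Merged copies (to shorten the build) of Lib.H13Y.GN0, Lib.H13Y.GN8a, Lib.H99B.A2, Lib.H99B.E1, Lib.H13Z.GA4, Lib.H13Y.GN2, Lib.H13Y.GN8b, Lib.H55K.A.C1, Lib.H55K.A.C2, Lib.H55K.A.D2, Lib.H13Z.LF1, Lib.H55K.A.A1, Lib.H55K.A.E1, Lib.H55K.A.T1, Lib.H55K.A.T2, Lib.H55K.A.T3, Lib.SSG.E.A3, Lib.SSG.E.A4. -/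

-- from Lib.H13Y.GN0
section

/-!
# H13Y, part GN: the global class over an arbitrary base field N (definitions)

L = N(E[π]), w a prime of N over γ with Nm w = Nm γ^f, π | γ^f - 1: there is a nonzero element of the χ-part of Lˣ modulo
l-th powers, a unit outside w modulo l-th powers, trivial of level one at all primes above π. The proof counts: the
χ-part of the w-units has rank [N : F] + 1 (one for each infinite place of N and one for w) and the level at the primes
above π has values in a space of dimension at most [N : F] over k = O/π.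
-/

open NumberField IsDedekindDomain

namespace H13Y

open H55B H55R H28G H99B

section gn

variable {N L : Type} [Field N] [Field L] [Algebra N L]

/-- The Galois action on the multiplicative group of L. -/
noncomputable def guN : Gal(L/N) →* Monoid.End Lˣ where
  toFun σ := Units.map ((σ : L ≃ₐ[N] L) : L →* L)
  map_one' := by
    ext x
    rfl
  map_mul' σ τ := by
    ext x
    rfl

theorem guN_apply (σ : Gal(L/N)) (x : Lˣ) : ((guN σ x : Lˣ) : L) = σ (x : L) := rfl

/-- Equivariant homomorphisms from k to Lˣ modulo l-th powers, given by representatives. -/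
structure EqHomN {k : Type} [Field k] (l : ℕ) (χ : Gal(L/N) →* kˣ) (m : k → Lˣ) : Prop where
  add : ∀ a b : k, ∃ z : Lˣ, m (a + b) = m a * m b * z ^ l
  equiv : ∀ (σ : Gal(L/N)) (a : k), ∃ z : Lˣ, m (χ σ * a) = guN σ (m a) * z ^ l

variable [NumberField N] [NumberField L]

theorem ord_guN (v : Pl L) (σ : Gal(L/N)) (x : Lˣ) : ord v (guN σ x) = ord (smulP σ⁻¹ v) x := by
  have h := ord_smul σ (smulP σ⁻¹ v) x
  rw [← smulP_mul, mul_inv_cancel, smulP_one] at h
  exact h

/-- Local data at the totally ramified prime W of L: r is the reduction modulo W with values in κ, every element of κ is the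
reduction of an element of 𝓞 N, t is a uniformizer on which the Galois group acts through χ modulo the square of W. -/
structure LocN {k κ : Type} [Field k] [Field κ] (j : k →+* κ) (χ : Gal(L/N) →* kˣ) (W : Pl L) (t : Lˣ)
    (r : 𝓞 L →+* κ) : Prop where
  ker : ∀ x : 𝓞 L, r x = 0 ↔ x ∈ W.asIdeal
  surj : ∀ b : κ, ∃ y : 𝓞 N, r (algebraMap (𝓞 N) (𝓞 L) y) = b
  ram : ∀ y : 𝓞 N, r (algebraMap (𝓞 N) (𝓞 L) y) = 0 →
    W.valuation L (algebraMap N L (y : N)) ≤ WithZero.exp (-2 : ℤ)
  inv : ∀ σ : Gal(L/N), smulP σ W = W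
  unif : ord W t = 1
  act : ∀ (σ : Gal(L/N)) (y : 𝓞 N), r (algebraMap (𝓞 N) (𝓞 L) y) = j (χ σ : k) →
    W.valuation L (σ (t : L) - algebraMap N L (y : N) * (t : L)) ≤ WithZero.exp (-2 : ℤ)

/-- The residue field of a prime of L. -/
def Kap (W : Pl L) : Type := 𝓞 L ⧸ W.asIdeal

noncomputable instance instFieldKap (W : Pl L) : Field (Kap W) := @Ideal.Quotient.field _ _ W.asIdeal W.isMaximal

instance instFiniteKap (W : Pl L) : Finite (Kap W) := Ideal.finiteQuotientOfFreeOfNeBot W.asIdeal W.ne_bot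

/-- The reduction. -/
noncomputable def kmk (W : Pl L) : 𝓞 L →+* Kap W := Ideal.Quotient.mk W.asIdeal

theorem kmk_zero (W : Pl L) (x : 𝓞 L) : kmk W x = 0 ↔ x ∈ W.asIdeal := Ideal.Quotient.eq_zero_iff_mem

theorem kmk_surj (W : Pl L) : Function.Surjective (kmk W) := Ideal.Quotient.mk_surjective

/-- The units of L outside the primes above w. -/
def SU (L : Type) [Field L] [NumberField L] [Algebra N L] (w : Pl N) : Subgroup Lˣ where
  carrier := {x | ∀ v : Pl L, v.under (𝓞 N) ≠ w → ord v x = 0}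
  mul_mem' := fun {x y} hx hy v hv => by
    rw [ord_mul, hx v hv, hy v hv, add_zero]
  one_mem' := fun v _ => ord_one v
  inv_mem' := fun {x} hx v hv => by
    rw [ord_inv, hx v hv, neg_zero]

theorem mem_SU {w : Pl N} {x : Lˣ} : x ∈ SU L w ↔ ∀ v : Pl L, v.under (𝓞 N) ≠ w → ord v x = 0 := Iff.rfl

theorem SU_act {w : Pl N} (σ : Gal(L/N)) {x : Lˣ} (hx : x ∈ SU L w) : guN σ x ∈ SU L w := by
  intro v hv
  rw [ord_guN]
  exact hx _ (by rwa [under_smulP])

end gn

end H13Y
end

-- from Lib.H13Y.GN8a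
section

open NumberField IsDedekindDomain

namespace H13Y

open H55B H55R H28G H99B

/-- Chunk GN8a (S/M). The product of the different prime ideals v in T divides the ideal π 𝓞 N (Finset.prod_primes_dvd or coprimality), so the product of their norms divides the absolute norm of π 𝓞 N = |Norm_{N/ℚ} π| = |Norm_{F/ℚ} π|^[N : F] = (Nm π)^[N : F] (Ideal.absNorm_span_singleton, Algebra.norm_norm, Algebra.norm_algebraMap; Nm π = absNorm (span {π})), which is not 0. -/
theorem prod_norm_le {N : Type} [Field N] [NumberField N] [Algebra F N] {π : O} (h0 : π ≠ 0)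
    (T : Finset (Pl N)) (hT : ∀ v ∈ T, algebraMap O (𝓞 N) π ∈ v.asIdeal) :
    ∏ v ∈ T, Ideal.absNorm v.asIdeal ≤ Nm π ^ Module.finrank F N := by
  classical
  have hinj : Function.Injective (algebraMap O (𝓞 N)) := FaithfulSMul.algebraMap_injective O (𝓞 N)
  have hπ : algebraMap O (𝓞 N) π ≠ 0 := by
    intro h
    exact h0 (hinj (by rw [h, map_zero]))
  have hdvd : ∏ v ∈ T, v.asIdeal ∣ Ideal.span {algebraMap O (𝓞 N) π} := by
    have h1 : ∏ v ∈ T, v.asIdeal = ∏ P ∈ T.image (fun v => v.asIdeal), P := by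
      rw [Finset.prod_image]
      intro v _ w _ hvw
      exact HeightOneSpectrum.ext hvw
    rw [h1]
    apply Finset.prod_primes_dvd
    · intro P hP
      rw [Finset.mem_image] at hP
      obtain ⟨v, -, rfl⟩ := hP
      exact v.prime
    · intro P hP
      rw [Finset.mem_image] at hP
      obtain ⟨v, hv, rfl⟩ := hP
      rw [Ideal.dvd_span_singleton]
      exact hT v hv
  have hnorm : Ideal.absNorm (Ideal.span {algebraMap O (𝓞 N) π}) = Nm π ^ Module.finrank F N := by
    rw [Ideal.absNorm_span_singleton]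
    unfold H55B.Nm
    rw [Ideal.absNorm_span_singleton, ← Int.natAbs_pow]
    congr 1
    have h1 : ((Algebra.norm ℤ (algebraMap O (𝓞 N) π) : ℤ) : ℚ) = ((Algebra.norm ℤ π ^ Module.finrank F N : ℤ) : ℚ) := by
      rw [Algebra.coe_norm_int]
      push_cast
      rw [Algebra.coe_norm_int]
      have h2 : ((algebraMap O (𝓞 N) π : 𝓞 N) : N) = algebraMap F N (π : F) := rfl
      rw [h2, ← Algebra.norm_norm (S := F), Algebra.norm_algebraMap, map_pow]
    exact_mod_cast h1
  have h1 : Ideal.absNorm (∏ v ∈ T, v.asIdeal) ∣ Ideal.absNorm (Ideal.span {algebraMap O (𝓞 N) π}) :=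
    Ideal.absNorm_dvd_absNorm_of_le (Ideal.le_of_dvd hdvd)
  rw [map_prod, hnorm] at h1
  apply Nat.le_of_dvd _ h1
  rw [← hnorm]
  apply Nat.pos_of_ne_zero
  rw [Ne, Ideal.absNorm_eq_zero_iff, Ideal.span_singleton_eq_bot]
  exact hπ

end H13Y
end

-- from Lib.H99B.A2
section

/-!
Chunk A2 (S/M). Rules for pw (action of the integral group ring on a multiplicative group), conv and chs.
PROOFS. pw_mul, pw_npow, pw_add, pw_smul: Finset.prod_mul_distrib, map_mul, zpow_add, zpow_mul. pw_conv: expand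
pw ac α (pw ac β x) = prod_h ac h (prod_g (ac g x)^(β g))^(α h) = prod_h prod_g (ac (h g) x)^(α h β g) (map_prod, map_zpow for the monoid endomorphism ac h,
ac (h g) = ac h * ac g), substitute g -> h⁻¹ g (Equiv.mulLeft), exchange the products, collect exponents. chs_conv: the same computation in k with χ (h g) = χ h χ g.
chs_single: one term. chs_el: IsRho for a = -1 (IsRho.sum) transported along the bijection χ: chs χ (cf χ ρ a) = sum_g ρ(a χ(g)⁻¹).val χ(g) =
sum_c ρ(a c⁻¹).val c = -a. el_conv: for g: (conv α β)(g) with α = cf χ ρ (-1), modulo l: substitute h -> g h⁻¹ : the sum of α(g h⁻¹) β(h), and in ZMod l: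
α(g h⁻¹) = ρ(-(χ g)⁻¹ χ h) (ZMod.natCast_zmod_val), ρ additive, so the sum is ρ(-(χ g)⁻¹ * sum_h β(h) χ(h)) = ρ 0 = 0; (ZMod.intCast_zmod_eq_zero_iff_dvd).
-/

namespace H99B

variable {G : Type} [Group G] [Fintype G] {A : Type} [CommGroup A] (ac : G →* Monoid.End A)


theorem pw_mul (α : G → ℤ) (x y : A) : pw ac α (x * y) = pw ac α x * pw ac α y := by
  unfold pw
  rw [← Finset.prod_mul_distrib]
  refine Finset.prod_congr rfl fun g _ => ?_
  rw [map_mul, mul_zpow]








variable {l : ℕ} [Fact l.Prime] {k : Type} [Field k] (χ : G →* kˣ)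





variable [Fintype k] [DecidableEq k] [CharP k l] (ρ : k →+ ZMod l)



end H99B
end

-- from Lib.H99B.E1
section

/-!
Chunk E1 (M). The level one component of eta_a(ξ) is not trivial.
PROOF. Notation: v = the order at w (valuation exp(-n)); x ≡ y means that x - y has order at least 2. Lifts: for b : k let b' ∈ 𝓞 F with r b' = b (Loc.surj). ξ = a0 (1 + c t + O(2)), c, a0 in F,
c of order 0 at w. σ ξ = a0 (1 + c σ t + O(2)) (σ w = w, so σ preserves the order: ord_smul) ≡ a0 (1 + c (χ σ)' t) up to the factor a0 (Loc.act). So, with n σ = cf χ ρ a σ and N = sum n σ: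
eta χ ρ a ξ = prod (σ ξ)^(n σ) = a0^N (1 + c t sum n σ (χ σ)' + O(2)) (products of elements 1 + O(1): (1+x)(1+y) ≡ 1 + x + y), and r(sum n σ (χ σ)') = chs χ (cf χ ρ a) = -a (chs_nn), so
with e ∈ 𝓞 F, r e = -a c ≠ 0: eta = a0^N (1 + e t + O(2)) (an element of 𝓞 F with r = 0 has order at least 2: Loc.ram).
l divides N: in ZMod l: N = sum_σ ρ(a χ(σ)⁻¹) = ρ(a sum_{c ∈ kˣ} c⁻¹) = ρ 0 = 0 (FiniteField.sum_pow_units or sum_units_eq_zero-type lemma; card k > 2). N = l N'.
Suppose Lev: eta = z^l (1 + O(2)). With y = z / a0^N': y^l = 1 + e t + O(2). Then y has order 0. There is y0 ∈ 𝓞 F with v(y - y0) ≥ 1 (y is a fraction of elements of 𝓞 L prime to w,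
H55R.exists_frac; reduce them by Loc.surj), y0 of order 0. y = y0 (1 + s), v(s) ≥ 1, and (1 + s)^l ≡ 1: the binomial terms are l s (..), order ≥ 2 because l ∈ 𝓞 F, r l = 0 (CharP k l, Loc.ram),
and s^l, order ≥ l ≥ 2 (use (1+s)^l = 1 + l s g + s^l with g integral at w: e.g. add_pow_prime / exists_add_pow_prime_eq). So y0^l ≡ 1 + e t. Hence v(y0^l - 1) ≥ 1, y0^l - 1 ∈ 𝓞 F, r(..) = 0 (Loc.ker), so
y0^l - 1 has order ≥ 2 (Loc.ram), so e t has order ≥ 2; but its order is 1 (r e ≠ 0, Loc.unif). Contradiction.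
-/

open NumberField IsDedekindDomain

namespace H99B

open H55B H55R

open scoped WithZero

/-- Products of elements congruent to 1 + e t. -/
theorem e1_mul {L : Type} [Field L] (v : Valuation L ℤᵐ⁰) {t x y e f : L}
    (ht : v t ≤ WithZero.exp (-1 : ℤ)) (he : v e ≤ 1) (hf : v f ≤ 1)
    (hx : v (x - 1 - e * t) ≤ WithZero.exp (-2 : ℤ)) (hy : v (y - 1 - f * t) ≤ WithZero.exp (-2 : ℤ)) :
    v (x * y - 1 - (e + f) * t) ≤ WithZero.exp (-2 : ℤ) := by
  have h21 : WithZero.exp (-2 : ℤ) ≤ (1 : ℤᵐ⁰) := by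
    rw [← WithZero.exp_zero, WithZero.exp_le_exp]
    norm_num
  have h11 : WithZero.exp (-1 : ℤ) ≤ (1 : ℤᵐ⁰) := by
    rw [← WithZero.exp_zero, WithZero.exp_le_exp]
    norm_num
  have ht1 : v t ≤ 1 := ht.trans h11
  have hy1 : v y ≤ 1 := by
    have e1 : y = (y - 1 - f * t) + (1 + f * t) := by ring
    rw [e1]
    refine v.map_add_le (hy.trans h21) (v.map_add_le (by rw [map_one]) ?_)
    rw [map_mul]
    exact mul_le_one' hf ht1
  have e2 : x * y - 1 - (e + f) * t = (x - 1 - e * t) * y + (1 + e * t) * (y - 1 - f * t) +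
      e * f * (t * t) := by ring
  rw [e2]
  refine v.map_add_le (v.map_add_le ?_ ?_) ?_
  · rw [map_mul]
    calc v (x - 1 - e * t) * v y ≤ WithZero.exp (-2 : ℤ) * 1 := mul_le_mul' hx hy1
      _ = _ := mul_one _
  · rw [map_mul]
    have h3 : v (1 + e * t) ≤ 1 := by
      refine v.map_add_le (by rw [map_one]) ?_
      rw [map_mul]
      exact mul_le_one' he ht1
    calc v (1 + e * t) * v (y - 1 - f * t) ≤ 1 * WithZero.exp (-2 : ℤ) := mul_le_mul' h3 hy
      _ = _ := one_mul _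
  · rw [map_mul, map_mul, map_mul]
    calc v e * v f * (v t * v t) ≤ 1 * (WithZero.exp (-1 : ℤ) * WithZero.exp (-1 : ℤ)) :=
          mul_le_mul' (mul_le_one' he hf) (mul_le_mul' ht ht)
      _ = WithZero.exp (-2 : ℤ) := by
          rw [one_mul, ← WithZero.exp_add]
          norm_num



/-- The l-th power of y0 + s. -/
theorem e1_lpow {L : Type} [Field L] (v : Valuation L ℤᵐ⁰) {l : ℕ} (hl : l.Prime)
    (hvl : v (l : L) ≤ WithZero.exp (-2 : ℤ)) {y s : L} (hy : v y ≤ 1)
    (hs : v s ≤ WithZero.exp (-1 : ℤ)) : v ((y + s) ^ l - y ^ l) ≤ WithZero.exp (-2 : ℤ) := by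
  have h11 : WithZero.exp (-1 : ℤ) ≤ (1 : ℤᵐ⁰) := by
    rw [← WithZero.exp_zero, WithZero.exp_le_exp]
    norm_num
  have hs1 : v s ≤ 1 := hs.trans h11
  obtain ⟨r, hr⟩ := exists_add_pow_prime_eq hl (⟨y, hy⟩ : v.integer) (⟨s, hs1⟩ : v.integer)
  have hr2 := congrArg (Subtype.val) hr
  have hr3 : (y + s) ^ l = y ^ l + s ^ l + (l : L) * y * s * (r : L) := by
    push_cast at hr2
    exact hr2
  have e1 : (y + s) ^ l - y ^ l = s ^ l + (l : L) * (y * s * (r : L)) := by
    rw [hr3]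
    ring
  rw [e1]
  refine v.map_add_le ?_ ?_
  · rw [map_pow]
    calc v s ^ l ≤ v s ^ 2 := pow_le_pow_right_of_le_one' hs1 hl.two_le
      _ ≤ (WithZero.exp (-1 : ℤ)) ^ 2 := pow_le_pow_left₀ zero_le hs 2
      _ = WithZero.exp (-2 : ℤ) := by
        rw [sq, ← WithZero.exp_add]
        norm_num
  · rw [map_mul]
    have h3 : v (y * s * (r : L)) ≤ 1 := by
      rw [map_mul, map_mul]
      exact mul_le_one' (mul_le_one' hy hs1) r.2
    calc v (l : L) * v (y * s * (r : L)) ≤ WithZero.exp (-2 : ℤ) * 1 := mul_le_mul' hvl h3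
      _ = _ := mul_one _

theorem e1_lt {x : ℤᵐ⁰} (h : x < 1) : x ≤ WithZero.exp (-1 : ℤ) := by
  by_cases hx : x = 0
  · rw [hx]
    exact zero_le
  · rw [← WithZero.exp_log hx] at h ⊢
    rw [← WithZero.exp_zero, WithZero.exp_lt_exp] at h
    rw [WithZero.exp_le_exp]
    omega

variable {L : Type} [Field L] [NumberField L] [Algebra F L]





end H99B
end

-- from Lib.H13Z.GA4
section

open NumberField IsDedekindDomain

namespace H13Z

open H55B H55R H99B

open scoped WithZero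

theorem GA4_g1 {G : Type} [CommGroup G] (p q x : G) : p * q * (x * p⁻¹) = x * q := by
  have h : p * q * (x * p⁻¹) = x * q * (p * p⁻¹) := by ac_rfl
  rw [h, mul_inv_cancel, mul_one]


theorem GA4_g3 {G : Type} [CommGroup G] (x p q : G) : x * (p⁻¹ * q⁻¹) * q = x * p⁻¹ := by
  have h : x * (p⁻¹ * q⁻¹) * q = x * p⁻¹ * (q * q⁻¹) := by ac_rfl
  rw [h, mul_inv_cancel, mul_one]



theorem GA4_21 : WithZero.exp (-2 : ℤ) ≤ WithZero.exp (-1 : ℤ) := by
  rw [WithZero.exp_le_exp]
  norm_num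

theorem GA4_1 : WithZero.exp (-1 : ℤ) < 1 := by
  rw [← WithZero.exp_zero, WithZero.exp_lt_exp]
  norm_num







end H13Z
end

-- from Lib.H13Y.GN2
section

open NumberField IsDedekindDomain

namespace H13Y

open H55B H55R H28G H99B

open scoped WithZero

theorem gn2_gal {N L : Type} [Field N] [NumberField N] [Field L] [NumberField L] [Algebra N L] {w : Pl L} {σ : Gal(L/N)}
    (h : smulP σ w = w) (x : L) : w.valuation L (σ x) = w.valuation L x := by
  by_cases hx : x = 0
  · rw [hx, map_zero]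
  · have h1 := ord_smul σ w (Units.mk0 x hx)
    rw [h] at h1
    have h2 := BF1_val w (Units.map ((σ : L ≃ₐ[N] L) : L →* L) (Units.mk0 x hx))
    rw [h1, ← BF1_val w (Units.mk0 x hx)] at h2
    exact h2

theorem gn2_val {N L : Type} [Field N] [NumberField N] [Field L] [NumberField L] [Algebra N L]
    {k κ : Type} [Field k] [Field κ] {j : k →+* κ} {χ : Gal(L/N) →* kˣ} {w : Pl L} {t : Lˣ} {r : 𝓞 L →+* κ}
    (hloc : LocN j χ w t r) (y : 𝓞 N) :
    w.valuation L (algebraMap N L (y : N)) ≤ 1 ∧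
    (w.valuation L (algebraMap N L (y : N)) < 1 → r (algebraMap (𝓞 N) (𝓞 L) y) = 0) := by
  have e : algebraMap N L (y : N) = algebraMap (𝓞 L) L (algebraMap (𝓞 N) (𝓞 L) y) := by
    rfl
  rw [e]
  refine ⟨w.valuation_le_one _, fun h => ?_⟩
  rw [hloc.ker]
  exact (w.valuation_lt_one_iff_mem _).1 h

theorem gn2_lift {N L : Type} [Field N] [NumberField N] [Field L] [NumberField L] [Algebra N L]
    {k κ : Type} [Field k] [Field κ] {j : k →+* κ} {χ : Gal(L/N) →* kˣ} {w : Pl L} {t : Lˣ}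
    {r : 𝓞 L →+* κ} (hloc : LocN j χ w t r) (x : L) (hx : w.valuation L x ≤ 1) :
    ∃ y0 : 𝓞 N, w.valuation L (x - algebraMap N L (y0 : N)) ≤ WithZero.exp (-1 : ℤ) := by
  obtain ⟨n, d, h⟩ := HeightOneSpectrum.exists_primeCompl_mul_eq_of_integer w x hx
  have hd : (d : 𝓞 L) ∉ w.asIdeal := d.2
  have hd1 : w.valuation L (algebraMap (𝓞 L) L (d : 𝓞 L)) = 1 :=
    (HeightOneSpectrum.valuation_eq_one_iff_notMem (K := L) w).2 hd
  have hrd : r (d : 𝓞 L) ≠ 0 := fun h => hd ((hloc.ker _).1 h)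
  obtain ⟨y0, hy0⟩ := hloc.surj (r n / r (d : 𝓞 L))
  refine ⟨y0, e1_lt ?_⟩
  have hmem : n - (d : 𝓞 L) * algebraMap (𝓞 N) (𝓞 L) y0 ∈ w.asIdeal := by
    rw [← hloc.ker, map_sub, map_mul, hy0, mul_div_cancel₀ _ hrd, sub_self]
  have hlt : w.valuation L (algebraMap (𝓞 L) L (n - (d : 𝓞 L) * algebraMap (𝓞 N) (𝓞 L) y0)) < 1 :=
    (w.valuation_lt_one_iff_mem (K := L) _).2 hmem
  have e : algebraMap (𝓞 L) L (n - (d : 𝓞 L) * algebraMap (𝓞 N) (𝓞 L) y0) =
      (x - algebraMap N L (y0 : N)) * algebraMap (𝓞 L) L (d : 𝓞 L) := by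
    have h2 : algebraMap (𝓞 L) L (algebraMap (𝓞 N) (𝓞 L) y0) = algebraMap N L (y0 : N) := rfl
    rw [map_sub, map_mul, ← h, h2]
    ring
  rw [e, map_mul, hd1, mul_one] at hlt
  exact hlt

theorem gn2_vl {N L : Type} [Field N] [NumberField N] [Field L] [NumberField L] [Algebra N L] {l : ℕ}
    {k κ : Type} [Field k] [Field κ] [CharP κ l] {j : k →+* κ} {χ : Gal(L/N) →* kˣ} {w : Pl L} {t : Lˣ}
    {r : 𝓞 L →+* κ} (hloc : LocN j χ w t r) :
    w.valuation L ((l : ℕ) : L) ≤ WithZero.exp (-2 : ℤ) := by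
  have h3 := hloc.ram ((l : ℕ) : 𝓞 N) (by rw [map_natCast, map_natCast, CharP.cast_eq_zero])
  have e1 : algebraMap N L (((l : ℕ) : 𝓞 N) : N) = ((l : ℕ) : L) := by
    have : (((l : ℕ) : 𝓞 N) : N) = ((l : ℕ) : N) := map_natCast (algebraMap (𝓞 N) N) l
    rw [this, map_natCast]
  rw [e1] at h3
  exact h3

theorem gn2_t {N L : Type} [Field N] [NumberField N] [Field L] [NumberField L] [Algebra N L]
    {k κ : Type} [Field k] [Field κ] {j : k →+* κ} {χ : Gal(L/N) →* kˣ} {w : Pl L} {t : Lˣ}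
    {r : 𝓞 L →+* κ} (hloc : LocN j χ w t r) : w.valuation L (t : L) = WithZero.exp (-1 : ℤ) := by
  rw [BF1_val, hloc.unif]

/-- An l-th power congruent to 1 modulo w is congruent to 1 modulo the square. -/
theorem gn2_root {N L : Type} [Field N] [NumberField N] [Field L] [NumberField L] [Algebra N L] {l : ℕ} [Fact l.Prime]
    {k κ : Type} [Field k] [Field κ] [CharP κ l] {j : k →+* κ} {χ : Gal(L/N) →* kˣ} {w : Pl L} {t : Lˣ}
    {r : 𝓞 L →+* κ} (hloc : LocN j χ w t r) (y : L) (hy : w.valuation L y ≤ 1)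
    (h : w.valuation L (y ^ l - 1) ≤ WithZero.exp (-1 : ℤ)) :
    w.valuation L (y ^ l - 1) ≤ WithZero.exp (-2 : ℤ) := by
  obtain ⟨y0, hy0⟩ := gn2_lift hloc y hy
  have hpow := e1_lpow (w.valuation L) (Fact.out : l.Prime) (gn2_vl hloc) (gn2_val hloc y0).1 hy0
  have e3 : algebraMap N L (y0 : N) + (y - algebraMap N L (y0 : N)) = y := by ring
  rw [e3] at hpow
  have e5 : algebraMap N L (y0 : N) ^ l - 1 = algebraMap N L ((y0 ^ l - 1 : 𝓞 N) : N) := by
    have : ((y0 ^ l - 1 : 𝓞 N) : N) = (y0 : N) ^ l - 1 := rfl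
    rw [this, map_sub, map_pow, map_one]
  have hlt : w.valuation L (algebraMap N L ((y0 ^ l - 1 : 𝓞 N) : N)) < 1 := by
    rw [← e5]
    have e6 : algebraMap N L (y0 : N) ^ l - 1 = (y ^ l - 1) -
        (y ^ l - algebraMap N L (y0 : N) ^ l) := by ring
    rw [e6]
    exact lt_of_le_of_lt (Valuation.map_sub_le _ h (hpow.trans H13Z.GA4_21)) H13Z.GA4_1
  have h7 := hloc.ram _ ((gn2_val hloc _).2 hlt)
  rw [← e5] at h7
  have e6 : y ^ l - 1 = (y ^ l - algebraMap N L (y0 : N) ^ l) + (algebraMap N L (y0 : N) ^ l - 1) := by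
    ring
  rw [e6]
  exact Valuation.map_add_le _ hpow h7

/-- An element congruent to 1 + c t is a unit, congruent to 1. -/
theorem gn2_one {N L : Type} [Field N] [NumberField N] [Field L] [NumberField L] [Algebra N L]
    {k κ : Type} [Field k] [Field κ] {j : k →+* κ} {χ : Gal(L/N) →* kˣ} {w : Pl L} {t : Lˣ}
    {r : 𝓞 L →+* κ} (hloc : LocN j χ w t r) (u : L) (c : 𝓞 N)
    (h : w.valuation L (u - 1 - algebraMap N L (c : N) * (t : L)) ≤ WithZero.exp (-2 : ℤ)) :
    w.valuation L (u - 1) ≤ WithZero.exp (-1 : ℤ) ∧ w.valuation L u = 1 := by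
  have h1 : w.valuation L (u - 1) ≤ WithZero.exp (-1 : ℤ) := by
    have e : u - 1 = (u - 1 - algebraMap N L (c : N) * (t : L)) + algebraMap N L (c : N) * (t : L) := by
      ring
    rw [e]
    refine Valuation.map_add_le _ (h.trans H13Z.GA4_21) ?_
    rw [map_mul, gn2_t hloc]
    calc _ ≤ 1 * WithZero.exp (-1 : ℤ) := mul_le_mul' (gn2_val hloc c).1 le_rfl
      _ = _ := one_mul _
  refine ⟨h1, ?_⟩
  have e : u = 1 + (u - 1) := by ring
  rw [e]
  exact Valuation.map_one_add_of_lt _ (lt_of_le_of_lt h1 H13Z.GA4_1)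

/-- Chunk GA4 (M), three lemmas on the level one component c of an element x = z^l (1 + c t + ..), c in 𝓞 N modulo w. First: existence. y = x/s^l with ord w y = 0 (s = power of t, hloc.unif); y or its inverse is a unit at w; the residue field is k (finite of characteristic l, Frobenius surjective, hloc.surj): b in 𝓞 N,
b not in w, with w.valuation (y - b^l) < 1 (write y as a quotient of integers prime to w: H55R.HB1, or exists_frac). u = y/b^l is congruent to 1; (u - 1)/t is w-integral, congruent to an element c of 𝓞 N (hloc.surj, hloc.ker; again through a quotient of integers). -/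
theorem gn2_ex {N L : Type} [Field N] [NumberField N] [Field L] [NumberField L] [Algebra N L] {l : ℕ} [Fact l.Prime]
    {k κ : Type} [Field k] [Field κ] [Finite κ] [CharP κ l] {j : k →+* κ} {χ : Gal(L/N) →* kˣ} {w : Pl L} {t : Lˣ}
    {r : 𝓞 L →+* κ} (hloc : LocN j χ w t r) (x : Lˣ) (hx : (l : ℤ) ∣ ord w x) :
    ∃ (c : 𝓞 N) (z : Lˣ), w.valuation L (((x * (z ^ l)⁻¹ : Lˣ) : L) - 1 -
      algebraMap N L (c : N) * (t : L)) ≤ WithZero.exp (-2 : ℤ) := by
  have hlp : l.Prime := Fact.out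
  obtain ⟨n, hn⟩ := hx
  have ht := gn2_t hloc
  obtain ⟨y, hy⟩ : ∃ y : Lˣ, y = x * ((t ^ n) ^ l)⁻¹ := ⟨_, rfl⟩
  have hoy : ord w y = 0 := by
    rw [hy, ord_mul, ord_inv, ← zpow_natCast, ← zpow_mul, ord_zpow, hloc.unif, hn]
    ring
  have hvy : w.valuation L (y : L) = 1 := by
    rw [BF1_val, hoy, neg_zero, WithZero.exp_zero]
  obtain ⟨y0, hy0⟩ := gn2_lift hloc (y : L) hvy.le
  have hvy0 : w.valuation L (algebraMap N L (y0 : N)) = 1 := by
    have e : algebraMap N L (y0 : N) = (y : L) - ((y : L) - algebraMap N L (y0 : N)) := by ring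
    refine le_antisymm (gn2_val hloc y0).1 (not_lt.1 fun hlt => ?_)
    have e2 : (y : L) = ((y : L) - algebraMap N L (y0 : N)) + algebraMap N L (y0 : N) := by ring
    have h3 := Valuation.map_add_lt _ (lt_of_le_of_lt hy0 H13Z.GA4_1) hlt
    rw [← e2, hvy] at h3
    exact lt_irrefl _ h3
  obtain ⟨b0, hb0⟩ : ∃ b0 : κ, b0 ^ l = r (algebraMap (𝓞 N) (𝓞 L) y0) := by
    have : ExpChar κ l := ExpChar.prime hlp
    have hsur : Function.Surjective (frobenius κ l) :=
      Finite.surjective_of_injective (frobenius κ l).injective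
    obtain ⟨b0, hb0⟩ := hsur (r (algebraMap (𝓞 N) (𝓞 L) y0))
    exact ⟨b0, hb0⟩
  obtain ⟨b, hb⟩ := hloc.surj b0
  have e5 : algebraMap N L (b : N) ^ l - algebraMap N L (y0 : N) =
      algebraMap N L ((b ^ l - y0 : 𝓞 N) : N) := by
    have : ((b ^ l - y0 : 𝓞 N) : N) = (b : N) ^ l - (y0 : N) := rfl
    rw [this, map_sub, map_pow]
  have hby := hloc.ram (b ^ l - y0) (by rw [map_sub, map_sub, map_pow, map_pow, hb, hb0, sub_self])
  rw [← e5] at hby
  have hyb : w.valuation L ((y : L) - algebraMap N L (b : N) ^ l) ≤ WithZero.exp (-1 : ℤ) := by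
    have e : (y : L) - algebraMap N L (b : N) ^ l = ((y : L) - algebraMap N L (y0 : N)) -
        (algebraMap N L (b : N) ^ l - algebraMap N L (y0 : N)) := by ring
    rw [e]
    exact Valuation.map_sub_le _ hy0 (hby.trans H13Z.GA4_21)
  have hvbl : w.valuation L (algebraMap N L (b : N) ^ l) = 1 := by
    have h1 : w.valuation L (algebraMap N L (b : N) ^ l) ≤ 1 := by
      rw [map_pow]
      exact pow_le_one' (gn2_val hloc b).1 l
    refine le_antisymm h1 (not_lt.1 fun hlt => ?_)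
    have e2 : (y : L) = ((y : L) - algebraMap N L (b : N) ^ l) + algebraMap N L (b : N) ^ l := by ring
    have h3 := Valuation.map_add_lt _ (lt_of_le_of_lt hyb H13Z.GA4_1) hlt
    rw [← e2, hvy] at h3
    exact lt_irrefl _ h3
  have hb0' : algebraMap N L (b : N) ≠ 0 := by
    intro h0
    rw [h0, zero_pow hlp.ne_zero, map_zero] at hvbl
    exact zero_ne_one hvbl
  obtain ⟨B, hB⟩ : ∃ B : Lˣ, (B : L) = algebraMap N L (b : N) := ⟨Units.mk0 _ hb0', rfl⟩
  obtain ⟨u, hu⟩ : ∃ u : Lˣ, u = x * ((t ^ n * B) ^ l)⁻¹ := ⟨_, rfl⟩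
  have huy : (u : L) * algebraMap N L (b : N) ^ l = (y : L) := by
    have h1 : u * B ^ l = y := by
      rw [hu, hy, mul_pow, mul_inv]
      exact H13Z.GA4_g3 _ _ _
    rw [← h1, Units.val_mul, Units.val_pow_eq_pow_val, hB]
  have hu1 : w.valuation L ((u : L) - 1) ≤ WithZero.exp (-1 : ℤ) := by
    have e : ((u : L) - 1) * algebraMap N L (b : N) ^ l = (y : L) - algebraMap N L (b : N) ^ l := by
      rw [← huy]
      ring
    have h2 := congrArg (w.valuation L) e
    rw [map_mul, hvbl, mul_one] at h2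
    rw [h2]
    exact hyb
  have ht0 : (t : L) ≠ 0 := t.ne_zero
  have hvt0 : w.valuation L (t : L) ≠ 0 := by
    rw [ht]
    exact WithZero.exp_ne_zero
  have hut : w.valuation L (((u : L) - 1) / (t : L)) ≤ 1 := by
    rw [map_div₀]
    refine div_le_one_of_le₀ ?_ zero_le
    rw [ht]
    exact hu1
  obtain ⟨c, hc⟩ := gn2_lift hloc (((u : L) - 1) / (t : L)) hut
  refine ⟨c, t ^ n * B, ?_⟩
  rw [← hu]
  have e : (u : L) - 1 - algebraMap N L (c : N) * (t : L) =
      (((u : L) - 1) / (t : L) - algebraMap N L (c : N)) * (t : L) := by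
    rw [sub_mul, div_mul_cancel₀ _ ht0]
  rw [e, map_mul, ht]
  calc _ ≤ WithZero.exp (-1 : ℤ) * WithZero.exp (-1 : ℤ) := mul_le_mul' hc le_rfl
    _ = _ := by
      rw [← WithZero.exp_add]
      norm_num

/-- Uniqueness: (z'/z)^l = u/u' is congruent to 1 modulo w, so z'/z is congruent to 1 modulo w (Frobenius injective: (z'/z - 1)^l = (z'/z)^l - 1 modulo l), (z'/z)^l is congruent to 1 modulo the square (e1_lpow, hloc.ram for l), so u = u' modulo the square. -/
theorem gn2_un {N L : Type} [Field N] [NumberField N] [Field L] [NumberField L] [Algebra N L] {l : ℕ} [Fact l.Prime]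
    {k κ : Type} [Field k] [Field κ] [Finite κ] [CharP κ l] {j : k →+* κ} {χ : Gal(L/N) →* kˣ} {w : Pl L} {t : Lˣ}
    {r : 𝓞 L →+* κ} (hloc : LocN j χ w t r) (x : Lˣ) (c c' : 𝓞 N) (z z' : Lˣ)
    (h : w.valuation L (((x * (z ^ l)⁻¹ : Lˣ) : L) - 1 - algebraMap N L (c : N) * (t : L)) ≤
      WithZero.exp (-2 : ℤ))
    (h' : w.valuation L (((x * (z' ^ l)⁻¹ : Lˣ) : L) - 1 - algebraMap N L (c' : N) * (t : L)) ≤
      WithZero.exp (-2 : ℤ)) :
    r (algebraMap (𝓞 N) (𝓞 L) c) = r (algebraMap (𝓞 N) (𝓞 L) c') := by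
  have hlp : l.Prime := Fact.out
  obtain ⟨u, hu⟩ : ∃ u : Lˣ, u = x * (z ^ l)⁻¹ := ⟨_, rfl⟩
  obtain ⟨u', hu'⟩ : ∃ u' : Lˣ, u' = x * (z' ^ l)⁻¹ := ⟨_, rfl⟩
  rw [← hu] at h
  rw [← hu'] at h'
  obtain ⟨h1, h2⟩ := gn2_one hloc (u : L) c h
  obtain ⟨h1', h2'⟩ := gn2_one hloc (u' : L) c' h'
  obtain ⟨y, hy⟩ : ∃ y : Lˣ, y = z' * z⁻¹ := ⟨_, rfl⟩
  have hyu : (y : L) ^ l * (u' : L) = (u : L) := by
    have h3 : y ^ l * u' = u := by
      rw [hy, hu, hu', mul_pow, inv_pow]
      exact H13Z.GA4_g1 _ _ _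
    rw [← h3, Units.val_mul, Units.val_pow_eq_pow_val]
  have hvyl : w.valuation L ((y : L) ^ l) = 1 := by
    have h4 := congrArg (w.valuation L) hyu
    rw [map_mul, h2', mul_one, h2] at h4
    exact h4
  have hvy : w.valuation L (y : L) = 1 := by
    rw [map_pow] at hvyl
    exact (pow_eq_one_iff_of_nonneg zero_le hlp.ne_zero).1 hvyl
  have huu : ((y : L) ^ l - 1) * (u' : L) = (u : L) - (u' : L) := by
    rw [← hyu]
    ring
  have hvuu := congrArg (w.valuation L) huu
  rw [map_mul, h2', mul_one] at hvuu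
  have h5 : w.valuation L ((y : L) ^ l - 1) ≤ WithZero.exp (-1 : ℤ) := by
    rw [hvuu]
    have e : (u : L) - (u' : L) = ((u : L) - 1) - ((u' : L) - 1) := by ring
    rw [e]
    exact Valuation.map_sub_le _ h1 h1'
  have h6 := gn2_root hloc (y : L) hvy.le h5
  rw [hvuu] at h6
  have h7 : w.valuation L (algebraMap N L ((c - c' : 𝓞 N) : N) * (t : L)) ≤ WithZero.exp (-2 : ℤ) := by
    have e : algebraMap N L ((c - c' : 𝓞 N) : N) * (t : L) = (((u : L) - (u' : L)) -
        ((u : L) - 1 - algebraMap N L (c : N) * (t : L))) +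
        ((u' : L) - 1 - algebraMap N L (c' : N) * (t : L)) := by
      have : ((c - c' : 𝓞 N) : N) = (c : N) - (c' : N) := rfl
      rw [this, map_sub]
      ring
    rw [e]
    exact Valuation.map_add_le _ (Valuation.map_sub_le _ h6 h) h'
  have h8 : w.valuation L (algebraMap N L ((c - c' : 𝓞 N) : N)) < 1 := by
    rw [map_mul, gn2_t hloc] at h7
    refine not_le.1 fun hge => ?_
    have h9 : WithZero.exp (-1 : ℤ) ≤ WithZero.exp (-2 : ℤ) := by
      calc WithZero.exp (-1 : ℤ) = 1 * WithZero.exp (-1 : ℤ) := (one_mul _).symm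
        _ ≤ w.valuation L (algebraMap N L ((c - c' : 𝓞 N) : N)) * WithZero.exp (-1 : ℤ) :=
          mul_le_mul' hge le_rfl
        _ ≤ _ := h7
    rw [WithZero.exp_le_exp] at h9
    norm_num at h9
  have h10 := (gn2_val hloc _).2 h8
  rw [map_sub, map_sub] at h10
  exact sub_eq_zero.1 h10


/-- Chunk GN2 (M), PORT of H13Z/GA4.lean to the base field N: the level one component. lev_exists (GA4, and GA4_lift, GA4_vl, GA4_t, GA4_root, GA4_one) and lev_unique with 𝓞 N for 𝓞 F and LocN for Loc (e1_val, e1_gal of H99B/E1.lean are stated over F: port the two lines; e1_mul, e1_lpow are general); additivity and equivariance as in lev_linear.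
Then c x = r (algebraMap (the element of 𝓞 N of lev_exists)) if l | ord W x, 0 otherwise. c x = 0: x z^-l - 1 = c t + .. with c of valuation at most exp(-2) (ram), so Lev (as hzero in GA5.lean). -/
theorem exists_lev {N L : Type} [Field N] [NumberField N] [Field L] [NumberField L] [Algebra N L] {l : ℕ}
    [Fact l.Prime] {k κ : Type} [Field k] [Field κ] [Finite κ] [CharP κ l] {j : k →+* κ}
    {χ : Gal(L/N) →* kˣ} {W : Pl L} {t : Lˣ} {r : 𝓞 L →+* κ} (hloc : LocN j χ W t r) :
    ∃ c : Lˣ → κ,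
      (∀ x y : Lˣ, (l : ℤ) ∣ ord W x → (l : ℤ) ∣ ord W y → c (x * y) = c x + c y) ∧
      (∀ (σ : Gal(L/N)) (x : Lˣ), (l : ℤ) ∣ ord W x → c (guN σ x) = j (χ σ : k) * c x) ∧
      ∀ x : Lˣ, (l : ℤ) ∣ ord W x → c x = 0 → Lev l W x := by
  have ht := gn2_t hloc
  have hex : ∀ x : Lˣ, ∃ (c : 𝓞 N) (z : Lˣ), (l : ℤ) ∣ ord W x →
      W.valuation L (((x * (z ^ l)⁻¹ : Lˣ) : L) - 1 - algebraMap N L (c : N) * (t : L)) ≤ WithZero.exp (-2 : ℤ) := by
    intro x
    by_cases hx : (l : ℤ) ∣ ord W x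
    · obtain ⟨c, z, h⟩ := gn2_ex hloc x hx
      exact ⟨c, z, fun _ => h⟩
    · exact ⟨0, 1, fun h => absurd h hx⟩
  choose C Z hC using hex
  refine ⟨fun x => r (algebraMap (𝓞 N) (𝓞 L) (C x)), ?_, ?_, ?_⟩
  · intro x y hx hy
    have hxy : (l : ℤ) ∣ ord W (x * y) := by
      rw [ord_mul]
      exact dvd_add hx hy
    have e1 : (x * y) * ((Z x * Z y) ^ l)⁻¹ = (x * (Z x ^ l)⁻¹) * (y * (Z y ^ l)⁻¹) := by
      rw [mul_pow, mul_inv]
      exact mul_mul_mul_comm x y _ _
    have h1 := e1_mul (W.valuation L) ht.le (gn2_val hloc (C x)).1 (gn2_val hloc (C y)).1 (hC x hx) (hC y hy)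
    rw [← Units.val_mul, ← e1] at h1
    have e2 : algebraMap N L (C x : N) + algebraMap N L (C y : N) = algebraMap N L ((C x + C y : 𝓞 N) : N) := by
      have : ((C x + C y : 𝓞 N) : N) = (C x : N) + (C y : N) := rfl
      rw [this, map_add]
    rw [e2] at h1
    have h2 := gn2_un hloc (x * y) (C (x * y)) (C x + C y) (Z (x * y)) (Z x * Z y) (hC _ hxy) h1
    show r (algebraMap (𝓞 N) (𝓞 L) (C (x * y))) = _
    rw [h2, map_add, map_add]
  · intro σ x hx
    obtain ⟨X, hX⟩ := hloc.surj (j (χ σ : k))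
    have hsx : (l : ℤ) ∣ ord W (guN σ x) := by
      rw [ord_guN, hloc.inv]
      exact hx
    have e1 : guN σ x * ((guN σ (Z x)) ^ l)⁻¹ = guN σ (x * (Z x ^ l)⁻¹) := by
      rw [map_mul, map_inv, map_pow]
    have h1 : W.valuation L (σ (((x * (Z x ^ l)⁻¹ : Lˣ) : L) - 1 -
        algebraMap N L (C x : N) * (t : L))) ≤ WithZero.exp (-2 : ℤ) := by
      rw [gn2_gal (hloc.inv σ)]
      exact hC x hx
    have h0 : σ (((x * (Z x ^ l)⁻¹ : Lˣ) : L) - 1 - algebraMap N L (C x : N) * (t : L)) =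
        σ ((x * (Z x ^ l)⁻¹ : Lˣ) : L) - 1 - algebraMap N L (C x : N) * σ (t : L) := by
      rw [map_sub, map_sub, map_mul, map_one, AlgEquiv.commutes]
    rw [h0, ← guN_apply, ← e1] at h1
    have h2 := hloc.act σ X hX
    have h3 : W.valuation L (((guN σ x * ((guN σ (Z x)) ^ l)⁻¹ : Lˣ) : L) - 1 -
        algebraMap N L ((C x * X : 𝓞 N) : N) * (t : L)) ≤ WithZero.exp (-2 : ℤ) := by
      have e : ((guN σ x * ((guN σ (Z x)) ^ l)⁻¹ : Lˣ) : L) - 1 -
          algebraMap N L ((C x * X : 𝓞 N) : N) * (t : L) =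
          (((guN σ x * ((guN σ (Z x)) ^ l)⁻¹ : Lˣ) : L) - 1 -
          algebraMap N L (C x : N) * σ (t : L)) +
          algebraMap N L (C x : N) * (σ (t : L) - algebraMap N L (X : N) * (t : L)) := by
        have : ((C x * X : 𝓞 N) : N) = (C x : N) * (X : N) := rfl
        rw [this, map_mul]
        ring
      rw [e]
      refine Valuation.map_add_le _ h1 ?_
      rw [map_mul]
      calc _ ≤ 1 * WithZero.exp (-2 : ℤ) := mul_le_mul' (gn2_val hloc (C x)).1 h2
        _ = _ := one_mul _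
    have h4 := gn2_un hloc (guN σ x) (C (guN σ x)) (C x * X) (Z (guN σ x)) (guN σ (Z x)) (hC _ hsx) h3
    show r (algebraMap (𝓞 N) (𝓞 L) (C (guN σ x))) = _
    rw [h4, map_mul, map_mul, hX, mul_comm]
  · intro x hx h0
    refine ⟨Z x, ?_⟩
    have e1 : ((x * (Z x ^ l)⁻¹ : Lˣ) : L) - 1 = (((x * (Z x ^ l)⁻¹ : Lˣ) : L) - 1 -
        algebraMap N L (C x : N) * (t : L)) + algebraMap N L (C x : N) * (t : L) := by
      ring
    rw [e1]
    refine Valuation.map_add_le _ (hC x hx) ?_
    rw [map_mul]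
    have h11 : WithZero.exp (-1 : ℤ) ≤ (1 : WithZero (Multiplicative ℤ)) := by
      rw [← WithZero.exp_zero, WithZero.exp_le_exp]
      norm_num
    calc W.valuation L (algebraMap N L (C x : N)) * W.valuation L (t : L) ≤ WithZero.exp (-2 : ℤ) * 1 :=
          mul_le_mul' (hloc.ram _ h0) (ht.le.trans h11)
      _ = _ := mul_one _

end H13Y
end

-- from Lib.H13Y.GN8b
section

open NumberField IsDedekindDomain

namespace H13Y

open H55B H55R H28G H99B

theorem gn8b_norm {N L : Type} [Field N] [NumberField N] [Field L] [NumberField L] [Algebra N L] (W : Pl L)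
    (hs : ∀ b : Kap W, ∃ y : 𝓞 N, kmk W (algebraMap (𝓞 N) (𝓞 L) y) = b) :
    Nat.card (Kap W) = Ideal.absNorm (W.under (𝓞 N)).asIdeal := by
  set f : 𝓞 N →+* Kap W := (kmk W).comp (algebraMap (𝓞 N) (𝓞 L)) with hf
  have hsur : Function.Surjective f := hs
  have hker : RingHom.ker f = (W.under (𝓞 N)).asIdeal := by
    ext y
    rw [RingHom.mem_ker, hf, RingHom.comp_apply, kmk_zero]
    rfl
  rw [Ideal.absNorm_apply, Submodule.cardQuot_apply, ← hker]
  exact Nat.card_congr (RingHom.quotientKerEquivOfSurjective hsur).symm.toEquiv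

theorem gn8b_fin {L : Type} [Field L] [NumberField L] [Algebra F L] {π : O} (h0 : π ≠ 0) :
    Finite {W : Pl L // algebraMap O (𝓞 L) π ∈ W.asIdeal} := by
  have h1 : algebraMap O (𝓞 L) π ≠ 0 := by
    intro h
    apply h0
    exact (FaithfulSMul.algebraMap_injective O (𝓞 L)) (by rw [h, map_zero])
  have h2 : Ideal.span {algebraMap O (𝓞 L) π} ≠ 0 := by
    simpa [Ideal.span_singleton_eq_bot] using h1
  have h3 := Ideal.finite_factors h2
  refine Set.Finite.to_subtype (h3.subset ?_)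
  intro W hW
  show W.asIdeal ∣ _
  rw [Ideal.dvd_span_singleton]
  exact hW

/-- Chunk GN8b (M). The levels at all primes above π. T = the finite type of the W with algebraMap O (𝓞 L) π ∈ W.asIdeal. Λ = (W : T) → Kap W, a k-vector space through the j W (letI := (j W).toAlgebra; Pi), f x = fun W => c W x with c W of exists_lev (CharP (Kap W) l: l = 0 in Kap W through j W, charP of the field k; Finite (Kap W): instance).
Dimension: card Λ = product of card (Kap W); 𝓞 N → Kap W is surjective (LocN.surj), so card (Kap W) = absNorm of W.under (𝓞 N) (Submodule.cardQuot / Ideal.absNorm_apply), the W.under (𝓞 N) are different (hone) and contain π: prod_norm_le gives card Λ ≤ (Nm π)^[N : F] = (card k)^[N : F]; card Λ = (card k)^(finrank Λ) (Module.card_eq_pow_finrank), 1 < card k. -/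
theorem exists_Lam {l : ℕ} [Fact l.Prime] {π : O} (h0 : π ≠ 0) {N L : Type} [Field N] [NumberField N]
    [Field L] [NumberField L] [Algebra F N] [Algebra N L] [Algebra F L] [IsScalarTower F N L] {k : Type}
    [Field k] [Fintype k] [CharP k l] (hcard : Fintype.card k = Nm π) (χ : Gal(L/N) →* kˣ)
    (hone : ∀ W W' : Pl L, algebraMap O (𝓞 L) π ∈ W.asIdeal → W.under (𝓞 N) = W'.under (𝓞 N) → W = W')
    (hloc : ∀ W : Pl L, algebraMap O (𝓞 L) π ∈ W.asIdeal →
      ∃ (j : k →+* Kap W) (t : Lˣ), LocN j χ W t (kmk W)) :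
    ∃ (Λ : Type) (_ : AddCommGroup Λ) (_ : Module k Λ) (_ : Module.Finite k Λ) (f : Lˣ → Λ),
      Module.finrank k Λ ≤ Module.finrank F N ∧
      (∀ x y : Lˣ, (∀ W : Pl L, algebraMap O (𝓞 L) π ∈ W.asIdeal → (l : ℤ) ∣ ord W x) →
        (∀ W : Pl L, algebraMap O (𝓞 L) π ∈ W.asIdeal → (l : ℤ) ∣ ord W y) → f (x * y) = f x + f y) ∧
      (∀ (σ : Gal(L/N)) (x : Lˣ), (∀ W : Pl L, algebraMap O (𝓞 L) π ∈ W.asIdeal → (l : ℤ) ∣ ord W x) →
        f (guN σ x) = (χ σ : k) • f x) ∧
      ∀ x : Lˣ, (∀ W : Pl L, algebraMap O (𝓞 L) π ∈ W.asIdeal → (l : ℤ) ∣ ord W x) → f x = 0 →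
        ∀ W : Pl L, algebraMap O (𝓞 L) π ∈ W.asIdeal → Lev l W x := by
  classical
  let S := {W : Pl L // algebraMap O (𝓞 L) π ∈ W.asIdeal}
  haveI : Finite S := gn8b_fin h0
  haveI : Fintype S := Fintype.ofFinite S
  choose j t hl using fun W : S => hloc W.1 W.2
  have hch : ∀ W : S, CharP (Kap W.1) l := fun W => charP_of_injective_ringHom (j W).injective l
  choose c hc1 hc2 hc3 using fun W : S => haveI := hch W; exists_lev (hl W)
  let Λ := (W : S) → Kap W.1
  letI m : ∀ W : S, Module k (Kap W.1) := fun W => Module.compHom _ (j W)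
  have hsm : ∀ (W : S) (a : k) (x : Kap W.1), a • x = j W a * x := fun W a x => rfl
  haveI : Finite Λ := Pi.finite
  haveI hfin : Module.Finite k Λ := Module.Finite.of_finite
  refine ⟨Λ, inferInstance, inferInstance, hfin, fun x W => c W x, ?_, ?_, ?_, ?_⟩
  · have h1 : Nat.card Λ = ∏ W : S, Nat.card (Kap W.1) := Nat.card_pi
    have h2 : Nat.card Λ = Nat.card k ^ Module.finrank k Λ := Module.natCard_eq_pow_finrank
    have hinj : Set.InjOn (fun W : S => W.1.under (𝓞 N)) (Finset.univ : Finset S) := by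
      intro W _ W' _ h
      exact Subtype.ext (hone W.1 W'.1 W.2 h)
    have h3 : ∏ W : S, Nat.card (Kap W.1) = ∏ v ∈ Finset.univ.image (fun W : S => W.1.under (𝓞 N)), Ideal.absNorm v.asIdeal := by
      rw [Finset.prod_image hinj]
      exact Finset.prod_congr rfl fun W _ => gn8b_norm W.1 (hl W).surj
    have h4 := prod_norm_le (N := N) h0 (Finset.univ.image (fun W : S => W.1.under (𝓞 N))) (by
      intro v hv
      obtain ⟨W, -, rfl⟩ := Finset.mem_image.1 hv
      show algebraMap (𝓞 N) (𝓞 L) (algebraMap O (𝓞 N) π) ∈ W.1.asIdeal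
      have : algebraMap (𝓞 N) (𝓞 L) (algebraMap O (𝓞 N) π) = algebraMap O (𝓞 L) π := by
        rw [← IsScalarTower.algebraMap_apply]
      rw [this]
      exact W.2)
    rw [← h3, ← h1, h2, ← hcard, Nat.card_eq_fintype_card] at h4
    exact (Nat.pow_le_pow_iff_right Fintype.one_lt_card).1 h4
  · intro x y hx hy
    funext W
    exact hc1 W x y (hx W.1 W.2) (hy W.1 W.2)
  · intro σ x hx
    funext W
    exact hc2 W σ x (hx W.1 W.2)
  · intro x hx h W hW
    exact hc3 ⟨W, hW⟩ x (hx W hW) (congrFun h ⟨W, hW⟩)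

end H13Y
end

-- from Lib.H55K.A.C1
section

/-!
Chunk C1 (M). The group of divisors and the class group with the action of the Galois group.
Div = Pl L →₀ ℤ. divF x = the divisor of x (finite support: H55R.HA11_finite). gD σ = Finsupp.mapDomain (smulP σ) (a monoid homomorphism by smulP_mul, smulP_one;
mapDomain_comp). gD_div: gD σ (divF x) = divF (gu σ x): at smulP σ v both are ord v x (mapDomain_apply with the injectivity of smulP σ, ord_smul; every prime is
smulP σ v). gD_apply: value at smulP σ v.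
fin_class: the quotient of Div by the principal divisors is finite: the additive map Div → Additive (ClassGroup (𝓞 L)) sending the basis vector of v to the class
of v.asIdeal (ClassGroup.mk0) has kernel contained in the principal divisors: for D = D1 - D2 with D1, D2 ≥ 0 in the kernel, the ideals a1, a2 (products of primes) have the same
class, so x a1 = y a2 with integers x, y (ClassGroup.mk0_eq_mk0_iff), and D = div(y/x) (counting orders; ord of an integral element is the multiplicity in its ideal: H55R.ord_int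
or HA5_ord). So Div / principal injects into the finite ClassGroup (or: it is a quotient of .. choose what is easiest; one can also prove that the index of the range of divF is
not 0 by AddSubgroup.index / AddMonoidHom.ker, index_ker, index_antitone).
-/

open NumberField IsDedekindDomain

namespace H55K.Ab

open H55R

variable {F : Type} [Field F] [NumberField F]

variable {L : Type} [Field L] [NumberField L]

/-- The divisor of an element. -/
noncomputable def divF : Additive Lˣ →+ (Pl L →₀ ℤ) where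
  toFun x := Finsupp.ofSupportFinite (fun v => ord v x.toMul) (HA11_finite x.toMul)
  map_zero' := by
    ext v
    exact ord_one v
  map_add' x y := by
    ext v
    exact ord_mul v x.toMul y.toMul

theorem divF_apply (x : Lˣ) (v : Pl L) : divF (Additive.ofMul x) v = ord v x := rfl

open scoped nonZeroDivisors

/-- The fractional ideal of a prime. -/
noncomputable def c1_U (v : Pl L) : (FractionalIdeal (𝓞 L)⁰ L)ˣ :=
  Units.mk0 (v.asIdeal : FractionalIdeal (𝓞 L)⁰ L) (FractionalIdeal.coeIdeal_ne_zero.mpr v.ne_bot)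

/-- The class of a divisor. -/
noncomputable def c1_phi : (Pl L →₀ ℤ) →+ Additive (ClassGroup (𝓞 L)) where
  toFun D := Additive.ofMul (ClassGroup.mk (K := L) (D.prod fun v n => c1_U v ^ n))
  map_zero' := by
    rw [Finsupp.prod_zero_index, map_one]
    rfl
  map_add' D D' := by
    rw [Finsupp.prod_add_index' (fun v => zpow_zero _) (fun v m n => zpow_add _ _ _), map_mul]
    rfl

theorem c1_coe (D : Pl L →₀ ℤ) : (((D.prod fun v n => c1_U v ^ n : (FractionalIdeal (𝓞 L)⁰ L)ˣ)) :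
    FractionalIdeal (𝓞 L)⁰ L) = D.prod fun v n => ((v.asIdeal : FractionalIdeal (𝓞 L)⁰ L)) ^ n := by
  unfold Finsupp.prod
  rw [Units.coe_prod]
  refine Finset.prod_congr rfl fun v _ => ?_
  rw [Units.val_zpow_eq_zpow_val]
  rfl

open Classical in
theorem c1_count (v : Pl L) (x : Lˣ) :
    FractionalIdeal.count L v (FractionalIdeal.spanSingleton (𝓞 L)⁰ (x : L)) = ord v x := by
  obtain ⟨a, b, hb, hab⟩ := IsFractionRing.div_surjective (A := 𝓞 L) (x : L)
  have hinj : Function.Injective (algebraMap (𝓞 L) L) := IsFractionRing.injective (𝓞 L) L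
  have hb0 : b ≠ 0 := nonZeroDivisors.ne_zero hb
  have ha0 : a ≠ 0 := by
    rintro rfl
    rw [map_zero, zero_div] at hab
    exact x.ne_zero hab.symm
  have hab0 : algebraMap (𝓞 L) L a ≠ 0 := by rwa [Ne, map_eq_zero_iff _ hinj]
  have hbb0 : algebraMap (𝓞 L) L b ≠ 0 := by rwa [Ne, map_eq_zero_iff _ hinj]
  have h1 : FractionalIdeal.spanSingleton (𝓞 L)⁰ (x : L) =
      FractionalIdeal.spanSingleton (𝓞 L)⁰ ((algebraMap (𝓞 L) L b))⁻¹ * ((Ideal.span {a} : Ideal (𝓞 L)) : FractionalIdeal (𝓞 L)⁰ L) := by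
    rw [FractionalIdeal.coeIdeal_span_singleton, FractionalIdeal.spanSingleton_mul_spanSingleton, ← hab, div_eq_inv_mul]
  have h0 : FractionalIdeal.spanSingleton (𝓞 L)⁰ (x : L) ≠ 0 :=
    FractionalIdeal.spanSingleton_ne_zero_iff.2 x.ne_zero
  rw [FractionalIdeal.count_well_defined L v h0 h1]
  have e1 := HA5_ord v (Units.mk0 _ hab0) a ha0 rfl
  have e2 := HA5_ord v (Units.mk0 _ hbb0) b hb0 rfl
  have e3 : x * Units.mk0 _ hbb0 = Units.mk0 _ hab0 := by
    ext
    change (x : L) * algebraMap (𝓞 L) L b = algebraMap (𝓞 L) L a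
    rw [← hab, div_mul_cancel₀ _ hbb0]
  have e4 := ord_mul v x (Units.mk0 _ hbb0)
  rw [e3, e1, e2] at e4
  linarith

theorem fin_class : Finite ((Pl L →₀ ℤ) ⧸ (divF (L := L)).range) := by
  classical
  have hle : (c1_phi (L := L)).ker ≤ (divF (L := L)).range := by
    intro D hD
    rw [AddMonoidHom.mem_ker] at hD
    have h1 : ClassGroup.mk (K := L) (D.prod fun v n => c1_U v ^ n) = 1 := hD
    rw [ClassGroup.mk_eq_one_iff, FractionalIdeal.isPrincipal_iff] at h1
    obtain ⟨x, hx⟩ := h1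
    have hx0 : x ≠ 0 := by
      rintro rfl
      rw [FractionalIdeal.spanSingleton_zero] at hx
      exact Units.ne_zero _ hx
    refine ⟨Additive.ofMul (Units.mk0 x hx0), ?_⟩
    ext v
    rw [divF_apply, ← c1_count v (Units.mk0 x hx0), Units.val_mk0, ← hx, c1_coe]
    exact FractionalIdeal.count_finsuppProd L v D
  have h2 : (c1_phi (L := L)).ker.FiniteIndex := inferInstance
  have h3 : (divF (L := L)).range.FiniteIndex := AddSubgroup.finiteIndex_of_le hle
  infer_instance

variable [Algebra F L]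

/-- The Galois action on the divisors. -/
noncomputable def gD : Gal(L/F) →* AddMonoid.End (Pl L →₀ ℤ) where
  toFun σ := Finsupp.mapDomain.addMonoidHom (smulP σ)
  map_one' := by
    refine AddMonoidHom.ext fun D => ?_
    change Finsupp.mapDomain (smulP (1 : Gal(L/F))) D = D
    have h : (smulP (1 : Gal(L/F)) : Pl L → Pl L) = id := funext fun v => smulP_one v
    rw [h, Finsupp.mapDomain_id]
  map_mul' σ τ := by
    refine AddMonoidHom.ext fun D => ?_
    change Finsupp.mapDomain (smulP (σ * τ)) D = Finsupp.mapDomain (smulP σ) (Finsupp.mapDomain (smulP τ) D)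
    have h : (smulP (σ * τ) : Pl L → Pl L) = smulP σ ∘ smulP τ := funext fun v => smulP_mul σ τ v
    rw [h, Finsupp.mapDomain_comp]

theorem c1_inj (σ : Gal(L/F)) : Function.Injective (smulP σ : Pl L → Pl L) := by
  intro v w h
  have h1 := congrArg (smulP σ⁻¹) h
  rwa [← smulP_mul, ← smulP_mul, inv_mul_cancel, smulP_one, smulP_one] at h1

theorem gD_apply (σ : Gal(L/F)) (D : Pl L →₀ ℤ) (v : Pl L) : gD σ D (smulP σ v) = D v :=
  Finsupp.mapDomain_apply (c1_inj σ) D v

theorem gD_single (σ : Gal(L/F)) (v : Pl L) (n : ℤ) :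
    gD σ (Finsupp.single v n) = Finsupp.single (smulP σ v) n :=
  Finsupp.mapDomain_single

theorem gD_div (σ : Gal(L/F)) (x : Lˣ) :
    gD σ (divF (Additive.ofMul x)) = divF (Additive.ofMul (gu σ x)) := by
  ext v
  have h1 : v = smulP σ (smulP σ⁻¹ v) := by rw [← smulP_mul, mul_inv_cancel, smulP_one]
  rw [h1, gD_apply, divF_apply, divF_apply]
  exact (ord_smul σ (smulP σ⁻¹ v) x).symm

end H55K.Ab
end

-- from Lib.H55K.A.C2
section

/-!
Chunk C2 (M). From an equivariant m with divisors divisible by l: either the class group has an equivariant homomorphism θ to k, not 0, or m is represented by units.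
PROOF. C = Div / principal, finite (fin_class), with the action of G = Gal(L/F) induced by gD (QuotientAddGroup.map, gD_div; a monoid homomorphism G →* AddMonoid.End C: gD is one).
D a = divF (m a) / l (the function v ↦ ord v (m a) / l). l • D a = divF (m a). From m (a+b) = m a m b z^l: D (a+b) = D a + D b + divF z (multiply by l, Div is torsion free), so
M a = class of D a is additive, and M (χ σ a) = ac σ (M a). If M a ≠ 0 for some a: dual_hom gives θ0 : C →+ k equivariant, not 0; θ v = θ0 (class of the basis vector of v): equiv by gD_single;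
for x: θ0 (class of divF x) = 0 and divF x = sum ord v x • single v 1 (Finsupp.sum_single), so the finite sum is 0 (finsum_eq_sum_of_support_subset; (n • c) = (n : k) * c).
θ v ≠ 0 for some v: otherwise θ0 kills all basis vectors, so θ0 = 0.
If M a = 0 for all a: D a = divF (z a), z a : Lˣ, m' a = m a * (z a ^ l)⁻¹ has divisor 0, and it is EqHom (it differs from m by l-th powers).
-/

open NumberField IsDedekindDomain

namespace H55K.Ab

open H55R

variable {F : Type} [Field F] [NumberField F]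

section c2aux

variable {A : Type} [CommGroup A] {l : ℕ}

/-- Equality up to l-th powers. -/
private def c2R (l : ℕ) (x y : A) : Prop := ∃ z : A, x = y * z ^ l


private theorem c2_symm {x y : A} (h : c2R l x y) : c2R l y x := by
  obtain ⟨z, rfl⟩ := h
  exact ⟨z⁻¹, by simp⟩

private theorem c2_trans {x y w : A} (h : c2R l x y) (h' : c2R l y w) : c2R l x w := by
  obtain ⟨z, rfl⟩ := h
  obtain ⟨v, rfl⟩ := h'
  exact ⟨v * z, by rw [mul_pow, mul_assoc]⟩

private theorem c2_mul {x y x' y' : A} (h : c2R l x y) (h' : c2R l x' y') : c2R l (x * x') (y * y') := by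
  obtain ⟨z, rfl⟩ := h
  obtain ⟨v, rfl⟩ := h'
  exact ⟨z * v, by rw [mul_pow, mul_mul_mul_comm]⟩

private theorem c2_map (f : Monoid.End A) {x y : A} (h : c2R l x y) : c2R l (f x) (f y) := by
  obtain ⟨z, rfl⟩ := h
  exact ⟨f z, by rw [map_mul, map_pow]⟩

end c2aux

/-- The action on the class group. -/
private noncomputable def c2ac (L : Type) [Field L] [NumberField L] [Algebra F L] :
    Gal(L/F) →* AddMonoid.End ((Pl L →₀ ℤ) ⧸ (divF (L := L)).range) where
  toFun σ := QuotientAddGroup.map _ _ (gD σ) (by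
    rintro _ ⟨x, rfl⟩
    exact ⟨Additive.ofMul (gu σ x.toMul), (gD_div σ x.toMul).symm⟩)
  map_one' := by
    ext x
    induction x using QuotientAddGroup.induction_on with
    | H x =>
      have h : (gD (1 : Gal(L/F))) x = x := by
        rw [map_one]
        rfl
      exact congrArg (QuotientAddGroup.mk (s := (divF (L := L)).range)) h
  map_mul' σ τ := by
    ext x
    induction x using QuotientAddGroup.induction_on with
    | H x =>
      have h : (gD (σ * τ)) x = gD σ (gD τ x) := by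
        rw [map_mul]
        rfl
      exact congrArg (QuotientAddGroup.mk (s := (divF (L := L)).range)) h

private theorem c2ac_mk {L : Type} [Field L] [NumberField L] [Algebra F L] (σ : Gal(L/F)) (D : Pl L →₀ ℤ) :
    c2ac L σ (QuotientAddGroup.mk' _ D) = QuotientAddGroup.mk' _ (gD σ D) := rfl

theorem class_step {L : Type} [Field L] [NumberField L] [Algebra F L] {l : ℕ} [Fact l.Prime]
    {k : Type} [Field k] [Fintype k] [DecidableEq k] [CharP k l] {χ : Gal(L/F) →* kˣ}
    (hχ : Function.Bijective χ) (ρ : k →+ ZMod l) (hρ : IsRho l ρ) {m : k → Lˣ}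
    (hm : EqHom l χ m) (hd : ∀ (a : k) (v : Pl L), (l : ℤ) ∣ ord v (m a)) :
    (∃ θ : Pl L → k, IsTh χ θ ∧ ∃ v, θ v ≠ 0) ∨
      ∃ m' : k → Lˣ, EqHom l χ m' ∧ (∀ (a : k) (v : Pl L), ord v (m' a) = 0) ∧
        ∀ a, ∃ z : Lˣ, m a = m' a * z ^ l := by
  classical
  have hl : (l : ℤ) ≠ 0 := by exact_mod_cast (Fact.out : l.Prime).ne_zero
  have hfin : Finite ((Pl L →₀ ℤ) ⧸ (divF (L := L)).range) := fin_class
  have hcanc : ∀ D D' : Pl L →₀ ℤ, (l : ℤ) • D = (l : ℤ) • D' → D = D' := by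
    intro D D' h
    ext v
    have := DFunLike.congr_fun h v
    simp only [Finsupp.smul_apply, smul_eq_mul] at this
    exact mul_left_cancel₀ hl this
  have hordpow : ∀ (x : Lˣ), divF (Additive.ofMul (x ^ l)) = (l : ℤ) • divF (Additive.ofMul x) := by
    intro x
    rw [ofMul_pow, map_nsmul]
    simp
  set D : k → (Pl L →₀ ℤ) := fun a => (divF (Additive.ofMul (m a))).mapRange (fun n => n / (l : ℤ)) (by simp) with hD
  have hDl : ∀ a, (l : ℤ) • D a = divF (Additive.ofMul (m a)) := by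
    intro a
    ext v
    rw [hD]
    simp only [Finsupp.smul_apply, Finsupp.mapRange_apply, smul_eq_mul]
    exact Int.mul_ediv_cancel' (hd a v)
  have hadd : ∀ a b, ∃ z : Lˣ, D (a + b) = D a + D b + divF (Additive.ofMul z) := by
    intro a b
    obtain ⟨z, hz⟩ := hm.add a b
    refine ⟨z, hcanc _ _ ?_⟩
    rw [hDl, smul_add, smul_add, hDl, hDl, hz, ofMul_mul, ofMul_mul, map_add, map_add, hordpow]
  have hequiv : ∀ σ a, ∃ z : Lˣ, D (χ σ * a) = gD σ (D a) + divF (Additive.ofMul z) := by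
    intro σ a
    obtain ⟨z, hz⟩ := hm.equiv σ a
    refine ⟨z, hcanc _ _ ?_⟩
    rw [hDl, smul_add, ← map_zsmul, hDl, gD_div, hz, ofMul_mul, map_add, hordpow]
  set mkq : (Pl L →₀ ℤ) →+ (Pl L →₀ ℤ) ⧸ (divF (L := L)).range := QuotientAddGroup.mk' _ with hmkq
  have hmk0 : ∀ x : Lˣ, mkq (divF (Additive.ofMul x)) = 0 := fun x =>
    (QuotientAddGroup.eq_zero_iff _).2 ⟨_, rfl⟩
  have hMadd : ∀ a b, mkq (D (a + b)) = mkq (D a) + mkq (D b) := by
    intro a b
    obtain ⟨z, hz⟩ := hadd a b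
    rw [hz, map_add, map_add, hmk0, add_zero]
  set M : k →+ (Pl L →₀ ℤ) ⧸ (divF (L := L)).range := AddMonoidHom.mk' (fun a => mkq (D a)) hMadd with hM
  have hMeq : ∀ (σ : Gal(L/F)) (a : k), M (χ σ * a) = c2ac L σ (M a) := by
    intro σ a
    obtain ⟨z, hz⟩ := hequiv σ a
    change mkq (D (χ σ * a)) = c2ac L σ (mkq (D a))
    rw [hz, map_add, hmk0, add_zero, hmkq, c2ac_mk]
  by_cases hM0 : ∃ a, M a ≠ 0
  · left
    obtain ⟨θ0, hθ1, x0, hx0⟩ := dual_hom (c2ac L) χ hχ ρ hρ M hMeq hM0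
    set Φ : (Pl L →₀ ℤ) →+ k := θ0.comp mkq with hΦ
    have hΦs : ∀ v n, Φ (Finsupp.single v n) = (n : k) * Φ (Finsupp.single v 1) := by
      intro v n
      have : Finsupp.single v n = n • Finsupp.single v (1 : ℤ) := by
        rw [Finsupp.smul_single, smul_eq_mul, mul_one]
      rw [this, map_zsmul, zsmul_eq_mul]
    have hΦD : ∀ E : Pl L →₀ ℤ, Φ E = ∑ v ∈ E.support, (E v : k) * Φ (Finsupp.single v 1) := by
      intro E
      conv_lhs => rw [← Finsupp.sum_single E]
      rw [Finsupp.sum, map_sum]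
      exact Finset.sum_congr rfl fun v _ => hΦs v (E v)
    refine ⟨fun v => Φ (Finsupp.single v 1), ⟨fun σ v => ?_, fun x => ?_⟩, ?_⟩
    · rw [← gD_single]
      change θ0 (mkq (gD σ (Finsupp.single v 1))) = _
      rw [hmkq, ← c2ac_mk, hθ1]
      rfl
    · have h1 : Φ (divF (Additive.ofMul x)) = 0 := by
        change θ0 (mkq _) = 0
        rw [hmk0, map_zero]
      rw [hΦD] at h1
      rw [← h1]
      refine finsum_eq_sum_of_support_subset _ fun v hv => ?_
      rw [Finset.mem_coe, Finsupp.mem_support_iff]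
      intro h0
      apply hv
      have h2 : ord v x = 0 := h0
      simp only [h2, Int.cast_zero, zero_mul]
    · by_contra hcon
      push Not at hcon
      apply hx0
      obtain ⟨E, rfl⟩ := QuotientAddGroup.mk'_surjective _ x0
      change Φ E = 0
      rw [hΦD]
      exact Finset.sum_eq_zero fun v _ => by rw [hcon v, mul_zero]
  · right
    push Not at hM0
    have hex : ∀ a, ∃ z : Lˣ, divF (Additive.ofMul z) = D a := by
      intro a
      obtain ⟨z, hz⟩ := (QuotientAddGroup.eq_zero_iff _).1 (hM0 a)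
      exact ⟨z.toMul, hz⟩
    choose z hz using hex
    set m' : k → Lˣ := fun a => m a * (z a ^ l)⁻¹ with hm'
    have hmm : ∀ a, m a = m' a * z a ^ l := fun a => by
      rw [hm']
      simp
    have hR : ∀ a, c2R l (m a) (m' a) := fun a => ⟨z a, hmm a⟩
    refine ⟨m', ⟨fun a b => ?_, fun σ a => ?_⟩, fun a v => ?_, fun a => ⟨z a, hmm a⟩⟩
    · exact c2_trans (c2_symm (hR _)) (c2_trans (hm.add a b) (c2_mul (hR a) (hR b)))
    · exact c2_trans (c2_symm (hR _)) (c2_trans (hm.equiv σ a) (c2_map (gu σ) (hR a)))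
    · have h1 : divF (Additive.ofMul (m a)) = divF (Additive.ofMul (m' a)) + (l : ℤ) • divF (Additive.ofMul (z a)) := by
        rw [← hordpow, ← map_add, ← ofMul_mul, ← hmm]
      rw [hz, hDl] at h1
      have h2 : divF (Additive.ofMul (m' a)) = 0 := by
        have h3 : divF (Additive.ofMul (m a)) + 0 = divF (Additive.ofMul (m a)) + divF (Additive.ofMul (m' a)) := by
          rw [add_zero, add_comm]
          exact h1
        exact (add_left_cancel h3).symm
      have := DFunLike.congr_fun h2 v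
      exact this

end H55K.Ab
end

-- from Lib.H55K.A.D2
section

/-!
Chunk D2 (M). Roots of unity and Kummer extensions.
exists_cyc: L' = CyclotomicField l L (L is a number field): Galois over L, [L':L] divides l - 1 (the Galois group embeds in (ZMod l)ˣ: IsPrimitiveRoot.autToPow_injective), so it is prime to l.
not_pow: if the image of x in L' is z^l then x^d = N(x) = N(z)^l with d = [L':L] prime to l (Algebra.norm_algebraMap), so x is an l-th power in L (lpow_of_coprime).
kummer: x ∈ L' not an l-th power, ζ ∈ L': X^l - x is irreducible (X_pow_sub_C_irreducible_of_prime), M = AdjoinRoot or the splitting field is Galois of degree l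
(isGalois_of_isSplittingField_X_pow_sub_C, finrank_of_isSplittingField_X_pow_sub_C), a number field (finite over L'). β ∈ M with β^l = x.
kummer_spl: v a prime of L' with l ∉ v, PowMod l v x. Then v splits completely in M = L'(β). PROOF: replace x by x z^(-l), β by β/z: v.valuation(x - 1) < 1. By spl_bot we need: W above v, σ W = W imply
σ = 1. σ β = ζ^j β. Modulo W: β^l = x = 1 (W.valuation (x - 1) < 1), so prod_i (β - ζ^i) = β^l - 1 has positive order at W and β = ζ^i mod W for some i (β is W-integral). As σ W = W and σ ζ = ζ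
(ζ ∈ L'): σ β = ζ^i mod W, so ζ^j β = β mod W, W.valuation (ζ^j - 1) < 1. If ζ^j ≠ 1 then ζ^j - 1 divides l (prod_{i=1}^{l-1} (1 - ζ^i) = l) in 𝓞, contradiction to l ∉ W. So σ β = β, and β generates M
over L' (hgen), σ = 1.
-/

open NumberField IsDedekindDomain

namespace H55K.Ab

open H55R

variable {F : Type} [Field F] [NumberField F]

open Polynomial in
theorem emb27 {K : Type} [Field K] [NumberField K] {ζ : K} (hζ : IsPrimitiveRoot ζ 3) :
    Nonempty (H55B.F →+* K) := by
  have h1 : (X ^ 3 - C (1 : K)).Splits := X_pow_sub_one_splits hζ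
  have h2 : ((cyclotomic 3 ℚ).map (algebraMap ℚ K)).Splits := by
    rw [map_cyclotomic]
    refine h1.of_dvd (X_pow_sub_C_ne_zero (by norm_num) 1) ?_
    rw [C_1]
    exact cyclotomic.dvd_X_pow_sub_one 3 K
  have h3 : IsSplittingField ℚ H55B.F (cyclotomic 3 ℚ) :=
    IsCyclotomicExtension.splitting_field_cyclotomic 3 ℚ H55B.F
  exact ⟨(IsSplittingField.lift H55B.F (cyclotomic 3 ℚ) h2).toRingHom⟩

theorem exists_cyc (L : Type) [Field L] [NumberField L] (l : ℕ) [Fact l.Prime] (hl5 : 5 ≤ l) :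
    ∃ (L' : Type) (_ : Field L') (_ : NumberField L') (_ : Algebra L L') (_ : IsGalois L L')
      (_ : Algebra H55B.F L') (ζ : L'), IsPrimitiveRoot ζ l ∧ (Module.finrank L L').Coprime l := by
  have hl : l.Prime := Fact.out
  have hl0 : l ≠ 0 := hl.ne_zero
  have : NeZero (3 * l) := ⟨by omega⟩
  have hg : IsGalois L (CyclotomicField (3 * l) L) :=
    IsCyclotomicExtension.isGalois {3 * l} L (CyclotomicField (3 * l) L)
  have hζ := IsCyclotomicExtension.zeta_spec (3 * l) L (CyclotomicField (3 * l) L)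
  have hζ3 : IsPrimitiveRoot (IsCyclotomicExtension.zeta (3 * l) L (CyclotomicField (3 * l) L) ^ l) 3 :=
    hζ.pow (by omega) (mul_comm 3 l)
  have hζl : IsPrimitiveRoot (IsCyclotomicExtension.zeta (3 * l) L (CyclotomicField (3 * l) L) ^ 3) l :=
    hζ.pow (by omega) rfl
  obtain ⟨φ⟩ := emb27 hζ3
  refine ⟨CyclotomicField (3 * l) L, inferInstance, inferInstance, inferInstance, hg,
    φ.toAlgebra, _, hζl, ?_⟩
  rw [← IsGalois.card_aut_eq_finrank]
  have hinj := hζ.autToPow_injective (K := L)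
  have hdvd : Nat.card Gal(CyclotomicField (3 * l) L/L) ∣ Nat.card (ZMod (3 * l))ˣ :=
    Subgroup.card_dvd_of_injective (hζ.autToPow L) hinj
  rw [Nat.card_eq_fintype_card (α := (ZMod (3 * l))ˣ), ZMod.card_units_eq_totient] at hdvd
  have h0 : (l - 1).Coprime l := by
    have h2 := hl.one_lt
    rw [Nat.coprime_comm]
    rw [Nat.Prime.coprime_iff_not_dvd hl]
    intro h3
    have := Nat.le_of_dvd (by omega) h3
    omega
  have h5 : Nat.Coprime 3 l := (Nat.coprime_primes (by norm_num) hl).2 (by omega)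
  have h6 : Nat.totient 3 = 2 := by decide
  rw [Nat.totient_mul h5, Nat.totient_prime hl, h6] at hdvd
  refine Nat.Coprime.coprime_dvd_left hdvd (Nat.Coprime.mul_left ?_ h0)
  exact (Nat.coprime_primes Nat.prime_two hl).2 (by omega)

theorem not_pow {L L' : Type} [Field L] [NumberField L] [Field L'] [NumberField L']
    [Algebra L L'] {l : ℕ} [Fact l.Prime] (hc : (Module.finrank L L').Coprime l) (x : Lˣ)
    (hx : ∃ z : L'ˣ, Units.map (algebraMap L L' : L →* L') x = z ^ l) : ∃ z : Lˣ, x = z ^ l := by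
  obtain ⟨z, hz⟩ := hx
  apply lpow_of_coprime (Module.finrank L L' : ℤ) x (Nat.isCoprime_iff_coprime.2 hc)
  refine ⟨Units.map (Algebra.norm L : L' →* L) z, ?_⟩
  apply Units.ext
  have h1 := congrArg (fun u : L'ˣ => Algebra.norm L (u : L')) hz
  simp only [Units.coe_map, MonoidHom.coe_coe, Units.val_pow_eq_pow_val, map_pow] at h1
  rw [Algebra.norm_algebraMap] at h1
  simpa using h1

theorem kummer {L' : Type} [Field L'] [NumberField L'] {l : ℕ} [Fact l.Prime] (ζ : L')
    (hζ : IsPrimitiveRoot ζ l) (x : L'ˣ) (hx : ¬ ∃ z : L'ˣ, x = z ^ l) :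
    ∃ (M : Type) (_ : Field M) (_ : NumberField M) (_ : Algebra L' M) (_ : IsGalois L' M) (β : M),
      Module.finrank L' M = l ∧ β ^ l = algebraMap L' M x ∧
        ∀ σ : Gal(M/L'), σ β = β → σ = 1 := by
  have hl : l.Prime := Fact.out
  have : NeZero l := ⟨hl.ne_zero⟩
  have hirr : Irreducible (Polynomial.X ^ l - Polynomial.C (x : L')) := by
    apply X_pow_sub_C_irreducible_of_prime hl
    intro b hb
    have hb0 : b ≠ 0 := by
      rintro rfl
      rw [zero_pow hl.ne_zero] at hb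
      exact x.ne_zero hb.symm
    exact hx ⟨Units.mk0 b hb0, Units.ext (by simpa using hb.symm)⟩
  have hne : (primitiveRoots l L').Nonempty := ⟨ζ, (mem_primitiveRoots hl.pos).2 hζ⟩
  let M := (Polynomial.X ^ l - Polynomial.C (x : L')).SplittingField
  have hfd : FiniteDimensional L' M := inferInstance
  have hnf : NumberField M := NumberField.of_module_finite L' M
  refine ⟨M, inferInstance, hnf, inferInstance, isGalois_of_isSplittingField_X_pow_sub_C hne hirr M,
    rootOfSplitsXPowSubC hl.pos (x : L') M, finrank_of_isSplittingField_X_pow_sub_C hne hirr M,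
    rootOfSplitsXPowSubC_pow (x : L') M, ?_⟩
  intro σ hσ
  have htop := Algebra.adjoin_root_eq_top_of_isSplittingField hne hirr
    (rootOfSplitsXPowSubC_pow (x : L') M)
  have h1 : (σ : M →ₐ[L'] M) = AlgHom.id L' M := by
    apply AlgHom.ext_of_adjoin_eq_top htop
    intro y hy
    rw [Set.mem_singleton_iff] at hy
    rw [hy]
    exact hσ
  ext y
  exact DFunLike.congr_fun h1 y

/-- σ W = W implies that W is invariant. -/
theorem d2_inv {K M : Type} [Field K] [NumberField K] [Field M] [NumberField M] [Algebra K M]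
    (W : Pl M) (σ : Gal(M/K)) (hσ : smulP σ W = W) (y : M) :
    W.valuation M (σ y) = W.valuation M y := by
  by_cases hy : y = 0
  · rw [hy, map_zero]
  · have h1 := ord_smul σ W (Units.mk0 y hy)
    rw [hσ] at h1
    have h2 := BF1_val W (Units.map ((σ : M ≃ₐ[K] M) : M →* M) (Units.mk0 y hy))
    have h3 := BF1_val W (Units.mk0 y hy)
    rw [h1, ← h3] at h2
    exact h2

theorem kummer_spl {L' : Type} [Field L'] [NumberField L'] {l : ℕ} [Fact l.Prime] (ζ : L')
    (hζ : IsPrimitiveRoot ζ l) (x : L'ˣ) {M : Type} [Field M] [NumberField M] [Algebra L' M]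
    [IsGalois L' M] (β : M) (hβ : β ^ l = algebraMap L' M x)
    (hgen : ∀ σ : Gal(M/L'), σ β = β → σ = 1) (v : Pl L') (hl : (l : 𝓞 L') ∉ v.asIdeal)
    (hv : PowMod l v x) : Spl L' M v := by
  have hlp : l.Prime := Fact.out
  have : NeZero l := ⟨hlp.ne_zero⟩
  rw [spl_bot]
  intro W hW σ hσ
  rw [Subgroup.mem_bot]
  have hsm : smulP σ W = W := HeightOneSpectrum.ext hσ
  obtain ⟨z, hz⟩ := hv
  have hWv : v.asIdeal = W.asIdeal.under (𝓞 L') := by
    rw [← hW]
    rfl
  have hlo : W.asIdeal.LiesOver v.asIdeal := ⟨hWv⟩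
  have hWp := W.isPrime
  have he : v.asIdeal.ramificationIdx' W.asIdeal ≠ 0 :=
    Ideal.IsDedekindDomain.ramificationIdx'_ne_zero_of_liesOver W.asIdeal v.ne_bot
  have hval : ∀ y : L', W.valuation M (algebraMap L' M y) =
      v.valuation L' y ^ (v.asIdeal.ramificationIdx' W.asIdeal) := fun y =>
    (HeightOneSpectrum.valuation_liesOver M v W y).symm
  -- the normalised root
  set u : M := β / algebraMap L' M z with hu
  have hz0 : algebraMap L' M z ≠ 0 := (map_ne_zero _).2 z.ne_zero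
  have hul : u ^ l = algebraMap L' M ((x * (z ^ l)⁻¹ : L'ˣ) : L') := by
    rw [hu, div_pow, hβ, Units.val_mul, map_mul, Units.val_inv_eq_inv_val, map_inv₀, Units.val_pow_eq_pow_val,
      map_pow, div_eq_mul_inv]
  have h1 : W.valuation M (u ^ l - 1) < 1 := by
    rw [hul, ← map_one (algebraMap L' M), ← map_sub, hval]
    exact pow_lt_one₀ zero_le hz he
  have hζM : IsPrimitiveRoot (algebraMap L' M ζ) l := hζ.map_of_injective (algebraMap L' M).injective
  have hu1 : W.valuation M (u ^ l) = 1 := by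
    have e : u ^ l = 1 + (u ^ l - 1) := by ring
    rw [e, Valuation.map_add_eq_of_lt_left _ (by rw [map_one]; exact h1), map_one]
  have hW1 : W.valuation M u = 1 := by
    rw [map_pow] at hu1
    exact (pow_eq_one_iff_of_nonneg zero_le hlp.ne_zero).1 hu1
  have hu0 : u ≠ 0 := by
    intro h0
    rw [h0, map_zero] at hW1
    exact zero_ne_one hW1
  -- one of the factors is small
  have hprod : u ^ l - 1 = ∏ y ∈ Polynomial.nthRootsFinset l (1 : M), (u - y) := by
    have h2 := hζM.pow_sub_pow_eq_prod_sub_mul u 1 hlp.pos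
    rw [one_pow] at h2
    rw [h2]
    exact Finset.prod_congr rfl fun y _ => by rw [mul_one]
  have hex : ∃ i, W.valuation M (u - algebraMap L' M ζ ^ i) < 1 := by
    by_contra hcon
    rw [hprod, map_prod] at h1
    refine absurd h1 (not_lt.2 (Finset.one_le_prod' fun y hy => ?_))
    rw [Polynomial.mem_nthRootsFinset hlp.pos] at hy
    obtain ⟨i, -, hi⟩ := hζM.eq_pow_of_pow_eq_one hy
    rw [← hi]
    exact not_lt.1 fun h3 => hcon ⟨i, h3⟩
  obtain ⟨i, hi⟩ := hex
  have hi2 : W.valuation M (σ u - algebraMap L' M ζ ^ i) < 1 := by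
    have h2 := d2_inv W σ hsm (u - algebraMap L' M ζ ^ i)
    rw [map_sub, map_pow, AlgEquiv.commutes] at h2
    rw [h2]
    exact hi
  have h3 : W.valuation M (σ u - u) < 1 := by
    have e : σ u - u = (σ u - algebraMap L' M ζ ^ i) - (u - algebraMap L' M ζ ^ i) := by ring
    rw [e]
    exact lt_of_le_of_lt (Valuation.map_sub _ _ _) (max_lt hi2 hi)
  -- the quotient
  set η : M := σ u / u with hη
  have hηl : η ^ l = 1 := by
    rw [hη, div_pow, ← map_pow, hul, AlgEquiv.commutes, div_self]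
    rw [← hul]
    exact pow_ne_zero _ hu0
  have h4 : W.valuation M (η - 1) < 1 := by
    have e : η - 1 = (σ u - u) / u := by
      rw [hη]
      field_simp
    rw [e, map_div₀, hW1, div_one]
    exact h3
  have h5 : η = 1 := by
    by_contra hne
    have h6 : ∑ i ∈ Finset.range l, η ^ i = 0 := by
      have h7 := mul_geom_sum η l
      rw [hηl, sub_self] at h7
      exact (mul_eq_zero.1 h7).resolve_left (sub_ne_zero.2 hne)
    have hη1 : W.valuation M η = 1 := by
      have e : η = 1 + (η - 1) := by ring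
      rw [e, Valuation.map_add_eq_of_lt_left _ (by rw [map_one]; exact h4), map_one]
    have h8 : ∀ i : ℕ, W.valuation M (η ^ i - 1) < 1 := by
      intro i
      rw [← mul_geom_sum, map_mul]
      have h9 : W.valuation M (∑ j ∈ Finset.range i, η ^ j) ≤ 1 := by
        apply Valuation.map_sum_le
        intro j _
        rw [map_pow, hη1, one_pow]
      calc W.valuation M (η - 1) * W.valuation M (∑ j ∈ Finset.range i, η ^ j)
          ≤ W.valuation M (η - 1) * 1 := mul_le_mul_right h9 _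
        _ < 1 := by rw [mul_one]; exact h4
    have h10 : W.valuation M (l : M) < 1 := by
      have e : (l : M) = -∑ i ∈ Finset.range l, (η ^ i - 1) := by
        rw [Finset.sum_sub_distrib, h6]
        simp
      rw [e, Valuation.map_neg]
      apply Valuation.map_sum_lt _ one_ne_zero
      intro i _
      exact h8 i
    have h11 : v.valuation L' (l : L') = 1 := by
      have h12 : v.valuation L' (algebraMap (𝓞 L') L' (l : 𝓞 L')) ≤ 1 :=
        HeightOneSpectrum.valuation_le_one (K := L') v (l : 𝓞 L')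
      have h13 : ¬ v.valuation L' (algebraMap (𝓞 L') L' (l : 𝓞 L')) < 1 :=
        (not_congr (HeightOneSpectrum.valuation_lt_one_iff_mem (K := L') v (l : 𝓞 L'))).2 hl
      rw [map_natCast] at h12 h13
      exact le_antisymm h12 (not_lt.1 h13)
    have h14 := hval (l : L')
    rw [map_natCast, h11, one_pow] at h14
    exact absurd h10 (by rw [h14]; exact lt_irrefl _)
  have h15 : σ u = u := by
    rw [hη, div_eq_one_iff_eq hu0] at h5
    exact h5
  apply hgen
  have h16 : β = u * algebraMap L' M z := by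
    rw [hu]
    field_simp
  rw [h16, map_mul, h15, AlgEquiv.commutes]

end H55K.Ab
end

-- from Lib.H13Z.LF1
section

open NumberField IsDedekindDomain

namespace H13Z

open H55P

theorem lf1_one {G : Type} [LinearOrderedCommGroupWithZero G] (a : G) (n : ℕ) (hn : n ≠ 0)
    (h : a ^ n = 1) : a = 1 := by
  have h0 : (0 : G) ≤ a := zero_le
  exact (pow_eq_one_iff_of_nonneg h0 hn).1 h

/-- lower bound for the value of ζ - 1 -/
theorem lf1_root {Ω : Type} [Field Ω] (V : ValuationSubring Ω) (l : ℕ) (hl : l.Prime)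
    (ζ : Ω) (hζ : ζ ^ l = 1) (h1 : ζ ≠ 1) : V.valuation (l : Ω) ≤ V.valuation (ζ - 1) ^ (l - 1) := by
  have hl2 := hl.two_le
  have hv1 : V.valuation ζ = 1 := by
    apply lf1_one _ l hl.ne_zero
    rw [← map_pow, hζ, map_one]
  have hpr : IsPrimitiveRoot ζ l := by
    have : Fact l.Prime := ⟨hl⟩
    have := orderOf_eq_prime hζ h1
    rw [← this]
    exact IsPrimitiveRoot.orderOf ζ
  have key : ∀ j ∈ Finset.range (l - 1), V.valuation (1 - ζ ^ (j + 1)) ≤ V.valuation (1 - ζ) := by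
    intro j _
    have e1 : (1 - ζ ^ (j + 1) : Ω) = (1 - ζ) * ∑ i ∈ Finset.range (j + 1), ζ ^ i := by
      rw [mul_comm, geom_sum_mul_neg]
    rw [e1, map_mul]
    have e2 : V.valuation (∑ i ∈ Finset.range (j + 1), ζ ^ i) ≤ 1 := by
      apply Valuation.map_sum_le
      intro i _
      rw [map_pow, hv1, one_pow]
    calc V.valuation (1 - ζ) * V.valuation (∑ i ∈ Finset.range (j + 1), ζ ^ i)
        ≤ V.valuation (1 - ζ) * 1 := by gcongr
      _ = _ := mul_one _
  have hprod : ∏ k ∈ Finset.range (l - 1), (1 - ζ ^ (k + 1)) = (l : Ω) := by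
    have hpr' : IsPrimitiveRoot ζ ((l - 1) + 1) := by
      have : l - 1 + 1 = l := by omega
      rw [this]; exact hpr
    rw [hpr'.prod_one_sub_pow_eq_order]
    have : ((l - 1 : ℕ) : Ω) + 1 = ((l - 1 + 1 : ℕ) : Ω) := by push_cast; ring
    rw [this]
    congr 1
    omega
  rw [← hprod, map_prod, Valuation.map_sub_swap]
  calc ∏ k ∈ Finset.range (l - 1), V.valuation (1 - ζ ^ (k + 1))
      ≤ ∏ _k ∈ Finset.range (l - 1), V.valuation (1 - ζ) := Finset.prod_le_prod' key
    _ = _ := by rw [Finset.prod_const, Finset.card_range]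

theorem fix_eq {F₀ Ω : Type} [Field F₀] [Field Ω] [Algebra F₀ Ω] [CharZero Ω] (V : ValuationSubring Ω)
    {l : ℕ} (hl : l.Prime) (h3 : 3 ≤ l) (hV : V.valuation (l : Ω) < 1) {τ u y : Ω}
    (hτ : V.valuation τ ^ (l - 1) = V.valuation (l : Ω)) (hy : y ^ l = u)
    (hu : V.valuation (u - 1) ≤ V.valuation τ ^ l) {s : Ω ≃ₐ[F₀] Ω} (hs : Inert V s) (h1 : s τ = τ)
    (h2 : s u = u) : s y = y := by
  have hl0 : V.valuation (l : Ω) ≠ 0 := by
    rw [Valuation.ne_zero_iff]
    exact_mod_cast hl.ne_zero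
  have hτ0 : V.valuation τ ≠ 0 := by
    intro h
    rw [h, zero_pow (by omega)] at hτ
    exact hl0 hτ.symm
  have hτne : τ ≠ 0 := (Valuation.ne_zero_iff _).1 hτ0
  have hτ1 : V.valuation τ < 1 := by
    by_contra h
    have := one_le_pow₀ (not_lt.1 h) (n := l - 1)
    rw [hτ] at this
    exact absurd hV (not_lt.2 this)
  have hu1 : V.valuation u = 1 := by
    have h4 : V.valuation (u - 1) < V.valuation 1 := by
      rw [map_one]
      exact lt_of_le_of_lt hu (pow_lt_one₀ zero_le hτ1 hl.ne_zero)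
    rw [Valuation.map_eq_of_sub_lt _ h4, map_one]
  have hy1 : V.valuation y = 1 := by
    apply lf1_one _ l hl.ne_zero
    rw [← map_pow, hy, hu1]
  have hy0 : y ≠ 0 := by
    rintro rfl
    rw [map_zero] at hy1
    exact zero_ne_one hy1
  by_contra hne
  have hζ : (s y / y) ^ l = 1 := by
    rw [div_pow, ← map_pow, hy, h2, div_self]
    rw [← hy]
    exact pow_ne_zero _ hy0
  have hζ1 : s y / y ≠ 1 := by
    intro h
    rw [div_eq_one_iff_eq hy0] at h
    exact hne h
  have hroot := lf1_root V l hl _ hζ hζ1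
  have hge : V.valuation τ ≤ V.valuation (s y / y - 1) := by
    by_contra h
    push Not at h
    have h5 := pow_lt_pow_left₀ h zero_le (n := l - 1) (by omega)
    rw [hτ] at h5
    exact absurd hroot (not_le.2 h5)
  obtain ⟨Z, hZ⟩ : ∃ Z, Z = y - 1 := ⟨_, rfl⟩
  have hZV : Z ∈ V := by
    rw [← V.valuation_le_one_iff, hZ]
    refine (Valuation.map_sub _ _ _).trans ?_
    rw [hy1, map_one, max_self]
  have hZτ : V.valuation Z ≤ V.valuation τ := by
    by_contra h
    push Not at h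
    obtain ⟨r, hr⟩ := exists_add_pow_prime_eq hl (⟨Z, hZV⟩ : V) 1
    have hr' := congrArg (fun x : V => (x : Ω)) hr
    push_cast at hr'
    have e1 : Z ^ l = (u - 1) - (l : Ω) * Z * (r : Ω) := by
      have e2 : Z + 1 = y := by rw [hZ]; ring
      rw [e2, hy, one_pow] at hr'
      linear_combination -hr'
    have hZ0 : V.valuation Z ≠ 0 := (lt_of_le_of_lt zero_le h).ne'
    have h6 : V.valuation (Z ^ l) < V.valuation Z ^ l := by
      rw [e1]
      apply Valuation.map_sub_lt
      · exact lt_of_le_of_lt hu (pow_lt_pow_left₀ h zero_le hl.ne_zero)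
      · rw [map_mul, map_mul]
        have hr1 : V.valuation (r : Ω) ≤ 1 := V.valuation_le_one r
        have h7 : V.valuation (l : Ω) < V.valuation Z ^ (l - 1) := by
          rw [← hτ]
          exact pow_lt_pow_left₀ h zero_le (by omega)
        calc V.valuation (l : Ω) * V.valuation Z * V.valuation (r : Ω)
            ≤ V.valuation (l : Ω) * V.valuation Z * 1 := by gcongr
          _ = V.valuation (l : Ω) * V.valuation Z := mul_one _
          _ < V.valuation Z ^ (l - 1) * V.valuation Z :=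
            mul_lt_mul_of_pos_right h7 (zero_lt_iff.2 hZ0)
          _ = V.valuation Z ^ l := by
            rw [← pow_succ]
            congr 1
            omega
    rw [map_pow] at h6
    exact lt_irrefl _ h6
  have hx : Z / τ ∈ V := by
    rw [← V.valuation_le_one_iff, map_div₀]
    exact div_le_one_of_le₀ hZτ zero_le
  have h8 := hs _ hx
  have e3 : s (Z / τ) - Z / τ = (s y / y - 1) * y / τ := by
    rw [map_div₀, h1, hZ, map_sub, map_one]
    field_simp
    ring
  rw [e3, map_div₀, map_mul, hy1, mul_one, div_lt_one₀ (zero_lt_iff.2 hτ0)] at h8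
  exact absurd hge (not_le.2 h8)

end H13Z
end

-- from Lib.H55K.A.A1
section

/-!
Chunk A1 (M, pure Mathlib). The trace form.
PROOF. k is a finite field of characteristic l, so it is an algebra over ZMod l (ZMod.algebra k l; use letI), q = card k = l^f,
f = finrank (ZMod l) k. ρ = Algebra.trace (ZMod l) k as an additive map. FiniteField.algebraMap_trace_eq_sum_pow (or the statement with this
content): algebraMap (Tr x) = sum over i < f of x^(l^i). The cast of (ρ b).val to k is algebraMap (ZMod l) k (ρ b) (ZMod.natCast_val / ZMod.cast_id /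
map_natCast). Hence the sum is sum_{i<f} sum_c (a c^-1)^(l^i) c = sum_{i<f} a^(l^i) sum_c c^(1 - l^i). The term i = 0 is a (q - 1) = -a.
For 0 < i < f: sum_c c^(1-l^i) = sum_c (c^-1)^(l^i - 1) = 0 by FiniteField.sum_pow_units, because q - 1 does not divide l^i - 1
(0 < l^i - 1 < q - 1; l >= 2).
-/

namespace H55K.Ab

theorem a1_inner {k : Type} [Field k] [Fintype k] [DecidableEq k] (m : ℕ) (hm : 0 < m) :
    ∑ c : kˣ, ((c⁻¹ : kˣ) : k) ^ m * (c : k) = if Fintype.card k - 1 ∣ m - 1 then -1 else 0 := by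
  rw [← FiniteField.sum_pow_units k (m - 1), ← Equiv.sum_comp (Equiv.inv kˣ) (fun c : kˣ => (c : k) ^ (m - 1))]
  refine Finset.sum_congr rfl fun c _ => ?_
  rw [Equiv.inv_apply]
  obtain ⟨r, rfl⟩ : ∃ r, m = r + 1 := ⟨m - 1, by omega⟩
  rw [Nat.add_sub_cancel, pow_succ, mul_assoc, Units.inv_mul, mul_one]

theorem exists_rho (l : ℕ) [Fact l.Prime] (k : Type) [Field k] [Fintype k] [DecidableEq k]
    [CharP k l] : ∃ ρ : k →+ ZMod l, IsRho l ρ := by
  have hl : l.Prime := Fact.out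
  let _ := ZMod.algebra k l
  have hNe : NeZero l := ⟨hl.ne_zero⟩
  refine ⟨(Algebra.trace (ZMod l) k).toAddMonoidHom, ⟨fun a => ?_⟩⟩
  set f := Module.finrank (ZMod l) k with hf
  have hcard : Fintype.card k = l ^ f := by
    have h := Module.card_eq_pow_finrank (K := ZMod l) (V := k)
    rwa [ZMod.card] at h
  have hf0 : 0 < f := Module.finrank_pos
  have h1 : ∀ b : k, (((Algebra.trace (ZMod l) k).toAddMonoidHom b).val : k) = ∑ i ∈ Finset.range f, b ^ (l ^ i) := by
    intro b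
    have h2 := FiniteField.algebraMap_trace_eq_sum_pow (ZMod l) k b
    rw [Nat.card_zmod] at h2
    rw [← h2]
    have h3 := ZMod.natCast_zmod_val (Algebra.trace (ZMod l) k b)
    conv_rhs => rw [← h3]
    rw [map_natCast]
    rfl
  simp only [h1, Finset.sum_mul]
  rw [Finset.sum_comm]
  have h2 : ∀ i ∈ Finset.range f, ∑ c : kˣ, (a * ((c⁻¹ : kˣ) : k)) ^ (l ^ i) * (c : k) =
      if i = 0 then -a else 0 := by
    intro i hi
    have h3 : ∑ c : kˣ, (a * ((c⁻¹ : kˣ) : k)) ^ (l ^ i) * (c : k) =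
        a ^ (l ^ i) * ∑ c : kˣ, ((c⁻¹ : kˣ) : k) ^ (l ^ i) * (c : k) := by
      rw [Finset.mul_sum]
      refine Finset.sum_congr rfl fun c _ => ?_
      rw [mul_pow]
      ring
    rw [h3, a1_inner _ (pow_pos hl.pos i)]
    by_cases h0 : i = 0
    · subst h0
      simp
    · rw [if_neg h0, if_neg, mul_zero]
      intro hd
      have hi' := Finset.mem_range.1 hi
      have h4 : l ^ i < l ^ f := Nat.pow_lt_pow_right hl.one_lt hi'
      have h5 : 1 < l ^ i := Nat.one_lt_pow h0 hl.one_lt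
      have h6 := Nat.le_of_dvd (by omega) hd
      rw [hcard] at h6
      omega
  rw [Finset.sum_congr rfl h2, Finset.sum_ite_eq' , if_pos (Finset.mem_range.2 hf0)]

end H55K.Ab
end

-- from Lib.H55K.A.E1
section

/-!
Chunk E1 (M). The level one component of eta_a(ξ) is not trivial.
PROOF. Notation: v = the order at w (valuation exp(-n)); x ≡ y means that x - y has order at least 2. Lifts: for b : k let b' ∈ 𝓞 F with r b' = b (Loc.surj). ξ = a0 (1 + c t + O(2)), c, a0 in F,
c of order 0 at w. σ ξ = a0 (1 + c σ t + O(2)) (σ w = w, so σ preserves the order: ord_smul) ≡ a0 (1 + c (χ σ)' t) up to the factor a0 (Loc.act). So, with n σ = cf χ ρ a σ and N = sum n σ: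
eta χ ρ a ξ = prod (σ ξ)^(n σ) = a0^N (1 + c t sum n σ (χ σ)' + O(2)) (products of elements 1 + O(1): (1+x)(1+y) ≡ 1 + x + y), and r(sum n σ (χ σ)') = chs χ (cf χ ρ a) = -a (chs_nn), so
with e ∈ 𝓞 F, r e = -a c ≠ 0: eta = a0^N (1 + e t + O(2)) (an element of 𝓞 F with r = 0 has order at least 2: Loc.ram).
l divides N: in ZMod l: N = sum_σ ρ(a χ(σ)⁻¹) = ρ(a sum_{c ∈ kˣ} c⁻¹) = ρ 0 = 0 (FiniteField.sum_pow_units or sum_units_eq_zero-type lemma; card k > 2). N = l N'.
Suppose Lev: eta = z^l (1 + O(2)). With y = z / a0^N': y^l = 1 + e t + O(2). Then y has order 0. There is y0 ∈ 𝓞 F with v(y - y0) ≥ 1 (y is a fraction of elements of 𝓞 L prime to w,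
H55R.exists_frac; reduce them by Loc.surj), y0 of order 0. y = y0 (1 + s), v(s) ≥ 1, and (1 + s)^l ≡ 1: the binomial terms are l s (..), order ≥ 2 because l ∈ 𝓞 F, r l = 0 (CharP k l, Loc.ram),
and s^l, order ≥ l ≥ 2 (use (1+s)^l = 1 + l s g + s^l with g integral at w: e.g. add_pow_prime / exists_add_pow_prime_eq). So y0^l ≡ 1 + e t. Hence v(y0^l - 1) ≥ 1, y0^l - 1 ∈ 𝓞 F, r(..) = 0 (Loc.ker), so
y0^l - 1 has order ≥ 2 (Loc.ram), so e t has order ≥ 2; but its order is 1 (r e ≠ 0, Loc.unif). Contradiction.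
-/

open NumberField IsDedekindDomain

namespace H55K.Ab

open H55R

variable {F : Type} [Field F] [NumberField F]

open scoped WithZero

/-- Products of elements congruent to 1 + e t. -/
theorem e1_mul {L : Type} [Field L] (v : Valuation L ℤᵐ⁰) {t x y e f : L}
    (ht : v t ≤ WithZero.exp (-1 : ℤ)) (he : v e ≤ 1) (hf : v f ≤ 1)
    (hx : v (x - 1 - e * t) ≤ WithZero.exp (-2 : ℤ)) (hy : v (y - 1 - f * t) ≤ WithZero.exp (-2 : ℤ)) :
    v (x * y - 1 - (e + f) * t) ≤ WithZero.exp (-2 : ℤ) := by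
  have h21 : WithZero.exp (-2 : ℤ) ≤ (1 : ℤᵐ⁰) := by
    rw [← WithZero.exp_zero, WithZero.exp_le_exp]
    norm_num
  have h11 : WithZero.exp (-1 : ℤ) ≤ (1 : ℤᵐ⁰) := by
    rw [← WithZero.exp_zero, WithZero.exp_le_exp]
    norm_num
  have ht1 : v t ≤ 1 := ht.trans h11
  have hy1 : v y ≤ 1 := by
    have e1 : y = (y - 1 - f * t) + (1 + f * t) := by ring
    rw [e1]
    refine v.map_add_le (hy.trans h21) (v.map_add_le (by rw [map_one]) ?_)
    rw [map_mul]
    exact mul_le_one' hf ht1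
  have e2 : x * y - 1 - (e + f) * t = (x - 1 - e * t) * y + (1 + e * t) * (y - 1 - f * t) +
      e * f * (t * t) := by ring
  rw [e2]
  refine v.map_add_le (v.map_add_le ?_ ?_) ?_
  · rw [map_mul]
    calc v (x - 1 - e * t) * v y ≤ WithZero.exp (-2 : ℤ) * 1 := mul_le_mul' hx hy1
      _ = _ := mul_one _
  · rw [map_mul]
    have h3 : v (1 + e * t) ≤ 1 := by
      refine v.map_add_le (by rw [map_one]) ?_
      rw [map_mul]
      exact mul_le_one' he ht1
    calc v (1 + e * t) * v (y - 1 - f * t) ≤ 1 * WithZero.exp (-2 : ℤ) := mul_le_mul' h3 hy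
      _ = _ := one_mul _
  · rw [map_mul, map_mul, map_mul]
    calc v e * v f * (v t * v t) ≤ 1 * (WithZero.exp (-1 : ℤ) * WithZero.exp (-1 : ℤ)) :=
          mul_le_mul' (mul_le_one' he hf) (mul_le_mul' ht ht)
      _ = WithZero.exp (-2 : ℤ) := by
          rw [one_mul, ← WithZero.exp_add]
          norm_num

theorem e1_pow {L : Type} [Field L] (v : Valuation L ℤᵐ⁰) {t x e : L}
    (ht : v t ≤ WithZero.exp (-1 : ℤ)) (he : v e ≤ 1)
    (hx : v (x - 1 - e * t) ≤ WithZero.exp (-2 : ℤ)) (n : ℕ) :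
    v (x ^ n - 1 - ((n : L) * e) * t) ≤ WithZero.exp (-2 : ℤ) ∧ v ((n : L) * e) ≤ 1 := by
  induction n with
  | zero =>
    have : x ^ 0 - 1 - (((0 : ℕ) : L) * e) * t = 0 := by
      rw [Nat.cast_zero]
      ring
    rw [this, map_zero]
    refine ⟨zero_le, ?_⟩
    rw [Nat.cast_zero, zero_mul, map_zero]
    exact zero_le
  | succ n ih =>
    obtain ⟨h1, h2⟩ := ih
    have h3 : (((n + 1 : ℕ) : L) * e) = (n : L) * e + e := by
      push_cast
      ring
    rw [h3, pow_succ]
    exact ⟨e1_mul v ht h2 he h1 hx, v.map_add_le h2 he⟩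

theorem e1_prod {L : Type} [Field L] (v : Valuation L ℤᵐ⁰) {ι : Type} [DecidableEq ι]
    (s : Finset ι) {t : L} (x e : ι → L) (n : ι → ℕ)
    (ht : v t ≤ WithZero.exp (-1 : ℤ)) (he : ∀ i ∈ s, v (e i) ≤ 1)
    (hx : ∀ i ∈ s, v (x i - 1 - e i * t) ≤ WithZero.exp (-2 : ℤ)) :
    v (∏ i ∈ s, x i ^ n i - 1 - (∑ i ∈ s, (n i : L) * e i) * t) ≤ WithZero.exp (-2 : ℤ) ∧
      v (∑ i ∈ s, (n i : L) * e i) ≤ 1 := by
  induction s using Finset.induction_on with
  | empty =>
    rw [Finset.prod_empty, Finset.sum_empty, sub_self, zero_mul, sub_zero, map_zero]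
    exact ⟨zero_le, zero_le⟩
  | insert i s hi ih =>
    obtain ⟨h1, h2⟩ := ih (fun j hj => he j (Finset.mem_insert_of_mem hj))
      (fun j hj => hx j (Finset.mem_insert_of_mem hj))
    obtain ⟨h3, h4⟩ := e1_pow v ht (he i (Finset.mem_insert_self i s)) (hx i (Finset.mem_insert_self i s)) (n i)
    rw [Finset.prod_insert hi, Finset.sum_insert hi]
    exact ⟨e1_mul v ht h4 h2 h3 h1, v.map_add_le h4 h2⟩

/-- The l-th power of y0 + s. -/
theorem e1_lpow {L : Type} [Field L] (v : Valuation L ℤᵐ⁰) {l : ℕ} (hl : l.Prime)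
    (hvl : v (l : L) ≤ WithZero.exp (-2 : ℤ)) {y s : L} (hy : v y ≤ 1)
    (hs : v s ≤ WithZero.exp (-1 : ℤ)) : v ((y + s) ^ l - y ^ l) ≤ WithZero.exp (-2 : ℤ) := by
  have h11 : WithZero.exp (-1 : ℤ) ≤ (1 : ℤᵐ⁰) := by
    rw [← WithZero.exp_zero, WithZero.exp_le_exp]
    norm_num
  have hs1 : v s ≤ 1 := hs.trans h11
  obtain ⟨r, hr⟩ := exists_add_pow_prime_eq hl (⟨y, hy⟩ : v.integer) (⟨s, hs1⟩ : v.integer)
  have hr2 := congrArg (Subtype.val) hr
  have hr3 : (y + s) ^ l = y ^ l + s ^ l + (l : L) * y * s * (r : L) := by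
    push_cast at hr2
    exact hr2
  have e1 : (y + s) ^ l - y ^ l = s ^ l + (l : L) * (y * s * (r : L)) := by
    rw [hr3]
    ring
  rw [e1]
  refine v.map_add_le ?_ ?_
  · rw [map_pow]
    calc v s ^ l ≤ v s ^ 2 := pow_le_pow_right_of_le_one' hs1 hl.two_le
      _ ≤ (WithZero.exp (-1 : ℤ)) ^ 2 := pow_le_pow_left₀ zero_le hs 2
      _ = WithZero.exp (-2 : ℤ) := by
        rw [sq, ← WithZero.exp_add]
        norm_num
  · rw [map_mul]
    have h3 : v (y * s * (r : L)) ≤ 1 := by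
      rw [map_mul, map_mul]
      exact mul_le_one' (mul_le_one' hy hs1) r.2
    calc v (l : L) * v (y * s * (r : L)) ≤ WithZero.exp (-2 : ℤ) * 1 := mul_le_mul' hvl h3
      _ = _ := mul_one _

theorem e1_lt {x : ℤᵐ⁰} (h : x < 1) : x ≤ WithZero.exp (-1 : ℤ) := by
  by_cases hx : x = 0
  · rw [hx]
    exact zero_le
  · rw [← WithZero.exp_log hx] at h ⊢
    rw [← WithZero.exp_zero, WithZero.exp_lt_exp] at h
    rw [WithZero.exp_le_exp]
    omega

variable {L : Type} [Field L] [NumberField L] [Algebra F L]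

theorem e1_gal {w : Pl L} {σ : Gal(L/F)} (h : smulP σ w = w) (x : L) :
    w.valuation L (σ x) = w.valuation L x := by
  by_cases hx : x = 0
  · rw [hx, map_zero]
  · have h1 := ord_smul σ w (Units.mk0 x hx)
    rw [h] at h1
    have h2 := BF1_val w (Units.map ((σ : L ≃ₐ[F] L) : L →* L) (Units.mk0 x hx))
    rw [h1, ← BF1_val w (Units.mk0 x hx)] at h2
    exact h2

theorem e1_val {k : Type} [Field k] {χ : Gal(L/F) →* kˣ} {w : Pl L} {t : Lˣ} {r : 𝓞 L →+* k}
    (hloc : Loc χ w t r) (y : 𝓞 F) :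
    w.valuation L (algebraMap F L (y : F)) ≤ 1 ∧
    (w.valuation L (algebraMap F L (y : F)) < 1 → r (algebraMap (𝓞 F) (𝓞 L) y) = 0) := by
  have e : algebraMap F L (y : F) = algebraMap (𝓞 L) L (algebraMap (𝓞 F) (𝓞 L) y) := by
    rfl
  rw [e]
  refine ⟨w.valuation_le_one _, fun h => ?_⟩
  rw [hloc.ker]
  exact (w.valuation_lt_one_iff_mem _).1 h

/-- The exponents sum to a multiple of l. -/
theorem e1_sum {l : ℕ} [Fact l.Prime] {G : Type} [Group G] [Fintype G]
    {k : Type} [Field k] [Fintype k] [DecidableEq k] (hq : 2 < Fintype.card k)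
    {χ : G →* kˣ} (hχ : Function.Bijective χ) (ρ : k →+ ZMod l) (a : k) :
    l ∣ ∑ σ : G, (ρ (a * ((χ σ)⁻¹ : kˣ))).val := by
  rw [← ZMod.natCast_eq_zero_iff, Nat.cast_sum]
  have h1 : ∀ σ : G, (((ρ (a * ((χ σ)⁻¹ : kˣ))).val : ℕ) : ZMod l) = ρ (a * ((χ σ)⁻¹ : kˣ)) :=
    fun σ => ZMod.natCast_zmod_val _
  simp only [h1]
  rw [← map_sum, ← Finset.mul_sum]
  have h2 : ∑ σ : G, (((χ σ)⁻¹ : kˣ) : k) = ∑ c : kˣ, ((c⁻¹ : kˣ) : k) :=
    Function.Bijective.sum_comp hχ (fun c : kˣ => ((c⁻¹ : kˣ) : k))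
  have h3 : ∑ c : kˣ, ((c⁻¹ : kˣ) : k) = ∑ c : kˣ, (c : k) :=
    Equiv.sum_comp (Equiv.inv kˣ) (fun c : kˣ => (c : k))
  have h4 : ∑ c : kˣ, (c : k) = 0 := by
    have h5 := FiniteField.sum_pow_units k 1
    have h6 : ¬ (Fintype.card k - 1 ∣ 1) := by
      intro h
      have := Nat.le_of_dvd one_pos h
      omega
    rw [if_neg h6] at h5
    simpa using h5
  rw [h2, h3, h4, mul_zero, map_zero]

theorem lev_eta {L : Type} [Field L] [NumberField L] [Algebra F L] {l : ℕ} [Fact l.Prime]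
    {k : Type} [Field k] [Fintype k] [DecidableEq k] [CharP k l] (hq : 2 < Fintype.card k)
    {χ : Gal(L/F) →* kˣ} (hχ : Function.Bijective χ) (ρ : k →+ ZMod l) (hρ : IsRho l ρ)
    {w : Pl L} {t : Lˣ} {r : 𝓞 L →+* k} (hloc : Loc χ w t r) (ξ : Lˣ) (a0 : F) (ha0 : a0 ≠ 0)
    (c : 𝓞 F) (hc : r (algebraMap (𝓞 F) (𝓞 L) c) ≠ 0)
    (hξ : w.valuation L ((ξ : L) / algebraMap F L a0 - 1 - algebraMap F L (c : F) * (t : L)) ≤
      WithZero.exp (-2 : ℤ)) (a : k) (ha : a ≠ 0) : ¬ Lev l w (eta χ ρ a ξ) := by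
  classical
  have hlp : l.Prime := Fact.out
  have h21 : WithZero.exp (-2 : ℤ) ≤ (1 : ℤᵐ⁰) := by
    rw [← WithZero.exp_zero, WithZero.exp_le_exp]
    norm_num
  have h2l : WithZero.exp (-2 : ℤ) < (1 : ℤᵐ⁰) := by
    rw [← WithZero.exp_zero, WithZero.exp_lt_exp]
    norm_num
  have h1l : WithZero.exp (-1 : ℤ) < (1 : ℤᵐ⁰) := by
    rw [← WithZero.exp_zero, WithZero.exp_lt_exp]
    norm_num
  have ht : w.valuation L (t : L) = WithZero.exp (-1 : ℤ) := by
    rw [BF1_val, hloc.unif]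
  have hA0 : algebraMap F L a0 ≠ 0 := by
    rw [Ne, map_eq_zero]
    exact ha0
  -- lifts of the values of χ
  choose X hX using fun σ : Gal(L/F) => hloc.surj (χ σ : k)
  -- the elements σ ξ / a0
  have hψ : ∀ σ : Gal(L/F), w.valuation L ((σ (ξ : L)) / algebraMap F L a0 - 1 -
      (algebraMap F L ((c * X σ : 𝓞 F) : F)) * (t : L)) ≤ WithZero.exp (-2 : ℤ) := by
    intro σ
    have h1 : w.valuation L (σ ((ξ : L) / algebraMap F L a0 - 1 - algebraMap F L (c : F) * (t : L))) ≤
        WithZero.exp (-2 : ℤ) := by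
      rw [e1_gal (hloc.inv σ)]
      exact hξ
    have h0 : σ ((ξ : L) / algebraMap F L a0 - 1 - algebraMap F L (c : F) * (t : L)) =
        σ (ξ : L) / algebraMap F L a0 - 1 - algebraMap F L (c : F) * σ (t : L) := by
      rw [map_sub, map_sub, map_div₀, map_mul, map_one, AlgEquiv.commutes, AlgEquiv.commutes]
    rw [h0] at h1
    have h2 := hloc.act σ (X σ) (hX σ)
    have e : (σ (ξ : L)) / algebraMap F L a0 - 1 -
        (algebraMap F L ((c * X σ : 𝓞 F) : F)) * (t : L) =
        ((σ (ξ : L)) / algebraMap F L a0 - 1 - algebraMap F L (c : F) * σ (t : L)) +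
        algebraMap F L (c : F) * (σ (t : L) - algebraMap F L (X σ : F) * (t : L)) := by
      have : ((c * X σ : 𝓞 F) : F) = (c : F) * (X σ : F) := rfl
      rw [this, map_mul]
      ring
    rw [e]
    refine Valuation.map_add_le _ h1 ?_
    rw [map_mul]
    calc _ ≤ 1 * WithZero.exp (-2 : ℤ) := mul_le_mul' (e1_val hloc c).1 h2
      _ = _ := one_mul _
  -- the product
  let n : Gal(L/F) → ℕ := fun σ => (ρ (a * ((χ σ)⁻¹ : kˣ))).val
  obtain ⟨hP, hE1⟩ := e1_prod (w.valuation L) Finset.univ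
    (fun σ : Gal(L/F) => (σ (ξ : L)) / algebraMap F L a0)
    (fun σ : Gal(L/F) => algebraMap F L ((c * X σ : 𝓞 F) : F)) n ht.le
    (fun σ _ => (e1_val hloc _).1) (fun σ _ => hψ σ)
  set Pr : L := ∏ σ : Gal(L/F), ((σ (ξ : L)) / algebraMap F L a0) ^ n σ with hPr
  obtain ⟨E, hE⟩ : ∃ E : 𝓞 F, E = ∑ σ : Gal(L/F), (n σ : 𝓞 F) * (c * X σ) := ⟨_, rfl⟩
  have hEmap : (∑ σ : Gal(L/F), (n σ : L) * algebraMap F L ((c * X σ : 𝓞 F) : F)) =
      algebraMap F L (E : F) := by
    have e1 : (E : F) = ∑ σ : Gal(L/F), (n σ : F) * ((c * X σ : 𝓞 F) : F) := by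
      rw [hE]
      have := map_sum (algebraMap (𝓞 F) F) (fun σ : Gal(L/F) => (n σ : 𝓞 F) * (c * X σ)) Finset.univ
      rw [show ((∑ σ : Gal(L/F), (n σ : 𝓞 F) * (c * X σ) : 𝓞 F) : F) =
        algebraMap (𝓞 F) F (∑ σ : Gal(L/F), (n σ : 𝓞 F) * (c * X σ)) from rfl, this]
      refine Finset.sum_congr rfl fun σ _ => ?_
      rw [map_mul, map_natCast]
    rw [e1, map_sum]
    refine Finset.sum_congr rfl fun σ _ => ?_
    rw [map_mul, map_natCast]
  rw [hEmap] at hP hE1
  -- the reduction of E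
  have hrE : r (algebraMap (𝓞 F) (𝓞 L) E) ≠ 0 := by
    have e1 : r (algebraMap (𝓞 F) (𝓞 L) E) = r (algebraMap (𝓞 F) (𝓞 L) c) * (-a) := by
      rw [← chs_nn χ ρ hχ hρ a, hE, map_sum, map_sum]
      unfold chs
      rw [Finset.mul_sum]
      refine Finset.sum_congr rfl fun σ _ => ?_
      have h9 : ((cf χ ρ a σ : ℤ) : k) = (n σ : k) := Int.cast_natCast _
      rw [map_mul, map_mul, map_mul, map_mul, map_natCast, map_natCast, hX, h9]
      ring
    rw [e1]
    exact mul_ne_zero hc (neg_ne_zero.2 ha)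
  have hvE : w.valuation L (algebraMap F L (E : F)) = 1 := by
    refine le_antisymm hE1 (not_lt.1 fun h => hrE ((e1_val hloc E).2 h))
  -- eta
  obtain ⟨N', hN'⟩ := e1_sum hq hχ ρ a
  have hN : ∑ σ : Gal(L/F), n σ = l * N' := hN'
  have heta : ((eta χ ρ a ξ : Lˣ) : L) = (algebraMap F L a0 ^ N') ^ l * Pr := by
    have e1 : ((eta χ ρ a ξ : Lˣ) : L) = ∏ σ : Gal(L/F), (σ (ξ : L)) ^ n σ := by
      unfold eta pw
      rw [Units.coe_prod]
      refine Finset.prod_congr rfl fun σ _ => ?_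
      have : cf χ ρ a σ = ((n σ : ℕ) : ℤ) := rfl
      rw [this, zpow_natCast, Units.val_pow_eq_pow_val, gu_apply]
    rw [e1, ← pow_mul, mul_comm N' l, ← hN, ← Finset.prod_pow_eq_pow_sum, hPr, ← Finset.prod_mul_distrib]
    refine Finset.prod_congr rfl fun σ _ => ?_
    rw [← mul_pow, mul_div_cancel₀ _ hA0]
  rintro ⟨z, hz⟩
  -- y = z / a0^N'
  obtain ⟨y, hy⟩ : ∃ y : L, y = (z : L) / algebraMap F L a0 ^ N' := ⟨_, rfl⟩
  have hz0 : (z : L) ≠ 0 := z.ne_zero
  have hA0N : algebraMap F L a0 ^ N' ≠ 0 := pow_ne_zero _ hA0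
  have hy0 : y ≠ 0 := by
    rw [hy]
    exact div_ne_zero hz0 hA0N
  have hyz : (((eta χ ρ a ξ) * (z ^ l)⁻¹ : Lˣ) : L) = Pr / y ^ l := by
    rw [Units.val_mul, Units.val_inv_eq_inv_val, Units.val_pow_eq_pow_val, heta, hy, div_pow]
    field_simp
  rw [hyz] at hz
  have htE : w.valuation L (algebraMap F L (E : F) * (t : L)) = WithZero.exp (-1 : ℤ) := by
    rw [map_mul, hvE, one_mul, ht]
  have hvP : w.valuation L Pr = 1 := by
    have e1 : Pr = 1 + ((Pr - 1 - algebraMap F L (E : F) * (t : L)) + algebraMap F L (E : F) * (t : L)) := by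
      ring
    rw [e1]
    apply Valuation.map_one_add_of_lt
    refine Valuation.map_add_lt _ (lt_of_le_of_lt hP h2l) ?_
    rw [htE]
    exact h1l
  have hvyl : w.valuation L (y ^ l) = 1 := by
    have e1 : w.valuation L (Pr / y ^ l) = 1 := by
      have e2 : Pr / y ^ l = 1 + (Pr / y ^ l - 1) := by ring
      rw [e2]
      exact Valuation.map_one_add_of_lt _ (lt_of_le_of_lt hz h2l)
    rw [map_div₀, hvP] at e1
    have h3 : w.valuation L (y ^ l) ≠ 0 := by
      rw [Ne, map_eq_zero]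
      exact pow_ne_zero _ hy0
    rw [div_eq_one_iff_eq h3] at e1
    exact e1.symm
  have hvy : w.valuation L y = 1 := by
    rw [map_pow] at hvyl
    exact (pow_eq_one_iff_of_nonneg zero_le hlp.ne_zero).1 hvyl
  have hPy : w.valuation L (Pr - y ^ l) ≤ WithZero.exp (-2 : ℤ) := by
    have e1 : Pr - y ^ l = (Pr / y ^ l - 1) * y ^ l := by
      field_simp
    rw [e1, map_mul, hvyl, mul_one]
    exact hz
  -- y0
  obtain ⟨p, q, hp, hq', hpq⟩ := exists_frac w (Units.mk0 y hy0) (by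
    have h3 := BF1_val w (Units.mk0 y hy0)
    rw [Units.val_mk0, hvy, ← WithZero.exp_zero] at h3
    have := WithZero.exp_injective h3
    omega)
  rw [Units.val_mk0] at hpq
  obtain ⟨y0, hy0'⟩ := hloc.surj (r p / r q)
  have hrq : r q ≠ 0 := fun h => hq' ((hloc.ker q).1 h)
  have hmem : p - q * algebraMap (𝓞 F) (𝓞 L) y0 ∈ w.asIdeal := by
    rw [← hloc.ker, map_sub, map_mul, hy0', mul_div_cancel₀ _ hrq, sub_self]
  have hvq : w.valuation L (q : L) = 1 := (HeightOneSpectrum.valuation_eq_one_iff_notMem (K := L) w).2 hq'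
  have hq0 : (q : L) ≠ 0 := by
    intro h
    rw [h, map_zero] at hvq
    exact zero_ne_one hvq
  have hs : w.valuation L (y - algebraMap F L (y0 : F)) ≤ WithZero.exp (-1 : ℤ) := by
    apply e1_lt
    have e1 : y - algebraMap F L (y0 : F) = ((p - q * algebraMap (𝓞 F) (𝓞 L) y0 : 𝓞 L) : L) / (q : L) := by
      rw [hpq, eq_div_iff hq0]
      have : ((p - q * algebraMap (𝓞 F) (𝓞 L) y0 : 𝓞 L) : L) = (p : L) - (q : L) * algebraMap F L (y0 : F) := rfl
      rw [this]
      field_simp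
    rw [e1, map_div₀, hvq, div_one]
    exact (w.valuation_lt_one_iff_mem _).2 hmem
  have hvl : w.valuation L ((l : ℕ) : L) ≤ WithZero.exp (-2 : ℤ) := by
    have h3 := hloc.ram ((l : ℕ) : 𝓞 F) (by rw [map_natCast, map_natCast, CharP.cast_eq_zero])
    have e1 : algebraMap F L (((l : ℕ) : 𝓞 F) : F) = ((l : ℕ) : L) := by
      have : (((l : ℕ) : 𝓞 F) : F) = ((l : ℕ) : F) := map_natCast (algebraMap (𝓞 F) F) l
      rw [this, map_natCast]
    rw [e1] at h3
    exact h3
  have hpow := e1_lpow (w.valuation L) hlp hvl (e1_val hloc y0).1 hs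
  have e3 : algebraMap F L (y0 : F) + (y - algebraMap F L (y0 : F)) = y := by ring
  rw [e3] at hpow
  have hfin : w.valuation L (algebraMap F L (y0 : F) ^ l - 1 - algebraMap F L (E : F) * (t : L)) ≤
      WithZero.exp (-2 : ℤ) := by
    have e4 : algebraMap F L (y0 : F) ^ l - 1 - algebraMap F L (E : F) * (t : L) =
        (Pr - 1 - algebraMap F L (E : F) * (t : L)) - (Pr - y ^ l) - (y ^ l - algebraMap F L (y0 : F) ^ l) := by
      ring
    rw [e4]
    exact Valuation.map_sub_le _ (Valuation.map_sub_le _ hP hPy) hpow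
  have e5 : algebraMap F L (y0 : F) ^ l - 1 = algebraMap F L ((y0 ^ l - 1 : 𝓞 F) : F) := by
    have : ((y0 ^ l - 1 : 𝓞 F) : F) = (y0 : F) ^ l - 1 := rfl
    rw [this, map_sub, map_pow, map_one]
  have hlt : w.valuation L (algebraMap F L ((y0 ^ l - 1 : 𝓞 F) : F)) < 1 := by
    rw [← e5]
    have e6 : algebraMap F L (y0 : F) ^ l - 1 = (algebraMap F L (y0 : F) ^ l - 1 -
        algebraMap F L (E : F) * (t : L)) + algebraMap F L (E : F) * (t : L) := by ring
    rw [e6]
    refine Valuation.map_add_lt _ (lt_of_le_of_lt hfin h2l) ?_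
    rw [htE]
    exact h1l
  have h7 := hloc.ram _ ((e1_val hloc _).2 hlt)
  rw [← e5] at h7
  have h8 : w.valuation L (algebraMap F L (E : F) * (t : L)) ≤ WithZero.exp (-2 : ℤ) := by
    have e7 : algebraMap F L (E : F) * (t : L) = (algebraMap F L (y0 : F) ^ l - 1) -
        (algebraMap F L (y0 : F) ^ l - 1 - algebraMap F L (E : F) * (t : L)) := by ring
    rw [e7]
    exact Valuation.map_sub_le _ h7 hfin
  rw [htE, WithZero.exp_le_exp] at h8
  norm_num at h8

end H55K.Ab
end

-- from Lib.H55K.A.T1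
section

/-!
Chunk T1 (S/M). Hilbert 90 and the divisor of the norm.
hilb: groupCohomology.exists_div_of_norm_eq_one (as in H55R.HA11), x = z / h z, b = z⁻¹.
ord_inv_gen: for W above v: ord (smulP h⁻¹ W) b = ord W (h b) (ord_smul) = ord W al + ord W b = ord W b, the prime smulP h⁻¹ W is again above v (under_smulP), so by induction
ord (smulP g W) b = ord W b for all g (zpowers; for negative powers use finiteness of the order or the equation backwards).
ord_nrm: ord_norm with T = the (finite, above_finite) set of primes above v, all ord W' b equal (smulP_trans), card_above: card T * (es * fs) = finrank = card Gal. So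
es * ord v (nrm b) = es * fs * card T * ord W b = card Gal * ord W b.
-/

open NumberField IsDedekindDomain

namespace H55K.Ab

open H55R

variable {F : Type} [Field F] [NumberField F]

variable {L B : Type} [Field L] [NumberField L] [Field B] [NumberField B] [Algebra L B]

theorem hilb [IsGalois L B] (h : Gal(B/L)) (hh : ∀ g : Gal(B/L), g ∈ Subgroup.zpowers h) (al : Bˣ)
    (hal : Algebra.norm L (al : B) = 1) :
    ∃ b : Bˣ, Units.map ((h : B ≃ₐ[L] B) : B →* B) b = al * b := by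
  have : FiniteDimensional L B := Module.Finite.of_restrictScalars_finite ℚ L B
  have hcy : IsCyclic Gal(B/L) := ⟨h, hh⟩
  obtain ⟨z, hz⟩ := groupCohomology.exists_div_of_norm_eq_one hh hal
  refine ⟨z⁻¹, ?_⟩
  apply Units.ext
  have hz0 : (z : B) ≠ 0 := z.ne_zero
  have hz1 : h (z : B) ≠ 0 := (map_ne_zero h).2 hz0
  rw [map_inv, Units.val_mul, Units.val_inv_eq_inv_val, Units.val_inv_eq_inv_val, Units.coe_map]
  change (h (z : B))⁻¹ = (al : B) * (z : B)⁻¹
  rw [← hz]
  field_simp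

theorem t1_ord (h : Gal(B/L)) (al b : Bˣ) (hb : Units.map ((h : B ≃ₐ[L] B) : B →* B) b = al * b)
    (v : Pl L) (hv : ∀ W : Pl B, W.under (𝓞 L) = v → ord W al = 0) (W : Pl B)
    (hW : W.under (𝓞 L) = v) : ord (smulP h⁻¹ W) b = ord W b := by
  have h1 := ord_smul h (smulP h⁻¹ W) b
  rw [← smulP_mul, mul_inv_cancel, smulP_one, hb, ord_mul, hv W hW, zero_add] at h1
  exact h1.symm

/-- The elements of the Galois group which preserve the orders of `b` above `v`. -/
def t1_sub (b : Bˣ) (v : Pl L) : Subgroup Gal(B/L) where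
  carrier := {g | ∀ W : Pl B, W.under (𝓞 L) = v → ord (smulP g W) b = ord W b}
  one_mem' := fun W _ => by rw [smulP_one]
  mul_mem' := by
    intro g g' hg hg' W hW
    rw [smulP_mul, hg _ ((under_smulP g' W).trans hW), hg' W hW]
  inv_mem' := by
    intro g hg W hW
    have h1 := hg (smulP g⁻¹ W) ((under_smulP g⁻¹ W).trans hW)
    rw [← smulP_mul, mul_inv_cancel, smulP_one] at h1
    exact h1.symm

theorem ord_inv_gen [IsGalois L B] (h : Gal(B/L)) (hh : ∀ g : Gal(B/L), g ∈ Subgroup.zpowers h)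
    (al b : Bˣ) (hb : Units.map ((h : B ≃ₐ[L] B) : B →* B) b = al * b) (v : Pl L)
    (hv : ∀ W : Pl B, W.under (𝓞 L) = v → ord W al = 0) (W W' : Pl B) (hW : W.under (𝓞 L) = v)
    (hW' : W'.under (𝓞 L) = v) : ord W b = ord W' b := by
  have h1 : h⁻¹ ∈ t1_sub b v := fun W₁ hW₁ => t1_ord h al b hb v hv W₁ hW₁
  have h2 : h ∈ t1_sub b v := by
    have := (t1_sub b v).inv_mem h1
    rwa [inv_inv] at this
  obtain ⟨σ, hσ⟩ := smulP_trans (K := L) (L := B) W W' (hW.trans hW'.symm)
  have h3 : σ ∈ t1_sub b v := (Subgroup.zpowers_le.2 h2) (hh σ)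
  rw [← hσ]
  exact (h3 W hW).symm

theorem ord_nrm [IsGalois L B] (h : Gal(B/L)) (hh : ∀ g : Gal(B/L), g ∈ Subgroup.zpowers h)
    (al b : Bˣ) (hb : Units.map ((h : B ≃ₐ[L] B) : B →* B) b = al * b) (v : Pl L)
    (hv : ∀ W : Pl B, W.under (𝓞 L) = v → ord W al = 0) (W : Pl B) (hW : W.under (𝓞 L) = v) :
    (es L B v : ℤ) * ord v (nrm L B b) = Nat.card Gal(B/L) * ord W b := by
  have hT : ∀ W', W' ∈ (above_finite (L := B) v).toFinset ↔ W'.under (𝓞 L) = v := fun W' => by
    rw [Set.Finite.mem_toFinset]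
    rfl
  have h1 := ord_norm v _ hT b
  have h2 := card_above v _ hT
  have h3 : ∑ W' ∈ (above_finite (L := B) v).toFinset, ord W' b =
      (above_finite (L := B) v).toFinset.card * ord W b := by
    rw [Finset.sum_congr rfl fun W' hW' => ord_inv_gen h hh al b hb v hv W' W ((hT W').1 hW') hW,
      Finset.sum_const, nsmul_eq_mul]
  rw [IsGalois.card_aut_eq_finrank, ← h2, h1, h3]
  push_cast
  ring

end H55K.Ab
end

-- from Lib.H55K.A.T2
section

/-!
Chunk T2 (M). Tame residues. v a prime of L, totally ramified in B (es L B v = card Gal(B/L), so fs = 1 and there is one prime W above v).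
PROOF. card_above: card T * (es * fs) = finrank = card Gal = es, so fs L B v = 1. h acts trivially on the residue field: every x ∈ 𝓞 B is congruent modulo W to an element x0 of 𝓞 L (residue
degree 1: Ideal.inertiaDeg = finrank of the residue extension = 1, the algebra map 𝓞 L / v → 𝓞 B / W is surjective), h x = x0 modulo smulP h W = W (W is the only prime above v), so
W.valuation (h x - x) < 1; for u = x/y of order 0 at W with x, y ∈ 𝓞 B prime to W (exists_frac): W.valuation (h u / u - 1) < 1.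
Let j = ord W b, u = b / t^j (ord 0). al = h b / b = (h t / t)^j * (h u / u). From tame: W.valuation (h t / t - κ) ≤ exp(-1) < 1 (W.valuation t = exp(-1), BF1_val), W.valuation (h t / t) = 1
(ord_smul, h W = W), so W.valuation κ = 1 and (h t / t)^j / κ^j is congruent to 1. So al / κ^j is congruent to 1, and with congr: W.valuation (ξ - κ^j) < 1 in B. The element
ξ - κ^j lies in L: by ord_map (or valuation_liesOver) its valuation at v is < 1. Also ord v κ = 0.
-/

open NumberField IsDedekindDomain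

namespace H55K.Ab

open H55R

variable {F : Type} [Field F] [NumberField F]

section T2

/-- A principal unit has value one. -/
theorem T2_val {K Γ : Type*} [Field K] [LinearOrderedCommGroupWithZero Γ] (v : Valuation K Γ) {x : K}
    (h : v (x - 1) < 1) : v x = 1 := by
  have h1 := v.map_one_add_of_lt h
  rwa [add_sub_cancel] at h1

/-- The principal units of a valuation. -/
def T2_U {K Γ : Type*} [Field K] [LinearOrderedCommGroupWithZero Γ] (v : Valuation K Γ) : Subgroup Kˣ where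
  carrier := {x | v ((x : K) - 1) < 1}
  mul_mem' := by
    intro a b ha hb
    show v (((a * b : Kˣ) : K) - 1) < 1
    have e : ((a * b : Kˣ) : K) - 1 = (a : K) * ((b : K) - 1) + ((a : K) - 1) := by
      rw [Units.val_mul]
      ring
    rw [e]
    refine v.map_add_lt ?_ ha
    rw [map_mul, T2_val v ha, one_mul]
    exact hb
  one_mem' := by
    show v (((1 : Kˣ) : K) - 1) < 1
    rw [Units.val_one, sub_self, map_zero]
    exact zero_lt_one
  inv_mem' := by
    intro a ha
    show v (((a⁻¹ : Kˣ) : K) - 1) < 1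
    have e : ((a⁻¹ : Kˣ) : K) - 1 = -(((a : K)⁻¹) * ((a : K) - 1)) := by
      rw [Units.val_inv_eq_inv_val]
      have := a.ne_zero
      field_simp
      ring
    rw [e, Valuation.map_neg, map_mul, map_inv₀, T2_val v ha, inv_one, one_mul]
    exact ha

theorem T2_mem {K Γ : Type*} [Field K] [LinearOrderedCommGroupWithZero Γ] (v : Valuation K Γ) (x : Kˣ) :
    x ∈ T2_U v ↔ v ((x : K) - 1) < 1 := Iff.rfl

/-- The quotient is a principal unit if the difference is small. -/
theorem T2_div {K Γ : Type*} [Field K] [LinearOrderedCommGroupWithZero Γ] (v : Valuation K Γ) (x y : Kˣ)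
    (h : v ((x : K) - y) < v (y : K)) : x / y ∈ T2_U v := by
  rw [T2_mem]
  have hy : v (y : K) ≠ 0 := (v.ne_zero_iff).2 y.ne_zero
  have e : ((x / y : Kˣ) : K) - 1 = ((x : K) - y) / y := by
    rw [Units.val_div_eq_div_val, sub_div, div_self y.ne_zero]
  rw [e, map_div₀]
  exact (div_lt_one₀ (zero_lt_iff.2 hy)).2 h

theorem T2_div' {K Γ : Type*} [Field K] [LinearOrderedCommGroupWithZero Γ] (v : Valuation K Γ) (x y : Kˣ)
    (hy : v (y : K) = 1) (h : x / y ∈ T2_U v) : v ((x : K) - y) < 1 := by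
  rw [T2_mem] at h
  have e : (x : K) - y = (y : K) * (((x / y : Kˣ) : K) - 1) := by
    rw [Units.val_div_eq_div_val]
    have := y.ne_zero
    field_simp
  rw [e, map_mul, hy, one_mul]
  exact h

theorem T2_add {A : Type*} [AddCommGroup A] (a b x y z : A) :
    a - z = (a + b + -y - (b + -x)) + (y - (z + x)) := by
  abel

theorem T2_grp {A : Type*} [CommGroup A] (a b x y z : A) :
    a / z = (a * b * y⁻¹ / (b * x⁻¹)) * (y / (z * x)) :=
  T2_add (A := Additive A) (Additive.ofMul a) (Additive.ofMul b) (Additive.ofMul x) (Additive.ofMul y)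
    (Additive.ofMul z)

variable {L B : Type} [Field L] [NumberField L] [Field B] [NumberField B] [Algebra L B] [IsGalois L B]

/-- The Galois group is the inertia group of a totally ramified prime. -/
theorem T2_inertia (v : Pl L) (W : Pl B) (hW : W.under (𝓞 L) = v)
    (hr : es L B v = Nat.card Gal(B/L)) (h : Gal(B/L)) (x : 𝓞 B) : h • x - x ∈ W.asIdeal := by
  have hvm := v.isMaximal
  have hp := v.isPrime
  have hWp := W.isPrime
  have hl : W.asIdeal.LiesOver v.asIdeal := (BF2_mem v W hW).2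
  have h1 := Ideal.card_inertia_eq_ramificationIdxIn (G := Gal(B/L)) v.asIdeal W.asIdeal
  have h2 : Nat.card (W.asIdeal.inertia Gal(B/L)) = Nat.card Gal(B/L) := h1.trans hr
  have h3 : W.asIdeal.inertia Gal(B/L) = ⊤ := Subgroup.eq_top_of_card_eq _ h2
  have h4 : h ∈ W.asIdeal.inertia Gal(B/L) := by rw [h3]; exact Subgroup.mem_top h
  exact h4 x

open scoped Pointwise in
theorem T2_fix (v : Pl L) (W : Pl B) (hW : W.under (𝓞 L) = v)
    (hr : es L B v = Nat.card Gal(B/L)) (h : Gal(B/L)) : smulP h W = W := by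
  apply HeightOneSpectrum.ext
  have h1 : ∀ (g : Gal(B/L)) (x : 𝓞 B), x ∈ W.asIdeal → g • x ∈ W.asIdeal := by
    intro g x hx
    have := add_mem (T2_inertia v W hW hr g x) hx
    rwa [sub_add_cancel] at this
  show h • W.asIdeal = W.asIdeal
  ext x
  rw [Ideal.mem_pointwise_smul_iff_inv_smul_mem]
  refine ⟨fun h2 => ?_, fun h2 => h1 _ _ h2⟩
  have := h1 h _ h2
  rwa [smul_inv_smul] at this

theorem T2_ord (v : Pl L) (W : Pl B) (hW : W.under (𝓞 L) = v)
    (hr : es L B v = Nat.card Gal(B/L)) (h : Gal(B/L)) (y : Bˣ) :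
    ord W (Units.map ((h : B ≃ₐ[L] B) : B →* B) y) = ord W y := by
  have := ord_smul h W y
  rwa [T2_fix v W hW hr h] at this

/-- The Galois group acts trivially on the residue field. -/
theorem T2_res (v : Pl L) (W : Pl B) (hW : W.under (𝓞 L) = v)
    (hr : es L B v = Nat.card Gal(B/L)) (h : Gal(B/L)) (u : Bˣ) (hu : ord W u = 0) :
    Units.map ((h : B ≃ₐ[L] B) : B →* B) u / u ∈ T2_U (W.valuation B) := by
  apply T2_div
  rw [(HB1_ord_zero W u).1 hu]
  obtain ⟨x, y, hx, hy, hxy⟩ := exists_frac W u hu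
  have hint : ∀ a : 𝓞 B, a ∈ W.asIdeal → W.valuation B (algebraMap (𝓞 B) B a) < 1 := fun a ha =>
    (HeightOneSpectrum.valuation_lt_one_iff_mem (K := B) W a).2 ha
  have hy1 : W.valuation B (algebraMap (𝓞 B) B y) = 1 :=
    (HeightOneSpectrum.valuation_eq_one_iff_notMem (K := B) W).2 hy
  have hx1 : W.valuation B (algebraMap (𝓞 B) B x) ≤ 1 := W.valuation_le_one x
  have hhy : h • y ∉ W.asIdeal := by
    intro h1
    apply hy
    have := sub_mem h1 (T2_inertia v W hW hr h y)
    rwa [sub_sub_cancel] at this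
  have hhy1 : W.valuation B (algebraMap (𝓞 B) B (h • y)) = 1 :=
    (HeightOneSpectrum.valuation_eq_one_iff_notMem (K := B) W).2 hhy
  have hy0 : (algebraMap (𝓞 B) B y) ≠ 0 := by
    intro h0
    rw [h0, map_zero] at hy1
    exact zero_ne_one hy1
  have hhy0 : (algebraMap (𝓞 B) B (h • y)) ≠ 0 := by
    intro h0
    rw [h0, map_zero] at hhy1
    exact zero_ne_one hhy1
  have e1 : ((Units.map ((h : B ≃ₐ[L] B) : B →* B) u : Bˣ) : B) =
      algebraMap (𝓞 B) B (h • x) / algebraMap (𝓞 B) B (h • y) := by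
    show h (u : B) = _
    rw [hxy, map_div₀]
    rfl
  have e2 : (u : B) = algebraMap (𝓞 B) B x / algebraMap (𝓞 B) B y := hxy
  have e3 : ((Units.map ((h : B ≃ₐ[L] B) : B →* B) u : Bˣ) : B) - (u : B) =
      (algebraMap (𝓞 B) B (h • x - x) * algebraMap (𝓞 B) B y -
        algebraMap (𝓞 B) B x * algebraMap (𝓞 B) B (h • y - y)) /
        (algebraMap (𝓞 B) B (h • y) * algebraMap (𝓞 B) B y) := by
    rw [e1, e2, map_sub, map_sub]
    field_simp
    ring
  rw [e3, map_div₀, map_mul, hhy1, hy1, one_mul, div_one]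
  refine (W.valuation B).map_sub_lt ?_ ?_
  · rw [map_mul, hy1, mul_one]
    exact hint _ (T2_inertia v W hW hr h x)
  · rw [map_mul]
    exact (mul_le_of_le_one_left' hx1).trans_lt (hint _ (T2_inertia v W hW hr h y))

end T2

theorem tame_res {L B : Type} [Field L] [NumberField L] [Field B] [NumberField B] [Algebra L B]
    [IsGalois L B] (v : Pl L) (W : Pl B) (hW : W.under (𝓞 L) = v)
    (hr : es L B v = Nat.card Gal(B/L)) (h : Gal(B/L)) (al b t : Bˣ)
    (hb : Units.map ((h : B ≃ₐ[L] B) : B →* B) b = al * b) (ht : ord W t = 1) (κ : ℤ)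
    (hκ : W.valuation B (h (t : B) - κ * (t : B)) ≤ WithZero.exp (-2 : ℤ)) (ξ : Lˣ)
    (hξ : W.valuation B ((al : B) - algebraMap L B (ξ : L)) < 1) :
    v.valuation L (κ : L) = 1 ∧ v.valuation L ((ξ : L) - (κ : L) ^ ord W b) < 1 := by
  set σ : Bˣ →* Bˣ := Units.map ((h : B ≃ₐ[L] B) : B →* B) with hσ
  have hvt : W.valuation B (t : B) = WithZero.exp (-1 : ℤ) := by rw [BF1_val, ht]
  have hvst : W.valuation B ((σ t : Bˣ) : B) = WithZero.exp (-1 : ℤ) := by
    rw [BF1_val, T2_ord v W hW hr h t, ht]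
  have h12 : (WithZero.exp (-2 : ℤ)) < WithZero.exp (-1 : ℤ) := by
    rw [WithZero.exp_lt_exp]
    norm_num
  -- the integer is a unit
  have hvκt : W.valuation B ((κ : B) * (t : B)) = WithZero.exp (-1 : ℤ) := by
    have e : (κ : B) * (t : B) = ((σ t : Bˣ) : B) - (h (t : B) - κ * (t : B)) := by
      show _ = h (t : B) - _
      ring
    rw [e, Valuation.map_sub_eq_of_lt_left, hvst]
    rw [hvst]
    exact lt_of_le_of_lt hκ h12
  have hvκ : W.valuation B (κ : B) = 1 := by
    rw [map_mul, hvt] at hvκt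
    have h3 : (WithZero.exp (-1 : ℤ)) ≠ (0 : WithZero (Multiplicative ℤ)) := WithZero.exp_ne_zero
    exact mul_right_cancel₀ h3 (hvκt.trans (one_mul _).symm)
  have hκB : (κ : B) ≠ 0 := by
    intro h0
    rw [h0, map_zero] at hvκ
    exact zero_ne_one hvκ
  have hκ0 : κ ≠ 0 := by
    rintro rfl
    exact hκB Int.cast_zero
  have hκL : (κ : L) ≠ 0 := Int.cast_ne_zero.2 hκ0
  let kB : Bˣ := Units.mk0 _ hκB
  let kL : Lˣ := Units.mk0 _ hκL
  have hkm : Units.map (algebraMap L B : L →* B) kL = kB := by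
    ext
    show algebraMap L B (κ : L) = (κ : B)
    exact map_intCast _ _
  have hvL : v.valuation L (κ : L) = 1 := by
    have h4 : ord W kB = 0 := (HB1_ord_zero W kB).2 hvκ
    rw [← hkm, ord_map W v hW kL] at h4
    have h5 : (es L B v : ℤ) ≠ 0 := by
      have := es_pos (L := B) v
      exact_mod_cast this.ne'
    exact (HB1_ord_zero v kL).1 ((mul_eq_zero.1 h4).resolve_left h5)
  refine ⟨hvL, ?_⟩
  -- the congruences
  set U := T2_U (W.valuation B) with hU
  have c1 : σ t / (kB * t) ∈ U := by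
    apply T2_div
    have e : ((kB * t : Bˣ) : B) = (κ : B) * (t : B) := rfl
    rw [e, hvκt]
    exact lt_of_le_of_lt hκ h12
  have hu : ord W (b * (t ^ ord W b)⁻¹) = 0 := by
    rw [ord_mul, ord_inv, ord_zpow, ht]
    ring
  have c2 := T2_res v W hW hr h (b * (t ^ ord W b)⁻¹) hu
  rw [← hσ, ← hU, map_mul, map_inv, map_zpow, hb] at c2
  have c3 : al / kB ^ ord W b ∈ U := by
    have e : al / kB ^ ord W b = (al * b * (σ t ^ ord W b)⁻¹ / (b * (t ^ ord W b)⁻¹)) *
        (σ t / (kB * t)) ^ ord W b := by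
      rw [div_zpow, mul_zpow]
      exact T2_grp _ _ _ _ _
    rw [e]
    exact mul_mem c2 (zpow_mem c1 _)
  have hv1 : W.valuation B ((kB ^ ord W b : Bˣ) : B) = 1 := by
    rw [Units.val_zpow_eq_zpow_val, map_zpow₀]
    show (W.valuation B (κ : B)) ^ _ = 1
    rw [hvκ, one_zpow]
  have c4 := T2_div' _ _ _ hv1 c3
  have c5 : W.valuation B (algebraMap L B ((ξ : L) - (κ : L) ^ ord W b)) < 1 := by
    have e : algebraMap L B ((ξ : L) - (κ : L) ^ ord W b) =
        ((al : B) - ((kB ^ ord W b : Bˣ) : B)) - ((al : B) - algebraMap L B (ξ : L)) := by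
      rw [map_sub, map_zpow₀, map_intCast, Units.val_zpow_eq_zpow_val]
      show _ - (κ : B) ^ _ = ((al : B) - (κ : B) ^ _) - _
      ring
    rw [e]
    exact (W.valuation B).map_sub_lt c4 hξ
  have hp := v.isPrime
  have hWp := W.isPrime
  have hl : W.asIdeal.LiesOver v.asIdeal := (BF2_mem v W hW).2
  have h6 := HeightOneSpectrum.valuation_liesOver B v W ((ξ : L) - (κ : L) ^ ord W b)
  rw [← h6] at c5
  by_contra hc
  push Not at hc
  exact absurd c5 (not_lt.2 (one_le_pow₀ hc))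

end H55K.Ab
end

-- from Lib.H55K.A.T3
section

/-!
Chunk T3 (M). The relation of Thaine and Kolyvagin.
theta_three: for v above 3 with σ v = v, σ ≠ 1: θ v = θ (σ v) = χ σ θ v and χ σ ≠ 1 (χ injective), so θ v = 0.
PROOF of thaine. h a generator of Gal(B/L) (Aux.cyc), b from hilb, c = nrm L B b ∈ Lˣ. For v not above 3 and not conjugate to Q: by ord_nrm (Aux.unit: the primes above v are not above 3) and
Aux.unr, ord v c = (N Q - 1) ord W b, divisible by l, so (ord v c : k) = 0. For v = σ Q: not above 3 (hQ3 and Galois), Aux.ram: ord v c = ord W b =: j σ, W the prime above.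
IsTh.princ for c: the sum over v; terms outside the conjugates of Q vanish (theta_three above 3), the conjugates σ Q are distinct (hinj), so sum_σ (j σ : k) χ σ θ Q = 0, hence
(*) sum_σ (j σ : k) χ σ = 0 if θ Q ≠ 0. By tame_res with κ = κ h: (σ Q).valuation (ξ - κ^(j σ)) < 1 and (σ Q).valuation κ = 1. Apply σ⁻¹ (valuation at σ⁻¹ σ Q = Q of σ⁻¹ x = valuation at σ Q
of x: ord_smul / BF1_val, treat 0 separately): Q.valuation (gu σ⁻¹ ξ - κ^(j σ)) < 1, so gu σ⁻¹ ξ / κ^(j σ) is congruent to 1 modulo Q (Q.valuation κ = 1).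
eta χ ρ a ξ = prod_σ (gu σ ξ)^(cf χ ρ a σ) is congruent to κ^E, E = sum_σ cf χ ρ a σ * j σ⁻¹ (multiplicative congruence). In ZMod l: E = sum_σ ρ(a χ(σ)⁻¹) j σ⁻¹ = ρ(a sum_σ (j σ) χ σ) = 0 by (*)
(ρ additive: ρ(n • x) = n • ρ x). So E = l s and eta χ ρ a ξ is congruent to (κ^s)^l: PowMod with z = κ^s (κ ≠ 0 because its valuation is 1).
-/

open NumberField IsDedekindDomain

namespace H55K.Ab

open H55R

variable {F : Type} [Field F] [NumberField F]

section T3

theorem T3_zpow {ι A : Type*} [CommGroup A] (s : Finset ι) (f : ι → ℤ) (x : A) :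
    ∏ i ∈ s, x ^ f i = x ^ ∑ i ∈ s, f i := by
  classical
  induction s using Finset.induction_on with
  | empty => simp
  | insert i s hi ih => rw [Finset.prod_insert hi, Finset.sum_insert hi, ih, zpow_add]

variable {L : Type} [Field L] [NumberField L] [Algebra F L]

theorem T3_val (σ : Gal(L/F)) (Q : Pl L) (x : L) :
    Q.valuation L (σ⁻¹ x) = (smulP σ Q).valuation L x := by
  by_cases hx : x = 0
  · rw [hx, map_zero, map_zero, map_zero]
  · let u : Lˣ := Units.mk0 x hx
    have h1 := ord_smul σ⁻¹ (smulP σ Q) u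
    rw [← smulP_mul, inv_mul_cancel, smulP_one] at h1
    have h2 := BF1_val Q (Units.map ((σ⁻¹ : L ≃ₐ[F] L) : L →* L) u)
    rw [h1, ← BF1_val (smulP σ Q) u] at h2
    exact h2

/-- The exponents and the congruences. -/
theorem T3_aux [IsGalois F L] (Q : Pl L) (ξ : Lˣ) {B : Type} [Field B]
    [NumberField B] [Algebra L B] {κ : Gal(B/L) → ℤ} {t al : Bˣ} (haux : Aux F L Q ξ B κ t al) :
    ∃ (c : Lˣ) (j : Gal(L/F) → ℤ) (kL : Lˣ),
      (∀ v : Pl L, (∀ σ : Gal(L/F), v ≠ smulP σ Q) →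
        ((Ideal.absNorm Q.asIdeal - 1 : ℕ) : ℤ) ∣ ord v c) ∧
      (∀ σ : Gal(L/F), ord (smulP σ Q) c = j σ) ∧
      (∀ σ : Gal(L/F), gu σ⁻¹ ξ / kL ^ j σ ∈ T2_U (Q.valuation L)) := by
  have hgal := haux.gal
  have hcyc := haux.cyc
  obtain ⟨h, hh⟩ := IsCyclic.exists_generator (α := Gal(B/L))
  obtain ⟨b, hb⟩ := hilb h hh al haux.norm
  have hcard : (0 : ℤ) < (Nat.card Gal(B/L) : ℤ) := by exact_mod_cast Nat.card_pos
  choose W hW using fun σ : Gal(L/F) => under_exists (L := B) (smulP σ Q)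
  have hr : ∀ σ : Gal(L/F), es L B (smulP σ Q) = Nat.card Gal(B/L) := fun σ => by
    rw [haux.ram σ, haux.card]
  have key := fun σ : Gal(L/F) => tame_res (smulP σ Q) (W σ) (hW σ) (hr σ) h al b t hb
    (haux.unif σ (W σ) (hW σ)) (κ h) (haux.tame σ (W σ) (hW σ) h) ξ (haux.congr σ (W σ) (hW σ))
  have hκ0 : (κ h : L) ≠ 0 := by
    intro h0
    have := (key 1).1
    rw [h0, map_zero] at this
    exact zero_ne_one this
  refine ⟨nrm L B b, fun σ => ord (W σ) b, Units.mk0 _ hκ0, ?_, ?_, ?_⟩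
  · intro v hvc
    obtain ⟨W', hW'⟩ := under_exists (L := B) v
    have h1 := ord_nrm h hh al b hb v (fun W _ => haux.unit W) W' hW'
    rw [haux.unr v hvc, Nat.cast_one, one_mul, haux.card] at h1
    exact ⟨_, h1⟩
  · intro σ
    have h1 := ord_nrm h hh al b hb (smulP σ Q) (fun W _ => haux.unit W) (W σ) (hW σ)
    rw [hr σ] at h1
    exact mul_left_cancel₀ hcard.ne' h1
  · intro σ
    obtain ⟨h1, h2⟩ := key σ
    rw [← T3_val] at h1 h2
    rw [map_intCast] at h1
    have hv1 : Q.valuation L (((Units.mk0 _ hκ0 : Lˣ) ^ ord (W σ) b : Lˣ) : L) = 1 := by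
      rw [Units.val_zpow_eq_zpow_val, map_zpow₀, Units.val_mk0, h1, one_zpow]
    apply T2_div
    rw [hv1]
    have e : ((gu σ⁻¹ ξ : Lˣ) : L) - (((Units.mk0 _ hκ0 : Lˣ) ^ ord (W σ) b : Lˣ) : L) =
        σ⁻¹ ((ξ : L) - (κ h : L) ^ ord (W σ) b) := by
      rw [gu_apply, Units.val_zpow_eq_zpow_val, Units.val_mk0, map_sub, map_zpow₀, map_intCast]
    rw [e]
    exact h2

end T3

theorem thaine {L : Type} [Field L] [NumberField L] [Algebra F L] [IsGalois F L] {l : ℕ}
    [Fact l.Prime] {k : Type} [Field k] [CharP k l] {χ : Gal(L/F) →* kˣ}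
    (hχ : Function.Bijective χ) (ρ : k →+ ZMod l)
    (Q : Pl L) (hl : l ∣ Ideal.absNorm Q.asIdeal - 1)
    (hinj : Function.Injective fun σ : Gal(L/F) => smulP σ Q) (ξ : Lˣ) {B : Type} [Field B]
    [NumberField B] [Algebra L B] {κ : Gal(B/L) → ℤ} {t al : Bˣ} (haux : Aux F L Q ξ B κ t al)
    {θ : Pl L → k} (hθ : IsTh χ θ) (hQ : θ Q ≠ 0) (a : k) : PowMod l Q (eta χ ρ a ξ) := by
  classical
  obtain ⟨c, j, kL, hc1, hc2, hc3⟩ := T3_aux Q ξ haux
  -- the sum of the class group relation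
  have hsum : ∑ σ : Gal(L/F), (j σ : k) * (χ σ : k) = 0 := by
    have h1 := hθ.princ c
    have h2 : (Function.support fun v : Pl L => (ord v c : k) * θ v) ⊆
        ((Finset.univ.map ⟨fun σ : Gal(L/F) => smulP σ Q, hinj⟩ : Finset (Pl L)) : Set (Pl L)) := by
      intro v hv
      rw [Finset.coe_map, Finset.coe_univ, Set.image_univ]
      by_contra hcon
      apply hv
      have h4 := hc1 v fun σ h => hcon ⟨σ, h.symm⟩
      have h5 : (l : ℤ) ∣ ord v c := (Int.natCast_dvd_natCast.2 hl).trans h4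
      show (ord v c : k) * θ v = 0
      rw [(CharP.intCast_eq_zero_iff k l _).2 h5, zero_mul]
    rw [finsum_eq_sum_of_support_subset _ h2, Finset.sum_map] at h1
    have h6 : ∀ σ : Gal(L/F), (ord (smulP σ Q) c : k) * θ (smulP σ Q) =
        ((j σ : k) * (χ σ : k)) * θ Q := by
      intro σ
      rw [hc2, hθ.equiv]
      ring
    simp only [Function.Embedding.coeFn_mk] at h1
    rw [Finset.sum_congr rfl fun σ _ => h6 σ, ← Finset.sum_mul] at h1
    exact (mul_eq_zero.1 h1).resolve_right hQ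
  -- the exponent
  have hE : (l : ℤ) ∣ ∑ σ : Gal(L/F), j σ * cf χ ρ a σ⁻¹ := by
    rw [← ZMod.intCast_zmod_eq_zero_iff_dvd]
    push_cast
    have h1 : ∀ σ : Gal(L/F), (j σ : ZMod l) * ((cf χ ρ a σ⁻¹ : ℤ) : ZMod l) =
        ρ (a * ((j σ : k) * (χ σ : k))) := by
      intro σ
      unfold cf
      rw [map_inv, inv_inv, Int.cast_natCast, ZMod.natCast_val, ZMod.cast_id, ← zsmul_eq_mul, ← map_zsmul,
        zsmul_eq_mul]
      congr 1
      ring
    rw [Finset.sum_congr rfl fun σ _ => h1 σ, ← map_sum, ← Finset.mul_sum, hsum, mul_zero, map_zero]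
  obtain ⟨s, hs⟩ := hE
  refine ⟨kL ^ s, ?_⟩
  rw [← T2_mem]
  have h1 : eta χ ρ a ξ * ((kL ^ s) ^ l)⁻¹ =
      ∏ σ : Gal(L/F), (gu σ⁻¹ ξ / kL ^ j σ) ^ cf χ ρ a σ⁻¹ := by
    unfold eta pw
    rw [← Equiv.prod_comp (Equiv.inv Gal(L/F)), Finset.prod_congr rfl fun σ _ => div_zpow _ _ _,
      Finset.prod_div_distrib, div_eq_mul_inv]
    congr 2
    rw [Finset.prod_congr rfl fun σ _ => (zpow_mul kL (j σ) (cf χ ρ a σ⁻¹)).symm,
      T3_zpow, hs, ← zpow_natCast, ← zpow_mul, mul_comm]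
  rw [h1]
  exact prod_mem fun σ _ => zpow_mem (hc3 σ) _

end H55K.Ab
end

-- from Lib.SSG.E.A3
section

open NumberField

namespace SSG

variable {F : Type} [Field F] [NumberField F] {C : Type} [NormedField C] [IsUltrametricDist C] {L : LTF F C} {N : ℕ}
  {ι : Type} [Fintype ι]

/-! Chunk A3 (M). Inverses. ‖u‖ = 1, ρ from Fn_unif. G a := 1 - u⁻¹ H a is in Fn (u⁻¹ has norm 1) and ‖G a‖ <= ρ < 1. Partial sums P_n a = u⁻¹ * sum over k < n of (G a)^k are in Fn (Fn_sum, Fn_pow, Fn_scal), and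
(H a)⁻¹ - P_n a = (H a)⁻¹ (G a)^n (geometric sum: H a * P_n a = (1 - G a) * sum = 1 - G^n; H a <> 0 because ‖H a‖ = 1: ‖H a - u‖ < ‖u‖), norm <= ρ^n. Fn_lim with ρ^n <= ε. -/

theorem Fn_inv {p : ℕ} (hp : p ≠ 0) (hL : L.Ok p) {H : (ι → 𝓞 F) → C} (h : L.Fn N ι H) {u : C} (h1 : ‖u‖ = 1)
    (hu : ∀ a, ‖H a - u‖ < 1) : L.Fn N ι (fun a => (H a)⁻¹) := by
  obtain ⟨ρ, hρ0, hρ1, hρ⟩ := Fn_unif hp hL h u hu
  have hs := hL.small
  have hu0 : u ≠ 0 := by
    intro h0
    rw [h0, norm_zero] at h1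
    exact zero_ne_one h1
  have hui : ‖u⁻¹‖ = 1 := by rw [norm_inv, h1, inv_one]
  have hHn : ∀ a, ‖H a‖ = 1 := by
    intro a
    have h2 : H a = u + (H a - u) := by ring
    have h3 : ‖u‖ ≠ ‖H a - u‖ := by
      rw [h1]
      exact (hu a).ne'
    rw [h2, IsUltrametricDist.norm_add_eq_max_of_norm_ne_norm h3, h1]
    exact max_eq_left (hu a).le
  have hH0 : ∀ a, H a ≠ 0 := by
    intro a h0
    have := hHn a
    rw [h0, norm_zero] at this
    exact zero_ne_one this
  set G : (ι → 𝓞 F) → C := fun a => 1 - u⁻¹ * H a with hG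
  have hGF : L.Fn N ι G := Fn_sub (Fn_const (by simp)) (Fn_scal hs hui.le h)
  have hGn : ∀ a, ‖G a‖ ≤ ρ := by
    intro a
    have h2 : G a = - (u⁻¹ * (H a - u)) := by
      simp only [hG]
      field_simp
      ring
    rw [h2, norm_neg, norm_mul, hui, one_mul]
    exact hρ a
  apply Fn_lim
  intro ε hε
  obtain ⟨n, hn⟩ := exists_pow_lt_of_lt_one hε hρ1
  refine ⟨fun a => u⁻¹ * ∑ k ∈ Finset.range n, G a ^ k, ?_, ?_⟩
  · exact Fn_scal hs hui.le (Fn_sum _ (fun k _ => Fn_pow hs hGF k))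
  · intro a
    have h2 : u⁻¹ * H a = 1 - G a := by
      simp only [hG]
      ring
    have h3 : H a * (u⁻¹ * ∑ k ∈ Finset.range n, G a ^ k) = 1 - G a ^ n := by
      calc H a * (u⁻¹ * ∑ k ∈ Finset.range n, G a ^ k)
          = (u⁻¹ * H a) * ∑ k ∈ Finset.range n, G a ^ k := by ring
        _ = (1 - G a) * ∑ k ∈ Finset.range n, G a ^ k := by rw [h2]
        _ = 1 - G a ^ n := mul_neg_geom_sum (G a) n
    have h4 : (H a)⁻¹ - u⁻¹ * ∑ k ∈ Finset.range n, G a ^ k = (H a)⁻¹ * G a ^ n := by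
      have h5 : u⁻¹ * ∑ k ∈ Finset.range n, G a ^ k = (H a)⁻¹ * (1 - G a ^ n) := by
        rw [← h3, ← mul_assoc, inv_mul_cancel₀ (hH0 a), one_mul]
      rw [h5]
      ring
    rw [h4, norm_mul, norm_inv, hHn a, inv_one, one_mul, norm_pow]
    exact (pow_le_pow_left₀ (norm_nonneg _) (hGn a) n).trans hn.le

end SSG
end

-- from Lib.SSG.E.A4
section

open NumberField

namespace SSG

variable {F : Type} [Field F] [NumberField F] {C : Type} [NormedField C] [IsUltrametricDist C] {L : LTF F C} {N : ℕ}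
  {ι : Type} [Fintype ι]

/-! Chunk A4 (M). The solution of v = 1 + A t^4 v^2 + B t^6 v^3 is in Fn. Fn_unif with u = 0 gives ρ < 1 with ‖t a‖ <= ρ. v_0 = 1, v_(n+1) = 1 + A t^4 v_n^2 + B t^6 v_n^3 are in Fn (ring operations); ‖v a - v_n a‖ <= (ρ^4)^n by induction:
v^2 - v_n^2 = (v - v_n)(v + v_n), v^3 - v_n^3 = (v - v_n)(v^2 + v v_n + v_n^2), all norms <= 1 (Fn_le), ‖t‖^6 <= ‖t‖^4 <= ρ^4. If ρ = 0 all is trivial (use max ρ (1/2)). Fn_lim. -/

/-- The successive approximations. -/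
def a4_seq (A B : C) (t : (ι → 𝓞 F) → C) : ℕ → (ι → 𝓞 F) → C
  | 0 => fun _ => 1
  | n + 1 => fun a => 1 + A * (t a ^ 4 * a4_seq A B t n a ^ 2) + B * (t a ^ 6 * a4_seq A B t n a ^ 3)

theorem a4e_add {x y : C} {e : ℝ} (hx : ‖x‖ ≤ e) (hy : ‖y‖ ≤ e) : ‖x + y‖ ≤ e :=
  (IsUltrametricDist.norm_add_le_max x y).trans (max_le hx hy)

theorem Fn_v {p : ℕ} (hp : p ≠ 0) (hL : L.Ok p) {A B : C} (hA : ‖A‖ ≤ 1) (hB : ‖B‖ ≤ 1) {t v : (ι → 𝓞 F) → C}
    (ht : L.Fn N ι t) (ht1 : ∀ a, ‖t a‖ < 1) (hv1 : ∀ a, ‖v a‖ ≤ 1)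
    (hv : ∀ a, v a = 1 + A * t a ^ 4 * v a ^ 2 + B * t a ^ 6 * v a ^ 3) : L.Fn N ι v := by
  have hs := hL.small
  obtain ⟨ρ, hρ0, hρ1, hρ⟩ := Fn_unif hp hL ht 0 (fun a => by rw [sub_zero]; exact ht1 a)
  have hseq : ∀ n, L.Fn N ι (a4_seq A B t n) := by
    intro n
    induction n with
    | zero => exact Fn_const (c := (1 : C)) (le_of_eq norm_one)
    | succ n ih =>
      exact Fn_add (Fn_add (Fn_const (c := (1 : C)) (le_of_eq norm_one))
        (Fn_scal hs hA (Fn_mul hs (Fn_pow hs ht 4) (Fn_pow hs ih 2))))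
        (Fn_scal hs hB (Fn_mul hs (Fn_pow hs ht 6) (Fn_pow hs ih 3)))
  have hdist : ∀ n a, ‖v a - a4_seq A B t n a‖ ≤ ρ ^ n := by
    intro n a
    induction n with
    | zero =>
      rw [pow_zero]
      have h1 : a4_seq A B t 0 a = 1 := rfl
      rw [h1, sub_eq_add_neg]
      exact a4e_add (hv1 a) (by rw [norm_neg, norm_one])
    | succ n ih =>
      have hw := Fn_le hs (hseq n) a
      have ht0 : ‖t a‖ ≤ ρ := by
        have := hρ a
        rwa [sub_zero] at this
      have ht4 : ‖t a‖ ^ 4 ≤ ρ := by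
        have h1 : ‖t a‖ ^ 4 ≤ ‖t a‖ := by
          have := pow_le_pow_of_le_one (norm_nonneg (t a)) (ht1 a).le (show 1 ≤ 4 by norm_num)
          rwa [pow_one] at this
        exact h1.trans ht0
      have ht6 : ‖t a‖ ^ 6 ≤ ρ := by
        have h1 : ‖t a‖ ^ 6 ≤ ‖t a‖ := by
          have := pow_le_pow_of_le_one (norm_nonneg (t a)) (ht1 a).le (show 1 ≤ 6 by norm_num)
          rwa [pow_one] at this
        exact h1.trans ht0
      have h1 : v a - a4_seq A B t (n + 1) a =
          A * (t a ^ 4 * ((v a - a4_seq A B t n a) * (v a + a4_seq A B t n a))) +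
            B * (t a ^ 6 * ((v a - a4_seq A B t n a) *
              (v a ^ 2 + v a * a4_seq A B t n a + a4_seq A B t n a ^ 2))) := by
        have h2 : a4_seq A B t (n + 1) a = 1 + A * (t a ^ 4 * a4_seq A B t n a ^ 2) +
          B * (t a ^ 6 * a4_seq A B t n a ^ 3) := rfl
        rw [h2]
        nth_rewrite 1 [hv a]
        ring
      rw [h1, pow_succ ρ n]
      have hρn : 0 ≤ ρ ^ n := pow_nonneg hρ0 n
      have key : ∀ {c s x : C}, ‖c‖ ≤ 1 → ‖s‖ ≤ ρ → ‖x‖ ≤ 1 →
          ‖c * (s * ((v a - a4_seq A B t n a) * x))‖ ≤ ρ ^ n * ρ := by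
        intro c s x hc hs' hx
        rw [norm_mul, norm_mul, norm_mul]
        have e1 : ‖v a - a4_seq A B t n a‖ * ‖x‖ ≤ ρ ^ n * 1 :=
          mul_le_mul ih hx (norm_nonneg _) hρn
        rw [mul_one] at e1
        have e2 : ‖s‖ * (‖v a - a4_seq A B t n a‖ * ‖x‖) ≤ ρ * ρ ^ n :=
          mul_le_mul hs' e1 (mul_nonneg (norm_nonneg _) (norm_nonneg _)) hρ0
        have e3 : ‖c‖ * (‖s‖ * (‖v a - a4_seq A B t n a‖ * ‖x‖)) ≤ 1 * (ρ * ρ ^ n) :=
          mul_le_mul hc e2 (mul_nonneg (norm_nonneg _) (mul_nonneg (norm_nonneg _) (norm_nonneg _)))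
            zero_le_one
        rw [one_mul] at e3
        rw [mul_comm (ρ ^ n) ρ]
        exact e3
      have hvv : ‖v a ^ 2‖ ≤ 1 := by rw [norm_pow]; exact pow_le_one₀ (norm_nonneg _) (hv1 a)
      have hww : ‖a4_seq A B t n a ^ 2‖ ≤ 1 := by rw [norm_pow]; exact pow_le_one₀ (norm_nonneg _) hw
      have hvw : ‖v a * a4_seq A B t n a‖ ≤ 1 := by
        rw [norm_mul]; exact mul_le_one₀ (hv1 a) (norm_nonneg _) hw
      have ht4' : ‖t a ^ 4‖ ≤ ρ := by rw [norm_pow]; exact ht4
      have ht6' : ‖t a ^ 6‖ ≤ ρ := by rw [norm_pow]; exact ht6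
      exact a4e_add (key hA ht4' (a4e_add (hv1 a) hw)) (key hB ht6' (a4e_add (a4e_add hvv hvw) hww))
  refine Fn_lim fun ε hε => ?_
  obtain ⟨n, hn⟩ := exists_pow_lt_of_lt_one hε hρ1
  exact ⟨a4_seq A B t n, hseq n, fun a => (hdist n a).trans hn.le⟩

end SSG
end
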