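import Mathlib

/-! Merged copies (to shorten the build) of Lib.H13E.Q7, Lib.H35M.KL1, Lib.SSG.F.D0, Lib.SSG.F.D1, Lib.SSG.F.D2, Lib.H35M.KD, Lib.H35M.KL2, Lib.H35M.KL3A. -/

-- from Lib.H13E.Q7
section

namespace H13E

/-! Chunk Q7 (S, only Mathlib): uniqueness of the square root of an arithmetic function. Strong induction on n: (f * f) n = 2 f 1 f n + sum over the proper
factorizations, which agree by induction; n = 0 is f 0 = 0. -/

theorem sqrt_unique {f g : ArithmeticFunction ℂ} (hf : f 1 = 1) (hg : g 1 = 1)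
    (h : ∀ n, (f * f) n = (g * g) n) : f = g := by
  ext n
  induction n using Nat.strong_induction_on with
  | _ n ih =>
    by_cases h0 : n = 0
    · subst h0
      simp
    by_cases h1 : n = 1
    · rw [h1, hf, hg]
    have hn := h n
    rw [ArithmeticFunction.mul_apply, ArithmeticFunction.mul_apply] at hn
    have hmem1 : (1, n) ∈ n.divisorsAntidiagonal := by
      simp [h0]
    have hmem2 : (n, 1) ∈ n.divisorsAntidiagonal.erase (1, n) := by
      rw [Finset.mem_erase]
      refine ⟨?_, by simp [h0]⟩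
      intro h2
      exact h1 (congrArg Prod.fst h2)
    rw [← Finset.add_sum_erase _ _ hmem1, ← Finset.add_sum_erase _ _ hmem2,
      ← Finset.add_sum_erase _ (fun x : ℕ × ℕ => g x.1 * g x.2) hmem1,
      ← Finset.add_sum_erase _ (fun x : ℕ × ℕ => g x.1 * g x.2) hmem2] at hn
    have hrest : ∑ x ∈ (n.divisorsAntidiagonal.erase (1, n)).erase (n, 1), f x.1 * f x.2 =
        ∑ x ∈ (n.divisorsAntidiagonal.erase (1, n)).erase (n, 1), g x.1 * g x.2 := by
      apply Finset.sum_congr rfl
      rintro ⟨a, b⟩ hx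
      rw [Finset.mem_erase, Finset.mem_erase, Nat.mem_divisorsAntidiagonal] at hx
      obtain ⟨hx1, hx2, hx3, _⟩ := hx
      simp only at hx3
      have ha0 : a ≠ 0 := by
        rintro rfl
        simp at hx3
        exact h0 hx3.symm
      have hb0 : b ≠ 0 := by
        rintro rfl
        simp at hx3
        exact h0 hx3.symm
      have ha : a < n := by
        rcases Nat.lt_or_ge 1 b with hb | hb
        · rw [← hx3]
          exact lt_mul_of_one_lt_right (Nat.pos_of_ne_zero ha0) hb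
        · exfalso
          have hb1 : b = 1 := by omega
          subst hb1
          rw [mul_one] at hx3
          subst hx3
          exact hx1 rfl
      have hb : b < n := by
        rcases Nat.lt_or_ge 1 a with ha' | ha'
        · rw [← hx3]
          exact lt_mul_of_one_lt_left (Nat.pos_of_ne_zero hb0) ha'
        · exfalso
          have ha1 : a = 1 := by omega
          subst ha1
          rw [one_mul] at hx3
          subst hx3
          exact hx2 rfl
      rw [ih a ha, ih b hb]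
    rw [hrest, hf, hg] at hn
    linear_combination hn / 2

end H13E
end

-- from Lib.H35M.KL1
section

/-! # H35M, chunk KL1 (M): Lagrange interpolation and integrality -/

namespace H35M

variable {C : Type} [NormedField C] [IsUltrametricDist C]

/-- The subring of the elements of norm at most one. -/
def kl1O (C : Type) [NormedField C] [IsUltrametricDist C] : Subring C where
  carrier := {x | ‖x‖ ≤ 1}
  mul_mem' := fun {a b} ha hb => by
    show ‖a * b‖ ≤ 1
    rw [norm_mul]
    exact mul_le_one₀ ha (norm_nonneg _) hb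
  one_mem' := by
    show ‖(1 : C)‖ ≤ 1
    rw [norm_one]
  add_mem' := fun {a b} ha hb => (IsUltrametricDist.norm_add_le_max a b).trans (max_le ha hb)
  zero_mem' := by
    show ‖(0 : C)‖ ≤ 1
    rw [norm_zero]
    exact zero_le_one
  neg_mem' := fun {a} ha => by
    show ‖-a‖ ≤ 1
    rw [norm_neg]
    exact ha

theorem kl1_iff (Q : Polynomial C) : Q ∈ Polynomial.lifts (kl1O C).subtype ↔ ∀ i, ‖Q.coeff i‖ ≤ 1 := by
  rw [Polynomial.lifts_iff_coeff_lifts]
  constructor
  · intro h i
    obtain ⟨y, hy⟩ := h i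
    rw [← hy]
    exact y.2
  · intro h i
    exact ⟨⟨Q.coeff i, h i⟩, rfl⟩

/-- Chunk KL1a (S/M). Division with remainder by a monic polynomial with integral coefficients preserves integral coefficients (induction on the degree of h: subtract lead(h) T^(deg h - deg P) P; or Polynomial.modByMonic over the subring of the elements of norm at most one, mapped to C:
P and h lift to that subring (Polynomial.lifts / toSubring), modByMonic commutes with maps). -/
theorem modBy_int {P h : Polynomial C} (hP : P.Monic) (hPi : ∀ i, ‖P.coeff i‖ ≤ 1) (hh : ∀ i, ‖h.coeff i‖ ≤ 1) (i : ℕ) :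
    ‖(h %ₘ P).coeff i‖ ≤ 1 := by
  obtain ⟨P', hP'⟩ := (Polynomial.mem_lifts _).1 ((kl1_iff P).2 hPi)
  obtain ⟨h', hh'⟩ := (Polynomial.mem_lifts _).1 ((kl1_iff h).2 hh)
  have hinj : Function.Injective (kl1O C).subtype := Subtype.val_injective
  have hm : P'.Monic := by
    apply Polynomial.monic_of_injective hinj
    rw [hP']
    exact hP
  have h1 : (h' %ₘ P').map (kl1O C).subtype = h %ₘ P := by
    rw [Polynomial.map_modByMonic _ hm, hh', hP']
  exact (kl1_iff _).1 ((Polynomial.mem_lifts _).2 ⟨_, h1⟩) i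

/-- Chunk KL1 (M). x injective on the finite set I, values of norm at most one: the sum over a of h(x_a) / prod_(b <> a) (x_a - x_b) is integral for an integral polynomial h. PROOF. P = prod (T - x_a) is monic with integral coefficients (products of integral polynomials are integral), h %ₘ P = r has
integral coefficients (KL1a), degree < n = card I, r(x_a) = h(x_a). Lagrange: r = sum_a r(x_a) prod_(b <> a) (T - x_b)/(x_a - x_b) (Lagrange.eq_interpolate, Lagrange.interpolate_apply, Lagrange.basis), coefficient of T^(n-1): the sum. n = 0: the sum is empty. -/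
theorem lag_int {I : Type} [Fintype I] [DecidableEq I] {x : I → C} (hx : Function.Injective x) (h1 : ∀ a, ‖x a‖ ≤ 1) {h : Polynomial C}
    (hh : ∀ i, ‖h.coeff i‖ ≤ 1) : ‖∑ a, h.eval (x a) / ∏ b ∈ Finset.univ.erase a, (x a - x b)‖ ≤ 1 := by
  obtain ⟨P, hP⟩ : ∃ P : Polynomial C, P = ∏ a : I, (Polynomial.X - Polynomial.C (x a)) := ⟨_, rfl⟩
  have hPm : P.Monic := by
    rw [hP]
    exact Polynomial.monic_prod_of_monic _ _ fun a _ => Polynomial.monic_X_sub_C (x a)
  have hPd : P.degree = (Finset.univ : Finset I).card := by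
    rw [hP, Polynomial.degree_prod]
    simp
  have hPi : ∀ i, ‖P.coeff i‖ ≤ 1 := by
    rw [← kl1_iff, hP]
    refine prod_mem fun a _ => ?_
    have e1 : (Polynomial.X - Polynomial.C (x a) : Polynomial C) = Polynomial.X + Polynomial.C (-(x a)) := by
      rw [Polynomial.C_neg, sub_eq_add_neg]
    rw [e1]
    refine add_mem (Polynomial.X_mem_lifts _) (Polynomial.C'_mem_lifts ⟨⟨-(x a), ?_⟩, rfl⟩)
    show ‖-(x a)‖ ≤ 1
    rw [norm_neg]
    exact h1 a
  have hr := modBy_int hPm hPi hh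
  have hdeg : (h %ₘ P).degree < (Finset.univ : Finset I).card := by
    rw [← hPd]
    exact Polynomial.degree_modByMonic_lt _ hPm
  have hev : ∀ a, (h %ₘ P).eval (x a) = h.eval (x a) := by
    intro a
    have hroot : P.eval (x a) = 0 := by
      rw [hP, Polynomial.eval_prod]
      refine Finset.prod_eq_zero (Finset.mem_univ a) ?_
      simp
    have e2 := Polynomial.modByMonic_add_div h P
    have e3 := congrArg (Polynomial.eval (x a)) e2
    rw [Polynomial.eval_add, Polynomial.eval_mul, hroot, zero_mul, add_zero] at e3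
    exact e3
  have h2 := Lagrange.coeff_eq_sum (s := Finset.univ) (v := x) hx.injOn hdeg
  simp only [hev] at h2
  rw [← h2]
  exact hr _

end H35M
end

-- from Lib.SSG.F.D0
section

/-!
# SSG/F : the one-variable functional of Lubin-Tate torsion points (module F of the supersingular
theorem, MP_f50388).  Definitions.

`q = p ^ 2`, `varpi = - p`, `g(Z) = Z ^ q - p Z`.
-/

open Polynomial

namespace SSF

noncomputable section

/-- `C~ (Z ^ m)` where `(C~ h)(y) = p⁻¹ * sum of h(z) over the roots z of z ^ q - p z = y`. -/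
def ctm (S : Type) [CommRing S] (p m : ℕ) : S[X] :=
  if m = 0 then C (p : S)
  else if m < p ^ 2 - 1 then 0
  else if m = p ^ 2 - 1 then C (((p ^ 2 - 1 : ℕ)) : S)
  else if 2 ≤ p then C (p : S) * ctm S p (m + 1 - p ^ 2) + X * ctm S p (m - p ^ 2)
  else 0
termination_by m
decreasing_by
  all_goals
    have h4 : 2 * 2 ≤ p ^ 2 := by nlinarith
    omega

/-- the operator `C~` on polynomials. -/
def Ct {S : Type} [CommRing S] (p : ℕ) (h : S[X]) : S[X] :=
  h.sum fun m a => C a * ctm S p m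

/-- The tower `R N = O_F / p ^ N` (`F` quadratic, `p` inert), its norms, the Lubin-Tate coordinates
`X N x` = coordinate of `[x] t_N`, the roots of unity `ζ N`, the field `k` (the closure of `F`),
the group `G` of automorphisms over `k`. -/
structure LTD (p : ℕ) (R : ℕ → Type) [∀ N, CommRing (R N)] [∀ N, Fintype (R N)]
    (L : Type) [NormedField L] where
  /-- reduction modulo `p ^ N` -/
  red : ∀ N, R (N + 1) →+* R N
  /-- the norm modulo `p ^ N` -/
  nm : ∀ N, R N →* ZMod (p ^ N)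
  /-- the closure of `F` (unramified quadratic extension of `Q_p`) -/
  k : Subfield L
  /-- automorphisms of `L` over `k` -/
  G : Subgroup (RingAut L)
  /-- the Lubin-Tate coordinate of `[x] t_N` -/
  X : ∀ N, R N → L
  /-- primitive `p ^ N`-th roots of unity -/
  ζ : ℕ → L
  hp0 : (p : L) ≠ 0
  hp1 : ‖(p : L)‖ < 1
  kval : ∀ x ∈ k, x ≠ 0 → ∃ n : ℤ, ‖x‖ = ‖(p : L)‖ ^ n
  giso : ∀ σ ∈ G, ∀ x : L, ‖σ x‖ = ‖x‖
  gk : ∀ σ ∈ G, ∀ x ∈ k, σ x = x
  gfix : ∀ x : L, (∀ σ ∈ G, σ x = x) → x ∈ k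
  fib : ∀ N (y : R N), Nat.card {x : R (N + 1) // red N x = y} = p ^ 2
  nmred : ∀ N (x : R (N + 1)),
    ZMod.castHom (pow_dvd_pow p (Nat.le_succ N)) (ZMod (p ^ N)) (nm (N + 1) x) = nm N (red N x)
  nmu : ∀ N (x : R N), IsUnit (nm N x) → IsUnit x
  card0 : Nat.card (R 0) = 1
  card1 : Nat.card {x : R 1 // IsUnit x} = p ^ 2 - 1
  norm1 : Nat.card {x : R 1 // nm 1 x = 1} = p + 1
  X0 : ∀ N, X N 0 = 0
  Xinj : ∀ N, Function.Injective (X N)
  Xg : ∀ N (x : R (N + 1)), X (N + 1) x ^ (p ^ 2) - (p : L) * X (N + 1) x = X N (red N x)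
  Xpi : ∀ N (x : R (N + 1)), X (N + 1) (-(p : R (N + 1)) * x) = X N (red N x)
  ζprim : ∀ N, IsPrimitiveRoot (ζ N) (p ^ N)
  ζp : ∀ N, ζ (N + 1) ^ p = ζ N
  gal : ∀ σ ∈ G, ∀ N, ∃ u : R N, IsUnit u ∧ (∀ x, σ (X N x) = X N (u * x)) ∧
    σ (ζ N) = ζ N ^ (nm N u).val

end

end SSF
end

-- from Lib.SSG.F.D1
section

/-!
# SSG/F : definitions, part 2 (no sorry)
-/

open Polynomial
open scoped Classical

namespace SSF

noncomputable section

variable {p : ℕ} {R : ℕ → Type} [∀ N, CommRing (R N)] [∀ N, Fintype (R N)]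
  {L : Type} [NormedField L]

section W

variable [IsUltrametricDist L]

/-- the valuation ring of `k` -/
def LTD.W (D : LTD p R L) : Subring L where
  carrier := {x | x ∈ D.k ∧ ‖x‖ ≤ 1}
  mul_mem' := by
    rintro a b ⟨ha, ha'⟩ ⟨hb, hb'⟩
    exact ⟨D.k.mul_mem ha hb, by rw [norm_mul]; exact mul_le_one₀ ha' (norm_nonneg _) hb'⟩
  one_mem' := ⟨D.k.one_mem, by simp⟩
  add_mem' := by
    rintro a b ⟨ha, ha'⟩ ⟨hb, hb'⟩
    exact ⟨D.k.add_mem ha hb, (IsUltrametricDist.norm_add_le_max a b).trans (max_le ha' hb')⟩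
  zero_mem' := ⟨D.k.zero_mem, by simp⟩
  neg_mem' := by
    rintro a ⟨ha, ha'⟩
    exact ⟨D.k.neg_mem ha, by rwa [norm_neg]⟩

/-- the maximal ideal of `W` -/
def LTD.m (D : LTD p R L) : Ideal D.W where
  carrier := {x | ‖(x : L)‖ < 1}
  add_mem' := by
    intro a b ha hb
    exact (IsUltrametricDist.norm_add_le_max (a : L) (b : L)).trans_lt (max_lt ha hb)
  zero_mem' := by simp
  smul_mem' := by
    intro c x hx
    have hc : ‖(c : L)‖ ≤ 1 := c.2.2
    have hx' : ‖(x : L)‖ < 1 := hx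
    change ‖((c * x : D.W) : L)‖ < 1
    rw [Subring.coe_mul, norm_mul]
    calc ‖(c : L)‖ * ‖(x : L)‖ ≤ 1 * ‖(x : L)‖ := by gcongr
      _ < 1 := by rwa [one_mul]

/-- the residue ring of `W` (a field of characteristic `p`) -/
abbrev LTD.κ (D : LTD p R L) : Type := D.W ⧸ D.m

/-- reduction `W → κ` -/
abbrev LTD.res (D : LTD p R L) : D.W →+* D.κ := Ideal.Quotient.mk D.m

/-- evaluation of a polynomial with coefficients in `W` -/
def LTD.ev (D : LTD p R L) (h : D.W[X]) (x : L) : L := eval₂ D.W.subtype x h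

/-- the sum of `h(X x)` over the elements of norm `a` -/
def LTD.T (D : LTD p R L) (N : ℕ) (a : ZMod (p ^ N)) (h : D.W[X]) : L :=
  ∑ x ∈ Finset.univ.filter (fun x : R N => D.nm N x = a), D.ev h (D.X N x)

/-- `T` as a function on the units modulo `p ^ n` -/
def LTD.Tf (D : LTD p R L) (n : ℕ) (h : D.W[X]) : (ZMod (p ^ n))ˣ → L :=
  fun a => D.T n (a : ZMod (p ^ n)) h

/-- `ζ_n - 1` and its conjugates -/
def LTD.φ (D : LTD p R L) (n : ℕ) : (ZMod (p ^ n))ˣ → L :=
  fun a => D.ζ n ^ (a : ZMod (p ^ n)).val - 1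

/-- the ring `W[ζ_n]`, as a ring of functions on the Galois group -/
def LTD.O (D : LTD p R L) (n : ℕ) : Subring ((ZMod (p ^ n))ˣ → L) where
  carrier := {f | ∃ B : D.W[X], ∀ a, f a = D.ev B (D.ζ n ^ (a : ZMod (p ^ n)).val)}
  mul_mem' := by
    rintro f g ⟨B, hB⟩ ⟨B', hB'⟩
    exact ⟨B * B', fun a => by rw [Pi.mul_apply, hB, hB']; simp [LTD.ev, eval₂_mul]⟩
  one_mem' := ⟨1, fun a => by simp [LTD.ev]⟩
  add_mem' := by
    rintro f g ⟨B, hB⟩ ⟨B', hB'⟩
    exact ⟨B + B', fun a => by rw [Pi.add_apply, hB, hB']; simp [LTD.ev, eval₂_add]⟩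
  zero_mem' := ⟨0, fun a => by simp [LTD.ev]⟩
  neg_mem' := by
    rintro f ⟨B, hB⟩
    exact ⟨-B, fun a => by rw [Pi.neg_apply, hB]; simp [LTD.ev, eval₂_neg]⟩

/-- the functions with the equivariance of elements of `k(ζ_n)` -/
def LTD.Eqv (D : LTD p R L) (n : ℕ) (f : (ZMod (p ^ n))ˣ → L) : Prop :=
  ∀ σ ∈ D.G, ∀ c : (ZMod (p ^ n))ˣ, σ (D.ζ n) = D.ζ n ^ (c : ZMod (p ^ n)).val →
    ∀ a, σ (f a) = f (c * a)

/-- `w` expresses `ζ_N` by the coordinate -/
def LTD.IsW (D : LTD p R L) (N : ℕ) (w : D.W[X]) : Prop :=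
  w.natDegree < p ^ (2 * (N - 1)) * (p ^ 2 - 1) ∧
    ∀ x : R N, IsUnit x → D.ev w (D.X N x) = D.ζ N ^ (D.nm N x).val

end W

/-- the Gauss sum -/
def LTD.tau [Fact p.Prime] (D : LTD p R L) (N : ℕ) (χ : DirichletCharacter L (p ^ N)) : L :=
  ∑ a : ZMod (p ^ N), χ a * D.ζ N ^ a.val

/-- the functional `f ↦ tau⁻¹ * sum of χ(a) ζ_(n+1)^(a i) f(a mod p^n)` -/
def LTD.ell [Fact p.Prime] (D : LTD p R L) (n : ℕ) (χ : DirichletCharacter L (p ^ (n + 1)))
    (i : ℕ) (f : (ZMod (p ^ n))ˣ → L) : L :=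
  (D.tau (n + 1) χ)⁻¹ * ∑ a : (ZMod (p ^ (n + 1)))ˣ,
    χ (a : ZMod (p ^ (n + 1))) * D.ζ (n + 1) ^ ((a : ZMod (p ^ (n + 1))).val * i) *
      f (ZMod.unitsMap (pow_dvd_pow p (Nat.le_succ n)) a)

/-- `χ⁻¹(1 + p) - 1` -/
def LTD.eta [Fact p.Prime] (_D : LTD p R L) (N : ℕ) (χ : DirichletCharacter L (p ^ N)) : L :=
  χ⁻¹ (1 + (p : ZMod (p ^ N))) - 1

/-- the sum over the whole tower level with a character -/
def LTD.S [IsUltrametricDist L] (D : LTD p R L) (N : ℕ) (χ : DirichletCharacter L (p ^ N))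
    (h : D.W[X]) : L :=
  ∑ x : R N, χ (D.nm N x) * D.ev h (D.X N x)

end

end SSF
end

-- from Lib.SSG.F.D2
section

/-! # SSG/F/D2 : the leading term statement (definition) -/

open Polynomial
open scoped Classical

namespace SSF

variable {p : ℕ} [Fact p.Prime] {R : ℕ → Type} [∀ N, CommRing (R N)] [∀ N, Fintype (R N)]
  {L : Type} [NormedField L] [IsUltrametricDist L] (D : LTD p R L)

/-- the leading term of `T n 1 h` is `(-1)^(n/2) h_(q^(n/2) - 1) φ_n^(r_n)`. -/
def LTD.Lead (D : LTD p R L) (n : ℕ) : Prop :=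
  ∀ h : D.W[X], ‖D.T n 1 h - (-1) ^ (n / 2) * (h.coeff (p ^ (2 * (n / 2)) - 1) : L) *
    (D.ζ n - 1) ^ (p ^ n / (p + 1))‖ < ‖D.ζ n - 1‖ ^ (p ^ n / (p + 1))

/-- the polynomials `h_b = Ct (w^(p^(n+1) - b) h)` of the recursion. -/
noncomputable def LTD.hb (D : LTD p R L) (n : ℕ) (w h : D.W[X]) (b : ℕ) : D.W[X] :=
  Ct p (w ^ (p ^ (n + 1) - b) * h)

end SSF
end

-- from Lib.H35M.KD
section

/-!
# H35M: finite groups with an integral coordinate (definitions)

G is a finite abelian group (the points of a finite subgroup of a formal group), X : G → C a coordinate with values of norm at most one in an ultrametric normed field.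
Fn1 X g: the function g on G is a uniform limit of integral polynomials in X.
-/

namespace H35M

variable {C : Type} [NormedField C] {G : Type}

/-- Uniform limits of polynomials with integral coefficients in X. -/
def Fn1 (X : G → C) (g : G → C) : Prop :=
  ∀ ε : ℝ, 0 < ε → ∃ Q : Polynomial C, (∀ i, ‖Q.coeff i‖ ≤ 1) ∧ ∀ a, ‖g a - Q.eval (X a)‖ ≤ ε

/-- Uniform limits of polynomials with integral coefficients in X a, X b; a polynomial in two variables is a polynomial (in X a) over the polynomials (in X b). -/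
def Fn2 (X : G → C) (g : G → G → C) : Prop :=
  ∀ ε : ℝ, 0 < ε → ∃ Q : Polynomial (Polynomial C), (∀ i j, ‖(Q.coeff i).coeff j‖ ≤ 1) ∧
    ∀ a b, ‖g a b - (Q.eval (Polynomial.C (X a))).eval (X b)‖ ≤ ε

/-- The coordinate of a finite subgroup of a formal group. -/
structure FG [AddCommGroup G] (X : G → C) : Prop where
  le : ∀ a, ‖X a‖ ≤ 1
  inj : Function.Injective X
  zero : X 0 = 0
  neg : ∀ a, X (-a) = - X a
  add : Fn2 X fun a b => X (a + b)

/-- The product of the coordinates of the elements different from zero. -/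
noncomputable def cX [AddCommGroup G] [Fintype G] [DecidableEq G] (X : G → C) : C := ∏ b ∈ Finset.univ.erase (0 : G), X b

end H35M
end

-- from Lib.H35M.KL2
section

/-! # H35M, chunk KL2 (S/M): rules for the functions Fn1, Fn2 -/

namespace H35M

variable {C : Type} [NormedField C] [IsUltrametricDist C] {G : Type} {X : G → C}

/-- The subring of the elements of norm at most one. -/
def kl2O (C : Type) [NormedField C] [IsUltrametricDist C] : Subring C where
  carrier := {x | ‖x‖ ≤ 1}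
  mul_mem' := fun {a b} ha hb => by
    show ‖a * b‖ ≤ 1
    rw [norm_mul]
    exact mul_le_one₀ ha (norm_nonneg _) hb
  one_mem' := by
    show ‖(1 : C)‖ ≤ 1
    rw [norm_one]
  add_mem' := fun {a b} ha hb => (IsUltrametricDist.norm_add_le_max a b).trans (max_le ha hb)
  zero_mem' := by
    show ‖(0 : C)‖ ≤ 1
    rw [norm_zero]
    exact zero_le_one
  neg_mem' := fun {a} ha => by
    show ‖-a‖ ≤ 1
    rw [norm_neg]
    exact ha

theorem kl2_iff (Q : Polynomial C) : Q ∈ Polynomial.lifts (kl2O C).subtype ↔ ∀ i, ‖Q.coeff i‖ ≤ 1 := by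
  rw [Polynomial.lifts_iff_coeff_lifts]
  constructor
  · intro h i
    obtain ⟨y, hy⟩ := h i
    rw [← hy]
    exact y.2
  · intro h i
    exact ⟨⟨Q.coeff i, h i⟩, rfl⟩

theorem kl2_max {a b : C} {r : ℝ} (ha : ‖a‖ ≤ r) (hb : ‖b‖ ≤ r) : ‖a + b‖ ≤ r :=
  (IsUltrametricDist.norm_add_le_max a b).trans (max_le ha hb)

/-- integral polynomials: values at points of norm at most one are integral -/
theorem eval_le {Q : Polynomial C} (hQ : ∀ i, ‖Q.coeff i‖ ≤ 1) {x : C} (hx : ‖x‖ ≤ 1) : ‖Q.eval x‖ ≤ 1 := by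
  obtain ⟨Q', hQ'⟩ := (Polynomial.mem_lifts _).1 ((kl2_iff Q).2 hQ)
  have h1 : Q.eval x = (kl2O C).subtype (Q'.eval ⟨x, hx⟩) := by
    rw [← Polynomial.eval₂_at_apply, ← hQ', Polynomial.eval_map]
    rfl
  rw [h1]
  exact (Q'.eval ⟨x, hx⟩).2

theorem Fn1.le (hX : ∀ a, ‖X a‖ ≤ 1) {g : G → C} (hg : Fn1 X g) (a : G) : ‖g a‖ ≤ 1 := by
  obtain ⟨Q, hQ, h⟩ := hg 1 one_pos
  have e : g a = (g a - Q.eval (X a)) + Q.eval (X a) := by ring
  rw [e]
  exact kl2_max (h a) (eval_le hQ (hX a))

theorem Fn1.const {c : C} (hc : ‖c‖ ≤ 1) : Fn1 X fun _ => c := by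
  intro ε hε
  refine ⟨Polynomial.C c, ?_, fun a => ?_⟩
  · rw [← kl2_iff]
    exact Polynomial.C'_mem_lifts ⟨⟨c, hc⟩, rfl⟩
  · rw [Polynomial.eval_C, sub_self, norm_zero]
    exact hε.le

theorem Fn1.coord : Fn1 X X := by
  intro ε hε
  refine ⟨Polynomial.X, ?_, fun a => ?_⟩
  · rw [← kl2_iff]
    exact Polynomial.X_mem_lifts _
  · rw [Polynomial.eval_X, sub_self, norm_zero]
    exact hε.le

theorem Fn1.add {g h : G → C} (hg : Fn1 X g) (hh : Fn1 X h) : Fn1 X fun a => g a + h a := by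
  intro ε hε
  obtain ⟨Q, hQ, hQ'⟩ := hg ε hε
  obtain ⟨R, hR, hR'⟩ := hh ε hε
  refine ⟨Q + R, ?_, fun a => ?_⟩
  · rw [← kl2_iff] at hQ hR ⊢
    exact add_mem hQ hR
  · have e : g a + h a - (Q + R).eval (X a) = (g a - Q.eval (X a)) + (h a - R.eval (X a)) := by
      rw [Polynomial.eval_add]
      ring
    rw [e]
    exact kl2_max (hQ' a) (hR' a)

/-- Use the bounds of the values (Fn1.le, eval_le): g h - Q R = g (h - R) + (g - Q) R. -/
theorem Fn1.mul (hX : ∀ a, ‖X a‖ ≤ 1) {g h : G → C} (hg : Fn1 X g) (hh : Fn1 X h) : Fn1 X fun a => g a * h a := by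
  intro ε hε
  obtain ⟨Q, hQ, hQ'⟩ := hg ε hε
  obtain ⟨R, hR, hR'⟩ := hh ε hε
  refine ⟨Q * R, ?_, fun a => ?_⟩
  · rw [← kl2_iff] at hQ hR ⊢
    exact mul_mem hQ hR
  · have e : g a * h a - (Q * R).eval (X a) = g a * (h a - R.eval (X a)) + (g a - Q.eval (X a)) * R.eval (X a) := by
      rw [Polynomial.eval_mul]
      ring
    rw [e]
    refine kl2_max ?_ ?_
    · rw [norm_mul]
      calc ‖g a‖ * ‖h a - R.eval (X a)‖ ≤ 1 * ε :=
            mul_le_mul (Fn1.le hX hg a) (hR' a) (norm_nonneg _) zero_le_one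
        _ = ε := one_mul ε
    · rw [norm_mul]
      calc ‖g a - Q.eval (X a)‖ * ‖R.eval (X a)‖ ≤ ε * 1 :=
            mul_le_mul (hQ' a) (eval_le hR (hX a)) (norm_nonneg _) hε.le
        _ = ε := mul_one ε

theorem Fn1.pow (hX : ∀ a, ‖X a‖ ≤ 1) {g : G → C} (hg : Fn1 X g) (n : ℕ) : Fn1 X fun a => g a ^ n := by
  induction n with
  | zero =>
    simp only [pow_zero]
    exact Fn1.const (by rw [norm_one])
  | succ n ih =>
    simp only [pow_succ]
    exact Fn1.mul hX ih hg

theorem Fn1.sum {ι : Type} (s : Finset ι) {g : ι → G → C} (hg : ∀ i ∈ s, Fn1 X (g i)) : Fn1 X fun a => ∑ i ∈ s, g i a := by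
  classical
  induction s using Finset.induction_on with
  | empty =>
    simp only [Finset.sum_empty]
    exact Fn1.const (by rw [norm_zero]; exact zero_le_one)
  | insert i s hi ih =>
    simp only [Finset.sum_insert hi]
    exact Fn1.add (hg i (Finset.mem_insert_self i s)) (ih fun j hj => hg j (Finset.mem_insert_of_mem hj))

theorem Fn1.prod (hX : ∀ a, ‖X a‖ ≤ 1) {ι : Type} (s : Finset ι) {g : ι → G → C} (hg : ∀ i ∈ s, Fn1 X (g i)) : Fn1 X fun a => ∏ i ∈ s, g i a := by
  classical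
  induction s using Finset.induction_on with
  | empty =>
    simp only [Finset.prod_empty]
    exact Fn1.const (by rw [norm_one])
  | insert i s hi ih =>
    simp only [Finset.prod_insert hi]
    exact Fn1.mul hX (hg i (Finset.mem_insert_self i s)) (ih fun j hj => hg j (Finset.mem_insert_of_mem hj))



end H35M
end

-- from Lib.H35M.KL3A
section

/-! # H35M, chunk KL3A (M): difference quotients -/

namespace H35M

variable {C : Type} [NormedField C] [IsUltrametricDist C] {G : Type} [AddCommGroup G] [Finite G] {X : G → C}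

omit [NormedField C] [IsUltrametricDist C] [AddCommGroup G] [Finite G] in
theorem kl3a_eval {C : Type} [Field C] (Q : Polynomial (Polynomial C)) (x y : C) : (Q.eval (Polynomial.C x)).eval y =
    ∑ i ∈ Finset.range (Q.natDegree + 1), (Q.coeff i).eval y * x ^ i := by
  have h1 : Q.eval (Polynomial.C x) = ∑ i ∈ Finset.range (Q.natDegree + 1), Q.coeff i * Polynomial.C x ^ i :=
    Polynomial.eval_eq_sum_range _
  rw [h1, Polynomial.eval_finsetSum]
  refine Finset.sum_congr rfl fun i _ => ?_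
  rw [Polynomial.eval_mul, Polynomial.eval_pow, Polynomial.eval_C]

theorem kl3a_divX {C : Type} [Field C] (p : Polynomial C) (y : C) : p.divX.eval y * y = p.eval y - p.eval 0 := by
  have h1 := congrArg (Polynomial.eval y) (Polynomial.divX_mul_X_add p)
  rw [Polynomial.eval_add, Polynomial.eval_mul, Polynomial.eval_X, Polynomial.eval_C] at h1
  rw [← h1, Polynomial.coeff_zero_eq_eval_zero]
  ring

/-- Chunk KL3a (M). For b <> 0 the function a -> (X (a + b) - X a) / X b is in Fn1. PROOF. ε > 0; take Q for X (a + b) with error at most ε ‖X b‖. Q(x, y) - Q(x, 0) = y U(x, y) with U integral (divX in the inner variable, coefficient by coefficient). ‖X (a + b) - Q(X a, X b)‖ and, with b = 0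
(X 0 = 0), ‖X a - Q(X a, 0)‖ are at most ε ‖X b‖, so (X (a + b) - X a)/X b - U(X a, X b) has norm at most ε; U(., X b) is an integral polynomial. X b <> 0 by injectivity. -/
theorem FG.quo (h : FG X) {b : G} (hb : b ≠ 0) : Fn1 X fun a => (X (a + b) - X a) / X b := by
  classical
  have hXb : X b ≠ 0 := by
    intro h0
    apply hb
    apply h.inj
    rw [h0, h.zero]
  have hn : 0 < ‖X b‖ := norm_pos_iff.mpr hXb
  intro ε hε
  obtain ⟨Q, hQ1, hQ2⟩ := h.add (ε * ‖X b‖) (mul_pos hε hn)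
  set R : Polynomial C := ∑ i ∈ Finset.range (Q.natDegree + 1),
    Polynomial.C ((Q.coeff i).divX.eval (X b)) * Polynomial.X ^ i with hR
  refine ⟨R, ?_, ?_⟩
  · intro k
    have h1 : R.coeff k = if k ∈ Finset.range (Q.natDegree + 1) then (Q.coeff k).divX.eval (X b) else 0 := by
      rw [hR, Polynomial.finsetSum_coeff, ← Finset.sum_ite_eq (Finset.range (Q.natDegree + 1)) k
        (fun i => (Q.coeff i).divX.eval (X b))]
      refine Finset.sum_congr rfl fun i _ => ?_
      rw [Polynomial.coeff_C_mul_X_pow]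
    rw [h1]
    split_ifs
    · refine eval_le (fun j => ?_) (h.le b)
      rw [Polynomial.coeff_divX]
      exact hQ1 k (j + 1)
    · rw [norm_zero]
      exact zero_le_one
  · intro a
    have h2 : R.eval (X a) * X b = (Q.eval (Polynomial.C (X a))).eval (X b) -
        (Q.eval (Polynomial.C (X a))).eval 0 := by
      rw [kl3a_eval, kl3a_eval, ← Finset.sum_sub_distrib, hR, Polynomial.eval_finsetSum, Finset.sum_mul]
      refine Finset.sum_congr rfl fun i _ => ?_
      rw [Polynomial.eval_mul, Polynomial.eval_C, Polynomial.eval_pow, Polynomial.eval_X, ← sub_mul,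
        ← kl3a_divX]
      ring
    have h3 : ‖X (a + b) - (Q.eval (Polynomial.C (X a))).eval (X b)‖ ≤ ε * ‖X b‖ := hQ2 a b
    have h4 : ‖X (a + 0) - (Q.eval (Polynomial.C (X a))).eval (X 0)‖ ≤ ε * ‖X b‖ := hQ2 a 0
    rw [add_zero, h.zero] at h4
    have h5 : (X (a + b) - X a) / X b - R.eval (X a) =
        ((X (a + b) - (Q.eval (Polynomial.C (X a))).eval (X b)) -
          (X a - (Q.eval (Polynomial.C (X a))).eval 0)) / X b := by
      rw [eq_div_iff hXb, sub_mul, div_mul_cancel₀ _ hXb, h2]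
      ring
    rw [h5, norm_div, div_le_iff₀ hn]
    rw [sub_eq_add_neg]
    refine (IsUltrametricDist.norm_add_le_max _ _).trans ?_
    rw [norm_neg]
    exact max_le h3 h4

end H35M
end
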