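import Mathlib
import Pool.Agent.Lib.H1M.PP2.M006
import Pool.Agent.Lib.H1M.PP2.M019
import Pool.Agent.Lib.H1M.PP2.M020
import Pool.Agent.Lib.H1M.PP2.M021

/-! Merged copies (to shorten the build) of Lib.H13S.CO1, Lib.H13S.LB, Lib.H55R.X7, Lib.H13S.LD1, Lib.H35M.KL3B, Lib.H35M.KL4, Lib.H35M.KL5A, Lib.SSG.F.D3, Lib.SSG.F.D4, Lib.SSG.F.D5. -/

-- from Lib.H13S.CO1
section

open NumberField IsDedekindDomain

namespace H13S

open H55P H28G H55B

/-- Chunk CO1 (S/M), pure group theory. A cocycle killed by l and vanishing on a subgroup of index prime to l is a coboundary: c (s n) = c s for n in N, so c is a function on the finite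
set G/N of left cosets; S = sum of c over G/N; a s S = sum (c (s g) - c s) = S - index * c s. With u * index = 1 modulo l: X = -u S. -/
theorem cob_of_vanish {G M : Type} [Group G] [AddCommGroup M] (a : G → M →+ M)
    (ha : ∀ s t m, a (s * t) m = a s (a t m)) (c : G → M) (hc : ∀ s t, c (s * t) = c s + a s (c t))
    (N : Subgroup G) (hN : N.index ≠ 0) (h0 : ∀ n ∈ N, c n = 0) (l : ℕ) (hl : l.Coprime N.index)
    (hlc : ∀ s, l • c s = 0) (B : AddSubgroup M) (hB : ∀ s, c s ∈ B) :
    ∃ X ∈ B, ∀ s, c s = a s X - X := by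
  classical
  have hfin : Finite (G ⧸ N) := Subgroup.index_ne_zero_iff_finite.1 hN
  have hft : Fintype (G ⧸ N) := Fintype.ofFinite _
  have hwd : ∀ x y : G, (QuotientGroup.leftRel N) x y → c x = c y := by
    intro x y h
    rw [QuotientGroup.leftRel_apply] at h
    have h1 := hc x (x⁻¹ * y)
    rw [h0 _ h, map_zero, add_zero, mul_inv_cancel_left] at h1
    exact h1.symm
  set cb : G ⧸ N → M := Quotient.lift c hwd with hcb
  have hcbm : ∀ g : G, cb (g : G ⧸ N) = c g := fun g => rfl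
  have key : ∀ (s : G) (x : G ⧸ N), a s (cb x) = cb (s • x) - c s := by
    intro s x
    induction x using QuotientGroup.induction_on with
    | H g =>
      change a s (c g) = c (s * g) - c s
      rw [hc, add_sub_cancel_left]
  set S : M := ∑ x : G ⧸ N, cb x with hS
  have hcard : Fintype.card (G ⧸ N) = N.index := by
    rw [← Nat.card_eq_fintype_card]
    rfl
  have hsum : ∀ s, a s S = S - N.index • c s := by
    intro s
    rw [hS, map_sum]
    simp only [key]
    rw [Finset.sum_sub_distrib, Finset.sum_const, Finset.card_univ, hcard]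
    congr 1
    exact Fintype.sum_equiv (MulAction.toPerm s) _ _ fun x => rfl
  have hSB : S ∈ B := AddSubgroup.sum_mem _ fun x _ => by
    induction x using QuotientGroup.induction_on with
    | H g => exact hB g
  have hcop : IsCoprime (l : ℤ) (N.index : ℤ) := Nat.isCoprime_iff_coprime.2 hl
  obtain ⟨v, u, huv⟩ := hcop
  refine ⟨-(u • S), B.neg_mem (B.zsmul_mem hSB u), fun s => ?_⟩
  rw [map_neg, map_zsmul, hsum, smul_sub]
  have h1 : (u * (N.index : ℤ)) • c s = c s := by
    have h2 : u * (N.index : ℤ) = 1 - v * l := by linarith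
    rw [h2, sub_smul, one_smul, mul_smul, natCast_zsmul, hlc, smul_zero, sub_zero]
  rw [mul_smul, natCast_zsmul] at h1
  rw [h1]
  abel

end H13S
end

-- from Lib.H13S.LB
section

open NumberField IsDedekindDomain

namespace H13S

open H55P H28G H55B

section lbaux

variable {F₀ : Type} [Field F₀] {Ω : Type} [Field Ω] [Algebra F₀ Ω] {V : ValuationSubring Ω}

private theorem lb_mem {s : Ω ≃ₐ[F₀] Ω} (h : Inert V s) {x : Ω} (hx : x ∈ V) : s x ∈ V := by
  have h1 : s x - x ∈ V := (V.valuation_le_one_iff _).1 (h x hx).le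
  have h2 := V.add_mem _ _ h1 hx
  rwa [sub_add_cancel] at h2

private theorem lb_mem' {s : Ω ≃ₐ[F₀] Ω} (h : Inert V s) {x : Ω} (hx : s x ∈ V) : x ∈ V := by
  by_contra hcon
  have h1 : 1 < V.valuation x := by
    rw [← not_le, V.valuation_le_one_iff]
    exact hcon
  have x0 : V.valuation x ≠ 0 := (zero_lt_one.trans h1).ne'
  have h2 : V.valuation x⁻¹ < 1 := by
    rw [map_inv₀]
    exact inv_lt_one_of_one_lt₀ h1
  have h3 := h x⁻¹ ((V.valuation_le_one_iff _).1 h2.le)
  have h4 : V.valuation (s x⁻¹) < 1 := by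
    have h5 := V.valuation.map_add_lt h3 h2
    rwa [sub_add_cancel] at h5
  rw [map_inv₀ s, map_inv₀] at h4
  have h6 : V.valuation (s x) ≤ 1 := (V.valuation_le_one_iff _).2 hx
  have hx0 : x ≠ 0 := by
    rintro rfl
    exact x0 (map_zero _)
  have h7 : V.valuation (s x) ≠ 0 := (V.valuation.ne_zero_iff).2 ((map_ne_zero s).2 hx0)
  exact absurd h4 (not_lt.2 ((one_le_inv₀ (zero_lt_iff.2 h7)).2 h6))

private theorem lb_mul {s t : Ω ≃ₐ[F₀] Ω} (hs : Inert V s) (ht : Inert V t) : Inert V (s * t) := by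
  intro x hx
  have h1 := hs (t x) (lb_mem ht hx)
  have h2 := ht x hx
  have h3 := V.valuation.map_add_lt h1 h2
  rw [sub_add_sub_cancel] at h3
  exact h3

private theorem lb_inv {s : Ω ≃ₐ[F₀] Ω} (hs : Inert V s) : Inert V s⁻¹ := by
  intro x hx
  have h1 : s (s⁻¹ x) = x := by
    rw [← AlgEquiv.mul_apply, mul_inv_cancel, AlgEquiv.one_apply]
  have h2 : s⁻¹ x ∈ V := lb_mem' hs (by rw [h1]; exact hx)
  have h3 := hs _ h2
  rw [h1] at h3
  rw [← Valuation.map_neg, neg_sub]
  exact h3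

private theorem lb_pow {s : Ω ≃ₐ[F₀] Ω} (hs : Inert V s) (n : ℕ) : Inert V (s ^ n) := by
  induction n with
  | zero =>
    intro x _
    rw [pow_zero, AlgEquiv.one_apply, sub_self, map_zero]
    exact zero_lt_one
  | succ n ih =>
    rw [pow_succ]
    exact lb_mul ih hs

end lbaux

private theorem lb_shift {M : Type} [AddCommGroup M] (f : ℕ → M) (l : ℕ) (hf : ∀ i, f (i + l) = f i) (k : ℕ) :
    ∑ i ∈ Finset.range l, f (i + k) = ∑ i ∈ Finset.range l, f i := by
  induction k with
  | zero => rfl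
  | succ k ih =>
    rw [← ih]
    have h1 := Finset.sum_range_succ' (fun i => f (i + k)) l
    have h2 := Finset.sum_range_succ (fun i => f (i + k)) l
    rw [h2] at h1
    have h3 : f (l + k) = f (0 + k) := by
      rw [add_comm l k, hf, zero_add]
    have h4 : ∀ i, f (i + 1 + k) = f (i + (k + 1)) := fun i => by
      congr 1
      ring
    simp only [h4, h3] at h1
    exact (add_right_cancel h1).symm

/-- Chunk LB (M). Step B: decomposition of the elements fixed by the stabilizer of y. I = {s in L.fixingSubgroup : Inert V s} is a subgroup. If s y = y for all s in I: g 0 = a, g j = 0. Otherwise choose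
σ in I, σ y = zeta y, zeta ≠ 1, zeta^l = 1 (y^l in L), zeta in L by hμ, so zeta is fixed by I and primitive. e_j = (1/l) sum over i < l of zeta^(-i j) σ^i a. For s in I: s y = zeta^k y for some k, h = σ^(-k) s
fixes y, so σ^(-i) h σ^i fixes y as well and fixes a: s σ^i a = σ^(k+i) a, and σ^l a = a: s e_j = zeta^(k j) e_j, sum of the e_j over j < l is a. g j = e_j/y^j is fixed by I. -/
theorem step_b {F₀ : Type} [Field F₀] {Ω : Type} [Field Ω] [CharZero Ω] [Algebra F₀ Ω]
    (L : IntermediateField F₀ Ω) (V : ValuationSubring Ω) (l : ℕ) (hl : l.Prime)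
    (hμ : ∀ ζ : Ω, ζ ^ l = 1 → ζ ∈ L) (y : Ω) (hy0 : y ≠ 0) (hy : y ^ l ∈ L) (a : Ω)
    (ha : ∀ s ∈ L.fixingSubgroup, Inert V s → s y = y → s a = a) :
    ∃ g : ℕ → Ω, (∀ j, ∀ s ∈ L.fixingSubgroup, Inert V s → s (g j) = g j) ∧
      a = ∑ j ∈ Finset.range l, g j * y ^ j := by
  have hl0 : 0 < l := hl.pos
  have hnz : NeZero l := ⟨hl0.ne'⟩
  have hΩl : (l : Ω) ≠ 0 := Nat.cast_ne_zero.2 hl0.ne'
  by_cases hall : ∀ s ∈ L.fixingSubgroup, Inert V s → s y = y
  · refine ⟨fun j => if j = 0 then a else 0, fun j s hs hi => ?_, ?_⟩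
    · by_cases hj : j = 0
      · simp only [hj, if_true]
        exact ha s hs hi (hall s hs hi)
      · simp only [hj, if_false, map_zero]
    · rw [Finset.sum_eq_single 0]
      · simp
      · intro j _ hj
        simp [hj]
      · intro h
        exact absurd (Finset.mem_range.2 hl0) h
  push Not at hall
  obtain ⟨σ, hσL, hσI, hσy⟩ := hall
  have hfixL : ∀ s ∈ L.fixingSubgroup, ∀ x ∈ L, s x = x := fun s hs x hx =>
    (IntermediateField.mem_fixingSubgroup_iff _ _).1 hs x hx
  -- roots of unity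
  have hroot : ∀ s ∈ L.fixingSubgroup, (s y / y) ^ l = 1 := by
    intro s hs
    rw [div_pow, ← map_pow, hfixL s hs _ hy, div_self (pow_ne_zero l hy0)]
  set ζ : Ω := σ y / y with hζ
  have hζl : ζ ^ l = 1 := hroot σ hσL
  have hζ1 : ζ ≠ 1 := fun h => hσy (by rw [hζ, div_eq_one_iff_eq hy0] at h; exact h)
  have hζ0 : ζ ≠ 0 := fun h => by
    rw [h, zero_pow hl0.ne'] at hζl
    exact zero_ne_one hζl
  have hprim : IsPrimitiveRoot ζ l := by
    have hfact := Fact.mk hl
    have h1 := orderOf_eq_prime hζl hζ1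
    rw [← h1]
    exact IsPrimitiveRoot.orderOf ζ
  have hζL : ζ ∈ L := hμ ζ hζl
  have hσy' : ∀ i : ℕ, (σ ^ i) y = ζ ^ i * y := by
    intro i
    induction i with
    | zero => simp
    | succ i ih =>
      rw [pow_succ', AlgEquiv.mul_apply, ih, map_mul, map_pow, hfixL σ hσL ζ hζL]
      have : σ y = ζ * y := by rw [hζ, div_mul_cancel₀ _ hy0]
      rw [this]
      ring
  have hσLp : ∀ i : ℕ, σ ^ i ∈ L.fixingSubgroup := fun i => L.fixingSubgroup.pow_mem hσL i
  -- `s` acts as a power of `σ` on the conjugates of `a`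
  have hact : ∀ s ∈ L.fixingSubgroup, Inert V s → ∃ k : ℕ, s y = ζ ^ k * y ∧ ∀ i : ℕ, s ((σ ^ i) a) = (σ ^ (i + k)) a := by
    intro s hs hi
    obtain ⟨k, -, hk⟩ := hprim.eq_pow_of_pow_eq_one (hroot s hs)
    have hsy : s y = ζ ^ k * y := by rw [hk, div_mul_cancel₀ _ hy0]
    refine ⟨k, hsy, fun i => ?_⟩
    set h : Ω ≃ₐ[F₀] Ω := (σ ^ k)⁻¹ * s with hh
    have hhL : h ∈ L.fixingSubgroup := L.fixingSubgroup.mul_mem (L.fixingSubgroup.inv_mem (hσLp k)) hs
    have hhI : Inert V h := lb_mul (lb_inv (lb_pow hσI k)) hi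
    have hsh : s = σ ^ k * h := by rw [hh, mul_inv_cancel_left]
    have hhy : h y = y := by
      rw [hh, AlgEquiv.mul_apply, hsy, ← hσy' k, ← AlgEquiv.mul_apply, inv_mul_cancel, AlgEquiv.one_apply]
    have hhi : h ((σ ^ i) a) = (σ ^ i) a := by
      have h1 : ((σ ^ i)⁻¹ * h * σ ^ i) y = y := by
        rw [AlgEquiv.mul_apply, AlgEquiv.mul_apply, hσy' i, map_mul, map_pow, hfixL h hhL ζ hζL, hhy, ← hσy' i,
          ← AlgEquiv.mul_apply, inv_mul_cancel, AlgEquiv.one_apply]
      have h2 := ha ((σ ^ i)⁻¹ * h * σ ^ i)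
        (L.fixingSubgroup.mul_mem (L.fixingSubgroup.mul_mem (L.fixingSubgroup.inv_mem (hσLp i)) hhL) (hσLp i))
        (lb_mul (lb_mul (lb_inv (lb_pow hσI i)) hhI) (lb_pow hσI i)) h1
      rw [AlgEquiv.mul_apply, AlgEquiv.mul_apply] at h2
      have h3 : (σ ^ i) ((σ ^ i)⁻¹ (h ((σ ^ i) a))) = (σ ^ i) a := by rw [h2]
      rwa [← AlgEquiv.mul_apply, mul_inv_cancel, AlgEquiv.one_apply] at h3
    rw [hsh, AlgEquiv.mul_apply, hhi, ← AlgEquiv.mul_apply, ← pow_add, add_comm]
  have hσl : (σ ^ l) a = a := by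
    refine ha _ (hσLp l) (lb_pow hσI l) ?_
    rw [hσy' l, hζl, one_mul]
  set f : ℕ → ℕ → Ω := fun j i => (ζ⁻¹) ^ (i * j) * (σ ^ i) a with hf
  have hper : ∀ j i, f j (i + l) = f j i := by
    intro j i
    simp only [hf]
    rw [pow_add, AlgEquiv.mul_apply, hσl, add_mul, pow_add, pow_mul (ζ⁻¹) l j, inv_pow ζ l, hζl, inv_one, one_pow, mul_one]
  set e : ℕ → Ω := fun j => (l : Ω)⁻¹ * ∑ i ∈ Finset.range l, f j i with he
  have hes : ∀ j, ∀ s ∈ L.fixingSubgroup, ∀ k : ℕ, (∀ i : ℕ, s ((σ ^ i) a) = (σ ^ (i + k)) a) →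
      s (e j) = (ζ ^ k) ^ j * e j := by
    intro j s hs k hk
    simp only [he]
    rw [map_mul, map_inv₀, map_natCast, map_sum]
    have h1 : ∀ i, s (f j i) = (ζ ^ k) ^ j * f j (i + k) := by
      intro i
      simp only [hf]
      rw [map_mul, map_pow, map_inv₀, hfixL s hs ζ hζL, hk, ← mul_assoc]
      congr 1
      rw [add_mul, pow_add, ← pow_mul]
      have h2 : ζ ^ (k * j) * (ζ⁻¹) ^ (k * j) = 1 := by
        rw [← mul_pow, mul_inv_cancel₀ hζ0, one_pow]
      linear_combination (-(ζ⁻¹) ^ (i * j)) * h2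
    simp only [h1]
    rw [← Finset.mul_sum, lb_shift (f j) l (hper j) k]
    ring
  refine ⟨fun j => e j / y ^ j, fun j s hs hi => ?_, ?_⟩
  · obtain ⟨k, hk1, hk2⟩ := hact s hs hi
    simp only
    rw [map_div₀, map_pow, hes j s hs k hk2, hk1, mul_pow, mul_div_mul_left _ _ (pow_ne_zero j (pow_ne_zero k hζ0))]
  · have h1 : ∀ j ∈ Finset.range l, e j / y ^ j * y ^ j = e j := fun j _ => div_mul_cancel₀ _ (pow_ne_zero j hy0)
    rw [Finset.sum_congr rfl h1]
    simp only [he]
    rw [← Finset.mul_sum, Finset.sum_comm]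
    have h2 : ∀ i ∈ Finset.range l, ∑ j ∈ Finset.range l, f j i = if i = 0 then (l : Ω) * a else 0 := by
      intro i hi
      simp only [hf]
      rw [← Finset.sum_mul]
      by_cases hi0 : i = 0
      · rw [hi0]
        simp
      · rw [if_neg hi0]
        have h3 : (ζ⁻¹) ^ i ≠ 1 := by
          intro h
          rw [inv_pow, inv_eq_one] at h
          exact hprim.pow_ne_one_of_pos_of_lt hi0 (Finset.mem_range.1 hi) h
        have h4 : (∑ j ∈ Finset.range l, ((ζ⁻¹) ^ i) ^ j) * ((ζ⁻¹) ^ i - 1) = 0 := by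
          rw [geom_sum_mul, ← pow_mul, mul_comm i l, pow_mul, inv_pow ζ l, hζl, inv_one, one_pow, sub_self]
        have h5 := (mul_eq_zero.1 h4).resolve_right (sub_ne_zero.2 h3)
        simp only [pow_mul]
        rw [h5, zero_mul]
    rw [Finset.sum_congr rfl h2, Finset.sum_ite_eq' (Finset.range l) 0 fun _ => (l : Ω) * a,
      if_pos (Finset.mem_range.2 hl0), ← mul_assoc, inv_mul_cancel₀ hΩl, one_mul]

end H13S
end

-- from Lib.H55R.X7
section

open NumberField IsDedekindDomain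
open scoped Pointwise

namespace H55R

/-! Chunk X7 (M): Frobenius elements of an abelian extension N/K at an unramified prime v. Let W be above v, g an arithmetic Frobenius at W (Mathlib:
IsArithFrobAt, IsArithFrobAt.exists_of_isInvariant, arithFrobAt): g x = x^q mod W for x in 𝓞 N, q = absNorm v; g is in the stabiliser D of W (mem_stabilizer). The
inertia group is trivial (Ideal.card_inertia_eq_ramificationIdxIn), so |D| = f (card_stab), D injects into the automorphisms of the finite field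
𝓞 N / W over 𝓞 K / v (a field with q elements, extension of degree f), and g maps to the q-power Frobenius, of order f: so D is generated by g. The
stabilisers of the other primes above v are conjugate, hence equal to D (commutative). So SplA A v iff D <= A iff g is in A.
Roots of unity: g ζ = ζ^a, and ζ^a - ζ^q is in W. If ζ^a <> ζ^q, then p is in W (p = product of the 1 - ζ^i, 0 < i < p, up to units:
IsPrimitiveRoot; or X^p - 1 is separable modulo W), so p is in v, excluded. -/

theorem X7_inj {K N : Type} [Field K] [NumberField K] [Field N] [NumberField N] [Algebra K N]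
    [IsGalois K N] (v : Pl K) (hv : es K N v = 1) (W : Pl N) [hl : W.asIdeal.LiesOver v.asIdeal]
    [hc : SMulCommClass Gal(N/K) (𝓞 K) (𝓞 N)] :
    Function.Injective (Ideal.Quotient.stabilizerHom W.asIdeal v.asIdeal Gal(N/K)) := by
  have hW := W.isPrime
  have hp := v.isPrime
  rw [injective_iff_map_eq_one]
  intro σ hσ
  have h1 : (σ : Gal(N/K)) ∈ W.asIdeal.inertia Gal(N/K) := by
    rw [← Ideal.Quotient.map_ker_stabilizer_subtype W.asIdeal v.asIdeal Gal(N/K)]
    exact ⟨σ, hσ, rfl⟩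
  have h2 : Nat.card (W.asIdeal.inertia Gal(N/K)) = 1 := by
    rw [Ideal.card_inertia_eq_ramificationIdxIn (G := Gal(N/K)) v.asIdeal W.asIdeal]
    exact hv
  rw [Subgroup.card_eq_one.1 h2, Subgroup.mem_bot] at h1
  exact Subtype.ext h1

theorem X7_pow {K N : Type} [Field K] [NumberField K] [Field N] [NumberField N] [Algebra K N]
    [IsGalois K N] (v : Pl K) (hv : es K N v = 1) (W : Pl N) [hl : W.asIdeal.LiesOver v.asIdeal]
    [hc : SMulCommClass Gal(N/K) (𝓞 K) (𝓞 N)] (g : Gal(N/K)) (hg : IsArithFrobAt (𝓞 K) g W.asIdeal)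
    (σ : Gal(N/K)) (hσ : σ • W.asIdeal = W.asIdeal) : ∃ n : ℕ, σ = g ^ n := by
  have hW := W.isPrime
  have hp := v.isPrime
  have hWm := W.isMaximal
  have hpm := v.isMaximal
  have hfin : Finite (𝓞 N ⧸ W.asIdeal) := Ideal.finiteQuotientOfFreeOfNeBot _ W.ne_bot
  have hfin' : Finite (𝓞 K ⧸ v.asIdeal) := Ideal.finiteQuotientOfFreeOfNeBot _ v.ne_bot
  let _ := Ideal.Quotient.field v.asIdeal
  let _ := Ideal.Quotient.field W.asIdeal
  let _ := Fintype.ofFinite (𝓞 K ⧸ v.asIdeal)
  have hgs := hg.mem_stabilizer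
  obtain ⟨⟨n, hn⟩, hn2⟩ := (FiniteField.bijective_frobeniusAlgEquivOfAlgebraic_pow (𝓞 K ⧸ v.asIdeal)
    (𝓞 N ⧸ W.asIdeal)).2 (Ideal.Quotient.stabilizerHom W.asIdeal v.asIdeal Gal(N/K) ⟨σ, hσ⟩)
  have hF : Ideal.Quotient.stabilizerHom W.asIdeal v.asIdeal Gal(N/K) ⟨g, hgs⟩ =
      FiniteField.frobeniusAlgEquivOfAlgebraic (𝓞 K ⧸ v.asIdeal) (𝓞 N ⧸ W.asIdeal) := by
    apply AlgEquiv.ext
    intro y
    obtain ⟨x, rfl⟩ := Ideal.Quotient.mk_surjective y
    rw [FiniteField.coe_frobeniusAlgEquivOfAlgebraic]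
    have h1 := hg.mk_apply x
    rw [← hl.over, Nat.card_eq_fintype_card] at h1
    exact h1
  refine ⟨n, ?_⟩
  have h2 : Ideal.Quotient.stabilizerHom W.asIdeal v.asIdeal Gal(N/K) ⟨σ, hσ⟩ =
      Ideal.Quotient.stabilizerHom W.asIdeal v.asIdeal Gal(N/K) (⟨g, hgs⟩ ^ n) := by
    rw [map_pow, hF]
    exact hn2.symm
  exact congrArg Subtype.val (X7_inj v hv W h2)

theorem exists_frob (K N : Type) [Field K] [NumberField K] [Field N] [NumberField N] [Algebra K N]
    [IsGalois K N] (hc : ∀ g h : Gal(N/K), g * h = h * g) (v : Pl K) (hv : es K N v = 1) :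
    ∃ g : Gal(N/K), (∀ A : Subgroup Gal(N/K), SplA A v ↔ g ∈ A) ∧
      ∀ (p : ℕ) (ζ : N), p.Prime → IsPrimitiveRoot ζ p → (p : 𝓞 K) ∉ v.asIdeal →
        g ζ = ζ ^ Ideal.absNorm v.asIdeal := by
  classical
  have hcomm := BF1_comm (K := K) (L := N)
  obtain ⟨W, hW⟩ := under_exists (L := N) v
  have hl : W.asIdeal.LiesOver v.asIdeal := (BF2_mem v W hW).2
  have hWp := W.isPrime
  have hfin : Finite (𝓞 N ⧸ W.asIdeal) := Ideal.finiteQuotientOfFreeOfNeBot _ W.ne_bot
  obtain ⟨g, hg⟩ := IsArithFrobAt.exists_of_isInvariant (𝓞 K) Gal(N/K) W.asIdeal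
  refine ⟨g, fun A => ⟨fun h => h W hW g hg.mem_stabilizer, fun h => ?_⟩, ?_⟩
  · intro W' hW' σ hσ
    obtain ⟨τ, hτ⟩ := smulP_trans W W' (hW.trans hW'.symm)
    have h1 : W'.asIdeal = τ • W.asIdeal := (congrArg HeightOneSpectrum.asIdeal hτ).symm
    rw [h1, ← mul_smul, hc σ τ, mul_smul] at hσ
    have h2 := smul_left_cancel τ hσ
    obtain ⟨n, hn⟩ := X7_pow v hv W g hg σ h2
    rw [hn]
    exact A.pow_mem h n
  · intro p ζ hp hζ hpv
    have hint : IsIntegral ℤ ζ := hζ.isIntegral hp.pos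
    obtain ⟨z, hz⟩ : ∃ z : 𝓞 N, (z : N) = ζ := ⟨⟨ζ, hint⟩, rfl⟩
    have hz1 : z ^ p = 1 := by
      apply RingOfIntegers.coe_injective
      rw [map_pow, map_one]
      change (z : N) ^ p = 1
      rw [hz, hζ.pow_eq_one]
    have hpW : (p : 𝓞 N) ∉ W.asIdeal := by
      intro h
      apply hpv
      rw [hl.over, Ideal.under, Ideal.mem_comap, map_natCast]
      exact h
    have h1 := AlgHom.IsArithFrobAt.apply_of_pow_eq_one hg hz1 hpW
    have h2 : g • z = z ^ Ideal.absNorm v.asIdeal := by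
      rw [Ideal.absNorm_apply, Submodule.cardQuot_apply, hl.over]
      exact h1
    have h3 : ((g • z : 𝓞 N) : N) = ((z ^ Ideal.absNorm v.asIdeal : 𝓞 N) : N) := by rw [h2]
    rw [BF1_coe, hz] at h3
    rw [h3, ← hz]
    exact map_pow (algebraMap (𝓞 N) N) z _

end H55R
end

-- from Lib.H13S.LD1
section

open NumberField IsDedekindDomain

namespace H13S

open H55P H28G H55B

/-- Chunk LD1 (M). f = prod over J of (X - C (α R)), a = coefficients, integral (V.valuation ≤ 1: coefficients of a product of integral polynomials, induction on J) and fixed by H (s permutes the factors, hperm: Polynomial.map s f = f by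
Finset.prod_bij or prod_equiv with R -> R + d). Then every coefficient satisfies hb, so V.valuation (s₁ a_n - a_n)^n₀ ≤ B. f(x) = 0 for x = α 0, (map s₁ f)(x) = prod (x - s₁ (α R)) = (map s₁ f)(x) - f(x) = sum of (s₁ a_n - a_n) x^n. The value of the sum is at
most the value of one of the terms (Finset.exists_max_image, Valuation.map_sum_le), so its n₀-th power is ≤ B. -/
theorem prod_bound {Ω M : Type} [Field Ω] [AddCommGroup M] (V : ValuationSubring Ω) (J : Finset M)
    (h0 : (0 : M) ∈ J) (α : M → Ω) (hα : ∀ R ∈ J, V.valuation (α R) ≤ 1) (H : Set (Ω ≃+* Ω))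
    (hperm : ∀ s ∈ H, ∃ d : M, (∀ R ∈ J, s (α R) = α (R + d)) ∧ ∀ R, R ∈ J ↔ R + d ∈ J)
    (s₁ : Ω ≃+* Ω) (n₀ : ℕ) (B : V.ValueGroup)
    (hb : ∀ a : Ω, V.valuation a ≤ 1 → (∀ s ∈ H, s a = a) → V.valuation (s₁ a - a) ^ n₀ ≤ B) :
    V.valuation (∏ R ∈ J, (α 0 - s₁ (α R))) ^ n₀ ≤ B := by
  classical
  let f : Polynomial Ω := ∏ R ∈ J, (Polynomial.X - Polynomial.C (α R))
  -- integrality of coefficients
  have hint : ∀ n, V.valuation (f.coeff n) ≤ 1 := by
    intro n
    let β : M → V := fun R => if h : R ∈ J then ⟨α R, (V.valuation_le_one_iff _).1 (hα R h)⟩ else 0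
    have hβ : ∀ R ∈ J, ((β R : V) : Ω) = α R := by
      intro R hR
      change ((if h : R ∈ J then (⟨α R, (V.valuation_le_one_iff _).1 (hα R h)⟩ : V) else 0 : V) : Ω) = _
      rw [dif_pos hR]
    let f0 : Polynomial V := ∏ R ∈ J, (Polynomial.X - Polynomial.C (β R))
    have hf0 : f0.map V.subtype = f := by
      rw [Polynomial.map_prod]
      refine Finset.prod_congr rfl fun R hR => ?_
      rw [Polynomial.map_sub, Polynomial.map_X, Polynomial.map_C]
      congr 2
      exact hβ R hR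
    rw [← hf0, Polynomial.coeff_map]
    exact (V.valuation_le_one_iff _).2 (f0.coeff n).2
  have hmap : ∀ s : Ω ≃+* Ω, f.map (s : Ω →+* Ω) =
      ∏ R ∈ J, (Polynomial.X - Polynomial.C (s (α R))) := by
    intro s
    rw [Polynomial.map_prod]
    refine Finset.prod_congr rfl fun R hR => ?_
    rw [Polynomial.map_sub, Polynomial.map_X, Polynomial.map_C]
    rfl
  have hfix : ∀ s ∈ H, ∀ n, s (f.coeff n) = f.coeff n := by
    intro s hs n
    obtain ⟨d, hd1, hd2⟩ := hperm s hs
    have h1 : f.map (s : Ω →+* Ω) = f := by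
      rw [hmap s]
      refine Finset.prod_bij (fun R _ => R + d) (fun R hR => (hd2 R).1 hR)
        (fun R _ R' _ h => add_right_cancel h) ?_ ?_
      · intro R hR
        refine ⟨R - d, ?_, sub_add_cancel R d⟩
        rw [hd2, sub_add_cancel]
        exact hR
      · intro R hR
        rw [hd1 R hR]
    have h2 := congrArg (fun p : Polynomial Ω => p.coeff n) h1
    simp only [Polynomial.coeff_map] at h2
    exact h2
  have hev : ∏ R ∈ J, (α 0 - s₁ (α R)) =
      ∑ n ∈ Finset.range (f.natDegree + 1), (s₁ (f.coeff n) - f.coeff n) * α 0 ^ n := by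
    have h1 : (f.map (s₁ : Ω →+* Ω)).eval (α 0) = ∏ R ∈ J, (α 0 - s₁ (α R)) := by
      rw [hmap s₁, Polynomial.eval_prod]
      refine Finset.prod_congr rfl fun R hR => ?_
      simp
    have h2 : f.eval (α 0) = 0 := by
      change (∏ R ∈ J, (Polynomial.X - Polynomial.C (α R))).eval (α 0) = 0
      rw [Polynomial.eval_prod]
      refine Finset.prod_eq_zero h0 ?_
      simp
    have h3 : (f.map (s₁ : Ω →+* Ω)).eval (α 0) =
        ∑ n ∈ Finset.range (f.natDegree + 1), s₁ (f.coeff n) * α 0 ^ n := by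
      rw [Polynomial.eval_map, Polynomial.eval₂_eq_sum_range]
      rfl
    have h4 : f.eval (α 0) = ∑ n ∈ Finset.range (f.natDegree + 1), f.coeff n * α 0 ^ n :=
      Polynomial.eval_eq_sum_range _
    rw [← h1, ← sub_zero (Polynomial.eval _ _), ← h2, h3, h4, ← Finset.sum_sub_distrib]
    refine Finset.sum_congr rfl fun n _ => ?_
    ring
  rw [hev]
  have hne : (Finset.range (f.natDegree + 1)).Nonempty := ⟨0, by simp⟩
  obtain ⟨k, hk, hmax⟩ := Finset.exists_max_image (Finset.range (f.natDegree + 1))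
    (fun n => V.valuation ((s₁ (f.coeff n) - f.coeff n) * α 0 ^ n)) hne
  have h5 : V.valuation (∑ n ∈ Finset.range (f.natDegree + 1),
      (s₁ (f.coeff n) - f.coeff n) * α 0 ^ n) ≤ V.valuation (s₁ (f.coeff k) - f.coeff k) := by
    refine (V.valuation.map_sum_le hmax).trans ?_
    rw [map_mul, map_pow]
    have h6 : V.valuation (α 0) ^ k ≤ 1 := pow_le_one₀ zero_le (hα 0 h0)
    exact mul_le_of_le_one_right' h6
  exact (pow_le_pow_left₀ zero_le h5 n₀).trans (hb _ (hint k) fun s hs => hfix s hs k)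

end H13S
end

-- from Lib.H35M.KL3B
section

/-! # H35M, chunk KL3B (M): differences -/

namespace H35M

variable {C : Type} [NormedField C] [IsUltrametricDist C] {G : Type} [AddCommGroup G] [Finite G] {X : G → C}

/-- the ring of the elements of norm at most one -/
def kl3bO (C : Type) [NormedField C] [IsUltrametricDist C] : Subring C where
  carrier := {x | ‖x‖ ≤ 1}
  mul_mem' := by
    intro a b ha hb
    show ‖a * b‖ ≤ 1
    rw [norm_mul]
    exact mul_le_one₀ ha (norm_nonneg _) hb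
  one_mem' := by
    show ‖(1 : C)‖ ≤ 1
    rw [norm_one]
  add_mem' := by
    intro a b ha hb
    exact (IsUltrametricDist.norm_add_le_max a b).trans (max_le ha hb)
  zero_mem' := by
    show ‖(0 : C)‖ ≤ 1
    rw [norm_zero]
    exact zero_le_one
  neg_mem' := by
    intro a ha
    show ‖-a‖ ≤ 1
    rw [norm_neg]
    exact ha

omit [AddCommGroup G] [Finite G] in
theorem kl3b_lift1 {R : Polynomial C} (hR : ∀ i, ‖R.coeff i‖ ≤ 1) :
    ∃ R0 : Polynomial (kl3bO C), R0.map (kl3bO C).subtype = R := by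
  rw [← Polynomial.mem_lifts, Polynomial.lifts_iff_coeff_lifts]
  intro i
  exact ⟨⟨R.coeff i, hR i⟩, rfl⟩

omit [AddCommGroup G] [Finite G] in
theorem kl3b_lift2 {Q : Polynomial (Polynomial C)} (hQ : ∀ i j, ‖(Q.coeff i).coeff j‖ ≤ 1) :
    ∃ Q0 : Polynomial (Polynomial (kl3bO C)), Q0.map (Polynomial.mapRingHom (kl3bO C).subtype) = Q := by
  rw [← Polynomial.mem_lifts, Polynomial.lifts_iff_coeff_lifts]
  intro i
  obtain ⟨R0, hR0⟩ := kl3b_lift1 (hQ i)
  exact ⟨R0, hR0⟩

/-- Chunk KL3b (S/M). Substitute -X b for X b: Q with the inner variable replaced by its negative (Polynomial.comp (-X), or coefficients times (-1)^j). -/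
theorem FG.sub (h : FG X) : Fn2 X fun a b => X (a - b) := by
  intro ε hε
  obtain ⟨Q, hQ, hQ'⟩ := h.add ε hε
  obtain ⟨Q0, hQ0⟩ := kl3b_lift2 hQ
  have hx : ∀ a, X a ∈ kl3bO C := h.le
  refine ⟨(Q0.map (Polynomial.compRingHom (-Polynomial.X))).map (Polynomial.mapRingHom (kl3bO C).subtype),
    ?_, ?_⟩
  · intro i j
    rw [Polynomial.coeff_map, Polynomial.coe_mapRingHom, Polynomial.coeff_map]
    exact (((Q0.map (Polynomial.compRingHom (-Polynomial.X))).coeff i).coeff j).2
  · intro a b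
    have h1 := hQ' a (-b)
    dsimp only at h1 ⊢
    rw [← sub_eq_add_neg] at h1
    have e : (((Q0.map (Polynomial.compRingHom (-Polynomial.X))).map
        (Polynomial.mapRingHom (kl3bO C).subtype)).eval (Polynomial.C (X a))).eval (X b) =
        (Q.eval (Polynomial.C (X a))).eval (X (-b)) := by
      have h2 := Polynomial.map_mapRingHom_evalEval (kl3bO C).subtype
        (Q0.map (Polynomial.compRingHom (-Polynomial.X))) ⟨X b, hx b⟩ ⟨X a, hx a⟩
      have h3 := Polynomial.map_mapRingHom_evalEval (kl3bO C).subtype Q0 ⟨X (-b), hx (-b)⟩ ⟨X a, hx a⟩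
      rw [hQ0] at h3
      refine h2.trans (Eq.trans (congrArg _ ?_) h3.symm)
      have h4 := Polynomial.eval₂_at_apply (p := Q0) (Polynomial.compRingHom (-Polynomial.X))
        (Polynomial.C (⟨X a, hx a⟩ : kl3bO C))
      have h5 : Polynomial.compRingHom (-Polynomial.X) (Polynomial.C (⟨X a, hx a⟩ : kl3bO C)) =
          Polynomial.C (⟨X a, hx a⟩ : kl3bO C) := Polynomial.C_comp
      rw [h5] at h4
      show Polynomial.eval _ (Polynomial.eval _ _) = Polynomial.eval _ (Polynomial.eval _ _)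
      rw [Polynomial.eval_map, h4, Polynomial.coe_compRingHom_apply, Polynomial.eval_comp,
        Polynomial.eval_neg, Polynomial.eval_X]
      congr 1
      exact Subtype.ext (h.neg b).symm
    rw [e]
    exact h1

/-- Chunk KL3c (M). For g in Fn1 the function (a, b) -> g (a - b) is in Fn2: g is near R(X), R integral, R(X (a - b)): powers and sums of functions of Fn2 (prove Fn2 closed under constants of norm at most one, sums, products and limits as in KL2). -/
theorem FG.sub_fn (h : FG X) {g : G → C} (hg : Fn1 X g) : Fn2 X fun a b => g (a - b) := by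
  intro ε hε
  obtain ⟨R, hR, hR'⟩ := hg ε hε
  obtain ⟨R0, hR0⟩ := kl3b_lift1 hR
  obtain ⟨Q, hQ, hQ'⟩ := h.sub ε hε
  obtain ⟨Q0, hQ0⟩ := kl3b_lift2 hQ
  have hx : ∀ a, X a ∈ kl3bO C := h.le
  refine ⟨(R0.eval₂ (Polynomial.C.comp Polynomial.C) Q0).map (Polynomial.mapRingHom (kl3bO C).subtype),
    ?_, ?_⟩
  · intro i j
    rw [Polynomial.coeff_map, Polynomial.coe_mapRingHom, Polynomial.coeff_map]
    exact (((R0.eval₂ (Polynomial.C.comp Polynomial.C) Q0).coeff i).coeff j).2
  · intro a b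
    obtain ⟨x, hxa⟩ : ∃ x : kl3bO C, (x : C) = X a := ⟨⟨X a, hx a⟩, rfl⟩
    obtain ⟨y, hyb⟩ : ∃ y : kl3bO C, (y : C) = X b := ⟨⟨X b, hx b⟩, rfl⟩
    obtain ⟨z, hzab⟩ : ∃ z : kl3bO C, (z : C) = X (a - b) := ⟨⟨X (a - b), hx _⟩, rfl⟩
    have h2 := Polynomial.map_mapRingHom_evalEval (kl3bO C).subtype
      (R0.eval₂ (Polynomial.C.comp Polynomial.C) Q0) y x
    have h3 := Polynomial.map_mapRingHom_evalEval (kl3bO C).subtype Q0 y x
    rw [hQ0] at h3
    obtain ⟨q, hq⟩ : ∃ q : kl3bO C, q = Q0.evalEval y x := ⟨_, rfl⟩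
    have h4 : (R0.eval₂ (Polynomial.C.comp Polynomial.C) Q0).evalEval y x = R0.eval q := by
      rw [hq, ← Polynomial.coe_evalEvalRingHom, Polynomial.hom_eval₂]
      have h5 : ((Polynomial.evalEvalRingHom y x).comp
          (Polynomial.C.comp Polynomial.C)) = RingHom.id _ := by
        apply RingHom.ext
        intro t
        show Polynomial.eval _ (Polynomial.eval _ (Polynomial.C (Polynomial.C t))) = t
        rw [Polynomial.eval_C, Polynomial.eval_C]
      rw [h5]
      rfl
    obtain ⟨r1, hr1⟩ : ∃ r : kl3bO C, r = R0.eval z := ⟨_, rfl⟩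
    obtain ⟨r2, hr2⟩ : ∃ r : kl3bO C, r = R0.eval q := ⟨_, rfl⟩
    rw [h4, ← hr2] at h2
    rw [← hq] at h3
    have h6 : (((R0.eval₂ (Polynomial.C.comp Polynomial.C) Q0).map
        (Polynomial.mapRingHom (kl3bO C).subtype)).eval (Polynomial.C (X a))).eval (X b) =
        (r2 : C) := by
      rw [← hxa, ← hyb]
      exact h2
    have h7 := hR' (a - b)
    have h8 : R.eval (X (a - b)) = (r1 : C) := by
      rw [← hR0, ← hzab, hr1, Polynomial.eval_map]
      exact Polynomial.eval₂_at_apply (kl3bO C).subtype z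
    have h13 : (Q.eval (Polynomial.C (X a))).eval (X b) = (q : C) := by
      rw [← hxa, ← hyb]
      exact h3
    obtain ⟨w, hw⟩ := Polynomial.sub_dvd_eval_sub z q R0
    rw [← hr1, ← hr2] at hw
    have h9 : ‖(r1 : C) - (r2 : C)‖ ≤ ε := by
      have h11 : (r1 : C) - (r2 : C) = ((z : C) - (q : C)) * (w : C) :=
        congrArg (fun t : kl3bO C => (t : C)) hw
      have h12 := hQ' a b
      dsimp only at h12
      rw [h13, ← hzab] at h12
      rw [h11, norm_mul]
      have h14 : ‖(w : C)‖ ≤ 1 := w.2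
      calc _ ≤ ε * 1 := mul_le_mul h12 h14 (norm_nonneg _) hε.le
        _ = ε := mul_one _
    rw [h8] at h7
    dsimp only
    rw [h6]
    have h15 : g (a - b) - (r2 : C) = (g (a - b) - (r1 : C)) + ((r1 : C) - (r2 : C)) := by ring
    rw [h15]
    exact (IsUltrametricDist.norm_add_le_max _ _).trans (max_le h7 h9)

end H35M
end

-- from Lib.H35M.KL4
section

/-! # H35M, chunk KL4 (M): the trace -/

namespace H35M

variable {C : Type} [NormedField C] [IsUltrametricDist C] {G : Type} [AddCommGroup G] [Fintype G] [DecidableEq G] {X : G → C}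

omit [IsUltrametricDist C] [Fintype G] [DecidableEq G] in
theorem kl4_ne (h : FG X) {b : G} (hb : b ≠ 0) : X b ≠ 0 := fun h0 => hb (h.inj (h0.trans h.zero.symm))

omit [IsUltrametricDist C] in
theorem kl4_prod (h : FG X) (a : G) : ∏ b ∈ Finset.univ.erase a, (X a - X b) =
    (∏ b ∈ Finset.univ.erase (0 : G), (-1 : C)) * cX X * ∏ b ∈ Finset.univ.erase (0 : G), (X (a + b) - X a) / X b := by
  unfold cX
  rw [← Finset.prod_mul_distrib, ← Finset.prod_mul_distrib]
  symm
  refine Finset.prod_bij (fun b _ => a + b) ?_ ?_ ?_ ?_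
  · intro b hb
    rw [Finset.mem_erase] at hb ⊢
    refine ⟨fun h0 => hb.1 ?_, Finset.mem_univ _⟩
    exact add_eq_left.1 h0
  · intro b _ c _ hbc
    exact add_left_cancel hbc
  · intro c hc
    rw [Finset.mem_erase] at hc
    refine ⟨c - a, ?_, by abel⟩
    rw [Finset.mem_erase]
    exact ⟨fun h0 => hc.1 (sub_eq_zero.1 h0), Finset.mem_univ _⟩
  · intro b hb
    have h1 := kl4_ne h (Finset.mem_erase.1 hb).1
    field_simp
    ring

/-- Chunk KL4 (M). The sum of a function of Fn1 is divisible by c = prod of X b over b <> 0. PROOF. P'(X a) := prod over b <> a of (X a - X b) = prod over b <> 0 of (X a - X (a + b)) (reindex b -> a + b) = (-1)^(n-1) c v(a), v(a) = prod over b <> 0 of (X (a + b) - X a)/X b, v in Fn1 (FG.quo, Fn1.prod).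
sum_a g(a) = sum_a g(a) P'(X a)/P'(X a) = (-1)^(n-1) c sum_a (g v)(a)/P'(X a). g v is in Fn1: near Q(X) with error ε: sum Q(X a)/P'(X a) has norm at most one (lag_int), the rest at most ε max 1/‖P'(X a)‖; ε -> 0 (choose ε with ε/‖P'(X a)‖ <= 1 for all a). -/
theorem FG.trace (h : FG X) {g : G → C} (hg : Fn1 X g) : ‖∑ a, g a‖ ≤ ‖cX X‖ := by
  have hD : ∀ a, ∏ b ∈ Finset.univ.erase a, (X a - X b) ≠ 0 := by
    intro a
    rw [Finset.prod_ne_zero_iff]
    intro b hb h0
    exact (Finset.mem_erase.1 hb).1 (h.inj (sub_eq_zero.1 h0)).symm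
  have hv : Fn1 X fun a => g a * ∏ b ∈ Finset.univ.erase (0 : G), (X (a + b) - X a) / X b :=
    hg.mul h.le (Fn1.prod h.le _ (fun b hb => h.quo (Finset.mem_erase.1 hb).1))
  have hs : ∑ a, g a = (∏ b ∈ Finset.univ.erase (0 : G), (-1 : C)) * cX X *
      ∑ a, (g a * ∏ b ∈ Finset.univ.erase (0 : G), (X (a + b) - X a) / X b) /
        ∏ b ∈ Finset.univ.erase a, (X a - X b) := by
    rw [Finset.mul_sum]
    refine Finset.sum_congr rfl (fun a _ => ?_)
    have h1 := kl4_prod h a
    have h2 : (∏ b ∈ Finset.univ.erase (0 : G), (-1 : C)) * cX X *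
        ((g a * ∏ b ∈ Finset.univ.erase (0 : G), (X (a + b) - X a) / X b) /
          ∏ b ∈ Finset.univ.erase a, (X a - X b)) = g a * ((∏ b ∈ Finset.univ.erase (0 : G), (-1 : C)) * cX X *
        (∏ b ∈ Finset.univ.erase (0 : G), (X (a + b) - X a) / X b)) /
          ∏ b ∈ Finset.univ.erase a, (X a - X b) := by ring
    rw [h2, ← h1, mul_div_assoc, div_self (hD a), mul_one]
  have h1 : ‖∏ b ∈ Finset.univ.erase (0 : G), (-1 : C)‖ = 1 := by
    rw [Finset.prod_const, norm_pow, norm_neg, norm_one, one_pow]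
  rw [hs, norm_mul, norm_mul, h1, one_mul]
  refine mul_le_of_le_one_right (norm_nonneg _) ?_
  obtain ⟨a0, -, ha0⟩ := Finset.exists_min_image Finset.univ
    (fun a => ‖∏ b ∈ Finset.univ.erase a, (X a - X b)‖) ⟨(0 : G), Finset.mem_univ _⟩
  obtain ⟨Q, hQ, hQ'⟩ := hv _ (norm_pos_iff.2 (hD a0))
  have e : ∑ a, (g a * ∏ b ∈ Finset.univ.erase (0 : G), (X (a + b) - X a) / X b) /
        ∏ b ∈ Finset.univ.erase a, (X a - X b) =
      ∑ a, Q.eval (X a) / ∏ b ∈ Finset.univ.erase a, (X a - X b) +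
      ∑ a, (g a * (∏ b ∈ Finset.univ.erase (0 : G), (X (a + b) - X a) / X b) - Q.eval (X a)) /
        ∏ b ∈ Finset.univ.erase a, (X a - X b) := by
    rw [← Finset.sum_add_distrib]
    refine Finset.sum_congr rfl (fun a _ => ?_)
    ring
  rw [e]
  refine (IsUltrametricDist.norm_add_le_max _ _).trans (max_le (lag_int h.inj h.le hQ) ?_)
  refine IsUltrametricDist.norm_sum_le_of_forall_le_of_nonneg zero_le_one (fun a _ => ?_)
  rw [norm_div]
  exact div_le_one_of_le₀ ((hQ' a).trans (ha0 a (Finset.mem_univ a))) (norm_nonneg _)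

end H35M
end

-- from Lib.H35M.KL5A
section

/-! # H35M, chunk KL5A (M): convolution -/

namespace H35M

variable {C : Type} [NormedField C] [IsUltrametricDist C] {G : Type} [AddCommGroup G] [Fintype G] [DecidableEq G] {X : G → C}

/-- Chunk KL5a (M). The convolution of two functions of Fn1 is c times a function of Fn1. PROOF. c = cX X <> 0 (injectivity, zero). k a = (sum_b g b * h (a - b)) / c. Given ε take Q for (a, b) -> h (a - b) (FG.sub_fn) with error at most ε ‖c‖: sum_b g b Q(X a, X b) = sum_i (X a)^i sum_b g b Q_i(X b),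
the inner sums have norm at most ‖c‖ (FG.trace for g * Q_i(X), Fn1.mul); the polynomial with the coefficients (sum_b g b Q_i(X b))/c is integral, the error is at most ε (‖g b‖ <= 1). -/
theorem FG.conv (hX : FG X) {g h : G → C} (hg : Fn1 X g) (hh : Fn1 X h) : ∃ k : G → C, Fn1 X k ∧ ∀ a, ∑ b, g b * h (a - b) = cX X * k a := by
  have hc : cX X ≠ 0 := by
    unfold cX
    rw [Finset.prod_ne_zero_iff]
    intro b hb h0
    exact (Finset.mem_erase.mp hb).1 (hX.inj (h0.trans hX.zero.symm))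
  have hcn : 0 < ‖cX X‖ := norm_pos_iff.mpr hc
  refine ⟨fun a => (∑ b, g b * h (a - b)) / cX X, ?_, fun a => (mul_div_cancel₀ _ hc).symm⟩
  intro ε hε
  obtain ⟨Q, hQ, hQe⟩ := hX.sub_fn hh (ε * ‖cX X‖) (mul_pos hε hcn)
  have hpoly : ∀ i, Fn1 X (fun b => (Q.coeff i).eval (X b)) := fun i δ hδ =>
    ⟨Q.coeff i, hQ i, fun a => by rw [sub_self, norm_zero]; exact hδ.le⟩
  have htr : ∀ i, ‖∑ b, g b * (Q.coeff i).eval (X b)‖ ≤ ‖cX X‖ := fun i =>
    hX.trace (Fn1.mul hX.le hg (hpoly i))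
  have hq : ∀ i, ‖(∑ b, g b * (Q.coeff i).eval (X b)) / cX X‖ ≤ 1 := by
    intro i
    rw [norm_div, div_le_one hcn]
    exact htr i
  refine ⟨∑ i ∈ Finset.range (Q.natDegree + 1),
    Polynomial.monomial i ((∑ b, g b * (Q.coeff i).eval (X b)) / cX X), fun i => ?_, fun a => ?_⟩
  · rw [Polynomial.finsetSum_coeff]
    simp only [Polynomial.coeff_monomial]
    rw [Finset.sum_ite_eq']
    split_ifs
    · exact hq i
    · rw [norm_zero]; exact zero_le_one
  · have h1 : ∀ b, (Q.eval (Polynomial.C (X a))).eval (X b)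
        = ∑ i ∈ Finset.range (Q.natDegree + 1), (Q.coeff i).eval (X b) * X a ^ i := by
      intro b
      rw [Polynomial.eval_eq_sum_range (p := Q) (Polynomial.C (X a)), Polynomial.eval_finsetSum]
      refine Finset.sum_congr rfl (fun i _ => ?_)
      rw [Polynomial.eval_mul, Polynomial.eval_pow, Polynomial.eval_C]
    have h2 : (∑ i ∈ Finset.range (Q.natDegree + 1),
        Polynomial.monomial i ((∑ b, g b * (Q.coeff i).eval (X b)) / cX X)).eval (X a)
        = (∑ b, g b * (Q.eval (Polynomial.C (X a))).eval (X b)) / cX X := by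
      rw [Polynomial.eval_finsetSum, Finset.sum_div]
      have h3 : ∀ b, g b * (Q.eval (Polynomial.C (X a))).eval (X b) / cX X
          = ∑ i ∈ Finset.range (Q.natDegree + 1), g b * (Q.coeff i).eval (X b) / cX X * X a ^ i := by
        intro b
        rw [h1 b, Finset.mul_sum, Finset.sum_div]
        refine Finset.sum_congr rfl (fun i _ => ?_)
        ring
      rw [Finset.sum_congr rfl (fun b _ => h3 b), Finset.sum_comm]
      refine Finset.sum_congr rfl (fun i _ => ?_)
      rw [Polynomial.eval_monomial, Finset.sum_div, Finset.sum_mul]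
    have h4 : (∑ b, g b * h (a - b)) / cX X - (∑ i ∈ Finset.range (Q.natDegree + 1),
        Polynomial.monomial i ((∑ b, g b * (Q.coeff i).eval (X b)) / cX X)).eval (X a)
        = (∑ b, g b * (h (a - b) - (Q.eval (Polynomial.C (X a))).eval (X b))) / cX X := by
      rw [h2, ← sub_div, ← Finset.sum_sub_distrib]
      refine congrArg (· / cX X) (Finset.sum_congr rfl (fun b _ => ?_))
      ring
    rw [h4, norm_div, div_le_iff₀ hcn]
    refine IsUltrametricDist.norm_sum_le_of_forall_le_of_nonneg (mul_pos hε hcn).le (fun b _ => ?_)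
    rw [norm_mul]
    calc ‖g b‖ * ‖h (a - b) - (Q.eval (Polynomial.C (X a))).eval (X b)‖
        ≤ 1 * (ε * ‖cX X‖) := mul_le_mul (Fn1.le hX.le hg b) (hQe a b) (norm_nonneg _) zero_le_one
      _ = ε * ‖cX X‖ := one_mul _

end H35M
end

-- from Lib.SSG.F.D3
section

/-! # SSG/F/D3 : the unit `1 + p` (no sorry) -/

open Polynomial
open scoped Classical

namespace SSF

variable {p : ℕ} [Fact p.Prime] {R : ℕ → Type} [∀ N, CommRing (R N)] [∀ N, Fintype (R N)]
  {L : Type} [NormedField L] [IsUltrametricDist L] (D : LTD p R L)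

omit [Fact p.Prime] in
theorem cop_onep (p n : ℕ) : Nat.Coprime (1 + p) (p ^ n) :=
  Nat.Coprime.pow_right n (by simp)

/-- the unit `1 + p` of `ZMod (p ^ n)` -/
noncomputable def onep (p n : ℕ) : (ZMod (p ^ n))ˣ := ZMod.unitOfCoprime (1 + p) (cop_onep p n)

end SSF
end

-- from Lib.SSG.F.D4
section

/-! # SSG/F/D4 : several variables (definitions) -/

open Polynomial
open scoped Classical

namespace SSF

variable {p : ℕ} [Fact p.Prime] {R : ℕ → Type} [∀ N, CommRing (R N)] [∀ N, Fintype (R N)]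
  {L : Type} [NormedField L] [IsUltrametricDist L] (D : LTD p R L)

/-- uniform limits (on the finite set `(R N)^ι`) of integral polynomials in the coordinates. -/
def LTD.CalF (D : LTD p R L) {K : Type} [NormedField K] (j : L →+* K) (N : ℕ) (ι : Type) [Fintype ι]
    (H : (ι → R N) → K) : Prop :=
  ∀ ε > 0, ∃ P : MvPolynomial ι K, (∀ m, ‖P.coeff m‖ ≤ 1) ∧
    ∀ x, ‖H x - MvPolynomial.eval (fun i => j (D.X N (x i))) P‖ < ε

/-- `S(H) = sum of prod χ(N x_i) H(x)` -/
noncomputable def LTD.SK (D : LTD p R L) {K : Type} [NormedField K] (j : L →+* K) (N : ℕ)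
    (ι : Type) [Fintype ι] (χ : DirichletCharacter L (p ^ N)) (H : (ι → R N) → K) : K :=
  ∑ x : ι → R N, (∏ i, j (χ (D.nm N (x i)))) * H x

/-- `T_e(H) = prod (-p)^(-e_i) sum of H over prod p^(N - e_i) R N` -/
noncomputable def LTD.TK (_D : LTD p R L) {K : Type} [NormedField K] (N : ℕ) (ι : Type) [Fintype ι]
    (e : ι → ℕ) (H : (ι → R N) → K) : K :=
  (∏ i, ((-(p : K)) ^ (e i))⁻¹) * ∑ x ∈ Finset.univ.filter
    (fun x : ι → R N => ∀ i, ∃ y : R N, x i = (p : R N) ^ (N - e i) * y), H x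

/-- `rho = -(-1)^((N+1)/2)` -/
def rho (N : ℕ) : ℤ := -(-1) ^ ((N + 1) / 2)

end SSF
end

-- from Lib.SSG.F.D5
section

/-! # SSG/F/D5 : the rings `𝓞 F / p ^ N`, the predicate `LTF.Good` (no sorry) -/

open NumberField

namespace SSF

/-- the ring `𝓞 F / p ^ N` -/
abbrev RF (F : Type) [Field F] [NumberField F] (p N : ℕ) : Type :=
  𝓞 F ⧸ Ideal.span {((p : 𝓞 F)) ^ N}

noncomputable instance RF.fintype (F : Type) [Field F] [NumberField F] (p : ℕ) [hp : Fact p.Prime]
    (N : ℕ) : Fintype (RF F p N) := by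
  have h : Ideal.span {((p : 𝓞 F)) ^ N} ≠ ⊥ := by
    rw [Ne, Ideal.span_singleton_eq_bot]
    exact pow_ne_zero _ (by exact_mod_cast hp.out.ne_zero)
  haveI : Finite (RF F p N) := Ring.HasFiniteQuotients.finiteQuotient h
  exact Fintype.ofFinite _

/-- the class of `a` modulo `p ^ N` -/
abbrev mkF {F : Type} [Field F] [NumberField F] (p N : ℕ) (a : 𝓞 F) : RF F p N :=
  Ideal.Quotient.mk _ a

end SSF

namespace SSG

open SSF

/-- A Lubin-Tate frame which comes from Galois data `SSF.LTD` over some ultrametric normed field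
`L₀` (in practice `PadicAlgCl p`), by an isometric embedding `j` (in practice into `ℂ_[p]`). -/
def LTF.Good (p : ℕ) [Fact p.Prime] {F : Type} [Field F] [NumberField F] {C : Type} [NormedField C]
    (L : LTF F C) : Prop :=
  ∃ (L₀ : Type) (_ : NormedField L₀) (_ : IsUltrametricDist L₀) (D : LTD p (RF F p) L₀)
    (j : L₀ →+* C), (∀ x, ‖j x‖ = ‖x‖) ∧ (∀ N a, L.X N a = j (D.X N (mkF p N a))) ∧
      (∀ N, L.z N = j (D.ζ N)) ∧ (∀ N a, D.nm N (mkF p N a) = ((nrm a : ℕ) : ZMod (p ^ N))) ∧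
      (∀ N a, D.red N (mkF p (N + 1) a) = mkF p N a)

end SSG
end
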