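import Mathlib
import Pool.Agent.Lib.H1M.PP2.M029
import Pool.Agent.Lib.H1M.PP2.M046
import Pool.Agent.Lib.H1M.PP2.M051
import Pool.Agent.Lib.H1M.PP2.M062

/-! Merged copies (to shorten the build) of Lib.H13S.LA, Lib.H13S.LC, Lib.H13S.LD2, Lib.H55K.G9B. -/

-- from Lib.H13S.LA
section

open NumberField IsDedekindDomain

namespace H13S

open H55P H28G H55B

private theorem LA_one {G : Type} [LinearOrderedCommGroupWithZero G] (a : G) (n : ℕ) (hn : n ≠ 0)
    (h : a ^ n = 1) : a = 1 := by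
  have h0 : (0 : G) ≤ a := zero_le
  exact (pow_eq_one_iff_of_nonneg h0 hn).1 h

private theorem LA_root {Ω : Type} [Field Ω] (V : ValuationSubring Ω) (l : ℕ) (hl : l.Prime)
    (ζ : Ω) (hζ : ζ ^ l = 1) : V.valuation (ζ - 1) ^ (l - 1) ≤ V.valuation (l : Ω) := by
  have hl2 := hl.two_le
  by_cases h1 : ζ = 1
  · rw [h1, sub_self, map_zero, zero_pow (by omega)]
    exact zero_le
  have hv1 : V.valuation ζ = 1 := by
    apply LA_one _ l hl.ne_zero
    rw [← map_pow, hζ, map_one]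
  have hpr : IsPrimitiveRoot ζ l := by
    have : Fact l.Prime := ⟨hl⟩
    have := orderOf_eq_prime hζ h1
    rw [← this]
    exact IsPrimitiveRoot.orderOf ζ
  have key : ∀ j ∈ Finset.range (l - 1), V.valuation (1 - ζ) ≤ V.valuation (1 - ζ ^ (j + 1)) := by
    intro j hj
    rw [Finset.mem_range] at hj
    have hcop : Nat.Coprime (j + 1) l := by
      rw [Nat.coprime_comm]
      refine (Nat.Prime.coprime_iff_not_dvd hl).2 ?_
      intro hd
      have := Nat.le_of_dvd (by omega) hd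
      omega
    obtain ⟨k, hk⟩ := Nat.exists_mul_mod_eq_one_of_coprime hcop (by omega)
    have hz : ζ = (ζ ^ (j + 1)) ^ k := by
      rw [← pow_mul]
      conv_lhs => rw [← pow_one ζ, ← hk.2]
      exact (pow_eq_pow_mod _ hζ).symm
    have e1 : (1 - ζ : Ω) = (1 - ζ ^ (j + 1)) * ∑ i ∈ Finset.range k, (ζ ^ (j + 1)) ^ i := by
      rw [mul_comm, geom_sum_mul_neg, ← hz]
    rw [e1, map_mul]
    have e2 : V.valuation (∑ i ∈ Finset.range k, (ζ ^ (j + 1)) ^ i) ≤ 1 := by
      apply Valuation.map_sum_le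
      intro i _
      rw [map_pow, map_pow, hv1, one_pow, one_pow]
    calc V.valuation (1 - ζ ^ (j + 1)) * V.valuation (∑ i ∈ Finset.range k, (ζ ^ (j + 1)) ^ i)
        ≤ V.valuation (1 - ζ ^ (j + 1)) * 1 := by gcongr
      _ = _ := mul_one _
  have hprod : ∏ k ∈ Finset.range (l - 1), (1 - ζ ^ (k + 1)) = (l : Ω) := by
    have hpr' : IsPrimitiveRoot ζ ((l - 1) + 1) := by
      have : l - 1 + 1 = l := by omega
      rw [this]; exact hpr
    rw [hpr'.prod_one_sub_pow_eq_order]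
    have : ((l - 1 : ℕ) : Ω) + 1 = ((l - 1 + 1 : ℕ) : Ω) := by push_cast; ring
    rw [this]
    congr 1
    omega
  rw [← hprod, map_prod, Valuation.map_sub_swap]
  calc V.valuation (1 - ζ) ^ (l - 1) = ∏ _k ∈ Finset.range (l - 1), V.valuation (1 - ζ) := by
        rw [Finset.prod_const, Finset.card_range]
    _ ≤ _ := Finset.prod_le_prod' key

private theorem LA_eq {F₀ : Type} [Field F₀] {Ω : Type} [Field Ω] [Algebra F₀ Ω]
    {L : IntermediateField F₀ Ω} [NumberField L] {V : ValuationSubring Ω}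
    {w : HeightOneSpectrum (𝓞 L)} (hw : Abv L V w) (x y : L) :
    V.valuation (x : Ω) = V.valuation (y : Ω) ↔ w.valuation L x = w.valuation L y := by
  rw [le_antisymm_iff, le_antisymm_iff, hw.le, hw.le]

/-- The l-th powers: solving u = b^l modulo w. -/
private theorem LA_frob {L : Type} [Field L] [NumberField L] (w : HeightOneSpectrum (𝓞 L))
    (l : ℕ) (hl : l.Prime) (hV : w.valuation L (l : L) < 1) (u : L) (hu : w.valuation L u = 1) :
    ∃ b : L, w.valuation L b = 1 ∧ w.valuation L (u - b ^ l) < 1 := by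
  obtain ⟨x, hx⟩ := w.exists_valuation_sub_lt_of_integer (K := L) hu.le 1
  rw [Units.val_one] at hx
  have : Fact l.Prime := ⟨hl⟩
  have hlm : ((l : ℕ) : 𝓞 L) ∈ w.asIdeal := by
    have e0 : algebraMap (𝓞 L) L ((l : ℕ) : 𝓞 L) = (l : L) := map_natCast _ _
    have e1 : w.valuation L (algebraMap (𝓞 L) L ((l : ℕ) : 𝓞 L)) < 1 := by rw [e0]; exact hV
    exact (w.valuation_lt_one_iff_mem (K := L) _).1 e1
  have : Finite (𝓞 L ⧸ w.asIdeal) := Ideal.finiteQuotientOfFreeOfNeBot _ w.ne_bot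
  have : IsDomain (𝓞 L ⧸ w.asIdeal) := Ideal.Quotient.isDomain _
  have : CharP (𝓞 L ⧸ w.asIdeal) l := by
    rw [CharP.charP_iff_prime_eq_zero hl]
    have := Ideal.Quotient.eq_zero_iff_mem.2 hlm
    simpa using this
  have hsur : Function.Surjective (frobenius (𝓞 L ⧸ w.asIdeal) l) :=
    Finite.injective_iff_surjective.1 (frobenius_inj _ _)
  obtain ⟨q, hq⟩ := hsur (Ideal.Quotient.mk w.asIdeal x)
  obtain ⟨c, rfl⟩ := Ideal.Quotient.mk_surjective q
  rw [frobenius_def, ← map_pow, Ideal.Quotient.eq] at hq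
  have h2 : w.valuation L (algebraMap (𝓞 L) L (c ^ l - x)) < 1 :=
    (w.valuation_lt_one_iff_mem (K := L) _).2 hq
  have h3 : w.valuation L (u - (algebraMap (𝓞 L) L c) ^ l) < 1 := by
    have e1 : u - (algebraMap (𝓞 L) L c) ^ l = -((algebraMap (𝓞 L) L x - u) +
        algebraMap (𝓞 L) L (c ^ l - x)) := by
      rw [map_sub, map_pow]; ring
    rw [e1, Valuation.map_neg]
    exact Valuation.map_add_lt _ hx h2
  refine ⟨algebraMap (𝓞 L) L c, ?_, h3⟩
  apply LA_one _ l hl.ne_zero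
  rw [← map_pow]
  have e2 : (algebraMap (𝓞 L) L c) ^ l = u - (u - (algebraMap (𝓞 L) L c) ^ l) := by ring
  rw [e2, Valuation.map_sub_eq_of_lt_left, hu]
  rw [hu]; exact h3

/-- Chunk LA (M). Step A: an element Z for a Kummer generator of level at most one. nu = the exponent of w.valuation m. Case 1: l does not divide nu. a' nu + l b' = 1 (a' in {1..l-1} modulo l, b' integer), t a uniformizer of w in
L: Z = y^a' t^(b') up to sign of the exponents so that V.valuation Z ^ l = V.valuation t; s Z - Z = (zeta^a' - 1) Z, zeta = s y/y, and V.valuation (zeta^a' - 1)^(l-1) ≤ V.valuation l (equality if zeta^a' ≠ 1: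
product of (1 - zeta^j) = l, all of the same value; every (1 - zeta^j)/(1 - zeta) is in V and conversely); y^i is in L Z^j, j = a'' i modulo l, because Z^l is in L. Case 2: l divides nu: y₁ = y/a, a = power of t,
y₁^l = u a w-unit, b with u = b^l modulo w (finite residue field of characteristic l, hl : value of l < 1), y₂ = y₁/b, u₂ = y₂^l = 1 modulo w, and by hlev u₂ - 1 is not of value ≤ exp(-2), so it has value
exp(-1) : it is a uniformizer t. Z = y₂ - 1: V.valuation Z < 1, u₂ - 1 = (1+Z)^l - 1 = Z^l + l Z (..), V.valuation (l Z ..) < V.valuation t (value of l ≤ value of t), so V.valuation Z^l = V.valuation t. s Z - Z = (zeta - 1) y₂; y^i = (a b)^i (1 + Z)^i. -/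
theorem step_a {F₀ : Type} [Field F₀] [NumberField F₀] {Ω : Type} [Field Ω] [Algebra F₀ Ω]
    [IsAlgClosure F₀ Ω] (L : IntermediateField F₀ Ω) [NumberField L] (V : ValuationSubring Ω)
    (w : HeightOneSpectrum (𝓞 L)) (hw : Abv L V w) (l : ℕ) (hl : l.Prime) (h3 : 3 ≤ l)
    (hV : V.valuation (l : Ω) < 1)
    (hμ : ∀ ζ : Ω, ζ ^ l = 1 → ζ ∈ L) (m : L) (hm : m ≠ 0) (y : Ω) (hy : y ^ l = (m : Ω))
    (hlev : ¬ ∃ z : L, z ≠ 0 ∧ w.valuation L (m / z ^ l - 1) ≤ WithZero.exp (-2 : ℤ)) :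
    ∃ Z : Ω, (∃ t : L, w.valuation L t = WithZero.exp (-1 : ℤ) ∧ V.valuation Z ^ l = V.valuation (t : Ω)) ∧
      (∀ s ∈ L.fixingSubgroup, s y = y → s Z = Z) ∧
      (∀ s ∈ L.fixingSubgroup, V.valuation (s Z - Z) ^ (l - 1) ≤ V.valuation (l : Ω)) ∧
      ∀ i < l, ∃ a : ℕ → L, y ^ i = ∑ j ∈ Finset.range l, (a j : Ω) * Z ^ j := by
  have hl2 := hl.two_le
  have hy0 : y ≠ 0 := by
    rintro rfl
    rw [zero_pow hl.ne_zero] at hy
    exact hm (Subtype.ext (by simpa using hy.symm))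
  have hl0 : (l : L) ≠ 0 := by exact_mod_cast hl.ne_zero
  have hwl : w.valuation L (l : L) < 1 := by
    rw [← hw.lt]
    simpa using hV
  have hfix : ∀ s ∈ L.fixingSubgroup, ∀ x : L, s (x : Ω) = x := by
    intro s hs x
    exact (IntermediateField.mem_fixingSubgroup_iff _ _).1 hs x x.2
  have hzeta : ∀ s ∈ L.fixingSubgroup, (s y / y) ^ l = 1 := by
    intro s hs
    rw [div_pow, ← map_pow, hy, hfix s hs, div_self]
    rw [← hy]; exact pow_ne_zero _ hy0
  have hmv : w.valuation L m ≠ 0 := (Valuation.ne_zero_iff _).2 hm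
  obtain ⟨ν, hν⟩ : ∃ ν : ℤ, w.valuation L m = WithZero.exp ν :=
    ⟨WithZero.log (w.valuation L m), (WithZero.exp_log hmv).symm⟩
  obtain ⟨t, ht⟩ := w.valuation_exists_uniformizer L
  have ht' : w.valuation L t = WithZero.exp (-1 : ℤ) := by
    rw [ht]
  have ht0 : t ≠ 0 := by
    rintro rfl
    rw [map_zero] at ht'
    exact WithZero.exp_ne_zero ht'.symm
  have hyl : V.valuation y ^ l = V.valuation (m : Ω) := by rw [← map_pow, hy]
  by_cases hdv : (l : ℤ) ∣ ν
  · -- case 2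
    obtain ⟨ν', rfl⟩ := hdv
    have ha0 : t ^ (-ν') ≠ 0 := zpow_ne_zero _ ht0
    have hwa : w.valuation L (t ^ (-ν')) = WithZero.exp ν' := by
      rw [map_zpow₀, ht', ← WithZero.exp_zsmul]
      congr 1
      simp
    have hwu : w.valuation L (m / (t ^ (-ν')) ^ l) = 1 := by
      rw [map_div₀, map_pow, hwa, hν, ← WithZero.exp_nsmul]
      rw [nsmul_eq_mul]
      exact div_self WithZero.exp_ne_zero
    obtain ⟨b, hb1, hb2⟩ := LA_frob w l hl hwl _ hwu
    have hb0 : b ≠ 0 := by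
      rintro rfl
      rw [map_zero] at hb1
      exact zero_ne_one hb1
    set a : L := t ^ (-ν') with ha
    set c : L := a * b with hc
    have hc0 : c ≠ 0 := mul_ne_zero ha0 hb0
    have hcΩ : (c : Ω) ≠ 0 := by exact_mod_cast hc0
    set τ : L := m / c ^ l - 1 with hτ
    have hτ1 : w.valuation L τ < 1 := by
      have e1 : τ = (m / a ^ l - b ^ l) * (b ^ l)⁻¹ := by
        rw [hτ, hc, mul_pow]
        field_simp
      rw [e1, map_mul, map_inv₀, map_pow, hb1, one_pow, inv_one, mul_one]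
      exact hb2
    have hτ2 : ¬ w.valuation L τ ≤ WithZero.exp (-2 : ℤ) := fun h => hlev ⟨c, hc0, h⟩
    have hτv : w.valuation L τ = WithZero.exp (-1 : ℤ) := by
      have h0 : w.valuation L τ ≠ 0 := by
        intro h0
        apply hτ2
        rw [h0]
        exact zero_le
      rw [← WithZero.exp_log h0] at hτ1 hτ2 ⊢
      rw [WithZero.exp_le_exp, not_le] at hτ2
      rw [← WithZero.exp_zero, WithZero.exp_lt_exp] at hτ1
      congr 1
      omega
    have hτV : V.valuation (τ : Ω) < 1 := by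
      rw [hw.lt]; exact hτ1
    -- y₂
    set y₂ : Ω := y / c with hy₂
    have hy₂l : y₂ ^ l = (τ : Ω) + 1 := by
      rw [hy₂, div_pow, hy, hτ]
      push_cast
      ring
    have hvy₂ : V.valuation y₂ = 1 := by
      apply LA_one _ l hl.ne_zero
      rw [← map_pow, hy₂l, Valuation.map_add_eq_of_lt_right, map_one]
      rw [map_one]; exact hτV
    have hlτ : V.valuation (l : Ω) ≤ V.valuation (τ : Ω) := by
      have h1 : w.valuation L (l : L) ≤ w.valuation L τ := by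
        rw [hτv]
        have h0 : w.valuation L (l : L) ≠ 0 := (Valuation.ne_zero_iff _).2 hl0
        rw [← WithZero.exp_log h0] at hwl ⊢
        rw [← WithZero.exp_zero, WithZero.exp_lt_exp] at hwl
        rw [WithZero.exp_le_exp]
        omega
      have := (hw.le (l : L) τ).2 h1
      simpa using this
    have hlΩ : V.valuation (l : Ω) ≠ 0 := by
      rw [Valuation.ne_zero_iff]
      intro h
      apply hl0
      exact Subtype.ext (by simpa using h)
    set Z : Ω := y₂ - 1 with hZ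
    have hZV : Z ∈ V := by
      rw [← V.valuation_le_one_iff, hZ]
      refine (Valuation.map_sub _ _ _).trans ?_
      rw [hvy₂, map_one, max_self]
    have hexp : V.valuation ((τ : Ω) - Z ^ l) ≤ V.valuation (l : Ω) * V.valuation Z := by
      obtain ⟨r, hr⟩ := exists_add_pow_prime_eq hl (⟨Z, hZV⟩ : V) 1
      have hr' := congrArg (fun x : V => (x : Ω)) hr
      push_cast at hr'
      have e1 : (τ : Ω) - Z ^ l = (l : Ω) * Z * (r : Ω) := by
        have e2 : Z + 1 = y₂ := by rw [hZ]; ring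
        rw [e2, hy₂l, one_pow] at hr'
        linear_combination hr'
      rw [e1, map_mul, map_mul]
      have hr1 : V.valuation (r : Ω) ≤ 1 := V.valuation_le_one r
      calc V.valuation (l : Ω) * V.valuation Z * V.valuation (r : Ω)
          ≤ V.valuation (l : Ω) * V.valuation Z * 1 := by gcongr
        _ = _ := mul_one _
    have hZ1 : V.valuation Z < 1 := by
      have hZle : V.valuation Z ≤ 1 := (V.valuation_le_one_iff _).2 hZV
      have h1 : V.valuation (Z ^ l) < 1 := by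
        have e1 : Z ^ l = (τ : Ω) - ((τ : Ω) - Z ^ l) := by ring
        rw [e1]
        apply Valuation.map_sub_lt _ hτV
        refine lt_of_le_of_lt hexp ?_
        calc V.valuation (l : Ω) * V.valuation Z ≤ V.valuation (l : Ω) * 1 := by gcongr
          _ = V.valuation (l : Ω) := mul_one _
          _ < 1 := hV
      rw [map_pow] at h1
      by_contra h2
      have h3 : V.valuation Z = 1 := le_antisymm hZle (not_lt.1 h2)
      rw [h3, one_pow] at h1
      exact lt_irrefl _ h1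
    have hZτ : V.valuation Z ^ l = V.valuation (τ : Ω) := by
      rw [← map_pow]
      have h1 : V.valuation ((τ : Ω) - Z ^ l) < V.valuation (τ : Ω) := by
        refine lt_of_le_of_lt hexp ?_
        refine lt_of_lt_of_le ?_ hlτ
        calc V.valuation (l : Ω) * V.valuation Z < V.valuation (l : Ω) * 1 := by
              apply mul_lt_mul_of_pos_left hZ1
              exact zero_lt_iff.2 hlΩ
          _ = V.valuation (l : Ω) := mul_one _
      have e1 : Z ^ l = (τ : Ω) - ((τ : Ω) - Z ^ l) := by ring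
      rw [e1, Valuation.map_sub_eq_of_lt_left _ h1]
    refine ⟨Z, ⟨τ, hτv, hZτ⟩, ?_, ?_, ?_⟩
    · intro s hs hsy
      rw [hZ, hy₂, map_sub, map_div₀, hsy, hfix s hs, map_one]
    · intro s hs
      have e1 : s Z - Z = (s y / y - 1) * y₂ := by
        rw [hZ, hy₂, map_sub, map_div₀, hfix s hs, map_one]
        field_simp
        ring
      rw [e1, map_mul, hvy₂, mul_one]
      exact LA_root V l hl _ (hzeta s hs)
    · intro i hi
      refine ⟨fun j => c ^ i * (i.choose j : L), ?_⟩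
      have e1 : y = (c : Ω) * (Z + 1) := by
        rw [hZ, hy₂]
        field_simp
        ring
      have e2 : y ^ i = (c : Ω) ^ i * (Z + 1) ^ i := by
        rw [← mul_pow, ← e1]
      rw [e2, add_pow, Finset.mul_sum]
      rw [← Finset.sum_subset (Finset.range_subset_range.2 (show i + 1 ≤ l by omega))]
      · apply Finset.sum_congr rfl
        intro j _
        push_cast
        ring
      · intro j _ hj
        rw [Finset.mem_range, not_lt] at hj
        have h0 : i.choose j = 0 := Nat.choose_eq_zero_of_lt (by omega)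
        simp only [h0]
        push_cast
        ring
  · -- case 1
    have hcop : IsCoprime (l : ℤ) ν := (Nat.prime_iff_prime_int.1 hl).coprime_iff_not_dvd.2 hdv
    obtain ⟨p, q, hpq⟩ := hcop
    set Z : Ω := y ^ (-q) * (t : Ω) ^ p with hZ
    set d : L := m ^ (-q) * (t ^ p) ^ l with hd
    have hmΩ : (m : Ω) ≠ 0 := by exact_mod_cast hm
    have htΩ : (t : Ω) ≠ 0 := by exact_mod_cast ht0
    have hz : ∀ (x : L) (n : ℤ), ((x ^ n : L) : Ω) = (x : Ω) ^ n :=
      fun x n => map_zpow₀ (algebraMap L Ω) x n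
    have hZ0 : Z ≠ 0 := mul_ne_zero (zpow_ne_zero _ hy0) (zpow_ne_zero _ htΩ)
    have hZl : Z ^ l = (d : Ω) := by
      rw [hZ, hd, mul_pow]
      push_cast
      rw [hz, hz, ← hy, ← zpow_natCast (y ^ (-q)), ← zpow_natCast y, ← zpow_mul, ← zpow_mul,
        mul_comm (-q) (l : ℤ)]
    have hwd : w.valuation L d = w.valuation L t := by
      rw [hd, map_mul, map_zpow₀, map_pow, map_zpow₀, ht', hν, ← WithZero.exp_zsmul,
        ← WithZero.exp_zsmul, ← WithZero.exp_nsmul, ← WithZero.exp_add]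
      congr 1
      simp only [smul_eq_mul, nsmul_eq_mul]
      linear_combination -hpq
    have hvZ : V.valuation Z ^ l = V.valuation (t : Ω) := by
      rw [← map_pow, hZl]
      exact (LA_eq hw _ _).2 hwd
    have hZ1 : V.valuation Z ≤ 1 := by
      by_contra h
      have h1 : 1 < V.valuation Z ^ l := one_lt_pow₀ (not_le.1 h) hl.ne_zero
      rw [hvZ] at h1
      have h2 : V.valuation (t : Ω) < 1 := by
        rw [hw.lt, ht', ← WithZero.exp_zero, WithZero.exp_lt_exp]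
        norm_num
      exact lt_asymm h1 h2
    have hst : ∀ s ∈ L.fixingSubgroup, s Z = (s y) ^ (-q) * (t : Ω) ^ p := by
      intro s hs
      rw [hZ, map_mul, map_zpow₀, map_zpow₀, hfix s hs]
    refine ⟨Z, ⟨t, ht', hvZ⟩, ?_, ?_, ?_⟩
    · intro s hs hsy
      rw [hst s hs, hsy]
    · intro s hs
      have e1 : s Z - Z = ((s y / y) ^ (-q) - 1) * Z := by
        rw [hst s hs, div_zpow, sub_mul, one_mul, hZ]
        congr 1
        field_simp
      rw [e1, map_mul, mul_pow]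
      calc V.valuation ((s y / y) ^ (-q) - 1) ^ (l - 1) * V.valuation Z ^ (l - 1)
          ≤ V.valuation ((s y / y) ^ (-q) - 1) ^ (l - 1) * 1 ^ (l - 1) := by gcongr
        _ = V.valuation ((s y / y) ^ (-q) - 1) ^ (l - 1) := by rw [one_pow, mul_one]
        _ ≤ _ := by
          apply LA_root V l hl
          rw [← zpow_natCast, ← zpow_mul, mul_comm, zpow_mul, zpow_natCast, hzeta s hs, one_zpow]
    · intro i hi
      have hl0' : (l : ℤ) ≠ 0 := by exact_mod_cast hl.ne_zero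
      have hlpos : (0 : ℤ) < l := by exact_mod_cast hl.pos
      set r : ℤ := (-ν * i) % l with hr
      set k : ℤ := (-ν * i) / l with hk
      have hrk : -ν * i = l * k + r := by
        rw [hr, hk]
        have := Int.emod_add_mul_ediv (-ν * i) l
        linarith
      have hr0 : 0 ≤ r := Int.emod_nonneg _ hl0'
      have hrl : r < l := Int.emod_lt_of_pos _ hlpos
      have e1 : y = Z ^ (-ν) * ((m : Ω) ^ p * (t : Ω) ^ (p * ν)) := by
        rw [hZ, mul_zpow, ← zpow_mul, ← zpow_mul]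
        rw [← hy, ← zpow_natCast, ← zpow_mul]
        have e3 : y ^ (-q * -ν) * (t : Ω) ^ (p * -ν) * (y ^ ((l : ℤ) * p) * (t : Ω) ^ (p * ν)) =
            (y ^ (-q * -ν) * y ^ ((l : ℤ) * p)) * ((t : Ω) ^ (p * -ν) * (t : Ω) ^ (p * ν)) := by ring
        rw [e3, ← zpow_add₀ hy0, ← zpow_add₀ htΩ]
        have e4 : -q * -ν + (l : ℤ) * p = 1 := by linear_combination hpq
        have e5 : p * -ν + p * ν = 0 := by ring
        rw [e4, e5, zpow_one, zpow_zero, mul_one]
      have e2 : y ^ i = ((d ^ k * (m ^ p * t ^ (p * ν)) ^ i : L) : Ω) * Z ^ r.toNat := by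
        conv_lhs => rw [e1]
        rw [mul_pow, ← zpow_natCast (Z ^ (-ν)), ← zpow_mul, hrk, zpow_add₀ hZ0, zpow_mul, zpow_natCast,
          hZl]
        have : Z ^ r = Z ^ r.toNat := by
          rw [← zpow_natCast, Int.toNat_of_nonneg hr0]
        rw [this]
        push_cast
        rw [hz, hz, hz]
        ring
      refine ⟨fun j => if j = r.toNat then (d ^ k * (m ^ p * t ^ (p * ν)) ^ i : L) else 0, ?_⟩
      rw [Finset.sum_eq_single r.toNat]
      · simp only [if_true]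
        rw [e2]
      · intro j _ hj
        simp only [if_neg hj]
        push_cast
        ring
      · intro h
        exfalso
        apply h
        rw [Finset.mem_range]
        omega

end H13S
end

-- from Lib.H13S.LC
section

open NumberField IsDedekindDomain

namespace H13S

open H55P H28G H55B

/-- In a finite sum whose nonzero terms have different values every term is at most the sum. -/
private theorem lc_max {Ω Γ : Type} [Field Ω] [LinearOrderedCommGroupWithZero Γ] (v : Valuation Ω Γ) (n : ℕ) (f : ℕ → Ω)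
    (hd : ∀ i < n, ∀ j < n, f i ≠ 0 → f j ≠ 0 → v (f i) = v (f j) → i = j) (j : ℕ) (hj : j < n) :
    v (f j) ≤ v (∑ i ∈ Finset.range n, f i) := by
  classical
  obtain ⟨m, hm, hmax⟩ := (Finset.range n).exists_max_image (fun i => v (f i)) ⟨j, Finset.mem_range.2 hj⟩
  by_cases h0 : f m = 0
  · have h1 := hmax j (Finset.mem_range.2 hj)
    rw [h0, map_zero] at h1
    exact h1.trans zero_le
  have hv0 : v (f m) ≠ 0 := (v.ne_zero_iff).2 h0
  have hlt : v (∑ i ∈ (Finset.range n).erase m, f i) < v (f m) := by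
    refine v.map_sum_lt hv0 fun i hi => ?_
    rw [Finset.mem_erase] at hi
    by_cases hi0 : f i = 0
    · rw [hi0, map_zero]
      exact zero_lt_iff.2 hv0
    · refine lt_of_le_of_ne (hmax i hi.2) fun h => hi.1 ?_
      exact hd i (Finset.mem_range.1 hi.2) m (Finset.mem_range.1 hm) hi0 h0 h
  have hsum : v (∑ i ∈ Finset.range n, f i) = v (f m) := by
    rw [← Finset.add_sum_erase _ _ hm, v.map_add_eq_of_lt_left hlt]
  rw [hsum]
  exact hmax j (Finset.mem_range.2 hj)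

private theorem lc_mem {F₀ : Type} [Field F₀] {Ω : Type} [Field Ω] [Algebra F₀ Ω] {V : ValuationSubring Ω}
    {s : Ω ≃ₐ[F₀] Ω} (h : Inert V s) {x : Ω} (hx : x ∈ V) : s x ∈ V := by
  have h1 : s x - x ∈ V := (V.valuation_le_one_iff _).1 (h x hx).le
  have h2 := V.add_mem _ _ h1 hx
  rwa [sub_add_cancel] at h2

/-- Chunk LC (M). Step C: valuations. V.valuation (g j) is 0 or the value of an element of L (value_fixed), that is an integral power of T = V.valuation t < 1 (t a uniformizer of w; T generates the values of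
L^*: Abv.le). Put r = V.valuation Z, r^l = T, so r < 1. The values V.valuation (g j) r^j for j < l with g j ≠ 0 are pairwise different: T^a r^i = T^b r^j gives r^(l a + i) = r^(l b + j), l a + i = l b + j (r < 1), i = j. So the value of the sum is
the maximum of V.valuation (g j) r^j (Finset induction or Valuation.map_sum_eq...), each is ≤ 1: T^a r^j ≤ 1 with j < l gives l a + j ≥ 0, a ≥ 0: V.valuation (g j) ≤ 1. s (sum) - sum = sum of g j ((s Z)^j - Z^j), and
(s Z)^j - Z^j = (s Z - Z) (...) with V.valuation (s Z) = V.valuation Z ≤ 1 (Inert V s preserves V). -/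
theorem step_c {F₀ : Type} [Field F₀] [NumberField F₀] {Ω : Type} [Field Ω] [Algebra F₀ Ω]
    [IsAlgClosure F₀ Ω] (L : IntermediateField F₀ Ω) [NumberField L] (V : ValuationSubring Ω)
    (w : HeightOneSpectrum (𝓞 L)) (hw : Abv L V w) (l : ℕ) (hl : 0 < l) (Z : Ω) (t : L)
    (ht : w.valuation L t = WithZero.exp (-1 : ℤ)) (hZ : V.valuation Z ^ l = V.valuation (t : Ω)) (g : ℕ → Ω)
    (hg : ∀ j, ∀ s ∈ L.fixingSubgroup, Inert V s → s (g j) = g j)
    (h1 : V.valuation (∑ j ∈ Finset.range l, g j * Z ^ j) ≤ 1) (s : Ω ≃ₐ[F₀] Ω) (hs : s ∈ L.fixingSubgroup)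
    (hi : Inert V s) :
    V.valuation (s (∑ j ∈ Finset.range l, g j * Z ^ j) - ∑ j ∈ Finset.range l, g j * Z ^ j) ≤
      V.valuation (s Z - Z) := by
  classical
  set v := V.valuation with hv
  set r := v Z with hr
  have ht0 : t ≠ 0 := by
    rintro rfl
    rw [map_zero] at ht
    exact (WithZero.exp_ne_zero (a := (-1 : ℤ))) ht.symm
  have htΩ : (t : Ω) ≠ 0 := by
    intro h
    exact ht0 (Subtype.ext h)
  have hT0 : v (t : Ω) ≠ 0 := (v.ne_zero_iff).2 htΩ
  have hT1 : v (t : Ω) < 1 := by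
    rw [hv, hw.lt, ht, ← WithZero.exp_zero, WithZero.exp_lt_exp]
    norm_num
  have hr0 : 0 < r := by
    rw [zero_lt_iff]
    intro h
    rw [h, zero_pow hl.ne'] at hZ
    exact hT0 hZ.symm
  have hr1 : r < 1 := by
    by_contra hcon
    rw [not_lt] at hcon
    have := one_le_pow₀ (n := l) hcon
    rw [hZ] at this
    exact absurd hT1 (not_lt.2 this)
  -- the values of the coefficients
  have hval : ∀ j, g j ≠ 0 → ∃ n : ℤ, v (g j) = r ^ ((l : ℤ) * n) := by
    intro j hj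
    obtain ⟨a, ha0, ha⟩ := value_fixed L V (g j) hj (hg j)
    have hwa : w.valuation L a ≠ 0 := ((w.valuation L).ne_zero_iff).2 ha0
    set m : ℤ := WithZero.log (w.valuation L a) with hm
    have h2 : w.valuation L a = w.valuation L (t ^ (-m)) := by
      rw [map_zpow₀, ht, ← WithZero.exp_zsmul, ← WithZero.exp_log hwa, ← hm]
      simp
    have h3 : v (a : Ω) = v ((t ^ (-m) : L) : Ω) :=
      le_antisymm ((hw.le _ _).2 h2.le) ((hw.le _ _).2 h2.ge)
    refine ⟨-m, ?_⟩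
    rw [hv, ha, ← hv, h3, zpow_mul, zpow_natCast, hZ, ← map_zpow₀]
    rfl
  have hterm : ∀ j, g j ≠ 0 → ∃ n : ℤ, v (g j) = r ^ ((l : ℤ) * n) ∧ v (g j * Z ^ j) = r ^ ((l : ℤ) * n + j) := by
    intro j hj
    obtain ⟨n, hn⟩ := hval j hj
    refine ⟨n, hn, ?_⟩
    rw [map_mul, map_pow, hn, ← hr, zpow_add₀ hr0.ne', zpow_natCast]
  have hinj := (zpow_right_strictAnti₀ hr0 hr1)
  have hmod : ∀ (n n' : ℤ) (i j : ℕ), i < l → j < l → (l : ℤ) * n + i = (l : ℤ) * n' + j → i = j := by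
    intro n n' i j hi hj h
    have h2 : (i : ℤ) % l = (j : ℤ) % l := by
      have e1 : (i : ℤ) % l = ((l : ℤ) * n + i) % l := by rw [add_comm, Int.add_mul_emod_self_left]
      have e2 : (j : ℤ) % l = ((l : ℤ) * n' + j) % l := by rw [add_comm, Int.add_mul_emod_self_left]
      rw [e1, e2, h]
    rw [Int.emod_eq_of_lt (by positivity) (by exact_mod_cast hi), Int.emod_eq_of_lt (by positivity) (by exact_mod_cast hj)] at h2
    exact_mod_cast h2
  have hdist : ∀ i < l, ∀ j < l, g i * Z ^ i ≠ 0 → g j * Z ^ j ≠ 0 → v (g i * Z ^ i) = v (g j * Z ^ j) → i = j := by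
    intro i hi j hj h0i h0j h
    obtain ⟨n, -, hn⟩ := hterm i (left_ne_zero_of_mul h0i)
    obtain ⟨n', -, hn'⟩ := hterm j (left_ne_zero_of_mul h0j)
    rw [hn, hn'] at h
    exact hmod n n' i j hi hj (hinj.injective h)
  have hle : ∀ j < l, v (g j) ≤ 1 := by
    intro j hj
    by_cases h0 : g j = 0
    · rw [h0, map_zero]
      exact zero_le_one
    obtain ⟨n, hn, hn'⟩ := hterm j h0
    have h2 := (lc_max v l (fun j => g j * Z ^ j) hdist j hj).trans h1
    rw [hn', ← zpow_zero r, hinj.le_iff_ge] at h2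
    have h3 : 0 ≤ n := by
      by_contra hcon
      rw [not_le] at hcon
      have h4 : n ≤ -1 := by omega
      have h5 : (l : ℤ) * n ≤ (l : ℤ) * (-1) := mul_le_mul_of_nonneg_left h4 (by positivity)
      have h6 : (j : ℤ) < l := by exact_mod_cast hj
      linarith
    rw [hn, ← zpow_zero r, hinj.le_iff_ge]
    positivity
  -- the difference
  have hZV : Z ∈ V := (V.valuation_le_one_iff _).1 hr1.le
  have hsZ : v (s Z) ≤ 1 := (V.valuation_le_one_iff _).2 (lc_mem hi hZV)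
  have hdiff : s (∑ j ∈ Finset.range l, g j * Z ^ j) - ∑ j ∈ Finset.range l, g j * Z ^ j =
      ∑ j ∈ Finset.range l, g j * ((∑ i ∈ Finset.range j, (s Z) ^ i * Z ^ (j - 1 - i)) * (s Z - Z)) := by
    rw [map_sum, ← Finset.sum_sub_distrib]
    refine Finset.sum_congr rfl fun j _ => ?_
    rw [map_mul, map_pow, hg j s hs hi, geom_sum₂_mul]
    ring
  rw [hdiff]
  refine v.map_sum_le fun j hj => ?_
  rw [map_mul, map_mul, ← mul_assoc]
  refine mul_le_of_le_one_left' ?_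
  refine mul_le_one' (hle j (Finset.mem_range.1 hj)) ?_
  refine v.map_sum_le fun i _ => ?_
  rw [map_mul, map_pow, map_pow]
  exact mul_le_one' (pow_le_one' hsZ i) (pow_le_one' hr1.le _)

end H13S
end

-- from Lib.H13S.LD2
section

open NumberField IsDedekindDomain

namespace H13S

open H55P H28G H55B

/-- Chunk LD2 (S/M). Steps A, B, C together. step_a gives Z; step_b: a = sum over j < l of g_j y^j; y^j = sum over i < l of a_(j,i) Z^i with a_(j,i) in L; so a = sum over i < l of (sum over j of g_j a_(j,i)) Z^i, the coefficients are fixed by every s in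
L.fixingSubgroup with Inert V s. step_c: V.valuation (s a - a) ≤ V.valuation (s Z - Z), and step_a: (...)^(l-1) ≤ V.valuation l. -/
theorem coef_bound {F₀ : Type} [Field F₀] [NumberField F₀] {Ω : Type} [Field Ω] [CharZero Ω] [Algebra F₀ Ω]
    [IsAlgClosure F₀ Ω] (L : IntermediateField F₀ Ω) [NumberField L] (V : ValuationSubring Ω)
    (w : HeightOneSpectrum (𝓞 L)) (hw : Abv L V w) (l : ℕ) (hl : l.Prime) (h3 : 3 ≤ l)
    (hV : V.valuation (l : Ω) < 1)
    (hμ : ∀ ζ : Ω, ζ ^ l = 1 → ζ ∈ L) (m : L) (hm : m ≠ 0) (y : Ω) (hy : y ^ l = (m : Ω))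
    (hlev : ¬ ∃ z : L, z ≠ 0 ∧ w.valuation L (m / z ^ l - 1) ≤ WithZero.exp (-2 : ℤ))
    (a : Ω) (ha : V.valuation a ≤ 1) (hf : ∀ s ∈ L.fixingSubgroup, Inert V s → s y = y → s a = a)
    (s : Ω ≃ₐ[F₀] Ω) (hs : s ∈ L.fixingSubgroup) (hi : Inert V s) :
    V.valuation (s a - a) ^ (l - 1) ≤ V.valuation (l : Ω) := by
  classical
  obtain ⟨Z, ⟨t, ht, hZt⟩, hZ1, hZ2, hZ3⟩ := step_a L V w hw l hl h3 hV hμ m hm y hy hlev
  have hy0 : y ≠ 0 := by
    rintro rfl
    rw [zero_pow hl.ne_zero] at hy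
    exact hm (Subtype.ext hy.symm)
  have hyL : y ^ l ∈ L := by
    rw [hy]
    exact m.2
  obtain ⟨g, hg, hag⟩ := step_b L V l hl hμ y hy0 hyL a hf
  have hex : ∀ j : ℕ, ∃ A : ℕ → L, j < l → y ^ j = ∑ i ∈ Finset.range l, (A i : Ω) * Z ^ i := by
    intro j
    by_cases hj : j < l
    · obtain ⟨A, hA⟩ := hZ3 j hj
      exact ⟨A, fun _ => hA⟩
    · exact ⟨fun _ => 0, fun h => absurd h hj⟩
  choose A hA using hex
  set g' : ℕ → Ω := fun i => ∑ j ∈ Finset.range l, g j * (A j i : Ω) with hg'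
  have hfix : ∀ i, ∀ σ ∈ L.fixingSubgroup, Inert V σ → σ (g' i) = g' i := by
    intro i σ hσ hσi
    rw [hg']
    show σ (∑ j ∈ Finset.range l, g j * (A j i : Ω)) = ∑ j ∈ Finset.range l, g j * (A j i : Ω)
    rw [map_sum]
    refine Finset.sum_congr rfl fun j _ => ?_
    rw [map_mul, hg j σ hσ hσi, (IntermediateField.mem_fixingSubgroup_iff _ _).1 hσ _ (A j i).2]
  have hsum : a = ∑ i ∈ Finset.range l, g' i * Z ^ i := by
    rw [hag]
    have h1 : ∀ j ∈ Finset.range l, g j * y ^ j = ∑ i ∈ Finset.range l, g j * (A j i : Ω) * Z ^ i := by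
      intro j hj
      rw [hA j (Finset.mem_range.1 hj), Finset.mul_sum]
      refine Finset.sum_congr rfl fun i _ => ?_
      ring
    rw [Finset.sum_congr rfl h1, Finset.sum_comm]
    refine Finset.sum_congr rfl fun i _ => ?_
    rw [hg']
    show _ = (∑ j ∈ Finset.range l, g j * (A j i : Ω)) * Z ^ i
    rw [Finset.sum_mul]
  rw [hsum] at ha ⊢
  have h1 := step_c L V w hw l hl.pos Z t ht hZt g' hfix ha s hs hi
  exact (pow_le_pow_left' h1 _).trans (hZ2 s hs)

end H13S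
end

-- from Lib.H55K.G9B
section

/-! # H55K: counting the points of the reduction -/

open NumberField IsDedekindDomain WeierstrassCurve

namespace H55K

open H55P (IQ embF eF LF Per IsHecke Pt ac Inert Dec Nm)
open H35P (WAB Ker tt)

variable {F : Type} [Field F] [NumberField F] [IQ F] {A B : F} {Om : ℂ} {Ω : Type} [Field Ω] [DecidableEq Ω]
  [Algebra F Ω] {j : Ω →+* ℂ} {act : 𝓞 F →+* AddMonoid.End (Pt (WAB A B) Ω)} {V : ValuationSubring Ω}

section res

variable {F : Type} [Field F] [NumberField F] {Ω : Type} [Field Ω] [Algebra F Ω] {V : ValuationSubring Ω}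

/-- The map of the integers to the big field. -/
noncomputable def g9h (F : Type) [Field F] (Ω : Type) [Field Ω] [Algebra F Ω] : 𝓞 F →+* Ω :=
  (algebraMap F Ω).comp (algebraMap (𝓞 F) F)

omit [NumberField F] in
theorem g9h_eq (a : 𝓞 F) : g9h F Ω a = ak Ω a := rfl

/-- The residue map on the integers. -/
noncomputable def g9r (F : Type) [Field F] {Ω : Type} [Field Ω] [Algebra F Ω] (V : ValuationSubring Ω) :
    𝓞 F →+* IsLocalRing.ResidueField V :=
  (IsLocalRing.residue V).comp ((g9h F Ω).codRestrict V fun a => (V.valuation_le_one_iff _).1 (ak_le V a))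

omit [NumberField F] in
theorem g9r_eq (a : 𝓞 F) (h : ak Ω a ∈ V) : g9r F V a = IsLocalRing.residue V ⟨ak Ω a, h⟩ := rfl

theorem g9_res {x : Ω} (hx : x ∈ V) : IsLocalRing.residue V ⟨x, hx⟩ = 0 ↔ V.valuation x < 1 := by
  rw [IsLocalRing.residue_eq_zero_iff, ValuationSubring.valuation_lt_one_iff]

omit [NumberField F] in
theorem g9r_zero (a : 𝓞 F) : g9r F V a = 0 ↔ V.valuation (ak Ω a) < 1 := g9_res _

theorem g9_ker {v : HeightOneSpectrum (𝓞 F)} (hv : ∀ a : 𝓞 F, a ∈ v.asIdeal → V.valuation (ak Ω a) < 1)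
    (a : 𝓞 F) : V.valuation (ak Ω a) < 1 ↔ a ∈ v.asIdeal := by
  refine ⟨fun h => ?_, hv a⟩
  have h1 : v.asIdeal ≤ RingHom.ker (g9r F V) := fun x hx => (g9r_zero x).2 (hv x hx)
  have h2 : RingHom.ker (g9r F V) ≠ ⊤ := RingHom.ker_ne_top _
  have h3 := v.isMaximal.eq_of_le h2 h1
  rw [h3]
  exact (g9r_zero a).2 h

theorem g9_frob {v : HeightOneSpectrum (𝓞 F)} (hv : ∀ a : 𝓞 F, a ∈ v.asIdeal → V.valuation (ak Ω a) < 1)
    {x : Ω} (hx : V.valuation x ≤ 1) : V.valuation (x ^ Ideal.absNorm v.asIdeal - x) < 1 ↔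
      ∃ a : 𝓞 F, V.valuation (x - ak Ω a) < 1 := by
  classical
  have hm := v.isMaximal
  let _ : Field (𝓞 F ⧸ v.asIdeal) := Ideal.Quotient.field _
  have hfin : Finite (𝓞 F ⧸ v.asIdeal) := Ideal.finiteQuotientOfFreeOfNeBot _ v.ne_bot
  let _ := Fintype.ofFinite (𝓞 F ⧸ v.asIdeal)
  have hq : Ideal.absNorm v.asIdeal = Fintype.card (𝓞 F ⧸ v.asIdeal) := by
    rw [← Nat.card_eq_fintype_card]
    rfl
  have hq1 : 1 < Fintype.card (𝓞 F ⧸ v.asIdeal) := Fintype.one_lt_card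
  set q := Fintype.card (𝓞 F ⧸ v.asIdeal) with hqdef
  have hxV : x ∈ V := (V.valuation_le_one_iff _).1 hx
  let ρ : 𝓞 F ⧸ v.asIdeal →+* IsLocalRing.ResidueField V :=
    Ideal.Quotient.lift v.asIdeal (g9r F V) fun a ha => (g9r_zero a).2 (hv a ha)
  have hρ : ∀ a : 𝓞 F, ρ (Ideal.Quotient.mk v.asIdeal a) = g9r F V a := fun a => rfl
  have e1 : V.valuation (x ^ Ideal.absNorm v.asIdeal - x) < 1 ↔
      IsLocalRing.residue V ⟨x, hxV⟩ ^ q = IsLocalRing.residue V ⟨x, hxV⟩ := by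
    rw [hq, ← sub_eq_zero, ← map_pow, ← map_sub]
    exact (g9_res (V := V) _).symm
  have e2 : (∃ a : 𝓞 F, V.valuation (x - ak Ω a) < 1) ↔ ∃ a : 𝓞 F ⧸ v.asIdeal, ρ a = IsLocalRing.residue V ⟨x, hxV⟩ := by
    constructor
    · rintro ⟨a, ha⟩
      refine ⟨Ideal.Quotient.mk _ a, ?_⟩
      have haV : ak Ω a ∈ V := (V.valuation_le_one_iff _).1 (ak_le V a)
      rw [hρ, g9r_eq a haV, eq_comm, ← sub_eq_zero, ← map_sub]
      exact (g9_res (V := V) (x := x - ak Ω a) (V.sub_mem hxV haV)).2 ha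
    · rintro ⟨a, ha⟩
      obtain ⟨a, rfl⟩ := Ideal.Quotient.mk_surjective a
      refine ⟨a, ?_⟩
      have haV : ak Ω a ∈ V := (V.valuation_le_one_iff _).1 (ak_le V a)
      rw [hρ, g9r_eq a haV, eq_comm, ← sub_eq_zero, ← map_sub] at ha
      exact (g9_res (V := V) (x := x - ak Ω a) (V.sub_mem hxV haV)).1 ha
  rw [e1, e2]
  constructor
  · intro h
    have hp : (Polynomial.X ^ q - Polynomial.X : Polynomial (IsLocalRing.ResidueField V)) ≠ 0 :=
      FiniteField.X_pow_card_sub_X_ne_zero _ hq1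
    have hd : (Polynomial.X ^ q - Polynomial.X : Polynomial (IsLocalRing.ResidueField V)).natDegree = q :=
      FiniteField.X_pow_card_sub_X_natDegree_eq _ hq1
    have hsub : Finset.univ.image ρ ⊆
        (Polynomial.X ^ q - Polynomial.X : Polynomial (IsLocalRing.ResidueField V)).roots.toFinset := by
      intro z hz
      obtain ⟨a, -, rfl⟩ := Finset.mem_image.1 hz
      rw [Multiset.mem_toFinset, Polynomial.mem_roots hp, Polynomial.IsRoot.def]
      simp only [Polynomial.eval_sub, Polynomial.eval_pow, Polynomial.eval_X]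
      rw [← map_pow, hqdef, FiniteField.pow_card, sub_self]
    have hcard : (Finset.univ.image ρ).card = q := by
      rw [Finset.card_image_of_injective _ ρ.injective, Finset.card_univ]
    have heq := Finset.eq_of_subset_of_card_le hsub (by
      rw [hcard]
      exact (Multiset.toFinset_card_le _).trans ((Polynomial.card_roots' _).trans (le_of_eq hd)))
    have hmem : IsLocalRing.residue V ⟨x, hxV⟩ ∈
        (Polynomial.X ^ q - Polynomial.X : Polynomial (IsLocalRing.ResidueField V)).roots.toFinset := by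
      rw [Multiset.mem_toFinset, Polynomial.mem_roots hp, Polynomial.IsRoot.def]
      simp only [Polynomial.eval_sub, Polynomial.eval_pow, Polynomial.eval_X]
      rw [h, sub_self]
    rw [← heq, Finset.mem_image] at hmem
    obtain ⟨a, -, ha⟩ := hmem
    exact ⟨a, ha⟩
  · rintro ⟨a, ha⟩
    rw [← ha, ← map_pow, hqdef, FiniteField.pow_card]

/-- A prime to v natural number is invertible modulo v. -/
theorem g9_inv {v : HeightOneSpectrum (𝓞 F)} (hv : ∀ a : 𝓞 F, a ∈ v.asIdeal → V.valuation (ak Ω a) < 1)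
    (n : ℕ) (hn : V.valuation (n : Ω) = 1) : ∃ c : 𝓞 F, V.valuation (ak Ω c * n - 1) < 1 := by
  have hm := v.isMaximal
  let _ : Field (𝓞 F ⧸ v.asIdeal) := Ideal.Quotient.field _
  have hakn : ak Ω (n : 𝓞 F) = (n : Ω) := by
    rw [← g9h_eq]
    exact map_natCast _ _
  have h1 : (n : 𝓞 F) ∉ v.asIdeal := by
    intro h
    have := hv _ h
    rw [hakn, hn] at this
    exact lt_irrefl _ this
  have h2 : Ideal.Quotient.mk v.asIdeal (n : 𝓞 F) ≠ 0 := by
    rwa [Ne, Ideal.Quotient.eq_zero_iff_mem]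
  obtain ⟨c, hc⟩ := Ideal.Quotient.mk_surjective (I := v.asIdeal) ((Ideal.Quotient.mk v.asIdeal (n : 𝓞 F))⁻¹)
  refine ⟨c, ?_⟩
  have h3 : Ideal.Quotient.mk v.asIdeal (c * (n : 𝓞 F) - 1) = 0 := by
    rw [map_sub, map_mul, map_one, hc, inv_mul_cancel₀ h2, sub_self]
  rw [Ideal.Quotient.eq_zero_iff_mem] at h3
  have h4 := hv _ h3
  have h5 : ak Ω (c * (n : 𝓞 F) - 1) = ak Ω c * n - 1 := by
    rw [← g9h_eq, map_sub, map_mul, map_one, map_natCast, g9h_eq]
  rwa [h5] at h4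

omit [NumberField F] in
theorem g9_mul {x y : Ω} (hx : V.valuation x < 1) (hy : V.valuation y ≤ 1) : V.valuation (x * y) < 1 := by
  rw [map_mul]
  exact mul_lt_one_of_lt_of_le hx hy

theorem g9_div {v : HeightOneSpectrum (𝓞 F)} (hv : ∀ a : 𝓞 F, a ∈ v.asIdeal → V.valuation (ak Ω a) < 1)
    (n : ℕ) (hn : V.valuation (n : Ω) = 1) (a : 𝓞 F) : ∃ c : 𝓞 F, V.valuation (ak Ω a / n - ak Ω c) < 1 := by
  obtain ⟨c, hc⟩ := g9_inv hv n hn
  have hn0 : (n : Ω) ≠ 0 := by
    intro h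
    rw [h, map_zero] at hn
    exact zero_ne_one hn
  refine ⟨a * c, ?_⟩
  have h1 : ak Ω a / n - ak Ω (a * c) = (ak Ω c * n - 1) * (-(ak Ω a) / n) := by
    rw [← g9h_eq (Ω := Ω) (a * c), map_mul, g9h_eq, g9h_eq]
    field_simp
    ring
  rw [h1]
  refine g9_mul hc ?_
  rw [map_div₀, hn, div_one, Valuation.map_neg]
  exact ak_le V a

end res

/-- The equation of the integral model. -/
def g9E {F : Type} [Field F] (W₀ : WeierstrassCurve (𝓞 F)) (a b : 𝓞 F) : 𝓞 F :=
  b ^ 2 + W₀.a₁ * a * b + W₀.a₃ * b - (a ^ 3 + W₀.a₂ * a ^ 2 + W₀.a₄ * a + W₀.a₆)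

/-- The coordinates of the point of the short model. -/
noncomputable def g9x {F : Type} [Field F] (Ω : Type) [Field Ω] [Algebra F Ω] (W₀ : WeierstrassCurve (𝓞 F)) (a : 𝓞 F) : Ω :=
  ak Ω a + ak Ω W₀.b₂ / (12 : ℕ)

noncomputable def g9y {F : Type} [Field F] (Ω : Type) [Field Ω] [Algebra F Ω] (W₀ : WeierstrassCurve (𝓞 F)) (a b : 𝓞 F) : Ω :=
  ak Ω b + ak Ω (W₀.a₁ * a) / (2 : ℕ) + ak Ω W₀.a₃ / (2 : ℕ)

omit [NumberField F] [IQ F] [DecidableEq Ω] in
theorem g9_ident (h2 : (2 : Ω) ≠ 0) (h3 : (3 : Ω) ≠ 0) (W₀ : WeierstrassCurve (𝓞 F))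
    (hA : A = -(algebraMap (𝓞 F) F W₀.c₄) / 48) (hB : B = -(algebraMap (𝓞 F) F W₀.c₆) / 864) (a b : 𝓞 F) :
    g9y Ω W₀ a b ^ 2 - (g9x Ω W₀ a ^ 3 + algebraMap F Ω A * g9x Ω W₀ a + algebraMap F Ω B) = ak Ω (g9E W₀ a b) := by
  have eA : algebraMap F Ω A = - g9h F Ω W₀.c₄ / 48 := by
    rw [hA, map_div₀, map_neg, map_ofNat]
    rfl
  have eB : algebraMap F Ω B = - g9h F Ω W₀.c₆ / 864 := by
    rw [hB, map_div₀, map_neg, map_ofNat]
    rfl
  have h12 : (12 : Ω) ≠ 0 := by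
    have : (12 : Ω) = 2 ^ 2 * 3 := by norm_num
    rw [this]
    exact mul_ne_zero (pow_ne_zero 2 h2) h3
  have h48 : (48 : Ω) ≠ 0 := by
    have : (48 : Ω) = 2 ^ 4 * 3 := by norm_num
    rw [this]
    exact mul_ne_zero (pow_ne_zero 4 h2) h3
  have h864 : (864 : Ω) ≠ 0 := by
    have : (864 : Ω) = 2 ^ 5 * 3 ^ 3 := by norm_num
    rw [this]
    exact mul_ne_zero (pow_ne_zero 5 h2) (pow_ne_zero 3 h3)
  rw [eA, eB]
  unfold g9x g9y g9E
  simp only [← g9h_eq, Nat.cast_ofNat]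
  simp only [WeierstrassCurve.c₄, WeierstrassCurve.c₆, WeierstrassCurve.b₂, WeierstrassCurve.b₄, WeierstrassCurve.b₆,
    map_add, map_mul, map_sub, map_neg, map_pow, map_ofNat]
  field_simp
  ring

omit [NumberField F] [IQ F] [DecidableEq Ω] in
theorem g9_twelve (hV : GV A B V) : V.valuation (((12 : ℕ) : Ω)) = 1 ∧ V.valuation (((2 : ℕ) : Ω)) = 1 ∧
    (2 : Ω) ≠ 0 ∧ (3 : Ω) ≠ 0 := by
  have h2 := hV.two
  have h3 := hV.three
  refine ⟨?_, ?_, ?_, ?_⟩
  · have : ((12 : ℕ) : Ω) = 2 ^ 2 * 3 := by norm_num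
    rw [this, map_mul, map_pow, h2, h3]
    simp
  · rw [Nat.cast_ofNat]
    exact h2
  · intro h
    rw [h, map_zero] at h2
    exact zero_ne_one h2
  · intro h
    rw [h, map_zero] at h3
    exact zero_ne_one h3

omit [NumberField F] [IQ F] [DecidableEq Ω] in
theorem g9_int (hV : GV A B V) (W₀ : WeierstrassCurve (𝓞 F)) (a b : 𝓞 F) :
    V.valuation (g9x Ω W₀ a) ≤ 1 ∧ V.valuation (g9y Ω W₀ a b) ≤ 1 := by
  obtain ⟨h12, h2, -, -⟩ := g9_twelve hV
  have hd : ∀ (n : ℕ) (c : 𝓞 F), V.valuation (n : Ω) = 1 → V.valuation (ak Ω c / n) ≤ 1 := by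
    intro n c hn
    rw [map_div₀, hn, div_one]
    exact ak_le V c
  constructor
  · exact (Valuation.map_add _ _ _).trans (max_le (ak_le V a) (hd _ _ h12))
  · exact (Valuation.map_add _ _ _).trans (max_le
      ((Valuation.map_add _ _ _).trans (max_le (ak_le V b) (hd _ _ h2))) (hd _ _ h2))

omit [NumberField F] [IQ F] [DecidableEq Ω] in
/-- Existence of a lift of a point modulo v. -/
theorem g9_lift [IsAlgClosed Ω] (hV : GV A B V) (W₀ : WeierstrassCurve (𝓞 F))
    (hA : A = -(algebraMap (𝓞 F) F W₀.c₄) / 48) (hB : B = -(algebraMap (𝓞 F) F W₀.c₆) / 864) (a b : 𝓞 F)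
    (hE : V.valuation (ak Ω (g9E W₀ a b)) < 1) : ∃ X : Pt (WAB A B) Ω, ¬ Ker V X ∧ xc X = g9x Ω W₀ a ∧
      V.valuation (yc X - g9y Ω W₀ a b) < 1 := by
  obtain ⟨h12, h2', h2, h3⟩ := g9_twelve hV
  obtain ⟨hx, hy⟩ := g9_int hV W₀ a b
  obtain ⟨z, hz⟩ := IsAlgClosed.exists_pow_nat_eq (g9x Ω W₀ a ^ 3 + algebraMap F Ω A * g9x Ω W₀ a + algebraMap F Ω B)
    (show 0 < 2 by norm_num)
  have hid := g9_ident h2 h3 W₀ hA hB a b
  rw [← hz] at hid
  have hprod : V.valuation (g9y Ω W₀ a b - z) * V.valuation (g9y Ω W₀ a b + z) < 1 := by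
    rw [← map_mul]
    have : (g9y Ω W₀ a b - z) * (g9y Ω W₀ a b + z) = g9y Ω W₀ a b ^ 2 - z ^ 2 := by ring
    rw [this, hid]
    exact hE
  have hΔ : ((WAB A B)⁄Ω).Δ ≠ 0 := by
    rw [s_Δ, base_a4, base_a6]
    have h4 := hV.disc
    have h5 : algebraMap F Ω (4 * A ^ 3 + 27 * B ^ 2) ≠ 0 := by
      intro h
      rw [h, map_zero] at h4
      exact zero_ne_one h4
    have h6 : algebraMap F Ω (4 * A ^ 3 + 27 * B ^ 2) = 4 * algebraMap F Ω A ^ 3 + 27 * algebraMap F Ω B ^ 2 := by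
      rw [map_add, map_mul, map_mul, map_pow, map_pow, map_ofNat, map_ofNat]
    rw [← h6]
    refine mul_ne_zero ?_ h5
    have : (-16 : Ω) = -2 ^ 4 := by norm_num
    rw [this]
    exact neg_ne_zero.2 (pow_ne_zero 4 h2)
  have hpt : ∀ y' : Ω, y' ^ 2 = z ^ 2 → V.valuation (y' - g9y Ω W₀ a b) < 1 → ∃ X : Pt (WAB A B) Ω, ¬ Ker V X ∧
      xc X = g9x Ω W₀ a ∧ V.valuation (yc X - g9y Ω W₀ a b) < 1 := by
    intro y' hy' hv'
    obtain ⟨X, hX0, hXx, hXy⟩ := exists_pt (W := (WAB A B)⁄Ω) hΔ (x := g9x Ω W₀ a) (y := y') (by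
      rw [hy', hz, base_a4, base_a6])
    refine ⟨X, ?_, hXx, ?_⟩
    · rw [ker_iff V hX0, hXx]
      exact not_lt.2 hx
    · rw [hXy]
      exact hv'
  by_cases h1 : V.valuation (g9y Ω W₀ a b - z) < 1
  · refine hpt z rfl ?_
    rw [Valuation.map_sub_swap]
    exact h1
  · have h7 : V.valuation (g9y Ω W₀ a b + z) < 1 := by
      by_contra h8
      push Not at h1 h8
      exact absurd hprod (not_lt.2 (one_le_mul h1 h8))
    refine hpt (-z) (by ring) ?_
    have : -z - g9y Ω W₀ a b = -(g9y Ω W₀ a b + z) := by ring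
    rw [this, Valuation.map_neg]
    exact h7

omit [IQ F] [DecidableEq Ω] in
/-- The coordinates of the lifts are congruent to elements of 𝓞 F. -/
theorem g9_apx (hV : GV A B V) (W₀ : WeierstrassCurve (𝓞 F)) (v : HeightOneSpectrum (𝓞 F))
    (hv : ∀ a : 𝓞 F, a ∈ v.asIdeal → V.valuation (ak Ω a) < 1) :
    ∃ β : 𝓞 F, ∀ a : 𝓞 F, V.valuation (g9x Ω W₀ a - ak Ω (a + β)) < 1 ∧
      ∃ γ : 𝓞 F, ∀ b : 𝓞 F, V.valuation (g9y Ω W₀ a b - ak Ω (b + γ)) < 1 := by
  obtain ⟨h12, h2', -, -⟩ := g9_twelve hV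
  obtain ⟨β, hβ⟩ := g9_div hv 12 h12 W₀.b₂
  refine ⟨β, fun a => ⟨?_, ?_⟩⟩
  · have : g9x Ω W₀ a - ak Ω (a + β) = ak Ω W₀.b₂ / (12 : ℕ) - ak Ω β := by
      unfold g9x
      rw [← g9h_eq (Ω := Ω) (a + β), map_add, g9h_eq, g9h_eq]
      ring
    rw [this]
    exact hβ
  · obtain ⟨c, hc⟩ := g9_div hv 2 h2' (W₀.a₁ * a)
    obtain ⟨d, hd⟩ := g9_div hv 2 h2' W₀.a₃
    refine ⟨c + d, fun b => ?_⟩
    have : g9y Ω W₀ a b - ak Ω (b + (c + d)) = (ak Ω (W₀.a₁ * a) / (2 : ℕ) - ak Ω c) +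
        (ak Ω W₀.a₃ / (2 : ℕ) - ak Ω d) := by
      unfold g9y
      rw [← g9h_eq (Ω := Ω) (b + (c + d)), map_add, map_add, g9h_eq, g9h_eq, g9h_eq]
      ring
    rw [this]
    exact Valuation.map_add_lt _ hc hd

omit [NumberField F] [IQ F] [DecidableEq Ω] in
theorem g9_tri {x y z : Ω} (h1 : V.valuation (x - y) < 1) (h2 : V.valuation (y - z) < 1) :
    V.valuation (x - z) < 1 := by
  have : x - z = (x - y) + (y - z) := by ring
  rw [this]
  exact Valuation.map_add_lt _ h1 h2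

omit [IQ F] in
/-- The class of a lift is fixed by the Frobenius element. -/
theorem g9_fix (hV : GV A B V) (W₀ : WeierstrassCurve (𝓞 F)) (v : HeightOneSpectrum (𝓞 F))
    (hv : ∀ a : 𝓞 F, a ∈ v.asIdeal → V.valuation (ak Ω a) < 1) (s : Ω ≃ₐ[F] Ω)
    (hs : ∀ x ∈ V, V.valuation (s x - x ^ Ideal.absNorm v.asIdeal) < 1) (a b : 𝓞 F) {X : Pt (WAB A B) Ω}
    (hX : ¬ Ker V X) (hx : V.valuation (xc X - g9x Ω W₀ a) < 1) (hy : V.valuation (yc X - g9y Ω W₀ a b) < 1) :
    Ker V (ac (WAB A B) s X - X) := by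
  obtain ⟨β, hβ⟩ := g9_apx hV W₀ v hv
  obtain ⟨h1, γ, h2⟩ := hβ a
  have hxi := (not_ker V hX).2
  have hyi := gv_y hV hX
  have e1 : V.valuation (xc X ^ Ideal.absNorm v.asIdeal - xc X) < 1 :=
    (g9_frob hv hxi).2 ⟨a + β, g9_tri hx h1⟩
  have e2 : V.valuation (yc X ^ Ideal.absNorm v.asIdeal - yc X) < 1 :=
    (g9_frob hv hyi).2 ⟨b + γ, g9_tri hy (h2 b)⟩
  have e3 := g9_tri (hs _ ((V.valuation_le_one_iff _).1 hxi)) e1
  have e4 := g9_tri (hs _ ((V.valuation_le_one_iff _).1 hyi)) e2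
  have hsX : ¬ Ker V (ac (WAB A B) s X) := by
    rw [ker_iff V (ac_ne (WAB A B) s (not_ker V hX).1), xc_ac, not_lt]
    have : s (xc X) = (s (xc X) - xc X) + xc X := by ring
    rw [this]
    exact (Valuation.map_add _ _ _).trans (max_le e3.le hxi)
  apply cls_xy hV hsX hX
  · rw [xc_ac]
    exact e3
  · rw [yc_ac]
    exact e4

omit [IQ F] in
/-- A fixed class comes from a point modulo v. -/
theorem g9_conv (hV : GV A B V) (W₀ : WeierstrassCurve (𝓞 F))
    (hA : A = -(algebraMap (𝓞 F) F W₀.c₄) / 48) (hB : B = -(algebraMap (𝓞 F) F W₀.c₆) / 864)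
    (v : HeightOneSpectrum (𝓞 F))
    (hv : ∀ a : 𝓞 F, a ∈ v.asIdeal → V.valuation (ak Ω a) < 1) (s : Ω ≃ₐ[F] Ω)
    (hs : ∀ x ∈ V, V.valuation (s x - x ^ Ideal.absNorm v.asIdeal) < 1) {X : Pt (WAB A B) Ω}
    (hX : ¬ Ker V X) (hk : Ker V (ac (WAB A B) s X - X)) : ∃ a b : 𝓞 F, g9E W₀ a b ∈ v.asIdeal ∧
      V.valuation (xc X - g9x Ω W₀ a) < 1 ∧ V.valuation (yc X - g9y Ω W₀ a b) < 1 := by
  obtain ⟨h12, h2', h2, h3⟩ := g9_twelve hV
  obtain ⟨hX0, hxi⟩ := not_ker V hX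
  have hyi := gv_y hV hX
  obtain ⟨-, hx1, hy1⟩ := cls_conv hV hX hk
  rw [xc_ac] at hx1
  rw [yc_ac] at hy1
  have e1 : V.valuation (xc X ^ Ideal.absNorm v.asIdeal - xc X) < 1 := by
    refine g9_tri ?_ hx1
    rw [Valuation.map_sub_swap]
    exact hs _ ((V.valuation_le_one_iff _).1 hxi)
  have e2 : V.valuation (yc X ^ Ideal.absNorm v.asIdeal - yc X) < 1 := by
    refine g9_tri ?_ hy1
    rw [Valuation.map_sub_swap]
    exact hs _ ((V.valuation_le_one_iff _).1 hyi)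
  obtain ⟨a₁, ha₁⟩ := (g9_frob hv hxi).1 e1
  obtain ⟨b₁, hb₁⟩ := (g9_frob hv hyi).1 e2
  obtain ⟨β, hβ⟩ := g9_apx hV W₀ v hv
  obtain ⟨h4, γ, h5⟩ := hβ (a₁ - β)
  have h6 := h5 (b₁ - γ)
  rw [sub_add_cancel] at h4 h6
  have hx : V.valuation (xc X - g9x Ω W₀ (a₁ - β)) < 1 := by
    refine g9_tri ha₁ ?_
    rw [Valuation.map_sub_swap]
    exact h4
  have hy : V.valuation (yc X - g9y Ω W₀ (a₁ - β) (b₁ - γ)) < 1 := by
    refine g9_tri hb₁ ?_
    rw [Valuation.map_sub_swap]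
    exact h6
  refine ⟨a₁ - β, b₁ - γ, ?_, hx, hy⟩
  rw [← g9_ker hv, ← g9_ident h2 h3 W₀ hA hB]
  obtain ⟨hgx, hgy⟩ := g9_int hV W₀ (a₁ - β) (b₁ - γ)
  set x' := g9x Ω W₀ (a₁ - β)
  set y' := g9y Ω W₀ (a₁ - β) (b₁ - γ)
  have hA1 : V.valuation (algebraMap F Ω A) ≤ 1 := (V.valuation_le_one_iff _).2 hV.a
  have heq := eqnA hX0
  have h7 : y' ^ 2 - (x' ^ 3 + algebraMap F Ω A * x' + algebraMap F Ω B) =
      (yc X - y') * (-(yc X + y')) + (xc X - x') * (xc X ^ 2 + xc X * x' + x' ^ 2 + algebraMap F Ω A) := by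
    linear_combination heq
  rw [h7]
  have hm : ∀ {x y : Ω}, V.valuation x ≤ 1 → V.valuation y ≤ 1 → V.valuation (x * y) ≤ 1 := by
    intro x y hx hy
    rw [map_mul]
    exact mul_le_one' hx hy
  have hp : ∀ {x y : Ω}, V.valuation x ≤ 1 → V.valuation y ≤ 1 → V.valuation (x + y) ≤ 1 :=
    fun hx hy => (Valuation.map_add _ _ _).trans (max_le hx hy)
  refine Valuation.map_add_lt _ (g9_mul hy ?_) (g9_mul hx ?_)
  · rw [Valuation.map_neg]
    exact hp hyi hgy
  · rw [sq, sq]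
    exact hp (hp (hp (hm hxi hxi) (hm hxi hgx)) (hm hgx hgx)) hA1

omit [NumberField F] [IQ F] in
theorem g9_nons (W₀ : WeierstrassCurve (𝓞 F)) (v : HeightOneSpectrum (𝓞 F)) (hΔ : W₀.Δ ∉ v.asIdeal) (a b : 𝓞 F) :
    (W₀⁄(𝓞 F ⧸ v.asIdeal)).toAffine.Nonsingular (Ideal.Quotient.mk v.asIdeal a) (Ideal.Quotient.mk v.asIdeal b) ↔
      g9E W₀ a b ∈ v.asIdeal := by
  have h1 : (W₀⁄(𝓞 F ⧸ v.asIdeal)).Δ ≠ 0 := by
    have h2 : (W₀⁄(𝓞 F ⧸ v.asIdeal)).Δ = Ideal.Quotient.mk v.asIdeal W₀.Δ :=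
      WeierstrassCurve.map_Δ W₀ (algebraMap (𝓞 F) (𝓞 F ⧸ v.asIdeal))
    rw [h2]
    exact fun h => hΔ (Ideal.Quotient.eq_zero_iff_mem.1 h)
  rw [← Affine.equation_iff_nonsingular_of_Δ_ne_zero (W := (W₀⁄(𝓞 F ⧸ v.asIdeal)).toAffine) h1, Affine.equation_iff,
    ← Ideal.Quotient.eq_zero_iff_mem]
  unfold g9E
  rw [← sub_eq_zero]
  have e1 : (W₀⁄(𝓞 F ⧸ v.asIdeal)).a₁ = Ideal.Quotient.mk v.asIdeal W₀.a₁ := rfl
  have e2 : (W₀⁄(𝓞 F ⧸ v.asIdeal)).a₂ = Ideal.Quotient.mk v.asIdeal W₀.a₂ := rfl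
  have e3 : (W₀⁄(𝓞 F ⧸ v.asIdeal)).a₃ = Ideal.Quotient.mk v.asIdeal W₀.a₃ := rfl
  have e4 : (W₀⁄(𝓞 F ⧸ v.asIdeal)).a₄ = Ideal.Quotient.mk v.asIdeal W₀.a₄ := rfl
  have e6 : (W₀⁄(𝓞 F ⧸ v.asIdeal)).a₆ = Ideal.Quotient.mk v.asIdeal W₀.a₆ := rfl
  simp only [map_sub, map_add, map_mul, map_pow]
  rw [← e1, ← e2, ← e3, ← e4, ← e6]

/-- The class c is the class of the lifts of the point P. -/
def g9R (hV : GV A B V) (W₀ : WeierstrassCurve (𝓞 F)) (v : HeightOneSpectrum (𝓞 F))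
    (P : (W₀⁄(𝓞 F ⧸ v.asIdeal)).toAffine.Point) (c : Pt (WAB A B) Ω ⧸ kerG hV) : Prop :=
  (P = 0 ∧ c = 0) ∨ ∃ (a b : 𝓞 F) (h : (W₀⁄(𝓞 F ⧸ v.asIdeal)).toAffine.Nonsingular (Ideal.Quotient.mk v.asIdeal a)
    (Ideal.Quotient.mk v.asIdeal b)) (X : Pt (WAB A B) Ω), P = .some _ _ h ∧ c = (X : Pt (WAB A B) Ω ⧸ kerG hV) ∧
      ¬ Ker V X ∧ V.valuation (xc X - g9x Ω W₀ a) < 1 ∧ V.valuation (yc X - g9y Ω W₀ a b) < 1

omit [IQ F] [DecidableEq Ω] in
theorem g9_sub (W₀ : WeierstrassCurve (𝓞 F)) (hV : GV A B V) (v : HeightOneSpectrum (𝓞 F))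
    (hv : ∀ a : 𝓞 F, a ∈ v.asIdeal → V.valuation (ak Ω a) < 1) (a b a' b' : 𝓞 F) :
    (V.valuation (g9x Ω W₀ a - g9x Ω W₀ a') < 1 ↔ Ideal.Quotient.mk v.asIdeal a = Ideal.Quotient.mk v.asIdeal a') ∧
    (Ideal.Quotient.mk v.asIdeal a = Ideal.Quotient.mk v.asIdeal a' →
      (V.valuation (g9y Ω W₀ a b - g9y Ω W₀ a' b') < 1 ↔
        Ideal.Quotient.mk v.asIdeal b = Ideal.Quotient.mk v.asIdeal b')) := by
  obtain ⟨-, h2', -, -⟩ := g9_twelve hV
  have h1 : g9x Ω W₀ a - g9x Ω W₀ a' = ak Ω (a - a') := by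
    unfold g9x
    rw [← g9h_eq (Ω := Ω) (a - a'), map_sub, g9h_eq, g9h_eq]
    ring
  constructor
  · rw [h1, g9_ker hv, ← Ideal.Quotient.eq]
  · intro hab
    rw [Ideal.Quotient.eq] at hab
    have h3 : g9y Ω W₀ a b - g9y Ω W₀ a' b' = ak Ω (b - b') + ak Ω (a - a') * (ak Ω W₀.a₁ / (2 : ℕ)) := by
      unfold g9y
      simp only [← g9h_eq, map_sub, map_mul]
      ring
    have h4 : V.valuation (ak Ω (a - a') * (ak Ω W₀.a₁ / (2 : ℕ))) < 1 := by
      refine g9_mul (hv _ hab) ?_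
      rw [map_div₀, h2', div_one]
      exact ak_le V _
    rw [h3, Ideal.Quotient.eq, ← g9_ker hv]
    constructor
    · intro h5
      have h6 := Valuation.map_sub_lt _ h5 h4
      rwa [add_sub_cancel_right] at h6
    · intro h5
      exact Valuation.map_add_lt _ h5 h4

/-- Chunk G9B (M/L). The points of the reduction of W₀ modulo v are the classes X modulo kerG with sX = X, s a Frobenius element. W₀ has short form A = -c₄/48, B = -c₆/864: over Ω, (x, y) of W₀ corresponds to (x + β, y + α x + τ) of WAB A B, β = b₂/12, α = a₁/2, τ = a₃/2 (see PS4_D, PS4_iso, exists_short in H55P/S4.lean). V(6) = 1, so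
these are in V and the kernels of reduction correspond; everything commutes with ac (α, β, τ in F). k = 𝓞 F ⧸ v.asIdeal has q = absNorm v elements. Given a nonzero point (x̄, ȳ) of W₀ over k: lift x̄ to x in 𝓞 F, the monic polynomial Y^2 + a₁ x Y + a₃ Y - (x^3 + ..) has roots y₁, y₂ in V (Ω algebraically closed, integral), one of them is
congruent to ȳ modulo V (the map 𝓞 F -> residue field of V has kernel v): a point X of WAB A B, not in Ker; its class does not depend on the choices (cls_xy) and s X = X modulo Ker (V(s x - x^q) < 1, x^q congruent to x, the same for y: hs; cls_xy). Conversely X not in Ker with Ker V (sX - X): x(X)^q is congruent to s x(X) = x(sX), congruent to x(X)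
(cls_conv), so x(X) is congruent to an element of 𝓞 F (the residue field of V contains k as the set of roots of T^q - T: injection of k into the residue field, at most q roots), the same for y(X) and for the coordinates of W₀. The equation of W₀ and W₀ nonsingular modulo v (hΔ: Δ is not 0 in k; equation_iff_nonsingular_of_Δ_ne_zero). -/
theorem red_card [IsAlgClosed Ω] (hV : GV A B V) (W₀ : WeierstrassCurve (𝓞 F))
    (hA : A = -(algebraMap (𝓞 F) F W₀.c₄) / 48) (hB : B = -(algebraMap (𝓞 F) F W₀.c₆) / 864)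
    (v : HeightOneSpectrum (𝓞 F)) (hΔ : W₀.Δ ∉ v.asIdeal)
    (hv : ∀ a : 𝓞 F, a ∈ v.asIdeal → V.valuation (ak Ω a) < 1) (s : Ω ≃ₐ[F] Ω)
    (hs : ∀ x ∈ V, V.valuation (s x - x ^ Ideal.absNorm v.asIdeal) < 1) :
    Nat.card (W₀⁄(𝓞 F ⧸ v.asIdeal)).toAffine.Point =
      Nat.card {c : Pt (WAB A B) Ω ⧸ kerG hV // ∃ X : Pt (WAB A B) Ω, (X : Pt (WAB A B) Ω ⧸ kerG hV) = c ∧
        Ker V (ac (WAB A B) s X - X)} := by
  -- every point has a class
  have htot : ∀ P : (W₀⁄(𝓞 F ⧸ v.asIdeal)).toAffine.Point, ∃ c : {c : Pt (WAB A B) Ω ⧸ kerG hV //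
      ∃ X : Pt (WAB A B) Ω, (X : Pt (WAB A B) Ω ⧸ kerG hV) = c ∧ Ker V (ac (WAB A B) s X - X)},
      g9R hV W₀ v P c.1 := by
    intro P
    rcases P with _ | ⟨x, y, h⟩
    · refine ⟨⟨0, 0, rfl, ?_⟩, Or.inl ⟨rfl, rfl⟩⟩
      rw [map_zero, sub_zero]
      exact ker_zero V
    · obtain ⟨a, rfl⟩ := Ideal.Quotient.mk_surjective x
      obtain ⟨b, rfl⟩ := Ideal.Quotient.mk_surjective y
      obtain ⟨X, hX, hXx, hXy⟩ := g9_lift hV W₀ hA hB a b (hv _ ((g9_nons W₀ v hΔ a b).1 h))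
      have hXx' : V.valuation (xc X - g9x Ω W₀ a) < 1 := by
        rw [hXx, sub_self, map_zero]
        exact zero_lt_one
      exact ⟨⟨(X : Pt (WAB A B) Ω ⧸ kerG hV), X, rfl, g9_fix hV W₀ v hv s hs a b hX hXx' hXy⟩,
        Or.inr ⟨a, b, h, X, rfl, rfl, hX, hXx', hXy⟩⟩
  choose f hf using htot
  apply Nat.card_eq_of_bijective f
  have hno : ∀ X : Pt (WAB A B) Ω, ¬ Ker V X → (X : Pt (WAB A B) Ω ⧸ kerG hV) ≠ 0 := by
    intro X hX h
    exact hX ((QuotientAddGroup.eq_zero_iff X).1 h)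
  constructor
  · intro P P' hPP
    have h1 := hf P
    have h2 := hf P'
    rw [← hPP] at h2
    rcases h1 with ⟨h1, h1'⟩ | ⟨a, b, h, X, hP, hc, hX, hx, hy⟩
    · rcases h2 with ⟨h2, h2'⟩ | ⟨a', b', h', X', hP', hc', hX', hx', hy'⟩
      · rw [h1, h2]
      · exact (hno X' hX' (hc'.symm.trans h1')).elim
    · rcases h2 with ⟨h2, h2'⟩ | ⟨a', b', h', X', hP', hc', hX', hx', hy'⟩
      · exact (hno X hX (hc.symm.trans h2')).elim
      · have h3 : Ker V (X' - X) := by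
          have h4 := hc.symm.trans hc'
          rw [QuotientAddGroup.eq, neg_add_eq_sub] at h4
          exact h4
        obtain ⟨-, h5, h6⟩ := cls_conv hV hX h3
        rw [Valuation.map_sub_swap] at h5 h6 hx hy
        have h7 : V.valuation (g9x Ω W₀ a - g9x Ω W₀ a') < 1 := g9_tri (g9_tri hx h5) hx'
        have h8 : V.valuation (g9y Ω W₀ a b - g9y Ω W₀ a' b') < 1 := g9_tri (g9_tri hy h6) hy'
        obtain ⟨i1, i2⟩ := g9_sub W₀ hV v hv a b a' b'
        have h9 := i1.1 h7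
        have h10 := (i2 h9).1 h8
        rw [hP, hP', Affine.Point.some.injEq]
        exact ⟨h9, h10⟩
  · rintro ⟨c, X, rfl, hX⟩
    by_cases hXk : Ker V X
    · refine ⟨0, ?_⟩
      apply Subtype.ext
      have h1 : (X : Pt (WAB A B) Ω ⧸ kerG hV) = 0 := (QuotientAddGroup.eq_zero_iff X).2 hXk
      show (f 0).1 = (X : Pt (WAB A B) Ω ⧸ kerG hV)
      rw [h1]
      rcases hf 0 with ⟨-, h2⟩ | ⟨a, b, h, X, hP, -⟩
      · exact h2
      · exact absurd hP.symm (Affine.Point.some_ne_zero _)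
    · obtain ⟨a, b, hE, hx, hy⟩ := g9_conv hV W₀ hA hB v hv s hs hXk hX
      refine ⟨.some _ _ ((g9_nons W₀ v hΔ a b).2 hE), ?_⟩
      apply Subtype.ext
      show (f _).1 = _
      rcases hf (.some _ _ ((g9_nons W₀ v hΔ a b).2 hE)) with ⟨h2, -⟩ | ⟨a', b', h', X', hP', hc', hX', hx', hy'⟩
      · exact absurd h2 (Affine.Point.some_ne_zero _)
      · rw [hc', QuotientAddGroup.eq, neg_add_eq_sub]
        rw [Affine.Point.some.injEq] at hP'
        obtain ⟨i1, i2⟩ := g9_sub W₀ hV v hv a b a' b'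
        rw [Valuation.map_sub_swap] at hx' hy'
        exact cls_xy hV hXk hX' (g9_tri (g9_tri hx (i1.2 hP'.1)) hx') (g9_tri (g9_tri hy ((i2 hP'.1).2 hP'.2)) hy')

end H55K
end
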