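import Mathlib
import Pool.Agent.Lib.H1M.PP2.D_H55B_Defs
import Pool.Agent.Lib.H1M.PP2.D_H55C_Defs
import Pool.Agent.Lib.H1M.PP2.D_H55K_D2
import Pool.Agent.Lib.H1M.PP2.D_H55P_SD
import Pool.Agent.Lib.H1M.PP2.D_H55P_Sel
import Pool.Agent.Lib.H1M.PP2.D_H55P_Stm
import Pool.Agent.Lib.H1M.PP2.M006
import Pool.Agent.Lib.H1M.PP2.M010
import Pool.Agent.Lib.H1M.PP2.M016
import Pool.Agent.Lib.H1M.PP2.M019
import Pool.Agent.Lib.H1M.PP2.M020
import Pool.Agent.Lib.H1M.PP2.M022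
import Pool.Agent.Lib.H1M.PP2.M023
import Pool.Agent.Lib.H1M.PP2.M029
import Pool.Agent.Lib.H1M.PP2.M032
import Pool.Agent.Lib.H1M.PP2.M040
import Pool.Agent.Lib.H1M.PP2.M046
import Pool.Agent.Lib.H1M.PP2.M048
import Pool.Agent.Lib.H1M.PP2.M049
import Pool.Agent.Lib.H1M.PP2.M050
import Pool.Agent.Lib.H1M.PP2.M054

/-! Merged copies (to shorten the build) of Lib.H13D.D2, Lib.H13D.P1, Lib.H13D.C2, Lib.H13D.D3, Lib.H13D.E1, Lib.H13D.E2, Lib.H55K.Y7A, Lib.H55W.L8A, Lib.H13S.DV, Lib.H13Z.LF2, Lib.H55C.Y17, Lib.H55D.X3, Lib.H55K.RA1, Lib.H35M.KL5B, Lib.H35M.KL6, Lib.SSG.LP.D. -/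

-- from Lib.H13D.D2
section

/-! # H13D: definitions: the square root of -D and the quadratic symbol -/

open NumberField IsDedekindDomain WeierstrassCurve

namespace H13D

open H55P (IQ embF eF LF Per IsHecke Pt ac Inert Dec Nm)
open H35P (WAB Ker tt GoodW IntW)
open H55K

/-- δ is a square root of -D, D a prime number congruent to 3 modulo 4, D > 3. -/
structure Del (F : Type) [Field F] [NumberField F] (δ : 𝓞 F) (D : ℕ) : Prop where
  prime : D.Prime
  mod : D % 4 = 3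
  big : 3 < D
  sq : δ ^ 2 = -(D : 𝓞 F)

open Classical in
/-- The quadratic symbol of x modulo δ (x is congruent to an integer n modulo δ). -/
noncomputable def lam {F : Type} [Field F] (δ : 𝓞 F) (D : ℕ) (x : 𝓞 F) : ℤ :=
  if h : ∃ n : ℤ, δ ∣ x - n then jacobiSym h.choose D else 0

/-- The nonzero squares modulo D, between 0 and D - 1. -/
def QR (D : ℕ) : Finset ℕ := (Finset.range D).filter fun i => jacobiSym (i : ℤ) D = 1

/-- The product of 2y over the points i T₀, i a nonzero square modulo D. -/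
noncomputable def Yel {Ω : Type} [Field Ω] [DecidableEq Ω] {W : WeierstrassCurve Ω} (D : ℕ) (T₀ : W.toAffine.Point) : Ω :=
  ∏ i ∈ QR D, 2 * yc (i • T₀)

end H13D
end

-- from Lib.H13D.P1
section

/-! # H13D, part P: arithmetic of the field -/

open NumberField IsDedekindDomain WeierstrassCurve

namespace H13D

open H55P (IQ embF eF LF Per IsHecke Pt ac Inert Dec Nm)
open H35P (WAB Ker tt GoodW IntW)
open H55K

variable {F : Type} [Field F] [NumberField F] [IQ F] {δ : 𝓞 F} {D : ℕ}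

/-- Chunk P1 (S/M). (cj δ)^2 = cj (-D) = -D = δ^2, so cj δ = δ or -δ. If cj δ = δ then e = eF F δ is real (e_cj), but e^2 = -D < 0. -/
theorem cj_del (hd : Del F δ D) : cj δ = -δ := by
  have h1 : (cj δ) ^ 2 = δ ^ 2 := by
    rw [← map_pow, hd.sq, map_neg, cj_nat]
  rcases sq_eq_sq_iff_eq_or_eq_neg.1 h1 with h | h
  · exfalso
    have h2 := e_cj δ
    rw [h] at h2
    obtain ⟨r, hr⟩ := Complex.conj_eq_iff_real.1 h2.symm
    have h3 : (eF F δ) ^ 2 = -(D : ℂ) := by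
      rw [← map_pow, hd.sq, map_neg, map_natCast]
    rw [hr] at h3
    have h4 : r ^ 2 = -(D : ℝ) := by exact_mod_cast h3
    have h5 : (0 : ℝ) < D := by exact_mod_cast hd.prime.pos
    nlinarith [sq_nonneg r]
  · exact h

/-- Chunk P1 (S). mul_cj: δ * cj δ = Nm δ; cj δ = -δ, δ^2 = -D; Nat.cast_injective (characteristic 0). -/
theorem Nm_del (hd : Del F δ D) : Nm δ = D := by
  have h1 := mul_cj δ
  rw [cj_del hd] at h1
  have h2 : (D : 𝓞 F) = (Nm δ : 𝓞 F) := by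
    rw [← h1]
    have := hd.sq
    linear_combination this
  exact_mod_cast h2.symm

/-- Chunk P1 (S/M). The ideal span {δ} has prime norm D, so it is prime (Ideal.isPrime_of_irreducible_absNorm; Nm δ = Ideal.absNorm (span {δ}) by definition of Nm); Ideal.span_singleton_prime. -/
theorem del_prime (hd : Del F δ D) : Prime δ := by
  have h0 : δ ≠ 0 := by
    intro h
    have h1 := Nm_del hd
    rw [h] at h1
    have h2 : Nm (0 : 𝓞 F) = 0 := H55P.Nm_eq_zero.2 rfl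
    rw [h2] at h1
    exact hd.prime.ne_zero h1.symm
  rw [← Ideal.span_singleton_prime h0]
  apply Ideal.isPrime_of_irreducible_absNorm
  have h1 : Ideal.absNorm (Ideal.span {δ}) = D := Nm_del hd
  rw [h1]
  exact hd.prime

/-- Chunk P1 (S). If δ divides n then Nm δ = D divides Nm n = n^2 (Nm_mul; Nm (n : ℤ) = n.natAbs^2 from mul_cj, cj n = n), so D divides n. Conversely D = -δ^2. -/
theorem del_dvd_int (hd : Del F δ D) (n : ℤ) : δ ∣ (n : 𝓞 F) ↔ (D : ℤ) ∣ n := by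
  constructor
  · rintro ⟨c, hc⟩
    have h1 : (Nm (n : 𝓞 F) : 𝓞 F) = ((n ^ 2 : ℤ) : 𝓞 F) := by
      rw [← mul_cj, cj_int]
      push_cast
      ring
    have h2 : (Nm (n : 𝓞 F) : ℤ) = n ^ 2 := by exact_mod_cast h1
    rw [hc, Nm_mul, Nm_del hd] at h2
    have h3 : (D : ℤ) ∣ n ^ 2 := ⟨(Nm c : ℤ), by rw [← h2]; push_cast; ring⟩
    exact Int.Prime.dvd_pow' hd.prime h3
  · rintro ⟨c, rfl⟩
    refine ⟨-(δ * c), ?_⟩
    have := hd.sq
    push_cast
    linear_combination (c : 𝓞 F) * this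

/-- Chunk P1 (M). 𝓞 F ⧸ span {δ} has D elements (Nm_del, Ideal.absNorm_apply, Submodule.cardQuot_apply); the map of ZMod D (or of the integers modulo D) to it is injective by del_dvd_int, so it is bijective (equal finite cardinalities). -/
theorem ex_int (hd : Del F δ D) (x : 𝓞 F) : ∃ n : ℤ, δ ∣ x - n := by
  have hcard : Nat.card (𝓞 F ⧸ Ideal.span {δ}) = D := Nm_del hd
  have hfin : Finite (𝓞 F ⧸ Ideal.span {δ}) := Nat.finite_of_card_ne_zero (by rw [hcard]; exact hd.prime.ne_zero)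
  let f : Fin D → 𝓞 F ⧸ Ideal.span {δ} := fun k => Ideal.Quotient.mk _ (((k : ℕ) : ℤ) : 𝓞 F)
  have hf : Function.Injective f := by
    intro a b hab
    have h1 : Ideal.Quotient.mk (Ideal.span {δ}) ((((a : ℕ) : ℤ) : 𝓞 F)) = Ideal.Quotient.mk (Ideal.span {δ}) ((((b : ℕ) : ℤ) : 𝓞 F)) := hab
    rw [Ideal.Quotient.eq, Ideal.mem_span_singleton, ← Int.cast_sub, del_dvd_int hd] at h1
    have h2 := a.2
    have h3 := b.2
    apply Fin.ext
    obtain ⟨c, hc⟩ := h1
    have h4 : c = 0 := by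
      by_contra h5
      rcases lt_or_gt_of_ne h5 with h6 | h6
      · have : (D : ℤ) * c ≤ -D := by nlinarith
        omega
      · have : (D : ℤ) ≤ D * c := by nlinarith
        omega
    rw [h4, mul_zero] at hc
    omega
  have hb : Function.Bijective f := by
    rw [Nat.bijective_iff_injective_and_card]
    refine ⟨hf, ?_⟩
    rw [hcard, Nat.card_eq_fintype_card, Fintype.card_fin]
  obtain ⟨k, hk⟩ := hb.2 (Ideal.Quotient.mk _ x)
  refine ⟨((k : ℕ) : ℤ), ?_⟩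
  rw [← Ideal.mem_span_singleton, ← Ideal.Quotient.eq]
  exact hk.symm

/-- Chunk P1 (S/M). cj x is congruent to n modulo δ too (cj δ = -δ), so Nm x = x cj x is congruent to n^2 modulo δ; del_dvd_int. -/
theorem Nm_mod (hd : Del F δ D) {x : 𝓞 F} {n : ℤ} (h : δ ∣ x - n) : (D : ℤ) ∣ (Nm x : ℤ) - n ^ 2 := by
  rw [← del_dvd_int hd]
  obtain ⟨c, hc⟩ := h
  have h1 : cj x - n = -(δ * cj c) := by
    have := congrArg cj hc
    rw [map_sub, cj_int, map_mul, cj_del hd] at this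
    rw [this]
    ring
  have h2 := mul_cj x
  refine ⟨-(x * cj c) + n * c, ?_⟩
  have h3 : (((Nm x : ℤ) - n ^ 2 : ℤ) : 𝓞 F) = x * cj x - n ^ 2 := by
    rw [h2]
    push_cast
    ring
  rw [h3]
  linear_combination x * h1 + n * hc

end H13D
end

-- from Lib.H13D.C2
section

/-! # H13D, part C: the points killed by δ -/

open NumberField IsDedekindDomain WeierstrassCurve

namespace H13D

open H55P (IQ embF eF LF Per IsHecke Pt ac Inert Dec Nm)
open H35P (WAB Ker tt GoodW IntW)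
open H55K

variable {F : Type} [Field F] [NumberField F] [IQ F] {A B : F} {Om : ℂ} {Ω : Type} [Field Ω] [DecidableEq Ω]
  [Algebra F Ω] {j : Ω →+* ℂ} {act : 𝓞 F →+* AddMonoid.End (Pt (WAB A B) Ω)} {δ : 𝓞 F} {D : ℕ}

omit [NumberField F] [IQ F] in
theorem act_int (n : ℤ) (T : Pt (WAB A B) Ω) : act (n : 𝓞 F) T = n • T := by
  rw [map_intCast]
  rfl

omit [NumberField F] [IQ F] in
theorem act_mul' (a b : 𝓞 F) (T : Pt (WAB A B) Ω) : act (a * b) T = act a (act b T) := by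
  rw [map_mul]
  rfl

omit [NumberField F] [IQ F] in
theorem act_sub' (a b : 𝓞 F) (T : Pt (WAB A B) Ω) : act (a - b) T = act a T - act b T := by
  rw [map_sub]
  rfl

omit [NumberField F] [IQ F] in
/-- Chunk C2 (S). x = n + δ c; act n T = n • T for integers (map_intCast), act (c δ) T = 0. -/
theorem act_tor {x : 𝓞 F} {n : ℤ} (hx : δ ∣ x - n) {T : Pt (WAB A B) Ω} (hT : act δ T = 0) : act x T = n • T := by
  obtain ⟨c, hc⟩ := hx
  have h1 : act (x - n) T = 0 := by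
    rw [hc, mul_comm, act_mul', hT, map_zero]
  rw [act_sub', act_int, sub_eq_zero] at h1
  exact h1

/-- Chunk C2 (S). act_tor with x = D = -δ^2. -/
theorem D_tor (hd : Del F δ D) {T : Pt (WAB A B) Ω} (hT : act δ T = 0) : D • T = 0 := by
  have h1 : act (((D : ℕ) : ℤ) : 𝓞 F) T = ((D : ℕ) : ℤ) • T := act_int _ _
  have h2 : ((((D : ℕ) : ℤ) : 𝓞 F)) = (-δ) * δ := by
    push_cast
    have := hd.sq
    linear_combination this
  rw [h2, act_mul', hT, map_zero] at h1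
  rw [natCast_zsmul] at h1
  exact h1.symm

/-- Chunk C2 (S). D_tor; D is prime and T ≠ 0, so the order of T is D. -/
theorem zsmul_iff (hd : Del F δ D) {T : Pt (WAB A B) Ω} (hT : act δ T = 0) (h0 : T ≠ 0) (n : ℤ) : n • T = 0 ↔ (D : ℤ) ∣ n := by
  have hD := D_tor hd hT
  have hp : Fact D.Prime := ⟨hd.prime⟩
  have ho : addOrderOf T = D := addOrderOf_eq_prime hD h0
  rw [← ho]
  exact addOrderOf_dvd_iff_zsmul_eq_zero.symm

/-- Chunk C2 (S/M). h.gen δ (δ ≠ 0): a generator G with T₀ = act t G, T = act x G, t is congruent to n modulo δ (ex_int), x to k; D does not divide n (T₀ ≠ 0), so k = n m modulo D for an integer m: T = k • G = m • (n • G) = m • T₀. -/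
theorem tor_gen (h : CMA F A B Om j act) (hd : Del F δ D) {T₀ T : Pt (WAB A B) Ω} (hT₀ : act δ T₀ = 0) (h0 : T₀ ≠ 0) (hT : act δ T = 0) :
    ∃ m : ℤ, T = m • T₀ := by
  obtain ⟨G, hG, h1, h2, -⟩ := h.gen δ (del_prime hd).ne_zero
  have hG' : act δ G = 0 := hG
  obtain ⟨t, ht⟩ := h1 T₀ hT₀
  obtain ⟨x, hx⟩ := h1 T hT
  obtain ⟨n, hn⟩ := ex_int hd t
  obtain ⟨k, hk⟩ := ex_int hd x
  rw [act_tor hn hG'] at ht
  rw [act_tor hk hG'] at hx
  have hn' : ¬ (D : ℤ) ∣ n := by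
    rintro ⟨c, rfl⟩
    apply h0
    rw [ht, mul_comm, mul_smul, natCast_zsmul, D_tor hd hG', smul_zero]
  have hco : IsCoprime n (D : ℤ) := by
    rw [isCoprime_comm]
    exact (Prime.coprime_iff_not_dvd (Nat.prime_iff_prime_int.1 hd.prime)).2 hn'
  obtain ⟨a, b, hab⟩ := hco
  refine ⟨k * a, ?_⟩
  rw [hx, ht, ← mul_smul, ← sub_eq_zero, ← sub_smul]
  have e : k - k * a * n = k * b * D := by linear_combination (-k) * hab
  rw [e, mul_smul, natCast_zsmul, D_tor hd hG', smul_zero]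

/-- Chunk C2 (S). h.gen δ: act 1 T₀ ≠ 0 since δ does not divide 1 (del_prime). -/
theorem exists_T (h : CMA F A B Om j act) (hd : Del F δ D) : ∃ T₀ : Pt (WAB A B) Ω, act δ T₀ = 0 ∧ T₀ ≠ 0 := by
  obtain ⟨G, hG, h1, h2, -⟩ := h.gen δ (del_prime hd).ne_zero
  refine ⟨G, hG, fun h0 => ?_⟩
  have h3 : act 1 G = 0 := by rw [h0, map_zero]
  rw [h2] at h3
  exact (del_prime hd).not_unit (isUnit_of_dvd_one h3)

end H13D
end

-- from Lib.H13D.D3
section

/-! # H13D: definitions: Kronecker symbol, the second element -/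

open NumberField IsDedekindDomain WeierstrassCurve

namespace H13D

open H55K

/-- χ is the Kronecker symbol of the squarefree integer d, on the natural numbers prime to N (all prime divisors of d divide N). -/
structure Kron (d : ℤ) (N : ℕ) (χ : ℕ → ℤ) : Prop where
  one : χ 1 = 1
  mul : ∀ a b : ℕ, a.Coprime N → b.Coprime N → χ (a * b) = χ a * χ b
  pm : ∀ a : ℕ, a.Coprime N → χ a = 1 ∨ χ a = -1
  odd : ∀ p : ℕ, p.Prime → ¬ p ∣ N → p ≠ 2 → χ p = jacobiSym d p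
  two : ¬ 2 ∣ N → (χ 2 = 1 ↔ d % 8 = 1)
  per : ∀ a b : ℕ, a.Coprime N → b.Coprime N → a ≡ b [MOD N ^ 3] → χ a = χ b

/-- The product of c₁ (x - ρ) + c₃ over the points i T₀, i a nonzero square modulo D. -/
noncomputable def Zel {Ω : Type} [Field Ω] [DecidableEq Ω] {W : WeierstrassCurve Ω} (D : ℕ) (T₀ : W.toAffine.Point) (c₁ ρ c₃ : Ω) : Ω :=
  ∏ i ∈ QR D, (c₁ * (xc (i • T₀) - ρ) + c₃)

end H13D
end

-- from Lib.H13D.E1
section

/-! # H13D, part E: products over the squares modulo D -/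

namespace H13D

theorem e1_odd {D : ℕ} (h4 : D % 4 = 3) : Odd D := Nat.odd_iff.2 (by omega)

theorem e1_neg {D : ℕ} (h4 : D % 4 = 3) (x : ℤ) : jacobiSym (-x) D = -jacobiSym x D := by
  rw [jacobiSym.neg _ (e1_odd h4), ZMod.χ₄_nat_three_mod_four h4]
  ring

theorem e1_pm {D : ℕ} (hD : D.Prime) {x : ℤ} (hx : ¬ (D : ℤ) ∣ x) : jacobiSym x D = 1 ∨ jacobiSym x D = -1 := by
  apply jacobiSym.eq_one_or_neg_one
  have h1 : ¬ D ∣ x.natAbs := fun h => hx (Int.natCast_dvd.2 h)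
  have h2 := (Nat.Prime.coprime_iff_not_dvd hD).2 h1
  have h3 : Nat.gcd x.natAbs D = 1 := Nat.coprime_comm.1 h2
  exact h3

theorem e1_ndvd {D : ℕ} (hD : D.Prime) {x : ℤ} (hx : jacobiSym x D = 1 ∨ jacobiSym x D = -1) : ¬ (D : ℤ) ∣ x := by
  intro h
  have h1 : jacobiSym x D = 0 := by
    rw [jacobiSym.eq_zero_iff]
    refine ⟨hD.ne_zero, ?_⟩
    intro h2
    have h3 : D ∣ Int.gcd x D := Int.natCast_dvd_natCast.1 (Int.dvd_coe_gcd h dvd_rfl)
    rw [h2] at h3
    exact hD.one_lt.ne' (Nat.dvd_one.1 h3)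
  rcases hx with hx | hx <;> rw [h1] at hx <;> norm_num at hx

theorem e1_red {D : ℕ} (hD : D.Prime) (x : ℤ) : ((x % D).toNat : ℤ) = x % D :=
  Int.toNat_of_nonneg (Int.emod_nonneg _ (by exact_mod_cast hD.ne_zero))

theorem e1_red_lt {D : ℕ} (hD : D.Prime) (x : ℤ) : (x % D).toNat < D := by
  have h1 := e1_red hD x
  have h2 : x % D < D := Int.emod_lt_of_pos _ (by exact_mod_cast hD.pos)
  omega

theorem e1_red_dvd {D : ℕ} (hD : D.Prime) (x : ℤ) : (D : ℤ) ∣ x - ((x % D).toNat : ℤ) := by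
  rw [e1_red hD]
  exact Int.dvd_self_sub_emod

theorem e1_red_J {D : ℕ} (hD : D.Prime) (x : ℤ) : jacobiSym ((x % D).toNat : ℤ) D = jacobiSym x D := by
  rw [e1_red hD]
  exact (jacobiSym.mod_left x D).symm

/-- Chunk E1 (S). -/
theorem mem_QR {D : ℕ} (hD : D.Prime) (i : ℕ) : i ∈ QR D ↔ i < D ∧ jacobiSym (i : ℤ) D = 1 := by
  simp [QR]

theorem e1_range {D : ℕ} (hD : D.Prime) {x : ℕ} (hx : x < D) (h : jacobiSym (x : ℤ) D = 1 ∨ jacobiSym (x : ℤ) D = -1) : 0 < x := by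
  rcases Nat.eq_zero_or_pos x with h1 | h1
  · exfalso
    exact e1_ndvd hD h (by rw [h1]; simp)
  · exact h1

theorem e1_sub {D : ℕ} (hD : D.Prime) (h4 : D % 4 = 3) {x : ℕ} (hx : x ≤ D) :
    jacobiSym ((D - x : ℕ) : ℤ) D = -jacobiSym (x : ℤ) D := by
  rw [← e1_neg h4]
  apply jacobiSym.mod_left'
  rw [Nat.cast_sub hx]
  have h1 : (D : ℤ) - x = -x + D := by ring
  rw [h1, Int.add_emod_right]

/-- Chunk E1 (M). The map i → D - i is a bijection from QR D onto the set of the i < D with jacobiSym i D = -1 (jacobiSym (-1) D = -1 as D % 4 = 3: jacobiSym.at_neg_one, ZMod.χ₄_nat_three_mod_four; jacobiSym.mul_left, mod_left); together with 0 these two sets are the whole of range D (a prime D does not divide i ≠ 0: value 1 or -1):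
D = 2 card + 1, and D % 4 = 3. -/
theorem card_QR {D : ℕ} (hD : D.Prime) (h4 : D % 4 = 3) : Odd (QR D).card := by
  set N : Finset ℕ := (Finset.range D).filter fun i => jacobiSym (i : ℤ) D = -1 with hN
  have mN : ∀ i, i ∈ N ↔ i < D ∧ jacobiSym (i : ℤ) D = -1 := by
    intro i
    simp [hN]
  have hc : (QR D).card = N.card := by
    refine Finset.card_nbij (fun i => D - i) ?_ ?_ ?_
    · intro i hi
      obtain ⟨h1, h2⟩ := (mem_QR hD i).1 hi
      have h3 := e1_range hD h1 (Or.inl h2)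
      show D - i ∈ N
      refine (mN _).2 ⟨by omega, ?_⟩
      rw [e1_sub hD h4 h1.le, h2]
    · intro i hi j hj hij
      obtain ⟨h1, h2⟩ := (mem_QR hD i).1 hi
      obtain ⟨h3, h4⟩ := (mem_QR hD j).1 hj
      have h5 : D - i = D - j := hij
      omega
    · intro j hj
      obtain ⟨h1, h2⟩ := (mN j).1 hj
      have h3 := e1_range hD h1 (Or.inr h2)
      refine ⟨D - j, (mem_QR hD _).2 ⟨by omega, ?_⟩, ?_⟩
      · rw [e1_sub hD h4 h1.le, h2, neg_neg]
      · show D - (D - j) = j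
        omega
  have hdis : Disjoint (QR D) N := by
    rw [Finset.disjoint_left]
    intro i hi hj
    have h1 := ((mem_QR hD i).1 hi).2
    have h2 := ((mN i).1 hj).2
    rw [h1] at h2
    norm_num at h2
  have hun : Finset.range D = insert 0 (QR D ∪ N) := by
    ext i
    rw [Finset.mem_insert, Finset.mem_union, Finset.mem_range, mem_QR hD, mN]
    constructor
    · intro hi
      rcases Nat.eq_zero_or_pos i with h0 | h0
      · exact Or.inl h0
      · have h1 : ¬ (D : ℤ) ∣ (i : ℤ) := by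
          intro h2
          have h3 := Nat.le_of_dvd h0 (Int.natCast_dvd_natCast.1 h2)
          omega
        rcases e1_pm hD h1 with h2 | h2
        · exact Or.inr (Or.inl ⟨hi, h2⟩)
        · exact Or.inr (Or.inr ⟨hi, h2⟩)
    · rintro (rfl | ⟨h1, _⟩ | ⟨h1, _⟩)
      · exact hD.pos
      · exact h1
      · exact h1
  have h0 : (0 : ℕ) ∉ QR D ∪ N := by
    rw [Finset.mem_union]
    rintro (h | h)
    · have h1 := (mem_QR hD 0).1 h
      exact absurd (e1_range hD h1.1 (Or.inl h1.2)) (lt_irrefl 0)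
    · have h1 := (mN 0).1 h
      exact absurd (e1_range hD h1.1 (Or.inr h1.2)) (lt_irrefl 0)
  have hcard := congrArg Finset.card hun
  rw [Finset.card_range, Finset.card_insert_of_notMem h0, Finset.card_union_of_disjoint hdis, ← hc] at hcard
  rw [Nat.odd_iff]
  omega

/-- Chunk E1 (M). If jacobiSym b D = 1 then i → (b i) mod D is a bijection of QR D (inverse: multiplication by an inverse c of b modulo D); g (b i) = g ((b i) mod D) (hper). Finset.prod_nbij or Finset.prod_bij. -/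
theorem prod_sq {R : Type} [CommRing R] {D : ℕ} (hD : D.Prime) (g : ℤ → R)
    (hper : ∀ i j : ℤ, (D : ℤ) ∣ i - j → g i = g j) {b : ℤ} (hb : jacobiSym b D = 1) :
    ∏ i ∈ QR D, g (b * (i : ℤ)) = ∏ i ∈ QR D, g (i : ℤ) := by
  have hbD : ¬ (D : ℤ) ∣ b := e1_ndvd hD (Or.inl hb)
  have hi : ∀ i ∈ QR D, ((b * (i : ℤ)) % D).toNat ∈ QR D := by
    intro i hi
    refine (mem_QR hD _).2 ⟨e1_red_lt hD _, ?_⟩
    rw [e1_red_J hD, jacobiSym.mul_left, hb, ((mem_QR hD i).1 hi).2, one_mul]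
  have hinj : Set.InjOn (fun i : ℕ => ((b * (i : ℤ)) % D).toNat) (QR D : Set ℕ) := by
    intro i hi j hj hij
    have h1 := e1_red_dvd hD (b * (i : ℤ))
    have h2 := e1_red_dvd hD (b * (j : ℤ))
    have h3 : ((b * (i : ℤ)) % D).toNat = ((b * (j : ℤ)) % D).toNat := hij
    rw [h3] at h1
    have h4 : (D : ℤ) ∣ b * ((i : ℤ) - j) := by
      have h5 := dvd_sub h1 h2
      have h6 : b * (i : ℤ) - (((b * (j : ℤ)) % D).toNat : ℤ) - (b * (j : ℤ) - (((b * (j : ℤ)) % D).toNat : ℤ)) =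
        b * ((i : ℤ) - j) := by ring
      rwa [h6] at h5
    have h7 : (D : ℤ) ∣ (i : ℤ) - j := ((Nat.prime_iff_prime_int.1 hD).dvd_or_dvd h4).resolve_left hbD
    have h8 := ((mem_QR hD i).1 hi).1
    have h9 := ((mem_QR hD j).1 hj).1
    obtain ⟨k, hk⟩ := h7
    have hk0 : k = 0 := by
      have h10 : |(i : ℤ) - j| < D := by
        rw [abs_lt]
        constructor <;> omega
      rw [hk, abs_mul, Nat.abs_cast] at h10
      by_contra hne
      have h11 : 1 ≤ |k| := Int.one_le_abs hne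
      have h12 : (0 : ℤ) < D := by exact_mod_cast hD.pos
      nlinarith
    rw [hk0, mul_zero] at hk
    omega
  have hsurj := Finset.surjOn_of_injOn_of_card_le (fun i : ℕ => ((b * (i : ℤ)) % D).toNat) hi hinj le_rfl
  refine Finset.prod_nbij (fun i => ((b * (i : ℤ)) % D).toNat) hi hinj hsurj ?_
  intro i _
  exact hper _ _ (e1_red_dvd hD _)

end H13D
end

-- from Lib.H13D.E2
section

/-! # H13D, part E: products over the squares modulo D -/

namespace H13D

theorem e2_pm {D : ℕ} (hD : D.Prime) {a : ℤ} (ha : ¬ (D : ℤ) ∣ a) : jacobiSym a D = 1 ∨ jacobiSym a D = -1 := by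
  apply jacobiSym.eq_one_or_neg_one
  have h1 : ¬ D ∣ a.natAbs := fun h => ha (Int.natCast_dvd.2 h)
  have h3 : Nat.gcd a.natAbs D = 1 := Nat.coprime_comm.1 ((Nat.Prime.coprime_iff_not_dvd hD).2 h1)
  exact h3

theorem e2_neg {D : ℕ} (h4 : D % 4 = 3) {a : ℤ} (ha : jacobiSym a D = -1) : jacobiSym (-a) D = 1 := by
  rw [jacobiSym.neg _ (Nat.odd_iff.2 (by omega)), ZMod.χ₄_nat_three_mod_four h4, ha]
  norm_num

/-- Chunk E2 (S/M). If jacobiSym a D = 1: prod_sq. Otherwise it is -1 (D prime, not dividing a) and jacobiSym (-a) D = 1 (jacobiSym (-1) D = -1 as D % 4 = 3): g (a i) = - g ((-a) i), so the product is (-1)^(card QR) times the product of g ((-a) i) (Finset.prod_neg or prod_mul_distrib), card_QR odd, prod_sq for -a. -/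
theorem prod_odd {R : Type} [CommRing R] {D : ℕ} (hD : D.Prime) (h4 : D % 4 = 3) (g : ℤ → R)
    (hper : ∀ i j : ℤ, (D : ℤ) ∣ i - j → g i = g j) (hodd : ∀ i : ℤ, g (-i) = -g i) {a : ℤ} (ha : ¬ (D : ℤ) ∣ a) :
    ∏ i ∈ QR D, g (a * (i : ℤ)) = ((jacobiSym a D : ℤ) : R) * ∏ i ∈ QR D, g (i : ℤ) := by
  rcases e2_pm hD ha with h | h
  · rw [h, prod_sq hD g hper h, Int.cast_one, one_mul]
  · have h1 := prod_sq hD g hper (e2_neg h4 h)
    have h2 : ∀ i ∈ QR D, g (a * (i : ℤ)) = -1 * g (-a * (i : ℤ)) := by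
      intro i _
      rw [neg_one_mul, ← hodd]
      congr 1
      ring
    rw [Finset.prod_congr rfl h2, Finset.prod_mul_distrib, Finset.prod_const, (card_QR hD h4).neg_one_pow, h1, h]
    push_cast
    ring

/-- Chunk E2 (S). The same with g (a i) = g ((-a) i). -/
theorem prod_even {R : Type} [CommRing R] {D : ℕ} (hD : D.Prime) (h4 : D % 4 = 3) (g : ℤ → R)
    (hper : ∀ i j : ℤ, (D : ℤ) ∣ i - j → g i = g j) (heven : ∀ i : ℤ, g (-i) = g i) {a : ℤ} (ha : ¬ (D : ℤ) ∣ a) :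
    ∏ i ∈ QR D, g (a * (i : ℤ)) = ∏ i ∈ QR D, g (i : ℤ) := by
  rcases e2_pm hD ha with h | h
  · exact prod_sq hD g hper h
  · rw [← prod_sq hD g hper (e2_neg h4 h)]
    refine Finset.prod_congr rfl fun i _ => ?_
    rw [← heven]
    congr 1
    ring

end H13D
end

-- from Lib.H55K.Y7A
section

/-! # H55K: a good prime exists -/

open NumberField IsDedekindDomain WeierstrassCurve

namespace H55K

open H55P (IQ embF eF LF Per IsHecke Pt ac Inert Dec Nm)
open H35P (WAB Ker tt)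


variable {F : Type} [Field F] [NumberField F] [IQ F]

/-- Chunk Y7A (M), arithmetic. δ in 𝓞 F with δ^2 = -D, D a positive integer prime to p: take x in 𝓞 F with eF F x not real (F0_im), t = x + cj x and n = x * cj x are integers (t: e.g. Algebra.trace, or t is fixed by cj and 𝓞 F has rank 2), δ = 2x - t, δ^2 = t^2 - 4n < 0 (eF F δ is purely imaginary, not 0). Divide δ by powers of p
(p^2 | D: (δ/p)^2 is an integer, so δ/p is integral). If p divides D exactly once: a prime v containing p contains δ (δ^2 in v), D = p D', p not dividing D': p D' = - δ^2 in v^2, D' is a unit modulo v, so p is in v^2: contradiction to hunr. -/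
theorem exists_delta (F : Type) [Field F] [NumberField F] [IQ F] {p : ℕ} (hp : p.Prime)
    (hunr : ∀ v : HeightOneSpectrum (𝓞 F), (p : 𝓞 F) ∉ v.asIdeal ^ 2) : ∃ (D : ℕ) (δ : 𝓞 F), 0 < D ∧ ¬ p ∣ D ∧
      δ ^ 2 = -(D : 𝓞 F) := by
  classical
  have hex : ∃ D : ℕ, 0 < D ∧ ∃ δ : 𝓞 F, δ ^ 2 = -(D : 𝓞 F) := by
    obtain ⟨x, hx⟩ := H55P.F0_im (F := F)
    have h0 : x - cj x ≠ 0 := by
      intro h
      have h1 : x = cj x := sub_eq_zero.1 h
      have h2 := congrArg (eF F) h1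
      rw [e_cj] at h2
      exact hx (Complex.conj_eq_iff_im.1 h2.symm)
    refine ⟨Nm (x - cj x), Nat.pos_of_ne_zero fun h => h0 (H55P.Nm_eq_zero.1 h), x - cj x, ?_⟩
    rw [← mul_cj, map_sub, cj_cj]
    ring
  obtain ⟨hD, δ, hδ⟩ := Nat.find_spec hex
  have hmin := fun m => @Nat.find_min _ _ hex m
  set D := Nat.find hex with hDdef
  have hpF : (p : F) ≠ 0 := Nat.cast_ne_zero.2 hp.ne_zero
  have hpO : (p : 𝓞 F) ≠ 0 := Nat.cast_ne_zero.2 hp.ne_zero
  have hsq : ¬ p ^ 2 ∣ D := by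
    rintro ⟨E, hE⟩
    have hE0 : 0 < E := by
      rcases Nat.eq_zero_or_pos E with h | h
      · rw [h, mul_zero] at hE
        omega
      · exact h
    have hlt : E < D := by
      rw [hE]
      have h1 : 1 < p ^ 2 := Nat.one_lt_pow two_ne_zero hp.one_lt
      nlinarith
    apply hmin E hlt
    have hint : IsIntegral ℤ ((δ : F) / (p : F)) := by
      have h1 : ((δ : F) / (p : F)) ^ 2 = -(E : F) := by
        have h2 : ((δ ^ 2 : 𝓞 F) : F) = ((-(D : 𝓞 F) : 𝓞 F) : F) := congrArg _ hδ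
        have h3 : (δ : F) ^ 2 = -((p : F) ^ 2 * (E : F)) := by
          have h4 : (δ : F) ^ 2 = -(D : F) := by simpa using h2
          rw [h4, hE]
          push_cast
          ring
        rw [div_pow, h3, neg_div, mul_div_cancel_left₀ _ (pow_ne_zero 2 hpF)]
      apply IsIntegral.of_pow (n := 2) (by norm_num)
      rw [h1]
      exact (isIntegral_natCast E).neg
    obtain ⟨ε, hε⟩ : ∃ ε : 𝓞 F, algebraMap (𝓞 F) F ε = (δ : F) / (p : F) := ⟨⟨_, hint⟩, rfl⟩
    refine ⟨hE0, ε, ?_⟩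
    apply RingOfIntegers.coe_injective
    have h1 : ((δ : F) / (p : F)) ^ 2 = -(E : F) := by
      have h2 : ((δ ^ 2 : 𝓞 F) : F) = ((-(D : 𝓞 F) : 𝓞 F) : F) := congrArg _ hδ
      have h3 : (δ : F) ^ 2 = -((p : F) ^ 2 * (E : F)) := by
        have h4 : (δ : F) ^ 2 = -(D : F) := by simpa using h2
        rw [h4, hE]
        push_cast
        ring
      rw [div_pow, h3, neg_div, mul_div_cancel_left₀ _ (pow_ne_zero 2 hpF)]
    rw [map_pow, hε, h1, map_neg, map_natCast]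
  refine ⟨D, δ, hD, ?_, hδ⟩
  rintro ⟨E, hE⟩
  have hpE : ¬ p ∣ E := by
    rintro ⟨G, hG⟩
    exact hsq ⟨G, by rw [hE, hG]; ring⟩
  have htop : Ideal.span {(p : 𝓞 F)} ≠ ⊤ := by
    intro h
    have h1 : Nm (p : 𝓞 F) = 1 := by
      unfold H55P.Nm
      rw [h, Ideal.absNorm_top]
    rw [Nm_nat] at h1
    have h2 : 1 < p ^ 2 := Nat.one_lt_pow two_ne_zero hp.one_lt
    omega
  obtain ⟨M, hM, hle⟩ := Ideal.exists_le_maximal _ htop
  have hpM : (p : 𝓞 F) ∈ M := hle (Ideal.mem_span_singleton_self _)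
  have hMb : M ≠ ⊥ := by
    rintro rfl
    exact hpO ((Submodule.mem_bot _).1 hpM)
  let v : HeightOneSpectrum (𝓞 F) := ⟨M, hM.isPrime, hMb⟩
  apply hunr v
  have h1 : δ ^ 2 = -((p : 𝓞 F) * (E : 𝓞 F)) := by
    rw [hδ, hE]
    push_cast
    ring
  have h2 : δ ∈ v.asIdeal := by
    apply v.isPrime.mem_of_pow_mem 2
    rw [h1]
    exact neg_mem (Ideal.mul_mem_right _ _ hpM)
  have h3 : (p : 𝓞 F) * (E : 𝓞 F) ∈ v.asIdeal ^ 2 := by
    have h4 : δ ^ 2 ∈ v.asIdeal ^ 2 := Ideal.pow_mem_pow h2 2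
    rw [h1] at h4
    exact neg_mem_iff.1 h4
  have h5 : (p : 𝓞 F) ^ 2 ∈ v.asIdeal ^ 2 := Ideal.pow_mem_pow hpM 2
  have hcop : IsCoprime (E : ℤ) (p : ℤ) := by
    rw [Nat.isCoprime_iff_coprime]
    exact ((Nat.Prime.coprime_iff_not_dvd hp).2 hpE).symm
  obtain ⟨a, b, hab⟩ := hcop
  have h6 : (a : 𝓞 F) * (E : 𝓞 F) + (b : 𝓞 F) * (p : 𝓞 F) = 1 := by
    exact_mod_cast congrArg (fun z : ℤ => (z : 𝓞 F)) hab
  have h7 : (p : 𝓞 F) = (a : 𝓞 F) * ((p : 𝓞 F) * (E : 𝓞 F)) + (b : 𝓞 F) * (p : 𝓞 F) ^ 2 := by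
    linear_combination (-(p : 𝓞 F)) * h6
  rw [h7]
  exact add_mem (Ideal.mul_mem_left _ _ h3) (Ideal.mul_mem_left _ _ h5)

end H55K
end

-- from Lib.H55W.L8A
section

/-! # H55W, part L: the integers a + b sqrt(-2) -/

open NumberField IsDedekindDomain

namespace H55W

open H55P (IQ embF eF Nm)
open H55K (cj)

/-- φ is a square root of -2 in the integers of F and every integer is a + b φ. -/
structure TI {F : Type} [Field F] [NumberField F] (φ : 𝓞 F) : Prop where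
  sq : φ ^ 2 = -2
  rep : ∀ x : 𝓞 F, ∃ a b : ℤ, x = (a : 𝓞 F) + (b : 𝓞 F) * φ

/-- The residue modulo 2φ attached to a norm. -/
noncomputable def kap {F : Type} [Field F] [NumberField F] (φ : 𝓞 F) (N : ℕ) : 𝓞 F :=
  if N % 16 = 1 then 1 else if N % 16 = 9 then -1 else if N % 16 = 3 then -(1 + φ) else 1 + φ

/-- The residues modulo 16 of the norms. -/
def NR (N : ℕ) : Prop := N % 16 = 1 ∨ N % 16 = 3 ∨ N % 16 = 9 ∨ N % 16 = 11

variable {F : Type} [Field F] [NumberField F] [IQ F] {φ : 𝓞 F}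

/-- Chunk L8A (S). cj φ = -φ (like gi_cj in G0.lean: (cj φ)^2 = -2; not real), mul_cj: Nm (a + b φ) = a^2 + 2 b^2. -/
theorem ti_nm (h : TI φ) (a b : ℤ) : cj φ = -φ ∧ ((Nm ((a : 𝓞 F) + (b : 𝓞 F) * φ) : ℕ) : ℤ) = a ^ 2 + 2 * b ^ 2 := by
  have hc : cj φ = -φ := by
    have h1 : (cj φ) ^ 2 = φ ^ 2 := by
      rw [← map_pow, h.sq, map_neg]
      have h2 := H55K.cj_int (F := F) 2
      push_cast at h2
      rw [h2]
    rcases sq_eq_sq_iff_eq_or_eq_neg.1 h1 with h2 | h2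
    · exfalso
      have h3 := H55K.e_cj φ
      rw [h2] at h3
      have h4 : (eF F φ).im = 0 := Complex.conj_eq_iff_im.1 h3.symm
      have h5 : (eF F φ) ^ 2 = -2 := by
        rw [← map_pow, h.sq, map_neg, map_ofNat]
      have h6 := congrArg Complex.re h5
      rw [pow_two, Complex.mul_re, h4, mul_zero, sub_zero, Complex.neg_re] at h6
      have h7 : (2 : ℂ).re = 2 := by simp
      rw [h7] at h6
      nlinarith [mul_self_nonneg (eF F φ).re]
    · exact h2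
  refine ⟨hc, ?_⟩
  have h1 := H55K.mul_cj ((a : 𝓞 F) + (b : 𝓞 F) * φ)
  rw [map_add, map_mul, H55K.cj_int, H55K.cj_int, hc] at h1
  apply Int.cast_injective (α := 𝓞 F)
  rw [Int.cast_natCast, ← h1]
  push_cast
  linear_combination (-(b : 𝓞 F) ^ 2) * h.sq

theorem l8a_nmu {u : 𝓞 F} (hu : IsUnit u) : Nm u = 1 := by
  unfold Nm
  rw [Ideal.span_singleton_eq_top.2 hu, Ideal.absNorm_top]

theorem l8a_co (h : TI φ) {a b c d : ℤ} (he : (a : 𝓞 F) + (b : 𝓞 F) * φ = (c : 𝓞 F) + (d : 𝓞 F) * φ) :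
    a = c ∧ b = d := by
  have h1 : ((a - c : ℤ) : 𝓞 F) + ((b - d : ℤ) : 𝓞 F) * φ = 0 := by
    push_cast
    linear_combination he
  have h2 := (ti_nm h (a - c) (b - d)).2
  rw [h1, H55P.Nm_eq_zero.2 rfl] at h2
  push_cast at h2
  have h3 : (a - c) ^ 2 = 0 := by nlinarith [sq_nonneg (a - c), sq_nonneg (b - d)]
  have h4 : (b - d) ^ 2 = 0 := by nlinarith [sq_nonneg (a - c), sq_nonneg (b - d)]
  constructor
  · have h5 := pow_eq_zero_iff (two_ne_zero) |>.1 h3
    omega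
  · have h5 := pow_eq_zero_iff (two_ne_zero) |>.1 h4
    omega

/-- Chunk L8A (S). Nm u = 1: a^2 + 2b^2 = 1. -/
theorem ti_unit (h : TI φ) {u : 𝓞 F} (hu : IsUnit u) : u = 1 ∨ u = -1 := by
  obtain ⟨a, b, hab⟩ := h.rep u
  have h1 := (ti_nm h a b).2
  rw [← hab, l8a_nmu hu] at h1
  push_cast at h1
  have hb : b = 0 := by
    by_contra hb
    have h2 : 1 ≤ b ^ 2 := by
      have h3 : 0 < b ^ 2 := by positivity
      omega
    nlinarith [sq_nonneg a]
  have ha : a = 1 ∨ a = -1 := by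
    rw [hb] at h1
    have h2 : (a - 1) * (a + 1) = 0 := by linear_combination -h1
    rcases mul_eq_zero.1 h2 with h3 | h3
    · exact Or.inl (by omega)
    · exact Or.inr (by omega)
  rcases ha with ha | ha
  · left
    rw [hab, ha, hb]
    push_cast
    ring
  · right
    rw [hab, ha, hb]
    push_cast
    ring

/-- Chunk L8A (S). (2φ)(c + d φ) = -4d + 2c φ; coordinates are unique (characteristic 0, φ is not rational: eF φ is not real, or compare norms). -/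
theorem ti_dvd (h : TI φ) (a b : ℤ) : (2 * φ ∣ (a : 𝓞 F) + (b : 𝓞 F) * φ ↔ 4 ∣ a ∧ 2 ∣ b) ∧ (φ ∣ (a : 𝓞 F) + (b : 𝓞 F) * φ ↔ 2 ∣ a) := by
  refine ⟨⟨?_, ?_⟩, ⟨?_, ?_⟩⟩
  · rintro ⟨z, hz⟩
    obtain ⟨c, d, hcd⟩ := h.rep z
    have h1 : (a : 𝓞 F) + (b : 𝓞 F) * φ = ((-4 * d : ℤ) : 𝓞 F) + ((2 * c : ℤ) : 𝓞 F) * φ := by
      rw [hz, hcd]
      push_cast
      linear_combination (2 * (d : 𝓞 F)) * h.sq
    obtain ⟨h2, h3⟩ := l8a_co h h1
    exact ⟨⟨-d, by omega⟩, ⟨c, h3⟩⟩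
  · rintro ⟨⟨m, rfl⟩, ⟨n, rfl⟩⟩
    refine ⟨(n : 𝓞 F) - (m : 𝓞 F) * φ, ?_⟩
    push_cast
    linear_combination (2 * (m : 𝓞 F)) * h.sq
  · rintro ⟨z, hz⟩
    obtain ⟨c, d, hcd⟩ := h.rep z
    have h1 : (a : 𝓞 F) + (b : 𝓞 F) * φ = ((-2 * d : ℤ) : 𝓞 F) + ((c : ℤ) : 𝓞 F) * φ := by
      rw [hz, hcd]
      push_cast
      linear_combination ((d : 𝓞 F)) * h.sq
    obtain ⟨h2, h3⟩ := l8a_co h h1
    exact ⟨-d, by omega⟩
  · rintro ⟨m, rfl⟩
    refine ⟨(b : 𝓞 F) - (m : 𝓞 F) * φ, ?_⟩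
    push_cast
    linear_combination ((m : 𝓞 F)) * h.sq

theorem l8a_kap (φ : 𝓞 F) (N : ℕ) : (N % 16 = 1 → kap φ N = 1) ∧ (N % 16 = 9 → kap φ N = -1) ∧
    (N % 16 = 3 → kap φ N = -(1 + φ)) ∧ (N % 16 = 11 → kap φ N = 1 + φ) := by
  unfold kap
  refine ⟨?_, ?_, ?_, ?_⟩ <;> intro h1 <;> simp [h1]

theorem l8a_four (φ : 𝓞 F) (N : ℕ) : kap φ N = 1 ∨ kap φ N = -1 ∨ kap φ N = -(1 + φ) ∨ kap φ N = 1 + φ := by
  unfold kap
  split_ifs <;> simp

/-- Chunk L8A (S/M). x = a + b φ, a odd (ti_dvd). N = a^2 + 2b^2. b even: N = a^2 or a^2 + 8 mod 16 is 1 or 9, kap = 1 or -1, and x ≡ a ≡ 1 or -1 modulo 2φ. b odd: 2b^2 = 2 mod 16, N = a^2 + 2 is 3 or 11 mod 16, x ≡ ±1 + φ, and -1 + φ ≡ -(1 + φ). -/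
theorem ti_kap (h : TI φ) {x : 𝓞 F} (hx : ¬ φ ∣ x) : NR (Nm x) ∧ (2 * φ ∣ x - kap φ (Nm x) ∨ 2 * φ ∣ x + kap φ (Nm x)) := by
  obtain ⟨a, b, hab⟩ := h.rep x
  have ha : ¬ (2 : ℤ) ∣ a := by
    intro h1
    apply hx
    rw [hab]
    exact (ti_dvd h a b).2.2 h1
  have hN := (ti_nm h a b).2
  rw [← hab] at hN
  obtain ⟨k1, k9, k3, k11⟩ := l8a_kap φ (Nm x)
  obtain ⟨p, ε, hε, hp⟩ : ∃ p ε : ℤ, (ε = 1 ∨ ε = -1) ∧ a = 4 * p + ε := by
    have h1 : a % 4 = 1 ∨ a % 4 = 3 := by omega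
    rcases h1 with h1 | h1
    · exact ⟨a / 4, 1, Or.inl rfl, by omega⟩
    · exact ⟨a / 4 + 1, -1, Or.inr rfl, by omega⟩
  have hε2 : ε ^ 2 = 1 := by rcases hε with rfl | rfl <;> norm_num
  rcases Int.even_or_odd' b with ⟨q, hq | hq⟩
  · obtain ⟨T, hT⟩ : ∃ T, T = 2 * p ^ 2 + p * ε + q ^ 2 := ⟨_, rfl⟩
    have h1 : ((Nm x : ℕ) : ℤ) = 8 * T + 1 := by
      rw [hN, hp, hq, hT]
      linear_combination hε2
    have h2 : Nm x % 16 = 1 ∨ Nm x % 16 = 9 := by omega
    have h3 : 2 * φ ∣ x - 1 ∨ 2 * φ ∣ x + 1 := by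
      rcases hε with h4 | h4
      · left
        have h5 : x - 1 = ((a - 1 : ℤ) : 𝓞 F) + (b : 𝓞 F) * φ := by
          rw [hab]
          push_cast
          ring
        rw [h5]
        exact (ti_dvd h _ _).1.2 ⟨⟨p, by omega⟩, ⟨q, hq⟩⟩
      · right
        have h5 : x + 1 = ((a + 1 : ℤ) : 𝓞 F) + (b : 𝓞 F) * φ := by
          rw [hab]
          push_cast
          ring
        rw [h5]
        exact (ti_dvd h _ _).1.2 ⟨⟨p, by omega⟩, ⟨q, hq⟩⟩
    rcases h2 with h2 | h2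
    · exact ⟨Or.inl h2, by rw [k1 h2]; exact h3⟩
    · refine ⟨Or.inr (Or.inr (Or.inl h2)), ?_⟩
      rw [k9 h2, sub_neg_eq_add, ← sub_eq_add_neg]
      exact h3.symm
  · obtain ⟨T, hT⟩ : ∃ T, T = 2 * p ^ 2 + p * ε + q * (q + 1) := ⟨_, rfl⟩
    have h1 : ((Nm x : ℕ) : ℤ) = 8 * T + 3 := by
      rw [hN, hp, hq, hT]
      linear_combination hε2
    have h2 : Nm x % 16 = 3 ∨ Nm x % 16 = 11 := by omega
    have h3 : 2 * φ ∣ x - (1 + φ) ∨ 2 * φ ∣ x + (1 + φ) := by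
      rcases hε with h4 | h4
      · left
        have h5 : x - (1 + φ) = ((a - 1 : ℤ) : 𝓞 F) + ((b - 1 : ℤ) : 𝓞 F) * φ := by
          rw [hab]
          push_cast
          ring
        rw [h5]
        exact (ti_dvd h _ _).1.2 ⟨⟨p, by omega⟩, ⟨q, by omega⟩⟩
      · right
        have h5 : x + (1 + φ) = ((a + 1 : ℤ) : 𝓞 F) + ((b + 1 : ℤ) : 𝓞 F) * φ := by
          rw [hab]
          push_cast
          ring
        rw [h5]
        exact (ti_dvd h _ _).1.2 ⟨⟨p, by omega⟩, ⟨q + 1, by omega⟩⟩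
    rcases h2 with h2 | h2
    · refine ⟨Or.inr (Or.inl h2), ?_⟩
      rw [k3 h2, sub_neg_eq_add, ← sub_eq_add_neg]
      exact h3.symm
    · exact ⟨Or.inr (Or.inr (Or.inr h2)), by rw [k11 h2]; exact h3⟩

/-- Chunk L8A (S). Cases modulo 16; (1 + φ)^2 = -1 + 2φ. -/
theorem kap_mul (h : TI φ) {N M : ℕ} (hN : NR N) (hM : NR M) : NR (N * M) ∧ 2 * φ ∣ kap φ N * kap φ M - kap φ (N * M) := by
  obtain ⟨a1, a9, a3, a11⟩ := l8a_kap φ N
  obtain ⟨b1, b9, b3, b11⟩ := l8a_kap φ M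
  obtain ⟨c1, c9, c3, c11⟩ := l8a_kap φ (N * M)
  rcases hN with hN | hN | hN | hN <;> rcases hM with hM | hM | hM | hM
  · have e : N * M % 16 = 1 := by rw [Nat.mul_mod, hN, hM]
    exact ⟨Or.inl e, ⟨0, by rw [a1 hN, b1 hM, c1 e]; ring⟩⟩
  · have e : N * M % 16 = 3 := by rw [Nat.mul_mod, hN, hM]
    exact ⟨Or.inr (Or.inl e), ⟨0, by rw [a1 hN, b3 hM, c3 e]; ring⟩⟩
  · have e : N * M % 16 = 9 := by rw [Nat.mul_mod, hN, hM]
    exact ⟨Or.inr (Or.inr (Or.inl e)), ⟨0, by rw [a1 hN, b9 hM, c9 e]; ring⟩⟩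
  · have e : N * M % 16 = 11 := by rw [Nat.mul_mod, hN, hM]
    exact ⟨Or.inr (Or.inr (Or.inr e)), ⟨0, by rw [a1 hN, b11 hM, c11 e]; ring⟩⟩
  · have e : N * M % 16 = 3 := by rw [Nat.mul_mod, hN, hM]
    exact ⟨Or.inr (Or.inl e), ⟨0, by rw [a3 hN, b1 hM, c3 e]; ring⟩⟩
  · have e : N * M % 16 = 9 := by rw [Nat.mul_mod, hN, hM]
    exact ⟨Or.inr (Or.inr (Or.inl e)), ⟨1, by rw [a3 hN, b3 hM, c9 e]; linear_combination h.sq⟩⟩
  · have e : N * M % 16 = 11 := by rw [Nat.mul_mod, hN, hM]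
    exact ⟨Or.inr (Or.inr (Or.inr e)), ⟨0, by rw [a3 hN, b9 hM, c11 e]; ring⟩⟩
  · have e : N * M % 16 = 1 := by rw [Nat.mul_mod, hN, hM]
    exact ⟨Or.inl e, ⟨-1, by rw [a3 hN, b11 hM, c1 e]; linear_combination -h.sq⟩⟩
  · have e : N * M % 16 = 9 := by rw [Nat.mul_mod, hN, hM]
    exact ⟨Or.inr (Or.inr (Or.inl e)), ⟨0, by rw [a9 hN, b1 hM, c9 e]; ring⟩⟩
  · have e : N * M % 16 = 11 := by rw [Nat.mul_mod, hN, hM]
    exact ⟨Or.inr (Or.inr (Or.inr e)), ⟨0, by rw [a9 hN, b3 hM, c11 e]; ring⟩⟩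
  · have e : N * M % 16 = 1 := by rw [Nat.mul_mod, hN, hM]
    exact ⟨Or.inl e, ⟨0, by rw [a9 hN, b9 hM, c1 e]; ring⟩⟩
  · have e : N * M % 16 = 3 := by rw [Nat.mul_mod, hN, hM]
    exact ⟨Or.inr (Or.inl e), ⟨0, by rw [a9 hN, b11 hM, c3 e]; ring⟩⟩
  · have e : N * M % 16 = 11 := by rw [Nat.mul_mod, hN, hM]
    exact ⟨Or.inr (Or.inr (Or.inr e)), ⟨0, by rw [a11 hN, b1 hM, c11 e]; ring⟩⟩
  · have e : N * M % 16 = 1 := by rw [Nat.mul_mod, hN, hM]
    exact ⟨Or.inl e, ⟨-1, by rw [a11 hN, b3 hM, c1 e]; linear_combination -h.sq⟩⟩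
  · have e : N * M % 16 = 3 := by rw [Nat.mul_mod, hN, hM]
    exact ⟨Or.inr (Or.inl e), ⟨0, by rw [a11 hN, b9 hM, c3 e]; ring⟩⟩
  · have e : N * M % 16 = 9 := by rw [Nat.mul_mod, hN, hM]
    exact ⟨Or.inr (Or.inr (Or.inl e)), ⟨1, by rw [a11 hN, b11 hM, c9 e]; linear_combination h.sq⟩⟩

/-- Chunk L8A (S). Otherwise 2φ divides 2 kap: kap is 1, -1, 1 + φ, -(1 + φ), and 2φ does not divide 2, 2 + 2φ (ti_dvd). -/
theorem kap_ne (h : TI φ) {N : ℕ} {x : 𝓞 F} (h1 : 2 * φ ∣ x - kap φ N) (h2 : 2 * φ ∣ x + kap φ N) : False := by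
  have h3 : 2 * φ ∣ 2 * kap φ N := by
    have h4 := dvd_sub h2 h1
    have h5 : x + kap φ N - (x - kap φ N) = 2 * kap φ N := by ring
    rwa [h5] at h4
  have h6 : ¬ 2 * φ ∣ (2 : 𝓞 F) := by
    intro h7
    have h8 : (2 : 𝓞 F) = ((2 : ℤ) : 𝓞 F) + ((0 : ℤ) : 𝓞 F) * φ := by
      push_cast
      ring
    rw [h8] at h7
    have h9 := ((ti_dvd h 2 0).1.1 (by
      have h10 : (2 * φ : 𝓞 F) = (((2 : ℤ) : 𝓞 F) + ((0 : ℤ) : 𝓞 F) * φ) * φ := by
        push_cast
        ring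
      rw [h10]
      exact h7)).1
    omega
  have h11 : ¬ 2 * φ ∣ 2 * (1 + φ) := by
    intro h7
    have h8 : 2 * (1 + φ) = ((2 : ℤ) : 𝓞 F) + ((2 : ℤ) : 𝓞 F) * φ := by
      push_cast
      ring
    rw [h8] at h7
    have h9 := ((ti_dvd h 2 2).1.1 h7).1
    omega
  rcases l8a_four φ N with h4 | h4 | h4 | h4
  · rw [h4, mul_one] at h3
    exact h6 h3
  · rw [h4, mul_neg, mul_one, dvd_neg] at h3
    exact h6 h3
  · rw [h4, mul_neg, dvd_neg] at h3
    exact h11 h3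
  · rw [h4] at h3
    exact h11 h3

/-- Chunk L8A (S). x = y + 8 z: x cj x - y cj y = 8 (z cj y + y cj z) + 64 z cj z, z cj y + cj (z cj y) = 2 a: divisible by 16. -/
theorem ti_per (h : TI φ) {x y : 𝓞 F} (hxy : (8 : 𝓞 F) ∣ x - y) : Nm x % 16 = Nm y % 16 := by
  obtain ⟨z, hz⟩ := hxy
  obtain ⟨c, d, hy⟩ := h.rep y
  obtain ⟨e, f, he⟩ := h.rep z
  have hx : x = ((c + 8 * e : ℤ) : 𝓞 F) + ((d + 8 * f : ℤ) : 𝓞 F) * φ := by
    push_cast
    linear_combination hz + hy + 8 * he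
  have h1 := (ti_nm h (c + 8 * e) (d + 8 * f)).2
  have h2 := (ti_nm h c d).2
  rw [← hx] at h1
  rw [← hy] at h2
  obtain ⟨T, hT⟩ : ∃ T, T = c * e + 4 * e ^ 2 + 2 * d * f + 8 * f ^ 2 := ⟨_, rfl⟩
  have h3 : ((Nm x : ℕ) : ℤ) = ((Nm y : ℕ) : ℤ) + 16 * T := by
    rw [h1, h2, hT]
    ring
  omega

end H55W
end

-- from Lib.H13S.DV
section

open NumberField IsDedekindDomain

namespace H13S

open H55P

theorem dv_le {F₀ : Type} [Field F₀] {Ω : Type} [Field Ω] [Algebra F₀ Ω] {V : ValuationSubring Ω}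
    (s : Ω ≃ₐ[F₀] Ω) (hs : Dec V s) (a b : Ω) :
    V.valuation (s a) ≤ V.valuation (s b) ↔ V.valuation a ≤ V.valuation b := by
  by_cases hb : b = 0
  · subst hb
    simp
  · have hb1 : 0 < V.valuation b := by
      rw [zero_lt_iff, Ne, map_eq_zero]
      exact hb
    have hb2 : 0 < V.valuation (s b) := by
      rw [zero_lt_iff, Ne, map_eq_zero, map_eq_zero]
      exact hb
    have h3 := hs (a / b)
    rw [← V.valuation_le_one_iff, ← V.valuation_le_one_iff, map_div₀ s, map_div₀ V.valuation,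
      map_div₀ V.valuation, div_le_one₀ hb1, div_le_one₀ hb2] at h3
    exact h3



end H13S
end

-- from Lib.H13Z.LF2
section

open NumberField IsDedekindDomain

namespace H13Z

open H55P

theorem lf2_one {Ω : Type} [Field Ω] (V : ValuationSubring Ω) {l : ℕ} (hl : l ≠ 0) {ζ : Ω}
    (h : ζ ^ l = 1) : V.valuation ζ = 1 := by
  have h5 : V.valuation ζ ^ l = 1 := by rw [← map_pow, h, map_one]
  exact (pow_eq_one_iff_of_nonneg zero_le hl).1 h5

/-- all nontrivial roots of unity have the same distance from one -/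
theorem lf2_le {Ω : Type} [Field Ω] (V : ValuationSubring Ω) {l : ℕ} (hl : l.Prime) {ζ ξ : Ω}
    (hζ : IsPrimitiveRoot ζ l) (hξ : ξ ^ l = 1) : V.valuation (ξ - 1) ≤ V.valuation (ζ - 1) := by
  have hNZ : NeZero l := ⟨hl.ne_zero⟩
  obtain ⟨i, _, hi⟩ := hζ.eq_pow_of_pow_eq_one hξ
  rw [← hi, ← geom_sum_mul, map_mul]
  have h6 : V.valuation (∑ j ∈ Finset.range i, ζ ^ j) ≤ 1 := by
    apply Valuation.map_sum_le
    intro j _
    rw [map_pow, lf2_one V hl.ne_zero hζ.pow_eq_one, one_pow]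
  calc V.valuation (∑ j ∈ Finset.range i, ζ ^ j) * V.valuation (ζ - 1)
      ≤ 1 * V.valuation (ζ - 1) := by gcongr
    _ = V.valuation (ζ - 1) := one_mul _

theorem lf2_prim {Ω : Type} [Field Ω] {l : ℕ} (hl : l.Prime) {ξ : Ω} (hξ : ξ ^ l = 1) (h1 : ξ ≠ 1) :
    IsPrimitiveRoot ξ l := by
  have : Fact l.Prime := ⟨hl⟩
  have h2 := orderOf_eq_prime hξ h1
  rw [← h2]
  exact IsPrimitiveRoot.orderOf ξ

/-- the value of l -/
theorem lf2_l {Ω : Type} [Field Ω] [CharZero Ω] (V : ValuationSubring Ω) {l : ℕ} (hl : l.Prime) {ζ : Ω}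
    (hζ : IsPrimitiveRoot ζ l) : V.valuation (l : Ω) = V.valuation (ζ - 1) ^ (l - 1) := by
  have hprod : ∏ k ∈ Finset.range (l - 1), (1 - ζ ^ (k + 1)) = (l : Ω) := by
    have hl2 := hl.two_le
    have hpr' : IsPrimitiveRoot ζ ((l - 1) + 1) := by
      have : l - 1 + 1 = l := by omega
      rw [this]; exact hζ
    rw [hpr'.prod_one_sub_pow_eq_order]
    have : ((l - 1 : ℕ) : Ω) + 1 = ((l - 1 + 1 : ℕ) : Ω) := by push_cast; ring
    rw [this]
    congr 1
    omega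
  rw [← hprod, map_prod]
  have h : ∀ k ∈ Finset.range (l - 1), V.valuation (1 - ζ ^ (k + 1)) = V.valuation (ζ - 1) := by
    intro k hk
    rw [Finset.mem_range] at hk
    have h1 : (ζ ^ (k + 1)) ^ l = 1 := by rw [← pow_mul, mul_comm, pow_mul, hζ.pow_eq_one, one_pow]
    have h2 : ζ ^ (k + 1) ≠ 1 := hζ.pow_ne_one_of_pos_of_lt (by omega) (by omega)
    rw [Valuation.map_sub_swap]
    exact le_antisymm (lf2_le V hl hζ h1) (lf2_le V hl (lf2_prim hl h1 h2) hζ.pow_eq_one)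
  rw [Finset.prod_congr rfl h, Finset.prod_const, Finset.card_range]

/-- Chunk LF2 (M). A root of higher level is fixed by the decomposition group, if the l-th roots of unity are. V (y - 1) < 1: (y - 1)^l = y^l - 1 modulo l. λ = V (1 - ζ) for all ζ ≠ 1, ζ^l = 1; λ^(l-1) = V l, so V l < λ (l ≥ 3). y^l - 1 = product of the (y - ζ) over ζ^l = 1 (X^l - 1 splits: Ω algebraically closed; X_pow_sub_one_eq_prod), value ≤ V l^2 < λ^l
(λ^l = V l * λ), so some V (y - ζ₀) < λ. s y = ξ y, ξ^l = 1. V (s y - ζ₀) < V (s (1 - ζ)) = λ (Dec preserves inequalities, s fixes the roots of unity). ξ y - ζ₀ and ξ (y - ζ₀) have values < λ, so V (ξ ζ₀ - ζ₀) < λ, ξ = 1. -/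
theorem fix_strict {F₀ Ω : Type} [Field F₀] [Field Ω] [Algebra F₀ Ω] [CharZero Ω] [IsAlgClosed Ω]
    (V : ValuationSubring Ω) {l : ℕ} (hl : l.Prime) (h3 : 3 ≤ l) (hV : V.valuation (l : Ω) < 1) {u y : Ω}
    (hy : y ^ l = u) (hu : V.valuation (u - 1) ≤ V.valuation (l : Ω) ^ 2) {s : Ω ≃ₐ[F₀] Ω} (hs : Dec V s)
    (h1 : ∀ ζ : Ω, ζ ^ l = 1 → s ζ = ζ) (h2 : s u = u) : s y = y := by
  have hlz : ((l : ℕ) : Ω) ≠ 0 := by exact_mod_cast hl.ne_zero
  have hNZ : NeZero ((l : ℕ) : Ω) := ⟨hlz⟩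
  obtain ⟨ζ, hζ0⟩ := IsAlgClosed.exists_root (Polynomial.cyclotomic l Ω) (by
    rw [Polynomial.degree_cyclotomic]
    have := Nat.totient_pos.2 hl.pos
    intro h
    have h' : Nat.totient l = 0 := by exact_mod_cast h
    omega)
  have hζ : IsPrimitiveRoot ζ l := Polynomial.isRoot_cyclotomic_iff.1 hζ0
  have hvl := lf2_l V hl hζ
  obtain ⟨c, hc⟩ : ∃ c, c = V.valuation (ζ - 1) := ⟨_, rfl⟩
  have hvl0 : V.valuation (l : Ω) ≠ 0 := by
    rw [Ne, map_eq_zero]
    exact hlz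
  rw [← hc] at hvl
  have hc0 : c ≠ 0 := by
    intro h
    rw [h, zero_pow (by omega)] at hvl
    exact hvl0 hvl
  have hcpos : 0 < c := zero_lt_iff.2 hc0
  have hc1 : c < 1 := by
    by_contra hcon
    rw [not_lt] at hcon
    rw [hvl] at hV
    exact absurd (one_le_pow₀ hcon) (not_le.2 hV)
  -- some root of unity is close to y
  have hlt : V.valuation (l : Ω) ^ 2 < c ^ l := by
    rw [hvl, ← pow_mul]
    exact pow_lt_pow_right_of_lt_one₀ hcpos hc1 (by omega)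
  have hprod := hζ.pow_sub_pow_eq_prod_sub_mul y 1 hl.pos
  rw [one_pow, hy] at hprod
  have hclose : ∃ ζ₀ : Ω, ζ₀ ^ l = 1 ∧ V.valuation (y - ζ₀) < c := by
    by_contra hcon
    push Not at hcon
    have h4 : c ^ l ≤ V.valuation (u - 1) := by
      rw [hprod, map_prod]
      calc c ^ l = ∏ _ζ ∈ Polynomial.nthRootsFinset l (1 : Ω), c := by
            rw [Finset.prod_const, hζ.card_nthRootsFinset]
        _ ≤ _ := by
          apply Finset.prod_le_prod'
          intro ξ hξ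
          rw [mul_one]
          exact hcon ξ ((Polynomial.mem_nthRootsFinset hl.pos _).1 hξ)
    exact absurd (h4.trans hu) (not_le.2 hlt)
  obtain ⟨ζ₀, hζ₀, hcl⟩ := hclose
  have hy0 : y ≠ 0 := by
    rintro rfl
    rw [zero_pow hl.ne_zero] at hy
    rw [← hy, zero_sub, Valuation.map_neg, map_one] at hu
    have h4 : V.valuation (l : Ω) ^ 2 < 1 := pow_lt_one₀ zero_le hV (by norm_num)
    exact absurd hu (not_le.2 h4)
  obtain ⟨ξ, hξ⟩ : ∃ ξ : Ω, ξ = s y / y := ⟨_, rfl⟩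
  have hsy : s y = ξ * y := by rw [hξ, div_mul_cancel₀ _ hy0]
  have hξl : ξ ^ l = 1 := by
    rw [hξ, div_pow, ← map_pow, hy, h2, div_self]
    rw [← hy]
    exact pow_ne_zero l hy0
  have h5 : V.valuation (ξ * y - ζ₀) < c := by
    have h6 : V.valuation (s (y - ζ₀)) < V.valuation (s (ζ - 1)) := by
      rw [← not_le, H13S.dv_le s hs, not_le, ← hc]
      exact hcl
    have e1 : s (y - ζ₀) = ξ * y - ζ₀ := by rw [map_sub s, hsy, h1 ζ₀ hζ₀]
    have e2 : s (ζ - 1) = ζ - 1 := by rw [map_sub s, h1 ζ hζ.pow_eq_one, map_one]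
    rw [e1, e2, ← hc] at h6
    exact h6
  have h7 : V.valuation (ξ * (y - ζ₀)) < c := by
    rw [map_mul, lf2_one V hl.ne_zero hξl, one_mul]
    exact hcl
  have h8 : V.valuation ((ξ - 1) * ζ₀) < c := by
    have h9 : (ξ - 1) * ζ₀ = (ξ * y - ζ₀) - ξ * (y - ζ₀) := by ring
    rw [h9]
    exact (V.valuation.map_sub _ _).trans_lt (max_lt h5 h7)
  rw [map_mul, lf2_one V hl.ne_zero hζ₀, mul_one] at h8
  by_cases hne : ξ = 1
  · rw [hsy, hne, one_mul]
  · exfalso
    have h9 := lf2_le V hl (lf2_prim hl hξl hne) hζ.pow_eq_one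
    rw [← hc] at h9
    exact absurd h9 (not_le.2 h8)

end H13Z
end

-- from Lib.H55C.Y17
section

open NumberField IsDedekindDomain

namespace H55C

open H55B

/-- Pure group theory and CRT: let l : A -> ℕ be injective with prime values such that Nat.card A divides l a - 1. Then (Z/m)^* maps
onto A, m = prod of the l a. For a in A the group (Z/(l a))^* is cyclic of order l a - 1, let u_a be a generator; since
a^(l a - 1) = 1 there is a homomorphism φ_a to A with φ_a(u_a) = a (monoidHomOfForallMemZpowers). Put Φ x = prod_a φ_a(x mod l a)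
(ZMod.unitsMap). Φ is onto: given b, by the Chinese remainder theorem there is x in (Z/m)^* with x = u_b mod l b and x = 1 mod l a
for a different from b; Φ x = b. -/
theorem Y17_surj (A : Type) [CommGroup A] [Fintype A] (l : A → ℕ) (hl : Function.Injective l)
    (hp : ∀ a, (l a).Prime) (hd : ∀ a, Nat.card A ∣ l a - 1) :
    ∃ Φ : (ZMod (∏ a, l a))ˣ →* A, Function.Surjective Φ := by
  classical
  have hfact : ∀ a, Fact (l a).Prime := fun a => ⟨hp a⟩
  have hdvd : ∀ a, l a ∣ ∏ a, l a := fun a => Finset.dvd_prod_of_mem l (Finset.mem_univ a)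
  have hcop : Pairwise (Function.onFun Nat.Coprime l) := by
    intro a b hab
    exact (Nat.coprime_primes (hp a) (hp b)).2 (fun h => hab (hl h))
  have hcyc : ∀ a, ∃ g : (ZMod (l a))ˣ, ∀ x, x ∈ Subgroup.zpowers g := fun a =>
    IsCyclic.exists_generator
  choose u hu using hcyc
  have hord : ∀ a, orderOf a ∣ orderOf (u a) := by
    intro a
    have h1 : orderOf (u a) = Nat.card (ZMod (l a))ˣ := orderOf_eq_card_of_forall_mem_zpowers (hu a)
    have h2 : Nat.card (ZMod (l a))ˣ = l a - 1 := by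
      rw [Nat.card_eq_fintype_card, ZMod.card_units]
    rw [h1, h2]
    exact (orderOf_dvd_natCard a).trans (hd a)
  let φ : ∀ a, (ZMod (l a))ˣ →* A := fun a => monoidHomOfForallMemZpowers (hu a) (hord a)
  have hφ : ∀ a, φ a (u a) = a := fun a => monoidHomOfForallMemZpowers_apply_gen (hu a) (hord a)
  let Φ : (ZMod (∏ a, l a))ˣ →* A := ∏ a, (φ a).comp (ZMod.unitsMap (hdvd a))
  have hΦ : ∀ x, Φ x = ∏ a, φ a (ZMod.unitsMap (hdvd a) x) := by
    intro x
    exact MonoidHom.finsetProd_apply _ _ x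
  refine ⟨Φ, fun b => ?_⟩
  let y : ∀ a, (ZMod (l a))ˣ := Function.update (fun _ => 1) b (u b)
  let e := ZMod.prodEquivPi l hcop
  have he : ∀ a x, (ZMod.castHom (hdvd a) (ZMod (l a))) x = e x a := by
    intro a x
    have h1 : ZMod.castHom (hdvd a) (ZMod (l a)) = (Pi.evalRingHom (fun a => ZMod (l a)) a).comp
      (e : ZMod (∏ a, l a) →+* ∀ a, ZMod (l a)) := Subsingleton.elim _ _
    rw [h1]
    rfl
  let x : (ZMod (∏ a, l a))ˣ :=
    { val := e.symm (fun a => (y a : ZMod (l a)))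
      inv := e.symm (fun a => ((y a)⁻¹ : (ZMod (l a))ˣ))
      val_inv := by
        rw [← map_mul]
        have : (fun a => (y a : ZMod (l a))) * (fun a => (((y a)⁻¹ : (ZMod (l a))ˣ) : ZMod (l a))) = 1 := by
          funext a
          exact Units.mul_inv (y a)
        rw [this, map_one]
      inv_val := by
        rw [← map_mul]
        have : (fun a => (((y a)⁻¹ : (ZMod (l a))ˣ) : ZMod (l a))) * (fun a => (y a : ZMod (l a))) = 1 := by
          funext a
          exact Units.inv_mul (y a)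
        rw [this, map_one] }
  have hx : ∀ a, ZMod.unitsMap (hdvd a) x = y a := by
    intro a
    apply Units.ext
    show ZMod.castHom (hdvd a) (ZMod (l a)) (e.symm (fun a => (y a : ZMod (l a)))) = y a
    rw [he, RingEquiv.apply_symm_apply]
  refine ⟨x, ?_⟩
  rw [hΦ]
  rw [Finset.prod_eq_single b]
  · have hyb : y b = u b := by simp [y]
    rw [hx, hyb]
    exact hφ b
  · intro a _ hab
    have hya : y a = 1 := by simp [y, Function.update_of_ne hab]
    rw [hx, hya, map_one]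
  · intro h
    exact absurd (Finset.mem_univ b) h


end H55C
end

-- from Lib.H55D.X3
section

open NumberField IsDedekindDomain

namespace H55D

open H55B H55C


/-! Chunk X3 (L): K = K₀(om), e.g. the subfield generated by K₀ and F in an algebraic closure, or the splitting field of X^2 + X + 1 over K₀ (AdjoinRoot if irreducible), with Algebra F K.
K₀ contains no root ζ of x^2 + x + 1: K₀ would contain Q(ζ), ramified at 3 (-3 = (2ζ+1)^2: for w above 3 the valuation of 3 would be even, so w would be ramified over Z), but 3 is not 1 mod 3, so K₀/ℚ is unramified at 3. So Quad K₀ K.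
K/F is Galois (K = K₀ F), restriction Gal(K/F) -> Gal(K₀/ℚ) is injective, so the order is a power of 2. UnrOut K: let w be a prime of K above v not Good, v in O above the prime number l (or v above 2 or 3), w₀ = w ∩ K₀. Then l is
not an admissible number: if l = 1 mod 3 and 2 is not a cube mod l then v is good (O/v has l elements: H1/prime_types; x^3 = 2 in O/v = Z/l; 2, 3 not in v) (if l = 2 mod 3 the first condition fails; l = 3: fails). So w₀ is
unramified over Z; the inertia group of w in Gal(K/F) restricts injectively into the inertia group of w₀ in Gal(K₀/ℚ), which is trivial (its order is the ramification index). Hence e(w|v) = 1. -/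

theorem X3_card {K : Type} [Field K] [NumberField K] [IsGalois ℚ K]
    (w : HeightOneSpectrum (𝓞 K)) :
    Nat.card (w.asIdeal.inertia (K ≃ₐ[ℚ] K)) = w.asIdeal.ramificationIdx ℤ := by
  have hwm := w.isMaximal
  have hwp := w.isPrime
  have hp : (w.asIdeal.under ℤ).IsPrime := inferInstance
  have hne : w.asIdeal.under ℤ ≠ ⊥ := by
    intro h
    exact w.ne_bot (Ideal.eq_bot_of_comap_eq_bot (R := ℤ) (I := w.asIdeal) h)
  have hvm : (w.asIdeal.under ℤ).IsMaximal := hp.isMaximal hne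
  have hl : w.asIdeal.LiesOver (w.asIdeal.under ℤ) := ⟨rfl⟩
  rw [Ideal.card_inertia_eq_ramificationIdxIn (G := K ≃ₐ[ℚ] K) (w.asIdeal.under ℤ) w.asIdeal,
    Ideal.ramificationIdxIn_eq_ramificationIdx (w.asIdeal.under ℤ) w.asIdeal (K ≃ₐ[ℚ] K)]

theorem X3_inertia {K : Type} [Field K] [NumberField K] [IsGalois ℚ K]
    (w : HeightOneSpectrum (𝓞 K)) (h : w.asIdeal.ramificationIdx ℤ = 1) (g : K ≃ₐ[ℚ] K)
    (hg : ∀ y : 𝓞 K, g • y - y ∈ w.asIdeal) : g = 1 := by
  rw [← X3_card w, Subgroup.card_eq_one, Subgroup.eq_bot_iff_forall] at h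
  exact h g hg












end H55D
end

-- from Lib.H55K.RA1
section

/-! # H55K: Euler factors of degree one -/

open NumberField IsDedekindDomain WeierstrassCurve

namespace H55K.TQ

open H55P (IQ embF eF LF Per IsHecke Pt ac Inert Dec Nm UnitP)
open H35P (WAB Ker tt GoodW IntW)
open H55K.MG (VC Crd)
open H55K.DD (LF' ef)

/-- Chunk RA1 (S/M). (1 - a X)^-1 (1 + a X)^-1 = (1 - a^2 X^2)^-1 in power series; ofPowerSeries q is a ring homomorphism and ofPowerSeries (q^2) P = ofPowerSeries q (P(X^2)) for geometric series: H55B.I2_ofPS_pow (Lib/H55B/I2.lean), see H55D.LEF_two (Lib/H55D/Q4.lean). -/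
theorem ef_sq {q : ℕ} (hq : 1 < q) (a : ℂ) : ef q a * ef q (-a) = ef (q ^ 2) (a ^ 2) := by
  have h := H55B.I2_ofPS_pow (q := q) (k := 2) two_ne_zero (a ^ 2) 0
  have e1 : ((1 - PowerSeries.C (a ^ 2) * PowerSeries.X) * (1 - PowerSeries.C (0 : ℂ) * PowerSeries.X) :
      PowerSeries ℂ) = 1 - PowerSeries.C (a ^ 2) * PowerSeries.X := by
    rw [map_zero]; ring
  have e2 : ((1 - PowerSeries.C (a ^ 2) * PowerSeries.X ^ 2)⁻¹ *
      (1 - PowerSeries.C (0 : ℂ) * PowerSeries.X ^ 2)⁻¹ : PowerSeries ℂ) =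
      (1 - PowerSeries.C a * PowerSeries.X)⁻¹ * (1 - PowerSeries.C (-a) * PowerSeries.X)⁻¹ := by
    rw [← PowerSeries.mul_inv_rev, ← PowerSeries.mul_inv_rev]
    congr 1
    rw [map_zero, map_neg, map_pow]
    ring
  rw [e1, e2] at h
  unfold ef
  rw [h, map_mul]

/-- Chunk RA1 (S). Value at 1 is 1: see H55D.DQA_LEF_one (Lib/H55D/QA.lean). -/
theorem lf_one {K : Type} [Field K] [NumberField K] (W : WeierstrassCurve K) (w : HeightOneSpectrum (𝓞 K)) :
    LF' W w 1 = 1 := by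
  unfold LF' WeierstrassCurve.localEulerFactor
  rw [ArithmeticFunction.intCoe_apply]
  simp [WeierstrassCurve.localPowerSeries]

end H55K.TQ
end

-- from Lib.H35M.KL5B
section

/-! # H35M, chunk KL5B (M): additive characters -/

namespace H35M

variable {C : Type} [NormedField C] [IsUltrametricDist C] {G : Type} [AddCommGroup G] [Fintype G] [DecidableEq G] {X : G → C}

omit [IsUltrametricDist C] in
theorem kl5b_ne (hX : FG X) : cX X ≠ 0 := by
  unfold cX
  refine Finset.prod_ne_zero_iff.2 fun b hb h0 => ?_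
  rw [← hX.zero] at h0
  exact (Finset.mem_erase.1 hb).1 (hX.inj h0)

omit [IsUltrametricDist C] [DecidableEq G] in
theorem kl5b_norm {ψ : G → C} (h0 : ψ 0 = 1) (hψ : ∀ a b, ψ (a + b) = ψ a * ψ b) (a : G) : ‖ψ a‖ = 1 := by
  have h1 : ∀ n : ℕ, ψ (n • a) = ψ a ^ n := by
    intro n
    induction n with
    | zero => rw [zero_nsmul, h0, pow_zero]
    | succ n ih => rw [succ_nsmul, hψ, ih, pow_succ]
  have h2 : ‖ψ a‖ ^ Fintype.card G = 1 := by
    rw [← norm_pow, ← h1, card_nsmul_eq_zero, h0, norm_one]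
  exact (pow_eq_one_iff_of_nonneg (norm_nonneg _) Fintype.card_ne_zero).1 h2

/-- Chunk KL5 (M). The main lemma: for every additive character ψ : G → C the sum of ψ g is divisible by c. PROOF. By induction there is k_n in Fn1 with (sum_a ψ a * g a)^(n+1) = c^n * sum_a ψ a * k_n a: k_0 = g; (sum_a ψ a k_n a)(sum_b ψ b g b) = sum_a ψ a sum_b g b k_n (a - b) (ψ additive,
reindex) = c sum_a ψ a k_(n+1) a (FG.conv). ‖ψ a‖ = 1 (ψ a ^ card G = ψ 0 = 1). So with S = ‖sum ψ g‖: S^(n+1) <= ‖c‖^n for all n (‖k_n a‖ <= 1, ultrametric), ‖c‖ > 0: if S > ‖c‖ then (S/‖c‖)^n is unbounded, contradiction to (S/‖c‖)^n <= 1/S. -/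
theorem FG.char (hX : FG X) {g : G → C} (hg : Fn1 X g) {ψ : G → C} (h0 : ψ 0 = 1) (hψ : ∀ a b, ψ (a + b) = ψ a * ψ b) :
    ‖∑ a, ψ a * g a‖ ≤ ‖cX X‖ := by
  have hc := kl5b_ne hX
  have hc0 : 0 < ‖cX X‖ := norm_pos_iff.2 hc
  have key : ∀ n : ℕ, ∃ k : G → C, Fn1 X k ∧ (∑ a, ψ a * g a) ^ (n + 1) = cX X ^ n * ∑ a, ψ a * k a := by
    intro n
    induction n with
    | zero => exact ⟨g, hg, by rw [zero_add, pow_one, pow_zero, one_mul]⟩
    | succ n ih =>
      obtain ⟨k, hk, hkn⟩ := ih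
      obtain ⟨k', hk', hconv⟩ := FG.conv hX hg hk
      refine ⟨k', hk', ?_⟩
      have h1 : (∑ a, ψ a * k a) * ∑ b, ψ b * g b = cX X * ∑ a, ψ a * k' a := by
        rw [Finset.sum_mul_sum, Finset.sum_comm, Finset.mul_sum]
        have h2 : ∀ b : G, ∑ a, ψ a * k a * (ψ b * g b) = ∑ a, ψ a * (g b * k (a - b)) := by
          intro b
          rw [← Equiv.sum_comp (Equiv.subRight b)]
          refine Finset.sum_congr rfl fun a _ => ?_
          have h3 : ψ a = ψ (a - b) * ψ b := by rw [← hψ, sub_add_cancel]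
          rw [Equiv.subRight_apply, h3]
          ring
        rw [Finset.sum_congr rfl fun b _ => h2 b, Finset.sum_comm]
        refine Finset.sum_congr rfl fun a _ => ?_
        rw [← Finset.mul_sum, hconv]
        ring
      rw [pow_succ, hkn, mul_assoc, h1, pow_succ]
      ring
  set S : ℝ := ‖∑ a, ψ a * g a‖ with hS
  have hbd : ∀ n : ℕ, S ^ (n + 1) ≤ ‖cX X‖ ^ n := by
    intro n
    obtain ⟨k, hk, hkn⟩ := key n
    have h1 : ‖∑ a, ψ a * k a‖ ≤ 1 := by
      refine IsUltrametricDist.norm_sum_le_of_forall_le_of_nonneg zero_le_one fun a _ => ?_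
      rw [norm_mul, kl5b_norm h0 hψ, one_mul]
      exact hk.le hX.le a
    calc S ^ (n + 1) = ‖(∑ a, ψ a * g a) ^ (n + 1)‖ := by rw [norm_pow]
      _ = ‖cX X‖ ^ n * ‖∑ a, ψ a * k a‖ := by rw [hkn, norm_mul, norm_pow]
      _ ≤ ‖cX X‖ ^ n * 1 := mul_le_mul_of_nonneg_left h1 (by positivity)
      _ = _ := mul_one _
  by_contra hcon
  push Not at hcon
  have hS0 : 0 < S := hc0.trans hcon
  have h1 : 1 < S / ‖cX X‖ := (one_lt_div hc0).2 hcon
  obtain ⟨n, hn⟩ := pow_unbounded_of_one_lt (1 / S) h1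
  have h2 := hbd n
  rw [div_pow, lt_div_iff₀ (by positivity), div_mul_eq_mul_div, one_mul, div_lt_iff₀ hS0] at hn
  have h3 : S ^ n * S = S ^ (n + 1) := (pow_succ _ _).symm
  linarith

end H35M
end

-- from Lib.H35M.KL6
section

/-! # H35M, chunk KL6 (M): several variables -/

namespace H35M

variable {C : Type} [NormedField C] [IsUltrametricDist C] {G : Type} [AddCommGroup G] [Fintype G] [DecidableEq G] {X : G → C}

/-- Uniform limits of integral polynomials in the coordinates X (a i). -/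
def FnM (X : G → C) (ι : Type) (H : (ι → G) → C) : Prop :=
  ∀ ε : ℝ, 0 < ε → ∃ Q : MvPolynomial ι C, (∀ m, ‖Q.coeff m‖ ≤ 1) ∧ ∀ a : ι → G, ‖H a - MvPolynomial.eval (fun i => X (a i)) Q‖ ≤ ε

omit [IsUltrametricDist C] in
theorem kl6_norm {A : Type} [AddCommGroup A] [Fintype A] {ψ : A → C} (h0 : ψ 0 = 1)
    (hψ : ∀ a b, ψ (a + b) = ψ a * ψ b) (a : A) : ‖ψ a‖ = 1 := by
  have h1 : ∀ n : ℕ, ψ (n • a) = ψ a ^ n := by
    intro n
    induction n with
    | zero => rw [zero_smul, h0, pow_zero]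
    | succ n ih => rw [succ_nsmul, hψ, ih, pow_succ]
  have h2 := h1 (Fintype.card A)
  rw [card_nsmul_eq_zero, h0] at h2
  have h3 := congrArg norm h2
  rw [norm_one, norm_pow] at h3
  exact (pow_eq_one_iff_of_nonneg (norm_nonneg _) Fintype.card_ne_zero).1 h3.symm

omit [IsUltrametricDist C] in
theorem kl6_prod {A ι : Type} [AddCommGroup A] [DecidableEq ι] {ψ : A → C} (h0 : ψ 0 = 1)
    (hψ : ∀ a b, ψ (a + b) = ψ a * ψ b) (f : ι → A) (s : Finset ι) :
    ψ (∑ i ∈ s, f i) = ∏ i ∈ s, ψ (f i) := by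
  induction s using Finset.induction_on with
  | empty => rw [Finset.sum_empty, Finset.prod_empty, h0]
  | insert a s ha ih => rw [Finset.sum_insert ha, Finset.prod_insert ha, hψ, ih]

omit [IsUltrametricDist C] in
theorem kl6_c (hX : FG X) : 0 < ‖cX X‖ := by
  rw [norm_pos_iff]
  unfold cX
  rw [Finset.prod_ne_zero_iff]
  intro b hb h0
  exact (Finset.mem_erase.1 hb).1 (hX.inj (h0.trans hX.zero.symm))

/-- Chunk KL6 (M). The same for functions of several variables. PROOF. It is enough to treat an integral polynomial Q in place of H (error ε <= ‖c‖^card, ‖ψ‖ = 1, ultrametric) and then a monomial (MvPolynomial.eval_eq'): sum over a of ψ a prod_i X (a i)^(m i); ψ a = prod_i ψ (Pi.single i (a i)), so the sum is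
the product over i of the sums over G of ψ_i(x) X(x)^(m i) (Finset.prod_univ_sum / Fintype.piFinset), each of norm at most ‖c‖ (FG.char, Fn1.pow, Fn1.coord). -/
theorem FG.char_fam (hX : FG X) {ι : Type} [Fintype ι] [DecidableEq ι] {H : (ι → G) → C} (hH : FnM X ι H) {ψ : (ι → G) → C} (h0 : ψ 0 = 1)
    (hψ : ∀ a b, ψ (a + b) = ψ a * ψ b) : ‖∑ a, ψ a * H a‖ ≤ ‖cX X‖ ^ Fintype.card ι := by
  have hc := kl6_c hX
  obtain ⟨Q, hQ, hQ'⟩ := hH _ (pow_pos hc (Fintype.card ι))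
  have e : ∑ a, ψ a * H a = ∑ a, ψ a * MvPolynomial.eval (fun i => X (a i)) Q +
      ∑ a, ψ a * (H a - MvPolynomial.eval (fun i => X (a i)) Q) := by
    rw [← Finset.sum_add_distrib]
    refine Finset.sum_congr rfl (fun a _ => ?_)
    ring
  rw [e]
  refine (IsUltrametricDist.norm_add_le_max _ _).trans (max_le ?_ ?_)
  swap
  · refine IsUltrametricDist.norm_sum_le_of_forall_le_of_nonneg (pow_pos hc _).le (fun a _ => ?_)
    rw [norm_mul, kl6_norm h0 hψ, one_mul]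
    exact hQ' a
  have e2 : ∑ a, ψ a * MvPolynomial.eval (fun i => X (a i)) Q =
      ∑ d ∈ Q.support, Q.coeff d * ∏ i, ∑ x, ψ (Pi.single i x) * X x ^ d i := by
    have h1 : ∀ a : ι → G, ψ a * MvPolynomial.eval (fun i => X (a i)) Q =
        ∑ d ∈ Q.support, Q.coeff d * ∏ i, (ψ (Pi.single i (a i)) * X (a i) ^ d i) := by
      intro a
      rw [MvPolynomial.eval_eq', Finset.mul_sum]
      refine Finset.sum_congr rfl (fun d _ => ?_)
      have h2 : ψ a = ∏ i, ψ (Pi.single i (a i)) := by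
        rw [← kl6_prod h0 hψ (fun i => Pi.single i (a i)) Finset.univ, Finset.univ_sum_single]
      rw [Finset.prod_mul_distrib, ← h2]
      ring
    rw [Finset.sum_congr rfl (fun a _ => h1 a), Finset.sum_comm]
    refine Finset.sum_congr rfl (fun d _ => ?_)
    rw [← Finset.mul_sum, Finset.prod_univ_sum, Fintype.piFinset_univ]
  rw [e2]
  refine IsUltrametricDist.norm_sum_le_of_forall_le_of_nonneg (pow_pos hc _).le (fun d _ => ?_)
  rw [norm_mul, norm_prod]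
  have h3 : ∏ i, ‖∑ x, ψ (Pi.single i x) * X x ^ d i‖ ≤ ∏ _i : ι, ‖cX X‖ := by
    refine Finset.prod_le_prod (fun i _ => norm_nonneg _) (fun i _ => ?_)
    refine hX.char (Fn1.pow hX.le Fn1.coord (d i)) (ψ := fun x => ψ (Pi.single i x)) ?_ ?_
    · rw [Pi.single_zero, h0]
    · intro a b
      rw [Pi.single_add, hψ]
  rw [Finset.prod_const, Finset.card_univ] at h3
  calc _ ≤ 1 * ‖cX X‖ ^ Fintype.card ι :=
        mul_le_mul (hQ d) h3 (Finset.prod_nonneg (fun i _ => norm_nonneg _)) zero_le_one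
    _ = _ := one_mul _

end H35M
end

-- from Lib.SSG.LP.D
section

/-! # SSG/LP: the local model at a prime element β below a place V of good reduction (definitions) -/

open NumberField IsDedekindDomain WeierstrassCurve

namespace SSG.LP

open H55P (IQ embF eF LF Per IsHecke Pt ac Inert Dec)
open H35P (WAB Ker tt)
open H55K

variable {F : Type} [Field F] [NumberField F] [IQ F]

/-- The residue ring modulo `β ^ N`. -/
abbrev RB (β : 𝓞 F) (N : ℕ) : Type := 𝓞 F ⧸ Ideal.span {β ^ N}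

/-- The points `T N` of order `β ^ N` with parameter `1 / β ^ N`, in the kernel of reduction. -/
structure PtsB (A B : F) (Om : ℂ) {Ω : Type} [Field Ω] [DecidableEq Ω] [Algebra F Ω] (j : Ω →+* ℂ)
    (act : 𝓞 F →+* AddMonoid.End (Pt (WAB A B) Ω)) (β : 𝓞 F) (V : ValuationSubring Ω)
    (T : ℕ → Pt (WAB A B) Ω) : Prop where
  zero : ∀ N (a : 𝓞 F), act a (T N) = 0 ↔ β ^ N ∣ a
  down : ∀ N, act β (T (N + 1)) = T N
  unif : ∀ N (a : 𝓞 F), ¬ β ^ N ∣ a →
    j (xc (act a (T N))) = (LF F).weierstrassP (eF F a / (eF F β) ^ N) / Om ^ 2 ∧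
    j (yc (act a (T N))) = (LF F).derivWeierstrassP (eF F a / (eF F β) ^ N) / (2 * Om ^ 3)
  ker : ∀ N (a : 𝓞 F), Ker V (act a (T N))

/-- The local model at `V`: the coordinates `X N` of the points of order `β ^ N`. -/
structure LocO (A B : F) (Om : ℂ) {Ω : Type} [Field Ω] [DecidableEq Ω] [Algebra F Ω] (j : Ω →+* ℂ)
    (act : 𝓞 F →+* AddMonoid.End (Pt (WAB A B) Ω)) (β : 𝓞 F) (V : ValuationSubring Ω) {C : Type} [NormedField C]
    (i : Ω →+* C) (T : ℕ → Pt (WAB A B) Ω) (X : ∀ N, RB β N → C) : Prop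
    extends PtsB A B Om j act β V T where
  val : ∀ x : Ω, x ∈ V ↔ ‖i x‖ ≤ 1
  Xmk : ∀ N (a : 𝓞 F), X N (Ideal.Quotient.mk _ a) = i (tt (act a (T N)))
  small : ∀ N, ∃ ρ : ℝ, ρ < 1 ∧ ∀ a, ‖X N a‖ ≤ ρ
  fg : ∀ N, H35M.FG (X N)
  prod : ∀ N [Fintype (RB β N)] [DecidableEq (RB β N)], ‖H35M.cX (X N)‖ = ‖i (ak Ω β)‖ ^ N
  fn : ∀ (N : ℕ) (ι : Type) [Fintype ι] (c : ι → 𝓞 F) (H : (ι → RB β N) → C),
    (∀ a : ι → 𝓞 F, H (fun k => Ideal.Quotient.mk _ (a k)) = i (tt (act (∑ k, c k * a k) (T N)))) →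
      H35M.FnM (X N) ι H

end SSG.LP
end
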