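import Mathlib
import Pool.Agent.Lib.H1M.PP2.D_H13Z_TR
import Pool.Agent.Lib.H1M.PP2.D_H28R_Defs
import Pool.Agent.Lib.H1M.PP2.D_H55C_Defs
import Pool.Agent.Lib.H1M.PP2.D_H55K_RD
import Pool.Agent.Lib.H1M.PP2.D_H55P_Stm
import Pool.Agent.Lib.H1M.PP2.M005
import Pool.Agent.Lib.H1M.PP2.M017
import Pool.Agent.Lib.H1M.PP2.M020
import Pool.Agent.Lib.H1M.PP2.M021
import Pool.Agent.Lib.H1M.PP2.M032
import Pool.Agent.Lib.H1M.PP2.M038
import Pool.Agent.Lib.H1M.PP2.M040
import Pool.Agent.Lib.H1M.PP2.M046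
import Pool.Agent.Lib.H1M.PP2.M047
import Pool.Agent.Lib.H1M.PP2.M049
import Pool.Agent.Lib.H1M.PP2.M051
import Pool.Agent.Lib.H1M.PP2.M052
import Pool.Agent.Lib.H1M.PP2.M054
import Pool.Agent.Lib.H1M.PP2.M058
import Pool.Agent.Lib.H1M.PP2.M073
import Pool.Agent.Lib.H1M.PP2.M074

/-! Merged copies (to shorten the build) of Lib.H13D.E5, Lib.H13D.P3, Lib.H28I.G0, Lib.H13D.K1, Lib.H13D.K2, Lib.H55K.FC1, Lib.H28T.CC1B, Lib.SSG.S.K1, Lib.H13Z.TR_T, Lib.H28T.WSt, Lib.H55N.WR1, Lib.H28R.W20, Lib.H28R.W9, Lib.SSG.S.S2. -/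

-- from Lib.H13D.E5
section

/-! # H13D, part E: the values of Yel and Zel at the good primes -/

open NumberField IsDedekindDomain WeierstrassCurve

namespace H13D

open H55P (IQ embF eF LF Per IsHecke Pt ac Inert Dec Nm)
open H35P (WAB Ker tt GoodW IntW)
open H55K
open H55K.MG (VC Crd)

variable {F : Type} [Field F] [NumberField F] [IQ F] {A B : F} {Ω : Type} [Field Ω] [DecidableEq Ω] [Algebra F Ω] {V : ValuationSubring Ω}

omit [NumberField F] [IQ F] in
theorem e5_neg (W₀ : WeierstrassCurve (𝓞 F)) {Q : Pt (W₀⁄F) Ω} (hQ : Q ≠ 0) : xc (-Q) = xc Q ∧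
    yc (-Q) = -yc Q - ak Ω W₀.a₁ * xc Q - ak Ω W₀.a₃ := by
  rcases Q with _ | ⟨x, y, hn⟩
  · exact absurd rfl hQ
  · exact ⟨rfl, rfl⟩

omit [NumberField F] [IQ F] in
theorem e5_eq (W₀ : WeierstrassCurve (𝓞 F)) {X : Pt (W₀⁄F) Ω} (hX : X ≠ 0) :
    yc X ^ 2 + ak Ω W₀.a₁ * xc X * yc X + ak Ω W₀.a₃ * yc X =
      xc X ^ 3 + ak Ω W₀.a₂ * xc X ^ 2 + ak Ω W₀.a₄ * xc X + ak Ω W₀.a₆ := by
  rcases X with _ | ⟨x, y, hn⟩
  · exact absurd rfl hX
  · exact (Affine.equation_iff _ _).1 hn.1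

omit [IQ F] in
theorem e5_two (W₀ : WeierstrassCurve (𝓞 F)) {Θ : Pt (WAB A B) Ω ≃+ Pt (W₀⁄F) Ω}
    (hc : Crd 1 (algebraMap F Ω (algebraMap (𝓞 F) F W₀.b₂ / 12)) (algebraMap F Ω (algebraMap (𝓞 F) F W₀.a₁ / 2))
        (algebraMap F Ω (algebraMap (𝓞 F) F W₀.a₃ / 2)) Θ) {P : Pt (WAB A B) Ω} (h0 : P ≠ 0) :
    2 * yc P = 2 * yc (Θ P) + ak Ω W₀.a₁ * xc (Θ P) + ak Ω W₀.a₃ := by
  have h1 := (hc P h0).2.2
  have h2 : (2 : Ω) * algebraMap F Ω (algebraMap (𝓞 F) F W₀.a₁ / 2) = ak Ω W₀.a₁ := by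
    have : (2 : Ω) = algebraMap F Ω 2 := (map_ofNat _ 2).symm
    rw [this, ← map_mul, mul_div_cancel₀ _ two_ne_zero]
  have h3 : (2 : Ω) * algebraMap F Ω (algebraMap (𝓞 F) F W₀.a₃ / 2) = ak Ω W₀.a₃ := by
    have : (2 : Ω) = algebraMap F Ω 2 := (map_ofNat _ 2).symm
    rw [this, ← map_mul, mul_div_cancel₀ _ two_ne_zero]
  rw [h1, ← h2, ← h3]
  ring

/-- Chunk E5 (S). yc P = y' + (a₁/2) x' + a₃/2 with (x', y') = Θ P (Crd; u = 1), Θ (-P) = -Θ P has the y-coordinate -y' - a₁ x' - a₃ (Affine.Point.neg_some, negY), so 2 yc P = y' - yc (-(Θ P)). -/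
theorem two_y (W₀ : WeierstrassCurve (𝓞 F)) {Θ : Pt (WAB A B) Ω ≃+ Pt (W₀⁄F) Ω}
    (hc : Crd 1 (algebraMap F Ω (algebraMap (𝓞 F) F W₀.b₂ / 12)) (algebraMap F Ω (algebraMap (𝓞 F) F W₀.a₁ / 2))
        (algebraMap F Ω (algebraMap (𝓞 F) F W₀.a₃ / 2)) Θ) {P : Pt (WAB A B) Ω} (h0 : P ≠ 0) :
    2 * yc P = yc (Θ P) - yc (-Θ P) := by
  rw [e5_two W₀ hc h0, (e5_neg W₀ (hc P h0).1).2]
  ring

/-- Chunk E5 (S/M). two_y; Θ P, -Θ P are integral (MG.int_crd, not in Ker), so the value is ≤ 1; if it were < 1 then Ker V (Θ P - (-Θ P)) by MG.cong_ker (equal x-coordinates), i.e. P + P in Kg. -/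
theorem val_two_y (W₀ : WeierstrassCurve (𝓞 F)) (hG : GoodW ((W₀⁄F)⁄Ω) V) {Θ : Pt (WAB A B) Ω ≃+ Pt (W₀⁄F) Ω}
    (hc : Crd 1 (algebraMap F Ω (algebraMap (𝓞 F) F W₀.b₂ / 12)) (algebraMap F Ω (algebraMap (𝓞 F) F W₀.a₁ / 2))
        (algebraMap F Ω (algebraMap (𝓞 F) F W₀.a₃ / 2)) Θ) {Kg : AddSubgroup (Pt (WAB A B) Ω)} (hK : ∀ P, P ∈ Kg ↔ Ker V (Θ P))
    {P : Pt (WAB A B) Ω} (hP : P ∉ Kg) (h2 : P + P ∉ Kg) : V.valuation (2 * yc P) = 1 := by
  have h0 : P ≠ 0 := by
    rintro rfl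
    exact hP Kg.zero_mem
  have hΘ : ¬ Ker V (Θ P) := fun h => hP ((hK P).2 h)
  have hΘ' : ¬ Ker V (-Θ P) := fun h => hΘ ((H35P.ker_neg _).1 h)
  obtain ⟨-, -, hy⟩ := MG.int_crd hG hΘ
  obtain ⟨-, -, hy'⟩ := MG.int_crd hG hΘ'
  rw [two_y W₀ hc h0]
  refine le_antisymm ((V.valuation_le_one_iff _).2 (sub_mem hy hy')) (not_lt.1 fun hlt => ?_)
  have h3 := MG.cong_ker hG hΘ hΘ' (by
    rw [(e5_neg W₀ (hc P h0).1).1, sub_self, map_zero]
    exact zero_lt_one) hlt
  apply h2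
  rw [hK, map_add]
  rwa [sub_neg_eq_add] at h3

/-- Chunk E5 (S). (2 y)^2 = (2y' + a₁ x' + a₃)^2 = 4x'^3 + b₂ x'^2 + 2 b₄ x' + b₆ = (a₁ x' + a₃)^2 + 4 (x'^3 + a₂ x'^2 + a₄ x' + a₆), x' = xc P - b₂/12 (Crd), from the equation of W₀ at Θ P. -/
theorem sq_two_y (W₀ : WeierstrassCurve (𝓞 F)) {Θ : Pt (WAB A B) Ω ≃+ Pt (W₀⁄F) Ω}
    (hc : Crd 1 (algebraMap F Ω (algebraMap (𝓞 F) F W₀.b₂ / 12)) (algebraMap F Ω (algebraMap (𝓞 F) F W₀.a₁ / 2))
        (algebraMap F Ω (algebraMap (𝓞 F) F W₀.a₃ / 2)) Θ) {P : Pt (WAB A B) Ω} (h0 : P ≠ 0) :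
    (2 * yc P) ^ 2 = (ak Ω W₀.a₁ * (xc P - algebraMap F Ω (algebraMap (𝓞 F) F W₀.b₂ / 12)) + ak Ω W₀.a₃) ^ 2 +
      4 * (xc (Θ P) ^ 3 + ak Ω W₀.a₂ * xc (Θ P) ^ 2 + ak Ω W₀.a₄ * xc (Θ P) + ak Ω W₀.a₆) := by
  have hx : xc P - algebraMap F Ω (algebraMap (𝓞 F) F W₀.b₂ / 12) = xc (Θ P) := by
    rw [(hc P h0).2.1]
    ring
  have he := e5_eq W₀ (hc P h0).1
  rw [hx, e5_two W₀ hc h0]
  linear_combination 4 * he

end H13D
end

-- from Lib.H13D.P3
section

/-! # H13D, part P: the quadratic symbol modulo δ -/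

open NumberField IsDedekindDomain WeierstrassCurve

namespace H13D

open H55P (IQ embF eF LF Per IsHecke Pt ac Inert Dec Nm)
open H35P (WAB Ker tt GoodW IntW)
open H55K

variable {F : Type} [Field F] [NumberField F] [IQ F] {δ : 𝓞 F} {D : ℕ}

/-- Chunk P3 (S/M). The chosen integer n' is congruent to n modulo D (del_dvd_int): jacobiSym.mod_left. -/
theorem lam_eq (hd : Del F δ D) {x : 𝓞 F} {n : ℤ} (h : δ ∣ x - n) : lam δ D x = jacobiSym n D := by
  have hex : ∃ n : ℤ, δ ∣ x - n := ⟨n, h⟩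
  unfold lam
  rw [dif_pos hex]
  have h1 := hex.choose_spec
  have h2 : δ ∣ ((n - hex.choose : ℤ) : 𝓞 F) := by
    have h3 := dvd_sub h1 h
    push_cast
    have e : (n : 𝓞 F) - (hex.choose : 𝓞 F) = x - (hex.choose : 𝓞 F) - (x - n) := by ring
    rw [e]
    exact h3
  rw [del_dvd_int hd] at h2
  rw [jacobiSym.mod_left hex.choose, jacobiSym.mod_left n]
  congr 1
  exact (Int.emod_eq_emod_iff_emod_sub_eq_zero.2 (Int.emod_eq_zero_of_dvd h2)).symm

/-- Chunk P3 (S). lam_eq, ex_int, jacobiSym.mul_left: x is congruent to n, y to k, x y to n k. -/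
theorem lam_mul (hd : Del F δ D) (x y : 𝓞 F) : lam δ D (x * y) = lam δ D x * lam δ D y := by
  obtain ⟨n, hn⟩ := ex_int hd x
  obtain ⟨k, hk⟩ := ex_int hd y
  have h1 : δ ∣ x * y - ((n * k : ℤ) : 𝓞 F) := by
    push_cast
    have e : x * y - (n : 𝓞 F) * k = (x - n) * y + n * (y - k) := by ring
    rw [e]
    exact dvd_add (hn.mul_right y) (hk.mul_left _)
  rw [lam_eq hd h1, lam_eq hd hn, lam_eq hd hk, jacobiSym.mul_left]


/-- Chunk P3 (S/M). jacobiSym (-1) D = -1 because D % 4 = 3 (jacobiSym.at_neg_one, ZMod.χ₄_nat_three_mod_four); jacobiSym.mul_left / jacobiSym.neg. -/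
theorem lam_neg (hd : Del F δ D) (x : 𝓞 F) : lam δ D (-x) = -lam δ D x := by
  obtain ⟨n, hn⟩ := ex_int hd x
  have h1 : δ ∣ -x - ((-n : ℤ) : 𝓞 F) := by
    push_cast
    have e : -x - -(n : 𝓞 F) = -(x - n) := by ring
    rw [e]
    exact (dvd_neg).2 hn
  have hodd : Odd D := by
    have := hd.mod
    exact Nat.odd_iff.2 (by omega)
  rw [lam_eq hd h1, lam_eq hd hn, jacobiSym.neg n hodd, ZMod.χ₄_nat_three_mod_four hd.mod, neg_one_mul]

/-- Chunk P3 (S). -/
theorem lam_congr (hd : Del F δ D) {x y : 𝓞 F} (h : δ ∣ x - y) : lam δ D x = lam δ D y := by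
  obtain ⟨n, hn⟩ := ex_int hd x
  have h1 : δ ∣ y - (n : 𝓞 F) := by
    have e : y - (n : 𝓞 F) = (x - n) - (x - y) := by ring
    rw [e]
    exact dvd_sub hn h
  rw [lam_eq hd h1, lam_eq hd hn]

/-- Chunk P3 (S). x is congruent to n, D does not divide n (del_dvd_int), so n and D are coprime: jacobiSym.eq_one_or_neg_one. -/
theorem lam_pm (hd : Del F δ D) {x : 𝓞 F} (h : ¬ δ ∣ x) : lam δ D x = 1 ∨ lam δ D x = -1 := by
  obtain ⟨n, hn⟩ := ex_int hd x
  have h1 : ¬ (D : ℤ) ∣ n := by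
    intro h2
    apply h
    have h3 := (del_dvd_int hd n).2 h2
    have e : x = (x - n) + n := by ring
    rw [e]
    exact dvd_add hn h3
  rw [lam_eq hd hn]
  apply jacobiSym.eq_one_or_neg_one
  have h2 : IsCoprime (D : ℤ) n := (Nat.prime_iff_prime_int.1 hd.prime).irreducible.coprime_iff_not_dvd.2 h1
  rw [Int.gcd_comm]
  exact Int.isCoprime_iff_gcd_eq_one.1 h2

end H13D
end

-- from Lib.H28I.G0
section

/-! # H28I, part G: points of order q -/

open NumberField IsDedekindDomain WeierstrassCurve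

namespace H28I

open H55P (IQ embF eF LF Per IsHecke Pt ac Inert Dec Nm)
open H35P (WAB Ker tt GoodW IntW)
open H55K (xc yc)

theorem g0_delta {k : Type} [Field k] (A B : k) : (WAB A B).Δ = -16 * (4 * A ^ 3 + 27 * B ^ 2) := by
  simp only [WAB, WeierstrassCurve.Δ, WeierstrassCurve.b₂, WeierstrassCurve.b₄, WeierstrassCurve.b₆, WeierstrassCurve.b₈]
  ring

/-- Chunk G0 (M). W = WAB A B is a short equation with a₄ = A, a₆ = B (instances IsShortNF, IsElliptic: the discriminant is -16 (4 A^3 + 27 B^2)). W.ΨSq q has degree q^2 - 1 > 0 (WeierstrassCurve.natDegree_ΨSq, (q : Ω) ≠ 0), so it has a root x (IsAlgClosed.exists_root). y with y^2 = x^3 + A x + B (IsAlgClosed.exists_pow_nat_eq), T = some x y (nonsingular).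
H16C.psi_sq (H16C/D0.lean): psi^2 = ΨSq(x) = 0, H16C.smul_eq_zero_of_psi (D6.lean): q • T = 0. (xc, yc of H16C are the coordinates as here; use cases or rfl.) -/
theorem exists_tors {Ω : Type} [Field Ω] [DecidableEq Ω] [IsAlgClosed Ω] [CharZero Ω] {A B : Ω} (hd : 4 * A ^ 3 + 27 * B ^ 2 ≠ 0)
    {q : ℕ} (hq : 1 < q) : ∃ T : (WAB A B).toAffine.Point, T ≠ 0 ∧ q • T = 0 := by
  have hs : (WAB A B).toAffine.IsShortNF := ⟨rfl, rfl, rfl⟩
  have hD : (WAB A B).Δ ≠ 0 := by
    rw [g0_delta]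
    exact mul_ne_zero (by norm_num) hd
  have hE : (WAB A B).toAffine.IsElliptic := ⟨isUnit_iff_ne_zero.2 hD⟩
  have hq0 : ((q : ℤ) : Ω) ≠ 0 := by
    have : (q : Ω) ≠ 0 := Nat.cast_ne_zero.2 (by omega)
    simpa using this
  have hdeg : 0 < ((WAB A B).ΨSq (q : ℤ)).natDegree := (WAB A B).natDegree_ΨSq_pos (by simpa using hq) hq0
  have hdeg' : ((WAB A B).ΨSq (q : ℤ)).degree ≠ 0 := by
    intro h0
    have := Polynomial.natDegree_eq_of_degree_eq_some (n := 0) h0
    omega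
  obtain ⟨x, hx⟩ := IsAlgClosed.exists_root _ hdeg'
  obtain ⟨y, hy⟩ := IsAlgClosed.exists_pow_nat_eq (x ^ 3 + A * x + B) (n := 2) (by norm_num)
  have heq : (WAB A B).toAffine.Equation x y := by
    rw [Affine.equation_iff]
    simp only [WAB]
    linear_combination hy
  have hns : (WAB A B).toAffine.Nonsingular x y := (Affine.equation_iff_nonsingular_of_Δ_ne_zero hD).1 heq
  refine ⟨Affine.Point.some x y hns, Affine.Point.some_ne_zero _, ?_⟩
  refine H16C.smul_eq_zero_of_psi (Affine.Point.some_ne_zero _) q (by omega) ?_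
  have h1 := H16C.psi_sq (WAB A B).toAffine (x := x) (y := y) (by
    show y ^ 2 = x ^ 3 + A * x + B
    exact hy) (q : ℤ)
  have h2 : ((WAB A B).ΨSq (q : ℤ)).eval x = 0 := hx
  have h3 : H16C.psi (WAB A B).toAffine x y (q : ℤ) ^ 2 = 0 := h1.trans h2
  exact pow_eq_zero_iff (two_ne_zero) |>.1 h3

/-- Chunk G0 (S). W is isomorphic over Ω to the short equation: H55K.TQ.vc_short is for curves over the integers of a number field; here directly: VC (WAB A B) W 1 (b₂/12) (a₁/2) (a₃/2) with A = -c₄/48, B = -c₆/864 (see the proof of vc_short in H55K/T9A.lean), H55K.MG.vc_iso. -/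
theorem exists_tors' {Ω : Type} [Field Ω] [DecidableEq Ω] [IsAlgClosed Ω] [CharZero Ω] {E : WeierstrassCurve Ω} (hd : E.Δ ≠ 0)
    {q : ℕ} (hq : 1 < q) : ∃ T : E.toAffine.Point, T ≠ 0 ∧ q • T = 0 := by
  obtain ⟨A, hA⟩ : ∃ A : Ω, A = -E.c₄ / 48 := ⟨_, rfl⟩
  obtain ⟨B, hB⟩ : ∃ B : Ω, B = -E.c₆ / 864 := ⟨_, rfl⟩
  have hcr := E.c_relation
  have hd0 : 4 * A ^ 3 + 27 * B ^ 2 ≠ 0 := by
    have h1 : 4 * A ^ 3 + 27 * B ^ 2 = -E.Δ / 16 := by
      rw [hA, hB]
      linear_combination (1 / 27648 : Ω) * hcr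
    rw [h1]
    exact div_ne_zero (neg_ne_zero.2 hd) (by norm_num)
  have hD : (WAB A B).Δ ≠ 0 := by
    rw [g0_delta]
    exact mul_ne_zero (by norm_num) hd0
  have hVC : H55K.MG.VC (WAB A B) E 1 ((E.a₂ + (E.a₁ / 2) ^ 2) / 3) (E.a₁ / 2) (E.a₃ / 2) := by
    refine ⟨one_ne_zero, ?_, ?_, ?_, ?_, ?_⟩
    · show 1 * E.a₁ = 0 + 2 * (E.a₁ / 2)
      ring
    · show 1 ^ 2 * E.a₂ = 0 - E.a₁ / 2 * 0 + 3 * ((E.a₂ + (E.a₁ / 2) ^ 2) / 3) - (E.a₁ / 2) ^ 2
      ring
    · show 1 ^ 3 * E.a₃ = 0 + (E.a₂ + (E.a₁ / 2) ^ 2) / 3 * 0 + 2 * (E.a₃ / 2)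
      ring
    · show 1 ^ 4 * E.a₄ = A - E.a₁ / 2 * 0 + 2 * ((E.a₂ + (E.a₁ / 2) ^ 2) / 3) * 0 -
        (E.a₃ / 2 + (E.a₂ + (E.a₁ / 2) ^ 2) / 3 * (E.a₁ / 2)) * 0 +
        3 * ((E.a₂ + (E.a₁ / 2) ^ 2) / 3) ^ 2 - 2 * (E.a₁ / 2) * (E.a₃ / 2)
      rw [hA]
      unfold WeierstrassCurve.c₄ WeierstrassCurve.b₂ WeierstrassCurve.b₄
      ring
    · show 1 ^ 6 * E.a₆ = B + (E.a₂ + (E.a₁ / 2) ^ 2) / 3 * A +
        ((E.a₂ + (E.a₁ / 2) ^ 2) / 3) ^ 2 * 0 + ((E.a₂ + (E.a₁ / 2) ^ 2) / 3) ^ 3 - E.a₃ / 2 * 0 -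
        (E.a₃ / 2) ^ 2 - (E.a₂ + (E.a₁ / 2) ^ 2) / 3 * (E.a₃ / 2) * 0
      rw [hA, hB]
      unfold WeierstrassCurve.c₄ WeierstrassCurve.c₆ WeierstrassCurve.b₂ WeierstrassCurve.b₄
        WeierstrassCurve.b₆
      ring
  obtain ⟨Θ, -⟩ := H55K.MG.vc_iso hVC hD hd
  obtain ⟨T, hT, hqT⟩ := exists_tors hd0 hq
  refine ⟨Θ T, ?_, ?_⟩
  · intro h0
    apply hT
    apply Θ.injective
    rw [h0, map_zero]
  · rw [← map_nsmul, hqT, map_zero]

end H28I
end

-- from Lib.H13D.K1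
section

/-! # H13D, part K: the Kronecker symbol -/

namespace H13D

theorem k1_dvd {d : ℤ} {N : ℕ} (hd : Squarefree d) (hdN : ∀ p : ℕ, p.Prime → (p : ℤ) ∣ d → p ∣ N) (hN : N ≠ 0) : d.natAbs ∣ N := by
  have h1 : Squarefree d.natAbs := Int.squarefree_natAbs.2 hd
  rw [← Nat.prod_primeFactors_of_squarefree h1]
  refine dvd_trans (Finset.prod_dvd_prod_of_subset _ _ _ fun p hp => ?_) (Nat.prod_primeFactors_dvd N)
  have h2 := Nat.prime_of_mem_primeFactors hp
  have h3 := Nat.dvd_of_mem_primeFactors hp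
  exact Nat.mem_primeFactors.2 ⟨h2, hdN p h2 (Int.natCast_dvd.2 h3), hN⟩

theorem k1_cop {d : ℤ} {N : ℕ} (hdN : ∀ p : ℕ, p.Prime → (p : ℤ) ∣ d → p ∣ N) {a : ℕ} (ha : a.Coprime N) : Nat.Coprime d.natAbs a := by
  rw [Nat.coprime_iff_isRelPrime]
  by_contra h
  have h1 : ¬ Nat.Coprime d.natAbs a := fun h2 => h (Nat.coprime_iff_isRelPrime.1 h2)
  obtain ⟨p, hp, h3, h4⟩ := Nat.Prime.not_coprime_iff_dvd.1 h1
  have h5 := hdN p hp (Int.natCast_dvd.2 h3)
  exact Nat.Prime.not_coprime_iff_dvd.2 ⟨p, hp, h4, h5⟩ ha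

/-- Chunk K1 (M). The case of even N: χ a = jacobiSym d a. one: jacobiSym.one_right. mul: jacobiSym.mul_right. pm: a is odd and prime to d (the primes dividing d divide N): jacobiSym.eq_one_or_neg_one. odd: by definition. two: 2 divides N, nothing to prove. per: jacobiSym.mod_right: for odd b jacobiSym d b = jacobiSym d (b % (4 * d.natAbs)); 4 d.natAbs divides N^3: d is squarefree
with all prime divisors dividing N, so d.natAbs divides N (Nat: squarefree and radical, e.g. Squarefree.dvd_of.. or UniqueFactorizationMonoid), and 4 divides N^2 (2 divides N). -/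
theorem kron_even {d : ℤ} {N : ℕ} (hd : Squarefree d) (hdN : ∀ p : ℕ, p.Prime → (p : ℤ) ∣ d → p ∣ N) (h2 : 2 ∣ N) (hN : N ≠ 0) :
    ∃ χ : ℕ → ℤ, Kron d N χ := by
  have hne : ∀ a : ℕ, a.Coprime N → a ≠ 0 := by
    rintro a ha rfl
    rw [Nat.coprime_zero_left] at ha
    rw [ha] at h2
    norm_num at h2
  have hodd : ∀ a : ℕ, a.Coprime N → Odd a := by
    intro a ha
    rw [← Nat.not_even_iff_odd]
    intro h
    have h3 := Nat.dvd_gcd h.two_dvd h2
    rw [ha] at h3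
    norm_num at h3
  refine ⟨fun a => jacobiSym d a, ?_⟩
  constructor
  · exact jacobiSym.one_right d
  · intro a b ha hb
    exact jacobiSym.mul_right' d (hne a ha) (hne b hb)
  · intro a ha
    exact jacobiSym.eq_one_or_neg_one (k1_cop hdN ha)
  · intro p _ _ _
    rfl
  · intro h
    exact absurd h2 h
  · intro a b ha hb hab
    show jacobiSym d a = jacobiSym d b
    rw [jacobiSym.mod_right d (hodd a ha), jacobiSym.mod_right d (hodd b hb)]
    have h3 : 4 * d.natAbs ∣ N ^ 3 := by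
      have h4 : 4 ∣ N ^ 2 := by
        have h5 := pow_dvd_pow_of_dvd h2 2
        norm_num at h5
        exact h5
      have h6 : N ^ 3 = N ^ 2 * N := by ring
      rw [h6]
      exact mul_dvd_mul h4 (k1_dvd hd hdN hN)
    have h7 : a ≡ b [MOD 4 * d.natAbs] := hab.of_dvd h3
    have h8 : a % (4 * d.natAbs) = b % (4 * d.natAbs) := h7
    rw [h8]

theorem k1_rec {d : ℤ} (h4 : d % 4 = 1) {p : ℕ} (hp : Odd p) : jacobiSym (p : ℤ) d.natAbs = jacobiSym d p := by
  rcases le_or_gt 0 d with h0 | h0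
  · obtain ⟨m, rfl⟩ := Int.eq_ofNat_of_zero_le h0
    rw [Int.natAbs_natCast]
    have h1 : m % 4 = 1 := by omega
    exact (jacobiSym.quadratic_reciprocity_one_mod_four h1 hp).symm
  · obtain ⟨m, hm⟩ := Int.eq_ofNat_of_zero_le (show 0 ≤ -d by omega)
    have h1 : d = -(m : ℤ) := by omega
    subst h1
    rw [Int.natAbs_neg, Int.natAbs_natCast]
    have h2 : m % 4 = 3 := by omega
    have h3 : Odd m := Nat.odd_iff.2 (by omega)
    rw [jacobiSym.neg _ hp]
    have h5 : p % 2 = 1 := Nat.odd_iff.1 hp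
    have h6 : p % 4 = 1 ∨ p % 4 = 3 := by omega
    rcases h6 with h6 | h6
    · rw [ZMod.χ₄_nat_one_mod_four h6, one_mul]
      exact jacobiSym.quadratic_reciprocity_one_mod_four h6 h3
    · rw [ZMod.χ₄_nat_three_mod_four h6, jacobiSym.quadratic_reciprocity_three_mod_four h2 h6]
      ring

/-- Chunk K1 (M). The case of odd N: d % 4 = 1. χ a = jacobiSym a d.natAbs. one, mul: jacobiSym.one_left, mul_left. pm: a prime to N is prime to d.natAbs (its primes divide N). odd: quadratic reciprocity: p odd, d = 1 modulo 4: if d > 0: jacobiSym.quadratic_reciprocity' style: jacobiSym d p = jacobiSym p d.natAbs (jacobiSym.quadratic_reciprocity_one_mod_four);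
if d < 0: d = -d.natAbs, d.natAbs = 3 modulo 4: jacobiSym d p = jacobiSym (-1) p * jacobiSym d.natAbs p (jacobiSym.at_neg_one) and quadratic_reciprocity: the signs cancel (p = 1 modulo 4: quadratic_reciprocity_one_mod_four; p = 3 modulo 4: quadratic_reciprocity_three_mod_four and jacobiSym (-1) p = -1). two: jacobiSym.at_two: jacobiSym 2 d.natAbs = ZMod.χ₈ d.natAbs is 1 iff
d.natAbs % 8 is 1 or 7 (d.natAbs odd); with d % 4 = 1: iff d % 8 = 1 (d > 0: natAbs = d; d < 0: natAbs = -d). per: d.natAbs divides N (squarefree, as in kron_even) hence N^3: a % d.natAbs = b % d.natAbs, jacobiSym.mod_left. -/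
theorem kron_odd {d : ℤ} {N : ℕ} (hd : Squarefree d) (hdN : ∀ p : ℕ, p.Prime → (p : ℤ) ∣ d → p ∣ N) (h2 : ¬ 2 ∣ N) (h4 : d % 4 = 1) :
    ∃ χ : ℕ → ℤ, Kron d N χ := by
  have hN : N ≠ 0 := by
    rintro rfl
    exact h2 (dvd_zero 2)
  have hdd := k1_dvd hd hdN hN
  have hno : d.natAbs % 2 = 1 := by omega
  refine ⟨fun a => jacobiSym (a : ℤ) d.natAbs, ?_⟩
  constructor
  · show jacobiSym ((1 : ℕ) : ℤ) d.natAbs = 1
    rw [Nat.cast_one]
    exact jacobiSym.one_left _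
  · intro a b _ _
    show jacobiSym ((a * b : ℕ) : ℤ) d.natAbs = jacobiSym (a : ℤ) d.natAbs * jacobiSym (b : ℤ) d.natAbs
    rw [Nat.cast_mul]
    exact jacobiSym.mul_left _ _ _
  · intro a ha
    apply jacobiSym.eq_one_or_neg_one
    have h3 := k1_cop hdN ha
    have h5 : Nat.gcd (a : ℤ).natAbs d.natAbs = 1 := by
      rw [Int.natAbs_natCast, Nat.gcd_comm]
      exact h3
    exact h5
  · intro p hp hpN hp2
    exact k1_rec h4 (hp.odd_of_ne_two hp2)
  · intro _
    show jacobiSym ((2 : ℕ) : ℤ) d.natAbs = 1 ↔ d % 8 = 1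
    have h3 : ((2 : ℕ) : ℤ) = 2 := rfl
    rw [h3, jacobiSym.at_two (Nat.odd_iff.2 hno), ZMod.χ₈_nat_eq_if_mod_eight]
    rw [if_neg (by omega)]
    by_cases h5 : d.natAbs % 8 = 1 ∨ d.natAbs % 8 = 7
    · rw [if_pos h5]
      constructor
      · intro _
        omega
      · intro _
        rfl
    · rw [if_neg h5]
      constructor
      · intro h6
        norm_num at h6
      · intro h6
        exfalso
        omega
  · intro a b _ _ hab
    show jacobiSym (a : ℤ) d.natAbs = jacobiSym (b : ℤ) d.natAbs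
    apply jacobiSym.mod_left'
    have h3 : a ≡ b [MOD d.natAbs] := hab.of_dvd (dvd_trans hdd (dvd_pow_self N (by norm_num)))
    have h5 : a % d.natAbs = b % d.natAbs := h3
    exact_mod_cast h5

end H13D
end

-- from Lib.H13D.K2
section

/-! # H13D, part K: the Kronecker symbol and the Frobenius elements -/

namespace H13D

/-- Chunk K2 (S). hχ.mul, hχ.one: induction. -/
theorem kron_pow {d : ℤ} {N : ℕ} {χ : ℕ → ℤ} (hχ : Kron d N χ) {a : ℕ} (ha : a.Coprime N) (n : ℕ) : χ (a ^ n) = χ a ^ n := by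
  induction n with
  | zero => rw [pow_zero, pow_zero, hχ.one]
  | succ n ih => rw [pow_succ, pow_succ, hχ.mul _ _ (ha.pow_left n) ha, ih]

/-- Chunk K2 (S/M). p does not divide N (prime), so p is coprime to N; χ (p^n) = χ(p)^n. p odd: frob_odd and hχ.odd (p does not divide d: hdN). p = 2: d % 4 = 1 (h4), hχ.two, hχ.pm: χ 2 = 1 iff d % 8 = 1, otherwise -1; frob_two: n even: η = 1 = χ(2)^n; n odd: χ(2)^n = χ(2). (2 : Ω) ≠ 0 by CharZero. -/
theorem frob_kron {Ω : Type} [Field Ω] [CharZero Ω] (V : ValuationSubring Ω) {p : ℕ} (hp : p.Prime) (hpV : V.valuation (p : Ω) < 1)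
    {d : ℤ} {N : ℕ} {χ : ℕ → ℤ} (hχ : Kron d N χ) (hdN : ∀ p : ℕ, p.Prime → (p : ℤ) ∣ d → p ∣ N) (h4 : ¬ 2 ∣ N → d % 4 = 1)
    (hpN : ¬ p ∣ N) {w : Ω} (hw : w ^ 2 = (d : Ω)) (s : Ω →+* Ω) {n : ℕ} (hs : ∀ x ∈ V, V.valuation (s x - x ^ p ^ n) < 1) {η : ℤ}
    (hη : η = 1 ∨ η = -1) (hsw : s w = η * w) : η = χ (p ^ n) := by
  have hc : p.Coprime N := (Nat.Prime.coprime_iff_not_dvd hp).2 hpN
  rw [kron_pow hχ hc]
  by_cases h2 : p = 2
  · subst h2
    have h5 := h4 hpN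
    have h6 : V.valuation (2 : Ω) < 1 := by
      have h7 := hpV
      rwa [Nat.cast_ofNat] at h7
    obtain ⟨h7, h8⟩ := frob_two V two_ne_zero h6 h5 hw s hs hη hsw
    have h9 := hχ.two hpN
    have h10 := hχ.pm 2 hc
    rcases Nat.even_or_odd n with hn | hn
    · rw [h7 hn]
      rcases h10 with h10 | h10 <;> rw [h10]
      · rw [one_pow]
      · rw [hn.neg_one_pow]
    · rcases h10 with h10 | h10
      · rw [h10, one_pow]
        exact (h8 hn).2 (h9.1 h10)
      · rw [h10, hn.neg_one_pow]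
        rcases hη with hη | hη
        · exfalso
          have h11 := h9.2 ((h8 hn).1 hη)
          rw [h10] at h11
          norm_num at h11
        · exact hη
  · have h5 : ¬ (p : ℤ) ∣ d := fun h => hpN (hdN p hp h)
    rw [hχ.odd p hp hpN h2]
    exact frob_odd V hp h2 hpV h5 hw s hs hη hsw

end H13D
end

-- from Lib.H55K.FC1
section

/-! # H55K: complex numbers which are integral above a prime -/

open NumberField IsDedekindDomain WeierstrassCurve

namespace H55K.TQ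

open H55P (IQ embF eF LF Per IsHecke Pt ac Inert Dec Nm UnitP)
open H35P (WAB Ker tt GoodW IntW)
open H55K.MG (VC Crd)

/-- Chunk FC1 (M). Suppose x ≠ 0. In the subring A = Algebra.adjoin ℤ {x⁻¹} of ℂ the ideal (p, x⁻¹) is everything: otherwise Ideal.image_subset_nonunits_valuationSubring gives V containing A with V(p) < 1 and V(x⁻¹) < 1, so V(x) > 1 (see H55P.exists_above_p in Z6.lean). So 1 = p a(x⁻¹) + x⁻¹ b(x⁻¹) with a, b in ℤ[X]
(Algebra.adjoin_singleton_eq_range_aeval): the polynomial p a + X b - 1 is not zero (its value at 0 is p a(0) - 1, p ≥ 2) and x⁻¹ is a root: x⁻¹ is algebraic, so x is. -/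
theorem alg_of_int {p : ℕ} (hp : p.Prime) {x : ℂ} (h : ∀ V : ValuationSubring ℂ, V.valuation (p : ℂ) < 1 → x ∈ V) : IsAlgebraic ℤ x := by
  by_cases hx : x = 0
  · rw [hx]
    exact isAlgebraic_zero
  let φ : Polynomial ℤ →+* ℂ := (Polynomial.aeval (R := ℤ) x⁻¹).toRingHom
  have hφC : φ (Polynomial.C (p : ℤ)) = (p : ℂ) := by
    show Polynomial.aeval x⁻¹ (Polynomial.C (p : ℤ)) = (p : ℂ)
    rw [Polynomial.aeval_C]
    simp
  have hφX : φ Polynomial.X = x⁻¹ := Polynomial.aeval_X x⁻¹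
  let A : Subring ℂ := φ.range
  let tp : A := ⟨p, ⟨Polynomial.C (p : ℤ), hφC⟩⟩
  let tx : A := ⟨x⁻¹, ⟨Polynomial.X, hφX⟩⟩
  by_cases hI : Ideal.span {tp, tx} = ⊤
  · have h1 : (1 : A) ∈ Ideal.span {tp, tx} := by rw [hI]; trivial
    rw [Ideal.mem_span_pair] at h1
    obtain ⟨⟨a, ⟨P, hP⟩⟩, ⟨b, ⟨Q, hQ⟩⟩, hab⟩ := h1
    have h2 : a * (p : ℂ) + b * x⁻¹ = 1 := congrArg Subtype.val hab
    have h3 : IsAlgebraic ℤ x⁻¹ := by
      refine ⟨P * Polynomial.C (p : ℤ) + Q * Polynomial.X - 1, ?_, ?_⟩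
      · intro h0
        have h4 := congrArg (fun f : Polynomial ℤ => f.coeff 0) h0
        simp only [Polynomial.coeff_sub, Polynomial.coeff_add, Polynomial.mul_coeff_zero,
          Polynomial.coeff_C_zero, Polynomial.coeff_X_zero, mul_zero, add_zero,
          Polynomial.coeff_one_zero, Polynomial.coeff_zero] at h4
        have h5 : (p : ℤ) ∣ 1 := ⟨P.coeff 0, by linarith⟩
        have h6 : (p : ℤ) ≤ 1 := Int.le_of_dvd one_pos h5
        have h7 := hp.two_le
        omega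
      · show φ (P * Polynomial.C (p : ℤ) + Q * Polynomial.X - 1) = 0
        rw [map_sub, map_add, map_mul, map_mul, map_one, hφC, hφX, hP, hQ, h2, sub_self]
    exact IsAlgebraic.inv_iff.mp h3
  · exfalso
    obtain ⟨B, -, hB⟩ := Ideal.image_subset_nonunits_valuationSubring (Ideal.span {tp, tx}) hI
    have hBp : B.valuation (p : ℂ) < 1 := by
      rw [← ValuationSubring.mem_nonunits_iff]
      exact hB ⟨tp, Ideal.subset_span (by simp), rfl⟩
    have hBx : B.valuation x⁻¹ < 1 := by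
      rw [← ValuationSubring.mem_nonunits_iff]
      exact hB ⟨tx, Ideal.subset_span (by simp), rfl⟩
    have hxB : B.valuation x ≤ 1 := (B.valuation_le_one_iff x).mpr (h B hBp)
    have h1 : B.valuation x * B.valuation x⁻¹ = 1 := by
      rw [← map_mul, mul_inv_cancel₀ hx, map_one]
    have h2 : B.valuation x * B.valuation x⁻¹ < 1 := by
      rw [mul_comm]
      exact mul_lt_one_of_lt_of_le hBx hxB
    rw [h1] at h2
    exact lt_irrefl _ h2

theorem fc1_int {z : ℂ} (hz : IsIntegral ℤ z) (V : ValuationSubring ℂ) : V.valuation z ≤ 1 := by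
  have h3 : IsIntegral V z := hz.tower_top
  obtain ⟨t, ht⟩ := IsIntegrallyClosed.isIntegral_iff.1 h3
  rw [← ht]
  exact V.valuation_le_one t

theorem fc1_one {p : ℕ} (hp : p.Prime) (V : ValuationSubring ℂ) (hV : V.valuation (p : ℂ) < 1)
    (n : ℤ) (hn : ¬ (p : ℤ) ∣ n) : V.valuation (n : ℂ) = 1 := by
  have hint : ∀ k : ℤ, V.valuation (k : ℂ) ≤ 1 := fun k => by
    have h := V.valuation_le_one (k : V)
    exact_mod_cast h
  have h1 : IsCoprime (p : ℤ) n := (Nat.prime_iff_prime_int.mp hp).coprime_iff_not_dvd.mpr hn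
  obtain ⟨a, b, h⟩ := h1
  refine le_antisymm (hint n) ?_
  by_contra hcon
  push Not at hcon
  have h2 : (1 : ℂ) = (a : ℂ) * (p : ℂ) + (b : ℂ) * (n : ℂ) := by
    exact_mod_cast h.symm
  have h3 : V.valuation (1 : ℂ) < 1 := by
    rw [h2]
    refine lt_of_le_of_lt (V.valuation.map_add _ _) (max_lt ?_ ?_)
    · rw [map_mul, mul_comm]
      exact mul_lt_one_of_lt_of_le hV (hint a)
    · rw [map_mul, mul_comm]
      exact mul_lt_one_of_lt_of_le hcon (hint b)
  rw [map_one] at h3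
  exact lt_irrefl _ h3

/-- Chunk FC1 (S/M). exists_integral_multiple: n x and n' x⁻¹ are algebraic integers, n, n' ≠ 0 integers; algebraic integers are in all valuation rings (PT1_int style, or ValuationSubring: integrally closed), and V(n) = 1 if p does not divide n (H55P.val_nat). So UnitP p x for all p not dividing n n'. -/
theorem unit_almost {x : ℂ} (hx : x ≠ 0) (h : IsAlgebraic ℤ x) : {p : ℕ | p.Prime ∧ ¬ UnitP p x}.Finite := by
  obtain ⟨n, hn, hnx⟩ := h.exists_integral_multiple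
  obtain ⟨m, hm, hmx⟩ := h.inv.exists_integral_multiple
  have hfin : {p : ℕ | p ∣ (n * m).natAbs}.Finite :=
    Set.Finite.subset (Finset.finite_toSet ((n * m).natAbs.divisors)) fun p hp => by
      simp only [Finset.mem_coe, Nat.mem_divisors]
      exact ⟨hp, Int.natAbs_ne_zero.mpr (mul_ne_zero hn hm)⟩
  refine hfin.subset ?_
  rintro p ⟨hp, hU⟩
  by_contra hcon
  apply hU
  intro V hV
  have hdn : ¬ (p : ℤ) ∣ n := fun h1 => hcon (Int.natCast_dvd.mp (h1.mul_right m))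
  have hdm : ¬ (p : ℤ) ∣ m := fun h1 => hcon (Int.natCast_dvd.mp (h1.mul_left n))
  have h1 := fc1_int hnx V
  have h2 := fc1_int hmx V
  rw [zsmul_eq_mul, map_mul, fc1_one hp V hV n hdn, one_mul] at h1
  rw [zsmul_eq_mul, map_mul, fc1_one hp V hV m hdm, one_mul] at h2
  refine le_antisymm h1 ?_
  have h3 : V.valuation x * V.valuation x⁻¹ = 1 := by
    rw [← map_mul, mul_inv_cancel₀ hx, map_one]
  calc (1 : _) = V.valuation x * V.valuation x⁻¹ := h3.symm
    _ ≤ V.valuation x * 1 := mul_le_mul_right h2 _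
    _ = V.valuation x := mul_one _

end H55K.TQ
end

-- from Lib.H28T.CC1B
section

open NumberField IsDedekindDomain WeierstrassCurve

namespace H28T

open H55P H55R
open H55K H55K.TQ

variable {F : Type} [Field F] [NumberField F] [IQ F]

/-- Chunk CC1B (S/M). δ in 𝓞 F with cj δ = -δ, D = Nm δ, δ ≠ 0: δ^2 = -D (mul_cj). l a prime number with -D not a square modulo l: l is a prime element of 𝓞 F. Let v be a prime of F containing l (l is not a unit: H55K.Nm_nat). absNorm v divides Nm l = l^2 (v divides (l)) and is not 1, so it is l or l^2. If absNorm v = l, the residue field 𝓞 F ⧸ v has l elements, so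
the map ZMod l → 𝓞 F ⧸ v (or ℤ → 𝓞 F ⧸ v) is surjective: there is an integer x with δ - x in v, so x^2 + D = (x - δ)(x + δ) in v, and it is an integer in v: divisible by l (otherwise 1 in v; the integers in v are the multiples of l), contradiction. So absNorm v = l^2 = absNorm (l), v divides (l) and v = (l): (l) = v J, absNorm J = 1, J = ⊤.
Ideal.span_singleton_prime. -/
theorem cc1b_inert {δ : 𝓞 F} (hδ : cj δ = -δ) (h0 : δ ≠ 0) {l : ℕ} (hl : l.Prime)
    (hD : ∀ x : ℤ, ¬ (l : ℤ) ∣ x ^ 2 + (H55P.Nm δ : ℕ)) : Prime ((l : ℕ) : 𝓞 F) := by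
  have hsq : δ ^ 2 = -((H55P.Nm δ : ℕ) : 𝓞 F) := by
    have h1 := mul_cj δ
    rw [hδ] at h1
    linear_combination -h1
  have hl0 : ((l : ℕ) : 𝓞 F) ≠ 0 := by
    exact_mod_cast hl.ne_zero
  have hN : Ideal.absNorm (Ideal.span {((l : ℕ) : 𝓞 F)}) = l ^ 2 := Nm_nat l
  have hne : Ideal.span {((l : ℕ) : 𝓞 F)} ≠ ⊤ := by
    intro h
    rw [h, Ideal.absNorm_top] at hN
    have := hl.one_lt
    nlinarith
  obtain ⟨v, hv, hlv⟩ := Ideal.exists_le_maximal _ hne
  have hlm : ((l : ℕ) : 𝓞 F) ∈ v := hlv (Ideal.mem_span_singleton_self _)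
  have hdv : Ideal.absNorm v ∣ l ^ 2 := by
    rw [← hN]
    exact Ideal.absNorm_dvd_absNorm_of_le hlv
  have hint : ∀ y : ℤ, (y : 𝓞 F) ∈ v → (l : ℤ) ∣ y := by
    intro y hy
    by_contra hcon
    have hcop : IsCoprime (l : ℤ) y := by
      rw [Int.isCoprime_iff_gcd_eq_one]
      have h1 := (Nat.Prime.coprime_iff_not_dvd hl (n := y.natAbs)).2
        (fun h => hcon (Int.natCast_dvd.2 h))
      simpa [Int.gcd] using h1
    obtain ⟨a, b, hab⟩ := hcop
    apply hv.ne_top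
    rw [Ideal.eq_top_iff_one]
    have h1 : (1 : 𝓞 F) = (a : 𝓞 F) * (l : 𝓞 F) + (b : 𝓞 F) * (y : 𝓞 F) := by
      have h2 := congrArg (fun z : ℤ => (z : 𝓞 F)) hab
      push_cast at h2
      exact h2.symm
    rw [h1]
    exact v.add_mem (v.mul_mem_left _ hlm) (v.mul_mem_left _ hy)
  have hnl : Ideal.absNorm v ≠ l := by
    intro h
    have h1 : Nat.card (𝓞 F ⧸ v) = l := by
      rw [← h]
      rfl
    have : Fact l.Prime := ⟨hl⟩
    have : Nontrivial (𝓞 F ⧸ v) := Ideal.Quotient.nontrivial_iff.2 hv.ne_top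
    have h2 : (Ideal.Quotient.mk v δ) ∈ AddSubgroup.zmultiples (1 : 𝓞 F ⧸ v) :=
      mem_zmultiples_of_prime_card h1 one_ne_zero
    rw [AddSubgroup.mem_zmultiples_iff] at h2
    obtain ⟨x, hx⟩ := h2
    have h3 : δ - (x : 𝓞 F) ∈ v := by
      rw [← Ideal.Quotient.eq_zero_iff_mem, map_sub, ← hx]
      simp
    have h4 : ((x ^ 2 + (H55P.Nm δ : ℕ) : ℤ) : 𝓞 F) ∈ v := by
      have h5 : ((x ^ 2 + (H55P.Nm δ : ℕ) : ℤ) : 𝓞 F) = (-(δ + (x : 𝓞 F))) * (δ - (x : 𝓞 F)) := by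
        push_cast
        linear_combination hsq
      rw [h5]
      exact v.mul_mem_left _ h3
    exact hD x (hint _ h4)
  have hn2 : Ideal.absNorm v = l ^ 2 := by
    rcases (Nat.dvd_prime_pow hl).1 hdv with ⟨k, hk, hk2⟩
    interval_cases k
    · exfalso
      rw [pow_zero, Ideal.absNorm_eq_one_iff] at hk2
      exact hv.ne_top hk2
    · exact absurd (by rw [hk2, pow_one]) hnl
    · exact hk2
  have hvs : Ideal.span {((l : ℕ) : 𝓞 F)} = v := by
    obtain ⟨J, hJ⟩ := Ideal.dvd_iff_le.2 hlv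
    have h1 : Ideal.absNorm v * Ideal.absNorm J = l ^ 2 := by
      rw [← map_mul, ← hJ, hN]
    rw [hn2] at h1
    have h2 : Ideal.absNorm J = 1 := by
      have h3 : 0 < l ^ 2 := pow_pos hl.pos 2
      exact Nat.eq_of_mul_eq_mul_left h3 (by rw [h1, mul_one])
    rw [Ideal.absNorm_eq_one_iff] at h2
    rw [hJ, h2, Ideal.mul_top]
  rw [← Ideal.span_singleton_prime hl0, hvs]
  exact hv.isPrime

end H28T
end

-- from Lib.SSG.S.K1
section

/-! # SSG, part S (E4), K: the constants of the classes -/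

open NumberField IsDedekindDomain

namespace SSG.S

open H55N H55P

variable {F : Type} [Field F] [NumberField F] [IQ F] {K : Type} [Field K] [NumberField K] [Algebra F K]

/-! Chunk K1 (S). PROOF. exists_kappaP (H55P/T2.lean) with f = ⊤ and χ = oneI ⊤ (PChr p ⊤ (oneI ⊤): ne: ⊤ ≠ ⊥; cop: isCoprime_one_left; val: oneI ⊤ a = 1 for a ≠ ⊥, or 1^p = 1; zero: every a is
coprime to ⊤ = 1; per: both are 1). κ := κ' there. PsiP K ψ a = (PsiP K ψ * oneI ⊤) a since oneI ⊤ a = 1 for a ≠ ⊥, and a ≠ ⊥ since a b = (x), x ≠ 0.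
Algebraicity: apply the formula to x = c₀ and the ideal a with a b = (c₀) (b divides (c₀) since c₀ in b): PsiP K ψ a = κ * conj (embF (norm c₀)), c₀ ≠ 0, so κ is the quotient of two numbers
conj (embF F y), y in F (PsiP_apply; norm ≠ 0: Algebra.norm_ne_zero_iff, embF injective), and conj (embF F y) is algebraic over ℚ as image of y under the ring homomorphism
(starRingEnd ℂ).comp (embF F) (y is integral over ℚ: IsIntegral.map / IsAlgebraic; algebraic elements: IsAlgebraic.div? use IsIntegral.mul, IsIntegral.inv). -/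

theorem k1_alg (f : F →+* ℂ) (y : F) : IsAlgebraic ℚ (f y) := by
  have h1 : IsAlgebraic ℚ y := Algebra.IsAlgebraic.isAlgebraic y
  exact h1.algHom f.toRatAlgHom

theorem k1_one (a : Ideal (𝓞 K)) (ha : a ≠ ⊥) : oneI (⊤ : Ideal (𝓞 K)) a = 1 := by
  classical
  refine if_pos ⟨ha, ?_⟩
  rw [← Ideal.one_eq_top]
  exact isCoprime_one_right

theorem k1_chr (p : ℕ) : PChr p (⊤ : Ideal (𝓞 K)) (oneI ⊤) where
  ne := top_ne_bot
  cop := by
    rw [← Ideal.one_eq_top]
    exact isCoprime_one_left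
  val a ha _ := by rw [k1_one a ha, one_pow]
  zero a ha := by
    exfalso
    apply ha
    rw [← Ideal.one_eq_top]
    exact isCoprime_one_right
  per x y hx hy _ _ := by
    rw [k1_one _ (fun h => hx (Ideal.span_singleton_eq_bot.1 h)),
      k1_one _ (fun h => hy (Ideal.span_singleton_eq_bot.1 h))]

theorem k1_kappa (p : ℕ) (hp : p.Prime) {M : Ideal (𝓞 F)} {ψ : Ideal (𝓞 F) →*₀ 𝓞 F} (h : IsHecke M ψ)
    (hMp : IsCoprime M (Ideal.span {(p : 𝓞 F)})) (b : Ideal (𝓞 K)) (hb : b ≠ ⊥)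
    (hbc : IsCoprime b (Ideal.span {(p : 𝓞 K)} * (mK K M * ⊤))) (c₀ : 𝓞 K) (hc : c₀ ∈ b)
    (hpr : ∀ w : HeightOneSpectrum (𝓞 K), mK K M * ⊤ ≤ w.asIdeal → c₀ ∉ w.asIdeal * b) :
    ∃ κ : ℂ, (∀ V : ValuationSubring ℂ, V.valuation (p : ℂ) < 1 → V.valuation κ = 1) ∧ IsAlgebraic ℚ κ ∧
      ∀ x ∈ XS (mK K M * ⊤ * b) c₀, ∀ a : Ideal (𝓞 K), a * b = Ideal.span {x} → x ≠ 0 ∧
        PsiP K ψ a = κ * (starRingEnd ℂ) (embF F (Algebra.norm F (x : K))) := by
  obtain ⟨κ, κ', ζ, h1, h2, h3, h4⟩ := exists_kappaP p hp h hMp ⊤ (oneI ⊤) (k1_chr p) b hb hbc c₀ hc hpr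
  have h5 : ∀ x ∈ XS (mK K M * ⊤ * b) c₀, ∀ a : Ideal (𝓞 K), a * b = Ideal.span {x} → x ≠ 0 ∧
        PsiP K ψ a = κ' * (starRingEnd ℂ) (embF F (Algebra.norm F (x : K))) := by
    intro x hx a ha
    obtain ⟨hx0, -, h6⟩ := h4 x hx a ha
    refine ⟨hx0, ?_⟩
    have ha0 : a ≠ ⊥ := by
      rintro rfl
      apply hx0
      rw [← Ideal.span_singleton_eq_bot, ← ha]
      exact zero_mul b
    rw [← h6]
    show _ = PsiP K ψ a * oneI ⊤ a
    rw [k1_one a ha0, mul_one]
  refine ⟨κ', h1, ?_, h5⟩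
  obtain ⟨d, hd⟩ := Ideal.dvd_iff_le.2 ((Ideal.span_singleton_le_iff_mem b).2 hc)
  have h6 := h5 c₀ (by
    show c₀ - c₀ ∈ mK K M * ⊤ * b
    rw [sub_self]
    exact Ideal.zero_mem _) d (by rw [hd, mul_comm])
  obtain ⟨hc0, h7⟩ := h6
  have h8 : (starRingEnd ℂ) (embF F (Algebra.norm F (c₀ : K))) ≠ 0 := by
    rw [map_ne_zero, map_ne_zero, Algebra.norm_ne_zero_iff]
    exact fun h => hc0 (RingOfIntegers.ext h)
  have h9 : κ' = PsiP K ψ d * ((starRingEnd ℂ) (embF F (Algebra.norm F (c₀ : K))))⁻¹ := by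
    rw [h7, mul_assoc, mul_inv_cancel₀ h8, mul_one]
  rw [h9, PsiP_apply, eF_apply]
  exact (k1_alg ((starRingEnd ℂ).comp (embF F)) _).mul
    (k1_alg ((starRingEnd ℂ).comp (embF F)) _).inv

/-- The coefficients of the L-series of ψ. -/
theorem k1_coef {M : Ideal (𝓞 F)} {ψ : Ideal (𝓞 F) →*₀ 𝓞 F} (hH : IsHecke M ψ) {ι : Type} {b : ι → Ideal (𝓞 K)}
    {c₀ : ι → 𝓞 K} {κ : ι → ℂ}
    (hk : ∀ i, ∀ x ∈ XS (mK K M * ⊤ * b i) (c₀ i), ∀ a : Ideal (𝓞 K), a * b i = Ideal.span {x} →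
        x ≠ 0 ∧ PsiP K ψ a = κ i * (starRingEnd ℂ) (embF F (Algebra.norm F (x : K)))) :
    CoefP F (mK K M * ⊤) ι b c₀ (PsiP K ψ) κ where
  sup a ha := by
    have hne : a ≠ ⊥ := by
      rintro rfl
      exact ha (map_zero _)
    refine ⟨hne, ?_⟩
    have h1 : (mK K M * ⊤ : Ideal (𝓞 K)) = mK K M := Ideal.mul_top _
    rw [h1]
    exact (PsiP_ne hH a hne).1 ha
  nrm a := PsiP_norm_le hH a
  kap := hk

end SSG.S
end

-- from Lib.H13Z.TR_T
section

open NumberField IsDedekindDomain WeierstrassCurve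

namespace H13Z

open H55P

/-- There is a class in the classical p-Selmer group of W over K (local conditions on the decomposition groups at the finite places) which is not the class of a point killed by p. -/
def SelNon {F₀ : Type} [Field F₀] {Ω : Type} [Field Ω] [DecidableEq Ω] [Algebra F₀ Ω]
    (W : WeierstrassCurve F₀) (p : ℕ) (K : IntermediateField F₀ Ω) : Prop :=
  ∃ c : (Ω ≃ₐ[F₀] Ω) → Pt W Ω, Coc W K c ∧ (∀ s ∈ K.fixingSubgroup, p • c s = 0) ∧
    (∀ V : ValuationSubring Ω, V ≠ ⊤ → ∃ P : Pt W Ω, ∀ s ∈ K.fixingSubgroup, Dec V s →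
      c s = ac W s P - P) ∧
    ¬ ∃ T : Pt W Ω, p • T = 0 ∧ ∀ s ∈ K.fixingSubgroup, c s = ac W s T - T


theorem tr_core {k : Type} [Field k] (W : WeierstrassCurve k) (K : Type) [Field K]
    [Algebra k K] [FiniteDimensional k K] {Ω : Type} [Field Ω] [DecidableEq Ω] [Algebra k Ω]
    [IsAlgClosed Ω] [Algebra.IsAlgebraic k Ω] (ι : K →ₐ[k] Ω) [DecidableEq (AlgebraicClosure K)] :
    ∃ (Φ : Pt (W⁄K) (AlgebraicClosure K) ≃+ Pt W Ω)
      (hat : (AlgebraicClosure K ≃ₐ[K] AlgebraicClosure K) → (Ω ≃ₐ[k] Ω)),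
      (∀ s t, hat (s * t) = hat s * hat t) ∧
      (∀ t, t ∈ ι.fieldRange.fixingSubgroup ↔ ∃ s, hat s = t) ∧
      (∀ s P, Φ (ac (W⁄K) s P) = ac W (hat s) (Φ P)) ∧
      (∀ L' : IntermediateField k Ω, FiniteDimensional k L' →
        ∃ L : IntermediateField K (AlgebraicClosure K), FiniteDimensional K L ∧
          ∀ s ∈ L.fixingSubgroup, hat s ∈ L'.fixingSubgroup) ∧
      (∀ V' : ValuationSubring (AlgebraicClosure K), V' ≠ ⊤ → ∃ V : ValuationSubring Ω, V ≠ ⊤ ∧ ∀ s,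
        Dec V' s → Dec V (hat s)) := by
  let algKΩ : Algebra K Ω := ι.toRingHom.toAlgebra
  have htow : IsScalarTower k K Ω := IsScalarTower.of_algebraMap_eq fun x => (ι.commutes x).symm
  have halg : Algebra.IsAlgebraic K Ω := Algebra.IsAlgebraic.tower_top (K := k) K
  have hcl : IsAlgClosure K Ω := ⟨inferInstance, halg⟩
  let θ : AlgebraicClosure K ≃ₐ[K] Ω := IsAlgClosure.equiv K (AlgebraicClosure K) Ω
  let θk : AlgebraicClosure K ≃ₐ[k] Ω := θ.restrictScalars k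
  obtain ⟨φ, hφ⟩ := base_iso (k := k) (F := K) (Ω := AlgebraicClosure K) W
  refine ⟨φ.symm.trans (z12_pt W θk), z12_hat θk, ?_, ?_, ?_, ?_, ?_⟩
  · intro s t
    apply AlgEquiv.ext
    intro x
    rw [AlgEquiv.mul_apply, z12_hat_apply, z12_hat_apply, z12_hat_apply, θk.symm_apply_apply,
      AlgEquiv.mul_apply]
  · intro t
    rw [IntermediateField.mem_fixingSubgroup_iff]
    constructor
    · intro ht
      have h1 : ∀ x : K, t (algebraMap K Ω x) = algebraMap K Ω x := fun x => ht _ ⟨x, rfl⟩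
      let tK : Ω ≃ₐ[K] Ω := AlgEquiv.ofRingEquiv (f := (t : Ω ≃+* Ω)) h1
      refine ⟨(θ.trans tK).trans θ.symm, AlgEquiv.ext fun x => ?_⟩
      rw [z12_hat_apply]
      show θ (θ.symm (t (θ (θ.symm x)))) = t x
      rw [θ.apply_symm_apply, θ.apply_symm_apply]
    · rintro ⟨s, rfl⟩ x ⟨y, rfl⟩
      rw [z12_hat_apply]
      show θ (s (θ.symm (algebraMap K Ω y))) = algebraMap K Ω y
      rw [θ.symm.commutes, s.commutes, θ.commutes]
  · intro s P
    have h1 : φ.symm (ac (W⁄K) s P) = ac W (s.restrictScalars k) (φ.symm P) := by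
      apply φ.injective
      rw [hφ, φ.apply_symm_apply, φ.apply_symm_apply]
    show z12_pt W θk (φ.symm (ac (W⁄K) s P)) = ac W (z12_hat θk s) (z12_pt W θk (φ.symm P))
    rw [h1]
    generalize φ.symm P = Q
    show Affine.Point.map (W' := W.toAffine) θk.toAlgHom
      (Affine.Point.map (W' := W.toAffine) (s.restrictScalars k).toAlgHom Q) =
      Affine.Point.map (W' := W.toAffine) (z12_hat θk s).toAlgHom
        (Affine.Point.map (W' := W.toAffine) θk.toAlgHom Q)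
    rw [Affine.Point.map_map, Affine.Point.map_map]
    congr 1
    congr 1
    ext x
    show θk (s x) = z12_hat θk s (θk x)
    rw [z12_hat_apply, θk.symm_apply_apply]
  · intro L' hL'
    obtain ⟨L'', hL'', h1⟩ := Z11_field (F := K) L'
    let e := IntermediateField.intermediateFieldMap θ.symm L''
    refine ⟨L''.map θ.symm.toAlgHom, Module.Finite.equiv e.toLinearEquiv, ?_⟩
    intro s hs
    rw [IntermediateField.mem_fixingSubgroup_iff] at hs
    have h2 := h1 ((θ.symm.trans s).trans θ) (by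
      rw [IntermediateField.mem_fixingSubgroup_iff]
      intro x hx
      show θ (s (θ.symm x)) = x
      rw [hs (θ.symm x) ⟨x, hx, rfl⟩, θ.apply_symm_apply])
    exact h2
  · intro V' hV'
    have hm : ∀ x, x ∈ V'.comap (θk.symm : Ω →+* AlgebraicClosure K) ↔ θk.symm x ∈ V' := fun x =>
      ValuationSubring.mem_comap
    refine ⟨V'.comap (θk.symm : Ω →+* AlgebraicClosure K), fun h => hV' ?_, fun s h x => ?_⟩
    · refine eq_top_iff.2 fun x _ => ?_
      have h1 : θk x ∈ V'.comap (θk.symm : Ω →+* AlgebraicClosure K) := by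
        rw [h]
        exact ValuationSubring.mem_top _
      rwa [hm, θk.symm_apply_apply] at h1
    · rw [hm, hm, z12_hat_apply, θk.symm_apply_apply]
      exact h (θk.symm x)

/-- Chunk TR1 (S/M, port of z12_core and sel_transport in H55P/Z12.lean, in the other direction: c' s = Φ⁻¹ (c (hat s)); the valuation ring V' of the algebraic closure of K corresponds to V = its image under θk (comap of θk.symm), Dec V' s iff Dec V (hat s); a finite subfield of Ω over k corresponds to one of the algebraic closure over K: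
adjoin K of the images of a basis under θk.symm (as Z11_field)). -/
theorem non_transport {k : Type} [Field k] (W : WeierstrassCurve k) (p : ℕ) (K : Type) [Field K]
    [Algebra k K] [FiniteDimensional k K] {Ω : Type} [Field Ω] [DecidableEq Ω] [Algebra k Ω]
    [IsAlgClosed Ω] [Algebra.IsAlgebraic k Ω] (ι : K →ₐ[k] Ω) (hS : SelNon W p ι.fieldRange) :
    SelNonT (W⁄K) p := by
  classical
  unfold SelNonT
  obtain ⟨c, hc, hp, hV, hT⟩ := hS
  obtain ⟨Φ, hat, hmul, hfix, hact, hfield, hval⟩ := tr_core W K ι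
  have hmem : ∀ s, hat s ∈ ι.fieldRange.fixingSubgroup := fun s => (hfix _).2 ⟨s, rfl⟩
  have hact' : ∀ s P, Φ.symm (ac W (hat s) P) = ac (W⁄K) s (Φ.symm P) := by
    intro s P
    apply Φ.injective
    rw [hact, Φ.apply_symm_apply, Φ.apply_symm_apply]
  refine ⟨fun s => Φ.symm (c (hat s)), ⟨?_, ?_⟩, ?_, ?_, ?_⟩
  · intro s t
    show Φ.symm (c (hat (s * t))) = Φ.symm (c (hat s)) + ac (W⁄K) s (Φ.symm (c (hat t)))
    rw [hmul, hc.mul _ (hmem s) _ (hmem t), map_add, hact']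
  · obtain ⟨L', hL', hLc⟩ := hc.cont
    obtain ⟨L, hL, h1⟩ := hfield L' hL'
    refine ⟨L, hL, ?_⟩
    intro s hs
    show Φ.symm (c (hat s)) = 0
    rw [hLc _ (hmem s) (h1 s hs), map_zero]
  · intro s
    show p • Φ.symm (c (hat s)) = 0
    rw [← map_nsmul, hp _ (hmem s), map_zero]
  · intro V' hV'
    obtain ⟨V, hVt, h1⟩ := hval V' hV'
    obtain ⟨P, hP⟩ := hV V hVt
    refine ⟨Φ.symm P, ?_⟩
    intro s hs
    show Φ.symm (c (hat s)) = _
    rw [hP _ (hmem s) (h1 s hs), map_sub, hact']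
  · rintro ⟨T, hpT, hcT⟩
    apply hT
    refine ⟨Φ T, ?_, ?_⟩
    · rw [← map_nsmul, hpT, map_zero]
    · intro t ht
      obtain ⟨s, rfl⟩ := (hfix _).1 ht
      have h1 : Φ.symm (c (hat s)) = ac (W⁄K) s T - T := hcT s
      have h2 := congrArg Φ h1
      rwa [Φ.apply_symm_apply, map_sub, hact] at h2

/-- Chunk TR2 (S). A nonzero classical class excludes SelTriv: Inert V s implies Dec V s (H13S.git_dec or qv_dec, here for general fields: if x in V then s x = x + (s x - x) in V; conversely if s x in V and x not in V then x⁻¹ in V with value < 1 and s x⁻¹ = x⁻¹ + small has value < 1); for V = ⊤ Inert V s means s = 1 and c 1 = 0 (see S6.lean). -/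
theorem not_selTriv {K : Type} [Field K] (W : WeierstrassCurve K) (p : ℕ) (h : SelNonT W p) :
    ¬ SelTriv W p := by
  classical
  intro hS
  obtain ⟨c, hc, hp, hV, hT⟩ := h
  apply hT
  apply hS c hc hp
  intro V
  by_cases hVt : V = ⊤
  · refine ⟨0, fun s hi => ?_⟩
    have h1 : s = 1 := by
      refine AlgEquiv.ext fun x => ?_
      have h2 := hi x (hVt ▸ ValuationSubring.mem_top x)
      rw [lt1_iff, hVt] at h2
      rcases h2 with h2 | h2
      · exact sub_eq_zero.1 h2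
      · exact absurd (ValuationSubring.mem_top _) h2
    obtain ⟨L, hL, hLc⟩ := hc.cont
    rw [h1, hLc 1 (one_mem _), map_zero, sub_zero]
  · obtain ⟨P, hP⟩ := hV V hVt
    exact ⟨P, fun s hi => hP s (inert_dec V s hi)⟩

open Classical in
theorem tr_fixed {K : Type} [Field K] [CharZero K] (W : WeierstrassCurve K) (P : Pt W (AlgebraicClosure K))
    (h : ∀ s, ac W s P = P) :
    ∃ Q : Pt W K, Affine.Point.map (W' := W.toAffine) (Algebra.ofId K (AlgebraicClosure K)) Q = P := by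
  have hgal : IsGalois K (AlgebraicClosure K) := { }
  have hfx : ∀ x : AlgebraicClosure K, (∀ s : AlgebraicClosure K ≃ₐ[K] AlgebraicClosure K, s x = x) →
      ∃ x0 : K, algebraMap K (AlgebraicClosure K) x0 = x := by
    intro x hx
    have h1 : x ∈ IntermediateField.fixedField (⊤ : Subgroup (AlgebraicClosure K ≃ₐ[K] AlgebraicClosure K)) := by
      rw [IntermediateField.mem_fixedField_iff]
      intro s _
      exact hx s
    have h2 := InfiniteGalois.fixedField_fixingSubgroup (⊥ : IntermediateField K (AlgebraicClosure K))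
    rw [IntermediateField.fixingSubgroup_bot] at h2
    rw [h2] at h1
    exact IntermediateField.mem_bot.1 h1
  cases P with
  | zero => exact ⟨0, map_zero _⟩
  | some x y hxy =>
    obtain ⟨x0, rfl⟩ := hfx x (fun s => by
      have h1 := h s
      unfold ac at h1
      rw [Affine.Point.map_some] at h1
      exact (Affine.Point.some.inj h1).1)
    obtain ⟨y0, rfl⟩ := hfx y (fun s => by
      have h1 := h s
      unfold ac at h1
      rw [Affine.Point.map_some] at h1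
      exact (Affine.Point.some.inj h1).2)
    have h2 : (W⁄K).toAffine.Nonsingular x0 y0 := by
      have h3 := Affine.baseChange_nonsingular W.toAffine (f := Algebra.ofId K (AlgebraicClosure K))
        (RingHom.injective (Algebra.ofId K (AlgebraicClosure K)).toRingHom) x0 y0
      exact h3.1 hxy
    exact ⟨.some _ _ h2, rfl⟩



end H13Z
end

-- from Lib.H28T.WSt
section

open NumberField IsDedekindDomain
open scoped Pointwise

namespace H28T

open H28R
open H55P H55R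

variable {F : Type} [Field F] [NumberField F] {G : HeightOneSpectrum (𝓞 F) → Prop}

/-! Helper file for the chunks W7 and W21: the stabiliser of a nice prime is trivial. -/

theorem wst_one {C : Type} [Field C] [NumberField C] [Algebra F C] [IsGalois F C] (w : Pl C)
    (hd : w.asIdeal.inertiaDeg (𝓞 F) = 1) (hu : w.asIdeal.ramificationIdx (𝓞 F) = 1)
    (σ : Gal(C/F)) (h : smulP σ w = w) : σ = 1 := by
  have hv : w.under (𝓞 F) = w.under (𝓞 F) := rfl
  have h1 := card_stab w (w.under (𝓞 F)) hv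
  have hp := (w.under (𝓞 F)).isPrime
  have hw := w.isPrime
  have hl : w.asIdeal.LiesOver (w.under (𝓞 F)).asIdeal := (BF2_mem (w.under (𝓞 F)) w hv).2
  have e1 : es F C (w.under (𝓞 F)) = 1 := by
    unfold es
    rw [Ideal.ramificationIdxIn_eq_ramificationIdx (w.under (𝓞 F)).asIdeal w.asIdeal Gal(C/F)]
    exact hu
  have e2 : fs F C (w.under (𝓞 F)) = 1 := by
    unfold fs
    rw [Ideal.inertiaDegIn_eq_inertiaDeg (w.under (𝓞 F)).asIdeal w.asIdeal Gal(C/F)]
    exact hd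
  rw [e1, e2, mul_one] at h1
  have h2 := (Nat.card_eq_one_iff_unique.1 h1).1
  have h3 := h2.elim (⟨σ, h⟩ : {σ : Gal(C/F) // smulP σ w = w}) ⟨1, smulP_one w⟩
  exact congrArg Subtype.val h3

theorem wst_res {K C : Type} [Field K] [NumberField K] [Field C] [NumberField C]
    [Algebra F K] [Algebra F C] [Algebra K C] [IsScalarTower F K C] (δ : C ≃ₐ[K] C) (w : Pl C) :
    smulP (δ.restrictScalars F : Gal(C/F)) w = smulP (δ : Gal(C/K)) w := by
  apply HeightOneSpectrum.ext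
  show (δ.restrictScalars F : Gal(C/F)) • w.asIdeal = (δ : Gal(C/K)) • w.asIdeal
  rw [Ideal.pointwise_smul_def, Ideal.pointwise_smul_def]
  congr 1

/-- Two conjugates of w agree only if the automorphisms agree. -/
theorem wst_eq {C : Type} [Field C] [NumberField C] [Algebra F C] [IsGalois F C] (w : Pl C)
    (hd : w.asIdeal.inertiaDeg (𝓞 F) = 1) (hu : w.asIdeal.ramificationIdx (𝓞 F) = 1)
    (σ τ : Gal(C/F)) (h : smulP σ w = smulP τ w) : σ = τ := by
  have h1 : smulP (τ⁻¹ * σ) w = w := by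
    rw [smulP_mul, h, ← smulP_mul, inv_mul_cancel, smulP_one]
  have h2 := wst_one w hd hu _ h1
  rw [inv_mul_eq_one] at h2
  exact h2.symm

theorem wst_prod {C : Type} [Field C] [NumberField C] (P : Pl C) {ι : Type} (s : Finset ι)
    (f : ι → Cˣ) (n : ι → ℕ) : ord P (∏ i ∈ s, f i ^ n i) = ∑ i ∈ s, (n i : ℤ) * ord P (f i) := by
  classical
  induction s using Finset.induction_on with
  | empty => simp [ord_one]
  | insert i s hi ih =>
    rw [Finset.prod_insert hi, Finset.sum_insert hi, ord_mul, ih]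
    congr 1
    have h := ord_zpow P (f i) (n i : ℤ)
    rw [zpow_natCast] at h
    exact h

end H28T
end

-- from Lib.H55N.WR1
section

open NumberField IsDedekindDomain

namespace H55N

open H55B H55C

/-- The exponent of a prime in an ideal. -/
noncomputable def WR1_cnt {K : Type} [Field K] [NumberField K] (p : HeightOneSpectrum (𝓞 K))
    (I : Ideal (𝓞 K)) : ℕ := (Associates.mk p.asIdeal).count (Associates.mk I).factors

section

variable {K : Type} [Field K] [NumberField K]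

theorem WR1_cnt_mul (p : HeightOneSpectrum (𝓞 K)) {I J : Ideal (𝓞 K)} (hI : I ≠ ⊥) (hJ : J ≠ ⊥) :
    WR1_cnt p (I * J) = WR1_cnt p I + WR1_cnt p J := by
  unfold WR1_cnt
  rw [← Associates.mk_mul_mk]
  exact Associates.count_mul (Associates.mk_ne_zero.2 hI) (Associates.mk_ne_zero.2 hJ)
    p.associates_irreducible

theorem WR1_cnt_self (p : HeightOneSpectrum (𝓞 K)) : WR1_cnt p p.asIdeal = 1 :=
  Associates.count_self p.associates_irreducible

theorem WR1_cnt_ne (p q : HeightOneSpectrum (𝓞 K)) (h : p ≠ q) : WR1_cnt p q.asIdeal = 0 := by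
  refine Associates.count_eq_zero_of_ne p.associates_irreducible q.associates_irreducible fun h2 => ?_
  exact h (HeightOneSpectrum.ext (associated_iff_eq.1 (Associates.mk_eq_mk_iff_associated.1 h2)))

theorem WR1_val (p : HeightOneSpectrum (𝓞 K)) {x : 𝓞 K} (hx : x ≠ 0) :
    p.valuation K (x : K) = WithZero.exp (-(WR1_cnt p (Ideal.span {x}) : ℤ)) := by
  have h := p.valuation_of_algebraMap (K := K) x
  rw [p.intValuation_if_neg hx] at h
  exact h


end


end H55N
end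

-- from Lib.H28R.W20
section

open NumberField IsDedekindDomain

namespace H28R

open H55P H55R

/-! Chunk W20 (M), Kummer theory: the degree of N/C (N/C is Galois since N/F₀ is). The group of N/C embeds in FixZ F₀ ζ -> ZMod p: τ (r g) = ζ^(e τ g) r g (IsPrimitiveRoot.eq_pow_of_pow_eq_one, r g <> 0, τ fixes C; injective by WrP.gen); its image is a ZMod p-subspace; if it is not everything there is a nonzero linear form a vanishing on it
(Submodule.exists_le_ker_of_lt_top or exists_dual_map_eq_bot_of_lt_top; the linear form is x -> sum over g of a g * x g), the product of the (r g)^((a g).val) is fixed by the group of N/C, so it is an element z of C (IsGalois.mem_bot_iff_fixed) with z^p = product of (g γ)^((a g).val): contradiction to hn. So the degree is p^(card). Compare H19T/W5.lean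
(wr_card3). -/

section

variable {p : ℕ} {F₀ C N : Type} [Field F₀] [Field C] [Field N] [CharZero F₀]
    [Algebra F₀ C] [Algebra F₀ N] [Algebra C N] [IsScalarTower F₀ C N] {ζ γ : C}
    {r : FixZ F₀ ζ → N}

theorem w20_prim (N : Type) [Field N] [Algebra C N] (hζ : IsPrimitiveRoot ζ p) :
    IsPrimitiveRoot (algebraMap C N ζ) p :=
  hζ.map_of_injective (algebraMap C N).injective

/-- The power of ζ with exponent in ZMod p. -/
noncomputable def w20_zh (N : Type) [Field N] [Algebra C N] [NeZero p] (hζ : IsPrimitiveRoot ζ p) :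
    Multiplicative (ZMod p) →* N where
  toFun ε := (algebraMap C N ζ) ^ (Multiplicative.toAdd ε).val
  map_one' := by simp
  map_mul' a b := by
    rw [toAdd_mul, ZMod.val_add, ← pow_add]
    exact (pow_eq_pow_mod _ (w20_prim N hζ).pow_eq_one).symm

theorem w20_zh_apply (N : Type) [Field N] [Algebra C N] [NeZero p] (hζ : IsPrimitiveRoot ζ p)
    (a : ZMod p) : w20_zh N hζ (Multiplicative.ofAdd a) = (algebraMap C N ζ) ^ a.val := rfl

theorem w20_zh_inj (N : Type) [Field N] [Algebra C N] [NeZero p] (hζ : IsPrimitiveRoot ζ p)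
    {a b : Multiplicative (ZMod p)} (h : w20_zh N hζ a = w20_zh N hζ b) : a = b := by
  have h1 := (w20_prim N hζ).pow_inj (ZMod.val_lt _) (ZMod.val_lt _) h
  exact Multiplicative.toAdd.injective (ZMod.val_injective p h1)

theorem w20_fix [NeZero p] (hζ : IsPrimitiveRoot ζ p) (s : N ≃ₐ[C] N)
    (ε : Multiplicative (ZMod p)) : s (w20_zh N hζ ε) = w20_zh N hζ ε := by
  show s ((algebraMap C N ζ) ^ (Multiplicative.toAdd ε).val) = _
  rw [map_pow, AlgEquiv.commutes]
  rfl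

theorem w20_ne (hp : p ≠ 0) (hγ : γ ≠ 0) (h : WrP p F₀ C N ζ γ r) (g : FixZ F₀ ζ) : r g ≠ 0 := by
  intro h0
  have h1 := h.pow g
  rw [h0, zero_pow hp] at h1
  have h2 : (g : C ≃ₐ[F₀] C) γ = 0 := by
    apply (algebraMap C N).injective
    rw [map_zero, ← h1]
  apply hγ
  apply (g : C ≃ₐ[F₀] C).injective
  rw [h2, map_zero]

theorem w20_ex [NeZero p] (hζ : IsPrimitiveRoot ζ p) (hγ : γ ≠ 0) (h : WrP p F₀ C N ζ γ r)
    (s : N ≃ₐ[C] N) (g : FixZ F₀ ζ) :
    ∃ ε : Multiplicative (ZMod p), s (r g) = w20_zh N hζ ε * r g := by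
  have hne := w20_ne (NeZero.ne p) hγ h g
  have h1 : (s (r g) / r g) ^ p = 1 := by
    rw [div_pow, ← map_pow, h.pow, AlgEquiv.commutes]
    apply div_self
    rw [← h.pow]
    exact pow_ne_zero _ hne
  obtain ⟨i, hi, he⟩ := (w20_prim N hζ).eq_pow_of_pow_eq_one h1
  refine ⟨Multiplicative.ofAdd (i : ZMod p), ?_⟩
  rw [w20_zh_apply, ZMod.val_natCast_of_lt hi, he, div_mul_cancel₀ _ hne]

/-- The exponents. -/
noncomputable def w20_sg [NeZero p] (hζ : IsPrimitiveRoot ζ p) (hγ : γ ≠ 0)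
    (h : WrP p F₀ C N ζ γ r) (s : N ≃ₐ[C] N) (g : FixZ F₀ ζ) :
    ZMod p := Multiplicative.toAdd (Classical.choose (w20_ex hζ hγ h s g))

theorem w20_sg_spec [NeZero p] (hζ : IsPrimitiveRoot ζ p) (hγ : γ ≠ 0)
    (h : WrP p F₀ C N ζ γ r) (s : N ≃ₐ[C] N) (g : FixZ F₀ ζ) :
    s (r g) = w20_zh N hζ (Multiplicative.ofAdd (w20_sg hζ hγ h s g)) * r g :=
  Classical.choose_spec (w20_ex hζ hγ h s g)

theorem w20_sg_eq [NeZero p] (hζ : IsPrimitiveRoot ζ p) (hγ : γ ≠ 0)
    (h : WrP p F₀ C N ζ γ r) (s : N ≃ₐ[C] N) (g : FixZ F₀ ζ) (a : ZMod p)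
    (ha : s (r g) = w20_zh N hζ (Multiplicative.ofAdd a) * r g) : w20_sg hζ hγ h s g = a := by
  rw [w20_sg_spec hζ hγ h s g] at ha
  have h1 := w20_zh_inj N hζ (mul_right_cancel₀ (w20_ne (NeZero.ne p) hγ h g) ha)
  exact Multiplicative.ofAdd.injective h1

theorem w20_one [NeZero p] (hζ : IsPrimitiveRoot ζ p) (hγ : γ ≠ 0)
    (h : WrP p F₀ C N ζ γ r) (g : FixZ F₀ ζ) :
    w20_sg hζ hγ h (1 : N ≃ₐ[C] N) g = 0 := by
  apply w20_sg_eq
  rw [ofAdd_zero, map_one, one_mul]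
  rfl

theorem w20_mul [NeZero p] (hζ : IsPrimitiveRoot ζ p) (hγ : γ ≠ 0)
    (h : WrP p F₀ C N ζ γ r) (s t : N ≃ₐ[C] N) (g : FixZ F₀ ζ) :
    w20_sg hζ hγ h (s * t) g = w20_sg hζ hγ h s g + w20_sg hζ hγ h t g := by
  apply w20_sg_eq
  have e1 : (s * t) (r g) = s (t (r g)) := rfl
  rw [e1, w20_sg_spec hζ hγ h t g, map_mul, w20_fix, w20_sg_spec hζ hγ h s g, ofAdd_add, map_mul]
  ring

theorem w20_inv [NeZero p] (hζ : IsPrimitiveRoot ζ p) (hγ : γ ≠ 0)
    (h : WrP p F₀ C N ζ γ r) (s : N ≃ₐ[C] N) (g : FixZ F₀ ζ) :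
    w20_sg hζ hγ h s⁻¹ g = - w20_sg hζ hγ h s g := by
  have h1 := w20_mul hζ hγ h s⁻¹ s g
  rw [inv_mul_cancel, w20_one] at h1
  exact eq_neg_of_add_eq_zero_left h1.symm

/-- The exponent vectors. -/
noncomputable def w20_W [NeZero p] (hζ : IsPrimitiveRoot ζ p) (hγ : γ ≠ 0)
    (h : WrP p F₀ C N ζ γ r) : AddSubgroup (FixZ F₀ ζ → ZMod p) where
  carrier := Set.range fun s : N ≃ₐ[C] N => w20_sg hζ hγ h s
  zero_mem' := ⟨1, funext fun g => w20_one hζ hγ h g⟩
  add_mem' := by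
    rintro _ _ ⟨s, rfl⟩ ⟨t, rfl⟩
    exact ⟨s * t, funext fun g => w20_mul hζ hγ h s t g⟩
  neg_mem' := by
    rintro _ ⟨s, rfl⟩
    exact ⟨s⁻¹, funext fun g => w20_inv hζ hγ h s g⟩

theorem w20_top (hp : p.Prime) [NeZero p] [IsGalois F₀ C] [FiniteDimensional F₀ N]
    (hζ : IsPrimitiveRoot ζ p) (hγ : γ ≠ 0)
    (h : WrP p F₀ C N ζ γ r) [Fintype (FixZ F₀ ζ)]
    (hn : ∀ a : FixZ F₀ ζ → ZMod p, a ≠ 0 →
      ¬ ∃ z : C, z ^ p = ∏ g : FixZ F₀ ζ, ((g : C ≃ₐ[F₀] C) γ) ^ (a g).val)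
    (v : FixZ F₀ ζ → ZMod p) : v ∈ w20_W hζ hγ h := by
  classical
  haveI : Fact p.Prime := ⟨hp⟩
  have hfinK : FiniteDimensional C N := Module.Finite.of_restrictScalars_finite F₀ C N
  have hgal : IsGalois F₀ N := h.gal
  have hgal' : IsGalois C N := IsGalois.tower_top_of_isGalois F₀ C N
  set W : Submodule (ZMod p) (FixZ F₀ ζ → ZMod p) :=
    AddSubgroup.toZModSubmodule p (w20_W hζ hγ h) with hW
  have hmem : ∀ x, x ∈ W ↔ x ∈ w20_W hζ hγ h := fun x =>
    AddSubgroup.mem_toZModSubmodule (n := p) (x := x) (S := w20_W hζ hγ h)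
  rw [← hmem]
  by_contra hne'
  have hne : W ≠ ⊤ := by
    intro h1
    apply hne'
    rw [h1]
    trivial
  obtain ⟨f, hf0, hf⟩ := W.exists_le_ker_of_lt_top (lt_top_iff_ne_top.2 hne)
  set a : FixZ F₀ ζ → ZMod p := fun g => f (Pi.single g 1) with ha
  have hval : ∀ v : FixZ F₀ ζ → ZMod p, f v = ∑ g, a g * v g := by
    intro v
    have h1 : v = ∑ g, v g • (Pi.single g (1 : ZMod p) : FixZ F₀ ζ → ZMod p) := by
      ext x
      simp [Finset.sum_apply, Pi.single_apply]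
    conv_lhs => rw [h1]
    rw [map_sum]
    refine Finset.sum_congr rfl fun g _ => ?_
    rw [map_smul, smul_eq_mul, mul_comm]
  have hane : a ≠ 0 := by
    intro h0
    apply hf0
    ext v
    have h1 : f (Pi.single v 1) = a v := rfl
    have h2 : a v = 0 := congrFun h0 v
    simp [h1, h2]
  have hfix : ∀ s : N ≃ₐ[C] N, s (∏ g, r g ^ (a g).val) = ∏ g, r g ^ (a g).val := by
    intro s
    have h1 : f (w20_sg hζ hγ h s) = 0 := hf ((hmem _).2 ⟨s, rfl⟩)
    rw [hval] at h1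
    have h2 : ∏ g, w20_zh N hζ (Multiplicative.ofAdd (w20_sg hζ hγ h s g)) ^ (a g).val = 1 := by
      have h3 : ∏ g, w20_zh N hζ (Multiplicative.ofAdd (w20_sg hζ hγ h s g)) ^ (a g).val =
          w20_zh N hζ (∏ g, Multiplicative.ofAdd (w20_sg hζ hγ h s g) ^ (a g).val) := by
        rw [map_prod]
        refine Finset.prod_congr rfl fun g _ => ?_
        rw [map_pow]
      have h4 : ∏ g, Multiplicative.ofAdd (w20_sg hζ hγ h s g) ^ (a g).val =
          Multiplicative.ofAdd (∑ g, a g * w20_sg hζ hγ h s g) := by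
        rw [ofAdd_sum]
        refine Finset.prod_congr rfl fun g _ => ?_
        rw [← ofAdd_nsmul]
        congr 1
        rw [nsmul_eq_mul, ZMod.natCast_zmod_val]
      rw [h3, h4, h1, ofAdd_zero, map_one]
    rw [map_prod]
    have h5 : ∀ g, s (r g ^ (a g).val) =
        w20_zh N hζ (Multiplicative.ofAdd (w20_sg hζ hγ h s g)) ^ (a g).val *
          r g ^ (a g).val := by
      intro g
      rw [map_pow, w20_sg_spec hζ hγ h s g, mul_pow]
    rw [Finset.prod_congr rfl fun g _ => h5 g, Finset.prod_mul_distrib, h2, one_mul]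
  obtain ⟨x, hx⟩ := (IsGalois.mem_bot_iff_fixed (F := C) (E := N) _).2 hfix
  apply hn a hane
  refine ⟨x, ?_⟩
  apply (algebraMap C N).injective
  rw [map_prod, map_pow]
  have hx' : algebraMap C N x = ∏ g, r g ^ (a g).val := hx
  rw [hx', ← Finset.prod_pow]
  refine Finset.prod_congr rfl fun g _ => ?_
  rw [map_pow, ← h.pow, ← pow_mul, ← pow_mul, mul_comm]

end

theorem wr_deg {p : ℕ} (hp : p.Prime) {F₀ C N : Type} [Field F₀] [Field C] [Field N] [CharZero F₀]
    [Algebra F₀ C] [Algebra F₀ N] [Algebra C N] [IsScalarTower F₀ C N] [IsGalois F₀ C]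
    [FiniteDimensional F₀ N] {ζ γ : C} (hζ : IsPrimitiveRoot ζ p) (hγ : γ ≠ 0)
    {r : FixZ F₀ ζ → N} (h : WrP p F₀ C N ζ γ r) [Fintype (FixZ F₀ ζ)]
    (hn : ∀ a : FixZ F₀ ζ → ZMod p, a ≠ 0 →
      ¬ ∃ z : C, z ^ p = ∏ g : FixZ F₀ ζ, ((g : C ≃ₐ[F₀] C) γ) ^ (a g).val) :
    Module.finrank C N = p ^ Nat.card (FixZ F₀ ζ) := by
  haveI : NeZero p := ⟨hp.ne_zero⟩
  have hfinK : FiniteDimensional C N := Module.Finite.of_restrictScalars_finite F₀ C N
  have hgal : IsGalois F₀ N := h.gal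
  have hgal' : IsGalois C N := IsGalois.tower_top_of_isGalois F₀ C N
  have hbij : Function.Bijective fun s : N ≃ₐ[C] N => w20_sg hζ hγ h s := by
    constructor
    · intro s t hst
      have h1 : ∀ g, s (r g) = t (r g) := by
        intro g
        have h2 : w20_sg hζ hγ h s g = w20_sg hζ hγ h t g := congrFun hst g
        rw [w20_sg_spec hζ hγ h s g, w20_sg_spec hζ hγ h t g, h2]
      have h3 : (s : N →ₐ[C] N) = t := by
        refine AlgHom.ext_of_adjoin_eq_top h.gen ?_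
        rintro _ ⟨g, rfl⟩
        exact h1 g
      exact AlgEquiv.coe_toAlgHom_injective h3
    · intro v
      exact w20_top hp hζ hγ h hn v
  rw [← IsGalois.card_aut_eq_finrank C N, Nat.card_congr (Equiv.ofBijective _ hbij), Nat.card_fun,
    Nat.card_zmod]

end H28R
end

-- from Lib.H28R.W9
section

open NumberField IsDedekindDomain

namespace H28R

open H55P H55R

/-! Chunk W9 (M), pure Galois theory: the wreath product. See H19T/W4.lean (wr_embed3) and H19T/W5.lean (w5_W, w5_top, wr_card3, wr_iso3) for the case p = 3, F₀ = F, all of the group of C/F₀ instead of FixZ. Embedding: s in FixZ F₀ (algebraMap C N ζ) restricts to C as an element ρ s of FixZ F₀ ζ (restrictNormalHom C;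
AlgEquiv.restrictNormal_commutes). s (r ((ρ s)⁻¹ g))^p = (r g)^p, so s (r ((ρ s)⁻¹ g)) = ζ^(e) r g with e in ZMod p (IsPrimitiveRoot.eq_pow_of_pow_eq_one, r g <> 0); s -> (e, ρ s) is an injective homomorphism to the regular wreath product (s fixes ζ). Degree: the group of N/C embeds in FixZ F₀ ζ -> ZMod p; its image is a
ZMod p-subspace; if it is not everything there is a nonzero linear form a vanishing on it, the product of the (r g)^(a g).val is fixed by the group of N/C, so it is an element z of C with z^p = product of (g γ)^(a g).val: contradiction to hn. So the degree is p^(card). Isomorphism: the group of N/F₀ has order [N:C] [C:F₀];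
FixZ F₀ (ζ in N) is the preimage of FixZ F₀ ζ under the surjection to the group of C/F₀, so its order is [N:C] * card (FixZ F₀ ζ) = the order of the wreath product (RegularWreathProduct.card). -/

/-- The root of unity attached to an element of the cyclic group. -/
def w9_z {p : ℕ} {N : Type} [Field N] (ζ : N) (ε : CP p) : N := ζ ^ (Multiplicative.toAdd ε).val

theorem w9_one {p : ℕ} {N : Type} [Field N] (ζ : N) : w9_z (p := p) ζ 1 = 1 := by
  unfold w9_z
  rw [toAdd_one, ZMod.val_zero, pow_zero]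

theorem w9_mul {p : ℕ} [NeZero p] {N : Type} [Field N] {ζ : N} (hζ : ζ ^ p = 1) (a b : CP p) :
    w9_z ζ (a * b) = w9_z ζ a * w9_z ζ b := by
  have h : ∀ n : ℕ, ζ ^ (n % p) = ζ ^ n := by
    intro n
    conv_rhs => rw [← Nat.div_add_mod n p, pow_add, pow_mul, hζ, one_pow, one_mul]
  unfold w9_z
  rw [← pow_add, toAdd_mul, ZMod.val_add, h]

theorem w9_inj {p : ℕ} [NeZero p] {N : Type} [Field N] {ζ : N} (hζ : IsPrimitiveRoot ζ p) {a b : CP p}
    (h : w9_z ζ a = w9_z ζ b) : a = b := by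
  have h1 := hζ.pow_inj (ZMod.val_lt (Multiplicative.toAdd a)) (ZMod.val_lt (Multiplicative.toAdd b)) h
  exact Multiplicative.toAdd.injective (ZMod.val_injective p h1)

theorem w9_of {p : ℕ} [NeZero p] {N : Type} [Field N] {ζ : N} (hζ : IsPrimitiveRoot ζ p) {x y : N}
    (hy : y ≠ 0) (h : x ^ p = y ^ p) : ∃ ε : CP p, x = w9_z ζ ε * y := by
  have h2 : (x / y) ^ p = 1 := by
    rw [div_pow, h]
    exact div_self (pow_ne_zero _ hy)
  obtain ⟨i, hi, hi2⟩ := hζ.eq_pow_of_pow_eq_one h2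
  refine ⟨Multiplicative.ofAdd (i : ZMod p), ?_⟩
  unfold w9_z
  rw [toAdd_ofAdd, ZMod.val_natCast_of_lt hi, hi2, div_mul_cancel₀ _ hy]

theorem w9_map {p : ℕ} {F₀ N : Type} [Field F₀] [Field N] [Algebra F₀ N] {ζ : N} (s : FixZ F₀ ζ)
    (ε : CP p) : (s : N ≃ₐ[F₀] N) (w9_z ζ ε) = w9_z ζ ε := by
  unfold w9_z
  rw [map_pow, mem_FixZ.1 s.2]

theorem wr_embed {p : ℕ} (hp : p.Prime) {F₀ C N : Type} [Field F₀] [Field C] [Field N] [CharZero F₀]
    [Algebra F₀ C] [Algebra F₀ N] [Algebra C N] [IsScalarTower F₀ C N] [IsGalois F₀ C]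
    [FiniteDimensional F₀ N] {ζ γ : C} (hζ : IsPrimitiveRoot ζ p) (hγ : γ ≠ 0)
    {r : FixZ F₀ ζ → N} (h : WrP p F₀ C N ζ γ r) :
    ∃ φ : FixZ F₀ (algebraMap C N ζ) →* CP p ≀ᵣ (FixZ F₀ ζ), Function.Injective φ := by
  classical
  have hp0 : NeZero p := ⟨hp.ne_zero⟩
  have hζN : IsPrimitiveRoot (algebraMap C N ζ) p := hζ.map_of_injective (algebraMap C N).injective
  have hres : ∀ (s : N ≃ₐ[F₀] N) (x : C), algebraMap C N (AlgEquiv.restrictNormalHom C s x) =
      s (algebraMap C N x) := fun s x => AlgEquiv.restrictNormal_commutes s C x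
  let ρ : FixZ F₀ (algebraMap C N ζ) →* FixZ F₀ ζ :=
    MonoidHom.codRestrict ((AlgEquiv.restrictNormalHom (F := F₀) (K₁ := N) C).comp
      (FixZ F₀ (algebraMap C N ζ)).subtype) (FixZ F₀ ζ) (by
        intro s
        rw [mem_FixZ]
        apply (algebraMap C N).injective
        show algebraMap C N (AlgEquiv.restrictNormalHom C (s : N ≃ₐ[F₀] N) ζ) = _
        rw [hres]
        exact mem_FixZ.1 s.2)
  have hρ : ∀ (s : FixZ F₀ (algebraMap C N ζ)) (x : C),
      algebraMap C N ((ρ s : C ≃ₐ[F₀] C) x) = (s : N ≃ₐ[F₀] N) (algebraMap C N x) :=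
    fun s x => hres s x
  have hr0 : ∀ g, r g ≠ 0 := by
    intro g h0
    have h1 := h.pow g
    rw [h0, zero_pow hp.ne_zero] at h1
    have h2 : (g : C ≃ₐ[F₀] C) γ = 0 := (map_eq_zero_iff _ (algebraMap C N).injective).1 h1.symm
    exact hγ ((map_eq_zero_iff _ (g : C ≃ₐ[F₀] C).injective).1 h2)
  have hex : ∀ (s : FixZ F₀ (algebraMap C N ζ)) (x : FixZ F₀ ζ), ∃ e : CP p,
      (s : N ≃ₐ[F₀] N) (r ((ρ s)⁻¹ * x)) = w9_z (algebraMap C N ζ) e * r x := by
    intro s x
    have h1 : ((s : N ≃ₐ[F₀] N) (r ((ρ s)⁻¹ * x))) ^ p = (r x) ^ p := by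
      rw [← map_pow, h.pow, ← hρ, h.pow]
      congr 1
      rw [← AlgEquiv.mul_apply]
      have e1 : (ρ s : C ≃ₐ[F₀] C) * (((ρ s)⁻¹ * x : FixZ F₀ ζ) : C ≃ₐ[F₀] C) = x := by
        rw [← Subgroup.coe_mul, mul_inv_cancel_left]
      rw [e1]
    exact w9_of hζN (hr0 x) h1
  choose eps heps using hex
  let ψ : FixZ F₀ (algebraMap C N ζ) →* CP p ≀ᵣ (FixZ F₀ ζ) :=
    { toFun := fun s => ⟨eps s, ρ s⟩
      map_one' := by
        have h1 : eps 1 = 1 := by
          funext x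
          apply w9_inj hζN
          have h2 := heps 1 x
          rw [map_one, inv_one, one_mul] at h2
          have h3 : ((1 : FixZ F₀ (algebraMap C N ζ)) : N ≃ₐ[F₀] N) (r x) = r x := rfl
          rw [h3] at h2
          have h4 : w9_z (algebraMap C N ζ) (eps 1 x) = 1 := by
            have h5 : 1 * r x = w9_z (algebraMap C N ζ) (eps 1 x) * r x := by rw [one_mul]; exact h2
            exact (mul_right_cancel₀ (hr0 x) h5).symm
          rw [h4, Pi.one_apply, w9_one]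
        refine RegularWreathProduct.ext ?_ ?_
        · exact h1
        · exact map_one ρ
      map_mul' := by
        intro s t
        refine RegularWreathProduct.ext ?_ ?_
        · funext x
          change eps (s * t) x = eps s x * eps t ((ρ s)⁻¹ * x)
          apply w9_inj hζN
          have h1 := heps (s * t) x
          have h2 := heps s x
          have h3 := heps t ((ρ s)⁻¹ * x)
          have h4 : (ρ (s * t))⁻¹ * x = (ρ t)⁻¹ * ((ρ s)⁻¹ * x) := by
            rw [map_mul]; group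
          rw [h4] at h1
          have h5 : ((s * t : FixZ F₀ (algebraMap C N ζ)) : N ≃ₐ[F₀] N)
              (r ((ρ t)⁻¹ * ((ρ s)⁻¹ * x))) =
              (s : N ≃ₐ[F₀] N) ((t : N ≃ₐ[F₀] N) (r ((ρ t)⁻¹ * ((ρ s)⁻¹ * x)))) := rfl
          rw [h5, h3, map_mul, w9_map, h2] at h1
          have h6 : w9_z (algebraMap C N ζ) (eps s x) *
              w9_z (algebraMap C N ζ) (eps t ((ρ s)⁻¹ * x)) * r x =
              w9_z (algebraMap C N ζ) (eps (s * t) x) * r x := by rw [← h1]; ring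
          rw [w9_mul hζN.pow_eq_one]
          exact (mul_right_cancel₀ (hr0 x) h6).symm
        · exact map_mul ρ s t }
  refine ⟨ψ, ?_⟩
  rw [injective_iff_map_eq_one]
  intro s hs
  have h1 : ρ s = 1 := congrArg RegularWreathProduct.right hs
  have h2 : ∀ x, eps s x = 1 := fun x => congrFun (congrArg RegularWreathProduct.left hs) x
  have h3 : ∀ x, (s : N ≃ₐ[F₀] N) (r x) = r x := by
    intro x
    have h4 := heps s x
    rwa [h1, inv_one, one_mul, h2, w9_one, one_mul] at h4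
  have h5 : ∀ k : C, (s : N ≃ₐ[F₀] N) (algebraMap C N k) = algebraMap C N k := by
    intro k
    rw [← hρ, h1]; rfl
  let s' : N →ₐ[C] N := { ((s : N ≃ₐ[F₀] N) : N →+* N) with commutes' := h5 }
  have h6 : s' = AlgHom.id C N := by
    apply AlgHom.ext_of_adjoin_eq_top h.gen
    rintro _ ⟨x, rfl⟩
    exact h3 x
  apply Subtype.ext
  ext x
  exact congrArg (fun f : N →ₐ[C] N => f x) h6

theorem wr_iso {p : ℕ} (hp : p.Prime) {F₀ C N : Type} [Field F₀] [Field C] [Field N] [CharZero F₀]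
    [Algebra F₀ C] [Algebra F₀ N] [Algebra C N] [IsScalarTower F₀ C N] [IsGalois F₀ C]
    [FiniteDimensional F₀ N] {ζ γ : C} (hζ : IsPrimitiveRoot ζ p) (hγ : γ ≠ 0)
    {r : FixZ F₀ ζ → N} (h : WrP p F₀ C N ζ γ r)
    (hd : Module.finrank C N = p ^ Nat.card (FixZ F₀ ζ)) :
    Nat.card (FixZ F₀ (algebraMap C N ζ)) = p ^ Nat.card (FixZ F₀ ζ) * Nat.card (FixZ F₀ ζ) ∧
    Nonempty (FixZ F₀ (algebraMap C N ζ) ≃* CP p ≀ᵣ (FixZ F₀ ζ)) := by
  classical
  have hp0 : NeZero p := ⟨hp.ne_zero⟩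
  have hgal : IsGalois F₀ N := h.gal
  have hfC : FiniteDimensional F₀ C := FiniteDimensional.left F₀ C N
  have hfCN : FiniteDimensional C N := FiniteDimensional.right F₀ C N
  have hsur := AlgEquiv.restrictNormalHom_surjective (F := F₀) (K₁ := C) N
  have hres : ∀ (s : N ≃ₐ[F₀] N) (x : C), algebraMap C N (AlgEquiv.restrictNormalHom C s x) =
      s (algebraMap C N x) := fun s x => AlgEquiv.restrictNormal_commutes s C x
  have hcomap : (FixZ F₀ ζ).comap (AlgEquiv.restrictNormalHom (F := F₀) (K₁ := N) C) =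
      FixZ F₀ (algebraMap C N ζ) := by
    ext s
    rw [Subgroup.mem_comap, mem_FixZ, mem_FixZ, ← hres]
    exact ((algebraMap C N).injective.eq_iff).symm
  have hidx : (FixZ F₀ (algebraMap C N ζ)).index = (FixZ F₀ ζ).index := by
    rw [← hcomap]
    exact Subgroup.index_comap_of_surjective _ hsur
  have hfg : Finite (C ≃ₐ[F₀] C) := inferInstance
  have hi0 : (FixZ F₀ ζ).index ≠ 0 := Subgroup.index_ne_zero_of_finite
  have hc1 := Subgroup.card_mul_index (FixZ F₀ (algebraMap C N ζ))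
  have hc2 := Subgroup.card_mul_index (FixZ F₀ ζ)
  rw [hidx, IsGalois.card_aut_eq_finrank F₀ N, ← Module.finrank_mul_finrank F₀ C N, hd,
    ← IsGalois.card_aut_eq_finrank F₀ C, ← hc2] at hc1
  have hcard : Nat.card (FixZ F₀ (algebraMap C N ζ)) =
      p ^ Nat.card (FixZ F₀ ζ) * Nat.card (FixZ F₀ ζ) := by
    apply Nat.eq_of_mul_eq_mul_right (Nat.pos_of_ne_zero hi0)
    rw [hc1]
    ring
  refine ⟨hcard, ?_⟩
  obtain ⟨φ, hφ⟩ := wr_embed hp hζ hγ h
  have hfin : Finite (CP p ≀ᵣ (FixZ F₀ ζ)) := inferInstance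
  have hle : Nat.card (CP p ≀ᵣ (FixZ F₀ ζ)) ≤ Nat.card (FixZ F₀ (algebraMap C N ζ)) := by
    rw [RegularWreathProduct.card, hcard]
    have h2 : Nat.card (CP p) = p := by
      rw [Nat.card_congr (Multiplicative.toAdd), Nat.card_zmod]
    rw [h2]
  exact ⟨MulEquiv.ofBijective φ (hφ.bijective_of_nat_card_le hle)⟩

end H28R
end

-- from Lib.SSG.S.S2
section

/-! # SSG, part S (E4), S: the series over the multiples of an ideal -/

open NumberField IsDedekindDomain

namespace SSG.S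

open H55N H55P

/-! Chunk S2 (S/M). PROOF. tm h s is completely multiplicative (tmH h s). The map a ↦ Q * a is injective on ideals (Q <> 0: mul_left_cancel₀) and its range is {a | a <= Q} (Ideal.dvd_iff_le);
outside the summand is 0 (the if). For a = Q a': Q a' <= c j iff a' <= c j (c j prime, not Q <= c j: IsPrime.mul_le). So the sum is tm h s Q * the smoothed sum: smooth_sum (H55N/H4.lean) with
k = tmH h s (summable: tm_summable h hn s hre), c prime, nonzero (pt3_ne hs), injective (pt3_inj hs), and HasSum.mul_left, Function.Injective.hasSum_iff. Beware of the Decidable instances: convert. -/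

open Classical in
theorem s2_div {K : Type} [Field K] [NumberField K] (h : Ideal (𝓞 K) →*₀ ℂ) (hn : ∀ a, ‖h a‖ ^ 2 ≤ Ideal.absNorm a)
    (Q : Ideal (𝓞 K)) (hQ : Q ≠ ⊥) {m : ℕ} {c : Fin (m + 1) × Fin 2 → Ideal (𝓞 K)} {q : Fin (m + 1) × Fin 2 → ℕ}
    (hs : Smooth c q) (hcp : ∀ i, (c i).IsPrime) (hQc : ∀ j, ¬ Q ≤ c j) (s : ℂ) (hre : 3 / 2 < s.re) :
    HasSum (fun a : Ideal (𝓞 K) => tm h s a * (if a ≤ Q then 1 else 0) * ∏ j, (if a ≤ c j then 1 - (q j : ℂ) else 1))
      (tm h s Q * ((∏ j, (1 - (q j : ℂ) * tm h s (c j))) * ∑' a, tm h s a)) := by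
  have hinj : Function.Injective (fun a : Ideal (𝓞 K) => Q * a) := by
    intro a b hab
    exact mul_left_cancel₀ hQ hab
  have h1 := smooth_sum (tmH h s) (tm_summable h hn s hre) c hcp (pt3_ne hs) (pt3_inj hs) (fun j => (q j : ℂ))
  have h2 := h1.mul_left (tm h s Q)
  rw [← hinj.hasSum_iff]
  · have h6 : ((fun a : Ideal (𝓞 K) => tm h s a * (if a ≤ Q then 1 else 0) * ∏ j, (if a ≤ c j then 1 - (q j : ℂ) else 1)) ∘
        fun a => Q * a) = fun a => tm h s Q * (tmH h s a * ∏ j, (if a ≤ c j then 1 - (q j : ℂ) else 1)) := by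
      funext a
      have h3 : Q * a ≤ Q := Ideal.mul_le_left
      have h4 : tm h s (Q * a) = tm h s Q * tm h s a := (tmH h s).map_mul Q a
      have h5 : ∀ j, (Q * a ≤ c j) = (a ≤ c j) := by
        intro j
        apply propext
        rw [(hcp j).mul_le]
        exact or_iff_right (hQc j)
      simp only [Function.comp, if_pos h3, mul_one, h4, h5, mul_assoc]
      rfl
    rw [h6]
    exact h2
  · intro a ha
    have h3 : ¬ a ≤ Q := by
      intro h4
      apply ha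
      obtain ⟨b, hb⟩ := Ideal.dvd_iff_le.2 h4
      exact ⟨b, hb.symm⟩
    rw [if_neg h3, mul_zero, zero_mul]

end SSG.S
end
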