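import Mathlib
import Pool.Agent.Lib.H1M.PP2.D_H55K_QD
import Pool.Agent.Lib.H1M.PP2.M007
import Pool.Agent.Lib.H1M.PP2.M022
import Pool.Agent.Lib.H1M.PP2.M029
import Pool.Agent.Lib.H1M.PP2.M039
import Pool.Agent.Lib.H1M.PP2.M062
import Pool.Agent.Lib.H1M.PP2.M063
import Pool.Agent.Lib.H1M.PP2.M073
import Pool.Agent.Lib.H1M.PP2.M074

/-! Merged copies (to shorten the build) of Lib.H13R.R1, Lib.H55K.QE1, Lib.H55K.QE2B, Lib.H55K.QE3, Lib.H55K.J2A, Lib.H55K.J3B, Lib.H55K.J3C, Lib.H55K.J6, Lib.H55K.SD, Lib.H55K.SCH, Lib.H55K.SCO. -/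

-- from Lib.H13R.R1
section

/-! # H13R: congruent points, any equation of good reduction -/

open NumberField WeierstrassCurve

namespace H13R

open H35P (WAB Ker GoodW IntW)
open H55K H55K.MG

variable {k : Type} [Field k] [DecidableEq k] {W : WeierstrassCurve k} {V : ValuationSubring k}

/-- xc, yc of a sum of affine points with integral slope is integral: the sum is not in the kernel. -/
theorem r1_sum (hI : IntW W V) {x₁ y₁ x₂ y₂ : k} (h₁ : W.toAffine.Nonsingular x₁ y₁) (h₂ : W.toAffine.Nonsingular x₂ y₂)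
    (hc : ¬ (x₁ = x₂ ∧ y₁ = W.toAffine.negY x₂ y₂)) (hx1 : x₁ ∈ V) (hx2 : x₂ ∈ V)
    (hl : W.toAffine.slope x₁ x₂ y₁ y₂ ∈ V) :
    ¬ Ker V ((Affine.Point.some x₁ y₁ h₁ : W.toAffine.Point) + Affine.Point.some x₂ y₂ h₂) := by
  rw [Affine.Point.add_some hc]
  intro hK
  have hK' : 1 < V.valuation (W.toAffine.addX x₁ x₂ (W.toAffine.slope x₁ x₂ y₁ y₂)) := hK
  refine absurd hK' (not_lt.2 ((V.valuation_le_one_iff _).2 ?_))
  unfold Affine.addX
  exact sub_mem (sub_mem (sub_mem (add_mem (pow_mem hl 2) (mul_mem hI.a1 hl)) hI.a2) hx1) hx2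

omit [DecidableEq k] in
theorem r1_div {a b : k} (ha : a ∈ V) (hb : V.valuation b = 1) : a / b ∈ V := by
  rw [← V.valuation_le_one_iff, map_div₀, hb, div_one]
  exact (V.valuation_le_one_iff _).2 ha

/-- Chunk R1 (M), pure algebra (the converse of H55K.MG.cong_ker, M3A.lean; compare H35P.rd, RD.lean, whose private lemmas RD_le, RD_mul_lt may be copied). P not in Ker, Q - P in Ker. (1) Q is not in Ker: otherwise P = Q - (Q - P) in Ker (H35P.ker_sub h.toIntW). So the coordinates x₁, y₁ of P and x₂, y₂ of Q are in V (int_crd). P - Q in Ker (H35P.ker_neg).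
Write -Q = (x₂, n), n = negY x₂ y₂ = -y₂ - a₁ x₂ - a₃ (in V). P - Q = P + (-Q) (sub_eq_add_neg, Affine.Point.neg_some, Affine.Point.add_some), its x-coordinate is addX x₁ x₂ l = l^2 + a₁ l - a₂ - x₁ - x₂, l the slope of (x₁, y₁), (x₂, n). KEY: if l is in V then addX is in V, so P - Q is not in Ker (unless P + (-Q) = 0 by add_of_Y_eq: then P = Q and the claim is trivial).
(2) V(x₁ - x₂) < 1: otherwise it is 1 (both in V), l = (y₁ - n)/(x₁ - x₂) (slope_of_X_ne) is in V: contradiction. (3) V(y₁ - y₂) < 1: otherwise V(y₁ - y₂) = 1, so P ≠ Q. If x₁ ≠ x₂: the identity (y₁ - n)(y₁ - y₂) = (x₁ - x₂) G with G = x₁^2 + x₁ x₂ + x₂^2 + a₂ (x₁ + x₂) + a₄ - a₁ y₁ (hkey in the proof of unit_diff, from the two equations) gives l = (y₁ - n)/(x₁ - x₂) = G/(y₁ - y₂), in V: contradiction.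
If x₁ = x₂: Affine.Y_eq_of_X_eq gives y₁ = n (y₁ ≠ y₂), P = -Q, P + (-Q) = 2 P, slope_of_Y_ne: l = (3 x₁^2 + 2 a₂ x₁ + a₄ - a₁ y₁)/(y₁ - negY x₁ y₁) and negY x₁ y₁ = y₂ (negY_negY), so l is in V: contradiction. -/
theorem cls_convR (h : GoodW W V) {P Q : W.toAffine.Point} (hP : ¬ Ker V P) (hK : Ker V (Q - P)) : ¬ Ker V Q ∧
    V.valuation (xc Q - xc P) < 1 ∧ V.valuation (yc Q - yc P) < 1 := by
  have hI : IntW W V := h.toIntW
  have hQ : ¬ Ker V Q := by
    intro hQ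
    apply hP
    have h1 := H35P.ker_sub hI _ _ hQ hK
    rwa [sub_sub_cancel] at h1
  refine ⟨hQ, ?_⟩
  obtain ⟨hP0, hPx, hPy⟩ := int_crd h hP
  obtain ⟨hQ0, hQx, hQy⟩ := int_crd h hQ
  have hK2 : Ker V (P - Q) := by
    have h1 := (H35P.ker_neg (Q - P)).2 hK
    rwa [neg_sub] at h1
  rcases P with _ | ⟨x₁, y₁, h₁⟩
  · exact absurd rfl hP0
  rcases Q with _ | ⟨x₂, y₂, h₂⟩
  · exact absurd rfl hQ0
  change V.valuation (x₂ - x₁) < 1 ∧ V.valuation (y₂ - y₁) < 1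
  have hx1 : x₁ ∈ V := hPx
  have hx2 : x₂ ∈ V := hQx
  have hy1 : y₁ ∈ V := hPy
  have hy2 : y₂ ∈ V := hQy
  have hE1 := (Affine.equation_iff ..).1 h₁.1
  have hE2 := (Affine.equation_iff ..).1 h₂.1
  rw [sub_eq_add_neg, Affine.Point.neg_some] at hK2
  have hneg : W.toAffine.negY x₂ y₂ = -y₂ - W.a₁ * x₂ - W.a₃ := rfl
  have hnV : W.toAffine.negY x₂ y₂ ∈ V := by
    rw [hneg]
    exact sub_mem (sub_mem (neg_mem hy2) (mul_mem hI.a1 hx2)) hI.a3
  by_cases hc : x₁ = x₂ ∧ y₁ = W.toAffine.negY x₂ (W.toAffine.negY x₂ y₂)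
  · have hyy : y₁ = y₂ := by rw [hc.2, Affine.negY_negY]
    rw [hc.1, hyy, sub_self, sub_self, map_zero]
    exact ⟨zero_lt_one, zero_lt_one⟩
  have hslope : W.toAffine.slope x₁ x₂ y₁ (W.toAffine.negY x₂ y₂) ∉ V := fun hl =>
    r1_sum hI h₁ ((Affine.nonsingular_neg ..).2 h₂) hc hx1 hx2 hl hK2
  have hXlt : V.valuation (x₁ - x₂) < 1 := by
    refine lt_of_le_of_ne ((V.valuation_le_one_iff _).2 (sub_mem hx1 hx2)) fun he => ?_
    have hne : x₁ ≠ x₂ := by
      rintro rfl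
      rw [sub_self, map_zero] at he
      exact zero_ne_one he
    apply hslope
    rw [Affine.slope_of_X_ne hne]
    exact r1_div (sub_mem hy1 hnV) he
  have hYlt : V.valuation (y₁ - y₂) < 1 := by
    refine lt_of_le_of_ne ((V.valuation_le_one_iff _).2 (sub_mem hy1 hy2)) fun he => ?_
    have hyne : y₁ ≠ y₂ := by
      rintro rfl
      rw [sub_self, map_zero] at he
      exact zero_ne_one he
    by_cases hxx : x₁ = x₂
    · have hneg1 : y₁ = W.toAffine.negY x₂ y₂ := (Affine.Y_eq_of_X_eq h₁.1 h₂.1 hxx).resolve_left hyne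
      have hy' : y₁ ≠ W.toAffine.negY x₂ (W.toAffine.negY x₂ y₂) := fun hh => hc ⟨hxx, hh⟩
      apply hslope
      rw [Affine.slope_of_Y_ne hxx hy']
      have e : y₁ - W.toAffine.negY x₁ y₁ = y₁ - y₂ := by
        have e1 : W.toAffine.negY x₁ y₁ = y₂ := by
          rw [hneg1, hxx, Affine.negY_negY]
        rw [e1]
      rw [e]
      have h2V : (2 : k) ∈ V := by exact_mod_cast natCast_mem V 2
      have h3V : (3 : k) ∈ V := by exact_mod_cast natCast_mem V 3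
      exact r1_div (sub_mem (add_mem (add_mem (mul_mem h3V (pow_mem hx1 2)) (mul_mem (mul_mem h2V hI.a2) hx1)) hI.a4)
        (mul_mem hI.a1 hy1)) he
    · have hxx0 : x₁ - x₂ ≠ 0 := sub_ne_zero.2 hxx
      have hid : (y₁ - W.toAffine.negY x₂ y₂) * (y₁ - y₂) =
          (x₁ - x₂) * (x₁ ^ 2 + x₁ * x₂ + x₂ ^ 2 + W.a₂ * (x₁ + x₂) + W.a₄ - W.a₁ * y₁) := by
        rw [hneg]
        linear_combination hE1 - hE2
      apply hslope
      rw [Affine.slope_of_X_ne hxx]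
      have e : (y₁ - W.toAffine.negY x₂ y₂) / (x₁ - x₂) =
          (x₁ ^ 2 + x₁ * x₂ + x₂ ^ 2 + W.a₂ * (x₁ + x₂) + W.a₄ - W.a₁ * y₁) / (y₁ - y₂) := by
        rw [div_eq_div_iff hxx0 (sub_ne_zero.2 hyne), hid]
        ring
      rw [e]
      exact r1_div (sub_mem (add_mem (add_mem (add_mem (add_mem (pow_mem hx1 2) (mul_mem hx1 hx2)) (pow_mem hx2 2))
        (mul_mem hI.a2 (add_mem hx1 hx2))) hI.a4) (mul_mem hI.a1 hy1)) he
  refine ⟨?_, ?_⟩
  · rw [Valuation.map_sub_swap]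
    exact hXlt
  · rw [Valuation.map_sub_swap]
    exact hYlt

end H13R
end

-- from Lib.H55K.QE1
section

/-! # H55K: a good model over the base field from a rational point -/

open NumberField IsDedekindDomain WeierstrassCurve

namespace H55K.TQ

open H55P (IQ embF eF LF Per IsHecke Pt ac Inert Dec Nm UnitP)
open H35P (WAB Ker tt GoodW IntW)
open H55K.MG (VC Crd)

variable {k : Type} [Field k] {Ω : Type} [Field Ω] [Algebra k Ω] {W : WeierstrassCurve k} {V : ValuationSubring Ω}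
  {W' : WeierstrassCurve Ω} {u r s t : Ω}

theorem qe1_neg [DecidableEq Ω] {W' : WeierstrassCurve Ω} (Q : W'.toAffine.Point) (hQ : Q ≠ 0) :
    xc (-Q) = xc Q ∧ yc (-Q) = W'.toAffine.negY (xc Q) (yc Q) := by
  rcases Q with _ | ⟨x, y, h⟩
  · exact absurd rfl hQ
  · rw [Affine.Point.neg_some]
    exact ⟨rfl, rfl⟩

/-- Chunk QE1 (M). A point P over k with P, 2P, 3P, 4P outside the kernel of reduction of the good model W' over Ω gives a good model over k. Write P = (x, y), 2P = (x₂, y₂) (both nonzero) over k, P' = φ P. Put u₀ = (y₂ - negY x₂ y₂)/(x - x₂), r₀ = x, s₀ = slope of the line through P and 2P, t₀ = y, all in k (x ≠ x₂ because the x-coordinates on W' differ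
by a unit). Over Ω: Θ P' = (x', y'), Θ(2P') = (x₂', y₂') integral (not Ker: MG.int_crd), x = u^2 x' + r, ... (Crd), δ = x' - x₂' is a unit (MG.unit_diff for ΘP', 2ΘP': their difference and sum are ∓ΘP', 3ΘP', not in Ker), η = y₂' - negY' x₂' y₂' is a unit (MG.cong_ker: otherwise 2ΘP' and -2ΘP' are congruent and 4ΘP' is in Ker;
they have the same x-coordinate), λ = slope of W' through ΘP', 2ΘP' = (y' - y₂')/δ is integral. vc_negY, vc_slope (M1A.lean): y₂ - negY x₂ y₂ = u^3 η, x - x₂ = u^2 δ, so u₀ = u e with e = η/δ a unit; s₀ = u λ + s; r₀ = u^2 x' + r, t₀ = u^3 y' + s u^2 x' + t. So (vc_comp) the change (u₀, r₀, s₀, t₀) of W over Ω is the composition of (u, r, s, t)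
with (e, x', λ, y') on W'. W'' over k from vc_ex; its base change is (vc_uniq, vc_map) the curve obtained from W' by (e, x', λ, y') (vc_ex), which is good by vc_good. -/
theorem rat_model [DecidableEq k] [DecidableEq Ω] (hv : VC (W⁄Ω) W' u r s t) (hG : GoodW W' V)
    {Θ : Pt W Ω ≃+ W'.toAffine.Point} (hc : Crd u r s t Θ) {φ : W.toAffine.Point →+ Pt W Ω} (hφ : Inc W φ)
    (P : W.toAffine.Point) (h1 : ¬ Ker V (Θ (φ P))) (h2 : ¬ Ker V (Θ (φ (2 • P)))) (h3 : ¬ Ker V (Θ (φ (3 • P))))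
    (h4 : ¬ Ker V (Θ (φ (4 • P)))) :
    ∃ (W'' : WeierstrassCurve k) (u r s t : k), VC W W'' u r s t ∧ GoodW (W''⁄Ω) V := by
  set Q := Θ (φ P) with hQ
  have hQ2 : Θ (φ (2 • P)) = 2 • Q := by rw [map_nsmul, map_nsmul]
  have hQ3 : Θ (φ (3 • P)) = 3 • Q := by rw [map_nsmul, map_nsmul]
  have hQ4 : Θ (φ (4 • P)) = 4 • Q := by rw [map_nsmul, map_nsmul]
  have hne : ∀ R : W.toAffine.Point, ¬ Ker V (Θ (φ R)) → R ≠ 0 := by
    rintro R hR rfl
    apply hR
    rw [map_zero, map_zero]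
    exact trivial
  have hP0 := hne P h1
  have hP20 := hne _ h2
  obtain ⟨hφ1, hx1, hy1⟩ := hφ P hP0
  obtain ⟨hφ2, hx2, hy2⟩ := hφ _ hP20
  obtain ⟨hΘ1, hX1, hY1⟩ := hc _ hφ1
  obtain ⟨hΘ2, hX2, hY2⟩ := hc _ hφ2
  obtain ⟨-, ix1, iy1⟩ := MG.int_crd hG h1
  obtain ⟨-, ix2, iy2⟩ := MG.int_crd hG h2
  rw [hx1] at hX1
  rw [hy1] at hY1
  rw [hx2] at hX2
  rw [hy2] at hY2
  rw [← hQ] at hX1 hY1
  rw [hQ2] at hX2 hY2 h2 ix2 iy2 hΘ2
  rw [hQ3] at h3
  rw [hQ4] at h4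
  have hu := hv.une
  have hδ : V.valuation (xc Q - xc (2 • Q)) = 1 := by
    apply MG.unit_diff hG h1 h2
    · have e : Q - 2 • Q = -Q := by
        rw [two_nsmul]
        abel
      rw [e]
      exact fun hk => h1 ((H35P.ker_neg Q).1 hk)
    · have e : Q + 2 • Q = 3 • Q := by
        rw [two_nsmul, show (3 : ℕ) = 1 + 1 + 1 from rfl, add_nsmul, add_nsmul, one_nsmul]
        abel
      rw [e]
      exact h3
  obtain ⟨en1, en2⟩ := qe1_neg (2 • Q) hΘ2
  have hnegV : W'.toAffine.negY (xc (2 • Q)) (yc (2 • Q)) ∈ V := by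
    have h5 : ¬ Ker V (-(2 • Q)) := fun hk => h2 ((H35P.ker_neg _).1 hk)
    have h6 := (MG.int_crd hG h5).2.2
    rwa [en2] at h6
  have hη : V.valuation (yc (2 • Q) - W'.toAffine.negY (xc (2 • Q)) (yc (2 • Q))) = 1 := by
    refine le_antisymm ((V.valuation_le_one_iff _).2 (sub_mem iy2 hnegV)) (not_lt.1 fun hlt => ?_)
    apply h4
    have h5 : ¬ Ker V (-(2 • Q)) := fun hk => h2 ((H35P.ker_neg _).1 hk)
    have h6 := MG.cong_ker hG h2 h5 (by
      rw [en1, sub_self, map_zero]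
      exact zero_lt_one) (by
      rw [en2]
      exact hlt)
    have e : (2 : ℕ) • Q - -((2 : ℕ) • Q) = (4 : ℕ) • Q := by
      rw [sub_neg_eq_add, ← add_nsmul]
    rwa [e] at h6
  set x' := xc Q with hx'
  set y' := yc Q with hy'
  set x₂ := xc (2 • Q) with hx₂
  set y₂ := yc (2 • Q) with hy₂
  set δ := x' - x₂ with hδd
  set η := y₂ - W'.toAffine.negY x₂ y₂ with hηd
  have hδ0 : δ ≠ 0 := by
    intro h0
    rw [h0, map_zero] at hδ
    exact zero_ne_one hδ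
  have hη0 : η ≠ 0 := by
    intro h0
    rw [h0, map_zero] at hη
    exact zero_ne_one hη
  set X := xc P with hXd
  set Y := yc P with hYd
  set X₂ := xc (2 • P) with hX₂d
  set Y₂ := yc (2 • P) with hY₂d
  have hdiff : algebraMap k Ω (X - X₂) = u ^ 2 * δ := by
    rw [map_sub, hX1, hX2, hδd]
    ring
  have hdiff0 : X - X₂ ≠ 0 := by
    intro h0
    rw [h0, map_zero] at hdiff
    exact mul_ne_zero (pow_ne_zero 2 hu) hδ0 hdiff.symm
  have hneg : algebraMap k Ω (Y₂ - W.toAffine.negY X₂ Y₂) = u ^ 3 * η := by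
    have e1 : algebraMap k Ω (W.toAffine.negY X₂ Y₂) =
        (W⁄Ω).toAffine.negY (algebraMap k Ω X₂) (algebraMap k Ω Y₂) := by
      unfold Affine.negY
      rw [map_sub, map_sub, map_neg, map_mul]
      rfl
    rw [map_sub, e1, hX2, hY2, MG.vc_negY hv, hηd]
    ring
  have hneg0 : Y₂ - W.toAffine.negY X₂ Y₂ ≠ 0 := by
    intro h0
    rw [h0, map_zero] at hneg
    exact mul_ne_zero (pow_ne_zero 3 hu) hη0 hneg.symm
  have hyd : algebraMap k Ω (Y - Y₂) = u ^ 3 * (y' - y₂) + s * u ^ 2 * δ := by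
    rw [map_sub, hY1, hY2, hδd]
    ring
  obtain ⟨W'', hW''⟩ := vc_ex W (u := (Y₂ - W.toAffine.negY X₂ Y₂) / (X - X₂)) (div_ne_zero hneg0 hdiff0) X
    ((Y - Y₂) / (X - X₂)) Y
  obtain ⟨W₃, hW₃⟩ := vc_ex W' (u := η / δ) (div_ne_zero hη0 hδ0) x' ((y' - y₂) / δ) y'
  have hcomp := vc_comp hv hW₃
  have hmap := vc_map (algebraMap k Ω) hW''
  have eu : algebraMap k Ω ((Y₂ - W.toAffine.negY X₂ Y₂) / (X - X₂)) = u * (η / δ) := by
    rw [map_div₀, hdiff, hneg]
    field_simp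
  have es : algebraMap k Ω ((Y - Y₂) / (X - X₂)) = u * ((y' - y₂) / δ) + s := by
    rw [map_div₀, hdiff, hyd]
    field_simp
  rw [eu, es, hX1, hY1] at hmap
  have heq : W''.map (algebraMap k Ω) = W₃ := vc_uniq hmap hcomp
  refine ⟨W'', _, _, _, _, hW'', ?_⟩
  have hgood : GoodW W₃ V := by
    refine vc_good hW₃ hG ?_ ix1 ?_ iy1
    · rw [map_div₀, hη, hδ, div_one]
    · rw [← V.valuation_le_one_iff, map_div₀, hδ, div_one]
      exact (V.valuation_le_one_iff _).2 (sub_mem iy1 iy2)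
  show GoodW (W''.map (algebraMap k Ω)) V
  rw [heq]
  exact hgood

end H55K.TQ
end

-- from Lib.H55K.QE2B
section

/-! # H55K: the parameter x/y is additive modulo squares -/

open NumberField IsDedekindDomain WeierstrassCurve

namespace H55K.TQ

open H55P (IQ embF eF LF Per IsHecke Pt ac Inert Dec Nm UnitP)
open H35P (WAB Ker tt GoodW IntW)
open H55K.MG (VC Crd)

variable {k : Type} [Field k] [DecidableEq k] {W : WeierstrassCurve k} {V : ValuationSubring k}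

/-- Chunk QE2B (S/M). Induction on n: V(tt (n • T) - n * tt T) ≤ c^2 for c = V(tt T) (tt_add2g for n • T and T with this c: V(tt (n • T)) ≤ c). H35P.FG_ind for the style. -/
theorem tt_smul (hI : IntW W V) {T : W.toAffine.Point} (hT : Ker V T) (n : ℕ) : Ker V (n • T) ∧
    V.valuation (tt (n • T) - n * tt T) ≤ V.valuation (tt T) ^ 2 := by
  have h1 := H35P.tt_lt hI T hT
  have hcc : V.valuation (tt T) ^ 2 ≤ V.valuation (tt T) := by
    rw [sq]
    exact mul_le_of_le_one_left' h1.le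
  induction n with
  | zero =>
    refine ⟨?_, ?_⟩
    · rw [zero_smul]
      exact True.intro
    · rw [zero_smul, H35P.FG_zero, Nat.cast_zero, zero_mul, sub_zero, map_zero]
      exact zero_le'
  | succ n ih =>
    obtain ⟨hk, hv⟩ := ih
    have hc : V.valuation (tt (n • T)) ≤ V.valuation (tt T) := by
      have e : tt (n • T) = (tt (n • T) - n * tt T) + n * tt T := by ring
      rw [e]
      refine (Valuation.map_add _ _ _).trans (max_le (hv.trans hcc) ?_)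
      rw [map_mul]
      exact mul_le_of_le_one_left' (H35P.FG_nat n)
    rw [succ_nsmul]
    refine ⟨H35P.ker_add hI _ _ hk hT, ?_⟩
    have h2 := tt_add2g hI (n • T) T hk hT (V.valuation (tt T)) h1.le hc le_rfl
    have e : tt (n • T + T) - ((n + 1 : ℕ) : k) * tt T =
        (tt (n • T + T) - tt (n • T) - tt T) + (tt (n • T) - n * tt T) := by
      rw [Nat.cast_add, Nat.cast_one]
      ring
    rw [e]
    exact (Valuation.map_add _ _ _).trans (max_le h2 hv)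

/-- Chunk QE2B (S/M). μ = max (V q) (V (tt T)) < 1 is the value of an element; V(tt (q • T')) ≤ μ V(tt T') for all multiples T' = q^i • T (V(tt T') ≤ V(tt T)); induction: V(tt (q^n • T)) ≤ μ^n V(tt T) ≤ μ^n; Arch. -/
theorem tt_small (hI : IntW W V) (hA : Arch V) {T : W.toAffine.Point} (hT : Ker V T) {q : ℕ}
    (hq : V.valuation (q : k) < 1) {c : k} (hc : c ≠ 0) : ∃ n : ℕ, V.valuation (tt (q ^ n • T)) < V.valuation c := by
  have h1 := H35P.tt_lt hI T hT
  obtain ⟨b, hb1, hb2, hb3⟩ : ∃ b : k, V.valuation b < 1 ∧ V.valuation (q : k) ≤ V.valuation b ∧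
      V.valuation (tt T) ≤ V.valuation b := by
    rcases le_total (V.valuation (q : k)) (V.valuation (tt T)) with h | h
    · exact ⟨tt T, h1, h, le_rfl⟩
    · exact ⟨(q : k), hq, le_rfl, h⟩
  have key : ∀ n : ℕ, Ker V (q ^ n • T) ∧ V.valuation (tt (q ^ n • T)) ≤ V.valuation (tt T) ∧
      V.valuation (tt (q ^ n • T)) ≤ V.valuation b ^ n := by
    intro n
    induction n with
    | zero =>
      rw [pow_zero, one_smul, pow_zero]
      exact ⟨hT, le_rfl, h1.le⟩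
    | succ n ih =>
      obtain ⟨i1, i2, i3⟩ := ih
      rw [pow_succ', mul_smul]
      obtain ⟨j1, j2⟩ := tt_smul hI i1 q
      have j3 : V.valuation (tt (q • q ^ n • T)) ≤ V.valuation b * V.valuation (tt (q ^ n • T)) := by
        have e : tt (q • q ^ n • T) = (tt (q • q ^ n • T) - q * tt (q ^ n • T)) + q * tt (q ^ n • T) := by ring
        rw [e]
        refine (Valuation.map_add _ _ _).trans (max_le (j2.trans ?_) ?_)
        · rw [sq]
          exact mul_le_mul_left (i2.trans hb3) _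
        · rw [map_mul]
          exact mul_le_mul_left hb2 _
      refine ⟨j1, (j3.trans (mul_le_of_le_one_left' hb1.le)).trans i2, ?_⟩
      rw [pow_succ']
      exact j3.trans (mul_le_mul_right i3 _)
  obtain ⟨n, hn⟩ := hA b c hb1 hc
  exact ⟨n, (key n).2.2.trans_lt hn⟩

end H55K.TQ
end

-- from Lib.H55K.QE3
section

/-! # H55K: rational points in the kernel of reduction of the good model -/

open NumberField IsDedekindDomain WeierstrassCurve

namespace H55K.TQ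

open H55P (IQ embF eF LF Per IsHecke Pt ac Inert Dec Nm UnitP)
open H35P (WAB Ker tt GoodW IntW)
open H55K.MG (VC Crd)

variable {k : Type} [Field k] {Ω : Type} [Field Ω] [Algebra k Ω] {W : WeierstrassCurve k} {V : ValuationSubring Ω}
  {W' : WeierstrassCurve Ω} {u r s t : Ω}

theorem qe3_sq [DecidableEq Ω] (hI : IntW W' V) {T : W'.toAffine.Point} (hT : Ker V T) (h0 : T ≠ 0) :
    V.valuation (tt T) ^ 2 * V.valuation (xc T) = 1 := by
  rcases T with _ | ⟨x, y, h⟩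
  · exact absurd rfl h0
  · exact H35P.tt_sq hI h hT

/-- Chunk QE3 (M). R' = Θ (φ R) is in Ker V. q^n • R' for n from tt_small with c ≠ 0 such that V(c) ≤ 1, V(u)^2 V(c)^-2 > max 1 V(r): take c with V(c)^2 < V(u)^2 and V(c)^2 V(r) < V(u)^2, V(c) ≤ 1 (for example c = u * c' with V(c') < 1 small by Arch of powers of q, or c = q^N: V(q)^N small). Then for S = q^n • R ≠ 0: X' = xc (Θ (φ S)), V(X') = V(tt)^-2 > V(c)^-2
(H35P.tt_sq), xc (φ S) = u^2 X' + r (Crd), V(u^2 X') > V(r) and > 1, so V(xc (φ S)) > 1, xc (φ S) = algebraMap (xc S): V₀(xc S) > 1, S in Ker V₀ (MG.ker_crd). S = 0: clear. -/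
theorem contract [DecidableEq k] [DecidableEq Ω] {V₀ : ValuationSubring k} (hV : ∀ x : k, algebraMap k Ω x ∈ V ↔ x ∈ V₀)
    (hA : Arch V) (hG : GoodW W' V) {Θ : Pt W Ω ≃+ W'.toAffine.Point} (hu : u ≠ 0) (hc : Crd u r s t Θ)
    {φ : W.toAffine.Point →+ Pt W Ω} (hφ : Inc W φ) {q : ℕ} (hq : V.valuation (q : Ω) < 1) (R : W.toAffine.Point)
    (hR : Ker V (Θ (φ R))) : ∃ n : ℕ, Ker V₀ (q ^ n • R) := by
  have hI := hG.toIntW
  have hex : ∃ c : Ω, c ≠ 0 ∧ V.valuation c ≤ V.valuation u ∧ V.valuation c * V.valuation r ≤ V.valuation u := by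
    by_cases hr : V.valuation r ≤ 1
    · exact ⟨u, hu, le_rfl, mul_le_of_le_one_right' hr⟩
    · have hr1 : 1 < V.valuation r := not_le.1 hr
      have hr0 : r ≠ 0 := by
        rintro rfl
        rw [map_zero] at hr1
        exact not_lt_zero hr1
      have hvr : V.valuation r ≠ 0 := (Valuation.ne_zero_iff _).2 hr0
      refine ⟨u / r, div_ne_zero hu hr0, ?_, ?_⟩
      · rw [map_div₀]
        rw [div_le_iff₀ (zero_lt_iff.2 hvr)]
        exact le_mul_of_one_le_right' hr1.le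
      · rw [map_div₀, div_mul_cancel₀ _ hvr]
  obtain ⟨c, hc0, hcu, hcr⟩ := hex
  obtain ⟨n, hn⟩ := tt_small hI hA hR hq hc0
  refine ⟨n, ?_⟩
  have hS : Θ (φ (q ^ n • R)) = q ^ n • Θ (φ R) := by rw [map_nsmul, map_nsmul]
  rw [← hS] at hn
  have hK : Ker V (Θ (φ (q ^ n • R))) := by
    rw [hS]
    exact (tt_smul hI hR (q ^ n)).1
  by_cases h0 : q ^ n • R = 0
  · rw [h0]
    exact trivial
  obtain ⟨hφ0, hφx, -⟩ := hφ _ h0
  obtain ⟨hΘ0, hΘx, -⟩ := hc _ hφ0
  have hsq := qe3_sq hI hK hΘ0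
  rw [hφx] at hΘx
  set X' := xc (Θ (φ (q ^ n • R))) with hX'
  set τ := V.valuation (tt (Θ (φ (q ^ n • R)))) with hτ
  have hvu : V.valuation u ≠ 0 := (Valuation.ne_zero_iff _).2 hu
  have hvc : V.valuation c ≠ 0 := (Valuation.ne_zero_iff _).2 hc0
  have hX'0 : V.valuation X' ≠ 0 := by
    intro h1
    rw [h1, mul_zero] at hsq
    exact zero_ne_one hsq
  have hτ2 : τ ^ 2 < V.valuation c ^ 2 := by
    gcongr
    exact zero_le
  have h1 : 1 < V.valuation c ^ 2 * V.valuation X' := by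
    rw [← hsq]
    exact mul_lt_mul_of_pos_right hτ2 (zero_lt_iff.2 hX'0)
  have h2 : V.valuation (u ^ 2 * X') = V.valuation u ^ 2 * V.valuation X' := by
    rw [map_mul, map_pow]
  have h3 : 1 < V.valuation (u ^ 2 * X') := by
    rw [h2]
    refine h1.trans_le ?_
    gcongr
  have h4 : V.valuation r < V.valuation (u ^ 2 * X') := by
    rw [h2]
    by_cases hr : V.valuation r ≤ 1
    · rw [h2] at h3
      exact hr.trans_lt h3
    · have hr1 : 1 < V.valuation r := not_le.1 hr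
      have h5 : V.valuation r < V.valuation r ^ 2 * (V.valuation c ^ 2 * V.valuation X') := by
        have h6 : V.valuation r ≤ V.valuation r ^ 2 := by
          rw [sq]
          exact le_mul_of_one_le_right' hr1.le
        have h7 : (0 : V.ValueGroup) < V.valuation r ^ 2 :=
          zero_lt_iff.2 (pow_ne_zero 2 (zero_lt_one.trans hr1).ne')
        exact h6.trans_lt (lt_mul_of_one_lt_right h7 h1)
      refine h5.trans_le ?_
      rw [← mul_assoc, ← mul_pow]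
      gcongr
      rw [mul_comm]
      exact hcr
  have h5 : 1 < V.valuation (algebraMap k Ω (xc (q ^ n • R))) := by
    rw [hΘx, Valuation.map_add_eq_of_lt_left V.valuation h4]
    exact h3
  rw [MG.ker_crd h0]
  rw [← not_le, V₀.valuation_le_one_iff, ← hV, ← V.valuation_le_one_iff, not_le]
  exact h5

end H55K.TQ
end

-- from Lib.H55K.J2A
section

open NumberField WeierstrassCurve

namespace H55K.JJ

open H35P (WAB Ker IntW)

variable {k : Type} [Field k] [DecidableEq k] {W : WeierstrassCurve k} {V : ValuationSubring k}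

/-! Chunk J2A (M). P = (x1, y1), Q = (x2, y2) units, x1 - x2 a unit, l = (y1 - y2)/(x1 - x2) in V, m = y1 - l x1 in V. V(m) = 1: otherwise Y_i = L X_i (residues), X_i^2 (L^2 + L) = X_i^3, X_1 = L^2 + L = X_2: contradiction.
H35P.vieta (a1 = 1, a2 = a3 = 0): e1 = l^2 + l, e2 = a4 - 2lm - m, e3 = m^2 - a6, y_i = l x_i + m (i = 1, 2), y3 := l x3 + m = negAddY. prod y_i = m^3 + a4 m l^2 - a6 l^3, prod (y_i + x_i) = m^3 + a4 m (l+1)^2 - a6 (l+1)^3
(linear_combination from vieta; coefficients l^3, l^2 m, l m^2 resp. (l+1)^3, (l+1)^2 m, (l+1) m^2): both have residue M^3 <> 0. x3 = e1 - x1 - x2 in V, y3 in V: all y_i, y_i + x_i are units, and y3 (y3 + x3) = x3^3 + a4 x3 + a6 (the point (x3, y3) is on the curve: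
its negative is P + Q) gives V(x3) = 1: Fn (P + Q), xc (P+Q) = x3, yc (P + Q) = negY x3 y3 = -y3 - x3, ub (P + Q) = Y3/(Y3 + X3) = (Y1 + X1)(Y2 + X2)/(Y1 Y2) = ub P * ub Q. -/

theorem fn_add (h : Nod W V) {P Q : W.toAffine.Point} (hP : Fn V P) (hQ : Fn V Q)
    (hx : rs V (xc P) ≠ rs V (xc Q)) : Fn V (P + Q) ∧ ub V (P + Q) = ub V P * ub V Q := by
  obtain ⟨P0, px, py, pv, pw⟩ := fn_crd h hP
  obtain ⟨Q0, qx, qy, qv, qw⟩ := fn_crd h hQ
  obtain ⟨-, -, -, -, -, uP⟩ := fn_ub h hP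
  obtain ⟨-, -, -, -, -, uQ⟩ := fn_ub h hQ
  obtain ⟨p, hp⟩ : ∃ p, p = ub V P := ⟨_, rfl⟩
  obtain ⟨q, hq⟩ : ∃ q, q = ub V Q := ⟨_, rfl⟩
  rw [← hp] at uP ⊢
  rw [← hq] at uQ ⊢
  rcases P with _ | ⟨x1, y1, n1⟩
  · exact absurd rfl P0
  rcases Q with _ | ⟨x2, y2, n2⟩
  · exact absurd rfl Q0
  change x1 ∈ V at px
  change y1 ∈ V at py
  change V.valuation y1 = 1 at pv
  change x2 ∈ V at qx
  change y2 ∈ V at qy
  change V.valuation y2 = 1 at qv
  change rs V x1 ≠ rs V x2 at hx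
  change rs V y1 * (p - 1) = rs V x1 at uP
  change rs V y2 * (q - 1) = rs V x2 at uQ
  have hX1 : rs V x1 ≠ 0 := (rs_ne_zero px).2 hP
  have hX2 : rs V x2 ≠ 0 := (rs_ne_zero qx).2 hQ
  have hY1 : rs V y1 ≠ 0 := (rs_ne_zero py).2 pv
  have hY2 : rs V y2 ≠ 0 := (rs_ne_zero qy).2 qv
  have hxne : x1 ≠ x2 := fun e => hx (by rw [e])
  have hv : V.valuation (x1 - x2) = 1 := by
    refine le_antisymm ((V.valuation_le_one_iff _).2 (V.sub_mem px qx)) (not_lt.1 fun e => hx ?_)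
    exact (rs_eq px qx).2 e
  obtain ⟨l, hl⟩ : ∃ l, l = W.toAffine.slope x1 x2 y1 y2 := ⟨_, rfl⟩
  have hlV : l ∈ V := by
    rw [hl, Affine.slope_of_X_ne hxne, ← V.valuation_le_one_iff, map_div₀, hv, div_one]
    exact (V.valuation_le_one_iff _).2 (V.sub_mem py qy)
  obtain ⟨m, hm⟩ : ∃ m, m = y1 - l * x1 := ⟨_, rfl⟩
  have hmV : m ∈ V := by
    rw [hm]
    exact V.sub_mem py (V.mul_mem _ _ hlV px)
  obtain ⟨x3, hx3⟩ : ∃ x3, x3 = W.toAffine.addX x1 x2 l := ⟨_, rfl⟩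
  obtain ⟨e1, e2, e3, f1, f2, f3, -⟩ := H35P.vieta n1.1 n2.1 (fun e => hxne e.1) l m x3 hl hm hx3
  have c1 := (Affine.equation_iff x1 y1).1 n1.1
  have c2 := (Affine.equation_iff x2 y2).1 n2.1
  have a1 : W.toAffine.a₁ = 1 := h.a1
  have a2 : W.toAffine.a₂ = 0 := h.a2
  have a3 : W.toAffine.a₃ = 0 := h.a3
  rw [h.a1, h.a2] at e1
  rw [h.a1, h.a3] at e2
  rw [h.a3] at e3
  rw [a1, a2, a3] at c1 c2
  have ha4 : W.a₄ ∈ V := (V.valuation_le_one_iff _).1 h.a4.le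
  have ha6 : W.a₆ ∈ V := (V.valuation_le_one_iff _).1 h.a6.le
  have hx3V : x3 ∈ V := by
    have : x3 = l ^ 2 + 1 * l - 0 - x1 - x2 := by linear_combination e1
    rw [this]
    exact V.sub_mem (V.sub_mem (V.sub_mem (V.add_mem _ _ (pow_mem hlV 2) (V.mul_mem _ _ V.one_mem hlV)) V.zero_mem) px) qx
  have hadd : (Affine.Point.some x1 y1 n1 + Affine.Point.some x2 y2 n2 : W.toAffine.Point) =
      Affine.Point.some _ _ (Affine.nonsingular_add n1 n2 fun hxy => hxne hxy.left) := Affine.Point.add_of_X_ne hxne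
  have hxc : xc (Affine.Point.some x1 y1 n1 + Affine.Point.some x2 y2 n2 : W.toAffine.Point) = x3 := by
    rw [hadd, hx3, hl]
    rfl
  have hyc : yc (Affine.Point.some x1 y1 n1 + Affine.Point.some x2 y2 n2 : W.toAffine.Point) =
      -(l * x3 + m) - x3 := by
    rw [hadd]
    change W.toAffine.addY x1 x2 y1 (W.toAffine.slope x1 x2 y1 y2) = _
    rw [← hl, Affine.addY, f3, ← hx3, Affine.negY, a1, a3]
    ring
  -- the residues
  obtain ⟨R, hR⟩ : ∃ R, R = IsLocalRing.residue V := ⟨_, rfl⟩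
  have hrs : ∀ x (hx : x ∈ V), rs V x = R ⟨x, hx⟩ := fun x hx => by rw [hR, rs_of hx]
  have r4 : R ⟨W.a₄, ha4⟩ = 0 := by
    rw [← hrs, rs_eq_zero ha4]
    exact h.a4
  have r6 : R ⟨W.a₆, ha6⟩ = 0 := by
    rw [← hrs, rs_eq_zero ha6]
    exact h.a6
  have k1 := congrArg R (show (⟨x1, px⟩ + ⟨x2, qx⟩ + ⟨x3, hx3V⟩ : V) = ⟨l, hlV⟩ ^ 2 + ⟨l, hlV⟩ from
    Subtype.ext (show x1 + x2 + x3 = l ^ 2 + l by linear_combination e1))
  have k2 := congrArg R (show (⟨x1, px⟩ * ⟨x2, qx⟩ + ⟨x1, px⟩ * ⟨x3, hx3V⟩ + ⟨x2, qx⟩ * ⟨x3, hx3V⟩ : V) =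
    ⟨W.a₄, ha4⟩ - 2 * ⟨l, hlV⟩ * ⟨m, hmV⟩ - ⟨m, hmV⟩ from
    Subtype.ext (show x1 * x2 + x1 * x3 + x2 * x3 = W.a₄ - 2 * l * m - m by linear_combination e2))
  have k3 := congrArg R (show (⟨x1, px⟩ * ⟨x2, qx⟩ * ⟨x3, hx3V⟩ : V) = ⟨m, hmV⟩ ^ 2 - ⟨W.a₆, ha6⟩ from
    Subtype.ext (show x1 * x2 * x3 = m ^ 2 - W.a₆ by linear_combination e3))
  have k4 := congrArg R (show (⟨y1, py⟩ : V) = ⟨l, hlV⟩ * ⟨x1, px⟩ + ⟨m, hmV⟩ from
    Subtype.ext (show y1 = l * x1 + m from f1))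
  have k5 := congrArg R (show (⟨y2, qy⟩ : V) = ⟨l, hlV⟩ * ⟨x2, qx⟩ + ⟨m, hmV⟩ from
    Subtype.ext (show y2 = l * x2 + m from f2))
  have k6 := congrArg R (show (⟨y1, py⟩ ^ 2 + ⟨x1, px⟩ * ⟨y1, py⟩ : V) = ⟨x1, px⟩ ^ 3 + ⟨W.a₄, ha4⟩ * ⟨x1, px⟩ +
    ⟨W.a₆, ha6⟩ from Subtype.ext (show y1 ^ 2 + x1 * y1 = x1 ^ 3 + W.a₄ * x1 + W.a₆ by linear_combination c1))
  have k7 := congrArg R (show (⟨y2, qy⟩ ^ 2 + ⟨x2, qx⟩ * ⟨y2, qy⟩ : V) = ⟨x2, qx⟩ ^ 3 + ⟨W.a₄, ha4⟩ * ⟨x2, qx⟩ +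
    ⟨W.a₆, ha6⟩ from Subtype.ext (show y2 ^ 2 + x2 * y2 = x2 ^ 3 + W.a₄ * x2 + W.a₆ by linear_combination c2))
  simp only [map_add, map_mul, map_sub, map_pow, map_ofNat, r4, r6, zero_mul, add_zero, zero_sub, sub_zero] at k1 k2 k3 k4 k5 k6 k7
  rw [hrs _ px] at hX1 hx uP
  rw [hrs _ qx] at hX2 hx uQ
  rw [hrs _ py] at hY1 uP
  rw [hrs _ qy] at hY2 uQ
  obtain ⟨X1, hX1d⟩ : ∃ X, X = R ⟨x1, px⟩ := ⟨_, rfl⟩
  obtain ⟨X2, hX2d⟩ : ∃ X, X = R ⟨x2, qx⟩ := ⟨_, rfl⟩
  obtain ⟨X3, hX3d⟩ : ∃ X, X = R ⟨x3, hx3V⟩ := ⟨_, rfl⟩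
  obtain ⟨Y1, hY1d⟩ : ∃ X, X = R ⟨y1, py⟩ := ⟨_, rfl⟩
  obtain ⟨Y2, hY2d⟩ : ∃ X, X = R ⟨y2, qy⟩ := ⟨_, rfl⟩
  obtain ⟨L, hLd⟩ : ∃ X, X = R ⟨l, hlV⟩ := ⟨_, rfl⟩
  obtain ⟨M, hMd⟩ : ∃ X, X = R ⟨m, hmV⟩ := ⟨_, rfl⟩
  rw [← hX1d, ← hX2d, ← hX3d, ← hLd] at k1
  rw [← hX1d, ← hX2d, ← hX3d, ← hLd, ← hMd] at k2
  rw [← hX1d, ← hX2d, ← hX3d, ← hMd] at k3
  rw [← hX1d, ← hY1d, ← hLd, ← hMd] at k4
  rw [← hX2d, ← hY2d, ← hLd, ← hMd] at k5
  rw [← hX1d, ← hY1d] at k6
  rw [← hX2d, ← hY2d] at k7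
  rw [← hX1d] at hX1
  rw [← hX2d] at hX2
  rw [← hX1d, ← hX2d] at hx
  rw [← hX1d, ← hY1d] at uP
  rw [← hX2d, ← hY2d] at uQ
  rw [← hY1d] at hY1
  rw [← hY2d] at hY2
  have hM0 : M ≠ 0 := by
    intro hM
    apply hx
    have g1 : X1 = L ^ 2 + L := by
      have : X1 ^ 2 * (X1 - (L ^ 2 + L)) = 0 := by
        rw [k4, hM] at k6
        linear_combination -k6
      exact sub_eq_zero.1 ((mul_eq_zero.1 this).resolve_left (pow_ne_zero 2 hX1))
    have g2 : X2 = L ^ 2 + L := by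
      have : X2 ^ 2 * (X2 - (L ^ 2 + L)) = 0 := by
        rw [k5, hM] at k7
        linear_combination -k7
      exact sub_eq_zero.1 ((mul_eq_zero.1 this).resolve_left (pow_ne_zero 2 hX2))
    rw [g1, g2]
  obtain ⟨Y3, hY3⟩ : ∃ Y3, Y3 = L * X3 + M := ⟨_, rfl⟩
  have p1 : Y1 * Y2 * Y3 = M ^ 3 := by
    rw [k4, k5, hY3]
    linear_combination L ^ 3 * k3 + L ^ 2 * M * k2 + L * M ^ 2 * k1
  have p2 : (Y1 + X1) * (Y2 + X2) * (Y3 + X3) = M ^ 3 := by
    rw [k4, k5, hY3]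
    linear_combination (L + 1) ^ 3 * k3 + (L + 1) ^ 2 * M * k2 + (L + 1) * M ^ 2 * k1
  have hY30 : Y3 ≠ 0 := by
    intro e
    rw [e, mul_zero] at p1
    exact pow_ne_zero 3 hM0 p1.symm
  have hYX30 : Y3 + X3 ≠ 0 := by
    intro e
    rw [e, mul_zero] at p2
    exact pow_ne_zero 3 hM0 p2.symm
  have p3 : Y3 * (Y3 + X3) = X3 ^ 3 := by
    rw [hY3]
    linear_combination (-X3 ^ 2) * k1 + X3 * k2 - k3
  have hX30 : X3 ≠ 0 := by
    intro e
    rw [e] at p3 hYX30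
    have := mul_ne_zero hY30 hYX30
    rw [p3] at this
    exact this (by ring)
  have hFn : Fn V (Affine.Point.some x1 y1 n1 + Affine.Point.some x2 y2 n2 : W.toAffine.Point) := by
    unfold Fn
    rw [hxc, ← rs_ne_zero hx3V, hrs _ hx3V, ← hX3d]
    exact hX30
  refine ⟨hFn, ?_⟩
  obtain ⟨-, -, -, -, -, uR⟩ := fn_ub h hFn
  have hy3V : -(l * x3 + m) - x3 ∈ V :=
    V.sub_mem (V.neg_mem _ (V.add_mem _ _ (V.mul_mem _ _ hlV hx3V) hmV)) hx3V
  have k8 := congrArg R (show (⟨-(l * x3 + m) - x3, hy3V⟩ : V) = -(⟨l, hlV⟩ * ⟨x3, hx3V⟩ + ⟨m, hmV⟩) - ⟨x3, hx3V⟩ from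
    Subtype.ext rfl)
  simp only [map_add, map_mul, map_sub, map_neg] at k8
  rw [← hX3d, ← hLd, ← hMd, ← hY3] at k8
  rw [hyc, hxc, hrs _ hy3V, k8, hrs _ hx3V, ← hX3d] at uR
  obtain ⟨w, hw⟩ : ∃ w, w = ub V (Affine.Point.some x1 y1 n1 + Affine.Point.some x2 y2 n2 : W.toAffine.Point) := ⟨_, rfl⟩
  rw [← hw] at uR ⊢
  have fin : Y1 * Y2 * (Y3 + X3) * (w - p * q) = 0 := by
    have u1 : (Y3 + X3) * w = Y3 := by linear_combination -uR
    have u2 : Y1 * p = Y1 + X1 := by linear_combination uP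
    have u3 : Y2 * q = Y2 + X2 := by linear_combination uQ
    calc Y1 * Y2 * (Y3 + X3) * (w - p * q) = Y1 * Y2 * ((Y3 + X3) * w) - (Y1 * p) * (Y2 * q) * (Y3 + X3) := by ring
      _ = Y1 * Y2 * Y3 - (Y1 + X1) * (Y2 + X2) * (Y3 + X3) := by rw [u1, u2, u3]
      _ = 0 := by rw [p1, p2, sub_self]
  exact sub_eq_zero.1 ((mul_eq_zero.1 fin).resolve_left (mul_ne_zero (mul_ne_zero hY1 hY2) hYX30))

end H55K.JJ
end

-- from Lib.H55K.J3B
section

open NumberField WeierstrassCurve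

namespace H55K.JJ

open H35P (WAB Ker IntW)

variable {k : Type} [Field k] [DecidableEq k] [IsAlgClosed k] {W : WeierstrassCurve k} {V : ValuationSubring k}

theorem j3b_xu {κ : Type} [Field κ] {u w : κ} (hu : u ≠ 1) (hw : w ≠ 1) (h : xu u = xu w) : u = w ∨ u * w = 1 := by
  unfold xu at h
  have h1 : (u - 1) ^ 2 ≠ 0 := pow_ne_zero 2 (sub_ne_zero.2 hu)
  have h2 : (w - 1) ^ 2 ≠ 0 := pow_ne_zero 2 (sub_ne_zero.2 hw)
  rw [div_eq_div_iff h1 h2] at h
  have h3 : (u - w) * (u * w - 1) = 0 := by linear_combination -h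
  rcases mul_eq_zero.1 h3 with h4 | h4
  · exact Or.inl (sub_eq_zero.1 h4)
  · exact Or.inr (sub_eq_zero.1 h4)

theorem j3b_w {κ : Type} [Field κ] [Infinite κ] (a b : κ) (ha : a ≠ 0) :
    ∃ w : κ, w ≠ 0 ∧ w ≠ 1 ∧ w ≠ a ∧ w ≠ a⁻¹ ∧ w ≠ b ∧ w ≠ b⁻¹ ∧ a * w ^ 2 ≠ b := by
  classical
  have hfin : {w : κ | a * w ^ 2 = b}.Finite := by
    by_cases hex : ∃ w₀, a * w₀ ^ 2 = b
    · obtain ⟨w₀, h0⟩ := hex
      refine (Set.toFinite ({w₀, -w₀} : Set κ)).subset ?_
      intro w hw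
      have hw' : a * w ^ 2 = b := hw
      have h1 : w ^ 2 = w₀ ^ 2 := mul_left_cancel₀ ha (by rw [hw', h0])
      rcases sq_eq_sq_iff_eq_or_eq_neg.1 h1 with h2 | h2
      · exact Or.inl h2
      · exact Or.inr h2
    · refine Set.finite_empty.subset ?_
      intro w hw
      exact absurd ⟨w, hw⟩ hex
  have hT : (({0, 1, a, a⁻¹, b, b⁻¹} : Set κ) ∪ {w : κ | a * w ^ 2 = b}).Finite := (Set.toFinite _).union hfin
  obtain ⟨w, hw⟩ := hT.exists_notMem
  rw [Set.mem_union, not_or] at hw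
  obtain ⟨h1, h2⟩ := hw
  simp only [Set.mem_insert_iff, Set.mem_singleton_iff, not_or] at h1
  exact ⟨w, h1.1, h1.2.1, h1.2.2.1, h1.2.2.2.1, h1.2.2.2.2.1, h1.2.2.2.2.2, h2⟩

/-! Chunk J3B (M). xu_eq: xu u = xu w iff u = w or u w = 1 (u, w <> 1, <> 0). ub_mul: a = ub P, b = ub Q, a b <> 1. Choose w in the infinite residue field (res_inf) outside the finite set of the w with w = 0, w = 1, w = a, a w = 1, b w = 1, w = b,
a w^2 = b (at most 2 roots of a nonzero polynomial), R with ub R = w (ex_fn). fn_add for (P, R): P1 = P + R, ub = a w; for (Q, -R) (fn_neg): P2 = Q - R, ub = b w^(-1); for (P1, P2): a w <> b w^(-1), a w b w^(-1) = a b <> 1: P1 + P2 = P + Q.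
ub_mul': if ub P * ub Q = 1 then ub P = ub (-Q), so Ker (P + Q) (rd_fn). ker_shift: P in Ker, R in Fn: P + R is in E0 (e0_add, e0_iff), not in Ker (R = (P + R) - P, H35P.ker_sub), so Fn. If ub (P + R) <> ub R then ub_mul for (P + R, -R) gives Fn P:
contradiction (ker_fn). -/
theorem ub_mul (h : Nod W V) (hΔ : W.Δ ≠ 0) {P Q : W.toAffine.Point} (hP : Fn V P) (hQ : Fn V Q)
    (hu : ub V P * ub V Q ≠ 1) : Fn V (P + Q) ∧ ub V (P + Q) = ub V P * ub V Q := by
  have := res_inf V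
  obtain ⟨-, a0, a1, a2, -, -⟩ := fn_ub h hP
  obtain ⟨-, b0, b1, b2, -, -⟩ := fn_ub h hQ
  obtain ⟨w, w0, w1, wa, wa', wb, wb', wab⟩ := j3b_w (ub V P) (ub V Q) a0
  obtain ⟨R, hR, hRw⟩ := ex_fn h hΔ w0 w1
  obtain ⟨-, r0, r1, r2, -, -⟩ := fn_ub h hR
  obtain ⟨hnR, hnRu⟩ := fn_neg h hR
  obtain ⟨-, n0, n1, n2, -, -⟩ := fn_ub h hnR
  have h1 : rs V (xc P) ≠ rs V (xc R) := by
    rw [a2, r2]
    intro e
    rcases j3b_xu a1 r1 e with e1 | e1
    · rw [hRw] at e1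
      exact wa e1.symm
    · rw [hRw] at e1
      exact wa' (eq_inv_of_mul_eq_one_right e1)
  obtain ⟨hP1, hu1⟩ := fn_add h hP hR h1
  have h2 : rs V (xc Q) ≠ rs V (xc (-R)) := by
    rw [b2, n2]
    intro e
    rcases j3b_xu b1 n1 e with e1 | e1
    · rw [hnRu, hRw] at e1
      apply wb'
      rw [e1, inv_inv]
    · rw [hnRu, hRw] at e1
      have e2 := eq_inv_of_mul_eq_one_left e1
      rw [inv_inv] at e2
      exact wb e2.symm
  obtain ⟨hP2, hu2⟩ := fn_add h hQ hnR h2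
  obtain ⟨-, -, c1, c2, -, -⟩ := fn_ub h hP1
  obtain ⟨-, -, d1, d2, -, -⟩ := fn_ub h hP2
  have h3 : rs V (xc (P + R)) ≠ rs V (xc (Q + -R)) := by
    rw [c2, d2]
    intro e
    rcases j3b_xu c1 d1 e with e1 | e1
    · rw [hu1, hu2, hnRu, hRw] at e1
      apply wab
      have e2 : ub V P * w * w = ub V Q * w⁻¹ * w := by rw [e1]
      rw [inv_mul_cancel_right₀ w0] at e2
      rw [← e2]
      ring
    · rw [hu1, hu2, hnRu, hRw] at e1
      apply hu
      rw [← e1]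
      field_simp
  obtain ⟨hs, hus⟩ := fn_add h hP1 hP2 h3
  have e : P + R + (Q + -R) = P + Q := by abel
  rw [e] at hs hus
  refine ⟨hs, ?_⟩
  rw [hus, hu1, hu2, hnRu, hRw]
  field_simp

theorem ub_mul' (h : Nod W V) (hΔ : W.Δ ≠ 0) {P Q : W.toAffine.Point} (hP : Fn V P) (hQ : Fn V Q)
    (hk : ¬ Ker V (P + Q)) : Fn V (P + Q) ∧ ub V (P + Q) = ub V P * ub V Q := by
  refine ub_mul h hΔ hP hQ ?_
  intro hu
  apply hk
  obtain ⟨hnQ, hnu⟩ := fn_neg h hQ
  have e : ub V P = ub V (-Q) := by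
    rw [hnu]
    exact eq_inv_of_mul_eq_one_left hu
  have h1 := rd_fn h hP hnQ e
  rwa [sub_neg_eq_add] at h1

theorem ker_shift (h : Nod W V) (hΔ : W.Δ ≠ 0) {P R : W.toAffine.Point} (hP : Ker V P) (hR : Fn V R) :
    Fn V (P + R) ∧ ub V (P + R) = ub V R := by
  have h1 : E0 V (P + R) := e0_add h (e0_iff.2 (Or.inl hP)) (e0_iff.2 (Or.inr hR))
  have h2 : ¬ Ker V (P + R) := by
    intro hk
    have h3 := H35P.ker_sub h.intW (P + R) P hk hP
    rw [add_sub_cancel_left] at h3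
    exact ker_fn hR h3
  have h3 : Fn V (P + R) := (e0_iff.1 h1).resolve_left h2
  refine ⟨h3, ?_⟩
  by_contra hne
  obtain ⟨hnR, hnu⟩ := fn_neg h hR
  obtain ⟨-, r0, -, -, -, -⟩ := fn_ub h hR
  have h4 := (ub_mul h hΔ h3 hnR (by
    rw [hnu]
    intro e
    apply hne
    have e1 := eq_inv_of_mul_eq_one_left e
    rwa [inv_inv] at e1)).1
  rw [add_neg_cancel_right] at h4
  exact ker_fn h4 hP

end H55K.JJ
end

-- from Lib.H55K.J3C
section

set_option autoImplicit false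

/-! Chunk J3C (M). ub_nsmul: induction on n ≥ 1: n • P + P, ub (n • P) * ub P = ub P^(n+1) <> 1, ub_mul. ub_prod: for T, T' in S: ub (T + T') = ub T * ub T' (T = 0 or T' = 0: ub_zero; T + T' = 0: fn_neg; otherwise T + T' is a nonzero element
of S, so Fn, so not Ker: ub_mul'). Injective on S: ub T = ub T': both nonzero: Ker (T - T') (rd_fn), T - T' in S, so T - T' = 0 (ker_fn); one zero: ub T = 1 is impossible for Fn T (fn_ub). S.card • T = 0 for T in S (S is a finite group: Lagrange), so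
ub T ^ S.card = 1. The S.card different values are roots of the monic polynomial X^(S.card) - 1 of degree S.card: it is the product of the X - ub T (e.g. Polynomial.prod_multiset_X_sub_C_of_monic_of_roots_card_eq, or
Multiset/Finset: the product divides it and both are monic of the same degree). -/

open NumberField WeierstrassCurve

namespace H55K.JJ

open H35P (WAB Ker IntW)

open Polynomial

variable {k : Type} [Field k] [DecidableEq k] [IsAlgClosed k] {W : WeierstrassCurve k} {V : ValuationSubring k}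

theorem ub_nsmul (h : Nod W V) (hΔ : W.Δ ≠ 0) {P : W.toAffine.Point} (hP : Fn V P) {n : ℕ} (hn : 0 < n)
    (hu : ∀ m : ℕ, 0 < m → m ≤ n → ub V P ^ m ≠ 1) : Fn V (n • P) ∧ ub V (n • P) = ub V P ^ n := by
  induction n with
  | zero => exact absurd hn (lt_irrefl 0)
  | succ n ih =>
    rcases Nat.eq_zero_or_pos n with h0 | h0
    · subst h0
      rw [zero_add, one_smul, pow_one]
      exact ⟨hP, rfl⟩
    · obtain ⟨h1, h2⟩ := ih h0 fun m hm hmn => hu m hm (by omega)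
      have h3 : ub V (n • P) * ub V P = ub V P ^ (n + 1) := by rw [h2, pow_succ]
      have h4 := ub_mul h hΔ h1 hP (by rw [h3]; exact hu (n + 1) (Nat.succ_pos n) le_rfl)
      rw [succ_nsmul]
      exact ⟨h4.1, by rw [h4.2, h3]⟩

theorem j3c_mul (h : Nod W V) (hΔ : W.Δ ≠ 0) (S : Finset W.toAffine.Point) (h0 : 0 ∈ S)
    (hs : ∀ T ∈ S, ∀ T' ∈ S, T - T' ∈ S) (hF : ∀ T ∈ S, T ≠ 0 → Fn V T)
    {T T' : W.toAffine.Point} (hT : T ∈ S) (hT' : T' ∈ S) :
    ub V (T + T') = ub V T * ub V T' := by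
  by_cases h1 : T = 0
  · rw [h1, zero_add, ub_zero, one_mul]
  by_cases h2 : T' = 0
  · rw [h2, add_zero, ub_zero, mul_one]
  have hf := hF T hT h1
  by_cases h3 : T + T' = 0
  · have h4 : T' = -T := (neg_eq_of_add_eq_zero_right h3).symm
    rw [h3, ub_zero, h4, (fn_neg h hf).2, mul_inv_cancel₀ (fn_ub h hf).2.1]
  · have h5 : T + T' ∈ S := by
      have h6 : -T' ∈ S := by
        have := hs 0 h0 T' hT'
        rwa [zero_sub] at this
      have := hs T hT (-T') h6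
      rwa [sub_neg_eq_add] at this
    exact (ub_mul' h hΔ hf (hF T' hT' h2) (ker_fn (hF _ h5 h3))).2

theorem j3c_inj (h : Nod W V) (S : Finset W.toAffine.Point)
    (hs : ∀ T ∈ S, ∀ T' ∈ S, T - T' ∈ S) (hF : ∀ T ∈ S, T ≠ 0 → Fn V T)
    {T T' : W.toAffine.Point} (hT : T ∈ S) (hT' : T' ∈ S) (hu : ub V T = ub V T') : T = T' := by
  by_cases h1 : T = 0
  · by_cases h2 : T' = 0
    · rw [h1, h2]
    · rw [h1, ub_zero] at hu
      exact absurd hu.symm (fn_ub h (hF T' hT' h2)).2.2.1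
  · by_cases h2 : T' = 0
    · rw [h2, ub_zero] at hu
      exact absurd hu (fn_ub h (hF T hT h1)).2.2.1
    · have hk := rd_fn h (hF T hT h1) (hF T' hT' h2) hu
      by_contra hne
      exact ker_fn (hF _ (hs T hT T' hT') (sub_ne_zero.2 hne)) hk

theorem ub_prod (h : Nod W V) (hΔ : W.Δ ≠ 0) (S : Finset W.toAffine.Point) (h0 : 0 ∈ S)
    (hs : ∀ T ∈ S, ∀ T' ∈ S, T - T' ∈ S) (hF : ∀ T ∈ S, T ≠ 0 → Fn V T) :
    ∏ T ∈ S, (X - C (ub V T)) = X ^ S.card - 1 := by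
  classical
  have hcpos : 0 < S.card := Finset.card_pos.2 ⟨0, h0⟩
  -- the group
  have hneg : ∀ T ∈ S, -T ∈ S := fun T hT => by
    have := hs 0 h0 T hT
    rwa [zero_sub] at this
  have hadd : ∀ T ∈ S, ∀ T' ∈ S, T + T' ∈ S := fun T hT T' hT' => by
    have := hs T hT (-T') (hneg T' hT')
    rwa [sub_neg_eq_add] at this
  let G : AddSubgroup W.toAffine.Point :=
    { carrier := (S : Set W.toAffine.Point)
      zero_mem' := h0
      add_mem' := fun {a b} ha hb => hadd a ha b hb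
      neg_mem' := fun {a} ha => hneg a ha }
  have hcard : Nat.card G = S.card := by
    have h1 : Nat.card G = Nat.card (S : Set W.toAffine.Point) := rfl
    rw [h1]
    simp
  have hnT : ∀ T ∈ S, S.card • T = 0 := by
    intro T hT
    have h1 : Nat.card G • (⟨T, hT⟩ : G) = 0 := card_nsmul_eq_zero'
    rw [hcard] at h1
    have h2 := congrArg (Subtype.val : G → W.toAffine.Point) h1
    exact h2
  have hpow : ∀ T ∈ S, ∀ n : ℕ, n • T ∈ S ∧ ub V (n • T) = ub V T ^ n := by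
    intro T hT n
    induction n with
    | zero =>
      rw [zero_smul, pow_zero, ub_zero]
      exact ⟨h0, rfl⟩
    | succ n ih =>
      rw [succ_nsmul, pow_succ, ← ih.2]
      exact ⟨hadd _ ih.1 _ hT, j3c_mul h hΔ S h0 hs hF ih.1 hT⟩
  have hroot : ∀ T ∈ S, ub V T ^ S.card = 1 := by
    intro T hT
    rw [← (hpow T hT S.card).2, hnT T hT, ub_zero]
  have hinj : Set.InjOn (fun T => ub V T) (S : Set W.toAffine.Point) :=
    fun T hT T' hT' hu => j3c_inj h S hs hF hT hT' hu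
  have hic : (S.image fun T => ub V T).card = S.card := Finset.card_image_of_injOn hinj
  have hm1 : (∏ T ∈ S, (X - C (ub V T))).Monic := monic_prod_of_monic _ _ fun T _ => monic_X_sub_C _
  have hm2 : (X ^ S.card - 1 : (IsLocalRing.ResidueField V)[X]).Monic :=
    monic_X_pow_sub_C (1 : IsLocalRing.ResidueField V) hcpos.ne'
  have hd1 : (∏ T ∈ S, (X - C (ub V T))).degree = (S.card : WithBot ℕ) := by
    rw [degree_prod]
    simp
  have hd2 : (X ^ S.card - 1 : (IsLocalRing.ResidueField V)[X]).degree = (S.card : WithBot ℕ) :=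
    degree_X_pow_sub_C hcpos (1 : IsLocalRing.ResidueField V)
  refine eq_of_degree_sub_lt_of_eval_finset_eq (S.image fun T => ub V T) ?_ ?_
  · rw [hic, ← hd1]
    exact degree_sub_lt (hd1.trans hd2.symm) hm1.ne_zero (by rw [hm1.leadingCoeff, hm2.leadingCoeff])
  · intro x hx
    rw [Finset.mem_image] at hx
    obtain ⟨T, hT, rfl⟩ := hx
    rw [eval_prod, Finset.prod_eq_zero hT (by simp)]
    simp [hroot T hT]

end H55K.JJ
end

-- from Lib.H55K.J6
section

open NumberField WeierstrassCurve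

namespace H55K.JJ

open H55P (IQ embF eF LF Per Pt ac Nm)
open H35P (WAB Ker IntW)

variable {F : Type} [Field F] [NumberField F] [IQ F] {A B : F} {Om : ℂ} {Ω : Type} [Field Ω] [DecidableEq Ω]
  [Algebra F Ω] [IsAlgClosed Ω] {j : Ω →+* ℂ} {act : 𝓞 F →+* AddMonoid.End (Pt (WAB A B) Ω)} {V : ValuationSubring Ω}
  {W' : WeierstrassCurve Ω} {u : Ω} {Θ : Pt (WAB A B) Ω ≃+ W'.toAffine.Point}

/-! Chunk J6 (M). unit_b: ak b * ak (cj b) = Nm b (mul_cj) has value 1 and both factors have value ≤ 1 (integers are integral: see k0_int in K0A.lean or ak_le). gen_pt: for w outside a finite set of residues: T in insert 0 S with E0 (Θ T) is 0 or Fn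
(tor_out, e0_iff); choose P with ub (Θ P) = w (ex_fn; P = Θ.symm of the point): for such T <> 0: w * ub (Θ T) <> 1, so Fn (Θ (P + T)) (ub_mul); for T not in E0: Θ (P + T) is not in E0 (e0_add_out), so not in Ker (e0_iff).
kap_int: κ = (β^2 - 1)/12, β = ak b. Take P from gen_pt (S from TN): P + T not in Ker for all T in insert 0 S, so m_e1x: β^2 x(bP) = s - κ with s = x(P) + sum (x(P+T) - x(T)) in V (int_ker, tor_out), and β^3 z(bP) =: t in V, z = 2y + x. (act b P <> 0: otherwise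
-P is in S and P + (-P) = 0 is in Ker.) Suppose V(κ) > 1. X = x(bP): V(X) = V(κ) > 1. z^2 = X^2 (4X + 1) + 4 a4 X + 4 a6 (the equation), V(z) ≤ 1, V(4 a4 X + 4 a6) ≤ V(X): so V(X^2 (4X + 1)) ≤ V(X), V(4X + 1) < 1. β^2 (4X + 1) = 4s - 4κ + β^2 and 12 κ = β^2 - 1, so
3 β^2 (4X+1) = 12 s - (β^2 - 1) + 3 β^2 = 12 s + 2 β^2 + 1. V(12) < 1 (as V(κ) > 1, β^2 - 1 in V). So V(2β^2 + 1) < 1 (from V(3β^2(4X+1)) < 1, V(12 s) < 1). If V(2) < 1: V(2β^2+1) = 1, contradiction. So V(2) = 1, V(3) < 1; 4X + 1: V(4X) = V(X) > 1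
so V(4X + 1) > 1: contradiction. -/

theorem j6_ak {F : Type} [Field F] {Ω : Type} [Field Ω] [Algebra F Ω] (V : ValuationSubring Ω) (a : 𝓞 F) :
    V.valuation (ak Ω a) ≤ 1 := by
  rw [V.valuation_le_one_iff]
  have h1 : IsIntegral ℤ (ak Ω a) := by
    have h2 : IsIntegral ℤ (a : F) := RingOfIntegers.isIntegral_coe a
    exact h2.map ((algebraMap F Ω).toIntAlgHom)
  have h3 : IsIntegral V (ak Ω a) := h1.tower_top
  obtain ⟨y, hy⟩ := IsIntegrallyClosed.isIntegral_iff.1 h3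
  rw [← hy]
  exact y.2

theorem unit_b (h : CMA F A B Om j act) {b : 𝓞 F} (hb : V.valuation ((Nm b : ℕ) : Ω) = 1) :
    b ≠ 0 ∧ V.valuation (ak Ω b) = 1 := by
  have hinj := (algebraMap F Ω).injective
  have hb0 : b ≠ 0 := by
    rintro rfl
    have h1 : Nm (0 : 𝓞 F) = 0 := H55P.Nm_eq_zero.2 rfl
    rw [h1, Nat.cast_zero, map_zero] at hb
    exact zero_ne_one hb
  refine ⟨hb0, ?_⟩
  have h1 : ak Ω b * ak Ω (cj b) = ((Nm b : ℕ) : Ω) := by
    have h2 := congrArg (fun z : 𝓞 F => ak Ω z) (mul_cj b)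
    simp only [ak, map_mul, map_natCast] at h2
    exact h2
  rw [← h1, map_mul] at hb
  have h2 := j6_ak V b
  have h3 := j6_ak V (cj b)
  exact le_antisymm h2 (by
    by_contra h4
    push Not at h4
    have h5 : V.valuation (ak Ω b) * V.valuation (ak Ω (cj b)) < 1 := mul_lt_one_of_lt_of_le h4 h3
    exact h5.ne hb)

theorem gen_pt (h : CMA F A B Om j act) (hM : Md A B V W' u Θ) {b : 𝓞 F} (hb : V.valuation ((Nm b : ℕ) : Ω) = 1)
    {S : Finset (Pt (WAB A B) Ω)} (hS : TN act b S) : ∃ Z : Set (IsLocalRing.ResidueField V), Z.Finite ∧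
    ∀ P : Pt (WAB A B) Ω, Fn V (Θ P) → ub V (Θ P) ∉ Z → act b P ≠ 0 ∧ ∀ T ∈ S, ¬ Ker V (Θ (P + T)) ∧
      (E0 V (Θ T) → Fn V (Θ (P + T)) ∧ ub V (Θ (P + T)) = ub V (Θ T) * ub V (Θ P)) ∧
      (¬ E0 V (Θ T) → ¬ E0 V (Θ (P + T))) := by
  classical
  refine ⟨((insert 0 S : Finset (Pt (WAB A B) Ω)).image fun T => (ub V (Θ T))⁻¹ :
    Finset (IsLocalRing.ResidueField V)), Finset.finite_toSet _, ?_⟩
  intro P hP hZ
  have hZ' : ∀ T ∈ S, ub V (Θ T) * ub V (Θ P) ≠ 1 := by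
    intro T hT h1
    apply hZ
    rw [Finset.mem_coe, Finset.mem_image]
    exact ⟨T, Finset.mem_insert_of_mem hT, (eq_inv_of_mul_eq_one_right h1).symm⟩
  obtain ⟨u1, u2, u3, -⟩ := fn_ub hM.nod hP
  have hP0 : P ≠ 0 := by
    rintro rfl
    rw [map_zero] at hP
    exact (fn_crd hM.nod hP).1 rfl
  refine ⟨?_, ?_⟩
  · intro h1
    have h2 : -P ∈ S := by
      rw [hS]
      refine ⟨?_, neg_ne_zero.2 hP0⟩
      rw [map_neg, h1, neg_zero]
    apply hZ' _ h2
    rw [map_neg, (fn_neg hM.nod hP).2]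
    exact inv_mul_cancel₀ u2
  · intro T hT
    obtain ⟨t1, t2⟩ := (hS T).1 hT
    have hTk : ¬ Ker V (Θ T) := tor_out h hM hb t1 t2
    have hEP : E0 V (Θ P) := e0_iff.2 (Or.inr hP)
    by_cases hE : E0 V (Θ T)
    · have hF : Fn V (Θ T) := (e0_iff.1 hE).resolve_left hTk
      have h1 := ub_mul hM.nod hM.ell hP hF (by rw [mul_comm]; exact hZ' T hT)
      rw [map_add]
      refine ⟨ker_fn h1.1, fun _ => ⟨h1.1, ?_⟩, fun h2 => absurd hE h2⟩
      rw [h1.2, mul_comm]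
    · have h1 := e0_add_out hM.nod hEP hE
      rw [map_add]
      exact ⟨fun h2 => h1 (e0_iff.2 (Or.inl h2)), fun h2 => absurd h2 hE, fun _ => h1⟩

theorem j6_eq {k : Type} [Field k] [DecidableEq k] {W : WeierstrassCurve k} {V : ValuationSubring k} (h : Nod W V)
    {P : W.toAffine.Point} (hP : P ≠ 0) :
    (2 * yc P + xc P) ^ 2 = xc P ^ 2 * (4 * xc P + 1) + (4 * W.a₄ * xc P + 4 * W.a₆) := by
  rcases P with _ | ⟨x, y, hxy⟩
  · exact absurd rfl hP
  · show (2 * y + x) ^ 2 = x ^ 2 * (4 * x + 1) + (4 * W.a₄ * x + 4 * W.a₆)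
    have hE := (Affine.equation_iff _ _).1 hxy.1
    rw [h.a1, h.a2, h.a3] at hE
    linear_combination 4 * hE

theorem j6_main {k : Type} [Field k] [CharZero k] (V : ValuationSubring k) {β X y s t a c : k}
    (hβ : V.valuation β = 1) (hs : V.valuation s ≤ 1) (ht : V.valuation t ≤ 1) (ha : V.valuation a < 1)
    (hc : V.valuation c < 1) (hx : β ^ 2 * X = s - (β ^ 2 - 1) / 12) (hz : β ^ 3 * (2 * y + X) = t)
    (hE : (2 * y + X) ^ 2 = X ^ 2 * (4 * X + 1) + (4 * a * X + 4 * c)) : (β ^ 2 - 1) / 12 ∈ V := by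
  rw [← V.valuation_le_one_iff]
  by_contra hκ
  push Not at hκ
  have n1 : ∀ n : ℕ, V.valuation (n : k) ≤ 1 := fun n => (V.valuation_le_one_iff _).2 (natCast_mem V n)
  have v2 : V.valuation (2 : k) ≤ 1 := by exact_mod_cast n1 2
  have v3 : V.valuation (3 : k) ≤ 1 := by exact_mod_cast n1 3
  have v4 : V.valuation (4 : k) ≤ 1 := by exact_mod_cast n1 4
  have v12 : V.valuation (12 : k) ≤ 1 := by exact_mod_cast n1 12
  have hX : 1 < V.valuation X := by
    have h1 : V.valuation (β ^ 2 * X) = V.valuation X := by rw [map_mul, map_pow, hβ, one_pow, one_mul]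
    have h2 : V.valuation (s - (β ^ 2 - 1) / 12) = V.valuation ((β ^ 2 - 1) / 12) :=
      Valuation.map_sub_eq_of_lt_right _ (hs.trans_lt hκ)
    rw [← h1, hx, h2]
    exact hκ
  have hzle : V.valuation (2 * y + X) ≤ 1 := by
    have h1 : V.valuation (β ^ 3 * (2 * y + X)) = V.valuation (2 * y + X) := by
      rw [map_mul, map_pow, hβ, one_pow, one_mul]
    rw [← h1, hz]
    exact ht
  have h4X : V.valuation (4 * X + 1) < 1 := by
    have e1 : X ^ 2 * (4 * X + 1) = (2 * y + X) ^ 2 - (4 * a * X + 4 * c) := by rw [hE]; ring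
    have b1 : V.valuation ((2 * y + X) ^ 2) ≤ V.valuation X := by
      rw [map_pow]
      exact (pow_le_one' hzle 2).trans hX.le
    have b2 : V.valuation (4 * a * X + 4 * c) ≤ V.valuation X := by
      apply Valuation.map_add_le
      · rw [map_mul, map_mul]
        exact mul_le_of_le_one_left' (mul_le_one' v4 ha.le)
      · rw [map_mul]
        exact (mul_le_one' v4 hc.le).trans hX.le
    have b3 : V.valuation (X ^ 2 * (4 * X + 1)) ≤ V.valuation X := by
      rw [e1]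
      exact Valuation.map_sub_le _ b1 b2
    have hX0 : V.valuation X ≠ 0 := (zero_lt_one.trans hX).ne'
    by_contra h1
    push Not at h1
    have h2 : V.valuation X < V.valuation (X ^ 2 * (4 * X + 1)) := by
      rw [map_mul, map_pow, sq]
      calc V.valuation X = V.valuation X * 1 := (mul_one _).symm
        _ < V.valuation X * V.valuation X := by
            exact (mul_lt_mul_iff_right₀ (zero_lt_one.trans hX)).2 hX
        _ = V.valuation X * V.valuation X * 1 := (mul_one _).symm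
        _ ≤ V.valuation X * V.valuation X * V.valuation (4 * X + 1) := mul_le_mul' le_rfl h1
    exact absurd b3 (not_le.2 h2)
  have h4 : V.valuation (4 : k) < 1 := by
    have h1 : V.valuation (4 * X) ≤ 1 := by
      have h2 : (4 : k) * X = (4 * X + 1) - 1 := by ring
      rw [h2]
      exact Valuation.map_sub_le _ h4X.le (map_one _).le
    by_contra h3
    push Not at h3
    rw [map_mul] at h1
    have h5 : 1 < V.valuation (4 : k) * V.valuation X := lt_of_lt_of_le hX (le_mul_of_one_le_left' h3)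
    exact absurd h1 (not_le.2 h5)
  have h2 : V.valuation (2 : k) < 1 := by
    by_contra h3
    have h5 : V.valuation (2 : k) = 1 := le_antisymm v2 (not_lt.1 h3)
    have h6 : (4 : k) = 2 * 2 := by norm_num
    rw [h6, map_mul, h5, one_mul] at h4
    exact lt_irrefl _ h4
  have h12 : V.valuation (12 : k) < 1 := by
    have h6 : (12 : k) = 4 * 3 := by norm_num
    rw [h6, map_mul]
    exact mul_lt_one_of_lt_of_le h4 v3
  have hfin : V.valuation (1 : k) < 1 := by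
    have e1 : (1 : k) = 3 * β ^ 2 * (4 * X + 1) - (12 * s + 2 * β ^ 2) := by
      linear_combination (-12) * hx
    rw [e1]
    have w1 : V.valuation (β ^ 2) = 1 := by rw [map_pow, hβ, one_pow]
    apply Valuation.map_sub_lt
    · rw [map_mul, map_mul, w1, mul_one]
      rw [mul_comm]
      exact mul_lt_one_of_lt_of_le h4X v3
    · apply Valuation.map_add_lt
      · rw [map_mul]
        exact mul_lt_one_of_lt_of_le h12 hs
      · rw [map_mul, w1, mul_one]
        exact h2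
  rw [map_one] at hfin
  exact lt_irrefl _ hfin

theorem kap_int (h : CMA F A B Om j act) (hM : Md A B V W' u Θ) {b : 𝓞 F} (hb : V.valuation ((Nm b : ℕ) : Ω) = 1)
    {S : Finset (Pt (WAB A B) Ω)} (hS : TN act b S) : (ak Ω b ^ 2 - 1) / 12 ∈ V := by
  classical
  have : CharZero Ω := charZero_of_injective_algebraMap (algebraMap F Ω).injective
  obtain ⟨hb0, hβ⟩ := unit_b h hb
  obtain ⟨Z, hZf, hZ⟩ := gen_pt h hM hb hS
  obtain ⟨P, hP, hPZ⟩ : ∃ P : Pt (WAB A B) Ω, Fn V (Θ P) ∧ ub V (Θ P) ∉ Z := by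
    have := res_inf V
    have h1 : (Z ∪ {0, 1}).Finite := hZf.union (Set.toFinite _)
    obtain ⟨w, hw⟩ := h1.infinite_compl.nonempty
    rw [Set.mem_compl_iff, Set.mem_union, not_or, Set.mem_insert_iff, Set.mem_singleton_iff, not_or] at hw
    obtain ⟨P', p1, p2⟩ := ex_fn hM.nod hM.ell hw.2.1 hw.2.2
    refine ⟨Θ.symm P', ?_, ?_⟩
    · rw [AddEquiv.apply_symm_apply]
      exact p1
    · rw [AddEquiv.apply_symm_apply, p2]
      exact hw.1
  obtain ⟨hbP, hT⟩ := hZ P hP hPZ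
  obtain ⟨c1, c2, c3, -⟩ := fn_crd hM.nod hP
  have hx := m_e1x h hM hb0 hS hbP
  have hz := m_e1z h hM hb0 hS hbP
  set β := ak Ω b with hβd
  set X := xc (Θ (act b P)) with hX
  set y := yc (Θ (act b P)) with hy
  have hs : xc (Θ P) + ∑ T ∈ S, (xc (Θ (P + T)) - xc (Θ T)) ∈ V := by
    refine V.add_mem _ _ c2 (sum_mem fun T hTS => ?_)
    obtain ⟨t1, t2⟩ := (hS T).1 hTS
    exact V.sub_mem (int_ker hM.nod (hT T hTS).1).2.1 (int_ker hM.nod (tor_out h hM hb t1 t2)).2.1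
  have ht : 2 * yc (Θ P) + xc (Θ P) + ∑ T ∈ S, (2 * yc (Θ (P + T)) + xc (Θ (P + T))) ∈ V := by
    have h2 : (2 : Ω) ∈ V := by exact_mod_cast natCast_mem V 2
    refine V.add_mem _ _ (V.add_mem _ _ (V.mul_mem _ _ h2 c3) c2) (sum_mem fun T hTS => ?_)
    obtain ⟨-, e1, e2⟩ := int_ker hM.nod (hT T hTS).1
    exact V.add_mem _ _ (V.mul_mem _ _ h2 e2) e1
  set s := xc (Θ P) + ∑ T ∈ S, (xc (Θ (P + T)) - xc (Θ T)) with hsd
  set t := 2 * yc (Θ P) + xc (Θ P) + ∑ T ∈ S, (2 * yc (Θ (P + T)) + xc (Θ (P + T))) with htd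
  have hne : Θ (act b P) ≠ 0 := fun h1 => hbP (by rwa [map_eq_zero_iff _ Θ.injective] at h1)
  have hE := j6_eq hM.nod hne
  rw [← hX, ← hy] at hE
  have hx' : β ^ 2 * X = s - (β ^ 2 - 1) / 12 := by
    rw [hsd]
    linear_combination hx
  exact j6_main V hβ ((V.valuation_le_one_iff _).2 hs) ((V.valuation_le_one_iff _).2 ht) hM.nod.a4 hM.nod.a6
    hx' hz hE

end H55K.JJ
end

-- from Lib.H55K.SD
section

/-!
# H55K, part S: from Selmer classes to elements of the field of torsion points (definitions)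

Port of H13S to the general setting (CMA, Dta). vo V a is the value of the integer a of F, Ker V the kernel of reduction, π a prime
element of 𝓞 F above l.
-/

open NumberField IsDedekindDomain WeierstrassCurve

namespace H55K.S

open H55P (IQ embF eF LF Per IsHecke Pt ac Inert Dec Nm)
open H35P (WAB Ker tt)
open H13S (Abv)

section mult

variable {M R : Type} [AddCommGroup M] [CommRing R] {act : R →+* AddMonoid.End M}

theorem act_mul (a b : R) (P : M) : act (a * b) P = act a (act b P) := by rw [map_mul]; rfl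

theorem act_add (a b : R) (P : M) : act (a + b) P = act a P + act b P := by rw [map_add]; rfl

theorem act_sub (a b : R) (P : M) : act (a - b) P = act a P - act b P := by rw [map_sub]; rfl

theorem act_neg (a : R) (P : M) : act (-a) P = -act a P := by rw [map_neg]; rfl

theorem act_one (P : M) : act (1 : R) P = P := by rw [map_one]; rfl

theorem act_zero (P : M) : act (0 : R) P = 0 := by rw [map_zero]; rfl

theorem act_nat (n : ℕ) (P : M) : act (n : R) P = n • P := by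
  rw [map_natCast]
  induction n with
  | zero => rw [Nat.cast_zero, zero_smul]; rfl
  | succ n ih => rw [Nat.cast_succ, succ_nsmul, ← ih]; rfl

end mult

section gal

variable {F : Type} [Field F] {Ω : Type} [Field Ω] [DecidableEq Ω] [Algebra F Ω] {W : WeierstrassCurve F}

theorem ac_one (P : Pt W Ω) : ac W (1 : Ω ≃ₐ[F] Ω) P = P := by cases P <;> rfl

theorem ac_mul (s t : Ω ≃ₐ[F] Ω) (P : Pt W Ω) : ac W (s * t) P = ac W s (ac W t P) := by
  cases P <;> rfl

theorem ac_inv (s : Ω ≃ₐ[F] Ω) (P : Pt W Ω) : ac W s (ac W s⁻¹ P) = P := by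
  rw [← ac_mul, mul_inv_cancel, ac_one]

theorem ac_inj (s : Ω ≃ₐ[F] Ω) {P Q : Pt W Ω} (h : ac W s P = ac W s Q) : P = Q := by
  have h1 := congrArg (ac W s⁻¹) h
  rwa [← ac_mul, ← ac_mul, inv_mul_cancel, ac_one, ac_one] at h1

theorem ac_ne (s : Ω ≃ₐ[F] Ω) {P : Pt W Ω} (hP : P ≠ 0) : ac W s P ≠ 0 := fun h =>
  hP (ac_inj s (h.trans (map_zero (ac W s)).symm))

theorem xc_ac (s : Ω ≃ₐ[F] Ω) (P : Pt W Ω) : xc (ac W s P) = s (xc P) := by
  cases P with
  | zero => exact (map_zero s).symm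
  | some x y h => rfl

theorem yc_ac (s : Ω ≃ₐ[F] Ω) (P : Pt W Ω) : yc (ac W s P) = s (yc P) := by
  cases P with
  | zero => exact (map_zero s).symm
  | some x y h => rfl

theorem tt_ac (s : Ω ≃ₐ[F] Ω) (P : Pt W Ω) : tt (ac W s P) = s (tt P) := by
  cases P with
  | zero => exact (map_zero s).symm
  | some x y h => exact (map_div₀ s x y).symm

theorem pt_ext {P Q : Pt W Ω} (hP : P ≠ 0) (hQ : Q ≠ 0) (hx : xc P = xc Q) (hy : yc P = yc Q) : P = Q := by
  cases P with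
  | zero => exact absurd rfl hP
  | some x y h =>
    cases Q with
    | zero => exact absurd rfl hQ
    | some x' y' h' =>
      obtain rfl : x = x' := hx
      obtain rfl : y = y' := hy
      rfl

omit [DecidableEq Ω] in
/-- An element fixed by the fixing subgroup of L is in L. -/
theorem ku2_mem [CharZero F] [IsAlgClosure F Ω] (L : IntermediateField F Ω) {x : Ω}
    (h : ∀ s ∈ L.fixingSubgroup, s x = x) : x ∈ L := by
  rw [← InfiniteGalois.fixedField_fixingSubgroup L]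
  intro s
  exact h s.1 s.2

theorem ker_zero (V : ValuationSubring Ω) : Ker V (0 : Pt W Ω) := trivial

theorem tt_zero : tt (0 : Pt W Ω) = 0 := rfl

end gal

section cma

variable {F : Type} [Field F] [NumberField F] [IQ F] {A B : F} {Om : ℂ} {Ω : Type} [Field Ω] [DecidableEq Ω]
  [Algebra F Ω] {j : Ω →+* ℂ} {act : 𝓞 F →+* AddMonoid.End (Pt (WAB A B) Ω)}

theorem mem_Tor {a : 𝓞 F} {P : Pt (WAB A B) Ω} : P ∈ Tor act a ↔ act a P = 0 := Iff.rfl

theorem ac_act (h : CMA F A B Om j act) (s : Ω ≃ₐ[F] Ω) (a : 𝓞 F) (P : Pt (WAB A B) Ω) :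
    ac (WAB A B) s (act a P) = act a (ac (WAB A B) s P) := h.gal s a P

theorem ac_mem (h : CMA F A B Om j act) (s : Ω ≃ₐ[F] Ω) {a : 𝓞 F} {P : Pt (WAB A B) Ω} (hP : P ∈ Tor act a) :
    ac (WAB A B) s P ∈ Tor act a := by
  rw [mem_Tor, ← ac_act h, mem_Tor.1 hP, map_zero]

theorem act_tor {a b : 𝓞 F} {P : Pt (WAB A B) Ω} (hP : P ∈ Tor act a) : act b P ∈ Tor act a := by
  rw [mem_Tor, ← act_mul, mul_comm, act_mul, mem_Tor.1 hP, map_zero]

/-- The value of an integer of F. -/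
noncomputable abbrev vo (V : ValuationSubring Ω) (a : 𝓞 F) : V.ValueGroup := V.valuation (ak Ω a)

omit [NumberField F] [IQ F] [DecidableEq Ω] in
theorem vo_mul (V : ValuationSubring Ω) (x y : 𝓞 F) : vo V (x * y) = vo V x * vo V y := by
  unfold vo ak
  rw [← map_mul, ← map_mul]
  rfl

omit [NumberField F] [IQ F] [DecidableEq Ω] in
theorem vo_pow (V : ValuationSubring Ω) (x : 𝓞 F) (n : ℕ) : vo V (x ^ n) = vo V x ^ n := by
  unfold vo ak
  rw [← map_pow, ← map_pow]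
  rfl

omit [NumberField F] [IQ F] [DecidableEq Ω] in
theorem vo_one (V : ValuationSubring Ω) : vo V (1 : 𝓞 F) = 1 := by
  unfold vo ak
  simp

omit [NumberField F] [IQ F] [DecidableEq Ω] in
theorem vo_nat (V : ValuationSubring Ω) (n : ℕ) : vo V (n : 𝓞 F) = V.valuation (n : Ω) := by
  unfold vo ak
  simp

omit [NumberField F] [IQ F] [DecidableEq Ω] in
theorem vo_ne (V : ValuationSubring Ω) {x : 𝓞 F} (hx : x ≠ 0) : vo V x ≠ 0 := by
  unfold vo ak
  rw [Valuation.ne_zero_iff]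
  refine (map_ne_zero _).2 ?_
  exact fun h => hx (RingOfIntegers.coe_injective (h.trans (map_zero (algebraMap (𝓞 F) F)).symm))

omit [NumberField F] [IQ F] [DecidableEq Ω] in
theorem vo_add (V : ValuationSubring Ω) {x y : 𝓞 F} (hx : vo V x < 1) (hy : vo V y < 1) : vo V (x + y) < 1 := by
  have e : ak Ω (x + y) = ak Ω x + ak Ω y := by
    unfold ak
    rw [← map_add]
    rfl
  show V.valuation (ak Ω (x + y)) < 1
  rw [e]
  exact Valuation.map_add_lt _ hx hy

theorem vo_le (V : ValuationSubring Ω) (a : 𝓞 F) : vo V a ≤ 1 := ak_le V a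

theorem vo_unit {V : ValuationSubring Ω} {π x : 𝓞 F} (h : IsCoprime π x) (hV : vo V π < 1) : vo V x = 1 := by
  obtain ⟨a, b, hab⟩ := h
  refine le_antisymm (vo_le V x) ?_
  by_contra hx
  rw [not_le] at hx
  have h1 : vo V (a * π) < 1 := by
    rw [vo_mul]
    exact lt_of_le_of_lt (mul_le_of_le_one_left' (vo_le V a)) hV
  have h2 : vo V (b * x) < 1 := by
    rw [vo_mul]
    exact lt_of_le_of_lt (mul_le_of_le_one_left' (vo_le V b)) hx
  have h3 := vo_add V h1 h2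
  rw [hab, vo_one] at h3
  exact lt_irrefl _ h3

/-- The points killed by a prime element. -/
theorem gi_gen (hA : CMA F A B Om j act) (β : 𝓞 F) (hβ : Prime β) : Nat.card (Tor act β) = Nm β ∧
    ∃ T₀ ∈ Tor act β, (∀ T ∈ Tor act β, ∃ a : 𝓞 F, T = act a T₀) ∧ ∀ a : 𝓞 F, act a T₀ = 0 ↔ β ∣ a := by
  obtain ⟨T₀, h1, h2, h3, -⟩ := hA.gen β hβ.ne_zero
  exact ⟨tor_card hA hβ.ne_zero, T₀, h1, h2, h3⟩

/-- The data of a class: the data of the base theorem, a prime element pi above l and a cocycle c with values in the points killed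
by the conjugate of pi, locally a coboundary on all inertia groups. -/
structure Cl (A B : F) (Om : ℂ) (j : Ω →+* ℂ) (act : 𝓞 F →+* AddMonoid.End (Pt (WAB A B) Ω)) (m : Ideal (𝓞 F))
    (ψ : Ideal (𝓞 F) →*₀ 𝓞 F) (π : 𝓞 F) (l : ℕ) (c : (Ω ≃ₐ[F] Ω) → Pt (WAB A B) Ω) : Prop where
  dta : Dta A B Om j act m ψ l
  pr : Prime π
  dvd : π ∣ (l : 𝓞 F)
  mul : ∀ s t, c (s * t) = c s + ac (WAB A B) s (c t)
  cont : ∃ L : IntermediateField F Ω, FiniteDimensional F L ∧ ∀ s ∈ L.fixingSubgroup, c s = 0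
  val : ∀ s, c s ∈ Tor act (cj π)
  loc : ∀ V : ValuationSubring Ω, ∃ P : Pt (WAB A B) Ω, ∀ s, Inert V s → c s = ac (WAB A B) s P - P

/-- A Galois equivariant pairing between the points killed by the conjugate of pi and those killed by pi, with
values in the l-th roots of unity. -/
structure Pairing (A B : F) (act : 𝓞 F →+* AddMonoid.End (Pt (WAB A B) Ω)) (π : 𝓞 F) (l : ℕ)
    (e : Pt (WAB A B) Ω → Pt (WAB A B) Ω → Ω) : Prop where
  add_left : ∀ X ∈ Tor act (cj π), ∀ X' ∈ Tor act (cj π), ∀ T ∈ Tor act π, e (X + X') T = e X T * e X' T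
  add_right : ∀ X ∈ Tor act (cj π), ∀ T ∈ Tor act π, ∀ T' ∈ Tor act π, e X (T + T') = e X T * e X T'
  root : ∀ X ∈ Tor act (cj π), ∀ T ∈ Tor act π, e X T ^ l = 1
  gal : ∀ (s : Ω ≃ₐ[F] Ω), ∀ X ∈ Tor act (cj π), ∀ T ∈ Tor act π,
    s (e X T) = e (ac (WAB A B) s X) (ac (WAB A B) s T)
  nondeg : ∀ X ∈ Tor act (cj π), (∀ T ∈ Tor act π, e X T = 1) → X = 0

/-- L is the field generated by the points killed by pi. -/
def IsTF (act : 𝓞 F →+* AddMonoid.End (Pt (WAB A B) Ω)) (π : 𝓞 F) (L : IntermediateField F Ω) : Prop :=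
  FiniteDimensional F L ∧ ∀ s : Ω ≃ₐ[F] Ω, s ∈ L.fixingSubgroup ↔ ∀ T ∈ Tor act π, ac (WAB A B) s T = T

/-- y is a Kummer generator for the point T. -/
def Kum (L : IntermediateField F Ω) (e : Pt (WAB A B) Ω → Pt (WAB A B) Ω → Ω)
    (c : (Ω ≃ₐ[F] Ω) → Pt (WAB A B) Ω) (T : Pt (WAB A B) Ω) (y : Ω) : Prop :=
  y ≠ 0 ∧ ∀ s ∈ L.fixingSubgroup, s y = e (c s) T * y

variable {m : Ideal (𝓞 F)} {ψ : Ideal (𝓞 F) →*₀ 𝓞 F} {π : 𝓞 F} {l : ℕ} {c : (Ω ≃ₐ[F] Ω) → Pt (WAB A B) Ω}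

theorem Cl.cma (C : Cl A B Om j act m ψ π l c) : CMA F A B Om j act := C.dta.cma

theorem Cl.hl (C : Cl A B Om j act m ψ π l c) : l.Prime := C.dta.prime

theorem Cl.five (C : Cl A B Om j act m ψ π l c) : 5 ≤ l := C.dta.five

theorem Cl.one (h : Cl A B Om j act m ψ π l c) : c 1 = 0 := by
  have h1 := h.mul 1 1
  rw [mul_one, ac_one] at h1
  exact left_eq_add.mp h1

end cma

end H55K.S
end

-- from Lib.H55K.SCH
section

/-! # H55K, part S: port of H13S/CH -/

open NumberField IsDedekindDomain WeierstrassCurve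

namespace H55K.S

open H55P (IQ embF eF LF Per IsHecke Pt ac Inert Dec Nm)
open H35P (WAB Ker tt)
open H13S (Abv)




variable {F : Type} [Field F] [NumberField F] [IQ F] {A B : F} {Om : ℂ} {Ω : Type} [Field Ω] [DecidableEq Ω]
  [Algebra F Ω] [IsAlgClosure F Ω] {j : Ω →+* ℂ} {act : 𝓞 F →+* AddMonoid.End (Pt (WAB A B) Ω)} {mo : Ideal (𝓞 F)}
  {ψ : Ideal (𝓞 F) →*₀ 𝓞 F}

/-- Chunk CH (S/M). The Galois character on the points killed by beta. From gi_gen: T₀ generates, act a T₀ = 0 iff beta divides a.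
For s: ac s T₀ lies in Tor, = act a T₀, a unique modulo beta, prime to beta (ac s is injective); chi s = class of a, a unit of the field
𝓞 F/beta (span {beta} maximal). Multiplicative: ac (s t) T₀ = ac s (act a_t T₀) = act a_t (act a_s T₀) (ac_act hA). -/
theorem exists_chi (hA : CMA F A B Om j act) (β : 𝓞 F) (hβ : Prime β) :
    ∃ χ : (Ω ≃ₐ[F] Ω) →* (𝓞 F ⧸ Ideal.span {β})ˣ,
      (∀ s (a : 𝓞 F), Ideal.Quotient.mk (Ideal.span {β}) a = (χ s : 𝓞 F ⧸ Ideal.span {β}) →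
        ∀ T ∈ Tor act β, ac (WAB A B) s T = act a T) ∧
      ∀ s, (∀ T ∈ Tor act β, ac (WAB A B) s T = T) → χ s = 1 := by
  obtain ⟨-, T₀, hT₀, hgen, hker⟩ := gi_gen hA β hβ
  have hq : ∀ a b : 𝓞 F, act a T₀ = act b T₀ ↔
      Ideal.Quotient.mk (Ideal.span {β}) a = Ideal.Quotient.mk (Ideal.span {β}) b := by
    intro a b
    rw [Ideal.Quotient.eq, Ideal.mem_span_singleton, ← hker, act_sub, sub_eq_zero]
  choose a ha using fun s : Ω ≃ₐ[F] Ω => hgen (ac (WAB A B) s T₀) (ac_mem hA s hT₀)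
  obtain ⟨f, hf⟩ : ∃ f : (Ω ≃ₐ[F] Ω) →* (𝓞 F ⧸ Ideal.span {β}), ∀ s, f s =
      Ideal.Quotient.mk (Ideal.span {β}) (a s) := by
    refine ⟨⟨⟨fun s => Ideal.Quotient.mk (Ideal.span {β}) (a s), ?_⟩, ?_⟩, fun _ => rfl⟩
    · have h1 : act (a 1) T₀ = act (1 : 𝓞 F) T₀ := by rw [← ha, ac_one, act_one]
      rw [(hq _ _).1 h1, map_one]
    · intro s t
      have h1 : act (a (s * t)) T₀ = act (a s * a t) T₀ := by
        rw [← ha, ac_mul, ha t, ac_act hA, ha s, ← act_mul, mul_comm]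
      show Ideal.Quotient.mk (Ideal.span {β}) (a (s * t)) = _
      rw [(hq _ _).1 h1, map_mul]
  refine ⟨f.toHomUnits, ?_, ?_⟩
  · intro s b hb T hT
    have hb' : Ideal.Quotient.mk (Ideal.span {β}) b = Ideal.Quotient.mk (Ideal.span {β}) (a s) := by
      rw [hb, MonoidHom.coe_toHomUnits, hf]
    obtain ⟨d, rfl⟩ := hgen T hT
    rw [ac_act hA, ha s, ← act_mul, ← act_mul, mul_comm, act_mul, mul_comm b d, act_mul,
      (hq _ _).2 hb']
    rw [← act_mul, ← act_mul, mul_comm]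
  · intro s hs
    apply Units.ext
    rw [MonoidHom.coe_toHomUnits, hf, Units.val_one]
    have h1 : act (a s) T₀ = act (1 : 𝓞 F) T₀ := by rw [← ha, hs T₀ hT₀, act_one]
    rw [(hq _ _).1 h1, map_one]

/-- The pointwise stabilizer of the points killed by beta has finite index dividing Nm beta - 1. -/
theorem stab_index (hA : CMA F A B Om j act) (β : 𝓞 F) (hβ : Prime β) :
    ∃ N : Subgroup (Ω ≃ₐ[F] Ω), (∀ s, s ∈ N ↔ ∀ T ∈ Tor act β, ac (WAB A B) s T = T) ∧ N.Normal ∧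
      N.index ∣ Nm β - 1 ∧ N.index ≠ 0 := by
  obtain ⟨χ, h1, h2⟩ := exists_chi hA β hβ
  have hp : (Ideal.span {β}).IsPrime := (Ideal.span_singleton_prime hβ.ne_zero).2 hβ
  have hbot : Ideal.span {β} ≠ ⊥ := by
    rw [Ne, Ideal.span_singleton_eq_bot]
    exact hβ.ne_zero
  have hm : (Ideal.span {β}).IsMaximal := hp.isMaximal hbot
  have hfin : Finite (𝓞 F ⧸ Ideal.span {β}) := Ideal.finiteQuotientOfFreeOfNeBot _ hbot
  have hcard : Nat.card (𝓞 F ⧸ Ideal.span {β})ˣ = Nm β - 1 := by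
    letI := Ideal.Quotient.field (Ideal.span {β})
    exact Nat.card_units (𝓞 F ⧸ Ideal.span {β})
  refine ⟨χ.ker, ?_, inferInstance, ?_, ?_⟩
  · intro s
    rw [MonoidHom.mem_ker]
    constructor
    · intro hs T hT
      have h := h1 s 1 (by rw [hs, map_one, Units.val_one]) T hT
      rw [h, act_one]
    · exact h2 s
  · rw [Subgroup.index_ker, ← hcard]
    exact Subgroup.card_subgroup_dvd_card _
  · rw [Subgroup.index_ker]
    exact Nat.card_pos.ne'

end H55K.S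
end

-- from Lib.H55K.SCO
section

/-! # H55K, part S: port of H13S/CO2 -/

open NumberField IsDedekindDomain WeierstrassCurve

namespace H55K.S

open H55P (IQ embF eF LF Per IsHecke Pt ac Inert Dec Nm)
open H35P (WAB Ker tt)
open H13S (Abv)




variable {F : Type} [Field F] [NumberField F] [IQ F] {A B : F} {Om : ℂ} {Ω : Type} [Field Ω] [DecidableEq Ω]
  [Algebra F Ω] [IsAlgClosure F Ω] {j : Ω →+* ℂ} {act : 𝓞 F →+* AddMonoid.End (Pt (WAB A B) Ω)} {mo : Ideal (𝓞 F)}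
  {ψ : Ideal (𝓞 F) →*₀ 𝓞 F}

theorem CO2_Nm {π : 𝓞 F} {l : ℕ} (hl : l.Prime) (hp : Prime π) (hd : π ∣ (l : 𝓞 F)) : l ∣ Nm π := by
  obtain ⟨u, hu⟩ := hd
  have h2 : Nm π ∣ l ^ 2 := by
    rw [← Nm_nat (F := F) l, hu, Nm_mul]
    exact dvd_mul_right _ _
  obtain ⟨k, -, hk⟩ := (Nat.dvd_prime_pow hl).1 h2
  have hk0 : k ≠ 0 := by
    rintro rfl
    rw [pow_zero] at hk
    unfold Nm at hk
    rw [Ideal.absNorm_eq_one_iff, Ideal.span_singleton_eq_top] at hk
    exact hp.not_isUnit hk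
  rw [hk]
  exact dvd_pow_self _ hk0

theorem CO2_cop {l m n : ℕ} (hl : l.Prime) (h : l ∣ m) (hm : m ≠ 0) (hn : n ∣ m - 1) : l.Coprime n := by
  rw [Nat.Prime.coprime_iff_not_dvd hl]
  intro h1
  have h2 : l ∣ m - 1 := h1.trans hn
  have h3 : l ∣ 1 := by
    have h4 : m - (m - 1) = 1 := by omega
    rw [← h4]
    exact Nat.dvd_sub h h2
  exact hl.one_lt.ne' (Nat.dvd_one.1 h3)

/-- Chunk CO2 (M). If all Kummer generators are trivial then c is a coboundary. N₀ = the elements fixing Tor pi and Tor (cj pi) pointwise: intersection of the two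
subgroups of stab_index, index divides (Nm pi - 1)(Nm (cj pi) - 1) (relIndex/index of an intersection of normal subgroups divides the product), prime to l (Nm pi = l or l^2 because pi divides
l; Nm (cj pi) = Nm pi), not 0. For s in N₀: s fixes all values e X T (he.gal); they contain a primitive l-th root of unity (if Tor (cj pi) has a nonzero point X, he.nondeg gives T with
e X T ≠ 1; gi_gen), so s fixes all l-th roots of unity. For T: y^l = z^l, y = xi z, xi^l = 1, s y = y (s in L.fixingSubgroup by IsTF), so e (c s) T = 1 for all T and c s = 0 by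
nondegeneracy. cob_of_vanish with B = Tor (cj pi), l • c s = 0 (act (l) = act (l/cj pi) act (cj pi); cj pi divides l). -/
theorem cob_of_kum {π : 𝓞 F} {l : ℕ} {c : (Ω ≃ₐ[F] Ω) → Pt (WAB A B) Ω} (C : Cl A B Om j act mo ψ π l c) {e : Pt (WAB A B) Ω → Pt (WAB A B) Ω → Ω}
    (he : Pairing A B act π l e) {L : IntermediateField F Ω} (hL : H55K.S.IsTF act π L)
    (h : ∀ T ∈ Tor act π, ∃ y : Ω, Kum L e c T y ∧ ∃ z : L, y ^ l = (z : Ω) ^ l) :
    ∃ X ∈ Tor act (cj π), ∀ s, c s = ac (WAB A B) s X - X := by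
  have hA := C.cma
  obtain ⟨N₁, hN₁, hn₁, hd₁, h0₁⟩ := stab_index hA π C.pr
  obtain ⟨N₂, hN₂, hn₂, hd₂, h0₂⟩ := stab_index hA (cj π) (cj_prime C.pr)
  have hlN : l ∣ Nm π := CO2_Nm C.hl C.pr C.dvd
  have hN0 : Nm π ≠ 0 := fun h => C.pr.ne_zero (Ideal.span_singleton_eq_bot.1 (Ideal.absNorm_eq_zero_iff.1 h))
  rw [Nm_cj] at hd₂
  have hidx : (N₁ ⊓ N₂).index = N₁.relIndex N₂ * N₂.index := by
    rw [← Subgroup.relIndex_mul_index (inf_le_right : N₁ ⊓ N₂ ≤ N₂), Subgroup.inf_relIndex_right]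
  have hrel : N₁.relIndex N₂ ∣ N₁.index := Subgroup.relIndex_dvd_index_of_normal N₁ N₂
  have hcop : l.Coprime (N₁ ⊓ N₂).index := by
    rw [hidx]
    exact Nat.Coprime.mul_right (CO2_cop C.hl hlN hN0 (hrel.trans hd₁)) (CO2_cop C.hl hlN hN0 hd₂)
  have hne : (N₁ ⊓ N₂).index ≠ 0 := by
    rw [hidx]
    refine mul_ne_zero (fun h => h0₁ ?_) h0₂
    rw [h] at hrel
    exact Nat.eq_zero_of_zero_dvd hrel
  have hlc : ∀ s, l • c s = 0 := by
    intro s
    obtain ⟨u, hu⟩ := C.dvd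
    have h1 : (l : 𝓞 F) = cj u * cj π := by
      have h2 := congrArg cj hu
      rw [map_natCast, map_mul] at h2
      rw [h2, mul_comm]
    have h3 : act (cj π) (c s) = 0 := C.val s
    rw [← act_nat (act := act), h1, act_mul, h3, map_zero]
  have hvan : ∀ s ∈ N₁ ⊓ N₂, c s = 0 := by
    intro s hs
    obtain ⟨hs₁, hs₂⟩ := Subgroup.mem_inf.1 hs
    rw [hN₁] at hs₁
    rw [hN₂] at hs₂
    refine he.nondeg _ (C.val s) ?_
    intro T hT
    by_contra hne1
    obtain ⟨y, hy, z, hz⟩ := h T hT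
    have hroot := he.root _ (C.val s) T hT
    have hprim : IsPrimitiveRoot (e (c s) T) l := by
      have h1 : Fact l.Prime := ⟨C.hl⟩
      rw [← orderOf_eq_prime hroot hne1]
      exact IsPrimitiveRoot.orderOf _
    have hfix : s (e (c s) T) = e (c s) T := by
      rw [he.gal s _ (C.val s) T hT, hs₂ _ (C.val s), hs₁ T hT]
    have hsL : s ∈ L.fixingSubgroup := (hL.2 s).2 hs₁
    have hy0 : y ≠ 0 := hy.1
    have hz0 : (z : Ω) ≠ 0 := by
      intro h0
      rw [h0, zero_pow C.hl.ne_zero] at hz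
      exact pow_ne_zero _ hy0 hz
    have h2 : (y / z) ^ l = 1 := by
      rw [div_pow, hz]
      exact div_self (pow_ne_zero _ hz0)
    have hl0 : NeZero l := ⟨C.hl.ne_zero⟩
    obtain ⟨i, -, hi⟩ := hprim.eq_pow_of_pow_eq_one h2
    have h3 : y = e (c s) T ^ i * z := by
      rw [hi, div_mul_cancel₀ _ hz0]
    have h4 : s (z : Ω) = z := by
      rw [IntermediateField.mem_fixingSubgroup_iff] at hsL
      exact hsL _ z.2
    have h5 : s y = y := by
      rw [h3, map_mul, map_pow, hfix, h4]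
    have h6 := hy.2 s hsL
    rw [h5] at h6
    exact hne1 (mul_right_cancel₀ hy0 (by rw [one_mul]; exact h6.symm))
  exact H13S.cob_of_vanish (fun s => (ac (WAB A B) s : Pt (WAB A B) Ω →+ Pt (WAB A B) Ω)) (fun s t P => ac_mul s t P) c C.mul
    (N₁ ⊓ N₂) hne hvan l hcop hlc (Tor act (cj π)) C.val

end H55K.S
end
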