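import Mathlib
import Pool.Agent.Lib.H1M.PP2.D_H28R_Defs
import Pool.Agent.Lib.H1M.PP2.D_H55P_Stm
import Pool.Agent.Lib.H1M.PP2.M007
import Pool.Agent.Lib.H1M.PP2.M010
import Pool.Agent.Lib.H1M.PP2.M019
import Pool.Agent.Lib.H1M.PP2.M021
import Pool.Agent.Lib.H1M.PP2.M029
import Pool.Agent.Lib.H1M.PP2.M039
import Pool.Agent.Lib.H1M.PP2.M046
import Pool.Agent.Lib.H1M.PP2.M047
import Pool.Agent.Lib.H1M.PP2.M049
import Pool.Agent.Lib.H1M.PP2.M051
import Pool.Agent.Lib.H1M.PP2.M052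
import Pool.Agent.Lib.H1M.PP2.M054
import Pool.Agent.Lib.H1M.PP2.M062
import Pool.Agent.Lib.H1M.PP2.M063
import Pool.Agent.Lib.H1M.PP2.M074

/-! Merged copies (to shorten the build) of Lib.H13S.GIF, Lib.H13S.QI, Lib.H13S.QR, Lib.H28G.KDefs, Lib.H28G.K4, Lib.H55K.KOk, Lib.SSG.LT.Defs, Lib.H55K.GF, Lib.H55K.K0B, Lib.H55K.K0C, Lib.H55K.K2A, Lib.H55K.K2B, Lib.H28R.W1, Lib.H99B.D1, Lib.H28T.Gen, Lib.H28T.A2, Lib.H55K.RC1, Lib.H55K.RC2. -/

-- from Lib.H13S.GIF
section

open NumberField IsDedekindDomain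

namespace H13S

open H55P H28G H55B

variable {Ω : Type} [Field Ω] [DecidableEq Ω] [Algebra F Ω]

theorem gif_le (V : ValuationSubring Ω) (a : O) : vo V a ≤ 1 := by
  rw [← vo_eq]
  exact ak_le V.valuation a

theorem gif_comb (V : ValuationSubring Ω) (a b c d : O) (h : a * b + c * d = 1) (hb : vo V b < 1) :
    vo V d = 1 := by
  refine le_antisymm (gif_le V d) ?_
  by_contra hd
  push Not at hd
  have h1 : algebraMap F Ω ((a * b + c * d : O) : F) = 1 := by rw [h]; simp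
  have h2 : V.valuation (algebraMap F Ω ((a * b + c * d : O) : F)) < 1 := by
    have e : algebraMap F Ω ((a * b + c * d : O) : F) =
        algebraMap F Ω (a : F) * algebraMap F Ω (b : F) + algebraMap F Ω (c : F) * algebraMap F Ω (d : F) := by
      simp
    rw [e]
    refine lt_of_le_of_lt (V.valuation.map_add _ _) (max_lt ?_ ?_)
    · rw [map_mul]
      exact lt_of_le_of_lt (mul_le_of_le_one_left' (gif_le V a)) hb
    · rw [map_mul]
      exact lt_of_le_of_lt (mul_le_of_le_one_left' (gif_le V c)) hd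
  rw [h1, map_one] at h2
  exact lt_irrefl _ h2

/-- Chunk GIF (M). Kronecker: Frobenius elements act as multiplication. Let q = Nm γ. If T = 0 clear. V.valuation 3 = 1: γ is primary, so 3 divides γ - 1 and vo V γ < 1 excludes V.valuation 3 < 1. vo V β = 1:
γ and β are coprime (prime elements, γ does not divide β; both primary), 1 = u γ + v β, so vo V β = 1. T ≠ 0 is not in Kr (kr_tor), so V.valuation (xc T) ≤ 1, and yc T in V (H28G.int_y).
kr_kron for γ and X = T: xc (act γ T) is congruent to (xc T)^q, and hs: s (xc T) = xc (ac W27 s T) (H28G.ac_eq, xc_mp) is congruent to (xc T)^q; same for yc. So ac W27 s T and act γ T (both ≠ 0) are congruent: kr_congr: their difference is in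
Kr V, and it is killed by β (ac_mem; act β (act γ T) = 0): kr_tor: it is 0. -/
theorem gi_frob [IsAlgClosure F Ω] (β γ : O) (hβ : Prime β) (hβ3 : Prim β) (hγ : Prime γ) (hγ3 : Prim γ)
    (hne : ¬ γ ∣ β) (V : ValuationSubring Ω) (hV : vo V γ < 1) (s : Ω ≃ₐ[F] Ω)
    (hs : ∀ x ∈ V, V.valuation (s x - x ^ H55B.Nm γ) < 1) (T : P27 Ω) (hT : T ∈ Tor β Ω) :
    ac W27 s T = act γ T := by
  by_cases hT0 : T = 0
  · rw [hT0, map_zero, map_zero]
  have h3 : V.valuation (3 : Ω) = 1 := by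
    obtain ⟨w, hw⟩ := hγ3
    have h1 := gif_comb V 1 γ (-w) 3 (by linear_combination hw) hV
    have h2 : algebraMap F Ω ((3 : O) : F) = (3 : Ω) := by
      have e : ((3 : O) : F) = 3 := rfl
      rw [e]
      exact map_ofNat _ 3
    rwa [vo, h2] at h1
  have hβv : vo V β = 1 := by
    have hmax : (Ideal.span {γ}).IsMaximal := by
      apply Ring.DimensionLEOne.maximalOfPrime
      · rw [Ne, Ideal.span_singleton_eq_bot]
        exact hγ.ne_zero
      · exact (Ideal.span_singleton_prime hγ.ne_zero).2 hγ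
    have htop : Ideal.span {γ} ⊔ Ideal.span {β} = ⊤ := by
      apply hmax.1.2
      refine lt_of_le_of_ne le_sup_left ?_
      intro hc
      apply hne
      have : β ∈ Ideal.span {γ} := by
        rw [hc]
        exact Ideal.mem_sup_right (Ideal.mem_span_singleton_self β)
      exact Ideal.mem_span_singleton.1 this
    have hcop : IsCoprime γ β := by
      rw [← Ideal.isCoprime_span_singleton_iff, Ideal.isCoprime_iff_sup_eq]
      exact htop
    obtain ⟨a, b, hab⟩ := hcop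
    exact gif_comb V a γ b β hab hV
  have hKr : ¬ Kr V T := fun hK => hT0 (kr_tor V β hβv hT hK)
  have hx1 : V.valuation (xc T) ≤ 1 := by
    by_contra hc
    push Not at hc
    exact hKr (Or.inr hc)
  have hy1 : V.valuation (yc T) ≤ 1 := int_y V.valuation hx1
  obtain ⟨hg0, hg1, hgx, hgy⟩ := kr_kron γ hγ hγ3 V hV hT0 hx1
  have hsx := hs (xc T) ((V.valuation_le_one_iff _).1 hx1)
  have hsy := hs (yc T) ((V.valuation_le_one_iff _).1 hy1)
  have hxs : xc (ac W27 s T) = s (xc T) := by rw [ac_eq, xc_mp]; rfl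
  have hys : yc (ac W27 s T) = s (yc T) := by rw [ac_eq, yc_mp]; rfl
  have hQ0 : ac W27 s T ≠ 0 := by
    rw [ac_eq]
    exact mp_ne _ hT0
  have hx : V.valuation (xc (act γ T) - xc (ac W27 s T)) < 1 := by
    rw [hxs]
    have e : xc (act γ T) - s (xc T) = (xc (act γ T) - xc T ^ H55B.Nm γ) - (s (xc T) - xc T ^ H55B.Nm γ) := by ring
    rw [e]
    exact V.valuation.map_sub_lt hgx hsx
  have hy : V.valuation (yc (act γ T) - yc (ac W27 s T)) < 1 := by
    rw [hys]
    have e : yc (act γ T) - s (yc T) = (yc (act γ T) - yc T ^ H55B.Nm γ) - (s (yc T) - yc T ^ H55B.Nm γ) := by ring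
    rw [e]
    exact V.valuation.map_sub_lt hgy hsy
  have hK := kr_congr V h3 hg0 hQ0 hg1 hx hy
  have hgT : act γ T ∈ Tor β Ω := by
    rw [mem_Tor, ← act_mul, mul_comm, act_mul, mem_Tor.1 hT, map_zero]
  have hmem : act γ T - ac W27 s T ∈ Tor β Ω := sub_mem hgT (ac_mem s hT)
  have h0 := kr_tor V β hβv hmem hK
  exact (sub_eq_zero.1 h0).symm

end H13S
end

-- from Lib.H13S.QI
section

open NumberField IsDedekindDomain

namespace H13S

open H55P H28G H55B

theorem qi_nat {Ω : Type} [Field Ω] (V : ValuationSubring Ω) (n : ℕ) : V.valuation (n : Ω) ≤ 1 :=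
  (V.valuation_le_one_iff _).2 (natCast_mem V n)

theorem qi_pow {Ω : Type} [Field Ω] (V : ValuationSubring Ω) {a b : Ω} (ha : V.valuation a ≤ 1)
    (hb : V.valuation b ≤ 1) (h : V.valuation (a - b) < 1) (n : ℕ) : V.valuation (a ^ n - b ^ n) < 1 := by
  have ha' : a ∈ V := (V.valuation_le_one_iff _).1 ha
  have hb' : b ∈ V := (V.valuation_le_one_iff _).1 hb
  obtain ⟨c, hc⟩ := sub_dvd_pow_sub_pow (⟨a, ha'⟩ : V) ⟨b, hb'⟩ n
  have h1 := congrArg (fun z : V => (z : Ω)) hc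
  push_cast at h1
  rw [h1, map_mul]
  exact mul_lt_one_of_lt_of_le h ((V.valuation_le_one_iff _).2 c.2)

/-- Powers in the residue field: x is congruent to a power of x. -/
theorem qi_res {Ω : Type} [Field Ω] [Algebra F Ω] [IsAlgClosure F Ω] (V : ValuationSubring Ω) (l : ℕ)
    (hl : l.Prime) (hV : V.valuation (l : Ω) < 1) (x : Ω) (hx : V.valuation x ≤ 1) :
    ∃ k, 0 < k ∧ ∀ m, V.valuation (x ^ ((l ^ k) ^ m) - x) < 1 := by
  have hcz : CharZero Ω := charZero_of_injective_algebraMap (algebraMap F Ω).injective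
  have hal : Algebra.IsAlgebraic F Ω := IsAlgClosure.isAlgebraic
  have hal0 : Algebra.IsAlgebraic ℚ F := inferInstance
  have hal1 : Algebra.IsAlgebraic ℚ Ω := Algebra.IsAlgebraic.trans ℚ F Ω
  have hxz : IsAlgebraic ℤ x := (IsFractionRing.isAlgebraic_iff ℤ ℚ Ω).2 (hal1.isAlgebraic x)
  obtain ⟨p, hp0, hp⟩ := hxz
  have hpp : Polynomial.aeval x p.primPart = 0 := Polynomial.aeval_primPart_eq_zero hp0 hp
  have hprim : p.primPart.IsPrimitive := Polynomial.isPrimitive_primPart p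
  generalize p.primPart = P at hpp hprim
  have hx' : x ∈ V := (V.valuation_le_one_iff _).1 hx
  let r : V →+* IsLocalRing.ResidueField V := IsLocalRing.residue V
  have hlk : (l : IsLocalRing.ResidueField V) = 0 := by
    have h1 : ((l : V) : Ω) = (l : Ω) := by push_cast; rfl
    have h2 : (l : V) ∈ IsLocalRing.maximalIdeal V := by
      rw [V.valuation_lt_one_iff, h1]
      exact hV
    have h3 := (IsLocalRing.residue_eq_zero_iff (l : V)).2 h2
    rw [map_natCast] at h3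
    exact h3
  have hfl : Fact l.Prime := ⟨hl⟩
  have hch : CharP (IsLocalRing.ResidueField V) l := (CharP.charP_iff_prime_eq_zero hl).2 hlk
  letI : Algebra (ZMod l) (IsLocalRing.ResidueField V) := ZMod.algebra _ l
  have hPl : P.map (Int.castRingHom (ZMod l)) ≠ 0 := by
    intro h0
    have h1 : Polynomial.C (l : ℤ) ∣ P := by
      rw [Polynomial.C_dvd_iff_dvd_coeff]
      intro i
      have h2 := congrArg (fun q => Polynomial.coeff q i) h0
      simp only [Polynomial.coeff_map, Polynomial.coeff_zero] at h2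
      exact (ZMod.intCast_zmod_eq_zero_iff_dvd _ _).1 h2
    have h3 := hprim _ h1
    rw [Int.isUnit_iff] at h3
    have := hl.two_le
    omega
  have hPx : Polynomial.eval₂ (Int.castRingHom V) ⟨x, hx'⟩ P = 0 := by
    apply Subtype.ext
    have h1 := Polynomial.hom_eval₂ P (Int.castRingHom V) V.subtype ⟨x, hx'⟩
    have h2 : V.subtype.comp (Int.castRingHom V) = algebraMap ℤ Ω := RingHom.ext_int _ _
    rw [h2] at h1
    exact h1.trans hpp
  have hPr : Polynomial.aeval (r ⟨x, hx'⟩) (P.map (Int.castRingHom (ZMod l))) = 0 := by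
    rw [Polynomial.aeval_def, Polynomial.eval₂_map]
    have h1 := Polynomial.hom_eval₂ P (Int.castRingHom V) r ⟨x, hx'⟩
    have h2 : r.comp (Int.castRingHom V) =
        (algebraMap (ZMod l) (IsLocalRing.ResidueField V)).comp (Int.castRingHom (ZMod l)) :=
      RingHom.ext_int _ _
    rw [h2, hPx, map_zero] at h1
    exact h1.symm
  have hint : IsIntegral (ZMod l) (r ⟨x, hx'⟩) := IsAlgebraic.isIntegral ⟨_, hPl, hPr⟩
  have hfd : FiniteDimensional (ZMod l) (IntermediateField.adjoin (ZMod l) {r ⟨x, hx'⟩}) :=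
    IntermediateField.adjoin.finiteDimensional hint
  have hfin : Finite (IntermediateField.adjoin (ZMod l) {r ⟨x, hx'⟩}) := Module.finite_of_finite (ZMod l)
  have hft : Fintype (IntermediateField.adjoin (ZMod l) {r ⟨x, hx'⟩}) := Fintype.ofFinite _
  have hcard := Module.card_eq_pow_finrank (K := ZMod l)
    (V := IntermediateField.adjoin (ZMod l) {r ⟨x, hx'⟩})
  rw [ZMod.card] at hcard
  have hpw := FiniteField.pow_card (⟨r ⟨x, hx'⟩, IntermediateField.mem_adjoin_simple_self _ _⟩ :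
    IntermediateField.adjoin (ZMod l) {r ⟨x, hx'⟩})
  rw [hcard] at hpw
  have hpw' : r ⟨x, hx'⟩ ^ l ^ Module.finrank (ZMod l) (IntermediateField.adjoin (ZMod l) {r ⟨x, hx'⟩}) =
      r ⟨x, hx'⟩ := congrArg Subtype.val hpw
  refine ⟨Module.finrank (ZMod l) (IntermediateField.adjoin (ZMod l) {r ⟨x, hx'⟩}), Module.finrank_pos, ?_⟩
  intro m
  have hit : ∀ m, r ⟨x, hx'⟩ ^ ((l ^ Module.finrank (ZMod l)
      (IntermediateField.adjoin (ZMod l) {r ⟨x, hx'⟩})) ^ m) = r ⟨x, hx'⟩ := by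
    intro m
    induction m with
    | zero => rw [pow_zero, pow_one]
    | succ m ih => rw [pow_succ, pow_mul, ih, hpw']
  have h4 : ((⟨x, hx'⟩ : V) ^ ((l ^ Module.finrank (ZMod l)
      (IntermediateField.adjoin (ZMod l) {r ⟨x, hx'⟩})) ^ m) - ⟨x, hx'⟩) ∈ IsLocalRing.maximalIdeal V := by
    rw [← IsLocalRing.residue_eq_zero_iff, map_sub, map_pow, sub_eq_zero]
    exact hit m
  rw [V.valuation_lt_one_iff] at h4
  exact h4

variable {Ω : Type} [Field Ω] [DecidableEq Ω] [Algebra F Ω] [IsAlgClosure F Ω]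

theorem qi_vo (V : ValuationSubring Ω) (b : O) : vo V b ≤ 1 := by
  have h1 : IsIntegral ℤ (algebraMap F Ω (b : F)) :=
    (RingOfIntegers.isIntegral_coe b).map ((Algebra.ofId F Ω).restrictScalars ℤ)
  have h2 : IsIntegral V (algebraMap F Ω (b : F)) := h1.tower_top
  obtain ⟨y, hy⟩ := IsIntegrallyClosed.isIntegral_iff.1 h2
  rw [vo, ← hy]
  exact (V.valuation_le_one_iff _).2 y.2

theorem qi_three (V : ValuationSubring Ω) (l : ℕ) (hl : l.Prime) (h5 : 5 ≤ l)
    (hV : V.valuation (l : Ω) < 1) : V.valuation (3 : Ω) = 1 := by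
  have h3 : V.valuation (3 : Ω) ≤ 1 := by
    have := qi_nat V 3
    push_cast at this
    exact this
  by_contra hne
  have hlt : V.valuation (3 : Ω) < 1 := lt_of_le_of_ne h3 hne
  have hco : IsCoprime (3 : ℤ) (l : ℤ) := by
    have h4 : Nat.Coprime 3 l := (Nat.coprime_primes Nat.prime_three hl).2 (by omega)
    exact_mod_cast Nat.isCoprime_iff_coprime.2 h4
  obtain ⟨a, b, hab⟩ := hco
  have h6 : ((a : Ω) * 3 + b * l) = 1 := by exact_mod_cast congrArg (fun z : ℤ => (z : Ω)) hab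
  have h7 : ∀ z : ℤ, V.valuation (z : Ω) ≤ 1 := fun z => (V.valuation_le_one_iff _).2 (intCast_mem V z)
  have h8 : V.valuation ((a : Ω) * 3 + b * l) < 1 := by
    refine lt_of_le_of_lt (V.valuation.map_add _ _) (max_lt ?_ ?_)
    · rw [map_mul, mul_comm]
      exact mul_lt_one_of_lt_of_le hlt (h7 a)
    · rw [map_mul, mul_comm]
      exact mul_lt_one_of_lt_of_le hV (h7 b)
  rw [h6, map_one] at h8
  exact lt_irrefl _ h8

theorem qi_iter {π : O} (hp : Prime π) (hpr : Prim π) (V : ValuationSubring Ω) (hV : vo V π < 1)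
    {P : P27 Ω} (hP : P ≠ 0) (h1 : V.valuation (xc P) ≤ 1) (f : ℕ) :
    act (π ^ f) P ≠ 0 ∧ V.valuation (xc (act (π ^ f) P)) ≤ 1 ∧
      V.valuation (xc (act (π ^ f) P) - xc P ^ H55B.Nm π ^ f) < 1 ∧
      V.valuation (yc (act (π ^ f) P) - yc P ^ H55B.Nm π ^ f) < 1 := by
  have hy1 : V.valuation (yc P) ≤ 1 := int_y V.valuation h1
  induction f with
  | zero =>
    rw [pow_zero, pow_zero, act_one, pow_one, pow_one, sub_self, sub_self, map_zero]
    exact ⟨hP, h1, zero_lt_one, zero_lt_one⟩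
  | succ f ih =>
    obtain ⟨i1, i2, i3, i4⟩ := ih
    obtain ⟨j1, j2, j3, j4⟩ := kr_kron π hp hpr V hV i1 i2
    rw [pow_succ', act_mul]
    refine ⟨j1, j2, ?_, ?_⟩
    · have h2 := qi_pow V i2 (by rw [map_pow]; exact pow_le_one' h1 _) i3 (H55B.Nm π)
      have h3 : xc (act π (act (π ^ f) P)) - xc P ^ H55B.Nm π ^ (f + 1) =
          (xc (act π (act (π ^ f) P)) - xc (act (π ^ f) P) ^ H55B.Nm π) +
          (xc (act (π ^ f) P) ^ H55B.Nm π - (xc P ^ H55B.Nm π ^ f) ^ H55B.Nm π) := by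
        rw [← pow_mul, ← pow_succ]
        ring
      rw [h3]
      exact lt_of_le_of_lt (V.valuation.map_add _ _) (max_lt j3 h2)
    · have h2 := qi_pow V (int_y V.valuation i2) (by rw [map_pow]; exact pow_le_one' hy1 _) i4 (H55B.Nm π)
      have h3 : yc (act π (act (π ^ f) P)) - yc P ^ H55B.Nm π ^ (f + 1) =
          (yc (act π (act (π ^ f) P)) - yc (act (π ^ f) P) ^ H55B.Nm π) +
          (yc (act (π ^ f) P) ^ H55B.Nm π - (yc P ^ H55B.Nm π ^ f) ^ H55B.Nm π) := by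
        rw [← pow_mul, ← pow_succ]
        ring
      rw [h3]
      exact lt_of_le_of_lt (V.valuation.map_add _ _) (max_lt j4 h2)

theorem qi_ac_sub (s : Ω ≃ₐ[F] Ω) (P Q : P27 Ω) : ac W27 s (P - Q) = ac W27 s P - ac W27 s Q := by
  exact map_sub (mp s.toAlgHom) P Q

/-- Chunk QI (M). In the inert case the local point can be taken in the kernel of reduction. C.loc: c s = ac s P - P. If P is in the kernel of reduction take Q = P. If
P = 0 also. Otherwise xc P, yc P are in V, and their classes lie in a finite field (P has coordinates in a number field; V lies above a prime because vo V pi < 1): x^(q^f) = x, y^(q^f) = y modulo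
the maximal ideal for some f ≥ 1, q = Nm pi. kr_kron f times: act (pi^f) P is congruent to (x^(q^f), y^(q^f)) = (x, y), so P' = act (pi^f) P - P = act (pi^f - 1) P is in the kernel of
reduction (kr_congr). ac s P' - P' = act (pi^f - 1) (c s) = - c s, because act pi (c s) = 0 (C.val with cj pi = pi). Q = -P'. -/
theorem inert_point {π : O} {l : ℕ} {c : (Ω ≃ₐ[F] Ω) → P27 Ω} (C : Cl π l c) (hin : cj π = π)
    (V : ValuationSubring Ω) (hV : vo V π < 1) :
    ∃ Q : P27 Ω, Kr V Q ∧ ∀ s, Inert V s → c s = ac W27 s Q - Q := by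
  have hl := C.hl
  have hVl : V.valuation (l : Ω) < 1 := by
    obtain ⟨b, hb⟩ := C.dvd
    have h1 : vo V (l : O) = vo V π * vo V b := by
      rw [hb]
      rw [← vo_eq, ← vo_eq, ← vo_eq, map_mul, map_mul]
    have h2 : vo V (l : O) = V.valuation (l : Ω) := by
      change V.valuation (algebraMap F Ω ((l : O) : F)) = _
      push_cast
      rfl
    rw [← h2, h1]
    exact mul_lt_one_of_lt_of_le hV (qi_vo V b)
  have hV3 : V.valuation (3 : Ω) = 1 := qi_three V l hl C.five hVl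
  obtain ⟨P, hP⟩ := C.loc V
  by_cases hK : Kr V P
  · exact ⟨P, hK, hP⟩
  have hP0 : P ≠ 0 := fun h => hK (Or.inl h)
  have hx1 : V.valuation (xc P) ≤ 1 := not_lt.1 fun h => hK (Or.inr h)
  have hy1 : V.valuation (yc P) ≤ 1 := int_y V.valuation hx1
  obtain ⟨k1, hk1, h1⟩ := qi_res V l hl hVl (xc P) hx1
  obtain ⟨k2, hk2, h2⟩ := qi_res V l hl hVl (yc P) hy1
  obtain ⟨a, ha⟩ : ∃ a, H55B.Nm π = l ^ a := by
    have h3 : H55B.Nm π ∣ l ^ 2 := by
      obtain ⟨b, hb⟩ := C.dvd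
      refine ⟨H55B.Nm b, ?_⟩
      rw [← Nm_mul, ← hb]
      have := Nm_repr (l : ℤ) 0
      push_cast at this
      rw [zero_mul, add_zero] at this
      zify
      rw [this]
      ring
    obtain ⟨a, _, ha⟩ := (Nat.dvd_prime_pow hl).1 h3
    exact ⟨a, ha⟩
  have hkr := qi_iter C.pr C.prim V hV hP0 hx1
  obtain ⟨e1, e2, e3, e4⟩ := hkr (k1 * k2)
  have hq1 : (H55B.Nm π) ^ (k1 * k2) = (l ^ k1) ^ (a * k2) := by
    rw [ha, ← pow_mul, ← pow_mul]
    congr 1
    ring
  have hq2 : (H55B.Nm π) ^ (k1 * k2) = (l ^ k2) ^ (a * k1) := by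
    rw [ha, ← pow_mul, ← pow_mul]
    congr 1
    ring
  have hcx : V.valuation (xc (act (π ^ (k1 * k2)) P) - xc P) < 1 := by
    have h5 := h1 (a * k2)
    rw [← hq1] at h5
    have h6 : xc (act (π ^ (k1 * k2)) P) - xc P = (xc (act (π ^ (k1 * k2)) P) - xc P ^ H55B.Nm π ^ (k1 * k2)) +
        (xc P ^ H55B.Nm π ^ (k1 * k2) - xc P) := by ring
    rw [h6]
    exact lt_of_le_of_lt (V.valuation.map_add _ _) (max_lt e3 h5)
  have hcy : V.valuation (yc (act (π ^ (k1 * k2)) P) - yc P) < 1 := by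
    have h5 := h2 (a * k1)
    rw [← hq2] at h5
    have h6 : yc (act (π ^ (k1 * k2)) P) - yc P = (yc (act (π ^ (k1 * k2)) P) - yc P ^ H55B.Nm π ^ (k1 * k2)) +
        (yc P ^ H55B.Nm π ^ (k1 * k2) - yc P) := by ring
    rw [h6]
    exact lt_of_le_of_lt (V.valuation.map_add _ _) (max_lt e4 h5)
  have hK' := kr_congr V hV3 e1 hP0 e2 hcx hcy
  refine ⟨P - act (π ^ (k1 * k2)) P, ?_, ?_⟩
  · have h7 := kr_act V (-1 : O) hK'
    rw [act_neg, act_one, neg_sub] at h7
    exact h7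
  · intro s hs
    have h8 := hP s hs
    have h9 : act π (c s) = 0 := by
      have h10 := C.val s
      rw [hin] at h10
      exact h10
    have h11 : act (π ^ (k1 * k2)) (c s) = 0 := by
      obtain ⟨m, hm⟩ := Nat.exists_eq_succ_of_ne_zero (Nat.mul_pos hk1 hk2).ne'
      rw [hm, Nat.succ_eq_add_one, pow_succ, act_mul, h9, map_zero]
    have h12 : ac W27 s (P - act (π ^ (k1 * k2)) P) = ac W27 s P - act (π ^ (k1 * k2)) (ac W27 s P) := by
      rw [qi_ac_sub, ac_act]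
    rw [h12]
    have h13 : act (π ^ (k1 * k2)) (ac W27 s P) = act (π ^ (k1 * k2)) P := by
      have h14 : ac W27 s P = c s + P := by rw [h8, sub_add_cancel]
      rw [h14, map_add, h11, zero_add]
    rw [h13, h8]
    abel

end H13S
end

-- from Lib.H13S.QR
section

open NumberField IsDedekindDomain

namespace H13S

open H55P H28G H55B

variable {Ω : Type} [Field Ω] [DecidableEq Ω] [Algebra F Ω] [IsAlgClosure F Ω]

/-- Chunk QR (S/M). Ratios of parameters. tau = V.valuation (tt R), tau^(q-1) = vo V pi = r^q, r = V.valuation (tt Q) < 1, q = Nm pi ≥ 3, so tau < r and r^2 < tau (tau^(q-1) = r^q > r^(2(q-1))).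
kr_tt_add with c = r: V.valuation (tt (Q+R) - tt Q - tt R) ≤ r^2 < tau < r. So V.valuation (tt (Q+R)) = r and V.valuation (tt (Q + R) - tt Q) = tau. -/
theorem val_ratio {π : O} (hπ : Prime π) (h3 : Prim π) (hq : 3 ≤ H55B.Nm π) (V : ValuationSubring Ω)
    (hV : vo V π < 1) (Q : P27 Ω) (hQ : Kr V Q) (hv : V.valuation (tt Q) ^ H55B.Nm π = vo V π)
    (R : P27 Ω) (hR : R ∈ Tor π Ω) (h0 : R ≠ 0) :
    V.valuation (tt (Q + R)) = V.valuation (tt Q) ∧
      V.valuation (tt (Q + R) - tt Q) = V.valuation (tt R) ∧ V.valuation (tt R) < V.valuation (tt Q) := by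
  obtain ⟨hKR, hτ⟩ := kr_tor_ram π hπ h3 V hV hR h0
  have hπ0 : vo V π ≠ 0 := by
    have h1 : algebraMap F Ω (π : F) ≠ 0 := by
      intro h
      have h2 : (π : F) = 0 := (map_eq_zero _).1 h
      exact hπ.ne_zero (by exact_mod_cast h2)
    simpa [vo] using h1
  set r := V.valuation (tt Q) with hr
  set τ := V.valuation (tt R) with hτd
  have hq1 : H55B.Nm π - 1 ≠ 0 := by omega
  have hr0 : r ≠ 0 := by
    intro h
    rw [h, zero_pow (by omega)] at hv
    exact hπ0 hv.symm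
  have hr1 : r < 1 := kr_tt_lt V hQ
  have hrp : 0 < r := zero_lt_iff.2 hr0
  have hlt : τ < r := by
    by_contra hle
    rw [not_lt] at hle
    have h1 : r ^ (H55B.Nm π - 1) ≤ τ ^ (H55B.Nm π - 1) := pow_le_pow_left₀ zero_le hle _
    rw [hτ, ← hv] at h1
    exact absurd h1 (not_le.2 (pow_lt_pow_right_of_lt_one₀ hrp hr1 (by omega)))
  have hlt2 : r ^ 2 < τ := by
    by_contra hle
    rw [not_lt] at hle
    have h1 : τ ^ (H55B.Nm π - 1) ≤ (r ^ 2) ^ (H55B.Nm π - 1) := pow_le_pow_left₀ zero_le hle _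
    rw [hτ, ← hv, ← pow_mul] at h1
    exact absurd h1 (not_le.2 (pow_lt_pow_right_of_lt_one₀ hrp hr1 (by omega)))
  have hadd := kr_tt_add V hQ hKR r le_rfl hlt.le
  have h4 : V.valuation (tt (Q + R) - tt Q) = τ := by
    have : tt (Q + R) - tt Q = (tt (Q + R) - tt Q - tt R) + tt R := by ring
    rw [this]
    exact Valuation.map_add_eq_of_lt_right _ (lt_of_le_of_lt hadd hlt2)
  have h5 : V.valuation (tt (Q + R)) = r := by
    have : tt (Q + R) = (tt (Q + R) - tt Q) + tt Q := by ring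
    rw [this]
    exact Valuation.map_add_eq_of_lt_right _ (by rw [h4]; exact hlt)
  exact ⟨h5, h4, hlt⟩

end H13S
end

-- from Lib.H28G.KDefs
section

/-!
# H28G: torsion fields (number fields)

N/K are number fields over F. `sp σ` is the action of σ in Gal(N/K) on the points over N. `TFld K N b` says that
N is the field generated over K by the points killed by b.
-/

open NumberField IsDedekindDomain WeierstrassCurve

namespace H28G

open H55B H55R H99B

section
variable {K N : Type} [Field K] [Field N] [DecidableEq N] [Algebra F K] [Algebra K N] [Algebra F N]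
  [IsScalarTower F K N]

/-- The action of the Galois group on the points. -/
noncomputable def sp (σ : Gal(N/K)) : P27 N →+ P27 N :=
  mp ((AlgEquiv.restrictScalars F σ : N ≃ₐ[F] N) : N →ₐ[F] N)

theorem xc_sp (σ : Gal(N/K)) (P : P27 N) : xc (sp σ P) = σ (xc P) := xc_mp _ P

theorem yc_sp (σ : Gal(N/K)) (P : P27 N) : yc (sp σ P) = σ (yc P) := yc_mp _ P


theorem tt_sp (σ : Gal(N/K)) (P : P27 N) : tt (sp σ P) = σ (tt P) := tt_mp _ P

theorem sp_ne (σ : Gal(N/K)) {P : P27 N} (hP : P ≠ 0) : sp σ P ≠ 0 := mp_ne _ hP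

theorem sp_act (σ : Gal(N/K)) (c : O) (P : P27 N) : sp σ (act c P) = act c (sp σ P) := mp_act _ c P


theorem sp_mem (σ : Gal(N/K)) (c : O) (P : P27 N) : sp σ P ∈ Tor c N ↔ P ∈ Tor c N :=
  mp_mem_Tor _ c P

theorem sp_one (P : P27 N) : sp (1 : Gal(N/K)) P = P := by
  by_cases hP : P = 0
  · rw [hP, map_zero]
  · exact pt_ext (sp_ne _ hP) hP (xc_sp _ P) (yc_sp _ P)

theorem sp_mul (σ τ : Gal(N/K)) (P : P27 N) : sp (σ * τ) P = sp σ (sp τ P) := by
  by_cases hP : P = 0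
  · rw [hP, map_zero, map_zero, map_zero]
  · refine pt_ext (sp_ne _ hP) (sp_ne _ (sp_ne _ hP)) ?_ ?_
    · rw [xc_sp, xc_sp, xc_sp]
      rfl
    · rw [yc_sp, yc_sp, yc_sp]
      rfl



end

section
variable (K N : Type) [Field K] [Field N] [DecidableEq N] [Algebra F K] [Algebra K N] [Algebra F N]
  [IsScalarTower F K N]

/-- N is the field generated over K by the points killed by b. -/
structure TFld (b : O) : Prop where
  gal : IsGalois K N
  full : Full b N
  gen : ∀ σ : Gal(N/K), (∀ R ∈ Tor b N, sp σ R = R) → σ = 1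

end

section
variable (K : Type) [Field K] (Ω : Type) [Field Ω] [DecidableEq Ω] [Algebra F Ω] [Algebra K Ω]

/-- The field generated over K by the coordinates of the points over Ω killed by b. -/
noncomputable def TF (b : O) : IntermediateField K Ω :=
  IntermediateField.adjoin K {x | ∃ R ∈ Tor b Ω, x = xc R ∨ x = yc R}

end

section
variable {N : Type} [Field N] [Algebra F N]

/-- The map to k at a number field over F: a k-valued residue map of 𝓞 N compatible with q. -/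
theorem exists_emb [NumberField N] : Nonempty (N →ₐ[F] ℂ) := by
  have h1 : Algebra.IsAlgebraic ℚ N := inferInstance
  have h2 : Algebra.IsAlgebraic F N := Algebra.IsAlgebraic.tower_top (K := ℚ) F
  exact ⟨IsAlgClosed.lift⟩

/-- The value of b at a prime not containing it. -/
theorem ak_int (c : O) [NumberField N] : ak N c = ((algebraMap O (𝓞 N) c : 𝓞 N) : N) := by
  unfold ak
  exact (IsScalarTower.algebraMap_apply O (𝓞 N) N c).symm.trans rfl |>.symm ▸ rfl

end

end H28G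
end

-- from Lib.H28G.K4
section

open NumberField IsDedekindDomain WeierstrassCurve

namespace H28G

open H55B H55R H99B

/-! Chunk K4 (M): congruences between torsion points, unramified primes. val_one: c in O, c not in W: W.valuation N (ak N c) = 1 (ak_int, HeightOneSpectrum.valuation_eq_one_iff or intValuation). fix_of_cong: W a prime of N with 3, b not in W. R, R' in Tor b N,
with xc R = xc R', yc R = yc R' modulo W: R = R'. (If one of them is 0, both are 0, is not implied by the coordinates, so R, R' <> 0 is assumed.) R - R' is in E1 (red_sub: xc R is W-integral, otherwise R in E1 and R = 0 by tor_unit) and in Tor b N, so it is 0 by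
tor_unit. unram: let W be a prime above v. The inertia group of W (Ideal.inertia, Mathlib.NumberTheory.RamificationInertia.Galois: card_inertia_eq_ramificationIdxIn) has es K N v elements. σ in the inertia group: σ x - x in W for all x in 𝓞 N, so
W.valuation (σ x - x) < 1 for every W-integral x in N: write x = a/s with a, s in 𝓞 N, s not in W (H55R.exists_frac or similar in HB1/HB2; σ s - s in W so σ s not in W). Hence for R in Tor b N, R <> 0: sp σ R = R by fix_of_cong (xc_sp, yc_sp, sp_ne). So σ = 1 (h.gen). -/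

theorem val_one {N : Type} [Field N] [NumberField N] [Algebra F N] (W : Pl N) (c : O)
    (h : algebraMap O (𝓞 N) c ∉ W.asIdeal) : W.valuation N (ak N c) = 1 := by
  rw [ak_int]
  exact (HeightOneSpectrum.valuation_eq_one_iff_notMem (K := N) W).2 h

theorem val_three {N : Type} [Field N] [NumberField N] (W : Pl N) (h : (3 : 𝓞 N) ∉ W.asIdeal) :
    W.valuation N 3 = 1 := by
  have e : (3 : N) = algebraMap (𝓞 N) N 3 := by
    rw [map_ofNat]
  rw [e]
  exact (HeightOneSpectrum.valuation_eq_one_iff_notMem (K := N) W).2 h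

/-- Torsion points of order prime to W are W-integral. -/
theorem tor_int {N : Type} [Field N] [NumberField N] [DecidableEq N] [Algebra F N] (W : Pl N) {b : O}
    (hb : algebraMap O (𝓞 N) b ∉ W.asIdeal) {R : P27 N} (hR : R ∈ Tor b N) (h0 : R ≠ 0) :
    W.valuation N (xc R) ≤ 1 := by
  by_contra h
  rw [not_le] at h
  exact h0 (tor_unit (W.valuation N) (val_one W b hb) hR (Or.inr h))

theorem fix_of_cong {N : Type} [Field N] [NumberField N] [DecidableEq N] [Algebra F N] (W : Pl N)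
    (h3 : (3 : 𝓞 N) ∉ W.asIdeal) {b : O} (hb : algebraMap O (𝓞 N) b ∉ W.asIdeal) {R R' : P27 N}
    (hR : R ∈ Tor b N) (hR' : R' ∈ Tor b N) (h0 : R ≠ 0) (h0' : R' ≠ 0)
    (hx : W.valuation N (xc R - xc R') < 1) (hy : W.valuation N (yc R - yc R') < 1) : R = R' := by
  have h1 := red_sub (W.valuation N) (val_three W h3) h0 h0' (tor_int W hb hR h0)
    (tor_int W hb hR' h0') hx hy
  exact sub_eq_zero.1 (tor_unit (W.valuation N) (val_one W b hb) (sub_mem hR hR') h1)

/-- An element of the inertia group moves integral elements by elements of W. -/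
theorem K4_iner {K N : Type} [Field K] [NumberField K] [Field N] [NumberField N] [Algebra K N]
    (W : Pl N) (σ : Gal(N/K)) (hσ : ∀ x : 𝓞 N, σ • x - x ∈ W.asIdeal) (x : N)
    (hx : W.valuation N x ≤ 1) : W.valuation N (σ x - x) < 1 := by
  obtain ⟨a, d, h⟩ := HeightOneSpectrum.exists_primeCompl_mul_eq_of_integer W x hx
  have hd : (d : 𝓞 N) ∉ W.asIdeal := d.2
  have hsd : (σ • (d : 𝓞 N)) ∉ W.asIdeal := by
    intro h1
    apply hd
    have h2 := sub_mem h1 (hσ (d : 𝓞 N))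
    rw [sub_sub_cancel] at h2
    exact h2
  have hd1 : W.valuation N (((d : 𝓞 N)) : N) = 1 :=
    (HeightOneSpectrum.valuation_eq_one_iff_notMem (K := N) W).2 hd
  have hsd1 : W.valuation N (σ (((d : 𝓞 N)) : N)) = 1 :=
    (HeightOneSpectrum.valuation_eq_one_iff_notMem (K := N) W).2 hsd
  have hd0 : (((d : 𝓞 N)) : N) ≠ 0 := by
    intro h0
    rw [h0, map_zero] at hd1
    exact zero_ne_one hd1
  have hsd0 : σ (((d : 𝓞 N)) : N) ≠ 0 := by
    intro h0
    rw [h0, map_zero] at hsd1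
    exact zero_ne_one hsd1
  have hxa : x * (((d : 𝓞 N)) : N) = (a : N) := h
  have hsx : σ x * σ (((d : 𝓞 N)) : N) = σ (a : N) := by
    rw [← map_mul, hxa]
  have ha1 : W.valuation N (σ (a : N) - (a : N)) < 1 :=
    (W.valuation_lt_one_iff_mem (σ • a - a)).2 (hσ a)
  have hdd : W.valuation N (σ (((d : 𝓞 N)) : N) - (((d : 𝓞 N)) : N)) < 1 :=
    (W.valuation_lt_one_iff_mem (σ • (d : 𝓞 N) - (d : 𝓞 N))).2 (hσ _)
  have e : (σ x - x) * σ (((d : 𝓞 N)) : N) =
      (σ (a : N) - (a : N)) - x * (σ (((d : 𝓞 N)) : N) - (((d : 𝓞 N)) : N)) := by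
    linear_combination hsx - hxa
  have h5 : W.valuation N (σ x - x) = W.valuation N ((σ x - x) * σ (((d : 𝓞 N)) : N)) := by
    rw [map_mul, hsd1, mul_one]
  rw [h5, e]
  refine Valuation.map_sub_lt _ ha1 ?_
  rw [map_mul]
  exact (mul_le_of_le_one_left zero_le hx).trans_lt hdd

theorem unram {K N : Type} [Field K] [NumberField K] [Field N] [NumberField N] [DecidableEq N]
    [Algebra F K] [Algebra K N] [Algebra F N] [IsScalarTower F K N] {b : O} (h : TFld K N b)
    (v : Pl K) (h3 : (3 : 𝓞 K) ∉ v.asIdeal) (hb : algebraMap O (𝓞 K) b ∉ v.asIdeal) :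
    es K N v = 1 := by
  have hgal := h.gal
  obtain ⟨W, hW⟩ := under_exists (L := N) v
  have hp := v.isPrime
  have hWp := W.isPrime
  have hl : W.asIdeal.LiesOver v.asIdeal := (BF2_mem v W hW).2
  have h1 := Ideal.card_inertia_eq_ramificationIdxIn (G := Gal(N/K)) v.asIdeal W.asIdeal
  have hmem : ∀ x : 𝓞 K, algebraMap (𝓞 K) (𝓞 N) x ∈ W.asIdeal ↔ x ∈ v.asIdeal := by
    intro x
    rw [← hW]
    exact Iff.rfl
  have h3' : (3 : 𝓞 N) ∉ W.asIdeal := by
    intro h4
    apply h3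
    rw [← hmem, map_ofNat]
    exact h4
  have hb' : algebraMap O (𝓞 N) b ∉ W.asIdeal := by
    intro h4
    apply hb
    rw [← hmem]
    have e : algebraMap (𝓞 K) (𝓞 N) (algebraMap O (𝓞 K) b) = algebraMap O (𝓞 N) b := by
      apply RingOfIntegers.ext
      rw [← ak_int (N := N) b]
      show algebraMap K N ((algebraMap O (𝓞 K) b : 𝓞 K) : K) = ak N b
      rw [← ak_int (N := K) b]
      exact (IsScalarTower.algebraMap_apply F K N _).symm
    rw [e]
    exact h4
  have hbot : W.asIdeal.inertia Gal(N/K) = ⊥ := by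
    rw [eq_bot_iff]
    intro σ hσ
    rw [Subgroup.mem_bot]
    apply h.gen
    intro R hR
    by_cases hR0 : R = 0
    · rw [hR0, map_zero]
    · have hx1 := tor_int W hb' hR hR0
      have hy1 := int_y (W.valuation N) hx1
      refine fix_of_cong W h3' hb' ((sp_mem σ b R).2 hR) hR (sp_ne σ hR0) hR0 ?_ ?_
      · rw [xc_sp]
        exact K4_iner W σ hσ _ hx1
      · rw [yc_sp]
        exact K4_iner W σ hσ _ hy1
  rw [hbot] at h1
  have h2 : Nat.card (⊥ : Subgroup Gal(N/K)) = 1 := Subgroup.card_bot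
  rw [h2] at h1
  exact h1.symm

end H28G
end

-- from Lib.H55K.KOk
section

open NumberField IsDedekindDomain WeierstrassCurve

namespace H55K

open H55P (IQ embF eF LF Per IsHecke Pt ac Inert Dec Nm)
open H35P (WAB Ker tt)
open H55R (Pl ord es fs smulP)

/-! The good primes of degree one of F (definition). -/

variable {F : Type} [Field F] [NumberField F] [IQ F] {A B : F} {Om : ℂ} {Ω : Type} [Field Ω] [DecidableEq Ω]
  [Algebra F Ω] {j : Ω →+* ℂ} {act : 𝓞 F →+* AddMonoid.End (Pt (WAB A B) Ω)}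

/-- The prime v of F of degree one is good for the construction of the auxiliary field. -/
structure Okv (A B : F) {Ω : Type} [Field Ω] [DecidableEq Ω] [Algebra F Ω]
    (act : 𝓞 F →+* AddMonoid.End (Pt (WAB A B) Ω)) (m : Ideal (𝓞 F)) (ψ : Ideal (𝓞 F) →*₀ 𝓞 F) (l : ℕ)
    (π : 𝓞 F) (Ξ : Pt (WAB A B) Ω → Ω) (v : Pl F) : Prop where
  deg : (Ideal.absNorm v.asIdeal).Prime
  nl : (l : 𝓞 F) ∉ v.asIdeal
  cop : IsCoprime v.asIdeal m
  gv : ∀ V : ValuationSubring Ω, V.valuation ((Ideal.absNorm v.asIdeal : ℕ) : Ω) < 1 → GV A B V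
  frob : ∀ V : ValuationSubring Ω, (∀ a : 𝓞 F, a ∈ v.asIdeal → V.valuation (ak Ω a) < 1) →
      ∀ s : Ω ≃ₐ[F] Ω, (∀ x ∈ V, V.valuation (s x - x ^ Ideal.absNorm v.asIdeal) < 1) →
        ∀ n : ℕ, V.valuation (n : Ω) = 1 → ∀ T : Pt (WAB A B) Ω, n • T = 0 →
          ac (WAB A B) s T = act (ψ v.asIdeal) T
  xi : ∀ T ∈ Tor act π, T ≠ 0 →
      (∀ R ∈ Tor act (ψ v.asIdeal), ∀ V : ValuationSubring Ω, V.valuation (Ξ (T + R)) = 1) ∧
      (∀ R ∈ Tor act (ψ v.asIdeal), ∀ V : ValuationSubring Ω, V.valuation (ak Ω (ψ v.asIdeal)) < 1 →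
        V.valuation (Ξ (T + R) - Ξ T) < 1) ∧
      (act (ψ v.asIdeal) T = T → ∀ S' : Finset (Pt (WAB A B) Ω), TN act (ψ v.asIdeal) S' →
        ∏ R ∈ S', Ξ (T + R) = 1)

end H55K
end

-- from Lib.SSG.LT.Defs
section

/-! # SSG, module (LT): the local model at an inert prime -/

open NumberField IsDedekindDomain WeierstrassCurve

namespace SSG

open H55P (IQ embF eF LF Per IsHecke Pt ac Inert Dec)
open H35P (WAB Ker tt)
open H55K

/-- The local model at the valuation ring V of Ω above the inert prime p: an embedding i of Ω in ℂ_[p] inducing V, the points T N of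
order p^N with parameter 1/(-p)^N, a Lubin-Tate frame L, and the coordinate x/y of the multiples of T N as integral function of the
Lubin-Tate coordinates. -/
structure LocM {F : Type} [Field F] [NumberField F] [IQ F] (A B : F) (Om : ℂ) {Ω : Type} [Field Ω] [DecidableEq Ω]
    [Algebra F Ω] (j : Ω →+* ℂ) (act : 𝓞 F →+* AddMonoid.End (Pt (WAB A B) Ω)) (p : ℕ) [Fact p.Prime]
    (V : ValuationSubring Ω) (i : Ω →+* ℂ_[p]) (T : ℕ → Pt (WAB A B) Ω) (L : LTF F ℂ_[p]) : Prop where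
  val : ∀ x : Ω, x ∈ V ↔ ‖i x‖ ≤ 1
  ok : L.Ok p
  good : L.Good p
  zero : ∀ N (a : 𝓞 F), act a (T N) = 0 ↔ (p : 𝓞 F) ^ N ∣ a
  down : ∀ N, act (-(p : 𝓞 F)) (T (N + 1)) = T N
  unif : ∀ N (a : 𝓞 F), ¬ (p : 𝓞 F) ^ N ∣ a →
    j (xc (act a (T N))) = (LF F).weierstrassP (eF F a / (-(p : ℂ)) ^ N) / Om ^ 2 ∧
    j (yc (act a (T N))) = (LF F).derivWeierstrassP (eF F a / (-(p : ℂ)) ^ N) / (2 * Om ^ 3)
  ker : ∀ N (a : 𝓞 F), Ker V (act a (T N))
  fn : ∀ (N : ℕ) (ι : Type) [Fintype ι] (c : ι → 𝓞 F), L.Fn N ι (fun a => i (tt (act (∑ k, c k * a k) (T N))))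

end SSG
end

-- from Lib.H55K.GF
section

/-! # H55K: inertia at the other places -/

open NumberField IsDedekindDomain WeierstrassCurve

namespace H55K

open H55P (IQ embF eF LF Per IsHecke Pt ac Inert Dec Nm)
open H35P (WAB Ker tt)


variable {F : Type} [Field F] [NumberField F] [IQ F] {A B : F} {Om : ℂ} {Ω : Type} [Field Ω] [DecidableEq Ω]
  [Algebra F Ω] {j : Ω →+* ℂ} {act : 𝓞 F →+* AddMonoid.End (Pt (WAB A B) Ω)} {V : ValuationSubring Ω}

theorem gf_Nm {l : ℕ} (hl : l.Prime) {π : 𝓞 F} (hπ : Prime π) (hd : π ∣ (l : 𝓞 F)) : l ≤ Nm π := by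
  obtain ⟨c, hc⟩ := hd
  have h1 : Nm π ∣ l ^ 2 := ⟨Nm c, by rw [← Nm_mul, ← hc, Nm_nat]⟩
  have h2 : Nm π ≠ 1 := by
    intro h
    unfold H55P.Nm at h
    rw [Ideal.absNorm_eq_one_iff, Ideal.span_singleton_eq_top] at h
    exact hπ.not_isUnit h
  obtain ⟨i, hi, h3⟩ := (Nat.dvd_prime_pow hl).1 h1
  have hi0 : i ≠ 0 := by
    rintro rfl
    exact h2 (by rw [h3, pow_zero])
  rw [h3]
  exact Nat.le_self_pow hi0 l

/-- Chunk GF (S/M). At least five points are killed by π (tor_card: Nm π ≥ 5, a power of l, l ≥ 5: π divides l, Nm π divides Nm l = l^2, Nm π ≠ 1): take T₁ ≠ 0 in Tor act π and T₂ in Tor act π, not in {0, T₁, -T₁}. Then T₁, T₂, T₁ - T₂, T₁ + T₂, T₁ + T₁ (l odd) are nonzero points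
killed by l (l = π * c; act l T = l • T), so they are not in Kg (hG.tors l hV). hG.inert: sP - P in Kg for every P; hG.tors n. -/
theorem inert_fix (h : CMA F A B Om j act) {l : ℕ} (hl : l.Prime) (h5 : 5 ≤ l) {π : 𝓞 F} (hπ : Prime π)
    (hd : π ∣ (l : 𝓞 F)) {Kg : AddSubgroup (Pt (WAB A B) Ω)} {u : Ω} (hG : GMod (WAB A B) V Kg u)
    (hV : V.valuation (l : Ω) = 1) (s : Ω ≃ₐ[F] Ω) (hs : Inert V s)
    (hf : ∀ T ∈ Tor act π, ac (WAB A B) s T = T) (n : ℕ) (hn : V.valuation (n : Ω) = 1) (P : Pt (WAB A B) Ω)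
    (hP : n • (ac (WAB A B) s P - P) = 0) : ac (WAB A B) s P = P := by
  have hN := gf_Nm hl hπ hd
  have hcard := tor_card h hπ.ne_zero
  obtain ⟨c, hc⟩ := hd
  have hkill : ∀ T ∈ Tor act π, l • T = 0 := by
    intro T hT
    have h1 : act (l : 𝓞 F) T = 0 := by
      rw [hc, mul_comm, map_mul]
      change act c (act π T) = 0
      rw [show act π T = 0 from hT, map_zero]
    rw [map_natCast] at h1
    exact h1
  have hnc : ((Tor act π : AddSubgroup (Pt (WAB A B) Ω)) : Set (Pt (WAB A B) Ω)).ncard = Nm π := hcard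
  obtain ⟨T₁, hT₁, hT₁'⟩ := Set.exists_mem_notMem_of_ncard_lt_ncard
    (s := ({0} : Set (Pt (WAB A B) Ω))) (t := ((Tor act π : AddSubgroup (Pt (WAB A B) Ω)) : Set (Pt (WAB A B) Ω)))
    (by rw [hnc, Set.ncard_singleton]; omega) (Set.toFinite _)
  have h3 : ({0, T₁, -T₁} : Set (Pt (WAB A B) Ω)).ncard ≤ 3 := by
    have h4 := Set.ncard_insert_le (0 : Pt (WAB A B) Ω) {T₁, -T₁}
    have h6 := Set.ncard_insert_le T₁ {-T₁}
    rw [Set.ncard_singleton] at h6
    omega
  obtain ⟨T₂, hT₂, hT₂'⟩ := Set.exists_mem_notMem_of_ncard_lt_ncard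
    (s := ({0, T₁, -T₁} : Set (Pt (WAB A B) Ω)))
    (t := ((Tor act π : AddSubgroup (Pt (WAB A B) Ω)) : Set (Pt (WAB A B) Ω)))
    (by rw [hnc]; omega) (Set.toFinite _)
  have hno : ∀ T ∈ Tor act π, T ≠ 0 → T ∉ Kg := fun T hT h0 hK => h0 (hG.tors l hV T hK (hkill T hT))
  have hm₁ : T₁ ∈ Tor act π := hT₁
  have hm₂ : T₂ ∈ Tor act π := hT₂
  have hn₁ : T₁ ≠ 0 := hT₁'
  have hn₂ : T₂ ≠ 0 := fun h0 => hT₂' (Or.inl h0)
  have hn₃ : T₁ - T₂ ≠ 0 := fun h0 => hT₂' (Or.inr (Or.inl (sub_eq_zero.1 h0).symm))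
  have hn₄ : T₁ + T₂ ≠ 0 := fun h0 => hT₂' (Or.inr (Or.inr (eq_neg_of_add_eq_zero_right h0)))
  have hn₅ : T₁ + T₁ ≠ 0 := by
    intro h0
    obtain ⟨k, hk⟩ := hl.odd_of_ne_two (by omega)
    apply hn₁
    have h7 := hkill T₁ hm₁
    rw [hk, add_smul, mul_comm, mul_smul, two_smul, h0, smul_zero, one_smul, zero_add] at h7
    exact h7
  have h8 := hG.inert s hs ⟨T₁, T₂, hno T₁ hm₁ hn₁, hno T₂ hm₂ hn₂, hno _ (sub_mem hm₁ hm₂) hn₃,
    hno _ (add_mem hm₁ hm₂) hn₄, hno _ (add_mem hm₁ hm₁) hn₅, hf T₁ hm₁, hf T₂ hm₂⟩ P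
  exact sub_eq_zero.1 (hG.tors n hn _ h8 hP)

end H55K
end

-- from Lib.H55K.K0B
section

open NumberField IsDedekindDomain WeierstrassCurve

namespace H55K

open H55P (IQ embF eF LF Per IsHecke Pt ac Inert Dec Nm)
open H35P (WAB Ker tt)
open H55R (Pl ord es fs smulP)

/-! Chunk K0B (M). Extension and restriction of automorphisms. F ⊂ K ⊂ N ⊂ Ω, Ω an algebraic closure of F (IsAlgClosure.isAlgClosed F, IsAlgClosure.isAlgebraic, normal: IsAlgClosure.normal F Ω).
exists_lft: σ.restrictScalars F : N ≃ₐ[F] N, s = AlgEquiv.liftNormal _ Ω, AlgEquiv.liftNormal_commutes. fxd: for x : K: algebraMap K Ω x = algebraMap N Ω (algebraMap K N x) (IsScalarTower.algebraMap_apply), σ.commutes.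
mul, one, inv: direct (σ⁻¹: apply s to both sides). exists_res: s as a K-automorphism s' of Ω (AlgEquiv.ofRingEquiv, commutes by hs); σ = s'.restrictNormal N (AlgEquiv.restrictNormal needs Normal K N), AlgEquiv.restrictNormal_commutes.
lft_eq: if s extends σ and τ then σ = τ (algebraMap N Ω is injective). lft_one: if s fixes N then it extends 1; if it extends σ and fixes N then σ = 1.
mem_of_fxd: x in Ω fixed by all s with Fxd N s is in the image of N: N' = (IsScalarTower.toAlgHom F N Ω).fieldRange : IntermediateField F Ω; x in fixedField (fixingSubgroup N') = N' (InfiniteGalois.fixedField_fixingSubgroup, Ω/F is Galois: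
IsAlgClosure.isGalois F Ω); s in N'.fixingSubgroup iff Fxd N s. -/

variable {F : Type} [Field F] [NumberField F] {Ω : Type} [Field Ω] [Algebra F Ω]
  {K N : Type} [Field K] [NumberField K] [Field N] [NumberField N] [Algebra F K] [Algebra F N]
  [Algebra K N] [Algebra K Ω] [Algebra N Ω] [IsScalarTower F K N] [IsScalarTower K N Ω]
  [IsScalarTower F K Ω] [IsScalarTower F N Ω]

theorem exists_lft [IsAlgClosure F Ω] (σ : Gal(N/K)) : ∃ s : Ω ≃ₐ[F] Ω, Lft σ s := by
  have hn : Normal F Ω := IsAlgClosure.normal F Ω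
  refine ⟨AlgEquiv.liftNormal (σ.restrictScalars F : N ≃ₐ[F] N) Ω, fun x => ?_⟩
  exact AlgEquiv.liftNormal_commutes _ _ _

omit [NumberField F] [NumberField K] [NumberField N] in
theorem Lft.fxd {σ : Gal(N/K)} {s : Ω ≃ₐ[F] Ω} (h : Lft σ s) : Fxd K s := by
  intro x
  rw [IsScalarTower.algebraMap_apply K N Ω, h, σ.commutes]

theorem Lft.mul {σ τ : Gal(N/K)} {s t : Ω ≃ₐ[F] Ω} (h : Lft σ s) (h' : Lft τ t) : Lft (σ * τ) (s * t) := by
  intro x
  show s (t (algebraMap N Ω x)) = algebraMap N Ω (σ (τ x))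
  rw [h', h]

theorem lft_one : Lft (1 : Gal(N/K)) (1 : Ω ≃ₐ[F] Ω) := by
  intro x
  rfl

theorem Lft.inv {σ : Gal(N/K)} {s : Ω ≃ₐ[F] Ω} (h : Lft σ s) : Lft σ⁻¹ s⁻¹ := by
  intro x
  apply s.injective
  show s (s.symm (algebraMap N Ω x)) = s (algebraMap N Ω (σ.symm x))
  rw [s.apply_symm_apply, h, σ.apply_symm_apply]


theorem lft_fxd {σ : Gal(N/K)} {s : Ω ≃ₐ[F] Ω} (h : Lft σ s) : Fxd N s ↔ σ = 1 := by
  constructor
  · intro h1
    ext x
    exact (algebraMap N Ω).injective ((h x).symm.trans (h1 x))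
  · rintro rfl
    exact h

theorem exists_res [IsGalois K N] (s : Ω ≃ₐ[F] Ω) (hs : Fxd K s) : ∃ σ : Gal(N/K), Lft σ s := by
  have hn : Normal K N := inferInstance
  let s' : Ω ≃ₐ[K] Ω := AlgEquiv.ofRingEquiv (f := s.toRingEquiv) hs
  refine ⟨s'.restrictNormal N, fun x => ?_⟩
  exact (AlgEquiv.restrictNormal_commutes s' N x).symm

theorem mem_of_fxd [IsAlgClosure F Ω] (N : Type) [Field N] [NumberField N] [Algebra F N] [Algebra N Ω]
    [IsScalarTower F N Ω] (x : Ω) (h : ∀ s : Ω ≃ₐ[F] Ω, Fxd N s → s x = x) :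
    ∃ y : N, algebraMap N Ω y = x := by
  have hg : IsGalois F Ω := IsAlgClosure.isGalois F Ω
  set N' : IntermediateField F Ω := (IsScalarTower.toAlgHom F N Ω).fieldRange with hN'
  have h1 : x ∈ IntermediateField.fixedField N'.fixingSubgroup := by
    rw [IntermediateField.mem_fixedField_iff]
    intro s hs
    apply h
    intro y
    exact (IntermediateField.mem_fixingSubgroup_iff N' s).1 hs _ ⟨y, rfl⟩
  rw [InfiniteGalois.fixedField_fixingSubgroup] at h1
  obtain ⟨y, hy⟩ := h1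
  exact ⟨y, hy⟩

end H55K
end

-- from Lib.H55K.K0C
section

open NumberField IsDedekindDomain WeierstrassCurve

namespace H55K

open H55P (IQ embF eF LF Per IsHecke Pt ac Inert Dec Nm)
open H35P (WAB Ker tt)
open H55R (Pl ord es fs smulP)

/-! Chunk K0C (M). exists_inert: an element σ of the inertia group of the prime W of N extends to an element s of Gal(Ω/F) in the inertia group of V. s0 with Lft σ s0 (exists_lft). N' = (IsScalarTower.toAlgHom F N Ω).fieldRange : IntermediateField F Ω, finite over F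
(image of N). s0 maps N' to N'. For x = algebraMap N Ω y in V: W.valuation y ≤ 1 (hV), W.valuation (σ y - y) < 1 (H13S.in4_val), so V.valuation (s0 x - x) < 1 (Abw.lt). H13S.inertia_lift gives s.
unr_of_inert: if every s in Inert V with Fxd K s fixes N (V above W) then es K N (W.under) = 1: Ideal.card_inertia_eq_ramificationIdxIn as in H28G/K4.lean (theorem unram), inertia group trivial by exists_inert and lft_fxd (Fxd K s from Lft.fxd).
triv_of_es: conversely: if es K N (W.under (𝓞 K)) = 1, and s (Fxd K s) satisfies V.valuation (s x - x) < 1 for all x = algebraMap N Ω y in V, then Fxd N s: σ from exists_res, σ is in the inertia group of W (V above W, Abw.lt), which has es = 1 elements. -/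

variable {F : Type} [Field F] [NumberField F] {Ω : Type} [Field Ω] [Algebra F Ω]
  {K N : Type} [Field K] [NumberField K] [Field N] [NumberField N] [Algebra F K] [Algebra F N]
  [Algebra K N] [Algebra K Ω] [Algebra N Ω] [IsScalarTower F K N] [IsScalarTower K N Ω]
  [IsScalarTower F K Ω] [IsScalarTower F N Ω]

theorem exists_inert [IsAlgClosure F Ω] {W : Pl N} {V : ValuationSubring Ω} (hV : Abw V W) (σ : Gal(N/K))
    (hσ : ∀ x : 𝓞 N, σ • x - x ∈ W.asIdeal) : ∃ s : Ω ≃ₐ[F] Ω, Inert V s ∧ Lft σ s := by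
  obtain ⟨s0, hs0⟩ := exists_lft (F := F) (Ω := Ω) σ
  set N' : IntermediateField F Ω := (IsScalarTower.toAlgHom F N Ω).fieldRange with hN'
  have hfN : FiniteDimensional F N := FiniteDimensional.right ℚ F N
  have hfin : FiniteDimensional F N' :=
    (AlgEquiv.ofInjectiveField (IsScalarTower.toAlgHom F N Ω)).toLinearEquiv.finiteDimensional
  have hmem : ∀ x : Ω, x ∈ N' → ∃ y : N, algebraMap N Ω y = x := by
    rintro x ⟨y, hy⟩
    exact ⟨y, hy⟩
  obtain ⟨s', h1, h2⟩ := H13S.inertia_lift N' V s0 (by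
      intro x hx
      obtain ⟨y, rfl⟩ := hmem x hx
      rw [hs0]
      exact ⟨σ y, rfl⟩) (by
      intro x hx hxV
      obtain ⟨y, rfl⟩ := hmem x hx
      rw [hs0, ← map_sub, hV.lt]
      exact H13S.in4_val W σ hσ y ((hV y).1 hxV))
  refine ⟨s', h1, fun x => ?_⟩
  rw [h2 (algebraMap N Ω x) ⟨x, rfl⟩, hs0]

theorem unr_of_inert [IsAlgClosure F Ω] [IsGalois K N] {W : Pl N} {V : ValuationSubring Ω} (hV : Abw V W)
    (h : ∀ s : Ω ≃ₐ[F] Ω, Inert V s → Fxd K s → Fxd N s) : es K N (W.under (𝓞 K)) = 1 := by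
  have hWp := W.isPrime
  set v := W.under (𝓞 K) with hv
  have hp := v.isPrime
  have hl : W.asIdeal.LiesOver v.asIdeal := ⟨rfl⟩
  have h1 := Ideal.card_inertia_eq_ramificationIdxIn (G := Gal(N/K)) v.asIdeal W.asIdeal
  have hbot : W.asIdeal.inertia Gal(N/K) = ⊥ := by
    rw [eq_bot_iff]
    intro σ hσ
    rw [Subgroup.mem_bot]
    obtain ⟨s, hs, hs'⟩ := exists_inert (F := F) hV σ (fun x => hσ x)
    exact (lft_fxd hs').1 (h s hs hs'.fxd)
  rw [hbot] at h1
  have h2 : Nat.card (⊥ : Subgroup Gal(N/K)) = 1 := Subgroup.card_bot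
  rw [h2] at h1
  exact h1.symm

theorem triv_of_es [IsGalois K N] {W : Pl N} {V : ValuationSubring Ω} (hV : Abw V W)
    (he : es K N (W.under (𝓞 K)) = 1) (s : Ω ≃ₐ[F] Ω) (hs : Fxd K s)
    (h : ∀ y : N, algebraMap N Ω y ∈ V → V.valuation (s (algebraMap N Ω y) - algebraMap N Ω y) < 1) :
    Fxd N s := by
  have hWp := W.isPrime
  set v := W.under (𝓞 K) with hv
  have hp := v.isPrime
  have hl : W.asIdeal.LiesOver v.asIdeal := ⟨rfl⟩
  have h1 := Ideal.card_inertia_eq_ramificationIdxIn (G := Gal(N/K)) v.asIdeal W.asIdeal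
  obtain ⟨σ, hσ⟩ := exists_res (N := N) s hs
  have hmem : σ ∈ W.asIdeal.inertia Gal(N/K) := by
    intro x
    have h2 : algebraMap N Ω (x : N) ∈ V := (V.valuation_le_one_iff _).1 (k0_int V x)
    have h3 := h (x : N) h2
    rw [hσ, ← map_sub, hV.lt] at h3
    exact (W.valuation_lt_one_iff_mem (σ • x - x)).1 h3
  have h4 : W.asIdeal.inertia Gal(N/K) = ⊥ := by
    apply Subgroup.eq_bot_of_card_eq
    rw [h1]
    exact he
  rw [h4, Subgroup.mem_bot] at hmem
  exact (lft_fxd hσ).2 hmem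

end H55K
end

-- from Lib.H55K.K2A
section

open NumberField IsDedekindDomain WeierstrassCurve

namespace H55K

open H55P (IQ embF eF LF Per IsHecke Pt ac Inert Dec Nm)
open H35P (WAB Ker tt)
open H55R (Pl ord es fs smulP)

/-! (xc_ac, yc_ac, tt_ac are in E0.lean.)
Chunk K2A (M, many small). ac and coordinates: ac is Affine.Point.map, cases on P, rfl (compare H13S/Defs.lean ac_one, ac_mul and H28G/Map.lean). ac_fix: P = 0 or the coordinates determine the point (Affine.Point.some.injEq).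
Torsion points, b a prime element: T0 from CMA.gen for b. T <> 0 killed by b: T = act a T0 with b not dividing a; 𝓞 F is a principal ideal ring, (b) is maximal: a c = 1 + b d, so act c T = T0. tor_zero: act x T = 0 iff act x T0 = 0 (apply act c, act a) iff b | x.
tor_gen: T' = act a' T0 = act (a' c) T. exists_tor: T0 (1 is not divisible by b: act 1 T0 = T0 <> 0). ac_tor: act b (ac s T) = ac s (act b T) = 0 (CMA.gal).
tor_mul: T in Tor act b, R in Tor act b' then T + R in Tor act (b b'). -/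

variable {F : Type} [Field F] [NumberField F] [IQ F] {A B : F} {Om : ℂ} {Ω : Type} [Field Ω] [DecidableEq Ω]
  [Algebra F Ω] {j : Ω →+* ℂ} {act : 𝓞 F →+* AddMonoid.End (Pt (WAB A B) Ω)}

section
omit [NumberField F] [IQ F]

theorem k2_ac_one (P : Pt (WAB A B) Ω) : ac (WAB A B) (1 : Ω ≃ₐ[F] Ω) P = P := by
  cases P <;> rfl

theorem k2_ac_mul (s t : Ω ≃ₐ[F] Ω) (P : Pt (WAB A B) Ω) :
    ac (WAB A B) (s * t) P = ac (WAB A B) s (ac (WAB A B) t P) := by
  cases P <;> rfl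

theorem k2_ac_inv (s : Ω ≃ₐ[F] Ω) (P : Pt (WAB A B) Ω) :
    ac (WAB A B) s⁻¹ (ac (WAB A B) s P) = P := by
  rw [← k2_ac_mul, inv_mul_cancel, k2_ac_one]

theorem k2_ac_ne (s : Ω ≃ₐ[F] Ω) {P : Pt (WAB A B) Ω} (h : P ≠ 0) : ac (WAB A B) s P ≠ 0 := by
  intro h1
  apply h
  rw [← k2_ac_inv s P, h1, map_zero]

theorem tt_xy (P : Pt (WAB A B) Ω) : tt P = xc P / yc P := by
  rcases P with _ | ⟨x, y, h⟩
  · show (0 : Ω) = 0 / 0
    simp
  · rfl

theorem pt_ext' {P Q : Pt (WAB A B) Ω} (hP : P ≠ 0) (hQ : Q ≠ 0) (hx : xc P = xc Q) (hy : yc P = yc Q) :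
    P = Q := by
  rcases P with _ | ⟨x, y, h⟩
  · exact absurd rfl hP
  · rcases Q with _ | ⟨x', y', h'⟩
    · exact absurd rfl hQ
    · have hx' : x = x' := hx
      have hy' : y = y' := hy
      subst hx'
      subst hy'
      rfl

theorem ac_fix (s : Ω ≃ₐ[F] Ω) {P : Pt (WAB A B) Ω} (hx : s (xc P) = xc P) (hy : s (yc P) = yc P) :
    ac (WAB A B) s P = P := by
  by_cases hP : P = 0
  · rw [hP, map_zero]
  · apply pt_ext' (k2_ac_ne s hP) hP
    · rw [xc_ac, hx]
    · rw [yc_ac, hy]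

end

section
omit [NumberField F] [IQ F]

theorem k2a_mul (a c : 𝓞 F) (P : Pt (WAB A B) Ω) : act (a * c) P = act a (act c P) := by
  rw [map_mul]
  rfl

theorem k2a_add (a c : 𝓞 F) (P : Pt (WAB A B) Ω) : act (a + c) P = act a P + act c P := by
  rw [map_add]
  rfl

theorem k2a_sub (a c : 𝓞 F) (P : Pt (WAB A B) Ω) : act (a - c) P = act a P - act c P := by
  rw [map_sub]
  rfl

theorem k2a_one (P : Pt (WAB A B) Ω) : act 1 P = P := by
  rw [map_one]
  rfl

theorem k2a_mem {b : 𝓞 F} {T : Pt (WAB A B) Ω} : T ∈ Tor act b ↔ act b T = 0 := Iff.rfl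

end

theorem ac_tor (h : CMA F A B Om j act) (s : Ω ≃ₐ[F] Ω) {b : 𝓞 F} {T : Pt (WAB A B) Ω} (hT : T ∈ Tor act b) :
    ac (WAB A B) s T ∈ Tor act b := by
  rw [k2a_mem, ← h.gal, k2a_mem.1 hT, map_zero]

/-- A nonzero point killed by `b` and the standard one generate each other. -/
theorem k2a_key (h : CMA F A B Om j act) {b : 𝓞 F} (hp : Prime b) : ∃ T₀ ∈ Tor act b,
    (∀ T ∈ Tor act b, ∃ a, T = act a T₀) ∧ (∀ a, act a T₀ = 0 ↔ b ∣ a) ∧
    ∀ T ∈ Tor act b, T ≠ 0 → ∃ c, act c T = T₀ := by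
  have hpid : IsPrincipalIdealRing (𝓞 F) := IQ.pid
  obtain ⟨T₀, hT₀, h1, h2, -⟩ := h.gen b hp.ne_zero
  refine ⟨T₀, hT₀, h1, h2, ?_⟩
  intro T hT h0
  obtain ⟨a, ha⟩ := h1 T hT
  have hba : ¬b ∣ a := by
    intro hd
    apply h0
    rw [ha, (h2 a).2 hd]
  have hcop : IsCoprime a b := ((hp.irreducible.coprime_iff_not_dvd).2 hba).symm
  obtain ⟨c, d, hcd⟩ := hcop
  refine ⟨c, ?_⟩
  have h3 : act (c * a + d * b) T₀ = T₀ := by rw [hcd, k2a_one]
  rw [k2a_add, k2a_mul, k2a_mul, k2a_mem.1 hT₀, map_zero, add_zero, ← ha] at h3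
  exact h3

theorem tor_zero (h : CMA F A B Om j act) {b : 𝓞 F} (hp : Prime b) {T : Pt (WAB A B) Ω} (hT : T ∈ Tor act b)
    (h0 : T ≠ 0) (a : 𝓞 F) : act a T = 0 ↔ b ∣ a := by
  obtain ⟨T₀, hT₀, h1, h2, h3⟩ := k2a_key h hp
  obtain ⟨c, hc⟩ := h3 T hT h0
  constructor
  · intro ha
    rw [← h2, ← hc, ← k2a_mul, mul_comm, k2a_mul, ha, map_zero]
  · rintro ⟨d, rfl⟩
    rw [mul_comm, k2a_mul, k2a_mem.1 hT, map_zero]

theorem tor_gen (h : CMA F A B Om j act) {b : 𝓞 F} (hp : Prime b) {T T' : Pt (WAB A B) Ω} (hT : T ∈ Tor act b)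
    (hT' : T' ∈ Tor act b) (h0 : T ≠ 0) : ∃ a : 𝓞 F, act a T = T' := by
  obtain ⟨T₀, hT₀, h1, h2, h3⟩ := k2a_key h hp
  obtain ⟨c, hc⟩ := h3 T hT h0
  obtain ⟨a, ha⟩ := h1 T' hT'
  exact ⟨a * c, by rw [k2a_mul, hc, ← ha]⟩

theorem exists_tor (h : CMA F A B Om j act) {b : 𝓞 F} (hp : Prime b) : ∃ T ∈ Tor act b, T ≠ 0 := by
  obtain ⟨T₀, hT₀, h1, h2, h3⟩ := k2a_key h hp
  refine ⟨T₀, hT₀, fun h0 => hp.not_isUnit ?_⟩
  exact isUnit_of_dvd_one ((h2 1).1 (by rw [h0, map_zero]))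


theorem tor_act {b : 𝓞 F} (a : 𝓞 F) {T : Pt (WAB A B) Ω} (hT : T ∈ Tor act b) : act a T ∈ Tor act b := by
  rw [k2a_mem, ← k2a_mul, mul_comm, k2a_mul, k2a_mem.1 hT, map_zero]


end H55K
end

-- from Lib.H55K.K2B
section

open NumberField IsDedekindDomain WeierstrassCurve

namespace H55K

open H55P (IQ embF eF LF Per IsHecke Pt ac Inert Dec Nm)
open H35P (WAB Ker tt)
open H55R (Pl ord es fs smulP)

/-! Chunk K2B (M, port of H28G/K2.lean). lft_tor: two extensions s, s' of σ agree on the coordinates of T (crd), so ac s T = ac s' T (pt_ext', xc_ac; T = 0 is clear). orb_inj: u = t⁻¹ s extends τ⁻¹ σ and fixes R, so (CMA.gal, tor_gen) it fixes Tor act b pointwise; it fixes K (Lft.fxd), so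
Fxd N u (TFld.gen) and τ⁻¹ σ = 1 (lft_fxd). card_le: σ -> ac s R (s an extension, exists_lft) is an injection of Gal(N/K) into Tor act b minus 0, which has Nm b - 1 elements (exists_TN); Nat.card Gal(N/K) = finrank (IsGalois.card_aut_eq_finrank).
exists_chi: as in H28G/K2.lean exists_chi: fix T in Tor act b, T <> 0, for σ choose an extension s and c with act c T = ac s T; q c does not depend on c (tor_zero, hk), nonzero; multiplicative (Lft.mul); injective by orb_inj. -/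

variable {F : Type} [Field F] [NumberField F] [IQ F] {A B : F} {Om : ℂ} {Ω : Type} [Field Ω] [DecidableEq Ω]
  [Algebra F Ω] {j : Ω →+* ℂ} {act : 𝓞 F →+* AddMonoid.End (Pt (WAB A B) Ω)}
  {K N : Type} [Field K] [NumberField K] [Field N] [NumberField N] [Algebra F K] [Algebra F N]
  [Algebra K N] [Algebra K Ω] [Algebra N Ω] [IsScalarTower F K N] [IsScalarTower K N Ω]
  [IsScalarTower F K Ω] [IsScalarTower F N Ω]

omit [NumberField K] in
theorem lft_tor {b : 𝓞 F} (hN : TFld act K N b) {σ : Gal(N/K)} {s s' : Ω ≃ₐ[F] Ω} (h : Lft σ s)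
    (h' : Lft σ s') {T : Pt (WAB A B) Ω} (hT : T ∈ Tor act b) : ac (WAB A B) s T = ac (WAB A B) s' T := by
  by_cases h0 : T = 0
  · rw [h0, map_zero, map_zero]
  · obtain ⟨x, y, hx, hy⟩ := hN.crd T hT
    apply pt_ext' (k2_ac_ne s h0) (k2_ac_ne s' h0)
    · rw [xc_ac, xc_ac, ← hx, h x, h' x]
    · rw [yc_ac, yc_ac, ← hy, h y, h' y]

theorem orb_inj (h : CMA F A B Om j act) {b : 𝓞 F} (hp : Prime b) (hN : TFld act K N b)
    {R : Pt (WAB A B) Ω} (hR : R ∈ Tor act b) (h0 : R ≠ 0) {σ τ : Gal(N/K)} {s t : Ω ≃ₐ[F] Ω}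
    (hs : Lft σ s) (ht : Lft τ t) (he : ac (WAB A B) s R = ac (WAB A B) t R) : σ = τ := by
  have hu : Lft (τ⁻¹ * σ) (t⁻¹ * s) := ht.inv.mul hs
  have h1 : ac (WAB A B) (t⁻¹ * s) R = R := by
    rw [k2_ac_mul, he, k2_ac_inv]
  have h2 : Fxd N (t⁻¹ * s) := by
    apply hN.gen _ hu.fxd
    intro T hT
    obtain ⟨c, hc⟩ := tor_gen h hp hR hT h0
    rw [← hc, h.gal, h1]
  exact (inv_mul_eq_one.1 ((lft_fxd hu).1 h2)).symm

theorem card_le [IsAlgClosure F Ω] (h : CMA F A B Om j act) {b : 𝓞 F} (hp : Prime b)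
    (hN : TFld act K N b) : Module.finrank K N ≤ Nm b - 1 := by
  classical
  have hgal : IsGalois K N := hN.gal
  obtain ⟨R, hR, h0⟩ := exists_tor h hp
  obtain ⟨S, hS, hcard⟩ := exists_TN h hp.ne_zero
  choose s hs using fun σ : Gal(N/K) => exists_lft (F := F) (Ω := Ω) σ
  let f : Gal(N/K) → S := fun σ =>
    ⟨ac (WAB A B) (s σ) R, (hS _).2 ⟨ac_tor h (s σ) hR, k2_ac_ne (s σ) h0⟩⟩
  have hinj : Function.Injective f := by
    intro σ τ hστ
    exact orb_inj h hp hN hR h0 (hs σ) (hs τ) (congrArg Subtype.val hστ)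
  have h1 := Nat.card_le_card_of_injective f hinj
  rw [IsGalois.card_aut_eq_finrank, Nat.card_eq_fintype_card, Fintype.card_coe, hcard] at h1
  exact h1

theorem exists_chi [IsAlgClosure F Ω] (h : CMA F A B Om j act) {b : 𝓞 F} (hp : Prime b)
    (hN : TFld act K N b) {k : Type} [Field k] (q : 𝓞 F →+* k) (hq : Function.Surjective q)
    (hk : ∀ x, q x = 0 ↔ b ∣ x) :
    ∃ χ : Gal(N/K) →* kˣ, Function.Injective χ ∧
      ∀ (σ : Gal(N/K)) (s : Ω ≃ₐ[F] Ω) (c : 𝓞 F), Lft σ s → q c = χ σ → ∀ R ∈ Tor act b,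
        ac (WAB A B) s R = act c R := by
  obtain ⟨T, hT, h0⟩ := exists_tor h hp
  choose s hs using fun σ : Gal(N/K) => exists_lft (F := F) (Ω := Ω) σ
  have hex : ∀ σ : Gal(N/K), ∃ c : 𝓞 F, act c T = ac (WAB A B) (s σ) T := fun σ =>
    tor_gen h hp hT (ac_tor h (s σ) hT) h0
  choose c hc using hex
  have heq : ∀ x y : 𝓞 F, act x T = act y T ↔ q x = q y := by
    intro x y
    rw [← sub_eq_zero, ← k2a_sub, tor_zero h hp hT h0, ← hk, map_sub, sub_eq_zero]
  have hne : ∀ σ, q (c σ) ≠ 0 := by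
    intro σ h1
    rw [hk, ← tor_zero h hp hT h0, hc] at h1
    exact k2_ac_ne _ h0 h1
  let χ : Gal(N/K) →* kˣ :=
    { toFun := fun σ => Units.mk0 (q (c σ)) (hne σ)
      map_one' := by
        apply Units.ext
        show q (c 1) = 1
        rw [← map_one q, ← heq, hc, k2a_one, lft_tor hN (hs 1) lft_one hT, k2_ac_one]
      map_mul' := by
        intro σ τ
        apply Units.ext
        show q (c (σ * τ)) = q (c σ) * q (c τ)
        rw [← map_mul, ← heq, hc, lft_tor hN (hs (σ * τ)) ((hs σ).mul (hs τ)) hT, k2_ac_mul, ← hc τ, h.gal,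
          ← hc σ, ← k2a_mul, mul_comm] }
  have hχ : ∀ σ, ((χ σ : kˣ) : k) = q (c σ) := fun σ => rfl
  refine ⟨χ, ?_, ?_⟩
  · intro σ τ hστ
    have h1 : q (c σ) = q (c τ) := by rw [← hχ, ← hχ, hστ]
    rw [← heq, hc, hc] at h1
    exact orb_inj h hp hN hT h0 (hs σ) (hs τ) h1
  · intro σ s' d hs' hd R hR
    rw [hχ, ← heq, hc] at hd
    obtain ⟨a, ha⟩ := tor_gen h hp hT hR h0
    rw [← ha, h.gal, lft_tor hN hs' (hs σ) hT, ← hd, ← k2a_mul, ← k2a_mul, mul_comm]

end H55K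
end

-- from Lib.H28R.W1
section

open NumberField IsDedekindDomain

namespace H28R

open H55B (F O om Prim gen)
open H55P H55R

/-! Chunk W1 (M): the field C = K(ζ). C = CyclotomicField p K (or K(ζ) inside AlgebraicClosure K): IsCyclotomicExtension {p} K C, ζ = zeta. C/F is Galois: C is the splitting field over K of X^p - 1, which has coefficients in F, and K/F is normal:
every F-embedding of C into an algebraic closure maps K to K and ζ to a power of ζ (for example realise C as IntermediateField.adjoin K {ζ} in AlgebraicClosure K and use IntermediateField.normal_iff_forall_map_le over F, or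
Normal of a compositum). gen: C = K(ζ). deg: the group of C/K embeds in (ZMod p)ˣ (IsPrimitiveRoot.autToPow_injective or IsCyclotomicExtension), of order p - 1. Let Γ = group of C/F, |Γ| = p^k d, d = [C:K] dividing p - 1;
ω : Γ -> (ZMod p)ˣ (IsPrimitiveRoot.autToPow), kernel FixZ F ζ, so |FixZ| * |image| = p^k d, |image| divides p - 1, prime to p: p^k divides |FixZ|. The restriction FixZ -> group of K/F (restrictNormalHom) is injective (an element in the kernel is in the group of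
C/K and fixes ζ: gen), so |FixZ| <= p^k and it is bijective: iso. comm: σ in FixZ, δ in the group of C/K: σ δ σ⁻¹ δ⁻¹ fixes K (res is a homomorphism and δ restricts to 1) and fixes ζ (δ ζ = ζ^a, σ ζ = ζ), so it is 1. dec: given s, let σ in FixZ have the same
restriction to K, δ = σ⁻¹ s fixes K. -/

theorem W1_normal (p : ℕ) [NeZero p] (K : Type) [Field K] [NumberField K] [Algebra F K] [IsGalois F K]
    (C : Type) [Field C] [NumberField C] [Algebra F C] [Algebra K C] [IsScalarTower F K C]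
    [IsCyclotomicExtension {p} K C] : Normal F C := by
  let Ω := AlgebraicClosure C
  have hF : IsScalarTower ℚ F C := IsScalarTower.of_algebraMap_eq' (Subsingleton.elim _ _)
  have hfin : FiniteDimensional F C := Module.Finite.of_restrictScalars_finite ℚ F C
  let ζ : C := IsCyclotomicExtension.zeta p K C
  have hζ : IsPrimitiveRoot ζ p := IsCyclotomicExtension.zeta_spec p K C
  have hζ' : IsPrimitiveRoot (algebraMap C Ω ζ) p :=
    hζ.map_of_injective (algebraMap C Ω).injective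
  let i : C →ₐ[F] Ω := IsScalarTower.toAlgHom F C Ω
  have key : ∀ (σ : Ω →ₐ[F] Ω) (x : C), ∃ y : C, σ (algebraMap C Ω x) = algebraMap C Ω y := by
    intro σ x
    have hx : x ∈ Algebra.adjoin K {ζ} := by
      rw [IsCyclotomicExtension.adjoin_primitive_root_eq_top hζ]
      exact Algebra.mem_top
    refine Algebra.adjoin_induction (p := fun x _ => ∃ y : C, σ (algebraMap C Ω x) = algebraMap C Ω y)
      ?_ ?_ ?_ ?_ hx
    · rintro x hx
      rw [Set.mem_singleton_iff] at hx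
      subst hx
      have h1 : σ (algebraMap C Ω ζ) ^ p = 1 := by
        rw [← map_pow, ← map_pow, hζ.pow_eq_one, map_one, map_one]
      obtain ⟨j, -, hj⟩ := hζ'.eq_pow_of_pow_eq_one h1
      exact ⟨ζ ^ j, by rw [map_pow]; exact hj.symm⟩
    · intro a
      refine ⟨algebraMap K C (σ.restrictNormal K a), ?_⟩
      rw [← IsScalarTower.algebraMap_apply K C Ω, ← IsScalarTower.algebraMap_apply K C Ω]
      exact (AlgHom.restrictNormal_commutes σ K a).symm
    · rintro x y _ _ ⟨x', hx'⟩ ⟨y', hy'⟩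
      exact ⟨x' + y', by rw [map_add, map_add, hx', hy', map_add]⟩
    · rintro x y _ _ ⟨x', hx'⟩ ⟨y', hy'⟩
      exact ⟨x' * y', by rw [map_mul, map_mul, hx', hy', map_mul]⟩
  have hΩ : Normal F Ω := by
    have h1 : Algebra.IsAlgebraic F Ω := Algebra.IsAlgebraic.trans F C Ω
    have h2 : IsAlgClosure F Ω := ⟨inferInstance, inferInstance⟩
    exact IsAlgClosure.normal F Ω
  have h3 : Normal F i.fieldRange := by
    rw [IntermediateField.normal_iff_forall_map_le]
    intro σ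
    rintro _ ⟨_, ⟨x, rfl⟩, rfl⟩
    obtain ⟨y, hy⟩ := key σ x
    exact ⟨y, hy.symm⟩
  let j : C →ₐ[F] i.fieldRange := i.codRestrict i.fieldRange.toSubalgebra fun x => ⟨x, rfl⟩
  let e : C ≃ₐ[F] i.fieldRange := AlgEquiv.ofBijective j ⟨j.injective, by
    rintro ⟨_, x, rfl⟩
    exact ⟨x, rfl⟩⟩
  exact Normal.of_algEquiv e.symm

theorem W1_ex (p : ℕ) [NeZero p] (K : Type) [Field K] [NumberField K] :
    ∃ (C : Type) (_ : Field C) (_ : NumberField C) (_ : Algebra K C),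
      IsCyclotomicExtension {p} K C :=
  ⟨CyclotomicField p K, inferInstance, IsCyclotomicExtension.numberField {p} K _, inferInstance,
    inferInstance⟩


/-- The group FixZ F ζ has p-power order. -/
theorem Cyc.card {p : ℕ} {K C : Type} [Field K] [NumberField K] [Field C] [NumberField C]
    [Algebra F K] [Algebra F C] [Algebra K C] [IsScalarTower F K C] {ζ : C} (h : Cyc p K C ζ) :
    Nat.card (FixZ F ζ) = Module.finrank F K := by
  have := h.galK
  obtain ⟨e, -⟩ := h.iso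
  rw [Nat.card_congr e.toEquiv, IsGalois.card_aut_eq_finrank]

end H28R
end

-- from Lib.H99B.D1
section

/-!
Chunk D1 (M). Primes of degree greater than one are negligible.
PROOF. If N v is not prime then N v ≥ p² for the prime number p below v (N v = p^f, f ≥ 2), so N v^(-s) ≤ p^(-2s) ≤ p^(-2) for s ≥ 1, and at most [K:ℚ] primes lie above p. So the sum over any finite
set of such primes is at most [K:ℚ] sum_p p^(-2) = C (Real.summable_one_div_nat_pow); hence PS ≤ C (tsum_le_of_sum_le). Compare H55R.D5 (split_cmp), where the same estimate is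
made; it may contain a lemma which can be cited.
stab_triv: absNorm Q prime gives fs F L (Q.under) = 1 (absNorm Q = absNorm(v)^f: H55R.D5_norm), with es = 1 the stabiliser is trivial (card_stab), so σ ↦ smulP σ Q is injective.
-/

open NumberField IsDedekindDomain

namespace H99B

open H55B H55R

section d1

variable {K : Type} [Field K] [NumberField K]

theorem d1_pow (v : Pl K) : ∃ q f : ℕ, q.Prime ∧ 0 < f ∧ Ideal.absNorm v.asIdeal = q ^ f ∧
    (q : 𝓞 K) ∈ v.asIdeal := by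
  have hm : v.asIdeal.IsMaximal := v.isMaximal
  have h0 : Ideal.absNorm v.asIdeal ≠ 0 := fun h => v.ne_bot (Ideal.absNorm_eq_zero_iff.1 h)
  let _ : Field (𝓞 K ⧸ v.asIdeal) := Ideal.Quotient.field v.asIdeal
  have hfin : Finite (𝓞 K ⧸ v.asIdeal) := by
    apply Nat.finite_of_card_ne_zero
    exact h0
  let _ : Fintype (𝓞 K ⧸ v.asIdeal) := Fintype.ofFinite _
  obtain ⟨q, hq⟩ := CharP.exists (𝓞 K ⧸ v.asIdeal)
  obtain ⟨n, hp, hc⟩ := FiniteField.card (𝓞 K ⧸ v.asIdeal) q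
  refine ⟨q, n, hp, n.pos, ?_, ?_⟩
  · show Nat.card (𝓞 K ⧸ v.asIdeal) = _
    rw [Nat.card_eq_fintype_card, hc]
  · rw [← Ideal.Quotient.eq_zero_iff_mem, map_natCast]
    exact CharP.cast_eq_zero _ q

/-- The primes above a rational prime. -/
theorem d1_count (q : ℕ) (hq : q.Prime) (U : Finset (Pl K))
    (hU : ∀ v ∈ U, (q : 𝓞 K) ∈ v.asIdeal) (hU2 : ∀ v ∈ U, q ≤ Ideal.absNorm v.asIdeal) :
    U.card ≤ Module.finrank ℚ K := by
  classical
  have h1 : ∏ v ∈ U, v.asIdeal ∣ Ideal.span {(q : 𝓞 K)} := by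
    apply Finset.prod_dvd_of_coprime
    · intro v _ w _ hvw
      refine Ideal.isCoprime_of_isMaximal ?_
      intro h
      exact hvw (HeightOneSpectrum.ext h)
    · intro v hv
      rw [Ideal.dvd_span_singleton]
      exact hU v hv
  have h2 := map_dvd Ideal.absNorm h1
  rw [map_prod] at h2
  have h3 : Ideal.absNorm (Ideal.span {(q : 𝓞 K)}) = q ^ Module.finrank ℚ K := by
    rw [Ideal.absNorm_span_singleton]
    have h4 := Algebra.norm_algebraMap (S := 𝓞 K) (q : ℤ)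
    rw [map_natCast, RingOfIntegers.rank] at h4
    rw [h4, Int.natAbs_pow, Int.natAbs_natCast]
  rw [h3] at h2
  have h5 : ∏ v ∈ U, q ≤ ∏ v ∈ U, Ideal.absNorm v.asIdeal := Finset.prod_le_prod' hU2
  rw [Finset.prod_const] at h5
  have h6 := Nat.le_of_dvd (pow_pos hq.pos _) h2
  exact (Nat.pow_le_pow_iff_right hq.one_lt).1 (h5.trans h6)


theorem d1_one_le (v : Pl K) : (1 : ℝ) ≤ (Ideal.absNorm v.asIdeal : ℝ) := by
  have h0 : Ideal.absNorm v.asIdeal ≠ 0 := fun h => v.ne_bot (Ideal.absNorm_eq_zero_iff.1 h)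
  exact_mod_cast Nat.one_le_iff_ne_zero.2 h0

theorem d1_summable (s : ℝ) (hs : 1 < s) :
    Summable fun v : Pl K => (Ideal.absNorm v.asIdeal : ℝ) ^ (-s) :=
  (H55N.ideal_summable (K := K) s hs).comp_injective (i := fun v : Pl K => v.asIdeal)
    fun _ _ h => HeightOneSpectrum.ext h

theorem d1_sum (S : Set (Pl K)) (s : ℝ) (hs : 1 < s) :
    Summable (S.indicator fun v : Pl K => (Ideal.absNorm v.asIdeal : ℝ) ^ (-s)) :=
  (d1_summable s hs).indicator S





/-- The primes whose norm is not a prime number. -/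
theorem d1_np : ∃ C : ℝ, ∀ s : ℝ, 1 < s →
    PS {v : Pl K | ¬ (Ideal.absNorm v.asIdeal).Prime} s ≤ C := by
  classical
  have hz : Summable fun q : ℕ => (Module.finrank ℚ K : ℝ) * ((q : ℝ) ^ 2)⁻¹ :=
    (Real.summable_nat_pow_inv.2 one_lt_two).mul_left _
  refine ⟨∑' q : ℕ, (Module.finrank ℚ K : ℝ) * ((q : ℝ) ^ 2)⁻¹, fun s hs => ?_⟩
  unfold PS
  refine (d1_sum _ s hs).tsum_le_of_sum_le fun U => ?_
  choose q f hq hf hn hm using fun v : Pl K => d1_pow v
  have h1 : ∑ v ∈ U, ({v : Pl K | ¬ (Ideal.absNorm v.asIdeal).Prime}.indicator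
      (fun v => (Ideal.absNorm v.asIdeal : ℝ) ^ (-s))) v =
      ∑ r ∈ U.image q, ∑ v ∈ U with q v = r, ({v : Pl K | ¬ (Ideal.absNorm v.asIdeal).Prime}.indicator
      (fun v => (Ideal.absNorm v.asIdeal : ℝ) ^ (-s))) v := by
    rw [Finset.sum_fiberwise_of_maps_to]
    intro v hv
    exact Finset.mem_image_of_mem q hv
  rw [h1]
  have h2 : ∀ v : Pl K, ({v : Pl K | ¬ (Ideal.absNorm v.asIdeal).Prime}.indicator
      (fun v => (Ideal.absNorm v.asIdeal : ℝ) ^ (-s))) v ≤ ((q v : ℝ) ^ 2)⁻¹ := by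
    intro v
    by_cases hv : (Ideal.absNorm v.asIdeal).Prime
    · rw [Set.indicator_of_notMem (show v ∉ {v : Pl K | ¬ (Ideal.absNorm v.asIdeal).Prime} from
        fun h => h hv)]
      positivity
    · rw [Set.indicator_of_mem (show v ∈ {v : Pl K | ¬ (Ideal.absNorm v.asIdeal).Prime} from hv)]
      have h3 : 2 ≤ f v := by
        by_contra h4
        have h5 : f v = 1 := by
          have := hf v
          omega
        apply hv
        rw [hn v, h5, pow_one]
        exact hq v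
      have h6 : (Ideal.absNorm v.asIdeal : ℝ) ^ (-s) ≤ (Ideal.absNorm v.asIdeal : ℝ) ^ (-(1 : ℝ)) :=
        Real.rpow_le_rpow_of_exponent_le (d1_one_le v) (by linarith)
      refine h6.trans ?_
      rw [Real.rpow_neg_one, hn v]
      have hq1 : (1 : ℝ) ≤ (q v : ℝ) := by exact_mod_cast (hq v).one_lt.le
      push_cast
      apply inv_anti₀ (by positivity)
      exact pow_le_pow_right₀ hq1 h3
  have h3 : ∀ r ∈ U.image q, ∑ v ∈ U with q v = r, ({v : Pl K | ¬ (Ideal.absNorm v.asIdeal).Prime}.indicator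
      (fun v => (Ideal.absNorm v.asIdeal : ℝ) ^ (-s))) v ≤ (Module.finrank ℚ K : ℝ) * ((r : ℝ) ^ 2)⁻¹ := by
    intro r hr
    obtain ⟨v₀, -, hv₀⟩ := Finset.mem_image.1 hr
    have hrp : r.Prime := hv₀ ▸ hq v₀
    have h4 : ∀ v ∈ U.filter (fun v => q v = r), ({v : Pl K | ¬ (Ideal.absNorm v.asIdeal).Prime}.indicator
      (fun v => (Ideal.absNorm v.asIdeal : ℝ) ^ (-s))) v ≤ ((r : ℝ) ^ 2)⁻¹ := by
      intro v hv
      have h5 := h2 v
      rw [(Finset.mem_filter.1 hv).2] at h5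
      exact h5
    refine (Finset.sum_le_sum h4).trans ?_
    rw [Finset.sum_const, nsmul_eq_mul]
    refine mul_le_mul_of_nonneg_right ?_ (by positivity)
    have h6 : (U.filter (fun v => q v = r)).card ≤ Module.finrank ℚ K := by
      apply d1_count r hrp
      · intro v hv
        have h7 := hm v
        rw [(Finset.mem_filter.1 hv).2] at h7
        exact h7
      · intro v hv
        have h7 := hn v
        rw [(Finset.mem_filter.1 hv).2] at h7
        rw [h7]
        exact Nat.le_self_pow (hf v).ne' r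
    exact_mod_cast h6
  refine (Finset.sum_le_sum h3).trans ?_
  exact hz.sum_le_tsum _ fun r _ => by positivity

end d1

theorem deg_bound (K : Type) [Field K] [NumberField K] :
    ∃ C : ℝ, ∀ s ∈ Set.Ioc (1 : ℝ) 2, PS {v : Pl K | ¬ (Ideal.absNorm v.asIdeal).Prime} s ≤ C := by
  obtain ⟨C, hC⟩ := d1_np (K := K)
  exact ⟨C, fun s hs => hC s hs.1⟩


end H99B
end

-- from Lib.H28T.Gen
section

/-! # H28T: general facts -/

open NumberField IsDedekindDomain

namespace H28T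

open H28R
open H55P H55R

variable {F : Type} [Field F] [NumberField F]

theorem ge_unr_base (w : HeightOneSpectrum (𝓞 F)) : w.asIdeal.ramificationIdx (𝓞 F) = 1 := by
  have hp := w.isPrime
  exact Ideal.ramificationIdx_eq_one w.asIdeal (𝓞 F)

theorem ge_card (L : Type) [Field L] [NumberField L] [Algebra F L] (hG : IsGalois F L)
    (w : HeightOneSpectrum (𝓞 L)) :
    Nat.card (w.asIdeal.inertia (L ≃ₐ[F] L)) = w.asIdeal.ramificationIdx (𝓞 F) := by
  have hwm := w.isMaximal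
  have hwp := w.isPrime
  have hl : w.asIdeal.LiesOver (w.asIdeal.under (𝓞 F)) := ⟨rfl⟩
  have hum : (w.asIdeal.under (𝓞 F)).IsMaximal := Ideal.IsMaximal.under _ _
  have hub : w.asIdeal.under (𝓞 F) ≠ ⊥ := Ideal.IsIntegral.comap_ne_bot _ w.ne_bot
  have hfin : Finite (𝓞 F ⧸ w.asIdeal.under (𝓞 F)) :=
    Ideal.finiteQuotientOfFreeOfNeBot _ hub
  rw [Ideal.card_inertia_eq_ramificationIdxIn (G := L ≃ₐ[F] L)
      (w.asIdeal.under (𝓞 F)) w.asIdeal,
      Ideal.ramificationIdxIn_eq_ramificationIdx (w.asIdeal.under (𝓞 F)) w.asIdeal (L ≃ₐ[F] L)]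

section

variable {K : Type} [Field K] [NumberField K] [Algebra F K]

omit [NumberField F] [NumberField K] [Algebra F K] in
theorem ge_prim {M : ℕ} (hM : 0 < M) {s : K} (hs : s ^ M = 1) :
    0 < orderOf s ∧ IsPrimitiveRoot s (orderOf s) :=
  ⟨(isOfFinOrder_iff_pow_eq_one.2 ⟨M, hM, hs⟩).orderOf_pos, IsPrimitiveRoot.orderOf s⟩

omit [NumberField F] [NumberField K] in
/-- a conjugate of a root of unity is a power of it -/
theorem ge_pow {M : ℕ} (hM : 0 < M) {s : K} (hs : s ^ M = 1) (g : K ≃ₐ[F] K) :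
    ∃ i : ℕ, g s = s ^ i := by
  obtain ⟨hd, hprim⟩ := ge_prim hM hs
  have : NeZero (orderOf s) := ⟨hd.ne'⟩
  obtain ⟨i, -, hi⟩ := hprim.eq_pow_of_pow_eq_one (ξ := g s) (by
    rw [← map_pow, pow_orderOf_eq_one, map_one])
  exact ⟨i, hi.symm⟩

omit [NumberField F] [NumberField K] in
open Polynomial in
theorem ge_splits {M : ℕ} (hM : 0 < M) {s : K} (hs : s ^ M = 1) :
    ((minpoly F s).map (algebraMap F K)).Splits := by
  obtain ⟨hd, hprim⟩ := ge_prim hM hs
  have h1 : minpoly F s ∣ X ^ (orderOf s) - 1 := by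
    refine minpoly.dvd F s ?_
    rw [map_sub, map_pow, aeval_X, map_one, pow_orderOf_eq_one, sub_self]
  have h2 : (X ^ (orderOf s) - 1 : F[X]).map (algebraMap F K) = X ^ (orderOf s) - 1 := by
    rw [Polynomial.map_sub, Polynomial.map_pow, map_X, Polynomial.map_one]
  have h3 : (minpoly F s).map (algebraMap F K) ∣ X ^ (orderOf s) - 1 := by
    rw [← h2]
    exact Polynomial.map_dvd _ h1
  exact (X_pow_sub_one_splits hprim).of_dvd (X_pow_sub_C_ne_zero hd 1) h3

theorem ge_galois (M : ℕ) (hM : 0 < M) (S : Set K) (hS : ∀ s ∈ S, s ^ M = 1)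
    (hgen : Algebra.adjoin F S = ⊤) : IsGalois F K ∧ ∀ g h : K ≃ₐ[F] K, g * h = h * g := by
  have : IsScalarTower ℚ F K := IsScalarTower.of_algebraMap_eq' (Subsingleton.elim _ _)
  have : FiniteDimensional F K := Module.Finite.of_restrictScalars_finite ℚ F K
  constructor
  · have hint : ∀ x : K, IsIntegral F x := fun x => Algebra.IsIntegral.isIntegral x
    have htop : ∀ x : K, x ∈ IntermediateField.adjoin F S := by
      intro x
      have h1 : x ∈ Algebra.adjoin F S := hgen ▸ Algebra.mem_top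
      exact IntermediateField.algebra_adjoin_le_adjoin F S h1
    have hsp : ∀ s ∈ S, ((minpoly F s).map (algebraMap F K)).Splits := fun s hs => ge_splits hM (hS s hs)
    have hn : Normal F K := normal_iff.mpr fun x =>
      ⟨hint x, IntermediateField.splits_of_mem_adjoin F K (L := K) (S := S)
        (fun s hs => ⟨hint s, hsp s hs⟩) (htop x)⟩
    exact ⟨⟩
  · intro g h
    have h1 : ((g * h : K ≃ₐ[F] K) : K →ₐ[F] K) = ((h * g : K ≃ₐ[F] K) : K →ₐ[F] K) := by
      refine AlgHom.ext_of_adjoin_eq_top hgen fun s hs => ?_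
      show g (h s) = h (g s)
      obtain ⟨i, hi⟩ := ge_pow hM (hS s hs) g
      obtain ⟨j, hj⟩ := ge_pow hM (hS s hs) h
      rw [hi, hj, map_pow, map_pow, hi, hj, ← pow_mul, ← pow_mul, mul_comm]
    ext x
    exact congrArg (fun f : K →ₐ[F] K => f x) h1

end

end H28T
end

-- from Lib.H28T.A2
section

open NumberField IsDedekindDomain

namespace H28T

open H28R
open H55P H55R

variable {F : Type} [Field F] [NumberField F] {G : HeightOneSpectrum (𝓞 F) → Prop}

/-! Chunk A2 (M): fields generated over F by m-th roots of unity. mu_gal: H13E.gen_galois (Gen: the first case). mu_unr: H13N.g2_card: the ramification index is the order of the inertia group {g : g y - y in W for all y in 𝓞 N}. Let g be in the inertia group and s in S, s^m = 1: s is integral (an element of 𝓞 N), g s = z s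
with z^m = 1, g s - s = (z - 1) s in W, s is a unit, so z - 1 in W. If z <> 1, then z is a root of 1 + x + ... + x^(m-1) (Finset.geom_sum / geom_sum_eq: (z - 1) * sum = z^m - 1 = 0), and modulo W this sum is m (z = 1 modulo W), so m in W: contradiction. So g s = s for s in S, g = 1 (Algebra.adjoin F S = ⊤, AlgHom.ext_of_adjoin_eq_top). -/

theorem mu_gal {N : Type} [Field N] [NumberField N] [Algebra F N] {m : ℕ} (hm : m ≠ 0) {S : Set N}
    (hS : ∀ s ∈ S, s ^ m = 1) (hgen : Algebra.adjoin F S = ⊤) :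
    IsGalois F N ∧ ∀ g h : N ≃ₐ[F] N, g * h = h * g :=
  ge_galois m (Nat.pos_of_ne_zero hm) S hS hgen

theorem A2_one {R : Type} [CommRing R] [IsDomain R] (W : Ideal R) {m : ℕ}
    (hW : (m : R) ∉ W) {z : R} (hz : z ^ m = 1) (h1 : z - 1 ∈ W) : z = 1 := by
  by_contra hne
  apply hW
  have h2 : (∑ i ∈ Finset.range m, z ^ i) * (z - 1) = 0 := by
    rw [geom_sum_mul, hz, sub_self]
  have h3 : ∑ i ∈ Finset.range m, z ^ i = 0 := (mul_eq_zero.1 h2).resolve_right (sub_ne_zero.2 hne)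
  have h4 : (m : R) = -∑ i ∈ Finset.range m, (z ^ i - 1) := by
    rw [Finset.sum_sub_distrib, h3]
    simp
  rw [h4]
  refine W.neg_mem (W.sum_mem fun i _ => ?_)
  obtain ⟨c, hc⟩ := sub_one_dvd_pow_sub_one z i
  rw [hc]
  exact W.mul_mem_right _ h1

theorem mu_unr {N : Type} [Field N] [NumberField N] [Algebra F N] {m : ℕ} (hm : m ≠ 0) {S : Set N}
    (hS : ∀ s ∈ S, s ^ m = 1) (hgen : Algebra.adjoin F S = ⊤) (W : HeightOneSpectrum (𝓞 N))
    (hW : (m : 𝓞 N) ∉ W.asIdeal) : W.asIdeal.ramificationIdx (𝓞 F) = 1 := by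
  obtain ⟨hG, -⟩ := mu_gal hm hS hgen
  rw [← ge_card N hG W, Subgroup.card_eq_one, Subgroup.eq_bot_iff_forall]
  intro g hg
  have hg' : ∀ y : 𝓞 N, g • y - y ∈ W.asIdeal := hg
  have hfix : ∀ s ∈ S, g s = s := by
    intro s hs
    have hint : IsIntegral ℤ s := IsIntegral.of_pow (Nat.pos_of_ne_zero hm) (by
      rw [hS s hs]
      exact isIntegral_one)
    let y : 𝓞 N := ⟨s, hint⟩
    have hy : y ^ m = 1 := by
      apply RingOfIntegers.coe_injective
      rw [map_pow, map_one]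
      exact hS s hs
    have hgy : (g • y) ^ m = 1 := by
      rw [← smul_pow', hy]
      exact smul_one g
    obtain ⟨k, rfl⟩ : ∃ k, m = k + 1 := ⟨m - 1, by omega⟩
    have hyk : y * y ^ k = 1 := by rw [← pow_succ']; exact hy
    have h1 : (g • y) * y ^ k = 1 := by
      refine A2_one W.asIdeal hW ?_ ?_
      · rw [mul_pow, hgy, one_mul, ← pow_mul, mul_comm, pow_mul, hy, one_pow]
      · have h2 : (g • y) * y ^ k - 1 = (g • y - y) * y ^ k := by
          rw [sub_mul, hyk]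
        rw [h2]
        exact W.asIdeal.mul_mem_right _ (hg' y)
    have h3 : g • y = y := by
      calc g • y = (g • y) * (y * y ^ k) := by rw [hyk, mul_one]
        _ = ((g • y) * y ^ k) * y := by ring
        _ = y := by rw [h1, one_mul]
    have h4 := congrArg (algebraMap (𝓞 N) N) h3
    exact h4
  have h5 : (g : N →ₐ[F] N) = AlgHom.id F N := AlgHom.ext_of_adjoin_eq_top hgen fun s hs => hfix s hs
  ext x
  exact DFunLike.congr_fun h5 x

end H28T
end

-- from Lib.H55K.RC1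
section

/-! # H55K: the trace at inert primes is zero -/

open NumberField IsDedekindDomain WeierstrassCurve

namespace H55K.TQ

open H55P (IQ embF eF LF Per IsHecke Pt ac Inert Dec Nm UnitP)
open H35P (WAB Ker tt GoodW IntW)
open H55K.MG (VC Crd)

variable {F : Type} [Field F] [NumberField F] [IQ F] {W : WeierstrassCurve ℤ} {m : Ideal (𝓞 F)} {ψ : Ideal (𝓞 F) →*₀ 𝓞 F}

theorem rc1_count {l : ℕ} (hl : l.Prime) (v : HeightOneSpectrum (𝓞 F)) (hv : v.asIdeal = Ideal.span {(l : 𝓞 F)})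
    (hΔ : (W⁄(𝓞 F)).Δ ∉ v.asIdeal) {t : ℤ} (ht : t = l + 1 - (Nat.card (W⁄(ZMod l)).toAffine.Point : ℤ)) :
    ((Nat.card ((W⁄(𝓞 F))⁄(𝓞 F ⧸ v.asIdeal)).toAffine.Point : ℤ)) = l ^ 2 + 1 - (t ^ 2 - 2 * l) := by
  have hfl : Fact l.Prime := ⟨hl⟩
  have hvm : v.asIdeal.IsMaximal := v.isMaximal
  let _i : Field (𝓞 F ⧸ v.asIdeal) := Ideal.Quotient.field v.asIdeal
  have hnK : Nat.card (𝓞 F ⧸ v.asIdeal) = l ^ 2 := by
    have h1 : Nat.card (𝓞 F ⧸ v.asIdeal) = Ideal.absNorm v.asIdeal := rfl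
    rw [h1, hv]
    exact Nm_nat l
  have hfin : Finite (𝓞 F ⧸ v.asIdeal) := Nat.finite_of_card_ne_zero (by
    rw [hnK]
    exact pow_ne_zero _ hl.ne_zero)
  have hchar : CharP (𝓞 F ⧸ v.asIdeal) l := by
    rw [CharP.charP_iff_prime_eq_zero hl]
    have h1 : (l : 𝓞 F) ∈ v.asIdeal := by
      rw [hv]
      exact Ideal.mem_span_singleton_self _
    have h2 := Ideal.Quotient.eq_zero_iff_mem.2 h1
    rw [map_natCast] at h2
    exact h2
  let _i : Algebra (ZMod l) (𝓞 F ⧸ v.asIdeal) := ZMod.algebra _ l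
  have hrank : Module.finrank (ZMod l) (𝓞 F ⧸ v.asIdeal) = 2 := by
    have hmf : Module.Finite (ZMod l) (𝓞 F ⧸ v.asIdeal) := Module.Finite.of_finite
    have h1 := Module.natCard_eq_pow_finrank (K := ZMod l) (V := 𝓞 F ⧸ v.asIdeal)
    rw [hnK, Nat.card_zmod] at h1
    exact (Nat.pow_right_injective hl.two_le h1).symm
  have hΔl : (W⁄(ZMod l)).Δ ≠ 0 := by
    intro h
    apply hΔ
    rw [← Ideal.Quotient.eq_zero_iff_mem]
    have h1 : Ideal.Quotient.mk v.asIdeal (W⁄(𝓞 F)).Δ = algebraMap (ZMod l) (𝓞 F ⧸ v.asIdeal) (W⁄(ZMod l)).Δ := by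
      have e1 : (W⁄(𝓞 F)).Δ = algebraMap ℤ (𝓞 F) W.Δ := WeierstrassCurve.map_Δ _ _
      have e2 : (W⁄(ZMod l)).Δ = algebraMap ℤ (ZMod l) W.Δ := WeierstrassCurve.map_Δ _ _
      rw [e1, e2]
      simp
    rw [h1, h, map_zero]
  have hcurve : (W⁄(𝓞 F))⁄(𝓞 F ⧸ v.asIdeal) = (W⁄(ZMod l))⁄(𝓞 F ⧸ v.asIdeal) := by
    ext <;> simp [WeierstrassCurve.baseChange]
  obtain ⟨s, hs⟩ := IsAlgClosed.exists_pow_nat_eq ((t : ℂ) ^ 2 - 4 * l) (n := 2) (by norm_num)
  have hw := weil (k := ZMod l) (K := 𝓞 F ⧸ v.asIdeal) (W⁄(ZMod l)) hΔl ((t + s) / 2) ((t - s) / 2)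
    (by
      rw [Nat.card_zmod, ht]
      push_cast
      ring) (by
      rw [Nat.card_zmod]
      linear_combination (-1 / 4 : ℂ) * hs)
  rw [hrank, hnK] at hw
  rw [hcurve]
  have h5 : ((Nat.card ((W⁄(ZMod l))⁄(𝓞 F ⧸ v.asIdeal)).toAffine.Point : ℤ) : ℂ) = ((l ^ 2 + 1 - (t ^ 2 - 2 * l) : ℤ) : ℂ) := by
    push_cast
    rw [hw]
    push_cast
    linear_combination (-1 / 2 : ℂ) * hs
  exact_mod_cast h5

/-- Chunk RC1 (M). k = ZMod l, K = 𝓞 F ⧸ v (a field with l^2 elements, a ZMod l algebra). H55K.weil for W⁄(ZMod l), n = 2, α, β the roots: #W(K) = l^2 + 1 - α^2 - β^2 = l^2 + 1 - (t^2 - 2 l), t = l + 1 - #W(ZMod l) an integer. It is Nm (1 - ψ v) (hdeu); ψ v generates v = (l) (hψ.gen, v prime to m), so ψ v = l ε, ε a unit, Nm ε = 1, and Nm (1 - ψ v) =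
1 - l (ε + cj ε) + l^2 (mul_cj). So t^2 = l (2 + T), T = ε + cj ε an integer, |T| ≤ 2 (T^2 ≤ 4 Nm ε). l divides t, so l divides 2 + T, 0 ≤ 2 + T ≤ 4. If 2 + T = 0 then t = 0 and ε = -1 ((ε + 1)^2 = ε^2 + 2 ε + 1 = (T + 2) ε = 0 since ε^2 - T ε + 1 = 0). Otherwise l ≤ 4 and l divides 2 + T: l = 2, 2 + T = 2: T = 0, ε^2 = -1, (1 + ε)^2 = 2 ε: 2 is prime in 𝓞 F
(v = (2)) so it divides 1 + ε, so 4 divides 2 ε, absurd; l = 2, 2 + T = 4: t^2 = 8 absurd; l = 3, 2 + T = 3: T = 1, ε^2 - ε + 1 = 0, (1 + ε)^2 = 3 ε: 3 divides 1 + ε, 9 divides 3 ε, absurd. -/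
theorem inert_F (hψ : H55P.IsHecke m ψ)
    (hdeu : ∀ v : HeightOneSpectrum (𝓞 F), (W⁄(𝓞 F)).Δ ∉ v.asIdeal → ¬ m ≤ v.asIdeal →
      Nat.card ((W⁄(𝓞 F))⁄(𝓞 F ⧸ v.asIdeal)).toAffine.Point = Nm (1 - ψ v.asIdeal)) {l : ℕ} (hl : l.Prime)
    (v : HeightOneSpectrum (𝓞 F)) (hv : v.asIdeal = Ideal.span {(l : 𝓞 F)}) (hΔ : (W⁄(𝓞 F)).Δ ∉ v.asIdeal)
    (hm : ¬ m ≤ v.asIdeal) : Nat.card (W⁄(ZMod l)).toAffine.Point = l + 1 ∧ ψ v.asIdeal = -(l : 𝓞 F) := by
  have hN2 := hdeu v hΔ hm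
  have hgen : Ideal.span {ψ v.asIdeal} = v.asIdeal := hψ.gen _ (DD.d8_cop hm)
  have hl0 : (l : 𝓞 F) ≠ 0 := Nat.cast_ne_zero.2 hl.ne_zero
  have hlp : Prime (l : 𝓞 F) := by
    rw [← Ideal.span_singleton_prime hl0, ← hv]
    exact v.isPrime
  obtain ⟨ε, hε⟩ : ∃ ε : (𝓞 F)ˣ, (l : 𝓞 F) * ε = ψ v.asIdeal := by
    have h1 : Ideal.span {(l : 𝓞 F)} = Ideal.span {ψ v.asIdeal} := by rw [hgen, hv]
    exact Ideal.span_singleton_eq_span_singleton.1 h1
  have hNε : Nm (ε : 𝓞 F) = 1 := by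
    show Ideal.absNorm (Ideal.span {(ε : 𝓞 F)}) = 1
    rw [Ideal.span_singleton_eq_top.2 ε.isUnit, Ideal.absNorm_top]
  have hεc : (ε : 𝓞 F) * cj (ε : 𝓞 F) = 1 := by
    rw [mul_cj, hNε, Nat.cast_one]
  obtain ⟨T, hT⟩ : ∃ T : ℤ, T = 2 - (Nm (1 - (ε : 𝓞 F)) : ℤ) := ⟨_, rfl⟩
  have hTe : (T : 𝓞 F) = ε + cj (ε : 𝓞 F) := by
    rw [hT]
    push_cast
    rw [← mul_cj, map_sub, map_one]
    linear_combination -hεc
  have hTN : ((Nm (1 - ψ v.asIdeal) : ℤ)) = 1 - l * T + l ^ 2 := by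
    have h1 : (((Nm (1 - ψ v.asIdeal) : ℤ)) : 𝓞 F) = ((1 - l * T + l ^ 2 : ℤ) : 𝓞 F) := by
      push_cast
      rw [← mul_cj, map_sub, map_one, ← hε, map_mul, map_natCast, hTe]
      linear_combination (l : 𝓞 F) ^ 2 * hεc
    exact_mod_cast h1
  have hT4 : T ^ 2 ≤ 4 := by
    have h1 : ((T : ℝ)) = 2 * (eF F (ε : 𝓞 F)).re := by
      have h2 := congrArg (eF F) hTe
      rw [map_intCast, map_add, e_cj, Complex.add_conj] at h2
      exact_mod_cast h2
    have h3 : ‖eF F (ε : 𝓞 F)‖ ^ 2 = 1 := by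
      rw [← H55P.Nm_eq, hNε, Nat.cast_one]
    have h4 : ‖eF F (ε : 𝓞 F)‖ = 1 := by
      have h5 := norm_nonneg (eF F (ε : 𝓞 F))
      nlinarith
    have h6 := Complex.abs_re_le_norm (eF F (ε : 𝓞 F))
    rw [h4, abs_le] at h6
    have h7 : (T : ℝ) ^ 2 ≤ 4 := by
      rw [h1]
      nlinarith
    exact_mod_cast h7
  -- the number of points
  obtain ⟨t, ht⟩ : ∃ t : ℤ, t = l + 1 - (Nat.card (W⁄(ZMod l)).toAffine.Point : ℤ) := ⟨_, rfl⟩
  have hcount : ((Nm (1 - ψ v.asIdeal) : ℤ)) = l ^ 2 + 1 - (t ^ 2 - 2 * l) := by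
    rw [← hN2]
    exact rc1_count hl v hv hΔ ht
  have hkey : t ^ 2 = l * (2 + T) := by
    rw [hTN] at hcount
    linear_combination hcount
  have hlZ : Prime (l : ℤ) := Nat.prime_iff_prime_int.1 hl
  have hlt : (l : ℤ) ∣ t := hlZ.dvd_of_dvd_pow (n := 2) ⟨_, hkey⟩
  obtain ⟨t', ht'⟩ := hlt
  have hl2 : (2 : ℤ) ≤ l := by exact_mod_cast hl.two_le
  have hc : 2 + T = l * t' ^ 2 := by
    have h1 : (l : ℤ) * (2 + T) = l * (l * t' ^ 2) := by
      rw [← hkey, ht']
      ring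
    exact mul_left_cancel₀ (by omega) h1
  have hTb : -2 ≤ T ∧ T ≤ 2 := by constructor <;> nlinarith
  have hc2 : t' ^ 2 ≤ 2 := by nlinarith [hTb.2, sq_nonneg t']
  have ht'b : -1 ≤ t' ∧ t' ≤ 1 := by constructor <;> nlinarith
  have hqe : (1 + (ε : 𝓞 F)) ^ 2 = ((2 + T : ℤ) : 𝓞 F) * ε := by
    push_cast
    rw [hTe]
    linear_combination -hεc
  have h01 : t' = 0 ∨ t' ^ 2 = 1 := by
    have h2 : t' = -1 ∨ t' = 0 ∨ t' = 1 := by omega
    rcases h2 with h2 | h2 | h2
    · right; rw [h2]; norm_num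
    · left; exact h2
    · right; rw [h2]; norm_num
  rcases h01 with h0 | h1
  · have ht0 : t = 0 := by rw [ht', h0, mul_zero]
    have hT2 : 2 + T = 0 := by rw [hc, h0]; ring
    rw [hT2, Int.cast_zero, zero_mul] at hqe
    have h3 : (ε : 𝓞 F) = -1 := by
      have h4 := pow_eq_zero_iff (two_ne_zero) |>.1 hqe
      linear_combination h4
    refine ⟨?_, ?_⟩
    · have h5 : (Nat.card (W⁄(ZMod l)).toAffine.Point : ℤ) = l + 1 := by omega
      exact_mod_cast h5
    · rw [← hε, h3]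
      ring
  · exfalso
    rw [hc, h1, mul_one] at hqe
    push_cast at hqe
    have h2 : (l : 𝓞 F) ∣ (1 + (ε : 𝓞 F)) := hlp.dvd_of_dvd_pow (n := 2) ⟨_, hqe⟩
    obtain ⟨z, hz⟩ := h2
    rw [hz] at hqe
    have h3 : (l : 𝓞 F) * ((l : 𝓞 F) * z ^ 2) = l * ε := by
      rw [← hqe]
      ring
    have h4 := mul_left_cancel₀ hl0 h3
    exact hlp.not_isUnit (isUnit_of_dvd_unit ⟨z ^ 2, h4.symm⟩ ε.isUnit)

end H55K.TQ
end

-- from Lib.H55K.RC2
section

/-! # H55K: the trace at inert primes is zero -/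

open NumberField IsDedekindDomain WeierstrassCurve

namespace H55K.TQ

open H55P (IQ embF eF LF Per IsHecke Pt ac Inert Dec Nm UnitP)
open H35P (WAB Ker tt GoodW IntW)
open H55K.MG (VC Crd)

variable {F : Type} [Field F] [NumberField F] [IQ F] {W : WeierstrassCurve ℤ} {m : Ideal (𝓞 F)} {ψ : Ideal (𝓞 F) →*₀ 𝓞 F}

/-- The points of a curve over isomorphic fields. -/
theorem rc2_card {A B : Type} [CommRing A] [CommRing B] (W : WeierstrassCurve A) (f : A ≃+* B) :
    Nat.card ((W.map (f : A →+* B)).toAffine.Point) = Nat.card W.toAffine.Point := by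
  have h : ∀ x y, (W.map (f : A →+* B)).toAffine.Nonsingular ((f : A →+* B) x) ((f : A →+* B) y) ↔
      W.toAffine.Nonsingular x y := fun x y =>
    WeierstrassCurve.Affine.map_nonsingular (W := W.toAffine) (f := (f : A →+* B)) f.injective x y
  have h' : ∀ x y, (W.map (f : A →+* B)).toAffine.Nonsingular x y →
      W.toAffine.Nonsingular (f.symm x) (f.symm y) := by
    intro x y hxy
    rw [← h]
    show (W.map (f : A →+* B)).toAffine.Nonsingular (f (f.symm x)) (f (f.symm y))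
    rw [f.apply_symm_apply, f.apply_symm_apply]
    exact hxy
  have hsome : ∀ {R : Type} [CommRing R] (V : WeierstrassCurve.Affine R) {x y x' y' : R}
      (hx : x = x') (hy : y = y') (h1 : V.Nonsingular x y) (h2 : V.Nonsingular x' y'),
      WeierstrassCurve.Affine.Point.some x y h1 = WeierstrassCurve.Affine.Point.some x' y' h2 := by
    intro R _ V x y x' y' hx hy h1 h2
    subst hx
    subst hy
    rfl
  refine Nat.card_congr ?_
  refine
    { toFun := fun P => match P with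
        | .zero => .zero
        | .some x y hxy => .some (f.symm x) (f.symm y) (h' x y hxy)
      invFun := fun P => match P with
        | .zero => .zero
        | .some x y hxy => .some (f x) (f y) ((h x y).2 hxy)
      left_inv := ?_
      right_inv := ?_ }
  · rintro (_ | ⟨x, y, hxy⟩)
    · rfl
    · exact hsome _ (f.apply_symm_apply x) (f.apply_symm_apply y) _ _
  · rintro (_ | ⟨x, y, hxy⟩)
    · rfl
    · exact hsome _ (f.symm_apply_apply x) (f.symm_apply_apply y) _ _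

theorem rc2_mem {I : Ideal (𝓞 F)} {x : 𝓞 F} :
    x ∈ I.map ((cj : 𝓞 F ≃+* 𝓞 F) : 𝓞 F →+* 𝓞 F) ↔ cj x ∈ I := by
  rw [Ideal.map_comap_of_equiv, Ideal.mem_comap]
  have : (cj : 𝓞 F ≃+* 𝓞 F).symm x = cj x := by
    rw [RingEquiv.symm_apply_eq, cj_cj]
  rw [this]

/-- The conjugate prime. -/
noncomputable def rc2_v (v : HeightOneSpectrum (𝓞 F)) : HeightOneSpectrum (𝓞 F) where
  asIdeal := v.asIdeal.map ((cj : 𝓞 F ≃+* 𝓞 F) : 𝓞 F →+* 𝓞 F)
  isPrime := by
    have := v.isPrime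
    exact Ideal.map_isPrime_of_equiv (cj : 𝓞 F ≃+* 𝓞 F)
  ne_bot := by
    intro h
    obtain ⟨x, hx, hx0⟩ := Submodule.exists_mem_ne_zero_of_ne_bot v.ne_bot
    have h1 : cj x ∈ v.asIdeal.map ((cj : 𝓞 F ≃+* 𝓞 F) : 𝓞 F →+* 𝓞 F) := Ideal.mem_map_of_mem _ hx
    rw [h, Ideal.mem_bot] at h1
    exact hx0 ((map_eq_zero_iff (cj : 𝓞 F ≃+* 𝓞 F) (cj : 𝓞 F ≃+* 𝓞 F).injective).1 h1)

theorem rc2_disc (W : WeierstrassCurve ℤ) : (cj : 𝓞 F ≃+* 𝓞 F) (W⁄(𝓞 F)).Δ = (W⁄(𝓞 F)).Δ := by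
  have h : (W⁄(𝓞 F)).Δ = ((W.Δ : ℤ) : 𝓞 F) := by
    show (W.map (algebraMap ℤ (𝓞 F))).Δ = _
    rw [WeierstrassCurve.map_Δ, eq_intCast]
  rw [h, cj_int]

theorem rc2_ncop {v : HeightOneSpectrum (𝓞 F)} (hv : m ≤ v.asIdeal) : ¬ IsCoprime v.asIdeal m := by
  intro hc
  have h6 := Ideal.isCoprime_iff_sup_eq.1 hc
  rw [sup_eq_left.2 hv] at h6
  exact v.isPrime.ne_top h6

/-- The case of a prime ideal. -/
theorem rc2_prime (hψ : H55P.IsHecke m ψ)
    (hdeu : ∀ v : HeightOneSpectrum (𝓞 F), (W⁄(𝓞 F)).Δ ∉ v.asIdeal → ¬ m ≤ v.asIdeal →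
      Nat.card ((W⁄(𝓞 F))⁄(𝓞 F ⧸ v.asIdeal)).toAffine.Point = Nm (1 - ψ v.asIdeal))
    (hsupp : ∀ v : HeightOneSpectrum (𝓞 F), (W⁄(𝓞 F)).Δ ∈ v.asIdeal ↔ m ≤ v.asIdeal)
    (hram : ∀ v : HeightOneSpectrum (𝓞 F), (∀ a : 𝓞 F, a - cj a ∈ v.asIdeal) → (W⁄(𝓞 F)).Δ ∈ v.asIdeal)
    (v : HeightOneSpectrum (𝓞 F)) : ψ (rc2_v v).asIdeal = cj (ψ v.asIdeal) := by
  have hΔ : (W⁄(𝓞 F)).Δ ∈ (rc2_v v).asIdeal ↔ (W⁄(𝓞 F)).Δ ∈ v.asIdeal := by
    show (W⁄(𝓞 F)).Δ ∈ v.asIdeal.map ((cj : 𝓞 F ≃+* 𝓞 F) : 𝓞 F →+* 𝓞 F) ↔ _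
    rw [rc2_mem, rc2_disc]
  by_cases hm : m ≤ v.asIdeal
  · have hm' : m ≤ (rc2_v v).asIdeal := (hsupp _).1 (hΔ.2 ((hsupp _).2 hm))
    rw [hψ.zero _ (rc2_ncop hm), hψ.zero _ (rc2_ncop hm'), map_zero]
  have hd : (W⁄(𝓞 F)).Δ ∉ v.asIdeal := fun h => hm ((hsupp _).1 h)
  have hd' : (W⁄(𝓞 F)).Δ ∉ (rc2_v v).asIdeal := fun h => hd (hΔ.1 h)
  have hm' : ¬ m ≤ (rc2_v v).asIdeal := fun h => hd' ((hsupp _).2 h)
  have g1 : Ideal.span {ψ v.asIdeal} = v.asIdeal := hψ.gen _ (H55K.DD.d8_cop hm)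
  have g2 : Ideal.span {ψ (rc2_v v).asIdeal} = (rc2_v v).asIdeal := hψ.gen _ (H55K.DD.d8_cop hm')
  have g3 : (rc2_v v).asIdeal = Ideal.span {cj (ψ v.asIdeal)} := by
    show v.asIdeal.map ((cj : 𝓞 F ≃+* 𝓞 F) : 𝓞 F →+* 𝓞 F) = _
    conv_lhs => rw [← g1]
    rw [Ideal.map_span, Set.image_singleton]
    rfl
  set z : 𝓞 F := ψ v.asIdeal with hz
  set z' : 𝓞 F := ψ (rc2_v v).asIdeal with hz'
  -- the numbers of points
  have hN : Nm (1 - z) = Nm (1 - z') := by
    rw [← hdeu v hd hm, ← hdeu (rc2_v v) hd' hm']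
    set f : (𝓞 F ⧸ v.asIdeal) ≃+* (𝓞 F ⧸ (rc2_v v).asIdeal) :=
      Ideal.quotientEquiv v.asIdeal (rc2_v v).asIdeal (cj : 𝓞 F ≃+* 𝓞 F) rfl
    have e : ((W⁄(𝓞 F))⁄(𝓞 F ⧸ (rc2_v v).asIdeal)) =
        ((W⁄(𝓞 F))⁄(𝓞 F ⧸ v.asIdeal)).map (f : (𝓞 F ⧸ v.asIdeal) →+* (𝓞 F ⧸ (rc2_v v).asIdeal)) := by
      show (W.map (algebraMap ℤ (𝓞 F))).map (algebraMap (𝓞 F) (𝓞 F ⧸ (rc2_v v).asIdeal)) =
        ((W.map (algebraMap ℤ (𝓞 F))).map (algebraMap (𝓞 F) (𝓞 F ⧸ v.asIdeal))).map
          (f : (𝓞 F ⧸ v.asIdeal) →+* (𝓞 F ⧸ (rc2_v v).asIdeal))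
      rw [WeierstrassCurve.map_map, WeierstrassCurve.map_map, WeierstrassCurve.map_map]
      congr 1
      exact Subsingleton.elim _ _
    rw [e, rc2_card]
  have hNz : Nm z = Nm z' := by
    have h1 : Ideal.span {z'} = Ideal.span {cj z} := g2.trans g3
    rw [← Nm_cj z]
    unfold H55P.Nm
    rw [h1]
  have k1 : z * cj z = z' * cj z' := by rw [mul_cj, mul_cj, hNz]
  have k2 : z + cj z = z' + cj z' := by
    have h1 : (1 - z) * (1 - cj z) = (1 - z') * (1 - cj z') := by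
      have e1 := mul_cj (1 - z)
      have e2 := mul_cj (1 - z')
      rw [map_sub, map_one] at e1 e2
      rw [e1, e2, hN]
    linear_combination k1 - h1
  have k3 : (z' - z) * (z' - cj z) = 0 := by
    linear_combination (-z') * k2 + k1
  rcases mul_eq_zero.1 k3 with h | h
  swap
  · exact sub_eq_zero.1 h
  have hzz : z' = z := sub_eq_zero.1 h
  have hvv : (rc2_v v).asIdeal = v.asIdeal := by rw [← g2, hzz, g1]
  have hvcj : ∀ x : 𝓞 F, x ∈ v.asIdeal → cj x ∈ v.asIdeal := by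
    intro x hx
    have h1 : cj x ∈ (rc2_v v).asIdeal := Ideal.mem_map_of_mem _ hx
    rwa [hvv] at h1
  -- the residue field
  have hmax := v.isMaximal
  letI : Field (𝓞 F ⧸ v.asIdeal) := Ideal.Quotient.field _
  have hfin : Finite (𝓞 F ⧸ v.asIdeal) := Ideal.finiteQuotientOfFreeOfNeBot _ v.ne_bot
  obtain ⟨l, hchar⟩ := CharP.exists (𝓞 F ⧸ v.asIdeal)
  have hl : l.Prime := CharP.char_is_prime (𝓞 F ⧸ v.asIdeal) l
  have hlv : (l : 𝓞 F) ∈ v.asIdeal := by
    rw [← Ideal.Quotient.eq_zero_iff_mem, map_natCast]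
    exact CharP.cast_eq_zero _ l
  have hNv : Nm z = Nat.card (𝓞 F ⧸ v.asIdeal) := by
    unfold H55P.Nm
    rw [g1]
    rfl
  have hzl : z ∣ (l : 𝓞 F) := by
    rw [← Ideal.mem_span_singleton, g1]
    exact hlv
  obtain ⟨y, hy⟩ := hzl
  have hprod : Nm z * Nm y = l ^ 2 := by
    rw [← Nm_mul, ← hy, Nm_nat]
  have hz1 : Nm z ≠ 1 := by
    rw [hNv]
    intro h1
    have := Finite.one_lt_card (α := 𝓞 F ⧸ v.asIdeal)
    omega
  obtain ⟨i, hi, hNi⟩ := (Nat.dvd_prime_pow hl).1 (Dvd.intro _ hprod)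
  interval_cases i
  · exact absurd hNi (by rw [pow_zero]; exact hz1)
  · -- the residue field is the prime field
    exfalso
    rw [pow_one] at hNi
    have hinj := ZMod.castHom_injective (n := l) (𝓞 F ⧸ v.asIdeal)
    have hbij := hinj.bijective_of_nat_card_le (by rw [← hNv, hNi, Nat.card_zmod])
    apply hd
    apply hram
    intro a
    obtain ⟨b, hb⟩ := hbij.2 (Ideal.Quotient.mk v.asIdeal a)
    obtain ⟨c, rfl⟩ : ∃ c : ℕ, (c : ZMod l) = b := by
      have : NeZero l := ⟨hl.ne_zero⟩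
      exact ⟨b.val, ZMod.natCast_zmod_val b⟩
    have h1 : a - (c : 𝓞 F) ∈ v.asIdeal := by
      rw [← Ideal.Quotient.mk_eq_mk_iff_sub_mem, ← hb, map_natCast, map_natCast]
    have h2 := hvcj _ h1
    rw [map_sub, cj_nat] at h2
    have h3 := sub_mem h1 h2
    have e : a - (c : 𝓞 F) - (cj a - (c : 𝓞 F)) = a - cj a := by ring
    rwa [e] at h3
  · -- inert
    have hy1 : Nm y = 1 := by
      rw [hNi] at hprod
      exact Nat.eq_of_mul_eq_mul_left (pow_pos hl.pos 2) (by rw [hprod, mul_one])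
    have hyu : IsUnit y := by
      have h1 : Ideal.span {y} = ⊤ := Ideal.absNorm_eq_one_iff.1 hy1
      exact Ideal.span_singleton_eq_top.1 h1
    have hvl : v.asIdeal = Ideal.span {(l : 𝓞 F)} := by
      rw [← g1, hy]
      exact (Ideal.span_singleton_mul_right_unit hyu z).symm
    have h2 := (inert_F hψ hdeu hl v hvl hd hm).2
    rw [hzz, hz, h2, map_neg, cj_nat]

/-- Chunk RC2 (M). By multiplicativity (induction on prime factors; J = 0: both 0) J = v prime. If m ≤ v: Δ in v (hsupp), Δ is an integer, so Δ is in cj v, m ≤ cj v, both values are 0 (hψ.zero). Otherwise both are prime to m; z = ψ v, z' = ψ (cj v), span {z} = v, span {z'} = cj v. The residue fields are isomorphic by cj and W has integral coefficients, so the numbers of points are equal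
(H55P.pz10_card): Nm (1 - z) = Nm (1 - z') (hdeu), Nm z = absNorm v = Nm z', so z + cj z = z' + cj z', z cj z = z' cj z': z' = z or z' = cj z. If z' = z then cj v = v: v contains the rational prime l; either v = (l) and z = -l (inert_F) so z' = z = cj z; or 𝓞 F ⧸ v has l elements, every a is congruent to an integer b modulo v and
cj a is congruent to b modulo cj v = v, so a - cj a is in v for all a: hram gives Δ in v, m ≤ v: contradiction. -/
theorem psi_cj (hψ : H55P.IsHecke m ψ)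
    (hdeu : ∀ v : HeightOneSpectrum (𝓞 F), (W⁄(𝓞 F)).Δ ∉ v.asIdeal → ¬ m ≤ v.asIdeal →
      Nat.card ((W⁄(𝓞 F))⁄(𝓞 F ⧸ v.asIdeal)).toAffine.Point = Nm (1 - ψ v.asIdeal))
    (hsupp : ∀ v : HeightOneSpectrum (𝓞 F), (W⁄(𝓞 F)).Δ ∈ v.asIdeal ↔ m ≤ v.asIdeal)
    (hram : ∀ v : HeightOneSpectrum (𝓞 F), (∀ a : 𝓞 F, a - cj a ∈ v.asIdeal) → (W⁄(𝓞 F)).Δ ∈ v.asIdeal)
    (J : Ideal (𝓞 F)) : ψ (J.map ((cj : 𝓞 F ≃+* 𝓞 F) : 𝓞 F →+* 𝓞 F)) = cj (ψ J) := by
  induction J using UniqueFactorizationMonoid.induction_on_prime with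
  | h₁ =>
    have e : (0 : Ideal (𝓞 F)).map ((cj : 𝓞 F ≃+* 𝓞 F) : 𝓞 F →+* 𝓞 F) = 0 := by
      rw [Ideal.zero_eq_bot, Ideal.map_bot]
    rw [e, map_zero, map_zero]
  | h₂ x hx =>
    rw [Ideal.isUnit_iff.1 hx, Ideal.map_top, ← Ideal.one_eq_top, map_one, map_one]
  | h₃ a p ha hp ih =>
    rw [Ideal.map_mul, map_mul, map_mul, map_mul, ih]
    congr 1
    exact rc2_prime hψ hdeu hsupp hram ⟨p, Ideal.isPrime_of_prime hp, hp.ne_zero⟩

end H55K.TQ
end
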