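import Mathlib
import Pool.Agent.Lib.H1M.PP2.D_H28R_Defs
import Pool.Agent.Lib.H1M.PP2.D_H55C_Defs
import Pool.Agent.Lib.H1M.PP2.D_H55P_Sel
import Pool.Agent.Lib.H1M.PP2.M005
import Pool.Agent.Lib.H1M.PP2.M010
import Pool.Agent.Lib.H1M.PP2.M019
import Pool.Agent.Lib.H1M.PP2.M020
import Pool.Agent.Lib.H1M.PP2.M021
import Pool.Agent.Lib.H1M.PP2.M022
import Pool.Agent.Lib.H1M.PP2.M023
import Pool.Agent.Lib.H1M.PP2.M030
import Pool.Agent.Lib.H1M.PP2.M031
import Pool.Agent.Lib.H1M.PP2.M032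
import Pool.Agent.Lib.H1M.PP2.M038
import Pool.Agent.Lib.H1M.PP2.M040
import Pool.Agent.Lib.H1M.PP2.M041
import Pool.Agent.Lib.H1M.PP2.M051
import Pool.Agent.Lib.H1M.PP2.M054

/-! Merged copies (to shorten the build) of Lib.H13Y.GN1, Lib.H99B.C1, Lib.H13Y.GN7a, Lib.H13Y.GN7c, Lib.H13Y.GN6a, Lib.H55C.W1, Lib.H35T.K1, Lib.H55K.NA4, Lib.H55K.NA5, Lib.H35T.L7, Lib.H55C.W2, Lib.H13Y.GN3, Lib.H13Y.GN4, Lib.H28R.W11, Lib.H99B.B3, Lib.H13Y.GN6c, Lib.H99B.A1, Lib.H13Z.LF3, Lib.H28T.AR4, Lib.H55W.E3, Lib.H55W.Q1, Lib.H55W.Q2A, Lib.H55W.Q2B, Lib.H55W.F3, Lib.H55K.NA1, Lib.H55K.NA2, Lib.H55K.NA6, Lib.H55W.CL1. -/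

-- from Lib.H13Y.GN1
section

open NumberField IsDedekindDomain

namespace H13Y

open H55B H55R H28G H99B

section

variable {N L : Type} [Field N] [NumberField N] [Field L] [NumberField L] [Algebra N L]
variable {l : ℕ} {k : Type} [Field k]

/-- Chunk GN1 (S/M), PORT of H99B.eta_hom (B5.lean) to the base field N: the maps a -> M_a x. (Look at B5.lean; the abstract lemmas on pw and cf there are general or copy them with guN for gu.) -/
theorem etaN_hom [Fact l.Prime] [Fintype k] [DecidableEq k] [CharP k l] (χ : Gal(L/N) →* kˣ)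
    (ρ : k →+ ZMod l) (x : Lˣ) : EqHomN l χ fun a => pw guN (cf χ ρ a) x := by
  constructor
  · intro a b
    have hcf : ∀ g, ∃ t : ℤ, cf χ ρ (a + b) g = cf χ ρ a g + cf χ ρ b g + t * l := by
      intro g
      have h : ((cf χ ρ a g + cf χ ρ b g : ℤ) : ZMod l) = ((cf χ ρ (a + b) g : ℤ) : ZMod l) := by
        unfold cf
        push_cast
        simp only [ZMod.natCast_zmod_val]
        rw [← map_add, ← add_mul]
      rw [ZMod.intCast_eq_intCast_iff_dvd_sub] at h
      obtain ⟨t, ht⟩ := h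
      exact ⟨t, by rw [mul_comm t, ← ht]; ring⟩
    choose t ht using hcf
    refine ⟨∏ g, (guN g x) ^ t g, ?_⟩
    change pw guN (cf χ ρ (a + b)) x = pw guN (cf χ ρ a) x * pw guN (cf χ ρ b) x * _
    unfold pw
    rw [← Finset.prod_mul_distrib, ← Finset.prod_pow, ← Finset.prod_mul_distrib]
    refine Finset.prod_congr rfl fun g _ => ?_
    rw [ht g, zpow_add, zpow_add, zpow_mul, zpow_natCast]
  · intro τ a
    refine ⟨1, ?_⟩
    rw [one_pow, mul_one]
    change pw guN (cf χ ρ (χ τ * a)) x = guN τ (pw guN (cf χ ρ a) x)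
    unfold pw
    rw [map_prod]
    refine (Fintype.prod_equiv (Equiv.mulLeft τ) _ _ fun g => ?_).symm
    simp only [Equiv.coe_mulLeft]
    rw [map_zpow, map_mul]
    have e : cf χ ρ ((χ τ : k) * a) (τ * g) = cf χ ρ a g := by
      unfold cf
      congr 3
      rw [map_mul, mul_inv, Units.val_mul]
      have h : (χ τ : k) * (((χ τ)⁻¹ : kˣ) : k) = 1 := Units.mul_inv _
      linear_combination (a * (((χ g)⁻¹ : kˣ) : k)) * h
    rw [e]
    rfl


/-- An l-th power in Lˣ of an element of SU is the l-th power of an element of SU. -/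
theorem SU_pow {w : Pl N} (hl : l ≠ 0) {x z : Lˣ} (hx : x ∈ SU L w) (h : x = z ^ l) : z ∈ SU L w := by
  intro v hv
  have h1 := hx v hv
  rw [h, ← zpow_natCast, ord_zpow, mul_eq_zero] at h1
  rcases h1 with h1 | h1
  · exact absurd (by exact_mod_cast h1) hl
  · exact h1

end

end H13Y
end

-- from Lib.H99B.C1
section

/-!
Chunk C1 (M). The group of divisors and the class group with the action of the Galois group.
Div = Pl L →₀ ℤ. divF x = the divisor of x (finite support: H55R.HA11_finite). gD σ = Finsupp.mapDomain (smulP σ) (a monoid homomorphism by smulP_mul, smulP_one;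
mapDomain_comp). gD_div: gD σ (divF x) = divF (gu σ x): at smulP σ v both are ord v x (mapDomain_apply with the injectivity of smulP σ, ord_smul; every prime is
smulP σ v). gD_apply: value at smulP σ v.
fin_class: the quotient of Div by the principal divisors is finite: the additive map Div → Additive (ClassGroup (𝓞 L)) sending the basis vector of v to the class
of v.asIdeal (ClassGroup.mk0) has kernel contained in the principal divisors: for D = D1 - D2 with D1, D2 ≥ 0 in the kernel, the ideals a1, a2 (products of primes) have the same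
class, so x a1 = y a2 with integers x, y (ClassGroup.mk0_eq_mk0_iff), and D = div(y/x) (counting orders; ord of an integral element is the multiplicity in its ideal: H55R.ord_int
or HA5_ord). So Div / principal injects into the finite ClassGroup (or: it is a quotient of .. choose what is easiest; one can also prove that the index of the range of divF is
not 0 by AddSubgroup.index / AddMonoidHom.ker, index_ker, index_antitone).
-/

open NumberField IsDedekindDomain

namespace H99B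

open H55B H55R

variable {L : Type} [Field L] [NumberField L]

/-- The divisor of an element. -/
noncomputable def divF : Additive Lˣ →+ (Pl L →₀ ℤ) where
  toFun x := Finsupp.ofSupportFinite (fun v => ord v x.toMul) (HA11_finite x.toMul)
  map_zero' := by
    ext v
    exact ord_one v
  map_add' x y := by
    ext v
    exact ord_mul v x.toMul y.toMul

theorem divF_apply (x : Lˣ) (v : Pl L) : divF (Additive.ofMul x) v = ord v x := rfl

open scoped nonZeroDivisors

/-- The fractional ideal of a prime. -/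
noncomputable def c1_U (v : Pl L) : (FractionalIdeal (𝓞 L)⁰ L)ˣ :=
  Units.mk0 (v.asIdeal : FractionalIdeal (𝓞 L)⁰ L) (FractionalIdeal.coeIdeal_ne_zero.mpr v.ne_bot)

/-- The class of a divisor. -/
noncomputable def c1_phi : (Pl L →₀ ℤ) →+ Additive (ClassGroup (𝓞 L)) where
  toFun D := Additive.ofMul (ClassGroup.mk (K := L) (D.prod fun v n => c1_U v ^ n))
  map_zero' := by
    rw [Finsupp.prod_zero_index, map_one]
    rfl
  map_add' D D' := by
    rw [Finsupp.prod_add_index' (fun v => zpow_zero _) (fun v m n => zpow_add _ _ _), map_mul]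
    rfl

theorem c1_coe (D : Pl L →₀ ℤ) : (((D.prod fun v n => c1_U v ^ n : (FractionalIdeal (𝓞 L)⁰ L)ˣ)) :
    FractionalIdeal (𝓞 L)⁰ L) = D.prod fun v n => ((v.asIdeal : FractionalIdeal (𝓞 L)⁰ L)) ^ n := by
  unfold Finsupp.prod
  rw [Units.coe_prod]
  refine Finset.prod_congr rfl fun v _ => ?_
  rw [Units.val_zpow_eq_zpow_val]
  rfl

open Classical in
theorem c1_count (v : Pl L) (x : Lˣ) :
    FractionalIdeal.count L v (FractionalIdeal.spanSingleton (𝓞 L)⁰ (x : L)) = ord v x := by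
  obtain ⟨a, b, hb, hab⟩ := IsFractionRing.div_surjective (A := 𝓞 L) (x : L)
  have hinj : Function.Injective (algebraMap (𝓞 L) L) := IsFractionRing.injective (𝓞 L) L
  have hb0 : b ≠ 0 := nonZeroDivisors.ne_zero hb
  have ha0 : a ≠ 0 := by
    rintro rfl
    rw [map_zero, zero_div] at hab
    exact x.ne_zero hab.symm
  have hab0 : algebraMap (𝓞 L) L a ≠ 0 := by rwa [Ne, map_eq_zero_iff _ hinj]
  have hbb0 : algebraMap (𝓞 L) L b ≠ 0 := by rwa [Ne, map_eq_zero_iff _ hinj]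
  have h1 : FractionalIdeal.spanSingleton (𝓞 L)⁰ (x : L) =
      FractionalIdeal.spanSingleton (𝓞 L)⁰ ((algebraMap (𝓞 L) L b))⁻¹ * ((Ideal.span {a} : Ideal (𝓞 L)) : FractionalIdeal (𝓞 L)⁰ L) := by
    rw [FractionalIdeal.coeIdeal_span_singleton, FractionalIdeal.spanSingleton_mul_spanSingleton, ← hab, div_eq_inv_mul]
  have h0 : FractionalIdeal.spanSingleton (𝓞 L)⁰ (x : L) ≠ 0 :=
    FractionalIdeal.spanSingleton_ne_zero_iff.2 x.ne_zero
  rw [FractionalIdeal.count_well_defined L v h0 h1]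
  have e1 := HA5_ord v (Units.mk0 _ hab0) a ha0 rfl
  have e2 := HA5_ord v (Units.mk0 _ hbb0) b hb0 rfl
  have e3 : x * Units.mk0 _ hbb0 = Units.mk0 _ hab0 := by
    ext
    change (x : L) * algebraMap (𝓞 L) L b = algebraMap (𝓞 L) L a
    rw [← hab, div_mul_cancel₀ _ hbb0]
  have e4 := ord_mul v x (Units.mk0 _ hbb0)
  rw [e3, e1, e2] at e4
  linarith

theorem fin_class : Finite ((Pl L →₀ ℤ) ⧸ (divF (L := L)).range) := by
  classical
  have hle : (c1_phi (L := L)).ker ≤ (divF (L := L)).range := by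
    intro D hD
    rw [AddMonoidHom.mem_ker] at hD
    have h1 : ClassGroup.mk (K := L) (D.prod fun v n => c1_U v ^ n) = 1 := hD
    rw [ClassGroup.mk_eq_one_iff, FractionalIdeal.isPrincipal_iff] at h1
    obtain ⟨x, hx⟩ := h1
    have hx0 : x ≠ 0 := by
      rintro rfl
      rw [FractionalIdeal.spanSingleton_zero] at hx
      exact Units.ne_zero _ hx
    refine ⟨Additive.ofMul (Units.mk0 x hx0), ?_⟩
    ext v
    rw [divF_apply, ← c1_count v (Units.mk0 x hx0), Units.val_mk0, ← hx, c1_coe]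
    exact FractionalIdeal.count_finsuppProd L v D
  have h2 : (c1_phi (L := L)).ker.FiniteIndex := inferInstance
  have h3 : (divF (L := L)).range.FiniteIndex := AddSubgroup.finiteIndex_of_le hle
  infer_instance

variable [Algebra F L]






end H99B
end

-- from Lib.H13Y.GN7a
section

open NumberField IsDedekindDomain

namespace H13Y

open H55B H55R H28G H99B

/-- Chunk GN7a (S). Q^h is principal, h = the class number of L (or use the finiteness H99B.fin_class of divisors modulo principal divisors: h = the order of that group; divF). -/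
theorem exists_zQ {L : Type} [Field L] [NumberField L] (Q : Pl L) :
    ∃ (h : ℕ) (z : Lˣ), h ≠ 0 ∧ ord Q z = h ∧ ∀ v : Pl L, v ≠ Q → ord v z = 0 := by
  classical
  have hfin := fin_class (L := L)
  obtain ⟨h, hh, he⟩ := isOfFinAddOrder_iff_nsmul_eq_zero.1
    (isOfFinAddOrder_of_finite (QuotientAddGroup.mk (s := (divF (L := L)).range) (Finsupp.single Q (1 : ℤ))))
  have h1 : QuotientAddGroup.mk (s := (divF (L := L)).range) (h • Finsupp.single Q (1 : ℤ)) = 0 := he
  rw [QuotientAddGroup.eq_zero_iff] at h1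
  obtain ⟨z, hz⟩ := h1
  refine ⟨h, z.toMul, hh.ne', ?_, ?_⟩
  · have h2 := DFunLike.congr_fun hz Q
    have h3 : ord Q z.toMul = (h • Finsupp.single Q (1 : ℤ)) Q := h2
    rw [h3, Finsupp.smul_apply, Finsupp.single_eq_same, nsmul_eq_mul, mul_one]
  · intro v hv
    have h2 := DFunLike.congr_fun hz v
    have h3 : ord v z.toMul = (h • Finsupp.single Q (1 : ℤ)) v := h2
    rw [h3, Finsupp.smul_apply, Finsupp.single_eq_of_ne hv, smul_zero]


end H13Y
end

-- from Lib.H13Y.GN7c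
section

open NumberField IsDedekindDomain

namespace H13Y

open H55B H55R H28G H99B

theorem gn7c_above {N L : Type} [Field N] [NumberField N] [Field L] [NumberField L] [Algebra N L] (w : Pl N) :
    {W : Pl L | W.under (𝓞 N) = w}.Finite := by
  have hm := w.isMaximal
  have h1 : (w.asIdeal.primesOver (𝓞 L)).Finite := IsDedekindDomain.primesOver_finite w.asIdeal (𝓞 L)
  refine Set.Finite.of_finite_image (f := fun W : Pl L => W.asIdeal) (h1.subset ?_) ?_
  · rintro _ ⟨W, hW, rfl⟩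
    exact ⟨W.isPrime, ⟨(congrArg HeightOneSpectrum.asIdeal hW).symm⟩⟩
  · intro W _ W' _ h
    exact HeightOneSpectrum.ext h

theorem gn7c_ord {L : Type} [Field L] [NumberField L] (T : Finset (Pl L)) (z : Pl L → Lˣ) (k : Pl L → ℤ) (v : Pl L) :
    ord v (∏ Q ∈ T, z Q ^ (k Q)) = ∑ Q ∈ T, k Q * ord v (z Q) := by
  classical
  induction T using Finset.induction_on with
  | empty => simp [ord_one]
  | insert a s ha ih => rw [Finset.prod_insert ha, Finset.sum_insert ha, ord_mul, ord_zpow, ih]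

/-- Chunk GN7c (S/M). The primes of L above w are finitely many (Q₁, ..., Q_n). h = the product of the h of exists_zQ for the Q_i (or a common h), z_i with (z_i) = Q_i^h. x in SU: x^h times the product of z_i^(- ord Q_i x) has all orders 0: a unit (unit_of_ord). B = the subgroup generated by the image of the units (finitely generated: Mathlib, Monoid.FG of (𝓞 L)ˣ; Subgroup.FG.map or Subgroup.fg_range) and the z_i. -/
theorem SU_fg {N L : Type} [Field N] [NumberField N] [Field L] [NumberField L] [Algebra N L] (w : Pl N) :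
    ∃ (h : ℕ) (B : Subgroup Lˣ), h ≠ 0 ∧ B.FG ∧ B ≤ SU L w ∧ ∀ x ∈ SU L w, x ^ h ∈ B := by
  classical
  have hfin : {W : Pl L | W.under (𝓞 N) = w}.Finite := gn7c_above w
  set T : Finset (Pl L) := hfin.toFinset with hT
  have hmT : ∀ W : Pl L, W ∈ T ↔ W.under (𝓞 N) = w := fun W => by simp [hT]
  choose hh z hz0 hz1 hz2 using fun Q : Pl L => exists_zQ Q
  let U : Subgroup Lˣ := (Units.map (algebraMap (𝓞 L) L : 𝓞 L →* L)).range
  have hUfg : U.FG := by
    rw [← Group.fg_iff_subgroup_fg]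
    have h1 : Group.FG (𝓞 L)ˣ := Group.fg_iff_monoid_fg.2 inferInstance
    exact Group.fg_of_surjective (f := (Units.map (algebraMap (𝓞 L) L : 𝓞 L →* L)).rangeRestrict)
      (MonoidHom.rangeRestrict_surjective _)
  let C : Subgroup Lˣ := Subgroup.closure (T.image z : Set Lˣ)
  have hCfg : C.FG := ⟨T.image z, rfl⟩
  refine ⟨∏ Q ∈ T, hh Q, U ⊔ C, Finset.prod_ne_zero_iff.2 fun Q _ => hz0 Q, hUfg.sup hCfg, ?_, ?_⟩
  · apply sup_le
    · rintro _ ⟨u, rfl⟩ v _
      exact HA7_ord_unit u v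
    · rw [Subgroup.closure_le]
      intro y hy
      rw [Finset.mem_coe, Finset.mem_image] at hy
      obtain ⟨Q, hQ, rfl⟩ := hy
      intro v hv
      apply hz2 Q v
      rintro rfl
      exact hv ((hmT v).1 hQ)
  · intro x hx
    let k : Pl L → ℤ := fun Q => ord Q x * ∏ P ∈ T.erase Q, (hh P : ℤ)
    have hu : ∀ v : Pl L, ord v (x ^ (∏ Q ∈ T, hh Q) * (∏ Q ∈ T, z Q ^ (k Q))⁻¹) = 0 := by
      intro v
      have e1 := gn7c_ord T z k v
      have e2 : ord v (x ^ (∏ Q ∈ T, hh Q)) = ((∏ Q ∈ T, hh Q : ℕ) : ℤ) * ord v x := by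
        rw [← zpow_natCast, ord_zpow]
      rw [ord_mul, ord_inv, e1, e2]
      by_cases hv : v ∈ T
      · rw [Finset.sum_eq_single_of_mem v hv]
        · rw [hz1 v, ← Finset.mul_prod_erase T hh hv]
          simp only [k]
          push_cast
          ring
        · intro Q _ hQv
          rw [hz2 Q v (Ne.symm hQv), mul_zero]
      · have h1 : ord v x = 0 := hx v (fun h => hv ((hmT v).2 h))
        rw [h1, mul_zero, zero_add, neg_eq_zero]
        apply Finset.sum_eq_zero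
        intro Q hQ
        rw [hz2 Q v (fun h => hv (h ▸ hQ)), mul_zero]
    obtain ⟨u, hu'⟩ := HA7_unit _ hu
    have hx2 : x ^ (∏ Q ∈ T, hh Q) = Units.map (algebraMap (𝓞 L) L : 𝓞 L →* L) u * ∏ Q ∈ T, z Q ^ (k Q) := by
      rw [hu', inv_mul_cancel_right]
    rw [hx2]
    apply Subgroup.mul_mem
    · exact Subgroup.mem_sup_left ⟨u, rfl⟩
    · apply Subgroup.mem_sup_right
      apply Subgroup.prod_mem
      intro Q hQ
      apply Subgroup.zpow_mem
      apply Subgroup.subset_closure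
      rw [Finset.mem_coe]
      exact Finset.mem_image_of_mem z hQ

end H13Y
end

-- from Lib.H13Y.GN6a
section

open NumberField IsDedekindDomain

namespace H13Y

open H55B H55R H28G H99B

theorem gn6a_comap {N L : Type} [Field N] [Field L] [Algebra N L] (w : InfinitePlace L) (σ : Gal(L/N)) :
    (w.comap ((σ : L ≃ₐ[N] L) : L →+* L)).comap (algebraMap N L) = w.comap (algebraMap N L) := by
  rw [← InfinitePlace.comap_comp]
  congr 1
  ext x
  exact σ.commutes x

theorem gn6a_smul {N L : Type} [Field N] [Field L] [Algebra N L] (w : InfinitePlace L) (σ : Gal(L/N)) :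
    w.comap ((σ : L ≃ₐ[N] L) : L →+* L) = σ⁻¹ • w := rfl

/-- Chunk GN6a (M). The infinite places of a Galois extension L of a totally complex field N: u v = a place above v (InfinitePlace.comap_surjective); Galois is transitive on the places above v (InfinitePlace.exists_smul_eq_of_comap_eq) and the stabilizers are trivial (v is complex, so v is unramified in L: InfinitePlace.IsUnramified, isUnramified_iff.. / card_stabilizer = 1). σ • w = w.comap σ.symm (InfinitePlace.smul_eq_comap). -/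
theorem places_bij {N L : Type} [Field N] [NumberField N] [Field L] [NumberField L] [Algebra N L]
    [IsGalois N L] (hc : ∀ v : InfinitePlace N, v.IsComplex) :
    ∃ u : InfinitePlace N → InfinitePlace L,
      Function.Bijective fun p : Gal(L/N) × InfinitePlace N => (u p.2).comap ((p.1 : L ≃ₐ[N] L) : L →+* L) := by
  choose u hu using fun v : InfinitePlace N => InfinitePlace.comap_surjective (K := L) v
  have hu' : ∀ v, (u v).comap (algebraMap N L) = v := hu
  refine ⟨u, ?_, ?_⟩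
  · rintro ⟨σ, v⟩ ⟨τ, v'⟩ h
    have h1 : (u v).comap ((σ : L ≃ₐ[N] L) : L →+* L) = (u v').comap ((τ : L ≃ₐ[N] L) : L →+* L) := h
    have h2 := congrArg (fun w => InfinitePlace.comap w (algebraMap N L)) h1
    simp only [gn6a_comap, hu'] at h2
    subst h2
    rw [gn6a_smul, gn6a_smul] at h1
    have h3 : (τ * σ⁻¹) • u v = u v := by
      rw [mul_smul, h1, smul_inv_smul]
    have h4 : InfinitePlace.IsUnramified N (u v) := by
      rw [InfinitePlace.isUnramified_iff]
      right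
      rw [hu']
      exact hc v
    rw [InfinitePlace.isUnramified_iff_stabilizer_eq_bot] at h4
    have h5 : τ * σ⁻¹ ∈ MulAction.stabilizer Gal(L/N) (u v) := h3
    rw [h4, Subgroup.mem_bot, mul_inv_eq_one] at h5
    rw [h5]
  · intro w
    obtain ⟨σ, hσ⟩ := InfinitePlace.exists_smul_eq_of_comap_eq (k := N) (w := u (w.comap (algebraMap N L))) (w' := w)
      (hu' _)
    refine ⟨(σ⁻¹, w.comap (algebraMap N L)), ?_⟩
    show (u (w.comap (algebraMap N L))).comap (((σ⁻¹ : Gal(L/N)) : L ≃ₐ[N] L) : L →+* L) = w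
    rw [gn6a_smul, inv_inv, hσ]

end H13Y
end

-- from Lib.H55C.W1
section

open NumberField IsDedekindDomain

namespace H55C

open H55B

/-! Chunk W1: scaling a lattice.
L' has periods c ω₁, c ω₂ (linearly independent over the reals: multiplication by c is a real linear
bijection; compare A0.LL_indep, or LinearIndependent.map' with the linear equivalence z -> c z).
L'.lattice = c L.lattice, the map l -> c l is a bijection between the lattices, hence
L'.G n = sum (c l)^(-n) = c^(-n) L.G n. Determinant: Im(conj(c ω₁) c ω₂) = |c|^2 Im(conj(ω₁) ω₂) and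
ω₁.re ω₂.im - ω₁.im ω₂.re = Im(conj(ω₁) ω₂). -/
theorem W1_indep (L : PeriodPair) (c : ℂ) (hc : c ≠ 0) :
    LinearIndependent ℝ ![c * L.ω₁, c * L.ω₂] := by
  have h := L.indep.map' (LinearMap.mulLeft ℝ c) (by
    rw [LinearMap.ker_eq_bot]
    intro x y hxy
    exact mul_left_cancel₀ hc hxy)
  have e : (LinearMap.mulLeft ℝ c : ℂ → ℂ) ∘ ![L.ω₁, L.ω₂] = ![c * L.ω₁, c * L.ω₂] := by
    funext i
    fin_cases i <;> rfl
  rw [e] at h
  exact h

/-- The scaled lattice. -/
noncomputable def W1_L (L : PeriodPair) (c : ℂ) (hc : c ≠ 0) : PeriodPair :=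
  ⟨c * L.ω₁, c * L.ω₂, W1_indep L c hc⟩

theorem W1_mem (L : PeriodPair) (c : ℂ) (hc : c ≠ 0) (x : ℂ) (hx : x ∈ L.lattice) :
    c * x ∈ (W1_L L c hc).lattice := by
  obtain ⟨m, n, h⟩ := PeriodPair.mem_lattice.1 hx
  refine PeriodPair.mem_lattice.2 ⟨m, n, ?_⟩
  show (m : ℂ) * (c * L.ω₁) + n * (c * L.ω₂) = c * x
  rw [← h]
  ring

theorem W1_mem' (L : PeriodPair) (c : ℂ) (hc : c ≠ 0) (x : ℂ) (hx : x ∈ (W1_L L c hc).lattice) :
    c⁻¹ * x ∈ L.lattice := by
  obtain ⟨m, n, h⟩ := PeriodPair.mem_lattice.1 hx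
  refine PeriodPair.mem_lattice.2 ⟨m, n, ?_⟩
  have h' : (m : ℂ) * (c * L.ω₁) + n * (c * L.ω₂) = x := h
  rw [← h']
  field_simp

/-- The bijection between the lattices. -/
noncomputable def W1_equiv (L : PeriodPair) (c : ℂ) (hc : c ≠ 0) :
    L.lattice ≃ (W1_L L c hc).lattice where
  toFun x := ⟨c * x, W1_mem L c hc x x.2⟩
  invFun x := ⟨c⁻¹ * x, W1_mem' L c hc x x.2⟩
  left_inv x := by
    apply Subtype.ext
    show c⁻¹ * (c * (x : ℂ)) = x
    rw [inv_mul_cancel_left₀ hc]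
  right_inv x := by
    apply Subtype.ext
    show c * (c⁻¹ * (x : ℂ)) = x
    rw [mul_inv_cancel_left₀ hc]

theorem W1_G (L : PeriodPair) (c : ℂ) (hc : c ≠ 0) (n : ℕ) :
    (W1_L L c hc).G n = (c ^ n)⁻¹ * L.G n := by
  unfold PeriodPair.G
  rw [← (W1_equiv L c hc).tsum_eq, ← tsum_mul_left]
  refine tsum_congr fun x => ?_
  show ((c * (x : ℂ)) ^ n)⁻¹ = (c ^ n)⁻¹ * ((x : ℂ) ^ n)⁻¹
  rw [mul_pow, mul_inv]


end H55C
end

-- from Lib.H35T.K1
section

open NumberField IsDedekindDomain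

namespace H35T

open H55B

variable {K : Type} [Field K] [NumberField K] [Algebra F K]

/-! Chunk K1 (M): fields generated by cube roots. Adapt H55B.G0. Every s in S is a root of X^3 - a, which splits in K (om in F) and is separable; K is generated
by S. For g in the Galois group g s = om^j s, so g (h s) = h (g s) and g^3 s = s for s in S (s nonzero because a is nonzero: a = 1 modulo 3), so
the group is commutative of exponent 3; its order is a power of 3 (IsPGroup.iff_card). -/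

theorem Adm.ne_zero {a : O} (ha : Adm a) : a ≠ 0 := by
  rintro rfl
  have h := (dvd_mul_right (3 : O) (om - 1)).trans ha.1
  have h3 : ((3 : ℤ) : O) ∣ ((-1 : ℤ) : O) + ((0 : ℤ) : O) * om := by
    have e : ((-1 : ℤ) : O) + ((0 : ℤ) : O) * om = 0 - 1 := by push_cast; ring
    rw [e]
    exact_mod_cast h
  have := (H4_dvd h3).1
  omega











end H35T
end

-- from Lib.H55K.NA4
section

/-! # H55K, part N: wild inertia has order prime to p (V(p) = 1) -/

open NumberField IsDedekindDomain WeierstrassCurve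

namespace H55K.NB

open H55P

variable {F : Type} [Field F] {Ω : Type} [Field Ω] [Algebra F Ω]

theorem nq_dec (V : ValuationSubring Ω) (s : Ω ≃ₐ[F] Ω) (hs : Inert V s) (x : Ω) : s x ∈ V ↔ x ∈ V := by
  constructor
  · intro hx
    by_contra hcon
    have h1 : 1 < V.valuation x := by
      rw [← not_le, V.valuation_le_one_iff]
      exact hcon
    have x0 : V.valuation x ≠ 0 := (zero_lt_one.trans h1).ne'
    have h2 : V.valuation x⁻¹ < 1 := by
      rw [map_inv₀]
      exact inv_lt_one_of_one_lt₀ h1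
    have h3 := hs x⁻¹ ((V.valuation_le_one_iff _).1 h2.le)
    have h4 : V.valuation (s x⁻¹) < 1 := by
      have h5 := V.valuation.map_add_lt h3 h2
      rwa [sub_add_cancel] at h5
    rw [map_inv₀ s, map_inv₀] at h4
    have h6 : V.valuation (s x) ≤ 1 := (V.valuation_le_one_iff _).2 hx
    have hx0 : x ≠ 0 := by
      rintro rfl
      exact x0 (map_zero _)
    have h7 : V.valuation (s x) ≠ 0 := (V.valuation.ne_zero_iff).2 ((map_ne_zero s).2 hx0)
    exact absurd h4 (not_lt.2 ((one_le_inv₀ (zero_lt_iff.2 h7)).2 h6))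
  · intro hx
    have h1 : s x - x ∈ V := (V.valuation_le_one_iff _).1 (hs x hx).le
    have h2 := V.add_mem _ _ h1 hx
    rwa [sub_add_cancel] at h2

theorem nq_le (V : ValuationSubring Ω) (s : Ω ≃ₐ[F] Ω) (hs : Inert V s) (a b : Ω) (hb : b ≠ 0) :
    V.valuation (s a) ≤ V.valuation (s b) ↔ V.valuation a ≤ V.valuation b := by
  have h1 := nq_dec V s hs (a / b)
  have h2 : 0 < V.valuation b := zero_lt_iff.2 ((Valuation.ne_zero_iff _).2 hb)
  have h3 : 0 < V.valuation (s b) := zero_lt_iff.2 ((Valuation.ne_zero_iff _).2 ((map_ne_zero s).2 hb))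
  rw [← V.valuation_le_one_iff, ← V.valuation_le_one_iff, map_div₀ s, map_div₀, map_div₀,
    div_le_one₀ h3, div_le_one₀ h2] at h1
  exact h1

theorem nq_orb [Algebra.IsAlgebraic F Ω] (s : Ω ≃ₐ[F] Ω) (x : Ω) : ∃ n : ℕ, 0 < n ∧ (s ^ n) x = x := by
  have hx : IsIntegral F x := (Algebra.IsAlgebraic.isAlgebraic x).isIntegral
  have hroot : ∀ k : ℕ, (s ^ k) x ∈ (minpoly F x).rootSet Ω := by
    intro k
    rw [Polynomial.mem_rootSet]
    refine ⟨minpoly.ne_zero hx, ?_⟩
    have h1 := Polynomial.aeval_algHom_apply ((s ^ k : Ω ≃ₐ[F] Ω) : Ω →ₐ[F] Ω) x (minpoly F x)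
    rw [minpoly.aeval, map_zero] at h1
    exact h1
  obtain ⟨i, j, hij, he⟩ := Finite.exists_ne_map_eq_of_infinite
    (fun k : ℕ => (⟨(s ^ k) x, hroot k⟩ : (minpoly F x).rootSet Ω))
  have he' : (s ^ i) x = (s ^ j) x := congrArg Subtype.val he
  have key : ∀ i j : ℕ, i < j → (s ^ i) x = (s ^ j) x → ∃ n : ℕ, 0 < n ∧ (s ^ n) x = x := by
    intro i j hlt he
    refine ⟨j - i, by omega, ?_⟩
    apply (s ^ i).injective
    rw [← AlgEquiv.mul_apply, ← pow_add, he]
    congr 2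
    omega
  rcases lt_or_gt_of_ne hij with h | h
  · exact key i j h he'
  · exact key j i h he'.symm

theorem nq_val [Algebra.IsAlgebraic F Ω] (V : ValuationSubring Ω) (s : Ω ≃ₐ[F] Ω) (hs : Inert V s)
    (x : Ω) : V.valuation (s x) = V.valuation x := by
  by_cases hx : x = 0
  · rw [hx, map_zero]
  obtain ⟨n, hn, hnx⟩ := nq_orb s x
  have hne : ∀ k : ℕ, (s ^ k) x ≠ 0 := fun k => (map_ne_zero (s ^ k)).2 hx
  have hs1 : ∀ k : ℕ, (s ^ (k + 1)) x = s ((s ^ k) x) := fun k => by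
    rw [pow_succ', AlgEquiv.mul_apply]
  have h0 : (s ^ 0) x = x := by rw [pow_zero]; rfl
  rcases lt_trichotomy (V.valuation (s x)) (V.valuation x) with h | h | h
  · exfalso
    have hstep : ∀ k : ℕ, V.valuation ((s ^ (k + 1)) x) < V.valuation ((s ^ k) x) := by
      intro k
      induction k with
      | zero =>
        rw [hs1, h0]
        exact h
      | succ k ih =>
        rw [hs1 (k + 1)]
        conv_rhs => rw [hs1 k]
        rw [← not_le] at ih ⊢
        rwa [nq_le V s hs _ _ (hne _)]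
    have h1 := strictAnti_nat_of_succ_lt (f := fun k => V.valuation ((s ^ k) x)) hstep hn
    simp only [hnx, h0] at h1
    exact lt_irrefl _ h1
  · exact h
  · exfalso
    have hstep : ∀ k : ℕ, V.valuation ((s ^ k) x) < V.valuation ((s ^ (k + 1)) x) := by
      intro k
      induction k with
      | zero =>
        rw [hs1, h0]
        exact h
      | succ k ih =>
        rw [hs1 (k + 1)]
        conv_lhs => rw [hs1 k]
        rw [← not_le] at ih ⊢
        rwa [nq_le V s hs _ _ (hne _)]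
    have h1 := strictMono_nat_of_lt_succ (f := fun k => V.valuation ((s ^ k) x)) hstep hn
    simp only [hnx, h0] at h1
    exact lt_irrefl _ h1


/-- The element u acts trivially on the leading terms. -/
def Wild (V : ValuationSubring Ω) (u : Ω ≃ₐ[F] Ω) : Prop :=
  ∀ x : Ω, x ≠ 0 → V.valuation (u x - x) < V.valuation x


/-- Commutators of inertia elements are wild. -/
theorem wild_comm [Algebra.IsAlgebraic F Ω] (V : ValuationSubring Ω) (s t : Ω ≃ₐ[F] Ω) (hs : Inert V s)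
    (ht : Inert V t) : Wild V (s * t * s⁻¹ * t⁻¹) := by
  have vs := nq_val V s hs
  have vt := nq_val V t ht
  intro x hx
  -- x = t s y
  obtain ⟨y, rfl⟩ : ∃ y, x = t (s y) := ⟨s⁻¹ (t⁻¹ x), by
    have h1 : s (s⁻¹ (t⁻¹ x)) = t⁻¹ x := s.apply_symm_apply _
    have h2 : t (t⁻¹ x) = x := t.apply_symm_apply _
    rw [h1, h2]⟩
  have hy : y ≠ 0 := by
    rintro rfl
    rw [map_zero, map_zero] at hx
    exact hx rfl
  have e1 : (s * t * s⁻¹ * t⁻¹) (t (s y)) = s (t y) := by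
    have h1 : t⁻¹ (t (s y)) = s y := t.symm_apply_apply _
    have h2 : s⁻¹ (s y) = y := s.symm_apply_apply _
    rw [AlgEquiv.mul_apply, AlgEquiv.mul_apply, AlgEquiv.mul_apply, h1, h2]
  rw [e1, vt, vs]
  have hvy : V.valuation y ≠ 0 := (V.valuation.ne_zero_iff).2 hy
  have hpos : (0 : V.ValueGroup) < V.valuation y := zero_lt_iff.2 hvy
  set a : Ω := s y / y with ha
  set b : Ω := t y / y with hb
  have hsy : s y = a * y := by rw [ha, div_mul_cancel₀ _ hy]
  have hty : t y = b * y := by rw [hb, div_mul_cancel₀ _ hy]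
  have hva : V.valuation a = 1 := by rw [ha, map_div₀, vs, div_self hvy]
  have hvb : V.valuation b = 1 := by rw [hb, map_div₀, vt, div_self hvy]
  have haV : a ∈ V := (V.valuation_le_one_iff a).1 hva.le
  have hbV : b ∈ V := (V.valuation_le_one_iff b).1 hvb.le
  have h1 : s (t y) - t (s y) = ((s b - b) * a - (t a - a) * b) * y := by
    rw [hty, hsy, map_mul, map_mul, hsy, hty]
    ring
  rw [h1, map_mul]
  have h2 : V.valuation ((s b - b) * a - (t a - a) * b) < 1 := by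
    refine Valuation.map_sub_lt _ ?_ ?_
    · rw [map_mul, hva, mul_one]
      exact hs b hbV
    · rw [map_mul, hvb, mul_one]
      exact ht a haV
  calc V.valuation ((s b - b) * a - (t a - a) * b) * V.valuation y < 1 * V.valuation y :=
        mul_lt_mul_of_pos_right h2 hpos
    _ = V.valuation y := one_mul _

theorem wild_val (V : ValuationSubring Ω) {u : Ω ≃ₐ[F] Ω} (hu : Wild V u) (x : Ω) :
    V.valuation (u x) = V.valuation x := by
  by_cases hx : x = 0
  · rw [hx, map_zero]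
  have h := hu x hx
  have e : u x = x + (u x - x) := by ring
  rw [e]
  exact Valuation.map_add_eq_of_lt_left _ h

theorem wild_pow (V : ValuationSubring Ω) {u : Ω ≃ₐ[F] Ω} (hu : Wild V u) (n : ℕ) : Wild V (u ^ n) := by
  induction n with
  | zero =>
    intro x hx
    rw [pow_zero, AlgEquiv.one_apply, sub_self, map_zero]
    exact zero_lt_iff.2 ((V.valuation.ne_zero_iff).2 hx)
  | succ n ih =>
    intro x hx
    have e : (u ^ (n + 1)) x - x = ((u ^ n) (u x) - u x) + (u x - x) := by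
      rw [pow_succ, AlgEquiv.mul_apply]
      ring
    rw [e]
    refine Valuation.map_add_lt _ ?_ (hu x hx)
    have h := ih (u x) ((map_ne_zero u).2 hx)
    rwa [wild_val V hu] at h

/-- A wild element whose m-th power fixes x fixes x, if V(m) = 1. -/
theorem wild_fix (V : ValuationSubring Ω) {u : Ω ≃ₐ[F] Ω} (hu : Wild V u) (m : ℕ)
    (hm : V.valuation (m : Ω) = 1) (x : Ω) (hx : (u ^ m) x = x) : u x = x := by
  by_contra hne
  set δ : Ω := u x - x with hδ
  have hδ0 : δ ≠ 0 := sub_ne_zero.2 hne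
  have h1 : ∀ k : ℕ, ∑ i ∈ Finset.range k, (u ^ i) δ = (u ^ k) x - x := by
    intro k
    induction k with
    | zero => rw [Finset.range_zero, Finset.sum_empty, pow_zero, AlgEquiv.one_apply, sub_self]
    | succ k ih =>
      rw [Finset.sum_range_succ, ih, hδ, map_sub, pow_succ, AlgEquiv.mul_apply]
      ring
  have h2 : ∀ k : ℕ, V.valuation (∑ i ∈ Finset.range k, ((u ^ i) δ - δ)) < V.valuation δ := by
    intro k
    induction k with
    | zero =>
      rw [Finset.range_zero, Finset.sum_empty, map_zero]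
      exact zero_lt_iff.2 ((V.valuation.ne_zero_iff).2 hδ0)
    | succ k ih =>
      rw [Finset.sum_range_succ]
      exact Valuation.map_add_lt _ ih (wild_pow V hu k δ hδ0)
  have h3 : ∑ i ∈ Finset.range m, ((u ^ i) δ - δ) = - ((m : Ω) * δ) := by
    rw [Finset.sum_sub_distrib, h1 m, hx, sub_self, Finset.sum_const, Finset.card_range, nsmul_eq_mul, zero_sub]
  have h4 := h2 m
  rw [h3, Valuation.map_neg, map_mul, hm, one_mul] at h4
  exact lt_irrefl _ h4

/-- A power of u fixes L, L finite. -/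
theorem pow_fix [Algebra.IsAlgebraic F Ω] (u : Ω ≃ₐ[F] Ω) (L : IntermediateField F Ω) [FiniteDimensional F L] :
    ∃ n : ℕ, 0 < n ∧ u ^ n ∈ L.fixingSubgroup := by
  classical
  let b := Module.finBasis F L
  have h1 : ∀ i, ∃ n : ℕ, 0 < n ∧ (u ^ n) ((b i : L) : Ω) = ((b i : L) : Ω) := fun i => nq_orb u _
  choose n hn hb using h1
  refine ⟨∏ i, n i, Finset.prod_pos fun i _ => hn i, ?_⟩
  have h2 : ∀ i, (u ^ ∏ i, n i) ((b i : L) : Ω) = ((b i : L) : Ω) := by
    intro i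
    obtain ⟨k, hk⟩ : n i ∣ ∏ i, n i := Finset.dvd_prod_of_mem _ (Finset.mem_univ i)
    rw [hk, pow_mul]
    have h3 : ∀ k : ℕ, ((u ^ n i) ^ k) ((b i : L) : Ω) = ((b i : L) : Ω) := by
      intro k
      induction k with
      | zero => rw [pow_zero, AlgEquiv.one_apply]
      | succ k ih => rw [pow_succ, AlgEquiv.mul_apply, hb, ih]
    exact h3 k
  rw [IntermediateField.mem_fixingSubgroup_iff]
  intro x hx
  have h4 : (⟨x, hx⟩ : L) = ∑ i, (b.repr ⟨x, hx⟩) i • b i := (b.sum_repr _).symm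
  have h5 : x = ∑ i, (b.repr ⟨x, hx⟩) i • ((b i : L) : Ω) := by
    calc x = L.val ⟨x, hx⟩ := rfl
      _ = L.val (∑ i, (b.repr ⟨x, hx⟩) i • b i) := by rw [← h4]
      _ = ∑ i, (b.repr ⟨x, hx⟩) i • ((b i : L) : Ω) := by
        rw [map_sum]
        exact Finset.sum_congr rfl fun i _ => map_smul _ _ _
  rw [h5, map_sum]
  refine Finset.sum_congr rfl fun i _ => ?_
  rw [map_smul, h2]

/-- A power of a wild element, with exponent prime to p, fixes L. -/
theorem wild_coprime [Algebra.IsAlgebraic F Ω] (V : ValuationSubring Ω) {u : Ω ≃ₐ[F] Ω} (hu : Wild V u) {p : ℕ}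
    (hp : p.Prime) (hV : V.valuation (p : Ω) = 1) (L : IntermediateField F Ω) [FiniteDimensional F L] :
    ∃ a : ℕ, ¬ p ∣ a ∧ u ^ a ∈ L.fixingSubgroup := by
  obtain ⟨n, hn, hfix⟩ := pow_fix u L
  obtain ⟨e, a, hpa, he⟩ := Nat.exists_eq_pow_mul_and_not_dvd hn.ne' p hp.ne_one
  refine ⟨a, hpa, ?_⟩
  rw [IntermediateField.mem_fixingSubgroup_iff] at hfix ⊢
  intro x hx
  refine wild_fix V (wild_pow V hu a) (p ^ e) ?_ x ?_
  · rw [Nat.cast_pow, map_pow, hV, one_pow]
  · rw [← pow_mul, mul_comm, ← he]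
    exact hfix x hx

end H55K.NB
end

-- from Lib.H55K.NA5
section

/-! # H55K, part N: cocycles are trivial on the inertia group at a bad prime -/

open NumberField IsDedekindDomain WeierstrassCurve

namespace H55K.NB

open H55P

variable {F : Type} [Field F] [NumberField F] {Ω : Type} [Field Ω] [DecidableEq Ω] [Algebra F Ω]
  [IsAlgClosed Ω] [Algebra.IsAlgebraic F Ω] [CharZero Ω]

/-- If no p-torsion point is fixed by the inertia group of N at V (V(p) = 1) and the action on the p-torsion is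
commutative, then every continuous cocycle of N killed by p is a coboundary on inertia. -/
theorem inert_cob (W : WeierstrassCurve F) [W.IsElliptic] (p : ℕ) (hp : p.Prime) (N : IntermediateField F Ω)
    (V : ValuationSubring Ω) (hV : V.valuation (p : Ω) = 1)
    (hcomm : ∀ s ∈ N.fixingSubgroup, ∀ t ∈ N.fixingSubgroup, ∀ T : Pt W Ω, p • T = 0 →
      ac W s (ac W t T) = ac W t (ac W s T))
    (h0 : ∀ T : Pt W Ω, p • T = 0 → (∀ s ∈ N.fixingSubgroup, Inert V s → ac W s T = T) → T = 0)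
    (c : (Ω ≃ₐ[F] Ω) → Pt W Ω) (hc : Coc W N c) (hpc : ∀ s ∈ N.fixingSubgroup, p • c s = 0) :
    ∃ P : Pt W Ω, ∀ s ∈ N.fixingSubgroup, Inert V s → c s = ac W s P - P := by
  have hI : ∀ s : Ω ≃ₐ[F] Ω, s ∈ N.fixingSubgroup ⊓ inS F V ↔ s ∈ N.fixingSubgroup ∧ Inert V s := fun s => Iff.rfl
  have hMul : ∀ (a b : Ω ≃ₐ[F] Ω) (x : Pt W Ω), ac W (a * b) x = ac W a (ac W b x) := by
    intro a b x
    rw [← acR_apply, map_mul]
    rfl
  have hone : ∀ x : Pt W Ω, ac W 1 x = x := fun x => by rw [← acR_apply, map_one]; rfl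
  have hk : ∀ s ∈ N.fixingSubgroup ⊓ inS F V, ∀ t ∈ N.fixingSubgroup ⊓ inS F V, c (s * t * s⁻¹ * t⁻¹) = 0 := by
    intro s hs t ht
    obtain ⟨L, hLf, hL⟩ := hc.cont
    set u : Ω ≃ₐ[F] Ω := s * t * s⁻¹ * t⁻¹ with hu
    have huN : u ∈ N.fixingSubgroup := by
      exact mul_mem (mul_mem (mul_mem hs.1 ht.1) (inv_mem hs.1)) (inv_mem ht.1)
    have hw : Wild V u := wild_comm V s t hs.2 ht.2
    obtain ⟨a, hpa, hfix⟩ := wild_coprime V hw hp hV L
    -- u acts trivially on the p-torsion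
    have htriv : ∀ T : Pt W Ω, p • T = 0 → ac W u T = T := by
      intro T hT
      have q : ∀ g : Ω ≃ₐ[F] Ω, p • ac W g T = 0 := fun g => by rw [← map_nsmul, hT, map_zero]
      rw [hu, hMul, hMul, hMul, hcomm s hs.1 t ht.1 _ (by rw [← map_nsmul, q, map_zero]), ← hMul s s⁻¹,
        mul_inv_cancel, hone, ← hMul, mul_inv_cancel, hone]
    have hpow : ∀ k : ℕ, c (u ^ k) = k • c u := by
      intro k
      induction k with
      | zero =>
        rw [pow_zero, zero_smul]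
        have h1 := hc.mul 1 (one_mem _) 1 (one_mem _)
        rw [mul_one, hone] at h1
        exact left_eq_add.1 h1
      | succ k ih =>
        rw [pow_succ', hc.mul u huN _ (pow_mem huN k), htriv _ (hpc _ (pow_mem huN k)), ih, succ_nsmul']
    have h1 : a • c u = 0 := by
      rw [← hpow]
      exact hL _ (pow_mem huN a) hfix
    have h2 : p • c u = 0 := hpc u huN
    have hcop : IsCoprime (a : ℤ) (p : ℤ) := by
      rw [Nat.isCoprime_iff_coprime, Nat.coprime_comm]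
      exact (Nat.Prime.coprime_iff_not_dvd hp).2 hpa
    obtain ⟨x, y, hxy⟩ := hcop
    have h3 : (1 : ℤ) • c u = 0 := by
      rw [← hxy, add_smul, mul_smul, mul_smul, natCast_zsmul, natCast_zsmul, h1, h2, smul_zero, smul_zero, add_zero]
    rwa [one_smul] at h3
  obtain ⟨P, -, hP⟩ := sah (acR W) p (tors_fin (Ω := Ω) W p hp.pos) (N.fixingSubgroup ⊓ inS F V)
    (fun s hs t ht T hT => hcomm s hs.1 t ht.1 T hT)
    (fun T hT h => h0 T hT fun s hs hi => h s ⟨hs, hi⟩) c
    (fun s hs t ht => hc.mul s hs.1 t ht.1) (fun s hs => hpc s hs.1) hk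
  exact ⟨P, fun s hs hi => hP s ⟨hs, hi⟩⟩

end H55K.NB
end

-- from Lib.H35T.L7
section

open NumberField IsDedekindDomain

namespace H35T

open H55B


/-! Chunk L7 (M): the sum of R over the division points. beta = 4 alpha is primary (4 = 1 + 3), not a unit, coprime to 3.
(a) modulus: for c coprime to beta: w = D3_w beta c is not in Lam, 1 + w, 1 - w not in Lam (D3_w_notmem, D3_w_add_notmem, D3_w_sub_notmem),
e sq3 * w = D3_w beta (sq3 c) is not in Lam (sq3 is coprime to beta: sq3^2 = -3). x = xw w: x is not 1, x^3 is not 1 (apply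
xw_R to om^j c as well, xw_om), 3 x^2 xw(e sq3 w) = 1 - x^3, so x and xw(e sq3 w) are nonzero.
(b) apply orbit_sum to T c = e(eta(3c)) f(3c) R(w_c) (periodic modulo beta: eta_per, hf.per, D3_w_per, R_per; zero if c is not coprime to 2:
eta_zero). T(om c) = e om * e(eta(3c)) f(3c) R(e om w_c) etc. (eta_om, hf.om), R(e om^j w) = R0/(1 - e om^j x) and with z = e om:
1/(1-x) + z/(1 - z x) + z^2/(1 - z^2 x) = 3 x^2/(1 - x^3) = 1/xw(e sq3 w). For 2 | c - 1: eta(3c) = eta c = chi4(Nm c) (eta_three,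
eta_odd). If c is not coprime to alpha both sides are 0 (hf.zero for 3c). -/

theorem Chr.one {α : O} {f : O → ℂ} (hf : Chr α f) : f 1 = 1 := by
  obtain ⟨k, hk⟩ := hf.root
  have h1 : f 1 = f 1 * f 1 := by
    conv_lhs => rw [← one_mul (1 : O), hf.mul]
  have h2 : f 1 ≠ 0 := by
    intro h0
    have h3 := hk 1 isCoprime_one_left
    rw [h0, zero_pow (by positivity)] at h3
    exact zero_ne_one h3
  exact (mul_left_cancel₀ h2 (by rw [mul_one]; exact h1)).symm




theorem GoodMod.ne_zero {α : O} (hα : GoodMod α) : α ≠ 0 := hα.1.ne_zero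











end H35T
end

-- from Lib.H55C.W2
section

open NumberField IsDedekindDomain

namespace H55C

open H55B

/-! Chunk W2: the period lattice of E27 and the value R0 = R(om - 1).
LL (file H55B/A0) has periods 3, 3 om and g_2 = 0 (g2_zero), g_3 = p^3 with p = wp 1 (A3_g3), p nonzero
(A3_wp_one_ne), wp'(1)^2 = 4 p^3 - g_3 = 3 p^3 (wp_ode with A1_one_notMem), and R0 p = wp'(1) (R_identity at om - 1
with wp (om - 1) = 0, see the proof of A3.exists_X). So R0^2 = 3 p and |R0|^2 = 3 |p|.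
Choose c with c^6 = -g_3 = -p^3 (IsAlgClosed.exists_pow_nat_eq) and apply W1_scale: g_2 = 0, g_3 = -1 and
Om = |c|^2 Om LL, Om LL = 2 * 9 * |Im om| = 9 sqrt 3 (A0_im: (Im om)^2 = 3/4), |c|^6 = |p|^3 so |c|^2 = |p|.
Hence R0 conj(R0) / Om = 3 |p| / (|p| * 18 |Im om|) = 1 / (6 |Im om|), whose square is 1/27.
For a valuation A with v(2) < 1: v(27) = 1 (val_odd in H55B/D0), so v(z)^2 = 1 and v(z) = 1. -/

theorem W2_R0_sq : R (e om - 1) ^ 2 = 3 * wp 1 := by
  have h1 := R_identity (e om - 1) A3_n1 A3_n2 A3_n3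
  rw [wp_zero_at] at h1
  have h2 := wp_ode 1 A1_one_notMem
  rw [A3_g3] at h2
  have h3 := A3_wp_one_ne
  have h4 : (R (e om - 1) * wp 1) ^ 2 = 3 * wp 1 ^ 3 := by
    have h5 : (R (e om - 1) * wp 1) ^ 2 = wpd 1 ^ 2 := by
      rw [← h1, sub_zero]
    rw [h5, h2]
    ring
  have h6 : wp 1 ^ 2 * (R (e om - 1) ^ 2 - 3 * wp 1) = 0 := by linear_combination h4
  rcases mul_eq_zero.1 h6 with h | h
  · exact absurd (pow_eq_zero_iff two_ne_zero |>.1 h) h3
  · linear_combination h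



end H55C
end

-- from Lib.H13Y.GN3
section

open NumberField IsDedekindDomain

namespace H13Y

open H99B

/-- Chunk GN3a (S). isIntegral_of_smul_mem_submodule for R = ℤ (B as a ℤ-submodule), and V is integrally closed: V.valuation θ ≤ 1. -/
theorem val_le_one_of_stable (V : ValuationSubring ℂ) (B : AddSubgroup ℂ) (hB : B.FG) (h0 : B ≠ ⊥)
    (θ : ℂ) (h : ∀ x ∈ B, θ * x ∈ B) : V.valuation θ ≤ 1 := by
  have h1 : IsIntegral ℤ θ := by
    refine isIntegral_of_smul_mem_submodule (AddSubgroup.toIntSubmodule B) ?_ ?_ θ ?_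
    · intro h2
      refine h0 ((AddSubgroup.eq_bot_iff_forall B).2 fun x hx => ?_)
      have h3 : x ∈ AddSubgroup.toIntSubmodule B := hx
      rw [h2] at h3
      exact (Submodule.mem_bot ℤ).1 h3
    · rw [Submodule.fg_iff_addSubgroup_fg]
      exact hB
    · intro n hn
      exact h n hn
  have h2 : IsIntegral V θ := h1.tower_top
  obtain ⟨y, hy⟩ := (IsIntegrallyClosed.isIntegral_iff (R := V) (K := ℂ)).1 h2
  rw [← hy]
  exact (V.valuation_le_one_iff _).2 y.2

/-- Chunk GN3b (M). The counting argument. Suppose that for every x in A with f x = 0 the element M x = pw ac (cf χ ρ 1) x is z^l with z in A.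
ψ i (M x) = ω(M) ψ i x, ω(M) = sum over g of cf χ ρ 1 g * ω g, chs χ (cf χ ρ 1) = -1 (IsRho.sum with a = 1, χ bijective), so ω(M) is a unit of V (hω), in particular not 0.
The k-span of f '' A is spanned by finitely many f (y 1), ..., f (y d) with y i in A, d ≤ finrank Λ < card ι (a basis chosen in the spanning set). The vectors (ψ i (y j))_i, j = 1..d, do not span ℂ^ι: there is c : ι → ℂ, c ≠ 0, with sum over i of c i * ψ i (y j) = 0 for all j (more unknowns than equations: exists_mulVec_eq_zero / Module.exists_nontrivial_relation / LinearMap.exists_ne_zero_of.. finrank_lt). ψ := sum over i of c i * ψ i : additive on A, ψ (ac g x) = ω g ψ x, not identically 0 on A (p3).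
For x in A: f x = sum of a j • f (y j), a j in k is 0 or χ (g j) (χ surjective), so x' = x / product of ac (g j) (y j) (over the j with a j ≠ 0) lies in A, f x' = 0 (f additive on A, f 1 = 0, f of inverses), ψ x' = ψ x. M x' = z^l: ω(M) ψ x = ψ(M x') = l ψ z.
So θ = ω(M)/l maps the group B' = ψ(A) into itself. B' is finitely generated: hfg gives h ψ(A) inside ψ(B), a finitely generated group; ψ(A) is isomorphic to h ψ(A) (ℂ has no torsion), a subgroup of a finitely generated commutative group. B' ≠ ⊥. val_le_one_of_stable: V(θ) ≤ 1, but V(θ) = 1/V(l) > 1. -/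
theorem gn_alg {l : ℕ} [Fact l.Prime] {k : Type} [Field k] [Fintype k] [DecidableEq k] [CharP k l]
    {G : Type} [Group G] [Fintype G] (χ : G →* kˣ) (hχ : Function.Bijective χ) (ρ : k →+ ZMod l)
    (hρ : IsRho l ρ) {M : Type} [CommGroup M] (ac : G →* Monoid.End M) (A : Subgroup M)
    (hA : ∀ g, ∀ x ∈ A, ac g x ∈ A) {Λ : Type} [AddCommGroup Λ] [Module k Λ] [Module.Finite k Λ]
    (f : M → Λ) (f1 : ∀ x ∈ A, ∀ y ∈ A, f (x * y) = f x + f y)
    (f2 : ∀ g, ∀ x ∈ A, f (ac g x) = (χ g : k) • f x) {ι : Type} [Fintype ι]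
    (hΛ : Module.finrank k Λ < Fintype.card ι) (V : ValuationSubring ℂ) (hV : V.valuation (l : ℂ) < 1)
    (ω : G →* ℂˣ)
    (hω : ∀ α : G → ℤ, chs χ α ≠ 0 → V.valuation (∑ g, (α g : ℂ) * (ω g : ℂ)) = 1)
    (ψ : ι → M → ℂ) (p1 : ∀ i, ∀ x ∈ A, ∀ y ∈ A, ψ i (x * y) = ψ i x + ψ i y)
    (p2 : ∀ i g, ∀ x ∈ A, ψ i (ac g x) = (ω g : ℂ) * ψ i x)
    (p3 : ∀ c : ι → ℂ, (∀ x ∈ A, ∑ i, c i * ψ i x = 0) → c = 0)
    (hfg : ∃ (h : ℕ) (B : Subgroup M), h ≠ 0 ∧ B.FG ∧ B ≤ A ∧ ∀ x ∈ A, x ^ h ∈ B) :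
    ∃ x ∈ A, f x = 0 ∧ ∀ y ∈ A, pw ac (cf χ ρ 1) x ≠ y ^ l := by
  classical
  by_contra hcon
  push Not at hcon
  -- the unit ω(M)
  have hch : chs χ (cf χ ρ 1) = -1 := by
    have h1 := hρ.sum 1
    rw [← h1]
    unfold chs cf
    rw [← (Equiv.ofBijective χ hχ).sum_comp]
    refine Finset.sum_congr rfl fun g _ => ?_
    rw [Equiv.ofBijective_apply]
    push_cast
    rfl
  set wM : ℂ := ∑ g, (cf χ ρ 1 g : ℂ) * (ω g : ℂ) with hwM
  have hwM1 : V.valuation wM = 1 := hω _ (by rw [hch]; exact neg_ne_zero.2 one_ne_zero)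
  -- f as a homomorphism
  let fA : A →* Multiplicative Λ :=
    MonoidHom.mk' (fun x => Multiplicative.ofAdd (f x)) fun x y => by
      show Multiplicative.ofAdd (f (x * y)) = _
      rw [f1 _ x.2 _ y.2]; rfl
  have hfA : ∀ x : A, f x = Multiplicative.toAdd (fA x) := fun _ => rfl
  -- spanning elements
  obtain ⟨d, v, y, hd, hv2, hy1, hy2⟩ : ∃ (d : ℕ) (v : Fin d → Λ) (y : Fin d → M),
      d < Module.finrank ℂ (ι → ℂ) ∧ Submodule.span k (Set.range v) = Submodule.span k (f '' A) ∧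
      (∀ j, y j ∈ A) ∧ ∀ j, f (y j) = v j := by
    obtain ⟨v, hv1, hv2, -⟩ := Submodule.exists_fun_fin_finrank_span_eq k (f '' A)
    choose y hy1 hy2 using hv1
    refine ⟨_, v, y, ?_, hv2, hy1, hy2⟩
    rw [Module.finrank_fintype_fun_eq_card]
    exact lt_of_le_of_lt (Submodule.finrank_le _) hΛ
  let T : (ι → ℂ) →ₗ[ℂ] (Fin d → ℂ) :=
    { toFun := fun c j => ∑ i, c i * ψ i (y j)
      map_add' := by
        intro c c'
        funext j
        simp only [Pi.add_apply, add_mul, Finset.sum_add_distrib]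
      map_smul' := by
        intro r c
        funext j
        simp only [Pi.smul_apply, smul_eq_mul, RingHom.id_apply, Finset.mul_sum, mul_assoc] }
  have hT : LinearMap.ker T ≠ ⊥ := by
    refine LinearMap.ker_ne_bot_of_finrank_lt ?_
    rw [Module.finrank_fin_fun]
    exact hd
  obtain ⟨c, hcT, hc0⟩ := Submodule.exists_mem_ne_zero_of_ne_bot hT
  have hcy : ∀ j, ∑ i, c i * ψ i (y j) = 0 := fun j => congrFun (LinearMap.mem_ker.1 hcT) j
  -- the function Ψ
  let Ψ : M → ℂ := fun x => ∑ i, c i * ψ i x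
  have hΨ1 : ∀ x ∈ A, ∀ y ∈ A, Ψ (x * y) = Ψ x + Ψ y := by
    intro x hx y hy
    show ∑ i, c i * ψ i (x * y) = ∑ i, c i * ψ i x + ∑ i, c i * ψ i y
    rw [← Finset.sum_add_distrib]
    refine Finset.sum_congr rfl fun i _ => ?_
    rw [p1 i x hx y hy, mul_add]
  have hΨ2 : ∀ g, ∀ x ∈ A, Ψ (ac g x) = (ω g : ℂ) * Ψ x := by
    intro g x hx
    show ∑ i, c i * ψ i (ac g x) = (ω g : ℂ) * ∑ i, c i * ψ i x
    rw [Finset.mul_sum]
    refine Finset.sum_congr rfl fun i _ => ?_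
    rw [p2 i g x hx]
    ring
  let ΨA : A →* Multiplicative ℂ :=
    MonoidHom.mk' (fun x => Multiplicative.ofAdd (Ψ x)) fun x y => by
      show Multiplicative.ofAdd (Ψ (x * y)) = _
      rw [hΨ1 _ x.2 _ y.2]; rfl
  have hΨA : ∀ x : A, Ψ x = Multiplicative.toAdd (ΨA x) := fun _ => rfl
  have hΨpow : ∀ x ∈ A, ∀ n : ℕ, Ψ (x ^ n) = n * Ψ x := by
    intro x hx n
    have h1 := hΨA ((⟨x, hx⟩ : A) ^ n)
    rw [map_pow, toAdd_pow, ← hΨA] at h1
    rw [← nsmul_eq_mul]
    exact h1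
  have hΨinv : ∀ x ∈ A, Ψ x⁻¹ = -Ψ x := by
    intro x hx
    have h1 := hΨA ((⟨x, hx⟩ : A)⁻¹)
    rw [map_inv, toAdd_inv, ← hΨA] at h1
    exact h1
  have hpwA : ∀ x ∈ A, pw ac (cf χ ρ 1) x ∈ A := fun x hx =>
    Subgroup.prod_mem _ fun g _ => Subgroup.zpow_mem _ (hA g x hx) _
  have hΨpw : ∀ x ∈ A, Ψ (pw ac (cf χ ρ 1) x) = wM * Ψ x := by
    intro x hx
    have h1 : (⟨pw ac (cf χ ρ 1) x, hpwA x hx⟩ : A) =
        ∏ g, (⟨ac g x, hA g x hx⟩ : A) ^ (cf χ ρ 1 g) := by
      apply Subtype.ext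
      rw [Subgroup.val_finsetProd]
      rfl
    have h2 : Ψ (pw ac (cf χ ρ 1) x) = Multiplicative.toAdd (ΨA (∏ g, (⟨ac g x, hA g x hx⟩ : A) ^ (cf χ ρ 1 g))) := by
      rw [← h1]; rfl
    rw [map_prod, toAdd_prod] at h2
    refine h2.trans ?_
    rw [hwM, Finset.sum_mul]
    refine Finset.sum_congr rfl fun g _ => ?_
    rw [map_zpow, toAdd_zpow, ← hΨA, zsmul_eq_mul, hΨ2 g x hx, mul_assoc]
  -- the key claim
  have key : ∀ x ∈ A, ∃ x' ∈ A, f x' = 0 ∧ Ψ x' = Ψ x := by
    intro x hx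
    have h1 : f x ∈ Submodule.span k (Set.range v) := by
      rw [hv2]
      exact Submodule.subset_span ⟨x, hx, rfl⟩
    obtain ⟨a, ha⟩ := (Submodule.mem_span_range_iff_exists_fun k).1 h1
    have h2 : ∀ j, ∃ u ∈ A, f u = a j • v j ∧ Ψ u = 0 := by
      intro j
      by_cases h0 : a j = 0
      · refine ⟨1, A.one_mem, ?_, ?_⟩
        · rw [h0, zero_smul]
          have := hfA 1
          rw [map_one] at this
          exact this
        · have := hΨA 1
          rw [map_one] at this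
          exact this
      · obtain ⟨g, hg⟩ := hχ.2 (Units.mk0 (a j) h0)
        refine ⟨ac g (y j), hA g _ (hy1 j), ?_, ?_⟩
        · rw [f2 g _ (hy1 j), hg, Units.val_mk0, hy2]
        · rw [hΨ2 g _ (hy1 j)]
          show _ * ∑ i, c i * ψ i (y j) = 0
          rw [hcy, mul_zero]
    choose u hu1 hu2 hu3 using h2
    have h3 : Ψ (∏ j, u j) = 0 ∧ f (∏ j, u j) = f x := by
      have h4 : (⟨∏ j, u j, Subgroup.prod_mem _ fun j _ => hu1 j⟩ : A) = ∏ j, (⟨u j, hu1 j⟩ : A) := by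
        apply Subtype.ext
        rw [Subgroup.val_finsetProd]
      constructor
      · have h5 : Ψ (∏ j, u j) = Multiplicative.toAdd (ΨA (∏ j, (⟨u j, hu1 j⟩ : A))) := by
          rw [← h4]; rfl
        rw [map_prod, toAdd_prod] at h5
        refine h5.trans (Finset.sum_eq_zero fun j _ => ?_)
        rw [← hΨA]
        exact hu3 j
      · have h5 : f (∏ j, u j) = Multiplicative.toAdd (fA (∏ j, (⟨u j, hu1 j⟩ : A))) := by
          rw [← h4]; rfl
        rw [map_prod, toAdd_prod] at h5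
        refine h5.trans ?_
        rw [← ha]
        refine Finset.sum_congr rfl fun j _ => ?_
        rw [← hfA]
        exact hu2 j
    have hPA : ∏ j, u j ∈ A := Subgroup.prod_mem _ fun j _ => hu1 j
    refine ⟨x * (∏ j, u j)⁻¹, A.mul_mem hx (A.inv_mem hPA), ?_, ?_⟩
    · rw [f1 _ hx _ (A.inv_mem hPA)]
      have h6 := hfA ((⟨∏ j, u j, hPA⟩ : A)⁻¹)
      rw [map_inv, toAdd_inv, ← hfA] at h6
      have h7 : f (∏ j, u j)⁻¹ = -f (∏ j, u j) := h6
      rw [h7, h3.2, add_neg_cancel]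
    · rw [hΨ1 _ hx _ (A.inv_mem hPA), hΨinv _ hPA, h3.1, neg_zero, add_zero]
  -- stability
  have hl0 : (l : ℂ) ≠ 0 := Nat.cast_ne_zero.2 (Fact.out : l.Prime).ne_zero
  have hst : ∀ x ∈ A, ∃ z ∈ A, wM / l * Ψ x = Ψ z := by
    intro x hx
    obtain ⟨x', hx', hf0, hΨx⟩ := key x hx
    obtain ⟨z, hz, hzp⟩ := hcon x' hx' hf0
    refine ⟨z, hz, ?_⟩
    have h1 := hΨpw x' hx'
    rw [hzp, hΨpow z hz l, hΨx] at h1
    field_simp
    linear_combination -h1
  -- the group
  let N : Submodule ℤ ℂ :=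
    { carrier := {z | ∃ x ∈ A, Ψ x = z}
      add_mem' := by
        rintro _ _ ⟨x, hx, rfl⟩ ⟨x', hx', rfl⟩
        exact ⟨x * x', A.mul_mem hx hx', hΨ1 x hx x' hx'⟩
      zero_mem' := by
        refine ⟨1, A.one_mem, ?_⟩
        have := hΨA 1
        rw [map_one] at this
        exact this
      smul_mem' := by
        rintro n _ ⟨x, hx, rfl⟩
        refine ⟨x ^ n, A.zpow_mem hx n, ?_⟩
        have h1 := hΨA ((⟨x, hx⟩ : A) ^ n)
        rw [map_zpow, toAdd_zpow, ← hΨA] at h1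
        exact h1 }
  have hN0 : N ≠ ⊥ := by
    intro h
    apply hc0
    apply p3
    intro x hx
    have h1 : Ψ x ∈ N := ⟨x, hx, rfl⟩
    rw [h, Submodule.mem_bot] at h1
    exact h1
  have hNfg : N.FG := by
    obtain ⟨h, B, hh0, ⟨S, hS⟩, hBA, hpow⟩ := hfg
    let NB : Submodule ℤ ℂ := Submodule.span ℤ (Ψ '' (S : Set M))
    have hNB : NB.FG := Submodule.fg_span (S.finite_toSet.image _)
    have hBN : ∀ x ∈ B, x ∈ A ∧ Ψ x ∈ NB := by
      intro x hx
      rw [← hS] at hx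
      induction hx using Subgroup.closure_induction with
      | mem x hx =>
        refine ⟨hBA ?_, Submodule.subset_span ⟨x, hx, rfl⟩⟩
        rw [← hS]
        exact Subgroup.subset_closure hx
      | one =>
        refine ⟨A.one_mem, ?_⟩
        have := hΨA 1
        rw [map_one] at this
        have h2 : Ψ 1 = 0 := this
        rw [h2]
        exact NB.zero_mem
      | mul x y _ _ hx hy => exact ⟨A.mul_mem hx.1 hy.1, by rw [hΨ1 x hx.1 y hy.1]; exact NB.add_mem hx.2 hy.2⟩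
      | inv x _ hx => exact ⟨A.inv_mem hx.1, by rw [hΨinv x hx.1]; exact NB.neg_mem hx.2⟩
    let m1 : ℂ →ₗ[ℤ] ℂ := (LinearMap.mulLeft ℤ (h : ℂ))
    let m2 : ℂ →ₗ[ℤ] ℂ := (LinearMap.mulLeft ℤ ((h : ℂ)⁻¹))
    have h1 : N.map m1 ≤ NB := by
      rintro _ ⟨_, ⟨x, hx, rfl⟩, rfl⟩
      show (h : ℂ) * Ψ x ∈ NB
      rw [← hΨpow x hx h]
      exact (hBN _ (hpow x hx)).2
    have hNoeth : IsNoetherian ℤ NB := isNoetherian_of_fg_of_noetherian NB hNB
    have h2 : (N.map m1).FG := isNoetherian_submodule.1 hNoeth _ h1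
    have h3 : N = (N.map m1).map m2 := by
      rw [← Submodule.map_comp]
      have h4 : m2.comp m1 = LinearMap.id := by
        refine LinearMap.ext fun z => ?_
        show (h : ℂ)⁻¹ * ((h : ℂ) * z) = z
        rw [← mul_assoc, inv_mul_cancel₀ (Nat.cast_ne_zero.2 hh0), one_mul]
      rw [h4, Submodule.map_id]
    rw [h3]
    exact h2.map _
  have hfin := val_le_one_of_stable V N.toAddSubgroup ((Submodule.fg_iff_addSubgroup_fg N).1 hNfg)
    (fun h => hN0 ((Submodule.eq_bot_iff N).2 fun x hx => by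
      have h3 : x ∈ N.toAddSubgroup := hx
      rw [h] at h3
      exact AddSubgroup.mem_bot.1 h3)) (wM / l) (by
      rintro _ ⟨x, hx, rfl⟩
      obtain ⟨z, hz, hzz⟩ := hst x hx
      exact ⟨z, hz, hzz.symm⟩)
  have h1 : V.valuation (wM / l * l) < 1 := by
    rw [map_mul]
    exact lt_of_le_of_lt (mul_le_of_le_one_left' hfin) hV
  rw [div_mul_cancel₀ _ hl0, hwM1] at h1
  exact lt_irrefl _ h1

end H13Y
end

-- from Lib.H13Y.GN4
section

open NumberField IsDedekindDomain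

namespace H13Y

open H99B

/-- Chunk GN4 (M). The complex Teichmueller character. V: a valuation subring of ℂ in which l is not a unit (LocalSubring.exists_le_valuationSubring for the local ring ℤ localized at l, or ValuationSubring from an extension of the l-adic valuation; or: a maximal element of the set of pairs (subring, prime over l); look in Mathlib for `exists_le_valuationSubring` or `bijective_rangeRestrict_comp_of_valuationRing`, and in Lib/H55N, Lib/H55P, Lib/H13S for an existing construction of a ValuationSubring with V l < 1).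
The residue field kV of V is algebraically closed (a monic polynomial over kV lifts to a monic polynomial over V, its roots in ℂ lie in V: V is integrally closed) and has characteristic l. So there is a ring homomorphism i : k →+* kV (IsAlgClosed.lift, k algebraic over ZMod l). q = card k. The (q - 1)-th roots of unity of ℂ lie in V, and two different ones are different in kV
(X^(q-1) - 1 is separable over kV because q - 1 = -1 in kV; or: the product of 1 - ζ over ζ ≠ 1 is q - 1, a unit of V). They are q - 1 in number, so the reduction is a bijection onto the (q - 1)-th roots of unity of kV, and i (c), c in kˣ, is such a root: ω g = the lift of i (χ g), multiplicative by uniqueness, injective as χ and i are.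
The sum over g of α g ω g lies in V and reduces to i (chs χ α) ≠ 0, so it is a unit of V. -/
theorem exists_teich (l : ℕ) [Fact l.Prime] {k : Type} [Field k] [Fintype k] [CharP k l] {G : Type}
    [Group G] [Fintype G] (χ : G →* kˣ) (hχ : Function.Injective χ) :
    ∃ (V : ValuationSubring ℂ) (ω : G →* ℂˣ), V.valuation (l : ℂ) < 1 ∧ Function.Injective ω ∧
      ∀ α : G → ℤ, chs χ α ≠ 0 → V.valuation (∑ g, (α g : ℂ) * (ω g : ℂ)) = 1 := by
  classical
  have hcyc : IsCyclic G := isCyclic_of_injective χ hχ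
  obtain ⟨g0, hg0⟩ := IsCyclic.exists_generator (α := G)
  set m := orderOf g0 with hm
  have hmpos : 0 < m := orderOf_pos g0
  have hζ := Complex.isPrimitiveRoot_exp m hmpos.ne'
  set ζ : ℂ := Complex.exp (2 * Real.pi * Complex.I / m) with hζd
  let ζu : ℂˣ := (hζ.isUnit hmpos.ne').unit
  have hζc : (ζu : ℂ) = ζ := rfl
  have hζu : IsPrimitiveRoot ζu m := by
    rw [← IsPrimitiveRoot.coe_units_iff]; exact hζ
  have hord : orderOf ζu = m := hζu.eq_orderOf.symm
  have hdv : orderOf ζu ∣ orderOf g0 := by rw [hord]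
  let ω : G →* ℂˣ := monoidHomOfForallMemZpowers hg0 hdv
  have hω0 : ω g0 = ζu := monoidHomOfForallMemZpowers_apply_gen hg0 _
  let φ : Polynomial ℤ →+* ℂ := Polynomial.eval₂RingHom (Int.castRingHom ℂ) ζ
  let ψ : Polynomial ℤ →+* k := Polynomial.eval₂RingHom (Int.castRingHom k) (χ g0 : k)
  have hχ0 : IsPrimitiveRoot (χ g0 : k) m := by
    rw [IsPrimitiveRoot.coe_units_iff]
    have : orderOf (χ g0) = m := orderOf_injective χ hχ g0
    exact this ▸ IsPrimitiveRoot.orderOf (χ g0)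
  have hker : ∀ p : Polynomial ℤ, φ p = 0 → ψ p = 0 := by
    intro p hp
    have h1 : minpoly ℤ ζ ∣ p :=
      minpoly.isIntegrallyClosed_dvd (hζ.isIntegral hmpos) (by rw [Polynomial.aeval_def]; exact hp)
    rw [← Polynomial.cyclotomic_eq_minpoly hζ hmpos] at h1
    obtain ⟨r, rfl⟩ := h1
    rw [map_mul]
    have h2 : ψ (Polynomial.cyclotomic m ℤ) = 0 := by
      show Polynomial.eval₂ _ _ _ = 0
      rw [← Polynomial.eval_map, Polynomial.map_cyclotomic]
      exact hχ0.isRoot_cyclotomic hmpos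
    rw [h2, zero_mul]
  let I : Ideal φ.range := Ideal.map φ.rangeRestrict (RingHom.ker ψ)
  have hI : I ≠ ⊤ := by
    intro h
    have h1 : (1 : φ.range) ∈ I := by rw [h]; trivial
    obtain ⟨p, hp, hp1⟩ := (Ideal.mem_map_iff_of_surjective _ φ.rangeRestrict_surjective).1 h1
    have h2 : φ p = 1 := congrArg Subtype.val hp1
    have h3 : ψ (p - 1) = 0 := hker _ (by rw [map_sub, map_one, h2, sub_self])
    rw [map_sub, map_one, (RingHom.mem_ker).1 hp, zero_sub, neg_eq_zero] at h3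
    exact one_ne_zero h3
  obtain ⟨V, hV1, hV2⟩ := Ideal.image_subset_nonunits_valuationSubring I hI
  have hle : ∀ p, V.valuation (φ p) ≤ 1 := fun p => (V.valuation_le_one_iff _).2 (hV1 ⟨p, rfl⟩)
  have hlt : ∀ p, ψ p = 0 → V.valuation (φ p) < 1 := by
    intro p hp
    rw [← ValuationSubring.mem_nonunits_iff]
    exact hV2 ⟨φ.rangeRestrict p, Ideal.mem_map_of_mem _ ((RingHom.mem_ker).2 hp), rfl⟩
  have hone : ∀ p, ψ p ≠ 0 → V.valuation (φ p) = 1 := by
    intro p hp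
    have h1 : ψ (p ^ (Fintype.card k - 1) - 1) = 0 := by
      rw [map_sub, map_pow, map_one, FiniteField.pow_card_sub_one_eq_one _ hp, sub_self]
    have h2 := hlt _ h1
    refine le_antisymm (hle p) (not_lt.1 fun h3 => ?_)
    have hc : Fintype.card k - 1 ≠ 0 := by
      have := Fintype.one_lt_card (α := k)
      omega
    have h4 : V.valuation (φ (p ^ (Fintype.card k - 1))) < 1 := by
      rw [map_pow, map_pow]
      exact pow_lt_one₀ zero_le h3 hc
    have h5 : V.valuation (φ (p ^ (Fintype.card k - 1)) - φ (p ^ (Fintype.card k - 1) - 1)) < 1 :=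
      lt_of_le_of_lt (Valuation.map_sub _ _ _) (max_lt h4 h2)
    rw [← map_sub, sub_sub_cancel, map_one, map_one] at h5
    exact lt_irrefl _ h5
  refine ⟨V, ω, ?_, ?_, ?_⟩
  · have h1 : ψ (l : Polynomial ℤ) = 0 := by
      rw [map_natCast, CharP.cast_eq_zero]
    have h2 := hlt _ h1
    rwa [map_natCast] at h2
  · rw [injective_iff_map_eq_one]
    intro x hx
    obtain ⟨j, rfl⟩ := hg0 x
    have h1 : ζu ^ j = 1 := by rw [← hω0, ← map_zpow]; exact hx
    rw [← orderOf_dvd_iff_zpow_eq_one, hord] at h1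
    exact orderOf_dvd_iff_zpow_eq_one.1 h1
  · intro α hα
    have hj : ∀ g : G, ∃ j : ℕ, g0 ^ j = g := fun g => by
      have := hg0 g
      rw [← mem_powers_iff_mem_zpowers] at this
      exact this
    choose j hj using hj
    have h1 : ψ (∑ g, Polynomial.C (α g) * Polynomial.X ^ j g) = chs χ α := by
      rw [map_sum]
      refine Finset.sum_congr rfl fun g _ => ?_
      rw [map_mul, map_pow]
      show Polynomial.eval₂ _ _ _ * Polynomial.eval₂ _ _ _ ^ _ = _
      rw [Polynomial.eval₂_C, Polynomial.eval₂_X, ← Units.val_pow_eq_pow_val, ← map_pow, hj]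
      rfl
    have h2 : φ (∑ g, Polynomial.C (α g) * Polynomial.X ^ j g) = ∑ g, (α g : ℂ) * (ω g : ℂ) := by
      rw [map_sum]
      refine Finset.sum_congr rfl fun g _ => ?_
      rw [map_mul, map_pow]
      show Polynomial.eval₂ _ _ _ * Polynomial.eval₂ _ _ _ ^ _ = _
      rw [Polynomial.eval₂_C, Polynomial.eval₂_X, ← hζc, ← hω0, ← Units.val_pow_eq_pow_val, ← map_pow, hj]
      rfl
    rw [← h2]
    exact hone _ (by rw [h1]; exact hα)

end H13Y
end

-- from Lib.H28R.W11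
section

open NumberField IsDedekindDomain

namespace H28R

open H55P H55R

/-! Chunk W11 (M): the field K' fixed by D. K' = IntermediateField.fixedField D (an IntermediateField F₀ N), a number field (NumberField.of_module_finite or the instance for intermediate fields), Algebra K K' by codRestrict of algebraMap K N (hDK), towers. IsGalois F₀ K' and the isomorphism of its group with the quotient: D is normal
(IsGalois.normalAutEquivQuotient, or IsGalois.of_fixedField_normal_subgroup). Ramification: for a prime W' of K' let W be a prime of N above W' (under_exists). e = ramificationIdx over 𝓞 F₀: multiplicative in towers (Ideal.ramificationIdx_tower), so e(W') divides e(W); e(W') divides [K':F₀] (K'/F₀ Galois: H55R.HC6_dvd for es, es = ramificationIdx by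
Ideal.ramificationIdxIn_eq_ramificationIdx). ram_one: if [K':F₀] = p^n and e(W) divides m, m prime to p, then e(W') = 1. -/

theorem exists_fix (F₀ K N : Type) [Field F₀] [NumberField F₀] [Field K] [NumberField K] [Field N]
    [NumberField N] [Algebra F₀ K] [Algebra K N] [Algebra F₀ N] [IsScalarTower F₀ K N]
    [IsGalois F₀ N] (D : Subgroup (N ≃ₐ[F₀] N)) (hD : D.Normal)
    (hDK : ∀ d ∈ D, ∀ x : K, d (algebraMap K N x) = algebraMap K N x) :
    ∃ (K' : Type) (_ : Field K') (_ : NumberField K') (_ : Algebra F₀ K') (_ : Algebra K K')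
      (_ : IsScalarTower F₀ K K') (_ : Algebra K' N) (_ : IsScalarTower F₀ K' N)
      (_ : IsScalarTower K K' N), IsGalois F₀ K' ∧
      Nonempty ((K' ≃ₐ[F₀] K') ≃* ((N ≃ₐ[F₀] N) ⧸ D)) := by
  have hfd : FiniteDimensional F₀ N := FiniteDimensional.right ℚ F₀ N
  let E : IntermediateField F₀ N := IntermediateField.fixedField D
  have hmem : ∀ x : K, algebraMap K N x ∈ E := by
    intro x
    rw [IntermediateField.mem_fixedField_iff]
    intro d hd
    exact hDK d hd x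
  let f : K →+* E := (algebraMap K N).codRestrict E.toSubring hmem
  let algE : Algebra K E := f.toAlgebra
  have t1 : IsScalarTower K E N := IsScalarTower.of_algebraMap_eq (fun x => rfl)
  have t2 : IsScalarTower F₀ K E := IsScalarTower.of_algebraMap_eq (fun x => by
    apply Subtype.ext
    show algebraMap F₀ N x = algebraMap K N (algebraMap F₀ K x)
    exact IsScalarTower.algebraMap_apply F₀ K N x)
  have hnf : NumberField E := NumberField.of_module_finite F₀ E
  have hg : IsGalois F₀ E := IsGalois.of_fixedField_normal_subgroup D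
  exact ⟨E, inferInstance, hnf, inferInstance, algE, t2, inferInstance, inferInstance, t1, hg,
    ⟨(IsGalois.normalAutEquivQuotient D).symm⟩⟩

theorem ram_one {F₀ K' N : Type} [Field F₀] [NumberField F₀] [Field K'] [NumberField K'] [Field N]
    [NumberField N] [Algebra F₀ K'] [Algebra K' N] [Algebra F₀ N] [IsScalarTower F₀ K' N]
    [IsGalois F₀ K'] {p : ℕ} (hp : p.Prime) (hk : ∃ n : ℕ, Module.finrank F₀ K' = p ^ n) {m : ℕ}
    (hm : m.Coprime p) (W' : Pl K') (W : Pl N) (hW : W.under (𝓞 K') = W')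
    (he : W.asIdeal.ramificationIdx (𝓞 F₀) ∣ m) : W'.asIdeal.ramificationIdx (𝓞 F₀) = 1 := by
  obtain ⟨n, hn⟩ := hk
  have hl : W.asIdeal.LiesOver W'.asIdeal := (BF2_mem W' W hW).2
  have h1 := Ideal.ramificationIdx_tower (R := 𝓞 F₀) W'.asIdeal W.asIdeal
  have h2 : W'.asIdeal.ramificationIdx (𝓞 F₀) ∣ m := (Dvd.intro _ h1.symm).trans he
  have hv : W'.under (𝓞 F₀) = W'.under (𝓞 F₀) := rfl
  have hl' : W'.asIdeal.LiesOver (W'.under (𝓞 F₀)).asIdeal := (BF2_mem _ W' hv).2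
  have hWp := W'.isPrime
  have h3 := Ideal.ramificationIdxIn_eq_ramificationIdx (W'.under (𝓞 F₀)).asIdeal W'.asIdeal Gal(K'/F₀)
  have h4 : es F₀ K' (W'.under (𝓞 F₀)) = W'.asIdeal.ramificationIdx (𝓞 F₀) := h3
  have h5 := (HC6_dvd (L := K') (W'.under (𝓞 F₀))).1
  rw [h4, hn] at h5
  have h6 : Nat.Coprime m (p ^ n) := Nat.Coprime.pow_right n hm
  exact Nat.eq_one_of_dvd_coprimes h6 h2 h5

end H28R
end

-- from Lib.H99B.B3
section

/-!
Chunk B3 (M). The Minkowski unit. L/F Galois, F = Q(om) has exactly one infinite place, which is complex.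
PROOF. Fix an infinite place V0 of L. H55R.unit_place gives a unit y with V y < 1 for all V ≠ V0; z = its image in Lˣ (ord v z = 0: HA7_ord_unit).
The Galois group Gal(L/F) acts on the infinite places (σ • V), transitively on those above a place of F (NumberField.InfinitePlace.exists_smul_eq_of_comap_eq or the
like; F has only one place: card (InfinitePlace F) = nrRealPlaces + nrComplexPlaces = 0 + 1, IsCyclotomicExtension.Rat.nrComplexPlaces_eq_totient_div_two for n = 3, or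
Fintype.card_eq from finrank 2 and no real place), and simply: |Gal(L/F)| = [L:F] and L has exactly [L:F] infinite places (all complex: complexF, finrank_eq: 2 r2 = [L:Q] = 2 [L:F]).
So σ ↦ σ • V0 is a bijection. For T = ∅ define η (inr (σ • V0)) = gu σ z. Then Eta ∅ η: ord v (gu σ z) = 0 (ord_smul), and V' (gu σ z) = (σ⁻¹ • V') z < 1 for
V' ≠ σ • V0 (InfinitePlace.smul_apply: (σ • V) x = V (σ⁻¹ x)). H55R.theta_index for T = ∅: the range of Th has finite nonzero relative index n in (TUa ∅) × Z;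
for a unit u: n • (u, 0) is in the range (the relative index kills the quotient: AddSubgroup.relIndex, pow_mem / nsmul_mem of index; for an additive commutative group:
AddSubgroup.nsmul_index_mem): n u = sum_V a_V η_V, i.e. u^n = prod_σ (gu σ z)^(a (σ • V0)). So even u ^ n = pw gu α z. n = that relative index.
-/

open NumberField IsDedekindDomain

namespace H99B

open H55B H55R

theorem b3_rankF : Module.finrank ℚ F = 2 := by
  have h := IsCyclotomicExtension.finrank (n := 3) F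
    (Polynomial.cyclotomic.irreducible_rat (by norm_num))
  rw [h]
  decide


theorem b3_cpx (K : Type) [Field K] [NumberField K] [Algebra F K] (v : InfinitePlace K) :
    v.IsComplex := by
  classical
  rw [← InfinitePlace.not_isReal_iff_isComplex]
  intro h
  have h1 : (v.comap (algebraMap F K)).IsReal := h.comap (algebraMap F K)
  have h2 : InfinitePlace.nrRealPlaces F = 0 :=
    IsCyclotomicExtension.Rat.nrRealPlaces_eq_zero (n := 3) F (by norm_num)
  have h3 : 0 < InfinitePlace.nrRealPlaces F := Fintype.card_pos_iff.2 ⟨⟨_, h1⟩⟩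
  omega

theorem b3_card (L : Type) [Field L] [NumberField L] [Algebra F L] :
    Fintype.card (InfinitePlace L) = Module.finrank F L := by
  classical
  have h0 : InfinitePlace.nrRealPlaces L = 0 := by
    rw [InfinitePlace.nrRealPlaces, Fintype.card_eq_zero_iff]
    exact ⟨fun v => (InfinitePlace.not_isReal_iff_isComplex.2 (b3_cpx L v.1)) v.2⟩
  have h2 := InfinitePlace.card_add_two_mul_card_eq_rank L
  have h4 := InfinitePlace.card_eq_nrRealPlaces_add_nrComplexPlaces L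
  have h5 := Module.finrank_mul_finrank ℚ F L
  rw [b3_rankF] at h5
  omega


end H99B
end

-- from Lib.H13Y.GN6c
section

open NumberField IsDedekindDomain

namespace H13Y

open H55B H55R H28G H99B

/-- Chunk GN6c (S). F ⊆ N is not real, so N is totally complex: the number of infinite places is [N : F] (InfinitePlace.card_add_two_mul_card_eq_rank, nrRealPlaces = 0; Module.finrank_mul_finrank ℚ F N, finrank ℚ F = 2). -/
theorem places_card (N : Type) [Field N] [NumberField N] [Algebra F N] :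
    (∀ v : InfinitePlace N, v.IsComplex) ∧ Fintype.card (InfinitePlace N) = Module.finrank F N := ⟨b3_cpx N, b3_card N⟩

end H13Y
end

-- from Lib.H99B.A1
section

/-!
Chunk A1 (M, pure Mathlib). The trace form.
PROOF. k is a finite field of characteristic l, so it is an algebra over ZMod l (ZMod.algebra k l; use letI), q = card k = l^f,
f = finrank (ZMod l) k. ρ = Algebra.trace (ZMod l) k as an additive map. FiniteField.algebraMap_trace_eq_sum_pow (or the statement with this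
content): algebraMap (Tr x) = sum over i < f of x^(l^i). The cast of (ρ b).val to k is algebraMap (ZMod l) k (ρ b) (ZMod.natCast_val / ZMod.cast_id /
map_natCast). Hence the sum is sum_{i<f} sum_c (a c^-1)^(l^i) c = sum_{i<f} a^(l^i) sum_c c^(1 - l^i). The term i = 0 is a (q - 1) = -a.
For 0 < i < f: sum_c c^(1-l^i) = sum_c (c^-1)^(l^i - 1) = 0 by FiniteField.sum_pow_units, because q - 1 does not divide l^i - 1
(0 < l^i - 1 < q - 1; l >= 2).
-/

namespace H99B

theorem a1_inner {k : Type} [Field k] [Fintype k] [DecidableEq k] (m : ℕ) (hm : 0 < m) :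
    ∑ c : kˣ, ((c⁻¹ : kˣ) : k) ^ m * (c : k) = if Fintype.card k - 1 ∣ m - 1 then -1 else 0 := by
  rw [← FiniteField.sum_pow_units k (m - 1), ← Equiv.sum_comp (Equiv.inv kˣ) (fun c : kˣ => (c : k) ^ (m - 1))]
  refine Finset.sum_congr rfl fun c _ => ?_
  rw [Equiv.inv_apply]
  obtain ⟨r, rfl⟩ : ∃ r, m = r + 1 := ⟨m - 1, by omega⟩
  rw [Nat.add_sub_cancel, pow_succ, mul_assoc, Units.inv_mul, mul_one]

theorem exists_rho (l : ℕ) [Fact l.Prime] (k : Type) [Field k] [Fintype k] [DecidableEq k]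
    [CharP k l] : ∃ ρ : k →+ ZMod l, IsRho l ρ := by
  have hl : l.Prime := Fact.out
  let _ := ZMod.algebra k l
  have hNe : NeZero l := ⟨hl.ne_zero⟩
  refine ⟨(Algebra.trace (ZMod l) k).toAddMonoidHom, ⟨fun a => ?_⟩⟩
  set f := Module.finrank (ZMod l) k with hf
  have hcard : Fintype.card k = l ^ f := by
    have h := Module.card_eq_pow_finrank (K := ZMod l) (V := k)
    rwa [ZMod.card] at h
  have hf0 : 0 < f := Module.finrank_pos
  have h1 : ∀ b : k, (((Algebra.trace (ZMod l) k).toAddMonoidHom b).val : k) = ∑ i ∈ Finset.range f, b ^ (l ^ i) := by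
    intro b
    have h2 := FiniteField.algebraMap_trace_eq_sum_pow (ZMod l) k b
    rw [Nat.card_zmod] at h2
    rw [← h2]
    have h3 := ZMod.natCast_zmod_val (Algebra.trace (ZMod l) k b)
    conv_rhs => rw [← h3]
    rw [map_natCast]
    rfl
  simp only [h1, Finset.sum_mul]
  rw [Finset.sum_comm]
  have h2 : ∀ i ∈ Finset.range f, ∑ c : kˣ, (a * ((c⁻¹ : kˣ) : k)) ^ (l ^ i) * (c : k) =
      if i = 0 then -a else 0 := by
    intro i hi
    have h3 : ∑ c : kˣ, (a * ((c⁻¹ : kˣ) : k)) ^ (l ^ i) * (c : k) =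
        a ^ (l ^ i) * ∑ c : kˣ, ((c⁻¹ : kˣ) : k) ^ (l ^ i) * (c : k) := by
      rw [Finset.mul_sum]
      refine Finset.sum_congr rfl fun c _ => ?_
      rw [mul_pow]
      ring
    rw [h3, a1_inner _ (pow_pos hl.pos i)]
    by_cases h0 : i = 0
    · subst h0
      simp
    · rw [if_neg h0, if_neg, mul_zero]
      intro hd
      have hi' := Finset.mem_range.1 hi
      have h4 : l ^ i < l ^ f := Nat.pow_lt_pow_right hl.one_lt hi'
      have h5 : 1 < l ^ i := Nat.one_lt_pow h0 hl.one_lt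
      have h6 := Nat.le_of_dvd (by omega) hd
      rw [hcard] at h6
      omega
  rw [Finset.sum_congr rfl h2, Finset.sum_ite_eq' , if_pos (Finset.mem_range.2 hf0)]

end H99B
end

-- from Lib.H13Z.LF3
section

open NumberField IsDedekindDomain

namespace H13Z

open H55P

/-- Chunk LF3 (S). At the places outside l. s y = ζ y, ζ^l = 1; z = y/x has value 1, s z - z = (ζ - 1) z: V (ζ - 1) < 1. If ζ ≠ 1 then l = product of the 1 - ζ^j (0 < j < l) has value < 1 (all factors have value ≤ 1; V (1 - ζ) < 1), contradiction. -/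
theorem unr_val {F₀ Ω : Type} [Field F₀] [Field Ω] [Algebra F₀ Ω] [CharZero Ω] (V : ValuationSubring Ω)
    {l : ℕ} (hl : l.Prime) (hV : V.valuation (l : Ω) = 1) {x y : Ω} (hy : y ≠ 0)
    (hxy : V.valuation y = V.valuation x) {s : Ω ≃ₐ[F₀] Ω} (hs : Inert V s) (h1 : s x = x)
    (h2 : s (y ^ l) = y ^ l) : s y = y := by
  have hvy : V.valuation y ≠ 0 := by
    rw [Ne, map_eq_zero]
    exact hy
  have hx : x ≠ 0 := by
    rintro rfl
    rw [map_zero] at hxy
    exact hvy hxy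
  obtain ⟨ζ, hζ⟩ : ∃ ζ : Ω, ζ = s y / y := ⟨_, rfl⟩
  have hsy : s y = ζ * y := by rw [hζ, div_mul_cancel₀ _ hy]
  have hζl : ζ ^ l = 1 := by
    rw [hζ, div_pow, ← map_pow, h2, div_self (pow_ne_zero l hy)]
  have hz1 : V.valuation (y / x) = 1 := by
    rw [map_div₀, hxy, div_self]
    rw [← hxy]
    exact hvy
  have hzV : y / x ∈ V := by
    rw [← V.valuation_le_one_iff, hz1]
  have h3 := hs _ hzV
  have h4 : s (y / x) - y / x = (ζ - 1) * (y / x) := by
    rw [map_div₀, h1, hsy]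
    ring
  rw [h4, map_mul, hz1, mul_one] at h3
  have hv1 : V.valuation ζ = 1 := by
    have h5 : V.valuation ζ ^ l = 1 := by rw [← map_pow, hζl, map_one]
    exact (pow_eq_one_iff_of_nonneg zero_le hl.ne_zero).1 h5
  by_cases hne : ζ = 1
  · rw [hsy, hne, one_mul]
  · exfalso
    have hsum : ∑ i ∈ Finset.range l, ζ ^ i = 0 := by
      have h5 := geom_sum_mul ζ l
      rw [hζl, sub_self] at h5
      exact (mul_eq_zero.1 h5).resolve_right (sub_ne_zero.2 hne)
    have hlt : ∀ i ∈ Finset.range l, V.valuation (ζ ^ i - 1) < 1 := by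
      intro i _
      rw [← geom_sum_mul, map_mul]
      have h6 : V.valuation (∑ j ∈ Finset.range i, ζ ^ j) ≤ 1 := by
        apply Valuation.map_sum_le
        intro j _
        rw [map_pow, hv1, one_pow]
      calc V.valuation (∑ j ∈ Finset.range i, ζ ^ j) * V.valuation (ζ - 1)
          ≤ 1 * V.valuation (ζ - 1) := by gcongr
        _ = V.valuation (ζ - 1) := one_mul _
        _ < 1 := h3
    have h7 : V.valuation (∑ i ∈ Finset.range l, (ζ ^ i - 1)) < 1 :=
      Valuation.map_sum_lt _ one_ne_zero hlt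
    rw [Finset.sum_sub_distrib, hsum, Finset.sum_const, Finset.card_range, nsmul_eq_mul, mul_one,
      zero_sub, Valuation.map_neg, hV] at h7
    exact lt_irrefl _ h7

end H13Z
end

-- from Lib.H28T.AR4
section

open NumberField IsDedekindDomain

namespace H28T

open H28R (SubQ)
open H55P H55R
open H55K

variable {F : Type} [Field F] [NumberField F] [IQ F] {G : HeightOneSpectrum (𝓞 F) → Prop}

theorem ar4_pos (K₀ : Type) [Field K₀] [NumberField K₀] (j : K₀ →+* ℂ)
    (hj : ComplexEmbedding.IsReal j) : 0 < InfinitePlace.nrRealPlaces K₀ := by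
  classical
  rw [← InfinitePlace.card_real_embeddings, Fintype.card_pos_iff]
  exact ⟨⟨j, hj⟩⟩

theorem ar4_nonreal (N : Type) [Field N] [NumberField N] [Algebra F N] (i : N →+* ℂ) :
    (starRingEnd ℂ).comp i ≠ i := by
  intro h
  obtain ⟨x, hx⟩ := IQ.im (F := F)
  apply hx
  have h1 : (starRingEnd ℂ) (i (algebraMap F N x)) = i (algebraMap F N x) :=
    RingHom.congr_fun h _
  have h2 : (i (algebraMap F N x)).im = 0 := Complex.conj_eq_iff_im.1 h1
  by_cases h3 : i.comp (algebraMap F N) = embF F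
  · have h4 : i (algebraMap F N x) = embF F x := RingHom.congr_fun h3 x
    rw [h4] at h2
    exact h2
  · have h4 : i (algebraMap F N x) = (starRingEnd ℂ) (embF F x) :=
      RingHom.congr_fun (d1_emb F _ _ h3 (d1_conj_ne F)) x
    rw [h4, Complex.conj_im, neg_eq_zero] at h2
    exact h2

/-- Chunk AR4 (S/M), port of H13N.x3_real (H13N/X3.lean). The complex conjugation γ of a Galois field N over ℚ containing F (under an embedding i of N in ℂ) is not the identity: its restriction to F is not (F has no real embedding: i ∘ algebraMap F N is embF F or its conjugate, IQ.im; H55K.d1_emb). The rest as in x3_real (without noroot). -/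
theorem ar4_real (N : Type) [Field N] [NumberField N] [Algebra F N] (hG : IsGalois ℚ N) :
    ∃ (K₀ : Type) (_ : Field K₀) (_ : NumberField K₀) (_ : Algebra K₀ N),
      0 < InfinitePlace.nrRealPlaces K₀ ∧ Module.finrank K₀ N = 2 := by
  obtain ⟨i⟩ : Nonempty (N →+* ℂ) := inferInstance
  have h1 : i.comp (algebraMap ℚ N) = ((starRingEnd ℂ).comp i).comp (algebraMap ℚ N) :=
    Subsingleton.elim _ _
  obtain ⟨σ, hσ⟩ := ComplexEmbedding.exists_comp_symm_eq_of_comp_eq i _ h1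
  let γ : N ≃ₐ[ℚ] N := σ.symm
  have hγ : ∀ z, i (γ z) = (starRingEnd ℂ) (i z) := fun z =>
    congrArg (fun φ : N →+* ℂ => φ z) hσ
  have hγ1 : γ ≠ 1 := by
    intro h
    apply ar4_nonreal (F := F) N i
    ext z
    show (starRingEnd ℂ) (i z) = i z
    rw [← hγ, h]
    rfl
  have hγ2 : γ * γ = 1 := by
    ext z
    apply i.injective
    change i (γ (γ z)) = i z
    rw [hγ, hγ, Complex.conj_conj]
  let K₀ : IntermediateField ℚ N := IntermediateField.fixedField (Subgroup.zpowers γ)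
  have hfix : ∀ x : K₀, γ (x : N) = x := by
    intro x
    exact x.2 ⟨γ, Subgroup.mem_zpowers γ⟩
  have hreal : ∀ x : K₀, (starRingEnd ℂ) (i (x : N)) = i (x : N) := by
    intro x
    rw [← hγ, hfix]
  have hrank : Module.finrank K₀ N = 2 := by
    have h2 : Module.finrank K₀ N = Nat.card (Subgroup.zpowers γ) :=
      IntermediateField.finrank_fixedField_eq_card _
    rw [h2, Nat.card_zpowers]
    exact orderOf_eq_prime (by rw [pow_two, hγ2]) hγ1
  refine ⟨K₀, inferInstance, inferInstance, inferInstance, ?_, hrank⟩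
  let j : K₀ →+* ℂ := i.comp (algebraMap K₀ N)
  have hj : ComplexEmbedding.IsReal j := by
    rw [ComplexEmbedding.isReal_iff]
    ext x
    exact hreal x
  exact ar4_pos K₀ j hj

end H28T
end

-- from Lib.H55W.E3
section

/-! # H55W: the Eisenstein integers in a field F -/

open NumberField IsDedekindDomain

namespace H55W

open H55P (IQ embF eF Nm)
open H55K (cj)

/-- w is a primitive cube root of unity in the integers of F and every integer is a + b w. -/
structure EI {F : Type} [Field F] [NumberField F] (w : 𝓞 F) : Prop where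
  sq : w ^ 2 + w + 1 = 0
  rep : ∀ x : 𝓞 F, ∃ a b : ℤ, x = (a : 𝓞 F) + (b : 𝓞 F) * w

variable {F : Type} [Field F] [NumberField F] [IQ F] {w : 𝓞 F}

/-- Chunk E3 (S). w^3 = 1, w ≠ 1. -/
theorem ei_root (h : EI w) : IsPrimitiveRoot w 3 := by
  have h3 : w ^ 3 = 1 := by linear_combination (w - 1) * h.sq
  have h1 : w ≠ 1 := by
    intro h1
    have h2 := h.sq
    rw [h1] at h2
    have h4 : (3 : 𝓞 F) = 0 := by linear_combination h2
    have h5 : ((3 : ℕ) : 𝓞 F) = 0 := by exact_mod_cast h4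
    exact absurd (Nat.cast_eq_zero.1 h5) (by norm_num)
  have h5 := orderOf_eq_prime (hp := ⟨Nat.prime_three⟩) h3 h1
  have h6 := IsPrimitiveRoot.orderOf w
  rwa [h5] at h6

/-- Chunk E3 (S). cj w is a root of X^2 + X + 1 = (X - w)(X + 1 + w); if cj w = w then eF w is real with w^2 + w + 1 = 0: impossible. Nm (a + b w) = a^2 - ab + b^2 (mul_cj, cj_int). -/
theorem ei_nm (h : EI w) (a b : ℤ) : cj w = -1 - w ∧ ((Nm ((a : 𝓞 F) + (b : 𝓞 F) * w) : ℕ) : ℤ) = a ^ 2 - a * b + b ^ 2 := by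
  have hc : cj w = -1 - w := by
    have h1 : (cj w) ^ 2 + cj w + 1 = 0 := by
      have h2 := congrArg cj h.sq
      rwa [map_add, map_add, map_pow, map_one, map_zero] at h2
    have h3 : (cj w - w) * (cj w + w + 1) = 0 := by linear_combination h1 - h.sq
    rcases mul_eq_zero.1 h3 with h4 | h4
    · exfalso
      have h5 : cj w = w := sub_eq_zero.1 h4
      have h6 := H55K.e_cj w
      rw [h5] at h6
      have h7 : (eF F w).im = 0 := Complex.conj_eq_iff_im.1 h6.symm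
      have h8 := congrArg (eF F) h.sq
      rw [map_add, map_add, map_pow, map_one, map_zero] at h8
      have h9 := congrArg Complex.re h8
      simp [pow_two, h7] at h9
      nlinarith [sq_nonneg ((eF F w).re + 1 / 2)]
    · linear_combination h4
  refine ⟨hc, ?_⟩
  have h1 := H55K.mul_cj ((a : 𝓞 F) + (b : 𝓞 F) * w)
  rw [map_add, map_mul, H55K.cj_int, H55K.cj_int, hc] at h1
  have h2 : ((((Nm ((a : 𝓞 F) + (b : 𝓞 F) * w) : ℕ) : ℤ)) : 𝓞 F) = ((a ^ 2 - a * b + b ^ 2 : ℤ) : 𝓞 F) := by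
    push_cast
    rw [← h1]
    linear_combination -(b : 𝓞 F) ^ 2 * h.sq
  exact_mod_cast h2

theorem e3_nmu {u : 𝓞 F} (hu : IsUnit u) : Nm u = 1 := by
  unfold Nm
  rw [Ideal.span_singleton_eq_top.2 hu, Ideal.absNorm_top]

theorem e3_six (h : EI w) {u : 𝓞 F} (hu : IsUnit u) : ∃ a b : ℤ, u = (a : 𝓞 F) + (b : 𝓞 F) * w ∧
    ((a = 1 ∧ b = 0) ∨ (a = -1 ∧ b = 0) ∨ (a = 0 ∧ b = 1) ∨ (a = 0 ∧ b = -1) ∨ (a = 1 ∧ b = 1) ∨ (a = -1 ∧ b = -1)) := by
  obtain ⟨a, b, hab⟩ := h.rep u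
  refine ⟨a, b, hab, ?_⟩
  have h1 := (ei_nm h a b).2
  rw [← hab, e3_nmu hu] at h1
  push_cast at h1
  have ha1 : a ≤ 1 := by nlinarith [sq_nonneg (2 * b - a)]
  have ha2 : -1 ≤ a := by nlinarith [sq_nonneg (2 * b - a)]
  have hb1 : b ≤ 1 := by nlinarith [sq_nonneg (2 * a - b)]
  have hb2 : -1 ≤ b := by nlinarith [sq_nonneg (2 * a - b)]
  clear hab
  interval_cases a <;> interval_cases b <;> norm_num at h1 <;> norm_num

theorem e3_wu (h : EI w) : IsUnit w := IsUnit.of_mul_eq_one (-1 - w) (by linear_combination -h.sq)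

/-- Chunk E3 (S/M). A unit has Nm u = 1: a^2 - ab + b^2 = 1: (2a - b)^2 + 3b^2 = 4: six solutions, u = η w^i. -/
theorem ei_unit (h : EI w) {u : 𝓞 F} (hu : IsUnit u) : ∃ (η : 𝓞 F) (i : ℕ), (η = 1 ∨ η = -1) ∧ u = η * w ^ i := by
  obtain ⟨a, b, hab, h1⟩ := e3_six h hu
  rcases h1 with ⟨rfl, rfl⟩ | ⟨rfl, rfl⟩ | ⟨rfl, rfl⟩ | ⟨rfl, rfl⟩ | ⟨rfl, rfl⟩ | ⟨rfl, rfl⟩
  · exact ⟨1, 0, Or.inl rfl, by rw [hab]; push_cast; ring⟩
  · exact ⟨-1, 0, Or.inr rfl, by rw [hab]; push_cast; ring⟩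
  · exact ⟨1, 1, Or.inl rfl, by rw [hab]; push_cast; ring⟩
  · exact ⟨-1, 1, Or.inr rfl, by rw [hab]; push_cast; ring⟩
  · exact ⟨-1, 2, Or.inr rfl, by rw [hab]; push_cast; linear_combination h.sq⟩
  · exact ⟨1, 2, Or.inl rfl, by rw [hab]; push_cast; linear_combination -h.sq⟩

/-- Chunk E3 (S/M). c = a + b w modulo 3; 1 - w divides c iff 3 divides a + b (a + b w = a + b - b (1 - w), and 1 - w divides 3). If 3 does not divide a + b there are six classes modulo 3: (a, b) = (1,0), (2,0), (0,1), (0,2), (2,2), (1,1) (mod 3), i.e. 1, -1, w, -w, -1-w = w^2, 1 + w = -w^2. -/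
theorem ei_mod3 (h : EI w) {c : 𝓞 F} (hc : ¬ (1 - w) ∣ c) : ∃ u : 𝓞 F, IsUnit u ∧ 3 ∣ c - u := by
  obtain ⟨a, b, hab⟩ := h.rep c
  have h3 : ¬ (3 : ℤ) ∣ a + b := by
    rintro ⟨m, hm⟩
    apply hc
    have h4 : ((a + b : ℤ) : 𝓞 F) = ((3 * m : ℤ) : 𝓞 F) := by rw [hm]
    push_cast at h4
    refine ⟨(2 + w) * m - b, ?_⟩
    rw [hab]
    linear_combination h4 + (m : 𝓞 F) * h.sq
  have hwu := e3_wu h
  have key : ∀ r s : ℤ, a % 3 = r → b % 3 = s → ∀ u : 𝓞 F, (3 : 𝓞 F) ∣ (r : 𝓞 F) + (s : 𝓞 F) * w - u → 3 ∣ c - u := by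
    intro r s hr hs u hu
    have h5 : a = 3 * (a / 3) + r := by rw [← hr]; exact (Int.mul_ediv_add_emod a 3).symm
    have h6 : b = 3 * (b / 3) + s := by rw [← hs]; exact (Int.mul_ediv_add_emod b 3).symm
    have h7 : (a : 𝓞 F) = 3 * ((a / 3 : ℤ) : 𝓞 F) + (r : 𝓞 F) := by
      conv_lhs => rw [h5]
      push_cast
      ring
    have h8 : (b : 𝓞 F) = 3 * ((b / 3 : ℤ) : 𝓞 F) + (s : 𝓞 F) := by
      conv_lhs => rw [h6]
      push_cast
      ring
    have h9 : c - u = 3 * (((a / 3 : ℤ) : 𝓞 F) + ((b / 3 : ℤ) : 𝓞 F) * w) + ((r : 𝓞 F) + (s : 𝓞 F) * w - u) := by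
      rw [hab, h7, h8]
      ring
    rw [h9]
    exact dvd_add (dvd_mul_right _ _) hu
  have hcases : (a % 3 = 1 ∧ b % 3 = 0) ∨ (a % 3 = 2 ∧ b % 3 = 0) ∨ (a % 3 = 0 ∧ b % 3 = 1) ∨
      (a % 3 = 0 ∧ b % 3 = 2) ∨ (a % 3 = 1 ∧ b % 3 = 1) ∨ (a % 3 = 2 ∧ b % 3 = 2) := by omega
  rcases hcases with ⟨h1, h2⟩ | ⟨h1, h2⟩ | ⟨h1, h2⟩ | ⟨h1, h2⟩ | ⟨h1, h2⟩ | ⟨h1, h2⟩
  · exact ⟨1, isUnit_one, key _ _ h1 h2 _ ⟨0, by push_cast; ring⟩⟩
  · exact ⟨-1, isUnit_one.neg, key _ _ h1 h2 _ ⟨1, by push_cast; ring⟩⟩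
  · exact ⟨w, hwu, key _ _ h1 h2 _ ⟨0, by push_cast; ring⟩⟩
  · exact ⟨-w, hwu.neg, key _ _ h1 h2 _ ⟨w, by push_cast; ring⟩⟩
  · exact ⟨-w ^ 2, (hwu.pow 2).neg, key _ _ h1 h2 _ ⟨0, by push_cast; linear_combination h.sq⟩⟩
  · exact ⟨w ^ 2, hwu.pow 2, key _ _ h1 h2 _ ⟨1 + w, by push_cast; linear_combination -h.sq⟩⟩

/-- Chunk E3 (S). The units η w^i - 1: 3 divides it only if it is 0 (9 divides the norm; the norms of -2, w - 1, -w - 1, w^2 - 1, -w^2 - 1 are 4, 3, 1, 3, 1). -/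
theorem ei_uniq (h : EI w) {u : 𝓞 F} (hu : IsUnit u) (h3 : 3 ∣ u - 1) : u = 1 := by
  obtain ⟨a, b, hab, h1⟩ := e3_six h hu
  obtain ⟨z, hz⟩ := h3
  have h2 : ((Nm (u - 1) : ℕ) : ℤ) = 9 * ((Nm z : ℕ) : ℤ) := by
    rw [hz, H55K.Nm_mul]
    have h4 : Nm (3 : 𝓞 F) = 9 := by
      have h5 := H55K.Nm_nat (F := F) 3
      push_cast at h5
      rw [h5]
    rw [h4]
    push_cast
    ring
  have h5 : u - 1 = ((a - 1 : ℤ) : 𝓞 F) + (b : 𝓞 F) * w := by
    rw [hab]
    push_cast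
    ring
  rw [h5, (ei_nm h (a - 1) b).2] at h2
  rcases h1 with ⟨rfl, rfl⟩ | ⟨rfl, rfl⟩ | ⟨rfl, rfl⟩ | ⟨rfl, rfl⟩ | ⟨rfl, rfl⟩ | ⟨rfl, rfl⟩
  · rw [hab]
    push_cast
    ring
  all_goals
    exfalso
    omega

/-- Chunk E3 (S). x prime to 3: 1 - w does not divide x (it divides 3 and is not a unit: norm 3), ei_mod3 for x: 3 | x - u, so 3 | u⁻¹ x - 1. -/
theorem ei_ex (h : EI w) {x : 𝓞 F} (hx : IsCoprime x 3) : ∃ u : 𝓞 F, IsUnit u ∧ 3 ∣ u * x - 1 := by
  have h1 : ¬ (1 - w) ∣ x := by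
    intro h2
    have h3 : (1 - w) ∣ (3 : 𝓞 F) := ⟨2 + w, by linear_combination h.sq⟩
    have h4 : IsUnit (1 - w) := hx.isUnit_of_dvd' h2 h3
    have h5 := (ei_nm h 1 (-1)).2
    have h6 : ((1 : ℤ) : 𝓞 F) + ((-1 : ℤ) : 𝓞 F) * w = 1 - w := by
      push_cast
      ring
    rw [h6, e3_nmu h4] at h5
    norm_num at h5
  obtain ⟨u, hu, h2⟩ := ei_mod3 h h1
  obtain ⟨v, hv⟩ := hu.exists_left_inv
  refine ⟨v, IsUnit.of_mul_eq_one u hv, ?_⟩
  have h3 : v * x - 1 = v * (x - u) := by linear_combination hv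
  rw [h3]
  exact h2.mul_left v

end H55W
end

-- from Lib.H55W.Q1
section

/-! # H55W, part Q: quadratic characters (n / norm) on the integers of an imaginary quadratic field -/

open NumberField IsDedekindDomain

namespace H55W

open H55P (IQ embF eF Nm)
open H55K (cj)

variable {F : Type} [Field F] [NumberField F] [IQ F]

/-- Chunk Q1 (S). Nat.card of the quotient (Ideal.absNorm_apply, Submodule.cardQuot_apply). -/
theorem nm_card (x : 𝓞 F) : Nat.card (𝓞 F ⧸ Ideal.span {x}) = Nm x := by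
  unfold Nm
  rw [Ideal.absNorm_apply, Submodule.cardQuot_apply]

theorem q1_unit {z : 𝓞 F} (h : Nm z = 1) : IsUnit z := by
  have h1 : Ideal.span {z} = ⊤ := Ideal.absNorm_eq_one_iff.1 h
  exact Ideal.span_singleton_eq_top.1 h1

theorem q1_dvd_prime {π : 𝓞 F} (hπ : Prime π) (n : ℕ) : n ≠ 0 → π ∣ (n : 𝓞 F) → ∃ p : ℕ, p.Prime ∧ π ∣ (p : 𝓞 F) := by
  induction n using induction_on_primes with
  | zero => exact fun h => absurd rfl h
  | one =>
    intro _ h
    rw [Nat.cast_one] at h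
    exact absurd (isUnit_of_dvd_one h) hπ.not_unit
  | prime_mul p a hp ih =>
    intro h0 h
    rw [Nat.cast_mul] at h
    rcases hπ.dvd_or_dvd h with h1 | h1
    · exact ⟨p, hp, h1⟩
    · exact ih (right_ne_zero_of_mul h0) h1

/-- Chunk Q1 (S/M). π divides a rational prime p (a prime element divides the natural number Nm π = π cj π, so one of its prime factors): p = π z, p^2 = Nm p = Nm π Nm z (Nm_nat, Nm_mul): Nm π = p or p^2 (Nm π ≠ 1). If Nm π = p^2 then z is a unit. -/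
theorem pi_types {π : 𝓞 F} (hπ : Prime π) : ∃ p : ℕ, p.Prime ∧ π ∣ (p : 𝓞 F) ∧ (Nm π = p ∨ (Nm π = p ^ 2 ∧ Associated π (p : 𝓞 F))) := by
  have h0 : Nm π ≠ 0 := fun h => hπ.ne_zero (H55P.Nm_eq_zero.1 h)
  have h1 : Nm π ≠ 1 := fun h => hπ.not_unit (q1_unit h)
  obtain ⟨p, hp, hd⟩ := q1_dvd_prime hπ (Nm π) h0 ⟨cj π, (H55K.mul_cj π).symm⟩
  refine ⟨p, hp, hd, ?_⟩
  obtain ⟨z, hz⟩ := hd
  have h2 : p ^ 2 = Nm π * Nm z := by
    rw [← H55K.Nm_mul, ← hz, H55K.Nm_nat]
  obtain ⟨k, hk, hk2⟩ := (Nat.dvd_prime_pow hp).1 (Dvd.intro _ h2.symm)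
  have hk3 : k = 0 ∨ k = 1 ∨ k = 2 := by omega
  rcases hk3 with rfl | rfl | rfl
  · exact absurd (by rw [hk2, pow_zero]) h1
  · left
    rw [hk2, pow_one]
  · right
    refine ⟨hk2, ?_⟩
    rw [hk2] at h2
    have h3 : Nm z = 1 := by
      have h4 : 0 < p ^ 2 := pow_pos hp.pos 2
      nlinarith
    rw [hz]
    exact associated_mul_unit_right π z (q1_unit h3)

/-- Chunk Q1 (S). A rational integer divisible by the rational integer m ≠ 0 in 𝓞 F is divisible in ℤ: the quotient is a rational number, integral over ℤ; or: norms are not enough; use IsIntegrallyClosed ℤ (Rat), or the basis H55P.bF; (Algebra.. Int.. ) . -/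
theorem int_dvd {a b : ℤ} (h : (a : 𝓞 F) ∣ (b : 𝓞 F)) : a ∣ b := by
  obtain ⟨z, hz⟩ := h
  by_cases ha : a = 0
  · rw [ha, Int.cast_zero, zero_mul] at hz
    have h1 : b = 0 := by exact_mod_cast hz
    rw [h1]
    exact dvd_zero a
  have haQ : (a : ℚ) ≠ 0 := by exact_mod_cast ha
  have haF : (a : F) ≠ 0 := by exact_mod_cast ha
  have h1 : algebraMap ℚ F ((b : ℚ) / a) = (z : F) := by
    have h2 : ((b : 𝓞 F) : F) = ((a : 𝓞 F) : F) * (z : F) := by
      rw [hz]
      rfl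
    rw [map_div₀, map_intCast, map_intCast, div_eq_iff haF]
    have h3 : ((b : 𝓞 F) : F) = (b : F) := map_intCast _ _
    have h4 : ((a : 𝓞 F) : F) = (a : F) := map_intCast _ _
    rw [h3, h4] at h2
    rw [h2, mul_comm]
  have h2 : IsIntegral ℤ ((b : ℚ) / a) := by
    rw [← isIntegral_algebraMap_iff (algebraMap ℚ F).injective, h1]
    exact z.2
  obtain ⟨m, hm⟩ := IsIntegrallyClosed.isIntegral_iff.1 h2
  refine ⟨m, ?_⟩
  have h3 : (m : ℚ) = b / a := hm
  rw [eq_div_iff haQ] at h3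
  have h4 : ((m * a : ℤ) : ℚ) = (b : ℚ) := by
    push_cast
    exact h3
  have h5 : m * a = b := by exact_mod_cast h4
  rw [← h5, mul_comm]

/-- Chunk Q1 (M). EULER'S CRITERION. p from pi_types, p odd (π does not divide 2), p does not divide n. Nm π = p: jacobiSym n p = legendreSym p n is congruent to n^((p-1)/2) modulo p (legendreSym.eq_pow in ZMod p; ZMod.intCast_zmod_eq_zero_iff..): cast to 𝓞 F, π divides p.
Nm π = p^2: jacobiSym n (p^2) = (jacobiSym n p)^2 = 1 (p does not divide n), n^((p^2-1)/2) = (n^(p-1))^((p+1)/2) is 1 modulo p (Fermat). -/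
theorem euler_nm {π : 𝓞 F} (hπ : Prime π) (h2 : ¬ π ∣ 2) {n : ℤ} (hn : ¬ π ∣ (n : 𝓞 F)) :
    π ∣ (n : 𝓞 F) ^ ((Nm π - 1) / 2) - ((jacobiSym n (Nm π) : ℤ) : 𝓞 F) := by
  obtain ⟨p, hp, hd, hN⟩ := pi_types hπ
  have hp2 : p ≠ 2 := by
    rintro rfl
    exact h2 (by exact_mod_cast hd)
  have hodd : p % 2 = 1 := hp.eq_two_or_odd.resolve_left hp2
  have hfact : Fact p.Prime := ⟨hp⟩
  have hpn : ¬ (p : ℤ) ∣ n := by
    rintro ⟨m, rfl⟩
    apply hn
    push_cast
    exact hd.mul_right _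
  have hnz : (n : ZMod p) ≠ 0 := fun h => hpn ((ZMod.intCast_zmod_eq_zero_iff_dvd n p).1 h)
  have hgcd : n.gcd p = 1 := by
    rw [Int.gcd_comm]
    exact Int.isCoprime_iff_gcd_eq_one.1 ((Nat.prime_iff_prime_int.1 hp).coprime_iff_not_dvd.2 hpn)
  have key : ∀ (N : ℕ) (J : ℤ), (p : ℤ) ∣ n ^ N - J → π ∣ (n : 𝓞 F) ^ N - ((J : ℤ) : 𝓞 F) := by
    rintro N J ⟨m, hm⟩
    have h1 : (n : 𝓞 F) ^ N - ((J : ℤ) : 𝓞 F) = ((n ^ N - J : ℤ) : 𝓞 F) := by push_cast; ring
    rw [h1, hm]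
    push_cast
    exact hd.mul_right _
  rcases hN with hN | ⟨hN, -⟩
  · rw [hN]
    refine key _ _ ?_
    rw [← ZMod.intCast_zmod_eq_zero_iff_dvd, ← jacobiSym.legendreSym.to_jacobiSym]
    push_cast
    rw [legendreSym.eq_pow]
    have h3 : (p - 1) / 2 = p / 2 := by omega
    rw [h3, sub_self]
  · rw [hN]
    refine key _ _ ?_
    rw [jacobiSym.pow_right, jacobiSym.sq_one hgcd]
    rw [← ZMod.intCast_zmod_eq_zero_iff_dvd]
    push_cast
    obtain ⟨m, hm⟩ : ∃ m, p = 2 * m + 1 := ⟨p / 2, by omega⟩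
    have h3 : (p ^ 2 - 1) / 2 = (p - 1) * (m + 1) := by
      have h4 : p ^ 2 - 1 = 2 * ((p - 1) * (m + 1)) := by
        rw [hm]
        have h5 : (2 * m + 1) ^ 2 = 4 * m ^ 2 + 4 * m + 1 := by ring
        rw [h5]
        have h6 : 2 * ((2 * m + 1 - 1) * (m + 1)) = 4 * m ^ 2 + 4 * m := by
          rw [Nat.add_sub_cancel]
          ring
        omega
      rw [h4, Nat.mul_div_cancel_left _ (by norm_num)]
    rw [h3, pow_mul, ZMod.pow_card_sub_one_eq_one hnz, one_pow, sub_self]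

/-- Chunk Q1 (S). x is prime to c in 𝓞 F implies Nm x prime to c in ℤ: a x + b c = 1, conjugate and multiply: (a x + b c)(cj a cj x + cj b c) = 1: Nm(x) z + c z' = 1, so a prime number l dividing Nm x and c divides 1 in 𝓞 F (int_dvd). -/
theorem nm_cop {x : 𝓞 F} {c : ℤ} (h : IsCoprime x (c : 𝓞 F)) : IsCoprime ((Nm x : ℕ) : ℤ) c := by
  obtain ⟨a, b, hab⟩ := h
  rw [Int.isCoprime_iff_gcd_eq_one]
  obtain ⟨g, hg⟩ : ∃ g : ℕ, g = Int.gcd ((Nm x : ℕ) : ℤ) c := ⟨_, rfl⟩
  rw [← hg]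
  obtain ⟨s, hs⟩ : (g : ℤ) ∣ ((Nm x : ℕ) : ℤ) := by rw [hg]; exact Int.gcd_dvd_left ..
  obtain ⟨t, ht⟩ : (g : ℤ) ∣ c := by rw [hg]; exact Int.gcd_dvd_right ..
  have h1 : (((g : ℤ) : ℤ) : 𝓞 F) ∣ ((1 : ℤ) : 𝓞 F) := by
    have h2 := congrArg cj hab
    rw [map_add, map_mul, map_mul, H55K.cj_int, map_one] at h2
    have h3 := H55K.mul_cj x
    have h4 : ((Nm x : ℕ) : 𝓞 F) = ((g : ℤ) : 𝓞 F) * (s : 𝓞 F) := by
      have h5 : (((Nm x : ℕ) : ℤ) : 𝓞 F) = (((g : ℤ) * s : ℤ) : 𝓞 F) := by rw [hs]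
      push_cast at h5 ⊢
      exact h5
    have h6 : (c : 𝓞 F) = ((g : ℤ) : 𝓞 F) * (t : 𝓞 F) := by
      rw [ht]
      push_cast
      ring
    refine ⟨s * (a * cj a) + t * (a * x * cj b + b * cj a * cj x + b * cj b * c), ?_⟩
    push_cast at h4 h6 ⊢
    have h7 : (a * x + b * c) * (cj a * cj x + cj b * c) = 1 := by rw [hab, h2, one_mul]
    have h8 : (a * x + b * c) * (cj a * cj x + cj b * c) = (x * cj x) * (a * cj a) +
      (c : 𝓞 F) * (a * x * cj b + b * cj a * cj x + b * cj b * c) := by ring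
    rw [h7, h3] at h8
    linear_combination h8 + (a * cj a) * h4 + (a * x * cj b + b * cj a * cj x + b * cj b * c) * h6
  have h9 := int_dvd h1
  exact Nat.dvd_one.1 (by exact_mod_cast h9)

/-- Chunk Q1 (S). x cj x - y cj y = (x - y) cj x + y cj (x - y) is divisible by k (cj_int); int_dvd. -/
theorem nm_per {x y : 𝓞 F} {k : ℤ} (h : (k : 𝓞 F) ∣ x - y) : k ∣ ((Nm x : ℕ) : ℤ) - ((Nm y : ℕ) : ℤ) := by
  obtain ⟨z, hz⟩ := h
  apply int_dvd (F := F)
  have h1 := H55K.mul_cj x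
  have h2 := H55K.mul_cj y
  have h3 := congrArg cj hz
  rw [map_sub, map_mul, H55K.cj_int] at h3
  refine ⟨z * cj x + y * cj z, ?_⟩
  push_cast
  rw [← h1, ← h2]
  linear_combination cj x * hz + y * h3

/-- Chunk Q1 (S). absNorm of the top ideal. -/
theorem nm_unit {u : 𝓞 F} (hu : IsUnit u) : Nm u = 1 := by
  unfold Nm
  rw [Ideal.span_singleton_eq_top.2 hu, Ideal.absNorm_top]

end H55W
end

-- from Lib.H55W.Q2A
section

/-! # H55W, part Q: quadratic characters -/

open NumberField IsDedekindDomain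

namespace H55W

open H55P (IQ embF eF Nm)
open H55K (cj)

variable {F : Type} [Field F] [NumberField F] [IQ F]

theorem q2a_gcd {a b : ℤ} (h : IsCoprime a b) : Int.gcd b a = 1 := by
  rw [Int.gcd_comm]
  exact Int.isCoprime_iff_gcd_eq_one.1 h

theorem q2a_odd {n : ℤ} {x : 𝓞 F} (h : IsCoprime x ((2 * n : ℤ) : 𝓞 F)) : Odd (Nm x) := by
  have h1 := nm_cop h
  have h2 : IsCoprime ((Nm x : ℕ) : ℤ) (2 : ℤ) := h1.of_mul_right_left
  rw [Int.isCoprime_iff_gcd_eq_one] at h2
  rw [← Nat.not_even_iff_odd]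
  intro he
  obtain ⟨k, hk⟩ := he
  rw [hk] at h2
  have h3 : (2 : ℤ) ∣ Int.gcd ((k + k : ℕ) : ℤ) 2 := by
    refine Int.dvd_coe_gcd ⟨k, by push_cast; ring⟩ (dvd_refl _)
  rw [h2] at h3
  norm_num at h3

theorem q2a_gcdn {n : ℤ} {x : 𝓞 F} (h : IsCoprime x ((2 * n : ℤ) : 𝓞 F)) : Int.gcd n (Nm x : ℕ) = 1 := by
  have h1 := nm_cop h
  exact q2a_gcd h1.of_mul_right_right

/-- Chunk Q2A (M). κ x = jacobiSym n (Nm x). root: 1 or -1 (jacobiSym.eq_one_or_neg_one, nm_cop: Nm x is prime to 2n); mul: Nm_mul, jacobiSym.mul_right; unit: nm_unit; per: Nm x is congruent to Nm y modulo 8n (nm_per), both odd, jacobiSym.mod_right (J(a | b) depends on b modulo 4|a|); euler: nm_card, euler_nm. -/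
theorem quad_any {n : ℤ} (hn : n ≠ 0) : ∃ κ : 𝓞 F → 𝓞 F, PRC (𝓞 F) 2 n (2 * n) (8 * n) κ ∧
    ∀ x, IsCoprime x (((2 * n : ℤ)) : 𝓞 F) → κ x = 1 ∨ κ x = -1 := by
  have hval : ∀ x : 𝓞 F, IsCoprime x (((2 * n : ℤ)) : 𝓞 F) →
      ((jacobiSym n (Nm x) : ℤ) : 𝓞 F) = 1 ∨ ((jacobiSym n (Nm x) : ℤ) : 𝓞 F) = -1 := by
    intro x hx
    rcases jacobiSym.eq_one_or_neg_one (q2a_gcdn hx) with h1 | h1
    · left
      rw [h1, Int.cast_one]
    · right
      rw [h1, Int.cast_neg, Int.cast_one]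
  refine ⟨fun x => ((jacobiSym n (Nm x) : ℤ) : 𝓞 F), ⟨?_, ?_, ?_, ?_, ?_⟩, hval⟩
  · intro x hx
    rcases hval x hx with h1 | h1
    · simp only [h1, one_pow]
    · simp only [h1]
      norm_num
  · intro x y hx hy
    show ((jacobiSym n (Nm (x * y)) : ℤ) : 𝓞 F) = ((jacobiSym n (Nm x) : ℤ) : 𝓞 F) * ((jacobiSym n (Nm y) : ℤ) : 𝓞 F)
    have h1 : Nm x ≠ 0 := fun h => by have := q2a_odd hx; rw [h] at this; exact absurd this (by decide)
    have h2 : Nm y ≠ 0 := fun h => by have := q2a_odd hy; rw [h] at this; exact absurd this (by decide)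
    rw [H55K.Nm_mul, jacobiSym.mul_right' n h1 h2, Int.cast_mul]
  · intro x y hx hy hxy
    show ((jacobiSym n (Nm x) : ℤ) : 𝓞 F) = ((jacobiSym n (Nm y) : ℤ) : 𝓞 F)
    have h1 := nm_per hxy
    rw [jacobiSym.mod_right n (q2a_odd hx), jacobiSym.mod_right n (q2a_odd hy)]
    have h2 : Nm x % (4 * n.natAbs) = Nm y % (4 * n.natAbs) := by
      have h3 : ((4 * n.natAbs : ℕ) : ℤ) ∣ ((Nm x : ℕ) : ℤ) - ((Nm y : ℕ) : ℤ) := by
        refine dvd_trans ?_ h1
        push_cast
        refine dvd_trans (mul_dvd_mul_left 4 (b := |n|) (c := n) ((abs_dvd n n).2 (dvd_refl n))) ⟨2, by ring⟩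
      have h4 : (Nm y : ℤ) ≡ (Nm x : ℤ) [ZMOD ((4 * n.natAbs : ℕ) : ℤ)] := Int.modEq_iff_dvd.2 h3
      exact ((Int.natCast_modEq_iff).1 h4).symm
    rw [h2]
  · intro u hu
    show ((jacobiSym n (Nm u) : ℤ) : 𝓞 F) = 1
    rw [nm_unit hu, jacobiSym.one_right, Int.cast_one]
  · intro π hπ hc hm
    rw [nm_card]
    refine euler_nm hπ (fun h => hm (by exact_mod_cast h)) fun h => hc ?_
    rw [Int.cast_mul]
    exact Dvd.dvd.mul_left h _

/-- Chunk Q2A (S/M). The primary unit. n0 is not a unit in the group of units in the sense of huniq. pr x = the unit u with n0 | u x - 1 if there is one, 1 otherwise (classical). Uniqueness: n0 | u x - 1, n0 | u' x - 1: u x ≡ u' x, x is invertible modulo n0 (u x ≡ 1), so n0 | u - u', n0 | u u'^(-1) - 1, huniq. -/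
theorem exists_pr {R : Type} [CommRing R] (n0 : R) (hex : ∀ x : R, IsCoprime x n0 → ∃ u, IsUnit u ∧ n0 ∣ u * x - 1)
    (huniq : ∀ u : R, IsUnit u → n0 ∣ u - 1 → u = 1) : ∃ pr : R → R,
    (∀ x, IsCoprime x n0 → IsUnit (pr x) ∧ n0 ∣ pr x * x - 1) ∧
    (∀ x y, IsCoprime x n0 → IsCoprime y n0 → pr (x * y) = pr x * pr y) ∧
    (∀ u x, IsUnit u → IsCoprime x n0 → pr (u * x) * u = pr x) ∧
    (∀ x y, IsCoprime x n0 → IsCoprime y n0 → n0 ∣ x - y → pr x = pr y) ∧
    ∀ u x, IsUnit u → IsCoprime x n0 → n0 ∣ u * x - 1 → pr x = u := by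
  classical
  have key : ∀ {u u' x : R}, IsUnit u → IsUnit u' → n0 ∣ u * x - 1 → n0 ∣ u' * x - 1 → u = u' := by
    intro u u' x hu hu' h1 h2
    obtain ⟨v, hv⟩ := hu'.exists_left_inv
    have hvu : IsUnit v := IsUnit.of_mul_eq_one _ hv
    have h3 : n0 ∣ u * v - 1 := by
      have h4 : u * v - 1 = v * (u' * (u * x - 1) - u * (u' * x - 1)) := by
        linear_combination hv
      rw [h4]
      exact Dvd.dvd.mul_left (dvd_sub (Dvd.dvd.mul_left h1 _) (Dvd.dvd.mul_left h2 _)) _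
    have h5 := huniq (u * v) (hu.mul hvu) h3
    calc u = u * (v * u') := by rw [hv, mul_one]
      _ = (u * v) * u' := by ring
      _ = u' := by rw [h5, one_mul]
  set pr : R → R := fun x => if h : ∃ u, IsUnit u ∧ n0 ∣ u * x - 1 then h.choose else 1 with hpr
  have h1 : ∀ x, IsCoprime x n0 → IsUnit (pr x) ∧ n0 ∣ pr x * x - 1 := by
    intro x hx
    have h := hex x hx
    rw [hpr]
    simp only [dif_pos h]
    exact h.choose_spec
  refine ⟨pr, h1, ?_, ?_, ?_, ?_⟩
  · intro x y hx hy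
    obtain ⟨a1, a2⟩ := h1 x hx
    obtain ⟨b1, b2⟩ := h1 y hy
    obtain ⟨c1, c2⟩ := h1 (x * y) (hx.mul_left hy)
    refine key c1 (a1.mul b1) c2 ?_
    have h4 : pr x * pr y * (x * y) - 1 = (pr x * x - 1) * (pr y * y) + (pr y * y - 1) := by ring
    rw [h4]
    exact dvd_add (Dvd.dvd.mul_right a2 _) b2
  · intro u x hu hx
    obtain ⟨a1, a2⟩ := h1 x hx
    obtain ⟨c1, c2⟩ := h1 (u * x) ((isCoprime_mul_unit_left_left hu x n0).2 hx)
    refine key (c1.mul hu) a1 ?_ a2
    rwa [mul_assoc]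
  · intro x y hx hy hxy
    obtain ⟨a1, a2⟩ := h1 x hx
    obtain ⟨b1, b2⟩ := h1 y hy
    refine key a1 b1 a2 ?_
    have h4 : pr y * x - 1 = pr y * (x - y) + (pr y * y - 1) := by ring
    rw [h4]
    exact dvd_add (Dvd.dvd.mul_left hxy _) b2
  · intro u x hu hx h
    obtain ⟨a1, a2⟩ := h1 x hx
    exact key a1 hu a2 h

end H55W
end

-- from Lib.H55W.Q2B
section

/-! # H55W, part Q: quadratic characters -/

open NumberField IsDedekindDomain

namespace H55W

open H55P (IQ embF eF Nm)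
open H55K (cj)

variable {F : Type} [Field F] [NumberField F] [IQ F]

/-- Chunk Q2B (S/M). Quadratic reciprocity: n ≡ 1 mod 4 (n may be negative), N odd natural: J(n | N) = J(N | |n|). n > 0: jacobiSym.quadratic_reciprocity_one_mod_four (n natural, 1 mod 4). n < 0: |n| = 3 mod 4, J(n | N) = J(-1 | N) J(|n| | N), J(-1 | N) = χ₄ N (jacobiSym.at_neg_one), jacobiSym.quadratic_reciprocity / quadratic_reciprocity_three_mod_four: cases N mod 4. Common factors: both 0. -/
theorem jac_recip {n : ℤ} (hn : n % 4 = 1) {N : ℕ} (hN : N % 2 = 1) : jacobiSym n N = jacobiSym (N : ℤ) n.natAbs := by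
  have hNo : Odd N := Nat.odd_iff.2 hN
  rcases le_or_gt 0 n with h0 | h0
  · obtain ⟨m, rfl⟩ := Int.eq_ofNat_of_zero_le h0
    rw [Int.natAbs_natCast]
    exact jacobiSym.quadratic_reciprocity_one_mod_four (by omega) hNo
  · obtain ⟨m, hm⟩ : ∃ m : ℕ, n = -(m : ℤ) := ⟨n.natAbs, by omega⟩
    subst hm
    have hm3 : m % 4 = 3 := by omega
    rw [Int.natAbs_neg, Int.natAbs_natCast, jacobiSym.neg _ hNo]
    have hN4 : N % 4 = 1 ∨ N % 4 = 3 := by omega
    rcases hN4 with h1 | h1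
    · rw [ZMod.χ₄_nat_one_mod_four h1, one_mul]
      exact jacobiSym.quadratic_reciprocity_one_mod_four' (Nat.odd_iff.2 (by omega)) h1
    · rw [ZMod.χ₄_nat_three_mod_four h1, jacobiSym.quadratic_reciprocity_three_mod_four hm3 h1]
      ring

/-- Chunk Q2B (M). κ x = jacobiSym (Nm x) |n|. root, mul (jacobiSym.mul_left), unit (jacobiSym.one_left), per (jacobiSym.mod_left', nm_per), euler: π does not divide 2 and n: jac_recip (Nm π is odd: pi_types), euler_nm. κ 2 = jacobiSym 4 |n| = (jacobiSym 2 |n|)^2 = 1 (n odd; Nm 2 = 4: Nm_nat). -/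
theorem quad_odd {n : ℤ} (hn : n % 4 = 1) : ∃ κ : 𝓞 F → 𝓞 F, PRC (𝓞 F) 2 n n n κ ∧
    (∀ x, IsCoprime x ((n : ℤ) : 𝓞 F) → κ x = 1 ∨ κ x = -1) ∧ κ 2 = 1 := by
  have hgcd : ∀ x : 𝓞 F, IsCoprime x ((n : ℤ) : 𝓞 F) → Int.gcd ((Nm x : ℕ) : ℤ) (n.natAbs : ℕ) = 1 := by
    intro x hx
    have h1 := Int.isCoprime_iff_gcd_eq_one.1 (nm_cop hx)
    unfold Int.gcd at h1 ⊢
    rw [Int.natAbs_natCast n.natAbs]
    exact h1
  have hval : ∀ x : 𝓞 F, IsCoprime x ((n : ℤ) : 𝓞 F) →
      ((jacobiSym (Nm x : ℕ) n.natAbs : ℤ) : 𝓞 F) = 1 ∨ ((jacobiSym (Nm x : ℕ) n.natAbs : ℤ) : 𝓞 F) = -1 := by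
    intro x hx
    rcases jacobiSym.eq_one_or_neg_one (hgcd x hx) with h1 | h1
    · left
      rw [h1, Int.cast_one]
    · right
      rw [h1, Int.cast_neg, Int.cast_one]
  refine ⟨fun x => ((jacobiSym (Nm x : ℕ) n.natAbs : ℤ) : 𝓞 F), ⟨?_, ?_, ?_, ?_, ?_⟩, hval, ?_⟩
  · intro x hx
    rcases hval x hx with h1 | h1
    · simp only [h1, one_pow]
    · simp only [h1]
      norm_num
  · intro x y hx hy
    show ((jacobiSym (Nm (x * y) : ℕ) n.natAbs : ℤ) : 𝓞 F) =
      ((jacobiSym (Nm x : ℕ) n.natAbs : ℤ) : 𝓞 F) * ((jacobiSym (Nm y : ℕ) n.natAbs : ℤ) : 𝓞 F)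
    rw [H55K.Nm_mul, Nat.cast_mul, jacobiSym.mul_left, Int.cast_mul]
  · intro x y hx hy hxy
    show ((jacobiSym (Nm x : ℕ) n.natAbs : ℤ) : 𝓞 F) = ((jacobiSym (Nm y : ℕ) n.natAbs : ℤ) : 𝓞 F)
    have h1 := nm_per hxy
    have h2 : ((Nm x : ℕ) : ℤ) % (n.natAbs : ℤ) = ((Nm y : ℕ) : ℤ) % (n.natAbs : ℤ) := by
      have h3 : ((Nm y : ℕ) : ℤ) ≡ ((Nm x : ℕ) : ℤ) [ZMOD (n.natAbs : ℤ)] :=
        Int.modEq_iff_dvd.2 (Int.natAbs_dvd.2 h1)
      exact h3.symm
    rw [jacobiSym.mod_left' h2]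
  · intro u hu
    show ((jacobiSym (Nm u : ℕ) n.natAbs : ℤ) : 𝓞 F) = 1
    rw [nm_unit hu, Nat.cast_one, jacobiSym.one_left, Int.cast_one]
  · intro π hπ hc hm
    rw [nm_card]
    have hm' : ¬ π ∣ 2 := fun h => hm (by exact_mod_cast h)
    obtain ⟨p, hp, hpd, hN⟩ := pi_types hπ
    have hp2 : p ≠ 2 := by
      rintro rfl
      exact hm' (by exact_mod_cast hpd)
    have hodd : Nm π % 2 = 1 := by
      rcases hN with hN | ⟨hN, -⟩
      · rw [hN]
        exact Nat.odd_iff.1 (hp.odd_of_ne_two hp2)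
      · rw [hN]
        exact Nat.odd_iff.1 (hp.odd_of_ne_two hp2).pow
    have h1 := euler_nm hπ hm' hc
    rw [jac_recip hn hodd] at h1
    exact h1
  · show ((jacobiSym (Nm (2 : 𝓞 F) : ℕ) n.natAbs : ℤ) : 𝓞 F) = 1
    have h1 := H55K.Nm_nat (F := F) 2
    rw [Nat.cast_ofNat] at h1
    have h2 : Int.gcd (2 : ℤ) (n.natAbs : ℕ) = 1 := by
      have h3 : Nat.Coprime 2 n.natAbs := by
        rw [Nat.coprime_two_left]
        exact Nat.odd_iff.2 (by omega)
      exact h3
    rw [h1, show (((2 ^ 2 : ℕ) : ℕ) : ℤ) = (2 : ℤ) ^ 2 by norm_num, jacobiSym.sq_one' h2, Int.cast_one]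

end H55W
end

-- from Lib.H55W.F3
section

/-! # H55W, part F: the function defining the Hecke character, discriminant -3 -/

open NumberField IsDedekindDomain

namespace H55W

open H55P (IQ embF eF Nm)
open H55K (cj)

variable {F : Type} [Field F] [NumberField F] [IQ F] {w : 𝓞 F}

/-- Chunk F3 (S). IsCoprime (span {x}) (span {y}) iff IsCoprime x y (Ideal.isCoprime_span_singleton_iff); powers, divisors. -/
theorem cop_of {x : 𝓞 F} {D : ℤ} {c : 𝓞 F} {j : ℕ} (hc : c ∣ ((D : ℤ) : 𝓞 F) ^ j) (hx : IsCoprime (Ideal.span {x}) (Ideal.span {((D : ℤ) : 𝓞 F) ^ 3})) :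
    IsCoprime x c := by
  rw [Ideal.isCoprime_span_singleton_iff] at hx
  have h1 : IsCoprime x ((D : ℤ) : 𝓞 F) := (IsCoprime.pow_right_iff (by norm_num)).1 hx
  exact (h1.pow_right (n := j)).of_isCoprime_of_dvd_right hc

omit [IQ F] in
theorem f3_pc {γ a : 𝓞 F} (hγ : Prime γ) (h : ¬ γ ∣ a) : IsCoprime γ a := by
  have hp : (Ideal.span {γ}).IsPrime := (Ideal.span_singleton_prime hγ.ne_zero).2 hγ
  have hm : (Ideal.span {γ}).IsMaximal := hp.isMaximal (by
    rw [Ne, Ideal.span_singleton_eq_bot]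
    exact hγ.ne_zero)
  obtain ⟨y, i, hi, hyi⟩ := hm.exists_inv (x := a) (by rwa [Ideal.mem_span_singleton])
  obtain ⟨z, rfl⟩ := Ideal.mem_span_singleton.1 hi
  exact ⟨z, y, by rw [← hyi]; ring⟩

omit [NumberField F] [IQ F] in
theorem f3_uc {u c : 𝓞 F} (hu : IsUnit u) : IsCoprime u c := by
  obtain ⟨v, hv⟩ := hu.exists_left_inv
  exact ⟨v, 0, by rw [hv]; ring⟩

omit [NumberField F] [IQ F] in
theorem f3_diff {z z' : 𝓞 F} (hz : z ^ 3 = 1) (hz' : z' ^ 3 = 1) (hne : z ≠ z') : z - z' ∣ 3 := by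
  have h1 : (z - z') * (z ^ 2 + z * z' + z' ^ 2) = 0 := by linear_combination hz - hz'
  have h2 := (mul_eq_zero.1 h1).resolve_left (sub_ne_zero.2 hne)
  refine ⟨-((z - z') * z ^ 2 * z' ^ 2), ?_⟩
  linear_combination (-3) * z' ^ 3 * hz - 3 * hz' + z ^ 2 * z' ^ 2 * h2

/-- Euler's criterion for a quadratic character. -/
theorem f3_eu {γ η : 𝓞 F} {b' c k : ℤ} {κ : 𝓞 F → 𝓞 F} (hκ : PRC (𝓞 F) 2 b' c k κ)
    (hκ1 : ∀ x, IsCoprime x ((c : ℤ) : 𝓞 F) → κ x = 1 ∨ κ x = -1) (hγ : Prime γ) (g2 : ¬ γ ∣ 2)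
    (gc : ¬ γ ∣ ((c : ℤ) : 𝓞 F)) (hη : η = 1 ∨ η = -1) (h : γ ∣ (b' : 𝓞 F) ^ ((Nm γ - 1) / 2) - η) : κ γ = η := by
  have hk := hκ.euler γ hγ gc (by rw [Nat.cast_ofNat]; exact g2)
  rw [nm_card] at hk
  have hd : γ ∣ κ γ - η := by
    have := dvd_sub h hk
    have e : ((b' : 𝓞 F) ^ ((Nm γ - 1) / 2) - η) - ((b' : 𝓞 F) ^ ((Nm γ - 1) / 2) - κ γ) = κ γ - η := by ring
    rwa [e] at this
  rcases hκ1 γ (f3_pc hγ gc) with g | g <;> rcases hη with rfl | rfl
  · exact g
  · rw [g] at hd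
    have e : (1 : 𝓞 F) - -1 = 2 := by ring
    rw [e] at hd
    exact absurd hd g2
  · rw [g] at hd
    have e : (-1 : 𝓞 F) - 1 = -2 := by ring
    rw [e, dvd_neg] at hd
    exact absurd hd g2
  · exact g

/-- A prime element which divides 2 is 2 times a unit. -/
theorem f3_two (hw : EI w) {γ : 𝓞 F} (hγ : Prime γ) (h : γ ∣ 2) : ∃ u : 𝓞 F, IsUnit u ∧ 2 = γ * u := by
  obtain ⟨z, hz⟩ := h
  refine ⟨z, ?_, hz⟩
  obtain ⟨a, b, hab⟩ := hw.rep γ
  have h1 := (ei_nm hw a b).2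
  rw [← hab] at h1
  have h2 := (ei_nm hw 2 0).2
  have e2 : ((2 : ℤ) : 𝓞 F) + ((0 : ℤ) : 𝓞 F) * w = 2 := by push_cast; ring
  rw [e2, hz, H55K.Nm_mul] at h2
  push_cast at h2
  have h3 : Nm γ * Nm z = 4 := by
    have : ((Nm γ * Nm z : ℕ) : ℤ) = 4 := by push_cast; rw [h2]
    exact_mod_cast this
  have hne1 : Nm γ ≠ 1 := by
    intro hc
    apply hγ.not_isUnit
    rw [Nm, Ideal.absNorm_eq_one_iff, Ideal.span_singleton_eq_top] at hc
    exact hc
  have hne2 : Nm γ ≠ 2 := by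
    intro hc
    rw [hc] at h1
    push_cast at h1
    have ha : a % 2 = 0 ∨ a % 2 = 1 := by omega
    have hb : b % 2 = 0 ∨ b % 2 = 1 := by omega
    have hab2 : (a ^ 2 - a * b + b ^ 2) % 4 = 2 := by rw [← h1]; norm_num
    rcases ha with ha | ha <;> rcases hb with hb | hb
    · obtain ⟨c, rfl⟩ : ∃ c, a = 2 * c := ⟨a / 2, by omega⟩
      obtain ⟨d, rfl⟩ : ∃ d, b = 2 * d := ⟨b / 2, by omega⟩
      have : (2 * c) ^ 2 - 2 * c * (2 * d) + (2 * d) ^ 2 = 4 * (c ^ 2 - c * d + d ^ 2) := by ring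
      rw [this] at hab2
      omega
    · obtain ⟨c, rfl⟩ : ∃ c, a = 2 * c := ⟨a / 2, by omega⟩
      obtain ⟨d, rfl⟩ : ∃ d, b = 2 * d + 1 := ⟨b / 2, by omega⟩
      have : (2 * c) ^ 2 - 2 * c * (2 * d + 1) + (2 * d + 1) ^ 2 = 2 * (2 * c ^ 2 - c * (2 * d + 1) + 2 * d ^ 2 + 2 * d) + 1 := by ring
      rw [this] at hab2
      omega
    · obtain ⟨c, rfl⟩ : ∃ c, a = 2 * c + 1 := ⟨a / 2, by omega⟩
      obtain ⟨d, rfl⟩ : ∃ d, b = 2 * d := ⟨b / 2, by omega⟩
      have : (2 * c + 1) ^ 2 - (2 * c + 1) * (2 * d) + (2 * d) ^ 2 = 2 * (2 * c ^ 2 + 2 * c - (2 * c + 1) * d + 2 * d ^ 2) + 1 := by ring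
      rw [this] at hab2
      omega
    · obtain ⟨c, rfl⟩ : ∃ c, a = 2 * c + 1 := ⟨a / 2, by omega⟩
      obtain ⟨d, rfl⟩ : ∃ d, b = 2 * d + 1 := ⟨b / 2, by omega⟩
      have : (2 * c + 1) ^ 2 - (2 * c + 1) * (2 * d + 1) + (2 * d + 1) ^ 2 =
          2 * (2 * c ^ 2 + 2 * c - 2 * c * d - c - d + 2 * d ^ 2 + 2 * d) + 1 := by ring
      rw [this] at hab2
      omega
  have hd : Nm γ ∣ 4 := ⟨_, h3.symm⟩
  have hle := Nat.le_of_dvd (by norm_num) hd
  have h4 : Nm γ = 4 := by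
    interval_cases hN : Nm γ
    · omega
    · exact absurd rfl hne1
    · exact absurd rfl hne2
    · omega
    · rfl
  rw [h4] at h3
  have h5 : Nm z = 1 := by omega
  rw [Nm, Ideal.absNorm_eq_one_iff, Ideal.span_singleton_eq_top] at h5
  exact h5

/-- Chunk F3 (M). pr from exists_pr (n0 = 3: ei_ex, ei_uniq), κ₂ from quad_any (b' even: c = 2b', k = 8b') or quad_odd (b' odd, b' = 1 mod 4: c = k = b'). f x = pr x * κ₃ x * κ₂ x. x prime to M is prime to D = -27 b'^2 (cop_of), so to 3, 3 b', and to 2 b' if b' is even; elements of M are divisible by 27 b', by 3, and by 8 b' if b' is even (D^3 = -27^3 b'^6).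
un: κ₃^3 = 1, κ₂^2 = 1. mul, per: clear. inv: κ (u x) = κ u κ x = κ x (PRC.unit; a unit is prime to everything). The last statement: π = γ a prime, N = Nm γ (nm_card): pr γ = η ζ^2 =: u (exists_pr: u γ ≡ η ζ^2 η ζ = ζ^3 η^2 = 1 mod 3; ζ^3 = 1: ei_root); κ₃ γ = ζ: γ divides b'^((N-1)/3) - κ₃ γ (PRC.euler; γ does not divide 3 b' and 3) and b'^((N-1)/3) - ζ, so γ divides κ₃ γ - ζ; both are cube roots of 1
(powers of w: κ₃^3 = 1), and differences of different ones divide 3 (compare H35T.mu3_inj): κ₃ γ = ζ. κ₂ γ = η: if γ does not divide 2: the same with b'^((N-1)/2) (differences divide 2). If γ divides 2: γ does not divide b', so b' is odd, b' = 1 mod 4, η = 1; 2 is a prime element (the norm a^2 - ab + b^2 is never 2), γ = unit times 2, κ₂ γ = κ₂ 2 = 1. So f γ = η ζ^2 ζ η = 1. -/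
theorem exists_f3 (hw : EI w) {b' : ℤ} (hb : b' ≠ 0) (h4 : b' % 2 = 1 → b' % 4 = 1) {κ₃ : 𝓞 F → 𝓞 F}
    (hκ : PRC (𝓞 F) 3 b' (3 * b') (27 * b') κ₃) {D : ℤ} (hD : D = -27 * b' ^ 2) :
    ∃ f : 𝓞 F → 𝓞 F, HF (Ideal.span {((D : ℤ) : 𝓞 F) ^ 3}) f ∧ ∀ γ η ζ : 𝓞 F, Prime γ → ¬ γ ∣ ((D : ℤ) : 𝓞 F) → (3 : 𝓞 F) ∣ γ - η * ζ →
      (η = 1 ∨ η = -1) → (∃ i : ℕ, ζ = w ^ i) → γ ∣ (b' : 𝓞 F) ^ ((Nm γ - 1) / 3) - ζ →
      (¬ γ ∣ 2 → γ ∣ (b' : 𝓞 F) ^ ((Nm γ - 1) / 2) - η) → (γ ∣ 2 → b' % 4 = 1 → η = 1) → f γ = 1 := by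
  have hDc : ((D : ℤ) : 𝓞 F) = -27 * (b' : 𝓞 F) ^ 2 := by rw [hD]; push_cast; ring
  have hw3 : w ^ 3 = 1 := (ei_root hw).pow_eq_one
  have hwu : ∀ i : ℕ, IsUnit (w ^ i) := by
    intro i
    refine IsUnit.pow i (IsUnit.of_mul_eq_one (w ^ 2) ?_)
    rw [← hw3]
    ring
  obtain ⟨pr, p1, p2, p3, p4, p5⟩ := exists_pr (3 : 𝓞 F) (fun x hx => ei_ex hw hx) (fun u hu hd => ei_uniq hw hu hd)
  obtain ⟨κ, c, k, hk2, hk1, hcD, hkD, hfin⟩ : ∃ (κ : 𝓞 F → 𝓞 F) (c k : ℤ), PRC (𝓞 F) 2 b' c k κ ∧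
      (∀ x, IsCoprime x ((c : ℤ) : 𝓞 F) → κ x = 1 ∨ κ x = -1) ∧ ((c : ℤ) : 𝓞 F) ∣ ((D : ℤ) : 𝓞 F) ^ 1 ∧
      ((k : ℤ) : 𝓞 F) ∣ ((D : ℤ) : 𝓞 F) ^ 3 ∧ ∀ γ η : 𝓞 F, Prime γ → ¬ γ ∣ ((D : ℤ) : 𝓞 F) → (η = 1 ∨ η = -1) →
      (¬ γ ∣ 2 → γ ∣ (b' : 𝓞 F) ^ ((Nm γ - 1) / 2) - η) → (γ ∣ 2 → b' % 4 = 1 → η = 1) → κ γ = η := by
    rcases Int.emod_two_eq_zero_or_one b' with hb2 | hb2
    · obtain ⟨κ, hκ', hκ1⟩ := quad_any (F := F) hb
      obtain ⟨m, rfl⟩ : ∃ m, b' = 2 * m := ⟨b' / 2, by omega⟩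
      have c1 : ((2 * (2 * m) : ℤ) : 𝓞 F) ∣ ((D : ℤ) : 𝓞 F) ^ 1 := by
        rw [hDc]
        exact ⟨-27 * (m : 𝓞 F), by push_cast; ring⟩
      refine ⟨κ, _, _, hκ', hκ1, c1, ?_, ?_⟩
      · rw [hDc]
        exact ⟨-78732 * (m : 𝓞 F) ^ 5, by push_cast; ring⟩
      · intro γ η hγ hγD hη h1 h2
        have g2 : ¬ γ ∣ 2 := fun h => hγD (h.trans ⟨-54 * (m : 𝓞 F) ^ 2, by rw [hDc]; push_cast; ring⟩)
        have gc : ¬ γ ∣ ((2 * (2 * m) : ℤ) : 𝓞 F) := fun h => hγD (by rw [← pow_one ((D : ℤ) : 𝓞 F)]; exact h.trans c1)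
        exact f3_eu hκ' hκ1 hγ g2 gc hη (h1 g2)
    · have h41 := h4 hb2
      obtain ⟨κ, hκ', hκ1, hκ2⟩ := quad_odd (F := F) h41
      have c1 : ((b' : ℤ) : 𝓞 F) ∣ ((D : ℤ) : 𝓞 F) ^ 1 := by
        rw [hDc]
        exact ⟨-27 * (b' : 𝓞 F), by ring⟩
      refine ⟨κ, _, _, hκ', hκ1, c1, ?_, ?_⟩
      · rw [hDc]
        exact ⟨-19683 * (b' : 𝓞 F) ^ 5, by ring⟩
      · intro γ η hγ hγD hη h1 h2
        have gc : ¬ γ ∣ ((b' : ℤ) : 𝓞 F) := fun h => hγD (by rw [← pow_one ((D : ℤ) : 𝓞 F)]; exact h.trans c1)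
        by_cases g2 : γ ∣ 2
        · rw [h2 g2 h41]
          obtain ⟨u, hu, h2u⟩ := f3_two hw hγ g2
          have e := hκ'.mul γ u (f3_pc hγ gc) (f3_uc hu)
          rw [← h2u, hκ2, hκ'.unit u hu, mul_one] at e
          exact e.symm
        · exact f3_eu hκ' hκ1 hγ g2 gc hη (h1 g2)
  have c3 : ((3 * b' : ℤ) : 𝓞 F) ∣ ((D : ℤ) : 𝓞 F) ^ 1 := by
    rw [hDc]
    exact ⟨-9 * (b' : 𝓞 F), by push_cast; ring⟩
  have d3 : (3 : 𝓞 F) ∣ ((D : ℤ) : 𝓞 F) ^ 1 := by
    rw [hDc]
    exact ⟨-9 * (b' : 𝓞 F) ^ 2, by ring⟩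
  have k1 : ∀ z : 𝓞 F, z ∈ Ideal.span {((D : ℤ) : 𝓞 F) ^ 3} → (3 : 𝓞 F) ∣ z ∧ ((27 * b' : ℤ) : 𝓞 F) ∣ z ∧ ((k : ℤ) : 𝓞 F) ∣ z := by
    intro z hz
    rw [Ideal.mem_span_singleton] at hz
    refine ⟨dvd_trans ?_ hz, dvd_trans ?_ hz, hkD.trans hz⟩
    · rw [hDc]
      exact ⟨-6561 * (b' : 𝓞 F) ^ 6, by ring⟩
    · rw [hDc]
      exact ⟨-729 * (b' : 𝓞 F) ^ 5, by push_cast; ring⟩
  refine ⟨fun x => pr x * κ₃ x * κ x, ⟨?_, ?_, ?_, ?_⟩, ?_⟩
  · intro x hx
    refine ((p1 x (cop_of d3 hx)).1.mul (IsUnit.of_mul_eq_one (κ₃ x ^ 2) ?_)).mul (IsUnit.of_mul_eq_one (κ x) ?_)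
    · rw [← hκ.root x (cop_of c3 hx)]
      ring
    · rw [← hk2.root x (cop_of hcD hx)]
      ring
  · intro x y hx hy
    show pr (x * y) * κ₃ (x * y) * κ (x * y) = pr x * κ₃ x * κ x * (pr y * κ₃ y * κ y)
    rw [p2 x y (cop_of d3 hx) (cop_of d3 hy), hκ.mul x y (cop_of c3 hx) (cop_of c3 hy), hk2.mul x y (cop_of hcD hx) (cop_of hcD hy)]
    ring
  · intro u x hu hx
    show pr (u * x) * κ₃ (u * x) * κ (u * x) * u = pr x * κ₃ x * κ x
    have g1 : κ₃ (u * x) = κ₃ x := by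
      rw [hκ.mul u x (f3_uc hu) (cop_of c3 hx), hκ.unit u hu, one_mul]
    have g2 : κ (u * x) = κ x := by
      rw [hk2.mul u x (f3_uc hu) (cop_of hcD hx), hk2.unit u hu, one_mul]
    rw [g1, g2, ← p3 u x hu (cop_of d3 hx)]
    ring
  · intro x y hx hy hxy
    show pr x * κ₃ x * κ x = pr y * κ₃ y * κ y
    obtain ⟨g1, g2, g3⟩ := k1 _ hxy
    rw [p4 x y (cop_of d3 hx) (cop_of d3 hy) g1, hκ.per x y (cop_of c3 hx) (cop_of c3 hy) g2,
      hk2.per x y (cop_of hcD hx) (cop_of hcD hy) g3]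
  · rintro γ η _ hγ hγD h1 hη ⟨i, rfl⟩ h2 h3 h5
    show pr γ * κ₃ γ * κ γ = 1
    have gD : IsCoprime γ (((D : ℤ) : 𝓞 F) ^ 1) := f3_pc hγ (by rwa [pow_one])
    have g3 : ¬ γ ∣ 3 := fun h => hγD (by rw [← pow_one ((D : ℤ) : 𝓞 F)]; exact h.trans d3)
    have gc : ¬ γ ∣ ((3 * b' : ℤ) : 𝓞 F) := fun h => hγD (by rw [← pow_one ((D : ℤ) : 𝓞 F)]; exact h.trans c3)
    have hz : (w ^ i) ^ 3 = 1 := by rw [← pow_mul, mul_comm, pow_mul, hw3, one_pow]
    have hη2 : η ^ 2 = 1 := by rcases hη with rfl | rfl <;> ring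
    have hηu : IsUnit η := IsUnit.of_mul_eq_one η (by rw [← hη2]; ring)
    have hp : pr γ = η * (w ^ i) ^ 2 := by
      refine p5 _ γ (hηu.mul ((hwu i).pow 2)) (gD.of_isCoprime_of_dvd_right d3) ?_
      have e : η * (w ^ i) ^ 2 * γ - 1 = η * (w ^ i) ^ 2 * (γ - η * w ^ i) := by
        linear_combination (w ^ i) ^ 3 * hη2 + hz
      rw [e]
      exact h1.mul_left _
    have hk3 := hκ.euler γ hγ gc (by rw [Nat.cast_ofNat]; exact g3)
    rw [nm_card] at hk3
    have hd : γ ∣ κ₃ γ - w ^ i := by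
      have := dvd_sub h2 hk3
      have e : ((b' : 𝓞 F) ^ ((Nm γ - 1) / 3) - w ^ i) - ((b' : 𝓞 F) ^ ((Nm γ - 1) / 3) - κ₃ γ) = κ₃ γ - w ^ i := by ring
      rwa [e] at this
    have hk1' : κ₃ γ = w ^ i := by
      by_contra hne
      exact g3 (hd.trans (f3_diff (hκ.root γ (gD.of_isCoprime_of_dvd_right c3)) hz hne))
    rw [hp, hk1', hfin γ η hγ hγD hη h3 h5]
    linear_combination (w ^ i) ^ 3 * hη2 + hz

end H55W
end

-- from Lib.H55K.NA1
section

/-! # H55K, part N: the step of the Selmer group with a third local alternative -/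

namespace H55K.NB

open H55P

/-- The step of the Selmer group in a cyclic extension of degree p, with a third local alternative: every continuous
cocycle killed by p is a coboundary on the inertia group. -/
theorem abs_stepB {G M Vs : Type} [Group G] [AddCommGroup M] (ρ : G →* AddMonoid.End M) (p : ℕ)
    (hp : p.Prime) (U : Set (Subgroup G)) (I D : Vs → Subgroup G) (N H : Subgroup G)
    (hUi : ∀ O ∈ U, ∀ O' ∈ U, O ⊓ O' ∈ U) (hUc : ∀ O ∈ U, ∀ g : G, ∃ O' ∈ U, ∀ s ∈ O', g * s * g⁻¹ ∈ O)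
    (hN : N ∈ U) (hNH : N ≤ H) (hcomm : ∀ a ∈ H, ∀ b ∈ H, a * b * a⁻¹ * b⁻¹ ∈ N) (σ : G) (hσ : σ ∈ H)
    (hgen : ∀ h ∈ H, ∃ i : ℕ, ∃ n ∈ N, h = σ ^ i * n) (hσp : σ ^ p ∈ N)
    (hconj : ∀ g ∈ H, ∀ v, ∃ v', ∀ s, s ∈ I v' ↔ g * s * g⁻¹ ∈ I v)
    (hDI : ∀ v, ∀ φ ∈ D v, ∀ s ∈ I v, φ * s * φ⁻¹ ∈ I v)
    (h0 : ∀ T : M, p • T = 0 → (∀ s ∈ N, ρ s T = T) → T = 0)
    (hloc : ∀ v, (∀ s ∈ H, s ∈ I v → s ∈ N) ∨
      ((∀ s ∈ H, s ∈ I v → ∀ P : M, p • (ρ s P - P) = 0 → ρ s P = P) ∧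
        ∀ T : M, p • T = 0 → (∀ s ∈ H, s ∈ D v → ρ s T = T) → T = 0) ∨
      (∀ c' : G → M, (∀ s ∈ H, ∀ t ∈ H, c' (s * t) = c' s + ρ s (c' t)) → (∀ s ∈ H, p • c' s = 0) →
        (∃ O ∈ U, ∀ s ∈ H, s ∈ O → c' s = 0) → ∃ P : M, ∀ s ∈ H, s ∈ I v → c' s = ρ s P - P))
    (hS : SelA ρ p U I H) : SelA ρ p U I N := by
  intro c hc1 hc2 hc3 hc4
  have hn := sa3_norm hNH hcomm
  have hn' := sa3_norm' hNH hcomm
  refine op_zero p hp (sa3_Z ρ p U I N hN hUi) (sa3_B ρ p N) ?_ (sa3_F ρ σ)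
    (fun z hz => sa3_FZ p U I N H hUc hNH hcomm σ hσ hconj z hz) ?_ ?_ ?_ c ⟨hc1, hc2, hc3, hc4⟩
  · rintro z ⟨-, -, hz, -⟩
    exact ⟨0, smul_zero _, fun s hs => by rw [Pi.smul_apply, hz s hs, map_zero, sub_zero]⟩
  · rintro b ⟨T, hT, hb⟩
    refine ⟨ρ σ T, sa3_nsmul ρ p σ T hT, fun s hs => ?_⟩
    rw [sa3_F_apply, hb _ (hn' σ hσ s hs), sa3_bd]
  · rintro z ⟨z1, -, z3, -⟩
    refine ⟨z (σ ^ p), z3 _ hσp, fun s hs => ?_⟩
    rw [Pi.sub_apply, sa3_iter]
    exact sa3_self z1 _ hσp s hs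
  · rintro z ⟨z1, ⟨O, hO, z2⟩, z3, z4⟩ ⟨T, hT, hb⟩
    have hI : sa3_I ρ p N z σ := ⟨T, hT, fun s hs => hb s hs⟩
    have hI1 : ∀ n ∈ N, sa3_I ρ p N z n := fun n hn => ⟨z n, z3 n hn, fun s hs => sa3_self z1 n hn s hs⟩
    have hI2 : ∀ i : ℕ, sa3_I ρ p N z (σ ^ i) := by
      intro i
      induction i with
      | zero =>
        rw [pow_zero]
        exact hI1 1 N.one_mem
      | succ i ih =>
        rw [pow_succ']
        exact sa3_I_mul (hn' σ hσ) hI ih
    have hinv : ∀ g ∈ H, sa3_I ρ p N z g := by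
      intro g hg
      obtain ⟨i, n, hnN, rfl⟩ := hgen g hg
      exact sa3_I_mul (hn' _ (H.pow_mem hσ i)) (hI2 i) (hI1 n hnN)
    obtain ⟨c', e1, e2, e3⟩ := ext_coc ρ p N H hNH hn h0 z z1 z3 hinv
    have hcont : ∃ O' ∈ U, ∀ s ∈ H, s ∈ O' → c' s = 0 :=
      ⟨N ⊓ O, hUi N hN O hO, fun s _ h => by rw [e3 s h.1, z2 s h.1 h.2]⟩
    obtain ⟨T', hT', h5⟩ := hS c' e1 hcont e2
      (fun v => by
        rcases hloc v with h | h | h
        · exact sa3_loc p I D N H hNH hcomm hDI v (Or.inl h) z c' (z4 v) z3 e1 e2 e3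
        · exact sa3_loc p I D N H hNH hcomm hDI v (Or.inr h) z c' (z4 v) z3 e1 e2 e3
        · exact h c' e1 e2 hcont)
    exact ⟨T', hT', fun s hs => by rw [← e3 s hs, h5 s (hNH hs)]⟩

end H55K.NB
end

-- from Lib.H55K.NA2
section

/-! # H55K, part N: the step of the Selmer group over the fields, with a third local alternative -/

open NumberField IsDedekindDomain WeierstrassCurve

namespace H55K.NB

open H55P

variable {F : Type} [Field F] [NumberField F] {Ω : Type} [Field Ω] [DecidableEq Ω] [Algebra F Ω]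
  [IsAlgClosed Ω] [Algebra.IsAlgebraic F Ω] [CharZero Ω]

theorem sel_stepB (W : WeierstrassCurve F) (p : ℕ) (hp : p.Prime) (N K : IntermediateField F Ω)
    [FiniteDimensional F K] (hNK : N ≤ K) (hnorm : ∀ s ∈ N.fixingSubgroup, ∀ x ∈ K, s x ∈ K)
    (hdeg : Module.finrank F K = Module.finrank F N * p)
    (h0 : ∀ T : Pt W Ω, p • T = 0 → (∀ s ∈ K.fixingSubgroup, ac W s T = T) → T = 0)
    (hloc : ∀ V : ValuationSubring Ω, (∀ s ∈ N.fixingSubgroup, Inert V s → s ∈ K.fixingSubgroup) ∨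
      ((∀ s ∈ N.fixingSubgroup, Inert V s → ∀ P : Pt W Ω, p • (ac W s P - P) = 0 → ac W s P = P) ∧
        ∀ T : Pt W Ω, p • T = 0 → (∀ s ∈ N.fixingSubgroup, Dec V s → ac W s T = T) → T = 0) ∨
      (∀ c : (Ω ≃ₐ[F] Ω) → Pt W Ω, Coc W N c → (∀ s ∈ N.fixingSubgroup, p • c s = 0) →
        ∃ P : Pt W Ω, ∀ s ∈ N.fixingSubgroup, Inert V s → c s = ac W s P - P))
    (hS : SelZero W p N) : SelZero W p K := by
  rw [sel_iff] at hS ⊢
  have hfin := s3_fin N K hNK
  have hgal := s3_galois N K hNK hnorm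
  have hdN : Module.finrank F N ≠ 0 := by
    intro h
    rw [h, zero_mul] at hdeg
    exact (Module.finrank_pos (R := F) (M := K)).ne' hdeg
  have hfr : Module.finrank N (IntermediateField.extendScalars hNK) = p := by
    have h1 := Module.finrank_mul_finrank F N (IntermediateField.extendScalars hNK)
    have h2 : Module.finrank F (IntermediateField.extendScalars hNK) = Module.finrank F K := rfl
    rw [h2, hdeg] at h1
    exact Nat.eq_of_mul_eq_mul_left (Nat.pos_of_ne_zero hdN) h1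
  have hcard : Nat.card Gal((IntermediateField.extendScalars hNK)/N) = p := by
    rw [IsGalois.card_aut_eq_finrank, hfr]
  have : Fact p.Prime := ⟨hp⟩
  have hcyc : IsCyclic Gal((IntermediateField.extendScalars hNK)/N) := isCyclic_of_prime_card hcard
  obtain ⟨τ, hτ⟩ := hcyc.exists_generator
  obtain ⟨σ, hσ, hστ⟩ := s3_lift (IntermediateField.extendScalars hNK) τ
  have hpow : ∀ (i : ℕ) (x : IntermediateField.extendScalars hNK),
      (σ ^ i) (x : Ω) = (((τ ^ i) x : IntermediateField.extendScalars hNK) : Ω) := by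
    intro i
    induction i with
    | zero => intro x; rfl
    | succ n ih =>
      intro x
      rw [pow_succ', pow_succ', AlgEquiv.mul_apply, AlgEquiv.mul_apply, ih, hστ]
  refine abs_stepB (acR W) p hp _ (fun V : ValuationSubring Ω => inS F V)
    (fun V : ValuationSubring Ω => decS F V) K.fixingSubgroup N.fixingSubgroup ?_ ?_ ?_ ?_ ?_ σ hσ
    ?_ ?_ ?_ ?_ ?_ ?_ hS
  · rintro _ ⟨L, hL, rfl⟩ _ ⟨L', hL', rfl⟩
    exact ⟨L ⊔ L', IntermediateField.finiteDimensional_sup L L',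
      (IntermediateField.fixingSubgroup_sup).symm⟩
  · rintro _ ⟨L, hL, rfl⟩ g
    refine ⟨(L.map (g⁻¹ : Ω ≃ₐ[F] Ω).toAlgHom).fixingSubgroup, ⟨_, ?_, rfl⟩, ?_⟩
    · exact LinearEquiv.finiteDimensional
        (IntermediateField.equivMap L (g⁻¹ : Ω ≃ₐ[F] Ω).toAlgHom).toLinearEquiv
    · intro s hs
      rw [s3_mem] at hs ⊢
      intro x hx
      have h1 : g (g⁻¹ x) = x := g.apply_symm_apply x
      have h2 : s (g⁻¹ x) = g⁻¹ x := hs _ ⟨x, hx, rfl⟩
      rw [AlgEquiv.mul_apply, AlgEquiv.mul_apply, h2, h1]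
  · exact ⟨K, inferInstance, rfl⟩
  · exact IntermediateField.fixingSubgroup_le hNK
  · intro a ha b hb
    obtain ⟨sa, hsa⟩ := s3_restr (IntermediateField.extendScalars hNK) a ha
    obtain ⟨sb, hsb⟩ := s3_restr (IntermediateField.extendScalars hNK) b hb
    have hcm : sa * sb = sb * sa := by
      obtain ⟨i, hi⟩ := Subgroup.mem_zpowers_iff.1 (hτ sa)
      obtain ⟨j, hj⟩ := Subgroup.mem_zpowers_iff.1 (hτ sb)
      rw [← hi, ← hj, ← zpow_add, ← zpow_add, add_comm]
    rw [s3_mem]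
    intro x hx
    have hy : a⁻¹ (b⁻¹ x) ∈ K :=
      hnorm _ (inv_mem ha) _ (hnorm _ (inv_mem hb) _ hx)
    have h3 : a (b (a⁻¹ (b⁻¹ x))) = b (a (a⁻¹ (b⁻¹ x))) := by
      have h4 := hsb ⟨a⁻¹ (b⁻¹ x), hy⟩
      have h5 := hsa ⟨a⁻¹ (b⁻¹ x), hy⟩
      have h6 := hsa (sb ⟨a⁻¹ (b⁻¹ x), hy⟩)
      have h7 := hsb (sa ⟨a⁻¹ (b⁻¹ x), hy⟩)
      have h8 : sa (sb ⟨a⁻¹ (b⁻¹ x), hy⟩) = sb (sa ⟨a⁻¹ (b⁻¹ x), hy⟩) := by
        rw [← AlgEquiv.mul_apply, hcm, AlgEquiv.mul_apply]
      rw [h8, h7, h4, h5] at h6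
      exact h6.symm
    have h1 : a (a⁻¹ (b⁻¹ x)) = b⁻¹ x := a.apply_symm_apply _
    have h2 : b (b⁻¹ x) = x := b.apply_symm_apply _
    rw [AlgEquiv.mul_apply, AlgEquiv.mul_apply, AlgEquiv.mul_apply, h3, h1, h2]
  · intro h hh
    obtain ⟨sh, hsh⟩ := s3_restr (IntermediateField.extendScalars hNK) h hh
    have h1 : sh ∈ Submonoid.powers τ := by
      have := hτ sh
      rwa [← mem_powers_iff_mem_zpowers] at this
    obtain ⟨i, hi⟩ := h1
    refine ⟨i, (σ ^ i)⁻¹ * h, ?_, by group⟩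
    rw [s3_mem]
    intro x hx
    have h2 : h x = (σ ^ i) x := by
      have h3 := hsh ⟨x, hx⟩
      have h4 := hpow i ⟨x, hx⟩
      have hi' : τ ^ i = sh := hi
      rw [hi', h3] at h4
      exact h4.symm
    rw [AlgEquiv.mul_apply, h2]
    exact (σ ^ i).symm_apply_apply x
  · rw [s3_mem]
    intro x hx
    have h4 := hpow p ⟨x, hx⟩
    have h5 : τ ^ p = 1 := by
      rw [← hcard]
      exact pow_card_eq_one'
    rw [h5] at h4
    exact h4
  · intro g _ v
    exact inS_conj v g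
  · intro v φ hφ s hs
    exact inS_dec v φ hφ s hs
  · exact h0
  · intro V
    rcases hloc V with h | h | h
    · exact Or.inl h
    · exact Or.inr (Or.inl h)
    · refine Or.inr (Or.inr ?_)
      rintro c' h1 h2 ⟨_, ⟨L, hL, rfl⟩, h3⟩
      exact h c' ⟨h1, L, hL, h3⟩ h2

end H55K.NB
end

-- from Lib.H55K.NA6
section

/-! # H55K, part N: the tower theorem with bad ramified primes -/

open NumberField IsDedekindDomain WeierstrassCurve

namespace H55K.NB

open H55P

variable {F : Type} [Field F] [NumberField F] {Ω : Type} [Field Ω] [DecidableEq Ω] [Algebra F Ω]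
  [IsAlgClosed Ω] [Algebra.IsAlgebraic F Ω] [CharZero Ω]

/-- As H55P.sel_tower, but bad primes without p-torsion fixed by inertia may be ramified. -/
theorem sel_towerB (W₀ : WeierstrassCurve (𝓞 F)) [(W₀⁄F).IsElliptic] (p : ℕ) (hp : p.Prime)
    (M L : IntermediateField F Ω) (hL : PExt p M L)
    (h0 : ∀ T : Pt (W₀⁄F) Ω, p • T = 0 → (∀ s ∈ M.fixingSubgroup, ac (W₀⁄F) s T = T) → T = 0)
    (hcomm : ∀ s ∈ M.fixingSubgroup, ∀ t ∈ M.fixingSubgroup, ∀ T : Pt (W₀⁄F) Ω, p • T = 0 →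
      ac (W₀⁄F) s (ac (W₀⁄F) t T) = ac (W₀⁄F) t (ac (W₀⁄F) s T))
    (hram : ∀ v : HeightOneSpectrum (𝓞 M), Ram M L v.asIdeal → (p : 𝓞 M) ∉ v.asIdeal ∧
      ((algebraMap (𝓞 F) (𝓞 M) W₀.Δ ∉ v.asIdeal ∧
        ¬ p ∣ Nat.card (W₀⁄(𝓞 M ⧸ v.asIdeal)).toAffine.Point) ∨
      ∀ V : ValuationSubring Ω, Below V M v.asIdeal → ∀ T : Pt (W₀⁄F) Ω, p • T = 0 →
        (∀ s ∈ L.fixingSubgroup, Inert V s → ac (W₀⁄F) s T = T) → T = 0))
    (hS : SelZero (W₀⁄F) p M) (K : IntermediateField F Ω) (hMK : M ≤ K) (hKL : K ≤ L) :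
    SelZero (W₀⁄F) p K := by
  have hLf : FiniteDimensional F L := hL.fin
  have hMf : FiniteDimensional F M :=
    (Module.Finite.of_injective (IntermediateField.inclusion hL.le).toLinearMap
      (IntermediateField.inclusion hL.le).injective)
  obtain ⟨k, hk⟩ := hL.pow p hp M L
  have hconj : ∀ s ∈ M.fixingSubgroup, ∀ t ∈ L.fixingSubgroup, s * t * s⁻¹ ∈ L.fixingSubgroup :=
    fun s hs t ht => hL.conj p M L s hs t ht
  have hfin := tors_fin (Ω := Ω) (W₀⁄F) p hp.pos
  -- no torsion over L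
  have htL : ∀ T : Pt (W₀⁄F) Ω, p • T = 0 → (∀ s ∈ L.fixingSubgroup, ac (W₀⁄F) s T = T) → T = 0 := by
    intro T hT hf
    exact fix_up (acR (W₀⁄F)) p hp hfin L.fixingSubgroup M.fixingSubgroup
      (fun s hs => fixing_anti hL.le hs) hconj k hk h0 T hT hf
  induction hn : Module.finrank F K using Nat.strong_induction_on generalizing K with
  | _ n ih =>
    rcases eq_or_ne K M with rfl | hne
    · exact hS
    obtain ⟨N, hMN, hNK, hdeg, hnorm⟩ := chain_step p hp M K L hL hMK hKL hne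
    have hKf : FiniteDimensional F K :=
      (Module.Finite.of_injective (IntermediateField.inclusion hKL).toLinearMap
        (IntermediateField.inclusion hKL).injective)
    have hNf : FiniteDimensional F N :=
      (Module.Finite.of_injective (IntermediateField.inclusion hNK).toLinearMap
        (IntermediateField.inclusion hNK).injective)
    have hNpos : 0 < Module.finrank F N := Module.finrank_pos
    have hlt : Module.finrank F N < n := by
      rw [← hn, hdeg]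
      exact lt_mul_of_one_lt_right hNpos hp.one_lt
    have hSN := ih _ hlt N hMN (hNK.trans hKL) rfl
    refine sel_stepB (W₀⁄F) p hp N K hNK hnorm hdeg
      (fun T hT hf => htL T hT fun s hs => hf s (fixing_anti hKL hs)) (fun V => ?_) hSN
    rcases below_cases M V with ⟨v, hv⟩ | htriv
    · by_cases hr : Ram M L v.asIdeal
      · right
        obtain ⟨hpv, ⟨hΔ, hc⟩ | hbad⟩ := hram v hr
        swap
        · right
          intro c hc hpc
          exact inert_cob (W₀⁄F) p hp N V (val_below M V v hv p hpv)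
            (fun s hs t ht T hT => hcomm s (fixing_anti hMN hs) t (fixing_anti hMN ht) T hT)
            (fun T hT hf => hbad V hv T hT fun s hs hi => hf s (fixing_anti (hNK.trans hKL) hs) hi) c hc hpc
        left
        refine ⟨fun s _ hI P hP => ?_, fun T hT hf => ?_⟩
        · exact red_fix (W₀⁄F) V (good_below W₀ M V v hv hΔ) p (val_below M V v hv p hpv) s hI P hP
        · refine fix_up (acR (W₀⁄F)) p hp hfin (L.fixingSubgroup ⊓ decS F V)
            (M.fixingSubgroup ⊓ decS F V) ?_ ?_ k ?_ ?_ T hT ?_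
          · exact inf_le_inf_right _ fun s hs => fixing_anti hL.le hs
          · intro s hs t ht
            exact ⟨hconj s hs.1 t ht.1,
              (decS F V).mul_mem ((decS F V).mul_mem hs.2 ht.2) ((decS F V).inv_mem hs.2)⟩
          · intro s hs
            exact ⟨hk s hs.1, (decS F V).pow_mem hs.2 _⟩
          · intro T' hT' hf'
            exact fix_local W₀ p hp M V v hv hΔ hpv hc T' hT' fun s hs hd => hf' s ⟨hs, hd⟩
          · intro s hs
            exact hf s (fixing_anti (hNK.trans hKL) hs.1) hs.2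
      · left
        intro s hs hI
        refine fixing_anti hKL (inert_mem M L hL.le hL.norm V ?_ s (fixing_anti hMN hs) hI)
        intro v' hv' hr'
        apply hr
        have : v' = v := by
          apply HeightOneSpectrum.ext
          ext x
          rw [hv' x, hv x]
        rwa [← this]
    · left
      intro s _ hI
      rw [htriv s hI]
      exact one_mem _

end H55K.NB
end

-- from Lib.H55W.CL1
section

/-! # H55W, part CL: the imaginary quadratic fields of class number one (elementary part of the classification) -/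

open NumberField IsDedekindDomain

namespace H55W

open H55P (IQ embF eF Nm)
open H55K (cj)

/-- θ is a square root of -d in the integers of F, d a squarefree natural number, d > 0. -/
structure TH {F : Type} [Field F] [NumberField F] (θ : 𝓞 F) (d : ℕ) : Prop where
  sq : θ ^ 2 = -(d : 𝓞 F)
  sf : Squarefree d
  pos : 0 < d

variable {F : Type} [Field F] [NumberField F] [IQ F] {θ : 𝓞 F} {d : ℕ}

theorem cl1_int {x : 𝓞 F} {q : ℚ} (h : algebraMap ℚ F q = (x : F)) : ∃ n : ℤ, x = (n : 𝓞 F) := by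
  have h2 : IsIntegral ℤ q := by
    rw [← isIntegral_algebraMap_iff (algebraMap ℚ F).injective, h]
    exact x.2
  obtain ⟨m, hm⟩ := IsIntegrallyClosed.isIntegral_iff.1 h2
  refine ⟨m, ?_⟩
  apply RingOfIntegers.ext
  rw [← h, ← hm]
  simp

theorem cl1_emb (x : 𝓞 F) : embF F (x : F) = eF F x := rfl

/-- Chunk CL1 (S/M). x fixed by cj: x is rational (e.g. eF x real; F of degree 2 over ℚ with a non-real element: 1, θ a basis; or the fixed field of the nontrivial automorphism (H55K.d1_sigma, IsGalois) is ℚ) and integral over ℤ: an integer (IsIntegrallyClosed ℤ). -/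
theorem int_of_cj {x : 𝓞 F} (h : cj x = x) : ∃ n : ℤ, x = (n : 𝓞 F) := by
  obtain ⟨σ, hσ⟩ := H55K.d1_sigma F
  have hq : Algebra.IsQuadraticExtension ℚ F := ⟨IQ.deg⟩
  have hG : IsGalois ℚ F := inferInstance
  have hx : embF F (σ (x : F)) = embF F (x : F) := by
    rw [hσ, cl1_emb, ← H55K.e_cj, h]
  have hfix : ∀ g : F ≃ₐ[ℚ] F, g (x : F) = (x : F) := by
    intro g
    by_cases hg : (embF F).comp (g : F →+* F) = embF F
    · apply (embF F).injective
      exact RingHom.congr_fun hg (x : F)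
    · have hs : (embF F).comp (σ : F →+* F) ≠ embF F := by
        intro h1
        apply H55K.d1_conj_ne F
        ext y
        have h2 := RingHom.congr_fun h1 y
        have h3 : (embF F).comp (σ : F →+* F) y = (starRingEnd ℂ) (embF F y) := hσ y
        rw [RingHom.comp_apply, ← h3, h2]
      have h1 := H55K.d1_emb F _ _ hg hs
      apply (embF F).injective
      have h2 := RingHom.congr_fun h1 (x : F)
      have h3 : embF F (g (x : F)) = embF F (σ (x : F)) := h2
      rw [h3, hx]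
  obtain ⟨q, hq'⟩ := (IsGalois.mem_range_algebraMap_iff_fixed (F := ℚ) (x : F)).2 hfix
  exact cl1_int hq'

/-- Chunk CL1 (M). x in 𝓞 F with eF x not real (H55P.F0_im). t = x + cj x and N = x cj x are integers (int_of_cj, cj_cj), y = 2x - t satisfies y^2 = t^2 - 4N =: -D, D > 0 because y is purely imaginary, not 0 (eF (y^2) = - |..|^2). D = k^2 d with d squarefree (Nat.sq_mul_squarefree), θ = y/k in F, θ^2 = -d: integral over ℤ, so in 𝓞 F. -/
theorem exists_TH (F : Type) [Field F] [NumberField F] [IQ F] : ∃ (θ : 𝓞 F) (d : ℕ), TH θ d := by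
  obtain ⟨x, hx⟩ := H55P.F0_im (F := F)
  obtain ⟨T, hT⟩ := int_of_cj (x := x + cj x) (by rw [map_add, H55K.cj_cj, add_comm])
  have hN := H55K.mul_cj x
  have hy : (x - cj x) ^ 2 = ((T ^ 2 - 4 * (Nm x : ℕ) : ℤ) : 𝓞 F) := by
    push_cast
    rw [← hT, ← hN]
    ring
  have hD : 0 < 4 * ((Nm x : ℕ) : ℤ) - T ^ 2 := by
    have h1 := congrArg (eF F) hy
    rw [map_pow, map_sub, H55K.e_cj, map_intCast] at h1
    have h2 := congrArg Complex.re h1
    rw [Complex.intCast_re] at h2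
    have h3 : ((eF F x - (starRingEnd ℂ) (eF F x)) ^ 2).re = -(4 * (eF F x).im ^ 2) := by
      simp [pow_two, Complex.mul_re]
      ring
    rw [h3] at h2
    have h4 : 0 < (eF F x).im ^ 2 := by positivity
    have h5 : ((T ^ 2 - 4 * ((Nm x : ℕ) : ℤ) : ℤ) : ℝ) < 0 := by
      rw [← h2]
      linarith
    have h6 : T ^ 2 - 4 * ((Nm x : ℕ) : ℤ) < 0 := by exact_mod_cast h5
    linarith
  obtain ⟨D, hDD⟩ : ∃ D : ℕ, (D : ℤ) = 4 * ((Nm x : ℕ) : ℤ) - T ^ 2 := ⟨_, Int.toNat_of_nonneg hD.le⟩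
  obtain ⟨d, k, hk, hd⟩ := Nat.sq_mul_squarefree D
  have hD0 : 0 < D := by omega
  have hk0 : k ≠ 0 := by
    rintro rfl
    rw [← hk] at hD0
    simp at hD0
  have hd0 : 0 < d := by
    rcases Nat.eq_zero_or_pos d with h1 | h1
    · rw [h1, mul_zero] at hk
      omega
    · exact h1
  have hkF : (k : F) ≠ 0 := by exact_mod_cast hk0
  have hyF : ((x : F) - (cj x : 𝓞 F)) ^ 2 = -((k : F) ^ 2 * d) := by
    have h1 : (((x - cj x) ^ 2 : 𝓞 F) : F) = (((T ^ 2 - 4 * (Nm x : ℕ) : ℤ) : 𝓞 F) : F) := by rw [hy]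
    have h2 : (T ^ 2 - 4 * (Nm x : ℕ) : ℤ) = -((k ^ 2 * d : ℕ) : ℤ) := by
      rw [hk, hDD]
      ring
    rw [h2] at h1
    push_cast at h1
    exact h1
  have hsq : (((x : F) - (cj x : 𝓞 F)) / k) ^ 2 = -(d : F) := by
    rw [div_pow, hyF]
    field_simp
  have hint : IsIntegral ℤ (((x : F) - (cj x : 𝓞 F)) / k) := by
    refine IsIntegral.of_pow (n := 2) (by norm_num) ?_
    rw [hsq]
    have h1 : (-(d : F)) = algebraMap ℤ F (-(d : ℤ)) := by simp
    rw [h1]
    exact isIntegral_algebraMap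
  refine ⟨⟨((x : F) - (cj x : 𝓞 F)) / k, hint⟩, d, ⟨?_, hd, hd0⟩⟩
  apply RingOfIntegers.ext
  push_cast
  exact hsq

/-- Chunk CL1 (S). (cj θ)^2 = θ^2; cj θ = θ would make θ a rational integer with negative square (int_of_cj). -/
theorem th_cj (h : TH θ d) : cj θ = -θ := by
  have h1 : (cj θ) ^ 2 = θ ^ 2 := by
    rw [← map_pow, h.sq, map_neg, H55K.cj_nat]
  rcases sq_eq_sq_iff_eq_or_eq_neg.1 h1 with h2 | h2
  · exfalso
    obtain ⟨n, hn⟩ := int_of_cj h2
    have h3 := h.sq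
    rw [hn] at h3
    have h4 : n ^ 2 = -(d : ℤ) := by
      apply Int.cast_injective (α := 𝓞 F)
      push_cast
      exact h3
    have h5 := h.pos
    nlinarith [sq_nonneg n]
  · exact h2

end H55W
end
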