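import Mathlib
import Pool.Agent.Lib.H1M.PP2.D_H13Z_TR
import Pool.Agent.Lib.H1M.PP2.D_H28T_Defs
import Pool.Agent.Lib.H1M.PP2.D_H55C_Defs
import Pool.Agent.Lib.H1M.PP2.D_H55P_Sel
import Pool.Agent.Lib.H1M.PP2.D_H55P_Z10
import Pool.Agent.Lib.H1M.PP2.M005
import Pool.Agent.Lib.H1M.PP2.M010
import Pool.Agent.Lib.H1M.PP2.M016
import Pool.Agent.Lib.H1M.PP2.M020
import Pool.Agent.Lib.H1M.PP2.M021
import Pool.Agent.Lib.H1M.PP2.M031
import Pool.Agent.Lib.H1M.PP2.M032
import Pool.Agent.Lib.H1M.PP2.M040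
import Pool.Agent.Lib.H1M.PP2.M041
import Pool.Agent.Lib.H1M.PP2.M046
import Pool.Agent.Lib.H1M.PP2.M048
import Pool.Agent.Lib.H1M.PP2.M052
import Pool.Agent.Lib.H1M.PP2.M054
import Pool.Agent.Lib.H1M.PP2.M058
import Pool.Agent.Lib.H1M.PP2.M059
import Pool.Agent.Lib.H1M.PP2.M062
import Pool.Agent.Lib.H1M.PP2.M074
import Pool.Agent.Lib.H1M.PP2.M080
import Pool.Agent.Lib.H1M.PP2.M081
import Pool.Agent.Lib.H1M.PP2.M083
import Pool.Agent.Lib.H1M.PP2.M086

/-! Merged copies (to shorten the build) of Lib.H13D.H1, Lib.H55W.L8C, Lib.H55W.F8, Lib.H13N.G1, Lib.H13N.G3, Lib.H28T.AR1, Lib.H28T.AR3, Lib.H28T.W1, Lib.H28T.W14, Lib.H55K.Y7C, Lib.H55K.Y7D, Lib.H55W.L8D, Lib.H55W.L8F, Lib.H13Y.D1, Lib.H28T.W7, Lib.H28T.W21, Lib.H28T.W8, Lib.H28T.W6, Lib.H13Y.D2, Lib.H55K.NK1, Lib.H13Z.CZ1. -/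

-- from Lib.H13D.H1
section

/-! # H13D, part H: norms and congruences -/

open NumberField IsDedekindDomain WeierstrassCurve

namespace H13D

open H55P (IQ embF eF LF Per IsHecke Pt ac Inert Dec Nm)
open H55K

variable {F : Type} [Field F] [NumberField F] [IQ F]

/-- Chunk H1 (S). If n = N c in 𝓞 F then Nm n = n^2 = N^2 Nm c (Nm_mul, Nm of an integer is its square: mul_cj, cj_int), so N^2 divides n^2 and N divides n. -/
theorem dvd_int (N : ℕ) (n : ℤ) (h : (N : 𝓞 F) ∣ (n : 𝓞 F)) : (N : ℤ) ∣ n := by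
  have h1 : (N : 𝓞 F) ∣ ((n.natAbs : ℕ) : 𝓞 F) := by
    rcases Int.natAbs_eq n with h2 | h2
    · rw [h2, Int.cast_natCast] at h
      exact h
    · rw [h2, Int.cast_neg, Int.cast_natCast] at h
      exact (dvd_neg.1 h)
  obtain ⟨c, hc⟩ := h1
  have h2 := congrArg Nm hc
  rw [Nm_mul, Nm_nat, Nm_nat] at h2
  have h3 : N ^ 2 ∣ n.natAbs ^ 2 := ⟨_, h2⟩
  have h4 : N ∣ n.natAbs := (Nat.pow_dvd_pow_iff two_ne_zero).1 h3
  exact Int.natCast_dvd.2 h4

/-- Chunk H1 (S/M). Ideal.isCoprime_span_singleton_iff, IsCoprime.pow_right_iff: the left side says a x + b N = 1. If so, multiply with the conjugate equation (cj a) (cj x) + (cj b) N = 1: a (cj a) Nm x = 1 + N (..) (mul_cj), so a prime p dividing Nm x and N divides 1 in 𝓞 F: contradiction (dvd_int). Conversely u Nm x + w N = 1 with integers u, w and Nm x = x cj x. -/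
theorem cop_iff (N : ℕ) (x : 𝓞 F) : IsCoprime (Ideal.span {x}) (Ideal.span {(N : 𝓞 F) ^ 3}) ↔ (Nm x).Coprime N := by
  rw [Ideal.isCoprime_span_singleton_iff, IsCoprime.pow_right_iff (by norm_num)]
  constructor
  · rintro ⟨a, b, hab⟩
    have h1 := congrArg cj hab
    rw [map_add, map_mul, map_mul, map_natCast, map_one] at h1
    have h2 := mul_cj x
    have h3 : (1 : 𝓞 F) = a * cj a * (Nm x : 𝓞 F) + (N : 𝓞 F) * (b + cj b - b * cj b * N) := by
      rw [← h2]
      linear_combination (-(cj a * cj x)) * hab - (1 - b * N) * h1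
    have h4 : ((Nat.gcd (Nm x) N : ℕ) : 𝓞 F) ∣ ((1 : ℤ) : 𝓞 F) := by
      rw [Int.cast_one, h3]
      refine dvd_add (Dvd.dvd.mul_left ?_ _) (Dvd.dvd.mul_right ?_ _)
      · exact Nat.cast_dvd_cast (Nat.gcd_dvd_left _ _)
      · exact Nat.cast_dvd_cast (Nat.gcd_dvd_right _ _)
    have h5 := dvd_int _ _ h4
    have h6 : Nat.gcd (Nm x) N ∣ 1 := by exact_mod_cast h5
    exact Nat.dvd_one.1 h6
  · intro h
    have h1 : IsCoprime ((Nm x : ℕ) : ℤ) (N : ℤ) := Nat.isCoprime_iff_coprime.2 h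
    obtain ⟨u, w, huw⟩ := h1
    have h2 := congrArg (fun k : ℤ => (k : 𝓞 F)) huw
    simp only [Int.cast_add, Int.cast_mul, Int.cast_natCast, Int.cast_one] at h2
    rw [← mul_cj x] at h2
    exact ⟨u * cj x, w, by linear_combination h2⟩

/-- Chunk H1 (S/M). Nm x - Nm y = x cj x - y cj y (mul_cj); x - y is divisible by N^3 and so is cj x - cj y: dvd_int for N^3 (Nat.modEq_iff_dvd). -/
theorem Nm_congr (N : ℕ) {x y : 𝓞 F} (h : x - y ∈ Ideal.span {(N : 𝓞 F) ^ 3}) : Nm x ≡ Nm y [MOD N ^ 3] := by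
  rw [Nat.modEq_iff_dvd]
  apply dvd_int (F := F)
  obtain ⟨c, hc⟩ := Ideal.mem_span_singleton.1 h
  have h1 := congrArg cj hc
  rw [map_sub, map_mul, map_pow, map_natCast] at h1
  have h2 := mul_cj x
  have h3 := mul_cj y
  refine ⟨-(x * cj c + c * cj y), ?_⟩
  push_cast
  linear_combination h2 - h3 - x * h1 - cj y * hc

end H13D
end

-- from Lib.H55W.L8C
section

/-! # H55W, part L: the integers a + b sqrt(-2) -/

open NumberField IsDedekindDomain

namespace H55W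

open H55P (IQ embF eF Nm)
open H55K (cj)

variable {F : Type} [Field F] [NumberField F] [IQ F] {φ : 𝓞 F}

/-- Chunk L8C (M). The sign character. ε x = 1 if 2φ | x - kap (Nm x), -1 otherwise (classical). mul: kap_mul, ti_kap, kap_ne, Nm_mul. per: ti_per, x - y divisible by 8 (so by 2φ: 8 = 2φ (-2φ)). neg: Nm (-x) = Nm x. -/
theorem exists_eps (h : TI φ) : ∃ ε : 𝓞 F → 𝓞 F, (∀ x, ¬ φ ∣ x → (ε x = 1 ∨ ε x = -1) ∧ 2 * φ ∣ ε x * x - kap φ (Nm x)) ∧
    (∀ x y, ¬ φ ∣ x → ¬ φ ∣ y → ε (x * y) = ε x * ε y) ∧ (∀ x, ¬ φ ∣ x → ε (-x) = -ε x) ∧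
    (∀ x y, ¬ φ ∣ x → ¬ φ ∣ y → (8 : 𝓞 F) ∣ x - y → ε x = ε y) ∧
    ∀ x η, ¬ φ ∣ x → (η = 1 ∨ η = -1) → 2 * φ ∣ x - η * kap φ (Nm x) → ε x = η := by
  classical
  obtain ⟨ε, hε⟩ : ∃ ε : 𝓞 F → 𝓞 F, ε = fun x => if 2 * φ ∣ x - kap φ (Nm x) then 1 else -1 := ⟨_, rfl⟩
  have e1 : ∀ x, 2 * φ ∣ x - kap φ (Nm x) → ε x = 1 := by
    intro x hx
    rw [hε]
    exact if_pos hx
  have e2 : ∀ x, ¬ 2 * φ ∣ x - kap φ (Nm x) → ε x = -1 := by
    intro x hx
    rw [hε]
    exact if_neg hx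
  have e3 : ∀ x, ε x = 1 ∨ ε x = -1 := by
    intro x
    by_cases hx : 2 * φ ∣ x - kap φ (Nm x)
    · exact Or.inl (e1 x hx)
    · exact Or.inr (e2 x hx)
  have e4 : ∀ x η, (η = 1 ∨ η = -1) → 2 * φ ∣ x - η * kap φ (Nm x) → ε x = η := by
    rintro x η (rfl | rfl) hx
    · rw [one_mul] at hx
      exact e1 x hx
    · refine e2 x fun h1 => ?_
      have h2 : x - -1 * kap φ (Nm x) = x + kap φ (Nm x) := by ring
      rw [h2] at hx
      exact kap_ne h h1 hx
  have e5 : ∀ x, ¬ φ ∣ x → 2 * φ ∣ x - ε x * kap φ (Nm x) := by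
    intro x hx
    rcases (ti_kap h hx).2 with h1 | h1
    · rw [e1 x h1, one_mul]
      exact h1
    · have h2 : ¬ 2 * φ ∣ x - kap φ (Nm x) := fun h3 => kap_ne h h3 h1
      rw [e2 x h2]
      have h3 : x - -1 * kap φ (Nm x) = x + kap φ (Nm x) := by ring
      rw [h3]
      exact h1
  have e6 : ∀ x, ε x * ε x = 1 := by
    intro x
    rcases e3 x with h1 | h1 <;> rw [h1] <;> ring
  refine ⟨ε, fun x hx => ⟨e3 x, ?_⟩, ?_, ?_, ?_, fun x η _ hη h1 => e4 x η hη h1⟩
  · have h1 : ε x * x - kap φ (Nm x) = ε x * (x - ε x * kap φ (Nm x)) := by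
      linear_combination (kap φ (Nm x)) * e6 x
    rw [h1]
    exact (e5 x hx).mul_left _
  · intro x y hx hy
    refine e4 _ _ ?_ ?_
    · rcases e3 x with h1 | h1 <;> rcases e3 y with h2 | h2 <;> rw [h1, h2] <;> simp
    · rw [H55K.Nm_mul]
      obtain ⟨z, hz⟩ := e5 x hx
      obtain ⟨z', hz'⟩ := e5 y hy
      obtain ⟨z'', hz''⟩ := (kap_mul h (ti_kap h hx).1 (ti_kap h hy).1).2
      refine ⟨z * y + ε x * kap φ (Nm x) * z' + ε x * ε y * z'', ?_⟩
      linear_combination y * hz + ε x * kap φ (Nm x) * hz' + ε x * ε y * hz''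
  · intro x hx
    have hN : Nm (-x) = Nm x := by
      unfold Nm
      rw [Ideal.span_singleton_neg]
    refine e4 _ _ ?_ ?_
    · rcases e3 x with h1 | h1 <;> rw [h1] <;> simp
    · rw [hN]
      have h1 : -x - -ε x * kap φ (Nm x) = -(x - ε x * kap φ (Nm x)) := by ring
      rw [h1]
      exact (e5 x hx).neg_right
  · intro x y hx hy hxy
    refine e4 _ _ (e3 y) ?_
    have h1 : kap φ (Nm x) = kap φ (Nm y) := by
      unfold kap
      rw [ti_per h hxy]
    rw [h1]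
    obtain ⟨z, hz⟩ := hxy
    obtain ⟨z', hz'⟩ := e5 y hy
    refine ⟨-2 * φ * z + z', ?_⟩
    linear_combination hz + hz' + 4 * z * h.sq

end H55W
end

-- from Lib.H55W.F8
section

/-! # H55W, part F: the function defining the Hecke character, discriminant -8 -/

open NumberField IsDedekindDomain

namespace H55W

open H55P (IQ embF eF Nm)
open H55K (cj)

variable {F : Type} [Field F] [NumberField F] [IQ F] {φ : 𝓞 F}

omit [NumberField F] [IQ F] in
theorem f8_cop {x : 𝓞 F} {D : ℤ} {c : 𝓞 F} {j : ℕ} (hc : c ∣ ((D : ℤ) : 𝓞 F) ^ j)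
    (hx : IsCoprime (Ideal.span {x}) (Ideal.span {((D : ℤ) : 𝓞 F) ^ 3})) : IsCoprime x c := by
  rw [Ideal.isCoprime_span_singleton_iff] at hx
  have h1 : IsCoprime x ((D : ℤ) : 𝓞 F) := (IsCoprime.pow_right_iff (by norm_num)).1 hx
  exact (h1.pow_right (n := j)).of_isCoprime_of_dvd_right hc

omit [IQ F] in
theorem f8_pc {γ a : 𝓞 F} (hγ : Prime γ) (h : ¬ γ ∣ a) : IsCoprime γ a := by
  have hp : (Ideal.span {γ}).IsPrime := (Ideal.span_singleton_prime hγ.ne_zero).2 hγ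
  have hm : (Ideal.span {γ}).IsMaximal := hp.isMaximal (by
    rw [Ne, Ideal.span_singleton_eq_bot]
    exact hγ.ne_zero)
  obtain ⟨y, i, hi, hyi⟩ := hm.exists_inv (x := a) (by rwa [Ideal.mem_span_singleton])
  obtain ⟨z, rfl⟩ := Ideal.mem_span_singleton.1 hi
  exact ⟨z, y, by rw [← hyi]; ring⟩

omit [NumberField F] [IQ F] in
theorem f8_uc {u c : 𝓞 F} (hu : IsUnit u) : IsCoprime u c := by
  obtain ⟨v, hv⟩ := hu.exists_left_inv
  exact ⟨v, 0, by rw [hv]; ring⟩

omit [IQ F] in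
theorem f8_two (hφ : TI φ) : φ ∣ 2 := ⟨-φ, by linear_combination hφ.sq⟩

theorem f8_nu (hφ : TI φ) : ¬ IsUnit φ := by
  intro hu
  have h1 := nm_unit hu
  have h2 := (ti_nm hφ 0 1).2
  have h3 : ((0 : ℤ) : 𝓞 F) + ((1 : ℤ) : 𝓞 F) * φ = φ := by push_cast; ring
  rw [h3, h1] at h2
  norm_num at h2

/-- Chunk F8 (M). ε from exists_eps, κ from quad_any for n (c = 2n, k = 8n); f x = ε x * κ x. 8D = n^6, D even (h2): n = 2n', D = 8n'^6. x prime to M is prime to D, so to 2, to φ (φ does not divide x: φ divides 2; φ is not a unit, ti_nm), to 2n (2n divides 4 n'.. divides D^j). Elements of M are divisible by 8 and by 8n = 16 n' (D^3 = 512 n'^18). inv: units are 1, -1 (ti_unit): ε (-x) (-1) = ε x; κ (u x) = κ x (PRC.unit).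
The last statement: γ a prime, N = Nm γ (nm_card): ε γ = η (exists_eps), κ γ = η: γ divides n^((N-1)/2) - κ γ (PRC.euler: γ does not divide 2n and 2) and n^((N-1)/2) - η, both are 1 or -1, γ does not divide 2. f γ = η η = 1. -/
theorem exists_f8 (hφ : TI φ) {n : ℤ} (h0 : n ≠ 0) {D : ℤ} (hD : 8 * D = n ^ 6) (h2 : D % 2 = 0) :
    ∃ f : 𝓞 F → 𝓞 F, HF (Ideal.span {((D : ℤ) : 𝓞 F) ^ 3}) f ∧ ∀ γ η : 𝓞 F, Prime γ → ¬ γ ∣ ((D : ℤ) : 𝓞 F) → (η = 1 ∨ η = -1) →
      2 * φ ∣ γ - η * kap φ (Nm γ) → γ ∣ (n : 𝓞 F) ^ ((Nm γ - 1) / 2) - η → f γ = 1 := by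
  obtain ⟨m, rfl⟩ : ∃ m, n = 2 * m := by
    have h1 : Even (n ^ 6) := by
      rw [← hD]
      exact ⟨4 * D, by ring⟩
    rw [Int.even_pow' (by norm_num)] at h1
    obtain ⟨m, hm⟩ := h1
    exact ⟨m, by rw [hm]; ring⟩
  have hD' : D = 8 * m ^ 6 := by
    have : 8 * D = 8 * (8 * m ^ 6) := by rw [hD]; ring
    linarith
  have hDc : ((D : ℤ) : 𝓞 F) = 8 * (m : 𝓞 F) ^ 6 := by rw [hD']; push_cast; ring
  obtain ⟨ε, e1, e2, e3, e4, e5⟩ := exists_eps hφ
  obtain ⟨κ, hκ, hκ1⟩ := quad_any (F := F) h0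
  -- coprimality
  have c1 : ((2 * (2 * m) : ℤ) : 𝓞 F) ∣ ((D : ℤ) : 𝓞 F) ^ 1 := by
    rw [hDc]
    exact ⟨2 * (m : 𝓞 F) ^ 5, by push_cast; ring⟩
  have d2 : (2 : 𝓞 F) ∣ ((D : ℤ) : 𝓞 F) ^ 1 := by
    rw [hDc]
    exact ⟨4 * (m : 𝓞 F) ^ 6, by ring⟩
  have c2 : φ ∣ ((D : ℤ) : 𝓞 F) ^ 1 := (f8_two hφ).trans d2
  have c3 : ∀ x : 𝓞 F, IsCoprime x φ → ¬ φ ∣ x := by
    intro x hx hd
    exact f8_nu hφ (hx.isUnit_of_dvd' hd dvd_rfl)
  have k1 : ∀ z : 𝓞 F, z ∈ Ideal.span {((D : ℤ) : 𝓞 F) ^ 3} → (8 : 𝓞 F) ∣ z ∧ ((8 * (2 * m) : ℤ) : 𝓞 F) ∣ z := by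
    intro z hz
    rw [Ideal.mem_span_singleton] at hz
    constructor
    · refine dvd_trans ?_ hz
      rw [hDc]
      exact ⟨64 * (m : 𝓞 F) ^ 18, by ring⟩
    · refine dvd_trans ?_ hz
      rw [hDc]
      exact ⟨32 * (m : 𝓞 F) ^ 17, by push_cast; ring⟩
  refine ⟨fun x => ε x * κ x, ⟨?_, ?_, ?_, ?_⟩, ?_⟩
  · intro x hx
    have g1 := (e1 x (c3 x (f8_cop c2 hx))).1
    have g2 := hκ1 x (f8_cop c1 hx)
    refine IsUnit.mul ?_ ?_
    · rcases g1 with g | g <;> rw [g]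
      · exact isUnit_one
      · exact isUnit_one.neg
    · rcases g2 with g | g <;> rw [g]
      · exact isUnit_one
      · exact isUnit_one.neg
  · intro x y hx hy
    show ε (x * y) * κ (x * y) = ε x * κ x * (ε y * κ y)
    rw [e2 x y (c3 x (f8_cop c2 hx)) (c3 y (f8_cop c2 hy)), hκ.mul x y (f8_cop c1 hx) (f8_cop c1 hy)]
    ring
  · intro u x hu hx
    show ε (u * x) * κ (u * x) * u = ε x * κ x
    have g1 : κ (u * x) = κ x := by
      rw [hκ.mul u x (f8_uc hu) (f8_cop c1 hx), hκ.unit u hu, one_mul]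
    rw [g1]
    rcases ti_unit hφ hu with rfl | rfl
    · rw [one_mul, mul_one]
    · rw [neg_one_mul, e3 x (c3 x (f8_cop c2 hx))]
      ring
  · intro x y hx hy hxy
    show ε x * κ x = ε y * κ y
    obtain ⟨g1, g2⟩ := k1 _ hxy
    rw [e4 x y (c3 x (f8_cop c2 hx)) (c3 y (f8_cop c2 hy)) g1, hκ.per x y (f8_cop c1 hx) (f8_cop c1 hy) g2]
  · intro γ η hγ hγD hη h1 h2'
    show ε γ * κ γ = 1
    have gD : IsCoprime γ (((D : ℤ) : 𝓞 F) ^ 1) := f8_pc hγ (by rwa [pow_one])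
    have g2 : ¬ γ ∣ 2 := fun h => hγD (by rw [← pow_one ((D : ℤ) : 𝓞 F)]; exact h.trans d2)
    have gc : ¬ γ ∣ ((2 * (2 * m) : ℤ) : 𝓞 F) := fun h => hγD (by rw [← pow_one ((D : ℤ) : 𝓞 F)]; exact h.trans c1)
    have gφ : ¬ φ ∣ γ := c3 γ (gD.of_isCoprime_of_dvd_right c2)
    have he : ε γ = η := e5 γ η gφ hη h1
    have hk := hκ.euler γ hγ gc (by rw [Nat.cast_ofNat]; exact g2)
    rw [nm_card] at hk
    have hd : γ ∣ κ γ - η := by
      have := dvd_sub h2' hk
      have e : (((2 * m : ℤ) : 𝓞 F) ^ ((Nm γ - 1) / 2) - η) - (((2 * m : ℤ) : 𝓞 F) ^ ((Nm γ - 1) / 2) - κ γ) = κ γ - η := by ring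
      rwa [e] at this
    have hkη : κ γ = η := by
      rcases hκ1 γ (gD.of_isCoprime_of_dvd_right c1) with g | g <;> rcases hη with rfl | rfl
      · exact g
      · rw [g] at hd
        have e : (1 : 𝓞 F) - -1 = 2 := by ring
        rw [e] at hd
        exact absurd hd g2
      · rw [g] at hd
        have e : (-1 : 𝓞 F) - 1 = -2 := by ring
        rw [e, dvd_neg] at hd
        exact absurd hd g2
      · exact g
    rw [he, hkη]
    rcases hη with rfl | rfl <;> ring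

end H55W
end

-- from Lib.H13N.G1
section

open NumberField IsDedekindDomain

namespace H13N

open H55B H35T




theorem g1_aux {k L N : Type} [Field k] [Field L] [Field N] [Algebra k L] [Algebra k N]
    [Algebra L N] [IsScalarTower k L N] [Normal k L] (a : N ≃ₐ[k] N) :
    ∃ α : L ≃ₐ[k] L, ∀ x : L, a (algebraMap L N x) = algebraMap L N (α x) :=
  ⟨a.restrictNormal L, fun x => (AlgEquiv.restrictNormal_commutes a L x).symm⟩



end H13N
end

-- from Lib.H13N.G3
section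

open NumberField IsDedekindDomain

namespace H13N

open H55B H35T

/-! Chunk G3 (M): existence of the Galois closure. -/

theorem g3_closure (L : Type) [Field L] [NumberField L] :
    ∃ (N : Type) (_ : Field N) (_ : NumberField N) (_ : Algebra L N), IsGalois ℚ N ∧
      ∀ g : N ≃ₐ[ℚ] N, (∀ (τ : L →+* N) (x : L), g (τ x) = τ x) → g = 1 := by
  have h1 : Algebra.IsAlgebraic ℚ (AlgebraicClosure L) :=
    Algebra.IsAlgebraic.trans ℚ L (AlgebraicClosure L)
  have h2 : IsAlgClosure ℚ (AlgebraicClosure L) := ⟨inferInstance, inferInstance⟩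
  have h3 : Normal ℚ (AlgebraicClosure L) := IsAlgClosure.normal ℚ (AlgebraicClosure L)
  have h0 : Nonempty (L →ₐ[ℚ] AlgebraicClosure L) := ⟨IsScalarTower.toAlgHom ℚ L _⟩
  let N := IntermediateField.normalClosure ℚ L (AlgebraicClosure L)
  have h4 : FiniteDimensional ℚ N := normalClosure.is_finiteDimensional ℚ L _
  have h5 : NumberField N := NumberField.of_module_finite ℚ N
  have h6 : Normal ℚ N := normalClosure.normal ℚ L _
  have h7 : IsGalois ℚ N := ⟨⟩
  refine ⟨N, inferInstance, h5, normalClosure.algebra ℚ L _, ?_, ?_⟩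
  · convert h7
  · intro g hg
    have h8 : IsNormalClosure ℚ L N := isNormalClosure_normalClosure ℚ L _
    have h9 := (Algebra.IsAlgebraic.isNormalClosure_iff.1 h8).2
    rw [normalClosure_def] at h9
    have hgq : ∀ q : ℚ, g (algebraMap ℚ N q) = algebraMap ℚ N q := fun q => by
      rw [eq_ratCast, map_ratCast]
    let R : IntermediateField ℚ N :=
      { carrier := {x | g x = x}
        mul_mem' := fun {a b} ha hb => by
          show g (a * b) = a * b
          rw [map_mul, show g a = a from ha, show g b = b from hb]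
        one_mem' := map_one g
        add_mem' := fun {a b} ha hb => by
          show g (a + b) = a + b
          rw [map_add, show g a = a from ha, show g b = b from hb]
        zero_mem' := map_zero g
        algebraMap_mem' := hgq
        inv_mem' := fun a ha => by
          show g a⁻¹ = a⁻¹
          rw [map_inv₀, show g a = a from ha] }
    have h10 : (⨆ f : L →ₐ[ℚ] N, f.fieldRange) ≤ R := by
      refine iSup_le fun f => ?_
      rintro _ ⟨x, rfl⟩
      exact hg (f : L →+* N) x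
    ext x
    have hx : x ∈ R := h10 (by rw [h9]; exact IntermediateField.mem_top)
    exact congrArg Subtype.val (show g x = x from hx)


end H13N
end

-- from Lib.H28T.AR1
section

open NumberField IsDedekindDomain

namespace H28T

open H55P
open H55K

variable {F : Type} [Field F] [NumberField F] [IQ F]

/-- Chunk AR1 (S/M). Two embeddings of F in a number field N agree on the integers up to the conjugation cj. Take an embedding i : N →+* ℂ; i ∘ f and i ∘ g are among embF F and its conjugate (H55K.d1_emb, d1_conj_ne in H55K/D1.lean: all embeddings different from embF F agree, and the conjugate of embF F is one of them); e_cj. -/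
theorem ar1_two (N : Type) [Field N] [NumberField N] (f g : F →+* N) :
    (∀ x : F, g x = f x) ∨ ∀ x : 𝓞 F, g (x : F) = f ((cj x : 𝓞 F) : F) := by
  obtain ⟨i⟩ : Nonempty (N →+* ℂ) := inferInstance
  have key : ∀ φ : F →+* ℂ, φ = embF F ∨ φ = (starRingEnd ℂ).comp (embF F) := by
    intro φ
    by_cases h : φ = embF F
    · exact Or.inl h
    · exact Or.inr (d1_emb F φ _ h (d1_conj_ne F))
  have hcj : ∀ x : 𝓞 F, embF F ((cj x : 𝓞 F) : F) = (starRingEnd ℂ) (embF F (x : F)) := fun x => e_cj x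
  rcases key (i.comp f) with h1 | h1 <;> rcases key (i.comp g) with h2 | h2
  · left
    intro x
    apply i.injective
    exact RingHom.congr_fun (h2.trans h1.symm) x
  · right
    intro x
    apply i.injective
    have e1 : i (g (x : F)) = (starRingEnd ℂ) (embF F (x : F)) := RingHom.congr_fun h2 (x : F)
    have e2 : i (f ((cj x : 𝓞 F) : F)) = embF F ((cj x : 𝓞 F) : F) := RingHom.congr_fun h1 _
    rw [e1, e2, hcj]
  · right
    intro x
    apply i.injective
    have e1 : i (g (x : F)) = embF F (x : F) := RingHom.congr_fun h2 (x : F)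
    have e2 : i (f ((cj x : 𝓞 F) : F)) = (starRingEnd ℂ) (embF F ((cj x : 𝓞 F) : F)) :=
      RingHom.congr_fun h1 _
    rw [e1, e2, hcj, Complex.conj_conj]
  · left
    intro x
    apply i.injective
    exact RingHom.congr_fun (h2.trans h1.symm) x

theorem ar1_fix (N : Type) [Field N] [NumberField N] [Algebra F N] (a : N ≃ₐ[F] N) (j : F →+* N)
    (x : F) : a (j x) = j x := by
  rcases ar1_two N (algebraMap F N) j with h | h
  · rw [h]
    exact a.commutes _
  · obtain ⟨b, c, -, rfl⟩ := IsFractionRing.div_surjective (A := 𝓞 F) x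
    have hb : a (j (algebraMap (𝓞 F) F b)) = j (algebraMap (𝓞 F) F b) := by
      have := h b
      rw [show j (algebraMap (𝓞 F) F b) = algebraMap F N ((cj b : 𝓞 F) : F) from this]
      exact a.commutes _
    have hc : a (j (algebraMap (𝓞 F) F c)) = j (algebraMap (𝓞 F) F c) := by
      have := h c
      rw [show j (algebraMap (𝓞 F) F c) = algebraMap F N ((cj c : 𝓞 F) : F) from this]
      exact a.commutes _
    rw [map_div₀, map_div₀, hb, hc]

/-- Chunk AR1 (S/M), port of H13N.g1_restrict (H13N/G1.lean). a fixes the image of F under every embedding j : F →+* N (ar1_two for algebraMap F N and j; a fixes algebraMap F N; every element of F is a quotient of integers: or F is generated by integers: IsFractionRing / x = a / b with a, b in 𝓞 F). The rest is H13N.g1_aux. -/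
theorem ar1_restrict (L N : Type) [Field L] [NumberField L] [Algebra F L] [Field N] [NumberField N]
    [Algebra F N] (hG : IsGalois F L) (a : N ≃ₐ[F] N) (τ : L →+* N) :
    ∃ α : L ≃ₐ[F] L, ∀ x : L, a (τ x) = τ (α x) := by
  have hfix := fun x => ar1_fix N a (τ.comp (algebraMap F L)) x
  let iL : Algebra L N := τ.toAlgebra
  let iF : Algebra F N := (τ.comp (algebraMap F L)).toAlgebra
  have hT : @IsScalarTower F L N _ iL.toSMul iF.toSMul :=
    @IsScalarTower.of_algebraMap_eq F L N _ _ _ _ iL iF (fun x => rfl)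
  have hNm : Normal F L := inferInstance
  let a' : @AlgEquiv F N N _ _ _ iF iF :=
    @AlgEquiv.ofRingEquiv F N N _ _ _ iF iF (a : N ≃+* N) hfix
  exact @H13N.g1_aux F L N _ _ _ _ iF iL hT hNm a'

end H28T
end

-- from Lib.H28T.AR3
section

open NumberField IsDedekindDomain

namespace H28T

open H28R (SubQ)
open H55P H55R
open H55K

variable {F : Type} [Field F] [NumberField F] [IQ F] {G : HeightOneSpectrum (𝓞 F) → Prop}

theorem ar3_pow {p : ℕ} (hp : p.Prime) (L N : Type) [Field L] [NumberField L] [Algebra F L] [Field N]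
    [NumberField N] [Algebra F N] (hG : IsGalois F L) (k : ℕ) (hk : Module.finrank F L = p ^ k)
    (hN : IsGalois ℚ N) (hgen : ∀ g : N ≃ₐ[F] N, (∀ (τ : L →+* N) (x : L), g (τ x) = τ x) → g = 1) :
    ∃ m : ℕ, Module.finrank F N = p ^ m := by
  have hfp : Fact p.Prime := ⟨hp⟩
  have hNF : IsGalois F N := IsGalois.tower_top_of_isGalois ℚ F N
  have hpg : IsPGroup p (N ≃ₐ[F] N) := by
    intro a
    refine ⟨k, hgen _ ?_⟩
    intro τ x
    obtain ⟨α, hα⟩ := ar1_restrict L N hG a τ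
    have h1 : ∀ (n : ℕ) (x : L), (a ^ n) (τ x) = τ ((α ^ n) x) := by
      intro n
      induction n with
      | zero => intro x; simp
      | succ n ih =>
        intro x
        rw [pow_succ, pow_succ]
        show (a ^ n) (a (τ x)) = τ ((α ^ n) (α x))
        rw [hα, ih]
    have h2 : α ^ p ^ k = 1 := by
      rw [← hk, ← IsGalois.card_aut_eq_finrank F L]
      exact pow_card_eq_one'
    rw [h1, h2]
    rfl
  obtain ⟨m, hm⟩ := (IsPGroup.iff_card (p := p)).1 hpg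
  exact ⟨m, by rw [← IsGalois.card_aut_eq_finrank F N, hm]⟩

theorem ar3_unr
    (hcj : ∀ v v' : HeightOneSpectrum (𝓞 F), (∀ x : 𝓞 F, cj x ∈ v'.asIdeal ↔ x ∈ v.asIdeal) → G v → G v')
    (L N : Type) [Field L] [NumberField L] [Algebra F L] [Field N] [NumberField N]
    [Algebra F N] (hG : IsGalois F L)
    (hU : ∀ (w : HeightOneSpectrum (𝓞 L)) (v : HeightOneSpectrum (𝓞 F)), v.asIdeal = w.asIdeal.under (𝓞 F) →
      ¬ G v → w.asIdeal.ramificationIdx (𝓞 F) = 1) (hN : IsGalois ℚ N)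
    (hgen : ∀ g : N ≃ₐ[F] N, (∀ (τ : L →+* N) (x : L), g (τ x) = τ x) → g = 1)
    (P : HeightOneSpectrum (𝓞 N)) (v : HeightOneSpectrum (𝓞 F)) (hv : v.asIdeal = P.asIdeal.under (𝓞 F))
    (hng : ¬ G v) : P.asIdeal.ramificationIdx (𝓞 F) = 1 := by
  have hNF : IsGalois F N := IsGalois.tower_top_of_isGalois ℚ F N
  rw [← ge_card N hNF P, Subgroup.card_eq_one, eq_bot_iff]
  intro g hg
  rw [Subgroup.mem_bot]
  apply hgen
  intro τ x
  obtain ⟨α, hα⟩ := ar1_restrict L N hG g τ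
  suffices h1 : α = 1 by
    rw [hα, h1]
    rfl
  let t : 𝓞 L →+* 𝓞 N := RingOfIntegers.mapRingHom τ
  have ht : ∀ y : 𝓞 L, algebraMap (𝓞 N) N (t y) = τ (algebraMap (𝓞 L) L y) := fun y => rfl
  have hPp := P.isPrime
  have hne : P.asIdeal.comap t ≠ ⊥ := by
    intro h
    have hn : (Ideal.absNorm P.asIdeal : 𝓞 L) ∈ P.asIdeal.comap t := by
      rw [Ideal.mem_comap, map_natCast]
      exact Ideal.absNorm_mem _
    rw [h, Ideal.mem_bot, Nat.cast_eq_zero, Ideal.absNorm_eq_zero_iff] at hn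
    exact P.ne_bot hn
  let P' : HeightOneSpectrum (𝓞 L) := ⟨P.asIdeal.comap t, inferInstance, hne⟩
  have hP' : ∀ y, y ∈ P'.asIdeal ↔ t y ∈ P.asIdeal := fun y => Iff.rfl
  have hv'ne : P'.asIdeal.under (𝓞 F) ≠ ⊥ := Ideal.IsIntegral.comap_ne_bot _ P'.ne_bot
  have hP'p := P'.isPrime
  let v' : HeightOneSpectrum (𝓞 F) := ⟨P'.asIdeal.under (𝓞 F), inferInstance, hv'ne⟩
  have hv'm : ∀ y : 𝓞 F, y ∈ v'.asIdeal ↔ t (algebraMap (𝓞 F) (𝓞 L) y) ∈ P.asIdeal := fun y => Iff.rfl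
  have hvm : ∀ y : 𝓞 F, y ∈ v.asIdeal ↔ algebraMap (𝓞 F) (𝓞 N) y ∈ P.asIdeal := by
    intro y
    rw [hv, Ideal.under_def, Ideal.mem_comap]
  have hng' : ¬ G v' := by
    rcases ar1_two N (algebraMap F N) (τ.comp (algebraMap F L)) with h2 | h2
    · have h4 : ∀ y : 𝓞 F, t (algebraMap (𝓞 F) (𝓞 L) y) = algebraMap (𝓞 F) (𝓞 N) y := by
        intro y
        apply RingOfIntegers.ext
        exact h2 (y : F)
      have h5 : v' = v := by
        apply HeightOneSpectrum.ext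
        ext y
        rw [hv'm, hvm, h4]
      rw [h5]
      exact hng
    · have h4 : ∀ y : 𝓞 F, t (algebraMap (𝓞 F) (𝓞 L) y) = algebraMap (𝓞 F) (𝓞 N) (cj y) := by
        intro y
        apply RingOfIntegers.ext
        exact h2 y
      intro hgd
      refine hng (hcj v' v (fun x => ?_) hgd)
      rw [hv'm, hvm, h4]
  have h6 : P'.asIdeal.ramificationIdx (𝓞 F) = 1 := hU P' v' rfl hng'
  rw [← ge_card L hG P', Subgroup.card_eq_one] at h6
  have h7 : α ∈ P'.asIdeal.inertia (L ≃ₐ[F] L) := by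
    intro y
    show t (α • y - y) ∈ P.asIdeal
    have h8 : t (α • y - y) = g • t y - t y := by
      rw [map_sub]
      congr 1
      apply RingOfIntegers.ext
      exact (hα (y : L)).symm
    rw [h8]
    exact hg (t y)
  rw [h6, Subgroup.mem_bot] at h7
  exact h7

/-- Chunk AR3 (M), port of H28R.W17_unr, W17_pow, exists_galP (H28R/W17.lean): the Galois closure over the rationals is in the class. hcj is the stability under conjugation. ar1_restrict replaces H13N.g1_restrict, ar1_two replaces g1_two (t ∘ algebraMap (𝓞 F) (𝓞 L) is algebraMap (𝓞 F) (𝓞 N) or its composition with cj), ge_card (Gen.lean) replaces g2_card,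
H13N.g3_closure is general. -/
theorem ar3_gal {p : ℕ} (hp : p.Prime)
    (hcj : ∀ v v' : HeightOneSpectrum (𝓞 F), (∀ x : 𝓞 F, cj x ∈ v'.asIdeal ↔ x ∈ v.asIdeal) → G v → G v')
    (L : Type) [Field L] [NumberField L] [Algebra F L] (h : ExtG G p L) :
    ∃ (N : Type) (_ : Field N) (_ : NumberField N) (_ : Algebra F N) (_ : Algebra L N)
      (_ : IsScalarTower F L N), IsGalois ℚ N ∧ ExtG G p N := by
  obtain ⟨hG, ⟨k, hk⟩, hU⟩ := h
  obtain ⟨N, i1, i2, i3, hN, hg⟩ := H13N.g3_closure L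
  let i4 : Algebra F N := ((algebraMap L N).comp (algebraMap F L)).toAlgebra
  have i5 : IsScalarTower F L N := IsScalarTower.of_algebraMap_eq fun x => rfl
  have hgen : ∀ g : N ≃ₐ[F] N, (∀ (τ : L →+* N) (x : L), g (τ x) = τ x) → g = 1 := by
    intro g h
    have h1 := hg (g.restrictScalars ℚ) h
    ext x
    exact congrArg (fun σ : N ≃ₐ[ℚ] N => σ x) h1
  obtain ⟨m, hm⟩ := ar3_pow hp L N hG k hk hN hgen
  exact ⟨N, i1, i2, i4, i3, i5, hN, IsGalois.tower_top_of_isGalois ℚ F N, ⟨m, hm⟩,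
    ar3_unr hcj L N hG hU hN hgen⟩

end H28T
end

-- from Lib.H28T.W1
section

open NumberField IsDedekindDomain

namespace H28T

open H28R
open H55P H55R

variable {F : Type} [Field F] [NumberField F] {G : HeightOneSpectrum (𝓞 F) → Prop}

/-! Chunk W1 (M): the field C = K(ζ). C = CyclotomicField p K (or K(ζ) inside AlgebraicClosure K): IsCyclotomicExtension {p} K C, ζ = zeta. C/F is Galois: C is the splitting field over K of X^p - 1, which has coefficients in F, and K/F is normal: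
every F-embedding of C into an algebraic closure maps K to K and ζ to a power of ζ (for example realise C as IntermediateField.adjoin K {ζ} in AlgebraicClosure K and use IntermediateField.normal_iff_forall_map_le over F, or
Normal of a compositum). gen: C = K(ζ). deg: the group of C/K embeds in (ZMod p)ˣ (IsPrimitiveRoot.autToPow_injective or IsCyclotomicExtension), of order p - 1. Let Γ = group of C/F, |Γ| = p^k d, d = [C:K] dividing p - 1;
ω : Γ -> (ZMod p)ˣ (IsPrimitiveRoot.autToPow), kernel FixZ F ζ, so |FixZ| * |image| = p^k d, |image| divides p - 1, prime to p: p^k divides |FixZ|. The restriction FixZ -> group of K/F (restrictNormalHom) is injective (an element in the kernel is in the group of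
C/K and fixes ζ: gen), so |FixZ| <= p^k and it is bijective: iso. comm: σ in FixZ, δ in the group of C/K: σ δ σ⁻¹ δ⁻¹ fixes K (res is a homomorphism and δ restricts to 1) and fixes ζ (δ ζ = ζ^a, σ ζ = ζ), so it is 1. dec: given s, let σ in FixZ have the same
restriction to K, δ = σ⁻¹ s fixes K. -/

theorem W1_normal (p : ℕ) [NeZero p] (K : Type) [Field K] [NumberField K] [Algebra F K] [IsGalois F K]
    (C : Type) [Field C] [NumberField C] [Algebra F C] [Algebra K C] [IsScalarTower F K C]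
    [IsCyclotomicExtension {p} K C] : Normal F C := by
  let Ω := AlgebraicClosure C
  have hF : IsScalarTower ℚ F C := IsScalarTower.of_algebraMap_eq' (Subsingleton.elim _ _)
  have hfin : FiniteDimensional F C := Module.Finite.of_restrictScalars_finite ℚ F C
  let ζ : C := IsCyclotomicExtension.zeta p K C
  have hζ : IsPrimitiveRoot ζ p := IsCyclotomicExtension.zeta_spec p K C
  have hζ' : IsPrimitiveRoot (algebraMap C Ω ζ) p :=
    hζ.map_of_injective (algebraMap C Ω).injective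
  let i : C →ₐ[F] Ω := IsScalarTower.toAlgHom F C Ω
  have key : ∀ (σ : Ω →ₐ[F] Ω) (x : C), ∃ y : C, σ (algebraMap C Ω x) = algebraMap C Ω y := by
    intro σ x
    have hx : x ∈ Algebra.adjoin K {ζ} := by
      rw [IsCyclotomicExtension.adjoin_primitive_root_eq_top hζ]
      exact Algebra.mem_top
    refine Algebra.adjoin_induction (p := fun x _ => ∃ y : C, σ (algebraMap C Ω x) = algebraMap C Ω y)
      ?_ ?_ ?_ ?_ hx
    · rintro x hx
      rw [Set.mem_singleton_iff] at hx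
      subst hx
      have h1 : σ (algebraMap C Ω ζ) ^ p = 1 := by
        rw [← map_pow, ← map_pow, hζ.pow_eq_one, map_one, map_one]
      obtain ⟨j, -, hj⟩ := hζ'.eq_pow_of_pow_eq_one h1
      exact ⟨ζ ^ j, by rw [map_pow]; exact hj.symm⟩
    · intro a
      refine ⟨algebraMap K C (σ.restrictNormal K a), ?_⟩
      rw [← IsScalarTower.algebraMap_apply K C Ω, ← IsScalarTower.algebraMap_apply K C Ω]
      exact (AlgHom.restrictNormal_commutes σ K a).symm
    · rintro x y _ _ ⟨x', hx'⟩ ⟨y', hy'⟩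
      exact ⟨x' + y', by rw [map_add, map_add, hx', hy', map_add]⟩
    · rintro x y _ _ ⟨x', hx'⟩ ⟨y', hy'⟩
      exact ⟨x' * y', by rw [map_mul, map_mul, hx', hy', map_mul]⟩
  have hΩ : Normal F Ω := by
    have h1 : Algebra.IsAlgebraic F Ω := Algebra.IsAlgebraic.trans F C Ω
    have h2 : IsAlgClosure F Ω := ⟨inferInstance, inferInstance⟩
    exact IsAlgClosure.normal F Ω
  have h3 : Normal F i.fieldRange := by
    rw [IntermediateField.normal_iff_forall_map_le]
    intro σ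
    rintro _ ⟨_, ⟨x, rfl⟩, rfl⟩
    obtain ⟨y, hy⟩ := key σ x
    exact ⟨y, hy.symm⟩
  let j : C →ₐ[F] i.fieldRange := i.codRestrict i.fieldRange.toSubalgebra fun x => ⟨x, rfl⟩
  let e : C ≃ₐ[F] i.fieldRange := AlgEquiv.ofBijective j ⟨j.injective, by
    rintro ⟨_, x, rfl⟩
    exact ⟨x, rfl⟩⟩
  exact Normal.of_algEquiv e.symm

theorem W1_ex (p : ℕ) [NeZero p] (K : Type) [Field K] [NumberField K] :
    ∃ (C : Type) (_ : Field C) (_ : NumberField C) (_ : Algebra K C),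
      IsCyclotomicExtension {p} K C :=
  ⟨CyclotomicField p K, inferInstance, IsCyclotomicExtension.numberField {p} K _, inferInstance,
    inferInstance⟩

theorem exists_cyc (p : ℕ) (hp : p.Prime) (h5 : 5 ≤ p) (K : Type) [Field K] [NumberField K]
    [Algebra F K] (hG : IsGalois F K) (hk : ∃ k : ℕ, Module.finrank F K = p ^ k) :
    ∃ (C : Type) (_ : Field C) (_ : NumberField C) (_ : Algebra F C) (_ : Algebra K C)
      (_ : IsScalarTower F K C) (ζ : C), Cyc F p K C ζ := by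
  classical
  have hpF : Fact p.Prime := ⟨hp⟩
  have hp0 : NeZero p := ⟨hp.ne_zero⟩
  obtain ⟨C, iC, hC, iK, hCy⟩ := W1_ex p K
  let iF : Algebra F C := ((algebraMap K C).comp (algebraMap F K)).toAlgebra
  have hT : IsScalarTower F K C := IsScalarTower.of_algebraMap_eq fun x => rfl
  have hQ : IsScalarTower ℚ F C := IsScalarTower.of_algebraMap_eq' (Subsingleton.elim _ _)
  have hQK : IsScalarTower ℚ F K := IsScalarTower.of_algebraMap_eq' (Subsingleton.elim _ _)
  have hfin : FiniteDimensional F C := Module.Finite.of_restrictScalars_finite ℚ F C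
  have hfinK : FiniteDimensional F K := Module.Finite.of_restrictScalars_finite ℚ F K
  have hN : Normal F C := W1_normal p K C
  have hGC : IsGalois F C := { to_normal := hN }
  have hGKC : IsGalois K C := IsCyclotomicExtension.isGalois {p} K C
  let ζ : C := IsCyclotomicExtension.zeta p K C
  have hζ : IsPrimitiveRoot ζ p := IsCyclotomicExtension.zeta_spec p K C
  have hgen : ∀ σ : C ≃ₐ[K] C, σ ζ = ζ → σ = 1 := by
    intro σ hσ
    have h1 : (σ : C →ₐ[K] C) = AlgHom.id K C := by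
      apply AlgHom.ext_of_adjoin_eq_top (IsCyclotomicExtension.adjoin_primitive_root_eq_top hζ)
      intro x hx
      rw [Set.mem_singleton_iff] at hx
      rw [hx]
      exact hσ
    ext x
    exact congrArg (fun f : C →ₐ[K] C => f x) h1
  have hdeg : Module.finrank K C ∣ p - 1 := by
    rw [← IsGalois.card_aut_eq_finrank K C, ← ZMod.card_units p, ← Nat.card_eq_fintype_card]
    refine Subgroup.card_dvd_of_injective (hζ.autToPow K) ?_
    exact IsPrimitiveRoot.autToPow_injective K hζ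
  -- restriction
  let res : (C ≃ₐ[F] C) →* (K ≃ₐ[F] K) := AlgEquiv.restrictNormalHom K
  have hres : ∀ (s : C ≃ₐ[F] C) (x : K), s (algebraMap K C x) = algebraMap K C (res s x) := fun s x =>
    (AlgEquiv.restrictNormal_commutes s K x).symm
  have hlift : ∀ s : C ≃ₐ[F] C, res s = 1 → ∃ δ : C ≃ₐ[K] C, ∀ x, δ x = s x := by
    intro s hs
    refine ⟨AlgEquiv.ofRingEquiv (f := (s : C ≃+* C)) fun x => ?_, fun x => rfl⟩
    show s (algebraMap K C x) = algebraMap K C x
    rw [hres, hs]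
    rfl
  have hinj1 : ∀ s : C ≃ₐ[F] C, res s = 1 → s ζ = ζ → s = 1 := by
    intro s hs hsζ
    obtain ⟨δ, hδ⟩ := hlift s hs
    have h1 : δ = 1 := hgen δ (by rw [hδ, hsζ])
    ext x
    rw [← hδ, h1]
    rfl
  let ρ : FixZ F ζ →* (K ≃ₐ[F] K) := res.comp (FixZ F ζ).subtype
  have hρ : Function.Injective ρ := by
    rw [injective_iff_map_eq_one]
    intro σ hσ
    exact Subtype.ext (hinj1 _ hσ σ.2)
  -- counting
  have hker : (hζ.autToPow F).ker = FixZ F ζ := by
    ext f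
    rw [MonoidHom.mem_ker, mem_FixZ]
    have h1 := hζ.autToPow_spec F f
    constructor
    · intro h
      rw [h, Units.val_one, ZMod.val_one, pow_one] at h1
      exact h1.symm
    · intro h
      rw [h] at h1
      have h2 : ((hζ.autToPow F f : (ZMod p)ˣ) : ZMod p).val = 1 := by
        refine hζ.pow_inj (ZMod.val_lt _) hp.one_lt ?_
        rw [h1, pow_one]
      apply Units.ext
      rw [Units.val_one]
      have h3 := ZMod.natCast_zmod_val ((hζ.autToPow F f : (ZMod p)ˣ) : ZMod p)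
      rw [h2, Nat.cast_one] at h3
      exact h3.symm
  obtain ⟨k, hk'⟩ := hk
  have hcardK : Nat.card (K ≃ₐ[F] K) = p ^ k := by rw [IsGalois.card_aut_eq_finrank, hk']
  have hcardF : Nat.card (FixZ F ζ) = p ^ k := by
    have h1 := Subgroup.card_mul_index (hζ.autToPow F).ker
    rw [Subgroup.index_ker, hker, IsGalois.card_aut_eq_finrank,
      ← Module.finrank_mul_finrank F K C, hk'] at h1
    have h2 : Nat.card (hζ.autToPow F).range ∣ p - 1 := by
      rw [← ZMod.card_units p, ← Nat.card_eq_fintype_card]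
      exact Subgroup.card_subgroup_dvd_card _
    have h3 : (p ^ k).Coprime (Nat.card (hζ.autToPow F).range) := by
      apply Nat.Coprime.pow_left
      apply Nat.Coprime.coprime_dvd_right h2
      have := (Nat.coprime_self_add_left (m := p - 1) (n := 1)).2 (Nat.coprime_one_left _)
      rwa [Nat.sub_add_cancel hp.one_le] at this
    have h4 : p ^ k ∣ Nat.card (FixZ F ζ) :=
      h3.dvd_of_dvd_mul_right (h1 ▸ Dvd.intro _ rfl)
    have h5 : Nat.card (FixZ F ζ) ≤ p ^ k := by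
      rw [← hcardK]
      exact Nat.card_le_card_of_injective ρ hρ
    exact le_antisymm h5 (Nat.le_of_dvd Nat.card_pos h4)
  have hbij : Function.Bijective ρ := by
    have := Fintype.ofFinite (FixZ F ζ)
    have := Fintype.ofFinite (K ≃ₐ[F] K)
    rw [Fintype.bijective_iff_injective_and_card]
    refine ⟨hρ, ?_⟩
    rw [← Nat.card_eq_fintype_card, ← Nat.card_eq_fintype_card, hcardF, hcardK]
  let e : FixZ F ζ ≃* (K ≃ₐ[F] K) := MulEquiv.ofBijective ρ hbij
  have he : ∀ (σ : FixZ F ζ) (x : K),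
      (σ : C ≃ₐ[F] C) (algebraMap K C x) = algebraMap K C (e σ x) := fun σ x => hres _ _
  refine ⟨C, iC, hC, iF, iK, hT, ζ, hG, hGC, hζ, hgen, hdeg, ⟨k, hk'⟩,
    ⟨e, he⟩, ?_, ?_⟩
  · intro σ δ x
    let δ' : C ≃ₐ[F] C := δ.restrictScalars F
    have h1 : (σ : C ≃ₐ[F] C) * δ' * (σ : C ≃ₐ[F] C)⁻¹ * δ'⁻¹ = 1 := by
      apply hinj1
      · have h2 : res δ' = 1 := by
          ext y
          apply (algebraMap K C).injective
          rw [← hres]
          exact δ.commutes y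
        rw [map_mul, map_mul, map_mul, map_inv, map_inv, h2, inv_one, mul_one, mul_one,
          mul_inv_cancel]
      · have h3 := hζ.autToPow_spec K δ
        have hσ : (σ : C ≃ₐ[F] C) ζ = ζ := σ.2
        have hσ' : (σ : C ≃ₐ[F] C)⁻¹ ζ = ζ := (FixZ F ζ).inv_mem σ.2
        -- δ'⁻¹ ζ = ζ ^ m
        have h5 := hζ.autToPow_spec K δ⁻¹
        set m := ((hζ.autToPow K δ⁻¹ : (ZMod p)ˣ) : ZMod p).val with hm
        have h6 : δ'⁻¹ ζ = ζ ^ m := h5.symm
        show (σ : C ≃ₐ[F] C) (δ' ((σ : C ≃ₐ[F] C)⁻¹ (δ'⁻¹ ζ))) = ζ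
        rw [h6, map_pow, hσ', ← h6]
        show (σ : C ≃ₐ[F] C) (δ' (δ'⁻¹ ζ)) = ζ
        rw [show δ' (δ'⁻¹ ζ) = ζ from AlgEquiv.apply_symm_apply δ' ζ, hσ]
    have h2 : (σ : C ≃ₐ[F] C) * δ' = δ' * (σ : C ≃ₐ[F] C) := by
      rw [mul_inv_eq_one, mul_inv_eq_iff_eq_mul] at h1
      exact h1
    exact congrArg (fun f : C ≃ₐ[F] C => f x) h2
  · intro s
    obtain ⟨σ, hσ⟩ := hbij.2 (res s)
    obtain ⟨δ, hδ⟩ := hlift ((σ : C ≃ₐ[F] C)⁻¹ * s) (by
      rw [map_mul, map_inv]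
      have : res (σ : C ≃ₐ[F] C) = res s := hσ
      rw [this, inv_mul_cancel])
    refine ⟨σ, δ, fun x => ?_⟩
    rw [hδ]
    show s x = (σ : C ≃ₐ[F] C) ((σ : C ≃ₐ[F] C)⁻¹ (s x))
    exact (AlgEquiv.apply_symm_apply (σ : C ≃ₐ[F] C) (s x)).symm

/-- The group FixZ F ζ has p-power order. -/
theorem Cyc.card {p : ℕ} {K C : Type} [Field K] [NumberField K] [Field C] [NumberField C]
    [Algebra F K] [Algebra F C] [Algebra K C] [IsScalarTower F K C] {ζ : C} (h : Cyc F p K C ζ) :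
    Nat.card (FixZ F ζ) = Module.finrank F K := by
  have := h.galK
  obtain ⟨e, -⟩ := h.iso
  rw [Nat.card_congr e.toEquiv, IsGalois.card_aut_eq_finrank]

end H28T
end

-- from Lib.H28T.W14
section

open NumberField IsDedekindDomain

namespace H28T

open H28R
open H55P H55R

variable {F : Type} [Field F] [NumberField F] {G : HeightOneSpectrum (𝓞 F) → Prop}

/-! Chunk W14 (M): the subgroup D. A = N ≃ₐ[F] N (finite), V = the elements fixing C (IntermediateField.fixingSubgroup or a Subgroup defined as the kernel of restrictNormalHom C), H = the elements fixing K (kernel of restrictNormalHom K), S = FixZ F ζN, ζN = algebraMap C N ζ. V <= H, both normal. card V = [N:C] = p^card(FixZ F ζ) (wr_deg).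
card H = [N:K] = [N:C] [C:K], so V.relIndex H = [C:K], a divisor of p - 1, prime to p. V central in H: hc (an element of V is a C-automorphism, an element of H a K-automorphism). card S = p^card * card (FixZ F ζ) (wr_iso) = p^card * [K:F] (Cyc.card), a power of p (Cyc.pow). card A = [N:C] [C:F] = p^card [C:K] [K:F], so S.index = [C:K].
hall: D normal in A, D <= H, A/D isomorphic to S. wr_iso: S is isomorphic to CP p ≀ᵣ FixZ F ζ, and Cyc.iso with wr_congr: to CP p ≀ᵣ (K ≃ₐ[F] K). -/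

/-- The kernel of the restriction: elements acting trivially on the subfield. -/
theorem W14_mem {F₀ L N : Type} [Field F₀] [Field L] [Field N] [Algebra F₀ L] [Algebra F₀ N]
    [Algebra L N] [IsScalarTower F₀ L N] [Normal F₀ L] (σ : N ≃ₐ[F₀] N) :
    σ ∈ (AlgEquiv.restrictNormalHom (F := F₀) (K₁ := N) L).ker ↔
      ∀ x : L, σ (algebraMap L N x) = algebraMap L N x := by
  rw [MonoidHom.mem_ker]
  constructor
  · intro h x
    have h1 := AlgEquiv.restrictNormal_commutes σ L x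
    have h2 : σ.restrictNormal L = 1 := h
    rw [h2] at h1
    exact h1.symm
  · intro h
    apply AlgEquiv.ext
    intro x
    apply (algebraMap L N).injective
    have h1 := AlgEquiv.restrictNormal_commutes σ L x
    rw [h x] at h1
    exact h1

/-- The index of the kernel of the restriction. -/
theorem W14_index {F₀ L N : Type} [Field F₀] [Field L] [Field N] [Algebra F₀ L] [Algebra F₀ N]
    [Algebra L N] [IsScalarTower F₀ L N] [IsGalois F₀ L] [IsGalois F₀ N]
    [FiniteDimensional F₀ L] :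
    (AlgEquiv.restrictNormalHom (F := F₀) (K₁ := N) L).ker.index = Module.finrank F₀ L := by
  have h2 : Nat.card (L ≃ₐ[F₀] L) = Module.finrank F₀ L := IsGalois.card_aut_eq_finrank F₀ L
  have hsurj : Function.Surjective (AlgEquiv.restrictNormalHom (F := F₀) (K₁ := N) L) :=
    AlgEquiv.restrictNormalHom_surjective (F := F₀) (K₁ := L) N
  rw [Subgroup.index_ker, MonoidHom.range_eq_top.mpr hsurj, Subgroup.card_top, h2]

/-- The order of the kernel of the restriction. -/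
theorem W14_card {F₀ L N : Type} [Field F₀] [Field L] [Field N] [Algebra F₀ L] [Algebra F₀ N]
    [Algebra L N] [IsScalarTower F₀ L N] [IsGalois F₀ L] [IsGalois F₀ N]
    [FiniteDimensional F₀ N] [FiniteDimensional F₀ L] :
    Nat.card (AlgEquiv.restrictNormalHom (F := F₀) (K₁ := N) L).ker = Module.finrank L N := by
  have h1 : Nat.card (N ≃ₐ[F₀] N) = Module.finrank F₀ N := IsGalois.card_aut_eq_finrank F₀ N
  have h3 := W14_index (F₀ := F₀) (L := L) (N := N)
  have h4 := (AlgEquiv.restrictNormalHom (F := F₀) (K₁ := N) L).ker.card_mul_index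
  rw [h3, h1, ← Module.finrank_mul_finrank F₀ L N, mul_comm] at h4
  exact Nat.eq_of_mul_eq_mul_left Module.finrank_pos h4

theorem group_D {p : ℕ} (hp : p.Prime) (h5 : 5 ≤ p) {K C N : Type} [Field K] [NumberField K]
    [Field C] [NumberField C] [Field N] [NumberField N] [Algebra F K] [Algebra F C] [Algebra F N]
    [Algebra K C] [Algebra K N] [Algebra C N] [IsScalarTower F K C] [IsScalarTower F C N]
    [IsScalarTower K C N] [IsScalarTower F K N] {ζ : C} (hC : Cyc F p K C ζ) {γ : C} (hγ : γ ≠ 0)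
    {r : FixZ F ζ → N} (hr : WrP p F C N ζ γ r) [Fintype (FixZ F ζ)]
    (hn : ∀ a : FixZ F ζ → ZMod p, a ≠ 0 →
      ¬ ∃ z : C, z ^ p = ∏ g : FixZ F ζ, ((g : C ≃ₐ[F] C) γ) ^ (a g).val)
    (hc : ∀ (τ : N ≃ₐ[C] N) (u : N ≃ₐ[K] N) (x : N), τ (u x) = u (τ x)) :
    ∃ (D : Subgroup (N ≃ₐ[F] N)) (_ : D.Normal),
      (∀ d ∈ D, ∀ x : K, d (algebraMap K N x) = algebraMap K N x) ∧
      Nonempty (((N ≃ₐ[F] N) ⧸ D) ≃* CP p ≀ᵣ (K ≃ₐ[F] K)) := by
  have htN : IsScalarTower ℚ F N := IsScalarTower.of_algebraMap_eq' (Subsingleton.elim _ _)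
  have htC : IsScalarTower ℚ F C := IsScalarTower.of_algebraMap_eq' (Subsingleton.elim _ _)
  have htK : IsScalarTower ℚ F K := IsScalarTower.of_algebraMap_eq' (Subsingleton.elim _ _)
  have hfinN : FiniteDimensional F N := Module.Finite.of_restrictScalars_finite ℚ F N
  have hfinC : FiniteDimensional F C := Module.Finite.of_restrictScalars_finite ℚ F C
  have hfinK : FiniteDimensional F K := Module.Finite.of_restrictScalars_finite ℚ F K
  have hgK : IsGalois F K := hC.galK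
  have hgC : IsGalois F C := hC.gal
  have hgN : IsGalois F N := hr.gal
  have hdeg : Module.finrank C N = p ^ Nat.card (FixZ F ζ) := wr_deg hp hC.prim hγ hr hn
  obtain ⟨hcS, ⟨eS⟩⟩ := wr_iso hp hC.prim hγ hr hdeg
  have hcZ : Nat.card (FixZ F ζ) = Module.finrank F K := hC.card
  obtain ⟨eK, -⟩ := hC.iso
  obtain ⟨eW⟩ := wr_congr (D := CP p) eK
  set V : Subgroup (N ≃ₐ[F] N) := (AlgEquiv.restrictNormalHom (F := F) (K₁ := N) C).ker with hVdef
  set H : Subgroup (N ≃ₐ[F] N) := (AlgEquiv.restrictNormalHom (F := F) (K₁ := N) K).ker with hHdef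
  have hVn : V.Normal := MonoidHom.normal_ker _
  have hHn : H.Normal := MonoidHom.normal_ker _
  have hVH : V ≤ H := by
    intro σ hσ
    rw [hVdef, W14_mem] at hσ
    rw [hHdef, W14_mem]
    intro x
    rw [IsScalarTower.algebraMap_apply K C N x]
    exact hσ _
  have hcV : Nat.card V = Module.finrank C N := W14_card
  have hrel : V.relIndex H = Module.finrank K C := by
    have h1 : V.relIndex H * H.index = V.index := Subgroup.relIndex_mul_index hVH
    have hiV : V.index = Module.finrank F C := W14_index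
    have hiH : H.index = Module.finrank F K := W14_index
    rw [hiV, hiH, ← Module.finrank_mul_finrank F K C, mul_comm] at h1
    exact Nat.eq_of_mul_eq_mul_left Module.finrank_pos h1
  have hcopr : (V.relIndex H).Coprime p := by
    rw [hrel]
    apply Nat.Coprime.symm
    rw [Nat.Prime.coprime_iff_not_dvd hp]
    intro hd
    have h1 : p ∣ p - 1 := hd.trans hC.deg
    have h2 := Nat.le_of_dvd (by omega) h1
    omega
  have hcomm : ∀ v ∈ V, ∀ u ∈ H, v * u = u * v := by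
    intro v hv u hu
    rw [hVdef, W14_mem] at hv
    rw [hHdef, W14_mem] at hu
    let τ : N ≃ₐ[C] N := AlgEquiv.ofRingEquiv (f := (v : N ≃+* N)) hv
    let υ : N ≃ₐ[K] N := AlgEquiv.ofRingEquiv (f := (u : N ≃+* N)) hu
    apply AlgEquiv.ext
    intro x
    exact hc τ υ x
  have hcS' : Nat.card (FixZ F (algebraMap C N ζ)) =
      Module.finrank C N * Module.finrank F K := by
    rw [hcS, hdeg, hcZ]
  have hSi : (FixZ F (algebraMap C N ζ)).index = V.relIndex H := by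
    rw [hrel]
    have h1 := (FixZ F (algebraMap C N ζ)).card_mul_index
    rw [hcS', IsGalois.card_aut_eq_finrank F N, ← Module.finrank_mul_finrank F C N,
      ← Module.finrank_mul_finrank F K C] at h1
    have h2 : 0 < Module.finrank C N * Module.finrank F K :=
      Nat.mul_pos Module.finrank_pos Module.finrank_pos
    apply Nat.eq_of_mul_eq_mul_left h2
    rw [h1]
    ring
  obtain ⟨k, hk⟩ := hC.pow
  obtain ⟨D, hD, hDH, ⟨e⟩⟩ := hall hp V H (FixZ F (algebraMap C N ζ)) hVn hHn hVH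
    ⟨_, hcV.trans hdeg⟩ hcopr hcomm
    ⟨Nat.card (FixZ F ζ) + k, by rw [hcS', hdeg, hk, pow_add]⟩ hSi
  refine ⟨D, hD, ?_, ⟨(e.trans eS).trans eW⟩⟩
  intro d hd
  exact (W14_mem d).mp (hDH hd)

end H28T
end

-- from Lib.H55K.Y7C
section

/-! # H55K: a good prime exists -/

open NumberField IsDedekindDomain WeierstrassCurve

namespace H55K

open H55P (IQ embF eF LF Per IsHecke Pt ac Inert Dec Nm)
open H35P (WAB Ker tt)


variable {F : Type} [Field F] [NumberField F] [IQ F]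

theorem y7c_cop {l : ℕ} (hl : l.Prime) {μ : 𝓞 F} (hc : IsCoprime μ (l : 𝓞 F)) : Nat.Coprime (Nm μ) l := by
  rw [Nat.coprime_comm, Nat.Prime.coprime_iff_not_dvd hl]
  intro hd
  have h1 : IsCoprime (cj μ) (l : 𝓞 F) := by
    obtain ⟨u, w, huw⟩ := hc
    refine ⟨cj u, cj w, ?_⟩
    have h2 := congrArg cj huw
    rwa [map_add, map_mul, map_mul, map_one, cj_nat] at h2
  have h2 : IsCoprime (μ * cj μ) (l : 𝓞 F) := IsCoprime.mul_left hc h1
  rw [mul_cj] at h2
  obtain ⟨k, hk⟩ := hd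
  rw [hk, Nat.cast_mul] at h2
  have h3 : IsUnit (l : 𝓞 F) := isCoprime_self.1 (IsCoprime.of_mul_left_left h2)
  obtain ⟨x, hx⟩ := h3.exists_right_inv
  have h4 : Nm ((l : 𝓞 F) * x) = Nm ((1 : ℕ) : 𝓞 F) := by rw [hx, Nat.cast_one]
  rw [Nm_mul, Nm_nat, Nm_nat, one_pow] at h4
  have h5 : l ^ 2 ∣ 1 := ⟨_, h4.symm⟩
  have h6 := hl.two_le
  have h7 := Nat.le_of_dvd one_pos h5
  nlinarith

/-- A prime in two progressions. -/
theorem y7c_q {N p : ℕ} (hN : 0 < N) (hp : p.Prime) (h5 : 5 ≤ p) (hc : Nat.Coprime N p) (X : ℕ) :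
    ∃ q : ℕ, q.Prime ∧ X < q ∧ (∃ k, q + 1 = N * k) ∧ ∃ k, q = 2 + p * k := by
  obtain ⟨a, ha1, ha2⟩ := Nat.chineseRemainder hc (N - 1) 2
  have ha3 : Nat.Coprime a (N * p) := by
    refine Nat.Coprime.mul_right ?_ ?_
    · rw [Nat.coprime_iff_gcd_eq_one, ha1.gcd_eq]
      obtain ⟨n, rfl⟩ : ∃ n, N = n + 1 := ⟨N - 1, by omega⟩
      rw [Nat.add_sub_cancel, Nat.gcd_self_add_right, Nat.gcd_one_right]
    · rw [Nat.coprime_iff_gcd_eq_one, ha2.gcd_eq]
      rw [← Nat.coprime_iff_gcd_eq_one, Nat.coprime_primes Nat.prime_two hp]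
      omega
  have hne : N * p ≠ 0 := Nat.mul_ne_zero hN.ne' hp.ne_zero
  obtain ⟨q, hq1, hq2, hq3⟩ := Nat.forall_exists_prime_gt_and_modEq (max X 2) hne ha3
  have hX : X < q := (le_max_left _ _).trans_lt hq1
  have h2 : 2 < q := (le_max_right _ _).trans_lt hq1
  refine ⟨q, hq2, hX, ?_, ?_⟩
  · have h3 : q + 1 ≡ N - 1 + 1 [MOD N] := ((hq3.of_mul_right p).trans ha1).add_right 1
    rw [Nat.sub_add_cancel hN] at h3
    have h4 : q + 1 ≡ 0 [MOD N] := h3.trans (by rw [Nat.ModEq, Nat.mod_self, Nat.zero_mod])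
    exact (Nat.modEq_zero_iff_dvd).1 h4
  · have h3 : 2 ≡ q [MOD p] := ((hq3.of_mul_left N).trans ha2).symm
    obtain ⟨k, hk⟩ := (Nat.modEq_iff_dvd' h2.le).1 h3
    exact ⟨k, by omega⟩

/-- Chunk Y7C (M). M = Nm μ, m = span {μ} (instPIDF), μ ≠ 0. p is prime to 4 D M: M as in UB1B (m coprime to p). Chinese remainder theorem and Dirichlet's theorem (Nat.forall_exists_prime_gt_and_eq_mod or Nat.setOf_prime_and_eq_mod_infinite): a prime q with q congruent to -1 modulo 4 D M, to 2 modulo p, q > p and q > Nm Δ. v₀ = (q) (inert_q), prime to m (q congruent to -1 modulo M, M in m) and to Δ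
(if Δ = q z then Nm Δ = q^2 Nm z > Nm Δ) and to p. per with x = q, y = -1: ψ (span {q}) * (-1) = ψ (span {-1}) * q = q (span {-1} = top, map_one), so 1 - ψ = 1 + q, Nm (1 + q) = (1+q)^2 congruent to 9 modulo p. -/
theorem good_q (F : Type) [Field F] [NumberField F] [IQ F] {p : ℕ} (hp : p.Prime) (h5 : 5 ≤ p)
    (hunr : ∀ v : HeightOneSpectrum (𝓞 F), (p : 𝓞 F) ∉ v.asIdeal ^ 2) {m : Ideal (𝓞 F)}
    {ψ : Ideal (𝓞 F) →*₀ 𝓞 F} (hψ : IsHecke m ψ) (hcop : IsCoprime m (Ideal.span {(p : 𝓞 F)}))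
    (Δ : 𝓞 F) (hΔ : Δ ≠ 0) : ∃ v : HeightOneSpectrum (𝓞 F), Δ ∉ v.asIdeal ∧ ¬ m ≤ v.asIdeal ∧
      (p : 𝓞 F) ∉ v.asIdeal ∧ ¬ p ∣ Nm (1 - ψ v.asIdeal) := by
  obtain ⟨D, δ, hD, hpD, hδ⟩ := exists_delta F hp hunr
  obtain ⟨μ, hμ'⟩ := (IsPrincipalIdealRing.principal m).principal
  have hμ : Ideal.span {μ} = m := hμ'.symm
  have hμ0 : μ ≠ 0 := by
    rintro rfl
    apply hψ.ne
    rw [← hμ]
    simp
  have hcM : Nat.Coprime (Nm μ) p := by
    apply y7c_cop hp
    have h1 := hcop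
    rwa [← hμ, Ideal.isCoprime_span_singleton_iff] at h1
  have hNm : 0 < Nm μ := Nat.pos_of_ne_zero fun h0 => hμ0 (H55P.Nm_eq_zero.1 h0)
  have hN : 0 < 4 * D * Nm μ := by positivity
  have hc4 : Nat.Coprime 4 p := by
    have h2 : Nat.Coprime 2 p := (Nat.coprime_primes Nat.prime_two hp).2 (by omega)
    exact Nat.Coprime.mul_left h2 h2
  have hcD : Nat.Coprime D p := Nat.coprime_comm.1 ((Nat.Prime.coprime_iff_not_dvd hp).2 hpD)
  have hc : Nat.Coprime (4 * D * Nm μ) p := Nat.Coprime.mul_left (Nat.Coprime.mul_left hc4 hcD) hcM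
  obtain ⟨q, hq, hX, ⟨k, hk⟩, ⟨k', hk'⟩⟩ := y7c_q hN hp h5 hc (max p (Nm Δ))
  have hqp : p < q := (le_max_left _ _).trans_lt hX
  have hqΔ : Nm Δ < q := (le_max_right _ _).trans_lt hX
  have hm : q % (4 * D) = 4 * D - 1 := by
    have e : q + 1 = (4 * D) * (Nm μ * k) := by rw [hk]; ring
    have h1 : 0 < Nm μ * k := by
      rcases Nat.eq_zero_or_pos (Nm μ * k) with h | h
      · rw [h, mul_zero] at e
        omega
      · exact h
    obtain ⟨j, hj⟩ := Nat.exists_eq_add_of_lt h1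
    have e2 : q = (4 * D - 1) + (4 * D) * j := by
      have : q + 1 = (4 * D) * (j + 1) := by rw [e, hj]; ring
      have h4 : 0 < 4 * D := by omega
      have : q + 1 = 4 * D * j + 4 * D := by rw [this]; ring
      omega
    rw [e2, Nat.add_mul_mod_self_left, Nat.mod_eq_of_lt (by omega)]
  have hprime := inert_q hD hδ hq hm
  have hq0 : (q : 𝓞 F) ≠ 0 := Nat.cast_ne_zero.2 hq.ne_zero
  let v : HeightOneSpectrum (𝓞 F) := ⟨Ideal.span {(q : 𝓞 F)}, (Ideal.span_singleton_prime hq0).2 hprime, by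
    rwa [Ne, Ideal.span_singleton_eq_bot]⟩
  have hv : v.asIdeal = Ideal.span {(q : 𝓞 F)} := rfl
  have hqm : (q : 𝓞 F) + 1 ∈ m := by
    have e : (q : 𝓞 F) + 1 = μ * (cj μ * (4 * D * k : ℕ)) := by
      have h1 : ((q + 1 : ℕ) : 𝓞 F) = ((4 * D * Nm μ * k : ℕ) : 𝓞 F) := by rw [hk]
      push_cast at h1 ⊢
      rw [h1, ← mul_cj]
      ring
    rw [e, ← hμ]
    exact Ideal.mul_mem_right _ _ (Ideal.mem_span_singleton_self μ)
  refine ⟨v, ?_, ?_, ?_, ?_⟩
  · rw [hv, Ideal.mem_span_singleton]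
    rintro ⟨z, rfl⟩
    rw [Nm_mul, Nm_nat] at hqΔ
    have hz : Nm z ≠ 0 := fun h => by
      rw [H55P.Nm_eq_zero] at h
      apply hΔ
      rw [h, mul_zero]
    have h2 : 1 ≤ Nm z := Nat.one_le_iff_ne_zero.2 hz
    nlinarith [hq.two_le]
  · intro h
    rw [hv] at h
    have h1 := h hqm
    rw [Ideal.mem_span_singleton] at h1
    have h2 : (q : 𝓞 F) ∣ 1 := (dvd_add_right (dvd_refl _)).1 h1
    exact hprime.not_isUnit (isUnit_of_dvd_one h2)
  · rw [hv, Ideal.mem_span_singleton]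
    rintro ⟨z, hz⟩
    have h1 : Nm (p : 𝓞 F) = Nm ((q : 𝓞 F) * z) := by rw [← hz]
    rw [Nm_mul, Nm_nat, Nm_nat] at h1
    have h2 : q ^ 2 ∣ p ^ 2 := ⟨_, h1⟩
    have h3 : q ∣ p := (Nat.pow_dvd_pow_iff two_ne_zero).1 h2
    exact absurd (Nat.le_of_dvd hp.pos h3) (by omega)
  · have hcq : IsCoprime (Ideal.span {(q : 𝓞 F)}) m := by
      rw [Ideal.isCoprime_iff_exists]
      refine ⟨-(q : 𝓞 F), ?_, (q : 𝓞 F) + 1, hqm, by ring⟩
      exact (Ideal.neg_mem_iff _).2 (Ideal.mem_span_singleton_self _)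
    have htop : Ideal.span {(-1 : 𝓞 F)} = 1 := by
      rw [Ideal.one_eq_top, Ideal.span_singleton_eq_top]
      exact isUnit_one.neg
    have hc1 : IsCoprime (Ideal.span {(-1 : 𝓞 F)}) m := by
      rw [htop]
      exact isCoprime_one_left
    have h1 := hψ.per (q : 𝓞 F) (-1) hcq hc1 (by rwa [sub_neg_eq_add])
    rw [htop, map_one, one_mul] at h1
    have h2 : 1 - ψ v.asIdeal = ((q + 1 : ℕ) : 𝓞 F) := by
      rw [hv]
      push_cast
      linear_combination h1
    rw [h2, Nm_nat]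
    intro h3
    have h4 : p ∣ q + 1 := hp.dvd_of_dvd_pow h3
    have h5' : p ∣ 3 := by
      have e : q + 1 = p * k' + 3 := by rw [hk']; ring
      rw [e] at h4
      exact (Nat.dvd_add_right (dvd_mul_right _ _)).1 h4
    exact absurd (Nat.le_of_dvd (by norm_num) h5') (by omega)

end H55K
end

-- from Lib.H55K.Y7D
section

/-! # H55K: a good prime exists -/

open NumberField IsDedekindDomain WeierstrassCurve

namespace H55K

open H55P (IQ embF eF LF Per IsHecke Pt ac Inert Dec Nm)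
open H35P (WAB Ker tt)


variable {F : Type} [Field F] [NumberField F] [IQ F]

/-- The norm of an ideal for an extension of degree one. -/
theorem y7d_norm (M : Type) [Field M] [NumberField M] [Algebra F M]
    (hsurj : Function.Surjective (algebraMap F M)) (J : Ideal (𝓞 F)) :
    Ideal.relNorm (𝓞 F) (J.map (algebraMap (𝓞 F) (𝓞 M))) = J := by
  have h1 : Module.finrank F M = 1 := by
    rw [finrank_eq_one_iff_of_nonzero' (1 : M) one_ne_zero]
    intro x
    obtain ⟨c, hc⟩ := hsurj x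
    exact ⟨c, by rw [← hc, Algebra.smul_def, mul_one]⟩
  have hr : Module.finrank (𝓞 F) (𝓞 M) = 1 := by
    rw [← h1]
    exact (IsFractionRing.finrank_eq (𝓞 F) F (𝓞 M) M).symm
  rw [Ideal.relNorm_algebraMap (𝓞 M) J, hr, pow_one]

theorem y7d_surj : Function.Surjective (algebraMap F (⊥ : IntermediateField F (AlgebraicClosure F))) := by
  intro x
  obtain ⟨y, hy⟩ := IntermediateField.mem_bot.1 x.2
  exact ⟨y, Subtype.ext hy⟩

theorem y7d_surjO : Function.Surjective
    (algebraMap (𝓞 F) (𝓞 (⊥ : IntermediateField F (AlgebraicClosure F)))) := by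
  intro x
  obtain ⟨y, hy⟩ := y7d_surj (F := F) (x : (⊥ : IntermediateField F (AlgebraicClosure F)))
  have hyi : IsIntegral ℤ y := by
    have h2 : IsIntegral ℤ (algebraMap F (⊥ : IntermediateField F (AlgebraicClosure F)) y) := by
      rw [hy]
      exact RingOfIntegers.isIntegral_coe x
    exact (isIntegral_algebraMap_iff
      (algebraMap F (⊥ : IntermediateField F (AlgebraicClosure F))).injective).1 h2
  refine ⟨⟨y, hyi⟩, ?_⟩
  apply RingOfIntegers.ext
  rw [← hy]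
  rfl

/-- Chunk Y7D (S/M). v from good_q, v' the prime of the bottom field M corresponding to v (algebraMap (𝓞 F) (𝓞 M) is bijective: v' = the image; see H55P.bot_conv and pz10_card in Z10.lean, pz13_equiv in Z13.lean): relNorm v' = v, the residue fields are isomorphic, so the numbers of points agree (pz10_card, map of curves), hDeu. -/
theorem exists_goodG {p : ℕ} (hp : p.Prime) (h5 : 5 ≤ p)
    (hunr : ∀ v : HeightOneSpectrum (𝓞 F), (p : 𝓞 F) ∉ v.asIdeal ^ 2) {m : Ideal (𝓞 F)}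
    {ψ : Ideal (𝓞 F) →*₀ 𝓞 F} (hψ : IsHecke m ψ) (W₀ : WeierstrassCurve (𝓞 F)) (hΔ : W₀.Δ ≠ 0)
    (hcop : IsCoprime m (Ideal.span {(p : 𝓞 F)}))
    (hDeu : ∀ v : HeightOneSpectrum (𝓞 F), W₀.Δ ∉ v.asIdeal → ¬ m ≤ v.asIdeal →
      Nat.card (W₀⁄(𝓞 F ⧸ v.asIdeal)).toAffine.Point = Nm (1 - ψ v.asIdeal))
    [NumberField (⊥ : IntermediateField F (AlgebraicClosure F))] :
    ∃ v, H55P.GoodG p W₀ m ψ (⊥ : IntermediateField F (AlgebraicClosure F)) v := by
  obtain ⟨v₀, g1, g2, g3, g4⟩ := good_q F hp h5 hunr hψ hcop W₀.Δ hΔ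
  have hvm := v₀.isMaximal
  obtain ⟨Q, hQ1, hQ2⟩ := Ideal.exists_maximal_ideal_liesOver_of_isIntegral
    (S := 𝓞 (⊥ : IntermediateField F (AlgebraicClosure F))) v₀.asIdeal
  obtain ⟨v, hv⟩ : ∃ v : HeightOneSpectrum (𝓞 (⊥ : IntermediateField F (AlgebraicClosure F))), v.asIdeal = Q :=
    ⟨⟨Q, hQ1.isPrime, Ideal.ne_bot_of_liesOver_of_ne_bot v₀.ne_bot Q⟩, rfl⟩
  have hu : v₀.asIdeal = v.asIdeal.comap
      (algebraMap (𝓞 F) (𝓞 (⊥ : IntermediateField F (AlgebraicClosure F)))) := by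
    rw [hv]
    exact hQ2.over
  have hmem : ∀ x : 𝓞 F, x ∈ v₀.asIdeal ↔
      algebraMap (𝓞 F) (𝓞 (⊥ : IntermediateField F (AlgebraicClosure F))) x ∈ v.asIdeal := by
    intro x
    rw [hu, Ideal.mem_comap]
  obtain ⟨v₁, h1, -, h3⟩ := H55P.bot_conv W₀ (⊥ : IntermediateField F (AlgebraicClosure F)) v
  have he : v₁ = v₀ := by
    apply HeightOneSpectrum.ext
    ext x
    rw [h1 x, hmem x]
  subst he
  have hmap : v₁.asIdeal.map (algebraMap (𝓞 F) (𝓞 (⊥ : IntermediateField F (AlgebraicClosure F)))) =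
      v.asIdeal := by
    rw [hu, Ideal.map_comap_of_surjective _ y7d_surjO]
  have hnorm : Ideal.relNorm (𝓞 F) v.asIdeal = v₁.asIdeal := by
    rw [← hmap]
    exact y7d_norm _ y7d_surj _
  refine ⟨v, ?_, ?_, ?_, ?_, ?_⟩
  · rw [← hmem]
    exact g1
  · intro hle
    apply g2
    rw [hu, ← Ideal.map_le_iff_le_comap]
    exact hle
  · intro hp'
    apply g3
    rw [hmem, map_natCast]
    exact hp'
  · rw [h3, hDeu v₁ g1 g2]
    exact g4
  · rw [hnorm]
    exact g4

end H55K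
end

-- from Lib.H55W.L8D
section

/-! # H55W, part L: the points killed by 2 sqrt(-2), discriminant -8 -/

open NumberField IsDedekindDomain WeierstrassCurve

namespace H55W

open H55P (IQ embF eF LF Per IsHecke Pt ac Inert Dec Nm)
open H35P (WAB Ker tt GoodW IntW)
open H55K
open H13D (RM)

variable {F : Type} [Field F] [NumberField F] [IQ F] {φ : 𝓞 F} {A B : F} {Om : ℂ} {Ω : Type} [Field Ω] [DecidableEq Ω]
  [Algebra F Ω] {j : Ω →+* ℂ} {act : 𝓞 F →+* AddMonoid.End (Pt (WAB A B) Ω)}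

theorem l8d_dvd (hφ : TI φ) (a b : ℤ) {x : 𝓞 F} (hx : x = (a : 𝓞 F) + (b : 𝓞 F) * φ) : 2 * φ ∣ x ↔ 4 ∣ a ∧ 2 ∣ b := by
  rw [hx]
  exact (ti_dvd hφ a b).1

theorem l8d_mul (a b : 𝓞 F) (T : Pt (WAB A B) Ω) : act (a * b) T = act a (act b T) := by
  rw [map_mul]
  rfl

theorem l8d_add (a b : 𝓞 F) (T : Pt (WAB A B) Ω) : act (a + b) T = act a T + act b T := by
  rw [map_add]
  rfl

theorem l8d_sub (a b : 𝓞 F) (T : Pt (WAB A B) Ω) : act (a - b) T = act a T - act b T := by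
  rw [map_sub]
  rfl

theorem l8d_one (T : Pt (WAB A B) Ω) : act 1 T = T := by
  rw [map_one]
  rfl

/-- T is a generator of the points killed by 2 φ. -/
structure TG (act : 𝓞 F →+* AddMonoid.End (Pt (WAB A B) Ω)) (φ : 𝓞 F) (T : Pt (WAB A B) Ω) : Prop where
  zero : ∀ a : 𝓞 F, act a T = 0 ↔ 2 * φ ∣ a
  gen : ∀ P : Pt (WAB A B) Ω, act (2 * φ) P = 0 → ∃ a : 𝓞 F, P = act a T

/-- Chunk L8D (S). h.gen (2 φ). -/
theorem exists_TG (h : CMA F A B Om j act) (hφ : TI φ) : ∃ T : Pt (WAB A B) Ω, TG act φ T := by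
  have h0 : 2 * φ ≠ 0 := by
    refine mul_ne_zero two_ne_zero ?_
    intro h0
    have := hφ.sq
    rw [h0] at this
    have h2 : ((0 : ℤ) : 𝓞 F) = ((-2 : ℤ) : 𝓞 F) := by
      push_cast
      linear_combination this
    have h3 : (0 : ℤ) = -2 := by exact_mod_cast h2
    omega
  obtain ⟨T, hT, h1, h2, -⟩ := h.gen (2 * φ) h0
  exact ⟨T, h2, fun P hP => h1 P hP⟩

/-- Chunk L8D (S). T' = act (1 + φ) T: (1 + φ)(1 - φ) = 3 and 3 ≡ -1 modulo 2φ (4 = -(2φ) φ), so a (1 + φ) divisible by 2φ implies 3a, hence a divisible (3a = 4a - a); P = act a T = act (-a (1 - φ)) (act (1 + φ) T). -/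
theorem tg_one (hφ : TI φ) {T : Pt (WAB A B) Ω} (hT : TG act φ T) : TG act φ (act (1 + φ) T) := by
  have hsq := hφ.sq
  have h4 : 2 * φ ∣ (4 : 𝓞 F) := ⟨-φ, by linear_combination 2 * hsq⟩
  refine ⟨fun a => ?_, fun P hP => ?_⟩
  · rw [← l8d_mul, hT.zero]
    constructor
    · intro h1
      have h2 : 2 * φ ∣ a * (1 + φ) * (1 - φ) := h1.mul_right _
      have h3 : a = 4 * a - a * (1 + φ) * (1 - φ) := by linear_combination (-a) * hsq
      rw [h3]
      exact dvd_sub (h4.mul_right _) h2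
    · intro h1
      exact h1.mul_right _
  · obtain ⟨a, rfl⟩ := hT.gen P hP
    refine ⟨-a * (1 - φ), ?_⟩
    rw [← l8d_mul]
    have h3 : -a * (1 - φ) * (1 + φ) = a - 4 * a := by linear_combination a * hsq
    rw [h3, l8d_sub, (hT.zero (4 * a)).2 (h4.mul_right _), sub_zero]

/-- Chunk L8D (M). T₀ = act 2 T, e = xc T₀: T₀ ≠ 0, act φ T₀ = 0, T₀ + T₀ = act 4 T = 0 (4 = -(2φ)φ), so yc T₀ = 0 (T₀ = -T₀, yc_neg) and e^3 + A e + B = 0. The only nonzero point killed by φ is T₀ (tor_card: Nm φ = 2): TN act φ {T₀}. h.e1x for φ and P = T (act φ T ≠ 0): -2 xc (act φ T) = xc T + (xc (T + T₀) - xc T₀), and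
T + T₀ = act 3 T = act (4 - 1) T = -T, so xc (T + T₀) = xc T (xc_neg): xc (act φ T) = e/2 - xc T. add_coords for T and T₀ (xc T ≠ e, otherwise T = ± T₀, 2φ would divide 1 - 2 or 1 + 2): xc T = (yc T/(xc T - e))^2 - xc T - e; with eqnA and B = -e^3 - A e: yc T^2 = (x - e)(x^2 + e x + e^2 + A): (x - e)(2x + e) = x^2 + e x + e^2 + A, i.e. (x - e)^2 = 3 e^2 + A.
act φ T =: P₁ is killed by 2 (2 φ T = 0), P₁ ≠ 0, P₁ ≠ T₀ (2φ does not divide φ - 2): yc P₁ = 0, xc P₁ =: x₁ ≠ e (else P₁ = ± T₀ = T₀), so x₁^2 + e x₁ + e^2 + A = 0 (divide x₁^3 + A x₁ + B = 0 by x₁ - e). With x₁ = e/2 - x and (x - e)^2 = 3e^2 + A this gives 8 A = -15 e^2, and B = -e^3 - A e: 8 B = 7 e^3. e ≠ 0 by h.disc. -/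
theorem tg_coord (h : CMA F A B Om j act) (hφ : TI φ) {T : Pt (WAB A B) Ω} (hT : TG act φ T) :
    ∃ e : Ω, e ≠ 0 ∧ 8 * algebraMap F Ω A = -15 * e ^ 2 ∧ 8 * algebraMap F Ω B = 7 * e ^ 3 ∧
      8 * (xc T - e) ^ 2 = 9 * e ^ 2 ∧ xc (act φ T) = e / 2 - xc T ∧ yc (act φ T) = 0 := by
  have hsq := hφ.sq
  have hinj : Function.Injective (algebraMap F Ω) := (algebraMap F Ω).injective
  have hak : ak Ω φ ^ 2 = -2 := by
    have h1 := congrArg (fun z : 𝓞 F => algebraMap F Ω (algebraMap (𝓞 F) F z)) hsq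
    simp only [map_pow, map_neg, map_ofNat] at h1
    exact h1
  -- the point T₀
  set T₀ : Pt (WAB A B) Ω := act 2 T with hT₀
  have hT0 : T ≠ 0 := by
    intro h0
    have h1 := (l8d_dvd hφ 1 0 (x := 1) (by push_cast; ring)).1 ((hT.zero 1).1 (by rw [h0, map_zero]))
    omega
  have hT₀0 : T₀ ≠ 0 := by
    intro h0
    have h1 := (l8d_dvd hφ 2 0 (x := 2) (by push_cast; ring)).1 ((hT.zero 2).1 h0)
    omega
  have hφT₀ : act φ T₀ = 0 := by
    rw [hT₀, ← l8d_mul, hT.zero]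
    exact ⟨1, by ring⟩
  have h4T : act 4 T = 0 := (hT.zero 4).2 ⟨-φ, by linear_combination 2 * hsq⟩
  have h2T₀ : T₀ + T₀ = 0 := by
    rw [hT₀, ← l8d_add]
    have : (2 : 𝓞 F) + 2 = 4 := by norm_num
    rw [this, h4T]
  have hneg : -T₀ = T₀ := neg_eq_of_add_eq_zero_left h2T₀
  have hy₀ : yc T₀ = 0 := by
    have h1 : yc (-T₀) = -yc T₀ := yc_neg (W := (WAB A B)⁄Ω) T₀
    rw [hneg] at h1
    have h2 : (2 : Ω) * yc T₀ = 0 := by linear_combination h1
    have hchar : (2 : Ω) ≠ 0 := by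
      intro h3
      have h4 : algebraMap F Ω 2 = algebraMap F Ω 0 := by rw [map_ofNat, map_zero]; exact h3
      exact two_ne_zero (hinj h4)
    exact (mul_eq_zero.1 h2).resolve_left hchar
  have h20 : (2 : Ω) ≠ 0 := by
    intro h3
    have h4 : algebraMap F Ω 2 = algebraMap F Ω 0 := by rw [map_ofNat, map_zero]; exact h3
    exact two_ne_zero (hinj h4)
  set e : Ω := xc T₀ with he
  set x : Ω := xc T with hx
  have heq₀ := eqnA hT₀0
  rw [hy₀] at heq₀
  have heqT := eqnA hT0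
  -- the points killed by φ
  have hTN : TN act φ {T₀} := by
    intro R
    rw [Finset.mem_singleton]
    constructor
    · rintro rfl
      exact ⟨hφT₀, hT₀0⟩
    · rintro ⟨hR, hR0⟩
      obtain ⟨a, ha⟩ := hT.gen R (by rw [l8d_mul, hR, map_zero])
      rw [ha, ← l8d_mul, hT.zero] at hR
      obtain ⟨c, hc⟩ := hR
      have hφ0 : φ ≠ 0 := by
        rintro rfl
        have h1 := (ti_dvd hφ 2 0).2.1
        have h3 : ((0 : ℤ) : 𝓞 F) = ((-2 : ℤ) : 𝓞 F) := by
          push_cast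
          linear_combination hsq
        have h4 : (0 : ℤ) = -2 := by exact_mod_cast h3
        omega
      have hac : a = 2 * c := by
        apply mul_left_cancel₀ hφ0
        linear_combination hc
      obtain ⟨c₁, c₂, hcc⟩ := hφ.rep c
      have hR2 : R = act (c₁ : 𝓞 F) T₀ := by
        rw [ha, hac, mul_comm 2 c, l8d_mul, ← hT₀, hcc, l8d_add, l8d_mul, hφT₀, map_zero, add_zero]
      rcases Int.even_or_odd c₁ with hc1 | hc1
      · exfalso
        obtain ⟨k, hk⟩ := hc1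
        apply hR0
        rw [hR2, hk]
        push_cast
        rw [l8d_add, ← map_add, h2T₀, map_zero]
      · obtain ⟨k, hk⟩ := hc1
        rw [hR2, hk]
        push_cast
        rw [l8d_add, l8d_one, two_mul, l8d_add, ← map_add, h2T₀, map_zero, zero_add]
  have hφT : act φ T ≠ 0 := by
    intro h0
    have h1 := (l8d_dvd hφ 0 1 (x := φ) (by push_cast; ring)).1 ((hT.zero φ).1 h0)
    omega
  have hTT : T + T₀ = -T := by
    have h1 : act 3 T = act 4 T - T := by
      have e3 : (3 : 𝓞 F) = 4 - 1 := by norm_num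
      rw [e3, l8d_sub, l8d_one]
    have h2 : act 3 T = T₀ + T := by
      have e3 : (3 : 𝓞 F) = 2 + 1 := by norm_num
      rw [e3, l8d_add, l8d_one]
    rw [add_comm, ← h2, h1, h4T, zero_sub]
  have hφne : φ ≠ 0 := by
    intro h0
    apply hφT
    rw [h0, map_zero]
    rfl
  have hx₁ : xc (act φ T) = e / 2 - x := by
    have h1 := h.e1x φ {T₀} hφne hTN T hφT
    rw [Finset.sum_singleton, hTT, xc_neg (W := (WAB A B)⁄Ω) T, hak] at h1
    field_simp
    linear_combination -h1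
  -- T and T₀
  have hxe : x ≠ e := by
    intro h0
    rcases xc_eq (W := (WAB A B)⁄Ω) hT0 hT₀0 h0 with h1 | h1
    · have h2 : act (1 - 2) T = 0 := by rw [l8d_sub, l8d_one, ← hT₀, ← h1, sub_self]
      have h3 := (l8d_dvd hφ (-1) 0 (x := 1 - 2) (by push_cast; ring)).1 ((hT.zero _).1 h2)
      omega
    · rw [hneg] at h1
      have h2 : act (1 - 2) T = 0 := by rw [l8d_sub, l8d_one, ← hT₀, ← h1, sub_self]
      have h3 := (l8d_dvd hφ (-1) 0 (x := 1 - 2) (by push_cast; ring)).1 ((hT.zero _).1 h2)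
      omega
  have hxe' : x - e ≠ 0 := sub_ne_zero.2 hxe
  obtain ⟨-, hadd, -⟩ := add_coords (W := (WAB A B)⁄Ω) hT0 hT₀0 hxe
  rw [hTT, xc_neg (W := (WAB A B)⁄Ω) T, hy₀, sub_zero] at hadd
  have k1 : (2 * x + e) * (x - e) ^ 2 = yc T ^ 2 := by
    have h1 : (yc T / (xc T - xc T₀)) ^ 2 * (x - e) ^ 2 = yc T ^ 2 := by
      rw [← hx, ← he]
      field_simp
    rw [← h1]
    linear_combination (x - e) ^ 2 * hadd
  have k2 : (x - e) ^ 2 = 3 * e ^ 2 + algebraMap F Ω A := by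
    apply mul_left_cancel₀ hxe'
    linear_combination k1 + heqT - heq₀
  -- P₁
  have hP₁2 : act φ T + act φ T = 0 := by
    rw [← l8d_add, hT.zero]
    exact ⟨1, by ring⟩
  have hnegP : -(act φ T) = act φ T := neg_eq_of_add_eq_zero_left hP₁2
  have hyP : yc (act φ T) = 0 := by
    have h1 : yc (-(act φ T)) = -yc (act φ T) := yc_neg (W := (WAB A B)⁄Ω) (act φ T)
    rw [hnegP] at h1
    have h2 : (2 : Ω) * yc (act φ T) = 0 := by linear_combination h1
    exact (mul_eq_zero.1 h2).resolve_left h20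
  have heqP := eqnA hφT
  rw [hyP] at heqP
  have hxPe : xc (act φ T) ≠ e := by
    intro h0
    have h3 : act φ T = T₀ := by
      rcases xc_eq (W := (WAB A B)⁄Ω) hφT hT₀0 h0 with h1 | h1
      · exact h1
      · rw [h1, hneg]
    have h2 : act (φ - 2) T = 0 := by rw [l8d_sub, ← hT₀, ← h3, sub_self]
    have h4 := (l8d_dvd hφ (-2) 1 (x := φ - 2) (by push_cast; ring)).1 ((hT.zero _).1 h2)
    omega
  have k3 : xc (act φ T) ^ 2 + e * xc (act φ T) + e ^ 2 + algebraMap F Ω A = 0 := by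
    apply mul_left_cancel₀ (sub_ne_zero.2 hxPe)
    linear_combination heq₀ - heqP
  rw [hx₁] at k3
  have k4 : 8 * algebraMap F Ω A = -15 * e ^ 2 := by
    field_simp at k3
    linear_combination k3 - 4 * k2
  have k5 : 8 * algebraMap F Ω B = 7 * e ^ 3 := by
    linear_combination (-8) * heq₀ - e * k4
  have he0 : e ≠ 0 := by
    intro h0
    rw [h0] at k4 k5
    apply h.disc
    have h8 : (8 : Ω) ≠ 0 := by
      have : (8 : Ω) = 2 ^ 3 := by norm_num
      rw [this]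
      exact pow_ne_zero 3 h20
    have hA0 : algebraMap F Ω A = 0 := (mul_eq_zero.1 (by rw [k4]; ring : (8 : Ω) * algebraMap F Ω A = 0)).resolve_left h8
    have hB0 : algebraMap F Ω B = 0 := (mul_eq_zero.1 (by rw [k5]; ring : (8 : Ω) * algebraMap F Ω B = 0)).resolve_left h8
    rw [(map_eq_zero _).1 hA0, (map_eq_zero _).1 hB0]
    ring
  refine ⟨e, he0, k4, k5, ?_, hx₁, hyP⟩
  linear_combination 8 * k2 + k4

end H55W
end

-- from Lib.H55W.L8F
section

/-! # H55W, part L: the points killed by 2 sqrt(-2), discriminant -8 -/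

open NumberField IsDedekindDomain WeierstrassCurve

namespace H55W

open H55P (IQ embF eF LF Per IsHecke Pt ac Inert Dec Nm)
open H35P (WAB Ker tt GoodW IntW)
open H55K
open H13D (RM)

variable {F : Type} [Field F] [NumberField F] [IQ F] {φ : 𝓞 F} {A B : F} {Om : ℂ} {Ω : Type} [Field Ω] [DecidableEq Ω]
  [Algebra F Ω] {j : Ω →+* ℂ} {act : 𝓞 F →+* AddMonoid.End (Pt (WAB A B) Ω)}

/-- Chunk L8F (M). e = -(15 B)/(7 A) is given by tg_coord (A ≠ 0), so n = 3 e is unique: hA, hB give 3 e = n (8A = -15 e^2, 24 A = -5 n^2, 8B = 7e^3, 216 B = 7 n^3: (e/(n/3))^2 = 1 and cube = 1). σ = 4 X/n, X = xc T - n/3: σ^2 = 2 (8 X^2 = n^2). y = yc T: y^2 = n^3 (2 + σ)/16 (eqnA). P₁ = act φ T: xc P₁ - n/3 = -n (2 + σ)/4, yc = 0. add_coords for T and P₁ (X ≠ X₁: 1 + σ ≠ 0):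
slope m = 2 y/(n (1 + σ)), and (1 + σ)(σ - 1) = 1: xc (T + P₁) - n/3 = m^2 - n - X - X₁ = -X, yc (T + P₁) = -(m (-2X) + y) = -(σ - 1) y. act (1 + φ) T = T + P₁. -/
theorem tg_add (h : CMA F A B Om j act) (hφ : TI φ) {n : ℤ} (hA : 24 * A = -5 * (n : F) ^ 2) (hB : 216 * B = 7 * (n : F) ^ 3)
    {T : Pt (WAB A B) Ω} (hT : TG act φ T) : (n : Ω) ≠ 0 ∧ ∃ σ : Ω, σ ^ 2 = 2 ∧ xc T = (n : Ω) / 3 + n * σ / 4 ∧
      16 * yc T ^ 2 = n ^ 3 * (2 + σ) ∧ xc (act (1 + φ) T) = (n : Ω) / 3 - n * σ / 4 ∧ yc (act (1 + φ) T) = -(σ - 1) * yc T := by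
  obtain ⟨e, he0, hA8, hB8, hX8, hx₁, hy₁⟩ := tg_coord h hφ hT
  have hsq := hφ.sq
  have hinj : Function.Injective (algebraMap F Ω) := (algebraMap F Ω).injective
  have hch : CharZero Ω := charZero_of_injective_algebraMap hinj
  have hAΩ : 24 * algebraMap F Ω A = -5 * (n : Ω) ^ 2 := by
    have h1 := congrArg (algebraMap F Ω) hA
    simp only [map_mul, map_neg, map_pow, map_ofNat, map_intCast] at h1
    exact h1
  have hBΩ : 216 * algebraMap F Ω B = 7 * (n : Ω) ^ 3 := by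
    have h1 := congrArg (algebraMap F Ω) hB
    simp only [map_mul, map_pow, map_ofNat, map_intCast] at h1
    exact h1
  have hn2 : (n : Ω) ^ 2 = 9 * e ^ 2 := by
    linear_combination (1 / 5) * hAΩ - (3 / 5) * hA8
  have hn3 : (n : Ω) ^ 3 = 27 * e ^ 3 := by
    linear_combination (-1 / 7) * hBΩ + (27 / 7) * hB8
  have hne : (n : Ω) = 3 * e := by
    apply mul_left_cancel₀ (mul_ne_zero (show (9 : Ω) ≠ 0 by norm_num) (pow_ne_zero 2 he0))
    linear_combination hn3 - (n : Ω) * hn2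
  have hT0 : T ≠ 0 := by
    intro h0
    have h1 := (l8d_dvd hφ 1 0 (x := 1) (by push_cast; ring)).1 ((hT.zero 1).1 (by rw [h0, map_zero]))
    omega
  have hφT : act φ T ≠ 0 := by
    intro h0
    have h1 := (l8d_dvd hφ 0 1 (x := φ) (by push_cast; ring)).1 ((hT.zero φ).1 h0)
    omega
  have heqT := eqnA hT0
  have hact : act (1 + φ) T = T + act φ T := by rw [l8d_add, l8d_one]
  obtain ⟨σ, hσ⟩ : ∃ σ : Ω, 4 * (xc T - e) = 3 * e * σ := ⟨4 * (xc T - e) / (3 * e), by field_simp⟩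
  have hxσ : xc T = e + 3 / 4 * e * σ := by linear_combination (1 / 4) * hσ
  have hσ2 : σ ^ 2 = 2 := by
    apply mul_left_cancel₀ (mul_ne_zero (show (9 : Ω) ≠ 0 by norm_num) (pow_ne_zero 2 he0))
    linear_combination 2 * hX8 - (4 * (xc T - e) + 3 * e * σ) * hσ
  have hσ1 : 1 + σ ≠ 0 := by
    intro h0
    have h1 : (1 : Ω) = 0 := by linear_combination -hσ2 + (σ - 1) * h0
    exact one_ne_zero h1
  have hy2 : 16 * yc T ^ 2 = 27 * e ^ 3 * (2 + σ) := by
    rw [hxσ] at heqT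
    linear_combination 16 * heqT + 2 * (e + 3 / 4 * e * σ) * hA8 + 2 * hB8 + e ^ 3 * (27 + 27 / 4 * σ) * hσ2
  have hdiff : xc T - xc (act φ T) = 3 / 2 * e * (1 + σ) := by
    rw [hx₁]
    linear_combination 2 * hxσ
  have hdiff0 : xc T - xc (act φ T) ≠ 0 := by
    rw [hdiff]
    exact mul_ne_zero (mul_ne_zero (by norm_num) he0) hσ1
  obtain ⟨-, hX, hY⟩ := add_coords (W := (WAB A B)⁄Ω) hT0 hφT (sub_ne_zero.1 hdiff0)
  rw [hy₁, sub_zero] at hX hY
  obtain ⟨m, hm⟩ : ∃ m : Ω, m = yc T / (xc T - xc (act φ T)) := ⟨_, rfl⟩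
  rw [← hm] at hX hY
  have hm1 : m * (3 / 2 * e * (1 + σ)) = yc T := by
    rw [hm, ← hdiff, div_mul_cancel₀ _ hdiff0]
  have hm2 : m * (3 / 2 * e) = yc T * (σ - 1) := by
    linear_combination (σ - 1) * hm1 - m * (3 / 2 * e) * hσ2
  have hmsq : m ^ 2 = 3 / 4 * e * (2 - σ) := by
    apply mul_left_cancel₀ (mul_ne_zero (show (9 / 4 : Ω) ≠ 0 by norm_num) (pow_ne_zero 2 he0))
    linear_combination (m * (3 / 2 * e) + yc T * (σ - 1)) * hm2 + (σ - 1) ^ 2 / 16 * hy2 +
      27 / 16 * e ^ 3 * (σ ^ 2 * 0 + σ) * hσ2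
  have hX' : xc (T + act φ T) = e - 3 / 4 * e * σ := by
    rw [hX, hx₁]
    linear_combination hmsq
  refine ⟨by rw [hne]; exact mul_ne_zero (by norm_num) he0, σ, hσ2, ?_, ?_, ?_, ?_⟩
  · rw [hne]
    linear_combination hxσ
  · rw [hne]
    linear_combination hy2
  · rw [hact, hX', hne]
    ring
  · rw [hact, hY, hX', hxσ]
    linear_combination σ * hm2 + yc T * hσ2

/-- Chunk L8F (S/M). Ω algebraically closed of characteristic 0: ζ₀ a primitive 16th root of unity (HasEnoughRootsOfUnity or IsAlgClosed.exists_... ; IsPrimitiveRoot), ζ₀^8 = -1, (ζ₀^2 + ζ₀^6)^2 = -2 = (ak φ)^2: ak φ = ± (ζ₀^2 + ζ₀^6); in the case of the minus sign take ζ = ζ₀^(-1) = -ζ₀^7 (ζ^2 + ζ^6 = -(ζ₀^6 + ζ₀^2)). -/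
theorem exists_zeta [IsAlgClosed Ω] (hφ : TI φ) : ∃ ζ : Ω, ζ ^ 8 = -1 ∧ ak Ω φ = ζ ^ 2 + ζ ^ 6 := by
  have hinj : Function.Injective (algebraMap F Ω) := (algebraMap F Ω).injective
  have hak : ak Ω φ ^ 2 = -2 := by
    have h1 := congrArg (fun z : 𝓞 F => algebraMap F Ω (algebraMap (𝓞 F) F z)) hφ.sq
    simp only [map_pow, map_neg, map_ofNat] at h1
    exact h1
  obtain ⟨ζ, hζ⟩ := IsAlgClosed.exists_pow_nat_eq (-1 : Ω) (n := 8) (by norm_num)
  have h1 : (ak Ω φ - (ζ ^ 2 + ζ ^ 6)) * (ak Ω φ + (ζ ^ 2 + ζ ^ 6)) = 0 := by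
    linear_combination hak - (2 + ζ ^ 4) * hζ
  rcases mul_eq_zero.1 h1 with h2 | h2
  · exact ⟨ζ, hζ, sub_eq_zero.1 h2⟩
  · refine ⟨-ζ ^ 7, ?_, ?_⟩
    · have e : (-ζ ^ 7) ^ 8 = (ζ ^ 8) ^ 7 := by ring
      rw [e, hζ]
      ring
    · have e2 : (-ζ ^ 7) ^ 2 = ζ ^ 8 * ζ ^ 6 := by ring
      have e6 : (-ζ ^ 7) ^ 6 = (ζ ^ 8) ^ 5 * ζ ^ 2 := by ring
      rw [e2, e6, hζ]
      linear_combination h2

end H55W
end

-- from Lib.H13Y.D1
section

open NumberField IsDedekindDomain WeierstrassCurve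

namespace H13Y

open H55P
open H13Z (SelNon)

/-- Chunk YD1 (S/M). PORT of H55P.sel_base (Z11.lean) in the other direction: φ from base_iso, c' s = φ⁻¹ (c t) if s = t.restrictScalars k with t in K.fixingSubgroup (Z11_lift; t is determined by s), 0 otherwise. Continuity: L over F finite from c.cont, L.restrictScalars k is finite over k (FiniteDimensional.trans). Local conditions: Dec V (t.restrictScalars k) iff Dec V t (same function). The class is not the class of T: otherwise c t = ac t (φ T) - φ T. -/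
theorem non_base {k F Ω : Type} [Field k] [Field F] [Field Ω] [DecidableEq Ω] [Algebra k F] [Algebra k Ω]
    [Algebra F Ω] [IsScalarTower k F Ω] [FiniteDimensional k F] (W : WeierstrassCurve k) (p : ℕ)
    (K : IntermediateField F Ω) [FiniteDimensional F K] (hS : SelNon (W⁄F) p K) :
    SelNon W p (K.restrictScalars k) := by
  classical
  obtain ⟨c, hc, hp, hV, hT⟩ := hS
  obtain ⟨φ, hφ⟩ := base_iso (F := F) (Ω := Ω) W
  obtain ⟨c', hc'⟩ : ∃ c' : (Ω ≃ₐ[k] Ω) → Pt W Ω, ∀ t : Ω ≃ₐ[F] Ω, t ∈ K.fixingSubgroup →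
      c' (t.restrictScalars k) = φ.symm (c t) := by
    refine ⟨fun s => if h : ∃ t : Ω ≃ₐ[F] Ω, t.restrictScalars k = s ∧ t ∈ K.fixingSubgroup then
      φ.symm (c h.choose) else 0, fun t ht => ?_⟩
    have h : ∃ t' : Ω ≃ₐ[F] Ω, t'.restrictScalars k = t.restrictScalars k ∧ t' ∈ K.fixingSubgroup :=
      ⟨t, rfl, ht⟩
    have h2 : h.choose = t := AlgEquiv.restrictScalars_injective k h.choose_spec.1
    show (if h : ∃ t' : Ω ≃ₐ[F] Ω, t'.restrictScalars k = t.restrictScalars k ∧ t' ∈ K.fixingSubgroup then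
      φ.symm (c h.choose) else 0) = _
    rw [dif_pos h, h2]
  have hac : ∀ (t : Ω ≃ₐ[F] Ω) (Q : Pt (W⁄F) Ω), ac W (t.restrictScalars k) (φ.symm Q) =
      φ.symm (ac (W⁄F) t Q) := by
    intro t Q
    apply φ.injective
    rw [hφ, AddEquiv.apply_symm_apply, AddEquiv.apply_symm_apply]
  refine ⟨c', ⟨?_, ?_⟩, ?_, ?_, ?_⟩
  · intro s hs s' hs'
    obtain ⟨t, rfl, ht⟩ := Z11_lift K s hs
    obtain ⟨t', rfl, ht'⟩ := Z11_lift K s' hs'
    have h2 : (t.restrictScalars k) * (t'.restrictScalars k) = (t * t').restrictScalars k := rfl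
    rw [h2, hc' _ (mul_mem ht ht'), hc' _ ht, hc' _ ht', hc.mul t ht t' ht', map_add, hac]
  · obtain ⟨L, hL, hLc⟩ := hc.cont
    refine ⟨L.restrictScalars k, ?_, ?_⟩
    · have : FiniteDimensional k L := FiniteDimensional.trans k F L
      exact this
    · intro s hs hsL
      obtain ⟨t, rfl, ht⟩ := Z11_lift K s hs
      have htL : t ∈ L.fixingSubgroup := by
        rw [IntermediateField.mem_fixingSubgroup_iff] at hsL ⊢
        exact hsL
      rw [hc' _ ht, hLc _ ht htL, map_zero]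
  · intro s hs
    obtain ⟨t, rfl, ht⟩ := Z11_lift K s hs
    rw [hc' _ ht, ← map_nsmul, hp _ ht, map_zero]
  · intro V hVt
    obtain ⟨P, hP⟩ := hV V hVt
    refine ⟨φ.symm P, fun s hs hD => ?_⟩
    obtain ⟨t, rfl, ht⟩ := Z11_lift K s hs
    have hDt : Dec V t := fun x => hD x
    rw [hc' _ ht, hP t ht hDt, map_sub, hac]
  · rintro ⟨T, hpT, hcT⟩
    refine hT ⟨φ T, ?_, fun t ht => ?_⟩
    · rw [← map_nsmul, hpT, map_zero]
    · have h1 := hcT _ (Z11_mem (k := k) K t ht)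
      rw [hc' _ ht] at h1
      have h2 := congrArg φ h1
      rw [AddEquiv.apply_symm_apply, map_sub, hφ] at h2
      exact h2

end H13Y
end

-- from Lib.H28T.W7
section

open NumberField IsDedekindDomain

namespace H28T

open H28R
open H55P H55R

variable {F : Type} [Field F] [NumberField F] {G : HeightOneSpectrum (𝓞 F) → Prop}

/-! Chunk W7 (M): the eigenvector. For δ in Δ = group of C/K there is a unique a(δ) in {1,..,p-1} with ζ = (δ ζ)^a(δ) (δ ζ = ζ^n, n prime to p; a(δ) the inverse of n modulo p). γ = product over δ of (δ α)^(a δ) (units). pp: a = product of (δ a0)^(a δ), a0 in 𝓞 C with p^2 | a0 - 1; δ a0 = 1 mod p^2 (δ acts on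
𝓞 C and fixes p). eig: δ' γ = product of (δ' δ α)^(a δ) = product over δ of (δ α)^(a(δ'⁻¹ δ)), and a(δ'⁻¹ δ) = n' a(δ) mod p if δ' ζ = ζ^n' (check: ((δ'⁻¹ δ) ζ)^(n' a δ) = δ'⁻¹ ((δ ζ)^(n' a δ)) = δ'⁻¹ (ζ^n') = ζ); so δ' γ = γ^n' times a p-th power (exponents differ by multiples of p: zpow). For every natural
number n with δ' ζ = ζ^n. Orders: ord P (δ α) = ord (δ⁻¹ P) α (H55R.ord_smul). If P is not one of the δ w, δ w': all the orders are divisible by p. At w: the stabiliser of w in the group of C/F is trivial (card_stab: inertia degree and ramification index 1: fs = es = 1), so δ⁻¹ w = w only for δ = 1, and δ⁻¹ w <> w' because w' lies over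
another prime of F (under_smulP): ord w γ = a(1) ord w α = ord w α = 1 mod p. -/

theorem w7_cong {R : Type} [CommRing R] (q : R) {ι : Type} (s : Finset ι) (f : ι → R) (n : ι → ℕ)
    (h : ∀ i ∈ s, q ∣ f i - 1) : q ∣ ∏ i ∈ s, f i ^ n i - 1 := by
  have hm : ∀ x y : R, q ∣ x - 1 → q ∣ y - 1 → q ∣ x * y - 1 := by
    intro x y hx hy
    have e : x * y - 1 = x * (y - 1) + (x - 1) := by ring
    rw [e]
    exact dvd_add (dvd_mul_of_dvd_right hy x) hx
  refine Finset.prod_induction _ (fun x => q ∣ x - 1) hm (by simp) ?_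
  intro i hi
  induction n i with
  | zero => simp
  | succ m ih =>
    rw [pow_succ]
    exact hm _ _ ih (h i hi)

theorem w7_mod {C : Type} [Field C] {ζ : C} {p : ℕ} (h : IsPrimitiveRoot ζ p) (hp : 0 < p)
    {i j : ℕ} (e : ζ ^ i = ζ ^ j) : i ≡ j [MOD p] := by
  have e1 : ∀ m : ℕ, ζ ^ m = ζ ^ (m % p) := by
    intro m
    conv_lhs => rw [← Nat.div_add_mod m p, pow_add, pow_mul, h.pow_eq_one, one_pow, one_mul]
  rw [e1 i, e1 j] at e
  exact h.pow_inj (Nat.mod_lt _ hp) (Nat.mod_lt _ hp) e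

theorem exists_gam {p : ℕ} (hp : p.Prime) {K C : Type} [Field K] [NumberField K]
    [Field C] [NumberField C] [Algebra F K] [Algebra F C] [Algebra K C] [IsScalarTower F K C]
    {ζ : C} (h : Cyc F p K C ζ) {B : ℕ} {α : Cˣ} {w w' : Pl C} (hα : Alp G p C B α w w') :
    ∃ γ : Cˣ, Gam G p K C ζ B γ w w' := by
  classical
  have hGal := h.gal
  have hpf : Fact p.Prime := ⟨hp⟩
  have hroot : ∀ δ : C ≃ₐ[K] C, ∃ i : ℕ, δ⁻¹ ζ = ζ ^ i := by
    intro δ
    have h1 : (δ⁻¹ ζ) ^ p = 1 := by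
      rw [← map_pow, h.prim.pow_eq_one, map_one]
    obtain ⟨i, -, hi⟩ := h.prim.eq_pow_of_pow_eq_one h1
    exact ⟨i, hi.symm⟩
  choose a ha using hroot
  set G : (C ≃ₐ[K] C) → Cˣ := fun δ => Units.map ((δ : C ≃ₐ[K] C) : C →* C) α with hG
  have hGv : ∀ δ, ((G δ : Cˣ) : C) = δ (α : C) := fun δ => rfl
  set γ : Cˣ := ∏ δ : C ≃ₐ[K] C, G δ ^ a δ with hγ
  -- orders
  have e3 : ∀ (P : Pl C) (δ : C ≃ₐ[K] C), ord P (G δ) = ord (smulP (δ⁻¹ : Gal(C/K)) P) α := by
    intro P δ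
    rw [← ord_smul (δ : Gal(C/K)) (smulP (δ⁻¹ : Gal(C/K)) P) α, ← smulP_mul, mul_inv_cancel,
      smulP_one]
  have e4 : ∀ P : Pl C, ord P γ =
      ∑ δ : C ≃ₐ[K] C, (a δ : ℤ) * ord (smulP (δ⁻¹ : Gal(C/K)) P) α := by
    intro P
    rw [hγ, wst_prod]
    exact Finset.sum_congr rfl fun δ _ => by rw [e3]
  have e5 : ∀ (σ : Gal(C/K)) (P Q : Pl C), smulP (σ⁻¹) P = Q → P = smulP σ Q := by
    intro σ P Q hPQ
    rw [← hPQ, ← smulP_mul, mul_inv_cancel, smulP_one]
  refine ⟨γ, ?_, ?_, ?_, ?_, hα.ne, hα.nice, hα.nice'⟩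
  · obtain ⟨a0, ha0, ha1⟩ := hα.pp
    refine ⟨∏ δ : C ≃ₐ[K] C, ((δ : Gal(C/K)) • a0 : 𝓞 C) ^ a δ, ?_, ?_⟩
    · rw [hγ, Units.coe_prod]
      have e6 : ((∏ δ : C ≃ₐ[K] C, ((δ : Gal(C/K)) • a0 : 𝓞 C) ^ a δ : 𝓞 C) : C) =
          ∏ δ : C ≃ₐ[K] C, (((δ : Gal(C/K)) • a0 : 𝓞 C) : C) ^ a δ := by
        show algebraMap (𝓞 C) C (∏ δ : C ≃ₐ[K] C, ((δ : Gal(C/K)) • a0 : 𝓞 C) ^ a δ) = _
        rw [map_prod]
        exact Finset.prod_congr rfl fun δ _ => map_pow _ _ _
      rw [e6]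
      refine Finset.prod_congr rfl fun δ _ => ?_
      rw [Units.val_pow_eq_pow_val, hGv, BF1_coe, ha0]
    · apply w7_cong
      intro δ _
      obtain ⟨b, hb⟩ := ha1
      refine ⟨(δ : Gal(C/K)) • b, ?_⟩
      have e7 : (δ : Gal(C/K)) • a0 - 1 = (δ : Gal(C/K)) • (a0 - 1) := by
        rw [smul_sub, smul_one]
      rw [e7, hb, smul_mul', smul_pow']
      congr 2
      apply RingOfIntegers.ext
      rw [BF1_coe]
      exact map_natCast _ _
  · intro hdiv
    rw [e4, ← Finset.add_sum_erase _ _ (Finset.mem_univ (1 : C ≃ₐ[K] C))] at hdiv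
    have h1 : (p : ℤ) ∣ ∑ δ ∈ Finset.univ.erase (1 : C ≃ₐ[K] C),
        (a δ : ℤ) * ord (smulP (δ⁻¹ : Gal(C/K)) w) α := by
      refine Finset.dvd_sum fun δ hδ => dvd_mul_of_dvd_right (hα.oth _ ?_ ?_) _
      · intro h2
        rw [← wst_res (F := F) (δ⁻¹) w] at h2
        have h3 := wst_one w hα.nice.deg hα.nice.unr _ h2
        have h4 : δ⁻¹ = 1 := by
          ext x
          exact congrArg (fun s : C ≃ₐ[F] C => s x) h3
        exact Finset.ne_of_mem_erase hδ (inv_eq_one.1 h4)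
      · intro h2
        rw [← wst_res (F := F) (δ⁻¹) w] at h2
        have h3 := congrArg (fun W : Pl C => W.under (𝓞 F)) h2
        simp only [under_smulP] at h3
        exact hα.ne (congrArg HeightOneSpectrum.asIdeal h3)
    have h2 := (dvd_add_left h1).1 hdiv
    rw [inv_one, smulP_one] at h2
    have h3 : ζ ^ a 1 = ζ ^ 1 := by
      rw [← ha 1, inv_one, pow_one]
      rfl
    have h4 : ((a 1 : ℕ) : ℤ) ≡ ((1 : ℕ) : ℤ) [ZMOD p] := by
      rw [Int.natCast_modEq_iff]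
      exact w7_mod h.prim hp.pos h3
    rcases Int.Prime.dvd_mul' hp h2 with h5 | h5
    · have h6 := (Int.modEq_iff_dvd.1 h4.symm)
      have h7 : (p : ℤ) ∣ 1 := by
        have h8 := dvd_sub h5 h6
        simpa using h8
      exact hp.one_lt.ne' (by exact_mod_cast Int.eq_one_of_dvd_one (by positivity) h7)
    · have h7 : (p : ℤ) ∣ 1 := by
        have h8 := dvd_sub h5 hα.at1
        simpa using h8
      exact hp.one_lt.ne' (by exact_mod_cast Int.eq_one_of_dvd_one (by positivity) h7)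
  · intro P hP
    rw [e4]
    refine Finset.dvd_sum fun δ _ => dvd_mul_of_dvd_right (hα.oth _ ?_ ?_) _
    · intro h2
      exact (hP δ).1 (e5 δ P w h2)
    · intro h2
      exact (hP δ).2 (e5 δ P w' h2)
  · intro δ' n hn
    have h1 : ∀ δ : C ≃ₐ[K] C, ∃ k : ℤ, (a (δ'⁻¹ * δ) : ℤ) = n * a δ + p * k := by
      intro δ
      have h2 : ζ ^ a (δ'⁻¹ * δ) = ζ ^ (n * a δ) := by
        rw [← ha, mul_inv_rev, inv_inv]
        show δ⁻¹ (δ' ζ) = _
        rw [hn, map_pow, ha, ← pow_mul, mul_comm]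
      have h3 : (((n * a δ : ℕ)) : ℤ) ≡ ((a (δ'⁻¹ * δ) : ℕ) : ℤ) [ZMOD p] := by
        rw [Int.natCast_modEq_iff]
        exact (w7_mod h.prim hp.pos h2).symm
      obtain ⟨k, hk⟩ := Int.modEq_iff_dvd.1 h3
      refine ⟨k, ?_⟩
      push_cast at hk
      linarith
    choose k hk using h1
    refine ⟨∏ δ : C ≃ₐ[K] C, G δ ^ k δ, ?_⟩
    have h2 : Units.map ((δ' : C ≃ₐ[K] C) : C →* C) γ =
        ∏ δ : C ≃ₐ[K] C, G δ ^ (a (δ'⁻¹ * δ)) := by
      rw [hγ, map_prod]
      refine Fintype.prod_equiv (Equiv.mulLeft δ') _ _ fun δ => ?_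
      rw [map_pow]
      have e8 : Equiv.mulLeft δ' δ = δ' * δ := rfl
      rw [e8, inv_mul_cancel_left]
      congr 1
    have h3 : Units.map ((δ' : C ≃ₐ[K] C) : C →* C) γ =
        γ ^ n * (∏ δ : C ≃ₐ[K] C, G δ ^ k δ) ^ p := by
      rw [h2, hγ, ← Finset.prod_pow, ← Finset.prod_pow, ← Finset.prod_mul_distrib]
      refine Finset.prod_congr rfl fun δ _ => ?_
      rw [← zpow_natCast (G δ) (a (δ'⁻¹ * δ)), hk, zpow_add, zpow_mul', zpow_mul']
      simp only [zpow_natCast]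
    have h4 := congrArg (fun u : Cˣ => (u : C)) h3
    simp only [Units.val_mul, Units.val_pow_eq_pow_val] at h4
    exact h4

end H28T
end

-- from Lib.H28T.W21
section

open NumberField IsDedekindDomain

namespace H28T

open H28R
open H55P H55R

variable {F : Type} [Field F] [NumberField F] {G : HeightOneSpectrum (𝓞 F) → Prop}

/-! Chunk W21 (M). The conjugates of γ under FixZ F ζ are independent modulo p-th powers. Let a h <> 0, P = h w (smulP): ord P (g γ) = ord (g⁻¹ h w) γ is divisible by p unless g⁻¹ h w = δ w for some δ in the group of C/K (δ w' lies over another prime), i.e. δ⁻¹ g⁻¹ h = 1 (trivial stabiliser) and then h = g δ,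
δ fixes ζ, δ = 1, g = h. So the order of the product at P is a h times ord w γ modulo p. (Trivial stabiliser: H55R card_stab with Nice.deg and Nice.unr, see the header of W7; ord_smul for the action on primes. A shared helper file is fine.) -/

theorem not_pow {p : ℕ} (hp : p.Prime) {K C : Type} [Field K] [NumberField K]
    [Field C] [NumberField C] [Algebra F K] [Algebra F C] [Algebra K C] [IsScalarTower F K C]
    {ζ : C} (h : Cyc F p K C ζ) {B : ℕ} {γ : Cˣ} {w w' : Pl C} (hγ : Gam G p K C ζ B γ w w')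
    [Fintype (FixZ F ζ)] (a : FixZ F ζ → ZMod p) (ha : a ≠ 0) :
    ¬ ∃ z : C, z ^ p = ∏ g : FixZ F ζ, ((g : C ≃ₐ[F] C) (γ : C)) ^ (a g).val := by
  classical
  have hGal := h.gal
  have hpf : Fact p.Prime := ⟨hp⟩
  rintro ⟨z, hz⟩
  obtain ⟨h0, hh0⟩ := Function.ne_iff.1 ha
  -- the units
  set G : FixZ F ζ → Cˣ := fun g => Units.map (((g : C ≃ₐ[F] C) : C ≃ₐ[F] C) : C →* C) γ with hG
  have hGv : ∀ g, ((G g : Cˣ) : C) = (g : C ≃ₐ[F] C) (γ : C) := fun g => rfl
  have hprod : z ^ p = ((∏ g : FixZ F ζ, G g ^ (a g).val : Cˣ) : C) := by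
    rw [hz, Units.coe_prod]
    refine Finset.prod_congr rfl fun g _ => ?_
    rw [Units.val_pow_eq_pow_val, hGv]
  have hz0 : z ≠ 0 := by
    intro h1
    rw [h1, zero_pow hp.ne_zero] at hprod
    exact (Units.ne_zero _) hprod.symm
  have hzu : (Units.mk0 z hz0) ^ p = ∏ g : FixZ F ζ, G g ^ (a g).val := by
    apply Units.ext
    rw [Units.val_pow_eq_pow_val, Units.val_mk0]
    exact hprod
  -- the prime
  set P : Pl C := smulP (h0 : C ≃ₐ[F] C) w with hP
  have e1 : ord P ((Units.mk0 z hz0) ^ p) = (p : ℤ) * ord P (Units.mk0 z hz0) := by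
    have h := ord_zpow P (Units.mk0 z hz0) (p : ℤ)
    rw [zpow_natCast] at h
    exact h
  have e2 : (p : ℤ) ∣ ∑ g : FixZ F ζ, ((a g).val : ℤ) * ord P (G g) := by
    rw [← wst_prod P Finset.univ G fun g => (a g).val, ← hzu, e1]
    exact dvd_mul_right _ _
  have e3 : ∀ g : FixZ F ζ, ord P (G g) =
      ord (smulP ((g : C ≃ₐ[F] C)⁻¹ * (h0 : C ≃ₐ[F] C)) w) γ := by
    intro g
    rw [smulP_mul, ← hP, ← ord_smul (g : C ≃ₐ[F] C) (smulP ((g : C ≃ₐ[F] C)⁻¹) P) γ,
      ← smulP_mul, mul_inv_cancel, smulP_one]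
  have e4 : ∀ g : FixZ F ζ, g ≠ h0 → (p : ℤ) ∣ ord P (G g) := by
    intro g hg
    rw [e3]
    apply hγ.oth
    intro δ
    constructor
    · intro hδ
      rw [← wst_res (F := F) δ w] at hδ
      have h1 := wst_eq w hγ.nice.deg hγ.nice.unr _ _ hδ
      have h2 : (g : C ≃ₐ[F] C)⁻¹ * (h0 : C ≃ₐ[F] C) ∈ FixZ F ζ :=
        (FixZ F ζ).mul_mem ((FixZ F ζ).inv_mem g.2) h0.2
      rw [h1] at h2
      have h3 : δ ζ = ζ := h2
      have h4 := h.gen δ h3
      rw [h4] at h1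
      have h5 : (g : C ≃ₐ[F] C)⁻¹ * (h0 : C ≃ₐ[F] C) = 1 := by
        rw [h1]
        rfl
      rw [inv_mul_eq_one] at h5
      exact hg (Subtype.ext h5)
    · intro hδ
      rw [← wst_res (F := F) δ w'] at hδ
      have h1 := congrArg (fun W : Pl C => W.under (𝓞 F)) hδ
      simp only [under_smulP] at h1
      exact hγ.ne (congrArg HeightOneSpectrum.asIdeal h1)
  have e5 : (p : ℤ) ∣ ((a h0).val : ℤ) * ord P (G h0) := by
    rw [← Finset.add_sum_erase _ _ (Finset.mem_univ h0)] at e2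
    refine (dvd_add_left (Finset.dvd_sum fun g hg => ?_)).1 e2
    exact dvd_mul_of_dvd_right (e4 g (Finset.ne_of_mem_erase hg)) _
  have e6 : ord P (G h0) = ord w γ := by
    rw [e3, inv_mul_cancel, smulP_one]
  rw [e6] at e5
  rcases Int.Prime.dvd_mul' hp e5 with h1 | h1
  · rw [Int.natCast_dvd_natCast] at h1
    have h2 : (a h0).val < p := ZMod.val_lt _
    have h3 : (a h0).val = 0 := Nat.eq_zero_of_dvd_of_lt h1 h2
    exact hh0 ((ZMod.val_eq_zero _).1 h3)
  · exact hγ.at1 h1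

end H28T
end

-- from Lib.H28T.W8
section

open NumberField IsDedekindDomain

namespace H28T

open H28R
open H55P H55R

variable {F : Type} [Field F] [NumberField F] {G : HeightOneSpectrum (𝓞 F) → Prop}

/-! Chunk W8 (M/L): the field N. Ω = AlgebraicClosure C, r0 g in Ω with r0 g ^ p = g γ (g in FixZ F ζ), N = IntermediateField.adjoin C (range r0) (compare H19T/W3.lean, exists_Wr3). N/F is Galois: an F-embedding σ of Ω restricts to an element s of the group of C/F (h.gal), s = g1 δ (h.dec) with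
g1 in FixZ, δ in the group of C/K; δ ζ = ζ^n for some n; (δ γ) = γ^n z^p (heig). For g in FixZ: s (g γ) = g1 (δ (g γ)) = g1 (g (δ γ)) (h.comm) = ((g1 g) γ)^n ((g1 g) z)^p. So σ (r0 g)^p = (r0 (g1 g)^n * (g1 g) z)^p, σ (r0 g) = ζ^i r0 (g1 g)^n (g1 g) z in N (p-th roots of unity are the powers of ζ:
IsPrimitiveRoot.eq_pow_of_pow_eq_one). WrP.gen: Algebra.adjoin = ⊤ for algebraic elements (IntermediateField.adjoin_toSubalgebra_of_isAlgebraic or as in H19T/W3). Centrality: τ in the group of N/C, u in the group of N/K; u restricts to C as s with s fixing K, so s = δ in the group of C/K; u (r g) = ζ^i r_g^n (g z) as above (g1 = 1), τ (r g) = ζ^e r g.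
τ (u (r g)) = ζ^i (ζ^e r g)^n (g z) = ζ^(e n) u (r g) and u (τ (r g)) = u(ζ)^e u (r g) = ζ^(n e) u (r g). The elements fixed by both compositions: both are ring homomorphisms equal to u on C and equal on the generators r g (AlgHom.ext_of_adjoin_eq_top for the C-algebra structure twisted, or Algebra.adjoin_induction). -/

theorem W8_root {L : Type} [Field L] {p : ℕ} (hp : 0 < p) {z : L} (hz : IsPrimitiveRoot z p)
    {x y : L} (hy : y ≠ 0) (h : x ^ p = y ^ p) : ∃ i : ℕ, x = z ^ i * y := by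
  have : NeZero p := ⟨hp.ne'⟩
  have h1 : (x / y) ^ p = 1 := by
    rw [div_pow, h, div_self (pow_ne_zero _ hy)]
  obtain ⟨i, -, hi⟩ := hz.eq_pow_of_pow_eq_one h1
  refine ⟨i, ?_⟩
  rw [hi, div_mul_cancel₀ _ hy]

theorem W8_exp {p : ℕ} (hp : 0 < p) {K C : Type} [Field K]
    [Field C] [Algebra K C] {ζ : C} (hz : IsPrimitiveRoot ζ p) (δ : C ≃ₐ[K] C) :
    ∃ n : ℕ, δ ζ = ζ ^ n := by
  have : NeZero p := ⟨hp.ne'⟩
  have h1 : (δ ζ) ^ p = 1 := by rw [← map_pow, hz.pow_eq_one, map_one]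
  obtain ⟨i, -, hi⟩ := hz.eq_pow_of_pow_eq_one h1
  exact ⟨i, hi.symm⟩

/-- The action on the conjugate. -/
theorem W8_act {p : ℕ} {K C : Type} [Field K] [NumberField K]
    [Field C] [NumberField C] [Algebra F K] [Algebra F C] [Algebra K C] [IsScalarTower F K C]
    {ζ : C} (h : Cyc F p K C ζ) (γ : C) (z : C) (δ : C ≃ₐ[K] C) (n : ℕ)
    (hz : δ γ = γ ^ n * z ^ p) (g1 g : FixZ F ζ) :
    (g1 : C ≃ₐ[F] C) (δ ((g : C ≃ₐ[F] C) γ)) =
      (((g1 * g : FixZ F ζ) : C ≃ₐ[F] C) γ) ^ n * (((g1 * g : FixZ F ζ) : C ≃ₐ[F] C) z) ^ p := by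
  rw [← h.comm g δ γ, hz]
  simp only [map_mul, map_pow]
  rfl

theorem W8_central {p : ℕ} (hp : 0 < p) {K C N : Type} [Field K] [NumberField K]
    [Field C] [NumberField C] [Field N] [Algebra F K] [Algebra F C] [Algebra K C]
    [IsScalarTower F K C] [Algebra F N] [Algebra C N] [Algebra K N] [IsScalarTower K C N]
    {ζ : C} (h : Cyc F p K C ζ) (γ : Cˣ)
    (heig : ∀ (δ : C ≃ₐ[K] C) (n : ℕ), δ ζ = ζ ^ n → ∃ z : Cˣ, δ (γ : C) = (γ : C) ^ n * (z : C) ^ p)
    {r : FixZ F ζ → N} (hr : WrP p F C N ζ γ r) (τ : N ≃ₐ[C] N) (u : N ≃ₐ[K] N) (x : N) :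
    τ (u x) = u (τ x) := by
  have := h.gal
  have : IsGalois K C := IsGalois.tower_top_of_isGalois F K C
  have : Normal K C := inferInstance
  let δ : C ≃ₐ[K] C := u.restrictNormal C
  have hδ : ∀ c : C, u (algebraMap C N c) = algebraMap C N (δ c) := fun c =>
    (AlgEquiv.restrictNormal_commutes u C c).symm
  obtain ⟨n, hn⟩ := W8_exp hp h.prim δ
  obtain ⟨z, hz⟩ := heig δ n hn
  have hzN : IsPrimitiveRoot (algebraMap C N ζ) p :=
    h.prim.map_of_injective (algebraMap C N).injective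
  have hr0 : ∀ g, r g ≠ 0 := by
    intro g h0
    have h1 := hr.pow g
    rw [h0, zero_pow hp.ne'] at h1
    have h2 : (g : C ≃ₐ[F] C) (γ : C) = 0 :=
      (algebraMap C N).injective (by rw [map_zero]; exact h1.symm)
    have h3 : (γ : C) = 0 := (g : C ≃ₐ[F] C).injective (by rw [h2, map_zero])
    exact γ.ne_zero h3
  have hu : ∀ g : FixZ F ζ, ∃ i : ℕ, u (r g) =
      (algebraMap C N ζ) ^ i * (r g ^ n * algebraMap C N ((g : C ≃ₐ[F] C) z)) := by
    intro g
    refine W8_root hp hzN ?_ ?_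
    · refine mul_ne_zero (pow_ne_zero _ (hr0 g)) ?_
      rw [Ne, map_eq_zero_iff _ (algebraMap C N).injective,
        map_eq_zero_iff _ (g : C ≃ₐ[F] C).injective]
      exact z.ne_zero
    · rw [← map_pow, hr.pow, hδ, mul_pow, ← pow_mul, mul_comm n p, pow_mul, hr.pow]
      have h4 := W8_act h (γ : C) (z : C) δ n hz 1 g
      rw [one_mul] at h4
      have h5 : ((1 : FixZ F ζ) : C ≃ₐ[F] C) (δ ((g : C ≃ₐ[F] C) (γ : C))) =
        δ ((g : C ≃ₐ[F] C) (γ : C)) := rfl
      rw [h5] at h4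
      rw [h4, map_mul, map_pow, map_pow]
  have hτ : ∀ g : FixZ F ζ, ∃ e : ℕ, τ (r g) = (algebraMap C N ζ) ^ e * r g := by
    intro g
    refine W8_root hp hzN (hr0 g) ?_
    rw [← map_pow, hr.pow, AlgEquiv.commutes]
  have hx : x ∈ Algebra.adjoin C (Set.range r) := by rw [hr.gen]; trivial
  refine Algebra.adjoin_induction (p := fun x _ => τ (u x) = u (τ x)) ?_ ?_ ?_ ?_ hx
  · rintro _ ⟨g, rfl⟩
    obtain ⟨i, hi⟩ := hu g
    obtain ⟨e, he⟩ := hτ g
    have h6 : u (algebraMap C N ζ) = (algebraMap C N ζ) ^ n := by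
      rw [hδ, hn, map_pow]
    rw [he, map_mul, map_pow, h6, hi]
    simp only [map_mul, map_pow, AlgEquiv.commutes, he]
    ring
  · intro c
    rw [hδ, AlgEquiv.commutes, AlgEquiv.commutes, hδ]
  · intro a b _ _ ha hb
    simp only [map_add, ha, hb]
  · intro a b _ _ ha hb
    simp only [map_mul, ha, hb]

theorem exists_N {p : ℕ} (hp : p.Prime) {K C : Type} [Field K] [NumberField K]
    [Field C] [NumberField C] [Algebra F K] [Algebra F C] [Algebra K C] [IsScalarTower F K C]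
    {ζ : C} (h : Cyc F p K C ζ) (γ : Cˣ)
    (heig : ∀ (δ : C ≃ₐ[K] C) (n : ℕ), δ ζ = ζ ^ n → ∃ z : Cˣ, δ (γ : C) = (γ : C) ^ n * (z : C) ^ p) :
    ∃ (N : Type) (_ : Field N) (_ : NumberField N) (_ : Algebra C N) (_ : Algebra K N)
      (_ : Algebra F N) (_ : IsScalarTower F C N) (_ : IsScalarTower K C N)
      (_ : IsScalarTower F K N) (r : FixZ F ζ → N), WrP p F C N ζ γ r ∧
      ∀ (τ : N ≃ₐ[C] N) (u : N ≃ₐ[K] N) (x : N), τ (u x) = u (τ x) := by
  classical
  have := h.gal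
  have hp0 : 0 < p := hp.pos
  have htow : IsScalarTower ℚ F C := IsScalarTower.of_algebraMap_eq' (Subsingleton.elim _ _)
  have hfinFC : FiniteDimensional F C := Module.Finite.of_restrictScalars_finite ℚ F C
  have hfinG : Finite (C ≃ₐ[F] C) := inferInstance
  have hfinS : Finite (FixZ F ζ) := inferInstance
  have hsq : ∀ g : FixZ F ζ, ∃ y : AlgebraicClosure C,
      y ^ p = algebraMap C (AlgebraicClosure C) ((g : C ≃ₐ[F] C) (γ : C)) := fun g =>
    IsAlgClosed.exists_pow_nat_eq _ hp0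
  choose r0 hr0 using hsq
  have hint : ∀ x ∈ Set.range r0, IsIntegral C x := by
    rintro _ ⟨g, rfl⟩
    exact (Algebra.IsAlgebraic.isAlgebraic (r0 g)).isIntegral
  let E : IntermediateField C (AlgebraicClosure C) := IntermediateField.adjoin C (Set.range r0)
  have hEfin : FiniteDimensional C E := IntermediateField.finiteDimensional_adjoin hint
  have hmem : ∀ g, r0 g ∈ E := fun g => IntermediateField.subset_adjoin C _ ⟨g, rfl⟩
  have hnf : NumberField E := NumberField.of_module_finite C E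
  have halg : Algebra.IsAlgebraic F (AlgebraicClosure C) :=
    Algebra.IsAlgebraic.trans F C (AlgebraicClosure C)
  have hac : IsAlgClosure F (AlgebraicClosure C) := ⟨inferInstance, halg⟩
  have hnorm : Normal F (AlgebraicClosure C) := IsAlgClosure.normal F _
  have hz0 : IsPrimitiveRoot (algebraMap C (AlgebraicClosure C) ζ) p :=
    h.prim.map_of_injective (algebraMap C (AlgebraicClosure C)).injective
  have hne : ∀ g, r0 g ≠ 0 := by
    intro g h0
    have h1 := hr0 g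
    rw [h0, zero_pow hp0.ne'] at h1
    have h2 : (g : C ≃ₐ[F] C) (γ : C) = 0 :=
      (algebraMap C (AlgebraicClosure C)).injective (by rw [map_zero]; exact h1.symm)
    have h3 : (γ : C) = 0 := (g : C ≃ₐ[F] C).injective (by rw [h2, map_zero])
    exact γ.ne_zero h3
  have hE0 : ∀ (σ : AlgebraicClosure C →ₐ[F] AlgebraicClosure C) (x : AlgebraicClosure C),
      x ∈ E → σ x ∈ E := by
    intro σ x hx
    refine IntermediateField.adjoin_induction C (p := fun x _ => σ x ∈ E) ?_ ?_ ?_ ?_ ?_ hx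
    · rintro _ ⟨g, rfl⟩
      obtain ⟨g1, δ, hs⟩ := h.dec (σ.restrictNormal' C)
      obtain ⟨n, hn⟩ := W8_exp hp0 h.prim δ
      obtain ⟨z, hz⟩ := heig δ n hn
      have h1 : σ (r0 g) ^ p = (r0 (g1 * g) ^ n * algebraMap C (AlgebraicClosure C)
          (((g1 * g : FixZ F ζ) : C ≃ₐ[F] C) (z : C))) ^ p := by
        rw [← map_pow, hr0, mul_pow, ← pow_mul, mul_comm n p, pow_mul, hr0]
        have h2 : σ (algebraMap C (AlgebraicClosure C) ((g : C ≃ₐ[F] C) (γ : C))) =
            algebraMap C (AlgebraicClosure C)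
              ((σ.restrictNormal' C) ((g : C ≃ₐ[F] C) (γ : C))) :=
          (AlgHom.restrictNormal_commutes σ C ((g : C ≃ₐ[F] C) (γ : C))).symm
        rw [h2, hs, W8_act h (γ : C) (z : C) δ n hz g1 g, map_mul, map_pow, map_pow]
      obtain ⟨i, hi⟩ := W8_root hp0 hz0 (by
        refine mul_ne_zero (pow_ne_zero _ (hne _)) ?_
        rw [Ne, map_eq_zero_iff _ (algebraMap C (AlgebraicClosure C)).injective,
          map_eq_zero_iff _ ((g1 * g : FixZ F ζ) : C ≃ₐ[F] C).injective]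
        exact z.ne_zero) h1
      rw [hi]
      refine mul_mem (pow_mem (E.algebraMap_mem _) _) (mul_mem (pow_mem (hmem _) _)
        (E.algebraMap_mem _))
    · intro x
      rw [← AlgHom.restrictNormal_commutes σ C x]
      exact E.algebraMap_mem _
    · intro x y _ _ h1 h2
      rw [map_add]
      exact add_mem h1 h2
    · intro x _ h1
      rw [map_inv₀]
      exact inv_mem h1
    · intro x y _ _ h1 h2
      rw [map_mul]
      exact mul_mem h1 h2
  have hE : Normal F (E.restrictScalars F) := by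
    rw [IntermediateField.normal_iff_forall_map_le]
    intro σ
    rintro _ ⟨x, hx, rfl⟩
    exact hE0 σ x hx
  have hE' : Normal F E := hE
  have hFKE : IsScalarTower F K E := by
    refine IsScalarTower.of_algebraMap_eq fun x => ?_
    apply Subtype.ext
    show algebraMap F (AlgebraicClosure C) x = algebraMap K (AlgebraicClosure C) (algebraMap F K x)
    rw [IsScalarTower.algebraMap_apply F C (AlgebraicClosure C),
      IsScalarTower.algebraMap_apply K C (AlgebraicClosure C),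
      IsScalarTower.algebraMap_apply F K C]
  have hwr : WrP p F C E ζ γ (fun g => ⟨r0 g, hmem g⟩) := by
    refine ⟨?_, ?_, ?_⟩
    · intro g
      apply Subtype.ext
      exact hr0 g
    · have h1 : (⊤ : Subalgebra C E) = Algebra.adjoin C
          (Set.range fun g => (⟨r0 g, hmem g⟩ : E)) := by
        apply Subalgebra.map_injective (f := E.val) E.val.injective
        rw [← Algebra.adjoin_image, ← Set.range_comp]
        have h2 : (E.val ∘ fun g => (⟨r0 g, hmem g⟩ : E)) = r0 := rfl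
        rw [h2, ← IntermediateField.adjoin_toSubalgebra_of_isAlgebraic
          (fun x hx => (hint x hx).isAlgebraic)]
        ext x
        constructor
        · rintro ⟨y, -, rfl⟩
          exact y.2
        · intro hx
          exact ⟨⟨x, hx⟩, Algebra.mem_top, rfl⟩
      exact h1.symm
    · exact { to_normal := hE' }
  exact ⟨E, inferInstance, hnf, inferInstance, inferInstance, inferInstance, inferInstance,
    inferInstance, hFKE, fun g => ⟨r0 g, hmem g⟩, hwr,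
    fun τ u x => W8_central hp0 h γ heig hwr τ u x⟩

end H28T
end

-- from Lib.H28T.W6
section

open NumberField IsDedekindDomain

namespace H28T

open H28R
open H55P H55R H55N

variable {F : Type} [Field F] [NumberField F] {G : HeightOneSpectrum (𝓞 F) → Prop}

/-! Chunk W6 (M), pigeonhole: the proof of H19T.W1 (exists_beta3), with p^2 in place of 9 and the prime p in place of 3. Infinitely many nice primes w over pairwise different primes v of F (hinf applied to the finite sets of the primes above finitely many v). J prime to p from the finitely many ideal classes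
(H55N.exists_rep for the ideal span {p}), w J = (x_w), x_w prime to p; pigeonhole for the class of w and x_w modulo p^2: w, w' with the same J and x_w = x_w' mod p^2, over different v. y x_w = 1 mod p^2, a = y x_w', a' = y x_w: both are 1 mod p^2 and (a) w = (a') w', so
ord_P a = ord_P a' + [P = w'] - [P = w]. α = a'^(p-1) a  has order p ord a' + [P = w'] - [P = w]; so take α with the roles of w and w' exchanged (at1: order 1 modulo p at w). Orders: H55R.ord, BF1_val, HB1_val; H55N.WR1_val, WR1_cnt. -/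

theorem W6_ord {C : Type} [Field C] [NumberField C] (P : Pl C) (x : 𝓞 C) (y : Cˣ)
    (h : (y : C) = x) : ord P y = (WR1_cnt P (Ideal.span {x}) : ℤ) := by
  have hx : x ≠ 0 := by
    rintro rfl
    apply y.ne_zero
    rw [h]
    rfl
  have h1 := BF1_val P y
  rw [h, WR1_val P hx] at h1
  have h2 := WithZero.exp_injective h1
  linarith

theorem exists_alp {p : ℕ} (hp : p.Prime) (C : Type) [Field C] [NumberField C] [Algebra F C] (B : ℕ)
    (hGp : ∀ v : HeightOneSpectrum (𝓞 F), G v → (p : 𝓞 F) ∉ v.asIdeal) (hinf : ∀ S : Set (Pl C), S.Finite → ∃ w : Pl C, w ∉ S ∧ Nice G p C B w) :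
    ∃ (α : Cˣ) (w w' : Pl C), Alp G p C B α w w' := by
  classical
  set V : Set (HeightOneSpectrum (𝓞 F)) := {v | ∃ w : Pl C,
    v.asIdeal = w.asIdeal.under (𝓞 F) ∧ Nice G p C B w} with hV
  have hVinf : V.Infinite := by
    intro hfin
    have hS : {w : Pl C | HeightOneSpectrum.under (𝓞 F) w ∈ V}.Finite := by
      have h1 : {w : Pl C | HeightOneSpectrum.under (𝓞 F) w ∈ V} =
          ⋃ v ∈ V, {w : Pl C | HeightOneSpectrum.under (𝓞 F) w = v} := by
        ext w
        simp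
      rw [h1]
      refine Set.Finite.biUnion hfin fun v _ => ?_
      have h2 : v.asIdeal.map (algebraMap (𝓞 F) (𝓞 C)) ≠ 0 := by
        rw [Ne, Ideal.zero_eq_bot]
        exact Ideal.map_ne_bot_of_ne_bot v.ne_bot
      refine (Ideal.finite_factors h2).subset ?_
      intro w hw
      show w.asIdeal ∣ _
      rw [Ideal.dvd_iff_le, Ideal.map_le_iff_le_comap]
      have h3 : HeightOneSpectrum.under (𝓞 F) w = v := hw
      rw [← h3]
      exact le_rfl
    obtain ⟨w, hw1, hw2⟩ := hinf _ hS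
    apply hw1
    exact ⟨w, rfl, hw2⟩
  have : Infinite V := hVinf.to_subtype
  choose W hW1 hW2 using fun v : V => v.2
  have hp0 : (p : 𝓞 C) ≠ 0 := Nat.cast_ne_zero.2 hp.ne_zero
  have h30 : (Ideal.span {(p : 𝓞 C)}) ≠ ⊥ := by
    rw [Ne, Ideal.span_singleton_eq_bot]
    exact hp0
  choose b hb hcop hcl using exists_rep (K := C) (Ideal.span {(p : 𝓞 C)}) h30
  let κ : V → ClassGroup (𝓞 C) := fun v =>
    (ClassGroup.mk0 ⟨(W v).asIdeal, mem_nonZeroDivisors_iff_ne_zero.2 (W v).ne_bot⟩)⁻¹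
  have hprin : ∀ v : V, ∃ x : 𝓞 C, (W v).asIdeal * b (κ v) = Ideal.span {x} := by
    intro v
    have h1 : ClassGroup.mk0 (⟨(W v).asIdeal, mem_nonZeroDivisors_iff_ne_zero.2 (W v).ne_bot⟩ *
        ⟨b (κ v), mem_nonZeroDivisors_iff_ne_zero.2 (hb (κ v))⟩) = 1 := by
      rw [map_mul, hcl]
      exact mul_inv_cancel _
    have h2 := (ClassGroup.mk0_eq_one_iff _).1 h1
    obtain ⟨x, hx⟩ := h2.principal
    exact ⟨x, hx⟩
  choose x hx using hprin
  have hxcop : ∀ v : V, IsCoprime (x v) ((p : 𝓞 C) ^ 2) := by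
    intro v
    have h1 : IsCoprime (W v).asIdeal (Ideal.span {(p : 𝓞 C)}) := by
      have hm := (W v).isMaximal
      have h2 : (p : 𝓞 C) ∉ (W v).asIdeal := by
        intro h
        apply hGp _ ((hW2 v).good _ (hW1 v))
        rw [hW1 v]
        show algebraMap (𝓞 F) (𝓞 C) p ∈ (W v).asIdeal
        rw [map_natCast]
        exact h
      obtain ⟨y, i, hi, hyi⟩ := hm.exists_inv h2
      rw [Ideal.isCoprime_iff_exists]
      exact ⟨i, hi, y * p, Ideal.mul_mem_left _ y (Ideal.mem_span_singleton_self (p : 𝓞 C)), by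
        rw [add_comm]; exact hyi⟩
    have h2 := IsCoprime.mul_left h1 (hcop (κ v))
    rw [hx, Ideal.isCoprime_span_singleton_iff] at h2
    exact h2.pow_right (n := 2)
  have hp20 : ((p : 𝓞 C) ^ 2) ≠ 0 := pow_ne_zero 2 hp0
  have h40 : Ideal.span {((p : 𝓞 C) ^ 2)} ≠ ⊥ := by
    rw [Ne, Ideal.span_singleton_eq_bot]
    exact hp20
  have : Finite (𝓞 C ⧸ Ideal.span {((p : 𝓞 C) ^ 2)}) := Ideal.finiteQuotientOfFreeOfNeBot _ h40
  have : Finite (ClassGroup (𝓞 C)) := inferInstance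
  obtain ⟨v1, v2, hne, heq⟩ := Finite.exists_ne_map_eq_of_infinite
    (fun v : V => (κ v, Ideal.Quotient.mk (Ideal.span {((p : 𝓞 C) ^ 2)}) (x v)))
  obtain ⟨hκ, hmk⟩ := Prod.ext_iff.1 heq
  simp only at hκ hmk
  rw [Ideal.Quotient.eq, Ideal.mem_span_singleton] at hmk
  obtain ⟨t, ht⟩ := hmk
  obtain ⟨y, z, hyz⟩ := hxcop v1
  have hy0 : y ≠ 0 := by
    rintro rfl
    rw [zero_mul, zero_add] at hyz
    have h1 : IsUnit ((p : 𝓞 C) ^ 2) := IsUnit.of_mul_eq_one z (by rw [mul_comm]; exact hyz)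
    have h3 := (isUnit_pow_iff two_ne_zero).1 h1
    have h6 := (isUnit_iff_norm (x := (p : 𝓞 C))).1 h3
    have h7 : Algebra.norm ℚ ((p : 𝓞 C) : C) = p ^ Module.finrank ℚ C := by
      have h8 : ((p : 𝓞 C) : C) = algebraMap ℚ C p := by
        rw [map_natCast]
        rfl
      rw [h8, Algebra.norm_algebraMap]
    rw [RingOfIntegers.coe_norm, h7] at h6
    have h9 : Module.finrank ℚ C ≠ 0 := (Module.finrank_pos (R := ℚ) (M := C)).ne'
    have h11 : (1 : ℚ) < p := by exact_mod_cast hp.one_lt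
    have h10 : (1 : ℚ) < (p : ℚ) ^ Module.finrank ℚ C := one_lt_pow₀ h11 h9
    rw [abs_of_pos (by positivity)] at h6
    linarith
  have hx0 : ∀ v, x v ≠ 0 := by
    intro v h
    have h1 := hx v
    rw [h] at h1
    have h2 : (W v).asIdeal * b (κ v) = ⊥ := by rw [h1]; simp
    rcases Ideal.mul_eq_bot.1 h2 with h3 | h3
    · exact (W v).ne_bot h3
    · exact hb _ h3
  have hcx : ∀ (P : Pl C) (v : V), WR1_cnt P (Ideal.span {x v}) =
      WR1_cnt P (W v).asIdeal + WR1_cnt P (b (κ v)) := by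
    intro P v
    rw [← hx, WR1_cnt_mul P (W v).ne_bot (hb _)]
  have hs : ∀ {a : 𝓞 C}, a ≠ 0 → Ideal.span {a} ≠ ⊥ := fun ha => by
    rw [Ne, Ideal.span_singleton_eq_bot]
    exact ha
  have e1 : ∀ (P : Pl C) v, WR1_cnt P (Ideal.span {y * x v}) =
      WR1_cnt P (Ideal.span {y}) + (WR1_cnt P (W v).asIdeal + WR1_cnt P (b (κ v))) := by
    intro P v
    rw [← Ideal.span_singleton_mul_span_singleton, WR1_cnt_mul P (hs hy0) (hs (hx0 _)), hcx]
  -- the two elements
  have hu : ∀ v, ((y * x v : 𝓞 C) : C) ≠ 0 := by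
    intro v h
    exact mul_ne_zero hy0 (hx0 v) (RingOfIntegers.ext h)
  let a1 : Cˣ := Units.mk0 _ (hu v1)
  let a2 : Cˣ := Units.mk0 _ (hu v2)
  have ho1 : ∀ P, ord P a1 = (WR1_cnt P (Ideal.span {y * x v1}) : ℤ) := fun P =>
    W6_ord P _ _ rfl
  have ho2 : ∀ P, ord P a2 = (WR1_cnt P (Ideal.span {y * x v2}) : ℤ) := fun P =>
    W6_ord P _ _ rfl
  have hpow : ∀ (P : Pl C) (u : Cˣ) (n : ℕ), ord P (u ^ n) = n * ord P u := by
    intro P u n
    rw [← zpow_natCast, ord_zpow]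
  have hWne : W v1 ≠ W v2 := by
    intro h
    apply hne
    apply Subtype.ext
    apply HeightOneSpectrum.ext
    rw [hW1 v1, hW1 v2, h]
  have hp1 : ((p - 1 : ℕ) : ℤ) = (p : ℤ) - 1 := by
    rw [Nat.cast_sub hp.one_lt.le, Nat.cast_one]
  have hord : ∀ P, ord P (a1 * a2 ^ (p - 1)) =
      (p : ℤ) * ((WR1_cnt P (Ideal.span {y}) : ℤ) + (WR1_cnt P (W v2).asIdeal : ℤ) +
        (WR1_cnt P (b (κ v1)) : ℤ)) +
        ((WR1_cnt P (W v1).asIdeal : ℤ) - (WR1_cnt P (W v2).asIdeal : ℤ)) := by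
    intro P
    rw [ord_mul, hpow, ho1, ho2, e1, e1, ← hκ, hp1]
    push_cast
    ring
  refine ⟨a1 * a2 ^ (p - 1), W v1, W v2, ?_, ?_, ?_, ?_, ?_, hW2 v1, hW2 v2⟩
  · refine ⟨(y * x v1) * (y * x v2) ^ (p - 1), ?_, ?_⟩
    · rw [Units.val_mul, Units.val_pow_eq_pow_val]
      exact (map_mul (algebraMap (𝓞 C) C) _ _).trans
        (congrArg _ (map_pow (algebraMap (𝓞 C) C) _ _))
    · have f1 : (p : 𝓞 C) ^ 2 ∣ y * x v1 - 1 := ⟨-z, by linear_combination hyz⟩
      have f2 : (p : 𝓞 C) ^ 2 ∣ y * x v2 - 1 := ⟨-(z + y * t), by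
        linear_combination hyz - y * ht⟩
      have f3 : (p : 𝓞 C) ^ 2 ∣ (y * x v2) ^ (p - 1) - 1 := by
        refine dvd_trans f2 ?_
        have := sub_dvd_pow_sub_pow (y * x v2) 1 (p - 1)
        rwa [one_pow] at this
      have f4 : (y * x v1) * (y * x v2) ^ (p - 1) - 1 =
          (y * x v1) * ((y * x v2) ^ (p - 1) - 1) + (y * x v1 - 1) := by ring
      rw [f4]
      exact dvd_add (dvd_mul_of_dvd_right f3 _) f1
  · rw [hord, WR1_cnt_self, WR1_cnt_ne _ _ hWne,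
      show ∀ A : ℤ, A + (((1 : ℕ) : ℤ) - ((0 : ℕ) : ℤ)) - 1 = A from fun A => by push_cast; ring]
    exact dvd_mul_right _ _
  · rw [hord, WR1_cnt_self, WR1_cnt_ne _ _ hWne.symm,
      show ∀ A : ℤ, A + (((0 : ℕ) : ℤ) - ((1 : ℕ) : ℤ)) + 1 = A from fun A => by push_cast; ring]
    exact dvd_mul_right _ _
  · intro P h1 h2
    rw [hord, WR1_cnt_ne _ _ h1, WR1_cnt_ne _ _ h2,
      show ∀ A : ℤ, A + (((0 : ℕ) : ℤ) - ((0 : ℕ) : ℤ)) = A from fun A => by push_cast; ring]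
    exact dvd_mul_right _ _
  · rw [← hW1, ← hW1]
    intro h
    exact hne (Subtype.ext (HeightOneSpectrum.ext h))

end H28T
end

-- from Lib.H13Y.D2
section

open NumberField IsDedekindDomain WeierstrassCurve

namespace H13Y

open H55P
open H13Z (SelNon)

/-- Chunk YD3 (S/M), pure algebra. G acts on M, D a subgroup (as a set of pairs: DD = the big group, D' the small one, normal of index at most 2 in it), C a cocycle on DD killed by the odd number p, C = coboundary of R on D'. Then C is a coboundary on DD. If all elements of DD are in D' take R. Otherwise σ in DD, not in D'. C' s = C s - (a s R - R) is a cocycle, zero on D'. m = C' σ.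
For s in D': C' (s σ) = a s m, C' (s σ) = C' (σ (σ⁻¹ s σ)) = m: a s m = m. C' (σ σ) = 0 (σ σ in D'): m + a σ m = 0. So 2 C' s = a s (-m) - (-m) for s in D' and for s = s' σ (every s in DD not in D' is s' σ with s' in D'). p = 2 k + 1: C s = p C s - k (2 C s) = - k (a s Y - Y), Y = 2 R - m. Point: -(k) Y. -/
theorem cob_two {G M : Type} [Group G] [AddCommGroup M] (a : G → M →+ M) (ha1 : ∀ m, a 1 m = m)
    (ha : ∀ s t m, a (s * t) m = a s (a t m)) (DD D' : Subgroup G) (hle : D' ≤ DD)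
    (hn : ∀ s ∈ DD, ∀ t ∈ D', s⁻¹ * t * s ∈ D') (h2 : ∀ s ∈ DD, s ∉ D' → ∀ t ∈ DD, t ∉ D' → s * t⁻¹ ∈ D')
    (h2' : ∀ s ∈ DD, s ∉ D' → s * s ∈ D')
    (C : G → M) (hC : ∀ s ∈ DD, ∀ t ∈ DD, C (s * t) = C s + a s (C t)) {p : ℕ} (hp : p % 2 = 1)
    (hpC : ∀ s ∈ DD, p • C s = 0) (h : ∃ R, ∀ s ∈ D', C s = a s R - R) :
    ∃ P, ∀ s ∈ DD, C s = a s P - P := by
  obtain ⟨R, hR⟩ := h
  by_cases hall : ∀ s ∈ DD, s ∈ D'
  · exact ⟨R, fun s hs => hR s (hall s hs)⟩
  push Not at hall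
  obtain ⟨σ, hσ, hσ'⟩ := hall
  obtain ⟨C', hC'⟩ : ∃ C' : G → M, ∀ s, C' s = C s - (a s R - R) := ⟨_, fun _ => rfl⟩
  have hmul : ∀ s ∈ DD, ∀ t ∈ DD, C' (s * t) = C' s + a s (C' t) := by
    intro s hs t ht
    rw [hC', hC', hC', hC s hs t ht, ha, map_sub, map_sub]
    abel
  have hz : ∀ s ∈ D', C' s = 0 := by
    intro s hs
    rw [hC', hR s hs, sub_self]
  obtain ⟨m, hm⟩ : ∃ m, m = C' σ := ⟨_, rfl⟩
  have hfix : ∀ s ∈ D', a s m = m := by
    intro s hs
    have h1 := hmul s (hle hs) σ hσ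
    have h3 := hmul σ hσ (σ⁻¹ * s * σ) (hle (hn σ hσ s hs))
    have e : σ * (σ⁻¹ * s * σ) = s * σ := by group
    rw [e, h1, hz s hs, hz _ (hn σ hσ s hs), map_zero, zero_add, add_zero, ← hm] at h3
    exact h3
  have hneg : a σ m = -m := by
    have h1 := hmul σ hσ σ hσ
    rw [hz _ (h2' σ hσ hσ'), ← hm] at h1
    exact (neg_eq_of_add_eq_zero_right h1.symm).symm
  have htwo : ∀ s ∈ DD, C' s + C' s = a s (-m) - (-m) := by
    intro s hs
    by_cases hs' : s ∈ D'
    · rw [hz s hs', map_neg, hfix s hs', add_zero, sub_self]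
    · have h1 : s * σ⁻¹ ∈ D' := h2 s hs hs' σ hσ hσ'
      have e : s = (s * σ⁻¹) * σ := by group
      have h3 : C' s = m := by
        rw [e, hmul _ (hle h1) σ hσ, hz _ h1, ← hm, hfix _ h1, zero_add]
      have h4 : a s m = -m := by
        rw [e, ha, hneg, map_neg, hfix _ h1]
      rw [h3, map_neg, h4, neg_neg, sub_neg_eq_add]
  obtain ⟨k, hk⟩ : ∃ k : ℕ, p = 2 * k + 1 := ⟨p / 2, by omega⟩
  refine ⟨-(k • (R + R - m)), fun s hs => ?_⟩
  have h5 : C s + C s = a s (R + R - m) - (R + R - m) := by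
    have h6 := htwo s hs
    rw [hC', map_neg] at h6
    rw [map_sub, map_add]
    have h7 : C s + C s = (C s - (a s R - R) + (C s - (a s R - R))) + (a s R - R) + (a s R - R) := by abel
    rw [h7, h6]
    abel
  have h6 := hpC s hs
  rw [hk, add_smul, one_smul, mul_comm, mul_smul, two_smul, h5] at h6
  rw [map_neg, map_nsmul]
  have h7 : C s = -(k • (a s (R + R - m) - (R + R - m))) := (neg_eq_of_add_eq_zero_right h6).symm
  rw [h7, smul_sub]
  abel

/-- the action of a product -/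
theorem YD2_mul {k : Type} [Field k] {Ω : Type} [Field Ω] [DecidableEq Ω] [Algebra k Ω]
    (W : WeierstrassCurve k) (s t : Ω ≃ₐ[k] Ω) (P : Pt W Ω) : ac W (s * t) P = ac W s (ac W t P) := by
  cases P <;> rfl

theorem YD2_one {k : Type} [Field k] {Ω : Type} [Field Ω] [DecidableEq Ω] [Algebra k Ω]
    (W : WeierstrassCurve k) (P : Pt W Ω) : ac W (1 : Ω ≃ₐ[k] Ω) P = P := by
  cases P <;> rfl

/-- Chunk YD2 (M). Corestriction in index 2. H = K₁.fixingSubgroup, τ in K.fixingSubgroup not in H; K.fixingSubgroup is the union of H and τ H (h2). C s = d s + τ d(τ⁻¹ s τ) for s in H, C s = τ d(τ⁻¹ s) + d(s τ) for s not in H. The cocycle condition: four cases, direct. Continuity: L from d.cont, the normal closure L' of L ⊔ K₁ over k (finite): s in L'.fixingSubgroup is in H, τ⁻¹ s τ is in L'.fixingSubgroup: both terms are 0.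
Local conditions: V, V' = V.comap τ (x in V' iff τ x in V; V' ≠ ⊤): P, P' for d at V and V'. For s in H, Dec V s: τ⁻¹ s τ in H, Dec V' (τ⁻¹ s τ): C s = (s P - P) + τ (τ⁻¹ s τ P' - P') = s R - R with R = P + τ P'. cob_two for DD = elements of K.fixingSubgroup in Dec V, D' = H in it. -/
theorem cor_two {k : Type} [Field k] {Ω : Type} [Field Ω] [DecidableEq Ω] [Algebra k Ω] [IsAlgClosure k Ω]
    [CharZero k] (W : WeierstrassCurve k) {p : ℕ} (hp : p % 2 = 1) {K K₁ : IntermediateField k Ω}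
    [FiniteDimensional k K₁] (hK : K ≤ K₁) (hn : ∀ s ∈ K.fixingSubgroup, ∀ x ∈ K₁, s x ∈ K₁)
    {τ : Ω ≃ₐ[k] Ω} (hτ : τ ∈ K.fixingSubgroup) (hτ1 : τ ∉ K₁.fixingSubgroup)
    (h2 : ∀ s ∈ K.fixingSubgroup, s ∉ K₁.fixingSubgroup → s * τ ∈ K₁.fixingSubgroup ∧
      τ⁻¹ * s ∈ K₁.fixingSubgroup)
    {d : (Ω ≃ₐ[k] Ω) → Pt W Ω} (hd : Coc W K₁ d) (hpd : ∀ s ∈ K₁.fixingSubgroup, p • d s = 0)
    (hV : ∀ V : ValuationSubring Ω, V ≠ ⊤ → ∃ P : Pt W Ω, ∀ s ∈ K₁.fixingSubgroup, Dec V s →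
      d s = ac W s P - P) :
    ∃ C : (Ω ≃ₐ[k] Ω) → Pt W Ω, Coc W K C ∧ (∀ s ∈ K.fixingSubgroup, p • C s = 0) ∧
      (∀ V : ValuationSubring Ω, V ≠ ⊤ → ∃ P : Pt W Ω, ∀ s ∈ K.fixingSubgroup, Dec V s →
        C s = ac W s P - P) ∧
      ∀ s ∈ K₁.fixingSubgroup, C s = d s + ac W τ (d (τ⁻¹ * s * τ)) := by
  classical
  have hle : K₁.fixingSubgroup ≤ K.fixingSubgroup := IntermediateField.fixingSubgroup_antitone hK
  have hnor : ∀ s ∈ K.fixingSubgroup, ∀ t ∈ K₁.fixingSubgroup, s⁻¹ * t * s ∈ K₁.fixingSubgroup := by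
    intro s hs t ht
    rw [IntermediateField.mem_fixingSubgroup_iff] at ht ⊢
    intro x hx
    have e : (s⁻¹ * t * s) x = s⁻¹ (t (s x)) := rfl
    rw [e, ht _ (hn s hs x hx)]
    exact s.symm_apply_apply x
  have hτi : ∀ t ∈ K₁.fixingSubgroup, τ⁻¹ * t * τ ∈ K₁.fixingSubgroup := hnor τ hτ
  obtain ⟨C, hC⟩ : ∃ C : (Ω ≃ₐ[k] Ω) → Pt W Ω, ∀ s, C s = if s ∈ K₁.fixingSubgroup then
      d s + ac W τ (d (τ⁻¹ * s * τ)) else ac W τ (d (τ⁻¹ * s)) + d (s * τ) := ⟨_, fun _ => rfl⟩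
  have hCy : ∀ s ∈ K₁.fixingSubgroup, C s = d s + ac W τ (d (τ⁻¹ * s * τ)) := by
    intro s hs
    rw [hC, if_pos hs]
  have hCn : ∀ s, s ∉ K₁.fixingSubgroup → C s = ac W τ (d (τ⁻¹ * s)) + d (s * τ) := by
    intro s hs
    rw [hC, if_neg hs]
  have hmul : ∀ s ∈ K.fixingSubgroup, ∀ t ∈ K.fixingSubgroup, C (s * t) = C s + ac W s (C t) := by
    intro s hs t ht
    by_cases hs1 : s ∈ K₁.fixingSubgroup
    · by_cases ht1 : t ∈ K₁.fixingSubgroup
      · rw [hCy _ (mul_mem hs1 ht1), hCy _ hs1, hCy _ ht1, hd.mul s hs1 t ht1]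
        have e : τ⁻¹ * (s * t) * τ = (τ⁻¹ * s * τ) * (τ⁻¹ * t * τ) := by group
        rw [e, hd.mul _ (hτi s hs1) _ (hτi t ht1), map_add, map_add, ← YD2_mul, ← YD2_mul]
        have e2 : τ * (τ⁻¹ * s * τ) = s * τ := by group
        rw [e2]
        abel
      · obtain ⟨h3, h4⟩ := h2 t ht ht1
        have hst : s * t ∉ K₁.fixingSubgroup := fun h => ht1 ((Subgroup.mul_mem_cancel_left _ hs1).1 h)
        rw [hCn _ hst, hCy _ hs1, hCn _ ht1]
        have e1 : τ⁻¹ * (s * t) = (τ⁻¹ * s * τ) * (τ⁻¹ * t) := by group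
        have e2 : s * t * τ = s * (t * τ) := by group
        rw [e1, e2, hd.mul _ (hτi s hs1) _ h4, hd.mul _ hs1 _ h3, map_add, map_add, ← YD2_mul, ← YD2_mul]
        have e3 : τ * (τ⁻¹ * s * τ) = s * τ := by group
        rw [e3]
        abel
    · obtain ⟨h3, h4⟩ := h2 s hs hs1
      by_cases ht1 : t ∈ K₁.fixingSubgroup
      · have hst : s * t ∉ K₁.fixingSubgroup := fun h => hs1 ((Subgroup.mul_mem_cancel_right _ ht1).1 h)
        rw [hCn _ hst, hCn _ hs1, hCy _ ht1]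
        have e1 : τ⁻¹ * (s * t) = (τ⁻¹ * s) * t := by group
        have e2 : s * t * τ = (s * τ) * (τ⁻¹ * t * τ) := by group
        rw [e1, e2, hd.mul _ h4 _ ht1, hd.mul _ h3 _ (hτi t ht1), map_add, map_add, ← YD2_mul, ← YD2_mul]
        have e3 : τ * (τ⁻¹ * s) = s := by group
        rw [e3]
        abel
      · obtain ⟨h5, h6⟩ := h2 t ht ht1
        have hst : s * t ∈ K₁.fixingSubgroup := by
          have e : s * t = (s * τ) * (τ⁻¹ * t) := by group
          rw [e]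
          exact mul_mem h3 h6
        rw [hCy _ hst, hCn _ hs1, hCn _ ht1]
        have e1 : s * t = (s * τ) * (τ⁻¹ * t) := by group
        have e2 : τ⁻¹ * (s * t) * τ = (τ⁻¹ * s) * (t * τ) := by group
        rw [e2, e1, hd.mul _ h3 _ h6, hd.mul _ h4 _ h5, map_add, map_add, ← YD2_mul, ← YD2_mul]
        have e3 : τ * (τ⁻¹ * s) = s := by group
        rw [e3]
        abel
  have hpC : ∀ s ∈ K.fixingSubgroup, p • C s = 0 := by
    intro s hs
    by_cases hs1 : s ∈ K₁.fixingSubgroup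
    · rw [hCy _ hs1, smul_add, ← map_nsmul, hpd s hs1, hpd _ (hτi s hs1), map_zero, add_zero]
    · obtain ⟨h3, h4⟩ := h2 s hs hs1
      rw [hCn _ hs1, smul_add, ← map_nsmul, hpd _ h3, hpd _ h4, map_zero, add_zero]
  refine ⟨C, ⟨hmul, ?_⟩, hpC, ?_, hCy⟩
  · obtain ⟨L, hL, hLd⟩ := hd.cont
    let em := IntermediateField.intermediateFieldMap τ L
    have hLm : FiniteDimensional k (L.map τ.toAlgHom) := Module.Finite.equiv em.toLinearEquiv
    refine ⟨(L ⊔ K₁) ⊔ L.map τ.toAlgHom, IntermediateField.finiteDimensional_sup _ _, fun s hs hsL => ?_⟩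
    rw [IntermediateField.fixingSubgroup_sup, IntermediateField.fixingSubgroup_sup] at hsL
    obtain ⟨⟨hs1, hs2⟩, hs3⟩ := hsL
    have h7 : τ⁻¹ * s * τ ∈ L.fixingSubgroup := by
      rw [IntermediateField.mem_fixingSubgroup_iff]
      intro x hx
      have e : (τ⁻¹ * s * τ) x = τ⁻¹ (s (τ x)) := rfl
      have h8 : s (τ x) = τ x := (IntermediateField.mem_fixingSubgroup_iff _ s).1 hs3 (τ x) ⟨x, hx, rfl⟩
      rw [e, h8]
      exact τ.symm_apply_apply x
    rw [hCy s hs2, hLd s hs2 hs1, hLd _ (hτi s hs2) h7, map_zero, add_zero]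
  · intro V hVt
    obtain ⟨P, hP⟩ := hV V hVt
    have hm : ∀ x, x ∈ V.comap (τ : Ω →+* Ω) ↔ τ x ∈ V := fun x => ValuationSubring.mem_comap
    have hV' : V.comap (τ : Ω →+* Ω) ≠ ⊤ := by
      intro h
      apply hVt
      refine eq_top_iff.2 fun x _ => ?_
      have h1 : τ.symm x ∈ V.comap (τ : Ω →+* Ω) := by
        rw [h]
        exact ValuationSubring.mem_top _
      rwa [hm, τ.apply_symm_apply] at h1
    obtain ⟨P', hP'⟩ := hV _ hV'
    let DD : Subgroup (Ω ≃ₐ[k] Ω) :=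
      { carrier := {s | s ∈ K.fixingSubgroup ∧ Dec V s}
        mul_mem' := by
          rintro s t ⟨hs, hs'⟩ ⟨ht, ht'⟩
          exact ⟨mul_mem hs ht, fun x => (hs' (t x)).trans (ht' x)⟩
        one_mem' := ⟨one_mem _, fun x => Iff.rfl⟩
        inv_mem' := by
          rintro s ⟨hs, hs'⟩
          refine ⟨inv_mem hs, fun x => ?_⟩
          have h1 := hs' (s⁻¹ x)
          have e : s (s⁻¹ x) = x := s.apply_symm_apply x
          rw [e] at h1
          exact h1.symm }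
    have hDD : ∀ s, s ∈ DD ↔ s ∈ K.fixingSubgroup ∧ Dec V s := fun _ => Iff.rfl
    have hnD : ∀ s ∈ DD, s ∉ DD ⊓ K₁.fixingSubgroup → s ∉ K₁.fixingSubgroup :=
      fun s hs h h' => h (Subgroup.mem_inf.2 ⟨hs, h'⟩)
    have hcob := cob_two (fun s : Ω ≃ₐ[k] Ω => ac W s) (YD2_one W) (fun s t m => YD2_mul W s t m) DD
      (DD ⊓ K₁.fixingSubgroup) inf_le_left
      (fun s hs t ht => Subgroup.mem_inf.2 ⟨mul_mem (mul_mem (inv_mem hs) ht.1) hs,
        hnor s hs.1 t ht.2⟩)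
      (fun s hs hs' t ht ht' => Subgroup.mem_inf.2 ⟨mul_mem hs (inv_mem ht), by
        have e : s * t⁻¹ = (s * τ) * (t * τ)⁻¹ := by group
        rw [e]
        exact mul_mem (h2 s hs.1 (hnD s hs hs')).1 (inv_mem (h2 t ht.1 (hnD t ht ht')).1)⟩)
      (fun s hs hs' => Subgroup.mem_inf.2 ⟨mul_mem hs hs, by
        have e : s * s = (s * τ) * (τ⁻¹ * s) := by group
        rw [e]
        exact mul_mem (h2 s hs.1 (hnD s hs hs')).1 (h2 s hs.1 (hnD s hs hs')).2⟩)
      C (fun s hs t ht => hmul s hs.1 t ht.1) hp (fun s hs => hpC s hs.1)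
      ⟨P + ac W τ P', fun s hs => by
        have hs1 : s ∈ K₁.fixingSubgroup := hs.2
        have hdec : Dec V s := hs.1.2
        have h8 : Dec (V.comap (τ : Ω →+* Ω)) (τ⁻¹ * s * τ) := by
          intro x
          rw [hm, hm]
          have e : τ ((τ⁻¹ * s * τ) x) = s (τ x) := τ.apply_symm_apply _
          rw [e]
          exact hdec (τ x)
        rw [hCy s hs1, hP s hs1 hdec, hP' _ (hτi s hs1) h8, map_sub, map_add, ← YD2_mul, ← YD2_mul]
        have e3 : τ * (τ⁻¹ * s * τ) = s * τ := by group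
        rw [e3]
        abel⟩
    obtain ⟨R, hR⟩ := hcob
    exact ⟨R, fun s hs hs' => hR s ⟨hs, hs'⟩⟩


end H13Y
end

-- from Lib.H55K.NK1
section

/-! # H55K: descent of a nonzero Selmer class along a quadratic extension (port of H13Y.non_desc with the square root of -d) -/

open NumberField IsDedekindDomain WeierstrassCurve

namespace H55K.TQ

open H55P (Pt ac Inert Dec Coc)
open H13Z (SelNon)
open H13Y (cor_two)

theorem nk_desc {k : Type} [Field k] {Ω : Type} [Field Ω] [DecidableEq Ω] [Algebra k Ω] [IsAlgClosure k Ω]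
    [CharZero k] (W : WeierstrassCurve k) {p : ℕ} (hp : p.Prime) (hp2 : p ≠ 2)
    {K K₁ : IntermediateField k Ω} [FiniteDimensional k K₁] (hK : K ≤ K₁)
    (hn : ∀ s ∈ K.fixingSubgroup, ∀ x ∈ K₁, s x ∈ K₁) (S : Pt W Ω →+ Pt W Ω) (d : ℕ) (hd : ¬ p ∣ d)
    (hS : ∀ P, S (S P) = -(d • P)) (ω ω' : Ω)
    (hω : ∀ s ∈ K.fixingSubgroup, s ∈ K₁.fixingSubgroup ↔ s ω = ω)
    (hω2 : ∀ s : Ω ≃ₐ[k] Ω, s ω = ω ∨ s ω = ω') (hω3 : ∀ s : Ω ≃ₐ[k] Ω, s ω = ω' → s ω' = ω)
    (h1 : ∀ s : Ω ≃ₐ[k] Ω, s ω = ω → ∀ P, ac W s (S P) = S (ac W s P))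
    (h2 : ∀ s : Ω ≃ₐ[k] Ω, s ω ≠ ω → ∀ P, ac W s (S P) = -S (ac W s P)) (h : SelNon W p K₁) :
    SelNon W p K := by
  have hle : K₁.fixingSubgroup ≤ K.fixingSubgroup := IntermediateField.fixingSubgroup_antitone hK
  obtain ⟨c, hc, hpc, hV, hT⟩ := h
  by_cases hall : ∀ s ∈ K.fixingSubgroup, s ω = ω
  · have hiff : ∀ s, s ∈ K.fixingSubgroup ↔ s ∈ K₁.fixingSubgroup :=
      fun s => ⟨fun hs => (hω s hs).2 (hall s hs), fun hs => hle hs⟩
    refine ⟨c, ⟨fun s hs t ht => hc.mul s ((hiff s).1 hs) t ((hiff t).1 ht), ?_⟩,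
      fun s hs => hpc s ((hiff s).1 hs), ?_, ?_⟩
    · obtain ⟨L, hL, h3⟩ := hc.cont
      exact ⟨L, hL, fun s hs => h3 s ((hiff s).1 hs)⟩
    · intro V hVt
      obtain ⟨P, hP⟩ := hV V hVt
      exact ⟨P, fun s hs => hP s ((hiff s).1 hs)⟩
    · rintro ⟨T, hT1, hT2⟩
      exact hT ⟨T, hT1, fun s hs => hT2 s ((hiff s).2 hs)⟩
  push Not at hall
  obtain ⟨τ, hτ, hτω⟩ := hall
  have hτ1 : τ ∉ K₁.fixingSubgroup := fun h => hτω ((hω τ hτ).1 h)
  have hτ' : τ ω = ω' := (hω2 τ).resolve_left hτω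
  have h22 : ∀ s ∈ K.fixingSubgroup, s ∉ K₁.fixingSubgroup → s * τ ∈ K₁.fixingSubgroup ∧
      τ⁻¹ * s ∈ K₁.fixingSubgroup := by
    intro s hs hs1
    have hsω : s ω = ω' := (hω2 s).resolve_left fun h => hs1 ((hω s hs).2 h)
    constructor
    · refine (hω _ (mul_mem hs hτ)).2 ?_
      show s (τ ω) = ω
      rw [hτ']
      exact hω3 s hsω
    · refine (hω _ (mul_mem (inv_mem hτ) hs)).2 ?_
      show τ⁻¹ (s ω) = ω
      rw [hsω, ← hτ']
      exact τ.symm_apply_apply ω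
  have hfixω : ∀ s ∈ K₁.fixingSubgroup, s ω = ω := fun s hs => (hω s (hle hs)).1 hs
  have hp2' : p % 2 = 1 := by
    rcases hp.eq_two_or_odd with h3 | h3
    · exact absurd h3 hp2
    · exact h3
  by_contra hcon
  have key : ∀ C : (Ω ≃ₐ[k] Ω) → Pt W Ω, Coc W K C → (∀ s ∈ K.fixingSubgroup, p • C s = 0) →
      (∀ V : ValuationSubring Ω, V ≠ ⊤ → ∃ P : Pt W Ω, ∀ s ∈ K.fixingSubgroup, Dec V s →
        C s = ac W s P - P) → ∃ T : Pt W Ω, p • T = 0 ∧ ∀ s ∈ K.fixingSubgroup, C s = ac W s T - T := by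
    intro C h3 h4 h5
    by_contra h6
    exact hcon ⟨C, h3, h4, h5, h6⟩
  obtain ⟨C₁, a1, a2, a3, a4⟩ := cor_two W hp2' hK hn hτ hτ1 h22 hc hpc hV
  have hSc : Coc W K₁ fun s => S (c s) := by
    refine ⟨fun s hs t ht => ?_, ?_⟩
    · rw [hc.mul s hs t ht, map_add, h1 s (hfixω s hs)]
    · obtain ⟨L, hL, h3⟩ := hc.cont
      exact ⟨L, hL, fun s hs hs' => by rw [h3 s hs hs', map_zero]⟩
  obtain ⟨C₂, b1, b2, b3, b4⟩ := cor_two W hp2' hK hn hτ hτ1 h22 hSc
    (fun s hs => by rw [← map_nsmul, hpc s hs, map_zero]) (fun V hVt => by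
      obtain ⟨P, hP⟩ := hV V hVt
      exact ⟨S P, fun s hs hs' => by rw [hP s hs hs', map_sub, h1 s (hfixω s hs)]⟩)
  obtain ⟨T₁, hT₁, hT₁'⟩ := key C₁ a1 a2 a3
  obtain ⟨T₂, hT₂, hT₂'⟩ := key C₂ b1 b2 b3
  obtain ⟨Y, hY⟩ : ∃ Y, Y = S (S T₁ + T₂) := ⟨_, rfl⟩
  have hpY : p • Y = 0 := by
    rw [hY, ← map_nsmul, smul_add, ← map_nsmul, hT₁, hT₂, map_zero, add_zero, map_zero]
  have hmain : ∀ s ∈ K₁.fixingSubgroup, -((2 * d) • c s) = ac W s Y - Y := by
    intro s hs
    have e1 := a4 s hs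
    have e2 := b4 s hs
    rw [hT₁' s (hle hs)] at e1
    rw [hT₂' s (hle hs), h2 τ hτω] at e2
    have e3 := congrArg S e1
    rw [map_sub, map_add, ← h1 s (hfixω s hs)] at e3
    have e4 : S (c s) + S (c s) = ac W s (S T₁ + T₂) - (S T₁ + T₂) := by
      rw [map_add]
      have e5 : ac W s (S T₁) + ac W s T₂ - (S T₁ + T₂) = (ac W s (S T₁) - S T₁) + (ac W s T₂ - T₂) := by
        abel
      rw [e5, e3, e2]
      abel
    have e6 := congrArg S e4
    rw [map_add, hS, map_sub, ← h1 s (hfixω s hs), ← hY] at e6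
    rw [← e6, two_mul, add_smul]
    abel
  have hcop : IsCoprime ((p : ℕ) : ℤ) (((2 * d : ℕ)) : ℤ) := by
    have h3 : Nat.Coprime p (2 * d) := by
      rw [Nat.Prime.coprime_iff_not_dvd hp]
      intro h4
      rcases (Nat.Prime.dvd_mul hp).1 h4 with h5 | h5
      · exact hp2 ((Nat.prime_dvd_prime_iff_eq hp Nat.prime_two).1 h5)
      · exact hd h5
    exact Nat.isCoprime_iff_coprime.2 h3
  obtain ⟨v, u, huv⟩ := hcop
  refine hT ⟨(-u) • Y, ?_, fun s hs => ?_⟩
  · rw [smul_comm, hpY, smul_zero]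
  · have h3 : c s = (v * (p : ℤ) + u * ((2 * d : ℕ) : ℤ)) • c s := by rw [huv, one_smul]
    have h4 : (v * (p : ℤ)) • c s = 0 := by
      rw [mul_smul, natCast_zsmul, hpc s hs, smul_zero]
    have h5 : (u * ((2 * d : ℕ) : ℤ)) • c s = (-u) • (-((2 * d) • c s)) := by
      rw [mul_smul, neg_smul, smul_neg, neg_neg, natCast_zsmul]
    rw [h3, add_smul, h4, zero_add, h5, hmain s hs, smul_sub, map_zsmul]

end H55K.TQ
end

-- from Lib.H13Z.CZ1
section

open NumberField IsDedekindDomain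

namespace H13Z

open H55P H28G H55B H13S

variable {Ω : Type} [Field Ω] [DecidableEq Ω] [Algebra F Ω] [IsAlgClosure F Ω]

/-- An additive map modulo l-th powers, evaluated on a combination. -/
theorem cz1_quot {A G : Type} [AddCommGroup A] [CommGroup G] (l : ℕ) (m : A → G)
    (hadd : ∀ T T', ∃ z : G, m (T + T') = m T * m T' * z ^ l) {ι : Type} [Fintype ι] (b : ι → A)
    (c : ι → ℕ) : ∃ z : G, (∏ i, m (b i) ^ c i) = m (∑ i, c i • b i) * z ^ l := by
  classical
  let N : Subgroup G := (powMonoidHom l : G →* G).range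
  let μ : A →+ Additive (G ⧸ N) :=
    { toFun := fun T => Additive.ofMul (QuotientGroup.mk' N (m T))
      map_zero' := by
        obtain ⟨z, hz⟩ := hadd 0 0
        have h1 : m 0 = (z⁻¹) ^ l := by
          rw [add_zero] at hz
          have h2 : m 0 * z ^ l = 1 := by
            have h3 : m 0 * 1 = m 0 * (m 0 * z ^ l) := by
              rw [mul_one, ← mul_assoc]
              exact hz
            exact (mul_left_cancel h3).symm
          rw [inv_pow]
          exact eq_inv_of_mul_eq_one_left h2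
        have h2 : QuotientGroup.mk' N (m 0) = 1 := by
          rw [QuotientGroup.mk'_apply, QuotientGroup.eq_one_iff]
          exact ⟨z⁻¹, h1.symm⟩
        rw [h2]
        rfl
      map_add' := fun T T' => by
        obtain ⟨z, hz⟩ := hadd T T'
        have h2 : QuotientGroup.mk' N (z ^ l) = 1 := by
          rw [QuotientGroup.mk'_apply, QuotientGroup.eq_one_iff]
          exact ⟨z, rfl⟩
        have h3 : QuotientGroup.mk' N (m (T + T')) = QuotientGroup.mk' N (m T) * QuotientGroup.mk' N (m T') := by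
          rw [hz, map_mul, map_mul, h2, mul_one]
        rw [h3]
        rfl }
  have h1 : μ (∑ i, c i • b i) = ∑ i, c i • μ (b i) := by
    rw [map_sum]
    exact Finset.sum_congr rfl fun i _ => map_nsmul μ _ _
  have h2 : QuotientGroup.mk' N (m (∑ i, c i • b i)) = QuotientGroup.mk' N (∏ i, m (b i) ^ c i) := by
    have h3 : Additive.ofMul (QuotientGroup.mk' N (∏ i, m (b i) ^ c i)) = ∑ i, c i • μ (b i) := by
      rw [map_prod, ofMul_prod]
      refine Finset.sum_congr rfl fun i _ => ?_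
      rw [map_pow, ofMul_pow]
      rfl
    have h4 : Additive.ofMul (QuotientGroup.mk' N (m (∑ i, c i • b i))) = ∑ i, c i • μ (b i) := h1
    exact Additive.ofMul.injective (h4.trans h3.symm)
  rw [QuotientGroup.mk'_apply, QuotientGroup.mk'_apply, QuotientGroup.eq] at h2
  obtain ⟨z, hz⟩ := h2
  refine ⟨z, ?_⟩
  change z ^ l = _ at hz
  rw [hz, mul_inv_cancel_left]

/-- Chunk CZ1 (M). Additive system of l-th roots. -/
theorem y_system {π : O} {l : ℕ} (D : Dat π l) (L : IntermediateField F Ω) (m : P27 Ω → (L)ˣ)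
    (hadd : ∀ T ∈ Tor π Ω, ∀ T' ∈ Tor π Ω, ∃ z : (L)ˣ, m (T + T') = m T * m T' * z ^ l) :
    ∃ y : P27 Ω → Ω, (∀ T ∈ Tor π Ω, y T ≠ 0 ∧ ∃ z : (L)ˣ, y T ^ l = ((m T * z ^ l : (L)ˣ) : L)) ∧
      ∀ T ∈ Tor π Ω, ∀ T' ∈ Tor π Ω, ∃ z : (L)ˣ, y (T + T') = y T * y T' * ((z : L) : Ω) := by
  classical
  have hl : Fact l.Prime := ⟨D.hl⟩
  have hl0 : l ≠ 0 := D.hl.ne_zero
  have hAC : IsAlgClosed Ω := IsAlgClosure.isAlgClosed F
  have hfull := (gi_gen (Ω := Ω) π D.pr D.prim).1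
  have hfin : Finite (Tor π Ω) := (show Full π Ω from hfull).finite D.pr.ne_zero
  have hkill : ∀ T : Tor π Ω, l • T = 0 := by
    rintro ⟨T, hT⟩
    apply Subtype.ext
    change l • T = 0
    obtain ⟨c, hc⟩ := D.dvd
    rw [← act_nat, hc, mul_comm, act_mul, mem_Tor.1 hT, map_zero]
  obtain ⟨iM⟩ : Nonempty (Module (ZMod l) (Tor π Ω)) := ⟨AddCommGroup.zmodModule hkill⟩
  have iF : Module.Finite (ZMod l) (Tor π Ω) := Module.Finite.of_finite
  obtain ⟨n, b⟩ : Σ n : ℕ, Module.Basis (Fin n) (ZMod l) (Tor π Ω) := ⟨_, Module.finBasis (ZMod l) ↥(Tor π Ω)⟩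
  have hrep : ∀ T : Tor π Ω, T = ∑ i, (b.repr T i).val • b i := by
    intro T
    conv_lhs => rw [← b.sum_repr T]
    refine Finset.sum_congr rfl fun i _ => ?_
    conv_lhs => rw [← ZMod.natCast_zmod_val (b.repr T i)]
    exact Nat.cast_smul_eq_nsmul (ZMod l) _ _
  have hroot : ∀ i : Fin n, ∃ w : Ω, w ^ l = ((m (b i) : L) : Ω) := fun i =>
    IsAlgClosed.exists_pow_nat_eq _ (Nat.pos_of_ne_zero hl0)
  choose w hw using hroot
  have hw0 : ∀ i, w i ≠ 0 := by
    intro i h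
    have h1 := hw i
    rw [h, zero_pow hl0] at h1
    have h2 : ((m (b i) : L)) ≠ 0 := Units.ne_zero _
    apply h2
    exact_mod_cast h1.symm
  let cc : P27 Ω → Fin n → ℕ := fun T i => if h : T ∈ Tor π Ω then (b.repr ⟨T, h⟩ i).val else 0
  let y : P27 Ω → Ω := fun T => ∏ i, w i ^ cc T i
  have hcc : ∀ T (h : T ∈ Tor π Ω) i, cc T i = (b.repr ⟨T, h⟩ i).val := fun T h i => dif_pos h
  have hprod : ∀ (e : Fin n → ℕ), (∏ i, (w i ^ l) ^ e i) = (((∏ i, m (b i) ^ e i : (L)ˣ) : L) : Ω) := by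
    intro e
    rw [Units.coe_prod]
    rw [show ((((∏ i, ((m (b i) ^ e i : (L)ˣ) : L)) : L)) : Ω) = L.val (∏ i, ((m (b i) ^ e i : (L)ˣ) : L)) from rfl,
      map_prod]
    refine Finset.prod_congr rfl fun i _ => ?_
    rw [hw i, Units.val_pow_eq_pow_val, map_pow]
    rfl
  refine ⟨y, fun T hT => ⟨Finset.prod_ne_zero_iff.2 fun i _ => pow_ne_zero _ (hw0 i), ?_⟩,
    fun T hT T' hT' => ?_⟩
  · obtain ⟨z, hz⟩ := cz1_quot (A := Tor π Ω) l (fun T => m T) (fun T T' => hadd T T.2 T' T'.2) b (cc T)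
    refine ⟨z, ?_⟩
    have h1 : (∑ i, cc T i • b i) = ⟨T, hT⟩ := by
      conv_rhs => rw [hrep ⟨T, hT⟩]
      exact Finset.sum_congr rfl fun i _ => by rw [hcc T hT i]
    rw [h1] at hz
    change (∏ i, w i ^ cc T i) ^ l = _
    rw [← Finset.prod_pow]
    have h2 : (∏ i, (w i ^ cc T i) ^ l) = ∏ i, (w i ^ l) ^ cc T i :=
      Finset.prod_congr rfl fun i _ => by rw [← pow_mul, ← pow_mul, mul_comm]
    rw [h2, hprod, hz]
  · let q : Fin n → ℕ := fun i => (cc T i + cc T' i) / l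
    refine ⟨(∏ i, m (b i) ^ q i)⁻¹, ?_⟩
    have h1 : ∀ i, cc T i + cc T' i = cc (T + T') i + l * q i := by
      intro i
      have h2 : cc (T + T') i = (cc T i + cc T' i) % l := by
        rw [hcc _ ((Tor π Ω).add_mem hT hT'), hcc T hT, hcc T' hT']
        rw [← ZMod.val_add]
        congr 1
        have h3 : (⟨T + T', (Tor π Ω).add_mem hT hT'⟩ : Tor π Ω) = ⟨T, hT⟩ + ⟨T', hT'⟩ := rfl
        rw [h3, map_add]
        rfl
      rw [h2]
      exact (Nat.mod_add_div _ _).symm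
    have h2 : y T * y T' = y (T + T') * (((∏ i, m (b i) ^ q i : (L)ˣ) : L) : Ω) := by
      change (∏ i, w i ^ cc T i) * (∏ i, w i ^ cc T' i) = (∏ i, w i ^ cc (T + T') i) * _
      rw [← hprod, ← Finset.prod_mul_distrib, ← Finset.prod_mul_distrib]
      refine Finset.prod_congr rfl fun i _ => ?_
      rw [← pow_add, ← pow_mul, ← pow_add, h1 i]
    rw [h2, mul_assoc]
    have h3 : (((∏ i, m (b i) ^ q i : (L)ˣ) : L) : Ω) * ((((∏ i, m (b i) ^ q i : (L)ˣ)⁻¹ : (L)ˣ) : L) : Ω) = 1 := by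
      have h4 : ((∏ i, m (b i) ^ q i : (L)ˣ) : L) * (((∏ i, m (b i) ^ q i : (L)ˣ)⁻¹ : (L)ˣ) : L) = 1 :=
        Units.mul_inv _
      have h5 := congrArg (fun x : L => (x : Ω)) h4
      simpa using h5
    rw [h3, mul_one]

end H13Z
end
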