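import Mathlib
import Pool.Agent.Lib.H1M.PP2.M005
import Pool.Agent.Lib.H1M.PP2.M022
import Pool.Agent.Lib.H1M.PP2.M062

/-! Merged copies (to shorten the build) of Lib.H16S.P0, Lib.H16S.A2, Lib.H16S.A2C, Lib.H16S.A2D, Lib.H16S.A3, Lib.SSG.LT.V0, Lib.SSG.LT.PC, Lib.SSG.LT.PC2. -/

-- from Lib.H16S.P0
section

/-! # H16S: points in the coordinates t = x/y, w = 1/y -/

open WeierstrassCurve

namespace H16S

open H35P (WAB Ker tt)
open H55K (xc yc)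

/-- The coordinate w = 1/y of a point (0 for the origin). -/
noncomputable def ww {k : Type} [Field k] {W : WeierstrassCurve k} (P : W.toAffine.Point) : k := (yc P)⁻¹

/-- The point lies in the domain of the coordinates t, w. -/
def Ch {k : Type} [Field k] {W : WeierstrassCurve k} (P : W.toAffine.Point) : Prop := P = 0 ∨ yc P ≠ 0

theorem Eqn_ww {k : Type} [Field k] {W : WeierstrassCurve k} [W.IsShortNF] {P : W.toAffine.Point} (h : Ch P) :
    Eqn W.a₄ W.a₆ (tt P) (ww P) := by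
  unfold Eqn ww
  rw [H55K.tt_eq]
  rcases h with rfl | h
  · rw [H55K.xc_zero, H55K.yc_zero]
    simp
  · have h0 : P ≠ 0 := by
      rintro rfl
      exact h rfl
    have h1 := H55K.eqn h0
    field_simp
    linear_combination h1

end H16S
end

-- from Lib.H16S.A2
section

/-! # H16S, chunks A2: the addition formulas are the group law -/

open WeierstrassCurve

namespace H16S

open H35P (WAB Ker tt)
open H55K (xc yc)

variable {k : Type} [Field k] [DecidableEq k] {W : WeierstrassCurve k} [W.IsShortNF]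

/-- Chunk A2a (S). In a field the two points on the line: a point with the coordinates (t, w), w ≠ 0, is x = t/w, y = 1/w. For P ≠ 0 with yc P ≠ 0: xc P = tt P / ww P, yc P = 1 / ww P,
ww P ≠ 0. -/
theorem xy_tw {P : W.toAffine.Point} (h0 : P ≠ 0) (h : Ch P) :
    ww P ≠ 0 ∧ xc P = tt P / ww P ∧ yc P = 1 / ww P := by
  have hy : yc P ≠ 0 := h.resolve_left h0
  unfold ww
  rw [H55K.tt_eq]
  refine ⟨inv_ne_zero hy, ?_, ?_⟩
  · field_simp
  · rw [one_div, inv_inv]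

/-- Vieta's formulas for the line through two points. -/
theorem a2_vieta {K : Type} [Field K] {a b x₁ y₁ x₂ y₂ : K} (hx : x₁ ≠ x₂) (e₁ : y₁ ^ 2 = x₁ ^ 3 + a * x₁ + b)
    (e₂ : y₂ ^ 2 = x₂ ^ 3 + a * x₂ + b) :
    ∃ s m : K, s = (y₁ - y₂) / (x₁ - x₂) ∧ y₁ = s * x₁ + m ∧ y₂ = s * x₂ + m ∧
      a - 2 * s * m = x₁ * x₂ + (x₁ + x₂) * (s ^ 2 - x₁ - x₂) ∧ b - m ^ 2 = -(x₁ * x₂ * (s ^ 2 - x₁ - x₂)) := by
  have hd : x₁ - x₂ ≠ 0 := sub_ne_zero.2 hx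
  obtain ⟨s, hs⟩ : ∃ s : K, s = (y₁ - y₂) / (x₁ - x₂) := ⟨_, rfl⟩
  have hs1 : s * (x₁ - x₂) = y₁ - y₂ := by rw [hs, div_mul_cancel₀ _ hd]
  obtain ⟨m, hm1⟩ : ∃ m : K, y₁ = s * x₁ + m := ⟨y₁ - s * x₁, by ring⟩
  have hm2 : y₂ = s * x₂ + m := by linear_combination hm1 + hs1
  refine ⟨s, m, hs, hm1, hm2, ?_⟩
  rw [hm1] at e₁
  rw [hm2] at e₂
  have h1 : a - 2 * s * m = x₁ * x₂ + (x₁ + x₂) * (s ^ 2 - x₁ - x₂) := by
    apply mul_left_cancel₀ hd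
    linear_combination e₂ - e₁
  exact ⟨h1, by linear_combination -e₁ - x₁ * h1⟩

/-- The algebra of the sum in the coordinates t, w. -/
theorem a2_alg {K : Type} [Field K] {a b x₁ y₁ x₂ y₂ x₃ y₃ s m L N D : K} (hy1 : y₁ ≠ 0) (hy2 : y₂ ≠ 0)
    (h1 : y₁ = s * x₁ + m) (h2 : y₂ = s * x₂ + m) (h3 : x₃ = s ^ 2 - x₁ - x₂) (h4 : y₃ = -(s * (x₃ - x₁) + y₁))
    (h5 : a - 2 * s * m = x₁ * x₂ + (x₁ + x₂) * x₃) (h6 : b - m ^ 2 = -(x₁ * x₂ * x₃)) (hx : x₁ ≠ x₂)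
    (hN : N = y₁⁻¹ - L * (x₁ / y₁)) (hL : y₂⁻¹ = L * (x₂ / y₂) + N)
    (hD : D = 1 + a * L ^ 2 + b * L ^ 3) (hD0 : D ≠ 0) :
    y₃ ≠ 0 ∧ x₃ / y₃ = x₁ / y₁ + x₂ / y₂ + (2 * a * L + 3 * b * L ^ 2) * N * D⁻¹ ∧ y₃⁻¹ = L * (x₃ / y₃) - N := by
  have f1 : 1 = L * x₁ + N * y₁ := by
    rw [hN]
    field_simp
    ring
  have f2 : 1 = L * x₂ + N * y₂ := by
    have := congrArg (fun z => z * y₂) hL
    simp only [add_mul] at this
    rw [inv_mul_cancel₀ hy2, mul_assoc, div_mul_cancel₀ _ hy2] at this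
    exact this
  have f3 : L = -(N * s) := by
    apply mul_left_cancel₀ (sub_ne_zero.2 hx)
    linear_combination f2 - f1 - N * h1 + N * h2
  have f4 : N * m = 1 := by
    linear_combination -N * h1 - f1 - x₁ * f3
  have hN0 : N ≠ 0 := left_ne_zero_of_mul_eq_one f4
  have hm0 : m ≠ 0 := right_ne_zero_of_mul_eq_one f4
  have hy3 : y₃ = -(s * x₃ + m) := by
    linear_combination h4 - h1
  have hM : D * m ^ 3 = -(y₁ * y₂ * y₃) := by
    have g1 : D * m ^ 3 = m ^ 3 + a * s ^ 2 * m - b * s ^ 3 := by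
      rw [hD, f3]
      linear_combination (a * s ^ 2 * m * (N * m + 1) - b * s ^ 3 * ((N * m) ^ 2 + N * m + 1)) * f4
    rw [g1, hy3, h1, h2]
    linear_combination s ^ 2 * m * h5 - s ^ 3 * h6 - s * m ^ 2 * h3
  have hy0 : y₃ ≠ 0 := by
    intro h
    rw [h, mul_zero, neg_zero] at hM
    exact mul_ne_zero hD0 (pow_ne_zero 3 hm0) hM
  have key : x₃ * y₁ * y₂ = x₁ * y₂ * y₃ + x₂ * y₁ * y₃ + (2 * a * s * m - 3 * b * s ^ 2) := by
    rw [hy3, h1, h2]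
    linear_combination 3 * s ^ 2 * h6 - 2 * s * m * h5 + m ^ 2 * h3
  have hP : y₁ * y₂ * y₃ ≠ 0 := mul_ne_zero (mul_ne_zero hy1 hy2) hy0
  have hE : (2 * a * L + 3 * b * L ^ 2) * N * D⁻¹ = (2 * a * s * m - 3 * b * s ^ 2) / (y₁ * y₂ * y₃) := by
    rw [← div_eq_mul_inv, div_eq_div_iff hD0 hP]
    have g2 : y₁ * y₂ * y₃ = -(D * m ^ 3) := by rw [hM, neg_neg]
    rw [g2, f3]
    linear_combination (2 * a * s * m * (N * m + 1) * D - 3 * b * s ^ 2 * ((N * m) ^ 2 + N * m + 1) * D) * f4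
  have hX : x₃ / y₃ = x₁ / y₁ + x₂ / y₂ + (2 * a * L + 3 * b * L ^ 2) * N * D⁻¹ := by
    rw [hE]
    field_simp
    linear_combination key
  refine ⟨hy0, hX, ?_⟩
  rw [f3]
  field_simp
  linear_combination N * hy3 - f4

/-- Chunk A2b (M/L). The generic case xc P ≠ xc Q. PROOF. (x₁,y₁), (x₂,y₂) the coordinates, l = (y₁ - y₂)/(x₁ - x₂), m = y₁ - l x₁ = y₂ - l x₂, t_i = x_i/y_i, w_i = 1/y_i: 1 = l t_i + m w_i.
m ≠ 0: otherwise t₁ = t₂ = 1/l and by on_line w₁ = w₂, so x₁ = x₂. Then lam = -l/m, nu = 1/m (the line through the two points: (t₁ ≠ t₂ since otherwise w₁ = w₂ by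
on_line) w₁ = -(l/m) t₁ + 1/m and the same for 2; lam (t₁ - t₂) = w₁ - w₂ by on_line and the definition of nu). M = m³ + a l² m - b l³ satisfies M = - y₁ y₂ y₃, y₃ = yc (P+Q):
evaluate X³ + a X + b - (l X + m)² = (X - x₁)(X - x₂)(X - x₃), l x_i + m = y₁, y₂, -y₃, at X = -m/l if l ≠ 0 (if l = 0: y₁ = y₂ = m, y₃ = -m); d2 = M/m³. So y₃ ≠ 0.
The third point of the line in the coordinates (t,w) is (x₃/(-y₃), 1/(-y₃)); it is a root of the cubic, D t₃ = - D (t₁ + t₂) - (2 a l' v + 3 b l'² v) with l' = lam, v = nu, D = d2: check it by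
field_simp after eliminating a and b: b = y₁² - x₁³ - a x₁, a = (y₁² - y₂² - x₁³ + x₂³)/(x₁ - x₂) (or use: D T³ + .. has the three roots t₁, t₂, x₃/(-y₃)). H55K.add_coords gives x₃, y₃. -/
theorem add_gen {P Q : W.toAffine.Point} (hP : P ≠ 0) (hQ : Q ≠ 0) (cP : Ch P) (cQ : Ch Q) (hx : xc P ≠ xc Q)
    (h1 : d1 W.a₄ W.a₆ (tt P) (ww P) (tt Q) (ww Q) ≠ 0) (h2 : d2 W.a₄ W.a₆ (tt P) (ww P) (tt Q) (ww Q) ≠ 0) :
    yc (P + Q) ≠ 0 ∧ tt (P + Q) = addt W.a₄ W.a₆ (tt P) (ww P) (tt Q) (ww Q) ∧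
      ww (P + Q) = addw W.a₄ W.a₆ (tt P) (ww P) (tt Q) (ww Q) := by
  have hy1 : yc P ≠ 0 := cP.resolve_left hP
  have hy2 : yc Q ≠ 0 := cQ.resolve_left hQ
  obtain ⟨-, hx3, hy3⟩ := H55K.add_coords hP hQ hx
  obtain ⟨s, m, hs, g1, g2, g3, g4⟩ := a2_vieta hx (H55K.eqn hP) (H55K.eqn hQ)
  rw [← hs] at hx3 hy3
  rw [← hx3] at g3 g4
  have hol := on_line (Eqn_ww cP) (Eqn_ww cQ) (isUnit_iff_ne_zero.2 h1)
  have hw : ww (P + Q) = (yc (P + Q))⁻¹ := rfl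
  have hN : nu W.a₄ W.a₆ (tt P) (ww P) (tt Q) (ww Q) =
      (yc P)⁻¹ - lam W.a₄ W.a₆ (tt P) (ww P) (tt Q) (ww Q) * (xc P / yc P) := by
    rw [← H55K.tt_eq]
    rfl
  have hL : (yc Q)⁻¹ = lam W.a₄ W.a₆ (tt P) (ww P) (tt Q) (ww Q) * (xc Q / yc Q) +
      nu W.a₄ W.a₆ (tt P) (ww P) (tt Q) (ww Q) := by
    rw [← H55K.tt_eq]
    exact hol
  obtain ⟨k1, k2, k3⟩ := a2_alg hy1 hy2 g1 g2 hx3 hy3 g3 g4 hx hN hL rfl h2
  have hT : tt (P + Q) = addt W.a₄ W.a₆ (tt P) (ww P) (tt Q) (ww Q) := by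
    unfold addt
    rw [Ring.inverse_eq_inv', H55K.tt_eq, k2, H55K.tt_eq, H55K.tt_eq]
    rfl
  refine ⟨k1, hT, ?_⟩
  unfold addw
  rw [← hT, hw, k3, H55K.tt_eq (P + Q)]

end H16S
end

-- from Lib.H16S.A2C
section

/-! # H16S, chunks A2: the addition formulas are the group law -/

open WeierstrassCurve

namespace H16S

open H35P (WAB Ker tt)
open H55K (xc yc)

variable {k : Type} [Field k] [DecidableEq k] {W : WeierstrassCurve k} [W.IsShortNF]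

/-- Chunk A2c (M). Doubling, yc P ≠ 0, 2 ≠ 0. PROOF. As A2b with the tangent: (x, y) the coordinates of P, t = x/y, w = 1/y, l = (3 x² + a)/(2 y), m = y - l x, so 1 = l t + m w. n1 = 3 t² + a w² = w² (3 x² + a) = 2 l w,
d1 = 1 - 2 a t w - 3 b w² = w² (y² - 2 a x - 3 b) = w² (x³ - a x - 2 b) and -2 m y = -2 y² + x (3 x² + a) = x³ - a x - 2 b, so d1 = -2 m w: m ≠ 0, lam = -l/m,
nu = w - lam t = 1/m. H55K.dbl_coords: x₃ = l² - 2 x, y₃ = -(l (x₃ - x) + y). M = m³ + a l² m - b l³ = - y² y₃ (X³ + a X + b - (l X + m)² = (X - x)² (X - x₃) at X = -m/l; l = 0: directly),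
d2 = M/m³, so y₃ ≠ 0. Then addt = x₃/y₃, addw = 1/y₃: eliminate a = 2 l y - 3 x², b = y² - x³ - a x, m = y - l x and field_simp; ring (addt = 2 t + (2 a lam + 3 b lam²) nu / d2). -/
theorem add_dbl (h2' : (2 : k) ≠ 0) {P : W.toAffine.Point} (hP : P ≠ 0) (cP : Ch P)
    (h1 : d1 W.a₄ W.a₆ (tt P) (ww P) (tt P) (ww P) ≠ 0) (h2 : d2 W.a₄ W.a₆ (tt P) (ww P) (tt P) (ww P) ≠ 0) :
    yc (P + P) ≠ 0 ∧ tt (P + P) = addt W.a₄ W.a₆ (tt P) (ww P) (tt P) (ww P) ∧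
      ww (P + P) = addw W.a₄ W.a₆ (tt P) (ww P) (tt P) (ww P) := by
  have hy : yc P ≠ 0 := by
    rcases cP with c | c
    · exact absurd c hP
    · exact c
  obtain ⟨-, hx3, hy3⟩ := H55K.dbl_coords hP (mul_ne_zero h2' hy)
  have he := H55K.eqn hP
  have ht : tt P = xc P / yc P := H55K.tt_eq P
  have hw : ww P = 1 / yc P := by
    unfold ww
    rw [one_div]
  rw [H55K.tt_eq (P + P)]
  have hw3 : ww (P + P) = (yc (P + P))⁻¹ := rfl
  rw [hw3]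
  rw [ht, hw] at h1 h2 ⊢
  generalize xc (P + P) = x₃ at hx3 hy3 ⊢
  generalize yc (P + P) = y₃ at hy3 ⊢
  generalize xc P = x at *
  generalize yc P = y at *
  obtain ⟨l, hl⟩ : ∃ l : k, l = (3 * x ^ 2 + W.a₄) / (2 * y) := ⟨_, rfl⟩
  rw [← hl] at hx3 hy3
  have h2y : 2 * y ≠ 0 := mul_ne_zero h2' hy
  have ha : W.a₄ = 2 * l * y - 3 * x ^ 2 := by
    rw [hl]
    field_simp
    ring
  generalize W.a₄ = a at *
  generalize W.a₆ = b at *
  have hb : b = y ^ 2 + 2 * x ^ 3 - 2 * l * x * y := by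
    rw [ha] at he
    linear_combination -he
  obtain ⟨m, hm⟩ : ∃ m : k, m = y - l * x := ⟨_, rfl⟩
  have hd : d1 a b (x / y) (1 / y) (x / y) (1 / y) = -2 * m / y := by
    unfold d1
    rw [hb, hm, ha]
    field_simp
    ring
  have hn : n1 a (x / y) (1 / y) (x / y) = 2 * l / y := by
    unfold n1
    rw [ha]
    field_simp
    ring
  have hm0 : m ≠ 0 := fun h => h1 (by rw [hd, h]; simp)
  have hlam : lam a b (x / y) (1 / y) (x / y) (1 / y) = -l / m := by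
    unfold lam
    rw [Ring.inverse_eq_inv', hd, hn]
    field_simp
  have hnu : nu a b (x / y) (1 / y) (x / y) (1 / y) = 1 / m := by
    unfold nu
    rw [hlam]
    field_simp
    rw [hm]
    ring
  have hM : m ^ 3 + a * l ^ 2 * m - b * l ^ 3 = -y ^ 2 * y₃ := by
    rw [hy3, hx3, hb, ha, hm]
    ring
  have hd2 : d2 a b (x / y) (1 / y) (x / y) (1 / y) = -y ^ 2 * y₃ / m ^ 3 := by
    rw [← hM]
    unfold d2
    rw [hlam]
    field_simp
    ring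
  have hy0 : y₃ ≠ 0 := fun h => h2 (by rw [hd2, h]; simp)
  have hadd : addt a b (x / y) (1 / y) (x / y) (1 / y) = x₃ / y₃ := by
    unfold addt
    rw [Ring.inverse_eq_inv', hlam, hnu, hd2]
    have e : 2 * x * y * y₃ + 2 * a * l * m - 3 * b * l ^ 2 = y ^ 2 * x₃ := by
      rw [hy3, hx3, hb, ha, hm]
      ring
    field_simp
    linear_combination e
  refine ⟨hy0, hadd.symm, ?_⟩
  unfold addw
  rw [hadd, hlam, hnu]
  have e : l * x₃ + y₃ = -m := by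
    rw [hy3, hm]
    ring
  field_simp
  linear_combination e

end H16S
end

-- from Lib.H16S.A2D
section

/-! # H16S, chunks A2: the addition formulas are the group law -/

open WeierstrassCurve

namespace H16S

open H35P (WAB Ker tt)
open H55K (xc yc)

variable {k : Type} [Field k] [DecidableEq k] {W : WeierstrassCurve k} [W.IsShortNF]

/-- Chunk A2d (M). The group law in general. PROOF. Cases. P = 0: t₁ = w₁ = 0, w₂ d1 = t₂³ (equation), so t₂ ≠ 0 if Q ≠ 0 (w₂ ≠ 0, d1 ≠ 0) and lam = w₂/t₂, nu = 0, addt = t₂, addw = w₂. Q = 0: w₁ d1 = t₁ n1, again lam = w₁/t₁, nu = 0.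
P = -Q: t₂ = -t₁, w₂ = -w₁ (H55K.xc_neg, yc_neg), w₁ d1 = t₁ n1, lam = w₁/t₁, nu = 0, addt = 0, addw = 0, P + Q = 0. P = Q: A2c. Otherwise xc P ≠ xc Q (H55K.xc_eq): A2b. -/
theorem add_tw (h2' : (2 : k) ≠ 0) {P Q : W.toAffine.Point} (cP : Ch P) (cQ : Ch Q)
    (h1 : d1 W.a₄ W.a₆ (tt P) (ww P) (tt Q) (ww Q) ≠ 0) (h2 : d2 W.a₄ W.a₆ (tt P) (ww P) (tt Q) (ww Q) ≠ 0) :
    Ch (P + Q) ∧ tt (P + Q) = addt W.a₄ W.a₆ (tt P) (ww P) (tt Q) (ww Q) ∧
      ww (P + Q) = addw W.a₄ W.a₆ (tt P) (ww P) (tt Q) (ww Q) := by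
  have z1 : tt (0 : W.toAffine.Point) = 0 := rfl
  have z2 : ww (0 : W.toAffine.Point) = 0 := inv_zero
  have ol := on_line (Eqn_ww cP) (Eqn_ww cQ) (isUnit_iff_ne_zero.2 h1)
  by_cases hP : P = 0
  · subst hP
    rw [zero_add]
    refine ⟨cQ, ?_, ?_⟩
    · unfold addt
      unfold nu
      rw [z1, z2]
      ring
    · unfold addw addt
      unfold nu at ol ⊢
      rw [z1, z2] at ol ⊢
      rw [mul_zero, sub_zero, add_zero] at ol
      rw [mul_zero, sub_zero, mul_zero, zero_mul, add_zero, zero_add, sub_zero]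
      exact ol
  by_cases hQ : Q = 0
  · subst hQ
    rw [add_zero]
    rw [z1, z2, mul_zero, zero_add] at ol
    refine ⟨cP, ?_, ?_⟩
    · unfold addt
      rw [z1, z2, ← ol]
      ring
    · unfold addw addt
      rw [z1, z2, ← ol]
      unfold nu at ol
      linear_combination -ol
  by_cases hx : xc P = xc Q
  · rcases H55K.xc_eq hP hQ hx with e | e
    · subst e
      obtain ⟨r1, r2, r3⟩ := add_dbl h2' hP cP h1 h2
      exact ⟨Or.inr r1, r2, r3⟩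
    · have e1 : P + Q = 0 := by
        rw [e]
        exact neg_add_cancel Q
      have e2 : tt P = -tt Q := by rw [e, H55K.tt_neg]
      have e3 : ww P = -ww Q := by
        rw [e]
        unfold ww
        rw [H55K.yc_neg, inv_neg]
      have hnu : nu W.a₄ W.a₆ (tt P) (ww P) (tt Q) (ww Q) = 0 := by
        have e4 : 2 * nu W.a₄ W.a₆ (tt P) (ww P) (tt Q) (ww Q) = 0 := by
          have e5 : nu W.a₄ W.a₆ (tt P) (ww P) (tt Q) (ww Q) =
              ww P - lam W.a₄ W.a₆ (tt P) (ww P) (tt Q) (ww Q) * tt P := rfl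
          linear_combination e5 - ol - lam W.a₄ W.a₆ (tt P) (ww P) (tt Q) (ww Q) * e2 + e3
        exact (mul_eq_zero.1 e4).resolve_left h2'
      refine ⟨Or.inl e1, ?_, ?_⟩
      · rw [e1, z1]
        unfold addt
        rw [hnu, e2]
        ring
      · rw [e1, z2]
        unfold addw addt
        rw [hnu]
        linear_combination -(lam W.a₄ W.a₆ (tt P) (ww P) (tt Q) (ww Q)) * e2
  · obtain ⟨r1, r2, r3⟩ := add_gen hP hQ cP cQ hx h1 h2
    exact ⟨Or.inr r1, r2, r3⟩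

end H16S
end

-- from Lib.H16S.A3
section

/-! # H16S, chunks A3: the kernel of reduction in the coordinate t -/

open WeierstrassCurve

namespace H16S

open H35P (WAB Ker tt IntW)
open H55K (xc yc)

variable {k : Type} [Field k] [DecidableEq k] {W : WeierstrassCurve k} [W.IsShortNF] {V : ValuationSubring k}

/-- Chunk A3a (S/M). The values of t and w in the kernel of reduction: V w = (V t)^3 < 1 (P = 0: both are 0). H35P.val_y: V y² = V x³, V x < V y for P ≠ 0. In particular Ch P. -/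
theorem ker_tw (hI : IntW W V) {P : W.toAffine.Point} (h : Ker V P) :
    Ch P ∧ V.valuation (tt P) < 1 ∧ V.valuation (ww P) = V.valuation (tt P) ^ 3 := by
  by_cases h0 : P = 0
  · subst h0
    refine ⟨Or.inl rfl, H35P.tt_lt hI _ h, ?_⟩
    unfold ww
    rw [H55K.tt_eq, H55K.xc_zero, H55K.yc_zero, zero_div, inv_zero, map_zero]
    exact (zero_pow (by norm_num)).symm
  · have hx := (H55K.ker_iff V h0).1 h
    obtain ⟨h1, h2⟩ := H35P.val_y hI ((H55K.s_eq _ _).2 (H55K.eqn h0)) hx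
    have hy0 : V.valuation (yc P) ≠ 0 := (zero_lt_one.trans (hx.trans h2)).ne'
    have hy : yc P ≠ 0 := fun e => hy0 (by rw [e, map_zero])
    refine ⟨Or.inr hy, H35P.tt_lt hI _ h, ?_⟩
    unfold ww
    rw [H55K.tt_eq, map_div₀, div_pow, ← h1, map_inv₀]
    rw [eq_div_iff (pow_ne_zero 3 hy0), pow_succ, mul_comm, mul_assoc, mul_inv_cancel₀ hy0, mul_one]

/-- Chunk A3b (S). Conversely: coordinates (t, w) with V t < 1, w ≠ 0, V w < 1 ... : if Ch P and V (tt P) < 1 and V (ww P) < 1 then Ker V P. PROOF. P = 0 is clear. Otherwise y = 1/w, V y > 1; if V x ≤ 1 then V y ≤ 1 by H35P.int_y. -/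
theorem ker_of_tw (hI : IntW W V) {P : W.toAffine.Point} (c : Ch P) (h : V.valuation (ww P) < 1) : Ker V P := by
  by_contra hk
  obtain ⟨h0, hx⟩ := H55K.not_ker V hk
  have hy := H35P.int_y hI ((H55K.s_eq _ _).2 (H55K.eqn h0)) hx
  rcases c with c | c
  · exact h0 c
  · unfold ww at h
    rw [map_inv₀] at h
    have hy0 : 0 < V.valuation (yc P) := zero_lt_iff.2 ((map_ne_zero _).2 c)
    exact absurd hy (not_le.2 ((inv_lt_one₀ hy0).1 h))

/-- Chunk A3c (M). Small solutions of the equation are determined by t: V w, V w' < 1, V t < 1. PROOF. (w - w')(1 - a t (w + w') - b (w² + w w' + w'²)) = 0 and the second factor has value 1. -/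
theorem w_unique {a b t w w' : k} (ha : a ∈ V) (hb : b ∈ V) (h : Eqn a b t w) (h' : Eqn a b t w')
    (ht : V.valuation t < 1) (hw : V.valuation w < 1) (hw' : V.valuation w' < 1) : w = w' := by
  by_contra hne
  unfold Eqn at h h'
  have h1 : (w - w') * (1 - (a * t * (w + w') + b * (w ^ 2 + w * w' + w' ^ 2))) = 0 := by
    linear_combination h - h'
  have h2 : (1 : k) = a * t * (w + w') + b * (w ^ 2 + w * w' + w' ^ 2) := by
    rcases mul_eq_zero.1 h1 with h3 | h3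
    · exact absurd (sub_eq_zero.1 h3) hne
    · exact sub_eq_zero.1 h3
  have va : V.valuation a ≤ 1 := (V.valuation_le_one_iff a).2 ha
  have vb : V.valuation b ≤ 1 := (V.valuation_le_one_iff b).2 hb
  have m1 : ∀ {x y : k}, V.valuation x ≤ 1 → V.valuation y < 1 → V.valuation (x * y) < 1 := by
    intro x y hx hy
    rw [map_mul]
    exact mul_lt_one_of_nonneg_of_lt_one_right hx zero_le' hy
  have h3 : V.valuation (1 : k) < 1 := by
    rw [h2]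
    refine V.valuation.map_add_lt (m1 ?_ (V.valuation.map_add_lt hw hw')) (m1 vb ?_)
    · exact (m1 va ht).le
    · refine V.valuation.map_add_lt (V.valuation.map_add_lt ?_ (m1 hw.le hw')) ?_
      · rw [sq]
        exact m1 hw.le hw
      · rw [sq]
        exact m1 hw'.le hw'
  rw [map_one] at h3
  exact lt_irrefl _ h3

/-- Chunk A3d (S/M). t is injective on the kernel of reduction: ker_tw, w_unique, Eqn_ww, xy_tw, H55K.pt_ext (w = 0 iff P = 0). IntW gives a₄, a₆ in V. -/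
theorem tt_inj (hI : IntW W V) {P Q : W.toAffine.Point} (hP : Ker V P) (hQ : Ker V Q) (h : tt P = tt Q) : P = Q := by
  by_cases h0 : P = 0
  · have h1 := (H35P.tt_eq_zero hI P hP).2 h0
    rw [h0, (H35P.tt_eq_zero hI Q hQ).1 (h ▸ h1)]
  · by_cases h1 : Q = 0
    · have h2 := (H35P.tt_eq_zero hI Q hQ).2 h1
      exact absurd ((H35P.tt_eq_zero hI P hP).1 (h.trans h2)) h0
    · obtain ⟨c1, t1, w1⟩ := ker_tw hI hP
      obtain ⟨c2, t2, w2⟩ := ker_tw hI hQ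
      have e : ww P = ww Q := by
        refine w_unique hI.a4 hI.a6 (Eqn_ww c1) (h ▸ Eqn_ww c2) t1 ?_ ?_
        · rw [w1]
          exact pow_lt_one₀ zero_le' t1 (by norm_num)
        · rw [w2]
          exact pow_lt_one₀ zero_le' t2 (by norm_num)
      obtain ⟨-, x1, y1⟩ := xy_tw h0 c1
      obtain ⟨-, x2, y2⟩ := xy_tw h1 c2
      refine H55K.pt_ext h0 h1 ?_ ?_
      · rw [x1, x2, h, e]
      · rw [y1, y2, e]

end H16S
end

-- from Lib.SSG.LT.V0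
section

/-! # SSG/LT: the function v = w / t ^ 3 and translation by a point outside the kernel of reduction -/

open NumberField IsDedekindDomain WeierstrassCurve

namespace SSG.LT

open H55P (IQ Pt)
open H35P (WAB Ker tt)
open H55K

section defs

variable {k : Type} [Field k] {W : WeierstrassCurve k}

/-- `v = y ^ 2 / x ^ 3` (`1` at the origin): `w = 1 / y = t ^ 3 v`, `t = x / y`. -/
noncomputable def vv : W.toAffine.Point → k
  | .zero => 1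
  | .some x y _ => y ^ 2 / x ^ 3

/-- The numerator of `x(R + T)`. -/
def gN (a b x y t v : k) : k :=
  a * t ^ 2 * v ^ 2 + b * t ^ 4 * v ^ 3 - 2 * y * t * v ^ 2 + y ^ 2 * t ^ 4 * v ^ 3 + 2 * x * v - x ^ 2 * t ^ 2 * v ^ 2

/-- The numerator of `(x(R + T) - x(T)) / t`. -/
def gM (a b x y t v : k) : k :=
  a * t * v ^ 2 + b * t ^ 3 * v ^ 3 - 2 * y * v ^ 2 + y ^ 2 * t ^ 3 * v ^ 3 + 3 * x ^ 2 * t * v ^ 2 -
    2 * x ^ 3 * t ^ 3 * v ^ 3

/-- `x(R + T) - x(T)` as a function of `t = t(R)`, `v = v(R)`; `(x, y) = T`. -/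
noncomputable def gx (a b x y t v : k) : k := gN a b x y t v * v⁻¹ * ((1 - x * t ^ 2 * v)⁻¹) ^ 2 - 2 * x

/-- `y(R + T)`. -/
noncomputable def gy (a b x y t v : k) : k :=
  -((1 - y * t ^ 3 * v) * gM a b x y t v * v⁻¹ * ((1 - x * t ^ 2 * v)⁻¹) ^ 3 + y)

end defs

variable {F : Type} [Field F] [NumberField F] [IQ F] {A B : F} {Ω : Type} [Field Ω] [DecidableEq Ω]
  [Algebra F Ω] {V : ValuationSubring Ω}

/-! Chunk V0 (S/M). PROOF. P = 0: tt = 0, vv = 1. P = some x y: V x > 1, V y ^ 2 = V x ^ 3 (H35P.val_y, H55K.tt_val), so x, y ≠ 0; tt = x / y, vv = y ^ 2 / x ^ 3; x ^ 3 + A x + B = y ^ 2 (H55K.eqn, eqnA): divide by x ^ 3 and use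
t ^ 4 v ^ 2 = 1 / x ^ 2, t ^ 6 v ^ 3 = 1 / x ^ 3. -/

omit [NumberField F] [IQ F] [DecidableEq Ω] in
theorem v0_vv {P : Pt (WAB A B) Ω} (h0 : P ≠ 0) : vv P = yc P ^ 2 / xc P ^ 3 := by
  rcases P with _ | ⟨x, y, h⟩
  · exact absurd rfl h0
  · rfl

omit [NumberField F] [IQ F] in
theorem v0_ne (hV : GV A B V) {P : Pt (WAB A B) Ω} (hP : Ker V P) (h0 : P ≠ 0) : xc P ≠ 0 ∧ yc P ≠ 0 := by
  obtain ⟨h1, h2, h3⟩ := tt_val hV hP h0
  have hx1 : 1 < V.valuation (xc P) := (ker_iff V h0).1 hP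
  constructor
  · intro h
    rw [h, map_zero] at hx1
    exact absurd hx1 (not_lt.2 zero_le)
  · intro h
    rw [h, map_zero, mul_zero] at h2
    exact zero_ne_one h2

theorem v0_eq (hV : GV A B V) {P : Pt (WAB A B) Ω} (hP : Ker V P) :
    vv P = 1 + algebraMap F Ω A * tt P ^ 4 * vv P ^ 2 + algebraMap F Ω B * tt P ^ 6 * vv P ^ 3 ∧ V.valuation (vv P) = 1 ∧
      H16S.ww P = tt P ^ 3 * vv P := by
  by_cases h0 : P = 0
  · subst h0
    have e : tt (0 : Pt (WAB A B) Ω) = 0 := by rw [tt_eq, xc_zero, zero_div]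
    have e1 : vv (0 : Pt (WAB A B) Ω) = 1 := rfl
    unfold H16S.ww
    rw [e, e1, yc_zero, inv_zero, map_one]
    refine ⟨by ring, rfl, by ring⟩
  · obtain ⟨hx0, hy0⟩ := v0_ne hV hP h0
    obtain ⟨h1, h2, h3⟩ := tt_val hV hP h0
    have htt : tt P = xc P / yc P := tt_eq P
    have hvv : vv P = yc P ^ 2 / xc P ^ 3 := v0_vv h0
    have heq := eqnA h0
    refine ⟨?_, ?_, ?_⟩
    · rw [hvv, htt]
      field_simp
      linear_combination heq
    · rw [hvv, map_div₀, map_pow, map_pow]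
      have e1 : V.valuation (yc P) ^ 2 = V.valuation (xc P) ^ 3 := by
        have hvt : V.valuation (tt P) ≠ 0 := by
          rw [Valuation.ne_zero_iff, htt]
          exact div_ne_zero hx0 hy0
        have e2 : V.valuation (tt P) ^ 6 * V.valuation (yc P) ^ 2 = V.valuation (tt P) ^ 6 * V.valuation (xc P) ^ 3 := by
          calc V.valuation (tt P) ^ 6 * V.valuation (yc P) ^ 2 = (V.valuation (tt P) ^ 3 * V.valuation (yc P)) ^ 2 := by
                rw [mul_pow, ← pow_mul]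
            _ = 1 := by rw [h2, one_pow]
            _ = (V.valuation (tt P) ^ 2 * V.valuation (xc P)) ^ 3 := by rw [h1, one_pow]
            _ = V.valuation (tt P) ^ 6 * V.valuation (xc P) ^ 3 := by rw [mul_pow, ← pow_mul]
        exact mul_left_cancel₀ (pow_ne_zero 6 hvt) e2
      rw [e1]
      exact div_self (pow_ne_zero 3 ((Valuation.ne_zero_iff _).2 hx0))
    · unfold H16S.ww
      rw [hvv, htt]
      field_simp

theorem v0_xy (hV : GV A B V) {P : Pt (WAB A B) Ω} (hP : Ker V P) (h0 : P ≠ 0) :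
    tt P ≠ 0 ∧ vv P ≠ 0 ∧ xc P = (tt P ^ 2 * vv P)⁻¹ ∧ yc P = (tt P ^ 3 * vv P)⁻¹ := by
  obtain ⟨hx0, hy0⟩ := v0_ne hV hP h0
  have htt : tt P = xc P / yc P := tt_eq P
  have hvv : vv P = yc P ^ 2 / xc P ^ 3 := v0_vv h0
  rw [hvv, htt]
  refine ⟨div_ne_zero hx0 hy0, div_ne_zero (pow_ne_zero 2 hy0) (pow_ne_zero 3 hx0), ?_, ?_⟩
  · field_simp
  · field_simp

end SSG.LT
end

-- from Lib.SSG.LT.PC
section

/-! # SSG/LT: families of points in the kernel of reduction whose parameter is in the class (definition) -/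

open NumberField IsDedekindDomain WeierstrassCurve

namespace SSG.LT

open H55P (IQ Pt)
open H35P (WAB Ker tt)
open H55K

/-- `P x` is in the kernel of reduction, its parameter is uniformly small and a uniform limit of integral polynomials in the
functions `τ`. -/
structure PC {C : Type} [NormedField C] {X ι : Type} [Fintype ι] {F : Type} [Field F] {A B : F} {Ω : Type} [Field Ω]
    [Algebra F Ω] (V : ValuationSubring Ω) (i : Ω →+* C) (τ : ι → X → C) (P : X → Pt (WAB A B) Ω) : Prop where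
  ker : ∀ x, Ker V (P x)
  small : ∃ ρ : ℝ, ρ < 1 ∧ ∀ x, ‖i (tt (P x))‖ ≤ ρ
  cl : Cl τ fun x => i (tt (P x))

variable {C : Type} [NormedField C] [IsUltrametricDist C] [CompleteSpace C] {X ι : Type} [Fintype ι] {τ : ι → X → C}

omit [CompleteSpace C] in
theorem pc_add {x y : C} {r : ℝ} (hx : ‖x‖ ≤ r) (hy : ‖y‖ ≤ r) : ‖x + y‖ ≤ r :=
  (IsUltrametricDist.norm_add_le_max _ _).trans (max_le hx hy)

omit [CompleteSpace C] in
theorem pc_sub {x y : C} {r : ℝ} (hx : ‖x‖ ≤ r) (hy : ‖y‖ ≤ r) : ‖x - y‖ ≤ r := by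
  rw [sub_eq_add_neg]
  exact pc_add hx (by rwa [norm_neg])

omit [IsUltrametricDist C] [CompleteSpace C] in
theorem pc_mul {x y : C} {r : ℝ} (hx : ‖x‖ ≤ 1) (hy : ‖y‖ ≤ r) : ‖x * y‖ ≤ r := by
  rw [norm_mul]
  calc ‖x‖ * ‖y‖ ≤ 1 * ‖y‖ := mul_le_mul_of_nonneg_right hx (norm_nonneg y)
    _ ≤ r := by rwa [one_mul]

omit [IsUltrametricDist C] [CompleteSpace C] in
theorem pc_pow {x : C} (hx : ‖x‖ ≤ 1) (n : ℕ) : ‖x ^ n‖ ≤ 1 := by
  rw [norm_pow]
  exact pow_le_one₀ (norm_nonneg _) hx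

/-! Chunk PC1 (S/M). PROOF. v₀ = 1, v_(n+1) = 1 + a t^4 v_n^2 + b t^6 v_n^3: all in the class with norm ≤ 1, ‖v - v_(n+1)‖ ≤ ρ ‖v - v_n‖ (v^2 - v_n^2 = (v - v_n)(v + v_n), ..), so ‖v - v_n‖ ≤ ρ^n: Cl.lim
(copy of Cl.of_sv in FC2.lean). -/
theorem cl_v (hτ : ∀ i x, ‖τ i x‖ ≤ 1) {t v : X → C} {a b : C} (ha : ‖a‖ ≤ 1) (hb : ‖b‖ ≤ 1) (ht : Cl τ t) {ρ : ℝ} (hρ : ρ < 1)
    (hs : ∀ x, ‖t x‖ ≤ ρ) (hv : ∀ x, ‖v x‖ ≤ 1) (h : ∀ x, v x = 1 + a * t x ^ 4 * v x ^ 2 + b * t x ^ 6 * v x ^ 3) :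
    Cl τ v := by
  rcases isEmpty_or_nonempty X with hX | ⟨⟨x₀⟩⟩
  · intro ε _
    exact ⟨0, fun m => by simp, fun x => (hX.false x).elim⟩
  have hρ0 : 0 ≤ ρ := (norm_nonneg _).trans (hs x₀)
  have ht1 : ∀ x, ‖t x‖ ≤ 1 := fun x => (hs x).trans hρ.le
  have key : ∀ n : ℕ, ∃ K : X → C, Cl τ K ∧ (∀ x, ‖K x‖ ≤ 1) ∧ ∀ x, ‖v x - K x‖ ≤ ρ ^ n := by
    intro n
    induction n with
    | zero =>
      refine ⟨fun _ => 1, Cl.const norm_one.le, fun x => norm_one.le, fun x => ?_⟩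
      rw [pow_zero]
      exact pc_sub (hv x) norm_one.le
    | succ n ih =>
      obtain ⟨K, hK, hKb, hd⟩ := ih
      have hcl : Cl τ fun x => 1 + (a * (t x ^ 4 * K x ^ 2) + b * (t x ^ 6 * K x ^ 3)) :=
        (Cl.const norm_one.le).add (((Cl.mul hτ (ht.pow hτ 4) (hK.pow hτ 2)).smul hτ ha).add
          ((Cl.mul hτ (ht.pow hτ 6) (hK.pow hτ 3)).smul hτ hb))
      refine ⟨_, hcl, fun x => hcl.norm_le hτ x, fun x => ?_⟩
      have e : v x - (1 + (a * (t x ^ 4 * K x ^ 2) + b * (t x ^ 6 * K x ^ 3))) =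
          (a * t x ^ 3 * (v x + K x) + b * t x ^ 5 * (v x ^ 2 + v x * K x + K x ^ 2)) * (t x * (v x - K x)) := by
        have h2 := h x
        linear_combination h2
      rw [e, pow_succ' ρ n]
      refine pc_mul (pc_add ?_ ?_) ?_
      · exact pc_mul (pc_mul ha (pc_pow (ht1 x) 3)) (pc_add (hv x) (hKb x))
      · exact pc_mul (pc_mul hb (pc_pow (ht1 x) 5)) (pc_add (pc_add (pc_pow (hv x) 2) (pc_mul (hv x) (hKb x))) (pc_pow (hKb x) 2))
      · rw [norm_mul]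
        exact mul_le_mul (hs x) (hd x) (norm_nonneg _) hρ0
  refine Cl.lim fun ε hε => ?_
  obtain ⟨n, hn⟩ := exists_pow_lt_of_lt_one hε hρ
  obtain ⟨K, hK, -, hd⟩ := key n
  exact ⟨K, hK, fun x => (hd x).trans hn.le⟩

end SSG.LT
end

-- from Lib.SSG.LT.PC2
section

/-! # SSG/LT: the functions gx, gy are in the class -/

open NumberField IsDedekindDomain WeierstrassCurve

namespace SSG.LT

variable {C : Type} [NormedField C] [IsUltrametricDist C] [CompleteSpace C] {X ι : Type} [Fintype ι] {τ : ι → X → C}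

/-! Chunk PC2 (M). PROOF. Ring operations: Cl.add, Cl.sub, Cl.mul, Cl.smul, Cl.pow, Cl.const. ‖2‖, ‖3‖ ≤ 1 (integers: IsUltrametricDist.norm_natCast_le_one). v⁻¹: v = 1 + (v - 1) with ‖v - 1‖ ≤ ρ (h), Cl.inv. (1 - x t^2 v)⁻¹: Cl.inv with
H = - x t^2 v, ‖H‖ ≤ ρ. -/

omit [CompleteSpace C] in
/-- a first common step -/
theorem pc2_aux (hτ : ∀ i x, ‖τ i x‖ ≤ 1) {t v : X → C} {a b x : C} (ha : ‖a‖ ≤ 1) (hb : ‖b‖ ≤ 1) (hx : ‖x‖ ≤ 1)
    (ht : Cl τ t) (hv : Cl τ v) {ρ : ℝ} (hρ : ρ < 1) (hs : ∀ z, ‖t z‖ ≤ ρ)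
    (h : ∀ z, v z = 1 + a * t z ^ 4 * v z ^ 2 + b * t z ^ 6 * v z ^ 3) :
    (Cl τ fun z => (v z)⁻¹) ∧ Cl τ fun z => (1 - x * t z ^ 2 * v z)⁻¹ := by
  have hv1 : ∀ z, ‖v z‖ ≤ 1 := hv.norm_le hτ
  have ht1 : ∀ z, ‖t z‖ ≤ 1 := fun z => (hs z).trans hρ.le
  constructor
  · have h1 : Cl τ fun z => a * (t z ^ 4 * v z ^ 2) + b * (t z ^ 6 * v z ^ 3) :=
      ((Cl.mul hτ (ht.pow hτ 4) (hv.pow hτ 2)).smul hτ ha).add ((Cl.mul hτ (ht.pow hτ 6) (hv.pow hτ 3)).smul hτ hb)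
    have h2 : ∀ z, ‖a * (t z ^ 4 * v z ^ 2) + b * (t z ^ 6 * v z ^ 3)‖ ≤ ρ := by
      intro z
      have e : a * (t z ^ 4 * v z ^ 2) + b * (t z ^ 6 * v z ^ 3) = (a * (t z ^ 3 * v z ^ 2) + b * (t z ^ 5 * v z ^ 3)) * t z := by ring
      rw [e]
      refine pc_mul (pc_add ?_ ?_) (hs z)
      · exact pc_mul ha (pc_mul (pc_pow (ht1 z) 3) (pc_pow (hv1 z) 2))
      · exact pc_mul hb (pc_mul (pc_pow (ht1 z) 5) (pc_pow (hv1 z) 3))
    refine (Cl.inv hτ h1 hρ h2).congr fun z => ?_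
    congr 1
    have h3 := h z
    linear_combination h3
  · have h1 : Cl τ fun z => -(x * (t z ^ 2 * v z)) := ((Cl.mul hτ (ht.pow hτ 2) hv).smul hτ hx).neg hτ
    have h2 : ∀ z, ‖-(x * (t z ^ 2 * v z))‖ ≤ ρ := by
      intro z
      have e : -(x * (t z ^ 2 * v z)) = -(x * (t z * v z)) * t z := by ring
      rw [e]
      refine pc_mul ?_ (hs z)
      rw [norm_neg]
      exact pc_mul hx (pc_mul (ht1 z) (hv1 z))
    refine (Cl.inv hτ h1 hρ h2).congr fun z => ?_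
    congr 1
    ring

omit [CompleteSpace C] in
theorem pc2_nat (n : ℕ) : ‖(n : C)‖ ≤ 1 := IsUltrametricDist.norm_natCast_le_one C n

theorem cl_gx (hτ : ∀ i x, ‖τ i x‖ ≤ 1) {t v : X → C} {a b x y : C} (ha : ‖a‖ ≤ 1) (hb : ‖b‖ ≤ 1) (hx : ‖x‖ ≤ 1)
    (hy : ‖y‖ ≤ 1) (ht : Cl τ t) (hv : Cl τ v) {ρ : ℝ} (hρ : ρ < 1) (hs : ∀ z, ‖t z‖ ≤ ρ)
    (h : ∀ z, v z = 1 + a * t z ^ 4 * v z ^ 2 + b * t z ^ 6 * v z ^ 3) :
    Cl τ fun z => gx a b x y (t z) (v z) := by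
  obtain ⟨h1, h2⟩ := pc2_aux hτ ha hb hx ht hv hρ hs h
  have n2 : ‖(2 : C)‖ ≤ 1 := by
    have := pc2_nat (C := C) 2
    simpa using this
  have c1 : Cl τ fun z => a * (t z ^ 2 * v z ^ 2) := (Cl.mul hτ (ht.pow hτ 2) (hv.pow hτ 2)).smul hτ ha
  have c2 : Cl τ fun z => b * (t z ^ 4 * v z ^ 3) := (Cl.mul hτ (ht.pow hτ 4) (hv.pow hτ 3)).smul hτ hb
  have c3 : Cl τ fun z => (2 * y) * (t z * v z ^ 2) := (Cl.mul hτ ht (hv.pow hτ 2)).smul hτ (pc_mul n2 hy)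
  have c4 : Cl τ fun z => (y ^ 2) * (t z ^ 4 * v z ^ 3) := (Cl.mul hτ (ht.pow hτ 4) (hv.pow hτ 3)).smul hτ (pc_pow hy 2)
  have c5 : Cl τ fun z => (2 * x) * v z := hv.smul hτ (pc_mul n2 hx)
  have c6 : Cl τ fun z => (x ^ 2) * (t z ^ 2 * v z ^ 2) := (Cl.mul hτ (ht.pow hτ 2) (hv.pow hτ 2)).smul hτ (pc_pow hx 2)
  have hN := ((((c1.add c2).sub hτ c3).add c4).add c5).sub hτ c6
  have hG := (Cl.mul hτ (Cl.mul hτ hN h1) (h2.pow hτ 2)).sub hτ (Cl.const (τ := τ) (a := 2 * x) (pc_mul n2 hx))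
  refine hG.congr fun z => ?_
  unfold gx gN
  ring

theorem cl_gy (hτ : ∀ i x, ‖τ i x‖ ≤ 1) {t v : X → C} {a b x y : C} (ha : ‖a‖ ≤ 1) (hb : ‖b‖ ≤ 1) (hx : ‖x‖ ≤ 1)
    (hy : ‖y‖ ≤ 1) (ht : Cl τ t) (hv : Cl τ v) {ρ : ℝ} (hρ : ρ < 1) (hs : ∀ z, ‖t z‖ ≤ ρ)
    (h : ∀ z, v z = 1 + a * t z ^ 4 * v z ^ 2 + b * t z ^ 6 * v z ^ 3) :
    Cl τ fun z => gy a b x y (t z) (v z) := by
  obtain ⟨h1, h2⟩ := pc2_aux hτ ha hb hx ht hv hρ hs h
  have n2 : ‖(2 : C)‖ ≤ 1 := by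
    have := pc2_nat (C := C) 2
    simpa using this
  have n3 : ‖(3 : C)‖ ≤ 1 := by
    have := pc2_nat (C := C) 3
    simpa using this
  have c1 : Cl τ fun z => a * (t z * v z ^ 2) := (Cl.mul hτ ht (hv.pow hτ 2)).smul hτ ha
  have c2 : Cl τ fun z => b * (t z ^ 3 * v z ^ 3) := (Cl.mul hτ (ht.pow hτ 3) (hv.pow hτ 3)).smul hτ hb
  have c3 : Cl τ fun z => (2 * y) * v z ^ 2 := (hv.pow hτ 2).smul hτ (pc_mul n2 hy)
  have c4 : Cl τ fun z => (y ^ 2) * (t z ^ 3 * v z ^ 3) := (Cl.mul hτ (ht.pow hτ 3) (hv.pow hτ 3)).smul hτ (pc_pow hy 2)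
  have c5 : Cl τ fun z => (3 * x ^ 2) * (t z * v z ^ 2) := (Cl.mul hτ ht (hv.pow hτ 2)).smul hτ (pc_mul n3 (pc_pow hx 2))
  have c6 : Cl τ fun z => (2 * x ^ 3) * (t z ^ 3 * v z ^ 3) := (Cl.mul hτ (ht.pow hτ 3) (hv.pow hτ 3)).smul hτ (pc_mul n2 (pc_pow hx 3))
  have hM := ((((c1.add c2).sub hτ c3).add c4).add c5).sub hτ c6
  have c7 : Cl τ fun z => 1 - y * (t z ^ 3 * v z) := (Cl.const (τ := τ) (a := 1) norm_one.le).sub hτ ((Cl.mul hτ (ht.pow hτ 3) hv).smul hτ hy)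
  have hG := ((Cl.mul hτ (Cl.mul hτ (Cl.mul hτ c7 hM) h1) (h2.pow hτ 3)).add (Cl.const (τ := τ) (a := y) hy)).neg hτ
  refine hG.congr fun z => ?_
  unfold gy gM
  ring

end SSG.LT
end
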