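import Mathlib
import Pool.Agent.Lib.H1M.PP2.M020
import Pool.Agent.Lib.H1M.PP2.M023
import Pool.Agent.Lib.H1M.PP2.M040
import Pool.Agent.Lib.H1M.PP2.M041
import Pool.Agent.Lib.H1M.PP2.M046
import Pool.Agent.Lib.H1M.PP2.M047
import Pool.Agent.Lib.H1M.PP2.M048
import Pool.Agent.Lib.H1M.PP2.M049
import Pool.Agent.Lib.H1M.PP2.M050
import Pool.Agent.Lib.H1M.PP2.M054

/-! Merged copies (to shorten the build) of Lib.H55N.R2, Lib.H55N.R7, Lib.H55N.R8, Lib.H55N.Z1, Lib.H55N.Z2, Lib.H55N.U5, Lib.H55N.Core, Lib.H55R.D11, Lib.H55R.D12, Lib.H55R.D13, Lib.H55R.Den, Lib.H55P.N2, Lib.H55P.N3, Lib.H55P.N4. -/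

-- from Lib.H55N.R2
section

open NumberField IsDedekindDomain

namespace H55N

open H55B H55C

variable {K : Type} [Field K] [NumberField K] [Algebra F K] {m : ℕ}

/-! Chunk R2 (M/L). Existence of regularised sums, for h Good with weight bl = prod_k (1+|Tr(A_k x)|)^(-1) and gains gl. Index set I = Fin (m+1) x Fin 2.
The family h cut_{B,R}, R >= 1, is Good with weight bl and gains gl: Good.mul of hh (constant in the parameter) and good_cut (gains gs <= C gl: gs_le_gl, Good.mono; weight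
1: SV.one), sv_bl, sv_gl. For S = univ: |D(h cut_R)(x)| <= C bl(x) prod_{i in I} gl_i(x) = C prod_k (1+|Tr(A_k x)|)^(-3) (two i for each k), summable over
X (sum_l with r = 3; Dirs.int, Dirs.ind). By GSpec and summable_cut: sum_X g h cut_R = sum_X G D(h cut_R), and D(h cut_R)(x) -> D h(x) as R -> infinity for fixed x
(finite sum, cut_tendsto). Dominated convergence: tendsto_tsum_of_dominated_convergence. h is bounded on X: S = empty, bl <= 1.
R3: the same with pcut (good_pcut) instead of cut; g h pcut_R is absolutely summable over X: |h| <= C bl, pcut_R <= C_R prod_k (1+|Tr|)^(-2). -/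

theorem R2_prod (D : Ctx K m) (A : Fin (m + 1) → K) (x : 𝓞 K) :
    D.bl A x * ∏ i : Fin (m + 1) × Fin 2, D.gl A i x =
      ∏ k, (1 + ‖D.Tr (A k) x‖) ^ (-(3 : ℝ)) := by
  have h1 : ∏ i : Fin (m + 1) × Fin 2, D.gl A i x =
      ∏ k : Fin (m + 1), ((1 + ‖D.Tr (A k) x‖)⁻¹ * (1 + ‖D.Tr (A k) x‖)⁻¹) := by
    rw [Fintype.prod_prod_type]
    refine Finset.prod_congr rfl fun k _ => ?_
    rw [Fin.prod_univ_two]
    rfl
  rw [h1]
  unfold Ctx.bl
  rw [← Finset.prod_mul_distrib]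
  refine Finset.prod_congr rfl fun k _ => ?_
  have h2 : 0 < 1 + ‖D.Tr (A k) x‖ := by positivity
  rw [Real.rpow_neg h2.le, show (3 : ℝ) = ((3 : ℕ) : ℝ) by norm_num, Real.rpow_natCast]
  field_simp

theorem R2_summable (D : Ctx K m) (hD : D.Ok) (A : Fin (m + 1) → K)
    (w : Fin (m + 1) × Fin 2 → 𝓞 K) (hdir : D.Dirs A w) :
    Summable fun x : D.X => D.bl A x * ∏ i : Fin (m + 1) × Fin 2, D.gl A i x := by
  have h := sum_l D hD.emb D.X A hdir.ind hdir.int 3 (by norm_num)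
  exact h.congr fun x => (R2_prod D A x).symm

theorem R2_bl_nonneg (D : Ctx K m) (A : Fin (m + 1) → K) (x : 𝓞 K) : 0 ≤ D.bl A x := by
  unfold Ctx.bl
  positivity

theorem R2_gl_nonneg (D : Ctx K m) (A : Fin (m + 1) → K) (i : Fin (m + 1) × Fin 2) (x : 𝓞 K) :
    0 ≤ D.gl A i x := by
  unfold Ctx.gl
  positivity

theorem R2_bl_le (D : Ctx K m) (A : Fin (m + 1) → K) (x : 𝓞 K) : D.bl A x ≤ 1 := by
  unfold Ctx.bl
  apply Finset.prod_le_one
  · intro k _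
    positivity
  · intro k _
    apply inv_le_one_of_one_le₀
    have := norm_nonneg (D.Tr (A k) x)
    linarith

theorem R2_stab (D : Ctx K m) (A : Fin (m + 1) → K)
    (w : Fin (m + 1) × Fin 2 → 𝓞 K) (hdir : D.Dirs A w) : ∀ x ∈ D.X, ∀ i, x - w i ∈ D.X :=
  fun _ hx i => D.X_sub hx (hdir.mem i)

/-- Summability of the differences. -/
theorem R2_sumD (D : Ctx K m) (hD : D.Ok) (A : Fin (m + 1) → K)
    (w : Fin (m + 1) × Fin 2 → 𝓞 K) (hdir : D.Dirs A w) (G : 𝓞 K → ℂ) (hG : D.GSpec w G)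
    (h : 𝓞 K → ℂ) (hh : Good D.X w (D.gl A) (fun (_ : Unit) x => D.bl A x) (fun _ => h)) :
    Summable fun x : D.X => ‖G x * Dif w Finset.univ h x‖ := by
  obtain ⟨C, hC⟩ := hh
  obtain ⟨CG, hCG⟩ := hG.1
  have h1 := (R2_summable D hD A w hdir).mul_left (|CG| * |C|)
  refine Summable.of_nonneg_of_le (fun x => norm_nonneg _) (fun x => ?_) h1
  rw [norm_mul]
  have hp : 0 ≤ ∏ i : Fin (m + 1) × Fin 2, D.gl A i x :=
    Finset.prod_nonneg fun i _ => R2_gl_nonneg D A i x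
  have h2 : ‖Dif w Finset.univ h x‖ ≤ |C| * (D.bl A x * ∏ i : Fin (m + 1) × Fin 2, D.gl A i x) := by
    refine (hC () Finset.univ x x.2).trans ?_
    rw [mul_assoc]
    exact mul_le_mul_of_nonneg_right (le_abs_self C) (mul_nonneg (R2_bl_nonneg D A x) hp)
  calc ‖G x‖ * ‖Dif w Finset.univ h x‖
      ≤ |CG| * (|C| * (D.bl A x * ∏ i : Fin (m + 1) × Fin 2, D.gl A i x)) :=
        mul_le_mul ((hCG x).trans (le_abs_self _)) h2 (norm_nonneg _) (abs_nonneg _)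
    _ = _ := by ring

/-- The limit for a family of cutoff functions. -/
theorem R2_lim (D : Ctx K m) (hD : D.Ok) (A : Fin (m + 1) → K)
    (w : Fin (m + 1) × Fin 2 → 𝓞 K) (hdir : D.Dirs A w) (G : 𝓞 K → ℂ) (hG : D.GSpec w G)
    (h : 𝓞 K → ℂ) (hh : Good D.X w (D.gl A) (fun (_ : Unit) x => D.bl A x) (fun _ => h))
    (ψ : ℝ → 𝓞 K → ℝ)
    (h1 : Good D.X w (D.gl A) (fun (_ : {R : ℝ // 1 ≤ R}) _ => (1 : ℝ))
      (fun q x => (ψ q.1 x : ℂ)))
    (h2 : ∀ x, Filter.Tendsto (fun R : ℝ => (ψ R x : ℂ)) Filter.atTop (nhds 1))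
    (h3 : ∀ R : ℝ, 1 ≤ R → Summable fun x : D.X => ‖h x * (ψ R x : ℂ)‖) :
    Filter.Tendsto (fun R : ℝ => ∑' x : D.X, D.g x * h x * (ψ R x : ℂ)) Filter.atTop
      (nhds (∑' x : D.X, G x * Dif w Finset.univ h x)) := by
  obtain ⟨CG, hCG⟩ := hG.1
  have hh' : Good D.X w (D.gl A) (fun (_ : {R : ℝ // 1 ≤ R}) x => D.bl A x) (fun _ => h) := by
    obtain ⟨C, hC⟩ := hh
    exact ⟨C, fun q S x hx => hC () S x hx⟩
  obtain ⟨C, hC⟩ := Good.mul (R2_stab D A w hdir) (sv_gl D A w) (sv_bl D A w) SV.one hh' h1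
  have hev : (fun R : ℝ => ∑' x : D.X, G x * Dif w Finset.univ (fun y => h y * (ψ R y : ℂ)) x)
      =ᶠ[Filter.atTop] fun R : ℝ => ∑' x : D.X, D.g x * h x * (ψ R x : ℂ) := by
    filter_upwards [Filter.eventually_ge_atTop (1 : ℝ)] with R hR
    have := hG.2 (fun y => h y * (ψ R y : ℂ)) (h3 R hR)
    rw [← this]
    exact tsum_congr fun x => (mul_assoc _ _ _).symm
  refine Filter.Tendsto.congr' hev ?_
  refine tendsto_tsum_of_dominated_convergence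
    (bound := fun x : D.X => (|CG| * |C|) *
      (D.bl A x * ∏ i : Fin (m + 1) × Fin 2, D.gl A i x)) ?_ ?_ ?_
  · exact (R2_summable D hD A w hdir).mul_left _
  · intro x
    refine Filter.Tendsto.const_mul _ ?_
    unfold Dif
    refine tendsto_finsetSum _ fun T _ => ?_
    refine Filter.Tendsto.const_mul _ ?_
    have h4 := (h2 (x.1 - ∑ i ∈ T, w i)).const_mul (h (x.1 - ∑ i ∈ T, w i))
    rw [mul_one] at h4
    exact h4
  · filter_upwards [Filter.eventually_ge_atTop (1 : ℝ)] with R hR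
    intro x
    rw [norm_mul]
    have hp : 0 ≤ ∏ i : Fin (m + 1) × Fin 2, D.gl A i x :=
      Finset.prod_nonneg fun i _ => R2_gl_nonneg D A i x
    have h5 : ‖Dif w Finset.univ (fun y => h y * (ψ R y : ℂ)) x‖ ≤
        |C| * (D.bl A x * ∏ i : Fin (m + 1) × Fin 2, D.gl A i x) := by
      refine (hC ⟨R, hR⟩ Finset.univ x x.2).trans ?_
      change C * (D.bl A x * 1) * ∏ i : Fin (m + 1) × Fin 2, D.gl A i x ≤ _
      rw [mul_one, mul_assoc]
      exact mul_le_mul_of_nonneg_right (le_abs_self C) (mul_nonneg (R2_bl_nonneg D A x) hp)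
    calc ‖G x‖ * ‖Dif w Finset.univ (fun y => h y * (ψ R y : ℂ)) x‖
        ≤ |CG| * (|C| * (D.bl A x * ∏ i : Fin (m + 1) × Fin 2, D.gl A i x)) :=
          mul_le_mul ((hCG x).trans (le_abs_self _)) h5 (norm_nonneg _) (abs_nonneg _)
      _ = _ := by ring

theorem R2_bdd (D : Ctx K m) (A : Fin (m + 1) → K)
    (w : Fin (m + 1) × Fin 2 → 𝓞 K)
    (h : 𝓞 K → ℂ) (hh : Good D.X w (D.gl A) (fun (_ : Unit) x => D.bl A x) (fun _ => h)) :
    ∃ C : ℝ, 0 ≤ C ∧ ∀ x ∈ D.X, ‖h x‖ ≤ C * D.bl A x := by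
  obtain ⟨C, hC⟩ := hh
  refine ⟨|C|, abs_nonneg C, fun x hx => ?_⟩
  have h1 := hC () ∅ x hx
  rw [dif_empty, Finset.prod_empty, mul_one] at h1
  exact h1.trans (mul_le_mul_of_nonneg_right (le_abs_self C) (R2_bl_nonneg D A x))

theorem reg_of_good (D : Ctx K m) (hD : D.Ok) (A : Fin (m + 1) → K)
    (w : Fin (m + 1) × Fin 2 → 𝓞 K) (hdir : D.Dirs A w) (G : 𝓞 K → ℂ) (hG : D.GSpec w G)
    (h : 𝓞 K → ℂ) (hh : Good D.X w (D.gl A) (fun (_ : Unit) x => D.bl A x) (fun _ => h)) :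
    (Summable fun x : D.X => ‖G x * Dif w Finset.univ h x‖) ∧
      D.HasReg h (∑' x : D.X, G x * Dif w Finset.univ h x) := by
  refine ⟨R2_sumD D hD A w hdir G hG h hh, ?_, ?_⟩
  · obtain ⟨C, hC0, hC⟩ := R2_bdd D A w h hh
    refine ⟨C, fun x hx => (hC x hx).trans ?_⟩
    have := mul_le_mul_of_nonneg_left (R2_bl_le D A x) hC0
    linarith
  · intro B hB
    have hstab := R2_stab D A w hdir
    have h0 : (0 : 𝓞 K) ∉ D.X := fun h => D.X_ne hD.ne h rfl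
    refine R2_lim D hD A w hdir G hG h hh (fun R x => D.cut B R x) ?_ ?_ ?_
    · have h1 := good_cut (P := {R : ℝ // 1 ≤ R}) D hD.emb w D.X hstab h0 B hB (fun q => q.1)
        (fun q => q.2)
      obtain ⟨C, hC0, _, hC⟩ := gs_le_gl D A
      refine Good.mono h1 (fun i x _ => inv_nonneg.2 (D.sz_pos x).le) (max 1 C) (by positivity) ?_ ?_
      · intro q x _
        refine ⟨zero_le_one, ?_⟩
        rw [mul_one]
        exact le_max_left _ _
      · intro i x _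
        exact (hC i x).trans (mul_le_mul_of_nonneg_right (le_max_right _ _)
          (R2_gl_nonneg D A i x))
    · exact fun x => cut_tendsto D B x
    · intro R hR
      refine summable_cut D hD h ?_ B hB R hR
      obtain ⟨C, hC0, hC⟩ := R2_bdd D A w h hh
      refine ⟨C, fun x hx => (hC x hx).trans ?_⟩
      have := mul_le_mul_of_nonneg_left (R2_bl_le D A x) hC0
      linarith

theorem R2_pcut_tendsto (D : Ctx K m) (A : Fin (m + 1) → K) (x : 𝓞 K) :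
    Filter.Tendsto (fun R : ℝ => (D.pcut A R x : ℂ)) Filter.atTop (nhds 1) := by
  have h1 : ∀ c : ℝ, Filter.Tendsto (fun R : ℝ => R ^ 2 / (R ^ 2 + c)) Filter.atTop (nhds 1) := by
    intro c
    have h2 : Filter.Tendsto (fun R : ℝ => (1 + c / R ^ 2)⁻¹) Filter.atTop (nhds 1) := by
      have h3 : Filter.Tendsto (fun R : ℝ => c / R ^ 2) Filter.atTop (nhds 0) :=
        Filter.Tendsto.const_div_atTop (Filter.tendsto_pow_atTop (by norm_num)) c
      have h4 := (h3.const_add 1).inv₀ (by norm_num)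
      simpa using h4
    refine h2.congr' ?_
    filter_upwards [Filter.eventually_gt_atTop (0 : ℝ)] with R hR
    have hR2 : R ^ 2 ≠ 0 := by positivity
    rw [show 1 + c / R ^ 2 = (R ^ 2 + c) / R ^ 2 by field_simp, inv_div]
  have h5 : Filter.Tendsto (fun R : ℝ => D.pcut A R x) Filter.atTop (nhds 1) := by
    unfold Ctx.pcut
    have h6 := tendsto_finsetProd (Finset.univ : Finset (Fin (m + 1)))
      (fun k _ => h1 (‖D.Tr (A k) x‖ ^ 2))
    simpa using h6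
  have h7 := (Complex.continuous_ofReal.tendsto 1).comp h5
  rw [Complex.ofReal_one] at h7
  exact h7

theorem R2_pcut_le (D : Ctx K m) (A : Fin (m + 1) → K) (R : ℝ) (hR : 1 ≤ R) (x : 𝓞 K) :
    0 ≤ D.pcut A R x ∧
      D.pcut A R x ≤ (2 * R ^ 2) ^ (m + 1) * ∏ i : Fin (m + 1) × Fin 2, D.gl A i x := by
  have hR0 : 0 < R := by linarith
  constructor
  · unfold Ctx.pcut
    positivity
  · have h1 : ∏ i : Fin (m + 1) × Fin 2, D.gl A i x =
        ∏ k : Fin (m + 1), ((1 + ‖D.Tr (A k) x‖)⁻¹ * (1 + ‖D.Tr (A k) x‖)⁻¹) := by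
      rw [Fintype.prod_prod_type]
      refine Finset.prod_congr rfl fun k _ => ?_
      rw [Fin.prod_univ_two]
      rfl
    rw [h1]
    unfold Ctx.pcut
    have h2 : (2 * R ^ 2) ^ (m + 1) = ∏ _k : Fin (m + 1), (2 * R ^ 2) := by
      rw [Finset.prod_const, Finset.card_univ, Fintype.card_fin]
    rw [h2, ← Finset.prod_mul_distrib]
    apply Finset.prod_le_prod
    · intro k _
      positivity
    · intro k _
      have h3 := norm_nonneg (D.Tr (A k) x)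
      have h4 : 0 < 1 + ‖D.Tr (A k) x‖ := by positivity
      have hR1 : 1 ≤ R ^ 2 := by nlinarith
      rw [← mul_inv, ← div_eq_mul_inv, div_le_div_iff₀ (by positivity) (by positivity)]
      have h5 : (1 + ‖D.Tr (A k) x‖) * (1 + ‖D.Tr (A k) x‖) ≤
          2 * (R ^ 2 + ‖D.Tr (A k) x‖ ^ 2) := by
        nlinarith [sq_nonneg (1 - ‖D.Tr (A k) x‖)]
      calc R ^ 2 * ((1 + ‖D.Tr (A k) x‖) * (1 + ‖D.Tr (A k) x‖))
          ≤ R ^ 2 * (2 * (R ^ 2 + ‖D.Tr (A k) x‖ ^ 2)) :=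
            mul_le_mul_of_nonneg_left h5 (by positivity)
        _ = _ := by ring

theorem pcut_of_good (D : Ctx K m) (hD : D.Ok) (A : Fin (m + 1) → K)
    (w : Fin (m + 1) × Fin 2 → 𝓞 K) (hdir : D.Dirs A w) (G : 𝓞 K → ℂ) (hG : D.GSpec w G)
    (h : 𝓞 K → ℂ) (hh : Good D.X w (D.gl A) (fun (_ : Unit) x => D.bl A x) (fun _ => h)) :
    Filter.Tendsto (fun R : ℝ => ∑' x : D.X, D.g x * h x * (D.pcut A R x : ℂ)) Filter.atTop
      (nhds (∑' x : D.X, G x * Dif w Finset.univ h x)) := by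
  have g1 : Good D.X w (D.gl A) (fun (_ : {R : ℝ // 1 ≤ R}) _ => (1 : ℝ))
      (fun q x => (D.pcut A q.1 x : ℂ)) :=
    good_pcut D A w hdir (fun q : {R : ℝ // 1 ≤ R} => q.1) (fun q => q.2)
  have g3 : ∀ R : ℝ, 1 ≤ R → Summable fun x : D.X => ‖h x * (D.pcut A R x : ℂ)‖ := by
    intro R hR
    obtain ⟨C, hC0, hC⟩ := R2_bdd D A w h hh
    have h1 := (R2_summable D hD A w hdir).mul_left (C * (2 * R ^ 2) ^ (m + 1))
    refine Summable.of_nonneg_of_le (fun x => norm_nonneg _) (fun x => ?_) h1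
    obtain ⟨h2, h3⟩ := R2_pcut_le D A R hR x
    rw [norm_mul, Complex.norm_real, Real.norm_eq_abs, abs_of_nonneg h2]
    calc ‖h x‖ * D.pcut A R x
        ≤ (C * D.bl A x) * ((2 * R ^ 2) ^ (m + 1) * ∏ i : Fin (m + 1) × Fin 2, D.gl A i x) :=
          mul_le_mul (hC x x.2) h3 h2 (mul_nonneg hC0 (R2_bl_nonneg D A x))
      _ = _ := by ring
  exact R2_lim D hD A w hdir G hG h hh (fun R x => D.pcut A R x) g1
    (fun x => R2_pcut_tendsto D A x) g3

end H55N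
end

-- from Lib.H55N.R7
section

open NumberField IsDedekindDomain

namespace H55N

open H55B H55C

variable {K : Type} [Field K] [NumberField K] [Algebra F K] {m : ℕ}

/-! Chunk R7 (M). The cocycle identity for the regularised sums on a prism.
row_sum: sum_i σ_i(x) row(l)(x)_i = 1 for x in X, l = T t with t > 0 (Q_t(x) <> 0) or l = A (A_k) (Tr <> 0, Dirs.low).
prism_cocycle: the m+2 entries of the prism are L(v_0)..L(v_i) (label A (A_k) or a positive T label) and positive T labels. For every j the m+1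
entries left satisfy the assumptions of good_idet: κ(k) := the number j.succAbove k if it is <= i (then the label is L(v_(that number)), A (A_that) or T), otherwise
anything (the label is of type T); injective on the indices of type A because succAbove is injective. So HasReg (Idet ..) by reg_of_good with a G from gspec_exists;
Jv_eq; the alternating sum of the Idet is 0 on X (det_cocycle); HasReg.sum, HasReg.smul, HasReg.congr, HasReg.unique with HasReg.zero. -/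

theorem r7_Q_pos (D : Ctx K m) (hE : Emb D.σ) (t : Fin (m + 1) → ℝ) (ht : ∀ i, 0 < t i)
    (x : 𝓞 K) (hx : x ≠ 0) : 0 < D.Q t x := by
  obtain ⟨i0, hi0⟩ := Finite.exists_min t
  obtain ⟨c, hc, h⟩ := Q_low D hE (t i0) (ht i0)
  have h1 := h t hi0 x hx
  have h2 := D.sz_pos x
  have h3 : 0 < c * D.sz x ^ 2 := by positivity
  linarith

theorem row_sum (D : Ctx K m) (hD : D.Ok) (t : Fin (m + 1) → ℝ) (ht : ∀ i, 0 < t i) (x : 𝓞 K)
    (hx : x ∈ D.X) : ∑ i, D.σ i x * D.row (.T t) x i = 1 := by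
  have hQ := r7_Q_pos D hD.emb t ht x (D.X_ne hD.ne hx)
  have hQ' : ((D.Q t x : ℝ) : ℂ) ≠ 0 := by exact_mod_cast hQ.ne'
  have h1 : ∀ i, D.σ i x * D.row (.T t) x i = ((t i * ‖D.σ i x‖ ^ 2 : ℝ) : ℂ) / (D.Q t x : ℂ) := by
    intro i
    show D.σ i x * ((starRingEnd ℂ) (D.σ i x) * t i / D.Q t x) = _
    rw [mul_div_assoc', ← mul_assoc, Complex.mul_conj, Complex.normSq_eq_norm_sq]
    push_cast
    ring
  rw [Finset.sum_congr rfl fun i _ => h1 i, ← Finset.sum_div, ← Complex.ofReal_sum]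
  exact div_self hQ'

theorem row_sum' (D : Ctx K m) (a : K) (x : 𝓞 K) (hx : D.Tr a x ≠ 0) :
    ∑ i, D.σ i x * D.row (.A a) x i = 1 := by
  have h1 : ∀ i, D.σ i x * D.row (.A a) x i = D.σ i ((x : K) * a) / D.Tr a x := by
    intro i
    show D.σ i x * (D.σ i a / D.Tr a x) = _
    rw [map_mul, mul_div_assoc]
  rw [Finset.sum_congr rfl fun i _ => h1 i, ← Finset.sum_div]
  exact div_self hx

theorem prism_cocycle {V : Type} (D : Ctx K m) (hD : D.Ok) (A : Fin (m + 1) → K)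
    (w : Fin (m + 1) × Fin 2 → 𝓞 K) (hdir : D.Dirs A w) (L L' : V → Lab K m) (v : ℕ → V)
    (hL : ∀ k : Fin (m + 1), L (v k) = .A (A k) ∨ ∃ t, L (v k) = .T t ∧ ∀ i, 0 < t i)
    (hL' : ∀ k ≤ m, ∃ t, L' (v k) = .T t ∧ ∀ i, 0 < t i) (i : ℕ) (hi : i ≤ m) :
    ∑ j : Fin (m + 2), (-1) ^ (j : ℕ) * D.Jv (fun k : Fin (m + 1) =>
      prism L L' v i (j.succAbove k : Fin (m + 2))) = 0 := by
  obtain ⟨G, hG⟩ := gspec_exists D hD A w hdir
  -- the entries of the prism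
  have hent : ∀ j : Fin (m + 2),
      (∃ t, prism L L' v i j = .T t ∧ ∀ i, 0 < t i) ∨
      ((j : ℕ) < m + 1 ∧ prism L L' v i j = .A (A (Fin.ofNat (m + 1) j))) := by
    intro j
    unfold prism
    by_cases hj : (j : ℕ) ≤ i
    · rw [if_pos hj]
      have hjm : (j : ℕ) < m + 1 := by omega
      have h1 := hL ⟨j, hjm⟩
      rcases h1 with h1 | ⟨t, h1, h2⟩
      · right
        refine ⟨hjm, ?_⟩
        have : Fin.ofNat (m + 1) (j : ℕ) = ⟨j, hjm⟩ := by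
          apply Fin.ext
          simp [Nat.mod_eq_of_lt hjm]
        rw [this]
        exact h1
      · left
        exact ⟨t, h1, h2⟩
    · rw [if_neg hj]
      left
      exact hL' ((j : ℕ) - 1) (by have := j.2; omega)
  set M : Fin (m + 2) → Lab K m := fun j => prism L L' v i j with hM
  set Lj : Fin (m + 2) → Fin (m + 1) → Lab K m := fun j k => M (j.succAbove k) with hLj
  have hreg : ∀ j : Fin (m + 2), D.HasReg (D.Idet (Lj j)) (D.Jv (Lj j)) := by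
    intro j
    have hgood := good_idet D hD A w hdir (Lj j)
      (fun k => Fin.ofNat (m + 1) (j.succAbove k : Fin (m + 2))) ?_ ?_ ?_
    · have h1 := (reg_of_good D hD A w hdir G hG _ hgood).2
      rw [Jv_eq D h1]
      exact h1
    · intro k t hk i'
      rcases hent (j.succAbove k) with ⟨t', h1, h2⟩ | ⟨_, h1⟩
      · have h3 : Lj j k = .T t' := h1
        rw [hk] at h3
        obtain rfl : t = t' := by injection h3
        exact h2 i'
      · have h3 : Lj j k = .A _ := h1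
        rw [hk] at h3
        exact absurd h3 (by simp)
    · intro k a hk
      rcases hent (j.succAbove k) with ⟨t', h1, h2⟩ | ⟨_, h1⟩
      · have h3 : Lj j k = .T t' := h1
        rw [hk] at h3
        exact absurd h3 (by simp)
      · have h3 : Lj j k = .A _ := h1
        rw [hk] at h3
        injection h3
    · have hlt : ∀ k, (∃ a, Lj j k = .A a) → ((j.succAbove k : Fin (m + 2)) : ℕ) < m + 1 := by
        rintro k ⟨a, hk⟩
        rcases hent (j.succAbove k) with ⟨t', h1, h2⟩ | ⟨h4, h1⟩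
        · have h3 : Lj j k = .T t' := h1
          rw [hk] at h3
          exact absurd h3 (by simp)
        · exact h4
      intro k hk k' hk' hkk
      have e1 := hlt k hk
      have e2 := hlt k' hk'
      have e3 := congrArg Fin.val hkk
      simp only [Fin.val_ofNat, Nat.mod_eq_of_lt e1, Nat.mod_eq_of_lt e2] at e3
      exact Fin.succAbove_right_injective (Fin.ext e3)
  have h1 := HasReg.sum D hD Finset.univ
    (fun (j : Fin (m + 2)) x => (-1) ^ (j : ℕ) * D.Idet (Lj j) x)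
    (fun (j : Fin (m + 2)) => (-1) ^ (j : ℕ) * D.Jv (Lj j))
    (fun j _ => HasReg.smul D (hreg j) ((-1) ^ (j : ℕ)))
  have h2 : ∀ x ∈ D.X, ∑ j : Fin (m + 2), (-1) ^ (j : ℕ) * D.Idet (Lj j) x = 0 := by
    intro x hx
    have h3 := det_cocycle (n := m + 1) (fun i => D.σ i x) (fun j i => D.row (M j) x i) ?_
    · exact h3
    · intro j
      rcases hent j with ⟨t, h4, h5⟩ | ⟨_, h4⟩
      · have : M j = .T t := h4
        rw [this]
        exact row_sum D hD t h5 x hx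
      · have : M j = .A (A (Fin.ofNat (m + 1) j)) := h4
        rw [this]
        apply row_sum'
        intro h0
        have h6 := hdir.low x hx (Fin.ofNat (m + 1) j)
        rw [h0, norm_zero] at h6
        linarith
  have h3 := HasReg.congr D h1 h2
  exact HasReg.unique D h3 (HasReg.zero D)

end H55N
end

-- from Lib.H55N.R8
section

open NumberField IsDedekindDomain

namespace H55N

open H55B H55C

variable {K : Type} [Field K] [NumberField K] [Algebra F K] {m : ℕ}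

/-! Chunk R8 (M). The T labels. On X: Idet(T t_j)(x) = det(t_j(i)) conj(N x)/prod_j Q_{t_j}(x) (columns: conj(σ_i x); rows: 1/Q). conj N/prod_j Q_{t_j} is Good with
weight bl: it is a product over j of conj(σ_j x)/Q_{t_j}(x), i.e. Good with weights sz^(-1) (as in R4: B9, gs_le_gl). So
HasReg (conj N/prod Q) (Bv w G t) by reg_of_good; Jv_T: HasReg.smul, Jv_eq (HasReg.congr).
Bv_cont: for t in a compact set a <= t <= b all bounds are uniform (parameter P = set of such t in good_row): |G D(conj N/prod Q_{t_j})(x)| <= C prod_k (1+|Tr(A_k x)|)^(-3),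
summable, each term continuous in t (Q_t(y) > 0 for y in X): continuousOn_tsum on the open sets {a < t < b}, every point of the positive set has such a neighbourhood.
Jv_A: Idet(A A_k)(x) = det(σ_i(A_k)) prod_k Tr(A_k x)^(-1), the last product is Good with weight bl (good_tr, Good.prod). -/

theorem r8_Q_pos (D : Ctx K m) (hE : Emb D.σ) (t : Fin (m + 1) → ℝ) (ht : ∀ i, 0 < t i)
    (x : 𝓞 K) (hx : x ≠ 0) : 0 < D.Q t x := by
  obtain ⟨i0, hi0⟩ := Finite.exists_min t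
  obtain ⟨c, hc, h⟩ := Q_low D hE (t i0) (ht i0)
  have h1 := h t hi0 x hx
  have h2 := D.sz_pos x
  have h3 : 0 < c * D.sz x ^ 2 := by positivity
  linarith

/-- The function conj N / prod Q. -/
noncomputable def r8h (D : Ctx K m) (t : Fin (m + 1) → Fin (m + 1) → ℝ) (x : 𝓞 K) : ℂ :=
  (starRingEnd ℂ) (D.N x) / ∏ j, (D.Q (t j) x : ℂ)

theorem r8_factor (D : Ctx K m) (hD : D.Ok) (A : Fin (m + 1) → K)
    (w : Fin (m + 1) × Fin 2 → 𝓞 K) (hdir : D.Dirs A w) {P : Type}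
    (t : P → Fin (m + 1) → ℝ) (a b : ℝ) (ha : 0 < a) (ht : ∀ q i, a ≤ t q i ∧ t q i ≤ b)
    (k : Fin (m + 1)) :
    Good D.X w (D.gl A) (fun (_ : P) x => (1 + ‖D.Tr (A k) x‖)⁻¹)
      (fun q x => (starRingEnd ℂ) (D.σ k x) / (D.Q (t q) x : ℂ)) := by
  have h0 : (0 : 𝓞 K) ∉ D.X := fun h => D.X_ne hD.ne h rfl
  have hX := R2_stab D A w hdir
  have hgs : ∀ (i : Fin (m + 1) × Fin 2), ∀ x ∈ D.X, 0 ≤ D.gs i x :=
    fun _ x _ => (inv_pos.mpr (D.sz_pos x)).le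
  have hgl : ∀ (i : Fin (m + 1) × Fin 2), ∀ x ∈ D.X, 0 ≤ D.gl A i x :=
    fun i x _ => R2_gl_nonneg D A i x
  have h1 := good_row (P := P) D hD.emb w D.X hX h0 t a b ha ht k
  have h2 := Good.smul h1 hgs (fun _ x _ => (inv_pos.2 (D.sz_pos x)).le)
    (fun q => ((t q k : ℝ) : ℂ)⁻¹) a⁻¹ (fun q => by
      rw [norm_inv, Complex.norm_real, Real.norm_eq_abs, abs_of_pos (ha.trans_le (ht q k).1)]
      exact inv_anti₀ ha (ht q k).1)
  obtain ⟨C, hC, hC1, hC2⟩ := gs_le_gl D A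
  have h3 : (fun (q : P) (x : 𝓞 K) => (starRingEnd ℂ) (D.σ k x) / (D.Q (t q) x : ℂ)) =
      fun (q : P) (x : 𝓞 K) => ((t q k : ℝ) : ℂ)⁻¹ * D.row (.T (t q)) x k := by
    funext q x
    show _ = ((t q k : ℝ) : ℂ)⁻¹ * ((starRingEnd ℂ) (D.σ k x) * (t q k) / D.Q (t q) x)
    have : ((t q k : ℝ) : ℂ) ≠ 0 := by exact_mod_cast (ha.trans_le (ht q k).1).ne'
    field_simp
  rw [h3]
  refine Good.mono h2 hgs C hC.le (fun q x _ => ⟨(inv_pos.2 (D.sz_pos x)).le, hC1 x k⟩)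
    (fun i x _ => hC2 i x)

theorem r8_good (D : Ctx K m) (hD : D.Ok) (A : Fin (m + 1) → K)
    (w : Fin (m + 1) × Fin 2 → 𝓞 K) (hdir : D.Dirs A w) {P : Type}
    (t : P → Fin (m + 1) → Fin (m + 1) → ℝ) (a b : ℝ) (ha : 0 < a)
    (ht : ∀ q j i, a ≤ t q j i ∧ t q j i ≤ b) :
    Good D.X w (D.gl A) (fun (_ : P) x => D.bl A x) (fun q => r8h D (t q)) := by
  have hX := R2_stab D A w hdir
  have h1 := Good.prod hX (sv_gl D A w) Finset.univ
    (fun k (_ : P) x => (1 + ‖D.Tr (A k) x‖)⁻¹)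
    (fun k (q : P) x => (starRingEnd ℂ) (D.σ k x) / (D.Q (t q k) x : ℂ))
    (fun k _ => SV.inv hX (sv_tr (P := P) D A w k))
    (fun k _ => r8_factor D hD A w hdir (fun q => t q k) a b ha (fun q i => ht q k i) k)
  have h2 : (fun (q : P) => r8h D (t q)) = fun (q : P) (x : 𝓞 K) =>
      ∏ k, ((starRingEnd ℂ) (D.σ k x) / (D.Q (t q k) x : ℂ)) := by
    funext q x
    unfold r8h Ctx.N
    rw [Finset.prod_div_distrib, map_prod]
  rw [h2]
  exact h1

theorem r8_idet (D : Ctx K m) (t : Fin (m + 1) → Fin (m + 1) → ℝ) (x : 𝓞 K) :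
    D.Idet (fun j => .T (t j)) x = ((Matrix.det (Matrix.of t) : ℝ) : ℂ) * r8h D t x := by
  have h1 : ((Matrix.det (Matrix.of t) : ℝ) : ℂ) =
      Matrix.det (Matrix.of fun j i => ((t j i : ℝ) : ℂ)) := by
    have := RingHom.map_det Complex.ofRealHom (Matrix.of t)
    exact this
  have h2 : D.Idet (fun j => .T (t j)) x = Matrix.det (Matrix.of fun j i : Fin (m + 1) =>
      ((D.Q (t j) x : ℂ))⁻¹ * (Matrix.of fun j i : Fin (m + 1) =>
        (starRingEnd ℂ) (D.σ i x) * (Matrix.of fun j i => ((t j i : ℝ) : ℂ)) j i) j i) := by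
    unfold Ctx.Idet
    congr 1
    ext j i
    show (starRingEnd ℂ) (D.σ i x) * (t j i) / D.Q (t j) x =
      ((D.Q (t j) x : ℂ))⁻¹ * ((starRingEnd ℂ) (D.σ i x) * (t j i : ℂ))
    rw [div_eq_inv_mul]
  rw [h2, Matrix.det_mul_column, Matrix.det_mul_row, ← h1]
  unfold r8h Ctx.N
  rw [Finset.prod_inv_distrib, map_prod]
  ring

theorem r8_reg (D : Ctx K m) (hD : D.Ok) (A : Fin (m + 1) → K)
    (w : Fin (m + 1) × Fin 2 → 𝓞 K) (hdir : D.Dirs A w) (G : 𝓞 K → ℂ) (hG : D.GSpec w G)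
    (t : Fin (m + 1) → Fin (m + 1) → ℝ) (ht : ∀ j i, 0 < t j i) :
    D.HasReg (r8h D t) (D.Bv w G t) := by
  have hex : ∃ a b : ℝ, 0 < a ∧ ∀ j i, a ≤ t j i ∧ t j i ≤ b := by
    obtain ⟨p0, hp0⟩ := Finite.exists_min fun p : Fin (m + 1) × Fin (m + 1) => t p.1 p.2
    obtain ⟨p1, hp1⟩ := Finite.exists_max fun p : Fin (m + 1) × Fin (m + 1) => t p.1 p.2
    exact ⟨t p0.1 p0.2, t p1.1 p1.2, ht _ _, fun j i => ⟨hp0 (j, i), hp1 (j, i)⟩⟩
  obtain ⟨a, b, ha, hab⟩ := hex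
  have h1 := r8_good D hD A w hdir (fun (_ : Unit) => t) a b ha (fun _ => hab)
  exact (reg_of_good D hD A w hdir G hG _ h1).2

theorem reg_T (D : Ctx K m) (hD : D.Ok) (A : Fin (m + 1) → K) (w : Fin (m + 1) × Fin 2 → 𝓞 K)
    (hdir : D.Dirs A w) (G : 𝓞 K → ℂ) (hG : D.GSpec w G) (t : Fin (m + 1) → Fin (m + 1) → ℝ)
    (ht : ∀ j i, 0 < t j i) :
    D.Jv (fun j => .T (t j)) = ((Matrix.det (Matrix.of t) : ℝ) : ℂ) * D.Bv w G t := by
  apply Jv_eq
  refine HasReg.congr D (HasReg.smul D (r8_reg D hD A w hdir G hG t ht)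
    ((Matrix.det (Matrix.of t) : ℝ) : ℂ)) fun x _ => ?_
  exact (r8_idet D t x).symm

theorem r8_cont (D : Ctx K m) (hE : Emb D.σ) (y : 𝓞 K) (hy : y ≠ 0) :
    ContinuousOn (fun t : Fin (m + 1) → Fin (m + 1) → ℝ => r8h D t y)
      {t | ∀ j i, 0 < t j i} := by
  unfold r8h
  apply ContinuousOn.div continuousOn_const
  · apply Continuous.continuousOn
    apply continuous_finsetProd
    intro j _
    apply Complex.continuous_ofReal.comp
    unfold Ctx.Q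
    fun_prop
  · intro t ht
    rw [Finset.prod_ne_zero_iff]
    intro j _
    exact_mod_cast (r8_Q_pos D hE (t j) (ht j) y hy).ne'

theorem r8_stab (D : Ctx K m) (A : Fin (m + 1) → K) (w : Fin (m + 1) × Fin 2 → 𝓞 K)
    (hdir : D.Dirs A w) (T : Finset (Fin (m + 1) × Fin 2)) (x : 𝓞 K) (hx : x ∈ D.X) :
    x - ∑ i ∈ T, w i ∈ D.X :=
  D.X_sub hx (D.I.sum_mem fun i _ => hdir.mem i)

theorem r8_contOn (D : Ctx K m) (hD : D.Ok) (A : Fin (m + 1) → K)
    (w : Fin (m + 1) × Fin 2 → 𝓞 K) (hdir : D.Dirs A w) (G : 𝓞 K → ℂ) (hG : D.GSpec w G)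
    (a b : ℝ) (ha : 0 < a) :
    ContinuousOn (D.Bv w G) {t | ∀ j i, a < t j i ∧ t j i < b} := by
  set P : Type := {t : Fin (m + 1) → Fin (m + 1) → ℝ // ∀ j i, a < t j i ∧ t j i < b} with hP
  obtain ⟨C, hC⟩ := r8_good D hD A w hdir (fun q : P => q.1) a b ha
    (fun q j i => ⟨(q.2 j i).1.le, (q.2 j i).2.le⟩)
  obtain ⟨CG, hCG⟩ := hG.1
  have h1 : (D.Bv w G) = fun t => ∑' x : D.X, G x * Dif w Finset.univ (r8h D t) x := rfl
  rw [h1]
  apply continuousOn_tsum (u := fun x : D.X => (|CG| * |C|) *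
      (D.bl A x * ∏ i : Fin (m + 1) × Fin 2, D.gl A i x))
  · intro x
    apply ContinuousOn.mul continuousOn_const
    unfold Dif
    apply continuousOn_finsetSum
    intro T _
    apply ContinuousOn.mul continuousOn_const
    refine (r8_cont D hD.emb _ (D.X_ne hD.ne (r8_stab D A w hdir T x x.2))).mono ?_
    intro t ht j i
    exact ha.trans (ht j i).1
  · exact (R2_summable D hD A w hdir).mul_left _
  · intro x t ht
    rw [norm_mul]
    have hp : 0 ≤ ∏ i : Fin (m + 1) × Fin 2, D.gl A i x :=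
      Finset.prod_nonneg fun i _ => R2_gl_nonneg D A i x
    have h2 : ‖Dif w Finset.univ (r8h D t) (x : 𝓞 K)‖ ≤
        |C| * (D.bl A x * ∏ i : Fin (m + 1) × Fin 2, D.gl A i x) := by
      refine (hC ⟨t, ht⟩ Finset.univ x x.2).trans ?_
      rw [mul_assoc]
      exact mul_le_mul_of_nonneg_right (le_abs_self C) (mul_nonneg (R2_bl_nonneg D A x) hp)
    calc ‖G x‖ * ‖Dif w Finset.univ (r8h D t) (x : 𝓞 K)‖
        ≤ |CG| * (|C| * (D.bl A x * ∏ i : Fin (m + 1) × Fin 2, D.gl A i x)) :=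
          mul_le_mul ((hCG x).trans (le_abs_self _)) h2 (norm_nonneg _) (abs_nonneg _)
      _ = _ := by ring

theorem Bv_cont (D : Ctx K m) (hD : D.Ok) (A : Fin (m + 1) → K) (w : Fin (m + 1) × Fin 2 → 𝓞 K)
    (hdir : D.Dirs A w) (G : 𝓞 K → ℂ) (hG : D.GSpec w G) :
    ContinuousOn (D.Bv w G) {t | ∀ j i, 0 < t j i} := by
  intro t ht
  have ht' : ∀ j i, 0 < t j i := ht
  obtain ⟨p0, hp0⟩ := Finite.exists_min fun p : Fin (m + 1) × Fin (m + 1) => t p.1 p.2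
  obtain ⟨p1, hp1⟩ := Finite.exists_max fun p : Fin (m + 1) × Fin (m + 1) => t p.1 p.2
  set a : ℝ := t p0.1 p0.2 / 2 with ha
  set b : ℝ := t p1.1 p1.2 + 1 with hb
  have ha0 : 0 < a := by
    have := ht' p0.1 p0.2
    positivity
  have hmem : t ∈ {t : Fin (m + 1) → Fin (m + 1) → ℝ | ∀ j i, a < t j i ∧ t j i < b} := by
    intro j i
    have h1 : t p0.1 p0.2 ≤ t j i := hp0 (j, i)
    have h2 : t j i ≤ t p1.1 p1.2 := hp1 (j, i)
    have h3 := ht' p0.1 p0.2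
    constructor <;> [rw [ha]; rw [hb]] <;> linarith
  have hopen : IsOpen {t : Fin (m + 1) → Fin (m + 1) → ℝ | ∀ j i, a < t j i ∧ t j i < b} := by
    have : {t : Fin (m + 1) → Fin (m + 1) → ℝ | ∀ j i, a < t j i ∧ t j i < b} =
        ⋂ j, ⋂ i, ({t : Fin (m + 1) → Fin (m + 1) → ℝ | a < t j i} ∩
          {t : Fin (m + 1) → Fin (m + 1) → ℝ | t j i < b}) := by
      ext t
      simp
    rw [this]
    refine isOpen_iInter_of_finite fun j => isOpen_iInter_of_finite fun i => ?_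
    exact (isOpen_lt continuous_const (by fun_prop)).inter
      (isOpen_lt (by fun_prop) continuous_const)
  exact ((r8_contOn D hD A w hdir G hG a b ha0).continuousAt
    (hopen.mem_nhds hmem)).continuousWithinAt

set_option maxHeartbeats 400000 in
theorem Jv_A (D : Ctx K m) (hD : D.Ok) (A : Fin (m + 1) → K) (w : Fin (m + 1) × Fin 2 → 𝓞 K)
    (hdir : D.Dirs A w) : ∃ S : ℂ,
      D.Jv (fun k => .A (A k)) = Matrix.det (Matrix.of fun k i => D.σ i (A k)) * S ∧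
      Filter.Tendsto (fun R : ℝ => ∑' x : D.X, D.g x * (∏ k, (D.Tr (A k) x)⁻¹) *
        (D.pcut A R x : ℂ)) Filter.atTop (nhds S) := by
  have hX := R2_stab D A w hdir
  obtain ⟨G, hG⟩ := gspec_exists D hD A w hdir
  have h1 : Good D.X w (D.gl A) (fun (_ : Unit) x => D.bl A x)
      (fun _ (x : 𝓞 K) => ∏ k, (D.Tr (A k) x)⁻¹) :=
    Good.prod hX (sv_gl D A w) Finset.univ
      (fun k (_ : Unit) x => (1 + ‖D.Tr (A k) x‖)⁻¹)
      (fun k (_ : Unit) x => (D.Tr (A k) x)⁻¹)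
      (fun k _ => SV.inv hX (sv_tr (P := Unit) D A w k))
      (fun k _ => good_tr (P := Unit) D A w hdir k)
  have h4 := pcut_of_good D hD A w hdir G hG (fun x : 𝓞 K => ∏ k, (D.Tr (A k) x)⁻¹) h1
  have h2 := (reg_of_good D hD A w hdir G hG (fun x : 𝓞 K => ∏ k, (D.Tr (A k) x)⁻¹) h1).2
  refine ⟨∑' x : D.X, G x * Dif w Finset.univ (fun x : 𝓞 K => ∏ k, (D.Tr (A k) x)⁻¹) x,
    ?_, h4⟩
  have h5 := HasReg.smul D h2 (Matrix.det (Matrix.of fun k i : Fin (m + 1) => D.σ i (A k)))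
  apply Jv_eq
  refine HasReg.congr D h5 fun x _ => ?_
  symm
  have h3 : D.Idet (fun k => .A (A k)) x = Matrix.det (Matrix.of fun k i : Fin (m + 1) =>
      (D.Tr (A k) x)⁻¹ * (Matrix.of fun k i : Fin (m + 1) => D.σ i (A k)) k i) := by
    unfold Ctx.Idet
    congr 1
    ext k i
    show D.σ i (A k) / D.Tr (A k) x = (D.Tr (A k) x)⁻¹ * D.σ i (A k)
    rw [div_eq_inv_mul]
  rw [h3, Matrix.det_mul_column]
  ring

end H55N
end

-- from Lib.H55N.Z1
section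

open NumberField IsDedekindDomain MeasureTheory

namespace H55N

open H55B H55C

variable {K : Type} [Field K] [NumberField K] [Algebra F K] {m : ℕ}

/-! Chunk Z1 (M). The value. lm = D.lm u, J = D.Jv, τ z = D.act (uu u z); J (τ z l) = J l (uu_act, Jv_act). For N >= 1 put Lin_N a = T (tt lm (a/N)) and
Fl a = T (tt lm a); Lin_N (a + N z) = τ z (Lin_N a) since tt lm (x + z) i = tt lm x i * |σ_i u^z|^2 (uu_act), and the same for a -> Fl (a/N) (integer division,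
Int.add_mul_ediv_left). (1) CN_eq with N = m+1, L = A o L, L' = Lin_(m+1): hcoc by prism_cocycle with A_k = L(kv a π k) and w' from hdirs. So CN (m+1) J (A o L) = CN (m+1) J Lin_(m+1).
(2) For every N >= 1: CN N J Lin_N = CN N J (Fl o (./N)) by CN_eq, hcoc by prism_cocycle with the given A, w (second alternative in hL), and = CN 1 J Fl by CN_floor (Jv_degenerate).
(3) So CN N J Lin_N does not depend on N; by reg_T it is the sum in riemann (B = D.Bv w G, Bv_cont, lm_sum) whose limit is m! Delta int; the limit of a constant sequence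
(tendsto_nhds_unique, for N >= 1 eventually). -/

/-- The labels on a line. -/
noncomputable def Z1_Lin (D : Ctx K m) (u : Fin m → (𝓞 K)ˣ) (N : ℕ) (a : Fin m → ℤ) : Lab K m :=
  .T (tt (D.lm u) fun k => (a k : ℝ) / N)

/-- The integral labels. -/
noncomputable def Z1_Fl (D : Ctx K m) (u : Fin m → (𝓞 K)ˣ) (a : Fin m → ℤ) : Lab K m :=
  .T (tt (D.lm u) fun k => (a k : ℝ))

theorem Z1_tt (D : Ctx K m) (u : Fin m → (𝓞 K)ˣ) (hu : D.UOk u) (x : Fin m → ℝ) (z : Fin m → ℤ) :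
    (Lab.T (tt (D.lm u) fun k => x k + (z k : ℝ)) : Lab K m) =
      D.act (uu u z) (.T (tt (D.lm u) x)) := by
  have h := (uu_act D u hu z).2.2
  show Lab.T _ = Lab.T fun i => ‖D.σ i ((uu u z : 𝓞 K) : K)‖ ^ 2 * tt (D.lm u) x i
  congr 1
  funext i
  rw [h i]
  unfold tt
  rw [← Real.exp_add, ← Finset.sum_add_distrib]
  congr 1
  refine Finset.sum_congr rfl fun j _ => ?_
  ring

theorem Z1_Lin_add (D : Ctx K m) (u : Fin m → (𝓞 K)ˣ) (hu : D.UOk u) (N : ℕ) (hN : 0 < N)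
    (a z : Fin m → ℤ) : Z1_Lin D u N (a + (N : ℤ) • z) = D.act (uu u z) (Z1_Lin D u N a) := by
  unfold Z1_Lin
  rw [← Z1_tt D u hu]
  congr 2
  funext k
  have hN' : (N : ℝ) ≠ 0 := by exact_mod_cast hN.ne'
  simp only [Pi.add_apply, Pi.smul_apply, smul_eq_mul]
  push_cast
  field_simp

theorem Z1_Fl_add (D : Ctx K m) (u : Fin m → (𝓞 K)ˣ) (hu : D.UOk u) (N : ℕ) (hN : 0 < N)
    (a z : Fin m → ℤ) : (Z1_Fl D u fun k => (a + (N : ℤ) • z) k / (N : ℤ)) =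
      D.act (uu u z) (Z1_Fl D u fun k => a k / (N : ℤ)) := by
  unfold Z1_Fl
  rw [← Z1_tt D u hu]
  congr 2
  funext k
  have hN' : (N : ℤ) ≠ 0 := by exact_mod_cast hN.ne'
  simp only [Pi.add_apply, Pi.smul_apply, smul_eq_mul]
  rw [Int.add_mul_ediv_left _ _ hN']
  push_cast
  ring

theorem Z1_tt_pos (lm : Fin (m + 1) → Fin m → ℝ) (z : Fin m → ℝ) (i : Fin (m + 1)) :
    0 < tt lm z i := Real.exp_pos _

theorem CN_value (D : Ctx K m) (hD : D.Ok) (u : Fin m → (𝓞 K)ˣ) (hu : D.UOk u)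
    (A : Fin (m + 1) → K) (w : Fin (m + 1) × Fin 2 → 𝓞 K) (hdir : D.Dirs A w) (G : 𝓞 K → ℂ)
    (hG : D.GSpec w G) (L : (Fin m → ℤ) → K)
    (hequi : ∀ a z : Fin m → ℤ, L (a + ((m + 1 : ℕ) : ℤ) • z) = ((uu u z : 𝓞 K) : K) * L a)
    (hdirs : ∀ (a : Fin m → Fin (m + 1)) (π : Equiv.Perm (Fin m)),
      ∃ w', D.Dirs (fun k : Fin (m + 1) => L (kv (fun k => ((a k : ℕ) : ℤ)) π k)) w') :
    CN (m + 1) D.Jv (fun a => .A (L a)) = (m.factorial : ℂ) * ((Delta (D.lm u) : ℝ) : ℂ) *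
      ∫ z in Set.Icc (0 : Fin m → ℝ) 1, D.Bv w G (fun _ => tt (D.lm u) z) := by
  have hJ : ∀ (z : Fin m → ℤ) (l : Fin (m + 1) → Lab K m),
      D.Jv (fun j => D.act (uu u z) (l j)) = D.Jv l := fun z l =>
    Jv_act D (uu u z) (uu_act D u hu z).1 (uu_act D u hu z).2.1 l
  have h1 : CN (m + 1) D.Jv (fun a => .A (L a)) = CN (m + 1) D.Jv (Z1_Lin D u (m + 1)) := by
    refine CN_eq (m + 1) (Nat.succ_pos m) D.Jv (fun a => .A (L a)) (Z1_Lin D u (m + 1))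
      (fun z => D.act (uu u z)) hJ ?_ (fun a z => Z1_Lin_add D u hu (m + 1) (Nat.succ_pos m) a z) ?_
    · intro a z
      show Lab.A (L (a + ((m + 1 : ℕ) : ℤ) • z)) = Lab.A (((uu u z : 𝓞 K) : K) * L a)
      rw [hequi]
    · intro a π i hi
      obtain ⟨w', hw'⟩ := hdirs a π
      exact prism_cocycle D hD _ w' hw' (fun a => .A (L a)) (Z1_Lin D u (m + 1)) _
        (fun k => Or.inl rfl) (fun k _ => ⟨_, rfl, Z1_tt_pos _ _⟩) i hi
  have h2 : ∀ N : ℕ, 0 < N → CN N D.Jv (Z1_Lin D u N) = CN 1 D.Jv (Z1_Fl D u) := by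
    intro N hN
    rw [← CN_floor N hN D.Jv (Jv_degenerate D) (Z1_Fl D u)]
    refine CN_eq N hN D.Jv (Z1_Lin D u N) (fun a => Z1_Fl D u fun k => a k / (N : ℤ))
      (fun z => D.act (uu u z)) hJ (fun a z => Z1_Lin_add D u hu N hN a z)
      (fun a z => Z1_Fl_add D u hu N hN a z) ?_
    intro a π i hi
    exact prism_cocycle D hD A w hdir (Z1_Lin D u N) (fun a => Z1_Fl D u fun k => a k / (N : ℤ)) _
      (fun k => Or.inr ⟨_, rfl, Z1_tt_pos _ _⟩) (fun k _ => ⟨_, rfl, Z1_tt_pos _ _⟩) i hi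
  rw [h1, h2 _ (Nat.succ_pos m)]
  have h3 := riemann m (D.lm u) (lm_sum D u hu) (D.Bv w G) (Bv_cont D hD A w hdir G hG)
  refine tendsto_nhds_unique ?_ h3
  refine (tendsto_const_nhds (x := CN 1 D.Jv (Z1_Fl D u))).congr' ?_
  filter_upwards [Filter.eventually_gt_atTop 0] with N hN
  rw [← h2 N hN]
  unfold CN
  refine Finset.sum_congr rfl fun a _ => Finset.sum_congr rfl fun π _ => ?_
  congr 1
  exact reg_T D hD A w hdir G hG _ fun j i => Z1_tt_pos _ _ _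

end H55N
end

-- from Lib.H55N.Z2
section

open NumberField IsDedekindDomain MeasureTheory

namespace H55N

open H55B H55C

variable {K : Type} [Field K] [NumberField K] [Algebra F K] {m : ℕ}

/-! Chunk Z2 (S/M). Integrality of the alternating sum. Each term is ± Jv of the labels A_k = L(kv a π k): Jv_A gives S with Jv = det(σ_i A_k) S and the limit needed in rat_val; hone from
labels_low, m₀ from m0_exists; so S/R0^n is Int2; the entries σ_i(A_k) are Int2 by label_int2 (LabOk.int), the determinant by Int2.det. Sum: Int2.sum, Int2.mul, Int2.intCast. -/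

theorem CN_int2 (hK : UnrOut K) (D : Ctx K m) (hD : D.Ok) (b f : Ideal (𝓞 K))
    (hb2 : IsCoprime b (Ideal.span {2})) (hf2 : IsCoprime f (Ideal.span {2}))
    (hI : D.I = Ideal.span {3} * f * b) (hp : ∀ i, D.p i ≠ 2) (u : Fin m → (𝓞 K)ˣ)
    (L : (Fin m → ℤ) → K) (hL : LabOk b D.c₀ u L)
    (hdirs : ∀ (a : Fin m → Fin (m + 1)) (π : Equiv.Perm (Fin m)),
      ∃ w', D.Dirs (fun k : Fin (m + 1) => L (kv (fun k => ((a k : ℕ) : ℤ)) π k)) w') :
    Int2 (CN (m + 1) D.Jv (fun a => .A (L a)) / R0 ^ (m + 1)) := by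
  unfold CN
  rw [Finset.sum_div]
  refine Int2.sum _ _ fun a _ => ?_
  rw [Finset.sum_div]
  refine Int2.sum _ _ fun π _ => ?_
  rw [mul_div_assoc]
  refine (Int2.intCast _).mul ?_
  obtain ⟨w', hw'⟩ := hdirs a π
  obtain ⟨S, hS, hlim⟩ := Jv_A D hD _ w' hw'
  rw [hS, mul_div_assoc]
  refine (Int2.det _ fun k i => ?_).mul ?_
  · exact label_int2 hK b hb2 _ (hL.int _) (D.σ i)
  · obtain ⟨m₀, ho, h3, hm⟩ := m0_exists D hD b f hf2 hI hp u L hL
      (fun k => ((a k : ℕ) : ℤ)) π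
    exact rat_val D hD _ w' hw'
      (fun x hx k => (labels_low D hD.emb b f D.c₀ ⟨hI, rfl⟩ u L hL _ x hx).1) m₀ ho h3 hm S hlim

end H55N
end

-- from Lib.H55N.U5
section

open NumberField IsDedekindDomain MeasureTheory

namespace H55N

open H55B H55C

variable {K : Type} [Field K] [NumberField K] [Algebra F K] {m : ℕ}

/-! Chunk U5 (M). The smoothed partial zeta function. n = m+1, lm = D.lm u, Delta <> 0, lm_sum.
V(s) = int_cube sum_X G Dif(fs (tt lm z) s), analytic on Re s > 3/2 - 2n/(2n) = 1/2 (cont_analytic with ι = Fin n x Fin 2, I' = D.I). For Re s > 3/2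
GSpec and fs_summable give sum_X g fs = sum_X G Dif fs, so V(s) = cst(s) sum_T g nf (unfold; g(u^z x) = g(x): a unit times x is in c_i iff x is). By cst_eq
cst(s)^(-1) = |Delta| Gamma(ns)/Gamma(s)^n, so Z(s) := V(s) |Delta| Gamma(ns) / Gamma(s)^n, analytic on Re s > 1/2 (Gamma is analytic there, nonzero).
At s = 1: Gamma(n) = m!, Gamma(1) = 1, and fs t 1 x = conj N(x)/Q_t(x)^n for every x (cpow with exponent -(n : natural)), so
sum_X G Dif (fs t 1) = Bv w G (fun _ => t). -/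

/-- The gamma factors. -/
theorem U5_gam (D : Ctx K m) (u : Fin m → (𝓞 K)ˣ) (hu : D.UOk u) (V : ℂ → ℂ) (r : ℝ) (hr : 0 ≤ r)
    (hV : AnalyticOnNhd ℂ V {s | r < s.re}) : AnalyticOnNhd ℂ (fun s => V s *
      ((|Delta (D.lm u)| : ℝ) : ℂ) * Complex.Gamma ((m + 1 : ℕ) * s) / Complex.Gamma s ^ (m + 1))
      {s | r < s.re} ∧
    ∀ s : ℂ, 0 < s.re → ∀ S : ℂ, S * cst (D.lm u) s = V s → V s *
      ((|Delta (D.lm u)| : ℝ) : ℂ) * Complex.Gamma ((m + 1 : ℕ) * s) / Complex.Gamma s ^ (m + 1) =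
        S := by
  have hopen : IsOpen {s : ℂ | r < s.re} := isOpen_lt continuous_const Complex.continuous_re
  have hpos : ∀ s : ℂ, r < s.re → 0 < s.re := fun s hs => lt_of_le_of_lt hr hs
  have hne : ∀ s : ℂ, 0 < s.re → ∀ k : ℕ, s ≠ -(k : ℂ) := by
    intro s hs k hk
    rw [hk] at hs
    simp only [Complex.neg_re, Complex.natCast_re] at hs
    have : (0 : ℝ) ≤ k := Nat.cast_nonneg k
    linarith
  have hG : AnalyticOnNhd ℂ Complex.Gamma {s | r < s.re} := by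
    apply DifferentiableOn.analyticOnNhd _ hopen
    intro s hs
    exact (Complex.differentiableAt_Gamma s (hne s (hpos s hs))).differentiableWithinAt
  have hG2 : AnalyticOnNhd ℂ (fun s => Complex.Gamma ((m + 1 : ℕ) * s)) {s | r < s.re} := by
    apply DifferentiableOn.analyticOnNhd _ hopen
    intro s hs
    have h1 : 0 < (((m + 1 : ℕ) : ℂ) * s).re := by
      rw [← Complex.ofReal_natCast, Complex.re_ofReal_mul]
      have := hpos s hs
      positivity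
    have h2 := Complex.differentiableAt_Gamma _ (hne _ h1)
    exact (h2.comp s ((differentiableAt_const _).mul differentiableAt_id)).differentiableWithinAt
  constructor
  · exact ((hV.mul analyticOnNhd_const).mul hG2).div (hG.pow _) fun s hs =>
      pow_ne_zero _ (Complex.Gamma_ne_zero_of_re_pos (hpos s hs))
  · intro s hs S hS
    have h1 := cst_eq (D.lm u) (lm_sum D u hu) hu.reg s hs
    have h2 : Complex.Gamma s ^ (m + 1) ≠ 0 :=
      pow_ne_zero _ (Complex.Gamma_ne_zero_of_re_pos hs)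
    rw [div_eq_iff h2, ← h1, ← hS]
    ring

theorem U5_fs_one (D : Ctx K m) (t : Fin (m + 1) → ℝ) (x : 𝓞 K) :
    D.fs t 1 x = (starRingEnd ℂ) (D.N x) / ∏ _j : Fin (m + 1), (D.Q t x : ℂ) := by
  unfold Ctx.fs
  rw [mul_one, Complex.cpow_neg, Complex.cpow_natCast, Finset.prod_const, Finset.card_univ,
    Fintype.card_fin, div_eq_mul_inv]

theorem U5_om (D : Ctx K m) (hE : Emb D.σ) (x : 𝓞 K) (i : Fin (m + 1)) :
    D.σ i ((algebraMap O (𝓞 K) om * x : 𝓞 K) : K) = e om * D.σ i x := by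
  have h1 : ((algebraMap O (𝓞 K) om * x : 𝓞 K) : K) =
      (algebraMap (𝓞 K) K (algebraMap O (𝓞 K) om)) * (x : K) := map_mul _ _ _
  rw [h1, map_mul, ← IsScalarTower.algebraMap_apply O (𝓞 K) K,
    IsScalarTower.algebraMap_apply O F K, hE.ovr]
  rfl

theorem U5_fs_om (D : Ctx K m) (hE : Emb D.σ) (t : Fin (m + 1) → ℝ) (s : ℂ) (x : 𝓞 K) :
    D.fs t s (algebraMap O (𝓞 K) om * x) =
      (starRingEnd ℂ) (e om) ^ (m + 1) * D.fs t s x := by
  have hN : D.N (algebraMap O (𝓞 K) om * x) = e om ^ (m + 1) * D.N x := by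
    unfold Ctx.N
    rw [Finset.prod_congr rfl fun i _ => U5_om D hE x i, Finset.prod_mul_distrib,
      Finset.prod_const, Finset.card_univ, Fintype.card_fin]
  have hQ : D.Q t (algebraMap O (𝓞 K) om * x) = D.Q t x := by
    unfold Ctx.Q
    refine Finset.sum_congr rfl fun i _ => ?_
    rw [U5_om D hE x i, norm_mul, norm_e_om, one_mul]
  unfold Ctx.fs
  rw [hN, hQ, map_mul, map_pow, mul_assoc]

theorem zfun (D : Ctx K m) (hD : D.Ok) (u : Fin m → (𝓞 K)ˣ) (hu : D.UOk u)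
    (A : Fin (m + 1) → K) (w : Fin (m + 1) × Fin 2 → 𝓞 K) (hdir : D.Dirs A w) (G : 𝓞 K → ℂ)
    (hG : D.GSpec w G) : ∃ Z : ℂ → ℂ, AnalyticOnNhd ℂ Z {s | 1 / 2 < s.re} ∧
      (∀ T : Set (𝓞 K), T ⊆ D.X →
        (∀ x ∈ D.X, ∃! q : (Fin m → ℤ) × T, x = (uu u q.1 : 𝓞 K) * q.2) →
        ∀ s : ℂ, 3 / 2 < s.re → HasSum (fun x : T => D.g x * nf s (x : 𝓞 K)) (Z s)) ∧
      Z 1 = (m.factorial : ℂ) * ((|Delta (D.lm u)| : ℝ) : ℂ) *
        ∫ z in Set.Icc (0 : Fin m → ℝ) 1, D.Bv w G (fun _ => tt (D.lm u) z) := by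
  set V : ℂ → ℂ := fun s => ∫ z in Set.Icc (0 : Fin m → ℝ) 1,
      ∑' x : D.X, G x * Dif w Finset.univ (D.fs (tt (D.lm u) z) s) x with hVdef
  have hcard : Fintype.card (Fin (m + 1) × Fin 2) = 2 * (m + 1) := by
    rw [Fintype.card_prod, Fintype.card_fin, Fintype.card_fin, mul_comm]
  have hreg : 3 / 2 - (Fintype.card (Fin (m + 1) × Fin 2) : ℝ) / (2 * (m + 1)) = 1 / 2 := by
    rw [hcard]
    push_cast
    field_simp
    norm_num
  have hV : AnalyticOnNhd ℂ V {s | 1 / 2 < s.re} := by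
    have h := cont_analytic D hD.emb D.I le_rfl hD.ne w hdir.mem hcard.le G hG.1 (D.lm u)
    rw [hreg] at h
    exact h
  obtain ⟨hA1, hA2⟩ := U5_gam D u hu V (1 / 2) (by norm_num) hV
  refine ⟨_, hA1, ?_, ?_⟩
  · intro T hT hbij s hs
    obtain ⟨h1, h2⟩ := unfold D hD.emb hD.ne u hu D.g (g_bdd D)
      (fun x _ z => R5_g D (uu u z) x) T hT hbij s hs
    have h3 : (∑' x : T, D.g x * nf s (x : 𝓞 K)) * cst (D.lm u) s = V s := by
      rw [h2]
      refine integral_congr_ae (Filter.Eventually.of_forall fun z => ?_)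
      exact hG.2 _ (fs_summable D hD.emb hD.ne _ (fun i => Real.exp_pos _) s hs)
    have h4 := hA2 s (by linarith) _ h3
    rw [h4]
    exact h1.of_norm.hasSum
  · have h1 : V 1 = ∫ z in Set.Icc (0 : Fin m → ℝ) 1, D.Bv w G (fun _ => tt (D.lm u) z) := by
      refine integral_congr_ae (Filter.Eventually.of_forall fun z => ?_)
      show ∑' x : D.X, _ = ∑' x : D.X, _
      refine tsum_congr fun x => ?_
      congr 2
      funext y
      exact U5_fs_one D _ y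
    show V 1 * _ * _ / _ = _
    rw [h1, mul_one, Complex.Gamma_one, one_pow, div_one]
    have h2 : Complex.Gamma ((m + 1 : ℕ) : ℂ) = (m.factorial : ℂ) := by
      have := Complex.Gamma_nat_eq_factorial m
      rw [← this]
      push_cast
      rfl
    rw [h2]
    ring

/-- The unsmoothed version: I' is an ideal containing I and (1 - om) c₀, not containing c₀, 3 does not divide m+1.
PROOF. η := e om, E(t,s) := sum_{x in X} fs t s x for Re s > 3/2. Let w0 = (1 - om) c₀ (ι = Unit, Dif w univ h x = h x - h (x - w0)). x -> x - w0 is a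
bijection of X = c₀ + I onto om c₀ + I = om X (om a unit), so sum_{x in X} fs(x - w0) = sum_{x in X} fs(om x) = conj(η)^n sum_X fs: N(om x) = η^n N(x), Q_t(om x) = Q_t(x).
Hence sum_X Dif(fs) = (1 - conj(η)^n) sum_X fs, and conj(η)^n <> 1 because η has order 3 and 3 does not divide n. With G = 1: V(s) = int_cube sum_X Dif fs is
analytic on Re s > 3/2 - 1/(2n) (cont_analytic, card ι = 1) and equals (1 - conj(η)^n) cst(s) sum_T nf for Re s > 3/2 (unfold with g = 1). Divide. -/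
theorem zfun_one (D : Ctx K m) (hE : Emb D.σ) (h0 : D.c₀ ∉ D.I) (h3 : ¬ 3 ∣ m + 1)
    (u : Fin m → (𝓞 K)ˣ) (hu : D.UOk u) (I' : Ideal (𝓞 K)) (hI : D.I ≤ I') (h1 : D.c₀ ∉ I')
    (h2 : algebraMap O (𝓞 K) lam * D.c₀ ∈ I') :
    ∃ Z : ℂ → ℂ, AnalyticOnNhd ℂ Z {s | 3 / 2 - 1 / (2 * (m + 1)) < s.re} ∧
      ∀ T : Set (𝓞 K), T ⊆ D.X →
        (∀ x ∈ D.X, ∃! q : (Fin m → ℤ) × T, x = (uu u q.1 : 𝓞 K) * q.2) →
        ∀ s : ℂ, 3 / 2 < s.re → HasSum (fun x : T => nf s (x : 𝓞 K)) (Z s) := by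
  set ω : 𝓞 K := algebraMap O (𝓞 K) om with hω
  have hω1 : ω ^ 2 + ω + 1 = 0 := by
    have h := congrArg (algebraMap O (𝓞 K)) om_rel
    rw [map_add, map_add, map_pow, map_one, map_zero] at h
    exact h
  have hω3 : ω ^ 3 = 1 := by linear_combination (ω - 1) * hω1
  set w : Unit → 𝓞 K := fun _ => (1 - ω) * D.c₀ with hw
  have hlam : algebraMap O (𝓞 K) lam = ω - 1 := by
    unfold lam
    rw [map_sub, map_one]
  have hwI : ∀ i, w i ∈ I' := by
    intro i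
    have : w i = -(algebraMap O (𝓞 K) lam * D.c₀) := by
      rw [hlam, hw]
      ring
    rw [this]
    exact I'.neg_mem_iff.2 h2
  set κ : ℂ := 1 - (starRingEnd ℂ) (e om) ^ (m + 1) with hκ
  have hκ0 : κ ≠ 0 := by
    intro h
    have h4 : (starRingEnd ℂ) (e om) ^ (m + 1) = 1 := (sub_eq_zero.1 h).symm
    have h5 : e om ^ (m + 1) = 1 := by
      rw [← map_pow] at h4
      have h6 := congrArg (starRingEnd ℂ) h4
      rwa [Complex.conj_conj, map_one] at h6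
    have h6 : e om ^ 3 = 1 := A0_om_cube
    have h7 : e om ≠ 1 := by
      intro h8
      have h9 := e_om_rel
      rw [h8] at h9
      norm_num at h9
    have h8 := orderOf_eq_prime h6 h7
    have h9 := orderOf_dvd_of_pow_eq_one h5
    rw [h8] at h9
    exact h3 h9
  set V : ℂ → ℂ := fun s => ∫ z in Set.Icc (0 : Fin m → ℝ) 1,
      ∑' x : D.X, (1 : ℂ) * Dif w Finset.univ (D.fs (tt (D.lm u) z) s) x with hVdef
  have hV : AnalyticOnNhd ℂ V {s | 3 / 2 - 1 / (2 * (m + 1)) < s.re} := by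
    have h := cont_analytic D hE I' hI h1 w hwI (by simp; omega) (fun _ => 1)
      ⟨1, fun _ => by simp⟩ (D.lm u)
    rw [Fintype.card_unit, Nat.cast_one] at h
    exact h
  have hr : (0 : ℝ) ≤ 3 / 2 - 1 / (2 * (m + 1)) := by
    have h4 : (1 : ℝ) / (2 * (m + 1)) ≤ 1 / 2 := by
      rw [div_le_div_iff₀ (by positivity) (by norm_num)]
      have : (0 : ℝ) ≤ m := Nat.cast_nonneg m
      linarith
    linarith
  obtain ⟨hA1, hA2⟩ := U5_gam D u hu (fun s => V s * κ⁻¹) _ hr (hV.mul analyticOnNhd_const)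
  refine ⟨_, hA1, ?_⟩
  intro T hT hbij s hs
  obtain ⟨h4, h5⟩ := unfold D hE h0 u hu (fun _ => 1) ⟨1, fun _ => by simp⟩
    (fun x _ z => rfl) T hT hbij s hs
  have hdif : ∀ (h : 𝓞 K → ℂ) (x : 𝓞 K), Dif w Finset.univ h x = h x - h (x - (1 - ω) * D.c₀) := by
    intro h x
    have h6 : (Finset.univ : Finset Unit) = insert () ∅ := rfl
    rw [h6, dif_insert w ∅ () (Finset.notMem_empty _), dif_empty, dif_empty]
  have hmem : ∀ x : 𝓞 K, x ∈ D.X → ω ^ 2 * (x - (1 - ω) * D.c₀) ∈ D.X := by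
    intro x hx
    rw [D.mem_X] at hx ⊢
    have h6 : ω ^ 2 * (x - (1 - ω) * D.c₀) - D.c₀ = ω ^ 2 * (x - D.c₀) := by
      linear_combination (D.c₀) * hω3
    rw [h6]
    exact D.I.mul_mem_left _ hx
  have hmem2 : ∀ x : 𝓞 K, x ∈ D.X → ω * x + (1 - ω) * D.c₀ ∈ D.X := by
    intro x hx
    rw [D.mem_X] at hx ⊢
    have h6 : ω * x + (1 - ω) * D.c₀ - D.c₀ = ω * (x - D.c₀) := by ring
    rw [h6]
    exact D.I.mul_mem_left _ hx
  let ε : D.X ≃ D.X :=
    { toFun := fun x => ⟨ω ^ 2 * ((x : 𝓞 K) - (1 - ω) * D.c₀), hmem x x.2⟩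
      invFun := fun x => ⟨ω * (x : 𝓞 K) + (1 - ω) * D.c₀, hmem2 x x.2⟩
      left_inv := by
        intro x
        apply Subtype.ext
        show ω * (ω ^ 2 * ((x : 𝓞 K) - (1 - ω) * D.c₀)) + (1 - ω) * D.c₀ = x
        linear_combination ((x : 𝓞 K) - (1 - ω) * D.c₀) * hω3
      right_inv := by
        intro x
        apply Subtype.ext
        show ω ^ 2 * (ω * (x : 𝓞 K) + (1 - ω) * D.c₀ - (1 - ω) * D.c₀) = x
        linear_combination (x : 𝓞 K) * hω3 }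
  have hsum : ∀ t : Fin (m + 1) → ℝ, (∀ i, 0 < t i) →
      ∑' x : D.X, (1 : ℂ) * Dif w Finset.univ (D.fs t s) x = κ * ∑' x : D.X, D.fs t s x := by
    intro t ht
    have hsm := (fs_summable D hE h0 t ht s hs).of_norm
    have h6 : ∀ x : D.X, D.fs t s ((x : 𝓞 K) - (1 - ω) * D.c₀) =
        (starRingEnd ℂ) (e om) ^ (m + 1) * D.fs t s (ε x : 𝓞 K) := by
      intro x
      rw [← U5_fs_om D hE]
      congr 1
      show _ = ω * (ω ^ 2 * ((x : 𝓞 K) - (1 - ω) * D.c₀))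
      linear_combination (-((x : 𝓞 K) - (1 - ω) * D.c₀)) * hω3
    have h7 : Summable fun x : D.X => D.fs t s (ε x : 𝓞 K) := (ε.summable_iff).2 hsm
    have h8 : ∑' x : D.X, D.fs t s (ε x : 𝓞 K) = ∑' x : D.X, D.fs t s x :=
      ε.tsum_eq (fun x : D.X => D.fs t s x)
    simp only [one_mul, hdif, h6]
    rw [hsm.tsum_sub (h7.mul_left _), tsum_mul_left, h8, hκ]
    ring
  have h6 : (∑' x : T, (1 : ℂ) * nf s (x : 𝓞 K)) * cst (D.lm u) s = V s * κ⁻¹ := by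
    rw [h5, hVdef]
    simp only
    rw [← integral_mul_const]
    refine integral_congr_ae (Filter.Eventually.of_forall fun z => ?_)
    show ∑' x : D.X, (1 : ℂ) * D.fs (tt (D.lm u) z) s x =
      (∑' x : D.X, (1 : ℂ) * Dif w Finset.univ (D.fs (tt (D.lm u) z) s) x) * κ⁻¹
    rw [hsum (tt (D.lm u) z) fun i => Real.exp_pos _]
    simp only [one_mul]
    field_simp
  have h7 := hA2 s (by linarith) _ h6
  rw [h7]
  have h8 := h4.of_norm.hasSum
  simp only [one_mul] at h8 ⊢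
  exact h8

end H55N
end

-- from Lib.H55N.Core
section

open NumberField IsDedekindDomain

namespace H55N

open H55B H55C

variable {K : Type} [Field K] [NumberField K] [Algebra F K] {m : ℕ}

theorem Z3_gw (c : Fin (m + 1) × Fin 2 → Ideal (𝓞 K)) (p : Fin (m + 1) × Fin 2 → ℕ) (u : (𝓞 K)ˣ)
    (x : 𝓞 K) : gw c p ((u : 𝓞 K) * x) = gw c p x := by
  unfold gw
  refine Finset.prod_congr rfl fun i _ => ?_
  have : (u : 𝓞 K) * x ∈ c i ↔ x ∈ c i := Ideal.unit_mul_mem_iff_mem _ u.isUnit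
  by_cases h : x ∈ c i
  · rw [if_pos (this.2 h), if_pos h]
  · rw [if_neg (fun h' => h (this.1 h')), if_neg h]

theorem Z3_nf {σ : Fin (m + 1) → K →+* ℂ} (hσ : Emb σ) (s : ℂ) (u : (𝓞 K)ˣ)
    (hu : ∏ i, σ i ((u : 𝓞 K) : K) = 1) (x : 𝓞 K) : nf s ((u : 𝓞 K) * x) = nf s x := by
  have h : ∏ i, σ i (((u : 𝓞 K) * x : 𝓞 K) : K) = ∏ i, σ i (x : K) := by
    have h1 : ∀ i, σ i (((u : 𝓞 K) * x : 𝓞 K) : K) = σ i ((u : 𝓞 K) : K) * σ i (x : K) := by
      intro i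
      rw [← map_mul]
      rfl
    rw [Finset.prod_congr rfl fun i _ => h1 i, Finset.prod_mul_distrib, hu, one_mul]
  unfold nf
  rw [← norm_eq hσ, ← norm_eq hσ, h]

theorem Z3_lam : (3 : O) = -(om ^ 2) * lam ^ 2 := by
  have h := H55B.om_rel
  unfold lam
  linear_combination (om ^ 2 - 3 * om + 3) * h

theorem Z3_le (f b : Ideal (𝓞 K)) :
    Ideal.span {3} * f * b ≤ Ideal.span {algebraMap O (𝓞 K) lam} * b := by
  refine Ideal.mul_mono_left (Ideal.mul_le_left.trans ?_)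
  rw [Ideal.span_singleton_le_span_singleton]
  refine ⟨algebraMap O (𝓞 K) (-(om ^ 2) * lam), ?_⟩
  rw [← map_mul]
  have h : (3 : 𝓞 K) = algebraMap O (𝓞 K) 3 := (map_ofNat _ 3).symm
  rw [h, Z3_lam]
  congr 1
  ring

theorem Z3_bij {J' : Ideal (𝓞 K)} {X T : Set (𝓞 K)} (h0 : (0 : 𝓞 K) ∉ X) (hT : Transv J' X T)
    (u : Fin m → (𝓞 K)ˣ) (hu2 : ∀ z, (uu u z : 𝓞 K) - 1 ∈ J')
    (hu3 : ∀ v : (𝓞 K)ˣ, (v : 𝓞 K) - 1 ∈ J' → ∃! z : Fin m → ℤ, v = uu u z) :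
    ∀ x ∈ X, ∃! q : (Fin m → ℤ) × T, x = (uu u q.1 : 𝓞 K) * q.2 := by
  intro x hx
  obtain ⟨r, hr, v, hv, hxv⟩ := hT.cover x hx
  obtain ⟨z, hz, hzu⟩ := hu3 v hv
  refine ⟨(z, ⟨r, hr⟩), ?_, ?_⟩
  · simp only
    rw [← hz]
    exact hxv
  · rintro ⟨z', r'⟩ h'
    simp only at h'
    have e1 : (r' : 𝓞 K) = (((uu u z')⁻¹ * v : (𝓞 K)ˣ) : 𝓞 K) * r := by
      rw [Units.val_mul, mul_assoc, ← hxv, h', Units.inv_mul_cancel_left]
    have e2 : (((uu u z')⁻¹ * v : (𝓞 K)ˣ) : 𝓞 K) - 1 ∈ J' := by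
      have e3 : (((uu u z')⁻¹ * v : (𝓞 K)ˣ) : 𝓞 K) - 1 =
          (((uu u z')⁻¹ : (𝓞 K)ˣ) : 𝓞 K) * (((v : 𝓞 K) - 1) - ((uu u z' : 𝓞 K) - 1)) := by
        have e4 : (((uu u z')⁻¹ : (𝓞 K)ˣ) : 𝓞 K) * (uu u z' : 𝓞 K) = 1 := Units.inv_mul _
        rw [Units.val_mul]
        linear_combination e4
      rw [e3]
      exact J'.mul_mem_left _ (J'.sub_mem hv (hu2 z'))
    have e5 : (r' : 𝓞 K) = r := hT.uniq r hr r' r'.2 _ e2 e1
    have hr0 : r ≠ 0 := by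
      rintro rfl
      exact h0 (hT.sub hr)
    have e6 : v = uu u z' := by
      apply Units.ext
      rw [e5, hxv] at h'
      exact mul_right_cancel₀ hr0 h'
    have e7 : z' = z := hzu z' e6
    subst e7
    congr 1
    exact Subtype.ext e5

/-- CORE (analytic continuation and integrality of the smoothed partial L-values). -/
theorem core (K : Type) [Field K] [NumberField K] [Algebra F K] (m : ℕ)
    (hm : Module.finrank F K = m + 1) (hK : UnrOut K) (b f : Ideal (𝓞 K)) (hb : b ≠ ⊥)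
    (hb2 : IsCoprime b (Ideal.span {2})) (hf : f ≠ ⊥) (hf2 : IsCoprime f (Ideal.span {2}))
    (c₀ : 𝓞 K) (hc : c₀ ∈ b) (hc' : c₀ ∉ Ideal.span {algebraMap O (𝓞 K) lam} * b) :
    ∃ Bad : Set (Ideal (𝓞 K)), Bad.Finite ∧
      ∀ (c : Fin (m + 1) × Fin 2 → Ideal (𝓞 K)) (p : Fin (m + 1) × Fin 2 → ℕ), Smooth c p →
        (∀ i, c i ∉ Bad) → ∃ Z : ℂ → ℂ, AnalyticOnNhd ℂ Z {s | 1 / 2 < s.re} ∧
          (∀ T : Set (𝓞 K), Transv (Ideal.span {3} * f) (XS (Ideal.span {3} * f * b) c₀) T →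
            ∀ s : ℂ, 3 / 2 < s.re → HasSum (fun x : T => gw c p x * nf s (x : 𝓞 K)) (Z s)) ∧
          Int2 (Z 1 / R0 ^ (m + 1)) := by
  classical
  obtain ⟨σ, hσ⟩ := emb_exists K m hm
  set J : Ideal (𝓞 K) := Ideal.span {3} * f with hJdef
  set J' : Ideal (𝓞 K) := Ideal.span {2} * J with hJ'def
  have hJ0 : J ≠ ⊥ := by
    rw [hJdef]
    exact mul_ne_zero (by simp) hf
  have hJ'0 : J' ≠ ⊥ := by
    rw [hJ'def]
    exact mul_ne_zero (by simp) hJ0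
  have hJ'J : J' ≤ J := Ideal.mul_le_right
  have hJ3 : J ≤ Ideal.span {3} := Ideal.mul_le_left
  have hJ6 : J' ≤ Ideal.span {6} := by
    rw [hJ'def, hJdef, ← mul_assoc, Ideal.span_singleton_mul_span_singleton]
    have : (2 : 𝓞 K) * 3 = 6 := by norm_num
    rw [this]
    exact Ideal.mul_le_left
  obtain ⟨u, hu1, hu2, hu3, hu4⟩ := units_basis hm J' hJ'0 hJ6
  obtain ⟨L, hL⟩ := labels_exist hm b f hb c₀ hc hc' u (fun z => hJ6 (hu2 z))
  have hI0 : Ideal.span {3} * f * b ≠ ⊥ := mul_ne_zero hJ0 hb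
  have hdir := fun (q : (Fin m → Fin (m + 1)) × Equiv.Perm (Fin m)) =>
    directions hm (fun k : Fin (m + 1) => L (kv (fun k => ((q.1 k : ℕ) : ℤ)) q.2 k))
      (labels_indep b c₀ u L hL _ _) (Ideal.span {3} * f * b) hI0
  choose d hd1 hd2 hd3 using hdir
  refine ⟨(⋃ q : ((Fin m → Fin (m + 1)) × Equiv.Perm (Fin m)) × Fin (m + 1),
    {c : Ideal (𝓞 K) | d q.1 q.2 ∈ c}) ∪ {c : Ideal (𝓞 K) | (2 : 𝓞 K) ∈ c}, ?_, ?_⟩
  · refine Set.Finite.union (Set.finite_iUnion fun q => finite_ideals _ (hd2 _ _)) ?_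
    exact finite_ideals 2 two_ne_zero
  intro c p hcp hbad
  let D : Ctx K m := ⟨σ, Ideal.span {3} * f * b, c₀, c, p⟩
  have hD : D.Ok := ⟨hσ, fun h => hc' (Z3_le f b h), hcp⟩
  have h0X : (0 : 𝓞 K) ∉ D.X := fun h => D.X_ne hD.ne h rfl
  have hp2 : ∀ i, D.p i ≠ 2 := by
    intro i hi
    apply hbad i
    right
    have h1 : ((Ideal.absNorm (c i) : ℕ) : 𝓞 K) ∈ c i := Ideal.absNorm_mem _
    rw [hcp.norm i] at h1
    have h2 : p i = 2 := hi
    rw [h2] at h1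
    exact_mod_cast h1
  have hact : ∀ v : (𝓞 K)ˣ, (v : 𝓞 K) - 1 ∈ J → ((v : 𝓞 K) - 1) * D.c₀ ∈ D.I :=
    fun v hv => Ideal.mul_mem_mul hv hc
  have hu : D.UOk u := ⟨fun j => hact _ (hJ'J (hu1 j)),
    fun j => norm_one D hσ (u j) (hJ3 (hJ'J (hu1 j))), delta_ne D hσ u hu4⟩
  have hlow := labels_low D hσ b f c₀ ⟨rfl, rfl⟩ u L hL
  have hdirs : ∀ (a : Fin m → Fin (m + 1)) (π : Equiv.Perm (Fin m)),
      ∃ w', D.Dirs (fun k : Fin (m + 1) => L (kv (fun k => ((a k : ℕ) : ℤ)) π k)) w' := by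
    intro a π
    refine dirs_of D hD _ (d (a, π)) (hd1 (a, π)) ?_ (hd3 (a, π)) ?_ ?_
      (labels_indep b c₀ u L hL _ _)
    · intro i j hj
      apply hbad i
      left
      exact Set.mem_iUnion.2 ⟨((a, π), j), hj⟩
    · intro x hx k
      obtain ⟨⟨y, hy⟩, -⟩ := hlow (kv (fun k => ((a k : ℕ) : ℤ)) π k) x hx
      exact ⟨_, hy⟩
    · intro x hx k
      exact (hlow (kv (fun k => ((a k : ℕ) : ℤ)) π k) x hx).2
  obtain ⟨w, hw⟩ := hdirs (fun _ => 0) 1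
  obtain ⟨G, hG⟩ := gspec_exists D hD _ w hw
  obtain ⟨Z, hZ1, hZ2, hZ3⟩ := zfun D hD u hu _ w hw G hG
  have hval := CN_value D hD u hu _ w hw G hG L hL.equi hdirs
  have hint := CN_int2 hK D hD b f hb2 hf2 rfl hp2 u L hL hdirs
  have hZint : Int2 (Z 1 / R0 ^ (m + 1)) := by
    rcases le_total 0 (Delta (D.lm u)) with h | h
    · rw [hZ3, abs_of_nonneg h, ← hval]
      exact hint
    · rw [hZ3, abs_of_nonpos h]
      have : (m.factorial : ℂ) * ((-Delta (D.lm u) : ℝ) : ℂ) *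
          (∫ z in Set.Icc (0 : Fin m → ℝ) 1, D.Bv w G (fun _ => tt (D.lm u) z)) / R0 ^ (m + 1) =
          -(CN (m + 1) D.Jv (fun a => .A (L a)) / R0 ^ (m + 1)) := by
        rw [hval]
        push_cast
        ring
      rw [this]
      exact hint.neg
  have hJ2 : IsCoprime J (Ideal.span {2}) := by
    rw [hJdef]
    refine IsCoprime.mul_left ?_ hf2
    rw [Ideal.isCoprime_span_singleton_iff]
    exact ⟨1, -1, by norm_num⟩
  obtain ⟨ν, hν, hT⟩ := odd_change hK J J' hJ0 hJ2 rfl D.X h0X (by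
    intro v hv x hx
    have h1 : (v : 𝓞 K) * x - D.c₀ = ((v : 𝓞 K) - 1) * D.c₀ + v * (x - D.c₀) := by ring
    rw [D.mem_X, h1]
    exact D.I.add_mem (hact v hv) (D.I.mul_mem_left _ hx))
  refine ⟨fun s => Z s / ν, ?_, ?_, ?_⟩
  · exact fun s hs => (hZ1 s hs).div_const
  · intro T hTT s hs
    obtain ⟨T', hT', hφ⟩ := hT T hTT
    refine hφ (fun x => gw c p x * nf s x) (Z s) ?_ ?_
    · intro v hv x _
      rw [Z3_gw, Z3_nf hσ s v (norm_one D hσ v (hJ3 hv))]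
    · exact hZ2 T' hT'.sub (Z3_bij h0X hT' u hu2 hu3) s hs
  · have : Z 1 / (ν : ℂ) / R0 ^ (m + 1) = Z 1 / R0 ^ (m + 1) / ν := by
      rw [div_right_comm]
    show Int2 (Z 1 / (ν : ℂ) / R0 ^ (m + 1))
    rw [this]
    exact hZint.div_odd ν hν

/-- NOPOLES (the unsmoothed partial series have no poles on the line Re s = 3/2). -/
theorem nopoles (K : Type) [Field K] [NumberField K] [Algebra F K] (m : ℕ)
    (hm : Module.finrank F K = m + 1) (hm3 : ¬ 3 ∣ m + 1) (b f : Ideal (𝓞 K)) (hb : b ≠ ⊥)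
    (hf : f ≠ ⊥) (c₀ : 𝓞 K) (hc : c₀ ∈ b)
    (hc' : c₀ ∉ Ideal.span {algebraMap O (𝓞 K) lam} * b) :
    ∃ Z : ℂ → ℂ, AnalyticOnNhd ℂ Z {s | 3 / 2 - 1 / (2 * (m + 1)) < s.re} ∧
      ∀ T : Set (𝓞 K), Transv (Ideal.span {3} * f) (XS (Ideal.span {3} * f * b) c₀) T →
        ∀ s : ℂ, 3 / 2 < s.re → HasSum (fun x : T => nf s (x : 𝓞 K)) (Z s) := by
  classical
  obtain ⟨σ, hσ⟩ := emb_exists K m hm
  set J : Ideal (𝓞 K) := Ideal.span {3} * f with hJdef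
  set J' : Ideal (𝓞 K) := Ideal.span {2} * J with hJ'def
  have hJ0 : J ≠ ⊥ := by
    rw [hJdef]
    exact mul_ne_zero (by simp) hf
  have hJ'0 : J' ≠ ⊥ := by
    rw [hJ'def]
    exact mul_ne_zero (by simp) hJ0
  have hJ'J : J' ≤ J := Ideal.mul_le_right
  have hJ3 : J ≤ Ideal.span {3} := Ideal.mul_le_left
  have hJ6 : J' ≤ Ideal.span {6} := by
    rw [hJ'def, hJdef, ← mul_assoc, Ideal.span_singleton_mul_span_singleton]
    have : (2 : 𝓞 K) * 3 = 6 := by norm_num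
    rw [this]
    exact Ideal.mul_le_left
  obtain ⟨u, hu1, hu2, hu3, hu4⟩ := units_basis hm J' hJ'0 hJ6
  let D : Ctx K m := ⟨σ, Ideal.span {3} * f * b, c₀, fun _ => ⊥, fun _ => 0⟩
  have hne : D.c₀ ∉ D.I := fun h => hc' (Z3_le f b h)
  have h0X : (0 : 𝓞 K) ∉ D.X := fun h => D.X_ne hne h rfl
  have hact : ∀ v : (𝓞 K)ˣ, (v : 𝓞 K) - 1 ∈ J → ((v : 𝓞 K) - 1) * D.c₀ ∈ D.I :=
    fun v hv => Ideal.mul_mem_mul hv hc
  have hu : D.UOk u := ⟨fun j => hact _ (hJ'J (hu1 j)),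
    fun j => norm_one D hσ (u j) (hJ3 (hJ'J (hu1 j))), delta_ne D hσ u hu4⟩
  obtain ⟨Z, hZ1, hZ2⟩ := zfun_one D hσ hne hm3 u hu
    (Ideal.span {algebraMap O (𝓞 K) lam} * b) (Z3_le f b) hc'
    (Ideal.mul_mem_mul (Ideal.mem_span_singleton_self _) hc)
  obtain ⟨ν, hν, hT⟩ := finite_change J J' hJ'0 hJ'J D.X h0X (by
    intro v hv x hx
    have h1 : (v : 𝓞 K) * x - D.c₀ = ((v : 𝓞 K) - 1) * D.c₀ + v * (x - D.c₀) := by ring
    rw [D.mem_X, h1]
    exact D.I.add_mem (hact v hv) (D.I.mul_mem_left _ hx))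
  refine ⟨fun s => Z s / ν, ?_, ?_⟩
  · exact fun s hs => (hZ1 s hs).div_const
  · intro T hTT s hs
    obtain ⟨T', hT', hφ⟩ := hT T hTT
    refine hφ (fun x => nf s x) (Z s) ?_ ?_
    · intro v hv x _
      exact Z3_nf hσ s v (norm_one D hσ v (hJ3 hv)) x
    · exact hZ2 T' hT'.sub (Z3_bij h0X hT' u hu2 hu3) s hs

end H55N
end

-- from Lib.H55R.D11
section

open NumberField IsDedekindDomain

namespace H55R

open H55B H55N

theorem D11_dif {M : Type} [AddCommGroup M] (w : M) (h : M → ℂ) (x : M) :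
    Dif (fun _ : Unit => -w) Finset.univ h x = h x - h (x + w) := by
  unfold Dif
  have h1 : (Finset.univ : Finset Unit).powerset = {∅, {()}} := by decide
  rw [h1, Finset.sum_pair (by decide)]
  simp only [Finset.card_empty, pow_zero, Finset.sum_empty, sub_zero, one_mul,
    Finset.card_singleton, pow_one, Finset.sum_singleton, sub_neg_eq_add]
  ring

/-- Chunk RD11 (M), the smoothed sums on the cube are bounded. h(x) = |fs t s x| (a real number), X = D.X = c₀ + I, q = absNorm c = the number of elements of O/c. I + c = 1, so for every class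
k in O/c there is r_k in I with image k. The map (y, k) -> y + r_k is a bijection from (X cap c) x O/c onto X (inverse: x -> (x - r_k, k), k the class of x). h is summable over X
(fs_summable, s > 3/2; t i >= a > 0). wt x = 1 - q [x in c], so sum over X of wt h = (sum over X of h) - q (sum over X cap c of h) = sum over y in X cap c of sum over k of (h(y + r_k) - h(y)).
|h(y + r_k) - h(y)| <= |fs(y + r_k) - fs(y)| (norm_sub_norm_le) <= C_k sz(y)^(-(2(m+1) + 1)) by U4_bound with I' = D.I, index type Unit, w = -r_k, r = 3/2, M = 5/2 (Dif over Unit of h at y is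
h(y) - h(y - w), up to sign; U4_e m 1 (3/2) = 2 (m + 1) + 1; constant uniform in t and s), and the sum of sz^(-(2(m+1)+1)) over all of 𝓞 K converges (sum_sz in H55N/B2.lean). C = (sum of the C_k) * that sum. -/
theorem cube_bdd {K : Type} [Field K] [NumberField K] [Algebra F K] {m : ℕ} (D : Ctx K m)
    (hE : Emb D.σ) (h0 : D.c₀ ∉ D.I) (c : Ideal (𝓞 K)) (hc : c ≠ ⊥) (hcI : IsCoprime D.I c)
    (a b : ℝ) (ha : 0 < a) :
    ∃ C : ℝ, ∀ t : Fin (m + 1) → ℝ, (∀ i, a ≤ t i ∧ t i ≤ b) → ∀ s ∈ Set.Ioc (3 / 2 : ℝ) (5 / 2),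
      ‖∑' x : D.X, wt c (x : 𝓞 K) * ((‖D.fs t (s : ℂ) (x : 𝓞 K)‖ : ℝ) : ℂ)‖ ≤ C := by
  classical
  have hfin : Finite (𝓞 K ⧸ c) := Ideal.finiteQuotientOfFreeOfNeBot c hc
  have hft := Fintype.ofFinite (𝓞 K ⧸ c)
  have hq : Fintype.card (𝓞 K ⧸ c) = Ideal.absNorm c := by
    rw [Ideal.absNorm_apply, Submodule.cardQuot_apply, Nat.card_eq_fintype_card]
  have hr : ∀ k : 𝓞 K ⧸ c, ∃ r ∈ D.I, Ideal.Quotient.mk c r = k := by
    intro k
    obtain ⟨y, rfl⟩ := Ideal.Quotient.mk_surjective k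
    obtain ⟨i, hi, j, hj, hij⟩ := Ideal.isCoprime_iff_exists.1 hcI
    refine ⟨i * y, D.I.mul_mem_right _ hi, ?_⟩
    rw [Ideal.Quotient.eq]
    have h1 : i * y - y = -(j * y) := by linear_combination y * hij
    rw [h1]
    exact c.neg_mem (c.mul_mem_right _ hj)
  choose r hrI hrk using hr
  choose Ck hCk0 hCk using fun k => U4_bound (ι := Unit) D hE D.I h0 (fun _ => -r k)
    (fun _ => D.I.neg_mem (hrI k)) a b ha (3 / 2) (5 / 2) (by norm_num)
  obtain ⟨e, he⟩ : ∃ e : ℝ, e = U4_e m (Fintype.card Unit) (3 / 2) := ⟨_, rfl⟩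
  have he2 : 2 * (m + 1 : ℝ) < e := by
    rw [he]
    unfold U4_e
    rw [Fintype.card_unit]
    push_cast
    linarith
  have hsz := sum_sz D hE e he2
  -- the bijection
  let Y : Set (𝓞 K) := {x | x ∈ D.X ∧ x ∈ c}
  let E : Y × (𝓞 K ⧸ c) → D.X := fun p => ⟨(p.1 : 𝓞 K) + r p.2, D.X_add p.1.2.1 (hrI p.2)⟩
  have hmk : ∀ y : Y, Ideal.Quotient.mk c (y : 𝓞 K) = 0 := fun y =>
    Ideal.Quotient.eq_zero_iff_mem.2 y.2.2
  have hE' : Function.Bijective E := by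
    constructor
    · rintro ⟨y, k⟩ ⟨y', k'⟩ h
      have h1 : (y : 𝓞 K) + r k = (y' : 𝓞 K) + r k' := congrArg Subtype.val h
      have h2 : k = k' := by
        have h3 := congrArg (Ideal.Quotient.mk c) h1
        rwa [map_add, map_add, hmk, hmk, hrk, hrk, zero_add, zero_add] at h3
      subst h2
      have h3 : y = y' := Subtype.ext (add_right_cancel h1)
      rw [h3]
    · rintro ⟨x, hx⟩
      have h1 : x - r (Ideal.Quotient.mk c x) ∈ c := by
        rw [← Ideal.Quotient.eq, hrk]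
      refine ⟨(⟨x - r (Ideal.Quotient.mk c x), D.X_sub hx (hrI _), h1⟩, Ideal.Quotient.mk c x), ?_⟩
      apply Subtype.ext
      show x - r (Ideal.Quotient.mk c x) + r (Ideal.Quotient.mk c x) = x
      ring
  let E' : Y × (𝓞 K ⧸ c) ≃ D.X := Equiv.ofBijective E hE'
  have hwt : ∀ p : Y × (𝓞 K ⧸ c), wt c ((E p : 𝓞 K)) =
      if p.2 = 0 then 1 - (Ideal.absNorm c : ℂ) else 1 := by
    rintro ⟨y, k⟩
    have h1 : (y : 𝓞 K) + r k ∈ c ↔ k = 0 := by
      rw [← Ideal.Quotient.eq_zero_iff_mem, map_add, hmk, hrk, zero_add]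
    show (if (y : 𝓞 K) + r k ∈ c then 1 - (Ideal.absNorm c : ℂ) else 1) = _
    by_cases h : k = 0
    · rw [if_pos (h1.2 h), if_pos h]
    · rw [if_neg (fun h' => h (h1.1 h')), if_neg h]
  refine ⟨(∑ k, (Ck k + Ck 0)) * ∑' x : 𝓞 K, D.sz x ^ (-e), ?_⟩
  intro t ht s hs
  obtain ⟨hs1, hs2⟩ := hs
  have hsum := fs_summable D hE h0 t (fun i => ha.trans_le (ht i).1) (s : ℂ)
    (by rw [Complex.ofReal_re]; exact hs1)
  let H : 𝓞 K → ℝ := fun x => ‖D.fs t (s : ℂ) x‖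
  have hdiff : ∀ k, ∀ y : Y, |H ((y : 𝓞 K) + r k) - H y| ≤ Ck k * D.sz (y : 𝓞 K) ^ (-e) := by
    intro k y
    have h1 := hCk k t ht (s : ℂ) (by rw [Complex.ofReal_re]; exact hs1.le)
      (by rw [Complex.norm_real, Real.norm_of_nonneg (by linarith)]; exact hs2) y y.2.1
    rw [D11_dif, ← he] at h1
    refine le_trans ?_ h1
    rw [norm_sub_rev]
    exact abs_norm_sub_norm_le _ _
  have hS : Summable fun x : D.X => wt c (x : 𝓞 K) * ((H (x : 𝓞 K) : ℝ) : ℂ) := by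
    refine Summable.of_norm_bounded (hsum.mul_left (1 + (Ideal.absNorm c : ℝ))) fun x => ?_
    rw [norm_mul, Complex.norm_real, Real.norm_of_nonneg (norm_nonneg _)]
    refine mul_le_mul_of_nonneg_right ?_ (norm_nonneg _)
    unfold wt
    split_ifs
    · refine (norm_sub_le _ _).trans ?_
      rw [NormOneClass.norm_one, Complex.norm_natCast]
    · rw [NormOneClass.norm_one]
      have : (0 : ℝ) ≤ Ideal.absNorm c := Nat.cast_nonneg _
      linarith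
  have hS2 : Summable fun p : Y × (𝓞 K ⧸ c) => wt c ((E' p : D.X) : 𝓞 K) *
      ((H ((E' p : D.X) : 𝓞 K) : ℝ) : ℂ) := (Equiv.summable_iff E').2 hS
  have h1 : ∑' x : D.X, wt c (x : 𝓞 K) * ((H (x : 𝓞 K) : ℝ) : ℂ) =
      ∑' y : Y, ∑ k, ((H ((y : 𝓞 K) + r k) - H ((y : 𝓞 K) + r 0) : ℝ) : ℂ) := by
    rw [← Equiv.tsum_eq E', hS2.tsum_prod]
    refine tsum_congr fun y => ?_
    rw [tsum_fintype]
    have h2 : ∀ k : 𝓞 K ⧸ c, wt c ((E' (y, k) : D.X) : 𝓞 K) * ((H ((E' (y, k) : D.X) : 𝓞 K) : ℝ) : ℂ) =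
        ((H ((y : 𝓞 K) + r k) : ℝ) : ℂ) -
          if k = 0 then (Ideal.absNorm c : ℂ) * ((H ((y : 𝓞 K) + r 0) : ℝ) : ℂ) else 0 := by
      intro k
      have h3 := hwt (y, k)
      have h4 : wt c ((E' (y, k) : D.X) : 𝓞 K) = if k = 0 then 1 - (Ideal.absNorm c : ℂ) else 1 := h3
      rw [h4]
      have h5 : ((E' (y, k) : D.X) : 𝓞 K) = (y : 𝓞 K) + r k := rfl
      rw [h5]
      by_cases h : k = 0
      · rw [if_pos h, if_pos h, h]
        ring
      · rw [if_neg h, if_neg h]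
        ring
    rw [Finset.sum_congr rfl fun k _ => h2 k, Finset.sum_sub_distrib, Finset.sum_ite_eq',
      if_pos (Finset.mem_univ _)]
    push_cast
    rw [Finset.sum_sub_distrib, Finset.sum_const, Finset.card_univ, hq, nsmul_eq_mul]
  have hbd : ∀ y : Y, ‖∑ k, ((H ((y : 𝓞 K) + r k) - H ((y : 𝓞 K) + r 0) : ℝ) : ℂ)‖ ≤
      (∑ k, (Ck k + Ck 0)) * D.sz (y : 𝓞 K) ^ (-e) := by
    intro y
    rw [Finset.sum_mul]
    refine (norm_sum_le _ _).trans (Finset.sum_le_sum fun k _ => ?_)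
    rw [Complex.norm_real, Real.norm_eq_abs, add_mul]
    have h2 := hdiff k y
    have h3 := hdiff 0 y
    rw [abs_le] at h2 h3 ⊢
    constructor <;> linarith [h2.1, h2.2, h3.1, h3.2]
  have hszY : Summable fun y : Y => D.sz (y : 𝓞 K) ^ (-e) :=
    hsz.comp_injective Subtype.val_injective
  have hszY' := hszY.mul_left (∑ k, (Ck k + Ck 0))
  have hC0 : 0 ≤ ∑ k, (Ck k + Ck 0) := Finset.sum_nonneg fun k _ => add_nonneg (hCk0 k) (hCk0 0)
  calc ‖∑' x : D.X, wt c (x : 𝓞 K) * ((‖D.fs t (s : ℂ) (x : 𝓞 K)‖ : ℝ) : ℂ)‖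
      = ‖∑' y : Y, ∑ k, ((H ((y : 𝓞 K) + r k) - H ((y : 𝓞 K) + r 0) : ℝ) : ℂ)‖ := by rw [← h1]
    _ ≤ ∑' y : Y, (∑ k, (Ck k + Ck 0)) * D.sz (y : 𝓞 K) ^ (-e) :=
        tsum_of_norm_bounded hszY'.hasSum hbd
    _ = (∑ k, (Ck k + Ck 0)) * ∑' y : Y, D.sz (y : 𝓞 K) ^ (-e) := tsum_mul_left
    _ ≤ (∑ k, (Ck k + Ck 0)) * ∑' x : 𝓞 K, D.sz x ^ (-e) := by
        refine mul_le_mul_of_nonneg_left ?_ hC0
        exact hsz.tsum_subtype_le _ _ (fun x => Real.rpow_nonneg (D.sz_pos x).le _)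

end H55R
end

-- from Lib.H55R.D12
section

open NumberField IsDedekindDomain

namespace H55R

open H55B H55N

theorem D12_fin {K : Type} [Field K] [NumberField K] [Algebra F K] :
    ∃ m : ℕ, Module.finrank F K = m + 1 := by
  have : IsScalarTower ℚ F K := IsScalarTower.of_algebraMap_eq' (Subsingleton.elim _ _)
  have : Module.Finite F K := Module.Finite.of_restrictScalars_finite ℚ F K
  have h : 0 < Module.finrank F K := Module.finrank_pos
  exact ⟨Module.finrank F K - 1, by omega⟩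

theorem D12_three {K : Type} [Field K] [NumberField K] :
    (Ideal.span {3} : Ideal (𝓞 K)) ≠ ⊤ := by
  intro h
  have h1 : Ideal.absNorm (Ideal.span {3} : Ideal (𝓞 K)) = 1 := by
    rw [h]
    exact Ideal.absNorm_top
  rw [Ideal.absNorm_span_singleton] at h1
  have h2 : (3 : 𝓞 K) = algebraMap ℤ (𝓞 K) 3 := by simp
  rw [h2, Algebra.norm_algebraMap] at h1
  have h3 : 0 < Module.finrank ℤ (𝓞 K) := Module.finrank_pos
  rw [Int.natAbs_pow] at h1
  have h4 : 1 < Int.natAbs 3 ^ Module.finrank ℤ (𝓞 K) := Nat.one_lt_pow h3.ne' (by decide)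
  omega

theorem D12_ne {K : Type} [Field K] [NumberField K] (f b : Ideal (𝓞 K)) (hf : f ≠ ⊥) (c₀ : 𝓞 K)
    (hp : ∀ w : HeightOneSpectrum (𝓞 K), Ideal.span {3} * f ≤ w.asIdeal → c₀ ∉ w.asIdeal * b) :
    c₀ ∉ Ideal.span {3} * f * b := by
  intro h
  have h1 : (Ideal.span {3} * f : Ideal (𝓞 K)) ≠ ⊤ := fun h2 =>
    D12_three (K := K) (top_unique (h2 ▸ Ideal.mul_le_left))
  obtain ⟨M, hM, hM2⟩ := Ideal.exists_le_maximal _ h1
  have h3 : (Ideal.span {(3 : 𝓞 K)}) ≠ ⊥ := by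
    rw [Ne, Ideal.span_singleton_eq_bot]
    exact OfNat.ofNat_ne_zero 3
  have hM0 : M ≠ ⊥ := by
    rintro rfl
    exact mul_ne_zero h3 hf (le_bot_iff.1 hM2)
  exact hp ⟨M, hM.isPrime, hM0⟩ hM2 (Ideal.mul_mono_left hM2 h)

theorem D12_wt {K : Type} [Field K] [NumberField K] (c : Ideal (𝓞 K)) (u : (𝓞 K)ˣ) (x : 𝓞 K) :
    wt c ((u : 𝓞 K) * x) = wt c x := by
  unfold wt
  have : (u : 𝓞 K) * x ∈ c ↔ x ∈ c := Ideal.unit_mul_mem_iff_mem _ u.isUnit
  by_cases h : x ∈ c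
  · rw [if_pos (this.2 h), if_pos h]
  · rw [if_neg (fun h' => h (this.1 h')), if_neg h]

theorem D12_wt_bd {K : Type} [Field K] [NumberField K] (c : Ideal (𝓞 K)) (x : 𝓞 K) :
    ‖wt c x‖ ≤ 1 + Ideal.absNorm c := by
  unfold wt
  split_ifs
  · refine (norm_sub_le _ _).trans ?_
    rw [NormOneClass.norm_one, Complex.norm_natCast]
  · rw [NormOneClass.norm_one]
    have : (0 : ℝ) ≤ Ideal.absNorm c := Nat.cast_nonneg _
    linarith

section

variable {K : Type} [Field K] [NumberField K] [Algebra F K] {m : ℕ}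

theorem D12_N (D : Ctx K m) (hσ : Emb D.σ) (x : 𝓞 K) :
    D.N x = emb (Algebra.norm F (x : K)) := norm_eq hσ _

theorem D12_nn (D : Ctx K m) (hσ : Emb D.σ) (x : 𝓞 K) : nn x = ‖D.N x‖ := by
  rw [D12_N D hσ]
  rfl

theorem D12_Nmul (D : Ctx K m) (u x : 𝓞 K) : D.N (u * x) = D.N u * D.N x := by
  unfold Ctx.N
  rw [← Finset.prod_mul_distrib]
  refine Finset.prod_congr rfl fun i _ => ?_
  rw [← map_mul]
  rfl

theorem D12_N_ne (D : Ctx K m) {x : 𝓞 K} (hx : x ≠ 0) : D.N x ≠ 0 := by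
  unfold Ctx.N
  refine Finset.prod_ne_zero_iff.2 fun i _ => ?_
  rw [Ne, map_eq_zero]
  exact fun h => hx (RingOfIntegers.coe_eq_zero_iff.1 h)

theorem D12_Q_pos (D : Ctx K m) (t : Fin (m + 1) → ℝ) (ht : ∀ i, 0 < t i) {x : 𝓞 K} (hx : x ≠ 0) :
    0 < D.Q t x := by
  unfold Ctx.Q
  refine Finset.sum_pos (fun i _ => ?_) Finset.univ_nonempty
  have h1 : D.σ i (x : K) ≠ 0 := by
    rw [Ne, map_eq_zero]
    exact fun h => hx (RingOfIntegers.coe_eq_zero_iff.1 h)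
  have := ht i
  have h2 := norm_pos_iff.2 h1
  positivity

/-- conj N times N/|N| -/
theorem D12_conj (z : ℂ) (hz : z ≠ 0) : z / (‖z‖ : ℂ) * (starRingEnd ℂ) z = (‖z‖ : ℂ) := by
  have h : (‖z‖ : ℂ) ≠ 0 := by
    exact_mod_cast norm_ne_zero_iff.2 hz
  rw [div_mul_eq_mul_div, Complex.mul_conj, Complex.normSq_eq_norm_sq, div_eq_iff h]
  push_cast
  ring

theorem D12_nf (D : Ctx K m) (hσ : Emb D.σ) (s : ℝ) {x : 𝓞 K} (hx : x ≠ 0) :
    D.N x / (‖D.N x‖ : ℂ) * nf ((s + 1 / 2 : ℝ) : ℂ) x = ((nn x ^ (-2 * s) : ℝ) : ℂ) := by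
  have hN := D12_N_ne D hx
  have h0 : 0 < ‖D.N x‖ := norm_pos_iff.2 hN
  unfold nf g
  rw [← D12_N D hσ, ← mul_assoc, D12_conj _ hN, D12_nn D hσ]
  have h1 : (-2 * ((s + 1 / 2 : ℝ) : ℂ)) = ((-2 * (s + 1 / 2) : ℝ) : ℂ) := by push_cast; ring
  rw [h1, ← Complex.ofReal_cpow h0.le, ← Complex.ofReal_mul]
  congr 1
  have h2 : ‖D.N x‖ * ‖D.N x‖ ^ (-2 * (s + 1 / 2)) = ‖D.N x‖ ^ (1 : ℝ) * ‖D.N x‖ ^ (-2 * (s + 1 / 2)) := by
    rw [Real.rpow_one]
  rw [h2, ← Real.rpow_add h0]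
  congr 1
  ring

theorem D12_fs (D : Ctx K m) (t : Fin (m + 1) → ℝ) (ht : ∀ i, 0 < t i) (s : ℝ) {x : 𝓞 K}
    (hx : x ≠ 0) : D.N x / (‖D.N x‖ : ℂ) * D.fs t (s : ℂ) x = ((‖D.fs t (s : ℂ) x‖ : ℝ) : ℂ) := by
  have hN := D12_N_ne D hx
  have hQ := D12_Q_pos D t ht hx
  have h1 : (-((m + 1 : ℕ) * (s : ℂ))) = ((-((m + 1 : ℕ) * s) : ℝ) : ℂ) := by push_cast; ring
  have h2 : D.fs t (s : ℂ) x = (starRingEnd ℂ) (D.N x) * ((D.Q t x ^ (-((m + 1 : ℕ) * s)) : ℝ) : ℂ) := by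
    unfold Ctx.fs
    rw [h1, ← Complex.ofReal_cpow hQ.le]
  have h3 : 0 ≤ D.Q t x ^ (-((m + 1 : ℕ) * s)) := Real.rpow_nonneg hQ.le _
  rw [h2, ← mul_assoc, D12_conj _ hN, norm_mul, RCLike.norm_conj, Complex.norm_real,
    Real.norm_of_nonneg h3, Complex.ofReal_mul]

end

/-- Chunk RD12 (M/L), the smoothed partial series of a class is bounded (model: the proof of H55N.core in H55N/Core.lean). finrank F K = m + 1, sigma from emb_exists,
J = 3 f, J' = (2) J c (nonzero, <= J, <= (6)), X = XS (J b) c₀, D = the context sigma, I = J b, c₀ (c, p arbitrary). c₀ is not in J b (hp at a prime w containing 3, see H13_prime).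
phi(x) = wt c x * nn x ^ (-2 s) is invariant under the units u = 1 mod J on X (u x in c iff x in c; N u = 1 by norm_one and norm_eq, as J <= (3)). X is stable under these units ((u - 1) x in J b: x in b).
finite_change J J' gives nu > 0 and T' = a transversal of X modulo the units = 1 mod J' such that HasSum over T' of phi with sum S gives HasSum over T with sum S / nu.
units_basis for J' gives u; UOk D u: act (u - 1 in J, c₀ in b), norm (norm_one), reg (delta_ne). Z3_bij gives the bijection hypothesis of unfold. Apply unfold with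
g(x) = wt c x * (D.N x / |D.N x|) (bounded by q + 1; invariant under the units uu u z: these have norm 1, uu_act) at s' = s + 1/2 in (3/2, 5/2]: for x <> 0, g(x) nf s' x = wt c x * |N x|^(-2s)
= phi(x) (nf s' x = conj N |N|^(-2s'), D.N x = emb (norm x) by norm_eq, N <> 0), and g(x) fs(t, s', x) = wt c x * |fs(t, s', x)| (the power of Q is a positive real number). So the sum over T' of phi
converges and times cst(s') it is the integral over the cube of the sums of cube_bdd (a, b from U4_tt_bd), bounded by the constant C of cube_bdd (the cube has volume one; MeasureTheory.norm_setIntegral_le_of_norm_le_const), and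
|cst(s')| >= delta (cst_low, lm_sum). Bound: C / (delta nu). -/
theorem class_bdd {K : Type} [Field K] [NumberField K] [Algebra F K] (f b : Ideal (𝓞 K))
    (hf : f ≠ ⊥) (hb : b ≠ ⊥) (c₀ : 𝓞 K) (hc : c₀ ∈ b)
    (hp : ∀ w : HeightOneSpectrum (𝓞 K), Ideal.span {3} * f ≤ w.asIdeal → c₀ ∉ w.asIdeal * b)
    (c : Pl K) (hcc : IsCoprime (Ideal.span {3} * f * b) c.asIdeal) (T : Set (𝓞 K))
    (hT : Transv (Ideal.span {3} * f) (XS (Ideal.span {3} * f * b) c₀) T) :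
    ∃ C : ℝ, ∀ s ∈ Set.Ioc (1 : ℝ) 2, ∃ Z : ℂ, ‖Z‖ ≤ C ∧
      HasSum (fun x : T => wt c.asIdeal (x : 𝓞 K) * ((nn (x : 𝓞 K) ^ (-2 * s) : ℝ) : ℂ)) Z := by
  classical
  obtain ⟨m, hm⟩ := D12_fin (K := K)
  obtain ⟨σ, hσ⟩ := emb_exists K m hm
  have hne0 := D12_ne f b hf c₀ hp
  obtain ⟨J, hJdef⟩ : ∃ J : Ideal (𝓞 K), J = Ideal.span {3} * f := ⟨_, rfl⟩
  obtain ⟨J', hJ'def⟩ : ∃ J' : Ideal (𝓞 K), J' = Ideal.span {2} * J := ⟨_, rfl⟩
  rw [← hJdef] at hT hne0 hcc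
  have hJ0 : J ≠ ⊥ := by
    rw [hJdef]
    exact mul_ne_zero (by simp) hf
  have hJ'0 : J' ≠ ⊥ := by
    rw [hJ'def]
    exact mul_ne_zero (by simp) hJ0
  have hJ'J : J' ≤ J := by
    rw [hJ'def]
    exact Ideal.mul_le_right
  have hJ3 : J ≤ Ideal.span {3} := by
    rw [hJdef]
    exact Ideal.mul_le_left
  have hJ6 : J' ≤ Ideal.span {6} := by
    rw [hJ'def, hJdef, ← mul_assoc, Ideal.span_singleton_mul_span_singleton]
    have : (2 : 𝓞 K) * 3 = 6 := by norm_num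
    rw [this]
    exact Ideal.mul_le_left
  obtain ⟨u, hu1, hu2, hu3, hu4⟩ := units_basis hm J' hJ'0 hJ6
  obtain ⟨D, hDσ, hDI, hDc⟩ : ∃ D : Ctx K m, D.σ = σ ∧ D.I = J * b ∧ D.c₀ = c₀ :=
    ⟨⟨σ, J * b, c₀, fun _ => ⊥, fun _ => 0⟩, rfl, rfl, rfl⟩
  have hσ' : Emb D.σ := by
    rw [hDσ]
    exact hσ
  have hne : D.c₀ ∉ D.I := by
    rw [hDI, hDc]
    exact hne0
  have hDX : D.X = XS (J * b) c₀ := by
    unfold Ctx.X
    rw [hDI, hDc]
  rw [← hDX] at hT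
  have h0X : (0 : 𝓞 K) ∉ D.X := fun h => D.X_ne hne h rfl
  have hact : ∀ v : (𝓞 K)ˣ, (v : 𝓞 K) - 1 ∈ J → ((v : 𝓞 K) - 1) * D.c₀ ∈ D.I := by
    intro v hv
    rw [hDI, hDc]
    exact Ideal.mul_mem_mul hv hc
  have hu : D.UOk u := ⟨fun j => hact _ (hJ'J (hu1 j)),
    fun j => H55N.norm_one D hσ' (u j) (hJ3 (hJ'J (hu1 j))), delta_ne D hσ' u hu4⟩
  obtain ⟨ν, hν, hT2⟩ := finite_change J J' hJ'0 hJ'J D.X h0X (by
    intro v hv x hx
    have h1 : (v : 𝓞 K) * x - D.c₀ = ((v : 𝓞 K) - 1) * D.c₀ + v * (x - D.c₀) := by ring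
    rw [D.mem_X, h1]
    exact D.I.add_mem (hact v hv) (D.I.mul_mem_left _ hx))
  obtain ⟨T', hT', hφ⟩ := hT2 T hT
  obtain ⟨a, b', ha, hab⟩ := U4_tt_bd (D.lm u)
  obtain ⟨C, hC⟩ := cube_bdd D hσ' hne c.asIdeal c.ne_bot (by rw [hDI]; exact hcc) a b' ha
  obtain ⟨δ, hδ, hlow⟩ := cst_low (D.lm u) (lm_sum D u hu) hu.reg
  have hinv : ∀ v : (𝓞 K)ˣ, ∏ i, D.σ i ((v : 𝓞 K) : K) = 1 → ∀ x : 𝓞 K,
      D.N ((v : 𝓞 K) * x) = D.N x := by
    intro v hv x
    rw [D12_Nmul]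
    have : D.N (v : 𝓞 K) = 1 := hv
    rw [this, one_mul]
  have hunf := fun s' : ℂ => H55N.unfold D hσ' hne u hu
    (fun x => wt c.asIdeal x * (D.N x / (‖D.N x‖ : ℂ)))
    ⟨1 + Ideal.absNorm c.asIdeal, fun x => by
      rw [norm_mul]
      refine (mul_le_of_le_one_right (norm_nonneg _) ?_).trans (D12_wt_bd _ _)
      rw [norm_div, Complex.norm_real, norm_norm]
      exact div_self_le_one _⟩
    (fun x _ z => by
      show wt c.asIdeal ((uu u z : 𝓞 K) * x) * (D.N ((uu u z : 𝓞 K) * x) /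
        (‖D.N ((uu u z : 𝓞 K) * x)‖ : ℂ)) = wt c.asIdeal x * (D.N x / (‖D.N x‖ : ℂ))
      rw [D12_wt, hinv _ (uu_act D u hu z).2.1])
    T' hT'.sub (Z3_bij h0X hT' u hu2 hu3) s'
  refine ⟨C / δ / ν, fun s hs => ?_⟩
  obtain ⟨hs1, hs2⟩ := hs
  obtain ⟨hsum, hint⟩ := hunf ((s + 1 / 2 : ℝ) : ℂ) (by rw [Complex.ofReal_re]; linarith)
  have hterm : ∀ x : T', wt c.asIdeal (x : 𝓞 K) * (D.N (x : 𝓞 K) / (‖D.N (x : 𝓞 K)‖ : ℂ)) *
      nf ((s + 1 / 2 : ℝ) : ℂ) (x : 𝓞 K) =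
      wt c.asIdeal (x : 𝓞 K) * ((nn (x : 𝓞 K) ^ (-2 * s) : ℝ) : ℂ) := by
    intro x
    rw [mul_assoc, D12_nf D hσ' s (D.X_ne hne (hT'.sub x.2))]
  have hsum' : Summable fun x : T' => wt c.asIdeal (x : 𝓞 K) *
      ((nn (x : 𝓞 K) ^ (-2 * s) : ℝ) : ℂ) := by
    refine (hsum.of_norm).congr fun x => ?_
    exact hterm x
  have hhas := hsum'.hasSum
  refine ⟨(∑' x : T', wt c.asIdeal (x : 𝓞 K) * ((nn (x : 𝓞 K) ^ (-2 * s) : ℝ) : ℂ)) / ν, ?_, ?_⟩
  · have hν0 : (0 : ℝ) < ν := by exact_mod_cast hν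
    rw [norm_div, Complex.norm_natCast]
    refine div_le_div_of_nonneg_right ?_ hν0.le
    rw [le_div_iff₀ hδ]
    have h1 : (∑' x : T', wt c.asIdeal (x : 𝓞 K) * (D.N (x : 𝓞 K) / (‖D.N (x : 𝓞 K)‖ : ℂ)) *
      nf ((s + 1 / 2 : ℝ) : ℂ) (x : 𝓞 K)) =
        ∑' x : T', wt c.asIdeal (x : 𝓞 K) * ((nn (x : 𝓞 K) ^ (-2 * s) : ℝ) : ℂ) :=
      tsum_congr hterm
    have h2 : ‖∑' x : T', wt c.asIdeal (x : 𝓞 K) * ((nn (x : 𝓞 K) ^ (-2 * s) : ℝ) : ℂ)‖ *
        ‖cst (D.lm u) ((s + 1 / 2 : ℝ) : ℂ)‖ ≤ C := by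
      rw [← norm_mul, ← h1, hint]
      have h3 := MeasureTheory.norm_setIntegral_le_of_norm_le_const (C := C)
        (μ := MeasureTheory.volume) (s := Set.Icc (0 : Fin m → ℝ) 1)
        (f := fun z => ∑' x : D.X, wt c.asIdeal (x : 𝓞 K) *
          (D.N (x : 𝓞 K) / (‖D.N (x : 𝓞 K)‖ : ℂ)) *
            D.fs (tt (D.lm u) z) ((s + 1 / 2 : ℝ) : ℂ) x)
        (by
          rw [Real.volume_Icc_pi]
          simp) (by
          intro z hz
          have hz2 := hab z hz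
          have h4 := hC (tt (D.lm u) z) hz2 (s + 1 / 2) ⟨by linarith, by linarith⟩
          refine (le_of_eq ?_).trans h4
          congr 1
          refine tsum_congr fun x => ?_
          rw [mul_assoc, D12_fs D (tt (D.lm u) z) (fun i => ha.trans_le (hz2 i).1) (s + 1 / 2)
            (D.X_ne hne x.2)])
      refine h3.trans (le_of_eq ?_)
      have h5 : MeasureTheory.volume.real (Set.Icc (0 : Fin m → ℝ) 1) = 1 := by
        rw [MeasureTheory.measureReal_def, Real.volume_Icc_pi]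
        simp
      rw [h5, mul_one]
    exact (mul_le_mul_of_nonneg_left (hlow (s + 1 / 2) ⟨by linarith, by linarith⟩)
      (norm_nonneg _)).trans h2
  · refine hφ (fun x => wt c.asIdeal x * ((nn x ^ (-2 * s) : ℝ) : ℂ)) _ ?_ hhas
    intro v hv x _
    have h1 : nn ((v : 𝓞 K) * x) = nn x := by
      rw [D12_nn D hσ', D12_nn D hσ', hinv v (H55N.norm_one D hσ' v (hJ3 hv))]
    show wt c.asIdeal ((v : 𝓞 K) * x) * ((nn ((v : 𝓞 K) * x) ^ (-2 * s) : ℝ) : ℂ) = _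
    rw [D12_wt, h1]

end H55R
end

-- from Lib.H55R.D13
section

open NumberField IsDedekindDomain

namespace H55R

open H55B H55N

/-- The L-series of a nontrivial ray class character is bounded near 1. -/
theorem bdd {K : Type} [Field K] [NumberField K] [Algebra F K] (f : Ideal (𝓞 K)) (hf : f ≠ ⊥)
    (φ : Pl K → ℂˣ) (hφ : φ ∈ RC f) (hn : ∀ v, ‖(φ v : ℂ)‖ = 1) (h1 : φ ≠ 1) :
    ∃ C : ℝ, ∀ s ∈ Set.Ioc (1 : ℝ) 2, ‖Ls (tI f φ) s‖ ≤ C := by
  classical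
  obtain ⟨C₁, hC₁, hmod⟩ := change_mod f hf φ hn
  obtain ⟨ι, _, b, c₀, T, hCD⟩ := exists_CD f hf
  have h3 : (Ideal.span {(3 : 𝓞 K)}) ≠ ⊥ := by
    rw [Ne, Ideal.span_singleton_eq_bot]
    exact OfNat.ofNat_ne_zero 3
  set J : Ideal (𝓞 K) := Ideal.span {3} * f with hJ
  have hJ0 : J ≠ ⊥ := mul_ne_zero h3 hf
  have hg : J * ∏ i, b i ≠ ⊥ := mul_ne_zero hJ0 (Finset.prod_ne_zero_iff.2 fun i _ => hCD.ne i)
  obtain ⟨c, hcf, hcg, hφc⟩ := exists_prime f hf φ hφ h1 _ hg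
  have hcmax : c.asIdeal.IsMaximal := c.isPrime.isMaximal c.ne_bot
  have hcop : ∀ I : Ideal (𝓞 K), ¬ I ≤ c.asIdeal → IsCoprime I c.asIdeal := by
    intro I hI
    rw [Ideal.isCoprime_iff_sup_eq]
    by_contra hne
    obtain ⟨M, hM, hle⟩ := Ideal.exists_le_maximal _ hne
    have h4 : c.asIdeal = M := hcmax.eq_of_le hM.ne_top (le_sup_right.trans hle)
    exact hI (h4 ▸ le_sup_left.trans hle)
  have hJc : ¬ J ≤ c.asIdeal := fun h => hcg (Ideal.mul_le_left.trans h)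
  have hbc : ∀ i, ¬ b i ≤ c.asIdeal := fun i h => hcg
    (Ideal.mul_le_right.trans ((Ideal.prod_le_inf.trans (Finset.inf_le (Finset.mem_univ i))).trans h))
  have hcJ : IsCoprime J c.asIdeal := hcop J hJc
  have hcb : ∀ i, IsCoprime (b i) c.asIdeal := fun i => hcop _ (hbc i)
  choose κ hκ using fun i => term_class f (b i) hf (hCD.ne i) φ hφ (hCD.cop i) (c₀ i) (hCD.mem i)
    (hCD.prim i)
  choose C hC using fun i => class_bdd f (b i) hf (hCD.ne i) (c₀ i) (hCD.mem i) (hCD.prim i) c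
    ((hcJ.mul_left (hcb i))) (T i) (hCD.trans i)
  have hh : ∀ a, ‖tI J φ a‖ ≤ 1 := dd_norm_tI J φ hn
  have htc : tI J φ c.asIdeal = (φ c : ℂ) := by
    rw [tI_apply J φ c.ne_bot hcJ.symm, pv_prime]
  obtain ⟨δ, hδ, hlow⟩ := fac_low (Ideal.absNorm c.asIdeal) (dd_two_le c) (φ c : ℂ) (hn c)
    (fun h => hφc (Units.ext h))
  refine ⟨C₁ * ((∑ i, ‖κ i‖ * ((Ideal.absNorm (b i) : ℝ) ^ (2 : ℝ)) * C i) / δ), fun s hs => ?_⟩
  refine (hmod s hs).trans (mul_le_mul_of_nonneg_left ?_ hC₁.le)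
  rw [le_div_iff₀ hδ]
  -- the smoothed series
  have hsum := dd_tm_summable (tI J φ) hh s hs.1
  have hsm := smooth_sum (tmH (tI J φ) s) hsum (fun _ : Unit => c.asIdeal)
    (fun _ => c.isPrime) (fun _ => c.ne_bot) (fun _ _ _ => rfl)
    (fun _ => (Ideal.absNorm c.asIdeal : ℂ))
  simp only [Finset.univ_unique, Finset.prod_singleton] at hsm
  choose Z hZ1 hZ2 using fun i => hC i s hs
  have hcd := cd_hasSum f ι b c₀ T hCD
    (fun a => tm (tI J φ) s a *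
      (if a ≤ c.asIdeal then 1 - (Ideal.absNorm c.asIdeal : ℂ) else 1))
    (fun a ha => by
      by_contra hne
      apply ha
      have h5 : tI J φ a = 0 := if_neg hne
      show tI J φ a * _ * _ = 0
      rw [h5, zero_mul, zero_mul])
    (fun i x => κ i * (((Ideal.absNorm (b i) : ℝ) ^ s : ℝ) : ℂ) *
            (wt c.asIdeal x * ((nn x ^ (-2 * s) : ℝ) : ℂ)))
    (fun i x hx a hab => hκ i c (hcb i) x ((hCD.trans i).sub hx) a hab s)
    (fun i => κ i * (((Ideal.absNorm (b i) : ℝ) ^ s : ℝ) : ℂ) * Z i)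
    (fun i => (hZ2 i).mul_left _)
  have heq : (1 - (Ideal.absNorm c.asIdeal : ℂ) * tmH (tI J φ) s c.asIdeal) *
      ∑' a, tmH (tI J φ) s a = ∑ i, κ i * (((Ideal.absNorm (b i) : ℝ) ^ s : ℝ) : ℂ) * Z i :=
    hsm.unique hcd
  have hk : tmH (tI J φ) s c.asIdeal = (φ c : ℂ) * (Ideal.absNorm c.asIdeal : ℂ) ^ (-(s : ℂ)) := by
    show tI J φ c.asIdeal * _ = _
    rw [htc]
  have hL : ∑' a, tmH (tI J φ) s a = Ls (tI J φ) s := rfl
  rw [hk, hL] at heq
  calc ‖Ls (tI J φ) s‖ * δ ≤ ‖Ls (tI J φ) s‖ * ‖1 - (Ideal.absNorm c.asIdeal : ℂ) *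
        ((φ c : ℂ) * (Ideal.absNorm c.asIdeal : ℂ) ^ (-(s : ℂ)))‖ :=
        mul_le_mul_of_nonneg_left (hlow s ⟨hs.1.le, hs.2⟩) (norm_nonneg _)
    _ = ‖∑ i, κ i * (((Ideal.absNorm (b i) : ℝ) ^ s : ℝ) : ℂ) * Z i‖ := by
        rw [mul_comm, ← norm_mul, heq]
    _ ≤ ∑ i, ‖κ i * (((Ideal.absNorm (b i) : ℝ) ^ s : ℝ) : ℂ) * Z i‖ := norm_sum_le _ _
    _ ≤ ∑ i, ‖κ i‖ * ((Ideal.absNorm (b i) : ℝ) ^ (2 : ℝ)) * C i := by
        refine Finset.sum_le_sum fun i _ => ?_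
        have hb1 : (1 : ℝ) ≤ (Ideal.absNorm (b i) : ℝ) := by
          have h6 : Ideal.absNorm (b i) ≠ 0 := fun h => hCD.ne i (Ideal.absNorm_eq_zero_iff.1 h)
          exact_mod_cast Nat.one_le_iff_ne_zero.2 h6
        rw [norm_mul, norm_mul, Complex.norm_real, Real.norm_of_nonneg (by positivity)]
        refine mul_le_mul (mul_le_mul_of_nonneg_left ?_ (norm_nonneg _)) (hZ1 i) (norm_nonneg _)
          (by positivity)
        exact Real.rpow_le_rpow_of_exponent_le hb1 hs.2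

end H55R
end

-- from Lib.H55R.Den
section

/-!
# H55R: the two density theorems (part AN, designer: helper28). Interface of part X.
-/

open NumberField IsDedekindDomain

namespace H55R

open H55B

theorem den_trivial {K : Type} [Field K] [NumberField K] (f : Ideal (𝓞 K)) (s : ℝ) (hs : 1 < s) :
    ‖Ls (tI f (1 : Pl K → ℂˣ)) s‖ ≤ ∑' a : Ideal (𝓞 K), (Ideal.absNorm a : ℝ) ^ (-s) := by
  have h1 : ∀ a, ‖tI f (1 : Pl K → ℂˣ) a‖ ≤ 1 :=
    dd_norm_tI f 1 fun v => by rw [Pi.one_apply, Units.val_one, norm_one]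
  have h2 := dd_tm_summable (tI f (1 : Pl K → ℂˣ)) h1 s hs
  refine (norm_tsum_le_tsum_norm h2).trans ?_
  refine h2.tsum_le_tsum (fun a => ?_) (H55N.ideal_summable (K := K) s hs)
  rw [dd_norm_tm _ s (by linarith) a]
  exact mul_le_of_le_one_left (by positivity) (h1 a)

/-- Primes in the kernel of a finite group of ray class characters. -/
theorem density_ker {K : Type} [Field K] [NumberField K] [Algebra F K] (f : Ideal (𝓞 K))
    (hf : f ≠ ⊥) (hf' : f ≠ ⊤) (Y : Subgroup (Pl K → ℂˣ)) [Finite Y] (hY : Y ≤ RC f) :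
    ∃ C : ℝ, ∀ s ∈ Set.Ioc (1 : ℝ) 2, PS {v : Pl K | ¬ f ≤ v.asIdeal ∧ ∀ φ ∈ Y, φ v = 1} s ≤
      (1 / Nat.card Y : ℝ) * Real.log (1 / (s - 1)) + C := by
  classical
  have := Fintype.ofFinite Y
  obtain ⟨C₂, hC₂⟩ := log_cmp K
  obtain ⟨C₃, hC₃⟩ := zeta_log K
  have hb : ∀ φ : Y, ∃ B : ℝ, ∀ s ∈ Set.Ioc (1 : ℝ) 2,
      ∑' v : Pl K, (tI f (φ : Pl K → ℂˣ) v.asIdeal).re * (Ideal.absNorm v.asIdeal : ℝ) ^ (-s) ≤
        (if φ = 1 then Real.log (1 / (s - 1)) else 0) + B := by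
    intro φ
    have hn := dd_norm_Y Y φ.1 φ.2
    have hh := dd_norm_tI f φ.1 hn
    by_cases h1 : φ = 1
    · subst h1
      refine ⟨C₂ + C₃, fun s hs => ?_⟩
      have e1 := (abs_le.1 (hC₂ (tI f ((1 : Y) : Pl K → ℂˣ)) hh s hs)).2
      obtain ⟨e2, e3⟩ := hC₃ s hs
      have e4 := (abs_le.1 e3).2
      have e5 := (euler (tI f ((1 : Y) : Pl K → ℂˣ)) hh s hs.1).1
      have e6 := Real.log_le_log (norm_pos_iff.2 e5) (den_trivial f s hs.1)
      rw [if_pos rfl]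
      linarith
    · have h2 : φ.1 ≠ 1 := fun h => h1 (Subtype.ext h)
      obtain ⟨B, hB⟩ := bdd f hf φ.1 (hY φ.2) hn h2
      refine ⟨C₂ + Real.log B, fun s hs => ?_⟩
      have e1 := (abs_le.1 (hC₂ (tI f φ.1) hh s hs)).2
      have e5 := (euler (tI f φ.1) hh s hs.1).1
      have e6 := Real.log_le_log (norm_pos_iff.2 e5) (hB s hs)
      rw [if_neg h1]
      linarith
  choose B hB using hb
  refine ⟨(1 / Nat.card Y : ℝ) * ∑ φ, B φ, fun s hs => ?_⟩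
  have hc : (0 : ℝ) < Nat.card Y := by exact_mod_cast Nat.card_pos
  have h1 := orth f Y s hs.1
  have h2 : (Nat.card Y : ℝ) * PS {v : Pl K | ¬ f ≤ v.asIdeal ∧ ∀ φ ∈ Y, φ v = 1} s ≤
      Real.log (1 / (s - 1)) + ∑ φ, B φ := by
    rw [h1]
    refine (Finset.sum_le_sum fun φ _ => hB φ s hs).trans (le_of_eq ?_)
    rw [Finset.sum_add_distrib, Finset.sum_ite_eq' Finset.univ (1 : Y)]
    simp
  have h3 : PS {v : Pl K | ¬ f ≤ v.asIdeal ∧ ∀ φ ∈ Y, φ v = 1} s =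
      (1 / Nat.card Y : ℝ) *
        ((Nat.card Y : ℝ) * PS {v : Pl K | ¬ f ≤ v.asIdeal ∧ ∀ φ ∈ Y, φ v = 1} s) := by
    field_simp
  rw [h3, ← mul_add]
  exact mul_le_mul_of_nonneg_left h2 (by positivity)

/-- Completely split primes. -/
theorem density_split (K L : Type) [Field K] [NumberField K] [Field L] [NumberField L]
    [Algebra K L] [IsGalois K L] :
    ∃ C : ℝ, ∀ s ∈ Set.Ioc (1 : ℝ) 2,
      |PS {v : Pl K | Spl K L v} s - (1 / Module.finrank K L : ℝ) * Real.log (1 / (s - 1))| ≤ C := by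
  obtain ⟨C₁, hC₁⟩ := split_cmp K L
  obtain ⟨C₂, hC₂⟩ := log_cmp L
  obtain ⟨C₃, hC₃⟩ := zeta_log L
  have hfr : (0 : ℝ) < Module.finrank K L := by exact_mod_cast Module.finrank_pos
  refine ⟨(1 / Module.finrank K L : ℝ) * (C₁ + C₂ + C₃), fun s hs => ?_⟩
  -- the trivial character of L
  have hn : ∀ v : Pl L, ‖((1 : Pl L → ℂˣ) v : ℂ)‖ = 1 := fun v => by
    rw [Pi.one_apply, Units.val_one, norm_one]
  have hh := dd_norm_tI ⊤ (1 : Pl L → ℂˣ) hn
  have hval : ∀ a : Ideal (𝓞 L), a ≠ ⊥ → tI ⊤ (1 : Pl L → ℂˣ) a = 1 := by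
    intro a ha
    rw [tI_apply ⊤ 1 ha (by rw [← Ideal.one_eq_top]; exact isCoprime_one_right), pv_one_fun,
      Units.val_one]
  have e1 := hC₂ (tI ⊤ (1 : Pl L → ℂˣ)) hh s hs
  have e2 : ∑' v : Pl L, (tI ⊤ (1 : Pl L → ℂˣ) v.asIdeal).re *
      (Ideal.absNorm v.asIdeal : ℝ) ^ (-s) =
      ∑' W : Pl L, (Ideal.absNorm W.asIdeal : ℝ) ^ (-s) := by
    refine tsum_congr fun W => ?_
    rw [hval _ W.ne_bot, Complex.one_re, one_mul]
  have e3 : Ls (tI ⊤ (1 : Pl L → ℂˣ)) s =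
      ((∑' a : Ideal (𝓞 L), (Ideal.absNorm a : ℝ) ^ (-s) : ℝ) : ℂ) := by
    unfold Ls
    rw [Complex.ofReal_tsum]
    refine tsum_congr fun a => ?_
    unfold H55N.tm
    rw [Complex.ofReal_cpow (Nat.cast_nonneg _)]
    by_cases ha : a = ⊥
    · subst ha
      have : tI ⊤ (1 : Pl L → ℂˣ) ⊥ = 0 := map_zero _
      rw [this, zero_mul, Ideal.absNorm_bot]
      have hs0 : (-(s : ℂ)) ≠ 0 := by
        rw [neg_ne_zero, Complex.ofReal_ne_zero]
        linarith [hs.1]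
      simp [Complex.zero_cpow hs0]
    · rw [hval a ha, one_mul]
      push_cast
      rfl
  obtain ⟨e4, e5⟩ := hC₃ s hs
  rw [e2, e3, Complex.norm_real, Real.norm_of_nonneg e4.le] at e1
  have e6 := hC₁ s hs
  rw [abs_le] at *
  obtain ⟨a1, a2⟩ := e1
  obtain ⟨b1, b2⟩ := e5
  obtain ⟨c1, c2⟩ := e6
  have key : PS {v : Pl K | Spl K L v} s - (1 / Module.finrank K L : ℝ) * Real.log (1 / (s - 1)) =
      (1 / Module.finrank K L : ℝ) * (Module.finrank K L * PS {v : Pl K | Spl K L v} s -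
        Real.log (1 / (s - 1))) := by
    field_simp
  rw [key, ← mul_neg]
  have hp : (0 : ℝ) ≤ 1 / Module.finrank K L := by positivity
  constructor
  · exact mul_le_mul_of_nonneg_left (by linarith) hp
  · exact mul_le_mul_of_nonneg_left (by linarith) hp

end H55R
end

-- from Lib.H55P.N2
section

open NumberField IsDedekindDomain

namespace H55P

open H55N
open H55B (g)

variable {F : Type} [Field F] [NumberField F] [IQ F] {K : Type} [Field K] [NumberField K]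
  [Algebra F K] {m : ℕ}

/-! Chunk PN2 (M), PORT of Lib/H55R/D11.lean (cube_bdd), with Ctx F K m, Emb F and the files H55P/U3, U4, B2 in place of H55N. -/

theorem pn2_dif {M : Type} [AddCommGroup M] (w : M) (h : M → ℂ) (x : M) :
    Dif (fun _ : Unit => -w) Finset.univ h x = h x - h (x + w) := by
  unfold Dif
  have h1 : (Finset.univ : Finset Unit).powerset = {∅, {()}} := by decide
  rw [h1, Finset.sum_pair (by decide)]
  simp only [Finset.card_empty, pow_zero, Finset.sum_empty, sub_zero, one_mul,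
    Finset.card_singleton, pow_one, Finset.sum_singleton, sub_neg_eq_add]
  ring

theorem cube_bddF (D : Ctx F K m)
    (hE : Emb F D.σ) (h0 : D.c₀ ∉ D.I) (c : Ideal (𝓞 K)) (hc : c ≠ ⊥) (hcI : IsCoprime D.I c)
    (a b : ℝ) (ha : 0 < a) :
    ∃ C : ℝ, ∀ t : Fin (m + 1) → ℝ, (∀ i, a ≤ t i ∧ t i ≤ b) → ∀ s ∈ Set.Ioc (3 / 2 : ℝ) (5 / 2),
      ‖∑' x : D.X, H55R.wt c (x : 𝓞 K) * ((‖D.fs t (s : ℂ) (x : 𝓞 K)‖ : ℝ) : ℂ)‖ ≤ C := by
  classical
  have hfin : Finite (𝓞 K ⧸ c) := Ideal.finiteQuotientOfFreeOfNeBot c hc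
  have hft := Fintype.ofFinite (𝓞 K ⧸ c)
  have hq : Fintype.card (𝓞 K ⧸ c) = Ideal.absNorm c := by
    rw [Ideal.absNorm_apply, Submodule.cardQuot_apply, Nat.card_eq_fintype_card]
  have hr : ∀ k : 𝓞 K ⧸ c, ∃ r ∈ D.I, Ideal.Quotient.mk c r = k := by
    intro k
    obtain ⟨y, rfl⟩ := Ideal.Quotient.mk_surjective k
    obtain ⟨i, hi, j, hj, hij⟩ := Ideal.isCoprime_iff_exists.1 hcI
    refine ⟨i * y, D.I.mul_mem_right _ hi, ?_⟩
    rw [Ideal.Quotient.eq]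
    have h1 : i * y - y = -(j * y) := by linear_combination y * hij
    rw [h1]
    exact c.neg_mem (c.mul_mem_right _ hj)
  choose r hrI hrk using hr
  choose Ck hCk0 hCk using fun k => U4_bound (ι := Unit) D hE D.I h0 (fun _ => -r k)
    (fun _ => D.I.neg_mem (hrI k)) a b ha (3 / 2) (5 / 2) (by norm_num)
  obtain ⟨e, he⟩ : ∃ e : ℝ, e = U4_e m (Fintype.card Unit) (3 / 2) := ⟨_, rfl⟩
  have he2 : 2 * (m + 1 : ℝ) < e := by
    rw [he]
    unfold U4_e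
    rw [Fintype.card_unit]
    push_cast
    linarith
  have hsz := sum_sz D hE e he2
  -- the bijection
  let Y : Set (𝓞 K) := {x | x ∈ D.X ∧ x ∈ c}
  let E : Y × (𝓞 K ⧸ c) → D.X := fun p => ⟨(p.1 : 𝓞 K) + r p.2, D.X_add p.1.2.1 (hrI p.2)⟩
  have hmk : ∀ y : Y, Ideal.Quotient.mk c (y : 𝓞 K) = 0 := fun y =>
    Ideal.Quotient.eq_zero_iff_mem.2 y.2.2
  have hE' : Function.Bijective E := by
    constructor
    · rintro ⟨y, k⟩ ⟨y', k'⟩ h
      have h1 : (y : 𝓞 K) + r k = (y' : 𝓞 K) + r k' := congrArg Subtype.val h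
      have h2 : k = k' := by
        have h3 := congrArg (Ideal.Quotient.mk c) h1
        rwa [map_add, map_add, hmk, hmk, hrk, hrk, zero_add, zero_add] at h3
      subst h2
      have h3 : y = y' := Subtype.ext (add_right_cancel h1)
      rw [h3]
    · rintro ⟨x, hx⟩
      have h1 : x - r (Ideal.Quotient.mk c x) ∈ c := by
        rw [← Ideal.Quotient.eq, hrk]
      refine ⟨(⟨x - r (Ideal.Quotient.mk c x), D.X_sub hx (hrI _), h1⟩, Ideal.Quotient.mk c x), ?_⟩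
      apply Subtype.ext
      show x - r (Ideal.Quotient.mk c x) + r (Ideal.Quotient.mk c x) = x
      ring
  let E' : Y × (𝓞 K ⧸ c) ≃ D.X := Equiv.ofBijective E hE'
  have hwt : ∀ p : Y × (𝓞 K ⧸ c), H55R.wt c ((E p : 𝓞 K)) =
      if p.2 = 0 then 1 - (Ideal.absNorm c : ℂ) else 1 := by
    rintro ⟨y, k⟩
    have h1 : (y : 𝓞 K) + r k ∈ c ↔ k = 0 := by
      rw [← Ideal.Quotient.eq_zero_iff_mem, map_add, hmk, hrk, zero_add]
    show (if (y : 𝓞 K) + r k ∈ c then 1 - (Ideal.absNorm c : ℂ) else 1) = _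
    by_cases h : k = 0
    · rw [if_pos (h1.2 h), if_pos h]
    · rw [if_neg (fun h' => h (h1.1 h')), if_neg h]
  refine ⟨(∑ k, (Ck k + Ck 0)) * ∑' x : 𝓞 K, D.sz x ^ (-e), ?_⟩
  intro t ht s hs
  obtain ⟨hs1, hs2⟩ := hs
  have hsum := fs_summable D hE h0 t (fun i => ha.trans_le (ht i).1) (s : ℂ)
    (by rw [Complex.ofReal_re]; exact hs1)
  let H : 𝓞 K → ℝ := fun x => ‖D.fs t (s : ℂ) x‖
  have hdiff : ∀ k, ∀ y : Y, |H ((y : 𝓞 K) + r k) - H y| ≤ Ck k * D.sz (y : 𝓞 K) ^ (-e) := by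
    intro k y
    have h1 := hCk k t ht (s : ℂ) (by rw [Complex.ofReal_re]; exact hs1.le)
      (by rw [Complex.norm_real, Real.norm_of_nonneg (by linarith)]; exact hs2) y y.2.1
    rw [pn2_dif, ← he] at h1
    refine le_trans ?_ h1
    rw [norm_sub_rev]
    exact abs_norm_sub_norm_le _ _
  have hS : Summable fun x : D.X => H55R.wt c (x : 𝓞 K) * ((H (x : 𝓞 K) : ℝ) : ℂ) := by
    refine Summable.of_norm_bounded (hsum.mul_left (1 + (Ideal.absNorm c : ℝ))) fun x => ?_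
    rw [norm_mul, Complex.norm_real, Real.norm_of_nonneg (norm_nonneg _)]
    refine mul_le_mul_of_nonneg_right ?_ (norm_nonneg _)
    unfold H55R.wt
    split_ifs
    · refine (norm_sub_le _ _).trans ?_
      rw [NormOneClass.norm_one, Complex.norm_natCast]
    · rw [NormOneClass.norm_one]
      have : (0 : ℝ) ≤ Ideal.absNorm c := Nat.cast_nonneg _
      linarith
  have hS2 : Summable fun p : Y × (𝓞 K ⧸ c) => H55R.wt c ((E' p : D.X) : 𝓞 K) *
      ((H ((E' p : D.X) : 𝓞 K) : ℝ) : ℂ) := (Equiv.summable_iff E').2 hS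
  have h1 : ∑' x : D.X, H55R.wt c (x : 𝓞 K) * ((H (x : 𝓞 K) : ℝ) : ℂ) =
      ∑' y : Y, ∑ k, ((H ((y : 𝓞 K) + r k) - H ((y : 𝓞 K) + r 0) : ℝ) : ℂ) := by
    rw [← Equiv.tsum_eq E', hS2.tsum_prod]
    refine tsum_congr fun y => ?_
    rw [tsum_fintype]
    have h2 : ∀ k : 𝓞 K ⧸ c, H55R.wt c ((E' (y, k) : D.X) : 𝓞 K) * ((H ((E' (y, k) : D.X) : 𝓞 K) : ℝ) : ℂ) =
        ((H ((y : 𝓞 K) + r k) : ℝ) : ℂ) -
          if k = 0 then (Ideal.absNorm c : ℂ) * ((H ((y : 𝓞 K) + r 0) : ℝ) : ℂ) else 0 := by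
      intro k
      have h3 := hwt (y, k)
      have h4 : H55R.wt c ((E' (y, k) : D.X) : 𝓞 K) = if k = 0 then 1 - (Ideal.absNorm c : ℂ) else 1 := h3
      rw [h4]
      have h5 : ((E' (y, k) : D.X) : 𝓞 K) = (y : 𝓞 K) + r k := rfl
      rw [h5]
      by_cases h : k = 0
      · rw [if_pos h, if_pos h, h]
        ring
      · rw [if_neg h, if_neg h]
        ring
    rw [Finset.sum_congr rfl fun k _ => h2 k, Finset.sum_sub_distrib, Finset.sum_ite_eq',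
      if_pos (Finset.mem_univ _)]
    push_cast
    rw [Finset.sum_sub_distrib, Finset.sum_const, Finset.card_univ, hq, nsmul_eq_mul]
  have hbd : ∀ y : Y, ‖∑ k, ((H ((y : 𝓞 K) + r k) - H ((y : 𝓞 K) + r 0) : ℝ) : ℂ)‖ ≤
      (∑ k, (Ck k + Ck 0)) * D.sz (y : 𝓞 K) ^ (-e) := by
    intro y
    rw [Finset.sum_mul]
    refine (norm_sum_le _ _).trans (Finset.sum_le_sum fun k _ => ?_)
    rw [Complex.norm_real, Real.norm_eq_abs, add_mul]
    have h2 := hdiff k y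
    have h3 := hdiff 0 y
    rw [abs_le] at h2 h3 ⊢
    constructor <;> linarith [h2.1, h2.2, h3.1, h3.2]
  have hszY : Summable fun y : Y => D.sz (y : 𝓞 K) ^ (-e) :=
    hsz.comp_injective Subtype.val_injective
  have hszY' := hszY.mul_left (∑ k, (Ck k + Ck 0))
  have hC0 : 0 ≤ ∑ k, (Ck k + Ck 0) := Finset.sum_nonneg fun k _ => add_nonneg (hCk0 k) (hCk0 0)
  calc ‖∑' x : D.X, H55R.wt c (x : 𝓞 K) * ((‖D.fs t (s : ℂ) (x : 𝓞 K)‖ : ℝ) : ℂ)‖
      = ‖∑' y : Y, ∑ k, ((H ((y : 𝓞 K) + r k) - H ((y : 𝓞 K) + r 0) : ℝ) : ℂ)‖ := by rw [← h1]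
    _ ≤ ∑' y : Y, (∑ k, (Ck k + Ck 0)) * D.sz (y : 𝓞 K) ^ (-e) :=
        tsum_of_norm_bounded hszY'.hasSum hbd
    _ = (∑ k, (Ck k + Ck 0)) * ∑' y : Y, D.sz (y : 𝓞 K) ^ (-e) := tsum_mul_left
    _ ≤ (∑ k, (Ck k + Ck 0)) * ∑' x : 𝓞 K, D.sz x ^ (-e) := by
        refine mul_le_mul_of_nonneg_left ?_ hC0
        exact hsz.tsum_subtype_le _ _ (fun x => Real.rpow_nonneg (D.sz_pos x).le _)

end H55P
end

-- from Lib.H55P.N3
section

open NumberField IsDedekindDomain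

namespace H55P

open H55N
open H55B (g)

variable {F : Type} [Field F] [NumberField F] [IQ F] {K : Type} [Field K] [NumberField K]
  [Algebra F K] {m : ℕ}

/-! Chunk PN3 (M/L), PORT of Lib/H55R/D12.lean (class_bdd). J = (3) f, J' = (2) J c; units_basis of H55P/D1.lean with htf = H55N.D1_six (H55N/D1.lean; J' <= (6)); norm_one3 in place of norm_one (J <= (3));
delta_ne, finite_change, unfold, fs_summable, uu_act of H55P; Z3_bij of H55N/Core.lean has [Algebra F K] of the old F: copy it (it does not use F) as pn3_bij. -/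

theorem pn3_fin (F : Type) [Field F] [NumberField F] {K : Type} [Field K] [NumberField K]
    [Algebra F K] : ∃ m : ℕ, Module.finrank F K = m + 1 := by
  have : IsScalarTower ℚ F K := IsScalarTower.of_algebraMap_eq' (Subsingleton.elim _ _)
  have : Module.Finite F K := Module.Finite.of_restrictScalars_finite ℚ F K
  have h : 0 < Module.finrank F K := Module.finrank_pos
  exact ⟨Module.finrank F K - 1, by omega⟩

omit [Algebra F K] in
theorem pn3_bij {J' : Ideal (𝓞 K)} {X T : Set (𝓞 K)} (h0 : (0 : 𝓞 K) ∉ X) (hT : Transv J' X T)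
    (u : Fin m → (𝓞 K)ˣ) (hu2 : ∀ z, (uu u z : 𝓞 K) - 1 ∈ J')
    (hu3 : ∀ v : (𝓞 K)ˣ, (v : 𝓞 K) - 1 ∈ J' → ∃! z : Fin m → ℤ, v = uu u z) :
    ∀ x ∈ X, ∃! q : (Fin m → ℤ) × T, x = (uu u q.1 : 𝓞 K) * q.2 := by
  intro x hx
  obtain ⟨r, hr, v, hv, hxv⟩ := hT.cover x hx
  obtain ⟨z, hz, hzu⟩ := hu3 v hv
  refine ⟨(z, ⟨r, hr⟩), ?_, ?_⟩
  · simp only
    rw [← hz]
    exact hxv
  · rintro ⟨z', r'⟩ h'
    simp only at h'
    have e1 : (r' : 𝓞 K) = (((uu u z')⁻¹ * v : (𝓞 K)ˣ) : 𝓞 K) * r := by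
      rw [Units.val_mul, mul_assoc, ← hxv, h', Units.inv_mul_cancel_left]
    have e2 : (((uu u z')⁻¹ * v : (𝓞 K)ˣ) : 𝓞 K) - 1 ∈ J' := by
      have e3 : (((uu u z')⁻¹ * v : (𝓞 K)ˣ) : 𝓞 K) - 1 =
          (((uu u z')⁻¹ : (𝓞 K)ˣ) : 𝓞 K) * (((v : 𝓞 K) - 1) - ((uu u z' : 𝓞 K) - 1)) := by
        have e4 : (((uu u z')⁻¹ : (𝓞 K)ˣ) : 𝓞 K) * (uu u z' : 𝓞 K) = 1 := Units.inv_mul _
        rw [Units.val_mul]
        linear_combination e4
      rw [e3]
      exact J'.mul_mem_left _ (J'.sub_mem hv (hu2 z'))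
    have e5 : (r' : 𝓞 K) = r := hT.uniq r hr r' r'.2 _ e2 e1
    have hr0 : r ≠ 0 := by
      rintro rfl
      exact h0 (hT.sub hr)
    have e6 : v = uu u z' := by
      apply Units.ext
      rw [e5, hxv] at h'
      exact mul_right_cancel₀ hr0 h'
    have e7 : z' = z := hzu z' e6
    subst e7
    congr 1
    exact Subtype.ext e5

theorem pn3_N (D : Ctx F K m) (hσ : Emb F D.σ) (x : 𝓞 K) :
    D.N x = embF F (Algebra.norm F (x : K)) := norm_eq hσ _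

theorem pn3_nn (D : Ctx F K m) (hσ : Emb F D.σ) (x : 𝓞 K) : nnF F x = ‖D.N x‖ := by
  rw [pn3_N D hσ]
  rfl

theorem pn3_Nmul (D : Ctx F K m) (u x : 𝓞 K) : D.N (u * x) = D.N u * D.N x := by
  unfold Ctx.N
  rw [← Finset.prod_mul_distrib]
  refine Finset.prod_congr rfl fun i _ => ?_
  rw [← map_mul]
  rfl

theorem pn3_N_ne (D : Ctx F K m) {x : 𝓞 K} (hx : x ≠ 0) : D.N x ≠ 0 := by
  unfold Ctx.N
  refine Finset.prod_ne_zero_iff.2 fun i _ => ?_
  rw [Ne, map_eq_zero]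
  exact fun h => hx (RingOfIntegers.coe_eq_zero_iff.1 h)

theorem pn3_Q_pos (D : Ctx F K m) (t : Fin (m + 1) → ℝ) (ht : ∀ i, 0 < t i) {x : 𝓞 K} (hx : x ≠ 0) :
    0 < D.Q t x := by
  unfold Ctx.Q
  refine Finset.sum_pos (fun i _ => ?_) Finset.univ_nonempty
  have h1 : D.σ i (x : K) ≠ 0 := by
    rw [Ne, map_eq_zero]
    exact fun h => hx (RingOfIntegers.coe_eq_zero_iff.1 h)
  have := ht i
  have h2 := norm_pos_iff.2 h1
  positivity

theorem pn3_nf (D : Ctx F K m) (hσ : Emb F D.σ) (s : ℝ) {x : 𝓞 K} (hx : x ≠ 0) :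
    D.N x / (‖D.N x‖ : ℂ) * nf F ((s + 1 / 2 : ℝ) : ℂ) x = ((nnF F x ^ (-2 * s) : ℝ) : ℂ) := by
  have hN := pn3_N_ne D hx
  have h0 : 0 < ‖D.N x‖ := norm_pos_iff.2 hN
  unfold nf g
  rw [← pn3_N D hσ, ← mul_assoc, H55R.D12_conj _ hN, pn3_nn D hσ]
  have h1 : (-2 * ((s + 1 / 2 : ℝ) : ℂ)) = ((-2 * (s + 1 / 2) : ℝ) : ℂ) := by push_cast; ring
  rw [h1, ← Complex.ofReal_cpow h0.le, ← Complex.ofReal_mul]
  congr 1
  have h2 : ‖D.N x‖ * ‖D.N x‖ ^ (-2 * (s + 1 / 2)) = ‖D.N x‖ ^ (1 : ℝ) * ‖D.N x‖ ^ (-2 * (s + 1 / 2)) := by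
    rw [Real.rpow_one]
  rw [h2, ← Real.rpow_add h0]
  congr 1
  ring

theorem pn3_fs (D : Ctx F K m) (t : Fin (m + 1) → ℝ) (ht : ∀ i, 0 < t i) (s : ℝ) {x : 𝓞 K}
    (hx : x ≠ 0) : D.N x / (‖D.N x‖ : ℂ) * D.fs t (s : ℂ) x = ((‖D.fs t (s : ℂ) x‖ : ℝ) : ℂ) := by
  have hN := pn3_N_ne D hx
  have hQ := pn3_Q_pos D t ht hx
  have h1 : (-((m + 1 : ℕ) * (s : ℂ))) = ((-((m + 1 : ℕ) * s) : ℝ) : ℂ) := by push_cast; ring
  have h2 : D.fs t (s : ℂ) x = (starRingEnd ℂ) (D.N x) * ((D.Q t x ^ (-((m + 1 : ℕ) * s)) : ℝ) : ℂ) := by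
    unfold Ctx.fs
    rw [h1, ← Complex.ofReal_cpow hQ.le]
  have h3 : 0 ≤ D.Q t x ^ (-((m + 1 : ℕ) * s)) := Real.rpow_nonneg hQ.le _
  rw [h2, ← mul_assoc, H55R.D12_conj _ hN, norm_mul, RCLike.norm_conj, Complex.norm_real,
    Real.norm_of_nonneg h3, Complex.ofReal_mul]

theorem class_bddF (f b : Ideal (𝓞 K))
    (hf : f ≠ ⊥) (hb : b ≠ ⊥) (c₀ : 𝓞 K) (hc : c₀ ∈ b)
    (hp : ∀ w : HeightOneSpectrum (𝓞 K), Ideal.span {3} * f ≤ w.asIdeal → c₀ ∉ w.asIdeal * b)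
    (c : H55R.Pl K) (hcc : IsCoprime (Ideal.span {3} * f * b) c.asIdeal) (T : Set (𝓞 K))
    (hT : Transv (Ideal.span {3} * f) (XS (Ideal.span {3} * f * b) c₀) T) :
    ∃ C : ℝ, ∀ s ∈ Set.Ioc (1 : ℝ) 2, ∃ Z : ℂ, ‖Z‖ ≤ C ∧
      HasSum (fun x : T => H55R.wt c.asIdeal (x : 𝓞 K) * ((nnF F (x : 𝓞 K) ^ (-2 * s) : ℝ) : ℂ)) Z := by
  classical
  obtain ⟨m, hm⟩ := pn3_fin F (K := K)
  obtain ⟨σ, hσ⟩ := emb_exists (F := F) K m hm
  have hne0 := H55R.D12_ne f b hf c₀ hp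
  obtain ⟨J, hJdef⟩ : ∃ J : Ideal (𝓞 K), J = Ideal.span {3} * f := ⟨_, rfl⟩
  obtain ⟨J', hJ'def⟩ : ∃ J' : Ideal (𝓞 K), J' = Ideal.span {2} * J := ⟨_, rfl⟩
  rw [← hJdef] at hT hne0 hcc
  have hJ0 : J ≠ ⊥ := by
    rw [hJdef]
    exact mul_ne_zero (by simp) hf
  have hJ'0 : J' ≠ ⊥ := by
    rw [hJ'def]
    exact mul_ne_zero (by simp) hJ0
  have hJ'J : J' ≤ J := by
    rw [hJ'def]
    exact Ideal.mul_le_right
  have hJ3 : J ≤ Ideal.span {3} := by
    rw [hJdef]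
    exact Ideal.mul_le_left
  have hJ6 : J' ≤ Ideal.span {6} := by
    rw [hJ'def, hJdef, ← mul_assoc, Ideal.span_singleton_mul_span_singleton]
    have : (2 : 𝓞 K) * 3 = 6 := by norm_num
    rw [this]
    exact Ideal.mul_le_left
  obtain ⟨u, hu1, hu2, hu3, hu4⟩ := units_basis hm J' hJ'0 (fun ζ hζ q hq h => H55N.D1_six hJ6 hζ hq h)
  obtain ⟨D, hDσ, hDI, hDc⟩ : ∃ D : Ctx F K m, D.σ = σ ∧ D.I = J * b ∧ D.c₀ = c₀ :=
    ⟨⟨σ, J * b, c₀, fun _ => ⊥, fun _ => 0⟩, rfl, rfl, rfl⟩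
  have hσ' : Emb F D.σ := by
    rw [hDσ]
    exact hσ
  have hne : D.c₀ ∉ D.I := by
    rw [hDI, hDc]
    exact hne0
  have hDX : D.X = XS (J * b) c₀ := by
    unfold Ctx.X
    rw [hDI, hDc]
  rw [← hDX] at hT
  have h0X : (0 : 𝓞 K) ∉ D.X := fun h => D.X_ne hne h rfl
  have hact : ∀ v : (𝓞 K)ˣ, (v : 𝓞 K) - 1 ∈ J → ((v : 𝓞 K) - 1) * D.c₀ ∈ D.I := by
    intro v hv
    rw [hDI, hDc]
    exact Ideal.mul_mem_mul hv hc
  have hu : D.UOk u := ⟨fun j => hact _ (hJ'J (hu1 j)),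
    fun j => norm_one3 D hσ' (u j) (hJ3 (hJ'J (hu1 j))), delta_ne D hσ' u hu4⟩
  obtain ⟨ν, hν, hT2⟩ := finite_change J J' hJ'0 hJ'J D.X h0X (by
    intro v hv x hx
    have h1 : (v : 𝓞 K) * x - D.c₀ = ((v : 𝓞 K) - 1) * D.c₀ + v * (x - D.c₀) := by ring
    rw [D.mem_X, h1]
    exact D.I.add_mem (hact v hv) (D.I.mul_mem_left _ hx))
  obtain ⟨T', hT', hφ⟩ := hT2 T hT
  obtain ⟨a, b', ha, hab⟩ := U4_tt_bd (D.lm u)
  obtain ⟨C, hC⟩ := cube_bddF D hσ' hne c.asIdeal c.ne_bot (by rw [hDI]; exact hcc) a b' ha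
  obtain ⟨δ, hδ, hlow⟩ := H55R.cst_low (D.lm u) (lm_sum D u hu) hu.reg
  have hinv : ∀ v : (𝓞 K)ˣ, ∏ i, D.σ i ((v : 𝓞 K) : K) = 1 → ∀ x : 𝓞 K,
      D.N ((v : 𝓞 K) * x) = D.N x := by
    intro v hv x
    rw [pn3_Nmul]
    have : D.N (v : 𝓞 K) = 1 := hv
    rw [this, one_mul]
  have hunf := fun s' : ℂ => unfold D hσ' hne u hu
    (fun x => H55R.wt c.asIdeal x * (D.N x / (‖D.N x‖ : ℂ)))
    ⟨1 + Ideal.absNorm c.asIdeal, fun x => by
      rw [norm_mul]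
      refine (mul_le_of_le_one_right (norm_nonneg _) ?_).trans (H55R.D12_wt_bd _ _)
      rw [norm_div, Complex.norm_real, norm_norm]
      exact div_self_le_one _⟩
    (fun x _ z => by
      show H55R.wt c.asIdeal ((uu u z : 𝓞 K) * x) * (D.N ((uu u z : 𝓞 K) * x) /
        (‖D.N ((uu u z : 𝓞 K) * x)‖ : ℂ)) = H55R.wt c.asIdeal x * (D.N x / (‖D.N x‖ : ℂ))
      rw [H55R.D12_wt, hinv _ (uu_act D u hu z).2.1])
    T' hT'.sub (pn3_bij h0X hT' u hu2 hu3) s'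
  refine ⟨C / δ / ν, fun s hs => ?_⟩
  obtain ⟨hs1, hs2⟩ := hs
  obtain ⟨hsum, hint⟩ := hunf ((s + 1 / 2 : ℝ) : ℂ) (by rw [Complex.ofReal_re]; linarith)
  have hterm : ∀ x : T', H55R.wt c.asIdeal (x : 𝓞 K) * (D.N (x : 𝓞 K) / (‖D.N (x : 𝓞 K)‖ : ℂ)) *
      nf F ((s + 1 / 2 : ℝ) : ℂ) (x : 𝓞 K) =
      H55R.wt c.asIdeal (x : 𝓞 K) * ((nnF F (x : 𝓞 K) ^ (-2 * s) : ℝ) : ℂ) := by
    intro x
    rw [mul_assoc, pn3_nf D hσ' s (D.X_ne hne (hT'.sub x.2))]
  have hsum' : Summable fun x : T' => H55R.wt c.asIdeal (x : 𝓞 K) *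
      ((nnF F (x : 𝓞 K) ^ (-2 * s) : ℝ) : ℂ) := by
    refine (hsum.of_norm).congr fun x => ?_
    exact hterm x
  have hhas := hsum'.hasSum
  refine ⟨(∑' x : T', H55R.wt c.asIdeal (x : 𝓞 K) * ((nnF F (x : 𝓞 K) ^ (-2 * s) : ℝ) : ℂ)) / ν, ?_, ?_⟩
  · have hν0 : (0 : ℝ) < ν := by exact_mod_cast hν
    rw [norm_div, Complex.norm_natCast]
    refine div_le_div_of_nonneg_right ?_ hν0.le
    rw [le_div_iff₀ hδ]
    have h1 : (∑' x : T', H55R.wt c.asIdeal (x : 𝓞 K) * (D.N (x : 𝓞 K) / (‖D.N (x : 𝓞 K)‖ : ℂ)) *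
      nf F ((s + 1 / 2 : ℝ) : ℂ) (x : 𝓞 K)) =
        ∑' x : T', H55R.wt c.asIdeal (x : 𝓞 K) * ((nnF F (x : 𝓞 K) ^ (-2 * s) : ℝ) : ℂ) :=
      tsum_congr hterm
    have h2 : ‖∑' x : T', H55R.wt c.asIdeal (x : 𝓞 K) * ((nnF F (x : 𝓞 K) ^ (-2 * s) : ℝ) : ℂ)‖ *
        ‖cst (D.lm u) ((s + 1 / 2 : ℝ) : ℂ)‖ ≤ C := by
      rw [← norm_mul, ← h1, hint]
      have h3 := MeasureTheory.norm_setIntegral_le_of_norm_le_const (C := C)
        (μ := MeasureTheory.volume) (s := Set.Icc (0 : Fin m → ℝ) 1)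
        (f := fun z => ∑' x : D.X, H55R.wt c.asIdeal (x : 𝓞 K) *
          (D.N (x : 𝓞 K) / (‖D.N (x : 𝓞 K)‖ : ℂ)) *
            D.fs (tt (D.lm u) z) ((s + 1 / 2 : ℝ) : ℂ) x)
        (by
          rw [Real.volume_Icc_pi]
          simp) (by
          intro z hz
          have hz2 := hab z hz
          have h4 := hC (tt (D.lm u) z) hz2 (s + 1 / 2) ⟨by linarith, by linarith⟩
          refine (le_of_eq ?_).trans h4
          congr 1
          refine tsum_congr fun x => ?_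
          rw [mul_assoc, pn3_fs D (tt (D.lm u) z) (fun i => ha.trans_le (hz2 i).1) (s + 1 / 2)
            (D.X_ne hne x.2)])
      refine h3.trans (le_of_eq ?_)
      have h5 : MeasureTheory.volume.real (Set.Icc (0 : Fin m → ℝ) 1) = 1 := by
        rw [MeasureTheory.measureReal_def, Real.volume_Icc_pi]
        simp
      rw [h5, mul_one]
    exact (mul_le_mul_of_nonneg_left (hlow (s + 1 / 2) ⟨by linarith, by linarith⟩)
      (norm_nonneg _)).trans h2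
  · refine hφ (fun x => H55R.wt c.asIdeal x * ((nnF F x ^ (-2 * s) : ℝ) : ℂ)) _ ?_ hhas
    intro v hv x _
    have h1 : nnF F ((v : 𝓞 K) * x) = nnF F x := by
      rw [pn3_nn D hσ', pn3_nn D hσ', hinv v (norm_one3 D hσ' v (hJ3 hv))]
    show H55R.wt c.asIdeal ((v : 𝓞 K) * x) * ((nnF F ((v : 𝓞 K) * x) ^ (-2 * s) : ℝ) : ℂ) = _
    rw [H55R.D12_wt, h1]

end H55P
end

-- from Lib.H55P.N4
section

open NumberField IsDedekindDomain

namespace H55P

open H55N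
open H55B (g)



/-! Chunk PN4 (M), PORT of Lib/H55R/D13.lean (bdd; with CDJ J g, J = (3) f, g = (6) f, exists_CDJ, cdj_hasSum of H55P/CD.lean) and of density_ker in Lib/H55R/Den.lean. F must be an explicit argument. -/

theorem pn4_ne_top {K : Type} [Field K] [NumberField K] (f : Ideal (𝓞 K)) :
    Ideal.span {(3 : 𝓞 K)} * f ≠ ⊤ := by
  intro h
  have h1 : Ideal.span {(3 : 𝓞 K)} = ⊤ := by
    rw [eq_top_iff, ← h]
    exact Ideal.mul_le_left
  have h2 : Ideal.absNorm (Ideal.span {(3 : 𝓞 K)}) = 1 := by rw [h1]; exact Ideal.absNorm_top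
  rw [Ideal.absNorm_span_singleton] at h2
  have h3 : (Algebra.norm ℤ (3 : 𝓞 K)) = 3 ^ Module.finrank ℤ (𝓞 K) := by
    have := Algebra.norm_algebraMap (S := 𝓞 K) (3 : ℤ)
    rw [map_ofNat] at this
    exact this
  rw [h3, Int.natAbs_pow] at h2
  have h4 : 0 < Module.finrank ℤ (𝓞 K) := Module.finrank_pos
  have h5 : 1 < 3 ^ Module.finrank ℤ (𝓞 K) := Nat.one_lt_pow h4.ne' (by norm_num)
  have h6 : (3 : ℤ).natAbs = 3 := rfl
  rw [h6] at h2
  omega

theorem bddF (F : Type) [Field F] [NumberField F] [IQ F] {K : Type} [Field K] [NumberField K]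
    [Algebra F K] (f : Ideal (𝓞 K)) (hf : f ≠ ⊥)
    (φ : H55R.Pl K → ℂˣ) (hφ : φ ∈ H55R.RC f) (hn : ∀ v, ‖(φ v : ℂ)‖ = 1) (h1 : φ ≠ 1) :
    ∃ C : ℝ, ∀ s ∈ Set.Ioc (1 : ℝ) 2, ‖H55R.Ls (H55R.tI f φ) s‖ ≤ C := by
  classical
  obtain ⟨C₁, hC₁, hmod⟩ := H55R.change_mod f hf φ hn
  have h3 : (Ideal.span {(3 : 𝓞 K)}) ≠ ⊥ := by
    rw [Ne, Ideal.span_singleton_eq_bot]
    exact OfNat.ofNat_ne_zero 3
  set J : Ideal (𝓞 K) := Ideal.span {3} * f with hJ
  have hJ0 : J ≠ ⊥ := mul_ne_zero h3 hf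
  have h6 : Ideal.span {(6 : 𝓞 K)} ≤ Ideal.span {(3 : 𝓞 K)} := by
    rw [Ideal.span_singleton_le_span_singleton]
    exact ⟨2, by norm_num⟩
  have h60 : (Ideal.span {(6 : 𝓞 K)}) ≠ ⊥ := by
    rw [Ne, Ideal.span_singleton_eq_bot]
    exact OfNat.ofNat_ne_zero 6
  have hgJ : Ideal.span {(6 : 𝓞 K)} * f ≤ J := Ideal.mul_mono_left h6
  have hJ1 : J ≠ ⊤ := pn4_ne_top f
  obtain ⟨ι, _, b, c₀, T, hCD⟩ := exists_CDJ J (Ideal.span {6} * f) hJ0 (mul_ne_zero h60 hf) hgJ hJ1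
  have hg : J * ∏ i, b i ≠ ⊥ := mul_ne_zero hJ0 (Finset.prod_ne_zero_iff.2 fun i _ => hCD.ne i)
  obtain ⟨c, hcf, hcg, hφc⟩ := H55R.exists_prime f hf φ hφ h1 _ hg
  have hcmax : c.asIdeal.IsMaximal := c.isPrime.isMaximal c.ne_bot
  have hcop : ∀ I : Ideal (𝓞 K), ¬ I ≤ c.asIdeal → IsCoprime I c.asIdeal := by
    intro I hI
    rw [Ideal.isCoprime_iff_sup_eq]
    by_contra hne
    obtain ⟨M, hM, hle⟩ := Ideal.exists_le_maximal _ hne
    have h4 : c.asIdeal = M := hcmax.eq_of_le hM.ne_top (le_sup_right.trans hle)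
    exact hI (h4 ▸ le_sup_left.trans hle)
  have hJc : ¬ J ≤ c.asIdeal := fun h => hcg (Ideal.mul_le_left.trans h)
  have hbc : ∀ i, ¬ b i ≤ c.asIdeal := fun i h => hcg
    (Ideal.mul_le_right.trans ((Ideal.prod_le_inf.trans (Finset.inf_le (Finset.mem_univ i))).trans h))
  have hcJ : IsCoprime J c.asIdeal := hcop J hJc
  have hcb : ∀ i, IsCoprime (b i) c.asIdeal := fun i => hcop _ (hbc i)
  choose κ hκ using fun i => term_classF (F := F) f (b i) hf (hCD.ne i) φ hφ (hCD.cop i) (c₀ i) (hCD.mem i)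
    (hCD.prim i)
  choose C hC using fun i => class_bddF (F := F) f (b i) hf (hCD.ne i) (c₀ i) (hCD.mem i) (hCD.prim i) c
    ((hcJ.mul_left (hcb i))) (T i) (hCD.trans i)
  have hh : ∀ a, ‖H55R.tI J φ a‖ ≤ 1 := H55R.dd_norm_tI J φ hn
  have htc : H55R.tI J φ c.asIdeal = (φ c : ℂ) := by
    rw [H55R.tI_apply J φ c.ne_bot hcJ.symm, H55R.pv_prime]
  obtain ⟨δ, hδ, hlow⟩ := H55R.fac_low (Ideal.absNorm c.asIdeal) (H55R.dd_two_le c) (φ c : ℂ) (hn c)
    (fun h => hφc (Units.ext h))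
  refine ⟨C₁ * ((∑ i, ‖κ i‖ * ((Ideal.absNorm (b i) : ℝ) ^ (2 : ℝ)) * C i) / δ), fun s hs => ?_⟩
  refine (hmod s hs).trans (mul_le_mul_of_nonneg_left ?_ hC₁.le)
  rw [le_div_iff₀ hδ]
  -- the smoothed series
  have hsum := H55R.dd_tm_summable (H55R.tI J φ) hh s hs.1
  have hsm := smooth_sum (tmH (H55R.tI J φ) s) hsum (fun _ : Unit => c.asIdeal)
    (fun _ => c.isPrime) (fun _ => c.ne_bot) (fun _ _ _ => rfl)
    (fun _ => (Ideal.absNorm c.asIdeal : ℂ))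
  simp only [Finset.univ_unique, Finset.prod_singleton] at hsm
  choose Z hZ1 hZ2 using fun i => hC i s hs
  have hcd := cdj_hasSum J (Ideal.span {6} * f) hgJ hJ1 ι b c₀ T hCD
    (fun a => tm (H55R.tI J φ) s a *
      (if a ≤ c.asIdeal then 1 - (Ideal.absNorm c.asIdeal : ℂ) else 1))
    (fun a ha => by
      by_contra hne
      apply ha
      have h5 : H55R.tI J φ a = 0 := if_neg hne
      show H55R.tI J φ a * _ * _ = 0
      rw [h5, zero_mul, zero_mul])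
    (fun i x => κ i * (((Ideal.absNorm (b i) : ℝ) ^ s : ℝ) : ℂ) *
            (H55R.wt c.asIdeal x * ((nnF F x ^ (-2 * s) : ℝ) : ℂ)))
    (fun i x hx a hab => hκ i c (hcb i) x ((hCD.trans i).sub hx) a hab s)
    (fun i => κ i * (((Ideal.absNorm (b i) : ℝ) ^ s : ℝ) : ℂ) * Z i)
    (fun i => (hZ2 i).mul_left _)
  have heq : (1 - (Ideal.absNorm c.asIdeal : ℂ) * tmH (H55R.tI J φ) s c.asIdeal) *
      ∑' a, tmH (H55R.tI J φ) s a = ∑ i, κ i * (((Ideal.absNorm (b i) : ℝ) ^ s : ℝ) : ℂ) * Z i :=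
    hsm.unique hcd
  have hk : tmH (H55R.tI J φ) s c.asIdeal = (φ c : ℂ) * (Ideal.absNorm c.asIdeal : ℂ) ^ (-(s : ℂ)) := by
    show H55R.tI J φ c.asIdeal * _ = _
    rw [htc]
  have hL : ∑' a, tmH (H55R.tI J φ) s a = H55R.Ls (H55R.tI J φ) s := rfl
  rw [hk, hL] at heq
  calc ‖H55R.Ls (H55R.tI J φ) s‖ * δ ≤ ‖H55R.Ls (H55R.tI J φ) s‖ * ‖1 - (Ideal.absNorm c.asIdeal : ℂ) *
        ((φ c : ℂ) * (Ideal.absNorm c.asIdeal : ℂ) ^ (-(s : ℂ)))‖ :=
        mul_le_mul_of_nonneg_left (hlow s ⟨hs.1.le, hs.2⟩) (norm_nonneg _)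
    _ = ‖∑ i, κ i * (((Ideal.absNorm (b i) : ℝ) ^ s : ℝ) : ℂ) * Z i‖ := by
        rw [mul_comm, ← norm_mul, heq]
    _ ≤ ∑ i, ‖κ i * (((Ideal.absNorm (b i) : ℝ) ^ s : ℝ) : ℂ) * Z i‖ := norm_sum_le _ _
    _ ≤ ∑ i, ‖κ i‖ * ((Ideal.absNorm (b i) : ℝ) ^ (2 : ℝ)) * C i := by
        refine Finset.sum_le_sum fun i _ => ?_
        have hb1 : (1 : ℝ) ≤ (Ideal.absNorm (b i) : ℝ) := by
          have h6 : Ideal.absNorm (b i) ≠ 0 := fun h => hCD.ne i (Ideal.absNorm_eq_zero_iff.1 h)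
          exact_mod_cast Nat.one_le_iff_ne_zero.2 h6
        rw [norm_mul, norm_mul, Complex.norm_real, Real.norm_of_nonneg (by positivity)]
        refine mul_le_mul (mul_le_mul_of_nonneg_left ?_ (norm_nonneg _)) (hZ1 i) (norm_nonneg _)
          (by positivity)
        exact Real.rpow_le_rpow_of_exponent_le hb1 hs.2

/-- Primes in the kernel of a finite group of ray class characters. -/
theorem density_kerF (F : Type) [Field F] [NumberField F] [IQ F] {K : Type} [Field K] [NumberField K]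
    [Algebra F K] (f : Ideal (𝓞 K))
    (hf : f ≠ ⊥) (hf' : f ≠ ⊤) (Y : Subgroup (H55R.Pl K → ℂˣ)) [Finite Y] (hY : Y ≤ H55R.RC f) :
    ∃ C : ℝ, ∀ s ∈ Set.Ioc (1 : ℝ) 2, H55R.PS {v : H55R.Pl K | ¬ f ≤ v.asIdeal ∧ ∀ φ ∈ Y, φ v = 1} s ≤
      (1 / Nat.card Y : ℝ) * Real.log (1 / (s - 1)) + C := by
  classical
  have := Fintype.ofFinite Y
  obtain ⟨C₂, hC₂⟩ := H55R.log_cmp K
  obtain ⟨C₃, hC₃⟩ := H55R.zeta_log K
  have hb : ∀ φ : Y, ∃ B : ℝ, ∀ s ∈ Set.Ioc (1 : ℝ) 2,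
      ∑' v : H55R.Pl K, (H55R.tI f (φ : H55R.Pl K → ℂˣ) v.asIdeal).re * (Ideal.absNorm v.asIdeal : ℝ) ^ (-s) ≤
        (if φ = 1 then Real.log (1 / (s - 1)) else 0) + B := by
    intro φ
    have hn := H55R.dd_norm_Y Y φ.1 φ.2
    have hh := H55R.dd_norm_tI f φ.1 hn
    by_cases h1 : φ = 1
    · subst h1
      refine ⟨C₂ + C₃, fun s hs => ?_⟩
      have e1 := (abs_le.1 (hC₂ (H55R.tI f ((1 : Y) : H55R.Pl K → ℂˣ)) hh s hs)).2
      obtain ⟨e2, e3⟩ := hC₃ s hs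
      have e4 := (abs_le.1 e3).2
      have e5 := (H55R.euler (H55R.tI f ((1 : Y) : H55R.Pl K → ℂˣ)) hh s hs.1).1
      have e6 := Real.log_le_log (norm_pos_iff.2 e5) (H55R.den_trivial f s hs.1)
      rw [if_pos rfl]
      linarith
    · have h2 : φ.1 ≠ 1 := fun h => h1 (Subtype.ext h)
      obtain ⟨B, hB⟩ := bddF F f hf φ.1 (hY φ.2) hn h2
      refine ⟨C₂ + Real.log B, fun s hs => ?_⟩
      have e1 := (abs_le.1 (hC₂ (H55R.tI f φ.1) hh s hs)).2
      have e5 := (H55R.euler (H55R.tI f φ.1) hh s hs.1).1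
      have e6 := Real.log_le_log (norm_pos_iff.2 e5) (hB s hs)
      rw [if_neg h1]
      linarith
  choose B hB using hb
  refine ⟨(1 / Nat.card Y : ℝ) * ∑ φ, B φ, fun s hs => ?_⟩
  have hc : (0 : ℝ) < Nat.card Y := by exact_mod_cast Nat.card_pos
  have h1 := H55R.orth f Y s hs.1
  have h2 : (Nat.card Y : ℝ) * H55R.PS {v : H55R.Pl K | ¬ f ≤ v.asIdeal ∧ ∀ φ ∈ Y, φ v = 1} s ≤
      Real.log (1 / (s - 1)) + ∑ φ, B φ := by
    rw [h1]
    refine (Finset.sum_le_sum fun φ _ => hB φ s hs).trans (le_of_eq ?_)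
    rw [Finset.sum_add_distrib, Finset.sum_ite_eq' Finset.univ (1 : Y)]
    simp
  have h3 : H55R.PS {v : H55R.Pl K | ¬ f ≤ v.asIdeal ∧ ∀ φ ∈ Y, φ v = 1} s =
      (1 / Nat.card Y : ℝ) *
        ((Nat.card Y : ℝ) * H55R.PS {v : H55R.Pl K | ¬ f ≤ v.asIdeal ∧ ∀ φ ∈ Y, φ v = 1} s) := by
    field_simp
  rw [h3, ← mul_add]
  exact mul_le_mul_of_nonneg_left h2 (by positivity)

end H55P
end
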