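import Mathlib
import Pool.Agent.Lib.H1M.PP2.M007
import Pool.Agent.Lib.H1M.PP2.M017
import Pool.Agent.Lib.H1M.PP2.M019
import Pool.Agent.Lib.H1M.PP2.M020
import Pool.Agent.Lib.H1M.PP2.M021
import Pool.Agent.Lib.H1M.PP2.M029
import Pool.Agent.Lib.H1M.PP2.M038
import Pool.Agent.Lib.H1M.PP2.M047
import Pool.Agent.Lib.H1M.PP2.M054
import Pool.Agent.Lib.H1M.PP2.M062
import Pool.Agent.Lib.H1M.PP2.M064

/-! Merged copies (to shorten the build) of Lib.H55K.C12, Lib.H55K.C14, Lib.H55K.C22, Lib.H55K.C23, Lib.H55K.C24, Lib.H55K.C26, Lib.H55K.C28, Lib.H55K.C27, Lib.H55K.CG, Lib.H55K.C16, Lib.H55K.C17, Lib.H55K.C18, Lib.H55K.C19, Lib.H55K.C20, Lib.H55R.X6, Lib.H55R.X10, Lib.H55P.N5, Lib.H55R.Cross, Lib.H55R.Fin, Lib.H55P.T10. -/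

-- from Lib.H55K.C12
section

open NumberField WeierstrassCurve Polynomial

namespace H55K.CC

open H55P (IQ embF eF LF Per Pt ac mem_LF eF_inj eF_ne Nm Nm_eq)
open H35P (WAB)

variable {F : Type} [Field F] [NumberField F] [IQ F] {Ω : Type} [Field Ω] [DecidableEq Ω] [Algebra F Ω]
  {A B : F} {Om : ℂ} {j : Ω →+* ℂ}

/-! Chunk C12 (S/M): H35P.pt_exists (h.per; the discriminant: apply embF F to h.disc). pt z = 0 iff z in Λ; z not in Λ: pt z = some .. <> 0, xc, yc of some are rfl. Surjective: R = 0: pt 0. R = (x, y): wp_surj for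
c = Om^2 x: XL z = x, YL z^2 = x^3 + A x + B = y^2 (yl_sq, Affine.equation_iff), so YL z = y or YL z = -y; in the second case take -z (L.weierstrassP_neg, L.derivWeierstrassP_neg). -/

theorem exists_pt (h : CH A B Om j) : ∃ pt : ℂ →+ (WAB (embF F A) (embF F B)).toAffine.Point,
    (∀ z, pt z = 0 ↔ z ∈ (LF F).lattice) ∧ Function.Surjective pt ∧
    ∀ z, z ∉ (LF F).lattice → xc (pt z) = XL (LF F) Om z ∧ yc (pt z) = YL (LF F) Om z := by
  have hd : 4 * (embF F A) ^ 3 + 27 * (embF F B) ^ 2 ≠ 0 := by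
    intro h0
    apply h.disc
    apply (embF F).injective
    rw [map_add, map_mul, map_mul, map_pow, map_pow, map_zero, map_ofNat, map_ofNat]
    exact h0
  obtain ⟨pt, p0, p1⟩ := H35P.pt_exists (LF F) (embF F A) (embF F B) Om h.per.ne h.per.g2 h.per.g3 hd
  have p1' : ∀ z, z ∉ (LF F).lattice → pt z ≠ 0 ∧ xc (pt z) = XL (LF F) Om z ∧
      yc (pt z) = YL (LF F) Om z := by
    intro z hz
    obtain ⟨hns, e⟩ := p1 z hz
    rw [e]
    exact ⟨Affine.Point.some_ne_zero _, rfl, rfl⟩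
  refine ⟨pt, fun z => ⟨fun h0 => ?_, p0 z⟩, ?_, fun z hz => (p1' z hz).2⟩
  · by_contra hz
    exact (p1' z hz).1 h0
  · intro R
    rcases R with _ | ⟨x, y, hxy⟩
    · exact ⟨0, map_zero pt⟩
    · obtain ⟨z, hz, hz1⟩ := wp_surj (LF F) (Om ^ 2 * x)
      have hO : Om ^ 2 ≠ 0 := pow_ne_zero 2 h.per.ne
      have hX : XL (LF F) Om z = x := by
        unfold XL
        rw [hz1, mul_div_cancel_left₀ _ hO]
      have hY := yl_sq (LF F) h.per.ne h.per.g2 h.per.g3 hz
      have hE := (Affine.equation_iff _ _).1 hxy.1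
      simp only [WAB] at hE
      have h2 : (YL (LF F) Om z - y) * (YL (LF F) Om z + y) = 0 := by
        rw [hX] at hY
        linear_combination hY - hE
      rcases mul_eq_zero.1 h2 with h3 | h3
      · obtain ⟨hns, e⟩ := p1 z hz
        refine ⟨z, ?_⟩
        rw [e, Affine.Point.some.injEq]
        exact ⟨hX, sub_eq_zero.1 h3⟩
      · have hz' : -z ∉ (LF F).lattice := fun h0 => hz (by simpa using (LF F).lattice.neg_mem h0)
        obtain ⟨hns, e⟩ := p1 (-z) hz'
        refine ⟨-z, ?_⟩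
        rw [e, Affine.Point.some.injEq]
        constructor
        · rw [(LF F).weierstrassP_neg]
          exact hX
        · rw [(LF F).derivWeierstrassP_neg, neg_div]
          change -(YL (LF F) Om z) = y
          linear_combination -h3

end H55K.CC
end

-- from Lib.H55K.C14
section

open NumberField WeierstrassCurve Polynomial

namespace H55K.CC

open H55P (IQ embF eF LF Per Pt ac mem_LF eF_inj eF_ne Nm Nm_eq)
open H35P (WAB)

variable {F : Type} [Field F] [NumberField F] [IQ F] {Ω : Type} [Field Ω] [DecidableEq Ω] [Algebra F Ω]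
  {A B : F} {Om : ℂ} {j : Ω →+* ℂ}

/-! Chunk C14 (M). With J (exists_J) and pt (exists_pt): U P z iff J P = pt z (u_iff: P = 0: J P = 0 = pt z iff z in Λ. P <> 0: J P <> 0 has coordinates j(xc P), j(yc P); two nonzero points with the same coordinates are
equal: cases). Everything follows. U_tors: n z in Λ: if z in Λ take P = 0, otherwise R = pt z is not 0, n • R = pt(n z) = 0, tors_range, exists_J (last part). U_alg: exists_J (last part) for R = pt z. -/

theorem c14_ext {k : Type} [Field k] {W : WeierstrassCurve k} {P Q : W.toAffine.Point} (hP : P ≠ 0) (hQ : Q ≠ 0)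
    (hx : xc P = xc Q) (hy : yc P = yc Q) : P = Q := by
  rcases P with _ | ⟨x, y, h⟩
  · exact absurd rfl hP
  rcases Q with _ | ⟨x', y', h'⟩
  · exact absurd rfl hQ
  have h1 : x = x' := hx
  have h2 : y = y' := hy
  subst h1 h2
  rfl

theorem c14_main (h : CH A B Om j) : ∃ (J : Pt (WAB A B) Ω →+ (WAB (embF F A) (embF F B)).toAffine.Point)
    (pt : ℂ →+ (WAB (embF F A) (embF F B)).toAffine.Point), Function.Injective J ∧ Function.Surjective pt ∧
    (∀ z, pt z = 0 ↔ z ∈ (LF F).lattice) ∧ (∀ P z, U A B Om j P z ↔ J P = pt z) ∧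
    (∀ R, R ≠ 0 → (∃ x, j x = xc R) → (∃ y, j y = yc R) → ∃ P, J P = R) ∧
    ∀ z, z ∉ (LF F).lattice → xc (pt z) = XL (LF F) Om z ∧ yc (pt z) = YL (LF F) Om z := by
  obtain ⟨J, hJ, hJ1, hJ2⟩ := exists_J h
  obtain ⟨pt, p0, p1, p2⟩ := H55K.CC.exists_pt h
  refine ⟨J, pt, hJ, p1, p0, fun P z => ?_, hJ2, p2⟩
  by_cases hP : P = 0
  · subst hP
    rw [map_zero, eq_comm, p0]
    constructor
    · intro h1
      exact (h1.zero_iff).1 rfl
    · intro h1
      exact Or.inl ⟨rfl, h1⟩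
  · obtain ⟨n0, hx, hy⟩ := hJ1 P hP
    constructor
    · rintro (⟨h1, -⟩ | ⟨-, h1, h2, h3⟩)
      · exact absurd h1 hP
      · obtain ⟨e1, e2⟩ := p2 z h1
        refine c14_ext n0 (fun h4 => h1 ((p0 z).1 h4)) ?_ ?_
        · rw [hx, e1, h2]
        · rw [hy, e2, h3]
    · intro h1
      have h2 : z ∉ (LF F).lattice := by
        intro h3
        apply n0
        rw [h1]
        exact (p0 z).2 h3
      obtain ⟨e1, e2⟩ := p2 z h2
      refine Or.inr ⟨hP, h2, ?_, ?_⟩
      · rw [← hx, h1, e1]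
      · rw [← hy, h1, e2]

theorem U_ex (h : CH A B Om j) (P : Pt (WAB A B) Ω) : ∃ z, U A B Om j P z := by
  obtain ⟨J, pt, hJ, p1, p0, hU, hR, hc⟩ := c14_main h
  obtain ⟨z, hz⟩ := p1 (J P)
  exact ⟨z, (hU P z).2 hz.symm⟩

theorem U_add (h : CH A B Om j) {P Q : Pt (WAB A B) Ω} {z w : ℂ} (hP : U A B Om j P z) (hQ : U A B Om j Q w) :
    U A B Om j (P + Q) (z + w) := by
  obtain ⟨J, pt, hJ, p1, p0, hU, hR, hc⟩ := c14_main h
  rw [hU] at hP hQ ⊢
  rw [map_add, map_add, hP, hQ]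

theorem U_inj (h : CH A B Om j) {P Q : Pt (WAB A B) Ω} {z : ℂ} (hP : U A B Om j P z) (hQ : U A B Om j Q z) :
    P = Q := by
  obtain ⟨J, pt, hJ, p1, p0, hU, hR, hc⟩ := c14_main h
  rw [hU] at hP hQ
  exact hJ (hP.trans hQ.symm)

theorem U_mod (h : CH A B Om j) {P : Pt (WAB A B) Ω} {z w : ℂ} (hP : U A B Om j P z) :
    U A B Om j P w ↔ z - w ∈ (LF F).lattice := by
  obtain ⟨J, pt, hJ, p1, p0, hU, hR, hc⟩ := c14_main h
  rw [hU] at hP ⊢
  rw [hP, ← sub_eq_zero, ← map_sub, p0]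

theorem U_tors [IsAlgClosed Ω] (h : CH A B Om j) {n : ℕ} (hn : 0 < n) {z : ℂ} (hz : (n : ℂ) * z ∈ (LF F).lattice) :
    ∃ P, U A B Om j P z := by
  obtain ⟨J, pt, hJ, p1, p0, hU, hR, hc⟩ := c14_main h
  by_cases h1 : z ∈ (LF F).lattice
  · exact ⟨0, Or.inl ⟨rfl, h1⟩⟩
  · have h2 : pt z ≠ 0 := fun h3 => h1 ((p0 z).1 h3)
    have h4 : n • pt z = 0 := by
      rw [← map_nsmul, nsmul_eq_mul]
      exact (p0 _).2 hz
    obtain ⟨h5, h6⟩ := tors_range h (pt z) h2 hn h4
    obtain ⟨P, hP⟩ := hR _ h2 h5 h6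
    exact ⟨P, (hU P z).2 hP⟩

theorem U_alg (h : CH A B Om j) {z : ℂ} (hz : z ∉ (LF F).lattice) {x y : Ω} (hx : j x = XL (LF F) Om z)
    (hy : j y = YL (LF F) Om z) : ∃ P, U A B Om j P z := by
  obtain ⟨J, pt, hJ, p1, p0, hU, hR, hc⟩ := c14_main h
  have h2 : pt z ≠ 0 := fun h3 => hz ((p0 z).1 h3)
  obtain ⟨e1, e2⟩ := hc z hz
  obtain ⟨P, hP⟩ := hR _ h2 ⟨x, by rw [hx, e1]⟩ ⟨y, by rw [hy, e2]⟩
  exact ⟨P, (hU P z).2 hP⟩

end H55K.CC
end

-- from Lib.H55K.C22
section

open NumberField WeierstrassCurve Polynomial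

namespace H55K.CC

open H55P (IQ embF eF LF Per Pt ac mem_LF eF_inj eF_ne Nm Nm_eq)
open H35P (WAB)

variable {F : Type} [Field F] [NumberField F] [IQ F] {Ω : Type} [Field Ω] [DecidableEq Ω] [Algebra F Ω]
  {A B : F} {Om : ℂ} {j : Ω →+* ℂ}

/-- The polynomials N, D give multiplication by β on the x-coordinates. -/
def MR (L : PeriodPair) (Om β : ℂ) (N D : Polynomial ℂ) : Prop := ∀ z, β * z ∉ L.lattice →
  D.eval (XL L Om z) ≠ 0 ∧ XL L Om (β * z) * D.eval (XL L Om z) = N.eval (XL L Om z)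

/-! Chunk C22 (M). mr_nn: β z not in Λ. E1 at z and at -z (wp even): adding, 2 β^2 wp(β z) = 2 wp z + sum over S of (wp(z + r) + wp(z - r) - 2 wp r); divide by 2 Om^2, xl_add_sub (Rep.z_out, Rep.zr_out, Rep.zs_out, h.out):
β^2 XL(β z) = XL z + sum over S of (((x + t)(t x + A) + 2B)/(x - t)^2 - t) with x = XL z, t = XL r. Then nnP_eval, ddP_eval. exists_ND0: S from exists_Rep; r in S: a point T_r with U T_r r (U_tors, lat_nm), t r = xc T_r,
j (t r) = XL r (U.xc_eq); ddP_map, nnP_map (replace j (t r) by XL r under the products and sums over S: mr_nn for a function t' with t' r = XL r for r in S, or Finset.prod_congr). -/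

theorem mr_nn {L : PeriodPair} {A B Om β : ℂ} (hO : Om ≠ 0) (g2 : L.g₂ = -4 * A * Om ^ 4)
    (g3 : L.g₃ = -4 * B * Om ^ 6) {S : Finset ℂ} (h : Rep L β S) (t : ℂ → ℂ) (ht : ∀ r ∈ S, t r = XL L Om r) :
    MR L Om β (nnP S t β A B) (ddP S t) := by
  intro z hz
  have hz0 := h.z_out hz
  have hOm : Om ^ 2 ≠ 0 := pow_ne_zero 2 hO
  have hβ : β ^ 2 ≠ 0 := pow_ne_zero 2 h.ne
  have hadd : ∀ r ∈ S, XL L Om z - XL L Om r ≠ 0 ∧ XL L Om (z + r) + XL L Om (z - r) =
      2 * ((XL L Om z + XL L Om r) * (XL L Om r * XL L Om z + A) + 2 * B) / (XL L Om z - XL L Om r) ^ 2 :=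
    fun r hr => xl_add_sub L hO g2 g3 hz0 (h.out r hr) (h.zr_out hz hr) (h.zs_out hz hr)
  have hx : ∀ r ∈ S, XL L Om z - t r ≠ 0 := by
    intro r hr
    rw [ht r hr]
    exact (hadd r hr).1
  refine ⟨ddP_eval S t hx, ?_⟩
  have h1 := E1 h hz
  have hz' : β * (-z) ∉ L.lattice := by
    rw [mul_neg, neg_mem_iff]
    exact hz
  have h2 := E1 h hz'
  rw [mul_neg, L.weierstrassP_neg, L.weierstrassP_neg] at h2
  have h3 : ∀ r, L.weierstrassP (-z + r) = L.weierstrassP (z - r) := by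
    intro r
    rw [← L.weierstrassP_neg]
    congr 1
    ring
  simp only [h3] at h2
  have h4 : β ^ 2 * XL L Om (β * z) = XL L Om z +
      ∑ r ∈ S, (((XL L Om z + t r) * (t r * XL L Om z + A) + 2 * B) / (XL L Om z - t r) ^ 2 - t r) := by
    have h5 : ∑ r ∈ S, (((XL L Om z + t r) * (t r * XL L Om z + A) + 2 * B) / (XL L Om z - t r) ^ 2 - t r) =
        (∑ r ∈ S, (L.weierstrassP (z + r) - L.weierstrassP r)) / (2 * Om ^ 2) +
        (∑ r ∈ S, (L.weierstrassP (z - r) - L.weierstrassP r)) / (2 * Om ^ 2) := by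
      rw [← add_div, ← Finset.sum_add_distrib, Finset.sum_div]
      apply Finset.sum_congr rfl
      intro r hr
      have h6 := (hadd r hr).2
      rw [ht r hr]
      have h7 : ((XL L Om z + XL L Om r) * (XL L Om r * XL L Om z + A) + 2 * B) / (XL L Om z - XL L Om r) ^ 2 =
          (XL L Om (z + r) + XL L Om (z - r)) / 2 := by
        rw [h6]
        ring
      rw [h7]
      unfold XL
      field_simp
      ring
    rw [h5]
    have h8 : XL L Om (β * z) = L.weierstrassP (β * z) / Om ^ 2 := rfl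
    have h9 : XL L Om z = L.weierstrassP z / Om ^ 2 := rfl
    rw [h8, h9]
    set s1 := ∑ r ∈ S, (L.weierstrassP (z + r) - L.weierstrassP r)
    set s2 := ∑ r ∈ S, (L.weierstrassP (z - r) - L.weierstrassP r)
    field_simp
    linear_combination h1 + h2
  have h10 := nnP_eval S t h.ne A B hx
  rw [← h4] at h10
  apply mul_left_cancel₀ hβ
  rw [h10]
  ring

theorem exists_ND0 [IsAlgClosed Ω] (h : CH A B Om j) {a : 𝓞 F} (ha : a ≠ 0) : ∃ (d : ℕ) (N D : Polynomial Ω),
    N.natDegree ≤ d + 1 ∧ ak Ω a ^ 2 * N.coeff (d + 1) = 1 ∧ D.natDegree ≤ d ∧ D.coeff d = 1 ∧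
    MR (LF F) Om (eF F a) (N.map j) (D.map j) := by
  classical
  obtain ⟨S, hS⟩ := exists_Rep ha
  have hT : ∀ r : ℂ, ∃ x : Ω, r ∈ S → j x = XL (LF F) Om r := by
    intro r
    by_cases hr : r ∈ S
    · obtain ⟨hn, hn'⟩ := lat_nm ha (hS.mem r hr)
      obtain ⟨P, hP⟩ := U_tors h hn hn'
      exact ⟨xc P, fun _ => hP.xc_eq (hS.out r hr)⟩
    · exact ⟨0, fun h1 => absurd h1 hr⟩
  choose t ht using hT
  have hj : j (ak Ω a) = eF F a := h.ovr _
  have hak : ak Ω a ≠ 0 := by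
    intro h1
    rw [h1, map_zero] at hj
    exact eF_ne ha hj.symm
  refine ⟨2 * S.card, nnP S t (ak Ω a) (algebraMap F Ω A) (algebraMap F Ω B), ddP S t,
    (nnP_deg S t hak _ _).1, (nnP_deg S t hak _ _).2, (ddP_deg S t).1, (ddP_deg S t).2, ?_⟩
  rw [nnP_map, ddP_map, hj, h.ovr, h.ovr]
  exact mr_nn h.per.ne h.per.g2 h.per.g3 hS _ fun r hr => ht r hr

end H55K.CC
end

-- from Lib.H55K.C23
section

open NumberField WeierstrassCurve Polynomial

namespace H55K.CC

/-! Chunk C23 (S/M). XL' = wp'/Om^2 = 2 Om YL. The function t -> XL(β t) D(XL t) - N(XL t) is 0 for t near z ({β t not in Λ} is open, H35P.compl_open), so its derivative at z is 0 (H35P.wp_hasDeriv, Polynomial.hasDerivAt, chain rule):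
β 2 Om YL(β z) D(x) + XL(β z) D'(x) 2 Om YL z - N'(x) 2 Om YL z = 0, x = XL z. Multiply by D(x)/(2 Om) and use XL(β z) D(x) = N(x). -/

theorem c23_XL {L : PeriodPair} {Om z : ℂ} (hO : Om ≠ 0) (hz : z ∉ L.lattice) :
    HasDerivAt (XL L Om) (2 * Om * YL L Om z) z := by
  have h1 := (H35P.wp_hasDeriv L z hz).div_const (Om ^ 2)
  have e1 : L.derivWeierstrassP z / Om ^ 2 = 2 * Om * YL L Om z := by
    unfold YL
    field_simp
  rw [e1] at h1
  exact h1

theorem mr_deriv {L : PeriodPair} {Om β : ℂ} (hO : Om ≠ 0) (st : ∀ l ∈ L.lattice, β * l ∈ L.lattice) {N D : Polynomial ℂ}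
    (h : MR L Om β N D) {z : ℂ} (hz : β * z ∉ L.lattice) :
    β * YL L Om (β * z) * D.eval (XL L Om z) ^ 2 =
      (derivative N * D - N * derivative D).eval (XL L Om z) * YL L Om z := by
  have hz0 : z ∉ L.lattice := fun h0 => hz (st z h0)
  have hβ : HasDerivAt (fun t : ℂ => β * t) β z := by
    simpa using (hasDerivAt_id z).const_mul β
  have h1 : HasDerivAt (fun t => XL L Om (β * t)) (2 * Om * YL L Om (β * z) * β) z :=
    HasDerivAt.comp z (c23_XL hO hz) hβ
  have h2 : HasDerivAt (fun t => D.eval (XL L Om t)) ((derivative D).eval (XL L Om z) * (2 * Om * YL L Om z)) z :=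
    HasDerivAt.comp z (D.hasDerivAt (XL L Om z)) (c23_XL hO hz0)
  have h3 : HasDerivAt (fun t => N.eval (XL L Om t)) ((derivative N).eval (XL L Om z) * (2 * Om * YL L Om z)) z :=
    HasDerivAt.comp z (N.hasDerivAt (XL L Om z)) (c23_XL hO hz0)
  have h4 := (h1.mul h2).sub h3
  have h5 : (fun t => XL L Om (β * t) * D.eval (XL L Om t) - N.eval (XL L Om t)) =ᶠ[nhds z] fun _ => (0 : ℂ) := by
    have ho : IsOpen {t : ℂ | β * t ∉ L.lattice} :=
      (H35P.compl_open L).preimage (continuous_const_mul β)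
    filter_upwards [ho.mem_nhds hz] with t ht
    rw [(h t ht).2, sub_self]
  have h6 : HasDerivAt (fun t => XL L Om (β * t) * D.eval (XL L Om t) - N.eval (XL L Om t)) 0 z :=
    (hasDerivAt_const z (0 : ℂ)).congr_of_eventuallyEq h5
  have h7 := h4.unique h6
  have h8 := (h z hz).2
  have h9 : (2 : ℂ) * Om ≠ 0 := mul_ne_zero two_ne_zero hO
  apply mul_left_cancel₀ h9
  simp only [eval_sub, eval_mul]
  linear_combination (D.eval (XL L Om z)) * h7 - 2 * Om * YL L Om z * (derivative D).eval (XL L Om z) * h8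

end H55K.CC
end

-- from Lib.H55K.C24
section

open NumberField WeierstrassCurve Polynomial

namespace H55K.CC

open H55P (IQ embF eF LF Per Pt ac mem_LF eF_inj eF_ne Nm Nm_eq)
open H35P (WAB)

variable {F : Type} [Field F] [NumberField F] [IQ F] {Ω : Type} [Field Ω] [DecidableEq Ω] [Algebra F Ω]
  {A B : F} {Om : ℂ} {j : Ω →+* ℂ}

/-! Chunk C24 (M). mr_ode: for z with β z not in Λ, x = XL z: square mr_deriv, yl_sq for z and β z, XL(β z) = N(x)/D(x): β^2 D (N^3 + A N D^2 + B D^3) = f (N'D - ND')^2 at x (multiply out D <> 0). The values x: every c is XL z for some z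
not in Λ (wp_surj, Om <> 0); if β z in Λ then z = r modulo Λ for some r in S (h.ex), c = XL r. So the two sides agree at all x outside the finite set XL(S): Polynomial.eq_of_infinite_eval_eq (the complement of a finite
set of ℂ is infinite). exists_ND: exists_ND0, mr_ode for (LF F), N.map j, D.map j (h.per, g2, g3; Rep from exists_Rep), the identity is the image under Polynomial.map j (injective: Polynomial.map_injective) of the identity over Ω
(derivative_map, map_mul ..., j(algebraMap F Ω A) = embF F A). -/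

theorem mr_ode {L : PeriodPair} {A B Om β : ℂ} (hO : Om ≠ 0) (g2 : L.g₂ = -4 * A * Om ^ 4)
    (g3 : L.g₃ = -4 * B * Om ^ 6) {S : Finset ℂ} (hS : Rep L β S) {N D : Polynomial ℂ} (h : MR L Om β N D) :
    (X ^ 3 + C A * X + C B) * (derivative N * D - N * derivative D) ^ 2 =
      C (β ^ 2) * D * (N ^ 3 + C A * N * D ^ 2 + C B * D ^ 3) := by
  classical
  refine Polynomial.eq_of_infinite_eval_eq _ _ ?_
  refine (Set.Finite.infinite_compl (Finset.finite_toSet (S.image (XL L Om)))).mono ?_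
  intro c hc
  obtain ⟨z, hz, hzc⟩ := wp_surj L (c * Om ^ 2)
  have hx : XL L Om z = c := by
    unfold XL
    rw [hzc, mul_div_cancel_right₀ _ (pow_ne_zero 2 hO)]
  have hb : β * z ∉ L.lattice := by
    intro h1
    rcases hS.ex z h1 with h2 | ⟨r, hr, h2⟩
    · exact hz h2
    · apply hc
      rw [Finset.mem_coe, Finset.mem_image]
      refine ⟨r, hr, ?_⟩
      rw [← hx]
      unfold XL
      rw [show z = r + (z - r) by ring, wp_per L r h2]
  obtain ⟨d0, e1⟩ := h z hb
  have e2 := mr_deriv hO hS.st h hb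
  have e3 := yl_sq L hO g2 g3 hz
  have e4 := yl_sq L hO g2 g3 hb
  rw [hx] at d0 e1 e2 e3
  change eval c _ = eval c _
  set Z := (derivative N * D - N * derivative D).eval c with hZ
  have e5 : eval c ((X ^ 3 + C A * X + C B) * (derivative N * D - N * derivative D) ^ 2) =
      (c ^ 3 + A * c + B) * Z ^ 2 := by
    rw [eval_mul, eval_pow, ← hZ]
    simp
  have e6 : eval c (C (β ^ 2) * D * (N ^ 3 + C A * N * D ^ 2 + C B * D ^ 3)) =
      β ^ 2 * D.eval c * (N.eval c ^ 3 + A * N.eval c * D.eval c ^ 2 + B * D.eval c ^ 3) := by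
    simp
  rw [e5, e6, ← e3, ← e1]
  have e7 : (β * YL L Om (β * z) * D.eval c ^ 2) ^ 2 = (Z * YL L Om z) ^ 2 := by rw [e2]
  linear_combination -e7 + β ^ 2 * D.eval c ^ 4 * e4

theorem exists_ND [IsAlgClosed Ω] (h : CH A B Om j) {a : 𝓞 F} (ha : a ≠ 0) : ∃ (d : ℕ) (N D : Polynomial Ω),
    ND (ak Ω a) (algebraMap F Ω A) (algebraMap F Ω B) d N D ∧ MR (LF F) Om (eF F a) (N.map j) (D.map j) := by
  obtain ⟨d, N, D, h1, h2, h3, h4, h5⟩ := exists_ND0 h ha
  obtain ⟨S, hS⟩ := exists_Rep (F := F) ha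
  refine ⟨d, N, D, ⟨h1, h2, h3, h4, ?_⟩, h5⟩
  have h6 := mr_ode h.per.ne h.per.g2 h.per.g3 hS h5
  apply Polynomial.map_injective j j.injective
  simp only [Polynomial.map_mul, Polynomial.map_add, Polynomial.map_pow, Polynomial.map_sub, map_X, map_C,
    ← derivative_map, h.ovr, map_pow]
  rw [Polynomial.C_pow] at h6
  exact h6

end H55K.CC
end

-- from Lib.H55K.C26
section

open NumberField WeierstrassCurve Polynomial

namespace H55K.CC

open H55P (IQ embF eF LF Per Pt ac mem_LF eF_inj eF_ne Nm Nm_eq)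
open H35P (WAB)

variable {F : Type} [Field F] [NumberField F] [IQ F] {Ω : Type} [Field Ω] [DecidableEq Ω] [Algebra F Ω]
  {A B : F} {Om : ℂ} {j : Ω →+* ℂ} {act : 𝓞 F →+* AddMonoid.End (Pt (WAB A B) Ω)}

/-! Chunk C26 (S/M). z with U P z (U_ex); U (act a P) (e(a) z), act a P <> 0 so e(a) z not in Λ and z not in Λ (U.zero_iff; act a 0 = 0). MR and mr_deriv at z (h.per.ne; the lattice is stable under e(a): mem_LF); XL z = j(xc P) etc.
(U.xc_eq, U.yc_eq), (N.map j).eval (j x) = j (N.eval x) (Polynomial.eval_map_apply / eval₂_at_apply, derivative_map, map_mul, map_sub), j(ak Ω a) = e(a) (h.ovr), injectivity of j. -/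

theorem act_xy (h : CH A B Om j) (hact : Act A B Om j act) {a : 𝓞 F} {N D : Polynomial Ω}
    (hM : MR (LF F) Om (eF F a) (N.map j) (D.map j)) {P : Pt (WAB A B) Ω} (hP : act a P ≠ 0) :
    D.eval (xc P) ≠ 0 ∧ xc (act a P) * D.eval (xc P) = N.eval (xc P) ∧
    ak Ω a * yc (act a P) * D.eval (xc P) ^ 2 =
      (derivative N * D - N * derivative D).eval (xc P) * yc P := by
  obtain ⟨z, hz⟩ := U_ex h P
  have hQ := hact a P z hz
  have haz : eF F a * z ∉ (LF F).lattice := fun h1 => hP ((hQ.zero_iff).2 h1)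
  have st : ∀ l ∈ (LF F).lattice, eF F a * l ∈ (LF F).lattice := by
    intro l hl
    obtain ⟨y, rfl⟩ := (mem_LF l).1 hl
    exact (mem_LF _).2 ⟨a * y, by rw [map_mul]⟩
  have hz0 : z ∉ (LF F).lattice := fun h1 => haz (st z h1)
  have ha : j (ak Ω a) = eF F a := h.ovr _
  have hx := hz.xc_eq hz0
  have hy := hz.yc_eq hz0
  have hX := hQ.xc_eq haz
  have hY := hQ.yc_eq haz
  obtain ⟨h1, h2⟩ := hM z haz
  have h3 := mr_deriv h.per.ne st hM haz
  have ev : ∀ (p : Polynomial Ω) (x : Ω), (p.map j).eval (j x) = j (p.eval x) := fun p x => by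
    rw [Polynomial.eval_map, Polynomial.eval₂_at_apply]
  rw [← hx, ev] at h1
  rw [← hx, ← hX, ev, ev] at h2
  rw [← hx, ← hY, ← hy, ev, derivative_map, derivative_map, ← Polynomial.map_mul, ← Polynomial.map_mul,
    ← Polynomial.map_sub, ev, ← ha] at h3
  refine ⟨fun h4 => h1 (by rw [h4, map_zero]), ?_, ?_⟩
  · apply j.injective
    rw [map_mul]
    exact h2
  · apply j.injective
    rw [map_mul, map_mul, map_mul, map_pow]
    exact h3

end H55K.CC
end

-- from Lib.H55K.C28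
section

open NumberField WeierstrassCurve Polynomial

namespace H55K.CC

open H55P (IQ embF eF LF Per Pt ac mem_LF eF_inj eF_ne Nm Nm_eq)
open H35P (WAB)

variable {F : Type} [Field F] [NumberField F] [IQ F] {Ω : Type} [Field Ω] [DecidableEq Ω] [Algebra F Ω]
  {A B : F} {Om : ℂ} {j : Ω →+* ℂ} {act : 𝓞 F →+* AddMonoid.End (Pt (WAB A B) Ω)}

/-! Chunk C28 (S/M). fin_ker: act a P = 0, U P z (U_ex): e(a) z in Λ, so z in Λ (P = 0) or z - r in Λ for some r in S (exists_Rep): U P r (U_mod), and P is determined by r (U_inj): the set is contained in {0} union the image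
of S under a choice function. inf_pt: n -> the point with parameter 1/(n+2) (U_tors): injective (U_mod: 1/(n+2) - 1/(m+2) in Λ has absolute value < 1; the elements <> 0 of Λ have absolute value ≥ 1: H55P.one_le_e, mem_LF).
add_fin: pure group theory: δ vanishes outside a finite set Z of the infinite group G: for P choose Q not in Z and not in {Q | P + Q in Z} (finite: preimage of a finite set under an injective map): δ P = δ (P + Q) - δ Q = 0. -/

theorem fin_ker [IsAlgClosed Ω] (h : CH A B Om j) (hact : Act A B Om j act) {a : 𝓞 F} (ha : a ≠ 0) :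
    {P : Pt (WAB A B) Ω | act a P = 0}.Finite := by
  classical
  obtain ⟨S, hS⟩ := exists_Rep ha
  have hf : ∀ r : ℂ, ∃ Q : Pt (WAB A B) Ω, (∃ P, U A B Om j P r) → U A B Om j Q r := by
    intro r
    by_cases h1 : ∃ P, U A B Om j P r
    · obtain ⟨P, hP⟩ := h1
      exact ⟨P, fun _ => hP⟩
    · exact ⟨0, fun h2 => absurd h2 h1⟩
  choose f hf using hf
  refine Set.Finite.subset ((Set.finite_singleton (0 : Pt (WAB A B) Ω)).union ((S.image f).finite_toSet)) ?_
  intro P hP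
  have hP' : act a P = 0 := hP
  obtain ⟨z, hz⟩ := U_ex h P
  have h1 : eF F a * z ∈ (LF F).lattice := ((hact a P z hz).zero_iff).1 hP'
  rcases hS.ex z h1 with h2 | ⟨r, hr, h2⟩
  · exact Or.inl ((hz.zero_iff).2 h2)
  · right
    have h3 : U A B Om j P r := (U_mod h hz).2 h2
    rw [U_inj h h3 (hf r ⟨P, h3⟩)]
    exact Finset.mem_coe.2 (Finset.mem_image_of_mem f hr)

theorem inf_pt [IsAlgClosed Ω] (h : CH A B Om j) : Infinite (Pt (WAB A B) Ω) := by
  have h1 : ∀ n : ℕ, ∃ P : Pt (WAB A B) Ω, U A B Om j P (1 / ((n : ℂ) + 2)) := by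
    intro n
    have h2 : ((n : ℂ) + 2) ≠ 0 := by exact_mod_cast (by omega : n + 2 ≠ 0)
    refine U_tors h (n := n + 2) (by omega) ?_
    rw [mem_LF]
    refine ⟨1, ?_⟩
    rw [map_one]
    push_cast
    field_simp
  choose f hf using h1
  refine Infinite.of_injective f ?_
  intro m n hmn
  have h2 := hf m
  rw [hmn] at h2
  have h3 := (U_mod h h2).1 (hf n)
  obtain ⟨y, hy⟩ := (mem_LF _).1 h3
  have e1 : (1 : ℂ) / ((m : ℂ) + 2) - 1 / ((n : ℂ) + 2) = ((1 / ((m : ℝ) + 2) - 1 / ((n : ℝ) + 2) : ℝ) : ℂ) := by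
    push_cast
    ring
  have hm : (0 : ℝ) < 1 / ((m : ℝ) + 2) ∧ 1 / ((m : ℝ) + 2) < 1 := by
    have h4 : (0 : ℝ) < (m : ℝ) + 2 := by positivity
    refine ⟨by positivity, ?_⟩
    rw [div_lt_one h4]
    have : (0 : ℝ) ≤ m := Nat.cast_nonneg m
    linarith
  have hn : (0 : ℝ) < 1 / ((n : ℝ) + 2) ∧ 1 / ((n : ℝ) + 2) < 1 := by
    have h4 : (0 : ℝ) < (n : ℝ) + 2 := by positivity
    refine ⟨by positivity, ?_⟩
    rw [div_lt_one h4]
    have : (0 : ℝ) ≤ n := Nat.cast_nonneg n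
    linarith
  by_cases hy0 : y = 0
  · rw [hy0, map_zero, e1] at hy
    have h5 : (1 / ((m : ℝ) + 2) - 1 / ((n : ℝ) + 2) : ℝ) = 0 := by exact_mod_cast hy
    have h6 : (m : ℝ) + 2 = (n : ℝ) + 2 := by
      have h7 : 1 / ((m : ℝ) + 2) = 1 / ((n : ℝ) + 2) := by linarith
      have h8 : (0 : ℝ) < (m : ℝ) + 2 := by positivity
      have h9 : (0 : ℝ) < (n : ℝ) + 2 := by positivity
      field_simp at h7
      linarith
    have h7 : (m : ℝ) = n := by linarith
    exact_mod_cast h7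
  · exfalso
    have h5 := H55P.one_le_e hy0
    rw [← hy, e1, Complex.norm_real, Real.norm_eq_abs] at h5
    have h6 : |1 / ((m : ℝ) + 2) - 1 / ((n : ℝ) + 2)| < 1 := by
      rw [abs_lt]
      constructor <;> linarith [hm.1, hm.2, hn.1, hn.2]
    linarith

theorem add_fin {G H : Type} [AddCommGroup G] [AddCommGroup H] [Infinite G] (δ : G →+ H) {Z : Set G} (hZ : Z.Finite)
    (h : ∀ P, P ∉ Z → δ P = 0) (P : G) : δ P = 0 := by
  have h1 : (Z ∪ (fun Q => P + Q) ⁻¹' Z).Finite := by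
    refine hZ.union (hZ.preimage ?_)
    intro x _ y _ hxy
    exact add_left_cancel hxy
  obtain ⟨Q, hQ⟩ := h1.exists_notMem
  have h2 : Q ∉ Z := fun h3 => hQ (Or.inl h3)
  have h3 : P + Q ∉ Z := fun h4 => hQ (Or.inr h4)
  have h4 := h _ h3
  rw [map_add, h _ h2, add_zero] at h4
  exact h4

end H55K.CC
end

-- from Lib.H55K.C27
section

open NumberField WeierstrassCurve Polynomial

namespace H55K.CC

open H55P (IQ embF eF LF Per Pt ac mem_LF eF_inj eF_ne Nm Nm_eq)
open H35P (WAB)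

variable {F : Type} [Field F] [NumberField F] [IQ F] {Ω : Type} [Field Ω] [DecidableEq Ω] [Algebra F Ω]
  {A B : F} {Om : ℂ} {j : Ω →+* ℂ} {act : 𝓞 F →+* AddMonoid.End (Pt (WAB A B) Ω)}

/-! Chunk C27 (M). xc (ac s P) = s (xc P), yc the same (cases on P; ac is Affine.Point.map). N, D from exists_ND; Ns = N.map s, Ds = D.map s (s as a ring homomorphism): ND_map (s fixes the image of F), ND_unique: Ns D = N Ds. act_xy for P,
apply s: with x = s (xc P) = xc (ac s P), y = s (yc P): X1 = s (xc (act a P)), Y1 = s (yc (act a P)): Ds(x) <> 0, X1 Ds(x) = Ns(x), α Y1 Ds(x)^2 = (Ns' Ds - Ns Ds')(x) y. act_xy for ac s P: D(x) <> 0, X2 D(x) = N(x),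
α Y2 D(x)^2 = (N'D - ND')(x) y. Evaluate Ns D = N Ds and its derivative at x: with n' = Ns(x), d' = Ds(x), n = N(x), d = D(x), n1', d1', n1, d1 the derivatives: n' d = n d', n1' d + n' d1 = n1 d' + n d1'. X1 d' d = n' d = n d' = X2 d d'.
(n1' d' - n' d1') d^2 = (n1 d - n d1) d'^2 (linear_combination), so Y1 = Y2. The two points are not 0 and have the same coordinates: equal (cases). -/

omit [NumberField F] [IQ F] [DecidableEq Ω] in
theorem c27_ne (W : WeierstrassCurve F) [DecidableEq Ω] (s : Ω ≃ₐ[F] Ω) {P : Pt W Ω} (hP : P ≠ 0) :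
    ac W s P ≠ 0 := by
  rcases P with _ | ⟨x, y, h⟩
  · exact absurd rfl hP
  · unfold ac
    rw [Affine.Point.map_some]
    exact Affine.Point.some_ne_zero _

omit [NumberField F] [IQ F] [DecidableEq Ω] in
theorem c27_xc (W : WeierstrassCurve F) [DecidableEq Ω] (s : Ω ≃ₐ[F] Ω) (P : Pt W Ω) :
    xc (ac W s P) = s (xc P) := by
  rcases P with _ | ⟨x, y, h⟩
  · have : ac W s (Affine.Point.zero : Pt W Ω) = 0 := map_zero _
    rw [this]
    exact (map_zero s).symm
  · unfold ac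
    rw [Affine.Point.map_some]
    rfl

omit [NumberField F] [IQ F] [DecidableEq Ω] in
theorem c27_yc (W : WeierstrassCurve F) [DecidableEq Ω] (s : Ω ≃ₐ[F] Ω) (P : Pt W Ω) :
    yc (ac W s P) = s (yc P) := by
  rcases P with _ | ⟨x, y, h⟩
  · have : ac W s (Affine.Point.zero : Pt W Ω) = 0 := map_zero _
    rw [this]
    exact (map_zero s).symm
  · unfold ac
    rw [Affine.Point.map_some]
    rfl

omit [NumberField F] [IQ F] [DecidableEq Ω] in
theorem c27_ext {W : WeierstrassCurve F} {P Q : Pt W Ω} (hP : P ≠ 0) (hQ : Q ≠ 0) (hx : xc P = xc Q)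
    (hy : yc P = yc Q) : P = Q := by
  rcases P with _ | ⟨x, y, h⟩
  · exact absurd rfl hP
  · rcases Q with _ | ⟨x', y', h'⟩
    · exact absurd rfl hQ
    · have h1 : x = x' := hx
      have h2 : y = y' := hy
      subst h1
      subst h2
      rfl

theorem gal_gen [IsAlgClosed Ω] (h : CH A B Om j) (hact : Act A B Om j act) {a : 𝓞 F} (ha : a ≠ 0) (s : Ω ≃ₐ[F] Ω)
    {P : Pt (WAB A B) Ω} (h1 : act a P ≠ 0) (h2 : act a (ac (WAB A B) s P) ≠ 0) :
    ac (WAB A B) s (act a P) = act a (ac (WAB A B) s P) := by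
  have hc : CharZero Ω := charZero_of_injective_algebraMap (algebraMap F Ω).injective
  obtain ⟨d, N, D, hND, hMR⟩ := exists_ND h ha
  have hα : ak Ω a ≠ 0 := by
    intro h0
    apply ha
    have e1 : algebraMap F Ω (a : F) = algebraMap F Ω 0 := by rw [map_zero]; exact h0
    have e2 := (algebraMap F Ω).injective e1
    exact_mod_cast e2
  have hev : ∀ (q : Polynomial Ω) (x : Ω), (q.map (s : Ω →+* Ω)).eval (s x) = s (q.eval x) := by
    intro q x
    rw [eval_map]
    exact eval₂_at_apply (s : Ω →+* Ω) x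
  have hmap := ND_map hND (s : Ω →+* Ω) (s.commutes _) (s.commutes _) (s.commutes _)
  have heq := ND_unique hα hmap hND
  obtain ⟨p1, p2, p3⟩ := act_xy h hact hMR h1
  obtain ⟨q1, q2, q3⟩ := act_xy h hact hMR h2
  rw [c27_xc] at q1 q2 q3
  rw [c27_yc] at q3
  have heq1 := congrArg (eval (s (xc P))) heq
  have heq2 := congrArg (fun r => eval (s (xc P)) (derivative r)) heq
  simp only [derivative_mul, eval_add, eval_mul] at heq1 heq2
  rw [hev, hev] at heq1
  rw [hev, hev, derivative_map, derivative_map, hev, hev] at heq2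
  have r1 : s (D.eval (xc P)) ≠ 0 := (map_ne_zero s).2 p1
  have r2 := congrArg s p2
  have r3 := congrArg s p3
  have hs1 : s (ak Ω a) = ak Ω a := s.commutes _
  simp only [eval_sub, eval_mul, map_mul, map_sub, map_pow, hs1] at r2 r3 q3
  have hx : xc (ac (WAB A B) s (act a P)) = xc (act a (ac (WAB A B) s P)) := by
    rw [c27_xc]
    apply mul_right_cancel₀ (mul_ne_zero r1 q1)
    linear_combination (D.eval (s (xc P))) * r2 + heq1 - (s (D.eval (xc P))) * q2
  have hy : yc (ac (WAB A B) s (act a P)) = yc (act a (ac (WAB A B) s P)) := by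
    rw [c27_yc]
    apply mul_right_cancel₀ (mul_ne_zero (mul_ne_zero hα (pow_ne_zero 2 r1)) (pow_ne_zero 2 q1))
    linear_combination (D.eval (s (xc P))) ^ 2 * r3 - (s (D.eval (xc P))) ^ 2 * q3 +
      (s (D.eval (xc P)) * D.eval (s (xc P)) * s (yc P)) * heq2 -
      ((s ((derivative D).eval (xc P)) * D.eval (s (xc P)) + (derivative D).eval (s (xc P)) * s (D.eval (xc P))) *
        s (yc P)) * heq1
  exact c27_ext (c27_ne _ s h1) h2 hx hy

end H55K.CC
end

-- from Lib.H55K.CG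
section

/-! # H55K, part C: automorphisms of Ω which are the complex conjugation on F -/

open NumberField WeierstrassCurve Polynomial

namespace H55K

open H55P (IQ embF eF LF Per Pt ac mem_LF eF_inj eF_ne Nm Nm_eq)
open H35P (WAB)
open CC (CH Act U ND MR)

section action

variable {F : Type} [Field F] {Ω : Type} [Field Ω] [Algebra F Ω] {A B : F}

/-- The fixed field of s. -/
def cgS (s : Ω ≃+* Ω) : Subfield Ω where
  carrier := {x | s x = x}
  mul_mem' := fun {x y} hx hy => by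
    show s (x * y) = x * y
    rw [map_mul, show s x = x from hx, show s y = y from hy]
  one_mem' := map_one s
  add_mem' := fun {x y} hx hy => by
    show s (x + y) = x + y
    rw [map_add, show s x = x from hx, show s y = y from hy]
  zero_mem' := map_zero s
  neg_mem' := fun {x} hx => by
    show s (-x) = -x
    rw [map_neg, show s x = x from hx]
  inv_mem' := fun x hx => by
    show s x⁻¹ = x⁻¹
    rw [map_inv₀, show s x = x from hx]

/-- s as an algebra homomorphism over its fixed field. -/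
def cgH (s : Ω ≃+* Ω) : Ω →ₐ[cgS s] Ω where
  toRingHom := (s : Ω →+* Ω)
  commutes' := fun x => x.2

theorem exists_pm [DecidableEq Ω] (s : Ω ≃+* Ω) (E : WeierstrassCurve Ω) (hE : E.map (s : Ω →+* Ω) = E) :
    ∃ f : E.toAffine.Point →+ E.toAffine.Point, ∀ P, xc (f P) = s (xc P) ∧ yc (f P) = s (yc P) ∧ (f P = 0 ↔ P = 0) := by
  have h1 : s E.a₁ = E.a₁ := congrArg WeierstrassCurve.a₁ hE
  have h2 : s E.a₂ = E.a₂ := congrArg WeierstrassCurve.a₂ hE
  have h3 : s E.a₃ = E.a₃ := congrArg WeierstrassCurve.a₃ hE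
  have h4 : s E.a₄ = E.a₄ := congrArg WeierstrassCurve.a₄ hE
  have h6 : s E.a₆ = E.a₆ := congrArg WeierstrassCurve.a₆ hE
  obtain ⟨W, rfl⟩ : ∃ W : WeierstrassCurve (cgS s), W⁄Ω = E :=
    ⟨⟨⟨E.a₁, h1⟩, ⟨E.a₂, h2⟩, ⟨E.a₃, h3⟩, ⟨E.a₄, h4⟩, ⟨E.a₆, h6⟩⟩, rfl⟩
  refine ⟨Affine.Point.map (W' := W.toAffine) (cgH s), fun P => ?_⟩
  rcases P with _ | ⟨x, y, h⟩
  · refine ⟨(map_zero s).symm, (map_zero s).symm, ?_⟩
    exact ⟨fun _ => rfl, fun _ => map_zero _⟩
  · rw [Affine.Point.map_some]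
    exact ⟨rfl, rfl, ⟨fun h0 => absurd h0 (Affine.Point.some_ne_zero _), fun h0 => absurd h0 (Affine.Point.some_ne_zero _)⟩⟩

theorem cg_map (s : Ω ≃+* Ω) (hA : s (algebraMap F Ω A) = algebraMap F Ω A)
    (hB : s (algebraMap F Ω B) = algebraMap F Ω B) : ((WAB A B)⁄Ω).map (s : Ω →+* Ω) = (WAB A B)⁄Ω := by
  ext <;> simp [WAB, WeierstrassCurve.map, WeierstrassCurve.baseChange, hA, hB]

variable [DecidableEq Ω]

/-- The action of an automorphism s of Ω fixing A and B on the points over Ω. -/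
noncomputable def acr (s : Ω ≃+* Ω) (hA : s (algebraMap F Ω A) = algebraMap F Ω A)
    (hB : s (algebraMap F Ω B) = algebraMap F Ω B) : Pt (WAB A B) Ω →+ Pt (WAB A B) Ω :=
  (exists_pm s ((WAB A B)⁄Ω) (cg_map s hA hB)).choose

theorem xc_acr (s : Ω ≃+* Ω) (hA : s (algebraMap F Ω A) = algebraMap F Ω A)
    (hB : s (algebraMap F Ω B) = algebraMap F Ω B) (P : Pt (WAB A B) Ω) : xc (acr s hA hB P) = s (xc P) :=
  ((exists_pm s ((WAB A B)⁄Ω) (cg_map s hA hB)).choose_spec P).1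

theorem yc_acr (s : Ω ≃+* Ω) (hA : s (algebraMap F Ω A) = algebraMap F Ω A)
    (hB : s (algebraMap F Ω B) = algebraMap F Ω B) (P : Pt (WAB A B) Ω) : yc (acr s hA hB P) = s (yc P) :=
  ((exists_pm s ((WAB A B)⁄Ω) (cg_map s hA hB)).choose_spec P).2.1

theorem acr_zero_iff (s : Ω ≃+* Ω) (hA : s (algebraMap F Ω A) = algebraMap F Ω A)
    (hB : s (algebraMap F Ω B) = algebraMap F Ω B) (P : Pt (WAB A B) Ω) : acr s hA hB P = 0 ↔ P = 0 :=
  ((exists_pm s ((WAB A B)⁄Ω) (cg_map s hA hB)).choose_spec P).2.2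

theorem acr_inj (s : Ω ≃+* Ω) (hA : s (algebraMap F Ω A) = algebraMap F Ω A)
    (hB : s (algebraMap F Ω B) = algebraMap F Ω B) : Function.Injective (acr (A := A) (B := B) s hA hB) := by
  intro P Q hPQ
  have h : acr (A := A) (B := B) s hA hB (P - Q) = 0 := by
    rw [map_sub, hPQ, sub_self]
  exact sub_eq_zero.1 ((acr_zero_iff s hA hB _).1 h)

/-- For automorphisms over F this is the usual action. -/
theorem acr_eq_ac (s : Ω ≃ₐ[F] Ω) (hA : (s : Ω ≃+* Ω) (algebraMap F Ω A) = algebraMap F Ω A)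
    (hB : (s : Ω ≃+* Ω) (algebraMap F Ω B) = algebraMap F Ω B) (P : Pt (WAB A B) Ω) :
    acr (s : Ω ≃+* Ω) hA hB P = ac (WAB A B) s P := by
  by_cases hP : P = 0
  · rw [hP, map_zero, map_zero]
  · refine CC.c27_ext (fun h => hP ((acr_zero_iff _ hA hB P).1 h)) (CC.c27_ne _ s hP) ?_ ?_
    · rw [xc_acr, CC.c27_xc]
      rfl
    · rw [yc_acr, CC.c27_yc]
      rfl

/-- Composition. -/
theorem acr_trans (s t : Ω ≃+* Ω) (hA : s (algebraMap F Ω A) = algebraMap F Ω A)
    (hB : s (algebraMap F Ω B) = algebraMap F Ω B) (hA' : t (algebraMap F Ω A) = algebraMap F Ω A)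
    (hB' : t (algebraMap F Ω B) = algebraMap F Ω B) (hA'' : (s.trans t) (algebraMap F Ω A) = algebraMap F Ω A)
    (hB'' : (s.trans t) (algebraMap F Ω B) = algebraMap F Ω B) (P : Pt (WAB A B) Ω) :
    acr t hA' hB' (acr s hA hB P) = acr (s.trans t) hA'' hB'' P := by
  by_cases hP : P = 0
  · rw [hP, map_zero, map_zero, map_zero]
  · refine CC.c27_ext (fun h => hP ((acr_zero_iff s hA hB P).1 ((acr_zero_iff _ hA' hB' _).1 h)))
      (fun h => hP ((acr_zero_iff _ hA'' hB'' P).1 h)) ?_ ?_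
    · rw [xc_acr, xc_acr, xc_acr]
      rfl
    · rw [yc_acr, yc_acr, yc_acr]
      rfl

end action

variable {F : Type} [Field F] [NumberField F] [IQ F] {Ω : Type} [Field Ω] [DecidableEq Ω] [Algebra F Ω]
  {A B : F} {Om : ℂ} {j : Ω →+* ℂ} {act : 𝓞 F →+* AddMonoid.End (Pt (WAB A B) Ω)}

omit [DecidableEq Ω] [Algebra F Ω] [NumberField F] [IQ F] [Field F] in
theorem cg_ND {α β A B : Ω} {d : ℕ} {N D : Polynomial Ω} (h : ND α A B d N D) (s : Ω →+* Ω)
    (h1 : s α = β) (h2 : s A = A) (h3 : s B = B) : ND β A B d (N.map s) (D.map s) := by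
  refine ⟨(natDegree_map_le).trans h.dN, ?_, (natDegree_map_le).trans h.dD, ?_, ?_⟩
  · rw [coeff_map]
    have := congrArg s h.cN
    rwa [map_mul, map_pow, h1, map_one] at this
  · rw [coeff_map, h.cD, map_one]
  · have := congrArg (Polynomial.map s) h.ode
    simp only [Polynomial.map_mul, Polynomial.map_add, Polynomial.map_sub, Polynomial.map_pow, map_X, map_C,
      map_pow, h1, h2, h3, ← derivative_map] at this
    simpa only [map_pow] using this

theorem cg_gen [IsAlgClosed Ω] (h : CH A B Om j) (hact : Act A B Om j act) {a : 𝓞 F} (ha : a ≠ 0) (s : Ω ≃+* Ω)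
    (hA : s (algebraMap F Ω A) = algebraMap F Ω A) (hB : s (algebraMap F Ω B) = algebraMap F Ω B)
    (hs : s (ak Ω a) = ak Ω (cj a))
    {P : Pt (WAB A B) Ω} (h1 : act a P ≠ 0) (h2 : act (cj a) (acr s hA hB P) ≠ 0) :
    acr s hA hB (act a P) = act (cj a) (acr s hA hB P) := by
  have hc : CharZero Ω := charZero_of_injective_algebraMap (algebraMap F Ω).injective
  have ha' : cj a ≠ 0 := fun h0 => ha ((map_eq_zero_iff (cj (F := F)) (cj (F := F)).injective).1 h0)
  obtain ⟨d, N, D, hND, hMR⟩ := CC.exists_ND h ha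
  obtain ⟨e, M, E, hME, hMR'⟩ := CC.exists_ND h ha'
  have hα : ak Ω (cj a) ≠ 0 := by
    intro h0
    apply ha'
    have e1 : algebraMap F Ω ((cj a : 𝓞 F) : F) = algebraMap F Ω 0 := by rw [map_zero]; exact h0
    have e2 := (algebraMap F Ω).injective e1
    exact_mod_cast e2
  have hev : ∀ (q : Polynomial Ω) (x : Ω), (q.map (s : Ω →+* Ω)).eval (s x) = s (q.eval x) := by
    intro q x
    rw [eval_map]
    exact eval₂_at_apply (s : Ω →+* Ω) x
  have hmap := cg_ND hND (s : Ω →+* Ω) hs hA hB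
  have heq := CC.ND_unique hα hmap hME
  obtain ⟨p1, p2, p3⟩ := CC.act_xy h hact hMR h1
  obtain ⟨q1, q2, q3⟩ := CC.act_xy h hact hMR' h2
  rw [xc_acr] at q1 q2 q3
  rw [yc_acr] at q3
  have heq1 := congrArg (eval (s (xc P))) heq
  have heq2 := congrArg (fun r => eval (s (xc P)) (derivative r)) heq
  simp only [derivative_mul, eval_add, eval_mul] at heq1 heq2
  rw [hev, hev] at heq1
  rw [hev, hev, derivative_map, derivative_map, hev, hev] at heq2
  have r1 : s (D.eval (xc P)) ≠ 0 := (map_ne_zero s).2 p1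
  have r2 := congrArg s p2
  have r3 := congrArg s p3
  simp only [eval_sub, eval_mul, map_mul, map_sub, map_pow, hs] at r2 r3 q3
  have hx : xc (acr s hA hB (act a P)) = xc (act (cj a) (acr s hA hB P)) := by
    rw [xc_acr]
    apply mul_right_cancel₀ (mul_ne_zero r1 q1)
    linear_combination (E.eval (s (xc P))) * r2 + heq1 - (s (D.eval (xc P))) * q2
  have hy : yc (acr s hA hB (act a P)) = yc (act (cj a) (acr s hA hB P)) := by
    rw [yc_acr]
    apply mul_right_cancel₀ (mul_ne_zero (mul_ne_zero hα (pow_ne_zero 2 r1)) (pow_ne_zero 2 q1))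
    linear_combination (E.eval (s (xc P))) ^ 2 * r3 - (s (D.eval (xc P))) ^ 2 * q3 +
      (s (D.eval (xc P)) * E.eval (s (xc P)) * s (yc P)) * heq2 -
      ((s ((derivative D).eval (xc P)) * E.eval (s (xc P)) + (derivative E).eval (s (xc P)) * s (D.eval (xc P))) *
        s (yc P)) * heq1
  exact CC.c27_ext (fun h0 => h1 ((acr_zero_iff s hA hB _).1 h0)) h2 hx hy

/-- An automorphism of Ω which is the complex conjugation on F and fixes A and B is semilinear. -/
theorem cm_galr [IsAlgClosed Ω] (h : CH A B Om j) (hact : Act A B Om j act) (s : Ω ≃+* Ω)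
    (hA : s (algebraMap F Ω A) = algebraMap F Ω A) (hB : s (algebraMap F Ω B) = algebraMap F Ω B)
    (hs : ∀ a : 𝓞 F, s (ak Ω a) = ak Ω (cj a)) (a : 𝓞 F)
    (P : Pt (WAB A B) Ω) : acr s hA hB (act a P) = act (cj a) (acr s hA hB P) := by
  by_cases ha : a = 0
  · subst ha
    have h0 : ∀ Q : Pt (WAB A B) Ω, act 0 Q = 0 := fun Q => by
      rw [map_zero]
      rfl
    rw [h0, map_zero, map_zero, h0]
  · have ha' : cj a ≠ 0 := fun h0 => ha ((map_eq_zero_iff (cj (F := F)) (cj (F := F)).injective).1 h0)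
    have := CC.inf_pt h
    set δ : Pt (WAB A B) Ω →+ Pt (WAB A B) Ω :=
      (acr s hA hB).comp (act a : Pt (WAB A B) Ω →+ Pt (WAB A B) Ω) -
      (act (cj a) : Pt (WAB A B) Ω →+ Pt (WAB A B) Ω).comp (acr s hA hB) with hδ
    have h1 : ∀ Q, δ Q = acr s hA hB (act a Q) - act (cj a) (acr s hA hB Q) := fun Q => rfl
    have hf := CC.fin_ker h hact ha
    have hf' := CC.fin_ker h hact ha'
    have hZ : ({Q : Pt (WAB A B) Ω | act a Q = 0} ∪ {Q | act (cj a) (acr s hA hB Q) = 0}).Finite := by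
      refine hf.union (hf'.preimage (f := fun Q => acr s hA hB Q) ?_)
      exact (acr_inj s hA hB).injOn
    have h3 := CC.add_fin δ hZ (fun Q hQ => by
      rw [h1, sub_eq_zero]
      exact cg_gen h hact ha s hA hB (hs a) (fun h4 => hQ (Or.inl h4)) (fun h4 => hQ (Or.inr h4))) P
    rw [h1, sub_eq_zero] at h3
    exact h3

end H55K
end

-- from Lib.H55K.C16
section

open NumberField WeierstrassCurve Polynomial

namespace H55K.CC

open H55P (IQ embF eF LF Per Pt ac mem_LF eF_inj eF_ne Nm Nm_eq)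
open H35P (WAB)

variable {F : Type} [Field F] [NumberField F] [IQ F] {Ω : Type} [Field Ω] [DecidableEq Ω] [Algebra F Ω]
  {A B : F} {Om : ℂ} {j : Ω →+* ℂ}

/-! Chunk C16 (M). If e(a) z in Λ (in particular if a = 0): Q = 0. Otherwise a <> 0, S from exists_Rep; for r in S a point T_r with U T_r r (U_tors, lat_nm); z + r not in Λ (Rep.zr_out), so
XL(z + r) = j(xc(P + T_r)), YL(z + r) = j(yc(P + T_r)) (U_add, U.xc_eq, U.yc_eq). E1, E1d divided by Om^2, 2 Om^3: XL(e(a) z), YL(e(a) z) are in the range of j (e(a) = j(ak Ω a): h.ovr), a subring closed under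
division (write them as j of explicit elements; j(∑ ..) = ∑ j(..), map_div₀). U_alg. -/

theorem U_act [IsAlgClosed Ω] (h : CH A B Om j) (a : 𝓞 F) {P : Pt (WAB A B) Ω} {z : ℂ} (hP : U A B Om j P z) :
    ∃ Q, U A B Om j Q (eF F a * z) := by
  classical
  by_cases hz : eF F a * z ∈ (LF F).lattice
  · exact ⟨0, Or.inl ⟨rfl, hz⟩⟩
  have ha : a ≠ 0 := by
    rintro rfl
    apply hz
    rw [map_zero, zero_mul]
    exact zero_mem _
  obtain ⟨S, hS⟩ := exists_Rep ha
  have hT : ∀ r, r ∈ S → ∃ T, U A B Om j T r := by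
    intro r hr
    obtain ⟨h1, h2⟩ := lat_nm ha (hS.mem r hr)
    exact U_tors h h1 h2
  choose! T hT using hT
  have hz0 := hS.z_out hz
  have e0 : j (algebraMap F Ω (a : F)) = eF F a := h.ovr (a : F)
  have hb : eF F a ≠ 0 := eF_ne ha
  have hx : j ((xc P + ∑ r ∈ S, (xc (P + T r) - xc (T r))) / algebraMap F Ω (a : F) ^ 2) =
      XL (LF F) Om (eF F a * z) := by
    rw [map_div₀, map_add, map_pow, map_sum, e0, hP.xc_eq hz0]
    have e1 : ∀ r ∈ S, j (xc (P + T r) - xc (T r)) = XL (LF F) Om (z + r) - XL (LF F) Om r := by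
      intro r hr
      rw [map_sub, (U_add h hP (hT r hr)).xc_eq (hS.zr_out hz hr), (hT r hr).xc_eq (hS.out r hr)]
    rw [Finset.sum_congr rfl e1, div_eq_iff (pow_ne_zero 2 hb)]
    have e2 := E1 hS hz
    unfold XL
    rw [div_mul_eq_mul_div, mul_comm _ (eF F a ^ 2), e2, add_div, Finset.sum_div]
    congr 1
    exact Finset.sum_congr rfl fun r _ => by rw [sub_div]
  have hy : j ((yc P + ∑ r ∈ S, yc (P + T r)) / algebraMap F Ω (a : F) ^ 3) =
      YL (LF F) Om (eF F a * z) := by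
    rw [map_div₀, map_add, map_pow, map_sum, e0, hP.yc_eq hz0]
    have e1 : ∀ r ∈ S, j (yc (P + T r)) = YL (LF F) Om (z + r) := by
      intro r hr
      rw [(U_add h hP (hT r hr)).yc_eq (hS.zr_out hz hr)]
    rw [Finset.sum_congr rfl e1, div_eq_iff (pow_ne_zero 3 hb)]
    have e2 := E1d hS hz
    unfold YL
    rw [div_mul_eq_mul_div, mul_comm _ (eF F a ^ 3), e2, add_div, Finset.sum_div]
  exact U_alg h hz hx hy

end H55K.CC
end

-- from Lib.H55K.C17
section

open NumberField WeierstrassCurve Polynomial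

namespace H55K.CC

open H55P (IQ embF eF LF Per Pt ac mem_LF eF_inj eF_ne Nm Nm_eq)
open H35P (WAB)

variable {F : Type} [Field F] [NumberField F] [IQ F] {Ω : Type} [Field Ω] [DecidableEq Ω] [Algebra F Ω]
  {A B : F} {Om : ℂ} {j : Ω →+* ℂ}

/-! Chunk C17 (S/M). Choose z for every P (U_ex) and act a P with U (act a P) (e(a) z) (U_act). If U P z' then z - z' in Λ (U_mod), e(a) (z - z') in Λ (mem_LF), so U (act a P) (e(a) z') (U_mod).
All the identities (act a (P + Q) = act a P + act a Q, act (a + b) P, act (a b) P, act 1 P, act 0 P = 0) by U_inj: both sides have the same parameter (U_add; U 0 0). AddMonoidHom.mk', RingHom structure on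
AddMonoid.End (mul is composition). -/

theorem exists_act [IsAlgClosed Ω] (h : CH A B Om j) :
    ∃ act : 𝓞 F →+* AddMonoid.End (Pt (WAB A B) Ω), Act A B Om j act := by
  have hz : ∀ P : Pt (WAB A B) Ω, ∃ z, U A B Om j P z := U_ex h
  choose ζ hζ using hz
  have hf : ∀ (a : 𝓞 F) (P : Pt (WAB A B) Ω), ∃ Q : Pt (WAB A B) Ω, U A B Om j Q (eF F a * ζ P) :=
    fun a P => U_act h a (hζ P)
  choose f hf using hf
  have hu : ∀ (a : 𝓞 F) (P : Pt (WAB A B) Ω) (z : ℂ), U A B Om j P z → U A B Om j (f a P) (eF F a * z) := by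
    intro a P z hP
    rw [U_mod h (hf a P)]
    have h1 := (U_mod h (hζ P)).1 hP
    obtain ⟨y, hy⟩ := (mem_LF _).1 h1
    rw [← mul_sub, hy, ← map_mul]
    exact (mem_LF _).2 ⟨a * y, rfl⟩
  have h0 : U A B Om j (0 : Pt (WAB A B) Ω) 0 := Or.inl ⟨rfl, zero_mem _⟩
  have hadd : ∀ (a : 𝓞 F) (P Q : Pt (WAB A B) Ω), f a (P + Q) = f a P + f a Q := by
    intro a P Q
    have h1 := hu a (P + Q) _ (U_add h (hζ P) (hζ Q))
    have h2 := U_add h (hf a P) (hf a Q)
    rw [← mul_add] at h2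
    exact U_inj h h1 h2
  let g : 𝓞 F → AddMonoid.End (Pt (WAB A B) Ω) := fun a => AddMonoidHom.mk' (f a) (hadd a)
  have hg : ∀ a P, g a P = f a P := fun a P => rfl
  refine ⟨{ toFun := g, map_one' := ?_, map_mul' := ?_, map_zero' := ?_, map_add' := ?_ }, ?_⟩
  · refine AddMonoidHom.ext fun P => ?_
    have h1 := hf 1 P
    rw [map_one, one_mul] at h1
    exact U_inj h h1 (hζ P)
  · intro a b
    refine AddMonoidHom.ext fun P => ?_
    have h1 := hf (a * b) P
    have h2 := hu a _ _ (hf b P)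
    rw [map_mul, mul_assoc] at h1
    exact U_inj h h1 h2
  · refine AddMonoidHom.ext fun P => ?_
    have h1 := hf 0 P
    rw [map_zero, zero_mul] at h1
    exact U_inj h h1 h0
  · intro a b
    refine AddMonoidHom.ext fun P => ?_
    have h1 := hf (a + b) P
    have h2 := U_add h (hf a P) (hf b P)
    rw [map_add, add_mul] at h1
    exact U_inj h h1 h2
  · intro a P z hP
    exact hu a P z hP

end H55K.CC
end

-- from Lib.H55K.C18
section

open NumberField WeierstrassCurve Polynomial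

namespace H55K.CC

open H55P (IQ embF eF LF Per Pt ac mem_LF eF_inj eF_ne Nm Nm_eq)
open H35P (WAB)

variable {F : Type} [Field F] [NumberField F] [IQ F] {Ω : Type} [Field Ω] [DecidableEq Ω] [Algebra F Ω]
  {A B : F} {Om : ℂ} {j : Ω →+* ℂ} {act : 𝓞 F →+* AddMonoid.End (Pt (WAB A B) Ω)}

/-! Chunk C18 (S/M). act_surj: n = Nm b > 0 is b c (Ideal.absNorm_mem); P = n • P' by H55P.div_pt (the curve is elliptic: Δ = -16 (4A^3 + 27B^2), see Lib/H35P/B1.lean B1_delta; CharZero Ω: charZero_of_injective_algebraMap), so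
P = act (n) P' = act b (act c P') (map_natCast, map_mul). act_gen: T0 with U T0 (1/e(b)) (U_tors, lat_nm). T in Tor act b, U T w (U_ex): U 0 (e(b) w), so e(b) w = e(a) (mem_LF), and T, act a T0 have the same
parameter e(a)/e(b) = w (U_inj). act a T0 = 0 iff e(a)/e(b) in Λ iff b | a (U.zero_iff, mem_LF, eF_inj). Coordinates: U.xc_eq, U.yc_eq, unfold XL YL. -/

omit [DecidableEq Ω] in
theorem c18_ell (h : CH A B Om j) : (WAB A B).IsElliptic := by
  refine ⟨isUnit_iff_ne_zero.2 ?_⟩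
  have h1 : (WAB A B).Δ = -16 * (4 * A ^ 3 + 27 * B ^ 2) := by
    unfold WeierstrassCurve.Δ WeierstrassCurve.b₂ WeierstrassCurve.b₄ WeierstrassCurve.b₆ WeierstrassCurve.b₈ WAB
    ring
  rw [h1]
  exact mul_ne_zero (by norm_num) h.disc

theorem act_surj [IsAlgClosed Ω] [Algebra.IsAlgebraic F Ω] (h : CH A B Om j) {b : 𝓞 F} (hb : b ≠ 0)
    (P : Pt (WAB A B) Ω) : ∃ Q, act b Q = P := by
  have hE := c18_ell h
  have hchar : CharZero Ω := charZero_of_injective_algebraMap (algebraMap F Ω).injective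
  have hn : 0 < Nm b := Nat.pos_of_ne_zero fun h => hb (H55P.Nm_eq_zero.1 h)
  obtain ⟨P', hP'⟩ := H55P.div_pt (WAB A B) (Nm b) hn P
  have h1 : (Nm b : 𝓞 F) ∈ Ideal.span {b} := Ideal.absNorm_mem (Ideal.span {b})
  rw [Ideal.mem_span_singleton] at h1
  obtain ⟨c, hc⟩ := h1
  refine ⟨act c P', ?_⟩
  have h2 : act (b * c) P' = act b (act c P') := by
    rw [map_mul]
    rfl
  rw [← h2, ← hc, map_natCast, ← hP']
  rfl

theorem act_gen [IsAlgClosed Ω] (h : CH A B Om j) (hact : Act A B Om j act) {b : 𝓞 F} (hb : b ≠ 0) :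
    ∃ T₀ ∈ Tor act b, (∀ T ∈ Tor act b, ∃ a, T = act a T₀) ∧
    (∀ a, act a T₀ = 0 ↔ b ∣ a) ∧ ∀ a, ¬ b ∣ a →
      j (xc (act a T₀)) = (LF F).weierstrassP (eF F a / eF F b) / Om ^ 2 ∧
      j (yc (act a T₀)) = (LF F).derivWeierstrassP (eF F a / eF F b) / (2 * Om ^ 3) := by
  have hb' : eF F b ≠ 0 := eF_ne hb
  have h1 : eF F b * (1 / eF F b) ∈ (LF F).lattice := by
    rw [mul_one_div_cancel hb', mem_LF]
    exact ⟨1, (map_one _).symm⟩
  obtain ⟨hn, hn'⟩ := lat_nm hb h1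
  obtain ⟨T₀, hT₀⟩ := U_tors h hn hn'
  have hU : ∀ a, U A B Om j (act a T₀) (eF F a / eF F b) := by
    intro a
    have := hact a T₀ _ hT₀
    rwa [mul_one_div] at this
  have hdvd : ∀ a, act a T₀ = 0 ↔ b ∣ a := by
    intro a
    rw [(hU a).zero_iff, mem_LF]
    constructor
    · rintro ⟨y, hy⟩
      rw [div_eq_iff hb', ← map_mul] at hy
      exact ⟨y, by rw [eF_inj hy, mul_comm]⟩
    · rintro ⟨y, rfl⟩
      exact ⟨y, by rw [map_mul, mul_div_cancel_left₀ _ hb']⟩
  refine ⟨T₀, ?_, ?_, hdvd, ?_⟩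
  · exact (hdvd b).2 dvd_rfl
  · intro T hT
    obtain ⟨w, hw⟩ := U_ex h T
    have h2 := hact b T w hw
    have h3 : act b T = 0 := hT
    rw [h3] at h2
    have h4 := h2.zero_iff.1 rfl
    rw [mem_LF] at h4
    obtain ⟨a, ha⟩ := h4
    refine ⟨a, U_inj h hw ?_⟩
    have h5 := hU a
    rwa [← ha, mul_div_cancel_left₀ _ hb'] at h5
  · intro a ha
    rcases hU a with ⟨h2, -⟩ | ⟨-, -, h3, h4⟩
    · exact absurd ((hdvd a).1 h2) ha
    · exact ⟨h3, h4⟩

end H55K.CC
end

-- from Lib.H55K.C19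
section

open NumberField WeierstrassCurve Polynomial

namespace H55K.CC

open H55P (IQ embF eF LF Per Pt ac mem_LF eF_inj eF_ne Nm Nm_eq)
open H35P (WAB)

variable {F : Type} [Field F] [NumberField F] [IQ F] {Ω : Type} [Field Ω] [DecidableEq Ω] [Algebra F Ω]
  {A B : F} {Om : ℂ} {j : Ω →+* ℂ} {act : 𝓞 F →+* AddMonoid.End (Pt (WAB A B) Ω)}

/-! Chunk C19 (S/M). ζ by choice from U_ex. T in S: act b T = 0 and T <> 0, so e(b) ζ T in Λ, ζ T not in Λ (U.zero_iff, hact). ζ T - ζ T' in Λ gives T = T' (U_mod, U_inj). ex: w with e(b) w in Λ, w not in Λ: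
a point T with U T w (U_tors, lat_nm), T in S, w - ζ T in Λ (U_mod). -/

theorem TN_rep [IsAlgClosed Ω] (h : CH A B Om j) (hact : Act A B Om j act) {b : 𝓞 F} (hb : b ≠ 0)
    {S : Finset (Pt (WAB A B) Ω)} (hS : TN act b S) : ∃ (ζ : Pt (WAB A B) Ω → ℂ) (R : Finset ℂ),
      (∀ T, U A B Om j T (ζ T)) ∧ Rep (LF F) (eF F b) R ∧ (∀ φ : ℂ → ℂ, ∑ r ∈ R, φ r = ∑ T ∈ S, φ (ζ T)) ∧
      ∀ φ : ℂ → ℂ, ∏ r ∈ R, φ r = ∏ T ∈ S, φ (ζ T) := by
  classical
  have hz : ∀ P : Pt (WAB A B) Ω, ∃ z, U A B Om j P z := U_ex h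
  choose ζ hζ using hz
  have hb0 : eF F b ≠ 0 := eF_ne hb
  have hkill : ∀ T : Pt (WAB A B) Ω, act b T = 0 ↔ eF F b * ζ T ∈ (LF F).lattice := fun T =>
    (hact b T _ (hζ T)).zero_iff
  have hinj : ∀ T T' : Pt (WAB A B) Ω, ζ T - ζ T' ∈ (LF F).lattice → T = T' := by
    intro T T' h1
    exact U_inj h ((U_mod h (hζ T)).2 h1) (hζ T')
  have hinj' : Set.InjOn ζ (S : Set (Pt (WAB A B) Ω)) := by
    intro T _ T' _ h1
    refine hinj T T' ?_
    rw [h1, sub_self]
    exact zero_mem _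
  refine ⟨ζ, S.image ζ, hζ, ⟨hb0, ?_, ?_, ?_, ?_, ?_⟩, fun φ => Finset.sum_image hinj',
    fun φ => Finset.prod_image hinj'⟩
  · intro l hl
    obtain ⟨y, hy⟩ := (mem_LF _).1 hl
    rw [hy, ← map_mul]
    exact (mem_LF _).2 ⟨b * y, rfl⟩
  · intro r hr
    obtain ⟨T, hT, rfl⟩ := Finset.mem_image.1 hr
    exact (hkill T).1 ((hS T).1 hT).1
  · intro r hr
    obtain ⟨T, hT, rfl⟩ := Finset.mem_image.1 hr
    intro h1
    exact ((hS T).1 hT).2 ((hζ T).zero_iff.2 h1)
  · intro r hr r' hr' h1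
    obtain ⟨T, hT, rfl⟩ := Finset.mem_image.1 hr
    obtain ⟨T', hT', rfl⟩ := Finset.mem_image.1 hr'
    rw [hinj T T' h1]
  · intro w hw
    by_cases hw0 : w ∈ (LF F).lattice
    · exact Or.inl hw0
    · right
      obtain ⟨h1, h2⟩ := lat_nm hb hw
      obtain ⟨T, hT⟩ := U_tors h h1 h2
      have hT0 : T ≠ 0 := fun h3 => hw0 (hT.zero_iff.1 h3)
      have hTb : act b T = 0 := (hact b T _ hT).zero_iff.2 hw
      refine ⟨ζ T, Finset.mem_image_of_mem _ ((hS T).2 ⟨hTb, hT0⟩), ?_⟩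
      exact (U_mod h hT).1 (hζ T)

end H55K.CC
end

-- from Lib.H55K.C20
section

open NumberField WeierstrassCurve Polynomial

namespace H55K.CC

open H55P (IQ embF eF LF Per Pt ac mem_LF eF_inj eF_ne Nm Nm_eq)
open H35P (WAB)

variable {F : Type} [Field F] [NumberField F] [IQ F] {Ω : Type} [Field Ω] [DecidableEq Ω] [Algebra F Ω]
  {A B : F} {Om : ℂ} {j : Ω →+* ℂ} {act : 𝓞 F →+* AddMonoid.End (Pt (WAB A B) Ω)}

/-! Chunk C20 (M). Apply the injective j (map_sum, map_prod; j(ak Ω a) = e(a) by h.ovr). ζ, R from TN_rep; z with U P z (U_ex); U (act a P) (e(a) z) and act a P <> 0, so e(a) z not in Λ (U.zero_iff), and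
z, z + ζ T not in Λ for T in S (act a (P + T) = act a P <> 0; or Rep.zr_out). xc, yc of P, P + T, T, act a P by U.xc_eq, U.yc_eq, U_add. Then E1, E1d, E2 divided by powers of Om (∑ f/Om^2 = (∑ f)/Om^2, Finset.sum_div; in e2 both
products have the same number of factors: write wp = Om^2 XL, Finset.prod_congr, Finset.prod_mul_distrib, Finset.prod_const). -/

theorem c20_out (hact : Act A B Om j act) {b : 𝓞 F} {P : Pt (WAB A B) Ω} (hP : act b P ≠ 0)
    {z : ℂ} (hz : U A B Om j P z) : eF F b * z ∉ (LF F).lattice := fun h0 =>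
  hP ((hact b P z hz).zero_iff.2 h0)

theorem c20_T {b : 𝓞 F} {S : Finset (Pt (WAB A B) Ω)} (hS : TN act b S) {ζ : Pt (WAB A B) Ω → ℂ}
    (hζ : ∀ T, U A B Om j T (ζ T)) {T : Pt (WAB A B) Ω} (hT : T ∈ S) : ζ T ∉ (LF F).lattice := fun h0 =>
  ((hS T).1 hT).2 ((hζ T).zero_iff.2 h0)

theorem c20_PT (h : CH A B Om j) {b : 𝓞 F} {S : Finset (Pt (WAB A B) Ω)} (hS : TN act b S)
    {ζ : Pt (WAB A B) Ω → ℂ} (hζ : ∀ T, U A B Om j T (ζ T)) {P : Pt (WAB A B) Ω} (hP : act b P ≠ 0)
    {z : ℂ} (hz : U A B Om j P z) {T : Pt (WAB A B) Ω} (hT : T ∈ S) : z + ζ T ∉ (LF F).lattice := by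
  intro h0
  have h1 := (U_add h hz (hζ T)).zero_iff.2 h0
  apply hP
  have h2 : act b (P + T) = act b P := by rw [map_add, ((hS T).1 hT).1, add_zero]
  rw [← h2, h1, map_zero]

theorem act_e1x [IsAlgClosed Ω] (h : CH A B Om j) (hact : Act A B Om j act) {a : 𝓞 F} (ha : a ≠ 0)
    {S : Finset (Pt (WAB A B) Ω)} (hS : TN act a S) {P : Pt (WAB A B) Ω} (hP : act a P ≠ 0) :
    ak Ω a ^ 2 * xc (act a P) = xc P + ∑ T ∈ S, (xc (P + T) - xc T) := by
  obtain ⟨ζ, R, hζ, hR, hsum, -⟩ := TN_rep h hact ha hS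
  obtain ⟨z, hz⟩ := U_ex h P
  have h1 := c20_out hact hP hz
  have h2 := hR.z_out h1
  apply j.injective
  have e0 : j (ak Ω a) = eF F a := h.ovr (a : F)
  rw [map_mul, map_pow, map_add, map_sum, e0, (hact a P z hz).xc_eq h1, hz.xc_eq h2]
  have e1 : ∀ T ∈ S, j (xc (P + T) - xc T) = XL (LF F) Om (z + ζ T) - XL (LF F) Om (ζ T) := by
    intro T hT
    rw [map_sub, (U_add h hz (hζ T)).xc_eq (c20_PT h hS hζ hP hz hT), (hζ T).xc_eq (c20_T hS hζ hT)]
  rw [Finset.sum_congr rfl e1]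
  have e2 := E1 hR h1
  rw [hsum (fun r => (LF F).weierstrassP (z + r) - (LF F).weierstrassP r)] at e2
  unfold XL
  rw [mul_div_assoc', e2, add_div, Finset.sum_div]
  congr 1
  exact Finset.sum_congr rfl fun r _ => by rw [sub_div]

theorem act_e1y [IsAlgClosed Ω] (h : CH A B Om j) (hact : Act A B Om j act) {a : 𝓞 F} (ha : a ≠ 0)
    {S : Finset (Pt (WAB A B) Ω)} (hS : TN act a S) {P : Pt (WAB A B) Ω} (hP : act a P ≠ 0) :
    ak Ω a ^ 3 * yc (act a P) = yc P + ∑ T ∈ S, yc (P + T) := by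
  obtain ⟨ζ, R, hζ, hR, hsum, -⟩ := TN_rep h hact ha hS
  obtain ⟨z, hz⟩ := U_ex h P
  have h1 := c20_out hact hP hz
  have h2 := hR.z_out h1
  apply j.injective
  have e0 : j (ak Ω a) = eF F a := h.ovr (a : F)
  rw [map_mul, map_pow, map_add, map_sum, e0, (hact a P z hz).yc_eq h1, hz.yc_eq h2]
  have e1 : ∀ T ∈ S, j (yc (P + T)) = YL (LF F) Om (z + ζ T) := by
    intro T hT
    rw [(U_add h hz (hζ T)).yc_eq (c20_PT h hS hζ hP hz hT)]
  rw [Finset.sum_congr rfl e1]
  have e2 := E1d hR h1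
  rw [hsum (fun r => (LF F).derivWeierstrassP (z + r))] at e2
  unfold YL
  rw [mul_div_assoc', e2, add_div, Finset.sum_div]

theorem act_e2 [IsAlgClosed Ω] (h : CH A B Om j) (hact : Act A B Om j act) {b : 𝓞 F} (hb : b ≠ 0)
    {S : Finset (Pt (WAB A B) Ω)} (hS : TN act b S) {P Q : Pt (WAB A B) Ω} (hP : act b P ≠ 0) (hQ : act b Q ≠ 0) :
    ak Ω b ^ 2 * (xc (act b P) - xc (act b Q)) * ∏ R ∈ S, (xc R - xc Q) =
      (xc P - xc Q) * ∏ R ∈ S, (xc (P + R) - xc Q) := by
  obtain ⟨ζ, R, hζ, hR, -, hprod⟩ := TN_rep h hact hb hS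
  obtain ⟨z, hz⟩ := U_ex h P
  obtain ⟨w, hw⟩ := U_ex h Q
  have h1 := c20_out hact hP hz
  have h2 := hR.z_out h1
  have h3 := c20_out hact hQ hw
  have h4 := hR.z_out h3
  apply j.injective
  have e0 : j (ak Ω b) = eF F b := h.ovr (b : F)
  rw [map_mul, map_mul, map_mul, map_pow, map_sub, map_sub, map_prod, map_prod, e0,
    (hact b P z hz).xc_eq h1, (hact b Q w hw).xc_eq h3, hz.xc_eq h2, hw.xc_eq h4]
  have e1 : ∀ T ∈ S, j (xc T - xc Q) = ((LF F).weierstrassP (ζ T) - (LF F).weierstrassP w) / Om ^ 2 := by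
    intro T hT
    rw [map_sub, (hζ T).xc_eq (c20_T hS hζ hT), hw.xc_eq h4]
    unfold XL
    rw [sub_div]
  have e1' : ∀ T ∈ S, j (xc (P + T) - xc Q) =
      ((LF F).weierstrassP (z + ζ T) - (LF F).weierstrassP w) / Om ^ 2 := by
    intro T hT
    rw [map_sub, (U_add h hz (hζ T)).xc_eq (c20_PT h hS hζ hP hz hT), hw.xc_eq h4]
    unfold XL
    rw [sub_div]
  rw [Finset.prod_congr rfl e1, Finset.prod_congr rfl e1', Finset.prod_div_distrib, Finset.prod_div_distrib]
  have e2 := E2 hR h1 h3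
  rw [hprod (fun r => (LF F).weierstrassP r - (LF F).weierstrassP w),
    hprod (fun r => (LF F).weierstrassP (z + r) - (LF F).weierstrassP w)] at e2
  unfold XL
  rw [← sub_div, ← sub_div, ← mul_div_assoc (eF F b ^ 2), div_mul_div_comm, div_mul_div_comm, e2]

end H55K.CC
end

-- from Lib.H55R.X6
section

open NumberField IsDedekindDomain

namespace H55R

/-! The density theorem and the first inequality for the fixed field of a subgroup (assembly). -/

theorem density_A (K N : Type) [Field K] [NumberField K] [Field N] [NumberField N] [Algebra K N]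
    [IsGalois K N] (A : Subgroup Gal(N/K)) (hA : A.Normal) :
    ∃ C : ℝ, ∀ s ∈ Set.Ioc (1 : ℝ) 2,
      |PS {v : Pl K | SplA A v} s - (1 / A.index : ℝ) * Real.log (1 / (s - 1))| ≤ C := by
  obtain ⟨M, i1, i2, i3, i4, i5, i6, h1, h2⟩ := exists_fixed K N A hA
  obtain ⟨C, hC⟩ := density_split K M
  refine ⟨C, fun s hs => ?_⟩
  have h3 : {v : Pl K | SplA A v} = {v : Pl K | Spl K M v} := by
    ext v
    rw [Set.mem_setOf_eq, Set.mem_setOf_eq, spl_iff K M N v, h2]
  rw [h3, ← h1]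
  exact hC s hs

theorem first_A (K N : Type) [Field K] [NumberField K] [Field N] [NumberField N] [Algebra K N]
    [IsGalois K N] (A : Subgroup Gal(N/K)) (hA : A.Normal) (σ : Gal(N/K))
    (hσ : ∀ x : Gal(N/K), ∃ i : ℤ, x * (σ ^ i)⁻¹ ∈ A)
    (hK : ∀ v : InfinitePlace K, v.IsComplex) (f : Ideal (𝓞 K)) (hf : f ≠ ⊥)
    (hram : ∀ v : Pl K, ¬ f ≤ v.asIdeal → es K N v = 1)
    (htame : ∀ v : Pl K, es K N v ∣ Ideal.absNorm v.asIdeal - 1) :
    ∃ Y : Subgroup (Pl K → ℂˣ), Finite Y ∧ Y ≤ RC f ∧ A.index ≤ Nat.card Y ∧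
      ∀ φ ∈ Y, ∀ v : Pl K, ¬ f ≤ v.asIdeal → SplA A v → φ v = 1 := by
  obtain ⟨M, i1, i2, i3, i4, i5, i6, h1, h2⟩ := exists_fixed K N A hA
  have hgen : ∀ g : Gal(M/K), g ∈ Subgroup.zpowers (AlgEquiv.restrictNormalHom M σ) := by
    intro g
    obtain ⟨x, rfl⟩ := AlgEquiv.restrictNormalHom_surjective (F := K) (K₁ := M) (E := N) g
    obtain ⟨i, hi⟩ := hσ x
    rw [← h2, MonoidHom.mem_ker, map_mul, map_inv, mul_inv_eq_one, map_zpow] at hi
    rw [hi]
    exact Subgroup.zpow_mem _ (Subgroup.mem_zpowers _) i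
  obtain ⟨Y, a1, a2, a3, -, a5⟩ := first_ineq (K := K) (L := M) _ hgen hK f hf
    (fun v hv => Nat.dvd_one.1 ((hram v hv) ▸ es_dvd K M N v))
    (fun v => (es_dvd K M N v).trans (htame v))
  refine ⟨Y, a1, a2, by rw [← h1]; exact a3, fun φ hφ v hv hs => a5 φ hφ v hv ?_⟩
  rw [spl_iff K M N v, h2]
  exact hs

end H55R
end

-- from Lib.H55R.X10
section

open NumberField IsDedekindDomain

namespace H55R

open H55B

/-! Chunk X10 (M): consequences of the density theorems. PS is monotone in the set and additive on disjoint sets for s > 1 (the series over all primes converges: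
the primes of norm m number at most [K : Q] per rational prime; or Summable from Pool.Agent.Lib.H55N.H3.ideal_summable), PS (A ∪ B) + PS (A ∩ B) = PS A + PS B,
PS of a finite set is bounded on [1, 2] by its number of elements. The primes containing f are finitely many (primes_finite).
second_ineq: PS (SplA A) <= PS (kernel of Y) + finite, so (1/index) log(1/(s-1)) - C <= (1/|Y|) log(1/(s-1)) + C' for all s in (1, 2]; let s -> 1 : 1/index <= 1/|Y|.
indep: SplA A and SplA B outside f are in the kernel of Z; SplA A ∩ SplA B = SplA (A ⊓ B). Density: 1/[G:A] + 1/[G:B] - 1/[G:A ⊓ B] <= 1/|Z|, and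
[G : A ⊓ B] > [G : A] because A is not contained in B. So 1/[G:B] < 1/|Z|. -/

theorem PS_summable {K : Type} [Field K] [NumberField K] (s : ℝ) (hs : 1 < s) :
    Summable fun v : Pl K => (Ideal.absNorm v.asIdeal : ℝ) ^ (-s) := by
  have h1 := H55N.ideal_summable (K := K) s hs
  exact h1.comp_injective (i := fun v : Pl K => v.asIdeal) fun v w h => HeightOneSpectrum.ext h

section X10

variable {K : Type} [Field K] [NumberField K]

theorem X10_sum (S : Set (Pl K)) (s : ℝ) (hs : 1 < s) :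
    Summable (S.indicator fun v : Pl K => (Ideal.absNorm v.asIdeal : ℝ) ^ (-s)) :=
  (PS_summable s hs).indicator S

theorem X10_mono {S T : Set (Pl K)} (h : S ⊆ T) (s : ℝ) (hs : 1 < s) : PS S s ≤ PS T s := by
  unfold PS
  refine (X10_sum S s hs).tsum_le_tsum (fun v => ?_) (X10_sum T s hs)
  exact Set.indicator_le_indicator_of_subset h (fun v => by positivity) v

theorem X10_union (S T : Set (Pl K)) (s : ℝ) (hs : 1 < s) :
    PS (S ∪ T) s + PS (S ∩ T) s = PS S s + PS T s := by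
  unfold PS
  rw [← (X10_sum (S ∪ T) s hs).tsum_add (X10_sum (S ∩ T) s hs),
    ← (X10_sum S s hs).tsum_add (X10_sum T s hs)]
  exact tsum_congr fun v => Set.indicator_union_add_inter_apply _ S T v

theorem X10_nonneg (S : Set (Pl K)) (s : ℝ) : 0 ≤ PS S s := by
  unfold PS
  exact tsum_nonneg fun v => Set.indicator_nonneg (fun v _ => by positivity) v

theorem X10_fin {S : Set (Pl K)} (hS : S.Finite) (s : ℝ) (hs : 1 < s) :
    PS S s ≤ hS.toFinset.card := by
  unfold PS
  rw [tsum_eq_sum (s := hS.toFinset) fun v hv => by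
    rw [Set.indicator_of_notMem]
    exact fun h => hv (hS.mem_toFinset.2 h)]
  have h1 : ∀ v ∈ hS.toFinset, S.indicator (fun v : Pl K => (Ideal.absNorm v.asIdeal : ℝ) ^ (-s)) v ≤
      1 := by
    intro v hv
    rw [Set.indicator_of_mem (hS.mem_toFinset.1 hv)]
    apply Real.rpow_le_one_of_one_le_of_nonpos
    · have : 0 < Ideal.absNorm v.asIdeal := Nat.pos_of_ne_zero fun h => v.ne_bot
        (Ideal.absNorm_eq_zero_iff.1 h)
      exact_mod_cast this
    · linarith
  calc _ ≤ ∑ v ∈ hS.toFinset, (1 : ℝ) := Finset.sum_le_sum h1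
    _ = _ := by simp

theorem X10_bad {f : Ideal (𝓞 K)} (hf : f ≠ ⊥) : {v : Pl K | f ≤ v.asIdeal}.Finite := by
  have h := Ideal.finite_factors hf
  refine h.subset fun v hv => ?_
  exact Ideal.dvd_iff_le.2 hv

/-- Primes of S are in the kernel T up to the primes containing f. -/
theorem X10_cmp {f : Ideal (𝓞 K)} (hf : f ≠ ⊥) {S T : Set (Pl K)}
    (h : ∀ v ∈ S, ¬ f ≤ v.asIdeal → v ∈ T) (s : ℝ) (hs : 1 < s) :
    PS S s ≤ PS T s + (X10_bad hf).toFinset.card := by
  have h1 : S ⊆ T ∪ {v : Pl K | f ≤ v.asIdeal} := by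
    intro v hv
    by_cases hb : f ≤ v.asIdeal
    · exact Or.inr hb
    · exact Or.inl (h v hv hb)
  have h2 := X10_union T {v : Pl K | f ≤ v.asIdeal} s hs
  have h3 := X10_nonneg (T ∩ {v : Pl K | f ≤ v.asIdeal}) s
  have h4 := X10_fin (X10_bad hf) s hs
  have h5 := X10_mono h1 s hs
  linarith

end X10

theorem X10_lim {a b D : ℝ}
    (h : ∀ s ∈ Set.Ioc (1 : ℝ) 2, a * Real.log (1 / (s - 1)) ≤ b * Real.log (1 / (s - 1)) + D) :
    a ≤ b := by
  by_contra hab
  push Not at hab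
  set T : ℝ := max 0 (D / (a - b)) + 1 with hT
  have hT1 : 0 < T := by
    have := le_max_left 0 (D / (a - b))
    linarith
  have hab' : 0 < a - b := by linarith
  have hT2 : D < (a - b) * T := by
    have h1 := le_max_right 0 (D / (a - b))
    have h2 : D / (a - b) < T := by linarith
    rw [div_lt_iff₀ hab'] at h2
    linarith
  have h3 := h (1 + Real.exp (-T)) ⟨by linarith [Real.exp_pos (-T)], by
    have := Real.exp_le_one_iff.2 (by linarith : -T ≤ 0)
    linarith⟩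
  rw [add_sub_cancel_left, one_div, ← Real.exp_neg, neg_neg, Real.log_exp] at h3
  linarith

theorem X10_index {G : Type} [Group G] [Finite G] (A : Subgroup G) : (0 : ℝ) < A.index := by
  exact_mod_cast Nat.pos_of_ne_zero Subgroup.index_ne_zero_of_finite



end H55R
end

-- from Lib.H55P.N5
section

open NumberField IsDedekindDomain

namespace H55P

open H55N
open H55B (g)



/-! Chunk PN5 (S/M), PORT of second_ineq and indep in Lib/H55R/X10.lean, with density_kerF in place of density_ker. -/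

theorem second_ineqF (F : Type) [Field F] [NumberField F] [IQ F] (K N : Type) [Field K] [NumberField K]
    [Algebra F K] [Field N] [NumberField N]
    [Algebra K N] [IsGalois K N] (A : Subgroup Gal(N/K)) (hA : A.Normal) (f : Ideal (𝓞 K))
    (hf : f ≠ ⊥) (hf' : f ≠ ⊤) (Y : Subgroup (H55R.Pl K → ℂˣ)) (hYf : Finite Y) (hY : Y ≤ H55R.RC f)
    (h : ∀ φ ∈ Y, ∀ v : H55R.Pl K, ¬ f ≤ v.asIdeal → H55R.SplA A v → φ v = 1) :
    Nat.card Y ≤ A.index := by
  obtain ⟨C, hC⟩ := H55R.density_A K N A hA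
  obtain ⟨C', hC'⟩ := density_kerF F f hf hf' Y hY
  have hY0 : (0 : ℝ) < Nat.card Y := by exact_mod_cast Nat.card_pos
  have hA0 := H55R.X10_index A
  have h1 : (1 / A.index : ℝ) ≤ 1 / Nat.card Y := by
    refine H55R.X10_lim (D := C + C' + (H55R.X10_bad hf).toFinset.card) fun s hs => ?_
    have e1 := (abs_le.1 (hC s hs)).1
    have e2 := hC' s hs
    have e3 := H55R.X10_cmp hf (S := {v : H55R.Pl K | H55R.SplA A v})
      (T := {v : H55R.Pl K | ¬ f ≤ v.asIdeal ∧ ∀ φ ∈ Y, φ v = 1})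
      (fun v hv hb => ⟨hb, fun φ hφ => h φ hφ v hb hv⟩) s hs.1
    linarith
  rw [one_div_le_one_div hA0 hY0] at h1
  exact_mod_cast h1

theorem indepF (F : Type) [Field F] [NumberField F] [IQ F] (K N : Type) [Field K] [NumberField K]
    [Algebra F K] [Field N] [NumberField N]
    [Algebra K N] [IsGalois K N] (A B : Subgroup Gal(N/K)) (hA : A.Normal) (hB : B.Normal)
    (hAB : ¬ A ≤ B) (f : Ideal (𝓞 K)) (hf : f ≠ ⊥) (hf' : f ≠ ⊤) (Z : Subgroup (H55R.Pl K → ℂˣ))
    (hZf : Finite Z) (hZ : Z ≤ H55R.RC f)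
    (h : ∀ φ ∈ Z, ∀ v : H55R.Pl K, ¬ f ≤ v.asIdeal → H55R.SplA A v ∨ H55R.SplA B v → φ v = 1) :
    Nat.card Z < B.index := by
  obtain ⟨C₁, hC₁⟩ := H55R.density_A K N A hA
  obtain ⟨C₂, hC₂⟩ := H55R.density_A K N B hB
  have hAB' : (A ⊓ B).Normal := Subgroup.normal_inf_normal A B
  obtain ⟨C₃, hC₃⟩ := H55R.density_A K N (A ⊓ B) hAB'
  obtain ⟨C', hC'⟩ := density_kerF F f hf hf' Z hZ
  have hZ0 : (0 : ℝ) < Nat.card Z := by exact_mod_cast Nat.card_pos
  have hA0 := H55R.X10_index A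
  have hB0 := H55R.X10_index B
  have hAB0 := H55R.X10_index (A ⊓ B)
  have hint : {v : H55R.Pl K | H55R.SplA A v} ∩ {v : H55R.Pl K | H55R.SplA B v} = {v : H55R.Pl K | H55R.SplA (A ⊓ B) v} := by
    ext v
    constructor
    · rintro ⟨h1, h2⟩ W hW σ hσ
      exact ⟨h1 W hW σ hσ, h2 W hW σ hσ⟩
    · intro h1
      exact ⟨fun W hW σ hσ => (h1 W hW σ hσ).1, fun W hW σ hσ => (h1 W hW σ hσ).2⟩
  have h1 : (1 / A.index + 1 / B.index - 1 / (A ⊓ B).index : ℝ) ≤ 1 / Nat.card Z := by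
    refine H55R.X10_lim (D := C₁ + C₂ + C₃ + C' + (H55R.X10_bad hf).toFinset.card) fun s hs => ?_
    have e1 := (abs_le.1 (hC₁ s hs)).1
    have e2 := (abs_le.1 (hC₂ s hs)).1
    have e3 := (abs_le.1 (hC₃ s hs)).2
    have e4 := hC' s hs
    have e5 := H55R.X10_cmp hf (S := {v : H55R.Pl K | H55R.SplA A v} ∪ {v : H55R.Pl K | H55R.SplA B v})
      (T := {v : H55R.Pl K | ¬ f ≤ v.asIdeal ∧ ∀ φ ∈ Z, φ v = 1})
      (fun v hv hb => ⟨hb, fun φ hφ => h φ hφ v hb hv⟩) s hs.1
    have e6 := H55R.X10_union {v : H55R.Pl K | H55R.SplA A v} {v : H55R.Pl K | H55R.SplA B v} s hs.1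
    rw [hint] at e6
    linarith
  have h2 : A.index < (A ⊓ B).index := by
    have e1 := Subgroup.relIndex_mul_index (inf_le_left : A ⊓ B ≤ A)
    have e2 : (A ⊓ B).relIndex A ≠ 1 := by
      intro e
      rw [Subgroup.relIndex_eq_one] at e
      exact hAB (e.trans inf_le_right)
    have e3 : (A ⊓ B).relIndex A ≠ 0 := by
      intro e
      rw [e, zero_mul] at e1
      exact Subgroup.index_ne_zero_of_finite e1.symm
    have e4 : 0 < A.index := Nat.pos_of_ne_zero Subgroup.index_ne_zero_of_finite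
    rw [← e1]
    exact lt_mul_of_one_lt_left e4 (by omega)
  have h3 : (1 / (A ⊓ B).index : ℝ) < 1 / A.index := by
    rw [one_div_lt_one_div hAB0 hA0]
    exact_mod_cast h2
  have h4 : (1 / B.index : ℝ) < 1 / Nat.card Z := by linarith
  rw [one_div_lt_one_div hB0 hZ0] at h4
  exact_mod_cast h4

end H55P
end

-- from Lib.H55R.Cross
section

open NumberField IsDedekindDomain

namespace H55R

open H55B

theorem SplA_mono {K N : Type} [Field K] [NumberField K] [Field N] [NumberField N] [Algebra K N]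
    {A B : Subgroup Gal(N/K)} (h : A ≤ B) {v : Pl K} (hv : SplA A v) : SplA B v :=
  fun W hW σ hσ => h (hv W hW σ hσ)


theorem root_pow_eq {N : Type} [Field N] {p : ℕ} {ζ : N} (hζ : IsPrimitiveRoot ζ p) (hp : p ≠ 0)
    {a b : ℕ} (h : ζ ^ a = ζ ^ b) : a ≡ b [MOD p] := by
  have hζ0 : ζ ≠ 0 := hζ.ne_zero hp
  have h1 := hζ.eq_orderOf
  have h2 : (Units.mk0 ζ hζ0) ^ a = (Units.mk0 ζ hζ0) ^ b := by
    ext
    exact h
  rw [pow_eq_pow_iff_modEq, ← orderOf_units, Units.val_mk0, ← h1] at h2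
  exact h2


end H55R
end

-- from Lib.H55R.Fin
section

/-!
# H55R: the reciprocity law for tame cyclic extensions of prime degree (final assembly)
-/

open NumberField IsDedekindDomain

namespace H55R

open H55B

/-- The character rho of the cyclic extension L/K of prime degree l. -/
structure IsRec (K L : Type) [Field K] [NumberField K] [Field L] [NumberField L] [Algebra K L]
    (l : ℕ) (f : Ideal (𝓞 K)) (ρ : Ideal (𝓞 K) →*₀ ℂ) : Prop where
  ne : f ≠ ⊥
  sq : Squarefree f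
  ram : ∀ v : Pl K, f ≤ v.asIdeal ↔ es K L v ≠ 1
  val : ∀ a : Ideal (𝓞 K), a ≠ ⊥ → IsCoprime a f → ρ a ^ l = 1
  zero : ∀ a : Ideal (𝓞 K), ¬ IsCoprime a f → ρ a = 0
  per : ∀ x y : 𝓞 K, x ≠ 0 → y ≠ 0 → IsCoprime (Ideal.span {x}) f → x - y ∈ f →
    ρ (Ideal.span {x}) = ρ (Ideal.span {y})
  spl : ∀ v : Pl K, ¬ f ≤ v.asIdeal → (ρ v.asIdeal = 1 ↔ Spl K L v)

theorem pv_pow {K : Type} [Field K] [NumberField K] (φ : Pl K → ℂˣ) (a : Ideal (𝓞 K)) (n : ℕ) :
    pv (φ ^ n) a = pv φ a ^ n := by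
  induction n with
  | zero => rw [pow_zero, pow_zero, pv_one_fun]
  | succ n ih => rw [pow_succ, pow_succ, pv_mul_fun, ih]

theorem cop_prime {K : Type} [Field K] [NumberField K] (v : Pl K) (f : Ideal (𝓞 K))
    (h : ¬ f ≤ v.asIdeal) : IsCoprime v.asIdeal f := by
  rw [Ideal.isCoprime_iff_sup_eq]
  by_contra h1
  have h2 := v.isMaximal.eq_of_le h1 le_sup_left
  exact h (by rw [h2]; exact le_sup_right)


end H55R
end

-- from Lib.H55P.T10
section

open NumberField IsDedekindDomain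

namespace H55P

open H55N
open H55B (g)



/-! Chunk PT10 (M). From the reciprocity character to PChr and SplitP; PORT of Lib/H55R/CH2.lean (cubic_spl, cubic_inert, cubic_ram; CH2_norm holds in general) and ChrT.lean for a prime p: the set T of primes above w has card * (e f) = p, each relNorm = w^f. If ρ(w) = 1: Spl (IsRec.spl), e = f = 1, card = p.
If w is unramified and ρ(w) <> 1: e = 1, f <> 1 (not Spl), so f = p, card = 1; ρ(w)^p = 1 (val). If f <= w: ρ(w) = 0 (zero), e <> 1 (ram), so e = p, f = 1, card = 1. PChr.cop: a prime containing f and p is ramified in K' and above p, contradicting UnrP p K' (W^2 divides w, so W^2 divides (p)). -/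

theorem pt10_card {K K' : Type} [Field K] [NumberField K] [Field K'] [NumberField K']
    [Algebra K K'] [IsGalois K K'] (w : H55R.Pl K) :
    ∃ T : Finset (H55R.Pl K'), (∀ W, W ∈ T ↔ W.asIdeal.under (𝓞 K) = w.asIdeal) ∧
      T.card * (H55R.es K K' w * H55R.fs K K' w) = Module.finrank K K' := by
  have hf := H55R.above_finite (L := K') w
  have hT : ∀ W : H55R.Pl K', W ∈ hf.toFinset ↔ W.under (𝓞 K) = w := by
    intro W
    rw [Set.Finite.mem_toFinset]
    exact Iff.rfl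
  refine ⟨hf.toFinset, fun W => ?_, ?_⟩
  · rw [hT]
    exact ⟨fun h => congrArg HeightOneSpectrum.asIdeal h, fun h => HeightOneSpectrum.ext h⟩
  · rw [H55R.card_above w hf.toFinset hT]

theorem rec_split (K K' : Type) [Field K] [NumberField K] [Field K'] [NumberField K'] [Algebra K K']
    [IsGalois K K'] (p : ℕ) (hp : p.Prime) (hn : Module.finrank K K' = p) (f : Ideal (𝓞 K))
    (ρ : Ideal (𝓞 K) →*₀ ℂ) (hρ : H55R.IsRec K K' p f ρ) : SplitP K K' p ρ := by
  intro w
  obtain ⟨T, hT, hc⟩ := pt10_card (K' := K') w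
  rw [hn] at hc
  have hnorm : ∀ W ∈ T, Ideal.relNorm (𝓞 K) W.asIdeal = w.asIdeal ^ H55R.fs K K' w :=
    fun W hW => H55R.CH2_norm w W ((hT W).1 hW)
  refine ⟨T, hT, ?_⟩
  by_cases hfw : f ≤ w.asIdeal
  · have h1 : ρ w.asIdeal = 0 := by
      apply hρ.zero
      intro hcop
      rw [Ideal.isCoprime_iff_sup_eq, sup_eq_left.2 hfw] at hcop
      exact w.isPrime.ne_top hcop
    have he := (hρ.ram w).1 hfw
    have hdvd : H55R.es K K' w ∣ p := ⟨T.card * H55R.fs K K' w, by rw [← hc]; ring⟩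
    have hep : H55R.es K K' w = p := ((Nat.dvd_prime hp).1 hdvd).resolve_left he
    rw [hep] at hc
    have hc1 : T.card * H55R.fs K K' w = 1 := by
      have h2 : p * (T.card * H55R.fs K K' w) = p * 1 := by
        rw [mul_one]
        nlinarith
      exact Nat.eq_of_mul_eq_mul_left hp.pos h2
    have hcT : T.card = 1 := Nat.eq_one_of_mul_eq_one_right hc1
    have hf1 : H55R.fs K K' w = 1 := Nat.eq_one_of_mul_eq_one_left hc1
    refine Or.inr (Or.inr ⟨h1, hcT, fun W hW => ?_⟩)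
    rw [hnorm W hW, hf1, pow_one]
  · have he : H55R.es K K' w = 1 := by
      by_contra h
      exact hfw ((hρ.ram w).2 h)
    by_cases h1 : ρ w.asIdeal = 1
    · have hs := (hρ.spl w hfw).1 h1
      have hf1 : H55R.fs K K' w = 1 := hs.2
      rw [he, hf1, mul_one, mul_one] at hc
      refine Or.inl ⟨h1, hc, fun W hW => ?_⟩
      rw [hnorm W hW, hf1, pow_one]
    · have hfne : H55R.fs K K' w ≠ 1 := fun h => h1 ((hρ.spl w hfw).2 ⟨he, h⟩)
      rw [he, one_mul] at hc
      have hdvd : H55R.fs K K' w ∣ p := ⟨T.card, by rw [← hc]; ring⟩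
      have hfp : H55R.fs K K' w = p := ((Nat.dvd_prime hp).1 hdvd).resolve_left hfne
      rw [hfp] at hc
      have hcT : T.card = 1 := by
        have h2 : T.card * p = 1 * p := by rw [hc, one_mul]
        exact Nat.eq_of_mul_eq_mul_right hp.pos h2
      refine Or.inr (Or.inl ⟨hρ.val _ w.ne_bot (H55R.cop_prime w f hfw), h1, hcT, fun W hW => ?_⟩)
      rw [hnorm W hW, hfp]

/-- p unramified in K' implies p unramified in K. A square divisor of (p) in K gives one in K' (map of ideals). -/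
theorem pt10_down (K K' : Type) [Field K] [NumberField K] [Field K'] [NumberField K'] [Algebra K K']
    (p : ℕ) (hU : UnrP p K') : UnrP p K := by
  intro x hx
  have h1 : x.map (algebraMap (𝓞 K) (𝓞 K')) * x.map (algebraMap (𝓞 K) (𝓞 K')) ∣
      Ideal.span {(p : 𝓞 K')} := by
    rw [← Ideal.map_mul]
    have h2 : Ideal.span {(p : 𝓞 K')} = (Ideal.span {(p : 𝓞 K)}).map (algebraMap (𝓞 K) (𝓞 K')) := by
      rw [Ideal.map_span, Set.image_singleton, map_natCast]
    rw [h2, Ideal.dvd_iff_le]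
    exact Ideal.map_mono (Ideal.dvd_iff_le.1 hx)
  have h3 := hU _ h1
  rw [Ideal.isUnit_iff] at h3 ⊢
  rw [← Ideal.comap_map_eq_self_of_faithfullyFlat (B := 𝓞 K') x, h3, Ideal.comap_top]

theorem pt10_ram (K K' : Type) [Field K] [NumberField K] [Field K'] [NumberField K'] [Algebra K K']
    [IsGalois K K'] (p : ℕ) (hU : UnrP p K') (v : H55R.Pl K) (hpv : (p : 𝓞 K) ∈ v.asIdeal) :
    H55R.es K K' v = 1 := by
  have hv := v.isPrime
  have hvm := v.isMaximal
  obtain ⟨W, hW, hWv⟩ := Ideal.exists_ideal_over_maximal_of_isIntegral (S := 𝓞 K') v.asIdeal (by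
    rw [(RingHom.injective_iff_ker_eq_bot _).1 (FaithfulSMul.algebraMap_injective (𝓞 K) (𝓞 K'))]
    exact bot_le)
  have hlies : W.LiesOver v.asIdeal := ⟨hWv.symm⟩
  have hWp : W.IsPrime := hW.isPrime
  unfold H55R.es
  rw [Ideal.ramificationIdxIn_eq_ramificationIdx v.asIdeal W Gal(K'/K),
    ← Ideal.ramificationIdx'_eq_ramificationIdx v.asIdeal W v.ne_bot]
  refine Ideal.ramificationIdx'_spec ?_ ?_
  · rw [pow_one, Ideal.map_le_iff_le_comap, hWv]
  · intro h
    have h1 : W * W ∣ Ideal.span {(p : 𝓞 K')} := by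
      rw [Ideal.dvd_iff_le, ← pow_two]
      refine le_trans ?_ h
      have h2 : Ideal.span {(p : 𝓞 K')} =
          (Ideal.span {(p : 𝓞 K)}).map (algebraMap (𝓞 K) (𝓞 K')) := by
        rw [Ideal.map_span, Set.image_singleton, map_natCast]
      rw [h2]
      apply Ideal.map_mono
      rw [Ideal.span_singleton_le_iff_mem]
      exact hpv
    have h3 := hU W h1
    rw [Ideal.isUnit_iff] at h3
    exact hW.ne_top h3

theorem rec_PChr (K K' : Type) [Field K] [NumberField K] [Field K'] [NumberField K'] [Algebra K K']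
    [IsGalois K K'] (p : ℕ) (hp : p.Prime) (hn : Module.finrank K K' = p) (hU : UnrP p K')
    (f : Ideal (𝓞 K)) (ρ : Ideal (𝓞 K) →*₀ ℂ) (hρ : H55R.IsRec K K' p f ρ) : PChr p f ρ := by
  refine ⟨hρ.ne, ?_, hρ.val, hρ.zero, hρ.per⟩
  rw [Ideal.isCoprime_iff_sup_eq]
  by_contra hne
  obtain ⟨M, hM, hle⟩ := Ideal.exists_le_maximal _ hne
  have hMne : M ≠ ⊥ := by
    rintro rfl
    exact hρ.ne (le_bot_iff.1 (le_sup_left.trans hle))
  obtain ⟨v, hv⟩ : ∃ v : H55R.Pl K, v.asIdeal = M := ⟨⟨M, hM.isPrime, hMne⟩, rfl⟩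
  have h1 : f ≤ v.asIdeal := by
    rw [hv]
    exact le_sup_left.trans hle
  have h2 : (p : 𝓞 K) ∈ v.asIdeal := by
    rw [hv]
    exact (le_sup_right.trans hle) (Ideal.mem_span_singleton_self _)
  exact (hρ.ram v).1 h1 (pt10_ram K K' p hU v h2)

/-- p unramified in K' implies p unramified in K. A square divisor of (p) in K gives one in K' (map of ideals). -/
theorem UnrP.down (K K' : Type) [Field K] [NumberField K] [Field K'] [NumberField K'] [Algebra K K']
    (p : ℕ) (hp : p.Prime) (hU : UnrP p K') : UnrP p K := pt10_down K K' p hU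

end H55P
end
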