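import Mathlib
import Pool.Agent.Lib.H1M.PP2.M049

/-! Merged copies (to shorten the build) of Lib.H55P.U6. -/

-- from Lib.H55P.U6
section

open NumberField IsDedekindDomain MeasureTheory

namespace H55P

open H55N
open H55B (g)

variable {F : Type} [Field F] [NumberField F] [IQ F] {K : Type} [Field K] [NumberField K]
  [Algebra F K] {m : ℕ}

theorem U6_al (D : Ctx F K m) (hE : Emb F D.σ) (α : 𝓞 F) (x : 𝓞 K) (i : Fin (m + 1)) :
    D.σ i ((algebraMap (𝓞 F) (𝓞 K) α * x : 𝓞 K) : K) = eF F α * D.σ i x := by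
  have h1 : ((algebraMap (𝓞 F) (𝓞 K) α * x : 𝓞 K) : K) =
      (algebraMap (𝓞 K) K (algebraMap (𝓞 F) (𝓞 K) α)) * (x : K) := map_mul _ _ _
  rw [h1, map_mul, ← IsScalarTower.algebraMap_apply (𝓞 F) (𝓞 K) K,
    IsScalarTower.algebraMap_apply (𝓞 F) F K, hE.ovr]
  rfl

theorem U6_fs (D : Ctx F K m) (hE : Emb F D.σ) (α : 𝓞 F) (t : Fin (m + 1) → ℝ)
    (ht : ∀ i, 0 < t i) (s : ℂ) (x : 𝓞 K) :
    D.fs t s (algebraMap (𝓞 F) (𝓞 K) α * x) =
      ((starRingEnd ℂ) (eF F α) ^ (m + 1) * (Nm α : ℂ) ^ (-((m + 1 : ℕ) * s))) * D.fs t s x := by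
  have hN : D.N (algebraMap (𝓞 F) (𝓞 K) α * x) = eF F α ^ (m + 1) * D.N x := by
    unfold Ctx.N
    rw [Finset.prod_congr rfl fun i _ => U6_al D hE α x i, Finset.prod_mul_distrib,
      Finset.prod_const, Finset.card_univ, Fintype.card_fin]
  have hQ : D.Q t (algebraMap (𝓞 F) (𝓞 K) α * x) = (Nm α : ℝ) * D.Q t x := by
    unfold Ctx.Q
    rw [Finset.mul_sum]
    refine Finset.sum_congr rfl fun i _ => ?_
    rw [U6_al D hE α x i, norm_mul, Nm_eq]
    ring
  have hQ0 : 0 ≤ D.Q t x := by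
    unfold Ctx.Q
    exact Finset.sum_nonneg fun i _ => mul_nonneg (ht i).le (sq_nonneg _)
  unfold Ctx.fs
  rw [hN, hQ, map_mul, map_pow, Complex.ofReal_mul,
    Complex.mul_cpow_ofReal_nonneg (Nat.cast_nonneg _) hQ0, Complex.ofReal_natCast]
  ring

theorem U6_card (D : Ctx F K m) (hE : Emb F D.σ) (α : 𝓞 F) :
    Ideal.absNorm (Ideal.span {algebraMap (𝓞 F) (𝓞 K) α}) = Nm α ^ (m + 1) := by
  have h := Ideal.absNorm_algebraMap (𝓞 F) (𝓞 K) (Ideal.span {α})
  rw [Ideal.map_span, Set.image_singleton] at h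
  rw [h, Nm, ← IsFractionRing.finrank_eq (𝓞 F) F (𝓞 K) K, hE.fin]

/-- The quotient I / a I. -/
abbrev U6Q (I J : Ideal (𝓞 K)) : Type :=
  I.toAddSubgroup ⧸ (J.toAddSubgroup.addSubgroupOf I.toAddSubgroup)

theorem U6_index (D : Ctx F K m) (hE : Emb F D.σ) (hI : D.I ≠ ⊥) (α : 𝓞 F) :
    Nat.card (U6Q D.I (Ideal.span {algebraMap (𝓞 F) (𝓞 K) α} * D.I)) = Nm α ^ (m + 1) := by
  have h1 : ∀ J : Ideal (𝓞 K), J.toAddSubgroup.index = Ideal.absNorm J := by
    intro J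
    rw [Ideal.absNorm_apply, Submodule.cardQuot_apply]
    rfl
  have hle : (Ideal.span {algebraMap (𝓞 F) (𝓞 K) α} * D.I).toAddSubgroup ≤ D.I.toAddSubgroup :=
    fun x hx => Ideal.mul_le_right hx
  have h2 := AddSubgroup.relIndex_mul_index hle
  rw [h1, h1, map_mul, U6_card D hE α] at h2
  have h3 : Ideal.absNorm D.I ≠ 0 := by
    rw [Ne, Ideal.absNorm_eq_zero_iff]
    exact hI
  exact mul_right_cancel₀ h3 h2

theorem U6_int (D : Ctx F K m) (hE : Emb F D.σ) (lm : Fin (m + 1) → Fin m → ℝ) (s : ℂ)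
    (hs : 3 / 2 < s.re) {κ : Type} (f : κ → 𝓞 K) (hf : Function.Injective f)
    (hne : ∀ i, f i ≠ 0) :
    IntegrableOn (fun z => ∑' i, D.fs (tt lm z) s (f i)) (Set.Icc (0 : Fin m → ℝ) 1) := by
  obtain ⟨a, ha, hat⟩ := u3_tt lm
  obtain ⟨c, hc, hQ⟩ := Q_low D hE a ha
  refine ContinuousOn.integrableOn_compact isCompact_Icc ?_
  have hsum : Summable fun i => c ^ (-((m + 1 : ℕ) * s.re)) *
      D.sz (f i) ^ (-((2 * s.re - 1) * (m + 1 : ℝ))) := by
    have h := sum_sz D hE ((2 * s.re - 1) * (m + 1 : ℝ)) (by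
      have : (0 : ℝ) < m + 1 := by positivity
      nlinarith)
    exact (h.comp_injective hf).mul_left _
  refine continuousOn_tsum (fun i => (U4_fs_cont D lm (f i) (hne i) s).continuousOn) hsum ?_
  intro i z hz
  exact u3_fs_le D _ s (by linarith) c hc _ (hQ _ (hat z hz) _ (hne i))

theorem U6_sum (D : Ctx F K m) (hE : Emb F D.σ) (t : Fin (m + 1) → ℝ) (ht : ∀ i, 0 < t i) (s : ℂ)
    (hs : 3 / 2 < s.re) {κ : Type} (f : κ → 𝓞 K) (hf : Function.Injective f)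
    (hne : ∀ i, f i ≠ 0) : Summable fun i => D.fs t s (f i) := by
  obtain ⟨a, ha, hat⟩ : ∃ a : ℝ, 0 < a ∧ ∀ i, a ≤ t i := by
    obtain ⟨i, hi⟩ := Finite.exists_min t
    exact ⟨t i, ht i, hi⟩
  obtain ⟨c, hc, hQ⟩ := Q_low D hE a ha
  have hsum : Summable fun i => c ^ (-((m + 1 : ℕ) * s.re)) *
      D.sz (f i) ^ (-((2 * s.re - 1) * (m + 1 : ℝ))) := by
    have h := sum_sz D hE ((2 * s.re - 1) * (m + 1 : ℝ)) (by
      have : (0 : ℝ) < m + 1 := by positivity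
      nlinarith)
    exact (h.comp_injective hf).mul_left _
  exact Summable.of_norm_bounded hsum fun i =>
    u3_fs_le D t s (by linarith) c hc _ (hQ t hat _ (hne i))

/-! Chunk PU6 (M). The unsmoothed series has no poles near Re s = 3/2, first form: for α in O, α <> 0, with (α - 1) c₀ in I.
PROOF. X = c₀ + I, αX = α c₀ + α I, a subset of X. Put D' = ⟨σ, α I, α c₀, ..⟩ (c and p as in D). For t and Re s > 3/2 let E(t) = sum_{x in X} fs t s x,
E'(t) = sum_{x in αX} fs t s x. Then E'(t) = conj(α)^n |α|^(-2ns) E(t) where n = m+1 (fs t s (αx) = conj(α)^n (|α|^2)^(-ns) fs t s x: N(αx) = e(α)^n N(x), Q_t(αx) = |α|^2 Q_t(x)).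
I/αI is finite with N(α)^n elements, N(α) = |e α|^2 (Nm α: I is a free O-module of rank n; or absNorm (span {α}) in K is Nm(α)^n: Ideal.absNorm_span_singleton, Algebra.norm_algebraMap,
and the index of αI in I is absNorm (α)); let B be a (finite) set of representatives b in I. X = α c₀ + I (hypothesis) is the disjoint union of the αX - b, b in B. So
E(t) = sum_{b in B} sum_{x in αX} fs(x - b) = |B| E'(t) - sum_{b in B} sum_{x in αX} Dif w_b (fs) (x), with ι = Unit, w_b = b, Dif w_b univ h x = h x - h (x - b). So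
(1 - |B| conj(α)^n |α|^(-2ns)) E(t) = - sum_b sum_{αX} Dif. Integrate over the cube with t = tt lm z: unfold (H55P/U4 or the file which has it; g = 1) gives
int_cube E(tt z) = cst(s) sum_T nf, and cont_analytic D' hE I (αI <= I) (α c₀ not in I) w_b says that int_cube sum_{αX} Dif is analytic on Re s > 3/2 - 1/(2n). With
U5_gam one divides by cst. See zfun_one in H55N/U5.lean for the same proof with another trick. -/
theorem zfun_al (D : Ctx F K m) (hE : Emb F D.σ) (h0 : D.c₀ ∉ D.I) (hI : D.I ≠ ⊥)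
    (u : Fin m → (𝓞 K)ˣ) (hu : D.UOk u) (α : 𝓞 F) (hα : α ≠ 0)
    (h1 : algebraMap (𝓞 F) (𝓞 K) (α - 1) * D.c₀ ∈ D.I) :
    ∃ Z : ℂ → ℂ, AnalyticOnNhd ℂ Z {s | 3 / 2 - 1 / (2 * (m + 1)) < s.re} ∧
      ∀ T : Set (𝓞 K), T ⊆ D.X →
        (∀ x ∈ D.X, ∃! q : (Fin m → ℤ) × T, x = (uu u q.1 : 𝓞 K) * q.2) →
        ∀ s : ℂ, 3 / 2 < s.re → HasSum (fun x : T => (1 - (Nm α : ℂ) ^ (m + 1) *
          (starRingEnd ℂ) (eF F α) ^ (m + 1) * (Nm α : ℂ) ^ (-((m + 1 : ℕ) * s))) *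
            nf F s (x : 𝓞 K)) (Z s) := by
  set a : 𝓞 K := algebraMap (𝓞 F) (𝓞 K) α with ha
  have ha0 : a ≠ 0 := by
    intro h
    apply hα
    apply FaithfulSMul.algebraMap_injective (𝓞 F) (𝓞 K)
    rw [← ha, h, map_zero]
  have h1' : a * D.c₀ - D.c₀ ∈ D.I := by
    have : a * D.c₀ - D.c₀ = algebraMap (𝓞 F) (𝓞 K) (α - 1) * D.c₀ := by
      rw [map_sub, map_one, ← ha]
      ring
    rw [this]
    exact h1
  have hc0 : a * D.c₀ ∉ D.I := by
    intro h
    apply h0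
    have := D.I.sub_mem h h1'
    rwa [sub_sub_cancel] at this
  let J : Ideal (𝓞 K) := Ideal.span {a} * D.I
  have hJI : J ≤ D.I := Ideal.mul_le_right
  have hmemJ : ∀ y, y ∈ J ↔ ∃ z ∈ D.I, a * z = y := fun y => Ideal.mem_span_singleton_mul
  let D' : Ctx F K m := { σ := D.σ, I := J, c₀ := a * D.c₀, c := D.c, p := D.p }
  let Q : Type := U6Q D.I J
  have hcard : Nat.card Q = Nm α ^ (m + 1) := U6_index D hE hI α
  have hfin : Finite Q := Nat.finite_of_card_ne_zero (by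
    rw [hcard]
    exact pow_ne_zero _ fun h => hα (Nm_eq_zero.1 h))
  have := Fintype.ofFinite Q
  let ρ : Q → 𝓞 K := fun q => ((Quotient.out q : D.I.toAddSubgroup) : 𝓞 K)
  have hρ : ∀ q, ρ q ∈ D.I := fun q => (Quotient.out q : D.I.toAddSubgroup).2
  have hρJ : ∀ q q' : Q, ρ q - ρ q' ∈ J → q = q' := by
    intro q q' h
    rw [← QuotientAddGroup.out_eq' q, ← QuotientAddGroup.out_eq' q', QuotientAddGroup.eq,
      AddSubgroup.mem_addSubgroupOf]
    have h2 : J.toAddSubgroup.carrier (-(ρ q) + ρ q') := by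
      have : -(ρ q) + ρ q' = -(ρ q - ρ q') := by ring
      rw [this]
      exact J.neg_mem_iff.2 h
    exact h2
  have hρS : ∀ y ∈ D.I, ∃ q : Q, y - ρ q ∈ J := by
    intro y hy
    refine ⟨QuotientAddGroup.mk ⟨y, hy⟩, ?_⟩
    have h2 := QuotientAddGroup.out_eq' (QuotientAddGroup.mk (⟨y, hy⟩ : D.I.toAddSubgroup) : Q)
    rw [QuotientAddGroup.eq, AddSubgroup.mem_addSubgroupOf] at h2
    have h3 : -(ρ (QuotientAddGroup.mk ⟨y, hy⟩)) + y ∈ J := h2
    rwa [neg_add_eq_sub] at h3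
  -- the decomposition of X
  let ε : Q × D'.X ≃ D.X := Equiv.ofBijective
    (fun p => ⟨(p.2 : 𝓞 K) + ρ p.1, by
      rw [D.mem_X]
      have h2 : (p.2 : 𝓞 K) - a * D.c₀ ∈ J := p.2.2
      have h3 : (p.2 : 𝓞 K) + ρ p.1 - D.c₀ = ((p.2 : 𝓞 K) - a * D.c₀) + ρ p.1 +
        (a * D.c₀ - D.c₀) := by ring
      rw [h3]
      exact D.I.add_mem (D.I.add_mem (hJI h2) (hρ _)) h1'⟩) (by
    constructor
    · rintro ⟨q, x, hx⟩ ⟨q', x', hx'⟩ h
      have h2 : x + ρ q = x' + ρ q' := congrArg Subtype.val h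
      have h3 : x - a * D.c₀ ∈ J := hx
      have h4 : x' - a * D.c₀ ∈ J := hx'
      have h5 : q = q' := by
        apply hρJ
        have : ρ q - ρ q' = (x' - a * D.c₀) - (x - a * D.c₀) := by linear_combination h2
        rw [this]
        exact J.sub_mem h4 h3
      subst h5
      have h6 : x = x' := add_right_cancel h2
      subst h6
      rfl
    · rintro ⟨x, hx⟩
      have h2 : x - a * D.c₀ ∈ D.I := by
        have h3 : x - a * D.c₀ = (x - D.c₀) - (a * D.c₀ - D.c₀) := by ring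
        rw [h3]
        exact D.I.sub_mem hx h1'
      obtain ⟨q, hq⟩ := hρS _ h2
      refine ⟨(q, ⟨x - ρ q, ?_⟩), ?_⟩
      · show x - ρ q - a * D.c₀ ∈ J
        have h3 : x - ρ q - a * D.c₀ = x - a * D.c₀ - ρ q := by ring
        rw [h3]
        exact hq
      · apply Subtype.ext
        show x - ρ q + ρ q = x
        ring)
  -- multiplication by a
  let μ : D.X ≃ D'.X := Equiv.ofBijective
    (fun x => ⟨a * (x : 𝓞 K), by
      show a * (x : 𝓞 K) - a * D.c₀ ∈ J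
      rw [hmemJ]
      exact ⟨(x : 𝓞 K) - D.c₀, x.2, by ring⟩⟩) (by
    constructor
    · rintro ⟨x, hx⟩ ⟨x', hx'⟩ h
      have h2 : a * x = a * x' := congrArg Subtype.val h
      exact Subtype.ext (mul_left_cancel₀ ha0 h2)
    · rintro ⟨y, hy⟩
      have h2 : y - a * D.c₀ ∈ J := hy
      obtain ⟨z, hz, hz2⟩ := (hmemJ _).1 h2
      refine ⟨⟨z + D.c₀, ?_⟩, ?_⟩
      · rw [D.mem_X, add_sub_cancel_right]
        exact hz
      · apply Subtype.ext
        show a * (z + D.c₀) = y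
        linear_combination hz2)
  have hX'ne : ∀ x : D'.X, (x : 𝓞 K) ≠ 0 := by
    intro x h
    apply hc0
    have h2 : (x : 𝓞 K) - a * D.c₀ ∈ J := x.2
    rw [h, zero_sub] at h2
    exact D.I.neg_mem_iff.1 (hJI h2)
  have hXne : ∀ (q : Q) (x : D'.X), (x : 𝓞 K) + ρ q ≠ 0 := fun q x =>
    D.X_ne h0 (ε (q, x)).2
  let w : Q → Unit → 𝓞 K := fun q _ => -(ρ q)
  have hdif : ∀ (q : Q) (h : 𝓞 K → ℂ) (x : 𝓞 K),
      Dif (w q) Finset.univ h x = h x - h (x + ρ q) := by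
    intro q h x
    have h6 : (Finset.univ : Finset Unit) = insert () ∅ := rfl
    rw [h6, dif_insert (w q) ∅ () (Finset.notMem_empty _), dif_empty, dif_empty, sub_neg_eq_add]
  set V : ℂ → ℂ := fun s => -∑ q : Q, ∫ z in Set.Icc (0 : Fin m → ℝ) 1,
      ∑' x : D'.X, (1 : ℂ) * Dif (w q) Finset.univ (D'.fs (tt (D.lm u) z) s) x with hVdef
  have hV : AnalyticOnNhd ℂ V {s | 3 / 2 - 1 / (2 * (m + 1)) < s.re} := by
    refine AnalyticOnNhd.neg ?_
    refine Finset.analyticOnNhd_fun_sum _ fun q _ => ?_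
    have h := cont_analytic D' hE D.I hJI hc0 (w q) (fun _ => D.I.neg_mem_iff.2 (hρ q))
      (by simp; omega) (fun _ => 1) ⟨1, fun _ => by simp⟩ (D.lm u)
    rw [Fintype.card_unit, Nat.cast_one] at h
    exact h
  have hr : (0 : ℝ) ≤ 3 / 2 - 1 / (2 * (m + 1)) := by
    have h4 : (1 : ℝ) / (2 * (m + 1)) ≤ 1 / 2 := by
      rw [div_le_div_iff₀ (by positivity) (by norm_num)]
      have : (0 : ℝ) ≤ m := Nat.cast_nonneg m
      linarith
    linarith
  obtain ⟨hA1, hA2⟩ := U5_gam D u hu V _ hr hV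
  refine ⟨_, hA1, ?_⟩
  intro T hT hbij s hs
  obtain ⟨h4, h5⟩ := unfold D hE h0 u hu (fun _ => 1) ⟨1, fun _ => by simp⟩
    (fun x _ z => rfl) T hT hbij s hs
  set κ : ℂ := (starRingEnd ℂ) (eF F α) ^ (m + 1) * (Nm α : ℂ) ^ (-((m + 1 : ℕ) * s)) with hκ
  have hκ' : 1 - (Nm α : ℂ) ^ (m + 1) *
          (starRingEnd ℂ) (eF F α) ^ (m + 1) * (Nm α : ℂ) ^ (-((m + 1 : ℕ) * s)) =
      1 - (Fintype.card Q : ℂ) * κ := by
    rw [← Nat.card_eq_fintype_card, hcard, hκ]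
    push_cast
    ring
  rw [hκ']
  have hinjX' : Function.Injective fun x : D'.X => (x : 𝓞 K) := Subtype.val_injective
  have hinjq : ∀ q : Q, Function.Injective fun x : D'.X => (x : 𝓞 K) + ρ q := fun q x y h =>
    Subtype.val_injective (add_right_cancel h)
  have hsum : ∀ t : Fin (m + 1) → ℝ, (∀ i, 0 < t i) →
      ∑ q : Q, ∑' x : D'.X, (1 : ℂ) * Dif (w q) Finset.univ (D'.fs t s) x =
        -((1 - (Fintype.card Q : ℂ) * κ) * ∑' x : D.X, D.fs t s x) := by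
    intro t ht
    have hsm : Summable fun x : D.X => D.fs t s x :=
      U6_sum D hE t ht s hs (fun x : D.X => (x : 𝓞 K)) Subtype.val_injective
        fun x => D.X_ne h0 x.2
    have hsm' : Summable fun x : D'.X => D.fs t s x :=
      U6_sum D hE t ht s hs (fun x : D'.X => (x : 𝓞 K)) hinjX' hX'ne
    have hsmq : ∀ q : Q, Summable fun x : D'.X => D.fs t s ((x : 𝓞 K) + ρ q) := fun q =>
      U6_sum D hE t ht s hs _ (hinjq q) (hXne q)
    have h6 : ∑' x : D'.X, D.fs t s x = κ * ∑' x : D.X, D.fs t s x := by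
      rw [← μ.tsum_eq, ← tsum_mul_left]
      exact tsum_congr fun x => U6_fs D hE α t ht s x
    have h7 : ∑' x : D.X, D.fs t s x = ∑ q : Q, ∑' x : D'.X, D.fs t s ((x : 𝓞 K) + ρ q) := by
      have h9 : Summable fun p : Q × D'.X => D.fs t s (ε p : 𝓞 K) := (ε.summable_iff).2 hsm
      rw [← ε.tsum_eq (fun x : D.X => D.fs t s x), h9.tsum_prod' fun q => hsmq q, tsum_fintype]
      rfl
    have h8 : ∀ q : Q, ∑' x : D'.X, (1 : ℂ) * Dif (w q) Finset.univ (D'.fs t s) x =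
        ∑' x : D'.X, D.fs t s x - ∑' x : D'.X, D.fs t s ((x : 𝓞 K) + ρ q) := by
      intro q
      rw [← hsm'.tsum_sub (hsmq q)]
      refine tsum_congr fun x => ?_
      rw [one_mul, hdif]
      rfl
    rw [Finset.sum_congr rfl fun q _ => h8 q, Finset.sum_sub_distrib, ← h7, Finset.sum_const,
      Finset.card_univ, nsmul_eq_mul, h6]
    ring
  have hint : ∀ q : Q, IntegrableOn (fun z => ∑' x : D'.X,
      (1 : ℂ) * Dif (w q) Finset.univ (D'.fs (tt (D.lm u) z) s) x)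
      (Set.Icc (0 : Fin m → ℝ) 1) := by
    intro q
    have h6 := (U6_int D hE (D.lm u) s hs _ hinjX' hX'ne).sub
      (U6_int D hE (D.lm u) s hs _ (hinjq q) (hXne q))
    refine h6.congr_fun_ae (Filter.Eventually.of_forall fun z => ?_)
    show ∑' x : D'.X, D.fs (tt (D.lm u) z) s x - ∑' x : D'.X, D.fs (tt (D.lm u) z) s
      ((x : 𝓞 K) + ρ q) = ∑' x : D'.X, (1 : ℂ) * Dif (w q) Finset.univ
        (D'.fs (tt (D.lm u) z) s) x
    have h7 : ∀ i, 0 < tt (D.lm u) z i := fun i => Real.exp_pos _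
    rw [← (U6_sum D hE _ h7 s hs _ hinjX' hX'ne).tsum_sub
      (U6_sum D hE _ h7 s hs _ (hinjq q) (hXne q))]
    refine tsum_congr fun x => ?_
    rw [one_mul, hdif]
    rfl
  have h6 : (∑' x : T, (1 - (Fintype.card Q : ℂ) * κ) * nf F s (x : 𝓞 K)) * cst (D.lm u) s =
      V s := by
    rw [tsum_mul_left, mul_assoc]
    have h7 : (∑' x : T, nf F s (x : 𝓞 K)) * cst (D.lm u) s =
        ∫ z in Set.Icc (0 : Fin m → ℝ) 1, ∑' x : D.X, D.fs (tt (D.lm u) z) s x := by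
      simp only [one_mul] at h5
      exact h5
    rw [h7, hVdef]
    simp only
    rw [← integral_finsetSum _ fun q _ => hint q, ← integral_const_mul, ← integral_neg]
    refine integral_congr_ae (Filter.Eventually.of_forall fun z => ?_)
    show _ = -∑ q : Q, ∑' x : D'.X, (1 : ℂ) * Dif (w q) Finset.univ (D'.fs (tt (D.lm u) z) s) x
    rw [hsum (tt (D.lm u) z) fun i => Real.exp_pos _, neg_neg]
  have h7 := hA2 s (by linarith) _ h6
  rw [h7]
  have h8 := h4.of_norm.mul_left (1 - (Fintype.card Q : ℂ) * κ)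
  simp only [one_mul] at h8
  exact h8.hasSum

end H55P
end
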