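import Mathlib
import Pool.Agent.Lib.H1M.PP2.M010
import Pool.Agent.Lib.H1M.PP2.M039
import Pool.Agent.Lib.H1M.PP2.M048
import Pool.Agent.Lib.H1M.PP2.M052
import Pool.Agent.Lib.H1M.PP2.M053
import Pool.Agent.Lib.H1M.PP2.M054
import Pool.Agent.Lib.H1M.PP2.M062
import Pool.Agent.Lib.H1M.PP2.M063
import Pool.Agent.Lib.H1M.PP2.M064
import Pool.Agent.Lib.H1M.PP2.M073

/-! Merged copies (to shorten the build) of Lib.H55P.U7, Lib.H55P.Core, Lib.H55P.T8, Lib.H55P.T9, Lib.SSG.E.D, Lib.SSG.E.DN, Lib.SSG.E.HV, Lib.SSG.E.IFD, Lib.SSG.E.W8. -/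

-- from Lib.H55P.U7
section

open NumberField IsDedekindDomain MeasureTheory

namespace H55P

open H55N
open H55B (g)

variable {F : Type} [Field F] [NumberField F] [IQ F] {K : Type} [Field K] [NumberField K]
  [Algebra F K] {m : ℕ}

theorem U7_conj (γ : 𝓞 F) : ∃ γ' : 𝓞 F, eF F γ' = (starRingEnd ℂ) (eF F γ) := by
  have hq : Algebra.IsQuadraticExtension ℚ F := ⟨IQ.deg⟩
  have : IsGalois ℚ F := inferInstance
  obtain ⟨σ, hσ⟩ := ComplexEmbedding.exists_comp_symm_eq_of_comp_eq (k := ℚ) (embF F)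
    (ComplexEmbedding.conjugate (embF F)) (Subsingleton.elim _ _)
  refine ⟨⟨σ.symm γ, ?_⟩, ?_⟩
  · exact γ.2.map (σ.symm.toAlgHom.restrictScalars ℤ)
  · have h := RingHom.congr_fun hσ (γ : F)
    exact h

/-- A suitable multiplier. -/
theorem U7_k (z : ℂ) (hz : z.im ≠ 0) (N : ℕ) (hN : N ≠ 0) (n : ℕ) (hn : 0 < n) :
    ∃ k : ℕ, (1 + (N * k : ℕ) * z) ^ n ≠ (1 + (N * k : ℕ) * (starRingEnd ℂ) z) ^ n := by
  by_contra hcon
  push Not at hcon
  have hne : ∀ k : ℕ, (1 + (N * k : ℕ) * (starRingEnd ℂ) z : ℂ) ≠ 0 := by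
    intro k h
    have him := congrArg Complex.im h
    have hre := congrArg Complex.re h
    simp at him hre
    rcases him with h1 | h1
    · rcases h1 with h2 | h2
      · exact hN h2
      · rw [h2] at hre
        simp at hre
    · exact hz h1
  let q : ℕ → ℂ := fun k => (1 + (N * k : ℕ) * z) / (1 + (N * k : ℕ) * (starRingEnd ℂ) z)
  have hq : ∀ k, q k ∈ Polynomial.nthRootsFinset n (1 : ℂ) := by
    intro k
    rw [Polynomial.mem_nthRootsFinset hn]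
    change ((1 + (N * k : ℕ) * z) / (1 + (N * k : ℕ) * (starRingEnd ℂ) z)) ^ n = 1
    rw [div_pow, hcon k, div_self]
    exact pow_ne_zero _ (hne k)
  have hinj : Function.Injective q := by
    intro k l h
    change (1 + (N * k : ℕ) * z) / (1 + (N * k : ℕ) * (starRingEnd ℂ) z) =
      (1 + (N * l : ℕ) * z) / (1 + (N * l : ℕ) * (starRingEnd ℂ) z) at h
    rw [div_eq_div_iff (hne k) (hne l)] at h
    have h1 : ((N * k : ℕ) - (N * l : ℕ) : ℂ) * (z - (starRingEnd ℂ) z) = 0 := by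
      linear_combination h
    rcases mul_eq_zero.1 h1 with h2 | h2
    · have h3 : N * k = N * l := by exact_mod_cast sub_eq_zero.1 h2
      exact Nat.eq_of_mul_eq_mul_left (Nat.pos_of_ne_zero hN) h3
    · exfalso
      exact hz (Complex.conj_eq_iff_im.1 (sub_eq_zero.1 h2).symm)
  exact not_injective_infinite_finite
    (fun k => (⟨q k, hq k⟩ : {x // x ∈ Polynomial.nthRootsFinset n (1 : ℂ)}))
    fun k l h => hinj (congrArg Subtype.val h)

/-- The Euler type factor. -/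
noncomputable def U7_f (F : Type) [Field F] [NumberField F] [IQ F] (m : ℕ) (α : 𝓞 F) (s : ℂ) : ℂ :=
  1 - (Nm α : ℂ) ^ (m + 1) * (starRingEnd ℂ) (eF F α) ^ (m + 1) *
    (Nm α : ℂ) ^ (-((m + 1 : ℕ) * s))

theorem U7_f_an (α : 𝓞 F) (hα : α ≠ 0) : Differentiable ℂ (U7_f F m α) := by
  have h0 : (Nm α : ℂ) ≠ 0 := by
    exact_mod_cast fun h => hα (Nm_eq_zero.1 h)
  unfold U7_f
  intro s
  refine DifferentiableAt.const_sub (DifferentiableAt.const_mul ?_ _) _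
  refine DifferentiableAt.const_cpow ?_ (Or.inl h0)
  fun_prop

/-! Chunk PU7 (M). The unsmoothed series has no poles near Re s = 3/2.
PROOF. n = m+1. Let N be a nonzero integer with N c₀ in I (absNorm of I). There is γ in O with e(γ) not real (IQ.im; F0_im in H55P/F0.lean). Let α = 1 + N k γ, α' in O with e α' = conj(e α)
(F is quadratic, so the conjugate of an integer is an integer: Tr γ - γ, Tr γ in Z: Algebra.trace ℤ or minpoly; e(γ) + conj e(γ) is an integer); α' = 1 + N k γ'. Both satisfy the hypothesis h1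
of zfun_al. Choose k >= 1 such that (e α / conj e α)^n <> 1: otherwise for k = 1, 2, ..., n+1 ... the numbers (1 + N k z)/(1 + N k conj z) (z = e γ) would be n-th roots of unity; the map
k -> (1 + N k z)/(1 + N k conj z) is injective (z not real), and there are at most n roots (Polynomial.card_roots or: finitely many n-th roots of unity, infinitely many k). f(s) = 1 - Nm(α)^n conj(eα)^n
Nm(α)^(-ns), f'(s) the same for α' (Nm α' = Nm α). For Re s > 3/2 - 1/(2n): a common zero s of f and f' gives conj(eα)^n = Nm(α)^(ns - n) = (e α)^n, contradiction. Zα, Zα' from zfun_al; f' Zα = f Zα' for Re s > 3/2 (if a T exists, both are f f' times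
the sum), hence on the half plane (AnalyticOnNhd.eqOn_of_preconnected_of_eventuallyEq; halfspace convex). Z(s) = Zα(s)/f(s) if f(s) <> 0, else Zα'(s)/f'(s): analytic. If no T exists take Z = 0 (T exists always, but the
case distinction is cheap). For Re s > 3/2 the sum over T of nf is Z(s): if f(s) <> 0 divide, else f'(s) <> 0, divide. -/
theorem zfun_one (D : Ctx F K m) (hE : Emb F D.σ) (h0 : D.c₀ ∉ D.I) (hI : D.I ≠ ⊥)
    (u : Fin m → (𝓞 K)ˣ) (hu : D.UOk u) :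
    ∃ Z : ℂ → ℂ, AnalyticOnNhd ℂ Z {s | 3 / 2 - 1 / (2 * (m + 1)) < s.re} ∧
      ∀ T : Set (𝓞 K), T ⊆ D.X →
        (∀ x ∈ D.X, ∃! q : (Fin m → ℤ) × T, x = (uu u q.1 : 𝓞 K) * q.2) →
        ∀ s : ℂ, 3 / 2 < s.re → HasSum (fun x : T => nf F s (x : 𝓞 K)) (Z s) := by
  classical
  by_cases hT : ∃ T : Set (𝓞 K), T ⊆ D.X ∧
        (∀ x ∈ D.X, ∃! q : (Fin m → ℤ) × T, x = (uu u q.1 : 𝓞 K) * q.2)
  swap
  · refine ⟨fun _ => 0, fun _ _ => analyticAt_const, ?_⟩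
    intro T h1 h2
    exact absurd ⟨T, h1, h2⟩ hT
  obtain ⟨T0, hT0, hT0'⟩ := hT
  -- the choice of α and its conjugate
  obtain ⟨γ, hγ⟩ := F0_im (F := F)
  obtain ⟨γ', hγ'⟩ := U7_conj γ
  set N : ℕ := Ideal.absNorm D.I with hNdef
  have hN : N ≠ 0 := by
    rw [hNdef, Ne, Ideal.absNorm_eq_zero_iff]
    exact hI
  have hNI : (N : 𝓞 K) ∈ D.I := Ideal.absNorm_mem D.I
  obtain ⟨k, hk⟩ := U7_k (eF F γ) hγ N hN (m + 1) (Nat.succ_pos m)
  have hα : ∀ δ : 𝓞 F, algebraMap (𝓞 F) (𝓞 K) ((1 + (N * k : ℕ) * δ) - 1) * D.c₀ ∈ D.I := by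
    intro δ
    have h1 : (1 + (N * k : ℕ) * δ) - 1 = (N : 𝓞 F) * ((k : 𝓞 F) * δ) := by
      push_cast
      ring
    rw [h1, map_mul, map_natCast, mul_assoc]
    exact D.I.mul_mem_right _ hNI
  set α : 𝓞 F := 1 + (N * k : ℕ) * γ with hαdef
  set α' : 𝓞 F := 1 + (N * k : ℕ) * γ' with hα'def
  have heα : eF F α = 1 + (N * k : ℕ) * eF F γ := by
    rw [hαdef, map_add, map_one, map_mul, map_natCast]
  have heα' : eF F α' = (starRingEnd ℂ) (eF F α) := by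
    rw [heα, hα'def, map_add, map_one, map_mul, map_natCast, hγ', map_add, map_one, map_mul,
      map_natCast]
  have hne' : (eF F α) ^ (m + 1) ≠ (starRingEnd ℂ) (eF F α) ^ (m + 1) := by
    rw [← heα', hα'def, heα, map_add, map_one, map_mul, map_natCast, hγ']
    exact hk
  have hα0 : α ≠ 0 := by
    intro h
    apply hne'
    rw [h, map_zero, map_zero]
  have hα'0 : α' ≠ 0 := by
    intro h
    apply hα0
    apply eF_inj
    have h1 : (starRingEnd ℂ) (eF F α) = 0 := by rw [← heα', h, map_zero]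
    rw [map_zero]
    exact (map_eq_zero (starRingEnd ℂ)).1 h1
  have hNm : Nm α' = Nm α := by
    have h1 := Nm_eq α
    have h2 := Nm_eq α'
    rw [heα', RCLike.norm_conj, ← h1] at h2
    exact_mod_cast h2
  obtain ⟨Z1, hZ1, hZ1'⟩ := zfun_al D hE h0 hI u hu α hα0 (hα γ)
  obtain ⟨Z2, hZ2, hZ2'⟩ := zfun_al D hE h0 hI u hu α' hα'0 (hα γ')
  set f : ℂ → ℂ := U7_f F m α with hfdef
  set f' : ℂ → ℂ := U7_f F m α' with hf'def
  have hf : Differentiable ℂ f := U7_f_an α hα0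
  have hf' : Differentiable ℂ f' := U7_f_an α' hα'0
  have hff : ∀ s, f s = 0 → f' s ≠ 0 := by
    intro s h1 h2
    apply hne'
    rw [hfdef, U7_f, sub_eq_zero] at h1
    rw [hf'def, U7_f, sub_eq_zero, hNm, heα', Complex.conj_conj] at h2
    have h3 : (Nm α : ℂ) ≠ 0 := by exact_mod_cast fun h => hα0 (Nm_eq_zero.1 h)
    have h4 : (Nm α : ℂ) ^ (-((m + 1 : ℕ) * s)) ≠ 0 := by
      rw [Complex.cpow_ne_zero_iff]
      exact Or.inl h3
    have h5 : (Nm α : ℂ) ^ (m + 1) ≠ 0 := pow_ne_zero _ h3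
    have h6 : (Nm α : ℂ) ^ (m + 1) * (Nm α : ℂ) ^ (-((m + 1 : ℕ) * s)) ≠ 0 := mul_ne_zero h5 h4
    apply mul_left_cancel₀ h6
    linear_combination h1 - h2
  have hid0 : ∀ s : ℂ, 3 / 2 < s.re → f' s * Z1 s = f s * Z2 s := by
    intro s hs
    have h1 := (hZ1' T0 hT0 hT0' s hs).mul_left (f' s)
    have h2 := (hZ2' T0 hT0 hT0' s hs).mul_left (f s)
    refine h1.unique ?_
    convert h2 using 2 with x
    change f' s * (f s * nf F s (x : 𝓞 K)) = f s * (f' s * nf F s (x : 𝓞 K))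
    ring
  set U : Set ℂ := {s | 3 / 2 - 1 / (2 * (m + 1)) < s.re} with hU
  have hUo : IsOpen U := isOpen_lt continuous_const Complex.continuous_re
  have hid : Set.EqOn (fun s => f' s * Z1 s) (fun s => f s * Z2 s) U := by
    refine AnalyticOnNhd.eqOn_of_preconnected_of_eventuallyEq (𝕜 := ℂ) (z₀ := 2) ?_ ?_
      (convex_halfSpace_re_gt _).isPreconnected ?_ ?_
    · exact fun s hs => (hf'.analyticAt s).mul (hZ1 s hs)
    · exact fun s hs => (hf.analyticAt s).mul (hZ2 s hs)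
    · change (3 : ℝ) / 2 - 1 / (2 * (m + 1)) < (2 : ℂ).re
      have : (0 : ℝ) < 1 / (2 * (m + 1)) := by positivity
      rw [Complex.re_ofNat]
      linarith
    · have h1 : {s : ℂ | 3 / 2 < s.re} ∈ nhds (2 : ℂ) := by
        refine IsOpen.mem_nhds (isOpen_lt continuous_const Complex.continuous_re) ?_
        change (3 : ℝ) / 2 < (2 : ℂ).re
        norm_num
      exact Filter.eventuallyEq_of_mem h1 fun s hs => hid0 s hs
  refine ⟨fun s => if f s ≠ 0 then Z1 s / f s else Z2 s / f' s, ?_, ?_⟩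
  · intro s hs
    by_cases h : f s = 0
    · have h1 : f' s ≠ 0 := hff s h
      have h2 : AnalyticAt ℂ (fun s => Z2 s / f' s) s := (hZ2 s hs).div (hf'.analyticAt s) h1
      refine h2.congr ?_
      filter_upwards [(hf'.continuous.continuousAt (x := s)).eventually_ne h1, hUo.mem_nhds hs]
        with t ht1 ht2
      by_cases h3 : f t = 0
      · rw [if_neg (not_not.2 h3)]
      · rw [if_pos h3, div_eq_div_iff ht1 h3]
        have h4 : f' t * Z1 t = f t * Z2 t := hid ht2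
        linear_combination -h4
    · have h2 : AnalyticAt ℂ (fun s => Z1 s / f s) s := (hZ1 s hs).div (hf.analyticAt s) h
      refine h2.congr ?_
      filter_upwards [(hf.continuous.continuousAt (x := s)).eventually_ne h] with t ht1
      rw [if_pos ht1]
  · intro T hT hbij s hs
    by_cases h : f s = 0
    · have h1 : f' s ≠ 0 := hff s h
      change HasSum _ (if f s ≠ 0 then Z1 s / f s else Z2 s / f' s)
      rw [if_neg (not_not.2 h)]
      have h2 := (hZ2' T hT hbij s hs).div_const (f' s)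
      refine h2.congr_fun ?_
      intro x
      change _ = f' s * nf F s (x : 𝓞 K) / f' s
      rw [mul_div_cancel_left₀ _ h1]
    · change HasSum _ (if f s ≠ 0 then Z1 s / f s else Z2 s / f' s)
      rw [if_pos h]
      have h2 := (hZ1' T hT hbij s hs).div_const (f s)
      refine h2.congr_fun ?_
      intro x
      change _ = f s * nf F s (x : 𝓞 K) / f s
      rw [mul_div_cancel_left₀ _ h]

end H55P
end

-- from Lib.H55P.Core
section

open NumberField IsDedekindDomain MeasureTheory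

namespace H55P

open H55N
open H55B (g)

variable {F : Type} [Field F] [NumberField F] [IQ F] {K : Type} [Field K] [NumberField K]
  [Algebra F K] {m : ℕ}

theorem pc_int (V : ValuationSubring ℂ) (n : ℤ) : V.valuation (n : ℂ) ≤ 1 := by
  rw [ValuationSubring.valuation_le_one_iff]
  exact intCast_mem V.toSubring n

theorem pc_det (V : ValuationSubring ℂ) {n : ℕ} (A : Matrix (Fin n) (Fin n) ℂ)
    (hA : ∀ i j, V.valuation (A i j) ≤ 1) : V.valuation A.det ≤ 1 := by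
  have h1 : A = (V.subtype).mapMatrix (Matrix.of fun i j =>
      (⟨A i j, (ValuationSubring.valuation_le_one_iff V _).1 (hA i j)⟩ : V)) := by
    ext i j
    rfl
  rw [h1, ← RingHom.map_det, ValuationSubring.valuation_le_one_iff]
  exact SetLike.coe_mem _

theorem pc_CN (p : ℕ) (hp : p.Prime) {M : Ideal (𝓞 F)} {l : 𝓞 F} (hM : Mod p M l)
    (hK : UnrP p K) (D : Ctx F K m) (hD : D.Ok) (b f : Ideal (𝓞 K))
    (hbp : IsCoprime b (Ideal.span {(p : 𝓞 K)})) (hf : f ≠ ⊥)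
    (hfp : IsCoprime f (Ideal.span {(p : 𝓞 K)}))
    (hI : D.I = mK K M * f * b) (hpi : ∀ i, D.p i ≠ p) (u : Fin m → (𝓞 K)ˣ)
    (L : (Fin m → ℤ) → K) (hL : LabP p l b D.c₀ u L)
    (hdirs : ∀ (a : Fin m → Fin (m + 1)) (π : Equiv.Perm (Fin m)),
      ∃ w', D.Dirs (fun k : Fin (m + 1) => L (kv (fun k => ((a k : ℕ) : ℤ)) π k)) w')
    (Ac Bc Om : ℂ) (hper : Per F Ac Bc Om) (V : ValuationSubring ℂ)
    (hVp : V.valuation (p : ℂ) < 1) (hV : GoodV Ac Bc V) :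
    V.valuation (CN (m + 1) D.Jv (fun a => .A (L a)) / Om ^ (m + 1)) ≤ 1 := by
  unfold CN
  rw [Finset.sum_div]
  refine pe8_int_sum V _ _ fun a _ => ?_
  rw [Finset.sum_div]
  refine pe8_int_sum V _ _ fun π _ => ?_
  rw [mul_div_assoc, map_mul]
  refine mul_le_one' (pc_int V _) ?_
  obtain ⟨w', hw'⟩ := hdirs a π
  obtain ⟨S, hS, hlim⟩ := Jv_A D hD _ w' hw'
  rw [hS, mul_div_assoc, map_mul]
  refine mul_le_one' (pc_det V _ fun k i => ?_) ?_
  · exact label_int p hp hK b hbp _ (hL.int _) (D.σ i) V hVp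
  · obtain ⟨m₀, h0, hpm, hlm, hm⟩ := m0_exists D hD p hp hM b f hf hfp hI hpi u L hL
      (fun k => ((a k : ℕ) : ℤ)) π
    exact rat_val D hD _ w' hw' l hM.prime
      (fun x hx k => (labels_low D hD.emb p M l hM.prime hM.le b f D.c₀ ⟨hI, rfl⟩ u L hL _ x hx).1)
      m₀ h0 hlm hm S hlim Ac Bc Om hper V hV (val_nat p hp V hVp m₀ hpm)

theorem pc_gw (c : Fin (m + 1) × Fin 2 → Ideal (𝓞 K)) (q : Fin (m + 1) × Fin 2 → ℕ) (u : (𝓞 K)ˣ)
    (x : 𝓞 K) : gw c q ((u : 𝓞 K) * x) = gw c q x := by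
  unfold gw
  refine Finset.prod_congr rfl fun i _ => ?_
  have : (u : 𝓞 K) * x ∈ c i ↔ x ∈ c i := Ideal.unit_mul_mem_iff_mem _ u.isUnit
  by_cases h : x ∈ c i
  · rw [if_pos (this.2 h), if_pos h]
  · rw [if_neg (fun h' => h (this.1 h')), if_neg h]

theorem pc_nf {σ : Fin (m + 1) → K →+* ℂ} (hσ : Emb F σ) (s : ℂ) (u : (𝓞 K)ˣ)
    (hu : ∏ i, σ i ((u : 𝓞 K) : K) = 1) (x : 𝓞 K) : nf F s ((u : 𝓞 K) * x) = nf F s x := by
  have h : ∏ i, σ i (((u : 𝓞 K) * x : 𝓞 K) : K) = ∏ i, σ i (x : K) := by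
    have h1 : ∀ i, σ i (((u : 𝓞 K) * x : 𝓞 K) : K) = σ i ((u : 𝓞 K) : K) * σ i (x : K) := by
      intro i
      rw [← map_mul]
      rfl
    rw [Finset.prod_congr rfl fun i _ => h1 i, Finset.prod_mul_distrib, hu, one_mul]
  unfold nf
  rw [← norm_eq hσ, ← norm_eq hσ, h]

theorem pc_mK {M : Ideal (𝓞 F)} {l : 𝓞 F} (hM : M ≤ Ideal.span {l}) :
    mK K M ≤ Ideal.span {algebraMap (𝓞 F) (𝓞 K) l} := by
  unfold mK
  rw [Ideal.map_le_iff_le_comap]
  intro x hx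
  obtain ⟨t, rfl⟩ := Ideal.mem_span_singleton.1 (hM hx)
  rw [Ideal.mem_comap, map_mul]
  exact Ideal.mul_mem_right _ _ (Ideal.mem_span_singleton_self _)

theorem pc_mK_ne {M : Ideal (𝓞 F)} (hM : M ≠ ⊥) : mK K M ≠ ⊥ := by
  unfold mK
  rw [Ne, Ideal.map_eq_bot_iff_of_injective (FaithfulSMul.algebraMap_injective (𝓞 F) (𝓞 K))]
  exact hM

theorem pc_cop {p : ℕ} {M : Ideal (𝓞 F)} {l : 𝓞 F} (hM : Mod p M l) :
    IsCoprime l (p : 𝓞 F) := by
  rw [← Ideal.isCoprime_span_singleton_iff, Ideal.isCoprime_iff_sup_eq, eq_top_iff]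
  rw [← Ideal.isCoprime_iff_sup_eq.1 hM.cop]
  exact sup_le_sup_right hM.le _

theorem pc_bij {J' : Ideal (𝓞 K)} {X T : Set (𝓞 K)} (h0 : (0 : 𝓞 K) ∉ X) (hT : Transv J' X T)
    (u : Fin m → (𝓞 K)ˣ) (hu2 : ∀ z, (uu u z : 𝓞 K) - 1 ∈ J')
    (hu3 : ∀ v : (𝓞 K)ˣ, (v : 𝓞 K) - 1 ∈ J' → ∃! z : Fin m → ℤ, v = uu u z) :
    ∀ x ∈ X, ∃! q : (Fin m → ℤ) × T, x = (uu u q.1 : 𝓞 K) * q.2 := by
  intro x hx
  obtain ⟨r, hr, v, hv, hxv⟩ := hT.cover x hx
  obtain ⟨z, hz, hzu⟩ := hu3 v hv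
  refine ⟨(z, ⟨r, hr⟩), ?_, ?_⟩
  · simp only
    rw [← hz]
    exact hxv
  · rintro ⟨z', r'⟩ h'
    simp only at h'
    have e1 : (r' : 𝓞 K) = (((uu u z')⁻¹ * v : (𝓞 K)ˣ) : 𝓞 K) * r := by
      rw [Units.val_mul, mul_assoc, ← hxv, h', Units.inv_mul_cancel_left]
    have e2 : (((uu u z')⁻¹ * v : (𝓞 K)ˣ) : 𝓞 K) - 1 ∈ J' := by
      have e3 : (((uu u z')⁻¹ * v : (𝓞 K)ˣ) : 𝓞 K) - 1 =
          (((uu u z')⁻¹ : (𝓞 K)ˣ) : 𝓞 K) * (((v : 𝓞 K) - 1) - ((uu u z' : 𝓞 K) - 1)) := by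
        have e4 : (((uu u z')⁻¹ : (𝓞 K)ˣ) : 𝓞 K) * (uu u z' : 𝓞 K) = 1 := Units.inv_mul _
        rw [Units.val_mul]
        linear_combination e4
      rw [e3]
      exact J'.mul_mem_left _ (J'.sub_mem hv (hu2 z'))
    have e5 : (r' : 𝓞 K) = r := hT.uniq r hr r' r'.2 _ e2 e1
    have hr0 : r ≠ 0 := by
      rintro rfl
      exact h0 (hT.sub hr)
    have e6 : v = uu u z' := by
      apply Units.ext
      rw [e5, hxv] at h'
      exact mul_right_cancel₀ hr0 h'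
    have e7 : z' = z := hzu z' e6
    subst e7
    congr 1
    exact Subtype.ext e5

/-- The ideals J = M f and J' = p J. -/
theorem pc_J {p : ℕ} (hp : p.Prime) {M : Ideal (𝓞 F)} {l : 𝓞 F} (hM : Mod p M l)
    (f : Ideal (𝓞 K)) (hf : f ≠ ⊥) (J J' : Ideal (𝓞 K)) (hJ : J = mK K M * f)
    (hJ' : J' = Ideal.span {(p : 𝓞 K)} * J) :
    J ≠ ⊥ ∧ J' ≠ ⊥ ∧ J' ≤ J ∧ J ≤ mK K M ∧ J' ≤ Ideal.span {(p : 𝓞 K)} ∧
      J' ≤ Ideal.span {algebraMap (𝓞 F) (𝓞 K) l} ∧
      J' ≤ Ideal.span {(p : 𝓞 K) * algebraMap (𝓞 F) (𝓞 K) l} := by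
  have hp0 : (p : 𝓞 K) ≠ 0 := by exact_mod_cast hp.ne_zero
  have h1 : J ≠ ⊥ := by
    rw [hJ]
    exact mul_ne_zero (pc_mK_ne hM.ne) hf
  have h2 : J' ≠ ⊥ := by
    rw [hJ']
    exact mul_ne_zero (by simpa using hp0) h1
  have h3 : J' ≤ J := hJ' ▸ Ideal.mul_le_right
  have h4 : J ≤ mK K M := hJ ▸ Ideal.mul_le_left
  have h5 : J' ≤ Ideal.span {(p : 𝓞 K)} := hJ' ▸ Ideal.mul_le_left
  have h6 : J ≤ Ideal.span {algebraMap (𝓞 F) (𝓞 K) l} := h4.trans (pc_mK hM.le)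
  refine ⟨h1, h2, h3, h4, h5, h3.trans h6, ?_⟩
  rw [hJ', ← Ideal.span_singleton_mul_span_singleton]
  exact Ideal.mul_mono_right h6

/-! Chunk PCore (M), PORT of Lib/H55N/Z2.lean and Lib/H55N/Core.lean. J = mK K M * f, J' = (p) J. Units: units_basis with htf = torsion_free (J' <= (p), J' <= J <= mK K M <= (l); IsCoprime l p because M <= (l) is
coprime to p: Mod.cop). labels from labels_exist (J' <= (p l): J' = (p) J and J <= (l)). The set Bad: as there, and the c containing p (so p_i <> p). In the last step prime_change gives nu prime to p: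
V(nu) = 1 by val_nat. All valuation statements are at a fixed V (V(p) < 1, GoodV Ac Bc V). The exceptional set must not depend on V, Ac, Bc, Om. nopoles: as there with zfun_one of H55P/U7.lean. -/

theorem core (p : ℕ) (hp : p.Prime) {M : Ideal (𝓞 F)} {l : 𝓞 F} (hM : Mod p M l)
    (K : Type) [Field K] [NumberField K] [Algebra F K] (m : ℕ)
    (hm : Module.finrank F K = m + 1) (hK : UnrP p K) (b f : Ideal (𝓞 K)) (hb : b ≠ ⊥)
    (hbp : IsCoprime b (Ideal.span {(p : 𝓞 K)})) (hf : f ≠ ⊥)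
    (hfp : IsCoprime f (Ideal.span {(p : 𝓞 K)}))
    (c₀ : 𝓞 K) (hc : c₀ ∈ b) (hc' : c₀ ∉ Ideal.span {algebraMap (𝓞 F) (𝓞 K) l} * b) :
    ∃ Bad : Set (Ideal (𝓞 K)), Bad.Finite ∧
      ∀ (c : Fin (m + 1) × Fin 2 → Ideal (𝓞 K)) (q : Fin (m + 1) × Fin 2 → ℕ), Smooth c q →
        (∀ i, c i ∉ Bad) → ∃ Z : ℂ → ℂ, AnalyticOnNhd ℂ Z {s | 1 / 2 < s.re} ∧
          (∀ T : Set (𝓞 K), Transv (mK K M * f) (XS (mK K M * f * b) c₀) T →
            ∀ s : ℂ, 3 / 2 < s.re → HasSum (fun x : T => gw c q x * nf F s (x : 𝓞 K)) (Z s)) ∧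
          ∀ Ac Bc Om : ℂ, Per F Ac Bc Om → ∀ V : ValuationSubring ℂ, V.valuation (p : ℂ) < 1 →
            GoodV Ac Bc V → V.valuation (Z 1 / Om ^ (m + 1)) ≤ 1 := by
  classical
  obtain ⟨σ, hσ⟩ := emb_exists (F := F) K m hm
  set J : Ideal (𝓞 K) := mK K M * f with hJdef
  set J' : Ideal (𝓞 K) := Ideal.span {(p : 𝓞 K)} * J with hJ'def
  obtain ⟨hJ0, hJ'0, hJ'J, hJM, hJ'p, hJ'l, hJ'pl⟩ := pc_J hp hM f hf J J' hJdef hJ'def
  obtain ⟨u, hu1, hu2, hu3, hu4⟩ := units_basis hm J' hJ'0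
    (torsion_free p hp l hM.prime (pc_cop hM) J' hJ'p hJ'l)
  obtain ⟨L, hL⟩ := labels_exist hm p hp l hM.prime (pc_cop hM) b hb c₀ hc hc' u
    (fun z => hJ'pl (hu2 z))
  have hle : mK K M * f * b ≤ Ideal.span {algebraMap (𝓞 F) (𝓞 K) l} * b :=
    Ideal.mul_mono_left (hJM.trans (pc_mK hM.le))
  have hI0 : mK K M * f * b ≠ ⊥ := mul_ne_zero hJ0 hb
  have hdir := fun (q : (Fin m → Fin (m + 1)) × Equiv.Perm (Fin m)) =>
    directions hm (fun k : Fin (m + 1) => L (kv (fun k => ((q.1 k : ℕ) : ℤ)) q.2 k))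
      (labels_indep p hp l b c₀ u L hL _ _) (mK K M * f * b) hI0
  choose d hd1 hd2 hd3 using hdir
  have hp0 : (p : 𝓞 K) ≠ 0 := by exact_mod_cast hp.ne_zero
  refine ⟨(⋃ q : ((Fin m → Fin (m + 1)) × Equiv.Perm (Fin m)) × Fin (m + 1),
    {c : Ideal (𝓞 K) | d q.1 q.2 ∈ c}) ∪ {c : Ideal (𝓞 K) | (p : 𝓞 K) ∈ c}, ?_, ?_⟩
  · refine Set.Finite.union (Set.finite_iUnion fun q => finite_ideals _ (hd2 _ _)) ?_
    exact finite_ideals _ hp0
  intro c q hcq hbad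
  let D : Ctx F K m := ⟨σ, mK K M * f * b, c₀, c, q⟩
  have hD : D.Ok := ⟨hσ, fun h => hc' (hle h), hcq⟩
  have h0X : (0 : 𝓞 K) ∉ D.X := fun h => D.X_ne hD.ne h rfl
  have hp2 : ∀ i, D.p i ≠ p := by
    intro i hi
    apply hbad i
    right
    have h1 : ((Ideal.absNorm (c i) : ℕ) : 𝓞 K) ∈ c i := Ideal.absNorm_mem _
    rw [hcq.norm i] at h1
    have h2 : q i = p := hi
    rw [h2] at h1
    exact h1
  have hact : ∀ v : (𝓞 K)ˣ, (v : 𝓞 K) - 1 ∈ J → ((v : 𝓞 K) - 1) * D.c₀ ∈ D.I :=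
    fun v hv => Ideal.mul_mem_mul hv hc
  have hu : D.UOk u := ⟨fun j => hact _ (hJ'J (hu1 j)),
    fun j => norm_one D hσ hM (u j) (hJM (hJ'J (hu1 j))), delta_ne D hσ u hu4⟩
  have hlow := labels_low D hσ p M l hM.prime hM.le b f c₀ ⟨rfl, rfl⟩ u L hL
  have hdirs : ∀ (a : Fin m → Fin (m + 1)) (π : Equiv.Perm (Fin m)),
      ∃ w', D.Dirs (fun k : Fin (m + 1) => L (kv (fun k => ((a k : ℕ) : ℤ)) π k)) w' := by
    intro a π
    refine dirs_of D hD _ (d (a, π)) (hd1 (a, π)) ?_ (hd3 (a, π)) ?_ ?_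
      (labels_indep p hp l b c₀ u L hL _ _)
    · intro i j hj
      apply hbad i
      left
      exact Set.mem_iUnion.2 ⟨((a, π), j), hj⟩
    · intro x hx k
      obtain ⟨⟨y, hy⟩, -⟩ := hlow (kv (fun k => ((a k : ℕ) : ℤ)) π k) x hx
      exact ⟨_, hy⟩
    · intro x hx k
      exact (hlow (kv (fun k => ((a k : ℕ) : ℤ)) π k) x hx).2
  obtain ⟨w, hw⟩ := hdirs (fun _ => 0) 1
  obtain ⟨G, hG⟩ := gspec_exists D hD _ w hw
  obtain ⟨Z, hZ1, hZ2, hZ3⟩ := zfun D hD u hu _ w hw G hG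
  have hval := CN_value D hD u hu _ w hw G hG L hL.equi hdirs
  have hJ2 : IsCoprime J (Ideal.span {(p : 𝓞 K)}) := by
    rw [hJdef]
    exact IsCoprime.mul_left (pe9_cop hM.cop) hfp
  obtain ⟨ν, hν, hT⟩ := prime_change p hp hK J J' hJ0 hJ2 hJ'def D.X h0X (by
    intro v hv x hx
    have h1 : (v : 𝓞 K) * x - D.c₀ = ((v : 𝓞 K) - 1) * D.c₀ + v * (x - D.c₀) := by ring
    rw [D.mem_X, h1]
    exact D.I.add_mem (hact v hv) (D.I.mul_mem_left _ hx))
  refine ⟨fun s => Z s / ν, ?_, ?_, ?_⟩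
  · exact fun s hs => (hZ1 s hs).div_const
  · intro T hTT s hs
    obtain ⟨T', hT', hφ⟩ := hT T hTT
    refine hφ (fun x => gw c q x * nf F s x) (Z s) ?_ ?_
    · intro v hv x _
      rw [pc_gw, pc_nf hσ s v (norm_one D hσ hM v (hJM hv))]
    · exact hZ2 T' hT'.sub (pc_bij h0X hT' u hu2 hu3) s hs
  · intro Ac Bc Om hper V hVp hV
    have hint := pc_CN p hp hM hK D hD b f hbp hf hfp rfl hp2 u L hL hdirs Ac Bc Om hper V hVp hV
    have hZint : V.valuation (Z 1 / Om ^ (m + 1)) ≤ 1 := by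
      rcases le_total 0 (Delta (D.lm u)) with h | h
      · rw [hZ3, abs_of_nonneg h, ← hval]
        exact hint
      · rw [hZ3, abs_of_nonpos h]
        have : (m.factorial : ℂ) * ((-Delta (D.lm u) : ℝ) : ℂ) *
            (∫ z in Set.Icc (0 : Fin m → ℝ) 1, D.Bv w G (fun _ => tt (D.lm u) z)) / Om ^ (m + 1) =
            -(CN (m + 1) D.Jv (fun a => .A (L a)) / Om ^ (m + 1)) := by
          rw [hval]
          push_cast
          ring
        rw [this, Valuation.map_neg]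
        exact hint
    have : Z 1 / (ν : ℂ) / Om ^ (m + 1) = Z 1 / Om ^ (m + 1) / ν := by
      rw [div_right_comm]
    show V.valuation (Z 1 / (ν : ℂ) / Om ^ (m + 1)) ≤ 1
    rw [this, map_div₀, val_nat p hp V hVp ν hν, div_one]
    exact hZint

theorem nopoles (p : ℕ) (hp : p.Prime) {M : Ideal (𝓞 F)} {l : 𝓞 F} (hM : Mod p M l)
    (K : Type) [Field K] [NumberField K] [Algebra F K] (m : ℕ)
    (hm : Module.finrank F K = m + 1) (b f : Ideal (𝓞 K)) (hb : b ≠ ⊥)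
    (hf : f ≠ ⊥) (c₀ : 𝓞 K) (hc : c₀ ∈ b)
    (hc' : c₀ ∉ Ideal.span {algebraMap (𝓞 F) (𝓞 K) l} * b) :
    ∃ Z : ℂ → ℂ, AnalyticOnNhd ℂ Z {s | 3 / 2 - 1 / (2 * (m + 1)) < s.re} ∧
      ∀ T : Set (𝓞 K), Transv (mK K M * f) (XS (mK K M * f * b) c₀) T →
        ∀ s : ℂ, 3 / 2 < s.re → HasSum (fun x : T => nf F s (x : 𝓞 K)) (Z s) := by
  classical
  obtain ⟨σ, hσ⟩ := emb_exists (F := F) K m hm
  set J : Ideal (𝓞 K) := mK K M * f with hJdef
  set J' : Ideal (𝓞 K) := Ideal.span {(p : 𝓞 K)} * J with hJ'def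
  obtain ⟨hJ0, hJ'0, hJ'J, hJM, hJ'p, hJ'l, hJ'pl⟩ := pc_J hp hM f hf J J' hJdef hJ'def
  obtain ⟨u, hu1, hu2, hu3, hu4⟩ := units_basis hm J' hJ'0
    (torsion_free p hp l hM.prime (pc_cop hM) J' hJ'p hJ'l)
  have hle : mK K M * f * b ≤ Ideal.span {algebraMap (𝓞 F) (𝓞 K) l} * b :=
    Ideal.mul_mono_left (hJM.trans (pc_mK hM.le))
  let D : Ctx F K m := ⟨σ, mK K M * f * b, c₀, fun _ => ⊥, fun _ => 0⟩
  have hne : D.c₀ ∉ D.I := fun h => hc' (hle h)
  have h0X : (0 : 𝓞 K) ∉ D.X := fun h => D.X_ne hne h rfl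
  have hact : ∀ v : (𝓞 K)ˣ, (v : 𝓞 K) - 1 ∈ J → ((v : 𝓞 K) - 1) * D.c₀ ∈ D.I :=
    fun v hv => Ideal.mul_mem_mul hv hc
  have hu : D.UOk u := ⟨fun j => hact _ (hJ'J (hu1 j)),
    fun j => norm_one D hσ hM (u j) (hJM (hJ'J (hu1 j))), delta_ne D hσ u hu4⟩
  have hI0 : D.I ≠ ⊥ := mul_ne_zero hJ0 hb
  obtain ⟨Z, hZ1, hZ2⟩ := zfun_one D hσ hne hI0 u hu
  obtain ⟨ν, hν, hT⟩ := finite_change J J' hJ'0 hJ'J D.X h0X (by
    intro v hv x hx
    have h1 : (v : 𝓞 K) * x - D.c₀ = ((v : 𝓞 K) - 1) * D.c₀ + v * (x - D.c₀) := by ring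
    rw [D.mem_X, h1]
    exact D.I.add_mem (hact v hv) (D.I.mul_mem_left _ hx))
  refine ⟨fun s => Z s / ν, ?_, ?_⟩
  · exact fun s hs => (hZ1 s hs).div_const
  · intro T hTT s hs
    obtain ⟨T', hT', hφ⟩ := hT T hTT
    refine hφ (fun x => nf F s x) (Z s) ?_ ?_
    · intro v hv x _
      exact pc_nf hσ s v (norm_one D hσ hM v (hJM hv)) x
    · exact hZ2 T' hT'.sub (pc_bij h0X hT' u hu2 hu3) s hs

end H55P
end

-- from Lib.H55P.T8
section

open NumberField IsDedekindDomain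

namespace H55P

open H55N
open H55B (g)

section pt8

variable {K : Type} [Field K] [NumberField K]

theorem pt8_pow (v : H55R.Pl K) : ∃ q f : ℕ, q.Prime ∧ 0 < f ∧ Ideal.absNorm v.asIdeal = q ^ f ∧
    (q : 𝓞 K) ∈ v.asIdeal := by
  have hm : v.asIdeal.IsMaximal := v.isMaximal
  have h0 : Ideal.absNorm v.asIdeal ≠ 0 := fun h => v.ne_bot (Ideal.absNorm_eq_zero_iff.1 h)
  let _ : Field (𝓞 K ⧸ v.asIdeal) := Ideal.Quotient.field v.asIdeal
  have hfin : Finite (𝓞 K ⧸ v.asIdeal) := by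
    apply Nat.finite_of_card_ne_zero
    exact h0
  let _ : Fintype (𝓞 K ⧸ v.asIdeal) := Fintype.ofFinite _
  obtain ⟨q, hq⟩ := CharP.exists (𝓞 K ⧸ v.asIdeal)
  obtain ⟨n, hp, hc⟩ := FiniteField.card (𝓞 K ⧸ v.asIdeal) q
  refine ⟨q, n, hp, n.pos, ?_, ?_⟩
  · show Nat.card (𝓞 K ⧸ v.asIdeal) = _
    rw [Nat.card_eq_fintype_card, hc]
  · rw [← Ideal.Quotient.eq_zero_iff_mem, map_natCast]
    exact CharP.cast_eq_zero _ q

/-- The primes above a rational prime. -/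
theorem pt8_count (q : ℕ) (hq : q.Prime) (U : Finset (H55R.Pl K))
    (hU : ∀ v ∈ U, (q : 𝓞 K) ∈ v.asIdeal) (hU2 : ∀ v ∈ U, q ≤ Ideal.absNorm v.asIdeal) :
    U.card ≤ Module.finrank ℚ K := by
  classical
  have h1 : ∏ v ∈ U, v.asIdeal ∣ Ideal.span {(q : 𝓞 K)} := by
    apply Finset.prod_dvd_of_coprime
    · intro v _ w _ hvw
      refine Ideal.isCoprime_of_isMaximal ?_
      intro h
      exact hvw (HeightOneSpectrum.ext h)
    · intro v hv
      rw [Ideal.dvd_span_singleton]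
      exact hU v hv
  have h2 := map_dvd Ideal.absNorm h1
  rw [map_prod] at h2
  have h3 : Ideal.absNorm (Ideal.span {(q : 𝓞 K)}) = q ^ Module.finrank ℚ K := by
    rw [Ideal.absNorm_span_singleton]
    have h4 := Algebra.norm_algebraMap (S := 𝓞 K) (q : ℤ)
    rw [map_natCast, RingOfIntegers.rank] at h4
    rw [h4, Int.natAbs_pow, Int.natAbs_natCast]
  rw [h3] at h2
  have h5 : ∏ v ∈ U, q ≤ ∏ v ∈ U, Ideal.absNorm v.asIdeal := Finset.prod_le_prod' hU2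
  rw [Finset.prod_const] at h5
  have h6 := Nat.le_of_dvd (pow_pos hq.pos _) h2
  exact (Nat.pow_le_pow_iff_right hq.one_lt).1 (h5.trans h6)

theorem pt8_norm (q : ℕ) :
    Ideal.absNorm (Ideal.span {(q : 𝓞 K)}) = q ^ Module.finrank ℚ K := by
  rw [Ideal.absNorm_span_singleton]
  have h4 := Algebra.norm_algebraMap (S := 𝓞 K) (q : ℤ)
  rw [map_natCast, RingOfIntegers.rank] at h4
  rw [h4, Int.natAbs_pow, Int.natAbs_natCast]

theorem pt8_one_le (v : H55R.Pl K) : (1 : ℝ) ≤ (Ideal.absNorm v.asIdeal : ℝ) := by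
  have h0 : Ideal.absNorm v.asIdeal ≠ 0 := fun h => v.ne_bot (Ideal.absNorm_eq_zero_iff.1 h)
  exact_mod_cast Nat.one_le_iff_ne_zero.2 h0

theorem pt8_summable (s : ℝ) (hs : 1 < s) :
    Summable fun v : H55R.Pl K => (Ideal.absNorm v.asIdeal : ℝ) ^ (-s) :=
  (H55N.ideal_summable (K := K) s hs).comp_injective (i := fun v : H55R.Pl K => v.asIdeal)
    fun _ _ h => HeightOneSpectrum.ext h

theorem pt8_sum (S : Set (H55R.Pl K)) (s : ℝ) (hs : 1 < s) :
    Summable (S.indicator fun v : H55R.Pl K => (Ideal.absNorm v.asIdeal : ℝ) ^ (-s)) :=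
  (pt8_summable s hs).indicator S

theorem pt8_mono {S T : Set (H55R.Pl K)} (h : S ⊆ T) (s : ℝ) (hs : 1 < s) :
    H55R.PS S s ≤ H55R.PS T s := by
  unfold H55R.PS
  refine (pt8_sum S s hs).tsum_le_tsum (fun v => ?_) (pt8_sum T s hs)
  exact Set.indicator_le_indicator_of_subset h (fun v => by positivity) v

theorem pt8_nonneg (S : Set (H55R.Pl K)) (s : ℝ) : 0 ≤ H55R.PS S s := by
  unfold H55R.PS
  exact tsum_nonneg fun v => Set.indicator_nonneg (fun v _ => by positivity) v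

theorem pt8_union (S T : Set (H55R.Pl K)) (s : ℝ) (hs : 1 < s) :
    H55R.PS (S ∪ T) s ≤ H55R.PS S s + H55R.PS T s := by
  have h1 : H55R.PS (S ∪ T) s + H55R.PS (S ∩ T) s = H55R.PS S s + H55R.PS T s := by
    unfold H55R.PS
    rw [← (pt8_sum (S ∪ T) s hs).tsum_add (pt8_sum (S ∩ T) s hs),
      ← (pt8_sum S s hs).tsum_add (pt8_sum T s hs)]
    exact tsum_congr fun v => Set.indicator_union_add_inter_apply _ S T v
  have h2 := pt8_nonneg (S ∩ T) s
  linarith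

theorem pt8_fin {S : Set (H55R.Pl K)} (hS : S.Finite) (s : ℝ) (hs : 1 < s) :
    H55R.PS S s ≤ hS.toFinset.card := by
  unfold H55R.PS
  rw [tsum_eq_sum (s := hS.toFinset) fun v hv => by
    rw [Set.indicator_of_notMem]
    exact fun h => hv (hS.mem_toFinset.2 h)]
  have h1 : ∀ v ∈ hS.toFinset, S.indicator (fun v : H55R.Pl K => (Ideal.absNorm v.asIdeal : ℝ) ^ (-s)) v ≤
      1 := by
    intro v hv
    rw [Set.indicator_of_mem (hS.mem_toFinset.1 hv)]
    apply Real.rpow_le_one_of_one_le_of_nonpos (pt8_one_le v)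
    linarith
  calc _ ≤ ∑ v ∈ hS.toFinset, (1 : ℝ) := Finset.sum_le_sum h1
    _ = _ := by simp

/-- The primes whose norm is not a prime number. -/
theorem pt8_np : ∃ C : ℝ, ∀ s : ℝ, 1 < s →
    H55R.PS {v : H55R.Pl K | ¬ (Ideal.absNorm v.asIdeal).Prime} s ≤ C := by
  classical
  have hz : Summable fun q : ℕ => (Module.finrank ℚ K : ℝ) * ((q : ℝ) ^ 2)⁻¹ :=
    (Real.summable_nat_pow_inv.2 one_lt_two).mul_left _
  refine ⟨∑' q : ℕ, (Module.finrank ℚ K : ℝ) * ((q : ℝ) ^ 2)⁻¹, fun s hs => ?_⟩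
  unfold H55R.PS
  refine (pt8_sum _ s hs).tsum_le_of_sum_le fun U => ?_
  choose q f hq hf hn hm using fun v : H55R.Pl K => pt8_pow v
  have h1 : ∑ v ∈ U, ({v : H55R.Pl K | ¬ (Ideal.absNorm v.asIdeal).Prime}.indicator
      (fun v => (Ideal.absNorm v.asIdeal : ℝ) ^ (-s))) v =
      ∑ r ∈ U.image q, ∑ v ∈ U with q v = r, ({v : H55R.Pl K | ¬ (Ideal.absNorm v.asIdeal).Prime}.indicator
      (fun v => (Ideal.absNorm v.asIdeal : ℝ) ^ (-s))) v := by
    rw [Finset.sum_fiberwise_of_maps_to]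
    intro v hv
    exact Finset.mem_image_of_mem q hv
  rw [h1]
  have h2 : ∀ v : H55R.Pl K, ({v : H55R.Pl K | ¬ (Ideal.absNorm v.asIdeal).Prime}.indicator
      (fun v => (Ideal.absNorm v.asIdeal : ℝ) ^ (-s))) v ≤ ((q v : ℝ) ^ 2)⁻¹ := by
    intro v
    by_cases hv : (Ideal.absNorm v.asIdeal).Prime
    · rw [Set.indicator_of_notMem (show v ∉ {v : H55R.Pl K | ¬ (Ideal.absNorm v.asIdeal).Prime} from
        fun h => h hv)]
      positivity
    · rw [Set.indicator_of_mem (show v ∈ {v : H55R.Pl K | ¬ (Ideal.absNorm v.asIdeal).Prime} from hv)]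
      have h3 : 2 ≤ f v := by
        by_contra h4
        have h5 : f v = 1 := by
          have := hf v
          omega
        apply hv
        rw [hn v, h5, pow_one]
        exact hq v
      have h6 : (Ideal.absNorm v.asIdeal : ℝ) ^ (-s) ≤ (Ideal.absNorm v.asIdeal : ℝ) ^ (-(1 : ℝ)) :=
        Real.rpow_le_rpow_of_exponent_le (pt8_one_le v) (by linarith)
      refine h6.trans ?_
      rw [Real.rpow_neg_one, hn v]
      have hq1 : (1 : ℝ) ≤ (q v : ℝ) := by exact_mod_cast (hq v).one_lt.le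
      push_cast
      apply inv_anti₀ (by positivity)
      exact pow_le_pow_right₀ hq1 h3
  have h3 : ∀ r ∈ U.image q, ∑ v ∈ U with q v = r, ({v : H55R.Pl K | ¬ (Ideal.absNorm v.asIdeal).Prime}.indicator
      (fun v => (Ideal.absNorm v.asIdeal : ℝ) ^ (-s))) v ≤ (Module.finrank ℚ K : ℝ) * ((r : ℝ) ^ 2)⁻¹ := by
    intro r hr
    obtain ⟨v₀, -, hv₀⟩ := Finset.mem_image.1 hr
    have hrp : r.Prime := hv₀ ▸ hq v₀
    have h4 : ∀ v ∈ U.filter (fun v => q v = r), ({v : H55R.Pl K | ¬ (Ideal.absNorm v.asIdeal).Prime}.indicator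
      (fun v => (Ideal.absNorm v.asIdeal : ℝ) ^ (-s))) v ≤ ((r : ℝ) ^ 2)⁻¹ := by
      intro v hv
      have h5 := h2 v
      rw [(Finset.mem_filter.1 hv).2] at h5
      exact h5
    refine (Finset.sum_le_sum h4).trans ?_
    rw [Finset.sum_const, nsmul_eq_mul]
    refine mul_le_mul_of_nonneg_right ?_ (by positivity)
    have h6 : (U.filter (fun v => q v = r)).card ≤ Module.finrank ℚ K := by
      apply pt8_count r hrp
      · intro v hv
        have h7 := hm v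
        rw [(Finset.mem_filter.1 hv).2] at h7
        exact h7
      · intro v hv
        have h7 := hn v
        rw [(Finset.mem_filter.1 hv).2] at h7
        rw [h7]
        exact Nat.le_self_pow (hf v).ne' r
    exact_mod_cast h6
  refine (Finset.sum_le_sum h3).trans ?_
  exact hz.sum_le_tsum _ fun r _ => by positivity

theorem pt8_finnorm (S : Set ℕ) (hS : S.Finite) :
    {v : H55R.Pl K | Ideal.absNorm v.asIdeal ∈ S}.Finite := by
  have h1 : {v : H55R.Pl K | Ideal.absNorm v.asIdeal ∈ S} ⊆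
      (fun v : H55R.Pl K => v.asIdeal) ⁻¹' (⋃ n ∈ S, {I : Ideal (𝓞 K) | Ideal.absNorm I = n}) := by
    intro v hv
    simp only [Set.mem_preimage, Set.mem_iUnion, Set.mem_ofPred_eq]
    exact ⟨_, hv, rfl⟩
  refine Set.Finite.subset (Set.Finite.preimage (fun v _ w _ h => HeightOneSpectrum.ext h) ?_) h1
  refine hS.biUnion fun n hn => ?_
  exact Ideal.finite_setOfPred_absNorm_eq n

end pt8

variable {F : Type} [Field F] [NumberField F] [IQ F] {K : Type} [Field K] [NumberField K]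
  [Algebra F K] {m : ℕ}

theorem pt8_log : ∃ C : ℝ, ∀ s ∈ Set.Ioc (1 : ℝ) 2,
    Real.log (1 / (s - 1)) - C ≤ H55R.PS (Set.univ : Set (H55R.Pl K)) s := by
  obtain ⟨C, hC⟩ := H55R.density_split K K
  refine ⟨C, fun s hs => ?_⟩
  have h1 := (abs_le.1 (hC s hs)).1
  rw [Module.finrank_self, Nat.cast_one, div_one, one_mul] at h1
  have h2 := pt8_mono (Set.subset_univ {v : H55R.Pl K | H55R.Spl K K v}) s hs.1
  linarith

theorem pt8_lim {a b D : ℝ}
    (h : ∀ s ∈ Set.Ioc (1 : ℝ) 2, a * Real.log (1 / (s - 1)) ≤ b * Real.log (1 / (s - 1)) + D) :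
    a ≤ b := by
  by_contra hab
  push Not at hab
  set T : ℝ := max 0 (D / (a - b)) + 1 with hT
  have hT1 : 0 < T := by
    have := le_max_left 0 (D / (a - b))
    linarith
  have hab' : 0 < a - b := by linarith
  have hT2 : D < (a - b) * T := by
    have h1 := le_max_right 0 (D / (a - b))
    have h2 : D / (a - b) < T := by linarith
    rw [div_lt_iff₀ hab'] at h2
    linarith
  have h3 := h (1 + Real.exp (-T)) ⟨by linarith [Real.exp_pos (-T)], by
    have := Real.exp_le_one_iff.2 (by linarith : -T ≤ 0)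
    linarith⟩
  rw [add_sub_cancel_left, one_div, ← Real.exp_neg, neg_neg, Real.log_exp] at h3
  linarith

include F in
theorem pt8_infinite (f : Ideal (𝓞 K)) (hf : f ≠ ⊥) (hf' : f ≠ ⊤) (φ : H55R.Pl K → ℂˣ)
    (hφ : φ ∈ H55R.RC f) (h1 : φ ≠ 1) (hfo : IsOfFinOrder φ) (Bad : Set (Ideal (𝓞 K)))
    (hB : Bad.Finite) :
    {q : ℕ | q.Prime ∧ ∃ w : H55R.Pl K, w.asIdeal ∉ Bad ∧ Ideal.absNorm w.asIdeal = q ∧
      ¬ f ≤ w.asIdeal ∧ φ w ≠ 1}.Infinite := by
  classical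
  intro hfin
  have hYf : Finite (Subgroup.zpowers φ) := (finite_zpowers.2 hfo).to_subtype
  have hY : Subgroup.zpowers φ ≤ H55R.RC f := by
    rw [Subgroup.zpowers_le]
    exact hφ
  obtain ⟨C₁, hC₁⟩ := density_kerF F f hf hf' (Subgroup.zpowers φ) hY
  obtain ⟨C₂, hC₂⟩ := pt8_log (K := K)
  obtain ⟨C₃, hC₃⟩ := pt8_np (K := K)
  have hcard : 2 ≤ Nat.card (Subgroup.zpowers φ) := by
    rw [Nat.card_zpowers]
    have e1 : 0 < orderOf φ := orderOf_pos_iff.2 hfo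
    have e2 : orderOf φ ≠ 1 := fun h => h1 (orderOf_eq_one_iff.1 h)
    omega
  have hfF : {v : H55R.Pl K | f ≤ v.asIdeal}.Finite :=
    (Ideal.finite_factors hf).subset fun v hv => Ideal.dvd_iff_le.2 hv
  have hBF : {v : H55R.Pl K | v.asIdeal ∈ Bad}.Finite :=
    Set.Finite.preimage (fun v _ w _ h => HeightOneSpectrum.ext h) hB
  have hSF := pt8_finnorm (K := K) _ hfin
  have hF := (hfF.union hBF).union hSF
  have hcov : (Set.univ : Set (H55R.Pl K)) ⊆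
      ({v : H55R.Pl K | ¬ f ≤ v.asIdeal ∧ ∀ χ ∈ Subgroup.zpowers φ, χ v = 1} ∪
        {v : H55R.Pl K | ¬ (Ideal.absNorm v.asIdeal).Prime}) ∪
      (({v : H55R.Pl K | f ≤ v.asIdeal} ∪ {v : H55R.Pl K | v.asIdeal ∈ Bad}) ∪
        {v : H55R.Pl K | Ideal.absNorm v.asIdeal ∈ {q : ℕ | q.Prime ∧ ∃ w : H55R.Pl K,
          w.asIdeal ∉ Bad ∧ Ideal.absNorm w.asIdeal = q ∧ ¬ f ≤ w.asIdeal ∧ φ w ≠ 1}}) := by
    intro v _
    by_cases hv1 : (Ideal.absNorm v.asIdeal).Prime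
    swap
    · exact Or.inl (Or.inr hv1)
    by_cases hv2 : f ≤ v.asIdeal
    · exact Or.inr (Or.inl (Or.inl hv2))
    by_cases hv3 : v.asIdeal ∈ Bad
    · exact Or.inr (Or.inl (Or.inr hv3))
    by_cases hv4 : φ v = 1
    · refine Or.inl (Or.inl ⟨hv2, fun χ hχ => ?_⟩)
      obtain ⟨k, rfl⟩ := Subgroup.mem_zpowers_iff.1 hχ
      rw [Pi.pow_apply, hv4, one_zpow]
    · exact Or.inr (Or.inr ⟨hv1, v, hv3, rfl, hv2, hv4⟩)
  have hle : (1 : ℝ) ≤ 1 / Nat.card (Subgroup.zpowers φ) := by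
    refine pt8_lim (D := C₁ + C₂ + C₃ + hF.toFinset.card) fun s hs => ?_
    have e1 := hC₁ s hs
    have e2 := hC₂ s hs
    have e3 := hC₃ s hs.1
    have e4 := pt8_mono hcov s hs.1
    have e5 := pt8_union ({v : H55R.Pl K | ¬ f ≤ v.asIdeal ∧ ∀ χ ∈ Subgroup.zpowers φ, χ v = 1} ∪
        {v : H55R.Pl K | ¬ (Ideal.absNorm v.asIdeal).Prime})
      (({v : H55R.Pl K | f ≤ v.asIdeal} ∪ {v : H55R.Pl K | v.asIdeal ∈ Bad}) ∪
        {v : H55R.Pl K | Ideal.absNorm v.asIdeal ∈ {q : ℕ | q.Prime ∧ ∃ w : H55R.Pl K,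
          w.asIdeal ∉ Bad ∧ Ideal.absNorm w.asIdeal = q ∧ ¬ f ≤ w.asIdeal ∧ φ w ≠ 1}}) s hs.1
    have e6 := pt8_union {v : H55R.Pl K | ¬ f ≤ v.asIdeal ∧ ∀ χ ∈ Subgroup.zpowers φ, χ v = 1}
        {v : H55R.Pl K | ¬ (Ideal.absNorm v.asIdeal).Prime} s hs.1
    have e7 := pt8_fin hF s hs.1
    linarith
  have hc2 : (2 : ℝ) ≤ Nat.card (Subgroup.zpowers φ) := by exact_mod_cast hcard
  rw [le_div_iff₀ (by linarith)] at hle
  linarith

/-! Chunk PT8 (M). Smoothing primes.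
PROOF. g = span {p} * mK K M, φ from exists_theta, Y = Subgroup.zpowers φ (finite, card >= 2, <= RC g). density_kerF: the primes v with not g <= v and φ v = 1 (all of Y is 1 iff φ v = 1) have PS <= (1/2) log(1/(s-1)) + C on (1,2]. The sum over all primes of
Nv^(-s) is >= log(1/(s-1)) - C' (density_split K K, or zeta_log and log_cmp with the trivial character). The primes whose norm is not a prime number: over each rational prime there are at most n = [K:ℚ] primes, and Nv >= p^2 for these, so the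
sum of Nv^(-s) over them is at most n * sum p^(-2) < infinity (or: Nv = q^f, f >= 2; Summable over Nat of n^(-2) with fibres at most ..., e.g. from D5_card_le with base field ℚ (D5_T (L := K) for primes of ℚ), or number of ideals of prime power norm). The
primes in a finite set or containing g (finitely many) contribute at most a constant. Suppose that only finitely many rational primes q are norms of primes w not in Bad with φ w <> 1, not g <= w. Then all primes outside a set of bounded PS have φ = 1, so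
log(1/(s-1)) <= (1/2) log(1/(s-1)) + const on (1,2], contradiction as s -> 1 (X10_lim in H55R/X10.lean). So the set of such q is infinite; conclude as in exists_smooth of Lib/H55N/S4.lean. -/

theorem exists_smoothP (p : ℕ) (hp : p.Prime) {M : Ideal (𝓞 F)} {ψ : Ideal (𝓞 F) →*₀ 𝓞 F}
    (h : IsHecke M ψ) (hMp : IsCoprime M (Ideal.span {(p : 𝓞 F)})) (V : ValuationSubring ℂ)
    (hV : V.valuation (p : ℂ) < 1) (hNT : NTP K p M ψ V) (m : ℕ) (Bad : Set (Ideal (𝓞 K)))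
    (hB : Bad.Finite) :
    ∃ (c : Fin (m + 1) × Fin 2 → Ideal (𝓞 K)) (q : Fin (m + 1) × Fin 2 → ℕ), Smooth c q ∧
      (∀ i, (c i).IsPrime ∧ c i ∉ Bad) ∧ ∀ i, V.valuation (1 - PsiP K ψ (c i)) = 1 := by
  classical
  obtain ⟨φ, hφ, hφ1, hfo, hval⟩ := exists_theta p hp h hMp V hV hNT
  have hpK : (p : 𝓞 K) ≠ 0 := by
    exact_mod_cast hp.ne_zero
  have hf : Ideal.span {(p : 𝓞 K)} * mK K M ≠ ⊥ := by
    apply mul_ne_zero
    · rw [Ne, Ideal.zero_eq_bot, Ideal.span_singleton_eq_bot]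
      exact hpK
    · intro h0
      apply h.ne
      exact (Ideal.map_eq_bot_iff_of_injective (FaithfulSMul.algebraMap_injective (𝓞 F) (𝓞 K))).1 h0
  have hf' : Ideal.span {(p : 𝓞 K)} * mK K M ≠ ⊤ := by
    intro h0
    have h01 : Ideal.span {(p : 𝓞 K)} * mK K M ≤ Ideal.span {(p : 𝓞 K)} := Ideal.mul_le_left
    rw [h0] at h01
    have h1 : Ideal.span {(p : 𝓞 K)} = ⊤ := top_le_iff.1 h01
    have h2 := pt8_norm (K := K) p
    rw [h1, Ideal.absNorm_top] at h2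
    have h3 : 1 < p ^ Module.finrank ℚ K := Nat.one_lt_pow Module.finrank_pos.ne' hp.one_lt
    omega
  have hS := pt8_infinite (F := F) _ hf hf' φ hφ hφ1 hfo Bad hB
  set S := {q : ℕ | q.Prime ∧ ∃ w : H55R.Pl K, w.asIdeal ∉ Bad ∧ Ideal.absNorm w.asIdeal = q ∧
      ¬ Ideal.span {(p : 𝓞 K)} * mK K M ≤ w.asIdeal ∧ φ w ≠ 1} with hSdef
  let f : Fin (m + 1) × Fin 2 → ℕ := fun i => (hS.natEmbedding S (Encodable.encode i) : ℕ)
  have hfi : Function.Injective f := by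
    intro i j hij
    exact Encodable.encode_injective ((hS.natEmbedding S).injective (Subtype.ext hij))
  have hfS : ∀ i, f i ∈ S := fun i => (hS.natEmbedding S (Encodable.encode i)).2
  choose hp w hwB hwn hw1 hw2 using hfS
  exact ⟨fun i => (w i).asIdeal, f, ⟨hwn, hp, hfi⟩, fun i => ⟨(w i).isPrime, hwB i⟩,
    fun i => hval (w i) (hw1 i) (hw2 i)⟩

end H55P
end

-- from Lib.H55P.T9
section

open NumberField IsDedekindDomain

namespace H55P

open H55N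
open H55B (g)

variable {F : Type} [Field F] [NumberField F] [IQ F] {K : Type} [Field K] [NumberField K]
  [Algebra F K] {m : ℕ}

/-! Chunk PT9 (M/L). The twisted L-value; PORT of LV_twist in Lib/H55N/TWF.lean (see also LVT_twist in Lib/H19T/TWF.lean) at a fixed V. Data: l from IsHecke.toMod; J = mK K M * f, g = span {p} * J, exists_CDJ J g (J <> top because M <> top: mK K M <> top since relNorm / a prime above);
hlam: c₀ i is not in span {l} * b i: there is a prime w of K containing l, mK K M * f <= mK K M <= (l) <= w, hprim. core and nopoles of H55P/Core.lean, exists_smoothP, exists_kappaP, series_eqP twice, series_eq0P, glue, ident (H55N/TW1.lean), one_sumP, P_neP, factorP, EfacP.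
The comparison at s = 1: κ i = κ' i + κ' i (ζ i - 1), V(ζ i - 1) < 1 (root_max), V(Z i 1 / Om^n) <= 1 from core, V(absNorm) <= 1. The sum for κ' is a unit at V by (one_sumP, ident): smoothing factors (factorP) times Euler factors (EfacP: primes w containing f are prime to p: hχ.cop) times
Λ(1)/Om^n. -/

theorem pt9_above (K : Type) [Field K] [NumberField K] [Algebra F K]
    (v : HeightOneSpectrum (𝓞 F)) :
    ∃ w : HeightOneSpectrum (𝓞 K), v.asIdeal = w.asIdeal.comap (algebraMap (𝓞 F) (𝓞 K)) := by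
  have hint : Algebra.IsIntegral (𝓞 F) (𝓞 K) := inferInstance
  have hinj : Function.Injective (algebraMap (𝓞 F) (𝓞 K)) := FaithfulSMul.algebraMap_injective _ _
  have := v.isPrime
  obtain ⟨Q, hQ, hQv⟩ := Ideal.exists_ideal_over_prime_of_isIntegral_of_isDomain
    (S := 𝓞 K) v.asIdeal (by
      rw [(RingHom.injective_iff_ker_eq_bot _).1 hinj]
      exact bot_le)
  have hQb : Q ≠ ⊥ := by
    rintro rfl
    apply v.ne_bot
    rw [← hQv, ← RingHom.ker_eq_comap_bot]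
    exact (RingHom.injective_iff_ker_eq_bot _).1 hinj
  exact ⟨⟨Q, hQ, hQb⟩, hQv.symm⟩

theorem pt9_prime (K : Type) [Field K] [NumberField K] [Algebra F K] {p : ℕ} {M : Ideal (𝓞 F)}
    {l : 𝓞 F} (hl : Mod p M l) : ∃ w : HeightOneSpectrum (𝓞 K),
      algebraMap (𝓞 F) (𝓞 K) l ∈ w.asIdeal ∧ mK K M ≤ w.asIdeal := by
  let v : HeightOneSpectrum (𝓞 F) := ⟨Ideal.span {l},
    (Ideal.span_singleton_prime hl.prime.ne_zero).2 hl.prime, by simpa using hl.prime.ne_zero⟩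
  obtain ⟨w, hw⟩ := pt9_above K v
  refine ⟨w, ?_, ?_⟩
  · have h2 : l ∈ v.asIdeal := Ideal.mem_span_singleton_self _
    rw [hw] at h2
    exact h2
  · unfold mK
    rw [Ideal.map_le_iff_le_comap, ← hw]
    exact hl.le

theorem pt9_mK_ne {M : Ideal (𝓞 F)} (hM : M ≠ ⊥) : mK K M ≠ ⊥ := by
  have hinj : Function.Injective (algebraMap (𝓞 F) (𝓞 K)) := FaithfulSMul.algebraMap_injective _ _
  unfold mK
  rw [Ne, Ideal.map_eq_bot_iff_of_injective hinj]
  exact hM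

theorem pt9_finite (b : Ideal (𝓞 K)) (hb : b ≠ ⊥) : {w : Ideal (𝓞 K) | b ≤ w}.Finite := by
  refine (Ideal.finite_setOfPred_absNorm_le (S := 𝓞 K) (Ideal.absNorm b)).subset ?_
  intro w hw
  have h1 : w ∣ b := Ideal.dvd_iff_le.2 hw
  have h2 : Ideal.absNorm w ∣ Ideal.absNorm b := map_dvd _ h1
  refine Nat.le_of_dvd (Nat.pos_of_ne_zero ?_) h2
  rw [Ne, Ideal.absNorm_eq_zero_iff]
  exact hb

theorem pt9_nat (V : ValuationSubring ℂ) (n : ℕ) : V.valuation (n : ℂ) ≤ 1 :=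
  (V.valuation_le_one_iff _).2 (natCast_mem V n)

theorem LVP_twist (p : ℕ) (hp : p.Prime) {M : Ideal (𝓞 F)} {ψ : Ideal (𝓞 F) →*₀ 𝓞 F}
    (h : IsHecke M ψ) (hMp : IsCoprime M (Ideal.span {(p : 𝓞 F)})) (hK : UnrP p K)
    (Ac Bc Om : ℂ) (hper : Per F Ac Bc Om) (V : ValuationSubring ℂ)
    (hV : V.valuation (p : ℂ) < 1) (hg : GoodV Ac Bc V) (hNT : NTP K p M ψ V) (f : Ideal (𝓞 K))
    (χ : Ideal (𝓞 K) →*₀ ℂ) (hχ : PChr p f χ)
    (hf : ∀ w : HeightOneSpectrum (𝓞 K), f ≤ w.asIdeal →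
      V.valuation (1 - (starRingEnd ℂ) (PsiP K ψ w.asIdeal)) = 1)
    (hL : LVP F V Om (PsiP K ψ)) : LVP F V Om (PsiP K ψ * χ : Ideal (𝓞 K) →*₀ ℂ) := by
  classical
  obtain ⟨l, hl⟩ := h.toMod p hMp
  obtain ⟨w0, hw0l, hw0M⟩ := pt9_prime K hl
  obtain ⟨m, hm⟩ : ∃ m, Module.finrank F K = m + 1 :=
    ⟨Module.finrank F K - 1, (Nat.sub_add_cancel Module.finrank_pos).symm⟩
  have hJM : mK K M * f ≤ mK K M := Ideal.mul_le_left
  have hJ0 : mK K M * f ≠ ⊥ := mul_ne_zero (pt9_mK_ne h.ne) hχ.ne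
  have hJ1 : mK K M * f ≠ ⊤ := by
    intro h1
    apply w0.isPrime.ne_top
    rw [← top_le_iff, ← h1]
    exact hJM.trans hw0M
  have hg0 : Ideal.span {(p : 𝓞 K)} * (mK K M * f) ≠ ⊥ := by
    refine mul_ne_zero ?_ hJ0
    have h1 : Ideal.span {(p : 𝓞 K)} ≠ ⊥ := by
      rw [Ne, Ideal.span_singleton_eq_bot, Nat.cast_eq_zero]
      exact hp.ne_zero
    exact h1
  have hgJ : Ideal.span {(p : 𝓞 K)} * (mK K M * f) ≤ mK K M * f := Ideal.mul_le_right
  obtain ⟨ι, hι, b, c₀, T, hcd⟩ := exists_CDJ (mK K M * f) (Ideal.span {(p : 𝓞 K)} * (mK K M * f))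
    hJ0 hg0 hgJ hJ1
  have hbp : ∀ i, IsCoprime (b i) (Ideal.span {(p : 𝓞 K)}) := fun i =>
    (hcd.cop i).of_mul_right_left
  have hlam : ∀ i, c₀ i ∉ Ideal.span {algebraMap (𝓞 F) (𝓞 K) l} * b i := by
    intro i hi
    refine hcd.prim i w0 (hJM.trans hw0M) (Ideal.mul_mono_left ?_ hi)
    rw [Ideal.span_singleton_le_iff_mem]
    exact hw0l
  have hcore := fun i => core p hp hl K m hm hK (b i) f (hcd.ne i) (hbp i) hχ.ne hχ.cop (c₀ i)
    (hcd.mem i) (hlam i)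
  choose Bad hBad hcore using hcore
  have hnop := fun i => nopoles p hp hl K m hm (b i) f (hcd.ne i) hχ.ne (c₀ i) (hcd.mem i) (hlam i)
  choose Z0 hZ0 hZ0s using hnop
  obtain ⟨c, q, hs, hcb, hun⟩ := exists_smoothP p hp h hMp V hV hNT m
    ((⋃ i, Bad i) ∪ ⋃ i, {w : Ideal (𝓞 K) | b i ≤ w})
    ((Set.finite_iUnion hBad).union (Set.finite_iUnion fun i => pt9_finite (b i) (hcd.ne i)))
  have hcp : ∀ j, (c j).IsPrime := fun j => (hcb j).1
  have hbc : ∀ i j, IsCoprime (b i) (c j) := by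
    intro i j
    rw [Ideal.isCoprime_iff_sup_eq]
    by_contra h
    have hmax : (c j).IsMaximal := (hcp j).isMaximal (pt3_ne hs j)
    have h1 : c j ≤ b i ⊔ c j := le_sup_right
    have h2 : b i ⊔ c j = c j := (hmax.eq_of_le h h1).symm
    apply (hcb j).2
    refine Or.inr (Set.mem_iUnion.2 ⟨i, ?_⟩)
    show b i ≤ c j
    rw [← h2]
    exact le_sup_left
  have hZex := fun i => hcore i c q hs (fun j hj => (hcb j).2 (Or.inl (Set.mem_iUnion.2 ⟨i, hj⟩)))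
  choose Z hZa hZs hZi using hZex
  have hkap := fun i => exists_kappaP p hp h hMp f χ hχ (b i) (hcd.ne i) (hcd.cop i) (c₀ i)
    (hcd.mem i) (hcd.prim i)
  choose κ κ' ζ hκu hζ hκζ hκ using hkap
  have hC : CoefP F (mK K M * f) ι b c₀ (PsiP K ψ * χ) κ := coef_mulP h hχ.zero
    (fun a => hχ.norm_le hp.ne_zero a)
    (fun i x hx a ha => ⟨(hκ i x hx a ha).1, (hκ i x hx a ha).2.1⟩)
  have hC' : CoefP F (mK K M * f) ι b c₀ (PsiP K ψ * oneI f) κ' := coef_mulP h (pt3_oneI_zero f)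
    (pt3_oneI_norm_le f)
    (fun i x hx a ha => ⟨(hκ i x hx a ha).1, (hκ i x hx a ha).2.2⟩)
  have hNb : ∀ i, Ideal.absNorm (b i) ≠ 0 := fun i => by
    rw [Ne, Ideal.absNorm_eq_zero_iff]
    exact hcd.ne i
  -- the smoothed functions
  have hZsum : ∀ i s, 3 / 2 < s.re → HasSum (fun x : T i => gw c q x * nf F s (x : 𝓞 K)) (Z i s) :=
    fun i s hs' => hZs i (T i) (hcd.trans i) s hs'
  have e1 : ∀ s : ℂ, 3 / 2 < s.re →
      (∏ j, (1 - (q j : ℂ) * tm (PsiP K ψ * χ : Ideal (𝓞 K) →*₀ ℂ) s (c j))) *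
      ∑' a, tm (PsiP K ψ * χ : Ideal (𝓞 K) →*₀ ℂ) s a =
        ∑ i, κ i * (Ideal.absNorm (b i) : ℂ) ^ s * Z i s :=
    fun s hs' => series_eqP hgJ hJ1 hcd hC hs hcp hbc Z s hs' fun i => hZsum i s hs'
  have e2 : ∀ s : ℂ, 3 / 2 < s.re →
      (∏ j, (1 - (q j : ℂ) * tm (PsiP K ψ * oneI f : Ideal (𝓞 K) →*₀ ℂ) s (c j))) *
      ∑' a, tm (PsiP K ψ * oneI f : Ideal (𝓞 K) →*₀ ℂ) s a =
        ∑ i, κ' i * (Ideal.absNorm (b i) : ℂ) ^ s * Z i s :=
    fun s hs' => series_eqP hgJ hJ1 hcd hC' hs hcp hbc Z s hs' fun i => hZsum i s hs'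
  have e3 : ∀ s : ℂ, 3 / 2 < s.re → HasSum (tm (PsiP K ψ * χ : Ideal (𝓞 K) →*₀ ℂ) s)
      (∑ i, κ i * (Ideal.absNorm (b i) : ℂ) ^ s * Z0 i s) :=
    fun s hs' => series_eq0P hgJ hJ1 hcd hC Z0 s fun i => hZ0s i (T i) (hcd.trans i) s hs'
  have hGa : ∀ κ : ι → ℂ, AnalyticOnNhd ℂ
      (fun s : ℂ => ∑ i, κ i * (Ideal.absNorm (b i) : ℂ) ^ s * Z i s) {s | 1 / 2 < s.re} := by
    intro κ s hs'
    exact Finset.analyticAt_fun_sum _ fun i _ =>
      (analyticAt_const.mul (pt3_pow_analytic _ (hNb i) Set.univ s trivial)).mul (hZa i s hs')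
  have hZ0a : AnalyticOnNhd ℂ
      (fun s : ℂ => ∑ i, κ i * (Ideal.absNorm (b i) : ℂ) ^ s * Z0 i s)
      {s | 3 / 2 - 1 / (2 * (m + 1 : ℝ)) < s.re} := by
    intro s hs'
    exact Finset.analyticAt_fun_sum _ fun i _ =>
      (analyticAt_const.mul (pt3_pow_analytic _ (hNb i) Set.univ s trivial)).mul (hZ0 i s hs')
  have hPa : ∀ h : Ideal (𝓞 K) →*₀ ℂ, AnalyticOnNhd ℂ
      (fun s : ℂ => ∏ j, (1 - (q j : ℂ) * tm h s (c j))) {s | 1 / 2 < s.re} := by
    intro h s hs'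
    exact Finset.analyticAt_fun_prod _ fun j _ =>
      (analyticAt_const.sub (analyticAt_const.mul
        (pt3_tm_analytic h (c j) (pt3_ne hs j) Set.univ s trivial)))
  obtain ⟨Λ, hΛa, hΛ, hΛG⟩ := glue (1 / (2 * (m + 1 : ℝ))) (by positivity)
    (fun s : ℂ => ∑ i, κ i * (Ideal.absNorm (b i) : ℂ) ^ s * Z i s)
    (fun s : ℂ => ∑ i, κ i * (Ideal.absNorm (b i) : ℂ) ^ s * Z0 i s)
    (fun s : ℂ => ∏ j, (1 - (q j : ℂ) * tm (PsiP K ψ * χ : Ideal (𝓞 K) →*₀ ℂ) s (c j)))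
    (hGa κ) hZ0a (hPa _)
    (fun s hs' => Finset.prod_ne_zero_iff.2 fun j _ => P_neP h p hp f χ hχ (c j) (q j) (hs.prime j)
      (hs.norm j) s hs')
    (fun s hs' => by
      show _ = _ * _
      rw [← e1 s hs', (e3 s hs').tsum_eq])
  refine ⟨Λ, hΛa, fun s hs' => ?_, ?_⟩
  · rw [hΛ s hs']
    exact e3 s hs'
  -- the value at 1
  obtain ⟨ΛK, hKa, hKs, hKu⟩ := hL
  obtain ⟨S, hS, hSs⟩ := one_sumP h f hχ.ne
  have e4 : ∀ s : ℂ, 1 / 2 < s.re →
      (∑ i, κ' i * (Ideal.absNorm (b i) : ℂ) ^ s * Z i s) =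
      (∏ j, (1 - (q j : ℂ) * tm (PsiP K ψ * oneI f : Ideal (𝓞 K) →*₀ ℂ) s (c j))) *
        ((∏ w ∈ S, (1 - tm (PsiP K ψ) s w.asIdeal)) * ΛK s) := by
    intro s hs'
    refine ident (fun s : ℂ => ∑ i, κ' i * (Ideal.absNorm (b i) : ℂ) ^ s * Z i s)
      (fun s : ℂ => (∏ j, (1 - (q j : ℂ) * tm (PsiP K ψ * oneI f : Ideal (𝓞 K) →*₀ ℂ) s (c j))) *
        ((∏ w ∈ S, (1 - tm (PsiP K ψ) s w.asIdeal)) * ΛK s)) (hGa κ') ?_ ?_ s hs'
    · refine (hPa _).mul (AnalyticOnNhd.mul ?_ hKa)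
      intro z hz
      exact Finset.analyticAt_fun_prod _ fun w _ =>
        (analyticAt_const.sub (pt3_tm_analytic (PsiP K ψ) w.asIdeal w.ne_bot Set.univ z trivial))
    · intro z hz
      show _ = _ * (_ * _)
      rw [← e2 z hz, (hSs z hz).tsum_eq, (hKs z hz).tsum_eq]
  have h1re : (1 / 2 : ℝ) < (1 : ℂ).re := by norm_num
  have u1 : V.valuation (∏ j, (1 - (q j : ℂ) * tm (PsiP K ψ * χ : Ideal (𝓞 K) →*₀ ℂ) 1 (c j))) = 1 := by
    rw [map_prod]
    refine Finset.prod_eq_one fun j _ => factorP p hp V hV ψ χ (c j) (q j) (hs.prime j) (hs.norm j)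
      (hun j) ?_
    by_cases hj : IsCoprime (c j) f
    · exact Or.inl (hχ.val _ (pt3_ne hs j) hj)
    · exact Or.inr (hχ.zero _ hj)
  have u2 : V.valuation
      (∏ j, (1 - (q j : ℂ) * tm (PsiP K ψ * oneI f : Ideal (𝓞 K) →*₀ ℂ) 1 (c j))) = 1 := by
    rw [map_prod]
    refine Finset.prod_eq_one fun j _ => factorP p hp V hV ψ (oneI f) (c j) (q j) (hs.prime j)
      (hs.norm j) (hun j) ?_
    rcases pt3_oneI_eq f (c j) with h | h
    · exact Or.inl (by rw [h, one_pow])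
    · exact Or.inr h
  have u3 : V.valuation (∏ w ∈ S, (1 - tm (PsiP K ψ) 1 w.asIdeal)) = 1 := by
    rw [map_prod]
    refine Finset.prod_eq_one fun w hw => EfacP p hp V hV h w ?_ (hf w ((hS w).1 hw))
    have h1 := hχ.cop
    rw [Ideal.isCoprime_iff_sup_eq] at h1 ⊢
    rw [← top_le_iff, ← h1]
    exact sup_le_sup_right ((hS w).1 hw) _
  have u4 : V.valuation ((∑ i, κ' i * (Ideal.absNorm (b i) : ℂ) ^ (1 : ℂ) * Z i 1) /
      Om ^ Module.finrank F K) = 1 := by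
    rw [e4 1 h1re, mul_div_assoc, mul_div_assoc, map_mul, map_mul, u2, u3, hKu, one_mul, one_mul]
  have u5 : V.valuation ((∑ i, κ i * (Ideal.absNorm (b i) : ℂ) ^ (1 : ℂ) * Z i 1) /
      Om ^ Module.finrank F K) = 1 := by
    have h2 : (∑ i, κ i * (Ideal.absNorm (b i) : ℂ) ^ (1 : ℂ) * Z i 1) / Om ^ Module.finrank F K =
        (∑ i, κ' i * (ζ i - 1) * ((Ideal.absNorm (b i) : ℕ) : ℂ) * (Z i 1 / Om ^ (m + 1))) +
        (∑ i, κ' i * (Ideal.absNorm (b i) : ℂ) ^ (1 : ℂ) * Z i 1) / Om ^ Module.finrank F K := by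
      rw [hm, Finset.sum_div, Finset.sum_div, ← Finset.sum_add_distrib]
      refine Finset.sum_congr rfl fun i _ => ?_
      rw [hκζ i, Complex.cpow_one]
      ring
    have h3 : V.valuation (∑ i, κ' i * (ζ i - 1) * ((Ideal.absNorm (b i) : ℕ) : ℂ) *
        (Z i 1 / Om ^ (m + 1))) < 1 := by
      refine Valuation.map_sum_lt _ one_ne_zero fun i _ => ?_
      rw [map_mul, map_mul, map_mul, hκu i V hV, one_mul, mul_assoc]
      refine mul_lt_one_of_lt_of_le (root_max p hp V hV (ζ i) (hζ i)) (mul_le_one' (pt9_nat V _) ?_)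
      exact hZi i Ac Bc Om hper V hV hg
    rw [h2, Valuation.map_add_eq_of_lt_right _ (by rw [u4]; exact h3), u4]
  have e5 := hΛG 1 h1re
  have hne : (∏ j, (1 - (q j : ℂ) * tm (PsiP K ψ * χ : Ideal (𝓞 K) →*₀ ℂ) 1 (c j))) ≠ 0 := by
    intro h0
    rw [h0, map_zero] at u1
    exact zero_ne_one u1
  have h6 : Λ 1 / Om ^ Module.finrank F K =
      ((∑ i, κ i * (Ideal.absNorm (b i) : ℂ) ^ (1 : ℂ) * Z i 1) / Om ^ Module.finrank F K) *
      (∏ j, (1 - (q j : ℂ) * tm (PsiP K ψ * χ : Ideal (𝓞 K) →*₀ ℂ) 1 (c j)))⁻¹ := by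
    rw [e5]
    field_simp
  rw [h6, map_mul, map_inv₀, u1, u5, inv_one, mul_one]

end H55P
end

-- from Lib.SSG.E.D
section

/-!
# SSG, part E: the analytic core with a weight modulo powers of p (definitions)

D is the context of H55P (residue class X = c0 + I, smoothing data c, p), q an ideal. The class X is the disjoint union of the classes a + q I;
`cx D q a` is the context of the class of a modulo q I. The weight φ is a function on X which is periodic modulo q I and invariant under the units u.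
-/

open NumberField IsDedekindDomain

namespace SSG.E

open H55N H55P

variable {F : Type} [Field F] [NumberField F] [IQ F] {K : Type} [Field K] [NumberField K]
  [Algebra F K] {m : ℕ}

/-- The context of the residue class of a modulo q I. -/
def cx (D : Ctx F K m) (q : Ideal (𝓞 K)) (a : 𝓞 K) : Ctx F K m := ⟨D.σ, q * D.I, a, D.c, D.p⟩

/-- R is a set of representatives of X modulo q I. -/
structure Rp (D : Ctx F K m) (q : Ideal (𝓞 K)) (R : Finset (𝓞 K)) : Prop where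
  sub : ∀ a ∈ R, a ∈ D.X
  ex : ∀ x ∈ D.X, ∃! a, a ∈ R ∧ x - a ∈ q * D.I

/-- The weight φ is periodic modulo q I and invariant under the units u. -/
structure Wt (D : Ctx F K m) (q : Ideal (𝓞 K)) (u : Fin m → (𝓞 K)ˣ) (φ : 𝓞 K → ℂ) : Prop where
  per : ∀ x ∈ D.X, ∀ y, x - y ∈ q * D.I → φ x = φ y
  inv : ∀ x ∈ D.X, ∀ z, φ ((uu u z : 𝓞 K) * x) = φ x

/-- The weighted sum of the regularised determinants over the classes. -/
noncomputable def Jw (D : Ctx F K m) (q : Ideal (𝓞 K)) (R : Finset (𝓞 K)) (φ : 𝓞 K → ℂ)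
    (L : Fin (m + 1) → Lab K m) : ℂ := ∑ a ∈ R, φ a * (cx D q a).Jv L

theorem cx_le (D : Ctx F K m) (q : Ideal (𝓞 K)) : q * D.I ≤ D.I := Ideal.mul_le_right

theorem cx_mem (D : Ctx F K m) (q : Ideal (𝓞 K)) {a x : 𝓞 K} (ha : a ∈ D.X) (hx : x ∈ (cx D q a).X) : x ∈ D.X := by
  have h1 : x - a ∈ q * D.I := hx
  have h2 : x - D.c₀ = (x - a) + (a - D.c₀) := by ring
  show x - D.c₀ ∈ D.I
  rw [h2]
  exact D.I.add_mem (cx_le D q h1) ha

theorem cx_ok (D : Ctx F K m) (hD : D.Ok) (q : Ideal (𝓞 K)) {a : 𝓞 K} (ha : a ∈ D.X) : (cx D q a).Ok where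
  emb := hD.emb
  ne h := by
    have h1 : a ∈ D.I := cx_le D q h
    exact hD.ne (by
      have h2 : D.c₀ = a - (a - D.c₀) := by ring
      rw [h2]
      exact D.I.sub_mem h1 ha)
  smooth := hD.smooth


end SSG.E
end

-- from Lib.SSG.E.DN
section

/-! # SSG, part E: directions divisible by n -/

open NumberField IsDedekindDomain

namespace SSG.E

open H55N H55P

variable {F : Type} [Field F] [NumberField F] [IQ F] {K : Type} [Field K] [NumberField K]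
  [Algebra F K] {m : ℕ}

/-- A basis A of K/F and directions n w' in the ideal n I, adapted to the smoothing primes; the labels A k take values 1 modulo l on X. -/
structure DirN (D : Ctx F K m) (l : 𝓞 F) (n : ℕ) (A : Fin (m + 1) → K) (w' : Fin (m + 1) × Fin 2 → 𝓞 K) : Prop where
  mem : ∀ i, w' i ∈ D.I
  self : ∀ i, (n : 𝓞 K) * w' i ∉ D.c i
  oth : ∀ i k, k ≠ i → (n : 𝓞 K) * w' i ∈ D.c k
  orth : ∀ i k, k ≠ i.1 → D.Tr (A k) (w' i) = 0
  one : ∀ x ∈ D.X, ∀ k, ∃ y : 𝓞 F, D.Tr (A k) x = eF F (1 + l * y)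
  low : ∀ x ∈ D.X, ∀ k, 1 ≤ ‖D.Tr (A k) x‖
  ind : LinearIndependent F A

/-- The directions. -/
def nw (n : ℕ) (w' : Fin (m + 1) × Fin 2 → 𝓞 K) (i : Fin (m + 1) × Fin 2) : 𝓞 K := (n : 𝓞 K) * w' i

end SSG.E
end

-- from Lib.SSG.E.HV
section

/-! # SSG, part E: the lattice of a label and the value function -/

open NumberField IsDedekindDomain

namespace SSG.E

open H55N H55P

variable {F : Type} [Field F] [NumberField F] [IQ F] {K : Type} [Field K] [NumberField K]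
  [Algebra F K] {m : ℕ}

/-- The elements of I in all smoothing primes whose traces against the basis A are divisible by M. -/
def Lat (D : Ctx F K m) (A : Fin (m + 1) → K) (M : ℕ) : AddSubgroup (𝓞 K) where
  carrier := {x | x ∈ D.I ∧ (∀ i, x ∈ D.c i) ∧ ∀ k, ∃ y : 𝓞 F, D.Tr (A k) x = M * eF F y}
  zero_mem' := ⟨D.I.zero_mem, fun i => (D.c i).zero_mem, fun k => ⟨0, by rw [D.Tr_zero, map_zero, mul_zero]⟩⟩
  add_mem' := by
    rintro x y ⟨h1, h2, h3⟩ ⟨k1, k2, k3⟩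
    refine ⟨D.I.add_mem h1 k1, fun i => (D.c i).add_mem (h2 i) (k2 i), fun k => ?_⟩
    obtain ⟨s, hs⟩ := h3 k
    obtain ⟨t, ht⟩ := k3 k
    exact ⟨s + t, by rw [D.Tr_add, hs, ht, map_add]; ring⟩
  neg_mem' := by
    rintro x ⟨h1, h2, h3⟩
    refine ⟨D.I.neg_mem h1, fun i => (D.c i).neg_mem (h2 i), fun k => ?_⟩
    obtain ⟨s, hs⟩ := h3 k
    refine ⟨-s, ?_⟩
    have h4 := D.Tr_sub (A k) 0 x
    rw [zero_sub, D.Tr_zero, zero_sub] at h4
    rw [h4, hs, map_neg]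
    ring

/-- B is a set of representatives of X modulo the lattice. -/
structure RpL (D : Ctx F K m) (A : Fin (m + 1) → K) (M : ℕ) (B : Finset (𝓞 K)) : Prop where
  sub : ∀ x ∈ B, x ∈ D.X
  ex : ∀ x ∈ D.X, ∃! y, y ∈ B ∧ x - y ∈ Lat D A M

/-- The trace has full image on the lattice. -/
def Full (D : Ctx F K m) (A : Fin (m + 1) → K) (M : ℕ) : Prop :=
  ∀ y : Fin (m + 1) → 𝓞 F, ∃ x : 𝓞 K, x ∈ D.I ∧ (∀ i, x ∈ D.c i) ∧ ∀ k, D.Tr (A k) x = M * eF F (y k)

/-- The data of a rational simplex: basis, directions, integer valued function G, the auxiliary number M prime to P, a Bezout relation. -/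
structure LD (D : Ctx F K m) (l : 𝓞 F) (P : ℕ) where
  A : Fin (m + 1) → K
  w' : Fin (m + 1) × Fin 2 → 𝓞 K
  G : 𝓞 K → ℤ
  M : ℕ
  e₁ : ℤ
  e₂ : ℤ
  B : Finset (𝓞 K)

/-- The hypotheses. -/
structure LD.Ok {D : Ctx F K m} {l : 𝓞 F} {P : ℕ} (S : LD D l P) : Prop where
  dir : DirN D l (2 * P) S.A S.w'
  per : ∀ x y, (∀ i, y ∈ D.c i) → S.G (x + y) = S.G x
  spec : ∀ a ∈ D.X, (cx D (Ideal.span {(P : 𝓞 K)}) a).GSpec (nw (2 * P) S.w') (fun x => ((S.G x : ℤ) : ℂ))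
  ne : S.M ≠ 0
  bez : S.e₁ * S.M + S.e₂ * P = 1
  smo : ∀ i, (S.M : 𝓞 K) ∈ D.c i
  pc : ∀ i, IsCoprime (P : ℤ) (D.p i : ℤ)
  lM : l ∣ (S.M : 𝓞 F)
  full : Full D S.A S.M
  rep : RpL D S.A S.M S.B

/-- The traces of the directions. -/
noncomputable def LD.d {D : Ctx F K m} {l : 𝓞 F} {P : ℕ} (S : LD D l P) (k : Fin (m + 1)) (i : Fin 2) : ℂ :=
  D.Tr (S.A k) (S.w' (k, i))

/-- The torsion point. -/
noncomputable def LD.z {D : Ctx F K m} {l : 𝓞 F} {P : ℕ} (S : LD D l P) (a β : 𝓞 K) (k : Fin (m + 1)) : ℂ :=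
  S.e₁ * D.Tr (S.A k) a / P + (S.e₂ * D.Tr (S.A k) β - S.d k 0 - S.d k 1) / S.M

/-- The value function of a rational simplex on the class X. -/
noncomputable def LD.H {D : Ctx F K m} {l : 𝓞 F} {P : ℕ} (S : LD D l P) (a : 𝓞 K) : ℂ :=
  Matrix.det (Matrix.of fun k i => D.σ i (S.A k)) * ∑ β ∈ S.B, ((S.G β : ℤ) : ℂ) * ∏ k, (S.M : ℂ)⁻¹ *
    (H35P.T2 (LF F) (S.z a β k) ((S.d k 0 + S.d k 1) / S.M) - H35P.T2 (LF F) (S.z a β k) ((S.d k 0 - S.d k 1) / S.M))

end SSG.E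
end

-- from Lib.SSG.E.IFD
section

/-! # SSG, part E: interface (definitions): coordinates at the primes above p, weights -/

open NumberField IsDedekindDomain

namespace SSG.E

open H55N H55P

/-- x is integral at p. -/
def LInt {K : Type} [Field K] [NumberField K] (p : ℕ) (x : K) : Prop :=
  ∃ d : ℕ, ¬ p ∣ d ∧ ∃ y : 𝓞 K, (d : K) * x = y

/-- The ring of integers of F modulo p^N. -/
abbrev RN (F : Type) [Field F] [NumberField F] (p N : ℕ) : Type := 𝓞 F ⧸ Ideal.span {(p : 𝓞 F) ^ N}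

/-- The coordinates of 𝓞 K modulo p^N at the m + 1 primes v k above p (p totally split in K/F). -/
structure Crd {F : Type} [Field F] [NumberField F] {K : Type} [Field K] [NumberField K] [Algebra F K] {m : ℕ} (p N : ℕ)
    (v : Fin (m + 1) → HeightOneSpectrum (𝓞 K)) (r : Fin (m + 1) → 𝓞 K →+* RN F p N) : Prop where
  inj : Function.Injective v
  prod : Ideal.span {(p : 𝓞 K)} = ∏ k, (v k).asIdeal
  alg : ∀ k (a : 𝓞 F), r k (algebraMap (𝓞 F) (𝓞 K) a) = Ideal.Quotient.mk _ a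
  surj : ∀ y : Fin (m + 1) → RN F p N, ∃ x, ∀ k, r k x = y k
  ker : ∀ x, (∀ k, r k x = 0) ↔ (p : 𝓞 K) ^ N ∣ x
  pow : ∀ x k (e : ℕ), e ≤ N → (x ∈ (v k).asIdeal ^ e ↔ Ideal.Quotient.mk _ ((p : 𝓞 F) ^ e) ∣ r k x)
  tr : ∀ (x : 𝓞 K) (t : 𝓞 F), Algebra.trace F K (x : K) = (t : F) → Ideal.Quotient.mk _ t = ∑ k, r k x
  nm : ∀ (x : 𝓞 K) (n : 𝓞 F), Algebra.norm F (x : K) = (n : F) → Ideal.Quotient.mk _ n = ∏ k, r k x

/-- The coordinate vector, as integers of F. -/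
noncomputable def cr {F : Type} [Field F] [NumberField F] {K : Type} [Field K] [NumberField K] {m : ℕ} {p N : ℕ}
    (r : Fin (m + 1) → 𝓞 K →+* RN F p N) (x : 𝓞 K) (k : Fin (m + 1)) : 𝓞 F := Quotient.out (r k x)

/-- Weights on the class of c₀ modulo I: periodic modulo P I, invariant under the units. -/
structure WtU {K : Type} [Field K] [NumberField K] (I : Ideal (𝓞 K)) (c₀ : 𝓞 K) (P : ℕ) (φ : 𝓞 K → ℂ) : Prop where
  per : ∀ x ∈ XS I c₀, ∀ y, x - y ∈ Ideal.span {(P : 𝓞 K)} * I → φ x = φ y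
  inv : ∀ x ∈ XS I c₀, ∀ v : (𝓞 K)ˣ, φ ((v : 𝓞 K) * x) = φ x

/-- R is a set of representatives of the class of c₀ modulo I, modulo P I. -/
structure RpU {K : Type} [Field K] [NumberField K] (I : Ideal (𝓞 K)) (c₀ : 𝓞 K) (P : ℕ) (R : Finset (𝓞 K)) : Prop where
  sub : ∀ a ∈ R, a ∈ XS I c₀
  ex : ∀ x ∈ XS I c₀, ∃! a, a ∈ R ∧ x - a ∈ Ideal.span {(P : 𝓞 K)} * I

end SSG.E
end

-- from Lib.SSG.E.W8
section

open NumberField IsDedekindDomain

namespace SSG.E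

open H55N H55P

variable {F : Type} [Field F] [NumberField F] [IQ F] {K : Type} [Field K] [NumberField K]
  [Algebra F K] {m : ℕ}

/-! Chunk W8 (S/M). (1) DirN gives Dirs for every class: mem: n w' i = n * w' i with n in q; orth: Tr (A k) (n x) = n Tr (A k) x (unfold Ctx.Tr, map_mul, or Tr_eq); int, low: the class of a is a subset of X (cx_mem). All functions (Tr, c) are the same (rfl).
(2) Tr (A k) (w' i) is e of an element divisible by l: for x in X (take x = D.c₀, in X) x + w' i is in X (X_add), both values are 1 mod l; subtract (eF_inj, Tr_add). For k <> i.1 the value is 0. -/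

theorem dirN_dirs (D : Ctx F K m) (l : 𝓞 F) (q : Ideal (𝓞 K)) (n : ℕ) (hn : (n : 𝓞 K) ∈ q) (A : Fin (m + 1) → K)
    (w' : Fin (m + 1) × Fin 2 → 𝓞 K) (h : DirN D l n A w') {a : 𝓞 K} (ha : a ∈ D.X) : (cx D q a).Dirs A (nw n w') := by
  refine ⟨fun i => ?_, h.self, h.oth, fun i k hk => ?_, fun x hx k => ?_, fun x hx k => ?_, h.ind⟩
  · exact Ideal.mul_mem_mul hn (h.mem i)
  · have h1 : D.Tr (A k) (w' i) = 0 := h.orth i k hk
    change D.Tr (A k) ((n : 𝓞 K) * w' i) = 0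
    have h2 : D.Tr (A k) ((n : 𝓞 K) * w' i) = (n : ℂ) * D.Tr (A k) (w' i) := by
      unfold H55P.Ctx.Tr
      rw [Finset.mul_sum]
      refine Finset.sum_congr rfl fun j _ => ?_
      have h3 : (((n : 𝓞 K) * w' i : 𝓞 K) : K) * A k = (n : K) * ((w' i : K) * A k) := by
        push_cast
        ring
      rw [h3, map_mul, map_natCast]
    rw [h2, h1, mul_zero]
  · obtain ⟨y, hy⟩ := h.one x (cx_mem D q ha hx) k
    exact ⟨1 + l * y, hy⟩
  · exact h.low x (cx_mem D q ha hx) k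

theorem dirN_tr (D : Ctx F K m) (l : 𝓞 F) (n : ℕ) (A : Fin (m + 1) → K)
    (w' : Fin (m + 1) × Fin 2 → 𝓞 K) (h : DirN D l n A w') (v : 𝓞 K) (hv : v ∈ D.I) (k : Fin (m + 1)) :
    ∃ y : 𝓞 F, D.Tr (A k) v = eF F (l * y) := by
  have h0 : D.c₀ ∈ D.X := by
    rw [H55P.Ctx.mem_X, sub_self]
    exact D.I.zero_mem
  obtain ⟨y1, hy1⟩ := h.one D.c₀ h0 k
  obtain ⟨y2, hy2⟩ := h.one (D.c₀ + v) (D.X_add h0 hv) k
  refine ⟨y2 - y1, ?_⟩
  rw [H55P.Ctx.Tr_add, hy1] at hy2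
  have h1 : D.Tr (A k) v = eF F (1 + l * y2) - eF F (1 + l * y1) := by
    rw [← hy2]
    ring
  rw [h1, ← map_sub]
  congr 1
  ring

end SSG.E
end
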