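import Mathlib
import Pool.Agent.Lib.H1M.PP2.M010
import Pool.Agent.Lib.H1M.PP2.M017
import Pool.Agent.Lib.H1M.PP2.M021
import Pool.Agent.Lib.H1M.PP2.M031
import Pool.Agent.Lib.H1M.PP2.M046
import Pool.Agent.Lib.H1M.PP2.M051
import Pool.Agent.Lib.H1M.PP2.M052
import Pool.Agent.Lib.H1M.PP2.M054
import Pool.Agent.Lib.H1M.PP2.M062
import Pool.Agent.Lib.H1M.PP2.M070
import Pool.Agent.Lib.H1M.PP2.M075
import Pool.Agent.Lib.H1M.PP2.M079
import Pool.Agent.Lib.H1M.PP2.M083
import Pool.Agent.Lib.H1M.PP2.M086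

/-! Merged copies (to shorten the build) of Lib.H28G.K14, Lib.H28G.K2, Lib.H28G.K3, Lib.H28R.W12, Lib.SSG.LT.D, Lib.SSG.LT.PA1, Lib.SSG.LT.PA2, Lib.SSG.LT.XM1, Lib.H55P.I1, Lib.H55P.N6, Lib.H55P.T13, Lib.H55P.I2, Lib.H55P.T15, Lib.H55P.I3, Lib.H55P.CL. -/

-- from Lib.H28G.K14
section

open NumberField IsDedekindDomain WeierstrassCurve

namespace H28G

open H55B H55R H99B




theorem K14_max {π : O} (hp : Prime π) : (Ideal.span {π}).IsMaximal := by
  have h1 : (Ideal.span {π}).IsPrime := (Ideal.span_singleton_prime hp.ne_zero).2 hp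
  refine h1.isMaximal ?_
  rw [Ne, Ideal.span_singleton_eq_bot]
  exact hp.ne_zero

theorem below {L : Type} [Field L] [NumberField L] [Algebra F L] {π : O} (hp : Prime π) (w : Pl L)
    (hw : algebraMap O (𝓞 L) π ∈ w.asIdeal) : ∃ v : Pl F, v.asIdeal = Ideal.span {π} ∧
      w.under (𝓞 F) = v := by
  refine ⟨w.under (𝓞 F), ?_, rfl⟩
  have h1 := K14_max hp
  refine (h1.eq_of_le (w.under (𝓞 F)).isPrime.ne_top ?_).symm
  rw [Ideal.span_singleton_le_iff_mem]
  exact hw


theorem K14_card {π : O} {k : Type} [Field k] (q : O →+* k)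
    (hq : Function.Surjective q) (hk : ∀ x, q x = 0 ↔ π ∣ x) : Nat.card k = Nm π := by
  have h1 : RingHom.ker q = Ideal.span {π} := by
    ext x
    rw [RingHom.mem_ker, hk, Ideal.mem_span_singleton]
  have h2 : Nat.card (O ⧸ RingHom.ker q) = Nat.card k :=
    Nat.card_congr (RingHom.quotientKerEquivOfSurjective hq).toEquiv
  rw [← h2, h1]
  unfold H55B.Nm
  rw [Ideal.absNorm_apply, Submodule.cardQuot_apply]






end H28G
end

-- from Lib.H28G.K2
section

open NumberField IsDedekindDomain WeierstrassCurve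

namespace H28G

open H55B H55R H99B

/-! Chunk K2 (M): the character. There is T in Tor b N with T <> 0 (Full: Nat.card = Nm b <> 1, because b is not a unit: exists_ne). orb_inj: if sp σ R = sp τ R then ρ = τ⁻¹ σ fixes R (sp_mul, sp_one), and every R' in Tor b N is
act c R (tor_gen), so ρ fixes R' (sp_act) and ρ = 1 (h.gen). exists_chi: fix T. sp σ T = act c T for some c (tor_gen, sp_mem), q c <> 0 (sp_ne, act_eq_zero) and q c does not depend on c (act_eq_zero: act c T = act c' T iff b | c - c' iff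
q c = q c'). χ σ = Units.mk0 (q c). sp (σ τ) T = sp σ (act c' T) = act c' (act c T): multiplicative. For R = act d T: sp σ R = act d (act c T) = act c R. Injective: χ σ = χ τ gives sp σ T = sp τ T, orb_inj.
card_le: orb_inj gives an injection of Gal(N/K) into Tor b N minus 0, and Nat.card Gal(N/K) = finrank (IsGalois.card_aut_eq_finrank). -/

theorem exists_tor {N : Type} [Field N] [DecidableEq N] [Algebra F N] {b : O} (hp : Prime b)
    (hf : Full b N) : ∃ T ∈ Tor b N, T ≠ 0 := by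
  by_contra hcon
  push Not at hcon
  have h1 : Subsingleton (Tor b N) :=
    ⟨fun x y => Subtype.ext ((hcon x x.2).trans (hcon y y.2).symm)⟩
  have h2 : Nat.card (Tor b N) = 1 := Nat.card_unique
  have h3 : Nat.card (Tor b N) = Nm b := hf
  exact hp.not_unit (Nm_eq_one.1 (h3.symm.trans h2))

section
variable {K N : Type} [Field K] [Field N] [DecidableEq N] [Algebra F K] [Algebra K N] [Algebra F N]
  [IsScalarTower F K N]

theorem orb_inj {b : O} (hp : Prime b) (h : TFld K N b) {R : P27 N} (hR : R ∈ Tor b N)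
    (h0 : R ≠ 0) : Function.Injective fun σ : Gal(N/K) => sp σ R := by
  intro σ τ hστ
  have h1 : sp σ R = sp τ R := hστ
  have h2 : sp (τ⁻¹ * σ) R = R := by
    rw [sp_mul, h1, ← sp_mul, inv_mul_cancel, sp_one]
  have h3 : τ⁻¹ * σ = 1 := by
    apply h.gen
    intro R' hR'
    obtain ⟨c, hc⟩ := tor_gen hp h.full hR hR' h0
    rw [← hc, sp_act, h2]
  exact (inv_mul_eq_one.1 h3).symm

theorem card_le [FiniteDimensional K N] {b : O} (hp : Prime b) (h : TFld K N b) :
    Module.finrank K N ≤ Nm b - 1 := by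
  classical
  have hgal : IsGalois K N := h.gal
  obtain ⟨R, hR, h0⟩ := exists_tor hp h.full
  have hfin : Finite (Tor b N) := h.full.finite hp.ne_zero
  let f : Gal(N/K) → {R : Tor b N // R ≠ 0} := fun σ =>
    ⟨⟨sp σ R, (sp_mem σ b R).2 hR⟩, fun h1 => sp_ne σ h0 (congrArg Subtype.val h1)⟩
  have hinj : Function.Injective f := by
    intro σ τ hστ
    apply orb_inj hp h hR h0
    exact congrArg (fun z : {R : Tor b N // R ≠ 0} => ((z.1 : Tor b N) : P27 N)) hστ
  have hcard2 : Nat.card {R : Tor b N // R ≠ 0} = Nm b - 1 := by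
    have : Fintype (Tor b N) := Fintype.ofFinite _
    have h3 : Nat.card (Tor b N) = Nm b := h.full
    rw [Nat.card_eq_fintype_card] at h3 ⊢
    have h4 := Fintype.card_subtype_compl (fun R : Tor b N => R = 0)
    rw [Fintype.card_subtype_eq, h3] at h4
    exact h4
  rw [← IsGalois.card_aut_eq_finrank, ← hcard2]
  exact Nat.card_le_card_of_injective f hinj

theorem exists_chi {b : O} (hp : Prime b) (h : TFld K N b) {k : Type} [Field k] (q : O →+* k)
    (hq : Function.Surjective q) (hk : ∀ x, q x = 0 ↔ b ∣ x) :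
    ∃ χ : Gal(N/K) →* kˣ, Function.Injective χ ∧
      ∀ (σ : Gal(N/K)) (c : O), q c = χ σ → ∀ R ∈ Tor b N, sp σ R = act c R := by
  obtain ⟨T, hT, h0⟩ := exists_tor hp h.full
  have hex : ∀ σ : Gal(N/K), ∃ c : O, act c T = sp σ T := fun σ =>
    tor_gen hp h.full hT ((sp_mem σ b T).2 hT) h0
  choose c hc using hex
  have heq : ∀ x y : O, act x T = act y T ↔ q x = q y := by
    intro x y
    rw [← sub_eq_zero, ← act_sub, act_eq_zero hp hT h0, ← hk, map_sub, sub_eq_zero]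
  have hne : ∀ σ, q (c σ) ≠ 0 := by
    intro σ h1
    rw [hk, ← act_eq_zero hp hT h0, hc] at h1
    exact sp_ne σ h0 h1
  let χ : Gal(N/K) →* kˣ :=
    { toFun := fun σ => Units.mk0 (q (c σ)) (hne σ)
      map_one' := by
        apply Units.ext
        show q (c 1) = 1
        rw [← map_one q, ← heq, hc, sp_one, act_one]
      map_mul' := by
        intro σ τ
        apply Units.ext
        show q (c (σ * τ)) = q (c σ) * q (c τ)
        rw [← map_mul, ← heq, hc, sp_mul, ← hc τ, sp_act, ← hc σ, ← act_mul, mul_comm] }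
  have hχ : ∀ σ, ((χ σ : kˣ) : k) = q (c σ) := fun σ => rfl
  refine ⟨χ, ?_, ?_⟩
  · intro σ τ hστ
    have h1 : q (c σ) = q (c τ) := by rw [← hχ, ← hχ, hστ]
    rw [← heq, hc, hc] at h1
    exact orb_inj hp h hT h0 h1
  · intro σ d hd R hR
    rw [hχ, ← heq, hc] at hd
    obtain ⟨a, ha⟩ := tor_gen hp h.full hT hR h0
    rw [← ha, sp_act, ← hd, ← act_mul, ← act_mul, mul_comm]

end

end H28G
end

-- from Lib.H28G.K3
section

open NumberField IsDedekindDomain WeierstrassCurve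

namespace H28G

open H55B H55R H99B

/-! Chunk K3 (M): total ramification. es = es K N v, n = finrank K N <= Nm b - 1 (card_le; b <> 0 so Nm b > 1, prime). W a prime above v (under_exists). W.valuation N (ak N b) = exp(-es): ord_map for the unit b of K (ak K b <> 0; BF1_val)
and ak N b = algebraMap K N (ak K b). j from exists_emb. T in Tor b N, T <> 0 (exists_tor): tor_val: W(tt T)^(Nm b - 1) = exp(-es); W(tt T) <> 0 and < 1 (tt_val) so W(tt T) = exp(-m), m >= 1 (the tt T is a unit of N; BF1_val), and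
(Nm b - 1) m = es. D5_card: card * (es * fs) = n <= Nm b - 1 with card >= 1 (W is in the set), fs >= 1: so m = 1, es = Nm b - 1, fs = 1, card = 1, n = Nm b - 1. one: the set of the primes above v (D5_mem) has one element. val: the same
argument for every R and W. orb: the injection σ -> sp σ R (orb_inj) from Gal(N/K) (n elements, IsGalois.card_aut_eq_finrank) to {R : Tor b N // R <> 0} (Nm b - 1 elements) is surjective. -/

/-- N/K is totally ramified at v, of degree Nb - 1. -/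
structure TotRam (K N : Type) [Field K] [NumberField K] [Field N] [NumberField N] [DecidableEq N]
    [Algebra F K] [Algebra K N] [Algebra F N] [IsScalarTower F K N] (b : O) (v : Pl K) : Prop where
  deg : Module.finrank K N = Nm b - 1
  es : es K N v = Nm b - 1
  fs : fs K N v = 1
  one : ∀ W W' : Pl N, W.under (𝓞 K) = v → W'.under (𝓞 K) = v → W = W'
  val : ∀ W : Pl N, W.under (𝓞 K) = v → ∀ R ∈ Tor b N, R ≠ 0 →
    1 < W.valuation N (xc R) ∧ W.valuation N (tt R) = WithZero.exp (-1 : ℤ)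
  orb : ∀ R ∈ Tor b N, R ≠ 0 → ∀ R' ∈ Tor b N, R' ≠ 0 → ∃ σ : Gal(N/K), sp σ R = R'

theorem K3_arith {c P f m e : ℕ} (hc : 0 < c) (hf : 0 < f) (he : 0 < e) (hm : m * P = e)
    (h : c * (e * f) ≤ P) : c = 1 ∧ f = 1 ∧ m = 1 := by
  subst hm
  have hP : 0 < P := Nat.pos_of_mul_pos_right he |> fun h => by
    rcases Nat.eq_zero_or_pos P with h0 | h0
    · rw [h0, mul_zero] at he
      exact absurd he (lt_irrefl 0)
    · exact h0
  have hm0 : 0 < m := by
    rcases Nat.eq_zero_or_pos m with h0 | h0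
    · rw [h0, zero_mul] at he
      exact absurd he (lt_irrefl 0)
    · exact h0
  have h1 : (c * f * m) * P ≤ 1 * P := by
    calc (c * f * m) * P = c * (m * P * f) := by ring
      _ ≤ P := h
      _ = 1 * P := (one_mul P).symm
  have h2 : c * f * m ≤ 1 := Nat.le_of_mul_le_mul_right h1 hP
  have h3 : c * f * m = 1 := le_antisymm h2 (Nat.mul_pos (Nat.mul_pos hc hf) hm0)
  have h4 := Nat.eq_one_of_mul_eq_one_left h3
  have h5 := Nat.eq_one_of_mul_eq_one_right h3
  exact ⟨Nat.eq_one_of_mul_eq_one_right h5, Nat.eq_one_of_mul_eq_one_left h5, h4⟩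

theorem tot_ram {K N : Type} [Field K] [NumberField K] [Field N] [NumberField N] [DecidableEq N]
    [Algebra F K] [Algebra K N] [Algebra F N] [IsScalarTower F K N] {b : O} (hp : Prime b)
    (hb : Prim b) (h : TFld K N b) (v : Pl K)
    (hv : v.valuation K (ak K b) = WithZero.exp (-1 : ℤ)) : TotRam K N b v := by
  classical
  have hgal : IsGalois K N := h.gal
  have hb0 := hp.ne_zero
  have hle : Module.finrank K N ≤ Nm b - 1 := card_le hp h
  obtain ⟨j⟩ := exists_emb (N := N)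
  have hakK : ak K b ≠ 0 := GV6_ak_ne hb0
  obtain ⟨x, hx⟩ : ∃ x : Kˣ, (x : K) = ak K b := ⟨Units.mk0 _ hakK, rfl⟩
  have hordv : ord v x = 1 := by
    have h1 := BF1_val v x
    rw [hx, hv, WithZero.exp_inj] at h1
    omega
  have hakN : ((Units.map (algebraMap K N : K →* N) x : Nˣ) : N) = ak N b := by
    show algebraMap K N (x : K) = _
    rw [hx]
    unfold ak
    rw [RingHom.comp_apply, RingHom.comp_apply, ← IsScalarTower.algebraMap_apply F K N]
  have hval : ∀ W : Pl N, W.under (𝓞 K) = v →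
      W.valuation N (ak N b) = WithZero.exp (-(es K N v : ℤ)) := by
    intro W hW
    have h1 := ord_map W v hW x
    rw [hordv, mul_one] at h1
    have h2 := BF1_val W (Units.map (algebraMap K N : K →* N) x)
    rw [h1, hakN] at h2
    exact h2
  have hes : 0 < es K N v := es_pos v
  have hfs : 0 < fs K N v := fs_pos v
  have key : ∀ W : Pl N, W.under (𝓞 K) = v → ∀ R ∈ Tor b N, R ≠ 0 →
      1 < W.valuation N (xc R) ∧ ∃ m : ℕ, W.valuation N (tt R) = WithZero.exp (-(m : ℤ)) ∧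
        m * (Nm b - 1) = es K N v := by
    intro W hW R hR h0
    have hvb : W.valuation N (ak N b) < 1 := by
      rw [hval W hW, ← WithZero.exp_zero, WithZero.exp_lt_exp]
      omega
    obtain ⟨h1, h2⟩ := tor_val (W.valuation N) j hp hb h.full hvb hR h0
    obtain ⟨h3, h4, -, -⟩ := tt_val (W.valuation N) h1
    refine ⟨h1, ?_⟩
    obtain ⟨k, hk⟩ : ∃ k : ℤ, W.valuation N (tt R) = WithZero.exp k :=
      ⟨WithZero.log (W.valuation N (tt R)), (WithZero.exp_log h4).symm⟩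
    rw [hk, ← WithZero.exp_zero, WithZero.exp_lt_exp] at h3
    obtain ⟨m, hm⟩ : ∃ m : ℕ, k = -(m : ℤ) := ⟨k.natAbs, by omega⟩
    refine ⟨m, by rw [hk, hm], ?_⟩
    rw [hval W hW, hk, hm, ← WithZero.exp_nsmul, WithZero.exp_inj, nsmul_eq_mul] at h2
    have h5 : ((m * (Nm b - 1) : ℕ) : ℤ) = (es K N v : ℤ) := by
      rw [Nat.cast_mul]
      linarith
    exact_mod_cast h5
  obtain ⟨W₀, hW₀⟩ := under_exists (L := N) v
  obtain ⟨T, hT, hT0⟩ := exists_tor hp h.full
  obtain ⟨-, m, -, hm⟩ := key W₀ hW₀ T hT hT0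
  have hcard := D5_card (L := N) v
  have hcpos : 0 < (D5_T (L := N) v).card :=
    Finset.card_pos.2 ⟨W₀, (D5_mem v W₀).2 hW₀⟩
  obtain ⟨hc1, hf1, hm1⟩ := K3_arith hcpos hfs hes hm (hcard.le.trans hle)
  have hes1 : es K N v = Nm b - 1 := by rw [← hm, hm1, one_mul]
  have hdeg : Module.finrank K N = Nm b - 1 := by
    rw [← hcard, hc1, hf1, hes1, one_mul, mul_one]
  have hP : 0 < Nm b - 1 := hes1 ▸ hes
  refine ⟨hdeg, hes1, hf1, ?_, ?_, ?_⟩
  · intro W W' hW hW'
    obtain ⟨Z, hZ⟩ := Finset.card_eq_one.1 hc1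
    have h1 : W ∈ D5_T (L := N) v := (D5_mem v W).2 hW
    have h2 : W' ∈ D5_T (L := N) v := (D5_mem v W').2 hW'
    rw [hZ, Finset.mem_singleton] at h1 h2
    rw [h1, h2]
  · intro W hW R hR h0
    obtain ⟨h1, m', hm', hm2⟩ := key W hW R hR h0
    refine ⟨h1, ?_⟩
    rw [hes1] at hm2
    have h3 : m' = 1 := Nat.eq_of_mul_eq_mul_right hP (by rw [hm2, one_mul])
    rw [hm', h3, Nat.cast_one]
  · intro R hR h0 R' hR' h0'
    have hfin : Finite (Tor b N) := h.full.finite hb0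
    let f : Gal(N/K) → {R : Tor b N // R ≠ 0} := fun σ =>
      ⟨⟨sp σ R, (sp_mem σ b R).2 hR⟩, fun h1 => sp_ne σ h0 (congrArg Subtype.val h1)⟩
    have hinj : Function.Injective f := by
      intro σ τ hστ
      apply orb_inj hp h hR h0
      exact congrArg (fun z : {R : Tor b N // R ≠ 0} => ((z.1 : Tor b N) : P27 N)) hστ
    have hcard2 : Nat.card {R : Tor b N // R ≠ 0} = Nm b - 1 := by
      have : Fintype (Tor b N) := Fintype.ofFinite _
      have h3 : Nat.card (Tor b N) = Nm b := h.full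
      rw [Nat.card_eq_fintype_card] at h3 ⊢
      have h4 := Fintype.card_subtype_compl (fun R : Tor b N => R = 0)
      rw [Fintype.card_subtype_eq, h3] at h4
      exact h4
    have hbij := hinj.bijective_of_nat_card_le (by
      rw [hcard2, IsGalois.card_aut_eq_finrank, hdeg])
    obtain ⟨σ, hσ⟩ := hbij.2 ⟨⟨R', hR'⟩, fun h1 => h0' (congrArg Subtype.val h1)⟩
    exact ⟨σ, congrArg (fun z : {R : Tor b N // R ≠ 0} => ((z.1 : Tor b N) : P27 N)) hσ⟩

end H28G
end

-- from Lib.H28R.W12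
section

open NumberField IsDedekindDomain

namespace H28R

open H55P H55R

/-! Chunk W12 (M): N/C is unramified at w if all the p-th powers c of the generators are 1 modulo p^2 and have order divisible by p at w. W a prime of N above w, t in the inertia group of W over C (Ideal.inertia, card_inertia_eq_ramificationIdxIn as in H28G/K4.lean, unram): W.valuation (t x - x) < 1 for every W-integral x of N (as in H28G/K4.lean),
and W.valuation (t x) = W.valuation x. Let x in R, x^p = c, t x = ζ^i x (t fixes C). Suppose z = ζ^i <> 1. Case p not in W: choose d in Cˣ with ord w d = ord w c / p (a power of a uniformizer of w), y = x/d has W.valuation 1, t y - y = (z - 1) y, so W.valuation (z - 1) < 1; but z - 1 divides p (product of the 1 - z^j, j = 1..p-1, is p): p in W, contradiction.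
Case p in W: c = 1 mod p^2 is a unit at W, so W.valuation x = 1. Let s = W.valuation (1 - ζ) < 1; all W.valuation (1 - z') for p-th roots of unity z' <> 1 are equal to s (quotients are units) and s^(p-1) = W.valuation p. product over j < p of (x - ζ^j) = x^p - 1 = c - 1 has valuation <= (W.valuation p)^2 = s^(2p-2) < s^p (p > 2), so some j has
W.valuation (x - ζ^j) < s. Then W.valuation (t x - ζ^j) = W.valuation (t (x - ζ^j)) < s (ζ in C), so W.valuation (t x - x) < s, but t x - x = (z - 1) x has valuation s: contradiction. So t fixes R, t = 1 (hgen), the inertia group is trivial. -/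

theorem W12_root {N : Type} [Field N] [NumberField N] (W : Pl N) {z : N} {n : ℕ} (hn : n ≠ 0)
    (h : W.valuation N z ^ n = 1) : W.valuation N z = 1 := by
  rcases lt_trichotomy (W.valuation N z) 1 with h1 | h1 | h1
  · exact absurd h (pow_lt_one₀ zero_le h1 hn).ne
  · exact h1
  · exact absurd h (one_lt_pow₀ h1 hn).ne'

/-- 1 - z^j is divisible by 1 - z. -/
theorem W12_pow {N : Type} [Field N] [NumberField N] (W : Pl N) {z : N}
    (h : W.valuation N z = 1) (j : ℕ) :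
    W.valuation N (1 - z ^ j) ≤ W.valuation N (1 - z) := by
  rw [← mul_neg_geom_sum, map_mul]
  refine mul_le_of_le_one_right' ?_
  refine Valuation.map_sum_le _ fun i _ => ?_
  rw [map_pow, h, one_pow]

/-- p is divisible by 1 - z. -/
theorem W12_p {N : Type} [Field N] [NumberField N] (W : Pl N) {z : N} {p : ℕ}
    (h : W.valuation N z = 1) (hz : z ^ p = 1) (h1 : z ≠ 1) :
    W.valuation N (p : N) ≤ W.valuation N (1 - z) := by
  have e1 : (1 - z) * ∑ i ∈ Finset.range p, z ^ i = 0 := by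
    rw [mul_neg_geom_sum, hz, sub_self]
  have e2 : ∑ i ∈ Finset.range p, z ^ i = 0 := by
    rcases mul_eq_zero.1 e1 with h2 | h2
    · exact absurd (sub_eq_zero.1 h2).symm h1
    · exact h2
  have e3 : (p : N) = ∑ i ∈ Finset.range p, (1 - z ^ i) := by
    rw [Finset.sum_sub_distrib, e2, sub_zero, Finset.sum_const, Finset.card_range, nsmul_eq_mul,
      mul_one]
  rw [e3]
  exact Valuation.map_sum_le _ fun i _ => W12_pow W h i

/-- p is divisible by (1 - z)^(p-1). -/
theorem W12_p2 {N : Type} [Field N] [NumberField N] (W : Pl N) {z : N} {p : ℕ} (hp : p.Prime)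
    (h : W.valuation N z = 1) (hz : IsPrimitiveRoot z p) :
    W.valuation N ((p : N) / (1 - z) ^ (p - 1)) ≤ 1 := by
  classical
  have := Fact.mk hp
  have hz1 : z ≠ 1 := hz.ne_one hp.one_lt
  have hne : (1 - z) ≠ 0 := sub_ne_zero.2 hz1.symm
  have e1 : (p : N) = ∏ μ ∈ primitiveRoots p N, (1 - μ) := by
    rw [← Polynomial.eval_one_cyclotomic_prime (R := N) (p := p),
      Polynomial.cyclotomic_eq_prod_X_sub_primitiveRoots hz, Polynomial.eval_prod]
    refine Finset.prod_congr rfl fun μ _ => ?_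
    rw [Polynomial.eval_sub, Polynomial.eval_X, Polynomial.eval_C]
  have e2 : (p : N) / (1 - z) ^ (p - 1) = ∏ μ ∈ primitiveRoots p N, ((1 - μ) / (1 - z)) := by
    rw [Finset.prod_div_distrib, ← e1, Finset.prod_const, hz.card_primitiveRoots,
      Nat.totient_prime hp]
  rw [e2]
  refine Finset.prod_induction _ (fun a => W.valuation N a ≤ 1) ?_ ?_ ?_
  · intro a b ha hb
    rw [map_mul]
    exact mul_le_one' ha hb
  · exact (map_one _).le
  · intro μ hμ
    rw [mem_primitiveRoots hp.pos] at hμ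
    obtain ⟨j, -, rfl⟩ := hz.eq_pow_of_pow_eq_one hμ.pow_eq_one
    rw [map_div₀]
    exact div_le_one_of_le₀ (W12_pow W h j) zero_le

theorem unr_N {p : ℕ} (hp : p.Prime) (h3 : 3 ≤ p) {C N : Type} [Field C] [NumberField C] [Field N]
    [NumberField N] [Algebra C N] [IsGalois C N] {ζ : C} (hζ : IsPrimitiveRoot ζ p) (R : Set N)
    (hgen : Algebra.adjoin C R = ⊤) (W : Pl N) (w : Pl C) (hw : W.under (𝓞 C) = w)
    (hR : ∀ x ∈ R, ∃ c : Cˣ, x ^ p = algebraMap C N c ∧
      (∃ a : 𝓞 C, (a : C) = c ∧ (p : 𝓞 C) ^ 2 ∣ a - 1) ∧ (p : ℤ) ∣ ord w c) :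
    W.asIdeal.ramificationIdx (𝓞 C) = 1 := by
  classical
  have hvp := w.isPrime
  have hWp := W.isPrime
  have hl : W.asIdeal.LiesOver w.asIdeal := (BF2_mem w W hw).2
  have h1 := Ideal.card_inertia_eq_ramificationIdxIn (G := Gal(N/C)) w.asIdeal W.asIdeal
  have h0 := Ideal.ramificationIdxIn_eq_ramificationIdx w.asIdeal W.asIdeal Gal(N/C)
  have hζN : IsPrimitiveRoot (algebraMap C N ζ) p := hζ.map_of_injective (algebraMap C N).injective
  have hne0 : NeZero p := ⟨hp.ne_zero⟩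
  have hbot : W.asIdeal.inertia Gal(N/C) = ⊥ := by
    rw [eq_bot_iff]
    intro σ hσ
    rw [Subgroup.mem_bot]
    have hfix : ∀ x ∈ R, σ x = x := by
      intro x hx
      obtain ⟨c, hc, ⟨a, ha, b, hb⟩, hord⟩ := hR x hx
      have hcN : algebraMap C N c ≠ 0 := by
        intro h2
        exact c.ne_zero ((map_eq_zero _).1 h2)
      have hx0 : x ≠ 0 := by
        rintro rfl
        rw [zero_pow hp.ne_zero] at hc
        exact hcN hc.symm
      have hσx : σ x ^ p = algebraMap C N c := by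
        rw [← map_pow, hc]
        exact σ.commutes _
      have hzp : (σ x / x) ^ p = 1 := by
        rw [div_pow, hσx, hc, div_self hcN]
      obtain ⟨z, hz⟩ : ∃ z, z = σ x / x := ⟨_, rfl⟩
      rw [← hz] at hzp
      have hσz : σ x = z * x := by
        rw [hz, div_mul_cancel₀ _ hx0]
      by_contra hne
      have hz1 : z ≠ 1 := by
        rintro rfl
        rw [one_mul] at hσz
        exact hne hσz
      have hσfix : σ z = z := by
        obtain ⟨i, -, hi⟩ := hζN.eq_pow_of_pow_eq_one hzp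
        rw [← hi, ← map_pow]
        exact σ.commutes _
      have hzprim : IsPrimitiveRoot z p := by
        have h2 := orderOf_eq_prime (p := p) (hp := ⟨hp⟩) hzp hz1
        rw [← h2]
        exact IsPrimitiveRoot.orderOf z
      have hvz : W.valuation N z = 1 := by
        refine W12_root W hp.ne_zero ?_
        rw [← map_pow, hzp, map_one]
      by_cases hpW : W.valuation N (p : N) = 1
      · -- p is a unit at W
        obtain ⟨k, hk⟩ := hord
        obtain ⟨π, hπ⟩ := HB1_pi w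
        have hd : ord w (π ^ k) = k := by
          rw [ord_zpow, hπ, mul_one]
        have hdN : algebraMap C N ((π ^ k : Cˣ) : C) ≠ 0 := by
          intro h2
          exact (π ^ k : Cˣ).ne_zero ((map_eq_zero _).1 h2)
        have hy : W.valuation N (x / algebraMap C N ((π ^ k : Cˣ) : C)) = 1 := by
          refine W12_root W hp.ne_zero ?_
          rw [← map_pow, div_pow, hc]
          have e1 : algebraMap C N c / algebraMap C N ((π ^ k : Cˣ) : C) ^ p =
              ((Units.map (algebraMap C N : C →* N) (c * ((π ^ k) ^ (p : ℤ))⁻¹) : Nˣ) : N) := by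
            rw [Units.coe_map]
            show _ = algebraMap C N ((c * ((π ^ k) ^ (p : ℤ))⁻¹ : Cˣ) : C)
            rw [Units.val_mul, map_mul, Units.val_inv_eq_inv_val, map_inv₀, zpow_natCast,
              Units.val_pow_eq_pow_val, map_pow, div_eq_mul_inv]
          rw [e1, BF1_val, ord_map W w hw, ord_mul, ord_inv, ord_zpow, hd, hk, add_neg_cancel,
            mul_zero, neg_zero]
          exact WithZero.exp_zero
        have h2 := H28G.K4_iner W σ hσ _ hy.le
        have e2 : σ (x / algebraMap C N ((π ^ k : Cˣ) : C)) - x / algebraMap C N ((π ^ k : Cˣ) : C)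
            = -((1 - z) * (x / algebraMap C N ((π ^ k : Cˣ) : C))) := by
          have e3 : σ (algebraMap C N ((π ^ k : Cˣ) : C)) = algebraMap C N ((π ^ k : Cˣ) : C) :=
            σ.commutes _
          rw [map_div₀, hσz, e3]
          ring
        rw [e2, Valuation.map_neg, map_mul, hy, mul_one] at h2
        have h4 := W12_p W hvz hzp hz1
        rw [hpW] at h4
        exact absurd (h4.trans_lt h2) (lt_irrefl _)
      · -- p is not a unit at W
        have hint : ∀ t : 𝓞 C, W.valuation N (algebraMap C N (t : C)) ≤ 1 := by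
          intro t
          have e : algebraMap C N (t : C) = ((algebraMap (𝓞 C) (𝓞 N) t : 𝓞 N) : N) := rfl
          rw [e]
          exact W.valuation_le_one _
        have hpe : W.valuation N (p : N) = W.valuation N (algebraMap C N ((p : 𝓞 C) : C)) := by
          congr 1
          have e1 : ((p : 𝓞 C) : C) = (p : C) := map_natCast (algebraMap (𝓞 C) C) p
          rw [e1, map_natCast]
        have hple : W.valuation N (p : N) ≤ 1 := by
          rw [hpe]
          exact hint _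
        have hplt : W.valuation N (p : N) < 1 := lt_of_le_of_ne hple hpW
        have hcb : algebraMap C N c = 1 + (p : N) ^ 2 * algebraMap C N (b : C) := by
          rw [← ha]
          have e1 : a = 1 + (p : 𝓞 C) ^ 2 * b := by
            rw [← hb]
            ring
          have e2 : (a : C) = 1 + (p : C) ^ 2 * (b : C) := by
            rw [e1]
            show algebraMap (𝓞 C) C _ = _
            rw [map_add, map_mul, map_pow, map_one, map_natCast]
          rw [e2, map_add, map_mul, map_pow, map_one, map_natCast]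
        have hvc : W.valuation N (x ^ p) = 1 := by
          rw [hc, hcb]
          apply Valuation.map_one_add_of_lt
          rw [map_mul, map_pow]
          refine (mul_le_of_le_one_right' (hint b)).trans_lt ?_
          exact pow_lt_one₀ zero_le hplt two_ne_zero
        have hvx : W.valuation N x = 1 := by
          refine W12_root W hp.ne_zero ?_
          rw [← map_pow]
          exact hvc
        have hzne : (1 - z) ≠ 0 := sub_ne_zero.2 hz1.symm
        have hz1le : W.valuation N (1 - z) ≤ 1 := by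
          refine (Valuation.map_sub_le (v := W.valuation N) (g := 1) ?_ ?_)
          · rw [map_one]
          · exact hvz.le
        -- some root of unity is close to x
        obtain ⟨μ, hμ, hμ2⟩ : ∃ μ ∈ Polynomial.nthRootsFinset p (1 : N),
            W.valuation N ((x - μ) / (1 - z)) ≤ 1 := by
          by_contra hcon
          push Not at hcon
          have e1 : x ^ p - 1 = ∏ μ ∈ Polynomial.nthRootsFinset p (1 : N), (x - μ) := by
            have h5 := congrArg (Polynomial.eval x) (Polynomial.X_pow_sub_one_eq_prod hp.pos hzprim)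
            rw [Polynomial.eval_prod, Polynomial.eval_sub, Polynomial.eval_pow, Polynomial.eval_X,
              Polynomial.eval_one] at h5
            rw [h5]
            refine Finset.prod_congr rfl fun μ _ => ?_
            rw [Polynomial.eval_sub, Polynomial.eval_X, Polynomial.eval_C]
          have e2 : (x ^ p - 1) / (1 - z) ^ p =
              ∏ μ ∈ Polynomial.nthRootsFinset p (1 : N), ((x - μ) / (1 - z)) := by
            rw [Finset.prod_div_distrib, ← e1, Finset.prod_const, hzprim.card_nthRootsFinset]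
          have e3 : (x ^ p - 1) / (1 - z) ^ p =
              algebraMap C N (b : C) * ((p : N) / (1 - z) ^ (p - 1)) ^ 2 * (1 - z) ^ (p - 2) := by
            rw [hc, hcb]
            have e4 : (1 - z) ^ (p - 1) * (1 - z) ^ (p - 1) = (1 - z) ^ p * (1 - z) ^ (p - 2) := by
              rw [← pow_add, ← pow_add]
              congr 1
              omega
            rw [div_pow, ← pow_mul, show (p - 1) * 2 = (p - 1) + (p - 1) by ring, pow_add, e4,
              add_sub_cancel_left]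
            have e5 : (1 - z) ^ p ≠ 0 := pow_ne_zero _ hzne
            have e6 : (1 - z) ^ (p - 2) ≠ 0 := pow_ne_zero _ hzne
            field_simp
          have h6 : W.valuation N ((x ^ p - 1) / (1 - z) ^ p) ≤ 1 := by
            rw [e3, map_mul, map_mul, map_pow, map_pow]
            exact mul_le_one' (mul_le_one' (hint b) (pow_le_one₀ zero_le (W12_p2 W hp hvz hzprim)))
              (pow_le_one₀ zero_le hz1le)
          have h7 : 1 < W.valuation N ((x ^ p - 1) / (1 - z) ^ p) := by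
            rw [e2]
            refine Finset.prod_induction_nonempty _ (fun a => 1 < W.valuation N a) ?_ ?_ ?_
            · intro a b ha hb
              rw [map_mul]
              exact one_lt_mul'' ha hb
            · refine ⟨1, ?_⟩
              rw [Polynomial.mem_nthRootsFinset hp.pos, one_pow]
            · exact hcon
          exact absurd (h6.trans_lt h7) (lt_irrefl _)
        have h8 := H28G.K4_iner W σ hσ _ hμ2
        have hσμ : σ μ = μ := by
          rw [Polynomial.mem_nthRootsFinset hp.pos] at hμ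
          obtain ⟨i, -, hi⟩ := hζN.eq_pow_of_pow_eq_one hμ
          rw [← hi, ← map_pow]
          exact σ.commutes _
        have e9 : σ ((x - μ) / (1 - z)) - (x - μ) / (1 - z) = -x := by
          rw [map_div₀, map_sub, map_sub, map_one, hσfix, hσμ, hσz]
          field_simp
          ring
        rw [e9, Valuation.map_neg, hvx] at h8
        exact lt_irrefl _ h8
    have h9 : (σ : N →ₐ[C] N) = AlgHom.id C N := by
      apply AlgHom.ext_of_adjoin_eq_top hgen
      intro x hx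
      exact hfix x hx
    apply AlgEquiv.ext
    intro x
    exact DFunLike.congr_fun h9 x
  rw [hbot, Subgroup.card_bot, h0] at h1
  exact h1.symm

end H28R
end

-- from Lib.SSG.LT.D
section

/-! # SSG, module (LT): the structures between the curve and the Lubin-Tate frame

`i₀ : Ω →+* PadicAlgCl p` induces `V`; `T N` = the point with parameter `1 / (-p) ^ N`;
`X N a` = the Lubin-Tate coordinate of `act a (T N)`, in `PadicAlgCl p`. -/

open NumberField IsDedekindDomain WeierstrassCurve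

namespace SSG

open H55P (IQ embF eF LF Per IsHecke Pt ac Inert Dec)
open H35P (WAB Ker tt)
open H55K

section defs

variable {F : Type} [Field F] [NumberField F] [IQ F] (A B : F) (Om : ℂ) {Ω : Type} [Field Ω] [DecidableEq Ω]
  [Algebra F Ω] (j : Ω →+* ℂ) (act : 𝓞 F →+* AddMonoid.End (Pt (WAB A B) Ω)) (p : ℕ) [Fact p.Prime]

/-- The points `T N` of order `p ^ N` with parameter `1 / (-p) ^ N`, in the kernel of reduction. -/
structure PtsT (V : ValuationSubring Ω) (T : ℕ → Pt (WAB A B) Ω) : Prop where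
  zero : ∀ N (a : 𝓞 F), act a (T N) = 0 ↔ (p : 𝓞 F) ^ N ∣ a
  down : ∀ N, act (-(p : 𝓞 F)) (T (N + 1)) = T N
  unif : ∀ N (a : 𝓞 F), ¬ (p : 𝓞 F) ^ N ∣ a →
    j (xc (act a (T N))) = (LF F).weierstrassP (eF F a / (-(p : ℂ)) ^ N) / Om ^ 2 ∧
    j (yc (act a (T N))) = (LF F).derivWeierstrassP (eF F a / (-(p : ℂ)) ^ N) / (2 * Om ^ 3)
  ker : ∀ N (a : 𝓞 F), Ker V (act a (T N))

/-- The Lubin-Tate coordinates `X N a` of the points `act a (T N)`. -/
structure XFr {A B : F} (act : 𝓞 F →+* AddMonoid.End (Pt (WAB A B) Ω)) (i₀ : Ω →+* PadicAlgCl p)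
    (T : ℕ → Pt (WAB A B) Ω) (X : ℕ → 𝓞 F → PadicAlgCl p) : Prop where
  small : ∀ N a, ‖X N a‖ < 1
  zero : ∀ N, X N 0 = 0
  inj : ∀ N a b, X N a = X N b ↔ (p : 𝓞 F) ^ N ∣ a - b
  down : ∀ N a, X N a = X (N + 1) (-(p : 𝓞 F) * a)
  g : ∀ N a, X N a = -(p : PadicAlgCl p) * X (N + 1) a + X (N + 1) a ^ (p ^ 2)
  app : ∀ N (ε : ℝ), 0 < ε → ∃ Q : Polynomial F, ∀ a : 𝓞 F,
    ‖X N a - Q.eval₂ (i₀.comp (algebraMap F Ω)) (i₀ (tt (act a (T N))))‖ ≤ ε

end defs

/-- The embedding of `Ω` in `ℂ_p` through `PadicAlgCl p`. -/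
noncomputable def toC {Ω : Type} [Field Ω] {p : ℕ} [Fact p.Prime] (i₀ : Ω →+* PadicAlgCl p) : Ω →+* ℂ_[p] :=
  (algebraMap (PadicAlgCl p) ℂ_[p]).comp i₀

variable {F : Type} [Field F] [NumberField F] [IQ F] {A B : F} {Om : ℂ} {Ω : Type} [Field Ω] [DecidableEq Ω]
  [Algebra F Ω] [IsAlgClosure F Ω] {j : Ω →+* ℂ} {act : 𝓞 F →+* AddMonoid.End (Pt (WAB A B) Ω)}
  {m : Ideal (𝓞 F)} {ψ : Ideal (𝓞 F) →*₀ 𝓞 F} {p : ℕ} [Fact p.Prime]

theorem norm_toC {i₀ : Ω →+* PadicAlgCl p} (x : Ω) : ‖toC i₀ x‖ = ‖i₀ x‖ := by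
  unfold toC
  rw [RingHom.comp_apply, ← PadicComplex.coe_eq, PadicComplex.norm_extends]

end SSG
end

-- from Lib.SSG.LT.PA1
section

/-! # SSG/LT: sums of points -/

open NumberField IsDedekindDomain WeierstrassCurve

namespace SSG.LT

open H55P (IQ Pt)
open H35P (WAB Ker tt)
open H55K

variable {C : Type} [NormedField C] [IsUltrametricDist C] [CompleteSpace C] {X ι : Type} [Fintype ι] {τ : ι → X → C}
  {F : Type} [Field F] [NumberField F] [IQ F] {A B : F} {Ω : Type} [Field Ω] [DecidableEq Ω]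
  [Algebra F Ω] {V : ValuationSubring Ω}

/-- `1 + H` with `H` small. -/
theorem pa1_ne {H : C} {ρ : ℝ} (hρ : ρ < 1) (h : ‖H‖ ≤ ρ) : ‖1 + H‖ = 1 ∧ 1 + H ≠ 0 := by
  have h1 : ‖1 + H‖ = 1 := by
    have h2 : ‖H‖ < ‖(1 : C)‖ := by
      rw [norm_one]
      exact h.trans_lt hρ
    rw [IsUltrametricDist.norm_add_eq_max_of_norm_ne_norm h2.ne', max_eq_left h2.le, norm_one]
  refine ⟨h1, fun h0 => ?_⟩
  rw [h0, norm_zero] at h1
  exact zero_ne_one h1

/-! Chunk PA1 (S/M). PROOF. In the class: d1 = 1 + H, H = -a t₂ (w₁ + w₂) - b (..), ‖H‖ ≤ ρ; n1; lam = n1 (1 + H)⁻¹ (Ring.inverse_eq_inv), ‖lam‖ ≤ ρ; nu; d2 = 1 + (a lam^2 + b lam^3); addt. Cl.add, Cl.mul, Cl.smul, Cl.inv. ‖2‖, ‖3‖ ≤ 1. -/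
theorem cl_addt (hτ : ∀ i x, ‖τ i x‖ ≤ 1) {t₁ w₁ t₂ w₂ : X → C} {a b : C} (ha : ‖a‖ ≤ 1) (hb : ‖b‖ ≤ 1)
    (ht₁ : Cl τ t₁) (hw₁ : Cl τ w₁) (ht₂ : Cl τ t₂) (hw₂ : Cl τ w₂) {ρ : ℝ} (hρ : ρ < 1)
    (s₁ : ∀ x, ‖t₁ x‖ ≤ ρ) (s₂ : ∀ x, ‖w₁ x‖ ≤ ρ) (s₃ : ∀ x, ‖t₂ x‖ ≤ ρ) (s₄ : ∀ x, ‖w₂ x‖ ≤ ρ) :
    (Cl τ fun x => H16S.addt a b (t₁ x) (w₁ x) (t₂ x) (w₂ x)) ∧
      (∀ x, H16S.d1 a b (t₁ x) (w₁ x) (t₂ x) (w₂ x) ≠ 0) ∧ ∀ x, H16S.d2 a b (t₁ x) (w₁ x) (t₂ x) (w₂ x) ≠ 0 := by
  have n2 : ‖(2 : C)‖ ≤ 1 := by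
    have := IsUltrametricDist.norm_natCast_le_one C 2
    simpa using this
  have n3 : ‖(3 : C)‖ ≤ 1 := by
    have := IsUltrametricDist.norm_natCast_le_one C 3
    simpa using this
  have b1 : ∀ x, ‖t₁ x‖ ≤ 1 := fun x => (s₁ x).trans hρ.le
  have b2 : ∀ x, ‖w₁ x‖ ≤ 1 := fun x => (s₂ x).trans hρ.le
  have b3 : ∀ x, ‖t₂ x‖ ≤ 1 := fun x => (s₃ x).trans hρ.le
  have b4 : ∀ x, ‖w₂ x‖ ≤ 1 := fun x => (s₄ x).trans hρ.le
  -- d1
  have c1 : Cl τ fun x => -(a * (t₂ x * (w₁ x + w₂ x)) + b * (w₁ x ^ 2 + w₁ x * w₂ x + w₂ x ^ 2)) :=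
    (((Cl.mul hτ ht₂ (hw₁.add hw₂)).smul hτ ha).add ((((hw₁.pow hτ 2).add (Cl.mul hτ hw₁ hw₂)).add (hw₂.pow hτ 2)).smul hτ hb)).neg hτ
  have e1 : ∀ x, ‖-(a * (t₂ x * (w₁ x + w₂ x)) + b * (w₁ x ^ 2 + w₁ x * w₂ x + w₂ x ^ 2))‖ ≤ ρ := by
    intro x
    rw [norm_neg]
    refine pc_add (pc_mul ha (pc_mul (b3 x) (pc_add (s₂ x) (s₄ x)))) (pc_mul hb (pc_add (pc_add ?_ (pc_mul (b2 x) (s₄ x))) ?_))
    · rw [pow_two]
      exact pc_mul (b2 x) (s₂ x)
    · rw [pow_two]
      exact pc_mul (b4 x) (s₄ x)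
  have f1 : ∀ x, H16S.d1 a b (t₁ x) (w₁ x) (t₂ x) (w₂ x) = 1 + -(a * (t₂ x * (w₁ x + w₂ x)) + b * (w₁ x ^ 2 + w₁ x * w₂ x + w₂ x ^ 2)) := by
    intro x
    unfold H16S.d1
    ring
  have g1 := Cl.inv hτ c1 hρ e1
  -- lam
  have c2 : Cl τ fun x => t₁ x ^ 2 + t₁ x * t₂ x + t₂ x ^ 2 + a * w₁ x ^ 2 :=
    (((ht₁.pow hτ 2).add (Cl.mul hτ ht₁ ht₂)).add (ht₂.pow hτ 2)).add ((hw₁.pow hτ 2).smul hτ ha)
  have hlam : Cl τ fun x => H16S.lam a b (t₁ x) (w₁ x) (t₂ x) (w₂ x) := by
    refine (Cl.mul hτ c2 g1).congr fun x => ?_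
    unfold H16S.lam H16S.n1
    rw [Ring.inverse_eq_inv', f1 x]
  have elam : ∀ x, ‖H16S.lam a b (t₁ x) (w₁ x) (t₂ x) (w₂ x)‖ ≤ ρ := by
    intro x
    unfold H16S.lam H16S.n1
    rw [Ring.inverse_eq_inv', f1 x, mul_comm]
    refine pc_mul ?_ (pc_add (pc_add (pc_add ?_ (pc_mul (b1 x) (s₃ x))) ?_) (pc_mul ha ?_))
    · rw [norm_inv, (pa1_ne hρ (e1 x)).1, inv_one]
    · rw [pow_two]
      exact pc_mul (b1 x) (s₁ x)
    · rw [pow_two]
      exact pc_mul (b3 x) (s₃ x)
    · rw [pow_two]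
      exact pc_mul (b2 x) (s₂ x)
  have elam1 : ∀ x, ‖H16S.lam a b (t₁ x) (w₁ x) (t₂ x) (w₂ x)‖ ≤ 1 := fun x => (elam x).trans hρ.le
  -- d2
  have c3 : Cl τ fun x => a * H16S.lam a b (t₁ x) (w₁ x) (t₂ x) (w₂ x) ^ 2 + b * H16S.lam a b (t₁ x) (w₁ x) (t₂ x) (w₂ x) ^ 3 :=
    ((hlam.pow hτ 2).smul hτ ha).add ((hlam.pow hτ 3).smul hτ hb)
  have e3 : ∀ x, ‖a * H16S.lam a b (t₁ x) (w₁ x) (t₂ x) (w₂ x) ^ 2 + b * H16S.lam a b (t₁ x) (w₁ x) (t₂ x) (w₂ x) ^ 3‖ ≤ ρ := by
    intro x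
    refine pc_add (pc_mul ha ?_) (pc_mul hb ?_)
    · rw [pow_two]
      exact pc_mul (elam1 x) (elam x)
    · rw [pow_succ]
      exact pc_mul (pc_pow (elam1 x) 2) (elam x)
  have f3 : ∀ x, H16S.d2 a b (t₁ x) (w₁ x) (t₂ x) (w₂ x) =
      1 + (a * H16S.lam a b (t₁ x) (w₁ x) (t₂ x) (w₂ x) ^ 2 + b * H16S.lam a b (t₁ x) (w₁ x) (t₂ x) (w₂ x) ^ 3) := by
    intro x
    unfold H16S.d2
    ring
  have g3 := Cl.inv hτ c3 hρ e3
  have hnu : Cl τ fun x => H16S.nu a b (t₁ x) (w₁ x) (t₂ x) (w₂ x) := (hw₁.sub hτ (Cl.mul hτ hlam ht₁)).congr fun x => rfl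
  have c4 : Cl τ fun x => (2 * a) * H16S.lam a b (t₁ x) (w₁ x) (t₂ x) (w₂ x) + (3 * b) * H16S.lam a b (t₁ x) (w₁ x) (t₂ x) (w₂ x) ^ 2 :=
    (hlam.smul hτ (pc_mul n2 ha)).add ((hlam.pow hτ 2).smul hτ (pc_mul n3 hb))
  refine ⟨((ht₁.add ht₂).add (Cl.mul hτ (Cl.mul hτ c4 hnu) g3)).congr fun x => ?_, fun x => ?_, fun x => ?_⟩
  · unfold H16S.addt
    rw [Ring.inverse_eq_inv', f3 x]
  · rw [f1 x]
    exact (pa1_ne hρ (e1 x)).2
  · rw [f3 x]
    exact (pa1_ne hρ (e3 x)).2

end SSG.LT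
end

-- from Lib.SSG.LT.PA2
section

/-! # SSG/LT: sums of points -/

open NumberField IsDedekindDomain WeierstrassCurve

namespace SSG.LT

open H55P (IQ Pt)
open H35P (WAB Ker tt)
open H55K

variable {C : Type} [NormedField C] [IsUltrametricDist C] [CompleteSpace C] {X ι : Type} [Fintype ι] {τ : ι → X → C}
  {F : Type} [Field F] [NumberField F] [IQ F] {A B : F} {Ω : Type} [Field Ω] [DecidableEq Ω]
  [Algebra F Ω] {V : ValuationSubring Ω}

/-- comparison of the values -/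
theorem pa2_le {Ω C : Type} [Field Ω] [NormedField C] {V : ValuationSubring Ω} {i : Ω →+* C} (hi : ∀ x, x ∈ V ↔ ‖i x‖ ≤ 1) {x y : Ω}
    (h : V.valuation x ≤ V.valuation y) : ‖i x‖ ≤ ‖i y‖ := by
  by_cases hy : y = 0
  · rw [hy, map_zero, le_zero_iff, map_eq_zero] at h
    rw [h, hy]
  · have h1 : V.valuation (x / y) ≤ 1 := by
      rw [map_div₀]
      exact div_le_one_of_le₀ h zero_le
    have h2 := (hi _).1 ((V.valuation_le_one_iff _).1 h1)
    rw [map_div₀, norm_div, div_le_one₀ (norm_pos_iff.2 ((map_ne_zero i).2 hy))] at h2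
    exact h2

/-- the coordinate w is in the class -/
theorem pa2_ww (hτ : ∀ i x, ‖τ i x‖ ≤ 1) {i : Ω →+* C} (hi : ∀ x, x ∈ V ↔ ‖i x‖ ≤ 1) (hV : GV A B V) {P : X → Pt (WAB A B) Ω}
    (hker : ∀ x, Ker V (P x)) (hcl : Cl τ fun x => i (tt (P x))) {ρ : ℝ} (hρ : ρ < 1) (hs : ∀ x, ‖i (tt (P x))‖ ≤ ρ) :
    (Cl τ fun x => i (H16S.ww (P x))) ∧ ∀ x, ‖i (H16S.ww (P x))‖ ≤ ρ := by
  have hv1 : ∀ x, ‖i (vv (P x))‖ ≤ 1 := fun x =>
    (hi _).1 ((V.valuation_le_one_iff _).1 (v0_eq hV (hker x)).2.1.le)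
  have hv : Cl τ fun x => i (vv (P x)) := by
    refine cl_v hτ ((hi _).1 hV.a) ((hi _).1 hV.b) hcl hρ hs hv1 fun x => ?_
    have h1 := congrArg i (v0_eq hV (hker x)).1
    simp only [map_add, map_mul, map_pow, map_one] at h1
    exact h1
  have e : ∀ x, i (H16S.ww (P x)) = i (tt (P x)) ^ 3 * i (vv (P x)) := by
    intro x
    rw [(v0_eq hV (hker x)).2.2, map_mul, map_pow]
  refine ⟨(Cl.mul hτ (hcl.pow hτ 3) hv).congr e, fun x => ?_⟩
  rw [e x]
  have e2 : i (tt (P x)) ^ 3 * i (vv (P x)) = (i (tt (P x)) ^ 2 * i (vv (P x))) * i (tt (P x)) := by ring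
  rw [e2]
  exact pc_mul (pc_mul (pc_pow ((hs x).trans hρ.le) 2) (hv1 x)) (hs x)

/-! Chunk PA2 (M). PROOF. ρ = max of the two bounds (and 0). w = t^3 v (v0_eq), v in the class (cl_v mapped by i as in PC3), so i (ww P), i (ww Q) are in the class and small. cl_addt in C with a = i (algebraMap A) .. gives the class and
d1, d2 ≠ 0 in C; i (d1 ..) = d1 (i ..), i (lam ..) = lam .. (Ring.inverse_eq_inv, map_inv₀; unfold, simp [map_add, map_mul ..]), so d1, d2 ≠ 0 in Ω and H16S.add_tw (curve W = (WAB A B)⁄Ω with its instance IsShortNF, a₄ = algebraMap A,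
a₆ = algebraMap B: H55K.base_a4, base_a6; 2 ≠ 0 in Ω: hV.two) gives tt (P + Q) = addt ..; Ch P, Ch Q: H16S.ker_tw. ker: H55K.kadd; small: H55K.tt_add2 (or the formula): ‖i tt (P+Q)‖ ≤ ρ: V(tt (P+Q) - tt P - tt Q) ≤ c^2;
simpler: norm of addt ≤ ρ: use V-valuation comparison V x ≤ V y iff ‖i x‖ ≤ ‖i y‖ (x / y ∈ V): V(tt(P+Q)) ≤ max (V tt P) (V tt Q). -/
theorem PC.add (hτ : ∀ i x, ‖τ i x‖ ≤ 1) {i : Ω →+* C} (hi : ∀ x, x ∈ V ↔ ‖i x‖ ≤ 1)
    (hV : GV A B V) {P Q : X → Pt (WAB A B) Ω} (hP : PC V i τ P) (hQ : PC V i τ Q) :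
    PC V i τ fun x => P x + Q x := by
  obtain ⟨ρ₁, hρ₁, s1⟩ := hP.small
  obtain ⟨ρ₂, hρ₂, s2⟩ := hQ.small
  have hρ : max ρ₁ ρ₂ < 1 := max_lt hρ₁ hρ₂
  have s1' : ∀ x, ‖i (tt (P x))‖ ≤ max ρ₁ ρ₂ := fun x => (s1 x).trans (le_max_left _ _)
  have s2' : ∀ x, ‖i (tt (Q x))‖ ≤ max ρ₁ ρ₂ := fun x => (s2 x).trans (le_max_right _ _)
  obtain ⟨w1, w1'⟩ := pa2_ww hτ hi hV hP.ker hP.cl hρ s1'
  obtain ⟨w2, w2'⟩ := pa2_ww hτ hi hV hQ.ker hQ.cl hρ s2'
  obtain ⟨hcl, hd1, hd2⟩ := cl_addt hτ ((hi _).1 hV.a) ((hi _).1 hV.b) hP.cl w1 hQ.cl w2 hρ s1' w1' s2' w2'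
  have h2 : (2 : Ω) ≠ 0 := by
    intro h0
    have h1 := hV.two
    rw [h0, map_zero] at h1
    exact zero_ne_one h1
  have key : ∀ x, i (tt (P x + Q x)) = H16S.addt (i (algebraMap F Ω A)) (i (algebraMap F Ω B)) (i (tt (P x))) (i (H16S.ww (P x)))
      (i (tt (Q x))) (i (H16S.ww (Q x))) := by
    intro x
    have f1 : H16S.d1 (algebraMap F Ω A) (algebraMap F Ω B) (tt (P x)) (H16S.ww (P x)) (tt (Q x)) (H16S.ww (Q x)) ≠ 0 := by
      intro h0
      apply hd1 x
      have h1 := congrArg i h0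
      rw [map_zero] at h1
      rw [← h1]
      unfold H16S.d1
      simp only [map_add, map_sub, map_mul, map_pow, map_one]
    have u1 := isUnit_iff_ne_zero.2 f1
    have f2 : H16S.d2 (algebraMap F Ω A) (algebraMap F Ω B) (tt (P x)) (H16S.ww (P x)) (tt (Q x)) (H16S.ww (Q x)) ≠ 0 := by
      intro h0
      apply hd2 x
      have h1 := congrArg i h0
      rw [map_zero] at h1
      rw [← h1]
      unfold H16S.d2
      simp only [map_add, map_mul, map_pow, map_one, H16S.map_lam i u1]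
    have u2 := isUnit_iff_ne_zero.2 f2
    have h3 := H16S.add_tw (W := (WAB A B)⁄Ω) h2 (H16S.ker_tw (gv_good hV).toIntW (hP.ker x)).1 (H16S.ker_tw (gv_good hV).toIntW (hQ.ker x)).1 f1 f2
    have h4 := congrArg i h3.2.1
    exact h4.trans (H16S.map_add' i u1 u2).1
  refine ⟨fun x => kadd hV (hP.ker x) (hQ.ker x), ⟨max ρ₁ ρ₂, hρ, fun x => ?_⟩, hcl.congr key⟩
  obtain ⟨c, hc⟩ : ∃ c, c = max (V.valuation (tt (P x))) (V.valuation (tt (Q x))) := ⟨_, rfl⟩
  have hc1 : c < 1 := by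
    rw [hc]
    exact max_lt (ttlt hV (hP.ker x)) (ttlt hV (hQ.ker x))
  have hcP : V.valuation (tt (P x)) ≤ c := by
    rw [hc]
    exact le_max_left _ _
  have hcQ : V.valuation (tt (Q x)) ≤ c := by
    rw [hc]
    exact le_max_right _ _
  have h5 := tt_add2 hV (hP.ker x) (hQ.ker x) c hcP hcQ
  have h6 : V.valuation (tt (P x + Q x)) ≤ c := by
    have e : tt (P x + Q x) = (tt (P x + Q x) - tt (P x) - tt (Q x)) + (tt (P x) + tt (Q x)) := by ring
    rw [e]
    refine Valuation.map_add_le _ (h5.trans ?_) (Valuation.map_add_le _ hcP hcQ)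
    rw [pow_two]
    exact mul_le_of_le_one_left' hc1.le
  rcases max_choice (V.valuation (tt (P x))) (V.valuation (tt (Q x))) with h7 | h7
  · rw [hc, h7] at h6
    exact (pa2_le hi h6).trans (s1' x)
  · rw [hc, h7] at h6
    exact (pa2_le hi h6).trans (s2' x)

end SSG.LT
end

-- from Lib.SSG.LT.XM1
section

/-! # SSG/LT: small lemmas for the coordinates -/

open NumberField IsDedekindDomain WeierstrassCurve

namespace SSG.LT

open H55P (IQ embF eF LF Per IsHecke Pt ac Inert Dec)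
open H35P (WAB Ker tt)
open H55K

/-! Chunk XM1 (S/M). PROOF. Q = X^q - C p X - C x ≠ 0 in K[X] (coefficient q is 1, q ≥ 2), splits (IsAlgClosed.splits); y is a root of Q.map φ, whose roots are the images of the roots of Q (Polynomial.roots_map / Splits.roots_map,
Multiset.mem_map). -/
theorem xm1_alg {K L : Type} [Field K] [IsAlgClosed K] [Field L] (φ : K →+* L) {q : ℕ} (hq : 2 ≤ q) (c x : K) {y : L}
    (h : -(φ c) * y + y ^ q = φ x) : ∃ z : K, φ z = y := by
  classical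
  obtain ⟨Q, hQ⟩ : ∃ Q : Polynomial K, Q = Polynomial.X ^ q + (Polynomial.C (-c) * Polynomial.X +
      Polynomial.C (-x)) := ⟨_, rfl⟩
  have hdeg : (Polynomial.C (-c) * Polynomial.X + Polynomial.C (-x)).degree <
      (q : WithBot ℕ) := by
    refine lt_of_le_of_lt Polynomial.degree_linear_le ?_
    exact_mod_cast (by omega : 1 < q)
  have hQm : Q.Monic := by
    rw [hQ]
    exact Polynomial.monic_X_pow_add hdeg
  have hQ0 : Q ≠ 0 := hQm.ne_zero
  have hroot : y ∈ (Q.map φ).roots := by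
    rw [Polynomial.mem_roots (by rw [Polynomial.map_ne_zero_iff φ.injective]; exact hQ0),
      Polynomial.IsRoot.def, hQ]
    simp only [Polynomial.map_add, Polynomial.map_pow, Polynomial.map_X, Polynomial.map_mul,
      Polynomial.map_C, Polynomial.eval_add, Polynomial.eval_pow, Polynomial.eval_X,
      Polynomial.eval_mul, Polynomial.eval_C]
    rw [map_neg, map_neg]
    linear_combination h
  have hs : Q.Splits := IsAlgClosed.splits Q
  rw [hs.roots_map φ] at hroot
  obtain ⟨z, -, hz⟩ := Multiset.mem_map.1 hroot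
  exact ⟨z, hz⟩

/-! PROOF. p prime in 𝓞 F etc. not needed. tt P = 0 iff P = 0 (H55K.tt_zero). Both nonzero: H16S.ww equal by H16S.w_unique (Eqn_ww with the curve (WAB A B)⁄Ω, base_a4, base_a6; ker_tw: V (ww) = V(tt)^3 < 1), yc = ww⁻¹, xc = tt * yc, pt_ext. -/
theorem xm1_inj {F : Type} [Field F] [NumberField F] [IQ F] {A B : F} {Ω : Type} [Field Ω] [DecidableEq Ω]
    [Algebra F Ω] {V : ValuationSubring Ω} (hG : GV A B V) {P Q : Pt (WAB A B) Ω} (hP : Ker V P) (hQ : Ker V Q)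
    (h : tt P = tt Q) : P = Q :=
  H16S.tt_inj (gv_good hG).toIntW hP hQ h

/-! PROOF. The points act a T with act b T = 0 lie in Tor act b, a finite set (S ∪ {0}, H55K.exists_TN; act b (act a T) = act a (act b T)). The maximum of the finitely many norms ‖i (tt Q)‖ < 1 (V.valuation (tt Q) < 1: H55K.ttlt; ‖i x‖ < 1
iff V.valuation x < 1: from hi for x⁻¹). -/
theorem xm1_bd {F : Type} [Field F] [NumberField F] [IQ F] {A B : F} {Om : ℂ} {Ω : Type} [Field Ω] [DecidableEq Ω]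
    [Algebra F Ω] {j : Ω →+* ℂ} {act : 𝓞 F →+* AddMonoid.End (Pt (WAB A B) Ω)} {V : ValuationSubring Ω}
    (h : CMA F A B Om j act) (hG : GV A B V) {C : Type} [NormedField C] (i : Ω →+* C) (hi : ∀ x, x ∈ V ↔ ‖i x‖ ≤ 1)
    {b : 𝓞 F} (hb : b ≠ 0) {T : Pt (WAB A B) Ω} (hT : act b T = 0) (hK : ∀ a, Ker V (act a T)) :
    ∃ ρ : ℝ, ρ < 1 ∧ ∀ a, ‖i (tt (act a T))‖ ≤ ρ := by
  classical
  have hlt : ∀ x : Ω, V.valuation x < 1 → ‖i x‖ < 1 := by
    intro x hx
    by_cases hx0 : x = 0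
    · rw [hx0, map_zero, norm_zero]
      exact one_pos
    · by_contra hcon
      rw [not_lt] at hcon
      have h1 : ‖i x⁻¹‖ ≤ 1 := by
        rw [map_inv₀, norm_inv]
        exact inv_le_one_of_one_le₀ hcon
      have h2 := (V.valuation_le_one_iff _).2 ((hi _).2 h1)
      rw [map_inv₀] at h2
      have h3 : V.valuation x ≠ 0 := (Valuation.ne_zero_iff _).2 hx0
      have h4 : 1 < (V.valuation x)⁻¹ := (one_lt_inv₀ (zero_lt_iff.2 h3)).2 hx
      exact absurd h2 (not_le.2 h4)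
  obtain ⟨S, hS, -⟩ := exists_TN h hb
  obtain ⟨U, hU⟩ : ∃ U : Finset (Pt (WAB A B) Ω), U = (insert 0 S).filter fun P => Ker V P :=
    ⟨_, rfl⟩
  have hUne : (U.image fun P => ‖i (tt P)‖).Nonempty := by
    refine ⟨_, Finset.mem_image_of_mem _ (a := 0) ?_⟩
    rw [hU, Finset.mem_filter]
    exact ⟨Finset.mem_insert_self _ _, trivial⟩
  refine ⟨(U.image fun P => ‖i (tt P)‖).max' hUne, ?_, ?_⟩
  · rw [Finset.max'_lt_iff]
    intro t ht
    obtain ⟨P, hP, rfl⟩ := Finset.mem_image.1 ht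
    rw [hU, Finset.mem_filter] at hP
    exact hlt _ (ttlt hG hP.2)
  · intro a
    apply Finset.le_max'
    refine Finset.mem_image_of_mem _ (a := act a T) ?_
    rw [hU, Finset.mem_filter]
    refine ⟨?_, hK a⟩
    have h1 : act b (act a T) = 0 := by
      have h2 : act b (act a T) = act (b * a) T := by rw [map_mul]; rfl
      have h3 : act a (act b T) = act (a * b) T := by rw [map_mul]; rfl
      rw [h2, mul_comm, ← h3, hT, map_zero]
    by_cases h4 : act a T = 0
    · rw [h4]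
      exact Finset.mem_insert_self _ _
    · exact Finset.mem_insert_of_mem ((hS _).2 ⟨h1, h4⟩)

end SSG.LT
end

-- from Lib.H55P.I1
section

open NumberField IsDedekindDomain

namespace H55P

open H55N
open H55B (g)

variable {F : Type} [Field F] [NumberField F] [IQ F] {K : Type} [Field K] [NumberField K]
  [Algebra F K] {m : ℕ}

/-! The exact criterion, analytic side: integrality of the L-values, and the twisted L-value is a unit if and only if the
untwisted one is and the Euler factors are. -/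

/-- The L-series of h converges for Re s > 3/2, continues to Re s > 1/2 and its value at 1, divided by
the power of the period, is integral at V. -/
def LVI (F : Type) [Field F] [NumberField F] [IQ F] {K : Type} [Field K] [NumberField K] [Algebra F K]
    (V : ValuationSubring ℂ) (Om : ℂ) (h : Ideal (𝓞 K) →*₀ ℂ) : Prop :=
  ∃ Λ : ℂ → ℂ, AnalyticOnNhd ℂ Λ {s | 1 / 2 < s.re} ∧
    (∀ s : ℂ, 3 / 2 < s.re → HasSum (tm h s) (Λ s)) ∧
    V.valuation (Λ 1 / Om ^ Module.finrank F K) ≤ 1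

/-- The term at 1 of a prime is 0 or the inverse of the conjugate. -/
theorem tm_one (p : ℕ) (hp : p.Prime) (V : ValuationSubring ℂ) (hV : V.valuation (p : ℂ) < 1)
    {M : Ideal (𝓞 F)} {ψ : Ideal (𝓞 F) →*₀ 𝓞 F} (h : IsHecke M ψ) (w : HeightOneSpectrum (𝓞 K))
    (hwp : IsCoprime w.asIdeal (Ideal.span {(p : 𝓞 K)})) :
    V.valuation (1 - tm (PsiP K ψ) 1 w.asIdeal) ≤ 1 ∧
      (V.valuation (1 - tm (PsiP K ψ) 1 w.asIdeal) = 1 ↔
        V.valuation (1 - (starRingEnd ℂ) (PsiP K ψ w.asIdeal)) = 1) := by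
  by_cases h0 : PsiP K ψ w.asIdeal = 0
  · have h1 : tm (PsiP K ψ) 1 w.asIdeal = 0 := by
      unfold tm
      rw [h0, zero_mul]
    rw [h1, h0, map_zero, sub_zero, map_one]
    exact ⟨le_rfl, Iff.rfl⟩
  · have hcop := (PsiP_ne h w.asIdeal w.ne_bot).1 h0
    have hn := PsiP_norm h w.asIdeal w.ne_bot hcop
    have hu := PsiP_unit p hp h w.asIdeal w.ne_bot hcop hwp V hV
    have hc0 : (starRingEnd ℂ) (PsiP K ψ w.asIdeal) ≠ 0 := by
      rw [Ne, map_eq_zero]
      exact h0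
    have hN : (Ideal.absNorm w.asIdeal : ℂ) =
        PsiP K ψ w.asIdeal * (starRingEnd ℂ) (PsiP K ψ w.asIdeal) := by
      rw [Complex.mul_conj, Complex.normSq_eq_norm_sq, hn]
      push_cast
      rfl
    have h1 : 1 - tm (PsiP K ψ) 1 w.asIdeal =
        -((1 - (starRingEnd ℂ) (PsiP K ψ w.asIdeal)) / (starRingEnd ℂ) (PsiP K ψ w.asIdeal)) := by
      unfold tm
      rw [Complex.cpow_neg_one, hN]
      field_simp
      ring
    rw [h1, Valuation.map_neg, map_div₀, hu.2, div_one]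
    refine ⟨?_, Iff.rfl⟩
    exact (Valuation.map_sub _ _ _).trans (max_le (by rw [map_one]) hu.2.le)

/-- THE EXACT CRITERION for one twist. -/
theorem twist_main (p : ℕ) (hp : p.Prime) {M : Ideal (𝓞 F)} {ψ : Ideal (𝓞 F) →*₀ 𝓞 F}
    (h : IsHecke M ψ) (hMp : IsCoprime M (Ideal.span {(p : 𝓞 F)})) (hK : UnrP p K)
    (Ac Bc Om : ℂ) (hper : Per F Ac Bc Om) (V : ValuationSubring ℂ)
    (hV : V.valuation (p : ℂ) < 1) (hg : GoodV Ac Bc V) (hNT : NTP K p M ψ V) (f : Ideal (𝓞 K))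
    (χ : Ideal (𝓞 K) →*₀ ℂ) (hχ : PChr p f χ) :
    ∃ Λ : ℂ → ℂ, AnalyticOnNhd ℂ Λ {s | 1 / 2 < s.re} ∧
      (∀ s : ℂ, 3 / 2 < s.re → HasSum (tm (PsiP K ψ * χ : Ideal (𝓞 K) →*₀ ℂ) s) (Λ s)) ∧
      V.valuation (Λ 1 / Om ^ Module.finrank F K) ≤ 1 ∧
      ∀ ΛK : ℂ → ℂ, AnalyticOnNhd ℂ ΛK {s | 1 / 2 < s.re} →
        (∀ s : ℂ, 3 / 2 < s.re → HasSum (tm (PsiP K ψ) s) (ΛK s)) →
        V.valuation (ΛK 1 / Om ^ Module.finrank F K) ≤ 1 →
        (V.valuation (Λ 1 / Om ^ Module.finrank F K) = 1 ↔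
          V.valuation (ΛK 1 / Om ^ Module.finrank F K) = 1 ∧
          ∀ w : HeightOneSpectrum (𝓞 K), f ≤ w.asIdeal →
            V.valuation (1 - (starRingEnd ℂ) (PsiP K ψ w.asIdeal)) = 1) := by
  classical
  obtain ⟨l, hl⟩ := h.toMod p hMp
  obtain ⟨w0, hw0l, hw0M⟩ := pt9_prime K hl
  obtain ⟨m, hm⟩ : ∃ m, Module.finrank F K = m + 1 :=
    ⟨Module.finrank F K - 1, (Nat.sub_add_cancel Module.finrank_pos).symm⟩
  have hJM : mK K M * f ≤ mK K M := Ideal.mul_le_left
  have hJ0 : mK K M * f ≠ ⊥ := mul_ne_zero (pt9_mK_ne h.ne) hχ.ne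
  have hJ1 : mK K M * f ≠ ⊤ := by
    intro h1
    apply w0.isPrime.ne_top
    rw [← top_le_iff, ← h1]
    exact hJM.trans hw0M
  have hg0 : Ideal.span {(p : 𝓞 K)} * (mK K M * f) ≠ ⊥ := by
    refine mul_ne_zero ?_ hJ0
    have h1 : Ideal.span {(p : 𝓞 K)} ≠ ⊥ := by
      rw [Ne, Ideal.span_singleton_eq_bot, Nat.cast_eq_zero]
      exact hp.ne_zero
    exact h1
  have hgJ : Ideal.span {(p : 𝓞 K)} * (mK K M * f) ≤ mK K M * f := Ideal.mul_le_right
  obtain ⟨ι, hι, b, c₀, T, hcd⟩ := exists_CDJ (mK K M * f) (Ideal.span {(p : 𝓞 K)} * (mK K M * f))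
    hJ0 hg0 hgJ hJ1
  have hbp : ∀ i, IsCoprime (b i) (Ideal.span {(p : 𝓞 K)}) := fun i =>
    (hcd.cop i).of_mul_right_left
  have hlam : ∀ i, c₀ i ∉ Ideal.span {algebraMap (𝓞 F) (𝓞 K) l} * b i := by
    intro i hi
    refine hcd.prim i w0 (hJM.trans hw0M) (Ideal.mul_mono_left ?_ hi)
    rw [Ideal.span_singleton_le_iff_mem]
    exact hw0l
  have hcore := fun i => core p hp hl K m hm hK (b i) f (hcd.ne i) (hbp i) hχ.ne hχ.cop (c₀ i)
    (hcd.mem i) (hlam i)
  choose Bad hBad hcore using hcore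
  have hnop := fun i => nopoles p hp hl K m hm (b i) f (hcd.ne i) hχ.ne (c₀ i) (hcd.mem i) (hlam i)
  choose Z0 hZ0 hZ0s using hnop
  obtain ⟨c, q, hs, hcb, hun⟩ := exists_smoothP p hp h hMp V hV hNT m
    ((⋃ i, Bad i) ∪ ⋃ i, {w : Ideal (𝓞 K) | b i ≤ w})
    ((Set.finite_iUnion hBad).union (Set.finite_iUnion fun i => pt9_finite (b i) (hcd.ne i)))
  have hcp : ∀ j, (c j).IsPrime := fun j => (hcb j).1
  have hbc : ∀ i j, IsCoprime (b i) (c j) := by
    intro i j
    rw [Ideal.isCoprime_iff_sup_eq]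
    by_contra h
    have hmax : (c j).IsMaximal := (hcp j).isMaximal (pt3_ne hs j)
    have h1 : c j ≤ b i ⊔ c j := le_sup_right
    have h2 : b i ⊔ c j = c j := (hmax.eq_of_le h h1).symm
    apply (hcb j).2
    refine Or.inr (Set.mem_iUnion.2 ⟨i, ?_⟩)
    show b i ≤ c j
    rw [← h2]
    exact le_sup_left
  have hZex := fun i => hcore i c q hs (fun j hj => (hcb j).2 (Or.inl (Set.mem_iUnion.2 ⟨i, hj⟩)))
  choose Z hZa hZs hZi using hZex
  have hkap := fun i => exists_kappaP p hp h hMp f χ hχ (b i) (hcd.ne i) (hcd.cop i) (c₀ i)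
    (hcd.mem i) (hcd.prim i)
  choose κ κ' ζ hκu hζ hκζ hκ using hkap
  have hC : CoefP F (mK K M * f) ι b c₀ (PsiP K ψ * χ) κ := coef_mulP h hχ.zero
    (fun a => hχ.norm_le hp.ne_zero a)
    (fun i x hx a ha => ⟨(hκ i x hx a ha).1, (hκ i x hx a ha).2.1⟩)
  have hC' : CoefP F (mK K M * f) ι b c₀ (PsiP K ψ * oneI f) κ' := coef_mulP h (pt3_oneI_zero f)
    (pt3_oneI_norm_le f)
    (fun i x hx a ha => ⟨(hκ i x hx a ha).1, (hκ i x hx a ha).2.2⟩)
  have hNb : ∀ i, Ideal.absNorm (b i) ≠ 0 := fun i => by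
    rw [Ne, Ideal.absNorm_eq_zero_iff]
    exact hcd.ne i
  -- the smoothed functions
  have hZsum : ∀ i s, 3 / 2 < s.re → HasSum (fun x : T i => gw c q x * nf F s (x : 𝓞 K)) (Z i s) :=
    fun i s hs' => hZs i (T i) (hcd.trans i) s hs'
  have e1 : ∀ s : ℂ, 3 / 2 < s.re →
      (∏ j, (1 - (q j : ℂ) * tm (PsiP K ψ * χ : Ideal (𝓞 K) →*₀ ℂ) s (c j))) *
      ∑' a, tm (PsiP K ψ * χ : Ideal (𝓞 K) →*₀ ℂ) s a =
        ∑ i, κ i * (Ideal.absNorm (b i) : ℂ) ^ s * Z i s :=
    fun s hs' => series_eqP hgJ hJ1 hcd hC hs hcp hbc Z s hs' fun i => hZsum i s hs'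
  have e2 : ∀ s : ℂ, 3 / 2 < s.re →
      (∏ j, (1 - (q j : ℂ) * tm (PsiP K ψ * oneI f : Ideal (𝓞 K) →*₀ ℂ) s (c j))) *
      ∑' a, tm (PsiP K ψ * oneI f : Ideal (𝓞 K) →*₀ ℂ) s a =
        ∑ i, κ' i * (Ideal.absNorm (b i) : ℂ) ^ s * Z i s :=
    fun s hs' => series_eqP hgJ hJ1 hcd hC' hs hcp hbc Z s hs' fun i => hZsum i s hs'
  have e3 : ∀ s : ℂ, 3 / 2 < s.re → HasSum (tm (PsiP K ψ * χ : Ideal (𝓞 K) →*₀ ℂ) s)
      (∑ i, κ i * (Ideal.absNorm (b i) : ℂ) ^ s * Z0 i s) :=
    fun s hs' => series_eq0P hgJ hJ1 hcd hC Z0 s fun i => hZ0s i (T i) (hcd.trans i) s hs'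
  have hGa : ∀ κ : ι → ℂ, AnalyticOnNhd ℂ
      (fun s : ℂ => ∑ i, κ i * (Ideal.absNorm (b i) : ℂ) ^ s * Z i s) {s | 1 / 2 < s.re} := by
    intro κ s hs'
    exact Finset.analyticAt_fun_sum _ fun i _ =>
      (analyticAt_const.mul (pt3_pow_analytic _ (hNb i) Set.univ s trivial)).mul (hZa i s hs')
  have hZ0a : AnalyticOnNhd ℂ
      (fun s : ℂ => ∑ i, κ i * (Ideal.absNorm (b i) : ℂ) ^ s * Z0 i s)
      {s | 3 / 2 - 1 / (2 * (m + 1 : ℝ)) < s.re} := by
    intro s hs'
    exact Finset.analyticAt_fun_sum _ fun i _ =>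
      (analyticAt_const.mul (pt3_pow_analytic _ (hNb i) Set.univ s trivial)).mul (hZ0 i s hs')
  have hPa : ∀ h : Ideal (𝓞 K) →*₀ ℂ, AnalyticOnNhd ℂ
      (fun s : ℂ => ∏ j, (1 - (q j : ℂ) * tm h s (c j))) {s | 1 / 2 < s.re} := by
    intro h s hs'
    exact Finset.analyticAt_fun_prod _ fun j _ =>
      (analyticAt_const.sub (analyticAt_const.mul
        (pt3_tm_analytic h (c j) (pt3_ne hs j) Set.univ s trivial)))
  obtain ⟨Λ, hΛa, hΛ, hΛG⟩ := glue (1 / (2 * (m + 1 : ℝ))) (by positivity)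
    (fun s : ℂ => ∑ i, κ i * (Ideal.absNorm (b i) : ℂ) ^ s * Z i s)
    (fun s : ℂ => ∑ i, κ i * (Ideal.absNorm (b i) : ℂ) ^ s * Z0 i s)
    (fun s : ℂ => ∏ j, (1 - (q j : ℂ) * tm (PsiP K ψ * χ : Ideal (𝓞 K) →*₀ ℂ) s (c j)))
    (hGa κ) hZ0a (hPa _)
    (fun s hs' => Finset.prod_ne_zero_iff.2 fun j _ => P_neP h p hp f χ hχ (c j) (q j) (hs.prime j)
      (hs.norm j) s hs')
    (fun s hs' => by
      show _ = _ * _
      rw [← e1 s hs', (e3 s hs').tsum_eq])
  have h1re : (1 / 2 : ℝ) < (1 : ℂ).re := by norm_num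
  have u1 : V.valuation (∏ j, (1 - (q j : ℂ) * tm (PsiP K ψ * χ : Ideal (𝓞 K) →*₀ ℂ) 1 (c j))) = 1 := by
    rw [map_prod]
    refine Finset.prod_eq_one fun j _ => factorP p hp V hV ψ χ (c j) (q j) (hs.prime j) (hs.norm j)
      (hun j) ?_
    by_cases hj : IsCoprime (c j) f
    · exact Or.inl (hχ.val _ (pt3_ne hs j) hj)
    · exact Or.inr (hχ.zero _ hj)
  have e5 := hΛG 1 h1re
  have hne : (∏ j, (1 - (q j : ℂ) * tm (PsiP K ψ * χ : Ideal (𝓞 K) →*₀ ℂ) 1 (c j))) ≠ 0 := by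
    intro h0
    rw [h0, map_zero] at u1
    exact zero_ne_one u1
  have h6 : Λ 1 / Om ^ Module.finrank F K =
      ((∑ i, κ i * (Ideal.absNorm (b i) : ℂ) ^ (1 : ℂ) * Z i 1) / Om ^ Module.finrank F K) *
      (∏ j, (1 - (q j : ℂ) * tm (PsiP K ψ * χ : Ideal (𝓞 K) →*₀ ℂ) 1 (c j)))⁻¹ := by
    rw [e5]
    field_simp
  have h7 : V.valuation (Λ 1 / Om ^ Module.finrank F K) =
      V.valuation ((∑ i, κ i * (Ideal.absNorm (b i) : ℂ) ^ (1 : ℂ) * Z i 1) /
        Om ^ Module.finrank F K) := by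
    rw [h6, map_mul, map_inv₀, u1, inv_one, mul_one]
  have hζ1 : ∀ i, V.valuation (ζ i) = 1 := fun i => by
    have h1 : V.valuation (ζ i) ^ p = 1 := by rw [← map_pow, hζ i, map_one]
    exact (pow_eq_one_iff_of_nonneg zero_le hp.ne_zero).1 h1
  have hZi' : ∀ i, V.valuation (Z i 1 / Om ^ (m + 1)) ≤ 1 := fun i =>
    hZi i Ac Bc Om hper V hV hg
  refine ⟨Λ, hΛa, fun s hs' => ?_, ?_, fun ΛK hKa hKs hKi => ?_⟩
  · rw [hΛ s hs']
    exact e3 s hs'
  · rw [h7, hm, Finset.sum_div]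
    refine Valuation.map_sum_le _ fun i _ => ?_
    rw [mul_div_assoc, map_mul, map_mul, hκζ i, map_mul, hκu i V hV, hζ1 i, one_mul, one_mul,
      Complex.cpow_one]
    exact mul_le_one' (pt9_nat V _) (hZi' i)
  -- the value at 1
  obtain ⟨S, hS, hSs⟩ := one_sumP h f hχ.ne
  have e4 : ∀ s : ℂ, 1 / 2 < s.re →
      (∑ i, κ' i * (Ideal.absNorm (b i) : ℂ) ^ s * Z i s) =
      (∏ j, (1 - (q j : ℂ) * tm (PsiP K ψ * oneI f : Ideal (𝓞 K) →*₀ ℂ) s (c j))) *
        ((∏ w ∈ S, (1 - tm (PsiP K ψ) s w.asIdeal)) * ΛK s) := by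
    intro s hs'
    refine ident (fun s : ℂ => ∑ i, κ' i * (Ideal.absNorm (b i) : ℂ) ^ s * Z i s)
      (fun s : ℂ => (∏ j, (1 - (q j : ℂ) * tm (PsiP K ψ * oneI f : Ideal (𝓞 K) →*₀ ℂ) s (c j))) *
        ((∏ w ∈ S, (1 - tm (PsiP K ψ) s w.asIdeal)) * ΛK s)) (hGa κ') ?_ ?_ s hs'
    · refine (hPa _).mul (AnalyticOnNhd.mul ?_ hKa)
      intro z hz
      exact Finset.analyticAt_fun_prod _ fun w _ =>
        (analyticAt_const.sub (pt3_tm_analytic (PsiP K ψ) w.asIdeal w.ne_bot Set.univ z trivial))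
    · intro z hz
      show _ = _ * (_ * _)
      rw [← e2 z hz, (hSs z hz).tsum_eq, (hKs z hz).tsum_eq]
  have u2 : V.valuation
      (∏ j, (1 - (q j : ℂ) * tm (PsiP K ψ * oneI f : Ideal (𝓞 K) →*₀ ℂ) 1 (c j))) = 1 := by
    rw [map_prod]
    refine Finset.prod_eq_one fun j _ => factorP p hp V hV ψ (oneI f) (c j) (q j) (hs.prime j)
      (hs.norm j) (hun j) ?_
    rcases pt3_oneI_eq f (c j) with h | h
    · exact Or.inl (by rw [h, one_pow])
    · exact Or.inr h
  have hcopw : ∀ w ∈ S, IsCoprime w.asIdeal (Ideal.span {(p : 𝓞 K)}) := fun w hw => by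
    have h1 := hχ.cop
    rw [Ideal.isCoprime_iff_sup_eq] at h1 ⊢
    rw [← top_le_iff, ← h1]
    exact sup_le_sup_right ((hS w).1 hw) _
  have u3 : V.valuation (∏ w ∈ S, (1 - tm (PsiP K ψ) 1 w.asIdeal)) ≤ 1 ∧
      (V.valuation (∏ w ∈ S, (1 - tm (PsiP K ψ) 1 w.asIdeal)) = 1 ↔
        ∀ w : HeightOneSpectrum (𝓞 K), f ≤ w.asIdeal →
          V.valuation (1 - (starRingEnd ℂ) (PsiP K ψ w.asIdeal)) = 1) := by
    rw [map_prod]
    have h1 : ∀ w ∈ S, V.valuation (1 - tm (PsiP K ψ) 1 w.asIdeal) ≤ 1 := fun w hw =>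
      (tm_one p hp V hV h w (hcopw w hw)).1
    refine ⟨Finset.prod_le_one' h1, ?_⟩
    rw [Finset.prod_eq_one_iff_of_le_one' h1]
    constructor
    · exact fun h2 w hw => (tm_one p hp V hV h w (hcopw w ((hS w).2 hw))).2.1 (h2 w ((hS w).2 hw))
    · exact fun h2 w hw => (tm_one p hp V hV h w (hcopw w hw)).2.2 (h2 w ((hS w).1 hw))
  have u4 : V.valuation ((∑ i, κ' i * (Ideal.absNorm (b i) : ℂ) ^ (1 : ℂ) * Z i 1) /
      Om ^ Module.finrank F K) = V.valuation (∏ w ∈ S, (1 - tm (PsiP K ψ) 1 w.asIdeal)) *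
        V.valuation (ΛK 1 / Om ^ Module.finrank F K) := by
    rw [e4 1 h1re, mul_div_assoc, mul_div_assoc, map_mul, map_mul, u2, one_mul]
  have h2 : (∑ i, κ i * (Ideal.absNorm (b i) : ℂ) ^ (1 : ℂ) * Z i 1) / Om ^ Module.finrank F K =
      (∑ i, κ' i * (ζ i - 1) * ((Ideal.absNorm (b i) : ℕ) : ℂ) * (Z i 1 / Om ^ (m + 1))) +
      (∑ i, κ' i * (Ideal.absNorm (b i) : ℂ) ^ (1 : ℂ) * Z i 1) / Om ^ Module.finrank F K := by
    rw [hm, Finset.sum_div, Finset.sum_div, ← Finset.sum_add_distrib]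
    refine Finset.sum_congr rfl fun i _ => ?_
    rw [hκζ i, Complex.cpow_one]
    ring
  have h3 : V.valuation (∑ i, κ' i * (ζ i - 1) * ((Ideal.absNorm (b i) : ℕ) : ℂ) *
      (Z i 1 / Om ^ (m + 1))) < 1 := by
    refine Valuation.map_sum_lt _ one_ne_zero fun i _ => ?_
    rw [map_mul, map_mul, map_mul, hκu i V hV, one_mul, mul_assoc]
    exact mul_lt_one_of_lt_of_le (root_max p hp V hV (ζ i) (hζ i)) (mul_le_one' (pt9_nat V _) (hZi' i))
  have h8 : V.valuation (Λ 1 / Om ^ Module.finrank F K) = 1 ↔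
      V.valuation ((∑ i, κ' i * (Ideal.absNorm (b i) : ℂ) ^ (1 : ℂ) * Z i 1) /
        Om ^ Module.finrank F K) = 1 := by
    rw [h7, h2]
    constructor
    · intro h9
      have h10 := Valuation.map_sub_eq_of_lt_left V.valuation (x := (∑ i, κ' i * (ζ i - 1) *
        ((Ideal.absNorm (b i) : ℕ) : ℂ) * (Z i 1 / Om ^ (m + 1))) +
        (∑ i, κ' i * (Ideal.absNorm (b i) : ℂ) ^ (1 : ℂ) * Z i 1) / Om ^ Module.finrank F K)
        (y := ∑ i, κ' i * (ζ i - 1) * ((Ideal.absNorm (b i) : ℕ) : ℂ) * (Z i 1 / Om ^ (m + 1)))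
        (by rw [h9]; exact h3)
      rw [add_sub_cancel_left, h9] at h10
      exact h10
    · intro h9
      rw [Valuation.map_add_eq_of_lt_right _ (by rw [h9]; exact h3), h9]
  rw [h8, u4]
  constructor
  · intro h9
    have h10 : V.valuation (∏ w ∈ S, (1 - tm (PsiP K ψ) 1 w.asIdeal)) = 1 := by
      refine le_antisymm u3.1 ?_
      by_contra hlt
      have h11 := mul_lt_one_of_lt_of_le (not_le.1 hlt) hKi
      rw [h9] at h11
      exact lt_irrefl _ h11
    rw [h10, one_mul] at h9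
    exact ⟨h9, u3.2.1 h10⟩
  · rintro ⟨h9, h10⟩
    rw [u3.2.2 h10, h9, one_mul]

end H55P
end

-- from Lib.H55P.N6
section

open NumberField IsDedekindDomain

namespace H55P

open H55N
open H55B (g)

/-! Chunk PN6 (M), PORT of Lib/H55R/Cross.lean (cross) and Lib/H55R/Fin.lean (reciprocity): K over a general imaginary quadratic field F. complexF: the places of F are complex (F0_card), so those of K are.
Everything else is copied, with second_ineqF F, indepF F, density_kerF F, bddF F in place of the old ones. -/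

theorem complexG (F : Type) [Field F] [NumberField F] [IQ F] (K : Type) [Field K] [NumberField K]
    [Algebra F K] (v : InfinitePlace K) : v.IsComplex := by
  classical
  rw [← InfinitePlace.not_isReal_iff_isComplex]
  intro h
  have h1 : (v.comap (algebraMap F K)).IsReal := h.comap (algebraMap F K)
  have h2 : InfinitePlace.nrRealPlaces F = 0 := (F0_card (F := F)).1
  have h3 : 0 < InfinitePlace.nrRealPlaces F := Fintype.card_pos_iff.2 ⟨⟨_, h1⟩⟩
  omega

open H55R

/-- Inert primes are not in the kernel of the character (assembly). -/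
theorem crossF (F : Type) [Field F] [NumberField F] [IQ F] {K L : Type} [Field K] [NumberField K]
    [Algebra F K] [Field L] [NumberField L]
    [Algebra K L] [IsGalois K L] (l : ℕ) (hl : l.Prime) (hn : Module.finrank K L = l)
    (hcL : ∀ g h : Gal(L/K), g * h = h * g) (f : Ideal (𝓞 K))
    (hf : f ≠ ⊥) (hf0 : ∀ v : Pl K, ¬ f ≤ v.asIdeal → es K L v = 1)
    (htame : ∀ v : Pl K, es K L v ∣ Ideal.absNorm v.asIdeal - 1) (φ : Pl K → ℂˣ) (hφ : φ ∈ RC f)
    (hφl : φ ^ l = 1) (hφ1 : φ ≠ 1)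
    (hφS : ∀ v : Pl K, ¬ f ≤ v.asIdeal → Spl K L v → φ v = 1) (w : Pl K)
    (hw : ¬ f ≤ w.asIdeal) (hns : ¬ Spl K L w) : φ w ≠ 1 := by
  classical
  set q := Ideal.absNorm w.asIdeal with hq
  have hK : ∀ v : InfinitePlace K, v.IsComplex := complexG F K
  have hq1 : 1 < q := by
    have h1 : q ≠ 0 := by
      rw [hq, Ne, Ideal.absNorm_eq_zero_iff]
      exact w.ne_bot
    have h2 : q ≠ 1 := by
      rw [hq, Ne, Ideal.absNorm_eq_one_iff]
      exact w.isPrime.ne_top
    omega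
  obtain ⟨p, hp, hpq, hpbad, hord⟩ := exists_p q l hq1 hl (Ideal.absNorm f).primeFactors
  have hpf : ¬ p ∣ Ideal.absNorm f := by
    intro h
    exact hpbad (Nat.mem_primeFactors.2 ⟨hp, h, by rwa [Ne, Ideal.absNorm_eq_zero_iff]⟩)
  have := Fact.mk hp
  -- the unit q modulo p
  have hqu : IsUnit (q : ZMod p) := by
    rw [isUnit_iff_ne_zero, Ne, ZMod.natCast_eq_zero_iff]
    exact hpq
  set u : (ZMod p)ˣ := hqu.unit with hu
  have huq : (u : ZMod p) = (q : ℕ) := hqu.unit_spec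
  have hou : l ∣ orderOf u := by
    rw [← orderOf_units, huq]
    exact hord
  obtain ⟨θ, hθ1, hθ2⟩ := H55R.exists_theta p l hl u hou
  obtain ⟨N, i1, i2, i3, i4, i5, ζ, hζ, i6, hc, hN⟩ := exists_N K L hcL p hp
  set f' : Ideal (𝓞 K) := f * Ideal.span {(p : 𝓞 K)} with hf'
  have hp0 : (p : 𝓞 K) ≠ 0 := Nat.cast_ne_zero.2 hp.ne_zero
  have hf'0 : f' ≠ ⊥ := mul_ne_zero hf (by
    rw [Ne, Ideal.zero_eq_bot, Ideal.span_singleton_eq_bot]
    exact hp0)
  have hle1 : f' ≤ f := Ideal.mul_le_left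
  have hle2 : f' ≤ Ideal.span {(p : 𝓞 K)} := Ideal.mul_le_right
  have hv' : ∀ v : Pl K, ¬ f' ≤ v.asIdeal → ¬ f ≤ v.asIdeal ∧ (p : 𝓞 K) ∉ v.asIdeal :=
    fun v hv => ⟨fun h => hv (hle1.trans h), fun h => hv (hle2.trans (by
      rw [Ideal.span_singleton_le_iff_mem]
      exact h))⟩
  have hv'' : ∀ v : Pl K, ¬ f ≤ v.asIdeal → (p : 𝓞 K) ∉ v.asIdeal → ¬ f' ≤ v.asIdeal := by
    intro v h1 h2 h3
    rcases (v.isPrime.mul_le).1 h3 with h | h
    · exact h1 h
    · rw [Ideal.span_singleton_le_iff_mem] at h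
      exact h2 h
  have hf't : f' ≠ ⊤ := by
    intro h
    have h1 : (p : 𝓞 K) ∣ 1 := by
      rw [← Ideal.mem_span_singleton]
      exact hle2 (by rw [h]; trivial)
    have h2 := Algebra.norm ℤ (p : 𝓞 K)
    have h3 : IsUnit (p : 𝓞 K) := isUnit_of_dvd_one h1
    have h4 := (Ideal.absNorm_eq_one_iff (I := Ideal.span {(p : 𝓞 K)})).2
      (Ideal.span_singleton_eq_top.2 h3)
    rw [Ideal.absNorm_span_singleton] at h4
    have h5 : (Algebra.norm ℤ (p : 𝓞 K)) = (p : ℤ) ^ Module.finrank ℤ (𝓞 K) := by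
      have h6 := Algebra.norm_algebraMap (S := 𝓞 K) (p : ℤ)
      simpa using h6
    rw [h5, Int.natAbs_pow, Int.natAbs_natCast] at h4
    have h7 : Module.finrank ℤ (𝓞 K) ≠ 0 := by
      rw [RingOfIntegers.rank]
      exact Module.finrank_pos.ne'
    have h8 := hp.one_lt
    have h9 := Nat.one_lt_pow h7 h8
    omega
  -- primes dividing f and p
  have hcop : ∀ v : Pl K, (p : 𝓞 K) ∈ v.asIdeal → ¬ f ≤ v.asIdeal := by
    intro v h1 h2
    have h3 := Ideal.absNorm_dvd_absNorm_of_le h2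
    have h4 : p ∣ Ideal.absNorm v.asIdeal := by
      have h5 : (Ideal.absNorm v.asIdeal : 𝓞 K) ∈ v.asIdeal := Ideal.absNorm_mem v.asIdeal
      by_contra h6
      have h7 : IsCoprime (p : ℤ) (Ideal.absNorm v.asIdeal : ℤ) :=
        Nat.isCoprime_iff_coprime.2 ((Nat.Prime.coprime_iff_not_dvd hp).2 h6)
      obtain ⟨a, b, hab⟩ := h7
      apply v.isPrime.ne_top
      rw [Ideal.eq_top_iff_one]
      have h8 : (1 : 𝓞 K) = a * p + b * (Ideal.absNorm v.asIdeal : 𝓞 K) := by
        exact_mod_cast (congrArg (fun z : ℤ => (z : 𝓞 K)) hab).symm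
      rw [h8]
      exact add_mem (Ideal.mul_mem_left _ _ h1) (Ideal.mul_mem_left _ _ h5)
    exact hpf (h4.trans h3)
  have hram : ∀ v : Pl K, ¬ f' ≤ v.asIdeal → es K N v = 1 := by
    intro v hv
    obtain ⟨h1, h2⟩ := hv' v hv
    have h3 := es_N K L N p hp ζ hζ hN v h2
    rw [hf0 v h1] at h3
    exact Nat.dvd_one.1 h3
  have htame' : ∀ v : Pl K, es K N v ∣ Ideal.absNorm v.asIdeal - 1 := by
    intro v
    by_cases h : (p : 𝓞 K) ∈ v.asIdeal
    · have h1 := es_N' K L N p hp ζ hζ hN v (hf0 v (hcop v h))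
      refine h1.trans ?_
      -- the norm of v is a power of p
      have h2 : ∃ k : ℕ, Ideal.absNorm v.asIdeal = p ^ k := by
        have h3 := Ideal.absNorm_dvd_absNorm_of_le
          ((Ideal.span_singleton_le_iff_mem v.asIdeal).2 h)
        rw [Ideal.absNorm_span_singleton] at h3
        have h5 : (Algebra.norm ℤ (p : 𝓞 K)) = (p : ℤ) ^ Module.finrank ℤ (𝓞 K) := by
          have h6 := Algebra.norm_algebraMap (S := 𝓞 K) (p : ℤ)
          simpa using h6
        rw [h5, Int.natAbs_pow, Int.natAbs_natCast] at h3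
        obtain ⟨k, -, hk⟩ := (Nat.dvd_prime_pow hp).1 h3
        exact ⟨k, hk⟩
      obtain ⟨k, hk⟩ := h2
      rw [hk]
      exact Nat.sub_one_dvd_pow_sub_one p k
    · exact (es_N K L N p hp ζ hζ hN v h).trans (htame v)
  -- the Frobenius of w
  have hpw : (p : 𝓞 K) ∉ w.asIdeal := by
    intro h
    apply hpq
    rw [hq]
    have h5 : (Ideal.absNorm w.asIdeal : 𝓞 K) ∈ w.asIdeal := Ideal.absNorm_mem w.asIdeal
    by_contra h6
    have h7 : IsCoprime (p : ℤ) (Ideal.absNorm w.asIdeal : ℤ) :=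
      Nat.isCoprime_iff_coprime.2 ((Nat.Prime.coprime_iff_not_dvd hp).2 h6)
    obtain ⟨a, b, hab⟩ := h7
    apply w.isPrime.ne_top
    rw [Ideal.eq_top_iff_one]
    have h8 : (1 : 𝓞 K) = a * p + b * (Ideal.absNorm w.asIdeal : 𝓞 K) := by
      exact_mod_cast (congrArg (fun z : ℤ => (z : 𝓞 K)) hab).symm
    rw [h8]
    exact add_mem (Ideal.mul_mem_left _ _ h) (Ideal.mul_mem_left _ _ h5)
  have hw' : ¬ f' ≤ w.asIdeal := hv'' w hw hpw
  obtain ⟨g, hg1, hg2⟩ := exists_frob K N hc w (hram w hw')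
  have hgζ : g ζ = ζ ^ q := hg2 p ζ hp hζ hpw
  have hgpow : ∀ k : ℕ, (g ^ k) ζ = ζ ^ (q ^ k) := by
    intro k
    induction k with
    | zero => rw [pow_zero, pow_zero, pow_one]; rfl
    | succ k ih =>
      rw [pow_succ', AlgEquiv.mul_apply, ih, map_pow, hgζ, ← pow_mul, pow_succ']
  have hnorm : ∀ A : Subgroup Gal(N/K), A.Normal := fun A => ⟨fun a ha x => by
    rw [hc x a, mul_assoc, mul_inv_cancel, mul_one]
    exact ha⟩
  set B : Subgroup Gal(N/K) := (AlgEquiv.restrictNormalHom L : Gal(N/K) →* Gal(L/K)).ker with hB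
  obtain ⟨hBc, hBi⟩ := ker_cyclic K L N p hp ζ hζ hN
  rw [hn] at hBi
  have hgB : g ∉ B := by
    intro h
    apply hns
    rw [spl_iff K L N w]
    exact (hg1 _).2 h
  have hog : l ∣ orderOf g := by
    refine hord.trans ?_
    rw [orderOf_dvd_iff_pow_eq_one]
    have h1 := hgpow (orderOf g)
    rw [pow_orderOf_eq_one, AlgEquiv.one_apply] at h1
    have h2 : ζ ^ (q ^ orderOf g) = ζ ^ 1 := by rw [← h1, pow_one]
    have h3 := root_pow_eq hζ hp.ne_zero h2
    have h4 := (ZMod.natCast_eq_natCast_iff _ _ _).2 h3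
    push_cast at h4
    exact h4
  obtain ⟨σ, hσ⟩ := gen_exists hc l hl g B hBi hBc hgB
  -- the characters of M
  obtain ⟨YM, m1, m2, m3, m4⟩ := first_A K N (Subgroup.zpowers g) (hnorm _) σ hσ hK f' hf'0 hram
    htame'
  have hwM : SplA (Subgroup.zpowers g) w := (hg1 _).2 (Subgroup.mem_zpowers g)
  -- the restriction of φ
  set φ' : Pl K → ℂˣ := resF f' φ with hφ'
  have hφ'v : ∀ v : Pl K, ¬ f' ≤ v.asIdeal → φ' v = φ v := fun v hv => if_neg hv
  have hφ'RC : φ' ∈ RC f' := resF_RC f f' hle1 φ hφ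
  have hφ'1 : φ' ≠ 1 := fun h => hφ1 (resF_one f f' hle1 hf'0 φ hφ h)
  have hφ'l : φ' ^ l = 1 := by
    funext v
    by_cases hv : f' ≤ v.asIdeal
    · have h1 : φ' v = 1 := if_pos hv
      rw [Pi.pow_apply, h1, one_pow, Pi.one_apply]
    · rw [Pi.pow_apply, hφ'v v hv]
      exact congrFun hφl v
  have hφ'S : ∀ v : Pl K, ¬ f' ≤ v.asIdeal → SplA B v → φ' v = 1 := by
    intro v hv hs
    rw [hφ'v v hv]
    exact hφS v (hv' v hv).1 ((spl_iff K L N v).2 hs)
  have hzl : Nat.card (Subgroup.zpowers φ') = l := by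
    have := Fact.mk hl
    rw [Nat.card_zpowers]
    exact orderOf_eq_prime hφ'l hφ'1
  have hzfin : Finite (Subgroup.zpowers φ') :=
    Nat.finite_of_card_ne_zero (by rw [hzl]; exact hl.ne_zero)
  -- independence
  have hnot : φ' ∉ YM := by
    intro hmem
    have h1 := indepF F K N (Subgroup.zpowers g) B (hnorm _) (hnorm _)
      (fun h => hgB (h (Subgroup.mem_zpowers g))) f' hf'0 hf't (Subgroup.zpowers φ') hzfin
      (by rw [Subgroup.zpowers_le]; exact hφ'RC) (by
        rintro ψ ⟨j, rfl⟩ v hv hs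
        have h2 : φ' v = 1 := by
          rcases hs with hs | hs
          · exact m4 φ' hmem v hv hs
          · exact hφ'S v hv hs
        show (φ' ^ j) v = 1
        rw [Pi.pow_apply, h2, one_zpow])
    rw [hzl, hBi] at h1
    exact lt_irrefl _ h1
  -- the cyclotomic character
  set θ' : Pl K → ℂˣ := thetaF f' p θ with hθ'
  have hθ'RC : θ' ∈ RC f' := theta_RC hK f' p hp hle2 θ
  have hθ'pow : θ' ^ (p - 1) = 1 := by
    funext v
    rw [Pi.pow_apply, Pi.one_apply]
    by_cases h : ¬ f' ≤ v.asIdeal ∧ IsUnit ((Ideal.absNorm v.asIdeal : ℕ) : ZMod p)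
    · have h1 : θ' v = θ h.2.unit := dif_pos h
      rw [h1, ← map_pow, ZMod.units_pow_card_sub_one_eq_one, map_one]
    · have h1 : θ' v = 1 := dif_neg h
      rw [h1, one_pow]
  have hp1 : 0 < p - 1 := by
    have := hp.two_le
    omega
  set A2 : Subgroup Gal(N/K) := Subgroup.zpowers (g ^ l) with hA2
  have hA21 : A2 ≤ Subgroup.zpowers g := by
    rw [hA2, Subgroup.zpowers_le]
    exact Subgroup.pow_mem _ (Subgroup.mem_zpowers g) l
  have hA2B : A2 ≤ B := by
    rw [hA2, Subgroup.zpowers_le]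
    exact pow_mem_index hc l g B hBi
  have hθ'S : ∀ v : Pl K, ¬ f' ≤ v.asIdeal → SplA A2 v → θ' v = 1 := by
    intro v hv hs
    obtain ⟨h1, h2⟩ := hv' v hv
    obtain ⟨gv, hgv1, hgv2⟩ := exists_frob K N hc v (hram v hv)
    have h3 := (hgv1 A2).1 hs
    obtain ⟨i, hi⟩ := (mem_zpowers_iff_mem_range_orderOf.1 h3 |> Finset.mem_image.1)
    have h4 : gv ζ = ζ ^ Ideal.absNorm v.asIdeal := hgv2 p ζ hp hζ h2
    rw [← hi.2, ← pow_mul, hgpow] at h4
    have h5 := root_pow_eq hζ hp.ne_zero h4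
    have h6 := (ZMod.natCast_eq_natCast_iff _ _ _).2 h5
    have h7 : ((u ^ (l * i) : (ZMod p)ˣ) : ZMod p) = (Ideal.absNorm v.asIdeal : ℕ) := by
      rw [← h6, Units.val_pow_eq_pow_val, huq]
      push_cast
      rfl
    rw [hθ', theta_apply f' p hp θ v hv _ h7, pow_mul, map_pow, hθ2, one_pow]
  -- counting
  have hYfin : Finite (YM ⊔ Subgroup.zpowers φ' : Subgroup (Pl K → ℂˣ)) :=
    fin_adjoin YM m1 φ' l hl.pos hφ'l
  have hYcard := card_adjoin YM m1 φ' l hl hφ'l hnot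
  have hY'fin : Finite ((YM ⊔ Subgroup.zpowers φ') ⊔ Subgroup.zpowers θ' :
      Subgroup (Pl K → ℂˣ)) := fin_adjoin _ hYfin θ' (p - 1) hp1 hθ'pow
  have hY'RC : ((YM ⊔ Subgroup.zpowers φ') ⊔ Subgroup.zpowers θ' : Subgroup (Pl K → ℂˣ)) ≤
      RC f' := by
    refine sup_le (sup_le m2 ?_) ?_
    · rw [Subgroup.zpowers_le]; exact hφ'RC
    · rw [Subgroup.zpowers_le]; exact hθ'RC
  have h2 := second_ineqF F K N A2 (hnorm _) f' hf'0 hf't _ hY'fin hY'RC (by
    intro ψ hψ v hv hs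
    obtain ⟨ν, hν, j, rfl⟩ := mem_adjoin _ _ _ hψ
    obtain ⟨μ, hμ, k, rfl⟩ := mem_adjoin _ _ _ hν
    have e1 : μ v = 1 := m4 μ hμ v hv (SplA_mono hA21 hs)
    have e2 : φ' v = 1 := hφ'S v hv (SplA_mono hA2B hs)
    have e3 : θ' v = 1 := hθ'S v hv hs
    simp only [Pi.mul_apply, Pi.pow_apply, e1, e2, e3, one_zpow, mul_one])
  rw [hA2, index_pow l hl g hog] at h2
  have hge : Nat.card ((YM ⊔ Subgroup.zpowers φ') ⊔ Subgroup.zpowers θ' :
      Subgroup (Pl K → ℂˣ)) ≤ Nat.card (YM ⊔ Subgroup.zpowers φ' : Subgroup (Pl K → ℂˣ)) := by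
    refine h2.trans (le_trans ?_ hYcard)
    exact Nat.mul_le_mul_left l m3
  have heq := Subgroup.eq_of_le_of_card_ge
    (le_sup_left : (YM ⊔ Subgroup.zpowers φ') ≤ (YM ⊔ Subgroup.zpowers φ') ⊔ Subgroup.zpowers θ')
    hge
  have hmem : θ' ∈ YM ⊔ Subgroup.zpowers φ' := by
    rw [heq]
    exact (le_sup_right : Subgroup.zpowers θ' ≤ _) (Subgroup.mem_zpowers θ')
  obtain ⟨μ, hμ, j, hj⟩ := mem_adjoin _ _ _ hmem
  have e1 := congrFun hj w
  have e2 : θ' w = θ u := by
    rw [hθ', theta_apply f' p hp θ w hw' u (by rw [huq])]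
  have e3 : μ w = 1 := m4 μ hμ w hw' hwM
  rw [e2, Pi.mul_apply, Pi.pow_apply, e3, one_mul, hφ'v w hw'] at e1
  intro h
  rw [h, one_zpow] at e1
  exact hθ1 e1

/-- THEOREM: reciprocity. -/
theorem reciprocityF (F : Type) [Field F] [NumberField F] [IQ F] (K L : Type) [Field K] [NumberField K]
    [Algebra F K] [Field L] [NumberField L]
    [Algebra K L] [IsGalois K L] (l : ℕ) (hl : l.Prime) (hn : Module.finrank K L = l)
    (htame : ∀ v : H55R.Pl K, H55R.es K L v ≠ 1 → l ∣ Ideal.absNorm v.asIdeal - 1) :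
    ∃ (f : Ideal (𝓞 K)) (ρ : Ideal (𝓞 K) →*₀ ℂ), H55R.IsRec K L l f ρ := by
  classical
  have hl1 := Fact.mk hl
  have hcard : Nat.card Gal(L/K) = l := by
    rw [IsGalois.card_aut_eq_finrank, hn]
  have hcyc : IsCyclic Gal(L/K) := isCyclic_of_prime_card hcard
  obtain ⟨σ, hσ⟩ := hcyc.exists_generator
  have hc : ∀ g h : Gal(L/K), g * h = h * g := by
    intro g h
    obtain ⟨i, rfl⟩ := hσ g
    obtain ⟨j, rfl⟩ := hσ h
    exact Commute.zpow_zpow (Commute.refl σ) i j
  obtain ⟨f, hf, hsq, hram⟩ := exists_mod K L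
  have hf0 : ∀ v : Pl K, ¬ f ≤ v.asIdeal → es K L v = 1 := fun v hv => by
    by_contra h
    exact hv ((hram v).2 h)
  have htame' : ∀ v : Pl K, es K L v ∣ Ideal.absNorm v.asIdeal - 1 := by
    intro v
    by_cases h : es K L v = 1
    · rw [h]
      exact one_dvd _
    · have h1 : es K L v ∣ l := by
        have h2 := card_above (K := K) (L := L) v (above_finite v).toFinset (fun W => by simp)
        rw [hn] at h2
        exact ⟨(above_finite (K := K) (L := L) v).toFinset.card * fs K L v, by rw [← h2]; ring⟩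
      rcases (Nat.dvd_prime hl).1 h1 with h2 | h2
      · exact absurd h2 h
      · rw [h2]
        exact htame v h
  obtain ⟨Y, hY1, hY2, hY3, hY4, hY5⟩ := first_ineq σ hσ (complexG F K) f hf hf0 htame'
  rw [hn] at hY3 hY4
  -- a nontrivial element
  obtain ⟨φ, hφ, hφ1⟩ : ∃ φ ∈ Y, φ ≠ 1 := by
    by_contra hcon
    push Not at hcon
    have h1 : Y = ⊥ := by
      rw [Subgroup.eq_bot_iff_forall]
      exact hcon
    rw [h1, Subgroup.card_bot] at hY3
    have := hl.two_le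
    omega
  have hcross := fun w hw hns => crossF F (K := K) (L := L) l hl hn hc f hf hf0 htame' φ (hY2 hφ)
    (hY4 φ hφ) hφ1 (fun v hv hs => hY5 φ hφ v hv hs) w hw hns
  refine ⟨f, tI f φ, hf, hsq, hram, ?_, ?_, ?_, ?_⟩
  · intro a ha hac
    rw [tI_apply f φ ha hac, ← Units.val_pow_eq_pow_val, ← pv_pow, hY4 φ hφ, pv_one_fun,
      Units.val_one]
  · intro a ha
    exact tI_zero f φ ha
  · intro x y hx hy hxc hxy
    have hyc : IsCoprime (Ideal.span {y}) f := by
      rw [Ideal.isCoprime_iff_sup_eq] at hxc ⊢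
      rw [eq_top_iff, ← hxc]
      refine sup_le ?_ le_sup_right
      rw [Ideal.span_singleton_le_iff_mem]
      have h1 : x = y + (x - y) := by ring
      rw [h1]
      exact add_mem (Ideal.mem_sup_left (Ideal.mem_span_singleton_self y))
        (Ideal.mem_sup_right hxy)
    rw [tI_apply f φ (by rwa [Ne, Ideal.span_singleton_eq_bot]) hxc,
      tI_apply f φ (by rwa [Ne, Ideal.span_singleton_eq_bot]) hyc, (hY2 hφ).2 x y hx hy hxc hxy]
  · intro v hv
    rw [tI_apply f φ v.ne_bot (cop_prime v f hv), pv_prime, Units.val_eq_one]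
    constructor
    · intro h
      by_contra hns
      exact hcross v hv hns h
    · exact fun h => hY5 φ hφ v hv h

end H55P
end

-- from Lib.H55P.T13
section

open NumberField IsDedekindDomain

namespace H55P

open H55N
open H55B (g)

variable {F : Type} [Field F] [NumberField F] [IQ F]

/-! Assembly: one cyclic step of degree p. -/

theorem LVP_step (K K' : Type) [Field K] [NumberField K] [Algebra F K] [Field K'] [NumberField K']
    [Algebra F K'] [Algebra K K'] [IsScalarTower F K K'] [IsGalois K K'] (p : ℕ) (hp : p.Prime)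
    (hn : Module.finrank K K' = p) {M : Ideal (𝓞 F)} {ψ : Ideal (𝓞 F) →*₀ 𝓞 F} (h : IsHecke M ψ)
    (hMp : IsCoprime M (Ideal.span {(p : 𝓞 F)})) (hU : UnrP p K') (Ac Bc Om : ℂ)
    (hper : Per F Ac Bc Om) (V : ValuationSubring ℂ) (hV : V.valuation (p : ℂ) < 1)
    (hg : GoodV Ac Bc V) (hNT : NTP K p M ψ V)
    (hr : ∀ w : HeightOneSpectrum (𝓞 K), H55R.es K K' w ≠ 1 →
      V.valuation (1 - (starRingEnd ℂ) (PsiP K ψ w.asIdeal)) = 1)
    (hL : LVP F V Om (PsiP K ψ)) : LVP F V Om (PsiP K' ψ) := by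
  have hK := UnrP.down K K' p hp hU
  obtain ⟨f, ρ, hρ⟩ := reciprocityF F K K' p hp hn fun v he =>
    tame_dvd K K' p hp hn v (fun hpv => he (pt10_ram K K' p hU v hpv)) he
  have hf : PChr p f ρ := rec_PChr K K' p hp hn hU f ρ hρ
  have hs : SplitP K K' p ρ := rec_split K K' p hp hn f ρ hρ
  refine LVP_of_step K K' h p hp hn f ρ hf hs V Om hL fun j _ => ?_
  exact LVP_twist p hp h hMp hK Ac Bc Om hper V hV hg hNT f (chp ρ j) (chp_PChr hf j)
    (fun w hw => hr w ((hρ.ram w).1 hw)) hL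

end H55P
end

-- from Lib.H55P.I2
section

open NumberField IsDedekindDomain

namespace H55P

open H55N
open H55B (g)

variable {F : Type} [Field F] [NumberField F] [IQ F]

/-! The exact criterion, analytic side: one cyclic step of degree p. -/

section base

variable {K : Type} [Field K] [NumberField K] [Algebra F K]

open Classical in
omit [IQ F] in
theorem i2_one (a : Ideal (𝓞 K)) (ha : a ≠ ⊥) : oneI (⊤ : Ideal (𝓞 K)) a = 1 := by
  show (if a ≠ ⊥ ∧ IsCoprime a ⊤ then (1 : ℂ) else 0) = 1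
  rw [if_pos]
  refine ⟨ha, ?_⟩
  rw [Ideal.isCoprime_iff_sup_eq]
  exact sup_top_eq a

theorem i2_chr (p : ℕ) : PChr p (⊤ : Ideal (𝓞 K)) (oneI ⊤) where
  ne := top_ne_bot
  cop := by
    rw [Ideal.isCoprime_iff_sup_eq]
    exact top_sup_eq _
  val a ha _ := by rw [i2_one a ha, one_pow]
  zero a ha := absurd (by
    rw [Ideal.isCoprime_iff_sup_eq]
    exact sup_top_eq a) ha
  per x y hx hy _ _ := by
    rw [i2_one _ (by simpa using hx), i2_one _ (by simpa using hy)]

/-- Integrality of the L-value over K, for p unramified in K. -/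
theorem LVI_base (p : ℕ) (hp : p.Prime) {M : Ideal (𝓞 F)} {ψ : Ideal (𝓞 F) →*₀ 𝓞 F}
    (h : IsHecke M ψ) (hMp : IsCoprime M (Ideal.span {(p : 𝓞 F)})) (hK : UnrP p K)
    (Ac Bc Om : ℂ) (hper : Per F Ac Bc Om) (V : ValuationSubring ℂ)
    (hV : V.valuation (p : ℂ) < 1) (hg : GoodV Ac Bc V) (hNT : NTP K p M ψ V) :
    LVI F V Om (PsiP K ψ) := by
  obtain ⟨Λ, h1, h2, h3, -⟩ := twist_main p hp h hMp hK Ac Bc Om hper V hV hg hNT ⊤ (oneI ⊤)
    (i2_chr p)
  refine ⟨Λ, h1, fun s hs => ?_, h3⟩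
  have e : (PsiP K ψ * oneI ⊤ : Ideal (𝓞 K) →*₀ ℂ) = PsiP K ψ := by
    ext a
    show PsiP K ψ a * oneI ⊤ a = PsiP K ψ a
    rcases eq_or_ne a ⊥ with rfl | ha
    · have : PsiP K ψ ⊥ = 0 := (PsiP K ψ).map_zero
      rw [this, zero_mul]
    · rw [i2_one a ha, mul_one]
  have := h2 s hs
  rwa [e] at this

end base

/-- The L-series over K' is the product of the twisted L-series over K. -/
theorem step_prod (K K' : Type) [Field K] [NumberField K] [Algebra F K] [Field K'] [NumberField K']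
    [Algebra F K'] [Algebra K K'] [IsScalarTower F K K'] {M : Ideal (𝓞 F)} {ψ : Ideal (𝓞 F) →*₀ 𝓞 F}
    (h : IsHecke M ψ) (p : ℕ) (hp : p.Prime)
    (f : Ideal (𝓞 K)) (χ : Ideal (𝓞 K) →*₀ ℂ) (hf : PChr p f χ) (hχ : SplitP K K' p χ)
    (Λ₁ : ℂ → ℂ) (hs1 : ∀ s : ℂ, 3 / 2 < s.re → HasSum (tm (PsiP K ψ) s) (Λ₁ s))
    (Λ : ℕ → ℂ → ℂ) (hΛ : ∀ j s, 3 / 2 < s.re →
      HasSum (tm (PsiP K ψ * chp χ j : Ideal (𝓞 K) →*₀ ℂ) s) (Λ j s)) (s : ℂ) (hs : 3 / 2 < s.re) :
    HasSum (tm (PsiP K' ψ) s) (Λ₁ s * ∏ j ∈ Finset.range (p - 1), Λ j s) := by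
  have hb : ∀ j, ∀ a : Ideal (𝓞 K),
      ‖(PsiP K ψ * chp χ j : Ideal (𝓞 K) →*₀ ℂ) a‖ ^ 2 ≤ Ideal.absNorm a := by
    intro j a
    refine le_trans ?_ (PsiP_norm_le h a)
    have h4 : (PsiP K ψ * chp χ j : Ideal (𝓞 K) →*₀ ℂ) a = PsiP K ψ a * chp χ j a := rfl
    rw [h4, norm_mul, mul_pow]
    exact mul_le_of_le_one_right (by positivity)
      (pow_le_one₀ (norm_nonneg _) ((chp_PChr hf j).norm_le hp.ne_zero a))
  have hsum := tm_summable (PsiP K' ψ) (fun a => PsiP_norm_le h a) s hs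
  have hL := AI_LSeries (PsiP K' ψ) (PsiP K' ψ).map_zero s hsum
  have hsum1 := tm_summable (PsiP K ψ) (fun a => PsiP_norm_le h a) s hs
  have hL1 := AI_LSeries (PsiP K ψ) (PsiP K ψ).map_zero s hsum1
  have hL2 := fun j => AI_LSeries (PsiP K ψ * chp χ j : Ideal (𝓞 K) →*₀ ℂ)
    (PsiP K ψ * chp χ j : Ideal (𝓞 K) →*₀ ℂ).map_zero s
    (tm_summable (PsiP K ψ * chp χ j : Ideal (𝓞 K) →*₀ ℂ) (hb j) s hs)
  have hL3 := pt5_prod (p - 1) (fun j => AI (PsiP K ψ * chp χ j : Ideal (𝓞 K) →*₀ ℂ))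
    (fun j => Λ j s) (fun j hj => by
      have h3 := hL2 j
      rw [(hΛ j s hs).tsum_eq] at h3
      exact h3)
  have hL4 := ArithmeticFunction.LSeriesHasSum_mul hL1 hL3
  rw [← AI_stepP K K' ψ p hp χ hχ] at hL4
  have h5 : ∑' a, tm (PsiP K' ψ) s a = Λ₁ s * ∏ j ∈ Finset.range (p - 1), Λ j s := by
    rw [hL.unique hL4, (hs1 s hs).tsum_eq]
  rw [← h5]
  exact hsum.of_norm.hasSum

/-- One step: the L-value over K' is a unit if and only if the L-value over K is a unit and the factors at the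
ramified primes are units. -/
theorem LVP_step_iff (K K' : Type) [Field K] [NumberField K] [Algebra F K] [Field K'] [NumberField K']
    [Algebra F K'] [Algebra K K'] [IsScalarTower F K K'] [IsGalois K K'] (p : ℕ) (hp : p.Prime)
    (hn : Module.finrank K K' = p) {M : Ideal (𝓞 F)} {ψ : Ideal (𝓞 F) →*₀ 𝓞 F} (h : IsHecke M ψ)
    (hMp : IsCoprime M (Ideal.span {(p : 𝓞 F)})) (hU : UnrP p K') (Ac Bc Om : ℂ)
    (hper : Per F Ac Bc Om) (V : ValuationSubring ℂ) (hV : V.valuation (p : ℂ) < 1)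
    (hg : GoodV Ac Bc V) (hNT : NTP K p M ψ V) :
    LVP F V Om (PsiP K' ψ) ↔ LVP F V Om (PsiP K ψ) ∧
      ∀ w : HeightOneSpectrum (𝓞 K), H55R.es K K' w ≠ 1 →
        V.valuation (1 - (starRingEnd ℂ) (PsiP K ψ w.asIdeal)) = 1 := by
  refine ⟨fun hL => ?_, fun ⟨hL, hr⟩ =>
    LVP_step K K' p hp hn h hMp hU Ac Bc Om hper V hV hg hNT hr hL⟩
  have hK := UnrP.down K K' p hp hU
  obtain ⟨f, ρ, hρ⟩ := reciprocityF F K K' p hp hn fun v he =>
    tame_dvd K K' p hp hn v (fun hpv => he (pt10_ram K K' p hU v hpv)) he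
  have hf : PChr p f ρ := rec_PChr K K' p hp hn hU f ρ hρ
  have hs : SplitP K K' p ρ := rec_split K K' p hp hn f ρ hρ
  obtain ⟨Λ₁, ha1, hs1, hi1⟩ := LVI_base p hp h hMp hK Ac Bc Om hper V hV hg hNT
  have htw := fun j => twist_main p hp h hMp hK Ac Bc Om hper V hV hg hNT f (chp ρ j) (chp_PChr hf j)
  choose Λ hΛa hΛs hΛi hΛiff using htw
  obtain ⟨L, hLa, hLs, hLu⟩ := hL
  have hprod : L 1 = Λ₁ 1 * ∏ j ∈ Finset.range (p - 1), Λ j 1 := by
    refine ident L (fun s => Λ₁ s * ∏ j ∈ Finset.range (p - 1), Λ j s) hLa ?_ (fun s hs' => ?_) 1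
      (by norm_num)
    · intro s hs'
      exact (ha1 s hs').mul (Finset.analyticAt_fun_prod _ fun j _ => hΛa j s hs')
    · exact (hLs s hs').unique (step_prod K K' h p hp f ρ hf hs Λ₁ hs1 Λ hΛs s hs')
  have h5 : Om ^ Module.finrank F K' = Om ^ Module.finrank F K *
      ∏ j ∈ Finset.range (p - 1), Om ^ Module.finrank F K := by
    rw [← Module.finrank_mul_finrank F K K', hn, pow_mul, Finset.prod_const, Finset.card_range,
      ← pow_succ', Nat.sub_add_cancel hp.one_le]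
  rw [hprod, h5, mul_div_mul_comm, ← Finset.prod_div_distrib, map_mul, map_prod] at hLu
  have hle : ∏ j ∈ Finset.range (p - 1), V.valuation (Λ j 1 / Om ^ Module.finrank F K) ≤ 1 :=
    Finset.prod_le_one' fun j _ => hΛi j
  have hp1 : ∏ j ∈ Finset.range (p - 1), V.valuation (Λ j 1 / Om ^ Module.finrank F K) = 1 := by
    refine le_antisymm hle ?_
    by_contra hlt
    have h11 := mul_lt_one_of_nonneg_of_lt_one_right hi1 zero_le (not_le.1 hlt)
    rw [hLu] at h11
    exact lt_irrefl _ h11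
  have h0 := (Finset.prod_eq_one_iff_of_le_one' fun j _ => hΛi j).1 hp1 0
    (Finset.mem_range.2 (Nat.sub_pos_of_lt hp.one_lt))
  obtain ⟨h6, h7⟩ := (hΛiff 0 Λ₁ ha1 hs1 hi1).1 h0
  exact ⟨⟨Λ₁, ha1, hs1, h6⟩, fun w hw => h7 w ((hρ.ram w).2 hw)⟩

end H55P
end

-- from Lib.H55P.T15
section

open NumberField IsDedekindDomain

namespace H55P

open H55N
open H55B (g)

/-! Assembly: the tower theorem for the L-values, inside an algebraic closure Ω of F. -/

section tower

variable {F : Type} [Field F] [NumberField F] {Ω : Type} [Field Ω] [Algebra F Ω]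

theorem alg_tower (N K : IntermediateField F Ω) (h : N ≤ K) :
    letI : Algebra N K := (IntermediateField.inclusion h).toRingHom.toAlgebra
    IsScalarTower F N K := by
  letI : Algebra N K := (IntermediateField.inclusion h).toRingHom.toAlgebra
  exact IsScalarTower.of_algebraMap_eq fun x => ((IntermediateField.inclusion h).commutes x).symm

theorem finDim_of_le {N K : IntermediateField F Ω} [FiniteDimensional F K] (h : N ≤ K) :
    FiniteDimensional F N :=
  Module.Finite.of_injective (IntermediateField.inclusion h).toLinearMap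
    (IntermediateField.inclusion h).injective

theorem pext_deg (p : ℕ) (hp : p.Prime) (M N L : IntermediateField F Ω) (hL : PExt p M L) (hMN : M ≤ N)
    (hNL : N ≤ L) :
    letI : Algebra M N := (IntermediateField.inclusion hMN).toRingHom.toAlgebra
    ∃ j : ℕ, Module.finrank M N = p ^ j := by
  letI : Algebra M N := (IntermediateField.inclusion hMN).toRingHom.toAlgebra
  letI : Algebra N L := (IntermediateField.inclusion hNL).toRingHom.toAlgebra
  have h1 : IsScalarTower F M N := alg_tower M N hMN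
  have h2 : IsScalarTower F N L := alg_tower N L hNL
  have hLf : FiniteDimensional F L := hL.fin
  have hMf : FiniteDimensional F M := finDim_of_le hL.le
  obtain ⟨k, hk⟩ := hL.deg
  have h3 : Module.finrank F M * Module.finrank M N = Module.finrank F N :=
    Module.finrank_mul_finrank F M N
  have h4 : Module.finrank F N * Module.finrank N L = Module.finrank F L :=
    Module.finrank_mul_finrank F N L
  have h5 : Module.finrank M N * Module.finrank N L = p ^ k := by
    have h6 : Module.finrank F M * (Module.finrank M N * Module.finrank N L) =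
        Module.finrank F M * p ^ k := by
      rw [← mul_assoc, h3, h4, hk]
    exact Nat.eq_of_mul_eq_mul_left Module.finrank_pos h6
  obtain ⟨j, -, hj⟩ := (Nat.dvd_prime_pow hp).1 (Dvd.intro _ h5)
  exact ⟨j, hj⟩

end tower

variable {F : Type} [Field F] [NumberField F] [IQ F] {Ω : Type} [Field Ω] [DecidableEq Ω]
  [Algebra F Ω] [IsAlgClosed Ω] [Algebra.IsAlgebraic F Ω] [CharZero Ω]


end H55P
end

-- from Lib.H55P.I3
section

open NumberField IsDedekindDomain

namespace H55P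

/-! The exact criterion, analytic side: the tower. -/

section types

/-- The image of v in the square: the ramification index is not 1. -/
theorem i3_idx {A B : Type} [Field A] [NumberField A] [Field B] [NumberField B] [Algebra A B]
    (v : Ideal (𝓞 A)) (hv : v ≠ ⊥) (W : Ideal (𝓞 B)) [W.IsPrime] [W.LiesOver v]
    (h : ∀ x ∈ v, algebraMap (𝓞 A) (𝓞 B) x ∈ W ^ 2) : W.ramificationIdx (𝓞 A) ≠ 1 := by
  have hinj : Function.Injective (algebraMap (𝓞 A) (𝓞 B)) := FaithfulSMul.algebraMap_injective _ _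
  have hm : v.map (algebraMap (𝓞 A) (𝓞 B)) ≠ ⊥ := by
    rw [Ne, Ideal.map_eq_bot_iff_of_injective hinj]
    exact hv
  have hle : v.map (algebraMap (𝓞 A) (𝓞 B)) ≤ W ^ 2 := Ideal.map_le_iff_le_comap.2 fun x hx => h x hx
  rw [Ideal.IsDedekindDomain.ramificationIdx_eq_multiplicity v W hm]
  intro h1
  have hfin : FiniteMultiplicity W (v.map (algebraMap (𝓞 A) (𝓞 B))) := by
    refine FiniteMultiplicity.of_not_isUnit ?_ hm
    intro hu
    exact (inferInstance : W.IsPrime).ne_top (Ideal.isUnit_iff.1 hu)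
  have h2 := (hfin.pow_dvd_iff_le_multiplicity (k := 2)).1 (Ideal.dvd_iff_le.2 hle)
  omega

/-- A prime ramified in K/M: ramified in N/M or in K/N. -/
theorem i3_tower {M N K : Type} [Field M] [NumberField M] [Field N] [NumberField N] [Field K]
    [NumberField K] [Algebra M N] [Algebra N K] [Algebra M K] [IsScalarTower M N K]
    (v : HeightOneSpectrum (𝓞 M)) (W : Ideal (𝓞 K)) [W.IsPrime]
    (h : ∀ x ∈ v.asIdeal, algebraMap (𝓞 M) (𝓞 K) x ∈ W ^ 2) :
    ∃ w : HeightOneSpectrum (𝓞 N), W.under (𝓞 N) = w.asIdeal ∧ w.asIdeal.under (𝓞 M) = v.asIdeal ∧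
      ((∀ x ∈ v.asIdeal, algebraMap (𝓞 M) (𝓞 N) x ∈ w.asIdeal ^ 2) ∨ W.ramificationIdx (𝓞 N) ≠ 1) := by
  have hvm := v.isMaximal
  have hWn : W ≠ ⊥ := by
    rintro rfl
    apply v.ne_bot
    rw [eq_bot_iff]
    intro x hx
    have h1 := h x hx
    have h2 : algebraMap (𝓞 M) (𝓞 K) x = 0 := by
      have : algebraMap (𝓞 M) (𝓞 K) x ∈ (⊥ : Ideal (𝓞 K)) :=
        Ideal.pow_le_self two_ne_zero h1
      simpa using this
    have hinj : Function.Injective (algebraMap (𝓞 M) (𝓞 K)) := FaithfulSMul.algebraMap_injective _ _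
    exact (map_eq_zero_iff _ hinj).1 h2
  have hwb : W.under (𝓞 N) ≠ ⊥ := fun h0 =>
    hWn (Ideal.eq_bot_of_comap_eq_bot (R := 𝓞 N) (I := W) h0)
  have hwp : (W.under (𝓞 N)).IsPrime := inferInstance
  have hov : (W.under (𝓞 N)).under (𝓞 M) = v.asIdeal := by
    symm
    refine hvm.eq_of_le ?_ fun x hx => ?_
    · exact (inferInstance : ((W.under (𝓞 N)).under (𝓞 M)).IsPrime).ne_top
    · show algebraMap (𝓞 N) (𝓞 K) (algebraMap (𝓞 M) (𝓞 N) x) ∈ W
      have h1 : algebraMap (𝓞 N) (𝓞 K) (algebraMap (𝓞 M) (𝓞 N) x) = algebraMap (𝓞 M) (𝓞 K) x := by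
        apply RingOfIntegers.ext
        show algebraMap N K (algebraMap M N (x : M)) = algebraMap M K (x : M)
        rw [← IsScalarTower.algebraMap_apply M N K]
      rw [h1]
      exact Ideal.pow_le_self two_ne_zero (h x hx)
  refine ⟨⟨W.under (𝓞 N), hwp, hwb⟩, rfl, hov, ?_⟩
  by_cases hr : W.ramificationIdx (𝓞 N) = 1
  · left
    have hl1 : W.LiesOver (W.under (𝓞 N)) := ⟨rfl⟩
    have hl2 : (W.under (𝓞 N)).LiesOver v.asIdeal := ⟨hov.symm⟩
    have hsc : IsScalarTower (𝓞 M) (𝓞 N) (𝓞 K) := inferInstance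
    have hl3 : W.LiesOver v.asIdeal := Ideal.LiesOver.trans W (W.under (𝓞 N)) v.asIdeal
    have h1 := i3_idx v.asIdeal v.ne_bot W h
    have h2 := Ideal.ramificationIdx_tower (R := 𝓞 M) (W.under (𝓞 N)) W
    rw [hr, mul_one] at h2
    rw [h2] at h1
    exact s13_le_sq v.asIdeal v.ne_bot (W.under (𝓞 N)) h1
  · right
    exact hr

end types

section val

/-- 1 - x divides 1 - x^n. -/
theorem unit_of_pow (V : ValuationSubring ℂ) (x : ℂ) (hx : V.valuation x ≤ 1) (n : ℕ)
    (h : V.valuation (1 - x ^ n) = 1) : V.valuation (1 - x) = 1 := by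
  have h1 : (1 - x) * ∑ i ∈ Finset.range n, x ^ i = 1 - x ^ n := mul_neg_geom_sum x n
  have h2 : V.valuation (∑ i ∈ Finset.range n, x ^ i) ≤ 1 :=
    Valuation.map_sum_le _ fun i _ => by
      rw [map_pow]
      exact pow_le_one₀ zero_le hx
  have h3 : V.valuation (1 - x) ≤ 1 :=
    (Valuation.map_sub _ _ _).trans (max_le (by rw [map_one]) hx)
  rw [← h1, map_mul] at h
  refine le_antisymm h3 ?_
  by_contra hlt
  have h5 := mul_lt_one_of_nonneg_of_lt_one_left zero_le (not_le.1 hlt) h2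
  rw [h] at h5
  exact lt_irrefl _ h5

variable {F : Type} [Field F] [NumberField F] [IQ F]

/-- The factor at a prime above: unit if and only if the factor below is. -/
theorem adm_iff (K K' : Type) [Field K] [NumberField K] [Algebra F K] [Field K'] [NumberField K']
    [Algebra F K'] [Algebra K K'] [IsScalarTower F K K'] (p : ℕ) (hp : p.Prime)
    {ψ : Ideal (𝓞 F) →*₀ 𝓞 F} (V : ValuationSubring ℂ) (hV : V.valuation (p : ℂ) < 1)
    (w : HeightOneSpectrum (𝓞 K)) (W : HeightOneSpectrum (𝓞 K'))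
    (hW : W.asIdeal.under (𝓞 K) = w.asIdeal) (hf : ∃ j : ℕ, W.asIdeal.inertiaDeg (𝓞 K) = p ^ j) :
    V.valuation (1 - (starRingEnd ℂ) (PsiP K ψ w.asIdeal)) = 1 ↔
    V.valuation (1 - (starRingEnd ℂ) (PsiP K' ψ W.asIdeal)) = 1 := by
  refine ⟨adm_up K K' p hp V hV w W hW hf, fun h => ?_⟩
  have hl : W.asIdeal.LiesOver w.asIdeal := ⟨hW.symm⟩
  have hw := w.isMaximal
  have hwp := w.isPrime
  have hWm := W.isMaximal
  have hWp := W.isPrime
  have h1 := Ideal.relNorm_eq_pow_of_isMaximal W.asIdeal w.asIdeal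
  rw [PsiP_top (K := K), h1, map_pow, map_pow] at h
  exact unit_of_pow V _ (PsiP_int ψ w.asIdeal V).2 _ h

end val

variable {F : Type} [Field F] [NumberField F] [IQ F] {Ω : Type} [Field Ω] [DecidableEq Ω]
  [Algebra F Ω] [IsAlgClosed Ω] [Algebra.IsAlgebraic F Ω] [CharZero Ω]

omit [IQ F] [DecidableEq Ω] in
/-- Ramified primes in a tower. -/
theorem ram_tower (M N K : IntermediateField F Ω)
    [NumberField M] [NumberField N] [NumberField K] (hMN : M ≤ N) (hNK : N ≤ K)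
    (hnorm : ∀ s ∈ N.fixingSubgroup, ∀ x ∈ K, s x ∈ K) (v : HeightOneSpectrum (𝓞 M)) :
    letI : Algebra N K := (IntermediateField.inclusion hNK).toRingHom.toAlgebra
    letI : Algebra M N := (IntermediateField.inclusion hMN).toRingHom.toAlgebra
    Ram M K v.asIdeal ↔ Ram M N v.asIdeal ∨ ∃ w : HeightOneSpectrum (𝓞 N),
      w.asIdeal.under (𝓞 M) = v.asIdeal ∧ H55R.es N K w ≠ 1 := by
  let _ : Algebra N K := (IntermediateField.inclusion hNK).toRingHom.toAlgebra
  let _ : Algebra M N := (IntermediateField.inclusion hMN).toRingHom.toAlgebra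
  let _ : Algebra M K := s13_alg (hMN.trans hNK)
  have t1 : IsScalarTower M N K := IsScalarTower.of_algebraMap_eq fun x => rfl
  have hKf : FiniteDimensional F K := Module.Finite.of_restrictScalars_finite ℚ F K
  have g1 : IsGalois N K := s13_galois N K hNK hnorm
  have hvm := v.isMaximal
  constructor
  · rintro ⟨W, hWp, hW⟩
    have hW' : ∀ x ∈ v.asIdeal, algebraMap (𝓞 M) (𝓞 K) x ∈ W ^ 2 := fun x hx => hW x _ hx rfl
    obtain ⟨w, hw1, hw2, h | h⟩ := i3_tower (N := N) v W hW'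
    · left
      refine ⟨w.asIdeal, w.isPrime, fun x y hx hxy => ?_⟩
      have h2 : y = algebraMap (𝓞 M) (𝓞 N) x := by
        apply RingOfIntegers.ext
        apply Subtype.ext
        exact hxy
      rw [h2]
      exact h x hx
    · right
      refine ⟨w, hw2, ?_⟩
      have hl : W.LiesOver w.asIdeal := ⟨hw1.symm⟩
      have hwm := w.isMaximal
      show w.asIdeal.ramificationIdxIn (𝓞 K) ≠ 1
      rw [Ideal.ramificationIdxIn_eq_ramificationIdx w.asIdeal W Gal(K/N)]
      exact h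
  · intro h
    rcases h with ⟨W, hWp, hW⟩ | ⟨w, hw1, hw2⟩
    · have hWn : W ≠ ⊥ := by
        rintro rfl
        apply v.ne_bot
        rw [eq_bot_iff]
        intro x hx
        have h1 := hW x (algebraMap (𝓞 M) (𝓞 N) x) hx rfl
        have h2 : algebraMap (𝓞 M) (𝓞 N) x = 0 := by
          have : algebraMap (𝓞 M) (𝓞 N) x ∈ (⊥ : Ideal (𝓞 N)) :=
            Ideal.pow_le_self two_ne_zero h1
          simpa using this
        have hinj : Function.Injective (algebraMap (𝓞 M) (𝓞 N)) :=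
          FaithfulSMul.algebraMap_injective _ _
        exact (map_eq_zero_iff _ hinj).1 h2
      have hWm : W.IsMaximal := hWp.isMaximal hWn
      obtain ⟨Q, hQ1, hQ2⟩ := Ideal.exists_maximal_ideal_liesOver_of_isIntegral (S := 𝓞 K) W
      refine ⟨Q, hQ1.isPrime, fun x y hx hxy => ?_⟩
      have h4 : (W ^ 2).map (algebraMap (𝓞 N) (𝓞 K)) ≤ Q ^ 2 := by
        rw [Ideal.map_pow]
        exact Ideal.pow_right_mono (Ideal.map_le_of_le_comap hQ2.over.le) 2
      have h1 := hW x (algebraMap (𝓞 M) (𝓞 N) x) hx rfl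
      have h2 : y = algebraMap (𝓞 N) (𝓞 K) (algebraMap (𝓞 M) (𝓞 N) x) := by
        apply RingOfIntegers.ext
        apply Subtype.ext
        exact hxy
      rw [h2]
      exact h4 (Ideal.mem_map_of_mem _ h1)
    · have hwm := w.isMaximal
      obtain ⟨Q, hQ1, hQ2⟩ := Ideal.exists_maximal_ideal_liesOver_of_isIntegral (S := 𝓞 K) w.asIdeal
      have hQp := hQ1.isPrime
      have hw3 : w.asIdeal.ramificationIdxIn (𝓞 K) ≠ 1 := hw2
      rw [Ideal.ramificationIdxIn_eq_ramificationIdx w.asIdeal Q Gal(K/N)] at hw3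
      refine ⟨Q, hQp, fun x y hx hxy => ?_⟩
      have h1 : algebraMap (𝓞 M) (𝓞 N) x ∈ w.asIdeal := by
        have : x ∈ w.asIdeal.under (𝓞 M) := by rw [hw1]; exact hx
        exact this
      have h2 : y = algebraMap (𝓞 N) (𝓞 K) (algebraMap (𝓞 M) (𝓞 N) x) := by
        apply RingOfIntegers.ext
        apply Subtype.ext
        exact hxy
      rw [h2]
      exact s13_le_sq w.asIdeal w.ne_bot Q hw3 _ h1

/-- The tower: the L-value over K is a unit if and only if the L-value over M is a unit and the factors at the ramified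
primes are units. -/
theorem LVP_tower_iff (p : ℕ) (hp : p.Prime) (M L : IntermediateField F Ω) (hL : PExt p M L)
    [NumberField M] [NumberField L] {m : Ideal (𝓞 F)} {ψ : Ideal (𝓞 F) →*₀ 𝓞 F} (h : IsHecke m ψ)
    (hmp : IsCoprime m (Ideal.span {(p : 𝓞 F)})) (Ac Bc Om : ℂ)
    (hper : Per F Ac Bc Om) (V : ValuationSubring ℂ) (hV : V.valuation (p : ℂ) < 1)
    (hg : GoodV Ac Bc V) (hNT : NTP M p m ψ V)
    (K : IntermediateField F Ω) [NumberField K] (hMK : M ≤ K)
    (hKL : K ≤ L) (hU : UnrP p K) : LVP F V Om (PsiP K ψ) ↔ LVP F V Om (PsiP M ψ) ∧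
      ∀ v : HeightOneSpectrum (𝓞 M), Ram M K v.asIdeal →
        V.valuation (1 - (starRingEnd ℂ) (PsiP M ψ v.asIdeal)) = 1 := by
  have hLf : FiniteDimensional F L := hL.fin
  have hMf : FiniteDimensional F M := finDim_of_le hL.le
  have key : ∀ (n : ℕ) (K : IntermediateField F Ω) [NumberField K], M ≤ K → K ≤ L → UnrP p K →
      Module.finrank F K = n → (LVP F V Om (PsiP K ψ) ↔ LVP F V Om (PsiP M ψ) ∧
        ∀ v : HeightOneSpectrum (𝓞 M), Ram M K v.asIdeal →
          V.valuation (1 - (starRingEnd ℂ) (PsiP M ψ v.asIdeal)) = 1) := by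
    intro n
    induction n using Nat.strong_induction_on with
    | _ n ih =>
      intro K _ hMK hKL hU hn
      rcases eq_or_ne K M with rfl | hne
      · refine ⟨fun h => ⟨h, fun v hv => ?_⟩, fun h => h.1⟩
        exfalso
        obtain ⟨W, hWp, hW⟩ := hv
        have h1 : v.asIdeal ≤ W ^ 2 := fun x hx => hW x x hx rfl
        have hWn : W ≠ ⊥ := by
          rintro rfl
          apply v.ne_bot
          rw [eq_bot_iff]
          exact h1.trans (Ideal.pow_le_self two_ne_zero)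
        have h2 : v.asIdeal = W := v.isMaximal.eq_of_le hWp.ne_top (h1.trans (Ideal.pow_le_self two_ne_zero))
        have h3 : W ≤ W ^ 2 := h2 ▸ h1
        have h4 := Ideal.pow_right_strictAnti W hWn hWp.ne_top (show 1 < 2 by norm_num)
        have h4' : W ^ 2 < W ^ 1 := h4
        rw [pow_one] at h4'
        exact lt_irrefl _ (lt_of_lt_of_le h4' h3)
      obtain ⟨N, hMN, hNK, hdeg, hnorm⟩ := chain_step p hp M K L hL hMK hKL hne
      have hKf : FiniteDimensional F K := finDim_of_le hKL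
      have hNf : FiniteDimensional F N := finDim_of_le hNK
      have hNn : NumberField N := H16C.FR_numberField N
      have hNpos : 0 < Module.finrank F N := Module.finrank_pos
      have hlt : Module.finrank F N < n := by
        rw [← hn, hdeg]
        exact lt_mul_of_one_lt_right hNpos hp.one_lt
      letI iNK : Algebra N K := (IntermediateField.inclusion hNK).toRingHom.toAlgebra
      letI iMN : Algebra M N := (IntermediateField.inclusion hMN).toRingHom.toAlgebra
      obtain ⟨hst, hgal, hfr⟩ := chain_types p hp N K hNK hnorm hdeg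
      have hstM : IsScalarTower F M N := alg_tower M N hMN
      have hLN := ih _ hlt N hMN (hNK.trans hKL) (UnrP.down N K p hp hU) rfl
      obtain ⟨j, hj⟩ := pext_deg p hp M N L hL hMN (hNK.trans hKL)
      have hNTN : NTP N p m ψ V := NTP_up M N p hp j hj V hV hNT
      rw [LVP_step_iff N K p hp hfr h hmp hU Ac Bc Om hper V hV hg hNTN, hLN]
      have hrt := fun v => ram_tower M N K hMN hNK hnorm v
      constructor
      · rintro ⟨⟨h1, h2⟩, h3⟩
        refine ⟨h1, fun v hv => ?_⟩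
        rcases (hrt v).1 hv with h4 | ⟨w, hw1, hw2⟩
        · exact h2 v h4
        · obtain ⟨v', hv', -, hf⟩ := ram_down p hp M N K L hL hMN hNK hKL hnorm w hw2
          have hf' : ∃ j : ℕ, w.asIdeal.inertiaDeg (𝓞 M) = p ^ j := hf
          exact (adm_iff M N p hp V hV v w hw1 hf').2 (h3 w hw2)
      · rintro ⟨h1, h2⟩
        refine ⟨⟨h1, fun v hv => h2 v ((hrt v).2 (Or.inl hv))⟩, fun w hw => ?_⟩
        obtain ⟨v, hv, -, hf⟩ := ram_down p hp M N K L hL hMN hNK hKL hnorm w hw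
        exact adm_up M N p hp V hV v w hv hf (h2 v ((hrt v).2 (Or.inr ⟨w, hv, hw⟩)))
  exact key _ K hMK hKL hU rfl

end H55P
end

-- from Lib.H55P.CL
section

open NumberField IsDedekindDomain

namespace H55P

/-! Ramification in a Galois closure. -/

section types

variable {M X L : Type} [Field M] [NumberField M] [Field X] [NumberField X] [Field L] [NumberField L]
  [Algebra M X] [Algebra X L] [Algebra M L] [IsScalarTower M X L] [IsGalois M L]

theorem cl_card (W : Ideal (𝓞 L)) [W.IsPrime] (hW : W ≠ ⊥) :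
    Nat.card (W.inertia Gal(L/M)) = W.ramificationIdx (𝓞 M) := by
  have hl : W.LiesOver (W.under (𝓞 M)) := ⟨rfl⟩
  have hne : W.under (𝓞 M) ≠ ⊥ := fun h => hW (Ideal.eq_bot_of_comap_eq_bot (R := 𝓞 M) (I := W) h)
  have hp' : (W.under (𝓞 M)).IsPrime := inferInstance
  have hmax : (W.under (𝓞 M)).IsMaximal := hp'.isMaximal hne
  rw [Ideal.card_inertia_eq_ramificationIdxIn (G := Gal(L/M)) (W.under (𝓞 M)) W,
    Ideal.ramificationIdxIn_eq_ramificationIdx (W.under (𝓞 M)) W Gal(L/M)]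

omit [IsGalois M L] in
theorem cl_tower (W : Ideal (𝓞 L)) [W.IsPrime] :
    W.ramificationIdx (𝓞 M) = (W.under (𝓞 X)).ramificationIdx (𝓞 M) * W.ramificationIdx (𝓞 X) := by
  have hl : W.LiesOver (W.under (𝓞 X)) := ⟨rfl⟩
  exact Ideal.ramificationIdx_tower (R := 𝓞 M) (W.under (𝓞 X)) W

/-- The restriction of scalars on inertia groups. -/
noncomputable def clmap (W : Ideal (𝓞 L)) :
    W.inertia Gal(L/X) → W.inertia Gal(L/M) := fun t => ⟨t.1.restrictScalars M, fun x => t.2 x⟩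

omit [NumberField M] [NumberField X] [NumberField L] [IsGalois M L] in
theorem clmap_inj (W : Ideal (𝓞 L)) :
    Function.Injective (clmap (M := M) (X := X) W) := by
  intro s t h
  apply Subtype.ext
  apply AlgEquiv.ext
  intro x
  have h1 := congrArg (fun r : W.inertia Gal(L/M) => (r.1 : L → L) x) h
  exact h1

theorem cl_fix (W : Ideal (𝓞 L)) [W.IsPrime] (hW : W ≠ ⊥)
    (he : (W.under (𝓞 X)).ramificationIdx (𝓞 M) = 1) (t : Gal(L/M)) (ht : t ∈ W.inertia Gal(L/M)) (x : X) :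
    t (algebraMap X L x) = algebraMap X L x := by
  have hg : IsGalois X L := IsGalois.tower_top_of_isGalois M X L
  have h1 := cl_card (M := M) W hW
  have h2 := cl_card (M := X) W hW
  have h3 := cl_tower (M := M) (X := X) W
  rw [he, one_mul] at h3
  have hfin : Finite (W.inertia Gal(L/M)) := inferInstance
  have hbij : Function.Bijective (clmap (M := M) (X := X) W) :=
    (clmap_inj (M := M) (X := X) W).bijective_of_nat_card_le (by rw [h1, h2, h3])
  obtain ⟨s, hs⟩ := hbij.2 ⟨t, ht⟩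
  have h4 := congrArg (fun r : W.inertia Gal(L/M) => (r.1 : L → L) (algebraMap X L x)) hs
  have h5 : s.1 (algebraMap X L x) = t (algebraMap X L x) := h4
  rw [← h5, s.1.commutes]

theorem cl_unr (W : Ideal (𝓞 L)) [W.IsPrime] (hW : W ≠ ⊥)
    (h : ∀ t ∈ W.inertia Gal(L/M), ∀ x : X, t (algebraMap X L x) = algebraMap X L x) :
    (W.under (𝓞 X)).ramificationIdx (𝓞 M) = 1 := by
  have hg : IsGalois X L := IsGalois.tower_top_of_isGalois M X L
  have h1 := cl_card (M := M) W hW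
  have h2 := cl_card (M := X) W hW
  have h3 := cl_tower (M := M) (X := X) W
  have hsurj : Function.Surjective (clmap (M := M) (X := X) W) := by
    rintro ⟨t, ht⟩
    let s : Gal(L/X) := AlgEquiv.ofRingEquiv (f := t.toRingEquiv) (h t ht)
    exact ⟨⟨s, fun x => ht x⟩, Subtype.ext (AlgEquiv.ext fun x => rfl)⟩
  have hle := Nat.card_le_card_of_surjective _ hsurj
  rw [h1, h2, h3] at hle
  have hne : W.under (𝓞 X) ≠ ⊥ := fun h => hW (Ideal.eq_bot_of_comap_eq_bot (R := 𝓞 X) (I := W) h)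
  have hX : 0 < W.ramificationIdx (𝓞 X) := Ideal.ramificationIdx_pos W (𝓞 X)
  have hM : 0 < (W.under (𝓞 X)).ramificationIdx (𝓞 M) :=
    Ideal.ramificationIdx_pos (W.under (𝓞 X)) (𝓞 M)
  have h4 : (W.under (𝓞 X)).ramificationIdx (𝓞 M) ≤ 1 := by
    by_contra hc
    have h5 : 2 * W.ramificationIdx (𝓞 X) ≤
        (W.under (𝓞 X)).ramificationIdx (𝓞 M) * W.ramificationIdx (𝓞 X) :=
      Nat.mul_le_mul_right _ (by omega)
    omega
  omega

end types

section closure

variable {F : Type} [Field F] [NumberField F] {Ω : Type} [Field Ω] [DecidableEq Ω]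
  [Algebra F Ω] [IsAlgClosed Ω] [Algebra.IsAlgebraic F Ω] [CharZero Ω]

/-- The Galois closure of K over M. -/
noncomputable def clos (M K : IntermediateField F Ω) : IntermediateField F Ω :=
  IntermediateField.adjoin F {y | ∃ g ∈ M.fixingSubgroup, ∃ x ∈ K, y = g x}

omit [NumberField F] [DecidableEq Ω] [IsAlgClosed Ω] [Algebra.IsAlgebraic F Ω] [CharZero Ω] in
theorem le_clos (M K : IntermediateField F Ω) : K ≤ clos M K := fun x hx =>
  IntermediateField.subset_adjoin F _ ⟨1, one_mem _, x, hx, rfl⟩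

omit [NumberField F] [DecidableEq Ω] [IsAlgClosed Ω] [Algebra.IsAlgebraic F Ω] [CharZero Ω] in
theorem clos_le (M K L : IntermediateField F Ω) (hKL : K ≤ L)
    (hn : ∀ s ∈ M.fixingSubgroup, ∀ x ∈ L, s x ∈ L) : clos M K ≤ L := by
  unfold clos
  rw [IntermediateField.adjoin_le_iff]
  rintro _ ⟨g, hg, x, hx, rfl⟩
  exact hn g hg x (hKL hx)

omit [NumberField F] [DecidableEq Ω] [IsAlgClosed Ω] [Algebra.IsAlgebraic F Ω] [CharZero Ω] in
theorem clos_norm (M K : IntermediateField F Ω) (s : Ω ≃ₐ[F] Ω) (hs : s ∈ M.fixingSubgroup) (x : Ω)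
    (hx : x ∈ clos M K) : s x ∈ clos M K := by
  have h : clos M K ≤ (clos M K).comap (s : Ω →ₐ[F] Ω) := by
    conv_lhs => unfold clos
    rw [IntermediateField.adjoin_le_iff]
    rintro _ ⟨g, hg, x, hx, rfl⟩
    show s (g x) ∈ clos M K
    exact IntermediateField.subset_adjoin F _ ⟨s * g, mul_mem hs hg, x, hx, rfl⟩
  exact h hx

omit [DecidableEq Ω] [IsAlgClosed Ω] [CharZero Ω] [Algebra.IsAlgebraic F Ω] in
theorem clos_pext (p : ℕ) (hp : p.Prime) (M K L : IntermediateField F Ω) (hL : PExt p M L)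
    (hMK : M ≤ K) (hKL : K ≤ L) : PExt p M (clos M K) := by
  have hLf := hL.fin
  have hle := clos_le M K L hKL hL.norm
  have hMc : M ≤ clos M K := hMK.trans (le_clos M K)
  have hcf : FiniteDimensional F (clos M K) := finDim_of_le hle
  have hMf : FiniteDimensional F M := finDim_of_le hMc
  refine ⟨hcf, hMc, fun s hs x hx => clos_norm M K s hs x hx, ?_⟩
  letI : Algebra M (clos M K) := (IntermediateField.inclusion hMc).toRingHom.toAlgebra
  obtain ⟨j, hj⟩ := pext_deg p hp M (clos M K) L hL hMc hle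
  have hst : IsScalarTower F M (clos M K) := alg_tower M (clos M K) hMc
  exact ⟨j, by rw [← Module.finrank_mul_finrank F M (clos M K), hj]⟩

omit [DecidableEq Ω] in
/-- The ramified primes of the Galois closure. -/
theorem clos_ram (M K L : IntermediateField F Ω) [FiniteDimensional F L]
    [NumberField M] (hMK : M ≤ K) (hKL : K ≤ L) (hn : ∀ s ∈ M.fixingSubgroup, ∀ x ∈ L, s x ∈ L)
    (v : HeightOneSpectrum (𝓞 M)) (hv : Ram M (clos M K) v.asIdeal) : Ram M K v.asIdeal := by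
  by_contra hnr
  have hCL : clos M K ≤ L := clos_le M K L hKL hn
  have hMC : M ≤ clos M K := hMK.trans (le_clos M K)
  have hKf : FiniteDimensional F K := finDim_of_le hKL
  have hCf : FiniteDimensional F (clos M K) := finDim_of_le hCL
  have hMf : FiniteDimensional F M := finDim_of_le hMK
  have hLn : NumberField L := H16C.FR_numberField L
  have hKn : NumberField K := H16C.FR_numberField K
  have hCn : NumberField (clos M K) := H16C.FR_numberField _
  let _ : Algebra M L := s13_alg (hMK.trans hKL)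
  let _ : Algebra M K := s13_alg hMK
  let _ : Algebra K L := s13_alg hKL
  let _ : Algebra M (clos M K) := s13_alg hMC
  let _ : Algebra (clos M K) L := s13_alg hCL
  have t1 : IsScalarTower M K L := IsScalarTower.of_algebraMap_eq fun x => rfl
  have t2 : IsScalarTower M (clos M K) L := IsScalarTower.of_algebraMap_eq fun x => rfl
  have hgal : IsGalois M L := s13_galois M L (hMK.trans hKL) hn
  -- inertia groups above v fix K
  have hfixK : ∀ W : Ideal (𝓞 L), W.IsPrime → W.under (𝓞 M) = v.asIdeal →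
      ∀ t ∈ W.inertia Gal(L/M), ∀ x : K, t (algebraMap K L x) = algebraMap K L x := by
    intro W hWp hW t ht x
    have hWb : W ≠ ⊥ := by
      rintro rfl
      apply v.ne_bot
      rw [← hW, eq_bot_iff]
      intro y hy
      have h1 : algebraMap (𝓞 M) (𝓞 L) y = 0 := by
        have : algebraMap (𝓞 M) (𝓞 L) y ∈ (⊥ : Ideal (𝓞 L)) := hy
        simpa using this
      exact (map_eq_zero_iff _ (FaithfulSMul.algebraMap_injective (𝓞 M) (𝓞 L))).1 h1
    refine cl_fix W hWb ?_ t ht x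
    by_contra hr
    apply hnr
    have hov : (W.under (𝓞 K)).LiesOver v.asIdeal := by
      refine ⟨?_⟩
      rw [← hW]
      ext y
      have h1 : algebraMap (𝓞 K) (𝓞 L) (algebraMap (𝓞 M) (𝓞 K) y) = algebraMap (𝓞 M) (𝓞 L) y := by
        apply RingOfIntegers.ext
        rfl
      show algebraMap (𝓞 M) (𝓞 L) y ∈ W ↔ algebraMap (𝓞 K) (𝓞 L) (algebraMap (𝓞 M) (𝓞 K) y) ∈ W
      rw [h1]
    refine ⟨W.under (𝓞 K), inferInstance, fun y z hy hyz => ?_⟩
    have h2 : z = algebraMap (𝓞 M) (𝓞 K) y := by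
      apply RingOfIntegers.ext
      apply Subtype.ext
      exact hyz
    rw [h2]
    exact s13_le_sq v.asIdeal v.ne_bot (W.under (𝓞 K)) hr y hy
  obtain ⟨W', hW'p, hW'⟩ := hv
  have hvm := v.isMaximal
  have hW'x : ∀ x ∈ v.asIdeal, algebraMap (𝓞 M) (𝓞 (clos M K)) x ∈ W' ^ 2 := fun x hx =>
    hW' x _ hx rfl
  have hW'b : W' ≠ ⊥ := by
    rintro rfl
    apply v.ne_bot
    rw [eq_bot_iff]
    intro x hx
    have h2 : algebraMap (𝓞 M) (𝓞 (clos M K)) x = 0 := by
      have : algebraMap (𝓞 M) (𝓞 (clos M K)) x ∈ (⊥ : Ideal (𝓞 (clos M K))) :=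
        Ideal.pow_le_self two_ne_zero (hW'x x hx)
      simpa using this
    exact (map_eq_zero_iff _ (FaithfulSMul.algebraMap_injective (𝓞 M) (𝓞 (clos M K)))).1 h2
  have hW'm : W'.IsMaximal := hW'p.isMaximal hW'b
  obtain ⟨W, hW1, hW2⟩ := Ideal.exists_maximal_ideal_liesOver_of_isIntegral (S := 𝓞 L) W'
  have hWp := hW1.isPrime
  have hWb : W ≠ ⊥ := Ideal.ne_bot_of_liesOver_of_ne_bot hW'b W
  have hWv : W.under (𝓞 M) = v.asIdeal := by
    symm
    refine hvm.eq_of_le (Ideal.IsPrime.ne_top inferInstance) fun x hx => ?_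
    show algebraMap (𝓞 M) (𝓞 L) x ∈ W
    have h1 : algebraMap (𝓞 (clos M K)) (𝓞 L) (algebraMap (𝓞 M) (𝓞 (clos M K)) x) =
        algebraMap (𝓞 M) (𝓞 L) x := by
      apply RingOfIntegers.ext
      rfl
    rw [← h1]
    have h2 : algebraMap (𝓞 M) (𝓞 (clos M K)) x ∈ W' := Ideal.pow_le_self two_ne_zero (hW'x x hx)
    rw [hW2.over] at h2
    exact h2
  have hu : W.under (𝓞 (clos M K)) = W' := hW2.over.symm
  -- restriction of automorphisms
  have hres : ∀ g ∈ M.fixingSubgroup, ∃ t : Gal(L/M), ∀ x : L, ((t x : L) : Ω) = g x.1 := by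
    intro g hg
    let e : L ≃+* L :=
      { toFun := fun x => ⟨g x.1, hn g hg x.1 x.2⟩
        invFun := fun x => ⟨g⁻¹ x.1, hn g⁻¹ (inv_mem hg) x.1 x.2⟩
        left_inv := fun x => Subtype.ext (g.symm_apply_apply x.1)
        right_inv := fun x => Subtype.ext (g.apply_symm_apply x.1)
        map_mul' := fun x y => Subtype.ext (map_mul g x.1 y.1)
        map_add' := fun x y => Subtype.ext (map_add g x.1 y.1) }
    exact ⟨AlgEquiv.ofRingEquiv (f := e) (fun x => Subtype.ext (hg x)), fun x => rfl⟩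
  have hfixC : ∀ t ∈ W.inertia Gal(L/M), ∀ x : clos M K,
      t (algebraMap (clos M K) L x) = algebraMap (clos M K) L x := by
    intro t ht
    have hstF : IsScalarTower F M L := IsScalarTower.of_algebraMap_eq fun x => rfl
    -- the fixed elements of L form a field containing the generators
    let Fx : IntermediateField F L := IntermediateField.fixedField
      (Subgroup.zpowers (t.restrictScalars F))
    have hmem : ∀ y : L, y ∈ Fx ↔ t y = y := by
      intro y
      rw [IntermediateField.mem_fixedField_iff]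
      constructor
      · intro h
        exact h _ (Subgroup.mem_zpowers _)
      · intro h f hf
        obtain ⟨n, rfl⟩ := Subgroup.mem_zpowers_iff.1 hf
        have h1 : t.restrictScalars F ∈ MulAction.stabilizer (L ≃ₐ[F] L) y := h
        exact zpow_mem h1 n
    have hle : clos M K ≤ IntermediateField.lift Fx := by
      unfold clos
      rw [IntermediateField.adjoin_le_iff]
      rintro _ ⟨g, hg, x, hx, rfl⟩
      obtain ⟨tg, htg⟩ := hres g hg
      have h1 : ((tg ⟨x, hKL hx⟩ : L) : Ω) = g x := htg _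
      have h2 : tg ⟨x, hKL hx⟩ ∈ Fx := by
        rw [hmem]
        obtain ⟨W₂, hW₂⟩ : ∃ W₂ : Ideal (𝓞 L),
            W₂ = W.comap (MulSemiringAction.toRingHom Gal(L/M) (𝓞 L) tg) := ⟨_, rfl⟩
        have hW₂p : W₂.IsPrime := by
          rw [hW₂]
          exact hWp.comap _
        have hm2 : ∀ y : 𝓞 L, y ∈ W₂ ↔ tg • y ∈ W := by
          intro y
          rw [hW₂]
          exact Iff.rfl
        have hu2 : W₂.under (𝓞 M) = v.asIdeal := by
          rw [← hWv]
          ext y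
          show algebraMap (𝓞 M) (𝓞 L) y ∈ W₂ ↔ algebraMap (𝓞 M) (𝓞 L) y ∈ W
          rw [hm2, smul_algebraMap]
        have hi2 : tg⁻¹ * t * tg ∈ W₂.inertia Gal(L/M) := by
          intro y
          show (tg⁻¹ * t * tg) • y - y ∈ W₂
          rw [hm2, smul_sub, ← mul_smul, ← mul_assoc, ← mul_assoc, mul_inv_cancel, one_mul, mul_smul]
          exact ht (tg • y)
        have h3 := hfixK W₂ hW₂p hu2 _ hi2 ⟨x, hx⟩
        have h4 : tg ((tg⁻¹ * t * tg) (algebraMap K L ⟨x, hx⟩)) = tg (algebraMap K L ⟨x, hx⟩) :=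
          congrArg tg h3
        have h5 : tg ((tg⁻¹ * t * tg) (algebraMap K L ⟨x, hx⟩)) = t (tg (algebraMap K L ⟨x, hx⟩)) := by
          show (tg * (tg⁻¹ * t * tg)) (algebraMap K L ⟨x, hx⟩) = (t * tg) (algebraMap K L ⟨x, hx⟩)
          rw [← mul_assoc, ← mul_assoc, mul_inv_cancel, one_mul]
        rw [h5] at h4
        exact h4
      have h6 := (IntermediateField.mem_lift (E := Fx) (tg ⟨x, hKL hx⟩)).2 h2
      rw [h1] at h6
      exact h6
    intro x
    have h7 := hle x.2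
    have h8 := (IntermediateField.mem_lift (E := Fx) (algebraMap (clos M K) L x)).1 h7
    exact (hmem _).1 h8
  have h5 := cl_unr (X := clos M K) W hWb hfixC
  rw [hu] at h5
  have hl : W'.LiesOver v.asIdeal := by
    refine ⟨?_⟩
    rw [← hWv, ← hu]
    ext y
    rfl
  exact i3_idx v.asIdeal v.ne_bot W' hW'x h5

end closure

end H55P
end
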