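import Mathlib
import Pool.Agent.Lib.H1M.PP2.D_H28T_CD
import Pool.Agent.Lib.H1M.PP2.D_H28T_Defs
import Pool.Agent.Lib.H1M.PP2.D_H55K_D2
import Pool.Agent.Lib.H1M.PP2.D_H55P_Sel
import Pool.Agent.Lib.H1M.PP2.M010
import Pool.Agent.Lib.H1M.PP2.M019
import Pool.Agent.Lib.H1M.PP2.M020
import Pool.Agent.Lib.H1M.PP2.M021
import Pool.Agent.Lib.H1M.PP2.M022
import Pool.Agent.Lib.H1M.PP2.M040
import Pool.Agent.Lib.H1M.PP2.M048
import Pool.Agent.Lib.H1M.PP2.M052
import Pool.Agent.Lib.H1M.PP2.M054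
import Pool.Agent.Lib.H1M.PP2.M058
import Pool.Agent.Lib.H1M.PP2.M062
import Pool.Agent.Lib.H1M.PP2.M070
import Pool.Agent.Lib.H1M.PP2.M073
import Pool.Agent.Lib.H1M.PP2.M074
import Pool.Agent.Lib.H1M.PP2.M075
import Pool.Agent.Lib.H1M.PP2.M080
import Pool.Agent.Lib.H1M.PP2.M083
import Pool.Agent.Lib.H1M.PP2.M086

/-! Merged copies (to shorten the build) of Lib.H13D.B1, Lib.H13D.B2, Lib.H28I.V1, Lib.H28I.V2, Lib.H28I.V0, Lib.H28I.V5, Lib.H13D.B3, Lib.H28I.LA1, Lib.H28G.K1, Lib.H55K.UD, Lib.H55K.UA3, Lib.H28I.LA2, Lib.H28I.LA3, Lib.H28I.LA3B, Lib.H28T.CD_T, Lib.H55K.UA2A, Lib.H28I.C1, Lib.H28T.AQ1, Lib.H55K.UB2, Lib.H28I.E4, Lib.H28I.E5, Lib.H28T.A3, Lib.H13D.R1, Lib.H13D.R2, Lib.H16S.A3E. -/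

-- from Lib.H13D.B1
section

/-! # H13D, part B: integral models -/

open NumberField IsDedekindDomain WeierstrassCurve

namespace H13D

open H55P (IQ embF eF LF Per IsHecke Pt ac Inert Dec Nm)
open H35P (WAB Ker tt GoodW IntW)
open H55K
open H55K.MG (VC Crd)

theorem b1_div {k : Type} [Field k] {V : ValuationSubring k} {a b : k} (ha : a ∈ V) (hb : V.valuation b = 1) :
    a / b ∈ V := by
  rw [← V.valuation_le_one_iff, map_div₀, hb, div_one, V.valuation_le_one_iff]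
  exact ha

theorem b1_addX {k : Type} [Field k] {W : WeierstrassCurve k} {V : ValuationSubring k} (h : IntW W V) {x x' l : k}
    (hx : x ∈ V) (hx' : x' ∈ V) (hl : l ∈ V) : W.toAffine.addX x x' l ∈ V := by
  unfold Affine.addX
  exact sub_mem (sub_mem (sub_mem (add_mem (pow_mem hl 2) (mul_mem h.a1 hl)) h.a2) hx) hx'

theorem b1_unit {k : Type} [Field k] {V : ValuationSubring k} {a : k} (ha : a ∈ V) (h : ¬ V.valuation a < 1) :
    V.valuation a = 1 :=
  le_antisymm ((V.valuation_le_one_iff _).2 ha) (not_lt.1 h)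

/-- Chunk B1 (M). Points congruent modulo the kernel of reduction have congruent coordinates (any good Weierstrass equation, all residue characteristics). Ker is a subgroup (MG.kg_ex in M3B.lean with Θ the identity, or H35P.ker_add). Q is not in Ker, else P = Q - (Q - P) is. P, Q have integral coordinates x, y and x', y' (MG.int_crd).
x' congruent to x: otherwise V(x' - x) = 1; Q - P = Q + (-P), -P = (x, y°), y° = -y - a₁ x - a₃ (Affine.Point.neg_some, negY); add_some with the slope l = (y' - y°)/(x' - x) in V (slope_of_X_ne); the x-coordinate l^2 + a₁ l - a₂ - x' - x of Q - P is in V, so Q - P is not in Ker (Ker on some): contradiction.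
y' congruent to y: otherwise V(y' - y) = 1. The equations give (y' - y)(y' - y°) = y'^2 + a₁ x y' + a₃ y' - (y^2 + a₁ x y + a₃ y), which is congruent to the difference of the cubics in x' and x, so it has value < 1: V(y' - y°) < 1, and Ker (Q - (-P)) by MG.cong_ker (Q, -P). So Ker (P + P) (P + P = (Q + P) - (Q - P)). But V(y - y°) = 1 (y - y° = (y - y') + (y' - y°)), so y ≠ y°,
P + P = some with the tangent slope l = (3x^2 + 2a₂ x + a₄ - a₁ y)/(y - y°) in V (Affine.slope_of_Y_ne), x-coordinate l^2 + a₁ l - a₂ - 2x in V: P + P is not in Ker: contradiction. -/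
theorem conv_gen {k : Type} [Field k] [DecidableEq k] {W : WeierstrassCurve k} {V : ValuationSubring k} (h : GoodW W V)
    {P Q : W.toAffine.Point} (hP : ¬ Ker V P) (hK : Ker V (Q - P)) :
    ¬ Ker V Q ∧ V.valuation (xc Q - xc P) < 1 ∧ V.valuation (yc Q - yc P) < 1 := by
  have hQ : ¬ Ker V Q := by
    intro hQ
    apply hP
    have h1 := H35P.ker_add h.toIntW Q (-(Q - P)) hQ ((H35P.ker_neg _).2 hK)
    have h2 : Q + -(Q - P) = P := by abel
    rwa [h2] at h1
  obtain ⟨hP0, hPx, hPy⟩ := MG.int_crd h hP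
  obtain ⟨hQ0, hQx, hQy⟩ := MG.int_crd h hQ
  rcases P with _ | ⟨x, y, hn⟩
  · exact absurd rfl hP0
  rcases Q with _ | ⟨x', y', hn'⟩
  · exact absurd rfl hQ0
  change x ∈ V at hPx
  change y ∈ V at hPy
  change x' ∈ V at hQx
  change y' ∈ V at hQy
  have hy0 : W.toAffine.negY x y ∈ V := by
    unfold Affine.negY
    exact sub_mem (sub_mem (neg_mem hPy) (mul_mem h.a1 hPx)) h.a3
  have hX : V.valuation (x' - x) < 1 := by
    by_contra hlt
    have hu := b1_unit (sub_mem hQx hPx) hlt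
    have hne : x' ≠ x := by
      intro he
      rw [he, sub_self, map_zero] at hu
      exact zero_ne_one hu
    have hK' := hK
    rw [sub_eq_add_neg, Affine.Point.neg_some, Affine.Point.add_some (fun hc => hne hc.1)] at hK'
    have h3 : W.toAffine.addX x' x (W.toAffine.slope x' x y' (W.toAffine.negY x y)) ∈ V := by
      rw [Affine.slope_of_X_ne hne]
      exact b1_addX h.toIntW hQx hPx (b1_div (sub_mem hQy hy0) hu)
    exact absurd ((V.valuation_le_one_iff _).2 h3) (not_le.2 hK')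
  refine ⟨hQ, hX, ?_⟩
  show V.valuation (y' - y) < 1
  by_contra hlt
  have hu := b1_unit (sub_mem hQy hPy) hlt
  have e1 := (Affine.equation_iff _ _).1 hn.1
  have e2 := (Affine.equation_iff _ _).1 hn'.1
  have hkey : (y' - y) * (y' - W.toAffine.negY x y) = (x' ^ 2 + x' * x + x ^ 2 +
      W.a₂ * (x' + x) + W.a₄ - W.a₁ * y') * (x' - x) := by
    unfold Affine.negY
    linear_combination e2 - e1
  have hin : x' ^ 2 + x' * x + x ^ 2 + W.a₂ * (x' + x) + W.a₄ - W.a₁ * y' ∈ V :=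
    sub_mem (add_mem (add_mem (add_mem (add_mem (pow_mem hQx 2) (mul_mem hQx hPx)) (pow_mem hPx 2))
      (mul_mem h.a2 (add_mem hQx hPx))) h.a4) (mul_mem h.a1 hQy)
  have hs : V.valuation (y' - W.toAffine.negY x y) < 1 := by
    have hv := congrArg V.valuation hkey
    rw [map_mul, map_mul, hu, one_mul] at hv
    rw [hv]
    exact mul_lt_one_of_nonneg_of_lt_one_right ((V.valuation_le_one_iff _).2 hin) zero_le hX
  have hPn : ¬ Ker V (-(Affine.Point.some x y hn : W.toAffine.Point)) := fun hk => hP ((H35P.ker_neg _).1 hk)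
  have hQP : Ker V ((Affine.Point.some x' y' hn' : W.toAffine.Point) - -(Affine.Point.some x y hn : W.toAffine.Point)) :=
    MG.cong_ker h hQ hPn (by rw [Affine.Point.neg_some]; exact hX) (by rw [Affine.Point.neg_some]; exact hs)
  have hPP : Ker V ((Affine.Point.some x y hn : W.toAffine.Point) + (Affine.Point.some x y hn : W.toAffine.Point)) := by
    have h1 := H35P.ker_add h.toIntW _ _ hQP ((H35P.ker_neg _).2 hK)
    have h2 : ∀ P Q : W.toAffine.Point, Q - -P + -(Q - P) = P + P := by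
      intro P Q
      abel
    rwa [h2] at h1
  have hvy : V.valuation (y - W.toAffine.negY x y) = 1 := by
    have h1 : y - W.toAffine.negY x y = -(y' - y) + (y' - W.toAffine.negY x y) := by ring
    rw [h1]
    rw [Valuation.map_add_eq_of_lt_left _ (by rw [Valuation.map_neg, hu]; exact hs), Valuation.map_neg, hu]
  have hyne : y ≠ W.toAffine.negY x y := by
    intro he
    rw [← he, sub_self, map_zero] at hvy
    exact zero_ne_one hvy
  rw [Affine.Point.add_some (fun hc => hyne hc.2)] at hPP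
  have h3 : W.toAffine.addX x x (W.toAffine.slope x x y y) ∈ V := by
    rw [Affine.slope_of_Y_ne rfl hyne]
    refine b1_addX h.toIntW hPx hPx (b1_div ?_ hvy)
    have two : (2 : k) ∈ V := by exact_mod_cast natCast_mem V 2
    have three : (3 : k) ∈ V := by exact_mod_cast natCast_mem V 3
    exact sub_mem (add_mem (add_mem (mul_mem three (pow_mem hPx 2)) (mul_mem (mul_mem two h.a2) hPx)) h.a4) (mul_mem h.a1 hPy)
  exact absurd ((V.valuation_le_one_iff _).2 h3) (not_le.2 hPP)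

end H13D
end

-- from Lib.H13D.B2
section

/-! # H13D, part B: integral models -/

open NumberField IsDedekindDomain WeierstrassCurve

namespace H13D

open H55P (IQ embF eF LF Per IsHecke Pt ac Inert Dec Nm)
open H35P (WAB Ker tt GoodW IntW)
open H55K
open H55K.MG (VC Crd)

variable {F : Type} [Field F] {A B : F} {Ω : Type} [Field Ω] [DecidableEq Ω] [Algebra F Ω] {V : ValuationSubring Ω}

/-- Chunk B2 (S). hc: xc P = u^2 xc (Θ P) + r for P ≠ 0. -/
theorem xn_crd {W' : WeierstrassCurve Ω} {u r s t : Ω} (hu : u ≠ 0) {Θ : Pt (WAB A B) Ω ≃+ W'.toAffine.Point} (hc : Crd u r s t Θ)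
    {P : Pt (WAB A B) Ω} (h0 : P ≠ 0) : xn u r P = xc (Θ P) := by
  unfold xn
  rw [(hc P h0).2.1, add_sub_cancel_right, mul_div_cancel_left₀ _ (pow_ne_zero 2 hu)]

/-- Chunk B2 (S/M). For P ≠ 0: xn P = xc (Θ P) (xn_crd). tors: MG.kg_tors (M3B.lean). int, big: P not in Kg is not 0; MG.int_crd, MG.ker_crd (M3A.lean) for Θ P. diff: MG.unit_diff for Θ P, Θ Q (map_sub, map_add). conv: conv_gen for Θ P, Θ Q (P, Q ≠ 0: P not in Kg; Q not in Kg by conv_gen, so Q ≠ 0). -/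
theorem rm_of {W' : WeierstrassCurve Ω} (hG : GoodW W' V) {u r s t : Ω} (hu : u ≠ 0) {Θ : Pt (WAB A B) Ω ≃+ W'.toAffine.Point}
    (hc : Crd u r s t Θ) {Kg : AddSubgroup (Pt (WAB A B) Ω)} (hK : ∀ P, P ∈ Kg ↔ Ker V (Θ P)) : RM A B V Kg u r := by
  have hne : ∀ P : Pt (WAB A B) Ω, P ∉ Kg → P ≠ 0 := by
    intro P hP h0
    rw [h0] at hP
    exact hP Kg.zero_mem
  refine ⟨hu, ?_, ?_, ?_, ?_, ?_⟩
  · intro n hn T hT h0
    exact MG.kg_tors hG hn ((hK T).1 hT) h0
  · intro P hP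
    rw [xn_crd hu hc (hne P hP)]
    exact (V.valuation_le_one_iff _).2 (MG.int_crd hG (fun h => hP ((hK P).2 h))).2.1
  · intro P hP h0
    rw [xn_crd hu hc h0]
    exact (MG.ker_crd (hc P h0).1).1 ((hK P).1 hP)
  · intro P Q hP hQ h1 h2
    rw [xn_crd hu hc (hne P hP), xn_crd hu hc (hne Q hQ)]
    rw [hK] at hP hQ h1 h2
    rw [map_sub] at h1
    rw [map_add] at h2
    exact MG.unit_diff hG hP hQ h1 h2
  · intro P Q hP h1
    have hP' : ¬ Ker V (Θ P) := fun h => hP ((hK P).2 h)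
    rw [hK, map_sub] at h1
    obtain ⟨h2, h3, -⟩ := conv_gen hG hP' h1
    have hQ : Q ∉ Kg := fun h => h2 ((hK Q).1 h)
    rw [xn_crd hu hc (hne P hP), xn_crd hu hc (hne Q hQ)]
    exact h3

end H13D
end

-- from Lib.H28I.V1
section

/-! # H28I, part V: the identity of the isogeny -/

open NumberField IsDedekindDomain WeierstrassCurve

namespace H28I

open H55P (IQ embF eF LF Per IsHecke Pt ac Inert Dec Nm)
open H35P (WAB Ker tt GoodW IntW)
open H55K (xc yc)

/-- Chunk V1 (M). z = x - e. In the first case of h.cs: u = 0, B = - e^3 - A e, t = 3 e^2 + A: field_simp, ring. In the second case, with t, u, A', B' substituted, and numerators R = (z + e) z^2 + t z + u (vx = R/z^2), D = z^3 - t z - 2 u (vd = D/z^3):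
R^3 + A' R z^4 + B' z^6 - D^2 ((z + e)^3 + A (z + e) + B) = (6 z^5 - 12 z^3 e^2 - 4 z^3 A - 12 z^2 e^3 - 12 z^2 e A - 12 z^2 B) (3 e^4 + 6 A e^2 + 12 B e - A^2)
(checked by computer), so linear_combination with this cofactor, then divide by z^6. -/
theorem vi_id {k : Type} [Field k] {A B A' B' e t u x : k} (h : VI A B A' B' e t u) (hx : x ≠ e) :
    vx e t u x ^ 3 + A' * vx e t u x + B' = vd e t u x ^ 2 * (x ^ 3 + A * x + B) := by
  obtain ⟨z, rfl⟩ : ∃ z, x = z + e := ⟨x - e, by ring⟩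
  have hz : z ≠ 0 := by
    rintro rfl
    exact hx (zero_add e)
  obtain ⟨-, -, rfl, rfl, hcs⟩ := h
  unfold vx vd
  rw [add_sub_cancel_right]
  rcases hcs with ⟨rfl, h1, rfl⟩ | ⟨rfl, rfl, h1⟩
  · obtain rfl : B = -e ^ 3 - A * e := by linear_combination h1
    field_simp
    ring
  · have e1 : (z + e + 2 * (3 * e ^ 2 + A) / z + 4 * (e ^ 3 + A * e + B) / z ^ 2) =
        ((z + e) * z ^ 2 + 2 * (3 * e ^ 2 + A) * z + 4 * (e ^ 3 + A * e + B)) / z ^ 2 := by
      field_simp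
    have e2 : 1 - 2 * (3 * e ^ 2 + A) / z ^ 2 - 2 * (4 * (e ^ 3 + A * e + B)) / z ^ 3 =
        (z ^ 3 - 2 * (3 * e ^ 2 + A) * z - 2 * (4 * (e ^ 3 + A * e + B))) / z ^ 3 := by
      field_simp
    rw [e1, e2]
    have hz6 : z ^ 6 ≠ 0 := pow_ne_zero 6 hz
    have e3 : (((z + e) * z ^ 2 + 2 * (3 * e ^ 2 + A) * z + 4 * (e ^ 3 + A * e + B)) / z ^ 2) ^ 3 +
        (A - 5 * (2 * (3 * e ^ 2 + A))) *
          (((z + e) * z ^ 2 + 2 * (3 * e ^ 2 + A) * z + 4 * (e ^ 3 + A * e + B)) / z ^ 2) +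
        (B - 7 * (4 * (e ^ 3 + A * e + B) + e * (2 * (3 * e ^ 2 + A)))) =
        (((z + e) * z ^ 2 + 2 * (3 * e ^ 2 + A) * z + 4 * (e ^ 3 + A * e + B)) ^ 3 +
        (A - 5 * (2 * (3 * e ^ 2 + A))) *
          ((z + e) * z ^ 2 + 2 * (3 * e ^ 2 + A) * z + 4 * (e ^ 3 + A * e + B)) * z ^ 4 +
        (B - 7 * (4 * (e ^ 3 + A * e + B) + e * (2 * (3 * e ^ 2 + A)))) * z ^ 6) / z ^ 6 := by
      field_simp
    have e4 : ((z ^ 3 - 2 * (3 * e ^ 2 + A) * z - 2 * (4 * (e ^ 3 + A * e + B))) / z ^ 3) ^ 2 *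
        ((z + e) ^ 3 + A * (z + e) + B) =
        ((z ^ 3 - 2 * (3 * e ^ 2 + A) * z - 2 * (4 * (e ^ 3 + A * e + B))) ^ 2 *
        ((z + e) ^ 3 + A * (z + e) + B)) / z ^ 6 := by
      field_simp
    rw [e3, e4]
    congr 1
    linear_combination (6 * z ^ 5 - 12 * z ^ 3 * e ^ 2 - 4 * z ^ 3 * A - 12 * z ^ 2 * e ^ 3 - 12 * z ^ 2 * e * A -
      12 * z ^ 2 * B) * h1

end H28I
end

-- from Lib.H28I.V2
section

/-! # H28I, part V: the map -/

open NumberField IsDedekindDomain WeierstrassCurve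

namespace H28I

open H55P (IQ embF eF LF Per IsHecke Pt ac Inert Dec Nm)
open H35P (WAB Ker tt GoodW IntW)
open H55K (xc yc)

theorem v2_delta {k : Type} [Field k] (A B : k) : (WAB A B).Δ = -16 * (4 * A ^ 3 + 27 * B ^ 2) := by
  unfold WeierstrassCurve.Δ WeierstrassCurve.b₂ WeierstrassCurve.b₄ WeierstrassCurve.b₆ WeierstrassCurve.b₈ WAB
  ring

theorem v2_eq {k : Type} [Field k] {A B x y : k} : (WAB A B).toAffine.Equation x y ↔ y ^ 2 = x ^ 3 + A * x + B := by
  rw [Affine.equation_iff]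
  simp only [WAB]
  constructor
  · intro h
    linear_combination h
  · intro h
    linear_combination h

theorem v2_ns {k : Type} [Field k] [CharZero k] {A B x y : k} (hd : 4 * A ^ 3 + 27 * B ^ 2 ≠ 0)
    (h : y ^ 2 = x ^ 3 + A * x + B) : (WAB A B).toAffine.Nonsingular x y := by
  have hD : (WAB A B).Δ ≠ 0 := by
    rw [v2_delta]
    exact mul_ne_zero (by norm_num) hd
  exact (Affine.equation_iff_nonsingular_of_Δ_ne_zero hD).1 (v2_eq.2 h)

theorem v2_pt {k : Type} [Field k] {A B : k} {P : (WAB A B).toAffine.Point} (hP : P ≠ 0) :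
    yc P ^ 2 = xc P ^ 3 + A * xc P + B := by
  rcases P with _ | ⟨x, y, h⟩
  · exact absurd rfl hP
  exact v2_eq.1 h.1

theorem v2_ext {k : Type} [Field k] {W : WeierstrassCurve k} {P Q : W.toAffine.Point} (hP : P ≠ 0) (hQ : Q ≠ 0)
    (hx : xc P = xc Q) (hy : yc P = yc Q) : P = Q := by
  rcases P with _ | ⟨x, y, h⟩
  · exact absurd rfl hP
  rcases Q with _ | ⟨x', y', h'⟩
  · exact absurd rfl hQ
  have h1 : x = x' := hx
  have h2 : y = y' := hy
  subst h1 h2
  rfl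

/-- Chunk V2 (M). By cases on the point: 0 goes to 0, some x y to 0 if x = e and otherwise to some (vx e t u x) (vd e t u x * y): the equation is vi_id (and y^2 = x^3 + A x + B: Affine.equation_iff), nonsingular because the discriminant -16 (4 A'^3 + 27 B'^2) is not 0 (Affine.equation_iff_nonsingular_of_Δ_ne_zero; H35P.B1_delta). Use if x = e then .. else .. (classical). -/
theorem exists_v {k : Type} [Field k] [CharZero k] {A B A' B' e t u : k} (h : VI A B A' B' e t u) :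
    ∃ Φ : (WAB A B).toAffine.Point → (WAB A' B').toAffine.Point, IsV A B A' B' e t u Φ := by
  classical
  have hns : ∀ P : (WAB A B).toAffine.Point, P ≠ 0 ∧ xc P ≠ e →
      (WAB A' B').toAffine.Nonsingular (vx e t u (xc P)) (vd e t u (xc P) * yc P) := by
    intro P hP
    refine v2_ns h.disc' ?_
    rw [vi_id h hP.2, mul_pow, v2_pt hP.1]
  refine ⟨fun P => if hP : P ≠ 0 ∧ xc P ≠ e then .some _ _ (hns P hP) else 0, ?_, ?_, ?_, ?_, ?_⟩
  · exact dif_neg fun h => h.1 rfl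
  · intro P _ hx
    exact dif_neg fun h => h.2 hx
  · intro P h0 hx
    show (if hP : P ≠ 0 ∧ xc P ≠ e then Affine.Point.some _ _ (hns P hP) else 0) ≠ 0
    rw [dif_pos ⟨h0, hx⟩]
    exact Affine.Point.some_ne_zero _
  · intro P h0 hx
    show xc (if hP : P ≠ 0 ∧ xc P ≠ e then Affine.Point.some _ _ (hns P hP) else 0) = _
    rw [dif_pos ⟨h0, hx⟩]
    rfl
  · intro P h0 hx
    show yc (if hP : P ≠ 0 ∧ xc P ≠ e then Affine.Point.some _ _ (hns P hP) else 0) = _
    rw [dif_pos ⟨h0, hx⟩]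
    rfl


end H28I
end

-- from Lib.H28I.V0
section

/-! # H28I, part V: the points of the kernel -/

open NumberField IsDedekindDomain WeierstrassCurve

namespace H28I

open H55P (IQ embF eF LF Per IsHecke Pt ac Inert Dec Nm)
open H35P (WAB Ker tt GoodW IntW)
open H55K (xc yc)

variable {k : Type} [Field k]

/-- Chunk V0 (S). t = 3 e^2 + A, e^3 + A e + B = 0: if t = 0 then A = -3 e^2, B = 2 e^3 and 4 A^3 + 27 B^2 = 0. -/
theorem t_ne {A B A' B' e t u : k} (h : VI A B A' B' e t u) (hu : u = 0) (he : e ^ 3 + A * e + B = 0)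
    (ht : t = 3 * e ^ 2 + A) : t ≠ 0 := by
  intro h0
  apply h.disc
  obtain rfl : A = -3 * e ^ 2 := by linear_combination h0 - ht
  obtain rfl : B = 2 * e ^ 3 := by linear_combination he
  ring

/-- Chunk V0 (S). If e^3 + A e + B = 0 then B = - e^3 - A e and 3 e^4 + 6 A e^2 + 12 B e - A^2 = - (3 e^2 + A)^2, so A = -3 e^2, B = 2 e^3 and 4 A^3 + 27 B^2 = 0. -/
theorem f_ne {A B e : k} (hd : 4 * A ^ 3 + 27 * B ^ 2 ≠ 0) (h3 : 3 * e ^ 4 + 6 * A * e ^ 2 + 12 * B * e - A ^ 2 = 0) :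
    e ^ 3 + A * e + B ≠ 0 := by
  intro he
  apply hd
  have h1 : (3 * e ^ 2 + A) ^ 2 = 0 := by linear_combination 12 * e * he - h3
  have h2 : 3 * e ^ 2 + A = 0 := pow_eq_zero_iff (two_ne_zero) |>.1 h1
  obtain rfl : A = -3 * e ^ 2 := by linear_combination h2
  obtain rfl : B = 2 * e ^ 3 := by linear_combination he
  ring

theorem v0_eq {A B x y : k} (h : (WAB A B).toAffine.Nonsingular x y) : y ^ 2 = x ^ 3 + A * x + B := by
  have h1 := (Affine.equation_iff x y).1 h.1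
  simp only [WAB] at h1
  linear_combination h1

theorem v0_negY (A B x y : k) : (WAB A B).toAffine.negY x y = -y := by
  unfold Affine.negY WAB
  ring

theorem v0_ext {W : WeierstrassCurve k} {P Q : W.toAffine.Point} (hP : P ≠ 0) (hQ : Q ≠ 0)
    (hx : xc P = xc Q) (hy : yc P = yc Q) : P = Q := by
  rcases P with _ | ⟨x, y, h⟩
  · exact absurd rfl hP
  rcases Q with _ | ⟨x', y', h'⟩
  · exact absurd rfl hQ
  have h1 : x = x' := hx
  have h2 : y = y' := hy
  subst h1 h2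
  rfl

variable [DecidableEq k] [CharZero k]

/-- Chunk V0 (S/M). y^2 = 0 by the equation, so P = -P (Affine.Point.neg_some, negY = -y for the short equation). -/
theorem two_pt {A B e : k} (he : e ^ 3 + A * e + B = 0) {P : (WAB A B).toAffine.Point} (h0 : P ≠ 0) (hx : xc P = e) :
    (2 : ℕ) • P = 0 := by
  rcases P with _ | ⟨x, y, hP⟩
  · exact absurd rfl h0
  have hxe : x = e := hx
  subst hxe
  have h1 := v0_eq hP
  rw [he] at h1
  have hy : y = 0 := pow_eq_zero_iff (two_ne_zero) |>.1 h1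
  rw [two_nsmul]
  refine Affine.Point.add_self_of_Y_eq ?_
  rw [v0_negY, hy, neg_zero]

/-- Chunk V0 (M). P = some e y, y^2 = e^3 + A e + B ≠ 0 (f_ne). P + P = some x' .. with x' = ((3 e^2 + A)/(2 y))^2 - 2 e (Affine.Point.add_self_of_Y_ne, or add_some with slope_of_Y_ne; y ≠ negY = -y), and x' = e because (3 e^2 + A)^2 - 12 e y^2 = -(3 e^4 + 6 A e^2 + 12 B e - A^2) = 0.
Two points with the same x-coordinate are equal or opposite: P + P = P gives P = 0, impossible; so P + P = -P. -/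
theorem three_pt {A B e : k} (hd : 4 * A ^ 3 + 27 * B ^ 2 ≠ 0) (h3 : 3 * e ^ 4 + 6 * A * e ^ 2 + 12 * B * e - A ^ 2 = 0)
    {P : (WAB A B).toAffine.Point} (h0 : P ≠ 0) (hx : xc P = e) : (3 : ℕ) • P = 0 := by
  rcases P with _ | ⟨x, y, hP⟩
  · exact absurd rfl h0
  have hxe : x = e := hx
  subst hxe
  have h1 := v0_eq hP
  have hy : y ≠ 0 := by
    rintro rfl
    apply f_ne hd h3
    rw [← h1]
    ring
  have hyn : y ≠ (WAB A B).toAffine.negY x y := by
    rw [v0_negY]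
    intro h
    apply hy
    have h2 : 2 * y = 0 := by linear_combination h
    exact (mul_eq_zero.1 h2).resolve_left two_ne_zero
  have hadd := Affine.Point.add_self_of_Y_ne (h₁ := hP) hyn
  have hsl : (WAB A B).toAffine.slope x x y y = (3 * x ^ 2 + A) / (2 * y) := by
    rw [Affine.slope_of_Y_ne rfl hyn, v0_negY]
    have e1 : y - -y = 2 * y := by ring
    rw [e1]
    simp only [WAB]
    congr 1
    ring
  have hX : (WAB A B).toAffine.addX x x ((WAB A B).toAffine.slope x x y y) = x := by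
    rw [hsl]
    unfold Affine.addX
    simp only [WAB]
    have e2 : ((3 * x ^ 2 + A) / (2 * y)) ^ 2 = 3 * x := by
      rw [div_pow, div_eq_iff (pow_ne_zero 2 (mul_ne_zero two_ne_zero hy))]
      linear_combination -h3 - 12 * x * h1
    rw [e2]
    ring
  have hYY : (WAB A B).toAffine.addY x x y ((WAB A B).toAffine.slope x x y y) = -y := by
    unfold Affine.addY Affine.negAddY
    rw [hX, v0_negY]
    ring
  have hPP : Affine.Point.some x y hP + Affine.Point.some x y hP = -Affine.Point.some x y hP := by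
    rw [hadd, Affine.Point.neg_some]
    refine v0_ext (by simp) (by simp) hX ?_
    show (WAB A B).toAffine.addY x x y ((WAB A B).toAffine.slope x x y y) = (WAB A B).toAffine.negY x y
    rw [hYY, v0_negY]
  rw [succ_nsmul, two_nsmul, hPP, neg_add_cancel]

/-- Chunk V0 (S). two_pt or three_pt. -/
theorem six_pt {A B A' B' e t u : k} (h : VI A B A' B' e t u) {P : (WAB A B).toAffine.Point} (h0 : P ≠ 0) (hx : xc P = e) :
    (6 : ℕ) • P = 0 := by
  rcases h.cs with ⟨-, he, -⟩ | ⟨-, -, h3⟩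
  · have h1 := two_pt he h0 hx
    have h2 : (6 : ℕ) • P = (3 : ℕ) • ((2 : ℕ) • P) := by rw [← mul_nsmul']
    rw [h2, h1, nsmul_zero]
  · have h1 := three_pt h.disc h3 h0 hx
    have h2 : (6 : ℕ) • P = (2 : ℕ) • ((3 : ℕ) • P) := by rw [← mul_nsmul']
    rw [h2, h1, nsmul_zero]

end H28I
end

-- from Lib.H28I.V5
section

/-! # H28I, part V: surjectivity -/

open NumberField IsDedekindDomain WeierstrassCurve

namespace H28I

open H55P (IQ embF eF LF Per IsHecke Pt ac Inert Dec Nm)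
open H35P (WAB Ker tt GoodW IntW)
open H55K (xc yc)

variable {k : Type} [Field k] [CharZero k] [IsAlgClosed k]

/-- Chunk V5 (S/M). First case of h.cs: u = 0, t ≠ 0 (t_ne): the monic polynomial x (x - e) + t - X (x - e) has a root x (IsAlgClosed.exists_root, or the quadratic formula with a square root), x ≠ e because its value at e is t; vx e t 0 x = x + t/(x - e) = X. Second case: u = 4 (e^3 + A e + B) ≠ 0 (f_ne): a root x of the monic cubic x (x - e)^2 + t (x - e) + u - X (x - e)^2, x ≠ e. -/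
theorem vx_surj {A B A' B' e t u : k} (h : VI A B A' B' e t u) (X : k) : ∃ x, x ≠ e ∧ vx e t u x = X := by
  rcases h.cs with ⟨hu, he, ht⟩ | ⟨ht, hu, h3⟩
  · have ht0 := t_ne h hu he ht
    obtain ⟨s, hs⟩ := IsAlgClosed.exists_pow_nat_eq ((e - X) ^ 2 - 4 * t) (n := 2) (by norm_num)
    obtain ⟨z, hz⟩ : ∃ z, z = (-(e - X) + s) / 2 := ⟨_, rfl⟩
    have hz2 : z ^ 2 + (e - X) * z + t = 0 := by
      rw [hz]
      linear_combination (1 / 4 : k) * hs
    have hz0 : z ≠ 0 := by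
      rintro h0
      rw [h0] at hz2
      apply ht0
      linear_combination hz2
    refine ⟨z + e, ?_, ?_⟩
    · intro h1
      apply hz0
      linear_combination h1
    · unfold vx
      rw [add_sub_cancel_right, hu, zero_div, add_zero]
      field_simp
      linear_combination hz2
  · have hu0 : u ≠ 0 := by
      rw [hu]
      exact mul_ne_zero (by norm_num) (f_ne h.disc h3)
    obtain ⟨z, hz⟩ := IsAlgClosed.exists_root (Polynomial.C 1 * Polynomial.X ^ 3 + Polynomial.C (e - X) * Polynomial.X ^ 2 +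
      Polynomial.C t * Polynomial.X + Polynomial.C u : Polynomial k) (by
        rw [Polynomial.degree_cubic one_ne_zero]
        norm_num)
    have hz3 : z ^ 3 + (e - X) * z ^ 2 + t * z + u = 0 := by
      have h1 := hz
      rw [Polynomial.IsRoot.def] at h1
      simp only [Polynomial.eval_add, Polynomial.eval_mul, Polynomial.eval_C, Polynomial.eval_pow, Polynomial.eval_X,
        one_mul] at h1
      exact h1
    have hz0 : z ≠ 0 := by
      rintro h0
      rw [h0] at hz3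
      apply hu0
      linear_combination hz3
    refine ⟨z + e, ?_, ?_⟩
    · intro h1
      apply hz0
      linear_combination h1
    · unfold vx
      rw [add_sub_cancel_right]
      field_simp
      linear_combination hz3

/-- Chunk V5 (M). Q = 0: P = 0 (hΦ.zero). Q = some X Y: x from vx_surj, y with y^2 = x^3 + A x + B (IsAlgClosed.exists_pow_nat_eq); P = some x y (nonsingular: discriminant). vi_id: (vd x y)^2 = X^3 + A' X + B' = Y^2, so Y = vd x y or Y = - vd x y; in the second case take -y. Equality of points by coordinates (hΦ.x, hΦ.y, hΦ.ne). -/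
theorem v_surj {A B A' B' e t u : k} (h : VI A B A' B' e t u) {Φ : (WAB A B).toAffine.Point → (WAB A' B').toAffine.Point}
    (hΦ : IsV A B A' B' e t u Φ) : Function.Surjective Φ := by
  intro Q
  by_cases hQ : Q = 0
  · exact ⟨0, by rw [hΦ.zero, hQ]⟩
  obtain ⟨x, hx, hX⟩ := vx_surj h (xc Q)
  obtain ⟨y, hy⟩ := IsAlgClosed.exists_pow_nat_eq (x ^ 3 + A * x + B) (n := 2) (by norm_num)
  have hsq : (vd e t u x * y) ^ 2 = yc Q ^ 2 := by
    rw [mul_pow, hy, ← vi_id h hx, hX, v2_pt hQ]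
  have key : ∀ y' : k, y' ^ 2 = x ^ 3 + A * x + B → vd e t u x * y' = yc Q → ∃ P, Φ P = Q := by
    intro y' hy' hY
    have hP : (Affine.Point.some x y' (v2_ns h.disc hy') : (WAB A B).toAffine.Point) ≠ 0 :=
      Affine.Point.some_ne_zero _
    refine ⟨Affine.Point.some x y' (v2_ns h.disc hy'), v2_ext (hΦ.ne _ hP hx) hQ ?_ ?_⟩
    · rw [hΦ.x _ hP hx]
      exact hX
    · rw [hΦ.y _ hP hx]
      exact hY
  rcases sq_eq_sq_iff_eq_or_eq_neg.1 hsq with h1 | h1
  · exact key y hy h1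
  · refine key (-y) (by rw [neg_sq, hy]) ?_
    rw [mul_neg, h1, neg_neg]

end H28I
end

-- from Lib.H13D.B3
section

/-! # H13D, part B: integral models -/

open NumberField IsDedekindDomain WeierstrassCurve

namespace H13D

open H55P (IQ embF eF LF Per IsHecke Pt ac Inert Dec Nm)
open H35P (WAB Ker tt GoodW IntW)
open H55K
open H55K.MG (VC Crd)

variable {F : Type} [Field F] [NumberField F] {A B : F} {Ω : Type} [Field Ω] [DecidableEq Ω] [Algebra F Ω] {V : ValuationSubring Ω}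

/-- Chunk B3 (M). The change of variables between the short equation and W₀: see the proof of rf_fix in H55K/RF.lean (k1 .. k6: VC with u = 1, r = b₂/12, s = a₁/2, t = a₃/2; there over the rational numbers, here over F with the coefficients of W₀⁄F, i.e. algebraMap (𝓞 F) F W₀.a₁ and so on; map_c₄, map_c₆, map_b₂). MG.vc_iso (M1B.lean); the two
discriminants are not 0 (Y3.lean: y3_ne; hΔ). Equivariance: P = 0 clear; otherwise compare the coordinates (xc_ac, yc_ac; s fixes the images of F; Crd for P and for ac s P; ac s P ≠ 0; H55K.pt_ext in E0.lean). -/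
theorem exists_model (W₀ : WeierstrassCurve (𝓞 F)) (hA : A = -(algebraMap (𝓞 F) F W₀.c₄) / 48)
    (hB : B = -(algebraMap (𝓞 F) F W₀.c₆) / 864) (hΔ : W₀.Δ ≠ 0) : ∃ Θ : Pt (WAB A B) Ω ≃+ Pt (W₀⁄F) Ω,
      Crd 1 (algebraMap F Ω (algebraMap (𝓞 F) F W₀.b₂ / 12)) (algebraMap F Ω (algebraMap (𝓞 F) F W₀.a₁ / 2))
        (algebraMap F Ω (algebraMap (𝓞 F) F W₀.a₃ / 2)) Θ ∧
      ∀ (s : Ω ≃ₐ[F] Ω) (P : Pt (WAB A B) Ω), Θ (ac (WAB A B) s P) = ac (W₀⁄F) s (Θ P) := by
  have h48 : (48 : F) ≠ 0 := by norm_num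
  set w : 𝓞 F →+* F := algebraMap (𝓞 F) F with hw
  have hd0 : (4 * A ^ 3 + 27 * B ^ 2) ≠ 0 := by
    rw [y3_disc W₀ hA hB]
    refine div_ne_zero (neg_ne_zero.2 ?_) (by norm_num)
    exact (map_ne_zero_iff _ (RingOfIntegers.coe_injective)).2 hΔ
  have hd : (WAB A B).Δ ≠ 0 := by
    have h2 : (WAB A B).Δ = -16 * (4 * A ^ 3 + 27 * B ^ 2) := by
      simp only [WAB, WeierstrassCurve.Δ, WeierstrassCurve.b₂, WeierstrassCurve.b₄, WeierstrassCurve.b₆, WeierstrassCurve.b₈]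
      ring
    rw [h2]
    exact mul_ne_zero (by norm_num) hd0
  have hd1 : ((WAB A B)⁄Ω).Δ ≠ 0 := by
    have e1 : ((WAB A B)⁄Ω).Δ = algebraMap F Ω (WAB A B).Δ := (WAB A B).map_Δ _
    rw [e1]
    exact (map_ne_zero _).2 hd
  have hd2 : ((W₀⁄F)⁄Ω).Δ ≠ 0 := by
    have e1 : ((W₀⁄F)⁄Ω).Δ = algebraMap F Ω (W₀⁄F).Δ := (W₀⁄F).map_Δ _
    have e2 : (W₀⁄F).Δ = algebraMap (𝓞 F) F W₀.Δ := W₀.map_Δ _
    rw [e1, e2]
    exact (map_ne_zero _).2 ((map_ne_zero_iff _ (RingOfIntegers.coe_injective)).2 hΔ)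
  have k1 : (1 : F) * (w W₀.a₁) = (WAB A B).a₁ + 2 * (w W₀.a₁ / 2) := by
    simp only [WAB]
    ring
  have k2 : (1 : F) ^ 2 * (w W₀.a₂) = (WAB A B).a₂ - (w W₀.a₁ / 2) * (WAB A B).a₁ + 3 * (w W₀.b₂ / 12) - (w W₀.a₁ / 2) ^ 2 := by
    simp only [WAB, WeierstrassCurve.b₂, map_add, map_sub, map_mul, map_pow, map_ofNat]
    ring
  have k3 : (1 : F) ^ 3 * (w W₀.a₃) = (WAB A B).a₃ + (w W₀.b₂ / 12) * (WAB A B).a₁ + 2 * (w W₀.a₃ / 2) := by
    simp only [WAB]
    ring
  have k4 : (1 : F) ^ 4 * (w W₀.a₄) = (WAB A B).a₄ - (w W₀.a₁ / 2) * (WAB A B).a₃ + 2 * (w W₀.b₂ / 12) * (WAB A B).a₂ -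
      (w W₀.a₃ / 2 + (w W₀.b₂ / 12) * (w W₀.a₁ / 2)) * (WAB A B).a₁ + 3 * (w W₀.b₂ / 12) ^ 2 - 2 * (w W₀.a₁ / 2) * (w W₀.a₃ / 2) := by
    simp only [WAB, WeierstrassCurve.b₂, hA, WeierstrassCurve.c₄, WeierstrassCurve.b₄, map_add, map_sub, map_mul, map_pow, map_ofNat]
    ring
  have k6 : (1 : F) ^ 6 * (w W₀.a₆) = (WAB A B).a₆ + (w W₀.b₂ / 12) * (WAB A B).a₄ + (w W₀.b₂ / 12) ^ 2 * (WAB A B).a₂ + (w W₀.b₂ / 12) ^ 3 -
      (w W₀.a₃ / 2) * (WAB A B).a₃ - (w W₀.a₃ / 2) ^ 2 - (w W₀.b₂ / 12) * (w W₀.a₃ / 2) * (WAB A B).a₁ := by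
    simp only [WAB, WeierstrassCurve.b₂, hA, hB, WeierstrassCurve.c₄, WeierstrassCurve.b₄, WeierstrassCurve.c₆, WeierstrassCurve.b₆, map_neg, map_add, map_sub, map_mul, map_pow, map_ofNat]
    ring
  have j1 := congrArg (algebraMap F Ω) k1
  have j2 := congrArg (algebraMap F Ω) k2
  have j3 := congrArg (algebraMap F Ω) k3
  have j4 := congrArg (algebraMap F Ω) k4
  have j6 := congrArg (algebraMap F Ω) k6
  simp only [map_add, map_sub, map_mul, map_pow, map_ofNat, map_one] at j1 j2 j3 j4 j6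
  have hVC : VC ((WAB A B)⁄Ω) ((W₀⁄F)⁄Ω) 1 (algebraMap F Ω (w W₀.b₂ / 12)) (algebraMap F Ω (w W₀.a₁ / 2))
      (algebraMap F Ω (w W₀.a₃ / 2)) := ⟨one_ne_zero, j1, j2, j3, j4, j6⟩
  obtain ⟨Θ, hΘ⟩ := MG.vc_iso hVC hd1 hd2
  refine ⟨Θ, hΘ, ?_⟩
  intro s P
  by_cases hP : P = 0
  · rw [hP, map_zero, map_zero, map_zero]
  · obtain ⟨a1, a2, a3⟩ := MG.ac_crd (W := WAB A B) s P
    have hsP : ac (WAB A B) s P ≠ 0 := fun h0 => hP (a3.1 h0)
    obtain ⟨b1, b2, b3⟩ := hΘ P hP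
    obtain ⟨c1, c2, c3⟩ := hΘ _ hsP
    obtain ⟨d1, d2, d3⟩ := MG.ac_crd (W := W₀⁄F) s (Θ P)
    have hx : xc (Θ (ac (WAB A B) s P)) = xc (ac (W₀⁄F) s (Θ P)) := by
      rw [d1]
      have e1 := congrArg s b2
      rw [← a1, c2] at e1
      simp only [map_add, map_mul, map_pow, map_one, AlgEquiv.commutes] at e1
      linear_combination e1
    refine pt_ext c1 (fun h0 => b1 (d3.1 h0)) hx ?_
    rw [d2]
    have e2 := congrArg s b3
    rw [← a2, c3] at e2
    simp only [map_add, map_mul, map_pow, map_one, AlgEquiv.commutes] at e2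
    rw [← d1, ← hx] at e2
    linear_combination e2

/-- Chunk B3 (S). The coefficients are ak Ω of integers (ak_le); V(ak Ω Δ) = 1: H55K.g10b_one (G10B.lean) or H55K.TQ.rf_one. -/
theorem good_model (W₀ : WeierstrassCurve (𝓞 F)) {v : HeightOneSpectrum (𝓞 F)} (hΔ : W₀.Δ ∉ v.asIdeal)
    (hv : ∀ a : 𝓞 F, a ∈ v.asIdeal → V.valuation (ak Ω a) < 1) : GoodW ((W₀⁄F)⁄Ω) V := by
  have hle : ∀ x : 𝓞 F, ak Ω x ∈ V := fun x => (V.valuation_le_one_iff _).1 (y3_le V x)
  refine ⟨⟨hle _, hle _, hle _, hle _, hle _⟩, ?_⟩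
  have e : ((W₀⁄F)⁄Ω).Δ = ak Ω W₀.Δ := by
    have e1 : ((W₀⁄F)⁄Ω).Δ = algebraMap F Ω (W₀⁄F).Δ := (W₀⁄F).map_Δ _
    have e2 : (W₀⁄F).Δ = algebraMap (𝓞 F) F W₀.Δ := W₀.map_Δ _
    rw [e1, e2]
  rw [e]
  exact g10b_one V v hv _ hΔ

end H13D
end

-- from Lib.H28I.LA1
section

/-! # H28I, part LA: overlattices of prime index -/

open NumberField IsDedekindDomain WeierstrassCurve

namespace H28I

open H55P (IQ embF eF LF Per IsHecke Pt ac Inert Dec Nm)
open H35P (WAB Ker tt GoodW IntW)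
open H55K (xc yc)

/-- Bezout. -/
theorem la1_bez {N : ℕ} (hN : N.Prime) {a : ℤ} (ha : ¬ (N : ℤ) ∣ a) : ∃ c d : ℤ, c * a = 1 + N * d := by
  have h : IsCoprime (N : ℤ) a := by
    rw [Int.isCoprime_iff_gcd_eq_one]
    have := (Nat.Prime.coprime_iff_not_dvd hN (n := a.natAbs)).2 (by
      intro h; exact ha (Int.natCast_dvd.2 h))
    simpa [Int.gcd] using this
  obtain ⟨x, y, h⟩ := h
  exact ⟨y, -x, by linear_combination h⟩

/-- Case 1. -/
theorem la1_one (L : PeriodPair) {N : ℕ} (hN : N.Prime) {w : ℂ} {a b : ℤ} (hab : (a : ℂ) * L.ω₁ + b * L.ω₂ = N * w)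
    (ha : ¬ (N : ℤ) ∣ a) :
    ∃ L' : PeriodPair, ∀ z, z ∈ L'.lattice ↔ ∃ k : ℤ, z - k * w ∈ L.lattice := by
  obtain ⟨c, d, hcd⟩ := la1_bez hN ha
  have hN0 : (N : ℂ) ≠ 0 := Nat.cast_ne_zero.2 hN.ne_zero
  have hNr : (N : ℝ) ≠ 0 := Nat.cast_ne_zero.2 hN.ne_zero
  have hcd' : (c : ℂ) * a = 1 + N * d := by exact_mod_cast hcd
  have e1 : (N : ℂ) * (c * w - d * L.ω₁) = L.ω₁ + c * b * L.ω₂ := by
    linear_combination (-(c : ℂ)) * hab + hcd' * L.ω₁
  have e2 : w = a * (c * w - d * L.ω₁) - d * b * L.ω₂ := by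
    linear_combination (-w) * hcd' + (d : ℂ) * hab
  have hind := L.indep
  rw [LinearIndependent.pair_iff] at hind
  refine ⟨⟨c * w - d * L.ω₁, L.ω₂, ?_⟩, ?_⟩
  · rw [LinearIndependent.pair_iff]
    intro s t hst
    have h1 : (s : ℂ) * (c * w - d * L.ω₁) + (t : ℂ) * L.ω₂ = 0 := by
      simpa [Complex.real_smul] using hst
    have h2 := hind s (s * c * b + N * t) (by
      simp only [Complex.real_smul]
      push_cast
      linear_combination (N : ℂ) * h1 - (s : ℂ) * e1)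
    obtain ⟨h3, h4⟩ := h2
    refine ⟨h3, ?_⟩
    rw [h3] at h4
    simp only [zero_mul, zero_add] at h4
    rcases mul_eq_zero.1 h4 with h | h
    · exact absurd h hNr
    · exact h
  · intro z
    rw [PeriodPair.mem_lattice]
    constructor
    · rintro ⟨m, n, h⟩
      simp only at h
      refine ⟨m * c, ?_⟩
      rw [PeriodPair.mem_lattice]
      refine ⟨-m * d, n, ?_⟩
      rw [← h]
      push_cast
      ring
    · rintro ⟨k, h⟩
      rw [PeriodPair.mem_lattice] at h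
      obtain ⟨p, q, h⟩ := h
      refine ⟨k * a + p * N, -k * d * b - p * c * b + q, ?_⟩
      simp only
      push_cast
      linear_combination h - (k : ℂ) * e2 + (p : ℂ) * e1

/-- Case 2. -/
theorem la1_two (L : PeriodPair) {N : ℕ} (hN : N.Prime) {w : ℂ} {a b : ℤ}
    (hab : (N : ℂ) * a * L.ω₁ + b * L.ω₂ = N * w) (hb : ¬ (N : ℤ) ∣ b) :
    ∃ L' : PeriodPair, ∀ z, z ∈ L'.lattice ↔ ∃ k : ℤ, z - k * w ∈ L.lattice := by
  obtain ⟨c, d, hcd⟩ := la1_bez hN hb
  have hN0 : (N : ℂ) ≠ 0 := Nat.cast_ne_zero.2 hN.ne_zero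
  have hNr : (N : ℝ) ≠ 0 := Nat.cast_ne_zero.2 hN.ne_zero
  have hcd' : (c : ℂ) * b = 1 + N * d := by exact_mod_cast hcd
  have e1 : (N : ℂ) * (c * (w - a * L.ω₁) - d * L.ω₂) = L.ω₂ := by
    linear_combination (-(c : ℂ)) * hab + hcd' * L.ω₂
  have e2 : w - a * L.ω₁ = b * (c * (w - a * L.ω₁) - d * L.ω₂) := by
    have h : (N : ℂ) * (w - a * L.ω₁) = N * (b * (c * (w - a * L.ω₁) - d * L.ω₂)) := by
      linear_combination (-1 : ℂ) * hab - (b : ℂ) * e1
    exact mul_left_cancel₀ hN0 h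
  have hind := L.indep
  rw [LinearIndependent.pair_iff] at hind
  refine ⟨⟨L.ω₁, c * (w - a * L.ω₁) - d * L.ω₂, ?_⟩, ?_⟩
  · rw [LinearIndependent.pair_iff]
    intro s t hst
    have h1 : (s : ℂ) * L.ω₁ + (t : ℂ) * (c * (w - a * L.ω₁) - d * L.ω₂) = 0 := by
      simpa [Complex.real_smul] using hst
    have h2 := hind (N * s) t (by
      simp only [Complex.real_smul]
      push_cast
      linear_combination (N : ℂ) * h1 - (t : ℂ) * e1)
    obtain ⟨h3, h4⟩ := h2
    refine ⟨?_, h4⟩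
    rcases mul_eq_zero.1 h3 with h | h
    · exact absurd h hNr
    · exact h
  · intro z
    rw [PeriodPair.mem_lattice]
    constructor
    · rintro ⟨m, n, h⟩
      simp only at h
      refine ⟨n * c, ?_⟩
      rw [PeriodPair.mem_lattice]
      refine ⟨m - n * c * a, -n * d, ?_⟩
      rw [← h]
      push_cast
      ring
    · rintro ⟨k, h⟩
      rw [PeriodPair.mem_lattice] at h
      obtain ⟨p, q, h⟩ := h
      refine ⟨k * a + p, k * b + q * N, ?_⟩
      simp only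
      push_cast
      linear_combination h - (k : ℂ) * e2 + (q : ℂ) * e1

/-- Chunk LA1 (M). N w = a ω₁ + b ω₂ (PeriodPair.mem_lattice).
Case 1: N does not divide a. Choose integers c, d with c a = 1 + N d. Put w' = c w - d ω₁, so N w' = ω₁ + c b ω₂, that is w' = (1/N) ω₁ + (c b/N) ω₂. L' = the pair (w', ω₂), linearly independent over the real numbers (LinearIndependent.pair_iff, L.indep). If z - k w is in the lattice of L: ω₁ = N w' - c b ω₂ is in L', and
w = a w' - d b ω₂ (check: a w' = a c w - a d ω₁ = w + d (N w - a ω₁) = w + d b ω₂), so z is in L'. Conversely m w' + n ω₂ = (m c) w + (- m d ω₁ + n ω₂).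
Case 2: a = N a'. Then N does not divide b (else w = a' ω₁ + b' ω₂ is in the lattice of L). w'' = w - a' ω₁, N w'' = b ω₂; c b = 1 + N d, w' = c w'' - d ω₂ = ω₂/N; L' = the pair (ω₁, w'): w'' = b w'. -/
theorem over_pair (L : PeriodPair) {N : ℕ} (hN : N.Prime) {w : ℂ} (hw : w ∉ L.lattice) (hNw : (N : ℂ) * w ∈ L.lattice) :
    ∃ L' : PeriodPair, ∀ z, z ∈ L'.lattice ↔ ∃ k : ℤ, z - k * w ∈ L.lattice := by
  rw [PeriodPair.mem_lattice] at hNw
  obtain ⟨a, b, hab⟩ := hNw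
  by_cases ha : (N : ℤ) ∣ a
  · obtain ⟨a', rfl⟩ := ha
    refine la1_two L hN (a := a') (b := b) (by rw [← hab]; push_cast; ring) ?_
    rintro ⟨b', rfl⟩
    apply hw
    rw [PeriodPair.mem_lattice]
    refine ⟨a', b', ?_⟩
    have hN0 : (N : ℂ) ≠ 0 := Nat.cast_ne_zero.2 hN.ne_zero
    apply mul_left_cancel₀ hN0
    rw [← hab]
    push_cast
    ring
  · exact la1_one L hN hab ha

/-- Chunk LA1 (S/M). S = {w}: mod 2 w every k w is in the lattice or congruent to w. -/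
theorem rep_two {L L' : PeriodPair} {w : ℂ} (hw : w ∉ L.lattice) (h2 : 2 * w ∈ L.lattice)
    (h : ∀ z, z ∈ L'.lattice ↔ ∃ k : ℤ, z - k * w ∈ L.lattice) : RepL L L' {w} := by
  have hz : ∀ (m : ℤ), (m : ℂ) * (2 * w) ∈ L.lattice := fun m => by
    have := L.lattice.smul_mem m h2
    simpa [zsmul_eq_mul] using this
  refine ⟨fun z hz => (h z).2 ⟨0, by simpa using hz⟩, ?_, ?_, ?_, ?_⟩
  · intro r hr
    rw [Finset.mem_singleton] at hr
    subst hr
    exact (h r).2 ⟨1, by simp⟩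
  · intro r hr
    rw [Finset.mem_singleton] at hr
    rwa [hr]
  · intro r hr r' hr' _
    rw [Finset.mem_singleton] at hr hr'
    rw [hr, hr']
  · intro z hzz
    obtain ⟨k, hk⟩ := (h z).1 hzz
    rcases Int.even_or_odd' k with ⟨m, rfl | rfl⟩
    · left
      have := add_mem hk (hz m)
      rwa [show z - ((2 * m : ℤ) : ℂ) * w + m * (2 * w) = z by push_cast; ring] at this
    · right
      refine ⟨w, Finset.mem_singleton_self _, ?_⟩
      have := add_mem hk (hz m)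
      rwa [show z - ((2 * m + 1 : ℤ) : ℂ) * w + m * (2 * w) = z - w by push_cast; ring] at this

open Classical in
/-- Chunk LA1 (S/M). S = {w, -w}; 2 w is not in the lattice (else w = 3 w - 2 w is). -/
theorem rep_three {L L' : PeriodPair} {w : ℂ} (hw : w ∉ L.lattice) (h3 : 3 * w ∈ L.lattice)
    (h : ∀ z, z ∈ L'.lattice ↔ ∃ k : ℤ, z - k * w ∈ L.lattice) : RepL L L' {w, -w} ∧ w ≠ -w := by
  have hz : ∀ (m : ℤ), (m : ℂ) * (3 * w) ∈ L.lattice := fun m => by
    have := L.lattice.smul_mem m h3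
    simpa [zsmul_eq_mul] using this
  have h2 : 2 * w ∉ L.lattice := by
    intro h2
    apply hw
    have := sub_mem h3 h2
    rwa [show 3 * w - 2 * w = w by ring] at this
  refine ⟨⟨fun z hz => (h z).2 ⟨0, by simpa using hz⟩, ?_, ?_, ?_, ?_⟩, ?_⟩
  · intro r hr
    rw [Finset.mem_insert, Finset.mem_singleton] at hr
    rcases hr with rfl | rfl
    · exact (h r).2 ⟨1, by simp⟩
    · exact (h _).2 ⟨-1, by simp⟩
  · intro r hr
    rw [Finset.mem_insert, Finset.mem_singleton] at hr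
    rcases hr with rfl | rfl
    · exact hw
    · rwa [neg_mem_iff]
  · intro r hr r' hr' hd
    rw [Finset.mem_insert, Finset.mem_singleton] at hr hr'
    rcases hr with rfl | rfl
    · rcases hr' with rfl | rfl
      · rfl
      · exact absurd (by rwa [show r - -r = 2 * r by ring] at hd) h2
    · rcases hr' with rfl | rfl
      · exact absurd (by rw [← neg_mem_iff]; rwa [show -r' - r' = -(2 * r') by ring] at hd) h2
      · rfl
  · intro z hzz
    obtain ⟨k, hk⟩ := (h z).1 hzz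
    have hm : k % 3 = 0 ∨ k % 3 = 1 ∨ k % 3 = 2 := by omega
    rcases hm with hm | hm | hm
    · left
      obtain ⟨m, rfl⟩ : ∃ m, k = 3 * m := ⟨k / 3, by omega⟩
      have := add_mem hk (hz m)
      rwa [show z - ((3 * m : ℤ) : ℂ) * w + m * (3 * w) = z by push_cast; ring] at this
    · right
      obtain ⟨m, rfl⟩ : ∃ m, k = 3 * m + 1 := ⟨k / 3, by omega⟩
      refine ⟨w, by simp, ?_⟩
      have := add_mem hk (hz m)
      rwa [show z - ((3 * m + 1 : ℤ) : ℂ) * w + m * (3 * w) = z - w by push_cast; ring] at this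
    · right
      obtain ⟨m, rfl⟩ : ∃ m, k = 3 * m - 1 := ⟨(k + 1) / 3, by omega⟩
      refine ⟨-w, by simp, ?_⟩
      have := add_mem hk (hz m)
      rwa [show z - ((3 * m - 1 : ℤ) : ℂ) * w + m * (3 * w) = z - -w by push_cast; ring] at this
  · intro he
    apply hw
    have : w = 0 := by
      have h4 : 2 * w = 0 := by linear_combination he
      simpa using h4
    rw [this]
    exact zero_mem _

end H28I
end

-- from Lib.H28G.K1
section

open NumberField IsDedekindDomain WeierstrassCurve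

namespace H28G

open H55B H55R H99B

/-! Chunk K1 (M): the torsion fields exist. N = TF K Ω b = K(S), S = the set of the coordinates of the points of Tor b Ω. Tor b Ω is finite: full_Om (Ω is algebraic over F
because K is a number field: Algebra.IsAlgebraic.trans), Full.finite. S is finite, its elements are algebraic over K, so N/K is finite (IntermediateField.finiteDimensional_adjoin).
Galois: separable (characteristic 0); normal: every K-automorphism s of Ω maps S to S (mp of the F-automorphism s maps Tor b Ω to itself: mp_mem_Tor, xc_mp, yc_mp), so it maps N to N: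
IntermediateField.normal_iff_forall_map_le (or normal_iff_forall_map_eq), IntermediateField.adjoin_map. Ω/K is normal (IsAlgClosure.normal or normal of algebraically closed and algebraic).
Full b N: a point R of Tor b Ω, R <> 0, has coordinates in N, so R = mp j R' with j = N.val (restricted to F), R' = pt (xc) (yc) (eqn by injectivity); mp j is injective, mp_mem_Tor: a bijection Tor b N -> Tor b Ω,
and Full b Ω. gen: σ in Gal(N/K) fixes all the points of Tor b N, so it fixes their coordinates (xc_sp, yc_sp), which (their images in Ω) are S and generate N over K: every element of S is the image of a fixed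
element; IntermediateField.adjoin_le_iff for the image in Ω of the fixed field of σ (or IntermediateField.algHom_ext_of_eq_adjoin). exists_TFld: Ω = AlgebraicClosure K (Algebra F, IsScalarTower F K are instances),
N = TF K Ω b, NumberField by NumberField.of_module_finite K N, DecidableEq by Classical. -/

section
variable (K : Type) [Field K] [NumberField K] [Algebra F K] (Ω : Type) [Field Ω]
    [DecidableEq Ω] [Algebra F Ω] [Algebra K Ω] [IsScalarTower F K Ω] [IsAlgClosed Ω]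
    [Algebra.IsAlgebraic K Ω]

/-- The set of the coordinates. -/
def K1_S (b : O) : Set Ω := {x | ∃ R ∈ Tor b Ω, x = xc R ∨ x = yc R}

include K
omit [DecidableEq Ω] [IsAlgClosed Ω] in
theorem K1_algF : Algebra.IsAlgebraic F Ω := by
  have h1 : Algebra.IsAlgebraic ℚ K := inferInstance
  have h2 : Algebra.IsAlgebraic F K := Algebra.IsAlgebraic.tower_top (K := ℚ) F
  exact Algebra.IsAlgebraic.trans F K Ω

theorem K1_full (b : O) (hb : b ≠ 0) : Full b Ω := by
  have := K1_algF K Ω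
  exact full_Om Ω b hb

theorem K1_finS (b : O) (hb : b ≠ 0) : (K1_S Ω b).Finite := by
  have h := (K1_full K Ω b hb).finite hb
  have h1 : (Set.range fun R : Tor b Ω => xc (R : P27 Ω)).Finite := Set.finite_range _
  have h2 : (Set.range fun R : Tor b Ω => yc (R : P27 Ω)).Finite := Set.finite_range _
  refine (h1.union h2).subset ?_
  rintro x ⟨R, hR, h | h⟩
  · exact Or.inl ⟨⟨R, hR⟩, h.symm⟩
  · exact Or.inr ⟨⟨R, hR⟩, h.symm⟩

omit [NumberField K] [Algebra F K] [IsScalarTower F K Ω] [IsAlgClosed Ω] [Algebra.IsAlgebraic K Ω] in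
theorem K1_TF (b : O) : TF K Ω b = IntermediateField.adjoin K (K1_S Ω b) := rfl

omit [NumberField K] [IsAlgClosed Ω] [Algebra.IsAlgebraic K Ω] in
theorem K1_map (b : O) (s : Gal(Ω/K)) : (s : Ω → Ω) '' (K1_S Ω b) ⊆ K1_S Ω b := by
  rintro _ ⟨x, ⟨R, hR, h⟩, rfl⟩
  let j : Ω →ₐ[F] Ω := ((AlgEquiv.restrictScalars F s : Ω ≃ₐ[F] Ω) : Ω →ₐ[F] Ω)
  refine ⟨mp j R, (mp_mem_Tor j b R).2 hR, ?_⟩
  rcases h with h | h
  · left
    rw [xc_mp, h]
    rfl
  · right
    rw [yc_mp, h]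
    rfl

end

theorem TF_fin (K : Type) [Field K] [NumberField K] [Algebra F K] (Ω : Type) [Field Ω]
    [DecidableEq Ω] [Algebra F Ω] [Algebra K Ω] [IsScalarTower F K Ω] [IsAlgClosed Ω]
    [Algebra.IsAlgebraic K Ω] (b : O) (hb : b ≠ 0) : FiniteDimensional K (TF K Ω b) := by
  rw [K1_TF]
  have h1 : Finite (K1_S Ω b) := (K1_finS K Ω b hb).to_subtype
  exact IntermediateField.finiteDimensional_adjoin fun x _ =>
    (Algebra.IsAlgebraic.isAlgebraic (R := K) x).isIntegral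

theorem TF_TFld (K : Type) [Field K] [NumberField K] [Algebra F K] (Ω : Type) [Field Ω]
    [DecidableEq Ω] [Algebra F Ω] [Algebra K Ω] [IsScalarTower F K Ω] [IsAlgClosed Ω]
    [Algebra.IsAlgebraic K Ω] (b : O) (hb : b ≠ 0) : TFld K (TF K Ω b) b := by
  have hfin := TF_fin K Ω b hb
  let j : TF K Ω b →ₐ[F] Ω := (TF K Ω b).val.restrictScalars F
  -- every torsion point comes from the subfield
  have hsurj : ∀ R ∈ Tor b Ω, ∃ S ∈ Tor b (TF K Ω b), mp j S = R := by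
    intro R hR
    by_cases h0 : R = 0
    · exact ⟨0, AddSubgroup.zero_mem _, by rw [map_zero, h0]⟩
    have hx : xc R ∈ TF K Ω b := IntermediateField.subset_adjoin _ _ ⟨R, hR, Or.inl rfl⟩
    have hy : yc R ∈ TF K Ω b := IntermediateField.subset_adjoin _ _ ⟨R, hR, Or.inr rfl⟩
    have he : (⟨yc R, hy⟩ : TF K Ω b) ^ 2 + ⟨yc R, hy⟩ = (⟨xc R, hx⟩ : TF K Ω b) ^ 3 :=
      Subtype.ext (eqn R)
    have hm : mp j (pt ⟨xc R, hx⟩ ⟨yc R, hy⟩ he) = R :=
      pt_ext (mp_ne j (pt_ne _ _ _)) h0 (by rw [xc_mp, xc_pt]; rfl) (by rw [yc_mp, yc_pt]; rfl)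
    exact ⟨_, (mp_mem_Tor j b _).1 (by rw [hm]; exact hR), hm⟩
  refine ⟨?_, ?_, ?_⟩
  · have hn : Normal K (TF K Ω b) := by
      have : Normal K Ω := normal_iff.2 fun x =>
        ⟨(Algebra.IsAlgebraic.isAlgebraic (R := K) x).isIntegral, IsAlgClosed.splits _⟩
      rw [IntermediateField.normal_iff_forall_map_le']
      intro s
      rw [K1_TF, IntermediateField.adjoin_map]
      exact IntermediateField.adjoin.mono _ _ _ (K1_map K Ω b s)
    exact ⟨⟩
  · unfold Full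
    have hO := K1_full K Ω b hb
    unfold Full at hO
    rw [← hO]
    let φ : Tor b (TF K Ω b) → Tor b Ω := fun S => ⟨mp j S.1, (mp_mem_Tor j b S.1).2 S.2⟩
    have hφ : Function.Bijective φ := by
      refine ⟨fun a c hac => Subtype.ext (mp_inj j (congrArg Subtype.val hac)), ?_⟩
      intro R
      obtain ⟨S, hS, hS'⟩ := hsurj R.1 R.2
      exact ⟨⟨S, hS⟩, Subtype.ext hS'⟩
    exact Nat.card_congr (Equiv.ofBijective φ hφ)
  · intro σ hσ
    have h1 : ((TF K Ω b).val.comp (σ : TF K Ω b →ₐ[K] TF K Ω b)) = (TF K Ω b).val := by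
      refine IntermediateField.algHom_ext_of_eq_adjoin K (K1_TF K Ω b) ?_
      intro x hx
      obtain ⟨R, hR, h⟩ := hx
      obtain ⟨S, hS, hS'⟩ := hsurj R hR
      have h2 := hσ S hS
      rcases h with h | h
      · have h5 : ((xc S : TF K Ω b) : Ω) = x := by
          rw [h, ← hS', xc_mp]
          rfl
        have h4 : σ (xc S) = xc S := by rw [← xc_sp, h2]
        subst h5
        exact congrArg Subtype.val h4
      · have h5 : ((yc S : TF K Ω b) : Ω) = x := by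
          rw [h, ← hS', yc_mp]
          rfl
        have h4 : σ (yc S) = yc S := by rw [← yc_sp, h2]
        subst h5
        exact congrArg Subtype.val h4
    ext x
    exact congrArg (fun f => f x) h1

theorem exists_TFld (K : Type) [Field K] [NumberField K] [Algebra F K] (b : O) (hb : b ≠ 0) :
    ∃ (N : Type) (_ : Field N) (_ : NumberField N) (_ : DecidableEq N) (_ : Algebra K N)
      (_ : Algebra F N) (_ : IsScalarTower F K N), TFld K N b := by
  classical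
  have h1 := TF_TFld K (AlgebraicClosure K) b hb
  have h2 := TF_fin K (AlgebraicClosure K) b hb
  refine ⟨TF K (AlgebraicClosure K) b, inferInstance, ?_, inferInstance, inferInstance, inferInstance,
    inferInstance, h1⟩
  exact NumberField.of_module_finite K _

end H28G
end

-- from Lib.H55K.UD
section

/-! # H55K: elliptic units: definitions -/

open NumberField IsDedekindDomain WeierstrassCurve

namespace H55K

open H55P (IQ embF eF LF Per IsHecke Pt ac Inert Dec Nm)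
open H35P (WAB Ker tt)


variable {F : Type} [Field F] [NumberField F] [IQ F]

/-- conj w |w|^(-2s). -/
noncomputable def ff (s w : ℂ) : ℂ := (starRingEnd ℂ) w * ((‖w‖ ^ 2 : ℝ) : ℂ) ^ (-s)

/-- The second difference. -/
noncomputable def dd (s w q : ℂ) : ℂ := ff s (w + q) + ff s (w - q) - 2 * ff s w

/-- The Eisenstein-Kronecker series. -/
noncomputable def Ff (F : Type) [Field F] [NumberField F] [IQ F] (z s : ℂ) : ℂ := ∑' x : 𝓞 F, ff s (z + eF F x)

/-- R is a system of representatives of the integers modulo b, containing 0. -/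
structure Rep (b : 𝓞 F) (R : Finset (𝓞 F)) : Prop where
  zero : (0 : 𝓞 F) ∈ R
  ex : ∀ x : 𝓞 F, ∃ r ∈ R, b ∣ x - r
  un : ∀ r ∈ R, ∀ r' ∈ R, b ∣ r - r' → r = r'

/-- h is the generator of its ideal given by the Hecke character. -/
def Prm (m : Ideal (𝓞 F)) (ψ : Ideal (𝓞 F) →*₀ 𝓞 F) (h : 𝓞 F) : Prop :=
  IsCoprime (Ideal.span {h}) m ∧ ψ (Ideal.span {h}) = h

/-- H is a system of representatives modulo μ of the h with Prm. -/
structure HRep (m : Ideal (𝓞 F)) (ψ : Ideal (𝓞 F) →*₀ 𝓞 F) (μ : 𝓞 F) (H : Finset (𝓞 F)) : Prop where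
  prm : ∀ h ∈ H, Prm m ψ h
  ex : ∀ y : 𝓞 F, Prm m ψ y → ∃ h ∈ H, μ ∣ y - h
  un : ∀ h ∈ H, ∀ h' ∈ H, μ ∣ h - h' → h = h'

/-- The value at 1 of the L-series of the conjugate of ψ, divided by the period, is a unit above l (Λ is the L-function). -/
structure LU (l : ℕ) (Om : ℂ) (ψ : Ideal (𝓞 F) →*₀ 𝓞 F) (Λ : ℂ → ℂ) : Prop where
  an : AnalyticOnNhd ℂ Λ {s | 1 / 2 < s.re}
  sum : ∀ s : ℂ, 3 / 2 < s.re → HasSum (fun J : Ideal (𝓞 F) => (starRingEnd ℂ) (eF F (ψ J)) *
    (Ideal.absNorm J : ℂ) ^ (-s)) (Λ s)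
  val : ∀ V : ValuationSubring ℂ, V.valuation (l : ℂ) < 1 → V.valuation (Λ 1 / Om) = 1

section pts

variable {A B : F} {Ω : Type} [Field Ω] [DecidableEq Ω] [Algebra F Ω]

/-- The product of the x(P) - x(Q), Q in S. -/
noncomputable def Phi (S : Finset (Pt (WAB A B) Ω)) (P : Pt (WAB A B) Ω) : Ω := ∏ Q ∈ S, (xc P - xc Q)

/-- The elliptic unit. -/
noncomputable def Xi (D S : Finset (Pt (WAB A B) Ω)) (P : Pt (WAB A B) Ω) : Ω :=
  ∏ X ∈ D, Phi S (X + P) / Phi S (X - P)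

/-- The data for the elliptic units: m = (μ), a is congruent to 1 modulo M = Nm μ and to 2 modulo l, ρ is a generator of the points killed by μ,
D is the set of the points h ρ with Prm h, S the set of the nonzero points killed by a. -/
structure UDat (Om : ℂ) (j : Ω →+* ℂ) (act : 𝓞 F →+* AddMonoid.End (Pt (WAB A B) Ω)) (m : Ideal (𝓞 F))
    (ψ : Ideal (𝓞 F) →*₀ 𝓞 F) (l : ℕ) (μ : 𝓞 F) (a : ℕ) (ρ τ : Pt (WAB A B) Ω) (H R : Finset (𝓞 F))
    (D S : Finset (Pt (WAB A B) Ω)) : Prop where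
  mu : Ideal.span {μ} = m
  mu0 : μ ≠ 0
  a0 : 1 < a
  a1 : ∃ k, a = 1 + Nm μ * k
  a2 : ∃ k, a = 2 + l * k
  cop : Nat.Coprime (Nm μ) l
  rho : act μ ρ = 0
  rhog : ∀ T, act μ T = 0 → ∃ b, T = act b ρ
  rho0 : ∀ b, act b ρ = 0 ↔ μ ∣ b
  rhox : ∀ b, ¬ μ ∣ b → j (xc (act b ρ)) = (LF F).weierstrassP (eF F b / eF F μ) / Om ^ 2 ∧
    j (yc (act b ρ)) = (LF F).derivWeierstrassP (eF F b / eF F μ) / (2 * Om ^ 3)
  hrep : HRep m ψ μ H
  rep : Rep (a : 𝓞 F) R
  memD : ∀ X, X ∈ D ↔ ∃ h, Prm m ψ h ∧ X = act h ρ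
  memD' : ∀ X, X ∈ D ↔ ∃ h ∈ H, X = act h ρ
  tau : ∀ b, act b τ = 0 ↔ (a : 𝓞 F) ∣ b
  taux : ∀ b, ¬ (a : 𝓞 F) ∣ b → j (xc (act b τ)) = (LF F).weierstrassP (eF F b / (a : ℂ)) / Om ^ 2
  memS : TN act (a : 𝓞 F) S
  memS' : ∀ Q, Q ∈ S ↔ ∃ b ∈ R, b ≠ 0 ∧ Q = act b τ

end pts

end H55K
end

-- from Lib.H55K.UA3
section

/-! # H55K: the value at 1 -/

open NumberField IsDedekindDomain WeierstrassCurve

namespace H55K

open H55P (IQ embF eF LF Per IsHecke Pt ac Inert Dec Nm)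
open H35P (WAB Ker tt)


variable {F : Type} [Field F] [NumberField F] [IQ F]

theorem ua3_ff (w : ℂ) : ff 1 w = w⁻¹ := by
  unfold ff
  by_cases hw : w = 0
  · rw [hw]; simp
  · have h1 : (starRingEnd ℂ) w ≠ 0 := by
      intro h
      apply hw
      simpa using h
    have h2 : ((‖w‖ ^ 2 : ℝ) : ℂ) = w * (starRingEnd ℂ) w := by
      rw [Complex.mul_conj, Complex.normSq_eq_norm_sq]
    rw [Complex.cpow_neg_one, h2]
    field_simp

/-- Chunk UA3 (S). ff 1 w = 1/w for w ≠ 0 (conj w/‖w‖^2), also for w = 0. So dd 1 (z + eF F x) q is the term tT (LF F) z q of H35P.T2 at the lattice point eF F x (LF_equiv F : 𝓞 F ≃ lattice, H55P/F0.lean); H35P.T_formula (H35P/A4.lean). -/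
theorem dd_one (F : Type) [Field F] [NumberField F] [IQ F] (z q : ℂ) (hz : z ∉ (LF F).lattice)
    (hq : q ∉ (LF F).lattice) (h1 : z + q ∉ (LF F).lattice) (h2 : z - q ∉ (LF F).lattice) :
    (∑' x : 𝓞 F, dd 1 (z + eF F x) q) * ((LF F).weierstrassP z - (LF F).weierstrassP q) =
      (LF F).derivWeierstrassP z := by
  have h3 : ∑' x : 𝓞 F, dd 1 (z + eF F x) q = H35P.T2 (LF F) z q := by
    unfold H35P.T2
    rw [← (H55P.LF_equiv F).tsum_eq]
    refine tsum_congr (fun x => ?_)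
    unfold dd H35P.tT
    rw [ua3_ff, ua3_ff, ua3_ff, H55P.LF_equiv_coe]
    have e1 : z + eF F x + q = z + q + eF F x := by ring
    have e2 : z + eF F x - q = z - q + eF F x := by ring
    rw [e1, e2]
  rw [h3]
  exact H35P.T_formula (LF F) z q hz hq h1 h2

end H55K
end

-- from Lib.H28I.LA2
section

/-! # H28I, part LA: the Weierstrass function of an overlattice -/

open NumberField IsDedekindDomain WeierstrassCurve

namespace H28I

open H55P (IQ embF eF LF Per IsHecke Pt ac Inert Dec Nm)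
open H35P (WAB Ker tt GoodW IntW)
open H55K (xc yc)

/-- The difference. -/
noncomputable def la2_D (L L' : PeriodPair) (T : Finset ℂ) (z : ℂ) : ℂ :=
  L'.weierstrassP z - ∑ r ∈ T, L.weierstrassP (z + r)

theorem la2_zero_notMem {L L' : PeriodPair} {S : Finset ℂ} (h : RepL L L' S) : (0 : ℂ) ∉ S :=
  fun h0 => h.out 0 h0 (zero_mem _)

theorem la2_per {L L' : PeriodPair} {S : Finset ℂ} (h : RepL L L' S) (T : Finset ℂ) (z : ℂ) (l : ℂ)
    (hl : l ∈ L.lattice) : la2_D L L' T (z + l) = la2_D L L' T z := by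
  unfold la2_D
  rw [H55K.CC.wp_per L' z (h.le l hl)]
  congr 1
  refine Finset.sum_congr rfl fun r _ => ?_
  rw [show z + l + r = z + r + l by ring, H55K.CC.wp_per L (z + r) hl]

open Classical in
theorem la2_out {L L' : PeriodPair} {S : Finset ℂ} (h : RepL L L' S) {z₀ r₀ : ℂ} (hr₀ : r₀ ∈ insert 0 S)
    (h0 : z₀ + r₀ ∈ L.lattice) {r : ℂ} (hr : r ∈ (insert 0 S).erase r₀) : z₀ + r ∉ L.lattice := by
  intro h1
  have hd : r - r₀ ∈ L.lattice := by
    have := sub_mem h1 h0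
    rwa [show z₀ + r - (z₀ + r₀) = r - r₀ by ring] at this
  rw [Finset.mem_erase, Finset.mem_insert] at hr
  rw [Finset.mem_insert] at hr₀
  obtain ⟨hne, hr⟩ := hr
  rcases hr with rfl | hr
  · rcases hr₀ with rfl | hr₀
    · exact hne rfl
    · rw [zero_sub, neg_mem_iff] at hd
      exact h.out _ hr₀ hd
  · rcases hr₀ with rfl | hr₀
    · rw [sub_zero] at hd
      exact h.out _ hr hd
    · exact hne (h.inj r hr r₀ hr₀ hd)

open Classical in
theorem la2_loc {L L' : PeriodPair} {S : Finset ℂ} (h : RepL L L' S) {z₀ r₀ : ℂ} (hr₀ : r₀ ∈ insert 0 S)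
    (h0 : z₀ + r₀ ∈ L.lattice) {u u' : ℂ → ℂ} (hu : AnalyticAt ℂ u 0) (hu' : AnalyticAt ℂ u' 0)
    (hwp : ∀ z : ℂ, z ≠ 0 → L.weierstrassP z = (z ^ 2)⁻¹ + u z)
    (hwp' : ∀ z : ℂ, z ≠ 0 → L'.weierstrassP z = (z ^ 2)⁻¹ + u' z) :
    AnalyticAt ℂ (fun z => u' (z - z₀) - u (z - z₀) -
      ∑ r ∈ (insert 0 S).erase r₀, L.weierstrassP (z + r)) z₀ ∧
    ∀ z, z ≠ z₀ → la2_D L L' (insert 0 S) z = u' (z - z₀) - u (z - z₀) -
      ∑ r ∈ (insert 0 S).erase r₀, L.weierstrassP (z + r) := by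
  constructor
  · have h1 : AnalyticAt ℂ (fun z => u' (z - z₀)) z₀ := by
      have e : AnalyticAt ℂ u' ((fun z : ℂ => z - z₀) z₀) := by simpa using hu'
      exact e.comp (f := fun z : ℂ => z - z₀) (by fun_prop)
    have h2 : AnalyticAt ℂ (fun z => u (z - z₀)) z₀ := by
      have e : AnalyticAt ℂ u ((fun z : ℂ => z - z₀) z₀) := by simpa using hu
      exact e.comp (f := fun z : ℂ => z - z₀) (by fun_prop)
    have h3 : AnalyticAt ℂ (fun z => ∑ r ∈ (insert 0 S).erase r₀, L.weierstrassP (z + r)) z₀ :=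
      Finset.analyticAt_fun_sum _ fun r hr => H55K.CC.c2_an (la2_out h hr₀ h0 hr)
    exact (h1.sub h2).sub h3
  · intro z hz
    have hz' : z - z₀ ≠ 0 := sub_ne_zero.2 hz
    have hb : z₀ ∈ L'.lattice := by
      have h1 := h.le _ h0
      have h2 : r₀ ∈ L'.lattice := by
        rw [Finset.mem_insert] at hr₀
        rcases hr₀ with rfl | hr₀
        · exact zero_mem _
        · exact h.mem _ hr₀
      have := sub_mem h1 h2
      rwa [show (z₀ + r₀) - r₀ = z₀ by ring] at this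
    have e1 : L'.weierstrassP z = ((z - z₀) ^ 2)⁻¹ + u' (z - z₀) := by
      rw [← hwp' _ hz', ← H55K.CC.wp_per L' (z - z₀) hb]
      congr 1
      ring
    have e2 : L.weierstrassP (z + r₀) = ((z - z₀) ^ 2)⁻¹ + u (z - z₀) := by
      rw [← hwp _ hz', ← H55K.CC.wp_per L (z - z₀) h0]
      congr 1
      ring
    unfold la2_D
    rw [← Finset.add_sum_erase _ _ hr₀, e1, e2]
    ring

open Classical in
/-- The proof of sum_wp. -/
theorem la2_main {L L' : PeriodPair} {S : Finset ℂ} (h : RepL L L' S) {z : ℂ} (hz : z ∉ L'.lattice) :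
    L'.weierstrassP z = L.weierstrassP z + ∑ r ∈ S, (L.weierstrassP (z + r) - L.weierstrassP r) := by
  obtain ⟨u, hu, hu0, hwp⟩ := H35P.wp_zero L
  obtain ⟨u', hu', hu'0, hwp'⟩ := H35P.wp_zero L'
  have han : ∀ z₀, z₀ ∉ L'.lattice → AnalyticAt ℂ (la2_D L L' (insert 0 S)) z₀ := by
    intro z₀ hz₀
    have h1 : AnalyticAt ℂ (fun z => L'.weierstrassP z) z₀ := H35P.wp_analytic L' _ hz₀
    have h3 : AnalyticAt ℂ (fun z => ∑ r ∈ insert 0 S, L.weierstrassP (z + r)) z₀ := by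
      refine Finset.analyticAt_fun_sum _ fun r hr => H55K.CC.c2_an ?_
      rw [Finset.mem_insert] at hr
      rcases hr with rfl | hr
      · rw [add_zero]; exact fun k => hz₀ (h.le _ k)
      · intro k
        apply hz₀
        have k1 := sub_mem (h.le _ k) (h.mem _ hr)
        rwa [show z₀ + r - r = z₀ by ring] at k1
    exact h1.sub h3
  obtain ⟨c, hc⟩ := H35P.liouville L (la2_D L L' (insert 0 S)) (fun z l hl => la2_per h _ z l hl) (by
    intro z₀
    by_cases hz₀ : z₀ ∈ L'.lattice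
    · obtain ⟨r₀, hr₀, h0⟩ : ∃ r₀ ∈ insert 0 S, z₀ + r₀ ∈ L.lattice := by
        have h1 : (-z₀) ∈ L'.lattice := by
          rw [neg_mem_iff]; exact hz₀
        rcases h.ex _ h1 with h2 | ⟨r, hr, h2⟩
        · exact ⟨0, Finset.mem_insert_self _ _, by rw [add_zero]; exact neg_mem_iff.1 h2⟩
        · refine ⟨r, Finset.mem_insert_of_mem hr, ?_⟩
          rw [← neg_mem_iff]
          rwa [show -(z₀ + r) = -z₀ - r by ring]
      obtain ⟨k1, k2⟩ := la2_loc h hr₀ h0 hu hu' hwp hwp'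
      refine ⟨_, k1, ?_⟩
      filter_upwards [self_mem_nhdsWithin] with z hz using k2 z hz
    · exact ⟨_, han z₀ hz₀, Filter.Eventually.of_forall fun z => rfl⟩)
  have h0 : (0 : ℂ) + 0 ∈ L.lattice := by rw [add_zero]; exact zero_mem _
  obtain ⟨k1, k2⟩ := la2_loc h (Finset.mem_insert_self 0 S) h0 hu hu' hwp hwp'
  have e1 := hc 0 _ k1.continuousAt (by
    filter_upwards [self_mem_nhdsWithin] with z hz using k2 z hz)
  have e2 := hc z _ (han z hz).continuousAt (Filter.Eventually.of_forall fun z => rfl)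
  rw [← e1] at e2
  simp only [sub_zero, hu0, hu'0, zero_add, zero_sub] at e2
  rw [Finset.erase_insert (la2_zero_notMem h)] at e2
  unfold la2_D at e2
  rw [Finset.sum_insert (la2_zero_notMem h), add_zero] at e2
  rw [Finset.sum_sub_distrib]
  linear_combination e2

/-- Chunk LA2 (M). Port of E1 (H55K/C2.lean) with two lattices: D(z) = wp_L'(z) - sum over r in insert 0 S of wp_L(z + r). It is periodic for the lattice of L' : for l in L' : translation by l permutes the classes modulo L (or, simpler: D is periodic for the lattice of L, which is enough for H35P.liouville L: wp_per for L and for L' (h.le)).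
Local: z0 not in L': every z0 + r (r in insert 0 S) is outside L' hence outside L: analytic (H35P.wp_analytic). z0 in L': there is exactly one r0 in insert 0 S with z0 + r0 in L (h.ex for -z0, h.inj, h.out); with u, u' from H35P.wp_zero for L, L': near z0: wp_L'(z) = ((z - z0)^2)^(-1) + u'(z - z0) and wp_L(z + r0) = ((z - z0)^2)^(-1) + u(z - z0), so
D(z) = u'(z - z0) - u(z - z0) - (the other terms), analytic. liouville gives a constant; at z0 = 0 (r0 = 0, u 0 = u' 0 = 0) it is - sum over S of wp_L r. -/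
theorem sum_wp {L L' : PeriodPair} {S : Finset ℂ} (h : RepL L L' S) {z : ℂ} (hz : z ∉ L'.lattice) :
    L'.weierstrassP z = L.weierstrassP z + ∑ r ∈ S, (L.weierstrassP (z + r) - L.weierstrassP r) :=
  la2_main h hz

end H28I
end

-- from Lib.H28I.LA3
section

/-! # H28I, part LA: translation by points of order 2 and 3 -/

open NumberField IsDedekindDomain WeierstrassCurve

namespace H28I

open H55P (IQ embF eF LF Per IsHecke Pt ac Inert Dec Nm)
open H35P (WAB Ker tt GoodW IntW)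
open H55K (xc yc)

/-- The formula with Om = 1. -/
theorem la3_add_sub (L : PeriodPair) {A B : ℂ} (g2 : L.g₂ = -4 * A) (g3 : L.g₃ = -4 * B) {w z : ℂ} (hw : w ∉ L.lattice)
    (hz : z ∉ L.lattice) (hzw : z + w ∉ L.lattice) (hzw' : z - w ∉ L.lattice) :
    L.weierstrassP z - L.weierstrassP w ≠ 0 ∧ L.weierstrassP (z + w) + L.weierstrassP (z - w) =
      2 * ((L.weierstrassP z + L.weierstrassP w) * (L.weierstrassP w * L.weierstrassP z + A) + 2 * B) /
        (L.weierstrassP z - L.weierstrassP w) ^ 2 := by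
  have h := H55K.CC.xl_add_sub L (A := A) (B := B) (Om := 1) one_ne_zero (by rw [g2]; ring) (by rw [g3]; ring) hz hw hzw hzw'
  simpa [H55K.CC.XL] using h

/-- The derivative vanishes at a point of order 2. -/
theorem la3_deriv (L : PeriodPair) {w : ℂ} (h2 : 2 * w ∈ L.lattice) : L.derivWeierstrassP w = 0 := by
  have h := H55K.CC.wpd_per L (-w) h2
  rw [show -w + 2 * w = w by ring, L.derivWeierstrassP_neg] at h
  linear_combination h / 2

/-- Chunk LA3 (S/M). z - w = (z + w) - 2 w is not in the lattice. H55K.CC.xl_add_sub with Om = 1 (XL L 1 z = wp z): wp z ≠ wp w and, wp(z - w) = wp(z + w) (periodicity), 2 wp(z + w) = 2 ((x + e)(x e + A) + 2 B)/(x - e)^2 with x = wp z, e = wp w. derivWeierstrassP w = 0 (odd, periodic: w and -w are congruent), so e^3 + A e + B = 0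
(L.derivWeierstrassP_sq). B = - e^3 - A e: field_simp, ring. -/
theorem two_add (L : PeriodPair) {A B : ℂ} (g2 : L.g₂ = -4 * A) (g3 : L.g₃ = -4 * B) {w z : ℂ} (hw : w ∉ L.lattice)
    (h2 : 2 * w ∈ L.lattice) (hz : z ∉ L.lattice) (hzw : z + w ∉ L.lattice) :
    L.weierstrassP z ≠ L.weierstrassP w ∧ L.weierstrassP (z + w) - L.weierstrassP w =
      (3 * L.weierstrassP w ^ 2 + A) / (L.weierstrassP z - L.weierstrassP w) := by
  have hzw' : z - w ∉ L.lattice := by
    intro h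
    apply hzw
    have := add_mem h h2
    rwa [show z - w + 2 * w = z + w by ring] at this
  obtain ⟨h0, h1⟩ := la3_add_sub L g2 g3 hw hz hzw hzw'
  have e1 : L.weierstrassP (z + w) = L.weierstrassP (z - w) := by
    rw [← H55K.CC.wp_per L (z - w) h2]
    congr 1
    ring
  have e2 := L.derivWeierstrassP_sq w hw
  rw [la3_deriv L h2, g2, g3] at e2
  rw [← e1] at h1
  refine ⟨sub_ne_zero.1 h0, ?_⟩
  have h1' : L.weierstrassP (z + w) = ((L.weierstrassP z + L.weierstrassP w) * (L.weierstrassP w * L.weierstrassP z + A) + 2 * B) /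
        (L.weierstrassP z - L.weierstrassP w) ^ 2 := by
    linear_combination h1 / 2
  rw [h1']
  set x := L.weierstrassP z
  set e := L.weierstrassP w
  have e3 : e ^ 3 + A * e + B = 0 := by linear_combination (-1 / 4 : ℂ) * e2
  rw [eq_div_iff h0, sub_mul, div_mul_eq_mul_div, pow_two (x - e), mul_div_mul_right _ _ h0, sub_eq_iff_eq_add,
    div_eq_iff h0]
  linear_combination 2 * e3

/-- Chunk LA3 (S/M). H55K.CC.xl_add_sub with Om = 1; the wp w are subtracted; field_simp, ring (no relation is needed: 2 ((x + e)(x e + A) + 2 B) - 2 e (x - e)^2 = 2 (3 e^2 + A)(x - e) + 4 (e^3 + A e + B)). -/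
theorem three_add (L : PeriodPair) {A B : ℂ} (g2 : L.g₂ = -4 * A) (g3 : L.g₃ = -4 * B) {w z : ℂ} (hw : w ∉ L.lattice)
    (hz : z ∉ L.lattice) (hzw : z + w ∉ L.lattice) (hzw' : z - w ∉ L.lattice) :
    L.weierstrassP z ≠ L.weierstrassP w ∧
      (L.weierstrassP (z + w) - L.weierstrassP w) + (L.weierstrassP (z - w) - L.weierstrassP w) =
      2 * (3 * L.weierstrassP w ^ 2 + A) / (L.weierstrassP z - L.weierstrassP w) +
        4 * (L.weierstrassP w ^ 3 + A * L.weierstrassP w + B) / (L.weierstrassP z - L.weierstrassP w) ^ 2 := by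
  obtain ⟨h0, h1⟩ := la3_add_sub L g2 g3 hw hz hzw hzw'
  refine ⟨sub_ne_zero.1 h0, ?_⟩
  have e1 : (L.weierstrassP (z + w) - L.weierstrassP w) + (L.weierstrassP (z - w) - L.weierstrassP w) =
    (L.weierstrassP (z + w) + L.weierstrassP (z - w)) - 2 * L.weierstrassP w := by ring
  rw [e1, h1]
  field_simp
  ring

end H28I
end

-- from Lib.H28I.LA3B
section

/-! # H28I, part LA: points of order 2 and 3 -/

open NumberField IsDedekindDomain WeierstrassCurve

namespace H28I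

open H55P (IQ embF eF LF Per IsHecke Pt ac Inert Dec Nm)
open H35P (WAB Ker tt GoodW IntW)
open H55K (xc yc)

/-- Chunk LA3B (M). H55K.CC.wp_surj: w with wp w = e. pt from H35P.pt_exists with Om = 1 (and pt z = 0 only for z in the lattice, since otherwise pt z = some). derivWeierstrassP_sq: (wp' w)^2 = 4 (e^3 + A e + B) = 0. So pt w = some e 0, - pt w = pt w (Affine.Point.neg_some, negY), pt (2 w) = pt w + pt w = 0, 2 w is in the lattice. -/
theorem two_tor (L : PeriodPair) {A B e : ℂ} (g2 : L.g₂ = -4 * A) (g3 : L.g₃ = -4 * B) (hd : 4 * A ^ 3 + 27 * B ^ 2 ≠ 0)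
    (he : e ^ 3 + A * e + B = 0) : ∃ w, w ∉ L.lattice ∧ L.weierstrassP w = e ∧ 2 * w ∈ L.lattice := by
  obtain ⟨w, hw, hwe⟩ := H55K.CC.wp_surj L e
  refine ⟨w, hw, hwe, ?_⟩
  by_contra h2
  have h3 := H35P.wpd_ne L w hw h2
  have e1 := L.derivWeierstrassP_sq w hw
  rw [g2, g3, hwe] at e1
  have e2 : L.derivWeierstrassP w ^ 2 = 0 := by linear_combination e1 + 4 * he
  exact h3 (pow_eq_zero_iff two_ne_zero |>.1 e2)

/-- Chunk LA3B (M). w and pt as in two_tor, P = pt w = some e y, y = wp' w/2, y^2 = e^3 + A e + B. y ≠ 0: otherwise e^3 + A e + B = 0 and 3 e^4 + 6 A e^2 + 12 B e - A^2 = 0, so with B = - e^3 - A e: - (3 e^2 + A)^2 = 0, A = -3 e^2, B = 2 e^3, 4 A^3 + 27 B^2 = 0, contradiction. P + P = some x' .. with x' = ((3 e^2 + A)/(2 y))^2 - 2 e (Affine.Point.add_self_of_Y_ne or add_some, slope_of_Y_ne),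
and x' = e because (3 e^2 + A)^2 - 12 e y^2 = -(3 e^4 + 6 A e^2 + 12 B e - A^2) = 0. Two points with the same x-coordinate are equal or opposite: P + P = P gives P = 0, impossible; so P + P = -P, 3 P = 0 and 3 w is in the lattice. -/
theorem three_tor (L : PeriodPair) {A B e : ℂ} (g2 : L.g₂ = -4 * A) (g3 : L.g₃ = -4 * B) (hd : 4 * A ^ 3 + 27 * B ^ 2 ≠ 0)
    (he : 3 * e ^ 4 + 6 * A * e ^ 2 + 12 * B * e - A ^ 2 = 0) :
    ∃ w, w ∉ L.lattice ∧ L.weierstrassP w = e ∧ 3 * w ∈ L.lattice := by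
  obtain ⟨w, hw, hwe⟩ := H55K.CC.wp_surj L e
  refine ⟨w, hw, hwe, ?_⟩
  by_contra h3
  have e1 := L.derivWeierstrassP_sq w hw
  rw [g2, g3, hwe] at e1
  have h2 : 2 * w ∉ L.lattice := by
    intro h2
    have h4 := H55K.CC.wpd_per L (-w) h2
    rw [show -w + 2 * w = w by ring, L.derivWeierstrassP_neg] at h4
    have h5 : L.derivWeierstrassP w = 0 := by linear_combination h4 / 2
    rw [h5] at e1
    have h6 : (3 * e ^ 2 + A) ^ 2 = 0 := by linear_combination (-1 : ℂ) * he - 3 * e * e1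
    have h7 : 3 * e ^ 2 + A = 0 := pow_eq_zero_iff two_ne_zero |>.1 h6
    apply hd
    have h8 : A = -3 * e ^ 2 := by linear_combination h7
    have h9 : B = 2 * e ^ 3 := by
      rw [h8] at e1
      linear_combination (-1 / 4 : ℂ) * e1
    rw [h8, h9]
    ring
  have h4 := H35P.dbl_x L w hw h2
  have h5 := H35P.wpd_ne L w hw h2
  have h6 : L.weierstrassP (2 * w) = L.weierstrassP w := by
    rw [h4, hwe]
    unfold H35P.md
    rw [hwe, g2, div_pow]
    have h7 : (6 * e ^ 2 - -4 * A / 2) ^ 2 / L.derivWeierstrassP w ^ 2 = 12 * e := by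
      rw [div_eq_iff (pow_ne_zero 2 h5), e1]
      linear_combination (-4 : ℂ) * he
    rw [h7]
    ring
  exact H35P.wp_ne L (2 * w) w h2 hw (by rwa [show 2 * w + w = 3 * w by ring]) (by rwa [show 2 * w - w = w by ring]) h6

end H28I
end

-- from Lib.H28T.CD_T
section

/-! # H28T: the class of fields for a curve with complex multiplication (definitions) -/

open NumberField IsDedekindDomain WeierstrassCurve

namespace H28T

open H28R (SubQ)
open H55P H55R

variable {F : Type} [Field F] [NumberField F]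

/-- v does not divide the discriminant and p, and p does not divide the number of points modulo v. -/
def Gd (W₀ : WeierstrassCurve (𝓞 F)) (p : ℕ) (v : HeightOneSpectrum (𝓞 F)) : Prop :=
  W₀.Δ ∉ v.asIdeal ∧ (p : 𝓞 F) ∉ v.asIdeal ∧ ¬ p ∣ Nat.card (W₀⁄(𝓞 F ⧸ v.asIdeal)).toAffine.Point





/-- There is a number field K₀ with a real place and a quadratic extension N of K₀ which contains F, is Galois over ℚ and over F of degree a
power of p, ramified over F only at primes in G, and H is a subquotient of the Galois group of N/F. -/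
def RealFieldG (G : HeightOneSpectrum (𝓞 F) → Prop) (p : ℕ) (H : Type) [Group H] : Prop :=
  ∃ (K₀ : Type) (_ : Field K₀) (_ : NumberField K₀), 0 < InfinitePlace.nrRealPlaces K₀ ∧
    ∃ (N : Type) (_ : Field N) (_ : NumberField N) (_ : Algebra F N) (_ : Algebra K₀ N),
      Module.finrank K₀ N = 2 ∧ IsGalois ℚ N ∧ ExtG G p N ∧ SubQ (N ≃ₐ[F] N) H

end H28T
end

-- from Lib.H55K.UA2A
section

/-! # H55K: the sum of the second differences is analytic -/

open NumberField IsDedekindDomain WeierstrassCurve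

namespace H55K

open H55P (IQ embF eF LF Per IsHecke Pt ac Inert Dec Nm)
open H35P (WAB Ker tt)


variable {F : Type} [Field F] [NumberField F] [IQ F]

theorem ua2a_fin (F : Type) [Field F] [NumberField F] [IQ F] (C : ℝ) :
    {x : 𝓞 F | ‖eF F x‖ ≤ C}.Finite := by
  rcases lt_or_ge C 0 with hC | hC
  · refine Set.Finite.subset Set.finite_empty fun x hx => ?_
    have h1 : ‖eF F x‖ ≤ C := hx
    exact absurd (norm_nonneg (eF F x)) (by linarith)
  · have h1 := (H55P.summable_e (F := F) (r := 3) (by norm_num)).tendsto_cofinite_zero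
    have h2 : (0 : ℝ) < (1 + C) ^ (-(3 : ℝ)) := Real.rpow_pos_of_pos (by linarith) _
    have h3 := h1.eventually (gt_mem_nhds h2)
    rw [Filter.eventually_cofinite] at h3
    refine h3.subset fun x hx => ?_
    have h4 : ‖eF F x‖ ≤ C := hx
    change ¬ ((1 + ‖eF F x‖) ^ (-(3 : ℝ)) < (1 + C) ^ (-(3 : ℝ)))
    rw [not_lt]
    exact Real.rpow_le_rpow_of_nonpos (by have := norm_nonneg (eF F x); linarith) (by linarith) (by norm_num)

/-- Chunk UA2A (S). summable_e (H55P/F0.lean), comparison outside the finite set of the x with ‖eF F x‖ small (finite: H55P.pe8_fin, or from summable_e): 1 + ‖eF F x‖ ≤ C ‖z + eF F x‖ if ‖eF F x‖ ≥ 2‖z‖ + 1. -/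
theorem sum_shift (F : Type) [Field F] [NumberField F] [IQ F] (z : ℂ) (κ : ℝ) (hκ : 2 < κ) :
    Summable fun x : 𝓞 F => ‖z + eF F x‖ ^ (-κ) := by
  have h0 : Summable fun x : 𝓞 F => (2 : ℝ) ^ κ * (1 + ‖eF F x‖) ^ (-κ) := (H55P.summable_e (F := F) hκ).mul_left _
  refine h0.of_norm_bounded_eventually ?_
  rw [Filter.eventually_cofinite]
  refine (ua2a_fin F (2 * ‖z‖ + 1)).subset fun x hx => ?_
  by_contra hne
  apply hx
  have hxC : 2 * ‖z‖ + 1 < ‖eF F x‖ := not_le.1 hne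
  have h1 : ‖eF F x‖ ≤ ‖z + eF F x‖ + ‖z‖ := by
    have := norm_sub_le (z + eF F x) z
    rwa [add_sub_cancel_left] at this
  have h2 : (1 + ‖eF F x‖) / 2 ≤ ‖z + eF F x‖ := by linarith
  have h3 : 0 < (1 + ‖eF F x‖) / 2 := by
    have := norm_nonneg (eF F x)
    linarith
  have h4 := Real.rpow_le_rpow_of_nonpos h3 h2 (by linarith : -κ ≤ 0)
  rw [Real.norm_eq_abs, abs_of_nonneg (Real.rpow_nonneg (norm_nonneg _) _)]
  refine h4.trans (le_of_eq ?_)
  rw [Real.div_rpow (by have := norm_nonneg (eF F x); linarith) (by norm_num), Real.rpow_neg (by norm_num : (0 : ℝ) ≤ 2)]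
  field_simp

/-- Chunk UA2A (S). {x : ‖z + eF F x‖ < c} is finite (from sum_shift, or H55P.pe8_fin in H55P/E8.lean). -/
theorem fin_shift (F : Type) [Field F] [NumberField F] [IQ F] (z : ℂ) (c : ℝ) :
    {x : 𝓞 F | ‖z + eF F x‖ < c}.Finite := by
  refine (ua2a_fin F (c + ‖z‖)).subset fun x hx => ?_
  have hx' : ‖z + eF F x‖ < c := hx
  have h1 : ‖eF F x‖ ≤ ‖z + eF F x‖ + ‖z‖ := by
    have := norm_sub_le (z + eF F x) z
    rwa [add_sub_cancel_left] at this
  show ‖eF F x‖ ≤ c + ‖z‖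
  linarith

end H55K
end

-- from Lib.H28I.C1
section

/-! # H28I, part C: isogenies with a map back -/

open NumberField IsDedekindDomain WeierstrassCurve

namespace H28I

open H55P (IQ embF eF LF Per IsHecke Pt ac Inert Dec Nm)
open H35P (WAB Ker tt GoodW IntW)
open H55K (xc yc)

variable {K : Type} [Field K] {Ω : Type} [Field Ω] [DecidableEq Ω] [Algebra K Ω]

/-- Chunk C1 (S/M). Ψ P' = 6 • P for any P with Φ P = P' (Classical.choose); well defined: Φ P = Φ Q implies 6 • (P - Q) = 0. Additive (AddMonoidHom.mk'). Ψ (Φ P) = 6 • P, Φ (Ψ P') = 6 • P'. Equivariance of Ψ: Φ (ac s P) = ac s P'. -/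
theorem iso6_of_surj {W₁ W₂ : WeierstrassCurve K} (Φ : Pt W₁ Ω →+ Pt W₂ Ω) (hs : Function.Surjective Φ)
    (h6 : ∀ P, Φ P = 0 → (6 : ℕ) • P = 0) (hg : ∀ (s : Ω ≃ₐ[K] Ω) (P : Pt W₁ Ω), Φ (ac W₁ s P) = ac W₂ s (Φ P)) :
    Iso6 W₁ W₂ Ω := by
  have hg' := hg
  clear hg
  choose g hg using hs
  have hwd : ∀ P Q : Pt W₁ Ω, Φ P = Φ Q → (6 : ℕ) • P = (6 : ℕ) • Q := by
    intro P Q h
    have h1 := h6 (P - Q) (by rw [map_sub, h, sub_self])
    rw [nsmul_sub] at h1
    exact sub_eq_zero.1 h1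
  refine ⟨Φ, AddMonoidHom.mk' (fun P => (6 : ℕ) • g P) (fun P Q => ?_), fun P => ?_, fun P => ?_, hg', fun s P => ?_⟩
  · rw [← nsmul_add]
    refine hwd _ _ ?_
    rw [hg, map_add, hg, hg]
  · show (6 : ℕ) • g (Φ P) = (6 : ℕ) • P
    exact hwd _ _ (hg _)
  · show Φ ((6 : ℕ) • g P) = (6 : ℕ) • P
    rw [map_nsmul, hg]
  · show (6 : ℕ) • g (ac W₂ s P) = ac W₁ s ((6 : ℕ) • g P)
    rw [map_nsmul]
    refine hwd _ _ ?_
    rw [hg, hg', hg]

/-- Chunk C1 (S). -/
theorem iso6_symm {W₁ W₂ : WeierstrassCurve K} (h : Iso6 W₁ W₂ Ω) : Iso6 W₂ W₁ Ω := by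
  obtain ⟨Φ, Ψ, h1, h2, h3, h4⟩ := h
  exact ⟨Ψ, Φ, h2, h1, h4, h3⟩

end H28I
end

-- from Lib.H28T.AQ1
section

open NumberField IsDedekindDomain

namespace H28T

open H55P H55R

variable {F : Type} [Field F] [NumberField F] {G : HeightOneSpectrum (𝓞 F) → Prop}

/-- Chunk AQ1 (S/M), port of H28R.exists_quotP (H28R/A5.lean) with hD k' N' (k' = k + 1 or k) in place of exists_prime_p; no condition modulo 3. -/
theorem aq1_quot {p : ℕ} (hp : p.Prime) (hD : DirH G p) (A : Type) [CommGroup A] [Finite A]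
    (k : ℕ) (hA : Nat.card A = p ^ k) (N : ℕ) :
    ∃ m : ℕ, 1 < m ∧ (∀ l : ℕ, l.Prime → l ∣ m → N < l ∧ GoodL G l) ∧
      ∃ Φ : (ZMod m)ˣ →* A, Function.Surjective Φ := by
  classical
  have := Fintype.ofFinite A
  choose g hg using fun N' : ℕ => hD k N'
  let s : ℕ → ℕ := fun n => Nat.rec (g N) (fun _ r => g r) n
  have hs0 : s 0 = g N := rfl
  have hs1 : ∀ n, s (n + 1) = g (s n) := fun n => rfl
  have hgN : ∀ N', N' < g N' := fun N' => (hg N').2.1
  have hmono : StrictMono s := strictMono_nat_of_lt_succ (fun n => by rw [hs1]; exact hgN _)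
  have hsN : ∀ n, N < s n := by
    intro n
    have h1 : s 0 ≤ s n := hmono.monotone (Nat.zero_le n)
    have h2 := hgN N
    rw [← hs0] at h2
    omega
  have hsg : ∀ n, ∃ N', s n = g N' := by
    intro n
    cases n with
    | zero => exact ⟨_, hs0⟩
    | succ n => exact ⟨_, hs1 n⟩
  let e := Fintype.equivFin A
  let l : A → ℕ := fun a => s (e a)
  have hl : Function.Injective l := by
    intro a b hab
    exact e.injective (Fin.ext (hmono.injective hab))
  have hprop : ∀ a, (l a).Prime ∧ p ^ k ∣ l a - 1 ∧ N < l a ∧ GoodL G (l a) := by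
    intro a
    obtain ⟨N', hN'⟩ := hsg (e a)
    have h1 := hg N'
    have h2 : l a = g N' := hN'
    refine ⟨?_, ?_, hsN _, ?_⟩
    · rw [h2]; exact h1.1
    · rw [h2]; exact h1.2.2.1
    · rw [h2]; exact h1.2.2.2
  have hcard : ∀ a, Nat.card A ∣ l a - 1 := by
    intro a
    rw [hA]
    exact (hprop a).2.1
  obtain ⟨Φ, hΦ⟩ := H55C.Y17_surj A l hl (fun a => (hprop a).1) hcard
  refine ⟨∏ a, l a, ?_, ?_, Φ, hΦ⟩
  · have h1 : l 1 ∣ ∏ a, l a := Finset.dvd_prod_of_mem l (Finset.mem_univ 1)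
    have h2 : 0 < ∏ a, l a := Finset.prod_pos fun a _ => (hprop a).1.pos
    exact lt_of_lt_of_le (hprop 1).1.one_lt (Nat.le_of_dvd h2 h1)
  · intro q hq hqd
    obtain ⟨a, -, ha⟩ := (Nat.Prime.prime hq).exists_mem_finset_dvd hqd
    have e2 : q = l a := (Nat.prime_dvd_prime_iff_eq hq (hprop a).1).1 ha
    rw [e2]
    exact ⟨(hprop a).2.2.1, (hprop a).2.2.2⟩

end H28T
end

-- from Lib.H55K.UB2
section

/-! # H55K: elliptic units: first facts -/

open NumberField IsDedekindDomain WeierstrassCurve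

namespace H55K

open H55P (IQ embF eF LF Per IsHecke Pt ac Inert Dec Nm)
open H35P (WAB Ker tt)


variable {F : Type} [Field F] [NumberField F] [IQ F] {A B : F} {Om : ℂ} {Ω : Type} [Field Ω] [DecidableEq Ω]
  [Algebra F Ω] {j : Ω →+* ℂ} {act : 𝓞 F →+* AddMonoid.End (Pt (WAB A B) Ω)} {m : Ideal (𝓞 F)}
  {ψ : Ideal (𝓞 F) →*₀ 𝓞 F} {l : ℕ} {μ : 𝓞 F} {a : ℕ} {ρ τ : Pt (WAB A B) Ω} {H R : Finset (𝓞 F)}
  {D S : Finset (Pt (WAB A B) Ω)}

omit [NumberField F] [IQ F] in
theorem ub2_nsmul (act : 𝓞 F →+* AddMonoid.End (Pt (WAB A B) Ω)) (n : ℕ) (P : Pt (WAB A B) Ω) :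
    n • P = act (n : 𝓞 F) P := by
  rw [map_natCast, AddMonoid.End.natCast_apply]

omit [NumberField F] [IQ F] in
theorem ub2_mul (act : 𝓞 F →+* AddMonoid.End (Pt (WAB A B) Ω)) (x y : 𝓞 F) (P : Pt (WAB A B) Ω) :
    act x (act y P) = act (x * y) P := by
  rw [map_mul]
  rfl

omit [NumberField F] [IQ F] in
theorem ub2_sub (act : 𝓞 F →+* AddMonoid.End (Pt (WAB A B) Ω)) (x y : 𝓞 F) (P : Pt (WAB A B) Ω) :
    act (x - y) P = act x P - act y P := by
  rw [map_sub]
  rfl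

omit [NumberField F] [IQ F] in
theorem ub2_add (act : 𝓞 F →+* AddMonoid.End (Pt (WAB A B) Ω)) (x y : 𝓞 F) (P : Pt (WAB A B) Ω) :
    act (x + y) P = act x P + act y P := by
  rw [map_add]
  rfl

omit [NumberField F] [IQ F] in
theorem ub2_one (act : 𝓞 F →+* AddMonoid.End (Pt (WAB A B) Ω)) (P : Pt (WAB A B) Ω) :
    act 1 P = P := by
  rw [map_one]
  rfl

omit [NumberField F] [IQ F] in
theorem ub2_cop (act : 𝓞 F →+* AddMonoid.End (Pt (WAB A B) Ω)) {x y : 𝓞 F} (h : IsCoprime x y)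
    {P : Pt (WAB A B) Ω} (hx : act x P = 0) (hy : act y P = 0) : P = 0 := by
  obtain ⟨u, v, huv⟩ := h
  rw [← ub2_one act P, ← huv, ub2_add, ← ub2_mul, ← ub2_mul, hx, hy, map_zero, map_zero, add_zero]

theorem ub2_perm {α M : Type} [CommMonoid M] (D : Finset α) (g : α → α) (hm : ∀ x ∈ D, g x ∈ D)
    (hi : Set.InjOn g (D : Set α)) (f : α → M) : ∏ X ∈ D, f (g X) = ∏ X ∈ D, f X := by
  classical
  have h1 : D.image g = D :=
    Finset.eq_of_subset_of_card_le (Finset.image_subset_iff.2 hm) (Finset.card_image_of_injOn hi).ge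
  conv_rhs => rw [← h1]
  rw [Finset.prod_image hi]

/-- Chunk UB2 (S/M). X = act h ρ; if X = 0 then μ divides h, but h is prime to m = span {μ} ≠ top (hecke.ntop). -/
theorem D_ne (h : Dta A B Om j act m ψ l) (hU : UDat Om j act m ψ l μ a ρ τ H R D S) {X : Pt (WAB A B) Ω}
    (hX : X ∈ D) : X ≠ 0 ∧ Nm μ • X = 0 := by
  obtain ⟨x, hx, rfl⟩ := (hU.memD X).1 hX
  constructor
  · intro h0
    have h1 := (hU.rho0 x).1 h0
    have h2 := hx.1
    rw [Ideal.isCoprime_iff_sup_eq] at h2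
    apply h.hecke.ntop
    rw [eq_top_iff, ← h2]
    refine sup_le ?_ le_rfl
    rw [← hU.mu]
    exact Ideal.span_singleton_le_span_singleton.2 h1
  · rw [ub2_nsmul act, ub2_mul, hU.rho0, ← mul_cj]
    exact ⟨cj μ * x, by ring⟩

/-- Chunk UB2. -/
theorem S_ne (hU : UDat Om j act m ψ l μ a ρ τ H R D S) {Q : Pt (WAB A B) Ω} (hQ : Q ∈ S) :
    Q ≠ 0 ∧ a • Q = 0 := by
  have h1 := (hU.memS Q).1 hQ
  exact ⟨h1.2, by rw [ub2_nsmul act]; exact h1.1⟩

/-- Chunk UB2. Prm is multiplicative (ψ is multiplicative, span_singleton_mul_span_singleton). -/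
theorem Prm_mul {x y : 𝓞 F} (hx : Prm m ψ x) (hy : Prm m ψ y) : Prm m ψ (x * y) := by
  refine ⟨?_, ?_⟩
  · rw [← Ideal.span_singleton_mul_span_singleton]
    exact IsCoprime.mul_left hx.1 hy.1
  · rw [← Ideal.span_singleton_mul_span_singleton, map_mul, hx.2, hy.2]

theorem Prm_one : Prm m ψ (1 : 𝓞 F) := by
  have h1 : Ideal.span {(1 : 𝓞 F)} = 1 := by
    rw [Ideal.one_eq_top]
    exact Ideal.span_singleton_one
  refine ⟨?_, ?_⟩
  · rw [h1]
    exact isCoprime_one_left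
  · rw [h1, map_one]

/-- Chunk UB2. act β maps D to itself and is injective on the points killed by μ (β is prime to m): a permutation of the finite set D (Finset.prod_bij / surj_on_of_inj_on). -/
theorem prod_D (hU : UDat Om j act m ψ l μ a ρ τ H R D S) {β : 𝓞 F} (hβ : Prm m ψ β)
    (f : Pt (WAB A B) Ω → Ω) : ∏ X ∈ D, f (act β X) = ∏ X ∈ D, f X := by
  refine ub2_perm D (fun X => act β X) ?_ ?_ f
  · intro X hX
    obtain ⟨x, hx, rfl⟩ := (hU.memD X).1 hX
    exact (hU.memD _).2 ⟨β * x, Prm_mul hβ hx, ub2_mul act _ _ _⟩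
  · intro X hX Y hY hXY
    obtain ⟨x, hx, rfl⟩ := (hU.memD X).1 hX
    obtain ⟨y, hy, rfl⟩ := (hU.memD Y).1 hY
    have h1 : act (β * (x - y)) ρ = 0 := by
      rw [← ub2_mul, ub2_sub, map_sub]
      exact sub_eq_zero.2 hXY
    have h2 := (hU.rho0 _).1 h1
    have h3 : IsCoprime β μ := by
      rw [← Ideal.isCoprime_span_singleton_iff, hU.mu]
      exact hβ.1
    have h4 : μ ∣ x - y := h3.symm.dvd_of_dvd_mul_left h2
    have h5 := (hU.rho0 _).2 h4
    rw [ub2_sub] at h5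
    exact sub_eq_zero.1 h5

/-- Chunk UB2. The same for S and β prime to a. -/
theorem prod_S (hU : UDat Om j act m ψ l μ a ρ τ H R D S) {β : 𝓞 F} (hβ : IsCoprime β (a : 𝓞 F))
    (f : Pt (WAB A B) Ω → Ω) : ∏ Q ∈ S, f (act β Q) = ∏ Q ∈ S, f Q := by
  have hk : ∀ T : Pt (WAB A B) Ω, act (a : 𝓞 F) T = 0 → act β T = 0 → T = 0 := fun T h1 h2 =>
    ub2_cop act hβ h2 h1
  refine ub2_perm S (fun X => act β X) ?_ ?_ f
  · intro Q hQ
    have h1 := (hU.memS Q).1 hQ
    refine (hU.memS _).2 ⟨?_, ?_⟩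
    · rw [ub2_mul, mul_comm, ← ub2_mul, h1.1, map_zero]
    · intro h2
      exact h1.2 (hk Q h1.1 h2)
  · intro X hX Y hY hXY
    have h1 := (hU.memS X).1 hX
    have h2 := (hU.memS Y).1 hY
    refine sub_eq_zero.1 (hk _ ?_ ?_)
    · rw [map_sub, h1.1, h2.1, sub_zero]
    · rw [map_sub]
      exact sub_eq_zero.2 hXY

/-- Chunk UB2. S is stable under the negation. -/
theorem prod_neg {β : 𝓞 F} {S' : Finset (Pt (WAB A B) Ω)} (hS : TN act β S') (f : Pt (WAB A B) Ω → Ω) :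
    ∏ Q ∈ S', f (-Q) = ∏ Q ∈ S', f Q := by
  refine ub2_perm S' (fun X => -X) ?_ ?_ f
  · intro Q hQ
    have h1 := (hS Q).1 hQ
    refine (hS _).2 ⟨?_, neg_ne h1.2⟩
    rw [map_neg, h1.1, neg_zero]
  · intro X _ Y _ hXY
    exact neg_injective hXY

/-- Chunk UB2. A point of order prime to n killed by n is 0. -/
theorem cop_zero {G : Type} [AddCommGroup G] {a b : ℕ} (hab : Nat.Coprime a b) {x : G} (ha : a • x = 0)
    (hb : b • x = 0) : x = 0 := by
  have h1 := Nat.dvd_gcd (addOrderOf_dvd_of_nsmul_eq_zero ha) (addOrderOf_dvd_of_nsmul_eq_zero hb)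
  rw [hab.gcd_eq_one, Nat.dvd_one, AddMonoid.addOrderOf_eq_one_iff] at h1
  exact h1

end H55K
end

-- from Lib.H28I.E4
section

/-! # H28I, part E: algebraic relations between the two equations -/

open NumberField IsDedekindDomain WeierstrassCurve

namespace H28I

open H55P (IQ embF eF LF Per IsHecke Pt ac Inert Dec Nm)
open H35P (WAB Ker tt GoodW IntW)
open H55K (xc yc)

variable {k : Type} [Field k] [CharZero k] {V : ValuationSubring k}

theorem e4_c4 (W : WeierstrassCurve ℤ) : sA W k = -((W.b₂ : k) ^ 2 - 24 * W.b₄) / 48 := by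
  unfold sA WeierstrassCurve.c₄
  push_cast
  ring

theorem e4_c6 (W : WeierstrassCurve ℤ) :
    sB W k = -(-(W.b₂ : k) ^ 3 + 36 * W.b₂ * W.b₄ - 216 * W.b₆) / 864 := by
  unfold sB WeierstrassCurve.c₆
  push_cast
  ring

theorem e4_b8 (W : WeierstrassCurve ℤ) : 4 * (W.b₈ : k) = W.b₂ * W.b₆ - (W.b₄ : k) ^ 2 := by
  have h := congrArg (fun n : ℤ => (n : k)) W.b_relation
  push_cast at h
  exact h

/-- Chunk E4 (S). -/
theorem vint (V : ValuationSubring k) (n : ℤ) : V.valuation (n : k) ≤ 1 := by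
  calc V.valuation (n : k) ≤ 1 := (V.valuation_le_one_iff _).2 (by
        have h : ((n : V) : k) = (n : k) := by simp
        rw [← h]
        exact (n : V).2)

/-- Chunk E4 (S/M). 4 (X^3 + A X + B) at X = e₀ + b₂/12, A = -c₄/48, B = -c₆/864, c₄ = b₂^2 - 24 b₄, c₆ = -b₂^3 + 36 b₂ b₄ - 216 b₆ (cast to k; push_cast). -/
theorem four_f (W : WeierstrassCurve ℤ) (e₀ : k) :
    4 * ((e₀ + (W.b₂ : k) / 12) ^ 3 + sA W k * (e₀ + (W.b₂ : k) / 12) + sB W k) =
      4 * e₀ ^ 3 + W.b₂ * e₀ ^ 2 + 2 * W.b₄ * e₀ + W.b₆ ∧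
    2 * (3 * (e₀ + (W.b₂ : k) / 12) ^ 2 + sA W k) = 6 * e₀ ^ 2 + W.b₂ * e₀ + W.b₄ := by
  rw [e4_c4, e4_c6]
  constructor
  · ring
  · ring

/-- Chunk E4 (S/M). By hA: with c₄ = b₂^2 - 24 b₄ for both equations (cast), lam^2 b₂' = b₂ + 12 ρ. -/
theorem rel4 (W W' : WeierstrassCurve ℤ) {t lam ρ : k} (hA : lam ^ 4 * sA W' k = sA W k - 5 * t)
    (hρ : ρ = lam ^ 2 * ((W'.b₂ : k) / 12) - (W.b₂ : k) / 12) :
    (W.b₄ - 10 * t) + W.b₂ * ρ + 6 * ρ ^ 2 = lam ^ 4 * W'.b₄ := by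
  rw [e4_c4, e4_c4] at hA
  have hb : lam ^ 2 * (W'.b₂ : k) = W.b₂ + 12 * ρ := by rw [hρ]; ring
  have hb2 : lam ^ 4 * (W'.b₂ : k) ^ 2 = ((W.b₂ : k) + 12 * ρ) ^ 2 := by rw [← hb]; ring
  linear_combination (-2 : k) * hA + (-1 / 24 : k) * hb2

/-- Chunk E4 (M). By four_f for W' at 0 : lam^6 b₆' = 4 ((lam^2 b₂'/12)^3 + lam^4 A'' (lam^2 b₂'/12) + lam^6 B''), and lam^2 b₂'/12 = ρ + b₂/12, lam^4 A'' = A - 5 t, lam^6 B'' = B - 7 (u + e t): expand (checked by computer with random numbers). -/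
theorem rel6 (W W' : WeierstrassCurve ℤ) {e t u lam ρ e₀ : k} (hA : lam ^ 4 * sA W' k = sA W k - 5 * t)
    (hB : lam ^ 6 * sB W' k = sB W k - 7 * (u + e * t)) (he : e₀ = e - (W.b₂ : k) / 12)
    (hρ : ρ = lam ^ 2 * ((W'.b₂ : k) / 12) - (W.b₂ : k) / 12) :
    4 * ρ ^ 3 + W.b₂ * ρ ^ 2 + (2 * W.b₄ - 20 * t) * ρ + (W.b₆ - 28 * (u + e₀ * t) - 4 * W.b₂ * t) = lam ^ 6 * W'.b₆ := by
  have h4 := rel4 W W' hA hρ
  rw [e4_c4] at hA
  rw [e4_c6, e4_c6] at hB
  have hb : lam ^ 2 * (W'.b₂ : k) = W.b₂ + 12 * ρ := by rw [hρ]; ring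
  have he' : e = e₀ + (W.b₂ : k) / 12 := by rw [he]; ring
  rw [he'] at hB
  have hb3 : lam ^ 6 * (W'.b₂ : k) ^ 3 = ((W.b₂ : k) + 12 * ρ) ^ 3 := by rw [← hb]; ring
  have hb4 : lam ^ 6 * ((W'.b₂ : k) * W'.b₄) = ((W.b₂ : k) + 12 * ρ) *
      ((W.b₄ - 10 * t) + W.b₂ * ρ + 6 * ρ ^ 2) := by rw [← hb, h4]; ring
  linear_combination (-4 : k) * hB + (1 / 216 : k) * hb3 + (-1 / 6 : k) * hb4

/-- Chunk E4 (M). 4 b₈ = b₂ b₆ - b₄^2 for both equations (WeierstrassCurve.b_relation, cast): four times the right side is (lam^2 b₂') (lam^6 b₆') - (lam^4 b₄')^2, use lam^2 b₂' = b₂ + 12 ρ, rel6, rel4; expand and divide by 4 (checked by computer). -/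
theorem rel8 (W W' : WeierstrassCurve ℤ) {e t u lam ρ e₀ : k} (hA : lam ^ 4 * sA W' k = sA W k - 5 * t)
    (hB : lam ^ 6 * sB W' k = sB W k - 7 * (u + e * t)) (he : e₀ = e - (W.b₂ : k) / 12)
    (hρ : ρ = lam ^ 2 * ((W'.b₂ : k) / 12) - (W.b₂ : k) / 12) :
    3 * ρ ^ 4 + W.b₂ * ρ ^ 3 + 3 * (W.b₄ - 10 * t) * ρ ^ 2 + 3 * (W.b₆ - 4 * W.b₂ * t - 28 * (u + e₀ * t)) * ρ +
      (W.b₈ - W.b₂ ^ 2 * t - 7 * W.b₂ * (u + e₀ * t) + 5 * W.b₄ * t - 25 * t ^ 2) = lam ^ 8 * W'.b₈ := by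
  have h4 := rel4 W W' hA hρ
  have h6 := rel6 W W' hA hB he hρ
  have hb : lam ^ 2 * (W'.b₂ : k) = W.b₂ + 12 * ρ := by rw [hρ]; ring
  have h8 := e4_b8 (k := k) W
  have h8' := e4_b8 (k := k) W'
  have h1 : 4 * (lam ^ 8 * (W'.b₈ : k)) = (lam ^ 2 * (W'.b₂ : k)) * (lam ^ 6 * W'.b₆) -
      (lam ^ 4 * (W'.b₄ : k)) ^ 2 := by
    linear_combination lam ^ 8 * h8'
  rw [hb, ← h6, ← h4] at h1
  have h4k : (4 : k) ≠ 0 := by norm_num
  apply mul_left_cancel₀ h4k
  rw [h1]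
  linear_combination h8

end H28I
end

-- from Lib.H28I.E5
section

/-! # H28I, part E: integrality -/

open NumberField IsDedekindDomain WeierstrassCurve

namespace H28I

open H55P (IQ embF eF LF Per IsHecke Pt ac Inert Dec Nm)
open H35P (WAB Ker tt GoodW IntW)
open H55K (xc yc)

variable {k : Type} [Field k] [CharZero k] {V : ValuationSubring k}

theorem e5_int (V : ValuationSubring k) (n : ℤ) : (n : k) ∈ V := (V.valuation_le_one_iff _).1 (vint V n)

theorem e5_nat (V : ValuationSubring k) (n : ℕ) : (n : k) ∈ V := by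
  have h := e5_int V (n : ℤ)
  rwa [Int.cast_natCast] at h

theorem e5_ofNat (V : ValuationSubring k) (n : ℕ) [n.AtLeastTwo] : (OfNat.ofNat n : k) ∈ V := by
  have h := e5_nat V (OfNat.ofNat n)
  rwa [Nat.cast_ofNat] at h

/-- a unit can be cancelled -/
theorem e5_cancel {V : ValuationSubring k} {a x : k} (ha : V.valuation a = 1) (h : a * x ∈ V) : x ∈ V := by
  have h0 : a ≠ 0 := by
    rintro rfl
    rw [map_zero] at ha
    exact zero_ne_one ha
  have h1 : a⁻¹ ∈ V := (V.valuation_le_one_iff _).1 (by rw [map_inv₀, ha, inv_one])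
  have h2 : x = a⁻¹ * (a * x) := by field_simp
  rw [h2]
  exact V.mul_mem _ _ h1 h

theorem e5_lam {V : ValuationSubring k} {lam : k} (h : V.valuation lam = 1) : lam ∈ V :=
  (V.valuation_le_one_iff _).1 h.le

theorem e5_lt_mul {V : ValuationSubring k} {a x : k} (ha : V.valuation a < 1) (hx : x ∈ V) :
    V.valuation (a * x) < 1 := by
  rw [map_mul]
  calc V.valuation a * V.valuation x ≤ V.valuation a * 1 :=
        mul_le_mul_right ((V.valuation_le_one_iff _).2 hx) _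
    _ < 1 := by rw [mul_one]; exact ha

/-- Chunk E5 (M). V(2) = 1 or V(3) = 1 (3 - 2 = 1). Suppose V(ρ) > 1. If V(2) = 1: rel6: 4 ρ^3 has the value V(ρ)^3, all the other terms have value ≤ V(ρ)^2: contradiction. If V(3) = 1: rel8: 3 ρ^4 has the value V(ρ)^4, the other terms have value ≤ V(ρ)^3. (All coefficients have value ≤ 1: vint, hlam, he0, ht, hu.) -/
theorem rho_int (W W' : WeierstrassCurve ℤ) {e t u lam : k} (hA : lam ^ 4 * sA W' k = sA W k - 5 * t)
    (hB : lam ^ 6 * sB W' k = sB W k - 7 * (u + e * t)) (hlam : V.valuation lam = 1)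
    (he0 : V.valuation (e - (W.b₂ : k) / 12) ≤ 1) (ht : V.valuation t ≤ 1) (hu : V.valuation u ≤ 1) :
    V.valuation (lam ^ 2 * ((W'.b₂ : k) / 12) - (W.b₂ : k) / 12) ≤ 1 := by
  set ρ := lam ^ 2 * ((W'.b₂ : k) / 12) - (W.b₂ : k) / 12 with hρ
  set e₀ := e - (W.b₂ : k) / 12 with he
  have h6 := rel6 W W' hA hB he hρ
  have h8 := rel8 W W' hA hB he hρ
  rw [V.valuation_le_one_iff] at he0 ht hu ⊢
  have hl := e5_lam hlam
  by_contra hcon
  have hρ0 : ρ ≠ 0 := by
    intro h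
    rw [h] at hcon
    exact hcon V.zero_mem
  have hs : ρ⁻¹ ∈ V := (V.mem_or_inv_mem ρ).resolve_left hcon
  have i2 := e5_int V W.b₂
  have i4 := e5_int V W.b₄
  have i6 := e5_int V W.b₆
  have i8 := e5_int V W.b₈
  have i6' := e5_int V W'.b₆
  have i8' := e5_int V W'.b₈
  have hor : V.valuation (2 : k) = 1 ∨ V.valuation (3 : k) = 1 := by
    by_contra h
    push Not at h
    have a2 : V.valuation (2 : k) < 1 := lt_of_le_of_ne ((V.valuation_le_one_iff _).2 (e5_ofNat V 2)) h.1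
    have a3 : V.valuation (3 : k) < 1 := lt_of_le_of_ne ((V.valuation_le_one_iff _).2 (e5_ofNat V 3)) h.2
    have a1 : V.valuation ((3 : k) - 2) < 1 := Valuation.map_sub_lt _ a3 a2
    have a0 : (3 : k) - 2 = 1 := by norm_num
    rw [a0, map_one] at a1
    exact lt_irrefl _ a1
  rcases hor with h2 | h3
  · have h4 : V.valuation (4 : k) = 1 := by
      have : (4 : k) = 2 * 2 := by norm_num
      rw [this, map_mul, h2, one_mul]
    refine hcon (e5_cancel h4 ?_)
    have e1 : 4 * ρ = lam ^ 6 * W'.b₆ * ρ⁻¹ ^ 2 - (W.b₂ + (2 * W.b₄ - 20 * t) * ρ⁻¹ +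
        (W.b₆ - 28 * (u + e₀ * t) - 4 * W.b₂ * t) * ρ⁻¹ ^ 2) := by
      rw [← h6]
      field_simp
      ring
    rw [e1]
    have n2 := e5_ofNat V 2
    have n20 := e5_ofNat V 20
    have n28 := e5_ofNat V 28
    have n4 := e5_ofNat V 4
    exact sub_mem (mul_mem (mul_mem (pow_mem hl 6) i6') (pow_mem hs 2))
      (add_mem (add_mem i2 (mul_mem (sub_mem (mul_mem n2 i4) (mul_mem n20 ht)) hs))
        (mul_mem (sub_mem (sub_mem i6 (mul_mem n28 (add_mem hu (mul_mem he0 ht))))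
          (mul_mem (mul_mem n4 i2) ht)) (pow_mem hs 2)))
  · refine hcon (e5_cancel h3 ?_)
    have e1 : 3 * ρ = lam ^ 8 * W'.b₈ * ρ⁻¹ ^ 3 - (W.b₂ + 3 * (W.b₄ - 10 * t) * ρ⁻¹ +
        3 * (W.b₆ - 4 * W.b₂ * t - 28 * (u + e₀ * t)) * ρ⁻¹ ^ 2 +
        (W.b₈ - W.b₂ ^ 2 * t - 7 * W.b₂ * (u + e₀ * t) + 5 * W.b₄ * t - 25 * t ^ 2) * ρ⁻¹ ^ 3) := by
      rw [← h8]
      field_simp
      ring
    rw [e1]
    have n3 := e5_ofNat V 3
    have n10 := e5_ofNat V 10
    have n28 := e5_ofNat V 28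
    have n4 := e5_ofNat V 4
    have n7 := e5_ofNat V 7
    have n5 := e5_ofNat V 5
    have n25 := e5_ofNat V 25
    have hue := add_mem hu (mul_mem he0 ht)
    exact sub_mem (mul_mem (mul_mem (pow_mem hl 8) i8') (pow_mem hs 3))
      (add_mem (add_mem (add_mem i2 (mul_mem (mul_mem n3 (sub_mem i4 (mul_mem n10 ht))) hs))
        (mul_mem (mul_mem n3 (sub_mem (sub_mem i6 (mul_mem (mul_mem n4 i2) ht)) (mul_mem n28 hue)))
          (pow_mem hs 2)))
        (mul_mem (sub_mem (add_mem (sub_mem (sub_mem i8 (mul_mem (pow_mem i2 2) ht))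
          (mul_mem (mul_mem n7 i2) hue)) (mul_mem (mul_mem n5 i4) ht))
          (mul_mem n25 (pow_mem ht 2))) (pow_mem hs 3)))

/-- Chunk E5 (S/M). four_f with e₀ = e - b₂/12. First case: 2 t = 6 e₀^2 + b₂ e₀ + b₄, so t has value ≤ 1 if V(2) = 1. Second case: t = 6 e₀^2 + b₂ e₀ + b₄, u = 4 e₀^3 + b₂ e₀^2 + 2 b₄ e₀ + b₆. -/
theorem tu_int (W : WeierstrassCurve ℤ) {A' B' e t u : k} (h : VI (sA W k) (sB W k) A' B' e t u)
    (he0 : V.valuation (e - (W.b₂ : k) / 12) ≤ 1) (h2 : u = 0 → V.valuation (2 : k) = 1 ∨ V.valuation t ≤ 1) :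
    V.valuation t ≤ 1 ∧ V.valuation u ≤ 1 := by
  rw [V.valuation_le_one_iff] at he0 ⊢
  rw [V.valuation_le_one_iff]
  obtain ⟨f1, f2⟩ := four_f W (e - (W.b₂ : k) / 12)
  have he : e - (W.b₂ : k) / 12 + (W.b₂ : k) / 12 = e := by ring
  rw [he] at f1 f2
  have i2 := e5_int V W.b₂
  have i4 := e5_int V W.b₄
  have i6 := e5_int V W.b₆
  have n2 := e5_ofNat V 2
  have n4 := e5_ofNat V 4
  have n6 := e5_ofNat V 6
  have ht2 : 2 * (3 * e ^ 2 + sA W k) ∈ V := by
    rw [f2]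
    exact add_mem (add_mem (mul_mem n6 (pow_mem he0 2)) (mul_mem i2 he0)) i4
  rcases h.cs with ⟨c1, -, c3⟩ | ⟨c1, c2, -⟩
  · refine ⟨?_, by rw [c1]; exact V.zero_mem⟩
    rcases h2 c1 with a | a
    · rw [← c3] at ht2
      exact e5_cancel a ht2
    · exact (V.valuation_le_one_iff _).1 a
  · refine ⟨by rw [c1]; exact ht2, ?_⟩
    rw [c2, f1]
    exact add_mem (add_mem (add_mem (mul_mem n4 (pow_mem he0 3)) (mul_mem i2 (pow_mem he0 2)))
      (mul_mem (mul_mem n2 i4) he0)) i6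

/-- Chunk E5 (M). The ordinary case at 2. Let e₀ = e - b₂/12 and suppose V(e₀) > 1. four_f: 4 e₀^3 + b₂ e₀^2 + 2 b₄ e₀ + b₆ = 0 and 2 t = 6 e₀^2 + b₂ e₀ + b₄. In the first equation V(b₂ e₀^2) = V(e₀)^2 is larger than V(2 b₄ e₀) and V(b₆), so V(4 e₀^3) = V(e₀)^2, V(4 e₀) = 1. In the second: V(6 e₀^2) = V(2) V(e₀)^2 (V(3) = 1 because V(2) < 1), V(b₂ e₀) = V(e₀), V(b₄) ≤ 1 < V(e₀);
V(2) V(e₀) > 1 because V(4) V(e₀) = 1 and V(2) < 1 (V(4) < V(2)), so V(6 e₀^2) > V(e₀) and V(2 t) = V(2) V(e₀)^2, V(t) = V(e₀)^2 > 1: contradiction. -/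
theorem e0_ord (W : WeierstrassCurve ℤ) {e t : k} (h1 : e ^ 3 + sA W k * e + sB W k = 0) (h2 : t = 3 * e ^ 2 + sA W k)
    (hV2 : V.valuation (2 : k) < 1) (hb : V.valuation (W.b₂ : k) = 1) (ht : V.valuation t ≤ 1) :
    V.valuation (e - (W.b₂ : k) / 12) ≤ 1 := by
  rw [V.valuation_le_one_iff] at ht ⊢
  obtain ⟨f1, f2⟩ := four_f W (e - (W.b₂ : k) / 12)
  have he : e - (W.b₂ : k) / 12 + (W.b₂ : k) / 12 = e := by ring
  rw [he] at f1 f2
  rw [h1, mul_zero] at f1
  rw [← h2] at f2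
  set e₀ := e - (W.b₂ : k) / 12 with he0
  by_contra hcon
  have h0 : e₀ ≠ 0 := by
    intro h
    rw [h] at hcon
    exact hcon V.zero_mem
  have hs : e₀⁻¹ ∈ V := (V.mem_or_inv_mem e₀).resolve_left hcon
  have hs1 : V.valuation e₀⁻¹ < 1 := by
    refine lt_of_le_of_ne ((V.valuation_le_one_iff _).2 hs) fun h => hcon ?_
    rw [map_inv₀] at h
    exact (V.valuation_le_one_iff _).1 (inv_injective (h.trans inv_one.symm)).le
  have i2 := e5_int V W.b₂
  have i4 := e5_int V W.b₄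
  have i6 := e5_int V W.b₆
  have n2 := e5_ofNat V 2
  have a3 : V.valuation (3 : k) = 1 := by
    have h : (3 : k) = 1 + 2 := by norm_num
    rw [h]
    rw [Valuation.map_add_eq_of_lt_left _ (by rw [map_one]; exact hV2), map_one]
  have e1 : 3 * (W.b₂ + e₀⁻¹ * (2 * W.b₄ + W.b₆ * e₀⁻¹)) = 2 * (W.b₂ + W.b₄ * e₀⁻¹ - 2 * (t * e₀⁻¹)) := by
    field_simp
    linear_combination (-3 : k) * f1 + (2 * e₀ : k) * f2
  have b1 : V.valuation (3 * (W.b₂ + e₀⁻¹ * (2 * W.b₄ + W.b₆ * e₀⁻¹)) : k) = 1 := by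
    rw [map_mul, a3, one_mul]
    have b2 : V.valuation (e₀⁻¹ * (2 * W.b₄ + W.b₆ * e₀⁻¹) : k) < V.valuation (W.b₂ : k) := by
      rw [hb]
      exact e5_lt_mul hs1 (add_mem (mul_mem n2 i4) (mul_mem i6 hs))
    rw [Valuation.map_add_eq_of_lt_left _ b2, hb]
  have b3 : V.valuation (2 * (W.b₂ + W.b₄ * e₀⁻¹ - 2 * (t * e₀⁻¹)) : k) < 1 :=
    e5_lt_mul hV2 (sub_mem (add_mem i2 (mul_mem i4 hs)) (mul_mem n2 (mul_mem ht hs)))
  rw [← e1, b1] at b3
  exact lt_irrefl _ b3

end H28I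
end

-- from Lib.H28T.A3
section

open NumberField IsDedekindDomain

namespace H28T

open H28R
open H55P H55R

variable {F : Type} [Field F] [NumberField F] {G : HeightOneSpectrum (𝓞 F) → Prop}

/-! Chunk A3 (S/M): subfields of the fields generated by roots of unity. exp_ram: let W be a prime of N above w (under_exists); the ramification index over (𝓞 F) of W is the product of that of w and that of W over 𝓞 K (Ideal.ramificationIdx_tower; all ideals nonzero), so by mu_unr (W contains m iff w contains m) the index of w is 1.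
exp_ext: N/F is Galois with commutative group (mu_gal), so K/F is Galois (IsAbelianGalois.tower_bot, see H13E.sub_mod in H13E/X4.lean). If w is a prime of K over v and v is not good, then m is not in w: v contains a prime number l; if m is in w then m is in v, so a prime divisor l' of m is in v (v prime), GoodL p l' gives G v: contradiction. -/

theorem exp_ram {K N : Type} [Field K] [NumberField K] [Field N] [NumberField N] [Algebra F K]
    [Algebra F N] [Algebra K N] [IsScalarTower F K N] {m : ℕ} (hm : m ≠ 0) {S : Set N}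
    (hS : ∀ s ∈ S, s ^ m = 1) (hgen : Algebra.adjoin F S = ⊤) (w : HeightOneSpectrum (𝓞 K))
    (hw : (m : 𝓞 K) ∉ w.asIdeal) : w.asIdeal.ramificationIdx (𝓞 F) = 1 := by
  obtain ⟨W, hW⟩ := under_exists (K := K) (L := N) w
  have hW' : W.asIdeal.under (𝓞 K) = w.asIdeal := congrArg HeightOneSpectrum.asIdeal hW
  have hwp := w.isPrime
  have hWp := W.isPrime
  have hl : W.asIdeal.LiesOver w.asIdeal := ⟨hW'.symm⟩
  have hmW : (m : 𝓞 N) ∉ W.asIdeal := by
    intro h
    apply hw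
    rw [← hW', Ideal.mem_under, map_natCast]
    exact h
  have h1 := mu_unr hm hS hgen W hmW
  rw [Ideal.ramificationIdx_tower (R := (𝓞 F)) (S := 𝓞 K) w.asIdeal W.asIdeal] at h1
  exact Nat.eq_one_of_mul_eq_one_right h1

/-- A prime ideal which contains the natural number m contains a prime factor of m. -/
theorem mem_factor {K : Type} [Field K] [NumberField K] (w : HeightOneSpectrum (𝓞 K)) {m : ℕ}
    (hm : m ≠ 0) (hw : (m : 𝓞 K) ∈ w.asIdeal) :
    ∃ l : ℕ, l.Prime ∧ l ∣ m ∧ (l : 𝓞 K) ∈ w.asIdeal ∧ l ≤ Ideal.absNorm w.asIdeal := by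
  have hwp := w.isPrime
  have hone : (1 : 𝓞 K) ∉ w.asIdeal := fun h => hwp.ne_top ((Ideal.eq_top_iff_one _).2 h)
  have key : ∀ n : ℕ, n ≠ 0 → (n : 𝓞 K) ∈ w.asIdeal →
      ∃ l : ℕ, l.Prime ∧ l ∣ n ∧ (l : 𝓞 K) ∈ w.asIdeal := by
    intro n
    induction n using Nat.strong_induction_on with
    | _ n ih =>
      intro hn hnw
      have h1 : n ≠ 1 := by
        rintro rfl
        rw [Nat.cast_one] at hnw
        exact hone hnw
      obtain ⟨k, hk⟩ := Nat.minFac_dvd n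
      have hp := Nat.minFac_prime h1
      have hnw' : ((n.minFac * k : ℕ) : 𝓞 K) ∈ w.asIdeal := by rw [← hk]; exact hnw
      rw [Nat.cast_mul] at hnw'
      rcases hwp.mem_or_mem hnw' with h2 | h2
      · exact ⟨n.minFac, hp, Nat.minFac_dvd n, h2⟩
      · have hk0 : k ≠ 0 := by
          rintro rfl
          rw [mul_zero] at hk
          exact hn hk
        have hkn : k < n := by
          have h3 := hp.two_le
          have h4 : 0 < k := Nat.pos_of_ne_zero hk0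
          have h5 : 2 * k ≤ n.minFac * k := Nat.mul_le_mul_right k h3
          omega
        obtain ⟨l, hl1, hl2, hl3⟩ := ih k hkn hk0 h2
        exact ⟨l, hl1, hl2.trans (Dvd.intro_left _ hk.symm), hl3⟩
  obtain ⟨l, hl1, hl2, hl3⟩ := key m hm hw
  refine ⟨l, hl1, hl2, hl3, ?_⟩
  have hN0 : Ideal.absNorm w.asIdeal ≠ 0 := by
    rw [Ne, Ideal.absNorm_eq_zero_iff]
    exact w.ne_bot
  refine Nat.le_of_dvd (Nat.pos_of_ne_zero hN0) ?_
  by_contra hnd
  have hcop : Nat.Coprime l (Ideal.absNorm w.asIdeal) := (Nat.Prime.coprime_iff_not_dvd hl1).2 hnd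
  have h1 : IsCoprime (l : ℤ) (Ideal.absNorm w.asIdeal : ℤ) := Nat.isCoprime_iff_coprime.2 hcop
  obtain ⟨a, b, hab⟩ := h1
  apply hone
  have h2 := congrArg (Int.cast : ℤ → 𝓞 K) hab
  push_cast at h2
  rw [← h2]
  exact w.asIdeal.add_mem (w.asIdeal.mul_mem_left _ hl3)
    (w.asIdeal.mul_mem_left _ (Ideal.absNorm_mem w.asIdeal))

theorem exp_ext {p : ℕ} {K : Type} [Field K] [NumberField K] [Algebra F K] (h : ExplicitG G K)
    (hk : ∃ k : ℕ, Module.finrank F K = p ^ k) : ExtG G p K := by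
  obtain ⟨N, _, _, _, _, _, m, S, hm, hgood, hS, hgen⟩ := h
  obtain ⟨hG, hc⟩ := mu_gal hm hS hgen
  have hN : IsAbelianGalois F N := { toIsGalois := hG, is_comm := ⟨hc⟩ }
  have hK : IsAbelianGalois F K := IsAbelianGalois.tower_bot F K N
  refine ⟨inferInstance, hk, ?_⟩
  intro W v hv hng
  apply exp_ram (N := N) hm hS hgen
  intro hmW
  apply hng
  have h1 : (m : (𝓞 F)) ∈ v.asIdeal := by
    rw [hv, Ideal.mem_under, map_natCast]
    exact hmW
  obtain ⟨l, hl1, hl2, hl3, -⟩ := mem_factor v hm h1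
  exact hgood l hl1 hl2 v hl3

end H28T
end

-- from Lib.H13D.R1
section

/-! # H13D, part R: the primes ramified in F: an automorphism of order two -/

open NumberField IsDedekindDomain WeierstrassCurve

namespace H13D

open H55P (IQ embF eF LF Per IsHecke Pt ac Inert Dec Nm)
open H35P (WAB Ker tt GoodW IntW)
open H55K

variable {F : Type} [Field F] [NumberField F] [IQ F] {A B : F} {Ω : Type} [Field Ω] [DecidableEq Ω]
  [Algebra F Ω] {V : ValuationSubring Ω} {Kg : AddSubgroup (Pt (WAB A B) Ω)} {u r : Ω}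

/-- Chunk R1 (S). xn (tP) - xn (tP') = (t (xc P) - t (xc P'))/u^2 = (t u/u)^2 t (xn P - xn P') (xc_acr, xn_sub); z = xn P - xn P' is in V (hR.int), V(t z - z) < 1, V((t u/u)^2) ≤ 1. -/
theorem xn_acr_sub (hR : RM A B V Kg u r) (t : Ω ≃+* Ω) (hA : t (algebraMap F Ω A) = algebraMap F Ω A)
    (hB : t (algebraMap F Ω B) = algebraMap F Ω B) (ht : ∀ x ∈ V, V.valuation (t x - x) < 1) (hu : V.valuation (t u / u) ≤ 1)
    {P P' : Pt (WAB A B) Ω} (hP : P ∉ Kg) (hP' : P' ∉ Kg) :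
    V.valuation (xn u r (acr t hA hB P) - xn u r (acr t hA hB P') - (t u / u) ^ 2 * (xn u r P - xn u r P')) < 1 := by
  have hu0 := hR.une
  set z := xn u r P - xn u r P' with hz
  have hzV : z ∈ V := by
    rw [← V.valuation_le_one_iff]
    exact (V.valuation.map_sub _ _).trans (max_le (hR.int P hP) (hR.int P' hP'))
  have h1 : xn u r (acr t hA hB P) - xn u r (acr t hA hB P') = (t u / u) ^ 2 * t z := by
    have h2 : xc P - xc P' = u ^ 2 * z := by
      rw [hz]
      unfold xn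
      field_simp
      ring
    have h3 : t (xc P) - t (xc P') = t u ^ 2 * t z := by
      rw [← map_sub, h2, map_mul, map_pow]
    unfold xn
    rw [xc_acr, xc_acr]
    field_simp
    linear_combination h3
  have h4 : xn u r (acr t hA hB P) - xn u r (acr t hA hB P') - (t u / u) ^ 2 * z = (t u / u) ^ 2 * (t z - z) := by
    rw [h1]
    ring
  rw [h4, map_mul, map_pow]
  calc V.valuation (t u / u) ^ 2 * V.valuation (t z - z) ≤ 1 * V.valuation (t z - z) :=
        mul_le_mul_left (pow_le_one' hu 2) _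
    _ = V.valuation (t z - z) := one_mul _
    _ < 1 := ht z hzV

/-- Chunk R1 (M). Write tP = acr t P, T = the points killed by l; t maps T to T; the nonzero points of T are not in Kg (hR.tors). Suppose tQ₁ ≠ -Q₁ and tQ₂ ≠ Q₂ for some Q₁, Q₂ in T (otherwise done). P₁ = Q₁ + tQ₁ ≠ 0, tP₁ = P₁; P₂ = Q₂ - tQ₂ ≠ 0, tP₂ = -P₂ (hinv). P₁ ≠ ±P₂ (else tP₁ = -P₁, 2 P₁ = 0, P₁ = 0: l odd), so V(xn P₁ - xn P₂) = 1 (hR.diff).
xn (tP₁) = xn P₁, xn (tP₂) = xn (-P₂) = xn P₂ (xc (-P) = xc P), so by xn_acr_sub V(((t u/u)^2 - 1) (xn P₁ - xn P₂)) < 1: V((t u/u)^2 - 1) < 1. For R ≠ 0 in T: xn_acr_sub for R and P₁: xn (tR) - xn P₁ is congruent to xn R - xn P₁, so V(xn (tR) - xn R) < 1, cls_of: tR - R or tR + R in Kg, it is in T, so it is 0 (hR.tors). So tR = R or tR = -R for every R in T;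
H55K.two_sub (G8B.lean) for the group T (AddMonoidHom.ker or a subgroup type; K = bottom), f = t, g = the identity; or directly: if tR = R ≠ -R and tR' = -R' ≠ R' then t(R + R') is neither R + R' nor -(R + R'). -/
theorem inv_pm (hR : RM A B V Kg u r) {l : ℕ} (hl : l.Prime) (h2 : l ≠ 2) (hlV : V.valuation (l : Ω) = 1) (t : Ω ≃+* Ω)
    (hA : t (algebraMap F Ω A) = algebraMap F Ω A) (hB : t (algebraMap F Ω B) = algebraMap F Ω B)
    (ht : ∀ x ∈ V, V.valuation (t x - x) < 1) (hu : V.valuation (t u / u) ≤ 1)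
    (hinv : ∀ P : Pt (WAB A B) Ω, l • P = 0 → acr t hA hB (acr t hA hB P) = P) :
    (∀ P : Pt (WAB A B) Ω, l • P = 0 → acr t hA hB P = P) ∨ ∀ P : Pt (WAB A B) Ω, l • P = 0 → acr t hA hB P = -P := by
  by_contra hc
  push Not at hc
  obtain ⟨⟨Q₂, hQ₂, hne₂⟩, Q₁, hQ₁, hne₁⟩ := hc
  -- the odd prime
  have hodd : ∀ P : Pt (WAB A B) Ω, l • P = 0 → P + P = 0 → P = 0 := by
    intro P h1 h3
    have h4 : (addOrderOf P) ∣ l := addOrderOf_dvd_of_nsmul_eq_zero h1
    have h5 : (addOrderOf P) ∣ 2 := addOrderOf_dvd_of_nsmul_eq_zero (by rw [two_nsmul]; exact h3)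
    have h6 : Nat.Coprime l 2 := (Nat.coprime_primes hl Nat.prime_two).2 h2
    have h7 := Nat.dvd_gcd h4 h5
    rw [Nat.Coprime.gcd_eq_one h6] at h7
    exact AddMonoid.addOrderOf_eq_one_iff.1 (Nat.dvd_one.1 h7)
  have hK : ∀ P : Pt (WAB A B) Ω, l • P = 0 → P ∈ Kg → P = 0 := fun P h1 h3 => hR.tors l hlV P h3 h1
  have hTt : ∀ P : Pt (WAB A B) Ω, l • P = 0 → l • (acr t hA hB P) = 0 := by
    intro P h1
    rw [← map_nsmul, h1, map_zero]
  have hTa : ∀ P Q : Pt (WAB A B) Ω, l • P = 0 → l • Q = 0 → l • (P + Q) = 0 := by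
    intro P Q h1 h3
    rw [smul_add, h1, h3, add_zero]
  have hTs : ∀ P Q : Pt (WAB A B) Ω, l • P = 0 → l • Q = 0 → l • (P - Q) = 0 := by
    intro P Q h1 h3
    rw [smul_sub, h1, h3, sub_zero]
  have hxn : ∀ P : Pt (WAB A B) Ω, xn u r (-P) = xn u r P := by
    intro P
    unfold xn
    rw [xc_neg]
  set P₁ := Q₁ + acr t hA hB Q₁ with hP₁
  set P₂ := Q₂ - acr t hA hB Q₂ with hP₂
  have hP₁0 : P₁ ≠ 0 := by
    intro h
    exact hne₁ (eq_neg_of_add_eq_zero_right h)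
  have hP₂0 : P₂ ≠ 0 := by
    intro h
    exact hne₂ (sub_eq_zero.1 h).symm
  have hl₁ : l • P₁ = 0 := hTa _ _ hQ₁ (hTt _ hQ₁)
  have hl₂ : l • P₂ = 0 := hTs _ _ hQ₂ (hTt _ hQ₂)
  have ht₁ : acr t hA hB P₁ = P₁ := by
    rw [hP₁, map_add, hinv _ hQ₁, add_comm]
  have ht₂ : acr t hA hB P₂ = -P₂ := by
    rw [hP₂, map_sub, hinv _ hQ₂, neg_sub]
  have hn₁ : P₁ ∉ Kg := fun h => hP₁0 (hK _ hl₁ h)
  have hn₂ : P₂ ∉ Kg := fun h => hP₂0 (hK _ hl₂ h)
  have hnm : P₁ - P₂ ∉ Kg := by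
    intro h
    have h3 := sub_eq_zero.1 (hK _ (hTs _ _ hl₁ hl₂) h)
    apply hP₁0
    apply hodd _ hl₁
    nth_rewrite 1 [h3]
    rw [← ht₁, h3, ht₂, add_neg_cancel]
  have hnp : P₁ + P₂ ∉ Kg := by
    intro h
    have h3 : P₁ = -P₂ := eq_neg_of_add_eq_zero_left (hK _ (hTa _ _ hl₁ hl₂) h)
    apply hP₂0
    apply hodd _ hl₂
    have h4 : P₂ = -P₁ := by rw [h3, neg_neg]
    have h5 : acr t hA hB P₂ = -P₁ := by rw [h4, map_neg, ht₁]
    rw [ht₂, neg_inj] at h5
    nth_rewrite 1 [h5]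
    rw [h3, neg_add_cancel]
  have hd := hR.diff P₁ P₂ hn₁ hn₂ hnm hnp
  set c := (t u / u) ^ 2 with hc
  have h3 := xn_acr_sub hR t hA hB ht hu hn₁ hn₂
  rw [ht₁, ht₂, hxn, ← hc] at h3
  have h4 : V.valuation (1 - c) < 1 := by
    have h5 : xn u r P₁ - xn u r P₂ - c * (xn u r P₁ - xn u r P₂) = (1 - c) * (xn u r P₁ - xn u r P₂) := by ring
    rw [h5, map_mul, hd, mul_one] at h3
    exact h3
  have hall : ∀ R : Pt (WAB A B) Ω, l • R = 0 → acr t hA hB R = R ∨ acr t hA hB R = -R := by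
    intro R hlR
    by_cases hR0 : R = 0
    · left
      rw [hR0, map_zero]
    have hnR : R ∉ Kg := fun h => hR0 (hK _ hlR h)
    have hntR : acr t hA hB R ∉ Kg := fun h => hR0 ((acr_zero_iff t hA hB R).1 (hK _ (hTt _ hlR) h))
    have h5 := xn_acr_sub hR t hA hB ht hu hnR hn₁
    rw [ht₁, ← hc] at h5
    have h6 : V.valuation (xn u r R - xn u r P₁) ≤ 1 :=
      (V.valuation.map_sub _ _).trans (max_le (hR.int R hnR) (hR.int P₁ hn₁))
    have h7 : V.valuation ((1 - c) * (xn u r R - xn u r P₁)) < 1 := by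
      rw [map_mul]
      calc V.valuation (1 - c) * V.valuation (xn u r R - xn u r P₁) ≤ V.valuation (1 - c) * 1 :=
            mul_le_mul_right h6 _
        _ = V.valuation (1 - c) := mul_one _
        _ < 1 := h4
    have h8 : V.valuation (xn u r (acr t hA hB R) - xn u r R) < 1 := by
      have h9 : xn u r (acr t hA hB R) - xn u r R =
          (xn u r (acr t hA hB R) - xn u r P₁ - c * (xn u r R - xn u r P₁)) -
            (1 - c) * (xn u r R - xn u r P₁) := by ring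
      rw [h9]
      exact lt_of_le_of_lt (V.valuation.map_sub _ _) (max_lt h5 h7)
    rcases cls_of hR hntR hnR h8 with h10 | h10
    · left
      exact sub_eq_zero.1 (hK _ (hTs _ _ (hTt _ hlR) hlR) h10)
    · right
      exact eq_neg_of_add_eq_zero_left (hK _ (hTa _ _ (hTt _ hlR) hlR) h10)
  have e₂ := (hall Q₂ hQ₂).resolve_left hne₂
  have e₁ := (hall Q₁ hQ₁).resolve_right hne₁
  rcases hall (Q₁ + Q₂) (hTa _ _ hQ₁ hQ₂) with h5 | h5
  · rw [map_add, e₁, e₂] at h5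
    have h6 : -Q₂ = Q₂ := add_left_cancel h5
    have h7 : Q₂ = 0 := hodd _ hQ₂ (by nth_rewrite 1 [← h6]; exact neg_add_cancel _)
    apply hne₂
    rw [h7, map_zero]
  · rw [map_add, e₁, e₂, neg_add] at h5
    have h6 : Q₁ = -Q₁ := add_right_cancel h5
    have h7 : Q₁ = 0 := hodd _ hQ₁ (by nth_rewrite 1 [h6]; exact neg_add_cancel _)
    apply hne₁
    rw [h7, map_zero, neg_zero]

end H13D
end

-- from Lib.H13D.R2
section

/-! # H13D, part R: a good model over F -/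

open NumberField IsDedekindDomain WeierstrassCurve

namespace H13D

open H55P (IQ embF eF LF Per IsHecke Pt ac Inert Dec Nm)
open H35P (WAB Ker tt GoodW IntW)
open H55K
open H55K.MG (VC Crd)

theorem r2_vc1 {F : Type} [Field F] [NumberField F] {A B : F} (W₀ : WeierstrassCurve (𝓞 F))
    (hA : A = -(algebraMap (𝓞 F) F W₀.c₄) / 48) (hB : B = -(algebraMap (𝓞 F) F W₀.c₆) / 864) :
    VC (WAB A B) (W₀⁄F) 1 (algebraMap (𝓞 F) F W₀.b₂ / 12) (algebraMap (𝓞 F) F W₀.a₁ / 2) (algebraMap (𝓞 F) F W₀.a₃ / 2) := by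
  set w : 𝓞 F →+* F := algebraMap (𝓞 F) F with hw
  have k1 : (1 : F) * (w W₀.a₁) = (WAB A B).a₁ + 2 * (w W₀.a₁ / 2) := by
    simp only [WAB]
    ring
  have k2 : (1 : F) ^ 2 * (w W₀.a₂) = (WAB A B).a₂ - (w W₀.a₁ / 2) * (WAB A B).a₁ + 3 * (w W₀.b₂ / 12) - (w W₀.a₁ / 2) ^ 2 := by
    simp only [WAB, WeierstrassCurve.b₂, map_add, map_mul, map_pow, map_ofNat]
    ring
  have k3 : (1 : F) ^ 3 * (w W₀.a₃) = (WAB A B).a₃ + (w W₀.b₂ / 12) * (WAB A B).a₁ + 2 * (w W₀.a₃ / 2) := by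
    simp only [WAB]
    ring
  have k4 : (1 : F) ^ 4 * (w W₀.a₄) = (WAB A B).a₄ - (w W₀.a₁ / 2) * (WAB A B).a₃ + 2 * (w W₀.b₂ / 12) * (WAB A B).a₂ -
      (w W₀.a₃ / 2 + (w W₀.b₂ / 12) * (w W₀.a₁ / 2)) * (WAB A B).a₁ + 3 * (w W₀.b₂ / 12) ^ 2 - 2 * (w W₀.a₁ / 2) * (w W₀.a₃ / 2) := by
    simp only [WAB, WeierstrassCurve.b₂, hA, WeierstrassCurve.c₄, WeierstrassCurve.b₄, map_add, map_sub, map_mul, map_pow, map_ofNat]
    ring
  have k6 : (1 : F) ^ 6 * (w W₀.a₆) = (WAB A B).a₆ + (w W₀.b₂ / 12) * (WAB A B).a₄ + (w W₀.b₂ / 12) ^ 2 * (WAB A B).a₂ + (w W₀.b₂ / 12) ^ 3 -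
      (w W₀.a₃ / 2) * (WAB A B).a₃ - (w W₀.a₃ / 2) ^ 2 - (w W₀.b₂ / 12) * (w W₀.a₃ / 2) * (WAB A B).a₁ := by
    simp only [WAB, WeierstrassCurve.b₂, hA, hB, WeierstrassCurve.c₄, WeierstrassCurve.b₄, WeierstrassCurve.c₆, WeierstrassCurve.b₆, map_neg, map_add, map_sub, map_mul, map_pow, map_ofNat]
    ring
  exact ⟨one_ne_zero, k1, k2, k3, k4, k6⟩

theorem r2_vc2 {k : Type} [Field k] (W : WeierstrassCurve k) (C : VariableChange k) : VC W (C • W) (C.u : k) C.r C.s C.t := by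
  have hu : (C.u : k) ≠ 0 := C.u.ne_zero
  have hi : (C.u : k) * ((C.u⁻¹ : kˣ) : k) = 1 := C.u.mul_inv
  refine ⟨hu, ?_, ?_, ?_, ?_, ?_⟩
  · rw [variableChange_a₁]
    linear_combination (W.a₁ + 2 * C.s) * hi
  · rw [variableChange_a₂, ← mul_assoc, ← mul_pow, hi, one_pow, one_mul]
  · rw [variableChange_a₃, ← mul_assoc, ← mul_pow, hi, one_pow, one_mul]
  · rw [variableChange_a₄, ← mul_assoc, ← mul_pow, hi, one_pow, one_mul]
  · rw [variableChange_a₆, ← mul_assoc, ← mul_pow, hi, one_pow, one_mul]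

theorem r2_trans {k : Type} [Field k] {W W' W'' : WeierstrassCurve k} {r s t u' r' s' t' : k} (h : VC W W' 1 r s t)
    (h' : VC W' W'' u' r' s' t') : VC W W'' u' (r' + r) (s' + s) (t' + s * r' + t) := by
  obtain ⟨-, a1, a2, a3, a4, a6⟩ := h
  obtain ⟨hu, b1, b2, b3, b4, b6⟩ := h'
  rw [one_mul] at a1
  rw [one_pow, one_mul] at a2 a3 a4 a6
  rw [a1, a2, a3, a4, a6] at *
  refine ⟨hu, ?_, ?_, ?_, ?_, ?_⟩
  · linear_combination b1
  · linear_combination b2
  · linear_combination b3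
  · linear_combination b4
  · linear_combination b6

theorem r2_map {F : Type} [Field F] {Ω : Type} [Field Ω] [Algebra F Ω] {W W' : WeierstrassCurve F} {u r s t : F} (h : VC W W' u r s t) :
    VC (W⁄Ω) (W'⁄Ω) (algebraMap F Ω u) (algebraMap F Ω r) (algebraMap F Ω s) (algebraMap F Ω t) := by
  obtain ⟨hu, k1, k2, k3, k4, k6⟩ := h
  have j1 := congrArg (algebraMap F Ω) k1
  have j2 := congrArg (algebraMap F Ω) k2
  have j3 := congrArg (algebraMap F Ω) k3
  have j4 := congrArg (algebraMap F Ω) k4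
  have j6 := congrArg (algebraMap F Ω) k6
  simp only [map_add, map_sub, map_mul, map_pow, map_ofNat] at j1 j2 j3 j4 j6
  exact ⟨(map_ne_zero _).2 hu, j1, j2, j3, j4, j6⟩

/-- Chunk R2 (M). h: C over F with C • (W₀⁄F) integral at v and discriminant of value 1; W' = C • (W₀⁄F), GoodW (W'⁄Ω) V (hV : V(x) ≤ 1 iff v(x) ≤ 1, Abw.eq_one). VC ((WAB A B)⁄Ω) (W'⁄Ω) u r s t with the images of u = C.u, r = C.r + ρ, s = C.s + α, t = C.t + C.r α + τ, where ρ = b₂/12, α = a₁/2, τ = a₃/2 (coefficients of W₀⁄F):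
composition of the change of variables of exists_model (B3.lean, H55K.TQ.rf_fix: k1 .. k6) with C (variableChange_a₁, ..; VariableChange.mul_def); check the five equations by field_simp, ring or linear_combination. MG.vc_iso (the discriminants are not 0): Θ; MG.kg_ex: Kg; rm_of. The last statement: H55K.TQ.inert_triv (T1.lean) with M = Set.range (algebraMap F Ω), which g fixes. -/
theorem exists_rm_F {F : Type} [Field F] [NumberField F] {A B : F} {Ω : Type} [Field Ω] [DecidableEq Ω] [Algebra F Ω]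
    (W₀ : WeierstrassCurve (𝓞 F)) (hA : A = -(algebraMap (𝓞 F) F W₀.c₄) / 48) (hB : B = -(algebraMap (𝓞 F) F W₀.c₆) / 864)
    (hΔ : W₀.Δ ≠ 0) (v : HeightOneSpectrum (𝓞 F)) (h : GoodAt (W₀⁄F) v) {V : ValuationSubring Ω} (hV : Abw V v) :
    ∃ (Kg : AddSubgroup (Pt (WAB A B) Ω)) (u r : F), RM A B V Kg (algebraMap F Ω u) (algebraMap F Ω r) ∧
      ∀ g : Ω ≃ₐ[F] Ω, Inert V g → ∀ n : ℕ, V.valuation (n : Ω) = 1 → ∀ T : Pt (WAB A B) Ω, n • T = 0 → ac (WAB A B) g T = T := by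
  obtain ⟨C, c1, c2, c3, c4, c6, cd⟩ := h
  have hVCF := r2_trans (r2_vc1 W₀ hA hB) (r2_vc2 (W₀⁄F) C)
  have hVC := r2_map (Ω := Ω) hVCF
  have hG : GoodW ((C • (W₀⁄F))⁄Ω) V := by
    refine ⟨⟨(hV _).2 c1, (hV _).2 c2, (hV _).2 c3, (hV _).2 c4, (hV _).2 c6⟩, ?_⟩
    have e1 : ((C • (W₀⁄F))⁄Ω).Δ = algebraMap F Ω (C • (W₀⁄F)).Δ := (C • (W₀⁄F)).map_Δ _
    rw [e1]
    exact (hV.eq_one _).2 cd
  have hd0 : (4 * A ^ 3 + 27 * B ^ 2) ≠ 0 := y3_ne W₀ hA hB hΔ
  have hd : (WAB A B).Δ ≠ 0 := by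
    have h2 : (WAB A B).Δ = -16 * (4 * A ^ 3 + 27 * B ^ 2) := by
      simp only [WAB, WeierstrassCurve.Δ, WeierstrassCurve.b₂, WeierstrassCurve.b₄, WeierstrassCurve.b₆, WeierstrassCurve.b₈]
      ring
    rw [h2]
    exact mul_ne_zero (by norm_num) hd0
  have hd1 : ((WAB A B)⁄Ω).Δ ≠ 0 := by
    have e1 : ((WAB A B)⁄Ω).Δ = algebraMap F Ω (WAB A B).Δ := (WAB A B).map_Δ _
    rw [e1]
    exact (map_ne_zero _).2 hd
  have hd2 : ((C • (W₀⁄F))⁄Ω).Δ ≠ 0 := by
    intro h0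
    have h1 := hG.disc
    rw [h0, map_zero] at h1
    exact zero_ne_one h1
  obtain ⟨Θ, hΘ⟩ := MG.vc_iso hVC hd1 hd2
  obtain ⟨Kg, hK⟩ := MG.kg_ex hG Θ
  refine ⟨Kg, _, _, rm_of hG ((map_ne_zero _).2 hVCF.une) hΘ hK, ?_⟩
  intro g hg n hn T hT
  refine TQ.inert_triv (M := Set.range (algebraMap F Ω)) hd ?_ g ?_ hg n hn T hT
  · exact ⟨_, _, _, _, _, ⟨_, rfl⟩, ⟨_, rfl⟩, ⟨_, rfl⟩, ⟨_, rfl⟩, hVC, hG⟩
  · rintro _ ⟨x, rfl⟩
    exact g.commutes x

end H13D
end

-- from Lib.H16S.A3E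
section

/-! # H16S, chunks A3: the kernel of reduction in the coordinate t -/

open WeierstrassCurve

namespace H16S

open H35P (WAB Ker tt IntW)
open H55K (xc yc)

variable {k : Type} [Field k] [DecidableEq k] {W : WeierstrassCurve k} [W.IsShortNF] {V : ValuationSubring k}

omit [DecidableEq k] in
theorem A3E_mul {x y : k} {g h : V.ValueGroup} (hx : V.valuation x ≤ g) (hy : V.valuation y ≤ h) :
    V.valuation (x * y) ≤ g * h := by
  rw [map_mul]
  exact mul_le_mul' hx hy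

omit [DecidableEq k] in
theorem A3E_pow {x : k} {g : V.ValueGroup} (hx : V.valuation x ≤ g) (n : ℕ) : V.valuation (x ^ n) ≤ g ^ n := by
  rw [map_pow]
  exact pow_le_pow_left' hx n

omit [DecidableEq k] in
/-- The estimates for the slope. -/
theorem A3E_n1 {a t₁ w₁ t₂ : k} {c : V.ValueGroup} (hc : c ≤ 1) (va : V.valuation a ≤ 1) (h1 : V.valuation t₁ ≤ c)
    (h2 : V.valuation t₂ ≤ c) (h3 : V.valuation w₁ ≤ c) : V.valuation (n1 a t₁ w₁ t₂) ≤ c ^ 2 := by
  unfold n1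
  refine V.valuation.map_add_le (V.valuation.map_add_le (V.valuation.map_add_le (A3E_pow h1 2) ?_) (A3E_pow h2 2)) ?_
  · have := A3E_mul h1 h2
    rwa [← sq] at this
  · have := A3E_mul va (A3E_pow h3 2)
    rwa [one_mul] at this

omit [DecidableEq k] in
/-- The denominator of the slope has value 1. -/
theorem A3E_d1 {a b t₁ w₁ t₂ w₂ : k} {c : V.ValueGroup} (hc : c < 1) (va : V.valuation a ≤ 1) (vb : V.valuation b ≤ 1)
    (h1 : V.valuation t₂ ≤ c) (h2 : V.valuation w₁ ≤ c) (h3 : V.valuation w₂ ≤ c) :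
    V.valuation (d1 a b t₁ w₁ t₂ w₂) = 1 := by
  have e : d1 a b t₁ w₁ t₂ w₂ = 1 + -(a * t₂ * (w₁ + w₂) + b * (w₁ ^ 2 + w₁ * w₂ + w₂ ^ 2)) := by
    unfold d1
    ring
  have hcc : c * c ≤ c := mul_le_of_le_one_left' hc.le
  have h4 : V.valuation (-(a * t₂ * (w₁ + w₂) + b * (w₁ ^ 2 + w₁ * w₂ + w₂ ^ 2))) < 1 := by
    rw [Valuation.map_neg]
    refine lt_of_le_of_lt (V.valuation.map_add_le ?_ ?_) hc
    · have := A3E_mul (A3E_mul va h1) (V.valuation.map_add_le h2 h3)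
      rw [one_mul] at this
      exact this.trans hcc
    · have h5 : V.valuation (w₁ ^ 2 + w₁ * w₂ + w₂ ^ 2) ≤ c := by
        refine V.valuation.map_add_le (V.valuation.map_add_le ?_ ((A3E_mul h2 h3).trans hcc)) ?_
        · exact (A3E_pow h2 2).trans (by rw [sq]; exact hcc)
        · exact (A3E_pow h3 2).trans (by rw [sq]; exact hcc)
      have := A3E_mul vb h5
      rwa [one_mul] at this
  rw [e, V.valuation.map_add_eq_of_lt_left, map_one]
  rw [map_one]
  exact h4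

/-- Chunk A3e (M). The difference: c < 1, V t_i ≤ c. V (t(P - Q) - (t P - t Q)) ≤ V (t P - t Q) c^4. PROOF. t(-Q) = -t Q, w(-Q) = -w Q (H55K.tt_neg, yc_neg). Write t₁, w₁ for P, t₂, w₂ for Q, a, b for a₄, a₆. d1(t₁,w₁,-t₂,-w₂) = 1 + a t₂ (w₁ - w₂) - b (..) has
value 1 (V w_i ≤ c³), so V lam ≤ c² (n1), V d2 = 1: add_tw applies. nu d1 = w₁ d1 - t₁ n1 = t₁ t₂ (t₁ - t₂) + a t₂ w₁ (w₁ - w₂) + b w₁ w₂ (w₁ - w₂) (ring identity modulo the equation of (t₁,w₁)), and w₁ - w₂ = lam' (t₁ - t₂) with lam' =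
lam(t₁,w₁,t₂,w₂) (on_line), V lam' ≤ c². So V nu ≤ V (t₁ - t₂) c² and t(P - Q) - (t₁ - t₂) = (2 a lam + 3 b lam²) nu / d2 has value at most c² V nu. -/
theorem tt_sub (h2 : (2 : k) ≠ 0) (hI : IntW W V) {P Q : W.toAffine.Point} (hP : Ker V P) (hQ : Ker V Q)
    {c : V.ValueGroup} (hc : c < 1) (h1 : V.valuation (tt P) ≤ c) (h3 : V.valuation (tt Q) ≤ c) :
    V.valuation (tt (P - Q) - (tt P - tt Q)) ≤ V.valuation (tt P - tt Q) * c ^ 4 := by
  have va : V.valuation W.a₄ ≤ 1 := (V.valuation_le_one_iff _).2 hI.a4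
  have vb : V.valuation W.a₆ ≤ 1 := (V.valuation_le_one_iff _).2 hI.a6
  obtain ⟨c1, u1, z1⟩ := ker_tw hI hP
  obtain ⟨c2, u2, z2⟩ := ker_tw hI hQ
  have hQ' : Ker V (-Q) := (H35P.ker_neg Q).2 hQ
  obtain ⟨c3, -, -⟩ := ker_tw hI hQ'
  have hn : ww (-Q) = -ww Q := by
    unfold ww
    rw [H55K.yc_neg, inv_neg]
  have e1 := Eqn_ww c1
  have e2 := Eqn_ww c2
  have hc2 : c ^ 2 ≤ 1 := pow_le_one' hc.le 2
  have hcc : c ^ 3 ≤ c := by
    rw [pow_succ]
    exact mul_le_of_le_one_left' hc2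
  have y1 : V.valuation (ww P) ≤ c := by
    rw [z1]
    exact (pow_le_pow_left' h1 3).trans hcc
  have y2 : V.valuation (ww Q) ≤ c := by
    rw [z2]
    exact (pow_le_pow_left' h3 3).trans hcc
  have y2' : V.valuation (-ww Q) ≤ c := by rwa [Valuation.map_neg]
  have h3' : V.valuation (-tt Q) ≤ c := by rwa [Valuation.map_neg]
  set a := W.a₄ with ha
  set b := W.a₆ with hb
  set t₁ := tt P with ht1
  set t₂ := tt Q with ht2
  set w₁ := ww P with hw1
  set w₂ := ww Q with hw2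
  have D1 : V.valuation (d1 a b t₁ w₁ (-t₂) (-w₂)) = 1 := A3E_d1 hc va vb h3' y1 y2'
  have D1' : V.valuation (d1 a b t₁ w₁ t₂ w₂) = 1 := A3E_d1 hc va vb h3 y1 y2
  have ne1 : d1 a b t₁ w₁ (-t₂) (-w₂) ≠ 0 := fun h => by
    rw [h, map_zero] at D1
    exact zero_ne_one D1
  have N1 : V.valuation (n1 a t₁ w₁ (-t₂)) ≤ c ^ 2 := A3E_n1 hc.le va h1 h3' y1
  have N1' : V.valuation (n1 a t₁ w₁ t₂) ≤ c ^ 2 := A3E_n1 hc.le va h1 h3 y1
  have L1 : lam a b t₁ w₁ (-t₂) (-w₂) * d1 a b t₁ w₁ (-t₂) (-w₂) = n1 a t₁ w₁ (-t₂) := lam_mul (isUnit_iff_ne_zero.2 ne1)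
  have VL : V.valuation (lam a b t₁ w₁ (-t₂) (-w₂)) ≤ c ^ 2 := by
    have := congrArg V.valuation L1
    rw [map_mul, D1, mul_one] at this
    rw [this]
    exact N1
  set L := lam a b t₁ w₁ (-t₂) (-w₂) with hL
  have VLc : V.valuation L ≤ c := VL.trans (by rw [sq]; exact mul_le_of_le_one_left' hc.le)
  have D2 : V.valuation (d2 a b t₁ w₁ (-t₂) (-w₂)) = 1 := by
    have e : d2 a b t₁ w₁ (-t₂) (-w₂) = 1 + (a * L ^ 2 + b * L ^ 3) := by
      unfold d2
      rw [← hL]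
      ring
    have h4 : V.valuation (a * L ^ 2 + b * L ^ 3) < 1 := by
      refine lt_of_le_of_lt (V.valuation.map_add_le ?_ ?_) hc
      · have := A3E_mul va (A3E_pow VLc 2)
        rw [one_mul] at this
        exact this.trans (by rw [sq]; exact mul_le_of_le_one_left' hc.le)
      · have := A3E_mul vb (A3E_pow VLc 3)
        rw [one_mul] at this
        exact this.trans hcc
    rw [e, V.valuation.map_add_eq_of_lt_left, map_one]
    rw [map_one]
    exact h4
  have ne2 : d2 a b t₁ w₁ (-t₂) (-w₂) ≠ 0 := fun h => by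
    rw [h, map_zero] at D2
    exact zero_ne_one D2
  have W1 : (w₁ - w₂) * d1 a b t₁ w₁ t₂ w₂ = (t₁ - t₂) * n1 a t₁ w₁ t₂ := by
    unfold Eqn at e1 e2
    unfold d1 n1
    linear_combination e1 - e2
  have VW : V.valuation (w₁ - w₂) ≤ V.valuation (t₁ - t₂) := by
    have h5 := congrArg V.valuation W1
    rw [map_mul, D1', mul_one, map_mul] at h5
    rw [h5]
    exact mul_le_of_le_one_right' (N1'.trans hc2)
  have NU : nu a b t₁ w₁ (-t₂) (-w₂) * d1 a b t₁ w₁ (-t₂) (-w₂) =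
      t₁ * t₂ * (t₁ - t₂) + a * (t₂ * w₁) * (w₁ - w₂) + b * (w₁ * w₂) * (w₁ - w₂) := by
    unfold nu
    rw [← hL, sub_mul, mul_right_comm, L1]
    unfold Eqn at e1
    unfold d1 n1
    linear_combination e1
  have VN : V.valuation (nu a b t₁ w₁ (-t₂) (-w₂)) ≤ c ^ 2 * V.valuation (t₁ - t₂) := by
    have h5 := congrArg V.valuation NU
    rw [map_mul, D1, mul_one] at h5
    rw [h5]
    refine V.valuation.map_add_le (V.valuation.map_add_le ?_ ?_) ?_
    · rw [sq]
      exact A3E_mul (A3E_mul h1 h3) le_rfl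
    · have := A3E_mul (A3E_mul va (A3E_mul h3 y1)) VW
      rwa [one_mul, ← sq] at this
    · have := A3E_mul (A3E_mul vb (A3E_mul y1 y2)) VW
      rwa [one_mul, ← sq] at this
  have V2 : V.valuation (2 : k) ≤ 1 := by
    have := H35P.FG_nat (V := V) 2
    rwa [Nat.cast_ofNat] at this
  have V3 : V.valuation (3 : k) ≤ 1 := by
    have := H35P.FG_nat (V := V) 3
    rwa [Nat.cast_ofNat] at this
  have VK : V.valuation (2 * a * L + 3 * b * L ^ 2) ≤ c ^ 2 := by
    refine V.valuation.map_add_le ?_ ?_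
    · have := A3E_mul (A3E_mul V2 va) VL
      rwa [one_mul, one_mul] at this
    · have := A3E_mul (A3E_mul V3 vb) (A3E_pow VLc 2)
      rwa [one_mul, one_mul] at this
  have key := add_tw h2 c1 c3 (by rw [H55K.tt_neg, hn]; exact ne1) (by rw [H55K.tt_neg, hn]; exact ne2)
  rw [H55K.tt_neg, hn, ← sub_eq_add_neg] at key
  have e3 : tt (P - Q) - (t₁ - t₂) = (2 * a * L + 3 * b * L ^ 2) * nu a b t₁ w₁ (-t₂) (-w₂) *
      (d2 a b t₁ w₁ (-t₂) (-w₂))⁻¹ := by
    rw [key.2.1]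
    unfold addt
    rw [Ring.inverse_eq_inv', ← hL]
    ring
  have h6 : V.valuation ((d2 a b t₁ w₁ (-t₂) (-w₂))⁻¹) ≤ 1 := by
    rw [map_inv₀, D2, inv_one]
  rw [e3]
  have h7 := A3E_mul (A3E_mul VK VN) h6
  refine h7.trans (le_of_eq ?_)
  rw [mul_one, ← mul_assoc, ← pow_add, mul_comm]

end H16S
end
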