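import Mathlib
import Pool.Agent.Lib.H1M.PP2.D_H13Z_TR
import Pool.Agent.Lib.H1M.PP2.D_H28T_CD
import Pool.Agent.Lib.H1M.PP2.D_H55P_Z10
import Pool.Agent.Lib.H1M.PP2.M005
import Pool.Agent.Lib.H1M.PP2.M021
import Pool.Agent.Lib.H1M.PP2.M023
import Pool.Agent.Lib.H1M.PP2.M030
import Pool.Agent.Lib.H1M.PP2.M038
import Pool.Agent.Lib.H1M.PP2.M046
import Pool.Agent.Lib.H1M.PP2.M051
import Pool.Agent.Lib.H1M.PP2.M052
import Pool.Agent.Lib.H1M.PP2.M054
import Pool.Agent.Lib.H1M.PP2.M059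
import Pool.Agent.Lib.H1M.PP2.M062
import Pool.Agent.Lib.H1M.PP2.M069
import Pool.Agent.Lib.H1M.PP2.M073
import Pool.Agent.Lib.H1M.PP2.M074
import Pool.Agent.Lib.H1M.PP2.M080
import Pool.Agent.Lib.H1M.PP2.M081
import Pool.Agent.Lib.H1M.PP2.M082
import Pool.Agent.Lib.H1M.PP2.M083
import Pool.Agent.Lib.H1M.PP2.M086
import Pool.Agent.Lib.H1M.PP2.M090
import Pool.Agent.Lib.H1M.PP2.M093
import Pool.Agent.Lib.H1M.PP2.M095

/-! Merged copies (to shorten the build) of Lib.H13R.N1, Lib.H13R.N2, Lib.H13R.R2, Lib.H13Y.GN11a, Lib.H13Y.GN6b, Lib.H13Y.GN9b, Lib.H13Y.GN11b, Lib.H13S.DC, Lib.H13Z.LPA, Lib.H13X.XT, Lib.H13R.R5, Lib.H28I.C2, Lib.H28I.C3, Lib.H28T.AR2, Lib.H55K.UB10A, Lib.H55K.UB1A, Lib.H55K.UB1B, Lib.H55K.UB9D, Lib.H55K.UB6A, Lib.H55K.UB6B, Lib.H55K.UB7A, Lib.H55K.UB7B. -/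

-- from Lib.H13R.N1
section

/-! # H13R: the Selmer group with inertia conditions along a quadratic extension -/

open NumberField IsDedekindDomain WeierstrassCurve

namespace H13R

open H55P (Pt ac Inert Dec Coc SelZero)
open H13Y

/-- Chunk N1 (S/M). H13Y.cor_two (D2.lean) with Inert in place of Dec: copy its proof. The only changes: all valuation rings V (no condition V ≠ ⊤), and the group DD = elements of K.fixingSubgroup with Inert V s; it is a subgroup: there is H13S or H55P lemma inS / decS (H55P/S13 or S14: grep inS, Inert; inS F V is the inertia group as a subgroup, so DD = K.fixingSubgroup ⊓ H55P.inS k V, membership Iff.rfl as in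
H55K/NA5.lean hI). For s in K₁.fixingSubgroup with Inert V s: τ⁻¹ s τ lies in the inertia group of V' = V.comap τ: for x in V' (τ x in V): V'.valuation (τ⁻¹ s τ x - x) < 1 iff V.valuation (s τ x - τ x) < 1 (see hlt in H55P/Z12.lean: lt1_iff, ValuationSubring.mem_comap). -/
theorem cor_twoI {k : Type} [Field k] {Ω : Type} [Field Ω] [DecidableEq Ω] [Algebra k Ω] [IsAlgClosure k Ω]
    [CharZero k] (W : WeierstrassCurve k) {p : ℕ} (hp : p % 2 = 1) {K K₁ : IntermediateField k Ω}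
    [FiniteDimensional k K₁] (hK : K ≤ K₁) (hn : ∀ s ∈ K.fixingSubgroup, ∀ x ∈ K₁, s x ∈ K₁)
    {τ : Ω ≃ₐ[k] Ω} (hτ : τ ∈ K.fixingSubgroup) (hτ1 : τ ∉ K₁.fixingSubgroup)
    (h2 : ∀ s ∈ K.fixingSubgroup, s ∉ K₁.fixingSubgroup → s * τ ∈ K₁.fixingSubgroup ∧
      τ⁻¹ * s ∈ K₁.fixingSubgroup)
    {d : (Ω ≃ₐ[k] Ω) → Pt W Ω} (hd : Coc W K₁ d) (hpd : ∀ s ∈ K₁.fixingSubgroup, p • d s = 0)
    (hV : ∀ V : ValuationSubring Ω, ∃ P : Pt W Ω, ∀ s ∈ K₁.fixingSubgroup, Inert V s →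
      d s = ac W s P - P) :
    ∃ C : (Ω ≃ₐ[k] Ω) → Pt W Ω, Coc W K C ∧ (∀ s ∈ K.fixingSubgroup, p • C s = 0) ∧
      (∀ V : ValuationSubring Ω, ∃ P : Pt W Ω, ∀ s ∈ K.fixingSubgroup, Inert V s →
        C s = ac W s P - P) ∧
      ∀ s ∈ K₁.fixingSubgroup, C s = d s + ac W τ (d (τ⁻¹ * s * τ)) := by
  classical
  have hle : K₁.fixingSubgroup ≤ K.fixingSubgroup := IntermediateField.fixingSubgroup_antitone hK
  have hnor : ∀ s ∈ K.fixingSubgroup, ∀ t ∈ K₁.fixingSubgroup, s⁻¹ * t * s ∈ K₁.fixingSubgroup := by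
    intro s hs t ht
    rw [IntermediateField.mem_fixingSubgroup_iff] at ht ⊢
    intro x hx
    have e : (s⁻¹ * t * s) x = s⁻¹ (t (s x)) := rfl
    rw [e, ht _ (hn s hs x hx)]
    exact s.symm_apply_apply x
  have hτi : ∀ t ∈ K₁.fixingSubgroup, τ⁻¹ * t * τ ∈ K₁.fixingSubgroup := hnor τ hτ
  obtain ⟨C, hC⟩ : ∃ C : (Ω ≃ₐ[k] Ω) → Pt W Ω, ∀ s, C s = if s ∈ K₁.fixingSubgroup then
      d s + ac W τ (d (τ⁻¹ * s * τ)) else ac W τ (d (τ⁻¹ * s)) + d (s * τ) := ⟨_, fun _ => rfl⟩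
  have hCy : ∀ s ∈ K₁.fixingSubgroup, C s = d s + ac W τ (d (τ⁻¹ * s * τ)) := by
    intro s hs
    rw [hC, if_pos hs]
  have hCn : ∀ s, s ∉ K₁.fixingSubgroup → C s = ac W τ (d (τ⁻¹ * s)) + d (s * τ) := by
    intro s hs
    rw [hC, if_neg hs]
  have hmul : ∀ s ∈ K.fixingSubgroup, ∀ t ∈ K.fixingSubgroup, C (s * t) = C s + ac W s (C t) := by
    intro s hs t ht
    by_cases hs1 : s ∈ K₁.fixingSubgroup
    · by_cases ht1 : t ∈ K₁.fixingSubgroup
      · rw [hCy _ (mul_mem hs1 ht1), hCy _ hs1, hCy _ ht1, hd.mul s hs1 t ht1]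
        have e : τ⁻¹ * (s * t) * τ = (τ⁻¹ * s * τ) * (τ⁻¹ * t * τ) := by group
        rw [e, hd.mul _ (hτi s hs1) _ (hτi t ht1), map_add, map_add, ← YD2_mul, ← YD2_mul]
        have e2 : τ * (τ⁻¹ * s * τ) = s * τ := by group
        rw [e2]
        abel
      · obtain ⟨h3, h4⟩ := h2 t ht ht1
        have hst : s * t ∉ K₁.fixingSubgroup := fun h => ht1 ((Subgroup.mul_mem_cancel_left _ hs1).1 h)
        rw [hCn _ hst, hCy _ hs1, hCn _ ht1]
        have e1 : τ⁻¹ * (s * t) = (τ⁻¹ * s * τ) * (τ⁻¹ * t) := by group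
        have e2 : s * t * τ = s * (t * τ) := by group
        rw [e1, e2, hd.mul _ (hτi s hs1) _ h4, hd.mul _ hs1 _ h3, map_add, map_add, ← YD2_mul, ← YD2_mul]
        have e3 : τ * (τ⁻¹ * s * τ) = s * τ := by group
        rw [e3]
        abel
    · obtain ⟨h3, h4⟩ := h2 s hs hs1
      by_cases ht1 : t ∈ K₁.fixingSubgroup
      · have hst : s * t ∉ K₁.fixingSubgroup := fun h => hs1 ((Subgroup.mul_mem_cancel_right _ ht1).1 h)
        rw [hCn _ hst, hCn _ hs1, hCy _ ht1]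
        have e1 : τ⁻¹ * (s * t) = (τ⁻¹ * s) * t := by group
        have e2 : s * t * τ = (s * τ) * (τ⁻¹ * t * τ) := by group
        rw [e1, e2, hd.mul _ h4 _ ht1, hd.mul _ h3 _ (hτi t ht1), map_add, map_add, ← YD2_mul, ← YD2_mul]
        have e3 : τ * (τ⁻¹ * s) = s := by group
        rw [e3]
        abel
      · obtain ⟨h5, h6⟩ := h2 t ht ht1
        have hst : s * t ∈ K₁.fixingSubgroup := by
          have e : s * t = (s * τ) * (τ⁻¹ * t) := by group
          rw [e]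
          exact mul_mem h3 h6
        rw [hCy _ hst, hCn _ hs1, hCn _ ht1]
        have e1 : s * t = (s * τ) * (τ⁻¹ * t) := by group
        have e2 : τ⁻¹ * (s * t) * τ = (τ⁻¹ * s) * (t * τ) := by group
        rw [e2, e1, hd.mul _ h3 _ h6, hd.mul _ h4 _ h5, map_add, map_add, ← YD2_mul, ← YD2_mul]
        have e3 : τ * (τ⁻¹ * s) = s := by group
        rw [e3]
        abel
  have hpC : ∀ s ∈ K.fixingSubgroup, p • C s = 0 := by
    intro s hs
    by_cases hs1 : s ∈ K₁.fixingSubgroup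
    · rw [hCy _ hs1, smul_add, ← map_nsmul, hpd s hs1, hpd _ (hτi s hs1), map_zero, add_zero]
    · obtain ⟨h3, h4⟩ := h2 s hs hs1
      rw [hCn _ hs1, smul_add, ← map_nsmul, hpd _ h3, hpd _ h4, map_zero, add_zero]
  refine ⟨C, ⟨hmul, ?_⟩, hpC, ?_, hCy⟩
  · obtain ⟨L, hL, hLd⟩ := hd.cont
    let em := IntermediateField.intermediateFieldMap τ L
    have hLm : FiniteDimensional k (L.map τ.toAlgHom) := Module.Finite.equiv em.toLinearEquiv
    refine ⟨(L ⊔ K₁) ⊔ L.map τ.toAlgHom, IntermediateField.finiteDimensional_sup _ _, fun s hs hsL => ?_⟩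
    rw [IntermediateField.fixingSubgroup_sup, IntermediateField.fixingSubgroup_sup] at hsL
    obtain ⟨⟨hs1, hs2⟩, hs3⟩ := hsL
    have h7 : τ⁻¹ * s * τ ∈ L.fixingSubgroup := by
      rw [IntermediateField.mem_fixingSubgroup_iff]
      intro x hx
      have e : (τ⁻¹ * s * τ) x = τ⁻¹ (s (τ x)) := rfl
      have h8 : s (τ x) = τ x := (IntermediateField.mem_fixingSubgroup_iff _ s).1 hs3 (τ x) ⟨x, hx, rfl⟩
      rw [e, h8]
      exact τ.symm_apply_apply x
    rw [hCy s hs2, hLd s hs2 hs1, hLd _ (hτi s hs2) h7, map_zero, add_zero]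
  · intro V
    obtain ⟨P, hP⟩ := hV V
    have hm : ∀ x, x ∈ V.comap (τ : Ω →+* Ω) ↔ τ x ∈ V := fun x => ValuationSubring.mem_comap
    have hlt : ∀ x, (V.comap (τ : Ω →+* Ω)).valuation x < 1 ↔ V.valuation (τ x) < 1 := by
      intro x
      rw [H55P.lt1_iff, H55P.lt1_iff, hm, map_inv₀]
      simp
    obtain ⟨P', hP'⟩ := hV (V.comap (τ : Ω →+* Ω))
    let DD : Subgroup (Ω ≃ₐ[k] Ω) := K.fixingSubgroup ⊓ H55P.inS k V
    have hDD : ∀ s, s ∈ DD ↔ s ∈ K.fixingSubgroup ∧ Inert V s := fun _ => Iff.rfl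
    have hnD : ∀ s ∈ DD, s ∉ DD ⊓ K₁.fixingSubgroup → s ∉ K₁.fixingSubgroup :=
      fun s hs h h' => h (Subgroup.mem_inf.2 ⟨hs, h'⟩)
    have hcob := cob_two (fun s : Ω ≃ₐ[k] Ω => ac W s) (YD2_one W) (fun s t m => YD2_mul W s t m) DD
      (DD ⊓ K₁.fixingSubgroup) inf_le_left
      (fun s hs t ht => Subgroup.mem_inf.2 ⟨mul_mem (mul_mem (inv_mem hs) ht.1) hs,
        hnor s hs.1 t ht.2⟩)
      (fun s hs hs' t ht ht' => Subgroup.mem_inf.2 ⟨mul_mem hs (inv_mem ht), by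
        have e : s * t⁻¹ = (s * τ) * (t * τ)⁻¹ := by group
        rw [e]
        exact mul_mem (h2 s hs.1 (hnD s hs hs')).1 (inv_mem (h2 t ht.1 (hnD t ht ht')).1)⟩)
      (fun s hs hs' => Subgroup.mem_inf.2 ⟨mul_mem hs hs, by
        have e : s * s = (s * τ) * (τ⁻¹ * s) := by group
        rw [e]
        exact mul_mem (h2 s hs.1 (hnD s hs hs')).1 (h2 s hs.1 (hnD s hs hs')).2⟩)
      C (fun s hs t ht => hmul s hs.1 t ht.1) hp (fun s hs => hpC s hs.1)
      ⟨P + ac W τ P', fun s hs => by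
        have hs1 : s ∈ K₁.fixingSubgroup := hs.2
        have hdec : Inert V s := hs.1.2
        have h8 : Inert (V.comap (τ : Ω →+* Ω)) (τ⁻¹ * s * τ) := by
          intro x hx
          rw [hlt, map_sub]
          have e : τ ((τ⁻¹ * s * τ) x) = s (τ x) := τ.apply_symm_apply _
          rw [e]
          exact hdec (τ x) ((hm x).1 hx)
        rw [hCy s hs1, hP s hs1 hdec, hP' _ (hτi s hs1) h8, map_sub, map_add, ← YD2_mul, ← YD2_mul]
        have e3 : τ * (τ⁻¹ * s * τ) = s * τ := by group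
        rw [e3]
        abel⟩
    obtain ⟨R, hR⟩ := hcob
    exact ⟨R, fun s hs hs' => hR s ⟨hs, hs'⟩⟩

end H13R
end

-- from Lib.H13R.N2
section

/-! # H13R: vanishing of the Selmer group along a quadratic extension -/

open NumberField IsDedekindDomain WeierstrassCurve

namespace H13R

open H55P (Pt ac Inert Dec Coc SelZero)
open H13Y

/-- Chunk N2 (S/M). Port of H55K.TQ.nk_desc (NK1.lean), which is the contrapositive with the local conditions Dec: given a class c over K₁ (Coc W K₁ c, p • c = 0, inertia conditions for all V) find T. Case 1: all s in K.fixingSubgroup fix ω: K and K₁ have the same fixing subgroups and h applies to c itself (hypotheses and conclusion restricted with hiff).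
Case 2: τ as there; cor_twoI (N1.lean) for c and for S ∘ c (S commutes with ac W s if s ω = ω: h1) gives C₁, C₂, both satisfy the hypotheses of h (SelZero W p K): T₁, T₂; the rest of the proof of nk_desc (Y = S (S T₁ + T₂), hmain, hcop) gives T = (-u) • Y. -/
theorem nk_descI {k : Type} [Field k] {Ω : Type} [Field Ω] [DecidableEq Ω] [Algebra k Ω] [IsAlgClosure k Ω]
    [CharZero k] (W : WeierstrassCurve k) {p : ℕ} (hp : p.Prime) (hp2 : p ≠ 2)
    {K K₁ : IntermediateField k Ω} [FiniteDimensional k K₁] (hK : K ≤ K₁)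
    (hn : ∀ s ∈ K.fixingSubgroup, ∀ x ∈ K₁, s x ∈ K₁) (S : Pt W Ω →+ Pt W Ω) (d : ℕ) (hd : ¬ p ∣ d)
    (hS : ∀ P, S (S P) = -(d • P)) (ω ω' : Ω)
    (hω : ∀ s ∈ K.fixingSubgroup, s ∈ K₁.fixingSubgroup ↔ s ω = ω)
    (hω2 : ∀ s : Ω ≃ₐ[k] Ω, s ω = ω ∨ s ω = ω') (hω3 : ∀ s : Ω ≃ₐ[k] Ω, s ω = ω' → s ω' = ω)
    (h1 : ∀ s : Ω ≃ₐ[k] Ω, s ω = ω → ∀ P, ac W s (S P) = S (ac W s P))
    (h2 : ∀ s : Ω ≃ₐ[k] Ω, s ω ≠ ω → ∀ P, ac W s (S P) = -S (ac W s P)) (h : SelZero W p K) :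
    SelZero W p K₁ := by
  have hle : K₁.fixingSubgroup ≤ K.fixingSubgroup := IntermediateField.fixingSubgroup_antitone hK
  intro c hc hpc hV
  by_cases hall : ∀ s ∈ K.fixingSubgroup, s ω = ω
  · have hiff : ∀ s, s ∈ K.fixingSubgroup ↔ s ∈ K₁.fixingSubgroup :=
      fun s => ⟨fun hs => (hω s hs).2 (hall s hs), fun hs => hle hs⟩
    obtain ⟨T, hT1, hT2⟩ := h c ⟨fun s hs t ht => hc.mul s ((hiff s).1 hs) t ((hiff t).1 ht), by
      obtain ⟨L, hL, h3⟩ := hc.cont
      exact ⟨L, hL, fun s hs => h3 s ((hiff s).1 hs)⟩⟩ (fun s hs => hpc s ((hiff s).1 hs)) (fun V => by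
      obtain ⟨P, hP⟩ := hV V
      exact ⟨P, fun s hs => hP s ((hiff s).1 hs)⟩)
    exact ⟨T, hT1, fun s hs => hT2 s ((hiff s).2 hs)⟩
  push Not at hall
  obtain ⟨τ, hτ, hτω⟩ := hall
  have hτ1 : τ ∉ K₁.fixingSubgroup := fun h => hτω ((hω τ hτ).1 h)
  have hτ' : τ ω = ω' := (hω2 τ).resolve_left hτω
  have h22 : ∀ s ∈ K.fixingSubgroup, s ∉ K₁.fixingSubgroup → s * τ ∈ K₁.fixingSubgroup ∧
      τ⁻¹ * s ∈ K₁.fixingSubgroup := by
    intro s hs hs1
    have hsω : s ω = ω' := (hω2 s).resolve_left fun h => hs1 ((hω s hs).2 h)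
    constructor
    · refine (hω _ (mul_mem hs hτ)).2 ?_
      show s (τ ω) = ω
      rw [hτ']
      exact hω3 s hsω
    · refine (hω _ (mul_mem (inv_mem hτ) hs)).2 ?_
      show τ⁻¹ (s ω) = ω
      rw [hsω, ← hτ']
      exact τ.symm_apply_apply ω
  have hfixω : ∀ s ∈ K₁.fixingSubgroup, s ω = ω := fun s hs => (hω s (hle hs)).1 hs
  have hp2' : p % 2 = 1 := by
    rcases hp.eq_two_or_odd with h3 | h3
    · exact absurd h3 hp2
    · exact h3
  obtain ⟨C₁, a1, a2, a3, a4⟩ := cor_twoI W hp2' hK hn hτ hτ1 h22 hc hpc hV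
  have hSc : Coc W K₁ fun s => S (c s) := by
    refine ⟨fun s hs t ht => ?_, ?_⟩
    · rw [hc.mul s hs t ht, map_add, h1 s (hfixω s hs)]
    · obtain ⟨L, hL, h3⟩ := hc.cont
      exact ⟨L, hL, fun s hs hs' => by rw [h3 s hs hs', map_zero]⟩
  obtain ⟨C₂, b1, b2, b3, b4⟩ := cor_twoI W hp2' hK hn hτ hτ1 h22 hSc
    (fun s hs => by rw [← map_nsmul, hpc s hs, map_zero]) (fun V => by
      obtain ⟨P, hP⟩ := hV V
      exact ⟨S P, fun s hs hs' => by rw [hP s hs hs', map_sub, h1 s (hfixω s hs)]⟩)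
  obtain ⟨T₁, hT₁, hT₁'⟩ := h C₁ a1 a2 a3
  obtain ⟨T₂, hT₂, hT₂'⟩ := h C₂ b1 b2 b3
  obtain ⟨Y, hY⟩ : ∃ Y, Y = S (S T₁ + T₂) := ⟨_, rfl⟩
  have hpY : p • Y = 0 := by
    rw [hY, ← map_nsmul, smul_add, ← map_nsmul, hT₁, hT₂, map_zero, add_zero, map_zero]
  have hmain : ∀ s ∈ K₁.fixingSubgroup, -((2 * d) • c s) = ac W s Y - Y := by
    intro s hs
    have e1 := a4 s hs
    have e2 := b4 s hs
    rw [hT₁' s (hle hs)] at e1
    rw [hT₂' s (hle hs), h2 τ hτω] at e2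
    have e3 := congrArg S e1
    rw [map_sub, map_add, ← h1 s (hfixω s hs)] at e3
    have e4 : S (c s) + S (c s) = ac W s (S T₁ + T₂) - (S T₁ + T₂) := by
      rw [map_add]
      have e5 : ac W s (S T₁) + ac W s T₂ - (S T₁ + T₂) = (ac W s (S T₁) - S T₁) + (ac W s T₂ - T₂) := by
        abel
      rw [e5, e3, e2]
      abel
    have e6 := congrArg S e4
    rw [map_add, hS, map_sub, ← h1 s (hfixω s hs), ← hY] at e6
    rw [← e6, two_mul, add_smul]
    abel
  have hcop : IsCoprime ((p : ℕ) : ℤ) (((2 * d : ℕ)) : ℤ) := by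
    have h3 : Nat.Coprime p (2 * d) := by
      rw [Nat.Prime.coprime_iff_not_dvd hp]
      intro h4
      rcases (Nat.Prime.dvd_mul hp).1 h4 with h5 | h5
      · exact hp2 ((Nat.prime_dvd_prime_iff_eq hp Nat.prime_two).1 h5)
      · exact hd h5
    exact Nat.isCoprime_iff_coprime.2 h3
  obtain ⟨v, u, huv⟩ := hcop
  refine ⟨(-u) • Y, ?_, fun s hs => ?_⟩
  · rw [smul_comm, hpY, smul_zero]
  · have h3 : c s = (v * (p : ℤ) + u * ((2 * d : ℕ) : ℤ)) • c s := by rw [huv, one_smul]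
    have h4 : (v * (p : ℤ)) • c s = 0 := by
      rw [mul_smul, natCast_zsmul, hpc s hs, smul_zero]
    have h5 : (u * ((2 * d : ℕ) : ℤ)) • c s = (-u) • (-((2 * d) • c s)) := by
      rw [mul_smul, neg_smul, smul_neg, neg_neg, natCast_zsmul]
    rw [h3, add_smul, h4, zero_add, h5, hmain s hs, smul_sub, map_zsmul]

end H13R
end

-- from Lib.H13R.R2
section

/-! # H13R: counting the points of the reduction, any equation of good reduction, any number field -/

open NumberField IsDedekindDomain WeierstrassCurve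

namespace H13R

open H55P (IQ embF eF LF Per IsHecke Pt ac Inert Dec Nm)
open H35P (WAB Ker tt GoodW IntW)
open H55K H55K.MG

/-- The kernel of reduction as a subgroup. -/
def kerR {k : Type} [Field k] [DecidableEq k] {W : WeierstrassCurve k} {V : ValuationSubring k} (h : GoodW W V) :
    AddSubgroup W.toAffine.Point where
  carrier := {P | Ker V P}
  add_mem' := fun hP hQ => H35P.ker_add h.toIntW _ _ hP hQ
  zero_mem' := trivial
  neg_mem' := fun hP => (H35P.ker_neg _).2 hP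

variable {F : Type} [Field F] [NumberField F] {Ω : Type} [Field Ω] [DecidableEq Ω]
  [Algebra F Ω] {V : ValuationSubring Ω}

omit [NumberField F] [DecidableEq Ω] in
theorem r2_mul {x y : Ω} (hx : V.valuation x ≤ 1) (hy : V.valuation y ≤ 1) : V.valuation (x * y) ≤ 1 := by
  rw [map_mul]
  exact mul_le_one' hx hy

omit [NumberField F] [DecidableEq Ω] in
theorem r2_add {x y : Ω} (hx : V.valuation x ≤ 1) (hy : V.valuation y ≤ 1) : V.valuation (x + y) ≤ 1 :=
  (Valuation.map_add _ _ _).trans (max_le hx hy)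

omit [NumberField F] [DecidableEq Ω] in
theorem r2_eval (W₀ : WeierstrassCurve (𝓞 F)) (a b : 𝓞 F) : ak Ω (g9E W₀ a b) =
    ak Ω b ^ 2 + ak Ω W₀.a₁ * ak Ω a * ak Ω b + ak Ω W₀.a₃ * ak Ω b -
      (ak Ω a ^ 3 + ak Ω W₀.a₂ * ak Ω a ^ 2 + ak Ω W₀.a₄ * ak Ω a + ak Ω W₀.a₆) := by
  unfold g9E
  simp only [← g9h_eq, map_sub, map_add, map_mul, map_pow]

omit [NumberField F] [DecidableEq Ω] in
/-- Existence of a lift of a point modulo v. -/
theorem r2_lift [IsAlgClosed Ω] (W₀ : WeierstrassCurve (𝓞 F)) (hG : GoodW ((W₀⁄F)⁄Ω) V) (a b : 𝓞 F)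
    (hE : V.valuation (ak Ω (g9E W₀ a b)) < 1) : ∃ X : Pt (W₀⁄F) Ω, ¬ Ker V X ∧ xc X = ak Ω a ∧
      V.valuation (yc X - ak Ω b) < 1 := by
  set β : Ω := ak Ω W₀.a₁ * ak Ω a + ak Ω W₀.a₃ with hβ
  set γ : Ω := -(ak Ω a ^ 3 + ak Ω W₀.a₂ * ak Ω a ^ 2 + ak Ω W₀.a₄ * ak Ω a + ak Ω W₀.a₆) with hγ
  obtain ⟨z, hz⟩ : ∃ z : Ω, z ^ 2 + β * z + γ = 0 := by
    have hd : (Polynomial.X ^ 2 + Polynomial.C β * Polynomial.X + Polynomial.C γ : Polynomial Ω).degree = 2 := by
      compute_degree!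
    obtain ⟨z, hz⟩ := IsAlgClosed.exists_root (Polynomial.X ^ 2 + Polynomial.C β * Polynomial.X +
      Polynomial.C γ : Polynomial Ω) (by rw [hd]; norm_num)
    refine ⟨z, ?_⟩
    rw [Polynomial.IsRoot.def] at hz
    simpa using hz
  have hid : (ak Ω b - z) * (ak Ω b - (-β - z)) = ak Ω (g9E W₀ a b) := by
    rw [r2_eval]
    linear_combination -hz
  have hprod : V.valuation (ak Ω b - z) * V.valuation (ak Ω b - (-β - z)) < 1 := by
    rw [← map_mul, hid]
    exact hE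
  have hΔ : ((W₀⁄F)⁄Ω).Δ ≠ 0 := by
    intro h
    have h4 := hG.disc
    rw [h, map_zero] at h4
    exact zero_ne_one h4
  have hpt : ∀ y' : Ω, y' ^ 2 + β * y' + γ = 0 → V.valuation (ak Ω b - y') < 1 → ∃ X : Pt (W₀⁄F) Ω, ¬ Ker V X ∧
      xc X = ak Ω a ∧ V.valuation (yc X - ak Ω b) < 1 := by
    intro y' hy' hv'
    have heq : ((W₀⁄F)⁄Ω).toAffine.Equation (ak Ω a) y' := by
      rw [Affine.equation_iff]
      have e1 : ((W₀⁄F)⁄Ω).a₁ = ak Ω W₀.a₁ := rfl
      have e2 : ((W₀⁄F)⁄Ω).a₂ = ak Ω W₀.a₂ := rfl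
      have e3 : ((W₀⁄F)⁄Ω).a₃ = ak Ω W₀.a₃ := rfl
      have e4 : ((W₀⁄F)⁄Ω).a₄ = ak Ω W₀.a₄ := rfl
      have e6 : ((W₀⁄F)⁄Ω).a₆ = ak Ω W₀.a₆ := rfl
      rw [e1, e2, e3, e4, e6]
      linear_combination hy'
    have hns := (Affine.equation_iff_nonsingular_of_Δ_ne_zero (W := ((W₀⁄F)⁄Ω).toAffine) hΔ).1 heq
    refine ⟨.some _ _ hns, ?_, rfl, ?_⟩
    · exact not_lt.2 (ak_le V a)
    · rw [Valuation.map_sub_swap]
      exact hv'
  by_cases h1 : V.valuation (ak Ω b - z) < 1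
  · exact hpt z hz h1
  · have h7 : V.valuation (ak Ω b - (-β - z)) < 1 := by
      by_contra h8
      push Not at h1 h8
      exact absurd hprod (not_lt.2 (one_le_mul h1 h8))
    exact hpt (-β - z) (by linear_combination hz) h7

/-- The class of a lift is fixed by the Frobenius element. -/
theorem r2_fix (W₀ : WeierstrassCurve (𝓞 F)) (hG : GoodW ((W₀⁄F)⁄Ω) V) (v : HeightOneSpectrum (𝓞 F))
    (hv : ∀ a : 𝓞 F, a ∈ v.asIdeal → V.valuation (ak Ω a) < 1) (s : Ω ≃ₐ[F] Ω)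
    (hs : ∀ x ∈ V, V.valuation (s x - x ^ Ideal.absNorm v.asIdeal) < 1) (a b : 𝓞 F) {X : Pt (W₀⁄F) Ω}
    (hX : ¬ Ker V X) (hx : V.valuation (xc X - ak Ω a) < 1) (hy : V.valuation (yc X - ak Ω b) < 1) :
    Ker V (ac (W₀⁄F) s X - X) := by
  obtain ⟨hX0, hxV, hyV⟩ := int_crd hG hX
  have hxi := (V.valuation_le_one_iff _).2 hxV
  have hyi := (V.valuation_le_one_iff _).2 hyV
  obtain ⟨a1, a2, a3⟩ := ac_crd s X
  have e1 : V.valuation (xc X ^ Ideal.absNorm v.asIdeal - xc X) < 1 := (g9_frob hv hxi).2 ⟨a, hx⟩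
  have e2 : V.valuation (yc X ^ Ideal.absNorm v.asIdeal - yc X) < 1 := (g9_frob hv hyi).2 ⟨b, hy⟩
  have e3 := g9_tri (hs _ hxV) e1
  have e4 := g9_tri (hs _ hyV) e2
  have hsX : ¬ Ker V (ac (W₀⁄F) s X) := by
    rw [ker_crd (fun h => hX0 (a3.1 h)), a1, not_lt]
    have : s (xc X) = (s (xc X) - xc X) + xc X := by ring
    rw [this]
    exact r2_add e3.le hxi
  apply cong_ker hG hsX hX
  · rw [a1]
    exact e3
  · rw [a2]
    exact e4

/-- A fixed class comes from a point modulo v. -/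
theorem r2_conv (W₀ : WeierstrassCurve (𝓞 F)) (hG : GoodW ((W₀⁄F)⁄Ω) V) (v : HeightOneSpectrum (𝓞 F))
    (hv : ∀ a : 𝓞 F, a ∈ v.asIdeal → V.valuation (ak Ω a) < 1) (s : Ω ≃ₐ[F] Ω)
    (hs : ∀ x ∈ V, V.valuation (s x - x ^ Ideal.absNorm v.asIdeal) < 1) {X : Pt (W₀⁄F) Ω}
    (hX : ¬ Ker V X) (hk : Ker V (ac (W₀⁄F) s X - X)) : ∃ a b : 𝓞 F, g9E W₀ a b ∈ v.asIdeal ∧
      V.valuation (xc X - ak Ω a) < 1 ∧ V.valuation (yc X - ak Ω b) < 1 := by
  obtain ⟨hX0, hxV, hyV⟩ := int_crd hG hX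
  have hxi := (V.valuation_le_one_iff _).2 hxV
  have hyi := (V.valuation_le_one_iff _).2 hyV
  obtain ⟨a1, a2, a3⟩ := ac_crd s X
  obtain ⟨-, hx1, hy1⟩ := cls_convR hG hX hk
  rw [a1] at hx1
  rw [a2] at hy1
  have e1 : V.valuation (xc X ^ Ideal.absNorm v.asIdeal - xc X) < 1 := by
    refine g9_tri ?_ hx1
    rw [Valuation.map_sub_swap]
    exact hs _ hxV
  have e2 : V.valuation (yc X ^ Ideal.absNorm v.asIdeal - yc X) < 1 := by
    refine g9_tri ?_ hy1
    rw [Valuation.map_sub_swap]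
    exact hs _ hyV
  obtain ⟨a, ha⟩ := (g9_frob hv hxi).1 e1
  obtain ⟨b, hb⟩ := (g9_frob hv hyi).1 e2
  refine ⟨a, b, ?_, ha, hb⟩
  rw [← g9_ker hv, r2_eval]
  have heq : yc X ^ 2 + ak Ω W₀.a₁ * xc X * yc X + ak Ω W₀.a₃ * yc X =
      xc X ^ 3 + ak Ω W₀.a₂ * xc X ^ 2 + ak Ω W₀.a₄ * xc X + ak Ω W₀.a₆ := by
    rcases X with _ | ⟨x, y, hn⟩
    · exact absurd rfl hX0
    · exact (Affine.equation_iff _ _).1 hn.1
  have hga := ak_le V a
  have hgb := ak_le V b
  set x' := ak Ω a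
  set y' := ak Ω b
  have h7 : y' ^ 2 + ak Ω W₀.a₁ * x' * y' + ak Ω W₀.a₃ * y' -
      (x' ^ 3 + ak Ω W₀.a₂ * x' ^ 2 + ak Ω W₀.a₄ * x' + ak Ω W₀.a₆) =
      -((yc X - y') * (yc X + y' + ak Ω W₀.a₁ * x' + ak Ω W₀.a₃)) +
        (xc X - x') * (xc X ^ 2 + xc X * x' + x' ^ 2 + ak Ω W₀.a₂ * (xc X + x') + ak Ω W₀.a₄ +
          -(ak Ω W₀.a₁ * yc X)) := by
    linear_combination heq
  rw [h7]
  refine Valuation.map_add_lt _ ?_ (g9_mul ha ?_)
  · rw [Valuation.map_neg]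
    exact g9_mul hb (r2_add (r2_add (r2_add hyi hgb) (r2_mul (ak_le V _) hga)) (ak_le V _))
  · rw [sq, sq]
    refine r2_add (r2_add (r2_add (r2_add (r2_add (r2_mul hxi hxi) (r2_mul hxi hga)) (r2_mul hga hga))
      (r2_mul (ak_le V _) (r2_add hxi hga))) (ak_le V _)) ?_
    rw [Valuation.map_neg]
    exact r2_mul (ak_le V _) hyi

/-- The class c is the class of the lifts of the point P. -/
def r2R (W₀ : WeierstrassCurve (𝓞 F)) (hG : GoodW ((W₀⁄F)⁄Ω) V) (v : HeightOneSpectrum (𝓞 F))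
    (P : (W₀⁄(𝓞 F ⧸ v.asIdeal)).toAffine.Point) (c : Pt (W₀⁄F) Ω ⧸ kerR hG) : Prop :=
  (P = 0 ∧ c = 0) ∨ ∃ (a b : 𝓞 F) (h : (W₀⁄(𝓞 F ⧸ v.asIdeal)).toAffine.Nonsingular (Ideal.Quotient.mk v.asIdeal a)
    (Ideal.Quotient.mk v.asIdeal b)) (X : Pt (W₀⁄F) Ω), P = .some _ _ h ∧ c = (X : Pt (W₀⁄F) Ω ⧸ kerR hG) ∧
      ¬ Ker V X ∧ V.valuation (xc X - ak Ω a) < 1 ∧ V.valuation (yc X - ak Ω b) < 1

omit [DecidableEq Ω] in
theorem r2_sub (v : HeightOneSpectrum (𝓞 F))
    (hv : ∀ a : 𝓞 F, a ∈ v.asIdeal → V.valuation (ak Ω a) < 1) (a a' : 𝓞 F) :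
    V.valuation (ak Ω a - ak Ω a') < 1 ↔ Ideal.Quotient.mk v.asIdeal a = Ideal.Quotient.mk v.asIdeal a' := by
  have h1 : ak Ω a - ak Ω a' = ak Ω (a - a') := by
    simp only [← g9h_eq, map_sub]
  rw [h1, g9_ker hv, ← Ideal.Quotient.eq]

/-- Chunk R2 (M/L). Port of H55K.red_card (G9B.lean) to the equation W₀ itself: any residue characteristic, no short form, so it is simpler: g9x Ω W₀ a is replaced by ak Ω a, g9y Ω W₀ a b by ak Ω b. Reusable (any number field): g9_ker, g9_frob, g9_tri, g9_mul, g9E, g9_nons, g9h, g9h_eq, ak_le. The steps: (lift) V(ak (g9E W₀ a b)) < 1: there is X in Pt (W₀⁄F) Ω, not Ker, xc X = ak a,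
V(yc X - ak b) < 1: the monic polynomial T^2 + (a₁ a + a₃) T - (a^3 + a₂ a^2 + a₄ a + a₆) over Ω has a root z (IsAlgClosed), the other root is z' = -(a₁ a + a₃) - z and (ak b - z)(ak b - z') = ak (g9E W₀ a b) (the coefficients of (W₀⁄F)⁄Ω are ak W₀.a₁ and so on), so V(ak b - z) < 1 or V(ak b - z') < 1; a point on the curve is nonsingular: Δ ≠ 0 (hG.disc), Affine.equation_iff_nonsingular_of_Δ_ne_zero.
(fix) as g9_fix: a X as above satisfies Ker V (ac s X - X): xc X, yc X are congruent to elements of 𝓞 F, so x^q - x has value < 1 (g9_frob), s x is congruent to x (hs): cong_ker (M3A.lean); s X is not in Ker: its x-coordinate s x is congruent to x. (conv) as g9_conv: X not in Ker, Ker V (ac s X - X): cls_convR (R1.lean) and hs and g9_frob: xc X, yc X are congruent to ak a, ak b;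
the equation gives g9E W₀ a b in v (g9_ker; difference of two polynomial expressions at congruent integral arguments; int_crd). Then the bijection as in red_card. xc, yc of ac: H55K.xc_ac, yc_ac or MG.ac_crd (M4B.lean). -/
theorem red_cardR [IsAlgClosed Ω] (W₀ : WeierstrassCurve (𝓞 F)) (hG : GoodW ((W₀⁄F)⁄Ω) V)
    (v : HeightOneSpectrum (𝓞 F)) (hΔ : W₀.Δ ∉ v.asIdeal)
    (hv : ∀ a : 𝓞 F, a ∈ v.asIdeal → V.valuation (ak Ω a) < 1) (s : Ω ≃ₐ[F] Ω)
    (hs : ∀ x ∈ V, V.valuation (s x - x ^ Ideal.absNorm v.asIdeal) < 1) :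
    Nat.card (W₀⁄(𝓞 F ⧸ v.asIdeal)).toAffine.Point =
      Nat.card {c : Pt (W₀⁄F) Ω ⧸ kerR hG // ∃ X : Pt (W₀⁄F) Ω, (X : Pt (W₀⁄F) Ω ⧸ kerR hG) = c ∧
        Ker V (ac (W₀⁄F) s X - X)} := by
  -- every point has a class
  have htot : ∀ P : (W₀⁄(𝓞 F ⧸ v.asIdeal)).toAffine.Point, ∃ c : {c : Pt (W₀⁄F) Ω ⧸ kerR hG //
      ∃ X : Pt (W₀⁄F) Ω, (X : Pt (W₀⁄F) Ω ⧸ kerR hG) = c ∧ Ker V (ac (W₀⁄F) s X - X)},
      r2R W₀ hG v P c.1 := by
    intro P
    rcases P with _ | ⟨x, y, h⟩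
    · refine ⟨⟨0, 0, rfl, ?_⟩, Or.inl ⟨rfl, rfl⟩⟩
      rw [map_zero, sub_zero]
      trivial
    · obtain ⟨a, rfl⟩ := Ideal.Quotient.mk_surjective x
      obtain ⟨b, rfl⟩ := Ideal.Quotient.mk_surjective y
      obtain ⟨X, hX, hXx, hXy⟩ := r2_lift W₀ hG a b (hv _ ((g9_nons W₀ v hΔ a b).1 h))
      have hXx' : V.valuation (xc X - ak Ω a) < 1 := by
        rw [hXx, sub_self, map_zero]
        exact zero_lt_one
      exact ⟨⟨(X : Pt (W₀⁄F) Ω ⧸ kerR hG), X, rfl, r2_fix W₀ hG v hv s hs a b hX hXx' hXy⟩,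
        Or.inr ⟨a, b, h, X, rfl, rfl, hX, hXx', hXy⟩⟩
  choose f hf using htot
  apply Nat.card_eq_of_bijective f
  have hno : ∀ X : Pt (W₀⁄F) Ω, ¬ Ker V X → (X : Pt (W₀⁄F) Ω ⧸ kerR hG) ≠ 0 := by
    intro X hX h
    exact hX ((QuotientAddGroup.eq_zero_iff X).1 h)
  constructor
  · intro P P' hPP
    have h1 := hf P
    have h2 := hf P'
    rw [← hPP] at h2
    rcases h1 with ⟨h1, h1'⟩ | ⟨a, b, h, X, hP, hc, hX, hx, hy⟩
    · rcases h2 with ⟨h2, h2'⟩ | ⟨a', b', h', X', hP', hc', hX', hx', hy'⟩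
      · rw [h1, h2]
      · exact (hno X' hX' (hc'.symm.trans h1')).elim
    · rcases h2 with ⟨h2, h2'⟩ | ⟨a', b', h', X', hP', hc', hX', hx', hy'⟩
      · exact (hno X hX (hc.symm.trans h2')).elim
      · have h3 : Ker V (X' - X) := by
          have h4 := hc.symm.trans hc'
          rw [QuotientAddGroup.eq, neg_add_eq_sub] at h4
          exact h4
        obtain ⟨-, h5, h6⟩ := cls_convR hG hX h3
        rw [Valuation.map_sub_swap] at h5 h6 hx hy
        have h7 : V.valuation (ak Ω a - ak Ω a') < 1 := g9_tri (g9_tri hx h5) hx'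
        have h8 : V.valuation (ak Ω b - ak Ω b') < 1 := g9_tri (g9_tri hy h6) hy'
        rw [hP, hP', Affine.Point.some.injEq]
        exact ⟨(r2_sub v hv a a').1 h7, (r2_sub v hv b b').1 h8⟩
  · rintro ⟨c, X, rfl, hX⟩
    by_cases hXk : Ker V X
    · refine ⟨0, ?_⟩
      apply Subtype.ext
      have h1 : (X : Pt (W₀⁄F) Ω ⧸ kerR hG) = 0 := (QuotientAddGroup.eq_zero_iff X).2 hXk
      show (f 0).1 = (X : Pt (W₀⁄F) Ω ⧸ kerR hG)
      rw [h1]
      rcases hf 0 with ⟨-, h2⟩ | ⟨a, b, h, X, hP, -⟩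
      · exact h2
      · exact absurd hP.symm (Affine.Point.some_ne_zero _)
    · obtain ⟨a, b, hE, hx, hy⟩ := r2_conv W₀ hG v hv s hs hXk hX
      refine ⟨.some _ _ ((g9_nons W₀ v hΔ a b).2 hE), ?_⟩
      apply Subtype.ext
      show (f _).1 = _
      rcases hf (.some _ _ ((g9_nons W₀ v hΔ a b).2 hE)) with ⟨h2, -⟩ | ⟨a', b', h', X', hP', hc', hX', hx', hy'⟩
      · exact absurd h2 (Affine.Point.some_ne_zero _)
      · rw [hc', QuotientAddGroup.eq, neg_add_eq_sub]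
        rw [Affine.Point.some.injEq] at hP'
        rw [Valuation.map_sub_swap] at hx' hy'
        exact cong_ker hG hXk hX' (g9_tri (g9_tri hx ((r2_sub v hv a a').2 hP'.1)) hx')
          (g9_tri (g9_tri hy ((r2_sub v hv b b').2 hP'.2)) hy')

end H13R
end

-- from Lib.H13Y.GN11a
section

open NumberField IsDedekindDomain WeierstrassCurve

namespace H13Y

open H55B H55R H28G H99B

/-- Chunk GN11a (S). There is a prime v of N above π (a prime of N above the prime span {π} of O); TotRam gives [L : N] = Nm π - 1 = card kˣ and χ is injective (TFld.gen: χ σ = 1 gives sp σ R = act 1 R = R): bijective. Compare H28G.chi_bij (K14.lean). -/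
theorem chi_bijN {π : O} (hp : Prime π) (hπ : Prim π) {N L : Type} [Field N]
    [NumberField N] [Field L] [NumberField L] [DecidableEq L] [Algebra F N] [Algebra N L] [Algebra F L]
    [IsScalarTower F N L] (hL : TFld N L π)
    (hun : ∀ v : Pl N, algebraMap O (𝓞 N) π ∈ v.asIdeal → v.valuation N (ak N π) = WithZero.exp (-1 : ℤ))
    {k : Type} [Field k] [Fintype k] (q : O →+* k) (hq : Function.Surjective q)
    (hk : ∀ x, q x = 0 ↔ π ∣ x) (χ : Gal(L/N) →* kˣ)
    (hχ : ∀ (σ : Gal(L/N)) (c : O), q c = χ σ → ∀ R ∈ Tor π L, sp σ R = act c R) :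
    Fintype.card k = Nm π ∧ Function.Bijective χ := by
  classical
  obtain ⟨v, hv⟩ : ∃ v : Pl N, algebraMap O (𝓞 N) π ∈ v.asIdeal := by
    have h1 : ¬ IsUnit (algebraMap O (𝓞 N) π) := by
      intro h
      exact hp.not_isUnit ((isUnit_map_iff (algebraMap O (𝓞 N)) π).1 h)
    have h0 : algebraMap O (𝓞 N) π ≠ 0 := by
      intro h
      apply hp.ne_zero
      exact (FaithfulSMul.algebraMap_injective O (𝓞 N)) (by rw [h, map_zero])
    obtain ⟨M, hM, hle⟩ := Ideal.exists_le_maximal (Ideal.span {algebraMap O (𝓞 N) π})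
      (by rwa [Ne, Ideal.span_singleton_eq_top])
    have hmem : algebraMap O (𝓞 N) π ∈ M := hle (Ideal.mem_span_singleton_self _)
    refine ⟨⟨M, hM.isPrime, ?_⟩, hmem⟩
    rintro rfl
    exact h0 (by simpa using hmem)
  have htot := tot_ram hp hπ hL v (hun v hv)
  have hgal : IsGalois N L := hL.gal
  have hfin : Finite kˣ := inferInstance
  refine ⟨by rw [← Nat.card_eq_fintype_card, K14_card q hq hk], ?_⟩
  rw [Nat.bijective_iff_injective_and_card]
  constructor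
  · rw [injective_iff_map_eq_one]
    intro σ hσ
    refine hL.gen σ fun R hR => ?_
    rw [hχ σ 1 (by rw [hσ, map_one, Units.val_one]) R hR, act_one]
  · rw [IsGalois.card_aut_eq_finrank, htot.deg, ← K14_card q hq hk, Nat.card_units]

end H13Y
end

-- from Lib.H13Y.GN6b
section

open NumberField IsDedekindDomain

namespace H13Y

open H55B H55R H28G H99B

section

variable {N L : Type} [Field N] [NumberField N] [Field L] [NumberField L] [Algebra N L]

/-- the twisted average of a function -/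
noncomputable def gn6b_F (ω : Gal(L/N) →* ℂˣ) (f : Lˣ → ℂ) (x : Lˣ) : ℂ :=
  ∑ σ : Gal(L/N), ((ω σ : ℂ))⁻¹ * f (guN σ x)

theorem gn6b_add (ω : Gal(L/N) →* ℂˣ) (f : Lˣ → ℂ) (hf : ∀ x y, f (x * y) = f x + f y) (x y : Lˣ) :
    gn6b_F ω f (x * y) = gn6b_F ω f x + gn6b_F ω f y := by
  unfold gn6b_F
  rw [← Finset.sum_add_distrib]
  refine Finset.sum_congr rfl fun σ _ => ?_
  rw [map_mul, hf, mul_add]

theorem gn6b_equiv (ω : Gal(L/N) →* ℂˣ) (f : Lˣ → ℂ) (g : Gal(L/N)) (x : Lˣ) :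
    gn6b_F ω f (guN g x) = (ω g : ℂ) * gn6b_F ω f x := by
  unfold gn6b_F
  rw [Finset.mul_sum]
  refine Fintype.sum_equiv (Equiv.mulRight g) _ _ fun σ => ?_
  have h1 : guN σ (guN g x) = guN (σ * g) x := by
    rw [map_mul]
    rfl
  rw [Equiv.coe_mulRight, ← h1, map_mul, Units.val_mul, mul_inv]
  have h2 : (ω g : ℂ) ≠ 0 := (ω g).ne_zero
  field_simp

/-- the functionals -/
noncomputable def gn6b_psi (ω : Gal(L/N) →* ℂˣ) (u : InfinitePlace N → InfinitePlace L) (Q : Pl L) :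
    Option (InfinitePlace N) → Lˣ → ℂ
  | none => gn6b_F ω (fun x => ((ord Q x : ℤ) : ℂ))
  | some v => gn6b_F ω (fun x => ((Real.log (u v (x : L)) : ℝ) : ℂ))

theorem gn6b_psi_add (ω : Gal(L/N) →* ℂˣ) (u : InfinitePlace N → InfinitePlace L) (Q : Pl L)
    (i : Option (InfinitePlace N)) (x y : Lˣ) :
    gn6b_psi ω u Q i (x * y) = gn6b_psi ω u Q i x + gn6b_psi ω u Q i y := by
  cases i with
  | none =>
    refine gn6b_add ω (fun x => ((ord Q x : ℤ) : ℂ)) (fun x y => ?_) x y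
    show ((ord Q (x * y) : ℤ) : ℂ) = ((ord Q x : ℤ) : ℂ) + ((ord Q y : ℤ) : ℂ)
    rw [ord_mul]
    push_cast
    rfl
  | some v =>
    refine gn6b_add ω (fun x => ((Real.log (u v (x : L)) : ℝ) : ℂ)) (fun x y => ?_) x y
    show ((Real.log (u v ((x * y : Lˣ) : L)) : ℝ) : ℂ) =
      ((Real.log (u v (x : L)) : ℝ) : ℂ) + ((Real.log (u v (y : L)) : ℝ) : ℂ)
    rw [Units.val_mul, map_mul, Real.log_mul (by simp) (by simp)]
    push_cast
    rfl

theorem gn6b_psi_equiv (ω : Gal(L/N) →* ℂˣ) (u : InfinitePlace N → InfinitePlace L) (Q : Pl L)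
    (i : Option (InfinitePlace N)) (g : Gal(L/N)) (x : Lˣ) :
    gn6b_psi ω u Q i (guN g x) = (ω g : ℂ) * gn6b_psi ω u Q i x := by
  cases i with
  | none => exact gn6b_equiv ω (fun x => ((ord Q x : ℤ) : ℂ)) g x
  | some v => exact gn6b_equiv ω (fun x => ((Real.log (u v (x : L)) : ℝ) : ℂ)) g x

theorem gn6b_cpx (hc : ∀ v : InfinitePlace N, v.IsComplex) (w : InfinitePlace L) : w.IsComplex := by
  rw [← InfinitePlace.not_isReal_iff_isComplex]
  intro h
  exact (InfinitePlace.not_isReal_iff_isComplex.2 (hc (w.comap (algebraMap N L)))) (h.comap _)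

theorem gn6b_some [IsGalois N L] (hc : ∀ v : InfinitePlace N, v.IsComplex) (ω : Gal(L/N) →* ℂˣ)
    (hω : ω ≠ 1) (u : InfinitePlace N → InfinitePlace L)
    (hu : Function.Bijective fun p : Gal(L/N) × InfinitePlace N =>
      (u p.2).comap ((p.1 : L ≃ₐ[N] L) : L →+* L))
    (w : Pl N) (Q : Pl L) (c : Option (InfinitePlace N) → ℂ)
    (h : ∀ x ∈ SU L w, ∑ i, c i * gn6b_psi ω u Q i x = 0) (v : InfinitePlace N) : c (some v) = 0 := by
  let e : Gal(L/N) × InfinitePlace N ≃ InfinitePlace L := Equiv.ofBijective _ hu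
  have he : ∀ p, e p = (u p.2).comap ((p.1 : L ≃ₐ[N] L) : L →+* L) := fun p => rfl
  let b : InfinitePlace L → ℂ := fun w' => c (some (e.symm w').2) * ((ω (e.symm w').1 : ℂ))⁻¹
  have hb : ∀ p, b (e p) = c (some p.2) * ((ω p.1 : ℂ))⁻¹ := by
    intro p
    show c (some (e.symm (e p)).2) * ((ω (e.symm (e p)).1 : ℂ))⁻¹ = _
    rw [Equiv.symm_apply_apply]
  have hrel : ∀ y : (𝓞 L)ˣ, ∑ w' : InfinitePlace L, b w' * (Real.log (w' ((y : 𝓞 L) : L)) : ℂ) = 0 := by
    intro y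
    set x : Lˣ := Units.map (algebraMap (𝓞 L) L : 𝓞 L →* L) y with hx
    have hxv : (x : L) = ((y : 𝓞 L) : L) := rfl
    have hord : ∀ v : Pl L, ord v x = 0 := HA7_ord_unit y
    have h1 := h x (fun v _ => hord v)
    rw [Fintype.sum_option] at h1
    have h2 : gn6b_psi ω u Q none x = 0 := by
      show ∑ σ : Gal(L/N), ((ω σ : ℂ))⁻¹ * ((ord Q (guN σ x) : ℤ) : ℂ) = 0
      refine Finset.sum_eq_zero fun σ _ => ?_
      rw [ord_guN, hord]
      simp
    rw [h2, mul_zero, zero_add] at h1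
    rw [← h1, ← Equiv.sum_comp e, Fintype.sum_prod_type_right]
    refine Finset.sum_congr rfl fun v' _ => ?_
    show _ = c (some v') * ∑ σ : Gal(L/N), ((ω σ : ℂ))⁻¹ * ((Real.log (u v' (guN σ x : Lˣ)) : ℝ) : ℂ)
    rw [Finset.mul_sum]
    refine Finset.sum_congr rfl fun σ _ => ?_
    rw [hb (σ, v'), mul_assoc]
    rfl
  have hconst := dir_rel (gn6b_cpx hc) b hrel
  obtain ⟨g, hg⟩ : ∃ g, ω g ≠ 1 := by
    by_contra hh
    push Not at hh
    exact hω (MonoidHom.ext hh)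
  have h3 := hconst (e (1, v)) (e (g, v))
  rw [hb, hb] at h3
  by_contra hcv
  have h4 := mul_left_cancel₀ hcv h3
  apply hg
  rw [map_one, Units.val_one, inv_one] at h4
  have h5 : (ω g : ℂ) = 1 := by
    rw [eq_comm, inv_eq_one] at h4
    exact h4
  exact Units.ext h5

theorem gn6b_none (ω : Gal(L/N) →* ℂˣ) (u : InfinitePlace N → InfinitePlace L)
    (w : Pl N) (Q : Pl L) (hQ : Q.under (𝓞 N) = w) (hst : ∀ σ : Gal(L/N), smulP σ Q = Q → σ = 1)
    (c : Option (InfinitePlace N) → ℂ)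
    (h : ∀ x ∈ SU L w, ∑ i, c i * gn6b_psi ω u Q i x = 0) (hv : ∀ v, c (some v) = 0) : c none = 0 := by
  obtain ⟨m, z, hm, hz, hz2⟩ := exists_zQ Q
  have h1 := h z (fun v hv' => hz2 v (by rintro rfl; exact hv' hQ))
  rw [Fintype.sum_option] at h1
  have h2 : ∑ v : InfinitePlace N, c (some v) * gn6b_psi ω u Q (some v) z = 0 :=
    Finset.sum_eq_zero fun v _ => by rw [hv, zero_mul]
  rw [h2, add_zero] at h1
  have h3 : gn6b_psi ω u Q none z = (m : ℂ) := by
    show ∑ σ : Gal(L/N), ((ω σ : ℂ))⁻¹ * ((ord Q (guN σ z) : ℤ) : ℂ) = _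
    rw [Finset.sum_eq_single 1]
    · rw [ord_guN, inv_one, smulP_one, hz, map_one, Units.val_one, inv_one, one_mul]
      push_cast
      rfl
    · intro σ _ hσ
      rw [ord_guN, hz2 _ (fun h4 => hσ (inv_eq_one.1 (hst _ h4)))]
      simp
    · intro h4
      exact absurd (Finset.mem_univ _) h4
  rw [h3] at h1
  rcases mul_eq_zero.1 h1 with h4 | h4
  · exact h4
  · exact absurd (Nat.cast_eq_zero.1 h4) hm

end

/-- Chunk GN6b (M). The functionals: ψ (some v) x = sum over σ of (ω σ)⁻¹ log (u v (σ x)) (u of places_bij), ψ none x = sum over σ of (ω σ)⁻¹ ord Q (guN σ x). Additive; ψ i (guN g x) = ω g ψ i x (substitution σ -> σ g⁻¹).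
Independence. Units u of 𝓞 L (as elements of Lˣ) lie in SU L w and ψ none vanishes on them. Let c satisfy the relation. On units: sum over v, σ of c (some v) (ω σ)⁻¹ log (((u v).comap σ) x) = 0, that is the sum over all infinite places w' of b w' log w' x, b ((u v).comap σ) = c (some v) (ω σ)⁻¹ (places_bij: reindex). The places of L are complex (above complex places). dir_rel: b is constant. σ = 1 and σ = g with ω g ≠ 1 (ω ≠ 1): c (some v) (1 - (ω g)⁻¹) = 0, c (some v) = 0.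
Then c none * ψ none z = 0 for the z of exists_zQ (GN7) for Q: z in SU L w (Q is above w); ord Q (guN σ z) = ord (smulP σ⁻¹ Q) z = h if σ = 1 and 0 otherwise (hst), ψ none z = h ≠ 0. -/
theorem exists_psi {N L : Type} [Field N] [NumberField N] [Field L] [NumberField L] [Algebra N L]
    [IsGalois N L] (hc : ∀ v : InfinitePlace N, v.IsComplex) (ω : Gal(L/N) →* ℂˣ) (hω : ω ≠ 1)
    (w : Pl N) (Q : Pl L) (hQ : Q.under (𝓞 N) = w) (hst : ∀ σ : Gal(L/N), smulP σ Q = Q → σ = 1) :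
    ∃ ψ : Option (InfinitePlace N) → Lˣ → ℂ,
      (∀ i x y, ψ i (x * y) = ψ i x + ψ i y) ∧
      (∀ i (g : Gal(L/N)) x, ψ i (guN g x) = (ω g : ℂ) * ψ i x) ∧
      ∀ c : Option (InfinitePlace N) → ℂ, (∀ x ∈ SU L w, ∑ i, c i * ψ i x = 0) → c = 0 := by
  obtain ⟨u, hu⟩ := places_bij (L := L) hc
  refine ⟨gn6b_psi ω u Q, gn6b_psi_add ω u Q, gn6b_psi_equiv ω u Q, fun c h => ?_⟩
  have hv := gn6b_some hc ω hω u hu w Q c h
  funext i
  cases i with
  | none => exact gn6b_none ω u w Q hQ hst c h hv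
  | some v => exact hv v

end H13Y
end

-- from Lib.H13Y.GN9b
section

open NumberField IsDedekindDomain WeierstrassCurve

namespace H13Y

open H55B H55R H28G H99B

theorem gn9b_tower {N L : Type} [Field N] [NumberField N] [Field L] [NumberField L] [Algebra F N]
    [Algebra N L] [Algebra F L] [IsScalarTower F N L] (y : O) :
    algebraMap O (𝓞 L) y = algebraMap (𝓞 N) (𝓞 L) (algebraMap O (𝓞 N) y) := by
  apply RingOfIntegers.ext
  exact IsScalarTower.algebraMap_apply F N L (y : F)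

theorem gn9b_surj {N L : Type} [Field N] [NumberField N] [Field L] [NumberField L] [Algebra N L] [IsGalois N L]
    (v : Pl N) (w : Pl L) (hw : w.under (𝓞 N) = v) (hf : fs N L v = 1) (b : 𝓞 L ⧸ w.asIdeal) :
    ∃ y : 𝓞 N, Ideal.Quotient.mk w.asIdeal (algebraMap (𝓞 N) (𝓞 L) y) = b := by
  have hu : ∀ y : 𝓞 N, y ∈ v.asIdeal ↔ algebraMap (𝓞 N) (𝓞 L) y ∈ w.asIdeal := by
    intro y
    rw [← hw]
    exact Iff.rfl
  let φ : (𝓞 N ⧸ v.asIdeal) →+* (𝓞 L ⧸ w.asIdeal) :=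
    Ideal.quotientMap w.asIdeal (algebraMap (𝓞 N) (𝓞 L)) fun y hy => (hu y).1 hy
  have hφ1 : Function.Injective φ := Ideal.quotientMap_injective' fun y hy => (hu y).2 hy
  have hfin1 : Finite (𝓞 N ⧸ v.asIdeal) := Ideal.finiteQuotientOfFreeOfNeBot v.asIdeal v.ne_bot
  have hfin2 : Finite (𝓞 L ⧸ w.asIdeal) := Ideal.finiteQuotientOfFreeOfNeBot w.asIdeal w.ne_bot
  have hcard : Nat.card (𝓞 N ⧸ v.asIdeal) = Nat.card (𝓞 L ⧸ w.asIdeal) := by
    have h1 := D5_norm v w hw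
    rw [hf, pow_one, Ideal.absNorm_apply, Ideal.absNorm_apply, Submodule.cardQuot_apply,
      Submodule.cardQuot_apply] at h1
    exact h1.symm
  have hφ : Function.Bijective φ := (Nat.bijective_iff_injective_and_card φ).2 ⟨hφ1, hcard⟩
  obtain ⟨z, hz⟩ := hφ.2 b
  obtain ⟨y, rfl⟩ := Ideal.Quotient.mk_surjective z
  exact ⟨y, hz⟩

theorem gn9b_ram {N L : Type} [Field N] [NumberField N] [Field L] [NumberField L] [Algebra N L] [IsGalois N L]
    (v : Pl N) (w : Pl L) (hw : w.under (𝓞 N) = v) (he : 2 ≤ es N L v) (y : 𝓞 N)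
    (hy : algebraMap (𝓞 N) (𝓞 L) y ∈ w.asIdeal) :
    w.valuation L (algebraMap N L (y : N)) ≤ WithZero.exp (-2 : ℤ) := by
  have hyv : y ∈ v.asIdeal := by
    rw [← hw]
    exact hy
  by_cases h0 : (y : N) = 0
  · rw [h0, map_zero, map_zero]
    exact zero_le
  · let u : Nˣ := Units.mk0 (y : N) h0
    have h1 : v.valuation N (y : N) < 1 := (v.valuation_lt_one_iff_mem y).2 hyv
    have h2 := BF1_val v u
    have h3 : (u : N) = (y : N) := rfl
    rw [h3] at h2
    rw [h2, ← WithZero.exp_zero, WithZero.exp_lt_exp] at h1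
    have h4 := ord_map w v hw u
    have h5 := BF1_val w (Units.map (algebraMap N L : N →* L) u)
    have h6 : ((Units.map (algebraMap N L : N →* L) u : Lˣ) : L) = algebraMap N L (y : N) := rfl
    rw [h6, h4] at h5
    rw [h5, WithZero.exp_le_exp]
    have h7 : (2 : ℤ) ≤ (es N L v : ℤ) := by exact_mod_cast he
    have h8 : 1 ≤ ord v u := by omega
    nlinarith

/-- Chunk GN9b (M), PORT of H28G.exists_loc (K7.lean) to the base field N, at every prime W above π. TotRam N L π v for v = W.under (𝓞 N) (tot_ram hp hπ hL v (hun v ..)); t = tt T, T in Tor π L, T ≠ 0 (exists_tor hp hL.full), ord W t = 1 (TotRam.val). j: k →+* Kap W: k = O/(π) through q (hq, hk) and O → 𝓞 L → Kap W kills π: j (q c) = kmk W (algebraMap c) (Ideal.Quotient.lift and the isomorphism O/ker q ≃ k, as q' in K7_res).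
surj: fs N L v = 1, so 𝓞 N / v → 𝓞 L / W is bijective (D5_norm and cardinalities, as in K7_res). ram: y in W ∩ 𝓞 N = v, W.valuation y ≤ exp(-es), es = Nm π - 1 ≥ 2 (ord_map / valuation of y at v ≤ exp(-1)). inv: TotRam.one, under_smulP. act: r y = j (χ σ) = kmk W c with q c = χ σ, c in O: sp σ T = act c T (hχ), so W.valuation (σ t - c t) ≤ exp(-2) (E1_act, tt_sp), y - c in W ∩ 𝓞 N, W.valuation ((y - c) t) ≤ exp(-2) by ram. -/
theorem exists_locN {l : ℕ} [Fact l.Prime] {π : O} (hp : Prime π) (hπ : Prim π) {N L : Type} [Field N]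
    [NumberField N] [Field L] [NumberField L] [DecidableEq L] [Algebra F N] [Algebra N L] [Algebra F L]
    [IsScalarTower F N L] (hL : TFld N L π) (h2 : 2 < Nm π)
    (hun : ∀ v : Pl N, algebraMap O (𝓞 N) π ∈ v.asIdeal → v.valuation N (ak N π) = WithZero.exp (-1 : ℤ))
    {k : Type} [Field k] (q : O →+* k) (hq : Function.Surjective q) (hk : ∀ x, q x = 0 ↔ π ∣ x)
    (χ : Gal(L/N) →* kˣ) (hχ : ∀ (σ : Gal(L/N)) (c : O), q c = χ σ → ∀ R ∈ Tor π L, sp σ R = act c R)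
    (W : Pl L) (hW : algebraMap O (𝓞 L) π ∈ W.asIdeal) :
    ∃ (j : k →+* Kap W) (t : Lˣ), LocN j χ W t (kmk W) := by
  have hgal : IsGalois N L := hL.gal
  obtain ⟨v, hWv⟩ : ∃ v : Pl N, W.under (𝓞 N) = v := ⟨_, rfl⟩
  have hmem : ∀ y : 𝓞 N, y ∈ v.asIdeal ↔ algebraMap (𝓞 N) (𝓞 L) y ∈ W.asIdeal := by
    intro y
    rw [← hWv]
    exact Iff.rfl
  have hv : algebraMap O (𝓞 N) π ∈ v.asIdeal := by
    rw [hmem, ← gn9b_tower]
    exact hW
  have TR := tot_ram hp hπ hL v (hun v hv)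
  have he : 2 ≤ es N L v := by
    rw [TR.es]
    omega
  obtain ⟨T, hT, h0⟩ := exists_tor hp hL.full
  obtain ⟨hT1, hT2⟩ := TR.val W hWv T hT h0
  have ht0 : tt T ≠ 0 := by
    intro h
    rw [h, map_zero] at hT2
    exact WithZero.exp_ne_zero hT2.symm
  have hψ : ∀ a : O, q a = 0 → ((kmk W).comp (algebraMap O (𝓞 L))) a = 0 := by
    intro a ha
    rw [hk] at ha
    obtain ⟨c, rfl⟩ := ha
    rw [map_mul, RingHom.comp_apply, (kmk_zero W _).2 hW, zero_mul]
  let j : k →+* Kap W := q.liftOfSurjective hq ⟨(kmk W).comp (algebraMap O (𝓞 L)), fun a ha => hψ a ha⟩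
  have hj : ∀ y : O, j (q y) = kmk W (algebraMap (𝓞 N) (𝓞 L) (algebraMap O (𝓞 N) y)) := by
    intro y
    rw [← gn9b_tower]
    exact RingHom.liftOfRightInverse_comp_apply q (Function.surjInv hq) (Function.rightInverse_surjInv hq)
      ⟨(kmk W).comp (algebraMap O (𝓞 L)), fun a ha => hψ a ha⟩ y
  refine ⟨j, Units.mk0 (tt T) ht0, ⟨fun x => kmk_zero W x, fun b => ?_, fun y hy => ?_, fun σ => ?_, ?_,
    fun σ y hy => ?_⟩⟩
  · exact gn9b_surj v W hWv TR.fs b
  · exact gn9b_ram v W hWv he y ((kmk_zero W _).1 hy)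
  · exact TR.one _ _ ((under_smulP σ W).trans hWv) hWv
  · have h1 := BF1_val W (Units.mk0 (tt T) ht0)
    rw [Units.val_mk0, hT2, WithZero.exp_inj] at h1
    omega
  · obtain ⟨c, hc⟩ := hq (χ σ : k)
    have h1 := hχ σ c hc T hT
    have h4 := (E1_act (W.valuation L) (P := T) (Or.inr hT1) c).2.1
    rw [← h1, tt_sp, hT2] at h4
    have h5 : W.valuation L (algebraMap N L (((y - algebraMap O (𝓞 N) c : 𝓞 N)) : N)) ≤
        WithZero.exp (-2 : ℤ) := by
      refine gn9b_ram v W hWv he _ ((kmk_zero W _).1 ?_)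
      rw [map_sub, map_sub, hy, ← hc, hj, sub_self]
    have h6 : ((y - algebraMap O (𝓞 N) c : 𝓞 N) : N) = (y : N) - algebraMap F N (c : F) := rfl
    have h10 : algebraMap N L (y : N) - algebraMap F L (c : F) =
        algebraMap N L (((y - algebraMap O (𝓞 N) c : 𝓞 N)) : N) := by
      rw [h6, map_sub, IsScalarTower.algebraMap_apply F N L]
    rw [← h10] at h5
    have h7 : σ ((Units.mk0 (tt T) ht0 : Lˣ) : L) - algebraMap N L (y : N) * ((Units.mk0 (tt T) ht0 : Lˣ) : L) =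
        (σ (tt T) - ak L c * tt T) - (algebraMap N L (y : N) - algebraMap F L (c : F)) * tt T := by
      have h8 : ak L c = algebraMap F L (c : F) := rfl
      rw [Units.val_mk0, h8]
      ring
    rw [h7]
    have h9 : (WithZero.exp (-1 : ℤ)) ^ 2 = (WithZero.exp (-2 : ℤ)) := by
      rw [← WithZero.exp_nsmul]
      norm_num
    rw [h9] at h4
    refine (W.valuation L).map_sub_le h4 ?_
    rw [map_mul, hT2]
    refine (mul_le_of_le_one_right' ?_).trans h5
    rw [← WithZero.exp_zero, WithZero.exp_le_exp]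
    norm_num

end H13Y
end

-- from Lib.H13Y.GN11b
section

open NumberField IsDedekindDomain WeierstrassCurve

namespace H13Y

open H55B H55R H28G H99B

/-- The elements of SU killed by a homomorphism. -/
def gn11b_K {N L : Type} [Field N] [NumberField N] [Field L] [NumberField L] [Algebra N L] (w : Pl N)
    {Λ : Type} [AddCommGroup Λ] (f : Lˣ → Λ)
    (f1 : ∀ x ∈ SU L w, ∀ y ∈ SU L w, f (x * y) = f x + f y) : Subgroup Lˣ where
  carrier := {y | y ∈ SU L w ∧ f y = 0}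
  mul_mem' := fun {x y} hx hy => ⟨mul_mem hx.1 hy.1, by rw [f1 x hx.1 y hy.1, hx.2, hy.2, add_zero]⟩
  one_mem' := ⟨one_mem _, by
    have h := f1 1 (one_mem _) 1 (one_mem _)
    rw [mul_one] at h
    exact left_eq_add.mp h⟩
  inv_mem' := fun {x} hx => ⟨inv_mem hx.1, by
    have h1 : f 1 = 0 := by
      have h := f1 1 (one_mem _) 1 (one_mem _)
      rw [mul_one] at h
      exact left_eq_add.mp h
    have h := f1 x hx.1 x⁻¹ (inv_mem hx.1)
    rw [mul_inv_cancel, h1, hx.2, zero_add] at h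
    exact h.symm⟩


theorem gn11b_units {l : ℕ} [Fact l.Prime] (h5 : 5 ≤ l) {k : Type} [Field k] [Fintype k] [CharP k l] :
    5 ≤ Fintype.card k ∧ ∃ u : kˣ, u ≠ 1 := by
  classical
  obtain ⟨n, -, hn⟩ := FiniteField.card k l
  have h1 : 5 ≤ Fintype.card k := by
    rw [hn]
    exact h5.trans (Nat.le_self_pow n.pos.ne' l)
  refine ⟨h1, ?_⟩
  have h2 : 1 < Fintype.card kˣ := by
    rw [Fintype.card_units]
    omega
  have h3 : Nontrivial kˣ := Fintype.one_lt_card_iff_nontrivial.1 h2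
  exact exists_ne 1

/-- Chunk GN11b (M). Assembly. ρ (exists_rho), V, ω (exists_teich), ω ≠ 1 because ω is injective and Gal(L/N) ≅ kˣ is not trivial (card k = Nm π > 2: H28G.arith); a prime Q of L above w (under_exists); exists_psi, places_card; exists_locN, TotRam.one, exists_Lam; for x in SU L w and W above π: W.under (𝓞 N) ≠ w (hwπ) so ord W x = 0.
gn_alg with A = SU L w, ι = Option (InfinitePlace N) (card = [N : F] + 1): x with f x = 0 and M x not an l-th power in SU L w, so (SU_pow) not an l-th power in Lˣ. m a = pw guN (cf χ ρ a) x: etaN_hom, pwN_mem (ord v (m a) = 0 for v not above w); Lev: f (m a) = sum over δ of cf χ ρ a δ • f (guN δ x) = (a multiple of) f x = 0 (f additive, also for integral powers; or: the elements y of SU L w with f y = 0 form a subgroup stable under guN). The last clause: a = 1. -/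
theorem glob_N {l : ℕ} [Fact l.Prime] (h5 : 5 ≤ l) {π : O} (hp : Prime π) (hπ : Prim π)
    (hd : π ∣ (l : O)) {N L : Type} [Field N] [NumberField N] [Field L] [NumberField L] [DecidableEq L]
    [Algebra F N] [Algebra N L] [Algebra F L] [IsScalarTower F N L] (hL : TFld N L π)
    (hun : ∀ v : Pl N, algebraMap O (𝓞 N) π ∈ v.asIdeal → v.valuation N (ak N π) = WithZero.exp (-1 : ℤ))
    {k : Type} [Field k] [Fintype k] [DecidableEq k] [CharP k l] (q : O →+* k)
    (hq : Function.Surjective q) (hk : ∀ x, q x = 0 ↔ π ∣ x) (χ : Gal(L/N) →* kˣ)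
    (hχ : ∀ (σ : Gal(L/N)) (c : O), q c = χ σ → ∀ R ∈ Tor π L, sp σ R = act c R) (w : Pl N)
    (hwπ : algebraMap O (𝓞 N) π ∉ w.asIdeal)
    (hst : ∀ Q : Pl L, Q.under (𝓞 N) = w → ∀ σ : Gal(L/N), smulP σ Q = Q → σ = 1) :
    ∃ m : k → Lˣ, EqHomN l χ m ∧
      (∀ (a : k) (v : Pl L), v.under (𝓞 N) ≠ w → (l : ℤ) ∣ ord v (m a)) ∧
      (∀ (a : k) (W : Pl L), algebraMap O (𝓞 L) π ∈ W.asIdeal → Lev l W (m a)) ∧
      ∃ a : k, ∀ z : Lˣ, m a ≠ z ^ l := by
  have hgal : IsGalois N L := hL.gal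
  have hl : l.Prime := Fact.out
  obtain ⟨hcard, hχb⟩ := chi_bijN hp hπ hL hun q hq hk χ hχ
  obtain ⟨ρ, hρ⟩ := exists_rho l k
  obtain ⟨V, ω, hV, hωi, hω⟩ := exists_teich l χ hχb.1
  obtain ⟨hk5, u, hu⟩ := gn11b_units h5 (k := k)
  have h2 : 2 < Nm π := by
    rw [← hcard]
    omega
  have hω1 : ω ≠ 1 := by
    intro h
    obtain ⟨g, hg⟩ := hχb.2 u
    apply hu
    have h3 : g = 1 := hωi (by rw [h]; rfl)
    rw [← hg, h3, map_one]
  obtain ⟨Q, hQ⟩ := under_exists (L := L) w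
  obtain ⟨hc, hcardN⟩ := places_card N
  obtain ⟨ψ, p1, p2, p3⟩ := exists_psi hc ω hω1 w Q hQ (hst Q hQ)
  have htow : ∀ c : O, algebraMap O (𝓞 L) c = algebraMap (𝓞 N) (𝓞 L) (algebraMap O (𝓞 N) c) :=
    fun c => RingOfIntegers.ext (IsScalarTower.algebraMap_apply F N L (c : F))
  have hmem : ∀ W : Pl L, algebraMap O (𝓞 L) π ∈ W.asIdeal →
      algebraMap O (𝓞 N) π ∈ (W.under (𝓞 N)).asIdeal := by
    intro W hW
    rw [htow] at hW
    exact hW
  have hone : ∀ W W' : Pl L, algebraMap O (𝓞 L) π ∈ W.asIdeal → W.under (𝓞 N) = W'.under (𝓞 N) →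
      W = W' := by
    intro W W' hW hWW
    exact (tot_ram hp hπ hL (W.under (𝓞 N)) (hun _ (hmem W hW))).one W W' rfl hWW.symm
  have hloc : ∀ W : Pl L, algebraMap O (𝓞 L) π ∈ W.asIdeal →
      ∃ (j : k →+* Kap W) (t : Lˣ), LocN j χ W t (kmk W) := fun W hW =>
    exists_locN (l := l) hp hπ hL h2 hun q hq hk χ hχ W hW
  obtain ⟨Λ, i1, i2, i3, f, hfin, f1, f2, f3⟩ := exists_Lam hp.ne_zero hcard χ hone hloc
  have hdv : ∀ x ∈ SU L w, ∀ W : Pl L, algebraMap O (𝓞 L) π ∈ W.asIdeal → (l : ℤ) ∣ ord W x := by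
    intro x hx W hW
    have h3 : W.under (𝓞 N) ≠ w := by
      intro h
      apply hwπ
      rw [← h]
      exact hmem W hW
    rw [hx W h3]
    exact dvd_zero _
  have f1' : ∀ x ∈ SU L w, ∀ y ∈ SU L w, f (x * y) = f x + f y := fun x hx y hy =>
    f1 x y (hdv x hx) (hdv y hy)
  have f2' : ∀ g : Gal(L/N), ∀ x ∈ SU L w, f (guN g x) = (χ g : k) • f x := fun g x hx =>
    f2 g x (hdv x hx)
  obtain ⟨x, hx, hfx, hnx⟩ := gn_alg χ hχb ρ hρ (guN : Gal(L/N) →* Monoid.End Lˣ) (SU L w)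
    (fun g x hx => SU_act g hx) f f1' f2' (ι := Option (InfinitePlace N)) (by
      rw [Fintype.card_option, hcardN]
      omega) V hV ω hω ψ (fun i x _ y _ => p1 i x y) (fun i g x _ => p2 i g x) p3 (SU_fg w)
  have hK : ∀ g : Gal(L/N), guN g x ∈ gn11b_K w f f1' := by
    intro g
    refine ⟨SU_act g hx, ?_⟩
    rw [f2' g x hx, hfx, smul_zero]
  have hm0 : ∀ a : k, pw guN (cf χ ρ a) x ∈ gn11b_K w f f1' := by
    intro a
    unfold pw
    exact Subgroup.prod_mem _ fun g _ => Subgroup.zpow_mem _ (hK g) _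
  refine ⟨fun a => pw guN (cf χ ρ a) x, etaN_hom χ ρ x, ?_, ?_, 1, ?_⟩
  · intro a v hv
    show (l : ℤ) ∣ ord v (pw guN (cf χ ρ a) x)
    rw [(hm0 a).1 v hv]
    exact dvd_zero _
  · intro a W hW
    exact f3 _ (hdv _ (hm0 a).1) (hm0 a).2 W hW
  · intro z hz
    exact hnx z (SU_pow hl.ne_zero (hm0 1).1 hz) hz

end H13Y
end

-- from Lib.H13S.DC
section

open NumberField IsDedekindDomain

namespace H13S

open H55P H28G H55B

variable {Ω : Type} [Field Ω] [DecidableEq Ω] [Algebra F Ω] [IsAlgClosure F Ω]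

theorem dc_prim_cj {x : O} (h : Prim x) : Prim (cj x) := by
  obtain ⟨y, hy⟩ := h
  refine ⟨cj y, ?_⟩
  have h1 := congrArg cj hy
  rw [map_sub, map_one, map_mul, map_ofNat] at h1
  exact h1

theorem dc_Nm_cj (x : O) : H55B.Nm (cj x) = H55B.Nm x := by
  have h1 := mul_cj x
  have h2 := mul_cj (cj x)
  rw [cj_cj, mul_comm, h1] at h2
  exact_mod_cast h2.symm

theorem dc_Nm_nat (l : ℕ) : H55B.Nm (l : O) = l ^ 2 := by
  have h := Nm_repr (l : ℤ) 0
  simp only [Int.cast_natCast, Int.cast_zero, zero_mul, add_zero] at h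
  have h2 : (H55B.Nm (l : O) : ℤ) = (l : ℤ) ^ 2 := by rw [h]; ring
  exact_mod_cast h2

/-- Chunk DC (S/M), arithmetic. pi primary prime above l ≥ 5: either cj pi = pi and Nm pi = l^2, or pi does not divide cj pi, Nm pi = l, and then pi does not divide
cj pi - 1. Proof: pi divides l, so Nm pi divides l^2 and Nm pi = l or l^2. If Nm pi = l^2: pi and l are associated (l = pi x, Nm x = 1), cj pi is associated to pi, and
primary elements which are associated (and prime to 3) are equal. If Nm pi = l: if pi divided cj pi then cj pi = u pi, = pi (primary), pi^2 = l: but l is not a square of an Eisenstein integer (pi =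
a + b om = cj pi gives b = 0, a^2 = l, false). If pi divides cj pi - 1 then pi divides the integer t = pi + cj pi - 1, so l divides t (Nm); |pi + cj pi| ≤ 2 sqrt l, so |t| ≤ 2 sqrt l + 1 < l for
l ≥ 7 (l = 5: Nm pi = 5 is impossible, a^2 - a b + b^2 = 5 has no solution, norms are 0 or 1 modulo 3), so t = 0; but t = 1 + 1 - 1 = 1 modulo 3. -/
theorem dichotomy (π : O) (l : ℕ) (hl : l.Prime) (h5 : 5 ≤ l) (hπ : Prime π) (h3 : Prim π)
    (hd : π ∣ (l : O)) : (cj π = π ∧ H55B.Nm π = l ^ 2) ∨ (¬ π ∣ cj π ∧ H55B.Nm π = l ∧ ¬ π ∣ cj π - 1) := by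
  obtain ⟨x, hx⟩ := hd
  have hl0 : (l : O) ≠ 0 := by exact_mod_cast hl.ne_zero
  have hN : H55B.Nm π * H55B.Nm x = l ^ 2 := by rw [← Nm_mul, ← hx, dc_Nm_nat]
  obtain ⟨k, hk, hk2⟩ := (Nat.dvd_prime_pow hl).1 (Dvd.intro _ hN)
  have hlp : 0 < l := hl.pos
  have hk0 : k ≠ 0 := by
    rintro rfl
    rw [pow_zero] at hk2
    exact hπ.not_isUnit (Nm_eq_one.1 hk2)
  have hk12 : k = 1 ∨ k = 2 := by omega
  rcases hk12 with rfl | rfl
  · right
    rw [pow_one] at hk2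
    have hmc : π * cj π = (l : O) := by rw [mul_cj, hk2]
    obtain ⟨a, b, hab⟩ := exists_repr π
    have hcj : cj π = ((a - b : ℤ) : O) + ((-b : ℤ) : O) * om := by
      rw [hab, map_add, map_mul, map_intCast, map_intCast, cj_om]
      push_cast
      linear_combination (b : O) * om_rel
    have hnorm : (l : ℤ) = a ^ 2 - a * b + b ^ 2 := by
      rw [← hk2, hab]
      exact Nm_repr a b
    refine ⟨?_, hk2, ?_⟩
    · rintro ⟨u, hu⟩
      have h1 : H55B.Nm π * H55B.Nm u = H55B.Nm π * 1 := by rw [← Nm_mul, ← hu, dc_Nm_cj, mul_one]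
      have h2 : H55B.Nm u = 1 := Nat.eq_of_mul_eq_mul_left (by rw [hk2]; exact hlp) h1
      have h4 : Associated π (cj π) := by
        obtain ⟨w, hw⟩ := Nm_eq_one.1 h2
        exact ⟨w, by rw [hw, hu]⟩
      have h6 : π = cj π := h3.eq_of_associated (dc_prim_cj h3) h4
      rw [hcj] at h6
      nth_rw 1 [hab] at h6
      have h7 := (repr_unique h6).2
      have h8 : b = 0 := by omega
      rw [h8] at hnorm
      have h9 : (l : ℤ) = a * a := by rw [hnorm]; ring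
      have h10 : l = a.natAbs * a.natAbs := by
        rw [← Int.natAbs_mul, ← h9, Int.natAbs_natCast]
      have h11 : ¬ Nat.Prime (a.natAbs * a.natAbs) := Nat.not_prime_mul (by
        intro h; rw [h] at h10; omega) (by intro h; rw [h] at h10; omega)
      exact h11 (h10 ▸ hl)
    · intro h
      have h1 : π ∣ ((2 * a - b - 1 : ℤ) : O) := by
        have e : ((2 * a - b - 1 : ℤ) : O) = π + (cj π - 1) := by
          rw [hcj]
          nth_rw 1 [hab]
          push_cast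
          ring
        rw [e]
        exact dvd_add dvd_rfl h
      obtain ⟨y, hy⟩ := h1
      have h2 : (H55B.Nm ((2 * a - b - 1 : ℤ) : O) : ℤ) = (2 * a - b - 1) ^ 2 := by
        have h := Nm_repr (2 * a - b - 1) 0
        rw [Int.cast_zero, zero_mul, add_zero] at h
        rw [h]
        ring
      have h4 : (l : ℤ) ∣ (2 * a - b - 1) ^ 2 := by
        rw [← h2, hy, Nm_mul, hk2]
        push_cast
        exact Dvd.intro _ rfl
      have h6 : (l : ℤ) ∣ 2 * a - b - 1 := (Nat.prime_iff_prime_int.1 hl).dvd_of_dvd_pow h4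
      -- the congruences modulo three
      have h7 : (3 : O) ∣ ((a - 1 : ℤ) : O) + (b : ℤ) * om := by
        have h8 : (3 : O) ∣ π - 1 := h3
        have e : ((a - 1 : ℤ) : O) + (b : ℤ) * om = π - 1 := by
          rw [hab]
          push_cast
          ring
        rw [e]
        exact h8
      obtain ⟨h8, h9⟩ := Z3_three_dvd h7
      obtain ⟨c, hc⟩ := h6
      have h10 : (2 * a - b) ^ 2 ≤ 4 * (l : ℤ) := by
        rw [hnorm]
        nlinarith [sq_nonneg b]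
      have h5' : (5 : ℤ) ≤ l := by exact_mod_cast h5
      have h11 : c ≠ 0 := by
        rintro rfl
        rw [mul_zero] at hc
        omega
      have h12 : 2 * a - b = l * c + 1 := by linarith
      rw [h12] at h10
      have hl5 : (l : ℤ) ≤ 5 := by
        rcases lt_or_gt_of_ne h11 with h13 | h13
        · have h14 : c ≤ -1 := by omega
          have h15 : (l : ℤ) * c + 1 ≤ -(l - 1) := by nlinarith
          have h16 : ((l : ℤ) - 1) ^ 2 ≤ (l * c + 1) ^ 2 := by nlinarith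
          nlinarith
        · have h14 : 1 ≤ c := by omega
          have h15 : (l : ℤ) + 1 ≤ l * c + 1 := by nlinarith
          have h16 : ((l : ℤ) + 1) ^ 2 ≤ (l * c + 1) ^ 2 := by nlinarith
          nlinarith
      have hl5' : (l : ℤ) = 5 := le_antisymm hl5 h5'
      rw [hl5'] at hnorm
      obtain ⟨a', ha'⟩ := h8
      obtain ⟨b', hb'⟩ := h9
      have ha : a = 3 * a' + 1 := by linarith
      rw [ha, hb'] at hnorm
      ring_nf at hnorm
      omega
  · left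
    refine ⟨?_, hk2⟩
    have h1 : H55B.Nm x = 1 := by
      rw [hk2] at hN
      exact Nat.eq_of_mul_eq_mul_left (pow_pos hlp 2) (by rw [hN, mul_one])
    have h2 := Nm_eq_one.1 h1
    have h4 : Associated π (l : O) := by
      obtain ⟨w, hw⟩ := h2
      exact ⟨w, by rw [hw, hx]⟩
    have h6 : Associated (cj π) (l : O) := by
      obtain ⟨w, hw⟩ := h4
      refine ⟨Units.map (cj : O →* O) w, ?_⟩
      have h7 := congrArg cj hw
      rw [map_mul, map_natCast] at h7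
      exact h7
    exact (dc_prim_cj h3).eq_of_associated h3 (h6.trans h4.symm)


end H13S
end

-- from Lib.H13Z.LPA
section

open NumberField IsDedekindDomain

namespace H13Z

open H55P H28G H55B H13S

/-- an additive and multiplicative map fixes the prime field -/
theorem lpa_fix {K : Type} [Field K] {l : ℕ} [Fact l.Prime] [CharP K l] (f : K →+* K) {a : K}
    (ha : a ^ l = a) : f a = a := by
  have h1 : a ∈ (⊥ : Subfield K) := (Subfield.mem_bot_iff_pow_eq_self K l).2 ha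
  have h2 : (⊥ : Subfield K) ≤ f.eqLocusField (RingHom.id K) := bot_le
  exact h2 h1

theorem lpa_field {K : Type} [Field K] [Finite K] {l : ℕ} [Fact l.Prime] [CharP K l] {i : ℕ}
    (f : K →+* K) (hf : ∀ x, f x = x ^ i) (hc : Nat.card K = l ∨ Nat.card K = l ^ 2) :
    ((Nat.card K : ℤ) - 1) ∣ (i : ℤ) - 1 ∨
      (Nat.card K = l ^ 2 ∧ ((Nat.card K : ℤ) - 1) ∣ (i : ℤ) - l) := by
  have hft : Fintype K := Fintype.ofFinite K
  have hcard : Nat.card K = Fintype.card K := Nat.card_eq_fintype_card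
  obtain ⟨g, hg⟩ := IsCyclic.exists_generator (α := Kˣ)
  have ho : orderOf g = Nat.card K - 1 := by
    rw [orderOf_eq_card_of_forall_mem_zpowers hg, Nat.card_units]
  have hc1 : 1 ≤ Nat.card K := Nat.card_pos
  have hcast : ((Nat.card K : ℤ) - 1) = ((orderOf g : ℕ) : ℤ) := by
    rw [ho]
    push_cast [hc1]
    ring
  have hpow : ∀ j : ℕ, (g : K) ^ i = (g : K) ^ j → ((Nat.card K : ℤ) - 1) ∣ (i : ℤ) - j := by
    intro j hj
    have h1 : g ^ j = g ^ i := by
      apply Units.ext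
      rw [Units.val_pow_eq_pow_val, Units.val_pow_eq_pow_val]
      exact hj.symm
    rw [pow_eq_pow_iff_modEq] at h1
    rw [hcast]
    exact Nat.modEq_iff_dvd.1 h1
  rcases hc with hc | hc
  · left
    have h1 : (g : K) ^ i = (g : K) ^ 1 := by
      rw [← hf, pow_one]
      apply lpa_fix (l := l) f
      rw [← hc, hcard]
      exact FiniteField.pow_card _
    have h2 := hpow 1 h1
    rwa [Nat.cast_one] at h2
  · have hq : ∀ x : K, x ^ (l ^ 2) = x := by
      intro x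
      rw [← hc, hcard]
      exact FiniteField.pow_card x
    obtain ⟨x, hx⟩ : ∃ x : K, x = (g : K) := ⟨_, rfl⟩
    have hxl : (x ^ l) ^ l = x := by
      rw [← pow_mul, ← sq]
      exact hq x
    have ha : f (x + x ^ l) = x + x ^ l := by
      apply lpa_fix (l := l) f
      rw [add_pow_char, hxl, add_comm]
    have hb : f (x * x ^ l) = x * x ^ l := by
      apply lpa_fix (l := l) f
      rw [mul_pow, hxl, mul_comm]
    rw [map_add] at ha
    rw [map_mul] at hb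
    have h0 : (f x - x) * (f x - x ^ l) = 0 := by
      have e1 : (f x - x) * (f x - x ^ l) = f x * f x - (x + x ^ l) * f x + x * x ^ l := by ring
      rw [e1, ← ha, ← hb]
      ring
    rcases mul_eq_zero.1 h0 with h1 | h1
    · left
      have h2 := hpow 1 (by rw [← hx, ← hf, pow_one]; exact sub_eq_zero.1 h1)
      rwa [Nat.cast_one] at h2
    · right
      exact ⟨hc, hpow l (by rw [← hx, ← hf]; exact sub_eq_zero.1 h1)⟩

/-- Chunk LPA (S/M), pure algebra. K = O/π is a field with l or l^2 elements, x → x^i is an additive and multiplicative map, so a ring homomorphism f : K → K; for x in K the polynomial (X - x)(X - x^l) (or X - x if Nm π = l) has coefficients fixed by Frobenius, that is in the prime field (natural numbers), so f x is a root of it: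
f x = x or f x = x^l. For a generator x of K^*: q - 1 divides i - 1 or i - l. If Nm π = l: x^l = x, so q - 1 = l - 1 divides i - 1. -/
theorem pow_add_class {π : O} {l : ℕ} (D : Dat π l) {i : ℕ} (hi : 1 ≤ i)
    (h : ∀ x y : O, π ∣ (x + y) ^ i - x ^ i - y ^ i) :
    ((H55B.Nm π : ℤ) - 1) ∣ (i : ℤ) - 1 ∨ (H55B.Nm π = l ^ 2 ∧ ((H55B.Nm π : ℤ) - 1) ∣ (i : ℤ) - l) := by
  have hfp : Fact l.Prime := ⟨D.hl⟩
  have hmax := K14_max D.pr
  let _ : Field (O ⧸ Ideal.span {π}) := Ideal.Quotient.field _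
  let q : O →+* O ⧸ Ideal.span {π} := Ideal.Quotient.mk _
  have hq : Function.Surjective q := Ideal.Quotient.mk_surjective
  have hk : ∀ x, q x = 0 ↔ π ∣ x := by
    intro x
    rw [← Ideal.mem_span_singleton]
    exact Ideal.Quotient.eq_zero_iff_mem
  have hcd : Nat.card (O ⧸ Ideal.span {π}) = H55B.Nm π := K14_card q hq hk
  have hNm : H55B.Nm π = l ∨ H55B.Nm π = l ^ 2 := by
    rcases dichotomy π l D.hl D.five D.pr D.prim D.dvd with h1 | h1
    · exact Or.inr h1.2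
    · exact Or.inl h1.2.1
  have hl1 := D.hl.pos
  have hNpos : H55B.Nm π ≠ 0 := by
    rcases hNm with h1 | h1
    · rw [h1]; omega
    · rw [h1]; positivity
  have hfin : Finite (O ⧸ Ideal.span {π}) := Nat.finite_of_card_ne_zero (by rw [hcd]; exact hNpos)
  have hchar : CharP (O ⧸ Ideal.span {π}) l := by
    rw [CharP.charP_iff_prime_eq_zero D.hl]
    have h1 := (hk (l : O)).2 D.dvd
    rwa [map_natCast] at h1
  let f : (O ⧸ Ideal.span {π}) →+* (O ⧸ Ideal.span {π}) :=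
    { toFun := fun x => x ^ i
      map_one' := one_pow i
      map_mul' := fun x y => mul_pow x y i
      map_zero' := zero_pow (by omega)
      map_add' := fun x y => by
        obtain ⟨a, rfl⟩ := hq x
        obtain ⟨b, rfl⟩ := hq y
        have h1 := (hk _).2 (h a b)
        rw [map_sub, map_sub, map_pow, map_pow, map_pow, map_add, sub_sub, sub_eq_zero] at h1
        exact h1 }
  have h1 := lpa_field f (fun x => rfl) (l := l) (i := i) (by rw [hcd]; exact hNm)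
  rw [hcd] at h1
  exact h1

end H13Z
end

-- from Lib.H13X.XT
section

/-! # H13X: one step of degree l -/

open NumberField IsDedekindDomain WeierstrassCurve
open scoped Pointwise

namespace H13X

open H55P (IQ embF eF LF Per IsHecke Pt ac Inert Dec Nm Coc)
open H35P (WAB Ker tt)
open H55K (Tor ak xc yc CMA Dta GV GMod cj cj_cj mul_cj cj_prime cj_dvd cj_nat Nm_cj Nm_mul Nm_nat)
open H55K (Abw exists_abw)
open H55K.S
open H55R (Pl)
open H13S (Abv)
open H13Z (SelNon)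

section trans

variable {F : Type} [Field F] [NumberField F] {Ω : Type} [Field Ω] [DecidableEq Ω] [Algebra F Ω] [IsAlgClosure F Ω]

theorem xt_sub (N : IntermediateField F Ω) [NumberField N] {V V' : ValuationSubring Ω} {w : HeightOneSpectrum (𝓞 N)}
    (hV : Abv N V w) (hV' : Abv N V' w) : ∃ u : Gal(Ω/N), ∀ z : 𝓞 Ω, V'.valuation (u (z : Ω)) < 1 ↔
      V.valuation (z : Ω) < 1 := by
  have hcl0 : IsAlgClosed Ω := IsAlgClosure.isAlgClosed F
  have hal0 : Algebra.IsAlgebraic F Ω := IsAlgClosure.isAlgebraic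
  have hc0 : CharZero Ω := charZero_of_injective_algebraMap (algebraMap F Ω).injective
  have hfin : FiniteDimensional F N := by
    have : IsScalarTower ℚ F N := IsScalarTower.of_algebraMap_eq' (Subsingleton.elim _ _)
    exact Module.Finite.of_restrictScalars_finite ℚ F N
  have hal : Algebra.IsAlgebraic N Ω := Algebra.IsAlgebraic.tower_top (K := F) N
  have hcl : IsAlgClosure N Ω := ⟨inferInstance, hal⟩
  have hG : IsGalois N Ω := IsAlgClosure.isGalois N Ω
  have hQp : (H55P.ps9Q V).IsPrime := H55P.ps9_prime V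
  have hQp' : (H55P.ps9Q V').IsPrime := H55P.ps9_prime V'
  have hinv := H55P.ps9_inv (Ω := Ω) N
  have hsc : SMulCommClass Gal(Ω/N) (𝓞 N) (𝓞 Ω) := by
    constructor
    intro g a z
    rw [Algebra.smul_def, Algebra.smul_def, smul_mul']
    congr 1
    apply RingOfIntegers.ext
    exact g.commutes (a : N)
  let _ : TopologicalSpace (𝓞 Ω) := ⊥
  have : DiscreteTopology (𝓞 Ω) := ⟨rfl⟩
  have hcont : ContinuousSMul Gal(Ω/N) (𝓞 Ω) := by
    rw [continuousSMul_iff_stabilizer_isOpen]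
    intro z
    have h1 := stabilizer_isOpen_of_isIntegral (K := N) (z : Ω)
    convert! h1 using 1
    ext g
    simp only [SetLike.mem_coe, MulAction.mem_stabilizer_iff]
    constructor
    · intro h
      exact congrArg (fun y : 𝓞 Ω => (y : Ω)) h
    · intro h
      exact RingOfIntegers.coe_injective h
  have hunder : (H55P.ps9Q V).under (𝓞 N) = (H55P.ps9Q V').under (𝓞 N) := by
    ext a
    show (algebraMap (𝓞 N) (𝓞 Ω) a : 𝓞 Ω) ∈ H55P.ps9Q V ↔ (algebraMap (𝓞 N) (𝓞 Ω) a : 𝓞 Ω) ∈ H55P.ps9Q V'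
    rw [H55P.ps9_lt, H55P.ps9_lt]
    have h1 := hV.lt (a : N)
    have h2 := hV'.lt (a : N)
    exact h1.trans h2.symm
  obtain ⟨u, hu⟩ := Algebra.IsInvariant.exists_smul_of_under_eq_of_profinite (A := 𝓞 N) (B := 𝓞 Ω)
    (G := Gal(Ω/N)) (H55P.ps9Q V) (H55P.ps9Q V') hunder
  refine ⟨u, fun z => ?_⟩
  have h1 : u • z ∈ H55P.ps9Q V' ↔ z ∈ H55P.ps9Q V := by
    rw [hu]
    exact Ideal.smul_mem_pointwise_smul_iff
  rw [H55P.ps9_lt, H55P.ps9_lt] at h1
  exact h1

/-- The Galois group of Ω over N is transitive on the valuation rings above w. -/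
theorem trans_V (N : IntermediateField F Ω) [NumberField N] {V V' : ValuationSubring Ω} {w : HeightOneSpectrum (𝓞 N)}
    (hV : Abv N V w) (hV' : Abv N V' w) : ∃ s ∈ N.fixingSubgroup, ∀ x, s x ∈ V' ↔ x ∈ V := by
  have hcl0 : IsAlgClosed Ω := IsAlgClosure.isAlgClosed F
  have hal0 : Algebra.IsAlgebraic F Ω := IsAlgClosure.isAlgebraic
  have hc0 : CharZero Ω := charZero_of_injective_algebraMap (algebraMap F Ω).injective
  have htop : ∀ {U : ValuationSubring Ω}, Abv N U w → U ≠ ⊤ := by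
    rintro U hU rfl
    obtain ⟨π, hπ⟩ := H55R.HB1_pi w
    have h1 := hU ((π⁻¹ : (N)ˣ) : N)
    have h2 : ¬ w.valuation N ((π⁻¹ : (N)ˣ) : N) ≤ 1 := by
      rw [H55R.BF1_val, H55R.ord_inv, hπ, neg_neg, not_le, ← WithZero.exp_zero, WithZero.exp_lt_exp]
      norm_num
    exact h2 (h1.1 (ValuationSubring.mem_top _))
  obtain ⟨u, hu⟩ := xt_sub N hV hV'
  obtain ⟨s, hs⟩ : ∃ s : Ω ≃ₐ[F] Ω, ∀ x, s x = u x := ⟨u.restrictScalars F, fun x => rfl⟩
  have hkey : ∀ z : 𝓞 Ω, V'.valuation (s (z : Ω)) < 1 ↔ V.valuation (z : Ω) < 1 := by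
    intro z
    rw [hs]
    exact hu z
  have hle : ∀ (U : ValuationSubring Ω) (z : 𝓞 Ω), U.valuation (z : Ω) ≤ 1 := fun U z =>
    (U.valuation_le_one_iff _).2 (H55P.ps9_mem U z)
  refine ⟨s, ?_, fun x => ⟨fun hx => ?_, fun hx => ?_⟩⟩
  · rw [IntermediateField.mem_fixingSubgroup_iff]
    intro y hy
    rw [hs]
    exact u.commutes ⟨y, hy⟩
  · obtain ⟨q, hq, hqV⟩ := H13S.in1_char (F₀ := F) (Ω := Ω) V' (htop hV')
    obtain ⟨a, c, hc, hac⟩ := H55P.ps9_frac F V' q hq hqV (s x) hx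
    obtain ⟨a', ha'⟩ : ∃ a' : 𝓞 Ω, s (a' : Ω) = (a : Ω) := ⟨RingOfIntegers.mapRingHom s.symm a, s.apply_symm_apply _⟩
    obtain ⟨c', hc'⟩ : ∃ c' : 𝓞 Ω, s (c' : Ω) = (c : Ω) := ⟨RingOfIntegers.mapRingHom s.symm c, s.apply_symm_apply _⟩
    have h1 : V.valuation (c' : Ω) = 1 := by
      refine le_antisymm (hle V c') (not_lt.1 fun h => ?_)
      have h2 := (hkey c').2 h
      rw [hc', hc] at h2
      exact lt_irrefl _ h2
    have h2 : x = (a' : Ω) / (c' : Ω) := by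
      apply s.injective
      rw [map_div₀, ha', hc']
      exact hac
    rw [← V.valuation_le_one_iff, h2, map_div₀, h1, div_one]
    exact hle V a'
  · obtain ⟨q, hq, hqV⟩ := H13S.in1_char (F₀ := F) (Ω := Ω) V (htop hV)
    obtain ⟨a, c, hc, rfl⟩ := H55P.ps9_frac F V q hq hqV x hx
    have hs' : ∀ z : 𝓞 Ω, V'.valuation (s (z : Ω)) ≤ 1 := by
      intro z
      obtain ⟨z', hz'⟩ : ∃ z' : 𝓞 Ω, (z' : Ω) = s (z : Ω) := ⟨RingOfIntegers.mapRingHom s z, rfl⟩
      rw [← hz']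
      exact hle V' z'
    have h1 : V'.valuation (s (c : Ω)) = 1 := by
      refine le_antisymm (hs' c) (not_lt.1 fun h => ?_)
      have h2 := (hkey c).1 h
      rw [hc] at h2
      exact lt_irrefl _ h2
    rw [← V'.valuation_le_one_iff, map_div₀, map_div₀, h1, div_one]
    exact hs' a

/-- The same over F. -/
theorem trans_F {V V' : ValuationSubring Ω} {v : HeightOneSpectrum (𝓞 F)}
    (hV : Abw V v) (hV' : Abw V' v) : ∃ s : Ω ≃ₐ[F] Ω, ∀ x, s x ∈ V' ↔ x ∈ V := by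
  have hcl0 : IsAlgClosed Ω := IsAlgClosure.isAlgClosed F
  have hal0 : Algebra.IsAlgebraic F Ω := IsAlgClosure.isAlgebraic
  have hNF : NumberField (⊥ : IntermediateField F Ω) := NumberField.of_module_finite F _
  have hex : ∃ x : (⊥ : IntermediateField F Ω), (x : Ω) ∉ V := by
    obtain ⟨π, hπ⟩ := H55R.HB1_pi v
    refine ⟨algebraMap F _ ((π⁻¹ : Fˣ) : F), fun h => ?_⟩
    have h1 := (hV ((π⁻¹ : Fˣ) : F)).1 h
    have h2 : ¬ v.valuation F ((π⁻¹ : Fˣ) : F) ≤ 1 := by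
      rw [H55R.BF1_val, H55R.ord_inv, hπ, neg_neg, not_le, ← WithZero.exp_zero, WithZero.exp_lt_exp]
      norm_num
    exact h2 h1
  obtain ⟨w, hw⟩ := H13S.exists_below (⊥ : IntermediateField F Ω) V hex
  have hw' : Abv (⊥ : IntermediateField F Ω) V' w := by
    intro x
    obtain ⟨y, hy⟩ := IntermediateField.mem_bot.1 x.2
    rw [← hw x, ← hy]
    exact (hV' y).trans (hV y).symm
  obtain ⟨s, -, hs⟩ := trans_V (⊥ : IntermediateField F Ω) hw hw'
  exact ⟨s, hs⟩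

end trans

end H13X
end

-- from Lib.H13R.R5
section

/-! # H13R: multiplication by l on the kernel of reduction, any residue characteristic -/

open NumberField IsDedekindDomain WeierstrassCurve

namespace H13R

open H55P (IQ embF eF LF Per IsHecke Pt ac Inert Dec Nm Coc PExt UnrP Ram RamF)
open H35P (WAB Ker tt GoodW IntW)
open H55K (Tor TN ak xc yc CMA Dta GV GMod cj cj_cj mul_cj cj_prime cj_dvd cj_nat Nm_cj Nm_mul Nm_nat)
open H55K.MG
open H55K.S
open H13S (Abv)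
open H13X

variable {F : Type} [Field F] [NumberField F] [IQ F] {A B : F} {Om : ℂ} {Ω : Type} [Field Ω] [DecidableEq Ω]
  [Algebra F Ω] {j : Ω →+* ℂ} {act : 𝓞 F →+* AddMonoid.End (Pt (WAB A B) Ω)} {l : ℕ}

/-- A point X with l X in the kernel of reduction is congruent to a point killed by l. -/
theorem surj_lR (h : CMA F A B Om j act) (W₀ : WeierstrassCurve (𝓞 F)) {r s t : F} (hVC : VC (WAB A B) (W₀⁄F) 1 r s t)
    {Θ : Pt (WAB A B) Ω ≃+ Pt (W₀⁄F) Ω}
    (hΘ : Crd (algebraMap F Ω 1) (algebraMap F Ω r) (algebraMap F Ω s) (algebraMap F Ω t) Θ)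
    {V : ValuationSubring Ω} (hG : GoodW ((W₀⁄F)⁄Ω) V) (hl : l.Prime) (h5 : 5 ≤ l) (hlV : V.valuation (l : Ω) = 1)
    {X : Pt (WAB A B) Ω} (hX : Ker V (Θ (l • X))) : ∃ T : Pt (WAB A B) Ω, l • T = 0 ∧ Ker V (Θ (X - T)) := by
  by_cases h0 : l • X = 0
  · refine ⟨X, h0, ?_⟩
    rw [sub_self, map_zero]
    trivial
  by_contra hcon
  push Not at hcon
  have hl0 : (l : 𝓞 F) ≠ 0 := by exact_mod_cast hl.ne_zero
  obtain ⟨S, hS, -⟩ := H55K.exists_TN h hl0
  have hact : ∀ P : Pt (WAB A B) Ω, act (l : 𝓞 F) P = l • P := fun P => act_nat (act := act) l P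
  have hne : act (l : 𝓞 F) X ≠ 0 := by rwa [hact]
  have he := h.e1x (l : 𝓞 F) S hl0 hS X hne
  have hakl : ak Ω (l : 𝓞 F) = (l : Ω) := by
    show algebraMap F Ω ((l : 𝓞 F) : F) = l
    simp
  rw [hakl, hact] at he
  -- coordinates
  have hc : ∀ P : Pt (WAB A B) Ω, P ≠ 0 → xc P = xc (Θ P) + algebraMap F Ω r := by
    intro P hP
    obtain ⟨-, h1, -⟩ := hΘ P hP
    rw [h1, map_one]
    ring
  have hno : ∀ T : Pt (WAB A B) Ω, l • T = 0 → ¬ Ker V (Θ (X + T)) := by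
    intro T hT hk
    refine hcon (-T) (by rw [smul_neg, hT, neg_zero]) ?_
    rwa [sub_neg_eq_add]
  have hin : ∀ P : Pt (WAB A B) Ω, ¬ Ker V (Θ P) → P ≠ 0 ∧ xc (Θ P) ∈ V := by
    intro P hP
    obtain ⟨h1, h2, -⟩ := int_crd hG hP
    exact ⟨fun h3 => h1 (by rw [h3, map_zero]), h2⟩
  have hX0 : ¬ Ker V (Θ X) := by
    have := hno 0 (smul_zero _)
    rwa [add_zero] at this
  have hsum : ∑ T ∈ S, (xc (X + T) - xc T) ∈ V := by
    refine sum_mem fun T hT => ?_
    obtain ⟨h1, h2⟩ := (hS T).1 hT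
    rw [hact] at h1
    have h3 : ¬ Ker V (Θ T) := by
      intro hk
      have h4 : Θ T = 0 := H35P.fg hG.toIntW (Θ T) l hlV (by rw [← map_nsmul, h1, map_zero]) hk
      exact h2 ((map_eq_zero_iff Θ Θ.injective).1 h4)
    obtain ⟨i1, i2⟩ := hin _ (hno T h1)
    obtain ⟨-, i3⟩ := hin _ h3
    rw [hc _ i1, hc _ h2, add_sub_add_right_eq_sub]
    exact sub_mem i2 i3
  obtain ⟨h1, h2⟩ := hin _ hX0
  -- the number (l^2 - 1) r is integral at V
  obtain ⟨k, hk⟩ : ∃ k : ℕ, l ^ 2 = 24 * k + 1 := by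
    have h3 : l % 24 = 1 ∨ l % 24 = 5 ∨ l % 24 = 7 ∨ l % 24 = 11 ∨ l % 24 = 13 ∨ l % 24 = 17 ∨ l % 24 = 19 ∨ l % 24 = 23 := by
      have a2 : ¬ 2 ∣ l := fun hd => by
        have := (Nat.prime_dvd_prime_iff_eq Nat.prime_two hl).1 hd
        omega
      have a3 : ¬ 3 ∣ l := fun hd => by
        have := (Nat.prime_dvd_prime_iff_eq Nat.prime_three hl).1 hd
        omega
      omega
    have h4 : l ^ 2 % 24 = 1 := by
      rw [Nat.pow_mod]
      rcases h3 with h3 | h3 | h3 | h3 | h3 | h3 | h3 | h3 <;> rw [h3]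
    exact ⟨l ^ 2 / 24, by omega⟩
  have hr : ∃ z ∈ V, (12 : Ω) * algebraMap F Ω r = z := by
    refine ⟨((W₀⁄F)⁄Ω).a₁ ^ 2 + 4 * ((W₀⁄F)⁄Ω).a₂, ?_, ?_⟩
    · refine add_mem (pow_mem hG.a1 2) (mul_mem ?_ hG.a2)
      exact_mod_cast natCast_mem V 4
    · have e1 := hVC.h1
      have e2 := hVC.h2
      have f1 : (WAB A B).a₁ = 0 := rfl
      have f2 : (WAB A B).a₂ = 0 := rfl
      rw [f1] at e1 e2
      rw [f2] at e2
      have e3 : (12 : F) * r = (W₀⁄F).a₁ ^ 2 + 4 * (W₀⁄F).a₂ := by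
        linear_combination (-4) * e2 + (-(W₀⁄F).a₁ - 2 * s) * e1
      have e4 := congrArg (algebraMap F Ω) e3
      rw [map_mul, map_ofNat, map_add, map_mul, map_pow, map_ofNat] at e4
      exact e4
  obtain ⟨z, hz, hrz⟩ := hr
  have hkey : (l : Ω) ^ 2 * xc (Θ (l • X)) = xc (Θ X) + ∑ T ∈ S, (xc (X + T) - xc T) - (2 * (k : Ω)) * z := by
    rw [hc _ h0, hc _ h1] at he
    have e5 : (l : Ω) ^ 2 = 24 * (k : Ω) + 1 := by
      have e6 := congrArg (fun n : ℕ => (n : Ω)) hk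
      push_cast at e6
      exact e6
    rw [← hrz]
    linear_combination he - algebraMap F Ω r * e5
  have hmem : (l : Ω) ^ 2 * xc (Θ (l • X)) ∈ V := by
    rw [hkey]
    refine sub_mem (add_mem h2 hsum) (mul_mem ?_ hz)
    have : (2 : Ω) * (k : Ω) = ((2 * k : ℕ) : Ω) := by push_cast; ring
    rw [this]
    exact natCast_mem V _
  have hne' : Θ (l • X) ≠ 0 := fun h3 => h0 ((map_eq_zero_iff Θ Θ.injective).1 h3)
  have h6 := (ker_crd hne').1 hX
  rw [← V.valuation_le_one_iff, map_mul, map_pow, hlV, one_pow, one_mul] at hmem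
  exact absurd h6 (not_lt.2 hmem)

end H13R
end

-- from Lib.H28I.C2
section

/-! # H28I, part C: the Selmer group -/

open NumberField IsDedekindDomain WeierstrassCurve

namespace H28I

open H55P (IQ embF eF LF Per IsHecke Pt ac Inert Dec Nm)
open H35P (WAB Ker tt GoodW IntW)
open H55K (xc yc)

/-- Chunk C2 (S). gcd(6, p) = 1: integers with 6 a + p b = 1; a 6 T + b p T = T. -/
theorem six_inv {M : Type} [AddCommGroup M] {p : ℕ} (hp : p.Prime) (h5 : 5 ≤ p) : ∃ a b : ℤ, ∀ T : M, a • ((6 : ℕ) • T) + b • (p • T) = T := by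
  have hc : Nat.Coprime 6 p := by
    rw [Nat.coprime_comm, hp.coprime_iff_not_dvd]
    intro hd
    have h1 : p ≤ 6 := Nat.le_of_dvd (by norm_num) hd
    interval_cases p
    · omega
    · exact absurd hp (by norm_num)
  have hc' : IsCoprime ((6 : ℕ) : ℤ) (p : ℤ) := Nat.isCoprime_iff_coprime.2 hc
  obtain ⟨a, b, hab⟩ := hc'
  refine ⟨a, b, fun T => ?_⟩
  rw [← natCast_zsmul, ← natCast_zsmul, smul_smul, smul_smul, ← add_smul, hab, one_smul]

variable {K : Type} [Field K] {W₁ W₂ : WeierstrassCurve K} {p : ℕ}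

open Classical in
/-- The image of a cocycle under an equivariant homomorphism is a cocycle. -/
theorem c2_coc {V₁ V₂ : WeierstrassCurve K} (Ψ : Pt V₁ (AlgebraicClosure K) →+ Pt V₂ (AlgebraicClosure K))
    (h4 : ∀ (s : AlgebraicClosure K ≃ₐ[K] AlgebraicClosure K) P, Ψ (ac V₁ s P) = ac V₂ s (Ψ P))
    {c : (AlgebraicClosure K ≃ₐ[K] AlgebraicClosure K) → Pt V₁ (AlgebraicClosure K)} (hc : H55P.Cocycle V₁ c) :
    H55P.Cocycle V₂ (fun s => Ψ (c s)) := by
  refine ⟨fun s t => ?_, ?_⟩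
  · rw [hc.mul, map_add, h4]
  · obtain ⟨L, hL, h⟩ := hc.cont
    refine ⟨L, hL, fun s hs => ?_⟩
    rw [h s hs, map_zero]

open Classical in
/-- Chunk C2 (M). Φ, Ψ from h. Let c be a cocycle for W₂ with p • c s = 0 and local conditions. Ψ ∘ c is a cocycle for W₁ with the same properties (the field L of H55P.Cocycle.cont is the same; the local points Ψ P). So Ψ (c s) = ac s T - T with p • T = 0; apply Φ: 6 • c s = ac s (Φ T) - Φ T; a • (..) and p • c s = 0 (six_inv):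
c s = ac s T' - T' with T' = a • Φ T. -/
theorem sel_iso (hp : p.Prime) (h5 : 5 ≤ p) (h : Iso6 W₁ W₂ (AlgebraicClosure K)) (hS : H55P.SelTriv W₁ p) : H55P.SelTriv W₂ p := by
  obtain ⟨Φ, Ψ, h1, h2, h3, h4⟩ := h
  obtain ⟨a, b, hab⟩ := six_inv (M := Pt W₂ (AlgebraicClosure K)) hp h5
  intro c hc hpc hV
  obtain ⟨T, hT, hcT⟩ := hS (fun s => Ψ (c s)) (c2_coc Ψ h4 hc)
    (fun s => by
      rw [← map_nsmul, hpc s, map_zero])
    (fun V => by
      obtain ⟨P, hP⟩ := hV V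
      refine ⟨Ψ P, fun s hs => ?_⟩
      rw [hP s hs, map_sub, h4])
  refine ⟨a • Φ T, ?_, fun s => ?_⟩
  · rw [smul_comm, ← map_nsmul, hT, map_zero, smul_zero]
  · have e1 : (6 : ℕ) • c s = ac W₂ s (Φ T) - Φ T := by
      rw [← h2, hcT s, map_sub, h3]
    have e2 := hab (c s)
    rw [hpc s, smul_zero, add_zero, e1, smul_sub, ← map_zsmul] at e2
    exact e2.symm

open Classical in
/-- Chunk C2 (M). The same: p • c s = ac s Q - Q gives p • Ψ (c s) = ac s (Ψ Q) - Ψ Q; Ψ (c s) = ac s P - P; 6 • c s = ac s (Φ P) - Φ P; c s = a • 6 • c s + b • p • c s = ac s P' - P' with P' = a • Φ P + b • Q. -/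
theorem sha_iso (hp : p.Prime) (h5 : 5 ≤ p) (h : Iso6 W₁ W₂ (AlgebraicClosure K)) (hS : H55P.ShaTriv W₁ p) : H55P.ShaTriv W₂ p := by
  obtain ⟨Φ, Ψ, h1, h2, h3, h4⟩ := h
  obtain ⟨a, b, hab⟩ := six_inv (M := Pt W₂ (AlgebraicClosure K)) hp h5
  intro c hc hQ hV
  obtain ⟨Q, hQ⟩ := hQ
  obtain ⟨T, hcT⟩ := hS (fun s => Ψ (c s)) (c2_coc Ψ h4 hc)
    ⟨Ψ Q, fun s => by
      change p • Ψ (c s) = _
      rw [← map_nsmul, hQ s, map_sub, h4]⟩
    (fun V hV0 => by
      obtain ⟨P, hP⟩ := hV V hV0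
      refine ⟨Ψ P, fun s hs => ?_⟩
      rw [hP s hs, map_sub, h4])
  refine ⟨a • Φ T + b • Q, fun s => ?_⟩
  have e1 : (6 : ℕ) • c s = ac W₂ s (Φ T) - Φ T := by
    rw [← h2, hcT s, map_sub, h3]
  have e2 := hab (c s)
  rw [hQ s, e1, smul_sub, smul_sub] at e2
  have e3 : ac W₂ s (a • Φ T + b • Q) = a • ac W₂ s (Φ T) + b • ac W₂ s Q := by
    rw [map_add, map_zsmul, map_zsmul]
  rw [e3, ← e2]
  abel

open Classical in
/-- Chunk C2 (M). c for W₁; Φ ∘ c for W₂. If Φ (c s) = ac s T - T with p • T = 0 then 6 • c s = ac s (Ψ T) - Ψ T and c s = ac s T' - T', T' = a • Ψ T, p • T' = 0: contradiction. -/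
theorem selnon_iso (hp : p.Prime) (h5 : 5 ≤ p) (h : Iso6 W₁ W₂ (AlgebraicClosure K)) (hS : H13Z.SelNonT W₁ p) : H13Z.SelNonT W₂ p := by
  obtain ⟨Φ, Ψ, h1, h2, h3, h4⟩ := h
  obtain ⟨a, b, hab⟩ := six_inv (M := Pt W₁ (AlgebraicClosure K)) hp h5
  obtain ⟨c, hc, hpc, hV, hn⟩ := hS
  refine ⟨fun s => Φ (c s), c2_coc Φ h3 hc, fun s => ?_, fun V hV0 => ?_, ?_⟩
  · change p • Φ (c s) = 0
    rw [← map_nsmul, hpc s, map_zero]
  · obtain ⟨P, hP⟩ := hV V hV0
    refine ⟨Φ P, fun s hs => ?_⟩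
    change Φ (c s) = _
    rw [hP s hs, map_sub, h3]
  · rintro ⟨T, hT, hcT⟩
    apply hn
    refine ⟨a • Ψ T, ?_, fun s => ?_⟩
    · rw [smul_comm, ← map_nsmul, hT, map_zero, smul_zero]
    · have e1 : (6 : ℕ) • c s = ac W₁ s (Ψ T) - Ψ T := by
        have e3 : Φ (c s) = ac W₂ s T - T := hcT s
        rw [← h1, e3, map_sub, h4]
      have e2 := hab (c s)
      rw [hpc s, smul_zero, add_zero, e1, smul_sub, ← map_zsmul] at e2
      exact e2.symm

end H28I
end

-- from Lib.H28I.C3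
section

/-! # H28I, part C: the points over K -/

open NumberField IsDedekindDomain WeierstrassCurve

namespace H28I

open H55P (IQ embF eF LF Per IsHecke Pt ac Inert Dec Nm)
open H35P (WAB Ker tt GoodW IntW)
open H55K (xc yc)

open Classical in
/-- Chunk C3 (M). J₁, J₂ the injective maps from the points over K to the points over the algebraic closure (Affine.Point.map (Algebra.ofId ..); the points of W over K and Pt W K = the points of W⁄K: WeierstrassCurve.map_id, see H13Z.tr_divp). Let P be a point of W₂ over K. Ψ (J₂ P) is fixed by all s (h, and ac s (J₂ P) = J₂ P as in H13Z.sha_or_point),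
so it is J₁ Q (H13Z.tr_fixed). With n = the number of points of W₁ over K: n • Q = 0, so 6 n • J₂ P = Φ Ψ (n • J₂ P) = 0. The points of W₂ over the algebraic closure killed by 6 n > 0 are finitely many (H55P.tors_fin in H55P/S5.lean; instance IsElliptic from hΔ), J₂ is injective: finite.
If p divides the number of points of W₂ there is P ≠ 0 with p • P = 0 (Cauchy: exists_prime_addOrderOf_dvd_card'), Q with J₁ Q = Ψ (J₂ P), p • Q = 0, so Q = 0 (Nat.card prime to p: addOrderOf_dvd_natCard), 6 • J₂ P = 0 and p • J₂ P = 0: P = 0 (six_inv). -/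
theorem pts_iso {K : Type} [Field K] [NumberField K] {W₁ W₂ : WeierstrassCurve K} {p : ℕ} (hp : p.Prime) (h5 : 5 ≤ p) (hΔ : W₂.Δ ≠ 0)
    (h : Iso6 W₁ W₂ (AlgebraicClosure K)) (hf : Finite W₁.toAffine.Point) (hc : ¬ p ∣ Nat.card W₁.toAffine.Point) :
    Finite W₂.toAffine.Point ∧ ¬ p ∣ Nat.card W₂.toAffine.Point := by
  obtain ⟨Φ, Ψ, h1, h2, hΦ, hΨ⟩ := h
  have hW₁ : W₁⁄K = W₁ := WeierstrassCurve.map_id W₁
  have hW₂ : W₂⁄K = W₂ := WeierstrassCurve.map_id W₂
  have hf' : Finite (Pt W₁ K) := by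
    have : Finite (W₁⁄K).toAffine.Point := by rw [hW₁]; exact hf
    exact this
  have hc' : ¬ p ∣ Nat.card (Pt W₁ K) := by
    have : Nat.card (W₁⁄K).toAffine.Point = Nat.card W₁.toAffine.Point := by rw [hW₁]
    rw [← this] at hc
    exact hc
  obtain ⟨J₁, hJ₁⟩ : ∃ J : Pt W₁ K →+ Pt W₁ (AlgebraicClosure K),
      J = Affine.Point.map (W' := W₁.toAffine) (Algebra.ofId K (AlgebraicClosure K)) := ⟨_, rfl⟩
  obtain ⟨J₂, hJ₂⟩ : ∃ J : Pt W₂ K →+ Pt W₂ (AlgebraicClosure K),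
      J = Affine.Point.map (W' := W₂.toAffine) (Algebra.ofId K (AlgebraicClosure K)) := ⟨_, rfl⟩
  have i1 : Function.Injective J₁ := by
    rw [hJ₁]
    exact Affine.Point.map_injective (Algebra.ofId K (AlgebraicClosure K))
  have i2 : Function.Injective J₂ := by
    rw [hJ₂]
    exact Affine.Point.map_injective (Algebra.ofId K (AlgebraicClosure K))
  have f2 : ∀ s P, ac W₂ s (J₂ P) = J₂ P := by
    intro s P
    rw [hJ₂]
    unfold ac
    rw [Affine.Point.map_map]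
    congr 2
    exact Subsingleton.elim _ _
  have hQ : ∀ P : Pt W₂ K, ∃ Q : Pt W₁ K, J₁ Q = Ψ (J₂ P) := by
    intro P
    rw [hJ₁]
    exact H13Z.tr_fixed W₁ (Ψ (J₂ P)) fun s => by rw [← hΨ, f2]
  have hn : 0 < Nat.card (Pt W₁ K) := Nat.card_pos
  have hell : W₂.IsElliptic := ⟨isUnit_iff_ne_zero.2 hΔ⟩
  have hkill : ∀ P : Pt W₂ K, (6 * Nat.card (Pt W₁ K)) • J₂ P = 0 := by
    intro P
    obtain ⟨Q, hQ⟩ := hQ P
    have h3 : Nat.card (Pt W₁ K) • Q = 0 := by
      have := card_nsmul_eq_zero' (x := Q)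
      exact this
    have h4 : Nat.card (Pt W₁ K) • Ψ (J₂ P) = 0 := by
      rw [← hQ, ← map_nsmul, h3, map_zero]
    have h5 := congrArg Φ h4
    rw [map_nsmul, h2, map_zero] at h5
    rw [mul_comm, mul_nsmul', h5]
  have hfin : Finite (Pt W₂ K) := by
    have h3 := H55P.tors_fin (Ω := AlgebraicClosure K) W₂ (6 * Nat.card (Pt W₁ K)) (by omega)
    have h4 : Finite {P : Pt W₂ (AlgebraicClosure K) | (6 * Nat.card (Pt W₁ K)) • P = 0} := h3
    exact Finite.of_injective (fun P : Pt W₂ K => (⟨J₂ P, hkill P⟩ : {P : Pt W₂ (AlgebraicClosure K) | (6 * Nat.card (Pt W₁ K)) • P = 0}))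
      fun P Q hPQ => i2 (congrArg Subtype.val hPQ)
  have hnd : ¬ p ∣ Nat.card (Pt W₂ K) := by
    intro hd
    have : Fact p.Prime := ⟨hp⟩
    obtain ⟨P, hP⟩ := exists_prime_addOrderOf_dvd_card' p hd
    have hpP : p • P = 0 := by
      rw [← hP]
      exact addOrderOf_nsmul_eq_zero P
    have hP0 : P ≠ 0 := by
      intro h0
      rw [h0, addOrderOf_zero] at hP
      exact hp.one_lt.ne hP
    obtain ⟨Q, hQ⟩ := hQ P
    have hpQ : p • Q = 0 := by
      apply i1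
      rw [map_nsmul, hQ, ← map_nsmul, ← map_nsmul, hpP, map_zero, map_zero, map_zero]
    have hQ0 : Q = 0 := by
      by_contra hne
      have h3 : addOrderOf Q = p := addOrderOf_eq_prime hpQ hne
      have h4 : addOrderOf Q ∣ Nat.card (Pt W₁ K) := addOrderOf_dvd_natCard Q
      rw [h3] at h4
      exact hc' h4
    rw [hQ0, map_zero] at hQ
    have h6 : (6 : ℕ) • J₂ P = 0 := by
      rw [← h2, ← hQ, map_zero]
    have h7 : p • J₂ P = 0 := by
      rw [← map_nsmul, hpP, map_zero]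
    obtain ⟨a, b, hab⟩ := six_inv (M := Pt W₂ (AlgebraicClosure K)) hp h5
    have h8 := hab (J₂ P)
    rw [h6, h7, smul_zero, smul_zero, add_zero] at h8
    apply hP0
    apply i2
    rw [← h8, map_zero]
  constructor
  · have : Finite (W₂⁄K).toAffine.Point := hfin
    rw [hW₂] at this
    exact this
  · have : Nat.card (W₂⁄K).toAffine.Point = Nat.card W₂.toAffine.Point := by rw [hW₂]
    rw [← this]
    exact hnd

end H28I
end

-- from Lib.H28T.AR2
section

open NumberField IsDedekindDomain WeierstrassCurve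

namespace H28T

open H55P
open H55K

variable {F : Type} [Field F] [NumberField F] [IQ F]

variable {W : WeierstrassCurve ℤ} {p : ℕ}

theorem ar2_card {R S : Type} [CommRing R] [CommRing S] (e : R ≃+* S) (V : WeierstrassCurve R) :
    Nat.card V.toAffine.Point = Nat.card (V.map (e : R →+* S)).toAffine.Point := by
  have hinj : Function.Injective (e : R →+* S) := e.injective
  let f : V.toAffine.Point → (V.map (e : R →+* S)).toAffine.Point := fun P =>
    match P with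
    | .zero => .zero
    | .some x y h => .some ((e : R →+* S) x) ((e : R →+* S) y)
        ((Affine.map_nonsingular (W := V) hinj x y).2 h)
  refine Nat.card_congr (Equiv.ofBijective f ⟨?_, ?_⟩)
  · rintro (_ | ⟨x, y, h⟩) (_ | ⟨x', y', h'⟩) hh
    · rfl
    · simp [f] at hh
    · simp [f] at hh
    · simp only [f, Affine.Point.some.injEq] at hh
      obtain ⟨h1, h2⟩ := hh
      have h1' := hinj h1
      have h2' := hinj h2
      subst h1' h2'
      rfl
  · rintro (_ | ⟨x, y, h⟩)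
    · exact ⟨.zero, rfl⟩
    · have h1 : (e : R →+* S) (e.symm x) = x := e.apply_symm_apply x
      have h2 : (e : R →+* S) (e.symm y) = y := e.apply_symm_apply y
      have h3 : V.toAffine.Nonsingular (e.symm x) (e.symm y) := by
        rw [← Affine.map_nonsingular (W := V) hinj, h1, h2]
        exact h
      refine ⟨.some _ _ h3, ?_⟩
      simp only [f, Affine.Point.some.injEq]
      exact ⟨h1, h2⟩

/-- Chunk AR2 (S/M). The primes in Gd are stable under conjugation, W over the integers. Δ of the curve over 𝓞 F is the image of the integer W.Δ (WeierstrassCurve.map_Δ), p is an integer: cj fixes them, so Δ, p are not in v'. The numbers of points: cj induces a ring isomorphism θ : 𝓞 F ⧸ v ≃ 𝓞 F ⧸ v' (Ideal.quotientEquiv with the hypothesis h: v' is the image of v under cj; cj_cj);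
the curve over the quotient is the image of W under ℤ → 𝓞 F → 𝓞 F ⧸ v (WeierstrassCurve.map_map) and θ composed with this map is ℤ → 𝓞 F ⧸ v' (all ring homomorphisms from ℤ agree: Subsingleton / RingHom.ext_int), so θ maps the reduction to the reduction and gives a bijection of the affine points (equations and
nonsingularity are preserved by a ring isomorphism: WeierstrassCurve.Affine.Point.map with 𝓞 F ⧸ v' as an algebra over 𝓞 F ⧸ v, injective: Point.map_injective; and the inverse; or the two inequalities from injections in both directions: Nat.card_le_card_of_injective, finite types). Fields: Ideal.Quotient.field is needed for Affine.Point: look at how Nat.card (W₀⁄(𝓞 F ⧸ v.asIdeal)).toAffine.Point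
is handled in H55K/PC.lean (pts_odd, pts_even), H55K/DM.lean or H28R/A9.lean; Affine.Point only needs a commutative ring for the type, so a bijection of the types can be built by cases (0 to 0, some h to some h'). -/
theorem ar2_conj (v v' : HeightOneSpectrum (𝓞 F)) (h : ∀ x : 𝓞 F, cj x ∈ v'.asIdeal ↔ x ∈ v.asIdeal)
    (hg : Gd (W⁄(𝓞 F)) p v) : Gd (W⁄(𝓞 F)) p v' := by
  obtain ⟨h1, h2, h3⟩ := hg
  have hi : ∀ m : ℤ, (m : 𝓞 F) ∈ v'.asIdeal ↔ (m : 𝓞 F) ∈ v.asIdeal := by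
    intro m
    have h4 := h (m : 𝓞 F)
    rwa [cj_int] at h4
  have hΔ : (W⁄(𝓞 F)).Δ = ((W.Δ : ℤ) : 𝓞 F) := by
    have h5 := WeierstrassCurve.map_Δ W (algebraMap ℤ (𝓞 F))
    rw [eq_intCast] at h5
    exact h5
  refine ⟨?_, ?_, ?_⟩
  · rw [hΔ, hi, ← hΔ]
    exact h1
  · have h4 := hi (p : ℤ)
    rw [Int.cast_natCast] at h4
    rw [h4]
    exact h2
  · have hI : v'.asIdeal = v.asIdeal.map ((cj : 𝓞 F ≃+* 𝓞 F) : 𝓞 F →+* 𝓞 F) := by
      ext y
      rw [Ideal.mem_map_iff_of_surjective ((cj : 𝓞 F ≃+* 𝓞 F) : 𝓞 F →+* 𝓞 F)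
        (cj : 𝓞 F ≃+* 𝓞 F).surjective]
      constructor
      · intro hy
        refine ⟨cj y, ?_, cj_cj y⟩
        rw [← h, cj_cj]
        exact hy
      · rintro ⟨x, hx, rfl⟩
        exact (h x).2 hx
    have e1 := ar2_card (Ideal.quotientEquiv v.asIdeal v'.asIdeal cj hI)
      ((W⁄(𝓞 F))⁄(𝓞 F ⧸ v.asIdeal))
    have e2 : ((W⁄(𝓞 F))⁄(𝓞 F ⧸ v.asIdeal)).map
        ((Ideal.quotientEquiv v.asIdeal v'.asIdeal cj hI : 𝓞 F ⧸ v.asIdeal ≃+* 𝓞 F ⧸ v'.asIdeal) :
          𝓞 F ⧸ v.asIdeal →+* 𝓞 F ⧸ v'.asIdeal) = (W⁄(𝓞 F))⁄(𝓞 F ⧸ v'.asIdeal) := by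
      simp only [WeierstrassCurve.baseChange, WeierstrassCurve.map_map]
      congr 1
      exact Subsingleton.elim _ _
    rw [e2] at e1
    rw [← e1]
    exact h3

end H28T
end

-- from Lib.H55K.UB10A
section

/-! # H55K: elliptic units: the main theorem -/

open NumberField IsDedekindDomain WeierstrassCurve

namespace H55K

open H55P (IQ embF eF LF Per IsHecke Pt ac Inert Dec Nm)
open H35P (WAB Ker tt)


variable {F : Type} [Field F] [NumberField F] [IQ F] {A B : F} {Om : ℂ} {Ω : Type} [Field Ω] [DecidableEq Ω]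
  [Algebra F Ω] {j : Ω →+* ℂ} {act : 𝓞 F →+* AddMonoid.End (Pt (WAB A B) Ω)} {m : Ideal (𝓞 F)}
  {ψ : Ideal (𝓞 F) →*₀ 𝓞 F} {l : ℕ} {μ : 𝓞 F} {a : ℕ} {ρ τ : Pt (WAB A B) Ω} {H R : Finset (𝓞 F)}
  {D S : Finset (Pt (WAB A B) Ω)}

/-- Chunk UB10A (S/M). The finite set: the set of h.fin and the primes containing l * Nm μ * a (Ideal.finite_factors). v outside it, absNorm v = q prime, β = ψ v: v does not contain m (else Nm μ is in v), so IsCoprime v m, span {β} = v, Prm β, β prime, IsCoprime β l, β prime to a, q prime to l and Nm μ and a (q is in v), Nm β = q, q • R = 0 for R in Tor act β (tor_nm). -/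
theorem fin_set (h : Dta A B Om j act m ψ l) (hU : UDat Om j act m ψ l μ a ρ τ H R D S) :
    ∃ E : Set (HeightOneSpectrum (𝓞 F)), E.Finite ∧ ∀ v ∉ E, (Ideal.absNorm v.asIdeal).Prime →
      Prime (ψ v.asIdeal) ∧ Prm m ψ (ψ v.asIdeal) ∧ IsCoprime (ψ v.asIdeal) (a : 𝓞 F) ∧
      IsCoprime (ψ v.asIdeal) (l : 𝓞 F) ∧ Nat.Coprime (Nm (ψ v.asIdeal)) l ∧
      Nat.Coprime (Nm (ψ v.asIdeal)) (Nm μ) ∧
      (∀ V : ValuationSubring Ω, V.valuation (ak Ω (ψ v.asIdeal)) < 1 → GV A B V ∧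
        V.valuation (a : Ω) = 1) := by
  obtain ⟨S₀, hS₀, hfin⟩ := h.fin
  have hl0 : (l : 𝓞 F) ≠ 0 := Nat.cast_ne_zero.2 h.prime.ne_zero
  have hm0 : (Nm μ : 𝓞 F) ≠ 0 := Nat.cast_ne_zero.2 fun h0 => hU.mu0 (H55P.Nm_eq_zero.1 h0)
  have ha0 : (a : 𝓞 F) ≠ 0 := Nat.cast_ne_zero.2 (by have := hU.a0; omega)
  have hI : (Ideal.span {((l : 𝓞 F) * (Nm μ : 𝓞 F)) * (a : 𝓞 F)} : Ideal (𝓞 F)) ≠ 0 := by
    rw [Ideal.zero_eq_bot, Ne, Ideal.span_singleton_eq_bot]
    exact mul_ne_zero (mul_ne_zero hl0 hm0) ha0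
  refine ⟨S₀ ∪ {v | v.asIdeal ∣ Ideal.span {((l : 𝓞 F) * (Nm μ : 𝓞 F)) * (a : 𝓞 F)}},
    hS₀.union (Ideal.finite_factors hI), ?_⟩
  intro v hv hq
  rw [Set.mem_union, not_or] at hv
  obtain ⟨hv1, hv2⟩ := hv
  have hprod : ((l : 𝓞 F) * (Nm μ : 𝓞 F)) * (a : 𝓞 F) ∉ v.asIdeal := by
    intro h0
    apply hv2
    show v.asIdeal ∣ _
    rw [Ideal.dvd_span_singleton]
    exact h0
  have hlv : (l : 𝓞 F) ∉ v.asIdeal := fun h0 => hprod
    (Ideal.mul_mem_right _ _ (Ideal.mul_mem_right _ _ h0))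
  have hmv : (Nm μ : 𝓞 F) ∉ v.asIdeal := fun h0 => hprod
    (Ideal.mul_mem_right _ _ (Ideal.mul_mem_left _ _ h0))
  have hav : (a : 𝓞 F) ∉ v.asIdeal := fun h0 => hprod (Ideal.mul_mem_left _ _ h0)
  have hcop : ∀ I : Ideal (𝓞 F), ¬ I ≤ v.asIdeal → IsCoprime v.asIdeal I := by
    intro I hI
    rw [Ideal.isCoprime_iff_sup_eq]
    by_contra hne
    have h1 : v.asIdeal = v.asIdeal ⊔ I := v.isMaximal.eq_of_le hne le_sup_left
    exact hI (le_sup_right.trans h1.symm.le)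
  have hmle : ¬ m ≤ v.asIdeal := by
    intro h0
    apply hmv
    apply h0
    rw [← hU.mu, ← mul_cj μ]
    exact Ideal.mul_mem_right _ _ (Ideal.mem_span_singleton_self μ)
  have hvm := hcop m hmle
  have hspan : Ideal.span {ψ v.asIdeal} = v.asIdeal := h.hecke.gen _ hvm
  have hβ0 : ψ v.asIdeal ≠ 0 := by
    intro h0
    rw [h0, Ideal.span_singleton_eq_bot.2 rfl] at hspan
    exact v.ne_bot hspan.symm
  have hβp : Prime (ψ v.asIdeal) := by
    rw [← Ideal.span_singleton_prime hβ0, hspan]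
    exact v.isPrime
  have hNm : Nm (ψ v.asIdeal) = Ideal.absNorm v.asIdeal := by
    unfold Nm
    rw [hspan]
  have hcop1 : ∀ x : 𝓞 F, x ∉ v.asIdeal → IsCoprime (ψ v.asIdeal) x := by
    intro x hx
    rw [← Ideal.isCoprime_span_singleton_iff, hspan]
    apply hcop
    intro h0
    exact hx (h0 (Ideal.mem_span_singleton_self x))
  have hcop2 : ∀ n : ℕ, (n : 𝓞 F) ∉ v.asIdeal → Nat.Coprime (Nm (ψ v.asIdeal)) n := by
    intro n hn
    rw [hNm, Nat.Prime.coprime_iff_not_dvd hq]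
    rintro ⟨k, hk⟩
    apply hn
    rw [hk, Nat.cast_mul]
    exact Ideal.mul_mem_right _ _ (Ideal.absNorm_mem v.asIdeal)
  refine ⟨hβp, ⟨by rw [hspan]; exact hvm, by rw [hspan]⟩, hcop1 _ hav, hcop1 _ hlv, hcop2 _ hlv, hcop2 _ hmv, ?_⟩
  intro V hV
  refine ⟨hfin v hv1 V fun x hx => ?_, ?_⟩
  · rw [← hspan, Ideal.mem_span_singleton] at hx
    obtain ⟨y, rfl⟩ := hx
    have e1 : ak Ω (ψ v.asIdeal * y) = ak Ω (ψ v.asIdeal) * ak Ω y := by
      show algebraMap F Ω (algebraMap (𝓞 F) F (ψ v.asIdeal * y)) =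
        algebraMap F Ω (algebraMap (𝓞 F) F (ψ v.asIdeal)) * algebraMap F Ω (algebraMap (𝓞 F) F y)
      rw [map_mul, map_mul]
    rw [e1, map_mul]
    exact (mul_le_of_le_one_right zero_le (ak_le V y)).trans_lt hV
  · obtain ⟨u, w, huw⟩ := hcop1 _ hav
    have e2 : ak Ω u * ak Ω (ψ v.asIdeal) + ak Ω w * (a : Ω) = 1 := by
      have e3 := congrArg (fun t => algebraMap F Ω (algebraMap (𝓞 F) F t)) huw
      simp only [map_add, map_mul, map_natCast, map_one] at e3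
      exact e3
    have h1 : V.valuation (a : Ω) ≤ 1 := by
      have h2 := ak_le V (a : 𝓞 F)
      have e4 : ak Ω (a : 𝓞 F) = (a : Ω) := by
        show algebraMap F Ω (algebraMap (𝓞 F) F (a : 𝓞 F)) = _
        rw [map_natCast, map_natCast]
      rwa [e4] at h2
    refine le_antisymm h1 (not_lt.1 fun h3 => ?_)
    have h4 : V.valuation (ak Ω u * ak Ω (ψ v.asIdeal) + ak Ω w * (a : Ω)) < 1 := by
      refine (V.valuation.map_add _ _).trans_lt (max_lt ?_ ?_)
      · rw [map_mul]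
        exact (mul_le_of_le_one_left zero_le (ak_le V u)).trans_lt hV
      · rw [map_mul]
        exact (mul_le_of_le_one_left zero_le (ak_le V w)).trans_lt h3
    rw [e2, map_one] at h4
    exact lt_irrefl _ h4

end H55K
end

-- from Lib.H55K.UB1A
section

/-! # H55K: elliptic units: the data exist -/

open NumberField IsDedekindDomain WeierstrassCurve

namespace H55K

open H55P (IQ embF eF LF Per IsHecke Pt ac Inert Dec Nm)
open H35P (WAB Ker tt)


variable {F : Type} [Field F] [NumberField F] [IQ F] {A B : F} {Om : ℂ} {Ω : Type} [Field Ω] [DecidableEq Ω]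
  [Algebra F Ω] {j : Ω →+* ℂ} {act : 𝓞 F →+* AddMonoid.End (Pt (WAB A B) Ω)} {m : Ideal (𝓞 F)}
  {ψ : Ideal (𝓞 F) →*₀ 𝓞 F} {l : ℕ} {μ : 𝓞 F} {a : ℕ} {ρ τ : Pt (WAB A B) Ω} {H R : Finset (𝓞 F)}
  {D S : Finset (Pt (WAB A B) Ω)}

omit [IQ F] in
/-- Representatives of the classes which contain an element with the property Pr. -/
theorem ub1a_reps (b : 𝓞 F) (hb : b ≠ 0) (Pr : 𝓞 F → Prop) : ∃ H : Finset (𝓞 F), (∀ h ∈ H, Pr h) ∧
    (∀ y : 𝓞 F, Pr y → ∃ h ∈ H, b ∣ y - h) ∧ (∀ h ∈ H, ∀ h' ∈ H, b ∣ h - h' → h = h') := by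
  classical
  have hne : (Ideal.span {b} : Ideal (𝓞 F)) ≠ ⊥ := by rwa [Ne, Ideal.span_singleton_eq_bot]
  have hfin : Finite (𝓞 F ⧸ (Ideal.span {b} : Ideal (𝓞 F))) := Ideal.finiteQuotientOfFreeOfNeBot _ hne
  let Cl := {c : 𝓞 F ⧸ (Ideal.span {b} : Ideal (𝓞 F)) // ∃ h, Pr h ∧ Ideal.Quotient.mk _ h = c}
  have hfc : Finite Cl := inferInstance
  let _ := Fintype.ofFinite Cl
  let g : Cl → 𝓞 F := fun c => c.2.choose
  have hg1 : ∀ c, Pr (g c) := fun c => c.2.choose_spec.1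
  have hg2 : ∀ c : Cl, Ideal.Quotient.mk _ (g c) = c.1 := fun c => c.2.choose_spec.2
  have hdv : ∀ x y : 𝓞 F, b ∣ x - y ↔ Ideal.Quotient.mk (Ideal.span {b} : Ideal (𝓞 F)) x = Ideal.Quotient.mk _ y := by
    intro x y
    rw [Ideal.Quotient.eq, Ideal.mem_span_singleton]
  refine ⟨Finset.univ.image g, ?_, ?_, ?_⟩
  · intro h hh
    obtain ⟨c, -, rfl⟩ := Finset.mem_image.1 hh
    exact hg1 c
  · intro y hy
    refine ⟨g ⟨Ideal.Quotient.mk _ y, y, hy, rfl⟩, Finset.mem_image.2 ⟨_, Finset.mem_univ _, rfl⟩, ?_⟩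
    rw [hdv, hg2]
  · intro h hh h' hh' hd
    obtain ⟨c, -, rfl⟩ := Finset.mem_image.1 hh
    obtain ⟨c', -, rfl⟩ := Finset.mem_image.1 hh'
    rw [hdv, hg2, hg2] at hd
    rw [Subtype.ext hd]

/-- Chunk UB1A (S/M). Representatives: the quotient 𝓞 F ⧸ span {b} is finite; choose 0 for the zero class and any element of the other classes. -/
theorem exists_Rep (F : Type) [Field F] [NumberField F] [IQ F] (b : 𝓞 F) (hb : b ≠ 0) : ∃ R, Rep b R := by
  classical
  obtain ⟨H, h1, h2, h3⟩ := ub1a_reps b hb (fun x => x = 0 ∨ ¬ b ∣ x)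
  have h0 : (0 : 𝓞 F) ∈ H := by
    obtain ⟨h, hh, hd⟩ := h2 0 (Or.inl rfl)
    rcases h1 h hh with h4 | h4
    · rwa [h4] at hh
    · rw [zero_sub, dvd_neg] at hd
      exact absurd hd h4
  refine ⟨H, h0, ?_, h3⟩
  intro x
  by_cases hx : b ∣ x
  · exact ⟨0, h0, by rwa [sub_zero]⟩
  · exact h2 x (Or.inr hx)

/-- Chunk UB1A. Choose one h in each class modulo μ which contains some h with Prm. -/
theorem exists_HRep (m : Ideal (𝓞 F)) (ψ : Ideal (𝓞 F) →*₀ 𝓞 F) (μ : 𝓞 F) (hμ : μ ≠ 0) :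
    ∃ H, HRep m ψ μ H := by
  obtain ⟨H, h1, h2, h3⟩ := ub1a_reps μ hμ (Prm m ψ)
  exact ⟨H, h1, h2, h3⟩

end H55K
end

-- from Lib.H55K.UB1B
section

/-! # H55K: elliptic units: the data exist -/

open NumberField IsDedekindDomain WeierstrassCurve

namespace H55K

open H55P (IQ embF eF LF Per IsHecke Pt ac Inert Dec Nm)
open H35P (WAB Ker tt)


variable {F : Type} [Field F] [NumberField F] [IQ F] {A B : F} {Om : ℂ} {Ω : Type} [Field Ω] [DecidableEq Ω]
  [Algebra F Ω] {j : Ω →+* ℂ} {act : 𝓞 F →+* AddMonoid.End (Pt (WAB A B) Ω)} {m : Ideal (𝓞 F)}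
  {ψ : Ideal (𝓞 F) →*₀ 𝓞 F} {l : ℕ} {μ : 𝓞 F} {a : ℕ} {ρ τ : Pt (WAB A B) Ω} {H R : Finset (𝓞 F)}
  {D S : Finset (Pt (WAB A B) Ω)}

theorem ub1b_cop {l : ℕ} (hl : l.Prime) {μ : 𝓞 F} (hc : IsCoprime μ (l : 𝓞 F)) : Nat.Coprime (Nm μ) l := by
  rw [Nat.coprime_comm, Nat.Prime.coprime_iff_not_dvd hl]
  intro hd
  have h1 : IsCoprime (cj μ) (l : 𝓞 F) := by
    obtain ⟨u, w, huw⟩ := hc
    refine ⟨cj u, cj w, ?_⟩
    have h2 := congrArg cj huw
    rwa [map_add, map_mul, map_mul, map_one, cj_nat] at h2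
  have h2 : IsCoprime (μ * cj μ) (l : 𝓞 F) := IsCoprime.mul_left hc h1
  rw [mul_cj] at h2
  obtain ⟨k, hk⟩ := hd
  rw [hk, Nat.cast_mul] at h2
  have h3 : IsUnit (l : 𝓞 F) := isCoprime_self.1 (IsCoprime.of_mul_left_left h2)
  obtain ⟨x, hx⟩ := h3.exists_right_inv
  have h4 : Nm ((l : 𝓞 F) * x) = Nm ((1 : ℕ) : 𝓞 F) := by rw [hx, Nat.cast_one]
  rw [Nm_mul, Nm_nat, Nm_nat, one_pow] at h4
  have h5 : l ^ 2 ∣ 1 := ⟨_, h4.symm⟩
  have h6 := hl.two_le
  have h7 := Nat.le_of_dvd one_pos h5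
  nlinarith

theorem ub1b_crt {M l : ℕ} (hM : M ≠ 0) (hl : 5 ≤ l) (hc : Nat.Coprime M l) :
    ∃ a : ℕ, 1 < a ∧ (∃ k, a = 1 + M * k) ∧ ∃ k, a = 2 + l * k := by
  obtain ⟨k, hk1, hk2⟩ := Nat.chineseRemainder hc 1 2
  have hM1 : 1 ≤ M := Nat.one_le_iff_ne_zero.2 hM
  have hML : 5 ≤ M * l := by nlinarith
  refine ⟨k + M * l, by omega, ?_, ?_⟩
  · have h1 : 1 ≡ k + M * l [MOD M] := by
      refine hk1.symm.trans ?_
      rw [Nat.ModEq, Nat.add_mul_mod_self_left]
    obtain ⟨c, hc⟩ := (Nat.modEq_iff_dvd' (by omega)).1 h1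
    exact ⟨c, by omega⟩
  · have h1 : 2 ≡ k + M * l [MOD l] := by
      refine hk2.symm.trans ?_
      rw [Nat.ModEq, Nat.add_mul_mod_self_right]
    obtain ⟨c, hc⟩ := (Nat.modEq_iff_dvd' (by omega)).1 h1
    exact ⟨c, by omega⟩

omit [NumberField F] [IQ F] in
theorem ub1b_sub {act : 𝓞 F →+* AddMonoid.End (Pt (WAB A B) Ω)} {x y : 𝓞 F} {T : Pt (WAB A B) Ω} (h : act (x - y) T = 0) :
    act x T = act y T := by
  have h1 : act x T = act (x - y) T + act y T := by
    have h2 : act x = act (x - y) + act y := by rw [← map_add, sub_add_cancel]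
    rw [h2]
    rfl
  rw [h1, h, zero_add]

omit [NumberField F] [IQ F] in
theorem ub1b_comm {act : 𝓞 F →+* AddMonoid.End (Pt (WAB A B) Ω)} (x y : 𝓞 F) (T : Pt (WAB A B) Ω) :
    act x (act y T) = act y (act x T) := by
  have e1 : act (x * y) = act (y * x) := by rw [mul_comm]
  rw [map_mul, map_mul] at e1
  exact congrArg (fun φ : AddMonoid.End (Pt (WAB A B) Ω) => φ T) e1

/-- Chunk UB1B (M). μ: 𝓞 F is a principal ideal domain (instPIDF), m ≠ bottom (hecke.ne). Nm μ and l are coprime: otherwise l divides Nm μ; h.cop: u μ + w l = 1, Nm (u μ) = (1 - w l)(1 - cj (w l)) (mul_cj, Nm_mul), so l divides 1 in 𝓞 F, Nm_nat. a: the Chinese remainder theorem for naturals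
(Nat.chineseRemainder), plus a multiple of Nm μ * l to get a > 1 and a ≥ 2 + .. so that the naturals k exist. ρ, τ: h.cma.gen for μ and for (a : 𝓞 F) (map_natCast). H, R from exists_HRep, exists_Rep; D = image of H under act · ρ, S = image of R.erase 0 under act · τ (classical). memD: if Prm h then h is congruent
to an element of H modulo μ, act (h - h') ρ = 0. memS: act a Q = 0, Q ≠ 0: Q = act b τ by gen, b replaced by its representative, which is not 0. -/
theorem exists_UDat (h : Dta A B Om j act m ψ l) : ∃ (μ : 𝓞 F) (a : ℕ) (ρ τ : Pt (WAB A B) Ω)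
    (H R : Finset (𝓞 F)) (D S : Finset (Pt (WAB A B) Ω)), UDat Om j act m ψ l μ a ρ τ H R D S := by
  classical
  obtain ⟨μ, hμ'⟩ := (IsPrincipalIdealRing.principal m).principal
  have hμ : Ideal.span {μ} = m := hμ'.symm
  have hμ0 : μ ≠ 0 := by
    rintro rfl
    apply h.hecke.ne
    rw [← hμ]
    simp
  have hcop : Nat.Coprime (Nm μ) l := by
    apply ub1b_cop h.prime
    have h1 := h.cop
    rwa [← hμ, Ideal.isCoprime_span_singleton_iff] at h1
  have hNm : Nm μ ≠ 0 := fun h0 => hμ0 (H55P.Nm_eq_zero.1 h0)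
  obtain ⟨a, ha1, ha2, ha3⟩ := ub1b_crt hNm h.five hcop
  have ha0 : (a : 𝓞 F) ≠ 0 := Nat.cast_ne_zero.2 (by omega)
  obtain ⟨ρ, hρ1, hρ2, hρ3, hρ4⟩ := h.cma.gen μ hμ0
  obtain ⟨τ, hτ1, hτ2, hτ3, hτ4⟩ := h.cma.gen (a : 𝓞 F) ha0
  have hρ1' : act μ ρ = 0 := hρ1
  have hτ1' : act (a : 𝓞 F) τ = 0 := hτ1
  obtain ⟨H, hH⟩ := exists_HRep m ψ μ hμ0
  obtain ⟨R, hR⟩ := exists_Rep F (a : 𝓞 F) ha0
  have hD : ∀ X, X ∈ H.image (fun h => act h ρ) ↔ ∃ h ∈ H, X = act h ρ := by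
    intro X
    rw [Finset.mem_image]
    exact exists_congr fun h => and_congr_right fun _ => eq_comm
  have hS : ∀ Q, Q ∈ (R.erase 0).image (fun b => act b τ) ↔ ∃ b ∈ R, b ≠ 0 ∧ Q = act b τ := by
    intro Q
    rw [Finset.mem_image]
    constructor
    · rintro ⟨b, hb, rfl⟩
      rw [Finset.mem_erase] at hb
      exact ⟨b, hb.2, hb.1, rfl⟩
    · rintro ⟨b, hb, hb0, rfl⟩
      exact ⟨b, Finset.mem_erase.2 ⟨hb0, hb⟩, rfl⟩
  refine ⟨μ, a, ρ, τ, H, R, H.image (fun h => act h ρ), (R.erase 0).image (fun b => act b τ), ?_⟩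
  refine
    { mu := hμ
      mu0 := hμ0
      a0 := ha1
      a1 := ha2
      a2 := ha3
      cop := hcop
      rho := hρ1'
      rhog := fun T hT => hρ2 T hT
      rho0 := hρ3
      rhox := hρ4
      hrep := hH
      rep := hR
      memD := ?_
      memD' := hD
      tau := hτ3
      taux := ?_
      memS := ?_
      memS' := hS }
  · intro X
    rw [hD]
    constructor
    · rintro ⟨y, hy, rfl⟩
      exact ⟨y, hH.prm y hy, rfl⟩
    · rintro ⟨y, hy, rfl⟩
      obtain ⟨z, hz, hd⟩ := hH.ex y hy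
      exact ⟨z, hz, ub1b_sub ((hρ3 _).2 hd)⟩
  · intro b hb
    have h1 := (hτ4 b hb).1
    rwa [map_natCast] at h1
  · intro T
    rw [hS]
    constructor
    · rintro ⟨b, hb, hb0, rfl⟩
      refine ⟨?_, ?_⟩
      · rw [ub1b_comm, hτ1', map_zero]
      · intro h0
        apply hb0
        apply hR.un b hb 0 hR.zero
        rw [sub_zero]
        exact (hτ3 b).1 h0
    · rintro ⟨h1, h2⟩
      obtain ⟨b, rfl⟩ := hτ2 T h1
      obtain ⟨r, hr, hd⟩ := hR.ex b
      have h3 : act b τ = act r τ := ub1b_sub ((hτ3 _).2 hd)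
      refine ⟨r, hr, ?_, h3⟩
      rintro rfl
      apply h2
      rw [h3, map_zero]
      rfl

end H55K
end

-- from Lib.H55K.UB9D
section

/-! # H55K: elliptic units: the coefficient -/

open NumberField IsDedekindDomain WeierstrassCurve

namespace H55K

open H55P (IQ embF eF LF Per IsHecke Pt ac Inert Dec Nm)
open H35P (WAB Ker tt)


variable {F : Type} [Field F] [NumberField F] [IQ F] {A B : F} {Om : ℂ} {Ω : Type} [Field Ω] [DecidableEq Ω]
  [Algebra F Ω] {j : Ω →+* ℂ} {act : 𝓞 F →+* AddMonoid.End (Pt (WAB A B) Ω)} {m : Ideal (𝓞 F)}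
  {ψ : Ideal (𝓞 F) →*₀ 𝓞 F} {l : ℕ} {μ : 𝓞 F} {a : ℕ} {ρ τ : Pt (WAB A B) Ω} {H R : Finset (𝓞 F)}
  {D S : Finset (Pt (WAB A B) Ω)}

omit [IQ F] [DecidableEq Ω] in
theorem ub9d_unit {π : 𝓞 F} (hπ : Prime π) {V : ValuationSubring Ω} (hV : V.valuation (ak Ω π) < 1) {x : 𝓞 F}
    (hx : ¬ π ∣ x) : (∃ u w : 𝓞 F, u * x + π * w = 1) ∧ V.valuation (ak Ω x) = 1 := by
  have hp : (Ideal.span {π} : Ideal (𝓞 F)).IsPrime := (Ideal.span_singleton_prime hπ.ne_zero).2 hπ
  have hm : (Ideal.span {π} : Ideal (𝓞 F)).IsMaximal :=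
    hp.isMaximal fun h0 => hπ.ne_zero (Ideal.span_singleton_eq_bot.1 h0)
  have hx' : x ∉ (Ideal.span {π} : Ideal (𝓞 F)) := fun h0 => hx (Ideal.mem_span_singleton.1 h0)
  obtain ⟨u, i, hi, h1⟩ := hm.exists_inv hx'
  obtain ⟨w, rfl⟩ := Ideal.mem_span_singleton.1 hi
  refine ⟨⟨u, w, h1⟩, ?_⟩
  have h2 : ak Ω u * ak Ω x + ak Ω π * ak Ω w = 1 := by
    have h3 := congrArg (ak Ω) h1
    simpa only [ak, map_add, map_mul, map_one] using h3
  have h4 : V.valuation (ak Ω π * ak Ω w) < 1 := by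
    rw [map_mul]
    exact mul_lt_one_of_lt_of_le hV (ak_le V w)
  have h5 : V.valuation (ak Ω u * ak Ω x) = 1 := by
    have h6 : ak Ω u * ak Ω x = 1 - ak Ω π * ak Ω w := by rw [← h2]; ring
    rw [h6, Valuation.map_one_sub_of_lt _ h4]
  rw [map_mul] at h5
  refine le_antisymm (ak_le V x) ?_
  rw [← h5]
  exact mul_le_of_le_one_left' (ak_le V u)

omit [NumberField F] [IQ F] [DecidableEq Ω] in
/-- Chunk UB9D (S/M). Some V₀ lies above π (H13S.exists_above, or 1: if there is none take c = 1). c₁ = x/y with x, y in 𝓞 F, π not dividing y (principal ideal domain: cancel powers of π; V₀(c₁) = 1, V₀(y) < 1 if π divides y), π does not divide x. c with y c + x in span {π} (y is invertible modulo π). V(c + c₁) = V(y c + x)/V(y) ≤ V(π) for every V with V(π) < 1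
(V(y) = 1: u y + w π = 1). -/
theorem int_repl {F : Type} [Field F] [NumberField F] [IQ F] {Ω : Type} [Field Ω] [Algebra F Ω]
    [IsAlgClosure F Ω] {π : 𝓞 F} (hπ : Prime π) (c₁ : F)
    (hc : ∀ V : ValuationSubring Ω, V.valuation (ak Ω π) < 1 → V.valuation (algebraMap F Ω c₁) = 1) :
    ∃ c : 𝓞 F, ¬ π ∣ c ∧ ∀ V : ValuationSubring Ω, V.valuation (ak Ω π) < 1 →
      V.valuation (ak Ω c + algebraMap F Ω c₁) ≤ V.valuation (ak Ω π) := by
  classical
  by_cases hV : ∃ V₀ : ValuationSubring Ω, V₀.valuation (ak Ω π) < 1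
  swap
  · exact ⟨1, hπ.not_dvd_one, fun V h => absurd ⟨V, h⟩ hV⟩
  obtain ⟨V₀, hV₀⟩ := hV
  have hv1 := hc V₀ hV₀
  obtain ⟨x0, y0, hy0, hxy⟩ := IsFractionRing.div_surjective (𝓞 F) c₁
  have hy0' : y0 ≠ 0 := nonZeroDivisors.ne_zero hy0
  have hx0 : x0 ≠ 0 := by
    rintro rfl
    rw [map_zero, zero_div] at hxy
    rw [← hxy, map_zero, map_zero] at hv1
    exact zero_ne_one hv1
  obtain ⟨n, x, hx, rfl⟩ := WfDvdMonoid.max_power_factor hx0 hπ.irreducible
  obtain ⟨m, y, hy, rfl⟩ := WfDvdMonoid.max_power_factor hy0' hπ.irreducible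
  have hπ0 : ak Ω π ≠ 0 := by
    intro h0
    apply hπ.ne_zero
    have h1 : algebraMap F Ω (π : F) = algebraMap F Ω 0 := by rw [map_zero]; exact h0
    have h2 := (algebraMap F Ω).injective h1
    exact_mod_cast h2
  have hxv := (ub9d_unit (Ω := Ω) hπ hV₀ hx).2
  have hyv := (ub9d_unit (Ω := Ω) hπ hV₀ hy).2
  have hnm : n = m := by
    have h1 : algebraMap F Ω c₁ = (ak Ω π ^ n * ak Ω x) / (ak Ω π ^ m * ak Ω y) := by
      rw [← hxy]
      simp only [ak, map_div₀, map_mul, map_pow]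
    rw [h1, map_div₀, map_mul, map_mul, map_pow, map_pow, hxv, hyv, mul_one, mul_one] at hv1
    have h2 : 0 < V₀.valuation (ak Ω π) := by
      rw [zero_lt_iff]
      exact (V₀.valuation).ne_zero_iff.2 hπ0
    have h3 : V₀.valuation (ak Ω π) ^ m ≠ 0 := pow_ne_zero _ h2.ne'
    rw [div_eq_one_iff_eq h3] at hv1
    exact (pow_right_strictAnti₀ h2 hV₀).injective hv1
  subst hnm
  obtain ⟨⟨u, w, h1⟩, -⟩ := ub9d_unit (Ω := Ω) hπ hV₀ hy
  have hπF : (algebraMap (𝓞 F) F π) ^ n ≠ 0 := by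
    apply pow_ne_zero
    intro h0
    exact hπ.ne_zero ((IsFractionRing.injective (𝓞 F) F) (by rw [h0, map_zero]))
  have hyF : algebraMap (𝓞 F) F y ≠ 0 := by
    intro h0
    apply hy
    have h2 : y = 0 := (IsFractionRing.injective (𝓞 F) F) (by rw [h0, map_zero])
    rw [h2]
    exact dvd_zero _
  have hc1 : c₁ = algebraMap (𝓞 F) F x / algebraMap (𝓞 F) F y := by
    rw [← hxy, map_mul, map_mul, map_pow, mul_div_mul_left _ _ hπF]
  refine ⟨-(x * u), ?_, fun V hV => ?_⟩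
  · rw [dvd_neg]
    intro h2
    rcases hπ.dvd_or_dvd h2 with h3 | h3
    · exact hx h3
    · apply hπ.not_dvd_one
      rw [← h1]
      exact dvd_add (h3.mul_right _) (dvd_mul_right _ _)
  · have h2 : ak Ω (-(x * u)) + algebraMap F Ω c₁ = ak Ω x * ak Ω w * ak Ω π / ak Ω y := by
      have h3 : algebraMap (𝓞 F) F (-(x * u)) + c₁ = algebraMap (𝓞 F) F x * algebraMap (𝓞 F) F w *
          algebraMap (𝓞 F) F π / algebraMap (𝓞 F) F y := by
        rw [hc1, eq_div_iff hyF, add_mul, div_mul_cancel₀ _ hyF]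
        have h4 := congrArg (algebraMap (𝓞 F) F) h1
        rw [map_add, map_mul, map_mul, map_one] at h4
        rw [map_neg, map_mul]
        linear_combination (-(algebraMap (𝓞 F) F x)) * h4
      have h5 := congrArg (algebraMap F Ω) h3
      simpa only [ak, map_add, map_mul, map_div₀] using h5
    have hyv' := (ub9d_unit (Ω := Ω) hπ hV hy).2
    rw [h2, map_div₀, map_mul, map_mul, hyv', div_one]
    exact mul_le_of_le_one_left' (mul_le_one' (ak_le V x) (ak_le V w))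

end H55K
end

-- from Lib.H55K.UB6A
section

/-! # H55K: elliptic units: they are units -/

open NumberField IsDedekindDomain WeierstrassCurve

namespace H55K

open H55P (IQ embF eF LF Per IsHecke Pt ac Inert Dec Nm)
open H35P (WAB Ker tt)


variable {F : Type} [Field F] [NumberField F] [IQ F] {A B : F} {Om : ℂ} {Ω : Type} [Field Ω] [DecidableEq Ω]
  [Algebra F Ω] {j : Ω →+* ℂ} {act : 𝓞 F →+* AddMonoid.End (Pt (WAB A B) Ω)} {m : Ideal (𝓞 F)}
  {ψ : Ideal (𝓞 F) →*₀ 𝓞 F} {l : ℕ} {μ : 𝓞 F} {a : ℕ} {ρ τ : Pt (WAB A B) Ω} {H R : Finset (𝓞 F)}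
  {D S : Finset (Pt (WAB A B) Ω)}

omit [NumberField F] [IQ F] in
theorem ub6a_dvd {G : Type} [AddCommGroup G] {a N : ℕ} {x : G} (hx : a • x = 0) (h : a ∣ N) : N • x = 0 := by
  obtain ⟨c, rfl⟩ := h
  rw [mul_comm, mul_smul, hx, smul_zero]

theorem ub6a_cop (h : Dta A B Om j act m ψ l) (hU : UDat Om j act m ψ l μ a ρ τ H R D S) :
    Nat.Coprime (Nm μ) l := by
  rw [Nat.coprime_comm, h.prime.coprime_iff_not_dvd]
  rintro ⟨c, hc⟩
  have h1 := h.cop
  rw [← hU.mu, Ideal.isCoprime_span_singleton_iff] at h1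
  obtain ⟨u, w, huw⟩ := h1
  have h2 : (l : 𝓞 F) ∣ 1 := by
    have e1 : (Nm μ : 𝓞 F) = (l : 𝓞 F) * (c : 𝓞 F) := by
      rw [hc]
      push_cast
      rfl
    have e2 := mul_cj μ
    have e3 : u * μ = 1 - w * (l : 𝓞 F) := by linear_combination huw
    have e4 : cj u * cj μ = 1 - cj w * (l : 𝓞 F) := by
      have := congrArg cj e3
      rw [map_mul, map_sub, map_one, map_mul, cj_nat] at this
      exact this
    refine ⟨u * cj u * (c : 𝓞 F) + cj w + w - w * cj w * (l : 𝓞 F), ?_⟩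
    have e5 : (u * μ) * (cj u * cj μ) = u * cj u * ((l : 𝓞 F) * (c : 𝓞 F)) := by
      rw [← e1, ← e2]
      ring
    rw [e3, e4] at e5
    linear_combination e5
  have h3 : IsUnit (l : 𝓞 F) := isUnit_of_dvd_one h2
  have h4 := Nm_nat (F := F) l
  unfold Nm at h4
  rw [Ideal.span_singleton_eq_top.2 h3, Ideal.absNorm_top] at h4
  have h5 := h.prime.two_le
  nlinarith

/-- Chunk UB6A (S/M). X in D, T ≠ 0 killed by l, n • R = 0, n prime to l and to Nm μ, k an integer prime to l and Nm μ with k • Q = 0, Kg a subgroup with the property GMod.tors: X + T + R + Q is not in Kg. If V(l) = 1: multiply by Nm μ * n * k (prime to l): that multiple of T is in Kg and killed by l, so 0 (tors), so T = 0. If V(l) < 1: V(Nm μ) = 1 (coprime: u Nm μ + w l = 1);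
multiply by l * n * k: that multiple of X is in Kg, killed by Nm μ, so 0, so X = 0 (D_ne). -/
theorem not_Kg (h : Dta A B Om j act m ψ l) (hU : UDat Om j act m ψ l μ a ρ τ H R D S)
    (V : ValuationSubring Ω) (Kg : AddSubgroup (Pt (WAB A B) Ω))
    (ht : ∀ n : ℕ, V.valuation (n : Ω) = 1 → ∀ T ∈ Kg, n • T = 0 → T = 0) {X T R₁ Q : Pt (WAB A B) Ω}
    (hX : X ∈ D) (hT : l • T = 0) (h0 : T ≠ 0) {n k : ℕ} (hn : n • R₁ = 0) (hnl : Nat.Coprime n l)
    (hnm : Nat.Coprime n (Nm μ)) (hk : k • Q = 0) (hkl : Nat.Coprime k l) (hkm : Nat.Coprime k (Nm μ)) :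
    X + T + R₁ + Q ∉ Kg := by
  intro hZ
  obtain ⟨hX0, hX1⟩ := D_ne h hU hX
  have hcop := ub6a_cop h hU
  by_cases hl : V.valuation (l : Ω) = 1
  · have h1 : (Nm μ * n * k) • (X + T + R₁ + Q) = (Nm μ * n * k) • T := by
      rw [smul_add, smul_add, smul_add, ub6a_dvd hX1 ⟨n * k, by ring⟩, ub6a_dvd hn ⟨Nm μ * k, by ring⟩,
        ub6a_dvd hk ⟨Nm μ * n, by ring⟩]
      abel
    have h2 : (Nm μ * n * k) • T ∈ Kg := by
      rw [← h1]
      exact Kg.nsmul_mem hZ _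
    have h3 : l • ((Nm μ * n * k) • T) = 0 := by
      rw [smul_comm, hT, smul_zero]
    have h4 := ht l hl _ h2 h3
    exact h0 (cop_zero ((hcop.mul_left hnl).mul_left hkl) h4 hT)
  · have hl' : V.valuation (l : Ω) < 1 :=
      lt_of_le_of_ne ((V.valuation_le_one_iff _).2 (natCast_mem V l)) hl
    have hNm : V.valuation (Nm μ : Ω) = 1 := by
      refine le_antisymm ((V.valuation_le_one_iff _).2 (natCast_mem V _)) (not_lt.1 fun h' => ?_)
      obtain ⟨u, w, huw⟩ := Nat.isCoprime_iff_coprime.2 hcop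
      have e1 := congrArg (fun t : ℤ => (t : Ω)) huw
      push_cast at e1
      have e2 : V.valuation ((u : Ω) * (Nm μ : Ω) + (w : Ω) * (l : Ω)) < 1 := by
        refine V.valuation.map_add_lt ?_ ?_
        · rw [map_mul, mul_comm]
          exact mul_lt_one_of_lt_of_le h' ((V.valuation_le_one_iff _).2 (intCast_mem V u))
        · rw [map_mul, mul_comm]
          exact mul_lt_one_of_lt_of_le hl' ((V.valuation_le_one_iff _).2 (intCast_mem V w))
      rw [e1, map_one] at e2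
      exact lt_irrefl _ e2
    have h1 : (l * n * k) • (X + T + R₁ + Q) = (l * n * k) • X := by
      rw [smul_add, smul_add, smul_add, ub6a_dvd hT ⟨n * k, by ring⟩, ub6a_dvd hn ⟨l * k, by ring⟩,
        ub6a_dvd hk ⟨l * n, by ring⟩]
      abel
    have h2 : (l * n * k) • X ∈ Kg := by
      rw [← h1]
      exact Kg.nsmul_mem hZ _
    have h3 : Nm μ • ((l * n * k) • X) = 0 := by
      rw [smul_comm, hX1, smul_zero]
    have h4 := ht (Nm μ) hNm _ h2 h3
    exact hX0 (cop_zero ((hcop.symm.mul_left hnm).mul_left hkm) h4 hX1)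

end H55K
end

-- from Lib.H55K.UB6B
section

/-! # H55K: elliptic units: they are units -/

open NumberField IsDedekindDomain WeierstrassCurve

namespace H55K

open H55P (IQ embF eF LF Per IsHecke Pt ac Inert Dec Nm)
open H35P (WAB Ker tt)


variable {F : Type} [Field F] [NumberField F] [IQ F] {A B : F} {Om : ℂ} {Ω : Type} [Field Ω] [DecidableEq Ω]
  [Algebra F Ω] {j : Ω →+* ℂ} {act : 𝓞 F →+* AddMonoid.End (Pt (WAB A B) Ω)} {m : Ideal (𝓞 F)}
  {ψ : Ideal (𝓞 F) →*₀ 𝓞 F} {l : ℕ} {μ : 𝓞 F} {a : ℕ} {ρ τ : Pt (WAB A B) Ω} {H R : Finset (𝓞 F)}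
  {D S : Finset (Pt (WAB A B) Ω)}

theorem ub6b_a (h : Dta A B Om j act m ψ l) (hU : UDat Om j act m ψ l μ a ρ τ H R D S) :
    Nat.Coprime a l ∧ Nat.Coprime a (Nm μ) := by
  obtain ⟨k, hk⟩ := hU.a1
  obtain ⟨k', hk'⟩ := hU.a2
  constructor
  · rw [hk', Nat.coprime_add_mul_left_left]
    exact (Nat.coprime_primes Nat.prime_two h.prime).2 (by have := h.five; omega)
  · rw [hk, Nat.coprime_add_mul_left_left]
    exact Nat.coprime_one_left _

omit [NumberField F] [IQ F] in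
/-- The point P is in the subset where everything is far from the kernel. -/
theorem ub6b_pt (V : ValuationSubring Ω) {Kg : AddSubgroup (Pt (WAB A B) Ω)} {u : Ω}
    (hG : GMod (WAB A B) V Kg u) {X X' Q : Pt (WAB A B) Ω} (h1 : X ∉ Kg) (h1' : X' ∉ Kg) (hQ : Q ≠ 0)
    (h2 : X - Q ∉ Kg) (h2' : X' - Q ∉ Kg) (h3 : X + Q ∉ Kg) (h3' : X' + Q ∉ Kg) :
    V.valuation (xc X - xc Q) ≠ 0 ∧ V.valuation (xc X - xc Q) = V.valuation (xc X' - xc Q) := by
  have hne : ∀ Y : Pt (WAB A B) Ω, Y ∉ Kg → Y - Q ∉ Kg → Y + Q ∉ Kg → xc Y - xc Q ≠ 0 := by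
    intro Y hY hY1 hY2 h0
    have hY0 : Y ≠ 0 := by
      rintro rfl
      exact hY (zero_mem Kg)
    rcases xc_eq hY0 hQ (sub_eq_zero.1 h0) with h4 | h4
    · apply hY1
      rw [h4, sub_self]
      exact zero_mem Kg
    · apply hY2
      rw [h4, neg_add_cancel]
      exact zero_mem Kg
  refine ⟨(Valuation.ne_zero_iff _).2 (hne X h1 h2 h3), ?_⟩
  by_cases hK : Q ∈ Kg
  · exact hG.far X X' Q h1 h1' hK hQ
  · rw [hG.diff X Q h1 hK h2 h3, hG.diff X' Q h1' hK h2' h3']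

/-- Chunk UB6B (M). h.gmod V: Kg, u. Phi S (X + P)/Phi S (X - P) is the product over Q in S of (xc (X + P) - xc Q)/(xc (X - P) - xc Q) (P = T + R₁). a is prime to l (a = 2 + l k, l odd) and to Nm μ. X ± P, X ± P ± Q are not in Kg (not_Kg, with -T, -R₁, Q or -Q). If Q is not in Kg: both differences have value V(u)^2 ≠ 0 (GMod.diff, une). If Q is in Kg: the two
values are equal (GMod.far) and not 0, since xc (X ± P) = xc Q would give X ± P = ±Q in Kg (xc_eq). -/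
theorem Xi_unit (h : Dta A B Om j act m ψ l) (hU : UDat Om j act m ψ l μ a ρ τ H R D S)
    {T R₁ : Pt (WAB A B) Ω} (hT : l • T = 0) (h0 : T ≠ 0) {n : ℕ} (hn : n • R₁ = 0)
    (hnl : Nat.Coprime n l) (hnm : Nat.Coprime n (Nm μ)) (V : ValuationSubring Ω) :
    V.valuation (Xi D S (T + R₁)) = 1 := by
  obtain ⟨Kg, u, hG⟩ := h.gmod V
  obtain ⟨hal, ham⟩ := ub6b_a h hU
  have hmT : l • (-T) = 0 := by rw [smul_neg, hT, neg_zero]
  have hmT0 : -T ≠ 0 := neg_ne_zero.2 h0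
  have hmn : n • (-R₁) = 0 := by rw [smul_neg, hn, neg_zero]
  have key : ∀ X ∈ D, ∀ Q : Pt (WAB A B) Ω, a • Q = 0 → X + (T + R₁) + Q ∉ Kg ∧ X - (T + R₁) + Q ∉ Kg := by
    intro X hX Q hQ
    constructor
    · have h1 := not_Kg h hU V Kg hG.tors hX hT h0 hn hnl hnm hQ hal ham
      rwa [add_assoc X T R₁] at h1
    · have h1 := not_Kg h hU V Kg hG.tors hX hmT hmT0 hmn hnl hnm hQ hal ham
      have e : X + -T + -R₁ = X - (T + R₁) := by abel
      rwa [e] at h1
  unfold Xi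
  rw [map_prod]
  apply Finset.prod_eq_one
  intro X hX
  have hz : a • (0 : Pt (WAB A B) Ω) = 0 := smul_zero _
  obtain ⟨k1, k1'⟩ := key X hX 0 hz
  rw [add_zero] at k1 k1'
  have hval : ∀ Q ∈ S, V.valuation (xc (X + (T + R₁)) - xc Q) ≠ 0 ∧
      V.valuation (xc (X + (T + R₁)) - xc Q) = V.valuation (xc (X - (T + R₁)) - xc Q) := by
    intro Q hQ
    obtain ⟨hQ0, haQ⟩ := S_ne hU hQ
    obtain ⟨k2, k2'⟩ := key X hX Q haQ
    obtain ⟨k3, k3'⟩ := key X hX (-Q) (by rw [smul_neg, haQ, neg_zero])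
    rw [← sub_eq_add_neg] at k3 k3'
    exact ub6b_pt V hG k1 k1' hQ0 k3 k3' k2 k2'
  have h5 : V.valuation (Phi S (X + (T + R₁))) = V.valuation (Phi S (X - (T + R₁))) := by
    unfold Phi
    rw [map_prod, map_prod]
    exact Finset.prod_congr rfl fun Q hQ => (hval Q hQ).2
  have h6 : V.valuation (Phi S (X + (T + R₁))) ≠ 0 := by
    unfold Phi
    rw [map_prod]
    exact Finset.prod_ne_zero_iff.2 fun Q hQ => (hval Q hQ).1
  rw [map_div₀, ← h5, div_self h6]

end H55K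
end

-- from Lib.H55K.UB7A
section

/-! # H55K: elliptic units: congruences -/

open NumberField IsDedekindDomain WeierstrassCurve

namespace H55K

open H55P (IQ embF eF LF Per IsHecke Pt ac Inert Dec Nm)
open H35P (WAB Ker tt)


variable {F : Type} [Field F] [NumberField F] [IQ F] {A B : F} {Om : ℂ} {Ω : Type} [Field Ω] [DecidableEq Ω]
  [Algebra F Ω] {j : Ω →+* ℂ} {act : 𝓞 F →+* AddMonoid.End (Pt (WAB A B) Ω)} {m : Ideal (𝓞 F)}
  {ψ : Ideal (𝓞 F) →*₀ 𝓞 F} {l : ℕ} {μ : 𝓞 F} {a : ℕ} {ρ τ : Pt (WAB A B) Ω} {H R : Finset (𝓞 F)}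
  {D S : Finset (Pt (WAB A B) Ω)}

omit [NumberField F] [IQ F] [DecidableEq Ω] in
theorem ub7a_prod {ι : Type} (V : ValuationSubring Ω) (s : Finset ι) (f g : ι → Ω)
    (hf : ∀ i ∈ s, V.valuation (f i) ≤ 1) (hg : ∀ i ∈ s, V.valuation (g i) ≤ 1)
    (hfg : ∀ i ∈ s, V.valuation (f i - g i) < 1) :
    V.valuation (∏ i ∈ s, f i - ∏ i ∈ s, g i) < 1 := by
  classical
  induction s using Finset.induction_on with
  | empty => simp
  | insert i s hi ih =>
    rw [Finset.prod_insert hi, Finset.prod_insert hi]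
    have ih' := ih (fun k hk => hf k (Finset.mem_insert_of_mem hk))
      (fun k hk => hg k (Finset.mem_insert_of_mem hk)) (fun k hk => hfg k (Finset.mem_insert_of_mem hk))
    have e : f i * ∏ k ∈ s, f k - g i * ∏ k ∈ s, g k =
        (f i - g i) * ∏ k ∈ s, f k + (∏ k ∈ s, f k - ∏ k ∈ s, g k) * g i := by ring
    rw [e]
    refine V.valuation.map_add_lt ?_ ?_
    · rw [map_mul]
      refine mul_lt_one_of_lt_of_le (hfg i (Finset.mem_insert_self i s)) ?_
      rw [map_prod]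
      exact Finset.prod_le_one' fun k hk => hf k (Finset.mem_insert_of_mem hk)
    · rw [map_mul]
      exact mul_lt_one_of_lt_of_le ih' (hg i (Finset.mem_insert_self i s))

/-- Chunk UB7A (S/M). V good, V(a) = 1: for Z with Z, Z + Q, Z - Q not in Ker for all Q in S: V(Phi S Z) = 1 (cls_diff; Q is not in Ker by ker_tors), and if R₁ is in Ker then V(Phi S (Z + R₁) - Phi S Z) < 1 (transl or cls_conv, products of integral elements). -/
theorem Phi_unit (hU : UDat Om j act m ψ l μ a ρ τ H R D S) {V : ValuationSubring Ω} (hV : GV A B V)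
    (ha : V.valuation (a : Ω) = 1) {Z : Pt (WAB A B) Ω} (hZ : ¬ Ker V Z)
    (hZ' : ∀ Q ∈ S, ¬ Ker V (Z + Q) ∧ ¬ Ker V (Z - Q)) : V.valuation (Phi S Z) = 1 ∧
    ∀ R₁ : Pt (WAB A B) Ω, Ker V R₁ → V.valuation (Phi S (Z + R₁) - Phi S Z) < 1 := by
  have hQ : ∀ Q ∈ S, ¬ Ker V Q := by
    intro Q hQ hK
    obtain ⟨h0, h1⟩ := S_ne hU hQ
    exact h0 (ker_tors hV a ha h1 hK)
  have h1 : ∀ Q ∈ S, V.valuation (xc Z - xc Q) = 1 := fun Q hQS =>
    cls_diff hV hZ (hQ Q hQS) (hZ' Q hQS).2 (hZ' Q hQS).1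
  refine ⟨?_, fun R₁ hR => ?_⟩
  · unfold Phi
    rw [map_prod]
    exact Finset.prod_eq_one h1
  · have h2 : Ker V ((Z + R₁) - Z) := by
      rw [add_sub_cancel_left]
      exact hR
    obtain ⟨h3, h4, -⟩ := cls_conv hV hZ h2
    unfold Phi
    refine ub7a_prod V S _ _ (fun Q hQS => ?_) (fun Q hQS => (h1 Q hQS).le) fun Q _ => ?_
    · exact (V.valuation.map_sub _ _).trans (max_le (not_ker V h3).2 (not_ker V (hQ Q hQS)).2)
    · have e : xc (Z + R₁) - xc Q - (xc Z - xc Q) = xc (Z + R₁) - xc Z := by ring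
      rw [e]
      exact h4

end H55K
end

-- from Lib.H55K.UB7B
section

/-! # H55K: elliptic units: congruences -/

open NumberField IsDedekindDomain WeierstrassCurve

namespace H55K

open H55P (IQ embF eF LF Per IsHecke Pt ac Inert Dec Nm)
open H35P (WAB Ker tt)


variable {F : Type} [Field F] [NumberField F] [IQ F] {A B : F} {Om : ℂ} {Ω : Type} [Field Ω] [DecidableEq Ω]
  [Algebra F Ω] {j : Ω →+* ℂ} {act : 𝓞 F →+* AddMonoid.End (Pt (WAB A B) Ω)} {m : Ideal (𝓞 F)}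
  {ψ : Ideal (𝓞 F) →*₀ 𝓞 F} {l : ℕ} {μ : 𝓞 F} {a : ℕ} {ρ τ : Pt (WAB A B) Ω} {H R : Finset (𝓞 F)}
  {D S : Finset (Pt (WAB A B) Ω)}

omit [NumberField F] [IQ F] [DecidableEq Ω] in
theorem ub7b_val (V : ValuationSubring Ω) {f g : Ω} (hg : V.valuation g = 1) (h : V.valuation (f - g) < 1) :
    V.valuation f = 1 := by
  have h1 : V.valuation (f - g) < V.valuation g := by rwa [hg]
  have h2 := V.valuation.map_add_eq_of_lt_left h1
  rw [add_sub_cancel, hg] at h2
  exact h2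

omit [NumberField F] [IQ F] [DecidableEq Ω] in
theorem ub7b_quot (V : ValuationSubring Ω) {f g f' g' : Ω} (hg : V.valuation g = 1) (h : V.valuation (f - g) < 1)
    (hg' : V.valuation g' = 1) (h' : V.valuation (f' - g') < 1) :
    V.valuation (f / f') = 1 ∧ V.valuation (g / g') = 1 ∧ V.valuation (f / f' - g / g') < 1 := by
  have hf := ub7b_val V hg h
  have hf' := ub7b_val V hg' h'
  have f0 : f' ≠ 0 := by
    rintro rfl
    rw [map_zero] at hf'
    exact zero_ne_one hf'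
  have g0 : g' ≠ 0 := by
    rintro rfl
    rw [map_zero] at hg'
    exact zero_ne_one hg'
  refine ⟨by rw [map_div₀, hf, hf', div_one], by rw [map_div₀, hg, hg', div_one], ?_⟩
  have e : f / f' - g / g' = ((f - g) * g' - g * (f' - g')) / (f' * g') := by
    field_simp
    ring
  rw [e, map_div₀, map_mul V.valuation f' g', hf', hg', one_mul, div_one]
  refine V.valuation.map_sub_lt ?_ ?_
  · rw [map_mul, hg', mul_one]
    exact h
  · rw [map_mul, hg, one_mul]
    exact h'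

/-- Chunk UB7B (S/M). not_Kg for Kg = kerG hV, then Phi_unit for Z = X + T and X - T: quotients and products of units congruent to each other. -/
theorem Xi_cong (h : Dta A B Om j act m ψ l) (hU : UDat Om j act m ψ l μ a ρ τ H R D S)
    {V : ValuationSubring Ω} (hV : GV A B V) (ha : V.valuation (a : Ω) = 1) {T R₁ : Pt (WAB A B) Ω}
    (hT : l • T = 0) (h0 : T ≠ 0) (hR : Ker V R₁) : V.valuation (Xi D S (T + R₁) - Xi D S T) < 1 := by
  obtain ⟨hal, ham⟩ := ub6b_a h hU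
  have htors : ∀ n : ℕ, V.valuation (n : Ω) = 1 → ∀ T ∈ kerG hV, n • T = 0 → T = 0 :=
    fun n hn T hT hnT => ker_tors hV n hn hnT hT
  have key : ∀ T' : Pt (WAB A B) Ω, l • T' = 0 → T' ≠ 0 → ∀ X ∈ D, ∀ Q : Pt (WAB A B) Ω, a • Q = 0 →
      ¬ Ker V (X + T' + Q) := by
    intro T' hT' h0' X hX Q hQ
    have h1 := not_Kg h hU V (kerG hV) htors hX hT' h0' (R₁ := 0) (n := 1) (smul_zero _) (Nat.coprime_one_left l)
      (Nat.coprime_one_left _) hQ hal ham
    rw [add_zero] at h1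
    exact h1
  have key2 : ∀ T' : Pt (WAB A B) Ω, l • T' = 0 → T' ≠ 0 → ∀ X ∈ D,
      V.valuation (Phi S (X + T')) = 1 ∧
      ∀ R₁ : Pt (WAB A B) Ω, Ker V R₁ → V.valuation (Phi S (X + T' + R₁) - Phi S (X + T')) < 1 := by
    intro T' hT' h0' X hX
    apply Phi_unit hU hV ha
    · have h1 := key T' hT' h0' X hX 0 (smul_zero _)
      rwa [add_zero] at h1
    · intro Q hQS
      obtain ⟨-, haQ⟩ := S_ne hU hQS
      refine ⟨key T' hT' h0' X hX Q haQ, ?_⟩
      rw [sub_eq_add_neg]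
      exact key T' hT' h0' X hX (-Q) (by rw [smul_neg, haQ, neg_zero])
  have hmT : l • (-T) = 0 := by rw [smul_neg, hT, neg_zero]
  have hmT0 : -T ≠ 0 := neg_ne_zero.2 h0
  have main : ∀ X ∈ D, V.valuation (Phi S (X + (T + R₁)) / Phi S (X - (T + R₁))) = 1 ∧
      V.valuation (Phi S (X + T) / Phi S (X - T)) = 1 ∧
      V.valuation (Phi S (X + (T + R₁)) / Phi S (X - (T + R₁)) - Phi S (X + T) / Phi S (X - T)) < 1 := by
    intro X hX
    obtain ⟨a1, a2⟩ := key2 T hT h0 X hX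
    obtain ⟨b1, b2⟩ := key2 (-T) hmT hmT0 X hX
    have a3 := a2 R₁ hR
    have b3 := b2 (-R₁) (kneg hR)
    have e1 : X + T + R₁ = X + (T + R₁) := by abel
    have e2 : X + -T + -R₁ = X - (T + R₁) := by abel
    have e3 : X + -T = X - T := by abel
    rw [e1] at a3
    rw [e2, e3] at b3
    rw [e3] at b1
    exact ub7b_quot V a1 a3 b1 b3
  unfold Xi
  exact ub7a_prod V D _ _ (fun X hX => (main X hX).1.le) (fun X hX => (main X hX).2.1.le) fun X hX => (main X hX).2.2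

end H55K
end
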