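import Mathlib
import Pool.Agent.Lib.H1M.PP2.D_H16C_Stm
import Pool.Agent.Lib.H1M.PP2.M005
import Pool.Agent.Lib.H1M.PP2.M017
import Pool.Agent.Lib.H1M.PP2.M019
import Pool.Agent.Lib.H1M.PP2.M020
import Pool.Agent.Lib.H1M.PP2.M023
import Pool.Agent.Lib.H1M.PP2.M031
import Pool.Agent.Lib.H1M.PP2.M040

/-! Merged copies (to shorten the build) of Lib.CFT.D_32, Lib.CFT.N01, Lib.H19Q.Tr, Lib.SSG.Z.ZD, Lib.SSG.Z.ZH, Lib.SSG.Z.A0, Lib.H35T.R1, Lib.H35T.R2, Lib.H35T.R3, Lib.H35T.R4, Lib.H35T.R5, Lib.H55W.C1, Lib.H55W.C2, Lib.H55W.C3, Lib.H55W.C4, Lib.H55G.I1b. -/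

-- from Lib.CFT.D_32
section

/-! # Definitions for MP_32ceeb (Sato-Tate in even degree)

Om: an algebraic closure of the rational numbers (a field of type Type with IsAlgClosure ℚ Om). Its Galois group Om ≃ₐ[ℚ] Om carries the Krull topology of
Mathlib. 𝓞 Om: the ring of all algebraic integers of Om. Inertia groups and Frobenius elements at the prime ideals of 𝓞 Om; the known properties
(Deligne) of the l-adic representations on the cohomology of a smooth projective variety over ℚ, twisted to weight 0. -/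

open NumberField Polynomial

namespace ST32

section general

variable {K : Type} [Field K] {Om : Type} [Field Om] [Algebra K Om]

/-- g is in the inertia group of the prime P of the ring of all algebraic integers: g x - x is in P for all x. -/
def Inert (P : Ideal (𝓞 Om)) (g : Om ≃ₐ[K] Om) : Prop := ∀ x : 𝓞 Om, g • x - x ∈ P


end general

section rationals

variable {Om : Type} [Field Om] [CharZero Om]




end rationals

section numberfield

variable {K : Type} [Field K] [NumberField K] {Om : Type} [Field Om] [Algebra K Om]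




end numberfield

end ST32
end

-- from Lib.CFT.N01
section

/-! # CFT module N (levels), N01: the absolute Galois group acts on the ring of all algebraic integers -/

open NumberField IsDedekindDomain

namespace ST32

section

variable (K : Type) [Field K] (Om : Type) [Field Om] [Algebra K Om]

instance n01_smulcomm : SMulCommClass (Om ≃ₐ[K] Om) (𝓞 K) (𝓞 Om) where
  smul_comm g a x := by
    apply RingOfIntegers.ext
    show g ((a • x : 𝓞 Om) : Om) = ((a • (g • x) : 𝓞 Om) : Om)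
    rw [Algebra.smul_def, Algebra.smul_def]
    show g (algebraMap K Om (a : K) * (x : Om)) = algebraMap K Om (a : K) * g (x : Om)
    rw [map_mul, AlgEquiv.commutes]

instance n01_inv [IsGalois K Om] : Algebra.IsInvariant (𝓞 K) (𝓞 Om) (Om ≃ₐ[K] Om) where
  isInvariant x hx := by
    have h1 : (x : Om) ∈ Set.range (algebraMap K Om) := by
      rw [InfiniteGalois.mem_range_algebraMap_iff_fixed]
      intro g
      exact congrArg (fun y : 𝓞 Om => (y : Om)) (hx g)
    obtain ⟨a, ha⟩ := h1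
    have h2 : IsIntegral ℤ a := by
      have h3 : IsIntegral ℤ (algebraMap K Om a) := by
        rw [ha]
        exact RingOfIntegers.isIntegral_coe x
      exact (isIntegral_algebraMap_iff (algebraMap K Om).injective).1 h3
    exact ⟨⟨a, h2⟩, RingOfIntegers.ext ha⟩

theorem n01_cont [Algebra.IsIntegral K Om] [TopologicalSpace (𝓞 Om)] [DiscreteTopology (𝓞 Om)] :
    ContinuousSMul (Om ≃ₐ[K] Om) (𝓞 Om) := by
  rw [continuousSMul_iff_stabilizer_isOpen]
  intro x
  have h := stabilizer_isOpen_of_isIntegral (K := K) (L := Om) (x : Om)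
  have e : (MulAction.stabilizer (Om ≃ₐ[K] Om) x : Set (Om ≃ₐ[K] Om)) = (MulAction.stabilizer (Om ≃ₐ[K] Om) (x : Om) : Set (Om ≃ₐ[K] Om)) := by
    ext g
    simp only [SetLike.mem_coe, MulAction.mem_stabilizer_iff]
    constructor
    · intro h
      exact congrArg (fun y : 𝓞 Om => (y : Om)) h
    · intro h
      exact RingOfIntegers.ext h
  rw [e]
  exact h

/-- Transitivity on the primes above. -/
theorem exists_smul_eq [IsGalois K Om] (P Q : Ideal (𝓞 Om)) (hP : P.IsPrime) (hQ : Q.IsPrime)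
    (h : P.comap (algebraMap (𝓞 K) (𝓞 Om)) = Q.comap (algebraMap (𝓞 K) (𝓞 Om))) :
    ∃ g : Om ≃ₐ[K] Om, ∀ x : 𝓞 Om, x ∈ P ↔ g • x ∈ Q := by
  let _ : TopologicalSpace (𝓞 Om) := ⊥
  have : DiscreteTopology (𝓞 Om) := ⟨rfl⟩
  have := n01_cont K Om
  have := hP
  have := hQ
  obtain ⟨g, hg⟩ := Algebra.IsInvariant.exists_smul_of_under_eq_of_profinite (A := 𝓞 K) (G := Om ≃ₐ[K] Om) P Q h
  refine ⟨g, fun x => ?_⟩
  open scoped Pointwise in
  rw [hg, Ideal.smul_mem_pointwise_smul_iff]


end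

end ST32
end

-- from Lib.H19Q.Tr
section

/-!
# The Tate-Shafarevich groups of two isomorphic Weierstrass curves are isomorphic

`D : ZL1_D W W' u r s t`: the change of variables `X = u^2 x + r`, `Y = u^3 y + u^2 s x + t` over `K`.
-/

open NumberField IsDedekindDomain WeierstrassCurve

namespace H19Q

open H19Z H16C

section base

variable {K : Type} [Field K] {W W' : WeierstrassCurve.Affine K} {u r s t : K}

theorem D_map (D : ZL1_D W W' u r s t) (F : Type) [Field F] [Algebra K F] :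
    ZL1_D (WeierstrassCurve.Affine.baseChange W F) (WeierstrassCurve.Affine.baseChange W' F)
      (algebraMap K F u) (algebraMap K F r) (algebraMap K F s) (algebraMap K F t) where
  hu := (map_ne_zero _).2 D.hu
  h1 := by
    have h := congrArg (algebraMap K F) D.h1
    simp only [map_mul, map_add, map_ofNat] at h
    exact h
  h2 := by
    have h := congrArg (algebraMap K F) D.h2
    simp only [map_mul, map_add, map_sub, map_pow, map_ofNat] at h
    exact h
  h3 := by
    have h := congrArg (algebraMap K F) D.h3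
    simp only [map_mul, map_add, map_sub, map_pow, map_ofNat] at h
    exact h
  h4 := by
    have h := congrArg (algebraMap K F) D.h4
    simp only [map_mul, map_add, map_sub, map_pow, map_ofNat] at h
    exact h
  h6 := by
    have h := congrArg (algebraMap K F) D.h6
    simp only [map_mul, map_add, map_sub, map_pow, map_ofNat] at h
    exact h

variable [W.IsElliptic] [W'.IsElliptic]

/-- the isomorphism on the points over `F` -/
noncomputable def ff (D : ZL1_D W W' u r s t) (F : Type) [Field F] [Algebra K F] :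
    (WeierstrassCurve.Affine.baseChange W F).Point → (WeierstrassCurve.Affine.baseChange W' F).Point :=
  haveI : (WeierstrassCurve.Affine.baseChange W F).IsElliptic := inferInstanceAs (W.map (algebraMap K F)).IsElliptic
  haveI : (WeierstrassCurve.Affine.baseChange W' F).IsElliptic := inferInstanceAs (W'.map (algebraMap K F)).IsElliptic
  ZL1_f (D_map D F)


theorem ff_add (D : ZL1_D W W' u r s t) (F : Type) [Field F] [Algebra K F] [DecidableEq F]
    (P Q : (WeierstrassCurve.Affine.baseChange W F).Point) : ff D F (P + Q) = ff D F P + ff D F Q :=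
  haveI : (WeierstrassCurve.Affine.baseChange W F).IsElliptic := inferInstanceAs (W.map (algebraMap K F)).IsElliptic
  haveI : (WeierstrassCurve.Affine.baseChange W' F).IsElliptic := inferInstanceAs (W'.map (algebraMap K F)).IsElliptic
  ZL1_f_add (D_map D F) P Q

theorem ff_inj (D : ZL1_D W W' u r s t) (F : Type) [Field F] [Algebra K F] :
    Function.Injective (ff D F) :=
  haveI : (WeierstrassCurve.Affine.baseChange W F).IsElliptic := inferInstanceAs (W.map (algebraMap K F)).IsElliptic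
  haveI : (WeierstrassCurve.Affine.baseChange W' F).IsElliptic := inferInstanceAs (W'.map (algebraMap K F)).IsElliptic
  ZL1_f_inj (D_map D F)

theorem ff_surj (D : ZL1_D W W' u r s t) (F : Type) [Field F] [Algebra K F] :
    Function.Surjective (ff D F) :=
  haveI : (WeierstrassCurve.Affine.baseChange W F).IsElliptic := inferInstanceAs (W.map (algebraMap K F)).IsElliptic
  haveI : (WeierstrassCurve.Affine.baseChange W' F).IsElliptic := inferInstanceAs (W'.map (algebraMap K F)).IsElliptic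
  ZL1_f_surj (D_map D F)

open Classical in
theorem ff_map (D : ZL1_D W W' u r s t) {F F' : Type} [Field F] [Algebra K F] [Field F'] [Algebra K F']
    (φ : F →ₐ[K] F') (P : (WeierstrassCurve.Affine.baseChange W F).Point) :
    ff D F' (WeierstrassCurve.Affine.Point.map φ P) = WeierstrassCurve.Affine.Point.map φ (ff D F P) := by
  rcases P with _ | ⟨x, y, h⟩
  · rfl
  · change WeierstrassCurve.Affine.Point.some _ _ _ = WeierstrassCurve.Affine.Point.some _ _ _
    rw [WeierstrassCurve.Affine.Point.some.injEq]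
    constructor
    · change algebraMap K F' u ^ 2 * φ x + algebraMap K F' r = φ (algebraMap K F u ^ 2 * x + algebraMap K F r)
      simp only [map_add, map_mul, map_pow, AlgHom.commutes]
    · change algebraMap K F' u ^ 3 * φ y + algebraMap K F' u ^ 2 * algebraMap K F' s * φ x + algebraMap K F' t =
        φ (algebraMap K F u ^ 3 * y + algebraMap K F u ^ 2 * algebraMap K F s * x + algebraMap K F t)
      simp only [map_add, map_mul, map_pow, AlgHom.commutes]

open Classical in
/-- the isomorphism of the groups of points over `F` -/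
noncomputable def fe (D : ZL1_D W W' u r s t) (F : Type) [Field F] [Algebra K F] :
    (WeierstrassCurve.Affine.baseChange W F).Point ≃+ (WeierstrassCurve.Affine.baseChange W' F).Point :=
  AddEquiv.ofBijective (AddMonoidHom.mk' (ff D F) (ff_add D F)) ⟨ff_inj D F, ff_surj D F⟩

open Classical in
theorem fe_map (D : ZL1_D W W' u r s t) {F F' : Type} [Field F] [Algebra K F] [Field F'] [Algebra K F']
    (φ : F →ₐ[K] F') (P : (WeierstrassCurve.Affine.baseChange W F).Point) :
    fe D F' (WeierstrassCurve.Affine.Point.map φ P) = WeierstrassCurve.Affine.Point.map φ (fe D F P) :=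
  ff_map D φ P

open Classical in
theorem fe_map_symm (D : ZL1_D W W' u r s t) {F F' : Type} [Field F] [Algebra K F] [Field F'] [Algebra K F']
    (φ : F →ₐ[K] F') (P : (WeierstrassCurve.Affine.baseChange W' F).Point) :
    (fe D F').symm (WeierstrassCurve.Affine.Point.map φ P) =
      WeierstrassCurve.Affine.Point.map φ ((fe D F).symm P) := by
  apply (fe D F').injective
  rw [AddEquiv.apply_symm_apply, fe_map, AddEquiv.apply_symm_apply]

open Classical in
theorem fe_act (D : ZL1_D W W' u r s t) (Ω : Type) [Field Ω] [Algebra K Ω] (g : Ω ≃ₐ[K] Ω)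
    (P : (WeierstrassCurve.Affine.baseChange W Ω).Point) :
    fe D Ω (act W Ω g P) = act W' Ω g (fe D Ω P) := fe_map D (g : Ω →ₐ[K] Ω) P

open Classical in
theorem fe_act_symm (D : ZL1_D W W' u r s t) (Ω : Type) [Field Ω] [Algebra K Ω] (g : Ω ≃ₐ[K] Ω)
    (P : (WeierstrassCurve.Affine.baseChange W' Ω).Point) :
    (fe D Ω).symm (act W' Ω g P) = act W Ω g ((fe D Ω).symm P) := fe_map_symm D (g : Ω →ₐ[K] Ω) P

open Classical in
theorem coc_iff (D : ZL1_D W W' u r s t) (Ω : Type) [Field Ω] [Algebra K Ω]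
    (c : (Ω ≃ₐ[K] Ω) → (WeierstrassCurve.Affine.baseChange W Ω).Point) :
    IsCocycle W' Ω (fun g => fe D Ω (c g)) ↔ IsCocycle W Ω c := by
  unfold IsCocycle
  refine and_congr ?_ ?_
  · refine forall_congr' fun g => forall_congr' fun h => ?_
    rw [← fe_act, ← map_add]
    exact (fe D Ω).injective.eq_iff
  · refine exists_congr fun F => and_congr_right fun _ => forall_congr' fun g => forall_congr' fun _ => ?_
    exact AddEquiv.map_eq_zero_iff _

open Classical in
theorem loc_iff (D : ZL1_D W W' u r s t) (Ω : Type) [Field Ω] [Algebra K Ω] (L : Type) [Field L] [Algebra K L]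
    (c : (Ω ≃ₐ[K] Ω) → (WeierstrassCurve.Affine.baseChange W Ω).Point) :
    LocTriv W' Ω L (fun g => fe D Ω (c g)) ↔ LocTriv W Ω L c := by
  unfold LocTriv
  refine forall_congr' fun ι => ?_
  constructor
  · rintro ⟨Q, hQ⟩
    refine ⟨(fe D (AlgebraicClosure L)).symm Q, fun σ g h => ?_⟩
    have h1 := hQ σ g h
    apply (fe D (AlgebraicClosure L)).injective
    rw [fe_map, map_sub, fe_act, AddEquiv.apply_symm_apply]
    exact h1
  · rintro ⟨Q, hQ⟩
    refine ⟨fe D (AlgebraicClosure L) Q, fun σ g h => ?_⟩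
    have h1 := congrArg (fe D (AlgebraicClosure L)) (hQ σ g h)
    rw [fe_map, map_sub, fe_act] at h1
    exact h1

open Classical in
theorem cob_iff (D : ZL1_D W W' u r s t) (Ω : Type) [Field Ω] [Algebra K Ω]
    (c : (Ω ≃ₐ[K] Ω) → (WeierstrassCurve.Affine.baseChange W Ω).Point) :
    IsCoboundary W' Ω (fun g => fe D Ω (c g)) ↔ IsCoboundary W Ω c := by
  constructor
  · rintro ⟨Q, hQ⟩
    refine ⟨(fe D Ω).symm Q, fun g => ?_⟩
    apply (fe D Ω).injective
    rw [map_sub, fe_act, AddEquiv.apply_symm_apply]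
    exact hQ g
  · rintro ⟨Q, hQ⟩
    refine ⟨fe D Ω Q, fun g => ?_⟩
    show fe D Ω (c g) = _
    rw [hQ g, map_sub, fe_act]

variable [NumberField K]

open Classical in
theorem mem_iff (D : ZL1_D W W' u r s t) (Ω : Type) [Field Ω] [Algebra K Ω]
    (c : (Ω ≃ₐ[K] Ω) → (WeierstrassCurve.Affine.baseChange W Ω).Point) :
    (fun g => fe D Ω (c g)) ∈ ZSha W' Ω ↔ c ∈ ZSha W Ω := by
  show IsCocycle W' Ω _ ∧ EverywhereTriv W' Ω _ ↔ IsCocycle W Ω _ ∧ EverywhereTriv W Ω _
  unfold EverywhereTriv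
  rw [coc_iff]
  refine and_congr_right fun _ => and_congr ?_ ?_
  · exact forall_congr' fun v => loc_iff D Ω _ c
  · exact forall_congr' fun v => loc_iff D Ω _ c

open Classical in
/-- the map on the cocycles -/
noncomputable def zz (D : ZL1_D W W' u r s t) (Ω : Type) [Field Ω] [Algebra K Ω] : ZSha W Ω →+ ZSha W' Ω where
  toFun c := ⟨fun g => fe D Ω (c.1 g), (mem_iff D Ω c.1).2 c.2⟩
  map_zero' := by
    apply Subtype.ext
    funext g
    show fe D Ω 0 = 0
    exact map_zero _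
  map_add' c c' := by
    apply Subtype.ext
    funext g
    show fe D Ω (c.1 g + c'.1 g) = fe D Ω (c.1 g) + fe D Ω (c'.1 g)
    exact map_add _ _ _

open Classical in
theorem zz_surj (D : ZL1_D W W' u r s t) (Ω : Type) [Field Ω] [Algebra K Ω] : Function.Surjective (zz D Ω) := by
  intro c'
  have e : (fun g => fe D Ω ((fe D Ω).symm (c'.1 g))) = c'.1 := by
    funext g
    exact AddEquiv.apply_symm_apply _ _
  refine ⟨⟨fun g => (fe D Ω).symm (c'.1 g), (mem_iff D Ω _).1 ?_⟩, Subtype.ext e⟩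
  rw [e]
  exact c'.2

open Classical in
theorem zz_B (D : ZL1_D W W' u r s t) (Ω : Type) [Field Ω] [Algebra K Ω] (c : ZSha W Ω) :
    zz D Ω c ∈ (BSha W' Ω).addSubgroupOf (ZSha W' Ω) ↔ c ∈ (BSha W Ω).addSubgroupOf (ZSha W Ω) := by
  rw [AddSubgroup.mem_addSubgroupOf, AddSubgroup.mem_addSubgroupOf]
  exact cob_iff D Ω c.1

open Classical in
/-- Isomorphic curves have isomorphic Tate-Shafarevich groups. -/
theorem sha_iso (D : ZL1_D W W' u r s t) (Ω : Type) [Field Ω] [Algebra K Ω] :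
    Nonempty (Sha W Ω ≃+ Sha W' Ω) := by
  have hle : (BSha W Ω).addSubgroupOf (ZSha W Ω) ≤
      ((BSha W' Ω).addSubgroupOf (ZSha W' Ω)).comap (zz D Ω) := fun c hc => (zz_B D Ω c).2 hc
  let f : (ZSha W Ω ⧸ (BSha W Ω).addSubgroupOf (ZSha W Ω)) →+
      (ZSha W' Ω ⧸ (BSha W' Ω).addSubgroupOf (ZSha W' Ω)) := QuotientAddGroup.map _ _ (zz D Ω) hle
  have hf : Function.Bijective f := by
    constructor
    · rw [injective_iff_map_eq_zero]
      intro x hx
      obtain ⟨c, rfl⟩ := QuotientAddGroup.mk_surjective x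
      have h1 : (QuotientAddGroup.mk (zz D Ω c) : ZSha W' Ω ⧸ (BSha W' Ω).addSubgroupOf (ZSha W' Ω)) = 0 := hx
      rw [QuotientAddGroup.eq_zero_iff] at h1 ⊢
      exact (zz_B D Ω c).1 h1
    · intro x
      obtain ⟨c', rfl⟩ := QuotientAddGroup.mk_surjective x
      obtain ⟨c, rfl⟩ := zz_surj D Ω c'
      exact ⟨QuotientAddGroup.mk c, rfl⟩
  exact ⟨AddEquiv.ofBijective f hf⟩

end base

end H19Q
end

-- from Lib.SSG.Z.ZD
section

/-! # SSG/Z: systems of locally trivial classes: definitions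

A system is a group G acting on an abelian group A, with a directed family U of open subgroups and a family D of decomposition subgroups. Its group Sha is the group
of the locally trivial continuous cocycles modulo coboundaries. For G = Gal(Ω/K), A = E(Ω), D = the decomposition groups of the nontrivial valuation rings of Ω it is the
Tate-Shafarevich group of E over K (up to infinite places). -/

open WeierstrassCurve

namespace SSG

/-- A system. -/
structure LS (G A : Type) [Group G] [AddCommGroup A] where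
  act : G →* AddMonoid.End A
  U : Set (Subgroup G)
  D : Set (Subgroup G)
  ne : U.Nonempty
  inf : ∀ u ∈ U, ∀ u' ∈ U, ∃ u'' ∈ U, u'' ≤ u ∧ u'' ≤ u'

namespace LS

variable {G A : Type} [Group G] [AddCommGroup A] (S : LS G A)

/-- Continuous, locally trivial cocycles. -/
structure IsZ (c : G → A) : Prop where
  mul : ∀ g h, c (g * h) = c g + S.act g (c h)
  cont : ∃ u ∈ S.U, ∀ g ∈ u, c g = 0
  loc : ∀ d ∈ S.D, ∃ P, ∀ g ∈ d, c g = S.act g P - P

/-- The group of the continuous, locally trivial cocycles. -/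
def Z : AddSubgroup (G → A) where
  carrier := {c | S.IsZ c}
  zero_mem' := by
    obtain ⟨u, hu⟩ := S.ne
    refine ⟨fun g h => ?_, ⟨u, hu, fun g _ => rfl⟩, fun d _ => ⟨0, fun g _ => ?_⟩⟩
    · rw [Pi.zero_apply, Pi.zero_apply, Pi.zero_apply, map_zero, add_zero]
    · rw [Pi.zero_apply, map_zero, sub_zero]
  add_mem' := by
    rintro c c' (hc : S.IsZ c) (hc' : S.IsZ c')
    refine ⟨fun g h => ?_, ?_, fun d hd => ?_⟩
    · rw [Pi.add_apply, Pi.add_apply, Pi.add_apply, hc.mul, hc'.mul, map_add]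
      abel
    · obtain ⟨u, hu, h1⟩ := hc.cont
      obtain ⟨u', hu', h1'⟩ := hc'.cont
      obtain ⟨w, hw, h2, h2'⟩ := S.inf u hu u' hu'
      refine ⟨w, hw, fun g hg => ?_⟩
      rw [Pi.add_apply, h1 g (h2 hg), h1' g (h2' hg), add_zero]
    · obtain ⟨P, hP⟩ := hc.loc d hd
      obtain ⟨P', hP'⟩ := hc'.loc d hd
      refine ⟨P + P', fun g hg => ?_⟩
      rw [Pi.add_apply, hP g hg, hP' g hg, map_add]
      abel
  neg_mem' := by
    rintro c (hc : S.IsZ c)
    refine ⟨fun g h => ?_, ?_, fun d hd => ?_⟩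
    · rw [Pi.neg_apply, Pi.neg_apply, Pi.neg_apply, hc.mul, map_neg]
      abel
    · obtain ⟨u, hu, h1⟩ := hc.cont
      exact ⟨u, hu, fun g hg => by rw [Pi.neg_apply, h1 g hg, neg_zero]⟩
    · obtain ⟨P, hP⟩ := hc.loc d hd
      refine ⟨-P, fun g hg => ?_⟩
      rw [Pi.neg_apply, hP g hg, map_neg]
      abel


/-- The group of the coboundaries. -/
def B : AddSubgroup (G → A) where
  carrier := {c | ∃ P, ∀ g, c g = S.act g P - P}
  zero_mem' := ⟨0, fun g => by rw [Pi.zero_apply, map_zero, sub_zero]⟩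
  add_mem' := by
    rintro c c' ⟨P, hP⟩ ⟨P', hP'⟩
    refine ⟨P + P', fun g => ?_⟩
    rw [Pi.add_apply, hP, hP', map_add]
    abel
  neg_mem' := by
    rintro c ⟨P, hP⟩
    refine ⟨-P, fun g => ?_⟩
    rw [Pi.neg_apply, hP, map_neg]
    abel


/-- The group Sha of a system. -/
def Sha : Type := S.Z ⧸ (S.B.addSubgroupOf S.Z)

noncomputable instance : AddCommGroup S.Sha := QuotientAddGroup.Quotient.addCommGroup _

/-- The class of a cocycle. -/
def cl : S.Z →+ S.Sha := QuotientAddGroup.mk' _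

theorem cl_surj : Function.Surjective S.cl := QuotientAddGroup.mk'_surjective _

theorem cl_zero (c : S.Z) : S.cl c = 0 ↔ ∃ P, ∀ g, c.1 g = S.act g P - P := by
  refine (QuotientAddGroup.eq_zero_iff (N := S.B.addSubgroupOf S.Z) c).trans ?_
  exact AddSubgroup.mem_addSubgroupOf

/-- The restriction to a subgroup. -/
def res (H : Subgroup G) : LS H A where
  act := S.act.comp H.subtype
  U := {u | ∃ u' ∈ S.U, u = u'.subgroupOf H}
  D := {d | ∃ d' ∈ S.D, d = d'.subgroupOf H}
  ne := by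
    obtain ⟨u, hu⟩ := S.ne
    exact ⟨_, u, hu, rfl⟩
  inf := by
    rintro _ ⟨u, hu, rfl⟩ _ ⟨u', hu', rfl⟩
    obtain ⟨w, hw, h, h'⟩ := S.inf u hu u' hu'
    exact ⟨_, ⟨w, hw, rfl⟩, fun x hx => h hx, fun x hx => h' hx⟩

theorem res_act (H : Subgroup G) (h : H) : (S.res H).act h = S.act h := rfl

end LS

/-- A morphism of systems: a homomorphism e : G' → G and an equivariant homomorphism φ : A → A'. -/
structure Hom {G A G' A' : Type} [Group G] [AddCommGroup A] [Group G'] [AddCommGroup A'] (S : LS G A) (S' : LS G' A')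
    (e : G' →* G) (φ : A →+ A') : Prop where
  eqv : ∀ g a, φ (S.act (e g) a) = S'.act g (φ a)
  U : ∀ u ∈ S.U, ∃ u' ∈ S'.U, ∀ g ∈ u', e g ∈ u
  D : ∀ d' ∈ S'.D, ∃ d ∈ S.D, ∀ g ∈ d', e g ∈ d

/-- The elements of order a power of p. -/
def PP (p : ℕ) (X : Type) [AddCommGroup X] : Type := {x : X // ∃ k : ℕ, p ^ k • x = 0}

section gal

open Classical in
/-- The system of the curve W over k: G = Gal(Ω/k). -/
noncomputable def galS {k : Type} [Field k] (W : WeierstrassCurve k) (Ω : Type) [Field Ω] [Algebra k Ω] :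
    LS (Ω ≃ₐ[k] Ω) (H55P.Pt W Ω) where
  act :=
    { toFun := fun s => H55P.ac W s
      map_one' := by
        ext P
        cases P <;> rfl
      map_mul' := fun s t => by
        ext P
        cases P <;> rfl }
  U := {u | ∃ L : IntermediateField k Ω, FiniteDimensional k L ∧ u = L.fixingSubgroup}
  D := {d | ∃ V : ValuationSubring Ω, V ≠ ⊤ ∧ d = H55P.decS k V}
  ne := ⟨_, ⊥, inferInstance, rfl⟩
  inf := by
    rintro _ ⟨L, hL, rfl⟩ _ ⟨L', hL', rfl⟩
    refine ⟨_, ⟨L ⊔ L', inferInstance, rfl⟩, ?_, ?_⟩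
    · rw [IntermediateField.fixingSubgroup_sup]
      exact inf_le_left
    · rw [IntermediateField.fixingSubgroup_sup]
      exact inf_le_right


end gal

end SSG
end

-- from Lib.SSG.Z.ZH
section

/-! # SSG/Z: functoriality of Sha -/

namespace SSG

variable {G A G' A' G'' A'' : Type} [Group G] [AddCommGroup A] [Group G'] [AddCommGroup A'] [Group G''] [AddCommGroup A'']
  {S : LS G A} {S' : LS G' A'} {S'' : LS G'' A''} {e : G' →* G} {φ : A →+ A'} {e' : G'' →* G'} {φ' : A' →+ A''}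

theorem Hom.isZ (h : Hom S S' e φ) {c : G → A} (hc : S.IsZ c) : S'.IsZ (fun g => φ (c (e g))) := by
  refine ⟨fun g g' => ?_, ?_, fun d' hd' => ?_⟩
  · rw [map_mul, hc.mul, map_add, h.eqv]
  · obtain ⟨u, hu, h1⟩ := hc.cont
    obtain ⟨u', hu', h2⟩ := h.U u hu
    exact ⟨u', hu', fun g hg => by rw [h1 _ (h2 g hg), map_zero]⟩
  · obtain ⟨d, hd, h1⟩ := h.D d' hd'
    obtain ⟨P, hP⟩ := hc.loc d hd
    exact ⟨φ P, fun g hg => by rw [hP _ (h1 g hg), map_sub, h.eqv]⟩

/-- The map on cocycles. -/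
def Hom.mapZ (h : Hom S S' e φ) : S.Z →+ S'.Z where
  toFun c := ⟨fun g => φ (c.1 (e g)), h.isZ c.2⟩
  map_zero' := by
    apply Subtype.ext
    funext g
    exact map_zero φ
  map_add' c c' := by
    apply Subtype.ext
    funext g
    exact map_add φ _ _

theorem Hom.mapZ_apply (h : Hom S S' e φ) (c : S.Z) (g : G') : (h.mapZ c).1 g = φ (c.1 (e g)) := rfl

/-- The map on Sha. -/
noncomputable def Hom.map (h : Hom S S' e φ) : S.Sha →+ S'.Sha :=
  QuotientAddGroup.lift (S.B.addSubgroupOf S.Z) (S'.cl.comp h.mapZ) (by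
    intro c hc
    rw [AddSubgroup.mem_addSubgroupOf] at hc
    obtain ⟨P, hP⟩ := hc
    refine (S'.cl_zero _).2 ⟨φ P, fun g => ?_⟩
    rw [h.mapZ_apply, hP, map_sub, h.eqv])

theorem Hom.map_cl (h : Hom S S' e φ) (c : S.Z) : h.map (S.cl c) = S'.cl (h.mapZ c) := rfl

theorem LS.cl_eq (c c' : S.Z) : S.cl c = S.cl c' ↔ ∃ P, ∀ g, c.1 g = c'.1 g + (S.act g P - P) := by
  rw [← sub_eq_zero, ← map_sub, S.cl_zero]
  refine exists_congr fun P => forall_congr' fun g => ?_
  have h1 : (c - c').1 g = c.1 g - c'.1 g := rfl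
  rw [h1, sub_eq_iff_eq_add, add_comm]

theorem Hom.comp (h : Hom S S' e φ) (h' : Hom S' S'' e' φ') : Hom S S'' (e.comp e') (φ'.comp φ) := by
  refine ⟨fun g a => ?_, fun u hu => ?_, fun d hd => ?_⟩
  · show φ' (φ (S.act (e (e' g)) a)) = _
    rw [h.eqv, h'.eqv]
    rfl
  · obtain ⟨u', hu', h1⟩ := h.U u hu
    obtain ⟨u'', hu'', h2⟩ := h'.U u' hu'
    exact ⟨u'', hu'', fun g hg => h1 _ (h2 g hg)⟩
  · obtain ⟨d', hd', h1⟩ := h'.D d hd
    obtain ⟨d'', hd'', h2⟩ := h.D d' hd'
    exact ⟨d'', hd'', fun g hg => h2 _ (h1 g hg)⟩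

theorem Hom.map_map (h : Hom S S' e φ) (h' : Hom S' S'' e' φ') (x : S.Sha) : h'.map (h.map x) = (h.comp h').map x := by
  obtain ⟨c, rfl⟩ := S.cl_surj x
  rfl

/-- A morphism back and forth which is multiplication by m is multiplication by m on Sha. -/
theorem Hom.map_back (h : Hom S S' e φ) {e₁ : G →* G'} {φ₁ : A' →+ A} (h' : Hom S' S e₁ φ₁) (he : ∀ g, e (e₁ g) = g) {m : ℕ}
    (hm : ∀ a, φ₁ (φ a) = m • a) (x : S.Sha) : h'.map (h.map x) = m • x := by
  obtain ⟨c, rfl⟩ := S.cl_surj x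
  rw [← map_nsmul, h.map_cl, h'.map_cl]
  refine (S.cl_eq _ _).2 ⟨0, fun g => ?_⟩
  rw [map_zero, sub_zero, add_zero]
  show φ₁ (φ (c.1 (e (e₁ g)))) = m • c.1 g
  rw [he, hm]

section PP

variable {p : ℕ} {X Y : Type} [AddCommGroup X] [AddCommGroup Y]

theorem pp_ext {x y : PP p X} (h : x.1 = y.1) : x = y := Subtype.ext h

/-- A homomorphism on the p-primary parts. -/
def ppMap (f : X →+ Y) (x : PP p X) : PP p Y := ⟨f x.1, by
  obtain ⟨k, hk⟩ := x.2
  exact ⟨k, by rw [← map_nsmul, hk, map_zero]⟩⟩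

/-- Multiplication by m prime to p is injective on the p-primary part. -/
theorem pp_inj (hp : p.Prime) {m : ℕ} (hm : ¬ p ∣ m) {x : X} (hx : ∃ k : ℕ, p ^ k • x = 0) (h : m • x = 0) : x = 0 := by
  obtain ⟨k, hk⟩ := hx
  have h1 : Nat.Coprime m (p ^ k) := Nat.Coprime.pow_right k ((Nat.Prime.coprime_iff_not_dvd hp).2 hm).symm
  have h2 : addOrderOf x ∣ m := addOrderOf_dvd_of_nsmul_eq_zero h
  have h3 : addOrderOf x ∣ p ^ k := addOrderOf_dvd_of_nsmul_eq_zero hk
  have h4 : addOrderOf x ∣ 1 := h1 ▸ Nat.dvd_gcd h2 h3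
  exact AddMonoid.addOrderOf_eq_one_iff.1 (Nat.dvd_one.1 h4)

/-- Multiplication by m prime to p is surjective on the p-primary part. -/
theorem pp_surj (hp : p.Prime) {m : ℕ} (hm : ¬ p ∣ m) {x : X} (hx : ∃ k : ℕ, p ^ k • x = 0) :
    ∃ n : ℕ, m • (n • x) = x := by
  obtain ⟨k, hk⟩ := hx
  have h1 : Nat.Coprime m (p ^ k) := Nat.Coprime.pow_right k ((Nat.Prime.coprime_iff_not_dvd hp).2 hm).symm
  rcases Nat.eq_zero_or_pos k with rfl | hk0
  · refine ⟨0, ?_⟩
    rw [pow_zero, one_nsmul] at hk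
    rw [hk]
    simp
  · have h2 : 1 < p ^ k := Nat.one_lt_pow hk0.ne' hp.one_lt
    obtain ⟨n, -, hn⟩ := Nat.exists_mul_mod_eq_one_of_coprime h1 h2
    refine ⟨n, ?_⟩
    rw [← mul_smul]
    have h3 : m * n = p ^ k * (m * n / p ^ k) + 1 := by
      have h4 := Nat.div_add_mod (m * n) (p ^ k)
      rw [hn] at h4
      exact h4.symm
    rw [h3, add_smul, one_smul, mul_comm, mul_smul, hk, smul_zero, zero_add]

/-- Two homomorphisms whose composites are multiplications by a number prime to p. -/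
theorem pp_card (hp : p.Prime) {m : ℕ} (hm : ¬ p ∣ m) (f : X →+ Y) (g : Y →+ X) (hgf : ∀ x, g (f x) = m • x)
    (hfg : ∀ y, f (g y) = m • y) : Nat.card (PP p X) = Nat.card (PP p Y) := by
  refine Nat.card_congr (Equiv.ofBijective (ppMap f) ⟨fun x y h => ?_, fun y => ?_⟩)
  · apply pp_ext
    have h1 : f x.1 = f y.1 := congrArg Subtype.val h
    rw [← sub_eq_zero]
    refine pp_inj hp hm ?_ ?_
    · obtain ⟨k, hk⟩ := x.2
      obtain ⟨l, hl⟩ := y.2
      refine ⟨k + l, ?_⟩
      rw [smul_sub, pow_add, mul_smul, mul_smul, smul_comm (p ^ k) (p ^ l) x.1, hk, hl, smul_zero, smul_zero, sub_zero]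
    · rw [← hgf, map_sub, h1, sub_self, map_zero]
  · obtain ⟨n, hn⟩ := pp_surj hp hm y.2
    refine ⟨⟨g (n • y.1), ?_⟩, ?_⟩
    · obtain ⟨k, hk⟩ := y.2
      exact ⟨k, by rw [← map_nsmul, smul_comm, hk, smul_zero, map_zero]⟩
    · apply pp_ext
      show f (g (n • y.1)) = y.1
      rw [hfg, hn]

end PP

/-- Systems related by morphisms back and forth. -/
theorem Hom.card {p : ℕ} (hp : p.Prime) {m : ℕ} (hm : ¬ p ∣ m) (h : Hom S S' e φ) {e₁ : G →* G'} {φ₁ : A' →+ A}
    (h' : Hom S' S e₁ φ₁) (he : ∀ g, e (e₁ g) = g) (he' : ∀ g, e₁ (e g) = g) (hm1 : ∀ a, φ₁ (φ a) = m • a)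
    (hm2 : ∀ a, φ (φ₁ a) = m • a) : Nat.card (PP p S.Sha) = Nat.card (PP p S'.Sha) :=
  pp_card hp hm h.map h'.map (h.map_back h' he hm1) (h'.map_back h he' hm2)

end SSG
end

-- from Lib.SSG.Z.A0
section

/-! # SSG/Z: the index two step: definitions -/

namespace SSG

variable {G A : Type} [Group G] [AddCommGroup A]

/-- The system S is stable under conjugation. -/
structure LS.Conj (S : LS G A) : Prop where
  U : ∀ u ∈ S.U, ∀ g : G, ∃ u' ∈ S.U, ∀ x ∈ u', g * x * g⁻¹ ∈ u
  D : ∀ d ∈ S.D, ∀ g : G, ∃ d' ∈ S.D, ∀ x ∈ d, g * x * g⁻¹ ∈ d'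

/-- The conjugation h ↦ τ⁻¹ h τ on a normal subgroup. -/
def cj (H : Subgroup G) [H.Normal] (τ : G) : H →* H := (MulAut.conjNormal τ⁻¹ : H ≃* H).toMonoidHom

theorem cj_coe (H : Subgroup G) [H.Normal] (τ : G) (h : H) : ((cj H τ h : H) : G) = τ⁻¹ * h * τ := by
  show ((MulAut.conjNormal τ⁻¹ h : H) : G) = _
  rw [MulAut.conjNormal_apply, inv_inv]

/-- The restriction to a subgroup. -/
theorem res_hom (S : LS G A) (H : Subgroup G) : Hom S (S.res H) H.subtype (AddMonoidHom.id A) := by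
  refine ⟨fun g a => rfl, fun u hu => ⟨_, ⟨u, hu, rfl⟩, fun g hg => hg⟩, ?_⟩
  rintro _ ⟨d, hd, rfl⟩
  exact ⟨d, hd, fun g hg => hg⟩

open Classical in
/-- The extension of a function by zero. -/
noncomputable def ext0 (H : Subgroup G) (c : H → A) (g : G) : A := if h : g ∈ H then c ⟨g, h⟩ else 0

theorem ext0_mem {H : Subgroup G} (c : H → A) {g : G} (h : g ∈ H) : ext0 H c g = c ⟨g, h⟩ := dif_pos h

theorem ext0_not {H : Subgroup G} (c : H → A) {g : G} (h : g ∉ H) : ext0 H c g = 0 := dif_neg h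

/-- The corestriction of a cocycle on a subgroup H of index two, τ not in H. -/
noncomputable def corF (S : LS G A) (H : Subgroup G) (τ : G) (c : H → A) (g : G) : A :=
  ext0 H c g + S.act τ (ext0 H c (τ⁻¹ * g * τ)) + (ext0 H c (g * τ) + S.act τ (ext0 H c (τ⁻¹ * g)))

end SSG
end

-- from Lib.H35T.R1
section

open NumberField IsDedekindDomain

namespace H35T

open H55B

/-! Chunk R1 (M): basic properties of the cubic residue symbol. k = O/v is a finite field with N = absNorm v elements (H0_finite), om is a primitive cube root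
of unity in k (3 is not 0), 3 | N - 1 and for x nonzero in k the element x^((N-1)/3) is a cube root of unity, so 1, om or om^2, which are distinct
modulo v (their differences divide 3). Nonzero and zero: N > 1 so (N-1)/3 >= 1. chi3: exists_chi for k (phi the quotient map), chi x and sym3 v x are both the
class of x^((N-1)/3); neg_jacobi with f = 1. conj: gen v' := cj (gen v) is a primary prime (exists_gen_eq), absNorm v' = absNorm v, and apply cj. -/

theorem r1_om3 : om ^ 3 = 1 := by linear_combination (om - 1) * om_rel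

theorem r1_card (v : HeightOneSpectrum O) [Fintype (O ⧸ v.asIdeal)] :
    Ideal.absNorm v.asIdeal = Fintype.card (O ⧸ v.asIdeal) := by
  rw [Ideal.absNorm_apply, Submodule.cardQuot_apply, Nat.card_eq_fintype_card]

theorem r1_three {v : HeightOneSpectrum O} (h3 : (3 : O) ∉ v.asIdeal) :
    3 ∣ Ideal.absNorm v.asIdeal - 1 ∧ 1 < Ideal.absNorm v.asIdeal := by
  classical
  let i1 := Ideal.Quotient.field v.asIdeal
  let i2 := @Fintype.ofFinite _ (H0_finite v)
  have hN : Ideal.absNorm v.asIdeal = Fintype.card (O ⧸ v.asIdeal) := r1_card v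
  have h : (Ideal.Quotient.mk v.asIdeal) 3 ≠ 0 := by
    rw [Ne, Ideal.Quotient.eq_zero_iff_mem]
    exact h3
  obtain ⟨χ, -, -, hd, -⟩ := exists_chi (O ⧸ v.asIdeal) (Ideal.Quotient.mk v.asIdeal) h
  rw [hN]
  exact ⟨hd, Fintype.one_lt_card⟩

theorem r1_m {v : HeightOneSpectrum O} (h3 : (3 : O) ∉ v.asIdeal) :
    (Ideal.absNorm v.asIdeal - 1) / 3 * 3 = Ideal.absNorm v.asIdeal - 1 ∧
      0 < (Ideal.absNorm v.asIdeal - 1) / 3 := by
  obtain ⟨h1, h2⟩ := r1_three h3
  obtain ⟨m, hm⟩ := h1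
  constructor <;> omega

theorem r1_pow {v : HeightOneSpectrum O} (h3 : (3 : O) ∉ v.asIdeal) {x : O} (hx : x ∉ v.asIdeal) :
    (x ^ ((Ideal.absNorm v.asIdeal - 1) / 3)) ^ 3 - 1 ∈ v.asIdeal := by
  classical
  let i1 := Ideal.Quotient.field v.asIdeal
  let i2 := @Fintype.ofFinite _ (H0_finite v)
  have hN : Ideal.absNorm v.asIdeal = Fintype.card (O ⧸ v.asIdeal) := r1_card v
  rw [← pow_mul, (r1_m h3).1, hN, ← Ideal.Quotient.eq, map_pow, map_one]
  apply FiniteField.pow_card_sub_one_eq_one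
  rw [Ne, Ideal.Quotient.eq_zero_iff_mem]
  exact hx

theorem r1_cases (v : HeightOneSpectrum O) {w : O} (h : w ^ 3 - 1 ∈ v.asIdeal) :
    w - 1 ∈ v.asIdeal ∨ w - om ∈ v.asIdeal ∨ w - om ^ 2 ∈ v.asIdeal := by
  have e : w ^ 3 - 1 = (w - 1) * ((w - om) * (w - om ^ 2)) := by
    linear_combination (w ^ 2 - w) * om_rel + (1 - w) * r1_om3
  rw [e] at h
  rcases v.isPrime.mem_or_mem h with h | h
  · exact Or.inl h
  · exact Or.inr (v.isPrime.mem_or_mem h)

/-- The three cube roots of unity are distinct modulo v. -/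
theorem mu3_inj {v : HeightOneSpectrum O} (h3 : (3 : O) ∉ v.asIdeal) {z z' : O}
    (hz : z = 1 ∨ z = om ∨ z = om ^ 2) (hz' : z' = 1 ∨ z' = om ∨ z' = om ^ 2)
    (h : z - z' ∈ v.asIdeal) : z = z' := by
  by_contra hne
  apply h3
  have key : ∃ c : O, c * (z - z') = 3 := by
    rcases hz with rfl | rfl | rfl <;> rcases hz' with rfl | rfl | rfl
    · exact absurd rfl hne
    · exact ⟨1 - om ^ 2, by linear_combination r1_om3 - om_rel⟩
    · exact ⟨1 - om, by linear_combination r1_om3 - om_rel⟩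
    · exact ⟨-(1 - om ^ 2), by linear_combination r1_om3 - om_rel⟩
    · exact absurd rfl hne
    · exact ⟨om ^ 2 * (1 - om ^ 2), by
        linear_combination (om ^ 3 - om ^ 2 - om + 2) * r1_om3 - om_rel⟩
    · exact ⟨-(1 - om), by linear_combination r1_om3 - om_rel⟩
    · exact ⟨-(om ^ 2 * (1 - om ^ 2)), by
        linear_combination (om ^ 3 - om ^ 2 - om + 2) * r1_om3 - om_rel⟩
    · exact absurd rfl hne
  obtain ⟨c, hc⟩ := key
  rw [← hc]
  exact v.asIdeal.mul_mem_left _ h

theorem r1_unit (v : HeightOneSpectrum O) {z : O} (hz : z = 1 ∨ z = om ∨ z = om ^ 2) :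
    z ^ 3 = 1 ∧ z ∉ v.asIdeal := by
  have h1 : z ^ 3 = 1 := by
    rcases hz with rfl | rfl | rfl
    · ring
    · exact r1_om3
    · linear_combination (om ^ 3 + 1) * r1_om3
  refine ⟨h1, fun h => v.isPrime.ne_top ?_⟩
  rw [Ideal.eq_top_iff_one, ← h1, pow_succ]
  exact v.asIdeal.mul_mem_left _ h

theorem r1_mul {z z' : O} (hz : z = 1 ∨ z = om ∨ z = om ^ 2) (hz' : z' = 1 ∨ z' = om ∨ z' = om ^ 2) :
    z * z' = 1 ∨ z * z' = om ∨ z * z' = om ^ 2 := by
  rcases hz with rfl | rfl | rfl <;> rcases hz' with rfl | rfl | rfl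
  · left; ring
  · right; left; ring
  · right; right; ring
  · right; left; ring
  · right; right; ring
  · left; linear_combination r1_om3
  · right; right; ring
  · left; linear_combination r1_om3
  · right; left; linear_combination om * r1_om3

theorem r1_root {z : O} (hz : z ^ 3 = 1) : z = 1 ∨ z = om ∨ z = om ^ 2 := by
  have e : (z - 1) * ((z - om) * (z - om ^ 2)) = 0 := by
    linear_combination hz - (z ^ 2 - z) * om_rel - (1 - z) * r1_om3
  rcases mul_eq_zero.1 e with h | h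
  · exact Or.inl (sub_eq_zero.1 h)
  · rcases mul_eq_zero.1 h with h | h
    · exact Or.inr (Or.inl (sub_eq_zero.1 h))
    · exact Or.inr (Or.inr (sub_eq_zero.1 h))

theorem sym3_spec {v : HeightOneSpectrum O} (h3 : (3 : O) ∉ v.asIdeal) {x : O} (hx : x ∉ v.asIdeal) :
    x ^ ((Ideal.absNorm v.asIdeal - 1) / 3) - sym3 v x ∈ v.asIdeal ∧
      (sym3 v x = 1 ∨ sym3 v x = om ∨ sym3 v x = om ^ 2) := by
  classical
  have h := r1_cases v (r1_pow h3 hx)
  unfold sym3
  rw [if_neg hx]
  by_cases h1 : x ^ ((Ideal.absNorm v.asIdeal - 1) / 3) - 1 ∈ v.asIdeal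
  · rw [if_pos h1]
    exact ⟨h1, Or.inl rfl⟩
  · rw [if_neg h1]
    by_cases h2 : x ^ ((Ideal.absNorm v.asIdeal - 1) / 3) - om ∈ v.asIdeal
    · rw [if_pos h2]
      exact ⟨h2, Or.inr (Or.inl rfl)⟩
    · rw [if_neg h2]
      exact ⟨(h.resolve_left h1).resolve_left h2, Or.inr (Or.inr rfl)⟩

theorem sym3_uniq {v : HeightOneSpectrum O} (h3 : (3 : O) ∉ v.asIdeal) {x z : O}
    (hz : z = 1 ∨ z = om ∨ z = om ^ 2)
    (h : x ^ ((Ideal.absNorm v.asIdeal - 1) / 3) - z ∈ v.asIdeal) : sym3 v x = z := by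
  have hx : x ∉ v.asIdeal := by
    intro hx
    apply (r1_unit v hz).2
    have h1 : x ^ ((Ideal.absNorm v.asIdeal - 1) / 3) ∈ v.asIdeal :=
      Ideal.pow_mem_of_mem _ hx _ (r1_m h3).2
    have e : z = x ^ ((Ideal.absNorm v.asIdeal - 1) / 3) -
        (x ^ ((Ideal.absNorm v.asIdeal - 1) / 3) - z) := by ring
    rw [e]
    exact v.asIdeal.sub_mem h1 h
  obtain ⟨h1, h2⟩ := sym3_spec h3 hx
  apply mu3_inj h3 h2 hz
  have e : sym3 v x - z = (x ^ ((Ideal.absNorm v.asIdeal - 1) / 3) - z) -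
      (x ^ ((Ideal.absNorm v.asIdeal - 1) / 3) - sym3 v x) := by ring
  rw [e]
  exact v.asIdeal.sub_mem h h1

theorem sym3_zero {v : HeightOneSpectrum O} {x : O} (hx : x ∈ v.asIdeal) : sym3 v x = 0 := by
  unfold sym3
  rw [if_pos hx]

theorem sym3_mul {v : HeightOneSpectrum O} (h3 : (3 : O) ∉ v.asIdeal) (x y : O) :
    sym3 v (x * y) = sym3 v x * sym3 v y := by
  by_cases hx : x ∈ v.asIdeal
  · rw [sym3_zero hx, zero_mul, sym3_zero (v.asIdeal.mul_mem_right _ hx)]
  by_cases hy : y ∈ v.asIdeal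
  · rw [sym3_zero hy, mul_zero, sym3_zero (v.asIdeal.mul_mem_left _ hy)]
  obtain ⟨h1, h2⟩ := sym3_spec h3 hx
  obtain ⟨h4, h5⟩ := sym3_spec h3 hy
  apply sym3_uniq h3 (r1_mul h2 h5)
  have e : (x * y) ^ ((Ideal.absNorm v.asIdeal - 1) / 3) - sym3 v x * sym3 v y =
      (x ^ ((Ideal.absNorm v.asIdeal - 1) / 3) - sym3 v x) *
        y ^ ((Ideal.absNorm v.asIdeal - 1) / 3) +
      sym3 v x * (y ^ ((Ideal.absNorm v.asIdeal - 1) / 3) - sym3 v y) := by
    rw [mul_pow]
    ring
  rw [e]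
  exact v.asIdeal.add_mem (v.asIdeal.mul_mem_right _ h1) (v.asIdeal.mul_mem_left _ h4)

theorem sym3_congr {v : HeightOneSpectrum O} (h3 : (3 : O) ∉ v.asIdeal) {x y : O}
    (h : x - y ∈ v.asIdeal) : sym3 v x = sym3 v y := by
  by_cases hy : y ∈ v.asIdeal
  · have hx : x ∈ v.asIdeal := by
      have e : x = (x - y) + y := by ring
      rw [e]
      exact v.asIdeal.add_mem h hy
    rw [sym3_zero hx, sym3_zero hy]
  obtain ⟨h1, h2⟩ := sym3_spec h3 hy
  apply sym3_uniq h3 h2
  have h4 : x ^ ((Ideal.absNorm v.asIdeal - 1) / 3) - y ^ ((Ideal.absNorm v.asIdeal - 1) / 3) ∈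
      v.asIdeal := v.asIdeal.mem_of_dvd (sub_dvd_pow_sub_pow _ _ _) h
  have e : x ^ ((Ideal.absNorm v.asIdeal - 1) / 3) - sym3 v y =
      (x ^ ((Ideal.absNorm v.asIdeal - 1) / 3) - y ^ ((Ideal.absNorm v.asIdeal - 1) / 3)) +
        (y ^ ((Ideal.absNorm v.asIdeal - 1) / 3) - sym3 v y) := by ring
  rw [e]
  exact v.asIdeal.add_mem h4 h1

theorem sym3_cube {v : HeightOneSpectrum O} (h3 : (3 : O) ∉ v.asIdeal) {x : O} (hx : x ∉ v.asIdeal) :
    sym3 v x ^ 3 = 1 := (r1_unit v (sym3_spec h3 hx).2).1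

theorem r1_one {v : HeightOneSpectrum O} (h3 : (3 : O) ∉ v.asIdeal) : sym3 v 1 = 1 := by
  apply sym3_uniq h3 (Or.inl rfl)
  rw [one_pow, sub_self]
  exact v.asIdeal.zero_mem

theorem sym3_neg {v : HeightOneSpectrum O} (h3 : (3 : O) ∉ v.asIdeal) (x : O) :
    sym3 v (-x) = sym3 v x := by
  have h1 : sym3 v (-1) * sym3 v (-1) = 1 := by
    rw [← sym3_mul h3, neg_one_mul, neg_neg, r1_one h3]
  have hm : (-1 : O) ∉ v.asIdeal := by
    intro h
    apply v.isPrime.ne_top
    rw [Ideal.eq_top_iff_one]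
    have := v.asIdeal.neg_mem h
    rwa [neg_neg] at this
  have h2 := sym3_cube h3 hm
  have h4 : sym3 v (-1) = 1 := by
    linear_combination h2 - sym3 v (-1) * h1
  rw [← neg_one_mul, sym3_mul h3, h4, one_mul]

theorem sym3_om {v : HeightOneSpectrum O} (h3 : (3 : O) ∉ v.asIdeal) :
    sym3 v om = om ^ ((Ideal.absNorm v.asIdeal - 1) / 3) := by
  apply sym3_uniq h3
  · apply r1_root
    rw [← pow_mul, mul_comm, pow_mul, r1_om3, one_pow]
  · rw [sub_self]
    exact v.asIdeal.zero_mem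

theorem exists_chi3 (v : HeightOneSpectrum O) (h3 : (3 : O) ∉ v.asIdeal) (k : Type) [Field k]
    [Fintype k] (φ : O →+* k) (hφ : Function.Surjective φ) (hker : RingHom.ker φ = v.asIdeal) :
    ∃ χ : MulChar k O, χ ^ 3 = 1 ∧ χ ≠ 1 ∧ (∀ x : O, χ (φ x) = sym3 v x) ∧
      -jacobiSum χ χ = gen v ∧ Fintype.card k = Ideal.absNorm v.asIdeal := by
  have hcard : Fintype.card k = Ideal.absNorm v.asIdeal := by
    rw [Ideal.absNorm_apply, Submodule.cardQuot_apply, ← hker,
      Nat.card_congr (RingHom.quotientKerEquivOfSurjective hφ).toEquiv, Nat.card_eq_fintype_card]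
  have h30 : φ 3 ≠ 0 := by
    rw [Ne, ← RingHom.mem_ker, hker]
    exact h3
  obtain ⟨χ, hχ3, hχ, hd, hχφ, hcj, -⟩ := exists_chi k φ h30
  refine ⟨χ, hχ3, hχ, ?_, ?_, hcard⟩
  · intro x
    by_cases hx : x ∈ v.asIdeal
    · have h0 : φ x = 0 := by rw [← RingHom.mem_ker, hker]; exact hx
      rw [sym3_zero hx, h0, MulChar.map_zero]
    · have h0 : φ x ≠ 0 := by rw [Ne, ← RingHom.mem_ker, hker]; exact hx
      symm
      apply sym3_uniq h3
      · apply r1_root
        have h1 : (χ ^ 3) (φ x) = 1 := by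
          rw [hχ3]
          exact MulChar.one_apply (isUnit_iff_ne_zero.2 h0)
        rwa [MulChar.pow_apply' χ three_ne_zero] at h1
      · have h5 : φ (x ^ ((Ideal.absNorm v.asIdeal - 1) / 3) - χ (φ x)) = 0 := by
          rw [map_sub, hχφ, map_pow, hcard, sub_self]
        rwa [← RingHom.mem_ker, hker] at h5
  · have h := neg_jacobi v h3 k φ hker 1 one_pos (by rw [pow_one]; exact hcard) χ hχ3 hχ hd hχφ hcj
    rwa [pow_one] at h

theorem exists_conj (v : HeightOneSpectrum O) (h3 : (3 : O) ∉ v.asIdeal) :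
    ∃ v' : HeightOneSpectrum O, (3 : O) ∉ v'.asIdeal ∧ gen v' = cj (gen v) ∧
      ∀ x : O, sym3 v' (cj x) = cj (sym3 v x) := by
  have hp : Prime (cj (gen v)) := (MulEquiv.prime_iff (cj : O ≃* O)).mpr (gen_prime v h3)
  have hpr : Prim (cj (gen v)) := by
    obtain ⟨y, hy⟩ := (gen_spec v h3).2
    refine ⟨cj y, ?_⟩
    have := congrArg cj hy
    rw [map_sub, map_one, map_mul, map_ofNat] at this
    exact this
  obtain ⟨v', h3', hv'⟩ := exists_gen_eq hp hpr
  refine ⟨v', h3', hv', ?_⟩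
  have hmem : ∀ x : O, cj x ∈ v'.asIdeal ↔ x ∈ v.asIdeal := by
    intro x
    rw [← gen_dvd_iff v' h3', ← gen_dvd_iff v h3, hv']
    exact map_dvd_iff cj
  have hN : Ideal.absNorm v'.asIdeal = Ideal.absNorm v.asIdeal := by
    rw [absNorm_gen v' h3', absNorm_gen v h3, hv', E2_Nm_cj]
  intro x
  by_cases hx : x ∈ v.asIdeal
  · rw [sym3_zero hx, map_zero, sym3_zero ((hmem x).2 hx)]
  · obtain ⟨h1, h2⟩ := sym3_spec h3 hx
    apply sym3_uniq h3'
    · apply r1_root
      rw [← map_pow, sym3_cube h3 hx, map_one]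
    · rw [hN, ← map_pow, ← map_sub]
      exact (hmem _).2 h1

end H35T
end

-- from Lib.H35T.R2
section

open NumberField IsDedekindDomain

namespace H35T

open H55B

/-! Chunk R2 (M): the Gauss sum argument. k0 = O/v0, chi from exists_chi3 (order 3), psi0 = FiniteField.primitiveChar k0 kappa, kappa = O/v (the
characteristics are different by hypothesis), with values in R' = CyclotomicField psi0.n kappa (see Mathlib Char.card_pow_card). chi' = chi composed with
O -> kappa -> R' (orderOf chi' = 3: the cube roots of unity stay distinct). g = gaussSum chi' psi. gaussSum_pow_eq_prod_jacobiSum: g^3 = chi'(-1) q0 J(chi', chi')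
= -(image of pi^2 cj(pi)), pi = gen v0, q0 = Nm pi = pi cj pi (jacobiSum_ringHomComp, chi(-1) = 1, -J = pi). Let N = absNorm v = l^f, l the
characteristic of R': gaussSum_frob f times: g^N = gaussSum (chi'^N) (psi^N) = gaussSum chi' (mulShift psi N) (N = 1 mod 3), and gaussSum_mulShift:
chi'(N) g^N = g. g is nonzero (g^3 is nonzero because v does not contain pi, cj pi), so chi'(N) g^(N-1) = 1, g^(N-1) = (g^3)^((N-1)/3) = image of
(-pi^2 cj pi)^((N-1)/3) = image of sym3 v (pi^2 cj pi) (sym3_neg). So sym3 v0 (N) * sym3 v (pi^2 cj pi) is 1 modulo v, both cube roots of unity (mu3_inj):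
sym3 v (pi^2 cj pi) = sym3 v0 (N)^2, N = gen v * cj (gen v) (mul_cj, absNorm_gen). -/

/-- iterated Frobenius of a Gauss sum -/
theorem r2_frob {k0 R' : Type*} [Field k0] [Fintype k0] [Field R'] (p : ℕ) [Fact p.Prime]
    [CharP R' p] (χ : MulChar k0 R') (ψ : AddChar k0 R') (f : ℕ) :
    gaussSum χ ψ ^ (p ^ f) = gaussSum (χ ^ (p ^ f)) (ψ ^ (p ^ f)) := by
  induction f with
  | zero => simp only [pow_zero, pow_one]
  | succ f ih => rw [pow_succ, pow_mul, ih, gaussSum_frob p, ← pow_mul, ← pow_mul]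

theorem r2_abs {k0 R' : Type*} [Field k0] [Fintype k0] [Field R'] (p : ℕ) [Fact p.Prime]
    [CharP R' p] (hp : (p : k0) ≠ 0) (χ : MulChar k0 R') (h3 : χ ^ 3 = 1) (h1 : χ ≠ 1)
    (ψ : AddChar k0 R') (hψ : ψ.IsPrimitive) (hq : (Fintype.card k0 : R') ≠ 0) (f m : ℕ)
    (hN : p ^ f = 3 * m + 1) :
    χ ((p ^ f : ℕ) : k0) * ((Fintype.card k0 : R') * jacobiSum χ χ) ^ m = 1 := by
  have ho : orderOf χ = 3 := orderOf_eq_prime h3 h1
  have hneg : χ (-1) = 1 := MulChar.val_neg_one_eq_one_of_odd_order (n := 3) (by decide) h3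
  have hg3 : gaussSum χ ψ ^ 3 = (Fintype.card k0 : R') * jacobiSum χ χ := by
    have h := gaussSum_pow_eq_prod_jacobiSum (χ := χ) (ψ := ψ) (by rw [ho]; norm_num) hψ
    rw [ho, hneg, one_mul] at h
    rw [h]
    congr 1
    have e : Finset.Ico 1 (3 - 1) = {1} := rfl
    rw [e, Finset.prod_singleton, pow_one]
  have hg : gaussSum χ ψ ≠ 0 := gaussSum_ne_zero_of_nontrivial hq h1 hψ
  have hNu : (((p ^ f : ℕ)) : k0) ≠ 0 := by
    rw [Nat.cast_pow]
    exact pow_ne_zero _ hp
  have h4 : gaussSum χ ψ ^ (p ^ f) = gaussSum χ (AddChar.mulShift ψ ((p ^ f : ℕ) : k0)) := by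
    rw [r2_frob p, AddChar.pow_mulShift]
    congr 1
    rw [hN, pow_succ, pow_mul, h3, one_pow, one_mul]
  have h5 := gaussSum_mulShift χ ψ (Units.mk0 _ hNu)
  rw [Units.val_mk0, ← h4] at h5
  have h6 : gaussSum χ ψ ^ (p ^ f) = ((Fintype.card k0 : R') * jacobiSum χ χ) ^ m * gaussSum χ ψ := by
    rw [hN, pow_succ, pow_mul, hg3]
  rw [h6, ← mul_assoc] at h5
  exact mul_right_cancel₀ hg (by rw [h5, one_mul])

/-- the residue characteristic -/
theorem r2_char (v : HeightOneSpectrum O) :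
    ∃ p f : ℕ, p.Prime ∧ (p : O) ∈ v.asIdeal ∧ Ideal.absNorm v.asIdeal = p ^ f := by
  classical
  let i1 := Ideal.Quotient.field v.asIdeal
  let i2 := @Fintype.ofFinite _ (H0_finite v)
  have hN : Ideal.absNorm v.asIdeal = Fintype.card (O ⧸ v.asIdeal) := r1_card v
  obtain ⟨n, hp, hc⟩ := FiniteField.card (O ⧸ v.asIdeal) (ringChar (O ⧸ v.asIdeal))
  refine ⟨ringChar (O ⧸ v.asIdeal), n, hp, ?_, by rw [hN, hc]⟩
  rw [← Ideal.Quotient.eq_zero_iff_mem, map_natCast]
  exact ringChar.Nat.cast_ringChar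

theorem r2_mem {v : HeightOneSpectrum O} {p f : ℕ} (h : ((p ^ f : ℕ) : O) ∈ v.asIdeal) :
    (p : O) ∈ v.asIdeal := by
  rw [Nat.cast_pow] at h
  exact v.isPrime.mem_of_pow_mem _ h

theorem gauss_law (v0 v : HeightOneSpectrum O) (h30 : (3 : O) ∉ v0.asIdeal) (h3 : (3 : O) ∉ v.asIdeal)
    (hne : ∀ p : ℕ, p.Prime → (p : O) ∈ v0.asIdeal → (p : O) ∉ v.asIdeal) :
    sym3 v (gen v0 ^ 2 * cj (gen v0)) = sym3 v0 (gen v * cj (gen v)) ^ 2 := by
  classical
  let i1 := Ideal.Quotient.field v.asIdeal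
  let i2 := @Fintype.ofFinite _ (H0_finite v)
  let j1 := Ideal.Quotient.field v0.asIdeal
  let j2 := @Fintype.ofFinite _ (H0_finite v0)
  obtain ⟨p0, f0, hp0, hpv0, hN0⟩ := r2_char v0
  obtain ⟨p, f, hp, hpv, hN⟩ := r2_char v
  have hp0v : (p0 : O) ∉ v.asIdeal := hne p0 hp0 hpv0
  have hpv0' : (p : O) ∉ v0.asIdeal := fun h => hne p hp h hpv
  obtain ⟨χ0, hχ3, hχ, hχs, hJ, hcard⟩ := exists_chi3 v0 h30 (O ⧸ v0.asIdeal)
    (Ideal.Quotient.mk v0.asIdeal) Ideal.Quotient.mk_surjective Ideal.mk_ker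
  -- characteristics
  have hpf : Fact p.Prime := ⟨hp⟩
  have hcp : CharP (O ⧸ v.asIdeal) p := by
    have h0 : ((p : ℕ) : O ⧸ v.asIdeal) = 0 := by
      have := Ideal.Quotient.eq_zero_iff_mem.2 hpv
      simpa using this
    exact (CharP.charP_iff_prime_eq_zero hp).2 h0
  have hcp0 : CharP (O ⧸ v0.asIdeal) p0 := by
    have h0 : ((p0 : ℕ) : O ⧸ v0.asIdeal) = 0 := by
      have := Ideal.Quotient.eq_zero_iff_mem.2 hpv0
      simpa using this
    exact (CharP.charP_iff_prime_eq_zero hp0).2 h0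
  have hch : ringChar (O ⧸ v.asIdeal) ≠ ringChar (O ⧸ v0.asIdeal) := by
    rw [ringChar.eq (O ⧸ v.asIdeal) p, ringChar.eq (O ⧸ v0.asIdeal) p0]
    rintro rfl
    exact hp0v hpv
  let ψ := AddChar.FiniteField.primitiveChar (O ⧸ v0.asIdeal) (O ⧸ v.asIdeal) hch
  let R' := CyclotomicField ψ.n (O ⧸ v.asIdeal)
  have hcR : CharP R' p := charP_of_injective_algebraMap (algebraMap (O ⧸ v.asIdeal) R').injective p
  let ι : O →+* R' := (algebraMap (O ⧸ v.asIdeal) R').comp (Ideal.Quotient.mk v.asIdeal)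
  have hι : ∀ x : O, ι x = 0 ↔ x ∈ v.asIdeal := by
    intro x
    rw [← Ideal.Quotient.eq_zero_iff_mem]
    exact map_eq_zero (algebraMap (O ⧸ v.asIdeal) R')
  -- the character
  have hmu : ∀ x : O, x ∉ v0.asIdeal → (χ0 (Ideal.Quotient.mk v0.asIdeal x) = 1 ∨
      χ0 (Ideal.Quotient.mk v0.asIdeal x) = om ∨ χ0 (Ideal.Quotient.mk v0.asIdeal x) = om ^ 2) := by
    intro x hx
    rw [hχs]
    exact (sym3_spec h30 hx).2
  have hχ1 : χ0.ringHomComp ι ≠ 1 := by
    intro h
    apply hχ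
    apply MulChar.ext
    intro a
    obtain ⟨x, hx⟩ := Ideal.Quotient.mk_surjective (a : O ⧸ v0.asIdeal)
    have hx0 : x ∉ v0.asIdeal := by
      intro h0
      rw [Ideal.Quotient.eq_zero_iff_mem.2 h0] at hx
      exact a.ne_zero hx.symm
    have h1 : (χ0.ringHomComp ι) a = 1 := by rw [h, MulChar.one_apply_coe]
    rw [MulChar.ringHomComp_apply] at h1
    have h2 : χ0 (a : O ⧸ v0.asIdeal) - 1 ∈ v.asIdeal := by
      rw [← hι, map_sub, h1, map_one, sub_self]
    rw [MulChar.one_apply_coe]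
    refine mu3_inj h3 ?_ (Or.inl rfl) h2
    rw [← hx]
    exact hmu x hx0
  have hχ31 : (χ0.ringHomComp ι) ^ 3 = 1 := by
    rw [MulChar.ringHomComp_pow, hχ3]
    exact MulChar.ringHomComp_one _
  have hcardO : ((Fintype.card (O ⧸ v0.asIdeal) : ℕ) : O) = gen v0 * cj (gen v0) := by
    rw [hcard, absNorm_gen v0 h30, mul_cj]
  have hq : (Fintype.card (O ⧸ v0.asIdeal) : R') ≠ 0 := by
    rw [← map_natCast ι, Ne, hι, hcard, hN0]
    intro h
    exact hp0v (r2_mem h)
  have hpu : (p : O ⧸ v0.asIdeal) ≠ 0 := by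
    intro h
    apply hpv0'
    rw [← Ideal.Quotient.eq_zero_iff_mem, map_natCast]
    exact h
  obtain ⟨hm, hm0⟩ := r1_m h3
  obtain ⟨-, hN1⟩ := r1_three h3
  have key := r2_abs p hpu (χ0.ringHomComp ι) hχ31 hχ1 ψ.char ψ.prim hq f
    ((Ideal.absNorm v.asIdeal - 1) / 3) (by rw [← hN]; omega)
  rw [jacobiSum_ringHomComp, MulChar.ringHomComp_apply, ← hN, ← map_natCast ι, hcardO, ← map_mul,
    ← map_pow, ← map_mul] at key
  have hJ' : jacobiSum χ0 χ0 = - gen v0 := by rw [← hJ, neg_neg]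
  have hχN : χ0 ((Ideal.absNorm v.asIdeal : ℕ) : O ⧸ v0.asIdeal) = sym3 v0 (gen v * cj (gen v)) := by
    rw [mul_cj, ← absNorm_gen v h3, ← hχs, map_natCast (Ideal.Quotient.mk v0.asIdeal)]
  rw [hJ', hχN] at key
  have hNv0 : gen v * cj (gen v) ∉ v0.asIdeal := by
    rw [mul_cj, ← absNorm_gen v h3, hN]
    intro h
    exact hpv0' (r2_mem h)
  have hgv : gen v0 * cj (gen v0) ∉ v.asIdeal := by
    rw [mul_cj, ← absNorm_gen v0 h30, hN0]
    intro h
    exact hp0v (r2_mem h)
  have hx : gen v0 ^ 2 * cj (gen v0) ∉ v.asIdeal := by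
    intro h
    have e : gen v0 ^ 2 * cj (gen v0) = gen v0 * (gen v0 * cj (gen v0)) := by ring
    rw [e] at h
    rcases v.isPrime.mem_or_mem h with h | h
    · exact hgv (v.asIdeal.mul_mem_right _ h)
    · exact hgv h
  have hx' : gen v0 * cj (gen v0) * -gen v0 ∉ v.asIdeal := by
    intro h
    apply hx
    have e : gen v0 ^ 2 * cj (gen v0) = -(gen v0 * cj (gen v0) * -gen v0) := by ring
    rw [e]
    exact v.asIdeal.neg_mem h
  obtain ⟨h7, h8⟩ := sym3_spec h3 hx'
  have e9 : sym3 v (gen v0 * cj (gen v0) * -gen v0) = sym3 v (gen v0 ^ 2 * cj (gen v0)) := by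
    rw [← sym3_neg h3]
    congr 1
    ring
  rw [e9] at h7 h8
  obtain ⟨-, h10⟩ := sym3_spec h30 hNv0
  have h11 := sym3_cube h30 hNv0
  have h12 : sym3 v0 (gen v * cj (gen v)) * sym3 v (gen v0 ^ 2 * cj (gen v0)) = 1 := by
    refine mu3_inj h3 (r1_mul h10 h8) (Or.inl rfl) ?_
    have h13 : sym3 v0 (gen v * cj (gen v)) *
        (gen v0 * cj (gen v0) * -gen v0) ^ ((Ideal.absNorm v.asIdeal - 1) / 3) - 1 ∈ v.asIdeal := by
      rw [← hι, map_sub, key, map_one, sub_self]
    have e : sym3 v0 (gen v * cj (gen v)) * sym3 v (gen v0 ^ 2 * cj (gen v0)) - 1 =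
        (sym3 v0 (gen v * cj (gen v)) *
          (gen v0 * cj (gen v0) * -gen v0) ^ ((Ideal.absNorm v.asIdeal - 1) / 3) - 1) -
        sym3 v0 (gen v * cj (gen v)) *
          ((gen v0 * cj (gen v0) * -gen v0) ^ ((Ideal.absNorm v.asIdeal - 1) / 3) -
            sym3 v (gen v0 ^ 2 * cj (gen v0))) := by ring
    rw [e]
    exact v.asIdeal.sub_mem h13 (v.asIdeal.mul_mem_left _ h7)
  linear_combination sym3 v0 (gen v * cj (gen v)) ^ 2 * h12 -
    sym3 v (gen v0 ^ 2 * cj (gen v0)) * h11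

end H35T
end

-- from Lib.H35T.R3
section

open NumberField IsDedekindDomain

namespace H35T

open H55B

/-! Chunk R3 (M): cubic reciprocity. recip_ne: write A = sym3 v (gen v0), B = sym3 v (cj (gen v0)), C = sym3 v0 (gen v), D = sym3 v0 (cj (gen v)), all with
cube 1. gauss_law for (v0, v): A^2 B = (C D)^2, gauss_law for (v, v0) (the hypothesis is symmetric): C^2 D = (A B)^2. Product: A^2 B C^2 D = C^2 D^2 A^2 B^2,
so B D = B^2 D^2, B D = 1, and A^2 B = C^2 D^2 gives A^2 B^3... : A^2 = C^2 D^2 B^(-1) = C^2 D^2 D = C^2, so A = C.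
factor: every primary element is a product of gen v (strong induction on the norm, as X1_ind: a nonunit primary element has a prime divisor gen v, the quotient is
primary; a primary unit is 1: Prim.eq_of_associated). -/

theorem R3_pp (v : HeightOneSpectrum O) : ∃ l n : ℕ, l.Prime ∧ (l : O) ∈ v.asIdeal ∧
    Ideal.absNorm v.asIdeal = l ^ n := by
  have hmax : v.asIdeal.IsMaximal := v.isMaximal
  let _ : Field (O ⧸ v.asIdeal) := Ideal.Quotient.field v.asIdeal
  have hfin : Finite (O ⧸ v.asIdeal) := Ideal.finiteQuotientOfFreeOfNeBot v.asIdeal v.ne_bot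
  let _ : Fintype (O ⧸ v.asIdeal) := Fintype.ofFinite _
  obtain ⟨l, hl⟩ := CharP.exists (O ⧸ v.asIdeal)
  obtain ⟨n, hp, hn⟩ := FiniteField.card (O ⧸ v.asIdeal) l
  refine ⟨l, n, hp, ?_, ?_⟩
  · rw [← Ideal.Quotient.eq_zero_iff_mem, map_natCast]
    exact CharP.cast_eq_zero _ l
  · rw [← hn, Ideal.absNorm_apply, Submodule.cardQuot_apply, Nat.card_eq_fintype_card]

theorem R3_notmem (v0 v : HeightOneSpectrum O) (h30 : (3 : O) ∉ v0.asIdeal)
    (hne : ∀ p : ℕ, p.Prime → (p : O) ∈ v0.asIdeal → (p : O) ∉ v.asIdeal) :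
    gen v0 ∉ v.asIdeal ∧ cj (gen v0) ∉ v.asIdeal := by
  obtain ⟨l, n, hl, hlv, hn⟩ := R3_pp v0
  have h1 : gen v0 * cj (gen v0) ∉ v.asIdeal := by
    rw [mul_cj, ← absNorm_gen v0 h30, hn, Nat.cast_pow]
    intro h
    exact hne l hl hlv (v.isPrime.mem_of_pow_mem n h)
  exact ⟨fun h => h1 (v.asIdeal.mul_mem_right _ h), fun h => h1 (v.asIdeal.mul_mem_left _ h)⟩

theorem R3_alg {A B C D : O} (hA : A ^ 3 = 1) (hB : B ^ 3 = 1) (hC : C ^ 3 = 1) (hD : D ^ 3 = 1)
    (h1 : A ^ 2 * B = (C * D) ^ 2) (h2 : C ^ 2 * D = (A * B) ^ 2) : A = C := by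
  have h3 : B * D - 1 = 0 := by
    have h4 : (A ^ 3) * (C ^ 3) * (B ^ 3) * (D ^ 3) * (B * D - 1) = 0 := by
      have h5 : (A ^ 3) * (C ^ 3) * (B ^ 3) * (D ^ 3) * (B * D - 1) =
          (A * C * B ^ 2 * D ^ 2) * ((C * D) ^ 2 * (A * B) ^ 2 - A ^ 2 * B * (C ^ 2 * D)) := by ring
      rw [h5, h1, h2]
      ring
    rw [hA, hB, hC, hD] at h4
    linear_combination h4
  have h4 : A ^ 2 = C ^ 2 := by
    linear_combination D * h1 + C ^ 2 * hD - A ^ 2 * h3
  calc A = A ^ 3 * A := by rw [hA, one_mul]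
    _ = (A ^ 2) ^ 2 := by ring
    _ = (C ^ 2) ^ 2 := by rw [h4]
    _ = C ^ 3 * C := by ring
    _ = C := by rw [hC, one_mul]

theorem recip_ne (v0 v : HeightOneSpectrum O) (h30 : (3 : O) ∉ v0.asIdeal) (h3 : (3 : O) ∉ v.asIdeal)
    (hne : ∀ p : ℕ, p.Prime → (p : O) ∈ v0.asIdeal → (p : O) ∉ v.asIdeal) :
    sym3 v (gen v0) = sym3 v0 (gen v) := by
  have hne' : ∀ p : ℕ, p.Prime → (p : O) ∈ v.asIdeal → (p : O) ∉ v0.asIdeal :=
    fun p hp h h' => hne p hp h' h
  obtain ⟨n1, n2⟩ := R3_notmem v0 v h30 hne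
  obtain ⟨n3, n4⟩ := R3_notmem v v0 h3 hne'
  have g1 := gauss_law v0 v h30 h3 hne
  have g2 := gauss_law v v0 h3 h30 hne'
  rw [sym3_mul h3, pow_two, sym3_mul h3, sym3_mul h30, ← pow_two] at g1
  rw [sym3_mul h30, pow_two, sym3_mul h30, sym3_mul h3, ← pow_two] at g2
  exact R3_alg (sym3_cube h3 n1) (sym3_cube h3 n2) (sym3_cube h30 n3) (sym3_cube h30 n4) g1 g2

theorem factor (a : O) (ha : Prim a) : ∃ l : Multiset (HeightOneSpectrum O),
    (∀ v ∈ l, (3 : O) ∉ v.asIdeal) ∧ a = (l.map gen).prod := by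
  have key : ∀ n : ℕ, ∀ x : O, Nm x = n → Prim x → ∃ l : Multiset (HeightOneSpectrum O),
      (∀ v ∈ l, (3 : O) ∉ v.asIdeal) ∧ x = (l.map gen).prod := by
    intro n
    induction n using Nat.strong_induction_on with
    | _ n ih =>
      intro x hn hx
      have hx0 : x ≠ 0 := hx.ne_zero
      by_cases hu : IsUnit x
      · refine ⟨0, fun v hv => absurd hv (Multiset.notMem_zero v), ?_⟩
        rw [Multiset.map_zero, Multiset.prod_zero]
        exact hx.eq_of_associated prim_one (associated_one_iff_isUnit.2 hu)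
      · obtain ⟨π, hπ, hπx⟩ := WfDvdMonoid.exists_irreducible_factor hu hx0
        have hπp : Prime π := hπ.prime
        let v : HeightOneSpectrum O := ⟨Ideal.span {π}, (Ideal.span_singleton_prime hπp.ne_zero).2 hπp, by
          rw [Ne, Ideal.span_singleton_eq_bot]; exact hπp.ne_zero⟩
        have hxv : x ∈ v.asIdeal := Ideal.mem_span_singleton.2 hπx
        have h3 : (3 : O) ∉ v.asIdeal := by
          intro h3
          apply v.isPrime.ne_top
          rw [Ideal.eq_top_iff_one]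
          obtain ⟨z, hz⟩ := hx
          have : (1 : O) = x - 3 * z := by rw [← hz]; ring
          rw [this]
          exact v.asIdeal.sub_mem hxv (v.asIdeal.mul_mem_right _ h3)
        obtain ⟨y, hy⟩ := (gen_dvd_iff v h3 x).2 hxv
        have hg := gen_spec v h3
        have hy0 : y ≠ 0 := by
          rintro rfl
          exact hx0 (by rw [hy, mul_zero])
        have hyP : Prim y := by
          obtain ⟨z, hz⟩ := hx
          obtain ⟨z', hz'⟩ := hg.2
          refine ⟨z - z' * y, ?_⟩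
          linear_combination hz - y * hz' - hy
        have hlt : Nm y < n := by
          rw [← hn, hy, Nm_mul]
          have h2 : Nm (gen v) ≠ 0 := fun h => (gen_prime v h3).ne_zero (Nm_eq_zero.1 h)
          have h3' : Nm (gen v) ≠ 1 := fun h => (gen_prime v h3).not_isUnit (Nm_eq_one.1 h)
          have h4 : Nm y ≠ 0 := fun h => hy0 (Nm_eq_zero.1 h)
          have h5 : 2 ≤ Nm (gen v) := by omega
          have h6 : 0 < Nm y := Nat.pos_of_ne_zero h4
          nlinarith
        obtain ⟨l, hl, hly⟩ := ih (Nm y) hlt y rfl hyP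
        refine ⟨v ::ₘ l, ?_, ?_⟩
        · intro w hw
          rcases Multiset.mem_cons.1 hw with h | h
          · rw [h]; exact h3
          · exact hl w h
        · rw [Multiset.map_cons, Multiset.prod_cons, ← hly]
          exact hy
  exact key (Nm a) a rfl ha

end H35T
end

-- from Lib.H35T.R4
section

open NumberField IsDedekindDomain

namespace H35T

open H55B

/-! Chunk R4 (M): cubic reciprocity for two conjugate primes, and in general. conj_one: let pi = gen v0, gen v = cj pi, v0 <> v. t = -(pi + cj pi) is fixed by cj and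
congruent to 1 modulo 3 (-2 = 1), so primary; factor: t = product of gen u, u in l. No u in l has the residue characteristic of v0 (v0 = (pi) and v = (cj pi)
have prime norm p, p = pi cj pi; if u contains p then u = v0 or v; pi | t gives pi | cj pi, v0 = v). jac3 l pi = product of sym3 u (gen v0) = product of
sym3 v0 (gen u) = sym3 v0 t (recip_ne). For u in l, u contains t, so pi = -cj pi modulo u and sym3 u pi = sym3 u (cj pi) (sym3_neg). The map u -> u' (exists_conj,
gen u' = cj (gen u)) preserves the multiset l (cj t = t, unique factorization into the gen u: gen_inj), and sym3 u' (cj pi) = cj (sym3 u pi), so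
jac3 l (cj pi) = cj (jac3 l pi). So z = jac3 l pi satisfies z = cj z, z^3 = 1: z = 1. So sym3 v0 t = 1, and t = -cj pi modulo v0: sym3 v0 (gen v) =
sym3 v0 (cj pi) = 1.
recip_all: if the residue characteristics are different use recip_ne; if both contain the prime p: v0 <> v forces p = pi cj pi (prime_types; an
inert prime is the only prime above p), gen v = cj (gen v0), and both sides are 1 by conj_one (for (v0, v) and (v, v0)). -/

theorem R4_eq {u w : HeightOneSpectrum O} (h3 : (3 : O) ∉ w.asIdeal) (h : gen w ∈ u.asIdeal) :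
    u = w := by
  have h1 : w.asIdeal ≤ u.asIdeal := by
    rw [(gen_spec w h3).1, Ideal.span_singleton_le_iff_mem]
    exact h
  have h2 := w.isMaximal.eq_of_le u.isPrime.ne_top h1
  exact HeightOneSpectrum.ext h2.symm

theorem R4_mem {u : HeightOneSpectrum O} (h3 : (3 : O) ∉ u.asIdeal) : gen u ∈ u.asIdeal :=
  (gen_dvd_iff u h3 _).1 dvd_rfl

theorem R4_char {v : HeightOneSpectrum O} {p l : ℕ} (hp : p.Prime) (hl : l.Prime)
    (h1 : (p : O) ∈ v.asIdeal) (h2 : (l : O) ∈ v.asIdeal) : p = l := by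
  by_contra hne
  have hc : IsCoprime (p : ℤ) (l : ℤ) := Nat.isCoprime_iff_coprime.mpr ((Nat.coprime_primes hp hl).mpr hne)
  obtain ⟨a, b, hab⟩ := hc
  apply v.isPrime.ne_top
  rw [Ideal.eq_top_iff_one]
  have h3 : (1 : O) = (a : O) * (p : O) + (b : O) * (l : O) := by
    have h4 := congrArg (Int.cast : ℤ → O) hab
    push_cast at h4
    exact h4.symm
  rw [h3]
  exact v.asIdeal.add_mem (v.asIdeal.mul_mem_left _ h1) (v.asIdeal.mul_mem_left _ h2)

theorem R4_uniq : ∀ l l' : Multiset (HeightOneSpectrum O), (∀ v ∈ l, (3 : O) ∉ v.asIdeal) →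
    (∀ v ∈ l', (3 : O) ∉ v.asIdeal) → (l.map gen).prod = (l'.map gen).prod → l = l' := by
  intro l
  induction l using Multiset.induction_on with
  | empty =>
    intro l' _ h' h
    rw [Multiset.map_zero, Multiset.prod_zero] at h
    by_contra hne
    obtain ⟨w, hw⟩ := Multiset.exists_mem_of_ne_zero (Ne.symm hne)
    have h1 : gen w ∣ (l'.map gen).prod := Multiset.dvd_prod (Multiset.mem_map_of_mem _ hw)
    rw [← h] at h1
    exact (gen_prime w (h' w hw)).not_isUnit (isUnit_of_dvd_one h1)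
  | cons u l ih =>
    intro l' hl h' h
    have hu := hl u (Multiset.mem_cons_self u l)
    have hup := gen_prime u hu
    rw [Multiset.map_cons, Multiset.prod_cons] at h
    have h1 : gen u ∣ (l'.map gen).prod := ⟨_, h.symm⟩
    obtain ⟨w, hw, hd⟩ := hup.exists_mem_multiset_map_dvd h1
    have h2 : u = w := R4_eq (h' w hw) ((gen_dvd_iff u hu _).1 hd)
    subst h2
    obtain ⟨m, rfl⟩ := Multiset.exists_cons_of_mem hw
    rw [Multiset.map_cons, Multiset.prod_cons] at h
    rw [ih m (fun v hv => hl v (Multiset.mem_cons_of_mem hv))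
      (fun v hv => h' v (Multiset.mem_cons_of_mem hv)) (mul_left_cancel₀ hup.ne_zero h)]

theorem R4_one {v : HeightOneSpectrum O} (h3 : (3 : O) ∉ v.asIdeal) : sym3 v 1 = 1 := by
  apply sym3_uniq h3 (Or.inl rfl)
  rw [one_pow, sub_self]
  exact v.asIdeal.zero_mem

theorem R4_prod {v : HeightOneSpectrum O} (h3 : (3 : O) ∉ v.asIdeal) (l : Multiset (HeightOneSpectrum O)) :
    sym3 v (l.map gen).prod = (l.map fun u => sym3 v (gen u)).prod := by
  induction l using Multiset.induction_on with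
  | empty => rw [Multiset.map_zero, Multiset.prod_zero, R4_one h3, Multiset.map_zero, Multiset.prod_zero]
  | cons u l ih => rw [Multiset.map_cons, Multiset.prod_cons, sym3_mul h3, ih, Multiset.map_cons,
      Multiset.prod_cons]

theorem R4_fixed {z : O} (h1 : z = cj z) (h3 : z ^ 3 = 1) : z = 1 := by
  have h4 : z * z = (Nm z : O) := by
    have h5 := mul_cj z
    rwa [← h1] at h5
  have h6 : Nm z = 1 := by
    apply Nm_eq_one.2
    exact IsUnit.of_pow_eq_one h3 three_ne_zero
  rw [h6, Nat.cast_one] at h4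
  calc z = z * (z * z) := by rw [h4, mul_one]
    _ = z ^ 3 := by ring
    _ = 1 := h3

theorem R4_cube {l : Multiset (HeightOneSpectrum O)} {x : O} (h : ∀ u ∈ l, sym3 u x ^ 3 = 1) :
    jac3 l x ^ 3 = 1 := by
  unfold jac3
  rw [← Multiset.prod_map_pow]
  apply Multiset.prod_eq_one
  intro y hy
  obtain ⟨u, hu, rfl⟩ := Multiset.mem_map.1 hy
  exact h u hu

theorem conj_one (v0 v : HeightOneSpectrum O) (h30 : (3 : O) ∉ v0.asIdeal) (h3 : (3 : O) ∉ v.asIdeal)
    (hne : v0 ≠ v) (hc : gen v = cj (gen v0)) : sym3 v0 (gen v) = 1 := by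
  classical
  obtain ⟨ℓ, n, hℓ, hℓ0, hn⟩ := R3_pp v0
  have hnorm : gen v0 * gen v = (ℓ : O) ^ n := by
    rw [hc, mul_cj, ← absNorm_gen v0 h30, hn, Nat.cast_pow]
  have hπ0 : gen v0 ∈ v0.asIdeal := R4_mem h30
  have hπv : gen v ∈ v.asIdeal := R4_mem h3
  set t : O := -(gen v0 + gen v) with ht
  have htP : Prim t := by
    obtain ⟨a, ha⟩ := (gen_spec v0 h30).2
    obtain ⟨b, hb⟩ := (gen_spec v h3).2
    exact ⟨-(a + b) - 1, by rw [ht]; linear_combination -ha - hb⟩
  obtain ⟨l, hl3, hlt⟩ := factor t htP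
  have htu : ∀ u ∈ l, t ∈ u.asIdeal := by
    intro u hu
    rw [hlt]
    exact (gen_dvd_iff u (hl3 u hu) _).1 (Multiset.dvd_prod (Multiset.mem_map_of_mem _ hu))
  have hnot0 : ∀ u ∈ l, gen v0 ∉ u.asIdeal := by
    intro u hu h
    have h1 : u = v0 := R4_eq h30 h
    have h2 := htu u hu
    rw [h1] at h2
    apply hne
    apply R4_eq h3
    have h4 : gen v = -t - gen v0 := by rw [ht]; ring
    rw [h4]
    exact v0.asIdeal.sub_mem (v0.asIdeal.neg_mem h2) hπ0
  have hnotv : ∀ u ∈ l, gen v ∉ u.asIdeal := by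
    intro u hu h
    have h1 : u = v := R4_eq h3 h
    have h2 := htu u hu
    rw [h1] at h2
    apply hne
    symm
    apply R4_eq h30
    have h4 : gen v0 = -t - gen v := by rw [ht]; ring
    rw [h4]
    exact v.asIdeal.sub_mem (v.asIdeal.neg_mem h2) hπv
  have hrec : ∀ u ∈ l, sym3 u (gen v0) = sym3 v0 (gen u) := by
    intro u hu
    apply recip_ne v0 u h30 (hl3 u hu)
    intro p hp hp0 hpu
    have h1 : p = ℓ := R4_char hp hℓ hp0 hℓ0
    have h2 : gen v0 * gen v ∈ u.asIdeal := by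
      rw [hnorm]
      rcases Nat.eq_zero_or_pos n with h0 | h0
      · exfalso
        rw [h0, pow_zero] at hnorm
        exact (gen_prime v0 h30).not_isUnit (IsUnit.of_mul_eq_one _ hnorm)
      · rw [← h1]
        exact u.asIdeal.pow_mem_of_mem hpu n h0
    rcases u.isPrime.mem_or_mem h2 with h | h
    · exact hnot0 u hu h
    · exact hnotv u hu h
  have hj1 : jac3 l (gen v0) = sym3 v0 t := by
    rw [hlt, R4_prod h30]
    unfold jac3
    rw [Multiset.map_congr rfl hrec]
  have hj2 : jac3 l (gen v0) = jac3 l (gen v) := by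
    unfold jac3
    congr 1
    apply Multiset.map_congr rfl
    intro u hu
    rw [← sym3_neg (hl3 u hu) (gen v)]
    apply sym3_congr (hl3 u hu)
    have h4 : gen v0 - -gen v = -t := by rw [ht]; ring
    rw [h4]
    exact u.asIdeal.neg_mem (htu u hu)
  have hσ : ∀ u : HeightOneSpectrum O, ∃ u' : HeightOneSpectrum O, (3 : O) ∉ u.asIdeal →
      (3 : O) ∉ u'.asIdeal ∧ gen u' = cj (gen u) ∧ ∀ x : O, sym3 u' (cj x) = cj (sym3 u x) := by
    intro u
    by_cases h : (3 : O) ∉ u.asIdeal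
    · obtain ⟨u', hu'⟩ := exists_conj u h
      exact ⟨u', fun _ => hu'⟩
    · exact ⟨u, fun h' => absurd h' h⟩
  choose σ hσ using hσ
  have hct : cj t = t := by
    rw [ht, map_neg, map_add, hc, cj_cj, add_comm]
  have hmap : l.map σ = l := by
    apply R4_uniq
    · intro w hw
      obtain ⟨u, hu, rfl⟩ := Multiset.mem_map.1 hw
      exact (hσ u (hl3 u hu)).1
    · exact hl3
    · rw [← hlt, Multiset.map_map]
      have h1 : (l.map (gen ∘ σ)) = (l.map gen).map cj := by
        rw [Multiset.map_map]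
        apply Multiset.map_congr rfl
        intro u hu
        exact (hσ u (hl3 u hu)).2.1
      rw [h1, ← map_multiset_prod, ← hlt, hct]
  have hj3 : jac3 l (gen v) = cj (jac3 l (gen v0)) := by
    have h1 : jac3 l (gen v) = jac3 (l.map σ) (gen v) := by rw [hmap]
    rw [h1]
    unfold jac3
    rw [map_multiset_prod, Multiset.map_map, Multiset.map_map]
    congr 1
    apply Multiset.map_congr rfl
    intro u hu
    show sym3 (σ u) (gen v) = cj (sym3 u (gen v0))
    rw [hc]
    exact (hσ u (hl3 u hu)).2.2 _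
  have hz : jac3 l (gen v0) = 1 := by
    apply R4_fixed
    · rw [← hj3, hj2]
    · exact R4_cube fun u hu => sym3_cube (hl3 u hu) (hnot0 u hu)
  rw [hj1] at hz
  rw [← hz, ← sym3_neg h30 (gen v)]
  apply sym3_congr h30
  have h4 : -gen v - t = gen v0 := by rw [ht]; ring
  rw [h4]
  exact hπ0

theorem recip_all (v0 v : HeightOneSpectrum O) (h30 : (3 : O) ∉ v0.asIdeal) (h3 : (3 : O) ∉ v.asIdeal)
    (hne : v0 ≠ v) : sym3 v (gen v0) = sym3 v0 (gen v) := by
  by_cases h : ∀ p : ℕ, p.Prime → (p : O) ∈ v0.asIdeal → (p : O) ∉ v.asIdeal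
  · exact recip_ne v0 v h30 h3 h
  · push Not at h
    obtain ⟨p, hp, hp0, hpv⟩ := h
    obtain ⟨ℓ, n, hℓ, hℓ0, hn⟩ := R3_pp v0
    have h1 : p = ℓ := R4_char hp hℓ hp0 hℓ0
    have hnorm : gen v0 * cj (gen v0) = (ℓ : O) ^ n := by
      rw [mul_cj, ← absNorm_gen v0 h30, hn, Nat.cast_pow]
    have h2 : gen v0 * cj (gen v0) ∈ v.asIdeal := by
      rw [hnorm]
      rcases Nat.eq_zero_or_pos n with h0 | h0
      · exfalso
        rw [h0, pow_zero] at hnorm
        exact (gen_prime v0 h30).not_isUnit (IsUnit.of_mul_eq_one _ hnorm)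
      · rw [← h1]
        exact v.asIdeal.pow_mem_of_mem hpv n h0
    have hc : gen v = cj (gen v0) := by
      rcases v.isPrime.mem_or_mem h2 with h | h
      · exact absurd (R4_eq h30 h).symm hne
      · obtain ⟨v', h3', hg, -⟩ := exists_conj v0 h30
        rw [← hg] at h
        rw [← hg, R4_eq h3' h]
    rw [conj_one v0 v h30 h3 hne hc, conj_one v v0 h3 h30 hne.symm (by rw [hc, cj_cj])]

end H35T
end

-- from Lib.H35T.R5
section

open NumberField IsDedekindDomain

namespace H35T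

open H55B

/-! Chunk R5 (M): the cubic character attached to an admissible element. a is primary; l from factor; chi x = jac3 l x. mul, val, zero, congr: sym3_mul etc.
(v contains a iff gen v | a iff v is in l). recip: for v not in l: sym3 v a = product of sym3 v (gen u) = product of sym3 u (gen v) (recip_all).
om: chi om = om^(sum (N_u - 1)/3) (sym3_om), the sum is congruent to (product of N_u - 1)/3 modulo 3 (all N_u = 1 mod 3; induction), product = Nm a, and
Nm a = 1 mod 9: a = 1 + 3 (om - 1) b, Nm a = a cj a = 1 + 3((om - 1) b + cj((om-1) b)) + 27 Nm b, the trace of (om-1) b is divisible by 3.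
unit: unit_cases, sym3_neg. gen: a generator p of v is a unit times gen v. -/

theorem R5_mul {l : Multiset (HeightOneSpectrum O)} (hl : ∀ v ∈ l, (3 : O) ∉ v.asIdeal) (x y : O) :
    jac3 l (x * y) = jac3 l x * jac3 l y := by
  unfold jac3
  rw [← Multiset.prod_map_mul]
  congr 1
  apply Multiset.map_congr rfl
  intro u hu
  exact sym3_mul (hl u hu) x y

theorem R5_neg {l : Multiset (HeightOneSpectrum O)} (hl : ∀ v ∈ l, (3 : O) ∉ v.asIdeal) (x : O) :
    jac3 l (-x) = jac3 l x := by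
  unfold jac3
  congr 1
  apply Multiset.map_congr rfl
  intro u hu
  exact sym3_neg (hl u hu) x

theorem R5_one {l : Multiset (HeightOneSpectrum O)} (hl : ∀ v ∈ l, (3 : O) ∉ v.asIdeal) :
    jac3 l 1 = 1 := by
  unfold jac3
  apply Multiset.prod_eq_one
  intro y hy
  obtain ⟨u, hu, rfl⟩ := Multiset.mem_map.1 hy
  exact R4_one (hl u hu)

/-- norms of primary elements -/
theorem R5_norm {x : O} (hx : Prim x) : ∃ k : ℤ, (Nm x : ℤ) = 1 + 3 * k := by
  obtain ⟨b, hb⟩ := hx
  obtain ⟨c, d, hcd⟩ := exists_repr b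
  have h1 : x = ((1 + 3 * c : ℤ) : O) + ((3 * d : ℤ) : O) * om := by
    push_cast
    linear_combination hb + 3 * hcd
  refine ⟨2 * c + 3 * c ^ 2 - d - 3 * c * d + 3 * d ^ 2, ?_⟩
  rw [h1, Nm_repr]
  ring

theorem R5_norm9 {a : O} (ha : (3 * (om - 1) : O) ∣ a - 1) : ∃ k : ℤ, (Nm a : ℤ) = 1 + 9 * k := by
  obtain ⟨b, hb⟩ := ha
  obtain ⟨c, d, hcd⟩ := exists_repr b
  have h1 : a = ((1 - 3 * (c + d) : ℤ) : O) + ((3 * (c - 2 * d) : ℤ) : O) * om := by
    push_cast
    linear_combination hb + 3 * (om - 1) * hcd + 3 * d * om_rel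
  refine ⟨-c + (c + d) ^ 2 + (c + d) * (c - 2 * d) + (c - 2 * d) ^ 2, ?_⟩
  rw [h1, Nm_repr]
  ring

theorem R5_om (l : Multiset (HeightOneSpectrum O)) (hl : ∀ v ∈ l, (3 : O) ∉ v.asIdeal) :
    ∃ k : ℕ, jac3 l om = om ^ k ∧ ∃ m : ℤ, (Nm (l.map gen).prod : ℤ) = 1 + 3 * k + 9 * m := by
  induction l using Multiset.induction_on with
  | empty =>
    refine ⟨0, ?_, 0, ?_⟩
    · unfold jac3
      rw [Multiset.map_zero, Multiset.prod_zero, pow_zero]
    · rw [Multiset.map_zero, Multiset.prod_zero, Nm_eq_one.2 isUnit_one]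
      norm_num
  | cons u l ih =>
    obtain ⟨k, hk, m, hm⟩ := ih fun v hv => hl v (Multiset.mem_cons_of_mem hv)
    have hu := hl u (Multiset.mem_cons_self u l)
    obtain ⟨j, hj⟩ := R5_norm (gen_spec u hu).2
    have hpos : 0 < Nm (gen u) := Nat.pos_of_ne_zero fun h => (gen_prime u hu).ne_zero (Nm_eq_zero.1 h)
    have hdiv : Nm (gen u) = 1 + 3 * ((Nm (gen u) - 1) / 3) := by omega
    refine ⟨(Nm (gen u) - 1) / 3 + k, ?_, ?_⟩
    · have h1 : jac3 (u ::ₘ l) om = sym3 u om * jac3 l om := by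
        unfold jac3
        rw [Multiset.map_cons, Multiset.prod_cons]
      rw [h1, hk, sym3_om hu, absNorm_gen u hu, pow_add]
    · rw [Multiset.map_cons, Multiset.prod_cons, Nm_mul]
      set N := (Nm (gen u) - 1) / 3 with hN
      refine ⟨(N : ℤ) * k + m * (1 + 3 * N), ?_⟩
      rw [Nat.cast_mul, hm, hdiv]
      push_cast
      ring


end H35T
end

-- from Lib.H55W.C1
section

/-! # H55W, part C (cubic residue characters), file C1: factorisation of the Eisenstein integers prime to 3 and the symbol (n/x) -/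

open NumberField IsDedekindDomain

namespace H55W

open H55B (O om gen Nm cj Prim gen_spec gen_prime gen_dvd_iff absNorm_gen exists_gen_eq exists_unit_prim)
open H35T (sym3 jac3 sym3_mul sym3_congr sym3_cube sym3_spec)

/-- l is the multiset of the prime ideals of x. -/
def Fac (x : O) (l : Multiset (HeightOneSpectrum O)) : Prop :=
  (∀ v ∈ l, (3 : O) ∉ v.asIdeal) ∧ Associated (l.map gen).prod x

theorem c1_prim (l : Multiset (HeightOneSpectrum O)) (hl : ∀ v ∈ l, (3 : O) ∉ v.asIdeal) :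
    Prim (l.map gen).prod := by
  induction l using Multiset.induction_on with
  | empty => rw [Multiset.map_zero, Multiset.prod_zero]; exact H55B.prim_one
  | cons u l ih =>
    rw [Multiset.map_cons, Multiset.prod_cons]
    exact H55B.Prim.mul (gen_spec u (hl u (Multiset.mem_cons_self u l))).2
      (ih fun v hv => hl v (Multiset.mem_cons_of_mem hv))

theorem fac_exists {x : O} (h : IsCoprime x 3) : ∃ l, Fac x l := by
  obtain ⟨u, hu⟩ := exists_unit_prim h
  obtain ⟨l, hl, hp⟩ := H35T.factor _ hu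
  refine ⟨l, hl, ?_⟩
  rw [← hp]
  exact (associated_unit_mul_left x u u.isUnit)

theorem fac_unique {x : O} {l l' : Multiset (HeightOneSpectrum O)} (h : Fac x l) (h' : Fac x l') : l = l' :=
  H35T.R4_uniq l l' h.1 h'.1
    (H55B.Prim.eq_of_associated (c1_prim l h.1) (c1_prim l' h'.1) (h.2.trans h'.2.symm))

theorem fac_mul {x y : O} {l l' : Multiset (HeightOneSpectrum O)} (h : Fac x l) (h' : Fac y l') :
    Fac (x * y) (l + l') := by
  refine ⟨fun v hv => ?_, ?_⟩
  · rcases Multiset.mem_add.1 hv with hv | hv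
    · exact h.1 v hv
    · exact h'.1 v hv
  · rw [Multiset.map_add, Multiset.prod_add]
    exact h.2.mul_mul h'.2

theorem fac_assoc {x y : O} {l : Multiset (HeightOneSpectrum O)} (h : Fac x l) (hxy : Associated x y) :
    Fac y l := ⟨h.1, h.2.trans hxy⟩

theorem fac_unit {u : O} (hu : IsUnit u) : Fac u 0 := by
  refine ⟨fun v hv => absurd hv (Multiset.notMem_zero v), ?_⟩
  rw [Multiset.map_zero, Multiset.prod_zero]
  exact (associated_one_iff_isUnit.2 hu).symm

theorem fac_mem {x : O} {l : Multiset (HeightOneSpectrum O)} (h : Fac x l) {v : HeightOneSpectrum O}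
    (hv : v ∈ l) : x ∈ v.asIdeal := by
  have h1 : gen v ∣ (l.map gen).prod := Multiset.dvd_prod (Multiset.mem_map_of_mem _ hv)
  exact (gen_dvd_iff v (h.1 v hv) x).1 (h1.trans h.2.dvd)

theorem fac_not {x y : O} {l : Multiset (HeightOneSpectrum O)} (h : Fac x l) (hxy : IsCoprime x y)
    {v : HeightOneSpectrum O} (hv : v ∈ l) : y ∉ v.asIdeal := by
  intro hy
  obtain ⟨a, b, hab⟩ := hxy
  apply v.isPrime.ne_top
  rw [Ideal.eq_top_iff_one, ← hab]
  exact v.asIdeal.add_mem (v.asIdeal.mul_mem_left _ (fac_mem h hv)) (v.asIdeal.mul_mem_left _ hy)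

theorem fac_prime {π : O} (hp : Prime π) (h3 : ¬ π ∣ 3) : ∃ v : HeightOneSpectrum O,
    (3 : O) ∉ v.asIdeal ∧ Fac π {v} ∧ v.asIdeal = Ideal.span {π} := by
  have hc : IsCoprime π 3 := (hp.irreducible.coprime_iff_not_dvd).2 h3
  obtain ⟨u, hu⟩ := exists_unit_prim hc
  have ha : Associated π (u * π) := (associated_unit_mul_right π u u.isUnit)
  have hp' : Prime (u * π) := ha.prime hp
  obtain ⟨v, hv, hg⟩ := exists_gen_eq hp' hu
  refine ⟨v, hv, ⟨fun w hw => ?_, ?_⟩, ?_⟩
  · rw [Multiset.mem_singleton] at hw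
    rw [hw]
    exact hv
  · rw [Multiset.map_singleton, Multiset.prod_singleton, hg]
    exact ha.symm
  · rw [(gen_spec v hv).1, hg]
    exact Ideal.span_singleton_eq_span_singleton.2 ha.symm

theorem jac_add (l l' : Multiset (HeightOneSpectrum O)) (x : O) : jac3 (l + l') x = jac3 l x * jac3 l' x := by
  unfold jac3
  rw [Multiset.map_add, Multiset.prod_add]

theorem jac_zero (x : O) : jac3 0 x = 1 := by
  unfold jac3
  rw [Multiset.map_zero, Multiset.prod_zero]

theorem jac_cube {x y : O} {l : Multiset (HeightOneSpectrum O)} (h : Fac x l) (hxy : IsCoprime x y) :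
    jac3 l y ^ 3 = 1 := H35T.R4_cube fun v hv => sym3_cube (h.1 v hv) (fac_not h hxy hv)

theorem jac_congr {x y z : O} {l : Multiset (HeightOneSpectrum O)} (h : Fac x l) (hyz : x ∣ y - z) :
    jac3 l y = jac3 l z := by
  unfold jac3
  congr 1
  apply Multiset.map_congr rfl
  intro v hv
  exact sym3_congr (h.1 v hv) (v.asIdeal.mem_of_dvd hyz (fac_mem h hv))

open Classical in
/-- The cubic symbol (n/x) for x prime to 3. -/
noncomputable def cub (n : O) (x : O) : O := if h : ∃ l, Fac x l then jac3 h.choose n else 1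

theorem cub_eq {x : O} {l : Multiset (HeightOneSpectrum O)} (h : Fac x l) (n : O) : cub n x = jac3 l n := by
  have hex : ∃ l, Fac x l := ⟨l, h⟩
  unfold cub
  rw [dif_pos hex, fac_unique hex.choose_spec h]

theorem cub_mulx {x y n : O} (hx : IsCoprime x 3) (hy : IsCoprime y 3) :
    cub n (x * y) = cub n x * cub n y := by
  obtain ⟨l, hl⟩ := fac_exists hx
  obtain ⟨l', hl'⟩ := fac_exists hy
  rw [cub_eq hl, cub_eq hl', cub_eq (fac_mul hl hl'), jac_add]

theorem cub_muln {x n m : O} (hx : IsCoprime x 3) : cub (n * m) x = cub n x * cub m x := by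
  obtain ⟨l, hl⟩ := fac_exists hx
  rw [cub_eq hl, cub_eq hl, cub_eq hl]
  exact H35T.R5_mul hl.1 n m

theorem cub_one {x : O} (hx : IsCoprime x 3) : cub 1 x = 1 := by
  obtain ⟨l, hl⟩ := fac_exists hx
  rw [cub_eq hl]
  exact H35T.R5_one hl.1

theorem cub_neg {x n : O} (hx : IsCoprime x 3) : cub (-n) x = cub n x := by
  obtain ⟨l, hl⟩ := fac_exists hx
  rw [cub_eq hl, cub_eq hl]
  exact H35T.R5_neg hl.1 n

theorem cub_unit {u n : O} (hu : IsUnit u) : cub n u = 1 := by
  rw [cub_eq (fac_unit hu), jac_zero]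

theorem cub_assoc {x y n : O} (h : Associated x y) : cub n x = cub n y := by
  by_cases hx : ∃ l, Fac x l
  · obtain ⟨l, hl⟩ := hx
    rw [cub_eq hl, cub_eq (fac_assoc hl h)]
  · have hy : ¬ ∃ l, Fac y l := fun ⟨l, hl⟩ => hx ⟨l, fac_assoc hl h.symm⟩
    unfold cub
    rw [dif_neg hx, dif_neg hy]

theorem cub_cube {x n : O} (hx : IsCoprime x 3) (hn : IsCoprime x n) : cub n x ^ 3 = 1 := by
  obtain ⟨l, hl⟩ := fac_exists hx
  rw [cub_eq hl]
  exact jac_cube hl hn

theorem cub_congr {x n m : O} (h : x ∣ n - m) : cub n x = cub m x := by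
  by_cases hx : ∃ l, Fac x l
  · obtain ⟨l, hl⟩ := hx
    rw [cub_eq hl, cub_eq hl, jac_congr hl h]
  · unfold cub
    rw [dif_neg hx, dif_neg hx]

theorem cub_euler {π n : O} (hp : Prime π) (h3 : ¬ π ∣ 3) (hn : ¬ π ∣ n) :
    π ∣ n ^ ((Nat.card (O ⧸ Ideal.span {π}) - 1) / 3) - cub n π := by
  obtain ⟨v, hv, hF, hI⟩ := fac_prime hp h3
  have h1 : cub n π = sym3 v n := by
    rw [cub_eq hF]
    unfold jac3
    rw [Multiset.map_singleton, Multiset.prod_singleton]
  have h2 : n ∉ v.asIdeal := by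
    rw [hI, Ideal.mem_span_singleton]
    exact hn
  have h4 := (sym3_spec hv h2).1
  have h5 : Ideal.absNorm v.asIdeal = Nat.card (O ⧸ Ideal.span {π}) := by
    rw [hI, Ideal.absNorm_apply, Submodule.cardQuot_apply]
  rw [h5, hI, Ideal.mem_span_singleton] at h4
  rw [h1]
  exact h4

end H55W
end

-- from Lib.H55W.C2
section

/-! # H55W, part C (cubic residue characters), file C2: cubic reciprocity for primary elements up to sign; rational integers -/

open NumberField IsDedekindDomain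

namespace H55W

open H55B (O om gen Nm cj Prim gen_spec gen_prime gen_dvd_iff absNorm_gen exists_gen_eq exists_unit_prim om_rel)
open H35T (sym3 jac3 sym3_mul sym3_congr sym3_cube sym3_spec)

/-- Primary up to sign. -/
def PM (a : O) : Prop := Prim a ∨ Prim (-a)


theorem pm_cop {a : O} (h : PM a) : IsCoprime a 3 := by
  rcases h with h | h
  · exact h.coprime
  · exact (IsCoprime.neg_left_iff _ _).1 h.coprime

theorem recip_prim {a b : O} (ha : Prim a) (hb : Prim b) (hab : IsCoprime a b) : cub b a = cub a b := by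
  obtain ⟨l, hl⟩ := fac_exists ha.coprime
  obtain ⟨l', hl'⟩ := fac_exists hb.coprime
  have e1 : (l.map gen).prod = a := H55B.Prim.eq_of_associated (c1_prim l hl.1) ha hl.2
  have e2 : (l'.map gen).prod = b := H55B.Prim.eq_of_associated (c1_prim l' hl'.1) hb hl'.2
  rw [cub_eq hl, cub_eq hl']
  have h1 : jac3 l b = (l.map fun u => (l'.map fun v => sym3 u (gen v)).prod).prod := by
    unfold jac3
    congr 1
    apply Multiset.map_congr rfl
    intro u hu
    rw [← e2]
    exact H35T.R4_prod (hl.1 u hu) l'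
  have h2 : jac3 l' a = (l'.map fun v => (l.map fun u => sym3 v (gen u)).prod).prod := by
    unfold jac3
    congr 1
    apply Multiset.map_congr rfl
    intro v hv
    rw [← e1]
    exact H35T.R4_prod (hl'.1 v hv) l
  rw [h1, h2, Multiset.prod_map_prod_map]
  congr 1
  apply Multiset.map_congr rfl
  intro v hv
  congr 1
  apply Multiset.map_congr rfl
  intro u hu
  refine H35T.recip_all v u (hl'.1 v hv) (hl.1 u hu) ?_
  rintro rfl
  exact fac_not hl hab hu (fac_mem hl' hv)

theorem recip_pm {a b : O} (ha : PM a) (hb : PM b) (hab : IsCoprime a b) : cub b a = cub a b := by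
  have key : ∀ {a b : O}, Prim a → PM b → IsCoprime a b → cub b a = cub a b := by
    intro a b ha hb hab
    rcases hb with hb | hb
    · exact recip_prim ha hb hab
    · have h1 := recip_prim ha hb hab.neg_right
      rw [cub_neg ha.coprime] at h1
      rw [h1]
      exact cub_assoc (Associated.neg_left (Associated.refl b))
  rcases ha with ha | ha
  · exact key ha hb hab
  · have h1 := key ha hb hab.neg_left
    rw [cub_neg (pm_cop hb)] at h1
    rw [← h1]
    exact cub_assoc (Associated.neg_right (Associated.refl a))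

theorem pm_int {n : ℤ} (h : ¬ (3 : ℤ) ∣ n) : PM (n : O) := by
  have h1 : n % 3 = 1 ∨ n % 3 = 2 := by omega
  rcases h1 with h1 | h1
  · left
    refine ⟨((n / 3 : ℤ) : O), ?_⟩
    have h2 : n - 1 = 3 * (n / 3) := by omega
    have h3 := congrArg (Int.cast : ℤ → O) h2
    push_cast at h3
    exact h3
  · right
    refine ⟨((-(n / 3) - 1 : ℤ) : O), ?_⟩
    have h2 : -n - 1 = 3 * (-(n / 3) - 1) := by omega
    have h3 := congrArg (Int.cast : ℤ → O) h2
    push_cast at h3 ⊢
    exact h3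

theorem cop_int {a b : ℤ} (h : IsCoprime a b) : IsCoprime (a : O) (b : O) := by
  have := h.map (Int.castRingHom O)
  simpa using this

theorem cop_int3 {n : ℤ} (h : ¬ (3 : ℤ) ∣ n) : IsCoprime (n : O) 3 := pm_cop (pm_int h)

theorem cj_int (n : ℤ) : cj (n : O) = (n : O) := map_intCast cj n

theorem cub_cj {x n : O} (hx : IsCoprime x 3) : cub (cj n) (cj x) = cj (cub n x) := by
  obtain ⟨l, hl⟩ := fac_exists hx
  have hσ : ∀ u : HeightOneSpectrum O, ∃ u' : HeightOneSpectrum O, (3 : O) ∉ u.asIdeal →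
      (3 : O) ∉ u'.asIdeal ∧ gen u' = cj (gen u) ∧ ∀ x : O, sym3 u' (cj x) = cj (sym3 u x) := by
    intro u
    by_cases h : (3 : O) ∉ u.asIdeal
    · obtain ⟨u', hu'⟩ := H35T.exists_conj u h
      exact ⟨u', fun _ => hu'⟩
    · exact ⟨u, fun h' => absurd h' h⟩
  choose σ hσ using hσ
  have hF : Fac (cj x) (l.map σ) := by
    refine ⟨fun w hw => ?_, ?_⟩
    · obtain ⟨u, hu, rfl⟩ := Multiset.mem_map.1 hw
      exact (hσ u (hl.1 u hu)).1
    · have h1 : ((l.map σ).map gen).prod = cj (l.map gen).prod := by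
        rw [map_multiset_prod, Multiset.map_map, Multiset.map_map]
        congr 1
        apply Multiset.map_congr rfl
        intro u hu
        exact (hσ u (hl.1 u hu)).2.1
      rw [h1]
      exact hl.2.map cj
  rw [cub_eq hl, cub_eq hF]
  unfold jac3
  rw [map_multiset_prod, Multiset.map_map, Multiset.map_map]
  congr 1
  apply Multiset.map_congr rfl
  intro u hu
  exact (hσ u (hl.1 u hu)).2.2 n

theorem cub_int {a b : ℤ} (ha : ¬ (3 : ℤ) ∣ a) (hab : IsCoprime a b) : cub (b : O) (a : O) = 1 := by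
  have h1 := cub_cj (n := (b : O)) (cop_int3 ha)
  rw [cj_int, cj_int] at h1
  exact H35T.R4_fixed h1 (cub_cube (cop_int3 ha) (cop_int hab))

/-- (n/x) = 1 for x = 1 modulo 3 n, n prime to 3. -/
theorem cub_per0 {n : ℤ} (hn : ¬ (3 : ℤ) ∣ n) {x : O} (hx : Prim x) (h : (n : O) ∣ x - 1) : cub (n : O) x = 1 := by
  have hcop : IsCoprime x (n : O) := by
    obtain ⟨c, hc⟩ := h
    exact ⟨1, -c, by linear_combination hc⟩
  rw [recip_pm (Or.inl hx) (pm_int hn) hcop, cub_congr h, cub_one (cop_int3 hn)]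

end H55W
end

-- from Lib.H55W.C3
section

/-! # H55W, part C (cubic residue characters), file C3: the supplementary laws; (3/x) = 1 for x = 1 modulo 9 -/

open NumberField IsDedekindDomain

namespace H55W

open H55B (O om gen Nm cj Prim gen_spec gen_prime gen_dvd_iff absNorm_gen exists_gen_eq exists_unit_prim om_rel Nm_mul Nm_repr)
open H35T (sym3 jac3 sym3_mul sym3_congr sym3_cube sym3_spec)

theorem om3 : om ^ 3 = 1 := H35T.r1_om3

/-- (om/x) = om^k with k = (N x - 1)/3 modulo 3. -/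
theorem cub_om {x : O} (hx : IsCoprime x 3) : ∃ k : ℕ, cub om x = om ^ k ∧
    ∃ m : ℤ, (Nm x : ℤ) = 1 + 3 * k + 9 * m := by
  obtain ⟨l, hl⟩ := fac_exists hx
  obtain ⟨k, hk, m, hm⟩ := H35T.R5_om l hl.1
  refine ⟨k, ?_, m, ?_⟩
  · rw [cub_eq hl, hk]
  · rw [← hm]
    obtain ⟨u, hu⟩ := hl.2
    rw [← hu, Nm_mul, H55B.Nm_eq_one.2 u.isUnit, mul_one]

theorem Nm_int (n : ℤ) : (Nm (n : O) : ℤ) = n ^ 2 := by
  have h := Nm_repr n 0
  have h1 : (n : O) + ((0 : ℤ) : O) * om = (n : O) := by push_cast; ring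
  rw [h1] at h
  rw [h]
  ring

theorem om_pow_eq {k k' : ℕ} (h : (3 : ℤ) ∣ (k : ℤ) - k') : om ^ k = om ^ k' := by
  have h1 : k % 3 = k' % 3 := by omega
  rw [← Nat.div_add_mod k 3, ← Nat.div_add_mod k' 3, pow_add, pow_add, pow_mul, pow_mul, om3, one_pow, one_pow,
    h1]

/-- The symbol ((1 - om)/c) for a rational integer c. -/
theorem cub_lam_int {c : ℤ} (hc : ¬ (3 : ℤ) ∣ c) : cub (1 - om) (c : O) = cub om (c : O) ^ 2 := by
  have hc3 := cop_int3 hc
  have hco : IsCoprime (c : O) (1 - om) := by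
    apply hc3.of_isCoprime_of_dvd_right
    refine ⟨1 - om ^ 2, ?_⟩
    linear_combination om_rel - om3
  have h1 : cub (1 - om) (c : O) ^ 3 = 1 := cub_cube hc3 hco
  have h2 : cub (1 - om) (c : O) ^ 2 = cub om (c : O) := by
    have e : (1 - om) * (1 - om) = -(((3 : ℤ) : O) * om) := by
      push_cast
      linear_combination om_rel
    have h3 : cub (((3 : ℤ) : O)) (c : O) = 1 := by
      apply cub_int hc
      have : IsCoprime (c : ℤ) (3 : ℤ) := by
        rw [isCoprime_comm]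
        exact (Int.prime_three.coprime_iff_not_dvd).2 hc
      exact this
    rw [pow_two, ← cub_muln hc3, e, cub_neg hc3, cub_muln hc3, h3, one_mul]
  calc cub (1 - om) (c : O) = cub (1 - om) (c : O) ^ 3 * cub (1 - om) (c : O) := by rw [h1, one_mul]
    _ = (cub (1 - om) (c : O) ^ 2) ^ 2 := by ring
    _ = cub om (c : O) ^ 2 := by rw [h2]

/-- The supplementary law for 1 - om. -/
theorem cub_lam {x : O} (hx : (9 : O) ∣ x - 1) : cub (1 - om) x = 1 := by
  obtain ⟨z, hz⟩ := hx
  obtain ⟨z1, z2, rfl⟩ := H55B.exists_repr z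
  set a : ℤ := 1 + 9 * z1 with ha
  set b : ℤ := 9 * z2 with hb
  have hx : x = (a : O) + (b : O) * om := by
    rw [ha, hb]
    push_cast
    linear_combination hz
  have ha0 : a ≠ 0 := by omega
  obtain ⟨d, a', b', hd0, hd, hcop⟩ : ∃ d a' b' : ℤ, a = d * a' ∧ b = d * b' ∧ IsCoprime a' b' := by
    have hg : 0 < Int.gcd a b := Int.gcd_pos_of_ne_zero_left b ha0
    obtain ⟨a', ha'⟩ := Int.gcd_dvd_left a b
    obtain ⟨b', hb'⟩ := Int.gcd_dvd_right a b
    refine ⟨(Int.gcd a b : ℤ), a', b', ha', hb', ?_⟩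
    rw [Int.isCoprime_iff_gcd_eq_one]
    have h1 := Int.gcd_div_gcd_div_gcd (i := a) (j := b) hg
    rw [Int.ediv_eq_of_eq_mul_right (by exact_mod_cast hg.ne') ha',
      Int.ediv_eq_of_eq_mul_right (by exact_mod_cast hg.ne') hb'] at h1
    exact h1
  have hd3 : ¬ (3 : ℤ) ∣ d := fun h => by
    have h1 : (3 : ℤ) ∣ a := hd0 ▸ h.mul_right a'
    omega
  have ha3 : ¬ (3 : ℤ) ∣ a' := fun h => by
    have h1 : (3 : ℤ) ∣ a := hd0 ▸ h.mul_left d
    omega
  have hb9 : (9 : ℤ) ∣ b' := by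
    have h1 : (9 : ℤ) ∣ d * b' := hd ▸ ⟨z2, hb⟩
    have h2 : IsCoprime (9 : ℤ) d := by
      have h3 : IsCoprime (3 : ℤ) d := (Int.prime_three.coprime_iff_not_dvd).2 hd3
      have h4 := h3.pow_left (m := 2)
      norm_num at h4
      exact h4
    exact h2.dvd_of_dvd_mul_left h1
  obtain ⟨b0, hb0⟩ := hb9
  have hab3 : ¬ (3 : ℤ) ∣ a' + b' := by omega
  set x' : O := (a' : O) + (b' : O) * om with hx'
  have hxx : x = (d : O) * x' := by
    rw [hx, hx', hd0, hd]
    push_cast
    ring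
  have hx'P : PM x' := by
    rcases pm_int ha3 with h | h
    · left
      obtain ⟨t, ht⟩ := h
      refine ⟨t + ((3 * b0 : ℤ) : O) * om, ?_⟩
      rw [hx', hb0]
      push_cast
      linear_combination ht
    · right
      obtain ⟨t, ht⟩ := h
      refine ⟨t - ((3 * b0 : ℤ) : O) * om, ?_⟩
      rw [hx', hb0]
      push_cast
      linear_combination ht
  have hc' : IsCoprime (a' : O) (b' : O) := cop_int hcop
  have homu : IsUnit om := ⟨H55B.Z3_omU, rfl⟩
  have hx'a : IsCoprime x' (a' : O) := by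
    obtain ⟨s, t, hst⟩ := hc'
    refine ⟨t * om ^ 2, s - t * om ^ 2, ?_⟩
    rw [hx']
    linear_combination hst + t * (b' : O) * om3
  have hab' : IsCoprime (a' : O) ((a' + b' : ℤ) : O) := by
    push_cast
    obtain ⟨s, t, hst⟩ := hc'
    exact ⟨s - t, t, by linear_combination hst⟩
  have hxab : IsCoprime x' ((a' + b' : ℤ) : O) := by
    have h1 : IsCoprime ((a' + b' : ℤ) : O) ((1 - om) * (a' : O)) := by
      refine IsCoprime.mul_right ?_ hab'.symm
      apply (cop_int3 hab3).of_isCoprime_of_dvd_right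
      refine ⟨1 - om ^ 2, ?_⟩
      linear_combination om_rel - om3
    obtain ⟨s, t, hst⟩ := h1
    refine ⟨t, s - t * om, ?_⟩
    rw [hx']
    push_cast at hst ⊢
    linear_combination hst
  -- the symbols
  have hx3 : IsCoprime x' 3 := pm_cop hx'P
  have s1 : cub (1 - om) x = cub om (d : O) ^ 2 * cub (1 - om) x' := by
    rw [hxx, cub_mulx (cop_int3 hd3) hx3, cub_lam_int hd3]
  have s2 : cub (1 - om) x' * cub (a' : O) x' = cub ((a' + b' : ℤ) : O) x' * cub om x' := by
    rw [← cub_muln hx3, ← cub_muln hx3, ← cub_neg (n := ((a' + b' : ℤ) : O) * om) hx3]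
    apply cub_congr
    refine ⟨1, ?_⟩
    rw [hx']
    push_cast
    ring
  have s3 : cub (a' : O) x' = cub om (a' : O) := by
    rw [recip_pm hx'P (pm_int ha3) hx'a, cub_congr (m := (b' : O) * om) ⟨1, by rw [hx']; ring⟩,
      cub_muln (cop_int3 ha3), cub_int ha3 hcop, one_mul]
  have s4 : cub ((a' + b' : ℤ) : O) x' = cub om ((a' + b' : ℤ) : O) ^ 2 := by
    have hco : IsCoprime (a' + b') a' := by
      obtain ⟨s, t, hst⟩ := hcop
      exact ⟨t, s - t, by linear_combination hst⟩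
    rw [recip_pm hx'P (pm_int hab3) hxab, cub_congr (m := (a' : O) * (1 - om))
      ⟨om, by rw [hx']; push_cast; ring⟩, cub_muln (cop_int3 hab3), cub_int hab3 hco, one_mul,
      cub_lam_int hab3]
  obtain ⟨kd, hkd, md, hmd⟩ := cub_om (cop_int3 hd3)
  obtain ⟨ka, hka, ma, hma⟩ := cub_om (cop_int3 ha3)
  obtain ⟨ks, hks, ms, hms⟩ := cub_om (cop_int3 hab3)
  obtain ⟨kx, hkx, mx, hmx⟩ := cub_om hx3
  rw [Nm_int] at hmd hma hms
  rw [hx', Nm_repr] at hmx
  rw [s3, s4, hka, hks, hkx] at s2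
  rw [hkd] at s1
  have e1 : (3 : ℤ) ∣ (ks : ℤ) - ka := by
    have : 3 * ((ks : ℤ) - ka) = 9 * (2 * a' * b0 + 9 * b0 ^ 2 - ms + ma) := by
      rw [hb0] at hms
      linear_combination -hms + hma
    omega
  have e2 : (3 : ℤ) ∣ (kx : ℤ) - ka := by
    have : 3 * ((kx : ℤ) - ka) = 9 * (-a' * b0 + 9 * b0 ^ 2 - mx + ma) := by
      rw [hb0] at hmx
      linear_combination -hmx + hma
    omega
  have e3 : (3 : ℤ) ∣ (kd : ℤ) + ka := by
    have h1 : d * a' = 1 + 9 * z1 := by rw [← hd0]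
    have h2 : (d * a') ^ 2 = (1 + 3 * kd + 9 * md) * (1 + 3 * ka + 9 * ma) := by
      rw [← hmd, ← hma]
      ring
    rw [h1] at h2
    have h3 : 3 * ((kd : ℤ) + ka) = 9 * (2 * z1 + 9 * z1 ^ 2 - ma - md - kd * ka - 3 * kd * ma - 3 * md * ka - 9 * md * ma) := by
      linear_combination -h2
    omega
  have e4 : om ^ ks = om ^ ka := om_pow_eq e1
  have e5 : om ^ kx = om ^ ka := om_pow_eq e2
  have e6 : om ^ (kd + ka) = 1 := by
    rw [om_pow_eq (k' := 0) (by push_cast; simpa using e3), pow_zero]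
  rw [e4, e5] at s2
  have e7 : cub (1 - om) x' = (om ^ ka) ^ 2 := by
    have h1 : (om ^ ka) ^ 3 = 1 := by rw [← pow_mul, mul_comm, pow_mul, om3, one_pow]
    linear_combination (om ^ ka) ^ 2 * s2 + ((om ^ ka) ^ 2 - cub (1 - om) x') * h1
  rw [s1, e7, ← mul_pow, ← pow_add, e6, one_pow]

/-- The supplementary law for 3. -/
theorem cub_three {x : O} (hx : (9 : O) ∣ x - 1) : cub 3 x = 1 := by
  have hP : Prim x := by
    obtain ⟨z, hz⟩ := hx
    exact ⟨3 * z, by linear_combination hz⟩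
  have h3 := hP.coprime
  have e : (3 : O) = -(om ^ 2 * ((1 - om) * (1 - om))) := by
    linear_combination (om ^ 2 - 3 * om + 3) * om_rel
  have ho : cub om x = 1 := by
    obtain ⟨k, hk, m, hm⟩ := cub_om h3
    obtain ⟨j, hj⟩ := H35T.R5_norm9 (a := x) (by
      obtain ⟨z, hz⟩ := hx
      exact ⟨-(om ^ 2 * (om - 1)) * z, by
        rw [hz]
        linear_combination 3 * z * (om ^ 2 - 3 * om + 3) * om_rel⟩)
    rw [hj] at hm
    rw [hk, om_pow_eq (k' := 0) (by push_cast; omega), pow_zero]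
  have hl := cub_lam hx
  conv_lhs => rw [e]
  rw [cub_neg h3, cub_muln h3, cub_muln h3, hl, pow_two, cub_muln h3, ho]
  ring

end H55W
end

-- from Lib.H55W.C4
section

/-! # H55W, part C (cubic residue characters), file C4: periodicity of (n/x), the cubic residue characters of the Eisenstein integers and of
every quadratic field with a cube root of unity -/

open NumberField IsDedekindDomain

namespace H55W

open H55B (O om)

theorem cub_pow {x n : O} (hx : IsCoprime x 3) (a : ℕ) : cub (n ^ a) x = cub n x ^ a := by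
  induction a with
  | zero => rw [pow_zero, pow_zero, cub_one hx]
  | succ a ih => rw [pow_succ, pow_succ, cub_muln hx, ih]

/-- (n/x) = 1 for x = 1 modulo 9 n. -/
theorem cub_per1 {n : ℤ} (hn : n ≠ 0) {x : O} (h : ((9 * n : ℤ) : O) ∣ x - 1) : cub (n : O) x = 1 := by
  obtain ⟨m, hm0, hnm⟩ := (Int.finiteMultiplicity_iff.2 ⟨by norm_num, hn⟩ :
    FiniteMultiplicity (3 : ℤ) n).exists_eq_pow_mul_and_not_dvd
  obtain ⟨a, hm⟩ : ∃ a : ℕ, n = 3 ^ a * m := ⟨_, hm0⟩
  have h9 : (9 : O) ∣ x - 1 := by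
    refine dvd_trans ⟨(n : O), ?_⟩ h
    push_cast
    ring
  have hP : H55B.Prim x := by
    obtain ⟨z, hz⟩ := h9
    exact ⟨3 * z, by linear_combination hz⟩
  have hmx : (m : O) ∣ x - 1 := by
    refine dvd_trans ⟨9 * 3 ^ a, ?_⟩ h
    rw [hm]
    push_cast
    ring
  have e : (n : O) = (3 : O) ^ a * (m : O) := by
    rw [hm]
    push_cast
    ring
  rw [e, cub_muln hP.coprime, cub_pow hP.coprime, cub_three h9, one_pow, one_mul]
  exact cub_per0 hnm hP hmx

theorem cub_O (n : ℤ) (hn : n ≠ 0) : ∃ κ : H55B.O → H55B.O, PRC H55B.O 3 n (3 * n) (27 * n) κ := by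
  have h3 : ∀ x : O, IsCoprime x ((3 * n : ℤ) : O) → IsCoprime x 3 ∧ IsCoprime x (n : O) := by
    intro x hx
    push_cast at hx
    exact ⟨hx.of_mul_right_left, hx.of_mul_right_right⟩
  refine ⟨cub (n : O), ⟨?_, ?_, ?_, ?_, ?_⟩⟩
  · intro x hx
    exact cub_cube (h3 x hx).1 (h3 x hx).2
  · intro x y hx hy
    exact cub_mulx (h3 x hx).1 (h3 y hy).1
  · intro x y hx hy hxy
    have hc : IsCoprime x ((27 * n : ℤ) : O) := by
      refine (hx.pow_right (n := 3)).of_isCoprime_of_dvd_right ⟨(n : O) ^ 2, ?_⟩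
      push_cast
      ring
    obtain ⟨z, w, hzw⟩ := hc
    have hz3 : IsCoprime z 3 := ⟨x, w * (9 * n), by
      push_cast at hzw
      linear_combination hzw⟩
    have h1 : cub (n : O) (x * z) = 1 := by
      apply cub_per1 hn
      refine ⟨-3 * w, ?_⟩
      push_cast at hzw ⊢
      linear_combination hzw
    have h2 : cub (n : O) (y * z) = 1 := by
      apply cub_per1 hn
      obtain ⟨t, ht⟩ := hxy
      refine ⟨-3 * w - 3 * t * z, ?_⟩
      push_cast at hzw ht ⊢
      linear_combination hzw - z * ht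
    rw [cub_mulx (h3 x hx).1 hz3] at h1
    rw [cub_mulx (h3 y hy).1 hz3] at h2
    have h4 : cub (n : O) z ≠ 0 := fun h0 => by
      rw [h0, mul_zero] at h1
      exact zero_ne_one h1
    exact mul_right_cancel₀ h4 (h1.trans h2.symm)
  · intro u hu
    exact cub_unit hu
  · intro π hπ hc h3π
    have hn' : ¬ π ∣ (n : O) := fun h => hc (by push_cast; exact h.mul_left 3)
    have h3' : ¬ π ∣ (3 : O) := fun h => hc (by push_cast; exact h.mul_right _)
    exact cub_euler hπ h3' hn'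

/-- Transport along an isomorphism of rings. -/
theorem prc_transport {R S : Type} [CommRing R] [CommRing S] (e : R ≃+* S) {m : ℕ} {n c k : ℤ} {κ : S → S}
    (h : PRC S m n c k κ) : PRC R m n c k (fun x => e.symm (κ (e x))) := by
  have hcop : ∀ x : R, IsCoprime x (c : R) → IsCoprime (e x) (c : S) := by
    intro x hx
    have := hx.map (e : R →+* S)
    simpa using this
  refine ⟨?_, ?_, ?_, ?_, ?_⟩
  · intro x hx
    show (e.symm (κ (e x))) ^ m = 1
    rw [← map_pow, h.root _ (hcop x hx), map_one]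
  · intro x y hx hy
    show e.symm (κ (e (x * y))) = e.symm (κ (e x)) * e.symm (κ (e y))
    rw [map_mul, h.mul _ _ (hcop x hx) (hcop y hy), map_mul]
  · intro x y hx hy hxy
    show e.symm (κ (e x)) = e.symm (κ (e y))
    rw [h.per _ _ (hcop x hx) (hcop y hy)]
    have := map_dvd e hxy
    rwa [map_sub, map_intCast] at this
  · intro u hu
    show e.symm (κ (e u)) = 1
    rw [h.unit _ (hu.map e), map_one]
  · intro π hπ hc hm
    have hπ' : Prime (e π) := (MulEquiv.prime_iff (e : R ≃* S)).2 hπ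
    have hc' : ¬ e π ∣ (c : S) := by
      rw [← map_intCast e, map_dvd_iff]
      exact hc
    have hm' : ¬ e π ∣ (m : S) := by
      rw [← map_natCast e, map_dvd_iff]
      exact hm
    have h1 := h.euler _ hπ' hc' hm'
    have hcard : Nat.card (S ⧸ Ideal.span {e π}) = Nat.card (R ⧸ Ideal.span {π}) := by
      refine (Nat.card_congr (Ideal.quotientEquiv (Ideal.span {π}) (Ideal.span {e π}) e ?_).toEquiv).symm
      rw [Ideal.map_span, Set.image_singleton]
      rfl
    rw [hcard] at h1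
    have h2 := map_dvd e.symm h1
    rw [map_sub, map_pow, map_intCast, RingEquiv.symm_apply_apply] at h2
    exact h2

theorem cub_F (F : Type) [Field F] [NumberField F] (hdeg : Module.finrank ℚ F = 2) (w : 𝓞 F) (hw : w ^ 2 + w + 1 = 0)
    (n : ℤ) (hn : n ≠ 0) : ∃ κ : 𝓞 F → 𝓞 F, PRC (𝓞 F) 3 n (3 * n) (27 * n) κ := by
  obtain ⟨κ, hκ⟩ := cub_O n hn
  have hwF : (w : F) ^ 2 + (w : F) + 1 = 0 := by
    have := congrArg (algebraMap (𝓞 F) F) hw
    simpa using this
  have hirr : Irreducible (Polynomial.cyclotomic 3 ℚ) := Polynomial.cyclotomic.irreducible_rat (by norm_num)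
  let pb := H55B.zeta_spec.powerBasis ℚ
  have hmin : minpoly ℚ pb.gen = Polynomial.X ^ 2 + Polynomial.X + 1 := by
    rw [← Polynomial.cyclotomic_three, IsPrimitiveRoot.powerBasis_gen]
    exact (H55B.zeta_spec.minpoly_eq_cyclotomic_of_irreducible hirr).symm
  have hev : Polynomial.aeval (w : F) (minpoly ℚ pb.gen) = 0 := by
    rw [hmin, map_add, map_add, map_pow, Polynomial.aeval_X, map_one]
    exact hwF
  let f : H55B.F →ₐ[ℚ] F := pb.lift (w : F) hev
  have hfin : Module.finrank ℚ H55B.F = Module.finrank ℚ F := by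
    rw [hdeg, IsCyclotomicExtension.finrank (n := 3) H55B.F hirr]
    rfl
  have hinj : Function.Injective f := f.toRingHom.injective
  have hsurj : Function.Surjective f :=
    (LinearMap.injective_iff_surjective_of_finrank_eq_finrank (f := f.toLinearMap) hfin).1 hinj
  let g : H55B.F ≃ₐ[ℚ] F := AlgEquiv.ofBijective f ⟨hinj, hsurj⟩
  let G : 𝓞 F ≃+* H55B.O := RingOfIntegers.mapRingEquiv g.symm.toRingEquiv
  exact ⟨_, prc_transport G hκ⟩

end H55W
end

-- from Lib.H55G.I1b
section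

/-! # H55G, part I: unipotent operators -/

namespace H55G

/-- Chunk I1b (S/M, PURE). In (ZMod p)[X]: (X - 1)^(p^k) = X^(p^k) - 1 (sub_pow_char_pow), so in ℤ[X] (X - 1)^(p^k) = X^(p^k) - 1 + C p * R for some polynomial R (the difference is mapped to 0 in (ZMod p)[X], so all its coefficients are divisible by p: Polynomial.C_dvd_iff_dvd_coeff; ZMod.intCast_zmod_eq_zero_iff_dvd). Evaluate at φ
(Polynomial.aeval φ in the ring AddMonoid.End G) and apply to c: (φ - 1)^(p^k) c = φ^(p^k) c - c + p • (R(φ) c) = 0, since R(φ) commutes with multiplication by p and p • c = 0. Let n be the least number with (φ - 1)^n c = 0 (Nat.find; n ≠ 0 since c ≠ 0): c' = (φ - 1)^(n - 1) c. -/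
theorem unip_fix {G : Type} [AddCommGroup G] (φ : AddMonoid.End G) {p : ℕ} (hp : p.Prime) (k : ℕ) {c : G} (hc : c ≠ 0)
    (hpc : p • c = 0) (hf : (φ ^ p ^ k) c = c) : ∃ c' : G, c' ≠ 0 ∧ p • c' = 0 ∧ φ c' = c' := by
  have : Fact p.Prime := ⟨hp⟩
  obtain ⟨R, hR⟩ : ∃ R : Polynomial ℤ, (Polynomial.X - 1) ^ p ^ k =
      Polynomial.X ^ p ^ k - 1 + Polynomial.C (p : ℤ) * R := by
    have h1 : Polynomial.C (p : ℤ) ∣ (Polynomial.X - 1) ^ p ^ k - (Polynomial.X ^ p ^ k - 1 : Polynomial ℤ) := by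
      rw [Polynomial.C_dvd_iff_dvd_coeff]
      intro i
      rw [← ZMod.intCast_zmod_eq_zero_iff_dvd]
      have h2 : ((Polynomial.X - 1) ^ p ^ k - (Polynomial.X ^ p ^ k - 1 : Polynomial ℤ)).map
          (Int.castRingHom (ZMod p)) = 0 := by
        rw [Polynomial.map_sub, Polynomial.map_pow, Polynomial.map_sub, Polynomial.map_sub,
          Polynomial.map_pow, Polynomial.map_X, Polynomial.map_one, sub_pow_char_pow, one_pow, sub_self]
      have h3 := congrArg (fun q => Polynomial.coeff q i) h2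
      simp only [Polynomial.coeff_map, Polynomial.coeff_zero] at h3
      exact h3
    obtain ⟨R, hR⟩ := h1
    exact ⟨R, by rw [← hR]; ring⟩
  have hz : ((φ - 1) ^ p ^ k) c = 0 := by
    have h1 := congrArg (Polynomial.aeval φ) hR
    rw [map_pow, map_sub, Polynomial.aeval_X, map_one, map_add, map_sub, map_pow, Polynomial.aeval_X,
      map_one, map_mul, Polynomial.aeval_C] at h1
    rw [h1]
    have h2 : ((algebraMap ℤ (AddMonoid.End G)) (p : ℤ) * Polynomial.aeval φ R) c = 0 := by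
      show (algebraMap ℤ (AddMonoid.End G)) (p : ℤ) ((Polynomial.aeval φ R) c) = 0
      rw [map_natCast, AddMonoid.End.natCast_apply, ← map_nsmul, hpc, map_zero]
    show (φ ^ p ^ k) c - c + ((algebraMap ℤ (AddMonoid.End G)) (p : ℤ) * Polynomial.aeval φ R) c = 0
    rw [h2, hf, sub_self, add_zero]
  classical
  have hex : ∃ n : ℕ, ((φ - 1) ^ n : AddMonoid.End G) c = 0 := ⟨_, hz⟩
  have hn := Nat.find_spec hex
  have hn0 : Nat.find hex ≠ 0 := by
    intro h
    rw [h, pow_zero] at hn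
    exact hc hn
  obtain ⟨m, hm⟩ := Nat.exists_eq_succ_of_ne_zero hn0
  have hm' : ((φ - 1) ^ m) c ≠ 0 := Nat.find_min hex (by omega)
  refine ⟨((φ - 1) ^ m) c, hm', ?_, ?_⟩
  · rw [← map_nsmul, hpc, map_zero]
  · rw [hm, Nat.succ_eq_add_one, pow_succ'] at hn
    have h3 : φ (((φ - 1) ^ m) c) - ((φ - 1) ^ m) c = 0 := hn
    exact sub_eq_zero.1 h3

end H55G
end
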