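import Mathlib
import Pool.Agent.Lib.H1M.PP2.M005
import Pool.Agent.Lib.H1M.PP2.M010
import Pool.Agent.Lib.H1M.PP2.M022
import Pool.Agent.Lib.H1M.PP2.M031
import Pool.Agent.Lib.H1M.PP2.M038
import Pool.Agent.Lib.H1M.PP2.M048
import Pool.Agent.Lib.H1M.PP2.M051
import Pool.Agent.Lib.H1M.PP2.M054

/-! Merged copies (to shorten the build) of Lib.H28T.CC2A, Lib.H55K.Y6, Lib.H55W.G0, Lib.H55W.G3A, Lib.H55W.G3B, Lib.H55W.HB, Lib.H55W.S5, Lib.H35L.Ar, Lib.H35L.X8, Lib.SSG.LT.EM, Lib.SSG.LP.A, Lib.H35L.C0, Lib.H35L.C0C, Lib.H35L.C0D. -/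

-- from Lib.H28T.CC2A
section

open NumberField IsDedekindDomain

namespace H28T

open H55P

variable {F : Type} [Field F] [NumberField F] [IQ F] {m : Ideal (𝓞 F)} {ψ : Ideal (𝓞 F) →*₀ 𝓞 F}

/-- Chunk CC2A (S). absNorm m divides l + 1 (so l + 1 is in m: Ideal.absNorm_mem). IsHecke.per with x = -l, y = 1: both generate ideals coprime to m (span {-l} ⊔ m contains l + 1 and l: 1 = (l + 1) + (-l)), x - y = -(l + 1) in m: ψ(span {-l}) * 1 = ψ(span {1}) * (-l), ψ(⊤) = 1 (map_one; span {1} = ⊤ = 1), span {-l} = span {l}. -/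
theorem cc2a_psi (hψ : IsHecke m ψ) {l : ℕ} (hl : Ideal.absNorm m ∣ l + 1) :
    ψ (Ideal.span {(l : 𝓞 F)}) = -(l : 𝓞 F) := by
  have hmem : (l : 𝓞 F) + 1 ∈ m := by
    obtain ⟨k, hk⟩ := hl
    have h1 : (l : 𝓞 F) + 1 = (k : 𝓞 F) * (Ideal.absNorm m : 𝓞 F) := by
      have h2 : ((l + 1 : ℕ) : 𝓞 F) = ((Ideal.absNorm m * k : ℕ) : 𝓞 F) := congrArg _ hk
      push_cast at h2
      rw [h2]
      ring
    rw [h1]
    exact m.mul_mem_left _ (Ideal.absNorm_mem m)
  have hc1 : IsCoprime (Ideal.span {-(l : 𝓞 F)}) m := by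
    rw [Ideal.isCoprime_iff_exists]
    exact ⟨-(l : 𝓞 F), Ideal.mem_span_singleton_self _, (l : 𝓞 F) + 1, hmem, by ring⟩
  have hc2 : IsCoprime (Ideal.span {(1 : 𝓞 F)}) m := by
    rw [Ideal.span_singleton_one, ← Ideal.one_eq_top]
    exact isCoprime_one_left
  have h := hψ.per (-(l : 𝓞 F)) 1 hc1 hc2 (by
    have e : -(l : 𝓞 F) - 1 = -((l : 𝓞 F) + 1) := by ring
    rw [e]
    exact m.neg_mem hmem)
  rw [Ideal.span_singleton_one, ← Ideal.one_eq_top, map_one, mul_one, one_mul,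
    Ideal.span_singleton_neg] at h
  exact h

end H28T
end

-- from Lib.H55K.Y6
section

/-! # H55K: Selmer groups of the two equations -/

open NumberField IsDedekindDomain WeierstrassCurve

namespace H55K

open H55P (IQ embF eF LF Per IsHecke Pt ac Inert Dec Nm)
open H35P (WAB Ker tt)


variable {F : Type} [Field F] [NumberField F] [IQ F]

omit [NumberField F] [IQ F] in
theorem y6_transport {Ω : Type} [Field Ω] [DecidableEq Ω] [Algebra F Ω] {W W' : WeierstrassCurve F} (p : ℕ)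
    (K : IntermediateField F Ω) (φ : Pt W Ω ≃+ Pt W' Ω) (hφ : ∀ s P, φ (ac W s P) = ac W' s (φ P))
    (h : H55P.SelZero W' p K) : H55P.SelZero W p K := by
  intro c hc hp hV
  have h1 : H55P.Coc W' K (fun s => φ (c s)) := by
    refine ⟨?_, ?_⟩
    · intro s hs t ht
      show φ (c (s * t)) = φ (c s) + ac W' s (φ (c t))
      rw [hc.mul s hs t ht, map_add, hφ]
    · obtain ⟨L, hL, hL2⟩ := hc.cont
      refine ⟨L, hL, fun s hs hs2 => ?_⟩
      show φ (c s) = 0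
      rw [hL2 s hs hs2, map_zero]
  obtain ⟨T, hT1, hT2⟩ := h (fun s => φ (c s)) h1 (fun s hs => by
      show p • φ (c s) = 0
      rw [← map_nsmul, hp s hs, map_zero]) (fun V => by
      obtain ⟨P, hP⟩ := hV V
      refine ⟨φ P, fun s hs hI => ?_⟩
      show φ (c s) = ac W' s (φ P) - φ P
      rw [hP s hs hI, map_sub, hφ])
  refine ⟨φ.symm T, ?_, fun s hs => ?_⟩
  · apply φ.injective
    rw [map_nsmul, φ.apply_symm_apply, hT1, map_zero]
  · apply φ.injective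
    rw [map_sub, hφ, φ.apply_symm_apply]
    exact hT2 s hs

theorem y6_delta {k : Type} [Field k] {W : WeierstrassCurve k} {A B s t β : k}
    (D : H55P.PS4_D W (WAB A B) β s t) : (WAB A B).Δ = W.Δ := by
  have h1 := D.h1
  have h3 := D.h3
  have h2 : W.a₂ = 3 * β - s ^ 2 := by linear_combination -D.h2
  have h4' : A = W.a₄ + 2 * s * t - 3 * β ^ 2 := D.h4
  have h6' : B = W.a₆ + t ^ 2 - β ^ 3 - A * β := D.h6
  have h4 : W.a₄ = A - 2 * s * t + 3 * β ^ 2 := by rw [h4']; ring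
  have h6 : W.a₆ = B - t ^ 2 + β ^ 3 + A * β := by linear_combination -h6'
  simp only [WeierstrassCurve.Δ, WeierstrassCurve.b₂, WeierstrassCurve.b₄, WeierstrassCurve.b₆,
    WeierstrassCurve.b₈]
  rw [← h1, ← h3, h2, h4, h6]
  simp only [WAB]
  ring

/-- Chunk Y6 (S/M). PS4_D (W₀⁄F) (WAB A B) β s t (H55P/S4.lean) with s = a₁/2, t = a₃/2, β = (a₂ + s^2)/3; PS4_map, PS4_iso over Ω: the isomorphism φ adds elements of F to the coordinates, so φ (ac s P) = ac s (φ P). A cocycle c of W₀ gives φ ∘ c; all the conditions of SelZero are transported. (Both curves are elliptic: hΔ.) -/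
theorem sel_short {F : Type} [Field F] [NumberField F] (W₀ : WeierstrassCurve (𝓞 F)) {A B : F}
    (hA : A = -(algebraMap (𝓞 F) F W₀.c₄) / 48) (hB : B = -(algebraMap (𝓞 F) F W₀.c₆) / 864)
    (hΔ : W₀.Δ ≠ 0) {Ω : Type} [Field Ω] [DecidableEq Ω] [Algebra F Ω] (p : ℕ) (K : IntermediateField F Ω)
    (h : H55P.SelZero (WAB A B) p K) : H55P.SelZero (W₀⁄F) p K := by
  obtain ⟨W, hW⟩ : ∃ W : WeierstrassCurve F, W = (W₀⁄F) := ⟨_, rfl⟩
  have hc4 : W.c₄ = algebraMap (𝓞 F) F W₀.c₄ := by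
    rw [hW]
    exact W₀.map_c₄ (algebraMap (𝓞 F) F)
  have hc6 : W.c₆ = algebraMap (𝓞 F) F W₀.c₆ := by
    rw [hW]
    exact W₀.map_c₆ (algebraMap (𝓞 F) F)
  have hWΔ : W.Δ ≠ 0 := by
    rw [hW]
    intro h0
    apply hΔ
    have h1 : (W₀⁄F).Δ = algebraMap (𝓞 F) F W₀.Δ := W₀.map_Δ (algebraMap (𝓞 F) F)
    rw [h1] at h0
    exact (map_eq_zero_iff _ (IsFractionRing.injective (𝓞 F) F)).1 h0
  rw [← hc4] at hA
  rw [← hc6] at hB
  have D : H55P.PS4_D W (WAB A B) ((W.a₂ + (W.a₁ / 2) ^ 2) / 3) (W.a₁ / 2) (W.a₃ / 2) := by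
    refine ⟨rfl, rfl, rfl, ?_, ?_, ?_, ?_, ?_⟩
    · field_simp
    · field_simp
    · field_simp
    · show A = _
      rw [hA, WeierstrassCurve.c₄, WeierstrassCurve.b₂, WeierstrassCurve.b₄]
      ring
    · show B = _ - A * _
      rw [hB, hA, WeierstrassCurve.c₄, WeierstrassCurve.c₆, WeierstrassCurve.b₂, WeierstrassCurve.b₄, WeierstrassCurve.b₆]
      ring
  have hd := y6_delta D
  have i1 : W.IsElliptic := ⟨isUnit_iff_ne_zero.2 hWΔ⟩
  have i2 : (WAB A B).IsElliptic := ⟨isUnit_iff_ne_zero.2 (by rw [hd]; exact hWΔ)⟩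
  have i3 : (W⁄Ω).IsElliptic := inferInstanceAs (W.map (algebraMap F Ω)).IsElliptic
  have i4 : ((WAB A B)⁄Ω).IsElliptic := inferInstanceAs ((WAB A B).map (algebraMap F Ω)).IsElliptic
  rw [← hW]
  refine y6_transport p K (H55P.PS4_iso (H55P.PS4_map (Ω := Ω) D)) ?_ h
  intro f P
  rcases P with _ | ⟨x, y, h'⟩
  · rfl
  · have e1 : f (algebraMap F Ω ((W.a₂ + (W.a₁ / 2) ^ 2) / 3)) = algebraMap F Ω ((W.a₂ + (W.a₁ / 2) ^ 2) / 3) :=
      f.commutes _
    have e2 : f (algebraMap F Ω (W.a₁ / 2)) = algebraMap F Ω (W.a₁ / 2) := f.commutes _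
    have e3 : f (algebraMap F Ω (W.a₃ / 2)) = algebraMap F Ω (W.a₃ / 2) := f.commutes _
    change Affine.Point.some _ _ _ = Affine.Point.some _ _ _
    rw [Affine.Point.some.injEq]
    constructor
    · change f x + algebraMap F Ω ((W.a₂ + (W.a₁ / 2) ^ 2) / 3) = f (x + algebraMap F Ω ((W.a₂ + (W.a₁ / 2) ^ 2) / 3))
      rw [map_add, e1]
    · change f y + algebraMap F Ω (W.a₁ / 2) * f x + algebraMap F Ω (W.a₃ / 2) =
        f (y + algebraMap F Ω (W.a₁ / 2) * x + algebraMap F Ω (W.a₃ / 2))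
      rw [map_add, map_add, map_mul, e2, e3]

end H55K
end

-- from Lib.H55W.G0
section

/-! # H55W, part G: the Gaussian integers in a field F (definitions and elementary facts) -/

open NumberField IsDedekindDomain

namespace H55W

open H55P (IQ embF eF Nm)
open H55K (cj)

/-- I is a square root of -1 in the integers of F and every integer of F is a + b I. -/
structure GI {F : Type} [Field F] [NumberField F] (I : 𝓞 F) : Prop where
  sq : I ^ 2 = -1
  rep : ∀ x : 𝓞 F, ∃ a b : ℤ, x = (a : 𝓞 F) + (b : 𝓞 F) * I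

/-- x is primary: congruent to 1 modulo 2 + 2 I. -/
def Pry {F : Type} [Field F] [NumberField F] (I x : 𝓞 F) : Prop := 2 + 2 * I ∣ x - 1

variable {F : Type} [Field F] [NumberField F] [IQ F] {I : 𝓞 F}

theorem g0_neg_ne : (-1 : 𝓞 F) ≠ 1 := by
  intro h
  have h1 : (2 : 𝓞 F) = 0 := by linear_combination (-1 : 𝓞 F) * h
  exact two_ne_zero h1

theorem g0_dvd_nm {x y : 𝓞 F} (h : x ∣ y) : Nm x ∣ Nm y := by
  obtain ⟨z, rfl⟩ := h
  exact ⟨Nm z, H55K.Nm_mul x z⟩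

theorem g0_isUnit {z : 𝓞 F} (h : Nm z = 1) : IsUnit z := by
  have h1 : Ideal.span {z} = ⊤ := Ideal.absNorm_eq_one_iff.1 h
  exact Ideal.span_singleton_eq_top.1 h1

theorem g0_nm_unit {z : 𝓞 F} (h : IsUnit z) : Nm z = 1 := by
  have h1 : Ideal.span {z} = ⊤ := Ideal.span_singleton_eq_top.2 h
  unfold Nm
  rw [h1]
  exact Ideal.absNorm_eq_one_iff.2 rfl

/-- Chunk G0 (S). (cj I)^2 = -1, so (cj I - I)(cj I + I) = 0; if cj I = I then eF I is real (e_cj, Complex.conj_eq_iff_im) with square -1: contradiction. -/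
theorem gi_cj (h : GI I) : cj I = -I := by
  have h1 : (cj I) ^ 2 = I ^ 2 := by rw [← map_pow, h.sq, map_neg, map_one]
  rcases sq_eq_sq_iff_eq_or_eq_neg.1 h1 with h2 | h2
  · exfalso
    have h3 := H55K.e_cj I
    rw [h2] at h3
    have h4 : (eF F I).im = 0 := Complex.conj_eq_iff_im.1 h3.symm
    have h5 : (eF F I) ^ 2 = -1 := by rw [← map_pow, h.sq, map_neg, map_one]
    have h6 := congrArg Complex.re h5
    rw [pow_two, Complex.mul_re, h4, mul_zero, sub_zero, Complex.neg_re, Complex.one_re] at h6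
    nlinarith [mul_self_nonneg (eF F I).re]
  · exact h2

/-- Chunk G0 (S). mul_cj, cj_int, gi_cj: (a + b I)(a - b I) = a^2 + b^2 (Nat.cast injectivity of 𝓞 F, characteristic 0). -/
theorem gi_nm (h : GI I) (a b : ℤ) : ((Nm ((a : 𝓞 F) + (b : 𝓞 F) * I) : ℕ) : ℤ) = a ^ 2 + b ^ 2 := by
  have h1 := H55K.mul_cj ((a : 𝓞 F) + (b : 𝓞 F) * I)
  rw [map_add, map_mul, H55K.cj_int, H55K.cj_int, gi_cj h] at h1
  apply Int.cast_injective (α := 𝓞 F)
  rw [Int.cast_natCast, ← h1]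
  push_cast
  linear_combination (-(b : 𝓞 F) ^ 2) * h.sq

theorem g0_pow4 (h : GI I) : I ^ 4 = 1 := by
  have h1 : I ^ 4 = (I ^ 2) ^ 2 := by ring
  rw [h1, h.sq]
  ring

theorem g0_mod (h : GI I) (i : ℕ) : I ^ i = I ^ (i % 4) := by
  conv_lhs => rw [← Nat.div_add_mod i 4]
  rw [pow_add, pow_mul, g0_pow4 h, one_pow, one_mul]

theorem g0_cube (h : GI I) : I ^ 3 = -I := by
  have h1 : I ^ 3 = I ^ 2 * I := by ring
  rw [h1, h.sq]
  ring

/-- Chunk G0 (S). I^2 = -1 ≠ 1. -/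
theorem gi_root (h : GI I) : IsPrimitiveRoot I 4 := by
  refine ⟨g0_pow4 h, fun l hl => ?_⟩
  rw [g0_mod h] at hl
  have h4 : l % 4 < 4 := Nat.mod_lt _ (by norm_num)
  have h2 := h.sq
  interval_cases h5 : l % 4
  · omega
  · exfalso
    rw [pow_one] at hl
    rw [hl, one_pow] at h2
    exact g0_neg_ne h2.symm
  · exfalso
    rw [hl] at h2
    exact g0_neg_ne h2.symm
  · exfalso
    rw [g0_cube h] at hl
    have h6 : I = -1 := by rw [← hl]; ring
    rw [h6] at h2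
    apply g0_neg_ne (F := F)
    rw [← h2]
    ring

/-- Chunk G0 (S). Nm u = 1 (Ideal.absNorm of the top ideal), a^2 + b^2 = 1. -/
theorem gi_unit (h : GI I) {u : 𝓞 F} (hu : IsUnit u) : ∃ i : ℕ, u = I ^ i := by
  obtain ⟨a, b, rfl⟩ := h.rep u
  have h1 := gi_nm h a b
  rw [g0_nm_unit hu, Nat.cast_one] at h1
  have ha : a ^ 2 ≤ 1 := by nlinarith [sq_nonneg b]
  have hb : b ^ 2 ≤ 1 := by nlinarith [sq_nonneg a]
  have ha1 : -1 ≤ a ∧ a ≤ 1 := ⟨by nlinarith, by nlinarith⟩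
  have hb1 : -1 ≤ b ∧ b ≤ 1 := ⟨by nlinarith, by nlinarith⟩
  obtain ⟨ha1, ha2⟩ := ha1
  obtain ⟨hb1, hb2⟩ := hb1
  interval_cases a <;> interval_cases b <;> first | (exfalso; norm_num at h1; done) | skip
  · exact ⟨2, by rw [h.sq]; push_cast; ring⟩
  · exact ⟨3, by rw [g0_cube h]; push_cast; ring⟩
  · exact ⟨1, by push_cast; ring⟩
  · exact ⟨0, by push_cast; ring⟩

theorem g0_pry (h : GI I) {a b : ℤ} (hab : (a + b) % 4 = 1) (hb : b % 2 = 0) :
    Pry I ((a : 𝓞 F) + (b : 𝓞 F) * I) := by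
  obtain ⟨c, hc⟩ : ∃ c : ℤ, a - 1 + b = 4 * c := ⟨(a - 1 + b) / 4, by omega⟩
  obtain ⟨d, hd⟩ : ∃ d : ℤ, b - a + 1 = 4 * d := ⟨(b - a + 1) / 4, by omega⟩
  have ha : a = 2 * (c - d) + 1 := by omega
  have hb : b = 2 * (c + d) := by omega
  refine ⟨(c : 𝓞 F) + (d : 𝓞 F) * I, ?_⟩
  rw [ha, hb]
  push_cast
  linear_combination (-2 * (d : 𝓞 F)) * h.sq

/-- Chunk G0 (S/M). x = a + b I. 1 + I does not divide x, so a + b is odd ((1 + I) c with c = (a+b)/2 + ((b-a)/2) I). If a is odd, b even: multiply by I^0 or I^2; if a even, b odd: multiply by I or I^3; a + b I with a odd, b even is ≡ 1 modulo 2 + 2I iff a + b ≡ 1 mod 4: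
((a - 1) + b I) = (2 + 2I)(c + d I) with c = (a - 1 + b)/4, d = (b - a + 1)/4. -/
theorem gi_exists (h : GI I) {x : 𝓞 F} (hx : ¬ (1 + I) ∣ x) : ∃ i : ℕ, Pry I (I ^ i * x) := by
  obtain ⟨a, b, rfl⟩ := h.rep x
  have hodd : (a + b) % 2 = 1 := by
    by_contra hcon
    apply hx
    obtain ⟨c, hc⟩ : ∃ c : ℤ, a + b = 2 * c := ⟨(a + b) / 2, by omega⟩
    have hb : b = 2 * c - a := by omega
    refine ⟨(c : 𝓞 F) + ((c - a : ℤ) : 𝓞 F) * I, ?_⟩
    rw [hb]
    push_cast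
    linear_combination (-((c : 𝓞 F) - a)) * h.sq
  have e2 : ∀ y : 𝓞 F, I ^ 2 * y = -y := fun y => by rw [h.sq]; ring
  by_cases hb : b % 2 = 0
  · by_cases h1 : (a + b) % 4 = 1
    · exact ⟨0, by rw [pow_zero, one_mul]; exact g0_pry h h1 hb⟩
    · refine ⟨2, ?_⟩
      have h2 := g0_pry (I := I) h (a := -a) (b := -b) (by omega) (by omega)
      have h3 : I ^ 2 * ((a : 𝓞 F) + (b : 𝓞 F) * I) = ((-a : ℤ) : 𝓞 F) + ((-b : ℤ) : 𝓞 F) * I := by
        rw [e2]
        push_cast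
        ring
      rwa [h3]
  · by_cases h1 : (a - b) % 4 = 1
    · refine ⟨1, ?_⟩
      have h2 := g0_pry (I := I) h (a := -b) (b := a) (by omega) (by omega)
      have h3 : I ^ 1 * ((a : 𝓞 F) + (b : 𝓞 F) * I) = ((-b : ℤ) : 𝓞 F) + (a : 𝓞 F) * I := by
        push_cast
        linear_combination (b : 𝓞 F) * h.sq
      rwa [h3]
    · refine ⟨3, ?_⟩
      have h2 := g0_pry (I := I) h (a := b) (b := -a) (by omega) (by omega)
      have h3 : I ^ 3 * ((a : 𝓞 F) + (b : 𝓞 F) * I) = (b : 𝓞 F) + ((-a : ℤ) : 𝓞 F) * I := by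
        rw [g0_cube h]
        push_cast
        linear_combination (-(b : 𝓞 F)) * h.sq
      rwa [h3]

theorem g0_nm22 (h : GI I) : Nm (2 + 2 * I) = 8 := by
  have h1 := gi_nm h 2 2
  push_cast at h1
  exact_mod_cast h1

theorem g0_nm11 (h : GI I) : Nm (1 + I) = 2 := by
  have h1 := gi_nm h 1 1
  push_cast at h1
  rw [one_mul] at h1
  exact_mod_cast h1

/-- Chunk G0 (S). i modulo 4: 2 + 2I does not divide I - 1, -2, -I - 1 (norms 8 versus 2, 4, 2: gi_nm, Nm_mul). -/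
theorem gi_uniq (h : GI I) {i : ℕ} (hi : Pry I (I ^ i)) : I ^ i = 1 := by
  rw [g0_mod h] at hi ⊢
  have h4 : i % 4 < 4 := Nat.mod_lt _ (by norm_num)
  have h8 := g0_dvd_nm hi
  rw [g0_nm22 h] at h8
  interval_cases h5 : i % 4
  · exact pow_zero I
  · exfalso
    have h1 := gi_nm h (-1) 1
    have h2 : I ^ 1 - 1 = ((-1 : ℤ) : 𝓞 F) + ((1 : ℤ) : 𝓞 F) * I := by push_cast; ring
    rw [h2] at h8
    have h3 : Nm (((-1 : ℤ) : 𝓞 F) + ((1 : ℤ) : 𝓞 F) * I) = 2 := by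
      apply Nat.cast_injective (R := ℤ)
      rw [h1]
      norm_num
    rw [h3] at h8
    norm_num at h8
  · exfalso
    have h1 := gi_nm h (-2) 0
    have h2 : I ^ 2 - 1 = ((-2 : ℤ) : 𝓞 F) + ((0 : ℤ) : 𝓞 F) * I := by
      rw [h.sq]
      push_cast
      ring
    rw [h2] at h8
    have h3 : Nm (((-2 : ℤ) : 𝓞 F) + ((0 : ℤ) : 𝓞 F) * I) = 4 := by
      apply Nat.cast_injective (R := ℤ)
      rw [h1]
      norm_num
    rw [h3] at h8
    norm_num at h8
  · exfalso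
    have h1 := gi_nm h (-1) (-1)
    have h2 : I ^ 3 - 1 = ((-1 : ℤ) : 𝓞 F) + ((-1 : ℤ) : 𝓞 F) * I := by
      rw [g0_cube h]
      push_cast
      ring
    rw [h2] at h8
    have h3 : Nm (((-1 : ℤ) : 𝓞 F) + ((-1 : ℤ) : 𝓞 F) * I) = 2 := by
      apply Nat.cast_injective (R := ℤ)
      rw [h1]
      norm_num
    rw [h3] at h8
    norm_num at h8


/-- Chunk G0 (S). x - 1 = (2 + 2I) z and (1 + I) divides x: then 1 + I divides 1, norm 2. -/
theorem pry_cop (h : GI I) {x : 𝓞 F} (hx : Pry I x) : ¬ (1 + I) ∣ x ∧ IsCoprime x (2 : 𝓞 F) ∧ PJ 4 I (Ideal.span {x}) := by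
  obtain ⟨z, hz⟩ := hx
  have h1 : ¬ (1 + I) ∣ x := by
    intro hd
    have h2 : (1 + I) ∣ (1 : 𝓞 F) := by
      have h3 : (1 : 𝓞 F) = x - (1 + I) * (2 * z) := by linear_combination (-1 : 𝓞 F) * hz
      have h4 : (1 + I) ∣ x - (1 + I) * (2 * z) := dvd_sub hd (Dvd.intro _ rfl)
      rwa [← h3] at h4
    have h4 := g0_dvd_nm h2
    rw [g0_nm11 h, g0_nm_unit isUnit_one] at h4
    norm_num at h4
  have h2 : IsCoprime x (2 : 𝓞 F) := ⟨1, -((1 + I) * z), by linear_combination hz⟩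
  refine ⟨h1, h2, ?_, ?_, gi_root h, by norm_num⟩
  · rw [Ne, Ideal.span_singleton_eq_bot]
    rintro rfl
    exact h1 (dvd_zero _)
  · rw [Ideal.isCoprime_span_singleton_iff]
    have h3 : ((4 : ℕ) : 𝓞 F) = 2 ^ 2 := by norm_num
    rw [h3]
    exact h2.pow_right

/-- Chunk G0 (S). If (x y) and x are primary then y is: x y - y = (x - 1) y, and y ≡ x y ≡ 1. -/
theorem pry_of_mul {x y : 𝓞 F} (hx : Pry I x) (hxy : Pry I (x * y)) : Pry I y := by
  have h1 : y - 1 = (x * y - 1) - (x - 1) * y := by ring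
  unfold Pry
  rw [h1]
  exact dvd_sub hxy (hx.mul_right y)

/-- Chunk G0 (S). 2 + 2I divides 4 = (2 + 2I)(1 - I). -/
theorem pry_int (h : GI I) {n : ℤ} (hn : n % 4 = 1) : Pry I (n : 𝓞 F) := by
  obtain ⟨k, hk⟩ : ∃ k : ℤ, n = 4 * k + 1 := ⟨n / 4, by omega⟩
  refine ⟨(1 - I) * (k : 𝓞 F), ?_⟩
  rw [hk]
  push_cast
  linear_combination (2 * (k : 𝓞 F)) * h.sq

/-- Chunk G0 (S). π is prime and 1 + I does not divide it, so 2 is not in (π) (2 = -I (1 + I)^2; π would divide 1 + I, which is irreducible (norm 2), so it would be associated with it). -/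
theorem pp_pi (h : GI I) {π : 𝓞 F} (hπ : Prime π) (hn : ¬ (1 + I) ∣ π) : PP 4 I (Ideal.span {π}) := by
  refine ⟨(Ideal.span_singleton_prime hπ.ne_zero).2 hπ, ?_, ?_, gi_root h, by norm_num⟩
  · rw [Ne, Ideal.span_singleton_eq_bot]
    exact hπ.ne_zero
  · rw [Ideal.mem_span_singleton]
    intro hd
    have h4 : ((4 : ℕ) : 𝓞 F) = 2 ^ 2 := by norm_num
    rw [h4] at hd
    have h2 := hπ.dvd_of_dvd_pow hd
    have e2 : (2 : 𝓞 F) = (-I * (1 + I)) * (1 + I) := by linear_combination (I + 2) * h.sq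
    rw [e2] at h2
    have h1 : π ∣ 1 + I := by
      rcases hπ.dvd_or_dvd h2 with h3 | h3
      · rcases hπ.dvd_or_dvd h3 with h5 | h5
        · exfalso
          apply hπ.not_isUnit
          have hu : IsUnit (-I) := IsUnit.of_mul_eq_one I (by linear_combination (-1 : 𝓞 F) * h.sq)
          exact isUnit_of_dvd_unit h5 hu
        · exact h5
      · exact h3
    obtain ⟨z, hz⟩ := h1
    have h5 : 2 = Nm π * Nm z := by rw [← H55K.Nm_mul, ← hz, g0_nm11 h]
    have h6 : Nm π ≠ 1 := fun h7 => hπ.not_isUnit (g0_isUnit h7)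
    have h7 : Nm z = 1 := by
      have h8 : Nm π ∣ 2 := ⟨_, h5⟩
      rcases (Nat.dvd_prime Nat.prime_two).1 h8 with h9 | h9
      · exact absurd h9 h6
      · rw [h9] at h5
        omega
    obtain ⟨u, hu⟩ := g0_isUnit h7
    apply hn
    rw [hz, ← hu]
    exact Units.mul_right_dvd.2 dvd_rfl

end H55W
end

-- from Lib.H55W.G3A
section

/-! # H55W, part G: the Jacobi sum J(χ, χ^2) of a quartic character -/

open NumberField IsDedekindDomain

namespace H55W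

open H55P (IQ embF eF Nm)
open H55K (cj)

variable {F : Type} [Field F] [NumberField F] [IQ F] {I : 𝓞 F}

/-- The quartic character of k = 𝓞 F ⧸ P, the norm of P being a prime number p. -/
structure QC (I : 𝓞 F) (P : Ideal (𝓞 F)) (p : ℕ) (k : Type) [Field k] [Fintype k] (φ : 𝓞 F →+* k) (χ : MulChar k (𝓞 F)) : Prop where
  gi : GI I
  pp : PP 4 I P
  prime : p.Prime
  norm : Ideal.absNorm P = p
  surj : Function.Surjective φ
  ker : RingHom.ker φ = P
  card : Fintype.card k = p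
  order : orderOf χ = 4
  chi : ∀ x : 𝓞 F, χ (φ x) = ps 4 I P x

variable {P : Ideal (𝓞 F)} {p : ℕ} {k : Type} [Field k] [Fintype k] {φ : 𝓞 F →+* k} {χ : MulChar k (𝓞 F)}

/-- Chunk G3A (S). p - 1 is divisible by 4 (ps_dvd, h.norm). -/
theorem qc_p (h : QC I P p k φ χ) : p % 4 = 1 := by
  obtain ⟨h1, _, h3⟩ := ps_dvd h.pp
  rw [h.norm] at h1 h3
  omega

theorem g3a_pos (h : QC I P p k φ χ) : 0 < (p - 1) / 4 ∧ p - 1 = 4 * ((p - 1) / 4) := by
  have h1 := qc_p h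
  have h2 := h.prime.two_le
  omega

theorem g3a_phi (h : QC I P p k φ χ) (y : k) : φ (χ y) = y ^ ((p - 1) / 4) := by
  obtain ⟨x, rfl⟩ := h.surj y
  rw [h.chi]
  by_cases hx : x ∈ P
  · rw [ps_zero h.pp hx, map_zero]
    have h1 : φ x = 0 := by
      rw [← RingHom.mem_ker, h.ker]
      exact hx
    rw [h1, zero_pow (g3a_pos h).1.ne']
  · have h1 := (ps_spec h.pp hx).2
    have h2 : x ^ ((Ideal.absNorm P - 1) / 4) - ps 4 I P x ∈ RingHom.ker φ := by
      rw [h.ker]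
      exact h1
    rw [RingHom.mem_ker, map_sub, map_pow, sub_eq_zero, h.norm] at h2
    exact h2.symm

theorem g3a_pow (h : QC I P p k φ χ) {y : k} (hy : y ≠ 0) : ∃ i : ℕ, χ y = I ^ i := by
  obtain ⟨x, rfl⟩ := h.surj y
  rw [h.chi]
  have hx : x ∉ P := by
    intro h1
    apply hy
    rw [← RingHom.mem_ker, h.ker]
    exact h1
  exact (ps_spec h.pp hx).1

theorem g3a_ne (h : QC I P p k φ χ) {j : ℕ} (h0 : 0 < j) (h4 : j < 4) : χ ^ j ≠ 1 := by
  intro h1
  have h2 := orderOf_dvd_of_pow_eq_one h1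
  rw [h.order] at h2
  have h3 := Nat.le_of_dvd h0 h2
  omega

open Polynomial in
theorem g3a_sum (k : Type) [Field k] [Fintype k] {m : ℕ} (hm : Fintype.card k - 1 = 4 * m)
    (hm0 : 0 < m) : ∑ x : k, x ^ m * (1 - x) ^ (2 * m) = 0 := by
  set Q : k[X] := X ^ m * (1 - X) ^ (2 * m) with hQ
  have hdeg : Q.natDegree ≤ 3 * m := by
    have h1 : (1 - X : k[X]).natDegree ≤ 1 :=
      (natDegree_sub_le _ _).trans (by simp)
    refine (natDegree_mul_le).trans ?_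
    have h2 := natDegree_pow_le_of_le (2 * m) h1
    have h3 : (X ^ m : k[X]).natDegree ≤ m := by simp
    omega
  have h1 : ∀ x : k, x ^ m * (1 - x) ^ (2 * m) = ∑ i ∈ Finset.range (3 * m + 1), Q.coeff i * x ^ i := by
    intro x
    rw [← Polynomial.eval_eq_sum_range' (by omega) x, hQ]
    simp
  simp only [h1]
  rw [Finset.sum_comm]
  refine Finset.sum_eq_zero fun i hi => ?_
  rw [← Finset.mul_sum, FiniteField.sum_pow_lt_card_sub_one k i (by have := Finset.mem_range.mp hi; omega), mul_zero]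

/-- Chunk G3A (M). φ (J) = sum over y of φ (χ y) φ (χ^2 (1 - y)) = sum of y^m (1 - y)^(2m), m = (p - 1)/4: for y = φ x, φ (χ y) = φ (ps x) = y^m (ps_spec if x is not in P; both 0 otherwise, m > 0). The polynomial X^m (1 - X)^(2m) has degree 3m < p - 1 = card k - 1: the sum over k of its values is 0
(FiniteField.sum_pow_lt_card_sub_one; compare E2_sum_poly in H55B/E2.lean, a port). jacobiSum (unfold), Fintype sums, MulChar.pow_apply'. -/
theorem qc_mem (h : QC I P p k φ χ) : jacobiSum χ (χ ^ 2) ∈ P := by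
  rw [← h.ker, RingHom.mem_ker]
  unfold jacobiSum
  rw [map_sum]
  obtain ⟨hm0, hm⟩ := g3a_pos h
  rw [← g3a_sum k (by rw [h.card]; exact hm) hm0]
  refine Finset.sum_congr rfl fun y _ => ?_
  rw [map_mul, g3a_phi h, MulChar.pow_apply' χ two_ne_zero, map_pow, g3a_phi h, ← pow_mul, mul_comm 2]

/-- Chunk G3A (M). The sum S over all y in k of (χ^2 y - 1)(χ (1 - y) - 1) is J - sum χ^2 - sum χ(1 - y) + p = J + p (MulChar.sum_eq_zero_of_ne_one: χ, χ^2 ≠ 1 by order; change of variable y to 1 - y: Equiv.subLeft; J = jacobiSum χ (χ^2) = sum χ y χ^2 (1 - y) = sum χ^2 y χ (1 - y), jacobiSum_comm). Each term is divisible by 2 + 2I = 2 (1 + I): y = 0: χ 1 - 1 = 0; y = 1: χ^2 1 - 1 = 0;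
otherwise χ^2 y = 1 or -1, and χ (1 - y) is a power of I (ps_spec; χ z is a power of I for z ≠ 0), I^i - 1 is divisible by I - 1 = I (1 + I). p - 1 is divisible by 4 = (2 + 2I)(1 - I). So 2 + 2I divides J + p and p - 1... J + 1 = (J + p) - (p - 1). -/
theorem qc_cong (h : QC I P p k φ χ) : 2 + 2 * I ∣ jacobiSum χ (χ ^ 2) + 1 := by
  have hsq := h.gi.sq
  have hterm : ∀ y : k, 2 + 2 * I ∣ ((χ ^ 2) y - 1) * (χ (1 - y) - 1) := by
    intro y
    by_cases h0 : y = 0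
    · rw [h0, sub_zero, map_one, sub_self, mul_zero]
      exact dvd_zero _
    by_cases h1 : y = 1
    · rw [h1, map_one, sub_self, zero_mul]
      exact dvd_zero _
    obtain ⟨i, hi⟩ := g3a_pow h h0
    obtain ⟨j, hj⟩ := g3a_pow h (sub_ne_zero.2 (Ne.symm h1))
    have e : (2 : 𝓞 F) + 2 * I = 2 * (1 + I) := by ring
    rw [MulChar.pow_apply' χ two_ne_zero, hi, hj, e]
    refine mul_dvd_mul ?_ ?_
    · rw [← pow_mul, mul_comm, pow_mul, hsq]
      rcases neg_one_pow_eq_or (𝓞 F) i with h2 | h2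
      · rw [h2, sub_self]
        exact dvd_zero _
      · rw [h2]
        exact ⟨-1, by ring⟩
    · have h2 : 1 + I ∣ I - 1 := ⟨I, by linear_combination -hsq⟩
      refine h2.trans ?_
      have h3 := sub_dvd_pow_sub_pow I 1 j
      rwa [one_pow] at h3
  have hsum : ∑ y : k, ((χ ^ 2) y - 1) * (χ (1 - y) - 1) = jacobiSum χ (χ ^ 2) + (p : 𝓞 F) := by
    have e1 : ∀ y : k, ((χ ^ 2) y - 1) * (χ (1 - y) - 1) = (χ ^ 2) y * χ (1 - y) - (χ ^ 2) y - χ (1 - y) + 1 := by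
      intro y
      ring
    simp only [e1]
    rw [Finset.sum_add_distrib, Finset.sum_sub_distrib, Finset.sum_sub_distrib]
    have e2 : ∑ y : k, (χ ^ 2) y * χ (1 - y) = jacobiSum χ (χ ^ 2) := by
      rw [jacobiSum_comm]
      rfl
    have e3 : ∑ y : k, (χ ^ 2) y = 0 := MulChar.sum_eq_zero_of_ne_one (g3a_ne h (by norm_num) (by norm_num))
    have e4 : ∑ y : k, χ (1 - y) = 0 := by
      have h5 : χ ≠ 1 := by
        have h6 := g3a_ne h (j := 1) (by norm_num) (by norm_num)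
        rwa [pow_one] at h6
      rw [← MulChar.sum_eq_zero_of_ne_one h5]
      exact Equiv.sum_comp (Equiv.subLeft (1 : k)) fun y => χ y
    rw [e2, e3, e4, Finset.sum_const, Finset.card_univ, h.card, nsmul_eq_mul, mul_one]
    ring
  have h1 : 2 + 2 * I ∣ jacobiSum χ (χ ^ 2) + (p : 𝓞 F) := by
    rw [← hsum]
    exact Finset.dvd_sum fun y _ => hterm y
  have h2 : 2 + 2 * I ∣ (p : 𝓞 F) - 1 := by
    obtain ⟨_, hm⟩ := g3a_pos h
    have hp := h.prime.two_le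
    have h3 : (p : 𝓞 F) = 4 * (((p - 1) / 4 : ℕ) : 𝓞 F) + 1 := by
      have h4 : p = 4 * ((p - 1) / 4) + 1 := by omega
      have h5 := congrArg (fun n : ℕ => (n : 𝓞 F)) h4
      push_cast at h5
      exact h5
    refine ⟨(1 - I) * (((p - 1) / 4 : ℕ) : 𝓞 F), ?_⟩
    rw [h3]
    linear_combination (2 * (((p - 1) / 4 : ℕ) : 𝓞 F)) * hsq
  have h3 := dvd_sub h1 h2
  have e : jacobiSum χ (χ ^ 2) + (p : 𝓞 F) - ((p : 𝓞 F) - 1) = jacobiSum χ (χ ^ 2) + 1 := by ring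
  rwa [e] at h3

end H55W
end

-- from Lib.H55W.G3B
section

/-! # H55W, part G: the Jacobi sum J(χ, χ^2) of a quartic character -/

open NumberField IsDedekindDomain

namespace H55W

open H55P (IQ embF eF Nm)
open H55K (cj)

variable {F : Type} [Field F] [NumberField F] [IQ F] {I : 𝓞 F} {P : Ideal (𝓞 F)} {p : ℕ} {k : Type} [Field k] [Fintype k] {φ : 𝓞 F →+* k} {χ : MulChar k (𝓞 F)}

theorem g3b_cj (h : QC I P p k φ χ) (y : k) : cj (χ y) = (χ⁻¹) y := by
  have h4 : χ ^ 4 = 1 := by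
    rw [← h.order]
    exact pow_orderOf_eq_one χ
  have hinv : χ⁻¹ = χ ^ 3 := by
    rw [inv_eq_iff_mul_eq_one, ← pow_succ', h4]
  rw [hinv, MulChar.pow_apply' χ (by norm_num)]
  by_cases hy : y = 0
  · have h1 : χ y = 0 := by
      rw [hy]
      exact χ.map_zero
    rw [h1, map_zero]
    norm_num
  · obtain ⟨i, hi⟩ := g3a_pow h hy
    have hsq := h.gi.sq
    rw [hi, map_pow, gi_cj h.gi, ← pow_mul, mul_comm i 3, pow_mul]
    congr 1
    linear_combination (-I) * hsq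

/-- Chunk G3B (M). Port of H55B.E2_abs (H55B/E2.lean): jacobiSum_mul_jacobiSum_inv in the field F (characteristic 0) for χ, χ^2 (χ, χ^2, χ^3 ≠ 1), jacobiSum_ringHomComp for algebraMap (𝓞 F) F (injective); J(χ⁻¹, (χ^2)⁻¹) = cj J because cj (χ y) = χ⁻¹ y (the values are powers of I: cj (I^i) = (-I)^i = I^(3i), gi_cj). -/
theorem qc_abs (h : QC I P p k φ χ) : jacobiSum χ (χ ^ 2) * cj (jacobiSum χ (χ ^ 2)) = (p : 𝓞 F) := by
  classical
  have hcjJ : cj (jacobiSum χ (χ ^ 2)) = jacobiSum χ⁻¹ (χ ^ 2)⁻¹ := by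
    unfold jacobiSum
    rw [map_sum]
    refine Finset.sum_congr rfl fun y _ => ?_
    rw [map_mul, g3b_cj h, MulChar.pow_apply' χ two_ne_zero, map_pow, g3b_cj h, ← inv_pow,
      MulChar.pow_apply' χ⁻¹ two_ne_zero]
  rw [hcjJ]
  have hinj : Function.Injective (algebraMap (𝓞 F) F) := FaithfulSMul.algebraMap_injective (𝓞 F) F
  set ψ : MulChar k F := χ.ringHomComp (algebraMap (𝓞 F) F) with hψ
  have hpow : ∀ j : ℕ, ψ ^ j = (χ ^ j).ringHomComp (algebraMap (𝓞 F) F) := by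
    intro j
    rw [hψ, MulChar.ringHomComp_pow]
  have hne : ∀ j : ℕ, 0 < j → j < 4 → ψ ^ j ≠ 1 := by
    intro j h0 h4
    rw [hpow]
    exact (MulChar.ringHomComp_ne_one_iff hinj).mpr (g3a_ne h h0 h4)
  have hψ1 : ψ ≠ 1 := by
    have h1 := hne 1 (by norm_num) (by norm_num)
    rwa [pow_one] at h1
  have hψ2 : ψ ^ 2 ≠ 1 := hne 2 (by norm_num) (by norm_num)
  have hψ3 : ψ * ψ ^ 2 ≠ 1 := by
    rw [← pow_succ']
    exact hne 3 (by norm_num) (by norm_num)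
  have hchar : ringChar F ≠ ringChar k := by
    rw [ringChar.eq F 0]
    exact (CharP.char_ne_zero_of_finite k (ringChar k)).symm
  have h1 := jacobiSum_mul_jacobiSum_inv hchar hψ1 hψ2 hψ3
  have hψinv : ψ⁻¹ = (χ⁻¹).ringHomComp (algebraMap (𝓞 F) F) := by
    rw [hψ, MulChar.ringHomComp_inv]
  have hψ2inv : (ψ ^ 2)⁻¹ = ((χ ^ 2)⁻¹).ringHomComp (algebraMap (𝓞 F) F) := by
    rw [hpow, MulChar.ringHomComp_inv]
  rw [hψ2inv, hψinv, hpow, hψ, jacobiSum_ringHomComp, jacobiSum_ringHomComp, ← map_mul, h.card] at h1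
  apply hinj
  rw [h1, map_natCast]

/-- Chunk G3B (S/M). π divides J (qc_mem): J = π z. Nm J = p (mul_cj, qc_abs) and Nm π = p (absNorm of P), so Nm z = 1, z is a unit (Ideal.absNorm_eq_one_iff), -z = I^i (gi_unit; -1 = I^2). -J is primary (qc_cong), π is, so -z is (pry_of_mul), so -z = 1 (gi_uniq). -/
theorem qc_jac (h : QC I P p k φ χ) {π : 𝓞 F} (hπ : P = Ideal.span {π}) (hp : Pry I π) : jacobiSum χ (χ ^ 2) = -π := by
  have h1 := qc_mem h
  rw [hπ, Ideal.mem_span_singleton] at h1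
  obtain ⟨z, hz⟩ := h1
  have hNJ : Nm (jacobiSum χ (χ ^ 2)) = p := by
    have h2 := H55K.mul_cj (jacobiSum χ (χ ^ 2))
    rw [qc_abs h] at h2
    exact_mod_cast h2.symm
  have hNπ : Nm π = p := by
    show Ideal.absNorm (Ideal.span {π}) = p
    rw [← hπ, h.norm]
  have hNz : Nm z = 1 := by
    rw [hz, H55K.Nm_mul, hNπ] at hNJ
    exact Nat.eq_of_mul_eq_mul_left h.prime.pos (by rw [hNJ, mul_one])
  have hu : IsUnit z := by
    rw [← Ideal.span_singleton_eq_top, ← Ideal.absNorm_eq_one_iff]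
    exact hNz
  obtain ⟨i, hi⟩ := gi_unit h.gi hu.neg
  have h2 : Pry I (π * -z) := by
    obtain ⟨w, hw⟩ := qc_cong h
    refine ⟨-w, ?_⟩
    rw [hz] at hw
    linear_combination -hw
  have h3 : Pry I (-z) := pry_of_mul hp h2
  have h4 : -z = 1 := by
    rw [hi]
    exact gi_uniq h.gi (by rw [← hi]; exact h3)
  have h5 : z = -1 := by
    rw [← h4, neg_neg]
  rw [hz, h5, mul_neg, mul_one]

end H55W
end

-- from Lib.H55W.HB
section

/-! # H55W: construction of Hecke characters -/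

open NumberField IsDedekindDomain

namespace H55W

open H55P (IQ IsHecke)

variable {F : Type} [Field F] [NumberField F] [IQ F]

theorem hb_one {M : Ideal (𝓞 F)} : IsCoprime (Ideal.span {(1 : 𝓞 F)}) M := by
  rw [Ideal.span_singleton_one, ← Ideal.one_eq_top]
  exact isCoprime_one_left

theorem hb_mul {M : Ideal (𝓞 F)} {x y : 𝓞 F} (hx : IsCoprime (Ideal.span {x}) M) (hy : IsCoprime (Ideal.span {y}) M) :
    IsCoprime (Ideal.span {x * y}) M := by
  rw [← Ideal.span_singleton_mul_span_singleton]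
  exact hx.mul_left hy

/-- The Hecke character given by a function on the elements. -/
theorem exists_hecke (M : Ideal (𝓞 F)) (h0 : M ≠ ⊥) (h1 : M ≠ ⊤) (f : 𝓞 F → 𝓞 F)
    (hu : ∀ x, IsCoprime (Ideal.span {x}) M → IsUnit (f x))
    (hm : ∀ x y, IsCoprime (Ideal.span {x}) M → IsCoprime (Ideal.span {y}) M → f (x * y) = f x * f y)
    (hi : ∀ u x : 𝓞 F, IsUnit u → IsCoprime (Ideal.span {x}) M → f (u * x) * u = f x)
    (hp : ∀ x y, IsCoprime (Ideal.span {x}) M → IsCoprime (Ideal.span {y}) M → x - y ∈ M → f x = f y) :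
    ∃ ψ : Ideal (𝓞 F) →*₀ 𝓞 F, IsHecke M ψ ∧ ∀ x, IsCoprime (Ideal.span {x}) M → ψ (Ideal.span {x}) = f x * x := by
  classical
  set g : Ideal (𝓞 F) → 𝓞 F := fun J => Submodule.IsPrincipal.generator J with hg
  have hgs : ∀ J : Ideal (𝓞 F), Ideal.span {g J} = J := fun J => Ideal.span_singleton_generator J
  have hw : ∀ x y : 𝓞 F, Ideal.span {x} = Ideal.span {y} → IsCoprime (Ideal.span {x}) M → f x * x = f y * y := by
    intro x y hxy hx
    obtain ⟨u, hu'⟩ := Ideal.span_singleton_eq_span_singleton.1 hxy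
    have h2 := hi u x u.isUnit hx
    rw [← hu', mul_comm x, ← mul_assoc, h2]
  set G : Ideal (𝓞 F) → 𝓞 F := fun J => if IsCoprime J M then f (g J) * g J else 0 with hG
  have hGx : ∀ x, IsCoprime (Ideal.span {x}) M → G (Ideal.span {x}) = f x * x := by
    intro x hx
    simp only [hG]
    rw [if_pos hx]
    exact hw _ _ (hgs _) (by rw [hgs]; exact hx)
  have hf1 : f 1 = 1 := by
    have h2 := hm 1 1 hb_one hb_one
    rw [mul_one] at h2
    obtain ⟨w, hw1⟩ := hu 1 hb_one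
    rw [← hw1] at h2 ⊢
    have h3 : w = w * w := by exact_mod_cast h2
    have h4 : w = 1 := by
      have := mul_left_cancel (a := w) (b := 1) (c := w) (by rw [mul_one]; exact h3)
      exact this.symm
    rw [h4]
    rfl
  have hbot : ¬ IsCoprime (⊥ : Ideal (𝓞 F)) M := by
    intro h
    apply h1
    rw [Ideal.isCoprime_iff_sup_eq, bot_sup_eq] at h
    exact h
  refine ⟨⟨⟨G, ?_⟩, ?_, ?_⟩, ⟨h0, h1, ?_, ?_, ?_⟩, hGx⟩
  · show G 0 = 0
    simp only [hG]
    exact if_neg hbot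
  · show G 1 = 1
    rw [Ideal.one_eq_top, ← Ideal.span_singleton_one, hGx 1 hb_one, hf1, one_mul]
  · intro I J
    show G (I * J) = G I * G J
    by_cases hI : IsCoprime I M
    · by_cases hJ : IsCoprime J M
      · have e1 : G I = f (g I) * g I := by simp only [hG]; rw [if_pos hI]
        have e2 : G J = f (g J) * g J := by simp only [hG]; rw [if_pos hJ]
        have hI' : IsCoprime (Ideal.span {g I}) M := by rw [hgs]; exact hI
        have hJ' : IsCoprime (Ideal.span {g J}) M := by rw [hgs]; exact hJ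
        have e3 : I * J = Ideal.span {g I * g J} := by
          rw [← Ideal.span_singleton_mul_span_singleton, hgs, hgs]
        rw [e3, hGx _ (hb_mul hI' hJ'), hm _ _ hI' hJ', e1, e2]
        ring
      · have e2 : G J = 0 := by simp only [hG]; rw [if_neg hJ]
        have e3 : G (I * J) = 0 := by
          simp only [hG]
          rw [if_neg fun h => hJ (IsCoprime.mul_left_iff.1 h).2]
        rw [e2, e3, mul_zero]
    · have e2 : G I = 0 := by simp only [hG]; rw [if_neg hI]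
      have e3 : G (I * J) = 0 := by
        simp only [hG]
        rw [if_neg fun h => hI (IsCoprime.mul_left_iff.1 h).1]
      rw [e2, e3, zero_mul]
  · intro J hJ
    show Ideal.span {G J} = J
    have e1 : G J = f (g J) * g J := by simp only [hG]; rw [if_pos hJ]
    rw [e1, ← Ideal.span_singleton_mul_span_singleton, hgs,
      Ideal.span_singleton_eq_top.2 (hu _ (by rw [hgs]; exact hJ)), ← Ideal.one_eq_top, one_mul]
  · intro J hJ
    show G J = 0
    simp only [hG]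
    rw [if_neg hJ]
  · intro x y hx hy hxy
    show G _ * y = G _ * x
    rw [hGx x hx, hGx y hy, hp x y hx hy hxy]
    ring

/-- A multiplicative function which is 1 on the elements congruent to 1 modulo M is periodic modulo M. -/
theorem per_of_one {R : Type} [CommRing R] {M : Ideal R} {κ : R → R}
    (hm : ∀ x y, IsCoprime (Ideal.span {x}) M → IsCoprime (Ideal.span {y}) M → κ (x * y) = κ x * κ y)
    (h1 : ∀ x, x - 1 ∈ M → κ x = 1) {x y : R} (hx : IsCoprime (Ideal.span {x}) M)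
    (hy : IsCoprime (Ideal.span {y}) M) (h : x - y ∈ M) : κ x = κ y := by
  obtain ⟨a, ha, b, hb, hab⟩ := Ideal.isCoprime_iff_exists.1 hx
  obtain ⟨z, rfl⟩ := Ideal.mem_span_singleton.1 ha
  have hxz : x * z - 1 ∈ M := by
    have : x * z - 1 = -b := by rw [← hab]; ring
    rw [this]
    exact M.neg_mem hb
  have hyz : y * z - 1 ∈ M := by
    have : y * z - 1 = (x * z - 1) - z * (x - y) := by ring
    rw [this]
    exact M.sub_mem hxz (M.mul_mem_left _ h)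
  have hz : IsCoprime (Ideal.span {z}) M := by
    rw [Ideal.isCoprime_iff_exists]
    exact ⟨x * z, Ideal.mem_span_singleton.2 ⟨x, by ring⟩, b, hb, hab⟩
  have e1 := h1 _ hxz
  have e2 := h1 _ hyz
  rw [hm x z hx hz] at e1
  rw [hm y z hy hz] at e2
  calc κ x = κ x * (κ y * κ z) := by rw [e2, mul_one]
    _ = κ y * (κ x * κ z) := by ring
    _ = κ y := by rw [e1, mul_one]

end H55W
end

-- from Lib.H55W.S5
section

/-! # H55W, part S: residue characters from reciprocity -/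

open NumberField

namespace H55W

variable {F : Type} [Field F] [NumberField F] {m : ℕ} {ζ : 𝓞 F}

theorem s5_unit {a : ℤ} (h : IsUnit (a : 𝓞 F)) : IsUnit a := by
  have h1 := h.map (Algebra.norm ℤ)
  have h2 : Algebra.norm ℤ (a : 𝓞 F) = a ^ Module.finrank ℤ (𝓞 F) := by
    have := Algebra.norm_algebraMap (R := ℤ) (S := 𝓞 F) a
    simpa using this
  rw [h2] at h1
  have h3 : Module.finrank ℤ (𝓞 F) ≠ 0 := by
    rw [RingOfIntegers.rank]
    exact Module.finrank_pos.ne'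
  exact (isUnit_pow_iff h3).1 h1

/-- Chunk S5 (S). -/
theorem s5_pj {x : 𝓞 F} {n : ℤ} (hζ : IsPrimitiveRoot ζ m) (hm : 2 ≤ m) (hn : n ≠ 0) (hx : IsCoprime x (((m * n : ℤ)) : 𝓞 F)) :
    PJ m ζ (Ideal.span {x}) ∧ IsCoprime (Ideal.span {(n : 𝓞 F)}) (Ideal.span {x}) := by
  rw [Int.cast_mul, Int.cast_natCast] at hx
  have h1 : IsCoprime x (m : 𝓞 F) := hx.of_mul_right_left
  have h2 : IsCoprime x (n : 𝓞 F) := hx.of_mul_right_right
  refine ⟨⟨?_, (Ideal.isCoprime_span_singleton_iff _ _).2 h1, hζ, hm⟩,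
    (Ideal.isCoprime_span_singleton_iff _ _).2 h2.symm⟩
  rw [Ne, Ideal.span_singleton_eq_bot]
  rintro rfl
  have h3 : IsUnit ((m : ℤ) : 𝓞 F) := by
    rw [Int.cast_natCast]
    exact isCoprime_zero_left.1 h1
  have h4 := s5_unit h3
  rw [Int.isUnit_iff] at h4
  omega

/-- Chunk S5 (M). root: pj_root; mul: pj_mul_left; unit: span {u} = ⊤, pj_top; euler: pj_prime for P = span {π} (prime, not bottom; m is not in P), ps_spec; Nat.card of the quotient = absNorm. per: per_of_one (HB.lean) for M = span {k}: x is prime to k because it is prime to (m n)^j (hk; IsCoprime.pow_right, IsCoprime.of_isCoprime_of_dvd_right);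
κ (x y) = κ x κ y for x, y prime to k: x is prime to m n because m n divides k (hk'). -/
theorem prc_of (hζ : IsPrimitiveRoot ζ m) (hm : 2 ≤ m) {n k : ℤ} (hn : n ≠ 0) {j : ℕ} (hk : k ∣ (m * n : ℤ) ^ j) (hk' : (m * n : ℤ) ∣ k)
    (h1 : ∀ x : 𝓞 F, (k : 𝓞 F) ∣ x - 1 → pj m ζ (Ideal.span {x}) (n : 𝓞 F) = 1) :
    PRC (𝓞 F) m n (m * n) k (fun x => pj m ζ (Ideal.span {x}) (n : 𝓞 F)) := by
  have hkc : ∀ x : 𝓞 F, IsCoprime (Ideal.span {x}) (Ideal.span {(k : 𝓞 F)}) →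
      IsCoprime x (((m * n : ℤ)) : 𝓞 F) := by
    intro x hx
    rw [Ideal.isCoprime_span_singleton_iff] at hx
    exact hx.of_isCoprime_of_dvd_right (Int.cast_dvd_cast _ _ hk')
  have hck : ∀ x : 𝓞 F, IsCoprime x (((m * n : ℤ)) : 𝓞 F) →
      IsCoprime (Ideal.span {x}) (Ideal.span {(k : 𝓞 F)}) := by
    intro x hx
    rw [Ideal.isCoprime_span_singleton_iff]
    have h2 : (k : 𝓞 F) ∣ (((m * n : ℤ)) : 𝓞 F) ^ j := by
      have := Int.cast_dvd_cast (α := 𝓞 F) _ _ hk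
      rwa [Int.cast_pow] at this
    exact (hx.pow_right (n := j)).of_isCoprime_of_dvd_right h2
  have hmul : ∀ x y : 𝓞 F, IsCoprime x (((m * n : ℤ)) : 𝓞 F) → IsCoprime y (((m * n : ℤ)) : 𝓞 F) →
      pj m ζ (Ideal.span {x * y}) (n : 𝓞 F) =
        pj m ζ (Ideal.span {x}) (n : 𝓞 F) * pj m ζ (Ideal.span {y}) (n : 𝓞 F) := by
    intro x y hx hy
    rw [← Ideal.span_singleton_mul_span_singleton]
    exact pj_mul_left (s5_pj hζ hm hn hx).1.ne (s5_pj hζ hm hn hy).1.ne _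
  constructor
  · intro x hx
    obtain ⟨h2, h3⟩ := s5_pj hζ hm hn hx
    exact pj_root h2 h3
  · exact hmul
  · intro x y hx hy hxy
    refine per_of_one (M := Ideal.span {(k : 𝓞 F)})
      (κ := fun x => pj m ζ (Ideal.span {x}) (n : 𝓞 F)) ?_ ?_ (hck x hx) (hck y hy)
      (Ideal.mem_span_singleton.2 hxy)
    · intro x y hx hy
      exact hmul x y (hkc x hx) (hkc y hy)
    · intro x hx
      exact h1 x (Ideal.mem_span_singleton.1 hx)
  · intro u hu
    show pj m ζ (Ideal.span {u}) (n : 𝓞 F) = 1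
    rw [Ideal.span_singleton_eq_top.2 hu]
    exact pj_top _
  · intro π hπ h2 h3
    rw [Int.cast_mul, Int.cast_natCast] at h2
    have hP : PP m ζ (Ideal.span {π}) := by
      refine ⟨(Ideal.span_singleton_prime hπ.ne_zero).2 hπ, ?_, ?_, hζ, hm⟩
      · rw [Ne, Ideal.span_singleton_eq_bot]
        exact hπ.ne_zero
      · rw [Ideal.mem_span_singleton]
        exact h3
    have h4 : (n : 𝓞 F) ∉ Ideal.span {π} := by
      rw [Ideal.mem_span_singleton]
      exact fun h => h2 (h.mul_left _)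
    have h5 := (ps_spec hP h4).2
    show π ∣ (n : 𝓞 F) ^ ((Nat.card (𝓞 F ⧸ Ideal.span {π}) - 1) / m) -
      pj m ζ (Ideal.span {π}) (n : 𝓞 F)
    rw [pj_prime hP, ← Ideal.mem_span_singleton]
    rw [Ideal.absNorm_apply, Submodule.cardQuot_apply] at h5
    exact h5

end H55W
end

-- from Lib.H35L.Ar
section

/-!
# H35L: the arithmetic of supersingular cyclotomic towers (definitions)

F is imaginary quadratic of class number one, O = 𝓞 F, Ω an algebraic closure of F, A, B in F, E : y^2 = x^3 + A x + B with complex multiplication act by O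
(H55K.CMA), p a prime number inert in F of good reduction. All Galois groups are subgroups of Gal(Ω/F). Classes are homomorphisms on groups that act trivially on the
p-power torsion. See PROOF.md.
-/

open NumberField IsDedekindDomain WeierstrassCurve

namespace H35L

open H55P (IQ Pt ac Inert Dec)
open H35P (WAB)
open H55K (Tor CMA Dta)

section defs

variable {F : Type} [Field F] {A B : F} {Ω : Type} [Field Ω] [DecidableEq Ω] [Algebra F Ω]

/-- The points over Ω as a module over the integers of F. -/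
def PM (act : 𝓞 F →+* AddMonoid.End (Pt (WAB A B) Ω)) : Type :=
  let _ := act
  Pt (WAB A B) Ω

variable (act : 𝓞 F →+* AddMonoid.End (Pt (WAB A B) Ω))

noncomputable instance : AddCommGroup (PM act) := inferInstanceAs (AddCommGroup (Pt (WAB A B) Ω))

noncomputable instance : Module (𝓞 F) (PM act) where
  smul a P := act a P
  one_smul P := show act 1 P = P by rw [map_one]; rfl
  mul_smul a b P := show act (a * b) P = act a (act b P) by rw [map_mul]; rfl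
  smul_zero a := show act a (0 : Pt (WAB A B) Ω) = 0 from map_zero _
  smul_add a P Q := show act a ((P : Pt (WAB A B) Ω) + (Q : Pt (WAB A B) Ω)) = act a P + act a Q from map_add _ _ _
  add_smul a b P := show act (a + b) P = act a P + act b P by rw [map_add]; rfl
  zero_smul P := show act 0 P = 0 by rw [map_zero]; rfl

/-- The Galois action. -/
noncomputable def aM (s : Ω ≃ₐ[F] Ω) : PM act →+ PM act := ac (WAB A B) s

theorem aM_mul (a b : Ω ≃ₐ[F] Ω) (P : PM act) : aM act (a * b) P = aM act a (aM act b P) := by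
  change Pt (WAB A B) Ω at P
  cases P <;> rfl

theorem aM_one (P : PM act) : aM act 1 P = P := by
  change Pt (WAB A B) Ω at P
  cases P <;> rfl

/-- The Galois action commutes with the complex multiplication (H55K.CMA.gal). -/
def Cm : Prop := ∀ (s : Ω ≃ₐ[F] Ω) (a : 𝓞 F) (P : PM act), aM act s (a • P) = a • aM act s P

/-- s acts trivially on the points of order a power of p. -/
def FA (p : ℕ) (s : Ω ≃ₐ[F] Ω) : Prop := ∀ P : PM act, (∃ k : ℕ, p ^ k • P = 0) → aM act s P = P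

/-- s acts trivially on the layer F Q_n of the cyclotomic Z_p-extension: its cyclotomic character modulo p^(n+1) is killed by p - 1. -/
def Gc (p n : ℕ) (s : Ω ≃ₐ[F] Ω) : Prop :=
  ∃ a : ℕ, a ^ (p - 1) ≡ 1 [MOD p ^ (n + 1)] ∧ ∀ z : Ω, z ^ p ^ (n + 1) = 1 → s z = z ^ a

theorem Gc_mono {p m : ℕ} {s : Ω ≃ₐ[F] Ω} (h : Gc p (m + 1) s) : Gc p m s := by
  obtain ⟨a, ha, h1⟩ := h
  refine ⟨a, ha.of_dvd (pow_dvd_pow p (by omega)), fun z hz => h1 z ?_⟩
  rw [pow_succ p (m + 1), pow_mul, hz, one_pow]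

/-- Homomorphisms f on H with values in the points of order a power of p, continuous, zero on I; they are extended by zero outside H. -/
structure IsHm (p : ℕ) (H I : (Ω ≃ₐ[F] Ω) → Prop) (f : (Ω ≃ₐ[F] Ω) → PM act) : Prop where
  out : ∀ h, ¬ H h → f h = 0
  mul : ∀ h, H h → ∀ h', H h' → f (h * h') = f h + f h'
  tor : ∀ h, ∃ k : ℕ, p ^ k • f h = 0
  cont : ∃ L : IntermediateField F Ω, FiniteDimensional F L ∧ ∀ h, H h → h ∈ L.fixingSubgroup → f h = 0
  unr : ∀ h, H h → I h → f h = 0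

/-- In addition f is equivariant under N m for some m. -/
structure IsCls (p : ℕ) (H I : (Ω ≃ₐ[F] Ω) → Prop) (N : ℕ → (Ω ≃ₐ[F] Ω) → Prop) (f : (Ω ≃ₐ[F] Ω) → PM act) : Prop
    extends IsHm act p H I f where
  eqv : ∃ m, ∀ s, N m s → ∀ h, H h → f (s * h * s⁻¹) = aM act s (f h)

/-- The module of the classes. -/
def Cls (hc : Cm act) (p : ℕ) (H I : (Ω ≃ₐ[F] Ω) → Prop) (N : ℕ → (Ω ≃ₐ[F] Ω) → Prop) (hN : ∀ m s, N (m + 1) s → N m s) :
    Submodule (𝓞 F) ((Ω ≃ₐ[F] Ω) → PM act) where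
  carrier := {f | IsCls act p H I N f}
  zero_mem' := by
    refine ⟨⟨fun _ _ => rfl, fun _ _ _ _ => (add_zero _).symm, fun _ => ⟨0, smul_zero _⟩, ⟨⊥, inferInstance, fun _ _ _ => rfl⟩, fun _ _ _ => rfl⟩,
      ⟨0, fun s _ h _ => ?_⟩⟩
    rw [Pi.zero_apply, Pi.zero_apply, map_zero]
  add_mem' := by
    rintro f g (hf : IsCls act p H I N f) (hg : IsCls act p H I N g)
    have hmono : ∀ m n s, m ≤ n → N n s → N m s := by
      intro m n s hmn
      induction n, hmn using Nat.le_induction with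
      | base => exact id
      | succ n _ ih => exact fun h => ih (hN n s h)
    refine ⟨⟨fun h hh => ?_, fun h hh h' hh' => ?_, fun h => ?_, ?_, fun h hh hi => ?_⟩, ?_⟩
    · rw [Pi.add_apply, hf.out h hh, hg.out h hh, add_zero]
    · rw [Pi.add_apply, hf.mul h hh h' hh', hg.mul h hh h' hh', Pi.add_apply, Pi.add_apply, add_add_add_comm]
    · obtain ⟨k, hk⟩ := hf.tor h
      obtain ⟨l, hl⟩ := hg.tor h
      refine ⟨k + l, ?_⟩
      rw [Pi.add_apply, smul_add, pow_add, mul_smul, mul_smul, smul_comm (p ^ k) (p ^ l) (f h), hk, hl, smul_zero, smul_zero, add_zero]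
    · obtain ⟨L, hL, h1⟩ := hf.cont
      obtain ⟨L', hL', h2⟩ := hg.cont
      refine ⟨L ⊔ L', inferInstance, fun h hh hm => ?_⟩
      rw [IntermediateField.fixingSubgroup_sup] at hm
      rw [Pi.add_apply, h1 h hh hm.1, h2 h hh hm.2, add_zero]
    · rw [Pi.add_apply, hf.unr h hh hi, hg.unr h hh hi, add_zero]
    · obtain ⟨m, hm⟩ := hf.eqv
      obtain ⟨n, hn⟩ := hg.eqv
      refine ⟨max m n, fun s hs h hh => ?_⟩
      rw [Pi.add_apply, hm s (hmono _ _ s (le_max_left _ _) hs) h hh, hn s (hmono _ _ s (le_max_right _ _) hs) h hh, Pi.add_apply, map_add]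
  smul_mem' := by
    rintro a f (hf : IsCls act p H I N f)
    refine ⟨⟨fun h hh => ?_, fun h hh h' hh' => ?_, fun h => ?_, ?_, fun h hh hi => ?_⟩, ?_⟩
    · rw [Pi.smul_apply, hf.out h hh, smul_zero]
    · rw [Pi.smul_apply, hf.mul h hh h' hh', Pi.smul_apply, Pi.smul_apply, smul_add]
    · obtain ⟨k, hk⟩ := hf.tor h
      refine ⟨k, ?_⟩
      rw [Pi.smul_apply, smul_comm, hk, smul_zero]
    · obtain ⟨L, hL, h1⟩ := hf.cont
      refine ⟨L, hL, fun h hh hm => ?_⟩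
      rw [Pi.smul_apply, h1 h hh hm, smul_zero]
    · rw [Pi.smul_apply, hf.unr h hh hi, smul_zero]
    · obtain ⟨m, hm⟩ := hf.eqv
      refine ⟨m, fun s hs h hh => ?_⟩
      rw [Pi.smul_apply, hm s hs h hh, Pi.smul_apply, hc]

/-- s₀ carries the data H', I', N' to H, I, N. -/
structure Tr (s₀ : Ω ≃ₐ[F] Ω) (H I : (Ω ≃ₐ[F] Ω) → Prop) (N : ℕ → (Ω ≃ₐ[F] Ω) → Prop) (H' I' : (Ω ≃ₐ[F] Ω) → Prop)
    (N' : ℕ → (Ω ≃ₐ[F] Ω) → Prop) : Prop where
  h : ∀ h, H' h → H (s₀ * h * s₀⁻¹)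
  mul : ∀ h, H' h → ∀ h', H' h' → H' (h * h')
  cj : ∀ m s, N' m s → ∀ h, H' h → H' (s * h * s⁻¹)
  i : ∀ h, I' h → I (s₀ * h * s₀⁻¹)
  n : ∀ m s, N' m s → N m (s₀ * s * s₀⁻¹)

open Classical in
/-- The transport of classes: h ↦ s₀⁻¹ f(s₀ h s₀⁻¹). -/
noncomputable def tr (hc : Cm act) (p : ℕ) (s₀ : Ω ≃ₐ[F] Ω) {H I : (Ω ≃ₐ[F] Ω) → Prop} {N : ℕ → (Ω ≃ₐ[F] Ω) → Prop} {H' I' : (Ω ≃ₐ[F] Ω) → Prop}
    {N' : ℕ → (Ω ≃ₐ[F] Ω) → Prop} (t : Tr s₀ H I N H' I' N') (hN : ∀ m s, N (m + 1) s → N m s) (hN' : ∀ m s, N' (m + 1) s → N' m s) :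
    Cls act hc p H I N hN →ₗ[𝓞 F] Cls act hc p H' I' N' hN' where
  toFun f := ⟨fun h => if H' h then aM act s₀⁻¹ (f.1 (s₀ * h * s₀⁻¹)) else 0, by
    have hf : IsCls act p H I N f.1 := f.2
    refine ⟨⟨fun h hh => if_neg hh, fun h hh h' hh' => ?_, fun h => ?_, ?_, fun h hh hi => ?_⟩, ?_⟩
    · rw [if_pos hh, if_pos hh', if_pos (t.mul h hh h' hh')]
      have h1 : s₀ * (h * h') * s₀⁻¹ = s₀ * h * s₀⁻¹ * (s₀ * h' * s₀⁻¹) := by group
      rw [h1, hf.mul _ (t.h h hh) _ (t.h h' hh'), map_add]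
    · by_cases hh : H' h
      · obtain ⟨k, hk⟩ := hf.tor (s₀ * h * s₀⁻¹)
        refine ⟨k, ?_⟩
        rw [if_pos hh, ← map_nsmul, hk, map_zero]
      · exact ⟨0, by rw [if_neg hh, smul_zero]⟩
    · obtain ⟨L, hL, h1⟩ := hf.cont
      refine ⟨L.map (s₀⁻¹ : Ω ≃ₐ[F] Ω).toAlgHom, ?_, fun h hh hm => ?_⟩
      · exact inferInstance
      · rw [if_pos hh, h1 _ (t.h h hh) ?_, map_zero]
        rw [IntermediateField.mem_fixingSubgroup_iff] at hm ⊢
        intro x hx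
        have h2 := hm (s₀⁻¹ x) ⟨x, hx, rfl⟩
        show s₀ (h (s₀⁻¹ x)) = x
        rw [h2]
        show (s₀ * s₀⁻¹) x = x
        rw [mul_inv_cancel]
        rfl
    · rw [if_pos hh, hf.unr _ (t.h h hh) (t.i h hi), map_zero]
    · obtain ⟨m, hm⟩ := hf.eqv
      refine ⟨m, fun s hs h hh => ?_⟩
      rw [if_pos hh, if_pos (t.cj m s hs h hh)]
      have h1 : s₀ * (s * h * s⁻¹) * s₀⁻¹ = s₀ * s * s₀⁻¹ * (s₀ * h * s₀⁻¹) * (s₀ * s * s₀⁻¹)⁻¹ := by group
      rw [h1, hm _ (t.n m s hs) _ (t.h h hh), ← aM_mul, ← aM_mul]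
      congr 2
      group⟩
  map_add' f g := by
    apply Subtype.ext
    funext h
    by_cases hh : H' h
    · simp only [hh, if_true, Submodule.coe_add, Pi.add_apply, map_add]
    · simp only [hh, if_false, Submodule.coe_add, Pi.add_apply, add_zero]
  map_smul' a f := by
    apply Subtype.ext
    funext h
    by_cases hh : H' h
    · simp only [hh, if_true, SetLike.val_smul, Pi.smul_apply, RingHom.id_apply]
      exact hc s₀⁻¹ a (f.1 (s₀ * h * s₀⁻¹))
    · simp only [hh, if_false, SetLike.val_smul, Pi.smul_apply, RingHom.id_apply, smul_zero]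

/-- The elements of G acting trivially on the points of order a power of p. -/
def SH (G : Subgroup (Ω ≃ₐ[F] Ω)) (p : ℕ) (s : Ω ≃ₐ[F] Ω) : Prop := s ∈ G ∧ FA act p s

/-- The elements of G acting trivially on F Q_m. -/
def SN (G : Subgroup (Ω ≃ₐ[F] Ω)) (p m : ℕ) (s : Ω ≃ₐ[F] Ω) : Prop := s ∈ G ∧ Gc p m s

/-- Inertia outside p. -/
def GI (p : ℕ) (s : Ω ≃ₐ[F] Ω) : Prop := ∃ V : ValuationSubring Ω, V.valuation (p : Ω) = 1 ∧ Inert V s

/-- No condition. -/
def LI (_ : Ω ≃ₐ[F] Ω) : Prop := False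

/-- I is stable under conjugation. -/
def CI (I : (Ω ≃ₐ[F] Ω) → Prop) : Prop := ∀ t s, I s → I (t * s * t⁻¹)

variable (hc : Cm act)

/-- The module of the classes of the group G. -/
def SM (p : ℕ) (G : Subgroup (Ω ≃ₐ[F] Ω)) (I : (Ω ≃ₐ[F] Ω) → Prop) : Submodule (𝓞 F) ((Ω ≃ₐ[F] Ω) → PM act) :=
  Cls act hc p (SH act G p) I (SN G p) (fun _ _ h => ⟨h.1, Gc_mono h.2⟩)

/-! ### The transports -/

theorem aM_inv (s : Ω ≃ₐ[F] Ω) (P : PM act) : aM act s (aM act s⁻¹ P) = P := by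
  rw [← aM_mul, mul_inv_cancel, aM_one]

theorem FA_mul {p : ℕ} {s t : Ω ≃ₐ[F] Ω} (hs : FA act p s) (ht : FA act p t) : FA act p (s * t) := by
  intro P hP
  rw [aM_mul, ht P hP, hs P hP]

theorem FA_conj {p : ℕ} {s : Ω ≃ₐ[F] Ω} (hs : FA act p s) (t : Ω ≃ₐ[F] Ω) : FA act p (t * s * t⁻¹) := by
  rintro P ⟨k, hk⟩
  rw [aM_mul, aM_mul, hs _ ⟨k, by rw [← map_nsmul, hk, map_zero]⟩, aM_inv]

theorem Gc_conj {p m : ℕ} {s : Ω ≃ₐ[F] Ω} (hs : Gc p m s) (t : Ω ≃ₐ[F] Ω) : Gc p m (t * s * t⁻¹) := by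
  obtain ⟨a, ha, h1⟩ := hs
  refine ⟨a, ha, fun z hz => ?_⟩
  rw [AlgEquiv.mul_apply, AlgEquiv.mul_apply, h1 (t⁻¹ z) (by rw [← map_pow, hz, map_one]), map_pow]
  congr 1
  exact t.apply_symm_apply z

theorem GI_conj {p : ℕ} : CI (GI (F := F) (Ω := Ω) p) := by
  rintro t s ⟨V, hV, h1⟩
  refine ⟨V.comap ((t⁻¹ : Ω ≃ₐ[F] Ω) : Ω →+* Ω), ?_, ?_⟩
  · have hn : ((t⁻¹ : Ω ≃ₐ[F] Ω) : Ω →+* Ω) (p : Ω) = (p : Ω) := map_natCast _ _
    have h2 : ∀ x, x ∈ V.comap ((t⁻¹ : Ω ≃ₐ[F] Ω) : Ω →+* Ω) ↔ (t⁻¹ : Ω ≃ₐ[F] Ω) x ∈ V := fun x => ValuationSubring.mem_comap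
    have hp0 : (p : Ω) ≠ 0 := by
      intro h0
      rw [h0, map_zero] at hV
      exact zero_ne_one hV
    have h3 : ∀ U : ValuationSubring Ω, U.valuation (p : Ω) = 1 ↔ (p : Ω) ∈ U ∧ ((p : Ω))⁻¹ ∈ U := by
      intro U
      have hv0 : U.valuation (p : Ω) ≠ 0 := (Valuation.ne_zero_iff _).2 hp0
      rw [← ValuationSubring.valuation_le_one_iff, ← ValuationSubring.valuation_le_one_iff, map_inv₀]
      constructor
      · intro h
        rw [h]
        simp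
      · rintro ⟨h, h'⟩
        exact le_antisymm h ((inv_le_one₀ (zero_lt_iff.2 hv0)).1 h')
    rw [h3, h2, h2, map_inv₀, map_natCast]
    exact (h3 V).1 hV
  · intro x hx
    have hm : ∀ x, x ∈ V.comap ((t⁻¹ : Ω ≃ₐ[F] Ω) : Ω →+* Ω) ↔ (t⁻¹ : Ω ≃ₐ[F] Ω) x ∈ V := fun x => ValuationSubring.mem_comap
    have hlt : ∀ x, (V.comap ((t⁻¹ : Ω ≃ₐ[F] Ω) : Ω →+* Ω)).valuation x < 1 ↔ V.valuation ((t⁻¹ : Ω ≃ₐ[F] Ω) x) < 1 := by
      intro x
      rw [H55P.lt1_iff, H55P.lt1_iff, hm, map_inv₀]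
      simp
    have h4 : (t⁻¹ : Ω ≃ₐ[F] Ω) ((t * s * t⁻¹ : Ω ≃ₐ[F] Ω) x) = s ((t⁻¹ : Ω ≃ₐ[F] Ω) x) := by
      rw [AlgEquiv.mul_apply, AlgEquiv.mul_apply]
      exact t.symm_apply_apply _
    rw [hlt, map_sub, h4]
    exact h1 _ ((hm x).1 hx)

theorem LI_conj : CI (LI (F := F) (Ω := Ω)) := fun _ _ h => h.elim

theorem tr_op {G : Subgroup (Ω ≃ₐ[F] Ω)} {I : (Ω ≃ₐ[F] Ω) → Prop} {p : ℕ} (hI : CI I) {γ : Ω ≃ₐ[F] Ω} (hγ : γ ∈ G) :
    Tr γ⁻¹ (SH act G p) I (SN G p) (SH act G p) I (SN G p) := by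
  have hc : ∀ t s : Ω ≃ₐ[F] Ω, t ∈ G → s ∈ G → t * s * t⁻¹ ∈ G := fun t s ht hs => mul_mem (mul_mem ht hs) (inv_mem ht)
  exact ⟨fun h hh => ⟨hc _ _ (inv_mem hγ) hh.1, FA_conj act hh.2 _⟩, fun h hh h' hh' => ⟨mul_mem hh.1 hh'.1, FA_mul act hh.2 hh'.2⟩,
    fun m s hs h hh => ⟨hc _ _ hs.1 hh.1, FA_conj act hh.2 _⟩, fun h hh => hI _ _ hh, fun m s hs => ⟨hc _ _ (inv_mem hγ) hs.1, Gc_conj hs.2 _⟩⟩

theorem tr_lo {G G' : Subgroup (Ω ≃ₐ[F] Ω)} {I : (Ω ≃ₐ[F] Ω) → Prop} {p : ℕ} {s₀ : Ω ≃ₐ[F] Ω} (hG : ∀ s ∈ G', s₀ * s * s₀⁻¹ ∈ G) :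
    Tr s₀ (SH act G p) I (SN G p) (SH act G' p) LI (SN G' p) :=
  ⟨fun h hh => ⟨hG h hh.1, FA_conj act hh.2 _⟩, fun h hh h' hh' => ⟨mul_mem hh.1 hh'.1, FA_mul act hh.2 hh'.2⟩,
    fun m s hs h hh => ⟨mul_mem (mul_mem hs.1 hh.1) (inv_mem hs.1), FA_conj act hh.2 _⟩, fun h hh => hh.elim, fun m s hs => ⟨hG s hs.1, Gc_conj hs.2 _⟩⟩

/-- The operator of gamma on the classes of G: (op f)(h) = gamma f(gamma^-1 h gamma). -/
noncomputable def opM (p : ℕ) {G : Subgroup (Ω ≃ₐ[F] Ω)} {I : (Ω ≃ₐ[F] Ω) → Prop} (hI : CI I) {γ : Ω ≃ₐ[F] Ω} (hγ : γ ∈ G) :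
    SM act hc p G I →ₗ[𝓞 F] SM act hc p G I :=
  tr act hc p γ⁻¹ (tr_op act hI hγ) _ _

/-- The restriction of the classes of G to G', conjugated by s₀: (lo f)(h) = s₀^-1 f(s₀ h s₀^-1). -/
noncomputable def loM (p : ℕ) {G G' : Subgroup (Ω ≃ₐ[F] Ω)} {I : (Ω ≃ₐ[F] Ω) → Prop} {s₀ : Ω ≃ₐ[F] Ω} (hG : ∀ s ∈ G', s₀ * s * s₀⁻¹ ∈ G) :
    SM act hc p G I →ₗ[𝓞 F] SM act hc p G' LI :=
  tr act hc p s₀ (tr_lo act hG) _ _

/-! ### Global and local classes -/

/-- The decomposition group of V. -/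
abbrev dV (V : ValuationSubring Ω) : Subgroup (Ω ≃ₐ[F] Ω) := H55P.decS F V

/-- The module of the global classes. -/
abbrev RM (p : ℕ) (M : IntermediateField F Ω) : Submodule (𝓞 F) ((Ω ≃ₐ[F] Ω) → PM act) := SM act hc p M.fixingSubgroup (GI p)

/-- The module of the local classes. -/
abbrev WM (p : ℕ) (V : ValuationSubring Ω) : Submodule (𝓞 F) ((Ω ≃ₐ[F] Ω) → PM act) := SM act hc p (dV V) LI

/-- The points whose multiple by a power of p is rational over the field of level n of G. -/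
def PL (p : ℕ) (G : Subgroup (Ω ≃ₐ[F] Ω)) (n : ℕ) (P : PM act) : Prop := ∃ k : ℕ, ∀ s, SN G p n s → aM act s (p ^ k • P) = p ^ k • P

/-- The classes of points of level n: w(s) = s P - P. -/
def DM (p : ℕ) (G : Subgroup (Ω ≃ₐ[F] Ω)) (I : (Ω ≃ₐ[F] Ω) → Prop) (n : ℕ) : Submodule (𝓞 F) (SM act hc p G I) where
  carrier := {w | ∃ P : PM act, PL act p G n P ∧ ∀ h, SH act G p h → w.1 h = aM act h P - P}
  zero_mem' := ⟨0, ⟨0, fun s _ => by rw [smul_zero, map_zero]⟩, fun h _ => by rw [map_zero, sub_zero]; rfl⟩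
  add_mem' := by
    rintro f g ⟨P, ⟨k, hk⟩, hP⟩ ⟨Q, ⟨l, hl⟩, hQ⟩
    refine ⟨P + Q, ⟨k + l, fun s hs => ?_⟩, fun h hh => ?_⟩
    · rw [smul_add, map_add, pow_add, mul_smul (p ^ k) (p ^ l) Q, map_nsmul (aM act s) (p ^ k) (p ^ l • Q), hl s hs, mul_comm,
        mul_smul (p ^ l) (p ^ k) P, map_nsmul (aM act s) (p ^ l) (p ^ k • P), hk s hs]
    · have h1 : (f + g).1 h = f.1 h + g.1 h := rfl
      rw [h1, hP h hh, hQ h hh, map_add, add_sub_add_comm]
  smul_mem' := by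
    rintro a f ⟨P, ⟨k, hk⟩, hP⟩
    refine ⟨a • P, ⟨k, fun s hs => ?_⟩, fun h hh => ?_⟩
    · rw [smul_comm, hc, hk s hs]
    · have h1 : (a • f).1 h = a • f.1 h := rfl
      rw [h1, hP h hh, smul_sub, hc]

/-- gamma is a topological generator: the (p-1)-th power of its cyclotomic character is not 1 modulo p^2. -/
def Gen (p : ℕ) (γ : Ω ≃ₐ[F] Ω) : Prop := ¬ Gc p 1 γ

/-- The local facts (section (L)) at V. -/
structure LocF (p q : ℕ) (V : ValuationSubring Ω) {γ : Ω ≃ₐ[F] Ω} (hγ : γ ∈ dV V) : Prop where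
  w0f : Finite {w : WM act hc p V // p • w = 0 ∧ opM act hc p LI_conj hγ w = w}
  w0 : Nat.card {w : WM act hc p V // p • w = 0 ∧ opM act hc p LI_conj hγ w = w} ≤ q ^ 2
  dp : ∀ n, Nat.card {w : WM act hc p V // w ∈ DM act hc p (dV V) LI n ∧ p • w = 0} = q ^ p ^ n
  ds : ∀ n, ∀ w : WM act hc p V, (w ∈ DM act hc p (dV V) LI 0 ∧ p • w = 0) ↔
    ∃ w' ∈ DM act hc p (dV V) LI n, p • w' = 0 ∧ ((opM act hc p LI_conj hγ - 1) ^ (p ^ n - 1 - H35K.J p n)) w' = w

/-- s acts as the integer a on the points killed by p^k. -/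
def Ch (p k : ℕ) (s : Ω ≃ₐ[F] Ω) (a : 𝓞 F) : Prop := ∀ T : PM act, p ^ k • T = 0 → aM act s T = a • T

/-- s - 1 is bijective on the points of order a power of p. -/
structure Tb (p : ℕ) (s : Ω ≃ₐ[F] Ω) : Prop where
  inj : ∀ P : PM act, (∃ k : ℕ, p ^ k • P = 0) → aM act s P = P → P = 0
  surj : ∀ P : PM act, (∃ k : ℕ, p ^ k • P = 0) → ∃ Q : PM act, (∃ k : ℕ, p ^ k • Q = 0) ∧ aM act s Q - Q = P

/-- c is a continuous cocycle on G with values in the points. -/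
structure IsCo (G : Subgroup (Ω ≃ₐ[F] Ω)) (c : (Ω ≃ₐ[F] Ω) → PM act) : Prop where
  mul : ∀ s ∈ G, ∀ t ∈ G, c (s * t) = c s + aM act s (c t)
  cont : ∃ L : IntermediateField F Ω, FiniteDimensional F L ∧ ∀ s ∈ G, s ∈ L.fixingSubgroup → c s = 0

/-- c is a cocycle on G whose class is killed by a power of p and is trivial at all finite places. -/
structure IsSh (p : ℕ) (G : Subgroup (Ω ≃ₐ[F] Ω)) (c : (Ω ≃ₐ[F] Ω) → PM act) : Prop extends IsCo act G c where
  tor : ∃ (k : ℕ) (Q : PM act), ∀ s ∈ G, p ^ k • c s = aM act s Q - Q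
  loc : ∀ V : ValuationSubring Ω, V ≠ ⊤ → ∃ P : PM act, ∀ s ∈ G, Dec V s → c s = aM act s P - P

/-- The points rational over the field of level n of G. -/
def AM (p : ℕ) (G : Subgroup (Ω ≃ₐ[F] Ω)) (n : ℕ) : AddSubgroup (PM act) where
  carrier := {P | ∀ s, SN G p n s → aM act s P = P}
  zero_mem' := fun s _ => map_zero _
  add_mem' := fun {P Q} hP hQ s hs => by rw [map_add, hP s hs, hQ s hs]
  neg_mem' := fun {P} hP s hs => by rw [map_neg, hP s hs]

/-- The operator gamma - 1 on points. -/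
noncomputable def gm1 (γ : Ω ≃ₐ[F] Ω) : AddMonoid.End (PM act) :=
  let e : AddMonoid.End (PM act) := aM act γ
  e - 1

/-- The local facts in terms of points: (L1) .. (L4) of helper16. -/
structure LocP (p q : ℕ) (V : ValuationSubring Ω) {γ : Ω ≃ₐ[F] Ω} (hγ : γ ∈ dV V) : Prop where
  l1 : ∀ n, ∀ P ∈ AM act p (dV V) n, p • P = 0 → P = 0
  l2 : ∀ n, Nat.card (AM act p (dV V) n ⧸ (AddSubgroup.map (nsmulAddMonoidHom p) (⊤ : AddSubgroup (AM act p (dV V) n)))) = q ^ p ^ n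
  l3 : ∀ n, ∀ P ∈ AM act p (dV V) n, ∃ P₀ ∈ AM act p (dV V) 0, ∃ P' ∈ AM act p (dV V) n,
    (gm1 act γ ^ (p ^ n - 1 - H35K.J p n)) P = P₀ + p • P'
  l3' : ∀ n, ∀ P₀ ∈ AM act p (dV V) 0, ∃ P ∈ AM act p (dV V) n, ∃ P' ∈ AM act p (dV V) n,
    (gm1 act γ ^ (p ^ n - 1 - H35K.J p n)) P = P₀ + p • P'
  l4f : Finite {w : WM act hc p V // p • w = 0 ∧ opM act hc p LI_conj hγ w = w}
  l4 : Nat.card {w : WM act hc p V // p • w = 0 ∧ opM act hc p LI_conj hγ w = w} ≤ q ^ 2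

end defs

end H35L
end

-- from Lib.H35L.X8
section

/-! # H35L, chunk X8 (M): valuation rings above the same place are conjugate -/

open NumberField IsDedekindDomain WeierstrassCurve

namespace H35L

variable {F : Type} [Field F] [NumberField F] {Ω : Type} [Field Ω] [Algebra F Ω] [IsAlgClosure F Ω]

/-- an automorphism which carries the prime of V to the prime of V' carries V to V' -/
theorem x8_dec {K : Type} [Field K] [NumberField K] {Ω : Type} [Field Ω] [Algebra K Ω] [Algebra.IsAlgebraic K Ω] (q : ℕ)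
    (hq : q.Prime) (V V' : ValuationSubring Ω) (hV : V.valuation (q : Ω) < 1) (s : Ω ≃ₐ[K] Ω)
    (hs : ∀ z : 𝓞 Ω, ∀ w : 𝓞 Ω, (w : Ω) = s (z : Ω) → (w ∈ H13S.in2Q V' ↔ z ∈ H13S.in2Q V)) (x : Ω)
    (hx : x ∈ V) : s x ∈ V' := by
  obtain ⟨a, c, hc, rfl⟩ := H13S.in2_frac K V q hq hV x hx
  have hint : ∀ z : 𝓞 Ω, IsIntegral ℤ (s (z : Ω)) := fun z => z.isIntegral_coe.map (s.toAlgHom.restrictScalars ℤ)
  have h1 : V'.valuation (s (c : Ω)) = 1 := by
    have h2 := (hs c ⟨s (c : Ω), hint c⟩ rfl)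
    have h3 := (H13S.in2Q_one V c).2 hc
    exact (H13S.in2Q_one V' ⟨s (c : Ω), hint c⟩).1 (fun h4 => h3 (h2.1 h4))
  rw [← V'.valuation_le_one_iff, map_div₀ s, map_div₀, h1, div_one]
  exact H13S.in2_le V' (hint a)

/-- conjugacy of the valuation rings above a prime -/
theorem x8_main {K : Type} [Field K] [NumberField K] {Ω : Type} [Field Ω] [Algebra K Ω] [IsAlgClosure K Ω]
    (p : ℕ) (hp : p.Prime) {V V' : ValuationSubring Ω} (hV : V.valuation (p : Ω) < 1) (hV' : V'.valuation (p : Ω) < 1)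
    (h : ∀ z : 𝓞 K, V.valuation (algebraMap K Ω z) < 1 ↔ V'.valuation (algebraMap K Ω z) < 1) :
    ∃ t : Ω ≃ₐ[K] Ω, ∀ x, t x ∈ V' ↔ x ∈ V := by
  classical
  have hal : Algebra.IsAlgebraic K Ω := IsAlgClosure.isAlgebraic
  have hG : IsGalois K Ω := IsAlgClosure.isGalois K Ω
  have hQp : (H13S.in2Q V).IsPrime := H13S.in2Q_prime V
  have hQp' : (H13S.in2Q V').IsPrime := H13S.in2Q_prime V'
  have hinv := H13S.in2_inv (K := K) (Ω := Ω)
  have hsc : SMulCommClass Gal(Ω/K) (𝓞 K) (𝓞 Ω) := by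
    constructor
    intro g a z
    rw [Algebra.smul_def, Algebra.smul_def, smul_mul']
    congr 1
    apply RingOfIntegers.ext
    exact g.commutes (a : K)
  let _ : TopologicalSpace (𝓞 Ω) := ⊥
  have : DiscreteTopology (𝓞 Ω) := ⟨rfl⟩
  have hcont : ContinuousSMul Gal(Ω/K) (𝓞 Ω) := by
    rw [continuousSMul_iff_stabilizer_isOpen]
    intro z
    have h1 := stabilizer_isOpen_of_isIntegral (K := K) (z : Ω)
    have h2 : (MulAction.stabilizer Gal(Ω/K) z : Set Gal(Ω/K)) = (MulAction.stabilizer Gal(Ω/K) (z : Ω) : Set Gal(Ω/K)) := by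
      ext g
      simp only [SetLike.mem_coe, MulAction.mem_stabilizer_iff]
      constructor
      · intro h
        exact congrArg (fun y : 𝓞 Ω => (y : Ω)) h
      · intro h
        exact RingOfIntegers.coe_injective h
    rw [h2]
    exact h1
  have hunder : (H13S.in2Q V).under (𝓞 K) = (H13S.in2Q V').under (𝓞 K) := by
    ext z
    have e1 : z ∈ (H13S.in2Q V).under (𝓞 K) ↔ algebraMap (𝓞 K) (𝓞 Ω) z ∈ H13S.in2Q V := Iff.rfl
    have e2 : z ∈ (H13S.in2Q V').under (𝓞 K) ↔ algebraMap (𝓞 K) (𝓞 Ω) z ∈ H13S.in2Q V' := Iff.rfl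
    rw [e1, e2, H13S.in2Q_lt, H13S.in2Q_lt]
    exact h z
  obtain ⟨g, hg⟩ := Algebra.IsInvariant.exists_smul_of_under_eq_of_profinite (A := 𝓞 K) (G := Gal(Ω/K))
    (H13S.in2Q V) (H13S.in2Q V') hunder
  have key : ∀ z : 𝓞 Ω, (g • z ∈ H13S.in2Q V' ↔ z ∈ H13S.in2Q V) := by
    intro z
    rw [hg]
    exact Ideal.smul_mem_pointwise_smul_iff
  refine ⟨g, fun x => ⟨fun hx => ?_, fun hx => ?_⟩⟩
  · have h1 := x8_dec p hp V' V hV' g.symm (fun z w hw => ?_) (g x) hx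
    · rwa [g.symm_apply_apply] at h1
    · have h2 : z = g • w := by
        apply RingOfIntegers.coe_injective
        show (z : Ω) = g (w : Ω)
        rw [hw, g.apply_symm_apply]
      rw [h2]
      exact (key w).symm
  · refine x8_dec p hp V V' hV g (fun z w hw => ?_) x hx
    have h2 : w = g • z := RingOfIntegers.coe_injective hw
    rw [h2]
    exact key z

/-- Chunk X8 (M). K a finite extension of F in Ω, V, V' of residue characteristic p lying above the same prime of K: some t fixing K carries V to V'. PROOF. Q, Q' = H13S.in2Q V, in2Q V', the primes of 𝓞 Ω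
of the elements of value < 1; they have the same intersection with 𝓞 K. Gal(Ω/K) acts on 𝓞 Ω with invariants 𝓞 K (H13S.in2_inv), Mathlib: Algebra.IsInvariant, profinite version
(Mathlib.RingTheory.Invariant.Profinite, exists_smul_of_under_eq_of_profinite, used in H13S.in2_gen: same instances): t Q = Q'. Every x in V is a/c with a, c in 𝓞 Ω, V(c) = 1 (H13S.in2_frac), so
t x = t a/t c is in V' (H13S.in2_dec has this argument); t^-1 in the same way. An element of Gal(Ω/K) gives an element of Gal(Ω/F) fixing K (IntermediateField.fixingSubgroup). -/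
theorem conj_above (K : IntermediateField F Ω) [FiniteDimensional F K] (p : ℕ) (hp : p.Prime) {V V' : ValuationSubring Ω}
    (hV : V.valuation (p : Ω) < 1) (hV' : V'.valuation (p : Ω) < 1)
    (h : ∀ x ∈ K, IsIntegral ℤ x → (V.valuation x < 1 ↔ V'.valuation x < 1)) :
    ∃ t ∈ K.fixingSubgroup, ∀ x, t x ∈ V' ↔ x ∈ V := by
  have hK : NumberField K := NumberField.of_module_finite F K
  have hac : IsAlgClosed Ω := IsAlgClosure.isAlgClosed F
  have hal : Algebra.IsAlgebraic F Ω := IsAlgClosure.isAlgebraic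
  have hal' : Algebra.IsAlgebraic K Ω := Algebra.IsAlgebraic.tower_top (K := F) K
  have hcl : IsAlgClosure K Ω := ⟨hac, hal'⟩
  obtain ⟨t, ht⟩ := x8_main (K := K) (Ω := Ω) p hp hV hV' (fun z => by
    refine h _ (z : K).2 ?_
    exact z.isIntegral_coe.map (IsScalarTower.toAlgHom ℤ K Ω))
  refine ⟨t.restrictScalars F, ?_, ht⟩
  rw [IntermediateField.mem_fixingSubgroup_iff]
  intro x hx
  exact t.commutes ⟨x, hx⟩

/-- Chunk X8 (S). For K = F: if p generates a prime ideal of 𝓞 F, all V above p are conjugate (an integer a of F has value < 1 iff p divides a: the elements of value < 1 form a proper ideal containing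
the maximal ideal (p)). An x in the bottom field is algebraMap F Ω y, integral: y in 𝓞 F. -/
theorem conj_all (p : ℕ) (hp : p.Prime) (hin : Prime (p : 𝓞 F)) {V V' : ValuationSubring Ω}
    (hV : V.valuation (p : Ω) < 1) (hV' : V'.valuation (p : Ω) < 1) :
    ∃ t : Ω ≃ₐ[F] Ω, ∀ x, t x ∈ V' ↔ x ∈ V := by
  have hone : ∀ (U : ValuationSubring Ω), U.valuation (p : Ω) < 1 → ∀ z : 𝓞 F,
      U.valuation (algebraMap F Ω z) < 1 ↔ (p : 𝓞 F) ∣ z := by
    intro U hU z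
    have hne : (p : 𝓞 F) ≠ 0 := hin.ne_zero
    have hmax : (Ideal.span {(p : 𝓞 F)}).IsMaximal := by
      have h1 : (Ideal.span {(p : 𝓞 F)}).IsPrime := (Ideal.span_singleton_prime hne).2 hin
      exact h1.isMaximal (by rwa [Ne, Ideal.span_singleton_eq_bot])
    set I : Ideal (𝓞 F) := (H13S.in2Q U).comap (algebraMap (𝓞 F) (𝓞 Ω)) with hI
    have hIm : ∀ y : 𝓞 F, y ∈ I ↔ U.valuation (algebraMap F Ω y) < 1 := by
      intro y
      rw [hI, Ideal.mem_comap, H13S.in2Q_lt]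
      rfl
    have hIne : I ≠ ⊤ := by
      have : (H13S.in2Q U).IsPrime := H13S.in2Q_prime U
      exact (Ideal.IsPrime.comap _).ne_top
    have hle : Ideal.span {(p : 𝓞 F)} ≤ I := by
      rw [Ideal.span_singleton_le_iff_mem, hIm]
      simpa using hU
    have heq := hmax.eq_of_le hIne hle
    rw [← hIm, ← heq, Ideal.mem_span_singleton]
  exact x8_main p hp hV hV' fun z => by rw [hone V hV z, hone V' hV' z]

end H35L
end

-- from Lib.SSG.LT.EM
section

/-! # SSG/LT: the embedding of Ω in the algebraic closure of ℚ_p -/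

open NumberField IsDedekindDomain

namespace SSG.LT

variable {F : Type} [Field F] [NumberField F] {Ω : Type} [Field Ω] [Algebra F Ω] [IsAlgClosure F Ω] {p : ℕ} [Fact p.Prime]

/-! Chunk EM (M). PROOF. Ω has characteristic 0 and is algebraic over ℚ (algebraic over F, F over ℚ: Algebra.IsAlgebraic.trans; the algebra ℚ → Ω is DivisionRing.toRatAlgebra, IsScalarTower ℚ F Ω is automatic: Rat subsingleton), so there is
i₁ : Ω →ₐ[ℚ] PadicAlgCl p (IsAlgClosed.lift). V₀ = (H16S.ball (PadicAlgCl p)).comap i₁: x ∈ V₀ iff ‖i₁ x‖ ≤ 1; V₀.valuation p < 1: not ≥ 1, i.e. p⁻¹ ∉ V₀: ‖(p : PadicAlgCl p)‖ < 1 (PadicAlgCl.valuation_p or norm_extends, padicNormE.norm_p).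
H35L.conj_all p .. hin hV hV₀: t with t x ∈ V₀ ↔ x ∈ V; i₀ = i₁.comp t. -/

theorem em (hin : Prime (p : 𝓞 F)) (V : ValuationSubring Ω) (hV : V.valuation (p : Ω) < 1) :
    ∃ i₀ : Ω →+* PadicAlgCl p, ∀ x, x ∈ V ↔ ‖i₀ x‖ ≤ 1 := by
  have hp : p.Prime := Fact.out
  have hac : IsAlgClosed Ω := IsAlgClosure.isAlgClosed F
  have hal : Algebra.IsAlgebraic F Ω := IsAlgClosure.isAlgebraic
  have hch : CharZero Ω := charZero_of_injective_algebraMap (algebraMap F Ω).injective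
  have halQ : Algebra.IsAlgebraic ℚ F := inferInstance
  have hal2 : Algebra.IsAlgebraic ℚ Ω := Algebra.IsAlgebraic.trans ℚ F Ω
  set i₁ : Ω →ₐ[ℚ] PadicAlgCl p := IsAlgClosed.lift with hi₁
  set V₀ : ValuationSubring Ω := (H16S.ball (PadicAlgCl p)).comap (i₁ : Ω →+* PadicAlgCl p) with hV₀d
  have hmem : ∀ x, x ∈ V₀ ↔ ‖i₁ x‖ ≤ 1 := fun x => Iff.rfl
  have hpn : ‖(p : PadicAlgCl p)‖ < 1 := by
    have h1 : (p : PadicAlgCl p) = algebraMap ℚ_[p] (PadicAlgCl p) (p : ℚ_[p]) := (map_natCast _ p).symm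
    rw [h1, PadicAlgCl.norm_extends]
    exact Padic.norm_p_lt_one
  have hp0 : (p : PadicAlgCl p) ≠ 0 := by
    exact_mod_cast hp.ne_zero
  have hV₀ : V₀.valuation (p : Ω) < 1 := by
    by_contra hc
    push Not at hc
    have hpΩ : (p : Ω) ≠ 0 := by exact_mod_cast hp.ne_zero
    have h1 : V₀.valuation ((p : Ω)⁻¹) ≤ 1 := by
      rw [map_inv₀]
      exact inv_le_one_of_one_le₀ hc
    rw [V₀.valuation_le_one_iff, hmem, map_inv₀, map_natCast, norm_inv] at h1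
    have h2 : 0 < ‖(p : PadicAlgCl p)‖ := norm_pos_iff.mpr hp0
    have h3 : 1 < ‖(p : PadicAlgCl p)‖⁻¹ := (one_lt_inv₀ h2).mpr hpn
    exact absurd h1 (not_le.mpr h3)
  obtain ⟨t, ht⟩ := H35L.conj_all p hp hin hV hV₀
  refine ⟨(i₁ : Ω →+* PadicAlgCl p).comp (t : Ω →+* Ω), fun x => ?_⟩
  rw [← ht x, hmem]
  rfl

end SSG.LT
end

-- from Lib.SSG.LP.A
section

/-! # SSG/LP: the embedding for every place above p -/

open NumberField IsDedekindDomain

namespace SSG.LP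

/-! Chunk A (S/M). PROOF. SSG.LT.em with F := ℚ: Algebra ℚ Ω (DivisionRing.toRatAlgebra, characteristic 0), IsAlgClosure ℚ Ω: Ω is algebraically closed and algebraic over ℚ (as in the proof of SSG.LT.em); (p : 𝓞 ℚ) is prime: 𝓞 ℚ ≃+* ℤ
(Rat.ringOfIntegersEquiv), MulEquiv.prime_iff, Nat.prime_iff_prime_int. -/

/-- Every place of `Ω` above `p` comes from an embedding in `PadicAlgCl p`. -/
theorem em_all {F : Type} [Field F] [NumberField F] {Ω : Type} [Field Ω] [Algebra F Ω] [IsAlgClosure F Ω] {p : ℕ}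
    [Fact p.Prime] (V : ValuationSubring Ω) (hV : V.valuation (p : Ω) < 1) :
    ∃ i₀ : Ω →+* PadicAlgCl p, ∀ x, x ∈ V ↔ ‖i₀ x‖ ≤ 1 := by
  have hac : IsAlgClosed Ω := IsAlgClosure.isAlgClosed F
  have hal : Algebra.IsAlgebraic F Ω := IsAlgClosure.isAlgebraic
  have hch : CharZero Ω := charZero_of_injective_algebraMap (algebraMap F Ω).injective
  have halQ : Algebra.IsAlgebraic ℚ F := inferInstance
  have hal2 : Algebra.IsAlgebraic ℚ Ω := Algebra.IsAlgebraic.trans ℚ F Ω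
  have hcl : IsAlgClosure ℚ Ω := ⟨hac, hal2⟩
  have hp : p.Prime := Fact.out
  have hin : Prime (p : 𝓞 ℚ) := by
    rw [← MulEquiv.prime_iff Rat.ringOfIntegersEquiv.toMulEquiv]
    have h1 : Rat.ringOfIntegersEquiv.toMulEquiv (p : 𝓞 ℚ) = (p : ℤ) := map_natCast Rat.ringOfIntegersEquiv p
    rw [h1]
    exact Nat.prime_iff_prime_int.mp hp
  exact SSG.LT.em (F := ℚ) hin V hV

end SSG.LP
end

-- from Lib.H35L.C0
section

/-! # H35L, chunk C0 (M): the groups of the cyclotomic tower -/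

open NumberField IsDedekindDomain WeierstrassCurve

namespace H35L

open H55P (IQ Pt ac Inert Dec Nm)
open H35P (WAB)
open H55K (CMA Dta)
open H35K (Lev)

variable {F : Type} [Field F] [NumberField F] {Ω : Type} [Field Ω] [Algebra F Ω] [IsAlgClosure F Ω] {p : ℕ}

theorem c0_prim (F : Type) [Field F] [NumberField F] (Ω : Type) [Field Ω] [Algebra F Ω] [IsAlgClosure F Ω] {p : ℕ}
    (hp : p.Prime) (k : ℕ) : ∃ ζ : Ω, IsPrimitiveRoot ζ (p ^ k) := by
  have : IsAlgClosed Ω := IsAlgClosure.isAlgClosed F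
  have : CharZero Ω := charZero_of_injective_algebraMap (algebraMap F Ω).injective
  have : NeZero (p ^ k) := ⟨pow_ne_zero k hp.ne_zero⟩
  have : NeZero ((p ^ k : ℕ) : Ω) := ⟨by exact_mod_cast pow_ne_zero k hp.ne_zero⟩
  exact HasEnoughRootsOfUnity.exists_primitiveRoot Ω (p ^ k)

/-- Chunk C0a (S/M). Every s acts on the roots of unity of order dividing p^k by a power prime to p (Ω is algebraically closed of characteristic 0: a primitive root exists). -/
theorem root_pow (hp : p.Prime) (k : ℕ) (s : Ω ≃ₐ[F] Ω) : ∃ a : ℕ, a.Coprime p ∧ ∀ z : Ω, z ^ p ^ k = 1 → s z = z ^ a := by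
  rcases Nat.eq_zero_or_pos k with h0 | h0
  · subst h0
    refine ⟨1, Nat.coprime_one_left p, fun z hz => ?_⟩
    rw [pow_zero, pow_one] at hz
    rw [hz, map_one, one_pow]
  · obtain ⟨ζ, hζ⟩ := c0_prim F Ω hp k
    have : NeZero (p ^ k) := ⟨pow_ne_zero k hp.ne_zero⟩
    have h1 : IsPrimitiveRoot (s ζ) (p ^ k) := hζ.map_of_injective s.injective
    obtain ⟨i, _, hi, hi2⟩ := (hζ.isPrimitiveRoot_iff).1 h1
    refine ⟨i, Nat.Coprime.coprime_dvd_right (dvd_pow_self p h0.ne') hi, fun z hz => ?_⟩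
    obtain ⟨j, _, hj⟩ := hζ.eq_pow_of_pow_eq_one hz
    rw [← hj, map_pow, ← hi2, ← pow_mul, ← pow_mul, mul_comm]

/-- Chunk C0a (S/M). A criterion: with a primitive p^(n+1)-th root of unity in Ω, a is determined modulo p^(n+1). -/
theorem gc_root (hp : p.Prime) {n a : ℕ} {s : Ω ≃ₐ[F] Ω} (ha : ∀ z : Ω, z ^ p ^ (n + 1) = 1 → s z = z ^ a) :
    Gc p n s ↔ a ^ (p - 1) ≡ 1 [MOD p ^ (n + 1)] := by
  constructor
  · rintro ⟨a', h1, h2⟩
    obtain ⟨ζ, hζ⟩ := c0_prim F Ω hp (n + 1)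
    have h3 : ζ ^ a = ζ ^ a' := by
      rw [← ha ζ hζ.pow_eq_one, ← h2 ζ hζ.pow_eq_one]
    have h4 : a % p ^ (n + 1) = a' % p ^ (n + 1) := by
      refine hζ.pow_inj (Nat.mod_lt _ (pow_pos hp.pos _)) (Nat.mod_lt _ (pow_pos hp.pos _)) ?_
      rw [hζ.eq_orderOf, pow_mod_orderOf, pow_mod_orderOf, h3]
    exact (Nat.ModEq.pow (p - 1) h4).trans h1
  · intro h
    exact ⟨a, h, ha⟩

/-- Chunk C0b (S). root_pow, Fermat. -/
theorem gc_zero (hp : p.Prime) (s : Ω ≃ₐ[F] Ω) : Gc p 0 s := by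
  obtain ⟨a, ha, h⟩ := root_pow hp 1 s
  refine ⟨a, ?_, by simpa using h⟩
  have h1 := Nat.ModEq.pow_totient ha
  rw [Nat.totient_prime hp] at h1
  simpa using h1

/-- Chunk C0b (S). -/
theorem gc_mul {n : ℕ} {s t : Ω ≃ₐ[F] Ω} (hs : Gc p n s) (ht : Gc p n t) : Gc p n (s * t) := by
  obtain ⟨a, ha, h1⟩ := hs
  obtain ⟨b, hb, h2⟩ := ht
  refine ⟨a * b, ?_, fun z hz => ?_⟩
  · rw [mul_pow]
    simpa using ha.mul hb
  · rw [AlgEquiv.mul_apply, h2 z hz, map_pow, h1 z hz, pow_mul]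

/-- Chunk C0b (S/M). s^-1 z = z^b with a b = 1 modulo p^(n+1); or s^-1 = a power of s on the roots of unity. -/
theorem gc_inv (hp : p.Prime) {n : ℕ} {s : Ω ≃ₐ[F] Ω} (hs : Gc p n s) : Gc p n s⁻¹ := by
  obtain ⟨a, ha, h1⟩ := hs
  have h2 : a * a ^ (p - 2) = a ^ (p - 1) := by
    rw [← pow_succ']
    congr 1
    have := hp.two_le
    omega
  refine ⟨a ^ (p - 2), ?_, fun z hz => ?_⟩
  · rw [← pow_mul, mul_comm, pow_mul]
    simpa using ha.pow (p - 2)
  · have h3 : s (z ^ a ^ (p - 2)) = z := by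
      rw [map_pow, h1 z hz, ← pow_mul, h2]
      have h4 : z ^ a ^ (p - 1) = z ^ 1 := by
        have h6 : a ^ (p - 1) % orderOf z = 1 % orderOf z := ha.of_dvd (orderOf_dvd_of_pow_eq_one hz)
        rw [← pow_mod_orderOf z (a ^ (p - 1)), h6, pow_mod_orderOf]
      rw [h4, pow_one]
    rw [← h3]
    have h5 : s⁻¹ (s (z ^ a ^ (p - 2))) = z ^ a ^ (p - 2) := s.symm_apply_apply _
    rw [h5, h3]

/-- Chunk C0b (S). -/
theorem gc_le {m n : ℕ} (h : m ≤ n) {s : Ω ≃ₐ[F] Ω} (hs : Gc p n s) : Gc p m s := by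
  classical
  induction n, h using Nat.le_induction with
  | base => exact hs
  | succ n _ ih => exact ih (Gc_mono hs)

/-- The subgroup of level n of G. -/
def LG (hp : p.Prime) (G : Subgroup (Ω ≃ₐ[F] Ω)) (n : ℕ) : Subgroup (Ω ≃ₐ[F] Ω) where
  carrier := {s | SN G p n s}
  one_mem' := ⟨one_mem G, 1, by rw [one_pow], fun z _ => (pow_one z).symm⟩
  mul_mem' := fun hs ht => ⟨mul_mem hs.1 ht.1, gc_mul hs.2 ht.2⟩
  inv_mem' := fun hs => ⟨inv_mem hs.1, gc_inv hp hs.2⟩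

end H35L
end

-- from Lib.H35L.C0C
section

/-! # H35L, chunk C0C (M): a generator -/

open NumberField IsDedekindDomain WeierstrassCurve

namespace H35L

open H55P (IQ Pt ac Inert Dec Nm)
open H35P (WAB)
open H55K (CMA Dta)
open H35K (Lev)

variable {F : Type} [Field F] [NumberField F] {Ω : Type} [Field Ω] [Algebra F Ω] [IsAlgClosure F Ω] {p : ℕ}

theorem c0c_pow {s : Ω ≃ₐ[F] Ω} {k a : ℕ} (h : ∀ z : Ω, z ^ p ^ k = 1 → s z = z ^ a) (m : ℕ) (z : Ω)
    (hz : z ^ p ^ k = 1) : (s ^ m) z = z ^ (a ^ m) := by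
  induction m generalizing z with
  | zero => rw [pow_zero, pow_zero, pow_one]; rfl
  | succ m ih =>
    rw [pow_succ s m, AlgEquiv.mul_apply, h z hz, ih (z ^ a) (by rw [← pow_mul, mul_comm, pow_mul, hz, one_pow]), ← pow_mul,
      pow_succ, mul_comm a]

theorem c0c_lte (hp : p.Prime) (h3 : 3 ≤ p) {c : ℕ} (h1 : c ≡ 1 [MOD p]) (h2 : ¬ c ≡ 1 [MOD p ^ 2]) (m : ℕ) :
    ∃ y : ℕ, c ^ p ^ m = 1 + y * p ^ (m + 1) ∧ ¬ p ∣ y := by
  haveI := Fact.mk hp
  have hc0 : 1 ≤ c := by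
    rcases Nat.eq_zero_or_pos c with h | h
    · exfalso
      rw [h] at h1
      have h4 := (Nat.modEq_zero_iff_dvd.1 h1.symm)
      exact hp.one_lt.ne' (Nat.dvd_one.1 h4)
    · exact h
  have hc1 : 1 < c := by
    rcases Nat.lt_or_ge 1 c with h | h
    · exact h
    · exfalso
      have h4 : c = 1 := by omega
      rw [h4] at h2
      exact h2 rfl
  have hd : p ∣ c - 1 := (Nat.modEq_iff_dvd' hc0).1 h1.symm
  have hnd : ¬ p ^ 2 ∣ c - 1 := fun h => h2 ((Nat.modEq_iff_dvd' hc0).2 h).symm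
  have hpc : ¬ p ∣ c := by
    intro h
    have h4 : p ∣ 1 := by
      have h5 := (Nat.dvd_sub h hd)
      rwa [Nat.sub_sub_self hc0] at h5
    exact hp.one_lt.ne' (Nat.dvd_one.1 h4)
  have hodd : Odd p := hp.odd_of_ne_two (by omega)
  have hv1 : padicValNat p (c - 1) = 1 := by
    have h5 : 1 ≤ padicValNat p (c - 1) := one_le_padicValNat_of_dvd (by omega) hd
    have h6 : padicValNat p (c - 1) < 2 := by
      by_contra h7
      push Not at h7
      exact hnd ((padicValNat_dvd_iff_le (by omega)).2 h7)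
    omega
  have hv : padicValNat p (c ^ p ^ m - 1 ^ p ^ m) = m + 1 := by
    rw [padicValNat.pow_sub_pow hodd hc1 hd hpc (pow_pos hp.pos m).ne', hv1, padicValNat.prime_pow]
    omega
  rw [one_pow] at hv
  have hne : c ^ p ^ m - 1 ≠ 0 := by
    have := Nat.one_lt_pow (pow_pos hp.pos m).ne' hc1
    omega
  obtain ⟨y, hy⟩ := (padicValNat_dvd_iff_le hne).2 hv.ge
  refine ⟨y, ?_, ?_⟩
  · have := Nat.one_le_pow (p ^ m) c hc0
    rw [mul_comm y, ← hy]
    omega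
  · rintro ⟨w, hw⟩
    have h7 : p ^ (m + 1 + 1) ∣ c ^ p ^ m - 1 := ⟨w, by rw [hy, hw, pow_succ p (m + 1)]; ring⟩
    have h8 := (padicValNat_dvd_iff_le hne).1 h7
    omega

/-- Chunk C0c (S/M). a^(p-1) = 1 + p x, so a^((p-1) p^n) = 1 modulo p^(n+1). -/
theorem gc_powp (hp : p.Prime) (γ : Ω ≃ₐ[F] Ω) (n : ℕ) : Gc p n (γ ^ p ^ n) := by
  obtain ⟨a, ha, h1⟩ := root_pow hp (n + 1) γ
  refine ⟨a ^ p ^ n, ?_, fun z hz => c0c_pow h1 (p ^ n) z hz⟩
  have h2 := Nat.ModEq.pow_totient (Nat.Coprime.pow_right (n + 1) ha)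
  rw [Nat.totient_prime_pow_succ hp] at h2
  rw [← pow_mul]
  exact h2

/-- Chunk C0c (M). p odd, gamma a generator, s of level n <= m: gamma^(i p^n) s is of level m for some i. u = a^(p-1) for s is 1 modulo p^(n+1), c = b^(p-1) for gamma is 1 modulo p, not modulo p^2. The numbers = 1 modulo p^(n+1) form
a cyclic group modulo p^(m+1) of order p^(m-n) generated by c^(p^n) (which is 1 modulo p^(n+1), not modulo p^(n+2); induction on m: if c^(i p^n) u = 1 + x p^(m+1) and c^(p^m) = 1 + y p^(m+1) modulo p^(m+2), y prime to p, then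
c^(i p^n + l p^m) u = 1 + (x + l y) p^(m+1) modulo p^(m+2)). -/
theorem gc_gen (hp : p.Prime) (h3 : 3 ≤ p) {γ s : Ω ≃ₐ[F] Ω} (hγ : Gen p γ) {n m : ℕ} (hnm : n ≤ m) (hs : Gc p n s) :
    ∃ i : ℕ, Gc p m (γ ^ (i * p ^ n) * s) := by
  induction m, hnm using Nat.le_induction with
  | base => exact ⟨0, by rw [zero_mul, pow_zero, one_mul]; exact hs⟩
  | succ m hnm ih =>
    obtain ⟨i, hi⟩ := ih
    set g := γ ^ (i * p ^ n) * s with hg
    obtain ⟨a, ha, ha1⟩ := root_pow hp (m + 1 + 1) g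
    obtain ⟨b, hb, hb1⟩ := root_pow hp (m + 1 + 1) γ
    have hlow : ∀ k, k ≤ m + 1 + 1 → ∀ z : Ω, z ^ p ^ k = 1 → z ^ p ^ (m + 1 + 1) = 1 := by
      intro k hk z hz
      obtain ⟨d, hd⟩ := Nat.exists_eq_add_of_le hk
      rw [hd, pow_add, pow_mul, hz, one_pow]
    have hu : a ^ (p - 1) ≡ 1 [MOD p ^ (m + 1)] :=
      (gc_root hp (n := m) (a := a) (s := g) fun z hz => ha1 z (hlow _ (by omega) z hz)).1 hi
    have hc2 : ¬ b ^ (p - 1) ≡ 1 [MOD p ^ 2] := fun h =>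
      hγ ((gc_root hp (n := 1) (a := b) (s := γ) fun z hz => hb1 z (hlow _ (by omega) z hz)).2 h)
    have hc1 : b ^ (p - 1) ≡ 1 [MOD p] := by
      have h5 := Nat.ModEq.pow_totient hb
      rwa [Nat.totient_prime hp] at h5
    obtain ⟨y, hy, hyp⟩ := c0c_lte hp h3 hc1 hc2 m
    have ha0 : 1 ≤ a ^ (p - 1) := by
      have h6 : a ≠ 0 := by
        rintro rfl
        rw [Nat.coprime_zero_left] at ha
        exact hp.one_lt.ne' ha
      exact Nat.one_le_pow _ _ (Nat.pos_of_ne_zero h6)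
    obtain ⟨x, hx⟩ := (Nat.modEq_iff_dvd' ha0).1 hu.symm
    have hx' : a ^ (p - 1) = 1 + x * p ^ (m + 1) := by
      rw [mul_comm x, ← hx]
      omega
    have hl : ∃ l : ℕ, p ∣ x + l * y := by
      have hcop : Nat.Coprime y p := ((Nat.Prime.coprime_iff_not_dvd hp).2 hyp).symm
      have hu1 : IsUnit (y : ZMod p) := (ZMod.isUnit_iff_coprime y p).2 hcop
      obtain ⟨v, hv⟩ := hu1.exists_right_inv
      haveI : NeZero p := ⟨hp.ne_zero⟩
      refine ⟨(-(x : ZMod p) * v).val, ?_⟩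
      rw [← ZMod.natCast_eq_zero_iff]
      push_cast
      rw [ZMod.natCast_val, ZMod.cast_id', id_eq, mul_assoc, mul_comm v, hv]
      ring
    obtain ⟨l, hl⟩ := hl
    refine ⟨l * p ^ (m - n) + i, ?_⟩
    have he : γ ^ ((l * p ^ (m - n) + i) * p ^ n) * s = γ ^ (l * p ^ m) * g := by
      rw [hg, ← mul_assoc, ← pow_add]
      congr 2
      have : p ^ m = p ^ (m - n) * p ^ n := by rw [← pow_add]; congr 1; omega
      rw [this]
      ring
    rw [he]
    refine (gc_root hp (n := m + 1) (a := b ^ (l * p ^ m) * a) (s := γ ^ (l * p ^ m) * g) fun z hz => ?_).2 ?_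
    · rw [AlgEquiv.mul_apply, ha1 z hz, c0c_pow hb1 (l * p ^ m) (z ^ a) (by rw [← pow_mul, mul_comm, pow_mul, hz, one_pow]), ← pow_mul,
        mul_comm a]
    · have h7 : (b ^ (l * p ^ m) * a) ^ (p - 1) = (1 + y * p ^ (m + 1)) ^ l * (1 + x * p ^ (m + 1)) := by
        rw [mul_pow, hx', ← hy, ← pow_mul, ← pow_mul, ← pow_mul]
        congr 2
        ring
      rw [h7]
      have h8 : ∀ r : ℕ, (1 + y * p ^ (m + 1)) ^ r ≡ 1 + r * y * p ^ (m + 1) [MOD p ^ (m + 1 + 1)] := by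
        intro r
        induction r with
        | zero => rw [pow_zero, zero_mul, zero_mul, add_zero]
        | succ r ih =>
          rw [pow_succ]
          refine (ih.mul_right _).trans ?_
          have h9 : (1 + r * y * p ^ (m + 1)) * (1 + y * p ^ (m + 1)) =
              1 + (r + 1) * y * p ^ (m + 1) + p ^ (m + 1 + 1) * (r * y * y * p ^ m) := by ring
          rw [h9]
          push_cast
          exact Nat.ModEq.trans (Nat.ModEq.add_left _ ((Nat.modEq_zero_iff_dvd).2 (dvd_mul_right _ _))) (by rw [add_zero])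
      refine ((h8 l).mul_right _).trans ?_
      obtain ⟨w, hw⟩ := hl
      have h9 : (1 + l * y * p ^ (m + 1)) * (1 + x * p ^ (m + 1)) =
          1 + p ^ (m + 1 + 1) * w + p ^ (m + 1 + 1) * (l * y * x * p ^ m) := by
        have h10 : (1 + l * y * p ^ (m + 1)) * (1 + x * p ^ (m + 1)) =
          1 + (x + l * y) * p ^ (m + 1) + p ^ (m + 1 + 1) * (l * y * x * p ^ m) := by ring
        rw [h10, hw]
        ring
      rw [h9]
      refine (Nat.modEq_iff_dvd' (by omega)).2 ⟨w + l * y * x * p ^ m, ?_⟩ |>.symm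
      rw [mul_add]
      omega

end H35L
end

-- from Lib.H35L.C0D
section

/-! # H35L, chunk C0D (M): the index -/

open NumberField IsDedekindDomain WeierstrassCurve

namespace H35L

open H55P (IQ Pt ac Inert Dec Nm)
open H35P (WAB)
open H55K (CMA Dta)
open H35K (Lev)

variable {F : Type} [Field F] [NumberField F] {Ω : Type} [Field Ω] [Algebra F Ω] [IsAlgClosure F Ω] {p : ℕ}

theorem c0d_lte (hp : p.Prime) (h3 : 3 ≤ p) {c : ℕ} (h1 : c ≡ 1 [MOD p]) (h2 : ¬ c ≡ 1 [MOD p ^ 2]) (n k : ℕ) :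
    c ^ k ≡ 1 [MOD p ^ (n + 1)] ↔ p ^ n ∣ k := by
  have hodd : Odd p := hp.odd_of_ne_two (by omega)
  have hd : (p : ℤ) ∣ (c : ℤ) - 1 := by
    have := (Nat.modEq_iff_dvd.1 h1.symm)
    simpa using this
  have hc : ¬ (p : ℤ) ∣ (c : ℤ) := by
    intro h
    have h4 : (p : ℤ) ∣ 1 := by
      have := dvd_sub h hd
      simpa using this
    have h5 : p ∣ 1 := by exact_mod_cast h4
    exact hp.one_lt.ne' (Nat.dvd_one.1 h5)
  have hd2 : ¬ (p : ℤ) ^ 2 ∣ (c : ℤ) - 1 := by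
    intro h
    refine h2 (Nat.modEq_iff_dvd.2 ?_).symm
    push_cast
    exact h
  have hm : emultiplicity (p : ℤ) ((c : ℤ) - 1) = 1 := by
    have := (emultiplicity_eq_coe (a := (p : ℤ)) (b := (c : ℤ) - 1) (n := 1)).2 ⟨by simpa using hd, by simpa using hd2⟩
    simpa using this
  have hl := Int.emultiplicity_pow_sub_pow hp hodd hd hc k
  rw [one_pow, hm] at hl
  have h6 : c ^ k ≡ 1 [MOD p ^ (n + 1)] ↔ (p : ℤ) ^ (n + 1) ∣ (c : ℤ) ^ k - 1 := by
    rw [Nat.ModEq.comm, Nat.modEq_iff_dvd]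
    push_cast
    rfl
  rw [h6, pow_dvd_iff_le_emultiplicity, hl, pow_dvd_iff_le_emultiplicity]
  push_cast
  rw [add_comm (n : ℕ∞) 1]
  exact WithTop.add_le_add_iff_left (by decide)

theorem c0d_pow {N b : ℕ} {γ : Ω ≃ₐ[F] Ω} (h : ∀ z : Ω, z ^ N = 1 → γ z = z ^ b) (k : ℕ) (z : Ω) (hz : z ^ N = 1) :
    (γ ^ k) z = z ^ b ^ k := by
  induction k with
  | zero => simp
  | succ k ih =>
    rw [pow_succ, AlgEquiv.mul_apply, h z hz, map_pow, ih, ← pow_mul, pow_succ]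

/-- Chunk C0d (S/M). gamma^k is of level n iff p^n divides k (c as in gc_gen: c^k = 1 modulo p^(n+1) iff p^n divides k; only n >= 1 is not trivial). -/
theorem gc_pow_iff (hp : p.Prime) (h3 : 3 ≤ p) {γ : Ω ≃ₐ[F] Ω} (hγ : Gen p γ) (n k : ℕ) : Gc p n (γ ^ k) ↔ p ^ n ∣ k := by
  rcases Nat.eq_zero_or_pos n with h0 | h0
  · subst h0
    rw [pow_zero]
    exact ⟨fun _ => one_dvd k, fun _ => gc_zero hp _⟩
  obtain ⟨b, hb, hb2⟩ := root_pow hp (n + 1) γ
  rw [gc_root hp (c0d_pow hb2 k), ← pow_mul, mul_comm, pow_mul]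
  refine c0d_lte hp h3 ?_ ?_ n k
  · have h1 := Nat.ModEq.pow_totient hb
    rwa [Nat.totient_prime hp] at h1
  · intro h4
    refine hγ ((gc_root hp (n := 1) (a := b) fun z hz => hb2 z ?_).2 h4)
    obtain ⟨m, rfl⟩ : ∃ m, n = m + 1 := ⟨n - 1, by omega⟩
    rw [show m + 1 + 1 = (1 + 1) + m by ring, pow_add, pow_mul, hz, one_pow]

/-- Chunk C0d (S/M). The index of the group of level n in G is p^n: the cosets of gamma^i, i < p^n (gc_gen with n := 0, m := n; gc_pow_iff). -/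
theorem lg_index (hp : p.Prime) (h3 : 3 ≤ p) {G : Subgroup (Ω ≃ₐ[F] Ω)} {γ : Ω ≃ₐ[F] Ω} (hγG : γ ∈ G) (hγ : Gen p γ) (n : ℕ) :
    (LG hp G n).relIndex G = p ^ n := by
  have hmem : ∀ s : Ω ≃ₐ[F] Ω, s ∈ LG hp G n ↔ s ∈ G ∧ Gc p n s := fun s => Iff.rfl
  let g : G := ⟨γ, hγG⟩
  let f : Fin (p ^ n) → G ⧸ (LG hp G n).subgroupOf G := fun i => QuotientGroup.mk (g ^ (i : ℕ))
  have hinj : ∀ i j : ℕ, i ≤ j → j < p ^ n → (QuotientGroup.mk (g ^ i) : G ⧸ (LG hp G n).subgroupOf G) = QuotientGroup.mk (g ^ j) → i = j := by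
    intro i j hij hj h
    rw [QuotientGroup.eq, Subgroup.mem_subgroupOf, hmem] at h
    have h1 : (((g ^ i)⁻¹ * g ^ j : G) : Ω ≃ₐ[F] Ω) = γ ^ (j - i) := by
      have h2 : g ^ j = g ^ i * g ^ (j - i) := by rw [← pow_add, Nat.add_sub_cancel' hij]
      rw [h2, inv_mul_cancel_left]
      rfl
    rw [h1, gc_pow_iff hp h3 hγ] at h
    have := Nat.eq_zero_of_dvd_of_lt h.2 (by omega)
    omega
  have hbij : Function.Bijective f := by
    constructor
    · intro i j h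
      rcases le_total (i : ℕ) (j : ℕ) with hij | hij
      · exact Fin.ext (hinj _ _ hij j.2 h)
      · exact Fin.ext (hinj _ _ hij i.2 h.symm).symm
    · intro q
      obtain ⟨s, rfl⟩ := QuotientGroup.mk_surjective q
      obtain ⟨i, hi⟩ := gc_gen hp h3 hγ (Nat.zero_le n) (gc_zero hp (s : Ω ≃ₐ[F] Ω))
      rw [pow_zero, mul_one] at hi
      have hpos : 0 < p ^ n := pow_pos hp.pos n
      let j : ℕ := (p ^ n - i % p ^ n) % p ^ n
      have hj : j < p ^ n := Nat.mod_lt _ hpos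
      have hij : p ^ n ∣ j + i := by
        have h1 : i % p ^ n < p ^ n := Nat.mod_lt _ hpos
        have h2 : j + i ≡ (p ^ n - i % p ^ n) + i % p ^ n [MOD p ^ n] :=
          Nat.ModEq.add (Nat.mod_modEq _ _) (Nat.mod_modEq _ _).symm
        rw [Nat.sub_add_cancel h1.le] at h2
        exact (Nat.modEq_zero_iff_dvd.1 (h2.trans (Nat.modEq_zero_iff_dvd.2 dvd_rfl)))
      refine ⟨⟨j, hj⟩, ?_⟩
      change QuotientGroup.mk (g ^ j) = QuotientGroup.mk s
      rw [QuotientGroup.eq, Subgroup.mem_subgroupOf]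
      have h5 : (((g ^ j)⁻¹ * s : G) : Ω ≃ₐ[F] Ω) = (γ ^ (j + i))⁻¹ * (γ ^ i * (s : Ω ≃ₐ[F] Ω)) := by
        have h6 : (g ^ j)⁻¹ * s = (g ^ (j + i))⁻¹ * (g ^ i * s) := by
          rw [pow_add]
          group
        rw [h6]
        rfl
      rw [h5]
      refine mul_mem (inv_mem ?_) ?_
      · exact (hmem _).2 ⟨pow_mem hγG _, (gc_pow_iff hp h3 hγ _ _).2 hij⟩
      · exact (hmem _).2 ⟨mul_mem (pow_mem hγG _) s.2, hi⟩
  have h7 : Nat.card (Fin (p ^ n)) = Nat.card (G ⧸ (LG hp G n).subgroupOf G) := Nat.card_eq_of_bijective f hbij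
  rw [Nat.card_fin] at h7
  exact h7.symm

end H35L
end
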