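import Mathlib
import Pool.Agent.Lib.H1M.PP2.D_H13D_MD
import Pool.Agent.Lib.H1M.PP2.D_H55K_D2
import Pool.Agent.Lib.H1M.PP2.D_H55P_Sel
import Pool.Agent.Lib.H1M.PP2.M005
import Pool.Agent.Lib.H1M.PP2.M019
import Pool.Agent.Lib.H1M.PP2.M020
import Pool.Agent.Lib.H1M.PP2.M022
import Pool.Agent.Lib.H1M.PP2.M030
import Pool.Agent.Lib.H1M.PP2.M048
import Pool.Agent.Lib.H1M.PP2.M051
import Pool.Agent.Lib.H1M.PP2.M054
import Pool.Agent.Lib.H1M.PP2.M062
import Pool.Agent.Lib.H1M.PP2.M083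

/-! Merged copies (to shorten the build) of Lib.H13D.MD_T, Lib.H13D.M1, Lib.H13D.M2, Lib.H13D.M4, Lib.H13D.M3, Lib.H13D.M5, Lib.H13D.M6, Lib.H19B.ST1, Lib.SSG.E.A6, Lib.SSG.E.A7, Lib.SSG.E.A8, Lib.SSG.E.A9. -/

-- from Lib.H13D.MD_T
section

/-! # H13D, part M: minimal equations: definitions -/

open NumberField IsDedekindDomain WeierstrassCurve

namespace H13D

open H55P (IQ embF eF LF Per IsHecke Pt ac Inert Dec Nm)
open H55K

/-- The coefficients of the equation are integral. -/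
structure VI {k Γ : Type} [Field k] [LinearOrderedCommGroupWithZero Γ] (v : Valuation k Γ) (E : WeierstrassCurve k) : Prop where
  a1 : v E.a₁ ≤ 1
  a2 : v E.a₂ ≤ 1
  a3 : v E.a₃ ≤ 1
  a4 : v E.a₄ ≤ 1
  a6 : v E.a₆ ≤ 1



/-- σ is the complex conjugation of F. -/
def Cj {F : Type} [Field F] [NumberField F] [IQ F] (σ : F ≃ₐ[ℚ] F) : Prop := ∀ a : 𝓞 F, σ (a : F) = ((cj a : 𝓞 F) : F)

end H13D
end

-- from Lib.H13D.M1
section

/-! # H13D, part M: changes of variables between integral equations -/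

open NumberField IsDedekindDomain WeierstrassCurve

namespace H13D

variable {k Γ : Type} [Field k] [LinearOrderedCommGroupWithZero Γ] {v : Valuation k Γ} {E : WeierstrassCurve k}

/-- A step of the Horner scheme. -/
theorem m1_add {y c : k} (hy : 1 < v y) (hc : v c ≤ 1) : 1 < v (y + c) := by
  rw [Valuation.map_add_eq_of_lt_left v (lt_of_le_of_lt hc hy)]
  exact hy

theorem m1_mul {x y : k} (hx : 1 < v x) (hy : 1 < v y) : 1 < v (x * y) := by
  rw [map_mul]
  exact one_lt_mul'' hx hy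

theorem m1_unit (e : k) (he : v e = 1) {y : k} (hy : 1 < v y) : 1 < v (e * y) := by
  rw [map_mul, he, one_mul]
  exact hy

theorem m1_b (hE : VI v E) : v E.b₂ ≤ 1 ∧ v E.b₄ ≤ 1 ∧ v E.b₆ ≤ 1 ∧ v E.b₈ ≤ 1 := by
  obtain ⟨h1, h2, h3, h4, h6⟩ := hE
  have g : ∀ n : ℕ, (n : k) ∈ v.integer := fun n => natCast_mem _ n
  have g4 : (4 : k) ∈ v.integer := by exact_mod_cast g 4
  have g2 : (2 : k) ∈ v.integer := by exact_mod_cast g 2
  change E.a₁ ∈ v.integer at h1
  change E.a₂ ∈ v.integer at h2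
  change E.a₃ ∈ v.integer at h3
  change E.a₄ ∈ v.integer at h4
  change E.a₆ ∈ v.integer at h6
  refine ⟨?_, ?_, ?_, ?_⟩
  · change E.b₂ ∈ v.integer
    rw [WeierstrassCurve.b₂]
    exact add_mem (pow_mem h1 2) (mul_mem g4 h2)
  · change E.b₄ ∈ v.integer
    rw [WeierstrassCurve.b₄]
    exact add_mem (mul_mem g2 h4) (mul_mem h1 h3)
  · change E.b₆ ∈ v.integer
    rw [WeierstrassCurve.b₆]
    exact add_mem (pow_mem h3 2) (mul_mem g4 h6)
  · change E.b₈ ∈ v.integer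
    rw [WeierstrassCurve.b₈]
    exact sub_mem (add_mem (sub_mem (add_mem (mul_mem (pow_mem h1 2) h6) (mul_mem (mul_mem g4 h2) h6))
      (mul_mem (mul_mem h1 h3) h4)) (mul_mem h2 (pow_mem h3 2))) (pow_mem h4 2)

/-- Chunk M1 (M). v of an integer is ≤ 1. V(2) = 1 or V(3) = 1 (3 - 2 = 1). The quantities b₂, b₄, b₆, b₈ of both equations are integral. r: suppose V(r) > 1. If V(3) = 1: b₈' = b₈ + 3 r b₆ + 3 r^2 b₄ + r^3 b₂ + 3 r^4 (variableChange_b₈, u = 1) has the value V(r)^4 > 1 (the other terms have value ≤ V(r)^3): contradiction. If V(2) = 1: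
b₆' = b₆ + 2 r b₄ + r^2 b₂ + 4 r^3 has the value V(r)^3 > 1: contradiction. s: s^2 + a₁ s = a₂ - a₂' + 3 r (variableChange_a₂) is integral; if V(s) > 1 then V(s^2 + a₁ s) = V(s)^2 > 1. t: t^2 + (a₃ + r a₁) t = a₆ + r a₄ + r^2 a₂ + r^3 - a₆' is integral: the same argument. -/
theorem vi_uniq (hE : VI v E) {r s t : k} (hE' : VI v ((⟨1, r, s, t⟩ : VariableChange k) • E)) : v r ≤ 1 ∧ v s ≤ 1 ∧ v t ≤ 1 := by
  have g : ∀ n : ℕ, (n : k) ∈ v.integer := fun n => natCast_mem _ n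
  have g2 : (2 : k) ∈ v.integer := by exact_mod_cast g 2
  have g3 : (3 : k) ∈ v.integer := by exact_mod_cast g 3
  obtain ⟨hb2, hb4, hb6, hb8⟩ := m1_b hE
  obtain ⟨hb2', hb4', hb6', hb8'⟩ := m1_b hE'
  obtain ⟨h1, h2, h3, h4, h6⟩ := hE
  obtain ⟨h1', h2', h3', h4', h6'⟩ := hE'
  rw [variableChange_b₆] at hb6'
  rw [variableChange_b₈] at hb8'
  rw [variableChange_a₂] at h2'
  rw [variableChange_a₆] at h6'
  simp only [inv_one, Units.val_one, one_pow, one_mul] at hb6' hb8' h2' h6'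
  change E.a₁ ∈ v.integer at h1
  change E.a₂ ∈ v.integer at h2
  change E.a₃ ∈ v.integer at h3
  change E.a₄ ∈ v.integer at h4
  change E.a₆ ∈ v.integer at h6
  change E.b₂ ∈ v.integer at hb2
  change E.b₄ ∈ v.integer at hb4
  change E.b₆ ∈ v.integer at hb6
  change E.b₈ ∈ v.integer at hb8
  -- `r`
  have hr : v r ≤ 1 := by
    by_contra hlt
    rw [not_le] at hlt
    have h23 : v (2 : k) = 1 ∨ v (3 : k) = 1 := by
      by_contra hcon
      rw [not_or] at hcon
      have l2 : v (2 : k) < 1 := lt_of_le_of_ne g2 hcon.1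
      have l3 : v (3 : k) < 1 := lt_of_le_of_ne g3 hcon.2
      have e : (1 : k) = 3 - 2 := by norm_num
      have := Valuation.map_sub_lt v l3 l2
      rw [← e, map_one] at this
      exact lt_irrefl _ this
    rcases h23 with h | h
    · have e4 : v (4 : k) = 1 := by
        have : (4 : k) = 2 * 2 := by norm_num
        rw [this, map_mul, h, one_mul]
      have k1 : 1 < v (4 * r) := m1_unit 4 e4 hlt
      have k2 := m1_mul hlt (m1_add k1 hb2)
      have k3 := m1_mul hlt (m1_add k2 (mul_mem g2 hb4))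
      have k4 := m1_add k3 hb6
      have e : E.b₆ + 2 * r * E.b₄ + r ^ 2 * E.b₂ + 4 * r ^ 3 = r * (r * (4 * r + E.b₂) + 2 * E.b₄) + E.b₆ := by ring
      rw [e] at hb6'
      exact absurd hb6' (not_le.2 k4)
    · have k1 : 1 < v (3 * r) := m1_unit 3 h hlt
      have k2 := m1_mul hlt (m1_add k1 hb2)
      have k3 := m1_mul hlt (m1_add k2 (mul_mem g3 hb4))
      have k4 := m1_mul hlt (m1_add k3 (mul_mem g3 hb6))
      have k5 := m1_add k4 hb8
      have e : E.b₈ + 3 * r * E.b₆ + 3 * r ^ 2 * E.b₄ + r ^ 3 * E.b₂ + 3 * r ^ 4 =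
        r * (r * (r * (3 * r + E.b₂) + 3 * E.b₄) + 3 * E.b₆) + E.b₈ := by ring
      rw [e] at hb8'
      exact absurd hb8' (not_le.2 k5)
  have hr' : r ∈ v.integer := hr
  -- a quadratic equation
  have quad : ∀ x b c : k, x ^ 2 + b * x = c → b ∈ v.integer → c ∈ v.integer → v x ≤ 1 := by
    intro x b c e hb hc
    by_contra hlt
    rw [not_le] at hlt
    have k1 := m1_mul hlt (m1_add hlt hb)
    have e' : x * (x + b) = c := by rw [← e]; ring
    rw [e'] at k1
    exact absurd hc (not_le.2 k1)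
  refine ⟨hr, quad s E.a₁ (E.a₂ + 3 * r - (E.a₂ - s * E.a₁ + 3 * r - s ^ 2)) (by ring) h1 ?_,
    quad t (E.a₃ + r * E.a₁) (E.a₆ + r * E.a₄ + r ^ 2 * E.a₂ + r ^ 3 -
      (E.a₆ + r * E.a₄ + r ^ 2 * E.a₂ + r ^ 3 - t * E.a₃ - t ^ 2 - r * t * E.a₁)) (by ring) ?_ ?_⟩
  · exact sub_mem (add_mem h2 (mul_mem g3 hr')) h2'
  · exact add_mem h3 (mul_mem hr' h1)
  · exact sub_mem (add_mem (add_mem (add_mem h6 (mul_mem hr' h4)) (mul_mem (pow_mem hr' 2) h2)) (pow_mem hr' 3)) h6'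

/-- Chunk M1 (S). The formulas variableChange_a₁, .. with u = 1. -/
theorem vi_change (hE : VI v E) {r s t : k} (hr : v r ≤ 1) (hs : v s ≤ 1) (ht : v t ≤ 1) :
    VI v ((⟨1, r, s, t⟩ : VariableChange k) • E) := by
  have g : ∀ n : ℕ, (n : k) ∈ v.integer := fun n => natCast_mem _ n
  have g2 : (2 : k) ∈ v.integer := by exact_mod_cast g 2
  have g3 : (3 : k) ∈ v.integer := by exact_mod_cast g 3
  obtain ⟨h1, h2, h3, h4, h6⟩ := hE
  change E.a₁ ∈ v.integer at h1
  change E.a₂ ∈ v.integer at h2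
  change E.a₃ ∈ v.integer at h3
  change E.a₄ ∈ v.integer at h4
  change E.a₆ ∈ v.integer at h6
  change r ∈ v.integer at hr
  change s ∈ v.integer at hs
  change t ∈ v.integer at ht
  constructor
  · rw [variableChange_a₁]
    simp only [inv_one, Units.val_one, one_pow, one_mul]
    exact add_mem h1 (mul_mem g2 hs)
  · rw [variableChange_a₂]
    simp only [inv_one, Units.val_one, one_pow, one_mul]
    exact sub_mem (add_mem (sub_mem h2 (mul_mem hs h1)) (mul_mem g3 hr)) (pow_mem hs 2)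
  · rw [variableChange_a₃]
    simp only [inv_one, Units.val_one, one_pow, one_mul]
    exact add_mem (add_mem h3 (mul_mem hr h1)) (mul_mem g2 ht)
  · rw [variableChange_a₄]
    simp only [inv_one, Units.val_one, one_pow, one_mul]
    exact sub_mem (add_mem (sub_mem (add_mem (sub_mem h4 (mul_mem hs h3)) (mul_mem (mul_mem g2 hr) h2))
      (mul_mem (add_mem ht (mul_mem hr hs)) h1)) (mul_mem g3 (pow_mem hr 2))) (mul_mem (mul_mem g2 hs) ht)
  · rw [variableChange_a₆]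
    simp only [inv_one, Units.val_one, one_pow, one_mul]
    exact sub_mem (sub_mem (sub_mem (add_mem (add_mem (add_mem h6 (mul_mem hr h4)) (mul_mem (pow_mem hr 2) h2))
      (pow_mem hr 3)) (mul_mem ht h3)) (pow_mem ht 2)) (mul_mem (mul_mem hr ht) h1)

/-- Chunk M1 (S). The coefficients of ⟨u ε, r, s, t⟩ • E are those of ⟨u, r, s, t⟩ • E divided by powers of ε, V(ε) = 1. -/
theorem vi_unit {u ε : kˣ} (hε : v (ε : k) = 1) {r s t : k} (h : VI v ((⟨u * ε, r, s, t⟩ : VariableChange k) • E)) :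
    VI v ((⟨u, r, s, t⟩ : VariableChange k) • E) := by
  obtain ⟨h1, h2, h3, h4, h6⟩ := h
  have hεi : v ((ε⁻¹ : kˣ) : k) = 1 := by
    rw [Units.val_inv_eq_inv_val, map_inv₀, hε, inv_one]
  rw [variableChange_a₁] at h1
  rw [variableChange_a₂] at h2
  rw [variableChange_a₃] at h3
  rw [variableChange_a₄] at h4
  rw [variableChange_a₆] at h6
  simp only [mul_inv_rev, Units.val_mul, mul_pow, map_mul, map_pow, hεi, one_pow, one_mul] at h1 h2 h3 h4 h6
  constructor
  · rw [variableChange_a₁, map_mul]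
    exact h1
  · rw [variableChange_a₂, map_mul, map_pow]
    exact h2
  · rw [variableChange_a₃, map_mul, map_pow]
    exact h3
  · rw [variableChange_a₄, map_mul, map_pow]
    exact h4
  · rw [variableChange_a₆, map_mul, map_pow]
    exact h6

/-- Chunk M1 (S). Composition: x = u^2 x' + r, x' = x'' + r' and so on: both sides have the same coefficients (WeierstrassCurve.ext, variableChange formulas, field_simp, ring) or VariableChange multiplication (mul_smul). -/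
theorem vi_comp (u : kˣ) (r s t r' s' t' : k) :
    (⟨1, r', s', t'⟩ : VariableChange k) • ((⟨u, r, s, t⟩ : VariableChange k) • E) =
      (⟨u, r + u ^ 2 * r', s + u * s', t + u ^ 3 * t' + u ^ 2 * s * r'⟩ : VariableChange k) • E := by
  rw [← mul_smul]
  congr 1
  rw [VariableChange.mul_def]
  ext
  · simp
  · simp
    ring
  · simp
    ring
  · simp
    ring

end H13D
end

-- from Lib.H13D.M2
section

/-! # H13D, part M: primes and conjugation -/

open NumberField IsDedekindDomain WeierstrassCurve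

namespace H13D

open H55P (IQ embF eF LF Per IsHecke Pt ac Inert Dec Nm)
open H55K

variable {F : Type} [Field F] [NumberField F] [IQ F] {σ : F ≃ₐ[ℚ] F} {v : HeightOneSpectrum (𝓞 F)}

/-- Chunk M2 (S). H55K.d1_sigma (the automorphism which is the complex conjugation), e_cj, injectivity of embF. See the proof of hram_of in H55K/RF.lean (hσ'). -/
theorem exists_cj (F : Type) [Field F] [NumberField F] [IQ F] : ∃ σ : F ≃ₐ[ℚ] F, Cj σ := by
  obtain ⟨σ, hσ⟩ := d1_sigma F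
  refine ⟨σ, fun a => ?_⟩
  apply (embF F).injective
  rw [hσ]
  exact (e_cj a).symm

theorem m2_tr (a : 𝓞 F) : ∃ n : ℤ, a + cj a = (n : 𝓞 F) := by
  refine ⟨(Nm (1 + a) : ℤ) - 1 - Nm a, ?_⟩
  have h1 := mul_cj (1 + a)
  have h2 := mul_cj a
  rw [map_add, map_one] at h1
  push_cast
  linear_combination h1 - h2

/-- Every element is an integer divided by a natural number. -/
theorem m2_frac (x : F) : ∃ (a : 𝓞 F) (n : ℕ), n ≠ 0 ∧ x * (n : F) = (a : F) := by
  obtain ⟨⟨a, b⟩, hab⟩ := IsLocalization.surj (nonZeroDivisors (𝓞 F)) x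
  have hb : (b : 𝓞 F) ≠ 0 := nonZeroDivisors.ne_zero b.2
  refine ⟨a * cj (b : 𝓞 F), Nm (b : 𝓞 F), fun h => hb (H55P.Nm_eq_zero.1 h), ?_⟩
  have h1 := congrArg (algebraMap (𝓞 F) F) (mul_cj (b : 𝓞 F))
  rw [map_mul, map_natCast] at h1
  have h2 : x * algebraMap (𝓞 F) F (b : 𝓞 F) = algebraMap (𝓞 F) F a := hab
  show x * ((Nm (b : 𝓞 F) : ℕ) : F) = algebraMap (𝓞 F) F (a * cj (b : 𝓞 F))
  rw [← h1, map_mul, ← h2]
  ring

theorem m2_invol (hσ : Cj σ) (x : F) : σ (σ x) = x := by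
  obtain ⟨a, n, hn, h⟩ := m2_frac x
  have hn' : (n : F) ≠ 0 := Nat.cast_ne_zero.2 hn
  have h1 : σ x * (n : F) = ((cj a : 𝓞 F) : F) := by
    rw [← hσ a, ← h, map_mul, map_natCast]
  have h2 : σ (σ x) * (n : F) = (a : F) := by
    have h3 := congrArg σ h1
    rw [map_mul, map_natCast, hσ, cj_cj] at h3
    exact h3
  exact mul_right_cancel₀ hn' (h2.trans h.symm)

/-- Chunk M2 (S). σ has order 2; x with σ x = x: x = a/n, .. or: embF x is real, so x is in the image of the rational numbers: the fixed field of σ has degree 1 over ℚ ([F : ℚ] = 2 and σ is not the identity: IQ.im). Or: 2x = x + σ x is the trace. -/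
theorem rat_of_fix (hσ : Cj σ) {x : F} (hx : σ x = x) : ∃ q : ℚ, algebraMap ℚ F q = x := by
  obtain ⟨a, n, hn, h⟩ := m2_frac x
  have hn' : (n : F) ≠ 0 := Nat.cast_ne_zero.2 hn
  obtain ⟨t, ht⟩ := m2_tr a
  have h1 : x * (n : F) = ((cj a : 𝓞 F) : F) := by
    rw [← hσ a, ← h, map_mul, map_natCast, hx]
  have h2 := congrArg (algebraMap (𝓞 F) F) ht
  rw [map_add, map_intCast] at h2
  have h3 : 2 * (n : F) * x = (t : F) := by
    have e1 : (a : F) = algebraMap (𝓞 F) F a := rfl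
    have e2 : ((cj a : 𝓞 F) : F) = algebraMap (𝓞 F) F (cj a) := rfl
    rw [← h2, ← e1, ← e2, ← h1, ← h]
    ring
  refine ⟨(t : ℚ) / (2 * n), ?_⟩
  rw [map_div₀, map_intCast, map_mul, map_ofNat, map_natCast, ← h3]
  field_simp

theorem m2_lt (hσ : Cj σ) (hv : ∀ a : 𝓞 F, a ∈ v.asIdeal → cj a ∈ v.asIdeal) {y : F} (hy : v.valuation F y < 1) :
    v.valuation F (σ y) < 1 := by
  obtain ⟨n, d, hnd⟩ := v.exists_primeCompl_mul_eq_of_integer y hy.le
  have hd : (d : 𝓞 F) ∉ v.asIdeal := d.2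
  have hd' : cj (d : 𝓞 F) ∉ v.asIdeal := by
    intro h
    have h1 := hv _ h
    rw [cj_cj] at h1
    exact hd h1
  have h1 := congrArg (v.valuation F) hnd
  rw [map_mul, (HeightOneSpectrum.valuation_eq_one_iff_notMem (K := F) (v := v)).2 hd, mul_one] at h1
  rw [h1, v.valuation_lt_one_iff_mem] at hy
  have h2 := congrArg σ hnd
  rw [map_mul] at h2
  have h3 : σ y * algebraMap (𝓞 F) F (cj (d : 𝓞 F)) = algebraMap (𝓞 F) F (cj n) := by
    have e1 : algebraMap (𝓞 F) F (cj (d : 𝓞 F)) = σ (algebraMap (𝓞 F) F (d : 𝓞 F)) := (hσ _).symm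
    have e2 : algebraMap (𝓞 F) F (cj n) = σ (algebraMap (𝓞 F) F n) := (hσ _).symm
    rw [e1, e2, h2]
  have h4 := congrArg (v.valuation F) h3
  rw [map_mul, (HeightOneSpectrum.valuation_eq_one_iff_notMem (K := F) (v := v)).2 hd', mul_one] at h4
  rw [h4]
  exact (v.valuation_lt_one_iff_mem _).2 (hv _ hy)

/-- Chunk M2 (S/M). v is stable under the conjugation: a in v implies cj a in v, and conversely (cj_cj). Valuations: x = a/b; v.valuation (a : F) depends only on the largest power of v containing a; or: v.valuation composed with σ is the valuation of the prime cj v = v (HeightOneSpectrum.valuation and maps; intValuation by powers: v.intValuation_le_pow_iff_mem). -/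
theorem val_cj (hσ : Cj σ) (hv : ∀ a : 𝓞 F, a ∈ v.asIdeal → cj a ∈ v.asIdeal) (x : F) : v.valuation F (σ x) = v.valuation F x := by
  by_cases hx : x = 0
  · rw [hx, map_zero]
  have hσx : σ x ≠ 0 := (map_ne_zero σ).2 hx
  have hprod : (σ x / x) * σ (σ x / x) = 1 := by
    rw [map_div₀, m2_invol hσ]
    field_simp
  have hvx : v.valuation F x ≠ 0 := (Valuation.ne_zero_iff _).2 hx
  have h0 : ∀ y : F, y * σ y = 1 → ¬ v.valuation F y < 1 := by
    intro y hy h1
    have h2 := m2_lt hσ hv h1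
    have h3 := congrArg (v.valuation F) hy
    rw [map_mul, map_one] at h3
    have h4 := mul_lt_one_of_lt_of_le h1 h2.le
    rw [h3] at h4
    exact lt_irrefl _ h4
  have h1 := h0 _ hprod
  have h2 := h0 (σ (σ x / x)) (by
    rw [m2_invol hσ, mul_comm]
    exact hprod)
  have h3 : v.valuation F (σ x / x) = 1 := by
    have h4 := congrArg (v.valuation F) hprod
    rw [map_mul, map_one] at h4
    rw [not_lt] at h1 h2
    refine le_antisymm (not_lt.1 fun h5 => ?_) h1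
    have h6 : 1 < v.valuation F (σ x / x) * v.valuation F (σ (σ x / x)) := one_lt_mul_of_lt_of_le h5 h2
    rw [h4] at h6
    exact lt_irrefl _ h6
  rw [map_div₀, div_eq_one_iff_eq hvx] at h3
  exact h3

/-- Chunk M2 (S/M). If l were in v^2: absNorm v is l or l^2 and l^2 = absNorm (l) = absNorm(v)^2 absNorm(..), so absNorm v = l, v^2 = (l) (equal norms, divisibility), cj v = v (unique prime above l); 𝓞 F ⧸ v has l elements, every a is congruent to an integer n modulo v, cj a is congruent to n modulo cj v = v: a - cj a in v for all a: contradiction to hun.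
So v.valuation F l = exp (-1) (l in v, not in v^2: HeightOneSpectrum.intValuation_le_pow_iff_mem / valuation_of_algebraMap). -/
theorem val_l (hun : ∃ a : 𝓞 F, a - cj a ∉ v.asIdeal) {l : ℕ} (hl : l.Prime) (hlv : (l : 𝓞 F) ∈ v.asIdeal) :
    v.valuation F (l : F) = WithZero.exp (-1 : ℤ) := by
  have h2 : (l : 𝓞 F) ∉ v.asIdeal ^ 2 := by
    intro h
    have hdvd : v.asIdeal ^ 2 ∣ Ideal.span {(l : 𝓞 F)} := Ideal.dvd_span_singleton.2 h
    obtain ⟨J, hJ⟩ := hdvd
    have hN : Ideal.absNorm (Ideal.span {(l : 𝓞 F)}) = l ^ 2 := Nm_nat l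
    have hN2 := congrArg Ideal.absNorm hJ
    rw [hN, map_mul, map_pow] at hN2
    have hN1 : Ideal.absNorm v.asIdeal ≠ 1 := by
      rw [Ne, Ideal.absNorm_eq_one_iff]
      exact v.isPrime.ne_top
    have hN3 : Ideal.absNorm v.asIdeal ∣ l := by
      rw [← Nat.pow_dvd_pow_iff two_ne_zero]
      exact ⟨_, hN2⟩
    have hN4 : Ideal.absNorm v.asIdeal = l := (hl.eq_one_or_self_of_dvd _ hN3).resolve_left hN1
    have hJ1 : Ideal.absNorm J = 1 := by
      rw [hN4] at hN2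
      have h3 : 0 < l ^ 2 := pow_pos hl.pos 2
      have h4 : l ^ 2 * Ideal.absNorm J = l ^ 2 * 1 := by rw [← hN2, mul_one]
      exact Nat.eq_of_mul_eq_mul_left h3 h4
    rw [Ideal.absNorm_eq_one_iff] at hJ1
    have hsp : v.asIdeal ^ 2 = Ideal.span {(l : 𝓞 F)} := by
      rw [hJ, hJ1, ← Ideal.one_eq_top, mul_one]
    have hstab : ∀ a : 𝓞 F, a ∈ v.asIdeal → cj a ∈ v.asIdeal := by
      intro a ha
      have h3 : a ^ 2 ∈ v.asIdeal ^ 2 := Ideal.pow_mem_pow ha 2
      rw [hsp, Ideal.mem_span_singleton] at h3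
      obtain ⟨c, hc⟩ := h3
      have h4 := congrArg cj hc
      rw [map_pow, map_mul, cj_nat] at h4
      have h5 : (cj a) ^ 2 ∈ v.asIdeal := by
        rw [h4]
        exact v.asIdeal.mul_mem_right _ hlv
      exact v.isPrime.mem_of_pow_mem 2 h5
    have hex : ∀ a : 𝓞 F, ∃ n : ℕ, a - n ∈ v.asIdeal := by
      have hcard : Nat.card (𝓞 F ⧸ v.asIdeal) = l := hN4
      have hfin : Finite (𝓞 F ⧸ v.asIdeal) := Nat.finite_of_card_ne_zero (by rw [hcard]; exact hl.ne_zero)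
      let f : Fin l → 𝓞 F ⧸ v.asIdeal := fun k => Ideal.Quotient.mk _ ((k : ℕ) : 𝓞 F)
      have hf : Function.Injective f := by
        intro a b hab
        have h1 : Ideal.Quotient.mk v.asIdeal (((a : ℕ) : 𝓞 F)) = Ideal.Quotient.mk v.asIdeal (((b : ℕ) : 𝓞 F)) := hab
        rw [Ideal.Quotient.eq] at h1
        by_contra hne
        have h2 := a.2
        have h3 := b.2
        have h4 : ¬ (l : ℤ) ∣ ((a : ℕ) : ℤ) - ((b : ℕ) : ℤ) := by
          intro h5
          have h7 : ((a : ℕ) : ℤ) - ((b : ℕ) : ℤ) = 0 := by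
            apply Int.eq_zero_of_abs_lt_dvd h5
            rw [abs_lt]
            constructor <;> omega
          apply hne
          apply Fin.ext
          omega
        obtain ⟨u, w, huw⟩ := (Nat.prime_iff_prime_int.1 hl).irreducible.coprime_iff_not_dvd.2 h4
        apply v.isPrime.ne_top
        rw [Ideal.eq_top_iff_one]
        have h5 : (1 : 𝓞 F) = (u : 𝓞 F) * (l : 𝓞 F) + (w : 𝓞 F) * (((a : ℕ) : 𝓞 F) - ((b : ℕ) : 𝓞 F)) := by
          have := congrArg (fun z : ℤ => (z : 𝓞 F)) huw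
          push_cast at this
          exact this.symm
        rw [h5]
        exact v.asIdeal.add_mem (v.asIdeal.mul_mem_left _ hlv) (v.asIdeal.mul_mem_left _ h1)
      have hb : Function.Bijective f := by
        rw [Nat.bijective_iff_injective_and_card]
        refine ⟨hf, ?_⟩
        rw [hcard, Nat.card_eq_fintype_card, Fintype.card_fin]
      intro a
      obtain ⟨k, hk⟩ := hb.2 (Ideal.Quotient.mk _ a)
      refine ⟨(k : ℕ), ?_⟩
      rw [← Ideal.Quotient.eq]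
      exact hk.symm
    obtain ⟨a, ha⟩ := hun
    apply ha
    obtain ⟨n, hn⟩ := hex a
    have h3 := hstab _ hn
    rw [map_sub, cj_nat] at h3
    have h4 : a - cj a = (a - n) - (cj a - n) := by ring
    rw [h4]
    exact v.asIdeal.sub_mem hn h3
  have e1 : v.valuation F (l : F) = v.intValuation (l : 𝓞 F) := by
    rw [← v.valuation_of_algebraMap (K := F)]
    exact congrArg (v.valuation F) (map_natCast (algebraMap (𝓞 F) F) l).symm
  have hl0 : (l : 𝓞 F) ≠ 0 := Nat.cast_ne_zero.2 hl.ne_zero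
  have e2 : v.intValuation (l : 𝓞 F) ≤ WithZero.exp (-((1 : ℕ) : ℤ)) := by
    rw [v.intValuation_le_pow_iff_mem, pow_one]
    exact hlv
  have e3 : ¬ v.intValuation (l : 𝓞 F) ≤ WithZero.exp (-((2 : ℕ) : ℤ)) := by
    rw [v.intValuation_le_pow_iff_mem]
    exact h2
  rw [e1]
  have e4 : v.intValuation (l : 𝓞 F) ≠ 0 := v.intValuation_ne_zero _ hl0
  rw [← WithZero.exp_log e4] at e2 e3 ⊢
  rw [WithZero.exp_le_exp] at e2 e3
  congr 1
  push_cast at e2 e3
  omega

end H13D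
end

-- from Lib.H13D.M4
section

/-! # H13D, part M: descent of a good equation from F to the rational numbers -/

open NumberField IsDedekindDomain WeierstrassCurve

namespace H13D

open H55P (IQ embF eF LF Per IsHecke Pt ac Inert Dec Nm)
open H55K

variable {F : Type} [Field F] [NumberField F] [IQ F] {σ : F ≃ₐ[ℚ] F} {v : HeightOneSpectrum (𝓞 F)}

theorem m4_ss (hσ : Cj σ) (x : F) : σ (σ x) = x := by
  obtain ⟨a, b, _, rfl⟩ := IsFractionRing.div_surjective (A := 𝓞 F) x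
  rw [map_div₀, map_div₀, hσ a, hσ b, hσ, hσ, cj_cj, cj_cj]

theorem m4_map (σ : F ≃ₐ[ℚ] F) (E : WeierstrassCurve ℚ) (C : VariableChange F) :
    (C.map (σ : F →+* F)) • (E⁄F) = (C • (E⁄F)).map (σ : F →+* F) := by
  have e : (E⁄F).map (σ : F →+* F) = E⁄F := by
    rw [WeierstrassCurve.baseChange, WeierstrassCurve.map_map]
    congr 1
    exact Subsingleton.elim _ _
  rw [← WeierstrassCurve.map_variableChange, e]

/-- Chunk M4 (S/M). v stable. c = l^n as a unit of F (rational). E' = ⟨c, r, s, t⟩ • (E⁄F) is integral, and so is its image under σ, which is ⟨c, σ r, σ s, σ t⟩ • (E⁄F) (map_variableChange; E is over ℚ; val_cj), and this is ⟨1, r', s', t'⟩ • E' with r' = (σ r - r)/c^2, s' = (σ s - s)/c, t' = (σ t - t - s (σ r - r))/c^3 (vi_comp). vi_uniq for E'. -/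
theorem conj_bounds (hσ : Cj σ) (hv : ∀ a : 𝓞 F, a ∈ v.asIdeal → cj a ∈ v.asIdeal) (E : WeierstrassCurve ℚ) {c : Fˣ} (hc : σ (c : F) = c)
    {r s t : F} (h : VI (v.valuation F) ((⟨c, r, s, t⟩ : VariableChange F) • (E⁄F))) :
    v.valuation F ((σ r - r) / (c : F) ^ 2) ≤ 1 ∧ v.valuation F ((σ s - s) / (c : F)) ≤ 1 ∧
      v.valuation F ((σ t - t - s * (σ r - r)) / (c : F) ^ 3) ≤ 1 := by
  have hmap := m4_map σ E (⟨c, r, s, t⟩ : VariableChange F)
  have hcu : Units.map ((σ : F →+* F) : F →* F) c = c := by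
    ext
    exact hc
  have hmap' : (⟨c, σ r, σ s, σ t⟩ : VariableChange F) • (E⁄F) =
      ((⟨c, r, s, t⟩ : VariableChange F) • (E⁄F)).map (σ : F →+* F) := by
    rw [← hmap]
    congr 1
    ext
    · exact hc.symm
    · rfl
    · rfl
    · rfl
  have hVI' : VI (v.valuation F) ((⟨c, σ r, σ s, σ t⟩ : VariableChange F) • (E⁄F)) := by
    rw [hmap']
    obtain ⟨h1, h2, h3, h4, h6⟩ := h
    refine ⟨?_, ?_, ?_, ?_, ?_⟩
    · exact (val_cj hσ hv _).le.trans h1
    · exact (val_cj hσ hv _).le.trans h2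
    · exact (val_cj hσ hv _).le.trans h3
    · exact (val_cj hσ hv _).le.trans h4
    · exact (val_cj hσ hv _).le.trans h6
  have hcomp := vi_comp (E := E⁄F) c r s t ((σ r - r) / (c : F) ^ 2) ((σ s - s) / (c : F))
    ((σ t - t - s * (σ r - r)) / (c : F) ^ 3)
  have hc0 : (c : F) ≠ 0 := c.ne_zero
  have e1 : r + (c : F) ^ 2 * ((σ r - r) / (c : F) ^ 2) = σ r := by field_simp; ring
  have e2 : s + (c : F) * ((σ s - s) / (c : F)) = σ s := by field_simp; ring
  have e3 : t + (c : F) ^ 3 * ((σ t - t - s * (σ r - r)) / (c : F) ^ 3) + (c : F) ^ 2 * s * ((σ r - r) / (c : F) ^ 2) = σ t := by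
    field_simp; ring
  rw [e1, e2, e3] at hcomp
  refine vi_uniq h ?_
  rw [hcomp]
  exact hVI'

/-- Chunk M4 (S/M). r₁ = r + σ e (σ r - r) = e r + σ e σ r is fixed by σ (σ σ = id), s₁ and t₁ = τ + σ e (σ τ - τ) too: rat_of_fix gives rational numbers r₀, s₀, t₀; c is the image of c₀. ⟨c, r₁, s₁, t₁⟩ • (E⁄F) = ⟨1, r', s', t'⟩ • (⟨c, r, s, t⟩ • (E⁄F)) with r' = σ e (σ r - r)/c^2, s' = σ e (σ s - s)/c and t' = (t₁ - τ)/c^3, τ = t + s (r₁ - r)
(vi_comp: t + c^3 t' + c^2 s r' = t + (t₁ - τ) + s (r₁ - r) = t₁). vi_change. It is the image of ⟨c₀, r₀, s₀, t₀⟩ • E (map_variableChange). -/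
theorem descend_core (hσ : Cj σ) (E : WeierstrassCurve ℚ) {c₀ : ℚˣ} {c : Fˣ} (hc : algebraMap ℚ F (c₀ : ℚ) = c)
    {r s t e : F} (h : VI (v.valuation F) ((⟨c, r, s, t⟩ : VariableChange F) • (E⁄F))) (he : e + σ e = 1)
    (h1 : v.valuation F (σ e * (σ r - r) / (c : F) ^ 2) ≤ 1) (h2 : v.valuation F (σ e * (σ s - s) / (c : F)) ≤ 1)
    (h3 : ∀ τ : F, τ = t + s * (σ e * (σ r - r)) → v.valuation F (σ e * (σ τ - τ) / (c : F) ^ 3) ≤ 1) :
    ∃ r₀ s₀ t₀ : ℚ, VI (v.valuation F) (((⟨c₀, r₀, s₀, t₀⟩ : VariableChange ℚ) • E)⁄F) := by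
  have hs2 := m4_ss hσ
  have he' : σ e + e = 1 := by rw [add_comm]; exact he
  have e1 : e = 1 - σ e := by rw [← he]; ring
  -- the new parameters
  set r₁ : F := r + σ e * (σ r - r) with hr₁
  set s₁ : F := s + σ e * (σ s - s) with hs₁
  set τ : F := t + s * (σ e * (σ r - r)) with hτ
  set t₁ : F := τ + σ e * (σ τ - τ) with ht₁
  have fix : ∀ x : F, σ (x + σ e * (σ x - x)) = x + σ e * (σ x - x) := by
    intro x
    rw [map_add, map_mul, map_sub, hs2, hs2]
    linear_combination (x - σ x) * he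
  obtain ⟨r₀, hr₀⟩ := rat_of_fix hσ (fix r)
  obtain ⟨s₀, hs₀⟩ := rat_of_fix hσ (fix s)
  obtain ⟨t₀, ht₀⟩ := rat_of_fix hσ (fix τ)
  refine ⟨r₀, s₀, t₀, ?_⟩
  have hc0 : (c : F) ≠ 0 := c.ne_zero
  have hcomp := vi_comp (E := E⁄F) c r s t (σ e * (σ r - r) / (c : F) ^ 2) (σ e * (σ s - s) / (c : F))
    (σ e * (σ τ - τ) / (c : F) ^ 3)
  have g1 : r + (c : F) ^ 2 * (σ e * (σ r - r) / (c : F) ^ 2) = r₁ := by rw [hr₁]; field_simp
  have g2 : s + (c : F) * (σ e * (σ s - s) / (c : F)) = s₁ := by rw [hs₁]; field_simp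
  have g3 : t + (c : F) ^ 3 * (σ e * (σ τ - τ) / (c : F) ^ 3) + (c : F) ^ 2 * s * (σ e * (σ r - r) / (c : F) ^ 2) = t₁ := by
    rw [ht₁, mul_div_cancel₀ _ (pow_ne_zero 3 hc0)]
    have : (c : F) ^ 2 * s * (σ e * (σ r - r) / (c : F) ^ 2) = s * (σ e * (σ r - r)) := by field_simp
    rw [this, hτ]
    ring
  rw [g1, g2, g3] at hcomp
  have hVI : VI (v.valuation F) ((⟨c, r₁, s₁, t₁⟩ : VariableChange F) • (E⁄F)) := by
    rw [← hcomp]
    exact vi_change h h1 h2 (h3 τ rfl)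
  have hfin : ((⟨c₀, r₀, s₀, t₀⟩ : VariableChange ℚ) • E)⁄F = (⟨c, r₁, s₁, t₁⟩ : VariableChange F) • (E⁄F) := by
    rw [WeierstrassCurve.baseChange, ← WeierstrassCurve.map_variableChange]
    congr 1
    ext
    · exact hc
    · exact hr₀
    · exact hs₀
    · exact ht₀
  rw [hfin]
  exact hVI

end H13D
end

-- from Lib.H13D.M3
section

/-! # H13D, part M: elements of trace one -/

open NumberField IsDedekindDomain WeierstrassCurve

namespace H13D

open H55P (IQ embF eF LF Per IsHecke Pt ac Inert Dec Nm)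
open H55K

variable {F : Type} [Field F] [NumberField F] [IQ F] {σ : F ≃ₐ[ℚ] F} {v : HeightOneSpectrum (𝓞 F)}

/-- Chunk M3 (S/M). v stable under the conjugation. l odd (2 not in v): e = 1/2. l = 2 (2 in v): a with a - cj a not in v, t = a + cj a = (a - cj a) + 2 cj a is not in v, e = a/t (t is fixed by σ). Values: a integral, v.valuation t = 1, val_cj. -/
theorem e_inert (hσ : Cj σ) (hun : ∃ a : 𝓞 F, a - cj a ∉ v.asIdeal) (hv : ∀ a : 𝓞 F, a ∈ v.asIdeal → cj a ∈ v.asIdeal) :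
    ∃ e : F, e + σ e = 1 ∧ v.valuation F e ≤ 1 ∧ v.valuation F (σ e) ≤ 1 := by
  by_cases h2 : (2 : 𝓞 F) ∈ v.asIdeal
  · obtain ⟨a, ha⟩ := hun
    set t : 𝓞 F := a + cj a with ht
    have ht' : t ∉ v.asIdeal := by
      intro hmem
      apply ha
      have e : a - cj a = t - 2 * cj a := by rw [ht]; ring
      rw [e]
      exact v.asIdeal.sub_mem hmem (v.asIdeal.mul_mem_right _ h2)
    have ht0 : (t : F) ≠ 0 := by
      intro h0
      apply ht'
      have : t = 0 := by exact_mod_cast h0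
      rw [this]
      exact v.asIdeal.zero_mem
    have hvt : v.valuation F (t : F) = 1 := (HeightOneSpectrum.valuation_eq_one_iff_notMem v).2 ht'
    have hst : σ (t : F) = (t : F) := by
      rw [hσ, ht, map_add, cj_cj, add_comm]
    refine ⟨(a : F) / (t : F), ?_, ?_, ?_⟩
    · rw [map_div₀, hst, hσ, ← add_div, div_eq_one_iff_eq ht0, ht]
      simp
    · rw [map_div₀, hvt, div_one]
      exact v.valuation_le_one a
    · rw [map_div₀, hst, hσ, map_div₀, hvt, div_one]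
      exact v.valuation_le_one (cj a)
  · have h2' : v.valuation F (2 : F) = 1 := by
      have h3 := (HeightOneSpectrum.valuation_eq_one_iff_notMem (K := F) v (r := 2)).2 h2
      rwa [map_ofNat] at h3
    have e2 : v.valuation F ((2 : F)⁻¹) = 1 := by rw [map_inv₀, h2', inv_one]
    refine ⟨(2 : F)⁻¹, ?_, e2.le, ?_⟩
    · rw [map_inv₀, map_ofNat]
      norm_num
    · rw [map_inv₀, map_ofNat]
      exact e2.le

/-- Chunk M3 (M). v not stable: the conjugate prime w (a in w iff cj a in v; Ideal.comap cj) is different from v, so v^K and w^K are coprime ideals: x in 𝓞 F with x - 1 in v^K and x in w^K; cj x is in v^K. t = x + cj x is congruent to 1 modulo v^K (K ≥ 1), so v.valuation t = 1; e = x/t: σ e = cj x/t, e + σ e = 1, v(e) ≤ 1, v(σ e) = v(cj x) ≤ exp (-K)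
(HeightOneSpectrum.intValuation_le_pow_iff_mem, valuation_of_algebraMap). -/
theorem e_split (hσ : Cj σ) (hv : ¬ ∀ a : 𝓞 F, a ∈ v.asIdeal → cj a ∈ v.asIdeal) (K : ℕ) :
    ∃ e : F, e + σ e = 1 ∧ v.valuation F e ≤ 1 ∧ v.valuation F (σ e) ≤ WithZero.exp (-(K : ℤ)) := by
  set w : Ideal (𝓞 F) := Ideal.comap cj v.asIdeal with hw
  have hwmem : ∀ a, a ∈ w ↔ cj a ∈ v.asIdeal := fun a => Ideal.mem_comap
  have hvmax : v.asIdeal.IsMaximal := v.isMaximal
  have hwmax : w.IsMaximal := Ideal.comap_isMaximal_of_equiv cj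
  have hne : v.asIdeal ≠ w := by
    intro h
    apply hv
    intro a ha
    rw [← hwmem, ← h]
    exact ha
  have hcop : IsCoprime (v.asIdeal ^ (K + 1)) (w ^ (K + 1)) := (Ideal.isCoprime_of_isMaximal hne).pow
  obtain ⟨i, hi, x, hx, hix⟩ := Ideal.isCoprime_iff_exists.1 hcop
  have hcx : cj x ∈ v.asIdeal ^ (K + 1) := by
    have := Ideal.le_comap_pow cj (K := v.asIdeal) (K + 1) hx
    exact Ideal.mem_comap.1 this
  have hpow : v.asIdeal ^ (K + 1) ≤ v.asIdeal := Ideal.pow_le_self (by omega)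
  set t : 𝓞 F := x + cj x with ht
  have ht' : t ∉ v.asIdeal := by
    intro hmem
    apply v.isPrime.ne_top
    rw [Ideal.eq_top_iff_one]
    have e : (1 : 𝓞 F) = i + t - cj x := by rw [ht, ← hix]; ring
    rw [e]
    exact v.asIdeal.sub_mem (v.asIdeal.add_mem (hpow hi) hmem) (hpow hcx)
  have ht0 : (t : F) ≠ 0 := by
    intro h0
    apply ht'
    have : t = 0 := by exact_mod_cast h0
    rw [this]
    exact v.asIdeal.zero_mem
  have hvt : v.valuation F (t : F) = 1 := (HeightOneSpectrum.valuation_eq_one_iff_notMem v).2 ht'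
  have hst : σ (t : F) = (t : F) := by
    rw [hσ, ht, map_add, cj_cj, add_comm]
  refine ⟨(x : F) / (t : F), ?_, ?_, ?_⟩
  · rw [map_div₀, hst, hσ, ← add_div, div_eq_one_iff_eq ht0, ht]
    simp
  · rw [map_div₀, hvt, div_one]
    exact v.valuation_le_one x
  · rw [map_div₀, hst, hσ, map_div₀, hvt, div_one, v.valuation_of_algebraMap (K := F)]
    refine ((v.intValuation_le_pow_iff_mem (cj x) (K + 1)).2 hcx).trans ?_
    rw [WithZero.exp_le_exp]
    push_cast
    linarith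

end H13D
end

-- from Lib.H13D.M5
section

/-! # H13D, part M: descent of a good equation from F to the rational numbers -/

open NumberField IsDedekindDomain WeierstrassCurve

namespace H13D

open H55P (IQ embF eF LF Per IsHecke Pt ac Inert Dec Nm)
open H55K

variable {F : Type} [Field F] [NumberField F] [IQ F] {σ : F ≃ₐ[ℚ] F} {v : HeightOneSpectrum (𝓞 F)}

theorem m5_big (B : WithZero (Multiplicative ℤ)) : ∃ K : ℕ, WithZero.exp (-(K : ℤ)) * B ≤ 1 := by
  by_cases hB : B = 0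
  · exact ⟨0, by rw [hB, mul_zero]; exact zero_le⟩
  · refine ⟨(WithZero.log B).toNat, ?_⟩
    rw [← WithZero.exp_log hB, ← WithZero.exp_add, ← WithZero.exp_zero, WithZero.exp_le_exp]
    rw [WithZero.log_exp]
    have := Int.self_le_toNat (WithZero.log B)
    omega

theorem m5_mul {Γ : Type} [LinearOrderedCommGroupWithZero Γ] {w : Valuation F Γ} {x y : F} (hx : w x ≤ 1) (hy : w y ≤ 1) :
    w (x * y) ≤ 1 := by
  rw [map_mul]
  exact mul_le_one' hx hy

/-- Chunk M5 (M). c in Q^*, h as in descend_core. v stable: e from e_inert, conj_bounds: h1, h2 are products of integral elements. h3: σ τ - τ with τ = t + s (σ e (σ r - r)): σ τ = σ t + σ s (e (r - σ r)) (σ σ = id, σ σ e = e), so σ τ - τ = (σ t - t - s (σ r - r)) + s (σ r - r) (1 - σ e) - σ s e (σ r - r) = (σ t - t - s (σ r - r)) - e (σ s - s) (σ r - r) (1 - σ e = e);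
divided by c^3 both terms are integral (conj_bounds). v not stable: let B ≥ 1 be a bound for the values of (σ r - r)/c^2, (σ s - s)/c, s (σ r - r)/c^3 and σ s (σ r - r)/c^3, (σ t - t)/c^3; K with exp (-K) B ≤ 1; e from e_split: h1, h2 clear; h3: σ τ - τ = (σ t - t) - σ s e (σ r - r) - s σ e (σ r - r), V(e) ≤ 1, V(σ e) ≤ 1, so the value of
(σ τ - τ)/c^3 is ≤ B. descend_core. -/
theorem descend_vi (hσ : Cj σ) (hun : ∃ a : 𝓞 F, a - cj a ∉ v.asIdeal) (E : WeierstrassCurve ℚ) {c₀ : ℚˣ} {c : Fˣ}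
    (hc : algebraMap ℚ F (c₀ : ℚ) = c) {r s t : F} (h : VI (v.valuation F) ((⟨c, r, s, t⟩ : VariableChange F) • (E⁄F))) :
    ∃ r₀ s₀ t₀ : ℚ, VI (v.valuation F) (((⟨c₀, r₀, s₀, t₀⟩ : VariableChange ℚ) • E)⁄F) := by
  have hc0 : (c : F) ≠ 0 := c.ne_zero
  have hcσ : σ (c : F) = c := by
    rw [← hc]
    exact σ.commutes _
  have hinv := m2_invol hσ
  have hτ : ∀ e : F, σ (t + s * (σ e * (σ r - r))) = σ t + σ s * (e * (r - σ r)) := by
    intro e
    rw [map_add, map_mul, map_mul, map_sub, hinv, hinv]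
  by_cases hv : ∀ a : 𝓞 F, a ∈ v.asIdeal → cj a ∈ v.asIdeal
  · obtain ⟨e, he, he1, he2⟩ := e_inert hσ hun hv
    obtain ⟨b1, b2, b3⟩ := conj_bounds hσ hv E hcσ h
    refine descend_core hσ E hc h he ?_ ?_ ?_
    · rw [mul_div_assoc]
      exact m5_mul he2 b1
    · rw [mul_div_assoc]
      exact m5_mul he2 b2
    · rintro τ rfl
      have e1 : σ e * (σ (t + s * (σ e * (σ r - r))) - (t + s * (σ e * (σ r - r)))) / (c : F) ^ 3 =
          σ e * ((σ t - t - s * (σ r - r)) / (c : F) ^ 3 - e * (((σ s - s) / (c : F)) * ((σ r - r) / (c : F) ^ 2))) := by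
        rw [hτ]
        have he3 : σ e = 1 - e := by rw [← he]; ring
        rw [he3]
        field_simp
        ring
      rw [e1]
      refine m5_mul he2 ((Valuation.map_sub _ _ _).trans (max_le b3 (m5_mul he1 (m5_mul b2 b1))))
  · set w := v.valuation F with hw
    set B : WithZero (Multiplicative ℤ) := max (max (w ((σ r - r) / (c : F) ^ 2)) (w ((σ s - s) / (c : F))))
      (max (max (w (s * (σ r - r) / (c : F) ^ 3)) (w (σ s * (σ r - r) / (c : F) ^ 3))) (w ((σ t - t) / (c : F) ^ 3))) with hB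
    obtain ⟨K, hK⟩ := m5_big B
    obtain ⟨e, he, he1, he2⟩ := e_split hσ hv K
    have he2' : w (σ e) ≤ 1 := he2.trans (by
      rw [← WithZero.exp_zero, WithZero.exp_le_exp]
      omega)
    have hb : ∀ y : F, w y ≤ B → w (σ e * y) ≤ 1 := by
      intro y hy
      rw [map_mul]
      exact (mul_le_mul' he2 hy).trans hK
    have c1 : w ((σ r - r) / (c : F) ^ 2) ≤ B := (le_max_left _ _).trans (le_max_left _ _)
    have c2 : w ((σ s - s) / (c : F)) ≤ B := (le_max_right _ _).trans (le_max_left _ _)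
    have c3 : w (s * (σ r - r) / (c : F) ^ 3) ≤ B := ((le_max_left _ _).trans (le_max_left _ _)).trans (le_max_right _ _)
    have c4 : w (σ s * (σ r - r) / (c : F) ^ 3) ≤ B := ((le_max_right _ _).trans (le_max_left _ _)).trans (le_max_right _ _)
    have c5 : w ((σ t - t) / (c : F) ^ 3) ≤ B := (le_max_right _ _).trans (le_max_right _ _)
    refine descend_core hσ E hc h he ?_ ?_ ?_
    · rw [mul_div_assoc]
      exact hb _ c1
    · rw [mul_div_assoc]
      exact hb _ c2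
    · rintro τ rfl
      have e1 : σ e * (σ (t + s * (σ e * (σ r - r))) - (t + s * (σ e * (σ r - r)))) / (c : F) ^ 3 =
          σ e * ((σ t - t) / (c : F) ^ 3) - e * (σ e * (σ s * (σ r - r) / (c : F) ^ 3)) -
            σ e * (σ e * (s * (σ r - r) / (c : F) ^ 3)) := by
        rw [hτ]
        field_simp
        ring
      rw [e1]
      refine (Valuation.map_sub _ _ _).trans (max_le ((Valuation.map_sub _ _ _).trans (max_le (hb _ c5) ?_)) ?_)
      · exact m5_mul he1 (hb _ c4)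
      · exact m5_mul he2' (hb _ c3)

theorem m5_int {l : ℕ} (hl : l.Prime) (hlv : (l : 𝓞 F) ∈ v.asIdeal) (n : ℤ) : (n : 𝓞 F) ∈ v.asIdeal ↔ (l : ℤ) ∣ n := by
  constructor
  · intro h
    by_contra hn
    obtain ⟨u, w, huw⟩ := (Nat.prime_iff_prime_int.1 hl).irreducible.coprime_iff_not_dvd.2 hn
    apply v.isPrime.ne_top
    rw [Ideal.eq_top_iff_one]
    have h5 : (1 : 𝓞 F) = (u : 𝓞 F) * (l : 𝓞 F) + (w : 𝓞 F) * (n : 𝓞 F) := by
      have := congrArg (fun z : ℤ => (z : 𝓞 F)) huw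
      push_cast at this
      exact this.symm
    rw [h5]
    exact v.asIdeal.add_mem (v.asIdeal.mul_mem_left _ hlv) (v.asIdeal.mul_mem_left _ h)
  · rintro ⟨c, rfl⟩
    push_cast
    exact v.asIdeal.mul_mem_right _ hlv

theorem m5_val (n : ℤ) : v.valuation F ((n : ℤ) : F) < 1 ↔ (n : 𝓞 F) ∈ v.asIdeal := by
  rw [← v.valuation_lt_one_iff_mem (K := F)]
  have e : algebraMap (𝓞 F) F (n : 𝓞 F) = ((n : ℤ) : F) := map_intCast _ n
  rw [← e]


theorem m5_rat (q : ℚ) : algebraMap ℚ F q * ((q.den : ℤ) : F) = ((q.num : ℤ) : F) := by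
  have h1 : q * (q.den : ℚ) = (q.num : ℚ) := Rat.mul_den_eq_num q
  have h2 := congrArg (algebraMap ℚ F) h1
  rw [map_mul, map_natCast, map_intCast] at h2
  rw [← h2]
  push_cast
  rfl

/-- Chunk M5 (S). v.valuation F (q : F) ≤ 1 implies that l does not divide the denominator: q = num/den; if l divides den then not num (coprime), V(den) < 1, V(num) = 1 (an integer prime to l is not in v). -/
theorem den_of_val {l : ℕ} (hl : l.Prime) (hlv : (l : 𝓞 F) ∈ v.asIdeal) (q : ℚ) (h : v.valuation F (algebraMap ℚ F q) ≤ 1) : ¬ l ∣ q.den := by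
  intro hd
  have h1 : ¬ (l : ℤ) ∣ q.num := by
    intro h2
    have h3 := q.reduced
    have h4 : l ∣ q.num.natAbs := Int.natCast_dvd.1 h2
    have h5 := Nat.dvd_gcd h4 hd
    rw [Nat.Coprime] at h3
    rw [h3] at h5
    exact hl.one_lt.ne' (Nat.dvd_one.1 h5)
  have h2 := congrArg (v.valuation F) (m5_rat (F := F) q)
  rw [map_mul] at h2
  have h3 : v.valuation F ((q.den : ℤ) : F) < 1 := (m5_val _).2 ((m5_int hl hlv _).2 (by exact_mod_cast hd))
  have h4 : v.valuation F (algebraMap ℚ F q) * v.valuation F ((q.den : ℤ) : F) < 1 :=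
    mul_lt_one_of_nonneg_of_lt_one_right h zero_le h3
  rw [h2, m5_val, m5_int hl hlv] at h4
  exact h1 h4

/-- Chunk M5 (S). The same for the numerator. -/
theorem num_of_val {l : ℕ} (hl : l.Prime) (hlv : (l : 𝓞 F) ∈ v.asIdeal) (q : ℚ) (h : v.valuation F (algebraMap ℚ F q) = 1) : ¬ (l : ℤ) ∣ q.num := by
  intro h2
  have h3 := congrArg (v.valuation F) (m5_rat (F := F) q)
  rw [map_mul, h, one_mul] at h3
  have h4 := (m5_val (v := v) q.num).2 ((m5_int hl hlv _).2 h2)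
  rw [← h3, m5_val, m5_int hl hlv] at h4
  exact den_of_val hl hlv q h.le (by exact_mod_cast h4)

end H13D
end

-- from Lib.H13D.M6
section

/-! # H13D, part M: descent of a good equation from F to the rational numbers -/

open NumberField IsDedekindDomain WeierstrassCurve

namespace H13D

open H55P (IQ embF eF LF Per IsHecke Pt ac Inert Dec Nm)
open H55K

variable {F : Type} [Field F] [NumberField F] [IQ F] {v : HeightOneSpectrum (𝓞 F)}

/-- Chunk M6 (M). UNRAMIFIED PRIMES. h: C = ⟨u, r, s, t⟩ over F with C • (E⁄F) integral, discriminant of value 1. v.valuation F l = exp (-1) (val_l), so V(u) = V(l^n) for an integer n (the valuation of u ≠ 0 is exp of an integer), u = c ε with c the image of c₀ = l^n (a unit of ℚ; zpow), V(ε) = 1: vi_unit gives VI for ⟨c, r, s, t⟩. descend_vi: r₀, s₀, t₀; E' = ⟨c₀, r₀, s₀, t₀⟩ • E.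
The discriminant of E' is E.Δ/c₀^12 (variableChange_Δ), that of C • (E⁄F) is E.Δ/u^12: V(E'.Δ) = V(E.Δ)/V(c)^12 = V(E.Δ)/V(u)^12 = 1. den_of_val, num_of_val (the coefficients of E'⁄F are the images). -/
theorem descend (hun : ∃ a : 𝓞 F, a - cj a ∉ v.asIdeal) {l : ℕ} (hl : l.Prime) (hlv : (l : 𝓞 F) ∈ v.asIdeal) (E : WeierstrassCurve ℚ)
    (h : GoodAt (E⁄F) v) : ∃ C : VariableChange ℚ, IntL (C • E) l := by
  obtain ⟨σ, hσ⟩ := exists_cj F
  obtain ⟨C, k1, k2, k3, k4, k6, kΔ⟩ := h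
  obtain ⟨u, r, s, t⟩ := C
  have hl0 : (l : F) ≠ 0 := by exact_mod_cast hl.ne_zero
  have hlQ : (l : ℚ) ≠ 0 := by exact_mod_cast hl.ne_zero
  have hvl := val_l hun hl hlv
  have hu0 : v.valuation F (u : F) ≠ 0 := (Valuation.ne_zero_iff _).2 u.ne_zero
  set n : ℤ := WithZero.log (v.valuation F (u : F)) with hn
  have hvu : v.valuation F (u : F) = WithZero.exp n := (WithZero.exp_log hu0).symm
  set c₀ : ℚˣ := (Units.mk0 (l : ℚ) hlQ) ^ (-n) with hc₀
  set c : Fˣ := Units.map ((algebraMap ℚ F : ℚ →+* F) : ℚ →* F) c₀ with hc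
  have hcc : algebraMap ℚ F (c₀ : ℚ) = (c : F) := rfl
  have hvc : v.valuation F (c : F) = WithZero.exp n := by
    rw [← hcc, hc₀, Units.val_zpow_eq_zpow_val, Units.val_mk0, map_zpow₀, map_natCast, map_zpow₀, hvl, ← WithZero.exp_zsmul]
    congr 1
    simp
  have hvε : v.valuation F (((c⁻¹ * u : Fˣ) : F)) = 1 := by
    rw [Units.val_mul, Units.val_inv_eq_inv_val, map_mul, map_inv₀, hvc, hvu]
    exact inv_mul_cancel₀ WithZero.exp_ne_zero
  have hVI : VI (v.valuation F) ((⟨c * (c⁻¹ * u), r, s, t⟩ : VariableChange F) • (E⁄F)) := by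
    rw [mul_inv_cancel_left]
    exact ⟨k1, k2, k3, k4, k6⟩
  obtain ⟨r₀, s₀, t₀, h0⟩ := descend_vi hσ hun E hcc (vi_unit hvε hVI)
  have hΔ : v.valuation F (algebraMap ℚ F ((⟨c₀, r₀, s₀, t₀⟩ : VariableChange ℚ) • E).Δ) = 1 := by
    rw [variableChange_Δ] at kΔ ⊢
    have e1 : (E⁄F).Δ = algebraMap ℚ F E.Δ := E.map_Δ _
    rw [e1] at kΔ
    simp only [map_mul, map_pow, Units.val_inv_eq_inv_val, map_inv₀] at kΔ ⊢
    rw [hcc, hvc]
    rw [hvu] at kΔ
    exact kΔ
  refine ⟨⟨c₀, r₀, s₀, t₀⟩, ?_, ?_, ?_, ?_, ?_, ?_, ?_⟩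
  · exact den_of_val hl hlv _ h0.a1
  · exact den_of_val hl hlv _ h0.a2
  · exact den_of_val hl hlv _ h0.a3
  · exact den_of_val hl hlv _ h0.a4
  · exact den_of_val hl hlv _ h0.a6
  · exact num_of_val hl hlv _ hΔ
  · exact den_of_val hl hlv _ hΔ.le

end H13D
end

-- from Lib.H19B.ST1
section

/-! # H19B, ST1: the step of the Selmer group with a third local alternative which uses the local condition -/

namespace H19B

open H55P

/-- The step of the Selmer group in a cyclic extension of degree p, with a third local alternative: every continuous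
cocycle killed by p which is a coboundary on the inertia elements of N is a coboundary on the inertia group. -/
theorem abs_stepG {G M Vs : Type} [Group G] [AddCommGroup M] (ρ : G →* AddMonoid.End M) (p : ℕ)
    (hp : p.Prime) (U : Set (Subgroup G)) (I D : Vs → Subgroup G) (N H : Subgroup G)
    (hUi : ∀ O ∈ U, ∀ O' ∈ U, O ⊓ O' ∈ U) (hUc : ∀ O ∈ U, ∀ g : G, ∃ O' ∈ U, ∀ s ∈ O', g * s * g⁻¹ ∈ O)
    (hN : N ∈ U) (hNH : N ≤ H) (hcomm : ∀ a ∈ H, ∀ b ∈ H, a * b * a⁻¹ * b⁻¹ ∈ N) (σ : G) (hσ : σ ∈ H)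
    (hgen : ∀ h ∈ H, ∃ i : ℕ, ∃ n ∈ N, h = σ ^ i * n) (hσp : σ ^ p ∈ N)
    (hconj : ∀ g ∈ H, ∀ v, ∃ v', ∀ s, s ∈ I v' ↔ g * s * g⁻¹ ∈ I v)
    (hDI : ∀ v, ∀ φ ∈ D v, ∀ s ∈ I v, φ * s * φ⁻¹ ∈ I v)
    (h0 : ∀ T : M, p • T = 0 → (∀ s ∈ N, ρ s T = T) → T = 0)
    (hloc : ∀ v, (∀ s ∈ H, s ∈ I v → s ∈ N) ∨
      ((∀ s ∈ H, s ∈ I v → ∀ P : M, p • (ρ s P - P) = 0 → ρ s P = P) ∧
        ∀ T : M, p • T = 0 → (∀ s ∈ H, s ∈ D v → ρ s T = T) → T = 0) ∨
      (∀ c' : G → M, (∀ s ∈ H, ∀ t ∈ H, c' (s * t) = c' s + ρ s (c' t)) → (∀ s ∈ H, p • c' s = 0) →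
        (∃ O ∈ U, ∀ s ∈ H, s ∈ O → c' s = 0) → (∃ P : M, ∀ s ∈ N, s ∈ I v → c' s = ρ s P - P) →
        ∃ P : M, ∀ s ∈ H, s ∈ I v → c' s = ρ s P - P))
    (hS : SelA ρ p U I H) : SelA ρ p U I N := by
  intro c hc1 hc2 hc3 hc4
  have hn := sa3_norm hNH hcomm
  have hn' := sa3_norm' hNH hcomm
  refine op_zero p hp (sa3_Z ρ p U I N hN hUi) (sa3_B ρ p N) ?_ (sa3_F ρ σ)
    (fun z hz => sa3_FZ p U I N H hUc hNH hcomm σ hσ hconj z hz) ?_ ?_ ?_ c ⟨hc1, hc2, hc3, hc4⟩
  · rintro z ⟨-, -, hz, -⟩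
    exact ⟨0, smul_zero _, fun s hs => by rw [Pi.smul_apply, hz s hs, map_zero, sub_zero]⟩
  · rintro b ⟨T, hT, hb⟩
    refine ⟨ρ σ T, sa3_nsmul ρ p σ T hT, fun s hs => ?_⟩
    rw [sa3_F_apply, hb _ (hn' σ hσ s hs), sa3_bd]
  · rintro z ⟨z1, -, z3, -⟩
    refine ⟨z (σ ^ p), z3 _ hσp, fun s hs => ?_⟩
    rw [Pi.sub_apply, sa3_iter]
    exact sa3_self z1 _ hσp s hs
  · rintro z ⟨z1, ⟨O, hO, z2⟩, z3, z4⟩ ⟨T, hT, hb⟩
    have hI : sa3_I ρ p N z σ := ⟨T, hT, fun s hs => hb s hs⟩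
    have hI1 : ∀ n ∈ N, sa3_I ρ p N z n := fun n hn => ⟨z n, z3 n hn, fun s hs => sa3_self z1 n hn s hs⟩
    have hI2 : ∀ i : ℕ, sa3_I ρ p N z (σ ^ i) := by
      intro i
      induction i with
      | zero =>
        rw [pow_zero]
        exact hI1 1 N.one_mem
      | succ i ih =>
        rw [pow_succ']
        exact sa3_I_mul (hn' σ hσ) hI ih
    have hinv : ∀ g ∈ H, sa3_I ρ p N z g := by
      intro g hg
      obtain ⟨i, n, hnN, rfl⟩ := hgen g hg
      exact sa3_I_mul (hn' _ (H.pow_mem hσ i)) (hI2 i) (hI1 n hnN)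
    obtain ⟨c', e1, e2, e3⟩ := ext_coc ρ p N H hNH hn h0 z z1 z3 hinv
    have hcont : ∃ O' ∈ U, ∀ s ∈ H, s ∈ O' → c' s = 0 :=
      ⟨N ⊓ O, hUi N hN O hO, fun s _ h => by rw [e3 s h.1, z2 s h.1 h.2]⟩
    obtain ⟨T', hT', h5⟩ := hS c' e1 hcont e2
      (fun v => by
        rcases hloc v with h | h | h
        · exact sa3_loc p I D N H hNH hcomm hDI v (Or.inl h) z c' (z4 v) z3 e1 e2 e3
        · exact sa3_loc p I D N H hNH hcomm hDI v (Or.inr h) z c' (z4 v) z3 e1 e2 e3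
        · obtain ⟨P, hP⟩ := z4 v
          exact h c' e1 e2 hcont ⟨P, fun s hs hi => by rw [e3 s hs]; exact hP s hs hi⟩)
    exact ⟨T', hT', fun s hs => by rw [← e3 s hs, h5 s (hNH hs)]⟩

end H19B
end

-- from Lib.SSG.E.A6
section

open NumberField IsDedekindDomain WeierstrassCurve

namespace SSG

open H55P (IQ embF eF LF Per IsHecke Pt ac Inert Dec)
open H35P (WAB Ker tt)
open H55K

variable {F : Type} [Field F] {A B : F} {Ω : Type} [Field Ω] [DecidableEq Ω] [Algebra F Ω] {V : ValuationSubring Ω}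

/-- The function y^2/x^3 (1 at infinity). -/
noncomputable def vv (R : Pt (WAB A B) Ω) : Ω := if R = 0 then 1 else yc R ^ 2 / xc R ^ 3

/-- The coordinates of P + R. -/
theorem vv_eq (hV : GV A B V) {R : Pt (WAB A B) Ω} (hR : Ker V R) :
    vv R = 1 + algebraMap F Ω A * tt R ^ 4 * vv R ^ 2 + algebraMap F Ω B * tt R ^ 6 * vv R ^ 3 ∧
      V.valuation (vv R) ≤ 1 ∧ V.valuation (vv R - 1) < 1 := by
  unfold vv
  by_cases h0 : R = 0
  · subst h0
    have e : tt (0 : Pt (WAB A B) Ω) = 0 := by rw [tt_eq, xc_zero, zero_div]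
    simp [e]
  · rw [if_neg h0]
    obtain ⟨h1, h2, h3⟩ := tt_val hV hR h0
    have ht1 := ttlt hV hR
    have hx1 : 1 < V.valuation (xc R) := (ker_iff V h0).1 hR
    have hy0 : yc R ≠ 0 := by
      intro h
      rw [h, map_zero, mul_zero] at h2
      exact zero_ne_one h2
    have hx0 : xc R ≠ 0 := by
      intro h
      rw [h, map_zero] at hx1
      exact absurd hx1 (not_lt.2 zero_le)
    have htt : tt R = xc R / yc R := tt_eq R
    have heq := eqnA h0
    have key := a5_v heq hx0 hy0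
    rw [← htt] at key
    have hv : V.valuation (yc R ^ 2 / xc R ^ 3) = 1 := by
      rw [map_div₀, map_pow, map_pow]
      have e1 : V.valuation (yc R) ^ 2 = V.valuation (xc R) ^ 3 := by
        have hvt : V.valuation (tt R) ≠ 0 := by
          rw [Valuation.ne_zero_iff, htt]
          exact div_ne_zero hx0 hy0
        have e2 : V.valuation (tt R) ^ 6 * V.valuation (yc R) ^ 2 = V.valuation (tt R) ^ 6 * V.valuation (xc R) ^ 3 := by
          calc V.valuation (tt R) ^ 6 * V.valuation (yc R) ^ 2 = (V.valuation (tt R) ^ 3 * V.valuation (yc R)) ^ 2 := by rw [mul_pow, ← pow_mul]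
            _ = 1 := by rw [h2, one_pow]
            _ = (V.valuation (tt R) ^ 2 * V.valuation (xc R)) ^ 3 := by rw [h1, one_pow]
            _ = V.valuation (tt R) ^ 6 * V.valuation (xc R) ^ 3 := by rw [mul_pow, ← pow_mul]
        exact mul_left_cancel₀ (pow_ne_zero 6 hvt) e2
      rw [e1]
      exact div_self (pow_ne_zero 3 ((Valuation.ne_zero_iff _).2 hx0))
    refine ⟨key, hv.le, ?_⟩
    have e3 : yc R ^ 2 / xc R ^ 3 - 1 = algebraMap F Ω A * tt R ^ 4 * (yc R ^ 2 / xc R ^ 3) ^ 2 +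
        algebraMap F Ω B * tt R ^ 6 * (yc R ^ 2 / xc R ^ 3) ^ 3 := by
      linear_combination key
    rw [e3]
    refine V.valuation.map_add_lt ?_ ?_
    · rw [map_mul, map_mul, map_pow, map_pow, hv, one_pow, mul_one]
      calc _ ≤ 1 * V.valuation (tt R) ^ 4 := mul_le_mul_left ((V.valuation_le_one_iff _).2 hV.a) _
        _ < 1 := by rw [one_mul]; exact pow_lt_one₀ zero_le ht1 (by norm_num)
    · rw [map_mul, map_mul, map_pow, map_pow, hv, one_pow, mul_one]
      calc _ ≤ 1 * V.valuation (tt R) ^ 6 := mul_le_mul_left ((V.valuation_le_one_iff _).2 hV.b) _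
        _ < 1 := by rw [one_mul]; exact pow_lt_one₀ zero_le ht1 (by norm_num)

/-- The coordinates of P + R, P not in the kernel of reduction, R in the kernel. -/
theorem add_xy (hV : GV A B V) {P R : Pt (WAB A B) Ω} (hP : ¬ Ker V P) (hR : Ker V R) :
    xc (P + R) = nX (algebraMap F Ω A) (algebraMap F Ω B) (xc P) (yc P) (tt R) (vv R) *
        (vv R * (1 - xc P * tt R ^ 2 * vv R) ^ 2)⁻¹ - xc P ∧
    yc (P + R) = -yc P - (1 - yc P * tt R ^ 3 * vv R) *
        nY (algebraMap F Ω A) (algebraMap F Ω B) (xc P) (yc P) (tt R) (vv R) *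
        (vv R * (1 - xc P * tt R ^ 2 * vv R) ^ 3)⁻¹ := by
  obtain ⟨hP0, hPx⟩ := not_ker V hP
  by_cases h0 : R = 0
  · subst h0
    have e : tt (0 : Pt (WAB A B) Ω) = 0 := by rw [tt_eq, xc_zero, zero_div]
    have e' : vv (0 : Pt (WAB A B) Ω) = 1 := by simp [vv]
    rw [add_zero, e, e']
    constructor
    · simp [nX]
      ring
    · simp [nY]
      ring
  · have hx1 : 1 < V.valuation (xc R) := (ker_iff V h0).1 hR
    obtain ⟨h1, h2, h3⟩ := tt_val hV hR h0
    have hy0 : yc R ≠ 0 := by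
      intro h
      rw [h, map_zero, mul_zero] at h2
      exact zero_ne_one h2
    have hx0 : xc R ≠ 0 := by
      intro h
      rw [h, map_zero] at hx1
      exact absurd hx1 (not_lt.2 zero_le)
    have hne : xc P ≠ xc R := by
      intro he
      rw [he] at hPx
      exact absurd hx1 (not_lt.2 hPx)
    obtain ⟨a1, a2, a3⟩ := add_coords hP0 h0 hne
    have hs : (yc P - yc R) / (xc P - xc R) = (yc R - yc P) / (xc R - xc P) := by
      rw [← neg_sub (yc R) (yc P), ← neg_sub (xc R) (xc P), neg_div_neg_eq]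
    have htt : tt R = xc R / yc R := tt_eq R
    have hvv : vv R = yc R ^ 2 / xc R ^ 3 := by unfold vv; rw [if_neg h0]
    have k1 := a5_x (A := algebraMap F Ω A) (B := algebraMap F Ω B) (y₀ := yc P) (eqnA h0) hx0 hy0 (Ne.symm hne)
    have k2 := a5_y (A := algebraMap F Ω A) (B := algebraMap F Ω B) (y₀ := yc P) (eqnA h0) hx0 hy0 (Ne.symm hne)
    rw [htt, hvv]
    constructor
    · rw [a2, hs]
      linear_combination k1
    · rw [a3, a2, hs]
      linear_combination k2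

end SSG
end

-- from Lib.SSG.E.A7
section

open NumberField IsDedekindDomain WeierstrassCurve

namespace SSG

open H55P (IQ embF eF LF Per IsHecke Pt ac Inert Dec)
open H35P (WAB Ker tt)
open H55K

variable {F : Type} [Field F] [NumberField F] [IQ F] {A B : F} {Om : ℂ} {Ω : Type} [Field Ω] [DecidableEq Ω]
  [Algebra F Ω] {j : Ω →+* ℂ} {act : 𝓞 F →+* AddMonoid.End (Pt (WAB A B) Ω)} {p : ℕ} [Fact p.Prime]
  {V : ValuationSubring Ω} {i : Ω →+* ℂ_[p]} {T : ℕ → Pt (WAB A B) Ω} {L : LTF F ℂ_[p]}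

/-! Chunk A7 (M). (1) loc_le, loc_lt, loc_eq: from hL.val: V.valuation x <= 1 iff x in V iff ‖i x‖ <= 1; x <> 0: V.valuation x < 1 iff not (x⁻¹ in V) (ValuationSubring.valuation_lt_one_iff ..: v x⁻¹ = (v x)⁻¹) iff not ‖i x‖⁻¹ <= 1 iff ‖i x‖ < 1.
(2) fn_t is hL.fn; ‖i (tt R)‖ < 1 by ttlt hV (hL.ker N _) and loc_lt. (3) fn_vv: Fn_v (A4) with A := i (algebraMap F Ω A), B likewise (norms <= 1: hV.a, hV.b), vv_eq (A6), map_add, map_mul, map_pow of i.
(4) fn_x, fn_y: add_xy (A6) with R = act (sum c_k a_k) (T N) in Ker (hL.ker); apply i (map_mul, map_inv₀, ..); nX, nY are polynomials (unfold; Fn_add, Fn_mul, Fn_const with norms of i (xc P), i (yc P), i A, i B, 2, 3 at most 1: not_ker, gv_y; ‖2‖, ‖3‖ <= 1: norm of a natural number, IsUltrametricDist.norm_natCast_le_one);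
the inverse: Fn_inv (A3) with u = 1: vv * (1 - x0 t^2 vv)^2 - 1 has norm < 1 (‖vv - 1‖ < 1, ‖t‖ < 1). (5) x_cong: transl (G3) and loc_lt: V(xc (P+R) - xc P) <= max (V(2 yc P tt R), V(tt R)^2) < 1. -/

theorem loc_le (hL : LocM A B Om j act p V i T L) (x : Ω) : V.valuation x ≤ 1 ↔ ‖i x‖ ≤ 1 := by
  rw [V.valuation_le_one_iff]
  exact hL.val x

theorem loc_lt (hL : LocM A B Om j act p V i T L) (x : Ω) : V.valuation x < 1 ↔ ‖i x‖ < 1 := by
  rcases eq_or_ne x 0 with rfl | hx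
  · simp
  · have h1 := loc_le hL x⁻¹
    have hvx : V.valuation x ≠ 0 := (Valuation.ne_zero_iff _).2 hx
    have hix : i x ≠ 0 := (map_ne_zero i).2 hx
    have h2 : V.valuation x < 1 ↔ ¬ V.valuation x⁻¹ ≤ 1 := by
      rw [map_inv₀, not_le, one_lt_inv₀ (zero_lt_iff.2 hvx)]
    have h3 : ‖i x‖ < 1 ↔ ¬ ‖i x⁻¹‖ ≤ 1 := by
      rw [map_inv₀, norm_inv, not_le, one_lt_inv₀ (norm_pos_iff.2 hix)]
    rw [h2, h3, h1]

theorem loc_eq (hL : LocM A B Om j act p V i T L) (x : Ω) : V.valuation x = 1 ↔ ‖i x‖ = 1 := by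
  rw [le_antisymm_iff, le_antisymm_iff, ← not_lt, ← not_lt, ← not_lt, ← not_lt, loc_lt hL x, not_lt, not_lt, not_lt,
    loc_le hL x]

theorem a7_nat (n : ℕ) : ‖(n : ℂ_[p])‖ ≤ 1 := IsUltrametricDist.norm_natCast_le_one _ n

theorem a7_lt (hV : GV A B V) (hL : LocM A B Om j act p V i T L) (N : ℕ) (a : 𝓞 F) :
    ‖i (tt (act a (T N)))‖ < 1 := (loc_lt hL _).1 (ttlt hV (hL.ker N a))

theorem fn_vv (hV : GV A B V) (hL : LocM A B Om j act p V i T L) (N : ℕ) {ι : Type} [Fintype ι] (c : ι → 𝓞 F) :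
    L.Fn N ι (fun a => i (vv (act (∑ k, c k * a k) (T N)))) := by
  have hA : ‖i (algebraMap F Ω A)‖ ≤ 1 := (hL.val _).1 hV.a
  have hB : ‖i (algebraMap F Ω B)‖ ≤ 1 := (hL.val _).1 hV.b
  refine Fn_v (Fact.out : p.Prime).ne_zero hL.ok hA hB (hL.fn N ι c) (fun a => a7_lt hV hL N _)
    (fun a => (loc_le hL _).1 (vv_eq hV (hL.ker N _)).2.1) fun a => ?_
  have h1 := (vv_eq hV (hL.ker N (∑ k, c k * a k))).1
  have h2 := congrArg i h1
  simpa only [map_add, map_mul, map_pow, map_one] using h2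

theorem a7_one (hV : GV A B V) (hL : LocM A B Om j act p V i T L) (N : ℕ) (s : 𝓞 F) {x : ℂ_[p]} (hx : ‖x‖ ≤ 1) :
    ‖(1 - x * i (tt (act s (T N))) ^ 2 * i (vv (act s (T N)))) - 1‖ < 1 := by
  have ht := a7_lt hV hL N s
  have hv : ‖i (vv (act s (T N)))‖ ≤ 1 := (loc_le hL _).1 (vv_eq hV (hL.ker N s)).2.1
  have e : (1 - x * i (tt (act s (T N))) ^ 2 * i (vv (act s (T N)))) - 1 =
      -(x * i (tt (act s (T N))) ^ 2 * i (vv (act s (T N)))) := by ring
  rw [e, norm_neg, norm_mul, norm_mul, norm_pow]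
  calc ‖x‖ * ‖i (tt (act s (T N)))‖ ^ 2 * ‖i (vv (act s (T N)))‖
      ≤ 1 * ‖i (tt (act s (T N)))‖ ^ 2 * 1 := by gcongr
    _ < 1 := by
      rw [one_mul, mul_one]
      exact pow_lt_one₀ (norm_nonneg _) ht (by norm_num)

theorem a7_mulone {x y : ℂ_[p]} (hx : ‖x - 1‖ < 1) (hy : ‖y - 1‖ < 1) : ‖x * y - 1‖ < 1 := by
  have hx1 : ‖x‖ ≤ 1 := by
    have e : x = (x - 1) + 1 := by ring
    rw [e]
    exact (IsUltrametricDist.norm_add_le_max _ _).trans (max_le hx.le norm_one.le)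
  have e : x * y - 1 = x * (y - 1) + (x - 1) := by ring
  rw [e]
  refine (IsUltrametricDist.norm_add_le_max _ _).trans_lt (max_lt ?_ hx)
  rw [norm_mul]
  calc ‖x‖ * ‖y - 1‖ ≤ 1 * ‖y - 1‖ := by gcongr
    _ < 1 := by rw [one_mul]; exact hy

theorem a7_powone {x : ℂ_[p]} (hx : ‖x - 1‖ < 1) (n : ℕ) : ‖x ^ n - 1‖ < 1 := by
  induction n with
  | zero => simp
  | succ n ih => rw [pow_succ]; exact a7_mulone ih hx

theorem a7_inv (hV : GV A B V) (hL : LocM A B Om j act p V i T L) (N : ℕ) {ι : Type} [Fintype ι] (c : ι → 𝓞 F)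
    {x : ℂ_[p]} (hx : ‖x‖ ≤ 1) (n : ℕ) : L.Fn N ι (fun a => (i (vv (act (∑ k, c k * a k) (T N))) *
      (1 - x * i (tt (act (∑ k, c k * a k) (T N))) ^ 2 * i (vv (act (∑ k, c k * a k) (T N)))) ^ n)⁻¹) := by
  have hs := hL.ok.small
  refine Fn_inv (Fact.out : p.Prime).ne_zero hL.ok (u := 1) ?_ norm_one fun a => ?_
  · exact Fn_mul hs (fn_vv hV hL N c) (Fn_pow hs (Fn_sub (Fn_const norm_one.le)
      (Fn_mul hs (Fn_scal hs hx (Fn_pow hs (hL.fn N ι c) 2)) (fn_vv hV hL N c))) n)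
  · refine a7_mulone ?_ (a7_powone (a7_one hV hL N _ hx) n)
    have h1 := (loc_lt hL _).1 (vv_eq hV (hL.ker N (∑ k, c k * a k))).2.2
    rwa [map_sub, map_one] at h1

theorem fn_x (hV : GV A B V) (hL : LocM A B Om j act p V i T L) (N : ℕ) {ι : Type} [Fintype ι] (c : ι → 𝓞 F)
    {P : Pt (WAB A B) Ω} (hP : ¬ Ker V P) : L.Fn N ι (fun a => i (xc (P + act (∑ k, c k * a k) (T N)))) := by
  have hs := hL.ok.small
  have hA : ‖i (algebraMap F Ω A)‖ ≤ 1 := (hL.val _).1 hV.a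
  have hB : ‖i (algebraMap F Ω B)‖ ≤ 1 := (hL.val _).1 hV.b
  have hx : ‖i (xc P)‖ ≤ 1 := (loc_le hL _).1 (not_ker V hP).2
  have hy : ‖i (yc P)‖ ≤ 1 := (loc_le hL _).1 (gv_y hV hP)
  have ht := hL.fn N ι c
  have hv := fn_vv hV hL N c
  have e : (fun a : ι → 𝓞 F => i (xc (P + act (∑ k, c k * a k) (T N)))) = fun a =>
      (i (algebraMap F Ω A) * i (tt (act (∑ k, c k * a k) (T N))) ^ 2 * i (vv (act (∑ k, c k * a k) (T N))) ^ 2 +
        i (algebraMap F Ω B) * i (tt (act (∑ k, c k * a k) (T N))) ^ 4 * i (vv (act (∑ k, c k * a k) (T N))) ^ 3 -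
        ((2 : ℕ) : ℂ_[p]) * i (yc P) * i (tt (act (∑ k, c k * a k) (T N))) * i (vv (act (∑ k, c k * a k) (T N))) ^ 2 +
        i (yc P) ^ 2 * i (tt (act (∑ k, c k * a k) (T N))) ^ 4 * i (vv (act (∑ k, c k * a k) (T N))) ^ 3 +
        ((2 : ℕ) : ℂ_[p]) * i (xc P) * i (vv (act (∑ k, c k * a k) (T N))) -
        i (xc P) ^ 2 * i (tt (act (∑ k, c k * a k) (T N))) ^ 2 * i (vv (act (∑ k, c k * a k) (T N))) ^ 2) *
        (i (vv (act (∑ k, c k * a k) (T N))) *
          (1 - i (xc P) * i (tt (act (∑ k, c k * a k) (T N))) ^ 2 * i (vv (act (∑ k, c k * a k) (T N)))) ^ 2)⁻¹ -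
        i (xc P) := by
    funext a
    rw [(add_xy hV hP (hL.ker N (∑ k, c k * a k))).1]
    simp only [nX, map_sub, map_mul, map_add, map_inv₀, map_pow, map_one, map_ofNat, Nat.cast_ofNat]
  rw [e]
  have hxx : ‖i (xc P) ^ 2‖ ≤ 1 := by rw [norm_pow]; exact pow_le_one₀ (norm_nonneg _) hx
  have hyy : ‖i (yc P) ^ 2‖ ≤ 1 := by rw [norm_pow]; exact pow_le_one₀ (norm_nonneg _) hy
  have h2x : ‖((2 : ℕ) : ℂ_[p]) * i (xc P)‖ ≤ 1 := by
    rw [norm_mul]; exact mul_le_one₀ (a7_nat 2) (norm_nonneg _) hx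
  have h2y : ‖((2 : ℕ) : ℂ_[p]) * i (yc P)‖ ≤ 1 := by
    rw [norm_mul]; exact mul_le_one₀ (a7_nat 2) (norm_nonneg _) hy
  refine Fn_sub (Fn_mul hs ?_ (a7_inv hV hL N c hx 2)) (Fn_const hx)
  refine Fn_sub (Fn_add (Fn_add (Fn_sub (Fn_add ?_ ?_) ?_) ?_) ?_) ?_
  · exact Fn_mul hs (Fn_scal hs hA (Fn_pow hs ht 2)) (Fn_pow hs hv 2)
  · exact Fn_mul hs (Fn_scal hs hB (Fn_pow hs ht 4)) (Fn_pow hs hv 3)
  · exact Fn_mul hs (Fn_scal hs h2y ht) (Fn_pow hs hv 2)
  · exact Fn_mul hs (Fn_scal hs hyy (Fn_pow hs ht 4)) (Fn_pow hs hv 3)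
  · exact Fn_scal hs h2x hv
  · exact Fn_mul hs (Fn_scal hs hxx (Fn_pow hs ht 2)) (Fn_pow hs hv 2)

theorem fn_y (hV : GV A B V) (hL : LocM A B Om j act p V i T L) (N : ℕ) {ι : Type} [Fintype ι] (c : ι → 𝓞 F)
    {P : Pt (WAB A B) Ω} (hP : ¬ Ker V P) : L.Fn N ι (fun a => i (yc (P + act (∑ k, c k * a k) (T N)))) := by
  have hs := hL.ok.small
  have hA : ‖i (algebraMap F Ω A)‖ ≤ 1 := (hL.val _).1 hV.a
  have hB : ‖i (algebraMap F Ω B)‖ ≤ 1 := (hL.val _).1 hV.b
  have hx : ‖i (xc P)‖ ≤ 1 := (loc_le hL _).1 (not_ker V hP).2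
  have hy : ‖i (yc P)‖ ≤ 1 := (loc_le hL _).1 (gv_y hV hP)
  have ht := hL.fn N ι c
  have hv := fn_vv hV hL N c
  have e : (fun a : ι → 𝓞 F => i (yc (P + act (∑ k, c k * a k) (T N)))) = fun a =>
      -i (yc P) - (1 - i (yc P) * i (tt (act (∑ k, c k * a k) (T N))) ^ 3 * i (vv (act (∑ k, c k * a k) (T N)))) *
      (i (algebraMap F Ω A) * i (tt (act (∑ k, c k * a k) (T N))) * i (vv (act (∑ k, c k * a k) (T N))) ^ 2 +
        i (algebraMap F Ω B) * i (tt (act (∑ k, c k * a k) (T N))) ^ 3 * i (vv (act (∑ k, c k * a k) (T N))) ^ 3 -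
        ((2 : ℕ) : ℂ_[p]) * i (yc P) * i (vv (act (∑ k, c k * a k) (T N))) ^ 2 +
        i (yc P) ^ 2 * i (tt (act (∑ k, c k * a k) (T N))) ^ 3 * i (vv (act (∑ k, c k * a k) (T N))) ^ 3 +
        ((3 : ℕ) : ℂ_[p]) * i (xc P) ^ 2 * i (tt (act (∑ k, c k * a k) (T N))) * i (vv (act (∑ k, c k * a k) (T N))) ^ 2 -
        ((2 : ℕ) : ℂ_[p]) * i (xc P) ^ 3 * i (tt (act (∑ k, c k * a k) (T N))) ^ 3 *
          i (vv (act (∑ k, c k * a k) (T N))) ^ 3) *
        (i (vv (act (∑ k, c k * a k) (T N))) *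
          (1 - i (xc P) * i (tt (act (∑ k, c k * a k) (T N))) ^ 2 * i (vv (act (∑ k, c k * a k) (T N)))) ^ 3)⁻¹ := by
    funext a
    rw [(add_xy hV hP (hL.ker N (∑ k, c k * a k))).2]
    simp only [nY, map_sub, map_mul, map_add, map_inv₀, map_pow, map_one, map_neg, map_ofNat, Nat.cast_ofNat]
  rw [e]
  have hyy : ‖i (yc P) ^ 2‖ ≤ 1 := by rw [norm_pow]; exact pow_le_one₀ (norm_nonneg _) hy
  have h2y : ‖((2 : ℕ) : ℂ_[p]) * i (yc P)‖ ≤ 1 := by
    rw [norm_mul]; exact mul_le_one₀ (a7_nat 2) (norm_nonneg _) hy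
  have h3x : ‖((3 : ℕ) : ℂ_[p]) * i (xc P) ^ 2‖ ≤ 1 := by
    rw [norm_mul, norm_pow]; exact mul_le_one₀ (a7_nat 3) (pow_nonneg (norm_nonneg _) _) (pow_le_one₀ (norm_nonneg _) hx)
  have h2x : ‖((2 : ℕ) : ℂ_[p]) * i (xc P) ^ 3‖ ≤ 1 := by
    rw [norm_mul, norm_pow]; exact mul_le_one₀ (a7_nat 2) (pow_nonneg (norm_nonneg _) _) (pow_le_one₀ (norm_nonneg _) hx)
  refine Fn_sub (Fn_neg (Fn_const hy)) (Fn_mul hs (Fn_mul hs (Fn_sub (Fn_const norm_one.le)
    (Fn_mul hs (Fn_scal hs hy (Fn_pow hs ht 3)) hv)) ?_) (a7_inv hV hL N c hx 3))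
  refine Fn_sub (Fn_add (Fn_add (Fn_sub (Fn_add ?_ ?_) ?_) ?_) ?_) ?_
  · exact Fn_mul hs (Fn_scal hs hA ht) (Fn_pow hs hv 2)
  · exact Fn_mul hs (Fn_scal hs hB (Fn_pow hs ht 3)) (Fn_pow hs hv 3)
  · exact Fn_scal hs h2y (Fn_pow hs hv 2)
  · exact Fn_mul hs (Fn_scal hs hyy (Fn_pow hs ht 3)) (Fn_pow hs hv 3)
  · exact Fn_mul hs (Fn_scal hs h3x ht) (Fn_pow hs hv 2)
  · exact Fn_mul hs (Fn_scal hs h2x (Fn_pow hs ht 3)) (Fn_pow hs hv 3)

theorem x_cong (hV : GV A B V) (hL : LocM A B Om j act p V i T L) (N : ℕ) (a : 𝓞 F)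
    {P : Pt (WAB A B) Ω} (hP : ¬ Ker V P) : ‖i (xc (P + act a (T N))) - i (xc P)‖ < 1 := by
  rw [← map_sub, ← loc_lt hL]
  have hR := hL.ker N a
  have h1 := (transl hV hP hR).2.1
  have ht := ttlt hV hR
  have hy := gv_y hV hP
  have e : xc (P + act a (T N)) - xc P = (xc (P + act a (T N)) - xc P + 2 * yc P * tt (act a (T N))) -
      2 * yc P * tt (act a (T N)) := by ring
  rw [e]
  refine V.valuation.map_sub_lt ?_ ?_
  · exact h1.trans_lt (pow_lt_one₀ zero_le ht (by norm_num))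
  · rw [map_mul, map_mul]
    calc _ ≤ 1 * V.valuation (tt (act a (T N))) := by
          refine mul_le_mul_left ?_ _
          exact mul_le_one' hV.two.le hy
      _ < 1 := by rw [one_mul]; exact ht

end SSG
end

-- from Lib.SSG.E.A8
section

open NumberField IsDedekindDomain WeierstrassCurve

namespace SSG

open H55P (IQ embF eF LF Per IsHecke Pt ac Inert Dec)
open H35P (WAB Ker tt)
open H55K

variable {F : Type} [Field F] [NumberField F] [IQ F] {A B : F} {Om : ℂ} {Ω : Type} [Field Ω] [DecidableEq Ω]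
  [Algebra F Ω] {j : Ω →+* ℂ} {act : 𝓞 F →+* AddMonoid.End (Pt (WAB A B) Ω)} {p : ℕ} [Fact p.Prime]
  {V : ValuationSubring Ω} {i : Ω →+* ℂ_[p]} {T : ℕ → Pt (WAB A B) Ω} {L : LTF F ℂ_[p]}

/-- The point P has the parameter z. -/
def Um (A B : F) (Om : ℂ) (j : Ω →+* ℂ) (P : Pt (WAB A B) Ω) (z : ℂ) : Prop :=
  P ≠ 0 ∧ z ∉ (LF F).lattice ∧ j (xc P) = (LF F).weierstrassP z / Om ^ 2 ∧ j (yc P) = (LF F).derivWeierstrassP z / (2 * Om ^ 3)

/-! Chunk A8 (M). (0) T2_perz: reindex the sum over the lattice by l -> l + l0 (Equiv.addRight, Equiv.tsum_eq). (1) T2_lat: T2 (LF F) z u = 0 for u in the lattice: H35P.A4_F_per (T2 z (0 + u) = T2 z 0) and T2 z 0 = sum of tT z 0 l = 0 (each term is 2/(z+l) - 2/(z+l)).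
(2) T2_val: T_formula (H35P/A4.lean) with z, u, z + u, z - u not in the lattice: T2 * (wp z - wp u) = wp' z. Substitute wp z = j(xc P) Om^2, wp u = j(xc Q) Om^2, wp' z = 2 Om^3 j (yc P) (Om <> 0: Per); divide by Om^3. xc P <> xc Q because
wp z <> wp u (H35P wp_ne / or: if xc P = xc Q then yc P = 0 .. not needed: hypothesis hne). -/

theorem T2_perz (z u w : ℂ) (hw : w ∈ (LF F).lattice) : H35P.T2 (LF F) (z + w) u = H35P.T2 (LF F) z u := by
  unfold H35P.T2
  rw [← Equiv.tsum_eq (Equiv.addRight (⟨w, hw⟩ : (LF F).lattice)) (fun l => H35P.tT (LF F) z u l)]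
  refine tsum_congr fun l => ?_
  unfold H35P.tT
  have e : (((Equiv.addRight (⟨w, hw⟩ : (LF F).lattice)) l : (LF F).lattice) : ℂ) = (l : ℂ) + w := rfl
  rw [e]
  have e1 : z + w + u + (l : ℂ) = z + u + ((l : ℂ) + w) := by ring
  have e2 : z + w - u + (l : ℂ) = z - u + ((l : ℂ) + w) := by ring
  have e3 : z + w + (l : ℂ) = z + ((l : ℂ) + w) := by ring
  rw [e1, e2, e3]

theorem T2_lat (z u : ℂ) (hu : u ∈ (LF F).lattice) : H35P.T2 (LF F) z u = 0 := by
  have h1 := H35P.A4_F_per (LF F) z 0 u hu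
  rw [zero_add] at h1
  rw [h1]
  unfold H35P.T2 H35P.tT
  have h2 : ∀ l : (LF F).lattice, (z + 0 + (l : ℂ))⁻¹ + (z - 0 + (l : ℂ))⁻¹ - 2 * (z + (l : ℂ))⁻¹ = 0 := by
    intro l
    rw [add_zero, sub_zero]
    ring
  simp_rw [h2]
  exact tsum_zero

theorem T2_val (hOm : Om ≠ 0) {P Q : Pt (WAB A B) Ω} {z u : ℂ} (hP : Um A B Om j P z) (hQ : Um A B Om j Q u)
    (h1 : z + u ∉ (LF F).lattice) (h2 : z - u ∉ (LF F).lattice) (hne : xc P ≠ xc Q) :
    H35P.T2 (LF F) z u / Om = j (2 * yc P * (xc P - xc Q)⁻¹) := by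
  have h3 := H35P.T_formula (LF F) z u hP.2.1 hQ.2.1 h1 h2
  have h4 := hP.2.2.1
  have h5 := hP.2.2.2
  have h6 := hQ.2.2.1
  have hx : j (xc P) - j (xc Q) ≠ 0 := sub_ne_zero.2 fun h => hne (j.injective h)
  have e1 : (LF F).weierstrassP z = j (xc P) * Om ^ 2 := by rw [h4]; field_simp
  have e2 : (LF F).weierstrassP u = j (xc Q) * Om ^ 2 := by rw [h6]; field_simp
  have e3 : (LF F).derivWeierstrassP z = j (yc P) * (2 * Om ^ 3) := by rw [h5]; field_simp
  rw [e1, e2, e3] at h3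
  rw [map_mul, map_mul, map_inv₀, map_sub, map_ofNat, div_eq_iff hOm]
  field_simp
  have h7 : H35P.T2 (LF F) z u * (j (xc P) - j (xc Q)) * Om ^ 2 = 2 * j (yc P) * Om * Om ^ 2 := by
    linear_combination h3
  exact mul_right_cancel₀ (pow_ne_zero 2 hOm) h7

end SSG
end

-- from Lib.SSG.E.A9
section

open NumberField IsDedekindDomain WeierstrassCurve

namespace SSG

open H55P (IQ embF eF LF Per IsHecke Pt ac Inert Dec)
open H35P (WAB Ker tt)
open H55K

variable {F : Type} [Field F] [NumberField F] [IQ F] {A B : F} {Om : ℂ} {Ω : Type} [Field Ω] [DecidableEq Ω]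
  [Algebra F Ω] {j : Ω →+* ℂ} {act : 𝓞 F →+* AddMonoid.End (Pt (WAB A B) Ω)} {p : ℕ} [Fact p.Prime]
  {V : ValuationSubring Ω} {i : Ω →+* ℂ_[p]} {T : ℕ → Pt (WAB A B) Ω} {L : LTF F ℂ_[p]}

/-! Chunk A9 (M/L). One second difference as a function of the torsion point of p-power order. Case e(δ)/M in the lattice: hh = 0 (T2_lat). Otherwise put b := (-p)^N M (in 𝓞 F), T_b from h.gen b (h := CMA): act a T_b has the parameter e(a)/e(b) for b not dividing a;
e(x)/e(b) is in the lattice LF F iff b | x (mem_LF, eF_inj). act M T_b = T N: both are zero if N = 0; in general compare the coordinates (h.gen and hL.unif at a = 1; j injective; two nonzero points with the same xc, yc are equal), or act 1.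
P₀ := act ((-p)^N τ) T_b, Q := act ((-p)^N δ) T_b, killed by M (n • = act of the natural number). P₀ + act s (T N) = act ((-p)^N τ + M s) T_b has the parameter e(s)/(-p)^N + e(τ)/M. l divides M, δ, not τ and not p (coprime): so l does not divide (-p)^N (τ + δ') + M s
for δ' in {0, δ, -δ}: none of these elements is divisible by b (l | b). Hence: P₀, P₀ + Q, P₀ - Q, Q nonzero, of order prime to p (V(M) = 1), so not in Ker (ker_tors), V(xc P₀ - xc Q) = 1 (cls_diff). T2_val for z, u; xc (P₀ + R) <> xc Q because ‖i xc (P₀+R) - i xc P₀‖ < 1 = ‖i xc P₀ - i xc Q‖.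
hh a = 2 * yc (P₀ + R a) * (xc (P₀ + R a) - xc Q)⁻¹, R a = act (sum c_k a_k) (T N). i (hh a): fn_y, fn_x, Fn_const, Fn_sub, Fn_inv with u = i xc P₀ - i xc Q, Fn_mul, ‖2‖ <= 1. -/

section mult

variable {M R : Type} [AddCommGroup M] [CommRing R] {act : R →+* AddMonoid.End M}

theorem a9_mul (a b : R) (P : M) : act (a * b) P = act a (act b P) := by rw [map_mul]; rfl

theorem a9_add (a b : R) (P : M) : act (a + b) P = act a P + act b P := by rw [map_add]; rfl

theorem a9_sub (a b : R) (P : M) : act (a - b) P = act a P - act b P := by rw [map_sub]; rfl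

theorem a9_one (P : M) : act (1 : R) P = P := by rw [map_one]; rfl

theorem a9_nat (n : ℕ) (P : M) : act (n : R) P = n • P := by
  rw [map_natCast]
  induction n with
  | zero => rw [Nat.cast_zero, zero_smul]; rfl
  | succ n ih => rw [Nat.cast_succ, succ_nsmul, ← ih]; rfl

end mult

omit [DecidableEq Ω] in
theorem a9_val (hVp : V.valuation (p : Ω) < 1) {M : ℕ} (hpM : ¬ p ∣ M) : V.valuation (M : Ω) = 1 := by
  have hle : ∀ n : ℕ, V.valuation (n : Ω) ≤ 1 := fun n => (V.valuation_le_one_iff _).2 (natCast_mem V n)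
  have hlz : ∀ n : ℤ, V.valuation (n : Ω) ≤ 1 := fun n => (V.valuation_le_one_iff _).2 (intCast_mem V n)
  refine le_antisymm (hle M) (not_lt.1 fun hlt => ?_)
  have hc : Nat.gcd p M = 1 := (Nat.Prime.coprime_iff_not_dvd (Fact.out : p.Prime)).2 hpM
  have h1 := Nat.gcd_eq_gcd_ab p M
  rw [hc] at h1
  have h2 : (1 : Ω) = (p : Ω) * ((p.gcdA M : ℤ) : Ω) + (M : Ω) * ((p.gcdB M : ℤ) : Ω) := by
    have := congrArg (fun z : ℤ => (z : Ω)) h1
    push_cast at this
    exact this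
  have h3 : V.valuation (1 : Ω) < 1 := by
    rw [h2]
    refine V.valuation.map_add_lt ?_ ?_
    · rw [map_mul]
      exact (mul_le_of_le_one_right' (hlz _)).trans_lt hVp
    · rw [map_mul]
      exact (mul_le_of_le_one_right' (hlz _)).trans_lt hlt
  rw [map_one] at h3
  exact lt_irrefl _ h3

theorem term_fn (h : CMA F A B Om j act) (hV : GV A B V) (hVp : V.valuation (p : Ω) < 1) (hL : LocM A B Om j act p V i T L)
    (N : ℕ) {ι : Type} [Fintype ι] (c : ι → 𝓞 F) {l τ δ : 𝓞 F} {M : ℕ} (hM : M ≠ 0) (hpM : ¬ p ∣ M) (hl : Prime l)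
    (hlp : IsCoprime l (p : 𝓞 F)) (hlM : l ∣ (M : 𝓞 F)) (hlδ : l ∣ δ) (hlτ : ¬ l ∣ τ) :
    ∃ hh : (ι → 𝓞 F) → Ω, (∀ a, j (hh a) = H35P.T2 (LF F)
        (eF F (∑ k, c k * a k) / (-(p : ℂ)) ^ N + eF F τ / M) (eF F δ / M) / Om) ∧
      L.Fn N ι (fun a => i (hh a)) := by
  classical
  have hOm : Om ≠ 0 := h.per.ne
  have hMC : (M : ℂ) ≠ 0 := Nat.cast_ne_zero.2 hM
  have hpC : (-(p : ℂ)) ^ N ≠ 0 := pow_ne_zero N (neg_ne_zero.2 (Nat.cast_ne_zero.2 (Fact.out : p.Prime).ne_zero))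
  by_cases hMδ : (M : 𝓞 F) ∣ δ
  · obtain ⟨δ', rfl⟩ := hMδ
    refine ⟨fun _ => 0, fun a => ?_, ?_⟩
    · rw [map_zero, T2_lat, zero_div]
      rw [H55P.mem_LF]
      refine ⟨δ', ?_⟩
      rw [map_mul, map_natCast]
      field_simp
    · have := Fn_const (L := L) (N := N) (ι := ι) (c := (0 : ℂ_[p])) (by rw [norm_zero]; exact zero_le_one)
      simpa only [map_zero] using this
  · set q : 𝓞 F := (-(p : 𝓞 F)) ^ N with hq
    have hpO : (p : 𝓞 F) ≠ 0 := Nat.cast_ne_zero.2 (Fact.out : p.Prime).ne_zero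
    have hq0 : q ≠ 0 := pow_ne_zero N (neg_ne_zero.2 hpO)
    have hMO : (M : 𝓞 F) ≠ 0 := Nat.cast_ne_zero.2 hM
    have hb0 : q * M ≠ 0 := mul_ne_zero hq0 hMO
    have hqe : eF F q = (-(p : ℂ)) ^ N := by rw [hq, map_pow, map_neg, map_natCast]
    have hbe : eF F (q * M) = (-(p : ℂ)) ^ N * M := by rw [map_mul, hqe, map_natCast]
    have hqp : q = (-1) ^ N * (p : 𝓞 F) ^ N := by rw [hq, neg_pow]
    have hs1 : ((-1 : 𝓞 F) ^ N) * (-1) ^ N = 1 := by rw [← mul_pow]; simp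
    obtain ⟨Tb, -, -, hzero, hco⟩ := h.gen (q * M) hb0
    -- parameters
    have hnl : ∀ a : 𝓞 F, ¬ q * M ∣ a → eF F a / eF F (q * M) ∉ (LF F).lattice := by
      intro a ha hmem
      rw [H55P.mem_LF] at hmem
      obtain ⟨y, hy⟩ := hmem
      apply ha
      refine ⟨y, H55P.eF_inj ?_⟩
      rw [map_mul, ← hy, mul_div_cancel₀]
      rw [hbe]
      exact mul_ne_zero hpC hMC
    have hUm : ∀ a : 𝓞 F, ¬ q * M ∣ a → Um A B Om j (act a Tb) (eF F a / eF F (q * M)) := fun a ha =>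
      ⟨fun h0 => ha ((hzero a).1 h0), hnl a ha, (hco a ha).1, (hco a ha).2⟩
    -- T N
    have hTN : act (M : 𝓞 F) Tb = T N := by
      by_cases hu : (p : 𝓞 F) ^ N ∣ 1
      · have h1 : T N = 0 := by
          have := (hL.zero N 1).2 hu
          rwa [a9_one] at this
        rw [h1, hzero]
        obtain ⟨c, hc⟩ := hu
        refine ⟨(-1) ^ N * c, ?_⟩
        rw [hqp]
        linear_combination (M : 𝓞 F) * hc - (M : 𝓞 F) * (p : 𝓞 F) ^ N * c * hs1
      · have h1 : T N ≠ 0 := by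
          intro h0
          apply hu
          rw [← hL.zero N 1, a9_one, h0]
        have h2 : ¬ q * M ∣ (M : 𝓞 F) := by
          rintro ⟨c, hc⟩
          apply hu
          refine ⟨(-1) ^ N * c, ?_⟩
          have h3 : (M : 𝓞 F) * 1 = M * (q * c) := by linear_combination hc
          linear_combination mul_left_cancel₀ hMO h3 + c * hqp
        have h4 := hL.unif N 1 hu
        rw [a9_one] at h4
        have h5 := hUm _ h2
        have h6 : eF F (M : 𝓞 F) / eF F (q * M) = eF F 1 / (-(p : ℂ)) ^ N := by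
          rw [hbe, map_one, map_natCast]
          field_simp
        refine pt_ext h5.1 h1 (j.injective ?_) (j.injective ?_)
        · rw [h5.2.2.1, h6, h4.1]
        · rw [h5.2.2.2, h6, h4.2]
    -- divisibility
    have hlq : ¬ l ∣ q := by
      intro hd
      have h1 := (hl.dvd_of_dvd_pow (hq ▸ hd : l ∣ (-(p : 𝓞 F)) ^ N))
      rw [dvd_neg] at h1
      exact hl.not_isUnit (hlp.isUnit_of_dvd' dvd_rfl h1)
    have hlb : l ∣ q * M := hlM.mul_left q
    have hnd : ∀ (δ' s : 𝓞 F), l ∣ δ' → ¬ q * M ∣ q * τ + q * δ' + s * M := by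
      intro δ' s hδ' hd
      have h1 : l ∣ q * τ + q * δ' + s * M := hlb.trans hd
      have h2 : l ∣ q * τ := by
        have h3 : q * τ = (q * τ + q * δ' + s * M) - (q * δ' + s * M) := by ring
        rw [h3]
        exact dvd_sub h1 (dvd_add (hδ'.mul_left q) (hlM.mul_left s))
      rcases hl.dvd_or_dvd h2 with h4 | h4
      · exact hlq h4
      · exact hlτ h4
    have hndQ : ¬ q * M ∣ q * δ := by
      rintro ⟨c, hc⟩
      apply hMδ
      refine ⟨c, ?_⟩
      have h3 : q * δ = q * (M * c) := by linear_combination hc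
      exact mul_left_cancel₀ hq0 h3
    -- prime to p
    have hVM := a9_val (V := V) hVp hpM
    have hnk : ∀ y : 𝓞 F, ¬ q * M ∣ q * y → ¬ Ker V (act (q * y) Tb) := by
      intro y hy hk
      apply hy
      rw [← hzero]
      refine ker_tors hV M hVM ?_ hk
      rw [← a9_nat (act := act), ← a9_mul, hzero]
      exact ⟨y, by ring⟩
    have hP : ¬ Ker V (act (q * τ) Tb) := hnk τ (by
      have := hnd 0 0 (dvd_zero l)
      simpa using this)
    have hQ : ¬ Ker V (act (q * δ) Tb) := hnk δ hndQ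
    have hPQ : ¬ Ker V (act (q * τ) Tb - act (q * δ) Tb) := by
      rw [← a9_sub, ← mul_sub]
      refine hnk _ ?_
      have := hnd (-δ) 0 ((dvd_neg).2 hlδ)
      have e : q * (τ - δ) = q * τ + q * (-δ) + 0 * M := by ring
      rw [e]
      exact this
    have hPQ' : ¬ Ker V (act (q * τ) Tb + act (q * δ) Tb) := by
      rw [← a9_add, ← mul_add]
      refine hnk _ ?_
      have := hnd δ 0 hlδ
      have e : q * (τ + δ) = q * τ + q * δ + 0 * M := by ring
      rw [e]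
      exact this
    have hcls := cls_diff hV hP hQ hPQ hPQ'
    rw [loc_eq hL, map_sub] at hcls
    set P₀ := act (q * τ) Tb with hP₀
    set Q := act (q * δ) Tb with hQ₀
    have hsum : ∀ s : 𝓞 F, P₀ + act s (T N) = act (q * τ + s * M) Tb := by
      intro s
      rw [a9_add, a9_mul s, hTN]
    have hxq : ∀ s : 𝓞 F, xc (P₀ + act s (T N)) ≠ xc Q := by
      intro s he
      have h1 := x_cong hV hL N s hP
      rw [he, norm_sub_rev] at h1
      exact (ne_of_lt h1) hcls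
    have hz : ∀ s : 𝓞 F, eF F s / (-(p : ℂ)) ^ N + eF F τ / M = eF F (q * τ + s * M) / eF F (q * M) := by
      intro s
      rw [hbe, map_add, map_mul, map_mul, hqe, map_natCast]
      field_simp
      ring
    have hu : eF F δ / M = eF F (q * δ) / eF F (q * M) := by
      rw [hbe, map_mul, hqe]
      field_simp
    refine ⟨fun a => 2 * yc (P₀ + act (∑ k, c k * a k) (T N)) *
      (xc (P₀ + act (∑ k, c k * a k) (T N)) - xc Q)⁻¹, fun a => ?_, ?_⟩
    · set s := ∑ k, c k * a k with hs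
      have hnd0 := hnd 0 s (dvd_zero l)
      rw [mul_zero, add_zero] at hnd0
      have hU1 : Um A B Om j (P₀ + act s (T N)) (eF F s / (-(p : ℂ)) ^ N + eF F τ / M) := by
        rw [hsum, hz]
        exact hUm _ hnd0
      have hU2 : Um A B Om j Q (eF F δ / M) := by
        rw [hu]
        exact hUm _ hndQ
      refine (T2_val hOm hU1 hU2 ?_ ?_ (hxq s)).symm
      · rw [hz, hu, ← add_div, ← map_add]
        refine hnl _ ?_
        have := hnd δ s hlδ
        have e : q * τ + s * M + q * δ = q * τ + q * δ + s * M := by ring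
        rw [e]
        exact this
      · rw [hz, hu, ← sub_div, ← map_sub]
        refine hnl _ ?_
        have := hnd (-δ) s ((dvd_neg).2 hlδ)
        have e : q * τ + s * M - q * δ = q * τ + q * (-δ) + s * M := by ring
        rw [e]
        exact this
    · have hs := hL.ok.small
      have hxQ : ‖i (xc Q)‖ ≤ 1 := (loc_le hL _).1 (not_ker V hQ).2
      have h2 : ‖(2 : ℂ_[p])‖ ≤ 1 := by
        have := a7_nat (p := p) 2
        rwa [Nat.cast_ofNat] at this
      have e : (fun a : ι → 𝓞 F => i (2 * yc (P₀ + act (∑ k, c k * a k) (T N)) *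
          (xc (P₀ + act (∑ k, c k * a k) (T N)) - xc Q)⁻¹)) = fun a =>
          2 * i (yc (P₀ + act (∑ k, c k * a k) (T N))) *
          (i (xc (P₀ + act (∑ k, c k * a k) (T N))) - i (xc Q))⁻¹ := by
        funext a
        rw [map_mul, map_mul, map_inv₀, map_sub, map_ofNat]
      rw [e]
      refine Fn_mul hs (Fn_scal hs h2 (fn_y hV hL N c hP)) ?_
      refine Fn_inv (Fact.out : p.Prime).ne_zero hL.ok (u := i (xc P₀) - i (xc Q))
        (Fn_sub (fn_x hV hL N c hP) (Fn_const hxQ)) hcls fun a => ?_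
      have h3 := x_cong hV hL N (∑ k, c k * a k) hP
      have e2 : i (xc (P₀ + act (∑ k, c k * a k) (T N))) - i (xc Q) - (i (xc P₀) - i (xc Q)) =
          i (xc (P₀ + act (∑ k, c k * a k) (T N))) - i (xc P₀) := by ring
      rw [e2]
      exact h3

end SSG
end
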