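import Mathlib

/-! Merged copies (to shorten the build) of Lib.H13D.E7, Lib.H16A.C1, Lib.H16A.C2, Lib.H16C.TR1, Lib.H16F.E7a, Lib.H16F.E1, Lib.H16F.E2, Lib.H16F.E3, Lib.H19X.He, Lib.SSG.Z.C1, Lib.H28I.E1, Lib.H28I.E2, Lib.SSG.S.M2, Lib.H55W.G4, Lib.H55W.ZA, Lib.H55Z.P2. -/

-- from Lib.H13D.E7
section

/-! # H13D, part E: rational numbers and valuation rings -/

namespace H13D

theorem e7_int_le {Ω : Type} [Field Ω] (V : ValuationSubring Ω) (n : ℤ) : V.valuation (n : Ω) ≤ 1 := by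
  rw [V.valuation_le_one_iff]
  exact intCast_mem V n

theorem e7_int_lt {Ω : Type} [Field Ω] (V : ValuationSubring Ω) {p : ℕ} (hp : p.Prime) (hV : V.valuation (p : Ω) < 1)
    (n : ℤ) : V.valuation (n : Ω) < 1 ↔ (p : ℤ) ∣ n := by
  constructor
  · intro h
    by_contra hn
    have hc : IsCoprime (p : ℤ) n := by
      rw [Int.isCoprime_iff_gcd_eq_one]
      rw [← Int.isCoprime_iff_gcd_eq_one]
      exact (Prime.coprime_iff_not_dvd (Nat.prime_iff_prime_int.1 hp)).2 hn
    obtain ⟨u, w, huw⟩ := hc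
    have h1 : (u : Ω) * (p : Ω) + (w : Ω) * (n : Ω) = 1 := by exact_mod_cast congrArg (fun z : ℤ => (z : Ω)) huw
    have h2 : V.valuation ((u : Ω) * (p : Ω) + (w : Ω) * (n : Ω)) < 1 := by
      refine Valuation.map_add_lt _ ?_ ?_
      · rw [map_mul]
        exact mul_lt_one_of_nonneg_of_lt_one_right (e7_int_le V u) zero_le hV
      · rw [map_mul]
        exact mul_lt_one_of_nonneg_of_lt_one_right (e7_int_le V w) zero_le h
    rw [h1, map_one] at h2
    exact lt_irrefl _ h2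
  · rintro ⟨c, rfl⟩
    push_cast
    rw [map_mul]
    exact mul_lt_one_of_lt_of_le hV (e7_int_le V c)

theorem e7_int_eq {Ω : Type} [Field Ω] (V : ValuationSubring Ω) {p : ℕ} (hp : p.Prime) (hV : V.valuation (p : Ω) < 1)
    {n : ℤ} (hn : ¬ (p : ℤ) ∣ n) : V.valuation (n : Ω) = 1 := by
  refine le_antisymm (e7_int_le V n) (not_lt.1 fun h => hn ((e7_int_lt V hp hV n).1 h))

theorem e7_rat {Ω : Type} [Field Ω] [Algebra ℚ Ω] (q : ℚ) : algebraMap ℚ Ω q * ((q.den : ℤ) : Ω) = ((q.num : ℤ) : Ω) := by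
  have h1 : q * (q.den : ℚ) = (q.num : ℚ) := Rat.mul_den_eq_num q
  have h2 := congrArg (algebraMap ℚ Ω) h1
  rw [map_mul, map_natCast, map_intCast] at h2
  rw [← h2]
  push_cast
  rfl

/-- Chunk E7 (S/M). V(n) ≤ 1 for integers n; V(n) < 1 iff p divides n (if not, u n + w p = 1); q = num/den, num and den are coprime. -/
theorem rat_le {Ω : Type} [Field Ω] [Algebra ℚ Ω] (V : ValuationSubring Ω) {p : ℕ} (hp : p.Prime) (hV : V.valuation (p : Ω) < 1)
    (q : ℚ) (hq : V.valuation (algebraMap ℚ Ω q) ≤ 1) : ¬ p ∣ q.den := by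
  intro hd
  have h1 : ¬ (p : ℤ) ∣ q.num := by
    intro h2
    have h3 := q.reduced
    have h4 : p ∣ q.num.natAbs := Int.natCast_dvd.1 h2
    have h5 := Nat.dvd_gcd h4 hd
    rw [Nat.Coprime] at h3
    rw [h3] at h5
    exact hp.one_lt.ne' (Nat.dvd_one.1 h5)
  have h2 := congrArg V.valuation (e7_rat (Ω := Ω) q)
  rw [map_mul, e7_int_eq V hp hV h1] at h2
  have h3 : V.valuation ((q.den : ℤ) : Ω) < 1 := (e7_int_lt V hp hV _).2 (by exact_mod_cast hd)
  have h4 : V.valuation (algebraMap ℚ Ω q) * V.valuation ((q.den : ℤ) : Ω) < 1 :=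
    mul_lt_one_of_nonneg_of_lt_one_right hq zero_le h3
  rw [h2] at h4
  exact lt_irrefl _ h4

/-- Chunk E7 (S). rat_le for q and its inverse (or directly). -/
theorem rat_eq {Ω : Type} [Field Ω] [Algebra ℚ Ω] (V : ValuationSubring Ω) {p : ℕ} (hp : p.Prime) (hV : V.valuation (p : Ω) < 1)
    (q : ℚ) (hq : V.valuation (algebraMap ℚ Ω q) = 1) : ¬ (p : ℤ) ∣ q.num ∧ ¬ p ∣ q.den := by
  have h1 := rat_le V hp hV q hq.le
  refine ⟨fun h2 => ?_, h1⟩
  have h3 := congrArg V.valuation (e7_rat (Ω := Ω) q)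
  have h4 : V.valuation ((q.den : ℤ) : Ω) = 1 := e7_int_eq V hp hV (by exact_mod_cast h1)
  rw [map_mul, hq, h4, one_mul] at h3
  have h5 := (e7_int_lt V hp hV q.num).2 h2
  rw [← h3] at h5
  exact lt_irrefl _ h5

theorem e7_sq {x : ℤ} (hx : ¬ (2 : ℤ) ∣ x) : ∃ k : ℤ, x ^ 2 = 4 * k + 1 := by
  obtain ⟨k, hk⟩ : Odd x := Int.not_even_iff_odd.1 fun h => hx (even_iff_two_dvd.1 h)
  exact ⟨k ^ 2 + k, by rw [hk]; ring⟩

theorem e7_odd_mul {x y : ℤ} (hx : ¬ (2 : ℤ) ∣ x) (hy : ¬ (2 : ℤ) ∣ y) : ¬ (2 : ℤ) ∣ x * y := by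
  intro h
  rcases Int.prime_two.dvd_or_dvd h with h | h
  · exact hx h
  · exact hy h

/-- Chunk E7 (M). Put n = e.num * e.den (an integer ≠ 0), e = n/den^2. |n| = b^2 c with c squarefree (Nat.sq_mul_squarefree), d = sign(n) c, f = b/den: e = d f^2, f ≠ 0. A prime p dividing d divides n, so it divides e.num or e.den, so p divides N (h). If 2 does not divide N: n, den, b, d are odd; e = z^2 + 4w with z, w of odd denominators:
n (z.den w.den)^2 = (z.num e.den w.den)^2 + 4 (integer) (multiply by (e.den z.den w.den)^2), odd squares are 1 modulo 4 (even 8) and the left side is odd, so n is 1 modulo 4, and n = d b^2 gives d % 4 = 1 (Int.emod_emod_of_dvd, decide on residues modulo 4). -/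
theorem e_form {N : ℕ} {e : ℚ} (he : e ≠ 0) (h : ∀ p : ℕ, p.Prime → ¬ p ∣ N → ¬ (p : ℤ) ∣ e.num ∧ ¬ p ∣ e.den)
    (h2 : ¬ 2 ∣ N → ∃ z w : ℚ, e = z ^ 2 + 4 * w ∧ ¬ 2 ∣ z.den ∧ ¬ 2 ∣ w.den) :
    ∃ (d : ℤ) (f : ℚ), Squarefree d ∧ f ≠ 0 ∧ e = d * f ^ 2 ∧ (∀ p : ℕ, p.Prime → (p : ℤ) ∣ d → p ∣ N) ∧ (¬ 2 ∣ N → d % 4 = 1) := by
  have hden0 : (e.den : ℚ) ≠ 0 := by exact_mod_cast e.den_nz
  have hnum0 : e.num ≠ 0 := Rat.num_ne_zero.2 he
  set n : ℤ := e.num * e.den with hn
  have hn0 : n ≠ 0 := mul_ne_zero hnum0 (by exact_mod_cast e.den_nz)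
  have hen : e * (e.den : ℚ) ^ 2 = (n : ℚ) := by
    have h1 : e * (e.den : ℚ) = (e.num : ℚ) := Rat.mul_den_eq_num e
    rw [hn, sq, ← mul_assoc, h1]
    push_cast
    ring
  obtain ⟨c, b, hbc, hcs⟩ := Nat.sq_mul_squarefree n.natAbs
  have hbcn : n = n.sign * c * (b : ℤ) ^ 2 := by
    have h1 : ((b : ℤ) ^ 2 * c) = (n.natAbs : ℤ) := by exact_mod_cast hbc
    rw [mul_assoc, mul_comm (c : ℤ), h1]
    exact (Int.sign_mul_natAbs n).symm
  set d : ℤ := n.sign * c with hd
  have hdabs : d.natAbs = c := by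
    rw [hd, Int.natAbs_mul, Int.natAbs_sign_of_ne_zero hn0, one_mul, Int.natAbs_natCast]
  have hb0 : (b : ℚ) ≠ 0 := by
    intro h1
    have h3 : (b : ℤ) = 0 := by exact_mod_cast h1
    rw [h3] at hbcn
    apply hn0
    rw [hbcn]
    ring
  have hdiv : ∀ p : ℕ, p.Prime → (p : ℤ) ∣ n → p ∣ N := by
    intro p hp hpn
    by_contra hN
    obtain ⟨h3, h4⟩ := h p hp hN
    rcases (Nat.prime_iff_prime_int.1 hp).dvd_or_dvd hpn with h5 | h5
    · exact h3 h5
    · exact h4 (by exact_mod_cast h5)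
  refine ⟨d, b / e.den, ?_, div_ne_zero hb0 hden0, ?_, ?_, ?_⟩
  · rw [← Int.squarefree_natAbs, hdabs]
    exact hcs
  · have h1 : (n : ℚ) = (d : ℚ) * (b : ℚ) ^ 2 := by exact_mod_cast congrArg (fun z : ℤ => (z : ℚ)) hbcn
    rw [h1] at hen
    field_simp
    exact hen
  · intro p hp hpd
    refine hdiv p hp ?_
    rw [hbcn]
    exact dvd_mul_of_dvd_left hpd _
  · intro h2N
    obtain ⟨z, w, hzw, hz, hw⟩ := h2 h2N
    have hnodd : ¬ (2 : ℤ) ∣ n := fun h3 => h2N (hdiv 2 Nat.prime_two (by exact_mod_cast h3))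
    have hz' : ¬ (2 : ℤ) ∣ (z.den : ℤ) := fun h3 => hz (by exact_mod_cast h3)
    have hw' : ¬ (2 : ℤ) ∣ (w.den : ℤ) := fun h3 => hw (by exact_mod_cast h3)
    have hid : n * ((z.den : ℤ) * w.den) ^ 2 = ((e.den : ℤ) * z.num * w.den) ^ 2 +
        4 * ((e.den : ℤ) ^ 2 * w.num * w.den * (z.den : ℤ) ^ 2) := by
      have h3 : z * (z.den : ℚ) = (z.num : ℚ) := Rat.mul_den_eq_num z
      have h4 : w * (w.den : ℚ) = (w.num : ℚ) := Rat.mul_den_eq_num w
      have h5 : ((n * ((z.den : ℤ) * w.den) ^ 2 : ℤ) : ℚ) = ((((e.den : ℤ) * z.num * w.den) ^ 2 +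
        4 * ((e.den : ℤ) ^ 2 * w.num * w.den * (z.den : ℤ) ^ 2) : ℤ) : ℚ) := by
        push_cast
        rw [← hen, ← h3, ← h4, hzw]
        ring
      exact_mod_cast h5
    obtain ⟨k₁, hk₁⟩ := e7_sq (e7_odd_mul hz' hw')
    have hodd : ¬ (2 : ℤ) ∣ (e.den : ℤ) * z.num * w.den := by
      intro h3
      have h4 : ¬ (2 : ℤ) ∣ n * ((z.den : ℤ) * w.den) ^ 2 := by
        rw [sq]
        exact e7_odd_mul hnodd (e7_odd_mul (e7_odd_mul hz' hw') (e7_odd_mul hz' hw'))
      apply h4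
      rw [hid]
      refine dvd_add ?_ ?_
      · rw [sq]
        exact dvd_mul_of_dvd_left h3 _
      · exact dvd_mul_of_dvd_left (by norm_num) _
    obtain ⟨k₂, hk₂⟩ := e7_sq hodd
    have hbodd : ¬ (2 : ℤ) ∣ (b : ℤ) := by
      intro h3
      apply hnodd
      rw [hbcn, sq]
      exact dvd_mul_of_dvd_right (dvd_mul_of_dvd_left h3 _) _
    obtain ⟨k₃, hk₃⟩ := e7_sq hbodd
    rw [hk₁, hk₂] at hid
    rw [hk₃] at hbcn
    have h6 : n = 4 * (k₂ + (e.den : ℤ) ^ 2 * w.num * w.den * (z.den : ℤ) ^ 2 - n * k₁) + 1 := by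
      linear_combination hid
    have h7 : d = 4 * (k₂ + (e.den : ℤ) ^ 2 * w.num * w.den * (z.den : ℤ) ^ 2 - n * k₁ - d * k₃) + 1 := by
      linear_combination h6 - hbcn
    generalize (k₂ + (e.den : ℤ) ^ 2 * w.num * w.den * (z.den : ℤ) ^ 2 - n * k₁ - d * k₃) = M at h7
    omega

end H13D
end

-- from Lib.H16A.C1
section

/-!
# C1 (M): the ring of integers of the completion `K_v` of a number field

* `isAdicComplete_integers`: `O_v` is a complete discrete valuation ring.  Mathlib proves this for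
  `𝒪[K]` of a nonarchimedean local field (`Mathlib/NumberTheory/LocalField/Basic.lean`, the instance
  `IsAdicComplete 𝓂[K] 𝒪[K]`); either transport it, or directly: `K_v` is complete for the
  valuation topology, a Cauchy sequence for the `𝔪`-adic topology (`x_{n+1} - x_n ∈ 𝔪^n`) converges
  in `K_v`, and the ideals `𝔪^n = {x : v(x) ≤ exp(-n)}` are closed.
* `finite_residueField`: the residue field is `𝓞 K / v`, finite: every element of `O_v` is congruent
  modulo `𝔪` to an element of `𝓞 K` (density), see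
  `Mathlib/NumberTheory/NumberField/Completion/FinitePlace.lean`.
* `isAdicComplete_p`: `(p) = 𝔪^e` with `e ≥ 1`, so the `(p)`-adic and the `𝔪`-adic topologies
  coincide.
-/

open Polynomial IsDedekindDomain NumberField

namespace H16A

variable {K : Type*} [Field K] [NumberField K] (v : HeightOneSpectrum (𝓞 K))

open IsDedekindDomain.HeightOneSpectrum WithZeroMulInt in
theorem C1_norm_le_iff (x y : v.adicCompletion K) : ‖x‖ ≤ ‖y‖ ↔ Valued.v x ≤ Valued.v y := by
  rw [FinitePlace.norm_def, FinitePlace.norm_def, NNReal.coe_le_coe]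
  exact (toNNReal_strictMono (HeightOneSpectrum.one_lt_absNorm_nnreal v)).le_iff_le

theorem C1_norm_lt_one_iff (x : v.adicCompletion K) : ‖x‖ < 1 ↔ Valued.v x < 1 := by
  have h := C1_norm_le_iff v 1 x
  rw [norm_one, map_one] at h
  rw [← not_le, ← not_le, h]

theorem C1_norm_le_one_iff (x : v.adicCompletion K) : ‖x‖ ≤ 1 ↔ Valued.v x ≤ 1 := by
  have h := C1_norm_le_iff v x 1
  rwa [norm_one, map_one] at h

theorem C1_mem_maximalIdeal (x : v.adicCompletionIntegers K) :
    x ∈ IsLocalRing.maximalIdeal (v.adicCompletionIntegers K) ↔ ‖(x : v.adicCompletion K)‖ < 1 := by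
  rw [IsLocalRing.mem_maximalIdeal, mem_nonunits_iff,
    HeightOneSpectrum.adicCompletionIntegers.isUnit_iff_valued_eq_one, C1_norm_lt_one_iff]
  have h := x.2
  rw [HeightOneSpectrum.mem_adicCompletionIntegers] at h
  constructor
  · intro h1
    exact lt_of_le_of_ne h h1
  · intro h1
    exact h1.ne

theorem C1_mem_span (x y : v.adicCompletionIntegers K) :
    x ∈ Ideal.span {y} ↔ ‖(x : v.adicCompletion K)‖ ≤ ‖(y : v.adicCompletion K)‖ := by
  rw [Ideal.mem_span_singleton, C1_norm_le_iff]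
  exact (HeightOneSpectrum.adicCompletionIntegers.integers K v).dvd_iff_le

theorem C1_exists_uniformizer : ∃ ϖ : v.adicCompletionIntegers K, Irreducible ϖ ∧
    ‖(ϖ : v.adicCompletion K)‖ < 1 ∧ ∀ (n : ℕ) (x : v.adicCompletionIntegers K),
      x ∈ IsLocalRing.maximalIdeal (v.adicCompletionIntegers K) ^ n ↔
        ‖(x : v.adicCompletion K)‖ ≤ ‖(ϖ : v.adicCompletion K)‖ ^ n := by
  obtain ⟨ϖ, hϖ⟩ := IsDiscreteValuationRing.exists_irreducible (v.adicCompletionIntegers K)
  refine ⟨ϖ, hϖ, ?_, fun n x => ?_⟩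
  · rw [← C1_mem_maximalIdeal, hϖ.maximalIdeal_eq]
    exact Ideal.mem_span_singleton_self ϖ
  · rw [hϖ.maximalIdeal_eq, Ideal.span_singleton_pow, C1_mem_span]
    have h1 : ((ϖ ^ n : v.adicCompletionIntegers K) : v.adicCompletion K) =
      (ϖ : v.adicCompletion K) ^ n := rfl
    rw [h1, norm_pow]

theorem C1_limit {L : Type*} [NormedField L] [CompleteSpace L] {r : ℝ} (hr : r < 1) (g : ℕ → L)
    (hg : ∀ m n : ℕ, m ≤ n → ‖g m - g n‖ ≤ r ^ m) : ∃ x : L, ∀ n, ‖g n - x‖ ≤ r ^ n := by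
  have hc : CauchySeq g := by
    apply cauchySeq_of_le_geometric r 1 hr
    intro n
    rw [dist_eq_norm, one_mul]
    exact hg n (n + 1) (Nat.le_succ n)
  obtain ⟨x, hx⟩ := cauchySeq_tendsto_of_complete hc
  refine ⟨x, fun n => ?_⟩
  have h1 : Filter.Tendsto (fun m => ‖g n - g m‖) Filter.atTop (nhds ‖g n - x‖) :=
    (tendsto_const_nhds.sub hx).norm
  apply le_of_tendsto h1
  filter_upwards [Filter.eventually_ge_atTop n] with m hm
  exact hg n m hm

theorem C1_limit' {r : ℝ} (hr : r < 1) (g : ℕ → v.adicCompletion K)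
    (hg : ∀ m n : ℕ, m ≤ n → ‖g m - g n‖ ≤ r ^ m) :
    ∃ x : v.adicCompletion K, ∀ n, ‖g n - x‖ ≤ r ^ n :=
  C1_limit hr g hg

theorem C1_coe_sub (x y : v.adicCompletionIntegers K) :
    ((x - y : v.adicCompletionIntegers K) : v.adicCompletion K) =
      (x : v.adicCompletion K) - (y : v.adicCompletion K) := rfl

theorem isAdicComplete_integers :
    IsAdicComplete (IsLocalRing.maximalIdeal (v.adicCompletionIntegers K))
      (v.adicCompletionIntegers K) := by
  obtain ⟨ϖ, hϖ, hϖ1, hpow⟩ := C1_exists_uniformizer v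
  have htop : ∀ n : ℕ, (IsLocalRing.maximalIdeal (v.adicCompletionIntegers K) ^ n • ⊤ :
      Submodule (v.adicCompletionIntegers K) (v.adicCompletionIntegers K)) =
      IsLocalRing.maximalIdeal (v.adicCompletionIntegers K) ^ n := by
    intro n
    rw [smul_eq_mul, Ideal.mul_top]
  have hnn : 0 ≤ ‖(ϖ : v.adicCompletion K)‖ := norm_nonneg _
  have hlim : Filter.Tendsto (fun n : ℕ => ‖(ϖ : v.adicCompletion K)‖ ^ n) Filter.atTop
      (nhds 0) := tendsto_pow_atTop_nhds_zero_of_lt_one hnn hϖ1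
  refine { haus' := ?_, prec' := ?_ }
  · intro x hx
    have h1 : ∀ n : ℕ, ‖(x : v.adicCompletion K)‖ ≤ ‖(ϖ : v.adicCompletion K)‖ ^ n := by
      intro n
      have h2 := hx n
      rw [SModEq.zero, htop] at h2
      exact (hpow n x).1 h2
    have h2 : ‖(x : v.adicCompletion K)‖ ≤ 0 :=
      ge_of_tendsto hlim (Filter.Eventually.of_forall h1)
    have h3 : (x : v.adicCompletion K) = 0 := norm_le_zero_iff.1 h2
    exact Subtype.ext h3
  · intro f hf
    have hf' : ∀ m n : ℕ, m ≤ n →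
        ‖(f m : v.adicCompletion K) - (f n : v.adicCompletion K)‖ ≤
          ‖(ϖ : v.adicCompletion K)‖ ^ m := by
      intro m n hmn
      have h2 := hf hmn
      rw [SModEq.sub_mem, htop] at h2
      have h3 := (hpow m (f m - f n)).1 h2
      rw [C1_coe_sub] at h3
      exact h3
    obtain ⟨L, hL'⟩ := C1_limit' v hϖ1 (fun n => (f n : v.adicCompletion K)) hf'
    have hLm : L ∈ v.adicCompletionIntegers K := by
      have h1 := hL' 0
      rw [pow_zero, C1_norm_le_one_iff] at h1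
      have h2 : (f 0 : v.adicCompletion K) - L ∈ v.adicCompletionIntegers K := h1
      have h3 : L = (f 0 : v.adicCompletion K) - ((f 0 : v.adicCompletion K) - L) := by ring
      rw [h3]
      exact sub_mem (f 0).2 h2
    refine ⟨⟨L, hLm⟩, fun n => ?_⟩
    rw [SModEq.sub_mem, htop, hpow, C1_coe_sub]
    exact hL' n









end H16A
end

-- from Lib.H16A.C2
section

/-!
# C2 (M): Hensel's lemma in `O[X]/(f)`

`O` is `I`-adically complete, `f` monic, so `R = O[X]/(f)` is a finite free `O`-module (basis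
`1, θ, ..`), hence `I R`-adically complete (coordinatewise: `(I R)^n = I^n R` consists of the elements
with coordinates in `I^n`), hence Henselian (`IsAdicComplete.henselianRing`, the instance in
`Mathlib/RingTheory/Henselian.lean`).
* `isSquare_lift`: if `2` is a unit of `O` and `u ∈ Rˣ` is a square modulo `I R`, then `u` is a
  square: `X² - u` has a root modulo `I R` with derivative `2 s`, a unit.
* `isSquare_one_add_four`: if `m ∈ I R` then `1 + 4 m` is a square: `X² + X - m` has the root `0`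
  modulo `I R` and the derivative `2·0 + 1 = 1` there; `(1 + 2X)² = 1 + 4 m`.
-/

open Polynomial

namespace H16A

variable {O : Type*} [CommRing O] [IsNoetherianRing O] (I : Ideal O) [IsAdicComplete I O]
  (f : O[X])





omit [IsNoetherianRing O] in
/-- Hensel's lemma in `O` itself: a simple root modulo `I` lifts -/
theorem exists_root_lift (g : O[X]) (hg : g.Monic) (x : O) (hx : g.eval x ∈ I)
    (hu : IsUnit (g.derivative.eval x)) : ∃ y : O, g.eval y = 0 ∧ y - x ∈ I := by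
  obtain ⟨y, hy, hy'⟩ := HenselianRing.is_henselian (I := I) g hg x hx (hu.map _)
  exact ⟨y, hy, hy'⟩

end H16A
end

-- from Lib.H16C.TR1
section

/-!
# TR1 (M): the places of `Ω` attached to the finite places of `K`

`K_v = v.adicCompletion K` is a complete field with a nonarchimedean absolute value
(Mathlib: `NumberField.RingOfIntegers.HeightOneSpectrum` / `FinitePlaces`: `NormedField` instance on
`v.adicCompletion K`, `‖x‖ = adicAbv`-type norm; nontrivially normed; `Valued` completeness).  The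
spectral norm `spectralNorm K_v (AlgebraicClosure K_v)` (Mathlib:
`Mathlib/Analysis/Normed/Unbundled/SpectralNorm.lean`) is multiplicative (`spectralNorm_mul`,
complete case), nonarchimedean (`isNonarchimedean_spectralNorm`), extends the norm
(`spectralNorm_extends`), and is invariant under `σ ∈ Gal(K_v^alg/K_v)` (`spectralNorm_eq_of_equiv`).
`A = {x ∈ Ω | spectralNorm (ι x) ≤ 1}` is a valuation subring of `Ω`, with
`x ∈ A ↔ A.valuation x ≤ 1`, and `A.valuation x = A.valuation y` iff `x/y` and `y/x ∈ A` (or both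
are zero).  If `ι ∘ g = σ ∘ ι` then `|ι(g x)| = |σ(ι x)| = |ι x|`, so `g x ∈ A ↔ x ∈ A` and
`g x / x` is a unit of `A`.  `q` = the residue characteristic of `v`: `|q|_v < 1`.
Other proof: the integral closure of the valuation ring of `K_v` in `AlgebraicClosure K_v` is a
valuation ring because `K_v` is henselian.
-/

open NumberField IsDedekindDomain

namespace H16C

open scoped NNReal WithZero

section

variable {F : Type*} [NontriviallyNormedField F] [IsUltrametricDist F] [CompleteSpace F]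
  {L : Type*} [Field L] [Algebra F L] [Algebra.IsAlgebraic F L]

variable (F L) in
/-- the valuation of an algebraic extension of a complete field -/
noncomputable def TR1_val : Valuation L ℝ≥0 where
  toFun x := ⟨spectralNorm F L x, spectralNorm_nonneg _⟩
  map_zero' := NNReal.eq spectralNorm_zero
  map_one' := NNReal.eq spectralNorm_one
  map_mul' x y := NNReal.eq (map_mul (spectralMulAlgNorm F L) x y)
  map_add_le_max' x y := by
    have h := isNonarchimedean_spectralNorm (K := F) (L := L) x y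
    rcases le_max_iff.1 h with h1 | h1
    · exact le_max_of_le_left h1
    · exact le_max_of_le_right h1


end


end H16C
end

-- from Lib.H16F.E7a
section

/-!
# E7a (S/M): `K` is dense in `K_v`, in terms of the norm

`K_v = v.adicCompletion K` with the norm of `Valued.toNontriviallyNormedField` (as in H16C/TR1.lean,
`place_fin`).  `K` is dense in `K_v`: `UniformSpace.Completion.denseRange_coe` (or
`HeightOneSpectrum.denseRange_algebraMap_adicCompletion`, or `Valued` API: for every `γ` in the units of the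
value group there is `y ∈ K` with `Valued.v (x - y) < γ`), and `‖·‖` induces the given topology.
Write `Metric` density: for `x`, `ε` the ball of radius `ε` at `x` is open and nonempty, so it contains an
element of the dense range (`DenseRange.exists_dist_lt`, `Metric.denseRange_iff`).
-/

open NumberField IsDedekindDomain
open scoped WithZero

namespace H16F

theorem dense_adic {K : Type*} [Field K] [NumberField K] (v : HeightOneSpectrum (𝓞 K)) :
    letI := Valued.toNontriviallyNormedField (v.adicCompletion K) ℤᵐ⁰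
    ∀ (x : v.adicCompletion K) (ε : ℝ), 0 < ε →
      ∃ y : K, ‖x - algebraMap K (v.adicCompletion K) y‖ < ε := by
  letI := Valued.toNontriviallyNormedField (v.adicCompletion K) ℤᵐ⁰
  intro x ε hε
  have h1 : DenseRange (algebraMap K (v.adicCompletion K)) :=
    HeightOneSpectrum.denseRange_algebraMap K v
  obtain ⟨y, hy⟩ := h1.exists_dist_lt x hε
  refine ⟨y, ?_⟩
  rw [dist_eq_norm] at hy
  exact hy

end H16F
end

-- from Lib.H16F.E1
section

/-!
# E1 (M): `ι(Ω)` is dense in the algebraic closure of the complete field `F`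

`F` is a complete nonarchimedean field, `K → F` has dense image, `Ω` is algebraically closed,
`ι : Ω → F^alg` a `K`-embedding, `N = spectralNorm F F^alg` (multiplicative: `spectralMulAlgNorm`, see
`TR1_val` in H16C/TR1.lean; nonarchimedean: `isNonarchimedean_spectralNorm`; extends the norm of `F`:
`spectralNorm_extends`).
Let `z ∈ F^alg`, `P = minpoly F z`, of degree `d ≥ 1`, monic.  Let `M = max(1, N z)`, and let `η > 0` be such that
`η M^d < ε^d`.  Choose `c_i ∈ K` with `‖P_i - c_i‖ < η` for `i < d`, and let `P' = X^d + ∑_{i<d} c_i X^i ∈ K[X]`.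
`N(P'(z)) = N(P'(z) - P(z)) ≤ max_i ‖c_i - P_i‖ N(z)^i ≤ η M^d < ε^d`.
`P'` splits over `Ω` (`IsAlgClosed.splits`): `P' = ∏ (X - x_j)`, `x_j ∈ Ω` (`d` factors), so
`P'(z) = ∏ (z - ι x_j)` and `∏ N(z - ι x_j) < ε^d`: some `N(z - ι x_j) < ε`.
-/

namespace H16F

open scoped NNReal
open Polynomial

section

variable {F : Type*} [NontriviallyNormedField F] [IsUltrametricDist F] [CompleteSpace F]
  {L : Type*} [Field L] [Algebra F L] [Algebra.IsAlgebraic F L]

variable (F L) in
/-- the valuation of an algebraic extension of a complete field -/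
noncomputable def e1_val : Valuation L ℝ≥0 where
  toFun x := ⟨spectralNorm F L x, spectralNorm_nonneg _⟩
  map_zero' := NNReal.eq spectralNorm_zero
  map_one' := NNReal.eq spectralNorm_one
  map_mul' x y := NNReal.eq (map_mul (spectralMulAlgNorm F L) x y)
  map_add_le_max' x y := by
    have h := isNonarchimedean_spectralNorm (K := F) (L := L) x y
    rcases le_max_iff.1 h with h1 | h1
    · exact le_max_of_le_left h1
    · exact le_max_of_le_right h1

theorem e1_val_alg (a : F) : e1_val F L (algebraMap F L a) = ‖a‖₊ :=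
  NNReal.eq (spectralNorm_extends a)

end



end H16F
end

-- from Lib.H16F.E2
section

/-!
# E2 (S/M): an isometry of `Ω` respects the linear relations over `F`

`N = spectralNorm F F^alg`, `N(ι(g x)) = N(ι x)` for all `x ∈ Ω`.  Let `∑ a_i ι(x_i) = 0`, `a_i ∈ F`.
Let `M = max(1, N(ι x_i), ...)`.  Let `ε > 0`; choose `b_i ∈ K` with `‖a_i - b_i‖ < ε`.  Then
`N(∑ b_i ι(x_i)) = N(∑ (b_i - a_i) ι(x_i)) ≤ ε M`; `∑ b_i ι(x_i) = ι(∑ b_i x_i)` (`ι` is `K`-linear), so
`N(∑ b_i ι(g x_i)) = N(ι(g(∑ b_i x_i))) = N(ι(∑ b_i x_i)) ≤ ε M`, and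
`N(∑ a_i ι(g x_i)) ≤ max(N(∑ (a_i - b_i) ι(g x_i)), ε M) ≤ ε M` (`N(ι(g x_i)) = N(ι x_i) ≤ M`).
As `ε` is arbitrary, `N(∑ a_i ι(g x_i)) = 0`, so it is `0` (`eq_zero_of_map_spectralNorm_eq_zero`).
(`algebraMap F F^alg (algebraMap K F b) = ι (algebraMap K Ω b)`: both are `algebraMap K F^alg b`;
`isNonarchimedean_spectralNorm`, `IsNonarchimedean.finset_image_add` or `Valuation.map_sum_le` for
`TR1_val`, H16C/TR1.lean.)
-/

namespace H16F

open scoped NNReal

theorem e2_sum {L : Type*} [Field L] (V : Valuation L ℝ≥0) {n : ℕ} (c : Fin n → L) (y : Fin n → L) {e M : ℝ≥0}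
    (hc : ∀ i, V (c i) ≤ e) (hy : ∀ i, V (y i) ≤ M) : V (∑ i, c i * y i) ≤ e * M := by
  refine Valuation.map_sum_le _ fun i _ => ?_
  rw [map_mul]
  exact mul_le_mul' (hc i) (hy i)

theorem ker_le {K : Type*} [Field K] {F : Type*} [NontriviallyNormedField F]
    [IsUltrametricDist F] [CompleteSpace F] [Algebra K F]
    (hd : ∀ (x : F) (ε : ℝ), 0 < ε → ∃ y : K, ‖x - algebraMap K F y‖ < ε)
    {Ω : Type*} [Field Ω] [Algebra K Ω] (ι : Ω →ₐ[K] AlgebraicClosure F) (g : Ω ≃ₐ[K] Ω)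
    (hg : ∀ x, spectralNorm F (AlgebraicClosure F) (ι (g x)) =
      spectralNorm F (AlgebraicClosure F) (ι x))
    (n : ℕ) (a : Fin n → F) (x : Fin n → Ω)
    (h : ∑ i, algebraMap F (AlgebraicClosure F) (a i) * ι (x i) = 0) :
    ∑ i, algebraMap F (AlgebraicClosure F) (a i) * ι (g (x i)) = 0 := by
  obtain ⟨V, hV⟩ : ∃ V, V = e1_val F (AlgebraicClosure F) := ⟨_, rfl⟩
  have hg' : ∀ x, V (ι (g x)) = V (ι x) := by
    intro x
    rw [hV]
    exact NNReal.eq (hg x)
  obtain ⟨M, hM⟩ : ∃ M : ℝ≥0, M = 1 + ∑ i, V (ι (x i)) := ⟨_, rfl⟩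
  have hMx : ∀ i, V (ι (x i)) ≤ M := by
    intro i
    rw [hM]
    exact (Finset.single_le_sum (f := fun i => V (ι (x i))) (fun _ _ => zero_le) (Finset.mem_univ i)).trans
      le_add_self
  have hM1 : 1 ≤ M := by
    rw [hM]
    exact le_self_add
  have hMpos : 0 < M := lt_of_lt_of_le one_pos hM1
  have hMg : ∀ i, V (ι (g (x i))) ≤ M := fun i => by
    rw [hg']
    exact hMx i
  have key : ∀ e : ℝ≥0, 0 < e → V (∑ i, algebraMap F (AlgebraicClosure F) (a i) * ι (g (x i))) ≤ e * M := by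
    intro e he
    choose b hb using fun i => hd (a i) (e : ℝ) (by exact_mod_cast he)
    have hab : ∀ i, V (algebraMap F (AlgebraicClosure F) (a i) -
        algebraMap F (AlgebraicClosure F) (algebraMap K F (b i))) ≤ e := by
      intro i
      rw [← map_sub, hV, e1_val_alg]
      exact (hb i).le
    have hba : ∀ i, V (algebraMap F (AlgebraicClosure F) (algebraMap K F (b i)) -
        algebraMap F (AlgebraicClosure F) (a i)) ≤ e := by
      intro i
      rw [Valuation.map_sub_swap]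
      exact hab i
    have hι : ∀ w : Fin n → Ω, ∑ i, algebraMap F (AlgebraicClosure F) (algebraMap K F (b i)) * ι (w i) =
        ι (∑ i, algebraMap K Ω (b i) * w i) := by
      intro w
      rw [map_sum]
      refine Finset.sum_congr rfl fun i _ => ?_
      rw [map_mul, ι.commutes, IsScalarTower.algebraMap_apply K F (AlgebraicClosure F)]
    have h1 : V (∑ i, algebraMap F (AlgebraicClosure F) (algebraMap K F (b i)) * ι (x i)) ≤ e * M := by
      have e1 : ∑ i, algebraMap F (AlgebraicClosure F) (algebraMap K F (b i)) * ι (x i) =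
          ∑ i, (algebraMap F (AlgebraicClosure F) (algebraMap K F (b i)) -
            algebraMap F (AlgebraicClosure F) (a i)) * ι (x i) := by
        simp only [sub_mul]
        rw [Finset.sum_sub_distrib, h, sub_zero]
      rw [e1]
      exact e2_sum V _ _ hba hMx
    have h2 : V (∑ i, algebraMap F (AlgebraicClosure F) (algebraMap K F (b i)) * ι (g (x i))) ≤ e * M := by
      have e1 : ∑ i, algebraMap K Ω (b i) * g (x i) = g (∑ i, algebraMap K Ω (b i) * x i) := by
        rw [map_sum]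
        refine Finset.sum_congr rfl fun i _ => ?_
        rw [map_mul, g.commutes]
      rw [hι (fun i => g (x i)), e1, hg', ← hι x]
      exact h1
    have h3 : ∑ i, algebraMap F (AlgebraicClosure F) (a i) * ι (g (x i)) =
        ∑ i, (algebraMap F (AlgebraicClosure F) (a i) -
          algebraMap F (AlgebraicClosure F) (algebraMap K F (b i))) * ι (g (x i)) +
        ∑ i, algebraMap F (AlgebraicClosure F) (algebraMap K F (b i)) * ι (g (x i)) := by
      rw [← Finset.sum_add_distrib]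
      refine Finset.sum_congr rfl fun i _ => ?_
      ring
    rw [h3]
    exact Valuation.map_add_le _ (e2_sum V _ _ hab hMg) h2
  by_contra hne
  have hpos : 0 < V (∑ i, algebraMap F (AlgebraicClosure F) (a i) * ι (g (x i))) :=
    zero_lt_iff.2 ((Valuation.ne_zero_iff V).2 hne)
  generalize V (∑ i, algebraMap F (AlgebraicClosure F) (a i) * ι (g (x i))) = v at key hpos
  have h4 := key (v / (2 * M)) (by positivity)
  have h5 : v / (2 * M) * M = v / 2 := by field_simp
  rw [h5] at h4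
  exact absurd (NNReal.half_lt_self hpos.ne') (not_lt.2 h4)

end H16F
end

-- from Lib.H16F.E3
section

/-!
# E3 (M): an isometry of `Ω` extends to an automorphism of `F^alg`

The two `F`-algebra homomorphisms `φ, φ' : F ⊗[K] Ω → F^alg`, `a ⊗ x ↦ a ι(x)` and `a ⊗ x ↦ a ι(g x)`
(`Algebra.TensorProduct.lift (Algebra.ofId F _) ι _` / `Algebra.TensorProduct.productMap`).  Every tensor
is a finite sum `∑ a_i ⊗ x_i`, so `ker_le` gives `ker φ ≤ ker φ'`.  So there is an `F`-algebra homomorphism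
`τ : φ.range → F^alg` with `τ (φ t) = φ' t` (`Ideal.Quotient.liftₐ` and
`Ideal.quotientKerAlgEquivOfSurjective`, or `AlgHom.liftOfSurjective`-like).
`B = φ.range` is an `F`-subalgebra of the algebraic extension `F^alg`, so a field
(`Subalgebra.isField_of_algebraic`, `IntermediateField` with `toSubalgebra = B`).  Extend `τ` to an
`F`-algebra homomorphism `σ : F^alg → F^alg` (`F^alg` is algebraic over `B`:
`IntermediateField.exists_algHom_of_...`, `IsAlgClosed.lift` over `B` with the algebra structure `τ`, or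
`Algebra.IsAlgebraic`/`IsAlgClosed.surjective_restrictDomain_of_isAlgebraic`).  `σ` is bijective
(`Algebra.IsAlgebraic.algHom_bijective`).  `σ (ι x) = τ (φ (1 ⊗ x)) = φ' (1 ⊗ x) = ι (g x)`.
-/

namespace H16F

open scoped TensorProduct

theorem e3_sum {R A B : Type*} [CommSemiring R] [CommSemiring A] [Algebra R A] [CommSemiring B]
    [Algebra R B] (t : A ⊗[R] B) : ∃ (n : ℕ) (a : Fin n → A) (x : Fin n → B),
      t = ∑ i, a i ⊗ₜ[R] x i := by
  induction t using TensorProduct.induction_on with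
  | zero => exact ⟨0, fun _ => 0, fun _ => 0, by simp⟩
  | tmul a b => exact ⟨1, fun _ => a, fun _ => b, by simp⟩
  | add t t' h h' =>
    obtain ⟨n, a, x, h⟩ := h
    obtain ⟨n', a', x', h'⟩ := h'
    refine ⟨n + n', Fin.append a a', Fin.append x x', ?_⟩
    rw [Fin.sum_univ_add, h, h']
    simp

theorem exists_ext {K : Type*} [Field K] {F : Type*} [NontriviallyNormedField F]
    [IsUltrametricDist F] [CompleteSpace F] [Algebra K F]
    (hd : ∀ (x : F) (ε : ℝ), 0 < ε → ∃ y : K, ‖x - algebraMap K F y‖ < ε)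
    {Ω : Type*} [Field Ω] [Algebra K Ω] (ι : Ω →ₐ[K] AlgebraicClosure F) (g : Ω ≃ₐ[K] Ω)
    (hg : ∀ x, spectralNorm F (AlgebraicClosure F) (ι (g x)) =
      spectralNorm F (AlgebraicClosure F) (ι x)) :
    ∃ σ : AlgebraicClosure F ≃ₐ[F] AlgebraicClosure F, ∀ x, ι (g x) = σ (ι x) := by
  let φ : F ⊗[K] Ω →ₐ[F] AlgebraicClosure F :=
    Algebra.TensorProduct.lift (Algebra.ofId F _) ι (fun _ _ => Commute.all _ _)
  let φ' : F ⊗[K] Ω →ₐ[F] AlgebraicClosure F :=
    Algebra.TensorProduct.lift (Algebra.ofId F _) (ι.comp g.toAlgHom) (fun _ _ => Commute.all _ _)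
  have hφ : ∀ (a : F) (x : Ω), φ (a ⊗ₜ x) = algebraMap F _ a * ι x := fun a x =>
    Algebra.TensorProduct.lift_tmul _ _ _ _ _
  have hφ' : ∀ (a : F) (x : Ω), φ' (a ⊗ₜ x) = algebraMap F _ a * ι (g x) := fun a x =>
    Algebra.TensorProduct.lift_tmul _ _ _ _ _
  have hker : ∀ t, φ t = 0 → φ' t = 0 := by
    intro t ht
    obtain ⟨n, a, x, rfl⟩ := e3_sum t
    rw [map_sum] at ht ⊢
    simp only [hφ] at ht
    simp only [hφ']
    exact ker_le hd ι g hg n a x ht
  let L : IntermediateField F (AlgebraicClosure F) :=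
    φ.range.toIntermediateField' (Subalgebra.isField_of_algebraic _)
  let τ : φ.range →ₐ[F] AlgebraicClosure F :=
    AlgHom.liftOfSurjective φ.rangeRestrict φ.rangeRestrict_surjective φ' (by
      intro t ht
      refine hker t ?_
      have h1 : φ.rangeRestrict t = 0 := ht
      exact congrArg Subtype.val h1)
  have hτ : ∀ t, τ (φ.rangeRestrict t) = φ' t := fun t =>
    AlgHom.liftOfSurjective_apply _ _ _ _ _
  let f : L →ₐ[F] AlgebraicClosure F := τ
  obtain ⟨ψ, hψ⟩ := IntermediateField.exists_algHom_of_splits (F := F) (E := AlgebraicClosure F)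
    (K := AlgebraicClosure F)
    (fun s => ⟨Algebra.IsIntegral.isIntegral s, IsAlgClosed.splits _⟩) f
  refine ⟨AlgEquiv.ofBijective ψ (Algebra.IsAlgebraic.algHom_bijective ψ), fun x => ?_⟩
  have h1 : φ (1 ⊗ₜ x) = ι x := by rw [hφ, map_one, one_mul]
  have h2 : φ' (1 ⊗ₜ x) = ι (g x) := by rw [hφ', map_one, one_mul]
  have h3 : ψ (φ (1 ⊗ₜ x)) = τ (φ.rangeRestrict (1 ⊗ₜ x)) :=
    DFunLike.congr_fun hψ (φ.rangeRestrict (1 ⊗ₜ x) : L)
  rw [hτ, h1, h2] at h3
  exact h3.symm

end H16F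
end

-- from Lib.H19X.He
section

open NumberField IsDedekindDomain

namespace H19X

/-! Chunk He (S/M): Hensel. z = 1 + 4 mu with v(mu) < 1; X^2 + X - mu has the root 0 modulo the maximal ideal of the
ring of integers of the completion, with derivative 1: H16A.isAdicComplete_integers (C1),
IsAdicComplete.henselianRing, H16A.exists_root_lift (C2: Hensel in O itself). (1 + 2 r)^2 = 1 + 4 mu. -/

theorem hensel {N : Type} [Field N] [NumberField N] (P : HeightOneSpectrum (𝓞 N))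
    (z : P.adicCompletion N) (hz : Valued.v (z - 1) < Valued.v (4 : P.adicCompletion N)) :
    ∃ β : P.adicCompletion N, z = β ^ 2 := by
  have h4 : (4 : P.adicCompletion N) ≠ 0 := by
    intro h
    rw [h, map_zero] at hz
    exact not_lt_zero hz
  obtain ⟨mu, hmu⟩ : ∃ mu, mu = (z - 1) / 4 := ⟨_, rfl⟩
  have hv : Valued.v mu < 1 := by
    rw [hmu, map_div₀, div_lt_one₀ (zero_lt_iff.2 ((map_ne_zero _).2 h4))]
    exact hz
  have hmem : mu ∈ P.adicCompletionIntegers N := hv.le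
  obtain ⟨m, hm⟩ : ∃ m : P.adicCompletionIntegers N, m = ⟨mu, hmem⟩ := ⟨_, rfl⟩
  have hmm : m ∈ IsLocalRing.maximalIdeal (P.adicCompletionIntegers N) := by
    rw [H16A.C1_mem_maximalIdeal, H16A.C1_norm_lt_one_iff, hm]
    exact hv
  have hc := H16A.isAdicComplete_integers P
  have hmon : (Polynomial.X ^ 2 + Polynomial.X - Polynomial.C m :
      Polynomial (P.adicCompletionIntegers N)).Monic := by
    have : (Polynomial.X ^ 2 + Polynomial.X - Polynomial.C m :
      Polynomial (P.adicCompletionIntegers N)) =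
        Polynomial.X ^ 2 + (Polynomial.X - Polynomial.C m) := by ring
    rw [this]
    refine (Polynomial.monic_X_pow 2).add_of_left ?_
    rw [Polynomial.degree_X_sub_C, Polynomial.degree_X_pow]
    norm_num
  obtain ⟨y, hy, -⟩ := H16A.exists_root_lift
    (IsLocalRing.maximalIdeal (P.adicCompletionIntegers N)) _ hmon 0 (by simpa using hmm) (by simp)
  have hy2 : y ^ 2 + y - m = 0 := by simpa using hy
  have hy3 : (y : P.adicCompletion N) ^ 2 + y - mu = 0 := by
    have h := congrArg (fun t : P.adicCompletionIntegers N => (t : P.adicCompletion N)) hy2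
    rw [hm] at h
    exact h
  refine ⟨1 + 2 * (y : P.adicCompletion N), ?_⟩
  have h5 : z = 1 + 4 * mu := by
    rw [hmu]
    field_simp
    ring
  rw [h5]
  linear_combination (-4 : P.adicCompletion N) * hy3

end H19X
end

-- from Lib.SSG.Z.C1
section

/-! Chunk C1 (S). Nearness of roots. L an algebraically closed normed field (the norm is multiplicative). p monic of degree n ≥ 1 splits: p = ∏ (X - r) over p.roots (IsAlgClosed.splits, Polynomial.Splits ... eq_prod_roots_of_monic or Polynomial.eq_prod_roots_of_splits / prod_multiset_X_sub_C_of_monic_of_roots_card_eq).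
So ‖p.eval x‖ = ∏ ‖x - r‖; if all factors are ≥ ε then the product is ≥ ε ^ card roots = ε ^ natDegree. -/

open Polynomial

namespace SSG

theorem c1_prod (s : Multiset ℝ) {ε : ℝ} (hε : 0 < ε) (h : ∀ x ∈ s, ε ≤ x) : ε ^ (Multiset.card s) ≤ s.prod := by
  induction s using Multiset.induction_on with
  | empty => simp
  | cons a s ih =>
    rw [Multiset.card_cons, Multiset.prod_cons, pow_succ']
    have h1 := ih (fun x hx => h x (Multiset.mem_cons_of_mem hx))
    have h2 := h a (Multiset.mem_cons_self a s)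
    exact mul_le_mul h2 h1 (by positivity) (by linarith)

theorem root_close {L : Type} [NormedField L] [IsAlgClosed L] {q : L[X]} (hq : q.Monic) (hd : 0 < q.natDegree) {x : L} {ε : ℝ} (hε : 0 < ε)
    (h : ‖q.eval x‖ < ε ^ q.natDegree) : ∃ r : L, q.eval r = 0 ∧ ‖x - r‖ < ε := by
  by_contra hc
  push Not at hc
  have hs := IsAlgClosed.splits q
  have hcard : Multiset.card q.roots = q.natDegree := hs.natDegree_eq_card_roots.symm
  have hprod := Polynomial.prod_multiset_X_sub_C_of_monic_of_roots_card_eq hq hcard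
  have he : q.eval x = (q.roots.map (fun r => x - r)).prod := by
    conv_lhs => rw [← hprod]
    rw [Polynomial.eval_multiset_prod, Multiset.map_map]
    congr 1
    apply Multiset.map_congr rfl
    intro r _
    simp
  have hn : ‖q.eval x‖ = (q.roots.map (fun r => ‖x - r‖)).prod := by
    have h3 := map_multiset_prod (normHom : L →*₀ ℝ) (q.roots.map (fun r => x - r))
    rw [Multiset.map_map] at h3
    rw [he]
    exact h3
  have h2 := c1_prod (q.roots.map (fun r => ‖x - r‖)) hε (by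
    intro y hy
    rw [Multiset.mem_map] at hy
    obtain ⟨r, hr, rfl⟩ := hy
    exact hc r ((Polynomial.mem_roots hq.ne_zero).mp hr))
  rw [Multiset.card_map, hcard] at h2
  linarith

/-- Square roots near y: y'^2 = b close to y^2. -/
theorem sqrt_close {L : Type} [NormedField L] [IsAlgClosed L] {y b : L} {ε : ℝ} (hε : 0 < ε) (h : ‖y ^ 2 - b‖ < ε ^ 2) :
    ∃ y' : L, y' ^ 2 = b ∧ ‖y - y'‖ < ε := by
  obtain ⟨z, hz⟩ := IsAlgClosed.exists_pow_nat_eq b (n := 2) (by norm_num)
  have h1 : ‖y - z‖ * ‖y + z‖ < ε ^ 2 := by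
    rw [← norm_mul]
    have : (y - z) * (y + z) = y ^ 2 - b := by rw [← hz]; ring
    rw [this]
    exact h
  by_cases h2 : ‖y - z‖ < ε
  · exact ⟨z, hz, h2⟩
  · refine ⟨-z, by rw [neg_sq, hz], ?_⟩
    rw [sub_neg_eq_add]
    by_contra h3
    push Not at h2 h3
    nlinarith [norm_nonneg (y - z), norm_nonneg (y + z)]

end SSG
end

-- from Lib.H28I.E1
section

/-! # H28I, part E: group theory, the image of s - 1 -/

namespace H28I

/-- Chunk E1 (S). A finite abelian group killed by m > 0: its order divides a power of m (the prime divisors of the order divide m by Cauchy; or card_dvd_exponent_nsmul_rank). -/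
theorem card_dvd {G : Type} [AddCommGroup G] [Finite G] {m : ℕ} (hm : 0 < m) (h : ∀ x : G, m • x = 0) : ∃ k : ℕ, Nat.card G ∣ m ^ k := by
  have h1 : ∀ q : ℕ, q.Prime → q ∣ Nat.card G → q ∣ m := by
    intro q hq hd
    haveI : Fact q.Prime := ⟨hq⟩
    obtain ⟨x, hx⟩ := exists_prime_addOrderOf_dvd_card' (G := G) q hd
    rw [← hx]
    exact addOrderOf_dvd_of_nsmul_eq_zero (h x)
  have hc : Nat.card G ≠ 0 := Nat.card_pos.ne'
  refine ⟨Nat.card G, ?_⟩
  rw [Nat.dvd_iff_prime_pow_dvd_dvd]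
  intro q k hq hk
  rcases Nat.eq_zero_or_pos k with rfl | hk0
  · simp
  · have h2 : q ∣ Nat.card G := (dvd_pow_self q hk0.ne').trans hk
    have h3 : k < Nat.card G + 1 := by
      have h4 : q ^ k ≤ Nat.card G := Nat.le_of_dvd (Nat.pos_of_ne_zero hc) hk
      have h5 : k < q ^ k := Nat.lt_pow_self hq.one_lt
      omega
    exact (pow_dvd_pow_of_dvd (h1 q hq h2) k).trans (pow_dvd_pow m (by omega))

/-- Chunk E1 (M), pure group theory. q = 0: q • y = 0, so Q is trivial. q > 0: G n = {x | q ^ n • x = 0}, a finite subgroup (increasing in n), f = σ - 1 maps G n to itself; K n = the kernel of f on G n, contained in the finite set of hfix, increasing in n, so K n = K N for n ≥ N. κ = the order of K N divides q^m for some m (card_dvd with q^N).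
For n ≥ N: the image f (G n) has index κ in G n (order of the image times order of the kernel), so κ • x is in f (G n) for x in G n (the quotient has κ elements), so q^m • x is in f (G n). Given x in G n₀: y with q^m • y = x (hsurj, m times), y is in G (n₀ + m), contained in G n with n = max N (n₀ + m): x = q^m • y = f z. -/
theorem tor_in {Q : Type} [AddCommGroup Q] (σ : Q →+ Q) (q : ℕ) (hsurj : ∀ x : Q, ∃ y, q • y = x)
    (hfin : ∀ n : ℕ, {x : Q | q ^ n • x = 0}.Finite) (hfix : {x : Q | σ x = x}.Finite) {x : Q} (hx : ∃ n : ℕ, q ^ n • x = 0) :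
    ∃ y, σ y - y = x := by
  obtain ⟨n₀, hn₀⟩ := hx
  rcases Nat.eq_zero_or_pos q with rfl | hq
  · obtain ⟨y, hy⟩ := hsurj x
    rw [zero_nsmul] at hy
    exact ⟨0, by rw [map_zero, sub_zero, hy]⟩
  -- divisibility by powers
  have hsurj' : ∀ m : ℕ, ∀ x : Q, ∃ y, q ^ m • y = x := by
    intro m
    induction m with
    | zero => exact fun x => ⟨x, by rw [pow_zero, one_nsmul]⟩
    | succ m ih =>
      intro x
      obtain ⟨y, hy⟩ := ih x
      obtain ⟨z, hz⟩ := hsurj y
      exact ⟨z, by rw [pow_succ, mul_nsmul', hz, hy]⟩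
  set G : ℕ → AddSubgroup Q := fun n => (nsmulAddMonoidHom (α := Q) (q ^ n)).ker with hG
  have mG : ∀ n x, x ∈ G n ↔ q ^ n • x = 0 := fun n x => by
    rw [hG]
    exact AddMonoidHom.mem_ker
  have hGf : ∀ n, Finite (G n) := by
    intro n
    refine Set.Finite.to_subtype ((hfin n).subset fun x hx => ?_)
    exact (mG n x).1 hx
  set f : Q →+ Q := σ - AddMonoidHom.id Q with hf
  have hfx : ∀ x, f x = σ x - x := fun x => rfl
  have hfG : ∀ n x, x ∈ G n → f x ∈ G n := by
    intro n x hx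
    rw [mG] at hx ⊢
    rw [← map_nsmul, hx, map_zero]
  -- the restriction of f
  set F : ∀ n, G n →+ G n := fun n => (f.comp (G n).subtype).codRestrict (G n) (fun x => hfG n x x.2) with hF
  have hFx : ∀ n (x : G n), ((F n x : G n) : Q) = f x := fun n x => rfl
  have hker : ∀ n (x : G n), x ∈ (F n).ker ↔ σ (x : Q) = x := by
    intro n x
    rw [AddMonoidHom.mem_ker]
    constructor
    · intro h
      have h1 := congrArg (fun y : G n => (y : Q)) h
      simp only [hFx, hfx, ZeroMemClass.coe_zero] at h1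
      exact sub_eq_zero.1 h1
    · intro h
      apply Subtype.ext
      rw [hFx, hfx, h, sub_self]
      rfl
  -- the fixed torsion points
  set K : ℕ → Set Q := fun n => {x | σ x = x ∧ q ^ n • x = 0} with hK
  have hKmono : ∀ n m, n ≤ m → K n ⊆ K m := by
    intro n m hnm x hx
    refine ⟨hx.1, ?_⟩
    obtain ⟨k, rfl⟩ := Nat.exists_eq_add_of_le hnm
    rw [pow_add, mul_comm, mul_nsmul', hx.2, nsmul_zero]
  have hKfin : (⋃ n, K n).Finite := hfix.subset (Set.iUnion_subset fun n x hx => hx.1)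
  obtain ⟨N, hN⟩ : ∃ N, ⋃ n, K n ⊆ K N := by
    have h1 : ∀ x : Q, ∃ n, x ∈ (⋃ n, K n) → x ∈ K n := by
      intro x
      by_cases hx : x ∈ ⋃ n, K n
      · obtain ⟨n, hn⟩ := Set.mem_iUnion.1 hx
        exact ⟨n, fun _ => hn⟩
      · exact ⟨0, fun h => absurd h hx⟩
    choose g hg using h1
    refine ⟨hKfin.toFinset.sup g, fun x hx => ?_⟩
    exact hKmono _ _ (Finset.le_sup (f := g) (hKfin.mem_toFinset.2 hx)) (hg x hx)
  -- the order of the kernel
  haveI := hGf N
  obtain ⟨m, hm⟩ : ∃ m : ℕ, Nat.card (F N).ker ∣ q ^ m := by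
    have h1 := card_dvd (G := (F N).ker) (m := q ^ N) (Nat.pow_pos hq) (by
      intro y
      apply Subtype.ext
      apply Subtype.ext
      exact (mG N _).1 y.1.2)
    obtain ⟨k, hk⟩ := h1
    exact ⟨N * k, by rw [pow_mul]; exact hk⟩
  have hcard : ∀ n, N ≤ n → Nat.card (F n).ker = Nat.card (F N).ker := by
    intro n hn
    have hle : ∀ y : Q, y ∈ G N → y ∈ G n := by
      intro y hy
      rw [mG] at hy ⊢
      obtain ⟨k, rfl⟩ := Nat.exists_eq_add_of_le hn
      rw [pow_add, mul_comm, mul_nsmul', hy, nsmul_zero]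
    refine Nat.card_congr ⟨fun y => ⟨⟨(y.1 : Q), ?_⟩, ?_⟩, fun y => ⟨⟨(y.1 : Q), hle _ y.1.2⟩, ?_⟩, ?_, ?_⟩
    · have h1 : (y.1 : Q) ∈ K n := ⟨(hker n y.1).1 y.2, (mG n _).1 y.1.2⟩
      exact (mG N _).2 (hN (Set.mem_iUnion.2 ⟨n, h1⟩)).2
    · exact (hker N _).2 ((hker n y.1).1 y.2)
    · exact (hker n _).2 ((hker N y.1).1 y.2)
    · intro y
      rfl
    · intro y
      rfl
  -- the main step
  set n := max N (n₀ + m) with hn
  obtain ⟨y, hy⟩ := hsurj' m x
  have hyG : y ∈ G n := by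
    rw [mG]
    have h1 : q ^ (n₀ + m) • y = 0 := by rw [pow_add, mul_nsmul', hy, hn₀]
    obtain ⟨k, hk⟩ := Nat.exists_eq_add_of_le (le_max_right N (n₀ + m))
    rw [hn, hk, pow_add, mul_comm, mul_nsmul', h1, nsmul_zero]
  haveI := hGf n
  have hindex : (F n).range.index = Nat.card (F n).ker := by
    have h1 := (F n).range.card_mul_index
    have h2 : Nat.card (F n).ker * Nat.card (F n).range = Nat.card (G n) := by
      have h3 := AddSubgroup.card_eq_card_quotient_mul_card_addSubgroup (F n).ker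
      have h4 : Nat.card (G n ⧸ (F n).ker) = Nat.card (F n).range :=
        Nat.card_congr (QuotientAddGroup.quotientKerEquivRange (F n)).toEquiv
      rw [h3, h4, mul_comm]
    have h5 : 0 < Nat.card (F n).range := Nat.card_pos
    have h6 : Nat.card (F n).range * (F n).range.index = Nat.card (F n).range * Nat.card (F n).ker := by
      rw [h1, ← h2, mul_comm]
    exact Nat.eq_of_mul_eq_mul_left h5 h6
  have hmem : q ^ m • (⟨y, hyG⟩ : G n) ∈ (F n).range := by
    have h1 : (F n).range.index • (⟨y, hyG⟩ : G n) ∈ (F n).range := AddSubgroup.nsmul_index_mem _ _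
    rw [hindex, hcard n (le_max_left _ _)] at h1
    obtain ⟨k, hk⟩ := hm
    rw [hk, mul_comm, mul_nsmul']
    exact AddSubgroup.nsmul_mem _ h1 k
  obtain ⟨z, hz⟩ := hmem
  refine ⟨(z : Q), ?_⟩
  have h1 := congrArg (fun w : G n => (w : Q)) hz
  simp only [hFx, hfx] at h1
  rw [h1]
  exact hy

end H28I
end

-- from Lib.H28I.E2
section

/-! # H28I, part E: group theory, the count -/

namespace H28I

/-- order of a group = order of the kernel times order of the range -/
theorem e2_card {G H : Type} [AddCommGroup G] [AddCommGroup H] (f : G →+ H) :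
    Nat.card G = Nat.card f.range * Nat.card f.ker := by
  rw [AddSubgroup.card_eq_card_quotient_mul_card_addSubgroup f.ker,
    Nat.card_congr (QuotientAddGroup.quotientKerEquivRange f).toEquiv]

/-- Chunk E2 (M), pure group theory (snake lemma). C = the kernel of Φ (killed by q, so finite by hfin 1; every element of C is σ y - y by tor_in). S = {x | Φ (σ x - x) = 0}, a subgroup. f : S → C, f x = σ x - x is surjective with kernel {x | σ x = x}: |S| = |fix σ| |C|. Φ maps S onto {x' | σ' x' = x'} (he, hΦ) with kernel C: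
|S| = |fix σ'| |C|. |C| > 0. (AddSubgroup.card_eq_card_quotient_mul_card_addSubgroup, QuotientAddGroup.quotientKerEquivOfSurjective.) -/
theorem snake {Q Q' : Type} [AddCommGroup Q] [AddCommGroup Q'] (σ : Q →+ Q) (σ' : Q' →+ Q') (Φ : Q →+ Q')
    (hΦ : Function.Surjective Φ) (he : ∀ x, Φ (σ x) = σ' (Φ x)) (q : ℕ) (hk : ∀ x, Φ x = 0 → q • x = 0)
    (hsurj : ∀ x : Q, ∃ y, q • y = x) (hfin : ∀ n : ℕ, {x : Q | q ^ n • x = 0}.Finite) (hfix : {x : Q | σ x = x}.Finite) :
    Nat.card {x' : Q' // σ' x' = x'} = Nat.card {x : Q // σ x = x} := by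
  classical
  set S : AddSubgroup Q := (Φ.comp (σ - AddMonoidHom.id Q)).ker with hS
  have memS : ∀ x : Q, x ∈ S ↔ Φ (σ x - x) = 0 := fun x => Iff.rfl
  have memS' : ∀ x : Q, x ∈ S ↔ σ' (Φ x) = Φ x := fun x => by
    rw [memS, map_sub, he, sub_eq_zero]
  set f : S →+ Q := (σ - AddMonoidHom.id Q).comp S.subtype with hf
  have fval : ∀ x : S, f x = σ x - x := fun x => rfl
  set g : S →+ Q' := Φ.comp S.subtype with hg
  have gval : ∀ x : S, g x = Φ x := fun x => rfl
  have hCfin : Finite Φ.ker := by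
    have : ((Φ.ker : AddSubgroup Q) : Set Q).Finite := (hfin 1).subset fun x hx => by
      have := hk x hx
      simpa using this
    exact this.to_subtype
  -- range of f is the kernel of Φ
  have h1 : Nat.card f.range = Nat.card Φ.ker := by
    have : f.range = Φ.ker := by
      ext c
      constructor
      · rintro ⟨x, rfl⟩
        rw [AddMonoidHom.mem_ker, fval]
        exact (memS _).1 x.2
      · intro hc
        obtain ⟨y, hy⟩ := tor_in σ q hsurj hfin hfix (x := c) ⟨1, by simpa using hk c hc⟩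
        have hyS : y ∈ S := by rw [memS, hy]; exact hc
        exact ⟨⟨y, hyS⟩, by rw [fval]; exact hy⟩
    rw [this]
  have h2 : Nat.card f.ker = Nat.card {x : Q // σ x = x} := by
    refine Nat.card_congr
      { toFun := fun x => ⟨x.1.1, by
          have := x.2
          rw [AddMonoidHom.mem_ker, fval, sub_eq_zero] at this
          exact this⟩
        invFun := fun x => ⟨⟨x.1, by rw [memS, x.2, sub_self, map_zero]⟩, by
          rw [AddMonoidHom.mem_ker, fval]
          exact sub_eq_zero.2 x.2⟩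
        left_inv := fun x => rfl
        right_inv := fun x => rfl }
  have h3 : Nat.card g.range = Nat.card {x' : Q' // σ' x' = x'} := by
    refine Nat.card_congr (Equiv.subtypeEquivRight fun x' => ?_)
    constructor
    · rintro ⟨x, rfl⟩
      rw [gval]
      exact (memS' _).1 x.2
    · intro hx'
      obtain ⟨x, rfl⟩ := hΦ x'
      exact ⟨⟨x, (memS' _).2 hx'⟩, rfl⟩
  have h4 : Nat.card g.ker = Nat.card Φ.ker := by
    refine Nat.card_congr
      { toFun := fun x => ⟨x.1.1, x.2⟩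
        invFun := fun x => ⟨⟨x.1, by
          rw [memS', (AddMonoidHom.mem_ker.1 x.2), map_zero]⟩, x.2⟩
        left_inv := fun x => rfl
        right_inv := fun x => rfl }
  have h5 := e2_card f
  have h6 := e2_card g
  rw [h1, h2] at h5
  rw [h3, h4] at h6
  have hpos : 0 < Nat.card Φ.ker := Nat.card_pos
  have h7 : Nat.card {x' : Q' // σ' x' = x'} * Nat.card Φ.ker = Nat.card {x : Q // σ x = x} * Nat.card Φ.ker := by
    rw [← h6, h5, mul_comm]
  exact Nat.eq_of_mul_eq_mul_right hpos h7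

/-- Chunk E2 (S/M). snake for Q = P ⧸ Kg, Q' = P' ⧸ Kg', the induced maps (QuotientAddGroup.map). The class c of X satisfies σ c = c iff f X - X is in Kg (QuotientAddGroup.eq); for another representative as well. -/
theorem count_grp {P P' : Type} [AddCommGroup P] [AddCommGroup P'] (Kg : AddSubgroup P) (Kg' : AddSubgroup P') (Φ : P →+ P')
    (hs : Function.Surjective Φ) (f : P →+ P) (f' : P' →+ P') (he : ∀ X, Φ (f X) = f' (Φ X)) (hf : ∀ X ∈ Kg, f X ∈ Kg)
    (hf' : ∀ X ∈ Kg', f' X ∈ Kg') (h1 : ∀ X ∈ Kg, Φ X ∈ Kg') (q : ℕ) (h2 : ∀ X, Φ X ∈ Kg' → q • X ∈ Kg)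
    (hq : ∀ X : P, ∃ Y, q • Y = X) (hfin : ∀ n : ℕ, {c : P ⧸ Kg | q ^ n • c = 0}.Finite)
    (hfix : Finite {c : P ⧸ Kg // ∃ X : P, (X : P ⧸ Kg) = c ∧ f X - X ∈ Kg}) :
    Nat.card {c : P' ⧸ Kg' // ∃ X : P', (X : P' ⧸ Kg') = c ∧ f' X - X ∈ Kg'} =
      Nat.card {c : P ⧸ Kg // ∃ X : P, (X : P ⧸ Kg) = c ∧ f X - X ∈ Kg} := by
  set σ : P ⧸ Kg →+ P ⧸ Kg := QuotientAddGroup.map Kg Kg f (fun X hX => hf X hX) with hσ
  set σ' : P' ⧸ Kg' →+ P' ⧸ Kg' := QuotientAddGroup.map Kg' Kg' f' (fun X hX => hf' X hX) with hσ'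
  set Ψ : P ⧸ Kg →+ P' ⧸ Kg' := QuotientAddGroup.map Kg Kg' Φ (fun X hX => h1 X hX) with hΨ
  have e1 : ∀ X : P, σ (X : P ⧸ Kg) = ((f X : P) : P ⧸ Kg) := fun X => rfl
  have e2 : ∀ X : P', σ' (X : P' ⧸ Kg') = ((f' X : P') : P' ⧸ Kg') := fun X => rfl
  have e3 : ∀ X : P, Ψ (X : P ⧸ Kg) = ((Φ X : P') : P' ⧸ Kg') := fun X => rfl
  have k1 : ∀ c : P ⧸ Kg, (∃ X : P, (X : P ⧸ Kg) = c ∧ f X - X ∈ Kg) ↔ σ c = c := by
    intro c
    constructor
    · rintro ⟨X, rfl, hX⟩
      rw [e1]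
      exact (QuotientAddGroup.eq_iff_sub_mem).2 hX
    · intro hc
      obtain ⟨X, rfl⟩ := QuotientAddGroup.mk_surjective c
      rw [e1] at hc
      exact ⟨X, rfl, (QuotientAddGroup.eq_iff_sub_mem).1 hc⟩
  have k2 : ∀ c : P' ⧸ Kg', (∃ X : P', (X : P' ⧸ Kg') = c ∧ f' X - X ∈ Kg') ↔ σ' c = c := by
    intro c
    constructor
    · rintro ⟨X, rfl, hX⟩
      rw [e2]
      exact (QuotientAddGroup.eq_iff_sub_mem).2 hX
    · intro hc
      obtain ⟨X, rfl⟩ := QuotientAddGroup.mk_surjective c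
      rw [e2] at hc
      exact ⟨X, rfl, (QuotientAddGroup.eq_iff_sub_mem).1 hc⟩
  rw [Nat.card_congr (Equiv.subtypeEquivRight k1), Nat.card_congr (Equiv.subtypeEquivRight k2)]
  refine snake σ σ' Ψ ?_ ?_ q ?_ ?_ hfin ?_
  · intro c'
    obtain ⟨X', rfl⟩ := QuotientAddGroup.mk_surjective c'
    obtain ⟨X, rfl⟩ := hs X'
    exact ⟨(X : P ⧸ Kg), rfl⟩
  · intro c
    obtain ⟨X, rfl⟩ := QuotientAddGroup.mk_surjective c
    rw [e1, e3, e3, e2, he]
  · intro c hc
    obtain ⟨X, rfl⟩ := QuotientAddGroup.mk_surjective c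
    rw [e3] at hc
    have := h2 X ((QuotientAddGroup.eq_zero_iff _).1 hc)
    rw [← QuotientAddGroup.mk_nsmul]
    exact (QuotientAddGroup.eq_zero_iff _).2 this
  · intro c
    obtain ⟨X, rfl⟩ := QuotientAddGroup.mk_surjective c
    obtain ⟨Y, rfl⟩ := hq X
    exact ⟨(Y : P ⧸ Kg), by rw [← QuotientAddGroup.mk_nsmul]⟩
  · have : {x : P ⧸ Kg | σ x = x} = {c : P ⧸ Kg | ∃ X : P, (X : P ⧸ Kg) = c ∧ f X - X ∈ Kg} := by
      ext c; exact (k1 c).symm
    rw [this]
    exact Set.finite_coe_iff.1 hfix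

end H28I
end

-- from Lib.SSG.S.M2
section

/-! # SSG, part S (E4), M: transport of numbers, characters and valuations -/

open NumberField IsDedekindDomain

namespace SSG.S

/-! Chunk M2 (S/M). PROOF of m2_val. V.valuation x = V.valuation y iff x/y and y/x are in V (for y ≠ 0 and x ≠ 0; if one of them is 0 then both sides mean that both are 0: i is injective).
m2_comap: the same: x in V.comap j iff j x in V (ValuationSubring.mem_comap).
m2_lt: V.valuation x < 1 iff x = 0 or x⁻¹ not in V (x ≠ 0); the same for the norm.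
m2_lift: z is integral over ℚ; minpoly ℚ z mapped to Ω splits (Ω is algebraically closed: IsAlgClosure.isAlgClosed F) into the product of the X - x_i; mapping with j: minpoly splits in ℂ with the
roots j x_i (Polynomial.Splits.roots_map / aeval of the product), and z is a root, so z = j x_i for some i.
m2_chi: χ a is 0 or a root of unity (χ a ^ (orderOf of units) = 1; for a unit a of ZMod n: a^(card) = 1, so χ a ^ card = 1), so algebraic: integral over ℤ; choose f a with j (f a) = χ a; f is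
multiplicative and f 1 = 1 by injectivity of j; nonunits go to 0. χ' = ⟨⟨⟨f, ..⟩, ..⟩, ..⟩ (MulChar.mk), χ'' = χ'.ringHomComp i. Orders: for all n, χ^n = 1 iff χ'^n = 1 iff χ''^n = 1
(MulChar.ext, injectivity of j and i): orderOf_eq_orderOf_iff. -/

theorem m2_le {Ω : Type} [Field Ω] {V : ValuationSubring Ω} {C : Type} [NormedField C] (i : Ω →+* C)
    (val : ∀ x, x ∈ V ↔ ‖i x‖ ≤ 1) (x y : Ω) : V.valuation x ≤ V.valuation y ↔ ‖i x‖ ≤ ‖i y‖ := by
  by_cases hy : y = 0
  · rw [hy, map_zero, map_zero, norm_zero, le_zero_iff, norm_le_zero_iff, map_eq_zero, map_eq_zero]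
  · have h1 : 0 < V.valuation y := zero_lt_iff.2 ((V.valuation).ne_zero_iff.2 hy)
    have h2 : 0 < ‖i y‖ := norm_pos_iff.2 ((map_ne_zero i).2 hy)
    rw [← div_le_one₀ h1, ← map_div₀, ValuationSubring.valuation_le_one_iff, val, map_div₀, norm_div, div_le_one₀ h2]

theorem m2_comap_le {Ω : Type} [Field Ω] (j : Ω →+* ℂ) (V : ValuationSubring ℂ) (x y : Ω) :
    (V.comap j).valuation x ≤ (V.comap j).valuation y ↔ V.valuation (j x) ≤ V.valuation (j y) := by
  by_cases hy : y = 0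
  · rw [hy, map_zero, map_zero, map_zero, le_zero_iff, le_zero_iff, map_eq_zero, map_eq_zero, map_eq_zero]
  · have h1 : 0 < (V.comap j).valuation y := zero_lt_iff.2 (((V.comap j).valuation).ne_zero_iff.2 hy)
    have h2 : 0 < V.valuation (j y) := zero_lt_iff.2 ((V.valuation).ne_zero_iff.2 ((map_ne_zero j).2 hy))
    rw [← div_le_one₀ h1, ← map_div₀, ValuationSubring.valuation_le_one_iff, ValuationSubring.mem_comap, map_div₀,
      ← ValuationSubring.valuation_le_one_iff, map_div₀, div_le_one₀ h2]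

theorem m2_val {Ω : Type} [Field Ω] {V : ValuationSubring Ω} {C : Type} [NormedField C] (i : Ω →+* C)
    (val : ∀ x, x ∈ V ↔ ‖i x‖ ≤ 1) (x y : Ω) : V.valuation x = V.valuation y ↔ ‖i x‖ = ‖i y‖ := by
  rw [le_antisymm_iff, le_antisymm_iff, m2_le i val, m2_le i val]

theorem m2_comap {Ω : Type} [Field Ω] (j : Ω →+* ℂ) (V : ValuationSubring ℂ) (x y : Ω) :
    (V.comap j).valuation x = (V.comap j).valuation y ↔ V.valuation (j x) = V.valuation (j y) := by
  rw [le_antisymm_iff, le_antisymm_iff, m2_comap_le, m2_comap_le]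

theorem m2_lt {Ω : Type} [Field Ω] {V : ValuationSubring Ω} {C : Type} [NormedField C] (i : Ω →+* C)
    (val : ∀ x, x ∈ V ↔ ‖i x‖ ≤ 1) (x : Ω) : V.valuation x < 1 ↔ ‖i x‖ < 1 := by
  have h := m2_le i val 1 x
  rw [map_one, map_one, norm_one] at h
  rw [← not_le, h, not_le]

theorem m2_comap_lt {Ω : Type} [Field Ω] (j : Ω →+* ℂ) (V : ValuationSubring ℂ) (x : Ω) :
    (V.comap j).valuation x < 1 ↔ V.valuation (j x) < 1 := by
  have h := m2_comap_le j V 1 x
  rw [map_one, map_one, map_one] at h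
  rw [← not_le, h, not_le]

theorem m2_lift {F : Type} [Field F] {Ω : Type} [Field Ω] [Algebra F Ω] [IsAlgClosure F Ω] [CharZero Ω]
    (j : Ω →+* ℂ) (z : ℂ) (hz : IsAlgebraic ℚ z) : ∃ x : Ω, j x = z := by
  have hcl : IsAlgClosed Ω := IsAlgClosure.isAlgClosed F
  letI : Algebra Ω ℂ := j.toAlgebra
  have h1 : IsAlgebraic Ω z := hz.tower_top Ω
  have h2 : IsIntegral Ω z := h1.isIntegral
  have h3 := IsAlgClosed.degree_eq_one_of_irreducible Ω (minpoly.irreducible h2)
  obtain ⟨x, hx⟩ := minpoly.mem_range_of_degree_eq_one Ω z h3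
  exact ⟨x, hx⟩

theorem m2_chi {F : Type} [Field F] {Ω : Type} [Field Ω] [Algebra F Ω] [IsAlgClosure F Ω] [CharZero Ω]
    (j : Ω →+* ℂ) {C : Type} [Field C] (i : Ω →+* C) {n : ℕ} [NeZero n] (χ : DirichletCharacter ℂ n) :
    ∃ (χ' : DirichletCharacter Ω n) (χ'' : DirichletCharacter C n), (∀ a, j (χ' a) = χ a) ∧ (∀ a, χ'' a = i (χ' a)) ∧
      orderOf χ'' = orderOf χ := by
  have halg : ∀ a : ZMod n, IsAlgebraic ℚ (χ a) := by
    intro a
    by_cases ha : IsUnit a
    · obtain ⟨u, rfl⟩ := ha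
      have h1 : (χ (u : ZMod n)) ^ Fintype.card (ZMod n)ˣ = 1 := by
        rw [← map_pow, ← Units.val_pow_eq_pow_val, pow_card_eq_one, Units.val_one, map_one]
      have h2 : IsIntegral ℚ (χ (u : ZMod n)) := by
        apply IsIntegral.of_pow (n := Fintype.card (ZMod n)ˣ) Fintype.card_pos
        rw [h1]
        exact isIntegral_one
      exact h2.isAlgebraic
    · rw [χ.map_nonunit ha]
      exact isAlgebraic_zero
  choose f hf using fun a => m2_lift (F := F) j (χ a) (halg a)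
  let χ' : DirichletCharacter Ω n :=
    { toFun := f
      map_one' := j.injective (by rw [hf, map_one, map_one])
      map_mul' := fun a b => j.injective (by rw [hf, map_mul, map_mul, hf, hf])
      map_nonunit' := fun a ha => j.injective (by
        show j (f a) = j 0
        rw [hf, map_zero, χ.map_nonunit ha]) }
  have hχ' : ∀ a, χ' a = f a := fun a => rfl
  refine ⟨χ', χ'.ringHomComp i, fun a => ?_, fun a => rfl, ?_⟩
  · rw [hχ', hf]
  · rw [orderOf_eq_orderOf_iff]
    intro k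
    constructor
    · intro h
      ext u
      have h1 := DFunLike.congr_fun h (u : ZMod n)
      rw [MulChar.pow_apply_coe, MulChar.one_apply_coe, MulChar.ringHomComp_apply, ← map_pow] at h1
      have h2 : χ' (u : ZMod n) ^ k = 1 := i.injective (by rw [h1, map_one])
      rw [MulChar.pow_apply_coe, MulChar.one_apply_coe, ← hf, ← hχ', ← map_pow, h2, map_one]
    · intro h
      ext u
      have h1 := DFunLike.congr_fun h (u : ZMod n)
      rw [MulChar.pow_apply_coe, MulChar.one_apply_coe, ← hf, ← hχ', ← map_pow] at h1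
      have h2 : χ' (u : ZMod n) ^ k = 1 := j.injective (by rw [h1, map_one])
      rw [MulChar.pow_apply_coe, MulChar.one_apply_coe, MulChar.ringHomComp_apply, ← map_pow, h2, map_one]

end SSG.S
end

-- from Lib.H55W.G4
section

/-! # H55W, part G: quartic Gauss sums in characteristic l (pure Mathlib) -/

namespace H55W

variable {k0 R' : Type} [Field k0] [Fintype k0] [Field R']

/-- Chunk G4A (M). g1, g2, g3 = gaussSum of χ, χ^2, χ^3 (ψ fixed). jacobiSum_mul_nontrivial for χ * χ^2 = χ^3 ≠ 1: g3 J = g1 g2. gaussSum_mul_gaussSum_eq_card / gaussSum_sq for the quadratic character χ^2 (IsQuadratic? use: χ^2 ≠ 1, (χ^2)⁻¹ = χ^2): g2^2 = χ^2(-1) card = card (χ(-1)^2 = χ(1) = 1). g1 g3 = χ(-1) card: χ^3 = χ⁻¹, gaussSum χ ψ * gaussSum χ⁻¹ ψ⁻¹ = card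
(gaussSum_mul_gaussSum_eq_card) and gaussSum χ⁻¹ ψ⁻¹ = χ(-1) gaussSum χ⁻¹ ψ (gaussSum_mulShift with the unit -1; AddChar.inv_mulShift). g3 ≠ 0 (gaussSum_ne_zero_of_nontrivial). J^2 g3^2 = g1^2 card, multiply by g1^2: J^2 card^2 = g1^4 card, divide by card ≠ 0. -/
theorem gs_four (χ : MulChar k0 R') (h4 : orderOf χ = 4) (ψ : AddChar k0 R') (hψ : ψ.IsPrimitive)
    (hq : (Fintype.card k0 : R') ≠ 0) :
    gaussSum χ ψ ^ 4 = (Fintype.card k0 : R') * jacobiSum χ (χ ^ 2) ^ 2 ∧
      gaussSum χ ψ * gaussSum (χ ^ 3) ψ = χ (-1) * (Fintype.card k0 : R') ∧ gaussSum χ ψ ≠ 0 := by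
  have hc1 : χ ≠ 1 := by
    rintro rfl
    rw [orderOf_one] at h4
    omega
  have hp4 : χ ^ 4 = 1 := by rw [← h4]; exact pow_orderOf_eq_one χ
  have hc2 : χ ^ 2 ≠ 1 := fun h => by
    have := orderOf_dvd_of_pow_eq_one h
    rw [h4] at this
    omega
  have hc3 : χ ^ 3 ≠ 1 := fun h => by
    have := orderOf_dvd_of_pow_eq_one h
    rw [h4] at this
    omega
  have hneg : χ (-1) ^ 2 = 1 := by
    rw [← map_pow]
    simp
  have hg1 : gaussSum χ ψ ≠ 0 := gaussSum_ne_zero_of_nontrivial hq hc1 hψ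
  have h13 : gaussSum χ ψ * gaussSum (χ ^ 3) ψ = χ (-1) * (Fintype.card k0 : R') := by
    have h := gaussSum_mul_gaussSum_pow_orderOf_sub_one hc1 hψ
    rw [h4] at h
    exact h
  have hinv : (χ ^ 2)⁻¹ = χ ^ 2 := by
    rw [inv_eq_iff_mul_eq_one, ← pow_add]
    exact hp4
  have h22 : gaussSum (χ ^ 2) ψ * gaussSum (χ ^ 2) ψ = (Fintype.card k0 : R') := by
    have h := gaussSum_mul_gaussSum_eq_card hc2 hψ
    have h' := mul_gaussSum_inv_eq_gaussSum (χ ^ 2) ψ
    rw [MulChar.pow_apply' χ two_ne_zero, hneg, one_mul] at h'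
    rw [hinv, h'] at h
    exact h
  have hJ : gaussSum (χ ^ 3) ψ * jacobiSum χ (χ ^ 2) = gaussSum χ ψ * gaussSum (χ ^ 2) ψ := by
    have h := jacobiSum_mul_nontrivial (χ := χ) (φ := χ ^ 2) (by rw [← pow_succ']; exact hc3) ψ
    rw [← pow_succ'] at h
    exact h
  refine ⟨?_, h13, hg1⟩
  set g1 := gaussSum χ ψ
  set g2 := gaussSum (χ ^ 2) ψ
  set g3 := gaussSum (χ ^ 3) ψ
  set J := jacobiSum χ (χ ^ 2)
  set q : R' := (Fintype.card k0 : R')
  have e1 : χ (-1) * q * J = g1 ^ 2 * g2 := by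
    rw [← h13, mul_assoc, hJ]
    ring
  have e2 : q * (g1 ^ 4) = q * (q * J ^ 2) := by
    have e3 : (χ (-1) * q * J) ^ 2 = (g1 ^ 2 * g2) ^ 2 := by rw [e1]
    have e4 : (χ (-1) * q * J) ^ 2 = q * (q * J ^ 2) := by
      calc (χ (-1) * q * J) ^ 2 = χ (-1) ^ 2 * (q * (q * J ^ 2)) := by ring
        _ = q * (q * J ^ 2) := by rw [hneg, one_mul]
    have e5 : (g1 ^ 2 * g2) ^ 2 = q * g1 ^ 4 := by
      calc (g1 ^ 2 * g2) ^ 2 = (g2 * g2) * g1 ^ 4 := by ring
        _ = q * g1 ^ 4 := by rw [h22]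
    rw [← e5, ← e3, e4]
  exact mul_left_cancel₀ hq e2

/-- Chunk G4B (M). Compare H35T.r2_abs in H35T/R2.lean. gaussSum_frob l: g^l = gaussSum (χ^l) (ψ^l) = gaussSum χ (mulShift ψ l) (l = 4t + 1, χ^l = χ; AddChar.pow_mulShift); gaussSum_mulShift with the unit l: χ(l) g^l = g; g^l = (g^4)^t g (gs_four). Cancel g. -/
theorem gs_one (l : ℕ) [Fact l.Prime] [CharP R' l] (hl : (l : k0) ≠ 0) (χ : MulChar k0 R') (h4 : orderOf χ = 4)
    (ψ : AddChar k0 R') (hψ : ψ.IsPrimitive) (hq : (Fintype.card k0 : R') ≠ 0) (t : ℕ) (ht : l = 4 * t + 1) :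
    χ (l : k0) * ((Fintype.card k0 : R') * jacobiSum χ (χ ^ 2) ^ 2) ^ t = 1 := by
  obtain ⟨h1, -, hg⟩ := gs_four χ h4 ψ hψ hq
  have hp4 : χ ^ 4 = 1 := by rw [← h4]; exact pow_orderOf_eq_one χ
  have h2 : gaussSum χ ψ ^ l = gaussSum χ (AddChar.mulShift ψ (l : k0)) := by
    rw [gaussSum_frob l, AddChar.pow_mulShift]
    congr 1
    rw [ht, pow_succ, pow_mul, hp4, one_pow, one_mul]
  have h3 := gaussSum_mulShift χ ψ (Units.mk0 _ hl)
  rw [Units.val_mk0, ← h2] at h3
  have h5 : gaussSum χ ψ ^ l =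
      ((Fintype.card k0 : R') * jacobiSum χ (χ ^ 2) ^ 2) ^ t * gaussSum χ ψ := by
    rw [ht, pow_succ, pow_mul, h1]
  rw [h5, ← mul_assoc] at h3
  exact mul_right_cancel₀ hg (by rw [h3, one_mul])

/-- Chunk G4B (M). g^(l+1) = g^l g, g^l = gaussSum (χ^3) (mulShift ψ l) (l + 1 = 4t: l = 4(t-1) + 3, χ^l = χ^3), gaussSum_mulShift: χ^3(l) gaussSum (χ^3) (mulShift ψ l) = gaussSum (χ^3) ψ, so g^l = χ(l) gaussSum (χ^3) ψ (χ(l)^4 = 1), g^(l+1) = χ(l) χ(-1) card (gs_four); and g^(l+1) = (g^4)^t. -/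
theorem gs_three (l : ℕ) [Fact l.Prime] [CharP R' l] (hl : (l : k0) ≠ 0) (χ : MulChar k0 R') (h4 : orderOf χ = 4)
    (ψ : AddChar k0 R') (hψ : ψ.IsPrimitive) (hq : (Fintype.card k0 : R') ≠ 0) (t : ℕ) (ht : l + 1 = 4 * t) :
    ((Fintype.card k0 : R') * jacobiSum χ (χ ^ 2) ^ 2) ^ t = χ (-(l : k0)) * (Fintype.card k0 : R') := by
  obtain ⟨h1, h13, hg⟩ := gs_four χ h4 ψ hψ hq
  have hp4 : χ ^ 4 = 1 := by rw [← h4]; exact pow_orderOf_eq_one χ
  have hl4 : χ ^ l = χ ^ 3 := by
    obtain ⟨m, rfl⟩ : ∃ m, l = 4 * m + 3 := ⟨t - 1, by omega⟩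
    rw [pow_add, pow_mul, hp4, one_pow, one_mul]
  have h2 : gaussSum χ ψ ^ l = gaussSum (χ ^ 3) (AddChar.mulShift ψ (l : k0)) := by
    rw [gaussSum_frob l, AddChar.pow_mulShift, hl4]
  have h3 := gaussSum_mulShift (χ ^ 3) ψ (Units.mk0 _ hl)
  rw [Units.val_mk0, ← h2, MulChar.pow_apply' χ three_ne_zero] at h3
  have hc : χ (l : k0) ^ 4 = 1 := by
    rw [← MulChar.pow_apply' χ four_ne_zero, hp4]
    exact MulChar.one_apply (Ne.isUnit hl)
  have h5 : gaussSum χ ψ ^ l = χ (l : k0) * gaussSum (χ ^ 3) ψ := by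
    rw [← h3]
    calc gaussSum χ ψ ^ l = χ (l : k0) ^ 4 * gaussSum χ ψ ^ l := by rw [hc, one_mul]
      _ = _ := by ring
  rw [← h1, ← pow_mul, ← ht, pow_succ, h5]
  calc χ (l : k0) * gaussSum (χ ^ 3) ψ * gaussSum χ ψ
      = χ (l : k0) * (gaussSum χ ψ * gaussSum (χ ^ 3) ψ) := by ring
    _ = (χ (-1) * χ (l : k0)) * (Fintype.card k0 : R') := by rw [h13]; ring
    _ = χ (-(l : k0)) * (Fintype.card k0 : R') := by rw [← map_mul, neg_one_mul]

end H55W
end

-- from Lib.H55W.ZA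
section

/-! # H55W, part Z: Weierstrass equations over ℤ with complex multiplication by the fields of discriminant -3, -4, -8 (pure arithmetic) -/

open WeierstrassCurve

namespace H55W

theorem za_twelve {x y : ℤ} (h : x ^ 2 = 24 * y) : ∃ β : ℤ, x = 12 * β := by
  obtain ⟨q, r, hx, hr0, hr1⟩ : ∃ q r : ℤ, x = 12 * q + r ∧ 0 ≤ r ∧ r < 12 :=
    ⟨x / 12, x % 12, by omega, by omega, by omega⟩
  obtain ⟨Q, hQ⟩ : ∃ Q, Q = q ^ 2 := ⟨_, rfl⟩
  have h1 : 144 * Q + 24 * (q * r) + r ^ 2 = 24 * y := by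
    rw [← h, hx, hQ]
    ring
  refine ⟨q, ?_⟩
  interval_cases r <;> omega

/-- Chunk ZA (S/M). c₄ = b₂^2 - 24 b₄ = 0: 12 divides b₂ (24 | b₂^2), b₂ = 12 β, b₄ = 6 β^2, c₆ = -b₂^3 + 36 b₂ b₄ - 216 b₆ = -216 (b₆ - 4β^3), b' = b₆ - 4β^3; 1728 Δ = c₄^3 - c₆^2 (WeierstrassCurve.c_relation): Δ = -27 b'^2. b' odd: b₆ = a₃^2 + 4 a₆ is odd, so 1 mod 4 (b₂, b₆: unfold), b' = 1 mod 4. -/
theorem arith_three (W : WeierstrassCurve ℤ) (h : W.c₄ = 0) : ∃ b' : ℤ, W.c₆ = -216 * b' ∧ W.Δ = -27 * b' ^ 2 ∧ (b' % 2 = 1 → b' % 4 = 1) := by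
  have h4 : W.b₂ ^ 2 - 24 * W.b₄ = 0 := h
  obtain ⟨β, hβ⟩ := za_twelve (x := W.b₂) (y := W.b₄) (by linarith)
  have hb4 : W.b₄ = 6 * β ^ 2 := by
    rw [hβ] at h4
    nlinarith
  have hc6 : W.c₆ = -216 * (W.b₆ - 4 * β ^ 3) := by
    have e : W.c₆ = -W.b₂ ^ 3 + 36 * W.b₂ * W.b₄ - 216 * W.b₆ := rfl
    rw [e, hβ, hb4]
    ring
  refine ⟨W.b₆ - 4 * β ^ 3, hc6, ?_, ?_⟩
  · have h1 := W.c_relation
    rw [h, hc6] at h1
    have h2 : (0 : ℤ) ^ 3 - (-216 * (W.b₆ - 4 * β ^ 3)) ^ 2 =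
        1728 * (-27 * (W.b₆ - 4 * β ^ 3) ^ 2) := by ring
    rw [h2] at h1
    exact mul_left_cancel₀ (by norm_num : (1728 : ℤ) ≠ 0) h1
  · intro hodd
    have e : W.b₆ = W.a₃ ^ 2 + 4 * W.a₆ := rfl
    obtain ⟨q, r, hx, hr0, hr1⟩ : ∃ q r : ℤ, W.a₃ = 2 * q + r ∧ 0 ≤ r ∧ r < 2 :=
      ⟨W.a₃ / 2, W.a₃ % 2, by omega, by omega, by omega⟩
    have e2 : W.a₃ ^ 2 = 4 * (q ^ 2 + q * r) + r ^ 2 := by
      rw [hx]
      ring
    rw [e, e2] at hodd ⊢
    interval_cases r
    · exfalso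
      omega
    · omega

/-- Chunk ZA (S/M). c₄^3 = 1728 Δ = 12^3 Δ (c_relation): 12 divides c₄ (12^3 | c₄^3: 2^6 3^3 | c₄^3 gives 4 | c₄ and 3 | c₄; or Int.pow_dvd_pow_iff), c₄ = 12 δ, δ^3 = Δ. -/
theorem arith_four (W : WeierstrassCurve ℤ) (h : W.c₆ = 0) : ∃ δ : ℤ, W.c₄ = 12 * δ ∧ W.Δ = δ ^ 3 := by
  have h1 := W.c_relation
  rw [h] at h1
  have h2 : (12 : ℤ) ^ 3 ∣ W.c₄ ^ 3 := ⟨W.Δ, by linarith⟩
  rw [Int.pow_dvd_pow_iff (by norm_num)] at h2
  obtain ⟨δ, hδ⟩ := h2
  refine ⟨δ, hδ, ?_⟩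
  rw [hδ] at h1
  have h3 : (12 * δ) ^ 3 - (0 : ℤ) ^ 2 = 1728 * δ ^ 3 := by ring
  rw [h3] at h1
  exact mul_left_cancel₀ (by norm_num : (1728 : ℤ) ≠ 0) h1

/-- Chunk ZA (M). n = -5 c₆/(14 c₄), a rational number (c₄ ≠ 0: otherwise c₆ = 0 and Δ = 0): n^2 = 25 c₆^2/(196 c₄^2) = c₄/10 (h), -28 n^3 = c₆; 1728 Δ = c₄^3 - c₆^2 = 1000 n^6 - 784 n^6 = 216 n^6: n^6 = 8 Δ, an integer, so n is an integer (a rational number with an integral power is an integer: Rat.isInt.. / IsIntegrallyClosed ℤ / num_dvd_of_is_root, Rat.den: n^6 integer implies den = 1). -/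
theorem arith_eight (W : WeierstrassCurve ℤ) (hΔ : W.Δ ≠ 0) (h : 125 * W.c₆ ^ 2 = 98 * W.c₄ ^ 3) :
    ∃ n : ℤ, W.c₄ = 10 * n ^ 2 ∧ W.c₆ = -28 * n ^ 3 ∧ 8 * W.Δ = n ^ 6 := by
  have hrel := W.c_relation
  have h4 : W.c₄ ≠ 0 := by
    intro h0
    rw [h0] at h
    have h6 : W.c₆ ^ 2 = 0 := by linarith
    rw [h0, h6] at hrel
    apply hΔ
    linarith
  have h4' : (W.c₄ : ℚ) ≠ 0 := by exact_mod_cast h4
  have hq : (125 : ℚ) * (W.c₆ : ℚ) ^ 2 = 98 * (W.c₄ : ℚ) ^ 3 := by exact_mod_cast h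
  have hrelq : (1728 : ℚ) * (W.Δ : ℚ) = (W.c₄ : ℚ) ^ 3 - (W.c₆ : ℚ) ^ 2 := by exact_mod_cast hrel
  obtain ⟨q, hqd⟩ : ∃ q : ℚ, q = -5 * (W.c₆ : ℚ) / (14 * (W.c₄ : ℚ)) := ⟨_, rfl⟩
  have hq2 : (W.c₄ : ℚ) = 10 * q ^ 2 := by
    rw [hqd]
    field_simp
    linarith
  have hq3 : (W.c₆ : ℚ) = -28 * q ^ 3 := by
    have e : q * (14 * (W.c₄ : ℚ)) = -5 * (W.c₆ : ℚ) := by
      rw [hqd]
      field_simp
    rw [hq2] at e
    linarith
  have hq6 : (8 : ℚ) * (W.Δ : ℚ) = q ^ 6 := by
    rw [hq2, hq3] at hrelq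
    linarith
  have hint : _root_.IsIntegral ℤ (q ^ 6) := by
    rw [← hq6]
    have e : (8 : ℚ) * (W.Δ : ℚ) = algebraMap ℤ ℚ (8 * W.Δ) := by
      simp
    rw [e]
    exact isIntegral_algebraMap
  obtain ⟨n, hn⟩ := IsIntegrallyClosed.exists_algebraMap_eq_of_isIntegral_pow
    (R := ℤ) (K := ℚ) (n := 6) (by norm_num) hint
  have hn' : (n : ℚ) = q := hn
  rw [← hn'] at hq2 hq3 hq6
  exact ⟨n, by exact_mod_cast hq2, by exact_mod_cast hq3, by exact_mod_cast hq6⟩

end H55W
end

-- from Lib.H55Z.P2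
section

/-! # H55Z, part P: the discriminant of the layers of the cyclotomic tower over the rationals -/

open NumberField IsDedekindDomain Polynomial

namespace H55Z

/-- The exponent of p in the discriminant of the n-th layer. -/
def En (p n : ℕ) : ℕ := ∑ k ∈ Finset.range n, (k + 2) * (p ^ (k + 1) - p ^ k)

theorem En_eq {p : ℕ} (hp : 2 ≤ p) (n : ℕ) : En p n * (p - 1) + (p - 2) = p ^ n * ((p - 1) * (n + 1) - 1) := by
  obtain ⟨q, rfl⟩ : ∃ q, p = q + 2 := ⟨p - 2, by omega⟩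
  have e1 : q + 2 - 1 = q + 1 := by omega
  have e2 : q + 2 - 2 = q := by omega
  rw [e1, e2]
  have h1 : ∀ n : ℕ, (q + 1) * (n + 1) - 1 = (q + 1) * n + q := by
    intro n
    rw [mul_add, mul_one]
    omega
  rw [h1]
  induction n with
  | zero => simp [En]
  | succ n ih =>
    have h2 : En (q + 2) (n + 1) = En (q + 2) n + (n + 2) * ((q + 2) ^ (n + 1) - (q + 2) ^ n) := by
      unfold En
      rw [Finset.sum_range_succ]
    have h3 : (q + 2) ^ (n + 1) - (q + 2) ^ n = (q + 2) ^ n * (q + 1) := by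
      rw [pow_succ, ← Nat.mul_sub_one]
      congr 1
    rw [h2, h3]
    calc (En (q + 2) n + (n + 2) * ((q + 2) ^ n * (q + 1))) * (q + 1) + q
        = (En (q + 2) n * (q + 1) + q) + (n + 2) * ((q + 2) ^ n * (q + 1)) * (q + 1) := by ring
      _ = (q + 2) ^ (n + 1) * ((q + 1) * (n + 1) + q) := by
          rw [ih]
          ring

section

variable {p : ℕ} [hp : Fact p.Prime] {n : ℕ} {L : Type} [Field L] [NumberField L] [IsCyclotomicExtension {p ^ (n + 1)} ℚ L]
  {Q : Type} [Field Q] [NumberField Q] [Algebra Q L]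

theorem P2_gal (p : ℕ) [Fact p.Prime] (n : ℕ) (L : Type) [Field L] [NumberField L] [IsCyclotomicExtension {p ^ (n + 1)} ℚ L]
    (Q : Type) [Field Q] [NumberField Q] [Algebra Q L] : IsGalois Q L := by
  have h1 : IsGalois ℚ L := IsCyclotomicExtension.isGalois {p ^ (n + 1)} ℚ L
  exact IsGalois.tower_top_of_isGalois ℚ Q L

/-- The norm of 1 - ζ', ζ' another primitive root: p, up to sign. -/
theorem P2_norm (h2 : p ≠ 2) {ξ : L} (hξ : IsPrimitiveRoot ξ (p ^ (n + 1))) :
    Algebra.norm ℚ (ξ - 1) = p :=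
  hξ.norm_sub_one_of_prime_ne_two (cyclotomic.irreducible_rat (NeZero.pos _)) h2

/-- The conjugates of ζ over Q, different from ζ. -/
theorem P2_conj (hQ : Module.finrank ℚ Q = p ^ n) {ζ : L} (hζ : IsPrimitiveRoot ζ (p ^ (n + 1))) (σ : L ≃ₐ[Q] L)
    (hσ : σ ζ ≠ ζ) : ∃ ξ : L, IsPrimitiveRoot ξ (p ^ (n + 1)) ∧ σ ζ = ζ * ξ := by
  have hG : IsGalois Q L := P2_gal p n L Q
  have hpos : 0 < p ^ (n + 1) := pow_pos hp.out.pos _
  have := NeZero.mk hpos.ne'
  have hζ0 : ζ ≠ 0 := hζ.ne_zero hpos.ne'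
  have hσ1 : (σ ζ) ^ p ^ (n + 1) = 1 := by
    rw [← map_pow, hζ.pow_eq_one, map_one]
  obtain ⟨a, -, ha⟩ := hζ.eq_pow_of_pow_eq_one hσ1
  have hcardL : Module.finrank ℚ L = p ^ n * (p - 1) := by
    rw [IsCyclotomicExtension.finrank (n := p ^ (n + 1)) L (cyclotomic.irreducible_rat (NeZero.pos _)),
      Nat.totient_prime_pow hp.out n.succ_pos]
    rfl
  have hcard : Nat.card (L ≃ₐ[Q] L) = p - 1 := by
    rw [IsGalois.card_aut_eq_finrank]
    have h1 := Module.finrank_mul_finrank ℚ Q L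
    rw [hQ, hcardL] at h1
    exact mul_left_cancel₀ (pow_pos hp.out.pos _).ne' h1
  -- the iterates
  have hit : ∀ k : ℕ, (σ ^ k) ζ = ζ ^ a ^ k := by
    intro k
    induction k with
    | zero => simp
    | succ k ih =>
      rw [pow_succ' σ]
      show σ ((σ ^ k) ζ) = _
      rw [ih, map_pow, ← ha, ← pow_mul, pow_succ']
  have hone : σ ^ (p - 1) = 1 := by
    rw [← hcard]
    exact pow_card_eq_one'
  -- a is not 1 modulo p
  have hap : ¬ (p : ℤ) ∣ (a : ℤ) - 1 := by
    intro hd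
    have h3 : ∀ m : ℕ, (p : ℤ) ^ (m + 1) ∣ (a : ℤ) ^ p ^ m - 1 := by
      intro m
      have h4 := dvd_sub_pow_of_dvd_sub (R := ℤ) hd m
      rwa [one_pow] at h4
    have h4 := h3 n
    have h5 : a ^ p ^ n ≡ 1 [MOD p ^ (n + 1)] := by
      rw [← Int.natCast_modEq_iff]
      apply Int.ModEq.symm
      rw [Int.modEq_iff_dvd]
      push_cast
      exact h4
    have h6 : (σ ^ p ^ n) ζ = ζ := by
      rw [hit]
      have h7 : ζ ^ a ^ p ^ n = ζ ^ 1 := pow_eq_pow_of_modEq h5 hζ.pow_eq_one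
      rw [h7, pow_one]
    -- σ ζ = ζ since p^n and p - 1 are coprime
    have hcop : Nat.Coprime (p ^ n) (p - 1) := by
      apply Nat.Coprime.pow_left
      have h8 := (Nat.coprime_self_add_left (m := p - 1) (n := 1)).2 (Nat.coprime_one_left _)
      rwa [Nat.sub_add_cancel hp.out.one_le] at h8
    apply hσ
    have h8 : ∀ i : ℤ, (σ ^ (i * (p ^ n : ℕ))) ζ = ζ := by
      have h9 : σ ^ p ^ n ∈ MulAction.stabilizer (L ≃ₐ[Q] L) ζ := h6
      intro i
      have h10 := Subgroup.zpow_mem _ h9 i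
      have h11 : (σ ^ p ^ n) ^ i = σ ^ (i * (p ^ n : ℕ)) := by
        rw [← zpow_natCast, ← zpow_mul, mul_comm]
      rw [h11] at h10
      exact h10
    have h12 : (p ^ n : ℕ) * Nat.gcdA (p ^ n) (p - 1) + (p - 1 : ℕ) * Nat.gcdB (p ^ n) (p - 1) = (1 : ℤ) := by
      have h13 := Nat.gcd_eq_gcd_ab (p ^ n) (p - 1)
      rw [Nat.Coprime.gcd_eq_one hcop] at h13
      exact_mod_cast h13.symm
    have h14 : σ = σ ^ (Nat.gcdA (p ^ n) (p - 1) * (p ^ n : ℕ)) := by
      have h15 : σ ^ (1 : ℤ) = σ ^ (Nat.gcdA (p ^ n) (p - 1) * (p ^ n : ℕ)) := by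
        rw [← h12, zpow_add, zpow_mul σ ((p - 1 : ℕ) : ℤ), zpow_natCast σ (p - 1), hone, one_zpow, mul_one, mul_comm]
      rwa [zpow_one] at h15
    rw [h14]
    exact h8 _
  have ha1 : 1 ≤ a := by
    by_contra h0
    have h1 : a = 0 := by omega
    rw [h1, pow_zero] at ha
    have h3 : ζ = 1 := by
      apply σ.injective
      rw [← ha, map_one]
    apply hσ
    rw [h3, map_one]
  refine ⟨ζ ^ (a - 1), ?_, ?_⟩
  · apply hζ.pow_of_coprime
    apply Nat.Coprime.pow_right
    rw [Nat.coprime_comm, Nat.Prime.coprime_iff_not_dvd hp.out]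
    intro hd
    apply hap
    have h1 : ((a - 1 : ℕ) : ℤ) = (a : ℤ) - 1 := by
      rw [Nat.cast_sub ha1, Nat.cast_one]
    rw [← h1]
    exact_mod_cast hd
  · rw [← pow_succ', Nat.sub_add_cancel ha1, ha]

/-- The norm of f'(ζ), f the minimal polynomial of ζ over Q. -/
theorem P2_der (h2 : p ≠ 2) (hQ : Module.finrank ℚ Q = p ^ n) {ζ : L} (hζ : IsPrimitiveRoot ζ (p ^ (n + 1))) :
    ∃ z : ℤ, IsUnit z ∧ Algebra.norm ℚ (aeval ζ (derivative (minpoly Q ζ))) = z * p ^ (p - 2) := by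
  classical
  have hG : IsGalois Q L := P2_gal p n L Q
  have hpos : 0 < p ^ (n + 1) := pow_pos hp.out.pos _
  have := NeZero.mk hpos.ne'
  have hint : IsIntegral Q ζ := Algebra.IsIntegral.isIntegral ζ
  have hsp : ((minpoly Q ζ).map (algebraMap Q L)).Splits := hG.to_normal.splits ζ
  have hmon : ((minpoly Q ζ).map (algebraMap Q L)).Monic := (minpoly.monic hint).map _
  have hroot : ζ ∈ ((minpoly Q ζ).map (algebraMap Q L)).roots := by
    rw [mem_roots hmon.ne_zero, IsRoot.def, eval_map_algebraMap, minpoly.aeval]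
  have h1 : aeval ζ (derivative (minpoly Q ζ)) =
      ((((minpoly Q ζ).map (algebraMap Q L)).roots.erase ζ).map (ζ - ·)).prod := by
    rw [← hsp.eval_root_derivative hmon hroot, derivative_map, eval_map_algebraMap]
  have hsep : ((minpoly Q ζ).map (algebraMap Q L)).Separable := Polynomial.Separable.map (Algebra.IsSeparable.isSeparable Q ζ)
  have hnd : ((minpoly Q ζ).map (algebraMap Q L)).roots.Nodup := nodup_roots hsep
  have htop : IntermediateField.adjoin Q {ζ} = ⊤ := by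
    have h3 := IsCyclotomicExtension.adjoin_primitive_root_eq_top (A := ℚ) (B := L) hζ
    rw [eq_top_iff]
    intro x _
    have h4 : x ∈ Algebra.adjoin ℚ {ζ} := h3 ▸ Algebra.mem_top
    have h5 : Algebra.adjoin ℚ {ζ} ≤ (IntermediateField.adjoin Q {ζ}).toSubalgebra.restrictScalars ℚ := by
      rw [Algebra.adjoin_le_iff]
      rintro _ rfl
      exact IntermediateField.mem_adjoin_simple_self Q _
    exact h5 h4
  have hdeg : (minpoly Q ζ).natDegree = p - 1 := by
    have h3 := IntermediateField.adjoin.finrank hint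
    rw [htop, IntermediateField.finrank_top'] at h3
    rw [← h3]
    have h4 := Module.finrank_mul_finrank ℚ Q L
    have hcardL : Module.finrank ℚ L = p ^ n * (p - 1) := by
      rw [IsCyclotomicExtension.finrank (n := p ^ (n + 1)) L (cyclotomic.irreducible_rat (NeZero.pos _)),
        Nat.totient_prime_pow hp.out n.succ_pos]
      rfl
    rw [hQ, hcardL] at h4
    exact mul_left_cancel₀ (pow_pos hp.out.pos _).ne' h4
  have hcard : Multiset.card ((((minpoly Q ζ).map (algebraMap Q L)).roots.erase ζ)) = p - 2 := by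
    rw [Multiset.card_erase_of_mem hroot, ← hsp.natDegree_eq_card_roots, natDegree_map, hdeg]
    rfl
  have hterm : ∀ r ∈ ((minpoly Q ζ).map (algebraMap Q L)).roots.erase ζ,
      ∃ z : ℤ, IsUnit z ∧ Algebra.norm ℚ (ζ - r) = z * p := by
    intro r hr
    rw [hnd.mem_erase_iff] at hr
    obtain ⟨hne, hr⟩ := hr
    rw [mem_roots hmon.ne_zero, IsRoot.def, eval_map_algebraMap] at hr
    have hcj : IsConjRoot Q ζ r := minpoly.eq_of_irreducible_of_monic (minpoly.irreducible hint) hr (minpoly.monic hint)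
    obtain ⟨σ, hσ⟩ := hcj.exists_algEquiv
    have hr' : σ⁻¹ ζ = r := by
      rw [← hσ]
      exact σ.symm_apply_apply r
    obtain ⟨ξ, hξ, hξ2⟩ := P2_conj (Q := Q) hQ hζ σ⁻¹ (by rw [hr']; exact hne)
    have h3 : ζ - r = (-1) * ζ * (ξ - 1) := by
      rw [← hr', hξ2]
      ring
    have h4 : Algebra.norm ℚ ζ = 1 := hζ.norm_eq_one (by
      intro h
      have h5 := (Nat.prime_dvd_prime_iff_eq hp.out Nat.prime_two).1 (h ▸ dvd_pow_self p n.succ_ne_zero)
      exact h2 h5) (cyclotomic.irreducible_rat (NeZero.pos _))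
    have h5 : Algebra.norm ℚ (-1 : L) = ((-1 : ℤ) ^ Module.finrank ℚ L : ℤ) := by
      have h6 := Algebra.norm_algebraMap (S := L) (-1 : ℚ)
      rw [map_neg, map_one] at h6
      rw [h6]
      push_cast
      rfl
    refine ⟨(-1) ^ Module.finrank ℚ L, isUnit_neg_one.pow _, ?_⟩
    rw [h3, map_mul, map_mul, h4, h5, mul_one, P2_norm h2 hξ]
  rw [h1, map_multiset_prod, Multiset.map_map, ← hcard]
  generalize ((minpoly Q ζ).map (algebraMap Q L)).roots.erase ζ = M at hterm
  induction M using Multiset.induction_on with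
  | empty => exact ⟨1, isUnit_one, by simp⟩
  | cons a M ih =>
    obtain ⟨z, hz, hz2⟩ := ih (fun r hr => hterm r (Multiset.mem_cons_of_mem hr))
    obtain ⟨y, hy, hy2⟩ := hterm a (Multiset.mem_cons_self a M)
    refine ⟨y * z, hy.mul hz, ?_⟩
    rw [Multiset.map_cons, Multiset.prod_cons, Multiset.card_cons, pow_succ, hz2]
    show Algebra.norm ℚ (ζ - a) * _ = _
    rw [hy2]
    push_cast
    ring

theorem P2_int {a j q E T : ℕ} (hq : 2 ≤ q) (h1 : a * (q - 1) + j = T) (hj : j ≤ q - 2)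
    (h2 : E * (q - 1) + (q - 2) = T) : a = E := by
  have h3 : a * (q - 1) + j = E * (q - 1) + (q - 2) := h1.trans h2.symm
  rcases lt_trichotomy a E with h | h | h
  · exfalso
    have h4 : (a + 1) * (q - 1) ≤ E * (q - 1) := Nat.mul_le_mul_right _ h
    rw [add_mul, one_mul] at h4
    omega
  · exact h
  · exfalso
    have h4 : (E + 1) * (q - 1) ≤ a * (q - 1) := Nat.mul_le_mul_right _ h
    rw [add_mul, one_mul] at h4
    omega

end

/-- The discriminant of the n-th layer. -/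
theorem discQ {p : ℕ} [hp : Fact p.Prime] {n : ℕ} (L : Type) [Field L] [NumberField L] [IsCyclotomicExtension {p ^ (n + 1)} ℚ L]
    {Q : Type} [Field Q] [NumberField Q] [Algebra Q L] (h2 : p ≠ 2) (hQ : Module.finrank ℚ Q = p ^ n) : (NumberField.discr Q).natAbs = p ^ En p n := by
  classical
  have hG : IsGalois Q L := P2_gal p n L Q
  have hζ := IsCyclotomicExtension.zeta_spec (p ^ (n + 1)) ℚ L
  set ζ := IsCyclotomicExtension.zeta (p ^ (n + 1)) ℚ L with hζdef
  have hpos : 0 < p ^ (n + 1) := pow_pos hp.out.pos _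
  have hne := NeZero.mk hpos.ne'
  let θ : 𝓞 L := hζ.toInteger
  have hθ : algebraMap (𝓞 L) L θ = ζ := rfl
  have hadj : Algebra.adjoin Q {algebraMap (𝓞 L) L θ} = ⊤ := by
    have h3 := IsCyclotomicExtension.adjoin_primitive_root_eq_top (A := ℚ) (B := L) hζ
    rw [eq_top_iff]
    intro x _
    have h4 : x ∈ Algebra.adjoin ℚ {ζ} := h3 ▸ Algebra.mem_top
    have h5 : Algebra.adjoin ℚ {ζ} ≤ (Algebra.adjoin Q {algebraMap (𝓞 L) L θ}).restrictScalars ℚ := by
      rw [Algebra.adjoin_le_iff]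
      rintro _ rfl
      exact Algebra.subset_adjoin rfl
    exact h5 h4
  have hmem := aeval_derivative_mem_differentIdeal (𝓞 Q) Q L θ hadj
  have h6 : Ideal.absNorm (differentIdeal (𝓞 Q) (𝓞 L)) ∣ p ^ (p - 2) := by
    have h7 := Ideal.absNorm_dvd_absNorm_of_le ((Ideal.span_singleton_le_iff_mem _).2 hmem)
    refine h7.trans ?_
    rw [Ideal.absNorm_span_singleton]
    obtain ⟨z, hz, hz2⟩ := P2_der (Q := Q) h2 hQ hζ
    have h8 : Algebra.norm ℤ (aeval θ (derivative (minpoly (𝓞 Q) θ))) = z * p ^ (p - 2) := by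
      apply (algebraMap ℤ ℚ).injective_int
      have h9 : aeval ζ (derivative (minpoly Q ζ)) =
          algebraMap (𝓞 L) L (aeval θ (derivative (minpoly (𝓞 Q) θ))) := by
        have h10 : minpoly Q ζ = (minpoly (𝓞 Q) θ).map (algebraMap (𝓞 Q) Q) :=
          minpoly.isIntegrallyClosed_eq_field_fractions Q L (Algebra.IsIntegral.isIntegral θ)
        rw [h10, derivative_map, aeval_map_algebraMap, ← hθ, aeval_algebraMap_apply]
      rw [h9] at hz2
      rw [show (algebraMap ℤ ℚ) (Algebra.norm ℤ (aeval θ (derivative (minpoly (𝓞 Q) θ)))) =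
        Algebra.norm ℚ (algebraMap (𝓞 L) L (aeval θ (derivative (minpoly (𝓞 Q) θ)))) from
          Algebra.coe_norm_int _, hz2]
      push_cast
      rfl
    rw [h8, Int.natAbs_mul, Int.natAbs_of_isUnit hz, one_mul, Int.natAbs_pow, Int.natAbs_natCast]
  obtain ⟨j, hj, hj2⟩ := (Nat.dvd_prime_pow hp.out).1 h6
  have h9 := natAbs_discr_eq_absNorm_differentIdeal_mul_natAbs_discr_pow Q (𝓞 Q) L (𝓞 L)
  rw [hj2] at h9
  have h10 : (NumberField.discr L).natAbs = p ^ (p ^ n * ((p - 1) * (n + 1) - 1)) := by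
    have h11 := IsCyclotomicExtension.Rat.discr_prime_pow_succ p n L
    rw [h11, Int.natAbs_mul, Int.natAbs_pow, Int.natAbs_neg, Int.natAbs_one, one_pow, one_mul, Int.natAbs_pow,
      Int.natAbs_natCast]
  have hcardL : Module.finrank ℚ L = p ^ n * (p - 1) := by
    rw [IsCyclotomicExtension.finrank (n := p ^ (n + 1)) L (cyclotomic.irreducible_rat (NeZero.pos _)),
      Nat.totient_prime_pow hp.out n.succ_pos]
    rfl
  have hrk : Module.finrank Q L = p - 1 := by
    have h4 := Module.finrank_mul_finrank ℚ Q L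
    rw [hQ, hcardL] at h4
    exact mul_left_cancel₀ (pow_pos hp.out.pos _).ne' h4
  rw [h10, hrk] at h9
  have h11 : (NumberField.discr Q).natAbs ^ (p - 1) ∣ p ^ (p ^ n * ((p - 1) * (n + 1) - 1)) := Dvd.intro_left _ h9.symm
  have hp1 : p - 1 ≠ 0 := by
    have := hp.out.two_le
    omega
  have h12 : (NumberField.discr Q).natAbs ∣ p ^ (p ^ n * ((p - 1) * (n + 1) - 1)) := (dvd_pow_self _ hp1).trans h11
  obtain ⟨a, -, ha⟩ := (Nat.dvd_prime_pow hp.out).1 h12
  rw [ha, ← pow_mul, ← pow_add] at h9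
  have h13 := Nat.pow_right_injective hp.out.two_le h9
  rw [ha]
  congr 1
  exact P2_int hp.out.two_le (by rw [add_comm]; exact h13.symm) hj (En_eq hp.out.two_le n)

end H55Z
end
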