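import Mathlib
import Pool.Agent.Lib.H1M.PP2.D_H13Z_TR
import Pool.Agent.Lib.H1M.PP2.M004
import Pool.Agent.Lib.H1M.PP2.M005
import Pool.Agent.Lib.H1M.PP2.M058
import Pool.Agent.Lib.H1M.PP2.M059
import Pool.Agent.Lib.H1M.PP2.M060
import Pool.Agent.Lib.H1M.PP2.M062
import Pool.Agent.Lib.H1M.PP2.M070
import Pool.Agent.Lib.H1M.PP2.M081
import Pool.Agent.Lib.H1M.PP2.M086

/-! Merged copies (to shorten the build) of Lib.H13R.N3, Lib.H55W.CL2, Lib.H55W.CL3, Lib.SSG.LT.CM1, Lib.SSG.LT.CM2, Lib.SSG.LT.PC3, Lib.H55W.G1, Lib.H55W.G2, Lib.H55W.G5, Lib.H55W.G5A, Lib.H55W.G6, Lib.H55W.G7, Lib.H55W.G8, Lib.H55W.F4. -/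

-- from Lib.H13R.N3
section

/-! # H13R: transport of the vanishing of the Selmer group -/

open NumberField IsDedekindDomain WeierstrassCurve

namespace H13R

open H55P
open H13Z (SelNon SelNonT)

/-- Chunk N3 (S/M). The positive version of H13Y.non_base (D1.lean) for the inertia conditions: given a class c for W⁄F over K (as in SelZero) the function c' of the proof of non_base is a class for W over K.restrictScalars k; Inert V (t.restrictScalars k) iff Inert V t (same function; V = ⊤ allowed). hS gives T', and φ T' works for c (end of that proof). -/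
theorem zero_base {k F Ω : Type} [Field k] [Field F] [Field Ω] [DecidableEq Ω] [Algebra k F] [Algebra k Ω]
    [Algebra F Ω] [IsScalarTower k F Ω] [FiniteDimensional k F] (W : WeierstrassCurve k) (p : ℕ)
    (K : IntermediateField F Ω) [FiniteDimensional F K] (hS : SelZero W p (K.restrictScalars k)) :
    SelZero (W⁄F) p K := by
  classical
  intro c hc hp hV
  obtain ⟨φ, hφ⟩ := base_iso (F := F) (Ω := Ω) W
  obtain ⟨c', hc'⟩ : ∃ c' : (Ω ≃ₐ[k] Ω) → Pt W Ω, ∀ t : Ω ≃ₐ[F] Ω, t ∈ K.fixingSubgroup →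
      c' (t.restrictScalars k) = φ.symm (c t) := by
    refine ⟨fun s => if h : ∃ t : Ω ≃ₐ[F] Ω, t.restrictScalars k = s ∧ t ∈ K.fixingSubgroup then
      φ.symm (c h.choose) else 0, fun t ht => ?_⟩
    have h : ∃ t' : Ω ≃ₐ[F] Ω, t'.restrictScalars k = t.restrictScalars k ∧ t' ∈ K.fixingSubgroup :=
      ⟨t, rfl, ht⟩
    have h2 : h.choose = t := AlgEquiv.restrictScalars_injective k h.choose_spec.1
    show (if h : ∃ t' : Ω ≃ₐ[F] Ω, t'.restrictScalars k = t.restrictScalars k ∧ t' ∈ K.fixingSubgroup then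
      φ.symm (c h.choose) else 0) = _
    rw [dif_pos h, h2]
  have hac : ∀ (t : Ω ≃ₐ[F] Ω) (Q : Pt (W⁄F) Ω), ac W (t.restrictScalars k) (φ.symm Q) =
      φ.symm (ac (W⁄F) t Q) := by
    intro t Q
    apply φ.injective
    rw [hφ, AddEquiv.apply_symm_apply, AddEquiv.apply_symm_apply]
  have g1 : Coc W (K.restrictScalars k) c' := by
    refine ⟨?_, ?_⟩
    · intro s hs s' hs'
      obtain ⟨t, rfl, ht⟩ := Z11_lift K s hs
      obtain ⟨t', rfl, ht'⟩ := Z11_lift K s' hs'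
      have h2 : (t.restrictScalars k) * (t'.restrictScalars k) = (t * t').restrictScalars k := rfl
      rw [h2, hc' _ (mul_mem ht ht'), hc' _ ht, hc' _ ht', hc.mul t ht t' ht', map_add, hac]
    · obtain ⟨L, hL, hLc⟩ := hc.cont
      refine ⟨L.restrictScalars k, ?_, ?_⟩
      · have : FiniteDimensional k L := FiniteDimensional.trans k F L
        exact this
      · intro s hs hsL
        obtain ⟨t, rfl, ht⟩ := Z11_lift K s hs
        have htL : t ∈ L.fixingSubgroup := by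
          rw [IntermediateField.mem_fixingSubgroup_iff] at hsL ⊢
          exact hsL
        rw [hc' _ ht, hLc _ ht htL, map_zero]
  have g2 : ∀ s ∈ (K.restrictScalars k).fixingSubgroup, p • c' s = 0 := by
    intro s hs
    obtain ⟨t, rfl, ht⟩ := Z11_lift K s hs
    rw [hc' _ ht, ← map_nsmul, hp _ ht, map_zero]
  have g3 : ∀ V : ValuationSubring Ω, ∃ P : Pt W Ω, ∀ s ∈ (K.restrictScalars k).fixingSubgroup,
      Inert V s → c' s = ac W s P - P := by
    intro V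
    obtain ⟨P, hP⟩ := hV V
    refine ⟨φ.symm P, fun s hs hD => ?_⟩
    obtain ⟨t, rfl, ht⟩ := Z11_lift K s hs
    have hDt : Inert V t := fun x hx => hD x hx
    rw [hc' _ ht, hP t ht hDt, map_sub, hac]
  obtain ⟨T, hpT, hcT⟩ := hS c' g1 g2 g3
  refine ⟨φ T, ?_, fun t ht => ?_⟩
  · rw [← map_nsmul, hpT, map_zero]
  · have h1 := hcT _ (Z11_mem (k := k) K t ht)
    rw [hc' _ ht] at h1
    have h2 := congrArg φ h1
    rw [AddEquiv.apply_symm_apply, map_sub, hφ] at h2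
    exact h2

theorem n3_core {k : Type} [Field k] (W : WeierstrassCurve k) (K : Type) [Field K]
    [Algebra k K] [FiniteDimensional k K] {Ω : Type} [Field Ω] [DecidableEq Ω] [Algebra k Ω]
    [IsAlgClosed Ω] [Algebra.IsAlgebraic k Ω] (ι : K →ₐ[k] Ω) [DecidableEq (AlgebraicClosure K)] :
    ∃ (Φ : Pt (W⁄K) (AlgebraicClosure K) ≃+ Pt W Ω)
      (hat : (AlgebraicClosure K ≃ₐ[K] AlgebraicClosure K) → (Ω ≃ₐ[k] Ω)),
      (∀ s t, hat (s * t) = hat s * hat t) ∧
      (∀ t, t ∈ ι.fieldRange.fixingSubgroup ↔ ∃ s, hat s = t) ∧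
      (∀ s P, Φ (ac (W⁄K) s P) = ac W (hat s) (Φ P)) ∧
      (∀ L' : IntermediateField k Ω, FiniteDimensional k L' →
        ∃ L : IntermediateField K (AlgebraicClosure K), FiniteDimensional K L ∧
          ∀ s ∈ L.fixingSubgroup, hat s ∈ L'.fixingSubgroup) ∧
      (∀ V' : ValuationSubring (AlgebraicClosure K), ∃ V : ValuationSubring Ω, ∀ s,
        Inert V' s → Inert V (hat s)) := by
  let algKΩ : Algebra K Ω := ι.toRingHom.toAlgebra
  have htow : IsScalarTower k K Ω := IsScalarTower.of_algebraMap_eq fun x => (ι.commutes x).symm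
  have halg : Algebra.IsAlgebraic K Ω := Algebra.IsAlgebraic.tower_top (K := k) K
  have hcl : IsAlgClosure K Ω := ⟨inferInstance, halg⟩
  let θ : AlgebraicClosure K ≃ₐ[K] Ω := IsAlgClosure.equiv K (AlgebraicClosure K) Ω
  let θk : AlgebraicClosure K ≃ₐ[k] Ω := θ.restrictScalars k
  obtain ⟨φ, hφ⟩ := base_iso (k := k) (F := K) (Ω := AlgebraicClosure K) W
  refine ⟨φ.symm.trans (z12_pt W θk), z12_hat θk, ?_, ?_, ?_, ?_, ?_⟩
  · intro s t
    apply AlgEquiv.ext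
    intro x
    rw [AlgEquiv.mul_apply, z12_hat_apply, z12_hat_apply, z12_hat_apply, θk.symm_apply_apply,
      AlgEquiv.mul_apply]
  · intro t
    rw [IntermediateField.mem_fixingSubgroup_iff]
    constructor
    · intro ht
      have h1 : ∀ x : K, t (algebraMap K Ω x) = algebraMap K Ω x := fun x => ht _ ⟨x, rfl⟩
      let tK : Ω ≃ₐ[K] Ω := AlgEquiv.ofRingEquiv (f := (t : Ω ≃+* Ω)) h1
      refine ⟨(θ.trans tK).trans θ.symm, AlgEquiv.ext fun x => ?_⟩
      rw [z12_hat_apply]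
      show θ (θ.symm (t (θ (θ.symm x)))) = t x
      rw [θ.apply_symm_apply, θ.apply_symm_apply]
    · rintro ⟨s, rfl⟩ x ⟨y, rfl⟩
      rw [z12_hat_apply]
      show θ (s (θ.symm (algebraMap K Ω y))) = algebraMap K Ω y
      rw [θ.symm.commutes, s.commutes, θ.commutes]
  · intro s P
    have h1 : φ.symm (ac (W⁄K) s P) = ac W (s.restrictScalars k) (φ.symm P) := by
      apply φ.injective
      rw [hφ, φ.apply_symm_apply, φ.apply_symm_apply]
    show z12_pt W θk (φ.symm (ac (W⁄K) s P)) = ac W (z12_hat θk s) (z12_pt W θk (φ.symm P))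
    rw [h1]
    generalize φ.symm P = Q
    show Affine.Point.map (W' := W.toAffine) θk.toAlgHom
      (Affine.Point.map (W' := W.toAffine) (s.restrictScalars k).toAlgHom Q) =
      Affine.Point.map (W' := W.toAffine) (z12_hat θk s).toAlgHom
        (Affine.Point.map (W' := W.toAffine) θk.toAlgHom Q)
    rw [Affine.Point.map_map, Affine.Point.map_map]
    congr 1
    congr 1
    ext x
    show θk (s x) = z12_hat θk s (θk x)
    rw [z12_hat_apply, θk.symm_apply_apply]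
  · intro L' hL'
    obtain ⟨L'', hL'', h1⟩ := Z11_field (F := K) L'
    let e := IntermediateField.intermediateFieldMap θ.symm L''
    refine ⟨L''.map θ.symm.toAlgHom, Module.Finite.equiv e.toLinearEquiv, ?_⟩
    intro s hs
    rw [IntermediateField.mem_fixingSubgroup_iff] at hs
    have h2 := h1 ((θ.symm.trans s).trans θ) (by
      rw [IntermediateField.mem_fixingSubgroup_iff]
      intro x hx
      show θ (s (θ.symm x)) = x
      rw [hs (θ.symm x) ⟨x, hx, rfl⟩, θ.apply_symm_apply])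
    exact h2
  · intro V'
    have hm : ∀ x, x ∈ V'.comap (θk.symm : Ω →+* AlgebraicClosure K) ↔ θk.symm x ∈ V' := fun x =>
      ValuationSubring.mem_comap
    have hlt : ∀ x, (V'.comap (θk.symm : Ω →+* AlgebraicClosure K)).valuation x < 1 ↔
        V'.valuation (θk.symm x) < 1 := by
      intro x
      rw [lt1_iff, lt1_iff, hm, map_inv₀]
      simp
    refine ⟨V'.comap (θk.symm : Ω →+* AlgebraicClosure K), fun s h x hx => ?_⟩
    have h1 := h (θk.symm x) ((hm x).1 hx)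
    rw [hlt, map_sub, z12_hat_apply, θk.symm_apply_apply]
    exact h1

/-- Chunk N3 (M). The converse of H55P.sel_transport (Z12.lean). Port of H13Z.tr_core and non_transport (TR.lean) with Inert in place of Dec: the last item of tr_core becomes: for all V' there is V (= V'.comap θk.symm) with Inert V' s → Inert V (hat s) for all s (as in z12_core: hlt, lt1_iff). Then: given a class c for W over ι.fieldRange, s ↦ Φ.symm (c (hat s)) is a class for W⁄K as in non_transport;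
SelTriv gives T, and Φ T works for c. unfold SelTriv; open Classical instances as in non_transport (classical at the beginning). -/
theorem zero_transport {k : Type} [Field k] (W : WeierstrassCurve k) (p : ℕ) (K : Type) [Field K]
    [Algebra k K] [FiniteDimensional k K] {Ω : Type} [Field Ω] [DecidableEq Ω] [Algebra k Ω]
    [IsAlgClosed Ω] [Algebra.IsAlgebraic k Ω] (ι : K →ₐ[k] Ω) (hS : SelTriv (W⁄K) p) :
    SelZero W p ι.fieldRange := by
  classical
  intro c hc hp hV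
  unfold SelTriv at hS
  obtain ⟨Φ, hat, hmul, hfix, hact, hfield, hval⟩ := n3_core W K ι
  have hmem : ∀ s, hat s ∈ ι.fieldRange.fixingSubgroup := fun s => (hfix _).2 ⟨s, rfl⟩
  have hact' : ∀ s P, Φ.symm (ac W (hat s) P) = ac (W⁄K) s (Φ.symm P) := by
    intro s P
    apply Φ.injective
    rw [hact, Φ.apply_symm_apply, Φ.apply_symm_apply]
  obtain ⟨T, hpT, hcT⟩ := hS (fun s => Φ.symm (c (hat s))) ⟨by
    intro s t
    show Φ.symm (c (hat (s * t))) = Φ.symm (c (hat s)) + ac (W⁄K) s (Φ.symm (c (hat t)))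
    rw [hmul, hc.mul _ (hmem s) _ (hmem t), map_add, hact'], by
    obtain ⟨L', hL', hLc⟩ := hc.cont
    obtain ⟨L, hL, h1⟩ := hfield L' hL'
    refine ⟨L, hL, ?_⟩
    intro s hs
    show Φ.symm (c (hat s)) = 0
    rw [hLc _ (hmem s) (h1 s hs), map_zero]⟩ (by
    intro s
    show p • Φ.symm (c (hat s)) = 0
    rw [← map_nsmul, hp _ (hmem s), map_zero]) (by
    intro V'
    obtain ⟨V, h1⟩ := hval V'
    obtain ⟨P, hP⟩ := hV V
    refine ⟨Φ.symm P, ?_⟩
    intro s hs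
    show Φ.symm (c (hat s)) = _
    rw [hP _ (hmem s) (h1 s hs), map_sub, hact'])
  refine ⟨Φ T, ?_, ?_⟩
  · rw [← map_nsmul, hpT, map_zero]
  · intro t ht
    obtain ⟨s, rfl⟩ := (hfix _).1 ht
    have h1 : Φ.symm (c (hat s)) = ac (W⁄K) s T - T := hcT s
    have h2 := congrArg Φ h1
    rwa [Φ.apply_symm_apply, map_sub, hact] at h2

end H13R
end

-- from Lib.H55W.CL2
section

/-! # H55W, part CL: the imaginary quadratic fields of class number one (elementary part of the classification) -/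

open NumberField IsDedekindDomain

namespace H55W

open H55P (IQ embF eF Nm)
open H55K (cj)

variable {F : Type} [Field F] [NumberField F] [IQ F] {θ : 𝓞 F} {d : ℕ}

theorem cl2_inj {m n : ℤ} (h : (m : 𝓞 F) = (n : 𝓞 F)) : m = n := by exact_mod_cast h

theorem th_ne (h : TH θ d) : θ ≠ 0 := by
  intro h0
  have h1 := h.sq
  rw [h0] at h1
  have h2 : ((d : ℤ) : 𝓞 F) = ((0 : ℤ) : 𝓞 F) := by
    push_cast
    linear_combination h1
  have h3 := cl2_inj h2
  have h4 := h.pos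
  omega

theorem sf_dvd {d : ℕ} (h : Squarefree d) {c : ℤ} (hc : (d : ℤ) ∣ c ^ 2) : (d : ℤ) ∣ c := by
  have h1 : d ∣ c.natAbs ^ 2 := by
    have h2 := Int.natAbs_dvd_natAbs.2 hc
    rwa [Int.natAbs_natCast, Int.natAbs_pow] at h2
  have h2 : d ∣ c.natAbs := (h.dvd_pow_iff_dvd two_ne_zero).1 h1
  exact Int.natCast_dvd.2 h2

/-- Chunk CL2 (M). a = x + cj x is an integer (int_of_cj); (x - cj x) θ is fixed by cj: it is an integer b' with x - cj x = - b' θ / d... : (x - cj x)^2 = -b'^2/d·... Precisely: c = (x - cj x) θ in ℤ, c θ = -(x - cj x) d, c^2 = -(x - cj x)^2 d, and (x - cj x)^2 = a^2 - 4 x cj x is an integer m: c^2 = -m d, d squarefree: d divides c^2, so d divides c (Squarefree: each prime factor): c = -d b,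
x - cj x = b θ, 2x = a + b θ; 4 x cj x = a^2 + d b^2. -/
theorem two_mul_eq (h : TH θ d) (x : 𝓞 F) : ∃ a b : ℤ, 2 * x = (a : 𝓞 F) + (b : 𝓞 F) * θ ∧ 4 ∣ a ^ 2 + d * b ^ 2 := by
  obtain ⟨a, ha⟩ := int_of_cj (x := x + cj x) (by rw [map_add, H55K.cj_cj, add_comm])
  have hc := th_cj h
  obtain ⟨c, hcc⟩ := int_of_cj (x := (x - cj x) * θ) (by rw [map_mul, map_sub, H55K.cj_cj, hc]; ring)
  have hN := H55K.mul_cj x
  have hsq := h.sq
  have e1 : ((c ^ 2 : ℤ) : 𝓞 F) = ((d * (4 * Nm x - a ^ 2) : ℤ) : 𝓞 F) := by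
    push_cast
    rw [← hcc, ← hN, ← ha]
    linear_combination (x - cj x) ^ 2 * hsq
  have e2 := cl2_inj e1
  have hdc : (d : ℤ) ∣ c := sf_dvd h.sf ⟨_, e2⟩
  obtain ⟨k, hk⟩ := hdc
  have hd0 : (d : ℤ) ≠ 0 := by exact_mod_cast h.pos.ne'
  have hd0' : (d : 𝓞 F) ≠ 0 := by exact_mod_cast h.pos.ne'
  refine ⟨a, -k, ?_, Nm x, ?_⟩
  · have e3 : x - cj x = ((-k : ℤ) : 𝓞 F) * θ := by
      apply mul_left_cancel₀ hd0'
      have e4 : (c : 𝓞 F) = d * k := by
        rw [hk]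
        push_cast
        rfl
      rw [e4] at hcc
      push_cast
      linear_combination (-(θ)) * hcc + (x - cj x) * hsq
    linear_combination ha + e3
  · rw [hk] at e2
    have e5 : (d : ℤ) * (d * k ^ 2) = d * (4 * Nm x - a ^ 2) := by linear_combination e2
    have e6 := mul_left_cancel₀ hd0 e5
    linear_combination e6

/-- Chunk CL2 (S). two_mul_eq with d = 1: 4 | a^2 + b^2: a, b even. -/
theorem gi_of (h : TH θ 1) : GI θ := by
  refine ⟨by rw [h.sq]; norm_num, fun x => ?_⟩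
  obtain ⟨a, b, h1, h2⟩ := two_mul_eq h x
  rw [Nat.cast_one, one_mul] at h2
  have h3 : a % 2 = 0 ∧ b % 2 = 0 := by
    obtain ⟨c, hc⟩ := h2
    rcases Int.emod_two_eq_zero_or_one a with ha | ha <;> rcases Int.emod_two_eq_zero_or_one b with hb | hb
    · exact ⟨ha, hb⟩
    all_goals
      exfalso
      have ea := Int.emod_add_mul_ediv a 2
      have eb := Int.emod_add_mul_ediv b 2
      rw [ha] at ea
      rw [hb] at eb
      rw [← ea, ← eb] at hc
      ring_nf at hc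
      omega
  refine ⟨a / 2, b / 2, ?_⟩
  apply mul_left_cancel₀ (two_ne_zero (α := 𝓞 F))
  rw [h1]
  have ea : ((2 * (a / 2) : ℤ) : 𝓞 F) = a := by rw [Int.mul_ediv_cancel' (Int.dvd_of_emod_eq_zero h3.1)]
  have eb : ((2 * (b / 2) : ℤ) : 𝓞 F) = b := by rw [Int.mul_ediv_cancel' (Int.dvd_of_emod_eq_zero h3.2)]
  push_cast at ea eb
  linear_combination -ea - θ * eb

/-- Chunk CL2 (S). 4 | a^2 + 2b^2: a, b even. -/
theorem ti_of (h : TH θ 2) : TI θ := by
  refine ⟨by rw [h.sq]; norm_num, fun x => ?_⟩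
  obtain ⟨a, b, h1, h2⟩ := two_mul_eq h x
  push_cast at h2
  have h3 : a % 2 = 0 ∧ b % 2 = 0 := by
    obtain ⟨c, hc⟩ := h2
    rcases Int.emod_two_eq_zero_or_one a with ha | ha <;> rcases Int.emod_two_eq_zero_or_one b with hb | hb
    · exact ⟨ha, hb⟩
    all_goals
      exfalso
      have ea := Int.emod_add_mul_ediv a 2
      have eb := Int.emod_add_mul_ediv b 2
      rw [ha] at ea
      rw [hb] at eb
      rw [← ea, ← eb] at hc
      ring_nf at hc
      omega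
  refine ⟨a / 2, b / 2, ?_⟩
  apply mul_left_cancel₀ (two_ne_zero (α := 𝓞 F))
  rw [h1]
  have ea : ((2 * (a / 2) : ℤ) : 𝓞 F) = a := by rw [Int.mul_ediv_cancel' (Int.dvd_of_emod_eq_zero h3.1)]
  have eb : ((2 * (b / 2) : ℤ) : 𝓞 F) = b := by rw [Int.mul_ediv_cancel' (Int.dvd_of_emod_eq_zero h3.2)]
  push_cast at ea eb
  linear_combination -ea - θ * eb

/-- Chunk CL2 (S/M). w = (-1 + θ)/2 is integral over ℤ (root of X^2 + X + 1); 2x = a + b θ, 4 | a^2 + 3b^2: a ≡ b mod 2; x = (a + b)/2 + b w. -/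
theorem ei_of (h : TH θ 3) : ∃ w : 𝓞 F, EI w := by
  have hθF : (θ : F) ^ 2 = -3 := by
    have h1 := congrArg (algebraMap (𝓞 F) F) h.sq
    rw [map_pow, map_neg, map_natCast] at h1
    exact_mod_cast h1
  have hint : IsIntegral ℤ ((-1 + (θ : F)) / 2) := by
    refine ⟨Polynomial.X ^ 2 + Polynomial.X + 1, by monicity!, ?_⟩
    simp only [Polynomial.eval₂_add, Polynomial.eval₂_pow, Polynomial.eval₂_X, Polynomial.eval₂_one]
    linear_combination (1 / 4 : F) * hθF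
  set w : 𝓞 F := ⟨(-1 + (θ : F)) / 2, hint⟩ with hw
  have hw2 : 2 * w = -1 + θ := by
    apply RingOfIntegers.coe_injective
    show algebraMap (𝓞 F) F (2 * w) = algebraMap (𝓞 F) F (-1 + θ)
    rw [map_mul, map_ofNat, map_add, map_neg, map_one]
    show 2 * ((-1 + (θ : F)) / 2) = -1 + (θ : F)
    ring
  refine ⟨w, ?_, fun x => ?_⟩
  · have h40 : (4 : 𝓞 F) ≠ 0 := by
      have h5 : ((4 : ℤ) : 𝓞 F) ≠ ((0 : ℤ) : 𝓞 F) := fun h6 => by
        have h7 := cl2_inj h6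
        omega
      push_cast at h5
      exact h5
    apply mul_left_cancel₀ h40
    have h1 := h.sq
    push_cast at h1
    linear_combination (2 * w + (-1 + θ) + 2) * hw2 + h1
  · obtain ⟨a, b, h1, h2⟩ := two_mul_eq h x
    push_cast at h2
    have h3 : (a + b) % 2 = 0 := by
      obtain ⟨c, hc⟩ := h2
      rcases Int.emod_two_eq_zero_or_one a with ha | ha <;> rcases Int.emod_two_eq_zero_or_one b with hb | hb
      · omega
      · exfalso
        have ea := Int.emod_add_mul_ediv a 2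
        have eb := Int.emod_add_mul_ediv b 2
        rw [ha] at ea
        rw [hb] at eb
        rw [← ea, ← eb] at hc
        ring_nf at hc
        omega
      · exfalso
        have ea := Int.emod_add_mul_ediv a 2
        have eb := Int.emod_add_mul_ediv b 2
        rw [ha] at ea
        rw [hb] at eb
        rw [← ea, ← eb] at hc
        ring_nf at hc
        omega
      · omega
    refine ⟨(a + b) / 2, b, ?_⟩
    apply mul_left_cancel₀ (two_ne_zero (α := 𝓞 F))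
    rw [h1]
    have ea : ((2 * ((a + b) / 2) : ℤ) : 𝓞 F) = ((a + b : ℤ) : 𝓞 F) := by
      rw [Int.mul_ediv_cancel' (Int.dvd_of_emod_eq_zero h3)]
    push_cast at ea
    linear_combination -ea - (b : 𝓞 F) * hw2

end H55W
end

-- from Lib.H55W.CL3
section

/-! # H55W, part CL: the imaginary quadratic fields of class number one (elementary part of the classification) -/

open NumberField IsDedekindDomain

namespace H55W

open H55P (IQ embF eF Nm)
open H55K (cj)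

variable {F : Type} [Field F] [NumberField F] [IQ F] {θ : 𝓞 F} {d : ℕ}

theorem cl3_sf4 {d : ℕ} (h : Squarefree d) (h4 : 4 ∣ d) : False := by
  have h1 : IsUnit 2 := h 2 (by simpa using h4)
  rw [Nat.isUnit_iff] at h1
  omega

/-- α^2 divides q, q divides α^2: q is plus or minus a square. -/
theorem cl3_sq (h : TH θ d) (h1 : ∀ u : 𝓞 F, IsUnit u → u = 1 ∨ u = -1) {q : ℕ} {α : 𝓞 F}
    (hα : α ^ 2 ∣ (q : 𝓞 F)) (hα' : (q : 𝓞 F) ∣ α ^ 2) : α ^ 2 = (q : 𝓞 F) ∨ α ^ 2 = -(q : 𝓞 F) := by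
  obtain ⟨u, hu⟩ := associated_of_dvd_dvd hα hα'
  rcases h1 u u.isUnit with h2 | h2
  · left
    rw [← hu, h2, mul_one]
  · right
    rw [← hu, h2]
    ring

theorem cl3_gen (x y : 𝓞 F) : ∃ α a b : 𝓞 F, α ∣ x ∧ α ∣ y ∧ α = a * x + b * y := by
  have hp : IsPrincipalIdealRing (𝓞 F) := IQ.pid
  obtain ⟨α, hα⟩ := (hp.principal (Ideal.span {x, y})).principal
  have hα' : Ideal.span {x, y} = Ideal.span {α} := hα
  refine ⟨α, ?_⟩
  have h1 : α ∈ Ideal.span {x, y} := by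
    rw [hα']
    exact Ideal.mem_span_singleton_self α
  obtain ⟨a, b, hab⟩ := Ideal.mem_span_pair.1 h1
  refine ⟨a, b, ?_, ?_, hab.symm⟩
  · rw [← Ideal.mem_span_singleton, ← hα']
    exact Ideal.subset_span (Set.mem_insert _ _)
  · rw [← Ideal.mem_span_singleton, ← hα']
    exact Ideal.subset_span (Set.mem_insert_of_mem _ rfl)

/-- Chunk CL3 (S/M). Nm u = 1: u cj u = 1, t = u + cj u an integer, u^2 - t u + 1 = 0. 4 = t^2 + (..): 4 - t^2 = -(u - cj u)^2 = d b^2 ≥ 0 with 2u = a + bθ, a = t (two_mul_eq: a^2 + d b^2 = 4). If b = 0 then a = ±2, u = ±1. If b ≠ 0 then d b^2 ≤ 4: d = 1, 2, 3 or 4 - with a^2 = 4 - d b^2 a square: d = 1 (b = ±2, a = 0; b = ±1 gives a^2 = 3 no), d = 3 (b = ±1, a = ±1), d = 2: 4 - 2 = 2, no; d = 4 not squarefree. So d = 1 or d = 3. -/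
theorem th_unit (h : TH θ d) (h1 : d ≠ 1) (h3 : d ≠ 3) {u : 𝓞 F} (hu : IsUnit u) : u = 1 ∨ u = -1 := by
  obtain ⟨a, b, h2, -⟩ := two_mul_eq h u
  have h4 := congrArg cj h2
  rw [map_mul, map_ofNat, map_add, map_mul, H55K.cj_int, H55K.cj_int, th_cj h] at h4
  have hN := H55K.mul_cj u
  rw [g0_nm_unit hu, Nat.cast_one] at hN
  have h5 : ((a ^ 2 + d * b ^ 2 : ℤ) : 𝓞 F) = ((4 : ℤ) : 𝓞 F) := by
    push_cast
    have h6 := h.sq
    linear_combination 4 * hN - 2 * cj u * h2 - (a + b * θ) * h4 + b ^ 2 * h6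
  have h6 : a ^ 2 + d * b ^ 2 = 4 := cl2_inj h5
  have hb : b = 0 := by
    by_contra hb
    have h7 : 1 ≤ b ^ 2 := by
      have := pow_pos (abs_pos.2 hb) 2
      rw [sq_abs] at this
      omega
    have hd : (d : ℤ) ≤ 4 := by nlinarith [sq_nonneg a]
    have hd' : d ≤ 4 := by exact_mod_cast hd
    have hdc : d = 2 ∨ d = 4 := by
      have := h.pos
      omega
    rcases hdc with hd2 | hd4
    · rw [hd2] at h6
      push_cast at h6
      have hb2 : b ^ 2 ≤ 2 := by nlinarith [sq_nonneg a]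
      have hbb : b ≤ 1 ∧ -1 ≤ b := by constructor <;> nlinarith
      have hb1 : b ^ 2 = 1 := by
        have : b = 1 ∨ b = -1 := by omega
        rcases this with h8 | h8 <;> rw [h8] <;> norm_num
      rw [hb1] at h6
      have ha : a ^ 2 = 2 := by linarith
      have ha2 : a ≤ 1 ∧ -1 ≤ a := by constructor <;> nlinarith
      have : a = -1 ∨ a = 0 ∨ a = 1 := by omega
      rcases this with h8 | h8 | h8 <;> rw [h8] at ha <;> norm_num at ha
    · exact cl3_sf4 h.sf (by rw [hd4])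
  rw [hb] at h6 h2
  have ha : a = 2 ∨ a = -2 := by
    have h7 : (a - 2) * (a + 2) = 0 := by linear_combination h6
    rcases mul_eq_zero.1 h7 with h8 | h8
    · left; linarith
    · right; linarith
  rcases ha with ha | ha
  · left
    apply mul_left_cancel₀ (two_ne_zero (α := 𝓞 F))
    rw [h2, ha]
    push_cast
    ring
  · right
    apply mul_left_cancel₀ (two_ne_zero (α := 𝓞 F))
    rw [h2, ha]
    push_cast
    ring

/-- Chunk CL3 (S/M). α^2 = ± q, q a prime number (or 2): 2α = a + b θ: 4α^2 = a^2 - d b^2 + 2ab θ is an integer, so a b = 0 (θ is not rational). b = 0: a^2 = ± 4q: impossible (q prime: not a square; or negative). a = 0: -d b^2 = ± 4q: d b^2 = 4 q, d squarefree, q prime: b^2 | 4q so b^2 = 1 or 4 (if b^2 = 4 q.. not a square unless..): b = ±2: d = q; b = ±1: d = 4q not squarefree (b^2 = 4q impossible). -/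
theorem sq_prime (h : TH θ d) {q : ℕ} (hq : q.Prime) {α : 𝓞 F} (hα : α ^ 2 = (q : 𝓞 F) ∨ α ^ 2 = -(q : 𝓞 F)) : d = q := by
  obtain ⟨a, b, h2, -⟩ := two_mul_eq h α
  obtain ⟨ε, hε, hαε⟩ : ∃ ε : ℤ, (ε = 1 ∨ ε = -1) ∧ α ^ 2 = ((ε * q : ℤ) : 𝓞 F) := by
    rcases hα with h3 | h3
    · exact ⟨1, Or.inl rfl, by rw [h3]; push_cast; ring⟩
    · exact ⟨-1, Or.inr rfl, by rw [h3]; push_cast; ring⟩
  have hsq := h.sq
  have e1 : ((a ^ 2 - d * b ^ 2 - 4 * (ε * q) : ℤ) : 𝓞 F) + ((2 * a * b : ℤ) : 𝓞 F) * θ = 0 := by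
    push_cast at hαε ⊢
    linear_combination 4 * hαε - (2 * α + (a + b * θ)) * h2 - b ^ 2 * hsq
  have e2 := congrArg cj e1
  rw [map_add, map_mul, H55K.cj_int, H55K.cj_int, th_cj h, map_zero] at e2
  have e3 : ((2 * a * b : ℤ) : 𝓞 F) * θ = 0 := by
    apply mul_left_cancel₀ (two_ne_zero (α := 𝓞 F))
    linear_combination e1 - e2
  have e4 : ((2 * a * b : ℤ) : 𝓞 F) = ((0 : ℤ) : 𝓞 F) := by
    rw [Int.cast_zero]
    exact (mul_eq_zero.1 e3).resolve_right (th_ne h)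
  have e5 : 2 * a * b = 0 := cl2_inj e4
  rw [e5, Int.cast_zero, zero_mul, add_zero] at e1
  have e6 : a ^ 2 - d * b ^ 2 - 4 * (ε * q) = 0 := by
    apply cl2_inj (F := F)
    rw [e1, Int.cast_zero]
  have hq0 : (0 : ℤ) < q := by exact_mod_cast hq.pos
  have hd0 : (0 : ℤ) < d := by exact_mod_cast h.pos
  have hqp : Prime (q : ℤ) := Nat.prime_iff_prime_int.1 hq
  have hab : a = 0 ∨ b = 0 := by
    rcases mul_eq_zero.1 e5 with h7 | h7
    · left
      omega
    · right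
      exact h7
  rcases hab with ha | hb
  · -- a = 0
    rw [ha] at e6
    have hε1 : ε = -1 := by
      rcases hε with h7 | h7
      · exfalso
        rw [h7] at e6
        nlinarith [sq_nonneg b, mul_nonneg hd0.le (sq_nonneg b)]
      · exact h7
    rw [hε1] at e6
    have e7 : (d : ℤ) * b ^ 2 = 4 * q := by linear_combination -e6
    rcases Int.even_or_odd b with hb | hb
    · obtain ⟨c, hc⟩ := hb
      rw [hc] at e7
      have e8 : (d : ℤ) * c ^ 2 = q := by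
        apply mul_left_cancel₀ (show (4 : ℤ) ≠ 0 by norm_num)
        linear_combination e7
      have hcu : IsUnit c := by
        have h9 := hqp.irreducible.squarefree
        apply h9 c
        exact ⟨d, by linear_combination -e8⟩
      have hc2 : c ^ 2 = 1 := by
        rcases Int.isUnit_iff.1 hcu with h9 | h9 <;> rw [h9] <;> norm_num
      rw [hc2, mul_one] at e8
      exact_mod_cast e8
    · exfalso
      have h9 : (4 : ℤ) ∣ d := by
        have h10 : IsCoprime (4 : ℤ) (b ^ 2) := by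
          have h11 : IsCoprime (2 : ℤ) b := by
            obtain ⟨c, hc⟩ := hb
            exact ⟨-c, 1, by rw [hc]; ring⟩
          have := h11.pow (m := 2) (n := 2)
          norm_num at this
          exact this
        exact h10.dvd_of_dvd_mul_right ⟨q, e7⟩
      exact cl3_sf4 h.sf (by exact_mod_cast h9)
  · -- b = 0
    exfalso
    rw [hb] at e6
    have e7 : a ^ 2 = 4 * (ε * q) := by linear_combination e6
    have hε1 : ε = 1 := by
      rcases hε with h7 | h7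
      · exact h7
      · exfalso
        rw [h7] at e7
        nlinarith [sq_nonneg a]
    rw [hε1] at e7
    have h2a : (2 : ℤ) ∣ a := by
      have : (2 : ℤ) ∣ a ^ 2 := ⟨2 * q, by linear_combination e7⟩
      exact Int.prime_two.dvd_of_dvd_pow this
    obtain ⟨c, hc⟩ := h2a
    have e8 : (q : ℤ) = c ^ 2 := by
      apply mul_left_cancel₀ (show (4 : ℤ) ≠ 0 by norm_num)
      rw [hc] at e7
      linear_combination -e7
    have h9 := hqp.irreducible.squarefree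
    have hcu : IsUnit c := h9 c ⟨1, by linear_combination e8⟩
    have hc2 : c ^ 2 = 1 := by
      rcases Int.isUnit_iff.1 hcu with h9 | h9 <;> rw [h9] <;> norm_num
    rw [hc2] at e8
    have : q = 1 := by exact_mod_cast e8
    exact hq.one_lt.ne' this

/-- Chunk CL3 (M). CLASS NUMBER ONE. Suppose d ≠ 1, 3. (1) q a prime factor of d: the ideal (q, θ) = (α) is principal and (q, θ)^2 = (q^2, q θ, d) = (q) (d = q d', q and d' coprime since d is squarefree; Ideal.span_pair_mul..., or elements: α divides q and θ, α = x q + y θ; α^2 divides q^2, qθ, θ^2 = -d, so q = a q^2 + b d.. : gcd(q^2, d) = q is divisible by α^2;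
and α^2 = x^2 q^2 + 2xy q θ - y^2 d is divisible by q). So α^2 = u q, u = ±1 (th_unit): d = q (sq_prime). So d is a prime number. (2) If d % 4 = 1 (d odd prime): the ideal (2, 1 + θ) = (α): α^2 divides 4, 2(1+θ), (1+θ)^2 = 1 - d + 2θ, so also 2(1 + θ) - (1 - d + 2θ) = 1 + d ≡ 2 mod 4, so 2; and α^2 = 4x^2 + 4xy(1+θ) + y^2 (1 - d + 2θ) is divisible by 2: α^2 = ±2, d = 2 (sq_prime), contradiction.
So d = 2 or d % 4 = 3, d prime, d ≠ 3. -/
theorem class_one (h : TH θ d) : d = 1 ∨ d = 2 ∨ d = 3 ∨ (d.Prime ∧ d % 4 = 3 ∧ 3 < d) := by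
  by_cases h1 : d = 1
  · exact Or.inl h1
  by_cases h3 : d = 3
  · exact Or.inr (Or.inr (Or.inl h3))
  have hun : ∀ u : 𝓞 F, IsUnit u → u = 1 ∨ u = -1 := fun u hu => th_unit h h1 h3 hu
  have hsq := h.sq
  -- d is a prime number
  have hdp : d.Prime := by
    obtain ⟨q, hq, hqd⟩ := Nat.exists_prime_and_dvd h1
    obtain ⟨d', hd'⟩ := hqd
    have hcop : Nat.Coprime q d' := by
      refine hq.coprime_iff_not_dvd.2 fun hdiv => ?_
      obtain ⟨z, hz⟩ := hdiv
      have h5 : IsUnit q := h.sf q ⟨z, by rw [hd', hz]; ring⟩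
      exact hq.one_lt.ne' (Nat.isUnit_iff.1 h5)
    obtain ⟨m, n, hmn⟩ := Nat.isCoprime_iff_coprime.2 hcop
    obtain ⟨α, a, b, ha, hb, hab⟩ := cl3_gen (q : 𝓞 F) θ
    have hdF : (d : 𝓞 F) = q * d' := by
      rw [hd']
      push_cast
      rfl
    have hmnF : (m : 𝓞 F) * q + n * d' = 1 := by
      have := congrArg (fun z : ℤ => (z : 𝓞 F)) hmn
      push_cast at this
      exact this
    have k1 : α ^ 2 ∣ (q : 𝓞 F) := by
      have k2 : α ^ 2 ∣ (q : 𝓞 F) ^ 2 := pow_dvd_pow_of_dvd ha 2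
      have k3 : α ^ 2 ∣ θ ^ 2 := pow_dvd_pow_of_dvd hb 2
      have e : (q : 𝓞 F) = m * (q : 𝓞 F) ^ 2 - n * θ ^ 2 := by
        rw [hsq, hdF]
        linear_combination -(q : 𝓞 F) * hmnF
      rw [e]
      exact dvd_sub (k2.mul_left _) (k3.mul_left _)
    have k2 : (q : 𝓞 F) ∣ α ^ 2 := by
      refine ⟨a ^ 2 * q + 2 * a * b * θ - b ^ 2 * d', ?_⟩
      rw [hab]
      rw [hdF] at hsq
      linear_combination b ^ 2 * hsq
    have k3 := cl3_sq h hun k1 k2
    rw [sq_prime h hq k3]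
    exact hq
  by_cases h2 : d = 2
  · exact Or.inr (Or.inl h2)
  refine Or.inr (Or.inr (Or.inr ⟨hdp, ?_, ?_⟩))
  · by_contra h43
    have hodd := hdp.odd_of_ne_two h2
    have h41 : d % 4 = 1 := by
      have := Nat.odd_iff.1 hodd
      omega
    obtain ⟨k, hk⟩ : ∃ k : ℕ, d = 4 * k + 1 := ⟨d / 4, by omega⟩
    have hkF : (d : 𝓞 F) = 4 * k + 1 := by
      rw [hk]
      push_cast
      ring
    obtain ⟨α, a, b, ha, hb, hab⟩ := cl3_gen ((2 : ℕ) : 𝓞 F) (1 + θ)
    have k1 : α ^ 2 ∣ ((2 : ℕ) : 𝓞 F) := by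
      have k2 : α ^ 2 ∣ ((2 : ℕ) : 𝓞 F) ^ 2 := pow_dvd_pow_of_dvd ha 2
      have k3 : α ^ 2 ∣ (1 + θ) ^ 2 := pow_dvd_pow_of_dvd hb 2
      have k4 : α ^ 2 ∣ ((2 : ℕ) : 𝓞 F) * (1 + θ) := by
        rw [pow_two]
        exact mul_dvd_mul ha hb
      have e : ((2 : ℕ) : 𝓞 F) = ((2 : ℕ) : 𝓞 F) * (1 + θ) - (1 + θ) ^ 2 - k * ((2 : ℕ) : 𝓞 F) ^ 2 := by
        rw [hkF] at hsq
        push_cast
        linear_combination hsq
      rw [e]
      exact dvd_sub (dvd_sub k4 k3) (k2.mul_left _)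
    have k2 : ((2 : ℕ) : 𝓞 F) ∣ α ^ 2 := by
      refine ⟨2 * a ^ 2 + 2 * a * b * (1 + θ) + b ^ 2 * (θ - 2 * k), ?_⟩
      rw [hab]
      rw [hkF] at hsq
      push_cast
      linear_combination b ^ 2 * hsq
    exact h2 (sq_prime h Nat.prime_two (cl3_sq h hun k1 k2))
  · have := hdp.two_le
    omega

end H55W
end

-- from Lib.SSG.LT.CM1
section

/-! # SSG/LT: translation by a point outside the kernel of reduction -/

open NumberField IsDedekindDomain WeierstrassCurve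

namespace SSG.LT

open H55P (IQ Pt)
open H35P (WAB Ker tt)
open H55K

variable {F : Type} [Field F] [NumberField F] [IQ F] {A B : F} {Ω : Type} [Field Ω] [DecidableEq Ω]
  [Algebra F Ω] {V : ValuationSubring Ω}

/-- The algebra of the chord formula. -/
theorem cm1_alg {k : Type} [Field k] {a b x y t v s X : k} (ht : t ≠ 0) (hv : v ≠ 0)
    (hD : 1 - x * t ^ 2 * v ≠ 0) (he : v = 1 + a * t ^ 4 * v ^ 2 + b * t ^ 6 * v ^ 3)
    (hs : s = (y - (t ^ 3 * v)⁻¹) / (x - (t ^ 2 * v)⁻¹)) (hX : X = s ^ 2 - x - (t ^ 2 * v)⁻¹) :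
    X - x = gx a b x y t v ∧ -(s * (X - x) + y) = gy a b x y t v := by
  obtain ⟨D, hDd⟩ : ∃ D, D = 1 - x * t ^ 2 * v := ⟨_, rfl⟩
  rw [← hDd] at hD
  have es : s = (1 - y * t ^ 3 * v) / (t * D) := by
    have h1 : x - (t ^ 2 * v)⁻¹ = -D / (t ^ 2 * v) := by
      rw [hDd]
      field_simp
      ring
    have h2 : y - (t ^ 3 * v)⁻¹ = -(1 - y * t ^ 3 * v) / (t ^ 3 * v) := by
      field_simp
      ring
    rw [hs, h1, h2]
    field_simp
  have hkey : v * (1 - y * t ^ 3 * v) ^ 2 - D ^ 2 = t ^ 2 * gN a b x y t v := by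
    unfold gN
    rw [hDd]
    linear_combination he
  have hkey2 : gN a b x y t v - 2 * x * v * D ^ 2 = t * gM a b x y t v := by
    unfold gN gM
    rw [hDd]
    ring
  have h2 : s ^ 2 - (t ^ 2 * v)⁻¹ = gN a b x y t v * v⁻¹ * (D⁻¹) ^ 2 := by
    rw [es]
    field_simp
    linear_combination hkey
  have h3 : X - x = gN a b x y t v * v⁻¹ * (D⁻¹) ^ 2 - 2 * x := by
    rw [hX]
    linear_combination h2
  constructor
  · unfold gx
    rw [← hDd]
    exact h3
  · have h4 : X - x = t * gM a b x y t v * v⁻¹ * (D⁻¹) ^ 2 := by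
      rw [h3, ← hkey2]
      field_simp
    unfold gy
    rw [← hDd, h4, es]
    field_simp

/-! Chunk CM1 (M). PROOF. R = some X Y, T = some x y, X ≠ x (V X > 1 ≥ V x: ker_iff, not_ker), slope l = (Y - y) / (X - x) (Affine.slope_of_X_ne), x(R+T) = l^2 - X - x, y(R+T) = -(l (x(R+T) - x) + y)
(Affine.Point.add_some / add_of_X_ne, addX, addY, negY for WAB; H16S/A2B or H55K/G3 (transl) have the same computation). With X = 1/(t^2 v), Y = 1/(t^3 v) (v0_xy), D = 1 - x t^2 v ≠ 0 (value 1): l = (1 - y t^3 v) / (t D),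
x(R+T) = [v (1 - y t^3 v)^2 - D^2] / (t^2 v D^2) - x and v - 1 = A t^4 v^2 + B t^6 v^3 (v0_eq), so the bracket is t^2 gN. Similarly gN - 2 x v D^2 = t gM. field_simp, linear_combination. -/

theorem cm1 (hV : GV A B V) {R T : Pt (WAB A B) Ω} (hR : Ker V R) (h0 : R ≠ 0) (hT : ¬ Ker V T) :
    xc (R + T) - xc T = gx (algebraMap F Ω A) (algebraMap F Ω B) (xc T) (yc T) (tt R) (vv R) ∧
      yc (R + T) = gy (algebraMap F Ω A) (algebraMap F Ω B) (xc T) (yc T) (tt R) (vv R) := by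
  obtain ⟨hT0, hTx⟩ := not_ker V hT
  have hx1 : 1 < V.valuation (xc R) := (ker_iff V h0).1 hR
  have hne : xc T ≠ xc R := by
    intro he
    rw [he] at hTx
    exact absurd hx1 (not_lt.2 hTx)
  obtain ⟨ht0, hv0, hxR, hyR⟩ := v0_xy hV hR h0
  obtain ⟨he, hvv, -⟩ := v0_eq hV hR
  have ht1 := ttlt hV hR
  obtain ⟨a1, a2, a3⟩ := add_coords hT0 h0 hne
  have hD : 1 - xc T * tt R ^ 2 * vv R ≠ 0 := by
    intro h
    have h1 : V.valuation (xc T * tt R ^ 2 * vv R) < 1 := by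
      rw [map_mul, map_mul, map_pow, hvv, mul_one]
      have h2 : V.valuation (tt R) ^ 2 < 1 := pow_lt_one₀ zero_le ht1 (by norm_num)
      exact (mul_le_of_le_one_left zero_le hTx).trans_lt h2
    rw [← sub_eq_zero.1 h, map_one] at h1
    exact lt_irrefl _ h1
  have h5 := cm1_alg (a := algebraMap F Ω A) (b := algebraMap F Ω B) (x := xc T) (y := yc T)
    (s := (yc T - yc R) / (xc T - xc R)) (X := xc (T + R)) ht0 hv0 hD he (by rw [hxR, hyR])
    (by rw [a2, ← hxR])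
  rw [add_comm R T]
  refine ⟨h5.1, ?_⟩
  rw [a3]
  exact h5.2

end SSG.LT
end

-- from Lib.SSG.LT.CM2
section

/-! # SSG/LT: the parameter of act c R -/

open NumberField IsDedekindDomain WeierstrassCurve

namespace SSG.LT

open H55P (IQ Pt)
open H35P (WAB Ker tt)
open H55K

variable {F : Type} [Field F] [NumberField F] [IQ F] {A B : F} {Om : ℂ} {Ω : Type} [Field Ω] [DecidableEq Ω]
  [Algebra F Ω] {j : Ω →+* ℂ} {act : 𝓞 F →+* AddMonoid.End (Pt (WAB A B) Ω)} {V : ValuationSubring Ω}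

/-! Chunk CM2 (M). PROOF. R = 0: both sides are 0. R ≠ 0: act c R ≠ 0 (H55K.tor_unit). t ≠ 0, v ≠ 0 (v0_xy). h.e1x, h.e1y with P = R (the terms xc (R + T) - xc T, yc (R + T) by cm1; T ∈ S is not in Ker V: act c T = 0 and tor_unit):
c^2 x(cR) = (t^2 v)⁻¹ + G1, c^3 y(cR) = (t^3 v)⁻¹ + G2; tt = xc / yc (H55K.tt_eq). y(cR) ≠ 0 because act c R is in Ker V and ≠ 0 (ker_act, tt_val or v0_xy). field_simp. -/

theorem cm2_c0 {c : 𝓞 F} (hc : V.valuation (ak Ω c) = 1) : c ≠ 0 := by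
  rintro rfl
  have e : ak Ω (0 : 𝓞 F) = 0 := by
    show algebraMap F Ω (algebraMap (𝓞 F) F 0) = 0
    rw [map_zero, map_zero]
  rw [e, map_zero] at hc
  exact zero_ne_one hc

theorem cm2_aux (h : CMA F A B Om j act) (hV : GV A B V) {c : 𝓞 F} (hc : V.valuation (ak Ω c) = 1)
    {S : Finset (Pt (WAB A B) Ω)} (hS : TN act c S) {T : Pt (WAB A B) Ω} (hT : T ∈ S) :
    ¬ Ker V T ∧ V.valuation (xc T) ≤ 1 ∧ V.valuation (yc T) ≤ 1 := by
  obtain ⟨h1, h2⟩ := (hS T).1 hT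
  have h3 : ¬ Ker V T := fun hk => h2 (tor_unit h hV hc (T := T) h1 hk)
  exact ⟨h3, (not_ker V h3).2, gv_y hV h3⟩

theorem cm2 (h : CMA F A B Om j act) (hV : GV A B V) {c : 𝓞 F} (hc : V.valuation (ak Ω c) = 1)
    {S : Finset (Pt (WAB A B) Ω)} (hS : TN act c S) {R : Pt (WAB A B) Ω} (hR : Ker V R) :
    tt (act c R) = ak Ω c * tt R *
      (1 + tt R ^ 2 * vv R * ∑ T ∈ S, gx (algebraMap F Ω A) (algebraMap F Ω B) (xc T) (yc T) (tt R) (vv R)) *
      (1 + tt R ^ 3 * vv R * ∑ T ∈ S, gy (algebraMap F Ω A) (algebraMap F Ω B) (xc T) (yc T) (tt R) (vv R))⁻¹ := by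
  by_cases h0 : R = 0
  · subst h0
    have e : tt (0 : Pt (WAB A B) Ω) = 0 := by rw [tt_eq, xc_zero, zero_div]
    rw [map_zero, e, mul_zero, zero_mul, zero_mul]
  · obtain ⟨ht, hv, hx, hy⟩ := v0_xy hV hR h0
    have hn : act c R ≠ 0 := fun hz => h0 (tor_unit h hV hc (T := R) hz hR)
    have hc0 := cm2_c0 hc
    have hcO : ak Ω c ≠ 0 := by
      intro hz
      rw [hz, map_zero] at hc
      exact zero_ne_one hc
    have hk := ker_act h hV c hR
    obtain ⟨hX, hY⟩ := v0_ne hV hk hn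
    have e1 := h.e1x c S hc0 hS R hn
    have e2 := h.e1y c S hc0 hS R hn
    have s1 : ∑ T ∈ S, (xc (R + T) - xc T) =
        ∑ T ∈ S, gx (algebraMap F Ω A) (algebraMap F Ω B) (xc T) (yc T) (tt R) (vv R) :=
      Finset.sum_congr rfl fun T hT => (cm1 hV hR h0 (cm2_aux h hV hc hS hT).1).1
    have s2 : ∑ T ∈ S, yc (R + T) =
        ∑ T ∈ S, gy (algebraMap F Ω A) (algebraMap F Ω B) (xc T) (yc T) (tt R) (vv R) :=
      Finset.sum_congr rfl fun T hT => (cm1 hV hR h0 (cm2_aux h hV hc hS hT).1).2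
    rw [s1, hx] at e1
    rw [s2, hy] at e2
    set G1 := ∑ T ∈ S, gx (algebraMap F Ω A) (algebraMap F Ω B) (xc T) (yc T) (tt R) (vv R)
    set G2 := ∑ T ∈ S, gy (algebraMap F Ω A) (algebraMap F Ω B) (xc T) (yc T) (tt R) (vv R)
    have e3 : tt R ^ 3 * vv R * (ak Ω c ^ 3 * yc (act c R)) = 1 + tt R ^ 3 * vv R * G2 := by
      rw [e2]
      field_simp
    have e4 : tt R ^ 2 * vv R * (ak Ω c ^ 2 * xc (act c R)) = 1 + tt R ^ 2 * vv R * G1 := by
      rw [e1]
      field_simp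
    rw [← e3, ← e4, tt_eq (act c R)]
    field_simp

/-- The nonzero points killed by `c` are integral. -/
theorem cm2_int (h : CMA F A B Om j act) (hV : GV A B V) {c : 𝓞 F} (hc : V.valuation (ak Ω c) = 1)
    {S : Finset (Pt (WAB A B) Ω)} (hS : TN act c S) {T : Pt (WAB A B) Ω} (hT : T ∈ S) :
    ¬ Ker V T ∧ V.valuation (xc T) ≤ 1 ∧ V.valuation (yc T) ≤ 1 := cm2_aux h hV hc hS hT

end SSG.LT
end

-- from Lib.SSG.LT.PC3
section

/-! # SSG/LT: act c preserves the class, c a unit at V -/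

open NumberField IsDedekindDomain WeierstrassCurve

namespace SSG.LT

open H55P (IQ Pt)
open H35P (WAB Ker tt)
open H55K

variable {C : Type} [NormedField C] [IsUltrametricDist C] [CompleteSpace C] {X ι : Type} [Fintype ι] {τ : ι → X → C}
  {F : Type} [Field F] [NumberField F] [IQ F] {A B : F} {Om : ℂ} {Ω : Type} [Field Ω] [DecidableEq Ω]
  [Algebra F Ω] {j : Ω →+* ℂ} {act : 𝓞 F →+* AddMonoid.End (Pt (WAB A B) Ω)} {V : ValuationSubring Ω}

/-! Chunk PC3 (M). PROOF. ‖i x‖ ≤ 1 iff V.valuation x ≤ 1 (hi, V.valuation_le_one_iff). v x = i (vv (P x)) is in the class (cl_v with a = i (algebraMap A), b = i (algebraMap B); v0_eq mapped by i). Apply i to cm2 (S from H55K.exists_TN, c ≠ 0):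
map_mul, map_add, map_sum, map_inv₀, and i (gx a b x y t v) = gx (i a) (i b) .. (unfold gx gN; simp / map_*). In the class: Cl.smul (‖i c‖ ≤ 1), Cl.mul, Cl.sum (cl_gx, cl_gy with the integral coordinates of cm2_int), Cl.inv with
H = t^3 v (sum of gy), ‖H‖ ≤ ρ (Cl.norm_le for v and the sum). ker: H55K.ker_act. small: the same ρ: ‖i tt (act c P)‖ = ‖i tt P‖ (H55K.tt_act_unit) or from the formula. -/

theorem pc3_val {i : Ω →+* C} (hi : ∀ x, x ∈ V ↔ ‖i x‖ ≤ 1) {x : Ω} (h : V.valuation x ≤ 1) : ‖i x‖ ≤ 1 :=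
  (hi x).1 ((V.valuation_le_one_iff x).1 h)

theorem pc3_le {i : Ω →+* C} (hi : ∀ x, x ∈ V ↔ ‖i x‖ ≤ 1) {x y : Ω} (h : V.valuation x ≤ V.valuation y) :
    ‖i x‖ ≤ ‖i y‖ := by
  by_cases hy : y = 0
  · rw [hy, map_zero, le_zero_iff, Valuation.zero_iff] at h
    rw [h, hy]
  · have h1 : V.valuation (x / y) ≤ 1 := by
      rw [map_div₀]
      exact div_le_one_of_le₀ h zero_le
    have h2 := pc3_val hi h1
    rw [map_div₀, norm_div] at h2
    have h3 : 0 < ‖i y‖ := norm_pos_iff.2 ((map_ne_zero i).2 hy)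
    exact (div_le_one h3).1 h2

theorem pc3_gx (i : Ω →+* C) (a b x y t v : Ω) : i (gx a b x y t v) = gx (i a) (i b) (i x) (i y) (i t) (i v) := by
  unfold gx gN
  simp only [map_sub, map_add, map_mul, map_pow, map_inv₀, map_ofNat, map_one]

theorem pc3_gy (i : Ω →+* C) (a b x y t v : Ω) : i (gy a b x y t v) = gy (i a) (i b) (i x) (i y) (i t) (i v) := by
  unfold gy gM
  simp only [map_sub, map_add, map_mul, map_pow, map_inv₀, map_ofNat, map_one, map_neg]

theorem PC.act_unit (hτ : ∀ i x, ‖τ i x‖ ≤ 1) {i : Ω →+* C} (hi : ∀ x, x ∈ V ↔ ‖i x‖ ≤ 1) (h : CMA F A B Om j act)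
    (hV : GV A B V) {c : 𝓞 F} (hc : V.valuation (ak Ω c) = 1) {P : X → Pt (WAB A B) Ω} (hP : PC V i τ P) :
    PC V i τ fun x => act c (P x) := by
  obtain ⟨ρ, hρ, hs⟩ := hP.small
  have hc0 : c ≠ 0 := by
    intro h0
    rw [h0] at hc
    have h1 : ak Ω (0 : 𝓞 F) = 0 := by
      unfold ak
      simp
    rw [h1, map_zero] at hc
    exact zero_ne_one hc
  obtain ⟨S, hS, -⟩ := exists_TN h hc0
  have ha : ‖i (algebraMap F Ω A)‖ ≤ 1 := (hi _).1 hV.a
  have hb : ‖i (algebraMap F Ω B)‖ ≤ 1 := (hi _).1 hV.b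
  have hvl : ∀ x, ‖i (vv (P x))‖ ≤ 1 := fun x => pc3_val hi (v0_eq hV (hP.ker x)).2.1.le
  have heq : ∀ x, i (vv (P x)) = 1 + i (algebraMap F Ω A) * i (tt (P x)) ^ 4 * i (vv (P x)) ^ 2 +
      i (algebraMap F Ω B) * i (tt (P x)) ^ 6 * i (vv (P x)) ^ 3 := by
    intro x
    have h1 := congrArg i (v0_eq hV (hP.ker x)).1
    rw [map_add, map_add, map_one, map_mul, map_mul, map_mul, map_mul, map_pow, map_pow, map_pow, map_pow] at h1
    exact h1
  have hcv : Cl τ fun x => i (vv (P x)) := cl_v hτ ha hb hP.cl hρ hs hvl heq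
  have hgx : Cl τ fun x => ∑ T ∈ S, gx (i (algebraMap F Ω A)) (i (algebraMap F Ω B)) (i (xc T)) (i (yc T))
      (i (tt (P x))) (i (vv (P x))) := by
    refine Cl.sum S fun T hT => ?_
    obtain ⟨-, h2, h3⟩ := cm2_int h hV hc hS hT
    exact cl_gx hτ ha hb (pc3_val hi h2) (pc3_val hi h3) hP.cl hcv hρ hs heq
  have hgy : Cl τ fun x => ∑ T ∈ S, gy (i (algebraMap F Ω A)) (i (algebraMap F Ω B)) (i (xc T)) (i (yc T))
      (i (tt (P x))) (i (vv (P x))) := by
    refine Cl.sum S fun T hT => ?_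
    obtain ⟨-, h2, h3⟩ := cm2_int h hV hc hS hT
    exact cl_gy hτ ha hb (pc3_val hi h2) (pc3_val hi h3) hP.cl hcv hρ hs heq
  have hH : Cl τ fun x => i (tt (P x)) ^ 3 * i (vv (P x)) * ∑ T ∈ S, gy (i (algebraMap F Ω A)) (i (algebraMap F Ω B))
      (i (xc T)) (i (yc T)) (i (tt (P x))) (i (vv (P x))) :=
    Cl.mul hτ (Cl.mul hτ (hP.cl.pow hτ 3) hcv) hgy
  have hG : Cl τ fun x => 1 + i (tt (P x)) ^ 2 * i (vv (P x)) * ∑ T ∈ S, gx (i (algebraMap F Ω A))
      (i (algebraMap F Ω B)) (i (xc T)) (i (yc T)) (i (tt (P x))) (i (vv (P x))) :=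
    (Cl.const norm_one.le).add (Cl.mul hτ (Cl.mul hτ (hP.cl.pow hτ 2) hcv) hgx)
  have hHb : ∀ x, ‖i (tt (P x)) ^ 3 * i (vv (P x)) * ∑ T ∈ S, gy (i (algebraMap F Ω A)) (i (algebraMap F Ω B))
      (i (xc T)) (i (yc T)) (i (tt (P x))) (i (vv (P x)))‖ ≤ ρ := by
    intro x
    have h1 := hgy.norm_le hτ x
    have h2 : ‖i (tt (P x))‖ ^ 2 ≤ 1 := pow_le_one₀ (norm_nonneg _) ((hs x).trans hρ.le)
    rw [norm_mul, norm_mul, norm_pow, pow_succ]
    have h3 : ‖i (tt (P x))‖ ^ 2 * ‖i (tt (P x))‖ ≤ ρ := by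
      calc ‖i (tt (P x))‖ ^ 2 * ‖i (tt (P x))‖ ≤ 1 * ‖i (tt (P x))‖ := mul_le_mul_of_nonneg_right h2 (norm_nonneg _)
        _ = ‖i (tt (P x))‖ := one_mul _
        _ ≤ ρ := hs x
    have hρ0 : 0 ≤ ρ := (norm_nonneg _).trans (hs x)
    calc _ ≤ ρ * 1 * 1 := mul_le_mul (mul_le_mul h3 (hvl x) (norm_nonneg _) hρ0) h1 (norm_nonneg _)
          (mul_nonneg hρ0 zero_le_one)
      _ = ρ := by ring
  have hca : ‖i (ak Ω c)‖ ≤ 1 := pc3_val hi hc.le
  refine ⟨fun x => ker_act h hV c (hP.ker x), ⟨ρ, hρ, fun x => ?_⟩, ?_⟩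
  · exact (pc3_le hi (tt_act_unit h hV hc (hP.ker x)).le).trans (hs x)
  · refine (Cl.mul hτ (Cl.mul hτ (hP.cl.smul hτ hca) hG) (Cl.inv hτ hH hρ hHb)).congr fun x => ?_
    show i (tt (act c (P x))) = _
    rw [cm2 h hV hc hS (hP.ker x)]
    simp only [map_mul, map_add, map_one, map_inv₀, map_pow, map_sum, pc3_gx, pc3_gy]

end SSG.LT
end

-- from Lib.H55W.G1
section

/-! # H55W, part G: factorisation into primary primes -/

open NumberField IsDedekindDomain

namespace H55W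

open H55P (IQ embF eF Nm)
open H55K (cj)

variable {F : Type} [Field F] [NumberField F] [IQ F] {I : 𝓞 F}

theorem g1_nm_one {x : 𝓞 F} : Nm x = 1 ↔ IsUnit x := by
  unfold Nm
  rw [Ideal.absNorm_eq_one_iff, Ideal.span_singleton_eq_top]

theorem g1_nm_zero {x : 𝓞 F} : Nm x = 0 ↔ x = 0 := by
  unfold Nm
  rw [Ideal.absNorm_eq_zero_iff, Ideal.span_singleton_eq_bot]

theorem g1_Iunit (h : GI I) (i : ℕ) : IsUnit (I ^ i) := by
  have h1 : IsUnit I := by
    refine IsUnit.of_mul_eq_one (-I) ?_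
    have h2 := h.sq
    linear_combination -h2
  exact h1.pow i

/-- Chunk G1 (M). Strong induction on Nm x (compare H35T.factor in H35T/R3.lean). If x is a unit then x = I^i (gi_unit), so x = 1 (gi_uniq), s = 0, span {1} = ⊤, pj_top. Otherwise a prime π divides x (WfDvdMonoid.exists_irreducible_factor, 𝓞 F is a principal ideal ring: Irreducible.prime); 1 + I does not divide π (pry_cop); replace π by
I^i π primary (gi_exists; still a prime dividing x); x = π y, y primary (pry_of_mul), Nm y < Nm x (Nm_mul, Nm π ≥ 2). span {x} = span {π} * span {y}, pj_mul_left, pj_prime (pp_pi). -/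
theorem pry_factor (h : GI I) (x : 𝓞 F) (hx : Pry I x) : ∃ s : Multiset (𝓞 F), (∀ π ∈ s, Prime π ∧ Pry I π) ∧ x = s.prod ∧
    ∀ y : 𝓞 F, pj 4 I (Ideal.span {x}) y = (s.map fun π => ps 4 I (Ideal.span {π}) y).prod := by
  have key : ∀ n : ℕ, ∀ x : 𝓞 F, Nm x = n → Pry I x → ∃ s : Multiset (𝓞 F), (∀ π ∈ s, Prime π ∧ Pry I π) ∧ x = s.prod ∧
      ∀ y : 𝓞 F, pj 4 I (Ideal.span {x}) y = (s.map fun π => ps 4 I (Ideal.span {π}) y).prod := by
    intro n
    induction n using Nat.strong_induction_on with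
    | _ n ih =>
      intro x hn hx
      have hx1 := (pry_cop h hx).1
      have hx0 : x ≠ 0 := by
        rintro rfl
        exact hx1 (dvd_zero _)
      by_cases hu : IsUnit x
      · obtain ⟨i, hi⟩ := gi_unit h hu
        have h1 : x = 1 := by
          rw [hi]
          exact gi_uniq h (by rw [← hi]; exact hx)
        subst h1
        refine ⟨0, fun π hπ => absurd hπ (Multiset.notMem_zero π), Multiset.prod_zero.symm, fun y => ?_⟩
        rw [Ideal.span_singleton_one, pj_top, Multiset.map_zero, Multiset.prod_zero]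
      · obtain ⟨π, hπ, hπx⟩ := WfDvdMonoid.exists_irreducible_factor hu hx0
        have hπp : Prime π := hπ.prime
        have hπn : ¬ (1 + I) ∣ π := fun h1 => hx1 (h1.trans hπx)
        obtain ⟨i, hi⟩ := gi_exists h hπn
        have hIu := g1_Iunit h i
        have hass : Associated π (I ^ i * π) := by
          rw [mul_comm]
          exact (associated_mul_unit_right π _ hIu)
        have hπ' : Prime (I ^ i * π) := hass.prime hπp
        have hdx : I ^ i * π ∣ x := hass.symm.dvd.trans hπx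
        obtain ⟨y, hy⟩ := hdx
        have hyP : Pry I y := pry_of_mul hi (by rw [← hy]; exact hx)
        have hlt : Nm y < n := by
          rw [← hn, hy, H55K.Nm_mul]
          have h2 : Nm (I ^ i * π) ≠ 0 := fun h => hπ'.ne_zero (g1_nm_zero.1 h)
          have h3 : Nm (I ^ i * π) ≠ 1 := fun h => hπ'.not_isUnit (g1_nm_one.1 h)
          have h4 : Nm y ≠ 0 := by
            intro h5
            apply hx0
            rw [hy, g1_nm_zero.1 h5, mul_zero]
          have h5 : 2 ≤ Nm (I ^ i * π) := by omega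
          have h6 : 0 < Nm y := Nat.pos_of_ne_zero h4
          nlinarith
        obtain ⟨s, hs1, hs2, hs3⟩ := ih (Nm y) hlt y rfl hyP
        refine ⟨(I ^ i * π) ::ₘ s, ?_, ?_, fun z => ?_⟩
        · intro q hq
          rcases Multiset.mem_cons.1 hq with rfl | hq
          · exact ⟨hπ', hi⟩
          · exact hs1 q hq
        · rw [Multiset.prod_cons, ← hs2]
          exact hy
        · have h1 : Ideal.span {x} = Ideal.span {I ^ i * π} * Ideal.span {y} := by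
            rw [Ideal.span_singleton_mul_span_singleton, ← hy]
          have h2 : Ideal.span {I ^ i * π} ≠ ⊥ := by
            rw [Ne, Ideal.span_singleton_eq_bot]
            exact hπ'.ne_zero
          have h3 : Ideal.span {y} ≠ ⊥ := by
            rw [Ne, Ideal.span_singleton_eq_bot]
            rintro rfl
            rw [mul_zero] at hy
            exact hx0 hy
          rw [h1, pj_mul_left h2 h3, pj_prime (pp_pi h hπ' (pry_cop h hi).1), hs3, Multiset.map_cons, Multiset.prod_cons]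
  exact key (Nm x) x rfl hx

/-- Chunk G1 (S). Conjugation: cj π is a prime element (H55K.cj_prime); span {cj π} = (span {π}).map cj; ps_map for e = cj and ps_inv ((-I) I = 1). -/
theorem ps_cj (h : GI I) {π : 𝓞 F} (hπ : Prime π) (hn : ¬ (1 + I) ∣ π) (x : 𝓞 F) :
    ps 4 I (Ideal.span {cj π}) (cj x) = cj (ps 4 I (Ideal.span {π}) x) := by
  have hsq := h.sq
  have hn' : ¬ (1 + I) ∣ cj π := by
    intro h1
    apply hn
    obtain ⟨z, hz⟩ := h1
    have h2 := congrArg cj hz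
    rw [H55K.cj_cj, map_mul, map_add, map_one, gi_cj h] at h2
    refine ⟨-I * cj z, ?_⟩
    rw [h2]
    linear_combination (cj z) * hsq
  have h1 : (Ideal.span {π}).map ((cj : 𝓞 F ≃+* 𝓞 F) : 𝓞 F →+* 𝓞 F) = Ideal.span {cj π} := by
    rw [Ideal.map_span, Set.image_singleton]
    rfl
  have h2 := ps_map (pp_pi h hπ hn) cj x
  rw [h1, gi_cj h] at h2
  rw [← h2]
  refine (ps_inv (pp_pi h (H55K.cj_prime hπ) hn') ?_ _).symm
  linear_combination -hsq

/-- Chunk G1 (S/M). The types of primes: π divides the rational prime p (the prime number in the ideal (π)); p = π z, Nm p = p^2 = Nm π Nm z. Nm π = p: then π cj π = p (mul_cj). Nm π = p^2: z is a unit. -/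
theorem pi_type (h : GI I) {π : 𝓞 F} (hπ : Prime π) : ∃ p : ℕ, p.Prime ∧
    ((Nm π = p ∧ π * cj π = (p : 𝓞 F)) ∨ (Nm π = p ^ 2 ∧ Associated π (p : 𝓞 F))) := by
  have h1 : π ∣ ((Nm π : ℕ) : 𝓞 F) := ⟨cj π, (H55K.mul_cj π).symm⟩
  have hne : Nm π ≠ 0 := fun h => hπ.ne_zero (g1_nm_zero.1 h)
  have h2 : ∃ p : ℕ, p.Prime ∧ π ∣ (p : 𝓞 F) := by
    rw [← Nat.prod_primeFactorsList hne, Nat.cast_list_prod, hπ.dvd_prod_iff] at h1
    obtain ⟨a, ha, h3⟩ := h1
    obtain ⟨p, hp, rfl⟩ := List.mem_map.1 ha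
    exact ⟨p, Nat.prime_of_mem_primeFactorsList hp, h3⟩
  obtain ⟨p, hp, z, hz⟩ := h2
  refine ⟨p, hp, ?_⟩
  have h3 : Nm π * Nm z = p ^ 2 := by
    rw [← H55K.Nm_mul, ← hz, H55K.Nm_nat]
  have h4 : Nm π ∣ p ^ 2 := ⟨_, h3.symm⟩
  obtain ⟨k, hk, h5⟩ := (Nat.dvd_prime_pow hp).1 h4
  have h6 : Nm π ≠ 1 := fun h => hπ.not_isUnit (g1_nm_one.1 h)
  interval_cases k
  · rw [pow_zero] at h5
    exact absurd h5 h6
  · left
    rw [pow_one] at h5
    refine ⟨h5, ?_⟩
    rw [H55K.mul_cj, h5]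
  · right
    refine ⟨h5, ?_⟩
    rw [h5] at h3
    have h7 : Nm z = 1 := by
      have h8 : p ^ 2 * Nm z = p ^ 2 * 1 := by rw [h3, mul_one]
      exact Nat.eq_of_mul_eq_mul_left (pow_pos hp.pos 2) h8
    rw [hz]
    exact associated_mul_unit_right π z (g1_nm_one.1 h7)

end H55W
end

-- from Lib.H55W.G2
section

/-! # H55W, part G: symbols of rational integers over rational integers -/

open NumberField IsDedekindDomain

namespace H55W

open H55P (IQ embF eF Nm)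
open H55K (cj)

variable {F : Type} [Field F] [NumberField F] [IQ F] {I : 𝓞 F}

theorem g2_nm_dvd {x y : 𝓞 F} (h : x ∣ y) : Nm x ∣ Nm y := by
  obtain ⟨z, rfl⟩ := h
  exact ⟨Nm z, H55K.Nm_mul _ _⟩

theorem g2_two (h : GI I) : Nm (1 + I) = 2 := by
  have h1 := gi_nm h 1 1
  have e : (((1 : ℤ) : 𝓞 F) + ((1 : ℤ) : 𝓞 F) * I) = 1 + I := by
    push_cast
    ring
  rw [e] at h1
  norm_num at h1
  exact_mod_cast h1

theorem g2_int (a : ℤ) : Nm (a : 𝓞 F) = a.natAbs ^ 2 := by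
  rcases Int.natAbs_eq a with h | h
  · conv_lhs => rw [h]
    rw [Int.cast_natCast, H55K.Nm_nat]
  · conv_lhs => rw [h]
    have e : Nm (((-(a.natAbs : ℤ) : ℤ)) : 𝓞 F) = Nm ((a.natAbs : ℕ) : 𝓞 F) := by
      unfold Nm
      rw [Int.cast_neg, Int.cast_natCast, Ideal.span_singleton_neg]
    rw [e, H55K.Nm_nat]

/-- Chunk G2 (S/M). Splitting of the prime numbers: l = 1 mod 4: l = a^2 + b^2 (Nat.Prime.sq_add_sq), π = a + b I has norm l (gi_nm), so it is prime (Nm π a prime number: absNorm prime implies prime ideal: Ideal.isPrime_of_irreducible_absNorm, or pi_type style), π cj π = l, cj π is not associated to π: (π) and (cj π) are different, because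
otherwise π divides π + cj π = 2a and l = norm, so l divides 4a^2, l divides a, then b: contradiction to a^2 + b^2 = l. -/
theorem split_l (h : GI I) {l : ℕ} (hl : l.Prime) (h1 : l % 4 = 1) : ∃ π : 𝓞 F, Prime π ∧ ¬ (1 + I) ∣ π ∧ Nm π = l ∧
    π * cj π = (l : 𝓞 F) ∧ Ideal.span {π} ≠ Ideal.span {cj π} := by
  have : Fact l.Prime := ⟨hl⟩
  obtain ⟨a, b, hab⟩ := Nat.Prime.sq_add_sq (p := l) (by omega)
  set π : 𝓞 F := ((a : ℤ) : 𝓞 F) + ((b : ℤ) : 𝓞 F) * I with hπ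
  have hN : Nm π = l := by
    have h2 := gi_nm h (a : ℤ) (b : ℤ)
    rw [← hπ] at h2
    have h3 : ((Nm π : ℕ) : ℤ) = (l : ℤ) := by
      rw [h2, ← hab]
      push_cast
      rfl
    exact_mod_cast h3
  have hπ0 : π ≠ 0 := by
    intro h0
    rw [h0] at hN
    rw [g1_nm_zero.2 rfl] at hN
    exact hl.ne_zero hN.symm
  have hp : Prime π := by
    rw [← Ideal.span_singleton_prime hπ0]
    apply Ideal.isPrime_of_irreducible_absNorm
    show Irreducible (Nm π)
    rw [hN]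
    exact hl
  have hcj : π * cj π = (l : 𝓞 F) := by rw [H55K.mul_cj, hN]
  have hlodd : l % 2 = 1 := by omega
  refine ⟨π, hp, ?_, hN, hcj, ?_⟩
  · intro h2
    have h3 := g2_nm_dvd h2
    rw [g2_two h, hN] at h3
    omega
  · intro h2
    have h3 : π ∣ cj π := by
      rw [← Ideal.span_singleton_le_span_singleton, ← h2]
    have h4 : cj π = ((a : ℤ) : 𝓞 F) - ((b : ℤ) : 𝓞 F) * I := by
      rw [hπ, map_add, map_mul, H55K.cj_int, H55K.cj_int, gi_cj h]
      ring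
    have h5 : π ∣ (((2 * a : ℤ)) : 𝓞 F) := by
      have h6 : π ∣ π + cj π := dvd_add dvd_rfl h3
      have h7 : π + cj π = (((2 * a : ℤ)) : 𝓞 F) := by
        rw [h4, hπ]
        push_cast
        ring
      rwa [h7] at h6
    have h6 := g2_nm_dvd h5
    rw [hN, g2_int] at h6
    have h7 : l ∣ 2 * a := by
      have h8 := hl.dvd_of_dvd_pow h6
      have h9 : (2 * (a : ℤ)).natAbs = 2 * a := by
        rw [Int.natAbs_mul, Int.natAbs_natCast]
        rfl
      rwa [h9] at h8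
    have h8 : l ∣ a := by
      rcases (Nat.Prime.dvd_mul hl).1 h7 with h9 | h9
      · exfalso
        have h10 := Nat.le_of_dvd (by norm_num) h9
        have h11 := hl.two_le
        omega
      · exact h9
    have h9 : l ∣ b ^ 2 := by
      have h10 : l ∣ a ^ 2 := dvd_pow h8 two_ne_zero
      have h11 : l ∣ a ^ 2 + b ^ 2 := by rw [hab]
      exact (Nat.dvd_add_right h10).1 h11
    have h10 : l ∣ b := hl.dvd_of_dvd_pow h9
    have h11 : l ^ 2 ∣ l := by
      have h12 : l ^ 2 ∣ a ^ 2 + b ^ 2 := dvd_add (pow_dvd_pow_of_dvd h8 2) (pow_dvd_pow_of_dvd h10 2)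
      rwa [hab] at h12
    have h12 := Nat.le_of_dvd hl.pos h11
    have h13 := hl.two_le
    nlinarith

/-- Chunk G2 (S). l = 3 mod 4 is a prime element of 𝓞 F: an irreducible factor π of l has norm l or l^2 (norm l = a^2 + b^2 is impossible modulo 4: gi_nm, GI.rep; l^2: associated). -/
theorem inert_l (h : GI I) {l : ℕ} (hl : l.Prime) (h3 : l % 4 = 3) : Prime (l : 𝓞 F) := by
  have hu : ¬ IsUnit (l : 𝓞 F) := by
    intro h1
    have h2 := g1_nm_one.2 h1
    rw [H55K.Nm_nat] at h2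
    have h4 := hl.two_le
    nlinarith
  have h0 : (l : 𝓞 F) ≠ 0 := by exact_mod_cast hl.ne_zero
  obtain ⟨π, hπ, z, hz⟩ := WfDvdMonoid.exists_irreducible_factor hu h0
  have hπp : Prime π := hπ.prime
  have h5 : Nm π * Nm z = l ^ 2 := by
    rw [← H55K.Nm_mul, ← hz, H55K.Nm_nat]
  have h4 : Nm π ∣ l ^ 2 := ⟨_, h5.symm⟩
  obtain ⟨k, hk, h6⟩ := (Nat.dvd_prime_pow hl).1 h4
  have h7 : Nm π ≠ 1 := fun h => hπp.not_isUnit (g1_nm_one.1 h)
  interval_cases k
  · rw [pow_zero] at h6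
    exact absurd h6 h7
  · exfalso
    rw [pow_one] at h6
    obtain ⟨a, b, hab⟩ := h.rep π
    have h8 := gi_nm h a b
    rw [← hab, h6] at h8
    have h9 : (a ^ 2 + b ^ 2) % 4 = 3 := by
      rw [← h8]
      omega
    have ha : a % 4 = 0 ∨ a % 4 = 1 ∨ a % 4 = 2 ∨ a % 4 = 3 := by omega
    have hb : b % 4 = 0 ∨ b % 4 = 1 ∨ b % 4 = 2 ∨ b % 4 = 3 := by omega
    rcases ha with ha | ha | ha | ha <;> rcases hb with hb | hb | hb | hb <;>
      simp [Int.add_emod, pow_two, Int.mul_emod, ha, hb] at h9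
  · rw [h6] at h5
    have h8 : Nm z = 1 := by
      have h9 : l ^ 2 * Nm z = l ^ 2 * 1 := by rw [h5, mul_one]
      exact Nat.eq_of_mul_eq_mul_left (pow_pos hl.pos 2) h9
    have h9 : Associated π (l : 𝓞 F) := by
      rw [hz]
      exact associated_mul_unit_right π z (g1_nm_one.1 h8)
    exact h9.prime hπp

theorem g2_odd (h : GI I) {l : ℕ} (hl : l % 2 = 1) : ¬ (1 + I) ∣ (l : 𝓞 F) := by
  intro h1
  have h2 := g2_nm_dvd h1
  rw [g2_two h, H55K.Nm_nat] at h2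
  have h3 := Nat.prime_two.dvd_of_dvd_pow h2
  omega

/-- A prime number. -/
theorem g2_prime (h : GI I) {l : ℕ} (hl : l.Prime) (hodd : l % 2 = 1) {a : ℤ} (ha : IsCoprime a (l : ℤ)) :
    pj 4 I (Ideal.span {(l : 𝓞 F)}) (a : 𝓞 F) = 1 := by
  have h4 : l % 4 = 1 ∨ l % 4 = 3 := by omega
  rcases h4 with h4 | h4
  · obtain ⟨π, hp, hn, hN, hcj, hne⟩ := split_l h hl h4
    have hcp : Prime (cj π) := H55K.cj_prime hp
    have hsq := h.sq
    have hn' : ¬ (1 + I) ∣ cj π := by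
      intro h1
      have h2 := g2_nm_dvd h1
      rw [g2_two h, H55K.Nm_cj, hN] at h2
      omega
    have e1 : Ideal.span {(l : 𝓞 F)} = Ideal.span {π} * Ideal.span {cj π} := by
      rw [Ideal.span_singleton_mul_span_singleton, hcj]
    have b1 : Ideal.span {π} ≠ ⊥ := by
      rw [Ne, Ideal.span_singleton_eq_bot]
      exact hp.ne_zero
    have b2 : Ideal.span {cj π} ≠ ⊥ := by
      rw [Ne, Ideal.span_singleton_eq_bot]
      exact hcp.ne_zero
    rw [e1, pj_mul_left b1 b2, pj_prime (pp_pi h hp hn), pj_prime (pp_pi h hcp hn')]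
    have h5 := ps_cj h hp hn (a : 𝓞 F)
    rw [H55K.cj_int] at h5
    rw [h5]
    have h6 : (a : 𝓞 F) ∉ Ideal.span {π} := by
      intro h7
      have h8 := g2_nm_dvd (Ideal.mem_span_singleton.1 h7)
      rw [hN, g2_int] at h8
      have h9 : l ∣ a.natAbs := hl.dvd_of_dvd_pow h8
      have h10 : (l : ℤ) ∣ a := Int.natCast_dvd.2 h9
      have h11 := ha.isUnit_of_dvd' h10 dvd_rfl
      rw [Int.isUnit_iff] at h11
      have h12 := hl.two_le
      omega
    obtain ⟨i, hi⟩ := (ps_spec (pp_pi h hp hn) h6).1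
    rw [hi, map_pow, gi_cj h, ← mul_pow]
    have h7 : I * -I = 1 := by linear_combination -hsq
    rw [h7, one_pow]
  · have hp := inert_l h hl h4
    have hpp := pp_pi h hp (g2_odd h hodd)
    rw [pj_prime hpp]
    have h5 : ps 4 I (Ideal.span {(l : 𝓞 F)}) (a : 𝓞 F) = I ^ 0 := by
      apply ps_uniq hpp
      have hN : Ideal.absNorm (Ideal.span {(l : 𝓞 F)}) = l ^ 2 := H55K.Nm_nat l
      rw [hN, pow_zero]
      obtain ⟨k, hk⟩ : ∃ k, l = 4 * k + 3 := ⟨l / 4, by omega⟩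
      have h6 : (l ^ 2 - 1) / 4 = (l - 1) * (k + 1) := by
        have h7 : l ^ 2 - 1 = 4 * ((l - 1) * (k + 1)) := by
          rw [hk]
          have h8 : 4 * k + 3 - 1 = 4 * k + 2 := by omega
          rw [h8]
          have h9 : (4 * k + 3) ^ 2 = 4 * ((4 * k + 2) * (k + 1)) + 1 := by ring
          omega
        rw [h7]
        exact Nat.mul_div_cancel_left _ (by norm_num)
      rw [h6, pow_mul]
      have h7 := (Int.ModEq.pow_card_sub_one_eq_one hl ha).pow (k + 1)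
      rw [one_pow] at h7
      have h8 : (l : ℤ) ∣ (a ^ (l - 1)) ^ (k + 1) - 1 := h7.symm.dvd
      obtain ⟨c, hc⟩ := h8
      rw [Ideal.mem_span_singleton]
      refine ⟨(c : 𝓞 F), ?_⟩
      have h9 := congrArg (fun z : ℤ => (z : 𝓞 F)) hc
      push_cast at h9
      exact h9
    rw [h5, pow_zero]

/-- Chunk G2 (M). n = l a prime number, a prime to l. l = 3 mod 4: a^((l^2-1)/4) = (a^(l-1))^((l+1)/4) is 1 modulo l (Fermat: Int.ModEq.pow_card_sub_one_eq_one or ZMod.pow_card_sub_one_eq_one), ps_uniq with i = 0, Nm l = l^2 (Nm_nat), pj_prime. l = 1 mod 4: (l) = (π)(cj π) (split_l), pj_mul_left, pj_prime, z = ps (π) a, ps (cj π) a = cj z (ps_cj, cj_int),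
z = I^i (ps_spec), z cj z = I^i (-I)^i = 1 (gi_cj). General n by induction on the prime factors of |n| (Nat.recOnMul or induction_on_primes; span {-n} = span {n}; pj_mul_left; n = 1: pj_top). -/
theorem rat_rat (h : GI I) {n a : ℤ} (hn : n % 2 = 1) (ha : IsCoprime a n) : pj 4 I (Ideal.span {(n : 𝓞 F)}) (a : 𝓞 F) = 1 := by
  have key : ∀ N : ℕ, N % 2 = 1 → IsCoprime a (N : ℤ) → pj 4 I (Ideal.span {(N : 𝓞 F)}) (a : 𝓞 F) = 1 := by
    intro N
    induction N using induction_on_primes with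
    | zero =>
      intro h1
      norm_num at h1
    | one =>
      intro _ _
      rw [Nat.cast_one, Ideal.span_singleton_one, pj_top]
    | prime_mul p N hp ih =>
      intro h1 h2
      have h3 : p % 2 = 1 ∧ N % 2 = 1 := by
        rw [Nat.mul_mod] at h1
        have h4 : p % 2 = 0 ∨ p % 2 = 1 := by omega
        have h5 : N % 2 = 0 ∨ N % 2 = 1 := by omega
        rcases h4 with h4 | h4 <;> rcases h5 with h5 | h5 <;> rw [h4, h5] at h1 <;> simp at h1
        exact ⟨h4, h5⟩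
      rw [Nat.cast_mul] at h2
      have h4 : IsCoprime a (p : ℤ) := h2.of_mul_right_left
      have h5 : IsCoprime a (N : ℤ) := h2.of_mul_right_right
      have hN0 : N ≠ 0 := by
        rintro rfl
        omega
      have e1 : Ideal.span {((p * N : ℕ) : 𝓞 F)} = Ideal.span {(p : 𝓞 F)} * Ideal.span {(N : 𝓞 F)} := by
        rw [Ideal.span_singleton_mul_span_singleton, Nat.cast_mul]
      have b1 : Ideal.span {(p : 𝓞 F)} ≠ ⊥ := by
        rw [Ne, Ideal.span_singleton_eq_bot]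
        exact_mod_cast hp.ne_zero
      have b2 : Ideal.span {(N : 𝓞 F)} ≠ ⊥ := by
        rw [Ne, Ideal.span_singleton_eq_bot]
        exact_mod_cast hN0
      rw [e1, pj_mul_left b1 b2, g2_prime h hp h3.1 h4, ih h3.2 h5, one_mul]
  have h1 : Ideal.span {(n : 𝓞 F)} = Ideal.span {((n.natAbs : ℕ) : 𝓞 F)} := by
    rcases Int.natAbs_eq n with h2 | h2
    · conv_lhs => rw [h2]
      rw [Int.cast_natCast]
    · conv_lhs => rw [h2]
      rw [Int.cast_neg, Int.cast_natCast, Ideal.span_singleton_neg]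
  rw [h1]
  refine key n.natAbs (by omega) ?_
  rcases Int.natAbs_eq n with h2 | h2
  · rwa [← h2]
  · have h3 : (n.natAbs : ℤ) = -n := by omega
    rw [h3]
    exact ha.neg_right

end H55W
end

-- from Lib.H55W.G5
section

/-! # H55W, part G: quartic reciprocity for a prime of degree one and a rational prime -/

open NumberField IsDedekindDomain

namespace H55W

open H55P (IQ embF eF Nm)
open H55K (cj)

variable {F : Type} [Field F] [NumberField F] [IQ F] {I : 𝓞 F} {P : Ideal (𝓞 F)} {p : ℕ} {k : Type} [Field k] [Fintype k] {φ : 𝓞 F →+* k} {χ : MulChar k (𝓞 F)}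

/-- Chunk G5T (M). Compare H35T/R2.lean (gauss_law). κ = 𝓞 F ⧸ Λ, a finite field of characteristic l. ψ0 = FiniteField.primitiveChar k κ (ringChar κ = l ≠ p = ringChar k) with values in the cyclotomic field R' = CyclotomicField ψ0.n κ (ψ0.char, ψ0.prim); f = (algebraMap κ R').comp (Ideal.Quotient.mk Λ), kernel Λ (algebraMap of fields is injective).
jacobiSum_ringHomComp; MulChar.ringHomComp_pow. Order 4: (χ comp f)^2 ≠ 1: otherwise f (χ y)^2 = 1 for all y ≠ 0, where χ y = ps = I^i (ps_spec, h.surj, h.chi), so I^(2i) - 1 is in Λ and I^(2i) = 1 (ps_inj for Λ), so χ^2 = 1: contradiction to the order; (χ comp f)^4 = 1 (χ^4 = 1). orderOf = 4: orderOf_eq_prime_pow or the divisors of 4. -/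
theorem exists_R (h : QC I P p k φ χ) {Λ : Ideal (𝓞 F)} (hΛ : PP 4 I Λ) {l : ℕ} (hl : l.Prime) (hlΛ : (l : 𝓞 F) ∈ Λ)
    (hne : l ≠ p) : ∃ (R' : Type) (_ : Field R') (_ : CharP R' l) (f : 𝓞 F →+* R') (ψ : AddChar k R'), RingHom.ker f = Λ ∧
      ψ.IsPrimitive ∧ orderOf (χ.ringHomComp f) = 4 ∧
      jacobiSum (χ.ringHomComp f) ((χ.ringHomComp f) ^ 2) = f (jacobiSum χ (χ ^ 2)) := by
  classical
  have hmax : Λ.IsMaximal := hΛ.pr.isMaximal hΛ.ne
  let i1 := Ideal.Quotient.field Λ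
  have i3 : Finite (𝓞 F ⧸ Λ) := Ideal.finiteQuotientOfFreeOfNeBot Λ hΛ.ne
  let i2 := @Fintype.ofFinite _ i3
  have hcl : CharP (𝓞 F ⧸ Λ) l := by
    have h0 : ((l : ℕ) : 𝓞 F ⧸ Λ) = 0 := by
      have := Ideal.Quotient.eq_zero_iff_mem.2 hlΛ
      simpa using this
    exact (CharP.charP_iff_prime_eq_zero hl).2 h0
  have hpF : Fact p.Prime := ⟨h.prime⟩
  have hcp : CharP k p := charP_of_card_eq_prime h.card
  have hch : ringChar (𝓞 F ⧸ Λ) ≠ ringChar k := by
    rw [ringChar.eq (𝓞 F ⧸ Λ) l, ringChar.eq k p]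
    exact hne
  let ψ := AddChar.FiniteField.primitiveChar k (𝓞 F ⧸ Λ) hch
  let R' := CyclotomicField ψ.n (𝓞 F ⧸ Λ)
  have hcR : CharP R' l := charP_of_injective_algebraMap (algebraMap (𝓞 F ⧸ Λ) R').injective l
  let ι : 𝓞 F →+* R' := (algebraMap (𝓞 F ⧸ Λ) R').comp (Ideal.Quotient.mk Λ)
  have hι : ∀ x : 𝓞 F, ι x = 0 ↔ x ∈ Λ := by
    intro x
    rw [← Ideal.Quotient.eq_zero_iff_mem]
    exact map_eq_zero (algebraMap (𝓞 F ⧸ Λ) R')
  have h4 : χ ^ 4 = 1 := by rw [← h.order]; exact pow_orderOf_eq_one χ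
  have h2 : χ ^ 2 ≠ 1 := fun h3 => by
    have := orderOf_dvd_of_pow_eq_one h3
    rw [h.order] at this
    omega
  refine ⟨R', inferInstance, hcR, ι, ψ.char, ?_, ψ.prim, ?_, ?_⟩
  · ext x
    rw [RingHom.mem_ker]
    exact hι x
  · have e : (4 : ℕ) = 2 ^ (1 + 1) := by norm_num
    rw [e]
    refine orderOf_eq_prime_pow (p := 2) (n := 1) ?_ ?_
    · intro h1
      rw [pow_one, MulChar.ringHomComp_pow] at h1
      apply h2
      apply MulChar.ext
      intro a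
      obtain ⟨x, hx⟩ := h.surj (a : k)
      have hxP : x ∉ P := by
        intro h0
        rw [← h.ker, RingHom.mem_ker, hx] at h0
        exact a.ne_zero h0
      have h5 : ((χ ^ 2).ringHomComp ι) a = 1 := by rw [h1, MulChar.one_apply_coe]
      rw [MulChar.ringHomComp_apply, MulChar.pow_apply_coe, ← hx, h.chi] at h5
      obtain ⟨i, hi⟩ := (ps_spec h.pp hxP).1
      rw [MulChar.one_apply_coe, MulChar.pow_apply_coe, ← hx, h.chi, hi, ← pow_mul]
      rw [hi, ← pow_mul] at h5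
      have h6 : I ^ (i * 2) - I ^ 0 ∈ Λ := by
        rw [← hι, map_sub, h5, pow_zero, map_one, sub_self]
      rw [ps_inj hΛ h6, pow_zero]
    · rw [MulChar.ringHomComp_pow]
      have e2 : χ ^ 2 ^ (1 + 1) = 1 := h4
      rw [e2]
      apply MulChar.ext
      intro a
      rw [MulChar.ringHomComp_apply, MulChar.one_apply_coe, map_one, MulChar.one_apply_coe]
  · rw [MulChar.ringHomComp_pow]
    exact jacobiSum_ringHomComp χ (χ ^ 2) ι

/-- Chunk G5E (S). k = 𝓞 F ⧸ span {π} with its structure of a finite field, φ the quotient map; exists_char (S3.lean), card_k, pp_pi (π is not divisible by 1 + I: pry_cop). -/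
theorem exists_QC (h : GI I) {π : 𝓞 F} (hπ : Prime π) (hp : Pry I π) (hpp : p.Prime) (hN : Nm π = p) :
    ∃ (k : Type) (_ : Field k) (_ : Fintype k) (φ : 𝓞 F →+* k) (χ : MulChar k (𝓞 F)), QC I (Ideal.span {π}) p k φ χ := by
  classical
  have hP : PP 4 I (Ideal.span {π}) := pp_pi h hπ (pry_cop h hp).1
  have hmax : (Ideal.span {π}).IsMaximal := hP.pr.isMaximal hP.ne
  let i1 := Ideal.Quotient.field (Ideal.span {π})
  have i3 : Finite (𝓞 F ⧸ Ideal.span {π}) := Ideal.finiteQuotientOfFreeOfNeBot _ hP.ne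
  let i2 := @Fintype.ofFinite _ i3
  obtain ⟨χ, h4, ho, hχ⟩ := exists_char hP (𝓞 F ⧸ Ideal.span {π}) (Ideal.Quotient.mk (Ideal.span {π}))
    Ideal.Quotient.mk_surjective Ideal.mk_ker
  exact ⟨𝓞 F ⧸ Ideal.span {π}, i1, i2, Ideal.Quotient.mk (Ideal.span {π}), χ, h, hP, hpp, hN,
    Ideal.Quotient.mk_surjective, Ideal.mk_ker, (card_k _ _ Ideal.Quotient.mk_surjective Ideal.mk_ker).trans hN,
    ho, hχ⟩

end H55W
end

-- from Lib.H55W.G5A
section

/-! # H55W, part G: quartic reciprocity for a prime of degree one and a rational prime -/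

open NumberField IsDedekindDomain

namespace H55W

open H55P (IQ embF eF Nm)
open H55K (cj)

variable {F : Type} [Field F] [NumberField F] [IQ F] {I : 𝓞 F}

/-- two coprime numbers are not both divisible by a prime element -/
theorem g5a_cop {π : 𝓞 F} (hπ : Prime π) {p l : ℕ} (hpp : p.Prime) (hl : l.Prime) (hne : l ≠ p)
    (h1 : π ∣ (p : 𝓞 F)) (h2 : π ∣ (l : 𝓞 F)) : False := by
  have hc : IsCoprime (l : ℤ) (p : ℤ) := by
    rw [Nat.isCoprime_iff_coprime]
    exact (Nat.coprime_primes hl hpp).2 hne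
  obtain ⟨a, b, hab⟩ := hc
  apply hπ.not_unit
  rw [isUnit_iff_dvd_one]
  have h3 : ((a * (l : ℤ) + b * (p : ℤ) : ℤ) : 𝓞 F) = 1 := by rw [hab, Int.cast_one]
  rw [← h3]
  push_cast
  exact dvd_add (h2.mul_left _) (h1.mul_left _)

theorem g5a_mem {x y : 𝓞 F} {R' : Type} [Field R'] {f : 𝓞 F →+* R'} {L : Ideal (𝓞 F)}
    (hk : RingHom.ker f = L) (h : f x = f y) : x - y ∈ L := by
  rw [← hk, RingHom.mem_ker, map_sub, h, sub_self]

theorem g5a_setup (h : GI I) {π : 𝓞 F} (hπ : Prime π) (hp : Pry I π) {p : ℕ} (hpp : p.Prime)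
    (hN : Nm π = p) {l : ℕ} (hl : l.Prime) (hne : l ≠ p) {L : Ideal (𝓞 F)} (hL : PP 4 I L)
    (hlL : (l : 𝓞 F) ∈ L) :
    (∀ t, l = 4 * t + 1 → ps 4 I (Ideal.span {π}) (l : 𝓞 F) * (π ^ 3 * cj π) ^ t - 1 ∈ L) ∧
    (∀ t, l + 1 = 4 * t → (π ^ 3 * cj π) ^ t -
      ps 4 I (Ideal.span {π}) (-(l : 𝓞 F)) * (π * cj π) ∈ L) := by
  obtain ⟨k, i1, i2, φ, χ, hQ⟩ := exists_QC h hπ hp hpp hN
  obtain ⟨R', j1, j2, f, ψ, hker, hψ, ho, hJ⟩ := exists_R hQ hL hl hlL hne
  haveI : Fact l.Prime := ⟨hl⟩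
  have hpc : π * cj π = (p : 𝓞 F) := by rw [H55K.mul_cj, hN]
  have hq : (Fintype.card k : R') ≠ 0 := by
    rw [hQ.card]
    intro h0
    rw [CharP.cast_eq_zero_iff R' l p] at h0
    exact hne ((Nat.prime_dvd_prime_iff_eq hl hpp).1 h0)
  have hlk : (l : k) ≠ 0 := by
    intro h0
    have h1 : (l : 𝓞 F) ∈ RingHom.ker φ := by
      rw [RingHom.mem_ker, map_natCast]
      exact h0
    rw [hQ.ker, Ideal.mem_span_singleton] at h1
    exact g5a_cop hπ hpp hl hne ⟨cj π, hpc.symm⟩ h1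
  have hJ2 : (Fintype.card k : R') * jacobiSum (χ.ringHomComp f) ((χ.ringHomComp f) ^ 2) ^ 2 =
      f (π ^ 3 * cj π) := by
    rw [hJ, qc_jac hQ rfl hp, hQ.card, ← map_natCast f p, ← hpc, ← map_pow, ← map_mul]
    congr 1
    ring
  constructor
  · intro t ht
    have h1 := gs_one l hlk (χ.ringHomComp f) ho ψ hψ hq t ht
    rw [hJ2] at h1
    refine g5a_mem hker ?_
    rw [map_mul, map_pow, map_one, ← h1]
    congr 1
    rw [MulChar.ringHomComp_apply, ← map_natCast φ l, hQ.chi]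
  · intro t ht
    have h1 := gs_three l hlk (χ.ringHomComp f) ho ψ hψ hq t ht
    rw [hJ2] at h1
    refine g5a_mem hker ?_
    rw [map_mul, map_pow, h1, hpc, map_natCast, hQ.card]
    congr 1
    rw [MulChar.ringHomComp_apply, ← map_natCast φ l, ← map_neg, hQ.chi]

/-- Chunk G5A (M). exists_QC, exists_R for Λ = span {lam} (PP: pp_pi; 1 + I does not divide lam, which divides the odd l), gs_one with l = 4t + 1: f (χ (l : k)) (f p f(J)^2)^t = 1, J = -π (qc_jac), p = π cj π (mul_cj), χ (l : k) = χ (φ l) = ps (π) l. So ps (π) l * (π^3 cj π)^t - 1 is in Λ = ker f.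
absNorm Λ = l (pi_type for lam, or: Nm lam = l or l^2; l^2 would make lam associated to l, but l = 1 mod 4 is not prime: split_l), so t = (absNorm - 1)/4 and (π^3 cj π)^t - ps (lam) (π^3 cj π) is in Λ (ps_spec; π, cj π are not in Λ: Nm π = p is prime to l). Both symbols are powers of I: the product is 1 (ps_inj with i, 0). -/
theorem rec_one (h : GI I) {π : 𝓞 F} (hπ : Prime π) (hp : Pry I π) {p : ℕ} (hpp : p.Prime) (hN : Nm π = p) {l : ℕ} (hl : l.Prime)
    (hl1 : l % 4 = 1) (hne : l ≠ p) {lam : 𝓞 F} (hlam : Prime lam) (hd : lam ∣ (l : 𝓞 F)) :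
    ps 4 I (Ideal.span {π}) (l : 𝓞 F) * ps 4 I (Ideal.span {lam}) (π ^ 3 * cj π) = 1 := by
  have hpc : π * cj π = (p : 𝓞 F) := by rw [H55K.mul_cj, hN]
  have hn : ¬ (1 + I) ∣ lam := by
    intro h1
    have h2 : Pry I ((l : ℤ) : 𝓞 F) := pry_int h (by omega)
    apply (pry_cop h h2).1
    rw [Int.cast_natCast]
    exact h1.trans hd
  have hL := pp_pi h hlam hn
  have hlL : (l : 𝓞 F) ∈ Ideal.span {lam} := Ideal.mem_span_singleton.2 hd
  obtain ⟨t, ht⟩ : ∃ t, l = 4 * t + 1 := ⟨l / 4, by omega⟩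
  have h1 := (g5a_setup h hπ hp hpp hN hl hne hL hlL).1 t ht
  have hNl : Nm lam = l := by
    obtain ⟨q, hq, ⟨e1, e2⟩ | ⟨e1, e2⟩⟩ := pi_type h hlam
    · have e3 : l = q := by
        by_contra hlq
        exact g5a_cop hlam hq hl hlq ⟨cj lam, e2.symm⟩ hd
      rw [e1, e3]
    · exfalso
      have e3 : l = q := by
        by_contra hlq
        exact g5a_cop hlam hq hl hlq e2.dvd hd
      rw [← e3] at e2
      have e4 : Prime (l : 𝓞 F) := e2.prime_iff.1 hlam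
      obtain ⟨w, hw, -, hw2, hw3, -⟩ := split_l h hl hl1
      have e5 : ∀ z : 𝓞 F, Nm z = l → ¬ (l : 𝓞 F) ∣ z := by
        rintro z hz ⟨y, rfl⟩
        rw [H55K.Nm_mul, H55K.Nm_nat] at hz
        have h5 : l ^ 2 ∣ l := ⟨_, hz.symm⟩
        have h6 := Nat.le_of_dvd hl.pos h5
        have h7 := hl.two_le
        nlinarith
      rcases e4.dvd_or_dvd (a := w) (b := cj w) (by rw [hw3]) with e6 | e6
      · exact e5 w hw2 e6
      · exact e5 (cj w) (by rw [H55K.Nm_cj, hw2]) e6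
  have hx : π ^ 3 * cj π ∉ Ideal.span {lam} := by
    rw [Ideal.mem_span_singleton]
    intro h2
    have h3 : lam ∣ (p : 𝓞 F) := by
      rw [← hpc]
      rcases hlam.dvd_or_dvd h2 with h3 | h3
      · exact (hlam.dvd_of_dvd_pow h3).mul_right _
      · exact h3.mul_left _
    exact g5a_cop hlam hpp hl hne h3 hd
  obtain ⟨⟨i, hi⟩, h2⟩ := ps_spec hL hx
  have ht' : (Ideal.absNorm (Ideal.span {lam}) - 1) / 4 = t := by
    have : Ideal.absNorm (Ideal.span {lam}) = l := hNl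
    rw [this]
    omega
  rw [ht'] at h2
  have hlp : (l : 𝓞 F) ∉ Ideal.span {π} := by
    rw [Ideal.mem_span_singleton]
    exact fun h3 => g5a_cop hπ hpp hl hne ⟨cj π, hpc.symm⟩ h3
  obtain ⟨⟨j, hj⟩, -⟩ := ps_spec (pp_pi h hπ (pry_cop h hp).1) hlp
  rw [hj] at h1 ⊢
  rw [hi] at h2 ⊢
  have h3 : I ^ (j + i) - I ^ 0 ∈ Ideal.span {lam} := by
    have h4 := Ideal.sub_mem _ h1 (Ideal.mul_mem_left _ (I ^ j) h2)
    have h5 : I ^ j * (π ^ 3 * cj π) ^ t - 1 - I ^ j * ((π ^ 3 * cj π) ^ t - I ^ i) =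
        I ^ (j + i) - I ^ 0 := by
      rw [pow_add, pow_zero]
      ring
    rwa [h5] at h4
  rw [← pow_add, ps_inj hL h3, pow_zero]

/-- Chunk G5B (S). x = a + b I: x^l is congruent to a^l + b^l I^l (add_pow_char in the quotient, or Int.ModEq / exists_add_pow_prime_eq), a^l to a (Fermat), I^l = I^3 = -I (l = 3 mod 4), cj x = a - b I (gi_cj, cj_int). -/
theorem frob_cj (h : GI I) {l : ℕ} (hl : l.Prime) (hl3 : l % 4 = 3) (x : 𝓞 F) : (l : 𝓞 F) ∣ x ^ l - cj x := by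
  obtain ⟨a, b, rfl⟩ := h.rep x
  have hI : I ^ l = -I := by
    obtain ⟨m, rfl⟩ : ∃ m, l = 4 * m + 3 := ⟨l / 4, by omega⟩
    have h4 : I ^ 4 = 1 := by
      rw [show (4 : ℕ) = 2 * 2 by norm_num, pow_mul, h.sq]
      ring
    rw [pow_add, pow_mul, h4, one_pow, one_mul, pow_succ, h.sq]
    ring
  have hfer : ∀ c : ℤ, (l : 𝓞 F) ∣ (c : 𝓞 F) ^ l - (c : 𝓞 F) := by
    intro c
    haveI : Fact l.Prime := ⟨hl⟩
    have h1 : (l : ℤ) ∣ c ^ l - c := by
      rw [← ZMod.intCast_zmod_eq_zero_iff_dvd]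
      push_cast
      rw [ZMod.pow_card, sub_self]
    obtain ⟨d, hd⟩ := h1
    refine ⟨(d : 𝓞 F), ?_⟩
    have := congrArg (fun z : ℤ => (z : 𝓞 F)) hd
    push_cast at this
    exact this
  obtain ⟨r, hr⟩ := exists_add_pow_prime_eq hl (a : 𝓞 F) ((b : 𝓞 F) * I)
  rw [hr, map_add, map_mul, H55K.cj_int, H55K.cj_int, gi_cj h, mul_pow, hI]
  obtain ⟨u, hu⟩ := hfer a
  obtain ⟨v, hv⟩ := hfer b
  refine ⟨u - v * I + (a : 𝓞 F) * ((b : 𝓞 F) * I) * r, ?_⟩
  linear_combination hu - I * hv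

/-- Chunk G5B (M). Λ = span {l} is prime (inert_l), PP (pp_pi). exists_QC, exists_R, gs_three with l + 1 = 4t, J = -π, p = π cj π: (π^3 cj π)^t - ps (π) (-l) * π * cj π is in Λ. cj π - π^l is in Λ (frob_cj): so π^((3 + l) t) - ps (π) (-l) π^(1 + l) is in Λ, and (3 + l) t = (1 + l) + (l^2 - 1)/4; π^(1+l) is not in Λ (Λ prime, π not in Λ because Nm π = p is prime to l)
so π^((l^2 - 1)/4) - ps (π) (-l) is in Λ; absNorm Λ = l^2 (H55K.Nm_nat); ps (π) (-l) is a power of I (ps_spec): ps_uniq. -/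
theorem rec_three (h : GI I) {π : 𝓞 F} (hπ : Prime π) (hp : Pry I π) {p : ℕ} (hpp : p.Prime) (hN : Nm π = p) {l : ℕ} (hl : l.Prime)
    (hl3 : l % 4 = 3) (hne : l ≠ p) : ps 4 I (Ideal.span {π}) (-(l : 𝓞 F)) = ps 4 I (Ideal.span {(l : 𝓞 F)}) π := by
  have hpc : π * cj π = (p : 𝓞 F) := by rw [H55K.mul_cj, hN]
  have hlP := inert_l h hl hl3
  have hn : ¬ (1 + I) ∣ (l : 𝓞 F) := by
    intro h1
    have h2 : Pry I ((-(l : ℤ) : ℤ) : 𝓞 F) := pry_int h (by omega)
    apply (pry_cop h h2).1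
    rw [Int.cast_neg, Int.cast_natCast, dvd_neg]
    exact h1
  have hL := pp_pi h hlP hn
  have hlL : (l : 𝓞 F) ∈ Ideal.span {(l : 𝓞 F)} := Ideal.mem_span_singleton_self _
  obtain ⟨t, ht⟩ : ∃ t, l + 1 = 4 * t := ⟨l / 4 + 1, by omega⟩
  have h1 := (g5a_setup h hπ hp hpp hN hl hne hL hlL).2 t ht
  have hlp : -(l : 𝓞 F) ∉ Ideal.span {π} := by
    rw [Ideal.mem_span_singleton, dvd_neg]
    exact fun h3 => g5a_cop hπ hpp hl hne ⟨cj π, hpc.symm⟩ h3
  obtain ⟨⟨j, hj⟩, -⟩ := ps_spec (pp_pi h hπ (pry_cop h hp).1) hlp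
  rw [hj] at h1 ⊢
  have hπL : π ∉ Ideal.span {(l : 𝓞 F)} := by
    rw [Ideal.mem_span_singleton]
    intro h3
    exact g5a_cop hlP hpp hl hne (by rw [← hpc]; exact h3.mul_right _) dvd_rfl
  have hfr : π ^ l - cj π ∈ Ideal.span {(l : 𝓞 F)} := Ideal.mem_span_singleton.2 (frob_cj h hl hl3 π)
  have hab : (Ideal.absNorm (Ideal.span {(l : 𝓞 F)}) - 1) / 4 = 4 * t ^ 2 - 2 * t := by
    have h2 : Ideal.absNorm (Ideal.span {(l : 𝓞 F)}) = l ^ 2 := H55K.Nm_nat l
    rw [h2]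
    have h3 : l = 4 * t - 1 := by omega
    obtain ⟨u, rfl⟩ : ∃ u, t = u + 1 := ⟨t - 1, by omega⟩
    have h4 : l = 4 * u + 3 := by omega
    rw [h4]
    have h5 : (4 * u + 3) ^ 2 - 1 = 4 * (4 * (u + 1) ^ 2 - 2 * (u + 1)) := by
      zify [show 2 * (u + 1) ≤ 4 * (u + 1) ^ 2 by nlinarith, show 1 ≤ (4 * u + 3) ^ 2 by nlinarith]
      ring
    rw [h5]
    exact Nat.mul_div_cancel_left _ (by norm_num)
  refine (ps_uniq hL (i := j) ?_).symm
  rw [hab]
  have hpr : (Ideal.span {(l : 𝓞 F)}).IsPrime := hL.pr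
  -- modulo `l`
  rw [← Ideal.Quotient.eq_zero_iff_mem] at h1 hfr ⊢
  rw [map_sub, sub_eq_zero] at h1 hfr ⊢
  have hπ0 : Ideal.Quotient.mk (Ideal.span {(l : 𝓞 F)}) π ≠ 0 := fun h3 =>
    hπL (Ideal.Quotient.eq_zero_iff_mem.1 h3)
  rw [map_pow, map_mul, map_pow, map_mul, map_mul, ← hfr, map_pow] at h1
  rw [map_pow]
  set y := Ideal.Quotient.mk (Ideal.span {(l : 𝓞 F)}) π
  have h6 : y ^ (1 + l) ≠ 0 := pow_ne_zero _ hπ0
  refine mul_left_cancel₀ h6 ?_
  have h7 : (y ^ 3 * y ^ l) ^ t = y ^ (1 + l) * y ^ (4 * t ^ 2 - 2 * t) := by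
    rw [← pow_add, ← pow_mul, ← pow_add]
    congr 1
    obtain ⟨u, rfl⟩ : ∃ u, t = u + 1 := ⟨t - 1, by omega⟩
    have h4 : l = 4 * u + 3 := by omega
    rw [h4]
    zify [show 2 * (u + 1) ≤ 4 * (u + 1) ^ 2 by nlinarith]
    ring
  rw [← h7, h1]
  ring

end H55W
end

-- from Lib.H55W.G6
section

/-! # H55W, part G: quartic reciprocity for a primary prime and a primary rational prime -/

open NumberField IsDedekindDomain

namespace H55W

open H55P (IQ embF eF Nm)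
open H55K (cj)

variable {F : Type} [Field F] [NumberField F] [IQ F] {I : 𝓞 F}

theorem g6_lam (h : GI I) {l : ℕ} (hl : l.Prime) (hl2 : l ≠ 2) {x : 𝓞 F} (hx : x ∣ (l : 𝓞 F)) : ¬ (1 + I) ∣ x := by
  intro hd
  have h1 : (1 + I) ∣ (l : 𝓞 F) := hd.trans hx
  obtain ⟨c, hc⟩ := h1
  have h2 := H55K.Nm_mul (1 + I) c
  rw [← hc, H55K.Nm_nat] at h2
  have h3 : ((Nm (1 + I) : ℕ) : ℤ) = 2 := by
    have := gi_nm h 1 1
    simp only [Int.cast_one, one_mul] at this
    rw [this]; norm_num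
  have h4 : Nm (1 + I) = 2 := by exact_mod_cast h3
  have h5 : 2 ∣ l ^ 2 := ⟨Nm c, by rw [h2, h4]⟩
  exact hl2 ((Nat.prime_dvd_prime_iff_eq Nat.prime_two hl).1 (Nat.prime_two.dvd_of_dvd_pow h5)).symm

theorem g6_unit (h : GI I) {π : 𝓞 F} (hp : Pry I π) {p : ℕ} (hpp : p.Prime) (_hN : Nm π = p ^ 2)
    (ha : Associated π (p : 𝓞 F)) (h2 : p ≠ 2) : ∃ a : ℤ, a.natAbs = p ∧ a % 4 = 1 ∧ π = (a : 𝓞 F) := by
  have hodd : p % 2 = 1 := by rcases hpp.eq_two_or_odd with h | h; exact absurd h h2; exact h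
  obtain ⟨a, hap, ha4⟩ : ∃ a : ℤ, a.natAbs = p ∧ a % 4 = 1 := by
    rcases (by omega : p % 4 = 1 ∨ p % 4 = 3) with h4 | h4
    · exact ⟨p, Int.natAbs_natCast p, by omega⟩
    · exact ⟨-p, by simp, by omega⟩
  refine ⟨a, hap, ha4, ?_⟩
  have h3 : Associated (p : 𝓞 F) (a : 𝓞 F) := by
    rcases Int.natAbs_eq a with h5 | h5
    · rw [h5, hap, Int.cast_natCast]
    · rw [h5, hap, Int.cast_neg, Int.cast_natCast]
      exact (Associated.refl (p : 𝓞 F)).neg_right
  obtain ⟨u, hu⟩ := ha.trans h3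
  obtain ⟨i, hi⟩ := gi_unit h u.isUnit
  have h6 : Pry I (π * I ^ i) := by rw [← hi, hu]; exact pry_int h ha4
  have h7 := gi_uniq h (pry_of_mul hp h6)
  rw [← hu, hi, h7, mul_one]

/-- Chunk G6 (M). pi_type for π. (1) Nm π = p, π | p, so l ≠ p. If l = 1 mod 4 then n = l, (l) = (lam)(cj lam) (split_l; span_singleton_mul), pj (span {l}) π = z w, z = ps (lam) π, w = ps (cj lam) π (pj_mul_left, pj_prime), rec_one: ps (π) l * ps (lam) (π^3 cj π) = 1; ps (lam)(π^3 cj π) = z^3 ps (lam)(cj π) (ps_mul, ps_pow),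
ps (lam) (cj π) = cj w (ps_cj for cj lam: cj (cj lam) = lam) = w^3 (w = I^i, cj w = (-I)^i = I^(3i); gi_cj), z^4 = w^4 = 1: so ps (π) l = z w. If l = 3 mod 4 then n = -l (n % 4 = 1), span {-l} = span {l} (Ideal.span_singleton_neg), pj_prime, rec_three. (2) π associated to p, p^2 = Nm π: π = I^i p (gi_unit); p is odd; p or -p is primary (pry_int), so by gi_uniq and pry_of_mul π = p or -p,
a rational integer a; ps (π) n = pj (span {a}) n = 1 and pj (span {n}) a = 1 (rat_rat; a and n are coprime since π does not divide n). -/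
theorem rec_prime (h : GI I) {π : 𝓞 F} (hπ : Prime π) (hp : Pry I π) {l : ℕ} (hl : l.Prime) (hl2 : l ≠ 2) {n : ℤ} (hnl : n.natAbs = l)
    (hn : n % 4 = 1) (hd : ¬ π ∣ (n : 𝓞 F)) : ps 4 I (Ideal.span {π}) (n : 𝓞 F) = pj 4 I (Ideal.span {(n : 𝓞 F)}) π := by
  obtain ⟨p, hpp, hcase⟩ := pi_type h hπ
  have hπn := (pry_cop h hp).1
  have hπp : π ∣ (p : 𝓞 F) := by
    rcases hcase with ⟨-, h2⟩ | ⟨-, h2⟩
    · exact ⟨cj π, h2.symm⟩
    · exact h2.dvd
  have hlp : l ≠ p := by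
    rintro rfl
    apply hd
    rcases Int.natAbs_eq n with h5 | h5
    · rw [h5, hnl, Int.cast_natCast]; exact hπp
    · rw [h5, hnl, Int.cast_neg, Int.cast_natCast, dvd_neg]; exact hπp
  have hp2 : p ≠ 2 := by
    rintro rfl
    have hPP := pp_pi h hπ hπn
    apply hPP.nm
    rw [Ideal.mem_span_singleton]
    refine hπp.trans ⟨2, ?_⟩
    norm_num
  rcases hcase with ⟨hN, hcj⟩ | ⟨hN, hass⟩
  · rcases (by have := hl.eq_two_or_odd; omega : l % 4 = 1 ∨ l % 4 = 3) with h4 | h4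
    · have hnl' : n = l := by omega
      subst hnl'
      rw [Int.cast_natCast]
      obtain ⟨lam, hlam, hlam1, hNl, hlc, -⟩ := split_l h hl h4
      have hlamd : lam ∣ (l : 𝓞 F) := ⟨cj lam, hlc.symm⟩
      have hcd : cj lam ∣ (l : 𝓞 F) := ⟨lam, by rw [← hlc]; ring⟩
      have hcp : Prime (cj lam) := H55K.cj_prime hlam
      have hcn : ¬ (1 + I) ∣ cj lam := g6_lam h hl hl2 hcd
      have hrec := rec_one h hπ hp hpp hN hl h4 hlp hlam hlamd
      have hnot : ∀ q : 𝓞 F, q ∣ (l : 𝓞 F) → Prime q → ∀ r : 𝓞 F, r ∣ (p : 𝓞 F) → r ∉ Ideal.span {q} := by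
        intro q hq hqp r hr hm
        rw [Ideal.mem_span_singleton] at hm
        have h6 : q ∣ (p : 𝓞 F) := hm.trans hr
        have h7 : IsCoprime (l : ℤ) (p : ℤ) := Nat.isCoprime_iff_coprime.2 ((Nat.coprime_primes hl hpp).2 hlp)
        have h8 := h7.map (Int.castRingHom (𝓞 F))
        simp only [eq_intCast, Int.cast_natCast] at h8
        exact hqp.not_isUnit (h8.isUnit_of_dvd' hq h6)
      have hPl := pp_pi h hlam hlam1
      have hPc := pp_pi h hcp hcn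
      have hπl := hnot lam hlamd hlam π hπp
      have hπc := hnot (cj lam) hcd hcp π hπp
      rw [ps_mul hPl, ps_pow hPl] at hrec
      have hcj2 := ps_cj h hcp hcn π
      rw [H55K.cj_cj] at hcj2
      obtain ⟨⟨i, hi⟩, -⟩ := ps_spec hPc hπc
      have hw4 := ps_root hPc hπc
      have hz4 := ps_root hPl hπl
      have hw3 : cj (ps 4 I (Ideal.span {cj lam}) π) = ps 4 I (Ideal.span {cj lam}) π ^ 3 := by
        rw [hi, map_pow, gi_cj h, ← pow_mul, mul_comm, pow_mul]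
        congr 1
        linear_combination (-I) * h.sq
      rw [hcj2, hw3] at hrec
      have hspan : Ideal.span {(l : 𝓞 F)} = Ideal.span {lam} * Ideal.span {cj lam} := by
        rw [Ideal.span_singleton_mul_span_singleton, hlc]
      rw [hspan, pj_mul_left hPl.ne hPc.ne, pj_prime hPl, pj_prime hPc]
      set z := ps 4 I (Ideal.span {lam}) π
      set w := ps 4 I (Ideal.span {cj lam}) π
      set A := ps 4 I (Ideal.span {π}) (l : 𝓞 F)
      calc A = A * (z ^ 4) * (w ^ 4) := by rw [hz4, hw4]; ring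
        _ = (A * (z ^ 3 * w ^ 3)) * (z * w) := by ring
        _ = z * w := by rw [hrec, one_mul]
    · have hnl' : n = -l := by omega
      subst hnl'
      rw [Int.cast_neg, Int.cast_natCast, Ideal.span_singleton_neg, pj_prime (pp_pi h (inert_l h hl h4) (g6_lam h hl hl2 dvd_rfl))]
      exact rec_three h hπ hp hpp hN hl h4 hlp
  · obtain ⟨a, hap, ha4, rfl⟩ := g6_unit h hp hpp hN hass hp2
    have hcop : IsCoprime n a := by
      rw [Int.isCoprime_iff_gcd_eq_one, Int.gcd_eq_natAbs, hnl, hap]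
      exact (Nat.coprime_primes hl hpp).2 hlp
    rw [← pj_prime (pp_pi h hπ hπn), rat_rat h (by omega) hcop, rat_rat h (by omega) hcop.symm]

/-- Chunk G6 (M). pry_factor: x = product of primary primes π (s), pj (span {x}) n = product of ps (π) n = product of pj (span {n}) π (rec_prime; π does not divide n: π divides x, and n divides x - 1) = pj (span {n}) x (pj_mul, pj_one, multiset induction; PJ of span {n}: n is odd) = pj (span {n}) 1 = 1 (pj_congr). -/
theorem one_of_prime (h : GI I) {l : ℕ} (hl : l.Prime) (hl2 : l ≠ 2) {n : ℤ} (hnl : n.natAbs = l) (hn : n % 4 = 1) {x : 𝓞 F}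
    (hx : Pry I x) (hxn : (n : 𝓞 F) ∣ x - 1) : pj 4 I (Ideal.span {x}) (n : 𝓞 F) = 1 := by
  obtain ⟨s, hs, hxs, hpj⟩ := pry_factor h x hx
  have hPJ : PJ 4 I (Ideal.span {(n : 𝓞 F)}) := (pry_cop h (pry_int h hn)).2.2
  have h1 : ∀ π ∈ s, ps 4 I (Ideal.span {π}) (n : 𝓞 F) = pj 4 I (Ideal.span {(n : 𝓞 F)}) π := by
    intro π hπ
    obtain ⟨hp1, hp2⟩ := hs π hπ
    apply rec_prime h hp1 hp2 hl hl2 hnl hn
    intro hd
    have h2 : π ∣ x := by rw [hxs]; exact Multiset.dvd_prod hπ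
    have h3 : π ∣ x - 1 := hd.trans hxn
    have h4 : π ∣ 1 := by
      have := dvd_sub h2 h3
      rwa [sub_sub_cancel] at this
    exact hp1.not_isUnit (isUnit_of_dvd_one h4)
  rw [hpj, Multiset.map_congr rfl h1]
  have h2 : ∀ t : Multiset (𝓞 F), (t.map fun π => pj 4 I (Ideal.span {(n : 𝓞 F)}) π).prod = pj 4 I (Ideal.span {(n : 𝓞 F)}) t.prod := by
    intro t
    induction t using Multiset.induction_on with
    | empty => simp [pj_one hPJ]
    | cons a t ih => rw [Multiset.map_cons, Multiset.prod_cons, Multiset.prod_cons, pj_mul hPJ, ih]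
  rw [h2, ← hxs, pj_congr hPJ (x := x) (y := 1) (Ideal.mem_span_singleton.2 hxn), pj_one hPJ]

end H55W
end

-- from Lib.H55W.G7
section

/-! # H55W, part G: the supplementary laws -/

open NumberField IsDedekindDomain

namespace H55W

open H55P (IQ embF eF Nm)
open H55K (cj Nm_mul Nm_nat)

variable {F : Type} [Field F] [NumberField F] [IQ F] {I : 𝓞 F}

/-- Chunk G7A (S). x = 1 + 8 z, so Nm x = x cj x = 1 + 8 (z + cj z) + 64 z cj z, z + cj z = 2a for z = a + b I (gi_cj): Nm x = 1 mod 16 (gi_nm). -/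
theorem nm_sixteen (h : GI I) {x : 𝓞 F} (hx : (8 : 𝓞 F) ∣ x - 1) : Nm x % 16 = 1 := by
  obtain ⟨z, hz⟩ := hx
  obtain ⟨a, b, hab⟩ := h.rep z
  have h1 : x = ((1 + 8 * a : ℤ) : 𝓞 F) + ((8 * b : ℤ) : 𝓞 F) * I := by
    push_cast
    rw [hab] at hz
    linear_combination hz
  have h2 := gi_nm h (1 + 8 * a) (8 * b)
  rw [← h1] at h2
  have h3 : ((Nm x : ℕ) : ℤ) = 16 * (a + 4 * a ^ 2 + 4 * b ^ 2) + 1 := by rw [h2]; ring
  omega

omit [IQ F] in
theorem g7a_pry (h : GI I) {x : 𝓞 F} (hx : (8 : 𝓞 F) ∣ x - 1) : Pry I x := by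
  refine Dvd.dvd.trans ⟨2 * (1 - I), ?_⟩ hx
  linear_combination (4 : 𝓞 F) * h.sq

/-- Chunk G7A (S). 8 = (2 + 2I) 2 (1 - I): x is primary, PJ (pry_cop). pj_zeta: pj (span {x}) I = I^((Nm x - 1)/4) = 1 (Nm x = 1 mod 16, I^4 = 1); -1 = I^2: pj_mul. -/
theorem one_neg (h : GI I) {x : 𝓞 F} (hx : (8 : 𝓞 F) ∣ x - 1) : pj 4 I (Ideal.span {x}) I = 1 ∧ pj 4 I (Ideal.span {x}) (-1) = 1 := by
  obtain ⟨-, -, hPJ⟩ := pry_cop h (g7a_pry h hx)
  have h1 : pj 4 I (Ideal.span {x}) I = 1 := by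
    have h2 : pj 4 I (Ideal.span {x}) I = I ^ ((Nm x - 1) / 4) := (pj_zeta hPJ).2
    have h3 := nm_sixteen h hx
    rw [h2]
    obtain ⟨k, hk⟩ : ∃ k, Nm x = 16 * k + 1 := ⟨Nm x / 16, by omega⟩
    have h4 : (Nm x - 1) / 4 = 4 * k := by omega
    rw [h4, pow_mul, (gi_root h).pow_eq_one, one_pow]
  refine ⟨h1, ?_⟩
  have h2 : (-1 : 𝓞 F) = I * I := by rw [← h.sq]; ring
  rw [h2, pj_mul hPJ, h1, one_mul]

theorem g7b_ne (h : GI I) {π : 𝓞 F} (hπ : Prime π) (hn : ¬ (1 + I) ∣ π) {p : ℕ} (hp : π ∣ (p : 𝓞 F)) (hpp : p.Prime) : p ≠ 2 := by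
  rintro rfl
  have hPP := pp_pi h hπ hn
  apply hPP.nm
  rw [Ideal.mem_span_singleton]
  refine hp.trans ⟨2, ?_⟩
  norm_num

/-- Chunk G7B (M). Euler: π a prime, not divisible by 1 + I, y an integer not divisible by π. pi_type: Nm π = p: y^((p-1)/2) is congruent to the Legendre symbol modulo p (ZMod: legendreSym.eq_pow, ZMod.intCast_zmod_eq_zero_iff..), so modulo π; (ps y)^2 is congruent to y^((p-1)/2) (ps_spec); (ps y)^2 = I^(2i) is 1 or -1, jacobiSym y p = 1 or -1; the difference is in (π), so they are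
equal (2 is not in (π)). Nm π = p^2, π associated to p: y^((p^2-1)/4) = (y^(p-1))^((p+1)/4)... here only the square is needed: y^((p^2-1)/2) = (y^(p-1))^((p+1)/2) is 1 modulo p, and jacobiSym y (p^2) = 1. -/
theorem ps_sq (h : GI I) {π : 𝓞 F} (hπ : Prime π) (hn : ¬ (1 + I) ∣ π) {y : ℤ} (hy : ¬ π ∣ (y : 𝓞 F)) :
    ps 4 I (Ideal.span {π}) (y : 𝓞 F) ^ 2 = ((jacobiSym y (Nm π) : ℤ) : 𝓞 F) := by
  have hPP := pp_pi h hπ hn
  have hyP : (y : 𝓞 F) ∉ Ideal.span {π} := by rwa [Ideal.mem_span_singleton]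
  obtain ⟨⟨i, hi⟩, hsp⟩ := ps_spec hPP hyP
  obtain ⟨hd4, -, -⟩ := ps_dvd hPP
  change 4 ∣ Nm π - 1 at hd4
  change (y : 𝓞 F) ^ ((Nm π - 1) / 4) - _ ∈ _ at hsp
  obtain ⟨p, hp, hcase⟩ := pi_type h hπ
  have hπp : π ∣ (p : 𝓞 F) := by
    rcases hcase with ⟨-, h2⟩ | ⟨-, h2⟩
    · exact ⟨cj π, h2.symm⟩
    · exact h2.dvd
  have hp2 : p ≠ 2 := g7b_ne h hπ hn hπp hp
  have : Fact p.Prime := ⟨hp⟩
  have hyp : ¬ (p : ℤ) ∣ y := by
    rintro ⟨c, hc⟩
    apply hy
    rw [hc]; push_cast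
    exact hπp.mul_right _
  -- the square of the symbol is y^((N-1)/2) mod P
  have h2 : (y : 𝓞 F) ^ (2 * ((Nm π - 1) / 4)) - ps 4 I (Ideal.span {π}) (y : 𝓞 F) ^ 2 ∈ Ideal.span {π} := by
    rw [mul_comm, pow_mul]
    exact Ideal.mem_of_dvd _ (sub_dvd_pow_sub_pow _ _ 2) hsp
  -- the Jacobi symbol
  have hJ : ∃ j : ℕ, ((jacobiSym y (Nm π) : ℤ) : 𝓞 F) = I ^ j ∧ (y : 𝓞 F) ^ (2 * ((Nm π - 1) / 4)) - I ^ j ∈ Ideal.span {π} := by
    have hleg : (p : ℤ) ∣ y ^ (p / 2) - legendreSym p y := by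
      rw [← ZMod.intCast_zmod_eq_zero_iff_dvd]
      push_cast
      rw [legendreSym.eq_pow, sub_self]
    have hgcd : y.gcd p = 1 := by
      rw [← Int.isCoprime_iff_gcd_eq_one]
      exact ((Nat.prime_iff_prime_int.1 hp).coprime_iff_not_dvd.2 hyp).symm
    rcases hcase with ⟨h3, -⟩ | ⟨h3, -⟩
    · have h4 : 2 * ((Nm π - 1) / 4) = p / 2 := by rw [h3] at hd4 ⊢; omega
      rw [h4, h3, ← jacobiSym.legendreSym.to_jacobiSym]
      have h5 : (y : 𝓞 F) ^ (p / 2) - ((legendreSym p y : ℤ) : 𝓞 F) ∈ Ideal.span {π} := by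
        rw [Ideal.mem_span_singleton]
        have h6 : ((p : ℤ) : 𝓞 F) ∣ ((y ^ (p / 2) - legendreSym p y : ℤ) : 𝓞 F) := Int.cast_dvd_cast _ _ hleg
        push_cast at h6
        exact hπp.trans h6
      have h7 : legendreSym p y = 1 ∨ legendreSym p y = -1 := by
        rw [jacobiSym.legendreSym.to_jacobiSym]
        exact jacobiSym.eq_one_or_neg_one hgcd
      rcases h7 with h7 | h7
      · refine ⟨0, by rw [h7]; simp, ?_⟩
        rw [h7] at h5
        simpa using h5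
      · refine ⟨2, by rw [h7, h.sq]; simp, ?_⟩
        rw [h7] at h5
        rw [h.sq]
        simpa using h5
    · refine ⟨0, ?_, ?_⟩
      · rw [h3, jacobiSym.pow_right, jacobiSym.sq_one hgcd]; simp
      · rw [pow_zero, Ideal.mem_span_singleton]
        have h4 : 2 * ((Nm π - 1) / 4) = (p / 2) * (p + 1) := by
          rw [h3] at hd4 ⊢
          obtain ⟨k, hk⟩ : ∃ k, p = 2 * k + 1 := ⟨p / 2, by have := hp.eq_two_or_odd; omega⟩
          have h5 : p ^ 2 - 1 = 4 * (k * (k + 1)) := by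
            rw [hk]
            have : (2 * k + 1) ^ 2 = 4 * (k * (k + 1)) + 1 := by ring
            omega
          rw [h5, Nat.mul_div_cancel_left _ (by norm_num), hk]
          have : (2 * k + 1) / 2 = k := by omega
          rw [this]; ring
        obtain ⟨k, hk⟩ : ∃ k, p = 2 * k + 1 := ⟨p / 2, by have := hp.eq_two_or_odd; omega⟩
        have h5 : (p : ℤ) ∣ y ^ (2 * ((Nm π - 1) / 4)) - 1 := by
          rw [h4, pow_mul, ← ZMod.intCast_zmod_eq_zero_iff_dvd]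
          push_cast
          rw [← legendreSym.eq_pow]
          have h7 : legendreSym p y = 1 ∨ legendreSym p y = -1 := by
            rw [jacobiSym.legendreSym.to_jacobiSym]
            exact jacobiSym.eq_one_or_neg_one hgcd
          have h8 : p + 1 = 2 * (k + 1) := by omega
          rcases h7 with h7 | h7 <;> rw [h7, h8, pow_mul] <;> simp
        have h6 : ((p : ℤ) : 𝓞 F) ∣ ((y ^ (2 * ((Nm π - 1) / 4)) - 1 : ℤ) : 𝓞 F) := Int.cast_dvd_cast _ _ h5
        push_cast at h6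
        exact hπp.trans h6
  obtain ⟨j, hj, hj2⟩ := hJ
  rw [hj]
  rw [hi] at h2 ⊢
  rw [← pow_mul] at h2 ⊢
  apply ps_inj hPP
  have h3 := Ideal.sub_mem _ hj2 h2
  have h4 : (y : 𝓞 F) ^ (2 * ((Nm π - 1) / 4)) - I ^ j - ((y : 𝓞 F) ^ (2 * ((Nm π - 1) / 4)) - I ^ (i * 2)) = I ^ (i * 2) - I ^ j := by ring
  rwa [h4] at h3

theorem g7b_ind (h : GI I) {y : ℤ} (s : Multiset (𝓞 F)) : (∀ π ∈ s, Prime π ∧ Pry I π) → (∀ π ∈ s, ¬ π ∣ (y : 𝓞 F)) →
    (s.map fun π => ps 4 I (Ideal.span {π}) (y : 𝓞 F)).prod ^ 2 = ((jacobiSym y (Nm s.prod) : ℤ) : 𝓞 F) := by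
  induction s using Multiset.induction_on with
  | empty =>
    intro _ _
    have : Nm (1 : 𝓞 F) = 1 := by unfold Nm; simp
    simp [this]
  | cons π s ih =>
    intro h1 h2
    rw [Multiset.map_cons, Multiset.prod_cons, Multiset.prod_cons, mul_pow, ih (fun π hπ => h1 π (Multiset.mem_cons_of_mem hπ))
      (fun π hπ => h2 π (Multiset.mem_cons_of_mem hπ)), Nm_mul]
    obtain ⟨hp, hpry⟩ := h1 π (Multiset.mem_cons_self _ _)
    rw [ps_sq h hp (pry_cop h hpry).1 (h2 π (Multiset.mem_cons_self _ _)), jacobiSym.mul_right', Int.cast_mul]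
    · intro h0
      exact hp.ne_zero (H55P.Nm_eq_zero.1 h0)
    · intro h0
      have h3 := H55P.Nm_eq_zero.1 h0
      rw [Multiset.prod_eq_zero_iff] at h3
      exact (h1 0 (Multiset.mem_cons_of_mem h3)).1.ne_zero rfl

/-- Chunk G7B (S/M). pry_factor: product over the primes of s: ps_sq, jacobiSym.mul_right, Nm_mul (multiset induction). -/
theorem pj_sq (h : GI I) {x : 𝓞 F} (hx : Pry I x) {y : ℤ} (hy : IsCoprime x (y : 𝓞 F)) :
    pj 4 I (Ideal.span {x}) (y : 𝓞 F) ^ 2 = ((jacobiSym y (Nm x) : ℤ) : 𝓞 F) := by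
  obtain ⟨s, hs, hxs, hpj⟩ := pry_factor h x hx
  rw [hpj, g7b_ind h s hs, ← hxs]
  intro π hπ hdv
  have h1 : π ∣ x := by rw [hxs]; exact Multiset.dvd_prod hπ
  exact (hs π hπ).1.not_isUnit (hy.isUnit_of_dvd' h1 hdv)

theorem g7c_rec {c : ℤ} (hc : c % 2 = 1) {N : ℕ} (hN : N % 4 = 1) : jacobiSym c N = jacobiSym (N : ℤ) c.natAbs := by
  have ho : Odd c.natAbs := by
    rw [Int.natAbs_odd, Int.odd_iff]; exact hc
  have hNo : Odd N := Nat.odd_iff.2 (by omega)
  have h1 : jacobiSym (c.natAbs : ℤ) N = jacobiSym (N : ℤ) c.natAbs := jacobiSym.quadratic_reciprocity_one_mod_four' ho hN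
  rcases Int.natAbs_eq c with h | h
  · rw [← h1, ← h]
  · rw [← h1]
    conv_lhs => rw [h]
    rw [jacobiSym.neg _ hNo, ZMod.χ₄_nat_one_mod_four hN, one_mul]

/-- Chunk G7C (M). a odd, b divisible by 16, coprime, N = a^2 + b^2 (N = 1 mod 8). jacobiSym a N = 1: if a > 0, quadratic reciprocity with N = 1 mod 4 (jacobiSym.quadratic_reciprocity_one_mod_four and jacobiSym of casts): J(a | N) = J(N | a) = J(b^2 | a) = 1 (jacobiSym.mod_left', jacobiSym.sq_one'; b prime to a); if a < 0: J(-1 | N) = 1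
(jacobiSym.at_neg_one, ZMod.χ₄). J(a + b | N) = J(N | |a+b|) in the same way = J(2 | |a+b|) J(2N | |a+b|), 2N = (a+b)^2 + (a-b)^2, so J(2N | |a+b|) = J((a-b)^2 | |a+b|) = 1 (a - b is prime to a + b: an odd common prime divides 2a and 2b); J(2 | |a+b|): jacobiSym.at_two, ZMod.χ₈ depends on |a + b| modulo 8, and a + b = a mod 8. -/
theorem jac_ab {a b : ℤ} (ha : a % 2 = 1) (hb : b % 16 = 0) (hab : IsCoprime a b) {N : ℕ} (hN : (N : ℤ) = a ^ 2 + b ^ 2) :
    jacobiSym a N = 1 ∧ jacobiSym (a + b) N = if a % 8 = 1 ∨ a % 8 = 7 then 1 else -1 := by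
  obtain ⟨k, hk⟩ : ∃ k, a = 2 * k + 1 := ⟨a / 2, by omega⟩
  obtain ⟨l, hl⟩ : ∃ l, b = 16 * l := ⟨b / 16, by omega⟩
  have hN4 : N % 4 = 1 := by
    have : (N : ℤ) = 4 * (k ^ 2 + k + 64 * l ^ 2) + 1 := by rw [hN, hk, hl]; ring
    omega
  have hgab : Int.gcd a b = 1 := Int.isCoprime_iff_gcd_eq_one.1 hab
  constructor
  · rw [g7c_rec ha hN4, jacobiSym.mod_left' (a₂ := b ^ 2)]
    · apply jacobiSym.sq_one'
      rw [Int.gcd_comm]
      show Nat.gcd ((a.natAbs : ℤ).natAbs) b.natAbs = 1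
      rw [Int.natAbs_natCast]
      exact hgab
    · rw [Int.emod_emod_of_dvd _ dvd_rfl |>.symm]
      apply Int.emod_emod_of_dvd _ dvd_rfl |>.trans
      apply Int.ModEq.eq
      rw [Int.modEq_comm, Int.modEq_iff_dvd, hN]
      have : (a.natAbs : ℤ) ∣ a := Int.natAbs_dvd.2 dvd_rfl
      exact (this.trans (dvd_pow_self a two_ne_zero)).trans ⟨1, by ring⟩
  · have hs : (a + b) % 2 = 1 := by omega
    set m := (a + b).natAbs with hm
    have hmo : Odd m := by
      rw [hm, Int.natAbs_odd, Int.odd_iff]; exact hs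
    have hmd : (m : ℤ) ∣ a + b := Int.natAbs_dvd.2 dvd_rfl
    rw [g7c_rec hs hN4, ← hm]
    have h2m : Int.gcd 2 m = 1 := by
      have := Nat.Coprime.symm (Nat.Coprime.pow_right 1 (Nat.coprime_two_right.2 hmo) : m.Coprime (2 ^ 1))
      simpa [Int.gcd] using this
    have h1 : jacobiSym (2 * (N : ℤ)) m = 1 := by
      rw [jacobiSym.mod_left' (a₂ := (a - b) ^ 2)]
      · apply jacobiSym.sq_one'
        rw [← Int.isCoprime_iff_gcd_eq_one]
        have h3 : IsCoprime (a - b) (a + b) := by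
          obtain ⟨u, v, huv⟩ := hab
          -- 1 is a combination of 2a and 2b up to factor 2; a+b odd
          have h4 : (a - b) * (u - v) + (a + b) * (u + v) = 2 := by linear_combination 2 * huv
          obtain ⟨w, hw⟩ : ∃ w, a + b = 2 * w + 1 := ⟨(a + b) / 2, by omega⟩
          refine ⟨- w * (u - v), 1 - w * (u + v), ?_⟩
          linear_combination (-w) * h4 + hw
        have h5 : IsCoprime (a - b) (m : ℤ) := h3.of_isCoprime_of_dvd_right hmd
        exact h5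
      · apply Int.ModEq.eq
        rw [Int.modEq_comm, Int.modEq_iff_dvd, hN]
        refine (hmd.trans (dvd_pow_self (a + b) two_ne_zero)).trans ⟨1, by ring⟩
    rw [jacobiSym.mul_left] at h1
    have h2 : jacobiSym 2 m = 1 ∨ jacobiSym 2 m = -1 := jacobiSym.eq_one_or_neg_one h2m
    have h6 : jacobiSym (N : ℤ) m = jacobiSym 2 m := by
      rcases h2 with h | h <;> rw [h] at h1 ⊢ <;> linarith
    rw [h6, jacobiSym.at_two hmo, ZMod.χ₈_nat_eq_if_mod_eight]
    have h7 : m % 2 ≠ 0 := by rw [Nat.odd_iff] at hmo; omega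
    rw [if_neg h7]
    have h8 : (m % 8 = 1 ∨ m % 8 = 7) ↔ (a % 8 = 1 ∨ a % 8 = 7) := by
      rw [hm]; omega
    simp only [h8]

end H55W
end

-- from Lib.H55W.G8
section

/-! # H55W, part G: the quartic residue character of a rational integer -/

open NumberField IsDedekindDomain

namespace H55W

open H55P (IQ embF eF Nm)
open H55K (cj)

variable {F : Type} [Field F] [NumberField F] [IQ F] {I : 𝓞 F}

theorem g8_gcd (A B : ℤ) (hA : A % 4 = 1) (hB : B % 16 = 0) : ∃ g a b : ℤ, A = g * a ∧ B = g * b ∧ IsCoprime a b ∧ g % 4 = 1 ∧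
    a % 4 = 1 ∧ b % 16 = 0 := by
  have hA0 : A ≠ 0 := by rintro rfl; omega
  have hg0 : 0 < Int.gcd A B := Int.gcd_pos_of_ne_zero_left _ hA0
  obtain ⟨a, ha⟩ := Int.gcd_dvd_left A B
  obtain ⟨b, hb⟩ := Int.gcd_dvd_right A B
  have hcop : IsCoprime a b := by
    have h1 := Int.isCoprime_iff_gcd_eq_one.2 (Int.gcd_div_gcd_div_gcd hg0)
    have h2 : A / (Int.gcd A B : ℤ) = a := Int.ediv_eq_of_eq_mul_right (by omega) ha
    have h3 : B / (Int.gcd A B : ℤ) = b := Int.ediv_eq_of_eq_mul_right (by omega) hb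
    rwa [h2, h3] at h1
  set G : ℤ := (Int.gcd A B : ℤ) with hG
  have hGo : G % 2 = 1 := by
    by_contra h
    have h1 : G % 2 = 0 := by omega
    obtain ⟨k, hk⟩ : ∃ k, G = 2 * k := ⟨G / 2, by omega⟩
    rw [hk] at ha
    have : A = 2 * (k * a) := by rw [ha]; ring
    omega
  have key : ∀ g : ℤ, (g = G ∨ g = -G) → g % 4 = 1 → ∀ a' b' : ℤ, A = g * a' → B = g * b' → a' % 4 = 1 ∧ b' % 16 = 0 := by
    intro g hg hg4 a' b' h1 h2
    constructor
    · obtain ⟨k, hk⟩ : ∃ k, g = 4 * k + 1 := ⟨g / 4, by omega⟩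
      have : A = 4 * (k * a') + a' := by rw [h1, hk]; ring
      omega
    · have h3 : (16 : ℤ) ∣ g * b' := by rw [← h2]; exact Int.dvd_of_emod_eq_zero hB
      have h4 : IsCoprime (16 : ℤ) g := by
        have h5 : IsCoprime (2 : ℤ) g := by
          obtain ⟨k, hk⟩ : ∃ k, g = 2 * k + 1 := ⟨g / 2, by omega⟩
          exact ⟨-k, 1, by rw [hk]; ring⟩
        have h6 := IsCoprime.pow_left (m := 4) h5
        norm_num at h6
        exact h6
      exact Int.emod_eq_zero_of_dvd (h4.dvd_of_dvd_mul_left h3)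
  have h4 : G % 4 = 1 ∨ G % 4 = 3 := by omega
  rcases h4 with h4 | h4
  · obtain ⟨h5, h6⟩ := key G (Or.inl rfl) h4 a b ha hb
    exact ⟨G, a, b, ha, hb, hcop, h4, h5, h6⟩
  · have h7 : A = (-G) * (-a) := by rw [ha]; ring
    have h8 : B = (-G) * (-b) := by rw [hb]; ring
    obtain ⟨h5, h6⟩ := key (-G) (Or.inr rfl) (by omega) (-a) (-b) h7 h8
    exact ⟨-G, -a, -b, h7, h8, hcop.neg_neg, by omega, h5, h6⟩

omit [IQ F] in
theorem g8_pry (h : GI I) {x : 𝓞 F} (hx : (4 : 𝓞 F) ∣ x - 1) : Pry I x := by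
  refine Dvd.dvd.trans ⟨(1 - I), ?_⟩ hx
  linear_combination (2 : 𝓞 F) * h.sq

/-- Chunk G8A (M). x = a + b I, a = 1 mod 16, b = 0 mod 16 (GI.rep for (x-1)/16). g = gcd(a, b), odd, with the sign such that g = 1 mod 4: a = g a', b = g b', a', b' coprime, a' = 1 mod 4, b' divisible by 16; y = a' + b' I, x = g y. pj (span {x}) 2 = pj (span {g}) 2 * pj (span {y}) 2 (pj_mul_left), the first is 1 (rat_rat).
y is primary (y - 1 is divisible by 4). Modulo y: b' ≡ a' I, so (a' + b')^2 ≡ a'^2 (1 + I)^2 = 2 I a'^2: pj_congr, pj_mul for J = span {y}: pj(a'+b')^2 = pj 2 * pj I * pj(a')^2. The squares are Jacobi symbols (pj_sq, N = Nm y = a'^2 + b'^2 (gi_nm); a', a' + b' are prime to y: prime to N; IsCoprime of integers maps to 𝓞 F, y divides N) given by jac_ab.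
pj I = I^((N-1)/4) (pj_zeta; absNorm (span {y}) = Nm y): a' = 1, 7 mod 8: N = 1 mod 16, pj I = 1 and jac_ab = 1; a' = 3, 5 mod 8: N = 9 mod 16, pj I = I^2 = -1 (I^4 = 1) and jac_ab = -1. So pj 2 = 1. -/
theorem one_two (h : GI I) {x : 𝓞 F} (hx : (16 : 𝓞 F) ∣ x - 1) : pj 4 I (Ideal.span {x}) 2 = 1 := by
  obtain ⟨z, hz⟩ := hx
  obtain ⟨c, d, hcd⟩ := h.rep z
  obtain ⟨g, a, b, hA, hB, hab, hg, ha, hb⟩ := g8_gcd (1 + 16 * c) (16 * d) (by omega) (by omega)
  set y : 𝓞 F := (a : 𝓞 F) + (b : 𝓞 F) * I with hy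
  have hxy : x = (g : 𝓞 F) * y := by
    have h1 : ((1 + 16 * c : ℤ) : 𝓞 F) = ((g * a : ℤ) : 𝓞 F) := by rw [hA]
    have h2 : ((16 * d : ℤ) : 𝓞 F) = ((g * b : ℤ) : 𝓞 F) := by rw [hB]
    push_cast at h1 h2
    rw [hy]
    rw [hcd] at hz
    linear_combination hz + h1 + I * h2
  obtain ⟨a1, ha1⟩ : ∃ a1, a = 4 * a1 + 1 := ⟨a / 4, by omega⟩
  obtain ⟨b1, hb1⟩ : ∃ b1, b = 16 * b1 := ⟨b / 16, by omega⟩
  have hypry : Pry I y := by
    apply g8_pry h
    refine ⟨(a1 : 𝓞 F) + 4 * (b1 : 𝓞 F) * I, ?_⟩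
    rw [hy, ha1, hb1]; push_cast; ring
  obtain ⟨-, -, hPJ⟩ := pry_cop h hypry
  have hy0 : y ≠ 0 := by
    intro h0
    apply hPJ.ne
    rw [h0]; simp
  have hg0 : (g : 𝓞 F) ≠ 0 := by
    intro h0
    have : g = 0 := by exact_mod_cast h0
    omega
  have h1 : pj 4 I (Ideal.span {x}) 2 = pj 4 I (Ideal.span {y}) 2 := by
    rw [hxy, ← Ideal.span_singleton_mul_span_singleton, pj_mul_left (by rwa [Ne, Ideal.span_singleton_eq_bot]) (by rwa [Ne, Ideal.span_singleton_eq_bot])]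
    have h2 : pj 4 I (Ideal.span {(g : 𝓞 F)}) ((2 : ℤ) : 𝓞 F) = 1 := by
      apply rat_rat h (by omega)
      obtain ⟨k, hk⟩ : ∃ k, g = 2 * k + 1 := ⟨g / 2, by omega⟩
      exact ⟨-k, 1, by rw [hk]; ring⟩
    rw [Int.cast_ofNat] at h2
    rw [h2, one_mul]
  rw [h1]
  have hNm : ((Nm y : ℕ) : ℤ) = a ^ 2 + b ^ 2 := gi_nm h a b
  have hyN : y ∣ ((a ^ 2 + b ^ 2 : ℤ) : 𝓞 F) := by
    refine ⟨(a : 𝓞 F) - (b : 𝓞 F) * I, ?_⟩
    rw [hy]; push_cast
    linear_combination (b : 𝓞 F) ^ 2 * h.sq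
  have hca : IsCoprime y (a : 𝓞 F) := by
    have h2 : IsCoprime (a ^ 2 + b ^ 2) a := by
      have h3 : IsCoprime (b ^ 2) a := (IsCoprime.pow_right (n := 2) hab).symm
      have h4 : a ^ 2 + b ^ 2 = b ^ 2 + a * a := by ring
      rw [h4]
      exact IsCoprime.add_mul_left_left h3 a
    have h3 := h2.map (Int.castRingHom (𝓞 F))
    exact h3.of_isCoprime_of_dvd_left hyN
  have hcb : IsCoprime y ((a + b : ℤ) : 𝓞 F) := by
    have h2 : IsCoprime (a ^ 2 + b ^ 2) (a + b) := by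
      have h3 : IsCoprime (2 : ℤ) (a + b) := ⟨-(2 * a1 + 8 * b1), 1, by rw [ha1, hb1]; ring⟩
      have h5 : IsCoprime a (a + b) := by
        have := IsCoprime.add_mul_left_right hab 1
        rwa [mul_one, add_comm] at this
      have h6 : IsCoprime (2 * a ^ 2) (a + b) := h3.mul_left (IsCoprime.pow_left h5)
      have h4 : a ^ 2 + b ^ 2 = 2 * a ^ 2 + (a + b) * (b - a) := by ring
      rw [h4]
      exact IsCoprime.add_mul_left_left h6 _
    have h3 := h2.map (Int.castRingHom (𝓞 F))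
    exact h3.of_isCoprime_of_dvd_left hyN
  have h2 : pj 4 I (Ideal.span {y}) (((a + b : ℤ) : 𝓞 F) * ((a + b : ℤ) : 𝓞 F)) =
      pj 4 I (Ideal.span {y}) (2 * I * ((a : 𝓞 F) * (a : 𝓞 F))) := by
    apply pj_congr hPJ
    rw [Ideal.mem_span_singleton]
    refine ⟨-I * (((a : 𝓞 F) + (b : 𝓞 F)) + (a : 𝓞 F) * (1 + I)), ?_⟩
    rw [hy]; push_cast
    linear_combination (2 * (a : 𝓞 F) ^ 2 - (a : 𝓞 F) ^ 2 + (a : 𝓞 F) * (a + b + a * (1 + I)) - 0 + (b : 𝓞 F) * (a + b + a * (1 + I)) - (a : 𝓞 F) * (a + b + a * (1 + I))) * h.sq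
  rw [pj_mul hPJ, pj_mul hPJ, pj_mul hPJ, pj_mul hPJ, ← sq, ← sq, pj_sq h hypry hcb, pj_sq h hypry hca] at h2
  obtain ⟨hj1, hj2⟩ := jac_ab (a := a) (b := b) (by omega) hb hab hNm
  rw [hj1, hj2] at h2
  have h3 : pj 4 I (Ideal.span {y}) I = I ^ ((Nm y - 1) / 4) := (pj_zeta hPJ).2
  rcases (by omega : a % 8 = 1 ∨ a % 8 = 5) with h8 | h8
  · obtain ⟨k, hk⟩ : ∃ k, a = 8 * k + 1 := ⟨a / 8, by omega⟩
    have h9 : ((Nm y : ℕ) : ℤ) = 16 * (4 * k ^ 2 + k + 16 * b1 ^ 2) + 1 := by rw [hNm, hk, hb1]; ring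
    obtain ⟨j, hj⟩ : ∃ j, Nm y = 16 * j + 1 := ⟨Nm y / 16, by omega⟩
    have h10 : (Nm y - 1) / 4 = 4 * j := by omega
    rw [h10, pow_mul, (gi_root h).pow_eq_one, one_pow] at h3
    rw [h3, if_pos (Or.inl h8)] at h2
    simpa using h2.symm
  · obtain ⟨k, hk⟩ : ∃ k, a = 8 * k + 5 := ⟨a / 8, by omega⟩
    have h9 : ((Nm y : ℕ) : ℤ) = 16 * (4 * k ^ 2 + 5 * k + 1 + 16 * b1 ^ 2) + 9 := by rw [hNm, hk, hb1]; ring
    obtain ⟨j, hj⟩ : ∃ j, Nm y = 16 * j + 9 := ⟨Nm y / 16, by omega⟩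
    have h10 : (Nm y - 1) / 4 = 4 * j + 2 := by omega
    rw [h10, pow_add, pow_mul, (gi_root h).pow_eq_one, one_pow, one_mul, h.sq] at h3
    rw [h3, if_neg (by omega)] at h2
    simp only [Int.cast_neg, Int.cast_one, mul_one, mul_neg, neg_inj] at h2
    exact h2.symm

theorem g8_ind (h : GI I) (N : ℕ) : ∀ n : ℤ, n.natAbs = N → n ≠ 0 → ∀ x : 𝓞 F, ((16 * n : ℤ) : 𝓞 F) ∣ x - 1 →
    pj 4 I (Ideal.span {x}) (n : 𝓞 F) = 1 := by
  induction N using Nat.strong_induction_on with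
  | _ N ih =>
  intro n hN hn x hx
  have hx16 : (16 : 𝓞 F) ∣ x - 1 := by
    refine Dvd.dvd.trans ⟨(n : 𝓞 F), ?_⟩ hx
    push_cast; ring
  have hpry : Pry I x := g8_pry h (Dvd.dvd.trans ⟨4, by norm_num⟩ hx16)
  obtain ⟨-, -, hPJ⟩ := pry_cop h hpry
  by_cases h1 : n.natAbs = 1
  · rcases Int.natAbs_eq n with h2 | h2 <;> rw [h1] at h2 <;> subst h2
    · rw [Nat.cast_one, Int.cast_one]; exact pj_one hPJ
    · rw [Nat.cast_one, Int.cast_neg, Int.cast_one]
      exact (one_neg h (Dvd.dvd.trans ⟨2, by norm_num⟩ hx16)).2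
  · obtain ⟨q, hq, hqn⟩ := Nat.exists_prime_and_dvd h1
    have key : ∀ q' : ℤ, q'.natAbs = q → pj 4 I (Ideal.span {x}) (q' : 𝓞 F) = 1 →
        pj 4 I (Ideal.span {x}) (n : 𝓞 F) = 1 := by
      intro q' hq' h2
      have h3 : q' ∣ n := by rw [← Int.natAbs_dvd_natAbs, hq']; exact hqn
      obtain ⟨n', hn'⟩ := h3
      have h4 : n' ≠ 0 := by rintro rfl; apply hn; rw [hn']; ring
      have h5 : n'.natAbs < N := by
        rw [← hN, hn', Int.natAbs_mul, hq']
        have := hq.two_le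
        have h6 : 0 < n'.natAbs := Int.natAbs_pos.2 h4
        nlinarith
      have h6 := ih n'.natAbs h5 n' rfl h4 x (by
        refine Dvd.dvd.trans ⟨(q' : 𝓞 F), ?_⟩ hx
        rw [hn']; push_cast; ring)
      rw [hn', Int.cast_mul, pj_mul hPJ, h2, h6, one_mul]
    by_cases hq2 : q = 2
    · subst hq2
      apply key 2 rfl
      rw [Int.cast_ofNat]
      exact one_two h hx16
    · have hodd : q % 2 = 1 := by rcases hq.eq_two_or_odd with h | h; exact absurd h hq2; exact h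
      have hdv : ∀ q' : ℤ, q'.natAbs = q → (q' : 𝓞 F) ∣ x - 1 := by
        intro q' hq'
        have h3 : q' ∣ n := by rw [← Int.natAbs_dvd_natAbs, hq']; exact hqn
        have h4 : q' ∣ 16 * n := h3.mul_left _
        exact (Int.cast_dvd_cast (α := 𝓞 F) _ _ h4).trans hx
      rcases (by omega : q % 4 = 1 ∨ q % 4 = 3) with h4 | h4
      · apply key q (Int.natAbs_natCast q)
        exact one_of_prime h hq hq2 (n := (q : ℤ)) (Int.natAbs_natCast q) (by omega) hpry (hdv _ (Int.natAbs_natCast q))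
      · apply key (-q) (by simp)
        exact one_of_prime h hq hq2 (n := -(q : ℤ)) (by simp) (by omega) hpry (hdv _ (by simp))

/-- Chunk G8B (S/M). Strong induction on n.natAbs. n = 1: pj_one; n = -1: one_neg. Otherwise a prime number q divides n. q = 2: n = 2 n', one_two. q odd: q' = q or -q with q' % 4 = 1, n = q' n', one_of_prime. pj_mul; 16 n' divides 16 n. -/
theorem one_all (h : GI I) {n : ℤ} (hn : n ≠ 0) {x : 𝓞 F} (hx : ((16 * n : ℤ) : 𝓞 F) ∣ x - 1) : pj 4 I (Ideal.span {x}) (n : 𝓞 F) = 1 := by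
  exact g8_ind h _ n rfl hn x hx

/-- Chunk G8B (S). prc_of with m = 4, k = 16 n, j = 2 (16 n divides (4n)^2), one_all. -/
theorem quart (h : GI I) {n : ℤ} (hn : n ≠ 0) : ∃ κ : 𝓞 F → 𝓞 F, PRC (𝓞 F) 4 n (4 * n) (16 * n) κ := by
  have h1 := prc_of (m := 4) (gi_root h) (by norm_num) (n := n) (k := 16 * n) hn (j := 2) ⟨n, by push_cast; ring⟩ ⟨4, by push_cast; ring⟩
      (fun x hx => one_all h hn hx)
  exact ⟨fun x => pj 4 I (Ideal.span {x}) (n : 𝓞 F), by exact_mod_cast h1⟩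

end H55W
end

-- from Lib.H55W.F4
section

/-! # H55W, part F: the function defining the Hecke character, discriminants -4 and -8 -/

open NumberField IsDedekindDomain

namespace H55W

open H55P (IQ embF eF Nm)
open H55K (cj)

variable {F : Type} [Field F] [NumberField F] [IQ F] {I : 𝓞 F}

omit [NumberField F] [IQ F] in
theorem f4_cop {x : 𝓞 F} {D : ℤ} {c : 𝓞 F} {j : ℕ} (hc : c ∣ ((D : ℤ) : 𝓞 F) ^ j)
    (hx : IsCoprime (Ideal.span {x}) (Ideal.span {((D : ℤ) : 𝓞 F) ^ 3})) : IsCoprime x c := by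
  rw [Ideal.isCoprime_span_singleton_iff] at hx
  have h1 : IsCoprime x ((D : ℤ) : 𝓞 F) := (IsCoprime.pow_right_iff (by norm_num)).1 hx
  exact (h1.pow_right (n := j)).of_isCoprime_of_dvd_right hc

omit [IQ F] in
theorem f4_pc {γ a : 𝓞 F} (hγ : Prime γ) (h : ¬ γ ∣ a) : IsCoprime γ a := by
  have hp : (Ideal.span {γ}).IsPrime := (Ideal.span_singleton_prime hγ.ne_zero).2 hγ
  have hm : (Ideal.span {γ}).IsMaximal := hp.isMaximal (by
    rw [Ne, Ideal.span_singleton_eq_bot]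
    exact hγ.ne_zero)
  obtain ⟨y, i, hi, hyi⟩ := hm.exists_inv (x := a) (by rwa [Ideal.mem_span_singleton])
  obtain ⟨z, rfl⟩ := Ideal.mem_span_singleton.1 hi
  exact ⟨z, y, by rw [← hyi]; ring⟩

omit [NumberField F] [IQ F] in
theorem f4_uc {u c : 𝓞 F} (hu : IsUnit u) : IsCoprime u c := by
  obtain ⟨v, hv⟩ := hu.exists_left_inv
  exact ⟨v, 0, by rw [hv]; ring⟩

omit [NumberField F] [IQ F] in
theorem f4_diff {z z' : 𝓞 F} (hz : z ^ 4 = 1) (hz' : z' ^ 4 = 1) (hne : z ≠ z') : z - z' ∣ 2 := by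
  have h1 : (z - z') * ((z + z') * (z ^ 2 + z' ^ 2)) = 0 := by linear_combination hz - hz'
  rcases mul_eq_zero.1 ((mul_eq_zero.1 h1).resolve_left (sub_ne_zero.2 hne)) with h2 | h2
  · refine ⟨z ^ 3, ?_⟩
    linear_combination (-2) * hz + z ^ 3 * h2
  · refine ⟨-((z - z') * z ^ 3 * z' ^ 3), ?_⟩
    linear_combination (-2) * z' ^ 4 * hz - 2 * hz' + z ^ 3 * z' ^ 3 * h2

/-- Chunk F4 (M). pr from exists_pr (n0 = 2 + 2I: x prime to 2 + 2I is not divisible by 1 + I: gi_exists; gi_unit, gi_uniq), κ from quart for n = -δ (c = 4 (-δ), k = 16 (-δ)). f x = pr x * (κ x)^3. D = δ^3, δ even: x prime to M is prime to δ, to 2, to 2 + 2I (divides 4) and to 4δ (Ideal.isCoprime_span_singleton_iff; 4δ divides D^3); elements of M are divisible by D^3 = δ^9, so by 16 δ and 2 + 2I.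
un: κ^4 = 1. The last statement: γ a prime, N = Nm γ (nm_card): pr γ = ζ (ζ γ ≡ 1 mod 2 + 2I), κ γ = ζ: γ divides (-δ)^((N-1)/4) - κ γ (PRC.euler: γ does not divide 4δ, 4, because 2 divides δ) and (-δ)^((N-1)/4) - ζ; κ γ and ζ are powers of I (κ^4 = 1: (κ^2 - 1)(κ^2 + 1) = 0), differences of different ones divide 2: κ γ = ζ. f γ = ζ ζ^3 = 1. -/
theorem exists_f4 (hI : GI I) {δ : ℤ} (h0 : δ ≠ 0) (h2 : δ % 2 = 0) {D : ℤ} (hD : D = δ ^ 3) :
    ∃ f : 𝓞 F → 𝓞 F, HF (Ideal.span {((D : ℤ) : 𝓞 F) ^ 3}) f ∧ ∀ γ ζ : 𝓞 F, Prime γ → ¬ γ ∣ ((D : ℤ) : 𝓞 F) → 2 + 2 * I ∣ γ * ζ - 1 →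
      (∃ i : ℕ, ζ = I ^ i) → γ ∣ (-(δ : 𝓞 F)) ^ ((Nm γ - 1) / 4) - ζ → f γ = 1 := by
  obtain ⟨m, rfl⟩ : ∃ m, δ = 2 * m := ⟨δ / 2, by omega⟩
  have hDc : ((D : ℤ) : 𝓞 F) = 8 * (m : 𝓞 F) ^ 3 := by rw [hD]; push_cast; ring
  have hI4 : I ^ 4 = 1 := g0_pow4 hI
  have hIu : ∀ i : ℕ, IsUnit (I ^ i) := by
    intro i
    refine IsUnit.pow i (IsUnit.of_mul_eq_one (I ^ 3) ?_)
    rw [← hI4]
    ring
  have hnu : ¬ IsUnit (1 + I) := by
    intro hu
    have h1 := g0_nm_unit hu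
    rw [g0_nm11 hI] at h1
    norm_num at h1
  have hex : ∀ x : 𝓞 F, IsCoprime x (2 + 2 * I) → ∃ u, IsUnit u ∧ 2 + 2 * I ∣ u * x - 1 := by
    intro x hx
    obtain ⟨i, hi⟩ := gi_exists hI (x := x) (by
      intro hd
      exact hnu (hx.isUnit_of_dvd' hd ⟨2, by ring⟩))
    exact ⟨I ^ i, hIu i, hi⟩
  have huniq : ∀ u : 𝓞 F, IsUnit u → 2 + 2 * I ∣ u - 1 → u = 1 := by
    intro u hu hd
    obtain ⟨i, rfl⟩ := gi_unit hI hu
    exact gi_uniq hI hd
  obtain ⟨pr, p1, p2, p3, p4, p5⟩ := exists_pr (2 + 2 * I) hex huniq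
  obtain ⟨κ, hκ⟩ := quart hI (n := -(2 * m)) (neg_ne_zero.2 h0)
  -- coprimality
  have c1 : ((4 * -(2 * m) : ℤ) : 𝓞 F) ∣ ((D : ℤ) : 𝓞 F) ^ 1 := by
    rw [hDc]
    exact ⟨-(m : 𝓞 F) ^ 2, by push_cast; ring⟩
  have d2 : (2 : 𝓞 F) ∣ ((D : ℤ) : 𝓞 F) ^ 1 := by
    rw [hDc]
    exact ⟨4 * (m : 𝓞 F) ^ 3, by ring⟩
  have d4 : (2 + 2 * I : 𝓞 F) ∣ 4 := ⟨1 - I, by linear_combination 2 * hI.sq⟩
  have c2 : (2 + 2 * I : 𝓞 F) ∣ ((D : ℤ) : 𝓞 F) ^ 1 := d4.trans (by
    rw [hDc]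
    exact ⟨2 * (m : 𝓞 F) ^ 3, by ring⟩)
  have k1 : ∀ z : 𝓞 F, z ∈ Ideal.span {((D : ℤ) : 𝓞 F) ^ 3} → (2 + 2 * I : 𝓞 F) ∣ z ∧ ((16 * -(2 * m) : ℤ) : 𝓞 F) ∣ z := by
    intro z hz
    rw [Ideal.mem_span_singleton] at hz
    constructor
    · refine dvd_trans (d4.trans ?_) hz
      rw [hDc]
      exact ⟨128 * (m : 𝓞 F) ^ 9, by ring⟩
    · refine dvd_trans ?_ hz
      rw [hDc]
      exact ⟨-(16 * (m : 𝓞 F) ^ 8), by push_cast; ring⟩
  have ku : ∀ x : 𝓞 F, IsCoprime x ((4 * -(2 * m) : ℤ) : 𝓞 F) → IsUnit (κ x) := by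
    intro x hx
    refine IsUnit.of_mul_eq_one (κ x ^ 3) ?_
    rw [← hκ.root x hx]
    ring
  refine ⟨fun x => pr x * κ x ^ 3, ⟨?_, ?_, ?_, ?_⟩, ?_⟩
  · intro x hx
    exact (p1 x (f4_cop c2 hx)).1.mul ((ku x (f4_cop c1 hx)).pow 3)
  · intro x y hx hy
    show pr (x * y) * κ (x * y) ^ 3 = pr x * κ x ^ 3 * (pr y * κ y ^ 3)
    rw [p2 x y (f4_cop c2 hx) (f4_cop c2 hy), hκ.mul x y (f4_cop c1 hx) (f4_cop c1 hy)]
    ring
  · intro u x hu hx
    show pr (u * x) * κ (u * x) ^ 3 * u = pr x * κ x ^ 3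
    have g1 : κ (u * x) = κ x := by
      rw [hκ.mul u x (f4_uc hu) (f4_cop c1 hx), hκ.unit u hu, one_mul]
    rw [g1, ← p3 u x hu (f4_cop c2 hx)]
    ring
  · intro x y hx hy hxy
    show pr x * κ x ^ 3 = pr y * κ y ^ 3
    obtain ⟨g1, g2⟩ := k1 _ hxy
    rw [p4 x y (f4_cop c2 hx) (f4_cop c2 hy) g1, hκ.per x y (f4_cop c1 hx) (f4_cop c1 hy) g2]
  · rintro γ _ hγ hγD h1 ⟨i, rfl⟩ h2'
    show pr γ * κ γ ^ 3 = 1
    have gD : IsCoprime γ (((D : ℤ) : 𝓞 F) ^ 1) := f4_pc hγ (by rwa [pow_one])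
    have g2 : ¬ γ ∣ 2 := fun h => hγD (by rw [← pow_one ((D : ℤ) : 𝓞 F)]; exact h.trans d2)
    have g4 : ¬ γ ∣ 4 := by
      intro h
      have e : (4 : 𝓞 F) = 2 * 2 := by norm_num
      rw [e] at h
      rcases hγ.dvd_or_dvd h with h | h <;> exact g2 h
    have gc : ¬ γ ∣ ((4 * -(2 * m) : ℤ) : 𝓞 F) := fun h => hγD (by rw [← pow_one ((D : ℤ) : 𝓞 F)]; exact h.trans c1)
    have hp : pr γ = I ^ i := p5 (I ^ i) γ (hIu i) (gD.of_isCoprime_of_dvd_right c2) (by rw [mul_comm (I ^ i) γ]; exact h1)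
    have hk := hκ.euler γ hγ gc (by rw [Nat.cast_ofNat]; exact g4)
    rw [nm_card] at hk
    have hd : γ ∣ κ γ - I ^ i := by
      have := dvd_sub h2' hk
      have e : ((-((2 * m : ℤ) : 𝓞 F)) ^ ((Nm γ - 1) / 4) - I ^ i) - (((-(2 * m) : ℤ) : 𝓞 F) ^ ((Nm γ - 1) / 4) - κ γ) = κ γ - I ^ i := by
        push_cast
        ring
      rwa [e] at this
    have hz : (I ^ i) ^ 4 = 1 := by rw [← pow_mul, mul_comm, pow_mul, hI4, one_pow]
    have hk1 : κ γ = I ^ i := by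
      by_contra hne
      exact g2 (hd.trans (f4_diff (hκ.root γ (gD.of_isCoprime_of_dvd_right c1)) hz hne))
    rw [hp, hk1, ← hz]
    ring

end H55W
end
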