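import Mathlib
import Pool.Agent.Lib.H1M.PP2.M023
import Pool.Agent.Lib.H1M.PP2.M054

open NumberField IsDedekindDomain

namespace H55P

open H55N
open H55B (F O om e emb Prim R A0_im_ne)

/-! Definitions for the curve y^2 + y = x^3: the field F of cube roots of unity, the Hecke character, the period. -/

theorem ze_rank : Module.finrank ℚ F = 2 := by
  have h := IsCyclotomicExtension.finrank (n := 3) F
    (Polynomial.cyclotomic.irreducible_rat (by norm_num))
  rw [h]
  decide

/-- The field of cube roots of unity with the complex embedding of H55B. -/
noncomputable instance iqE : IQ F where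
  emb := emb
  deg := ze_rank
  im := ⟨((om : O) : F), A0_im_ne⟩
  pid := inferInstance

end H55P
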