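import Mathlib
import Pool.Agent.Lib.H1M.PP2.D_H55K_D2
import Pool.Agent.Lib.H1M.PP2.D_H55K_RD
import Pool.Agent.Lib.H1M.PP2.D_H55P_Stm
import Pool.Agent.Lib.H1M.PP2.D_H55P_Z10
import Pool.Agent.Lib.H1M.PP2.D_H55P_ZD
import Pool.Agent.Lib.H1M.PP2.M006
import Pool.Agent.Lib.H1M.PP2.M007
import Pool.Agent.Lib.H1M.PP2.M010
import Pool.Agent.Lib.H1M.PP2.M016
import Pool.Agent.Lib.H1M.PP2.M019
import Pool.Agent.Lib.H1M.PP2.M020
import Pool.Agent.Lib.H1M.PP2.M023
import Pool.Agent.Lib.H1M.PP2.M031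
import Pool.Agent.Lib.H1M.PP2.M032
import Pool.Agent.Lib.H1M.PP2.M039
import Pool.Agent.Lib.H1M.PP2.M040
import Pool.Agent.Lib.H1M.PP2.M041
import Pool.Agent.Lib.H1M.PP2.M046
import Pool.Agent.Lib.H1M.PP2.M047
import Pool.Agent.Lib.H1M.PP2.M048
import Pool.Agent.Lib.H1M.PP2.M049
import Pool.Agent.Lib.H1M.PP2.M050
import Pool.Agent.Lib.H1M.PP2.M051
import Pool.Agent.Lib.H1M.PP2.M054
import Pool.Agent.Lib.H1M.PP2.M063
import Pool.Agent.Lib.H1M.PP2.M069
import Pool.Agent.Lib.H1M.PP2.M073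
import Pool.Agent.Lib.H1M.PP2.M074
import Pool.Agent.Lib.H1M.PP2.M086

/-! Merged copies (to shorten the build) of Lib.H55B.I4, Lib.H55N.H7, Lib.H55N.H8, Lib.H55P.ZD_T, Lib.H55P.Z6, Lib.H55K.T9A, Lib.H55K.T9B, Lib.H55K.T9C, Lib.H55K.D7, Lib.H55K.DM, Lib.H55P.Z13, Lib.H55K.FB3A, Lib.H55D.QA, Lib.H55P.Z3, Lib.H55K.RA2, Lib.H55K.RE, Lib.H55K.RP3, Lib.H55K.G5C, Lib.H55K.G5D, Lib.H55K.G5E, Lib.H55K.G7C, Lib.H55K.G7D, Lib.H55K.T6A, Lib.H55K.T6B, Lib.H55K.T7B, Lib.H55K.T8. -/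

-- from Lib.H55B.I4
section

open NumberField IsDedekindDomain

namespace H55B


lemma I4_conj {f : ℂ → ℂ} (hf : AnalyticOnNhd ℂ f {s | 1 / 2 < s.re}) :
    AnalyticOnNhd ℂ (fun s => (starRingEnd ℂ) (f ((starRingEnd ℂ) s))) {s | 1 / 2 < s.re} := by
  have ho : IsOpen {s : ℂ | 1 / 2 < s.re} := isOpen_lt continuous_const Complex.continuous_re
  apply DifferentiableOn.analyticOnNhd _ ho
  intro s hs
  have hs' : (starRingEnd ℂ) s ∈ {s : ℂ | 1 / 2 < s.re} := by
    simpa using hs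
  have := (hf _ hs').differentiableAt.conj_conj
  rw [Complex.conj_conj] at this
  exact this.differentiableWithinAt


variable {K : Type*} [Field K] [NumberField K] [Algebra F K]


end H55B
end

-- from Lib.H55N.H7
section

open NumberField IsDedekindDomain

namespace H55N

open H55B H55C


theorem H7_ps : ((1 - PowerSeries.C (0 : ℂ) * PowerSeries.X : PowerSeries ℂ)⁻¹) = 1 := by
  rw [map_zero, zero_mul, sub_zero]
  exact (PowerSeries.eq_inv_iff_mul_eq_one (by simp)).2 (by rw [one_mul]) |>.symm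




end H55N
end

-- from Lib.H55N.H8
section

open NumberField IsDedekindDomain

namespace H55N

open H55B H55C

theorem H8_tm {K : Type} [Field K] [NumberField K] (h : Ideal (𝓞 K) → ℂ) (z : ℂ)
    (a : Ideal (𝓞 K)) :
    tm (fun a => (starRingEnd ℂ) (h a)) z a = (starRingEnd ℂ) (tm h ((starRingEnd ℂ) z) a) := by
  unfold tm
  rw [map_mul]
  congr 1
  rw [← map_neg]
  have h1 : Complex.arg ((Ideal.absNorm a : ℕ) : ℂ) ≠ Real.pi := by
    rw [Complex.natCast_arg]
    exact Real.pi_ne_zero.symm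
  have h2 := Complex.cpow_conj ((Ideal.absNorm a : ℕ) : ℂ) (-z) h1
  rw [Complex.conj_natCast] at h2
  rw [h2, Complex.conj_conj]


end H55N
end

-- from Lib.H55P.ZD_T
section

open NumberField IsDedekindDomain

namespace H55P

open H55N
open H55B (F O om e emb Prim R A0_im_ne)



/-- The Hecke character of y^2 + y = x^3: the generator congruent to 1 modulo 3. -/
noncomputable def psiE : Ideal O →*₀ O where
  toFun J := pg J
  map_zero' := by
    have : ¬ ∃ x : O, (0 : Ideal O) = Ideal.span {x} ∧ Prim x := by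
      rintro ⟨x, hx, hp⟩
      exact hp.ne_zero (Ideal.span_singleton_eq_bot.1 hx.symm)
    exact pg_of_not this
  map_one' := by
    have : (1 : Ideal O) = Ideal.span {1} := by simp
    rw [this, pg_span H55B.prim_one]
  map_mul' J J' := pg_mul J J'

theorem psiE_apply (J : Ideal O) : psiE J = pg J := rfl

/-- The modulus 3. -/
noncomputable def m3 : Ideal O := Ideal.span {3}

/-- A period: the lattice of y^2 = 4 x^3 + 1 is OmE times O. -/
noncomputable def OmE : ℂ := e (2 * om + 1) * R0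


end H55P
end

-- from Lib.H55P.Z6
section

open NumberField IsDedekindDomain WeierstrassCurve

namespace H55P

open H55N
open H55B (F O om e emb Prim R E27)

/-! Chunk PZ6 (M). The L-function of y^2 + y = x^3 over K containing F, unramified over F at the primes above 3 (H35N.Unr3).
val_threeU: PORT of val_three (Lib/H55C/B0.lean) with val_lam3 (Lib/H35N/U3.lean; lam = om - 1) in place of val_lam. LFunctionU: PORT of LFunction_Psi (Lib/H55N/H7.lean): hU is only used through val_three.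
L_valU: PORT of L_valN (Lib/H55N/H8.lean). LVP at V gives a function Λ_V; for a fixed V₀ above p (exists: hex) take Λ = Λ_(V₀); for the other V: Λ_V 1 = Λ 1 by the identity theorem on the connected half plane (see glue, ident in Lib/H55N/TW1.lean; AnalyticOnNhd.eqOn_of_preconnected_of_eventuallyEq). The valuation
of conj z at V is the valuation of z at the conjugate of V (V.comap (starRingEnd ℂ), also above p). exists_above_p: a valuation ring of ℂ above p: (H55B or H55C have a similar lemma; LocalSubring.exists_le_valuationSubring or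
exists_factor_valuationRing for the localisation of the algebraic integers / for ℤ_(p)). -/

theorem exists_above_p (p : ℕ) (hp : p.Prime) : ∃ V : ValuationSubring ℂ, V.valuation (p : ℂ) < 1 := by
  let A : Subring ℂ := (Int.castRingHom ℂ).range
  have h2A : (p : ℂ) ∈ A := ⟨p, by simp⟩
  let t : A := ⟨p, h2A⟩
  have hI : Ideal.span {t} ≠ ⊤ := by
    intro h
    have h1 : (1 : A) ∈ Ideal.span {t} := by rw [h]; trivial
    rw [Ideal.mem_span_singleton] at h1
    obtain ⟨⟨c, ⟨n, hn⟩⟩, hc⟩ := h1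
    have h3 : (1 : ℂ) = (p : ℂ) * c := congrArg Subtype.val hc
    rw [← hn] at h3
    simp only [eq_intCast] at h3
    have h4 : (1 : ℤ) = (p : ℤ) * n := by exact_mod_cast h3
    have h5 : (p : ℤ) ∣ 1 := ⟨n, h4⟩
    have h6 : (p : ℤ) ≤ 1 := Int.le_of_dvd one_pos h5
    have h7 := hp.two_le
    omega
  obtain ⟨B, -, hB⟩ := Ideal.image_subset_nonunits_valuationSubring (Ideal.span {t}) hI
  refine ⟨B, ?_⟩
  rw [← ValuationSubring.mem_nonunits_iff]
  exact hB ⟨t, Ideal.mem_span_singleton_self t, rfl⟩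




/-- the value of the conjugate -/
theorem pz6_conj {p : ℕ} (hp : p.Prime) {x : ℂ} (hx0 : x ≠ 0) (hx : UnitP p x) :
    UnitP p ((starRingEnd ℂ) x) := by
  intro A hA
  have h2 : (p : ℂ) ≠ 0 := Nat.cast_ne_zero.2 hp.ne_zero
  set B : ValuationSubring ℂ := A.comap (starRingEnd ℂ) with hB
  have hmem : ∀ z : ℂ, z ∈ B ↔ (starRingEnd ℂ) z ∈ A := fun z => Iff.rfl
  have hB2 : B.valuation (p : ℂ) < 1 := by
    rw [H55C.B9_lt B h2, hmem, map_inv₀, map_natCast, ← H55C.B9_lt A h2]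
    exact hA
  have h3 := (H55C.B9_eq B hx0).1 (hx B hB2)
  rw [hmem, hmem, map_inv₀] at h3
  exact (H55C.B9_eq A ((map_ne_zero (starRingEnd ℂ)).2 hx0)).2 h3

theorem pz6_ne {p : ℕ} (hp : p.Prime) {x : ℂ} (hx : UnitP p x) : x ≠ 0 := by
  obtain ⟨A, hA⟩ := exists_above_p p hp
  intro h
  have h1 := hx A hA
  rw [h, map_zero] at h1
  exact zero_ne_one h1



end H55P
end

-- from Lib.H55K.T9A
section

/-! # H55K: good reduction over a subfield and valuation rings of the algebraic closure -/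

open NumberField IsDedekindDomain WeierstrassCurve

namespace H55K.TQ

open H55P (IQ embF eF LF Per IsHecke Pt ac Inert Dec Nm UnitP)
open H35P (WAB Ker tt GoodW IntW)
open H55K.MG (VC Crd)

/-- Chunk T9A (S/M). The short equation: W₀⁄F is obtained from y^2 = x^3 + A x + B by a change of variables with u = 1 over F (x = x' + b₂/12, y = y' + (a₁ x' + a₃)/2; see PS4_D, exists_short in H55P/S4.lean): VC W W' 1 r s t means x = x' + r, y = y' + s x' + t; check h1 .. h6 with hA, hB by ring (field_simp). -/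
theorem vc_short {F : Type} [Field F] [NumberField F] (W₀ : WeierstrassCurve (𝓞 F)) {A B : F} (hA : A = -(algebraMap (𝓞 F) F W₀.c₄) / 48)
    (hB : B = -(algebraMap (𝓞 F) F W₀.c₆) / 864) : ∃ r s t : F, VC (WAB A B) (W₀⁄F) 1 r s t := by
  have hc4 : algebraMap (𝓞 F) F W₀.c₄ = (W₀⁄F).c₄ := (W₀.map_c₄ (algebraMap (𝓞 F) F)).symm
  have hc6 : algebraMap (𝓞 F) F W₀.c₆ = (W₀⁄F).c₆ := (W₀.map_c₆ (algebraMap (𝓞 F) F)).symm
  rw [hc4] at hA
  rw [hc6] at hB
  generalize W₀⁄F = W at hA hB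
  refine ⟨(W.a₂ + (W.a₁ / 2) ^ 2) / 3, W.a₁ / 2, W.a₃ / 2, one_ne_zero, ?_, ?_, ?_, ?_, ?_⟩
  · show 1 * W.a₁ = 0 + 2 * (W.a₁ / 2)
    ring
  · show 1 ^ 2 * W.a₂ = 0 - W.a₁ / 2 * 0 + 3 * ((W.a₂ + (W.a₁ / 2) ^ 2) / 3) - (W.a₁ / 2) ^ 2
    ring
  · show 1 ^ 3 * W.a₃ = 0 + (W.a₂ + (W.a₁ / 2) ^ 2) / 3 * 0 + 2 * (W.a₃ / 2)
    ring
  · show 1 ^ 4 * W.a₄ = A - W.a₁ / 2 * 0 + 2 * ((W.a₂ + (W.a₁ / 2) ^ 2) / 3) * 0 -
      (W.a₃ / 2 + (W.a₂ + (W.a₁ / 2) ^ 2) / 3 * (W.a₁ / 2)) * 0 +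
      3 * ((W.a₂ + (W.a₁ / 2) ^ 2) / 3) ^ 2 - 2 * (W.a₁ / 2) * (W.a₃ / 2)
    rw [hA]
    unfold WeierstrassCurve.c₄ WeierstrassCurve.b₂ WeierstrassCurve.b₄
    ring
  · show 1 ^ 6 * W.a₆ = B + (W.a₂ + (W.a₁ / 2) ^ 2) / 3 * A +
      ((W.a₂ + (W.a₁ / 2) ^ 2) / 3) ^ 2 * 0 + ((W.a₂ + (W.a₁ / 2) ^ 2) / 3) ^ 3 - W.a₃ / 2 * 0 -
      (W.a₃ / 2) ^ 2 - (W.a₂ + (W.a₁ / 2) ^ 2) / 3 * (W.a₃ / 2) * 0
    rw [hA, hB]
    unfold WeierstrassCurve.c₄ WeierstrassCurve.c₆ WeierstrassCurve.b₂ WeierstrassCurve.b₄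
      WeierstrassCurve.b₆
    ring

end H55K.TQ
end

-- from Lib.H55K.T9B
section

/-! # H55K: good reduction over a subfield and valuation rings of the algebraic closure -/

open NumberField IsDedekindDomain WeierstrassCurve

namespace H55K.TQ

open H55P (IQ embF eF LF Per IsHecke Pt ac Inert Dec Nm UnitP)
open H35P (WAB Ker tt GoodW IntW)
open H55K.MG (VC Crd)

section

variable {M : Type} [Field M] [NumberField M] {Ω : Type} [Field Ω] [Algebra M Ω]

/-- The integers of M have valuation at most one. -/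
theorem t9b_int (V : ValuationSubring Ω) (e : 𝓞 M) : V.valuation (algebraMap M Ω (e : M)) ≤ 1 := by
  rw [ValuationSubring.valuation_le_one_iff]
  have h1 : IsIntegral ℤ (e : M) := e.isIntegral_coe
  have h2 : IsIntegral ℤ (algebraMap M Ω (e : M)) := h1.map (algebraMap M Ω).toIntAlgHom
  have h3 : IsIntegral V (algebraMap M Ω (e : M)) := h2.tower_top
  obtain ⟨y, hy⟩ := IsIntegrallyClosed.isIntegral_iff.mp h3
  have h4 : ((y : V) : Ω) = algebraMap M Ω (e : M) := hy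
  rw [← h4]
  exact y.2

/-- The elements outside w are units. -/
theorem t9b_unit {w : HeightOneSpectrum (𝓞 M)} {V : ValuationSubring Ω}
    (hV : ∀ a : 𝓞 M, a ∈ w.asIdeal → V.valuation (algebraMap M Ω (a : M)) < 1) {d : 𝓞 M}
    (hd : d ∉ w.asIdeal) : V.valuation (algebraMap M Ω (d : M)) = 1 := by
  apply le_antisymm (t9b_int V d)
  by_contra hlt
  push Not at hlt
  have hmax : w.asIdeal.IsMaximal := w.isMaximal
  obtain ⟨e, i, hi, he⟩ := hmax.exists_inv hd
  have h5 : algebraMap M Ω (e : M) * algebraMap M Ω (d : M) + algebraMap M Ω (i : M) = 1 := by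
    have h6 := congrArg (fun z : 𝓞 M => algebraMap M Ω (z : M)) he
    simp only [map_mul, map_add, map_one] at h6
    exact h6
  have h7 : V.valuation (algebraMap M Ω (e : M) * algebraMap M Ω (d : M) +
      algebraMap M Ω (i : M)) < 1 := by
    refine lt_of_le_of_lt (V.valuation.map_add _ _) (max_lt ?_ (hV i hi))
    rw [map_mul]
    exact lt_of_le_of_lt (mul_le_of_le_one_left' (t9b_int V e)) hlt
  rw [h5, map_one] at h7
  exact lt_irrefl _ h7

/-- The w-integral elements are in V. -/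
theorem t9b_le {w : HeightOneSpectrum (𝓞 M)} {V : ValuationSubring Ω}
    (hV : ∀ a : 𝓞 M, a ∈ w.asIdeal → V.valuation (algebraMap M Ω (a : M)) < 1) {x : M}
    (hx : w.valuation M x ≤ 1) : V.valuation (algebraMap M Ω x) ≤ 1 := by
  obtain ⟨n, ⟨d, hd⟩, h | h⟩ := w.exists_primeCompl_mul_eq_or_mul_eq (K := M) x
  · have h1 : V.valuation (algebraMap M Ω x) * V.valuation (algebraMap M Ω (d : M)) =
        V.valuation (algebraMap M Ω (n : M)) := by
      rw [← map_mul, ← map_mul]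
      exact congrArg (fun z => V.valuation (algebraMap M Ω z)) h
    rw [t9b_unit hV hd, mul_one] at h1
    rw [h1]
    exact t9b_int V n
  · have h1 : w.valuation M x * w.valuation M (algebraMap (𝓞 M) M n) = w.valuation M (algebraMap (𝓞 M) M d) := by
      rw [← map_mul]
      exact congrArg _ h
    rw [(w.valuation_eq_one_iff_notMem (K := M)).mpr hd] at h1
    have hn : n ∉ w.asIdeal := by
      intro hn
      have h2 : w.valuation M (algebraMap (𝓞 M) M n) < 1 := (w.valuation_lt_one_iff_mem n).2 hn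
      exact absurd h1 (lt_of_le_of_lt (mul_le_of_le_one_left' hx) h2).ne
    have h3 : V.valuation (algebraMap M Ω x) * V.valuation (algebraMap M Ω (n : M)) =
        V.valuation (algebraMap M Ω (d : M)) := by
      rw [← map_mul, ← map_mul]
      exact congrArg (fun z => V.valuation (algebraMap M Ω z)) h
    rw [t9b_unit hV hn, t9b_unit hV hd, mul_one] at h3
    rw [h3]

/-- The w-units are units of V. -/
theorem t9b_eq {w : HeightOneSpectrum (𝓞 M)} {V : ValuationSubring Ω}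
    (hV : ∀ a : 𝓞 M, a ∈ w.asIdeal → V.valuation (algebraMap M Ω (a : M)) < 1) {x : M}
    (hx : w.valuation M x = 1) : V.valuation (algebraMap M Ω x) = 1 := by
  apply le_antisymm (t9b_le hV hx.le)
  have h1 : w.valuation M x⁻¹ ≤ 1 := by
    rw [map_inv₀, hx, inv_one]
  have h2 := t9b_le hV h1
  rw [map_inv₀, map_inv₀] at h2
  have hx0 : x ≠ 0 := by
    rintro rfl
    rw [map_zero] at hx
    exact zero_ne_one hx
  by_contra h3
  push Not at h3
  have h4 : V.valuation (algebraMap M Ω x) ≠ 0 := by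
    intro h0
    rw [Valuation.zero_iff, map_eq_zero] at h0
    exact hx0 h0
  exact absurd h2 (not_le.mpr ((one_lt_inv₀ (zero_lt_iff.mpr h4)).mpr h3))

end

/-- Chunk T9B (M). GoodAt: C over M (vc_smul); composition with vc_short over Ω (vc_map, vc_comp; the numbers are in M). The curve C • ((W₀⁄F)⁄M) has w-integral coefficients; V contains the w-integral elements of M: x = a/b with a, b in 𝓞 M, b not in w (V(b) = 1: V(a) ≤ 1 for integers; b c - 1 in w for some c), discriminant: a w-unit x and 1/x. -/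
theorem gmd_of_good {F : Type} [Field F] [NumberField F] {Ω : Type} [Field Ω] [Algebra F Ω]
    (W₀ : WeierstrassCurve (𝓞 F)) {A B : F} (hA : A = -(algebraMap (𝓞 F) F W₀.c₄) / 48)
    (hB : B = -(algebraMap (𝓞 F) F W₀.c₆) / 864) {M : IntermediateField F Ω} [NumberField M]
    (w : HeightOneSpectrum (𝓞 M)) {V : ValuationSubring Ω}
    (hV : ∀ a : 𝓞 M, a ∈ w.asIdeal → V.valuation ((a : M) : Ω) < 1) (h : GoodAt ((W₀⁄F)⁄M) w) :
    GMd ((WAB A B)⁄Ω) V (M : Set Ω) := by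
  obtain ⟨C, h1, h2, h3, h4, h6, hd⟩ := h
  obtain ⟨r₀, s₀, t₀, hs⟩ := vc_short W₀ hA hB
  have hs' := vc_map (algebraMap F Ω) hs
  have hC := vc_map (algebraMap M Ω) (vc_smul ((W₀⁄F)⁄M) C)
  have hmm : ((W₀⁄F)⁄M).map (algebraMap M Ω) = (W₀⁄F).map (algebraMap F Ω) := by
    rw [IsScalarTower.algebraMap_eq F M Ω, ← WeierstrassCurve.map_map]
    rfl
  rw [hmm] at hC
  have hcomp := vc_comp hs' hC
  have hmF : ∀ x : F, algebraMap F Ω x ∈ M := fun x => M.algebraMap_mem x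
  have hmM : ∀ x : M, algebraMap M Ω x ∈ M := fun x => x.2
  have hV' : ∀ a : 𝓞 M, a ∈ w.asIdeal → V.valuation (algebraMap M Ω (a : M)) < 1 := hV
  refine ⟨_, _, _, _, _, ?_, ?_, ?_, ?_, hcomp, ?_⟩
  · exact M.mul_mem (hmF 1) (hmM _)
  · exact M.add_mem (M.mul_mem (pow_mem (hmF 1) 2) (hmM _)) (hmF _)
  · exact M.add_mem (M.mul_mem (hmF 1) (hmM _)) (hmF _)
  · exact M.add_mem (M.add_mem (M.mul_mem (pow_mem (hmF 1) 3) (hmM _))
      (M.mul_mem (M.mul_mem (hmF _) (pow_mem (hmF 1) 2)) (hmM _))) (hmF _)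
  · refine ⟨⟨?_, ?_, ?_, ?_, ?_⟩, ?_⟩
    · exact (V.valuation_le_one_iff _).1 (t9b_le hV' h1)
    · exact (V.valuation_le_one_iff _).1 (t9b_le hV' h2)
    · exact (V.valuation_le_one_iff _).1 (t9b_le hV' h3)
    · exact (V.valuation_le_one_iff _).1 (t9b_le hV' h4)
    · exact (V.valuation_le_one_iff _).1 (t9b_le hV' h6)
    · rw [WeierstrassCurve.map_Δ]
      exact t9b_eq hV' hd

end H55K.TQ
end

-- from Lib.H55K.T9C
section

/-! # H55K: good reduction over a subfield and valuation rings of the algebraic closure -/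

open NumberField IsDedekindDomain WeierstrassCurve

namespace H55K.TQ

open H55P (IQ embF eF LF Per IsHecke Pt ac Inert Dec Nm UnitP)
open H35P (WAB Ker tt GoodW IntW)
open H55K.MG (VC Crd)

/-- Integers of F have valuation at most one at every valuation ring of an extension. -/
theorem t9c_int {F : Type} [Field F] [NumberField F] {Ω : Type} [Field Ω] [Algebra F Ω] (V : ValuationSubring Ω)
    (e : 𝓞 F) : V.valuation (ak Ω e) ≤ 1 := by
  rw [ValuationSubring.valuation_le_one_iff]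
  have h1 : IsIntegral ℤ (e : F) := e.isIntegral_coe
  have h2 : IsIntegral ℤ (algebraMap F Ω (e : F)) := h1.map (algebraMap F Ω).toIntAlgHom
  have h3 : IsIntegral V (algebraMap F Ω (e : F)) := h2.tower_top
  obtain ⟨y, hy⟩ := IsIntegrallyClosed.isIntegral_iff.mp h3
  have h4 : ((y : V) : Ω) = ak Ω e := hy
  rw [← h4]
  exact y.2

/-- An element of F with valuation at most one at V is v-integral. -/
theorem t9c_le {F : Type} [Field F] [NumberField F] {Ω : Type} [Field Ω] [Algebra F Ω]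
    (v : HeightOneSpectrum (𝓞 F)) {V : ValuationSubring Ω}
    (hV : ∀ a : 𝓞 F, a ∈ v.asIdeal → V.valuation (ak Ω a) < 1) {x : F}
    (hx : V.valuation (algebraMap F Ω x) ≤ 1) : v.valuation F x ≤ 1 := by
  by_contra hlt
  push Not at hlt
  obtain ⟨n, ⟨d, hd⟩, h | h⟩ := v.exists_primeCompl_mul_eq_or_mul_eq (K := F) x
  · have h1 : v.valuation F x * v.valuation F (algebraMap (𝓞 F) F d) = v.valuation F (algebraMap (𝓞 F) F n) := by
      rw [← map_mul]
      exact congrArg _ h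
    rw [(v.valuation_eq_one_iff_notMem (K := F)).mpr hd, mul_one] at h1
    rw [h1] at hlt
    exact absurd (v.valuation_le_one n) (not_le.mpr hlt)
  · have h1 : v.valuation F x * v.valuation F (algebraMap (𝓞 F) F n) = v.valuation F (algebraMap (𝓞 F) F d) := by
      rw [← map_mul]
      exact congrArg _ h
    rw [(v.valuation_eq_one_iff_notMem (K := F)).mpr hd] at h1
    have hn : n ∈ v.asIdeal := by
      by_contra hn
      rw [(v.valuation_eq_one_iff_notMem (K := F)).mpr hn, mul_one] at h1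
      exact absurd h1 (ne_of_gt hlt)
    have h2 : V.valuation (ak Ω d) < 1 := by
      have h3 : algebraMap F Ω x * ak Ω n = ak Ω d := by
        have h4 := congrArg (algebraMap F Ω) h
        rw [map_mul] at h4
        exact h4
      rw [← h3, map_mul]
      exact lt_of_le_of_lt (mul_le_of_le_one_left' hx) (hV n hn)
    have hmax : v.asIdeal.IsMaximal := v.isMaximal
    have hd' : d ∉ v.asIdeal := hd
    obtain ⟨e, i, hi, he⟩ := hmax.exists_inv hd'
    have h5 : ak Ω e * ak Ω d + ak Ω i = 1 := by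
      have h6 := congrArg (fun z : 𝓞 F => ak Ω z) he
      simp only [ak, map_mul, map_add, map_one] at h6 ⊢
      exact h6
    have h7 : V.valuation (ak Ω e * ak Ω d + ak Ω i) < 1 := by
      refine lt_of_le_of_lt (V.valuation.map_add _ _) (max_lt ?_ (hV i hi))
      rw [map_mul]
      exact lt_of_le_of_lt (mul_le_of_le_one_left' (t9c_int V e)) h2
    rw [h5, map_one] at h7
    exact lt_irrefl _ h7

/-- An element of F with valuation one at V has v-adic valuation one. -/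
theorem t9c_eq {F : Type} [Field F] [NumberField F] {Ω : Type} [Field Ω] [Algebra F Ω]
    (v : HeightOneSpectrum (𝓞 F)) {V : ValuationSubring Ω}
    (hV : ∀ a : 𝓞 F, a ∈ v.asIdeal → V.valuation (ak Ω a) < 1) {x : F}
    (hx : V.valuation (algebraMap F Ω x) = 1) : v.valuation F x = 1 := by
  apply le_antisymm (t9c_le v hV hx.le)
  have h1 : V.valuation (algebraMap F Ω x⁻¹) ≤ 1 := by
    rw [map_inv₀, map_inv₀, hx, inv_one]
  have h2 := t9c_le v hV h1
  rw [map_inv₀] at h2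
  by_contra h3
  push Not at h3
  have h4 : v.valuation F x ≠ 0 := by
    intro h0
    rw [Valuation.zero_iff] at h0
    rw [h0, map_zero, map_zero] at hx
    exact zero_ne_one hx
  exact absurd h2 (not_le.mpr ((one_lt_inv₀ (zero_lt_iff.mpr h4)).mpr h3))

/-- Chunk T9C (M). VC (W₀⁄F) (W'') over F (vc_short, vc_inv, vc_comp); a change of variables in the sense of VC is given by the VariableChange with the same u, r, s, t: C • (W₀⁄F) = W'' (vc_smul, vc_uniq). x in F with V(x) ≤ 1 is v-integral: if v.valuation x > 1 then 1/x = a/b, a in v, b not in v, V(1/x) < 1. -/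
theorem good_of_V {F : Type} [Field F] [NumberField F] {Ω : Type} [Field Ω] [Algebra F Ω]
    (W₀ : WeierstrassCurve (𝓞 F)) {A B : F} (hA : A = -(algebraMap (𝓞 F) F W₀.c₄) / 48)
    (hB : B = -(algebraMap (𝓞 F) F W₀.c₆) / 864) (v : HeightOneSpectrum (𝓞 F)) {V : ValuationSubring Ω}
    (hV : ∀ a : 𝓞 F, a ∈ v.asIdeal → V.valuation (ak Ω a) < 1)
    (h : ∃ (W'' : WeierstrassCurve F) (u r s t : F), VC (WAB A B) W'' u r s t ∧ GoodW (W''⁄Ω) V) :
    GoodAt (W₀⁄F) v := by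
  obtain ⟨W'', u, r, s, t, hvc, hg⟩ := h
  obtain ⟨r₀, s₀, t₀, h₀⟩ := vc_short W₀ hA hB
  obtain ⟨U, R, S, T, h1⟩ : ∃ U R S T : F, VC (W₀⁄F) W'' U R S T :=
    ⟨_, _, _, _, vc_comp (vc_inv h₀) hvc⟩
  have h3 : (⟨Units.mk0 U h1.une, R, S, T⟩ : VariableChange F) • (W₀⁄F) = W'' :=
    vc_uniq (vc_smul (W₀⁄F) ⟨Units.mk0 U h1.une, R, S, T⟩) h1
  refine ⟨⟨Units.mk0 U h1.une, R, S, T⟩, ?_⟩
  · rw [h3]
    refine ⟨?_, ?_, ?_, ?_, ?_, ?_⟩
    · exact t9c_le v hV (((ValuationSubring.valuation_le_one_iff V _).mpr hg.a1))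
    · exact t9c_le v hV (((ValuationSubring.valuation_le_one_iff V _).mpr hg.a2))
    · exact t9c_le v hV (((ValuationSubring.valuation_le_one_iff V _).mpr hg.a3))
    · exact t9c_le v hV (((ValuationSubring.valuation_le_one_iff V _).mpr hg.a4))
    · exact t9c_le v hV (((ValuationSubring.valuation_le_one_iff V _).mpr hg.a6))
    · apply t9c_eq v hV
      have h4 := hg.disc
      have h5 : (W''⁄Ω).Δ = algebraMap F Ω W''.Δ := W''.map_Δ (algebraMap F Ω)
      rw [h5] at h4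
      exact h4

end H55K.TQ
end

-- from Lib.H55K.D7
section

set_option autoImplicit false

/-! # H55K, part D: the Euler product -/

open NumberField IsDedekindDomain WeierstrassCurve

namespace H55K.DD

open H55N

theorem lfun {K : Type} [Field K] [NumberField K] (W : WeierstrassCurve K) (h : Ideal (𝓞 K) →*₀ ℂ)
    (hloc : ∀ w : HeightOneSpectrum (𝓞 K), LF' W w = ef (Ideal.absNorm w.asIdeal) (h w.asIdeal) *
      ef (Ideal.absNorm w.asIdeal) ((starRingEnd ℂ) (h w.asIdeal))) (n : ℕ) :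
    ((W.LFunction n : ℤ) : ℂ) = (AI h * AI (fun a => (starRingEnd ℂ) (h a))) n := by
  classical
  set L : HeightOneSpectrum (𝓞 K) → ArithmeticFunction ℤ := fun w =>
    (W.baseChange (w.adicCompletion K)).localEulerFactor
      (w.adicCompletionIntegers K) with hLdef
  have hL : ∀ᶠ T in Filter.atTop, (∏ w ∈ T, L w) n = W.LFunction n := by
    have hN : Northcott (fun w : HeightOneSpectrum (𝓞 K) =>
        Nat.card (IsLocalRing.ResidueField (w.adicCompletionIntegers K))) := by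
      have h1 : (fun w : HeightOneSpectrum (𝓞 K) =>
        Nat.card (IsLocalRing.ResidueField (w.adicCompletionIntegers K))) =
          fun w => Ideal.absNorm w.asIdeal := funext fun w => (H55B.residue_card K w).2
      rw [h1]
      infer_instance
    exact ArithmeticFunction.tendsTo_eulerProduct_ofPowerSeries
      (fun w : HeightOneSpectrum (𝓞 K) =>
        Nat.card (IsLocalRing.ResidueField (w.adicCompletionIntegers K)))
      (fun w => (W.baseChange (w.adicCompletion K)).localPowerSeries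
        (w.adicCompletionIntegers K))
      (fun w => by simp [WeierstrassCurve.localPowerSeries]) n
  have hA : ∀ᶠ T : Finset (HeightOneSpectrum (𝓞 K)) in Filter.atTop,
      ∀ m ∈ Finset.range (n + 1),
      (∏ w ∈ T, ef (Ideal.absNorm w.asIdeal) (h w.asIdeal)) m = AI h m ∧
      (∏ w ∈ T, ef (Ideal.absNorm w.asIdeal) ((starRingEnd ℂ) (h w.asIdeal))) m =
          AI (fun a => (starRingEnd ℂ) (h a)) m := by
    rw [Filter.eventually_all_finset]
    intro m _
    exact (AI_euler h m).and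
      (AI_euler ((starRingEnd ℂ).toMonoidWithZeroHom.comp h) m)
  obtain ⟨T, hT1, hT2⟩ := (hL.and hA).exists
  rw [← hT1, ← ArithmeticFunction.intCoe_apply, H55B.I2_cast_prod]
  have h1 : ∀ w ∈ T, ((L w : ArithmeticFunction ℤ) : ArithmeticFunction ℂ) =
      ef (Ideal.absNorm w.asIdeal) (h w.asIdeal) *
      ef (Ideal.absNorm w.asIdeal) ((starRingEnd ℂ) (h w.asIdeal)) := fun w _ => hloc w
  rw [Finset.prod_congr rfl h1, Finset.prod_mul_distrib]
  refine H55B.I2_mul_congr ?_ ?_ n le_rfl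
  · intro m hm
    exact (hT2 m (Finset.mem_range.2 (by omega))).1
  · intro m hm
    exact (hT2 m (Finset.mem_range.2 (by omega))).2

end H55K.DD
end

-- from Lib.H55K.DM
section

/-! # H55K, part D: the L-function of a curve with complex multiplication over a number field -/

open NumberField IsDedekindDomain WeierstrassCurve

namespace H55K

open H55P (IQ embF eF LF Per IsHecke Pt ac Inert Dec Nm CMData PsiP mK DeuG)
open DD

variable {F : Type} [Field F] [NumberField F] [IQ F] {W₀ : WeierstrassCurve (𝓞 F)} {m : Ideal (𝓞 F)}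
  {ψ : Ideal (𝓞 F) →*₀ 𝓞 F}

/-- The number of points over the residue fields of an extension. -/
theorem pts_w {K : Type} [Field K] [NumberField K] [Algebra F K] (hψ : IsHecke m ψ)
    (hdeu : ∀ v : HeightOneSpectrum (𝓞 F), W₀.Δ ∉ v.asIdeal → ¬ m ≤ v.asIdeal →
      Nat.card (W₀⁄(𝓞 F ⧸ v.asIdeal)).toAffine.Point = Nm (1 - ψ v.asIdeal))
    (w : HeightOneSpectrum (𝓞 K)) (hΔ : algebraMap (𝓞 F) (𝓞 K) W₀.Δ ∉ w.asIdeal) (hm : ¬ mK K m ≤ w.asIdeal) :
    Nat.card (W₀⁄(𝓞 K ⧸ w.asIdeal)).toAffine.Point = Nm (1 - ψ (Ideal.relNorm (𝓞 F) w.asIdeal)) := by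
  obtain ⟨v, hv, hN, hf, hmv⟩ := below (m := m) w
  have hΔ' : W₀.Δ ∉ v.asIdeal := by
    rw [hv]
    exact hΔ
  have hm' : ¬ m ≤ v.asIdeal := fun h => hm (hmv.2 h)
  obtain ⟨t1, t2⟩ := trc hψ hm'
  rw [← hdeu v hΔ' hm'] at t2
  have hmax : w.asIdeal.IsMaximal := w.isMaximal
  let _ : Field (𝓞 K ⧸ w.asIdeal) := Ideal.Quotient.field _
  have h := pts_res W₀ w v hv hΔ' _ _ t2 t1 (𝓞 K ⧸ w.asIdeal) (Ideal.Quotient.mk w.asIdeal)
    Ideal.Quotient.mk_surjective Ideal.mk_ker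
  have hb : W₀.map ((Ideal.Quotient.mk w.asIdeal).comp (algebraMap (𝓞 F) (𝓞 K))) = W₀⁄(𝓞 K ⧸ w.asIdeal) := rfl
  rw [hb] at h
  have hn : (Ideal.absNorm w.asIdeal : ℂ) = (eF F (ψ v.asIdeal) * (starRingEnd ℂ) (eF F (ψ v.asIdeal))) ^
      (w.asIdeal.inertiaDeg (𝓞 F)) := by
    rw [t1, ← Ideal.absNorm_relNorm (𝓞 F) (𝓞 K) w.asIdeal, hN, map_pow, Nat.cast_pow]
  have hNm : ((Nm (1 - ψ (Ideal.relNorm (𝓞 F) w.asIdeal)) : ℕ) : ℂ) =
      (1 - eF F (ψ v.asIdeal) ^ (w.asIdeal.inertiaDeg (𝓞 F))) *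
        (1 - (starRingEnd ℂ) (eF F (ψ v.asIdeal)) ^ (w.asIdeal.inertiaDeg (𝓞 F))) := by
    have h1 := mul_cj (1 - ψ (Ideal.relNorm (𝓞 F) w.asIdeal))
    have h2 := congrArg (eF F) h1
    rw [map_mul, e_cj, map_natCast] at h2
    rw [← h2, hN, map_pow, map_sub, map_one, map_pow, map_sub, map_one, map_pow]
  have h4 : ((Nat.card (W₀⁄(𝓞 K ⧸ w.asIdeal)).toAffine.Point : ℕ) : ℂ) =
      ((Nm (1 - ψ (Ideal.relNorm (𝓞 F) w.asIdeal)) : ℕ) : ℂ) := by
    rw [h, hNm, hn, mul_pow]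
    ring
  exact_mod_cast h4

/-- THE L-FUNCTION (Deuring). The numbers of points of W₀ over the residue fields of F are given by ψ; j is integral; the primes dividing the discriminant
divide the modulus; W₀ has bad reduction at the primes of K above the modulus. Then the L-function of W₀ over K is the product of the
L-functions of ψ ∘ N and its conjugate. -/
theorem lfun_K {K : Type} [Field K] [NumberField K] [Algebra F K] (hψ : IsHecke m ψ)
    (hdeu : ∀ v : HeightOneSpectrum (𝓞 F), W₀.Δ ∉ v.asIdeal → ¬ m ≤ v.asIdeal →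
      Nat.card (W₀⁄(𝓞 F ⧸ v.asIdeal)).toAffine.Point = Nm (1 - ψ v.asIdeal))
    (hΔm : ∀ v : HeightOneSpectrum (𝓞 F), W₀.Δ ∈ v.asIdeal → m ≤ v.asIdeal)
    (hj : ∃ j₀ : 𝓞 F, W₀.c₄ ^ 3 = j₀ * W₀.Δ)
    (hbad : ∀ w : HeightOneSpectrum (𝓞 K), mK K m ≤ w.asIdeal → ¬ GoodAt ((W₀⁄F)⁄K) w) (n : ℕ) :
    ((((W₀⁄F)⁄K).LFunction n : ℤ) : ℂ) =
      (H55N.AI (PsiP K ψ) * H55N.AI (fun a => (starRingEnd ℂ) (PsiP K ψ a))) n := by
  refine lfun _ _ (fun w => ?_) n
  obtain ⟨j₀, hj₀⟩ := hj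
  obtain ⟨v, hv, hN, hf, hmv⟩ := below (m := m) w
  by_cases hm : mK K m ≤ w.asIdeal
  · have h0 := psi_bad hψ w hm
    rw [lf_bad W₀ w j₀ hj₀ (hbad w hm), h0, map_zero]
    have h1 : ef (Ideal.absNorm w.asIdeal) 0 = 1 := by
      unfold ef
      rw [H55N.H7_ps, map_one]
    rw [h1, mul_one]
  · have hm' : ¬ m ≤ v.asIdeal := fun h => hm (hmv.2 h)
    have hΔ' : W₀.Δ ∉ v.asIdeal := fun h => hm' (hΔm v h)
    obtain ⟨t1, t2⟩ := trc hψ hm'
    rw [← hdeu v hΔ' hm'] at t2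
    rw [lf_good W₀ w v hv hΔ' _ _ t2 t1, H55P.PsiP_apply, hN, map_pow, map_pow, map_pow, map_pow, Complex.conj_conj,
      mul_comm]

/-- Part D for intermediate fields. -/
theorem deuG (hψ : IsHecke m ψ)
    (hdeu : ∀ v : HeightOneSpectrum (𝓞 F), W₀.Δ ∉ v.asIdeal → ¬ m ≤ v.asIdeal →
      Nat.card (W₀⁄(𝓞 F ⧸ v.asIdeal)).toAffine.Point = Nm (1 - ψ v.asIdeal))
    (hΔm : ∀ v : HeightOneSpectrum (𝓞 F), W₀.Δ ∈ v.asIdeal → m ≤ v.asIdeal)
    (hj : ∃ j₀ : 𝓞 F, W₀.c₄ ^ 3 = j₀ * W₀.Δ)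
    (M : IntermediateField F (AlgebraicClosure F)) [NumberField M]
    (hbad : ∀ w : HeightOneSpectrum (𝓞 M), mK M m ≤ w.asIdeal → ¬ GoodAt ((W₀⁄F)⁄M) w) : DeuG W₀ ψ M :=
  fun n => lfun_K hψ hdeu hΔm hj hbad n

end H55K
end

-- from Lib.H55P.Z13
section

open NumberField IsDedekindDomain WeierstrassCurve

namespace H55P

section gen

variable {F : Type} [Field F] [NumberField F] {Ω : Type} [Field Ω] [Algebra F Ω]

/-! Chunk PZ13 (M). Conversions between abstract fields and subfields of Ω.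
ramF_range: the isomorphism 𝓞 L ≃ 𝓞 j.fieldRange (AlgEquiv.ofInjectiveField j, RingOfIntegers.mapRingEquiv) over 𝓞 F; W = the inverse image of the prime W' of RamF; v.map <= W^2, so W lies over v (v is maximal, v.map <= W) and the ramification index is >= 2
(Ideal.le_pow_ramificationIdx / ramificationIdx'_spec; see pt10_ram in Lib/H55P/T10.lean).
unr3_down: e(W|v) = e(W|w) e(w|v) (Ideal.ramificationIdx_tower) for a prime W of K' above w; 3 in w implies 3 in W.
LVP_congr: the same Λ; HasSum over the ideals of 𝓞 K and of 𝓞 K' correspond under the bijection of ideals given by the isomorphism (RingEquiv.idealComapOrderIso or Ideal.map): absNorm is the same (quotients are isomorphic), relNorm is the same (Ideal.relNorm_map or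
PsiP_top with K' as an extension of K of degree one: PsiP K' (a.map) = PsiP K (relNorm (a.map)) = PsiP K a; see T2_equiv in Lib/H55N/T2.lean for the degree one computation). finrank F K = finrank F K'. -/

theorem ramF_range (L : Type) [Field L] [NumberField L] [Algebra F L] (j : L →ₐ[F] Ω)
    (v : HeightOneSpectrum (𝓞 F)) (h : RamF j.fieldRange v.asIdeal) :
    ∃ W : HeightOneSpectrum (𝓞 L), v.asIdeal = W.asIdeal.under (𝓞 F) ∧
      W.asIdeal.ramificationIdx (𝓞 F) ≠ 1 := by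
  obtain ⟨W', hW', hle⟩ := h
  obtain ⟨θ, hθ⟩ : ∃ θ : 𝓞 L ≃+* 𝓞 j.fieldRange, ∀ x : 𝓞 F,
      θ (algebraMap (𝓞 F) (𝓞 L) x) = algebraMap (𝓞 F) (𝓞 j.fieldRange) x := by
    let e : L ≃ₐ[F] j.fieldRange := AlgEquiv.ofInjectiveField j
    refine ⟨RingOfIntegers.mapRingEquiv e, fun x => ?_⟩
    apply RingOfIntegers.coe_injective
    show e (algebraMap F L (x : F)) = algebraMap F j.fieldRange (x : F)
    exact e.commutes _
  have hmap : (v.asIdeal.map (algebraMap (𝓞 F) (𝓞 L))).map (θ : 𝓞 L →+* 𝓞 j.fieldRange) =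
      v.asIdeal.map (algebraMap (𝓞 F) (𝓞 j.fieldRange)) := by
    rw [Ideal.map_map]
    congr 1
    exact RingHom.ext fun x => hθ x
  obtain ⟨P, hP⟩ : ∃ P : Ideal (𝓞 L), P = W'.comap (θ : 𝓞 L →+* 𝓞 j.fieldRange) := ⟨_, rfl⟩
  have hPp : P.IsPrime := by
    rw [hP]
    exact hW'.comap _
  have hPmap : P.map (θ : 𝓞 L →+* 𝓞 j.fieldRange) = W' := by
    rw [hP]
    exact Ideal.map_comap_of_surjective _ θ.surjective _
  have h2 : v.asIdeal.map (algebraMap (𝓞 F) (𝓞 L)) ≤ P ^ 2 := by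
    have h3 : (v.asIdeal.map (algebraMap (𝓞 F) (𝓞 L))).map (θ : 𝓞 L →+* 𝓞 j.fieldRange) ≤
        (P ^ 2).map (θ : 𝓞 L →+* 𝓞 j.fieldRange) := by
      rw [hmap, Ideal.map_pow, hPmap]
      exact hle
    have h4 := Ideal.comap_mono (f := (θ : 𝓞 L →+* 𝓞 j.fieldRange)) h3
    have h5 : ∀ I : Ideal (𝓞 L), (I.map (θ : 𝓞 L →+* 𝓞 j.fieldRange)).comap
        (θ : 𝓞 L →+* 𝓞 j.fieldRange) = I := fun I =>
      Ideal.comap_map_of_bijective _ θ.bijective
    rwa [h5, h5] at h4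
  have h1 : v.asIdeal.map (algebraMap (𝓞 F) (𝓞 L)) ≤ P := h2.trans (Ideal.pow_le_self two_ne_zero)
  have hv0 : v.asIdeal.map (algebraMap (𝓞 F) (𝓞 L)) ≠ ⊥ := by
    rw [Ne, Ideal.map_eq_bot_iff_of_injective (FaithfulSMul.algebraMap_injective (𝓞 F) (𝓞 L))]
    exact v.ne_bot
  have hP0 : P ≠ ⊥ := by
    intro h
    rw [h] at h1
    exact hv0 (le_bot_iff.1 h1)
  have hvm := v.isMaximal
  have hunder : v.asIdeal = P.under (𝓞 F) := by
    refine hvm.eq_of_le (Ideal.IsPrime.ne_top inferInstance) ?_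
    rw [Ideal.under_def, ← Ideal.map_le_iff_le_comap]
    exact h1
  refine ⟨⟨P, hPp, hP0⟩, hunder, ?_⟩
  have hlies : P.LiesOver v.asIdeal := ⟨hunder⟩
  show P.ramificationIdx (𝓞 F) ≠ 1
  rw [← Ideal.ramificationIdx'_eq_ramificationIdx v.asIdeal P v.ne_bot,
    Ideal.ramificationIdx'_ne_one_iff h1]
  exact h2

end gen


theorem pz13_equiv (K K' : Type) [Field K] [NumberField K] [Field K'] [NumberField K'] [Algebra K K']
    (hsurj : Function.Surjective (algebraMap K K')) :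
    ∃ ε : Ideal (𝓞 K) ≃ Ideal (𝓞 K'), ∀ J : Ideal (𝓞 K), Ideal.relNorm (𝓞 K) (ε J) = J ∧
      Ideal.absNorm (ε J) = Ideal.absNorm J := by
  have h1 : Module.finrank K K' = 1 := by
    rw [finrank_eq_one_iff_of_nonzero' (1 : K') one_ne_zero]
    intro x
    obtain ⟨c, hc⟩ := hsurj x
    exact ⟨c, by rw [← hc, Algebra.smul_def, mul_one]⟩
  have hinj : Function.Injective (algebraMap (𝓞 K) (𝓞 K')) :=
    FaithfulSMul.algebraMap_injective (𝓞 K) (𝓞 K')
  have hsurjO : Function.Surjective (algebraMap (𝓞 K) (𝓞 K')) := by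
    intro x
    obtain ⟨y, hy⟩ := hsurj (x : K')
    have hyi : IsIntegral ℤ y := by
      have h2 : IsIntegral ℤ (algebraMap K K' y) := by
        rw [hy]
        exact RingOfIntegers.isIntegral_coe x
      exact (isIntegral_algebraMap_iff (algebraMap K K').injective).1 h2
    refine ⟨⟨y, hyi⟩, ?_⟩
    apply RingOfIntegers.ext
    rw [← hy]
    rfl
  let ε₀ : 𝓞 K ≃+* 𝓞 K' := RingEquiv.ofBijective (algebraMap (𝓞 K) (𝓞 K')) ⟨hinj, hsurjO⟩
  have hr : Module.finrank (𝓞 K) (𝓞 K') = 1 := by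
    rw [← h1]
    exact (IsFractionRing.finrank_eq (𝓞 K) K (𝓞 K') K').symm
  have key : ∀ J : Ideal (𝓞 K), Ideal.relNorm (𝓞 K) (J.map (algebraMap (𝓞 K) (𝓞 K'))) = J := by
    intro J
    rw [Ideal.relNorm_algebraMap (𝓞 K') J, hr, pow_one]
  refine ⟨(ε₀.idealComapOrderIso.symm).toEquiv, fun J => ?_⟩
  have h3 : (ε₀.idealComapOrderIso.symm).toEquiv J = J.map (algebraMap (𝓞 K) (𝓞 K')) := rfl
  rw [h3]
  refine ⟨key J, ?_⟩
  rw [← Ideal.absNorm_relNorm (𝓞 K) (𝓞 K'), key J]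


end H55P
end

-- from Lib.H55K.FB3A
section

/-! # H55K: the L-function over K -/

open NumberField IsDedekindDomain WeierstrassCurve

namespace H55K.TQ

open H55P (IQ embF eF LF Per IsHecke Pt ac Inert Dec Nm UnitP)
open H35P (WAB Ker tt GoodW IntW)
open H55K.MG (VC Crd)

variable {F : Type} [Field F] [NumberField F] [IQ F] {W : WeierstrassCurve ℤ} {Om : ℂ}
    {m : Ideal (𝓞 F)} {ψ : Ideal (𝓞 F) →*₀ 𝓞 F} {p : ℕ}

/-- Chunk FB3A (S). Extract from H55P.LVP_congr (Z13.lean): the L-series over isomorphic fields. -/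
theorem tm_congr (K K' : Type) [Field K] [NumberField K] [Algebra F K] [Field K'] [NumberField K'] [Algebra F K'] (θ : K ≃ₐ[F] K')
    (s x : ℂ) (h : HasSum (H55N.tm (H55P.PsiP K' ψ) s) x) : HasSum (H55N.tm (H55P.PsiP K ψ) s) x := by
  letI : Algebra K K' := (θ : K →+* K').toAlgebra
  have hst : IsScalarTower F K K' := IsScalarTower.of_algebraMap_eq fun x => (θ.commutes x).symm
  have hsurj : Function.Surjective (algebraMap K K') := θ.surjective
  obtain ⟨ε, hε⟩ := H55P.pz13_equiv K K' hsurj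
  rw [← ε.hasSum_iff] at h
  have h5 : (H55N.tm (H55P.PsiP K' ψ) s) ∘ ε = H55N.tm (H55P.PsiP K ψ) s := by
    funext a
    obtain ⟨e1, e2⟩ := hε a
    show H55P.PsiP K' ψ (ε a) * (Ideal.absNorm (ε a) : ℂ) ^ (-s) =
      H55P.PsiP K ψ a * (Ideal.absNorm a : ℂ) ^ (-s)
    rw [H55P.PsiP_top (K := K) ψ K' (ε a), e1, e2]
  rwa [h5] at h

/-- Chunk FB3A (S). (W⁄(𝓞 F))⁄F)⁄K = W⁄K. -/
theorem cur_eq (K : Type) [Field K] [NumberField K] [Algebra F K] : ((W⁄(𝓞 F))⁄F)⁄K = W⁄K := by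
  show ((W.map (algebraMap ℤ (𝓞 F))).map (algebraMap (𝓞 F) F)).map (algebraMap F K) = W.map (algebraMap ℤ K)
  rw [WeierstrassCurve.map_map, WeierstrassCurve.map_map]
  congr 1
  exact Subsingleton.elim _ _

end H55K.TQ
end

-- from Lib.H55D.QA
section

open NumberField IsDedekindDomain

namespace H55D

open H55B H55C H55N

variable {K₀ K : Type} [Field K₀] [NumberField K₀] [Field K] [NumberField K] [Algebra F K] [Algebra K₀ K]









theorem DQA_prod_one {ι : Type} (s : Finset ι) (f : ι → ArithmeticFunction ℂ)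
    (h : ∀ i ∈ s, f i 1 = 1) : (∏ i ∈ s, f i) 1 = 1 := by
  classical
  induction s using Finset.induction_on with
  | empty => simp
  | insert i s hi ih =>
    rw [Finset.prod_insert hi, ArithmeticFunction.mul_apply_one, h i (Finset.mem_insert_self _ _),
      ih fun j hj => h j (Finset.mem_insert_of_mem hj), one_mul]





end H55D
end

-- from Lib.H55P.Z3
section

open NumberField IsDedekindDomain

namespace H55P

open H55N
open H55B (F O om e emb Prim R)

/-! Chunk PZ3 (M). The base of the induction, K = F (finrank 1).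
baseE: PORT of LV_base in Lib/H55N/T2.lean: Λ s = -(1/3) G (e om - 1) s, Λ 1 = -R0/3, Λ 1 / OmE = -1/(3 e(2 om + 1)), a unit since V(3) = 1 (e(2 om + 1)^2 = -3). R0 is not 0: E5_R0.
ntpE: the ideal a = (4) of 𝓞 K: PsiP K psiE a = Psi K a = conj(e(pg((4)))) = 4 (relNorm of (4) is (4)^1: Ideal.relNorm_algebraMap; 4 = 1 + 3 is primary, pg_span), 1 - 4 = -3, V(3) = 1 since p >= 5 and V(p) < 1. (4) is coprime to p and to mK K m3 = (3). -/

theorem PZ3_sq3 (V : ValuationSubring ℂ) (h3 : V.valuation 3 = 1) : V.valuation (e (2 * om + 1)) = 1 := by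
  have h1 : e (2 * om + 1) ^ 2 = -3 := by
    have h2 : (2 * om + 1 : O) ^ 2 = -3 := by linear_combination 4 * H55B.om_rel
    rw [← map_pow, h2, map_neg, map_ofNat]
  have h2 : V.valuation (e (2 * om + 1)) ^ 2 = 1 := by
    rw [← map_pow, h1, Valuation.map_neg, h3]
  exact (pow_eq_one_iff_of_nonneg zero_le two_ne_zero).1 h2


theorem baseE (K : Type) [Field K] [NumberField K] [Algebra F K] (h1 : Module.finrank F K = 1)
    (V : ValuationSubring ℂ) (h3 : V.valuation 3 = 1) : LVP F V OmE (PsiP K psiE) := by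
  obtain ⟨ε, hε⟩ := T2_equiv K h1
  refine ⟨fun s => -(1 / 3) * H55B.G (e om - 1) s, ?_, ?_, ?_⟩
  · exact analyticOnNhd_const.mul (H55B.G_analytic (e om - 1))
  · intro s hs
    have h2 := T2_hasSum s hs
    rw [H55B.Kf_one s hs] at h2
    rw [← ε.hasSum_iff]
    refine h2.congr_fun fun J => ?_
    show psiF (Ideal.relNorm O (ε J)) * (Ideal.absNorm (ε J) : ℂ) ^ (-s) = _
    rw [(hε J).1, (hε J).2]
  · have h3' := E5_R0.2
    have h4 : (fun s => -(1 / 3) * H55B.G (e om - 1) s) 1 / OmE ^ Module.finrank F K =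
        -(1 / (3 * e (2 * om + 1))) := by
      rw [h1, pow_one]
      show -(1 / 3) * H55B.G (e om - 1) 1 / OmE = _
      rw [H55B.G_one]
      have h5 : R (e om - 1) = R0 := rfl
      have h6 : e (2 * om + 1) ≠ 0 := by
        intro h0
        have := PZ3_sq3 V h3
        rw [h0, map_zero] at this
        exact zero_ne_one this
      unfold OmE
      rw [h5]
      field_simp
    rw [h4, Valuation.map_neg, one_div, map_inv₀, map_mul, h3, PZ3_sq3 V h3, one_mul, inv_one]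

theorem val3 (p : ℕ) (hp : p.Prime) (h5 : 5 ≤ p) (V : ValuationSubring ℂ)
    (hV : V.valuation (p : ℂ) < 1) : V.valuation (3 : ℂ) = 1 ∧ V.valuation (2 : ℂ) = 1 := by
  have h1 := val_nat p hp V hV 3 (fun h => by
    have := Nat.le_of_dvd (by norm_num) h
    omega)
  have h2 := val_nat p hp V hV 2 (fun h => by
    have := Nat.le_of_dvd (by norm_num) h
    omega)
  exact ⟨by exact_mod_cast h1, by exact_mod_cast h2⟩




end H55P
end

-- from Lib.H55K.RA2
section

/-! # H55K: the local factor of a curve over the rationals -/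

open NumberField IsDedekindDomain WeierstrassCurve

namespace H55K.TQ

open H55P (IQ embF eF LF Per IsHecke Pt ac Inert Dec Nm UnitP)
open H35P (WAB Ker tt GoodW IntW)
open H55K.MG (VC Crd)
open H55K.DD (LF' ef)

/-- the curve over the integers of the rationals -/
theorem ra2_W (W : WeierstrassCurve ℤ) (K : Type) [Field K] [NumberField K] :
    (((W.map (algebraMap ℤ (𝓞 ℚ)))⁄ℚ)⁄K) = W⁄K := by
  show ((W.map (algebraMap ℤ (𝓞 ℚ))).map (algebraMap (𝓞 ℚ) ℚ)).map (algebraMap ℚ K) =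
    W.map (algebraMap ℤ K)
  rw [WeierstrassCurve.map_map, WeierstrassCurve.map_map]
  congr 1
  exact RingHom.ext_int _ _

/-- `ZMod l` is the residue field -/
theorem ra2_equiv {v : Ideal (𝓞 ℚ)} (hv : v.IsPrime) {l : ℕ} (hl : l.Prime) (hlv : (l : 𝓞 ℚ) ∈ v) :
    Nonempty (ZMod l ≃+* 𝓞 ℚ ⧸ v) := by
  haveI : Fact l.Prime := ⟨hl⟩
  haveI : Nontrivial (𝓞 ℚ ⧸ v) := Ideal.Quotient.nontrivial_iff.2 hv.ne_top
  have h0 : ((l : ℕ) : 𝓞 ℚ ⧸ v) = 0 := by
    rw [← map_natCast (Ideal.Quotient.mk v), Ideal.Quotient.eq_zero_iff_mem]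
    exact hlv
  haveI : CharP (𝓞 ℚ ⧸ v) l := by
    obtain ⟨p, hp⟩ := CharP.exists (𝓞 ℚ ⧸ v)
    have h1 : p ∣ l := (CharP.cast_eq_zero_iff _ p l).1 h0
    rcases (Nat.dvd_prime hl).1 h1 with h2 | h2
    · exfalso
      rw [h2] at hp
      exact one_ne_zero ((CharP.cast_eq_zero_iff (𝓞 ℚ ⧸ v) 1 1).2 (dvd_refl 1) ▸ (Nat.cast_one (R := 𝓞 ℚ ⧸ v)).symm)
    · rwa [h2] at hp
  refine ⟨RingEquiv.ofBijective (ZMod.castHom (dvd_refl l) (𝓞 ℚ ⧸ v)) ⟨RingHom.injective _, ?_⟩⟩
  intro x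
  obtain ⟨y, rfl⟩ := Ideal.Quotient.mk_surjective x
  refine ⟨((Rat.ringOfIntegersEquiv y : ℤ) : ZMod l), ?_⟩
  rw [map_intCast, ← map_intCast (Ideal.Quotient.mk v)]
  congr 1
  apply Rat.ringOfIntegersEquiv.injective
  rw [map_intCast]
  simp

/-- The rational prime below w -/
theorem ra2_below {K : Type} [Field K] [NumberField K] (w : HeightOneSpectrum (𝓞 K)) :
    ∃ (l f : ℕ), l.Prime ∧ (l : 𝓞 K) ∈ w.asIdeal ∧ 0 < f ∧ Ideal.absNorm w.asIdeal = l ^ f := by
  have hmax : w.asIdeal.IsMaximal := w.isMaximal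
  letI : Field (𝓞 K ⧸ w.asIdeal) := Ideal.Quotient.field w.asIdeal
  have h0 : Ideal.absNorm w.asIdeal ≠ 0 := by
    rw [Ne, Ideal.absNorm_eq_zero_iff]; exact w.ne_bot
  have hcard : Ideal.absNorm w.asIdeal = Nat.card (𝓞 K ⧸ w.asIdeal) := rfl
  haveI : Finite (𝓞 K ⧸ w.asIdeal) := Nat.finite_of_card_ne_zero (by rw [← hcard]; exact h0)
  letI : Fintype (𝓞 K ⧸ w.asIdeal) := Fintype.ofFinite _
  obtain ⟨p, hp⟩ := CharP.exists (𝓞 K ⧸ w.asIdeal)
  obtain ⟨n, hpp, hn⟩ := FiniteField.card (𝓞 K ⧸ w.asIdeal) p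
  refine ⟨p, n, hpp, ?_, n.pos, ?_⟩
  · rw [← Ideal.Quotient.eq_zero_iff_mem, map_natCast]
    exact CharP.cast_eq_zero _ p
  · rw [hcard, Nat.card_eq_fintype_card, hn]

/-- the prime of the integers of the rationals below `w` -/
theorem ra2_v {K : Type} [Field K] [NumberField K] (w : HeightOneSpectrum (𝓞 K)) :
    ∃ v : HeightOneSpectrum (𝓞 ℚ), v.asIdeal = w.asIdeal.under (𝓞 ℚ) := by
  obtain ⟨l, f, hl, hlw, -, -⟩ := ra2_below w
  have hpr : (w.asIdeal.under (𝓞 ℚ)).IsPrime := by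
    have := w.isPrime
    infer_instance
  refine ⟨⟨w.asIdeal.under (𝓞 ℚ), hpr, ?_⟩, rfl⟩
  intro hbot
  have h1 : (l : 𝓞 ℚ) ∈ w.asIdeal.under (𝓞 ℚ) := by
    rw [Ideal.under_def, Ideal.mem_comap, map_natCast]
    exact hlw
  rw [hbot, Ideal.mem_bot] at h1
  exact hl.ne_zero (by exact_mod_cast h1)

/-- Chunk RA2 (M). lf_good (D6.lean) with F = ℚ and W₀ = W.map (algebraMap ℤ (𝓞 ℚ)): v = the prime of 𝓞 ℚ below w; 𝓞 ℚ is ℤ (Rat.ringOfIntegersEquiv), v is generated by l, absNorm v = l, the residue field 𝓞 ℚ ⧸ v is isomorphic to ZMod l (both have l elements and W⁄ of it is the image of W: a ring isomorphism ZMod l ≃ 𝓞 ℚ ⧸ v; H55P.pz10_card in Z10.lean for the number of points over isomorphic rings).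
absNorm w = l^f = absNorm v ^ inertiaDeg, so f = inertiaDeg. (W₀⁄ℚ)⁄K = W⁄K (map_map; ring homomorphisms from ℤ are equal: RingHom.ext_int or Subsingleton). -/
theorem lf_W (W : WeierstrassCurve ℤ) {K : Type} [Field K] [NumberField K] (w : HeightOneSpectrum (𝓞 K)) {l : ℕ}
    (hl : l.Prime) (hw : (l : 𝓞 K) ∈ w.asIdeal) (hΔ : ¬ (l : ℤ) ∣ W.Δ) (α β : ℂ)
    (h1 : α + β = (l : ℂ) + 1 - (Nat.card (W⁄(ZMod l)).toAffine.Point : ℂ)) (h2 : α * β = (l : ℂ)) {f : ℕ}
    (hf : Ideal.absNorm w.asIdeal = l ^ f) :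
    LF' (W⁄K) w = ef (Ideal.absNorm w.asIdeal) (α ^ f) * ef (Ideal.absNorm w.asIdeal) (β ^ f) := by
  obtain ⟨v, hv⟩ := ra2_v w
  have hlv : (l : 𝓞 ℚ) ∈ v.asIdeal := by
    rw [hv, Ideal.under_def, Ideal.mem_comap, map_natCast]
    exact hw
  obtain ⟨φ⟩ := ra2_equiv v.isPrime hl hlv
  haveI : Fact l.Prime := ⟨hl⟩
  have hcv : Ideal.absNorm v.asIdeal = l := by
    have h3 : Ideal.absNorm v.asIdeal = Nat.card (𝓞 ℚ ⧸ v.asIdeal) := rfl
    rw [h3, ← Nat.card_congr φ.toEquiv, Nat.card_zmod]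
  have hΔ' : (W.map (algebraMap ℤ (𝓞 ℚ))).Δ ∉ v.asIdeal := by
    intro hcon
    rw [WeierstrassCurve.map_Δ] at hcon
    have h3 : IsCoprime (l : ℤ) W.Δ := (Nat.prime_iff_prime_int.1 hl).coprime_iff_not_dvd.2 hΔ
    obtain ⟨a, b, hab⟩ := h3
    apply v.isPrime.ne_top
    rw [Ideal.eq_top_iff_one]
    have h4 : (1 : 𝓞 ℚ) = algebraMap ℤ (𝓞 ℚ) a * (l : 𝓞 ℚ) + algebraMap ℤ (𝓞 ℚ) b *
        algebraMap ℤ (𝓞 ℚ) W.Δ := by
      rw [← map_mul, ← map_natCast (algebraMap ℤ (𝓞 ℚ)) l, ← map_mul, ← map_add]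
      rw [show a * ((l : ℕ) : ℤ) + b * W.Δ = 1 from hab, map_one]
    rw [h4]
    exact v.asIdeal.add_mem (v.asIdeal.mul_mem_left _ hlv) (v.asIdeal.mul_mem_left _ hcon)
  have hpts : Nat.card (((W.map (algebraMap ℤ (𝓞 ℚ)))⁄(𝓞 ℚ ⧸ v.asIdeal)).toAffine.Point) =
      Nat.card (W⁄(ZMod l)).toAffine.Point := by
    have e : ((W.map (algebraMap ℤ (𝓞 ℚ)))⁄(𝓞 ℚ ⧸ v.asIdeal)) =
        (W⁄(ZMod l)).map (φ : ZMod l →+* 𝓞 ℚ ⧸ v.asIdeal) := by
      show (W.map (algebraMap ℤ (𝓞 ℚ))).map (algebraMap (𝓞 ℚ) (𝓞 ℚ ⧸ v.asIdeal)) =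
        (W.map (algebraMap ℤ (ZMod l))).map (φ : ZMod l →+* 𝓞 ℚ ⧸ v.asIdeal)
      rw [WeierstrassCurve.map_map, WeierstrassCurve.map_map]
      congr 1
      exact RingHom.ext_int _ _
    rw [e]
    exact H55P.pz10_card _ _
  have h := H55K.DD.lf_good (W.map (algebraMap ℤ (𝓞 ℚ))) w v hv hΔ' α β
    (by rw [hcv, hpts]; exact h1) (by rw [hcv]; exact h2)
  have hfi : w.asIdeal.inertiaDeg (𝓞 ℚ) = f := by
    have hlies : w.asIdeal.LiesOver v.asIdeal := ⟨hv⟩
    have hmax : v.asIdeal.IsMaximal := v.isMaximal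
    have h3 := Ideal.absNorm_eq_pow_inertiaDeg'_of_liesOver w.asIdeal v.asIdeal v.isPrime v.ne_bot
    rw [Ideal.inertiaDeg'_algebraMap, hcv, hf] at h3
    rw [Ideal.inertiaDeg_eq_of_isMaximal v.asIdeal w.asIdeal]
    exact (Nat.pow_right_injective hl.two_le h3).symm
  rw [hfi] at h
  rw [← ra2_W W K]
  exact h

/-- Chunk RA2 (S/M). lf_bad with F = ℚ. -/
theorem lf_W_bad (W : WeierstrassCurve ℤ) {K : Type} [Field K] [NumberField K] (w : HeightOneSpectrum (𝓞 K)) {j₀ : ℤ}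
    (hj : W.c₄ ^ 3 = j₀ * W.Δ) (hb : ¬ GoodAt (W⁄K) w) : LF' (W⁄K) w = 1 := by
  rw [← ra2_W W K] at hb ⊢
  refine H55K.DD.lf_bad (W.map (algebraMap ℤ (𝓞 ℚ))) w (algebraMap ℤ (𝓞 ℚ) j₀) ?_ hb
  rw [WeierstrassCurve.map_c₄, WeierstrassCurve.map_Δ, ← map_pow, hj, map_mul]

/-- Chunk RA2 (S). The rational prime below w: Ideal.absNorm is a power of it. -/
theorem below_W {K : Type} [Field K] [NumberField K] (w : HeightOneSpectrum (𝓞 K)) :
    ∃ (l f : ℕ), l.Prime ∧ (l : 𝓞 K) ∈ w.asIdeal ∧ 0 < f ∧ Ideal.absNorm w.asIdeal = l ^ f := by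
  exact ra2_below w

end H55K.TQ
end

-- from Lib.H55K.RE
section

/-! # H55K: the Hecke L-series over the quadratic extension is real -/

open NumberField IsDedekindDomain WeierstrassCurve

namespace H55K.TQ

open H55P (IQ embF eF LF Per IsHecke Pt ac Inert Dec Nm UnitP)
open H35P (WAB Ker tt GoodW IntW)
open H55K.MG (VC Crd)

variable {F K₀ K : Type} [Field F] [NumberField F] [IQ F] [Field K₀] [NumberField K₀] [Field K] [NumberField K]
  [Algebra F K] [Algebra K₀ K]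

theorem re_absNorm {R : Type} [CommRing R] [IsDedekindDomain R] [Module.Free ℤ R]
    (σ : R ≃+* R) (a : Ideal R) :
    Ideal.absNorm (a.map (σ : R →+* R)) = Ideal.absNorm a := by
  rw [Ideal.absNorm_apply, Ideal.absNorm_apply, Submodule.cardQuot_apply, Submodule.cardQuot_apply]
  exact Nat.card_congr (Ideal.quotientEquiv a (a.map (σ : R →+* R)) σ rfl).toEquiv.symm

theorem re_inertia (w : HeightOneSpectrum (𝓞 K)) {v : HeightOneSpectrum (𝓞 F)} (hv : v.asIdeal = w.asIdeal.under (𝓞 F)) :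
    Ideal.absNorm w.asIdeal = Ideal.absNorm v.asIdeal ^ w.asIdeal.inertiaDeg (𝓞 F) := by
  have h0 : w.asIdeal.LiesOver v.asIdeal := ⟨hv⟩
  have h1 := w.isMaximal
  have h2 : v.asIdeal.IsMaximal := v.isMaximal
  rw [Ideal.inertiaDeg_eq_of_isMaximal v.asIdeal w.asIdeal]
  have h := Ideal.absNorm_eq_pow_inertiaDeg'_of_liesOver w.asIdeal v.asIdeal v.isPrime v.ne_bot
  rw [Ideal.inertiaDeg'_algebraMap] at h
  exact h

theorem re_prime (σ : 𝓞 K ≃+* 𝓞 K) (hσ : ∀ x : 𝓞 F, σ (algebraMap (𝓞 F) (𝓞 K) x) = algebraMap (𝓞 F) (𝓞 K) (cj x))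
    {ψ : Ideal (𝓞 F) →*₀ 𝓞 F}
    (hcj : ∀ J : Ideal (𝓞 F), ψ (J.map ((cj : 𝓞 F ≃+* 𝓞 F) : 𝓞 F →+* 𝓞 F)) = cj (ψ J))
    (w : HeightOneSpectrum (𝓞 K)) :
    H55P.PsiP K ψ (w.asIdeal.map (σ : 𝓞 K →+* 𝓞 K)) = (starRingEnd ℂ) (H55P.PsiP K ψ w.asIdeal) := by
  obtain ⟨v, hv, hr, -, -⟩ := DD.below (F := F) (m := ⊤) w
  have hwp := w.isPrime
  obtain ⟨w', hw'⟩ : ∃ w' : HeightOneSpectrum (𝓞 K), w'.asIdeal = w.asIdeal.map (σ : 𝓞 K →+* 𝓞 K) := by
    refine ⟨⟨w.asIdeal.map (σ : 𝓞 K →+* 𝓞 K), Ideal.map_isPrime_of_equiv σ, ?_⟩, rfl⟩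
    intro h
    exact w.ne_bot ((Ideal.map_eq_bot_iff_of_injective σ.injective).1 h)
  obtain ⟨v', hv', hr', -, -⟩ := DD.below (F := F) (m := ⊤) w'
  have hvv : v'.asIdeal = v.asIdeal.map ((cj : 𝓞 F ≃+* 𝓞 F) : 𝓞 F →+* 𝓞 F) := by
    ext x
    rw [hv', Ideal.under_def, Ideal.mem_comap, hw',
      Ideal.mem_map_iff_of_surjective (σ : 𝓞 K →+* 𝓞 K) σ.surjective,
      Ideal.mem_map_iff_of_surjective ((cj : 𝓞 F ≃+* 𝓞 F) : 𝓞 F →+* 𝓞 F) cj.surjective]
    constructor
    · rintro ⟨y, hy, hyx⟩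
      have hyx' : σ y = algebraMap (𝓞 F) (𝓞 K) x := hyx
      have h1 : y = algebraMap (𝓞 F) (𝓞 K) (cj x) := by
        apply σ.injective
        rw [hσ, cj_cj, hyx']
      refine ⟨cj x, ?_, cj_cj x⟩
      rw [hv, Ideal.under_def, Ideal.mem_comap, ← h1]
      exact hy
    · rintro ⟨y, hy, hyx⟩
      refine ⟨algebraMap (𝓞 F) (𝓞 K) y, ?_, ?_⟩
      · rw [hv, Ideal.under_def, Ideal.mem_comap] at hy
        exact hy
      · have hyx' : cj y = x := hyx
        show σ (algebraMap (𝓞 F) (𝓞 K) y) = algebraMap (𝓞 F) (𝓞 K) x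
        rw [hσ, hyx']
  have hdeg : w'.asIdeal.inertiaDeg (𝓞 F) = w.asIdeal.inertiaDeg (𝓞 F) := by
    have h1 := re_inertia w hv
    have h2 := re_inertia w' hv'
    rw [hw', re_absNorm, hvv, re_absNorm, h1] at h2
    have h3 : 2 ≤ Ideal.absNorm v.asIdeal := by
      have h4 : Ideal.absNorm v.asIdeal ≠ 1 := by
        rw [Ne, Ideal.absNorm_eq_one_iff]; exact v.isPrime.ne_top
      have h5 : Ideal.absNorm v.asIdeal ≠ 0 := by
        rw [Ne, Ideal.absNorm_eq_zero_iff]; exact v.ne_bot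
      omega
    rw [← hw'] at h2
    exact (Nat.pow_right_injective h3 h2).symm
  rw [← hw', H55P.PsiP_apply, H55P.PsiP_apply, hr', hr, hdeg, hvv, map_pow, map_pow, hcj, map_pow, map_pow, map_pow, map_pow, e_cj, map_pow]

theorem re_Psi (σ : 𝓞 K ≃+* 𝓞 K) (hσ : ∀ x : 𝓞 F, σ (algebraMap (𝓞 F) (𝓞 K) x) = algebraMap (𝓞 F) (𝓞 K) (cj x))
    {ψ : Ideal (𝓞 F) →*₀ 𝓞 F}
    (hcj : ∀ J : Ideal (𝓞 F), ψ (J.map ((cj : 𝓞 F ≃+* 𝓞 F) : 𝓞 F →+* 𝓞 F)) = cj (ψ J))
    (a : Ideal (𝓞 K)) :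
    H55P.PsiP K ψ (a.map (σ : 𝓞 K →+* 𝓞 K)) = (starRingEnd ℂ) (H55P.PsiP K ψ a) := by
  induction a using UniqueFactorizationMonoid.induction_on_prime with
  | h₁ =>
    have h : (0 : Ideal (𝓞 K)).map (σ : 𝓞 K →+* 𝓞 K) = 0 := Ideal.map_bot
    rw [h, map_zero, map_zero]
  | h₂ x hx =>
    rw [Ideal.isUnit_iff] at hx
    rw [hx, Ideal.map_top, ← Ideal.one_eq_top, map_one, map_one]
  | h₃ x p hx hp ih =>
    have h1 := re_prime σ hσ hcj ⟨p, Ideal.isPrime_of_prime hp, hp.ne_zero⟩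
    simp only at h1
    rw [Ideal.map_mul, map_mul, map_mul, map_mul, ih, h1]

/-- Chunk RE (M). Port of H55D.AI_real, DQA_sigma, DQA_prime, DQA_Psi (Lib/H55D/QA.lean): Psi replaced by PsiP K ψ, O by 𝓞 F, DQA_psiF by hcj (PsiP_apply, e_cj); the prime below w and relNorm: D8.lean (H55K below) or H55N.Psi_prime. -/
theorem ai_real (hQ : QuadG F K₀ K) {ψ : Ideal (𝓞 F) →*₀ 𝓞 F}
    (hcj : ∀ J : Ideal (𝓞 F), ψ (J.map ((cj : 𝓞 F ≃+* 𝓞 F) : 𝓞 F →+* 𝓞 F)) = cj (ψ J)) :
    H55N.AI (fun a : Ideal (𝓞 K) => (starRingEnd ℂ) (H55P.PsiP K ψ a)) = H55N.AI (fun a => H55P.PsiP K ψ a) := by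
  obtain ⟨c, hc⟩ := hQ.tau
  obtain ⟨σ, hσ⟩ : ∃ σ : 𝓞 K ≃+* 𝓞 K, ∀ x : 𝓞 F, σ (algebraMap (𝓞 F) (𝓞 K) x) = algebraMap (𝓞 F) (𝓞 K) (cj x) := by
    refine ⟨NumberField.RingOfIntegers.mapRingEquiv (c : K ≃+* K), fun x => ?_⟩
    apply NumberField.RingOfIntegers.ext
    exact hc x
  let E : Ideal (𝓞 K) ≃ Ideal (𝓞 K) :=
    { toFun := fun a => a.map (σ : 𝓞 K →+* 𝓞 K)
      invFun := fun a => a.map (σ.symm : 𝓞 K →+* 𝓞 K)
      left_inv := fun a => Ideal.map_of_equiv σ
      right_inv := fun a => Ideal.map_of_equiv σ.symm }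
  ext n
  show (if n = 0 then 0 else ∑ᶠ (a : Ideal (𝓞 K)) (_ : Ideal.absNorm a = n), (starRingEnd ℂ) (H55P.PsiP K ψ a)) =
    if n = 0 then 0 else ∑ᶠ (a : Ideal (𝓞 K)) (_ : Ideal.absNorm a = n), H55P.PsiP K ψ a
  by_cases hn : n = 0
  · rw [if_pos hn, if_pos hn]
  · rw [if_neg hn, if_neg hn,
      ← finsum_comp_equiv E (f := fun b : Ideal (𝓞 K) => ∑ᶠ (_ : Ideal.absNorm b = n), H55P.PsiP K ψ b)]
    refine finsum_congr fun a => ?_
    show _ = ∑ᶠ (_ : Ideal.absNorm (a.map (σ : 𝓞 K →+* 𝓞 K)) = n), H55P.PsiP K ψ (a.map (σ : 𝓞 K →+* 𝓞 K))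
    rw [re_absNorm, re_Psi σ hσ hcj]

end H55K.TQ
end

-- from Lib.H55K.RP3
section

/-! # H55K: the field generated by F over a field K -/

open NumberField IsDedekindDomain WeierstrassCurve

namespace H55K.TQ

open H55P (IQ embF eF LF Per IsHecke Pt ac Inert Dec Nm UnitP)
open H35P (WAB Ker tt GoodW IntW)
open H55K.MG (VC Crd)

variable (F : Type) [Field F] [NumberField F] [IQ F] {Ω : Type} [Field Ω] [Algebra F Ω] [Algebra ℚ Ω] [IsScalarTower ℚ F Ω]

/-- Chunk RP3 (S/M). Port of H55P.kf_iso (Z14.lean): the range of ι is the carrier of KG. -/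
theorem kg_iso (K : Type) [Field K] [NumberField K] (ι : K →ₐ[ℚ] Ω) (f : F →+* K)
    (hf : ∀ y : F, ι (f y) = algebraMap F Ω y) :
    letI : Algebra F K := f.toAlgebra
    Nonempty (K ≃ₐ[F] KG F K ι) := by
  letI : Algebra F K := f.toAlgebra
  let g : K →ₐ[F] KG F K ι :=
    { KGmap F K ι with
      commutes' := fun y => Subtype.ext (hf y) }
  have hsurj : Function.Surjective g := by
    rintro ⟨x, hx⟩
    have h1 : ∃ y : K, ι y = x := by
      refine IntermediateField.adjoin_induction F (p := fun x _ => ∃ y : K, ι y = x) ?_ ?_ ?_ ?_ ?_ hx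
      · rintro _ ⟨y, rfl⟩
        exact ⟨y, rfl⟩
      · intro x
        exact ⟨f x, hf x⟩
      · rintro x y _ _ ⟨a, rfl⟩ ⟨b, rfl⟩
        exact ⟨a + b, map_add ι a b⟩
      · rintro x _ ⟨a, rfl⟩
        exact ⟨a⁻¹, map_inv₀ ι a⟩
      · rintro x y _ _ ⟨a, rfl⟩ ⟨b, rfl⟩
        exact ⟨a * b, map_mul ι a b⟩
    obtain ⟨y, hy⟩ := h1
    exact ⟨y, Subtype.ext hy⟩
  exact ⟨AlgEquiv.ofBijective g ⟨g.toRingHom.injective, hsurj⟩⟩

/-- Chunk RP3 (S). [K : ℚ] = [KG : F] in the quadratic case: [KG : ℚ] = 2 [K : ℚ] = 2 [KG : F]. -/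
theorem quad_deg {K₀ K : Type} [Field K₀] [NumberField K₀] [Field K] [NumberField K] [Algebra F K] [Algebra K₀ K]
    (hQ : QuadG F K₀ K) : Module.finrank ℚ K₀ = Module.finrank F K := by
  have h1 := Module.finrank_mul_finrank ℚ K₀ K
  have h2 := Module.finrank_mul_finrank ℚ F K
  have h3 : Module.finrank ℚ F = 2 := IQ.deg
  rw [hQ.rank] at h1
  rw [h3] at h2
  omega

end H55K.TQ
end

-- from Lib.H55K.G5C
section

/-! # H55K: points killed by a prime element below V -/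

open NumberField IsDedekindDomain WeierstrassCurve

namespace H55K

open H55P (IQ embF eF LF Per IsHecke Pt ac Inert Dec Nm)
open H35P (WAB Ker tt)


variable {F : Type} [Field F] [NumberField F] [IQ F] {A B : F} {Om : ℂ} {Ω : Type} [Field Ω] [DecidableEq Ω]
  [Algebra F Ω] {j : Ω →+* ℂ} {act : 𝓞 F →+* AddMonoid.End (Pt (WAB A B) Ω)} {V : ValuationSubring Ω}

/-- Chunk G5C (M). The points killed by β are in the kernel of reduction. S from exists_TN. Suppose R₀ in S is not in Ker. Then no R in S is (tor_trans, ker_act). Y outside Hb (Hb_ne), X outside Hb with X - (Y - R), X - (-Y - R) not in Ker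
for all R in S and R = 0 (inf_cls). e2 (act β X ≠ 0, act β Y ≠ 0 since they are not in Ker). All coordinates are integral (not_ker, Hb_add), so the left side has value ≤ V(β)^2 < 1; so some factor of the right side has value < 1: V(xc (X + R) - xc Y) < 1 for some
R in S or R = 0; cls_x: X + R - Y or X + R + Y in Ker: contradiction. -/
theorem tor_ker (h : CMA F A B Om j act) (hV : GV A B V) {β : 𝓞 F} (hβ : Prime β)
    (hv : V.valuation (ak Ω β) < 1) {T : Pt (WAB A B) Ω} (hT : T ∈ Tor act β) : Ker V T := by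
  classical
  by_contra hK
  have hT0 : T ≠ 0 := (not_ker V hK).1
  obtain ⟨S, hS, -⟩ := exists_TN h hβ.ne_zero
  have hSK : ∀ R ∈ S, ¬ Ker V R := by
    intro R hR hRK
    obtain ⟨h1, h2⟩ := (hS R).1 hR
    obtain ⟨c, hc, -⟩ := tor_trans h V hβ hv (R := R) (R' := T) h1 h2 hT hT0
    apply hK
    rw [hc]
    exact ker_act h hV c hRK
  obtain ⟨Y, hY⟩ := Hb_ne h hV hβ.ne_zero
  obtain ⟨X, hX, hXC⟩ := inf_cls h hV (Hb act hV β) ⟨Y, hY⟩
    ((insert 0 S).image (fun R => Y - R) ∪ (insert 0 S).image (fun R => -Y - R))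
  have hYK : ¬ Ker V Y := (Hb_add h hV hY (R := 0) (map_zero _)).2.1
  have hXK : ¬ Ker V X := (Hb_add h hV hX (R := 0) (map_zero _)).2.1
  have haX : ¬ Ker V (act β X) := hX
  have haY : ¬ Ker V (act β Y) := hY
  have hcl : ∀ R ∈ insert 0 S, ¬ Ker V (X + R) → V.valuation (xc (X + R) - xc Y) = 1 := by
    intro R hR hXR
    refine le_antisymm (V.valuation.map_sub_le (not_ker V hXR).2 (not_ker V hYK).2) ?_
    by_contra hlt
    rw [not_le] at hlt
    rcases cls_x hV hXR hYK hlt with h1 | h1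
    · refine hXC (Y - R) (Finset.mem_union_left _ (Finset.mem_image_of_mem _ hR)) ?_
      have e : X - (Y - R) = X + R - Y := by abel
      rw [e]
      exact h1
    · refine hXC (-Y - R) (Finset.mem_union_right _ (Finset.mem_image_of_mem _ hR)) ?_
      have e : X - (-Y - R) = X + R + Y := by abel
      rw [e]
      exact h1
  have h0 : V.valuation (xc X - xc Y) = 1 := by
    have := hcl 0 (Finset.mem_insert_self _ _) (by rw [add_zero]; exact hXK)
    rw [add_zero] at this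
    exact this
  have hR : ∀ R ∈ S, V.valuation (xc (X + R) - xc Y) = 1 := fun R hR =>
    hcl R (Finset.mem_insert_of_mem hR) (Hb_add h hV hX ((hS R).1 hR).1).1
  have he := congrArg V.valuation (h.e2 β S hβ.ne_zero hS X Y (not_ker V haX).1 (not_ker V haY).1)
  rw [map_mul, map_mul, map_mul, map_pow, map_prod, map_prod, h0, Finset.prod_congr rfl hR,
    Finset.prod_const_one, one_mul] at he
  have h1 : V.valuation (ak Ω β) ^ 2 < 1 := pow_lt_one₀ zero_le hv two_ne_zero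
  have h2 : V.valuation (xc (act β X) - xc (act β Y)) ≤ 1 :=
    V.valuation.map_sub_le (not_ker V haX).2 (not_ker V haY).2
  have h3 : ∏ R ∈ S, V.valuation (xc R - xc Y) ≤ 1 := Finset.prod_le_one' fun R hR =>
    V.valuation.map_sub_le (not_ker V (hSK R hR)).2 (not_ker V hYK).2
  have h4 : V.valuation (ak Ω β) ^ 2 * V.valuation (xc (act β X) - xc (act β Y)) *
      ∏ R ∈ S, V.valuation (xc R - xc Y) < 1 := by
    refine lt_of_le_of_lt (mul_le_of_le_one_right' h3) ?_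
    exact lt_of_le_of_lt (mul_le_of_le_one_right' h2) h1
  rw [he] at h4
  exact lt_irrefl _ h4

end H55K
end

-- from Lib.H55K.G5D
section

/-! # H55K: points killed by a prime element below V -/

open NumberField IsDedekindDomain WeierstrassCurve

namespace H55K

open H55P (IQ embF eF LF Per IsHecke Pt ac Inert Dec Nm)
open H35P (WAB Ker tt)


variable {F : Type} [Field F] [NumberField F] [IQ F] {A B : F} {Om : ℂ} {Ω : Type} [Field Ω] [DecidableEq Ω]
  [Algebra F Ω] {j : Ω →+* ℂ} {act : 𝓞 F →+* AddMonoid.End (Pt (WAB A B) Ω)} {V : ValuationSubring Ω}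

/-- Chunk G5D (M). The value. T ≠ 0 in Tor; tau = V(tt R) is the same for all R in S (tor_trans, tt_act_unit), so V(xc R) tau^2 = 1. P₁ outside Ker (Hb_ne, its image), P₂ outside Ker with P₂ - P₁, P₂ + P₁ not in Ker (inf_cls with H = kerG, C = {P₁, -P₁, 0}). surj: P₁ = act β X, P₂ = act β Y; X, Y outside Hb. V(xc P₁ - xc P₂) = 1
(cls_diff). X - Y, X + Y are not in Ker (ker_act), and so on for X + R (tor_ker, ksub): V(xc (X + R) - xc Y) = 1 for R = 0 and R in S (cls_diff, Hb_add). V(xc R - xc Y) = V(xc R) for R in S (V(xc Y) ≤ 1 < V(xc R)). e2: V(β)^2 * prod V(xc R) = 1, so V(β)^2 = (tau^2)^(Nm β - 1) (S.card = Nm β - 1), hence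
tau^(Nm β - 1) = V(β) (pow_left_injective in the ordered group with zero). -/
theorem tor_ram (h : CMA F A B Om j act) (hV : GV A B V) {β : 𝓞 F} (hβ : Prime β) (hv : V.valuation (ak Ω β) < 1)
    {T : Pt (WAB A B) Ω} (hT : T ∈ Tor act β) (h0 : T ≠ 0) :
    Ker V T ∧ V.valuation (tt T) ^ (Nm β - 1) = V.valuation (ak Ω β) := by
  classical
  have hTK := tor_ker h hV hβ hv hT
  refine ⟨hTK, ?_⟩
  obtain ⟨S, hS, hcard⟩ := exists_TN h hβ.ne_zero
  have hSK : ∀ R ∈ S, Ker V R := fun R hR => tor_ker h hV hβ hv ((hS R).1 hR).1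
  have htau : ∀ R ∈ S, V.valuation (tt R) = V.valuation (tt T) := by
    intro R hR
    obtain ⟨h1, h2⟩ := (hS R).1 hR
    obtain ⟨c, hc, hc1⟩ := tor_trans h V hβ hv (R := T) (R' := R) hT h0 h1 h2
    rw [hc]
    exact tt_act_unit h hV hc1 hTK
  obtain ⟨X, hX⟩ := Hb_ne h hV hβ.ne_zero
  have haX : ¬ Ker V (act β X) := hX
  obtain ⟨P₂, hP₂, hPC⟩ := inf_cls h hV (kerG hV) ⟨act β X, haX⟩ {act β X, -act β X}
  obtain ⟨Y, hY⟩ := h.surj β hβ.ne_zero P₂
  have haY : ¬ Ker V (act β Y) := by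
    rw [hY]
    exact hP₂
  have hYH : Y ∉ Hb act hV β := haY
  have hXK : ¬ Ker V X := (Hb_add h hV hX (R := 0) (map_zero _)).2.1
  have hYK : ¬ Ker V Y := (Hb_add h hV hYH (R := 0) (map_zero _)).2.1
  have hd1 : ¬ Ker V (act β X - act β Y) := by
    intro hk
    refine hPC (act β X) (by simp) ?_
    have := kneg hk
    rw [neg_sub, hY] at this
    exact this
  have hd2 : ¬ Ker V (act β X + act β Y) := by
    intro hk
    refine hPC (-act β X) (by simp) ?_
    rw [sub_neg_eq_add, add_comm, ← hY]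
    exact hk
  have hcl : ∀ R, act β R = 0 → V.valuation (xc (X + R) - xc Y) = 1 := by
    intro R hR
    refine cls_diff hV (Hb_add h hV hX hR).1 hYK ?_ ?_
    · intro hk
      have := ker_act h hV β hk
      rw [map_sub, map_add, hR, add_zero] at this
      exact hd1 this
    · intro hk
      have := ker_act h hV β hk
      rw [map_add, map_add, hR, add_zero] at this
      exact hd2 this
  have hc0 : V.valuation (xc X - xc Y) = 1 := by
    have := hcl 0 (map_zero _)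
    rw [add_zero] at this
    exact this
  have hR1 : ∀ R ∈ S, V.valuation (xc R - xc Y) = V.valuation (xc R) := by
    intro R hR
    refine Valuation.map_sub_eq_of_lt_left _ (lt_of_le_of_lt (not_ker V hYK).2 ?_)
    exact (ker_iff V ((hS R).1 hR).2).1 (hSK R hR)
  have he := congrArg V.valuation (h.e2 β S hβ.ne_zero hS X Y (not_ker V haX).1 (not_ker V haY).1)
  rw [map_mul, map_mul, map_mul, map_pow, map_prod, map_prod, hc0,
    Finset.prod_congr rfl fun R hR => hcl R ((hS R).1 hR).1,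
    Finset.prod_const_one, one_mul, cls_diff hV haX haY hd1 hd2, mul_one,
    Finset.prod_congr rfl hR1] at he
  have hprod : ∏ R ∈ S, (V.valuation (tt T) ^ 2 * V.valuation (xc R)) = 1 := by
    refine Finset.prod_eq_one fun R hR => ?_
    rw [← htau R hR]
    exact (tt_val hV (hSK R hR) ((hS R).1 hR).2).1
  rw [Finset.prod_mul_distrib, Finset.prod_const, hcard] at hprod
  have hne : ∏ R ∈ S, V.valuation (xc R) ≠ 0 := by
    intro hz
    rw [hz, mul_zero] at he
    exact zero_ne_one he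
  have h2 : (V.valuation (tt T) ^ (Nm β - 1)) ^ 2 = V.valuation (ak Ω β) ^ 2 := by
    rw [← pow_mul, mul_comm (Nm β - 1) 2, pow_mul]
    exact mul_right_cancel₀ hne (hprod.trans he.symm)
  exact (pow_left_inj₀ zero_le zero_le two_ne_zero).1 h2

end H55K
end

-- from Lib.H55K.G5E
section

/-! # H55K: points killed by a prime element below V -/

open NumberField IsDedekindDomain WeierstrassCurve

namespace H55K

open H55P (IQ embF eF LF Per IsHecke Pt ac Inert Dec Nm)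
open H35P (WAB Ker tt)


variable {F : Type} [Field F] [NumberField F] [IQ F] {A B : F} {Om : ℂ} {Ω : Type} [Field Ω] [DecidableEq Ω]
  [Algebra F Ω] {j : Ω →+* ℂ} {act : 𝓞 F →+* AddMonoid.End (Pt (WAB A B) Ω)} {V : ValuationSubring Ω}

/-- Chunk G5E (S/M). For S: V(β)^2 * prod over S of V(xc R) = 1 (from tor_ram and tt_val). -/
theorem prod_xR (h : CMA F A B Om j act) (hV : GV A B V) {β : 𝓞 F} (hβ : Prime β) (hv : V.valuation (ak Ω β) < 1)
    {S : Finset (Pt (WAB A B) Ω)} (hS : TN act β S) :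
    V.valuation (ak Ω β) ^ 2 * ∏ R ∈ S, V.valuation (xc R) = 1 := by
  classical
  obtain ⟨S', hS', hcard⟩ := exists_TN h hβ.ne_zero
  have hSS : S' = S := by
    ext R
    rw [hS R, hS' R]
  rw [hSS] at hcard
  have hne : S.card ≠ 0 := by
    rw [hcard]
    intro h1
    have h2 : Nm β ≠ 1 := by
      intro h3
      unfold Nm at h3
      rw [Ideal.absNorm_eq_one_iff, Ideal.span_singleton_eq_top] at h3
      exact hβ.not_isUnit h3
    have h3 : Nm β ≠ 0 := fun h4 => hβ.ne_zero (H55P.Nm_eq_zero.1 h4)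
    omega
  have hR : ∀ R ∈ S, V.valuation (ak Ω β) ^ 2 * V.valuation (xc R) ^ S.card = 1 := by
    intro R hR
    obtain ⟨h1, h2⟩ := (hS R).1 hR
    obtain ⟨hK, h3⟩ := tor_ram h hV hβ hv (T := R) h1 h2
    rw [hcard, ← h3, ← pow_mul, mul_comm (Nm β - 1) 2, pow_mul, ← mul_pow, (tt_val hV hK h2).1, one_pow]
  have hprod : ∏ R ∈ S, (V.valuation (ak Ω β) ^ 2 * V.valuation (xc R) ^ S.card) = 1 := Finset.prod_eq_one hR
  rw [Finset.prod_mul_distrib, Finset.prod_const, Finset.prod_pow, ← mul_pow] at hprod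
  exact (pow_eq_one_iff.mp hprod).resolve_right hne

theorem G5E_xRY (h : CMA F A B Om j act) (hV : GV A B V) {β : 𝓞 F} (hβ : Prime β) (hv : V.valuation (ak Ω β) < 1)
    {S : Finset (Pt (WAB A B) Ω)} (hS : TN act β S) {Y : Pt (WAB A B) Ω} (hYK : ¬ Ker V Y) {R : Pt (WAB A B) Ω}
    (hR : R ∈ S) : V.valuation (xc R - xc Y) = V.valuation (xc R) := by
  refine Valuation.map_sub_eq_of_lt_left _ (lt_of_le_of_lt (not_ker V hYK).2 ?_)
  exact (ker_iff V ((hS R).1 hR).2).1 (tor_ker h hV hβ hv ((hS R).1 hR).1)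

/-- Chunk G5E. Suppose act β X in Ker, X not in Ker. act β X ≠ 0 (else X in Tor, tor_ker). Y outside Hb (Hb_ne). e2: V(xc (act β X) - xc (act β Y)) = V(xc (act β X)) > 1; V(xc R - xc Y) = V(xc R) for R in S; so the left side has value > 1 by prod_xR; the right side has value ≤ 1 (X + R not in Ker because
R is in Ker and X is not; Y not in Ker): contradiction. -/
theorem ker_red (h : CMA F A B Om j act) (hV : GV A B V) {β : 𝓞 F} (hβ : Prime β)
    (hv : V.valuation (ak Ω β) < 1) {X : Pt (WAB A B) Ω} (hX : Ker V (act β X)) : Ker V X := by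
  classical
  by_contra hXK
  obtain ⟨S, hS, -⟩ := exists_TN h hβ.ne_zero
  have haX0 : act β X ≠ 0 := fun h0 => hXK (tor_ker h hV hβ hv (T := X) h0)
  obtain ⟨Y, hY⟩ := Hb_ne h hV hβ.ne_zero
  have hYK : ¬ Ker V Y := (Hb_add h hV hY (R := 0) (map_zero _)).2.1
  have haY : ¬ Ker V (act β Y) := hY
  have h1 : 1 < V.valuation (xc (act β X)) := (ker_iff V haX0).1 hX
  have h2 : V.valuation (xc (act β X) - xc (act β Y)) = V.valuation (xc (act β X)) :=
    Valuation.map_sub_eq_of_lt_left _ (lt_of_le_of_lt (not_ker V haY).2 h1)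
  have he := congrArg V.valuation (h.e2 β S hβ.ne_zero hS X Y haX0 (not_ker V haY).1)
  rw [map_mul, map_mul, map_mul, map_pow, map_prod, map_prod, h2,
    Finset.prod_congr rfl fun R hR => G5E_xRY h hV hβ hv hS hYK hR, mul_right_comm,
    prod_xR h hV hβ hv hS, one_mul] at he
  have h3 : V.valuation (xc X - xc Y) * ∏ R ∈ S, V.valuation (xc (X + R) - xc Y) ≤ 1 := by
    refine (mul_le_of_le_one_right' ?_).trans (V.valuation.map_sub_le (not_ker V hXK).2 (not_ker V hYK).2)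
    refine Finset.prod_le_one' fun R hR => ?_
    refine V.valuation.map_sub_le (not_ker V fun hk => hXK ?_).2 (not_ker V hYK).2
    have := ksub hV hk (tor_ker h hV hβ hv ((hS R).1 hR).1)
    rw [add_sub_cancel_right] at this
    exact this
  rw [← he] at h3
  exact absurd h1 (not_lt.2 h3)

/-- Chunk G5E. If Q = 0 or Q + R = 0 for some R in S then both sides are 0 (tt 0 = 0). Otherwise act β Q ≠ 0 (Q is not killed by β), Y outside Hb; e2 with X = Q: V(xc (act β Q) - xc (act β Y)) = V(xc (act β Q)), V(xc (Q + R) - xc Y) = V(xc (Q + R)) > 1, V(xc R - xc Y) = V(xc R); prod_xR: V(xc (act β Q)) =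
V(xc Q) * prod V(xc (Q + R)); squares of tt by tt_val, then pow_left_injective. -/
theorem ker_prod (h : CMA F A B Om j act) (hV : GV A B V) {β : 𝓞 F} (hβ : Prime β)
    (hv : V.valuation (ak Ω β) < 1) {S : Finset (Pt (WAB A B) Ω)} (hS : TN act β S) {Q : Pt (WAB A B) Ω}
    (hQ : Ker V Q) :
    V.valuation (tt Q) * ∏ R ∈ S, V.valuation (tt (Q + R)) = V.valuation (tt (act β Q)) := by
  classical
  have htt0 : tt (0 : Pt (WAB A B) Ω) = 0 := rfl
  by_cases hQ0 : Q = 0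
  · rw [hQ0, map_zero, htt0, map_zero, zero_mul]
  by_cases hQR : ∃ R ∈ S, Q + R = 0
  · obtain ⟨R, hR, h1⟩ := hQR
    have h2 : act β Q = 0 := by
      rw [eq_neg_of_add_eq_zero_left h1, map_neg, ((hS R).1 hR).1, neg_zero]
    rw [h2, htt0, map_zero, Finset.prod_eq_zero hR (by rw [h1, htt0, map_zero]), mul_zero]
  push Not at hQR
  have haQ0 : act β Q ≠ 0 := by
    intro h0
    refine hQR (-Q) ((hS (-Q)).2 ⟨?_, neg_ne hQ0⟩) (add_neg_cancel Q)
    rw [map_neg, h0, neg_zero]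
  have hSK : ∀ R ∈ S, Ker V R := fun R hR => tor_ker h hV hβ hv ((hS R).1 hR).1
  have hQRK : ∀ R ∈ S, Ker V (Q + R) := fun R hR => kadd hV hQ (hSK R hR)
  have haQ : Ker V (act β Q) := ker_act h hV β hQ
  obtain ⟨Y, hY⟩ := Hb_ne h hV hβ.ne_zero
  have hYK : ¬ Ker V Y := (Hb_add h hV hY (R := 0) (map_zero _)).2.1
  have haY : ¬ Ker V (act β Y) := hY
  have hgen : ∀ {P Z : Pt (WAB A B) Ω}, Ker V P → P ≠ 0 → ¬ Ker V Z →
      V.valuation (xc P - xc Z) = V.valuation (xc P) := fun hP hP0 hZ =>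
    Valuation.map_sub_eq_of_lt_left _ (lt_of_le_of_lt (not_ker V hZ).2 ((ker_iff V hP0).1 hP))
  have he := congrArg V.valuation (h.e2 β S hβ.ne_zero hS Q Y haQ0 (not_ker V haY).1)
  rw [map_mul, map_mul, map_mul, map_pow, map_prod, map_prod, hgen haQ haQ0 haY, hgen hQ hQ0 hYK,
    Finset.prod_congr rfl fun R hR => hgen (hSK R hR) ((hS R).1 hR).2 hYK,
    Finset.prod_congr rfl fun R hR => hgen (hQRK R hR) (hQR R hR) hYK, mul_right_comm,
    prod_xR h hV hβ hv hS, one_mul] at he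
  have h1 := (tt_val hV haQ haQ0).1
  have h2 := (tt_val hV hQ hQ0).1
  have h3 : ∏ R ∈ S, (V.valuation (tt (Q + R)) ^ 2 * V.valuation (xc (Q + R))) = 1 :=
    Finset.prod_eq_one fun R hR => (tt_val hV (hQRK R hR) (hQR R hR)).1
  rw [Finset.prod_mul_distrib, Finset.prod_pow] at h3
  have hne : V.valuation (xc (act β Q)) ≠ 0 := by
    intro hz
    rw [hz, mul_zero] at h1
    exact zero_ne_one h1
  refine (pow_left_inj₀ zero_le zero_le two_ne_zero).1 (mul_right_cancel₀ hne ?_)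
  rw [h1, he, mul_pow, mul_mul_mul_comm, h2, h3, one_mul]

end H55K
end

-- from Lib.H55K.G7C
section

/-! # H55K: Frobenius elements: the x-coordinate -/

open NumberField IsDedekindDomain WeierstrassCurve

namespace H55K

open H55P (IQ embF eF LF Per IsHecke Pt ac Inert Dec Nm)
open H35P (WAB Ker tt)


variable {F : Type} [Field F] [NumberField F] [IQ F] {A B : F} {Om : ℂ} {Ω : Type} [Field Ω] [DecidableEq Ω]
  [Algebra F Ω] {j : Ω →+* ℂ} {act : 𝓞 F →+* AddMonoid.End (Pt (WAB A B) Ω)} {V : ValuationSubring Ω}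

theorem g7c_mul {k : Type} [Field k] (V : ValuationSubring k) {a b : k} (ha : V.valuation a ≤ 1)
    (hb : V.valuation b < 1) : V.valuation (a * b) < 1 := by
  rw [mul_comm, map_mul]
  exact mul_lt_one_of_lt_of_le hb ha

theorem g7c_prod {ι k : Type} [Field k] (V : ValuationSubring k) (S : Finset ι) (f g : ι → k)
    (hf : ∀ i ∈ S, V.valuation (f i) ≤ 1) (hg : ∀ i ∈ S, V.valuation (g i) ≤ 1)
    (hd : ∀ i ∈ S, V.valuation (f i - g i) < 1) : V.valuation (∏ i ∈ S, f i - ∏ i ∈ S, g i) < 1 := by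
  classical
  induction S using Finset.induction_on with
  | empty => simp
  | insert a S ha ih =>
    rw [Finset.prod_insert ha, Finset.prod_insert ha]
    have h1 : V.valuation (∏ i ∈ S, g i) ≤ 1 := by
      rw [map_prod]
      exact Finset.prod_le_one' fun i hi => hg i (Finset.mem_insert_of_mem hi)
    have h2 := ih (fun i hi => hf i (Finset.mem_insert_of_mem hi))
      (fun i hi => hg i (Finset.mem_insert_of_mem hi)) (fun i hi => hd i (Finset.mem_insert_of_mem hi))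
    have h3 : f a * ∏ i ∈ S, f i - g a * ∏ i ∈ S, g i =
        f a * (∏ i ∈ S, f i - ∏ i ∈ S, g i) + (f a - g a) * ∏ i ∈ S, g i := by ring
    rw [h3]
    refine V.valuation.map_add_lt ?_ ?_
    · exact g7c_mul V (hf a (Finset.mem_insert_self a S)) h2
    · rw [map_mul]
      exact mul_lt_one_of_lt_of_le (hd a (Finset.mem_insert_self a S)) h1

theorem g7c_add {k : Type} [Field k] (V : ValuationSubring k) {q : ℕ} (hq : q.Prime)
    (hqV : V.valuation (q : k) < 1) {x y : k} (hx : V.valuation x ≤ 1) (hy : V.valuation y ≤ 1) :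
    V.valuation ((x + y) ^ q - (x ^ q + y ^ q)) < 1 := by
  obtain ⟨r, hr⟩ := exists_add_pow_prime_eq hq
    (⟨x, V.mem_of_valuation_le_one x hx⟩ : V) (⟨y, V.mem_of_valuation_le_one y hy⟩ : V)
  have hr' : (x + y) ^ q = x ^ q + y ^ q + (q : k) * x * y * (r : k) := by
    have := congrArg (Subtype.val) hr
    simpa using this
  have h1 : (x + y) ^ q - (x ^ q + y ^ q) = (q : k) * (x * y * (r : k)) := by
    rw [hr']
    ring
  rw [h1, map_mul]
  refine mul_lt_one_of_lt_of_le hqV ?_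
  rw [map_mul, map_mul]
  exact mul_le_one' (mul_le_one' hx hy) (V.valuation_le_one r)

/-- Chunk G7C (M). κ = β^2 * prod over S of xc R (S the nonzero points killed by β), V(κ) = 1 (prod_xR). For X, Y not in Ker: act β X, act β Y are not in Ker (ker_red), e2: κ prod (1 - xc Y/xc R) (xc (βX) - xc (βY)) = (xc X - xc Y) prod (xc (X+R) - xc Y), where V(xc Y/xc R) < 1 and
V(xc (X + R) - xc X) < 1 (tor_ker, cls_conv): so κ (xc (βX) - xc (βY)) is congruent to (xc X - xc Y)^q, q = Nm β = S.card + 1, and this to xc X^q - xc Y^q (q is a prime number with V(q) < 1; add_pow_char style: the binomial coefficients are divisible by q). -/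
theorem frob_diff (h : CMA F A B Om j act) (hV : GV A B V) {β : 𝓞 F} (hβ : Prime β)
    (hv : V.valuation (ak Ω β) < 1) (hq : (Nm β).Prime) : ∃ κ : Ω, V.valuation κ = 1 ∧
    ∀ X Y : Pt (WAB A B) Ω, ¬ Ker V X → ¬ Ker V Y →
      V.valuation (κ * (xc (act β X) - xc (act β Y)) - (xc X ^ Nm β - xc Y ^ Nm β)) < 1 := by
  classical
  have hβ0 : β ≠ 0 := hβ.ne_zero
  obtain ⟨S, hS, hcard⟩ := exists_TN h hβ0
  have hqV : V.valuation ((Nm β : ℕ) : Ω) < 1 := by
    have h1 : ((Nm β : ℕ) : Ω) = ak Ω β * ak Ω (cj β) := by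
      have h2 := mul_cj β
      have h3 := congrArg (fun z : 𝓞 F => algebraMap F Ω (algebraMap (𝓞 F) F z)) h2
      simp only [map_mul, map_natCast] at h3
      exact h3.symm
    rw [h1, map_mul]
    exact mul_lt_one_of_lt_of_le hv (ak_le V (cj β))
  have hq2 : Nm β ≠ 2 := by
    intro h2
    rw [h2, Nat.cast_ofNat, hV.two] at hqV
    exact lt_irrefl _ hqV
  have hodd : Odd (Nm β) := hq.odd_of_ne_two hq2
  have hR1 : ∀ R ∈ S, R ≠ 0 ∧ Ker V R ∧ 1 < V.valuation (xc R) := by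
    intro R hR
    obtain ⟨h1, h2⟩ := (hS R).1 hR
    have h3 : Ker V R := tor_ker h hV hβ hv h1
    exact ⟨h2, h3, (ker_iff V h2).1 h3⟩
  have hxR : ∀ R ∈ S, xc R ≠ 0 := by
    intro R hR h0
    have := (hR1 R hR).2.2
    rw [h0, map_zero] at this
    exact absurd this (not_lt.2 zero_le_one)
  have hred : ∀ X : Pt (WAB A B) Ω, ¬ Ker V X → ¬ Ker V (act β X) := fun X hX hX' =>
    hX (ker_red h hV hβ hv hX')
  refine ⟨ak Ω β ^ 2 * ∏ R ∈ S, xc R, ?_, ?_⟩
  · rw [map_mul, map_pow, map_prod]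
    exact prod_xR h hV hβ hv hS
  · intro X Y hX hY
    have hκ : V.valuation (ak Ω β ^ 2 * ∏ R ∈ S, xc R) = 1 := by
      rw [map_mul, map_pow, map_prod]
      exact prod_xR h hV hβ hv hS
    obtain ⟨hX0, hX1⟩ := not_ker V hX
    obtain ⟨hY0, hY1⟩ := not_ker V hY
    obtain ⟨hbX0, hbX1⟩ := not_ker V (hred X hX)
    obtain ⟨hbY0, hbY1⟩ := not_ker V (hred Y hY)
    have he2 := h.e2 β S hβ0 hS X Y hbX0 hbY0
    have hu : V.valuation (∏ R ∈ S, (1 - xc Y / xc R) - ∏ R ∈ S, (1 : Ω)) < 1 := by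
      have hlt : ∀ R ∈ S, V.valuation (xc Y / xc R) < 1 := by
        intro R hR
        rw [map_div₀]
        have h1 := (hR1 R hR).2.2
        exact (div_lt_one₀ (zero_lt_one.trans h1)).2 (hY1.trans_lt h1)
      refine g7c_prod V S _ _ (fun R hR => ?_) (fun R hR => (map_one _).le) (fun R hR => ?_)
      · refine (V.valuation.map_sub _ _).trans (max_le (map_one _).le (hlt R hR).le)
      · have h1 : 1 - xc Y / xc R - 1 = -(xc Y / xc R) := by ring
        rw [h1, Valuation.map_neg]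
        exact hlt R hR
    rw [Finset.prod_const_one] at hu
    have hP : V.valuation (∏ R ∈ S, (xc (X + R) - xc Y) - ∏ R ∈ S, (xc X - xc Y)) < 1 := by
      have hc : ∀ R ∈ S, ¬ Ker V (X + R) ∧ V.valuation (xc (X + R) - xc X) < 1 := by
        intro R hR
        have h1 : Ker V (X + R - X) := by
          rw [add_sub_cancel_left]
          exact (hR1 R hR).2.1
        obtain ⟨h2, h3, _⟩ := cls_conv hV hX h1
        exact ⟨h2, h3⟩
      refine g7c_prod V S _ _ (fun R hR => ?_) (fun R hR => ?_) (fun R hR => ?_)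
      · exact (V.valuation.map_sub _ _).trans (max_le (not_ker V (hc R hR).1).2 hY1)
      · exact (V.valuation.map_sub _ _).trans (max_le hX1 hY1)
      · have h1 : xc (X + R) - xc Y - (xc X - xc Y) = xc (X + R) - xc X := by ring
        rw [h1]
        exact (hc R hR).2
    rw [Finset.prod_const, hcard] at hP
    have hprod : ∏ R ∈ S, (xc R - xc Y) = (∏ R ∈ S, xc R) * ∏ R ∈ S, (1 - xc Y / xc R) := by
      rw [← Finset.prod_mul_distrib]
      refine Finset.prod_congr rfl fun R hR => ?_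
      have := hxR R hR
      field_simp
    rw [hprod] at he2
    have hqpos : 1 ≤ Nm β := hq.one_lt.le
    have hpow : (xc X - xc Y) * (xc X - xc Y) ^ (Nm β - 1) = (xc X - xc Y) ^ Nm β := by
      rw [← pow_succ', Nat.sub_add_cancel hqpos]
    have hsub : V.valuation ((xc X - xc Y) ^ Nm β - (xc X ^ Nm β - xc Y ^ Nm β)) < 1 := by
      have h1 := g7c_add V hq hqV hX1 (y := -xc Y) (by rw [Valuation.map_neg]; exact hY1)
      rw [hodd.neg_pow] at h1
      have h2 : (xc X - xc Y) ^ Nm β - (xc X ^ Nm β - xc Y ^ Nm β) =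
          (xc X + -xc Y) ^ Nm β - (xc X ^ Nm β + -xc Y ^ Nm β) := by ring
      rw [h2]
      exact h1
    have hD : V.valuation (xc (act β X) - xc (act β Y)) ≤ 1 :=
      (V.valuation.map_sub _ _).trans (max_le hbX1 hbY1)
    have hxy : V.valuation (xc X - xc Y) ≤ 1 := (V.valuation.map_sub _ _).trans (max_le hX1 hY1)
    set κ := ak Ω β ^ 2 * ∏ R ∈ S, xc R with hκdef
    set u := ∏ R ∈ S, (1 - xc Y / xc R) with hudef
    set p := ∏ R ∈ S, (xc (X + R) - xc Y) with hpdef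
    have hfin : κ * (xc (act β X) - xc (act β Y)) - (xc X ^ Nm β - xc Y ^ Nm β) =
        (xc X - xc Y) * (p - (xc X - xc Y) ^ (Nm β - 1)) - κ * (xc (act β X) - xc (act β Y)) * (u - 1) +
        ((xc X - xc Y) ^ Nm β - (xc X ^ Nm β - xc Y ^ Nm β)) := by
      rw [← hpow]
      have : κ * (xc (act β X) - xc (act β Y)) * u = (xc X - xc Y) * p := by
        rw [← he2, hκdef]
        ring
      linear_combination this
    rw [hfin]
    refine V.valuation.map_add_lt (V.valuation.map_sub_lt ?_ ?_) hsub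
    · exact g7c_mul V hxy hP
    · refine g7c_mul V ?_ hu
      rw [map_mul, hκ, one_mul]
      exact hD

end H55K
end

-- from Lib.H55K.G7D
section

/-! # H55K: Frobenius elements: the x-coordinate -/

open NumberField IsDedekindDomain WeierstrassCurve

namespace H55K

open H55P (IQ embF eF LF Per IsHecke Pt ac Inert Dec Nm)
open H35P (WAB Ker tt)


variable {F : Type} [Field F] [NumberField F] [IQ F] {A B : F} {Om : ℂ} {Ω : Type} [Field Ω] [DecidableEq Ω]
  [Algebra F Ω] {j : Ω →+* ℂ} {act : 𝓞 F →+* AddMonoid.End (Pt (WAB A B) Ω)} {V : ValuationSubring Ω}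

theorem g7d_add3 {k : Type} [Field k] (V : ValuationSubring k) {q : ℕ} (hq : q.Prime)
    (hqV : V.valuation (q : k) < 1) {x y z : k} (hx : V.valuation x ≤ 1) (hy : V.valuation y ≤ 1)
    (hz : V.valuation z ≤ 1) : V.valuation ((x + y + z) ^ q - (x ^ q + y ^ q + z ^ q)) < 1 := by
  have h1 := g7c_add V hq hqV hx hy
  have h2 := g7c_add V hq hqV ((V.valuation.map_add x y).trans (max_le hx hy)) hz
  have h3 : (x + y + z) ^ q - (x ^ q + y ^ q + z ^ q) =
      ((x + y + z) ^ q - ((x + y) ^ q + z ^ q)) + ((x + y) ^ q - (x ^ q + y ^ q)) := by ring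
  rw [h3]
  exact V.valuation.map_add_lt h2 h1

theorem g7d_mul {k : Type} [Field k] (V : ValuationSubring k) {a b c d : k} (ha : V.valuation a ≤ 1)
    (hd : V.valuation d ≤ 1) (h1 : V.valuation (a - c) < 1) (h2 : V.valuation (b - d) < 1) :
    V.valuation (a * b - c * d) < 1 := by
  have h3 : a * b - c * d = a * (b - d) + d * (a - c) := by ring
  rw [h3]
  exact V.valuation.map_add_lt (g7c_mul V ha h2) (g7c_mul V hd h1)

/-- Chunk G7D (M). e₁, e₂, e₃ from two_tors. They are not in Ker (ker_tors, n = 2). β does not divide 2 (V(β) < 1, V(2) = 1), so act β permutes e₁, e₂, e₃ (injective: if act β T = 0 and act 2 T = 0 then T = 0, since u β + w 2 = 1). Put c(X) = κ xc (βX) - xc X^q: V(c(X) - c(Y)) < 1 (frob_diff). The sum of the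
c(e_i) is 0 - (sum of xc e_i^q), congruent to -(sum of xc e_i)^q = 0; so V(3 c(e₁)) < 1, V(c(X)) < 1 for all X. Products of the congruences κ xc (β e_i) = xc e_i^q: κ^2 A is congruent to the second symmetric function of the xc e_i^q, which is congruent to A^q (expand (x₁x₂ + x₁x₃ + x₂x₃)^q in characteristic q: (a+b+c)^q = a^q + b^q + c^q),
A^q = A by fermat; in the same way κ^3 (-B) = (-B)^q = -B. -/
theorem frob_x (h : CMA F A B Om j act) (hV : GV A B V) {β : 𝓞 F} (hβ : Prime β)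
    (hv : V.valuation (ak Ω β) < 1) (hq : (Nm β).Prime) : ∃ κ : Ω, V.valuation κ = 1 ∧
    (∀ X : Pt (WAB A B) Ω, ¬ Ker V X → V.valuation (κ * xc (act β X) - xc X ^ Nm β) < 1) ∧
    V.valuation (κ ^ 2 * algebraMap F Ω A - algebraMap F Ω A) < 1 ∧
    V.valuation (κ ^ 3 * algebraMap F Ω B - algebraMap F Ω B) < 1 := by
  obtain ⟨κ, hκ, hdiff⟩ := frob_diff h hV hβ hv hq
  obtain ⟨e₁, e₂, e₃, hmem, h12, h13, h23, v1, v2, v3⟩ := two_tors h
  have hqV : V.valuation ((Nm β : ℕ) : Ω) < 1 := by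
    have h1 : ((Nm β : ℕ) : Ω) = ak Ω β * ak Ω (cj β) := by
      have h2 := mul_cj β
      have h3 := congrArg (fun z : 𝓞 F => algebraMap F Ω (algebraMap (𝓞 F) F z)) h2
      simp only [map_mul, map_natCast] at h3
      exact h3.symm
    rw [h1, map_mul]
    exact mul_lt_one_of_lt_of_le hv (ak_le V (cj β))
  have hq2 : Nm β ≠ 2 := by
    intro h2
    rw [h2, Nat.cast_ofNat, hV.two] at hqV
    exact lt_irrefl _ hqV
  have hodd : Odd (Nm β) := hq.odd_of_ne_two hq2
  have hred : ∀ X : Pt (WAB A B) Ω, ¬ Ker V X → ¬ Ker V (act β X) := fun X hX hX' =>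
    hX (ker_red h hV hβ hv hX')
  have htwo : ∀ T : Pt (WAB A B) Ω, act 2 T = 0 → Ker V T → T = 0 := by
    intro T hT hK
    refine ker_tors hV 2 (by rw [Nat.cast_ofNat]; exact hV.two) ?_ hK
    rw [two_nsmul, ← g7b_act2 (act := act)]
    exact hT
  have hint : ∀ T : Pt (WAB A B) Ω, (T = e₁ ∨ T = e₂ ∨ T = e₃) → ¬ Ker V T ∧
      (act β T = e₁ ∨ act β T = e₂ ∨ act β T = e₃) := by
    intro T hT
    obtain ⟨h1, h2⟩ := (hmem T).2 hT
    have h3 : ¬ Ker V T := fun hK => h2 (htwo T h1 hK)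
    refine ⟨h3, (hmem _).1 ⟨?_, ?_⟩⟩
    · have h4 : act 2 (act β T) = act β (act 2 T) := by
        have h5 : act (2 * β) T = act (β * 2) T := by rw [mul_comm]
        rw [map_mul, map_mul] at h5
        exact h5
      rw [h4, h1, map_zero]
    · intro h4
      apply hred T h3
      rw [h4]
      exact trivial
  have hinj : ∀ T T' : Pt (WAB A B) Ω, act 2 T = 0 → act 2 T' = 0 → act β T = act β T' → T = T' := by
    intro T T' h1 h2 h3
    have h4 : act β (T - T') = 0 := by rw [map_sub, h3, sub_self]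
    have h5 : Ker V (T - T') := tor_ker h hV hβ hv h4
    have h6 : act 2 (T - T') = 0 := by rw [map_sub, h1, h2, sub_self]
    exact sub_eq_zero.1 (htwo _ h6 h5)
  have t1 := ((hmem e₁).2 (Or.inl rfl)).1
  have t2 := ((hmem e₂).2 (Or.inr (Or.inl rfl))).1
  have t3 := ((hmem e₃).2 (Or.inr (Or.inr rfl))).1
  obtain ⟨k1, p1⟩ := hint e₁ (Or.inl rfl)
  obtain ⟨k2, p2⟩ := hint e₂ (Or.inr (Or.inl rfl))
  obtain ⟨k3, p3⟩ := hint e₃ (Or.inr (Or.inr rfl))
  have n12 : act β e₁ ≠ act β e₂ := fun h' => h12 (hinj _ _ t1 t2 h')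
  have n13 : act β e₁ ≠ act β e₃ := fun h' => h13 (hinj _ _ t1 t3 h')
  have n23 : act β e₂ ≠ act β e₃ := fun h' => h23 (hinj _ _ t2 t3 h')
  have hperm : xc (act β e₁) + xc (act β e₂) + xc (act β e₃) = 0 ∧
      xc (act β e₁) * xc (act β e₂) + xc (act β e₁) * xc (act β e₃) + xc (act β e₂) * xc (act β e₃) =
        algebraMap F Ω A ∧
      xc (act β e₁) * xc (act β e₂) * xc (act β e₃) = -algebraMap F Ω B := by
    rcases p1 with p1 | p1 | p1 <;> rcases p2 with p2 | p2 | p2 <;> rcases p3 with p3 | p3 | p3 <;>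
    first
    | exact absurd (p1.trans p2.symm) n12
    | exact absurd (p1.trans p3.symm) n13
    | exact absurd (p2.trans p3.symm) n23
    | (rw [p1, p2, p3]
       refine ⟨?_, ?_, ?_⟩
       · linear_combination v1
       · linear_combination v2
       · linear_combination v3)
  obtain ⟨w1, w2, w3⟩ := hperm
  have i1 := (not_ker V k1).2
  have i2 := (not_ker V k2).2
  have i3 := (not_ker V k3).2
  have j1 := (not_ker V (hred _ k1)).2
  have j2 := (not_ker V (hred _ k2)).2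
  have j3 := (not_ker V (hred _ k3)).2
  have hsum : V.valuation (xc e₁ ^ Nm β + xc e₂ ^ Nm β + xc e₃ ^ Nm β) < 1 := by
    have h1 := g7d_add3 V hq hqV i1 i2 i3
    rw [v1, zero_pow hq.ne_zero, zero_sub, Valuation.map_neg] at h1
    exact h1
  have d12 := hdiff e₁ e₂ k1 k2
  have d13 := hdiff e₁ e₃ k1 k3
  have c1 : V.valuation (κ * xc (act β e₁) - xc e₁ ^ Nm β) < 1 := by
    have h1 : (3 : Ω) * (κ * xc (act β e₁) - xc e₁ ^ Nm β) =
        (κ * (xc (act β e₁) - xc (act β e₂)) - (xc e₁ ^ Nm β - xc e₂ ^ Nm β)) +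
        (κ * (xc (act β e₁) - xc (act β e₃)) - (xc e₁ ^ Nm β - xc e₃ ^ Nm β)) -
        (xc e₁ ^ Nm β + xc e₂ ^ Nm β + xc e₃ ^ Nm β) := by
      linear_combination κ * w1
    have h2 : V.valuation ((3 : Ω) * (κ * xc (act β e₁) - xc e₁ ^ Nm β)) < 1 := by
      rw [h1]
      exact V.valuation.map_sub_lt (V.valuation.map_add_lt d12 d13) hsum
    rwa [map_mul, hV.three, one_mul] at h2
  have call : ∀ X : Pt (WAB A B) Ω, ¬ Ker V X →
      V.valuation (κ * xc (act β X) - xc X ^ Nm β) < 1 := by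
    intro X hX
    have h1 := hdiff X e₁ hX k1
    have h2 : κ * xc (act β X) - xc X ^ Nm β =
        (κ * (xc (act β X) - xc (act β e₁)) - (xc X ^ Nm β - xc e₁ ^ Nm β)) +
        (κ * xc (act β e₁) - xc e₁ ^ Nm β) := by ring
    rw [h2]
    exact V.valuation.map_add_lt h1 c1
  have c2 := call e₂ k2
  have c3 := call e₃ k3
  have hκj : ∀ z : Ω, V.valuation z ≤ 1 → V.valuation (κ * z) ≤ 1 := by
    intro z hz
    rw [map_mul, hκ, one_mul]
    exact hz
  have hpw : ∀ z : Ω, V.valuation z ≤ 1 → V.valuation (z ^ Nm β) ≤ 1 := by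
    intro z hz
    rw [map_pow]
    exact pow_le_one' hz _
  refine ⟨κ, hκ, call, ?_, ?_⟩
  · have hA := fermat hβ hv A ((V.valuation_le_one_iff _).2 hV.a)
    have m12 := g7d_mul V (hκj _ j1) (hpw _ i2) c1 c2
    have m13 := g7d_mul V (hκj _ j1) (hpw _ i3) c1 c3
    have m23 := g7d_mul V (hκj _ j2) (hpw _ i3) c2 c3
    have hle : ∀ {a b : Ω}, V.valuation a ≤ 1 → V.valuation b ≤ 1 → V.valuation (a * b) ≤ 1 := by
      intro a b ha hb
      rw [map_mul]
      exact mul_le_one' ha hb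
    have hs := g7d_add3 V hq hqV (hle i1 i2) (hle i1 i3) (hle i2 i3)
    rw [v2] at hs
    have hfin : κ ^ 2 * algebraMap F Ω A - algebraMap F Ω A =
        (κ * xc (act β e₁) * (κ * xc (act β e₂)) - xc e₁ ^ Nm β * xc e₂ ^ Nm β) +
        (κ * xc (act β e₁) * (κ * xc (act β e₃)) - xc e₁ ^ Nm β * xc e₃ ^ Nm β) +
        (κ * xc (act β e₂) * (κ * xc (act β e₃)) - xc e₂ ^ Nm β * xc e₃ ^ Nm β) -
        (algebraMap F Ω A ^ Nm β - ((xc e₁ * xc e₂) ^ Nm β + (xc e₁ * xc e₃) ^ Nm β +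
          (xc e₂ * xc e₃) ^ Nm β)) +
        (algebraMap F Ω A ^ Nm β - algebraMap F Ω A) := by
      rw [mul_pow, mul_pow, mul_pow]
      linear_combination -κ ^ 2 * w2
    rw [hfin]
    exact V.valuation.map_add_lt (V.valuation.map_sub_lt (V.valuation.map_add_lt
      (V.valuation.map_add_lt m12 m13) m23) hs) hA
  · have hB := fermat hβ hv B ((V.valuation_le_one_iff _).2 hV.b)
    have m12 := g7d_mul V (hκj _ j1) (hpw _ i2) c1 c2
    have hle : V.valuation (κ * xc (act β e₁) * (κ * xc (act β e₂))) ≤ 1 := by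
      rw [map_mul]
      exact mul_le_one' (hκj _ j1) (hκj _ j2)
    have m123 := g7d_mul V hle (hpw _ i3) m12 c3
    have hprod : xc e₁ ^ Nm β * xc e₂ ^ Nm β * xc e₃ ^ Nm β = -(algebraMap F Ω B ^ Nm β) := by
      rw [← mul_pow, ← mul_pow, v3, hodd.neg_pow]
    rw [hprod] at m123
    have hfin : κ ^ 3 * algebraMap F Ω B - algebraMap F Ω B =
        -(κ * xc (act β e₁) * (κ * xc (act β e₂)) * (κ * xc (act β e₃)) -
          -(algebraMap F Ω B ^ Nm β)) + (algebraMap F Ω B ^ Nm β - algebraMap F Ω B) := by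
      linear_combination κ ^ 3 * w3
    rw [hfin]
    refine V.valuation.map_add_lt ?_ hB
    rw [Valuation.map_neg]
    exact m123

end H55K
end

-- from Lib.H55K.T6A
section

/-! # H55K: successive approximation in the inertia field -/

open NumberField IsDedekindDomain WeierstrassCurve

namespace H55K.TQ

open H55P (IQ embF eF LF Per IsHecke Pt ac Inert Dec Nm UnitP)
open H35P (WAB Ker tt GoodW IntW)
open H55K.MG (VC Crd)

variable {F : Type} [Field F] [NumberField F] {Ω : Type} [Field Ω] [Algebra F Ω] [IsAlgClosure F Ω] {V : ValuationSubring Ω}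

/-- Chunk T6A (S/M). H13S.exists_frob v V: s with Dec V s, V(s x - x^q) < 1; so V(x^q - x) < 1; g9_frob (G9B.lean; there F has an instance IQ F: copy the proof if necessary, it does not use it) gives a. -/
theorem res_fix {v : HeightOneSpectrum (𝓞 F)} (hv : ∀ a : 𝓞 F, a ∈ v.asIdeal → V.valuation (ak Ω a) < 1) {x : Ω}
    (hx : x ∈ V) (h : ∀ g : Ω ≃ₐ[F] Ω, Dec V g → V.valuation (g x - x) < 1) :
    ∃ a : 𝓞 F, V.valuation (x - ak Ω a) < 1 := by
  obtain ⟨s, hs, hs2⟩ := H13S.exists_frob v V hv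
  refine (g9_frob hv ((V.valuation_le_one_iff _).2 hx)).1 ?_
  have h1 := h s hs
  have h2 := hs2 x hx
  have h3 : x ^ Ideal.absNorm v.asIdeal - x = (s x - x) - (s x - x ^ Ideal.absNorm v.asIdeal) := by ring
  rw [h3]
  exact lt_of_le_of_lt (Valuation.map_sub _ _ _) (max_lt h1 h2)

end H55K.TQ
end

-- from Lib.H55K.T6B
section

/-! # H55K: successive approximation in the inertia field -/

open NumberField IsDedekindDomain WeierstrassCurve

namespace H55K.TQ

open H55P (IQ embF eF LF Per IsHecke Pt ac Inert Dec Nm UnitP)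
open H35P (WAB Ker tt GoodW IntW)
open H55K.MG (VC Crd)

variable {F : Type} [Field F] [NumberField F] {Ω : Type} [Field Ω] [Algebra F Ω] [IsAlgClosure F Ω] {V : ValuationSubring Ω}

omit [IsAlgClosure F Ω] in
theorem t6_val {v : HeightOneSpectrum (𝓞 F)} (hv : ∀ a : 𝓞 F, a ∈ v.asIdeal → V.valuation (ak Ω a) < 1) {a : F}
    (h : V.valuation (algebraMap F Ω a) < 1) : v.valuation F a < 1 := by
  by_contra hcon
  rw [not_lt] at hcon
  have ha0 : a ≠ 0 := by
    rintro rfl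
    rw [map_zero] at hcon
    exact absurd hcon (not_le.2 zero_lt_one)
  have h1 : v.valuation F a⁻¹ ≤ 1 := by
    rw [map_inv₀]
    exact inv_le_one_of_one_le₀ hcon
  obtain ⟨n, d, hnd⟩ := v.exists_primeCompl_mul_eq_of_integer a⁻¹ h1
  have hd : (d : 𝓞 F) ∉ v.asIdeal := d.2
  have h2 : V.valuation (ak Ω (d : 𝓞 F)) = 1 :=
    le_antisymm (ak_le V _) (not_lt.1 fun h3 => hd ((g9_ker hv _).1 h3))
  have h3 : algebraMap F Ω a⁻¹ * ak Ω (d : 𝓞 F) = ak Ω n := by
    have := congrArg (algebraMap F Ω) hnd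
    rw [map_mul] at this
    exact this
  have h4 := congrArg V.valuation h3
  rw [map_mul, h2, mul_one, map_inv₀, map_inv₀] at h4
  have h5 := ak_le V n
  rw [← h4] at h5
  have h6 : V.valuation (algebraMap F Ω a) ≠ 0 := by
    rw [Valuation.ne_zero_iff]
    exact fun h0 => ha0 ((map_eq_zero _).1 h0)
  exact absurd ((inv_le_one₀ (zero_lt_iff.2 h6)).1 h5) (not_le.2 h)

omit [IsAlgClosure F Ω] in
theorem t6_val' {v : HeightOneSpectrum (𝓞 F)} (hv : ∀ a : 𝓞 F, a ∈ v.asIdeal → V.valuation (ak Ω a) < 1) {a : F}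
    (h : v.valuation F a ≤ 1) : V.valuation (algebraMap F Ω a) ≤ 1 := by
  obtain ⟨n, d, hnd⟩ := v.exists_primeCompl_mul_eq_of_integer a h
  have hd : (d : 𝓞 F) ∉ v.asIdeal := d.2
  have h2 : V.valuation (ak Ω (d : 𝓞 F)) = 1 :=
    le_antisymm (ak_le V _) (not_lt.1 fun h3 => hd ((g9_ker hv _).1 h3))
  have h3 : algebraMap F Ω a * ak Ω (d : 𝓞 F) = ak Ω n := by
    have := congrArg (algebraMap F Ω) hnd
    rw [map_mul] at this
    exact this
  have h4 := congrArg V.valuation h3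
  rw [map_mul, h2, mul_one] at h4
  rw [h4]
  exact ak_le V n

theorem t6_fixed {x : Ω} (hx : x ≠ 0) (hI : ∀ g : Ω ≃ₐ[F] Ω, Inert V g → g x = x) :
    ∃ a : F, a ≠ 0 ∧ V.valuation x = V.valuation (algebraMap F Ω a) := by
  have hNQ : FiniteDimensional ℚ (⊥ : IntermediateField F Ω) := FiniteDimensional.trans ℚ F _
  have hchar : CharZero (⊥ : IntermediateField F Ω) :=
    charZero_of_injective_algebraMap (algebraMap F (⊥ : IntermediateField F Ω)).injective
  have hNnf : NumberField (⊥ : IntermediateField F Ω) := ⟨⟩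
  obtain ⟨a, ha0, ha⟩ := H13S.value_fixed (⊥ : IntermediateField F Ω) V x hx (fun s _ hs => hI s hs)
  obtain ⟨b, hb⟩ := IntermediateField.mem_bot.1 a.2
  refine ⟨b, ?_, ?_⟩
  · rintro rfl
    rw [map_zero] at hb
    exact ha0 (Subtype.ext hb.symm)
  · rw [hb]
    exact ha

theorem t6_ind {v : HeightOneSpectrum (𝓞 F)} (hv : ∀ a : 𝓞 F, a ∈ v.asIdeal → V.valuation (ak Ω a) < 1) (n : ℕ) :
    ∀ (x : Ω) (a : F), a ≠ 0 → V.valuation x = V.valuation (algebraMap F Ω a) →
      WithZero.log (v.valuation F a) ≤ (n : ℤ) → (∀ g : Ω ≃ₐ[F] Ω, Inert V g → g x = x) →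
      (∀ g : Ω ≃ₐ[F] Ω, Dec V g → V.valuation (g x - x) ≤ 1) →
      ∃ y : F, V.valuation (x - algebraMap F Ω y) ≤ 1 := by
  induction n with
  | zero =>
    intro x a ha hxa hlog _ _
    refine ⟨0, ?_⟩
    rw [map_zero, sub_zero, hxa]
    apply t6_val' hv
    have hw : v.valuation F a ≠ 0 := (Valuation.ne_zero_iff _).2 ha
    have h1 := (WithZero.log_le_iff_le_exp hw).1 hlog
    rwa [Nat.cast_zero, WithZero.exp_zero] at h1
  | succ n ih =>
    intro x a ha hxa hlog hI h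
    by_cases hV1 : V.valuation x ≤ 1
    · exact ⟨0, by rwa [map_zero, sub_zero]⟩
    rw [not_le] at hV1
    have hav : 1 < V.valuation (algebraMap F Ω a) := by rwa [← hxa]
    have haΩ : algebraMap F Ω a ≠ 0 := fun h0 => ha ((map_eq_zero _).1 h0)
    have hva0 : 0 < V.valuation (algebraMap F Ω a) := lt_trans zero_lt_one hav
    obtain ⟨x₀, hx₀⟩ : ∃ x₀, x₀ = x / algebraMap F Ω a := ⟨_, rfl⟩
    have hx : x = algebraMap F Ω a * x₀ := by rw [hx₀]; field_simp
    have hx0V : V.valuation x₀ = 1 := by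
      rw [hx₀, map_div₀, hxa, div_self hva0.ne']
    obtain ⟨a₀, ha₀⟩ := res_fix hv ((V.valuation_le_one_iff _).1 hx0V.le) (fun g hg => by
      have h1 := h g hg
      have h2 : g x - x = algebraMap F Ω a * (g x₀ - x₀) := by
        rw [hx, map_mul, AlgEquiv.commutes]
        ring
      rw [h2, map_mul] at h1
      by_contra hcon
      rw [not_lt] at hcon
      have h3 : V.valuation (algebraMap F Ω a) ≤ 1 :=
        (le_mul_of_one_le_right' hcon).trans h1
      exact absurd h3 (not_le.2 hav))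
    obtain ⟨x₁, hx₁⟩ : ∃ x₁, x₁ = x - algebraMap F Ω (a * (a₀ : F)) := ⟨_, rfl⟩
    have hx1 : x₁ = algebraMap F Ω a * (x₀ - ak Ω a₀) := by
      rw [hx₁, hx, map_mul]
      show _ - algebraMap F Ω a * ak Ω a₀ = _
      ring
    have hlt : V.valuation x₁ < V.valuation (algebraMap F Ω a) := by
      rw [hx1, map_mul]
      exact mul_lt_of_lt_one_right hva0 ha₀
    by_cases hx10 : x₁ = 0
    · refine ⟨a * (a₀ : F), ?_⟩
      rw [← hx₁, hx10, map_zero]
      exact zero_le_one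
    have hI1 : ∀ g : Ω ≃ₐ[F] Ω, Inert V g → g x₁ = x₁ := by
      intro g hg
      rw [hx₁, map_sub, AlgEquiv.commutes, hI g hg]
    have hD1 : ∀ g : Ω ≃ₐ[F] Ω, Dec V g → V.valuation (g x₁ - x₁) ≤ 1 := by
      intro g hg
      have h5 : g x₁ - x₁ = g x - x := by
        rw [hx₁, map_sub g, AlgEquiv.commutes]
        ring
      rw [h5]
      exact h g hg
    obtain ⟨a₁, ha₁, hxa₁⟩ := t6_fixed hx10 hI1
    have hlog1 : WithZero.log (v.valuation F a₁) ≤ (n : ℤ) := by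
      have h1 : V.valuation (algebraMap F Ω (a₁ / a)) < 1 := by
        rw [map_div₀, map_div₀, ← hxa₁, div_lt_one₀ hva0]
        exact hlt
      have h2 := t6_val hv h1
      have hw : v.valuation F a ≠ 0 := (Valuation.ne_zero_iff _).2 ha
      have hw1 : v.valuation F a₁ ≠ 0 := (Valuation.ne_zero_iff _).2 ha₁
      rw [map_div₀, div_lt_one₀ (zero_lt_iff.2 hw)] at h2
      have h3 := (WithZero.log_lt_log hw1 hw).2 h2
      push_cast at hlog
      omega
    obtain ⟨y, hy⟩ := ih x₁ a₁ ha₁ hxa₁ hlog1 hI1 hD1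
    refine ⟨y + a * (a₀ : F), ?_⟩
    have h4 : x - algebraMap F Ω (y + a * (a₀ : F)) = x₁ - algebraMap F Ω y := by
      rw [hx₁, map_add]
      ring
    rw [h4]
    exact hy

/-- Chunk T6B (M). Suppose x is not in V (otherwise y = 0). H13S.value_fixed for K = the bottom field: V(x) = V(a), a in F, a ≠ 0 (elements of the bottom field are images of elements of F). x₀ = x/a: V(x₀) = 1, g x₀ - x₀ = (g x - x)/a has value < 1 for g with Dec V g; res_fix: a₀ in 𝓞 F, V(x₀ - a₀) < 1. x₁ = x - a a₀ is fixed by inertia, g x₁ - x₁ = g x - x, V(x₁) < V(x).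
The values of elements of F are integral powers: V(a) ≤ V(b) iff v.valuation a ≤ v.valuation b for a, b in F (V lies above v: if v.valuation a ≤ 1 then a = b/c with c not in v, so V(c) = 1; see H13S.Abv.le, exists_below for the bottom field). Induction on the natural number n with v.valuation F a = exp n (V(x) = V(a) > 1). -/
theorem approx {v : HeightOneSpectrum (𝓞 F)} (hv : ∀ a : 𝓞 F, a ∈ v.asIdeal → V.valuation (ak Ω a) < 1) {x : Ω}
    (hI : ∀ g : Ω ≃ₐ[F] Ω, Inert V g → g x = x)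
    (h : ∀ g : Ω ≃ₐ[F] Ω, Dec V g → V.valuation (g x - x) ≤ 1) :
    ∃ y : F, V.valuation (x - algebraMap F Ω y) ≤ 1 := by
  by_cases hx0 : x = 0
  · refine ⟨0, ?_⟩
    rw [hx0, map_zero, sub_zero, map_zero]
    exact zero_le_one
  obtain ⟨a, ha, hxa⟩ := t6_fixed hx0 hI
  exact t6_ind hv (WithZero.log (v.valuation F a)).toNat x a ha hxa (Int.self_le_toNat _) hI h

/-- Chunk T6B (S). approx for x/c. -/
theorem approx' {v : HeightOneSpectrum (𝓞 F)} (hv : ∀ a : 𝓞 F, a ∈ v.asIdeal → V.valuation (ak Ω a) < 1) {x : Ω} {c : F}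
    (hc : c ≠ 0) (hI : ∀ g : Ω ≃ₐ[F] Ω, Inert V g → g x = x)
    (h : ∀ g : Ω ≃ₐ[F] Ω, Dec V g → V.valuation (g x - x) ≤ V.valuation (algebraMap F Ω c)) :
    ∃ y : F, V.valuation (x - algebraMap F Ω y) ≤ V.valuation (algebraMap F Ω c) := by
  have hcΩ : algebraMap F Ω c ≠ 0 := fun h0 => hc ((map_eq_zero _).1 h0)
  have hc0 : 0 < V.valuation (algebraMap F Ω c) := zero_lt_iff.2 ((Valuation.ne_zero_iff _).2 hcΩ)
  obtain ⟨y, hy⟩ := approx (V := V) (x := x / algebraMap F Ω c) hv (fun g hg => by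
      rw [map_div₀, AlgEquiv.commutes, hI g hg]) (fun g hg => by
      have h5 : g (x / algebraMap F Ω c) - x / algebraMap F Ω c = (g x - x) / algebraMap F Ω c := by
        rw [map_div₀ g, AlgEquiv.commutes, ← sub_div]
      rw [h5, map_div₀, div_le_one₀ hc0]
      exact h g hg)
  refine ⟨c * y, ?_⟩
  have h1 : x - algebraMap F Ω (c * y) = algebraMap F Ω c * (x / algebraMap F Ω c - algebraMap F Ω y) := by
    rw [map_mul]
    field_simp
  rw [h1, map_mul]
  exact mul_le_of_le_one_right' hy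

end H55K.TQ
end

-- from Lib.H55K.T7B
section

/-! # H55K: descent of a good equation from the inertia field -/

open NumberField IsDedekindDomain WeierstrassCurve

namespace H55K.TQ

open H55P (IQ embF eF LF Per IsHecke Pt ac Inert Dec Nm UnitP)
open H35P (WAB Ker tt GoodW IntW)
open H55K.MG (VC Crd)

variable {F : Type} [Field F] [NumberField F] {Ω : Type} [Field Ω] [Algebra F Ω] [IsAlgClosure F Ω] {V : ValuationSubring Ω}

/-- Composition with an integral change of variables. -/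
theorem t7b_step {k : Type} [Field k] {V : ValuationSubring k} {W W' : WeierstrassCurve k} {u r s t e' r' s' t' : k}
    (h : VC W W' u r s t) (hG : GoodW W' V) (he : V.valuation e' = 1) (hr : r' ∈ V) (hs : s' ∈ V) (ht : t' ∈ V) :
    ∃ W'' : WeierstrassCurve k, VC W W'' (u * e') (u ^ 2 * r' + r) (u * s' + s) (u ^ 3 * t' + s * u ^ 2 * r' + t) ∧
      GoodW W'' V := by
  have he0 : e' ≠ 0 := by
    rintro rfl
    rw [map_zero] at he
    exact zero_ne_one he
  obtain ⟨W'', h2⟩ := vc_ex W' he0 r' s' t'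
  exact ⟨W'', vc_comp h h2, vc_good h2 hG he hr hs ht⟩

theorem t7b_div {k : Type} [Field k] {V : ValuationSubring k} {a b : k} (hb : b ≠ 0)
    (h : V.valuation a ≤ V.valuation b) : a / b ∈ V := by
  have hb' : V.valuation b ≠ 0 := (map_ne_zero _).2 hb
  rw [← V.valuation_le_one_iff, map_div₀]
  exact (div_le_one₀ (zero_lt_iff.2 hb')).2 h

/-- Chunk T7B (M). u: H13S.value_fixed (bottom field): V(u) = V(a), a in F; compose with (a/u, 0, 0, 0): (a, r, s, t) is a good change (vc_comp, vc_ex, vc_good). dec_int, approx' for r with c = a^2 and for s with c = a: r₁, s₁ in F. Compose with (1, (r₁ - r)/a^2, (s₁ - s)/a, 0), integral (vc_good): the change (a, r₁, s₁, t₂), t₂ = s a^2 (r₁ - r)/a^2 + t = t + s (r₁ - r)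
is fixed by inertia. dec_int again (g r₁ = r₁, g s₁ = s₁): V(g t₂ - t₂) ≤ V(a^3); approx': t₁ in F; compose with (1, 0, 0, (t₁ - t₂)/a^3). So (a, r₁, s₁, t₁) in F is a good change of variables. W'' over F from vc_ex; its base change is the good curve (vc_map, vc_uniq). -/
theorem descent {v : HeightOneSpectrum (𝓞 F)} (hv : ∀ a : 𝓞 F, a ∈ v.asIdeal → V.valuation (ak Ω a) < 1)
    {W : WeierstrassCurve F} (h : GMd (W⁄Ω) V {x | ∀ g : Ω ≃ₐ[F] Ω, Inert V g → g x = x}) :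
    ∃ (W'' : WeierstrassCurve F) (u r s t : F), VC W W'' u r s t ∧ GoodW (W''⁄Ω) V := by



  obtain ⟨W', u, r, s, t, hu, hr, hs, ht, hV0, hG0⟩ := h
  have hu0 : u ≠ 0 := hV0.une
  have hbn : NumberField (⊥ : IntermediateField F Ω) := H16C.FR_numberField _
  obtain ⟨a', ha'0, hva⟩ := H13S.value_fixed (⊥ : IntermediateField F Ω) V u hu0 (fun g _ hg => hu g hg)
  obtain ⟨a, ha⟩ := IntermediateField.mem_bot.1 a'.2
  have ha0 : a ≠ 0 := by
    rintro rfl
    apply ha'0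
    apply Subtype.ext
    rw [← ha, map_zero]
    rfl
  rw [← ha] at hva
  set e : F →+* Ω := algebraMap F Ω with he
  have hea0 : e a ≠ 0 := (map_ne_zero e).2 ha0
  have hge : ∀ (g : Ω ≃ₐ[F] Ω) (x : F), g (e x) = e x := fun g x => g.commutes x
  obtain ⟨W1, hV1, hG1⟩ := t7b_step hV0 hG0 (e' := e a / u) (r' := 0) (s' := 0) (t' := 0)
    (by rw [map_div₀, hva, div_self]; rw [← hva]; exact (map_ne_zero _).2 hu0) V.zero_mem V.zero_mem V.zero_mem
  rw [mul_div_cancel₀ _ hu0] at hV1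
  simp only [mul_zero, zero_add] at hV1
  have hd1 : ∀ g : Ω ≃ₐ[F] Ω, Dec V g → _ := fun g hg => dec_int hV1 hG1 g hg (hge g a)
  obtain ⟨r₁, hr₁⟩ := approx' hv (x := r) (c := a ^ 2) (pow_ne_zero 2 ha0) hr (fun g hg => by
    rw [map_pow]
    exact (hd1 g hg).1)
  obtain ⟨s₁, hs₁⟩ := approx' hv (x := s) (c := a) ha0 hs (fun g hg => (hd1 g hg).2.1)
  rw [map_pow] at hr₁
  rw [← he] at hr₁ hs₁
  obtain ⟨W2, hV2, hG2⟩ := t7b_step hV1 hG1 (e' := 1) (r' := (e r₁ - r) / e a ^ 2) (s' := (e s₁ - s) / e a) (t' := 0)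
    (map_one _) (t7b_div (pow_ne_zero 2 hea0) (by rw [← neg_sub, Valuation.map_neg]; exact hr₁))
    (t7b_div hea0 (by rw [← neg_sub, Valuation.map_neg]; exact hs₁)) V.zero_mem
  have e1 : e a ^ 2 * ((e r₁ - r) / e a ^ 2) + r = e r₁ := by
    rw [mul_div_cancel₀ _ (pow_ne_zero 2 hea0)]
    ring
  have e2 : e a * ((e s₁ - s) / e a) + s = e s₁ := by
    rw [mul_div_cancel₀ _ hea0]
    ring
  have e3 : e a ^ 3 * 0 + s * e a ^ 2 * ((e r₁ - r) / e a ^ 2) + t = s * (e r₁ - r) + t := by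
    rw [mul_assoc s, mul_div_cancel₀ _ (pow_ne_zero 2 hea0)]
    ring
  rw [mul_one, e1, e2, e3] at hV2
  obtain ⟨t₁, ht₁⟩ := approx' hv (x := s * (e r₁ - r) + t) (c := a ^ 3) (pow_ne_zero 3 ha0) (fun g hg => by
      rw [map_add, map_mul, map_sub, hge, hr g hg, hs g hg, ht g hg]) (fun g hg => by
    rw [map_pow]
    exact (dec_int hV2 hG2 g hg (hge g a)).2.2 (hge g r₁) (hge g s₁))
  rw [map_pow] at ht₁
  rw [← he] at ht₁
  obtain ⟨W3, hV3, hG3⟩ := t7b_step hV2 hG2 (e' := 1) (r' := 0) (s' := 0)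
    (t' := (e t₁ - (s * (e r₁ - r) + t)) / e a ^ 3)
    (map_one _) V.zero_mem V.zero_mem
    (t7b_div (pow_ne_zero 3 hea0) (by rw [← neg_sub, Valuation.map_neg]; exact ht₁))
  rw [mul_div_cancel₀ _ (pow_ne_zero 3 hea0)] at hV3
  simp only [mul_zero, zero_add, mul_one, add_zero, sub_add_cancel] at hV3
  obtain ⟨W'', hW⟩ := vc_ex W ha0 r₁ s₁ t₁
  have h5 : W''⁄Ω = W3 := vc_uniq (vc_map e hW) hV3
  exact ⟨W'', a, r₁, s₁, t₁, hW, by rw [h5]; exact hG3⟩

end H55K.TQ
end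

-- from Lib.H55K.T8
section

/-! # H55K: bad reduction stays bad in p-extensions -/

open NumberField IsDedekindDomain WeierstrassCurve

namespace H55K.TQ

open H55P (IQ embF eF LF Per IsHecke Pt ac Inert Dec Nm UnitP)
open H35P (WAB Ker tt GoodW IntW)
open H55K.MG (VC Crd)

theorem t8_le {F : Type} [Field F] [NumberField F] {Ω : Type} [Field Ω] [Algebra F Ω]
    (V : ValuationSubring Ω) (a : 𝓞 F) : ak Ω a ∈ V := by
  have h1 : IsIntegral ℤ (a : F) := a.isIntegral_coe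
  have h2 : IsIntegral ℤ (algebraMap F Ω (a : F)) := h1.map (algebraMap F Ω).toIntAlgHom
  have h3 : IsIntegral V (algebraMap F Ω (a : F)) := h2.tower_top
  obtain ⟨y, hy⟩ := (IsIntegrallyClosed.isIntegral_iff (R := V) (K := Ω)).1 h3
  change algebraMap F Ω (a : F) ∈ V
  rw [← hy]
  exact y.2

theorem t8_val {F : Type} [Field F] [NumberField F] {Ω : Type} [Field Ω] [Algebra F Ω]
    {V : ValuationSubring Ω} {v : HeightOneSpectrum (𝓞 F)}
    (hv : ∀ a : 𝓞 F, a ∈ v.asIdeal → V.valuation (ak Ω a) < 1) {a : 𝓞 F} (ha : a ∉ v.asIdeal) :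
    V.valuation (ak Ω a) = 1 := by
  have hmax : v.asIdeal.IsMaximal := v.isMaximal
  obtain ⟨b, c, hc, hbc⟩ := hmax.exists_inv ha
  have hle : ∀ x : 𝓞 F, V.valuation (ak Ω x) ≤ 1 := fun x => (V.valuation_le_one_iff _).2 (t8_le V x)
  refine le_antisymm (hle a) ?_
  by_contra hcon
  rw [not_le] at hcon
  have e1 : ak Ω b * ak Ω a + ak Ω c = 1 := by
    unfold ak
    rw [← map_mul, ← map_add]
    have : ((b : F) * (a : F) + (c : F)) = 1 := by exact_mod_cast congrArg (fun z : 𝓞 F => (z : F)) hbc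
    rw [this, map_one]
  have h3 : V.valuation (ak Ω b * ak Ω a + ak Ω c) < 1 := by
    refine V.valuation.map_add_lt ?_ (hv c hc)
    rw [map_mul]
    exact lt_of_le_of_lt (mul_le_of_le_one_left' (hle b)) hcon
  rw [e1, map_one] at h3
  exact lt_irrefl _ h3

theorem t8_dvd {F : Type} [Field F] [NumberField F] {p : ℕ} (hp : p.Prime) : ¬ (p : 𝓞 F) ∣ 1 := by
  intro h
  have h1 := map_dvd (Algebra.norm ℤ) h
  have h2 : Algebra.norm ℤ ((p : ℕ) : 𝓞 F) = (p : ℤ) ^ Module.finrank ℤ (𝓞 F) := by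
    have := Algebra.norm_algebraMap_of_basis (NumberField.RingOfIntegers.basis F) (p : ℤ)
    rw [← Module.finrank_eq_card_basis (NumberField.RingOfIntegers.basis F)] at this
    rw [← this]
    congr 1
    simp
  rw [h2, map_one] at h1
  have h3 : IsUnit ((p : ℤ) ^ Module.finrank ℤ (𝓞 F)) := isUnit_of_dvd_one h1
  have h4 : 0 < Module.finrank ℤ (𝓞 F) := Module.finrank_pos
  have h5 : IsUnit (p : ℤ) := (isUnit_pow_iff h4.ne').1 h3
  exact (Nat.prime_iff_prime_int.1 hp).not_isUnit h5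

/-- Chunk T8 (S/M). pow_fix: k. Let Inert V g. g^(p^k) is in L.fixingSubgroup, so it fixes M, and it is in the inertia group (H55P.inS). inert_triv (n = p): it fixes the points killed by p. fix_all: g fixes the points killed by p. A point T ≠ 0 killed by p exists (h.gen for b = p: T₀ ≠ 0 since p does not divide 1). nos_up (jj: hj with the images in Ω, integral: ak_le), descent. -/
theorem good_down {F : Type} [Field F] [NumberField F] [IQ F] {A B : F} {Om : ℂ} {Ω : Type} [Field Ω] [DecidableEq Ω]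
    [Algebra F Ω] [IsAlgClosure F Ω] [IsAlgClosed Ω] {j : Ω →+* ℂ} {act : 𝓞 F →+* AddMonoid.End (Pt (WAB A B) Ω)}
    (h : CMA F A B Om j act) (hj : ∃ j₀ : 𝓞 F, (WAB A B).c₄ ^ 3 = (j₀ : F) * (WAB A B).Δ) {p : ℕ}
    (hp : p.Prime) (h5 : 5 ≤ p) (hunr : ∀ v : HeightOneSpectrum (𝓞 F), (p : 𝓞 F) ∉ v.asIdeal ^ 2)
    {L M : IntermediateField F Ω} (hL : H55P.PExt p ⊥ L) (hM : M ≤ L) {V : ValuationSubring Ω}
    {v : HeightOneSpectrum (𝓞 F)} (hv : ∀ a : 𝓞 F, a ∈ v.asIdeal → V.valuation (ak Ω a) < 1) (hpv : (p : 𝓞 F) ∉ v.asIdeal)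
    (hG : GMd ((WAB A B)⁄Ω) V (M : Set Ω)) :
    ∃ (W'' : WeierstrassCurve F) (u r s t : F), VC (WAB A B) W'' u r s t ∧ GoodW (W''⁄Ω) V := by
  have halg : Algebra.IsAlgebraic F Ω := IsAlgClosure.isAlgebraic
  have hΔ : (WAB A B).Δ ≠ 0 := by
    have hd := h.disc
    have e : (WAB A B).Δ = -16 * (4 * A ^ 3 + 27 * B ^ 2) := by
      unfold WAB WeierstrassCurve.Δ WeierstrassCurve.b₂ WeierstrassCurve.b₄ WeierstrassCurve.b₆ WeierstrassCurve.b₈
      ring
    rw [e]
    exact mul_ne_zero (by norm_num) hd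
  obtain ⟨k, hk⟩ := pow_fix hL
  have hVp : V.valuation (p : Ω) = 1 := by
    have h1 := t8_val hv hpv
    have e : ak Ω ((p : ℕ) : 𝓞 F) = (p : Ω) := by
      have e1 : (((p : ℕ) : 𝓞 F) : F) = (p : F) := map_natCast (algebraMap (𝓞 F) F) p
      unfold ak
      rw [e1, map_natCast]
    rwa [e] at h1
  have hfix : ∀ g : Ω ≃ₐ[F] Ω, Inert V g → ∀ T : Pt (WAB A B) Ω, p • T = 0 → ac (WAB A B) g T = T := by
    intro g hg T hT
    refine fix_all h hp hunr g (k := k) ?_ T hT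
    intro T hT
    refine inert_triv hΔ hG (g ^ (p ^ k)) ?_ ?_ p hVp T hT
    · intro x hx
      exact (IntermediateField.mem_fixingSubgroup_iff L _).1 (hk g) x (hM hx)
    · have h1 : g ∈ H55P.inS F V := hg
      exact pow_mem h1 (p ^ k)
  have hp0 : ((p : ℕ) : 𝓞 F) ≠ 0 := by
    intro h0
    exact hp.ne_zero (by exact_mod_cast h0)
  obtain ⟨T₀, hT₀, -, hT₁, -⟩ := h.gen ((p : ℕ) : 𝓞 F) hp0
  have hT0 : T₀ ≠ 0 := by
    intro h0
    have h1 := (hT₁ 1).1 (by rw [h0]; exact map_zero _)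
    exact t8_dvd hp h1
  have hpT : p • T₀ = 0 := by
    have h1 : act ((p : ℕ) : 𝓞 F) T₀ = 0 := hT₀
    rw [map_natCast] at h1
    rw [← AddMonoid.End.natCast_apply]
    exact h1
  obtain ⟨j₀, hj₀⟩ := hj
  have hjj : ((WAB A B)⁄Ω).c₄ ^ 3 = ak Ω j₀ * ((WAB A B)⁄Ω).Δ := by
    have e1 : ((WAB A B)⁄Ω).c₄ = algebraMap F Ω (WAB A B).c₄ := WeierstrassCurve.map_c₄ _ _
    have e2 : ((WAB A B)⁄Ω).Δ = algebraMap F Ω (WAB A B).Δ := WeierstrassCurve.map_Δ _ _
    rw [e1, e2, ← map_pow, hj₀, map_mul]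
  exact descent hv (nos_up hΔ (t8_le V j₀) hjj hp h5 hVp hpT hT0 (fun g hg => hfix g hg T₀ hpT))

end H55K.TQ
end
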