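import Mathlib
import Pool.Agent.Lib.H1M.PP2.D_H13R_D
import Pool.Agent.Lib.H1M.PP2.D_H55K_D2
import Pool.Agent.Lib.H1M.PP2.M019
import Pool.Agent.Lib.H1M.PP2.M054
import Pool.Agent.Lib.H1M.PP2.M074
import Pool.Agent.Lib.H1M.PP2.M075

/-!
# H55G: the reduction of curves with complex multiplication at primes of good reduction which divide the discriminant of the given equation

Definitions. See PROOF.md.
-/

open NumberField IsDedekindDomain WeierstrassCurve Polynomial

namespace H55G

open H55P (IQ embF eF LF Per IsHecke Pt ac Inert Dec Nm)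
open H35P (WAB Ker GoodW IntW)
open H55K (CMA Tor TN ak xc yc cj GoodAt acr Abw)
open H55K.MG (VC Crd)

/-! ## The number of points of the minimal model -/

/-- The number of points over the residue field of the reduction of the minimal model at w. -/
noncomputable def NW {k : Type} [Field k] [NumberField k] (W : WeierstrassCurve k) (w : HeightOneSpectrum (𝓞 k)) : ℕ :=
  Nat.card (((W⁄(w.adicCompletion k)).minimal (w.adicCompletionIntegers k)).reduction
    (w.adicCompletionIntegers k)).toAffine.Point

/-- At the primes of M which divide the discriminant of W₀ and at which W₀ has good reduction, p does not divide the number of points. -/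
def OkM {F : Type} [Field F] [NumberField F] {Ω : Type} [Field Ω] [Algebra F Ω] (p : ℕ) (W₀ : WeierstrassCurve (𝓞 F))
    (M : IntermediateField F Ω) [NumberField M] : Prop :=
  ∀ w : HeightOneSpectrum (𝓞 M), algebraMap (𝓞 F) (𝓞 M) W₀.Δ ∈ w.asIdeal → GoodAt ((W₀⁄F)⁄M) w →
    ¬ p ∣ NW ((W₀⁄F)⁄M) w

end H55G
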