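import Mathlib
import Pool.Agent.Lib.H1M.PP2.D_H13R_D
import Pool.Agent.Lib.H1M.PP2.D_H55G_D0
import Pool.Agent.Lib.H1M.PP2.D_H55K_D2
import Pool.Agent.Lib.H1M.PP2.M005
import Pool.Agent.Lib.H1M.PP2.M006
import Pool.Agent.Lib.H1M.PP2.M019
import Pool.Agent.Lib.H1M.PP2.M020
import Pool.Agent.Lib.H1M.PP2.M022
import Pool.Agent.Lib.H1M.PP2.M046
import Pool.Agent.Lib.H1M.PP2.M051
import Pool.Agent.Lib.H1M.PP2.M052
import Pool.Agent.Lib.H1M.PP2.M054
import Pool.Agent.Lib.H1M.PP2.M058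
import Pool.Agent.Lib.H1M.PP2.M062
import Pool.Agent.Lib.H1M.PP2.M064
import Pool.Agent.Lib.H1M.PP2.M073
import Pool.Agent.Lib.H1M.PP2.M074
import Pool.Agent.Lib.H1M.PP2.M075
import Pool.Agent.Lib.H1M.PP2.M080
import Pool.Agent.Lib.H1M.PP2.M082
import Pool.Agent.Lib.H1M.PP2.M083
import Pool.Agent.Lib.H1M.PP2.M086

/-! Merged copies (to shorten the build) of Lib.H13D.A2, Lib.H13D.A3, Lib.H13D.A4, Lib.SSG.LP.E, Lib.H55K.MM, Lib.SSG.S.S1, Lib.H13S.DS, Lib.H13S.PA1, Lib.H55K.SPA1, Lib.H55G.D0_T, Lib.H55G.B1a, Lib.H55G.B1b, Lib.H55G.B2a, Lib.H55G.B2b, Lib.H55G.B2c, Lib.H55G.B3a, Lib.H55G.B3b, Lib.H55G.B4a, Lib.H55G.B4b. -/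

-- from Lib.H13D.A2
section

/-! # H13D, part A: good reduction (generic) -/

open NumberField IsDedekindDomain WeierstrassCurve
open scoped Pointwise

namespace H13D

open H55P (IQ embF eF LF Per IsHecke Pt ac Inert Dec Nm)
open H35P (WAB Ker tt GoodW IntW)
open H55K

/-- Chunk A2 (S/M), pure group theory. A group is not a finite union of cosets of subgroups of infinite index (B. H. Neumann): Mathlib.GroupTheory.CosetCover,
Subgroup.exists_index_le_card_of_leftCoset_cover / AddSubgroup version or Subgroup.exists_finiteIndex_of_leftCoset_cover: the cosets c + H (c in C) and c + K (c in E);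
use the index set C ⊕ E (or Sum of subtypes). If every X lies in one of these cosets then one of the subgroups has finite index: contradiction to index = 0. -/
theorem avoid {G : Type} [AddCommGroup G] (H K : AddSubgroup G) (hH : H.index = 0) (hK : K.index = 0) (C E : Finset G) :
    ∃ X : G, (∀ c ∈ C, X - c ∉ H) ∧ ∀ c ∈ E, X - c ∉ K := by
  classical
  by_contra hcon
  push Not at hcon
  have hcov : ⋃ i ∈ (C.disjSum E : Finset (G ⊕ G)), (Sum.elim id id i : G) +ᵥ ((Sum.elim (fun _ => H) (fun _ => K) i : AddSubgroup G) : Set G) =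
      Set.univ := by
    rw [Set.eq_univ_iff_forall]
    intro X
    rw [Set.mem_iUnion₂]
    by_cases hX : ∃ c ∈ C, X - c ∈ H
    · obtain ⟨c, hc, hcH⟩ := hX
      refine ⟨Sum.inl c, Finset.inl_mem_disjSum.2 hc, ?_⟩
      rw [Set.mem_vadd_set]
      exact ⟨X - c, hcH, by simp⟩
    · push Not at hX
      obtain ⟨c, hc, hcK⟩ := hcon X hX
      refine ⟨Sum.inr c, Finset.inr_mem_disjSum.2 hc, ?_⟩
      rw [Set.mem_vadd_set]
      exact ⟨X - c, hcK, by simp⟩
  obtain ⟨i, _, hfin⟩ := AddSubgroup.exists_finiteIndex_of_leftCoset_cover hcov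
  rcases i with c | c
  · exact hfin.index_ne_zero hH
  · exact hfin.index_ne_zero hK

variable {F : Type} [Field F] [NumberField F] [IQ F] {A B : F} {Om : ℂ} {Ω : Type} [Field Ω] [DecidableEq Ω]
  [Algebra F Ω] {j : Ω →+* ℂ} {act : 𝓞 F →+* AddMonoid.End (Pt (WAB A B) Ω)} {V : ValuationSubring Ω}
  {Kg : AddSubgroup (Pt (WAB A B) Ω)} {u r : Ω}

/-- Chunk A2 (M). Port of H55K/G5A.lean (inf_cls). l = 2 or l = 3 with V(l) = 1 (if V(2) < 1 and V(3) < 1 then V(1) = V(3 - 2) < 1; V(n) ≤ 1 for natural numbers n). Tor act (l^k) has Nm (l^k) = l^(2k) elements (tor_card, Nm_nat), pairwise different modulo Kg: the difference T is in Kg and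
l^k • T = 0 (act n T = n • T: cu_nat or tor_nm), V(l^k) = 1: hR.tors. So the quotient has at least l^(2k) elements for all k: it is infinite, index 0 (AddSubgroup.index = Nat.card of the quotient). -/
theorem kg_index (h : CMA F A B Om j act) (hR : RM A B V Kg u r) : Kg.index = 0 := by
  classical
  have hle1 : ∀ n : ℕ, V.valuation (n : Ω) ≤ 1 := fun n => by
    have h1 : (n : Ω) ∈ V := natCast_mem V n
    exact (V.valuation_le_one_iff _).2 h1
  obtain ⟨l, hl2, hl⟩ : ∃ l : ℕ, 2 ≤ l ∧ V.valuation (l : Ω) = 1 := by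
    by_contra hcon
    push Not at hcon
    have h2 := lt_of_le_of_ne (hle1 2) (hcon 2 le_rfl)
    have h3 := lt_of_le_of_ne (hle1 3) (hcon 3 (by norm_num))
    have h4 : V.valuation ((3 : ℕ) - (2 : ℕ) : Ω) < 1 := lt_of_le_of_lt (Valuation.map_sub _ _ _) (max_lt h3 h2)
    have h5 : ((3 : ℕ) - (2 : ℕ) : Ω) = 1 := by push_cast; ring
    rw [h5, map_one] at h4
    exact lt_irrefl _ h4
  have hkey : ∀ k : ℕ, Kg.index ≠ 0 → (l ^ k) ^ 2 ≤ Kg.index := by
    intro k hi
    have hfin : Finite ((Pt (WAB A B) Ω) ⧸ Kg) := by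
      have : Kg.FiniteIndex := ⟨hi⟩
      exact AddSubgroup.finite_quotient_of_finiteIndex
    have hb0 : ((l ^ k : ℕ) : 𝓞 F) ≠ 0 := by exact_mod_cast (pow_ne_zero k (by omega : l ≠ 0))
    have hcard := tor_card h hb0
    rw [Nm_nat] at hcard
    have hinj : Function.Injective (fun T : Tor act ((l ^ k : ℕ) : 𝓞 F) => (QuotientAddGroup.mk (T : Pt (WAB A B) Ω) : (Pt (WAB A B) Ω) ⧸ Kg)) := by
      intro T T' hTT
      have h1 : -(T : Pt (WAB A B) Ω) + (T' : Pt (WAB A B) Ω) ∈ Kg := QuotientAddGroup.eq.1 hTT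
      have h5 : (l ^ k : ℕ) • (-(T : Pt (WAB A B) Ω) + T') = 0 := by
        have h6 : -(T : Pt (WAB A B) Ω) + T' ∈ Tor act ((l ^ k : ℕ) : 𝓞 F) :=
          AddSubgroup.add_mem _ (AddSubgroup.neg_mem _ T.2) T'.2
        have h7 : act ((l ^ k : ℕ) : 𝓞 F) (-(T : Pt (WAB A B) Ω) + T') = 0 := h6
        rw [map_natCast act] at h7
        exact h7
      have h6 : V.valuation (((l ^ k : ℕ) : ℕ) : Ω) = 1 := by
        rw [Nat.cast_pow, map_pow, hl, one_pow]
      have h7 := hR.tors _ h6 _ h1 h5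
      exact Subtype.ext (neg_add_eq_zero.1 h7)
    have hle := Nat.card_le_card_of_injective _ hinj
    rw [hcard] at hle
    exact hle
  by_contra hi
  have h1 := hkey Kg.index hi
  have h2 : Kg.index < l ^ Kg.index := Nat.lt_pow_self (by omega)
  have h3 : l ^ Kg.index ≤ (l ^ Kg.index) ^ 2 := Nat.le_self_pow (by norm_num) _
  omega

/-- Chunk A2 (S). act b is surjective (h.surj): AddSubgroup.index_comap_of_surjective. -/
theorem kgb_index (h : CMA F A B Om j act) (hR : RM A B V Kg u r) {b : 𝓞 F} (hb : b ≠ 0) :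
    (Kg.comap (act b : Pt (WAB A B) Ω →+ Pt (WAB A B) Ω)).index = 0 := by
  rw [AddSubgroup.index_comap_of_surjective _ (fun P => h.surj b hb P)]
  exact kg_index h hR

end H13D
end

-- from Lib.H13D.A3
section

/-! # H13D, part A: good reduction (generic) -/

open NumberField IsDedekindDomain WeierstrassCurve

namespace H13D

open H55P (IQ embF eF LF Per IsHecke Pt ac Inert Dec Nm)
open H35P (WAB Ker tt GoodW IntW)
open H55K

variable {F : Type} [Field F] [NumberField F] [IQ F] {A B : F} {Om : ℂ} {Ω : Type} [Field Ω] [DecidableEq Ω]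
  [Algebra F Ω] {j : Ω →+* ℂ} {act : 𝓞 F →+* AddMonoid.End (Pt (WAB A B) Ω)} {V : ValuationSubring Ω}
  {Kg : AddSubgroup (Pt (WAB A B) Ω)} {u r : Ω}

/-- Chunk A3 (M). Generic point. Let H = Kg.comap (act b) (index 0: kgb_index; kg_index). avoid with C = {0} for H and for Kg the finite set E = {0} together with R and -R for R in S:
Y is not in Kg, act b Y is not in Kg, Y - R and Y + R are not in Kg. Then, for R in S: xn R - xn Y has value 1 if R is not in Kg (hR.diff for R and Y: R - Y = -(Y - R), R + Y), and value V(xn R) if R is in Kg (R ≠ 0: V(xn R) > 1 ≥ V(xn Y)). -/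
theorem exists_gen (h : CMA F A B Om j act) (hR : RM A B V Kg u r) {b : 𝓞 F} (hb : b ≠ 0) {S : Finset (Pt (WAB A B) Ω)}
    (hS : TN act b S) : ∃ Y : Pt (WAB A B) Ω, Y ∉ Kg ∧ act b Y ∉ Kg ∧ (∀ R ∈ S, Y - R ∉ Kg ∧ Y + R ∉ Kg) ∧
      (∀ R ∈ S, R ∉ Kg → V.valuation (xn u r R - xn u r Y) = 1) ∧
      ∀ R ∈ S, R ∈ Kg → V.valuation (xn u r R - xn u r Y) = V.valuation (xn u r R) := by
  classical
  obtain ⟨Y, hY1, hY2⟩ := avoid (Kg.comap (act b : Pt (WAB A B) Ω →+ Pt (WAB A B) Ω)) Kg (kgb_index h hR hb) (kg_index h hR)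
    {0} (insert 0 (S ∪ S.image fun R => -R))
  have h0 : Y ∉ Kg := by
    have := hY2 0 (Finset.mem_insert_self _ _)
    rwa [sub_zero] at this
  have h1 : act b Y ∉ Kg := by
    have := hY1 0 (Finset.mem_singleton_self _)
    rw [sub_zero] at this
    exact this
  have h2 : ∀ R ∈ S, Y - R ∉ Kg ∧ Y + R ∉ Kg := by
    intro R hR'
    refine ⟨hY2 R (Finset.mem_insert_of_mem (Finset.mem_union_left _ hR')), ?_⟩
    have := hY2 (-R) (Finset.mem_insert_of_mem (Finset.mem_union_right _ (Finset.mem_image_of_mem _ hR')))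
    rwa [sub_neg_eq_add] at this
  refine ⟨Y, h0, h1, h2, fun R hR' hRK => ?_, fun R hR' hRK => ?_⟩
  · refine hR.diff R Y hRK h0 ?_ ?_
    · intro h3
      exact (h2 R hR').1 (by rw [← neg_sub]; exact Kg.neg_mem h3)
    · rw [add_comm]
      exact (h2 R hR').2
  · have hR0 : R ≠ 0 := ((hS R).1 hR').2
    exact Valuation.map_sub_eq_of_lt_left _ (lt_of_le_of_lt (hR.int Y h0) (hR.big R hRK hR0))

/-- Chunk A3 (M). THE PRODUCT FORMULA. S = all nonzero points killed by b (exists_TN), S₁ the points of S in Kg. Y from exists_gen. Now avoid again, with H and C = {0, Y, -Y}, Kg and E = the set of 0, Y, -Y, -R, Y - R, -Y - R for R in S (Finset.image): X with act b X, act b (X - Y), act b (X + Y) not in Kg and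
X, X - Y, X + Y, X + R, X + R - Y, X + R + Y not in Kg (R in S). e2n for X, Y (act b X, act b Y ≠ 0 because they are not in Kg). Values: V(xn (act b X) - xn (act b Y)) = 1 (hR.diff; act b X - act b Y = act b (X - Y)), the product over S of V(xn R - xn Y) is the product over S₁ of V(xn R) (exists_gen; split S, Finset.prod_subset or
Finset.prod_filter), V(xn X - xn Y) = 1, V(xn (X + R) - xn Y) = 1. -/
theorem kprod (h : CMA F A B Om j act) (hR : RM A B V Kg u r) {b : 𝓞 F} (hb : b ≠ 0) {S₁ : Finset (Pt (WAB A B) Ω)}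
    (hS₁ : KN act b Kg S₁) : V.valuation (ak Ω b) ^ 2 * ∏ R ∈ S₁, V.valuation (xn u r R) = 1 := by
  classical
  obtain ⟨S, hS, _⟩ := exists_TN h hb
  obtain ⟨Y, hY0, hbY, hYR, hYv, hYk⟩ := exists_gen h hR hb hS
  obtain ⟨X, hX1, hX2⟩ := avoid (Kg.comap (act b : Pt (WAB A B) Ω →+ Pt (WAB A B) Ω)) Kg (kgb_index h hR hb) (kg_index h hR)
    {0, Y, -Y} ({0, Y, -Y} ∪ (S.image fun R => -R) ∪ (S.image fun R => Y - R) ∪ S.image fun R => -Y - R)
  have hbX : act b X ∉ Kg := by
    have := hX1 0 (by simp)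
    rw [sub_zero] at this
    exact this
  have hbXY : act b (X - Y) ∉ Kg := hX1 Y (by simp)
  have hbXY' : act b (X + Y) ∉ Kg := by
    have := hX1 (-Y) (by simp)
    rw [sub_neg_eq_add] at this
    exact this
  have hX0 : X ∉ Kg := by
    have := hX2 0 (by simp)
    rwa [sub_zero] at this
  have hXY : X - Y ∉ Kg := hX2 Y (by simp)
  have hXY' : X + Y ∉ Kg := by
    have := hX2 (-Y) (by simp)
    rwa [sub_neg_eq_add] at this
  have hXR : ∀ R ∈ S, X + R ∉ Kg := by
    intro R hR'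
    have := hX2 (-R) (Finset.mem_union_left _ (Finset.mem_union_left _ (Finset.mem_union_right _ (Finset.mem_image_of_mem _ hR'))))
    rwa [sub_neg_eq_add] at this
  have hXRY : ∀ R ∈ S, X + R - Y ∉ Kg := by
    intro R hR'
    have := hX2 (Y - R) (Finset.mem_union_left _ (Finset.mem_union_right _ (Finset.mem_image_of_mem (fun R => Y - R) hR')))
    have e : X - (Y - R) = X + R - Y := by abel
    rwa [e] at this
  have hXRY' : ∀ R ∈ S, X + R + Y ∉ Kg := by
    intro R hR'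
    have := hX2 (-Y - R) (Finset.mem_union_right _ (Finset.mem_image_of_mem (fun R => -Y - R) hR'))
    have e : X - (-Y - R) = X + R + Y := by abel
    rwa [e] at this
  have hne : ∀ {P : Pt (WAB A B) Ω}, P ∉ Kg → P ≠ 0 := fun hP h0 => hP (h0 ▸ Kg.zero_mem)
  have key := congrArg V.valuation (e2n (u := u) (r := r) h hR.une hb hS (hne hbX) (hne hbY))
  rw [map_mul, map_mul, map_mul, map_prod, map_prod, map_pow] at key
  have v1 : V.valuation (xn u r (act b X) - xn u r (act b Y)) = 1 := by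
    refine hR.diff _ _ hbX hbY ?_ ?_
    · rw [← map_sub]
      exact hbXY
    · rw [← map_add]
      exact hbXY'
  have v2 : V.valuation (xn u r X - xn u r Y) = 1 := hR.diff _ _ hX0 hY0 hXY hXY'
  have v3 : ∏ R ∈ S, V.valuation (xn u r (X + R) - xn u r Y) = 1 :=
    Finset.prod_eq_one fun R hR' => hR.diff _ _ (hXR R hR') hY0 (hXRY R hR') (hXRY' R hR')
  have v4 : ∏ R ∈ S, V.valuation (xn u r R - xn u r Y) = ∏ R ∈ S₁, V.valuation (xn u r R) := by
    have hsub : S₁ ⊆ S := fun R hR' => by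
      have := (hS₁ R).1 hR'
      exact (hS R).2 ⟨this.1, this.2.1⟩
    rw [← Finset.prod_subset hsub]
    · refine Finset.prod_congr rfl fun R hR' => ?_
      exact hYk R (hsub hR') ((hS₁ R).1 hR').2.2
    · intro R hR' hR''
      refine hYv R hR' fun hK => hR'' ?_
      have := (hS R).1 hR'
      exact (hS₁ R).2 ⟨this.1, this.2, hK⟩
  rw [v1, v2, v3, v4, mul_one, one_mul] at key
  exact key

end H13D
end

-- from Lib.H13D.A4
section

/-! # H13D, part A: good reduction (generic) -/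

open NumberField IsDedekindDomain WeierstrassCurve

namespace H13D

open H55P (IQ embF eF LF Per IsHecke Pt ac Inert Dec Nm)
open H35P (WAB Ker tt GoodW IntW)
open H55K

variable {F : Type} [Field F] [NumberField F] [IQ F] {A B : F} {Om : ℂ} {Ω : Type} [Field Ω] [DecidableEq Ω]
  [Algebra F Ω] {j : Ω →+* ℂ} {act : 𝓞 F →+* AddMonoid.End (Pt (WAB A B) Ω)} {V : ValuationSubring Ω}
  {Kg : AddSubgroup (Pt (WAB A B) Ω)} {u r : Ω}

/-- Chunk A4 (M). The kernel of reduction is stable. b = 0 and act b X = 0 are clear (then the image is 0). So b ≠ 0, X ≠ 0, act b X ≠ 0. S, S₁ as in kprod (S₁ = S.filter (in Kg), classical), Y from exists_gen; act b Y ≠ 0. e2n for X, Y. Left side: V(b)^2 V(xn (act b X) - xn (act b Y)) times the product over S₁ of V(xn R) = V(xn (act b X) - xn (act b Y)) by kprod.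
Right side: V(xn X - xn Y) = V(xn X) > 1 (hR.big, V(xn Y) ≤ 1); for R in S₁: X + R is in Kg and not 0 (else act b X = - act b R = 0), so V(xn (X + R) - xn Y) = V(xn (X + R)) > 1; for R in S not in Kg: X + R is not in Kg, X + R - Y and X + R + Y are not in Kg (X in Kg, exists_gen), so the value is 1. So V(xn (act b X) - xn (act b Y)) > 1,
and V(xn (act b Y)) ≤ 1 (act b Y not in Kg), so V(xn (act b X)) > 1 and act b X is in Kg (hR.int). -/
theorem act_mem (h : CMA F A B Om j act) (hR : RM A B V Kg u r) (b : 𝓞 F) {X : Pt (WAB A B) Ω} (hX : X ∈ Kg) : act b X ∈ Kg := by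
  classical
  by_cases hb : b = 0
  · subst hb
    rw [map_zero]
    exact Kg.zero_mem
  by_cases hbX : act b X = 0
  · rw [hbX]
    exact Kg.zero_mem
  by_cases hX0 : X = 0
  · rw [hX0, map_zero]
    exact Kg.zero_mem
  obtain ⟨S, hS, -⟩ := exists_TN h hb
  obtain ⟨S₁, hS₁e⟩ : ∃ S₁ : Finset (Pt (WAB A B) Ω), S₁ = S.filter fun R => R ∈ Kg := ⟨_, rfl⟩
  have hS₁ : KN act b Kg S₁ := by
    intro T
    rw [hS₁e, Finset.mem_filter, hS T, and_assoc]
  obtain ⟨Y, hY0, hbY, hYR, hYv, hYk⟩ := exists_gen h hR hb hS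
  have hne : ∀ {P : Pt (WAB A B) Ω}, P ∉ Kg → P ≠ 0 := fun hP h0 => hP (h0 ▸ Kg.zero_mem)
  have key := congrArg V.valuation (e2n (u := u) (r := r) h hR.une hb hS hbX (hne hbY))
  rw [map_mul, map_mul, map_mul, map_prod, map_prod, map_pow] at key
  have v4 : ∏ R ∈ S, V.valuation (xn u r R - xn u r Y) = ∏ R ∈ S₁, V.valuation (xn u r R) := by
    have hsub : S₁ ⊆ S := by
      rw [hS₁e]
      exact Finset.filter_subset _ _
    rw [← Finset.prod_subset hsub]
    · refine Finset.prod_congr rfl fun R hR' => ?_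
      exact hYk R (hsub hR') ((hS₁ R).1 hR').2.2
    · intro R hR' hR''
      refine hYv R hR' fun hK => hR'' ?_
      have := (hS R).1 hR'
      exact (hS₁ R).2 ⟨this.1, this.2, hK⟩
  have hk := kprod h hR hb hS₁
  rw [v4, mul_right_comm, hk, one_mul] at key
  have w1 : V.valuation (xn u r X - xn u r Y) = V.valuation (xn u r X) :=
    Valuation.map_sub_eq_of_lt_left _ (lt_of_le_of_lt (hR.int Y hY0) (hR.big X hX hX0))
  have w2 : 1 < V.valuation (xn u r X) := hR.big X hX hX0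
  have w3 : 1 ≤ ∏ R ∈ S, V.valuation (xn u r (X + R) - xn u r Y) := by
    refine Finset.one_le_prod' ?_
    intro R hR'
    have hb0 := (hS R).1 hR'
    by_cases hRK : R ∈ Kg
    · have h1 : X + R ∈ Kg := Kg.add_mem hX hRK
      have h2 : X + R ≠ 0 := by
        intro h0
        apply hbX
        have h3 : act b (X + R) = 0 := by rw [h0, map_zero]
        rwa [map_add, hb0.1, add_zero] at h3
      have h4 := hR.big _ h1 h2
      rw [Valuation.map_sub_eq_of_lt_left _ (lt_of_le_of_lt (hR.int Y hY0) h4)]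
      exact h4.le
    · refine le_of_eq (hR.diff (X + R) Y ?_ hY0 ?_ ?_).symm
      · intro h1
        exact hRK ((Kg.add_mem_cancel_left hX).1 h1)
      · intro h1
        have e : X + R - Y = X + (R - Y) := by abel
        rw [e] at h1
        have h2 := (Kg.add_mem_cancel_left hX).1 h1
        exact (hYR R hR').1 (by rw [← neg_sub]; exact Kg.neg_mem h2)
      · intro h1
        have e : X + R + Y = X + (Y + R) := by abel
        rw [e] at h1
        exact (hYR R hR').2 ((Kg.add_mem_cancel_left hX).1 h1)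
  by_contra hcon
  have w4 : V.valuation (xn u r (act b X) - xn u r (act b Y)) ≤ 1 :=
    (Valuation.map_sub _ _ _).trans (max_le (hR.int _ hcon) (hR.int _ hbY))
  rw [key, w1] at w4
  have w5 : V.valuation (xn u r X) * 1 ≤ V.valuation (xn u r X) * ∏ R ∈ S, V.valuation (xn u r (X + R) - xn u r Y) :=
    mul_le_mul_right w3 _
  rw [mul_one] at w5
  exact absurd (w2.trans_le (w5.trans w4)) (lt_irrefl _)

end H13D
end

-- from Lib.SSG.LP.E
section

/-! # SSG/LP: the class Cl and the classes of H35M -/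

namespace SSG.LP

open SSG.LT

variable {C : Type} [NormedField C] [IsUltrametricDist C] {G : Type} {X : G → C}

/-! Chunk E (S/M). PROOF. Given Q : MvPolynomial (Fin 2) C with integral coefficients, put Q' = Q.eval₂ (Polynomial.C.comp Polynomial.C) ![Polynomial.X, Polynomial.C Polynomial.X] (a sum over the support of C (C (coeff m)) * X ^ m 0 * C (X ^ m 1):
MvPolynomial.eval₂_eq'): its coefficients (Q'.coeff i).coeff j are sums of numbers of norm ≤ 1 (Polynomial.finset_sum_coeff, coeff_C_mul, coeff_X_pow, IsUltrametricDist.norm_sum_le_of_forall_le_of_nonneg) and its value at (X a, X b) is the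
value of Q at ![X a, X b] (MvPolynomial.eval₂_comp_left / hom_eval₂ or sum by sum). -/

theorem fn2_of_cl {g : G → G → C}
    (h : Cl (X := G × G) (ι := Fin 2) (fun k x => if k = 0 then X x.1 else X x.2) fun x => g x.1 x.2) : H35M.Fn2 X g := by
  classical
  intro ε hε
  obtain ⟨Q, hQ, h1⟩ := h ε hε
  refine ⟨∑ m ∈ Q.support, Polynomial.monomial (m 0) (Polynomial.monomial (m 1) (Q.coeff m)), fun i j => ?_, fun a b => ?_⟩
  · rw [Polynomial.finset_sum_coeff, Polynomial.finset_sum_coeff]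
    refine IsUltrametricDist.norm_sum_le_of_forall_le_of_nonneg zero_le_one fun m _ => ?_
    rw [Polynomial.coeff_monomial]
    split
    · rw [Polynomial.coeff_monomial]
      split
      · exact hQ m
      · rw [norm_zero]
        exact zero_le_one
    · rw [Polynomial.coeff_zero, norm_zero]
      exact zero_le_one
  · have h2 := h1 (a, b)
    rw [MvPolynomial.eval_eq'] at h2
    have h3 : ((∑ m ∈ Q.support, Polynomial.monomial (m 0) (Polynomial.monomial (m 1) (Q.coeff m))).eval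
        (Polynomial.C (X a))).eval (X b) =
        ∑ d ∈ Q.support, Q.coeff d * ∏ i : Fin 2, (if i = 0 then X (a, b).1 else X (a, b).2) ^ d i := by
      rw [Polynomial.eval_finset_sum, Polynomial.eval_finset_sum]
      refine Finset.sum_congr rfl fun m _ => ?_
      rw [Polynomial.eval_monomial, Polynomial.eval_mul, Polynomial.eval_monomial, Polynomial.eval_pow, Polynomial.eval_C,
        Fin.prod_univ_two, if_pos rfl, if_neg (by decide)]
      ring
    rw [h3]
    exact h2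

end SSG.LP
end

-- from Lib.H55K.MM
section

/-! # H55K, part M: good models -/

open NumberField WeierstrassCurve

namespace H55K

open H55P (IQ Pt ac Inert)
open H35P (WAB Ker GoodW IntW)

theorem exists_gmod {F : Type} [Field F] [NumberField F] {Ω : Type} [Field Ω] [DecidableEq Ω] [Algebra F Ω]
    [IsAlgClosed Ω] {A B : F} (hd : 4 * A ^ 3 + 27 * B ^ 2 ≠ 0)
    (hj : ∃ j₀ : 𝓞 F, (j₀ : F) * (4 * A ^ 3 + 27 * B ^ 2) = 6912 * A ^ 3) (V : ValuationSubring Ω) :
    ∃ (Kg : AddSubgroup (Pt (WAB A B) Ω)) (u : Ω), GMod (WAB A B) V Kg u := by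
  obtain ⟨W', u, r, s, t, hVC, hΔ, hW, h2⟩ := MG.good_model hd hj V
  have hΔ' : W'.Δ ≠ 0 := by
    intro h0
    have h1 := hW.disc
    rw [h0, map_zero] at h1
    exact zero_ne_one h1
  obtain ⟨Θ, hc⟩ := MG.vc_iso hVC hΔ hΔ'
  obtain ⟨Kg, hK⟩ := MG.kg_ex hW Θ
  refine ⟨Kg, u, hVC.une, ?_, ?_, ?_, ?_⟩
  · intro n hn T hT h0
    exact MG.kg_tors hW hn ((hK T).1 hT) h0
  · intro P Q hP hQ h1 h3
    rw [hK] at hP hQ h1 h3
    exact MG.kg_diff hW hc hP hQ h1 h3
  · intro P P' Q hP hP' hQ h0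
    rw [hK] at hP hP' hQ
    exact MG.kg_far hW hc hP hP' hQ h0
  · rintro g hg ⟨T₁, T₂, k₁, k₂, k₃, k₄, k₅, f₁, f₂⟩ P
    rw [hK] at k₁ k₂ k₃ k₄ k₅ ⊢
    exact MG.inert_ker hVC.une hW hc g hg (MG.small_tilde hVC.une hW hc h2 g hg k₁ k₂ k₃ k₄ k₅ f₁ f₂) P

end H55K
end

-- from Lib.SSG.S.S1
section

/-! # SSG, part S (E4), S: the decomposition of a series with a weight into classes -/

open NumberField IsDedekindDomain

namespace SSG.S

open H55N H55P

variable {F : Type} [Field F] [NumberField F] [IQ F] {K : Type} [Field K] [NumberField K] [Algebra F K]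

/-! Chunk S1 (S). PORT of the second half of series_eqP in Lib/H55P/T3.lean: cdj_hasSum with φ a = tm h s a * θ a * prod, G i x = κ i * lam i * (absNorm (b i))^s * (φ x * (gw c q x * nf F s x));
if the term is not 0 then h a <> 0 (hc.sup). For x in T i and a b_i = (x): term_eqP (second part, multiplied by θ a = lam i * φ x), x <> 0 and h a from hc.kap. (hZ i).mul_left. -/

open Classical in
theorem s1_series {J g : Ideal (𝓞 K)} (hgJ : g ≤ J) (hJ1 : J ≠ ⊤) {ι : Type} [Fintype ι]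
    {b : ι → Ideal (𝓞 K)} {c₀ : ι → 𝓞 K} {T : ι → Set (𝓞 K)} (hcd : CDJ J g ι b c₀ T) {h : Ideal (𝓞 K) →*₀ ℂ}
    {κ : ι → ℂ} (hc : CoefP F J ι b c₀ h κ) (θ : Ideal (𝓞 K) → ℂ) (φ : 𝓞 K → ℂ) (lam : ι → ℂ)
    (hθ : ∀ i, ∀ x ∈ XS (J * b i) (c₀ i), ∀ a : Ideal (𝓞 K), a * b i = Ideal.span {x} → θ a = lam i * φ x)
    {m : ℕ} {c : Fin (m + 1) × Fin 2 → Ideal (𝓞 K)} {q : Fin (m + 1) × Fin 2 → ℕ} (hcp : ∀ i, (c i).IsPrime)
    (hbc : ∀ i j, IsCoprime (b i) (c j)) (Z : ι → ℂ) (s : ℂ)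
    (hZ : ∀ i, HasSum (fun x : T i => φ x * (gw c q (x : 𝓞 K) * nf F s (x : 𝓞 K))) (Z i)) :
    HasSum (fun a : Ideal (𝓞 K) => tm h s a * θ a * ∏ j, (if a ≤ c j then 1 - (q j : ℂ) else 1))
      (∑ i, κ i * lam i * (Ideal.absNorm (b i) : ℂ) ^ s * Z i) := by
  have h2 := cdj_hasSum J g hgJ hJ1 ι b c₀ T hcd
    (fun a => tm h s a * θ a * ∏ i, (if a ≤ c i then 1 - (q i : ℂ) else 1))
    (by
      intro a ha
      have : h a ≠ 0 := by
        intro h0
        apply ha
        show tm h s a * θ a * _ = 0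
        unfold tm
        rw [h0, zero_mul, zero_mul, zero_mul]
      exact hc.sup a this)
    (fun i x => κ i * lam i * (Ideal.absNorm (b i) : ℂ) ^ s * (φ x * (gw c q x * nf F s x)))
    (by
      intro i x hx a ha
      have hxX := (hcd.trans i).sub hx
      obtain ⟨hx0, hh⟩ := hc.kap i x hxX a ha
      have h3 := (term_eqP (m := m) h (κ i) a (b i) x hx0 ha hh s).2 c q hcp (fun j => hbc i j)
      have h4 := hθ i x hxX a ha
      rw [h4]
      linear_combination (lam i * φ x) * h3)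
    (fun i => κ i * lam i * (Ideal.absNorm (b i) : ℂ) ^ s * Z i)
    (fun i => (hZ i).mul_left _)
  exact h2

end SSG.S
end

-- from Lib.H13S.DS
section

open NumberField IsDedekindDomain

namespace H13S

open H55P H28G H55B

section

variable {K : Type} [Field K] [NumberField K]

/-- the prime number below v -/
noncomputable def ds_p (v : HeightOneSpectrum (𝓞 K)) : ℕ := Ideal.absNorm (v.asIdeal.under ℤ)

theorem ds_prime (v : HeightOneSpectrum (𝓞 K)) : (ds_p v).Prime := by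
  have := v.isPrime
  have h : NeZero v.asIdeal := ⟨v.ne_bot⟩
  exact Nat.absNorm_under_prime v.asIdeal

theorem ds_pow (v : HeightOneSpectrum (𝓞 K)) : ∃ f : ℕ, Ideal.absNorm v.asIdeal = ds_p v ^ f := by
  have hp := ds_prime v
  have hl : v.asIdeal.LiesOver (Ideal.span {((ds_p v : ℕ) : ℤ)}) :=
    Int.liesOver_span_absNorm v.asIdeal
  exact ⟨_, Ideal.absNorm_eq_pow_inertiaDeg' v.asIdeal hp⟩

theorem ds_sq_le (v : HeightOneSpectrum (𝓞 K)) (h : ¬ (Ideal.absNorm v.asIdeal).Prime) :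
    ds_p v ^ 2 ≤ Ideal.absNorm v.asIdeal := by
  obtain ⟨f, hf⟩ := ds_pow v
  have hp := ds_prime v
  have h2 := H55R.dd_two_le v
  rw [hf] at h h2 ⊢
  refine Nat.pow_le_pow_right hp.pos ?_
  rcases f with _ | _ | f
  · rw [pow_zero] at h2
    omega
  · rw [zero_add, pow_one] at h
    exact absurd hp h
  · omega

theorem ds_card (s : Finset (HeightOneSpectrum (𝓞 K))) (p : ℕ) (hp : p.Prime) :
    (s.filter fun v => ds_p v = p).card ≤ Module.finrank ℚ K := by
  classical
  have hm : (Ideal.span {(p : ℤ)}).IsMaximal := by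
    have := Fact.mk hp
    exact Int.ideal_span_isMaximal_of_prime p
  have hp0 : Ideal.span {(p : ℤ)} ≠ ⊥ := by
    rw [Ne, Ideal.span_singleton_eq_bot]
    exact_mod_cast hp.ne_zero
  refine le_trans ?_ (Ideal.card_primesOverFinset_le_finrank (S := 𝓞 K) ℚ K hp0)
  rw [← Finset.card_image_of_injective (s.filter fun v => ds_p v = p) H55R.dd_inj]
  refine Finset.card_le_card fun P hP => ?_
  obtain ⟨v, hv, rfl⟩ := Finset.mem_image.1 hP
  rw [Finset.mem_filter] at hv
  rw [IsDedekindDomain.mem_primesOverFinset_iff hp0]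
  refine ⟨v.isPrime, ?_⟩
  rw [← hv.2]
  exact Int.liesOver_span_absNorm v.asIdeal

theorem ds_summable : Summable fun v : HeightOneSpectrum (𝓞 K) => ((ds_p v : ℝ) ^ 2)⁻¹ := by
  classical
  have hs : Summable fun n : ℕ => ((n : ℝ) ^ 2)⁻¹ := by
    simpa using Real.summable_nat_pow_inv.2 (by norm_num : 1 < 2)
  refine summable_of_sum_le (c := Module.finrank ℚ K * ∑' n : ℕ, ((n : ℝ) ^ 2)⁻¹)
    (fun v => by positivity) fun u => ?_
  rw [Finset.sum_comp (fun n : ℕ => ((n : ℝ) ^ 2)⁻¹) ds_p]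
  calc ∑ b ∈ u.image ds_p, (u.filter fun a => ds_p a = b).card • ((b : ℝ) ^ 2)⁻¹
      ≤ ∑ b ∈ u.image ds_p, (Module.finrank ℚ K : ℝ) * ((b : ℝ) ^ 2)⁻¹ := by
        refine Finset.sum_le_sum fun b hb => ?_
        obtain ⟨v, -, rfl⟩ := Finset.mem_image.1 hb
        rw [nsmul_eq_mul]
        have h1 : ((u.filter fun a => ds_p a = ds_p v).card : ℝ) ≤ Module.finrank ℚ K := by
          exact_mod_cast ds_card u (ds_p v) (ds_prime v)
        exact mul_le_mul_of_nonneg_right h1 (by positivity)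
    _ = (Module.finrank ℚ K : ℝ) * ∑ b ∈ u.image ds_p, ((b : ℝ) ^ 2)⁻¹ := by
        rw [Finset.mul_sum]
    _ ≤ (Module.finrank ℚ K : ℝ) * ∑' n : ℕ, ((n : ℝ) ^ 2)⁻¹ := by
        refine mul_le_mul_of_nonneg_left ?_ (Nat.cast_nonneg _)
        exact hs.sum_le_tsum _ fun n _ => by positivity

/-- The sum over the primes of degree > 1 and over a finite set is bounded. -/
theorem ds_bound (S : Set (HeightOneSpectrum (𝓞 K))) (hS : S.Finite)
    (A : Set (HeightOneSpectrum (𝓞 K)))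
    (hA : ∀ v, v ∉ S → (Ideal.absNorm v.asIdeal).Prime → v ∈ A) :
    ∃ C : ℝ, ∀ s ∈ Set.Ioc (1 : ℝ) 2, H55R.PS (Set.univ : Set (HeightOneSpectrum (𝓞 K))) s ≤
      H55R.PS A s + C := by
  classical
  have hB2 : Summable fun v : HeightOneSpectrum (𝓞 K) => if v ∈ S then (1 : ℝ) else 0 := by
    refine summable_of_finite_support (hS.subset ?_)
    intro v hv
    rw [Function.mem_support] at hv
    by_contra hne
    exact hv (if_neg hne)
  have hB := (ds_summable (K := K)).add hB2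
  refine ⟨∑' v : HeightOneSpectrum (𝓞 K), (((ds_p v : ℝ) ^ 2)⁻¹ + if v ∈ S then (1 : ℝ) else 0),
    fun s hs => ?_⟩
  obtain ⟨hs1, hs2⟩ := hs
  have hg := H55R.dd_summable (K := K) s hs1
  unfold H55R.PS
  rw [← (hg.indicator A).tsum_add hB]
  refine (hg.indicator _).tsum_le_tsum (fun v => ?_) ((hg.indicator A).add hB)
  rw [Set.indicator_of_mem (Set.mem_univ v)]
  have h2 := H55R.dd_two_le v
  have hN1 : (1 : ℝ) ≤ Ideal.absNorm v.asIdeal := by
    exact_mod_cast (by omega : 1 ≤ Ideal.absNorm v.asIdeal)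
  have hp2 : 0 ≤ ((ds_p v : ℝ) ^ 2)⁻¹ := by positivity
  have hi : 0 ≤ A.indicator (fun v => (Ideal.absNorm v.asIdeal : ℝ) ^ (-s)) v :=
    Set.indicator_nonneg (fun v _ => by positivity) v
  by_cases h : v ∈ S
  · rw [if_pos h]
    have h6 : (Ideal.absNorm v.asIdeal : ℝ) ^ (-s) ≤ 1 :=
      Real.rpow_le_one_of_one_le_of_nonpos hN1 (by linarith)
    linarith
  · rw [if_neg h]
    by_cases hp : (Ideal.absNorm v.asIdeal).Prime
    · rw [Set.indicator_of_mem (hA v h hp)]
      linarith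
    · have h3 := ds_sq_le v hp
      have h4 : (Ideal.absNorm v.asIdeal : ℝ) ^ (-s) ≤ ((ds_p v : ℝ) ^ 2)⁻¹ := by
        calc (Ideal.absNorm v.asIdeal : ℝ) ^ (-s) ≤ (Ideal.absNorm v.asIdeal : ℝ) ^ (-1 : ℝ) :=
              Real.rpow_le_rpow_of_exponent_le hN1 (by linarith)
          _ = (Ideal.absNorm v.asIdeal : ℝ)⁻¹ := Real.rpow_neg_one _
          _ ≤ ((ds_p v : ℝ) ^ 2)⁻¹ := by
              have h5 := (ds_prime v).pos
              refine inv_anti₀ (by positivity) ?_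
              exact_mod_cast h3
      linarith

end

/-- Chunk DS (M). A Galois extension in which almost all primes of degree one split completely is trivial.
Proof. H55R.density_split F₀ F₀ (every v is Spl F₀ F₀) gives the sum of N v^(-s) over all v = log(1/(s-1)) + O(1) on (1, 2];
the sum over the v with N v not prime is O(1) (N v = p^f, f ≥ 2, at most [F₀:Q] primes above p: sum of d p^(-2 s)), finitely many v
contribute O(1). So the sum over the completely split v is at least log(1/(s-1)) - O(1); by density_split F₀ E it is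
(1/d) log(1/(s-1)) + O(1), d = [E:F₀]; s -> 1 gives 1 ≤ 1/d. -/
theorem degree_one_split {F₀ : Type} [Field F₀] [NumberField F₀] (E : Type) [Field E] [NumberField E]
    [Algebra F₀ E] [IsGalois F₀ E] (S : Set (HeightOneSpectrum (𝓞 F₀))) (hS : S.Finite)
    (h : ∀ v : HeightOneSpectrum (𝓞 F₀), v ∉ S → (Ideal.absNorm v.asIdeal).Prime → H55R.Spl F₀ E v) :
    Module.finrank F₀ E = 1 := by
  have hfin : 0 < Module.finrank F₀ E := Module.finrank_pos
  obtain ⟨C₁, h1⟩ := H55R.density_split F₀ F₀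
  obtain ⟨C₂, h2⟩ := H55R.density_split F₀ E
  obtain ⟨C₃, h3⟩ := ds_bound S hS {v | H55R.Spl F₀ E v} h
  have hspl : {v : HeightOneSpectrum (𝓞 F₀) | H55R.Spl F₀ F₀ v} = Set.univ := by
    refine Set.eq_univ_of_forall fun v => ?_
    have := H55R.D5_card (L := F₀) v
    rw [Module.finrank_self] at this
    have h5 : H55R.es F₀ F₀ v * H55R.fs F₀ F₀ v = 1 := Nat.eq_one_of_mul_eq_one_left this
    exact ⟨Nat.eq_one_of_mul_eq_one_right h5, Nat.eq_one_of_mul_eq_one_left h5⟩
  rw [hspl, Module.finrank_self] at h1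
  by_contra hne
  have hd2 : 2 ≤ Module.finrank F₀ E := by omega
  have hd : (1 / Module.finrank F₀ E : ℝ) ≤ 1 / 2 :=
    one_div_le_one_div_of_le (by norm_num) (by exact_mod_cast hd2)
  set C := |C₁| + |C₂| + |C₃| with hC
  have hC0 : 0 ≤ C := by positivity
  -- choose s with log (1/(s-1)) large
  set s := 1 + Real.exp (-(2 * C + 1)) with hsdef
  have he0 := Real.exp_pos (-(2 * C + 1))
  have he1 : Real.exp (-(2 * C + 1)) ≤ 1 := Real.exp_le_one_iff.2 (by linarith)
  have hs : s ∈ Set.Ioc (1 : ℝ) 2 := ⟨by linarith, by linarith⟩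
  have hlog : Real.log (1 / (s - 1)) = 2 * C + 1 := by
    rw [hsdef, add_sub_cancel_left, one_div, Real.log_inv, Real.log_exp, neg_neg]
  have a1 := (abs_le.1 (h1 s hs)).1
  have a2 := (abs_le.1 (h2 s hs)).2
  have a3 := h3 s hs
  rw [hlog] at a1 a2
  have b1 := le_abs_self C₁
  have b2 := le_abs_self C₂
  have b3 := le_abs_self C₃
  have b4 := mul_le_mul_of_nonneg_right hd (by linarith : (0 : ℝ) ≤ 2 * C + 1)
  norm_num at a1
  linarith

end H13S
end

-- from Lib.H13S.PA1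
section

open NumberField IsDedekindDomain

namespace H13S

open H55P H28G H55B

section gal

open Polynomial in
theorem PA1_card (k : Type) [Field k] [Finite k] (q : ℕ) (hq : 1 < q) (h : ∀ y : k, y ^ q = y) :
    Nat.card k ≤ q := by
  classical
  have := Fintype.ofFinite k
  rw [Nat.card_eq_fintype_card, ← Finset.card_univ]
  have h0 : (X ^ q - X : k[X]) ≠ 0 := FiniteField.X_pow_card_sub_X_ne_zero k hq
  have hd : (X ^ q - X : k[X]).natDegree = q := FiniteField.X_pow_card_sub_X_natDegree_eq k hq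
  have h1 : (Finset.univ : Finset k) ⊆ (X ^ q - X : k[X]).roots.toFinset := by
    intro y _
    rw [Multiset.mem_toFinset, mem_roots h0, IsRoot, eval_sub, eval_pow, eval_X, h y, sub_self]
  calc _ ≤ (X ^ q - X : k[X]).roots.toFinset.card := Finset.card_le_card h1
    _ ≤ Multiset.card (X ^ q - X : k[X]).roots := Multiset.toFinset_card_le _
    _ ≤ (X ^ q - X : k[X]).natDegree := card_roots' _
    _ = q := hd

/-- Finitely many primes are ramified. -/
theorem PA1_ram (K L : Type) [Field K] [NumberField K] [Field L] [NumberField L] [Algebra K L]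
    [IsGalois K L] : {v : HeightOneSpectrum (𝓞 K) | v.asIdeal.ramificationIdxIn (𝓞 L) ≠ 1}.Finite := by
  have hD : differentIdeal (𝓞 K) (𝓞 L) ≠ 0 := differentIdeal_ne_bot
  have hfin := Ideal.finite_factors hD
  have hinj : Function.Injective (algebraMap (𝓞 K) (𝓞 L)) := FaithfulSMul.algebraMap_injective _ _
  let f : HeightOneSpectrum (𝓞 L) → HeightOneSpectrum (𝓞 K) := fun P =>
    ⟨P.asIdeal.under (𝓞 K), inferInstance, fun h => P.ne_bot (Ideal.eq_bot_of_comap_eq_bot h)⟩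
  refine (hfin.image f).subset ?_
  intro v hv
  have hvm := v.isMaximal
  obtain ⟨P, hP1, hP2⟩ := Ideal.exists_maximal_ideal_liesOver_of_isIntegral (S := 𝓞 L) v.asIdeal
  have hPp := hP1.isPrime
  have hPb : P ≠ ⊥ := Ideal.ne_bot_of_liesOver_of_ne_bot v.ne_bot P
  refine ⟨⟨P, hPp, hPb⟩, ?_, ?_⟩
  · change v.asIdeal.ramificationIdxIn (𝓞 L) ≠ 1 at hv
    rw [Ideal.ramificationIdxIn_eq_ramificationIdx v.asIdeal P Gal(L/K)] at hv
    have h1 : 0 < P.ramificationIdx (𝓞 K) := Ideal.ramificationIdx_pos P (𝓞 K)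
    have h2 : 2 ≤ v.asIdeal.ramificationIdx' P := by
      rw [Ideal.ramificationIdx'_eq_ramificationIdx v.asIdeal P v.ne_bot]
      omega
    have h4 := Ideal.le_pow_of_le_ramificationIdx' h2
    have h5 := pow_sub_one_dvd_differentIdeal (𝓞 K) P 2 v.ne_bot (Ideal.dvd_iff_le.2 h4)
    show P ∣ differentIdeal (𝓞 K) (𝓞 L)
    rwa [show 2 - 1 = 1 from rfl, pow_one] at h5
  · apply HeightOneSpectrum.ext
    exact hP2.over.symm

variable {F₀ : Type} [Field F₀] [NumberField F₀] {Ω : Type} [Field Ω] [Algebra F₀ Ω]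
    [IsAlgClosure F₀ Ω]

/-- A normal open subgroup containing all Frobenius elements of degree one outside a finite set is everything. -/
theorem PA1_top (H : Subgroup (Ω ≃ₐ[F₀] Ω)) (hn : H.Normal) (L : IntermediateField F₀ Ω)
    [FiniteDimensional F₀ L] (hL : L.fixingSubgroup ≤ H) (S : Set (HeightOneSpectrum (𝓞 F₀)))
    (hS : S.Finite)
    (h : ∀ v : HeightOneSpectrum (𝓞 F₀), v ∉ S → (Ideal.absNorm v.asIdeal).Prime →
      ∀ V : ValuationSubring Ω,
      (∀ a : 𝓞 F₀, a ∈ v.asIdeal → V.valuation (algebraMap F₀ Ω (a : F₀)) < 1) →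
      ∀ s : Ω ≃ₐ[F₀] Ω, (∀ x ∈ V, V.valuation (s x - x ^ Ideal.absNorm v.asIdeal) < 1) → s ∈ H) :
    H = ⊤ := by
  have hac : IsAlgClosed Ω := IsAlgClosure.isAlgClosed F₀
  have halg : Algebra.IsAlgebraic F₀ Ω := IsAlgClosure.isAlgebraic
  have hgal : IsGalois F₀ Ω := inferInstance
  let E : IntermediateField F₀ Ω := IntermediateField.fixedField H
  have hEL : E ≤ L := by
    rw [← InfiniteGalois.fixedField_fixingSubgroup L]
    exact IntermediateField.fixedField_antitone hL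
  have hEf : FiniteDimensional F₀ E :=
    FiniteDimensional.of_injective (IntermediateField.inclusion hEL).toLinearMap
      (IntermediateField.inclusion_injective hEL)
  have hEn : NumberField E := NumberField.of_module_finite F₀ E
  have hEH : E.fixingSubgroup = H := by
    have ho : IsOpen (H : Set (Ω ≃ₐ[F₀] Ω)) := Subgroup.isOpen_mono hL L.fixingSubgroup_isOpen
    exact InfiniteGalois.fixingSubgroup_fixedField ⟨H, H.isClosed_of_isOpen ho⟩
  have hnorm : Normal F₀ E := by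
    rw [IntermediateField.normal_iff_forall_map_le']
    rintro σ _ ⟨x, hx, rfl⟩
    intro t
    have h1 := hx ⟨σ⁻¹ * t * σ, by
      have := hn.conj_mem t.1 t.2 σ⁻¹
      rwa [inv_inv] at this⟩
    have h2 : σ⁻¹ ((t : Ω ≃ₐ[F₀] Ω) (σ x)) = x := h1
    have h4 := congrArg σ h2
    rw [← AlgEquiv.mul_apply, mul_inv_cancel, AlgEquiv.one_apply] at h4
    exact h4
  have hEg : IsGalois F₀ E := {}
  have hfin : (S ∪ {v : HeightOneSpectrum (𝓞 F₀) | v.asIdeal.ramificationIdxIn (𝓞 E) ≠ 1}).Finite :=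
    hS.union (PA1_ram F₀ E)
  have h1 : Module.finrank F₀ E = 1 := by
    refine degree_one_split (F₀ := F₀) E _ hfin ?_
    intro v hv hq
    rw [Set.mem_union, not_or] at hv
    refine ⟨not_not.1 hv.2, ?_⟩
    have hvm := v.isMaximal
    obtain ⟨P, hP1, hP2⟩ := Ideal.exists_maximal_ideal_liesOver_of_isIntegral (S := 𝓞 E) v.asIdeal
    have hPp := hP1.isPrime
    have hPb : P ≠ ⊥ := Ideal.ne_bot_of_liesOver_of_ne_bot v.ne_bot P
    let w : HeightOneSpectrum (𝓞 E) := ⟨P, hPp, hPb⟩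
    obtain ⟨V, hV⟩ := exists_above E w
    have hw : ∀ a : 𝓞 E, V.valuation ((a : E) : Ω) < 1 ↔ a ∈ P := by
      intro a
      rw [hV.lt (a : E)]
      exact w.valuation_lt_one_iff_mem a
    have hv1 : ∀ a : 𝓞 F₀, a ∈ v.asIdeal → V.valuation (algebraMap F₀ Ω (a : F₀)) < 1 := by
      intro a ha
      have h2 : algebraMap (𝓞 F₀) (𝓞 E) a ∈ P := by
        rw [hP2.over] at ha
        exact ha
      exact (hw _).2 h2
    obtain ⟨s, -, hs⟩ := exists_frob v V hv1
    have hsH := h v hv.1 hq V hv1 s hs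
    show v.asIdeal.inertiaDegIn (𝓞 E) = 1
    rw [Ideal.inertiaDegIn_eq_inertiaDeg v.asIdeal P Gal(E/F₀)]
    have hfix : ∀ a : 𝓞 E, a - a ^ Ideal.absNorm v.asIdeal ∈ P := by
      intro a
      rw [← hw]
      have h2 : s ((a : E) : Ω) = ((a : E) : Ω) := by
        rw [← hEH] at hsH
        exact hsH (a : E)
      have h4 : ((a : E) : Ω) ∈ V := by
        rw [hV]
        exact w.valuation_le_one a
      have h5 := hs _ h4
      rw [h2] at h5
      exact h5
    have hcard := Ideal.cardQuot_pow_inertiaDeg v.asIdeal P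
    have hle : Submodule.cardQuot P ≤ Ideal.absNorm v.asIdeal := by
      rw [Submodule.cardQuot_apply]
      let _ : Field (𝓞 E ⧸ P) := Ideal.Quotient.field P
      have hfq : Finite (𝓞 E ⧸ P) := Ideal.finiteQuotientOfFreeOfNeBot P hPb
      refine PA1_card (𝓞 E ⧸ P) _ hq.one_lt ?_
      intro y
      obtain ⟨a, rfl⟩ := Ideal.Quotient.mk_surjective y
      rw [← map_pow]
      exact ((Ideal.Quotient.mk_eq_mk_iff_sub_mem _ _).2 (hfix a)).symm
    rw [← hcard, ← Ideal.absNorm_apply] at hle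
    have hf0 := Ideal.inertiaDeg_pos P (𝓞 F₀)
    have hf1 : P.inertiaDeg (𝓞 F₀) ≤ 1 := by
      by_contra hcon
      have h2 : Ideal.absNorm v.asIdeal ^ 1 < Ideal.absNorm v.asIdeal ^ P.inertiaDeg (𝓞 F₀) :=
        Nat.pow_lt_pow_right hq.one_lt (by omega)
      rw [pow_one] at h2
      omega
    omega
  have h2 : E = ⊥ := IntermediateField.finrank_eq_one_iff.1 h1
  rw [← hEH, h2, IntermediateField.fixingSubgroup_bot]

end gal

variable {Ω : Type} [Field Ω] [DecidableEq Ω] [Algebra F Ω] [IsAlgClosure F Ω]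

/-- Every nonzero point killed by beta generates. -/
theorem PA1_gen (β : O) (hβ : Prime β) (h3 : Prim β) (T₀ : P27 Ω) (hT : T₀ ∈ Tor β Ω) (h0 : T₀ ≠ 0) :
    (∀ T ∈ Tor β Ω, ∃ a : O, T = act a T₀) ∧ ∀ a : O, act a T₀ = 0 ↔ β ∣ a := by
  obtain ⟨_, G₀, hG, hgen, hz⟩ := gi_gen (Ω := Ω) β hβ h3
  obtain ⟨t, ht⟩ := hgen T₀ hT
  have hnt : ¬ β ∣ t := by
    intro h
    exact h0 (ht.trans ((hz t).2 h))
  have hc : IsCoprime β t := (hβ.irreducible.coprime_iff_not_dvd).2 hnt
  obtain ⟨w, u, huw⟩ := hc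
  refine ⟨fun T hT' => ?_, fun a => ?_⟩
  · obtain ⟨x, hx⟩ := hgen T hT'
    refine ⟨x * u, ?_⟩
    rw [ht, ← act_mul, hx]
    have h1 : x = x * u * t + x * w * β := by linear_combination (-x) * huw
    conv_lhs => rw [h1]
    rw [act_add, act_mul (x * w) β, mem_Tor.1 hG, map_zero, add_zero]
  · rw [ht, ← act_mul, hz]
    constructor
    · intro h
      exact (hβ.dvd_or_dvd h).resolve_right hnt
    · intro h
      exact dvd_mul_of_dvd_left h t

theorem PA1_cjprim {x : O} (h : Prim x) : Prim (cj x) := by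
  obtain ⟨y, hy⟩ := h
  refine ⟨cj y, ?_⟩
  have h1 := congrArg cj hy
  rw [map_sub, map_one, map_mul, map_ofNat] at h1
  exact h1

theorem PA1_cjdvd {x y : O} : cj x ∣ y ↔ x ∣ cj y := by
  constructor
  · rintro ⟨z, rfl⟩
    rw [map_mul, cj_cj]
    exact Dvd.intro _ rfl
  · rintro ⟨z, hz⟩
    refine ⟨cj z, ?_⟩
    rw [← map_mul, ← hz, cj_cj]

omit [DecidableEq Ω] [IsAlgClosure F Ω] in
theorem PA1_int (V : ValuationSubring Ω) (x : O) : V.valuation (algebraMap F Ω (x : F)) ≤ 1 := by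
  have h1 : IsIntegral ℤ (algebraMap F Ω (x : F)) :=
    map_isIntegral_int (algebraMap F Ω) (RingOfIntegers.isIntegral_coe x)
  have h2 : IsIntegral V (algebraMap F Ω (x : F)) := h1.tower_top
  obtain ⟨y, hy⟩ := (IsIntegrallyClosed.isIntegral_iff (R := V) (K := Ω)).1 h2
  rw [ValuationSubring.valuation_le_one_iff, ← hy]
  exact y.2

omit [IsAlgClosure F Ω] in
/-- Roots of unity at a Frobenius element. -/
theorem PA1_zeta (l : ℕ) (hl : l.Prime) (ζ : Ω) (hζ : IsPrimitiveRoot ζ l) (V : ValuationSubring Ω)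
    (hV : ¬ V.valuation (l : Ω) < 1) (q : ℕ) (s : Ω ≃ₐ[F] Ω)
    (hs : ∀ x ∈ V, V.valuation (s x - x ^ q) < 1) : s ζ = ζ ^ q := by
  have hl0 : NeZero l := ⟨hl.ne_zero⟩
  have hz1 : V.valuation ζ = 1 := by
    have h1 : V.valuation ζ ^ l = 1 := by rw [← map_pow, hζ.pow_eq_one, map_one]
    exact (pow_eq_one_iff_of_nonneg zero_le hl.ne_zero).1 h1
  have hzV : ζ ∈ V := (V.valuation_le_one_iff ζ).1 hz1.le
  by_contra hne
  have hz0 : ζ ^ q ≠ 0 := pow_ne_zero _ (hζ.ne_zero hl.ne_zero)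
  let ξ : Ω := s ζ / ζ ^ q
  have hξ1 : ξ ≠ 1 := fun h => hne ((div_eq_one_iff_eq hz0).1 h)
  have hξl : ξ ^ l = 1 := by
    show (s ζ / ζ ^ q) ^ l = 1
    rw [div_pow, ← map_pow, hζ.pow_eq_one, map_one, ← pow_mul, mul_comm, pow_mul, hζ.pow_eq_one,
      one_pow, div_one]
  have hξv : V.valuation (ξ - 1) < 1 := by
    have h1 : ξ - 1 = (s ζ - ζ ^ q) / ζ ^ q := by
      show s ζ / ζ ^ q - 1 = _
      field_simp
    rw [h1, map_div₀, map_pow, hz1, one_pow, div_one]
    exact hs ζ hzV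
  have hξV : ξ ∈ V := by
    have h1 : ξ - 1 ∈ V := (V.valuation_le_one_iff _).1 hξv.le
    have h2 := V.add_mem _ _ h1 V.one_mem
    rwa [sub_add_cancel] at h2
  let x : V := ⟨ξ, hξV⟩
  have hr : IsLocalRing.residue V x = 1 := by
    have h1 : x - 1 ∈ IsLocalRing.maximalIdeal V := by
      rw [ValuationSubring.valuation_lt_one_iff]
      exact hξv
    have h2 := (IsLocalRing.residue_eq_zero_iff _).2 h1
    rw [map_sub, map_one, sub_eq_zero] at h2
    exact h2
  have hsum : ∑ i ∈ Finset.range l, x ^ i = 0 := by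
    apply Subtype.ext
    have h1 := geom_sum_mul ξ l
    rw [hξl, sub_self] at h1
    have h2 := (mul_eq_zero.1 h1).resolve_right (sub_ne_zero.2 hξ1)
    rw [ZeroMemClass.coe_zero, ← h2]
    push_cast
    rfl
  have h1 : IsLocalRing.residue V (l : V) = 0 := by
    have h2 := congrArg (IsLocalRing.residue V) hsum
    rw [map_sum, map_zero] at h2
    simp only [map_pow, hr, one_pow, Finset.sum_const, Finset.card_range, nsmul_eq_mul, mul_one] at h2
    rw [map_natCast]
    exact h2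
  apply hV
  have h2 := (IsLocalRing.residue_eq_zero_iff _).1 h1
  have h4 := (ValuationSubring.valuation_lt_one_iff V (l : V)).1 h2
  exact h4

/-- Chunk PA1 (M/L). The determinant of the Galois action: conj(chi'(s)) chi(s) = cyclotomic(s) modulo pi.
Let H be the set of all s in G = Gal(Ω/F) for which the conclusion holds for the (unique modulo pi, cj pi, l) a, b, c attached to s. chi, chi' (exists_chi for
pi and cj pi) and the cyclotomic character are homomorphisms, so H is the kernel of the homomorphism s -> cj(chi'(s)) chi(s) / cyc(s) to (O/pi)^*; it is a normal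
subgroup containing the open subgroup M.fixingSubgroup, M = F(coordinates of Tor pi, Tor (cj pi), zeta) finite over F. E = fixed field of H: Galois over F, finite,
number field, E.fixingSubgroup = H (H is open, hence closed). Let v be a prime of F not above 3 l, with N v prime, unramified in E, gamma its primary generator (H55B.gen;
Prim). V above v (exists_above for a field, or any valuation ring with value of gamma < 1), s a Frobenius element at V (exists_frob).
gi_frob: ac s T₀ = act gamma T₀, ac s T₀' = act gamma T₀', so a = gamma mod pi, b = gamma mod cj pi; s zeta = zeta^(N v) because s zeta - zeta^(N v) has value < 1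
and different l-th roots of unity differ by elements dividing l (a V-unit). So cj b a - c = cj gamma gamma - Nm gamma = 0 modulo pi (mul_cj): s in H, s acts
trivially on E, so x = x^(N v) modulo the prime of E below V for all x in 𝓞 E: the residue degree is 1. All Frobenius elements and all V above v behave like this, so v splits completely
in E (es = 1, fs = 1, see H55R/Defs: es, fs are ramificationIdxIn, inertiaDegIn). degree_one_split: E = F, H = G. -/
theorem char_id (π : O) (l : ℕ) (hl : l.Prime) (h5 : 5 ≤ l) (hπ : Prime π) (h3 : Prim π) (hd : π ∣ (l : O))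
    (ζ : Ω) (hζ : IsPrimitiveRoot ζ l) (s : Ω ≃ₐ[F] Ω) (a b : O) (c : ℕ) (T₀ T₀' : P27 Ω)
    (hT : T₀ ∈ Tor π Ω) (hT0 : T₀ ≠ 0) (hT' : T₀' ∈ Tor (cj π) Ω) (hT0' : T₀' ≠ 0)
    (ha : ac W27 s T₀ = act a T₀) (hb : ac W27 s T₀' = act b T₀') (hc : s ζ = ζ ^ c) :
    π ∣ cj b * a - (c : O) := by
  classical
  have hl0 : NeZero l := ⟨hl.ne_zero⟩
  have hac : IsAlgClosed Ω := IsAlgClosure.isAlgClosed F
  have halg : Algebra.IsAlgebraic F Ω := IsAlgClosure.isAlgebraic
  have hπ' : Prime (cj π) := (MulEquiv.prime_iff cj).2 hπ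
  have h3' : Prim (cj π) := PA1_cjprim h3
  have hd' : cj π ∣ (l : O) := by
    rw [PA1_cjdvd, map_natCast]
    exact hd
  obtain ⟨hg, hz⟩ := PA1_gen π hπ h3 T₀ hT hT0
  obtain ⟨hg', hz'⟩ := PA1_gen (cj π) hπ' h3' T₀' hT' hT0'
  have hex : ∀ t : Ω ≃ₐ[F] Ω, ∃ p : O × O × ℕ, ac W27 t T₀ = act p.1 T₀ ∧
      ac W27 t T₀' = act p.2.1 T₀' ∧ t ζ = ζ ^ p.2.2 := by
    intro t
    obtain ⟨x, hx⟩ := hg _ (ac_mem t hT)
    obtain ⟨y, hy⟩ := hg' _ (ac_mem t hT')
    have h1 : (t ζ) ^ l = 1 := by rw [← map_pow, hζ.pow_eq_one, map_one]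
    obtain ⟨i, _, hi⟩ := hζ.eq_pow_of_pow_eq_one h1
    exact ⟨⟨x, y, i⟩, hx, hy, hi.symm⟩
  choose p hp using hex
  let mk : O →+* O ⧸ Ideal.span {π} := Ideal.Quotient.mk (Ideal.span {π})
  have hmk : ∀ x y : O, mk x = mk y ↔ π ∣ x - y := by
    intro x y
    rw [← Ideal.mem_span_singleton]
    exact Ideal.Quotient.mk_eq_mk_iff_sub_mem _ _
  have uniq1 : ∀ (t : Ω ≃ₐ[F] Ω) (x y : O), ac W27 t T₀ = act x T₀ → ac W27 t T₀' = act y T₀' →
      mk (cj y * x) = mk (cj (p t).2.1 * (p t).1) := by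
    intro t x y hx hy
    have h1 : π ∣ x - (p t).1 := by
      rw [← hz, act_sub, ← hx, ← (hp t).1, sub_self]
    have h2 : π ∣ cj y - cj (p t).2.1 := by
      rw [← map_sub, ← PA1_cjdvd, ← hz', act_sub, ← hy, ← (hp t).2.1, sub_self]
    rw [map_mul mk, map_mul mk, (hmk _ _).2 h1, (hmk _ _).2 h2]
  have uniq2 : ∀ (t : Ω ≃ₐ[F] Ω) (n : ℕ), t ζ = ζ ^ n → mk (n : O) = mk ((p t).2.2 : O) := by
    intro t n hn
    have h1 : ζ ^ n = ζ ^ (p t).2.2 := by rw [← hn, (hp t).2.2]
    have h2 : n ≡ (p t).2.2 [MOD l] := by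
      rw [← pow_mod_orderOf, ← pow_mod_orderOf ζ (p t).2.2, ← hζ.eq_orderOf] at h1
      exact hζ.pow_inj (Nat.mod_lt _ hl.pos) (Nat.mod_lt _ hl.pos) h1
    rw [hmk]
    have h4 : (l : ℤ) ∣ ((n : ℤ) - ((p t).2.2 : ℤ)) := (Nat.modEq_iff_dvd.1 h2.symm)
    obtain ⟨m, hm⟩ := h4
    have h6 : (n : O) - ((p t).2.2 : O) = (l : O) * (m : O) := by
      exact_mod_cast congrArg (fun z : ℤ => (z : O)) hm
    rw [h6]
    exact dvd_mul_of_dvd_left hd _
  let D : (Ω ≃ₐ[F] Ω) →* (O ⧸ Ideal.span {π}) :=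
    { toFun := fun t => mk (cj (p t).2.1 * (p t).1)
      map_one' := by
        rw [← uniq1 1 1 1 (by rw [ac_one, act_one]) (by rw [ac_one, act_one])]
        simp
      map_mul' := fun t u => by
        rw [← uniq1 (t * u) ((p u).1 * (p t).1) ((p u).2.1 * (p t).2.1)
          (by rw [ac_mul, (hp u).1, ac_act, (hp t).1, ← act_mul])
          (by rw [ac_mul, (hp u).2.1, ac_act, (hp t).2.1, ← act_mul]), ← map_mul, map_mul cj]
        congr 1
        ring }
  let C : (Ω ≃ₐ[F] Ω) →* (O ⧸ Ideal.span {π}) :=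
    { toFun := fun t => mk ((p t).2.2 : O)
      map_one' := by
        rw [← uniq2 1 1 (by rw [pow_one]; rfl)]
        simp
      map_mul' := fun t u => by
        rw [← uniq2 (t * u) ((p t).2.2 * (p u).2.2) (by
          rw [AlgEquiv.mul_apply, (hp u).2.2, map_pow, (hp t).2.2, pow_mul]), ← map_mul]
        congr 1
        push_cast
        rfl }
  have hH : ∀ (t : Ω ≃ₐ[F] Ω) (x y : O) (n : ℕ), ac W27 t T₀ = act x T₀ → ac W27 t T₀' = act y T₀' →
      t ζ = ζ ^ n → (t ∈ MonoidHom.eqLocus D C ↔ π ∣ cj y * x - (n : O)) := by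
    intro t x y n hx hy hn
    rw [← hmk, uniq1 t x y hx hy, uniq2 t n hn]
    exact Iff.rfl
  have key : MonoidHom.eqLocus D C = ⊤ := by
    have hint : ∀ x : Ω, IsIntegral F x := fun x => (Algebra.IsAlgebraic.isAlgebraic x).isIntegral
    let A : Set Ω := {xc T₀, yc T₀, xc T₀', yc T₀', ζ}
    have hAf : A.Finite := Set.toFinite A
    have hAf' : Finite A := hAf
    have hLf : FiniteDimensional F (IntermediateField.adjoin F A) :=
      IntermediateField.finiteDimensional_adjoin fun x _ => hint x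
    refine PA1_top (F₀ := F) (MonoidHom.eqLocus D C) ?_ (IntermediateField.adjoin F A) ?_
      ({v | (3 : O) ∈ v.asIdeal} ∪ {v | (l : O) ∈ v.asIdeal}) ?_ ?_
    · constructor
      intro t ht g
      show D (g * t * g⁻¹) = C (g * t * g⁻¹)
      have h1 : D t = C t := ht
      rw [map_mul, map_mul, map_mul, map_mul, mul_right_comm, mul_right_comm (C g), h1, ← map_mul,
        ← map_mul, mul_inv_cancel, map_one, map_one]
    · intro t ht
      have hfix : ∀ x ∈ A, t x = x := fun x hx =>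
        ht ⟨x, IntermediateField.subset_adjoin F A hx⟩
      have hacne : ∀ P : P27 Ω, P ≠ 0 → ac W27 t P ≠ 0 := fun P hP => mp_ne t.toAlgHom hP
      have e1 : ac W27 t T₀ = act 1 T₀ := by
        rw [act_one]
        refine pt_ext (hacne _ hT0) hT0 ?_ ?_
        · rw [ac_eq, xc_mp]
          exact hfix _ (by simp [A])
        · rw [ac_eq, yc_mp]
          exact hfix _ (by simp [A])
      have e2 : ac W27 t T₀' = act 1 T₀' := by
        rw [act_one]
        refine pt_ext (hacne _ hT0') hT0' ?_ ?_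
        · rw [ac_eq, xc_mp]
          exact hfix _ (by simp [A])
        · rw [ac_eq, yc_mp]
          exact hfix _ (by simp [A])
      rw [hH t 1 1 1 e1 e2 (by rw [pow_one]; exact hfix _ (by simp [A]))]
      simp
    · have hf : ∀ n : ℕ, n ≠ 0 → {v : HeightOneSpectrum O | (n : O) ∈ v.asIdeal}.Finite := by
        intro n hn
        have h1 : Ideal.span {(n : O)} ≠ 0 := by
          rw [Ideal.zero_eq_bot, Ne, Ideal.span_singleton_eq_bot]
          exact Nat.cast_ne_zero.2 hn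
        refine (Ideal.finite_factors h1).subset ?_
        intro v hv
        exact Ideal.dvd_span_singleton.2 hv
      exact (hf 3 (by norm_num)).union (hf l hl.ne_zero)
    · intro v hv hq V hV t ht
      rw [Set.mem_union, not_or] at hv
      obtain ⟨hv3, hvl⟩ := hv
      change (3 : O) ∉ v.asIdeal at hv3
      change (l : O) ∉ v.asIdeal at hvl
      obtain ⟨hγ1, hγ3⟩ := gen_spec v hv3
      have hγp := gen_prime v hv3
      have hγn := absNorm_gen v hv3
      have hγV : vo V (gen v) < 1 := hV (gen v) ((gen_dvd_iff v hv3 _).1 dvd_rfl)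
      have hn1 : ¬ gen v ∣ π := fun h => hvl ((gen_dvd_iff v hv3 _).1 (h.trans hd))
      have hn2 : ¬ gen v ∣ cj π := fun h => hvl ((gen_dvd_iff v hv3 _).1 (h.trans hd'))
      rw [hγn] at ht
      have f1 := gi_frob π (gen v) hπ h3 hγp hγ3 hn1 V hγV t ht T₀ hT
      have f2 := gi_frob (cj π) (gen v) hπ' h3' hγp hγ3 hn2 V hγV t ht T₀' hT'
      have hVl : ¬ V.valuation (l : Ω) < 1 := by
        intro hlt
        have hcop : IsCoprime (gen v) (l : O) :=
          (hγp.irreducible.coprime_iff_not_dvd).2 fun h => hvl ((gen_dvd_iff v hv3 _).1 h)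
        obtain ⟨x, y, hxy⟩ := hcop
        have h1 : algebraMap F Ω (x : F) * algebraMap F Ω (gen v : F) +
            algebraMap F Ω (y : F) * (l : Ω) = 1 := by
          have h2 : (x : F) * (gen v : F) + (y : F) * (l : F) = 1 := by
            exact_mod_cast congrArg (fun z : O => (z : F)) hxy
          have h4 := congrArg (algebraMap F Ω) h2
          rw [map_add, map_mul, map_mul, map_natCast, map_one] at h4
          exact h4
        have h2 : V.valuation (algebraMap F Ω (x : F) * algebraMap F Ω (gen v : F)) < 1 := by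
          rw [map_mul]
          exact mul_lt_one_of_nonneg_of_lt_one_right (PA1_int V x) zero_le hγV
        have h4 : V.valuation (algebraMap F Ω (y : F) * (l : Ω)) < 1 := by
          rw [map_mul]
          exact mul_lt_one_of_nonneg_of_lt_one_right (PA1_int V y) zero_le hlt
        have h6 := V.valuation.map_add_lt h2 h4
        rw [h1, map_one] at h6
        exact lt_irrefl _ h6
      have f3 := PA1_zeta l hl ζ hζ V hVl (H55B.Nm (gen v)) t ht
      rw [hH t _ _ _ f1 f2 f3, mul_comm, mul_cj, sub_self]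
      exact dvd_zero _
  have h1 : s ∈ MonoidHom.eqLocus D C := by
    rw [key]
    exact Subgroup.mem_top s
  exact (hH s a b c ha hb hc).1 h1

end H13S
end

-- from Lib.H55K.SPA1
section

/-! # H55K, part S: port of H13S/PA1 -/

open NumberField IsDedekindDomain WeierstrassCurve

namespace H55K.S

open H55P (IQ embF eF LF Per IsHecke Pt ac Inert Dec Nm)
open H35P (WAB Ker tt)
open H13S (Abv)






variable {F : Type} [Field F] [NumberField F] [IQ F] {A B : F} {Om : ℂ} {Ω : Type} [Field Ω] [DecidableEq Ω]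
  [Algebra F Ω] [IsAlgClosure F Ω] {j : Ω →+* ℂ} {act : 𝓞 F →+* AddMonoid.End (Pt (WAB A B) Ω)} {mo : Ideal (𝓞 F)}
  {ψ : Ideal (𝓞 F) →*₀ 𝓞 F}

/-- Every nonzero point killed by beta generates. -/
theorem PA1_gen (hA : CMA F A B Om j act) (β : 𝓞 F) (hβ : Prime β) (T₀ : Pt (WAB A B) Ω) (hT : T₀ ∈ Tor act β) (h0 : T₀ ≠ 0) :
    (∀ T ∈ Tor act β, ∃ a : 𝓞 F, T = act a T₀) ∧ ∀ a : 𝓞 F, act a T₀ = 0 ↔ β ∣ a := by
  obtain ⟨_, G₀, hG, hgen, hz⟩ := gi_gen hA β hβ
  obtain ⟨t, ht⟩ := hgen T₀ hT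
  have hnt : ¬ β ∣ t := by
    intro h
    exact h0 (ht.trans ((hz t).2 h))
  have hc : IsCoprime β t := (hβ.irreducible.coprime_iff_not_dvd).2 hnt
  obtain ⟨w, u, huw⟩ := hc
  refine ⟨fun T hT' => ?_, fun a => ?_⟩
  · obtain ⟨x, hx⟩ := hgen T hT'
    refine ⟨x * u, ?_⟩
    rw [ht, ← act_mul, hx]
    have h1 : x = x * u * t + x * w * β := by linear_combination (-x) * huw
    conv_lhs => rw [h1]
    rw [act_add, act_mul (x * w) β, mem_Tor.1 hG, map_zero, add_zero]
  · rw [ht, ← act_mul, hz]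
    constructor
    · intro h
      exact (hβ.dvd_or_dvd h).resolve_right hnt
    · intro h
      exact dvd_mul_of_dvd_left h t

omit [IsAlgClosure F Ω] in
/-- Roots of unity at a Frobenius element. -/
theorem PA1_zeta (l : ℕ) (hl : l.Prime) (ζ : Ω) (hζ : IsPrimitiveRoot ζ l) (V : ValuationSubring Ω)
    (hV : ¬ V.valuation (l : Ω) < 1) (q : ℕ) (s : Ω ≃ₐ[F] Ω)
    (hs : ∀ x ∈ V, V.valuation (s x - x ^ q) < 1) : s ζ = ζ ^ q := by
  have hl0 : NeZero l := ⟨hl.ne_zero⟩
  have hz1 : V.valuation ζ = 1 := by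
    have h1 : V.valuation ζ ^ l = 1 := by rw [← map_pow, hζ.pow_eq_one, map_one]
    exact (pow_eq_one_iff_of_nonneg zero_le hl.ne_zero).1 h1
  have hzV : ζ ∈ V := (V.valuation_le_one_iff ζ).1 hz1.le
  by_contra hne
  have hz0 : ζ ^ q ≠ 0 := pow_ne_zero _ (hζ.ne_zero hl.ne_zero)
  let ξ : Ω := s ζ / ζ ^ q
  have hξ1 : ξ ≠ 1 := fun h => hne ((div_eq_one_iff_eq hz0).1 h)
  have hξl : ξ ^ l = 1 := by
    show (s ζ / ζ ^ q) ^ l = 1
    rw [div_pow, ← map_pow, hζ.pow_eq_one, map_one, ← pow_mul, mul_comm, pow_mul, hζ.pow_eq_one,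
      one_pow, div_one]
  have hξv : V.valuation (ξ - 1) < 1 := by
    have h1 : ξ - 1 = (s ζ - ζ ^ q) / ζ ^ q := by
      show s ζ / ζ ^ q - 1 = _
      field_simp
    rw [h1, map_div₀, map_pow, hz1, one_pow, div_one]
    exact hs ζ hzV
  have hξV : ξ ∈ V := by
    have h1 : ξ - 1 ∈ V := (V.valuation_le_one_iff _).1 hξv.le
    have h2 := V.add_mem _ _ h1 V.one_mem
    rwa [sub_add_cancel] at h2
  let x : V := ⟨ξ, hξV⟩
  have hr : IsLocalRing.residue V x = 1 := by
    have h1 : x - 1 ∈ IsLocalRing.maximalIdeal V := by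
      rw [ValuationSubring.valuation_lt_one_iff]
      exact hξv
    have h2 := (IsLocalRing.residue_eq_zero_iff _).2 h1
    rw [map_sub, map_one, sub_eq_zero] at h2
    exact h2
  have hsum : ∑ i ∈ Finset.range l, x ^ i = 0 := by
    apply Subtype.ext
    have h1 := geom_sum_mul ξ l
    rw [hξl, sub_self] at h1
    have h2 := (mul_eq_zero.1 h1).resolve_right (sub_ne_zero.2 hξ1)
    rw [ZeroMemClass.coe_zero, ← h2]
    push_cast
    rfl
  have h1 : IsLocalRing.residue V (l : V) = 0 := by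
    have h2 := congrArg (IsLocalRing.residue V) hsum
    rw [map_sum, map_zero] at h2
    simp only [map_pow, hr, one_pow, Finset.sum_const, Finset.card_range, nsmul_eq_mul, mul_one] at h2
    rw [map_natCast]
    exact h2
  apply hV
  have h2 := (IsLocalRing.residue_eq_zero_iff _).1 h1
  have h4 := (ValuationSubring.valuation_lt_one_iff V (l : V)).1 h2
  exact h4

/-- Chunk PA1 (M/L). The determinant of the Galois action: conj(chi'(s)) chi(s) = cyclotomic(s) modulo pi.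
Let H be the set of all s in G = Gal(Ω/F) for which the conclusion holds for the (unique modulo pi, cj pi, l) a, b, c attached to s. chi, chi' (exists_chi for
pi and cj pi) and the cyclotomic character are homomorphisms, so H is the kernel of the homomorphism s -> cj(chi'(s)) chi(s) / cyc(s) to (𝓞 F/pi)^*; it is a normal
subgroup containing the open subgroup M.fixingSubgroup, M = F(coordinates of Tor pi, Tor (cj pi), zeta) finite over F. E = fixed field of H: Galois over F, finite,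
number field, E.fixingSubgroup = H (H is open, hence closed). Let v be a prime of F not above 3 l, with N v prime, unramified in E, gamma its primary generator (H55B.gen;
Prim). V above v (exists_above for a field, or any valuation ring with value of gamma < 1), s a Frobenius element at V (exists_frob).
gi_frob: ac s T₀ = act gamma T₀, ac s T₀' = act gamma T₀', so a = gamma mod pi, b = gamma mod cj pi; s zeta = zeta^(N v) because s zeta - zeta^(N v) has value < 1
and different l-th roots of unity differ by elements dividing l (a V-unit). So cj b a - c = cj gamma gamma - Nm gamma = 0 modulo pi (mul_cj): s in H, s acts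
trivially on E, so x = x^(N v) modulo the prime of E below V for all x in 𝓞 E: the residue degree is 1. All Frobenius elements and all V above v behave like this, so v splits completely
in E (es = 1, fs = 1, see H55R/Defs: es, fs are ramificationIdxIn, inertiaDegIn). degree_one_split: E = F, H = G. -/
theorem char_id (π : 𝓞 F) (l : ℕ) (dta : Dta A B Om j act mo ψ l) (hπ : Prime π) (hd : π ∣ (l : 𝓞 F))
    (ζ : Ω) (hζ : IsPrimitiveRoot ζ l) (s : Ω ≃ₐ[F] Ω) (a b : 𝓞 F) (c : ℕ) (T₀ T₀' : Pt (WAB A B) Ω)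
    (hT : T₀ ∈ Tor act π) (hT0 : T₀ ≠ 0) (hT' : T₀' ∈ Tor act (cj π)) (hT0' : T₀' ≠ 0)
    (ha : ac (WAB A B) s T₀ = act a T₀) (hb : ac (WAB A B) s T₀' = act b T₀') (hc : s ζ = ζ ^ c) :
    π ∣ cj b * a - (c : 𝓞 F) := by
  classical
  have hA := dta.cma
  have hl := dta.prime
  have hl0 : NeZero l := ⟨hl.ne_zero⟩
  have hac : IsAlgClosed Ω := IsAlgClosure.isAlgClosed F
  have halg : Algebra.IsAlgebraic F Ω := IsAlgClosure.isAlgebraic
  have hπ' : Prime (cj π) := cj_prime hπ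
  have hd' : cj π ∣ (l : 𝓞 F) := by
    rw [cj_dvd, cj_nat]
    exact hd
  obtain ⟨hg, hz⟩ := PA1_gen hA π hπ T₀ hT hT0
  obtain ⟨hg', hz'⟩ := PA1_gen hA (cj π) hπ' T₀' hT' hT0'
  have hex : ∀ t : Ω ≃ₐ[F] Ω, ∃ p : 𝓞 F × 𝓞 F × ℕ, ac (WAB A B) t T₀ = act p.1 T₀ ∧
      ac (WAB A B) t T₀' = act p.2.1 T₀' ∧ t ζ = ζ ^ p.2.2 := by
    intro t
    obtain ⟨x, hx⟩ := hg _ (ac_mem hA t hT)
    obtain ⟨y, hy⟩ := hg' _ (ac_mem hA t hT')
    have h1 : (t ζ) ^ l = 1 := by rw [← map_pow, hζ.pow_eq_one, map_one]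
    obtain ⟨i, _, hi⟩ := hζ.eq_pow_of_pow_eq_one h1
    exact ⟨⟨x, y, i⟩, hx, hy, hi.symm⟩
  choose p hp using hex
  let mk : 𝓞 F →+* 𝓞 F ⧸ Ideal.span {π} := Ideal.Quotient.mk (Ideal.span {π})
  have hmk : ∀ x y : 𝓞 F, mk x = mk y ↔ π ∣ x - y := by
    intro x y
    rw [← Ideal.mem_span_singleton]
    exact Ideal.Quotient.mk_eq_mk_iff_sub_mem _ _
  have uniq1 : ∀ (t : Ω ≃ₐ[F] Ω) (x y : 𝓞 F), ac (WAB A B) t T₀ = act x T₀ → ac (WAB A B) t T₀' = act y T₀' →
      mk (cj y * x) = mk (cj (p t).2.1 * (p t).1) := by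
    intro t x y hx hy
    have h1 : π ∣ x - (p t).1 := by
      rw [← hz, act_sub, ← hx, ← (hp t).1, sub_self]
    have h2 : π ∣ cj y - cj (p t).2.1 := by
      rw [← map_sub, ← cj_dvd, ← hz', act_sub, ← hy, ← (hp t).2.1, sub_self]
    rw [map_mul mk, map_mul mk, (hmk _ _).2 h1, (hmk _ _).2 h2]
  have uniq2 : ∀ (t : Ω ≃ₐ[F] Ω) (n : ℕ), t ζ = ζ ^ n → mk (n : 𝓞 F) = mk ((p t).2.2 : 𝓞 F) := by
    intro t n hn
    have h1 : ζ ^ n = ζ ^ (p t).2.2 := by rw [← hn, (hp t).2.2]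
    have h2 : n ≡ (p t).2.2 [MOD l] := by
      rw [← pow_mod_orderOf, ← pow_mod_orderOf ζ (p t).2.2, ← hζ.eq_orderOf] at h1
      exact hζ.pow_inj (Nat.mod_lt _ hl.pos) (Nat.mod_lt _ hl.pos) h1
    rw [hmk]
    have h4 : (l : ℤ) ∣ ((n : ℤ) - ((p t).2.2 : ℤ)) := (Nat.modEq_iff_dvd.1 h2.symm)
    obtain ⟨m, hm⟩ := h4
    have h6 : (n : 𝓞 F) - ((p t).2.2 : 𝓞 F) = (l : 𝓞 F) * (m : 𝓞 F) := by
      exact_mod_cast congrArg (fun z : ℤ => (z : 𝓞 F)) hm
    rw [h6]
    exact dvd_mul_of_dvd_left hd _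
  let D : (Ω ≃ₐ[F] Ω) →* (𝓞 F ⧸ Ideal.span {π}) :=
    { toFun := fun t => mk (cj (p t).2.1 * (p t).1)
      map_one' := by
        rw [← uniq1 1 1 1 (by rw [ac_one, act_one]) (by rw [ac_one, act_one])]
        simp
      map_mul' := fun t u => by
        rw [← uniq1 (t * u) ((p u).1 * (p t).1) ((p u).2.1 * (p t).2.1)
          (by rw [ac_mul, (hp u).1, ac_act hA, (hp t).1, ← act_mul])
          (by rw [ac_mul, (hp u).2.1, ac_act hA, (hp t).2.1, ← act_mul]), ← map_mul, map_mul cj]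
        congr 1
        ring }
  let C : (Ω ≃ₐ[F] Ω) →* (𝓞 F ⧸ Ideal.span {π}) :=
    { toFun := fun t => mk ((p t).2.2 : 𝓞 F)
      map_one' := by
        rw [← uniq2 1 1 (by rw [pow_one]; rfl)]
        simp
      map_mul' := fun t u => by
        rw [← uniq2 (t * u) ((p t).2.2 * (p u).2.2) (by
          rw [AlgEquiv.mul_apply, (hp u).2.2, map_pow, (hp t).2.2, pow_mul]), ← map_mul]
        congr 1
        push_cast
        rfl }
  have hH : ∀ (t : Ω ≃ₐ[F] Ω) (x y : 𝓞 F) (n : ℕ), ac (WAB A B) t T₀ = act x T₀ → ac (WAB A B) t T₀' = act y T₀' →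
      t ζ = ζ ^ n → (t ∈ MonoidHom.eqLocus D C ↔ π ∣ cj y * x - (n : 𝓞 F)) := by
    intro t x y n hx hy hn
    rw [← hmk, uniq1 t x y hx hy, uniq2 t n hn]
    exact Iff.rfl
  have key : MonoidHom.eqLocus D C = ⊤ := by
    have hint : ∀ x : Ω, IsIntegral F x := fun x => (Algebra.IsAlgebraic.isAlgebraic x).isIntegral
    let A₁ : Set Ω := {xc T₀, yc T₀, xc T₀', yc T₀', ζ}
    have hAf : A₁.Finite := Set.toFinite A₁
    have hAf' : Finite A₁ := hAf
    have hLf : FiniteDimensional F (IntermediateField.adjoin F A₁) :=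
      IntermediateField.finiteDimensional_adjoin fun x _ => hint x
    obtain ⟨S₀, hS₀, hfr⟩ := dta.frob
    refine H13S.PA1_top (F₀ := F) (MonoidHom.eqLocus D C) ?_ (IntermediateField.adjoin F A₁) ?_
      (S₀ ∪ {v | (l : 𝓞 F) ∈ v.asIdeal} ∪ {v | mo ≤ v.asIdeal}) ?_ ?_
    · constructor
      intro t ht g
      show D (g * t * g⁻¹) = C (g * t * g⁻¹)
      have h1 : D t = C t := ht
      rw [map_mul, map_mul, map_mul, map_mul, mul_right_comm, mul_right_comm (C g), h1, ← map_mul,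
        ← map_mul, mul_inv_cancel, map_one, map_one]
    · intro t ht
      have hfix : ∀ x ∈ A₁, t x = x := fun x hx =>
        ht ⟨x, IntermediateField.subset_adjoin F A₁ hx⟩
      have hacne : ∀ P : Pt (WAB A B) Ω, P ≠ 0 → ac (WAB A B) t P ≠ 0 := fun P hP => ac_ne t hP
      have e1 : ac (WAB A B) t T₀ = act 1 T₀ := by
        rw [act_one]
        refine pt_ext (hacne _ hT0) hT0 ?_ ?_
        · rw [xc_ac]
          exact hfix _ (by simp [A₁])
        · rw [yc_ac]
          exact hfix _ (by simp [A₁])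
      have e2 : ac (WAB A B) t T₀' = act 1 T₀' := by
        rw [act_one]
        refine pt_ext (hacne _ hT0') hT0' ?_ ?_
        · rw [xc_ac]
          exact hfix _ (by simp [A₁])
        · rw [yc_ac]
          exact hfix _ (by simp [A₁])
      rw [hH t 1 1 1 e1 e2 (by rw [pow_one]; exact hfix _ (by simp [A₁]))]
      simp
    · have hf : ∀ n : ℕ, n ≠ 0 → {v : HeightOneSpectrum (𝓞 F) | (n : 𝓞 F) ∈ v.asIdeal}.Finite := by
        intro n hn
        have h1 : Ideal.span {(n : 𝓞 F)} ≠ 0 := by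
          rw [Ideal.zero_eq_bot, Ne, Ideal.span_singleton_eq_bot]
          exact Nat.cast_ne_zero.2 hn
        refine (Ideal.finite_factors h1).subset ?_
        intro v hv
        exact Ideal.dvd_span_singleton.2 hv
      have hm : {v : HeightOneSpectrum (𝓞 F) | mo ≤ v.asIdeal}.Finite := by
        refine (Ideal.finite_factors dta.hecke.ne).subset ?_
        intro v hv
        exact Ideal.dvd_iff_le.2 hv
      exact (hS₀.union (hf l hl.ne_zero)).union hm
    · intro v hv hq V hV t ht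
      rw [Set.mem_union, Set.mem_union, not_or, not_or] at hv
      obtain ⟨⟨hvS, hvl⟩, hvm⟩ := hv
      change (l : 𝓞 F) ∉ v.asIdeal at hvl
      change ¬ mo ≤ v.asIdeal at hvm
      have hcop : IsCoprime v.asIdeal mo := by
        rw [Ideal.isCoprime_iff_sup_eq]
        exact v.isMaximal.1.2 _ (left_lt_sup.2 hvm)
      have hspan := dta.hecke.gen v.asIdeal hcop
      have hNm : Nm (ψ v.asIdeal) = Ideal.absNorm v.asIdeal := by
        unfold Nm
        rw [hspan]
      have hVl : ¬ V.valuation (l : Ω) < 1 := by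
        intro hlt
        have h1 : Ideal.span {(l : 𝓞 F)} ⊔ v.asIdeal = ⊤ := by
          rw [sup_comm]
          refine v.isMaximal.1.2 _ (left_lt_sup.2 fun h => hvl (h (Ideal.mem_span_singleton_self _)))
        have h2 : (1 : 𝓞 F) ∈ Ideal.span {(l : 𝓞 F)} ⊔ v.asIdeal := by
          rw [h1]
          exact Submodule.mem_top
        obtain ⟨x, hx, y, hy, hxy⟩ := Submodule.mem_sup.1 h2
        obtain ⟨z, rfl⟩ := Ideal.mem_span_singleton.1 hx
        have h3 : vo V ((l : 𝓞 F) * z) < 1 := by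
          rw [vo_mul, vo_nat]
          exact lt_of_le_of_lt (mul_le_of_le_one_right' (vo_le V z)) hlt
        have h4 := vo_add V h3 (hV y hy)
        rw [hxy, vo_one] at h4
        exact lt_irrefl _ h4
      have hV1 : V.valuation (l : Ω) = 1 := by
        refine le_antisymm ?_ (not_lt.1 hVl)
        rw [← vo_nat (F := F)]
        exact vo_le V _
      have hk : ∀ T : Pt (WAB A B) Ω, ∀ b : 𝓞 F, b ∣ (l : 𝓞 F) → T ∈ Tor act b → l • T = 0 := by
        rintro T b ⟨x, hx⟩ hT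
        rw [← act_nat (act := act), hx, mul_comm, act_mul, mem_Tor.1 hT, map_zero]
      have f1 := hfr v hvS hq V hV t ht l hV1 T₀ (hk T₀ π hd hT)
      have f2 := hfr v hvS hq V hV t ht l hV1 T₀' (hk T₀' (cj π) hd' hT')
      have f3 := PA1_zeta l hl ζ hζ V hVl _ t ht
      rw [hH t _ _ _ f1 f2 f3, mul_comm, mul_cj, hNm, sub_self]
      exact dvd_zero _
  have h1 : s ∈ MonoidHom.eqLocus D C := by
    rw [key]
    exact Subgroup.mem_top s
  exact (hH s a b c ha hb hc).1 h1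

end H55K.S
end

-- from Lib.H55G.D0_T
section

/-!
# H55G: the reduction of curves with complex multiplication at primes of good reduction which divide the discriminant of the given equation

Definitions. See PROOF.md.
-/

open NumberField IsDedekindDomain WeierstrassCurve Polynomial

namespace H55G

open H55P (IQ embF eF LF Per IsHecke Pt ac Inert Dec Nm)
open H35P (WAB Ker GoodW IntW)
open H55K (CMA Tor TN ak xc yc cj GoodAt acr Abw)
open H55K.MG (VC Crd)



/-! ## Abstract groups with complex multiplication -/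

section abs

variable {F : Type} [Field F] [NumberField F] [IQ F] {G κ : Type} [AddCommGroup G] [Field κ]

/-- b is a prime element which acts injectively, and for c prime to b the kernel of c is a cyclic module with annihilator (c). -/
structure RB (ρ : 𝓞 F →+* AddMonoid.End G) (b : 𝓞 F) : Prop where
  prime : Prime b
  inj : ∀ P : G, ρ b P = 0 → P = 0
  gen : ∀ c : 𝓞 F, ¬ b ∣ c → ∃ T : G, (∀ P : G, ρ c P = 0 → ∃ a : 𝓞 F, P = ρ a T) ∧ ∀ a : 𝓞 F, ρ a T = 0 ↔ c ∣ a

/-- The group of points G of an elliptic curve over the algebraically closed field κ with complex multiplication: X is the x-coordinate; b is the prime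
of F below the characteristic of κ at which the multiplication is purely inseparable. -/
structure RG (ρ : 𝓞 F →+* AddMonoid.End G) (X : G → κ) : Prop where
  inf : Infinite κ
  xinj : ∀ P Q : G, P ≠ 0 → Q ≠ 0 → (X P = X Q ↔ P = Q ∨ P = -Q)
  xsurj : ∀ x : κ, ∃ P : G, P ≠ 0 ∧ X P = x
  surj : ∀ a : 𝓞 F, a ≠ 0 → ∀ P : G, ∃ Q : G, ρ a Q = P
  b : ∃ b : 𝓞 F, RB ρ b
  rf : ∀ a : 𝓞 F, a ≠ 0 → ∃ N D : κ[X], (N ≠ 0 ∨ D ≠ 0) ∧ N.natDegree ≤ Nm a ∧ D.natDegree ≤ Nm a ∧
    ∀ P : G, P ≠ 0 → ρ a P ≠ 0 → D.eval (X P) * X (ρ a P) = N.eval (X P)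

/-- φ is the Frobenius endomorphism of a curve over the field with q elements. -/
structure Fr (X : G → κ) (q : ℕ) (φ : AddMonoid.End G) : Prop where
  two : 2 ≤ q
  bij : Function.Bijective φ
  x : ∀ P : G, P ≠ 0 → X (φ P) = X P ^ q
  card : Nat.card {x : κ // x ^ q = x} = q

end abs

/-- The number of elements of the kernel of f. -/
noncomputable def kk {G : Type} [AddCommGroup G] (f : AddMonoid.End G) : ℕ :=
  Nat.card {P : G // f P = 0}

/-! ## A good model at a valuation ring -/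

section gd

variable {F : Type} [Field F] {Ω : Type} [Field Ω] [DecidableEq Ω] [Algebra F Ω] {W : WeierstrassCurve F}

/-- W' is a good model at V of W over Ω; Kg is the kernel of reduction. -/
structure GD (V : ValuationSubring Ω) (W' : WeierstrassCurve Ω) (u r s t : Ω)
    (Θ : Pt W Ω ≃+ W'.toAffine.Point) (Kg : AddSubgroup (Pt W Ω)) : Prop where
  une : u ≠ 0
  good : GoodW W' V
  crd : Crd u r s t Θ
  kg : ∀ P : Pt W Ω, P ∈ Kg ↔ Ker V (Θ P)

/-- The x-coordinate of the good model. -/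
noncomputable def xp {W' : WeierstrassCurve Ω} (Θ : Pt W Ω ≃+ W'.toAffine.Point) (P : Pt W Ω) : Ω := xc (Θ P)

/-- The y-coordinate of the good model. -/
noncomputable def yp {W' : WeierstrassCurve Ω} (Θ : Pt W Ω ≃+ W'.toAffine.Point) (P : Pt W Ω) : Ω := yc (Θ P)

open Classical in
/-- The residue class of an element of V (0 outside V). -/
noncomputable def rs (V : ValuationSubring Ω) (x : Ω) : IsLocalRing.ResidueField V :=
  if h : x ∈ V then IsLocalRing.residue V ⟨x, h⟩ else 0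

/-- The x-coordinate of the reduced curve. -/
noncomputable def XG (V : ValuationSubring Ω) {W' : WeierstrassCurve Ω} (Θ : Pt W Ω ≃+ W'.toAffine.Point)
    (Kg : AddSubgroup (Pt W Ω)) (g : Pt W Ω ⧸ Kg) : IsLocalRing.ResidueField V :=
  rs V (xp Θ g.out)

/-- The y-coordinate of the reduced curve. -/
noncomputable def YG (V : ValuationSubring Ω) {W' : WeierstrassCurve Ω} (Θ : Pt W Ω ≃+ W'.toAffine.Point)
    (Kg : AddSubgroup (Pt W Ω)) (g : Pt W Ω ⧸ Kg) : IsLocalRing.ResidueField V :=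
  rs V (yp Θ g.out)

/-- The endomorphism of the quotient by Kg. -/
def qmap (Kg : AddSubgroup (Pt W Ω)) (f : AddMonoid.End (Pt W Ω)) (hf : ∀ P ∈ Kg, f P ∈ Kg) :
    AddMonoid.End (Pt W Ω ⧸ Kg) :=
  QuotientAddGroup.map Kg Kg f hf

theorem qmap_mk (Kg : AddSubgroup (Pt W Ω)) (f : AddMonoid.End (Pt W Ω)) (hf : ∀ P ∈ Kg, f P ∈ Kg) (P : Pt W Ω) :
    qmap Kg f hf (P : Pt W Ω ⧸ Kg) = ((f P : Pt W Ω) : Pt W Ω ⧸ Kg) := rfl

/-- The action of the integers on the quotient by Kg. -/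
def rhoG (Kg : AddSubgroup (Pt W Ω)) (act : 𝓞 F →+* AddMonoid.End (Pt W Ω)) (hst : ∀ a : 𝓞 F, ∀ P ∈ Kg, act a P ∈ Kg) :
    𝓞 F →+* AddMonoid.End (Pt W Ω ⧸ Kg) where
  toFun a := qmap Kg (act a) (hst a)
  map_one' := by
    refine AddMonoidHom.ext fun g => ?_
    induction g using QuotientAddGroup.induction_on with
    | H P => exact congrArg (fun f : AddMonoid.End (Pt W Ω) => ((f P : Pt W Ω) : Pt W Ω ⧸ Kg)) (map_one act)
  map_mul' a b := by
    refine AddMonoidHom.ext fun g => ?_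
    induction g using QuotientAddGroup.induction_on with
    | H P => exact congrArg (fun f : AddMonoid.End (Pt W Ω) => ((f P : Pt W Ω) : Pt W Ω ⧸ Kg)) (map_mul act a b)
  map_zero' := by
    refine AddMonoidHom.ext fun g => ?_
    induction g using QuotientAddGroup.induction_on with
    | H P => exact congrArg (fun f : AddMonoid.End (Pt W Ω) => ((f P : Pt W Ω) : Pt W Ω ⧸ Kg)) (map_zero act)
  map_add' a b := by
    refine AddMonoidHom.ext fun g => ?_
    induction g using QuotientAddGroup.induction_on with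
    | H P => exact congrArg (fun f : AddMonoid.End (Pt W Ω) => ((f P : Pt W Ω) : Pt W Ω ⧸ Kg)) (map_add act a b)

theorem rhoG_mk (Kg : AddSubgroup (Pt W Ω)) (act : 𝓞 F →+* AddMonoid.End (Pt W Ω)) (hst : ∀ a : 𝓞 F, ∀ P ∈ Kg, act a P ∈ Kg)
    (a : 𝓞 F) (P : Pt W Ω) : rhoG Kg act hst a (P : Pt W Ω ⧸ Kg) = ((act a P : Pt W Ω) : Pt W Ω ⧸ Kg) := rfl

end gd

/-- s is an automorphism of Ω over the number field k which is a Frobenius element at V, V above the prime w of k. -/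
structure FrD (k : Type) [Field k] [NumberField k] {Ω : Type} [Field Ω] [Algebra k Ω] (V : ValuationSubring Ω)
    (w : HeightOneSpectrum (𝓞 k)) (s : Ω ≃+* Ω) : Prop where
  abw : Abw V w
  fix : ∀ x : k, s (algebraMap k Ω x) = algebraMap k Ω x
  frob : ∀ x ∈ V, V.valuation (s x - x ^ Ideal.absNorm w.asIdeal) < 1

end H55G
end

-- from Lib.H55G.B1a
section

/-! # H55G, part B: coordinates of the good model -/

open NumberField IsDedekindDomain WeierstrassCurve Polynomial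

namespace H55G

open H55P (IQ embF eF LF Per IsHecke Pt ac Inert Dec Nm)
open H35P (WAB Ker GoodW IntW)
open H55K (CMA Tor TN ak xc yc cj cj_cj mul_cj Nm_cj Nm_mul Nm_nat)
open H55K.MG (VC Crd)

variable {F : Type} [Field F] [NumberField F] [IQ F] {A B : F} {Om : ℂ} {Ω : Type} [Field Ω] [DecidableEq Ω]
  [Algebra F Ω] {j : Ω →+* ℂ} {act : 𝓞 F →+* AddMonoid.End (Pt (WAB A B) Ω)} {V : ValuationSubring Ω}
  {W' : WeierstrassCurve Ω} {u r s t : Ω} {Θ : Pt (WAB A B) Ω ≃+ W'.toAffine.Point} {Kg : AddSubgroup (Pt (WAB A B) Ω)}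

omit [NumberField F] [IQ F] in
/-- Chunk B1 (S). Θ P is not in the kernel of reduction (hG.kg); MG.int_crd (M3A.lean), Θ P ≠ 0 iff P ≠ 0. -/
theorem xp_int (hG : GD V W' u r s t Θ Kg) {P : Pt (WAB A B) Ω} (hP : P ∉ Kg) :
    P ≠ 0 ∧ xp Θ P ∈ V ∧ yp Θ P ∈ V := by
  obtain ⟨h0, h1, h2⟩ := H55K.MG.int_crd hG.good (P := Θ P) (fun hk => hP ((hG.kg P).2 hk))
  refine ⟨?_, h1, h2⟩
  rintro rfl
  exact h0 (map_zero Θ)

omit [NumberField F] [IQ F] in
/-- Chunk B1 (S). MG.ker_crd (M3A.lean): V(x(Θ P)) > 1; V(x(Θ Q)) ≤ 1 (xp_int); Valuation.map_sub_eq_of_lt_right or left. -/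
theorem xp_far (hG : GD V W' u r s t Θ Kg) {P Q : Pt (WAB A B) Ω} (hP : P ∈ Kg) (h0 : P ≠ 0) (hQ : Q ∉ Kg) :
    1 < V.valuation (xp Θ P) ∧ V.valuation (xp Θ P - xp Θ Q) = V.valuation (xp Θ P) := by
  have h1 : Θ P ≠ 0 := fun hh => h0 ((map_eq_zero_iff Θ Θ.injective).1 hh)
  have h2 : 1 < V.valuation (xp Θ P) := (H55K.MG.ker_crd h1).1 ((hG.kg P).1 hP)
  have h3 : V.valuation (xp Θ Q) ≤ 1 := (V.valuation_le_one_iff _).2 (xp_int hG hQ).2.1
  exact ⟨h2, Valuation.map_sub_eq_of_lt_left _ (lt_of_le_of_lt h3 h2)⟩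

omit [NumberField F] [IQ F] in
/-- Chunk B1 (S). MG.unit_diff (M3A.lean) for Θ P, Θ Q (map_sub, map_add, hG.kg). -/
theorem xp_diff (hG : GD V W' u r s t Θ Kg) {P Q : Pt (WAB A B) Ω} (hP : P ∉ Kg) (hQ : Q ∉ Kg) (h1 : P - Q ∉ Kg)
    (h2 : P + Q ∉ Kg) : V.valuation (xp Θ P - xp Θ Q) = 1 := by
  refine H55K.MG.unit_diff hG.good (fun hk => hP ((hG.kg P).2 hk)) (fun hk => hQ ((hG.kg Q).2 hk)) (fun hk => h1 ?_)
    (fun hk => h2 ?_)
  · rw [hG.kg, map_sub]
    exact hk
  · rw [hG.kg, map_add]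
    exact hk

omit [NumberField F] [IQ F] in
/-- Chunk B1 (S). H13R.cls_convR (Lib/H13R/R1.lean). -/
theorem xp_cong (hG : GD V W' u r s t Θ Kg) {P Q : Pt (WAB A B) Ω} (hP : P ∉ Kg) (h1 : Q - P ∈ Kg) :
    Q ∉ Kg ∧ V.valuation (xp Θ Q - xp Θ P) < 1 ∧ V.valuation (yp Θ Q - yp Θ P) < 1 := by
  have h2 : H35P.Ker V (Θ Q - Θ P) := by
    rw [← map_sub]
    exact (hG.kg _).1 h1
  obtain ⟨h3, h4, h5⟩ := H13R.cls_convR hG.good (P := Θ P) (Q := Θ Q) (fun hk => hP ((hG.kg P).2 hk)) h2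
  exact ⟨fun hk => h3 ((hG.kg Q).1 hk), h4, h5⟩

end H55G
end

-- from Lib.H55G.B1b
section

/-! # H55G, part B: coordinates of the good model -/

open NumberField IsDedekindDomain WeierstrassCurve Polynomial

namespace H55G

open H55P (IQ embF eF LF Per IsHecke Pt ac Inert Dec Nm)
open H35P (WAB Ker GoodW IntW)
open H55K (CMA Tor TN ak xc yc cj cj_cj mul_cj Nm_cj Nm_mul Nm_nat)
open H55K.MG (VC Crd)

variable {F : Type} [Field F] [NumberField F] [IQ F] {A B : F} {Om : ℂ} {Ω : Type} [Field Ω] [DecidableEq Ω]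
  [Algebra F Ω] {j : Ω →+* ℂ} {act : 𝓞 F →+* AddMonoid.End (Pt (WAB A B) Ω)} {V : ValuationSubring Ω}
  {W' : WeierstrassCurve Ω} {u r s t : Ω} {Θ : Pt (WAB A B) Ω ≃+ W'.toAffine.Point} {Kg : AddSubgroup (Pt (WAB A B) Ω)}

/-- Chunk B1 (S/M). h.e2 for b, S, X, Y: all points X, Y, act b X, act b Y, R in S, X + R (act b (X + R) = act b X ≠ 0) are nonzero, so xc P - xc Q = u^2 (xp P - xp Q) for them (hG.crd); the left side has 1 + card S such factors, and so has the right side (Finset.prod_mul_distrib, Finset.prod_const): cancel u^(2 (1 + card S)) ≠ 0. -/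
theorem e2x (h : CMA F A B Om j act) (hG : GD V W' u r s t Θ Kg) {b : 𝓞 F} {S : Finset (Pt (WAB A B) Ω)} (hb : b ≠ 0)
    (hS : TN act b S) {X Y : Pt (WAB A B) Ω} (hX : act b X ≠ 0) (hY : act b Y ≠ 0) :
    ak Ω b ^ 2 * (xp Θ (act b X) - xp Θ (act b Y)) * ∏ R ∈ S, (xp Θ R - xp Θ Y) =
      (xp Θ X - xp Θ Y) * ∏ R ∈ S, (xp Θ (X + R) - xp Θ Y) := by
  have key : ∀ P Q : Pt (WAB A B) Ω, P ≠ 0 → Q ≠ 0 → xc P - xc Q = u ^ 2 * (xp Θ P - xp Θ Q) := by
    intro P Q hP hQ
    rw [(hG.crd P hP).2.1, (hG.crd Q hQ).2.1]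
    simp only [xp]
    ring
  have hX0 : X ≠ 0 := by
    rintro rfl
    exact hX (map_zero _)
  have hY0 : Y ≠ 0 := by
    rintro rfl
    exact hY (map_zero _)
  have e := h.e2 b S hb hS X Y hX hY
  have p1 : ∏ R ∈ S, (xc R - xc Y) = ∏ R ∈ S, (u ^ 2 * (xp Θ R - xp Θ Y)) :=
    Finset.prod_congr rfl fun R hR => key R Y ((hS R).1 hR).2 hY0
  have p2 : ∏ R ∈ S, (xc (X + R) - xc Y) = ∏ R ∈ S, (u ^ 2 * (xp Θ (X + R) - xp Θ Y)) := by
    refine Finset.prod_congr rfl fun R hR => key (X + R) Y (fun h0 => hX ?_) hY0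
    have h1 : act b (X + R) = 0 := by rw [h0, map_zero]
    rwa [map_add, ((hS R).1 hR).1, add_zero] at h1
  rw [key _ _ hX hY, key _ _ hX0 hY0, p1, p2, Finset.prod_mul_distrib, Finset.prod_mul_distrib, Finset.prod_const] at e
  have hu : u ^ 2 * (u ^ 2) ^ S.card ≠ 0 :=
    mul_ne_zero (pow_ne_zero _ hG.une) (pow_ne_zero _ (pow_ne_zero _ hG.une))
  apply mul_left_cancel₀ hu
  linear_combination e

end H55G
end

-- from Lib.H55G.B2a
section

/-! # H55G, part B: generic pairs of points -/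

open NumberField IsDedekindDomain WeierstrassCurve Polynomial

namespace H55G

open H55P (IQ embF eF LF Per IsHecke Pt ac Inert Dec Nm)
open H35P (WAB Ker GoodW IntW)
open H55K (CMA Tor TN ak xc yc cj cj_cj mul_cj Nm_cj Nm_mul Nm_nat)
open H55K.MG (VC Crd)

variable {F : Type} [Field F] [NumberField F] [IQ F] {A B : F} {Om : ℂ} {Ω : Type} [Field Ω] [DecidableEq Ω]
  [Algebra F Ω] {j : Ω →+* ℂ} {act : 𝓞 F →+* AddMonoid.End (Pt (WAB A B) Ω)} {V : ValuationSubring Ω}
  {W' : WeierstrassCurve Ω} {u r s t : Ω} {Θ : Pt (WAB A B) Ω ≃+ W'.toAffine.Point} {Kg : AddSubgroup (Pt (WAB A B) Ω)}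

open scoped Pointwise in
omit F Ω in
/-- Auxiliary form of the chunk, where the pointwise notation is open. -/
theorem b2a_avoid {G : Type} [AddCommGroup G] (hdiv : ∀ n : ℕ, n ≠ 0 → ∀ g : G, ∃ g' : G, n • g' = g) {ι : Type} (I : Set ι)
    (hI : I.Finite) (H : ι → AddSubgroup G) (hne : ∀ i ∈ I, H i ≠ ⊤) (c : ι → G) : ∃ g : G, ∀ i ∈ I, g - c i ∉ H i := by
  classical
  by_contra hcon
  push Not at hcon
  have hcov : ⋃ i ∈ hI.toFinset, (c i) +ᵥ (H i : Set G) = Set.univ := by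
    rw [Set.eq_univ_iff_forall]
    intro g
    obtain ⟨i, hi, hg⟩ := hcon g
    simp only [Set.mem_iUnion]
    refine ⟨i, by simpa using hi, ?_⟩
    rw [mem_leftAddCoset_iff]
    have e : -c i + g = g - c i := by abel
    rw [e]
    exact hg
  obtain ⟨i, hi, hf⟩ := AddSubgroup.exists_finiteIndex_of_leftCoset_cover hcov
  have hi' : i ∈ I := by simpa using hi
  refine hne i hi' ?_
  rw [eq_top_iff]
  intro g _
  obtain ⟨g', rfl⟩ := hdiv (H i).index hf.index_ne_zero g
  exact AddSubgroup.nsmul_index_mem (H := H i) g'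

omit F Ω in
/-- Chunk B2 (S/M, PURE). If the cosets c i + H i (i in I) cover G then some H i (i in I) has finite index (AddSubgroup.exists_finiteIndex_of_leftCoset_cover, B. H. Neumann; or a direct induction), and a subgroup of finite index n of a divisible group is everything (n • g in H for all g: AddSubgroup.nsmul_index_mem or the quotient; and n • is surjective). -/
theorem avoid {G : Type} [AddCommGroup G] (hdiv : ∀ n : ℕ, n ≠ 0 → ∀ g : G, ∃ g' : G, n • g' = g) {ι : Type} (I : Set ι)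
    (hI : I.Finite) (H : ι → AddSubgroup G) (hne : ∀ i ∈ I, H i ≠ ⊤) (c : ι → G) : ∃ g : G, ∀ i ∈ I, g - c i ∉ H i :=
  b2a_avoid hdiv I hI H hne c

end H55G
end

-- from Lib.H55G.B2b
section

/-! # H55G, part B: generic pairs of points -/

open NumberField IsDedekindDomain WeierstrassCurve Polynomial

namespace H55G

open H55P (IQ embF eF LF Per IsHecke Pt ac Inert Dec Nm)
open H35P (WAB Ker GoodW IntW)
open H55K (CMA Tor TN ak xc yc cj cj_cj mul_cj Nm_cj Nm_mul Nm_nat)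
open H55K.MG (VC Crd)

variable {F : Type} [Field F] [NumberField F] [IQ F] {A B : F} {Om : ℂ} {Ω : Type} [Field Ω] [DecidableEq Ω]
  [Algebra F Ω] {j : Ω →+* ℂ} {act : 𝓞 F →+* AddMonoid.End (Pt (WAB A B) Ω)} {V : ValuationSubring Ω}
  {W' : WeierstrassCurve Ω} {u r s t : Ω} {Θ : Pt (WAB A B) Ω ≃+ W'.toAffine.Point} {Kg : AddSubgroup (Pt (WAB A B) Ω)}

/-- Auxiliary: l ≥ 2 does not divide 1 in the ring of integers. -/
theorem b2b_ndvd {l : ℕ} (hl : 2 ≤ l) : ¬ ((l : 𝓞 F) ∣ 1) := by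
  rintro ⟨c, hc⟩
  have h1 : H55P.Nm ((1 : ℕ) : 𝓞 F) = H55P.Nm (l : 𝓞 F) * H55P.Nm c := by
    rw [← Nm_mul, ← hc, Nat.cast_one]
  rw [Nm_nat, Nm_nat, one_pow] at h1
  have h2 : l ^ 2 = 1 := Nat.eq_one_of_mul_eq_one_right h1.symm
  have h3 : 2 ^ 2 ≤ l ^ 2 := Nat.pow_le_pow_left hl 2
  omega

omit F Ω in
/-- Auxiliary: 2 or 3 is a unit at V. -/
theorem b2b_unit {K : Type} [Field K] (V : ValuationSubring K) : ∃ l : ℕ, 2 ≤ l ∧ V.valuation (l : K) = 1 := by
  have hle : ∀ n : ℕ, V.valuation (n : K) ≤ 1 := fun n => (V.valuation_le_one_iff _).2 (natCast_mem V n)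
  by_contra hcon
  push Not at hcon
  have h2 : V.valuation ((2 : ℕ) : K) < 1 := lt_of_le_of_ne (hle 2) (hcon 2 le_rfl)
  have h3 : V.valuation ((3 : ℕ) : K) < 1 := lt_of_le_of_ne (hle 3) (hcon 3 (by norm_num))
  have h4 : V.valuation (((3 : ℕ) : K) - ((2 : ℕ) : K)) < 1 := Valuation.map_sub_lt _ h3 h2
  have h5 : ((3 : ℕ) : K) - ((2 : ℕ) : K) = 1 := by norm_num
  rw [h5, map_one] at h4
  exact lt_irrefl _ h4

/-- Chunk B2 (S). l = 2 or l = 3 has V(l) = 1 (V(3 - 2) = 1). h.gen l gives T₀ ≠ 0 (act 1 T₀ = 0 iff l ∣ 1) with act l T₀ = 0, i.e. l • T₀ = 0 (map_natCast). MG.kg_tors (M3B.lean): T₀ in Kg would be 0. -/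
theorem kg_ne (h : CMA F A B Om j act) (hG : GD V W' u r s t Θ Kg) : ∃ P : Pt (WAB A B) Ω, P ∉ Kg := by
  obtain ⟨l, hl2, hl⟩ := b2b_unit V
  have hl0 : (l : 𝓞 F) ≠ 0 := by
    rw [Nat.cast_ne_zero]
    omega
  obtain ⟨T, hT, -, hT2, -⟩ := h.gen (l : 𝓞 F) hl0
  refine ⟨T, fun hTK => ?_⟩
  have hT0 : l • T = 0 := by
    have h1 : act (l : 𝓞 F) T = 0 := hT
    rw [map_natCast] at h1
    exact h1
  have h0 : T = 0 := H55K.MG.kg_tors (Θ := Θ) hG.good hl ((hG.kg T).1 hTK) hT0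
  refine b2b_ndvd (F := F) hl2 ((hT2 1).1 ?_)
  rw [h0, map_zero]

/-- Chunk B2 (M). avoid for G = Pt × Pt (divisible: h.surj for n, map_natCast), I = Sg, H (α, β, R) = the preimage of Kg under (X, Y) ↦ act α X + act β Y (not ⊤: if α ≠ 0 choose X with act α X = P, P not in Kg (h.surj, kg_ne), and Y = 0; similarly β ≠ 0), c (α, β, R) = a pair (X₀, Y₀) with act α X₀ + act β Y₀ = R (the same way, Classical). -/
theorem generic (h : CMA F A B Om j act) (hG : GD V W' u r s t Θ Kg)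
    (Sg : Set (𝓞 F × 𝓞 F × Pt (WAB A B) Ω)) (hf : Sg.Finite) (h0 : ∀ σ ∈ Sg, σ.1 ≠ 0 ∨ σ.2.1 ≠ 0) :
    ∃ X Y : Pt (WAB A B) Ω, ∀ σ ∈ Sg, act σ.1 X + act σ.2.1 Y - σ.2.2 ∉ Kg := by
  classical
  obtain ⟨P, hP⟩ := kg_ne h hG
  -- the map (X, Y) ↦ act α X + act β Y
  let L : 𝓞 F × 𝓞 F × Pt (WAB A B) Ω → (Pt (WAB A B) Ω × Pt (WAB A B) Ω →+ Pt (WAB A B) Ω) := fun σ =>
    ((act σ.1 : Pt (WAB A B) Ω →+ Pt (WAB A B) Ω).comp (AddMonoidHom.fst _ _)) +
      ((act σ.2.1 : Pt (WAB A B) Ω →+ Pt (WAB A B) Ω).comp (AddMonoidHom.snd _ _))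
  have hL : ∀ σ XY, L σ XY = act σ.1 XY.1 + act σ.2.1 XY.2 := fun σ XY => rfl
  have hsur : ∀ σ ∈ Sg, ∀ R : Pt (WAB A B) Ω, ∃ XY : Pt (WAB A B) Ω × Pt (WAB A B) Ω, L σ XY = R := by
    intro σ hσ R
    rcases h0 σ hσ with hα | hβ
    · obtain ⟨X, hX⟩ := h.surj _ hα R
      exact ⟨(X, 0), by rw [hL]; simp only [map_zero, add_zero]; exact hX⟩
    · obtain ⟨Y, hY⟩ := h.surj _ hβ R
      exact ⟨(0, Y), by rw [hL]; simp only [map_zero, zero_add]; exact hY⟩
  let c : 𝓞 F × 𝓞 F × Pt (WAB A B) Ω → Pt (WAB A B) Ω × Pt (WAB A B) Ω := fun σ =>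
    if hσ : σ ∈ Sg then (hsur σ hσ σ.2.2).choose else 0
  have hc : ∀ σ ∈ Sg, L σ (c σ) = σ.2.2 := by
    intro σ hσ
    have e : c σ = (hsur σ hσ σ.2.2).choose := by
      simp only [c, dif_pos hσ]
    rw [e]
    exact (hsur σ hσ σ.2.2).choose_spec
  have hdiv : ∀ n : ℕ, n ≠ 0 → ∀ g : Pt (WAB A B) Ω × Pt (WAB A B) Ω, ∃ g', n • g' = g := by
    intro n hn g
    have hn' : (n : 𝓞 F) ≠ 0 := Nat.cast_ne_zero.2 hn
    have key : ∀ R : Pt (WAB A B) Ω, ∃ Q, n • Q = R := by
      intro R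
      obtain ⟨Q, hQ⟩ := h.surj _ hn' R
      refine ⟨Q, ?_⟩
      rw [map_natCast] at hQ
      exact hQ
    obtain ⟨X, hX⟩ := key g.1
    obtain ⟨Y, hY⟩ := key g.2
    exact ⟨(X, Y), Prod.ext hX hY⟩
  obtain ⟨g, hg⟩ := avoid hdiv Sg hf (fun σ => Kg.comap (L σ)) (by
    intro σ hσ htop
    obtain ⟨XY, hXY⟩ := hsur σ hσ P
    have h1 : XY ∈ Kg.comap (L σ) := by rw [htop]; trivial
    rw [AddSubgroup.mem_comap, hXY] at h1
    exact hP h1) c
  refine ⟨g.1, g.2, fun σ hσ hmem => hg σ hσ ?_⟩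
  rw [AddSubgroup.mem_comap, map_sub, hc σ hσ]
  exact hmem

end H55G
end

-- from Lib.H55G.B2c
section

/-! # H55G, part B: generic pairs of points -/

open NumberField IsDedekindDomain WeierstrassCurve Polynomial

namespace H55G

open H55P (IQ embF eF LF Per IsHecke Pt ac Inert Dec Nm)
open H35P (WAB Ker GoodW IntW)
open H55K (CMA Tor TN ak xc yc cj cj_cj mul_cj Nm_cj Nm_mul Nm_nat)
open H55K.MG (VC Crd)

variable {F : Type} [Field F] [NumberField F] [IQ F] {A B : F} {Om : ℂ} {Ω : Type} [Field Ω] [DecidableEq Ω]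
  [Algebra F Ω] {j : Ω →+* ℂ} {act : 𝓞 F →+* AddMonoid.End (Pt (WAB A B) Ω)} {V : ValuationSubring Ω}
  {W' : WeierstrassCurve Ω} {u r s t : Ω} {Θ : Pt (WAB A B) Ω ≃+ W'.toAffine.Point} {Kg : AddSubgroup (Pt (WAB A B) Ω)}

/-- The pair X, Y is generic with respect to a and S. -/
structure Gen (act : 𝓞 F →+* AddMonoid.End (Pt (WAB A B) Ω)) (Kg : AddSubgroup (Pt (WAB A B) Ω)) (a : 𝓞 F)
    (S : Finset (Pt (WAB A B) Ω)) (X Y : Pt (WAB A B) Ω) : Prop where
  x : X ∉ Kg
  y : Y ∉ Kg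
  ax : act a X ∉ Kg
  ay : act a Y ∉ Kg
  m : X - Y ∉ Kg
  p : X + Y ∉ Kg
  am : act a X - act a Y ∉ Kg
  ap : act a X + act a Y ∉ Kg
  xr : ∀ R ∈ S, X + R ∉ Kg
  rm : ∀ R ∈ S, R - Y ∉ Kg
  rp : ∀ R ∈ S, R + Y ∉ Kg
  xrm : ∀ R ∈ S, X + R - Y ∉ Kg
  xrp : ∀ R ∈ S, X + R + Y ∉ Kg

/-- Chunk B2 (S/M). generic for the finite set of the triples (1, 0, 0), (0, 1, 0), (a, 0, 0), (0, a, 0), (1, -1, 0), (1, 1, 0), (a, -a, 0), (a, a, 0) and, for R in S, (1, 0, -R), (0, 1, R) [Y - R not in Kg: R - Y = -(Y - R)], (0, 1, -R), (1, -1, -R), (1, 1, -R). map_one, map_zero, map_neg. -/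
theorem exists_gen (h : CMA F A B Om j act) (hG : GD V W' u r s t Θ Kg) {a : 𝓞 F} (ha : a ≠ 0)
    (S : Finset (Pt (WAB A B) Ω)) : ∃ X Y : Pt (WAB A B) Ω, Gen act Kg a S X Y := by
  classical
  let S0 : Finset (𝓞 F × 𝓞 F × Pt (WAB A B) Ω) :=
    {(1, 0, 0), (0, 1, 0), (a, 0, 0), (0, a, 0), (1, -1, 0), (1, 1, 0), (a, -a, 0), (a, a, 0)}
  let S1 : Finset (𝓞 F × 𝓞 F × Pt (WAB A B) Ω) := S.image fun R => (1, 0, -R)
  let S2 : Finset (𝓞 F × 𝓞 F × Pt (WAB A B) Ω) := S.image fun R => (0, 1, R)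
  let S3 : Finset (𝓞 F × 𝓞 F × Pt (WAB A B) Ω) := S.image fun R => (0, 1, -R)
  let S4 : Finset (𝓞 F × 𝓞 F × Pt (WAB A B) Ω) := S.image fun R => (1, -1, -R)
  let S5 : Finset (𝓞 F × 𝓞 F × Pt (WAB A B) Ω) := S.image fun R => (1, 1, -R)
  obtain ⟨X, Y, hXY⟩ := generic h hG (↑(S0 ∪ (S1 ∪ (S2 ∪ (S3 ∪ (S4 ∪ S5)))))) (Finset.finite_toSet _) (by
    intro σ hσ
    rw [Finset.mem_coe] at hσ
    simp only [S0, S1, S2, S3, S4, S5, Finset.mem_union, Finset.mem_insert, Finset.mem_singleton, Finset.mem_image] at hσ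
    rcases hσ with (rfl | rfl | rfl | rfl | rfl | rfl | rfl | rfl) | ⟨R, -, rfl⟩ | ⟨R, -, rfl⟩ | ⟨R, -, rfl⟩ | ⟨R, -, rfl⟩ |
      ⟨R, -, rfl⟩ <;> simp [ha])
  have H0 : ∀ σ ∈ S0, act σ.1 X + act σ.2.1 Y - σ.2.2 ∉ Kg := fun σ hσ =>
    hXY σ (Finset.mem_coe.2 (Finset.mem_union_left _ hσ))
  have H1 : ∀ σ ∈ S1, act σ.1 X + act σ.2.1 Y - σ.2.2 ∉ Kg := fun σ hσ =>
    hXY σ (Finset.mem_coe.2 (Finset.mem_union_right _ (Finset.mem_union_left _ hσ)))
  have H2 : ∀ σ ∈ S2, act σ.1 X + act σ.2.1 Y - σ.2.2 ∉ Kg := fun σ hσ =>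
    hXY σ (Finset.mem_coe.2 (Finset.mem_union_right _ (Finset.mem_union_right _ (Finset.mem_union_left _ hσ))))
  have H3 : ∀ σ ∈ S3, act σ.1 X + act σ.2.1 Y - σ.2.2 ∉ Kg := fun σ hσ =>
    hXY σ (Finset.mem_coe.2 (Finset.mem_union_right _ (Finset.mem_union_right _ (Finset.mem_union_right _
      (Finset.mem_union_left _ hσ)))))
  have H4 : ∀ σ ∈ S4, act σ.1 X + act σ.2.1 Y - σ.2.2 ∉ Kg := fun σ hσ =>
    hXY σ (Finset.mem_coe.2 (Finset.mem_union_right _ (Finset.mem_union_right _ (Finset.mem_union_right _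
      (Finset.mem_union_right _ (Finset.mem_union_left _ hσ))))))
  have H5 : ∀ σ ∈ S5, act σ.1 X + act σ.2.1 Y - σ.2.2 ∉ Kg := fun σ hσ =>
    hXY σ (Finset.mem_coe.2 (Finset.mem_union_right _ (Finset.mem_union_right _ (Finset.mem_union_right _
      (Finset.mem_union_right _ (Finset.mem_union_right _ hσ))))))
  have e1 : ∀ P : Pt (WAB A B) Ω, act 1 P = P := fun P => by rw [map_one]; rfl
  have e0 : ∀ P : Pt (WAB A B) Ω, act 0 P = 0 := fun P => by rw [map_zero]; rfl
  have en : ∀ (b : 𝓞 F) (P : Pt (WAB A B) Ω), act (-b) P = -act b P := fun b P => by rw [map_neg]; rfl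
  refine ⟨X, Y, ?_, ?_, ?_, ?_, ?_, ?_, ?_, ?_, fun R hR => ?_, fun R hR => ?_, fun R hR => ?_, fun R hR => ?_,
    fun R hR => ?_⟩
  · have := H0 (1, 0, 0) (by simp [S0])
    simpa only [e1, e0, add_zero, sub_zero] using this
  · have := H0 (0, 1, 0) (by simp [S0])
    simpa only [e1, e0, zero_add, sub_zero] using this
  · have := H0 (a, 0, 0) (by simp [S0])
    simpa only [e1, e0, add_zero, sub_zero] using this
  · have := H0 (0, a, 0) (by simp [S0])
    simpa only [e1, e0, zero_add, sub_zero] using this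
  · have := H0 (1, -1, 0) (by simp [S0])
    simpa only [e1, e0, en, sub_zero, ← sub_eq_add_neg] using this
  · have := H0 (1, 1, 0) (by simp [S0])
    simpa only [e1, e0, en, sub_zero] using this
  · have := H0 (a, -a, 0) (by simp [S0])
    simpa only [e1, e0, en, sub_zero, ← sub_eq_add_neg] using this
  · have := H0 (a, a, 0) (by simp [S0])
    simpa only [e1, e0, en, sub_zero] using this
  · have := H1 (1, 0, -R) (Finset.mem_image.2 ⟨R, hR, rfl⟩)
    simpa only [e1, e0, add_zero, sub_neg_eq_add] using this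
  · have := H2 (0, 1, R) (Finset.mem_image.2 ⟨R, hR, rfl⟩)
    simp only [e1, e0, zero_add] at this
    intro hm
    refine this ?_
    have := Kg.neg_mem hm
    rwa [neg_sub] at this
  · have := H3 (0, 1, -R) (Finset.mem_image.2 ⟨R, hR, rfl⟩)
    simp only [e1, e0, zero_add, sub_neg_eq_add] at this
    rwa [add_comm] at this
  · have := H4 (1, -1, -R) (Finset.mem_image.2 ⟨R, hR, rfl⟩)
    simp only [e1, en, sub_neg_eq_add] at this
    have e : X + R - Y = X + -Y + R := by abel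
    rwa [e]
  · have := H5 (1, 1, -R) (Finset.mem_image.2 ⟨R, hR, rfl⟩)
    simp only [e1, sub_neg_eq_add] at this
    have e : X + R + Y = X + Y + R := by abel
    rwa [e]

end H55G
end

-- from Lib.H55G.B3a
section

/-! # H55G, part B: the kernel of reduction and the action -/

open NumberField IsDedekindDomain WeierstrassCurve Polynomial

namespace H55G

open H55P (IQ embF eF LF Per IsHecke Pt ac Inert Dec Nm)
open H35P (WAB Ker GoodW IntW)
open H55K (CMA Tor TN ak xc yc cj cj_cj mul_cj Nm_cj Nm_mul Nm_nat)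
open H55K.MG (VC Crd)

variable {F : Type} [Field F] [NumberField F] [IQ F] {A B : F} {Om : ℂ} {Ω : Type} [Field Ω] [DecidableEq Ω]
  [Algebra F Ω] {j : Ω →+* ℂ} {act : 𝓞 F →+* AddMonoid.End (Pt (WAB A B) Ω)} {V : ValuationSubring Ω}
  {W' : WeierstrassCurve Ω} {u r s t : Ω} {Θ : Pt (WAB A B) Ω ≃+ W'.toAffine.Point} {Kg : AddSubgroup (Pt (WAB A B) Ω)}

/-- Chunk B3 (M). S the set of the nonzero T with act a T = 0 (H55K.exists_TN, G4A.lean), X, Y generic (exists_gen) for a, S. act a X, act a Y are nonzero (not in Kg). e2x; all the factors of the right side have value 1 (xp_diff for X, Y and for X + R, Y), and so have V(a)^2 and V(xp (aX) - xp (aY)) (xp_diff). In the left product the factor of R not in Kg has value 1 (xp_diff, rm, rp), that of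
R in Kg has the value V(xp R) > 1 (xp_far, R ≠ 0). So the product over S of values ≥ 1 is 1: no factor is > 1 (Finset.prod: if one is > 1 the product is > 1, e.g. Finset.one_lt_prod' or induction in the linearly ordered group with zero), S ∩ Kg is empty. -/
theorem tor_kg (h : CMA F A B Om j act) (hG : GD V W' u r s t Θ Kg) {a : 𝓞 F} (ha : V.valuation (ak Ω a) = 1)
    {T : Pt (WAB A B) Ω} (hT : act a T = 0) (hK : T ∈ Kg) : T = 0 := by
  classical
  by_contra hT0
  have ha0 : a ≠ 0 := by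
    rintro rfl
    have h1 : ak Ω (0 : 𝓞 F) = 0 := by
      show algebraMap F Ω (algebraMap (𝓞 F) F 0) = 0
      rw [map_zero, map_zero]
    rw [h1, map_zero] at ha
    exact zero_ne_one ha
  obtain ⟨S, hS, -⟩ := H55K.exists_TN h ha0
  obtain ⟨X, Y, g⟩ := exists_gen h hG ha0 S
  have haX : act a X ≠ 0 := fun h0 => g.ax (by rw [h0]; exact Kg.zero_mem)
  have haY : act a Y ≠ 0 := fun h0 => g.ay (by rw [h0]; exact Kg.zero_mem)
  have e := congrArg V.valuation (e2x h hG ha0 hS haX haY)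
  simp only [map_mul, map_pow, map_prod] at e
  rw [ha, xp_diff hG g.ax g.ay g.am g.ap, xp_diff hG g.x g.y g.m g.p, one_pow, one_mul, one_mul, one_mul] at e
  have p2 : ∏ R ∈ S, V.valuation (xp Θ (X + R) - xp Θ Y) = 1 :=
    Finset.prod_eq_one fun R hR => xp_diff hG (g.xr R hR) g.y (g.xrm R hR) (g.xrp R hR)
  rw [p2] at e
  have hge : ∀ R ∈ S, 1 ≤ V.valuation (xp Θ R - xp Θ Y) := by
    intro R hR
    by_cases hRK : R ∈ Kg
    · have h1 := xp_far hG hRK ((hS R).1 hR).2 g.y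
      rw [h1.2]
      exact h1.1.le
    · rw [xp_diff hG hRK g.y (g.rm R hR) (g.rp R hR)]
  have hTS : T ∈ S := (hS T).2 ⟨hT, hT0⟩
  have hgt : 1 < V.valuation (xp Θ T - xp Θ Y) := by
    have h1 := xp_far hG hK hT0 g.y
    rw [h1.2]
    exact h1.1
  rw [← Finset.mul_prod_erase S _ hTS] at e
  have h2 : 1 ≤ ∏ R ∈ S.erase T, V.valuation (xp Θ R - xp Θ Y) :=
    Finset.one_le_prod' fun R hR => hge R (Finset.mem_of_mem_erase hR)
  have h3 : V.valuation (xp Θ T - xp Θ Y) ≤
      V.valuation (xp Θ T - xp Θ Y) * ∏ R ∈ S.erase T, V.valuation (xp Θ R - xp Θ Y) := le_mul_of_one_le_right' h2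
  rw [e] at h3
  exact absurd (lt_of_lt_of_le hgt h3) (lt_irrefl _)

end H55G
end

-- from Lib.H55G.B3b
section

/-! # H55G, part B: the kernel of reduction and the action -/

open NumberField IsDedekindDomain WeierstrassCurve Polynomial

namespace H55G

open H55P (IQ embF eF LF Per IsHecke Pt ac Inert Dec Nm)
open H35P (WAB Ker GoodW IntW)
open H55K (CMA Tor TN ak xc yc cj cj_cj mul_cj Nm_cj Nm_mul Nm_nat)
open H55K.MG (VC Crd)

variable {F : Type} [Field F] [NumberField F] [IQ F] {A B : F} {Om : ℂ} {Ω : Type} [Field Ω] [DecidableEq Ω]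
  [Algebra F Ω] {j : Ω →+* ℂ} {act : 𝓞 F →+* AddMonoid.End (Pt (WAB A B) Ω)} {V : ValuationSubring Ω}
  {W' : WeierstrassCurve Ω} {u r s t : Ω} {Θ : Pt (WAB A B) Ω ≃+ W'.toAffine.Point} {Kg : AddSubgroup (Pt (WAB A B) Ω)}

omit [NumberField F] [IQ F] [DecidableEq Ω] in
/-- Auxiliary: integers of F are in V. -/
theorem b3b_le (V : ValuationSubring Ω) (a : 𝓞 F) : V.valuation (ak Ω a) ≤ 1 := by
  rw [V.valuation_le_one_iff]
  have h1 : IsIntegral ℤ (ak Ω a) := by
    have h2 : IsIntegral ℤ (a : F) := RingOfIntegers.isIntegral_coe a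
    exact h2.map ((algebraMap F Ω).toIntAlgHom)
  have h3 : IsIntegral V (ak Ω a) := h1.tower_top
  obtain ⟨y, hy⟩ := IsIntegrallyClosed.isIntegral_iff.1 h3
  rw [← hy]
  exact y.2

/-- Auxiliary: the case V(a) = 1. -/
theorem b3b_unit (h : CMA F A B Om j act) (hG : GD V W' u r s t Θ Kg) {a : 𝓞 F} (ha : V.valuation (ak Ω a) = 1)
    {P : Pt (WAB A B) Ω} (hP : P ∈ Kg) : act a P ∈ Kg := by
  classical
  by_contra hc
  have haP : act a P ≠ 0 := fun h0 => hc (by rw [h0]; exact Kg.zero_mem)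
  have hP0 : P ≠ 0 := by
    rintro rfl
    exact haP (map_zero _)
  have ha0 : a ≠ 0 := by
    rintro rfl
    exact haP (by rw [map_zero]; rfl)
  obtain ⟨S, hS, -⟩ := H55K.exists_TN h ha0
  obtain ⟨X, Y, g⟩ := exists_gen h hG ha0 S
  have haY : act a Y ≠ 0 := fun h0 => g.ay (by rw [h0]; exact Kg.zero_mem)
  have e := congrArg V.valuation (e2x h hG ha0 hS haP haY)
  simp only [map_mul, map_pow, map_prod] at e
  have hR : ∀ R ∈ S, R ∉ Kg := fun R hR hRK => ((hS R).1 hR).2 (tor_kg h hG ha ((hS R).1 hR).1 hRK)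
  have p1 : ∏ R ∈ S, V.valuation (xp Θ R - xp Θ Y) = 1 :=
    Finset.prod_eq_one fun R hRS => xp_diff hG (hR R hRS) g.y (g.rm R hRS) (g.rp R hRS)
  have p2 : ∏ R ∈ S, V.valuation (xp Θ (P + R) - xp Θ Y) = 1 := by
    refine Finset.prod_eq_one fun R hRS => xp_diff hG (fun hm => hR R hRS ?_) g.y (fun hm => g.rm R hRS ?_)
      (fun hm => g.rp R hRS ?_)
    · exact (Kg.add_mem_cancel_left hP).1 hm
    · rw [add_sub_assoc] at hm
      exact (Kg.add_mem_cancel_left hP).1 hm
    · rw [add_assoc] at hm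
      exact (Kg.add_mem_cancel_left hP).1 hm
  have hf := xp_far hG hP hP0 g.y
  rw [p1, p2, ha, one_pow, one_mul, mul_one, mul_one, hf.2] at e
  have h1 : V.valuation (xp Θ (act a P)) ≤ 1 := (V.valuation_le_one_iff _).2 (xp_int hG hc).2.1
  have h2 : V.valuation (xp Θ (act a Y)) ≤ 1 := (V.valuation_le_one_iff _).2 (xp_int hG g.ay).2.1
  have h3 : V.valuation (xp Θ (act a P) - xp Θ (act a Y)) ≤ 1 := V.valuation.map_sub_le h1 h2
  rw [e] at h3
  exact absurd (lt_of_lt_of_le hf.1 h3) (lt_irrefl _)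

/-- Chunk B3 (M). First V(a) = 1 (so a ≠ 0). P in Kg; assume P ≠ 0 and act a P ≠ 0. S as in tor_kg, X, Y generic for a, S (only Y is used). e2x with P, Y: for R in S: R is not in Kg (tor_kg), P + R is not in Kg, P + R - Y, P + R + Y are not in Kg (rm, rp, P in Kg): V(xp (P + R) - xp Y) = 1 and V(xp R - xp Y) = 1. So V(xp (aP) - xp (aY)) = V(xp P - xp Y) = V(xp P) > 1 (xp_far).
If aP were not in Kg then V(xp (aP)) ≤ 1 and V(xp (aY)) ≤ 1 (xp_int): contradiction. General a: V(a) ≤ 1 (integers of F are in V: H55K.TQ.t9c_int or ak_le); if V(a) < 1 then V(a - 1) = 1 and act a P = act (a - 1) P + P. -/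
theorem kg_stable (h : CMA F A B Om j act) (hG : GD V W' u r s t Θ Kg) (a : 𝓞 F) {P : Pt (WAB A B) Ω} (hP : P ∈ Kg) :
    act a P ∈ Kg := by
  by_cases ha : V.valuation (ak Ω a) = 1
  · exact b3b_unit h hG ha hP
  · have hle : V.valuation (ak Ω a) ≤ 1 := b3b_le V a
    have hlt : V.valuation (ak Ω a) < 1 := lt_of_le_of_ne hle ha
    have h1 : V.valuation (ak Ω (a - 1)) = 1 := by
      have e : ak Ω (a - 1) = ak Ω a - 1 := by
        show algebraMap F Ω (algebraMap (𝓞 F) F (a - 1)) = algebraMap F Ω (algebraMap (𝓞 F) F a) - 1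
        rw [map_sub, map_sub, map_one, map_one]
      rw [e]
      have h2 : V.valuation (ak Ω a) < V.valuation 1 := by rwa [map_one]
      rw [Valuation.map_sub_eq_of_lt_right _ h2, map_one]
    have h3 : act a P = act (a - 1) P + P := by
      have e : act a = act (a - 1) + 1 := by
        rw [map_sub, map_one, sub_add_cancel]
      rw [e]
      rfl
    rw [h3]
    exact Kg.add_mem (b3b_unit h hG h1 hP) hP

end H55G
end

-- from Lib.H55G.B4a
section

/-! # H55G, part B: the prime below V -/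

open NumberField IsDedekindDomain WeierstrassCurve Polynomial

namespace H55G

open H55P (IQ embF eF LF Per IsHecke Pt ac Inert Dec Nm)
open H35P (WAB Ker GoodW IntW)
open H55K (CMA Tor TN ak xc yc cj cj_cj mul_cj Nm_cj Nm_mul Nm_nat)
open H55K.MG (VC Crd)

variable {F : Type} [Field F] [NumberField F] [IQ F] {A B : F} {Om : ℂ} {Ω : Type} [Field Ω] [DecidableEq Ω]
  [Algebra F Ω] {j : Ω →+* ℂ} {act : 𝓞 F →+* AddMonoid.End (Pt (WAB A B) Ω)} {V : ValuationSubring Ω}
  {W' : WeierstrassCurve Ω} {u r s t : Ω} {Θ : Pt (WAB A B) Ω ≃+ W'.toAffine.Point} {Kg : AddSubgroup (Pt (WAB A B) Ω)}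

omit [IQ F] [DecidableEq Ω] in
theorem b4a_le (c : 𝓞 F) : V.valuation (ak Ω c) ≤ 1 := by
  rw [V.valuation_le_one_iff]
  have h1 : IsIntegral ℤ (ak Ω c) := by
    have h2 : IsIntegral ℤ (c : F) := RingOfIntegers.isIntegral_coe c
    exact h2.map ((algebraMap F Ω).toIntAlgHom)
  have h3 : IsIntegral V (ak Ω c) := h1.tower_top
  obtain ⟨y, hy⟩ := IsIntegrallyClosed.isIntegral_iff.1 h3
  rw [← hy]
  exact y.2

omit [IQ F] in
theorem b4a_inv {b c : 𝓞 F} (hb : Prime b) (hc : ¬ b ∣ c) : ∃ y d : 𝓞 F, y * c + b * d = 1 := by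
  have h1 : (Ideal.span {b} : Ideal (𝓞 F)).IsPrime := (Ideal.span_singleton_prime hb.ne_zero).2 hb
  have h2 : (Ideal.span {b} : Ideal (𝓞 F)).IsMaximal :=
    h1.isMaximal (by rw [Ne, Ideal.span_singleton_eq_bot]; exact hb.ne_zero)
  have h3 : c ∉ (Ideal.span {b} : Ideal (𝓞 F)) := fun h => hc (Ideal.mem_span_singleton.1 h)
  obtain ⟨y, i, hi, hy⟩ := h2.exists_inv h3
  obtain ⟨d, rfl⟩ := Ideal.mem_span_singleton.1 hi
  exact ⟨y, d, hy⟩

omit [DecidableEq Ω] in
/-- A product of elements of value 1 has value 1. -/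
theorem b4a_prod {ι : Type} (S : Finset ι) (f : ι → Ω) (hf : ∀ R ∈ S, V.valuation (f R) = 1) :
    V.valuation (∏ R ∈ S, f R) = 1 := by
  rw [map_prod]
  exact Finset.prod_eq_one hf

omit [NumberField F] [IQ F] in
theorem b4a_mul (act : 𝓞 F →+* AddMonoid.End (Pt (WAB A B) Ω)) (a c : 𝓞 F) (P : Pt (WAB A B) Ω) :
    act (a * c) P = act a (act c P) := by
  rw [map_mul]
  rfl

omit [NumberField F] [IQ F] in
theorem b4a_add (act : 𝓞 F →+* AddMonoid.End (Pt (WAB A B) Ω)) (a c : 𝓞 F) (P : Pt (WAB A B) Ω) :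
    act (a + c) P = act a P + act c P := by
  rw [map_add]
  rfl


omit [DecidableEq Ω] in
/-- Chunk B4 (S). 𝓞 F is a principal ideal domain (IQ F; or only: span {b} is a maximal ideal since b is a prime element of the Dedekind domain), so x b + y c = 1 for some x, y; V(x b) < 1, so V(y c) = 1, V(c) = 1 (all values ≤ 1: t9c_int). Conversely b ∣ c gives V(c) < 1. -/
theorem val_nb {b : 𝓞 F} (hb : Prime b) (hV : V.valuation (ak Ω b) < 1) (c : 𝓞 F) :
    (¬ b ∣ c → V.valuation (ak Ω c) = 1) ∧ (b ∣ c → V.valuation (ak Ω c) < 1) := by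
  refine ⟨fun hc => ?_, fun hc => ?_⟩
  · obtain ⟨y, d, hy⟩ := b4a_inv hb hc
    have h1 : ak Ω y * ak Ω c + ak Ω b * ak Ω d = 1 := by
      have h2 := congrArg (fun z : 𝓞 F => ak Ω z) hy
      simp only [ak, map_add, map_mul, map_one] at h2 ⊢
      exact h2
    have h2 : V.valuation (ak Ω b * ak Ω d) < 1 := by
      rw [map_mul]
      exact mul_lt_one_of_lt_of_le hV (b4a_le d)
    have h3 : V.valuation (ak Ω y * ak Ω c) = 1 := by
      have h4 : ak Ω y * ak Ω c = 1 - ak Ω b * ak Ω d := by rw [← h1, add_sub_cancel_right]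
      rw [h4]
      have h5 : V.valuation (ak Ω b * ak Ω d) < V.valuation (1 : Ω) := by rw [map_one]; exact h2
      rw [Valuation.map_sub_eq_of_lt_left _ h5, map_one]
    rw [map_mul] at h3
    refine le_antisymm (b4a_le c) ?_
    rw [← h3]
    exact mul_le_of_le_one_left' (b4a_le y)
  · obtain ⟨d, rfl⟩ := hc
    have h1 : ak Ω (b * d) = ak Ω b * ak Ω d := by
      simp only [ak, map_mul]
    rw [h1, map_mul]
    exact mul_lt_one_of_lt_of_le hV (b4a_le d)

/-- Chunk B4 (M). Suppose T with act b T = 0, T not in Kg. Then no nonzero element of the kernel of act b is in Kg: let T' ≠ 0 be one. The kernel is {act c T₀} with act c T₀ = 0 iff b ∣ c (h.gen); T = act c T₀ and T' = act c' T₀ with b not dividing c'; there is x with x c' - c divisible by b (span {b} maximal), act x T' = T, in Kg by kg_stable: contradiction. So for S = the nonzero elements of the kernel (exists_TN) all R in S are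
not in Kg; X, Y generic: in e2x all factors except V(b)^2 < 1 have value 1 (xp_diff): contradiction. -/
theorem torb_kg (h : CMA F A B Om j act) (hG : GD V W' u r s t Θ Kg) {b : 𝓞 F} (hb : Prime b)
    (hV : V.valuation (ak Ω b) < 1) {T : Pt (WAB A B) Ω} (hT : act b T = 0) : T ∈ Kg := by
  by_contra hTK
  have hb0 : b ≠ 0 := hb.ne_zero
  have hT0 : T ≠ 0 := fun h0 => hTK (h0 ▸ Kg.zero_mem)
  obtain ⟨T₀, hT₀, hgen, hdvd, -⟩ := h.gen b hb0
  obtain ⟨c, hc⟩ := hgen T hT
  have key : ∀ T' : Pt (WAB A B) Ω, act b T' = 0 → T' ≠ 0 → T' ∉ Kg := by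
    intro T' hT' hT'0 hT'K
    obtain ⟨c', hc'⟩ := hgen T' hT'
    have hnd : ¬ b ∣ c' := fun hd => hT'0 (by rw [hc']; exact (hdvd c').2 hd)
    obtain ⟨y, d, hy⟩ := b4a_inv hb hnd
    have h1 : T = act (c * y) T' := by
      have h2 : c = c * y * c' + c * (b * d) := by rw [mul_assoc, ← mul_add, hy, mul_one]
      have h3 : act (c * (b * d)) T₀ = 0 := (hdvd _).2 ⟨c * d, by ring⟩
      rw [hc, hc', ← b4a_mul]
      conv_lhs => rw [h2]
      rw [b4a_add, h3, add_zero]
    exact hTK (h1 ▸ kg_stable h hG (c * y) hT'K)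
  obtain ⟨S, hS, -⟩ := H55K.exists_TN h hb0
  obtain ⟨X, Y, g⟩ := exists_gen h hG hb0 S
  have hSK : ∀ R ∈ S, R ∉ Kg := fun R hR => key R ((hS R).1 hR).1 ((hS R).1 hR).2
  have haX : act b X ≠ 0 := fun h0 => g.ax (h0 ▸ Kg.zero_mem)
  have haY : act b Y ≠ 0 := fun h0 => g.ay (h0 ▸ Kg.zero_mem)
  have e := congrArg V.valuation (e2x h hG hb0 hS haX haY)
  rw [map_mul, map_mul, map_mul, map_pow, xp_diff hG g.ax g.ay g.am g.ap, xp_diff hG g.x g.y g.m g.p,
    b4a_prod S _ fun R hR => xp_diff hG (hSK R hR) g.y (g.rm R hR) (g.rp R hR),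
    b4a_prod S _ fun R hR => xp_diff hG (g.xr R hR) g.y (g.xrm R hR) (g.xrp R hR), mul_one, mul_one, mul_one] at e
  exact absurd e (ne_of_lt (pow_lt_one' hV two_ne_zero))

end H55G
end

-- from Lib.H55G.B4b
section

/-! # H55G, part B: the prime below V -/

open NumberField IsDedekindDomain WeierstrassCurve Polynomial

namespace H55G

open H55P (IQ embF eF LF Per IsHecke Pt ac Inert Dec Nm)
open H35P (WAB Ker GoodW IntW)
open H55K (CMA Tor TN ak xc yc cj cj_cj mul_cj Nm_cj Nm_mul Nm_nat)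
open H55K.MG (VC Crd)

variable {F : Type} [Field F] [NumberField F] [IQ F] {A B : F} {Om : ℂ} {Ω : Type} [Field Ω] [DecidableEq Ω]
  [Algebra F Ω] {j : Ω →+* ℂ} {act : 𝓞 F →+* AddMonoid.End (Pt (WAB A B) Ω)} {V : ValuationSubring Ω}
  {W' : WeierstrassCurve Ω} {u r s t : Ω} {Θ : Pt (WAB A B) Ω ≃+ W'.toAffine.Point} {Kg : AddSubgroup (Pt (WAB A B) Ω)}

/-- Chunk B4 (S/M). X, Y generic for b, S. e2x: V(b)^2 · 1 · ∏ V(xp R) = 1 · ∏ 1: for R in S, R in Kg (torb_kg), V(xp R - xp Y) = V(xp R) (xp_far). -/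
theorem cb_one (h : CMA F A B Om j act) (hG : GD V W' u r s t Θ Kg) {b : 𝓞 F} (hb : Prime b)
    (hV : V.valuation (ak Ω b) < 1) {S : Finset (Pt (WAB A B) Ω)} (hS : TN act b S) :
    V.valuation (ak Ω b ^ 2 * ∏ R ∈ S, xp Θ R) = 1 := by
  have hb0 : b ≠ 0 := hb.ne_zero
  obtain ⟨X, Y, g⟩ := exists_gen h hG hb0 S
  have haX : act b X ≠ 0 := fun h0 => g.ax (h0 ▸ Kg.zero_mem)
  have haY : act b Y ≠ 0 := fun h0 => g.ay (h0 ▸ Kg.zero_mem)
  have e := congrArg V.valuation (e2x h hG hb0 hS haX haY)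
  have h1 : V.valuation (∏ R ∈ S, (xp Θ R - xp Θ Y)) = V.valuation (∏ R ∈ S, xp Θ R) := by
    rw [map_prod, map_prod]
    refine Finset.prod_congr rfl fun R hR => ?_
    exact (xp_far hG (torb_kg h hG hb hV ((hS R).1 hR).1) ((hS R).1 hR).2 g.y).2
  rw [map_mul, map_mul, map_mul, xp_diff hG g.ax g.ay g.am g.ap, xp_diff hG g.x g.y g.m g.p, h1,
    b4a_prod S _ fun R hR => xp_diff hG (g.xr R hR) g.y (g.xrm R hR) (g.xrp R hR), mul_one, mul_one] at e
  rw [map_mul]
  exact e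

end H55G
end
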