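import Mathlib
import Pool.Agent.Lib.H1M.PP2.D_H13D_MD
import Pool.Agent.Lib.H1M.PP2.D_H55K_RD
import Pool.Agent.Lib.H1M.PP2.M007
import Pool.Agent.Lib.H1M.PP2.M010
import Pool.Agent.Lib.H1M.PP2.M045
import Pool.Agent.Lib.H1M.PP2.M051
import Pool.Agent.Lib.H1M.PP2.M054
import Pool.Agent.Lib.H1M.PP2.M058
import Pool.Agent.Lib.H1M.PP2.M059
import Pool.Agent.Lib.H1M.PP2.M060
import Pool.Agent.Lib.H1M.PP2.M074
import Pool.Agent.Lib.H1M.PP2.M080
import Pool.Agent.Lib.H1M.PP2.M082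
import Pool.Agent.Lib.H1M.PP2.M088
import Pool.Agent.Lib.H1M.PP2.M091
import Pool.Agent.Lib.H1M.PP2.M093
import Pool.Agent.Lib.H1M.PP2.M094
import Pool.Agent.Lib.H1M.PP2.M095
import Pool.Agent.Lib.H1M.PP2.M101

/-! Merged copies (to shorten the build) of Lib.H19B.ST2, Lib.H19B.ST3, Lib.H55G.I2, Lib.SSG.Z.L5, Lib.H28I.N0, Lib.H28I.N1, Lib.H28I.N2, Lib.H28I.N3, Lib.H28I.N5, Lib.H28I.N6, Lib.H28I.N7, Lib.H28T.AQ3A, Lib.H28T.AQ3, Lib.SSG.LP.B, Lib.SSG.LP.C, Lib.SSG.LT.PA3, Lib.SSG.LP.F, Lib.SSG.LP.G, Lib.SSG.LP.H, Lib.SSG.LP.Main. -/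

-- from Lib.H19B.ST2
section

/-! # H19B, ST2: the step of the Selmer group over the fields -/

open NumberField IsDedekindDomain WeierstrassCurve

namespace H19B

open H55P

variable {F : Type} [Field F] [NumberField F] {Ω : Type} [Field Ω] [DecidableEq Ω] [Algebra F Ω]
  [IsAlgClosed Ω] [Algebra.IsAlgebraic F Ω] [CharZero Ω]

theorem sel_stepG (W : WeierstrassCurve F) (p : ℕ) (hp : p.Prime) (N K : IntermediateField F Ω)
    [FiniteDimensional F K] (hNK : N ≤ K) (hnorm : ∀ s ∈ N.fixingSubgroup, ∀ x ∈ K, s x ∈ K)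
    (hdeg : Module.finrank F K = Module.finrank F N * p)
    (h0 : ∀ T : Pt W Ω, p • T = 0 → (∀ s ∈ K.fixingSubgroup, ac W s T = T) → T = 0)
    (hloc : ∀ V : ValuationSubring Ω, (∀ s ∈ N.fixingSubgroup, Inert V s → s ∈ K.fixingSubgroup) ∨
      ((∀ s ∈ N.fixingSubgroup, Inert V s → ∀ P : Pt W Ω, p • (ac W s P - P) = 0 → ac W s P = P) ∧
        ∀ T : Pt W Ω, p • T = 0 → (∀ s ∈ N.fixingSubgroup, Dec V s → ac W s T = T) → T = 0) ∨
      ((∀ s ∈ N.fixingSubgroup, ∀ t ∈ N.fixingSubgroup, s * t * s⁻¹ * t⁻¹ ∈ K.fixingSubgroup) →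
        ∀ c : (Ω ≃ₐ[F] Ω) → Pt W Ω, Coc W N c → (∀ s ∈ N.fixingSubgroup, p • c s = 0) →
        (∃ P : Pt W Ω, ∀ s ∈ K.fixingSubgroup, Inert V s → c s = ac W s P - P) →
        ∃ P : Pt W Ω, ∀ s ∈ N.fixingSubgroup, Inert V s → c s = ac W s P - P))
    (hS : SelZero W p N) : SelZero W p K := by
  rw [sel_iff] at hS ⊢
  have hfin := s3_fin N K hNK
  have hgal := s3_galois N K hNK hnorm
  have hdN : Module.finrank F N ≠ 0 := by
    intro h
    rw [h, zero_mul] at hdeg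
    exact (Module.finrank_pos (R := F) (M := K)).ne' hdeg
  have hfr : Module.finrank N (IntermediateField.extendScalars hNK) = p := by
    have h1 := Module.finrank_mul_finrank F N (IntermediateField.extendScalars hNK)
    have h2 : Module.finrank F (IntermediateField.extendScalars hNK) = Module.finrank F K := rfl
    rw [h2, hdeg] at h1
    exact Nat.eq_of_mul_eq_mul_left (Nat.pos_of_ne_zero hdN) h1
  have hcard : Nat.card Gal((IntermediateField.extendScalars hNK)/N) = p := by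
    rw [IsGalois.card_aut_eq_finrank, hfr]
  have : Fact p.Prime := ⟨hp⟩
  have hcyc : IsCyclic Gal((IntermediateField.extendScalars hNK)/N) := isCyclic_of_prime_card hcard
  obtain ⟨τ, hτ⟩ := hcyc.exists_generator
  obtain ⟨σ, hσ, hστ⟩ := s3_lift (IntermediateField.extendScalars hNK) τ
  have hpow : ∀ (i : ℕ) (x : IntermediateField.extendScalars hNK),
      (σ ^ i) (x : Ω) = (((τ ^ i) x : IntermediateField.extendScalars hNK) : Ω) := by
    intro i
    induction i with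
    | zero => intro x; rfl
    | succ n ih =>
      intro x
      rw [pow_succ', pow_succ', AlgEquiv.mul_apply, AlgEquiv.mul_apply, ih, hστ]
  have hcommK : ∀ a ∈ N.fixingSubgroup, ∀ b ∈ N.fixingSubgroup, a * b * a⁻¹ * b⁻¹ ∈ K.fixingSubgroup := by
    intro a ha b hb
    obtain ⟨sa, hsa⟩ := s3_restr (IntermediateField.extendScalars hNK) a ha
    obtain ⟨sb, hsb⟩ := s3_restr (IntermediateField.extendScalars hNK) b hb
    have hcm : sa * sb = sb * sa := by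
      obtain ⟨i, hi⟩ := Subgroup.mem_zpowers_iff.1 (hτ sa)
      obtain ⟨j, hj⟩ := Subgroup.mem_zpowers_iff.1 (hτ sb)
      rw [← hi, ← hj, ← zpow_add, ← zpow_add, add_comm]
    rw [s3_mem]
    intro x hx
    have hy : a⁻¹ (b⁻¹ x) ∈ K :=
      hnorm _ (inv_mem ha) _ (hnorm _ (inv_mem hb) _ hx)
    have h3 : a (b (a⁻¹ (b⁻¹ x))) = b (a (a⁻¹ (b⁻¹ x))) := by
      have h4 := hsb ⟨a⁻¹ (b⁻¹ x), hy⟩
      have h5 := hsa ⟨a⁻¹ (b⁻¹ x), hy⟩
      have h6 := hsa (sb ⟨a⁻¹ (b⁻¹ x), hy⟩)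
      have h7 := hsb (sa ⟨a⁻¹ (b⁻¹ x), hy⟩)
      have h8 : sa (sb ⟨a⁻¹ (b⁻¹ x), hy⟩) = sb (sa ⟨a⁻¹ (b⁻¹ x), hy⟩) := by
        rw [← AlgEquiv.mul_apply, hcm, AlgEquiv.mul_apply]
      rw [h8, h7, h4, h5] at h6
      exact h6.symm
    have h1 : a (a⁻¹ (b⁻¹ x)) = b⁻¹ x := a.apply_symm_apply _
    have h2 : b (b⁻¹ x) = x := b.apply_symm_apply _
    rw [AlgEquiv.mul_apply, AlgEquiv.mul_apply, AlgEquiv.mul_apply, h3, h1, h2]
  refine abs_stepG (acR W) p hp _ (fun V : ValuationSubring Ω => inS F V)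
    (fun V : ValuationSubring Ω => decS F V) K.fixingSubgroup N.fixingSubgroup ?_ ?_ ?_ ?_ ?_ σ hσ
    ?_ ?_ ?_ ?_ ?_ ?_ hS
  · rintro _ ⟨L, hL, rfl⟩ _ ⟨L', hL', rfl⟩
    exact ⟨L ⊔ L', IntermediateField.finiteDimensional_sup L L',
      (IntermediateField.fixingSubgroup_sup).symm⟩
  · rintro _ ⟨L, hL, rfl⟩ g
    refine ⟨(L.map (g⁻¹ : Ω ≃ₐ[F] Ω).toAlgHom).fixingSubgroup, ⟨_, ?_, rfl⟩, ?_⟩
    · exact LinearEquiv.finiteDimensional
        (IntermediateField.equivMap L (g⁻¹ : Ω ≃ₐ[F] Ω).toAlgHom).toLinearEquiv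
    · intro s hs
      rw [s3_mem] at hs ⊢
      intro x hx
      have h1 : g (g⁻¹ x) = x := g.apply_symm_apply x
      have h2 : s (g⁻¹ x) = g⁻¹ x := hs _ ⟨x, hx, rfl⟩
      rw [AlgEquiv.mul_apply, AlgEquiv.mul_apply, h2, h1]
  · exact ⟨K, inferInstance, rfl⟩
  · exact IntermediateField.fixingSubgroup_le hNK
  · exact hcommK
  · intro h hh
    obtain ⟨sh, hsh⟩ := s3_restr (IntermediateField.extendScalars hNK) h hh
    have h1 : sh ∈ Submonoid.powers τ := by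
      have := hτ sh
      rwa [← mem_powers_iff_mem_zpowers] at this
    obtain ⟨i, hi⟩ := h1
    refine ⟨i, (σ ^ i)⁻¹ * h, ?_, by group⟩
    rw [s3_mem]
    intro x hx
    have h2 : h x = (σ ^ i) x := by
      have h3 := hsh ⟨x, hx⟩
      have h4 := hpow i ⟨x, hx⟩
      have hi' : τ ^ i = sh := hi
      rw [hi', h3] at h4
      exact h4.symm
    rw [AlgEquiv.mul_apply, h2]
    exact (σ ^ i).symm_apply_apply x
  · rw [s3_mem]
    intro x hx
    have h4 := hpow p ⟨x, hx⟩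
    have h5 : τ ^ p = 1 := by
      rw [← hcard]
      exact pow_card_eq_one'
    rw [h5] at h4
    exact h4
  · intro g _ v
    exact inS_conj v g
  · intro v φ hφ s hs
    exact inS_dec v φ hφ s hs
  · exact h0
  · intro V
    rcases hloc V with h | h | h
    · exact Or.inl h
    · exact Or.inr (Or.inl h)
    · refine Or.inr (Or.inr ?_)
      rintro c' h1 h2 ⟨_, ⟨L, hL, rfl⟩, h3⟩ h4
      exact h hcommK c' ⟨h1, L, hL, h3⟩ h2 h4

end H19B
end

-- from Lib.H19B.ST3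
section

/-! # H19B, ST3: the tower theorem with primes above p -/

open NumberField IsDedekindDomain WeierstrassCurve

namespace H19B

open H55P

variable {F : Type} [Field F] [NumberField F] {Ω : Type} [Field Ω] [DecidableEq Ω] [Algebra F Ω]
  [IsAlgClosed Ω] [Algebra.IsAlgebraic F Ω] [CharZero Ω]

/-- The third local alternative: the local condition over K implies the one over N. -/
def Alt (W : WeierstrassCurve F) (p : ℕ) (N K : IntermediateField F Ω) (V : ValuationSubring Ω) : Prop :=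
  (∀ s ∈ N.fixingSubgroup, ∀ t ∈ N.fixingSubgroup, s * t * s⁻¹ * t⁻¹ ∈ K.fixingSubgroup) →
    ∀ c : (Ω ≃ₐ[F] Ω) → Pt W Ω, Coc W N c → (∀ s ∈ N.fixingSubgroup, p • c s = 0) →
      (∃ P : Pt W Ω, ∀ s ∈ K.fixingSubgroup, Inert V s → c s = ac W s P - P) →
        ∃ P : Pt W Ω, ∀ s ∈ N.fixingSubgroup, Inert V s → c s = ac W s P - P

/-- As H55K.NB.sel_towerB, with a further alternative at the ramified primes. -/
theorem sel_towerG (W₀ : WeierstrassCurve (𝓞 F)) [(W₀⁄F).IsElliptic] (p : ℕ) (hp : p.Prime)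
    (M L : IntermediateField F Ω) (hL : PExt p M L)
    (h0 : ∀ T : Pt (W₀⁄F) Ω, p • T = 0 → (∀ s ∈ M.fixingSubgroup, ac (W₀⁄F) s T = T) → T = 0)
    (hcomm : ∀ s ∈ M.fixingSubgroup, ∀ t ∈ M.fixingSubgroup, ∀ T : Pt (W₀⁄F) Ω, p • T = 0 →
      ac (W₀⁄F) s (ac (W₀⁄F) t T) = ac (W₀⁄F) t (ac (W₀⁄F) s T))
    (hram : ∀ v : HeightOneSpectrum (𝓞 M), Ram M L v.asIdeal → ((p : 𝓞 M) ∉ v.asIdeal ∧
      ((algebraMap (𝓞 F) (𝓞 M) W₀.Δ ∉ v.asIdeal ∧
        ¬ p ∣ Nat.card (W₀⁄(𝓞 M ⧸ v.asIdeal)).toAffine.Point) ∨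
      ∀ V : ValuationSubring Ω, Below V M v.asIdeal → ∀ T : Pt (W₀⁄F) Ω, p • T = 0 →
        (∀ s ∈ L.fixingSubgroup, Inert V s → ac (W₀⁄F) s T = T) → T = 0)) ∨
      ∀ V : ValuationSubring Ω, Below V M v.asIdeal → ∀ N K : IntermediateField F Ω, M ≤ N → N ≤ K → K ≤ L →
        Alt (W₀⁄F) p N K V)
    (hS : SelZero (W₀⁄F) p M) (K : IntermediateField F Ω) (hMK : M ≤ K) (hKL : K ≤ L) :
    SelZero (W₀⁄F) p K := by
  have hLf : FiniteDimensional F L := hL.fin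
  have hMf : FiniteDimensional F M :=
    (Module.Finite.of_injective (IntermediateField.inclusion hL.le).toLinearMap
      (IntermediateField.inclusion hL.le).injective)
  obtain ⟨k, hk⟩ := hL.pow p hp M L
  have hconj : ∀ s ∈ M.fixingSubgroup, ∀ t ∈ L.fixingSubgroup, s * t * s⁻¹ ∈ L.fixingSubgroup :=
    fun s hs t ht => hL.conj p M L s hs t ht
  have hfin := tors_fin (Ω := Ω) (W₀⁄F) p hp.pos
  -- no torsion over L
  have htL : ∀ T : Pt (W₀⁄F) Ω, p • T = 0 → (∀ s ∈ L.fixingSubgroup, ac (W₀⁄F) s T = T) → T = 0 := by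
    intro T hT hf
    exact fix_up (acR (W₀⁄F)) p hp hfin L.fixingSubgroup M.fixingSubgroup
      (fun s hs => fixing_anti hL.le hs) hconj k hk h0 T hT hf
  induction hn : Module.finrank F K using Nat.strong_induction_on generalizing K with
  | _ n ih =>
    rcases eq_or_ne K M with rfl | hne
    · exact hS
    obtain ⟨N, hMN, hNK, hdeg, hnorm⟩ := chain_step p hp M K L hL hMK hKL hne
    have hKf : FiniteDimensional F K :=
      (Module.Finite.of_injective (IntermediateField.inclusion hKL).toLinearMap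
        (IntermediateField.inclusion hKL).injective)
    have hNf : FiniteDimensional F N :=
      (Module.Finite.of_injective (IntermediateField.inclusion hNK).toLinearMap
        (IntermediateField.inclusion hNK).injective)
    have hNpos : 0 < Module.finrank F N := Module.finrank_pos
    have hlt : Module.finrank F N < n := by
      rw [← hn, hdeg]
      exact lt_mul_of_one_lt_right hNpos hp.one_lt
    have hSN := ih _ hlt N hMN (hNK.trans hKL) rfl
    refine sel_stepG (W₀⁄F) p hp N K hNK hnorm hdeg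
      (fun T hT hf => htL T hT fun s hs => hf s (fixing_anti hKL hs)) (fun V => ?_) hSN
    rcases below_cases M V with ⟨v, hv⟩ | htriv
    · by_cases hr : Ram M L v.asIdeal
      · right
        rcases hram v hr with ⟨hpv, hdisj⟩ | halt
        swap
        · right
          exact halt V hv N K hMN hNK hKL
        obtain ⟨hΔ, hc⟩ | hbad := hdisj
        swap
        · right
          intro _ c hc hpc _
          exact H55K.NB.inert_cob (W₀⁄F) p hp N V (val_below M V v hv p hpv)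
            (fun s hs t ht T hT => hcomm s (fixing_anti hMN hs) t (fixing_anti hMN ht) T hT)
            (fun T hT hf => hbad V hv T hT fun s hs hi => hf s (fixing_anti (hNK.trans hKL) hs) hi) c hc hpc
        left
        refine ⟨fun s _ hI P hP => ?_, fun T hT hf => ?_⟩
        · exact red_fix (W₀⁄F) V (good_below W₀ M V v hv hΔ) p (val_below M V v hv p hpv) s hI P hP
        · refine fix_up (acR (W₀⁄F)) p hp hfin (L.fixingSubgroup ⊓ decS F V)
            (M.fixingSubgroup ⊓ decS F V) ?_ ?_ k ?_ ?_ T hT ?_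
          · exact inf_le_inf_right _ fun s hs => fixing_anti hL.le hs
          · intro s hs t ht
            exact ⟨hconj s hs.1 t ht.1,
              (decS F V).mul_mem ((decS F V).mul_mem hs.2 ht.2) ((decS F V).inv_mem hs.2)⟩
          · intro s hs
            exact ⟨hk s hs.1, (decS F V).pow_mem hs.2 _⟩
          · intro T' hT' hf'
            exact fix_local W₀ p hp M V v hv hΔ hpv hc T' hT' fun s hs hd => hf' s ⟨hs, hd⟩
          · intro s hs
            exact hf s (fixing_anti (hNK.trans hKL) hs.1) hs.2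
      · left
        intro s hs hI
        refine fixing_anti hKL (inert_mem M L hL.le hL.norm V ?_ s (fixing_anti hMN hs) hI)
        intro v' hv' hr'
        apply hr
        have : v' = v := by
          apply HeightOneSpectrum.ext
          ext x
          rw [hv' x, hv x]
        rwa [← this]
    · left
      intro s _ hI
      rw [htriv s hI]
      exact one_mem _

end H19B
end

-- from Lib.H55G.I2
section

/-! # H55G, part I: the local alternative at a prime of good reduction -/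

open NumberField IsDedekindDomain WeierstrassCurve

namespace H55G

open H55P

variable {F : Type} [Field F] [NumberField F] {Ω : Type} [Field Ω] [DecidableEq Ω] [Algebra F Ω]

/-- At V over M: the inertia group acts on the points as for good reduction (a point P with p (s P - P) = 0 is fixed), and the decomposition group has no fixed
point of order p. -/
structure LocOk (W : WeierstrassCurve F) (p : ℕ) (M : IntermediateField F Ω) (V : ValuationSubring Ω) : Prop where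
  inert : ∀ s ∈ M.fixingSubgroup, Inert V s → ∀ P : Pt W Ω, p • (ac W s P - P) = 0 → ac W s P = P
  dec : ∀ T : Pt W Ω, p • T = 0 → (∀ s ∈ M.fixingSubgroup, Dec V s → ac W s T = T) → T = 0

theorem locOk_tr {W₁ W₂ : WeierstrassCurve F} (Θ : Pt W₁ Ω ≃+ Pt W₂ Ω)
    (hΘ : ∀ (g : Ω ≃ₐ[F] Ω) (P : Pt W₁ Ω), ac W₂ g (Θ P) = Θ (ac W₁ g P)) {p : ℕ} {M : IntermediateField F Ω}
    {V : ValuationSubring Ω} (h : LocOk W₁ p M V) : LocOk W₂ p M V := by
  refine ⟨fun s hs hI P hP => ?_, fun T hT hf => ?_⟩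
  · obtain ⟨Q, rfl⟩ := Θ.surjective P
    rw [hΘ] at hP ⊢
    rw [← map_sub, ← map_nsmul, map_eq_zero_iff Θ Θ.injective] at hP
    rw [h.inert s hs hI Q hP]
  · obtain ⟨Q, rfl⟩ := Θ.surjective T
    rw [← map_nsmul, map_eq_zero_iff Θ Θ.injective] at hT
    have h1 : Q = 0 := h.dec Q hT fun s hs hD => by
      have h2 := hf s hs hD
      rw [hΘ] at h2
      exact Θ.injective h2
    rw [h1, map_zero]

/-- Chunk I2 (M). Unfold Alt. hcom: commutators of N.fixingSubgroup are in K.fixingSubgroup; c a cocycle over N with p • c s = 0, and P₀ with c s = s P₀ - P₀ for s in K.fixingSubgroup with Inert V s. (N.fixingSubgroup ≤ M.fixingSubgroup: IntermediateField.fixingSubgroup_antitone or fixing_anti as in ST3.lean.)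
(1) For s in K.fixingSubgroup, Inert V s: p • (s P₀ - P₀) = p • c s = 0, so s P₀ = P₀ (h.inert), c s = 0.
(2) For d in N.fixingSubgroup with Dec V d and s in N.fixingSubgroup with Inert V s: d s d⁻¹ is in N.fixingSubgroup and Inert V (d s d⁻¹) (for x in V: d⁻¹ x in V, s d⁻¹ x - d⁻¹ x has value < 1, and d preserves V and so the elements of value < 1; see H55P.S12 or SD for the conjugation lemma of inertia). c (d s d⁻¹) = d (c s): coc.mul: c (d s d⁻¹) = c d + d (c s) + d s (c d⁻¹), and 0 = c (d d⁻¹) = c d + d (c d⁻¹), so d s c(d⁻¹) =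
(d s d⁻¹) (d (c d⁻¹)) = -(d s d⁻¹) (c d) = - c d because p • c d = 0 and inertia elements of N.fixingSubgroup fix points killed by p (h.inert: p • (s T - T) = 0).
(3) d s d⁻¹ s⁻¹ is in K.fixingSubgroup (hcom) and in the inertia group, so c (d s d⁻¹ s⁻¹) = 0 by (1) and c (d s d⁻¹) = c ((d s d⁻¹ s⁻¹) s) = 0 + (inertia) c s = c s (h.inert, p • c s = 0). So d (c s) = c s for all d in N.fixingSubgroup with Dec V d.
(4) A point T with p • T = 0 fixed by all d in N.fixingSubgroup with Dec V d is 0: fix_up (SA1.lean) for the action acR W, the subgroups L.fixingSubgroup ⊓ D ≤ M.fixingSubgroup ⊓ D, D = the subgroup of the s with Dec V s (V.decompositionSubgroup or the Subgroup built by hand), conjugation: PExt.conj, powers: PExt.pow (S12.lean); h0 = h.dec; T is fixed by L.fixingSubgroup ⊓ D ≤ N.fixingSubgroup ⊓ D (N ≤ L).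
So c s = 0 for all s in N.fixingSubgroup with Inert V s: P = 0. (hfin: tors_fin for an elliptic W, here as hypothesis.) -/
theorem alt_ok [IsAlgClosed Ω] [Algebra.IsAlgebraic F Ω] {W : WeierstrassCurve F} {p : ℕ} (hp : p.Prime)
    (hfin : {T : Pt W Ω | p • T = 0}.Finite) {M L : IntermediateField F Ω} (hL : PExt p M L) {V : ValuationSubring Ω}
    (h : LocOk W p M V) {N K : IntermediateField F Ω} (hMN : M ≤ N) (hNK : N ≤ K) (hKL : K ≤ L) : H19B.Alt W p N K V := by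
  intro hcom c hc hpc hloc
  obtain ⟨P₀, hP₀⟩ := hloc
  have hcz : CharZero Ω := charZero_of_injective_algebraMap (algebraMap F Ω).injective
  obtain ⟨k, hk⟩ := hL.pow p hp M L
  have hconj : ∀ s ∈ M.fixingSubgroup, ∀ t ∈ L.fixingSubgroup, s * t * s⁻¹ ∈ L.fixingSubgroup :=
    fun s hs t ht => hL.conj p M L s hs t ht
  have hKN : ∀ s ∈ K.fixingSubgroup, s ∈ N.fixingSubgroup := fun s hs => fixing_anti hNK hs
  have hNM : ∀ s ∈ N.fixingSubgroup, s ∈ M.fixingSubgroup := fun s hs => fixing_anti hMN hs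
  have hmul : ∀ (s t : Ω ≃ₐ[F] Ω) (P : Pt W Ω), ac W (s * t) P = ac W s (ac W t P) := by
    intro s t P
    rw [← acR_apply, ← acR_apply, ← acR_apply, map_mul]
    rfl
  have hone : ∀ P : Pt W Ω, ac W (1 : Ω ≃ₐ[F] Ω) P = P := by
    intro P
    rw [← acR_apply, map_one]
    rfl
  have hc1 : c 1 = 0 := by
    have h1 := hc.mul 1 (one_mem _) 1 (one_mem _)
    rw [mul_one, hone] at h1
    exact left_eq_add.1 h1
  -- inertia elements fix the points of order p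
  have hfix : ∀ s ∈ N.fixingSubgroup, Inert V s → ∀ T : Pt W Ω, p • T = 0 → ac W s T = T := by
    intro s hs hI T hT
    refine h.inert s (hNM s hs) hI T ?_
    rw [smul_sub, ← map_nsmul, hT, map_zero, sub_zero]
  -- (1)
  have hK : ∀ s ∈ K.fixingSubgroup, Inert V s → c s = 0 := by
    intro s hs hI
    have h1 := hP₀ s hs hI
    have h2 : ac W s P₀ = P₀ := by
      refine h.inert s (hNM s (hKN s hs)) hI P₀ ?_
      rw [← h1]
      exact hpc s (hKN s hs)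
    rw [h1, h2, sub_self]
  -- (2)
  have hd : ∀ d ∈ N.fixingSubgroup, Dec V d → ∀ s ∈ N.fixingSubgroup, Inert V s → ac W d (c s) = c s := by
    intro d hd hD s hs hI
    have hN1 : d * s * d⁻¹ ∈ N.fixingSubgroup := mul_mem (mul_mem hd hs) (inv_mem hd)
    have hI1 : Inert V (d * s * d⁻¹) := inS_dec V d hD s hI
    have h1 : c (d * s * d⁻¹) = c d + ac W d (c s) + ac W (d * s) (c d⁻¹) := by
      rw [hc.mul _ (mul_mem hd hs) _ (inv_mem hd), hc.mul _ hd _ hs]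
    have h2 : ac W d (c d⁻¹) = - c d := by
      have h3 := hc.mul d hd d⁻¹ (inv_mem hd)
      rw [mul_inv_cancel, hc1] at h3
      exact (neg_eq_of_add_eq_zero_right h3.symm).symm
    have h3 : ac W (d * s) (c d⁻¹) = - c d := by
      have h4 : d * s = (d * s * d⁻¹) * d := by group
      rw [h4, hmul, h2, map_neg, hfix _ hN1 hI1 _ (hpc d hd)]
    have h5 : c (d * s * d⁻¹) = ac W d (c s) := by
      rw [h1, h3]
      abel
    have h6 : c (d * s * d⁻¹) = c s := by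
      have h7 : d * s * d⁻¹ = (d * s * d⁻¹ * s⁻¹) * s := by group
      have h8 : d * s * d⁻¹ * s⁻¹ ∈ K.fixingSubgroup := hcom d hd s hs
      have h9 : Inert V (d * s * d⁻¹ * s⁻¹) :=
        (inS F V).mul_mem (show d * s * d⁻¹ ∈ inS F V from hI1) ((inS F V).inv_mem (show s ∈ inS F V from hI))
      rw [h7, hc.mul _ (hKN _ h8) _ hs, hK _ h8 h9, zero_add, hfix _ (hKN _ h8) h9 _ (hpc s hs)]
    rw [← h5, h6]
  refine ⟨0, fun s hs hI => ?_⟩
  rw [map_zero, sub_zero]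
  refine fix_up (acR W) p hp hfin (L.fixingSubgroup ⊓ decS F V)
    (M.fixingSubgroup ⊓ decS F V) ?_ ?_ k ?_ ?_ (c s) (hpc s hs) ?_
  · exact inf_le_inf_right _ fun s hs => fixing_anti hL.le hs
  · intro s hs t ht
    exact ⟨hconj s hs.1 t ht.1,
      (decS F V).mul_mem ((decS F V).mul_mem hs.2 ht.2) ((decS F V).inv_mem hs.2)⟩
  · intro s hs
    exact ⟨hk s hs.1, (decS F V).pow_mem hs.2 _⟩
  · intro T' hT' hf'
    exact h.dec T' hT' fun s hs hd => hf' s ⟨hs, hd⟩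
  · intro d hd'
    exact hd d (fixing_anti (hNK.trans hKL) hd'.1) hd'.2 s hs hI

end H55G
end

-- from Lib.SSG.Z.L5
section

/-! Chunk L5 (S). Isogenous curves. H28I.Iso6 W₁ W₂ Ω: Φ, Ψ equivariant with Ψ Φ = 6, Φ Ψ = 6. Hom.card (ZH.lean) with e = e₁ = the identity (MonoidHom.id), m = 6, φ = Φ, φ₁ = Ψ; U, D are the same for both curves (rfl up to unfolding galS, res). DecidableEq instances: open Classical in; if Iso6 carries another instance, Subsingleton.elim. -/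

open WeierstrassCurve H55P

namespace SSG

open Classical in
theorem iso6_card {K : Type} [Field K] {W₁ W₂ : WeierstrassCurve K} {Ω : Type} [Field Ω] [Algebra K Ω] (h : H28I.Iso6 W₁ W₂ Ω) {p : ℕ} (hp : p.Prime)
    (h5 : 5 ≤ p) : Nat.card (PP p (galS W₁ Ω).Sha) = Nat.card (PP p (galS W₂ Ω).Sha) := by
  obtain ⟨Φ, Ψ, h1, h2, h3, h4⟩ := h
  have hm : ¬ p ∣ 6 := by
    intro hd
    have h6 := Nat.le_of_dvd (by norm_num) hd
    interval_cases p <;> revert hp hd <;> decide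
  have H1 : Hom (galS W₁ Ω) (galS W₂ Ω) (MonoidHom.id (Ω ≃ₐ[K] Ω)) Φ :=
    ⟨fun g a => h3 g a, fun u hu => ⟨u, hu, fun g hg => hg⟩, fun d hd => ⟨d, hd, fun g hg => hg⟩⟩
  have H2 : Hom (galS W₂ Ω) (galS W₁ Ω) (MonoidHom.id (Ω ≃ₐ[K] Ω)) Ψ :=
    ⟨fun g a => h4 g a, fun u hu => ⟨u, hu, fun g hg => hg⟩, fun d hd => ⟨d, hd, fun g hg => hg⟩⟩
  exact H1.card hp hm H2 (fun g => rfl) (fun g => rfl) h1 h2

end SSG
end

-- from Lib.H28I.N0
section

/-! # H28I, part N: the l-adic valuation of the rational numbers -/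

open NumberField IsDedekindDomain WeierstrassCurve

namespace H28I

open H55P (IQ embF eF LF Per IsHecke Pt ac Inert Dec Nm)
open H35P (WAB Ker tt GoodW IntW)
open H55K (xc yc)
open H13D

variable {l : ℕ} [Fact l.Prime]

theorem n0_int {n : ℤ} : Rat.padicValuation l (n : ℚ) = 1 ↔ ¬ (l : ℤ) ∣ n := by
  rw [Rat.padicValuation_cast]
  exact Int.padicValuation_eq_one_iff

theorem n0_int_le (n : ℤ) : Rat.padicValuation l (n : ℚ) ≤ 1 := by
  rw [Rat.padicValuation_cast]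
  exact Int.padicValuation_le_one l n

/-- Chunk N0 (S). Rat.padicValuation_le_one_iff; x = num/den, the value of an integer is 1 iff l does not divide it (Int.padicValuation_eq_one_iff, Rat.padicValuation_cast). -/
theorem val_one_iff (x : ℚ) : Rat.padicValuation l x = 1 ↔ ¬ (l : ℤ) ∣ x.num ∧ ¬ l ∣ x.den := by
  constructor
  · intro h
    have h1 : ¬ l ∣ x.den := Rat.padicValuation_le_one_iff.1 h.le
    refine ⟨?_, h1⟩
    have h2 : Rat.padicValuation l ((x.den : ℤ) : ℚ) = 1 := n0_int.2 (fun h' => h1 (Int.natCast_dvd_natCast.1 h'))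
    have h3 : ((x.num : ℤ) : ℚ) = x * ((x.den : ℤ) : ℚ) := by
      have := Rat.mul_den_eq_num x
      push_cast
      exact this.symm
    apply n0_int.1
    rw [h3, map_mul, h, h2, one_mul]
  · rintro ⟨h1, h2⟩
    have h3 : Rat.padicValuation l ((x.den : ℤ) : ℚ) = 1 := n0_int.2 (fun h' => h2 (Int.natCast_dvd_natCast.1 h'))
    have h4 : Rat.padicValuation l ((x.num : ℤ) : ℚ) = 1 := n0_int.2 h1
    have h5 : ((x.num : ℤ) : ℚ) = x * ((x.den : ℤ) : ℚ) := by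
      have := Rat.mul_den_eq_num x
      push_cast
      exact this.symm
    rw [h5, map_mul, h3, mul_one] at h4
    exact h4

/-- Chunk N0 (S). -/
theorem intL_iff (E : WeierstrassCurve ℚ) : IntL E l ↔ H13D.VI (Rat.padicValuation l) E ∧ Rat.padicValuation l E.Δ = 1 := by
  constructor
  · rintro ⟨h1, h2, h3, h4, h6, h7, h8⟩
    exact ⟨⟨Rat.padicValuation_le_one_iff.2 h1, Rat.padicValuation_le_one_iff.2 h2, Rat.padicValuation_le_one_iff.2 h3,
      Rat.padicValuation_le_one_iff.2 h4, Rat.padicValuation_le_one_iff.2 h6⟩, (val_one_iff _).2 ⟨h7, h8⟩⟩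
  · rintro ⟨⟨h1, h2, h3, h4, h6⟩, h⟩
    obtain ⟨h7, h8⟩ := (val_one_iff _).1 h
    exact ⟨Rat.padicValuation_le_one_iff.1 h1, Rat.padicValuation_le_one_iff.1 h2, Rat.padicValuation_le_one_iff.1 h3,
      Rat.padicValuation_le_one_iff.1 h4, Rat.padicValuation_le_one_iff.1 h6, h7, h8⟩

/-- Chunk N0 (S/M). x = a/b, l does not divide b: an integer z with b z congruent to a modulo l^m (b is a unit modulo l^m): (z - x)/l^m = ((b z - a)/l^m)/b. -/
theorem approx_int {x : ℚ} (hx : Rat.padicValuation l x ≤ 1) (m : ℕ) : ∃ z : ℤ, Rat.padicValuation l (((z : ℚ) - x) / (l : ℚ) ^ m) ≤ 1 := by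
  have h1 : ¬ l ∣ x.den := Rat.padicValuation_le_one_iff.1 hx
  have h1' : ¬ (l : ℤ) ∣ (x.den : ℤ) := fun h' => h1 (Int.natCast_dvd_natCast.1 h')
  have hl : Prime (l : ℤ) := Nat.prime_iff_prime_int.1 (Fact.out : l.Prime)
  have hco : IsCoprime (x.den : ℤ) ((l : ℤ) ^ m) := by
    apply IsCoprime.pow_right
    exact ((Prime.coprime_iff_not_dvd hl).2 h1').symm
  obtain ⟨p, q, hpq⟩ := hco
  refine ⟨p * x.num, ?_⟩
  have hb : (x.den : ℚ) ≠ 0 := by exact_mod_cast x.den_ne_zero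
  have hlq : (l : ℚ) ≠ 0 := by exact_mod_cast (Fact.out : l.Prime).ne_zero
  have hpq' : (p : ℚ) * (x.den : ℚ) + (q : ℚ) * (l : ℚ) ^ m = 1 := by exact_mod_cast hpq
  have hxd : x * (x.den : ℚ) = (x.num : ℚ) := Rat.mul_den_eq_num x
  have e : (((p * x.num : ℤ) : ℚ) - x) / (l : ℚ) ^ m = (((- (x.num * q) : ℤ)) : ℚ) / ((x.den : ℤ) : ℚ) := by
    rw [div_eq_div_iff (pow_ne_zero _ hlq) (by push_cast; exact hb)]
    push_cast
    rw [← hxd]
    linear_combination (x * (x.den : ℚ)) * hpq'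
  rw [e, map_div₀, n0_int.2 h1', div_one]
  exact n0_int_le _

/-- Chunk N0 (S). x = n/l^m and l does not divide the denominator of x: the denominator divides l^m, so it is 1. -/
theorem int_of_val {n : ℤ} {m : ℕ} {x : ℚ} (hx : x * (l : ℚ) ^ m = n) (hv : Rat.padicValuation l x ≤ 1) : ∃ z : ℤ, x = z := by
  have h1 : ¬ l ∣ x.den := Rat.padicValuation_le_one_iff.1 hv
  have h2 : x.num * (l : ℤ) ^ m = n * (x.den : ℤ) := by
    have hxd : x * (x.den : ℚ) = (x.num : ℚ) := Rat.mul_den_eq_num x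
    have : (x.num : ℚ) * (l : ℚ) ^ m = (n : ℚ) * (x.den : ℚ) := by
      rw [← hxd, ← hx]
      ring
    exact_mod_cast this
  have h3 : (x.den : ℤ) ∣ x.num * (l : ℤ) ^ m := ⟨n, by rw [h2]; ring⟩
  have h4 : IsCoprime (x.den : ℤ) x.num := by
    have := x.reduced
    rw [Int.isCoprime_iff_gcd_eq_one, Int.gcd_comm]
    exact this
  have h5 : (x.den : ℤ) ∣ (l : ℤ) ^ m := h4.dvd_of_dvd_mul_left h3
  have h6 : x.den ∣ l ^ m := by exact_mod_cast h5
  have h7 : x.den = 1 := by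
    obtain ⟨j, _, hj⟩ := (Nat.dvd_prime_pow (Fact.out : l.Prime)).1 h6
    rcases Nat.eq_zero_or_pos j with h | h
    · rw [hj, h, pow_zero]
    · exact absurd (hj ▸ dvd_pow_self l h.ne') h1
  exact ⟨x.num, (Rat.den_eq_one_iff _).1 h7 |>.symm⟩

/-- Chunk N0 (S/M). A nonzero rational number of value < 1 is l^k ε with k ≥ 1 and ε of value 1 (padicValRat; Rat.padicValuation is exp (- padicValRat)). -/
theorem split_val {x : ℚ} (h0 : x ≠ 0) (hx : Rat.padicValuation l x < 1) : ∃ (k : ℕ) (ε : ℚ), 0 < k ∧ Rat.padicValuation l ε = 1 ∧ x = (l : ℚ) ^ k * ε := by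
  have hlq : (l : ℚ) ≠ 0 := by exact_mod_cast (Fact.out : l.Prime).ne_zero
  have hxv : Rat.padicValuation l x = WithZero.exp (-padicValRat l x) := by
    simp [Rat.padicValuation, h0]
  rw [hxv, ← WithZero.exp_zero, WithZero.exp_lt_exp] at hx
  have hk : 0 < padicValRat l x := by linarith
  refine ⟨(padicValRat l x).toNat, x / (l : ℚ) ^ (padicValRat l x).toNat, by omega, ?_, ?_⟩
  · rw [map_div₀, map_pow, Rat.padicValuation_self, hxv, ← WithZero.exp_nsmul]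
    have : ((padicValRat l x).toNat • (-1 : ℤ)) = -padicValRat l x := by
      rw [nsmul_eq_mul, Int.toNat_of_nonneg hk.le]
      ring
    rw [this]
    exact div_self WithZero.exp_ne_zero
  · field_simp

end H28I
end

-- from Lib.H28I.N1
section

/-! # H28I, part N: integral changes of variables -/

open NumberField IsDedekindDomain WeierstrassCurve

namespace H28I

open H55P (IQ embF eF LF Per IsHecke Pt ac Inert Dec Nm)
open H35P (WAB Ker tt GoodW IntW)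
open H55K (xc yc)
open H13D

theorem n1_div {k Γ : Type} [Field k] [LinearOrderedCommGroupWithZero Γ] {v : Valuation k Γ} {u : kˣ} (hu : v (u : k) ≤ 1) (n : ℕ) {x : k}
    (h : v (((u⁻¹ : kˣ) : k) ^ n * x) ≤ 1) : v x ≤ 1 := by
  have e : x = (u : k) ^ n * (((u⁻¹ : kˣ) : k) ^ n * x) := by
    rw [← mul_assoc, ← mul_pow, Units.mul_inv, one_pow, one_mul]
  rw [e, map_mul, map_pow]
  exact mul_le_one' (pow_le_one' hu n) h

/-- Chunk N1 (M). As vi_uniq (H13D/M1.lean), with u integral: V(2) = 1 or V(3) = 1. The quantities b₂, b₄, b₆, b₈ of E and b₆', b₈', a₂', a₆' of the second equation are integral (m1_b). u^8 b₈' = b₈ + 3 r b₆ + 3 r^2 b₄ + r^3 b₂ + 3 r^4 (variableChange_b₈), u^6 b₆' = b₆ + 2 r b₄ + r^2 b₂ + 4 r^3: V(r) ≤ 1. u^2 a₂' = a₂ - s a₁ + 3 r - s^2: V(s) ≤ 1.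
u^6 a₆' = a₆ + r a₄ + r^2 a₂ + r^3 - t a₃ - t^2 - r t a₁: V(t) ≤ 1. -/
theorem vi_rst {k Γ : Type} [Field k] [LinearOrderedCommGroupWithZero Γ] {v : Valuation k Γ} {E : WeierstrassCurve k} (hE : H13D.VI v E)
    {u : kˣ} (hu : v (u : k) ≤ 1) {r s t : k} (hE' : H13D.VI v ((⟨u, r, s, t⟩ : VariableChange k) • E)) : v r ≤ 1 ∧ v s ≤ 1 ∧ v t ≤ 1 := by
  have g : ∀ n : ℕ, (n : k) ∈ v.integer := fun n => natCast_mem _ n
  have g2 : (2 : k) ∈ v.integer := by exact_mod_cast g 2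
  have g3 : (3 : k) ∈ v.integer := by exact_mod_cast g 3
  obtain ⟨hb2, hb4, hb6, hb8⟩ := m1_b hE
  obtain ⟨hb2', hb4', hb6', hb8'⟩ := m1_b hE'
  obtain ⟨h1, h2, h3, h4, h6⟩ := hE
  obtain ⟨h1', h2', h3', h4', h6'⟩ := hE'
  rw [variableChange_b₆] at hb6'
  rw [variableChange_b₈] at hb8'
  rw [variableChange_a₂] at h2'
  rw [variableChange_a₆] at h6'
  replace hb6' := n1_div hu _ hb6'
  replace hb8' := n1_div hu _ hb8'
  replace h2' := n1_div hu _ h2'
  replace h6' := n1_div hu _ h6'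
  change E.a₁ ∈ v.integer at h1
  change E.a₂ ∈ v.integer at h2
  change E.a₃ ∈ v.integer at h3
  change E.a₄ ∈ v.integer at h4
  change E.a₆ ∈ v.integer at h6
  change E.b₂ ∈ v.integer at hb2
  change E.b₄ ∈ v.integer at hb4
  change E.b₆ ∈ v.integer at hb6
  change E.b₈ ∈ v.integer at hb8
  -- `r`
  have hr : v r ≤ 1 := by
    by_contra hlt
    rw [not_le] at hlt
    have h23 : v (2 : k) = 1 ∨ v (3 : k) = 1 := by
      by_contra hcon
      rw [not_or] at hcon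
      have l2 : v (2 : k) < 1 := lt_of_le_of_ne g2 hcon.1
      have l3 : v (3 : k) < 1 := lt_of_le_of_ne g3 hcon.2
      have e : (1 : k) = 3 - 2 := by norm_num
      have := Valuation.map_sub_lt v l3 l2
      rw [← e, map_one] at this
      exact lt_irrefl _ this
    rcases h23 with h | h
    · have e4 : v (4 : k) = 1 := by
        have : (4 : k) = 2 * 2 := by norm_num
        rw [this, map_mul, h, one_mul]
      have k1 : 1 < v (4 * r) := m1_unit 4 e4 hlt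
      have k2 := m1_mul hlt (m1_add k1 hb2)
      have k3 := m1_mul hlt (m1_add k2 (mul_mem g2 hb4))
      have k4 := m1_add k3 hb6
      have e : E.b₆ + 2 * r * E.b₄ + r ^ 2 * E.b₂ + 4 * r ^ 3 = r * (r * (4 * r + E.b₂) + 2 * E.b₄) + E.b₆ := by ring
      rw [e] at hb6'
      exact absurd hb6' (not_le.2 k4)
    · have k1 : 1 < v (3 * r) := m1_unit 3 h hlt
      have k2 := m1_mul hlt (m1_add k1 hb2)
      have k3 := m1_mul hlt (m1_add k2 (mul_mem g3 hb4))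
      have k4 := m1_mul hlt (m1_add k3 (mul_mem g3 hb6))
      have k5 := m1_add k4 hb8
      have e : E.b₈ + 3 * r * E.b₆ + 3 * r ^ 2 * E.b₄ + r ^ 3 * E.b₂ + 3 * r ^ 4 =
        r * (r * (r * (3 * r + E.b₂) + 3 * E.b₄) + 3 * E.b₆) + E.b₈ := by ring
      rw [e] at hb8'
      exact absurd hb8' (not_le.2 k5)
  have hr' : r ∈ v.integer := hr
  -- a quadratic equation
  have quad : ∀ x b c : k, x ^ 2 + b * x = c → b ∈ v.integer → c ∈ v.integer → v x ≤ 1 := by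
    intro x b c e hb hc
    by_contra hlt
    rw [not_le] at hlt
    have k1 := m1_mul hlt (m1_add hlt hb)
    have e' : x * (x + b) = c := by rw [← e]; ring
    rw [e'] at k1
    exact absurd hc (not_le.2 k1)
  refine ⟨hr, quad s E.a₁ (E.a₂ + 3 * r - (E.a₂ - s * E.a₁ + 3 * r - s ^ 2)) (by ring) h1 ?_,
    quad t (E.a₃ + r * E.a₁) (E.a₆ + r * E.a₄ + r ^ 2 * E.a₂ + r ^ 3 -
      (E.a₆ + r * E.a₄ + r ^ 2 * E.a₂ + r ^ 3 - t * E.a₃ - t ^ 2 - r * t * E.a₁)) (by ring) ?_ ?_⟩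
  · exact sub_mem (add_mem h2 (mul_mem g3 hr')) h2'
  · exact add_mem h3 (mul_mem hr' h1)
  · exact sub_mem (add_mem (add_mem (add_mem h6 (mul_mem hr' h4)) (mul_mem (pow_mem hr' 2) h2)) (pow_mem hr' 3)) h6'

end H28I
end

-- from Lib.H28I.N2
section

/-! # H28I, part N: one step towards a minimal equation -/

open NumberField IsDedekindDomain WeierstrassCurve

namespace H28I

open H55P (IQ embF eF LF Per IsHecke Pt ac Inert Dec Nm)
open H35P (WAB Ker tt GoodW IntW)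
open H55K (xc yc)
open H13D

theorem n2_a1 (W : WeierstrassCurve ℤ) : (W⁄ℚ).a₁ = (W.a₁ : ℚ) := by simp [WeierstrassCurve.baseChange]
theorem n2_a2 (W : WeierstrassCurve ℤ) : (W⁄ℚ).a₂ = (W.a₂ : ℚ) := by simp [WeierstrassCurve.baseChange]
theorem n2_a3 (W : WeierstrassCurve ℤ) : (W⁄ℚ).a₃ = (W.a₃ : ℚ) := by simp [WeierstrassCurve.baseChange]
theorem n2_a4 (W : WeierstrassCurve ℤ) : (W⁄ℚ).a₄ = (W.a₄ : ℚ) := by simp [WeierstrassCurve.baseChange]
theorem n2_a6 (W : WeierstrassCurve ℤ) : (W⁄ℚ).a₆ = (W.a₆ : ℚ) := by simp [WeierstrassCurve.baseChange]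
theorem n2_D (W : WeierstrassCurve ℤ) : (W⁄ℚ).Δ = (W.Δ : ℚ) := by simp [WeierstrassCurve.baseChange]

theorem n2_c {l : ℕ} [Fact l.Prime] {k : ℕ} {c : ℚˣ} (hc : (c : ℚ) = (l : ℚ) ^ k) (i : ℕ) (n : ℤ) {x : ℚ}
    (hx : x = ((c⁻¹ : ℚˣ) : ℚ) ^ i * (n : ℚ)) (hv : Rat.padicValuation l x ≤ 1) : ∃ z : ℤ, x = z := by
  apply int_of_val (n := n) (m := k * i) _ hv
  rw [hx, pow_mul, ← hc]
  have : ((c⁻¹ : ℚˣ) : ℚ) ^ i * (c : ℚ) ^ i = 1 := by rw [← mul_pow, Units.inv_mul, one_pow]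
  linear_combination (n : ℚ) * this

/-- Chunk N2 (S/M). E₁ is integral at l and its coefficients are integers divided by powers of l (variableChange_a₁, ..: l^i a_i' is a polynomial with integral coefficients in the a_i, r₀, s₀, t₀): int_of_val for each of them. -/
theorem int_model {l : ℕ} [Fact l.Prime] (W : WeierstrassCurve ℤ) {k : ℕ} {c : ℚˣ} (hc : (c : ℚ) = (l : ℚ) ^ k) (r₀ s₀ t₀ : ℤ)
    (h : H13D.VI (Rat.padicValuation l) ((⟨c, r₀, s₀, t₀⟩ : VariableChange ℚ) • (W⁄ℚ))) :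
    ∃ W₁ : WeierstrassCurve ℤ, W₁⁄ℚ = (⟨c, r₀, s₀, t₀⟩ : VariableChange ℚ) • (W⁄ℚ) := by
  obtain ⟨h1, h2, h3, h4, h6⟩ := h
  obtain ⟨z1, e1⟩ := n2_c hc 1 (W.a₁ + 2 * s₀) (by
    rw [variableChange_a₁, n2_a1]; push_cast; ring) h1
  obtain ⟨z2, e2⟩ := n2_c hc 2 (W.a₂ - s₀ * W.a₁ + 3 * r₀ - s₀ ^ 2) (by
    rw [variableChange_a₂, n2_a1, n2_a2]; push_cast; ring) h2
  obtain ⟨z3, e3⟩ := n2_c hc 3 (W.a₃ + r₀ * W.a₁ + 2 * t₀) (by
    rw [variableChange_a₃, n2_a1, n2_a3]; push_cast; ring) h3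
  obtain ⟨z4, e4⟩ := n2_c hc 4 (W.a₄ - s₀ * W.a₃ + 2 * r₀ * W.a₂ - (t₀ + r₀ * s₀) * W.a₁ + 3 * r₀ ^ 2 - 2 * s₀ * t₀) (by
    rw [variableChange_a₄, n2_a1, n2_a2, n2_a3, n2_a4]; push_cast; ring) h4
  obtain ⟨z6, e6⟩ := n2_c hc 6 (W.a₆ + r₀ * W.a₄ + r₀ ^ 2 * W.a₂ + r₀ ^ 3 - t₀ * W.a₃ - t₀ ^ 2 - r₀ * t₀ * W.a₁) (by
    rw [variableChange_a₆, n2_a1, n2_a2, n2_a3, n2_a4, n2_a6]; push_cast; ring) h6
  refine ⟨⟨z1, z2, z3, z4, z6⟩, ?_⟩
  apply WeierstrassCurve.ext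
  · rw [n2_a1, e1]
  · rw [n2_a2, e2]
  · rw [n2_a3, e3]
  · rw [n2_a4, e4]
  · rw [n2_a6, e6]

/-- Chunk N2 (M). v = Rat.padicValuation l, C = ⟨u, r, s, t⟩, intL_iff. The discriminant of C • (W⁄ℚ) is W.Δ/u^12 and has value 1, v(W.Δ) < 1, so v(u) < 1: u = l^k ε, k ≥ 1 (split_val). vi_unit: E' = ⟨l^k, r, s, t⟩ • (W⁄ℚ) is integral; vi_rst: r, s, t have value ≤ 1. approx_int: integers r₀ for (r, 2k), s₀ for (s, k), t₀ for (t + s (r₀ - r), 3k).
vi_comp with r' = (r₀ - r)/l^(2k), s' = (s₀ - s)/l^k, t' = (t₀ - t - s (r₀ - r))/l^(3k): ⟨l^k, r₀, s₀, t₀⟩ • (W⁄ℚ) = ⟨1, r', s', t'⟩ • E', integral (vi_change). int_model: W₁. W₁.Δ l^(12 k) = W.Δ: smaller absolute value. -/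
theorem min_step {l : ℕ} (hl : l.Prime) (W : WeierstrassCurve ℤ) (hW : W.Δ ≠ 0) (hd : (l : ℤ) ∣ W.Δ) {C : VariableChange ℚ}
    (hC : IntL (C • (W⁄ℚ)) l) : ∃ (W₁ : WeierstrassCurve ℤ) (C₁ : VariableChange ℚ), W₁⁄ℚ = C₁ • (W⁄ℚ) ∧ W₁.Δ.natAbs < W.Δ.natAbs := by
  haveI : Fact l.Prime := ⟨hl⟩
  obtain ⟨hVI, hΔ⟩ := (intL_iff _).1 hC
  obtain ⟨u, r, s, t⟩ := C
  have hlq : (l : ℚ) ≠ 0 := by exact_mod_cast hl.ne_zero
  have hE : H13D.VI (Rat.padicValuation l) (W⁄ℚ) := by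
    constructor
    · rw [n2_a1]; exact n0_int_le _
    · rw [n2_a2]; exact n0_int_le _
    · rw [n2_a3]; exact n0_int_le _
    · rw [n2_a4]; exact n0_int_le _
    · rw [n2_a6]; exact n0_int_le _
  have hD1 : Rat.padicValuation l (W.Δ : ℚ) < 1 :=
    lt_of_le_of_ne (n0_int_le _) (fun h => (n0_int.1 h) hd)
  have hu : Rat.padicValuation l (u : ℚ) < 1 := by
    by_contra hcon
    rw [not_lt] at hcon
    rw [variableChange_Δ, n2_D, map_mul, map_pow] at hΔ
    have h1 : Rat.padicValuation l ((u⁻¹ : ℚˣ) : ℚ) ≤ 1 := by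
      rw [Units.val_inv_eq_inv_val, map_inv₀]
      exact inv_le_one_of_one_le₀ hcon
    have h2 : Rat.padicValuation l ((u⁻¹ : ℚˣ) : ℚ) ^ 12 * Rat.padicValuation l (W.Δ : ℚ) < 1 :=
      lt_of_le_of_lt (mul_le_of_le_one_left' (pow_le_one' h1 12)) hD1
    exact absurd hΔ h2.ne
  obtain ⟨k, ε, hk, hε, hue⟩ := split_val u.ne_zero hu
  have hε0 : ε ≠ 0 := by
    intro h
    rw [h, map_zero] at hε
    exact zero_ne_one hε
  obtain ⟨c, hc⟩ : ∃ c : ℚˣ, (c : ℚ) = (l : ℚ) ^ k := ⟨Units.mk0 _ (pow_ne_zero k hlq), rfl⟩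
  obtain ⟨e, he⟩ : ∃ e : ℚˣ, (e : ℚ) = ε := ⟨Units.mk0 _ hε0, rfl⟩
  have hu' : u = c * e := by
    ext
    rw [Units.val_mul, hc, he, hue]
  rw [hu'] at hVI
  have h1 := vi_unit (v := Rat.padicValuation l) (by rw [he]; exact hε) hVI
  have hlv : Rat.padicValuation l (l : ℚ) ≤ 1 := by
    have := n0_int_le (l := l) (l : ℤ)
    push_cast at this
    exact this
  have hcv : Rat.padicValuation l (c : ℚ) ≤ 1 := by
    rw [hc, map_pow]
    exact pow_le_one' hlv k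
  obtain ⟨hr, hs, ht⟩ := vi_rst hE hcv h1
  obtain ⟨r₀, hr₀⟩ := approx_int hr (2 * k)
  obtain ⟨s₀, hs₀⟩ := approx_int hs k
  have hrr : Rat.padicValuation l ((r₀ : ℚ) - r) ≤ 1 := by
    refine (Valuation.map_sub _ _ _).trans (max_le (n0_int_le _) hr)
  have ht' : Rat.padicValuation l (t + s * ((r₀ : ℚ) - r)) ≤ 1 := by
    refine (Valuation.map_add _ _ _).trans (max_le ht ?_)
    rw [map_mul]
    exact mul_le_one' hs hrr
  obtain ⟨t₀, ht₀⟩ := approx_int ht' (3 * k)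
  have h2 := vi_change h1 hr₀ hs₀ ht₀
  rw [vi_comp, hc] at h2
  have hl2 : (l : ℚ) ^ k ≠ 0 := pow_ne_zero _ hlq
  have f1 : r + ((l : ℚ) ^ k) ^ 2 * (((r₀ : ℚ) - r) / (l : ℚ) ^ (2 * k)) = (r₀ : ℚ) := by
    rw [mul_comm 2 k, pow_mul]
    field_simp
    ring
  have f2 : s + (l : ℚ) ^ k * (((s₀ : ℚ) - s) / (l : ℚ) ^ k) = (s₀ : ℚ) := by
    field_simp
    ring
  have f3 : t + ((l : ℚ) ^ k) ^ 3 * (((t₀ : ℚ) - (t + s * ((r₀ : ℚ) - r))) / (l : ℚ) ^ (3 * k)) +
      ((l : ℚ) ^ k) ^ 2 * s * (((r₀ : ℚ) - r) / (l : ℚ) ^ (2 * k)) = (t₀ : ℚ) := by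
    rw [mul_comm 2 k, mul_comm 3 k, pow_mul, pow_mul]
    field_simp
    ring
  rw [f1, f2, f3] at h2
  obtain ⟨W₁, hW₁⟩ := int_model W hc r₀ s₀ t₀ h2
  refine ⟨W₁, ⟨c, r₀, s₀, t₀⟩, hW₁, ?_⟩
  have hD : (W₁.Δ : ℚ) = ((c⁻¹ : ℚˣ) : ℚ) ^ 12 * (W.Δ : ℚ) := by
    have := congrArg WeierstrassCurve.Δ hW₁
    rw [variableChange_Δ, n2_D, n2_D] at this
    exact this
  have hD2 : W₁.Δ * (l : ℤ) ^ (k * 12) = W.Δ := by
    have : (W₁.Δ : ℚ) * (l : ℚ) ^ (k * 12) = (W.Δ : ℚ) := by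
      rw [hD, pow_mul, ← hc]
      have : ((c⁻¹ : ℚˣ) : ℚ) ^ 12 * (c : ℚ) ^ 12 = 1 := by rw [← mul_pow, Units.inv_mul, one_pow]
      linear_combination (W.Δ : ℚ) * this
    exact_mod_cast this
  have hW1 : W₁.Δ ≠ 0 := by
    intro h
    rw [h, zero_mul] at hD2
    exact hW hD2.symm
  rw [← hD2, Int.natAbs_mul, Int.natAbs_pow, Int.natAbs_natCast]
  have hp : 1 < l ^ (k * 12) := Nat.one_lt_pow (by omega) hl.one_lt
  have hpos : 0 < W₁.Δ.natAbs := Int.natAbs_pos.2 hW1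
  nlinarith

end H28I
end

-- from Lib.H28I.N3
section

/-! # H28I, part N: minimal equations exist -/

open NumberField IsDedekindDomain WeierstrassCurve

namespace H28I

open H55P (IQ embF eF LF Per IsHecke Pt ac Inert Dec Nm)
open H35P (WAB Ker tt GoodW IntW)
open H55K (xc yc)
open H13D

theorem n3_c (d : ℕ) {i : ℕ} (hi : 1 ≤ i) (x : ℚ) (h : x.den ∣ d) : ∃ z : ℤ, (d : ℚ) ^ i * x = z := by
  obtain ⟨m, hm⟩ := h
  obtain ⟨j, rfl⟩ : ∃ j, i = j + 1 := ⟨i - 1, by omega⟩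
  refine ⟨(d : ℤ) ^ j * m * x.num, ?_⟩
  have hxd : x * (x.den : ℚ) = (x.num : ℚ) := Rat.mul_den_eq_num x
  have hd : (d : ℚ) = (x.den : ℚ) * (m : ℚ) := by exact_mod_cast hm
  push_cast
  rw [← hxd, pow_succ]
  linear_combination ((d : ℚ) ^ j * x) * hd

/-- Chunk N3 (S/M). d = the product of the denominators of the coefficients; ⟨1/d, 0, 0, 0⟩ • E has the coefficients d^i a_i, which are integers. -/
theorem exists_int (E : WeierstrassCurve ℚ) : ∃ (W : WeierstrassCurve ℤ) (C : VariableChange ℚ), W⁄ℚ = C • E := by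
  obtain ⟨d, hd⟩ : ∃ d : ℕ, d = E.a₁.den * E.a₂.den * E.a₃.den * E.a₄.den * E.a₆.den := ⟨_, rfl⟩
  have hd0 : (d : ℚ) ≠ 0 := by
    rw [hd]
    push_cast
    have h : ∀ x : ℚ, (x.den : ℚ) ≠ 0 := fun x => by exact_mod_cast x.den_ne_zero
    exact mul_ne_zero (mul_ne_zero (mul_ne_zero (mul_ne_zero (h _) (h _)) (h _)) (h _)) (h _)
  obtain ⟨z1, e1⟩ := n3_c d (i := 1) le_rfl E.a₁ (by rw [hd]; exact ⟨E.a₂.den * E.a₃.den * E.a₄.den * E.a₆.den, by ring⟩)
  obtain ⟨z2, e2⟩ := n3_c d (i := 2) (by norm_num) E.a₂ (by rw [hd]; exact ⟨E.a₁.den * E.a₃.den * E.a₄.den * E.a₆.den, by ring⟩)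
  obtain ⟨z3, e3⟩ := n3_c d (i := 3) (by norm_num) E.a₃ (by rw [hd]; exact ⟨E.a₁.den * E.a₂.den * E.a₄.den * E.a₆.den, by ring⟩)
  obtain ⟨z4, e4⟩ := n3_c d (i := 4) (by norm_num) E.a₄ (by rw [hd]; exact ⟨E.a₁.den * E.a₂.den * E.a₃.den * E.a₆.den, by ring⟩)
  obtain ⟨z6, e6⟩ := n3_c d (i := 6) (by norm_num) E.a₆ (by rw [hd]; exact ⟨E.a₁.den * E.a₂.den * E.a₃.den * E.a₄.den, by ring⟩)
  refine ⟨⟨z1, z2, z3, z4, z6⟩, ⟨(Units.mk0 (d : ℚ) hd0)⁻¹, 0, 0, 0⟩, ?_⟩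
  apply WeierstrassCurve.ext
  · rw [n2_a1, variableChange_a₁, ← e1]
    simp
  · rw [n2_a2, variableChange_a₂, ← e2]
    simp
  · rw [n2_a3, variableChange_a₃, ← e3]
    simp
  · rw [n2_a4, variableChange_a₄, ← e4]
    simp
  · rw [n2_a6, variableChange_a₆, ← e6]
    simp

/-- Chunk N3 (S/M). Among the W over ℤ with W⁄ℚ = C • E for some C take one with |W.Δ| minimal (Nat.find or WellFounded.min; exists_int). W.Δ ≠ 0 because E.Δ ≠ 0 (variableChange_Δ). If l divides W.Δ and C' • (W⁄ℚ) is IntL then min_step contradicts the minimality (C₁ • C • E = (C₁ * C) • E: mul_smul). -/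
theorem min_ex (E : WeierstrassCurve ℚ) (hE : E.Δ ≠ 0) : ∃ (W : WeierstrassCurve ℤ) (C : VariableChange ℚ), W⁄ℚ = C • E ∧ W.Δ ≠ 0 ∧ MinZ W := by
  classical
  let S : Set ℕ := {n | ∃ (W : WeierstrassCurve ℤ) (C : VariableChange ℚ), W⁄ℚ = C • E ∧ W.Δ.natAbs = n}
  have hS : S.Nonempty := by
    obtain ⟨W, C, h⟩ := exists_int E
    exact ⟨_, W, C, h, rfl⟩
  obtain ⟨W, C, h, hn⟩ := Nat.sInf_mem hS
  have hD : W.Δ ≠ 0 := by
    intro h0
    have h1 := congrArg WeierstrassCurve.Δ h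
    rw [n2_D, variableChange_Δ, h0] at h1
    have h2 : ((C.u⁻¹ : ℚˣ) : ℚ) ^ 12 ≠ 0 := pow_ne_zero _ (Units.ne_zero _)
    exact mul_ne_zero h2 hE (by rw [← h1]; norm_num)
  refine ⟨W, C, h, hD, ?_⟩
  intro l hl hd C' hC'
  obtain ⟨W₁, C₁, h1, h2⟩ := min_step hl W hD hd hC'
  have h3 : W₁.Δ.natAbs ∈ S := ⟨W₁, C₁ * C, by rw [h1, h, mul_smul], rfl⟩
  have h4 := Nat.sInf_le h3
  rw [← hn] at h4
  omega

/-- Chunk N3 (S). min_ex for WAB A B (its c₄ is -48 A, its c₆ is -864 B, its discriminant -16 (4 A^3 + 27 B^2)); variableChange_c₄, c₆: mu = u. -/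
theorem min_short {A B : ℚ} (hd : 4 * A ^ 3 + 27 * B ^ 2 ≠ 0) : ∃ (W : WeierstrassCurve ℤ) (mu : ℚ), mu ≠ 0 ∧ W.Δ ≠ 0 ∧ MinZ W ∧
    A = mu ^ 4 * sA W ℚ ∧ B = mu ^ 6 * sB W ℚ := by
  have hE : (WAB A B).Δ ≠ 0 := by
    have e : (WAB A B).Δ = -16 * (4 * A ^ 3 + 27 * B ^ 2) := by
      simp only [WAB, WeierstrassCurve.Δ, WeierstrassCurve.b₂, WeierstrassCurve.b₄, WeierstrassCurve.b₆, WeierstrassCurve.b₈]
      ring
    rw [e]
    exact mul_ne_zero (by norm_num) hd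
  obtain ⟨W, C, h, hD, hM⟩ := min_ex (WAB A B) hE
  have e4 : (WAB A B).c₄ = -48 * A := by
    simp only [WAB, WeierstrassCurve.c₄, WeierstrassCurve.b₂, WeierstrassCurve.b₄]
    ring
  have e6 : (WAB A B).c₆ = -864 * B := by
    simp only [WAB, WeierstrassCurve.c₆, WeierstrassCurve.b₂, WeierstrassCurve.b₄, WeierstrassCurve.b₆]
    ring
  have f4 : (W⁄ℚ).c₄ = (W.c₄ : ℚ) := by simp [WeierstrassCurve.baseChange]
  have f6 : (W⁄ℚ).c₆ = (W.c₆ : ℚ) := by simp [WeierstrassCurve.baseChange]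
  have g4 := congrArg WeierstrassCurve.c₄ h
  have g6 := congrArg WeierstrassCurve.c₆ h
  rw [f4, variableChange_c₄, e4] at g4
  rw [f6, variableChange_c₆, e6] at g6
  have hu : (C.u : ℚ) * ((C.u⁻¹ : ℚˣ) : ℚ) = 1 := Units.mul_inv _
  have hu4 : (C.u : ℚ) ^ 4 * ((C.u⁻¹ : ℚˣ) : ℚ) ^ 4 = 1 := by rw [← mul_pow, hu, one_pow]
  have hu6 : (C.u : ℚ) ^ 6 * ((C.u⁻¹ : ℚˣ) : ℚ) ^ 6 = 1 := by rw [← mul_pow, hu, one_pow]
  refine ⟨W, (C.u : ℚ), Units.ne_zero _, hD, hM, ?_, ?_⟩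
  · rw [sA, g4]
    linear_combination (-A) * hu4
  · rw [sB, g6]
    linear_combination (-B) * hu6

end H28I
end

-- from Lib.H28I.N5
section

/-! # H28I, part N: rational points of order 2 and the discriminant -/

open NumberField IsDedekindDomain WeierstrassCurve

namespace H28I

open H55P (IQ embF eF LF Per IsHecke Pt ac Inert Dec Nm)
open H35P (WAB Ker tt GoodW IntW)
open H55K (xc yc)

/-- Chunk N5 (M). Suppose b₂ is even and Δ is odd. b₂ = a₁^2 + 4 a₂: a₁ is even, 4 divides b₂; b₄ = 2 a₄ + a₁ a₃ is even. Δ = - b₂^2 b₈ - 8 b₄^3 - 27 b₆^2 + 9 b₂ b₄ b₆ is odd, so b₆ is odd. x = m/n in lowest terms: 4 m^3 + b₂ m^2 n + 2 b₄ m n^2 + b₆ n^3 = 0. n odd: 4 divides b₆ n^3, contradiction.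
n even, m odd: modulo 8: b₂ m^2 n, 2 b₄ m n^2 and b₆ n^3 are divisible by 8, 4 m^3 is not. -/
theorem even_disc (W : WeierstrassCurve ℤ) (hb : (2 : ℤ) ∣ W.b₂) {x : ℚ}
    (hx : 4 * x ^ 3 + W.b₂ * x ^ 2 + 2 * W.b₄ * x + W.b₆ = 0) : (2 : ℤ) ∣ W.Δ := by
  by_contra hD
  have ha1 : (2 : ℤ) ∣ W.a₁ := by
    have h1 : (2 : ℤ) ∣ W.a₁ ^ 2 := by
      have h2 := hb
      rw [WeierstrassCurve.b₂] at h2
      omega
    exact Int.prime_two.dvd_of_dvd_pow h1
  obtain ⟨c, hc⟩ := ha1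
  have e2 : W.b₂ = 4 * (c ^ 2 + W.a₂) := by
    rw [WeierstrassCurve.b₂, hc]
    ring
  have e4 : W.b₄ = 2 * (W.a₄ + c * W.a₃) := by
    rw [WeierstrassCurve.b₄, hc]
    ring
  have h6 : ¬ (2 : ℤ) ∣ W.b₆ := by
    rintro ⟨k, hk⟩
    apply hD
    rw [WeierstrassCurve.Δ, e2, e4, hk]
    exact ⟨-(8 * (c ^ 2 + W.a₂) ^ 2 * W.b₈) - 32 * (W.a₄ + c * W.a₃) ^ 3 - 54 * k ^ 2 +
      72 * (c ^ 2 + W.a₂) * (W.a₄ + c * W.a₃) * k, by ring⟩
  have hd : (x.den : ℚ) ≠ 0 := by exact_mod_cast x.den_ne_zero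
  have hxe : x * (x.den : ℚ) = (x.num : ℚ) := by
    exact_mod_cast Rat.mul_den_eq_num x
  have hq : 4 * (x.num : ℚ) ^ 3 + W.b₂ * (x.num : ℚ) ^ 2 * (x.den : ℚ) + 2 * W.b₄ * (x.num : ℚ) * (x.den : ℚ) ^ 2 +
      W.b₆ * (x.den : ℚ) ^ 3 = 0 := by
    rw [← hxe]
    linear_combination (x.den : ℚ) ^ 3 * hx
  have hz : 4 * x.num ^ 3 + W.b₂ * x.num ^ 2 * (x.den : ℤ) + 2 * W.b₄ * x.num * (x.den : ℤ) ^ 2 +
      W.b₆ * (x.den : ℤ) ^ 3 = 0 := by
    exact_mod_cast hq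
  have hcop : IsCoprime x.num (x.den : ℤ) := by
    rw [Int.isCoprime_iff_gcd_eq_one]
    exact x.reduced
  rw [e2, e4] at hz
  have hn : (2 : ℤ) ∣ (x.den : ℤ) := by
    have h1 : (2 : ℤ) ∣ W.b₆ * (x.den : ℤ) ^ 3 := by
      refine ⟨-(2 * x.num ^ 3 + 2 * (c ^ 2 + W.a₂) * x.num ^ 2 * (x.den : ℤ) +
        2 * (W.a₄ + c * W.a₃) * x.num * (x.den : ℤ) ^ 2), ?_⟩
      linear_combination hz
    rcases Int.prime_two.dvd_or_dvd h1 with h2 | h2
    · exact absurd h2 h6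
    · exact Int.prime_two.dvd_of_dvd_pow h2
  obtain ⟨n', hn'⟩ := hn
  have hm : (2 : ℤ) ∣ x.num := by
    have h1 : (2 : ℤ) ∣ x.num ^ 3 := by
      refine ⟨-((c ^ 2 + W.a₂) * x.num ^ 2 * n' + 2 * (W.a₄ + c * W.a₃) * x.num * n' ^ 2 + W.b₆ * n' ^ 3), ?_⟩
      rw [hn'] at hz
      linarith
    exact Int.prime_two.dvd_of_dvd_pow h1
  have h2 : (2 : ℤ) ∣ 1 := by
    obtain ⟨a, b, hab⟩ := hcop
    rw [← hab]
    exact dvd_add (Dvd.dvd.mul_left hm a) (Dvd.dvd.mul_left ⟨n', hn'⟩ b)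
  norm_num at h2

/-- Chunk N5 (S). four_f (E4.lean) for k = ℚ, e₀ = e - b₂/12. -/
theorem even_disc' (W : WeierstrassCurve ℤ) (hb : (2 : ℤ) ∣ W.b₂) {e : ℚ} (he : e ^ 3 + sA W ℚ * e + sB W ℚ = 0) : (2 : ℤ) ∣ W.Δ := by
  have h1 := (four_f W (e - (W.b₂ : ℚ) / 12)).1
  rw [sub_add_cancel, he, mul_zero] at h1
  exact even_disc W hb h1.symm

/-- Chunk N5 (S). c₄ = b₂^2 - 24 b₄. -/
theorem even_b2 (W : WeierstrassCurve ℤ) (h : (2 : ℤ) ∣ W.c₄) : (2 : ℤ) ∣ W.b₂ := by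
  have h1 : (2 : ℤ) ∣ W.b₂ ^ 2 := by
    rw [WeierstrassCurve.c₄] at h
    omega
  exact Int.prime_two.dvd_of_dvd_pow h1

/-- Chunk N5 (S). c₄ = 0: b₂^2 = 24 b₄, so 3 divides b₂, 9 divides 24 b₄, 3 divides b₄; Δ = - b₂^2 b₈ - 8 b₄^3 - 27 b₆^2 + 9 b₂ b₄ b₆. -/
theorem three_disc (W : WeierstrassCurve ℤ) (h : W.c₄ = 0) : (3 : ℤ) ∣ W.Δ := by
  rw [WeierstrassCurve.c₄] at h
  have h2 : (3 : ℤ) ∣ W.b₂ := by
    have h1 : (3 : ℤ) ∣ W.b₂ ^ 2 := ⟨8 * W.b₄, by linear_combination h⟩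
    exact Int.prime_three.dvd_of_dvd_pow h1
  obtain ⟨d, hd⟩ := h2
  have h4 : (3 : ℤ) ∣ W.b₄ := by
    rw [hd] at h
    have h1 : (3 : ℤ) ∣ 8 * W.b₄ := ⟨d ^ 2, by linarith⟩
    omega
  obtain ⟨f, hf⟩ := h4
  rw [WeierstrassCurve.Δ, hd, hf]
  exact ⟨-(3 * d ^ 2 * W.b₈) - 72 * f ^ 3 - 9 * W.b₆ ^ 2 + 27 * d * f * W.b₆, by ring⟩

end H28I
end

-- from Lib.H28I.N6
section

/-! # H28I, part N: the four families -/

open NumberField IsDedekindDomain WeierstrassCurve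

namespace H28I

open H55P (IQ embF eF LF Per IsHecke Pt ac Inert Dec Nm)
open H35P (WAB Ker tt GoodW IntW)
open H55K (xc yc)

/-- Chunk N6 (S/M). 1728 Δ = c₄^3 - c₆^2: Δ = -16 (4 A^3 + 27 B^2) with A = sA, B = sB. -/
theorem disc_sAB (W : WeierstrassCurve ℤ) : (W.Δ : ℚ) = -16 * (4 * sA W ℚ ^ 3 + 27 * sB W ℚ ^ 2) ∧ (W.c₄ : ℚ) = -48 * sA W ℚ := by
  have h1 := W.c_relation
  have h2 : (1728 : ℚ) * (W.Δ : ℚ) = (W.c₄ : ℚ) ^ 3 - (W.c₆ : ℚ) ^ 2 := by
    exact_mod_cast h1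
  constructor
  · rw [sA, sB]
    linear_combination h2 / 1728
  · rw [sA]
    ring

/-- Chunk N6 (M). The scaling. (A, B) = (mu^4 sA W, mu^6 sB W), (A', B') = (sA W', sB W'); e/mu^2, t/mu^4, u/mu^6, lam = 1/mu. vi: divide the equations by powers of mu. quo: disc_sAB for both, hk. -/
theorem ip_scale {W W' : WeierstrassCurve ℤ} {A B e t u mu : ℚ} {kap : ℤ} (hmu : mu ≠ 0) (hA : A = mu ^ 4 * sA W ℚ) (hB : B = mu ^ 6 * sB W ℚ)
    (h : VI A B (sA W' ℚ) (sB W' ℚ) e t u)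
    (hk : 4 * sA W' ℚ ^ 3 + 27 * sB W' ℚ ^ 2 = kap * (4 * A ^ 3 + 27 * B ^ 2)) (kd : ∃ n : ℕ, kap ∣ W.Δ ^ n) (k6 : ∃ n : ℕ, kap ∣ 6 ^ n)
    (two : u = 0 → (2 : ℤ) ∣ W.Δ ∨ (¬ (2 : ℤ) ∣ W.b₂ ∧ ∃ a b : ℤ, ¬ (2 : ℤ) ∣ b ∧ t / mu ^ 4 = a / b))
    (three : u ≠ 0 → (3 : ℤ) ∣ W.Δ) : IP W W' kap (e / mu ^ 2) (t / mu ^ 4) (u / mu ^ 6) mu⁻¹ := by
  subst hA hB
  have h12 : mu ^ 12 ≠ 0 := pow_ne_zero 12 hmu
  refine ⟨inv_ne_zero hmu, ⟨?_, ?_, ?_, ?_, ?_⟩, ?_, kd, k6, ?_, ?_⟩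
  · intro h0
    apply h.disc
    linear_combination mu ^ 12 * h0
  · intro h0
    apply h.disc'
    have h1 : 4 * (mu⁻¹ ^ 4 * sA W' ℚ) ^ 3 + 27 * (mu⁻¹ ^ 6 * sB W' ℚ) ^ 2 =
        mu⁻¹ ^ 12 * (4 * sA W' ℚ ^ 3 + 27 * sB W' ℚ ^ 2) := by
      ring
    rw [h1] at h0
    rcases mul_eq_zero.1 h0 with h2 | h2
    · exact absurd h2 (pow_ne_zero 12 (inv_ne_zero hmu))
    · exact h2
  · rw [h.hA]
    field_simp
  · rw [h.hB]
    field_simp
  · rcases h.cs with ⟨h1, h2, h3⟩ | ⟨h1, h2, h3⟩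
    · left
      refine ⟨by rw [h1, zero_div], ?_, ?_⟩
      · have h4 : (e / mu ^ 2) ^ 3 + sA W ℚ * (e / mu ^ 2) + sB W ℚ =
            (e ^ 3 + mu ^ 4 * sA W ℚ * e + mu ^ 6 * sB W ℚ) / mu ^ 6 := by
          field_simp
        rw [h4, h2, zero_div]
      · rw [h3]
        field_simp
    · right
      refine ⟨?_, ?_, ?_⟩
      · rw [h1]
        field_simp
      · rw [h2]
        field_simp
      · have h4 : 3 * (e / mu ^ 2) ^ 4 + 6 * sA W ℚ * (e / mu ^ 2) ^ 2 + 12 * sB W ℚ * (e / mu ^ 2) - sA W ℚ ^ 2 =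
            (3 * e ^ 4 + 6 * (mu ^ 4 * sA W ℚ) * e ^ 2 + 12 * (mu ^ 6 * sB W ℚ) * e - (mu ^ 4 * sA W ℚ) ^ 2) / mu ^ 8 := by
          field_simp
        rw [h4, h3, zero_div]
  · rw [(disc_sAB W).1, (disc_sAB W').1, hk]
    field_simp
  · intro h0
    have h1 : u = 0 := by
      rcases div_eq_zero_iff.1 h0 with h2 | h2
      · exact h2
      · exact absurd h2 (pow_ne_zero 6 hmu)
    exact two h1
  · intro h0
    apply three
    rintro rfl
    exact h0 (zero_div _)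

/-- Chunk N6 (S/M). D = -12: e = a, t = 3 a^2, u = 0, kap = -16: VI: 1st case. sA W = 0 (mu ≠ 0), so c₄ = 0 (disc_sAB), b₂ is even (even_b2), e/mu^2 is a root of x^3 + sA W x + sB W: 2 divides Δ (even_disc'), -16 divides Δ^4. jint: disc_sAB for W'. -/
theorem fam12 {W W' : WeierstrassCurve ℤ} {a mu : ℚ} (ha : a ≠ 0) (hmu : mu ≠ 0) (hA : 0 = mu ^ 4 * sA W ℚ) (hB : -a ^ 3 = mu ^ 6 * sB W ℚ)
    (hA' : sA W' ℚ = -15 * a ^ 2) (hB' : sB W' ℚ = -22 * a ^ 3) :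
    IP W W' (-16) (a / mu ^ 2) (3 * a ^ 2 / mu ^ 4) (0 / mu ^ 6) mu⁻¹ ∧ W'.c₄ ^ 3 = 54000 * W'.Δ := by
  have ha6 : a ^ 6 ≠ 0 := pow_ne_zero 6 ha
  have hs : sA W ℚ = 0 := by
    rcases mul_eq_zero.1 hA.symm with h1 | h1
    · exact absurd h1 (pow_ne_zero 4 hmu)
    · exact h1
  have hc4 : W.c₄ = 0 := by
    have h1 := (disc_sAB W).2
    rw [hs, mul_zero] at h1
    exact_mod_cast h1
  have hb2 : (2 : ℤ) ∣ W.b₂ := even_b2 W (by rw [hc4]; exact dvd_zero 2)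
  have hroot : (a / mu ^ 2) ^ 3 + sA W ℚ * (a / mu ^ 2) + sB W ℚ = 0 := by
    have h4 : (a / mu ^ 2) ^ 3 + sA W ℚ * (a / mu ^ 2) + sB W ℚ =
        (a ^ 3 + mu ^ 4 * sA W ℚ * a + mu ^ 6 * sB W ℚ) / mu ^ 6 := by
      field_simp
    rw [h4, ← hA, ← hB]
    ring
  have hΔ : (2 : ℤ) ∣ W.Δ := even_disc' W hb2 hroot
  refine ⟨ip_scale hmu hA hB ⟨?_, ?_, ?_, ?_, ?_⟩ ?_ ⟨4, ?_⟩ ⟨4, ?_⟩ (fun _ => Or.inl hΔ) (fun h => absurd rfl h), ?_⟩
  · have h1 : 4 * (0 : ℚ) ^ 3 + 27 * (-a ^ 3) ^ 2 = 27 * a ^ 6 := by ring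
    rw [h1]
    exact mul_ne_zero (by norm_num) ha6
  · rw [hA', hB']
    have h1 : 4 * (-15 * a ^ 2) ^ 3 + 27 * (-22 * a ^ 3) ^ 2 = -432 * a ^ 6 := by ring
    rw [h1]
    exact mul_ne_zero (by norm_num) ha6
  · rw [hA']
    ring
  · rw [hB']
    ring
  · left
    exact ⟨rfl, by ring, by ring⟩
  · rw [hA', hB']
    push_cast
    ring
  · obtain ⟨k, hk⟩ := hΔ
    exact ⟨-k ^ 4, by rw [hk]; ring⟩
  · exact ⟨-81, by norm_num⟩
  · have h1 := (disc_sAB W').1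
    have h2 := (disc_sAB W').2
    rw [hA', hB'] at h1
    rw [hA'] at h2
    have h3 : (W'.c₄ : ℚ) ^ 3 = 54000 * (W'.Δ : ℚ) := by
      rw [h1, h2]
      ring
    exact_mod_cast h3

/-- Chunk N6 (S/M). D = -16: e = a, t = 2 a^2, u = 0, kap = 8. c₄^3 = 1728 Δ for W (disc_sAB: sB W = 0), so c₄ is even (2 divides c₄^3), b₂ is even, 2 divides Δ, 8 divides Δ^3. -/
theorem fam16 {W W' : WeierstrassCurve ℤ} {a mu : ℚ} (ha : a ≠ 0) (hmu : mu ≠ 0) (hA : -a ^ 2 = mu ^ 4 * sA W ℚ) (hB : 0 = mu ^ 6 * sB W ℚ)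
    (hA' : sA W' ℚ = -11 * a ^ 2) (hB' : sB W' ℚ = -14 * a ^ 3) :
    IP W W' 8 (a / mu ^ 2) (2 * a ^ 2 / mu ^ 4) (0 / mu ^ 6) mu⁻¹ ∧ W'.c₄ ^ 3 = 287496 * W'.Δ := by
  have ha6 : a ^ 6 ≠ 0 := pow_ne_zero 6 ha
  have hs : sB W ℚ = 0 := by
    rcases mul_eq_zero.1 hB.symm with h1 | h1
    · exact absurd h1 (pow_ne_zero 6 hmu)
    · exact h1
  have hc : W.c₄ ^ 3 = 1728 * W.Δ := by
    have h1 := (disc_sAB W).1
    have h2 := (disc_sAB W).2
    rw [hs] at h1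
    have h3 : (W.c₄ : ℚ) ^ 3 = 1728 * (W.Δ : ℚ) := by
      rw [h1, h2]
      ring
    exact_mod_cast h3
  have hc4 : (2 : ℤ) ∣ W.c₄ := by
    have h1 : (2 : ℤ) ∣ W.c₄ ^ 3 := ⟨864 * W.Δ, by rw [hc]; ring⟩
    exact Int.prime_two.dvd_of_dvd_pow h1
  have hb2 : (2 : ℤ) ∣ W.b₂ := even_b2 W hc4
  have hroot : (a / mu ^ 2) ^ 3 + sA W ℚ * (a / mu ^ 2) + sB W ℚ = 0 := by
    have h4 : (a / mu ^ 2) ^ 3 + sA W ℚ * (a / mu ^ 2) + sB W ℚ =
        (a ^ 3 + mu ^ 4 * sA W ℚ * a + mu ^ 6 * sB W ℚ) / mu ^ 6 := by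
      field_simp
    rw [h4, ← hA, ← hB]
    ring
  have hΔ : (2 : ℤ) ∣ W.Δ := even_disc' W hb2 hroot
  refine ⟨ip_scale hmu hA hB ⟨?_, ?_, ?_, ?_, ?_⟩ ?_ ⟨3, ?_⟩ ⟨3, ?_⟩ (fun _ => Or.inl hΔ) (fun h => absurd rfl h), ?_⟩
  · have h1 : 4 * (-a ^ 2) ^ 3 + 27 * (0 : ℚ) ^ 2 = -4 * a ^ 6 := by ring
    rw [h1]
    exact mul_ne_zero (by norm_num) ha6
  · rw [hA', hB']
    have h1 : 4 * (-11 * a ^ 2) ^ 3 + 27 * (-14 * a ^ 3) ^ 2 = -32 * a ^ 6 := by ring
    rw [h1]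
    exact mul_ne_zero (by norm_num) ha6
  · rw [hA']
    ring
  · rw [hB']
    ring
  · left
    exact ⟨rfl, by ring, by ring⟩
  · rw [hA', hB']
    push_cast
    ring
  · obtain ⟨k, hk⟩ := hΔ
    exact ⟨k ^ 3, by rw [hk]; ring⟩
  · exact ⟨27, by norm_num⟩
  · have h1 := (disc_sAB W').1
    have h2 := (disc_sAB W').2
    rw [hA', hB'] at h1
    rw [hA'] at h2
    have h3 : (W'.c₄ : ℚ) ^ 3 = 287496 * (W'.Δ : ℚ) := by
      rw [h1, h2]
      ring
    exact_mod_cast h3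

end H28I
end

-- from Lib.H28I.N7
section

/-! # H28I, part N: the four families, continued -/

open NumberField IsDedekindDomain WeierstrassCurve

namespace H28I

open H55P (IQ embF eF LF Per IsHecke Pt ac Inert Dec Nm)
open H35P (WAB Ker tt GoodW IntW)
open H55K (xc yc)

/-- Chunk N7 (S/M). D = -27: e = 4 a, t = 96 a^2, u = 192 a^3, kap = 9: VI: 2nd case (e^3 - 16 a^3 = 48 a^3, 3 e^4 - 192 a^3 e = 0). c₄ = 0, three_disc: 3 divides Δ, 9 divides Δ^2. -/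
theorem fam27 {W W' : WeierstrassCurve ℤ} {a mu : ℚ} (ha : a ≠ 0) (hmu : mu ≠ 0) (hA : 0 = mu ^ 4 * sA W ℚ) (hB : -16 * a ^ 3 = mu ^ 6 * sB W ℚ)
    (hA' : sA W' ℚ = -480 * a ^ 2) (hB' : sB W' ℚ = -4048 * a ^ 3) :
    IP W W' 9 (4 * a / mu ^ 2) (96 * a ^ 2 / mu ^ 4) (192 * a ^ 3 / mu ^ 6) mu⁻¹ ∧ W'.c₄ ^ 3 = -12288000 * W'.Δ := by
  have h0 : sA W ℚ = 0 := by
    have h1 : mu ^ 4 ≠ 0 := pow_ne_zero _ hmu
    rcases mul_eq_zero.mp hA.symm with h | h
    · exact absurd h h1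
    · exact h
  have hc : W.c₄ = 0 := by
    have h1 := (disc_sAB W).2
    rw [h0, mul_zero] at h1
    exact_mod_cast h1
  have h3 : (3 : ℤ) ∣ W.Δ := three_disc W hc
  have ha2 : a ^ 2 ≠ 0 := pow_ne_zero _ ha
  have ha3 : a ^ 3 ≠ 0 := pow_ne_zero _ ha
  have ha6 : a ^ 6 ≠ 0 := pow_ne_zero _ ha
  refine ⟨ip_scale (A := 0) (B := -16 * a ^ 3) hmu hA hB ?_ ?_ ⟨2, ?_⟩ ⟨2, ?_⟩ ?_ ?_, ?_⟩
  · refine ⟨?_, ?_, ?_, ?_, Or.inr ⟨?_, ?_, ?_⟩⟩
    · intro h
      apply ha6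
      linarith
    · rw [hA', hB']
      intro h
      apply ha6
      linarith
    · rw [hA']
      ring
    · rw [hB']
      ring
    · ring
    · ring
    · ring
  · rw [hA', hB']
    push_cast
    ring
  · obtain ⟨d, hd⟩ := h3
    exact ⟨d ^ 2, by rw [hd]; ring⟩
  · norm_num
  · intro h
    exfalso
    apply ha3
    linarith
  · intro _
    exact h3
  · have h1 := (disc_sAB W').1
    have h2 := (disc_sAB W').2
    rw [hA', hB'] at h1
    rw [hA'] at h2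
    have h4 : ((W'.c₄ : ℚ)) ^ 3 = -12288000 * (W'.Δ : ℚ) := by
      rw [h1, h2]
      ring
    exact_mod_cast h4

/-- Chunk N7 (M). D = -28: e = -7 a, t = 112 a^2, u = 0, kap = -1 (kd, k6 with n = 0). two: suppose 2 does not divide Δ. c₄^3 = -3375 Δ for W (disc_sAB), so c₄ and hence b₂ is odd (c₄ = b₂^2 - 24 b₄); t/mu^4 = 112 a^2/mu^4 = c₄/15 (sA W = -35 a^2/mu^4 = -c₄/48). -/
theorem fam28 {W W' : WeierstrassCurve ℤ} {a mu : ℚ} (ha : a ≠ 0) (hmu : mu ≠ 0) (hA : -35 * a ^ 2 = mu ^ 4 * sA W ℚ)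
    (hB : 98 * a ^ 3 = mu ^ 6 * sB W ℚ) (hA' : sA W' ℚ = -595 * a ^ 2) (hB' : sB W' ℚ = 5586 * a ^ 3) :
    IP W W' (-1) (-7 * a / mu ^ 2) (112 * a ^ 2 / mu ^ 4) (0 / mu ^ 6) mu⁻¹ ∧ W'.c₄ ^ 3 = 16581375 * W'.Δ := by
  have hm4 : mu ^ 4 ≠ 0 := pow_ne_zero _ hmu
  have hm6 : mu ^ 6 ≠ 0 := pow_ne_zero _ hmu
  have ha6 : a ^ 6 ≠ 0 := pow_ne_zero _ ha
  have hsA : sA W ℚ = -35 * a ^ 2 / mu ^ 4 := by
    rw [eq_div_iff hm4, hA]
    ring
  have hsB : sB W ℚ = 98 * a ^ 3 / mu ^ 6 := by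
    rw [eq_div_iff hm6, hB]
    ring
  have hc3 : W.c₄ ^ 3 = -3375 * W.Δ := by
    have h1 := (disc_sAB W).1
    have h2 := (disc_sAB W).2
    rw [hsA, hsB] at h1
    rw [hsA] at h2
    have h4 : ((W.c₄ : ℚ)) ^ 3 = -3375 * (W.Δ : ℚ) := by
      rw [h1, h2]
      field_simp
      ring
    exact_mod_cast h4
  have ht : 112 * a ^ 2 / mu ^ 4 = ((W.c₄ : ℤ) : ℚ) / ((15 : ℤ) : ℚ) := by
    have h2 := (disc_sAB W).2
    rw [hsA] at h2
    rw [h2]
    push_cast
    ring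
  refine ⟨ip_scale (A := -35 * a ^ 2) (B := 98 * a ^ 3) hmu hA hB ?_ ?_ ⟨0, ?_⟩ ⟨0, ?_⟩ ?_ ?_, ?_⟩
  · refine ⟨?_, ?_, ?_, ?_, Or.inl ⟨rfl, ?_, ?_⟩⟩
    · intro h
      apply ha6
      linarith
    · rw [hA', hB']
      intro h
      apply ha6
      linarith
    · rw [hA']
      ring
    · rw [hB']
      ring
    · ring
    · ring
  · rw [hA', hB']
    push_cast
    ring
  · exact ⟨-1, by norm_num⟩
  · norm_num
  · intro _
    by_cases h2 : (2 : ℤ) ∣ W.Δ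
    · exact Or.inl h2
    · right
      refine ⟨?_, W.c₄, 15, by norm_num, ht⟩
      intro hb
      apply h2
      have hc : (2 : ℤ) ∣ W.c₄ := by
        have h3 : W.c₄ = W.b₂ ^ 2 - 24 * W.b₄ := rfl
        rw [h3]
        obtain ⟨d, hd⟩ := hb
        exact ⟨2 * d ^ 2 - 12 * W.b₄, by rw [hd]; ring⟩
      have h4 : (2 : ℤ) ∣ -3375 * W.Δ := by
        rw [← hc3]
        exact dvd_pow hc (by norm_num)
      rcases Int.prime_two.dvd_mul.mp h4 with h5 | h5
      · norm_num at h5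
      · exact h5
  · intro h
    exact absurd rfl h
  · have h1 := (disc_sAB W').1
    have h2 := (disc_sAB W').2
    rw [hA', hB'] at h1
    rw [hA'] at h2
    have h4 : ((W'.c₄ : ℚ)) ^ 3 = 16581375 * (W'.Δ : ℚ) := by
      rw [h1, h2]
      ring
    exact_mod_cast h4

end H28I
end

-- from Lib.H28T.AQ3A
section

open NumberField IsDedekindDomain

namespace H28T

open H55P
open H55K.TQ

variable {F : Type} [Field F] [NumberField F] [IQ F]

/-- Chunk AQ3A (M), pure Galois theory. K₀/ℚ Galois of degree p^k, p odd. Ω = AlgebraicClosure F, ι : K₀ →ₐ[ℚ] Ω (IsAlgClosed.lift), E = KG F K₀ ι = adjoin F (range ι) (H55K/RD.lean), finite over F (finitely many generators or adjoin of a basis; H55K/FB1.lean, T-part files: finDim of KG). E/F is Galois: E is generated over F by the elements ι x, the conjugates over F of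
ι x are among the ι(σ x), σ in Gal(K₀/ℚ) (K₀/ℚ normal: the minimal polynomial of ι x over F divides the one over ℚ, which splits in K₀): IntermediateField.normal_iff... or: every s : Ω ≃ₐ[F] Ω maps E to E (kg_stable-like; s (ι x) = ι (σ x), AlgHom.restrictNormal / Normal.algHomEquivAut), IntermediateField.normal_iff_forall_map_le'.
res : Gal(E/F) → Gal(K₀/ℚ), g (ι x) = ι (res g x) (restriction g.restrictScalars ℚ to the normal subfield K₀: AlgEquiv.restrictNormalHom K₀ with the algebra K₀ → E). Injective: E is generated by F and ι K₀. Surjective: the fixed field of the range R of res in K₀ consists of x with ι x fixed by Gal(E/F), so ι x in F (IsGalois.mem_bot_iff_fixed);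
it is a subfield of K₀ isomorphic to a subfield of F, so its degree over ℚ divides p^k and divides 2 = [F:ℚ] (IQ.deg; Module.finrank_mul_finrank, or finrank ≤ 2 and dividing p^k with p ≥ 3), so it is 1: fixedField R = ⊥, R = ⊤ (IsGalois Galois correspondence: IntermediateField.fixingSubgroup_fixedField). The degree of E/F is the order of Gal(K₀/ℚ), p^k. -/
theorem aq3a_comp {p : ℕ} (hp : p.Prime) (h2 : p ≠ 2) (K₀ : Type) [Field K₀] [NumberField K₀] [IsGalois ℚ K₀] {k : ℕ}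
    (hk : Module.finrank ℚ K₀ = p ^ k) :
    ∃ (E : Type) (_ : Field E) (_ : NumberField E) (_ : Algebra F E) (_ : Algebra K₀ E) (e : (E ≃ₐ[F] E) ≃* (K₀ ≃ₐ[ℚ] K₀)),
      IsGalois F E ∧ Module.finrank F E = p ^ k ∧
      ∀ (g : E ≃ₐ[F] E) (x : K₀), g (algebraMap K₀ E x) = algebraMap K₀ E (e g x) := by
  have hFq : Algebra.IsQuadraticExtension ℚ F := ⟨IQ.deg⟩
  have hFn : Normal ℚ F := Algebra.IsQuadraticExtension.normal ℚ F
  have hFg : IsGalois ℚ F := ⟨⟩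
  let φ : K₀ →ₐ[ℚ] AlgebraicClosure ℚ := IsAlgClosed.lift
  let ψ : F →ₐ[ℚ] AlgebraicClosure ℚ := IsAlgClosed.lift
  let A := φ.fieldRange
  let B := ψ.fieldRange
  let eA : K₀ ≃ₐ[ℚ] A := φ.equivFieldRange
  let eB : F ≃ₐ[ℚ] B := ψ.equivFieldRange
  have hA : Module.finrank ℚ A = p ^ k := by rw [← eA.toLinearEquiv.finrank_eq, hk]
  have hB : Module.finrank ℚ B = 2 := by rw [← eB.toLinearEquiv.finrank_eq, IQ.deg]
  have fA : FiniteDimensional ℚ A := eA.toLinearEquiv.finiteDimensional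
  have fB : FiniteDimensional ℚ B := eB.toLinearEquiv.finiteDimensional
  have gA : IsGalois ℚ A := IsGalois.of_algEquiv eA
  have gB : IsGalois ℚ B := IsGalois.of_algEquiv eB
  have hlin : A.LinearDisjoint B := by
    apply IntermediateField.LinearDisjoint.of_finrank_coprime
    rw [hA, hB]
    exact Nat.Coprime.pow_left _ ((Nat.coprime_primes hp Nat.prime_two).2 h2)
  have hEf := hlin.finrank_sup
  rw [hA, hB] at hEf
  have fE : FiniteDimensional ℚ ↥(A ⊔ B) := IntermediateField.finiteDimensional_sup A B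
  have nA : Normal ℚ A := gA.to_normal
  have nB : Normal ℚ B := gB.to_normal
  have nAB : Normal ℚ ↥(A ⊔ B) := @IntermediateField.normal_sup ℚ (AlgebraicClosure ℚ) _ _ _ A B nA nB
  have gE : IsGalois ℚ ↥(A ⊔ B) := { to_normal := nAB }
  have nE : NumberField ↥(A ⊔ B) := ⟨⟩
  let iK : K₀ →ₐ[ℚ] ↥(A ⊔ B) := (IntermediateField.inclusion le_sup_left).comp eA.toAlgHom
  let iF : F →ₐ[ℚ] ↥(A ⊔ B) := (IntermediateField.inclusion le_sup_right).comp eB.toAlgHom
  let aK : Algebra K₀ ↥(A ⊔ B) := iK.toRingHom.toAlgebra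
  let aF : Algebra F ↥(A ⊔ B) := iF.toRingHom.toAlgebra
  have tF : IsScalarTower ℚ F ↥(A ⊔ B) := IsScalarTower.of_algebraMap_eq' (Subsingleton.elim _ _)
  have tK : IsScalarTower ℚ K₀ ↥(A ⊔ B) := IsScalarTower.of_algebraMap_eq' (Subsingleton.elim _ _)
  have gFE : IsGalois F ↥(A ⊔ B) := IsGalois.tower_top_of_isGalois ℚ F _
  have fFE : FiniteDimensional F ↥(A ⊔ B) := Module.Finite.of_restrictScalars_finite ℚ F _
  have dFE : Module.finrank F ↥(A ⊔ B) = p ^ k := by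
    have h1 := Module.finrank_mul_finrank ℚ F ↥(A ⊔ B)
    rw [IQ.deg, hEf] at h1
    omega
  -- the restriction
  let res : (↥(A ⊔ B) ≃ₐ[F] ↥(A ⊔ B)) →* (K₀ ≃ₐ[ℚ] K₀) :=
    (AlgEquiv.restrictNormalHom K₀).comp
      { toFun := fun g => g.restrictScalars ℚ
        map_one' := rfl
        map_mul' := fun _ _ => rfl }
  have hres : ∀ (g : ↥(A ⊔ B) ≃ₐ[F] ↥(A ⊔ B)) (x : K₀),
      algebraMap K₀ ↥(A ⊔ B) (res g x) = g (algebraMap K₀ ↥(A ⊔ B) x) := fun g x =>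
    AlgEquiv.restrictNormal_commutes (g.restrictScalars ℚ) K₀ x
  have hinj : Function.Injective res := by
    rw [injective_iff_map_eq_one]
    intro g hg
    have h1 : ∀ x : K₀, g (algebraMap K₀ ↥(A ⊔ B) x) = algebraMap K₀ ↥(A ⊔ B) x := by
      intro x
      rw [← hres, hg]
      rfl
    have h2 : ∀ x : F, g (algebraMap F ↥(A ⊔ B) x) = algebraMap F ↥(A ⊔ B) x := fun x => g.commutes x
    -- the subfield of the fixed elements contains A and B
    let Fx : IntermediateField ℚ (AlgebraicClosure ℚ) :=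
      ((IntermediateField.fixedField (Subgroup.zpowers (g.restrictScalars ℚ : ↥(A ⊔ B) ≃ₐ[ℚ] ↥(A ⊔ B)))).map
        (A ⊔ B).val)
    have hAF : A ≤ Fx := by
      rintro _ ⟨x, rfl⟩
      refine ⟨algebraMap K₀ ↥(A ⊔ B) x, ?_, rfl⟩
      rintro ⟨s, hs⟩
      obtain ⟨m, rfl⟩ := Subgroup.mem_zpowers_iff.1 hs
      exact (MulAction.stabilizer (↥(A ⊔ B) ≃ₐ[ℚ] ↥(A ⊔ B)) (algebraMap K₀ ↥(A ⊔ B) x)).zpow_mem
        (show (g.restrictScalars ℚ : ↥(A ⊔ B) ≃ₐ[ℚ] ↥(A ⊔ B)) ∈ _ from h1 x) m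
    have hBF : B ≤ Fx := by
      rintro _ ⟨x, rfl⟩
      refine ⟨algebraMap F ↥(A ⊔ B) x, ?_, rfl⟩
      rintro ⟨s, hs⟩
      obtain ⟨m, rfl⟩ := Subgroup.mem_zpowers_iff.1 hs
      exact (MulAction.stabilizer (↥(A ⊔ B) ≃ₐ[ℚ] ↥(A ⊔ B)) (algebraMap F ↥(A ⊔ B) x)).zpow_mem
        (show (g.restrictScalars ℚ : ↥(A ⊔ B) ≃ₐ[ℚ] ↥(A ⊔ B)) ∈ _ from h2 x) m
    have hle : A ⊔ B ≤ Fx := sup_le hAF hBF
    ext y
    obtain ⟨z, hz, hzy⟩ := hle y.2
    have hz2 : z = y := Subtype.ext hzy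
    have h3 := hz ⟨_, Subgroup.mem_zpowers _⟩
    rw [hz2] at h3
    exact congrArg _ h3
  have hcard : Nat.card (↥(A ⊔ B) ≃ₐ[F] ↥(A ⊔ B)) = Nat.card (K₀ ≃ₐ[ℚ] K₀) := by
    rw [IsGalois.card_aut_eq_finrank, IsGalois.card_aut_eq_finrank, dFE, hk]
  have hbij : Function.Bijective res := (Nat.bijective_iff_injective_and_card res).2 ⟨hinj, hcard⟩
  exact ⟨↥(A ⊔ B), inferInstance, nE, aF, aK, MulEquiv.ofBijective res hbij, gFE, dFE,
    fun g x => (hres g x).symm⟩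

end H28T
end

-- from Lib.H28T.AQ3
section

open NumberField IsDedekindDomain

namespace H28T

open H55P H55R
open H55K.TQ

variable {F : Type} [Field F] [NumberField F] [IQ F] {G : HeightOneSpectrum (𝓞 F) → Prop}

/-- The ramified primes of the compositum. -/
theorem aq3_ram {p B : ℕ} {K₀ : Type} [Field K₀] [NumberField K₀] (h : RatG G p K₀ B) {E : Type} [Field E] [NumberField E]
    [Algebra F E] [Algebra K₀ E] (hG : IsGalois F E) (e : (E ≃ₐ[F] E) ≃* (K₀ ≃ₐ[ℚ] K₀))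
    (he : ∀ (g : E ≃ₐ[F] E) (x : K₀), g (algebraMap K₀ E x) = algebraMap K₀ E (e g x))
    (w : HeightOneSpectrum (𝓞 E)) (hw : w.asIdeal.ramificationIdx (𝓞 F) ≠ 1) (l : ℕ) (hl : l.Prime)
    (hlw : (l : 𝓞 E) ∈ w.asIdeal) : GoodL G l ∧ B < l := by
  obtain ⟨hGK, -, hU⟩ := h
  have hwp := w.isPrime
  have hp : (w.asIdeal.under (𝓞 K₀)).IsPrime := inferInstance
  have hne : w.asIdeal.under (𝓞 K₀) ≠ ⊥ := by
    intro h
    exact w.ne_bot (Ideal.eq_bot_of_comap_eq_bot (R := 𝓞 K₀) (I := w.asIdeal) h)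
  let w₀ : HeightOneSpectrum (𝓞 K₀) := ⟨w.asIdeal.under (𝓞 K₀), hp, hne⟩
  have hlw₀ : (l : 𝓞 K₀) ∈ w₀.asIdeal := by
    show algebraMap (𝓞 K₀) (𝓞 E) (l : 𝓞 K₀) ∈ w.asIdeal
    rwa [map_natCast]
  refine hU w₀ l hl hlw₀ fun hr => hw ?_
  rw [← ge_card E hG w, Subgroup.card_eq_one, Subgroup.eq_bot_iff_forall]
  intro g hg
  have hg1 : e g = 1 := by
    refine H55D.X3_inertia w₀ hr (e g) fun y => ?_
    show algebraMap (𝓞 K₀) (𝓞 E) (e g • y - y) ∈ w.asIdeal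
    have h2 : algebraMap (𝓞 K₀) (𝓞 E) (e g • y) = g • algebraMap (𝓞 K₀) (𝓞 E) y := by
      apply NumberField.RingOfIntegers.ext
      exact (he g _).symm
    rw [map_sub, h2]
    exact hg _
  exact e.injective (hg1.trans (map_one e).symm)

/-- Chunk AQ3 (M), port of H28R.A7_unr (H28R/A7.lean). E from aq3a_comp. Let w be a prime of E, v = w.under (𝓞 F), l the prime number in v (H55D.X3_prime), w₀ = w ∩ 𝓞 K₀. If the ramification index of w over 𝓞 F is not 1, the inertia group of w in Gal(E/F) is not trivial (ge_card, Gen.lean), so there is g ≠ 1 in it; e g is in the inertia group of w₀ (as h1 in A7_unr) and e g ≠ 1, so the ramification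
index of w₀ over ℤ is not 1 (H55D.X3_inertia), so GoodL G l and B < l (h): G v (contraposition gives ExtG), and B < l ≤ absNorm w: l is in w; see the end of mem_factor (A3.lean) or: absNorm w is a power of l... (an integer in w dividing: absNorm w ∈ w, so l ∣ absNorm w since otherwise 1 ∈ w; absNorm w ≠ 0). -/
theorem aq3_of {p : ℕ} (hp : p.Prime) (h2 : p ≠ 2) (K₀ : Type) [Field K₀] [NumberField K₀] {B : ℕ} (h : RatG G p K₀ B) :
    ∃ (E : Type) (_ : Field E) (_ : NumberField E) (_ : Algebra F E) (_ : Algebra K₀ E),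
      PB G p E B ∧ Nonempty ((E ≃ₐ[F] E) ≃* (K₀ ≃ₐ[ℚ] K₀)) := by
  obtain ⟨hGK, ⟨k, hk⟩, hU⟩ := id h
  obtain ⟨E, _, _, _, _, e, hG, hdeg, he⟩ := aq3a_comp (F := F) hp h2 K₀ hk
  refine ⟨E, inferInstance, inferInstance, inferInstance, inferInstance, ⟨⟨hG, ⟨k, hdeg⟩, ?_⟩, ?_⟩, ⟨e⟩⟩
  · intro w v hv hGv
    by_contra hr
    have hm : Ideal.absNorm v.asIdeal ≠ 0 := by
      rw [Ne, Ideal.absNorm_eq_zero_iff]
      exact v.ne_bot
    obtain ⟨l, hl, -, hlv, -⟩ := mem_factor v hm (Ideal.absNorm_mem _)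
    have hlw : (l : 𝓞 E) ∈ w.asIdeal := by
      have h3 := hlv
      rw [hv, Ideal.mem_under, map_natCast] at h3
      exact h3
    exact hGv ((aq3_ram h hG e he w hr l hl hlw).1 v hlv)
  · intro w hr
    have hm : Ideal.absNorm w.asIdeal ≠ 0 := by
      rw [Ne, Ideal.absNorm_eq_zero_iff]
      exact w.ne_bot
    obtain ⟨l, hl, -, hlw, hle⟩ := mem_factor w hm (Ideal.absNorm_mem _)
    exact lt_of_lt_of_le (aq3_ram h hG e he w hr l hl hlw).2 hle

end H28T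
end

-- from Lib.SSG.LP.B
section

/-! # SSG/LP: the points T N for a prime element β -/

open NumberField IsDedekindDomain WeierstrassCurve

namespace SSG.LP

open H55P (IQ embF eF LF Per IsHecke Pt ac Inert Dec)
open H35P (WAB Ker tt)
open H55K

variable {F : Type} [Field F] [NumberField F] [IQ F] {A B : F} {Om : ℂ} {Ω : Type} [Field Ω] [DecidableEq Ω]
  [Algebra F Ω] {j : Ω →+* ℂ} {act : 𝓞 F →+* AddMonoid.End (Pt (WAB A B) Ω)} {β : 𝓞 F} {V : ValuationSubring Ω}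

/-! Chunk B (S/M). PROOF. Copy of SSG/LT/PT.lean with β in place of -p and β^N in place of (-p)^N (no sign questions: h.gen (β^N), eF F (β^N) = (eF F β)^N; eF F β ≠ 0: eF is injective, embF of β ≠ 0). -/

theorem lp_b_one (h : CMA F A B Om j act) (hβ : Prime β) (N : ℕ) : ∃ T₀ : Pt (WAB A B) Ω, (∀ a : 𝓞 F, act a T₀ = 0 ↔ β ^ N ∣ a) ∧
    ∀ a : 𝓞 F, ¬ β ^ N ∣ a →
      j (xc (act a T₀)) = (LF F).weierstrassP (eF F a / (eF F β) ^ N) / Om ^ 2 ∧
      j (yc (act a T₀)) = (LF F).derivWeierstrassP (eF F a / (eF F β) ^ N) / (2 * Om ^ 3) := by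
  have hb : β ^ N ≠ 0 := pow_ne_zero _ hβ.ne_zero
  obtain ⟨T₀, -, -, h1, h2⟩ := h.gen _ hb
  have he : eF F (β ^ N) = (eF F β) ^ N := by rw [map_pow]
  refine ⟨T₀, h1, fun a ha => ?_⟩
  have h3 := h2 a ha
  rw [he] at h3
  exact h3

theorem lp_b_ker (h : CMA F A B Om j act) (hG : GV A B V) (hβ : Prime β) (hv : V.valuation (ak Ω β) < 1) (n : ℕ)
    {X : Pt (WAB A B) Ω} (hX : act (β ^ n) X = 0) : Ker V X := by
  induction n generalizing X with
  | zero =>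
    rw [pow_zero, map_one] at hX
    have h1 : X = 0 := hX
    rw [h1]
    exact ker_zero V
  | succ n ih =>
    rw [pow_succ, map_mul] at hX
    have h1 : act (β ^ n) (act β X) = 0 := hX
    have h2 : Ker V (act β X) := ih h1
    exact ker_red h hG hβ hv h2

theorem pts (h : CMA F A B Om j act) (hG : GV A B V) (hβ : Prime β) (hv : V.valuation (ak Ω β) < 1) :
    ∃ T : ℕ → Pt (WAB A B) Ω, PtsB A B Om j act β V T := by
  choose T hT1 hT2 using fun N => lp_b_one h hβ N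
  have hact1 : ∀ X : Pt (WAB A B) Ω, act 1 X = X := by
    intro X
    rw [map_one]
    rfl
  have hactm : ∀ (a b : 𝓞 F) (X : Pt (WAB A B) Ω), act (a * b) X = act a (act b X) := by
    intro a b X
    rw [map_mul]
    rfl
  refine ⟨T, hT1, ?_, hT2, ?_⟩
  · intro N
    rcases Nat.eq_zero_or_pos N with hN | hN
    · subst hN
      have h1 : T 0 = 0 := by
        rw [← hact1 (T 0), hT1 0 1, pow_zero]
      rw [h1, hT1 (0 + 1)]
      rw [zero_add, pow_one]
    · have h1 : act β (T (N + 1)) ≠ 0 := by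
        rw [Ne, hT1 (N + 1)]
        intro hd
        have h2 : β ^ (N + 1) ∣ β ^ 1 := by rwa [pow_one]
        rw [pow_dvd_pow_iff hβ.ne_zero hβ.not_unit] at h2
        omega
      have h1' : ¬ β ^ (N + 1) ∣ β := fun hd => h1 ((hT1 (N + 1) _).2 hd)
      have h2' : ¬ β ^ N ∣ 1 := by
        intro hd
        exact hβ.not_unit (isUnit_pow_iff hN.ne' |>.1 (isUnit_of_dvd_one hd))
      have h2 : T N ≠ 0 := by
        intro h0
        rw [← hact1 (T N), hT1 N 1] at h0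
        exact h2' h0
      obtain ⟨h3, h4⟩ := hT2 (N + 1) _ h1'
      obtain ⟨h5, h6⟩ := hT2 N 1 h2'
      rw [hact1] at h5 h6
      have he : eF F β / (eF F β) ^ (N + 1) = eF F 1 / (eF F β) ^ N := by
        rw [map_one, pow_succ]
        have h7 : eF F β ≠ 0 := H55P.eF_ne hβ.ne_zero
        field_simp
      rw [he] at h3 h4
      exact pt_ext h1 h2 (j.injective (h3.trans h5.symm)) (j.injective (h4.trans h6.symm))
  · intro N a
    refine lp_b_ker h hG hβ hv N (X := act a (T N)) ?_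
    rw [← hactm, hT1 N]
    exact dvd_mul_right _ _

end SSG.LP
end

-- from Lib.SSG.LP.C
section

/-! # SSG/LP: the product of the parameters of the points killed by β^N -/

open NumberField IsDedekindDomain WeierstrassCurve

namespace SSG.LP

open H55P (IQ embF eF LF Per IsHecke Pt ac Inert Dec)
open H35P (WAB Ker tt)
open H55K H55K.S
open H55P (Nm)

variable {F : Type} [Field F] [NumberField F] [IQ F] {A B : F} {Om : ℂ} {Ω : Type} [Field Ω] [DecidableEq Ω]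
  [Algebra F Ω] {j : Ω →+* ℂ} {act : 𝓞 F →+* AddMonoid.End (Pt (WAB A B) Ω)} {β : 𝓞 F} {V : ValuationSubring Ω}

/-! Chunk C (M). PROOF. Induction on N. N = 0: β^0 = 1: S = ∅. N + 1: S = nonzero points killed by β^(N+1) is the disjoint union of S₁ (nonzero, killed by β) and the fibres of R ↦ act β R over the R' in S_N (exists_TN): fibre of R':
choose Q with act β Q = R' (h.surj); the fibre is {Q} ∪ {Q + R : R in S₁} = image of insert 0 S₁ under Q + . (Finset.prod_fiberwise / prod_biUnion; act β (Q + R) = R'). All these points are in Ker V (tor_ker, ker_red: as in SSG/LT/PT.lean pt_ker, or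
hypothesis-free from H55K), so ker_prod: V(tt Q) prod over S₁ V(tt (Q + R)) = V(tt R'). Product: (prod over S₁) * (prod over S_N) = V(β) V(β)^N. prod over S₁ = V(β): tor_ram gives V(tt R)^(Nm β - 1) = V(β) for every R in S₁
and S₁ has Nm β - 1 elements with equal V(tt R) (pow_left_inj₀). -/

theorem c_ker (h : CMA F A B Om j act) (hG : GV A B V) (hβ : Prime β) (hv : V.valuation (ak Ω β) < 1) (N : ℕ)
    (R : Pt (WAB A B) Ω) (hR : act (β ^ N) R = 0) : Ker V R := by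
  induction N generalizing R with
  | zero =>
    rw [pow_zero, act_one] at hR
    rw [hR]
    exact H55K.ker_zero V
  | succ N ih =>
    rw [pow_succ, act_mul] at hR
    exact ker_red h hG hβ hv (ih _ hR)

theorem c_one (h : CMA F A B Om j act) (hG : GV A B V) (hβ : Prime β) (hv : V.valuation (ak Ω β) < 1)
    {S : Finset (Pt (WAB A B) Ω)} (hS : TN act β S) (hc : S.card = Nm β - 1) :
    ∏ R ∈ S, V.valuation (tt R) = V.valuation (ak Ω β) := by
  obtain ⟨T₀, hT, _, hz, _⟩ := h.gen β hβ.ne_zero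
  have hT0 : T₀ ≠ 0 := by
    intro h0
    have h1 := (hz 1).1 (by rw [act_one, h0])
    exact hβ.not_isUnit (isUnit_of_dvd_one h1)
  have hmem : T₀ ∈ S := (hS T₀).2 ⟨hT, hT0⟩
  have hpos : Nm β - 1 ≠ 0 := by
    rw [← hc]
    exact Finset.card_ne_zero_of_mem hmem
  have hT1 := (tor_ram h hG hβ hv (T := T₀) hT hT0).2
  have hall : ∀ R ∈ S, V.valuation (tt R) = V.valuation (tt T₀) := by
    intro R hR
    obtain ⟨h1, h2⟩ := (hS R).1 hR
    have h3 := (tor_ram h hG hβ hv (T := R) h1 h2).2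
    exact (pow_left_inj₀ zero_le zero_le hpos).1 (h3.trans hT1.symm)
  rw [Finset.prod_congr rfl hall, Finset.prod_const, hc, hT1]

theorem prod_tt (h : CMA F A B Om j act) (hG : GV A B V) (hβ : Prime β) (hv : V.valuation (ak Ω β) < 1) (N : ℕ)
    {S : Finset (Pt (WAB A B) Ω)} (hS : TN act (β ^ N) S) :
    ∏ R ∈ S, V.valuation (tt R) = V.valuation (ak Ω β) ^ N := by
  classical
  induction N generalizing S with
  | zero =>
    have h1 : S = ∅ := by
      refine Finset.eq_empty_of_forall_notMem fun T hT => ?_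
      obtain ⟨h2, h3⟩ := (hS T).1 hT
      rw [pow_zero, act_one] at h2
      exact h3 h2
    rw [h1, Finset.prod_empty, pow_zero]
  | succ N ih =>
    obtain ⟨S₁, hS₁, hc₁⟩ := exists_TN h hβ.ne_zero
    obtain ⟨S', hS', -⟩ := exists_TN h (pow_ne_zero N hβ.ne_zero)
    have e1 : S.filter (fun R => act β R = 0) = S₁ := by
      ext R
      rw [Finset.mem_filter, hS R, hS₁ R, pow_succ, act_mul]
      constructor
      · rintro ⟨⟨_, h2⟩, h3⟩
        exact ⟨h3, h2⟩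
      · rintro ⟨h3, h2⟩
        exact ⟨⟨by rw [h3, map_zero], h2⟩, h3⟩
    have e2 : ∀ R ∈ S.filter (fun R => ¬ act β R = 0), act β R ∈ S' := by
      intro R hR
      rw [Finset.mem_filter, hS R, pow_succ, act_mul] at hR
      exact (hS' _).2 ⟨hR.1.1, hR.2⟩
    have e3 : ∀ R' ∈ S', ∏ R ∈ (S.filter (fun R => ¬ act β R = 0)).filter (fun R => act β R = R'),
        V.valuation (tt R) = V.valuation (tt R') := by
      intro R' hR'
      obtain ⟨h1, h2⟩ := (hS' R').1 hR'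
      obtain ⟨Q, hQ⟩ := h.surj β hβ.ne_zero R'
      have hKQ : Ker V Q := by
        refine ker_red h hG hβ hv ?_
        rw [hQ]
        exact c_ker h hG hβ hv N R' h1
      have hfib : (S.filter (fun R => ¬ act β R = 0)).filter (fun R => act β R = R') =
          insert Q (S₁.image fun R => Q + R) := by
        ext R
        rw [Finset.mem_filter, Finset.mem_filter, hS R, pow_succ, act_mul, Finset.mem_insert, Finset.mem_image]
        constructor
        · rintro ⟨⟨⟨_, h3⟩, h4⟩, h5⟩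
          by_cases h6 : R = Q
          · exact Or.inl h6
          · refine Or.inr ⟨R - Q, (hS₁ _).2 ⟨?_, sub_ne_zero.2 h6⟩, by abel⟩
            rw [map_sub, h5, hQ, sub_self]
        · intro h3
          have h4 : act β R = R' := by
            rcases h3 with rfl | ⟨T, hT, rfl⟩
            · exact hQ
            · rw [map_add, hQ, ((hS₁ T).1 hT).1, add_zero]
          refine ⟨⟨⟨by rw [h4, h1], ?_⟩, by rw [h4]; exact h2⟩, h4⟩
          rintro rfl
          rw [map_zero] at h4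
          exact h2 h4.symm
      have hnot : Q ∉ S₁.image fun R => Q + R := by
        intro h3
        obtain ⟨T, hT, h4⟩ := Finset.mem_image.1 h3
        exact ((hS₁ T).1 hT).2 (left_eq_add.1 h4.symm)
      rw [hfib, Finset.prod_insert hnot, Finset.prod_image (fun a _ b _ hab => add_left_cancel hab),
        ker_prod h hG hβ hv hS₁ hKQ, hQ]
    rw [← Finset.prod_filter_mul_prod_filter_not S (fun R => act β R = 0), e1, c_one h hG hβ hv hS₁ hc₁,
      ← Finset.prod_fiberwise_of_maps_to e2, Finset.prod_congr rfl e3, ih hS', pow_succ']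

end SSG.LP
end

-- from Lib.SSG.LT.PA3
section

/-! # SSG/LT: act c and finite sums -/

open NumberField IsDedekindDomain WeierstrassCurve

namespace SSG.LT

open H55P (IQ Pt)
open H35P (WAB Ker tt)
open H55K

variable {C : Type} [NormedField C] [IsUltrametricDist C] [CompleteSpace C] {X ι : Type} [Fintype ι] {τ : ι → X → C}
  {F : Type} [Field F] [NumberField F] [IQ F] {A B : F} {Om : ℂ} {Ω : Type} [Field Ω] [DecidableEq Ω]
  [Algebra F Ω] {j : Ω →+* ℂ} {act : 𝓞 F →+* AddMonoid.End (Pt (WAB A B) Ω)} {V : ValuationSubring Ω}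

/-! Chunk PA3 (S/M). PROOF. zero: tt 0 = 0. neg: H55K.tt_neg, kneg. n • P: induction. act c P = act (c + n) P + -(n • P) with V(c + n) = 1: H55K.exists_shift, g4c_split (G4C.lean; from V(Nm(c+n)) = 1 to V(ak (c+n)) = 1: see act_unit there,
tt_act_unit; ak_le and Nm = product with an integer: used in G4C). PC.act_unit, PC.add. Sum: Finset.induction_on. -/
theorem PC.zero (hτ : ∀ i x, ‖τ i x‖ ≤ 1) {i : Ω →+* C} : PC V i τ fun _ => (0 : Pt (WAB A B) Ω) := by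
  have _ := hτ
  have e0 : i (tt (0 : Pt (WAB A B) Ω)) = 0 := map_zero i
  refine ⟨fun _ => trivial, ⟨0, zero_lt_one, fun x => ?_⟩, ?_⟩
  · rw [e0, norm_zero]
  · exact (Cl.const (τ := τ) (a := (0 : C)) (by rw [norm_zero]; exact zero_le_one)).congr fun x => e0

theorem PC.neg (hτ : ∀ i x, ‖τ i x‖ ≤ 1) {i : Ω →+* C} {P : X → Pt (WAB A B) Ω} (hP : PC V i τ P) :
    PC V i τ fun x => - P x := by
  have e : ∀ x, i (tt (- P x)) = - i (tt (P x)) := fun x => by rw [tt_neg, map_neg]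
  obtain ⟨ρ, hρ, hs⟩ := hP.small
  refine ⟨fun x => kneg (hP.ker x), ⟨ρ, hρ, fun x => ?_⟩, (hP.cl.neg hτ).congr e⟩
  rw [e x, norm_neg]
  exact hs x

/-- natural multiples -/
theorem pa3_nsmul (hτ : ∀ i x, ‖τ i x‖ ≤ 1) {i : Ω →+* C} (hi : ∀ x, x ∈ V ↔ ‖i x‖ ≤ 1)
    (hV : GV A B V) {P : X → Pt (WAB A B) Ω} (hP : PC V i τ P) (n : ℕ) : PC V i τ fun x => n • P x := by
  induction n with
  | zero =>
    have h1 : (fun x => 0 • P x) = fun _ => (0 : Pt (WAB A B) Ω) := funext fun x => zero_smul _ _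
    rw [h1]
    exact PC.zero hτ
  | succ n ih =>
    have h1 : (fun x => (n + 1) • P x) = fun x => n • P x + P x := funext fun x => succ_nsmul _ _
    rw [h1]
    exact PC.add hτ hi hV ih hP

omit [DecidableEq Ω] in
theorem pa3_unit {a : 𝓞 F} (ha : V.valuation (H55P.Nm a : Ω) = 1) : V.valuation (ak Ω a) = 1 := by
  have e1 : ak Ω a * ak Ω (H55K.cj a) = (H55P.Nm a : Ω) := by
    have e2 : ak Ω (a * H55K.cj a) = ak Ω ((H55P.Nm a : 𝓞 F)) := by rw [mul_cj]
    have e3 : ak Ω (a * H55K.cj a) = ak Ω a * ak Ω (H55K.cj a) := by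
      show algebraMap F Ω (algebraMap (𝓞 F) F (a * H55K.cj a)) =
        algebraMap F Ω (algebraMap (𝓞 F) F a) * algebraMap F Ω (algebraMap (𝓞 F) F (H55K.cj a))
      rw [map_mul, map_mul]
    have e4 : ak Ω ((H55P.Nm a : 𝓞 F)) = (H55P.Nm a : Ω) := by
      show algebraMap F Ω (algebraMap (𝓞 F) F ((H55P.Nm a : 𝓞 F))) = _
      rw [map_natCast, map_natCast]
    rw [← e3, e2, e4]
  have e5 : V.valuation (ak Ω a) * V.valuation (ak Ω (H55K.cj a)) = 1 := by
    rw [← map_mul, e1, ha]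
  refine le_antisymm (ak_le V a) ?_
  rw [← e5]
  exact mul_le_of_le_one_right zero_le (ak_le V (H55K.cj a))

theorem PC.act_all (hτ : ∀ i x, ‖τ i x‖ ≤ 1) {i : Ω →+* C} (hi : ∀ x, x ∈ V ↔ ‖i x‖ ≤ 1) (h : CMA F A B Om j act)
    (hV : GV A B V) (c : 𝓞 F) {P : X → Pt (WAB A B) Ω} (hP : PC V i τ P) :
    PC V i τ fun x => act c (P x) := by
  obtain ⟨n, _, hn⟩ := exists_shift hV c
  have h1 : (fun x => act c (P x)) = fun x => act (c + (n : 𝓞 F)) (P x) + -(n • P x) :=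
    funext fun x => g4c_split act c n (P x)
  rw [h1]
  exact PC.add hτ hi hV (PC.act_unit hτ hi h hV (pa3_unit hn) hP) (PC.neg hτ (pa3_nsmul hτ hi hV hP n))

theorem PC.sum (hτ : ∀ i x, ‖τ i x‖ ≤ 1) {i : Ω →+* C} (hi : ∀ x, x ∈ V ↔ ‖i x‖ ≤ 1)
    (hV : GV A B V) {κ : Type} (s : Finset κ) {P : κ → X → Pt (WAB A B) Ω} (hP : ∀ k ∈ s, PC V i τ (P k)) :
    PC V i τ fun x => ∑ k ∈ s, P k x := by
  classical
  induction s using Finset.induction_on with
  | empty =>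
    have h1 : (fun x => ∑ k ∈ (∅ : Finset κ), P k x) = fun _ => (0 : Pt (WAB A B) Ω) := funext fun x => Finset.sum_empty
    rw [h1]
    exact PC.zero hτ
  | insert k s hk ih =>
    have h1 : (fun x => ∑ l ∈ insert k s, P l x) = fun x => P k x + ∑ l ∈ s, P l x := funext fun x => Finset.sum_insert hk
    rw [h1]
    exact PC.add hτ hi hV (hP k (Finset.mem_insert_self k s)) (ih fun l hl => hP l (Finset.mem_insert_of_mem hl))

end SSG.LT
end

-- from Lib.SSG.LP.F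
section

/-! # SSG/LP: the coordinates -/

open NumberField IsDedekindDomain WeierstrassCurve

namespace SSG.LP

open H55P (IQ embF eF LF Per IsHecke Pt ac Inert Dec)
open H35P (WAB Ker tt)
open H55K SSG.LT

variable {F : Type} [Field F] [NumberField F] [IQ F] {A B : F} {Om : ℂ} {Ω : Type} [Field Ω] [DecidableEq Ω]
  [Algebra F Ω] {j : Ω →+* ℂ} {act : 𝓞 F →+* AddMonoid.End (Pt (WAB A B) Ω)} {β : 𝓞 F} {V : ValuationSubring Ω}
  {C : Type} [NormedField C] [IsUltrametricDist C] [CompleteSpace C] {i : Ω →+* C} {T : ℕ → Pt (WAB A B) Ω}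

/-- The action of an integer on the point of order `β ^ N` depends only on its class. -/
theorem f_eq (hT : PtsB A B Om j act β V T) {N : ℕ} {a b : 𝓞 F} (hab : β ^ N ∣ a - b) : act a (T N) = act b (T N) := by
  have h1 := (hT.zero N (a - b)).2 hab
  rw [H55K.S.act_sub] at h1
  exact sub_eq_zero.1 h1

/-- The class of the representative. -/
theorem f_out {N : ℕ} (a : 𝓞 F) :
    β ^ N ∣ (Quotient.out (Ideal.Quotient.mk (Ideal.span {β ^ N}) a) : 𝓞 F) - a := by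
  rw [← Ideal.mem_span_singleton, ← Ideal.Quotient.eq]
  exact Ideal.Quotient.mk_out _

/-! Chunk F1 (S). PROOF. act a (T N) depends on a modulo β^N only (zero: act (a - b) (T N) = 0): X N = Quotient.lift, or X N q = i (tt (act q.out (T N))) with mk_out. -/
theorem f_exists (hT : PtsB A B Om j act β V T) : ∃ X : ∀ N, RB β N → C, ∀ N (a : 𝓞 F),
    X N (Ideal.Quotient.mk _ a) = i (tt (act a (T N))) := by
  refine ⟨fun N q => i (tt (act (Quotient.out q : 𝓞 F) (T N))), fun N a => ?_⟩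
  show i (tt (act (Quotient.out (Ideal.Quotient.mk (Ideal.span {β ^ N}) a) : 𝓞 F) (T N))) = _
  rw [f_eq hT (f_out a)]

/-! F2 (S/M). xm1_bd (b = β^N). -/
theorem f_small (h : CMA F A B Om j act) (hG : GV A B V) (hβ : Prime β) (hi : ∀ x, x ∈ V ↔ ‖i x‖ ≤ 1)
    (hT : PtsB A B Om j act β V T) {X : ∀ N, RB β N → C} (hX : ∀ N (a : 𝓞 F), X N (Ideal.Quotient.mk _ a) = i (tt (act a (T N))))
    (N : ℕ) : ∃ ρ : ℝ, ρ < 1 ∧ ∀ a, ‖X N a‖ ≤ ρ := by
  obtain ⟨ρ, hρ, h1⟩ := xm1_bd h hG i hi (pow_ne_zero N hβ.ne_zero) ((hT.zero N (β ^ N)).2 dvd_rfl) (hT.ker N)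
  refine ⟨ρ, hρ, fun q => ?_⟩
  obtain ⟨a, rfl⟩ := Ideal.Quotient.mk_surjective q
  rw [hX]
  exact h1 a

/-! F3 (M). le: f_small. inj: Ideal.Quotient.mk_surjective, xm1_inj (i injective), act a (T N) = act b (T N) iff β^N ∣ a - b. zero: act 0 = 0, tt 0 = 0. neg: tt_neg. add: fn2_of_cl; the family P x = act (a + b) (T N) over G × G, a, b representatives
(Quotient.out), is a sum of two families P₁ x = act x.1.out (T N), P₂ x = act x.2.out (T N); each is PC V i τ (ker, small, cl: Cl.var 0, Cl.var 1 with congr: X (x.1) = i (tt (act x.1.out (T N))) by hX and mk_out); PC.add; X (a + b) = i (tt (P₁ + P₂)). -/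
theorem f_fg (h : CMA F A B Om j act) (hG : GV A B V) (hβ : Prime β) (hi : ∀ x, x ∈ V ↔ ‖i x‖ ≤ 1)
    (hT : PtsB A B Om j act β V T) {X : ∀ N, RB β N → C} (hX : ∀ N (a : 𝓞 F), X N (Ideal.Quotient.mk _ a) = i (tt (act a (T N))))
    (N : ℕ) : H35M.FG (X N) := by
  classical
  obtain ⟨ρ, hρ, hs⟩ := f_small h hG hβ hi hT hX N
  have hle : ∀ a, ‖X N a‖ ≤ 1 := fun a => (hs a).trans hρ.le
  have hXo : ∀ q : RB β N, X N q = i (tt (act (Quotient.out q : 𝓞 F) (T N))) := by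
    intro q
    rw [← hX, Ideal.Quotient.mk_out]
  refine ⟨hle, ?_, ?_, ?_, ?_⟩
  · intro q q' hqq
    obtain ⟨a, rfl⟩ := Ideal.Quotient.mk_surjective q
    obtain ⟨b, rfl⟩ := Ideal.Quotient.mk_surjective q'
    rw [hX, hX] at hqq
    have h1 := xm1_inj hG (hT.ker N a) (hT.ker N b) (i.injective hqq)
    rw [Ideal.Quotient.eq, Ideal.mem_span_singleton, ← hT.zero N, H55K.S.act_sub, h1, sub_self]
  · have h1 := hX N 0
    rw [map_zero (Ideal.Quotient.mk (Ideal.span {β ^ N})), H55K.S.act_zero] at h1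
    rw [h1]
    exact map_zero i
  · intro q
    obtain ⟨a, rfl⟩ := Ideal.Quotient.mk_surjective q
    rw [← map_neg (Ideal.Quotient.mk (Ideal.span {β ^ N})), hX, hX, H55K.S.act_neg, tt_neg, map_neg]
  · obtain ⟨τ, hτd⟩ : ∃ τ : Fin 2 → RB β N × RB β N → C, τ = fun k x => if k = 0 then X N x.1 else X N x.2 := ⟨_, rfl⟩
    have hτ : ∀ k x, ‖τ k x‖ ≤ 1 := by
      intro k x
      rw [hτd]
      show ‖if k = 0 then X N x.1 else X N x.2‖ ≤ 1
      split_ifs
      · exact hle _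
      · exact hle _
    have hP1 : PC V i τ (fun x : RB β N × RB β N => act (Quotient.out x.1 : 𝓞 F) (T N)) := by
      refine ⟨fun x => hT.ker N _, ⟨ρ, hρ, fun x => ?_⟩, ?_⟩
      · rw [← hXo]
        exact hs _
      · refine (Cl.var (τ := τ) 0).congr fun x => ?_
        rw [← hXo, hτd]
        exact (if_pos rfl).symm
    have hP2 : PC V i τ (fun x : RB β N × RB β N => act (Quotient.out x.2 : 𝓞 F) (T N)) := by
      refine ⟨fun x => hT.ker N _, ⟨ρ, hρ, fun x => ?_⟩, ?_⟩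
      · rw [← hXo]
        exact hs _
      · refine (Cl.var (τ := τ) 1).congr fun x => ?_
        rw [← hXo, hτd]
        exact (if_neg (by decide)).symm
    have hP := PC.add hτ hi hG hP1 hP2
    refine fn2_of_cl (g := fun a b => X N (a + b)) ?_
    rw [← hτd]
    refine hP.cl.congr fun x => ?_
    show X N (x.1 + x.2) = i (tt (act (Quotient.out x.1 : 𝓞 F) (T N) + act (Quotient.out x.2 : 𝓞 F) (T N)))
    rw [← H55K.S.act_add, ← hX, map_add, Ideal.Quotient.mk_out, Ideal.Quotient.mk_out]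

end SSG.LP
end

-- from Lib.SSG.LP.G
section

/-! # SSG/LP: the product of the coordinates and the functions of several variables -/

open NumberField IsDedekindDomain WeierstrassCurve

namespace SSG.LP

open H55P (IQ embF eF LF Per IsHecke Pt ac Inert Dec)
open H35P (WAB Ker tt)
open H55K SSG.LT

variable {F : Type} [Field F] [NumberField F] [IQ F] {A B : F} {Om : ℂ} {Ω : Type} [Field Ω] [DecidableEq Ω]
  [Algebra F Ω] {j : Ω →+* ℂ} {act : 𝓞 F →+* AddMonoid.End (Pt (WAB A B) Ω)} {β : 𝓞 F} {V : ValuationSubring Ω}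
  {C : Type} [NormedField C] [IsUltrametricDist C] [CompleteSpace C] {i : Ω →+* C} {T : ℕ → Pt (WAB A B) Ω}

omit [DecidableEq Ω] in
/-- Equal valuations have equal norms. -/
theorem g_norm {V : ValuationSubring Ω} {C : Type} [NormedField C] {i : Ω →+* C} (hi : ∀ x, x ∈ V ↔ ‖i x‖ ≤ 1)
    {x y : Ω} (hy : y ≠ 0) (hxy : V.valuation x = V.valuation y) : ‖i x‖ = ‖i y‖ := by
  have hvy : V.valuation y ≠ 0 := (Valuation.ne_zero_iff _).2 hy
  have hx : x ≠ 0 := by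
    rintro rfl
    rw [map_zero] at hxy
    exact hvy hxy.symm
  have key : ∀ u w : Ω, w ≠ 0 → V.valuation u = V.valuation w → ‖i u‖ ≤ ‖i w‖ := by
    intro u w hw huw
    have hvw : V.valuation w ≠ 0 := (Valuation.ne_zero_iff _).2 hw
    have h1 : V.valuation (u / w) ≤ 1 := by
      rw [map_div₀, huw, div_self hvw]
    have h2 := (hi _).1 ((V.valuation_le_one_iff _).1 h1)
    have h3 : 0 < ‖i w‖ := norm_pos_iff.2 ((map_ne_zero i).2 hw)
    rw [map_div₀, norm_div, div_le_one h3] at h2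
    exact h2
  exact le_antisymm (key x y hy hxy) (key y x hx hxy.symm)

/-! Chunk G1 (M). PROOF. S from exists_TN for β^N. The map b ↦ act b.out (T N) is a bijection from the nonzero classes onto S (surjective: every point killed by β^N is act a (T N): h.gen (β^N) has T₀ with Tor = {act a T₀}; and T N generates too: same cardinality:
the injective map from RB β N into Tor act (β^N) is surjective since both have Nm (β^N) elements (H55K.exists_TN: S.card = Nm b - 1; card of the quotient = Ideal.absNorm = Nm) or: T N = act c T₀ with c prime to β). So the product of the norms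
‖X N b‖ = ‖i (tt R)‖ over S equals ‖i (product)‖; prod_tt: V.valuation (product of the tt R) = V.valuation (ak Ω β ^ N) (map_prod, map_pow), and V.valuation x = V.valuation y implies ‖i x‖ = ‖i y‖ (y ≠ 0: x/y and y/x are in V). -/
theorem g_prod (h : CMA F A B Om j act) (hG : GV A B V) (hβ : Prime β) (hv : V.valuation (ak Ω β) < 1) (hi : ∀ x, x ∈ V ↔ ‖i x‖ ≤ 1)
    (hT : PtsB A B Om j act β V T) {X : ∀ N, RB β N → C} (hX : ∀ N (a : 𝓞 F), X N (Ideal.Quotient.mk _ a) = i (tt (act a (T N))))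
    (N : ℕ) [Fintype (RB β N)] [DecidableEq (RB β N)] : ‖H35M.cX (X N)‖ = ‖i (ak Ω β)‖ ^ N := by
  classical
  obtain ⟨S, hS, hcard⟩ := exists_TN h (pow_ne_zero N hβ.ne_zero)
  have hXo : ∀ q : RB β N, X N q = i (tt (act (Quotient.out q : 𝓞 F) (T N))) := by
    intro q
    rw [← hX, Ideal.Quotient.mk_out]
  have hinj : Function.Injective fun q : RB β N => act (Quotient.out q : 𝓞 F) (T N) := by
    intro q q' hqq
    have h1 : act ((Quotient.out q : 𝓞 F) - Quotient.out q') (T N) = 0 := by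
      rw [H55K.S.act_sub]
      exact sub_eq_zero.2 hqq
    rw [hT.zero N, ← Ideal.mem_span_singleton, ← Ideal.Quotient.eq, Ideal.Quotient.mk_out,
      Ideal.Quotient.mk_out] at h1
    exact h1
  have hc : Fintype.card (RB β N) = H55P.Nm (β ^ N) := by
    unfold H55P.Nm
    rw [Ideal.absNorm_apply, Submodule.cardQuot_apply, ← Nat.card_eq_fintype_card]
  have himg : (Finset.univ.erase (0 : RB β N)).image (fun q : RB β N => act (Quotient.out q : 𝓞 F) (T N)) = S := by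
    refine Finset.eq_of_subset_of_card_le ?_ ?_
    · intro R hR
      obtain ⟨q, hq, rfl⟩ := Finset.mem_image.1 hR
      refine (hS _).2 ⟨?_, ?_⟩
      · rw [← H55K.S.act_mul, hT.zero N]
        exact dvd_mul_right _ _
      · intro h0
        rw [hT.zero N, ← Ideal.mem_span_singleton, ← Ideal.Quotient.eq_zero_iff_mem, Ideal.Quotient.mk_out] at h0
        exact (Finset.mem_erase.1 hq).1 h0
    · rw [Finset.card_image_of_injective _ hinj, Finset.card_erase_of_mem (Finset.mem_univ _), Finset.card_univ,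
        hc, hcard]
  have h1 : H35M.cX (X N) = i (∏ R ∈ S, tt R) := by
    unfold H35M.cX
    rw [← himg, Finset.prod_image (fun a _ b _ hab => hinj hab), map_prod]
    exact Finset.prod_congr rfl fun q _ => hXo q
  have h2 : V.valuation (∏ R ∈ S, tt R) = V.valuation (ak Ω β ^ N) := by
    rw [map_prod, prod_tt h hG hβ hv N hS, map_pow]
  have hne : ak Ω β ≠ 0 := by
    have h3 : (β : F) ≠ 0 := by
      rw [Ne, RingOfIntegers.coe_eq_zero_iff]
      exact hβ.ne_zero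
    exact (map_ne_zero (algebraMap F Ω)).2 h3
  rw [h1, g_norm hi (pow_ne_zero N hne) h2, map_pow, norm_pow]

end SSG.LP
end

-- from Lib.SSG.LP.H
section

/-! # SSG/LP: the functions of several variables -/

open NumberField IsDedekindDomain WeierstrassCurve

namespace SSG.LP

open H55P (IQ embF eF LF Per IsHecke Pt ac Inert Dec)
open H35P (WAB Ker tt)
open H55K SSG.LT

variable {F : Type} [Field F] [NumberField F] [IQ F] {A B : F} {Om : ℂ} {Ω : Type} [Field Ω] [DecidableEq Ω]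
  [Algebra F Ω] {j : Ω →+* ℂ} {act : 𝓞 F →+* AddMonoid.End (Pt (WAB A B) Ω)} {β : 𝓞 F} {V : ValuationSubring Ω}
  {C : Type} [NormedField C] [IsUltrametricDist C] [CompleteSpace C] {i : Ω →+* C} {T : ℕ → Pt (WAB A B) Ω}

/-! Chunk H (M). PROOF. Copy of SSG/LT/XM4.lean (xm4): X = ι → RB β N, τ k a = X N (a k), P_k a = act (a k).out (T N): PC V i τ P_k (ker: hT.ker; small: f_small; cl: Cl.var k, X N (a k) = i (tt (act (a k).out (T N))) by hX and Ideal.Quotient.mk_out);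
PC.act_all, PC.sum: a ↦ act (∑ k, c k * (a k).out) (T N) is in the class, and H a = H (fun k => mk (a k).out) = i (tt (...)) by hH. FnM X ι H unfolds to Cl τ H. -/
theorem h_fn (h : CMA F A B Om j act) (hG : GV A B V) (hβ : Prime β) (hi : ∀ x, x ∈ V ↔ ‖i x‖ ≤ 1)
    (hT : PtsB A B Om j act β V T) {X : ∀ N, RB β N → C} (hX : ∀ N (a : 𝓞 F), X N (Ideal.Quotient.mk _ a) = i (tt (act a (T N))))
    (N : ℕ) (ι : Type) [Fintype ι] (c : ι → 𝓞 F) (H : (ι → RB β N) → C)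
    (hH : ∀ a : ι → 𝓞 F, H (fun k => Ideal.Quotient.mk _ (a k)) = i (tt (act (∑ k, c k * a k) (T N)))) :
    H35M.FnM (X N) ι H := by
  have hlt : ∀ N b, ‖i (tt (act b (T N)))‖ < 1 := by
    intro N b
    have hx : V.valuation (tt (act b (T N))) < 1 := ttlt hG (hT.ker N b)
    by_cases h0 : tt (act b (T N)) = 0
    · rw [h0, map_zero, norm_zero]
      exact one_pos
    · by_contra hc
      push Not at hc
      have h1 : ‖i (tt (act b (T N)))⁻¹‖ ≤ 1 := by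
        rw [map_inv₀, norm_inv]
        exact inv_le_one_of_one_le₀ hc
      have h2 := (V.valuation_le_one_iff _).2 ((hi _).2 h1)
      rw [map_inv₀, inv_le_one₀ (zero_lt_iff.2 ((map_ne_zero _).2 h0))] at h2
      exact absurd hx (not_lt.2 h2)
  have hXo : ∀ q : RB β N, X N q = i (tt (act (Quotient.out q) (T N))) := by
    intro q
    have h1 := hX N (Quotient.out q)
    have h2 : (Ideal.Quotient.mk (Ideal.span {β ^ N})) (Quotient.out q) = q := Quotient.out_eq q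
    rw [h2] at h1
    exact h1
  have hτ : ∀ (k : ι) (x : ι → RB β N), ‖(fun (k : ι) (x : ι → RB β N) => X N (x k)) k x‖ ≤ 1 := by
    intro k x
    show ‖X N (x k)‖ ≤ 1
    rw [hXo (x k)]
    exact (hlt N _).le
  have hp0 : β ^ N ≠ 0 := pow_ne_zero _ hβ.ne_zero
  obtain ⟨ρ, hρ, hρ2⟩ := xm1_bd h hG i hi hp0 ((hT.zero N _).2 dvd_rfl) (hT.ker N)
  have hPC : ∀ k : ι, PC V i (fun (k : ι) (x : ι → RB β N) => X N (x k)) (fun x => act (Quotient.out (x k)) (T N)) := fun k =>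
    ⟨fun x => hT.ker N _, ⟨ρ, hρ, fun x => hρ2 _⟩,
      (Cl.var (τ := fun (k : ι) (x : ι → RB β N) => X N (x k)) k).congr fun x => (hXo (x k)).symm⟩
  have h2 := PC.sum hτ hi hG Finset.univ (P := fun (k : ι) (x : ι → RB β N) => act (c k) (act (Quotient.out (x k)) (T N)))
    fun k _ => PC.act_all hτ hi h hG (c k) (hPC k)
  have h4 : ∀ (x : ι → RB β N) (s : Finset ι), act (∑ k ∈ s, c k * Quotient.out (x k)) (T N) = ∑ k ∈ s, act (c k) (act (Quotient.out (x k)) (T N)) := by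
    classical
    intro x s
    induction s using Finset.induction_on with
    | empty =>
      rw [Finset.sum_empty, Finset.sum_empty, map_zero]
      rfl
    | insert k s hk ih =>
      rw [Finset.sum_insert hk, Finset.sum_insert hk, map_add, map_mul]
      show act (c k) (act (Quotient.out (x k)) (T N)) + act (∑ k ∈ s, c k * Quotient.out (x k)) (T N) = _
      rw [ih]
  intro ε hε
  obtain ⟨Q, hQ, h5⟩ := h2.cl ε hε
  refine ⟨Q, hQ, fun x => ?_⟩
  have h6 := h5 x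
  have h7 : H x = i (tt (act (∑ k, c k * Quotient.out (x k)) (T N))) := by
    rw [← hH]
    congr 1
    funext k
    exact (Quotient.out_eq (x k)).symm
  rw [h7, h4 x Finset.univ]
  exact h6

end SSG.LP
end

-- from Lib.SSG.LP.Main
section

/-! # SSG/LP: existence of the local model at a prime element β below V -/

open NumberField IsDedekindDomain WeierstrassCurve

namespace SSG.LP

open H55P (IQ embF eF LF Per IsHecke Pt ac Inert Dec)
open H35P (WAB Ker tt)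
open H55K SSG.LT

variable {F : Type} [Field F] [NumberField F] [IQ F] {A B : F} {Om : ℂ} {Ω : Type} [Field Ω] [DecidableEq Ω]
  [Algebra F Ω] {j : Ω →+* ℂ} {act : 𝓞 F →+* AddMonoid.End (Pt (WAB A B) Ω)} {β : 𝓞 F} {V : ValuationSubring Ω}

/-- The embedding of `Ω` in `ℂ_[p]`. -/
theorem exists_embC [IsAlgClosure F Ω] {p : ℕ} [Fact p.Prime] (V : ValuationSubring Ω) (hV : V.valuation (p : Ω) < 1) :
    ∃ i : Ω →+* ℂ_[p], ∀ x, x ∈ V ↔ ‖i x‖ ≤ 1 := by
  obtain ⟨i₀, h⟩ := em_all (F := F) V hV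
  refine ⟨(algebraMap (PadicAlgCl p) ℂ_[p]).comp i₀, fun x => ?_⟩
  rw [RingHom.comp_apply, ← PadicComplex.coe_eq, PadicComplex.norm_extends]
  exact h x

/-- The local model, for every embedding inducing `V`. -/
theorem exists_locO (h : CMA F A B Om j act) (hG : GV A B V) (hβ : Prime β) (hv : V.valuation (ak Ω β) < 1)
    {C : Type} [NormedField C] [IsUltrametricDist C] [CompleteSpace C] {i : Ω →+* C} (hi : ∀ x, x ∈ V ↔ ‖i x‖ ≤ 1) :
    ∃ (T : ℕ → Pt (WAB A B) Ω) (X : ∀ N, RB β N → C), LocO A B Om j act β V i T X := by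
  obtain ⟨T, hT⟩ := pts (j := j) (Om := Om) h hG hβ hv
  obtain ⟨X, hX⟩ := f_exists (i := i) hT
  exact ⟨T, X,
    { toPtsB := hT
      val := hi
      Xmk := hX
      small := f_small h hG hβ hi hT hX
      fg := f_fg h hG hβ hi hT hX
      prod := fun N _ _ => g_prod h hG hβ hv hi hT hX N
      fn := fun N ι _ c H hH => h_fn h hG hβ hi hT hX N ι c H hH }⟩

end SSG.LP
end
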