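import Mathlib
import Pool.Agent.Lib.H1M.PP2.D_H55K_D2
import Pool.Agent.Lib.H1M.PP2.D_H55P_Z10
import Pool.Agent.Lib.H1M.PP2.M019
import Pool.Agent.Lib.H1M.PP2.M049
import Pool.Agent.Lib.H1M.PP2.M054
import Pool.Agent.Lib.H1M.PP2.M074
import Pool.Agent.Lib.H1M.PP2.M086

/-! # H55K: the hypotheses on the curve -/

open NumberField IsDedekindDomain WeierstrassCurve

namespace H55K.TQ

open H55P (IQ embF eF LF Per IsHecke Pt ac Inert Dec Nm UnitP)
open H35P (WAB Ker tt GoodW IntW)
open H55K.MG (VC Crd)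

/-- No prime of F which does not divide the discriminant and at which the number of points is divisible by p is ramified in K. -/
def NoAn {F : Type} [Field F] [NumberField F] {Ω : Type} [Field Ω] [Algebra F Ω] (p : ℕ) (W₀ : WeierstrassCurve (𝓞 F))
    (K : IntermediateField F Ω) : Prop :=
  ∀ v : HeightOneSpectrum (𝓞 F), H55P.RamF K v.asIdeal → W₀.Δ ∉ v.asIdeal →
    ¬ p ∣ Nat.card (W₀⁄(𝓞 F ⧸ v.asIdeal)).toAffine.Point

end H55K.TQ
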