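import Mathlib
import Pool.Agent.Lib.H1M.PP2.D_H55K_BH
import Pool.Agent.Lib.H1M.PP2.D_H55K_D2
import Pool.Agent.Lib.H1M.PP2.D_H55K_QD
import Pool.Agent.Lib.H1M.PP2.D_H55P_Stm
import Pool.Agent.Lib.H1M.PP2.D_H55P_Z10
import Pool.Agent.Lib.H1M.PP2.M019
import Pool.Agent.Lib.H1M.PP2.M049
import Pool.Agent.Lib.H1M.PP2.M051
import Pool.Agent.Lib.H1M.PP2.M054
import Pool.Agent.Lib.H1M.PP2.M062
import Pool.Agent.Lib.H1M.PP2.M063
import Pool.Agent.Lib.H1M.PP2.M069
import Pool.Agent.Lib.H1M.PP2.M073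
import Pool.Agent.Lib.H1M.PP2.M074
import Pool.Agent.Lib.H1M.PP2.M075
import Pool.Agent.Lib.H1M.PP2.M080
import Pool.Agent.Lib.H1M.PP2.M082
import Pool.Agent.Lib.H1M.PP2.M086
import Pool.Agent.Lib.H1M.PP2.M094

/-! Merged copies (to shorten the build) of Lib.H55K.BH_T, Lib.H55K.CM, Lib.H55K.J7, Lib.H55K.J8, Lib.H55K.J9, Lib.H55K.JM, Lib.H55K.JE, Lib.H55K.G8C, Lib.H55K.G9A, Lib.H55K.G10C, Lib.H55K.Y5, Lib.H55K.BH1, Lib.H55K.T10, Lib.H55K.FB3B, Lib.H55K.QH1A, Lib.H55K.QH2A, Lib.H55K.CU, Lib.H55K.RF, Lib.H55K.FB5, Lib.H55K.SDI, Lib.H55K.QF1A, Lib.H55K.QF1C, Lib.H55K.QH1B, Lib.H55K.QH1C, Lib.H55K.QH2B, Lib.H55K.QH3, Lib.H55K.QH4B, Lib.H55K.QS1. -/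

-- from Lib.H55K.BH_T
section

/-! # H55K: the hypotheses on the curve -/

open NumberField IsDedekindDomain WeierstrassCurve

namespace H55K.TQ

open H55P (IQ embF eF LF Per IsHecke Pt ac Inert Dec Nm UnitP)
open H35P (WAB Ker tt GoodW IntW)
open H55K.MG (VC Crd)

/-- W₀ is an equation over the integers of F of an elliptic curve with complex multiplication by the integers of F and ψ is its Hecke character:
the period lattice is Om times the lattice of integers, the numbers of points modulo the primes v not dividing the discriminant are the norms of 1 - ψ(v), the prime divisors of the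
modulus are those of the discriminant, and they are primes of bad reduction. -/
structure BaseH (F : Type) [Field F] [NumberField F] [IQ F] (W₀ : WeierstrassCurve (𝓞 F)) (Om : ℂ)
    (m : Ideal (𝓞 F)) (ψ : Ideal (𝓞 F) →*₀ 𝓞 F) : Prop where
  data : H55P.CMData F W₀ Om m ψ
  deu : ∀ v : HeightOneSpectrum (𝓞 F), W₀.Δ ∉ v.asIdeal →
    Nat.card (W₀⁄(𝓞 F ⧸ v.asIdeal)).toAffine.Point = Nm (1 - ψ v.asIdeal)
  supp : ∀ v : HeightOneSpectrum (𝓞 F), W₀.Δ ∈ v.asIdeal ↔ m ≤ v.asIdeal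
  bad : ∀ v : HeightOneSpectrum (𝓞 F), W₀.Δ ∈ v.asIdeal → ¬ GoodAt (W₀⁄F) v

/-- p is a prime number ≥ 5, unramified in F, prime to the discriminant of W₀. -/
structure PrimeH (F : Type) [Field F] [NumberField F] (W₀ : WeierstrassCurve (𝓞 F)) (p : ℕ) : Prop where
  prime : p.Prime
  five : 5 ≤ p
  unr : H55P.UnrP p F
  cop : IsCoprime (Ideal.span {W₀.Δ}) (Ideal.span {(p : 𝓞 F)})


end H55K.TQ
end

-- from Lib.H55K.CM
section

/-! # H55K, part C: existence of the complex multiplication -/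

open NumberField WeierstrassCurve Polynomial

namespace H55K

open H55P (IQ embF eF LF Per Pt ac mem_LF eF_inj eF_ne Nm Nm_eq)
open H35P (WAB)
open CC (CH Act U)

variable {F : Type} [Field F] [NumberField F] [IQ F] {Ω : Type} [Field Ω] [DecidableEq Ω] [Algebra F Ω]
  {A B : F} {Om : ℂ} {j : Ω →+* ℂ} {act : 𝓞 F →+* AddMonoid.End (Pt (WAB A B) Ω)}

theorem cm_ac_inj (s : Ω ≃ₐ[F] Ω) {P : Pt (WAB A B) Ω} (hP : ac (WAB A B) s P = 0) : P = 0 := by
  unfold ac at hP
  rcases P with _ | ⟨x, y, hxy⟩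
  · rfl
  · rw [Affine.Point.map_some] at hP
    exact absurd hP (Affine.Point.some_ne_zero _)

theorem cm_gal [IsAlgClosed Ω] (h : CH A B Om j) (hact : Act A B Om j act) (s : Ω ≃ₐ[F] Ω) (a : 𝓞 F)
    (P : Pt (WAB A B) Ω) : ac (WAB A B) s (act a P) = act a (ac (WAB A B) s P) := by
  by_cases ha : a = 0
  · subst ha
    have h0 : ∀ Q : Pt (WAB A B) Ω, act 0 Q = 0 := fun Q => by
      rw [map_zero]
      rfl
    rw [h0, h0, map_zero]
  · have := CC.inf_pt h
    set δ : Pt (WAB A B) Ω →+ Pt (WAB A B) Ω := (ac (WAB A B) s).comp (act a : Pt (WAB A B) Ω →+ Pt (WAB A B) Ω) -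
      (act a : Pt (WAB A B) Ω →+ Pt (WAB A B) Ω).comp (ac (WAB A B) s) with hδ
    have h1 : ∀ Q, δ Q = ac (WAB A B) s (act a Q) - act a (ac (WAB A B) s Q) := fun Q => rfl
    have hf := CC.fin_ker h hact ha
    have hZ : ({Q : Pt (WAB A B) Ω | act a Q = 0} ∪ {Q | act a (ac (WAB A B) s Q) = 0}).Finite := by
      refine hf.union (hf.preimage (f := fun Q => ac (WAB A B) s Q) ?_)
      intro x _ y _ hxy
      have h2 : ac (WAB A B) s (x - y) = 0 := by
        rw [map_sub, sub_eq_zero]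
        exact hxy
      exact sub_eq_zero.1 (cm_ac_inj s h2)
    have h3 := CC.add_fin δ hZ (fun Q hQ => by
      rw [h1, sub_eq_zero]
      exact CC.gal_gen h hact ha s (fun h4 => hQ (Or.inl h4)) (fun h4 => hQ (Or.inr h4))) P
    rw [h1, sub_eq_zero] at h3
    exact h3

theorem exists_CMA (F : Type) [Field F] [NumberField F] [IQ F] (A B : F) (Om : ℂ) {Ω : Type} [Field Ω] [DecidableEq Ω]
    [Algebra F Ω] [IsAlgClosed Ω] [Algebra.IsAlgebraic F Ω] (j : Ω →+* ℂ) (disc : 4 * A ^ 3 + 27 * B ^ 2 ≠ 0)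
    (per : Per F (embF F A) (embF F B) Om) (ovr : ∀ x : F, j (algebraMap F Ω x) = embF F x) :
    ∃ act : 𝓞 F →+* AddMonoid.End (Pt (WAB A B) Ω), CMA F A B Om j act := by
  have h : CH A B Om j := ⟨disc, per, ovr⟩
  obtain ⟨act, hact⟩ := CC.exists_act h
  exact ⟨act, {
    disc := disc
    per := per
    ovr := ovr
    gal := fun s a P => cm_gal h hact s a P
    surj := fun b hb P => CC.act_surj h hb P
    gen := fun b hb => CC.act_gen h hact hb
    e1x := fun a S ha hS P hP => CC.act_e1x h hact ha hS hP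
    e1y := fun a S ha hS P hP => CC.act_e1y h hact ha hS hP
    e2 := fun b S hb hS P Q hP hQ => CC.act_e2 h hact hb hS hP hQ }⟩

end H55K
end

-- from Lib.H55K.J7
section

set_option autoImplicit false

/-! Chunk J7 (M). S₀ = the T in insert 0 S with E0 (Θ T); S' = its image under Θ: 0 in S', closed under differences (E[b] is a group, e0_add, e0_neg), nonzero elements are Fn (tor_out, e0_iff). ub_prod: with c = S₀.card:
product over T in S₀ of (X - C (ub (Θ T))) = X^c - 1 (Finset.prod_map / prod_image). V(c) = 1: c divides the order of the group E[b], which is Nm b (c divides Nm b: card of a subgroup; S.card + 1 = Nm b: exists_TN / tor_card, or: S.card + 1 divides a power of Nm b...;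
SIMPLER: 1 - X^c separable is not needed; needed is only (c : residue field) <> 0: the c-th roots ub(Θ T) are c different roots of X^c - 1 in a field, so X^c - 1 has no multiple root, so c <> 0 in the field (otherwise its derivative is 0 and 1 is a multiple
root if c ≥ 2)). Z from gen_pt, enlarged by the roots of w^c = 1. For P with ub (Θ P) not in Z: residues of m_e1x, m_e1z (kap_int; all terms integral; β = rs (ak b) <> 0 by unit_b): for T not in E0 the coordinates of Θ T, Θ (P + T) have residue 0 (nod_out); for T in E0, T <> 0: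
rs x(P + T) = xu (ub (Θ T) * ub (Θ P)) (fn_ub). So β^2 X = sum over S₀ of xu (ub (Θ T) w) + δ = c^2 xu (w^c) + δ, δ = - sum over S₀ - 0 of rs x(T) - rs((β^2-1)/12) independent of P, w = ub (Θ P), X = rs x(bP) (x(bP) in V by m_e1x: β is a unit;
y(bP) in V by H35P.int_y), β^3 Z' = c^3 zu (w^c), Z' = rs (2 y + x)(bP), Z'^2 = 4 X^3 + X^2 (z_sq, act b P <> 0) (sum_xu, sum_zu, res_inf). compare (I = the w^c for w not in Z, w <> 0: infinite since w -> w^c has finite fibres): δ = 0, β^2 = c^2,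
so X = xu (w^c). -/

open NumberField WeierstrassCurve

namespace H55K.JJ

open H55P (IQ embF eF LF Per Pt ac Nm)
open H35P (WAB Ker IntW)

variable {F : Type} [Field F] [NumberField F] [IQ F] {A B : F} {Om : ℂ} {Ω : Type} [Field Ω] [DecidableEq Ω]
  [Algebra F Ω] [IsAlgClosed Ω] {j : Ω →+* ℂ} {act : 𝓞 F →+* AddMonoid.End (Pt (WAB A B) Ω)} {V : ValuationSubring Ω}
  {W' : WeierstrassCurve Ω} {u : Ω} {Θ : Pt (WAB A B) Ω ≃+ W'.toAffine.Point}

theorem j7_not_ker {k : Type} [Field k] [DecidableEq k] {W : WeierstrassCurve k}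
    {V : ValuationSubring k} {P : W.toAffine.Point} (h0 : P ≠ 0) (hx : xc P ∈ V) :
    ¬ Ker V P := by
  cases P with
  | zero => exact fun _ => h0 rfl
  | some x y hP =>
    intro h
    have h1 : V.valuation x ≤ 1 := (V.valuation_le_one_iff x).2 hx
    exact absurd h (not_lt.mpr h1)

theorem j7_inj (h : CMA F A B Om j act) (hM : Md A B V W' u Θ) {b : 𝓞 F}
    (hb : V.valuation ((Nm b : ℕ) : Ω) = 1) {T T' : Pt (WAB A B) Ω} (hT : act b T = 0)
    (hT' : act b T' = 0) (h1 : E0 V (Θ T)) (h2 : E0 V (Θ T'))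
    (hu : ub V (Θ T) = ub V (Θ T')) : T = T' := by
  have hfn : ∀ R, act b R = 0 → E0 V (Θ R) → R ≠ 0 → Fn V (Θ R) := by
    intro R hR hE hR0
    rcases e0_iff.1 hE with hk | hf
    · exact absurd hk (tor_out h hM hb hR hR0)
    · exact hf
  by_cases h0 : T = 0
  · by_cases h0' : T' = 0
    · rw [h0, h0']
    · have hf := hfn T' hT' h2 h0'
      rw [h0, map_zero, ub_zero] at hu
      exact absurd hu.symm (fn_ub hM.nod hf).2.2.1
  · have hf := hfn T hT h1 h0
    by_cases h0' : T' = 0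
    · rw [h0', map_zero, ub_zero] at hu
      exact absurd hu (fn_ub hM.nod hf).2.2.1
    · have hf' := hfn T' hT' h2 h0'
      have hk := rd_fn hM.nod hf hf' hu
      rw [← map_sub] at hk
      by_contra hne
      exact tor_out h hM hb (T := T - T') (by rw [map_sub, hT, hT', sub_zero])
        (sub_ne_zero.2 hne) hk

open Polynomial in
theorem j7_set (h : CMA F A B Om j act) (hM : Md A B V W' u Θ) {b : 𝓞 F}
    (hb : V.valuation ((Nm b : ℕ) : Ω) = 1) {S : Finset (Pt (WAB A B) Ω)} (hS : TN act b S) :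
    ∃ S₀ : Finset (Pt (WAB A B) Ω), (∀ T, T ∈ S₀ ↔ act b T = 0 ∧ E0 V (Θ T)) ∧
      (∏ T ∈ S₀, (X - C (ub V (Θ T))) = X ^ S₀.card - 1) ∧
      ((S₀.card : IsLocalRing.ResidueField V) ≠ 0) := by
  classical
  set S₀ : Finset (Pt (WAB A B) Ω) := (insert 0 S).filter (fun T => E0 V (Θ T)) with hS₀
  have hmem : ∀ T, T ∈ S₀ ↔ act b T = 0 ∧ E0 V (Θ T) := by
    intro T
    rw [hS₀, Finset.mem_filter, Finset.mem_insert, hS T]
    constructor
    · rintro ⟨h1 | h1, h2⟩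
      · exact ⟨by rw [h1, map_zero], h2⟩
      · exact ⟨h1.1, h2⟩
    · rintro ⟨h1, h2⟩
      refine ⟨?_, h2⟩
      by_cases h0 : T = 0
      · exact Or.inl h0
      · exact Or.inr ⟨h1, h0⟩
  have hprod : ∏ T ∈ S₀, (X - C (ub V (Θ T))) = X ^ S₀.card - 1 := by
    have h1 := ub_prod hM.nod hM.ell (S₀.image Θ) (by
        rw [Finset.mem_image]
        exact ⟨0, (hmem 0).2 ⟨map_zero _, by rw [map_zero]; exact Or.inl rfl⟩, map_zero _⟩) (by
        intro T hT T' hT'
        rw [Finset.mem_image] at hT hT' ⊢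
        obtain ⟨t, ht, rfl⟩ := hT
        obtain ⟨t', ht', rfl⟩ := hT'
        rw [hmem] at ht ht'
        refine ⟨t - t', (hmem _).2 ⟨by rw [map_sub, ht.1, ht'.1, sub_zero], ?_⟩, map_sub _ _ _⟩
        rw [map_sub, sub_eq_add_neg]
        exact e0_add hM.nod ht.2 (e0_neg.2 ht'.2)) (by
        intro T hT hT0
        rw [Finset.mem_image] at hT
        obtain ⟨t, ht, rfl⟩ := hT
        rw [hmem] at ht
        rcases e0_iff.1 ht.2 with hk | hf
        · exact absurd hk (tor_out h hM hb ht.1 (fun h0 => hT0 (by rw [h0, map_zero])))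
        · exact hf)
    rw [Finset.prod_image (fun x _ y _ hxy => Θ.injective hxy),
      Finset.card_image_of_injective _ Θ.injective] at h1
    exact h1
  refine ⟨S₀, hmem, hprod, ?_⟩
  rw [← X_pow_sub_one_separable_iff, ← hprod, separable_prod_X_sub_C_iff']
  intro T hT T' hT' hu
  rw [hmem] at hT hT'
  exact j7_inj h hM hb hT.1 hT'.1 hT.2 hT'.2 hu

open Polynomial in
theorem j7_fin {K : Type} [Field K] {c : ℕ} (hc : 0 < c) (w : K) : {x : K | x ^ c = w}.Finite := by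
  classical
  refine (Finset.finite_toSet (nthRoots c w).toFinset).subset ?_
  intro x hx
  rw [Finset.mem_coe, Multiset.mem_toFinset, mem_nthRoots hc]
  exact hx

/-- the residues of the two identities, for a generic point -/
theorem j7_res (h : CMA F A B Om j act) (hM : Md A B V W' u Θ) {b : 𝓞 F}
    (hb : V.valuation ((Nm b : ℕ) : Ω) = 1) {S S₀ : Finset (Pt (WAB A B) Ω)} (hS : TN act b S)
    (hmem : ∀ T, T ∈ S₀ ↔ act b T = 0 ∧ E0 V (Θ T)) {P : Pt (WAB A B) Ω} (hP : Fn V (Θ P))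
    (hbP : act b P ≠ 0)
    (hg : ∀ T ∈ S, ¬ Ker V (Θ (P + T)) ∧
      (E0 V (Θ T) → Fn V (Θ (P + T)) ∧ ub V (Θ (P + T)) = ub V (Θ T) * ub V (Θ P)) ∧
      (¬ E0 V (Θ T) → ¬ E0 V (Θ (P + T)))) :
    xc (Θ (act b P)) ∈ V ∧ yc (Θ (act b P)) ∈ V ∧
    rs V (ak Ω b) ^ 2 * rs V (xc (Θ (act b P))) = ∑ T ∈ S₀, xu (ub V (Θ T) * ub V (Θ P)) +
      (-(∑ T ∈ S, rs V (xc (Θ T))) - rs V ((ak Ω b ^ 2 - 1) / 12)) ∧
    rs V (ak Ω b) ^ 3 * rs V (2 * yc (Θ (act b P)) + xc (Θ (act b P))) =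
      ∑ T ∈ S₀, zu (ub V (Θ T) * ub V (Θ P)) := by
  classical
  haveI : CharZero Ω := charZero_of_injective_algebraMap (algebraMap F Ω).injective
  obtain ⟨hb0, hbu⟩ := unit_b (V := V) h hb
  have hbV : ak Ω b ∈ V := (V.valuation_le_one_iff _).1 hbu.le
  have hκ := kap_int h hM hb hS
  have h2V : (2 : Ω) ∈ V := by exact_mod_cast natCast_mem V 2
  have hΘ0 : Θ (act b P) ≠ 0 := fun h0 => hbP (by
    have := congrArg Θ.symm h0
    rwa [Θ.symm_apply_apply, map_zero] at this)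
  -- the coordinates of T and P + T
  have hT : ∀ T ∈ S, xc (Θ T) ∈ V ∧ yc (Θ T) ∈ V := fun T hT =>
    (int_ker hM.nod (tor_out h hM hb ((hS T).1 hT).1 ((hS T).1 hT).2)).2
  have hPT : ∀ T ∈ S, xc (Θ (P + T)) ∈ V ∧ yc (Θ (P + T)) ∈ V := fun T hT =>
    (int_ker hM.nod (hg T hT).1).2
  obtain ⟨_, hPx, hPy, _, _⟩ := fn_crd hM.nod hP
  have e1 := m_e1x h hM hb0 hS hbP
  have e2 := m_e1z h hM hb0 hS hbP
  have hs : (∑ T ∈ S, (xc (Θ (P + T)) - xc (Θ T))) ∈ V :=
    sum_mem fun T hT' => V.sub_mem (hPT T hT').1 (hT T hT').1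
  have hs2 : (∑ T ∈ S, (2 * yc (Θ (P + T)) + xc (Θ (P + T)))) ∈ V :=
    sum_mem fun T hT' => V.add_mem _ _ (V.mul_mem _ _ h2V (hPT T hT').2) (hPT T hT').1
  have e1' : ak Ω b ^ 2 * xc (Θ (act b P)) =
      xc (Θ P) + (∑ T ∈ S, (xc (Θ (P + T)) - xc (Θ T))) - (ak Ω b ^ 2 - 1) / 12 := by
    linear_combination e1
  have hX : xc (Θ (act b P)) ∈ V := by
    have h3 : xc (Θ (act b P)) = (xc (Θ P) + (∑ T ∈ S, (xc (Θ (P + T)) - xc (Θ T))) -
        (ak Ω b ^ 2 - 1) / 12) / ak Ω b ^ 2 := by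
      rw [← e1', mul_div_cancel_left₀]
      intro h4
      have : V.valuation (ak Ω b ^ 2) = 0 := by rw [h4, map_zero]
      rw [map_pow, hbu, one_pow] at this
      exact one_ne_zero this
    rw [h3, ← V.valuation_le_one_iff, map_div₀, map_pow, hbu, one_pow, div_one,
      V.valuation_le_one_iff]
    exact V.sub_mem (V.add_mem _ _ hPx hs) hκ
  have hY : yc (Θ (act b P)) ∈ V := (int_ker hM.nod (j7_not_ker hΘ0 hX)).2.2
  refine ⟨hX, hY, ?_, ?_⟩
  · have r1 := congrArg (rs V) e1'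
    rw [rs_mul (pow_mem hbV 2) hX, rs_pow hbV, rs_sub (V.add_mem _ _ hPx hs) hκ,
      rs_add hPx hs, rs_sum S _ (fun T hT' => V.sub_mem (hPT T hT').1 (hT T hT').1)] at r1
    rw [r1]
    have r2 : ∑ T ∈ S, rs V (xc (Θ (P + T)) - xc (Θ T)) =
        (∑ T ∈ S, rs V (xc (Θ (P + T)))) - ∑ T ∈ S, rs V (xc (Θ T)) := by
      rw [← Finset.sum_sub_distrib]
      exact Finset.sum_congr rfl fun T hT' => rs_sub (hPT T hT').1 (hT T hT').1
    have h0S : (0 : Pt (WAB A B) Ω) ∈ S₀ := (hmem 0).2 ⟨map_zero _, by rw [map_zero]; exact Or.inl rfl⟩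
    have r3 : ∑ T ∈ S₀, xu (ub V (Θ T) * ub V (Θ P)) =
        rs V (xc (Θ P)) + ∑ T ∈ S, rs V (xc (Θ (P + T))) := by
      rw [← Finset.add_sum_erase _ _ h0S, map_zero, ub_zero, one_mul, (fn_ub hM.nod hP).2.2.2.1]
      congr 1
      have hsub : S₀.erase 0 ⊆ S := by
        intro T hT'
        rw [Finset.mem_erase, hmem] at hT'
        exact (hS T).2 ⟨hT'.2.1, hT'.1⟩
      rw [← Finset.sum_subset hsub (f := fun T => rs V (xc (Θ (P + T))))]
      · refine Finset.sum_congr rfl fun T hT' => ?_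
        have hTS := hsub hT'
        rw [Finset.mem_erase, hmem] at hT'
        obtain ⟨h5, h6⟩ := (hg T hTS).2.1 hT'.2.2
        rw [(fn_ub hM.nod h5).2.2.2.1, h6]
      · intro T hTS hTn
        have hE : ¬ E0 V (Θ T) := by
          intro hE
          apply hTn
          rw [Finset.mem_erase, hmem]
          exact ⟨((hS T).1 hTS).2, ((hS T).1 hTS).1, hE⟩
        have h7 := nod_out hM.nod ((hg T hTS).2.2 hE)
        exact (rs_eq_zero (hPT T hTS).1).2 h7.2.1
    rw [r3, r2]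
    ring
  · have r1 := congrArg (rs V) e2
    have hZ : 2 * yc (Θ (act b P)) + xc (Θ (act b P)) ∈ V :=
      V.add_mem _ _ (V.mul_mem _ _ h2V hY) hX
    have hZP : 2 * yc (Θ P) + xc (Θ P) ∈ V := V.add_mem _ _ (V.mul_mem _ _ h2V hPy) hPx
    rw [rs_mul (pow_mem hbV 3) hZ, rs_pow hbV, rs_add hZP hs2,
      rs_sum S _ (fun T hT' => V.add_mem _ _ (V.mul_mem _ _ h2V (hPT T hT').2) (hPT T hT').1)] at r1
    rw [r1]
    have h0S : (0 : Pt (WAB A B) Ω) ∈ S₀ := (hmem 0).2 ⟨map_zero _, by rw [map_zero]; exact Or.inl rfl⟩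
    rw [← Finset.add_sum_erase _ _ h0S, map_zero, ub_zero, one_mul, (fn_ub hM.nod hP).2.2.2.2.1]
    congr 1
    have hsub : S₀.erase 0 ⊆ S := by
      intro T hT'
      rw [Finset.mem_erase, hmem] at hT'
      exact (hS T).2 ⟨hT'.2.1, hT'.1⟩
    symm
    rw [← Finset.sum_subset hsub (f := fun T => rs V (2 * yc (Θ (P + T)) + xc (Θ (P + T))))]
    · refine Finset.sum_congr rfl fun T hT' => ?_
      have hTS := hsub hT'
      rw [Finset.mem_erase, hmem] at hT'
      obtain ⟨h5, h6⟩ := (hg T hTS).2.1 hT'.2.2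
      rw [(fn_ub hM.nod h5).2.2.2.2.1, h6]
    · intro T hTS hTn
      have hE : ¬ E0 V (Θ T) := by
        intro hE
        apply hTn
        rw [Finset.mem_erase, hmem]
        exact ⟨((hS T).1 hTS).2, ((hS T).1 hTS).1, hE⟩
      have h7 := nod_out hM.nod ((hg T hTS).2.2 hE)
      rw [rs_add (V.mul_mem _ _ h2V (hPT T hTS).2) (hPT T hTS).1, rs_mul h2V (hPT T hTS).2,
        (rs_eq_zero (hPT T hTS).1).2 h7.2.1, (rs_eq_zero (hPT T hTS).2).2 h7.2.2, mul_zero,
        add_zero]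

theorem main_b (h : CMA F A B Om j act) (hM : Md A B V W' u Θ) {b : 𝓞 F}
    (hb : V.valuation ((Nm b : ℕ) : Ω) = 1) {S : Finset (Pt (WAB A B) Ω)} (hS : TN act b S) :
    ∃ c : ℕ, 0 < c ∧ (c = 1 ∨ ∃ T ∈ S, E0 V (Θ T)) ∧ ∃ Z : Set (IsLocalRing.ResidueField V), Z.Finite ∧
    ∀ P : Pt (WAB A B) Ω, Fn V (Θ P) → ub V (Θ P) ∉ Z →
      ub V (Θ P) ^ c ≠ 1 ∧ Fn V (Θ (act b P)) ∧ rs V (xc (Θ (act b P))) = xu (ub V (Θ P) ^ c) := by
  classical
  haveI : Infinite (IsLocalRing.ResidueField V) := res_inf V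
  obtain ⟨S₀, hmem, hprod, hc0⟩ := j7_set h hM hb hS
  obtain ⟨Z₀, hZ₀, hgen⟩ := gen_pt h hM hb hS
  obtain ⟨hb0, hbu⟩ := unit_b (V := V) h hb
  have hbV : ak Ω b ∈ V := (V.valuation_le_one_iff _).1 hbu.le
  have h0S : (0 : Pt (WAB A B) Ω) ∈ S₀ := (hmem 0).2 ⟨map_zero _, by rw [map_zero]; exact Or.inl rfl⟩
  have hcpos : 0 < S₀.card := Finset.card_pos.2 ⟨0, h0S⟩
  set c := S₀.card with hc
  set Z : Set (IsLocalRing.ResidueField V) := Z₀ ∪ {x | x ^ c = 1} with hZ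
  have hZf : Z.Finite := hZ₀.union (j7_fin hcpos 1)
  set δ := -(∑ T ∈ S, rs V (xc (Θ T))) - rs V ((ak Ω b ^ 2 - 1) / 12) with hδ
  have hβ0 : rs V (ak Ω b) ≠ 0 := (rs_ne_zero hbV).2 hbu
  have hres : ∀ P : Pt (WAB A B) Ω, Fn V (Θ P) → ub V (Θ P) ∉ Z →
      act b P ≠ 0 ∧ xc (Θ (act b P)) ∈ V ∧ yc (Θ (act b P)) ∈ V ∧
      ub V (Θ P) ^ c ≠ 1 ∧
      rs V (ak Ω b) ^ 2 * rs V (xc (Θ (act b P))) =
        (c : IsLocalRing.ResidueField V) ^ 2 * xu (ub V (Θ P) ^ c) + δ ∧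
      rs V (ak Ω b) ^ 3 * rs V (2 * yc (Θ (act b P)) + xc (Θ (act b P))) =
        (c : IsLocalRing.ResidueField V) ^ 3 * zu (ub V (Θ P) ^ c) := by
    intro P hP hu
    have hu0 : ub V (Θ P) ∉ Z₀ := fun h1 => hu (Or.inl h1)
    have hu1 : ub V (Θ P) ^ c ≠ 1 := fun h1 => hu (Or.inr h1)
    obtain ⟨hbP, hg⟩ := hgen P hP hu0
    obtain ⟨r1, r2, r3, r4⟩ := j7_res h hM hb hS hmem hP hbP hg
    refine ⟨hbP, r1, r2, hu1, ?_, ?_⟩
    · rw [r3, sum_xu S₀ (fun T => ub V (Θ T)) hprod hu1]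
    · rw [r4, sum_zu S₀ (fun T => ub V (Θ T)) hprod hu1]
  -- the comparison
  set I : Set (IsLocalRing.ResidueField V) := (fun x => x ^ c) '' (Z ∪ {0, 1})ᶜ with hI
  have hIinf : I.Infinite := by
    intro hfin
    have h1 : ((fun x : IsLocalRing.ResidueField V => x ^ c) ⁻¹' I).Finite :=
      hfin.preimage' fun w _ => j7_fin hcpos w
    have h2 : ((Z ∪ {0, 1})ᶜ : Set (IsLocalRing.ResidueField V)).Finite :=
      h1.subset (Set.subset_preimage_image _ _)
    have h3 : (Z ∪ {0, 1} : Set (IsLocalRing.ResidueField V)).Finite :=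
      hZf.union (by simp)
    have h4 := h3.union h2
    rw [Set.union_compl_self] at h4
    exact Set.infinite_univ h4
  have hcomp := compare hβ0 hc0 hIinf (δ := δ) (by
    rintro w ⟨x, hx, rfl⟩
    have hxZ : x ∉ Z := fun h1 => hx (Or.inl h1)
    have hx0 : x ≠ 0 := fun h1 => hx (Or.inr (by simp [h1]))
    have hx1 : x ≠ 1 := fun h1 => hx (Or.inr (by simp [h1]))
    obtain ⟨P', hP', hPu⟩ := ex_fn hM.nod hM.ell hx0 hx1
    have hΘP : Θ (Θ.symm P') = P' := Θ.apply_symm_apply P'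
    obtain ⟨q0, q1, q2, q3, q4, q5⟩ := hres (Θ.symm P') (by rw [hΘP]; exact hP')
      (by rw [hΘP, hPu]; exact hxZ)
    rw [hΘP, hPu] at q3 q4 q5
    refine ⟨pow_ne_zero _ hx0, q3, _, _, ?_, q4, q5⟩
    refine z_sq hM.nod ?_ q1 q2
    intro h0
    apply q0
    have := congrArg Θ.symm h0
    rwa [Θ.symm_apply_apply, map_zero] at this)
  refine ⟨c, hcpos, ?_, Z, hZf, ?_⟩
  · by_cases hc1 : c = 1
    · exact Or.inl hc1
    · right
      have h1 : 1 < S₀.card := by omega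
      obtain ⟨T, hT, hT0⟩ := Finset.exists_mem_ne h1 (0 : Pt (WAB A B) Ω)
      rw [hmem] at hT
      exact ⟨T, (hS T).2 ⟨hT.1, hT0⟩, hT.2⟩
  · intro P hP hu
    obtain ⟨q0, q1, q2, q3, q4, q5⟩ := hres P hP hu
    rw [hcomp.1, add_zero, hcomp.2] at q4
    have q6 : rs V (xc (Θ (act b P))) = xu (ub V (Θ P) ^ c) :=
      mul_left_cancel₀ (pow_ne_zero 2 hc0) q4
    refine ⟨q3, ?_, q6⟩
    unfold Fn
    rw [← rs_ne_zero q1, q6]
    unfold xu
    have h5 : ub V (Θ P) ≠ 0 := (fn_ub hM.nod hP).2.1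
    exact div_ne_zero (pow_ne_zero _ h5) (pow_ne_zero _ (sub_ne_zero.2 q3))

end H55K.JJ
end

-- from Lib.H55K.J8
section

open NumberField WeierstrassCurve

namespace H55K.JJ

open H55P (IQ embF eF LF Per Pt ac Nm)
open H35P (WAB Ker IntW)

variable {F : Type} [Field F] [NumberField F] [IQ F] {A B : F} {Om : ℂ} {Ω : Type} [Field Ω] [DecidableEq Ω]
  [Algebra F Ω] [IsAlgClosed Ω] {j : Ω →+* ℂ} {act : 𝓞 F →+* AddMonoid.End (Pt (WAB A B) Ω)} {V : ValuationSubring Ω}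
  {W' : WeierstrassCurve Ω} {u : Ω} {Θ : Pt (WAB A B) Ω ≃+ W'.toAffine.Point}

/-! Chunk J8 (M). e0_act: S from exists_TN (or any Finset with TN: the set E[b] is finite), c, Z from main_b. P in Ker: choose R with w = ub (Θ R) not in Z (ex_fn, res_inf; R = Θ.symm ..): ker_shift: Fn (Θ (P + R)), ub = w not in Z; P in Fn: choose w not in Z, a w <> 1 and
a w not in Z (a = ub (Θ P)): ub_mul. In both cases act b (P + R) and act b R are in Fn, so act b P = act b (P + R) - act b R is in E0 (e0_iff, e0_add, e0_neg). tor_e0: l prime, b = l: if no T as claimed then c = 1 in main_b: for P with ub (Θ P) = w not in Z and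
w^m <> 1 for 0 < m ≤ l + 1: rs x(lP) = xu w, and ub_nsmul: Fn (Θ (l • P)), ub = w^l, so rs x(lP) = xu (w^l) (fn_ub; act (l : 𝓞 F) P = l • P). xu_inj: w^l = w or w^(l+1) = 1: contradiction (w <> 0, l ≥ 2). -/

theorem j8_TN (h : CMA F A B Om j act) {b : 𝓞 F} (hb : b ≠ 0) :
    ∃ S : Finset (Pt (WAB A B) Ω), TN act b S := by
  classical
  obtain ⟨T₀, hT₀, h1, h2, -⟩ := h.gen b hb
  let f : 𝓞 F →+ Pt (WAB A B) Ω :=
    { toFun := fun a => act a T₀
      map_zero' := by rw [map_zero]; rfl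
      map_add' := fun a c => by rw [map_add]; rfl }
  have hf : ∀ a, f a = act a T₀ := fun a => rfl
  have hker : f.ker = (Ideal.span {b} : Ideal (𝓞 F)).toAddSubgroup := by
    ext a
    rw [AddMonoidHom.mem_ker, hf, h2]
    exact Ideal.mem_span_singleton.symm
  have hran : f.range = Tor act b := by
    ext T
    rw [AddMonoidHom.mem_range]
    constructor
    · rintro ⟨a, rfl⟩
      show act b (act a T₀) = 0
      have e : act b (act a T₀) = act a (act b T₀) := by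
        have e1 : act (b * a) = act (a * b) := by rw [mul_comm]
        rw [map_mul, map_mul] at e1
        exact congrArg (fun φ : AddMonoid.End (Pt (WAB A B) Ω) => φ T₀) e1
      have e2 : act b T₀ = 0 := hT₀
      rw [e, e2, map_zero]
    · intro hT
      obtain ⟨a, ha⟩ := h1 T hT
      exact ⟨a, ha.symm⟩
  have h3 := AddSubgroup.index_ker f
  rw [hker, hran] at h3
  have hc : Nat.card (Tor act b) = Nm b := h3.symm
  have hN : Nm b ≠ 0 := by
    intro h0
    have h4 : Ideal.absNorm (Ideal.span {b} : Ideal (𝓞 F)) = 0 := h0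
    rw [Ideal.absNorm_eq_zero_iff, Ideal.span_singleton_eq_bot] at h4
    exact hb h4
  have hfin : Finite (Tor act b) := (Nat.card_ne_zero.1 (by rw [hc]; exact hN)).2
  have hfin2 : (Tor act b : Set (Pt (WAB A B) Ω)).Finite := hfin
  refine ⟨hfin2.toFinset.erase 0, fun T => ?_⟩
  rw [Finset.mem_erase, Set.Finite.mem_toFinset, and_comm]
  exact Iff.rfl

theorem e0_act (h : CMA F A B Om j act) (hM : Md A B V W' u Θ) {b : 𝓞 F}
    (hb : V.valuation ((Nm b : ℕ) : Ω) = 1) {P : Pt (WAB A B) Ω} (hP : E0 V (Θ P)) : E0 V (Θ (act b P)) := by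
  classical
  have hb0 : b ≠ 0 := (unit_b h hb).1
  obtain ⟨S, hS⟩ := j8_TN h hb0
  obtain ⟨c, hc, -, Z, hZ, hm⟩ := main_b h hM hb hS
  have hnod := hM.nod
  have := res_inf V
  have key : ∃ R : Pt (WAB A B) Ω, Fn V (Θ R) ∧ ub V (Θ R) ∉ Z ∧ Fn V (Θ (P + R)) ∧
      ub V (Θ (P + R)) ∉ Z := by
    rcases e0_iff.1 hP with hK | hF
    · obtain ⟨w, hw⟩ := ((hZ.union (Set.toFinite ({0, 1} : Set (IsLocalRing.ResidueField V)))).infinite_compl).nonempty
      rw [Set.mem_compl_iff, Set.mem_union, not_or] at hw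
      obtain ⟨hwZ, hw01⟩ := hw
      have h0 : w ≠ 0 := fun e => hw01 (by simp [e])
      have h1 : w ≠ 1 := fun e => hw01 (by simp [e])
      obtain ⟨R', hR', hu⟩ := ex_fn hnod hM.ell h0 h1
      have h3 := ker_shift hnod hM.ell hK hR'
      refine ⟨Θ.symm R', ?_⟩
      rw [map_add, Θ.apply_symm_apply]
      refine ⟨hR', ?_, h3.1, ?_⟩
      · rw [hu]
        exact hwZ
      · rw [h3.2, hu]
        exact hwZ
    · have ha0 : ub V (Θ P) ≠ 0 := (fn_ub hnod hF).2.1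
      have hfin : ((Z ∪ ({0, 1, (ub V (Θ P))⁻¹} : Set (IsLocalRing.ResidueField V))) ∪
          (fun x => (ub V (Θ P))⁻¹ * x) '' Z).Finite :=
        (hZ.union (Set.toFinite _)).union (hZ.image _)
      obtain ⟨w, hw⟩ := hfin.infinite_compl.nonempty
      rw [Set.mem_compl_iff, Set.mem_union, Set.mem_union, not_or, not_or] at hw
      obtain ⟨⟨hwZ, hw01⟩, hwi⟩ := hw
      have h0 : w ≠ 0 := fun e => hw01 (by simp [e])
      have h1 : w ≠ 1 := fun e => hw01 (by simp [e])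
      have h2 : ub V (Θ P) * w ≠ 1 := fun e => hw01 (by
        have e1 : w = (ub V (Θ P))⁻¹ := eq_inv_of_mul_eq_one_right e
        simp [e1])
      have h3 : ub V (Θ P) * w ∉ Z := fun e => hwi ⟨_, e, by
        show (ub V (Θ P))⁻¹ * (ub V (Θ P) * w) = w
        rw [← mul_assoc, inv_mul_cancel₀ ha0, one_mul]⟩
      obtain ⟨R', hR', hu⟩ := ex_fn hnod hM.ell h0 h1
      have h4 := ub_mul hnod hM.ell hF hR' (by rw [hu]; exact h2)
      refine ⟨Θ.symm R', ?_⟩
      rw [map_add, Θ.apply_symm_apply]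
      refine ⟨hR', ?_, h4.1, ?_⟩
      · rw [hu]
        exact hwZ
      · rw [h4.2, hu]
        exact h3
  obtain ⟨R, h1, h2, h3, h4⟩ := key
  have h5 := (hm R h1 h2).2.1
  have h6 := (hm (P + R) h3 h4).2.1
  have h7 : Θ (act b P) = Θ (act b (P + R)) + -Θ (act b R) := by
    rw [map_add, map_add, add_neg_cancel_right]
  rw [h7]
  exact e0_add hnod (e0_iff.2 (Or.inr h6)) (e0_neg.2 (e0_iff.2 (Or.inr h5)))

theorem tor_e0 (h : CMA F A B Om j act) (hM : Md A B V W' u Θ) {l : ℕ} (hl : l.Prime)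
    (hv : V.valuation (l : Ω) = 1) : ∃ T : Pt (WAB A B) Ω, l • T = 0 ∧ T ≠ 0 ∧ E0 V (Θ T) := by
  classical
  have hNm : Nm (l : 𝓞 F) = l ^ 2 := Nm_nat l
  have hb : V.valuation ((Nm (l : 𝓞 F) : ℕ) : Ω) = 1 := by
    rw [hNm, Nat.cast_pow, map_pow, hv, one_pow]
  have hb0 : (l : 𝓞 F) ≠ 0 := (unit_b h hb).1
  obtain ⟨S, hS⟩ := j8_TN h hb0
  obtain ⟨c, hc, hc1, Z, hZ, hm⟩ := main_b h hM hb hS
  have hnod := hM.nod
  have := res_inf V
  have hact : ∀ P : Pt (WAB A B) Ω, act (l : 𝓞 F) P = l • P := by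
    intro P
    rw [map_natCast]
    rfl
  rcases hc1 with hc1 | ⟨T, hT, hTE⟩
  · exfalso
    subst hc1
    have hfin : ((Z ∪ ({0, 1} : Set (IsLocalRing.ResidueField V))) ∪
        ⋃ m ∈ Finset.Icc 1 (l + 1), {x : IsLocalRing.ResidueField V | x ^ m = 1}).Finite := by
      refine (hZ.union (Set.toFinite _)).union ?_
      refine Set.Finite.biUnion (Finset.finite_toSet _) ?_
      intro m hmm
      exact j7_fin (by have := Finset.mem_Icc.1 (Finset.mem_coe.1 hmm); omega) 1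
    obtain ⟨w, hw⟩ := hfin.infinite_compl.nonempty
    rw [Set.mem_compl_iff, Set.mem_union, Set.mem_union, not_or, not_or] at hw
    obtain ⟨⟨hwZ, hw01⟩, hwi⟩ := hw
    have h0 : w ≠ 0 := fun e => hw01 (by simp [e])
    have h1 : w ≠ 1 := fun e => hw01 (by simp [e])
    have h2 : ∀ m : ℕ, 0 < m → m ≤ l + 1 → w ^ m ≠ 1 := by
      intro m hm0 hm1 e
      apply hwi
      rw [Set.mem_iUnion₂]
      exact ⟨m, Finset.mem_Icc.2 ⟨hm0, hm1⟩, e⟩
    obtain ⟨R', hR', hu⟩ := ex_fn hnod hM.ell h0 h1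
    have h3 := hm (Θ.symm R') (by rw [Θ.apply_symm_apply]; exact hR') (by
      rw [Θ.apply_symm_apply, hu]
      exact hwZ)
    obtain ⟨-, h4, h5⟩ := h3
    rw [hact, map_nsmul, Θ.apply_symm_apply, hu, pow_one] at h5
    have h6 := ub_nsmul hnod hM.ell hR' hl.pos (by
      intro m hm0 hm1
      rw [hu]
      exact h2 m hm0 (by omega))
    have h7 := (fn_ub hnod h6.1).2.2.2.1
    rw [h5, h6.2, hu] at h7
    have hl2 := hl.two_le
    rcases xu_inj h1 (h2 l hl.pos (by omega)) h7 with e | e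
    · have e1 : w ^ (l - 1) * w = 1 * w := by
        rw [← pow_succ, one_mul]
        have e2 : l - 1 + 1 = l := by omega
        rw [e2]
        exact e.symm
      exact h2 (l - 1) (by omega) (by omega) (mul_right_cancel₀ h0 e1)
    · exact h2 (l + 1) (by omega) le_rfl (by rw [pow_succ, mul_comm]; exact e)
  · obtain ⟨h1, h2⟩ := (hS T).1 hT
    exact ⟨T, by rw [← hact]; exact h1, h2, hTE⟩

end H55K.JJ
end

-- from Lib.H55K.J9
section

open NumberField WeierstrassCurve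

namespace H55K.JJ

open H55P (IQ embF eF LF Per Pt ac Nm)
open H35P (WAB Ker IntW)

section gen

variable {k : Type} [Field k] [DecidableEq k] [IsAlgClosed k] {W : WeierstrassCurve k} {V : ValuationSubring k}

/-- The points killed by l with nonsingular reduction. -/
def J9G (V : ValuationSubring k) (l : ℕ) (X : W.toAffine.Point) : Prop := E0 V X ∧ l • X = 0

theorem j9_zero (l : ℕ) : J9G V l (0 : W.toAffine.Point) := ⟨Or.inl rfl, smul_zero _⟩

theorem j9_add (h : Nod W V) {l : ℕ} {X Y : W.toAffine.Point} (hX : J9G V l X) (hY : J9G V l Y) : J9G V l (X + Y) :=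
  ⟨e0_add h hX.1 hY.1, by rw [smul_add, hX.2, hY.2, add_zero]⟩

theorem j9_neg {l : ℕ} {X : W.toAffine.Point} (hX : J9G V l X) : J9G V l (-X) :=
  ⟨e0_neg.2 hX.1, by rw [smul_neg, hX.2, neg_zero]⟩

theorem j9_nsmul (h : Nod W V) {l : ℕ} {X : W.toAffine.Point} (hX : J9G V l X) (n : ℕ) : J9G V l (n • X) := by
  induction n with
  | zero => rw [zero_smul]; exact j9_zero l
  | succ n ih => rw [succ_nsmul]; exact j9_add h ih hX

theorem j9_fn (h : Nod W V) {l : ℕ} (hv : V.valuation (l : k) = 1) {X : W.toAffine.Point} (hX : J9G V l X)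
    (h0 : X ≠ 0) : Fn V X := by
  rcases e0_iff.1 hX.1 with hk | hf
  · exact absurd (H35P.fg h.intW X l hv hX.2 hk) h0
  · exact hf

theorem j9_mul (h : Nod W V) (hΔ : W.Δ ≠ 0) {l : ℕ} (hv : V.valuation (l : k) = 1) {X Y : W.toAffine.Point}
    (hX : J9G V l X) (hY : J9G V l Y) : ub V (X + Y) = ub V X * ub V Y := by
  by_cases hX0 : X = 0
  · rw [hX0, zero_add, ub_zero, one_mul]
  by_cases hY0 : Y = 0
  · rw [hY0, add_zero, ub_zero, mul_one]
  by_cases hXY : X + Y = 0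
  · have e : X = -Y := eq_neg_of_add_eq_zero_left hXY
    have hf := j9_fn h hv hY hY0
    rw [hXY, ub_zero, e, (fn_neg h hf).2, inv_mul_cancel₀ (fn_ub h hf).2.1]
  · exact (ub_mul' h hΔ (j9_fn h hv hX hX0) (j9_fn h hv hY hY0)
      (ker_fn (j9_fn h hv (j9_add h hX hY) hXY))).2

theorem j9_pow (h : Nod W V) (hΔ : W.Δ ≠ 0) {l : ℕ} (hv : V.valuation (l : k) = 1) {X : W.toAffine.Point}
    (hX : J9G V l X) (n : ℕ) : ub V (n • X) = ub V X ^ n := by
  induction n with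
  | zero => rw [zero_smul, ub_zero, pow_zero]
  | succ n ih => rw [succ_nsmul, j9_mul h hΔ hv (j9_nsmul h hX n) hX, ih, pow_succ]

theorem j9_cyc (h : Nod W V) (hΔ : W.Δ ≠ 0) {l : ℕ} (hl : l.Prime) (hv : V.valuation (l : k) = 1)
    {X Y : W.toAffine.Point} (hX : J9G V l X) (hX0 : X ≠ 0) (hY : J9G V l Y) : ∃ n : ℕ, Y = n • X := by
  have := Fact.mk hl
  have h1 : ub V X ≠ 1 := (fn_ub h (j9_fn h hv hX hX0)).2.2.1
  have h2 : ub V X ^ l = 1 := by rw [← j9_pow h hΔ hv hX, hX.2, ub_zero]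
  have h3 : ub V Y ^ l = 1 := by rw [← j9_pow h hΔ hv hY, hY.2, ub_zero]
  have h4 : orderOf (ub V X) = l := orderOf_eq_prime h2 h1
  have h5 : IsPrimitiveRoot (ub V X) l := by
    have := IsPrimitiveRoot.orderOf (ub V X)
    rwa [h4] at this
  have : NeZero l := ⟨hl.ne_zero⟩
  obtain ⟨n, -, hn⟩ := h5.eq_pow_of_pow_eq_one h3
  refine ⟨n, ?_⟩
  have hnX := j9_nsmul h hX n
  have hD := j9_add h hY (j9_neg hnX)
  have e : ub V Y = ub V (Y + -(n • X)) * ub V (n • X) := by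
    rw [← j9_mul h hΔ hv hD hnX, neg_add_cancel_right]
  rw [j9_pow h hΔ hv hX, hn] at e
  have hY0 : ub V Y ≠ 0 := by
    intro h0
    rw [h0, zero_pow hl.ne_zero] at h3
    exact zero_ne_one h3
  have e1 : ub V (Y + -(n • X)) = 1 := by
    have : ub V (Y + -(n • X)) * ub V Y = 1 * ub V Y := by rw [← e, one_mul]
    exact mul_right_cancel₀ hY0 this
  by_contra hne
  have hD0 : Y + -(n • X) ≠ 0 := fun h0 => hne (by rwa [← sub_eq_add_neg, sub_eq_zero] at h0)
  exact (fn_ub h (j9_fn h hv hD hD0)).2.2.1 e1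

end gen

variable {F : Type} [Field F] [NumberField F] [IQ F] {A B : F} {Om : ℂ} {Ω : Type} [Field Ω] [DecidableEq Ω]
  [Algebra F Ω] [IsAlgClosed Ω] {j : Ω →+* ℂ} {act : 𝓞 F →+* AddMonoid.End (Pt (WAB A B) Ω)} {V : ValuationSubring Ω}
  {W' : WeierstrassCurve Ω} {u : Ω} {Θ : Pt (WAB A B) Ω ≃+ W'.toAffine.Point}

theorem j9_nat (act : 𝓞 F →+* AddMonoid.End (Pt (WAB A B) Ω)) (n : ℕ) (T : Pt (WAB A B) Ω) :
    act (n : 𝓞 F) T = n • T := by
  rw [map_natCast]
  exact AddMonoid.End.natCast_apply n T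

/-! Chunk J9 (M). T from tor_e0; T' = act b T is in E0 (e0_act), l • T' = 0. If T' = 0 then n = 0 works below. ub (Θ T) is <> 1 and its l-th power is 1 (Fn (Θ T) by tor_out-type argument: H35P.fg; k • T for 0 < k < l is in E0, not 0, so Fn; ub is multiplicative on the
multiples of T: ub_mul', induction; l • T = 0): a primitive l-th root of unity (l prime). T' <> 0: Fn (Θ T'), ub (Θ T')^l = 1 in the same way, so ub (Θ T') = ub (Θ T)^n for some 0 ≤ n < l (IsPrimitiveRoot.eq_pow_of_pow_eq_one), = ub (Θ (n • T)) (n <> 0), so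
Ker (Θ (T' - n • T)) (rd_fn) and T' - n • T is killed by l: it is 0 (H35P.fg). So act (b - n) T = 0. h.gen for l: T = act a T0, not l | a (T <> 0), act ((b - n) a) T0 = 0, so l | (b - n) a, and l is prime in 𝓞 F: l | b - n: contradiction to hn. -/
theorem absurd_lb (h : CMA F A B Om j act) (hM : Md A B V W' u Θ) {l : ℕ} (hl : l.Prime)
    (hp : Prime (l : 𝓞 F)) (hv : V.valuation (l : Ω) = 1) {b : 𝓞 F} (hb : V.valuation ((Nm b : ℕ) : Ω) = 1)
    (hn : ∀ n : ℤ, ¬ (l : 𝓞 F) ∣ b - n) : False := by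
  obtain ⟨T, hT, hT0, hTE⟩ := tor_e0 h hM hl hv
  have hX : J9G V l (Θ T) := ⟨hTE, by rw [← map_nsmul, hT, map_zero]⟩
  have hX0 : Θ T ≠ 0 := fun h0 => hT0 (by
    have := congrArg Θ.symm h0
    rwa [Θ.symm_apply_apply, map_zero] at this)
  have hY : J9G V l (Θ (act b T)) := ⟨e0_act h hM hb hTE, by rw [← map_nsmul, ← map_nsmul, hT, map_zero, map_zero]⟩
  obtain ⟨n, hn'⟩ := j9_cyc hM.nod hM.ell hl hv hX hX0 hY
  rw [← map_nsmul] at hn'
  have e1 : act b T = n • T := Θ.injective hn'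
  have e2 : act (b - (n : 𝓞 F)) T = 0 := by
    rw [map_sub]
    show act b T - act (n : 𝓞 F) T = 0
    rw [e1, j9_nat, sub_self]
  obtain ⟨T₀, -, g2, g3, -⟩ := h.gen (l : 𝓞 F) hp.ne_zero
  obtain ⟨a, ha⟩ := g2 T (by
    show act (l : 𝓞 F) T = 0
    rw [j9_nat, hT])
  have e3 : act ((b - (n : 𝓞 F)) * a) T₀ = 0 := by
    rw [map_mul]
    show act (b - (n : 𝓞 F)) (act a T₀) = 0
    rw [← ha, e2]
  rcases hp.dvd_or_dvd ((g3 _).1 e3) with h1 | h1
  · exact hn n (by exact_mod_cast h1)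
  · apply hT0
    rw [ha]
    exact (g3 a).2 h1

end H55K.JJ
end

-- from Lib.H55K.JM
section

/-! # H55K, part J: the j-invariant of a curve with complex multiplication is integral -/

open NumberField WeierstrassCurve

namespace H55K

open H55P (IQ embF eF LF Per Pt ac Nm)
open H35P (WAB Ker IntW)

theorem exists_jint {F : Type} [Field F] [NumberField F] [IQ F] {A B : F} {Om : ℂ} {Ω : Type} [Field Ω] [DecidableEq Ω]
    [Algebra F Ω] [IsAlgClosed Ω] {j : Ω →+* ℂ} {act : 𝓞 F →+* AddMonoid.End (Pt (WAB A B) Ω)}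
    (h : CMA F A B Om j act) : ∃ j₀ : 𝓞 F, (j₀ : F) * (4 * A ^ 3 + 27 * B ^ 2) = 6912 * A ^ 3 := by
  have hC : CharZero Ω := charZero_of_injective_algebraMap (algebraMap F Ω).injective
  obtain ⟨x₀, hx₀⟩ := JJ.int_of_val Ω (6912 * A ^ 3 / (4 * A ^ 3 + 27 * B ^ 2)) (fun V => by
    by_contra hV
    rw [not_le] at hV
    obtain ⟨W', u, Θ, hM⟩ := JJ.exists_md h.disc V hV
    obtain ⟨l, b, hl, hp, hv, hb, hn⟩ := JJ.choose_lb F V
    exact JJ.absurd_lb h hM hl hp hv hb hn)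
  refine ⟨x₀, ?_⟩
  rw [hx₀, div_mul_cancel₀ _ h.disc]

end H55K
end

-- from Lib.H55K.JE
section

/-! # H55K, part J: the j-invariant of a curve with complex multiplication is integral -/

open NumberField IsDedekindDomain WeierstrassCurve

namespace H55K

open H55P (IQ embF eF LF Per IsHecke Pt ac Inert Dec Nm CMData)
open H35P (WAB Ker tt)

variable {F : Type} [Field F] [NumberField F] [IQ F] {W₀ : WeierstrassCurve (𝓞 F)} {Om : ℂ}
    {m : Ideal (𝓞 F)} {ψ : Ideal (𝓞 F) →*₀ 𝓞 F}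

/-- THE j-INVARIANT IS INTEGRAL, for all the curves with complex multiplication by the integers of F (from the period lattice). -/
theorem jint_of (hD : Per F (-(eF F W₀.c₄) / 48) (-(eF F W₀.c₆) / 864) Om) (hΔ : W₀.Δ ≠ 0) :
    ∃ j₀ : 𝓞 F, W₀.c₄ ^ 3 = j₀ * W₀.Δ := by
  classical
  obtain ⟨j, hj⟩ := exists_j F (AlgebraicClosure F)
  obtain ⟨A, hA⟩ : ∃ A : F, A = -(algebraMap (𝓞 F) F W₀.c₄) / 48 := ⟨_, rfl⟩
  obtain ⟨B, hB'⟩ : ∃ B : F, B = -(algebraMap (𝓞 F) F W₀.c₆) / 864 := ⟨_, rfl⟩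
  have hd := y3_ne W₀ hA hB' hΔ
  have hper : Per F (embF F A) (embF F B) Om := by
    have e1 : embF F A = -(eF F W₀.c₄) / 48 := by
      rw [hA, map_div₀, map_neg, map_ofNat]
      rfl
    have e2 : embF F B = -(eF F W₀.c₆) / 864 := by
      rw [hB', map_div₀, map_neg, map_ofNat]
      rfl
    rw [e1, e2]
    exact hD
  obtain ⟨act, hact⟩ := exists_CMA F A B Om j hd hper hj
  obtain ⟨j₀, hj₀⟩ := exists_jint hact
  refine ⟨j₀, ?_⟩
  have hc : (1728 : 𝓞 F) * W₀.Δ = W₀.c₄ ^ 3 - W₀.c₆ ^ 2 := W₀.c_relation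
  have hc' : (1728 : F) * algebraMap (𝓞 F) F W₀.Δ = algebraMap (𝓞 F) F W₀.c₄ ^ 3 - algebraMap (𝓞 F) F W₀.c₆ ^ 2 := by
    have := congrArg (algebraMap (𝓞 F) F) hc
    rw [map_mul, map_ofNat, map_sub, map_pow, map_pow] at this
    exact this
  have h16 : (j₀ : F) * algebraMap (𝓞 F) F W₀.Δ = algebraMap (𝓞 F) F W₀.c₄ ^ 3 := by
    rw [hA, hB'] at hj₀
    have e : (4 : F) * (-(algebraMap (𝓞 F) F W₀.c₄) / 48) ^ 3 + 27 * (-(algebraMap (𝓞 F) F W₀.c₆) / 864) ^ 2 =
        -(algebraMap (𝓞 F) F W₀.Δ) / 16 := by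
      linear_combination (1 / 27648 : F) * hc'
    rw [e] at hj₀
    linear_combination (-16 : F) * hj₀
  apply RingOfIntegers.coe_injective
  rw [map_pow, map_mul]
  exact h16.symm

end H55K
end

-- from Lib.H55K.G8C
section

/-! # H55K: Frobenius elements: the generator -/

open NumberField IsDedekindDomain WeierstrassCurve

namespace H55K

open H55P (IQ embF eF LF Per IsHecke Pt ac Inert Dec Nm)
open H35P (WAB Ker tt)


variable {F : Type} [Field F] [NumberField F] [IQ F] {A B : F} {Om : ℂ} {Ω : Type} [Field Ω] [DecidableEq Ω]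
  [Algebra F Ω] {j : Ω →+* ℂ} {act : 𝓞 F →+* AddMonoid.End (Pt (WAB A B) Ω)} {V : ValuationSubring Ω}

omit [NumberField F] [IQ F] [DecidableEq Ω] in
theorem g8c_dec {q : ℕ} (hq : 0 < q) (s : Ω ≃ₐ[F] Ω) (hs : ∀ x ∈ V, V.valuation (s x - x ^ q) < 1) : Dec V s := by
  have h1 : ∀ x ∈ V, s x ∈ V := by
    intro x hx
    have e : s x = (s x - x ^ q) + x ^ q := by ring
    rw [e]
    exact V.add_mem _ _ ((V.valuation_le_one_iff _).1 (hs x hx).le) (pow_mem hx q)
  intro x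
  refine ⟨fun hx => ?_, h1 x⟩
  by_contra hc
  have h2 : 1 < V.valuation x := by
    rw [← not_le, V.valuation_le_one_iff]
    exact hc
  have hx0 : x ≠ 0 := by
    rintro rfl
    exact hc V.zero_mem
  have h3 : V.valuation x⁻¹ < 1 := by
    rw [map_inv₀]
    exact inv_lt_one_of_one_lt₀ h2
  have h4 : V.valuation (s x⁻¹) < 1 := by
    have h5 := hs x⁻¹ ((V.valuation_le_one_iff _).1 h3.le)
    have h6 : V.valuation (x⁻¹ ^ q) < 1 := by
      rw [map_pow]
      exact pow_lt_one₀ zero_le h3 hq.ne'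
    have e : s x⁻¹ = (s x⁻¹ - x⁻¹ ^ q) + x⁻¹ ^ q := by ring
    rw [e]
    exact V.valuation.map_add_lt h5 h6
  have h7 : V.valuation (s x) * V.valuation (s x⁻¹) = 1 := by
    rw [← map_mul, ← map_mul, mul_inv_cancel₀ hx0, map_one, map_one]
  have h8 : V.valuation (s x) * V.valuation (s x⁻¹) < 1 := by
    rw [mul_comm]
    exact mul_lt_one_of_lt_of_le h4 ((V.valuation_le_one_iff _).2 hx)
  rw [h7] at h8
  exact lt_irrefl _ h8

/-- Chunk G8C (M). THE FROBENIUS ELEMENT IS A MULTIPLICATION. κ from frob_x, u from unit_sq (zero_A, zero_B; not A = B = 0 by h.disc). β' = u⁻¹ β: xc (β' X) = u^2 xc (βX) (act_unit_x), so V(xc (β'X) - xc X^q) < 1 for X not in Ker. hs: V(xc (sX) - xc X^q) < 1, V(yc (sX) - yc X^q) < 1 (xc_ac, yc_ac; xc X, yc X in V: not_ker, gv_y).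
So xc (β'X), xc (sX) are congruent, both points are not in Ker (ker_red, ker_ac; hs implies Dec V s: x in V implies s x in V, and conversely if s x in V and x not in V then 1/x has value < 1 and so has s (1/x)): cls_x: β'X - sX or β'X + sX in Ker. For X in Ker both β'X and sX are in Ker (ker_act, ker_ac). two_sub with K = kerG:
γ = β' or γ = -β'. -/
theorem frob_gen (h : CMA F A B Om j act) (hV : GV A B V) {β : 𝓞 F} (hβ : Prime β)
    (hv : V.valuation (ak Ω β) < 1) (hq : (Nm β).Prime)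
    (hA : A = 0 ∨ V.valuation (algebraMap F Ω A) = 1) (hB : B = 0 ∨ V.valuation (algebraMap F Ω B) = 1)
    (s : Ω ≃ₐ[F] Ω) (hs : ∀ x ∈ V, V.valuation (s x - x ^ Nm β) < 1) :
    ∃ γ : 𝓞 F, Associated β γ ∧ ∀ X : Pt (WAB A B) Ω, Ker V (act γ X - ac (WAB A B) s X) := by
  obtain ⟨κ, hκ, hx, h2, h3⟩ := frob_x h hV hβ hv hq
  have hAB : ¬(A = 0 ∧ B = 0) := by
    rintro ⟨rfl, rfl⟩
    apply h.disc
    ring
  obtain ⟨u, hu⟩ := unit_sq V hA hB hAB (fun hA0 => zero_A h.per hA0) (fun hB0 => zero_B h.per hB0) κ hκ h2 h3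
  have hDec : Dec V s := g8c_dec hq.pos s hs
  have hmul : ∀ (a b : 𝓞 F) (X : Pt (WAB A B) Ω), act (a * b) X = act a (act b X) := by
    intro a b X
    rw [map_mul]
    rfl
  set β' : 𝓞 F := ((u⁻¹ : (𝓞 F)ˣ) : 𝓞 F) * β with hβ'
  have hβx : ∀ X : Pt (WAB A B) Ω, xc (act β' X) = ak Ω (u : 𝓞 F) ^ 2 * xc (act β X) := by
    intro X
    have e1 := act_unit_x h u⁻¹ (act β X)
    have e2 : ak Ω (u : 𝓞 F) * ak Ω ((u⁻¹ : (𝓞 F)ˣ) : 𝓞 F) = 1 := by
      have e3 : (u : 𝓞 F) * ((u⁻¹ : (𝓞 F)ˣ) : 𝓞 F) = 1 := Units.mul_inv u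
      have e5 : ak Ω ((u : 𝓞 F) * ((u⁻¹ : (𝓞 F)ˣ) : 𝓞 F)) = ak Ω (u : 𝓞 F) * ak Ω ((u⁻¹ : (𝓞 F)ˣ) : 𝓞 F) := by
        unfold ak
        rw [← map_mul, ← map_mul]
      rw [← e5, e3]
      exact (congrArg (algebraMap F Ω) (map_one (algebraMap (𝓞 F) F))).trans (map_one _)
    rw [hβ', hmul, ← e1]
    linear_combination (-(1 + ak Ω (u : 𝓞 F) * ak Ω ((u⁻¹ : (𝓞 F)ˣ) : 𝓞 F)) *
      xc (act ((u⁻¹ : (𝓞 F)ˣ) : 𝓞 F) (act β X))) * e2
  have hkey : ∀ X : Pt (WAB A B) Ω, ¬ Ker V X →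
      Ker V (act β' X - ac (WAB A B) s X) ∨ Ker V (act β' X + ac (WAB A B) s X) := by
    intro X hX
    have n1 : ¬ Ker V (act β X) := fun h' => hX (ker_red h hV hβ hv h')
    have n2 : ¬ Ker V (act β' X) := by
      intro h'
      apply n1
      have := ker_act h hV (u : 𝓞 F) h'
      rw [← hmul, hβ', ← mul_assoc, Units.mul_inv, one_mul] at this
      exact this
    have n3 : ¬ Ker V (ac (WAB A B) s X) := fun h' => hX ((ker_ac s hDec).1 h')
    refine cls_x hV n2 n3 ?_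
    have v1 := hx X hX
    have v2 : V.valuation ((κ - ak Ω (u : 𝓞 F) ^ 2) * xc (act β X)) < 1 := by
      rw [map_mul]
      exact mul_lt_one_of_lt_of_le hu (not_ker V n1).2
    have v3 : V.valuation (s (xc X) - xc X ^ Nm β) < 1 :=
      hs _ ((V.valuation_le_one_iff _).1 (not_ker V hX).2)
    have e : xc (act β' X) - xc (ac (WAB A B) s X) = (κ * xc (act β X) - xc X ^ Nm β) -
        (κ - ak Ω (u : 𝓞 F) ^ 2) * xc (act β X) - (s (xc X) - xc X ^ Nm β) := by
      rw [hβx, xc_ac]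
      ring
    rw [e]
    exact (V.valuation.map_sub_lt (V.valuation.map_sub_lt v1 v2) v3)
  have hall : ∀ X : Pt (WAB A B) Ω, (act β' X - ac (WAB A B) s X ∈ kerG hV) ∨
      (act β' X + ac (WAB A B) s X ∈ kerG hV) := by
    intro X
    by_cases hX : Ker V X
    · left
      exact ksub hV (ker_act h hV _ hX) ((ker_ac s hDec).2 hX)
    · exact hkey X hX
  rcases two_sub (kerG hV) (act β' : Pt (WAB A B) Ω →+ Pt (WAB A B) Ω) (ac (WAB A B) s) hall with h5 | h5
  · refine ⟨β', ⟨u⁻¹, mul_comm _ _⟩, fun X => h5 X⟩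
  · refine ⟨-β', ?_, fun X => ?_⟩
    · exact Associated.neg_right ⟨u⁻¹, mul_comm _ _⟩
    · have e : act (-β') X - ac (WAB A B) s X = -(act β' X + ac (WAB A B) s X) := by
        rw [map_neg]
        change -(act β' X) - ac (WAB A B) s X = _
        abel
      rw [e]
      exact kneg (h5 X)

end H55K
end

-- from Lib.H55K.G9A
section

/-! # H55K: counting the points of the reduction -/

open NumberField IsDedekindDomain WeierstrassCurve

namespace H55K

open H55P (IQ embF eF LF Per IsHecke Pt ac Inert Dec Nm)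
open H35P (WAB Ker tt)


variable {F : Type} [Field F] [NumberField F] [IQ F] {A B : F} {Om : ℂ} {Ω : Type} [Field Ω] [DecidableEq Ω]
  [Algebra F Ω] {j : Ω →+* ℂ} {act : 𝓞 F →+* AddMonoid.End (Pt (WAB A B) Ω)} {V : ValuationSubring Ω}

/-- A point killed by b and congruent to X modulo the kernel of reduction. -/
theorem g9_surj (h : CMA F A B Om j act) (hV : GV A B V) {b : 𝓞 F} (hb : V.valuation (ak Ω b) = 1)
    {X : Pt (WAB A B) Ω} (hX : Ker V (act b X)) : ∃ T ∈ Tor act b, Ker V (X - T) := by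
  have hb0 : b ≠ 0 := by
    rintro rfl
    have h1 : ak Ω (0 : 𝓞 F) = 0 := by
      show algebraMap F Ω ((0 : 𝓞 F) : F) = 0
      simp
    rw [h1, map_zero] at hb
    exact zero_ne_one hb
  by_cases hK0 : act b X = 0
  · refine ⟨X, hK0, ?_⟩
    rw [sub_self]
    exact ker_zero V
  by_contra hcon
  push Not at hcon
  -- no translate of X by a torsion point is in the kernel
  have hno : ∀ R, act b R = 0 → ¬ Ker V (X + R) := by
    intro R hR hk
    refine hcon (-R) ?_ ?_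
    · show act b (-R) = 0
      rw [map_neg, hR, neg_zero]
    · rw [sub_neg_eq_add]
      exact hk
  obtain ⟨S, hS, -⟩ := exists_TN h hb0
  obtain ⟨Y, hY, hYS⟩ := inf_cls h hV (Hb act hV b) (Hb_ne h hV hb0) S
  have hYb : ¬ Ker V (act b Y) := fun hk => hY ((mem_Hb hV b Y).2 hk)
  have hY0 : act b Y ≠ 0 := (not_ker V hYb).1
  have hYk : ¬ Ker V Y := (Hb_add h hV hY (map_zero (act b))).2.1
  have hXk : ¬ Ker V X := by
    have := hno 0 (map_zero (act b))
    rwa [add_zero] at this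
  have he := h.e2 b S hb0 hS X Y hK0 hY0
  have hv := congrArg V.valuation he
  rw [map_mul, map_mul, map_mul, map_pow, hb, one_pow, one_mul, map_prod, map_prod] at hv
  have h1 : 1 < V.valuation (xc (act b X)) := (ker_iff V hK0).1 hX
  have h2 : V.valuation (xc (act b Y)) ≤ 1 := (not_ker V hYb).2
  have h3 : V.valuation (xc (act b X) - xc (act b Y)) = V.valuation (xc (act b X)) :=
    Valuation.map_sub_eq_of_lt_left V.valuation (h2.trans_lt h1)
  have h4 : ∏ R ∈ S, V.valuation (xc R - xc Y) = 1 := by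
    apply Finset.prod_eq_one
    intro R hR
    have hR' := (hS R).1 hR
    have hRk : ¬ Ker V R := fun hk => hR'.2 (tor_unit h hV hb hR'.1 hk)
    have hYR : ¬ Ker V (Y - R) := hYS R hR
    have hnR : -R ∈ S := (hS (-R)).2 ⟨by rw [map_neg, hR'.1, neg_zero], neg_ne hR'.2⟩
    have hYR2 : ¬ Ker V (Y - (-R)) := hYS (-R) hnR
    apply cls_diff hV hRk hYk
    · intro hk
      apply hYR
      have := kneg hk
      rwa [neg_sub] at this
    · intro hk
      apply hYR2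
      rwa [sub_neg_eq_add, add_comm]
  rw [h3, h4, mul_one] at hv
  have hint : ∀ P : Pt (WAB A B) Ω, ¬ Ker V P → V.valuation (xc P - xc Y) ≤ 1 := by
    intro P hP
    exact (Valuation.map_sub _ _ _).trans (max_le (not_ker V hP).2 (not_ker V hYk).2)
  have h5 : V.valuation (xc X - xc Y) * ∏ R ∈ S, V.valuation (xc (X + R) - xc Y) ≤ 1 := by
    refine mul_le_one' (hint X hXk) (Finset.prod_le_one' ?_)
    intro R hR
    exact hint _ (hno R ((hS R).1 hR).1)
  rw [← hv] at h5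
  exact absurd h1 (not_lt.2 h5)

/-- Chunk G9A (M). b with V(b) = 1 (b ≠ 0). The map Tor act b -> {classes c of X modulo kerG : act b X in Ker} is bijective. Injective: tor_unit. Surjective: let act b X = K in Ker. If K = 0 done. It is enough to find Z in Ker with act b Z = K (then X - Z is in Tor and has the same class). surj: act b Z₀ = K. S the nonzero points killed by b (exists_TN).
Suppose Z₀ + R is not in Ker for R = 0 and all R in S. Take Y not in Hb act hV b (Hb_ne) with Y - R, Y + R not in Ker for R in S (inf_cls). e2 (X = Z₀): V(xc K - xc (act b Y)) > 1 (xc K large, act b Y not in Ker), V(xc R - xc Y) = 1 for R in S (R is not in Ker by tor_unit; cls_diff), and the right side has value ≤ 1: contradiction. -/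
theorem cls_card (h : CMA F A B Om j act) (hV : GV A B V) {b : 𝓞 F} (hb : V.valuation (ak Ω b) = 1) :
    Nat.card {c : Pt (WAB A B) Ω ⧸ kerG hV // ∃ X : Pt (WAB A B) Ω, (X : Pt (WAB A B) Ω ⧸ kerG hV) = c ∧
      Ker V (act b X)} = Nm b := by
  have hb0 : b ≠ 0 := by
    rintro rfl
    have h1 : ak Ω (0 : 𝓞 F) = 0 := by
      show algebraMap F Ω ((0 : 𝓞 F) : F) = 0
      simp
    rw [h1, map_zero] at hb
    exact zero_ne_one hb
  rw [← tor_card h hb0]
  symm
  have hk : ∀ T : Tor act b, Ker V (act b (T : Pt (WAB A B) Ω)) := by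
    intro T
    have h1 : act b (T : Pt (WAB A B) Ω) = 0 := T.2
    rw [h1]
    exact ker_zero V
  apply Nat.card_eq_of_bijective (fun T : Tor act b =>
    (⟨((T : Pt (WAB A B) Ω) : Pt (WAB A B) Ω ⧸ kerG hV), T, rfl, hk T⟩ :
      {c : Pt (WAB A B) Ω ⧸ kerG hV // ∃ X : Pt (WAB A B) Ω, (X : Pt (WAB A B) Ω ⧸ kerG hV) = c ∧
        Ker V (act b X)}))
  constructor
  · intro T T' hTT
    have h1 := congrArg Subtype.val hTT
    simp only at h1
    rw [QuotientAddGroup.eq] at h1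
    have h2 : (-T + T' : Tor act b) = 0 := by
      apply Subtype.ext
      exact tor_unit h hV hb (-T + T' : Tor act b).2 h1
    exact neg_add_eq_zero.1 h2
  · rintro ⟨c, X, rfl, hX⟩
    obtain ⟨T, hT, hXT⟩ := g9_surj h hV hb hX
    refine ⟨⟨T, hT⟩, ?_⟩
    apply Subtype.ext
    show (T : Pt (WAB A B) Ω ⧸ kerG hV) = X
    rw [QuotientAddGroup.eq, neg_add_eq_sub]
    exact hXT

end H55K
end

-- from Lib.H55K.G10C
section

/-! # H55K: the Frobenius elements are the values of the Hecke character -/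

open NumberField IsDedekindDomain WeierstrassCurve

namespace H55K

open H55P (IQ embF eF LF Per IsHecke Pt ac Inert Dec Nm)
open H35P (WAB Ker tt)


variable {F : Type} [Field F] [NumberField F] [IQ F] {A B : F} {Om : ℂ} {Ω : Type} [Field Ω] [DecidableEq Ω]
  [Algebra F Ω] {j : Ω →+* ℂ} {act : 𝓞 F →+* AddMonoid.End (Pt (WAB A B) Ω)} {V : ValuationSubring Ω}

/-- Chunk G10C (M). Assembly. S = the union of the finite sets for the elements 2, 3, 4A^3 + 27B^2, A (if ≠ 0), B (if ≠ 0), Δ(W₀) (fin_unit; V(Δ) = 1 excludes Δ in v), gam_eq and the primes containing m (finite, m ≠ bottom: h.hecke ne; Ideal.finite_factors). For v outside S, V above v: GV A B V. -/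
theorem gv_fin (hd : 4 * A ^ 3 + 27 * B ^ 2 ≠ 0) (Ω : Type) [Field Ω] [Algebra F Ω] :
    ∃ S : Set (HeightOneSpectrum (𝓞 F)), S.Finite ∧ ∀ v ∉ S, ∀ V : ValuationSubring Ω,
      (∀ a : 𝓞 F, a ∈ v.asIdeal → V.valuation (ak Ω a) < 1) → GV A B V ∧
        (A = 0 ∨ V.valuation (algebraMap F Ω A) = 1) ∧ (B = 0 ∨ V.valuation (algebraMap F Ω B) = 1) := by
  have hfin : ∀ x : F, ∃ S : Set (HeightOneSpectrum (𝓞 F)), S.Finite ∧ ∀ v ∉ S, ∀ V : ValuationSubring Ω,
      (∀ a : 𝓞 F, a ∈ v.asIdeal → V.valuation (ak Ω a) < 1) →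
        x = 0 ∨ V.valuation (algebraMap F Ω x) = 1 := by
    intro x
    by_cases hx : x = 0
    · exact ⟨∅, Set.finite_empty, fun _ _ _ _ => Or.inl hx⟩
    · obtain ⟨S, hS, h⟩ := fin_unit Ω x hx
      exact ⟨S, hS, fun v hv V hV => Or.inr (h v hv V hV)⟩
  obtain ⟨S₁, f₁, g₁⟩ := hfin A
  obtain ⟨S₂, f₂, g₂⟩ := hfin B
  obtain ⟨S₃, f₃, g₃⟩ := hfin 2
  obtain ⟨S₄, f₄, g₄⟩ := hfin 3
  obtain ⟨S₅, f₅, g₅⟩ := hfin (4 * A ^ 3 + 27 * B ^ 2)
  refine ⟨S₁ ∪ S₂ ∪ S₃ ∪ S₄ ∪ S₅, (((f₁.union f₂).union f₃).union f₄).union f₅, fun v hv V hV => ?_⟩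
  simp only [Set.mem_union, not_or] at hv
  obtain ⟨⟨⟨⟨v₁, v₂⟩, v₃⟩, v₄⟩, v₅⟩ := hv
  have c₁ := g₁ v v₁ V hV
  have c₂ := g₂ v v₂ V hV
  have c₃ := (g₃ v v₃ V hV).resolve_left two_ne_zero
  have c₄ := (g₄ v v₄ V hV).resolve_left three_ne_zero
  have c₅ := (g₅ v v₅ V hV).resolve_left hd
  rw [map_ofNat] at c₃ c₄
  have hmem : ∀ x : F, (x = 0 ∨ V.valuation (algebraMap F Ω x) = 1) → algebraMap F Ω x ∈ V := by
    rintro x (rfl | h)
    · rw [map_zero]
      exact V.zero_mem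
    · exact (V.valuation_le_one_iff _).1 h.le
  exact ⟨⟨hmem A c₁, hmem B c₂, c₃, c₄, c₅⟩, c₁, c₂⟩

/-- Chunk G10C. THE VALUES OF ψ ARE THE FROBENIUS ELEMENTS. v outside the finite set, of degree one, prime to m, v = span {ψ v} (hecke.gen, v coprime to m), β = ψ v prime, Nm β = absNorm v. frob_gen: γ associated to β, Ker V (γX - sX) for all X. red_card and cls_card for b = γ - 1 (V(γ) < 1, so V(γ - 1) = 1; Ker V (sX - X) iff
Ker V (act (γ - 1) X)): Nm (γ - 1) = number of points of W₀ = Nm (1 - ψ v) (hDeu). gam_eq: γ = ψ v. For n • T = 0, V(n) = 1: n • (γT - sT) = 0, ker_tors: γT = sT. -/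
theorem dta_frob [IsAlgClosed Ω] (h : CMA F A B Om j act) (W₀ : WeierstrassCurve (𝓞 F))
    (hA : A = -(algebraMap (𝓞 F) F W₀.c₄) / 48) (hB : B = -(algebraMap (𝓞 F) F W₀.c₆) / 864)
    (hΔ : W₀.Δ ≠ 0) (m : Ideal (𝓞 F)) (ψ : Ideal (𝓞 F) →*₀ 𝓞 F) (hψ : IsHecke m ψ)
    (hDeu : ∀ v : HeightOneSpectrum (𝓞 F), W₀.Δ ∉ v.asIdeal → ¬ m ≤ v.asIdeal →
      Nat.card (W₀⁄(𝓞 F ⧸ v.asIdeal)).toAffine.Point = Nm (1 - ψ v.asIdeal)) :
    ∃ S : Set (HeightOneSpectrum (𝓞 F)), S.Finite ∧ ∀ v ∉ S, (Ideal.absNorm v.asIdeal).Prime →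
    ∀ V : ValuationSubring Ω, (∀ a : 𝓞 F, a ∈ v.asIdeal → V.valuation (ak Ω a) < 1) →
      ∀ s : Ω ≃ₐ[F] Ω, (∀ x ∈ V, V.valuation (s x - x ^ Ideal.absNorm v.asIdeal) < 1) →
        ∀ n : ℕ, V.valuation (n : Ω) = 1 → ∀ T : Pt (WAB A B) Ω, n • T = 0 →
          ac (WAB A B) s T = act (ψ v.asIdeal) T := by
  obtain ⟨S₁, f₁, g₁⟩ := gv_fin (A := A) (B := B) h.disc Ω
  obtain ⟨S₂, f₂, g₂⟩ := gam_eq F
  have hΔ' : ((W₀.Δ : 𝓞 F) : F) ≠ 0 := fun h0 => hΔ (RingOfIntegers.coe_injective (h0.trans (map_zero (algebraMap (𝓞 F) F)).symm))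
  obtain ⟨S₃, f₃, g₃⟩ := fin_unit Ω ((W₀.Δ : 𝓞 F) : F) hΔ'
  have f₄ : {v : HeightOneSpectrum (𝓞 F) | v.asIdeal ∣ m}.Finite := Ideal.finite_factors hψ.ne
  refine ⟨S₁ ∪ S₂ ∪ S₃ ∪ {v | v.asIdeal ∣ m}, ((f₁.union f₂).union f₃).union f₄,
    fun v hv hpr V hV s hs n hn T hT => ?_⟩
  simp only [Set.mem_union, not_or] at hv
  obtain ⟨⟨⟨v₁, v₂⟩, v₃⟩, v₄⟩ := hv
  obtain ⟨hG, hA', hB'⟩ := g₁ v v₁ V hV
  have hΔv : W₀.Δ ∉ v.asIdeal := by
    intro h0
    have h1 := hV _ h0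
    have h2 := g₃ v v₃ V hV
    rw [h2] at h1
    exact lt_irrefl _ h1
  have hmv : ¬ m ≤ v.asIdeal := fun h0 => v₄ (Ideal.dvd_iff_le.2 h0)
  have hcop : IsCoprime v.asIdeal m := by
    rw [Ideal.isCoprime_iff_sup_eq]
    by_contra hne
    have h1 := v.isMaximal.eq_of_le hne le_sup_left
    exact hmv (by rw [h1]; exact le_sup_right)
  have hgen : Ideal.span {ψ v.asIdeal} = v.asIdeal := hψ.gen _ hcop
  have hβ0 : ψ v.asIdeal ≠ 0 := by
    intro h0
    apply v.ne_bot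
    rw [← hgen, h0, Ideal.span_singleton_eq_bot]
  have hβ : Prime (ψ v.asIdeal) := by
    rw [← Ideal.span_singleton_prime hβ0, hgen]
    exact v.isPrime
  have hβv : ψ v.asIdeal ∈ v.asIdeal := by
    have h1 := Ideal.mem_span_singleton_self (ψ v.asIdeal)
    rw [hgen] at h1
    exact h1
  have hNm : Nm (ψ v.asIdeal) = Ideal.absNorm v.asIdeal := by
    unfold Nm
    rw [hgen]
  obtain ⟨γ, hγ, hker⟩ := frob_gen h hG hβ (hV _ hβv) (by rw [hNm]; exact hpr) hA' hB' s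
    (by rw [hNm]; exact hs)
  have hγv : V.valuation (ak Ω γ) < 1 := hV _ (by
    obtain ⟨u, hu⟩ := hγ
    rw [← hu]
    exact Ideal.mul_mem_right _ _ hβv)
  have hγ1 : V.valuation (ak Ω (γ - 1)) = 1 := by
    have e : ak Ω (γ - 1) = -(1 - ak Ω γ) := by
      have e1 : ((γ - 1 : 𝓞 F) : F) = (γ : F) - 1 := by
        have := map_sub (algebraMap (𝓞 F) F) γ 1
        rw [map_one] at this
        exact this
      unfold ak
      rw [e1, map_sub, map_one]
      ring
    rw [e, Valuation.map_neg]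
    have h1 := V.valuation.map_sub_eq_of_lt_right (x := ak Ω γ) (y := (1 : Ω)) (by rw [map_one]; exact hγv)
    rw [← h1.trans (map_one _)]
    exact Valuation.map_sub_swap _ _ _
  have hc1 := red_card hG W₀ hA hB v hΔv hV s hs
  have hc2 := cls_card h hG hγ1
  have hiff : ∀ X : Pt (WAB A B) Ω, Ker V (ac (WAB A B) s X - X) ↔ Ker V (act (γ - 1) X) := by
    intro X
    have e : act (γ - 1) X = act γ X - X := by
      rw [map_sub, map_one]
      rfl
    rw [e]
    constructor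
    · intro h1
      have e2 : act γ X - X = (act γ X - ac (WAB A B) s X) + (ac (WAB A B) s X - X) := by abel
      rw [e2]
      exact kadd hG (hker X) h1
    · intro h1
      have e2 : ac (WAB A B) s X - X = (act γ X - X) - (act γ X - ac (WAB A B) s X) := by abel
      rw [e2]
      exact ksub hG h1 (hker X)
  have hN : Nm (γ - 1) = Nm (1 - ψ v.asIdeal) := by
    rw [← hc2, ← hDeu v hΔv hmv, hc1]
    simp only [hiff]
  have hγψ : γ = ψ v.asIdeal := g₂ v v₂ hpr _ _ hgen hγ hN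
  have hK := hker T
  have hz : n • (act γ T - ac (WAB A B) s T) = 0 := by
    rw [smul_sub, ← map_nsmul, ← map_nsmul, hT, map_zero, map_zero, sub_zero]
  have h0 := ker_tors hG n hn hz hK
  rw [← hγψ]
  exact (sub_eq_zero.1 h0).symm

end H55K
end

-- from Lib.H55K.Y5
section

/-! # H55K: the complete data exist -/

open NumberField IsDedekindDomain WeierstrassCurve

namespace H55K

open H55P (IQ embF eF LF Per IsHecke Pt ac Inert Dec Nm CMData)
open H35P (WAB Ker tt)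

/-- The hypotheses of the base theorem: W₀ is a curve over the integers of F with complex multiplication by the integers of F, with
integral j-invariant, whose numbers of points are given by the Hecke character ψ of modulus m; p ≥ 5 is a prime number,
unramified in F, prime to the discriminant of W₀ and to m. -/
structure Base (F : Type) [Field F] [NumberField F] [IQ F] (W₀ : WeierstrassCurve (𝓞 F)) (Om : ℂ)
    (m : Ideal (𝓞 F)) (ψ : Ideal (𝓞 F) →*₀ 𝓞 F) (p : ℕ) : Prop where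
  data : CMData F W₀ Om m ψ
  jint : ∃ j₀ : 𝓞 F, W₀.c₄ ^ 3 = j₀ * W₀.Δ
  deu : ∀ v : HeightOneSpectrum (𝓞 F), W₀.Δ ∉ v.asIdeal → ¬ m ≤ v.asIdeal →
    Nat.card (W₀⁄(𝓞 F ⧸ v.asIdeal)).toAffine.Point = Nm (1 - ψ v.asIdeal)
  prime : p.Prime
  five : 5 ≤ p
  unr : ∀ v : HeightOneSpectrum (𝓞 F), (p : 𝓞 F) ∉ v.asIdeal ^ 2
  cop : IsCoprime (Ideal.span {W₀.Δ} * m) (Ideal.span {(p : 𝓞 F)})

variable {F : Type} [Field F] [NumberField F] [IQ F] {W₀ : WeierstrassCurve (𝓞 F)} {Om : ℂ}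
    {m : Ideal (𝓞 F)} {ψ : Ideal (𝓞 F) →*₀ 𝓞 F} {p : ℕ} {Ω : Type} [Field Ω] [Algebra F Ω]

/-- The complete data. -/
theorem mk_Dta [DecidableEq Ω] [IsAlgClosure F Ω] [IsAlgClosed Ω] (hB : Base F W₀ Om m ψ p) {A B : F}
    (hA : A = -(algebraMap (𝓞 F) F W₀.c₄) / 48) (hB' : B = -(algebraMap (𝓞 F) F W₀.c₆) / 864) {j : Ω →+* ℂ}
    {act : 𝓞 F →+* AddMonoid.End (Pt (WAB A B) Ω)} (hC : CMA F A B Om j act)
    (hG : ∀ V : ValuationSubring Ω, ∃ (Kg : AddSubgroup (Pt (WAB A B) Ω)) (u : Ω), GMod (WAB A B) V Kg u) :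
    Dta A B Om j act m ψ p where
  cma := hC
  hecke := hB.data.hecke
  prime := hB.prime
  five := hB.five
  unr := hB.unr
  cop := hB.cop.of_mul_left_right
  good := fun V hV => gv_l hB.prime hB.five W₀ hB.cop.of_mul_left_left hA hB' V hV
  gmod := hG
  fin := by
    obtain ⟨S, hS, h⟩ := gv_fin (A := A) (B := B) hC.disc Ω
    exact ⟨S, hS, fun v hv V hV => (h v hv V hV).1⟩
  frob := dta_frob hC W₀ hA hB' hB.data.ell m ψ hB.data.hecke hB.deu

end H55K
end

-- from Lib.H55K.BH1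
section

/-! # H55K: the hypotheses on the curve and the prime number -/

open NumberField IsDedekindDomain WeierstrassCurve

namespace H55K.TQ

open H55P (IQ embF eF LF Per IsHecke Pt ac Inert Dec Nm UnitP)
open H35P (WAB Ker tt GoodW IntW)
open H55K.MG (VC Crd)

variable {F : Type} [Field F] [NumberField F] [IQ F] {W₀ : WeierstrassCurve (𝓞 F)} {Om : ℂ}
    {m : Ideal (𝓞 F)} {ψ : Ideal (𝓞 F) →*₀ 𝓞 F} {p : ℕ}

theorem BH1_ne {F : Type} [Field F] [NumberField F] {p : ℕ} (hp : p.Prime) : (p : 𝓞 F) ≠ 0 := by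
  exact_mod_cast hp.ne_zero

/-- Chunk BH1 (S/M). Squarefree (p) in the Dedekind domain 𝓞 F iff p is in no v^2. -/
theorem unr_iff {F : Type} [Field F] [NumberField F] {p : ℕ} (hp : p.Prime) :
    H55P.UnrP p F ↔ ∀ v : HeightOneSpectrum (𝓞 F), (p : 𝓞 F) ∉ v.asIdeal ^ 2 := by
  constructor
  · intro h v hv
    have h1 : v.asIdeal * v.asIdeal ∣ Ideal.span {(p : 𝓞 F)} := by
      rw [Ideal.dvd_iff_le, Ideal.span_singleton_le_iff_mem, ← pow_two]
      exact hv
    have h2 := h _ h1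
    rw [Ideal.isUnit_iff] at h2
    exact v.isPrime.ne_top h2
  · intro h x hx
    rw [Ideal.isUnit_iff]
    by_contra hne
    obtain ⟨M, hM, hle⟩ := Ideal.exists_le_maximal x hne
    have hx0 : x ≠ ⊥ := by
      rintro rfl
      rw [Ideal.dvd_iff_le, Ideal.span_singleton_le_iff_mem] at hx
      have h1 : (p : 𝓞 F) ∈ (⊥ : Ideal (𝓞 F)) := Ideal.mul_le_left hx
      exact BH1_ne hp (Ideal.mem_bot.1 h1)
    have hM0 : M ≠ ⊥ := by
      rintro rfl
      exact hx0 (le_bot_iff.1 hle)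
    apply h ⟨M, hM.isPrime, hM0⟩
    have h2 : M ^ 2 ∣ Ideal.span {(p : 𝓞 F)} := by
      refine dvd_trans ?_ hx
      rw [pow_two]
      exact mul_dvd_mul (Ideal.dvd_iff_le.2 hle) (Ideal.dvd_iff_le.2 hle)
    rw [Ideal.dvd_iff_le, Ideal.span_singleton_le_iff_mem] at h2
    exact h2

/-- Chunk BH1 (S/M). jint from JE.lean (jint_of); deu: Δ not in v; cop: Δ is coprime to p, and m as well: a maximal ideal containing m and p is some v (m ≠ bottom is not needed: p ≠ 0), Δ in v by supp, contradiction to the coprimality; so m ⊔ (p) = ⊤. -/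
theorem base_of (hH : BaseH F W₀ Om m ψ) (hp : PrimeH F W₀ p) : Base F W₀ Om m ψ p := by
  refine ⟨hH.data, jint_of hH.data.per hH.data.ell, fun v h _ => hH.deu v h, hp.prime, hp.five,
    (unr_iff hp.prime).1 hp.unr, IsCoprime.mul_left hp.cop ?_⟩
  rw [Ideal.isCoprime_iff_sup_eq]
  by_contra hne
  obtain ⟨M, hM, hle⟩ := Ideal.exists_le_maximal _ hne
  have hpM : (p : 𝓞 F) ∈ M := hle (Ideal.mem_sup_right (Ideal.mem_span_singleton_self _))
  have hmM : m ≤ M := le_sup_left.trans hle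
  have hM0 : M ≠ ⊥ := by
    rintro rfl
    exact BH1_ne hp.prime (Ideal.mem_bot.1 hpM)
  have hΔ : W₀.Δ ∈ M := (hH.supp ⟨M, hM.isPrime, hM0⟩).2 hmM
  have h1 := Ideal.isCoprime_iff_sup_eq.1 hp.cop
  apply hM.ne_top
  rw [← top_le_iff, ← h1]
  exact sup_le ((Ideal.span_singleton_le_iff_mem _).2 hΔ) ((Ideal.span_singleton_le_iff_mem _).2 hpM)

end H55K.TQ
end

-- from Lib.H55K.T10
section

/-! # H55K: bad primes stay bad -/

open NumberField IsDedekindDomain WeierstrassCurve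

namespace H55K.TQ

open H55P (IQ embF eF LF Per IsHecke Pt ac Inert Dec Nm UnitP)
open H35P (WAB Ker tt GoodW IntW)
open H55K.MG (VC Crd)

variable {F : Type} [Field F] [NumberField F] [IQ F] {W₀ : WeierstrassCurve (𝓞 F)} {Om : ℂ}
    {m : Ideal (𝓞 F)} {ψ : Ideal (𝓞 F) →*₀ 𝓞 F} {p : ℕ}

/-- Chunk T10 (S/M). V from exists_V. v = w ∩ 𝓞 F (the prime below: mK M m ≤ w implies m ≤ v; Δ in v by supp). GoodAt → GMd (gmd_of_good) → good_down (T8.lean; CMA from exists_j, exists_CMA as in Y8.lean; p not in v by cop; jint: JE.lean and y3: c₄ of WAB A B is -48 A, its discriminant -16 (4 A^3 + 27 B^2)) → good_of_V: contradiction to hH.bad. -/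
theorem bad_K (hH : BaseH F W₀ Om m ψ) (hp : PrimeH F W₀ p) {L M : IntermediateField F (AlgebraicClosure F)}
    [NumberField M] (hL : H55P.PExt p ⊥ L) (hM : M ≤ L) (w : HeightOneSpectrum (𝓞 M)) (hw : H55P.mK M m ≤ w.asIdeal) :
    ¬ GoodAt ((W₀⁄F)⁄M) w := by
  classical
  intro hgood
  obtain ⟨V, hV⟩ := exists_V M w
  obtain ⟨j, hj⟩ := exists_j F (AlgebraicClosure F)
  obtain ⟨A, hA⟩ : ∃ A : F, A = -(algebraMap (𝓞 F) F W₀.c₄) / 48 := ⟨_, rfl⟩
  obtain ⟨B, hB⟩ : ∃ B : F, B = -(algebraMap (𝓞 F) F W₀.c₆) / 864 := ⟨_, rfl⟩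
  have hd := y3_ne W₀ hA hB hH.data.ell
  have hper : Per F (embF F A) (embF F B) Om := by
    have e1 : embF F A = -(eF F W₀.c₄) / 48 := by
      rw [hA, map_div₀, map_neg, map_ofNat]
      rfl
    have e2 : embF F B = -(eF F W₀.c₆) / 864 := by
      rw [hB, map_div₀, map_neg, map_ofNat]
      rfl
    rw [e1, e2]
    exact hH.data.per
  obtain ⟨act, hact⟩ := exists_CMA F A B Om j hd hper hj
  obtain ⟨v, hvw⟩ : ∃ v : HeightOneSpectrum (𝓞 F), v.asIdeal = w.asIdeal.under (𝓞 F) :=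
    ⟨⟨w.asIdeal.under (𝓞 F), inferInstance, mt Ideal.eq_bot_of_comap_eq_bot w.ne_bot⟩, rfl⟩
  have hmv : m ≤ v.asIdeal := by
    rw [hvw]
    exact Ideal.map_le_iff_le_comap.1 hw
  have hΔv : W₀.Δ ∈ v.asIdeal := (hH.supp v).2 hmv
  have hpv : (p : 𝓞 F) ∉ v.asIdeal := by
    intro h0
    have h1 : Ideal.span {W₀.Δ} ≤ v.asIdeal := (Ideal.span_singleton_le_iff_mem _).2 hΔv
    have h2 : Ideal.span {(p : 𝓞 F)} ≤ v.asIdeal := (Ideal.span_singleton_le_iff_mem _).2 h0
    have h3 := Ideal.isCoprime_iff_sup_eq.1 hp.cop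
    have h4 : v.asIdeal = ⊤ := top_le_iff.1 (h3 ▸ sup_le h1 h2)
    exact v.isPrime.ne_top h4
  have hv : ∀ a : 𝓞 F, a ∈ v.asIdeal → V.valuation (ak (AlgebraicClosure F) a) < 1 := by
    intro a ha
    rw [hvw] at ha
    have h1 : algebraMap (𝓞 F) (𝓞 M) a ∈ w.asIdeal := ha
    exact hV _ h1
  have hjj : ∃ j₀ : 𝓞 F, (WAB A B).c₄ ^ 3 = (j₀ : F) * (WAB A B).Δ := by
    obtain ⟨j₀, hj₀⟩ := y3_j W₀ hA hB (jint_of hH.data.per hH.data.ell)
    refine ⟨j₀, ?_⟩
    have e1 : (WAB A B).Δ = -16 * (4 * A ^ 3 + 27 * B ^ 2) := by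
      unfold WAB WeierstrassCurve.Δ WeierstrassCurve.b₂ WeierstrassCurve.b₄ WeierstrassCurve.b₆ WeierstrassCurve.b₈
      ring
    have e2 : (WAB A B).c₄ = -48 * A := by
      unfold WAB WeierstrassCurve.c₄ WeierstrassCurve.b₂ WeierstrassCurve.b₄
      ring
    rw [e1, e2]
    linear_combination (16 : F) * hj₀
  exact hH.bad v hΔv (good_of_V W₀ hA hB v hv (good_down hact hjj hp.prime hp.five ((unr_iff hp.prime).1 hp.unr) hL hM hv hpv
    (gmd_of_good W₀ hA hB w hV hgood)))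

end H55K.TQ
end

-- from Lib.H55K.FB3B
section

/-! # H55K: the L-function over K -/

open NumberField IsDedekindDomain WeierstrassCurve

namespace H55K.TQ

open H55P (IQ embF eF LF Per IsHecke Pt ac Inert Dec Nm UnitP)
open H35P (WAB Ker tt GoodW IntW)
open H55K.MG (VC Crd)

variable {F : Type} [Field F] [NumberField F] [IQ F] {W : WeierstrassCurve ℤ} {Om : ℂ}
    {m : Ideal (𝓞 F)} {ψ : Ideal (𝓞 F) →*₀ 𝓞 F} {p : ℕ}

/-- Bad reduction over K. -/
theorem fb3b_bad (hH : BaseH F (W⁄(𝓞 F)) Om m ψ) (hp : PrimeH F (W⁄(𝓞 F)) p) {L : IntermediateField F (AlgebraicClosure F)}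
    (hL : H55P.PExt p ⊥ L) (K : Type) [Field K] [NumberField K] [Algebra F K] (K' : IntermediateField F (AlgebraicClosure F)) [NumberField K']
    (hK : K' ≤ L) (θ : K ≃ₐ[F] K') (w : HeightOneSpectrum (𝓞 K)) (hw : H55P.mK K m ≤ w.asIdeal) :
    ¬ GoodAt (((W⁄(𝓞 F))⁄F)⁄K) w := by
  intro hgood
  let _ : Algebra K K' := (θ : K →+* K').toAlgebra
  have hst : IsScalarTower F K K' := IsScalarTower.of_algebraMap_eq fun x => (θ.commutes x).symm
  have hwm := w.isMaximal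
  obtain ⟨Q, hQ1, hQ2⟩ := Ideal.exists_maximal_ideal_liesOver_of_isIntegral (S := 𝓞 K') w.asIdeal
  have hQ0 : Q ≠ ⊥ := Ideal.ne_bot_of_liesOver_of_ne_bot w.ne_bot Q
  have hover : w.asIdeal = Q.under (𝓞 K) := hQ2.over
  have hmQ : H55P.mK K' m ≤ Q := by
    have h1 : H55P.mK K' m = (H55P.mK K m).map (algebraMap (𝓞 K) (𝓞 K')) := by
      unfold H55P.mK
      rw [Ideal.map_map, ← IsScalarTower.algebraMap_eq]
    rw [h1, Ideal.map_le_iff_le_comap]
    exact hw.trans (le_of_eq hover)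
  have hg : GoodAt ((((W⁄(𝓞 F))⁄F)⁄K)⁄K') ⟨Q, hQ1.isPrime, hQ0⟩ := good_up hover hgood
  refine bad_K hH hp hL hK ⟨Q, hQ1.isPrime, hQ0⟩ hmQ ?_
  have he : (((W⁄(𝓞 F))⁄F)⁄K)⁄K' = ((W⁄(𝓞 F))⁄F)⁄K' := by
    rw [WeierstrassCurve.baseChange, WeierstrassCurve.baseChange, WeierstrassCurve.baseChange, WeierstrassCurve.map_map]
    congr 1
    exact (IsScalarTower.algebraMap_eq F K K').symm
  rw [← he]
  exact hg

/-- Chunk FB3B (M). The L-series over K contains F. K' = KG F K ι, θ : K ≃ₐ[F] K' (kg_iso). lfun_K (DM.lean) for K: the condition hbad for W⁄K at w with mK K m ≤ w: a prime w' of K' above w (algebra K → K' by θ), mK K' m ≤ w', bad_K (T10.lean) for K' ≤ L, good_up (RG.lean). Then as in gen_lval (H55P/Gen.lean) or i5_lfun (I5.lean), with tm_congr. -/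
theorem lser_F (hH : BaseH F (W⁄(𝓞 F)) Om m ψ) (hp : PrimeH F (W⁄(𝓞 F)) p) {L : IntermediateField F (AlgebraicClosure F)}
    (hL : H55P.PExt p ⊥ L) (K : Type) [Field K] [NumberField K] [Algebra F K] (K' : IntermediateField F (AlgebraicClosure F)) [NumberField K']
    (hK : K' ≤ L) (θ : K ≃ₐ[F] K') (Φ : ℂ → ℂ) (hΦ : ∀ s : ℂ, 3 / 2 < s.re → HasSum (H55N.tm (H55P.PsiP K' ψ) s) (Φ s)) (s : ℂ)
    (hs : 3 / 2 < s.re) :
    LSeriesHasSum (fun n => (((W⁄K).LFunction n : ℤ) : ℂ)) s (Φ s * (starRingEnd ℂ) (Φ ((starRingEnd ℂ) s))) := by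
  classical
  have hLs : ∀ s : ℂ, 3 / 2 < s.re → HasSum (H55N.tm (H55P.PsiP K ψ) s) (Φ s) := fun s hs => tm_congr K K' θ s _ (hΦ s hs)
  have hs' : 3 / 2 < ((starRingEnd ℂ) s).re := by simpa using hs
  have h := hH.data.hecke
  have h0 : H55P.PsiP K ψ ⊥ = 0 := (H55P.PsiP K ψ).map_zero
  have h1 := H55N.AI_LSeries (fun a => H55P.PsiP K ψ a) h0 s (H55N.tm_summable _ (H55P.PsiP_norm_le h) s hs)
  have h2 := H55N.AI_LSeries (fun a => (starRingEnd ℂ) (H55P.PsiP K ψ a)) (by rw [h0, map_zero]) s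
    (H55N.tm_summable _ (fun a => by rw [RCLike.norm_conj]; exact H55P.PsiP_norm_le h a) s hs)
  have e1 : ∑' a, H55N.tm (fun a => H55P.PsiP K ψ a) s a = Φ s := (hLs s hs).tsum_eq
  have e2 : ∑' a, H55N.tm (fun a => (starRingEnd ℂ) (H55P.PsiP K ψ a)) s a =
      (starRingEnd ℂ) (Φ ((starRingEnd ℂ) s)) := by
    have h3 := (Complex.hasSum_conj').2 (hLs _ hs')
    have h4 := h3.tsum_eq
    rw [← h4]
    exact tsum_congr fun a => H55N.H8_tm _ s a
  rw [e1] at h1
  rw [e2] at h2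
  have h3 := ArithmeticFunction.LSeriesHasSum_mul h1 h2
  have e3 : (fun n => (((W⁄K).LFunction n : ℤ) : ℂ)) = fun n =>
      (H55N.AI (H55P.PsiP K ψ) * H55N.AI (fun a => (starRingEnd ℂ) (H55P.PsiP K ψ a))) n := by
    funext n
    rw [← cur_eq (F := F) (W := W) K]
    exact lfun_K h (fun v hv _ => hH.deu v hv) (fun v hv => (hH.supp v).1 hv) (jint_of hH.data.per hH.data.ell)
      (fun w hw => fb3b_bad hH hp hL K K' hK θ w hw) n
  rw [e3]
  exact h3

end H55K.TQ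
end

-- from Lib.H55K.QH1A
section

/-! # H55K: the completion of a number field at a finite place -/

open NumberField IsDedekindDomain WeierstrassCurve

namespace H55K.TQ

open H55P (IQ embF eF LF Per IsHecke Pt ac Inert Dec Nm UnitP)
open H35P (WAB Ker tt GoodW IntW)
open H55K.MG (VC Crd)

variable {K : Type} [Field K] [NumberField K] (w : HeightOneSpectrum (𝓞 K))

/-- Chunk QH1A (S). adicCompletionIntegers is the valuation subring of Valued.v: Valuation.isEquiv_valuation_valuationSubring. -/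
theorem val_w (x y : w.adicCompletion K) :
    ((w.adicCompletionIntegers K).valuation x ≤ (w.adicCompletionIntegers K).valuation y ↔
      Valued.v x ≤ Valued.v y) ∧
    ((w.adicCompletionIntegers K).valuation x < (w.adicCompletionIntegers K).valuation y ↔
      Valued.v x < Valued.v y) := by
  have h := Valuation.isEquiv_valuation_valuationSubring
    (Valued.v : Valuation (w.adicCompletion K) (WithZero (Multiplicative ℤ)))
  exact ⟨(h x y).symm, by rw [← not_le, ← not_le]; exact not_congr (h y x).symm⟩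

/-- Chunk QH1A (S). Valued.v has values in the integers with zero: V(b) ≤ exp (-1), V(b)^n ≤ exp (-n). -/
theorem arch_w : Arch (w.adicCompletionIntegers K) := by
  intro b c hb hc
  have hb' : Valued.v b < Valued.v (1 : w.adicCompletion K) :=
    (val_w w b 1).2.1 (by rw [map_one]; exact hb)
  rw [map_one] at hb'
  have hc' : Valued.v c ≠ 0 := (Valuation.ne_zero_iff _).2 hc
  obtain ⟨n, hn⟩ : ∃ n : ℕ, (Valued.v b : WithZero (Multiplicative ℤ)) ^ n < Valued.v c := by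
    rcases eq_or_ne (Valued.v b : WithZero (Multiplicative ℤ)) 0 with h0 | h0
    · exact ⟨1, by rw [h0, zero_pow one_ne_zero]; exact zero_lt_iff.2 hc'⟩
    · obtain ⟨i, hi⟩ : ∃ i : ℤ, (Valued.v b : WithZero (Multiplicative ℤ)) = WithZero.exp i :=
        ⟨WithZero.log (Valued.v b), (WithZero.exp_log h0).symm⟩
      obtain ⟨j, hj⟩ : ∃ j : ℤ, (Valued.v c : WithZero (Multiplicative ℤ)) = WithZero.exp j :=
        ⟨WithZero.log (Valued.v c), (WithZero.exp_log hc').symm⟩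
      rw [hi, ← WithZero.exp_zero, WithZero.exp_lt_exp] at hb'
      refine ⟨(|j| + 1).toNat, ?_⟩
      rw [hi, hj, ← WithZero.exp_nsmul, WithZero.exp_lt_exp, nsmul_eq_mul]
      have h1 : (((|j| + 1).toNat : ℕ) : ℤ) = |j| + 1 := Int.toNat_of_nonneg (by positivity)
      rw [h1]
      nlinarith [abs_nonneg j, neg_abs_le j]
  refine ⟨n, ?_⟩
  rw [← map_pow]
  exact (val_w w _ _).2.2 (by rw [map_pow]; exact hn)

end H55K.TQ
end

-- from Lib.H55K.QH2A
section

/-! # H55K: the minimal equation over the completion -/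

open NumberField IsDedekindDomain WeierstrassCurve

namespace H55K.TQ

open H55P (IQ embF eF LF Per IsHecke Pt ac Inert Dec Nm UnitP)
open H35P (WAB Ker tt GoodW IntW)
open H55K.MG (VC Crd)

variable {K : Type} [Field K] [NumberField K] (w : HeightOneSpectrum (𝓞 K))

/-- Chunk QH2A (S). WeierstrassCurve.minimal is C • W for some C; vc_smul. -/
theorem wm_vc (W : WeierstrassCurve K) : ∃ u r s t, VC (W⁄(w.adicCompletion K)) (Wm K W w) u r s t := by
  exact ⟨_, _, _, _, vc_smul (W⁄(w.adicCompletion K))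
    ((W⁄(w.adicCompletion K)).exists_isMinimal (w.adicCompletionIntegers K)).choose⟩

/-- Chunk QH2A (S). IsIntegral. -/
theorem wm_int (W : WeierstrassCurve K) : IntW (Wm K W w) (w.adicCompletionIntegers K) := by
  have h1 : WeierstrassCurve.IsIntegral (w.adicCompletionIntegers K) (Wm K W w) := by
    unfold Wm
    infer_instance
  obtain ⟨W₁, h⟩ := h1.integral
  rw [h]
  exact ⟨W₁.a₁.2, W₁.a₂.2, W₁.a₃.2, W₁.a₄.2, W₁.a₆.2⟩

end H55K.TQ
end

-- from Lib.H55K.CU
section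

/-! # H55K, part C: uniqueness of the complex multiplication -/

open NumberField WeierstrassCurve Polynomial

namespace H55K

open H55P (IQ embF eF LF Per Pt ac mem_LF eF_inj eF_ne Nm Nm_eq)
open H35P (WAB)

variable {F : Type} [Field F] [NumberField F] [IQ F] {Ω : Type} [Field Ω] [DecidableEq Ω] [Algebra F Ω]
  {A B : F} {Om Om' : ℂ} {j : Ω →+* ℂ} {act act' : 𝓞 F →+* AddMonoid.End (Pt (WAB A B) Ω)}

omit [NumberField F] [IQ F] in
theorem cu_nat (act : 𝓞 F →+* AddMonoid.End (Pt (WAB A B) Ω)) (n : ℕ) (T : Pt (WAB A B) Ω) :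
    act (n : 𝓞 F) T = n • T := by
  rw [map_natCast]
  rfl

/-- The two actions agree on the points of finite order. -/
theorem cu_tors (h : CMA F A B Om j act) (h' : CMA F A B Om j act') {n : ℕ} (hn : 2 ≤ n) {T : Pt (WAB A B) Ω}
    (hT : n • T = 0) (a : 𝓞 F) : act a T = act' a T := by
  have hb : (n : 𝓞 F) ≠ 0 := by exact_mod_cast (by omega : n ≠ 0)
  have hnu : ¬ (n : 𝓞 F) ∣ 1 := by
    intro hd
    have h1 : IsUnit (n : 𝓞 F) := isUnit_of_dvd_one hd
    have h2 : Nm (n : 𝓞 F) = 1 := by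
      unfold Nm
      rw [Ideal.span_singleton_eq_top.2 h1, ← Ideal.one_eq_top, map_one]
    rw [Nm_nat] at h2
    nlinarith
  obtain ⟨T₀, hT₀, g1, g2, g3⟩ := h.gen (n : 𝓞 F) hb
  obtain ⟨T₁, hT₁, k1, k2, k3⟩ := h'.gen (n : 𝓞 F) hb
  have key : ∀ c : 𝓞 F, act c T₀ = act' c T₁ := by
    intro c
    by_cases hc : (n : 𝓞 F) ∣ c
    · rw [(g2 c).2 hc, (k2 c).2 hc]
    · have e1 := g3 c hc
      have e2 := k3 c hc
      refine CC.c27_ext (fun h0 => hc ((g2 c).1 h0)) (fun h0 => hc ((k2 c).1 h0)) ?_ ?_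
      · exact j.injective (e1.1.trans e2.1.symm)
      · exact j.injective (e1.2.trans e2.2.symm)
  have h01 : T₀ = T₁ := by
    have := key 1
    rw [map_one, map_one] at this
    exact this
  obtain ⟨c, hc⟩ := g1 T (by
    show act (n : 𝓞 F) T = 0
    rw [cu_nat]
    exact hT)
  have hc' : T = act' c T₀ := by
    rw [hc, key c, h01]
  have e1 : act a T = act (a * c) T₀ := by
    rw [hc, map_mul]
    rfl
  have e2 : act' a T = act' (a * c) T₀ := by
    rw [hc', map_mul]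
    rfl
  rw [e1, e2, key, h01]

/-- The complex multiplication is unique. -/
theorem cma_unique (h : CMA F A B Om j act) (h' : CMA F A B Om j act') (a : 𝓞 F) (P : Pt (WAB A B) Ω) :
    act a P = act' a P := by
  by_cases ha : a = 0
  · rw [ha, map_zero, map_zero]
  · have hN : Nm a ≠ 0 := by
      rw [Ne, H55P.Nm_eq_zero]
      exact ha
    have hk : ∀ (act₁ : 𝓞 F →+* AddMonoid.End (Pt (WAB A B) Ω)) (Q : Pt (WAB A B) Ω), act₁ a Q = 0 →
        (2 * Nm a) • Q = 0 := by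
      intro act₁ Q hQ
      rw [← cu_nat act₁, Nat.cast_mul, ← mul_cj a, show ((2 : ℕ) : 𝓞 F) * (a * cj a) = (2 : ℕ) * cj a * a by ring, map_mul]
      show act₁ _ (act₁ a Q) = 0
      rw [hQ, map_zero]
    have hker : ∀ Q, act a Q = 0 ↔ act' a Q = 0 := by
      intro Q
      constructor
      · intro hQ
        rw [← cu_tors h h' (by omega) (hk act Q hQ) a]
        exact hQ
      · intro hQ
        rw [cu_tors h h' (by omega) (hk act' Q hQ) a]
        exact hQ
    obtain ⟨S, hS, -⟩ := exists_TN h ha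
    have hS' : TN act' a S := fun T => by
      rw [hS T, hker]
    by_cases hP : act a P = 0
    · rw [hP, (hker P).1 hP]
    · have hP' : act' a P ≠ 0 := fun h0 => hP ((hker P).2 h0)
      have hak : ak Ω a ≠ 0 := by
        intro h0
        apply ha
        have e1 : algebraMap F Ω (a : F) = algebraMap F Ω 0 := by rw [map_zero]; exact h0
        have e2 := (algebraMap F Ω).injective e1
        exact_mod_cast e2
      refine CC.c27_ext hP hP' ?_ ?_
      · exact mul_left_cancel₀ (pow_ne_zero 2 hak) ((h.e1x a S ha hS P hP).trans (h'.e1x a S ha hS' P hP').symm)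
      · exact mul_left_cancel₀ (pow_ne_zero 3 hak) ((h.e1y a S ha hS P hP).trans (h'.e1y a S ha hS' P hP').symm)

/-- An automorphism of Ω which is the complex conjugation on F and fixes A and B is semilinear for the complex multiplication. -/
theorem cma_galr [IsAlgClosed Ω] [Algebra.IsAlgebraic F Ω] (h : CMA F A B Om j act) (s : Ω ≃+* Ω)
    (hA : s (algebraMap F Ω A) = algebraMap F Ω A) (hB : s (algebraMap F Ω B) = algebraMap F Ω B)
    (hs : ∀ a : 𝓞 F, s (ak Ω a) = ak Ω (cj a)) (a : 𝓞 F)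
    (P : Pt (WAB A B) Ω) : acr s hA hB (act a P) = act (cj a) (acr s hA hB P) := by
  have hC : CC.CH A B Om j := ⟨h.disc, h.per, h.ovr⟩
  obtain ⟨act₁, hact₁⟩ := CC.exists_act hC
  have h₁ : CMA F A B Om j act₁ :=
    { disc := h.disc
      per := h.per
      ovr := h.ovr
      gal := fun s a P => cm_gal hC hact₁ s a P
      surj := fun b hb P => CC.act_surj hC hb P
      gen := fun b hb => CC.act_gen hC hact₁ hb
      e1x := fun a S ha hS P hP => CC.act_e1x hC hact₁ ha hS hP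
      e1y := fun a S ha hS P hP => CC.act_e1y hC hact₁ ha hS hP
      e2 := fun b S hb hS P Q hP hQ => CC.act_e2 hC hact₁ hb hS hP hQ }
  rw [cma_unique h h₁, cma_unique h h₁]
  exact cm_galr hC hact₁ s hA hB hs a P

end H55K
end

-- from Lib.H55K.RF
section

/-! # H55K: the primes of F ramified over the rational numbers are primes of bad reduction of a curve over the rational numbers -/

open NumberField IsDedekindDomain WeierstrassCurve

namespace H55K.TQ

open H55P (IQ embF eF LF Per IsHecke Pt ac Inert Dec Nm UnitP)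
open H35P (WAB Ker tt GoodW IntW)
open H55K.MG (VC Crd)

section arith

variable {F : Type} [Field F] [NumberField F] [IQ F]

theorem rf_tr (a : 𝓞 F) : ∃ n : ℤ, a + cj a = (n : 𝓞 F) := by
  refine ⟨(Nm (1 + a) : ℤ) - 1 - Nm a, ?_⟩
  have h1 := mul_cj (1 + a)
  have h2 := mul_cj a
  rw [map_add, map_one] at h1
  push_cast
  linear_combination h1 - h2

theorem rf_card {p : ℕ} (hp : p.Prime) (hp2 : p ≠ 2) (h : ∀ a : 𝓞 F, (p : 𝓞 F) ∣ a - cj a) : False := by
  have h1 : ∀ a : 𝓞 F, ∃ n : ℤ, (p : 𝓞 F) ∣ a - n := by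
    intro a
    obtain ⟨t, ht⟩ := rf_tr a
    obtain ⟨c, hc⟩ := h a
    obtain ⟨k, hk⟩ := hp.odd_of_ne_two hp2
    refine ⟨(k + 1) * t, a * (-1) + (k + 1) * c, ?_⟩
    have hk' : (p : 𝓞 F) = 2 * k + 1 := by
      rw [hk]
      push_cast
      rfl
    push_cast
    rw [hk'] at hc ⊢
    linear_combination (k + 1 : 𝓞 F) * ht + (k + 1 : 𝓞 F) * hc
  have hp0 := hp.pos
  have hF : Fact p.Prime := ⟨hp⟩
  have hs : Function.Surjective (fun n : Fin p => (Ideal.Quotient.mk (Ideal.span {(p : 𝓞 F)}) ((n : ℕ) : 𝓞 F))) := by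
    intro y
    obtain ⟨a, rfl⟩ := Ideal.Quotient.mk_surjective y
    obtain ⟨n, hn⟩ := h1 a
    have hm : 0 ≤ n % (p : ℤ) := Int.emod_nonneg _ (by exact_mod_cast hp.ne_zero)
    have hm2 : n % (p : ℤ) < p := Int.emod_lt_of_pos _ (by exact_mod_cast hp0)
    refine ⟨⟨(n % (p : ℤ)).toNat, by omega⟩, ?_⟩
    show Ideal.Quotient.mk _ (((n % (p : ℤ)).toNat : ℕ) : 𝓞 F) = _
    rw [Ideal.Quotient.eq, Ideal.mem_span_singleton]
    have e1 : (((n % (p : ℤ)).toNat : ℕ) : 𝓞 F) = ((n % (p : ℤ) : ℤ) : 𝓞 F) := by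
      have e2 : (((n % (p : ℤ)).toNat : ℕ) : ℤ) = n % (p : ℤ) := Int.toNat_of_nonneg hm
      rw [← e2]
      push_cast
      rfl
    rw [e1]
    have e3 : n % (p : ℤ) = n - p * (n / p) := Int.emod_def _ _
    rw [e3]
    push_cast
    have e4 : (n : 𝓞 F) - (p : 𝓞 F) * ((n / (p : ℤ) : ℤ) : 𝓞 F) - a = -(a - n) - (p : 𝓞 F) * ((n / (p : ℤ) : ℤ) : 𝓞 F) := by ring
    rw [e4]
    exact dvd_sub (dvd_neg.2 hn) (dvd_mul_right _ _)
  have h2 : Nat.card (𝓞 F ⧸ Ideal.span {(p : 𝓞 F)}) ≤ p := by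
    have h3 := Nat.card_le_card_of_surjective _ hs
    rw [Nat.card_fin] at h3
    exact h3
  have h3 : Nat.card (𝓞 F ⧸ Ideal.span {(p : 𝓞 F)}) = p ^ 2 := Nm_nat (F := F) p
  rw [h3] at h2
  nlinarith [hp.two_le]

end arith

section curve

variable {F : Type} [Field F] [NumberField F] [IQ F]

open scoped Classical in
/-- A curve over the rational numbers with good reduction at V: elements of the inertia group fix the torsion prime to the residue characteristic. -/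
theorem rf_fix {Ω : Type} [Field Ω] [Algebra ℚ Ω] (W : WeierstrassCurve ℚ) {V : ValuationSubring Ω} (hI : GoodW (W⁄Ω) V)
    (hΔ : W.Δ ≠ 0) {A₀ B₀ : ℚ} (hA : A₀ = -W.c₄ / 48) (hB : B₀ = -W.c₆ / 864) (g : Ω ≃ₐ[ℚ] Ω) (hg : Inert V g) (n : ℕ)
    (hn : V.valuation (n : Ω) = 1) (E : WeierstrassCurve Ω) (hE : E = (WAB A₀ B₀)⁄Ω) (T : E.toAffine.Point) (hT : n • T = 0) :
    g (xc T) = xc T ∧ g (yc T) = yc T := by
  subst hE
  have h48 : (48 : ℚ) ≠ 0 := by norm_num
  have hd : (WAB A₀ B₀).Δ = W.Δ := by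
    have h1 := W.c_relation
    have h2 : (WAB A₀ B₀).Δ = -16 * (4 * A₀ ^ 3 + 27 * B₀ ^ 2) := by
      simp only [WAB, WeierstrassCurve.Δ, WeierstrassCurve.b₂, WeierstrassCurve.b₄, WeierstrassCurve.b₆, WeierstrassCurve.b₈]
      ring
    rw [h2, hA, hB]
    linear_combination (-1 / 1728 : ℚ) * h1
  have hG : GMd ((WAB A₀ B₀)⁄Ω) V (Set.range (algebraMap ℚ Ω)) := by
    refine ⟨W⁄Ω, algebraMap ℚ Ω 1, algebraMap ℚ Ω (W.b₂ / 12), algebraMap ℚ Ω (W.a₁ / 2), algebraMap ℚ Ω (W.a₃ / 2), ⟨_, rfl⟩, ⟨_, rfl⟩, ⟨_, rfl⟩, ⟨_, rfl⟩, ?_, hI⟩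
    have k1 : (1 : ℚ) * W.a₁ = (WAB A₀ B₀).a₁ + 2 * (W.a₁ / 2) := by
      simp only [WAB]
      ring
    have k2 : (1 : ℚ) ^ 2 * W.a₂ = (WAB A₀ B₀).a₂ - (W.a₁ / 2) * (WAB A₀ B₀).a₁ + 3 * (W.b₂ / 12) - (W.a₁ / 2) ^ 2 := by
      simp only [WAB, WeierstrassCurve.b₂]
      ring
    have k3 : (1 : ℚ) ^ 3 * W.a₃ = (WAB A₀ B₀).a₃ + (W.b₂ / 12) * (WAB A₀ B₀).a₁ + 2 * (W.a₃ / 2) := by
      simp only [WAB]
      ring
    have k4 : (1 : ℚ) ^ 4 * W.a₄ = (WAB A₀ B₀).a₄ - (W.a₁ / 2) * (WAB A₀ B₀).a₃ + 2 * (W.b₂ / 12) * (WAB A₀ B₀).a₂ -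
        (W.a₃ / 2 + (W.b₂ / 12) * (W.a₁ / 2)) * (WAB A₀ B₀).a₁ + 3 * (W.b₂ / 12) ^ 2 - 2 * (W.a₁ / 2) * (W.a₃ / 2) := by
      simp only [WAB, WeierstrassCurve.b₂, hA, WeierstrassCurve.c₄, WeierstrassCurve.b₄]
      ring
    have k6 : (1 : ℚ) ^ 6 * W.a₆ = (WAB A₀ B₀).a₆ + (W.b₂ / 12) * (WAB A₀ B₀).a₄ + (W.b₂ / 12) ^ 2 * (WAB A₀ B₀).a₂ + (W.b₂ / 12) ^ 3 -
        (W.a₃ / 2) * (WAB A₀ B₀).a₃ - (W.a₃ / 2) ^ 2 - (W.b₂ / 12) * (W.a₃ / 2) * (WAB A₀ B₀).a₁ := by
      simp only [WAB, WeierstrassCurve.b₂, hA, hB, WeierstrassCurve.c₄, WeierstrassCurve.b₄, WeierstrassCurve.c₆, WeierstrassCurve.b₆]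
      ring
    have j1 := congrArg (algebraMap ℚ Ω) k1
    have j2 := congrArg (algebraMap ℚ Ω) k2
    have j3 := congrArg (algebraMap ℚ Ω) k3
    have j4 := congrArg (algebraMap ℚ Ω) k4
    have j6 := congrArg (algebraMap ℚ Ω) k6
    simp only [map_add, map_sub, map_mul, map_pow, map_ofNat] at j1 j2 j3 j4 j6
    exact ⟨by rw [map_one]; exact one_ne_zero, j1, j2, j3, j4, j6⟩
  have h0 : ac (WAB A₀ B₀) g T = T := inert_triv (by rw [hd]; exact hΔ) hG g (by
    rintro _ ⟨x, rfl⟩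
    exact g.commutes x) hg n hn T hT
  have h1 := MG.ac_crd g T
  rw [h0] at h1
  exact ⟨h1.1.symm, h1.2.1.symm⟩

omit [IQ F] in
theorem rf_one {Ω : Type} [Field Ω] [Algebra F Ω] {V : ValuationSubring Ω} {v : HeightOneSpectrum (𝓞 F)} (hV : Abw V v) {x : 𝓞 F}
    (hx : x ∉ v.asIdeal) : V.valuation (ak Ω x) = 1 := by
  have h1 : v.valuation F (algebraMap (𝓞 F) F x) = 1 :=
    le_antisymm (v.valuation_le_one _) (not_lt.1 fun h3 => hx ((v.valuation_lt_one_iff_mem _).1 h3))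
  exact (hV.eq_one (x : F)).2 h1

/-- The primes of F ramified over the rational numbers divide the discriminant. -/
theorem hram_of {W : WeierstrassCurve ℤ} {Om : ℂ} {m : Ideal (𝓞 F)}
    {ψ : Ideal (𝓞 F) →*₀ 𝓞 F} (hH : BaseH F (W⁄(𝓞 F)) Om m ψ) (v : HeightOneSpectrum (𝓞 F))
    (hv : ∀ a : 𝓞 F, a - cj a ∈ v.asIdeal) : (W⁄(𝓞 F)).Δ ∈ v.asIdeal := by
  classical
  by_contra hΔ
  -- the prime number p
  obtain ⟨p, hp, hp2, hpv⟩ : ∃ p : ℕ, p.Prime ∧ p ≠ 2 ∧ (p : 𝓞 F) ∉ v.asIdeal := by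
    by_cases h3 : ((3 : ℕ) : 𝓞 F) ∈ v.asIdeal
    · refine ⟨5, by norm_num, by norm_num, fun h5 => ?_⟩
      apply v.isPrime.ne_top
      rw [Ideal.eq_top_iff_one]
      have e : (1 : 𝓞 F) = 2 * ((3 : ℕ) : 𝓞 F) - ((5 : ℕ) : 𝓞 F) := by norm_num
      rw [e]
      exact v.asIdeal.sub_mem (v.asIdeal.mul_mem_left _ h3) h5
    · exact ⟨3, by norm_num, by norm_num, h3⟩
  set Ω := AlgebraicClosure F with hΩ
  have hcl : IsAlgClosure ℚ Ω := ⟨inferInstance, Algebra.IsAlgebraic.trans ℚ F Ω⟩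
  -- the valuation ring
  obtain ⟨V, hV⟩ := exists_abw Ω v
  -- the automorphism
  obtain ⟨σ, hσ⟩ := d1_sigma F
  have hσ' : ∀ a : 𝓞 F, σ (a : F) = ((cj a : 𝓞 F) : F) := by
    intro a
    apply (embF F).injective
    rw [hσ]
    exact (e_cj a).symm
  have hn : Normal ℚ Ω := IsAlgClosure.normal ℚ Ω
  set s0 : Ω ≃ₐ[ℚ] Ω := AlgEquiv.liftNormal σ Ω with hs0
  have hs0' : ∀ x : F, s0 (algebraMap F Ω x) = algebraMap F Ω (σ x) := fun x => AlgEquiv.liftNormal_commutes _ _ _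
  set N' : IntermediateField ℚ Ω := (IsScalarTower.toAlgHom ℚ F Ω).fieldRange with hN'
  have hfin : FiniteDimensional ℚ N' :=
    (AlgEquiv.ofInjectiveField (IsScalarTower.toAlgHom ℚ F Ω)).toLinearEquiv.finiteDimensional
  have hmem : ∀ x : Ω, x ∈ N' → ∃ y : F, algebraMap F Ω y = x := by
    rintro x ⟨y, hy⟩
    exact ⟨y, hy⟩
  obtain ⟨s, hsI, hs1⟩ := H13S.inertia_lift N' V s0 (by
      intro x hx
      obtain ⟨y, rfl⟩ := hmem x hx
      rw [hs0']
      exact ⟨σ y, rfl⟩) (by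
      intro x hx hxV
      obtain ⟨y, rfl⟩ := hmem x hx
      rw [hs0', ← map_sub, hV.lt]
      refine H13S.in4_val v σ ?_ y ((hV y).1 hxV)
      intro z
      have e : σ • z = cj z := by
        apply RingOfIntegers.coe_injective
        exact hσ' z
      rw [e, ← neg_sub]
      exact v.asIdeal.neg_mem (hv z))
  have hs : ∀ x : F, s (algebraMap F Ω x) = algebraMap F Ω (σ x) := by
    intro x
    rw [hs1 (algebraMap F Ω x) ⟨x, rfl⟩, hs0']
  -- the curve over the rational numbers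
  set A₀ : ℚ := -(W⁄ℚ).c₄ / 48 with hA₀
  set B₀ : ℚ := -(W⁄ℚ).c₆ / 864 with hB₀
  have hc4 : algebraMap (𝓞 F) F (W⁄(𝓞 F)).c₄ = algebraMap ℚ F (W⁄ℚ).c₄ := by
    have e1 : (W⁄(𝓞 F)).c₄ = algebraMap ℤ (𝓞 F) W.c₄ := W.map_c₄ _
    have e2 : (W⁄ℚ).c₄ = algebraMap ℤ ℚ W.c₄ := W.map_c₄ _
    rw [e1, e2]
    simp
  have hc6 : algebraMap (𝓞 F) F (W⁄(𝓞 F)).c₆ = algebraMap ℚ F (W⁄ℚ).c₆ := by
    have e1 : (W⁄(𝓞 F)).c₆ = algebraMap ℤ (𝓞 F) W.c₆ := W.map_c₆ _
    have e2 : (W⁄ℚ).c₆ = algebraMap ℤ ℚ W.c₆ := W.map_c₆ _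
    rw [e1, e2]
    simp
  obtain ⟨A, hA⟩ : ∃ A : F, A = -(algebraMap (𝓞 F) F (W⁄(𝓞 F)).c₄) / 48 := ⟨_, rfl⟩
  obtain ⟨B, hB⟩ : ∃ B : F, B = -(algebraMap (𝓞 F) F (W⁄(𝓞 F)).c₆) / 864 := ⟨_, rfl⟩
  have hA' : A = algebraMap ℚ F A₀ := by
    rw [hA, hc4, hA₀, map_div₀, map_neg, map_ofNat]
  have hB' : B = algebraMap ℚ F B₀ := by
    rw [hB, hc6, hB₀, map_div₀, map_neg, map_ofNat]
  have hΔ0 := hH.data.ell
  have hd := y3_ne (W⁄(𝓞 F)) hA hB hΔ0
  have hper : Per F (embF F A) (embF F B) Om := by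
    have e1 : embF F A = -(eF F (W⁄(𝓞 F)).c₄) / 48 := by
      rw [hA, map_div₀, map_neg, map_ofNat]
      rfl
    have e2 : embF F B = -(eF F (W⁄(𝓞 F)).c₆) / 864 := by
      rw [hB, map_div₀, map_neg, map_ofNat]
      rfl
    rw [e1, e2]
    exact hH.data.per
  obtain ⟨j, hj⟩ := exists_j F Ω
  obtain ⟨act, h⟩ := exists_CMA F A B Om j hd hper hj
  set s' : Ω ≃+* Ω := (s : Ω ≃+* Ω) with hs'
  have hsA : s' (algebraMap F Ω A) = algebraMap F Ω A := by
    rw [hA', ← IsScalarTower.algebraMap_apply ℚ F Ω]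
    exact s.commutes _
  have hsB : s' (algebraMap F Ω B) = algebraMap F Ω B := by
    rw [hB', ← IsScalarTower.algebraMap_apply ℚ F Ω]
    exact s.commutes _
  have hsc : ∀ a : 𝓞 F, s' (ak Ω a) = ak Ω (cj a) := by
    intro a
    show s (algebraMap F Ω (a : F)) = _
    rw [hs, hσ']
  have hsl := cma_galr h s' hsA hsB hsc
  -- good reduction
  have hVp : V.valuation (p : Ω) = 1 := by
    have h1 := rf_one hV hpv
    have e : ak Ω (p : 𝓞 F) = (p : Ω) := by
      show algebraMap F Ω (((p : 𝓞 F)) : F) = _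
      simp
    rwa [e] at h1
  have hcast : ∀ n : ℤ, algebraMap ℚ Ω (algebraMap ℤ ℚ n) = (n : Ω) := fun n => by simp
  have hcast' : ∀ n : ℤ, algebraMap ℚ Ω (algebraMap ℤ ℚ n) ∈ V := fun n => by
    rw [hcast]
    exact intCast_mem V n
  have hΔQ : (W⁄ℚ).Δ = algebraMap ℤ ℚ W.Δ := W.map_Δ _
  have hΔF : (W⁄(𝓞 F)).Δ = algebraMap ℤ (𝓞 F) W.Δ := W.map_Δ _
  have hΔQ0 : (W⁄ℚ).Δ ≠ 0 := by
    intro h0
    apply hΔ0
    rw [hΔQ] at h0
    have h1 : W.Δ = 0 := by
      have h2 : (W.Δ : ℚ) = 0 := h0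
      exact_mod_cast h2
    rw [hΔF, h1, map_zero]
  have hGood : GoodW ((W⁄ℚ)⁄Ω) V := by
    refine ⟨⟨hcast' _, hcast' _, hcast' _, hcast' _, hcast' _⟩, ?_⟩
    have e1 : ((W⁄ℚ)⁄Ω).Δ = algebraMap ℚ Ω (W⁄ℚ).Δ := (W⁄ℚ).map_Δ _
    have h1 := rf_one hV hΔ
    have e2 : ak Ω (W⁄(𝓞 F)).Δ = (W.Δ : Ω) := by
      rw [hΔF]
      show algebraMap F Ω ((algebraMap ℤ (𝓞 F) W.Δ : 𝓞 F) : F) = _
      simp
    rw [e1, hΔQ, hcast, ← e2]
    exact h1
  have hE : (WAB A B)⁄Ω = (WAB A₀ B₀)⁄Ω := by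
    have e1 : algebraMap F Ω A = algebraMap ℚ Ω A₀ := by rw [hA', ← IsScalarTower.algebraMap_apply ℚ F Ω]
    have e2 : algebraMap F Ω B = algebraMap ℚ Ω B₀ := by rw [hB', ← IsScalarTower.algebraMap_apply ℚ F Ω]
    ext <;> simp [WAB, WeierstrassCurve.map, WeierstrassCurve.baseChange, e1, e2]
  have hfix : ∀ T : Pt (WAB A B) Ω, p • T = 0 → acr s' hsA hsB T = T := by
    intro T hT
    obtain ⟨f1, f2⟩ := rf_fix (W⁄ℚ) hGood hΔQ0 hA₀ hB₀ s hsI p hVp ((WAB A B)⁄Ω) hE T hT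
    by_cases hT0 : T = 0
    · rw [hT0, map_zero]
    · refine CC.c27_ext (fun h0 => hT0 ((acr_zero_iff s' hsA hsB T).1 h0)) hT0 ?_ ?_
      · rw [xc_acr]
        exact f1
      · rw [yc_acr]
        exact f2
  -- the contradiction
  refine rf_card (F := F) hp hp2 (fun a => ?_)
  have hpne : (p : 𝓞 F) ≠ 0 := by exact_mod_cast hp.ne_zero
  obtain ⟨T₀, hT₀, g1, g2, -⟩ := h.gen (p : 𝓞 F) hpne
  have hT₀' : p • T₀ = 0 := by
    rw [← cu_nat act]
    exact hT₀
  have e0 : p • act a T₀ = 0 := by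
    rw [← map_nsmul, hT₀', map_zero]
  have e1 := hsl a T₀
  rw [hfix T₀ hT₀', hfix _ e0] at e1
  rw [← g2 (a - cj a), map_sub]
  show act a T₀ - act (cj a) T₀ = 0
  rw [← e1, sub_self]

end curve

end H55K.TQ
end

-- from Lib.H55K.FB5
section

/-! # H55K: the period and its conjugate -/

open NumberField IsDedekindDomain WeierstrassCurve

namespace H55K.TQ

open H55P (IQ embF eF LF Per IsHecke Pt ac Inert Dec Nm UnitP)
open H35P (WAB Ker tt GoodW IntW)
open H55K.MG (VC Crd)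

variable {F : Type} [Field F] [NumberField F] [IQ F] {W : WeierstrassCurve ℤ} {Om : ℂ}
    {m : Ideal (𝓞 F)} {ψ : Ideal (𝓞 F) →*₀ 𝓞 F} {p : ℕ}

/-- Chunk FB5 (S). Per for W⁄(𝓞 F) is PerW (eF F of an integer is the integer; the coefficients c₄, c₆ of the mapped curve). -/
theorem perW_of (hH : BaseH F (W⁄(𝓞 F)) Om m ψ) : PerW F W Om := by
  have h := hH.data.per
  have e4 : eF F (W⁄(𝓞 F)).c₄ = (W.c₄ : ℂ) := by
    have e : (W⁄(𝓞 F)).c₄ = algebraMap ℤ (𝓞 F) W.c₄ := W.map_c₄ (algebraMap ℤ (𝓞 F))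
    rw [e]
    simp
  have e6 : eF F (W⁄(𝓞 F)).c₆ = (W.c₆ : ℂ) := by
    have e : (W⁄(𝓞 F)).c₆ = algebraMap ℤ (𝓞 F) W.c₆ := W.map_c₆ (algebraMap ℤ (𝓞 F))
    rw [e]
    simp
  rw [e4, e6] at h
  exact h

/-- Chunk FB5 (S/M). conj Om = u Om with u a unit of 𝓞 F: the lattice Om * eF(𝓞 F) is the lattice of the PeriodPair L of lat_W / exists_perZ (QP1A.lean) and also (conj Om) * eF (𝓞 F) is a lattice with the same g₂, g₃ (conjugate of the Eisenstein series, real invariants; search conj in QP2*.lean, om_conj may exist there: grep);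
so conj Om = eF a Om and Om = eF b conj Om, ab = 1: V(eF a) = 1. -/
theorem om_conj_val (hper : PerW F W Om) (V : ValuationSubring ℂ) : V.valuation ((starRingEnd ℂ) Om / Om) = 1 := by
  obtain ⟨L, hL⟩ := exists_perZ hper
  obtain ⟨η, hη⟩ := om_conj hper hL
  have hne : Om ≠ 0 := hper.ne
  rw [hη, mul_div_cancel_left₀ _ hne]
  have hint : ∀ x : 𝓞 F, V.valuation (eF F x) ≤ 1 := by
    intro x
    have h2 : IsIntegral ℤ (eF F x) := (RingOfIntegers.isIntegral x).map ((eF F).toIntAlgHom)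
    rw [V.valuation_le_one_iff]
    have h3 : IsIntegral V (eF F x) := h2.tower_top
    obtain ⟨y, hy⟩ := IsIntegrallyClosed.isIntegral_iff.1 h3
    rw [← hy]
    exact y.2
  have h2 := hint η
  have h3 := hint (η⁻¹ : (𝓞 F)ˣ)
  have h4 : V.valuation (eF F η) * V.valuation (eF F ((η⁻¹ : (𝓞 F)ˣ) : 𝓞 F)) = 1 := by
    rw [← map_mul, ← map_mul, Units.mul_inv, map_one, map_one]
  refine le_antisymm h2 ?_
  rw [← h4]
  exact mul_le_of_le_one_right' h3

end H55K.TQ
end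

-- from Lib.H55K.SDI
section

/-! # H55K, part S: the two cases -/

open NumberField IsDedekindDomain WeierstrassCurve

namespace H55K.S

open H55P (IQ embF eF LF Per IsHecke Pt ac Inert Dec Nm)
open H35P (WAB Ker tt)
open H13S (Abv)

variable {F : Type} [Field F] [NumberField F] [IQ F] {A B : F} {Om : ℂ} {Ω : Type} [Field Ω] [DecidableEq Ω]
  [Algebra F Ω] {j : Ω →+* ℂ} {act : 𝓞 F →+* AddMonoid.End (Pt (WAB A B) Ω)}

theorem Nm_eq_one' {x : 𝓞 F} : Nm x = 1 ↔ IsUnit x := by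
  unfold Nm
  rw [Ideal.absNorm_eq_one_iff, Ideal.span_singleton_eq_top]

theorem Nm_ne_zero' {x : 𝓞 F} (hx : x ≠ 0) : Nm x ≠ 0 := fun h =>
  hx (Ideal.span_singleton_eq_bot.1 (Ideal.absNorm_eq_zero_iff.1 h))

/-- Associated elements kill the same points. -/
theorem tor_assoc {a b : 𝓞 F} (h : Associated a b) : Tor act a = Tor act b := by
  have key : ∀ x y : 𝓞 F, x ∣ y → Tor act x ≤ Tor act y := by
    rintro x y ⟨z, rfl⟩ P hP
    rw [mem_Tor] at hP ⊢
    rw [mul_comm, act_mul, hP, map_zero]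
  exact le_antisymm (key a b h.dvd) (key b a h.symm.dvd)

/-- The two cases: inert and split. -/
theorem dichotomy {l : ℕ} (hl : l.Prime) (unr : ∀ v : HeightOneSpectrum (𝓞 F), (l : 𝓞 F) ∉ v.asIdeal ^ 2)
    {π : 𝓞 F} (hπ : Prime π) (hd : π ∣ (l : 𝓞 F)) :
    (Associated (cj π) π ∧ Nm π = l ^ 2 ∧ Associated (l : 𝓞 F) π) ∨
      (¬ π ∣ cj π ∧ ¬ cj π ∣ π ∧ Nm π = l ∧ π * cj π = (l : 𝓞 F)) := by
  obtain ⟨u, hu⟩ := hd
  have h1 : Nm π * Nm u = l ^ 2 := by rw [← Nm_mul, ← hu, Nm_nat]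
  obtain ⟨k, hk2, hk⟩ := (Nat.dvd_prime_pow hl).1 (Dvd.intro _ h1)
  have hk0 : k ≠ 0 := by
    rintro rfl
    rw [pow_zero, Nm_eq_one'] at hk
    exact hπ.not_isUnit hk
  have hk12 : k = 1 ∨ k = 2 := by omega
  have hπ' := cj_prime hπ
  rcases hk12 with rfl | rfl
  · right
    rw [pow_one] at hk
    have h2 : π * cj π = (l : 𝓞 F) := by rw [mul_cj, hk]
    have key : ¬ Associated π (cj π) := by
      intro ha
      have hp : (Ideal.span {π}).IsPrime := (Ideal.span_singleton_prime hπ.ne_zero).2 hπ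
      refine unr ⟨Ideal.span {π}, hp, by rw [Ne, Ideal.span_singleton_eq_bot]; exact hπ.ne_zero⟩ ?_
      show (l : 𝓞 F) ∈ Ideal.span {π} ^ 2
      rw [Ideal.span_singleton_pow, Ideal.mem_span_singleton, ← h2, sq]
      exact mul_dvd_mul_left _ ha.dvd
    refine ⟨fun h => key (hπ.associated_of_dvd hπ' h), fun h => key (hπ'.associated_of_dvd hπ h).symm, hk, h2⟩
  · left
    have h3 : Nm u = 1 := by
      rw [hk] at h1
      exact (Nat.eq_of_mul_eq_mul_left (pow_pos hl.pos 2) (by rw [mul_one]; exact h1))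
    have h4 : Associated (l : 𝓞 F) π := by
      rw [hu]
      exact (associated_mul_unit_right π u (Nm_eq_one'.1 h3)).symm
    refine ⟨?_, hk, h4⟩
    have h5 : Associated (cj (l : 𝓞 F)) (cj π) := h4.map cj
    rw [cj_nat] at h5
    exact h5.symm.trans h4

/-- A prime element above l. -/
theorem exists_prime_above {l : ℕ} (hl : l.Prime) : ∃ π : 𝓞 F, Prime π ∧ π ∣ (l : 𝓞 F) := by
  have h0 : (l : 𝓞 F) ≠ 0 := Nat.cast_ne_zero.2 hl.ne_zero
  have hnu : ¬ IsUnit (l : 𝓞 F) := by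
    rw [← Nm_eq_one', Nm_nat]
    intro h
    have := hl.one_lt
    nlinarith
  have hP : IsPrincipalIdealRing (𝓞 F) := inferInstance
  obtain ⟨p, hp, hpl⟩ := WfDvdMonoid.exists_irreducible_factor hnu h0
  exact ⟨p, irreducible_iff_prime.1 hp, hpl⟩

omit [DecidableEq Ω] [NumberField F] [IQ F] in
theorem vo_assoc (V : ValuationSubring Ω) {a b : 𝓞 F} (h : Associated a b) (hle : ∀ x : 𝓞 F, vo V x ≤ 1) :
    vo V a = vo V b := by
  have key : ∀ x y : 𝓞 F, x ∣ y → vo V y ≤ vo V x := by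
    rintro x y ⟨z, rfl⟩
    rw [vo_mul]
    exact mul_le_of_le_one_right' (hle z)
  exact le_antisymm (key b a h.symm.dvd) (key a b h.dvd)

end H55K.S
end

-- from Lib.H55K.QF1A
section

set_option autoImplicit false

/-! # H55K: the index of the kernel of reduction at a bad place -/

open NumberField IsDedekindDomain WeierstrassCurve

namespace H55K.TQ

open H55P (IQ embF eF LF Per IsHecke Pt ac Inert Dec Nm UnitP)
open H35P (WAB Ker tt GoodW IntW)
open H55K.MG (VC Crd)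

variable {k : Type} [Field k] {W : WeierstrassCurve k}

/-- good reduction descends -/
theorem qf1a_good {Ω : Type} [Field Ω] [Algebra k Ω] {V₀ : ValuationSubring k}
    {V : ValuationSubring Ω} (hV : ∀ x : k, algebraMap k Ω x ∈ V ↔ x ∈ V₀)
    {W'' : WeierstrassCurve k} (h : GoodW (W''⁄Ω) V) : GoodW W'' V₀ := by
  have hd : V₀.valuation W''.Δ = 1 := by
    have h1 : V.valuation (algebraMap k Ω W''.Δ) = 1 := by
      have h5 := h.disc
      have h6 : (W''⁄Ω).Δ = algebraMap k Ω W''.Δ := WeierstrassCurve.map_Δ W'' (algebraMap k Ω)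
      rwa [h6] at h5
    have h2 : V.valuation (algebraMap k Ω (1 : k)) = 1 := by rw [map_one, map_one]
    have h3 := (ext_val hV W''.Δ 1).1
    have h4 := (ext_val hV 1 W''.Δ).1
    rw [h1, h2, map_one] at h3
    rw [h1, h2, map_one] at h4
    exact le_antisymm (h3.1 le_rfl) (h4.1 le_rfl)
  have e1 : W''.a₁ ∈ V₀ := (hV _).1 h.a1
  have e2 : W''.a₂ ∈ V₀ := (hV _).1 h.a2
  have e3 : W''.a₃ ∈ V₀ := (hV _).1 h.a3
  have e4 : W''.a₄ ∈ V₀ := (hV _).1 h.a4
  have e6 : W''.a₆ ∈ V₀ := (hV _).1 h.a6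
  exact { a1 := e1, a2 := e2, a3 := e3, a4 := e4, a6 := e6, disc := hd }

theorem index_coprime [DecidableEq k] {V₀ : ValuationSubring k} (hI : IntW W V₀) (hΔ : W.Δ ≠ 0) {jj : k} (hj : jj ∈ V₀)
    (hjj : W.c₄ ^ 3 = jj * W.Δ) (hf : FinR V₀) (hA : Arch V₀) {q : ℕ} (hq : q.Prime) (hqv : V₀.valuation (q : k) < 1)
    (hbad : ¬ PG W V₀) {p : ℕ} (hp : p.Prime) (h5 : 5 ≤ p) (hpq : p ≠ q) :
    ∃ K1 : AddSubgroup W.toAffine.Point, (∀ P, P ∈ K1 ↔ Ker V₀ P) ∧ K1.FiniteIndex ∧ ¬ p ∣ K1.index := by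
  classical
  let Ω := AlgebraicClosure k
  obtain ⟨V, hV⟩ := exists_ext (Ω := Ω) V₀
  have hAV : Arch V := arch_ext hV hA
  have hinj : Function.Injective (algebraMap k Ω) := (algebraMap k Ω).injective
  have hbΔ : (W⁄Ω).Δ = algebraMap k Ω W.Δ := WeierstrassCurve.map_Δ W (algebraMap k Ω)
  have hbc : (W⁄Ω).c₄ = algebraMap k Ω W.c₄ := WeierstrassCurve.map_c₄ W (algebraMap k Ω)
  have hΔ' : (W⁄Ω).Δ ≠ 0 := by
    rw [hbΔ]
    exact fun h0 => hΔ (hinj (by rw [h0, map_zero]))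
  have hc4 : (W⁄Ω).c₄ ^ 3 = algebraMap k Ω jj * (W⁄Ω).Δ := by
    rw [hbΔ, hbc, ← map_pow, hjj, map_mul]
  obtain ⟨W', u, r, s, t, hv, hG⟩ := gmodel hΔ' ((hV jj).2 hj) hc4
  have hW' : W'.Δ ≠ 0 := by
    intro h0
    have := hG.disc
    rw [h0, map_zero] at this
    exact zero_ne_one this
  obtain ⟨Θ, hc⟩ := MG.vc_iso hv hΔ' hW'
  obtain ⟨φ, hφ⟩ := exists_inc (Ω := Ω) W
  obtain ⟨K1, hK1, hfin⟩ := fin_index hI hΔ hf
  refine ⟨K1, hK1, hfin, fun hdvd => ?_⟩
  haveI := hfin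
  haveI : Finite (W.toAffine.Point ⧸ K1) := AddSubgroup.finite_quotient_of_finiteIndex
  haveI : Fintype (W.toAffine.Point ⧸ K1) := Fintype.ofFinite _
  haveI : Fact p.Prime := ⟨hp⟩
  rw [AddSubgroup.index_eq_card, Nat.card_eq_fintype_card] at hdvd
  obtain ⟨x, hx⟩ := exists_prime_addOrderOf_dvd_card p hdvd
  obtain ⟨P, rfl⟩ := QuotientAddGroup.mk_surjective x
  -- multiples of kernel points
  have hnsmul : ∀ (R : W.toAffine.Point) (n : ℕ), Ker V (Θ (φ R)) → Ker V (Θ (φ (n • R))) := by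
    intro R n hR
    induction n with
    | zero =>
      rw [zero_smul, map_zero, map_zero]
      exact trivial
    | succ n ih =>
      rw [succ_nsmul, map_add, map_add]
      exact H35P.ker_add hG.toIntW _ _ ih hR
  have h12 : Ker V (Θ (φ (12 • P))) := by
    by_cases k1 : Ker V (Θ (φ P))
    · exact hnsmul P 12 k1
    by_cases k2 : Ker V (Θ (φ (2 • P)))
    · have := hnsmul (2 • P) 6 k2
      rwa [smul_smul] at this
    by_cases k3 : Ker V (Θ (φ (3 • P)))
    · have := hnsmul (3 • P) 4 k3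
      rwa [smul_smul] at this
    by_cases k4 : Ker V (Θ (φ (4 • P)))
    · have := hnsmul (4 • P) 3 k4
      rwa [smul_smul] at this
    exfalso
    obtain ⟨W'', u', r', s', t', hv', hG'⟩ := rat_model hv hG hc hφ P k1 k2 k3 k4
    exact hbad ⟨W'', u', r', s', t', hv', qf1a_good hV hG'⟩
  have hq' : V.valuation ((q : ℕ) : Ω) < 1 := by
    have h1 := (ext_val hV (q : k) 1).2.2 (by rw [map_one]; exact hqv)
    rwa [map_one, map_one, map_natCast] at h1
  obtain ⟨n, hn⟩ := contract hV hAV hG hv.une hc hφ hq' (12 • P) h12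
  rw [← hK1, smul_smul] at hn
  have h1 : (q ^ n * 12) • (QuotientAddGroup.mk P : W.toAffine.Point ⧸ K1) = 0 := by
    rw [← QuotientAddGroup.mk_nsmul]
    exact (QuotientAddGroup.eq_zero_iff _).2 hn
  have h2 : p ∣ q ^ n * 12 := by
    rw [← hx]
    exact addOrderOf_dvd_of_nsmul_eq_zero h1
  rcases (Nat.Prime.dvd_mul hp).1 h2 with h3 | h3
  · exact hpq ((Nat.prime_dvd_prime_iff_eq hp hq).1 (hp.dvd_of_dvd_pow h3))
  · have h4 : p ∣ 4 * 3 := h3
    rcases (Nat.Prime.dvd_mul hp).1 h4 with h6 | h6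
    · have := Nat.le_of_dvd (by norm_num) h6
      omega
    · have := Nat.le_of_dvd (by norm_num) h6
      omega

end H55K.TQ
end

-- from Lib.H55K.QF1C
section

/-! # H55K: the index of the kernel of reduction at a bad place -/

open NumberField IsDedekindDomain WeierstrassCurve

namespace H55K.TQ

open H55P (IQ embF eF LF Per IsHecke Pt ac Inert Dec Nm UnitP)
open H35P (WAB Ker tt GoodW IntW)
open H55K.MG (VC Crd)

variable {k : Type} [Field k] {W : WeierstrassCurve k}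

/-- Chunk QF1C (S/M). Either PG W V₀ (then W is good: hmin) and the closure is everything, index 1; or index_coprime: K1 is contained in the closure (ker_e0), so the index of the closure divides the index of K1 (AddSubgroup.index_dvd_of_le). -/
theorem index_e0 [DecidableEq k] {V₀ : ValuationSubring k} (hI : IntW W V₀) (hΔ : W.Δ ≠ 0) {jj : k} (hj : jj ∈ V₀)
    (hjj : W.c₄ ^ 3 = jj * W.Δ) (hf : FinR V₀) (hA : Arch V₀) {q : ℕ} (hq : q.Prime) (hqv : V₀.valuation (q : k) < 1)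
    (hmin : PG W V₀ → GoodW W V₀) {p : ℕ} (hp : p.Prime) (h5 : 5 ≤ p) (hpq : p ≠ q ∨ PG W V₀) :
    ¬ p ∣ (AddSubgroup.closure (E0V W V₀)).index := by
  by_cases hg : PG W V₀
  · have h1 : AddSubgroup.closure (E0V W V₀) = ⊤ := by
      rw [AddSubgroup.eq_top_iff']
      exact fun P => AddSubgroup.subset_closure (good_e0 (hmin hg) P)
    rw [h1, AddSubgroup.index_top]
    exact hp.one_lt.ne' ∘ Nat.dvd_one.1
  · obtain ⟨K1, hK, -, hn⟩ := index_coprime hI hΔ hj hjj hf hA hq hqv hg hp h5 (hpq.resolve_right hg)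
    intro hd
    apply hn
    refine hd.trans (AddSubgroup.index_dvd_of_le ?_)
    intro P hP
    exact AddSubgroup.subset_closure (ker_e0 hI ((hK P).1 hP))

end H55K.TQ
end

-- from Lib.H55K.QH1B
section

/-! # H55K: the completion of a number field at a finite place -/

open NumberField IsDedekindDomain WeierstrassCurve

namespace H55K.TQ

open H55P (IQ embF eF LF Per IsHecke Pt ac Inert Dec Nm UnitP)
open H35P (WAB Ker tt GoodW IntW)
open H55K.MG (VC Crd)

variable {K : Type} [Field K] [NumberField K] (w : HeightOneSpectrum (𝓞 K))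

/-- Density. -/
theorem qh1b_dense (x ε : w.adicCompletion K) (hε : ε ≠ 0) :
    ∃ k : K, Valued.v (x - algebraMap K (w.adicCompletion K) k) ≤ Valued.v ε := by
  have hopen : IsOpen {z : w.adicCompletion K | (x - z) * ε⁻¹ ∈ w.adicCompletionIntegers K} := by
    have h1 : IsOpen ((w.adicCompletionIntegers K : Set (w.adicCompletion K))) :=
      Valued.isOpen_valuationSubring (w.adicCompletion K)
    exact h1.preimage ((continuous_const.sub continuous_id).mul continuous_const)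
  obtain ⟨k, hk⟩ := (HeightOneSpectrum.denseRange_algebraMap K w).exists_mem_open hopen
    ⟨x, by
      show (x - x) * ε⁻¹ ∈ w.adicCompletionIntegers K
      rw [sub_self, zero_mul]
      exact zero_mem _⟩
  refine ⟨k, ?_⟩
  have hk' : Valued.v ((x - algebraMap K (w.adicCompletion K) k) * ε⁻¹) ≤ 1 := hk
  have h2 : x - algebraMap K (w.adicCompletion K) k = ((x - algebraMap K (w.adicCompletion K) k) * ε⁻¹) * ε := by
    rw [mul_assoc, inv_mul_cancel₀ hε, mul_one]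
  rw [h2, map_mul]
  calc Valued.v ((x - algebraMap K (w.adicCompletion K) k) * ε⁻¹) * Valued.v ε
      ≤ 1 * Valued.v ε := mul_le_mul_left hk' _
    _ = Valued.v ε := one_mul _

theorem qh1b_val (k : K) : Valued.v (algebraMap K (w.adicCompletion K) k) = w.valuation K k :=
  HeightOneSpectrum.valuedAdicCompletion_eq_valuation' w k

/-- Chunk QH1B (M). V(c) = exp (-N) (or > 1: then take S = {0}). Every x in the completion with V(x) ≤ 1 is within V < exp (-N) of an element of K (density) with V ≤ 1, hence of an element of 𝓞 K (an element a/b of K with w-value ≤ 1 is congruent modulo w^(N+1) to an integer: HeightOneSpectrum.exists_adicValued_mul_sub_le or IsDedekindDomain lemmas), and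
𝓞 K ⧸ w.asIdeal^(N+1) is finite (Ideal.finiteQuotientOfFreeOfNeBot): S = images of representatives. Alternatively from the compactness of the integers of the completion (Mathlib: CompactSpace (adicCompletionIntegers) for number fields) : finitely many balls of radius V < V(c) cover. -/
theorem fin_w : FinR (w.adicCompletionIntegers K) := by
  classical
  intro c hc
  have hc0 : Valued.v c ≠ 0 := (Valuation.ne_zero_iff _).2 hc
  by_cases h1 : Valued.v c ≤ 1
  swap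
  · refine ⟨{0}, Set.finite_singleton 0, fun x hx => ⟨0, rfl, ?_⟩⟩
    rw [sub_zero, (val_w w x c).2]
    exact lt_of_le_of_lt hx (not_le.1 h1)
  obtain ⟨N, hN⟩ := WithZero.exists_exp_neg_natCast_lt hc0
  have hne : w.asIdeal ^ N ≠ ⊥ := pow_ne_zero N w.ne_bot
  have hfin : Finite (𝓞 K ⧸ w.asIdeal ^ N) := Ideal.finiteQuotientOfFreeOfNeBot _ hne
  refine ⟨Set.range fun q : 𝓞 K ⧸ w.asIdeal ^ N => algebraMap K (w.adicCompletion K) ((Quotient.out q : 𝓞 K) : K),
    Set.finite_range _, fun x hx => ?_⟩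
  obtain ⟨ϖ, hϖ⟩ := w.intValuation_exists_uniformizer
  have hϖ1 : Valued.v (algebraMap K (w.adicCompletion K) (ϖ : K)) < 1 := by
    rw [qh1b_val]
    have : w.valuation K (ϖ : K) = w.intValuation ϖ := HeightOneSpectrum.valuation_of_algebraMap w ϖ
    rw [this, hϖ]
    decide
  have hϖ0 : algebraMap K (w.adicCompletion K) (ϖ : K) ≠ 0 := by
    intro h0
    have h2 : Valued.v (algebraMap K (w.adicCompletion K) (ϖ : K)) = w.intValuation ϖ := by
      rw [qh1b_val]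
      exact HeightOneSpectrum.valuation_of_algebraMap w ϖ
    rw [h0, map_zero, hϖ] at h2
    exact absurd h2.symm WithZero.exp_ne_zero
  have hε : c * algebraMap K (w.adicCompletion K) (ϖ : K) ≠ 0 := mul_ne_zero hc hϖ0
  have hεc : Valued.v (c * algebraMap K (w.adicCompletion K) (ϖ : K)) < Valued.v c := by
    rw [map_mul]
    calc Valued.v c * Valued.v (algebraMap K (w.adicCompletion K) (ϖ : K)) < Valued.v c * 1 :=
          mul_lt_mul_of_pos_left hϖ1 (zero_lt_iff.2 hc0)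
      _ = Valued.v c := mul_one _
  obtain ⟨k, hk⟩ := qh1b_dense w x _ hε
  have hk1 : w.valuation K k ≤ 1 := by
    rw [← qh1b_val]
    have e : algebraMap K (w.adicCompletion K) k = x - (x - algebraMap K (w.adicCompletion K) k) := by ring
    rw [e]
    refine (Valuation.map_sub _ _ _).trans (max_le hx ((hk.trans hεc.le).trans h1))
  obtain ⟨a, ha⟩ := w.exists_valuation_sub_lt_of_integer hk1 (Units.mk0 _ hc0)
  have hab : a - Quotient.out (Ideal.Quotient.mk (w.asIdeal ^ N) a) ∈ w.asIdeal ^ N := by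
    rw [← Ideal.Quotient.mk_eq_mk_iff_sub_mem]
    exact (Ideal.Quotient.mk_out _).symm
  refine ⟨_, ⟨Ideal.Quotient.mk (w.asIdeal ^ N) a, rfl⟩, ?_⟩
  rw [(val_w w _ _).2]
  set b : 𝓞 K := Quotient.out (Ideal.Quotient.mk (w.asIdeal ^ N) a) with hb
  have e1 : x - algebraMap K (w.adicCompletion K) (b : K) = (x - algebraMap K (w.adicCompletion K) k) -
      algebraMap K (w.adicCompletion K) ((a : K) - k) + algebraMap K (w.adicCompletion K) ((a : K) - (b : K)) := by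
    rw [map_sub, map_sub]
    ring
  rw [e1]
  refine Valuation.map_add_lt _ (Valuation.map_sub_lt _ (lt_of_le_of_lt hk hεc) ?_) ?_
  · rw [qh1b_val]
    exact ha
  · rw [qh1b_val]
    have e2 : (a : K) - (b : K) = algebraMap (𝓞 K) K (a - b) := by
      rw [map_sub]
    rw [e2, HeightOneSpectrum.valuation_of_algebraMap]
    refine lt_of_le_of_lt ?_ hN
    exact (w.intValuation_le_pow_iff_mem _ N).2 hab

end H55K.TQ
end

-- from Lib.H55K.QH1C
section

/-! # H55K: the completion of a number field at a finite place -/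

open NumberField IsDedekindDomain WeierstrassCurve

namespace H55K.TQ

open H55P (IQ embF eF LF Per IsHecke Pt ac Inert Dec Nm UnitP)
open H35P (WAB Ker tt GoodW IntW)
open H55K.MG (VC Crd)

variable {K : Type} [Field K] [NumberField K] (w : HeightOneSpectrum (𝓞 K))

/-- Chunk QH1C (S). valuedAdicCompletion_eq_valuation', valuation_lt_one_iff_mem. -/
theorem int_w (x : 𝓞 K) : algebraMap K (w.adicCompletion K) x ∈ w.adicCompletionIntegers K ∧
    ((w.adicCompletionIntegers K).valuation (algebraMap K (w.adicCompletion K) x) < 1 ↔ x ∈ w.asIdeal) ∧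
    ((w.adicCompletionIntegers K).valuation (algebraMap K (w.adicCompletion K) x) = 1 ↔ x ∉ w.asIdeal) := by
  have hv : (Valued.v (algebraMap K (w.adicCompletion K) x) : WithZero (Multiplicative ℤ)) =
      w.valuation K (algebraMap (𝓞 K) K x) := HeightOneSpectrum.valuedAdicCompletion_eq_valuation' w _
  have h1 : (w.adicCompletionIntegers K).valuation (algebraMap K (w.adicCompletion K) x) ≤ 1 := by
    rw [← map_one ((w.adicCompletionIntegers K).valuation)]
    refine (val_w w _ _).1.2 ?_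
    rw [map_one, hv]
    exact w.valuation_le_one x
  have h2 : (w.adicCompletionIntegers K).valuation (algebraMap K (w.adicCompletion K) x) < 1 ↔
      x ∈ w.asIdeal := by
    rw [← map_one ((w.adicCompletionIntegers K).valuation), (val_w w _ _).2, map_one, hv]
    exact w.valuation_lt_one_iff_mem x
  refine ⟨(ValuationSubring.valuation_le_one_iff _ _).1 h1, h2, ?_⟩
  rw [← h2, not_lt]
  exact ⟨fun h => h.ge, fun h => le_antisymm h1 h⟩

/-- Chunk QH1C (S). The residue characteristic: w contains the positive integer absNorm w, so a prime number. -/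
theorem res_w : ∃ q : ℕ, q.Prime ∧ (q : 𝓞 K) ∈ w.asIdeal ∧
    (w.adicCompletionIntegers K).valuation (q : w.adicCompletion K) < 1 := by
  have key : ∀ n : ℕ, n ≠ 0 → (n : 𝓞 K) ∈ w.asIdeal → ∃ q : ℕ, q.Prime ∧ (q : 𝓞 K) ∈ w.asIdeal := by
    intro n
    induction n using Nat.strong_induction_on with
    | _ n ih =>
      intro hn hmem
      have hn1 : n ≠ 1 := by
        rintro rfl
        refine w.isPrime.ne_top ((Ideal.eq_top_iff_one _).2 ?_)
        simpa using hmem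
      obtain ⟨q, hq, m, rfl⟩ := Nat.exists_prime_and_dvd hn1
      rw [Nat.cast_mul] at hmem
      rcases w.isPrime.mem_or_mem hmem with h | h
      · exact ⟨q, hq, h⟩
      · have hm : m ≠ 0 := fun h0 => hn (by rw [h0, mul_zero])
        refine ih m ?_ hm h
        calc m = 1 * m := (one_mul m).symm
          _ < q * m := Nat.mul_lt_mul_of_pos_right hq.one_lt (Nat.pos_of_ne_zero hm)
  have hN : (Ideal.absNorm w.asIdeal) ≠ 0 := by
    have := HeightOneSpectrum.one_lt_absNorm w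
    omega
  obtain ⟨q, hq, hqm⟩ := key _ hN (Ideal.absNorm_mem w.asIdeal)
  refine ⟨q, hq, hqm, ?_⟩
  have h := (int_w w (q : 𝓞 K)).2.1.2 hqm
  have hc : algebraMap K (w.adicCompletion K) ((q : 𝓞 K) : K) = (q : w.adicCompletion K) := by
    simp
  rw [hc] at h
  exact h

end H55K.TQ
end

-- from Lib.H55K.QH2B
section

/-! # H55K: the minimal equation over the completion -/

open NumberField IsDedekindDomain WeierstrassCurve

namespace H55K.TQ

open H55P (IQ embF eF LF Per IsHecke Pt ac Inert Dec Nm UnitP)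
open H35P (WAB Ker tt GoodW IntW)
open H55K.MG (VC Crd)

variable {K : Type} [Field K] [NumberField K] (w : HeightOneSpectrum (𝓞 K))

/-- A valuation subring which is a discrete valuation ring: the value of its elements for the maximal ideal is 1 iff they
are units. -/
theorem qh2b_val {k : Type} [Field k] (V : ValuationSubring k) [IsDiscreteValuationRing V] {x : k} (hx : x ∈ V) :
    (IsDiscreteValuationRing.maximalIdeal V).valuation k x = 1 ↔ V.valuation x = 1 := by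
  have h1 : x = algebraMap V k ⟨x, hx⟩ := rfl
  have h2 : ¬ ((IsDiscreteValuationRing.maximalIdeal V).valuation k (algebraMap V k ⟨x, hx⟩) < 1) ↔
      (⟨x, hx⟩ : V) ∉ (IsDiscreteValuationRing.maximalIdeal V).asIdeal :=
    not_iff_not.mpr (HeightOneSpectrum.valuation_lt_one_iff_mem _ _)
  have h3 : (IsDiscreteValuationRing.maximalIdeal V).valuation k (algebraMap V k ⟨x, hx⟩) ≤ 1 :=
    HeightOneSpectrum.valuation_le_one _ _
  have h4 : (⟨x, hx⟩ : V) ∉ (IsDiscreteValuationRing.maximalIdeal V).asIdeal ↔ IsUnit (⟨x, hx⟩ : V) := by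
    change (⟨x, hx⟩ : V) ∉ IsLocalRing.maximalIdeal V ↔ _
    exact IsLocalRing.notMem_maximalIdeal
  have h5 := V.valuation_eq_one_iff ⟨x, hx⟩
  rw [← h5, ← h4, ← h2, not_lt]
  constructor
  · intro h
    exact h.ge
  · intro h
    exact le_antisymm h3 h

/-- Chunk QH2B (M). If some change of variables of W gives a good equation W' then W' = C' • (Wm) (vc_inv, vc_comp, VC to VariableChange) is integral (IsIntegral) and valuation_Δ_aux of it is 1; by maximality (IsMinimal.val_Δ_maximal) the value of the discriminant of the minimal equation is 1 too. Valuation of the maximal ideal of the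
ring of integers of the completion and Valued.v: for unit discriminants (value 1) the statements are equivalent: r a unit of the ring (valuation K (maximalIdeal R) (algebraMap r) = 1 iff r is a unit iff V(r) = 1). -/
theorem wm_good (W : WeierstrassCurve K) (h : PG (W⁄(w.adicCompletion K)) (w.adicCompletionIntegers K)) :
    GoodW (Wm K W w) (w.adicCompletionIntegers K) := by
  obtain ⟨W', u, r, s, t, hv, hG⟩ := h
  obtain ⟨u0, r0, s0, t0, hv0⟩ := wm_vc w W
  have hv1 := vc_comp (vc_inv hv0) hv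
  refine ⟨wm_int w W, ?_⟩
  have hmin : IsMinimal (w.adicCompletionIntegers K) (Wm K W w) := by
    unfold Wm
    infer_instance
  set C : VariableChange (w.adicCompletion K) := ⟨Units.mk0 _ hv1.une, _, _, _⟩ with hC
  have hC1 : W' = C • Wm K W w := vc_uniq hv1 (vc_smul (Wm K W w) C)
  have hint : IsIntegral (w.adicCompletionIntegers K) (C • Wm K W w) := by
    rw [← hC1]
    exact isIntegral_of_exists_lift _ ⟨⟨_, hG.a1⟩, rfl⟩ ⟨⟨_, hG.a2⟩, rfl⟩ ⟨⟨_, hG.a3⟩, rfl⟩ ⟨⟨_, hG.a4⟩, rfl⟩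
      ⟨⟨_, hG.a6⟩, rfl⟩
  have hmax := hmin.val_Δ_maximal.2 hint
  have hle : valuation_Δ_aux (w.adicCompletionIntegers K) (C • Wm K W w) ≤
      valuation_Δ_aux (w.adicCompletionIntegers K) ((1 : VariableChange (w.adicCompletion K)) • Wm K W w) := by
    rcases le_total (valuation_Δ_aux (w.adicCompletionIntegers K) (C • Wm K W w))
      (valuation_Δ_aux (w.adicCompletionIntegers K) ((1 : VariableChange (w.adicCompletion K)) • Wm K W w)) with h1 | h1
    · exact h1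
    · exact hmax h1
  rw [one_smul] at hle
  have hle2 := Subtype.coe_le_coe.2 hle
  rw [valuation_Δ_aux_eq_of_isIntegral, valuation_Δ_aux_eq_of_isIntegral, ← hC1] at hle2
  have hΔ' : W'.Δ ∈ w.adicCompletionIntegers K := by
    rw [← ValuationSubring.valuation_le_one_iff]
    exact hG.disc.le
  obtain ⟨D, hD⟩ := Δ_integral_of_isIntegral (w.adicCompletionIntegers K) (Wm K W w)
  have hΔ : (Wm K W w).Δ ∈ w.adicCompletionIntegers K := by
    rw [← hD]
    exact D.2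
  rw [(qh2b_val _ hΔ').2 hG.disc] at hle2
  rw [← qh2b_val _ hΔ]
  refine le_antisymm ?_ hle2
  rw [← hD]
  exact HeightOneSpectrum.valuation_le_one _ _

/-- Chunk QH2B (S). PG is invariant under changes of variables (vc_inv, vc_comp). -/
theorem pg_iff {k : Type} [Field k] {V : ValuationSubring k} {W W' : WeierstrassCurve k} {u r s t : k} (h : VC W W' u r s t) :
    PG W V ↔ PG W' V := by
  constructor
  · rintro ⟨W₁, u₁, r₁, s₁, t₁, h₁, hG⟩
    exact ⟨W₁, _, _, _, _, vc_comp (vc_inv h) h₁, hG⟩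
  · rintro ⟨W₁, u₁, r₁, s₁, t₁, h₁, hG⟩
    exact ⟨W₁, _, _, _, _, vc_comp h h₁, hG⟩

/-- Chunk QH2B (S). val_w with y = 1. -/
theorem e0_w (W : WeierstrassCurve K) : E0G K W w = E0V (Wm K W w) (w.adicCompletionIntegers K) := by
  have hval : ∀ x : w.adicCompletion K, 1 ≤ Valued.v x ↔ 1 ≤ (w.adicCompletionIntegers K).valuation x := by
    intro x
    have h1 := (val_w w x 1).2
    rw [map_one, map_one] at h1
    rw [← not_lt, ← not_lt, h1]
  unfold E0G E0V
  simp only [hval]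

end H55K.TQ
end

-- from Lib.H55K.QH3
section

/-! # H55K: the Tamagawa numbers are prime to p -/

open NumberField IsDedekindDomain WeierstrassCurve

namespace H55K.TQ

open H55P (IQ embF eF LF Per IsHecke Pt ac Inert Dec Nm UnitP)
open H35P (WAB Ker tt GoodW IntW)
open H55K.MG (VC Crd)

variable {K : Type} [Field K] [NumberField K] (w : HeightOneSpectrum (𝓞 K))

/-- Chunk QH3 (S/M). index_e0 for k the completion, W the minimal equation (wm_int; Δ ≠ 0 by vc_disc; c₄^3 = j₀ Δ is invariant: vc_disc; j₀ in the ring by int_w), fin_w, arch_w, res_w, hmin from wm_good and pg_iff, e0_w; p = q: then p is in w (q and p prime numbers, the same residue characteristic), so h. -/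
theorem tam_unit (W : WeierstrassCurve K) (hΔ : W.Δ ≠ 0) (hj : ∃ j₀ : 𝓞 K, W.c₄ ^ 3 = (j₀ : K) * W.Δ) {p : ℕ}
    (hp : p.Prime) (h5 : 5 ≤ p)
    (h : (p : 𝓞 K) ∈ w.asIdeal → PG (W⁄(w.adicCompletion K)) (w.adicCompletionIntegers K)) :
    ¬ p ∣ tamG K W w := by
  classical
  obtain ⟨u, r, s, t, hvc⟩ := wm_vc w W
  obtain ⟨hd, hc4, -⟩ := vc_disc hvc
  obtain ⟨j₀, hj₀⟩ := hj
  obtain ⟨q, hq, hqw, hqv⟩ := res_w w
  have e1 : (W⁄(w.adicCompletion K)).Δ = algebraMap K (w.adicCompletion K) W.Δ :=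
    W.map_Δ (algebraMap K (w.adicCompletion K))
  have e2 : (W⁄(w.adicCompletion K)).c₄ = algebraMap K (w.adicCompletion K) W.c₄ :=
    W.map_c₄ (algebraMap K (w.adicCompletion K))
  have hbΔ : (W⁄(w.adicCompletion K)).Δ ≠ 0 := by
    rw [e1]
    exact (map_ne_zero_iff _ (algebraMap K (w.adicCompletion K)).injective).2 hΔ
  have hΔm : (Wm K W w).Δ ≠ 0 := by
    intro h0
    rw [h0, mul_zero] at hd
    exact hbΔ hd.symm
  have hjj : (Wm K W w).c₄ ^ 3 = algebraMap K (w.adicCompletion K) (j₀ : K) * (Wm K W w).Δ := by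
    have h1 : (W⁄(w.adicCompletion K)).c₄ ^ 3 =
        algebraMap K (w.adicCompletion K) (j₀ : K) * (W⁄(w.adicCompletion K)).Δ := by
      rw [e1, e2, ← map_pow, hj₀, map_mul]
    rw [← hd, ← hc4] at h1
    apply mul_left_cancel₀ (pow_ne_zero 12 hvc.une)
    linear_combination h1
  have hmin : PG (Wm K W w) (w.adicCompletionIntegers K) → GoodW (Wm K W w) (w.adicCompletionIntegers K) :=
    fun h => wm_good w W ((pg_iff hvc).2 h)
  have hpq : p ≠ q ∨ PG (Wm K W w) (w.adicCompletionIntegers K) := by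
    by_cases hpq : p = q
    · right
      rw [hpq] at h
      exact (pg_iff hvc).1 (h hqw)
    · left
      exact hpq
  have hfin := index_e0 (wm_int w W) hΔm (int_w w j₀).1 hjj (fin_w w) (arch_w w) hq hqv hmin hp h5 hpq
  unfold tamG
  rw [e0_w]
  convert hfin

end H55K.TQ
end

-- from Lib.H55K.QH4B
section

/-! # H55K: the factors of the discriminant are p-adic units -/

open NumberField IsDedekindDomain WeierstrassCurve

namespace H55K.TQ

open H55P (IQ embF eF LF Per IsHecke Pt ac Inert Dec Nm UnitP)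
open H35P (WAB Ker tt GoodW IntW)
open H55K.MG (VC Crd)

variable {K : Type} [Field K] [NumberField K] (w : HeightOneSpectrum (𝓞 K))

theorem qh4b_ndvd {p : ℕ} (hp : p.Prime) (h : (p : 𝓞 K) ∉ w.asIdeal) :
    ¬ p ∣ Ideal.absNorm w.asIdeal := by
  intro hdvd
  have hfact : Fact p.Prime := ⟨hp⟩
  have hfin : Finite (𝓞 K ⧸ w.asIdeal) := Ideal.finiteQuotientOfFreeOfNeBot _ w.ne_bot
  have hcard : Ideal.absNorm w.asIdeal = Nat.card (𝓞 K ⧸ w.asIdeal) := rfl
  rw [hcard] at hdvd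
  obtain ⟨x, hx⟩ := exists_prime_addOrderOf_dvd_card' (G := 𝓞 K ⧸ w.asIdeal) p hdvd
  have hx0 : x ≠ 0 := by
    intro h0
    rw [h0, addOrderOf_zero] at hx
    exact hp.one_lt.ne hx
  have h1 : p • x = 0 := by
    rw [← hx]
    exact addOrderOf_nsmul_eq_zero x
  rw [nsmul_eq_mul] at h1
  have hpr := w.isPrime
  have h2 : ((p : ℕ) : 𝓞 K ⧸ w.asIdeal) = 0 := by
    rcases mul_eq_zero.1 h1 with h3 | h3
    · exact h3
    · exact absurd h3 hx0
  apply h
  rw [← Ideal.Quotient.eq_zero_iff_mem, map_natCast]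
  exact h2

theorem qh4b_val {x : w.adicCompletion K}
    (h : (w.adicCompletionIntegers K).valuation x = 1) : Valued.v x = 1 := by
  have h1 : x ∈ w.adicCompletionIntegers K := ((w.adicCompletionIntegers K).valuation_le_one_iff x).1 h.le
  have h2 : x⁻¹ ∈ w.adicCompletionIntegers K := by
    rw [← (w.adicCompletionIntegers K).valuation_le_one_iff, map_inv₀, h, inv_one]
  rw [HeightOneSpectrum.mem_adicCompletionIntegers] at h1 h2
  have hx0 : x ≠ 0 := by
    intro h0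
    rw [h0, map_zero] at h
    exact zero_ne_one h
  refine le_antisymm h1 ?_
  rw [map_inv₀] at h2
  have h3 : 0 < Valued.v x := by
    rw [zero_lt_iff]
    exact (Valuation.ne_zero_iff _).2 hx0
  exact (inv_le_one₀ h3).1 h2

theorem qh4b_nat (p : ℕ) (hp : p.Prime) (V : ValuationSubring ℂ) (hV : V.valuation (p : ℂ) < 1)
    (n : ℕ) (hn : ¬ p ∣ n) : V.valuation (n : ℂ) = 1 := by
  have hint : ∀ k : ℤ, V.valuation (k : ℂ) ≤ 1 := fun k => by
    have h := V.valuation_le_one (k : V)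
    exact_mod_cast h
  have h1 : IsCoprime (n : ℤ) (p : ℤ) := Nat.isCoprime_iff_coprime.2
    ((Nat.Prime.coprime_iff_not_dvd hp).2 hn).symm
  obtain ⟨a, b, hab⟩ := h1
  have hn1 : V.valuation (n : ℂ) ≤ 1 := by
    have := hint (n : ℤ)
    exact_mod_cast this
  refine le_antisymm hn1 ?_
  by_contra hcon
  rw [not_le] at hcon
  have h2 : (a : ℂ) * n + b * p = 1 := by exact_mod_cast congrArg (Int.cast : ℤ → ℂ) hab
  have h3 : V.valuation ((a : ℂ) * n + b * p) < 1 := by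
    refine V.valuation.map_add_lt ?_ ?_
    · rw [map_mul]
      exact lt_of_le_of_lt (mul_le_of_le_one_left' (hint a)) hcon
    · rw [map_mul]
      exact lt_of_le_of_lt (mul_le_of_le_one_left' (hint b)) hV
  rw [h2, map_one] at h3
  exact lt_irrefl _ h3

theorem qh4b_pow {p : ℕ} (hp : p.Prime) {N : ℕ} (hN : ¬ p ∣ N) (k : ℤ) :
    UnitP p ((((N : ℝ) ^ k : ℝ)) : ℂ) := by
  intro A hA
  have h1 := qh4b_nat p hp A hA N hN
  push_cast
  rw [map_zpow₀, h1, one_zpow]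

theorem qh4b_dfac (W : WeierstrassCurve K) (hΔ : W.Δ ≠ 0) : ∃ (u : w.adicCompletion K) (k : ℤ), u ≠ 0 ∧
    u ^ 12 * (Wm K W w).Δ = (W⁄(w.adicCompletion K)).Δ ∧ dfac K W w = (Ideal.absNorm w.asIdeal : ℝ) ^ k ∧
    Valued.v u = WithZero.exp (-k) := by
  obtain ⟨u, r, s, t, hvc⟩ := wm_vc w W
  have hd := (vc_disc hvc).1
  have hΔ' : (W⁄(w.adicCompletion K)).Δ ≠ 0 := by
    have e : (W⁄(w.adicCompletion K)).Δ = algebraMap K (w.adicCompletion K) W.Δ :=
      WeierstrassCurve.map_Δ _ _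
    rw [e]
    exact (map_ne_zero_iff _ (algebraMap K (w.adicCompletion K)).injective).2 hΔ
  have hm : (Wm K W w).Δ ≠ 0 := by
    intro h0
    rw [h0, mul_zero] at hd
    exact hΔ' hd.symm
  obtain ⟨k, hk1, hk2⟩ := norm_w w u hvc.une
  refine ⟨u, -k, hvc.une, hd, ?_, by rw [neg_neg]; exact hk2⟩
  unfold dfac
  have hu : 0 < ‖u‖ := norm_pos_iff.2 hvc.une
  have hmp : 0 < ‖(Wm K W w).Δ‖ := norm_pos_iff.2 hm
  have e1 : ‖(Wm K W w).Δ‖ / ‖(W⁄(w.adicCompletion K)).Δ‖ = (‖u‖⁻¹) ^ 12 := by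
    rw [← hd, norm_mul, norm_pow]
    field_simp
  rw [e1, one_div]
  have e2 := Real.pow_rpow_inv_natCast (x := ‖u‖⁻¹) (n := 12) (inv_pos.2 hu).le (by norm_num)
  push_cast at e2
  rw [e2, hk1, zpow_neg]

/-- Chunk QH4B (M). Wm from W by u (wm_vc): u^12 Δm = Δ (vc_disc), so ‖Δm‖/‖Δ‖ = ‖u‖^(-12) and the twelfth root is ‖u‖^(-1) = N^(-k) (norm_w). If p is not in w then p does not divide N = absNorm w (a power of the residue characteristic), so N is a unit at every valuation ring of ℂ above p (H55P.val_nat or pt9_nat) and so is N^(-k).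
If p is in w: W is good at w over the completion, Δ and Δm are units (wm_good), the quotient is 1. -/
theorem dfac_unit (W : WeierstrassCurve K) (hΔ : W.Δ ≠ 0) {p : ℕ} (hp : p.Prime)
    (h : (p : 𝓞 K) ∈ w.asIdeal → GoodW (W⁄(w.adicCompletion K)) (w.adicCompletionIntegers K)) :
    UnitP p ((dfac K W w : ℝ) : ℂ) := by
  obtain ⟨u, k, hu, hd, hk1, hk2⟩ := qh4b_dfac w W hΔ
  rw [hk1]
  by_cases hpw : (p : 𝓞 K) ∈ w.asIdeal
  · have hg := h hpw
    have hPG : PG (W⁄(w.adicCompletion K)) (w.adicCompletionIntegers K) :=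
      ⟨W⁄(w.adicCompletion K), 1, 0, 0, 0, ⟨one_ne_zero, by ring, by ring, by ring, by ring, by ring⟩, hg⟩
    have hm := wm_good w W hPG
    have h1 : (w.adicCompletionIntegers K).valuation (u ^ 12) = 1 := by
      have h2 := congrArg (w.adicCompletionIntegers K).valuation hd
      rw [map_mul, hm.disc, hg.disc, mul_one] at h2
      exact h2
    have h3 := qh4b_val w h1
    rw [map_pow, hk2, ← WithZero.exp_nsmul] at h3
    have h4 : (12 : ℕ) • (-k) = 0 := by
      have h5 : WithZero.exp ((12 : ℕ) • (-k)) = WithZero.exp (0 : ℤ) := by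
        rw [h3, WithZero.exp_zero]
      exact WithZero.exp_injective h5
    have h5 : k = 0 := by
      rw [nsmul_eq_mul] at h4
      push_cast at h4
      omega
    rw [h5, zpow_zero]
    intro A _
    push_cast
    exact map_one _
  · exact qh4b_pow hp (qh4b_ndvd w hp hpw) k

/-- Chunk QH4B (S). finprod: finprod_induction (1 is a unit, products of units are units), natural numbers prime to p are units (H55P.val_nat). -/
theorem prod_unit {p : ℕ} (hp : p.Prime) (f : HeightOneSpectrum (𝓞 K) → ℕ) (g : HeightOneSpectrum (𝓞 K) → ℝ)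
    (hf : ∀ w, ¬ p ∣ f w) (hg : ∀ w, UnitP p ((g w : ℝ) : ℂ)) :
    UnitP p (∏ᶠ w : HeightOneSpectrum (𝓞 K), ((f w : ℂ) * ((g w : ℝ) : ℂ))) := by
  intro A hA
  refine finprod_induction (fun z : ℂ => A.valuation z = 1) (map_one _) ?_ ?_
  · intro x y hx hy
    rw [map_mul, hx, hy, one_mul]
  · intro i
    rw [map_mul, qh4b_nat p hp A hA (f i) (hf i), hg i A hA, one_mul]

end H55K.TQ
end

-- from Lib.H55K.QS1
section

/-! # H55K: the value of the analytic order of the Tate-Shafarevich group -/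

open NumberField IsDedekindDomain WeierstrassCurve

namespace H55K.TQ

open H55P (IQ embF eF LF Per IsHecke Pt ac Inert Dec Nm UnitP)
open H35P (WAB Ker tt GoodW IntW)
open H55K.MG (VC Crd)

variable {F : Type} [Field F] [NumberField F] [IQ F] {W : WeierstrassCurve ℤ} {Om : ℂ} {L : PeriodPair} {p : ℕ}

theorem qs1_cast {K : Type} [Field K] [NumberField K] (w : HeightOneSpectrum (𝓞 K)) (m : ℤ) :
    algebraMap K (w.adicCompletion K) (algebraMap ℤ K m) =
      algebraMap K (w.adicCompletion K) ((m : 𝓞 K) : K) := by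
  congr 1

theorem qs1_int {K : Type} [Field K] [NumberField K] (w : HeightOneSpectrum (𝓞 K)) (m : ℤ) :
    algebraMap K (w.adicCompletion K) (algebraMap ℤ K m) ∈ w.adicCompletionIntegers K := by
  rw [qs1_cast]
  exact (int_w w (m : 𝓞 K)).1

/-- Chunk QS1 (S/M). W has integral coefficients and the discriminant Δ is prime to p (integers), so at a place w above p the base change of W to the completion is good (int_w for integers; a Bezout relation a p + b Δ = 1 gives V(Δ) = 1). -/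
theorem good_W {K : Type} [Field K] [NumberField K] (w : HeightOneSpectrum (𝓞 K)) (hp : p.Prime)
    (hΔ : ¬ (p : ℤ) ∣ W.Δ) (hw : (p : 𝓞 K) ∈ w.asIdeal) :
    GoodW ((W⁄K)⁄(w.adicCompletion K)) (w.adicCompletionIntegers K) := by
  have hΔw : ((W.Δ : ℤ) : 𝓞 K) ∉ w.asIdeal := by
    intro h
    have hco : IsCoprime (p : ℤ) W.Δ := by
      rw [Int.isCoprime_iff_gcd_eq_one]
      have h1 := (Nat.Prime.coprime_iff_not_dvd hp).2 (fun h2 => hΔ (Int.natCast_dvd.2 h2))
      exact h1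
    obtain ⟨a, b, hab⟩ := hco
    apply w.isPrime.ne_top
    rw [Ideal.eq_top_iff_one]
    have h1 : (1 : 𝓞 K) = (a : 𝓞 K) * (p : 𝓞 K) + (b : 𝓞 K) * ((W.Δ : ℤ) : 𝓞 K) := by
      have h2 := congrArg (fun z : ℤ => (z : 𝓞 K)) hab
      push_cast at h2
      exact h2.symm
    rw [h1]
    exact w.asIdeal.add_mem (w.asIdeal.mul_mem_left _ hw) (w.asIdeal.mul_mem_left _ h)
  refine ⟨⟨qs1_int w _, qs1_int w _, qs1_int w _, qs1_int w _, qs1_int w _⟩, ?_⟩
  have e1 : ((W⁄K)⁄(w.adicCompletion K)).Δ =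
      algebraMap K (w.adicCompletion K) (algebraMap ℤ K W.Δ) := by
    have e2 : ((W⁄K)⁄(w.adicCompletion K)).Δ = algebraMap K (w.adicCompletion K) (W⁄K).Δ :=
      (W⁄K).map_Δ (algebraMap K (w.adicCompletion K))
    have e3 : (W⁄K).Δ = algebraMap ℤ K W.Δ := W.map_Δ (algebraMap ℤ K)
    rw [e2, e3]
  rw [e1, qs1_cast]
  exact (int_w w ((W.Δ : ℤ) : 𝓞 K)).2.2.2 hΔw

/-- Chunk QS1 (S/M). tam_unit, dfac_unit for W⁄K with good_W (PG from GoodW: VC with 1 0 0 0), prod_unit. (W⁄K).Δ = Δ ≠ 0. -/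
theorem prod_W (K : Type) [Field K] [NumberField K] (hp : p.Prime) (h5 : 5 ≤ p) (hΔ : ¬ (p : ℤ) ∣ W.Δ)
    (hj : ∃ j₀ : ℤ, W.c₄ ^ 3 = j₀ * W.Δ) :
    UnitP p (∏ᶠ w : HeightOneSpectrum (𝓞 K), ((tamG K (W⁄K) w : ℂ) * (dfac K (W⁄K) w : ℂ))) := by
  have e3 : (W⁄K).Δ = algebraMap ℤ K W.Δ := W.map_Δ (algebraMap ℤ K)
  have e4 : (W⁄K).c₄ = algebraMap ℤ K W.c₄ := W.map_c₄ (algebraMap ℤ K)
  have hΔ0 : W.Δ ≠ 0 := by
    intro h
    apply hΔ
    rw [h]
    exact dvd_zero _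
  have hΔK : (W⁄K).Δ ≠ 0 := by
    rw [e3]
    simpa using hΔ0
  obtain ⟨j₀, hj₀⟩ := hj
  refine prod_unit hp (fun w => tamG K (W⁄K) w) (fun w => dfac K (W⁄K) w) ?_ ?_
  · intro w
    refine tam_unit w (W⁄K) hΔK ⟨(j₀ : 𝓞 K), ?_⟩ hp h5 ?_
    · rw [e3, e4]
      have h1 := congrArg (algebraMap ℤ K) hj₀
      rw [map_pow, map_mul] at h1
      rw [h1]
      congr 1
    · intro hw
      exact ⟨_, 1, 0, 0, 0, ⟨one_ne_zero, by ring, by ring, by ring, by ring, by ring⟩,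
        good_W w hp hΔ hw⟩
  · intro w
    exact dfac_unit w (W⁄K) hΔK hp (fun hw => good_W w hp hΔ hw)

end H55K.TQ
end
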