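import Mathlib
import Pool.Agent.Lib.H1M.PP2.D_H28T_CD
import Pool.Agent.Lib.H1M.PP2.D_H55K_FD
import Pool.Agent.Lib.H1M.PP2.M021
import Pool.Agent.Lib.H1M.PP2.M086
import Pool.Agent.Lib.H1M.PP2.M095
import Pool.Agent.Lib.H1M.PP2.M098

/-! # H28T: the largest class -/

open NumberField IsDedekindDomain WeierstrassCurve

namespace H28T

open H55P H55R
open H55K H55K.TQ

variable {F : Type} [Field F] [NumberField F] {W₀ : WeierstrassCurve (𝓞 F)} {p : ℕ}

/-- v is not above p, and if v does not divide the discriminant then p does not divide the number of points modulo v. -/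
def Gx (W₀ : WeierstrassCurve (𝓞 F)) (p : ℕ) (v : HeightOneSpectrum (𝓞 F)) : Prop :=
  (p : 𝓞 F) ∉ v.asIdeal ∧ (W₀.Δ ∉ v.asIdeal → ¬ p ∣ Nat.card (W₀⁄(𝓞 F ⧸ v.asIdeal)).toAffine.Point)

end H28T
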