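import Mathlib
import Pool.Agent.Lib.H1M.PP2.D_H55P_Stm
import Pool.Agent.Lib.H1M.PP2.M010
import Pool.Agent.Lib.H1M.PP2.M019
import Pool.Agent.Lib.H1M.PP2.M021
import Pool.Agent.Lib.H1M.PP2.M029
import Pool.Agent.Lib.H1M.PP2.M039
import Pool.Agent.Lib.H1M.PP2.M051
import Pool.Agent.Lib.H1M.PP2.M052
import Pool.Agent.Lib.H1M.PP2.M054
import Pool.Agent.Lib.H1M.PP2.M062
import Pool.Agent.Lib.H1M.PP2.M069
import Pool.Agent.Lib.H1M.PP2.M074
import Pool.Agent.Lib.H1M.PP2.M080
import Pool.Agent.Lib.H1M.PP2.M082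
import Pool.Agent.Lib.H1M.PP2.M083
import Pool.Agent.Lib.H1M.PP2.M086

/-! Merged copies (to shorten the build) of Lib.H13S.QV, Lib.H13S.MU, Lib.H13S.LD3, Lib.H55K.QP2B, Lib.H55K.QP2A, Lib.H13X.D, Lib.H55K.SKU2, Lib.H55K.K10, Lib.H55K.SKU1, Lib.H55K.K1A, Lib.H28G.K9, Lib.H55K.K7, Lib.H55K.K8, Lib.H55K.K4, Lib.H55K.SMU. -/

-- from Lib.H13S.QV
section

open NumberField IsDedekindDomain

namespace H13S

open H55P H28G H55B

variable {Ω : Type} [Field Ω] [DecidableEq Ω] [Algebra F Ω] [IsAlgClosure F Ω]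

omit [DecidableEq Ω] [IsAlgClosure F Ω] in
theorem qv_dec (V : ValuationSubring Ω) (s : Ω ≃ₐ[F] Ω) (hs : Inert V s) (x : Ω) : s x ∈ V ↔ x ∈ V := by
  constructor
  · intro hx
    by_contra hcon
    have h1 : 1 < V.valuation x := by
      rw [← not_le, V.valuation_le_one_iff]
      exact hcon
    have x0 : V.valuation x ≠ 0 := (zero_lt_one.trans h1).ne'
    have h2 : V.valuation x⁻¹ < 1 := by
      rw [map_inv₀]
      exact inv_lt_one_of_one_lt₀ h1
    have h3 := hs x⁻¹ ((V.valuation_le_one_iff _).1 h2.le)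
    have h4 : V.valuation (s x⁻¹) < 1 := by
      have h5 := V.valuation.map_add_lt h3 h2
      rwa [sub_add_cancel] at h5
    rw [map_inv₀ s, map_inv₀] at h4
    have h6 : V.valuation (s x) ≤ 1 := (V.valuation_le_one_iff _).2 hx
    have hx0 : x ≠ 0 := by
      rintro rfl
      exact x0 (map_zero _)
    have h7 : V.valuation (s x) ≠ 0 := (V.valuation.ne_zero_iff).2 ((map_ne_zero s).2 hx0)
    exact absurd h4 (not_lt.2 ((one_le_inv₀ (zero_lt_iff.2 h7)).2 h6))
  · intro hx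
    have h1 : s x - x ∈ V := (V.valuation_le_one_iff _).1 (hs x hx).le
    have h2 := V.add_mem _ _ h1 hx
    rwa [sub_add_cancel] at h2

omit [DecidableEq Ω] [IsAlgClosure F Ω] in
theorem qv_le (V : ValuationSubring Ω) (s : Ω ≃ₐ[F] Ω) (hs : Inert V s) (a b : Ω) (hb : b ≠ 0) :
    V.valuation (s a) ≤ V.valuation (s b) ↔ V.valuation a ≤ V.valuation b := by
  have h1 := qv_dec V s hs (a / b)
  have h2 : 0 < V.valuation b := zero_lt_iff.2 ((Valuation.ne_zero_iff _).2 hb)
  have h3 : 0 < V.valuation (s b) := zero_lt_iff.2 ((Valuation.ne_zero_iff _).2 ((map_ne_zero s).2 hb))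
  rw [← V.valuation_le_one_iff, ← V.valuation_le_one_iff, map_div₀ s, map_div₀, map_div₀,
    div_le_one₀ h3, div_le_one₀ h2] at h1
  exact h1

omit [DecidableEq Ω] [IsAlgClosure F Ω] in
theorem qv_orb [Algebra.IsAlgebraic F Ω] (s : Ω ≃ₐ[F] Ω) (x : Ω) : ∃ n : ℕ, 0 < n ∧ (s ^ n) x = x := by
  have hx : IsIntegral F x := (Algebra.IsAlgebraic.isAlgebraic x).isIntegral
  have hroot : ∀ k : ℕ, (s ^ k) x ∈ (minpoly F x).rootSet Ω := by
    intro k
    rw [Polynomial.mem_rootSet]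
    refine ⟨minpoly.ne_zero hx, ?_⟩
    have h1 := Polynomial.aeval_algHom_apply ((s ^ k : Ω ≃ₐ[F] Ω) : Ω →ₐ[F] Ω) x (minpoly F x)
    rw [minpoly.aeval, map_zero] at h1
    exact h1
  obtain ⟨i, j, hij, he⟩ := Finite.exists_ne_map_eq_of_infinite
    (fun k : ℕ => (⟨(s ^ k) x, hroot k⟩ : (minpoly F x).rootSet Ω))
  have he' : (s ^ i) x = (s ^ j) x := congrArg Subtype.val he
  have key : ∀ i j : ℕ, i < j → (s ^ i) x = (s ^ j) x → ∃ n : ℕ, 0 < n ∧ (s ^ n) x = x := by
    intro i j hlt he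
    refine ⟨j - i, by omega, ?_⟩
    apply (s ^ i).injective
    rw [← AlgEquiv.mul_apply, ← pow_add, he]
    congr 2
    omega
  rcases lt_or_gt_of_ne hij with h | h
  · exact key i j h he'
  · exact key j i h he'.symm

theorem qv_val [Algebra.IsAlgebraic F Ω] (V : ValuationSubring Ω) (s : Ω ≃ₐ[F] Ω) (hs : Inert V s)
    (x : Ω) : V.valuation (s x) = V.valuation x := by
  by_cases hx : x = 0
  · rw [hx, map_zero]
  obtain ⟨n, hn, hnx⟩ := qv_orb s x
  have hne : ∀ k : ℕ, (s ^ k) x ≠ 0 := fun k => (map_ne_zero (s ^ k)).2 hx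
  have hs1 : ∀ k : ℕ, (s ^ (k + 1)) x = s ((s ^ k) x) := fun k => by
    rw [pow_succ', AlgEquiv.mul_apply]
  have h0 : (s ^ 0) x = x := by rw [pow_zero]; rfl
  rcases lt_trichotomy (V.valuation (s x)) (V.valuation x) with h | h | h
  · exfalso
    have hstep : ∀ k : ℕ, V.valuation ((s ^ (k + 1)) x) < V.valuation ((s ^ k) x) := by
      intro k
      induction k with
      | zero =>
        rw [hs1, h0]
        exact h
      | succ k ih =>
        rw [hs1 (k + 1)]
        conv_rhs => rw [hs1 k]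
        rw [← not_le] at ih ⊢
        rwa [qv_le V s hs _ _ (hne _)]
    have h1 := strictAnti_nat_of_succ_lt (f := fun k => V.valuation ((s ^ k) x)) hstep hn
    simp only [hnx, h0] at h1
    exact lt_irrefl _ h1
  · exact h
  · exfalso
    have hstep : ∀ k : ℕ, V.valuation ((s ^ k) x) < V.valuation ((s ^ (k + 1)) x) := by
      intro k
      induction k with
      | zero =>
        rw [hs1, h0]
        exact h
      | succ k ih =>
        rw [hs1 (k + 1)]
        conv_lhs => rw [hs1 k]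
        rw [← not_le] at ih ⊢
        rwa [qv_le V s hs _ _ (hne _)]
    have h1 := strictMono_nat_of_lt_succ (f := fun k => V.valuation ((s ^ k) x)) hstep hn
    simp only [hnx, h0] at h1
    exact lt_irrefl _ h1

omit [DecidableEq Ω] [IsAlgClosure F Ω] in
theorem qv_O (V : ValuationSubring Ω) (x : O) : vo V x ≤ 1 := by
  obtain ⟨a, b, rfl⟩ := exists_repr x
  have h1 : ∀ n : ℤ, vo V (n : O) ≤ 1 := by
    intro n
    have e : algebraMap F Ω (((n : O) : O) : F) = (n : Ω) := by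
      have : (((n : O) : O) : F) = (n : F) := map_intCast (algebraMap O F) n
      rw [this, map_intCast]
    unfold vo
    rw [e, V.valuation_le_one_iff]
    exact intCast_mem V n
  have h2 : vo V om ≤ 1 := by
    have h3 : vo V om ^ 3 = 1 := by
      unfold vo
      rw [← map_pow]
      have := ok_cube (k := Ω)
      unfold ok at this
      rw [this, map_one]
    exact ((pow_eq_one_iff.1 h3).resolve_right (by norm_num)).le
  have e : vo V ((a : O) + b * om) =
      V.valuation (algebraMap F Ω ((a : O) : F) + algebraMap F Ω ((b : O) : F) * algebraMap F Ω ((om : O) : F)) := by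
    unfold vo
    rw [← map_mul, ← map_add]
    rfl
  rw [e]
  refine Valuation.map_add_le _ (h1 a) ?_
  rw [map_mul]
  exact (mul_le_mul' (h1 b) h2).trans_eq (mul_one 1)

omit [DecidableEq Ω] [IsAlgClosure F Ω] in
theorem qv_mul (V : ValuationSubring Ω) (x y : O) : vo V (x * y) = vo V x * vo V y := by
  unfold vo
  rw [← map_mul, ← map_mul]
  rfl

omit [DecidableEq Ω] [IsAlgClosure F Ω] in
theorem qv_powO (V : ValuationSubring Ω) (x : O) (n : ℕ) : vo V (x ^ n) = vo V x ^ n := by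
  unfold vo
  rw [← map_pow, ← map_pow]
  rfl

omit [DecidableEq Ω] [IsAlgClosure F Ω] in
theorem qv_unit (V : ValuationSubring Ω) {π x : O} (hπ : Prime π) (hV : vo V π < 1) (hx : ¬ π ∣ x) :
    vo V x = 1 := by
  obtain ⟨u, v, huv⟩ := (hπ.irreducible.coprime_iff_not_dvd).2 hx
  refine le_antisymm (qv_O V x) ?_
  by_contra hcon
  push Not at hcon
  have h1 : V.valuation (algebraMap F Ω ((u * π : O) : F) + algebraMap F Ω ((v * x : O) : F)) < 1 := by
    refine Valuation.map_add_lt _ ?_ ?_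
    · change vo V (u * π) < 1
      rw [qv_mul]
      exact lt_of_le_of_lt (mul_le_mul' (qv_O V u) le_rfl) (by rwa [one_mul])
    · change vo V (v * x) < 1
      rw [qv_mul]
      exact lt_of_le_of_lt (mul_le_mul' (qv_O V v) le_rfl) (by rwa [one_mul])
  have h2 : algebraMap F Ω ((u * π : O) : F) + algebraMap F Ω ((v * x : O) : F) = 1 := by
    rw [← map_add]
    have : ((u * π : O) : F) + ((v * x : O) : F) = ((u * π + v * x : O) : F) := rfl
    rw [this, huv]
    exact map_one _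
  rw [h2, map_one] at h1
  exact lt_irrefl _ h1

omit [DecidableEq Ω] [IsAlgClosure F Ω] in
theorem qv_pos (V : ValuationSubring Ω) {x : O} (hx : x ≠ 0) : vo V x ≠ 0 := by
  unfold vo
  rw [Valuation.ne_zero_iff]
  refine (map_ne_zero _).2 ?_
  exact fun h => hx (RingOfIntegers.coe_injective (h.trans (map_zero (algebraMap O F)).symm))

theorem qv_intpow (V : ValuationSubring Ω) {π : O} (hπ : Prime π) (hV : vo V π < 1) (a : F)
    (ha : a ≠ 0) : ∃ k : ℤ, V.valuation (algebraMap F Ω a) = vo V π ^ k := by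
  have key : ∀ x : O, x ≠ 0 → ∃ n : ℕ, vo V x = vo V π ^ n := by
    intro x hx
    obtain ⟨n, x', hx', he⟩ := WfDvdMonoid.max_power_factor hx hπ.irreducible
    refine ⟨n, ?_⟩
    rw [he, qv_mul, qv_powO, qv_unit V hπ hV hx', mul_one]
  obtain ⟨x, y, hy, rfl⟩ := IsFractionRing.div_surjective (A := O) a
  have hy0 : y ≠ 0 := nonZeroDivisors.ne_zero hy
  have hx0 : x ≠ 0 := by
    rintro rfl
    rw [map_zero, zero_div] at ha
    exact ha rfl
  obtain ⟨n, hn⟩ := key x hx0
  obtain ⟨m, hm⟩ := key y hy0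
  have hp0 := qv_pos V hπ.ne_zero
  refine ⟨(n : ℤ) - m, ?_⟩
  rw [map_div₀, map_div₀, zpow_sub₀ hp0, zpow_natCast, zpow_natCast, ← hn, ← hm]

omit [IsAlgClosure F Ω] in
theorem qv_tt (s : Ω ≃ₐ[F] Ω) (P : P27 Ω) : tt (ac W27 s P) = s (tt P) := tt_mp s.toAlgHom P

theorem qv_kr [Algebra.IsAlgebraic F Ω] (V : ValuationSubring Ω) (s : Ω ≃ₐ[F] Ω) (hs : Inert V s)
    {P : P27 Ω} (hP : Kr V P) : Kr V (ac W27 s P) := by
  rcases hP with h | h
  · rw [h, map_zero]
    exact kr_zero V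
  · right
    have e : xc (ac W27 s P) = s (xc P) := xc_mp s.toAlgHom P
    rwa [e, qv_val V s hs]

omit [IsAlgClosure F Ω] in
theorem qv_add (V : ValuationSubring Ω) {P Q : P27 Ω} (hP : Kr V P) (hQ : Kr V Q) (c : V.ValueGroup)
    (hc : c ≤ 1) (h1 : V.valuation (tt P) ≤ c) (h2 : V.valuation (tt Q) ≤ c) :
    V.valuation (tt (P + Q)) ≤ c := by
  have h3 := kr_tt_add V hP hQ c h1 h2
  have h4 : c ^ 2 ≤ c := by
    rw [sq]
    exact (mul_le_mul' le_rfl hc).trans_eq (mul_one c)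
  have e : tt (P + Q) = (tt (P + Q) - tt P - tt Q) + tt P + tt Q := by ring
  rw [e]
  exact Valuation.map_add_le _ (Valuation.map_add_le _ (h3.trans h4) h1) h2

omit [IsAlgClosure F Ω] in
theorem qv_neg (V : ValuationSubring Ω) {P : P27 Ω} (hP : Kr V P) :
    Kr V (-P) ∧ V.valuation (tt (-P)) ≤ V.valuation (tt P) := by
  have e : act (-1 : O) P = -P := by rw [act_neg, act_one]
  have h1 := kr_act V (-1) hP
  have h2 := kr_tt_act V (-1) hP
  rw [e] at h1 h2
  refine ⟨h1, ?_⟩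
  have h3 : algebraMap F Ω (((-1 : O) : O) : F) = -1 := by
    have : (((-1 : O) : O) : F) = -1 := by
      have h4 := map_neg (algebraMap O F) 1
      rw [map_one] at h4
      exact h4
    rw [this, map_neg, map_one]
  rw [h3] at h2
  have h5 : V.valuation (tt P) ≤ 1 := (kr_tt_lt V hP).le
  have h6 : V.valuation (tt P) ^ 2 ≤ V.valuation (tt P) := by
    rw [sq]
    exact (mul_le_mul' le_rfl h5).trans_eq (mul_one _)
  have e2 : tt (-P) = (tt (-P) - -1 * tt P) + -tt P := by ring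
  rw [e2]
  refine Valuation.map_add_le _ (h2.trans h6) ?_
  rw [Valuation.map_neg]

omit [IsAlgClosure F Ω] in
theorem qv_q {π : O} {l : ℕ} {c : (Ω ≃ₐ[F] Ω) → P27 Ω} (C : Cl π l c) : 3 ≤ H55B.Nm π := by
  have hmem : π ∣ ((H55B.Nm π : ℕ) : O) := by
    rw [← Ideal.mem_span_singleton]
    exact Ideal.absNorm_mem _
  have h0 : H55B.Nm π ≠ 0 := fun h => C.pr.ne_zero (H55B.Nm_eq_zero.1 h)
  have h1 : H55B.Nm π ≠ 1 := fun h => C.pr.not_isUnit (Nm_eq_one.1 h)
  have h2 : H55B.Nm π ≠ 2 := by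
    intro h
    rw [h] at hmem
    have h5 := C.five
    have hodd : Odd l := C.hl.odd_of_ne_two (by omega)
    obtain ⟨m, hm⟩ := hodd
    have h6 : π ∣ 1 := by
      have e : (1 : O) = (l : O) - ((2 : ℕ) : O) * m := by
        rw [hm]
        push_cast
        ring
      rw [e]
      exact dvd_sub C.dvd (Dvd.dvd.mul_right hmem _)
    exact C.pr.not_isUnit (isUnit_of_dvd_one h6)
  omega

/-- Chunk QV (M). The size of the local point. q = Nm pi ≥ 25 (pi divides l ≥ 5, cj pi = pi), tau = V.valuation (tt R) for R ≠ 0 in Tor pi: tau^(q-1) = vo V pi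
(kr_tor_ram). X₀ = act pi Q is in the kernel of reduction (kr_act) and fixed by all s with Inert V s (act pi (c s) = 0), so its coordinates and tt X₀ are fixed; value_fixed for the bottom field: V.valuation (tt X₀) is the
value of an element of F, so (vo V pi)^n with n an integer (pi generates the prime of F below V), n ≥ 1, or tt X₀ = 0. R₀ = c s₀ ≠ 0 is in Tor pi, R₀ = ac s₀ (Q + R) - (Q + R) for every
R in Tor pi (s₀ fixes Tor pi), V.valuation (tt (ac s₀ P)) = V.valuation (tt P) for P in the kernel of reduction, so tau = V.valuation (tt R₀) ≤ V.valuation (tt (Q + R)) for all R (kr_tt_add with c = V.valuation (tt (Q+R)); tt (-P): use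
kr_tt_act with a = -1). In particular tt X₀ ≠ 0 (kr_prod: the product of q nonzero values). If V.valuation (tt Q) > tau: V.valuation (tt (Q + R)) = V.valuation (tt Q) for all R (kr_tt_add), kr_prod: V.valuation (tt Q)^q = (vo V pi)^n,
> tau^q, so (vo V pi)^(n (q-1)) > (vo V pi)^q, n (q - 1) < q, n = 1: done. If V.valuation (tt Q) = tau: all V.valuation (tt (Q + R)) are ≤ tau (kr_tt_add), hence = tau, tau^q = (vo V pi)^n, tau = (vo V pi)^(n-1), tau^(q-1) = vo V pi
= (vo V pi)^((n-1)(q-1)): impossible. -/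
theorem val_point {π : O} {l : ℕ} {c : (Ω ≃ₐ[F] Ω) → P27 Ω} (C : Cl π l c) (hin : cj π = π)
    (V : ValuationSubring Ω) (hV : vo V π < 1) (Q : P27 Ω) (hQ : Kr V Q)
    (hc : ∀ s, Inert V s → c s = ac W27 s Q - Q) (L : IntermediateField F Ω) (hL : IsTF π L)
    (s₀ : Ω ≃ₐ[F] Ω) (h1 : s₀ ∈ L.fixingSubgroup) (h2 : Inert V s₀) (h3 : c s₀ ≠ 0) :
    V.valuation (tt Q) ^ H55B.Nm π = vo V π := by
  have hF : IsAlgClosed Ω := IsAlgClosure.isAlgClosed F
  have hA : Algebra.IsAlgebraic F Ω := IsAlgClosure.isAlgebraic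
  have hval : ∀ s, c s ∈ Tor π Ω := fun s => by
    have := C.val s
    rwa [hin] at this
  set ϖ := vo V π with hϖ
  set q := H55B.Nm π with hq
  have hq3 : 3 ≤ q := qv_q C
  have hϖ0 : ϖ ≠ 0 := qv_pos V C.pr.ne_zero
  have hϖp : 0 < ϖ := zero_lt_iff.2 hϖ0
  -- the value of the points killed by pi
  set R₀ := c s₀ with hR₀
  obtain ⟨hR₀K, hR₀q⟩ := kr_tor_ram π C.pr C.prim V hV (hval s₀) h3
  set τ := V.valuation (tt R₀) with hτ
  have hτ0 : 0 < τ := by
    rw [zero_lt_iff]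
    intro h
    have h4 : τ ^ (q - 1) = ϖ := hR₀q
    rw [h, zero_pow (by omega)] at h4
    exact hϖ0 h4.symm
  have hτ1 : τ < 1 := kr_tt_lt V hR₀K
  have hTor : ∀ R ∈ Tor π Ω, Kr V R ∧ V.valuation (tt R) ≤ τ := by
    intro R hR
    by_cases h0 : R = 0
    · rw [h0]
      refine ⟨kr_zero V, ?_⟩
      have : tt (0 : P27 Ω) = 0 := (kr_tt_zero V (kr_zero V)).2 rfl
      rw [this, map_zero]
      exact zero_le
    · obtain ⟨h4, h5⟩ := kr_tor_ram π C.pr C.prim V hV hR h0
      refine ⟨h4, le_of_eq ?_⟩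
      have h6 : V.valuation (tt R) ^ (q - 1) = τ ^ (q - 1) := h5.trans hR₀q.symm
      exact (pow_left_inj₀ zero_le zero_le (by omega)).1 h6
  -- translates
  have hs₀ : ∀ R ∈ Tor π Ω, ac W27 s₀ R = R := (hL.2 s₀).1 h1
  have hlow : ∀ R ∈ Tor π Ω, Kr V (Q + R) ∧ τ ≤ V.valuation (tt (Q + R)) := by
    intro R hR
    have hK := kr_add V hQ (hTor R hR).1
    refine ⟨hK, ?_⟩
    have e : R₀ = ac W27 s₀ (Q + R) + -(Q + R) := by
      rw [hR₀, hc s₀ h2, map_add, hs₀ R hR]
      abel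
    obtain ⟨n1, n2⟩ := qv_neg V hK
    have e2 : V.valuation (tt (ac W27 s₀ (Q + R))) = V.valuation (tt (Q + R)) := by
      rw [qv_tt, qv_val V s₀ h2]
    rw [hτ, e]
    exact qv_add V (qv_kr V s₀ h2 hK) n1 _ (kr_tt_lt V hK).le e2.le n2
  -- the point X₀
  have hX₀K := kr_act V π hQ
  have hprod := kr_prod π C.pr C.prim V hV hQ
  obtain ⟨hcard, -⟩ := gi_gen (Ω := Ω) π C.pr C.prim
  have hfin : Finite (Tor π Ω) := by
    apply Nat.finite_of_card_ne_zero
    rw [hcard]
    omega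
  let _ : Fintype (Tor π Ω) := Fintype.ofFinite _
  rw [finprod_eq_prod_of_fintype] at hprod
  have hX₀v : V.valuation (tt (act π Q)) ≠ 0 := by
    rw [← hprod]
    refine Finset.prod_ne_zero_iff.2 fun R _ => ?_
    exact (hτ0.trans_le (hlow R.1 R.2).2).ne'
  have hX₀t : tt (act π Q) ≠ 0 := (Valuation.ne_zero_iff _).1 hX₀v
  have hfix : ∀ s ∈ (⊥ : IntermediateField F Ω).fixingSubgroup, Inert V s →
      s (tt (act π Q)) = tt (act π Q) := by
    intro s _ hs
    have e1 : ac W27 s Q = Q + c s := by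
      rw [hc s hs]
      abel
    rw [← qv_tt, ac_act, e1, map_add, mem_Tor.1 (hval s), add_zero]
  have hNF : NumberField (⊥ : IntermediateField F Ω) := NumberField.of_module_finite F _
  obtain ⟨a, ha, hva⟩ := value_fixed (⊥ : IntermediateField F Ω) V _ hX₀t hfix
  obtain ⟨a', ha'⟩ := IntermediateField.mem_bot.1 a.2
  have ha'0 : a' ≠ 0 := by
    rintro rfl
    rw [map_zero] at ha'
    exact ha (Subtype.ext ha'.symm)
  obtain ⟨k, hk⟩ := qv_intpow V C.pr hV a' ha'0
  rw [ha'] at hk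
  have hXk : V.valuation (tt (act π Q)) = ϖ ^ k := hva.trans hk
  have hk1 : 0 < k := by
    by_contra hcon
    push Not at hcon
    have h4 : V.valuation (tt (act π Q)) < 1 := kr_tt_lt V hX₀K
    rw [hXk] at h4
    have h5 : 1 ≤ ϖ ^ k := by
      rw [← neg_neg k, zpow_neg]
      have h6 : 0 < ϖ ^ (-k) := zpow_pos hϖp _
      rw [one_le_inv₀ h6]
      obtain ⟨n, hn⟩ := Int.eq_ofNat_of_zero_le (neg_nonneg.2 hcon)
      rw [hn]
      exact pow_le_one' hV.le n
    exact absurd h4 (not_lt.2 h5)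
  obtain ⟨n, rfl⟩ := Int.eq_ofNat_of_zero_le hk1.le
  have hn1 : 0 < n := by exact_mod_cast hk1
  have hXn : V.valuation (tt (act π Q)) = ϖ ^ n := hXk
  -- strict monotonicity of the powers
  have hlt : ∀ i j : ℕ, ϖ ^ i < ϖ ^ j → j < i := by
    intro i j h
    by_contra hcon
    push Not at hcon
    exact absurd h (not_lt.2 (pow_le_pow_right_of_le_one' hV.le hcon))
  have heq : ∀ i j : ℕ, ϖ ^ i = ϖ ^ j → i = j := by
    have hanti : StrictAnti (fun i : ℕ => ϖ ^ i) := by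
      refine strictAnti_nat_of_succ_lt fun i => ?_
      rw [pow_succ]
      calc ϖ ^ i * ϖ < ϖ ^ i * 1 := mul_lt_mul_of_pos_left hV (pow_pos hϖp i)
        _ = ϖ ^ i := mul_one _
    exact fun i j h => hanti.injective h
  have hcard' : Fintype.card (Tor π Ω) = q := by
    rw [← Nat.card_eq_fintype_card]
    exact hcard
  have hQlow : τ ≤ V.valuation (tt Q) := by
    have := (hlow 0 (Tor π Ω).zero_mem).2
    rwa [add_zero] at this
  have hQ1 : V.valuation (tt Q) < 1 := kr_tt_lt V hQ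
  rcases hQlow.lt_or_eq with hgt | heq'
  · have hall : ∀ R : Tor π Ω, V.valuation (tt (Q + (R : P27 Ω))) = V.valuation (tt Q) := by
      intro R
      have h4 := (hTor R.1 R.2).2
      have h5 := kr_tt_add V hQ (hTor R.1 R.2).1 (V.valuation (tt Q)) le_rfl (h4.trans hQlow)
      have h6 : V.valuation (tt Q) ^ 2 < V.valuation (tt Q) := by
        rw [sq]
        calc V.valuation (tt Q) * V.valuation (tt Q) < V.valuation (tt Q) * 1 :=
              mul_lt_mul_of_pos_left hQ1 (hτ0.trans hgt)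
          _ = _ := mul_one _
      have e : tt (Q + (R : P27 Ω)) = tt Q + ((tt (Q + (R : P27 Ω)) - tt Q - tt (R : P27 Ω)) + tt (R : P27 Ω)) := by
        ring
      rw [e]
      exact Valuation.map_add_eq_of_lt_left _ (Valuation.map_add_lt _ (h5.trans_lt h6) (h4.trans_lt hgt))
    rw [Finset.prod_congr rfl fun R _ => hall R, Finset.prod_const, Finset.card_univ, hcard', hXn] at hprod
    have h7 : τ ^ (q * (q - 1)) < V.valuation (tt Q) ^ (q * (q - 1)) :=
      pow_lt_pow_left₀ hgt zero_le (Nat.mul_ne_zero (by omega) (by omega))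
    have h8 : ϖ ^ q < ϖ ^ (n * (q - 1)) := by
      calc ϖ ^ q = τ ^ (q * (q - 1)) := by
            rw [mul_comm, pow_mul]
            exact congrArg (fun z => z ^ q) hR₀q.symm
        _ < V.valuation (tt Q) ^ (q * (q - 1)) := h7
        _ = ϖ ^ (n * (q - 1)) := by rw [pow_mul, hprod, ← pow_mul]
    have h9 := hlt _ _ h8
    have hn : n = 1 := by
      by_contra hne
      have hn2 : 2 ≤ n := by omega
      have h10 : 2 * (q - 1) ≤ n * (q - 1) := Nat.mul_le_mul_right _ hn2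
      omega
    rw [hn, pow_one] at hprod
    exact hprod
  · exfalso
    have hall : ∀ R : Tor π Ω, V.valuation (tt (Q + (R : P27 Ω))) = τ := by
      intro R
      refine le_antisymm ?_ (hlow R.1 R.2).2
      exact qv_add V hQ (hTor R.1 R.2).1 τ hτ1.le heq'.symm.le (hTor R.1 R.2).2
    rw [Finset.prod_congr rfl fun R _ => hall R, Finset.prod_const, Finset.card_univ, hcard', hXn] at hprod
    have h8 : ϖ ^ q = ϖ ^ (n * (q - 1)) := by
      calc ϖ ^ q = τ ^ (q * (q - 1)) := by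
            rw [mul_comm, pow_mul]
            exact congrArg (fun z => z ^ q) hR₀q.symm
        _ = ϖ ^ (n * (q - 1)) := by rw [pow_mul, hprod, ← pow_mul]
    have h9 := heq _ _ h8
    have h10 : (q - 1) ∣ q := ⟨n, h9.trans (mul_comm _ _)⟩
    have h11 : (q - 1) ∣ 1 := by
      have h12 := Nat.dvd_sub h10 (dvd_refl (q - 1))
      have e : q - (q - 1) = 1 := by omega
      rwa [e] at h12
    have h12 := Nat.le_of_dvd one_pos h11
    omega

end H13S
end

-- from Lib.H13S.MU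
section

open NumberField IsDedekindDomain

namespace H13S

open H55P H28G H55B

variable {Ω : Type} [Field Ω] [DecidableEq Ω] [Algebra F Ω] [IsAlgClosure F Ω]

/-- Chunk MU (S). In the inert case L contains the l-th roots of unity. gi_gen: a point X ≠ 0 in Tor π = Tor (cj π); he.nondeg gives T with e X T ≠ 1: a primitive l-th root of unity (l prime). s in L.fixingSubgroup: s (e X T) = e (ac s X) (ac s T) = e X T
(hL). So e X T lies in L (fixed field of L.fixingSubgroup: InfiniteGalois.fixedField_fixingSubgroup; Ω/F is Galois, characteristic 0), and ζ is a power of it. -/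
theorem mu_mem {π : O} {l : ℕ} (hl : l.Prime) (hπ : Prime π) (h3 : Prim π) (hin : cj π = π)
    {e : P27 Ω → P27 Ω → Ω} (he : Pairing π l e) {L : IntermediateField F Ω} (hL : IsTF π L)
    (ζ : Ω) (hζ : ζ ^ l = 1) : ζ ∈ L := by
  obtain ⟨-, X, hX, -, hX0⟩ := gi_gen (Ω := Ω) π hπ h3
  have hXne : X ≠ 0 := by
    intro h
    have h1 : act (1 : O) X = 0 := by rw [h, map_zero]
    exact hπ.not_isUnit (isUnit_of_dvd_one ((hX0 1).1 h1))
  have hX' : X ∈ Tor (cj π) Ω := by rw [hin]; exact hX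
  obtain ⟨T, hT, hTe⟩ : ∃ T ∈ Tor π Ω, e X T ≠ 1 := by
    by_contra h
    push Not at h
    exact hXne (he.nondeg X hX' h)
  have hprim : IsPrimitiveRoot (e X T) l := by
    have : Fact l.Prime := ⟨hl⟩
    have h1 := orderOf_eq_prime (he.root X hX' T hT) hTe
    rw [← h1]
    exact IsPrimitiveRoot.orderOf _
  have : NeZero l := ⟨hl.ne_zero⟩
  obtain ⟨i, -, hi⟩ := hprim.eq_pow_of_pow_eq_one hζ
  have hmem : e X T ∈ L := by
    have hg : IsGalois F Ω := IsAlgClosure.isGalois F Ω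
    rw [← InfiniteGalois.fixedField_fixingSubgroup L]
    rw [IntermediateField.mem_fixedField_iff]
    intro s hs
    rw [he.act s X hX' T hT, (hL.2 s).1 hs T hT, (hL.2 s).1 hs X hX]
  rw [← hi]
  exact pow_mem hmem i

end H13S
end

-- from Lib.H13S.LD3
section

open NumberField IsDedekindDomain

namespace H13S

open H55P H28G H55B

section inert

variable {F₀ : Type} [Field F₀] {Ω : Type} [Field Ω] [Algebra F₀ Ω] {V : ValuationSubring Ω}

theorem ld3_le {s : Ω ≃ₐ[F₀] Ω} (hs : Inert V s) {x : Ω} (hx : x ∈ V) : s x ∈ V := by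
  rw [← V.valuation_le_one_iff] at hx ⊢
  have h1 := hs x ((V.valuation_le_one_iff x).1 hx)
  have h2 : s x = (s x - x) + x := by ring
  rw [h2]
  exact (V.valuation.map_add _ _).trans (max_le h1.le hx)

theorem ld3_iff {s : Ω ≃ₐ[F₀] Ω} (hs : Inert V s) (x : Ω) : s x ∈ V ↔ x ∈ V := by
  refine ⟨fun h => ?_, ld3_le hs⟩
  by_contra hx
  have hx0 : x ≠ 0 := by
    rintro rfl
    exact hx V.zero_mem
  have h1 : 1 < V.valuation x := by
    rw [← not_le, V.valuation_le_one_iff]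
    exact hx
  have h2 : V.valuation x⁻¹ < 1 := by
    rw [map_inv₀]
    exact inv_lt_one_of_one_lt₀ h1
  have h3 := hs x⁻¹ ((V.valuation_le_one_iff _).1 h2.le)
  have h4 : V.valuation (s x⁻¹) < 1 := by
    have h5 : s x⁻¹ = (s x⁻¹ - x⁻¹) + x⁻¹ := by ring
    rw [h5]
    exact (V.valuation.map_add _ _).trans_lt (max_lt h3 h2)
  rw [map_inv₀, map_inv₀] at h4
  rw [← V.valuation_le_one_iff] at h
  have h5 : V.valuation (s x) ≠ 0 := by
    rw [Ne, map_eq_zero, map_eq_zero]
    exact hx0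
  have h6 : 1 ≤ (V.valuation (s x))⁻¹ := (one_le_inv₀ (zero_lt_iff.2 h5)).2 h
  exact absurd h4 (not_lt.2 h6)

theorem ld3_mul {s t : Ω ≃ₐ[F₀] Ω} (hs : Inert V s) (ht : Inert V t) : Inert V (s * t) := by
  intro x hx
  have h1 := hs (t x) (ld3_le ht hx)
  have h2 := ht x hx
  have h3 : (s * t) x - x = (s (t x) - t x) + (t x - x) := by
    change s (t x) - x = _
    ring
  rw [h3]
  exact (V.valuation.map_add _ _).trans_lt (max_lt h1 h2)

theorem ld3_inv {s : Ω ≃ₐ[F₀] Ω} (hs : Inert V s) : Inert V s⁻¹ := by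
  intro x hx
  have e : s (s⁻¹ x) = x := AlgEquiv.apply_symm_apply s x
  have h1 : s⁻¹ x ∈ V := by
    rw [← ld3_iff hs, e]
    exact hx
  have h2 := hs _ h1
  rw [e] at h2
  rw [← V.valuation.map_neg, neg_sub]
  exact h2

end inert

variable {Ω : Type} [Field Ω] [DecidableEq Ω] [Algebra F Ω] [IsAlgClosure F Ω]

theorem ld3_tt (s : Ω ≃ₐ[F] Ω) (P : P27 Ω) : tt (ac W27 s P) = s (tt P) := tt_mp s.toAlgHom P

theorem ld3_e0 {π : O} {l : ℕ} (hl : l ≠ 0) {e : P27 Ω → P27 Ω → Ω} (he : Pairing π l e) {T : P27 Ω}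
    (hT : T ∈ Tor π Ω) : e 0 T = 1 := by
  have h0 : (0 : P27 Ω) ∈ Tor (cj π) Ω := AddSubgroup.zero_mem _
  have h1 := he.add_left 0 h0 0 h0 T hT
  have h2 := he.root 0 h0 T hT
  rw [add_zero] at h1
  have h3 : e 0 T ≠ 0 := by
    intro h
    rw [h, zero_pow hl] at h2
    exact zero_ne_one h2
  exact (mul_eq_left₀ h3).1 h1.symm

theorem ld3_e0' {π : O} {l : ℕ} (hl : l ≠ 0) {e : P27 Ω → P27 Ω → Ω} (he : Pairing π l e) {X : P27 Ω}
    (hX : X ∈ Tor (cj π) Ω) : e X 0 = 1 := by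
  have h0 : (0 : P27 Ω) ∈ Tor π Ω := AddSubgroup.zero_mem _
  have h1 := he.add_right X hX 0 h0 0 h0
  have h2 := he.root X hX 0 h0
  rw [add_zero] at h1
  have h3 : e X 0 ≠ 0 := by
    intro h
    rw [h, zero_pow hl] at h2
    exact zero_ne_one h2
  exact (mul_eq_left₀ h3).1 h1.symm

theorem ld3_unit (V : ValuationSubring Ω) {u : O} (hu : IsUnit u) : vo V u = 1 := by
  obtain ⟨v, hv⟩ := hu.exists_right_inv
  have h1 : vo V u * vo V v = 1 := by
    unfold vo
    rw [← map_mul, ← map_mul]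
    have : (u : F) * (v : F) = ((u * v : O) : F) := by push_cast; rfl
    rw [this, hv]
    simp
  have h2 : vo V u ≤ 1 := ak_le V.valuation u
  have h3 : vo V v ≤ 1 := ak_le V.valuation v
  refine le_antisymm h2 ?_
  rw [← h1]
  exact mul_le_of_le_one_right zero_le h3

theorem ld3_l {π : O} {l : ℕ} (hl : l.Prime) (hd : π ∣ (l : O)) (hq : H55B.Nm π = l ^ 2) (V : ValuationSubring Ω) :
    V.valuation (l : Ω) = vo V π := by
  obtain ⟨u, hu⟩ := hd
  have h1 : H55B.Nm (l : O) = l ^ 2 := by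
    have := Nm_repr (l : ℤ) 0
    have e : ((l : ℤ) : O) + ((0 : ℤ) : O) * om = (l : O) := by push_cast; ring
    rw [e] at this
    have h2 : (H55B.Nm (l : O) : ℤ) = ((l ^ 2 : ℕ) : ℤ) := by
      rw [this]
      push_cast
      ring
    exact_mod_cast h2
  have h2 : H55B.Nm u = 1 := by
    have h3 := congrArg H55B.Nm hu
    rw [h1, Nm_mul, hq] at h3
    have h4 : 0 < l ^ 2 := pow_pos hl.pos 2
    exact (Nat.eq_of_mul_eq_mul_left h4 (by rw [mul_one]; exact h3)).symm
  have h3 : vo V u = 1 := ld3_unit V (Nm_eq_one.1 h2)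
  have h4 : V.valuation (l : Ω) = vo V (l : O) := by
    unfold vo
    simp
  rw [h4, hu]
  have h5 : vo V (π * u) = vo V π * vo V u := by
    unfold vo
    rw [← map_mul, ← map_mul]
    push_cast
    rfl
  rw [h5, h3, mul_one]

/-- Step D (final step for the level in the inert case). -/
theorem level_inert {π : O} {l : ℕ} {c : (Ω ≃ₐ[F] Ω) → P27 Ω} (C : Cl π l c) (hin : cj π = π)
    (hq : H55B.Nm π = l ^ 2) {e : P27 Ω → P27 Ω → Ω} (he : Pairing π l e) {L : IntermediateField F Ω} (hL : IsTF π L)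
    [NumberField L] (V : ValuationSubring Ω) (hV : vo V π < 1) (w : HeightOneSpectrum (𝓞 L)) (hw : Abv L V w)
    (T : P27 Ω) (hT : T ∈ Tor π Ω) (m : L) (hm : m ≠ 0) (y : Ω) (hyk : Kum L e c T y) (hy : y ^ l = (m : Ω)) :
    ∃ z : L, z ≠ 0 ∧ w.valuation L (m / z ^ l - 1) ≤ WithZero.exp (-2 : ℤ) := by
  classical
  have hchar : CharZero Ω := charZero_of_injective_algebraMap (algebraMap F Ω).injective
  have hl0 : l ≠ 0 := C.hl.ne_zero
  have hVl : V.valuation (l : Ω) = vo V π := ld3_l C.hl C.dvd hq V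
  have hVl1 : V.valuation (l : Ω) < 1 := hVl ▸ hV
  by_contra hlev
  have hex : ∃ s ∈ L.fixingSubgroup, Inert V s ∧ s y ≠ y := by
    by_contra hcon
    push Not at hcon
    exact hlev (level_unr L V w hw l C.hl hVl1 m hm y hy hcon)
  obtain ⟨s₁, hs1, hi1, hne1⟩ := hex
  have hTfix : ∀ s ∈ L.fixingSubgroup, ∀ R ∈ Tor π Ω, ac W27 s R = R := fun s hs => (hL.2 s).1 hs
  have hcT : ∀ s, c s ∈ Tor π Ω := fun s => by
    have := C.val s
    rwa [hin] at this
  have hc1 : c s₁ ≠ 0 := by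
    intro h0
    apply hne1
    rw [hyk.2 s₁ hs1, h0, ld3_e0 hl0 he hT, one_mul]
  have hT0 : T ≠ 0 := by
    intro h0
    apply hne1
    rw [hyk.2 s₁ hs1, h0, ld3_e0' hl0 he (C.val _), one_mul]
  obtain ⟨Q, hQ, hQc⟩ := inert_point C hin V hV
  have hr := val_point C hin V hV Q hQ hQc L hL s₁ hs1 hi1 hc1
  have hq3 : 3 ≤ H55B.Nm π := by
    rw [hq]
    nlinarith [C.five]
  have hvr := fun R (hR : R ∈ Tor π Ω) (h0 : R ≠ 0) => val_ratio C.pr C.prim hq3 V hV Q hQ hr R hR h0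
  have hcard : Nat.card (Tor π Ω) = H55B.Nm π := (gi_gen π C.pr C.prim).1
  have hfin : Finite (Tor π Ω) := Nat.finite_of_card_ne_zero (by rw [hcard]; omega)
  have hV0 : vo V π ≠ 0 := by
    unfold vo
    rw [Ne, map_eq_zero, map_eq_zero]
    exact_mod_cast C.pr.ne_zero
  have hQ0 : V.valuation (tt Q) ≠ 0 := by
    intro h0
    rw [h0, zero_pow (by omega)] at hr
    exact hV0 hr.symm
  -- the set J
  have hJfin : {R : P27 Ω | ∃ h ∈ L.fixingSubgroup, Inert V h ∧ h y = y ∧ c h = R}.Finite := by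
    refine Set.Finite.subset (Set.toFinite (Tor π Ω : Set (P27 Ω))) ?_
    rintro R ⟨h, -, -, -, rfl⟩
    exact hcT h
  set J : Finset (P27 Ω) := hJfin.toFinset with hJ
  have hJmem : ∀ R, R ∈ J ↔ ∃ h ∈ L.fixingSubgroup, Inert V h ∧ h y = y ∧ c h = R := fun R => by
    rw [hJ, Set.Finite.mem_toFinset]
    rfl
  have hJT : ∀ R ∈ J, R ∈ Tor π Ω := fun R hR => by
    obtain ⟨h, -, -, -, rfl⟩ := (hJmem R).1 hR
    exact hcT h
  have hJcard : J.card ≤ H55B.Nm π := by
    rw [← hcard]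
    have h1 : (J : Set (P27 Ω)) ⊆ (Tor π Ω : Set (P27 Ω)) := fun R hR => hJT R hR
    calc J.card = Set.ncard (J : Set (P27 Ω)) := (Set.ncard_coe_finset J).symm
      _ ≤ Set.ncard (Tor π Ω : Set (P27 Ω)) := Set.ncard_le_ncard h1 (Set.toFinite _)
      _ = Nat.card (Tor π Ω) := rfl
  have hJ0 : (0 : P27 Ω) ∈ J := (hJmem 0).2 ⟨1, Subgroup.one_mem _, fun x _ => by simp, rfl, C.one⟩
  have hcadd : ∀ h ∈ L.fixingSubgroup, ∀ h' , c (h * h') = c h + c h' := fun h hh h' => by
    rw [C.mul, hTfix h hh _ (hcT h')]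
  have hcinv : ∀ h ∈ L.fixingSubgroup, c h⁻¹ = -c h := fun h hh => by
    have h1 := hcadd h hh h⁻¹
    rw [mul_inv_cancel, C.one] at h1
    exact (neg_eq_of_add_eq_zero_right h1.symm).symm
  -- values
  have hval : ∀ R ∈ Tor π Ω, V.valuation (tt (Q + R)) = V.valuation (tt Q) := fun R hR => by
    by_cases h0 : R = 0
    · rw [h0, add_zero]
    · exact (hvr R hR h0).1
  have htau : ∀ R ∈ Tor π Ω, R ≠ 0 → V.valuation (tt R) = V.valuation (tt T) := fun R hR h0 => by
    have h1 := (kr_tor_ram π C.pr C.prim V hV hR h0).2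
    have h2 := (kr_tor_ram π C.pr C.prim V hV hT hT0).2
    exact (pow_left_inj₀ zero_le zero_le (by omega)).1 (h1.trans h2.symm)
  have hTQ : V.valuation (tt T) < V.valuation (tt Q) := (hvr T hT hT0).2.2
  have hTv : V.valuation (tt T) ^ (H55B.Nm π - 1) = vo V π := (kr_tor_ram π C.pr C.prim V hV hT hT0).2
  have hT0' : V.valuation (tt T) ≠ 0 := by
    intro h0
    rw [h0, zero_pow (by omega)] at hTv
    exact hV0 hTv.symm
  obtain ⟨a, ha⟩ : ∃ a, a = V.valuation (tt T) / V.valuation (tt Q) := ⟨_, rfl⟩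
  have ha1 : a < 1 := by
    rw [ha]
    exact (div_lt_one₀ (zero_lt_iff.2 hQ0)).2 hTQ
  have ha0 : 0 < a := by
    rw [ha, zero_lt_iff]
    exact div_ne_zero hT0' hQ0
  have haq : a ^ (H55B.Nm π * (H55B.Nm π - 1)) = vo V π := by
    have h1 : V.valuation (tt T) ^ (H55B.Nm π * (H55B.Nm π - 1)) = vo V π ^ H55B.Nm π := by
      rw [mul_comm, pow_mul, hTv]
    have h2 : V.valuation (tt Q) ^ (H55B.Nm π * (H55B.Nm π - 1)) = vo V π ^ (H55B.Nm π - 1) := by
      rw [pow_mul, hr]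
    have h3 : vo V π ^ H55B.Nm π = vo V π ^ (H55B.Nm π - 1) * vo V π := by
      rw [← pow_succ]
      congr 1
      omega
    rw [ha, div_pow, h1, h2, h3]
    exact mul_div_cancel_left₀ _ (pow_ne_zero _ hV0)
  -- the bound
  have hbd := prod_bound V J hJ0 (fun R => tt T / tt (Q + R))
    (fun R hR => by
      rw [map_div₀, hval R (hJT R hR), ← ha]
      exact ha1.le)
    {σ : Ω ≃+* Ω | ∃ h ∈ L.fixingSubgroup, Inert V h ∧ h y = y ∧ σ = (h : Ω ≃+* Ω)}
    (by
      rintro σ ⟨h, hh, hih, hhy, rfl⟩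
      refine ⟨c h, fun R hR => ?_, fun R => ⟨fun hR => ?_, fun hR => ?_⟩⟩
      · change h (tt T / tt (Q + R)) = tt T / tt (Q + (R + c h))
        rw [map_div₀, ← ld3_tt, ← ld3_tt, hTfix h hh T hT, map_add, hTfix h hh R (hJT R hR)]
        have h1 : ac W27 h Q = c h + Q := by
          rw [hQc h hih, sub_add_cancel]
        rw [h1]
        congr 2
        abel
      · obtain ⟨k, hk, hik, hky, rfl⟩ := (hJmem R).1 hR
        refine (hJmem _).2 ⟨k * h, Subgroup.mul_mem _ hk hh, ld3_mul hik hih, ?_, hcadd k hk h⟩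
        change k (h y) = y
        rw [hhy, hky]
      · obtain ⟨k, hk, hik, hky, hkc⟩ := (hJmem _).1 hR
        refine (hJmem _).2 ⟨k * h⁻¹, Subgroup.mul_mem _ hk (Subgroup.inv_mem _ hh),
          ld3_mul hik (ld3_inv hih), ?_, ?_⟩
        · change k (h⁻¹ y) = y
          have h1 : h⁻¹ y = y := by
            have h2 : h⁻¹ (h y) = y := AlgEquiv.symm_apply_apply h y
            rwa [hhy] at h2
          rw [h1, hky]
        · rw [hcadd k hk, hcinv h hh, hkc, add_neg_cancel_right])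
    (s₁ : Ω ≃+* Ω) (l - 1) (V.valuation (l : Ω))
    (fun b hb hf => coef_bound L V w hw l C.hl (by have := C.five; omega) hVl1
      (mu_mem C.hl C.pr C.prim hin he hL) m hm y hy hlev b hb
      (fun s hs hi hsy => hf (s : Ω ≃+* Ω) ⟨s, hs, hi, hsy, rfl⟩) s₁ hs1 hi1)
  have hterm : ∀ R ∈ J, V.valuation (tt T / tt (Q + 0) - (s₁ : Ω ≃+* Ω) (tt T / tt (Q + R))) = a ^ 2 := by
    intro R hR
    have hR' := hJT R hR
    have h0 : R + c s₁ ≠ 0 := by
      intro h0
      obtain ⟨k, hk, hik, hky, hkc⟩ := (hJmem R).1 hR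
      apply hne1
      have h1 : c s₁ = c k⁻¹ := by
        rw [hcinv k hk, hkc]
        exact eq_neg_of_add_eq_zero_right h0
      have h2 : k⁻¹ y = y := by
        have h3 : k⁻¹ (k y) = y := AlgEquiv.symm_apply_apply k y
        rwa [hky] at h3
      rw [hyk.2 s₁ hs1, h1, ← hyk.2 k⁻¹ (Subgroup.inv_mem _ hk), h2]
    have hT' : R + c s₁ ∈ Tor π Ω := AddSubgroup.add_mem _ hR' (hcT s₁)
    have e1 : (s₁ : Ω ≃+* Ω) (tt T / tt (Q + R)) = tt T / tt (Q + (R + c s₁)) := by
      change s₁ (tt T / tt (Q + R)) = _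
      rw [map_div₀, ← ld3_tt, ← ld3_tt, hTfix s₁ hs1 T hT, map_add, hTfix s₁ hs1 R hR']
      have h1 : ac W27 s₁ Q = c s₁ + Q := by
        rw [hQc s₁ hi1, sub_add_cancel]
      rw [h1]
      congr 2
      abel
    rw [e1, add_zero]
    have hv1 := hvr _ hT' h0
    have hne2 : tt (Q + (R + c s₁)) ≠ 0 := by
      intro h1
      rw [h1, map_zero] at hv1
      exact hQ0 hv1.1.symm
    have hne3 : tt Q ≠ 0 := by
      intro h1
      rw [h1, map_zero] at hQ0
      exact hQ0 rfl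
    have e2 : tt T / tt Q - tt T / tt (Q + (R + c s₁)) =
        tt T * (tt (Q + (R + c s₁)) - tt Q) / (tt Q * tt (Q + (R + c s₁))) := by
      field_simp
    rw [e2, map_div₀, map_mul, map_mul, hv1.1, hv1.2.1, htau _ hT' h0, ha, div_pow, sq, sq]
  rw [Finset.prod_congr rfl (fun R hR => rfl), map_prod] at hbd
  rw [Finset.prod_congr rfl hterm, Finset.prod_const, hVl, ← haq, ← pow_mul, ← pow_mul] at hbd
  have h1 := (pow_le_pow_iff_right_of_lt_one₀ ha0 ha1).1 hbd
  have h2 : 2 * J.card * (l - 1) ≤ 2 * H55B.Nm π * (l - 1) := by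
    exact Nat.mul_le_mul_right _ (Nat.mul_le_mul_left _ hJcard)
  have h3 : H55B.Nm π * (H55B.Nm π - 1) ≤ H55B.Nm π * (2 * (l - 1)) := by
    calc H55B.Nm π * (H55B.Nm π - 1) ≤ 2 * (J.card * (l - 1)) := h1
      _ = 2 * J.card * (l - 1) := by ring
      _ ≤ 2 * H55B.Nm π * (l - 1) := h2
      _ = H55B.Nm π * (2 * (l - 1)) := by ring
  have h4 := Nat.le_of_mul_le_mul_left h3 (by omega)
  rw [hq] at h4
  have h5 := C.five
  have h6 : l * l = l ^ 2 := by ring
  have h7 : 5 * l ≤ l ^ 2 := by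
    rw [← h6]
    exact Nat.mul_le_mul_right l h5
  omega

end H13S
end

-- from Lib.H55K.QP2B
section

/-! # H55K: the complex and the real period are p-adic units times the periods -/

open NumberField IsDedekindDomain WeierstrassCurve

namespace H55K.TQ

open H55P (IQ embF eF LF Per IsHecke Pt ac Inert Dec Nm UnitP)
open H35P (WAB Ker tt GoodW IntW)
open H55K.MG (VC Crd)

variable {F : Type} [Field F] [NumberField F] [IQ F] {W : WeierstrassCurve ℤ} {Om : ℂ} {L : PeriodPair} {p : ℕ}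

theorem qp2b_fin (L : PeriodPair) (r : ℝ) : {x : ℝ | 0 < x ∧ x ≤ r ∧ (x : ℂ) ∈ L.lattice}.Finite := by
  have h0 : DiscreteTopology (L.lattice : Set ℂ) := inferInstanceAs (DiscreteTopology L.lattice)
  have h1 : (Metric.closedBall (0 : ℂ) r ∩ (L.lattice : Set ℂ)).Finite :=
    Metric.finite_isBounded_inter_isClosed DiscreteTopology.isDiscrete Metric.isBounded_closedBall L.isClosed_lattice
  refine (h1.preimage (f := fun x : ℝ => (x : ℂ)) Complex.ofReal_injective.injOn).subset ?_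
  rintro x ⟨hx, hxr, hxl⟩
  refine ⟨?_, hxl⟩
  rw [mem_closedBall_zero_iff, Complex.norm_real, Real.norm_of_nonneg hx.le]
  exact hxr

theorem qp2b_re (hL : PerZ W L) {z : ℂ} (hz : z ∈ L.lattice) (h : z.re ≠ 0) :
    ∃ t : ℝ, 0 < t ∧ (t : ℂ) ∈ L.lattice := by
  have h1 : ((2 * z.re : ℝ) : ℂ) ∈ L.lattice := by
    rw [← Complex.add_conj]
    exact add_mem hz (lat_conj hL hz)
  rcases lt_or_gt_of_ne h with h2 | h2
  · refine ⟨-(2 * z.re), by linarith, ?_⟩
    rw [Complex.ofReal_neg]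
    exact neg_mem h1
  · exact ⟨2 * z.re, by linarith, h1⟩

theorem qp2b_ex (hL : PerZ W L) : ∃ t : ℝ, 0 < t ∧ (t : ℂ) ∈ L.lattice := by
  by_cases h1 : L.ω₁.re = 0
  · by_cases h2 : L.ω₂.re = 0
    · exfalso
      have h3 := LinearIndependent.pair_iff.1 L.indep L.ω₂.im (-L.ω₁.im) (by
        apply Complex.ext
        · simp [h1, h2]
        · simp
          ring)
      have h4 : L.ω₁ = 0 := Complex.ext h1 (by simpa using h3.2)
      exact L.indep.ne_zero 0 h4
    · exact qp2b_re hL L.ω₂_mem_lattice h2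
  · exact qp2b_re hL L.ω₁_mem_lattice h1

/-- Chunk QP2B (M). The least positive real element exists and is Om α: the lattice is discrete and contains a positive real (Om conj(..): for z in L.lattice also z + conj z (lat_conj), not all z + conj z are 0: z and i-multiples: if z + conj z = 0 for all z in the lattice then the lattice is contained in the imaginary line, impossible for a lattice; so some real t ≠ 0, and |t| > 0). So the set has a minimum (discreteness: finitely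
many lattice points in the disc of radius t). -/
theorem omr_mem (hL : PerZ W L) : 0 < H55D.Omr L ∧ ((H55D.Omr L : ℝ) : ℂ) ∈ L.lattice ∧
    ∀ x : ℝ, 0 < x → (x : ℂ) ∈ L.lattice → H55D.Omr L ≤ x := by
  obtain ⟨t, ht, htl⟩ := qp2b_ex hL
  obtain ⟨m, ⟨hm0, hmt, hml⟩, hmin⟩ := Set.exists_min_image _ id (qp2b_fin L t) ⟨t, ht, le_rfl, htl⟩
  have h1 : ∀ x : ℝ, 0 < x → (x : ℂ) ∈ L.lattice → m ≤ x := by
    intro x hx hxl
    by_cases h : x ≤ t
    · exact hmin x ⟨hx, h, hxl⟩
    · exact hmt.trans (not_le.1 h).le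
  have h2 : IsLeast {x : ℝ | 0 < x ∧ (x : ℂ) ∈ L.lattice} m := ⟨⟨hm0, hml⟩, fun x hx => h1 x hx.1 hx.2⟩
  have h3 : H55D.Omr L = m := h2.csInf_eq
  rw [h3]
  exact ⟨hm0, hml, h1⟩

end H55K.TQ
end

-- from Lib.H55K.QP2A
section

/-! # H55K: the complex and the real period are p-adic units times the periods -/

open NumberField IsDedekindDomain WeierstrassCurve

namespace H55K.TQ

open H55P (IQ embF eF LF Per IsHecke Pt ac Inert Dec Nm UnitP)
open H35P (WAB Ker tt GoodW IntW)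
open H55K.MG (VC Crd)

variable {F : Type} [Field F] [NumberField F] [IQ F] {W : WeierstrassCurve ℤ} {Om : ℂ} {L : PeriodPair} {p : ℕ}

theorem qp2a_sum (F : Type) [Field F] [NumberField F] [IQ F] (x : F) :
    ∑ σ : F →ₐ[ℚ] ℂ, σ x = embF F x + (starRingEnd ℂ) (embF F x) := by
  classical
  obtain ⟨s, hs⟩ : ∃ s : F →ₐ[ℚ] ℂ, s = (embF F).toRatAlgHom := ⟨_, rfl⟩
  obtain ⟨s', hs'⟩ : ∃ s' : F →ₐ[ℚ] ℂ, s' = ((starRingEnd ℂ).comp (embF F)).toRatAlgHom := ⟨_, rfl⟩
  have hsx : ∀ x, s x = embF F x := fun x => by rw [hs]; rfl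
  have hsx' : ∀ x, s' x = (starRingEnd ℂ) (embF F x) := fun x => by rw [hs']; rfl
  have hne : s ≠ s' := by
    intro h
    apply d1_conj_ne F
    ext x
    have h1 := DFunLike.congr_fun h x
    rw [hsx, hsx'] at h1
    exact h1.symm
  have hcard : Fintype.card (F →ₐ[ℚ] ℂ) = 2 := by
    rw [AlgHom.card, IQ.deg]
  have huniv : (Finset.univ : Finset (F →ₐ[ℚ] ℂ)) = {s, s'} := by
    symm
    apply Finset.eq_univ_of_card
    rw [Finset.card_pair hne, hcard]
  rw [huniv, Finset.sum_pair hne, hsx, hsx']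

theorem qp2a_tr (x : 𝓞 F) : ((Algebra.trace ℤ (𝓞 F) x : ℤ) : ℂ) = eF F x + (starRingEnd ℂ) (eF F x) := by
  have h1 := Algebra.coe_trace_int x
  have h2 := trace_eq_sum_embeddings (K := ℚ) (L := F) ℂ (x := (x : F))
  rw [qp2a_sum, ← h1, map_intCast] at h2
  exact h2

theorem qp2a_discr (F : Type) [Field F] [NumberField F] [IQ F] : ((NumberField.discr F : ℤ) : ℂ) =
    (eF F (H55P.bF F 0) * (starRingEnd ℂ) (eF F (H55P.bF F 1)) -
      (starRingEnd ℂ) (eF F (H55P.bF F 0)) * eF F (H55P.bF F 1)) ^ 2 := by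
  rw [← NumberField.discr_eq_discr F (H55P.bF F), Algebra.discr_def, Matrix.det_fin_two]
  simp only [Algebra.traceMatrix_apply, Algebra.traceForm_apply]
  push_cast
  simp only [qp2a_tr, map_mul]
  ring

theorem qp2a_abs (F : Type) [Field F] [NumberField F] [IQ F] :
    2 * |(eF F (H55P.bF F 0)).re * (eF F (H55P.bF F 1)).im - (eF F (H55P.bF F 0)).im * (eF F (H55P.bF F 1)).re| =
      Real.sqrt |(NumberField.discr F : ℝ)| := by
  have h := qp2a_discr F
  generalize eF F (H55P.bF F 0) = a at *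
  generalize eF F (H55P.bF F 1) = b at *
  obtain ⟨t, ht⟩ : ∃ t : ℝ, t = a.re * b.im - a.im * b.re := ⟨_, rfl⟩
  rw [← ht]
  have h1 : a * (starRingEnd ℂ) b - (starRingEnd ℂ) a * b = -(2 * (t : ℂ) * Complex.I) := by
    rw [ht]
    apply Complex.ext
    · simp only [Complex.sub_re, Complex.mul_re, Complex.conj_re, Complex.conj_im, Complex.neg_re, Complex.ofReal_re,
        Complex.ofReal_im, Complex.I_re, Complex.I_im, Complex.re_ofNat, Complex.im_ofNat, Complex.mul_im]
      ring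
    · simp only [Complex.sub_im, Complex.mul_re, Complex.conj_re, Complex.conj_im, Complex.neg_im, Complex.ofReal_re,
        Complex.ofReal_im, Complex.I_re, Complex.I_im, Complex.re_ofNat, Complex.im_ofNat, Complex.mul_im]
      ring
  rw [h1] at h
  have h2 : ((NumberField.discr F : ℤ) : ℂ) = ((-(4 * t ^ 2) : ℝ) : ℂ) := by
    rw [h]
    push_cast
    linear_combination 4 * (t : ℂ) ^ 2 * Complex.I_sq
  have h3 : ((NumberField.discr F : ℤ) : ℝ) = -(4 * t ^ 2) := by exact_mod_cast h2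
  rw [h3, abs_neg, abs_of_nonneg (by positivity : (0 : ℝ) ≤ 4 * t ^ 2)]
  have h4 : 4 * t ^ 2 = (2 * |t|) ^ 2 := by
    rw [mul_pow, sq_abs]
    ring
  rw [h4, Real.sqrt_sq (by positivity)]

theorem qp2a_cross (m n m' n' : ℤ) (a b : ℂ) :
    ((m : ℂ) * a + n * b).re * ((m' : ℂ) * a + n' * b).im - ((m : ℂ) * a + n * b).im * ((m' : ℂ) * a + n' * b).re =
      ((m * n' - n * m' : ℤ) : ℝ) * (a.re * b.im - a.im * b.re) := by
  simp only [Complex.add_re, Complex.add_im, Complex.mul_re, Complex.mul_im, Complex.intCast_re, Complex.intCast_im]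
  push_cast
  ring

theorem qp2a_mul (c a b : ℂ) : (c * a).re * (c * b).im - (c * a).im * (c * b).re =
    ‖c‖ ^ 2 * (a.re * b.im - a.im * b.re) := by
  rw [← Complex.normSq_eq_norm_sq, Complex.normSq_apply]
  simp only [Complex.mul_re, Complex.mul_im]
  ring

/-- Chunk QP2A (M). L.ω₁ = Om a, L.ω₂ = Om b with a, b an integral basis of 𝓞 F (lat_W: both lattices are equal; every element of 𝓞 F is an integral combination of a and b because Om x is in L.lattice; linear independence over the reals). |re ω₁ im ω₂ - im ω₁ re ω₂| = ‖Om‖^2 |Im (conj a b)|, and (conj a b - a conj b)^2 = discr F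
(Algebra.discr / NumberField.discr_eq_discr for the basis: det of (σ_i b_j) squared; the embeddings are embF F and its conjugate; see H55P: discriminant computations in D1.lean or H55C), so 2 |Im (conj a b)| = sqrt |discr F|. -/
theorem om_area (hper : PerW F W Om) (hL : PerZ W L) :
    H55C.Om L = ‖Om‖ ^ 2 * Real.sqrt |(NumberField.discr F : ℝ)| := by
  have hne : Om ≠ 0 := hper.ne
  have hω₁ : L.ω₁ ∈ L.lattice := PeriodPair.mem_lattice.2 ⟨1, 0, by simp⟩
  have hω₂ : L.ω₂ ∈ L.lattice := PeriodPair.mem_lattice.2 ⟨0, 1, by simp⟩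
  obtain ⟨a, ha⟩ := (lat_W hper hL _).1 hω₁
  obtain ⟨b, hb⟩ := (lat_W hper hL _).1 hω₂
  obtain ⟨e0, he0⟩ : ∃ e0, e0 = eF F (H55P.bF F 0) := ⟨_, rfl⟩
  obtain ⟨e1, he1⟩ : ∃ e1, e1 = eF F (H55P.bF F 1) := ⟨_, rfl⟩
  obtain ⟨m, n, hmn⟩ := PeriodPair.mem_lattice.1 ((lat_W hper hL _).2 ⟨H55P.bF F 0, rfl⟩)
  obtain ⟨m', n', hmn'⟩ := PeriodPair.mem_lattice.1 ((lat_W hper hL _).2 ⟨H55P.bF F 1, rfl⟩)
  rw [ha, hb] at hmn hmn'
  have g0 : e0 = (m : ℂ) * eF F a + n * eF F b := by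
    apply mul_left_cancel₀ hne
    rw [he0, ← hmn]
    ring
  have g1 : e1 = (m' : ℂ) * eF F a + n' * eF F b := by
    apply mul_left_cancel₀ hne
    rw [he1, ← hmn']
    ring
  have ga := H55P.eF_repr a
  have gb := H55P.eF_repr b
  rw [← he0, ← he1] at ga gb
  obtain ⟨X, hX⟩ : ∃ X : ℝ, X = (eF F a).re * (eF F b).im - (eF F a).im * (eF F b).re := ⟨_, rfl⟩
  obtain ⟨Y, hY⟩ : ∃ Y : ℝ, Y = e0.re * e1.im - e0.im * e1.re := ⟨_, rfl⟩
  have k1 := qp2a_cross m n m' n' (eF F a) (eF F b)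
  rw [← g0, ← g1, ← hX, ← hY] at k1
  have k2 := qp2a_cross ((H55P.bF F).repr a 0) ((H55P.bF F).repr a 1) ((H55P.bF F).repr b 0)
    ((H55P.bF F).repr b 1) e0 e1
  rw [← ga, ← gb, ← hX, ← hY] at k2
  have hX0 : X ≠ 0 := by
    intro h0
    have h1 := L.indep
    rw [LinearIndependent.pair_iff] at h1
    have h2 : L.ω₁.re * L.ω₂.im - L.ω₁.im * L.ω₂.re = 0 := by
      rw [ha, hb, qp2a_mul, ← hX, h0, mul_zero]
    have hne1 : L.ω₁ ≠ 0 := by
      intro h3
      have h4 := h1 1 0 (by rw [h3]; simp)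
      exact one_ne_zero h4.1
    by_cases hr : L.ω₁.re = 0
    · have him : L.ω₁.im ≠ 0 := fun h => hne1 (Complex.ext hr h)
      have h5 : L.ω₂.re = 0 := by
        rw [hr, zero_mul, zero_sub, neg_eq_zero] at h2
        exact (mul_eq_zero.1 h2).resolve_left him
      have h6 := h1 L.ω₂.im (-L.ω₁.im) (by
        apply Complex.ext
        · simp [hr, h5]
        · simp
          ring)
      exact him (neg_eq_zero.1 h6.2)
    · have h6 := h1 L.ω₂.re (-L.ω₁.re) (by
        apply Complex.ext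
        · simp
          ring
        · simp
          linarith)
      exact hr (neg_eq_zero.1 h6.2)
  have hdet : |((m * n' - n * m' : ℤ) : ℝ)| = 1 := by
    rw [k1] at k2
    have h1 : (((H55P.bF F).repr a 0 * (H55P.bF F).repr b 1 - (H55P.bF F).repr a 1 * (H55P.bF F).repr b 0 : ℤ) : ℝ) *
        ((m * n' - n * m' : ℤ) : ℝ) = 1 := by
      apply mul_right_cancel₀ hX0
      rw [one_mul, mul_assoc]
      exact k2.symm
    have h2 : ((H55P.bF F).repr a 0 * (H55P.bF F).repr b 1 - (H55P.bF F).repr a 1 * (H55P.bF F).repr b 0) *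
        (m * n' - n * m') = 1 := by exact_mod_cast h1
    rcases Int.mul_eq_one_iff_eq_one_or_neg_one.1 h2 with ⟨_, h3⟩ | ⟨_, h3⟩
    · rw [h3]
      simp
    · rw [h3]
      simp
  unfold H55C.Om
  rw [← qp2a_abs F, ← he0, ← he1, ← hY, k1, abs_mul, hdet, one_mul, ha, hb, qp2a_mul, ← hX, abs_mul,
    abs_of_nonneg (by positivity : (0 : ℝ) ≤ ‖Om‖ ^ 2)]
  ring

/-- Chunk QP2A (S). ‖Om‖^2 = Om conj Om = Om^2 η; sqrt |discr F| is a p-adic unit: H55P.discr_unit for K₀ = F (p unramified in F: squarefree). Units of 𝓞 F are units. -/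
theorem om_unit (hper : PerW F W Om) (hL : PerZ W L) (hp : p.Prime) (hU : H55P.UnrP p F) :
    UnitP p (H55C.Om L / (Om * (starRingEnd ℂ) Om)) ∧ UnitP p (H55C.Om L / Om ^ 2) := by
  have hne : Om ≠ 0 := hper.ne
  have hcne : (starRingEnd ℂ) Om ≠ 0 := by
    rw [Ne, map_eq_zero]
    exact hne
  have hsq : UnitP p ((Real.sqrt |(NumberField.discr F : ℝ)| : ℝ) : ℂ) := by
    intro V hV
    have h0 : ¬ (p : ℤ) ∣ NumberField.discr F := H55P.pl1_discr p hp hU
    generalize NumberField.discr F = D at h0 ⊢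
    have h1 : (((Real.sqrt |(D : ℝ)| : ℝ) : ℂ)) ^ 2 = ((D.natAbs : ℕ) : ℂ) := by
      rw [← Complex.ofReal_pow, Real.sq_sqrt (abs_nonneg _), ← Int.cast_abs, Int.abs_eq_natAbs]
      simp only [Int.cast_natCast, Complex.ofReal_natCast]
    have h2 := H55P.val_nat p hp V hV D.natAbs (fun hd => h0 (Int.natCast_dvd.2 hd))
    rw [← h1, map_pow] at h2
    exact (pow_eq_one_iff_of_nonneg zero_le two_ne_zero).1 h2
  have hOm : (H55C.Om L : ℂ) = Om * (starRingEnd ℂ) Om * ((Real.sqrt |(NumberField.discr F : ℝ)| : ℝ) : ℂ) := by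
    rw [om_area hper hL, Complex.mul_conj, Complex.normSq_eq_norm_sq]
    push_cast
    ring
  constructor
  · rw [hOm, mul_div_cancel_left₀ _ (mul_ne_zero hne hcne)]
    exact hsq
  · obtain ⟨η, hη⟩ := om_conj hper hL
    have h1 : (H55C.Om L : ℂ) / Om ^ 2 = eF F η * ((Real.sqrt |(NumberField.discr F : ℝ)| : ℝ) : ℂ) := by
      rw [hOm, hη]
      field_simp
    rw [h1]
    intro V hV
    rw [map_mul, hsq V hV, mul_one]
    have hint : ∀ x : 𝓞 F, V.valuation (eF F x) ≤ 1 := by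
      intro x
      have h2 : IsIntegral ℤ (eF F x) := (RingOfIntegers.isIntegral x).map ((eF F).toIntAlgHom)
      rw [V.valuation_le_one_iff]
      have h3 : IsIntegral V (eF F x) := h2.tower_top
      obtain ⟨y, hy⟩ := IsIntegrallyClosed.isIntegral_iff.1 h3
      rw [← hy]
      exact y.2
    have h2 := hint η
    have h3 := hint (η⁻¹ : (𝓞 F)ˣ)
    have h4 : V.valuation (eF F η) * V.valuation (eF F ((η⁻¹ : (𝓞 F)ˣ) : 𝓞 F)) = 1 := by
      rw [← map_mul, ← map_mul, Units.mul_inv, map_one, map_one]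
    refine le_antisymm h2 ?_
    rw [← h4]
    exact mul_le_of_le_one_right' h3

end H55K.TQ
end

-- from Lib.H13X.D
section

/-!
# H13X: a bad ramified prime gives a nonzero Selmer class, for all curves with complex multiplication (definitions)

The setting of H55K (Dta): F one of the nine fields, E : y^2 = x^3 + A x + B with complex multiplication act by the integers of F,
l a good prime at least 5, π a prime element above l. N is a number field between F and Ω. See PROOF.md.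
-/

open NumberField IsDedekindDomain WeierstrassCurve

namespace H13X

open H55P (IQ embF eF LF Per IsHecke Pt ac Inert Dec Nm Coc)
open H35P (WAB Ker tt)
open H55K (Tor ak xc yc CMA Dta GV GMod cj cj_cj mul_cj cj_prime cj_dvd cj_nat Nm_cj Nm_mul Nm_nat)
open H55K.S
open H13S (Abv)

variable {F : Type} [Field F] [NumberField F] [IQ F] {A B : F} {Om : ℂ} {Ω : Type} [Field Ω] [DecidableEq Ω]
  [Algebra F Ω] {j : Ω →+* ℂ}

/-- The data, and a prime element π above l. -/
structure Dat (A B : F) (Om : ℂ) (j : Ω →+* ℂ) (act : 𝓞 F →+* AddMonoid.End (Pt (WAB A B) Ω)) (mo : Ideal (𝓞 F))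
    (ψ : Ideal (𝓞 F) →*₀ 𝓞 F) (π : 𝓞 F) (l : ℕ) : Prop where
  dta : Dta A B Om j act mo ψ l
  pr : Prime π
  dvd : π ∣ (l : 𝓞 F)

section data

variable {act : 𝓞 F →+* AddMonoid.End (Pt (WAB A B) Ω)} {mo : Ideal (𝓞 F)} {ψ : Ideal (𝓞 F) →*₀ 𝓞 F} {π : 𝓞 F} {l : ℕ}

theorem Dat.cma (D : Dat A B Om j act mo ψ π l) : CMA F A B Om j act := D.dta.cma

theorem Dat.hl (D : Dat A B Om j act mo ψ π l) : l.Prime := D.dta.prime

theorem Dat.five (D : Dat A B Om j act mo ψ π l) : 5 ≤ l := D.dta.five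

/-- The conjugate data. -/
theorem Dat.conj (D : Dat A B Om j act mo ψ π l) : Dat A B Om j act mo ψ (cj π) l :=
  ⟨D.dta, cj_prime D.pr, by rw [cj_dvd, cj_nat]; exact D.dvd⟩

end data

/-- c is a continuous cocycle on the group of K with values in the points killed by the conjugate of π. -/
structure Cc (act : 𝓞 F →+* AddMonoid.End (Pt (WAB A B) Ω)) (π : 𝓞 F) (K : IntermediateField F Ω)
    (c : (Ω ≃ₐ[F] Ω) → Pt (WAB A B) Ω) : Prop where
  mul : ∀ s ∈ K.fixingSubgroup, ∀ t ∈ K.fixingSubgroup, c (s * t) = c s + ac (WAB A B) s (c t)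
  cont : ∃ N : IntermediateField F Ω, FiniteDimensional F N ∧
    ∀ s ∈ K.fixingSubgroup, s ∈ N.fixingSubgroup → c s = 0
  val : ∀ s ∈ K.fixingSubgroup, c s ∈ Tor act (cj π)

/-- L is the field generated over K by the points killed by π. -/
structure IsTB (act : 𝓞 F →+* AddMonoid.End (Pt (WAB A B) Ω)) (π : 𝓞 F) (K L : IntermediateField F Ω) : Prop where
  fin : FiniteDimensional F L
  le : K ≤ L
  fix : ∀ s : Ω ≃ₐ[F] Ω, s ∈ L.fixingSubgroup ↔ s ∈ K.fixingSubgroup ∧ ∀ T ∈ Tor act π, ac (WAB A B) s T = T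

/-- What is needed of the base field N: the inertia groups above l fix N; the residue fields above l. -/
structure Nb (l : ℕ) (N : IntermediateField F Ω) : Prop where
  fin : FiniteDimensional F N
  inert : ∀ V : ValuationSubring Ω, V.valuation (l : Ω) < 1 → ∀ s : Ω ≃ₐ[F] Ω, Inert V s → s ∈ N.fixingSubgroup
  res : ∀ (V : ValuationSubring Ω) (β : 𝓞 F), Prime β → vo V β < 1 → V.valuation (l : Ω) < 1 →
    ∃ q f : ℕ, 0 < f ∧ q = Nm β ^ f ∧ (∀ x ∈ N, x ∈ V → V.valuation (x ^ q - x) < 1) ∧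
      (∃ φ ∈ N.fixingSubgroup, Dec V φ ∧ ∀ x ∈ V, V.valuation (φ x - x ^ q) < 1) ∧
      ∃ r : Fin q → Ω, (∀ i, r i ∈ N ∧ V.valuation (r i) ≤ 1) ∧
        (∀ i i', i ≠ i' → V.valuation (r i - r i') = 1) ∧
        ∀ x ∈ N, x ∈ V → ∃ i, V.valuation (x - r i) < 1

/-- s lies in the decomposition group of V over N. -/
def DecN (N : IntermediateField F Ω) (V : ValuationSubring Ω) (s : Ω ≃ₐ[F] Ω) : Prop :=
  s ∈ N.fixingSubgroup ∧ Dec V s

section loc

variable (act : 𝓞 F →+* AddMonoid.End (Pt (WAB A B) Ω)) (π : 𝓞 F)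

/-- s lies in the inertia group of V and fixes the points killed by π and by its conjugate. -/
def JV (V : ValuationSubring Ω) (s : Ω ≃ₐ[F] Ω) : Prop :=
  Inert V s ∧ (∀ T ∈ Tor act π, ac (WAB A B) s T = T) ∧ ∀ T ∈ Tor act (cj π), ac (WAB A B) s T = T

/-- s lies in the decomposition group of V over N and fixes the points killed by π. -/
def DT (N : IntermediateField F Ω) (V : ValuationSubring Ω) (s : Ω ≃ₐ[F] Ω) : Prop :=
  DecN N V s ∧ ∀ T ∈ Tor act π, ac (WAB A B) s T = T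

/-- x is fixed by these automorphisms. -/
def Hx (N : IntermediateField F Ω) (V : ValuationSubring Ω) (x : Ω) : Prop :=
  ∀ s, DT act π N V s → s x = x

/-- c is a cocycle on the decomposition group of V over N with values in the points killed by the conjugate of π. -/
structure Dc (N : IntermediateField F Ω) (V : ValuationSubring Ω)
    (c : (Ω ≃ₐ[F] Ω) → Pt (WAB A B) Ω) : Prop where
  mul : ∀ s, DecN N V s → ∀ t, DecN N V t → c (s * t) = c s + ac (WAB A B) s (c t)
  val : ∀ s, DecN N V s → c s ∈ Tor act (cj π)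

/-- The y T are Kummer generators for c over the henselization. -/
structure KS (N : IntermediateField F Ω) (V : ValuationSubring Ω)
    (e : Pt (WAB A B) Ω → Pt (WAB A B) Ω → Ω)
    (c : (Ω ≃ₐ[F] Ω) → Pt (WAB A B) Ω) (y : Pt (WAB A B) Ω → Ω) : Prop where
  ne : ∀ T ∈ Tor act π, y T ≠ 0
  gal : ∀ T ∈ Tor act π, ∀ s, DT act π N V s → s (y T) = e (c s) T * y T

/-- An additive and equivariant system of elements of the henselization modulo l-th powers. -/
structure Sys (l : ℕ) (N : IntermediateField F Ω) (V : ValuationSubring Ω) (m : Pt (WAB A B) Ω → Ω) :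
    Prop where
  ne : ∀ T ∈ Tor act π, m T ≠ 0
  fx : ∀ T ∈ Tor act π, Hx act π N V (m T)
  add : ∀ T ∈ Tor act π, ∀ T' ∈ Tor act π, ∃ z, Hx act π N V z ∧ z ≠ 0 ∧ m (T + T') = m T * m T' * z ^ l
  gal : ∀ s, DecN N V s → ∀ T ∈ Tor act π, ∃ z, Hx act π N V z ∧ z ≠ 0 ∧
    m (ac (WAB A B) s T) = s (m T) * z ^ l

/-- The level: m is an l-th power times an element which differs from 1 by at most r. -/
def Lv (l : ℕ) (N : IntermediateField F Ω) (V : ValuationSubring Ω) (r : V.ValueGroup) (m : Ω) :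
    Prop :=
  ∃ z, Hx act π N V z ∧ z ≠ 0 ∧ V.valuation (m / z ^ l - 1) ≤ r

/-- The coefficient a of m at the level i, an element of N integral at V: m = z^l (1 + a t^i + smaller terms). -/
def Co (l : ℕ) (N : IntermediateField F Ω) (V : ValuationSubring Ω) (t : Ω) (i : ℕ) (m a : Ω) :
    Prop :=
  (a ∈ N ∧ V.valuation a ≤ 1) ∧
    ∃ z, Hx act π N V z ∧ z ≠ 0 ∧ V.valuation (m / z ^ l - 1 - a * t ^ i) ≤ V.valuation t ^ (i + 1)

end loc

/-- The ramified case: V lies above π, t is the parameter of a point killed by π, e0 (l - 1) = Nm π - 1. -/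
structure RB (A B : F) (Om : ℂ) (j : Ω →+* ℂ) (act : 𝓞 F →+* AddMonoid.End (Pt (WAB A B) Ω)) (mo : Ideal (𝓞 F))
    (ψ : Ideal (𝓞 F) →*₀ 𝓞 F) (π : 𝓞 F) (l : ℕ) (V : ValuationSubring Ω) (t : Ω) (e0 : ℕ) : Prop where
  D : Dat A B Om j act mo ψ π l
  above : vo V π < 1
  pt : ∃ T ∈ Tor act π, T ≠ 0 ∧ t = tt T
  e0 : e0 * (l - 1) = Nm π - 1

/-- The same with a base field N. -/
structure RV (A B : F) (Om : ℂ) (j : Ω →+* ℂ) (act : 𝓞 F →+* AddMonoid.End (Pt (WAB A B) Ω)) (mo : Ideal (𝓞 F))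
    (ψ : Ideal (𝓞 F) →*₀ 𝓞 F) (π : 𝓞 F) (l : ℕ) (N : IntermediateField F Ω) (V : ValuationSubring Ω) (t : Ω)
    (e0 : ℕ) : Prop where
  base : RB A B Om j act mo ψ π l V t e0
  nb : Nb l N

/-- The unramified case: V lies above cj π, π does not divide cj π. φ a Frobenius element over N, q the number of elements of the
residue field of N; φ acts on the points killed by π as n. -/
structure UV (A B : F) (Om : ℂ) (j : Ω →+* ℂ) (act : 𝓞 F →+* AddMonoid.End (Pt (WAB A B) Ω)) (mo : Ideal (𝓞 F))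
    (ψ : Ideal (𝓞 F) →*₀ 𝓞 F) (π : 𝓞 F) (l : ℕ) (N : IntermediateField F Ω) (V : ValuationSubring Ω)
    (φ : Ω ≃ₐ[F] Ω) (q n : ℕ) : Prop where
  D : Dat A B Om j act mo ψ π l
  nd : ¬ π ∣ cj π
  above : vo V (cj π) < 1
  nb : Nb l N
  dec : DecN N V φ
  ql : ∃ q' : ℕ, q = l * q' ∧ 0 < q'
  frob : ∀ x ∈ V, V.valuation (φ x - x ^ q) < 1
  gal : ∀ T ∈ Tor act π, ac (WAB A B) φ T = n • T
  n1 : ¬ l ∣ n
  rep : ∃ r : Fin q → Ω, (∀ i, r i ∈ N ∧ V.valuation (r i) ≤ 1) ∧
    ∀ i i', i ≠ i' → V.valuation (r i - r i') = 1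

/-- The output of the global part: an additive and equivariant system of elements of L = N(E[π]) whose orders are divisible by l
outside w, of level at least 2 above π, not all of them l-th powers. -/
structure GN (act : 𝓞 F →+* AddMonoid.End (Pt (WAB A B) Ω)) (π : 𝓞 F) (l : ℕ) (N L : IntermediateField F Ω)
    [NumberField N] [NumberField L] (w : HeightOneSpectrum (𝓞 N)) (m : Pt (WAB A B) Ω → (L)ˣ) : Prop where
  add : ∀ T ∈ Tor act π, ∀ T' ∈ Tor act π, ∃ z : (L)ˣ, m (T + T') = m T * m T' * z ^ l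
  gal : ∀ σ ∈ N.fixingSubgroup, ∀ T ∈ Tor act π, ∃ z : (L)ˣ,
    ((m (ac (WAB A B) σ T) : L) : Ω) = σ ((m T : L) : Ω) * ((z : L) : Ω) ^ l
  out : ∀ T ∈ Tor act π, ∀ (V : ValuationSubring Ω) (W : HeightOneSpectrum (𝓞 L)), Abv L V W →
    ¬ Abv N V w → (l : ℤ) ∣ H55R.ord W (m T)
  lev : ∀ T ∈ Tor act π, ∀ W : HeightOneSpectrum (𝓞 L),
    W.valuation L (algebraMap F L (π : F)) < 1 → ∃ z : (L)ˣ,
      W.valuation L (((m T * (z ^ l)⁻¹ : (L)ˣ) : L) - 1) ≤ WithZero.exp (-2 : ℤ)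
  nz : ∃ T ∈ Tor act π, ∀ z : (L)ˣ, m T ≠ z ^ l

/-- The global class over N. -/
structure Gl (A B : F) (Om : ℂ) (j : Ω →+* ℂ) (act : 𝓞 F →+* AddMonoid.End (Pt (WAB A B) Ω)) (mo : Ideal (𝓞 F))
    (ψ : Ideal (𝓞 F) →*₀ 𝓞 F) (π : 𝓞 F) (l : ℕ) (e : Pt (WAB A B) Ω → Pt (WAB A B) Ω → Ω)
    (N L : IntermediateField F Ω) [NumberField N] (w : HeightOneSpectrum (𝓞 N))
    (c : (Ω ≃ₐ[F] Ω) → Pt (WAB A B) Ω) (y : Pt (WAB A B) Ω → Ω) : Prop where
  D : Dat A B Om j act mo ψ π l
  nb : Nb l N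
  wl : (l : 𝓞 N) ∉ w.asIdeal
  fx : ∀ V : ValuationSubring Ω, Abv N V w → ∀ s, DecN N V s → ∀ T ∈ Tor act π, ac (WAB A B) s T = T
  tb : IsTB act π N L
  cc : Cc act π N c
  kum : ∀ T ∈ Tor act π, Kum L e c T (y T)
  out : ∀ V : ValuationSubring Ω, ¬ Abv N V w → ∀ T ∈ Tor act π, ∃ x ∈ L, x ≠ 0 ∧
    V.valuation (y T) = V.valuation x
  lev : ∀ V : ValuationSubring Ω, vo V π < 1 → ∀ T ∈ Tor act π, ∀ T₀ ∈ Tor act π, T₀ ≠ 0 →
    ∃ z ∈ L, z ≠ 0 ∧ V.valuation (y T ^ l / z ^ l - 1) ≤ V.valuation (tt T₀) ^ 2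
  nz : ∃ T ∈ Tor act π, ∀ z ∈ L, z ^ l ≠ y T ^ l

section small

variable {act : 𝓞 F →+* AddMonoid.End (Pt (WAB A B) Ω)} {π : 𝓞 F} {K L : IntermediateField F Ω}
  {c : (Ω ≃ₐ[F] Ω) → Pt (WAB A B) Ω}

theorem IsTB.mono (h : IsTB act π K L) {s : Ω ≃ₐ[F] Ω} (hs : s ∈ L.fixingSubgroup) : s ∈ K.fixingSubgroup :=
  ((h.fix s).1 hs).1

theorem Cc.one (h : Cc act π K c) : c 1 = 0 := by
  have h1 := h.mul 1 (Subgroup.one_mem _) 1 (Subgroup.one_mem _)
  rw [mul_one, ac_one] at h1
  exact left_eq_add.mp h1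

theorem Cc.inv (h : Cc act π K c) {s : Ω ≃ₐ[F] Ω} (hs : s ∈ K.fixingSubgroup) :
    ac (WAB A B) s (c s⁻¹) = -c s := by
  have h1 := h.mul s hs s⁻¹ (Subgroup.inv_mem _ hs)
  rw [mul_inv_cancel, h.one] at h1
  exact (neg_eq_of_add_eq_zero_right h1.symm).symm

end small

end H13X
end

-- from Lib.H55K.SKU2
section

/-! # H55K, part S: port of H13S/KU2 -/

open NumberField IsDedekindDomain WeierstrassCurve

namespace H55K.S

open H55P (IQ embF eF LF Per IsHecke Pt ac Inert Dec Nm)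
open H35P (WAB Ker tt)
open H13S (Abv)




variable {F : Type} [Field F] [NumberField F] [IQ F] {A B : F} {Om : ℂ} {Ω : Type} [Field Ω] [DecidableEq Ω]
  [Algebra F Ω] [IsAlgClosure F Ω] {j : Ω →+* ℂ} {act : 𝓞 F →+* AddMonoid.End (Pt (WAB A B) Ω)} {mo : Ideal (𝓞 F)}
  {ψ : Ideal (𝓞 F) →*₀ 𝓞 F}

variable {π : 𝓞 F} {l : ℕ} {c : (Ω ≃ₐ[F] Ω) → Pt (WAB A B) Ω} {e : Pt (WAB A B) Ω → Pt (WAB A B) Ω → Ω}
  {L : IntermediateField F Ω}

omit [IsAlgClosure F Ω] in
theorem ku2_ne (C : Cl A B Om j act mo ψ π l c) (he : Pairing A B act π l e) {X T : Pt (WAB A B) Ω} (hX : X ∈ Tor act (cj π))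
    (hT : T ∈ Tor act π) : e X T ≠ 0 := by
  intro h
  have h1 := he.root X hX T hT
  rw [h, zero_pow (by have := C.five; omega)] at h1
  exact zero_ne_one h1

omit [IsAlgClosure F Ω] in
theorem ku2_sub (C : Cl A B Om j act mo ψ π l c) (he : Pairing A B act π l e) {X Y T : Pt (WAB A B) Ω} (hX : X ∈ Tor act (cj π))
    (hY : Y ∈ Tor act (cj π)) (hT : T ∈ Tor act π) : e (X - Y) T = e X T / e Y T := by
  have h1 := he.add_left (X - Y) (sub_mem hX hY) Y hY T hT
  rw [sub_add_cancel] at h1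
  rw [h1, mul_div_assoc, div_self (ku2_ne C he hY hT), mul_one]

omit [IsAlgClosure F Ω] in
/-- conjugates of elements of the fixing subgroup -/
theorem ku2_conj (hA : CMA F A B Om j act) (hL : H55K.S.IsTF act π L) (σ : Ω ≃ₐ[F] Ω) {s : Ω ≃ₐ[F] Ω} (hs : s ∈ L.fixingSubgroup) :
    σ⁻¹ * s * σ ∈ L.fixingSubgroup := by
  rw [hL.2]
  intro T hT
  rw [ac_mul, ac_mul, (hL.2 s).1 hs _ (ac_mem hA σ hT), ← ac_mul, inv_mul_cancel, ac_one]

/-- Chunk KU2 (S/M), five small lemmas. The fixed field of L.fixingSubgroup is L (IsGalois F Ω: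
IsAlgClosure.isGalois, characteristic 0; InfiniteGalois / IntermediateField.fixedField_fixingSubgroup for algebraic Galois extensions). -/
theorem kum_pow (C : Cl A B Om j act mo ψ π l c) (he : Pairing A B act π l e) (hL : H55K.S.IsTF act π L) {T : Pt (WAB A B) Ω} (hT : T ∈ Tor act π) {y : Ω}
    (hy : Kum L e c T y) : ∃ m : L, (m : Ω) = y ^ l ∧ m ≠ 0 := by
  have h1 : y ^ l ∈ L := by
    apply ku2_mem
    intro s hs
    rw [map_pow, hy.2 s hs, mul_pow, he.root _ (C.val s) _ hT, one_mul]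
  refine ⟨⟨y ^ l, h1⟩, rfl, fun h => ?_⟩
  have h2 : y ^ l = 0 := congrArg (fun z : L => (z : Ω)) h
  exact pow_ne_zero l hy.1 h2

theorem kum_mul (C : Cl A B Om j act mo ψ π l c) (he : Pairing A B act π l e) (hL : H55K.S.IsTF act π L) {T T' : Pt (WAB A B) Ω} (hT : T ∈ Tor act π)
    (hT' : T' ∈ Tor act π) {y y' : Ω} (hy : Kum L e c T y) (hy' : Kum L e c T' y') :
    Kum L e c (T + T') (y * y') := by
  refine ⟨mul_ne_zero hy.1 hy'.1, fun s hs => ?_⟩
  rw [map_mul, hy.2 s hs, hy'.2 s hs, he.add_right _ (C.val s) _ hT _ hT']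
  ring

theorem kum_ratio (hL : H55K.S.IsTF act π L) {T : Pt (WAB A B) Ω} {y y' : Ω} (hy : Kum L e c T y) (hy' : Kum L e c T y') :
    ∃ z : L, z ≠ 0 ∧ y = (z : Ω) * y' := by
  have h1 : y / y' ∈ L := by
    apply ku2_mem
    intro s hs
    have h2 : e (c s) T ≠ 0 := by
      intro h3
      have h4 := hy.2 s hs
      rw [h3, zero_mul] at h4
      exact hy.1 ((map_eq_zero_iff s s.injective).1 h4)
    rw [map_div₀, hy.2 s hs, hy'.2 s hs, mul_div_mul_left _ _ h2]
  refine ⟨⟨y / y', h1⟩, fun h => ?_, ?_⟩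
  · have h2 : y / y' = 0 := congrArg (fun z : L => (z : Ω)) h
    exact div_ne_zero hy.1 hy'.1 h2
  · show y = y / y' * y'
    rw [div_mul_cancel₀ _ hy'.1]

/-- For s in L.fixingSubgroup also σ⁻¹ s σ is in it (IsTF: s fixes all points of Tor pi). s (σ y) = σ ((σ⁻¹ s σ) y) = σ (e (c (σ⁻¹ s σ)) T) σ y =
e (ac σ (c (σ⁻¹ s σ))) (ac σ T) σ y, and ac σ (c (σ⁻¹ s σ)) = c s + ac s (c σ) - c σ (cocycle identity, c 1 = 0). With g = e (c σ) (ac σ T): e (ac s (c σ)) (ac σ T) =
e (ac s (c σ)) (ac s (ac σ T)) = s g. -/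
theorem kum_act (C : Cl A B Om j act mo ψ π l c) (he : Pairing A B act π l e) (hL : H55K.S.IsTF act π L) (σ : Ω ≃ₐ[F] Ω) {T : Pt (WAB A B) Ω}
    (hT : T ∈ Tor act π) {y : Ω} (hy : Kum L e c T y) :
    Kum L e c (ac (WAB A B) σ T) (σ y / e (c σ) (ac (WAB A B) σ T)) := by
  have hA := C.cma
  have hT' := ac_mem hA σ hT
  have hg := ku2_ne C he (C.val σ) hT'
  have hy0 : σ y ≠ 0 := by
    rw [Ne, map_eq_zero_iff σ σ.injective]
    exact hy.1
  refine ⟨div_ne_zero hy0 hg, fun s hs => ?_⟩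
  have hs' := ku2_conj hA hL σ hs
  have e1 : σ * (σ⁻¹ * s * σ) = s * σ := by group
  have e2 : ac (WAB A B) σ (c (σ⁻¹ * s * σ)) = c s + ac (WAB A B) s (c σ) - c σ := by
    have h1 := C.mul σ (σ⁻¹ * s * σ)
    rw [e1, C.mul s σ] at h1
    rw [h1, add_sub_cancel_left]
  have e3 : s (σ y) = e (c s + ac (WAB A B) s (c σ) - c σ) (ac (WAB A B) σ T) * σ y := by
    have h1 : s (σ y) = σ ((σ⁻¹ * s * σ) y) := by
      show (s * σ) y = (σ * (σ⁻¹ * s * σ)) y
      rw [e1]
    rw [h1, hy.2 _ hs', map_mul, he.gal σ _ (C.val _) _ hT, e2]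
  have hXs := ac_mem hA s (C.val σ)
  have e4 : s (e (c σ) (ac (WAB A B) σ T)) = e (ac (WAB A B) s (c σ)) (ac (WAB A B) σ T) := by
    rw [he.gal s _ (C.val σ) _ hT', (hL.2 s).1 hs _ hT']
  have hg2 := ku2_ne C he hXs hT'
  rw [map_div₀, e3, e4, ku2_sub C he (add_mem (C.val s) hXs) (C.val σ) hT',
    he.add_left _ (C.val s) _ hXs _ hT']
  field_simp


end H55K.S
end

-- from Lib.H55K.K10
section

open NumberField IsDedekindDomain WeierstrassCurve

namespace H55K

open H55P (IQ embF eF LF Per IsHecke Pt ac Inert Dec Nm)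
open H35P (WAB Ker tt)
open H55R (Pl ord es fs smulP)

/-! Chunk K10 (M, many small, port of H28G/K14.lean). k10_arith: Nm π divides Nm l = l^2 (mul: Nm_mul, Nm_nat) and is > 1 (π is not a unit), so Nm π ≥ l ≥ 5. k10_below: v = w.under (𝓞 F) contains π, (π) is maximal. k10_val: v.intValuation_singleton. k10_card: 𝓞 F/(π) ≃ k, absNorm. chi_bij: Nat.card Gal(L/F) = finrank = Nm π - 1 = card kˣ
(deg) and χ is injective: χ σ = 1 = q 1 gives ac s R = act 1 R = R for an extension s, R in Tor act π, so Fxd L s (hL.gen; s fixes F) and σ = 1 (lft_fxd). k10_fin: primes of L above the finite set S (H55K.A.D5: d5_above, or finite by above_finite of H55R).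
k10_cyc: the condition of main_abs for ζ in L: if the displayed condition holds for ζ then for s in Gal(Ω/F) and n with ac s T = n • T on Tor act π: σ = restriction (exists_res for K = F; IsGalois F L), χ σ = c with act c T = n • T for a nonzero T, so c = n mod π (tor_zero), σ ζ = ζ^n; every ζ' with ζ'^l = 1 in Ω is a power of the image of ζ
(IsPrimitiveRoot.eq_pow_of_pow_eq_one, map_of_injective), so s ζ' = ζ'^n: contradiction to hcyc. -/

variable {F : Type} [Field F] [NumberField F] [IQ F] {A B : F} {Om : ℂ} {Ω : Type} [Field Ω] [DecidableEq Ω]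
  [Algebra F Ω] {j : Ω →+* ℂ} {act : 𝓞 F →+* AddMonoid.End (Pt (WAB A B) Ω)}
  {L : Type} [Field L] [NumberField L] [Algebra F L] [Algebra L Ω] [IsScalarTower F L Ω]

theorem k10_arith {l : ℕ} (hl : l.Prime) (h5 : 5 ≤ l) {π : 𝓞 F} (hp : Prime π) (hd : π ∣ (l : 𝓞 F)) :
    4 < Nm π := by
  obtain ⟨c, hc⟩ := hd
  have h1 : Nm π * Nm c = l ^ 2 := by rw [← Nm_mul, ← hc, Nm_nat]
  have h2 : Nm π ≠ 1 := by
    intro h
    apply hp.not_unit
    unfold H55P.Nm at h
    rw [Ideal.absNorm_eq_one_iff, Ideal.span_singleton_eq_top] at h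
    exact h
  have h3 : Nm π ∣ l ^ 2 := ⟨_, h1.symm⟩
  obtain ⟨i, hi, hi'⟩ := (Nat.dvd_prime_pow hl).1 h3
  have h4 : i ≠ 0 := by
    rintro rfl
    exact h2 (by rw [hi', pow_zero])
  have h5 : l ^ 1 ≤ l ^ i := Nat.pow_le_pow_right hl.pos (by omega)
  rw [pow_one] at h5
  omega

theorem k10_below {π : 𝓞 F} (hp : Prime π) (w : Pl L) (hw : algebraMap (𝓞 F) (𝓞 L) π ∈ w.asIdeal) :
    (w.under (𝓞 F)).asIdeal = Ideal.span {π} := by
  have h1 : (Ideal.span {π}).IsMaximal := by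
    have h1 : (Ideal.span {π}).IsPrime := (Ideal.span_singleton_prime hp.ne_zero).2 hp
    exact h1.isMaximal (by rw [Ne, Ideal.span_singleton_eq_bot]; exact hp.ne_zero)
  refine (h1.eq_of_le (w.under (𝓞 F)).isPrime.ne_top ?_).symm
  rw [Ideal.span_singleton_le_iff_mem]
  exact hw

theorem k10_val {π : 𝓞 F} (hp : Prime π) (v : Pl F) (hv : v.asIdeal = Ideal.span {π}) :
    v.valuation F (algebraMap F F (π : F)) = WithZero.exp (-1 : ℤ) := by
  have h1 : algebraMap F F (π : F) = algebraMap (𝓞 F) F π := rfl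
  rw [h1, HeightOneSpectrum.valuation_of_algebraMap]
  exact HeightOneSpectrum.intValuation_singleton v hp.ne_zero hv

theorem k10_card {π : 𝓞 F} {k : Type} [Field k] (q : 𝓞 F →+* k) (hq : Function.Surjective q)
    (hk : ∀ x, q x = 0 ↔ π ∣ x) : Nat.card k = Nm π := by
  have h1 : RingHom.ker q = Ideal.span {π} := by
    ext x
    rw [RingHom.mem_ker, hk, Ideal.mem_span_singleton]
  have h2 : Nat.card (𝓞 F ⧸ RingHom.ker q) = Nat.card k :=
    Nat.card_congr (RingHom.quotientKerEquivOfSurjective hq).toEquiv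
  rw [← h2, h1]
  unfold H55P.Nm
  rw [Ideal.absNorm_apply, Submodule.cardQuot_apply]

theorem chi_bij [IsAlgClosure F Ω] (h : CMA F A B Om j act) {π : 𝓞 F} (hp : Prime π) (hL : TFld act F L π)
    (hdeg : Module.finrank F L = Nm π - 1) {k : Type} [Field k] [Fintype k] (q : 𝓞 F →+* k)
    (hq : Function.Surjective q) (hk : ∀ x, q x = 0 ↔ π ∣ x) (χ : Gal(L/F) →* kˣ)
    (hχ : ∀ (σ : Gal(L/F)) (s : Ω ≃ₐ[F] Ω) (c : 𝓞 F), Lft σ s → q c = χ σ → ∀ R ∈ Tor act π,
      ac (WAB A B) s R = act c R) : Function.Bijective χ := by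
  classical
  have hgal : IsGalois F L := hL.gal
  have hfin : Finite kˣ := inferInstance
  rw [Nat.bijective_iff_injective_and_card]
  constructor
  · rw [injective_iff_map_eq_one]
    intro σ hσ
    obtain ⟨s, hs⟩ := exists_lft (F := F) (Ω := Ω) σ
    rw [← lft_fxd hs]
    refine hL.gen s (fun x => s.commutes x) fun R hR => ?_
    rw [hχ σ s 1 hs (by rw [hσ, map_one, Units.val_one]) R hR, map_one]
    rfl
  · rw [IsGalois.card_aut_eq_finrank, hdeg, ← k10_card q hq hk, Nat.card_units]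

theorem k10_fin [IsGalois F L] {S : Set (Pl F)} (hS : S.Finite) : {Q : Pl L | Q.under (𝓞 F) ∈ S}.Finite := by
  have h1 : {Q : Pl L | Q.under (𝓞 F) ∈ S} = ⋃ v ∈ S, {W : Pl L | W.under (𝓞 F) = v} := by
    ext W
    simp only [Set.mem_ofPred_eq, Set.mem_iUnion, exists_prop, exists_eq_right']
  rw [h1]
  exact hS.biUnion fun v _ => H55R.above_finite v

theorem k10_cyc [IsAlgClosure F Ω] (h : CMA F A B Om j act) {l : ℕ} (hl : l.Prime) {π : 𝓞 F} (hp : Prime π)
    (hL : TFld act F L π) {k : Type} [Field k] [CharP k l] (q : 𝓞 F →+* k) (hq : Function.Surjective q)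
    (hk : ∀ x, q x = 0 ↔ π ∣ x) (χ : Gal(L/F) →* kˣ)
    (hχ : ∀ (σ : Gal(L/F)) (s : Ω ≃ₐ[F] Ω) (c : 𝓞 F), Lft σ s → q c = χ σ → ∀ R ∈ Tor act π,
      ac (WAB A B) s R = act c R)
    (hcyc : ¬ ∀ (s : Ω ≃ₐ[F] Ω) (n : ℕ), (∀ T ∈ Tor act π, ac (WAB A B) s T = n • T) →
      ∀ ζ : Ω, ζ ^ l = 1 → s ζ = ζ ^ n) (ζ : Lˣ) (hζ : IsPrimitiveRoot ζ l) :
    ¬ ∀ (σ : Gal(L/F)) (n : ℕ), (n : k) = χ σ → Ab.gu σ ζ = ζ ^ n := by
  classical
  have hgal : IsGalois F L := hL.gal
  intro hcon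
  apply hcyc
  intro s n hn ζ' hζ'
  obtain ⟨σ, hσ⟩ := exists_res (K := F) (N := L) s (fun x => s.commutes x)
  obtain ⟨T, hT, h0⟩ := exists_tor h hp
  have hl0 : NeZero l := ⟨hl.ne_zero⟩
  -- the value of the character
  obtain ⟨c, hc⟩ := hq (χ σ : k)
  have h1 := hχ σ s c hσ hc T hT
  rw [hn T hT] at h1
  have h2 : act (c - n) T = 0 := by
    rw [map_sub, map_natCast]
    show act c T - ((n : AddMonoid.End (Pt (WAB A B) Ω)) T) = 0
    rw [AddMonoid.End.natCast_apply, h1, sub_self]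
  rw [tor_zero h hp hT h0, ← hk, map_sub, map_natCast, hc] at h2
  have h3 : (n : k) = χ σ := (sub_eq_zero.1 h2).symm
  have h4 := hcon σ n h3
  -- the roots of unity
  have hinj : Function.Injective (algebraMap L Ω) := (algebraMap L Ω).injective
  have hζ1 : IsPrimitiveRoot (ζ : L) l := IsPrimitiveRoot.coe_units_iff.2 hζ
  have hζ2 : IsPrimitiveRoot (algebraMap L Ω (ζ : L)) l := hζ1.map_of_injective hinj
  obtain ⟨i, -, hi⟩ := hζ2.eq_pow_of_pow_eq_one hζ'
  have h5 : s (algebraMap L Ω (ζ : L)) = algebraMap L Ω (ζ : L) ^ n := by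
    rw [hσ, ← map_pow]
    congr 1
    have h6 := congrArg Units.val h4
    rw [Ab.gu_apply, Units.val_pow_eq_pow_val] at h6
    exact h6
  rw [← hi, map_pow, h5, ← pow_mul, ← pow_mul, mul_comm]

end H55K
end

-- from Lib.H55K.SKU1
section

/-! # H55K, part S: port of H13S/KU1 -/

open NumberField IsDedekindDomain WeierstrassCurve

namespace H55K.S

open H55P (IQ embF eF LF Per IsHecke Pt ac Inert Dec Nm)
open H35P (WAB Ker tt)
open H13S (Abv)




variable {F : Type} [Field F] [NumberField F] [IQ F] {A B : F} {Om : ℂ} {Ω : Type} [Field Ω] [DecidableEq Ω]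
  [Algebra F Ω] [IsAlgClosure F Ω] {j : Ω →+* ℂ} {act : 𝓞 F →+* AddMonoid.End (Pt (WAB A B) Ω)} {mo : Ideal (𝓞 F)}
  {ψ : Ideal (𝓞 F) →*₀ 𝓞 F}

/-- Chunk KU1 (M). Kummer generators by Hilbert 90. E₁ = the field of C.cont; zeta = a primitive l-th root of unity; N = normal closure over F of the compositum of
E₁, L, F(zeta): finite Galois over F, N ≥ L. For n in N.fixingSubgroup: c n = 0; so c (s n) = c s. For s in L.fixingSubgroup put u s = e (c s) T: an l-th root of
unity (he.root, C.val), in N. u (s t) = e (c s + ac s (c t)) T = u s * e (ac s (c t)) (ac s T) = u s * s (u t), because ac s T = T (IsTF), he.add_left, he.gal. So u induces a multiplicative 1-cocycle of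
Gal(N/L) (elements of Gal(N/L) lift to L.fixingSubgroup, u does not depend on the lift) with values in N^*. Hilbert 90
(groupCohomology.isMulCoboundary₁_of_isMulCocycle₁_of_aut_to_units, or Dedekind independence by hand) gives y in N^* with s y = u s * y. -/
theorem exists_kum {π : 𝓞 F} {l : ℕ} {c : (Ω ≃ₐ[F] Ω) → Pt (WAB A B) Ω} (C : Cl A B Om j act mo ψ π l c) {e : Pt (WAB A B) Ω → Pt (WAB A B) Ω → Ω}
    (he : Pairing A B act π l e) {L : IntermediateField F Ω} (hL : H55K.S.IsTF act π L) {T : Pt (WAB A B) Ω} (hT : T ∈ Tor act π) :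
    ∃ y : Ω, Kum L e c T y := by
  classical
  have hA := C.cma
  obtain ⟨E₁, hE₁, hc₁⟩ := C.cont
  have hNF : Normal F Ω := IsAlgClosure.normal F Ω
  have hNL : Normal L Ω := Normal.tower_top_of_normal F L Ω
  let b := Module.finBasis F E₁
  let S : Set Ω := Set.range (fun i => ((b i : E₁) : Ω)) ∪ {x : Ω | x ^ l = 1}
  have hl0 : 0 < l := C.hl.pos
  have hfr : {x : Ω | x ^ l = 1}.Finite := by
    have h1 := (Polynomial.nthRoots l (1 : Ω)).toFinset.finite_toSet
    refine h1.subset fun x hx => ?_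
    rw [Finset.mem_coe, Multiset.mem_toFinset, Polynomial.mem_nthRoots hl0]
    exact hx
  have hSf : Finite S := ((Set.finite_range _).union hfr).to_subtype
  -- the inclusion of the automorphism groups
  have hmem : ∀ s : Ω ≃ₐ[L] Ω, s.restrictScalars F ∈ L.fixingSubgroup := by
    intro s
    rw [IntermediateField.mem_fixingSubgroup_iff]
    intro x hx
    exact s.commutes ⟨x, hx⟩
  have hacT : ∀ s : Ω ≃ₐ[L] Ω, ac (WAB A B) (s.restrictScalars F) T = T := fun s =>
    (hL.2 _).1 (hmem s) T hT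
  have h0 : ∀ s : Ω ≃ₐ[L] Ω, e (c (s.restrictScalars F)) T ≠ 0 := by
    intro s h0
    have h1 := he.root _ (C.val (s.restrictScalars F)) T hT
    rw [h0, zero_pow hl0.ne'] at h1
    exact zero_ne_one h1
  have hcoc : ∀ s t : Ω ≃ₐ[L] Ω, e (c ((s * t).restrictScalars F)) T =
      e (c (s.restrictScalars F)) T * s (e (c (t.restrictScalars F)) T) := by
    intro s t
    have h1 : (s * t).restrictScalars F = s.restrictScalars F * t.restrictScalars F := rfl
    rw [h1, C.mul, he.add_left _ (C.val _) _ (ac_mem hA _ (C.val _)) T hT]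
    congr 1
    have h2 := he.gal (s.restrictScalars F) _ (C.val (t.restrictScalars F)) T hT
    rw [hacT] at h2
    exact h2.symm
  have htriv : ∀ n : Ω ≃ₐ[L] Ω, (∀ x ∈ S, n x = x) → e (c (n.restrictScalars F)) T = 1 := by
    intro n hn
    have h1 : n.restrictScalars F ∈ E₁.fixingSubgroup := by
      rw [IntermediateField.mem_fixingSubgroup_iff]
      intro x hx
      have h2 := b.sum_repr ⟨x, hx⟩
      have h3 : x = ∑ i, (b.repr ⟨x, hx⟩ i) • ((b i : E₁) : Ω) := by
        have h4 := congrArg (fun z : E₁ => (z : Ω)) h2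
        refine h4.symm.trans ?_
        push_cast
        rfl
      rw [h3, map_sum]
      refine Finset.sum_congr rfl fun i _ => ?_
      rw [map_smul]
      congr 1
      exact hn _ (Or.inl ⟨i, rfl⟩)
    have h2 := hc₁ _ h1
    rw [h2]
    have h3 := he.add_left 0 (zero_mem _) 0 (zero_mem _) T hT
    rw [add_zero] at h3
    have h4 := he.root 0 (zero_mem _) T hT
    have h5 : e 0 T ≠ 0 := by
      intro h0
      rw [h0, zero_pow hl0.ne'] at h4
      exact zero_ne_one h4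
    exact (mul_eq_left₀ h5).1 h3.symm
  obtain ⟨y, hy0, hy⟩ := H13S.ku1_h90 (k := L) (Ω := Ω) (fun s => e (c (s.restrictScalars F)) T) h0 hcoc S
    (fun s => Or.inr (he.root _ (C.val _) T hT)) htriv
  refine ⟨y, hy0, fun s hs => ?_⟩
  exact hy (IntermediateField.fixingSubgroupEquiv L ⟨s, hs⟩)

end H55K.S
end

-- from Lib.H55K.K1A
section

open NumberField IsDedekindDomain WeierstrassCurve

namespace H55K

open H55P (IQ embF eF LF Per IsHecke Pt ac Inert Dec Nm)
open H35P (WAB Ker tt)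
open H55R (Pl ord es fs smulP)

/-! Chunk K1A (M, port of H28G/K1.lean). exists_TFld: Ω is an algebraic closure of F, K a number field inside Ω. N = IntermediateField.adjoin K S, S = the set of the coordinates xc, yc of the points of Tor act b, finite (exists_TN: the nonzero points form a Finset; the
coordinates of 0 are 0). N/K is finite, normal (every K-automorphism of Ω, restricted to scalars F, maps Tor act b to itself: ac_tor, and xc_ac, yc_ac). gen: s with Fxd K s, fixing the points of Tor act b, fixes S (xc_ac: s (xc T) = xc (ac s T)) and K, so it fixes N: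
IntermediateField.adjoin_induction or algHom_ext_of_eq_adjoin.
tfld_of_istf: L : IntermediateField F Ω with IsTF act π L. crd: a coordinate of T in Tor act π is fixed by all s in L.fixingSubgroup, so it is in fixedField (fixingSubgroup L) = L (InfiniteGalois.fixedField_fixingSubgroup, IsAlgClosure.isGalois F Ω). gal: L is normal over F:
IntermediateField.normal_iff_forall_map_le': for s and x in L: t (s x) = s (s⁻¹ t s x) and s⁻¹ t s fixes the points of Tor act π (ac_mul, ac_tor) so it is in L.fixingSubgroup. gen: clear (Fxd L s iff s in L.fixingSubgroup). -/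

variable {F : Type} [Field F] [NumberField F] [IQ F] {A B : F} {Om : ℂ} {Ω : Type} [Field Ω] [DecidableEq Ω]
  [Algebra F Ω] {j : Ω →+* ℂ} {act : 𝓞 F →+* AddMonoid.End (Pt (WAB A B) Ω)}

theorem exists_TFld [IsAlgClosure F Ω] (h : CMA F A B Om j act) (K : Type) [Field K] [NumberField K]
    [Algebra F K] [Algebra K Ω] [IsScalarTower F K Ω] {b : 𝓞 F} (hb : b ≠ 0) :
    ∃ (N : Type) (_ : Field N) (_ : NumberField N) (_ : Algebra F N) (_ : Algebra K N) (_ : Algebra N Ω)
      (_ : IsScalarTower F K N) (_ : IsScalarTower K N Ω) (_ : IsScalarTower F N Ω), TFld act K N b := by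
  classical
  have hcl : IsAlgClosed Ω := IsAlgClosure.isAlgClosed F
  have halF : Algebra.IsAlgebraic F Ω := IsAlgClosure.isAlgebraic
  have halK : Algebra.IsAlgebraic K Ω := Algebra.IsAlgebraic.tower_top (K := F) K
  set S : Set Ω := {x | ∃ R ∈ Tor act b, x = xc R ∨ x = yc R} with hS
  have hSfin : S.Finite := by
    obtain ⟨T, hT, -⟩ := exists_TN h hb
    have h1 : ((insert 0 T : Finset (Pt (WAB A B) Ω)).image fun R => xc R).finite_toSet.union
      ((insert 0 T : Finset (Pt (WAB A B) Ω)).image fun R => yc R).finite_toSet = _ := rfl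
    refine (((insert 0 T : Finset (Pt (WAB A B) Ω)).image fun R => xc R).finite_toSet.union
      ((insert 0 T : Finset (Pt (WAB A B) Ω)).image fun R => yc R).finite_toSet).subset ?_
    rintro x ⟨R, hR, hx⟩
    have hRT : R ∈ (insert 0 T : Finset (Pt (WAB A B) Ω)) := by
      by_cases h0 : R = 0
      · rw [h0]
        exact Finset.mem_insert_self _ _
      · exact Finset.mem_insert_of_mem ((hT R).2 ⟨hR, h0⟩)
    rcases hx with hx | hx
    · left
      rw [hx]
      exact Finset.mem_coe.2 (Finset.mem_image_of_mem _ hRT)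
    · right
      rw [hx]
      exact Finset.mem_coe.2 (Finset.mem_image_of_mem _ hRT)
  let N : IntermediateField K Ω := IntermediateField.adjoin K S
  have hNfin : FiniteDimensional K N := by
    have h1 : Finite S := hSfin.to_subtype
    exact IntermediateField.finiteDimensional_adjoin fun x _ =>
      (Algebra.IsAlgebraic.isAlgebraic (R := K) x).isIntegral
  have hNn : NumberField N := NumberField.of_module_finite K N
  have hnΩ : Normal K Ω := normal_iff.2 fun x =>
    ⟨(Algebra.IsAlgebraic.isAlgebraic (R := K) x).isIntegral, IsAlgClosed.splits _⟩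
  have hmap : ∀ s : Gal(Ω/K), (s : Ω → Ω) '' S ⊆ S := by
    rintro s _ ⟨x, ⟨R, hR, hx⟩, rfl⟩
    refine ⟨ac (WAB A B) (s.restrictScalars F) R, ac_tor h _ hR, ?_⟩
    rcases hx with hx | hx
    · left
      rw [xc_ac, hx]
      rfl
    · right
      rw [yc_ac, hx]
      rfl
  have hnN : Normal K N := by
    rw [IntermediateField.normal_iff_forall_map_le']
    intro s
    show (IntermediateField.adjoin K S).map _ ≤ IntermediateField.adjoin K S
    rw [IntermediateField.adjoin_map]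
    exact IntermediateField.adjoin.mono _ _ _ (hmap s)
  refine ⟨N, inferInstance, hNn, inferInstance, inferInstance, inferInstance, inferInstance, inferInstance,
    IsScalarTower.of_algebraMap_eq fun _ => rfl, ?_⟩
  refine ⟨⟨⟩, ?_, ?_⟩
  · intro T hT
    exact ⟨⟨xc T, IntermediateField.subset_adjoin _ _ ⟨T, hT, Or.inl rfl⟩⟩,
      ⟨yc T, IntermediateField.subset_adjoin _ _ ⟨T, hT, Or.inr rfl⟩⟩, rfl, rfl⟩
  · intro s hs hfix x
    show s (x : Ω) = (x : Ω)
    have key : ∀ y ∈ IntermediateField.adjoin K S, s y = y := by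
      intro y hy
      induction hy using IntermediateField.adjoin_induction with
      | mem y hy =>
        obtain ⟨R, hR, hy⟩ := hy
        rcases hy with hy | hy
        · rw [hy, ← xc_ac, hfix R hR]
        · rw [hy, ← yc_ac, hfix R hR]
      | algebraMap y => exact hs y
      | add y z _ _ h1 h2 => rw [map_add, h1, h2]
      | inv y _ h1 => rw [map_inv₀, h1]
      | mul y z _ _ h1 h2 => rw [map_mul, h1, h2]
    exact key x x.2

theorem tfld_of_istf [IsAlgClosure F Ω] (h : CMA F A B Om j act) {π : 𝓞 F} {L : IntermediateField F Ω}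
    (hL : IsTF act π L) : TFld act F L π := by
  have hg : IsGalois F Ω := IsAlgClosure.isGalois F Ω
  have hL1 := hL.1
  have hmem : ∀ x : Ω, (∀ s : Ω ≃ₐ[F] Ω, s ∈ L.fixingSubgroup → s x = x) → x ∈ L := by
    intro x hx
    have h1 : x ∈ IntermediateField.fixedField L.fixingSubgroup := by
      rw [IntermediateField.mem_fixedField_iff]
      exact hx
    rwa [InfiniteGalois.fixedField_fixingSubgroup] at h1
  have hn : Normal F L := by
    rw [IntermediateField.normal_iff_forall_map_le']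
    rintro s _ ⟨x, hx, rfl⟩
    apply hmem
    intro t ht
    show t (s x) = s x
    have h2 : s⁻¹ * t * s ∈ L.fixingSubgroup := by
      rw [hL.2]
      intro T hT
      rw [k2_ac_mul, k2_ac_mul, (hL.2 t).1 ht _ (ac_tor h s hT), k2_ac_inv]
    have h3 : (s⁻¹ * t * s) x = x := (IntermediateField.mem_fixingSubgroup_iff L _).1 h2 x hx
    have h4 : s ((s⁻¹ * t * s) x) = t (s x) := by
      show s (s.symm (t (s x))) = t (s x)
      rw [s.apply_symm_apply]
    rw [← h4, h3]
  refine ⟨⟨⟩, ?_, ?_⟩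
  · intro T hT
    have hx : xc T ∈ L := hmem _ fun s hs => by rw [← xc_ac, (hL.2 s).1 hs T hT]
    have hy : yc T ∈ L := hmem _ fun s hs => by rw [← yc_ac, (hL.2 s).1 hs T hT]
    exact ⟨⟨xc T, hx⟩, ⟨yc T, hy⟩, rfl, rfl⟩
  · intro s _ hfix x
    have h1 : s ∈ L.fixingSubgroup := (hL.2 s).2 hfix
    exact (IntermediateField.mem_fixingSubgroup_iff L _).1 h1 x x.2

end H55K
end

-- from Lib.H28G.K9
section

open NumberField IsDedekindDomain WeierstrassCurve

namespace H28G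

open H55B H55R H99B

/-! Chunk K9 (M): the Frobenius at Q acts as β. lift_val: x in L with Q.valuation L x < 1 (or = 1, <= 1): the same for W.valuation B (algebraMap L B x) (HeightOneSpectrum.valuation_liesOver: v_Q(x)^e = v_W(x), or ord_map with BF1_val; e >= 1), W above Q.
fix_T: if T = 0 clear. W above Q in B (under_exists), v = W.valuation B, T' = mp i T, i : L -> B (IsScalarTower.toAlgHom F L B), T' <> 0, act c T' = mp i (act c T). 3 and b are not in W (W.under = Q, algebraMap O (𝓞 B) = composition), T' is W-integral (tor_int). j from exists_emb. v(ak B β) < 1 (lift_val, ak B β = algebraMap L B (ak L β)).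
kron j for β: xc(act β T') = xc(T')^(Nm β) mod W, same for yc. x = xc T in L is Q-integral (tor_int): x^(absNorm Q) - x has Q-valuation < 1: x = a/s, a, s in 𝓞 L, s not in Q; in the finite field 𝓞 L/Q with absNorm Q elements y^(absNorm Q) = y (FiniteField.pow_card). So xc(act β T') = xc T' mod W, same for yc,
fix_of_cong (act β T' is in Tor b and <> 0): act β T' = T'. mp i is injective. -/

section
variable {L B : Type} [Field L] [NumberField L] [Field B] [NumberField B] [Algebra L B]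


theorem lift_lt (Q : Pl L) (W : Pl B) (hW : W.under (𝓞 L) = Q) (x : L)
    (h : Q.valuation L x < 1) : W.valuation B (algebraMap L B x) < 1 := by
  have hl : W.asIdeal.LiesOver Q.asIdeal := (BF2_mem Q W hW).2
  have hp := Q.isPrime
  have hWp := W.isPrime
  rw [← HeightOneSpectrum.valuation_liesOver B Q W x]
  exact pow_lt_one' h (Ideal.IsDedekindDomain.ramificationIdx'_ne_zero_of_liesOver W.asIdeal Q.ne_bot)

theorem K9_mem (Q : Pl L) (W : Pl B) (hW : W.under (𝓞 L) = Q) (x : 𝓞 L) (y : 𝓞 B)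
    (hxy : (y : B) = algebraMap L B (x : L)) (h : x ∉ Q.asIdeal) : y ∉ W.asIdeal := by
  intro h1
  apply h
  rw [← hW]
  show algebraMap (𝓞 L) (𝓞 B) x ∈ W.asIdeal
  have e : algebraMap (𝓞 L) (𝓞 B) x = y := RingOfIntegers.ext hxy.symm
  rw [e]
  exact h1

end

theorem K9_frob {L : Type} [Field L] [NumberField L] (Q : Pl L) (y : 𝓞 L) :
    y ^ Ideal.absNorm Q.asIdeal - y ∈ Q.asIdeal := by
  have hmax := Q.isMaximal
  let _ : Field (𝓞 L ⧸ Q.asIdeal) := Ideal.Quotient.field Q.asIdeal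
  have hfin : Finite (𝓞 L ⧸ Q.asIdeal) := Ideal.finiteQuotientOfFreeOfNeBot Q.asIdeal Q.ne_bot
  have := Fintype.ofFinite (𝓞 L ⧸ Q.asIdeal)
  have hc : Fintype.card (𝓞 L ⧸ Q.asIdeal) = Ideal.absNorm Q.asIdeal := by
    rw [Ideal.absNorm_apply, Submodule.cardQuot_apply, Nat.card_eq_fintype_card]
  rw [← Ideal.Quotient.eq, map_pow, ← hc]
  exact FiniteField.pow_card _

theorem pow_norm {L : Type} [Field L] [NumberField L] (Q : Pl L) (x : L) (h : Q.valuation L x ≤ 1) :
    Q.valuation L (x ^ Ideal.absNorm Q.asIdeal - x) < 1 := by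
  obtain ⟨n, d, hnd⟩ := HeightOneSpectrum.exists_primeCompl_mul_eq_of_integer Q x h
  have hd : (d : 𝓞 L) ∉ Q.asIdeal := d.2
  have hd1 : Q.valuation L (algebraMap (𝓞 L) L (d : 𝓞 L)) = 1 :=
    (HeightOneSpectrum.valuation_eq_one_iff_notMem (K := L) Q).2 hd
  have hd0 : (algebraMap (𝓞 L) L (d : 𝓞 L)) ≠ 0 := by
    intro h0
    rw [h0, map_zero] at hd1
    exact zero_ne_one hd1
  have hx : x = algebraMap (𝓞 L) L n / algebraMap (𝓞 L) L (d : 𝓞 L) := (eq_div_iff hd0).2 hnd
  set N := Ideal.absNorm Q.asIdeal with hN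
  have e : x ^ N - x = (algebraMap (𝓞 L) L (n ^ N - n) * algebraMap (𝓞 L) L (d : 𝓞 L) -
      algebraMap (𝓞 L) L n * algebraMap (𝓞 L) L ((d : 𝓞 L) ^ N - d)) /
      ((algebraMap (𝓞 L) L (d : 𝓞 L)) ^ N * algebraMap (𝓞 L) L (d : 𝓞 L)) := by
    rw [hx, map_sub, map_sub, map_pow, map_pow, div_pow]
    field_simp
    ring
  have hlt : ∀ a : 𝓞 L, a ∈ Q.asIdeal → Q.valuation L (algebraMap (𝓞 L) L a) < 1 := fun a ha =>
    (HeightOneSpectrum.valuation_lt_one_iff_mem (K := L) Q a).2 ha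
  rw [e, map_div₀, map_mul, map_pow, hd1, one_pow, one_mul, div_one]
  refine (Q.valuation L).map_sub_lt ?_ ?_
  · rw [map_mul, hd1, mul_one]
    exact hlt _ (K9_frob Q n)
  · exact GV7_mul_lt _ (Q.valuation_le_one n) (hlt _ (K9_frob Q _))

theorem K9_cong {k : Type} [Field k] {Γ : Type} [LinearOrderedCommGroupWithZero Γ] (v : Valuation k Γ)
    {a b c : k} (h1 : v (a - b) < 1) (h2 : v (b - c) < 1) : v (a - c) < 1 := by
  have e : a - c = (a - b) + (b - c) := by ring
  rw [e]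
  exact v.map_add_lt h1 h2

theorem fix_T {L B : Type} [Field L] [NumberField L] [DecidableEq L] [Field B] [NumberField B]
    [DecidableEq B] [Algebra F L] [Algebra L B] [Algebra F B] [IsScalarTower F L B] {β : O}
    (hp : Prime β) (hβ : Prim β) (hB : Full β B) (Q : Pl L) (h3 : (3 : 𝓞 L) ∉ Q.asIdeal)
    (hN : Nm β = Ideal.absNorm Q.asIdeal) (hv : Q.valuation L (ak L β) < 1) {b : O}
    (hb : algebraMap O (𝓞 L) b ∉ Q.asIdeal) {T : P27 L} (hT : T ∈ Tor b L) : act β T = T := by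
  by_cases h0 : T = 0
  · rw [h0]
    exact map_zero _
  obtain ⟨W, hW⟩ := under_exists (L := B) Q
  obtain ⟨j⟩ := exists_emb (N := B)
  let i : L →ₐ[F] B := IsScalarTower.toAlgHom F L B
  have hi : ∀ x : L, i x = algebraMap L B x := fun x => rfl
  have hak : ∀ c : O, ak B c = algebraMap L B (ak L c) := fun c =>
    IsScalarTower.algebraMap_apply F L B (c : F)
  have hT0 : mp i T ≠ 0 := mp_ne i h0
  have hTor : mp i T ∈ Tor b B := (mp_mem_Tor i b T).2 hT
  have hb' : algebraMap O (𝓞 B) b ∉ W.asIdeal := by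
    refine K9_mem Q W hW _ _ ?_ hb
    rw [← ak_int, ← ak_int]
    exact hak b
  have h3' : (3 : 𝓞 B) ∉ W.asIdeal := by
    refine K9_mem Q W hW 3 3 ?_ h3
    show ((3 : 𝓞 B) : B) = algebraMap L B ((3 : 𝓞 L) : L)
    have e1 : ((3 : 𝓞 B) : B) = 3 := map_ofNat (algebraMap (𝓞 B) B) 3
    have e2 : ((3 : 𝓞 L) : L) = 3 := map_ofNat (algebraMap (𝓞 L) L) 3
    rw [e1, e2, map_ofNat]
  have hint : W.valuation B (xc (mp i T)) ≤ 1 := tor_int W hb' hTor hT0
  have hv' : W.valuation B (ak B β) < 1 := by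
    rw [hak]
    exact lift_lt Q W hW _ hv
  obtain ⟨k1, k2, k3, k4⟩ := kron (W.valuation B) j hp hβ hB hv' hT0 hint
  have hx : Q.valuation L (xc T) ≤ 1 := tor_int Q hb hT h0
  have hy : Q.valuation L (yc T) ≤ 1 := int_y (Q.valuation L) hx
  have hpx : W.valuation B (xc (mp i T) ^ Nm β - xc (mp i T)) < 1 := by
    rw [xc_mp, hN, hi, ← map_pow, ← map_sub]
    exact lift_lt Q W hW _ (pow_norm Q _ hx)
  have hpy : W.valuation B (yc (mp i T) ^ Nm β - yc (mp i T)) < 1 := by
    rw [yc_mp, hN, hi, ← map_pow, ← map_sub]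
    exact lift_lt Q W hW _ (pow_norm Q _ hy)
  have hTor' : act β (mp i T) ∈ Tor b B := by
    rw [mem_Tor, ← act_mul, mul_comm, act_mul, mem_Tor.1 hTor]
    exact map_zero _
  have key : act β (mp i T) = mp i T :=
    fix_of_cong W h3' hb' hTor' hTor k1 hT0 (K9_cong _ k3 hpx) (K9_cong _ k4 hpy)
  apply mp_inj i
  rw [mp_act]
  exact key

end H28G
end

-- from Lib.H55K.K7
section

open NumberField IsDedekindDomain WeierstrassCurve

namespace H55K

open H55P (IQ embF eF LF Per IsHecke Pt ac Inert Dec Nm)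
open H35P (WAB Ker tt)
open H55R (Pl ord es fs smulP)

/-! Chunk K7 (M). Let v = Q.under (𝓞 F), q = absNorm v = absNorm Q (D5_norm: absNorm Q = absNorm(v)^fs is prime; absNorm v = q is given by hn). V above Q (exists_abw), so V above v (Abw.below for K = F): V(ak a) < 1 for a in v. H13S.exists_frob v V gives s. ac s T = act (ψ v) T by Okv.frob with n = l: V(l) = 1 because l is not in v
(V above v: V(l) < 1 iff l in v), l • T = 0 because π | l (act (l : 𝓞 F) T = l • T: map_natCast, AddMonoid.End.natCast_apply). For y in L with algebraMap L Ω y in V: Q.valuation y ≤ 1, Q.valuation (y^q - y) < 1 (H28G.pow_norm in H28G/K9.lean, general), so V(s y - y) = V((s y - y^q) + (y^q - y)) < 1.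
triv_of_es (K = F, N = L, he) gives Fxd L s, so ac s T = T (hL.crd, ac_fix). -/

variable {F : Type} [Field F] [NumberField F] [IQ F] {A B : F} {Om : ℂ} {Ω : Type} [Field Ω] [DecidableEq Ω]
  [Algebra F Ω] {j : Ω →+* ℂ} {act : 𝓞 F →+* AddMonoid.End (Pt (WAB A B) Ω)}
  {L : Type} [Field L] [NumberField L] [Algebra F L] [Algebra L Ω] [IsScalarTower F L Ω]

theorem fix_T [IsAlgClosure F Ω] {m : Ideal (𝓞 F)} {ψ : Ideal (𝓞 F) →*₀ 𝓞 F} {l : ℕ} {π : 𝓞 F}
    {Ξ : Pt (WAB A B) Ω → Ω} (hd : π ∣ (l : 𝓞 F)) (hL : TFld act F L π) (Q : Pl L)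
    (hv : Okv A B act m ψ l π Ξ (Q.under (𝓞 F))) (hQ : (Ideal.absNorm Q.asIdeal).Prime)
    (hn : Ideal.absNorm (Q.under (𝓞 F)).asIdeal = Ideal.absNorm Q.asIdeal)
    (he : es F L (Q.under (𝓞 F)) = 1) {T : Pt (WAB A B) Ω} (hT : T ∈ Tor act π) :
    act (ψ (Q.under (𝓞 F)).asIdeal) T = T := by
  obtain ⟨V, hV⟩ := exists_abw Ω Q
  have hVv : Abw V (Q.under (𝓞 F)) := hV.below rfl
  have hva : ∀ a : 𝓞 F, a ∈ (Q.under (𝓞 F)).asIdeal → V.valuation (ak Ω a) < 1 := fun a ha =>
    (hVv.lt _).2 (((Q.under (𝓞 F)).valuation_lt_one_iff_mem a).2 ha)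
  obtain ⟨s, -, hs⟩ := H13S.exists_frob (Q.under (𝓞 F)) V hva
  have hcast : ∀ n : ℕ, algebraMap F Ω (((n : 𝓞 F) : F)) = (n : Ω) := by
    intro n
    have e : ((n : 𝓞 F) : F) = (n : F) := by push_cast; rfl
    rw [e, map_natCast]
  have hl1 : V.valuation (l : Ω) = 1 := by
    refine le_antisymm ((V.valuation_le_one_iff _).2 (natCast_mem V l)) (not_lt.1 fun h' => hv.nl ?_)
    rw [← hcast l, hVv.lt] at h'
    exact ((Q.under (𝓞 F)).valuation_lt_one_iff_mem _).1 h'
  have hT1 : l • T = 0 := by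
    obtain ⟨c, hc⟩ := hd
    have h1 : act (l : 𝓞 F) T = 0 := by
      rw [hc, mul_comm, map_mul]
      show act c (act π T) = 0
      have h2 : act π T = 0 := hT
      rw [h2, map_zero]
    rw [map_natCast, AddMonoid.End.natCast_apply] at h1
    exact h1
  have hfrob := hv.frob V hva s hs l hl1 T hT1
  rw [← hfrob]
  have hfx : Fxd L s := by
    have hgal := hL.gal
    refine triv_of_es (K := F) hV he s (fun x => s.commutes x) fun y hy => ?_
    have h1 := hs _ hy
    have h2 : V.valuation (algebraMap L Ω y ^ Ideal.absNorm (Q.under (𝓞 F)).asIdeal - algebraMap L Ω y) < 1 := by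
      rw [hn, ← map_pow, ← map_sub, hV.lt]
      exact H28G.pow_norm Q y ((hV y).1 hy)
    have e : s (algebraMap L Ω y) - algebraMap L Ω y =
        (s (algebraMap L Ω y) - algebraMap L Ω y ^ Ideal.absNorm (Q.under (𝓞 F)).asIdeal) +
        (algebraMap L Ω y ^ Ideal.absNorm (Q.under (𝓞 F)).asIdeal - algebraMap L Ω y) := by ring
    rw [e]
    exact V.valuation.map_add_lt h1 h2
  obtain ⟨x, y, hx, hy⟩ := hL.crd T hT
  exact ac_fix s (by rw [← hx, hfx x]) (by rw [← hy, hfx y])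

end H55K
end

-- from Lib.H55K.K8
section

open NumberField IsDedekindDomain WeierstrassCurve

namespace H55K

open H55P (IQ embF eF LF Per IsHecke Pt ac Inert Dec Nm)
open H35P (WAB Ker tt)
open H55R (Pl ord es fs smulP)

/-! Chunk K8 (M, port of norm_xi in H28G/K10.lean). Apply algebraMap L N then algebraMap N Ω (injective): Algebra.norm_eq_prod_automorphisms: algebraMap L N (norm al) = ∏ σ, σ al. For σ let s be an extension (exists_lft): algebraMap N Ω (σ al) = s (Ξ (T + R)) = Ξ (ac s T + ac s R) = Ξ (T + ac s R), as s fixes L (Lft.fxd) and the coordinates of T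
are in L (hL.crd, ac_fix). σ -> ac s R is a bijection from Gal(N/L) to the nonzero points of Tor act β: injective orb_inj, surjective horb, values: ac_tor, k2_ac_ne. S' = the Finset of the nonzero points (exists_TN); Finset.prod_bij or prod_nbij. -/

variable {F : Type} [Field F] [NumberField F] [IQ F] {A B : F} {Om : ℂ} {Ω : Type} [Field Ω] [DecidableEq Ω]
  [Algebra F Ω] {j : Ω →+* ℂ} {act : 𝓞 F →+* AddMonoid.End (Pt (WAB A B) Ω)}
  {L : Type} [Field L] [NumberField L] [Algebra F L] [Algebra L Ω] [IsScalarTower F L Ω]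
  {N : Type} [Field N] [NumberField N] [Algebra F N] [Algebra L N] [Algebra N Ω] [IsScalarTower F L N]
  [IsScalarTower L N Ω] [IsScalarTower F N Ω]

theorem norm_xi [IsAlgClosure F Ω] (h : CMA F A B Om j act) {π β : 𝓞 F} (hβ : Prime β)
    (hL : TFld act F L π) (hN : TFld act L N β)
    (horb : ∀ R ∈ Tor act β, R ≠ 0 → ∀ R' ∈ Tor act β, R' ≠ 0 → ∃ σ : Gal(N/L), ∀ s : Ω ≃ₐ[F] Ω,
      Lft σ s → ac (WAB A B) s R = R') {Ξ : Pt (WAB A B) Ω → Ω}
    (hX : ∀ (s : Ω ≃ₐ[F] Ω) (P : Pt (WAB A B) Ω), s (Ξ P) = Ξ (ac (WAB A B) s P))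
    {T : Pt (WAB A B) Ω} (hT : T ∈ Tor act π)
    (hprod : ∀ S' : Finset (Pt (WAB A B) Ω), TN act β S' → ∏ R ∈ S', Ξ (T + R) = 1)
    {R : Pt (WAB A B) Ω} (hR : R ∈ Tor act β) (h0 : R ≠ 0) (al : N)
    (hal : algebraMap N Ω al = Ξ (T + R)) : Algebra.norm L al = 1 := by
  classical
  have hgal := hN.gal
  have hlft : ∀ σ : Gal(N/L), ∃ s : Ω ≃ₐ[F] Ω, Lft σ s := fun σ => exists_lft σ
  choose s hs using hlft
  apply (algebraMap L N).injective
  rw [map_one, Algebra.norm_eq_prod_automorphisms]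
  apply (algebraMap N Ω).injective
  rw [map_one, map_prod]
  have hT' : ∀ σ, ac (WAB A B) (s σ) T = T := by
    intro σ
    obtain ⟨x, y, hx, hy⟩ := hL.crd T hT
    exact ac_fix (s σ) (by rw [← hx, (hs σ).fxd]) (by rw [← hy, (hs σ).fxd])
  have hval : ∀ σ : Gal(N/L), algebraMap N Ω (σ al) = Ξ (T + ac (WAB A B) (s σ) R) := by
    intro σ
    rw [← hs σ al, hal, hX, map_add, hT']
  rw [Finset.prod_congr rfl fun σ _ => hval σ]
  obtain ⟨S', hS', -⟩ := exists_TN h hβ.ne_zero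
  rw [← hprod S' hS']
  refine Finset.prod_bij (fun σ _ => ac (WAB A B) (s σ) R) ?_ ?_ ?_ ?_
  · intro σ _
    exact (hS' _).2 ⟨ac_tor h (s σ) hR, k2_ac_ne _ h0⟩
  · intro a _ b _ hab
    exact orb_inj h hβ hN hR h0 (hs a) (hs b) hab
  · intro R' hR'
    obtain ⟨h1, h2⟩ := (hS' R').1 hR'
    obtain ⟨σ, hσ⟩ := horb R hR h0 R' h1 h2
    exact ⟨σ, Finset.mem_univ _, hσ _ (hs σ)⟩
  · intro σ _
    rfl

end H55K
end

-- from Lib.H55K.K4
section

open NumberField IsDedekindDomain WeierstrassCurve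

namespace H55K

open H55P (IQ embF eF LF Per IsHecke Pt ac Inert Dec Nm)
open H35P (WAB Ker tt)
open H55R (Pl ord es fs smulP)

/-! Chunk K4 (M). Unramified primes. β prime, v a prime of L not containing β, hGN: V is good if V(Nm β) < 1. W a prime of N above v (under_exists), V above W (exists_abw). unr_of_inert: let s in Inert V, Fxd L s; to show Fxd N s, by TFld.gen it is enough that ac s R = R for R in Tor act β.
V(ak β) = 1 (β not in v; Abw.below, Abw.lt, ak_le or k0_int; ak Ω β = algebraMap L Ω (algebraMap F L β)).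
(a) V good (GV A B V): cong_fix: R <> 0 is not in Ker V (tor_unit), so its coordinates are integral, s moves them by elements of value < 1, so ac s R - R in Ker V (H35P.Red: theorem rd or the like: Cong implies the difference is in Ker; see also H35P/Red*.lean), it is in Tor act β (ac_tor), so it is 0 (tor_unit).
V is good if V(l) < 1 (Dta.good) or V(Nm β) < 1 (hGN).
(b) V(l) = 1 and V(Nm β) = 1 (values ≤ 1 of integers): inert_fix for the GMod from Dta.gmod V: s fixes Tor act π (the coordinates of its points are in L: hL.crd, ac_fix), n = Nm β, P = R, n • (ac s R - R) = 0 because Nm β = β * cj β kills Tor act β (mul_cj; act (n : 𝓞 F) P = n • P: map_natCast and AddMonoid.End). -/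

variable {F : Type} [Field F] [NumberField F] [IQ F] {A B : F} {Om : ℂ} {Ω : Type} [Field Ω] [DecidableEq Ω]
  [Algebra F Ω] {j : Ω →+* ℂ} {act : 𝓞 F →+* AddMonoid.End (Pt (WAB A B) Ω)}
  {L N : Type} [Field L] [NumberField L] [Field N] [NumberField N] [Algebra F L] [Algebra F N]
  [Algebra L N] [Algebra L Ω] [Algebra N Ω] [IsScalarTower F L N] [IsScalarTower L N Ω]
  [IsScalarTower F L Ω] [IsScalarTower F N Ω]

/-- Inertia acts trivially on the points killed by a unit, good reduction. -/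
theorem cong_fix (h : CMA F A B Om j act) {V : ValuationSubring Ω} (hV : GV A B V) {β : 𝓞 F}
    (hβ : V.valuation (ak Ω β) = 1) {s : Ω ≃ₐ[F] Ω} {R : Pt (WAB A B) Ω} (hR : R ∈ Tor act β)
    (hs : (xc R ∈ V → V.valuation (s (xc R) - xc R) < 1) ∧ (yc R ∈ V → V.valuation (s (yc R) - yc R) < 1)) :
    ac (WAB A B) s R = R := by
  by_cases h0 : R = 0
  · rw [h0]
    exact map_zero _
  have hK : ¬ Ker V R := fun hk => h0 (tor_unit h hV hβ hR hk)
  obtain ⟨-, hx⟩ := not_ker V hK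
  have hy := gv_y hV hK
  obtain ⟨h1, h2⟩ := hs
  have hx' := h1 ((V.valuation_le_one_iff _).1 hx)
  have hy' := h2 ((V.valuation_le_one_iff _).1 hy)
  have hR' := ac_tor h s hR
  have h0' := k2_ac_ne s h0
  have hK' : ¬ Ker V (ac (WAB A B) s R) := fun hk => h0' (tor_unit h hV hβ hR' hk)
  have h3 : Ker V (ac (WAB A B) s R - R) := by
    refine cls_xy hV hK' hK ?_ ?_
    · rw [xc_ac]
      exact hx'
    · rw [yc_ac]
      exact hy'
  exact sub_eq_zero.1 (tor_unit h hV hβ (sub_mem hR' hR) h3)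

theorem unram [IsAlgClosure F Ω] {m : Ideal (𝓞 F)} {ψ : Ideal (𝓞 F) →*₀ 𝓞 F} {l : ℕ}
    (h : Dta A B Om j act m ψ l) {π : 𝓞 F} (hπ : Prime π) (hd : π ∣ (l : 𝓞 F)) (hL : TFld act F L π)
    {β : 𝓞 F} (hβ : Prime β) (hN : TFld act L N β)
    (hGN : ∀ V : ValuationSubring Ω, V.valuation ((Nm β : ℕ) : Ω) < 1 → GV A B V) (v : Pl L)
    (hv : algebraMap (𝓞 F) (𝓞 L) β ∉ v.asIdeal) : es L N v = 1 := by
  have hgal := hN.gal
  obtain ⟨W, hW⟩ := H55R.under_exists (L := N) v
  obtain ⟨V, hV⟩ := exists_abw Ω W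
  rw [← hW]
  refine unr_of_inert (F := F) (K := L) hV ?_
  intro s hs hsL
  have hVv : Abw V v := hV.below hW
  have hb : V.valuation (ak Ω β) = 1 := by
    have h1 := (hVv.eq_one ((algebraMap (𝓞 F) (𝓞 L) β : 𝓞 L) : L)).2
      ((HeightOneSpectrum.valuation_eq_one_iff_notMem v).2 hv)
    have e : algebraMap L Ω ((algebraMap (𝓞 F) (𝓞 L) β : 𝓞 L) : L) = ak Ω β := by
      show algebraMap L Ω (algebraMap F L (β : F)) = _
      exact (IsScalarTower.algebraMap_apply F L Ω _).symm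
    rwa [e] at h1
  refine hN.gen s hsL ?_
  intro R hR
  by_cases hl : V.valuation (l : Ω) < 1
  · exact cong_fix h.cma (h.good V hl) hb hR ⟨fun hx => hs _ hx, fun hy => hs _ hy⟩
  by_cases hn : V.valuation ((Nm β : ℕ) : Ω) < 1
  · exact cong_fix h.cma (hGN V hn) hb hR ⟨fun hx => hs _ hx, fun hy => hs _ hy⟩
  have hl1 : V.valuation (l : Ω) = 1 := le_antisymm (g4c_nat V l) (not_lt.1 hl)
  have hn1 : V.valuation ((Nm β : ℕ) : Ω) = 1 := le_antisymm (g4c_nat V _) (not_lt.1 hn)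
  obtain ⟨Kg, u, hG⟩ := h.gmod V
  refine inert_fix h.cma h.prime h.five hπ hd hG hl1 s hs ?_ (Nm β) hn1 R ?_
  · intro T hT
    obtain ⟨x, y, hx, hy⟩ := hL.crd T hT
    refine ac_fix s ?_ ?_
    · rw [← hx]
      exact hsL x
    · rw [← hy]
      exact hsL y
  · exact tor_nm (act := act) (sub_mem (ac_tor h.cma s hR) hR)

end H55K
end

-- from Lib.H55K.SMU
section

/-! # H55K, part S: port of H13S/MU -/

open NumberField IsDedekindDomain WeierstrassCurve

namespace H55K.S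

open H55P (IQ embF eF LF Per IsHecke Pt ac Inert Dec Nm)
open H35P (WAB Ker tt)
open H13S (Abv)




variable {F : Type} [Field F] [NumberField F] [IQ F] {A B : F} {Om : ℂ} {Ω : Type} [Field Ω] [DecidableEq Ω]
  [Algebra F Ω] [IsAlgClosure F Ω] {j : Ω →+* ℂ} {act : 𝓞 F →+* AddMonoid.End (Pt (WAB A B) Ω)} {mo : Ideal (𝓞 F)}
  {ψ : Ideal (𝓞 F) →*₀ 𝓞 F}

/-- Chunk MU (S). In the inert case L contains the l-th roots of unity. gi_gen: a point X ≠ 0 in Tor π = Tor (cj π); he.nondeg gives T with e X T ≠ 1: a primitive l-th root of unity (l prime). s in L.fixingSubgroup: s (e X T) = e (ac s X) (ac s T) = e X T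
(hL). So e X T lies in L (fixed field of L.fixingSubgroup: InfiniteGalois.fixedField_fixingSubgroup; Ω/F is Galois, characteristic 0), and ζ is a power of it. -/
theorem mu_mem (hA : CMA F A B Om j act) {π : 𝓞 F} {l : ℕ} (hl : l.Prime) (hπ : Prime π) (hin : Tor act (cj π) = Tor act π)
    {e : Pt (WAB A B) Ω → Pt (WAB A B) Ω → Ω} (he : Pairing A B act π l e) {L : IntermediateField F Ω} (hL : H55K.S.IsTF act π L)
    (ζ : Ω) (hζ : ζ ^ l = 1) : ζ ∈ L := by
  obtain ⟨-, X, hX, -, hX0⟩ := gi_gen hA π hπ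
  have hXne : X ≠ 0 := by
    intro h
    have h1 : act (1 : 𝓞 F) X = 0 := by rw [h, map_zero]
    exact hπ.not_isUnit (isUnit_of_dvd_one ((hX0 1).1 h1))
  have hX' : X ∈ Tor act (cj π) := by rw [hin]; exact hX
  obtain ⟨T, hT, hTe⟩ : ∃ T ∈ Tor act π, e X T ≠ 1 := by
    by_contra h
    push Not at h
    exact hXne (he.nondeg X hX' h)
  have hprim : IsPrimitiveRoot (e X T) l := by
    have : Fact l.Prime := ⟨hl⟩
    have h1 := orderOf_eq_prime (he.root X hX' T hT) hTe
    rw [← h1]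
    exact IsPrimitiveRoot.orderOf _
  have : NeZero l := ⟨hl.ne_zero⟩
  obtain ⟨i, -, hi⟩ := hprim.eq_pow_of_pow_eq_one hζ
  have hmem : e X T ∈ L := by
    have hg : IsGalois F Ω := IsAlgClosure.isGalois F Ω
    rw [← InfiniteGalois.fixedField_fixingSubgroup L]
    rw [IntermediateField.mem_fixedField_iff]
    intro s hs
    rw [he.gal s X hX' T hT, (hL.2 s).1 hs T hT, (hL.2 s).1 hs X hX]
  rw [← hi]
  exact pow_mem hmem i

end H55K.S
end
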