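import Mathlib
import Pool.Agent.Lib.H1M.PP2.M048
import Pool.Agent.Lib.H1M.PP2.M051
import Pool.Agent.Lib.H1M.PP2.M079
import Pool.Agent.Lib.H1M.PP2.M082
import Pool.Agent.Lib.H1M.PP2.M094

/-! Merged copies (to shorten the build) of Lib.H55K.SKR, Lib.H55K.SQV, Lib.SSG.E.W10. -/

-- from Lib.H55K.SKR
section

/-! # H55K, part S: the kernel of reduction (in the form of H13S/GIA) -/

open NumberField IsDedekindDomain WeierstrassCurve

namespace H55K.S

open H55P (IQ embF eF LF Per IsHecke Pt ac Inert Dec Nm)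
open H35P (WAB Ker tt)
open H13S (Abv)

variable {F : Type} [Field F] [NumberField F] [IQ F] {A B : F} {Om : ℂ} {Ω : Type} [Field Ω] [DecidableEq Ω]
  [Algebra F Ω] {j : Ω →+* ℂ} {act : 𝓞 F →+* AddMonoid.End (Pt (WAB A B) Ω)} {V : ValuationSubring Ω}

theorem kr_add (hG : GV A B V) {P Q : Pt (WAB A B) Ω} (hP : Ker V P) (hQ : Ker V Q) : Ker V (P + Q) :=
  H35P.ker_add (gv_good hG).toIntW P Q hP hQ

theorem kr_neg {P : Pt (WAB A B) Ω} (hP : Ker V P) : Ker V (-P) := (H35P.ker_neg P).2 hP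

theorem kr_sub (hG : GV A B V) {P Q : Pt (WAB A B) Ω} (hP : Ker V P) (hQ : Ker V Q) : Ker V (P - Q) := by
  rw [sub_eq_add_neg]
  exact kr_add hG hP (kr_neg hQ)

theorem kr_tt_lt (hG : GV A B V) {P : Pt (WAB A B) Ω} (hP : Ker V P) : V.valuation (tt P) < 1 :=
  H35P.tt_lt (gv_good hG).toIntW P hP

theorem kr_tt_zero (hG : GV A B V) {P : Pt (WAB A B) Ω} (hP : Ker V P) : tt P = 0 ↔ P = 0 :=
  H35P.tt_eq_zero (gv_good hG).toIntW P hP

/-- t is additive modulo squares. -/
theorem kr_tt_add (hG : GV A B V) {P Q : Pt (WAB A B) Ω} (hP : Ker V P) (hQ : Ker V Q) (c : V.ValueGroup)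
    (h1 : V.valuation (tt P) ≤ c) (h2 : V.valuation (tt Q) ≤ c) :
    V.valuation (tt (P + Q) - tt P - tt Q) ≤ c ^ 2 := tt_add2 hG hP hQ c h1 h2

theorem kr_act (hA : CMA F A B Om j act) (hG : GV A B V) (a : 𝓞 F) {P : Pt (WAB A B) Ω} (hP : Ker V P) :
    Ker V (act a P) := ker_act hA hG a hP

/-- t(a P) = a t(P) modulo squares. -/
theorem kr_tt_act (hA : CMA F A B Om j act) (hG : GV A B V) (a : 𝓞 F) {P : Pt (WAB A B) Ω} (hP : Ker V P) :
    V.valuation (tt (act a P) - ak Ω a * tt P) ≤ V.valuation (tt P) ^ 2 := tt_act hA hG a hP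

/-- Points killed by an element which is a unit are not in the kernel of reduction. -/
theorem kr_tor (hA : CMA F A B Om j act) (hG : GV A B V) (β : 𝓞 F) (hβ : vo V β = 1) {T : Pt (WAB A B) Ω}
    (hT : T ∈ Tor act β) (hK : Ker V T) : T = 0 := tor_unit hA hG hβ hT hK

/-- The points killed by a prime element below V. -/
theorem kr_tor_ram (hA : CMA F A B Om j act) (hG : GV A B V) (β : 𝓞 F) (hβ : Prime β) (hV : vo V β < 1)
    {T : Pt (WAB A B) Ω} (hT : T ∈ Tor act β) (h0 : T ≠ 0) :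
    Ker V T ∧ V.valuation (tt T) ^ (Nm β - 1) = vo V β := tor_ram hA hG hβ hV hT h0

/-- The product formula. -/
theorem kr_prod (hA : CMA F A B Om j act) (hG : GV A B V) (β : 𝓞 F) (hβ : Prime β) (hV : vo V β < 1)
    {Q : Pt (WAB A B) Ω} (hQ : Ker V Q) :
    ∏ᶠ R : Tor act β, V.valuation (tt (Q + (R : Pt (WAB A B) Ω))) = V.valuation (tt (act β Q)) := by
  classical
  obtain ⟨S, hS, -⟩ := exists_TN hA hβ.ne_zero
  rw [← ker_prod hA hG hβ hV hS hQ]
  have h0 : (0 : Pt (WAB A B) Ω) ∉ S := fun h => ((hS 0).1 h).2 rfl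
  have h1 : V.valuation (tt Q) * ∏ R ∈ S, V.valuation (tt (Q + R)) =
      ∏ R ∈ insert (0 : Pt (WAB A B) Ω) S, V.valuation (tt (Q + R)) := by
    rw [Finset.prod_insert h0, add_zero]
  rw [h1]
  have h2 : (Tor act β : Set (Pt (WAB A B) Ω)) = ((insert (0 : Pt (WAB A B) Ω) S : Finset _) : Set _) := by
    ext T
    rw [SetLike.mem_coe, Finset.mem_coe, Finset.mem_insert, hS, mem_Tor]
    constructor
    · intro h
      by_cases h3 : T = 0
      · exact Or.inl h3
      · exact Or.inr ⟨h, h3⟩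
    · rintro (rfl | h)
      · exact map_zero _
      · exact h.1
  have h3 := finprod_set_coe_eq_finprod_mem (f := fun R : Pt (WAB A B) Ω => V.valuation (tt (Q + R)))
    (Tor act β : Set (Pt (WAB A B) Ω))
  refine h3.trans ?_
  rw [h2, finprod_mem_coe_finset]

/-! Inertia and decomposition groups. -/

omit [NumberField F] [IQ F] [DecidableEq Ω] in
theorem qv_dec (V : ValuationSubring Ω) (s : Ω ≃ₐ[F] Ω) (hs : Inert V s) (x : Ω) : s x ∈ V ↔ x ∈ V := by
  constructor
  · intro hx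
    by_contra hcon
    have h1 : 1 < V.valuation x := by
      rw [← not_le, V.valuation_le_one_iff]
      exact hcon
    have x0 : V.valuation x ≠ 0 := (zero_lt_one.trans h1).ne'
    have h2 : V.valuation x⁻¹ < 1 := by
      rw [map_inv₀]
      exact inv_lt_one_of_one_lt₀ h1
    have h3 := hs x⁻¹ ((V.valuation_le_one_iff _).1 h2.le)
    have h4 : V.valuation (s x⁻¹) < 1 := by
      have h5 := V.valuation.map_add_lt h3 h2
      rwa [sub_add_cancel] at h5
    rw [map_inv₀ s, map_inv₀] at h4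
    have h6 : V.valuation (s x) ≤ 1 := (V.valuation_le_one_iff _).2 hx
    have hx0 : x ≠ 0 := by
      rintro rfl
      exact x0 (map_zero _)
    have h7 : V.valuation (s x) ≠ 0 := (V.valuation.ne_zero_iff).2 ((map_ne_zero s).2 hx0)
    exact absurd h4 (not_lt.2 ((one_le_inv₀ (zero_lt_iff.2 h7)).2 h6))
  · intro hx
    have h1 : s x - x ∈ V := (V.valuation_le_one_iff _).1 (hs x hx).le
    have h2 := V.add_mem _ _ h1 hx
    rwa [sub_add_cancel] at h2

omit [NumberField F] [IQ F] [DecidableEq Ω] in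
theorem qv_le (V : ValuationSubring Ω) (s : Ω ≃ₐ[F] Ω) (hs : Inert V s) (a b : Ω) (hb : b ≠ 0) :
    V.valuation (s a) ≤ V.valuation (s b) ↔ V.valuation a ≤ V.valuation b := by
  have h1 := qv_dec V s hs (a / b)
  have h2 : 0 < V.valuation b := zero_lt_iff.2 ((Valuation.ne_zero_iff _).2 hb)
  have h3 : 0 < V.valuation (s b) := zero_lt_iff.2 ((Valuation.ne_zero_iff _).2 ((map_ne_zero s).2 hb))
  rw [← V.valuation_le_one_iff, ← V.valuation_le_one_iff, map_div₀ s, map_div₀, map_div₀,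
    div_le_one₀ h3, div_le_one₀ h2] at h1
  exact h1

omit [NumberField F] [IQ F] [DecidableEq Ω] in
theorem qv_orb [Algebra.IsAlgebraic F Ω] (s : Ω ≃ₐ[F] Ω) (x : Ω) : ∃ n : ℕ, 0 < n ∧ (s ^ n) x = x := by
  have hx : IsIntegral F x := (Algebra.IsAlgebraic.isAlgebraic x).isIntegral
  have hroot : ∀ k : ℕ, (s ^ k) x ∈ (minpoly F x).rootSet Ω := by
    intro k
    rw [Polynomial.mem_rootSet]
    refine ⟨minpoly.ne_zero hx, ?_⟩
    have h1 := Polynomial.aeval_algHom_apply ((s ^ k : Ω ≃ₐ[F] Ω) : Ω →ₐ[F] Ω) x (minpoly F x)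
    rw [minpoly.aeval, map_zero] at h1
    exact h1
  obtain ⟨i, j, hij, he⟩ := Finite.exists_ne_map_eq_of_infinite
    (fun k : ℕ => (⟨(s ^ k) x, hroot k⟩ : (minpoly F x).rootSet Ω))
  have he' : (s ^ i) x = (s ^ j) x := congrArg Subtype.val he
  have key : ∀ i j : ℕ, i < j → (s ^ i) x = (s ^ j) x → ∃ n : ℕ, 0 < n ∧ (s ^ n) x = x := by
    intro i j hlt he
    refine ⟨j - i, by omega, ?_⟩
    apply (s ^ i).injective
    rw [← AlgEquiv.mul_apply, ← pow_add, he]
    congr 2
    omega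
  rcases lt_or_gt_of_ne hij with h | h
  · exact key i j h he'
  · exact key j i h he'.symm

omit [NumberField F] [IQ F] [DecidableEq Ω] in
theorem qv_val [Algebra.IsAlgebraic F Ω] (V : ValuationSubring Ω) (s : Ω ≃ₐ[F] Ω) (hs : Inert V s)
    (x : Ω) : V.valuation (s x) = V.valuation x := by
  by_cases hx : x = 0
  · rw [hx, map_zero]
  obtain ⟨n, hn, hnx⟩ := qv_orb s x
  have hne : ∀ k : ℕ, (s ^ k) x ≠ 0 := fun k => (map_ne_zero (s ^ k)).2 hx
  have hs1 : ∀ k : ℕ, (s ^ (k + 1)) x = s ((s ^ k) x) := fun k => by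
    rw [pow_succ', AlgEquiv.mul_apply]
  have h0 : (s ^ 0) x = x := by rw [pow_zero]; rfl
  rcases lt_trichotomy (V.valuation (s x)) (V.valuation x) with h | h | h
  · exfalso
    have hstep : ∀ k : ℕ, V.valuation ((s ^ (k + 1)) x) < V.valuation ((s ^ k) x) := by
      intro k
      induction k with
      | zero =>
        rw [hs1, h0]
        exact h
      | succ k ih =>
        rw [hs1 (k + 1)]
        conv_rhs => rw [hs1 k]
        rw [← not_le] at ih ⊢
        rwa [qv_le V s hs _ _ (hne _)]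
    have h1 := strictAnti_nat_of_succ_lt (f := fun k => V.valuation ((s ^ k) x)) hstep hn
    simp only [hnx, h0] at h1
    exact lt_irrefl _ h1
  · exact h
  · exfalso
    have hstep : ∀ k : ℕ, V.valuation ((s ^ k) x) < V.valuation ((s ^ (k + 1)) x) := by
      intro k
      induction k with
      | zero =>
        rw [hs1, h0]
        exact h
      | succ k ih =>
        rw [hs1 (k + 1)]
        conv_lhs => rw [hs1 k]
        rw [← not_le] at ih ⊢
        rwa [qv_le V s hs _ _ (hne _)]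
    have h1 := strictMono_nat_of_lt_succ (f := fun k => V.valuation ((s ^ k) x)) hstep hn
    simp only [hnx, h0] at h1
    exact lt_irrefl _ h1

theorem qv_unit (V : ValuationSubring Ω) {π x : 𝓞 F} (hπ : Prime π) (hV : vo V π < 1) (hx : ¬ π ∣ x) :
    vo V x = 1 := by
  obtain ⟨u, v, huv⟩ := (hπ.irreducible.coprime_iff_not_dvd).2 hx
  refine le_antisymm (vo_le V x) ?_
  by_contra hcon
  push Not at hcon
  have h1 : V.valuation (algebraMap F Ω ((u * π : 𝓞 F) : F) + algebraMap F Ω ((v * x : 𝓞 F) : F)) < 1 := by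
    refine Valuation.map_add_lt _ ?_ ?_
    · change vo V (u * π) < 1
      rw [vo_mul]
      exact lt_of_le_of_lt (mul_le_mul' (vo_le V u) le_rfl) (by rwa [one_mul])
    · change vo V (v * x) < 1
      rw [vo_mul]
      exact lt_of_le_of_lt (mul_le_mul' (vo_le V v) le_rfl) (by rwa [one_mul])
  have h2 : algebraMap F Ω ((u * π : 𝓞 F) : F) + algebraMap F Ω ((v * x : 𝓞 F) : F) = 1 := by
    rw [← map_add]
    have : ((u * π : 𝓞 F) : F) + ((v * x : 𝓞 F) : F) = ((u * π + v * x : 𝓞 F) : F) := rfl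
    rw [this, huv]
    exact map_one _
  rw [h2, map_one] at h1
  exact lt_irrefl _ h1

theorem qv_intpow (V : ValuationSubring Ω) {π : 𝓞 F} (hπ : Prime π) (hV : vo V π < 1) (a : F)
    (ha : a ≠ 0) : ∃ k : ℤ, V.valuation (algebraMap F Ω a) = vo V π ^ k := by
  have key : ∀ x : 𝓞 F, x ≠ 0 → ∃ n : ℕ, vo V x = vo V π ^ n := by
    intro x hx
    obtain ⟨n, x', hx', he⟩ := WfDvdMonoid.max_power_factor hx hπ.irreducible
    refine ⟨n, ?_⟩
    rw [he, vo_mul, vo_pow, qv_unit V hπ hV hx', mul_one]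
  obtain ⟨x, y, hy, rfl⟩ := IsFractionRing.div_surjective (A := 𝓞 F) a
  have hy0 : y ≠ 0 := nonZeroDivisors.ne_zero hy
  have hx0 : x ≠ 0 := by
    rintro rfl
    rw [map_zero, zero_div] at ha
    exact ha rfl
  obtain ⟨n, hn⟩ := key x hx0
  obtain ⟨m, hm⟩ := key y hy0
  have hp0 := vo_ne V hπ.ne_zero
  refine ⟨(n : ℤ) - m, ?_⟩
  rw [map_div₀, map_div₀, zpow_sub₀ hp0, zpow_natCast, zpow_natCast, ← hn, ← hm]


omit [NumberField F] [IQ F] [DecidableEq Ω] in
theorem in_dec (s : Ω ≃ₐ[F] Ω) (hs : Inert V s) : Dec V s := fun x => qv_dec V s hs x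

omit [NumberField F] [IQ F] in
/-- The decomposition group preserves the kernel of reduction. -/
theorem kr_dec (s : Ω ≃ₐ[F] Ω) (hs : Dec V s) {P : Pt (WAB A B) Ω} (hP : Ker V P) : Ker V (ac (WAB A B) s P) := by
  cases P with
  | zero => trivial
  | some x y h =>
    show 1 < V.valuation (s x)
    have h1 : 1 < V.valuation x := hP
    rw [← not_le, V.valuation_le_one_iff] at h1 ⊢
    rwa [hs x]

/-- Inertia acts trivially on the reduction. -/
theorem kr_inert (hG : GV A B V) (s : Ω ≃ₐ[F] Ω) (hs : Inert V s) (P : Pt (WAB A B) Ω) :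
    Ker V (ac (WAB A B) s P - P) := by
  by_cases hK : Ker V P
  · exact kr_sub hG (kr_dec s (in_dec s hs) hK) hK
  · cases P with
    | zero => exact absurd trivial hK
    | some x y h =>
      have hx : V.valuation x ≤ 1 := not_lt.1 hK
      have hy : V.valuation y ≤ 1 := H35P.int_y (gv_good hG).toIntW h.1 hx
      have hx' : x ∈ V := (V.valuation_le_one_iff _).1 hx
      have hy' : y ∈ V := (V.valuation_le_one_iff _).1 hy
      have hd := in_dec s hs
      exact H35P.rd (gv_good hG) _ _ ⟨s x, s y, _, x, y, h, rfl, rfl, (hd x).2 hx', (hd y).2 hy', hx', hy',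
        hs x hx', hs y hy'⟩

end H55K.S
end

-- from Lib.H55K.SQV
section

/-! # H55K, part S: port of H13S/QV -/

open NumberField IsDedekindDomain WeierstrassCurve

namespace H55K.S

open H55P (IQ embF eF LF Per IsHecke Pt ac Inert Dec Nm)
open H35P (WAB Ker tt)
open H13S (Abv)




variable {F : Type} [Field F] [NumberField F] [IQ F] {A B : F} {Om : ℂ} {Ω : Type} [Field Ω] [DecidableEq Ω]
  [Algebra F Ω] [IsAlgClosure F Ω] {j : Ω →+* ℂ} {act : 𝓞 F →+* AddMonoid.End (Pt (WAB A B) Ω)} {mo : Ideal (𝓞 F)}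
  {ψ : Ideal (𝓞 F) →*₀ 𝓞 F}

omit [IsAlgClosure F Ω] in
theorem qv_add {V : ValuationSubring Ω} (hG : GV A B V) {P Q : Pt (WAB A B) Ω} (hP : Ker V P) (hQ : Ker V Q) (c : V.ValueGroup)
    (hc : c ≤ 1) (h1 : V.valuation (tt P) ≤ c) (h2 : V.valuation (tt Q) ≤ c) :
    V.valuation (tt (P + Q)) ≤ c := by
  have h3 := kr_tt_add hG hP hQ c h1 h2
  have h4 : c ^ 2 ≤ c := by
    rw [sq]
    exact (mul_le_mul' le_rfl hc).trans_eq (mul_one c)
  have e : tt (P + Q) = (tt (P + Q) - tt P - tt Q) + tt P + tt Q := by ring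
  rw [e]
  exact Valuation.map_add_le _ (Valuation.map_add_le _ (h3.trans h4) h1) h2

omit [IsAlgClosure F Ω] in
theorem qv_neg (hA : CMA F A B Om j act) {V : ValuationSubring Ω} (hG : GV A B V) {P : Pt (WAB A B) Ω}
    (hP : Ker V P) : Ker V (-P) ∧ V.valuation (tt (-P)) ≤ V.valuation (tt P) := by
  have e : act (-1 : 𝓞 F) P = -P := by rw [act_neg, act_one]
  have h1 := kr_act hA hG (-1) hP
  have h2 := kr_tt_act hA hG (-1) hP
  rw [e] at h1 h2
  refine ⟨h1, ?_⟩
  have h3 : ak Ω (-1 : 𝓞 F) = -1 := by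
    unfold ak
    have : (((-1 : 𝓞 F) : 𝓞 F) : F) = -1 := by
      have h4 := map_neg (algebraMap (𝓞 F) F) 1
      rw [map_one] at h4
      exact h4
    rw [this, map_neg, map_one]
  rw [h3] at h2
  have h5 : V.valuation (tt P) ≤ 1 := (kr_tt_lt hG hP).le
  have h6 : V.valuation (tt P) ^ 2 ≤ V.valuation (tt P) := by
    rw [sq]
    exact (mul_le_mul' le_rfl h5).trans_eq (mul_one _)
  have e2 : tt (-P) = (tt (-P) - -1 * tt P) + -tt P := by ring
  rw [e2]
  refine Valuation.map_add_le _ (h2.trans h6) ?_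
  rw [Valuation.map_neg]

omit [DecidableEq Ω] [IsAlgClosure F Ω] [Algebra F Ω] [Field Ω] in
theorem qv_q {π : 𝓞 F} {l : ℕ} (hl : l.Prime) (h5 : 5 ≤ l) (hp : Prime π) (hd : π ∣ (l : 𝓞 F)) : 3 ≤ Nm π := by
  have h1 := CO2_Nm hl hp hd
  have h0 : Nm π ≠ 0 := fun h => hp.ne_zero (Ideal.span_singleton_eq_bot.1 (Ideal.absNorm_eq_zero_iff.1 h))
  have := Nat.le_of_dvd (Nat.pos_of_ne_zero h0) h1
  omega

/-- Chunk QV (M). The size of the local point. q = Nm pi ≥ 25 (pi divides l ≥ 5, cj pi = pi), tau = V.valuation (tt R) for R ≠ 0 in Tor pi: tau^(q-1) = vo V pi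
(kr_tor_ram). X₀ = act pi Q is in the kernel of reduction (kr_act) and fixed by all s with Inert V s (act pi (c s) = 0), so its coordinates and tt X₀ are fixed; value_fixed for the bottom field: V.valuation (tt X₀) is the
value of an element of F, so (vo V pi)^n with n an integer (pi generates the prime of F below V), n ≥ 1, or tt X₀ = 0. R₀ = c s₀ ≠ 0 is in Tor pi, R₀ = ac s₀ (Q + R) - (Q + R) for every
R in Tor pi (s₀ fixes Tor pi), V.valuation (tt (ac s₀ P)) = V.valuation (tt P) for P in the kernel of reduction, so tau = V.valuation (tt R₀) ≤ V.valuation (tt (Q + R)) for all R (kr_tt_add with c = V.valuation (tt (Q+R)); tt (-P): use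
kr_tt_act with a = -1). In particular tt X₀ ≠ 0 (kr_prod: the product of q nonzero values). If V.valuation (tt Q) > tau: V.valuation (tt (Q + R)) = V.valuation (tt Q) for all R (kr_tt_add), kr_prod: V.valuation (tt Q)^q = (vo V pi)^n,
> tau^q, so (vo V pi)^(n (q-1)) > (vo V pi)^q, n (q - 1) < q, n = 1: done. If V.valuation (tt Q) = tau: all V.valuation (tt (Q + R)) are ≤ tau (kr_tt_add), hence = tau, tau^q = (vo V pi)^n, tau = (vo V pi)^(n-1), tau^(q-1) = vo V pi
= (vo V pi)^((n-1)(q-1)): impossible. -/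
theorem val_point {π : 𝓞 F} {l : ℕ} {c : (Ω ≃ₐ[F] Ω) → Pt (WAB A B) Ω} (C : Cl A B Om j act mo ψ π l c) (hin : Tor act (cj π) = Tor act π)
    (V : ValuationSubring Ω) (hG : GV A B V) (hV : vo V π < 1) (Q : Pt (WAB A B) Ω) (hQ : Ker V Q)
    (hc : ∀ s, Inert V s → c s = ac (WAB A B) s Q - Q) (L : IntermediateField F Ω) (hL : H55K.S.IsTF act π L)
    (s₀ : Ω ≃ₐ[F] Ω) (h1 : s₀ ∈ L.fixingSubgroup) (h2 : Inert V s₀) (h3 : c s₀ ≠ 0) :
    V.valuation (tt Q) ^ Nm π = vo V π := by
  have hA := C.cma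
  have hF : IsAlgClosed Ω := IsAlgClosure.isAlgClosed F
  have hal : Algebra.IsAlgebraic F Ω := IsAlgClosure.isAlgebraic
  have hval : ∀ s, c s ∈ Tor act π := fun s => by
    have := C.val s
    rwa [hin] at this
  set ϖ := vo V π with hϖ
  set q := Nm π with hq
  have hq3 : 3 ≤ q := qv_q C.hl C.five C.pr C.dvd
  have hϖ0 : ϖ ≠ 0 := vo_ne V C.pr.ne_zero
  have hϖp : 0 < ϖ := zero_lt_iff.2 hϖ0
  -- the value of the points killed by pi
  set R₀ := c s₀ with hR₀
  obtain ⟨hR₀K, hR₀q⟩ : Ker V R₀ ∧ V.valuation (tt R₀) ^ (Nm π - 1) = vo V π := kr_tor_ram hA hG π C.pr hV (hval s₀) h3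
  set τ := V.valuation (tt R₀) with hτ
  have hτ0 : 0 < τ := by
    rw [zero_lt_iff]
    intro h
    have h4 : τ ^ (q - 1) = ϖ := hR₀q
    rw [h, zero_pow (by omega)] at h4
    exact hϖ0 h4.symm
  have hτ1 : τ < 1 := kr_tt_lt hG hR₀K
  have hTor : ∀ R ∈ Tor act π, Ker V R ∧ V.valuation (tt R) ≤ τ := by
    intro R hR
    by_cases h0 : R = 0
    · rw [h0]
      refine ⟨ker_zero V, ?_⟩
      have : tt (0 : Pt (WAB A B) Ω) = 0 := rfl
      rw [this, map_zero]
      exact zero_le
    · obtain ⟨h4, h5⟩ := kr_tor_ram hA hG π C.pr hV hR h0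
      refine ⟨h4, le_of_eq ?_⟩
      have h6 : V.valuation (tt R) ^ (q - 1) = τ ^ (q - 1) := h5.trans hR₀q.symm
      exact (pow_left_inj₀ zero_le zero_le (by omega)).1 h6
  -- translates
  have hs₀ : ∀ R ∈ Tor act π, ac (WAB A B) s₀ R = R := (hL.2 s₀).1 h1
  have hlow : ∀ R ∈ Tor act π, Ker V (Q + R) ∧ τ ≤ V.valuation (tt (Q + R)) := by
    intro R hR
    have hK := kr_add hG hQ (hTor R hR).1
    refine ⟨hK, ?_⟩
    have e : R₀ = ac (WAB A B) s₀ (Q + R) + -(Q + R) := by
      rw [hR₀, hc s₀ h2, map_add, hs₀ R hR]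
      abel
    obtain ⟨n1, n2⟩ := qv_neg hA hG hK
    have e2 : V.valuation (tt (ac (WAB A B) s₀ (Q + R))) = V.valuation (tt (Q + R)) := by
      rw [tt_ac, qv_val V s₀ h2]
    rw [hτ, e]
    exact qv_add hG (kr_dec s₀ (in_dec s₀ h2) hK) n1 _ (kr_tt_lt hG hK).le e2.le n2
  -- the point X₀
  have hX₀K := kr_act hA hG π hQ
  have hprod := kr_prod hA hG π C.pr hV hQ
  obtain ⟨hcard, -⟩ := gi_gen hA π C.pr
  have hfin : Finite (Tor act π) := by
    apply Nat.finite_of_card_ne_zero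
    rw [hcard]
    omega
  let _ : Fintype (Tor act π) := Fintype.ofFinite _
  rw [finprod_eq_prod_of_fintype] at hprod
  have hX₀v : V.valuation (tt (act π Q)) ≠ 0 := by
    rw [← hprod]
    refine Finset.prod_ne_zero_iff.2 fun R _ => ?_
    exact (hτ0.trans_le (hlow R.1 R.2).2).ne'
  have hX₀t : tt (act π Q) ≠ 0 := (Valuation.ne_zero_iff _).1 hX₀v
  have hfix : ∀ s ∈ (⊥ : IntermediateField F Ω).fixingSubgroup, Inert V s →
      s (tt (act π Q)) = tt (act π Q) := by
    intro s _ hs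
    have e1 : ac (WAB A B) s Q = Q + c s := by
      rw [hc s hs]
      abel
    rw [← tt_ac, ac_act hA, e1, map_add, mem_Tor.1 (hval s), add_zero]
  have hNF : NumberField (⊥ : IntermediateField F Ω) := NumberField.of_module_finite F _
  obtain ⟨a, ha, hva⟩ := H13S.value_fixed (⊥ : IntermediateField F Ω) V _ hX₀t hfix
  obtain ⟨a', ha'⟩ := IntermediateField.mem_bot.1 a.2
  have ha'0 : a' ≠ 0 := by
    rintro rfl
    rw [map_zero] at ha'
    exact ha (Subtype.ext ha'.symm)
  obtain ⟨k, hk⟩ := qv_intpow V C.pr hV a' ha'0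
  rw [ha'] at hk
  have hXk : V.valuation (tt (act π Q)) = ϖ ^ k := hva.trans hk
  have hk1 : 0 < k := by
    by_contra hcon
    push Not at hcon
    have h4 : V.valuation (tt (act π Q)) < 1 := kr_tt_lt hG hX₀K
    rw [hXk] at h4
    have h5 : 1 ≤ ϖ ^ k := by
      rw [← neg_neg k, zpow_neg]
      have h6 : 0 < ϖ ^ (-k) := zpow_pos hϖp _
      rw [one_le_inv₀ h6]
      obtain ⟨n, hn⟩ := Int.eq_ofNat_of_zero_le (neg_nonneg.2 hcon)
      rw [hn]
      exact pow_le_one' hV.le n
    exact absurd h4 (not_lt.2 h5)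
  obtain ⟨n, rfl⟩ := Int.eq_ofNat_of_zero_le hk1.le
  have hn1 : 0 < n := by exact_mod_cast hk1
  have hXn : V.valuation (tt (act π Q)) = ϖ ^ n := hXk
  -- strict monotonicity of the powers
  have hlt : ∀ i j : ℕ, ϖ ^ i < ϖ ^ j → j < i := by
    intro i j h
    by_contra hcon
    push Not at hcon
    exact absurd h (not_lt.2 (pow_le_pow_right_of_le_one' hV.le hcon))
  have heq : ∀ i j : ℕ, ϖ ^ i = ϖ ^ j → i = j := by
    have hanti : StrictAnti (fun i : ℕ => ϖ ^ i) := by
      refine strictAnti_nat_of_succ_lt fun i => ?_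
      rw [pow_succ]
      calc ϖ ^ i * ϖ < ϖ ^ i * 1 := mul_lt_mul_of_pos_left hV (pow_pos hϖp i)
        _ = ϖ ^ i := mul_one _
    exact fun i j h => hanti.injective h
  have hcard' : Fintype.card (Tor act π) = q := by
    rw [← Nat.card_eq_fintype_card]
    exact hcard
  have hQlow : τ ≤ V.valuation (tt Q) := by
    have := (hlow 0 (Tor act π).zero_mem).2
    rwa [add_zero] at this
  have hQ1 : V.valuation (tt Q) < 1 := kr_tt_lt hG hQ
  rcases hQlow.lt_or_eq with hgt | heq'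
  · have hall : ∀ R : Tor act π, V.valuation (tt (Q + (R : Pt (WAB A B) Ω))) = V.valuation (tt Q) := by
      intro R
      have h4 := (hTor R.1 R.2).2
      have h5 := kr_tt_add hG hQ (hTor R.1 R.2).1 (V.valuation (tt Q)) le_rfl (h4.trans hQlow)
      have h6 : V.valuation (tt Q) ^ 2 < V.valuation (tt Q) := by
        rw [sq]
        calc V.valuation (tt Q) * V.valuation (tt Q) < V.valuation (tt Q) * 1 :=
              mul_lt_mul_of_pos_left hQ1 (hτ0.trans hgt)
          _ = _ := mul_one _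
      have e : tt (Q + (R : Pt (WAB A B) Ω)) = tt Q + ((tt (Q + (R : Pt (WAB A B) Ω)) - tt Q - tt (R : Pt (WAB A B) Ω)) + tt (R : Pt (WAB A B) Ω)) := by
        ring
      rw [e]
      exact Valuation.map_add_eq_of_lt_left _ (Valuation.map_add_lt _ (h5.trans_lt h6) (h4.trans_lt hgt))
    rw [Finset.prod_congr rfl fun R _ => hall R, Finset.prod_const, Finset.card_univ, hcard', hXn] at hprod
    have h7 : τ ^ (q * (q - 1)) < V.valuation (tt Q) ^ (q * (q - 1)) :=
      pow_lt_pow_left₀ hgt zero_le (Nat.mul_ne_zero (by omega) (by omega))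
    have h8 : ϖ ^ q < ϖ ^ (n * (q - 1)) := by
      calc ϖ ^ q = τ ^ (q * (q - 1)) := by
            rw [mul_comm, pow_mul]
            exact congrArg (fun z => z ^ q) hR₀q.symm
        _ < V.valuation (tt Q) ^ (q * (q - 1)) := h7
        _ = ϖ ^ (n * (q - 1)) := by rw [pow_mul, hprod, ← pow_mul]
    have h9 := hlt _ _ h8
    have hn : n = 1 := by
      by_contra hne
      have hn2 : 2 ≤ n := by omega
      have h10 : 2 * (q - 1) ≤ n * (q - 1) := Nat.mul_le_mul_right _ hn2
      omega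
    rw [hn, pow_one] at hprod
    exact hprod
  · exfalso
    have hall : ∀ R : Tor act π, V.valuation (tt (Q + (R : Pt (WAB A B) Ω))) = τ := by
      intro R
      refine le_antisymm ?_ (hlow R.1 R.2).2
      exact qv_add hG hQ (hTor R.1 R.2).1 τ hτ1.le heq'.symm.le (hTor R.1 R.2).2
    rw [Finset.prod_congr rfl fun R _ => hall R, Finset.prod_const, Finset.card_univ, hcard', hXn] at hprod
    have h8 : ϖ ^ q = ϖ ^ (n * (q - 1)) := by
      calc ϖ ^ q = τ ^ (q * (q - 1)) := by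
            rw [mul_comm, pow_mul]
            exact congrArg (fun z => z ^ q) hR₀q.symm
        _ = ϖ ^ (n * (q - 1)) := by rw [pow_mul, hprod, ← pow_mul]
    have h9 := heq _ _ h8
    have h10 : (q - 1) ∣ q := ⟨n, h9.trans (mul_comm _ _)⟩
    have h11 : (q - 1) ∣ 1 := by
      have h12 := Nat.dvd_sub h10 (dvd_refl (q - 1))
      have e : q - (q - 1) = 1 := by omega
      rwa [e] at h12
    have h12 := Nat.le_of_dvd one_pos h11
    omega

end H55K.S
end

-- from Lib.SSG.E.W10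
section

open NumberField IsDedekindDomain

namespace SSG.E

open H55N H55P

variable {F : Type} [Field F] [NumberField F] [IQ F] {K : Type} [Field K] [NumberField K]
  [Algebra F K] {m : ℕ}

/-! Chunk W10 (M). Summation by parts with an integer valued function G, the same for all classes. COPY of gspec_exists (Lib/H55P/B4.lean), with t i x = ((u i x - 1).val : integer) and G x = prod of t i x, an integer; u i is
additive and vanishes exactly on c i (B4_map), so u i (x + y) = u i x for y in c i, which gives the periodicity. The proof of GSpec uses of Dirs only mem, self, oth: for the context cx D q a these are: n w' i in q I (n in q), DirN.self, DirN.oth. -/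

theorem w10_spec (D : Ctx F K m) (hD : D.Ok)
    (w : Fin (m + 1) × Fin 2 → 𝓞 K) (hmem : ∀ i, w i ∈ D.I)
    (hother : ∀ i k, k ≠ i → w i ∈ D.c k)
    (u : (i : Fin (m + 1) × Fin 2) → 𝓞 K → ZMod (D.p i))
    (hu_add : ∀ i x y, u i (x + y) = u i x + u i y) (hu_zero : ∀ i x, u i x = 0 ↔ x ∈ D.c i)
    (hu_one : ∀ i, u i (w i) = 1) :
    D.GSpec w (fun x => ∏ i, (((u i x - 1).val : ℕ) : ℂ)) := by
  classical
  -- the functions t_i
  let t : Fin (m + 1) × Fin 2 → 𝓞 K → ℂ := fun i x => (((u i x - 1).val : ℕ) : ℂ)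
  have hbd : ∀ i x, ‖t i x‖ ≤ (D.p i : ℝ) := by
    intro i x
    have hpi : Fact (D.p i).Prime := ⟨hD.smooth.prime i⟩
    change ‖(((u i x - 1).val : ℕ) : ℂ)‖ ≤ _
    rw [Complex.norm_natCast]
    exact_mod_cast (ZMod.val_lt _).le
  have hself : ∀ i x, t i (x + w i) - t i x = if x ∈ D.c i then 1 - (D.p i : ℂ) else 1 := by
    intro i x
    change (((u i (x + w i) - 1).val : ℕ) : ℂ) - (((u i x - 1).val : ℕ) : ℂ) = _
    rw [hu_add, hu_one, add_sub_cancel_right, H55P.B4_val _ (hD.smooth.prime i)]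
    by_cases hx : x ∈ D.c i
    · rw [if_pos hx, if_pos ((hu_zero i x).2 hx)]
    · rw [if_neg hx, if_neg (fun h' => hx ((hu_zero i x).1 h'))]
  have hoth : ∀ i k x, k ≠ i → t i (x + w k) = t i x := by
    intro i k x hk
    change (((u i (x + w k) - 1).val : ℕ) : ℂ) = (((u i x - 1).val : ℕ) : ℂ)
    rw [hu_add, (hu_zero i (w k)).2 (hother k i (Ne.symm hk)), add_zero]
  let G : 𝓞 K → ℂ := fun x => ∏ i, t i x
  -- values at shifted points
  have hshift : ∀ (T : Finset (Fin (m + 1) × Fin 2)) (i : Fin (m + 1) × Fin 2) (x : 𝓞 K),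
      t i (x + ∑ k ∈ T, w k) = if i ∈ T then t i (x + w i) else t i x := by
    intro T
    induction T using Finset.induction_on with
    | empty => intro i x; simp
    | insert a T ha ih =>
      intro i x
      rw [Finset.sum_insert ha, ← add_assoc, ih i (x + w a)]
      by_cases hia : i = a
      · subst hia
        rw [if_neg ha, if_pos (Finset.mem_insert_self _ _)]
      · by_cases hiT : i ∈ T
        · rw [if_pos hiT, if_pos (Finset.mem_insert_of_mem hiT)]
          rw [show x + w a + w i = (x + w i) + w a by ring, hoth i a _ (Ne.symm hia)]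
        · rw [if_neg hiT, if_neg (by simp [hia, hiT]), hoth i a _ (Ne.symm hia)]
  have hG : ∀ (T : Finset (Fin (m + 1) × Fin 2)) (x : 𝓞 K), G (x + ∑ k ∈ T, w k) =
      (∏ i ∈ T, t i (x + w i)) * ∏ i ∈ Finset.univ \ T, t i x := by
    intro T x
    change ∏ i, t i (x + ∑ k ∈ T, w k) = _
    rw [← Finset.prod_sdiff (Finset.subset_univ T), mul_comm]
    congr 1
    · exact Finset.prod_congr rfl fun i hi => by rw [hshift, if_pos hi]
    · exact Finset.prod_congr rfl fun i hi => by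
        rw [hshift, if_neg (Finset.mem_sdiff.1 hi).2]
  have hg : ∀ x, D.g x = ∑ T ∈ (Finset.univ : Finset (Fin (m + 1) × Fin 2)).powerset,
      (-1) ^ T.card * G (x + ∑ k ∈ T, w k) := by
    intro x
    have h1 : D.g x = ∏ i, (t i (x + w i) - t i x) := by
      change ∏ i, _ = _
      refine Finset.prod_congr rfl fun i _ => ?_
      rw [hself]
    rw [h1]
    simp only [sub_eq_add_neg]
    rw [Finset.prod_add]
    refine Finset.sum_congr rfl fun T _ => ?_
    rw [hG, Finset.prod_neg]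
    have hcard : (Finset.univ \ T).card + T.card = (m + 1) * 2 := by
      rw [Finset.card_sdiff_add_card_eq_card (Finset.subset_univ T)]
      simp
    have hpar : (-1 : ℂ) ^ (Finset.univ \ T).card = (-1) ^ T.card := by
      have h2 : (-1 : ℂ) ^ ((Finset.univ \ T).card + T.card) = 1 := by
        rw [hcard, mul_comm, pow_mul]
        norm_num
      rw [pow_add] at h2
      have h3 : (-1 : ℂ) ^ T.card * (-1) ^ T.card = 1 := by
        rw [← mul_pow]; norm_num
      calc (-1 : ℂ) ^ (Finset.univ \ T).card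
          = (-1) ^ (Finset.univ \ T).card * ((-1) ^ T.card * (-1) ^ T.card) := by
            rw [h3, mul_one]
        _ = ((-1) ^ (Finset.univ \ T).card * (-1) ^ T.card) * (-1) ^ T.card := by ring
        _ = (-1) ^ T.card := by rw [h2, one_mul]
    rw [hpar]
    ring
  refine ⟨⟨∏ i, (D.p i : ℝ), ?_⟩, ?_⟩
  · intro x
    change ‖∏ i, t i x‖ ≤ _
    rw [norm_prod]
    exact Finset.prod_le_prod (fun i _ => norm_nonneg _) fun i _ => hbd i x
  · intro f hf
    have hGb : ∀ x, ‖G x‖ ≤ ∏ i, (D.p i : ℝ) := by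
      intro x
      change ‖∏ i, t i x‖ ≤ _
      rw [norm_prod]
      exact Finset.prod_le_prod (fun i _ => norm_nonneg _) fun i _ => hbd i x
    have hmemT : ∀ T : Finset (Fin (m + 1) × Fin 2), ∑ k ∈ T, w k ∈ D.I := fun T =>
      D.I.sum_mem fun k _ => hmem k
    -- translation
    let tr : Finset (Fin (m + 1) × Fin 2) → D.X ≃ D.X := fun T =>
      { toFun := fun x => ⟨x.1 + ∑ k ∈ T, w k, D.X_add x.2 (hmemT T)⟩
        invFun := fun x => ⟨x.1 - ∑ k ∈ T, w k, D.X_sub x.2 (hmemT T)⟩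
        left_inv := fun x => by
          apply Subtype.ext
          change x.1 + ∑ k ∈ T, w k - ∑ k ∈ T, w k = x.1
          ring
        right_inv := fun x => by
          apply Subtype.ext
          change x.1 - ∑ k ∈ T, w k + ∑ k ∈ T, w k = x.1
          ring }
    have hs1 : ∀ T : Finset (Fin (m + 1) × Fin 2),
        Summable fun x : D.X => (-1 : ℂ) ^ T.card * G (x.1 + ∑ k ∈ T, w k) * f x := by
      intro T
      refine Summable.of_norm_bounded (g := fun x : D.X => (∏ i, (D.p i : ℝ)) * ‖f x‖)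
        (hf.mul_left _) fun x => ?_
      rw [norm_mul, norm_mul, norm_pow, norm_neg, NormOneClass.norm_one, one_pow, one_mul]
      exact mul_le_mul_of_nonneg_right (hGb _) (norm_nonneg _)
    have hs2 : ∀ T : Finset (Fin (m + 1) × Fin 2),
        Summable fun x : D.X => G x.1 * ((-1 : ℂ) ^ T.card * f (x.1 - ∑ k ∈ T, w k)) := by
      intro T
      have := (Equiv.summable_iff (tr T).symm).2 (hs1 T)
      refine this.congr fun x => ?_
      change (-1 : ℂ) ^ T.card * G (x.1 - ∑ k ∈ T, w k + ∑ k ∈ T, w k) *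
          f (x.1 - ∑ k ∈ T, w k) = G x.1 * ((-1 : ℂ) ^ T.card * f (x.1 - ∑ k ∈ T, w k))
      rw [sub_add_cancel]
      ring
    calc ∑' x : D.X, D.g x * f x
        = ∑' x : D.X, ∑ T ∈ (Finset.univ : Finset (Fin (m + 1) × Fin 2)).powerset,
            (-1 : ℂ) ^ T.card * G (x.1 + ∑ k ∈ T, w k) * f x := by
          refine tsum_congr fun x => ?_
          rw [hg, Finset.sum_mul]
      _ = ∑ T ∈ (Finset.univ : Finset (Fin (m + 1) × Fin 2)).powerset,
            ∑' x : D.X, (-1 : ℂ) ^ T.card * G (x.1 + ∑ k ∈ T, w k) * f x :=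
          Summable.tsum_finsetSum fun T _ => hs1 T
      _ = ∑ T ∈ (Finset.univ : Finset (Fin (m + 1) × Fin 2)).powerset,
            ∑' x : D.X, G x.1 * ((-1 : ℂ) ^ T.card * f (x.1 - ∑ k ∈ T, w k)) := by
          refine Finset.sum_congr rfl fun T _ => ?_
          rw [← Equiv.tsum_eq (tr T).symm]
          refine tsum_congr fun x => ?_
          change (-1 : ℂ) ^ T.card * G (x.1 - ∑ k ∈ T, w k + ∑ k ∈ T, w k) *
              f (x.1 - ∑ k ∈ T, w k) = _
          rw [sub_add_cancel]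
          ring
      _ = ∑' x : D.X, ∑ T ∈ (Finset.univ : Finset (Fin (m + 1) × Fin 2)).powerset,
            G x.1 * ((-1 : ℂ) ^ T.card * f (x.1 - ∑ k ∈ T, w k)) :=
          (Summable.tsum_finsetSum fun T _ => hs2 T).symm
      _ = ∑' x : D.X, G x * Dif w Finset.univ f x := by
          refine tsum_congr fun x => ?_
          rw [Dif, Finset.mul_sum]

theorem gInt (D : Ctx F K m) (hD : D.Ok) (l : 𝓞 F) (q : Ideal (𝓞 K)) (n : ℕ) (hn : (n : 𝓞 K) ∈ q) (A : Fin (m + 1) → K)
    (w' : Fin (m + 1) × Fin 2 → 𝓞 K) (h : DirN D l n A w') :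
    ∃ G : 𝓞 K → ℤ, (∀ x y, (∀ i, y ∈ D.c i) → G (x + y) = G x) ∧
      ∀ a ∈ D.X, (cx D q a).GSpec (nw n w') (fun x => ((G x : ℤ) : ℂ)) := by
  classical
  choose u hu_add hu_zero hu_one using fun i => H55P.B4_map (D.c i) (D.p i) (hD.smooth.prime i)
    (hD.smooth.norm i) (nw n w' i) (h.self i)
  refine ⟨fun x => ∏ i, (((u i x - 1).val : ℕ) : ℤ), ?_, ?_⟩
  · intro x y hy
    refine Finset.prod_congr rfl fun i _ => ?_
    rw [hu_add, (hu_zero i y).2 (hy i), add_zero]
  · intro a ha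
    have h1 := w10_spec (cx D q a) (cx_ok D hD q ha) (nw n w')
      (fun i => Ideal.mul_mem_mul hn (h.mem i)) h.oth u hu_add hu_zero hu_one
    have h2 : (fun x => (((∏ i, (((u i x - 1).val : ℕ) : ℤ) : ℤ)) : ℂ)) =
        (fun x => ∏ i, (((u i x - 1).val : ℕ) : ℂ)) := by
      funext x
      push_cast
      rfl
    rw [h2]
    exact h1

end SSG.E
end
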