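import Mathlib
import Pool.Agent.Lib.H1M.PP2.D_H13R_D
import Pool.Agent.Lib.H1M.PP2.D_H28T_Defs
import Pool.Agent.Lib.H1M.PP2.D_H55C_Defs
import Pool.Agent.Lib.H1M.PP2.D_H55D_Defs
import Pool.Agent.Lib.H1M.PP2.D_H55P_Sel
import Pool.Agent.Lib.H1M.PP2.D_H55P_Stm
import Pool.Agent.Lib.H1M.PP2.D_H55P_Z10
import Pool.Agent.Lib.H1M.PP2.D_H55P_ZD
import Pool.Agent.Lib.H1M.PP2.M007
import Pool.Agent.Lib.H1M.PP2.M010
import Pool.Agent.Lib.H1M.PP2.M016
import Pool.Agent.Lib.H1M.PP2.M019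
import Pool.Agent.Lib.H1M.PP2.M020
import Pool.Agent.Lib.H1M.PP2.M023
import Pool.Agent.Lib.H1M.PP2.M031
import Pool.Agent.Lib.H1M.PP2.M032
import Pool.Agent.Lib.H1M.PP2.M040
import Pool.Agent.Lib.H1M.PP2.M041
import Pool.Agent.Lib.H1M.PP2.M046
import Pool.Agent.Lib.H1M.PP2.M047
import Pool.Agent.Lib.H1M.PP2.M048
import Pool.Agent.Lib.H1M.PP2.M050
import Pool.Agent.Lib.H1M.PP2.M051
import Pool.Agent.Lib.H1M.PP2.M052
import Pool.Agent.Lib.H1M.PP2.M054
import Pool.Agent.Lib.H1M.PP2.M059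
import Pool.Agent.Lib.H1M.PP2.M062
import Pool.Agent.Lib.H1M.PP2.M063
import Pool.Agent.Lib.H1M.PP2.M074
import Pool.Agent.Lib.H1M.PP2.M079
import Pool.Agent.Lib.H1M.PP2.M080
import Pool.Agent.Lib.H1M.PP2.M083
import Pool.Agent.Lib.H1M.PP2.M086
import Pool.Agent.Lib.H1M.PP2.M092
import Pool.Agent.Lib.H1M.PP2.M093
import Pool.Agent.Lib.H1M.PP2.M094
import Pool.Agent.Lib.H1M.PP2.M095
import Pool.Agent.Lib.H1M.PP2.M097

/-! Merged copies (to shorten the build) of Lib.H13R.C2, Lib.H13X.XZ2, Lib.H28T.W13, Lib.H55K.UB5A, Lib.H55K.UB5B, Lib.H28G.K6, Lib.H55P.Z5, Lib.H28I.G1, Lib.H35T.I4, Lib.H55P.Z2, Lib.H55P.Z1, Lib.H55K.Y9, Lib.H13X.XE, Lib.H55K.SIZ, Lib.SSG.E.W9, Lib.SSG.E.R6. -/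

-- from Lib.H13R.C2
section

/-! # H13R: a point of order p fixed by the inertia group over M -/

open NumberField IsDedekindDomain WeierstrassCurve

namespace H13R

open H55P (IQ embF eF LF Per IsHecke Pt ac Inert Dec Nm UnitP)
open H35P (WAB Ker tt GoodW IntW)
open H55K.MG (VC Crd)
open H55K H55K.TQ

variable {F : Type} [Field F] [NumberField F] {W₀ : WeierstrassCurve (𝓞 F)} {p : ℕ}

omit [NumberField F] in
/-- Transport of a point of order p along an equality of curves. -/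
theorem c2_tr {M Ω : Type} [Field M] [Field Ω] [DecidableEq Ω] [Algebra F Ω] [Algebra M Ω]
    {W₁ : WeierstrassCurve F} {W₂ : WeierstrassCurve M} (h : W₁⁄Ω = W₂⁄Ω) {p : ℕ} {T : Pt W₁ Ω} (hT : p • T = 0)
    (h0 : T ≠ 0) : ∃ T' : Pt W₂ Ω, p • T' = 0 ∧ T' ≠ 0 ∧ xc T' = xc T ∧ yc T' = yc T := by
  have key : ∀ (E₁ E₂ : WeierstrassCurve Ω) (_ : E₁ = E₂) (T : E₁.toAffine.Point), p • T = 0 → T ≠ 0 →
      ∃ T' : E₂.toAffine.Point, p • T' = 0 ∧ T' ≠ 0 ∧ xc T' = xc T ∧ yc T' = yc T := by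
    intro E₁ E₂ hE T hT h0
    subst hE
    exact ⟨T, hT, h0, rfl, rfl⟩
  exact key _ _ h T hT h0

/-- Chunk C2 (M). nos_up (T5.lean) and descent (T7B.lean) for the number field M in place of F (they are stated for any number field F and Ω an algebraic closure; Ω is an algebraic closure of M, g : Ω ≃ₐ[M] Ω gives g.restrictScalars F in M.fixingSubgroup), for the curve (WAB A B)⁄M = WAB A B over M (map_id of coefficients; ((WAB A B)⁄M)⁄Ω = (WAB A B)⁄Ω: transport the point T: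
equal curves, T = some x y; or cast), then good_of_V (T9C.lean) for M and the curve W₀⁄(𝓞 M) (its c₄, c₆ are the images; ((W₀⁄(𝓞 M))⁄M) = ((W₀⁄F)⁄M) by map_map): GoodAt ((W₀⁄F)⁄M) v, against hB. jj: c₄^3 = j₁ Δ for WAB A B as in T10.lean (y3_j), image in Ω; V contains the integers (t8_le). V(p) = 1: hV. -/
theorem core_bad (hΔ0 : W₀.Δ ≠ 0) (hj : ∃ j₀ : 𝓞 F, W₀.c₄ ^ 3 = j₀ * W₀.Δ) (hp : p.Prime) (h5 : 5 ≤ p) {A B : F}
    (hA : A = -(algebraMap (𝓞 F) F W₀.c₄) / 48) (hB' : B = -(algebraMap (𝓞 F) F W₀.c₆) / 864)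
    (M : IntermediateField F (AlgebraicClosure F)) [NumberField M] [DecidableEq (AlgebraicClosure F)] (hB : BadM W₀ M)
    {v : HeightOneSpectrum (𝓞 M)} (hΔ : algebraMap (𝓞 F) (𝓞 M) W₀.Δ ∈ v.asIdeal) {V : ValuationSubring (AlgebraicClosure F)}
    (hv : ∀ a : 𝓞 M, a ∈ v.asIdeal → V.valuation ((a : M) : AlgebraicClosure F) < 1)
    (hV : V.valuation (p : AlgebraicClosure F) = 1) {T : Pt (WAB A B) (AlgebraicClosure F)} (hT : p • T = 0) (h0 : T ≠ 0)
    (hfix : ∀ g ∈ M.fixingSubgroup, Inert V g → ac (WAB A B) g T = T) : False := by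
  have halg : Algebra.IsAlgebraic M (AlgebraicClosure F) := Algebra.IsAlgebraic.tower_top (K := F) M
  have hcl : IsAlgClosure M (AlgebraicClosure F) := ⟨inferInstance, halg⟩
  obtain ⟨W₁, hW₁⟩ : ∃ W₁ : WeierstrassCurve (𝓞 M), W₁ = W₀.map (algebraMap (𝓞 F) (𝓞 M)) := ⟨_, rfl⟩
  obtain ⟨A', hA'⟩ : ∃ A' : M, A' = algebraMap F M A := ⟨_, rfl⟩
  obtain ⟨B', hB''⟩ : ∃ B' : M, B' = algebraMap F M B := ⟨_, rfl⟩
  have hc4 : algebraMap (𝓞 M) M W₁.c₄ = algebraMap F M (algebraMap (𝓞 F) F W₀.c₄) := by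
    rw [hW₁, WeierstrassCurve.map_c₄, ← IsScalarTower.algebraMap_apply, ← IsScalarTower.algebraMap_apply]
  have hc6 : algebraMap (𝓞 M) M W₁.c₆ = algebraMap F M (algebraMap (𝓞 F) F W₀.c₆) := by
    rw [hW₁, WeierstrassCurve.map_c₆, ← IsScalarTower.algebraMap_apply, ← IsScalarTower.algebraMap_apply]
  have hA1 : A' = -(algebraMap (𝓞 M) M W₁.c₄) / 48 := by
    rw [hc4, hA', hA, map_div₀, map_neg, map_ofNat]
  have hB1 : B' = -(algebraMap (𝓞 M) M W₁.c₆) / 864 := by
    rw [hc6, hB'', hB', map_div₀, map_neg, map_ofNat]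
  have hW1Δ : W₁.Δ = algebraMap (𝓞 F) (𝓞 M) W₀.Δ := by
    rw [hW₁, WeierstrassCurve.map_Δ]
  have hW1c : W₁.c₄ = algebraMap (𝓞 F) (𝓞 M) W₀.c₄ := by
    rw [hW₁, WeierstrassCurve.map_c₄]
  have hΔ1 : W₁.Δ ≠ 0 := by
    rw [hW1Δ]
    exact (map_ne_zero_iff _ (FaithfulSMul.algebraMap_injective (𝓞 F) (𝓞 M))).2 hΔ0
  have hd := y3_ne W₁ hA1 hB1 hΔ1
  have hcur : (WAB A B)⁄(AlgebraicClosure F) = (WAB A' B')⁄(AlgebraicClosure F) := by
    have e1 : algebraMap M (AlgebraicClosure F) A' = algebraMap F (AlgebraicClosure F) A := by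
      rw [hA', ← IsScalarTower.algebraMap_apply]
    have e2 : algebraMap M (AlgebraicClosure F) B' = algebraMap F (AlgebraicClosure F) B := by
      rw [hB'', ← IsScalarTower.algebraMap_apply]
    apply WeierstrassCurve.ext
    · change algebraMap F (AlgebraicClosure F) 0 = algebraMap M (AlgebraicClosure F) 0
      rw [map_zero, map_zero]
    · change algebraMap F (AlgebraicClosure F) 0 = algebraMap M (AlgebraicClosure F) 0
      rw [map_zero, map_zero]
    · change algebraMap F (AlgebraicClosure F) 0 = algebraMap M (AlgebraicClosure F) 0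
      rw [map_zero, map_zero]
    · exact e1.symm
    · exact e2.symm
  obtain ⟨T', hT', h0', hx', hy'⟩ := c2_tr hcur hT h0
  have hfix' : ∀ g : AlgebraicClosure F ≃ₐ[M] AlgebraicClosure F, Inert V g → ac (WAB A' B') g T' = T' := by
    intro g hg
    have h1 : g.restrictScalars F ∈ M.fixingSubgroup := by
      rw [IntermediateField.mem_fixingSubgroup_iff]
      intro x hx
      exact g.commutes ⟨x, hx⟩
    have h2 : Inert V (g.restrictScalars F) := fun x hx => hg x hx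
    have h3 := hfix _ h1 h2
    obtain ⟨a1, a2, -⟩ := MG.ac_crd (W := WAB A B) (g.restrictScalars F) T
    obtain ⟨b1, b2, b3⟩ := MG.ac_crd (W := WAB A' B') g T'
    rw [h3] at a1 a2
    refine pt_ext (fun h => h0' (b3.1 h)) h0' ?_ ?_
    · rw [b1, hx']
      exact a1.symm
    · rw [b2, hy']
      exact a2.symm
  have hΔA : (WAB A' B').Δ ≠ 0 := by
    have e : (WAB A' B').Δ = -16 * (4 * A' ^ 3 + 27 * B' ^ 2) := by
      unfold WAB WeierstrassCurve.Δ WeierstrassCurve.b₂ WeierstrassCurve.b₄ WeierstrassCurve.b₆ WeierstrassCurve.b₈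
      ring
    rw [e]
    exact mul_ne_zero (by norm_num) hd
  have hj' : ∃ j₀ : 𝓞 M, W₁.c₄ ^ 3 = j₀ * W₁.Δ := by
    obtain ⟨j₀, hj₀⟩ := hj
    refine ⟨algebraMap (𝓞 F) (𝓞 M) j₀, ?_⟩
    rw [hW1c, hW1Δ, ← map_pow, hj₀, map_mul]
  obtain ⟨j₁, hj₁⟩ := y3_j W₁ hA1 hB1 hj'
  have hc4' : (WAB A' B').c₄ ^ 3 = (j₁ : M) * (WAB A' B').Δ := by
    have e1 : (WAB A' B').Δ = -16 * (4 * A' ^ 3 + 27 * B' ^ 2) := by
      unfold WAB WeierstrassCurve.Δ WeierstrassCurve.b₂ WeierstrassCurve.b₄ WeierstrassCurve.b₆ WeierstrassCurve.b₈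
      ring
    have e2 : (WAB A' B').c₄ = -48 * A' := by
      unfold WAB WeierstrassCurve.c₄ WeierstrassCurve.b₂ WeierstrassCurve.b₄
      ring
    rw [e1, e2]
    linear_combination (16 : M) * hj₁
  have hjj : ((WAB A' B')⁄(AlgebraicClosure F)).c₄ ^ 3 =
      ak (AlgebraicClosure F) j₁ * ((WAB A' B')⁄(AlgebraicClosure F)).Δ := by
    have e1 : ((WAB A' B')⁄(AlgebraicClosure F)).c₄ = algebraMap M (AlgebraicClosure F) (WAB A' B').c₄ :=
      WeierstrassCurve.map_c₄ _ _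
    have e2 : ((WAB A' B')⁄(AlgebraicClosure F)).Δ = algebraMap M (AlgebraicClosure F) (WAB A' B').Δ :=
      WeierstrassCurve.map_Δ _ _
    rw [e1, e2, ← map_pow, hc4', map_mul]
  have hv' : ∀ a : 𝓞 M, a ∈ v.asIdeal → V.valuation (ak (AlgebraicClosure F) a) < 1 := hv
  have hdes := descent hv' (nos_up hΔA (t8_le V j₁) hjj hp h5 hV hT' h0' hfix')
  have hgood := good_of_V W₁ hA1 hB1 v hv' hdes
  have hcur2 : W₁⁄M = (W₀⁄F)⁄M := by
    rw [hW₁]
    change (W₀.map (algebraMap (𝓞 F) (𝓞 M))).map (algebraMap (𝓞 M) M) = (W₀.map (algebraMap (𝓞 F) F)).map (algebraMap F M)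
    rw [WeierstrassCurve.map_map, WeierstrassCurve.map_map, ← IsScalarTower.algebraMap_eq, ← IsScalarTower.algebraMap_eq]
  rw [hcur2] at hgood
  exact hB v hΔ hgood

end H13R
end

-- from Lib.H13X.XZ2
section

/-! # H13X: port of H13Z/CZ2 -/

open NumberField IsDedekindDomain WeierstrassCurve

namespace H13X

open H55P (IQ embF eF LF Per IsHecke Pt ac Inert Dec Nm Coc)
open H35P (WAB Ker tt)
open H55K (Tor ak xc yc CMA Dta GV GMod cj cj_cj mul_cj cj_prime cj_dvd cj_nat Nm_cj Nm_mul Nm_nat)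
open H55K.S
open H13S (Abv)




variable {F : Type} [Field F] [NumberField F] [IQ F] {A B : F} {Om : ℂ} {Ω : Type} [Field Ω] [DecidableEq Ω]
  [Algebra F Ω] [IsAlgClosure F Ω] {j : Ω →+* ℂ} {act : 𝓞 F →+* AddMonoid.End (Pt (WAB A B) Ω)} {mo : Ideal (𝓞 F)}
  {ψ : Ideal (𝓞 F) →*₀ 𝓞 F}


/-- Chunk CZ2 (M). The pairing is perfect. Let A₀ be the group Hom(Multiplicative (Tor π), Ωˣ) (or into the l-th roots of unity); Tor π is a finite group of exponent l and Ω has enough roots of unity, so card A₀ = card Tor π = Nm π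
(CommGroup.card_monoidHom_of_hasEnoughRootsOfUnity or the like; HasEnoughRootsOfUnity for an algebraically closed field of characteristic 0). X -> e X · is an injective (he.nondeg, he.add_left) map from Tor (cj π), which has Nm (cj π) = Nm π elements (gi_gen), to A₀, hence surjective. -/
theorem pair_surj {π : 𝓞 F} {l : ℕ} (D : Dat A B Om j act mo ψ π l) {e : Pt (WAB A B) Ω → Pt (WAB A B) Ω → Ω} (he : Pairing A B act π l e)
    (κ : Pt (WAB A B) Ω → Ω) (hκ : ∀ T ∈ Tor act π, κ T ^ l = 1)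
    (hadd : ∀ T ∈ Tor act π, ∀ T' ∈ Tor act π, κ (T + T') = κ T * κ T') :
    ∃ X ∈ Tor act (cj π), ∀ T ∈ Tor act π, e X T = κ T := by
  classical
  have hchar : CharZero Ω := charZero_of_injective_algebraMap (algebraMap F Ω).injective
  have : IsAlgClosed Ω := IsAlgClosure.isAlgClosed F
  have hl0 : l ≠ 0 := D.hl.ne_zero
  have hNc : Nm (cj π) = Nm π := Nm_cj π
  have hπc : Prime (cj π) := cj_prime D.pr
  obtain ⟨hc1, -⟩ := gi_gen D.cma π D.pr
  obtain ⟨hc2, -⟩ := gi_gen D.cma (cj π) hπc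
  have hN0 : Nm π ≠ 0 := fun h => D.pr.ne_zero (H55P.Nm_eq_zero.1 h)
  have hf1 : Finite (Tor act π) := Nat.finite_of_card_ne_zero (by rw [hc1]; exact hN0)
  have hf2 : Finite (Tor act (cj π)) := Nat.finite_of_card_ne_zero (by rw [hc2, hNc]; exact hN0)
  -- the characters
  let G := Multiplicative (Tor act π)
  have : Finite G := hf1
  have hex : NeZero (Monoid.exponent G) := ⟨Monoid.exponent_ne_zero_of_finite⟩
  have : NeZero ((Monoid.exponent G : ℕ) : Ω) := ⟨Nat.cast_ne_zero.2 hex.out⟩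
  have hcard : Nat.card (G →* Ωˣ) = Nm π := by
    rw [CommGroup.card_monoidHom_of_hasEnoughRootsOfUnity]
    exact hc1
  have : Finite (G →* Ωˣ) := Nat.finite_of_card_ne_zero (by rw [hcard]; exact hN0)
  -- the character of a function
  have hunit : ∀ f : Pt (WAB A B) Ω → Ω, (∀ T ∈ Tor act π, f T ^ l = 1) →
      (∀ T ∈ Tor act π, ∀ T' ∈ Tor act π, f (T + T') = f T * f T') →
      ∃ χ : G →* Ωˣ, ∀ T : Tor act π, (χ (Multiplicative.ofAdd T) : Ω) = f T := by
    intro f hf hm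
    have hne : ∀ T : Tor act π, f T ≠ 0 := by
      intro T h
      have h1 := hf T T.2
      rw [h, zero_pow hl0] at h1
      exact zero_ne_one h1
    refine ⟨MonoidHom.mk' (fun T => Units.mk0 (f (Multiplicative.toAdd T : Tor act π)) (hne _)) ?_, ?_⟩
    · intro a b
      apply Units.ext
      rw [Units.val_mul, Units.val_mk0, Units.val_mk0, Units.val_mk0]
      exact hm _ (Multiplicative.toAdd a : Tor act π).2 _ (Multiplicative.toAdd b : Tor act π).2
    · intro T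
      rfl
  choose ψ hψ using fun X : Tor act (cj π) => hunit (e X) (fun T hT => he.root X X.2 T hT)
    (fun T hT T' hT' => he.add_right X X.2 T hT T' hT')
  have hinj : Function.Injective ψ := by
    intro X Y hXY
    have h1 : ∀ T ∈ Tor act π, e X T = e Y T := by
      intro T hT
      rw [← hψ X ⟨T, hT⟩, ← hψ Y ⟨T, hT⟩, hXY]
    have h2 : (X - Y : Pt (WAB A B) Ω) = 0 := by
      refine he.nondeg _ (AddSubgroup.sub_mem _ X.2 Y.2) fun T hT => ?_
      have h3 := he.add_left (X - Y) (AddSubgroup.sub_mem _ X.2 Y.2) Y Y.2 T hT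
      rw [sub_add_cancel, h1 T hT] at h3
      have h4 : e (Y : Pt (WAB A B) Ω) T ≠ 0 := by
        intro h
        have h5 := he.root Y Y.2 T hT
        rw [h, zero_pow hl0] at h5
        exact zero_ne_one h5
      exact (mul_eq_right₀ h4).1 h3.symm
    exact Subtype.ext (sub_eq_zero.1 h2)
  have hbij : Function.Bijective ψ :=
    (Nat.bijective_iff_injective_and_card ψ).2 ⟨hinj, by rw [hcard, hc2, hNc]⟩
  obtain ⟨χ, hχ⟩ := hunit κ hκ hadd
  obtain ⟨X, hX⟩ := hbij.2 χ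
  refine ⟨X, X.2, fun T hT => ?_⟩
  rw [← hψ X ⟨T, hT⟩, ← hχ ⟨T, hT⟩, hX]

end H13X
end

-- from Lib.H28T.W13
section

open NumberField IsDedekindDomain

namespace H28T

open H28R
open H55P H55R

variable {F : Type} [Field F] [NumberField F] {G : HeightOneSpectrum (𝓞 F) → Prop}

/-! Chunk W13 (M): ramification of K'/F. norm_le: absNorm of w' under is at most absNorm of w' (the residue field of w'.under embeds in that of w'). ram_PB: let W' be a prime of K' with ramificationIdx (𝓞 F) <> 1, W a prime of N above W' (under_exists), P = W.under (𝓞 C), Q = W.under (𝓞 K), v = W.under (𝓞 F) (= 𝓞 F). First case: v is not w.under, nor w'.under. For g in FixZ, ord P (g γ) = ord (g⁻¹ P) γ (H55R.ord_smul),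
g⁻¹ P lies over v (under_smulP), so it is not conjugate to w, w' and Gam.oth: p divides it. Gam.pp for g γ: apply g to a. unr_N with R = range r: the ramification index of W over 𝓞 C is 1. So the index of W over 𝓞 F is the product of the index of P over 𝓞 K (which divides [C:K], so p - 1: C/K is Galois (IsGalois.tower_top_of_isGalois), H55R.HC6_dvd for es and
Ideal.ramificationIdxIn_eq_ramificationIdx) and of the index of Q over 𝓞 F (Ideal.ramificationIdx_tower). If the last one is 1, ram_one with m = p - 1 gives ramificationIdx W' = 1: contradiction. So Q is ramified over F; by ExtG G p K, v is good, and B < absNorm Q <= absNorm W' (norm_le, Q = W'.under). Second case: v = w.under or w'.under: v is good and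
B < absNorm w = absNorm v (Nice.deg: inertia degree 1: absNorm w = absNorm v ^ inertiaDeg, H55R.D5_norm or Ideal.absNorm_eq_pow_inertiaDeg), absNorm v <= absNorm W'. ExtG G p K' (ramified primes lie over good primes) and the bound follow. -/

theorem norm_le {K L : Type} [Field K] [NumberField K] [Field L] [NumberField L] [Algebra K L]
    (W : Pl L) (w : Pl K) (h : W.under (𝓞 K) = w) :
    Ideal.absNorm w.asIdeal ≤ Ideal.absNorm W.asIdeal := by
  have h1 : w.asIdeal = W.asIdeal.comap (algebraMap (𝓞 K) (𝓞 L)) := by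
    rw [← h]
    rfl
  have hfin : Finite (𝓞 L ⧸ W.asIdeal) := Ideal.finiteQuotientOfFreeOfNeBot _ W.ne_bot
  have h2 := Ideal.quotientMap_injective' (f := algebraMap (𝓞 K) (𝓞 L)) (I := W.asIdeal)
    (H := h1.le) h1.ge
  have h3 := Nat.card_le_card_of_injective (α := 𝓞 K ⧸ w.asIdeal) (β := 𝓞 L ⧸ W.asIdeal) _ h2
  exact h3

/-- Ramification indices in towers. -/
theorem W13_tower {F₀ K L : Type} [Field F₀] [NumberField F₀] [Field K] [NumberField K] [Field L]
    [NumberField L] [Algebra F₀ K] [Algebra K L] [Algebra F₀ L] [IsScalarTower F₀ K L] (W : Pl L)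
    (w : Pl K) (h : W.under (𝓞 K) = w) :
    W.asIdeal.ramificationIdx (𝓞 F₀) =
      w.asIdeal.ramificationIdx (𝓞 F₀) * W.asIdeal.ramificationIdx (𝓞 K) := by
  have hl : W.asIdeal.LiesOver w.asIdeal := ⟨by rw [← h]; rfl⟩
  exact Ideal.ramificationIdx_tower (R := 𝓞 F₀) w.asIdeal W.asIdeal

theorem W13_dvd {K L : Type} [Field K] [NumberField K] [Field L] [NumberField L] [Algebra K L]
    [IsGalois K L] (W : Pl L) : W.asIdeal.ramificationIdx (𝓞 K) ∣ Module.finrank K L := by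
  have h1 := (HC6_dvd (L := L) (W.under (𝓞 K))).1
  have hp := (W.under (𝓞 K)).isPrime
  have hW := W.isPrime
  have hl : W.asIdeal.LiesOver (W.under (𝓞 K)).asIdeal := ⟨rfl⟩
  have h2 := Ideal.ramificationIdxIn_eq_ramificationIdx (W.under (𝓞 K)).asIdeal W.asIdeal Gal(L/K)
  rw [← h2]
  exact h1

theorem W13_norm {K L : Type} [Field K] [NumberField K] [Field L] [NumberField L] [Algebra K L]
    [IsGalois K L] (W : Pl L) (h : W.asIdeal.inertiaDeg (𝓞 K) = 1) :
    Ideal.absNorm W.asIdeal = Ideal.absNorm (W.under (𝓞 K)).asIdeal := by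
  have h1 := D5_norm (L := L) (W.under (𝓞 K)) W rfl
  have hp := (W.under (𝓞 K)).isPrime
  have hW := W.isPrime
  have hl : W.asIdeal.LiesOver (W.under (𝓞 K)).asIdeal := ⟨rfl⟩
  have h2 := Ideal.inertiaDegIn_eq_inertiaDeg (W.under (𝓞 K)).asIdeal W.asIdeal Gal(L/K)
  rw [h] at h2
  have h3 : fs K L (W.under (𝓞 K)) = 1 := h2
  rw [h3, pow_one] at h1
  exact h1

/-- A prime over a place which is not below w, w': the generators of N/C satisfy the hypothesis of unr_N. -/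
theorem W13_one {p : ℕ} (hp : p.Prime) (h5 : 5 ≤ p) {K C N : Type} [Field K] [NumberField K]
    [Field C] [NumberField C] [Field N] [NumberField N] [Algebra F K] [Algebra F C] [Algebra F N]
    [Algebra K C] [Algebra C N] [IsScalarTower F K C] [IsScalarTower F C N]
    {ζ : C} (hC : Cyc F p K C ζ) {B : ℕ} {γ : Cˣ} {w w' : Pl C}
    (hγ : Gam G p K C ζ B γ w w') {r : FixZ F ζ → N} (hr : WrP p F C N ζ γ r) (W : Pl N) (P : Pl C)
    (hP : W.under (𝓞 C) = P) (h1 : P.asIdeal.under (𝓞 F) ≠ w.asIdeal.under (𝓞 F))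
    (h2 : P.asIdeal.under (𝓞 F) ≠ w'.asIdeal.under (𝓞 F)) : W.asIdeal.ramificationIdx (𝓞 C) = 1 := by
  have hG := hr.gal
  have hGC : IsGalois C N := IsGalois.tower_top_of_isGalois F C N
  refine unr_N hp (by omega) hC.prim (Set.range r) hr.gen W P hP ?_
  rintro _ ⟨g, rfl⟩
  refine ⟨Units.map (((g : C ≃ₐ[F] C) : C ≃ₐ[F] C) : C →* C) γ, hr.pow g, ?_, ?_⟩
  · obtain ⟨a, ha, hd⟩ := hγ.pp
    refine ⟨(g : C ≃ₐ[F] C) • a, ?_, ?_⟩
    · show (g : C ≃ₐ[F] C) (a : C) = (g : C ≃ₐ[F] C) (γ : C)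
      rw [ha]
    · obtain ⟨b, hb⟩ := hd
      refine ⟨(g : C ≃ₐ[F] C) • b, ?_⟩
      have h3 : (g : C ≃ₐ[F] C) • (a - 1) = (g : C ≃ₐ[F] C) • ((p : 𝓞 C) ^ 2 * b) := by rw [hb]
      rw [smul_sub, smul_one, smul_mul', smul_pow'] at h3
      rw [h3]
      congr 2
      apply RingOfIntegers.ext
      have h4 : (((p : 𝓞 C)) : C) = (p : C) := map_natCast (algebraMap (𝓞 C) C) p
      show (g : C ≃ₐ[F] C) ((p : 𝓞 C) : C) = ((p : 𝓞 C) : C)
      rw [h4, map_natCast]
  · let g' : C ≃ₐ[F] C := (g : C ≃ₐ[F] C)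
    have h3 := ord_smul g' (smulP g'⁻¹ P) γ
    rw [← smulP_mul, mul_inv_cancel, smulP_one] at h3
    have h4 : ord P (Units.map ((g' : C ≃ₐ[F] C) : C →* C) γ) = ord (smulP g'⁻¹ P) γ := h3
    show (p : ℤ) ∣ ord P (Units.map ((g' : C ≃ₐ[F] C) : C →* C) γ)
    rw [h4]
    apply hγ.oth
    have hu : (smulP g'⁻¹ P).asIdeal.under (𝓞 F) = P.asIdeal.under (𝓞 F) :=
      congrArg HeightOneSpectrum.asIdeal (under_smulP g'⁻¹ P)
    have hd : ∀ (δ : C ≃ₐ[K] C) (x : Pl C), (smulP δ x).asIdeal.under (𝓞 F) = x.asIdeal.under (𝓞 F) := by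
      intro δ x
      have h5 := congrArg HeightOneSpectrum.asIdeal (under_smulP δ x)
      have h6 : (smulP δ x).asIdeal.under (𝓞 K) = x.asIdeal.under (𝓞 K) := h5
      have h7 : ∀ I : Ideal (𝓞 C), I.under (𝓞 F) = (I.under (𝓞 K)).under (𝓞 F) := fun I =>
        (Ideal.under_under I).symm
      rw [h7, h6, ← h7]
    intro δ
    constructor
    · intro h
      apply h1
      rw [← hu, h, hd]
    · intro h
      apply h2
      rw [← hu, h, hd]

theorem ram_PB {p : ℕ} (hp : p.Prime) (h5 : 5 ≤ p) {K C N K' : Type} [Field K] [NumberField K]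
    [Field C] [NumberField C] [Field N] [NumberField N] [Field K'] [NumberField K'] [Algebra F K]
    [Algebra F C] [Algebra F N] [Algebra F K'] [Algebra K C] [Algebra K N] [Algebra K K']
    [Algebra C N] [Algebra K' N] [IsScalarTower F K C] [IsScalarTower F C N] [IsScalarTower K C N]
    [IsScalarTower F K N] [IsScalarTower F K K'] [IsScalarTower F K' N] [IsScalarTower K K' N]
    {ζ : C} (hC : Cyc F p K C ζ) {B : ℕ} (hK : PB G p K B) {γ : Cˣ} {w w' : Pl C}
    (hγ : Gam G p K C ζ B γ w w') {r : FixZ F ζ → N} (hr : WrP p F C N ζ γ r) (hG : IsGalois F K')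
    (hk : ∃ n : ℕ, Module.finrank F K' = p ^ n) : PB G p K' B := by
  have hGN := hr.gal
  have hGC := hC.gal
  have key : ∀ W' : Pl K', W'.asIdeal.ramificationIdx (𝓞 F) ≠ 1 →
      (∀ v : HeightOneSpectrum (𝓞 F), v.asIdeal = W'.asIdeal.under (𝓞 F) → G v) ∧
      B < Ideal.absNorm W'.asIdeal := by
    intro W' hW'
    obtain ⟨W, hW⟩ := under_exists (L := N) W'
    have hv1 : W.asIdeal.under (𝓞 F) = W'.asIdeal.under (𝓞 F) := by
      rw [← hW]
      exact (Ideal.under_under W.asIdeal).symm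
    have hv2 : (W.under (𝓞 C)).asIdeal.under (𝓞 F) = W'.asIdeal.under (𝓞 F) := by
      rw [← hv1]
      exact Ideal.under_under W.asIdeal
    -- the primes below a nice prime
    have hnice : ∀ x : Pl C, Nice G p C B x → (W.under (𝓞 C)).asIdeal.under (𝓞 F) = x.asIdeal.under (𝓞 F) →
        (∀ v : HeightOneSpectrum (𝓞 F), v.asIdeal = W'.asIdeal.under (𝓞 F) → G v) ∧
        B < Ideal.absNorm W'.asIdeal := by
      intro x hx hxx
      refine ⟨fun v hv => hx.good v (by rw [hv, ← hv2, hxx]), ?_⟩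
      have h1 : Ideal.absNorm x.asIdeal = Ideal.absNorm (x.under (𝓞 F)).asIdeal :=
        W13_norm x hx.deg
      have h2 : (x.under (𝓞 F)) = W'.under (𝓞 F) := by
        apply HeightOneSpectrum.ext
        show x.asIdeal.under (𝓞 F) = W'.asIdeal.under (𝓞 F)
        rw [← hxx, hv2]
      have h3 := norm_le W' (W'.under (𝓞 F)) rfl
      rw [← h2, ← h1] at h3
      exact lt_of_lt_of_le hx.big h3
    by_cases h1 : (W.under (𝓞 C)).asIdeal.under (𝓞 F) = w.asIdeal.under (𝓞 F)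
    · exact hnice w hγ.nice h1
    by_cases h2 : (W.under (𝓞 C)).asIdeal.under (𝓞 F) = w'.asIdeal.under (𝓞 F)
    · exact hnice w' hγ.nice' h2
    have he := W13_one hp h5 hC hγ hr W _ rfl h1 h2
    have hQ : (W.under (𝓞 C)).under (𝓞 K) = W'.under (𝓞 K) := by
      apply HeightOneSpectrum.ext
      show (W.asIdeal.under (𝓞 C)).under (𝓞 K) = W'.asIdeal.under (𝓞 K)
      rw [Ideal.under_under, ← hW]
      exact (Ideal.under_under W.asIdeal).symm
    have ht1 := W13_tower (F₀ := F) W (W.under (𝓞 C)) rfl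
    have ht2 := W13_tower (F₀ := F) (W.under (𝓞 C)) (W'.under (𝓞 K)) hQ
    have hGKC : IsGalois K C := IsGalois.tower_top_of_isGalois F K C
    have hd1 := (W13_dvd (K := K) (W.under (𝓞 C))).trans hC.deg
    have hram : (W'.under (𝓞 K)).asIdeal.ramificationIdx (𝓞 F) ≠ 1 := by
      intro h0
      apply hW'
      have hcop : (p - 1).Coprime p := by
        have := (Nat.coprime_self_add_right (m := p - 1) (n := 1)).2 (Nat.coprime_one_right _)
        rwa [Nat.sub_add_cancel hp.one_le] at this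
      refine ram_one (F₀ := F) hp hk hcop W' W hW ?_
      rw [ht1, he, mul_one, ht2]
      have h0' : (W'.under (𝓞 K)).asIdeal.ramificationIdx (𝓞 F) = 1 := h0
      rw [h0', one_mul]
      exact hd1
    refine ⟨fun v hv => ?_, ?_⟩
    · by_contra hg
      apply hram
      refine hK.1.2.2 (W'.under (𝓞 K)) v ?_ hg
      rw [hv]
      exact (Ideal.under_under W'.asIdeal).symm
    · exact lt_of_lt_of_le (hK.2 _ hram) (norm_le W' _ rfl)
  refine ⟨⟨hG, hk, fun W' v hv hg => ?_⟩, fun W' hW' => (key W' hW').2⟩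
  by_contra h
  exact hg ((key W' h).1 v hv)

end H28T
end

-- from Lib.H55K.UB5A
section

/-! # H55K: elliptic units: the norm relation -/

open NumberField IsDedekindDomain WeierstrassCurve

namespace H55K

open H55P (IQ embF eF LF Per IsHecke Pt ac Inert Dec Nm)
open H35P (WAB Ker tt)


variable {F : Type} [Field F] [NumberField F] [IQ F] {A B : F} {Om : ℂ} {Ω : Type} [Field Ω] [DecidableEq Ω]
  [Algebra F Ω] {j : Ω →+* ℂ} {act : 𝓞 F →+* AddMonoid.End (Pt (WAB A B) Ω)} {m : Ideal (𝓞 F)}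
  {ψ : Ideal (𝓞 F) →*₀ 𝓞 F} {l : ℕ} {μ : 𝓞 F} {a : ℕ} {ρ τ : Pt (WAB A B) Ω} {H R : Finset (𝓞 F)}
  {D S : Finset (Pt (WAB A B) Ω)}

/-- Chunk UB5A (M). e2 for b = β and Y = Q in S (act β Q ≠ 0 since β is prime to a), product over Q; prod_S gives Phi S (act β X) = product over Q of (xc (act β X) - xc (act β Q)). C = product over Q of β^2 * prod over R of (xc R - xc Q) is not 0: xc R = xc Q would give R = Q or R = -Q (xc_eq), killed by β and a. -/
theorem Phi_dist (h : Dta A B Om j act m ψ l) (hU : UDat Om j act m ψ l μ a ρ τ H R D S) {β : 𝓞 F}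
    (hβ : β ≠ 0) (hβa : IsCoprime β (a : 𝓞 F)) {S' : Finset (Pt (WAB A B) Ω)} (hS : TN act β S') :
    ∃ C : Ω, C ≠ 0 ∧ ∀ X : Pt (WAB A B) Ω, act β X ≠ 0 →
      Phi S X * ∏ Q ∈ S', Phi S (X + Q) = C * Phi S (act β X) := by
  have hne : ∀ Q ∈ S, act β Q ≠ 0 := by
    intro Q hQ h0
    have h1 := (hU.memS Q).1 hQ
    exact h1.2 (ub2_cop act hβa h0 h1.1)
  have hβΩ : ak Ω β ≠ 0 := by
    intro h0
    apply hβ
    have h1 : (β : F) = 0 := (algebraMap F Ω).injective (by rw [map_zero]; exact h0)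
    exact RingOfIntegers.coe_injective (h1.trans (map_zero (algebraMap (𝓞 F) F)).symm)
  refine ⟨∏ Q ∈ S, (ak Ω β ^ 2 * ∏ R ∈ S', (xc R - xc Q)), ?_, ?_⟩
  · rw [Finset.prod_ne_zero_iff]
    intro Q hQ
    refine mul_ne_zero (pow_ne_zero 2 hβΩ) ?_
    rw [Finset.prod_ne_zero_iff]
    intro R hR h0
    have h1 := (hU.memS Q).1 hQ
    have h2 := (hS R).1 hR
    rcases xc_eq h2.2 h1.2 (sub_eq_zero.1 h0) with h3 | h3
    · rw [h3] at h2
      exact hne Q hQ h2.1
    · rw [h3, map_neg, neg_eq_zero] at h2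
      exact hne Q hQ h2.1
  · intro X hX
    have h1 : ∏ Q ∈ S, (ak Ω β ^ 2 * (xc (act β X) - xc (act β Q)) * ∏ R ∈ S', (xc R - xc Q)) =
        ∏ Q ∈ S, ((xc X - xc Q) * ∏ R ∈ S', (xc (X + R) - xc Q)) :=
      Finset.prod_congr rfl fun Q hQ => h.cma.e2 β S' hβ hS X Q hX (hne Q hQ)
    have h2 : ∏ Q ∈ S, (xc (act β X) - xc (act β Q)) = Phi S (act β X) :=
      prod_S hU hβa (fun T => xc (act β X) - xc T)
    rw [Finset.prod_mul_distrib (g := fun Q => ∏ R ∈ S', (xc (X + R) - xc Q)),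
      Finset.prod_comm] at h1
    unfold Phi at h2 ⊢
    rw [← h1, ← h2, ← Finset.prod_mul_distrib]
    refine Finset.prod_congr rfl fun Q _ => ?_
    ring

end H55K
end

-- from Lib.H55K.UB5B
section

/-! # H55K: elliptic units: the norm relation -/

open NumberField IsDedekindDomain WeierstrassCurve

namespace H55K

open H55P (IQ embF eF LF Per IsHecke Pt ac Inert Dec Nm)
open H35P (WAB Ker tt)


variable {F : Type} [Field F] [NumberField F] [IQ F] {A B : F} {Om : ℂ} {Ω : Type} [Field Ω] [DecidableEq Ω]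
  [Algebra F Ω] {j : Ω →+* ℂ} {act : 𝓞 F →+* AddMonoid.End (Pt (WAB A B) Ω)} {m : Ideal (𝓞 F)}
  {ψ : Ideal (𝓞 F) →*₀ 𝓞 F} {l : ℕ} {μ : 𝓞 F} {a : ℕ} {ρ τ : Pt (WAB A B) Ω} {H R : Finset (𝓞 F)}
  {D S : Finset (Pt (WAB A B) Ω)}

/-- Chunk UB5B (M). Phi_dist for X₀ + T and X₀ - T, X₀ in D: act β (X₀ ± T) ≠ 0, otherwise Nm μ * β kills T and so does l (D_ne; IsCoprime β l, hU.cop). prod over S' of Phi S (X₀ - T - R) = prod of Phi S (X₀ - T + R) (prod_neg). C cancels, prod_D. -/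
theorem Xi_norm (h : Dta A B Om j act m ψ l) (hU : UDat Om j act m ψ l μ a ρ τ H R D S) {β : 𝓞 F}
    (hβ : β ≠ 0) (hP : Prm m ψ β) (hβa : IsCoprime β (a : 𝓞 F)) (hβl : IsCoprime β (l : 𝓞 F))
    {S' : Finset (Pt (WAB A B) Ω)} (hS : TN act β S') {T : Pt (WAB A B) Ω} (hT : l • T = 0) (h0 : T ≠ 0) :
    Xi D S T * ∏ Q ∈ S', Xi D S (T + Q) = Xi D S (act β T) := by
  obtain ⟨C, hC, hCX⟩ := Phi_dist h hU hβ hβa hS
  have hlμ : IsCoprime μ (l : 𝓞 F) := by
    rw [← Ideal.isCoprime_span_singleton_iff, hU.mu]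
    exact h.cop
  have hlμ' : IsCoprime (cj μ) (l : 𝓞 F) := by
    obtain ⟨u, v, huv⟩ := hlμ
    refine ⟨cj u, cj v, ?_⟩
    have h1 := congrArg cj huv
    rwa [map_add, map_mul, map_mul, cj_nat, map_one] at h1
  have hcop : IsCoprime (β * (Nm μ : 𝓞 F)) (l : 𝓞 F) := by
    rw [← mul_cj]
    exact IsCoprime.mul_left hβl (IsCoprime.mul_left hlμ hlμ')
  have hT' : act (l : 𝓞 F) T = 0 := by
    rw [← ub2_nsmul]
    exact hT
  have hne : ∀ X ∈ D, ∀ Y : Pt (WAB A B) Ω, act (l : 𝓞 F) Y = 0 → Y ≠ 0 → act β (X + Y) ≠ 0 := by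
    intro X hX Y hY hY0 h0
    apply hY0
    have h1 := (D_ne h hU hX).2
    rw [ub2_nsmul act] at h1
    refine ub2_cop act hcop ?_ hY
    have h2 : act (β * (Nm μ : 𝓞 F)) (X + Y) = 0 := by
      rw [mul_comm, ← ub2_mul, h0, map_zero]
    rw [map_add, ← ub2_mul act _ _ X, h1, map_zero, zero_add] at h2
    exact h2
  have hmain : ∀ X ∈ D, (Phi S (X + T) / Phi S (X - T)) * ∏ Q ∈ S', (Phi S (X + (T + Q)) /
      Phi S (X - (T + Q))) = Phi S (act β X + act β T) / Phi S (act β X - act β T) := by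
    intro X hX
    have h1 := hCX (X + T) (hne X hX T hT' h0)
    have h2 := hCX (X - T) (by
      rw [sub_eq_add_neg]
      exact hne X hX (-T) (by rw [map_neg, hT', neg_zero]) (neg_ne h0))
    have h3 : ∏ Q ∈ S', Phi S (X - (T + Q)) = ∏ Q ∈ S', Phi S (X - T + Q) := by
      rw [← prod_neg hS]
      refine Finset.prod_congr rfl fun Q _ => ?_
      congr 1
      abel
    have h4 : ∏ Q ∈ S', Phi S (X + (T + Q)) = ∏ Q ∈ S', Phi S (X + T + Q) := by
      refine Finset.prod_congr rfl fun Q _ => ?_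
      rw [add_assoc]
    rw [Finset.prod_div_distrib, h3, h4, div_mul_div_comm, h1, h2, map_add, map_sub,
      mul_div_mul_left _ _ hC]
  have hD := prod_D hU hP (fun Y => Phi S (Y + act β T) / Phi S (Y - act β T))
  unfold Xi
  rw [← hD, Finset.prod_comm, ← Finset.prod_mul_distrib]
  exact Finset.prod_congr rfl hmain

end H55K
end

-- from Lib.H28G.K6
section

open NumberField IsDedekindDomain WeierstrassCurve

namespace H28G

open H55B H55R H99B

open scoped Pointwise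

/-! Chunk K6 (M): Frobenius at 2. kron_two: (any valuation v with v 2 < 1; then v 3 = 1.) X = (x, y) integral (int_y), f = fc X = 2 y + 1, v(f) = 1, so fc X <> 0; dbl_coords: xc(2X) = (3x^2/f)^2 - 2x = 9x^4/f^2 - 2x, and f = 1 mod v, so xc(2X) = x^4 mod v (v(x) <= 1).
act (-2) X = -(X + X) (act_neg, act_int), xc_neg, yc_neg: yc(-2X) = -1 - yc(2X) = (3x^2/f)(xc(2X) - x) + y = x^2 (x^4 - x) + y = x^6 - x^3 + y = (y^2+y)^2 - (y^2+y) + y = y^4 mod v (2 = 0).
frob: N/K Galois, W a prime of N: Mathlib IsArithFrobAt.exists_of_isInvariant (G = Gal(N/K), R = 𝓞 K, S = 𝓞 N, Q = W.asIdeal): σ with σ x - x^(card (𝓞 K / (W under 𝓞 K))) in W for all x in 𝓞 N. For x in N integral at W: x = a/s, s not in W: both sides.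
not_cyc: W a prime of N above 2 (under_exists for the prime (2) of O, 2 is prime in O: two_prime, absNorm = 4: Nm 2 = 4). 3, b not in W (b is prime to 2: hypothesis). σ from frob: σ x = x^4 mod W for W-integral x. For R in Tor b N, R <> 0: xc(sp σ R) = xc(R)^4 = xc(act (-2) R) mod W,
same for yc, so sp σ R = act (-2) R (fix_of_cong; act (-2) R is in Tor b and <> 0). With c such that q c = χ σ: act c R = act (-2) R, so b | c + 2 (act_eq_zero), χ σ = q(-2) = -2 = (l - 2 : ℕ) in k. Suppose the displayed condition: σ ζ = ζ^(l-2) (n = l - 2), and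
σ ζ = ζ^4 mod W (ζ is integral). ζ^(l-2) <> ζ^4 (l does not divide l - 6; l >= 5 prime: for l = 5: ζ^3 <> ζ^4), but they are l-th roots of unity congruent modulo W, l not in W: ζ^i - ζ^j divides l for i <> j mod l (prod_{i=1}^{l-1}(1 - ζ^i) = l:
IsPrimitiveRoot.. or Polynomial.cyclotomic_prime evaluated at 1; compare H99B.D2/kummer_spl), so l in W; but 2 in W and l is odd: 1 in W. Contradiction. -/

section
variable {k : Type} [Field k] [DecidableEq k] [Algebra F k]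
  {Γ : Type} [LinearOrderedCommGroupWithZero Γ] (v : Valuation k Γ)

omit [DecidableEq k] [Algebra F k] in
theorem K6_mul {a b : k} (ha : v a ≤ 1) (hb : v b < 1) : v (a * b) < 1 := by
  rw [map_mul]
  calc v a * v b ≤ 1 * v b := mul_le_mul_left ha _
    _ = v b := one_mul _
    _ < 1 := hb

omit [DecidableEq k] [Algebra F k] in
theorem K6_add {a b : k} (ha : v a < 1) (hb : v b < 1) : v (a + b) < 1 :=
  lt_of_le_of_lt (v.map_add a b) (max_lt ha hb)



omit [DecidableEq k] [Algebra F k] in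
theorem K6_pow {a : k} (ha : v a ≤ 1) (n : ℕ) : v (a ^ n) ≤ 1 := by
  rw [map_pow]
  exact pow_le_one' ha n


end

theorem K6_frob {K N : Type} [Field K] [NumberField K] [Field N] [NumberField N] [Algebra K N]
    [IsGalois K N] (W : Pl N) : ∃ σ : Gal(N/K), IsArithFrobAt (𝓞 K) σ W.asIdeal := by
  have hW := W.isPrime
  have hf : Finite (𝓞 N ⧸ W.asIdeal) := Ideal.finiteQuotientOfFreeOfNeBot W.asIdeal W.ne_bot
  exact IsArithFrobAt.exists_of_isInvariant (𝓞 K) Gal(N/K) W.asIdeal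

theorem K6_card {K N : Type} [Field K] [NumberField K] [Field N] [NumberField N] [Algebra K N]
    (W : Pl N) (v : Pl K) (hW : W.under (𝓞 K) = v) :
    Nat.card (𝓞 K ⧸ W.asIdeal.under (𝓞 K)) = Ideal.absNorm v.asIdeal := by
  have h : W.asIdeal.under (𝓞 K) = v.asIdeal := congrArg HeightOneSpectrum.asIdeal hW
  rw [h, Ideal.absNorm_apply, Submodule.cardQuot_apply]

theorem K6_frob_val {K N : Type} [Field K] [NumberField K] [Field N] [NumberField N] [Algebra K N]
    [IsGalois K N] (W : Pl N) (v : Pl K) (hW : W.under (𝓞 K) = v) (σ : Gal(N/K))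
    (hσ : IsArithFrobAt (𝓞 K) σ W.asIdeal) (x : N) (hx : W.valuation N x ≤ 1) :
    W.valuation N (σ x - x ^ Ideal.absNorm v.asIdeal) < 1 := by
  have hWp := W.isPrime
  have hc := K6_card W v hW
  have h1 : ∀ y : 𝓞 N, W.valuation N (σ (y : N) - (y : N) ^ Ideal.absNorm v.asIdeal) < 1 := by
    intro y
    have h2 := hσ y
    rw [hc] at h2
    have h3 := (HeightOneSpectrum.valuation_lt_one_iff_mem (K := N) W _).2 h2
    exact h3
  have hval : ∀ y : 𝓞 N, W.valuation N (y : N) ≤ 1 := fun y =>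
    HeightOneSpectrum.valuation_le_one W y
  obtain ⟨n, d, h⟩ := HeightOneSpectrum.exists_primeCompl_mul_eq_of_integer W x hx
  have hd : (d : 𝓞 N) ∉ W.asIdeal := d.2
  have hd1 : W.valuation N ((d : 𝓞 N) : N) = 1 :=
    (HeightOneSpectrum.valuation_eq_one_iff_notMem (K := N) W).2 hd
  set q := Ideal.absNorm v.asIdeal with hq
  set D : N := ((d : 𝓞 N) : N) with hD
  set M : N := ((n : 𝓞 N) : N) with hM
  have hxd : x * D = M := h
  have hD0 : D ≠ 0 := by
    intro h0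
    rw [h0, map_zero] at hd1
    exact zero_ne_one hd1
  have hsD : W.valuation N (σ D) = 1 := by
    have e : σ D = D ^ q + (σ D - D ^ q) := by ring
    rw [e, Valuation.map_add_eq_of_lt_left]
    · rw [map_pow, hd1, one_pow]
    · rw [map_pow, hd1, one_pow]
      exact h1 d
  have hsM : σ x * σ D = σ M := by rw [← map_mul, hxd]
  have key : σ D * D ^ q * (σ x - x ^ q) = D ^ q * (σ M - M ^ q) +
      (-(M ^ q)) * (σ D - D ^ q) := by
    rw [← hsM, ← hxd, mul_pow]
    ring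
  have h4 : W.valuation N (σ D * D ^ q * (σ x - x ^ q)) < 1 := by
    rw [key]
    refine K6_add _ (K6_mul _ (K6_pow _ (hval d) q) (h1 n)) (K6_mul _ ?_ (h1 d))
    rw [Valuation.map_neg]
    exact K6_pow _ (hval n) q
  rw [map_mul, map_mul, hsD, map_pow, hd1, one_pow, one_mul, one_mul] at h4
  exact h4

theorem frob {K N : Type} [Field K] [NumberField K] [Field N] [NumberField N] [Algebra K N]
    [IsGalois K N] (W : Pl N) (v : Pl K) (hW : W.under (𝓞 K) = v) : ∃ σ : Gal(N/K), smulP σ W = W ∧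
      ∀ x : N, W.valuation N x ≤ 1 →
        W.valuation N (σ x - x ^ Ideal.absNorm v.asIdeal) < 1 := by
  have hWp := W.isPrime
  obtain ⟨σ, hσ⟩ := K6_frob (K := K) W
  refine ⟨σ, ?_, fun x hx => K6_frob_val W v hW σ hσ x hx⟩
  have h := IsArithFrobAt.mem_stabilizer hσ
  rw [MulAction.mem_stabilizer_iff] at h
  exact HeightOneSpectrum.ext h


end H28G
end

-- from Lib.H55P.Z5
section

open NumberField IsDedekindDomain WeierstrassCurve

namespace H55P

open H55N
open H55B (F O om e emb Prim R)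

/-! Chunk PZ5 (M). The number of points of the reduction of y^2 + y = x^3 modulo a prime v of K not above 3 is (1 - Ψ(v))(1 - conj Ψ(v)).
cardE: the residue field k = 𝓞 K ⧸ v (finite field of order absNorm v). The curve W27O⁄k is y^2 + y = x^3 with discriminant -27 <> 0 in k, so all solutions are nonsingular points: the number of points is 1 + #{p : k × k // p.2^2 + p.2 = p.1^3}. By DQ3 loc_good0 (Lib/H55D/Q3.lean)
the local polynomial is 1 - (N - #{..}) X + N X^2 and by H7_LEF (the case 3 not in w, H55C.b8_LEF; no hypothesis UnrOut is needed there, Psi_prime, psiF_prime) LEF is the product of the two factors with Psi and conj Psi; compare the coefficient of X (N - #{..} = Psi + conj Psi; e.g.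
the value of the arithmetic function LEF K v at absNorm v, or see how Lib/H55B/F*.lean and Lib/H55C/B6-B8.lean obtain b8_LEF from the counting: gen v and the number of points: there is a lemma #{..} = N - (e(gen v) + conj) for prime fields of O and its extension). Psi conj Psi = N (Psi_norm).
admE: the natural number (1 - Ψ)(1 - conj Ψ) is prime to p, so it is a unit at V; both factors are algebraic integers, in V (PsiP_int, H55P/T1.lean, or directly). -/

theorem PZ5_card (K : Type) [Field K] [NumberField K] (v : HeightOneSpectrum (𝓞 K))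
    (h3 : (3 : 𝓞 K) ∉ v.asIdeal) [Algebra O (𝓞 K ⧸ v.asIdeal)] :
    Nat.card (W27O⁄(𝓞 K ⧸ v.asIdeal)).toAffine.Point =
      Nat.card {p : (𝓞 K ⧸ v.asIdeal) × (𝓞 K ⧸ v.asIdeal) // p.2 ^ 2 + p.2 = p.1 ^ 3} + 1 := by
  have hmax := v.isMaximal
  have hf : Finite (𝓞 K ⧸ v.asIdeal) := v.asIdeal.finiteQuotientOfFreeOfNeBot v.ne_bot
  let i1 : Field (𝓞 K ⧸ v.asIdeal) := Ideal.Quotient.field _
  have h27 : (27 : 𝓞 K ⧸ v.asIdeal) ≠ 0 := by
    intro h
    apply h3
    have h1 : Ideal.Quotient.mk v.asIdeal ((3 : 𝓞 K) ^ 3) = 0 := by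
      rw [map_pow, map_ofNat]
      have h2 : (3 : 𝓞 K ⧸ v.asIdeal) ^ 3 = 27 := by norm_num
      rw [h2, h]
    exact v.isPrime.mem_of_pow_mem _ (Ideal.Quotient.eq_zero_iff_mem.1 h1)
  have h := H55B.F1_count (𝓞 K ⧸ v.asIdeal) 1 h27
  rw [one_smul] at h
  have hc : (W27O⁄(𝓞 K ⧸ v.asIdeal)) = (⟨0, 0, 1, 0, 0⟩ : WeierstrassCurve (𝓞 K ⧸ v.asIdeal)) := by
    ext <;> simp [W27O, WeierstrassCurve.baseChange]
  rw [hc]
  exact h

theorem cardE (K : Type) [Field K] [NumberField K] [Algebra F K] (v : HeightOneSpectrum (𝓞 K))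
    (h3 : (3 : 𝓞 K) ∉ v.asIdeal) :
    (Nat.card (W27O⁄(𝓞 K ⧸ v.asIdeal)).toAffine.Point : ℂ) =
      (1 - Psi K v.asIdeal) * (1 - (starRingEnd ℂ) (Psi K v.asIdeal)) := by
  obtain ⟨u, hu⟩ := H1_below v
  have hu3 : (3 : O) ∉ u.asIdeal := by
    intro h
    apply h3
    rw [hu, Ideal.under_def, Ideal.mem_comap, map_ofNat] at h
    exact h
  have hmax := v.isMaximal
  have hf : Finite (𝓞 K ⧸ v.asIdeal) := v.asIdeal.finiteQuotientOfFreeOfNeBot v.ne_bot
  let i1 : Field (𝓞 K ⧸ v.asIdeal) := Ideal.Quotient.field _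
  have e1 := H55B.loc_good K v h3 u hu
  have e2 := H55D.loc_good0 K v h3 (𝓞 K ⧸ v.asIdeal) rfl
  rw [e2] at e1
  have e3 := congrArg (Polynomial.eval 1) e1
  simp only [Polynomial.map_add, Polynomial.map_sub, Polynomial.map_one, Polynomial.map_mul,
    Polynomial.map_C, Polynomial.map_X, Polynomial.map_pow, Polynomial.eval_add,
    Polynomial.eval_sub, Polynomial.eval_one, Polynomial.eval_mul, Polynomial.eval_C,
    Polynomial.eval_X, Polynomial.eval_pow, one_pow, mul_one] at e3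
  simp only [eq_intCast] at e3
  rw [PZ5_card K v h3, Psi_prime v u hu, psiF_prime u hu3, map_pow, Complex.conj_conj]
  push_cast at e3 ⊢
  linear_combination e3


/-- The reduction at the prime 2 of F has 9 points: Psi (2) = -2 (pg: -2 = 1 - 3 is primary). -/
theorem card_two (p : ℕ) (hp : p.Prime) (h5 : 5 ≤ p) (K : Type) [Field K] [NumberField K] [Algebra F K]
    (h1 : Module.finrank F K = 1) : ∃ v : HeightOneSpectrum (𝓞 K),
      (3 : 𝓞 K) ∉ v.asIdeal ∧ (p : 𝓞 K) ∉ v.asIdeal ∧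
        ¬ p ∣ Nat.card (W27O⁄(𝓞 K ⧸ v.asIdeal)).toAffine.Point := by
  have h2u : ¬ IsUnit (2 : 𝓞 K) := by
    intro h
    have h2 := h.map (Algebra.norm ℤ)
    have h3 : (2 : 𝓞 K) = algebraMap ℤ (𝓞 K) 2 := by simp
    rw [h3, Algebra.norm_algebraMap, isUnit_pow_iff (Module.finrank_pos).ne'] at h2
    rw [Int.isUnit_iff] at h2
    omega
  obtain ⟨I, hI, h2I⟩ := exists_max_ideal_of_mem_nonunits h2u
  have hI0 : I ≠ ⊥ := by
    rintro rfl
    rw [Ideal.mem_bot] at h2I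
    exact two_ne_zero h2I
  let v : HeightOneSpectrum (𝓞 K) := ⟨I, hI.isPrime, hI0⟩
  have hodd : ∀ n : ℕ, Odd n → (n : 𝓞 K) ∉ v.asIdeal := by
    rintro n ⟨k, rfl⟩ h
    apply hI.ne_top
    rw [Ideal.eq_top_iff_one]
    have h3 : (1 : 𝓞 K) = ((2 * k + 1 : ℕ) : 𝓞 K) - (k : 𝓞 K) * 2 := by
      push_cast
      ring
    rw [h3]
    exact I.sub_mem h (I.mul_mem_left _ h2I)
  have h3 : (3 : 𝓞 K) ∉ v.asIdeal := by
    have := hodd 3 (by decide)
    exact_mod_cast this
  obtain ⟨u, hu⟩ := H1_below v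
  have hu3 : (3 : O) ∉ u.asIdeal := by
    intro h
    apply h3
    rw [hu, Ideal.under_def, Ideal.mem_comap, map_ofNat] at h
    exact h
  have hu2 : (2 : O) ∈ u.asIdeal := by
    rw [hu, Ideal.under_def, Ideal.mem_comap, map_ofNat]
    exact h2I
  obtain ⟨-, hg, -⟩ := H55B.G4_two u hu3 hu2
  have hf : v.asIdeal.inertiaDeg O = 1 := by
    obtain ⟨ε, hε⟩ := T2_equiv K h1
    have hlies : v.asIdeal.LiesOver u.asIdeal := ⟨hu⟩
    have := v.isMaximal
    have := u.isMaximal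
    have h6 := Ideal.relNorm_eq_pow_of_isMaximal v.asIdeal u.asIdeal
    have h7 : v.asIdeal = (ε u.asIdeal) ^ (v.asIdeal.inertiaDeg O) := by
      obtain ⟨J, hJ⟩ := ε.surjective v.asIdeal
      obtain ⟨J', hJ'⟩ := ε.surjective ((ε u.asIdeal) ^ (v.asIdeal.inertiaDeg O))
      have h8 := (hε J).1
      have h9 := (hε J').1
      rw [hJ, h6] at h8
      rw [hJ', map_pow, (hε _).1] at h9
      have h10 : J = J' := by rw [← h8, ← h9]
      exact hJ.symm.trans ((congrArg ε h10).trans hJ')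
    have hirr := v.irreducible
    have hpos : 0 < v.asIdeal.inertiaDeg O := Ideal.inertiaDeg_pos v.asIdeal O
    obtain ⟨g, hg'⟩ : ∃ g, v.asIdeal.inertiaDeg O = g + 1 := ⟨_, (Nat.sub_add_cancel hpos).symm⟩
    rw [hg'] at h7
    rw [hg']
    have hnu : ¬ IsUnit (ε u.asIdeal) := by
      intro h
      apply hirr.not_isUnit
      rw [h7]
      exact h.pow _
    rw [h7, pow_succ] at hirr
    rcases hirr.isUnit_or_isUnit rfl with h | h
    · rcases Nat.eq_zero_or_pos g with h0 | h0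
      · rw [h0]
      · exact absurd ((isUnit_pow_iff h0.ne').1 h) hnu
    · exact absurd h hnu
  refine ⟨v, h3, ?_, ?_⟩
  · exact hodd p (hp.odd_of_ne_two (by omega))
  · have h6 := cardE K v h3
    rw [Psi_prime v u hu, psiF_prime u hu3, hg, hf, pow_one, map_neg, map_ofNat, map_neg, map_ofNat,
      map_neg, map_ofNat] at h6
    have h7 : Nat.card (W27O⁄(𝓞 K ⧸ v.asIdeal)).toAffine.Point = 9 := by
      have h8 : (Nat.card (W27O⁄(𝓞 K ⧸ v.asIdeal)).toAffine.Point : ℂ) = 9 := by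
        rw [h6]
        norm_num
      exact_mod_cast h8
    rw [h7]
    intro h
    have h8 : p ∣ 3 ^ 2 := by norm_num; exact h
    have h9 := Nat.le_of_dvd (by norm_num) (hp.dvd_of_dvd_pow h8)
    omega

end H55P
end

-- from Lib.H28I.G1
section

/-! # H28I, part G: good reduction over K and valuation rings -/

open NumberField IsDedekindDomain WeierstrassCurve

namespace H28I

open H55P (IQ embF eF LF Per IsHecke Pt ac Inert Dec Nm)
open H35P (WAB Ker tt GoodW IntW)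
open H55K (xc yc)
open H55K.TQ
open H55K.MG (VC Crd)

variable {K : Type} [Field K] [NumberField K] {Ω : Type} [Field Ω] [Algebra K Ω]

/-- Chunk G1 (S). As H55K.TQ.exists_V (T9D.lean), for K itself instead of an intermediate field: exists_ext, ext_val for the valuation ring of w.valuation K. -/
theorem exists_VK (Ω : Type) [Field Ω] [Algebra K Ω] (w : HeightOneSpectrum (𝓞 K)) :
    ∃ V : ValuationSubring Ω, ∀ a : 𝓞 K, a ∈ w.asIdeal → V.valuation (algebraMap K Ω (a : K)) < 1 := by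
  obtain ⟨V, hV⟩ := exists_ext (k := K) (Ω := Ω) (w.valuation K).valuationSubring
  refine ⟨V, fun a ha => ?_⟩
  have h1 := (ext_val hV (a : K) 1).2
  rw [map_one, map_one, map_one] at h1
  refine h1.2 ?_
  have h2 := (Valuation.isEquiv_valuation_valuationSubring (w.valuation K)).lt_one_iff_lt_one (x := (a : K))
  rw [← h2]
  have h3 : w.valuation K (algebraMap (𝓞 K) K a) < 1 := (HeightOneSpectrum.valuation_lt_one_iff_mem w a).2 ha
  exact h3

/-- Chunk G1 (S/M). As gmd_of_good (T9B.lean), simpler: C over K, vc_smul, vc_map; t9b_le, t9b_eq for M = K. -/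
theorem gmd_K {W : WeierstrassCurve K} {w : HeightOneSpectrum (𝓞 K)} {V : ValuationSubring Ω}
    (hV : ∀ a : 𝓞 K, a ∈ w.asIdeal → V.valuation (algebraMap K Ω (a : K)) < 1) (h : H55K.GoodAt W w) :
    GMd (W⁄Ω) V (Set.range (algebraMap K Ω)) := by
  obtain ⟨C, h1, h2, h3, h4, h6, hd⟩ := h
  have hC := vc_map (algebraMap K Ω) (vc_smul W C)
  refine ⟨_, _, _, _, _, ⟨_, rfl⟩, ⟨_, rfl⟩, ⟨_, rfl⟩, ⟨_, rfl⟩, hC, ?_⟩
  refine ⟨⟨?_, ?_, ?_, ?_, ?_⟩, ?_⟩
  · exact (V.valuation_le_one_iff _).1 (t9b_le hV h1)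
  · exact (V.valuation_le_one_iff _).1 (t9b_le hV h2)
  · exact (V.valuation_le_one_iff _).1 (t9b_le hV h3)
  · exact (V.valuation_le_one_iff _).1 (t9b_le hV h4)
  · exact (V.valuation_le_one_iff _).1 (t9b_le hV h6)
  · rw [WeierstrassCurve.map_Δ]
    exact t9b_eq hV hd

/-- Chunk G1 (S/M). As good_of_V (T9C.lean), without vc_short: C = ⟨u, r, s, t⟩, C • W = W'' (vc_smul, vc_uniq), t9c_le, t9c_eq. -/
theorem good_VK {W : WeierstrassCurve K} {w : HeightOneSpectrum (𝓞 K)} {V : ValuationSubring Ω}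
    (hV : ∀ a : 𝓞 K, a ∈ w.asIdeal → V.valuation (algebraMap K Ω (a : K)) < 1)
    (h : ∃ (W'' : WeierstrassCurve K) (u r s t : K), VC W W'' u r s t ∧ GoodW (W''⁄Ω) V) : H55K.GoodAt W w := by
  obtain ⟨W'', u, r, s, t, hvc, hg⟩ := h
  have h3 : (⟨Units.mk0 u hvc.une, r, s, t⟩ : VariableChange K) • W = W'' :=
    vc_uniq (vc_smul W ⟨Units.mk0 u hvc.une, r, s, t⟩) hvc
  refine ⟨⟨Units.mk0 u hvc.une, r, s, t⟩, ?_⟩
  rw [h3]
  refine ⟨?_, ?_, ?_, ?_, ?_, ?_⟩
  · exact t9c_le w hV (((ValuationSubring.valuation_le_one_iff V _).mpr hg.a1))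
  · exact t9c_le w hV (((ValuationSubring.valuation_le_one_iff V _).mpr hg.a2))
  · exact t9c_le w hV (((ValuationSubring.valuation_le_one_iff V _).mpr hg.a3))
  · exact t9c_le w hV (((ValuationSubring.valuation_le_one_iff V _).mpr hg.a4))
  · exact t9c_le w hV (((ValuationSubring.valuation_le_one_iff V _).mpr hg.a6))
  · apply t9c_eq w hV
    have h4 := hg.disc
    have h5 : (W''⁄Ω).Δ = algebraMap K Ω W''.Δ := W''.map_Δ (algebraMap K Ω)
    rw [h5] at h4
    exact h4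

/-- Chunk G1 (S). If V(5) < 1 and V(7) < 1 then V(3 * 7 - 4 * 5) < 1. V(n) ≤ 1 for integers n. -/
theorem exists_q (V : ValuationSubring Ω) : ∃ q : ℕ, q.Prime ∧ 5 ≤ q ∧ V.valuation (q : Ω) = 1 := by
  have hn : ∀ n : ℕ, V.valuation (n : Ω) ≤ 1 := fun n =>
    (V.valuation_le_one_iff _).2 (natCast_mem V n)
  by_cases h5 : V.valuation ((5 : ℕ) : Ω) = 1
  · exact ⟨5, by norm_num, le_refl _, h5⟩
  by_cases h7 : V.valuation ((7 : ℕ) : Ω) = 1
  · exact ⟨7, by norm_num, by norm_num, h7⟩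
  exfalso
  have a5 : V.valuation ((5 : ℕ) : Ω) < 1 := lt_of_le_of_ne (hn 5) h5
  have a7 : V.valuation ((7 : ℕ) : Ω) < 1 := lt_of_le_of_ne (hn 7) h7
  have b5 : V.valuation (((4 : ℕ) : Ω) * ((5 : ℕ) : Ω)) < 1 := by
    rw [map_mul]
    exact lt_of_le_of_lt (mul_le_of_le_one_left' (hn 4)) a5
  have b7 : V.valuation (((3 : ℕ) : Ω) * ((7 : ℕ) : Ω)) < 1 := by
    rw [map_mul]
    exact lt_of_le_of_lt (mul_le_of_le_one_left' (hn 3)) a7
  have e : ((3 : ℕ) : Ω) * ((7 : ℕ) : Ω) - ((4 : ℕ) : Ω) * ((5 : ℕ) : Ω) = 1 := by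
    push_cast
    norm_num
  have h := lt_of_le_of_lt (V.valuation.map_sub _ _) (max_lt b7 b5)
  rw [e, map_one] at h
  exact lt_irrefl _ h

end H28I
end

-- from Lib.H35T.I4
section

open NumberField IsDedekindDomain

namespace H35T

open H55B

/-! Chunk I4 (M): 3-adic units (adapt H55C.B9). ne_zero: there is a valuation subring of the complex numbers with v(3) < 1 (copy of
H55B.D0.exists_val with 3 instead of 2). conj: pull back of a valuation subring by complex conjugation. EF_unit: with a = fe v ^ f,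
q = a conj(a): (1 - a/q)(1 - conj(a)/q) = (conj a - 1)(a - 1)/q. v good: eta (gen v) = -om^j (eta_good) and gen v = 1 mod 3, so fe v = e of the
element -om^(2j) gen v of O, congruent to -1 modulo om - 1; f is odd, so its f-th power is congruent to -1 and that minus 1 to -2 = 1 mod om - 1: norm
prime to 3, val_e_unit; q is the norm of an element prime to 3. -/

theorem exists_val3 : ∃ A : ValuationSubring ℂ, A.valuation 3 < 1 := by
  let A : Subring ℂ := (Int.castRingHom ℂ).range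
  have h2A : (3 : ℂ) ∈ A := ⟨3, by simp⟩
  let t : A := ⟨3, h2A⟩
  have hI : Ideal.span {t} ≠ ⊤ := by
    intro h
    have h1 : (1 : A) ∈ Ideal.span {t} := by rw [h]; trivial
    rw [Ideal.mem_span_singleton] at h1
    obtain ⟨⟨c, ⟨n, hn⟩⟩, hc⟩ := h1
    have h3 : (1 : ℂ) = 3 * c := congrArg Subtype.val hc
    rw [← hn] at h3
    simp only [eq_intCast] at h3
    have h4 : (1 : ℤ) = 3 * n := by exact_mod_cast h3
    omega
  obtain ⟨B, -, hB⟩ := Ideal.image_subset_nonunits_valuationSubring (Ideal.span {t}) hI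
  refine ⟨B, ?_⟩
  rw [← ValuationSubring.mem_nonunits_iff]
  exact hB ⟨t, Ideal.mem_span_singleton_self t, rfl⟩

theorem i4_lt (A : ValuationSubring ℂ) {x : ℂ} (hx : x ≠ 0) : A.valuation x < 1 ↔ x⁻¹ ∉ A := by
  rw [← A.valuation_le_one_iff, map_inv₀, not_le]
  exact (one_lt_inv₀ (zero_lt_iff.2 ((Valuation.ne_zero_iff _).2 hx))).symm

theorem i4_eq (A : ValuationSubring ℂ) {x : ℂ} (hx : x ≠ 0) :
    A.valuation x = 1 ↔ x ∈ A ∧ x⁻¹ ∈ A := by
  have h1 := i4_lt A hx
  rw [← A.valuation_le_one_iff x]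
  constructor
  · intro h
    refine ⟨h.le, ?_⟩
    by_contra h2
    exact absurd h (h1.2 h2).ne
  · rintro ⟨h2, h3⟩
    refine le_antisymm h2 ?_
    by_contra h4
    exact h1.1 (not_le.1 h4) h3

theorem Unit3.mul {x y : ℂ} (hx : Unit3 x) (hy : Unit3 y) : Unit3 (x * y) := by
  intro A hA
  rw [map_mul, hx A hA, hy A hA, one_mul]



theorem Unit3.pow {x : ℂ} (hx : Unit3 x) (n : ℕ) : Unit3 (x ^ n) := by
  intro A hA
  rw [map_pow, hx A hA, one_pow]

theorem Unit3.one : Unit3 1 := fun A _ => map_one A.valuation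


theorem Unit3.ne_zero {x : ℂ} (hx : Unit3 x) : x ≠ 0 := by
  rintro rfl
  obtain ⟨A, hA⟩ := exists_val3
  have := hx A hA
  rw [map_zero] at this
  exact zero_ne_one this

theorem Unit3.conj {x : ℂ} (hx : Unit3 x) : Unit3 ((starRingEnd ℂ) x) := by
  intro A hA
  have hx0 := hx.ne_zero
  have h2 : (3 : ℂ) ≠ 0 := three_ne_zero
  set B : ValuationSubring ℂ := A.comap (starRingEnd ℂ) with hB
  have hmem : ∀ z : ℂ, z ∈ B ↔ (starRingEnd ℂ) z ∈ A := fun z => Iff.rfl
  have hB2 : B.valuation 3 < 1 := by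
    rw [i4_lt B h2, hmem, map_inv₀, map_ofNat, ← i4_lt A h2]
    exact hA
  have h3 := (i4_eq B hx0).1 (hx B hB2)
  rw [hmem, hmem, map_inv₀] at h3
  exact (i4_eq A ((map_ne_zero (starRingEnd ℂ)).2 hx0)).2 h3







end H35T
end

-- from Lib.H55P.Z2
section

open NumberField IsDedekindDomain

namespace H55P

open H55N
open H55B (F O om e emb Prim R LL wp)

/-! Chunk PZ2 (M). The period of y^2 + y = x^3, that is y^2 = x^3 + 1/4 after completing the square.
The lattice LF F (H55P/F0.lean) is the lattice of integers O (LF_mem or so), LL of H55B/A0.lean is 3 O, so G_n(LF F) = 3^n G_n(LL) (W1_scale, W1_G of H55C/W1.lean with c = 3 and the uniqueness of the lattice / equality of the sums over equal lattices: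
if the lattices of two period pairs agree then g₂, g₃ agree, they are sums over the lattice). g₂(LL) = 0 (g2_zero), g₃(LL) = wp(1)^3 (A3_g3), so g₃(LF F) = 3^6 wp(1)^3. R0^2 = 3 wp(1) (W2_R0_sq), e(2 om + 1)^2 = -3, so OmE^6 = -27 * 27 wp(1)^3 = -3^6 wp(1)^3.
Per: g₂ = 0, g₃ = -4 (1/4) OmE^6.
periodE: |OmE|^2 = 3 |R0|^2 = 9 |wp 1|; Om L = 9 sqrt 3 |wp 1| for the lattice with g₂ = 0, g₃ = -1 (exists_period in W2.lean and lattice_unique, Om_lattice as in W6.lean; or the formulas of H55D/T4.lean: Omr_eq), so the quotient is 1/sqrt 3, a unit outside 3.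
R0_Omr_P: PORT of R0_Omr of H55D/T4.lean: some power of R0/Omr is a power of 3 (see the proof there): a unit at V with V(3) = 1. -/

theorem PZ2_sq3 : e (2 * om + 1) ^ 2 = -3 := by
  have h2 : (2 * om + 1 : O) ^ 2 = -3 := by linear_combination 4 * H55B.om_rel
  rw [← map_pow, h2, map_neg, map_ofNat]

theorem PZ2_G (L L' : PeriodPair) (h : L.lattice = L'.lattice) (n : ℕ) : L.G n = L'.G n := by
  unfold PeriodPair.G
  rw [h]

theorem PZ2_lattice : (LF F).lattice =
    (H55C.W1_L LL (3 : ℂ)⁻¹ (inv_ne_zero (by norm_num))).lattice := by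
  ext z
  rw [mem_LF, PeriodPair.mem_lattice]
  constructor
  · rintro ⟨y, rfl⟩
    obtain ⟨a, b, hab⟩ := H55B.exists_repr y
    refine ⟨a, b, ?_⟩
    show (a : ℂ) * ((3 : ℂ)⁻¹ * 3) + (b : ℂ) * ((3 : ℂ)⁻¹ * (3 * e om)) = e y
    rw [hab, map_add, map_mul, map_intCast, map_intCast]
    ring
  · rintro ⟨m, n, h⟩
    refine ⟨m + n * om, ?_⟩
    rw [← h]
    show (m : ℂ) * ((3 : ℂ)⁻¹ * 3) + (n : ℂ) * ((3 : ℂ)⁻¹ * (3 * e om)) = e (m + n * om)
    rw [map_add, map_mul, map_intCast, map_intCast]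
    ring

theorem PZ2_GLF (n : ℕ) : (LF F).G n = 3 ^ n * LL.G n := by
  rw [PZ2_G _ _ PZ2_lattice, H55C.W1_G, inv_pow, inv_inv]



theorem perE : Per F 0 (1 / 4) OmE := by
  refine ⟨?_, ?_, ?_⟩
  · unfold OmE
    refine mul_ne_zero ?_ E5_R0.2
    intro h
    have h1 := PZ2_sq3
    rw [h] at h1
    norm_num at h1
  · unfold PeriodPair.g₂
    rw [PZ2_GLF]
    have h := H55B.g2_zero
    unfold PeriodPair.g₂ at h
    linear_combination 81 * h
  · unfold PeriodPair.g₃
    rw [PZ2_GLF]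
    have h := H55B.A3_g3
    unfold PeriodPair.g₃ at h
    have h1 : OmE ^ 6 = -729 * wp 1 ^ 3 := by
      have h2 : OmE ^ 6 = (e (2 * om + 1) ^ 2) ^ 3 * (R (e om - 1) ^ 2) ^ 3 := by
        unfold OmE R0
        ring
      rw [h2, PZ2_sq3, H55C.W2_R0_sq]
      ring
    rw [h1]
    linear_combination 729 * h




end H55P
end

-- from Lib.H55P.Z1
section

open NumberField IsDedekindDomain

namespace H55P

open H55N
open H55B (F O om e emb Prim R lam_prime three_eq exists_unit_prim)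

/-! The Hecke character of y^2 + y = x^3 (proved). -/

theorem m3_ne : m3 ≠ ⊥ := by
  unfold m3
  rw [Ne, Ideal.span_singleton_eq_bot]
  norm_num

theorem m3_ntop : m3 ≠ ⊤ := by
  unfold m3
  rw [Ne, Ideal.span_singleton_eq_top, three_eq]
  intro h
  have h1 : IsUnit (om - 1 : O) := by
    have h2 : (om - 1 : O) ∣ -om ^ 2 * (om - 1) ^ 2 := ⟨-om ^ 2 * (om - 1), by ring⟩
    exact isUnit_of_dvd_unit h2 h
  exact lam_prime.not_unit h1

theorem pg_of_unit {x : O} (u : Oˣ) (h : Prim (u * x)) : pg (Ideal.span {x}) = u * x := by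
  have h1 : Ideal.span {x} = Ideal.span {(u : O) * x} := by
    rw [mul_comm, Ideal.span_singleton_mul_right_unit u.isUnit]
  rw [h1, pg_span h]

theorem isHeckeE : IsHecke m3 psiE where
  ne := m3_ne
  ntop := m3_ntop
  gen J h := by
    have hJ : J ≠ ⊥ := by
      rintro rfl
      apply m3_ntop
      rw [Ideal.isCoprime_iff_sup_eq] at h
      simpa using h
    obtain ⟨x, rfl, hx⟩ := (exists_prim_iff hJ).2 h
    rw [psiE_apply, pg_span hx]
  zero J h := by
    rcases eq_or_ne J ⊥ with rfl | hJ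
    · exact psiE.map_zero
    · exact pg_of_not fun h' => h ((exists_prim_iff hJ).1 h')
  per x y hx hy hxy := by
    rw [m3, Ideal.isCoprime_span_singleton_iff] at hx
    obtain ⟨u, hu⟩ := exists_unit_prim hx
    have hu' : Prim (u * y) := by
      obtain ⟨z, hz⟩ := Ideal.mem_span_singleton.1 hxy
      obtain ⟨t, ht⟩ := hu
      exact ⟨t - u * z, by linear_combination ht - (u : O) * hz⟩
    rw [psiE_apply, psiE_apply, pg_of_unit u hu, pg_of_unit u hu']
    ring

end H55P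
end

-- from Lib.H55K.Y9
section

/-! # H55K: primes of F and of the bottom field -/

open NumberField IsDedekindDomain WeierstrassCurve

namespace H55K

open H55P (IQ embF eF LF Per IsHecke Pt ac Inert Dec Nm Ram RamF)

variable {F : Type} [Field F] [NumberField F] {Ω : Type} [Field Ω] [Algebra F Ω]

theorem y9_surj : Function.Surjective (algebraMap (𝓞 F) (𝓞 (⊥ : IntermediateField F Ω))) := by
  intro x
  obtain ⟨y, hy⟩ := IntermediateField.mem_bot.1 ((x : (⊥ : IntermediateField F Ω))).2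
  have hyi : IsIntegral ℤ y := by
    have h2 : IsIntegral ℤ ((x : (⊥ : IntermediateField F Ω)) : Ω) :=
      (RingOfIntegers.isIntegral_coe x).map
        ((⊥ : IntermediateField F Ω).val.toRingHom.toIntAlgHom)
    rw [← hy] at h2
    exact (isIntegral_algebraMap_iff (algebraMap F Ω).injective).1 h2
  refine ⟨⟨y, hyi⟩, ?_⟩
  apply RingOfIntegers.ext
  apply Subtype.ext
  rw [← hy]
  rfl

theorem y9_inj : Function.Injective (algebraMap (𝓞 F) (𝓞 (⊥ : IntermediateField F Ω))) := by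
  intro x y hxy
  have h1 : algebraMap F Ω (x : F) = algebraMap F Ω (y : F) :=
    congrArg (fun z : 𝓞 (⊥ : IntermediateField F Ω) => ((z : (⊥ : IntermediateField F Ω)) : Ω)) hxy
  exact RingOfIntegers.ext ((algebraMap F Ω).injective h1)

/-- The prime of the bottom field above a prime of F. -/
theorem y9_up (v₀ : HeightOneSpectrum (𝓞 F)) :
    ∃ v : HeightOneSpectrum (𝓞 (⊥ : IntermediateField F Ω)),
      ∀ x : 𝓞 F, x ∈ v₀.asIdeal ↔ algebraMap (𝓞 F) (𝓞 (⊥ : IntermediateField F Ω)) x ∈ v.asIdeal := by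
  obtain ⟨gE, hgE⟩ : ∃ gE : 𝓞 F ≃+* 𝓞 (⊥ : IntermediateField F Ω), ∀ x, gE x = algebraMap (𝓞 F) _ x :=
    ⟨RingEquiv.ofBijective _ ⟨y9_inj, y9_surj⟩, fun _ => rfl⟩
  have hp : (v₀.asIdeal.comap (gE.symm : 𝓞 (⊥ : IntermediateField F Ω) →+* 𝓞 F)).IsPrime :=
    Ideal.IsPrime.comap (gE.symm : 𝓞 (⊥ : IntermediateField F Ω) →+* 𝓞 F)
  have hne : v₀.asIdeal.comap (gE.symm : 𝓞 (⊥ : IntermediateField F Ω) →+* 𝓞 F) ≠ ⊥ := by
    intro h0
    apply v₀.ne_bot
    rw [eq_bot_iff]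
    intro x hx
    have h1 : gE x ∈ v₀.asIdeal.comap (gE.symm : 𝓞 (⊥ : IntermediateField F Ω) →+* 𝓞 F) := by
      rw [Ideal.mem_comap]
      show gE.symm (gE x) ∈ _
      rw [gE.symm_apply_apply]
      exact hx
    rw [h0, Ideal.mem_bot] at h1
    rw [Ideal.mem_bot]
    exact gE.injective (h1.trans (map_zero gE).symm)
  refine ⟨⟨_, hp, hne⟩, fun x => ?_⟩
  rw [Ideal.mem_comap]
  show _ ↔ gE.symm (algebraMap (𝓞 F) _ x) ∈ _
  rw [← hgE, gE.symm_apply_apply]

variable {v₀ : HeightOneSpectrum (𝓞 F)} {v : HeightOneSpectrum (𝓞 (⊥ : IntermediateField F Ω))}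

theorem y9_map (h : ∀ x : 𝓞 F, x ∈ v₀.asIdeal ↔
    algebraMap (𝓞 F) (𝓞 (⊥ : IntermediateField F Ω)) x ∈ v.asIdeal) :
    v.asIdeal = v₀.asIdeal.map (algebraMap (𝓞 F) (𝓞 (⊥ : IntermediateField F Ω))) := by
  have h1 : v₀.asIdeal = v.asIdeal.comap (algebraMap (𝓞 F) (𝓞 (⊥ : IntermediateField F Ω))) := by
    ext x
    rw [Ideal.mem_comap]
    exact h x
  rw [h1, Ideal.map_comap_of_surjective _ y9_surj]

theorem y9_norm [NumberField (⊥ : IntermediateField F Ω)] (h : ∀ x : 𝓞 F, x ∈ v₀.asIdeal ↔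
    algebraMap (𝓞 F) (𝓞 (⊥ : IntermediateField F Ω)) x ∈ v.asIdeal) :
    Ideal.relNorm (𝓞 F) v.asIdeal = v₀.asIdeal := by
  have h1 : Module.finrank F (⊥ : IntermediateField F Ω) = 1 := IntermediateField.finrank_bot
  have hr : Module.finrank (𝓞 F) (𝓞 (⊥ : IntermediateField F Ω)) = 1 := by
    rw [← h1]
    exact (IsFractionRing.finrank_eq (𝓞 F) F (𝓞 (⊥ : IntermediateField F Ω)) (⊥ : IntermediateField F Ω)).symm
  rw [y9_map h, Ideal.relNorm_algebraMap (𝓞 (⊥ : IntermediateField F Ω)) v₀.asIdeal, hr, pow_one]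

theorem y9_ram (h : ∀ x : 𝓞 F, x ∈ v₀.asIdeal ↔
    algebraMap (𝓞 F) (𝓞 (⊥ : IntermediateField F Ω)) x ∈ v.asIdeal) (L : IntermediateField F Ω) :
    Ram (⊥ : IntermediateField F Ω) L v.asIdeal ↔ RamF L v₀.asIdeal := by
  constructor
  · rintro ⟨W, hW, hr⟩
    refine ⟨W, hW, ?_⟩
    rw [Ideal.map_le_iff_le_comap]
    intro x hx
    rw [Ideal.mem_comap]
    exact hr _ (algebraMap (𝓞 F) (𝓞 L) x) ((h x).1 hx) rfl
  · rintro ⟨W, hW, hr⟩
    refine ⟨W, hW, fun x y hx hxy => ?_⟩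
    obtain ⟨z, rfl⟩ := y9_surj x
    have h1 : y = algebraMap (𝓞 F) (𝓞 L) z := by
      apply RingOfIntegers.ext
      apply Subtype.ext
      rw [hxy]
      rfl
    rw [h1]
    exact hr (Ideal.mem_map_of_mem _ ((h z).2 hx))

omit [NumberField F] in
/-- If p is unramified in K then no prime above p is ramified in K. -/
theorem y9_unr {p : ℕ} (K : IntermediateField F Ω) [NumberField K] (hU : H55P.UnrP p K) {v : Ideal (𝓞 F)}
    (hr : RamF K v) : (p : 𝓞 F) ∉ v := by
  intro hpv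
  obtain ⟨W, hW, hr⟩ := hr
  have h1 : (p : 𝓞 K) ∈ W ^ 2 := by
    have h2 := hr (Ideal.mem_map_of_mem (algebraMap (𝓞 F) (𝓞 K)) hpv)
    rwa [map_natCast] at h2
  have h3 : W * W ∣ Ideal.span {(p : 𝓞 K)} := by
    rw [Ideal.dvd_span_singleton, ← pow_two]
    exact h1
  exact hW.ne_top (Ideal.isUnit_iff.1 (hU W h3))

end H55K
end

-- from Lib.H13X.XE
section

/-! # H13X: port of H13Z/LE -/

open NumberField IsDedekindDomain WeierstrassCurve

namespace H13X

open H55P (IQ embF eF LF Per IsHecke Pt ac Inert Dec Nm Coc)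
open H35P (WAB Ker tt)
open H55K (Tor ak xc yc CMA Dta GV GMod cj cj_cj mul_cj cj_prime cj_dvd cj_nat Nm_cj Nm_mul Nm_nat)
open H55K.S
open H13S (Abv)




variable {F : Type} [Field F] [NumberField F] [IQ F] {A B : F} {Om : ℂ} {Ω : Type} [Field Ω] [DecidableEq Ω]
  [Algebra F Ω] [IsAlgClosure F Ω] {j : Ω →+* ℂ} {act : 𝓞 F →+* AddMonoid.End (Pt (WAB A B) Ω)} {mo : Ideal (𝓞 F)}
  {ψ : Ideal (𝓞 F) →*₀ 𝓞 F}

variable {V : ValuationSubring Ω}

/-- Inertia fixes the torsion of order prime to V. -/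
theorem inert_tors (hA : CMA F A B Om j act) (hG : GV A B V) {a : 𝓞 F} (ha : vo V a = 1) {s : Ω ≃ₐ[F] Ω}
    (hs : Inert V s) {T : Pt (WAB A B) Ω} (hT : T ∈ Tor act a) : ac (WAB A B) s T = T :=
  sub_eq_zero.1 (kr_tor hA hG a ha (sub_mem (ac_mem hA s hT) hT) (kr_inert hG s hs T))

/-- Chunk LE4 (S/M). Frobenius elements over K: H13S.exists_frob with K in place of F₀ (Ω is an algebraic closure of K), restrictScalars F. -/
theorem exists_frobK (K : IntermediateField F Ω) [NumberField K] {w : HeightOneSpectrum (𝓞 K)}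
    (hw : Abv K V w) : ∃ s ∈ K.fixingSubgroup, Dec V s ∧
      ∀ x ∈ V, V.valuation (s x - x ^ Ideal.absNorm w.asIdeal) < 1 := by
  have hac : IsAlgClosed Ω := IsAlgClosure.isAlgClosed F
  have hal : Algebra.IsAlgebraic F Ω := IsAlgClosure.isAlgebraic
  have hK : IsAlgClosure K Ω := ⟨hac, Algebra.IsAlgebraic.tower_top (K := F) K⟩
  obtain ⟨s, hs1, hs2⟩ := H13S.exists_frob w V (fun a ha => by
    rw [← HeightOneSpectrum.valuation_lt_one_iff_mem (K := K)] at ha
    exact (hw.lt _).2 ha)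
  refine ⟨s.restrictScalars F, ?_, hs1, hs2⟩
  rw [IntermediateField.mem_fixingSubgroup_iff]
  intro x hx
  exact s.commutes ⟨x, hx⟩


end H13X
end

-- from Lib.H55K.SIZ
section

/-! # H55K, part S: vanishing on inertia groups -/

open NumberField IsDedekindDomain WeierstrassCurve

namespace H55K.S

open H55P (IQ embF eF LF Per IsHecke Pt ac Inert Dec Nm)
open H35P (WAB Ker tt)
open H13S (Abv)

variable {F : Type} [Field F] [NumberField F] [IQ F] {A B : F} {Om : ℂ} {Ω : Type} [Field Ω] [DecidableEq Ω]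
  [Algebra F Ω] {j : Ω →+* ℂ} {act : 𝓞 F →+* AddMonoid.End (Pt (WAB A B) Ω)} {mo : Ideal (𝓞 F)}
  {ψ : Ideal (𝓞 F) →*₀ 𝓞 F}

theorem cl_l {π : 𝓞 F} {l : ℕ} {c : (Ω ≃ₐ[F] Ω) → Pt (WAB A B) Ω} (C : Cl A B Om j act mo ψ π l c)
    (s : Ω ≃ₐ[F] Ω) : l • c s = 0 := by
  obtain ⟨u, hu⟩ := C.dvd
  have h1 : (l : 𝓞 F) = cj u * cj π := by
    have h2 := congrArg cj hu
    rw [map_natCast, map_mul] at h2
    rw [h2, mul_comm]
  rw [← act_nat (act := act), h1, act_mul, mem_Tor.1 (C.val s), map_zero]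

/-- At the places above π in the split case. -/
theorem c_inert_zero {π : 𝓞 F} {l : ℕ} {c : (Ω ≃ₐ[F] Ω) → Pt (WAB A B) Ω} (C : Cl A B Om j act mo ψ π l c)
    (V : ValuationSubring Ω) (hG : GV A B V) (hc : vo V (cj π) = 1) (s : Ω ≃ₐ[F] Ω) (hs : Inert V s) :
    c s = 0 := by
  obtain ⟨P, hP⟩ := C.loc V
  refine kr_tor C.cma hG (cj π) hc (C.val s) ?_
  rw [hP s hs]
  exact kr_inert hG s hs P

/-- At the places not above l, for the elements fixing the points killed by π. -/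
theorem c_inert_away {π : 𝓞 F} {l : ℕ} {c : (Ω ≃ₐ[F] Ω) → Pt (WAB A B) Ω} (C : Cl A B Om j act mo ψ π l c)
    (V : ValuationSubring Ω) (hV : V.valuation (l : Ω) = 1) (s : Ω ≃ₐ[F] Ω) (hs : Inert V s)
    (hf : ∀ T ∈ Tor act π, ac (WAB A B) s T = T) : c s = 0 := by
  obtain ⟨Kg, u, hK⟩ := C.dta.gmod V
  obtain ⟨P, hP⟩ := C.loc V
  have h1 := inert_fix C.cma C.hl C.five C.pr C.dvd hK hV s hs hf l hV P (by rw [← hP s hs]; exact cl_l C s)
  rw [hP s hs, h1, sub_self]

end H55K.S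
end

-- from Lib.SSG.E.W9
section

open NumberField IsDedekindDomain

namespace SSG.E

open H55N H55P

variable {F : Type} [Field F] [NumberField F] [IQ F] {K : Type} [Field K] [NumberField K]
  [Algebra F K] {m : ℕ}

/-! Chunk W9 (S/M). COPY of dirs_of (Lib/H55P/L4.lean): w' i = (prod over k <> i of D.p k) * d i.1. self: n, the product and d i.1 are not in the prime ideal D.c i; oth: the product contains D.p k, which is in D.c k; orth: D.Tr (A k) (..) is e of the trace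
(Tr_eq as in dirs_of). -/

theorem dirN_of (D : Ctx F K m) (hD : D.Ok) (l : 𝓞 F) (n : ℕ) (A : Fin (m + 1) → K) (d : Fin (m + 1) → 𝓞 K)
    (hd : ∀ j, d j ∈ D.I) (hdc : ∀ i j, d j ∉ D.c i) (hnc : ∀ i, (n : 𝓞 K) ∉ D.c i)
    (horth : ∀ j k, k ≠ j → Algebra.trace F K ((d j : K) * A k) = 0)
    (hone : ∀ x ∈ D.X, ∀ k, ∃ y : 𝓞 F, D.Tr (A k) x = eF F (1 + l * y))
    (hlow : ∀ x ∈ D.X, ∀ k, 1 ≤ ‖D.Tr (A k) x‖) (hA : LinearIndependent F A) :
    ∃ w', DirN D l n A w' := by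
  classical
  have hprime : ∀ i, (D.c i).IsPrime := fun i =>
    Ideal.isPrime_of_irreducible_absNorm (by
      rw [hD.smooth.norm i]
      exact (hD.smooth.prime i))
  have hpc : ∀ i, (D.p i : 𝓞 K) ∈ D.c i := fun i => by
    have := Ideal.absNorm_mem (D.c i)
    rwa [hD.smooth.norm i] at this
  refine ⟨fun i => ((∏ k ∈ Finset.univ.erase i, D.p k : ℕ) : 𝓞 K) * d i.1, ?_, ?_, ?_, ?_, hone,
    hlow, hA⟩
  · intro i
    exact D.I.mul_mem_left _ (hd _)
  · intro i h0
    rcases (hprime i).mem_or_mem h0 with h00 | h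
    · exact hnc i h00
    rcases (hprime i).mem_or_mem h with h1 | h1
    · have hcop : Nat.Coprime (∏ k ∈ Finset.univ.erase i, D.p k) (D.p i) := by
        refine Nat.Coprime.prod_left fun k hk => ?_
        rw [Nat.coprime_primes (hD.smooth.prime k) (hD.smooth.prime i)]
        intro h2
        exact (Finset.mem_erase.1 hk).1 (hD.smooth.inj h2)
      have h2 := Nat.isCoprime_iff_coprime.2 hcop
      obtain ⟨a, b, hab⟩ := h2
      apply (hprime i).ne_top
      rw [Ideal.eq_top_iff_one]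
      have h3 := congrArg (Int.cast : ℤ → 𝓞 K) hab
      push_cast at h3
      rw [← h3]
      refine (D.c i).add_mem ((D.c i).mul_mem_left _ ?_) ((D.c i).mul_mem_left _ (hpc i))
      push_cast at h1
      exact h1
    · exact hdc i i.1 h1
  · intro i k hk
    refine (D.c k).mul_mem_left _ ((D.c k).mul_mem_right _ ?_)
    rw [← Finset.mul_prod_erase (Finset.univ.erase i) (fun k => D.p k)
      (Finset.mem_erase.2 ⟨hk, Finset.mem_univ k⟩)]
    push_cast
    exact (D.c k).mul_mem_right _ (hpc k)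
  · intro i k hk
    rw [Tr_eq D hD.emb]
    have h1 : (((((∏ k ∈ Finset.univ.erase i, D.p k : ℕ) : 𝓞 K) * d i.1 : 𝓞 K)) : K) * A k =
        ((∏ k ∈ Finset.univ.erase i, D.p k : ℕ) : F) • ((d i.1 : K) * A k) := by
      rw [Algebra.smul_def, map_natCast, ← mul_assoc]
      congr 1
    rw [h1, map_smul, horth i.1 k hk, smul_zero, map_zero]

end SSG.E
end

-- from Lib.SSG.E.R6
section

open NumberField IsDedekindDomain

namespace SSG.E

open H55N H55P

variable {F : Type} [Field F] [NumberField F] [IQ F] {K : Type} [Field K] [NumberField K]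
  [Algebra F K] {m : ℕ}

/-! Chunk R6 (M). Existence of the data. (1) rpl_exists: Lat D A M contains M I (if M is in all c i and the traces of I are e-values), M <> 0, so I / Lat is finite (a quotient of I / M I; 𝓞 K / (M) is finite) and X / Lat is finite: choose representatives.
(2) ld_exists: A, M₀ from m0_exists (Lib/H55P/E9.lean), M := M₀ * prod of D.p i (Full D A M: take the element for prod * y; M is in c i because D.p i is in c i: absNorm_mem, D.smooth.norm); P coprime to M; e₁, e₂ from Int.isCoprime (Nat.isCoprime_iff_coprime);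
G from gInt with q = (P), n = 2P; B from (1). Traces of I: dirN_tr. -/

theorem r6_Tr_nat (D : Ctx F K m) (A : K) (n : ℕ) (x : 𝓞 K) :
    D.Tr A ((n : 𝓞 K) * x) = (n : ℂ) * D.Tr A x := by
  unfold H55P.Ctx.Tr
  rw [Finset.mul_sum]
  refine Finset.sum_congr rfl fun i _ => ?_
  have h1 : (((n : 𝓞 K) * x : 𝓞 K) : K) * A = (n : K) * ((x : K) * A) := by
    have h := map_mul (algebraMap (𝓞 K) K) (n : 𝓞 K) x
    rw [map_natCast] at h
    have h2 : (((n : 𝓞 K) * x : 𝓞 K) : K) = (n : K) * (x : K) := h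
    rw [h2]
    ring
  rw [h1, map_mul, map_natCast]

theorem r6_lat (D : Ctx F K m) (A : Fin (m + 1) → K) (M : ℕ) (hc : ∀ i, (M : 𝓞 K) ∈ D.c i)
    (htr : ∀ v ∈ D.I, ∀ k, ∃ y : 𝓞 F, D.Tr (A k) v = eF F y) {v : 𝓞 K}
    (hv : v ∈ Ideal.span {(M : 𝓞 K)} * D.I) : v ∈ Lat D A M := by
  obtain ⟨z, hz, hzv⟩ := Ideal.mem_span_singleton_mul.1 hv
  rw [← hzv]
  refine ⟨D.I.mul_mem_left _ hz, fun i => (D.c i).mul_mem_right _ (hc i), fun k => ?_⟩
  obtain ⟨y, hy⟩ := htr z hz k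
  exact ⟨y, by rw [r6_Tr_nat, hy]⟩

theorem rpl_exists (D : Ctx F K m) (A : Fin (m + 1) → K) (M : ℕ) (hM : M ≠ 0) (hc : ∀ i, (M : 𝓞 K) ∈ D.c i)
    (htr : ∀ v ∈ D.I, ∀ k, ∃ y : 𝓞 F, D.Tr (A k) v = eF F y) : ∃ B : Finset (𝓞 K), RpL D A M B := by
  classical
  let f : 𝓞 K → 𝓞 K ⧸ Lat D A M := fun x => (x : 𝓞 K ⧸ Lat D A M)
  have hf : ∀ x y : 𝓞 K, f x = f y ↔ x - y ∈ Lat D A M := by
    intro x y
    rw [eq_comm, show (f y = f x ↔ x - y ∈ Lat D A M) ↔ (f y = f x ↔ x - y ∈ Lat D A M) from Iff.rfl]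
    change ((y : 𝓞 K ⧸ Lat D A M) = (x : 𝓞 K ⧸ Lat D A M)) ↔ _
    rw [QuotientAddGroup.eq, neg_add_eq_sub]
  obtain ⟨s, hsX, hs⟩ := Set.exists_subset_bijOn D.X f
  have hfin : (f '' D.X).Finite := by
    by_cases hI : D.I = ⊥
    · have h1 : D.X = {D.c₀} := by
        ext x
        rw [H55P.Ctx.mem_X, hI, Ideal.mem_bot, sub_eq_zero, Set.mem_singleton_iff]
      rw [h1]
      exact (Set.finite_singleton _).image _
    · have hJ : Ideal.span {(M : 𝓞 K)} * D.I ≠ ⊥ := by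
        intro h0
        rcases Ideal.mul_eq_bot.1 h0 with h | h
        · rw [Ideal.span_singleton_eq_bot] at h
          exact hM (by exact_mod_cast h)
        · exact hI h
      have hfq : Finite (𝓞 K ⧸ (Ideal.span {(M : 𝓞 K)} * D.I)) :=
        Ideal.finiteQuotientOfFreeOfNeBot _ hJ
      refine (Set.finite_range (fun t : 𝓞 K ⧸ (Ideal.span {(M : 𝓞 K)} * D.I) =>
        f (Quotient.out t))).subset ?_
      rintro _ ⟨x, hx, rfl⟩
      refine ⟨Ideal.Quotient.mk _ x, ?_⟩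
      rw [hf]
      apply r6_lat D A M hc htr
      rw [← Ideal.Quotient.eq]
      exact Quotient.out_eq _
  have hsfin : s.Finite := Set.Finite.of_finite_image (by rw [hs.image_eq]; exact hfin) hs.injOn
  refine ⟨hsfin.toFinset, ?_, ?_⟩
  · intro x hx
    exact hsX ((Set.Finite.mem_toFinset _).1 hx)
  · intro x hx
    obtain ⟨y, hy, hyx⟩ := hs.surjOn (Set.mem_image_of_mem f hx)
    refine ⟨y, ⟨(Set.Finite.mem_toFinset _).2 hy, (hf x y).1 hyx.symm⟩, ?_⟩
    rintro z ⟨hz, hxz⟩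
    exact hs.injOn ((Set.Finite.mem_toFinset _).1 hz) hy (((hf x z).2 hxz).symm.trans hyx.symm)

theorem ld_exists (D : Ctx F K m) (hD : D.Ok) (l : 𝓞 F) (P : ℕ) (hP : P ≠ 0) (hPc : ∀ i, IsCoprime (P : ℤ) (D.p i : ℤ))
    (A : Fin (m + 1) → K) (w' : Fin (m + 1) × Fin 2 → 𝓞 K) (hdir : DirN D l (2 * P) A w') (M₀ : ℕ) (h0 : M₀ ≠ 0)
    (hcop : IsCoprime (P : ℤ) (M₀ : ℤ)) (hlM : l ∣ (M₀ : 𝓞 F)) (hfull : Full D A M₀) :
    ∃ S : LD D l P, S.Ok ∧ S.A = A := by
  classical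
  have hq : ((2 * P : ℕ) : 𝓞 K) ∈ Ideal.span {(P : 𝓞 K)} := by
    rw [Nat.cast_mul]
    exact Ideal.mul_mem_left _ _ (Ideal.mem_span_singleton_self _)
  obtain ⟨G, hG1, hG2⟩ := gInt D hD l (Ideal.span {(P : 𝓞 K)}) (2 * P) hq A w' hdir
  have hM : M₀ * (∏ i, D.p i) ≠ 0 :=
    mul_ne_zero h0 (Finset.prod_ne_zero_iff.2 fun i _ => (hD.smooth.prime i).ne_zero)
  have hsmo : ∀ i, ((M₀ * (∏ i, D.p i) : ℕ) : 𝓞 K) ∈ D.c i := by
    intro i
    have h1 : ((D.p i : ℕ) : 𝓞 K) ∈ D.c i := by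
      rw [← hD.smooth.norm i]
      exact Ideal.absNorm_mem _
    obtain ⟨t, ht⟩ : D.p i ∣ M₀ * (∏ i, D.p i) :=
      (Finset.dvd_prod_of_mem _ (Finset.mem_univ i)).mul_left _
    rw [ht, Nat.cast_mul]
    exact Ideal.mul_mem_right _ _ h1
  have hcopM : IsCoprime (P : ℤ) ((M₀ * (∏ i, D.p i) : ℕ) : ℤ) := by
    rw [Nat.cast_mul, Nat.cast_prod]
    exact hcop.mul_right (IsCoprime.prod_right fun i _ => hPc i)
  obtain ⟨e₂, e₁, he⟩ := hcopM
  obtain ⟨B, hB⟩ := rpl_exists D A (M₀ * (∏ i, D.p i)) hM hsmo (fun v hv k => by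
    obtain ⟨y, hy⟩ := dirN_tr D l (2 * P) A w' hdir v hv k
    exact ⟨l * y, hy⟩)
  refine ⟨⟨A, w', G, M₀ * (∏ i, D.p i), e₁, e₂, B⟩, ⟨hdir, hG1, hG2, hM, ?_, hsmo, hPc, ?_, ?_, hB⟩,
    rfl⟩
  · rw [← he]
    ring
  · rw [Nat.cast_mul]
    exact hlM.mul_right _
  · intro y
    obtain ⟨x, hx1, hx2, hx3⟩ := hfull fun k => ((∏ i, D.p i : ℕ) : 𝓞 F) * y k
    refine ⟨x, hx1, hx2, fun k => ?_⟩
    rw [hx3, map_mul, map_natCast]
    push_cast
    ring

end SSG.E
end
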