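import Mathlib
import Pool.Agent.Lib.H1M.PP2.M090
import Pool.Agent.Lib.H1M.PP2.M102

open NumberField IsDedekindDomain

namespace H28T

open H28R
open H55P H55R

variable {F : Type} [Field F] [NumberField F] {G : HeightOneSpectrum (𝓞 F) → Prop}

/-! W15: the wreath step (assembly). -/

/-- K' contains K, is of the same kind, and its group is the regular wreath product of the cyclic group of order p with the group of
K/F. -/
def WrOver (G : HeightOneSpectrum (𝓞 F) → Prop) (p : ℕ) (K : Type) [Field K] [NumberField K] [Algebra F K] (B : ℕ) : Prop :=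
  ∃ (K' : Type) (_ : Field K') (_ : NumberField K') (_ : Algebra F K') (_ : Algebra K K')
    (_ : IsScalarTower F K K'), PB G p K' B ∧ Nonempty ((K' ≃ₐ[F] K') ≃* CP p ≀ᵣ (K ≃ₐ[F] K))

end H28T
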