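import Mathlib
import Pool.Agent.Lib.H1M.PP2.D_H28T_CD
import Pool.Agent.Lib.H1M.PP2.D_H55K_BH
import Pool.Agent.Lib.H1M.PP2.D_H55K_RD
import Pool.Agent.Lib.H1M.PP2.D_H55P_Stm
import Pool.Agent.Lib.H1M.PP2.M005
import Pool.Agent.Lib.H1M.PP2.M007
import Pool.Agent.Lib.H1M.PP2.M029
import Pool.Agent.Lib.H1M.PP2.M030
import Pool.Agent.Lib.H1M.PP2.M039
import Pool.Agent.Lib.H1M.PP2.M051
import Pool.Agent.Lib.H1M.PP2.M054
import Pool.Agent.Lib.H1M.PP2.M069
import Pool.Agent.Lib.H1M.PP2.M073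
import Pool.Agent.Lib.H1M.PP2.M074
import Pool.Agent.Lib.H1M.PP2.M080
import Pool.Agent.Lib.H1M.PP2.M082
import Pool.Agent.Lib.H1M.PP2.M083
import Pool.Agent.Lib.H1M.PP2.M086
import Pool.Agent.Lib.H1M.PP2.M094
import Pool.Agent.Lib.H1M.PP2.M095
import Pool.Agent.Lib.H1M.PP2.M098
import Pool.Agent.Lib.H1M.PP2.M101

/-! Merged copies (to shorten the build) of Lib.H13D.A5, Lib.H55K.RP1, Lib.H55K.T11A, Lib.H55K.UA4, Lib.H55K.UA5, Lib.H55K.UA6, Lib.H13X.XN1, Lib.H28T.CB1, Lib.H13D.A7, Lib.H13D.A8, Lib.H55W.L0, Lib.H13D.A6, Lib.H13D.B4, Lib.H13D.B5, Lib.H13D.C4, Lib.H28I.E0, Lib.H28I.E3. -/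

-- from Lib.H13D.A5
section

/-! # H13D, part A: good reduction (generic) -/

open NumberField IsDedekindDomain WeierstrassCurve

namespace H13D

open H55P (IQ embF eF LF Per IsHecke Pt ac Inert Dec Nm)
open H35P (WAB Ker tt GoodW IntW)
open H55K

variable {F : Type} [Field F] [NumberField F] [IQ F] {A B : F} {Om : ℂ} {Ω : Type} [Field Ω] [DecidableEq Ω]
  [Algebra F Ω] {j : Ω →+* ℂ} {act : 𝓞 F →+* AddMonoid.End (Pt (WAB A B) Ω)} {V : ValuationSubring Ω}
  {Kg : AddSubgroup (Pt (WAB A B) Ω)} {u r : Ω}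

theorem a5_KN (h : CMA F A B Om j act) (Kg : AddSubgroup (Pt (WAB A B) Ω)) {b : 𝓞 F} (hb : b ≠ 0) :
    ∃ S₁ : Finset (Pt (WAB A B) Ω), KN act b Kg S₁ := by
  classical
  obtain ⟨S, hS, _⟩ := exists_TN h hb
  refine ⟨S.filter (fun T => T ∈ Kg), fun T => ?_⟩
  rw [Finset.mem_filter, hS T]
  tauto

theorem a5_ne {V : ValuationSubring Ω} {b : 𝓞 F} (hb : V.valuation (ak Ω b) = 1) : b ≠ 0 := by
  rintro rfl
  have h1 : ak Ω (0 : 𝓞 F) = 0 := by unfold ak; simp
  rw [h1, map_zero] at hb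
  exact zero_ne_one hb

/-- Chunk A5 (S). kprod for S₁ = the nonzero points killed by b in Kg (finite: exists_TN, filter): the product of V(xn R) > 1 (hR.big) over S₁ is 1, so S₁ is empty. b ≠ 0 because V(b) = 1. -/
theorem tor_unit' (h : CMA F A B Om j act) (hR : RM A B V Kg u r) {b : 𝓞 F} (hb : V.valuation (ak Ω b) = 1)
    {T : Pt (WAB A B) Ω} (hT : act b T = 0) (hK : T ∈ Kg) : T = 0 := by
  classical
  have hb0 : b ≠ 0 := a5_ne hb
  obtain ⟨S₁, hS₁⟩ := a5_KN h Kg hb0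
  have h1 := kprod h hR hb0 hS₁
  rw [hb, one_pow, one_mul] at h1
  by_contra h0
  have hTS : T ∈ S₁ := (hS₁ T).2 ⟨hT, h0, hK⟩
  have h2 : ∀ R ∈ S₁, 1 < V.valuation (xn u r R) := fun R hRS => by
    obtain ⟨_, h3, h4⟩ := (hS₁ R).1 hRS
    exact hR.big R h4 h3
  have h3 : (1 : V.ValueGroup) < ∏ R ∈ S₁, V.valuation (xn u r R) := by
    rw [← Finset.mul_prod_erase S₁ _ hTS]
    have h5 : (1 : V.ValueGroup) ≤ ∏ R ∈ S₁.erase T, V.valuation (xn u r R) :=
      Finset.one_le_prod' fun R hRS => (h2 R (Finset.mem_of_mem_erase hRS)).le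
    exact lt_of_lt_of_le (h2 T hTS) (le_mul_of_one_le_right' h5)
  rw [h1] at h3
  exact lt_irrefl _ h3

/-- Chunk A5 (S/M). kprod: V(β) < 1, so S₁ is not empty: there is R₀ ≠ 0 in Tor act β and in Kg. T = 0 clear; otherwise T = act c R₀ (H55K.tor_trans in G5B.lean), act_mem. -/
theorem tor_ker' (h : CMA F A B Om j act) (hR : RM A B V Kg u r) {β : 𝓞 F} (hβ : Prime β) (hv : V.valuation (ak Ω β) < 1)
    {T : Pt (WAB A B) Ω} (hT : act β T = 0) : T ∈ Kg := by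
  classical
  obtain ⟨S₁, hS₁⟩ := a5_KN h Kg hβ.ne_zero
  have h1 := kprod h hR hβ.ne_zero hS₁
  by_cases h0 : T = 0
  · rw [h0]
    exact Kg.zero_mem
  have hne : S₁.Nonempty := by
    rw [Finset.nonempty_iff_ne_empty]
    intro he
    rw [he, Finset.prod_empty, mul_one] at h1
    have h2 : V.valuation (ak Ω β) ^ 2 < 1 := pow_lt_one₀ zero_le hv two_ne_zero
    rw [h1] at h2
    exact lt_irrefl _ h2
  obtain ⟨R₀, hR₀⟩ := hne
  obtain ⟨h3, h4, h5⟩ := (hS₁ R₀).1 hR₀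
  obtain ⟨c, hc, _⟩ := tor_trans h V hβ hv (R := R₀) (R' := T) h3 h4 hT h0
  rw [hc]
  exact act_mem h hR c h5

/-- Chunk A5 (S). kprod with S₁ = S (tor_ker'). -/
theorem prod_xn (h : CMA F A B Om j act) (hR : RM A B V Kg u r) {β : 𝓞 F} (hβ : Prime β) (hv : V.valuation (ak Ω β) < 1)
    {S : Finset (Pt (WAB A B) Ω)} (hS : TN act β S) : V.valuation (ak Ω β ^ 2 * ∏ R ∈ S, xn u r R) = 1 := by
  classical
  have hK : KN act β Kg S := by
    intro T
    rw [hS T]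
    constructor
    · rintro ⟨h1, h2⟩
      exact ⟨h1, h2, tor_ker' h hR hβ hv h1⟩
    · rintro ⟨h1, h2, _⟩
      exact ⟨h1, h2⟩
  rw [map_mul, map_pow, map_prod]
  exact kprod h hR hβ.ne_zero hK

/-- Chunk A5 (M). Suppose act β X in Kg, X not in Kg. act β X ≠ 0 (tor_ker'). Y from exists_gen (b = β). e2n: the left side has value V(xn (act β X) - xn (act β Y)) (prod_xn; V(xn R - xn Y) = V(xn R) for all R in S), V(xn (act β Y)) ≤ 1, V(xn (act β X)) > 1: the left side has value > 1. The right side has value ≤ 1: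
X, Y, X + R (R in Kg by tor_ker', X not in Kg) are not in Kg (hR.int). Contradiction. -/
theorem ker_red' (h : CMA F A B Om j act) (hR : RM A B V Kg u r) {β : 𝓞 F} (hβ : Prime β) (hv : V.valuation (ak Ω β) < 1)
    {X : Pt (WAB A B) Ω} (hX : act β X ∈ Kg) : X ∈ Kg := by
  classical
  by_contra hXK
  have hX0 : act β X ≠ 0 := fun h0 => hXK (tor_ker' h hR hβ hv h0)
  obtain ⟨S, hS, _⟩ := exists_TN h hβ.ne_zero
  obtain ⟨Y, hY, hbY, _, _, hYK⟩ := exists_gen h hR hβ.ne_zero hS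
  have hY0 : act β Y ≠ 0 := fun h0 => hbY (by rw [h0]; exact Kg.zero_mem)
  have he := e2n (r := r) h hR.une hβ.ne_zero hS hX0 hY0
  have hSK : ∀ R ∈ S, R ∈ Kg := fun R hRS => tor_ker' h hR hβ hv ((hS R).1 hRS).1
  have hv1 := congrArg V.valuation he
  have h1 : V.valuation (xn u r (act β X) - xn u r (act β Y)) = V.valuation (xn u r (act β X)) :=
    Valuation.map_sub_eq_of_lt_left _ (lt_of_le_of_lt (hR.int _ hbY) (hR.big _ hX hX0))
  have h2 : ∏ R ∈ S, V.valuation (xn u r R - xn u r Y) = ∏ R ∈ S, V.valuation (xn u r R) :=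
    Finset.prod_congr rfl fun R hRS => hYK R hRS (hSK R hRS)
  have h3 := prod_xn h hR hβ hv hS
  rw [map_mul, map_pow, map_prod] at h3
  rw [map_mul, map_mul, map_pow, map_prod, map_mul, map_prod, h1, h2] at hv1
  have h4 : V.valuation (xn u r (act β X)) = V.valuation (xn u r X - xn u r Y) * ∏ R ∈ S, V.valuation (xn u r (X + R) - xn u r Y) := by
    rw [← hv1, mul_right_comm, h3, one_mul]
  have h5 : V.valuation (xn u r X - xn u r Y) ≤ 1 :=
    le_trans (Valuation.map_sub _ _ _) (max_le (hR.int X hXK) (hR.int Y hY))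
  have h6 : ∏ R ∈ S, V.valuation (xn u r (X + R) - xn u r Y) ≤ 1 := by
    refine Finset.prod_le_one' fun R hRS => ?_
    have h7 : X + R ∉ Kg := fun h8 => hXK (by
      have h9 := Kg.sub_mem h8 (hSK R hRS)
      rwa [add_sub_cancel_right] at h9)
    exact le_trans (Valuation.map_sub _ _ _) (max_le (hR.int _ h7) (hR.int Y hY))
  have h7 := hR.big _ hX hX0
  rw [h4] at h7
  exact absurd (mul_le_one' h5 h6) (not_le.2 h7)

end H13D
end

-- from Lib.H55K.RP1
section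

/-! # H55K: the field generated by F over a field K -/

open NumberField IsDedekindDomain WeierstrassCurve

namespace H55K.TQ

open H55P (IQ embF eF LF Per IsHecke Pt ac Inert Dec Nm UnitP)
open H35P (WAB Ker tt GoodW IntW)
open H55K.MG (VC Crd)

variable (F : Type) [Field F] [NumberField F] [IQ F] {Ω : Type} [Field Ω] [Algebra F Ω] [Algebra ℚ Ω] [IsScalarTower ℚ F Ω]

/-- Chunk RP1 (S). -/
theorem kg_le (K : Type) [Field K] [NumberField K] (ι : K →ₐ[ℚ] Ω) :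
    ι.fieldRange ≤ (KG F K ι).restrictScalars ℚ := by
  rintro _ ⟨x, rfl⟩
  exact IntermediateField.subset_adjoin F _ ⟨x, rfl⟩

/-- Chunk RP1 (S/M). F/ℚ is quadratic, so normal: s maps the image of F in Ω to itself (every element of the image is a root of its minimal polynomial over ℚ, whose roots are in F); s fixes the range of ι; adjoin induction (H55P.pz14_stable in Z14.lean). -/
theorem kg_stable (K : Type) [Field K] [NumberField K] (ι : K →ₐ[ℚ] Ω)
    (s : Ω ≃ₐ[ℚ] Ω) (hs : ∀ x : K, s (ι x) = ι x) (y : Ω) (hy : y ∈ KG F K ι) : s y ∈ KG F K ι := by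
  have halg : ∀ x : F, s (algebraMap F Ω x) ∈ KG F K ι := by
    intro x
    have hq : Algebra.IsQuadraticExtension ℚ F := ⟨IQ.deg⟩
    have hn : Normal ℚ F := Algebra.IsQuadraticExtension.normal ℚ F
    rw [← AlgEquiv.restrictNormal_commutes s F x]
    exact (KG F K ι).algebraMap_mem _
  refine IntermediateField.adjoin_induction F (p := fun x _ => s x ∈ KG F K ι) ?_ ?_ ?_ ?_ ?_ hy
  · rintro _ ⟨x, rfl⟩
    rw [hs x]
    exact IntermediateField.subset_adjoin F _ ⟨x, rfl⟩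
  · intro x
    exact halg x
  · intro x y _ _ h1 h2
    rw [map_add]
    exact add_mem h1 h2
  · intro x _ h1
    rw [map_inv₀]
    exact inv_mem h1
  · intro x y _ _ h1 h2
    rw [map_mul]
    exact mul_mem h1 h2

/-- Chunk RP1 (S/M). Port of H55P.kf_norm (Z14.lean). -/
theorem kg_norm (K : Type) [Field K] [NumberField K] (ι : K →ₐ[ℚ] Ω)
    (s : Ω ≃ₐ[ℚ] Ω) (hs : s ∈ ι.fieldRange.fixingSubgroup) (t : Ω ≃ₐ[ℚ] Ω)
    (ht : t ∈ ((KG F K ι).restrictScalars ℚ).fixingSubgroup) :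
    s * t * s⁻¹ ∈ ((KG F K ι).restrictScalars ℚ).fixingSubgroup := by
  rw [IntermediateField.mem_fixingSubgroup_iff] at hs ht ⊢
  intro y hy
  have hs' : ∀ x : K, s⁻¹ (ι x) = ι x := by
    intro x
    have h1 : s (ι x) = ι x := hs (ι x) ⟨x, rfl⟩
    have h2 : s⁻¹ (s (ι x)) = ι x := s.symm_apply_apply _
    rwa [h1] at h2
  have h1 : s⁻¹ y ∈ KG F K ι := kg_stable F K ι s⁻¹ hs' y hy
  have h2 : t (s⁻¹ y) = s⁻¹ y := ht (s⁻¹ y) h1
  change s (t (s⁻¹ y)) = y
  rw [h2]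
  exact s.apply_symm_apply _

end H55K.TQ
end

-- from Lib.H55K.T11A
section

/-! # H55K: no p-torsion fixed by inertia at a bad prime -/

open NumberField IsDedekindDomain WeierstrassCurve

namespace H55K.TQ

open H55P (IQ embF eF LF Per IsHecke Pt ac Inert Dec Nm UnitP)
open H35P (WAB Ker tt GoodW IntW)
open H55K.MG (VC Crd)

variable {F : Type} [Field F] [NumberField F] [IQ F] {W₀ : WeierstrassCurve (𝓞 F)} {Om : ℂ}
    {m : Ideal (𝓞 F)} {ψ : Ideal (𝓞 F) →*₀ 𝓞 F} {p : ℕ}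

omit [NumberField F] [IQ F] in
theorem t11a_prime {F : Type} [Field F] [NumberField F] [IQ F] {M : Type} [AddCommGroup M]
    (act : 𝓞 F →+* AddMonoid.End M) (a : 𝓞 F) : a ≠ 0 → ∀ T : M, T ≠ 0 → act a T = 0 →
    ∃ π c : 𝓞 F, Prime π ∧ π ∣ a ∧ act c T ≠ 0 ∧ act π (act c T) = 0 := by
  induction a using UniqueFactorizationMonoid.induction_on_prime with
  | h₁ => exact fun h => absurd rfl h
  | h₂ x hx =>
    intro _ T hT h
    exfalso
    obtain ⟨y, hy⟩ := hx.exists_left_inv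
    apply hT
    have h1 : act (y * x) T = T := by
      rw [hy, map_one]
      rfl
    rw [← h1, map_mul]
    show act y (act x T) = 0
    rw [h, map_zero]
  | h₃ a π ha hπ ih =>
    intro _ T hT h
    by_cases h1 : act a T = 0
    · obtain ⟨π', c, h2, h3, h4, h5⟩ := ih ha T hT h1
      exact ⟨π', c, h2, h3.mul_left π, h4, h5⟩
    · refine ⟨π, a, hπ, dvd_mul_right π a, h1, ?_⟩
      rw [map_mul] at h
      exact h

/-- Chunk T11A (S/M). One automorphism: π from the prime divisors of p in 𝓞 F: some multiple act c T is a nonzero point killed by a prime π dividing p (p T = 0, T ≠ 0: the annihilator {a : act a T = 0} contains p; it is generated by some b (class number one), b is not a unit, b = π c, take act c T ≠ 0 killed by π). The points killed by π are the multiples act a (act c T) (h.gen for π: a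
cyclic module over the field 𝓞 F/π; every nonzero element generates). s commutes with act (h.gal), so s fixes Tor act π, and inert_fix (GF.lean, hG, V(p) = 1) for n = p. -/
theorem fix_from_one {A B : F} {Ω : Type} [Field Ω] [DecidableEq Ω] [Algebra F Ω] {j : Ω →+* ℂ}
    {act : 𝓞 F →+* AddMonoid.End (Pt (WAB A B) Ω)} (h : CMA F A B Om j act) {V : ValuationSubring Ω}
    {Kg : AddSubgroup (Pt (WAB A B) Ω)} {u : Ω} (hG : GMod (WAB A B) V Kg u) (hp : p.Prime) (h5 : 5 ≤ p)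
    (hV : V.valuation (p : Ω) = 1) (s : Ω ≃ₐ[F] Ω) (hs : Inert V s) {T : Pt (WAB A B) Ω} (hT : p • T = 0)
    (h0 : T ≠ 0) (hf : ac (WAB A B) s T = T) (P : Pt (WAB A B) Ω) (hP : p • P = 0) : ac (WAB A B) s P = P := by
  have hmul : ∀ (a b : 𝓞 F) (Q : Pt (WAB A B) Ω), act (a * b) Q = act a (act b Q) := by
    intro a b Q
    rw [map_mul]
    rfl
  have hp0 : (p : 𝓞 F) ≠ 0 := by exact_mod_cast hp.ne_zero
  have hTp : act (p : 𝓞 F) T = 0 := by
    rw [map_natCast]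
    exact hT
  obtain ⟨π, c, hπ, hd, hc0, hπc⟩ := t11a_prime act (p : 𝓞 F) hp0 T h0 hTp
  obtain ⟨T₀, hT₀, hgen, hT₀a, -⟩ := h.gen π hπ.ne_zero
  obtain ⟨a, ha⟩ := hgen (act c T) hπc
  have hnd : ¬ π ∣ a := by
    intro hda
    exact hc0 (by rw [ha]; exact (hT₀a a).2 hda)
  obtain ⟨u, v, huv⟩ := (hπ.coprime_iff_not_dvd.2 hnd : IsCoprime π a)
  have hT₀' : T₀ = act v (act c T) := by
    have h1 : act (u * π + v * a) T₀ = T₀ := by
      rw [huv, map_one]
      rfl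
    have h2 : act (u * π + v * a) T₀ = act (u * π) T₀ + act (v * a) T₀ := by
      rw [map_add]
      rfl
    have h3 : act (u * π) T₀ = 0 := by
      rw [hmul, show act π T₀ = 0 from hT₀, map_zero]
    rw [← h1, h2, h3, zero_add, hmul, ← ha]
  have hfix : ∀ T' ∈ Tor act π, ac (WAB A B) s T' = T' := by
    intro T' hT'
    obtain ⟨a', ha'⟩ := hgen T' hT'
    rw [ha', hT₀', h.gal, h.gal, h.gal, hf]
  refine inert_fix h hp h5 hπ hd hG hV s hs hfix p hV P ?_
  rw [smul_sub, ← map_nsmul, hP, map_zero, sub_zero]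

end H55K.TQ
end

-- from Lib.H55K.UA4
section

/-! # H55K: the series for Re s > 3/2 -/

open NumberField IsDedekindDomain WeierstrassCurve

namespace H55K

open H55P (IQ embF eF LF Per IsHecke Pt ac Inert Dec Nm)
open H35P (WAB Ker tt)


variable {F : Type} [Field F] [NumberField F] [IQ F]

theorem ua4_norm (s w : ℂ) (_hs : 0 < 2 * s.re - 1) : ‖ff s w‖ ≤ ‖w‖ ^ (-(2 * s.re - 1)) := by
  unfold ff
  by_cases hw : w = 0
  · rw [hw, map_zero, zero_mul, norm_zero]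
    exact Real.rpow_nonneg le_rfl _
  · have hw' : 0 < ‖w‖ := norm_pos_iff.2 hw
    have h1 : (0 : ℝ) < ‖w‖ ^ 2 := by positivity
    rw [norm_mul, Complex.norm_cpow_eq_rpow_re_of_pos h1, RCLike.norm_conj, Complex.neg_re]
    apply le_of_eq
    rw [← Real.rpow_natCast ‖w‖ 2, ← Real.rpow_mul hw'.le]
    nth_rewrite 1 [← Real.rpow_one ‖w‖]
    rw [← Real.rpow_add hw']
    congr 1
    push_cast
    ring

theorem ua4_scale (s w c : ℂ) (hc : c ≠ 0) :
    ff s (w / c) = ((‖c‖ ^ 2 : ℝ) : ℂ) ^ s / (starRingEnd ℂ) c * ff s w := by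
  unfold ff
  have hc' : 0 < ‖c‖ := norm_pos_iff.2 hc
  have h1 : (0 : ℝ) < ‖c‖ ^ 2 := by positivity
  have h1' : ((‖c‖ ^ 2 : ℝ) : ℂ) ≠ 0 := by exact_mod_cast h1.ne'
  have e1 : (‖w / c‖ ^ 2 : ℝ) = ‖w‖ ^ 2 * (‖c‖ ^ 2)⁻¹ := by
    rw [norm_div]
    field_simp
  have e2 : ((‖w / c‖ ^ 2 : ℝ) : ℂ) ^ (-s) = ((‖w‖ ^ 2 : ℝ) : ℂ) ^ (-s) * ((‖c‖ ^ 2 : ℝ) : ℂ) ^ s := by
    rw [e1, Complex.ofReal_mul, Complex.mul_cpow_ofReal_nonneg (by positivity) (by positivity)]
    congr 1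
    rw [Complex.ofReal_inv, Complex.inv_cpow, Complex.cpow_neg, inv_inv]
    rw [Complex.arg_ofReal_of_nonneg h1.le]
    exact Real.pi_pos.ne
  rw [e2, map_div₀]
  ring

/-- Chunk UA4 (S/M). ‖ff s w‖ = ‖w‖^(1 - 2 Re s) (w ≠ 0; ff s 0 = 0), sum_shift with κ = 2 Re s - 1 > 2 (0 ^ (-κ) = 0 for real powers). -/
theorem ff_sum (F : Type) [Field F] [NumberField F] [IQ F] (z s : ℂ) (hs : 3 / 2 < s.re) :
    Summable fun x : 𝓞 F => ff s (z + eF F x) := by
  refine Summable.of_norm_bounded (sum_shift F z (2 * s.re - 1) (by linarith)) fun x => ?_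
  exact ua4_norm s _ (by linarith)

/-- Chunk UA4. Translation by eF F y is a bijection of 𝓞 F. -/
theorem Ff_per (F : Type) [Field F] [NumberField F] [IQ F] (z s : ℂ) (y : 𝓞 F) :
    Ff F (z + eF F y) s = Ff F z s := by
  unfold Ff
  rw [← (Equiv.addLeft y).tsum_eq (fun x : 𝓞 F => ff s (z + eF F x))]
  refine tsum_congr fun x => ?_
  rw [Equiv.coe_addLeft, map_add, add_assoc]

/-- Chunk UA4. -/
theorem dd_Ff (F : Type) [Field F] [NumberField F] [IQ F] (z q s : ℂ) (hs : 3 / 2 < s.re) :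
    ∑' x : 𝓞 F, dd s (z + eF F x) q = Ff F (z + q) s + Ff F (z - q) s - 2 * Ff F z s := by
  have h1 := ff_sum F (z + q) s hs
  have h2 := ff_sum F (z - q) s hs
  have h3 := ff_sum F z s hs
  unfold Ff
  rw [← tsum_mul_left, ← h1.tsum_add h2, ← (h1.add h2).tsum_sub (h3.mul_left 2)]
  refine tsum_congr fun x => ?_
  unfold dd
  rw [show z + eF F x + q = z + q + eF F x by ring, show z + eF F x - q = z - q + eF F x by ring]

/-- Chunk UA4. ff s (w / n) = n^(2s-1) ff s w for a positive integer n (Complex.cpow of positive reals: ((‖w‖^2/n^2 : ℝ) : ℂ)^(-s) = ..., Complex.mul_cpow_ofReal_nonneg). -/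
theorem ff_scale (s w : ℂ) (n : ℕ) (hn : n ≠ 0) : ff s (w / n) = (n : ℂ) ^ (2 * s - 1) * ff s w := by
  have hn' : (n : ℂ) ≠ 0 := by exact_mod_cast hn
  rw [ua4_scale s w n hn', Complex.cpow_sub _ _ hn', Complex.cpow_one]
  have e1 : ((‖(n : ℂ)‖ ^ 2 : ℝ) : ℂ) ^ s = (n : ℂ) ^ (2 * s) := by
    have h1 := Complex.mul_cpow_ofReal_nonneg (Nat.cast_nonneg (α := ℝ) n) (Nat.cast_nonneg (α := ℝ) n) s
    have h2 := Complex.cpow_nat_mul (n : ℂ) 2 s
    rw [Complex.norm_natCast, pow_two, Complex.ofReal_mul, h1]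
    push_cast at h2 ⊢
    rw [h2, pow_two]
  rw [e1, Complex.conj_natCast]

/-- Chunk UA4. ff s (w / c) = ((‖c‖^2 : ℝ) : ℂ)^s / conj c * ff s w. -/
theorem ff_scale2 (s w c : ℂ) (hc : c ≠ 0) :
    ff s (w / c) = ((‖c‖ ^ 2 : ℝ) : ℂ) ^ s / (starRingEnd ℂ) c * ff s w :=
  ua4_scale s w c hc

end H55K
end

-- from Lib.H55K.UA5
section

/-! # H55K: the distribution relation -/

open NumberField IsDedekindDomain WeierstrassCurve

namespace H55K

open H55P (IQ embF eF LF Per IsHecke Pt ac Inert Dec Nm)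
open H35P (WAB Ker tt)


variable {F : Type} [Field F] [NumberField F] [IQ F]

omit [IQ F] in
theorem ua5_bij (n : ℕ) (hn : n ≠ 0) (R : Finset (𝓞 F)) (hR : Rep (n : 𝓞 F) R) :
    Function.Bijective fun p : {b // b ∈ R} × 𝓞 F => p.1.1 + (n : 𝓞 F) * p.2 := by
  have hn' : (n : 𝓞 F) ≠ 0 := Nat.cast_ne_zero.2 hn
  constructor
  · rintro ⟨⟨b, hb⟩, x⟩ ⟨⟨b', hb'⟩, x'⟩ h
    change b + (n : 𝓞 F) * x = b' + (n : 𝓞 F) * x' at h
    have h1 : b = b' := hR.un b hb b' hb' ⟨x' - x, by linear_combination h⟩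
    subst h1
    have h2 : x = x' := mul_left_cancel₀ hn' (add_left_cancel h)
    subst h2
    rfl
  · intro y
    obtain ⟨r, hr, c, hc⟩ := hR.ex y
    exact ⟨(⟨r, hr⟩, c), by change r + (n : 𝓞 F) * c = y; linear_combination -hc⟩

theorem ua5_gen (n : ℕ) (hn : n ≠ 0) (R : Finset (𝓞 F)) (e : {b // b ∈ R} × 𝓞 F ≃ 𝓞 F) (w : 𝓞 F → ℂ)
    (he : ∀ b x, (n : ℂ) * w b.1 + n * eF F x = eF F (e (b, x))) (z s : ℂ) (hs : 3 / 2 < s.re) :
    ∑ b ∈ R, Ff F (z + w b) s = (n : ℂ) ^ (2 * s - 1) * Ff F (n * z) s := by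
  have hn' : (n : ℂ) ≠ 0 := Nat.cast_ne_zero.2 hn
  have h1 : ∀ (b : {b // b ∈ R}) (x : 𝓞 F), ff s (z + w b.1 + eF F x) =
      (n : ℂ) ^ (2 * s - 1) * ff s (n * z + eF F (e (b, x))) := by
    intro b x
    rw [← ff_scale s _ n hn, ← he]
    congr 1
    field_simp
    ring
  have h2 := ff_sum F (n * z) s hs
  have h3 : Summable fun p : {b // b ∈ R} × 𝓞 F => ff s (n * z + eF F (e p)) := h2.comp_injective e.injective
  calc ∑ b ∈ R, Ff F (z + w b) s = ∑ b : {b // b ∈ R}, Ff F (z + w b.1) s :=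
        (Finset.sum_coe_sort R fun b => Ff F (z + w b) s).symm
    _ = ∑ b : {b // b ∈ R}, ∑' x : 𝓞 F, (n : ℂ) ^ (2 * s - 1) * ff s (n * z + eF F (e (b, x))) :=
        Finset.sum_congr rfl fun b _ => tsum_congr fun x => h1 b x
    _ = (n : ℂ) ^ (2 * s - 1) * ∑ b : {b // b ∈ R}, ∑' x : 𝓞 F, ff s (n * z + eF F (e (b, x))) := by
        rw [Finset.mul_sum]
        exact Finset.sum_congr rfl fun b _ => tsum_mul_left
    _ = (n : ℂ) ^ (2 * s - 1) * ∑' p : {b // b ∈ R} × 𝓞 F, ff s (n * z + eF F (e p)) := by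
        rw [h3.tsum_prod, tsum_fintype]
    _ = (n : ℂ) ^ (2 * s - 1) * Ff F (n * z) s := by
        rw [e.tsum_eq fun y : 𝓞 F => ff s (n * z + eF F y)]
        rfl

/-- Chunk UA5 (M). The map R × 𝓞 F → 𝓞 F, (b, x) ↦ b + n x, is bijective (Rep), and so is (b, x) ↦ -b + n x. z + b/n + x = (n z + (b + n x))/n, ff_scale; all the series converge absolutely (ff_sum): sum over the finite set R of the Ff F (z ± b/n) s is the sum over R × 𝓞 F. -/
theorem Ff_dist (F : Type) [Field F] [NumberField F] [IQ F] (n : ℕ) (hn : n ≠ 0) (R : Finset (𝓞 F))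
    (hR : Rep (n : 𝓞 F) R) (z s : ℂ) (hs : 3 / 2 < s.re) :
    ∑ b ∈ R, Ff F (z + eF F b / n) s = (n : ℂ) ^ (2 * s - 1) * Ff F (n * z) s ∧
    ∑ b ∈ R, Ff F (z - eF F b / n) s = (n : ℂ) ^ (2 * s - 1) * Ff F (n * z) s := by
  have hn' : (n : ℂ) ≠ 0 := Nat.cast_ne_zero.2 hn
  constructor
  · refine ua5_gen n hn R (Equiv.ofBijective _ (ua5_bij n hn R hR)) (fun b => eF F b / n) ?_ z s hs
    intro b x
    change (n : ℂ) * (eF F b.1 / n) + n * eF F x = eF F (b.1 + (n : 𝓞 F) * x)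
    rw [map_add, map_mul, map_natCast]
    field_simp
  · have h := ua5_gen n hn R (((Equiv.refl {b // b ∈ R}).prodCongr (Equiv.neg (𝓞 F))).trans
      ((Equiv.ofBijective _ (ua5_bij n hn R hR)).trans (Equiv.neg (𝓞 F)))) (fun b => -(eF F b / n)) ?_ z s hs
    · rw [← h]
      exact Finset.sum_congr rfl fun b _ => by rw [sub_eq_add_neg]
    · intro b x
      change (n : ℂ) * (-(eF F b.1 / n)) + n * eF F x = eF F (-(b.1 + (n : 𝓞 F) * -x))
      rw [map_neg, map_add, map_mul, map_natCast, map_neg]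
      field_simp
      ring

/-- Chunk UA5. R has n^2 elements (the number of classes modulo n: absNorm (span {n}) = n^2, or Nm_nat in D1.lean). -/
theorem rep_card (F : Type) [Field F] [NumberField F] [IQ F] (n : ℕ) (hn : n ≠ 0) (R : Finset (𝓞 F))
    (hR : Rep (n : 𝓞 F) R) : R.card = n ^ 2 := by
  have h1 : Function.Bijective fun b : {b // b ∈ R} =>
      (Ideal.Quotient.mk (Ideal.span {(n : 𝓞 F)}) b.1 : 𝓞 F ⧸ Ideal.span {(n : 𝓞 F)}) := by
    constructor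
    · rintro ⟨b, hb⟩ ⟨b', hb'⟩ h
      have h2 := Ideal.Quotient.eq.1 h
      rw [Ideal.mem_span_singleton] at h2
      exact Subtype.ext (hR.un b hb b' hb' h2)
    · intro y
      obtain ⟨y, rfl⟩ := Ideal.Quotient.mk_surjective y
      obtain ⟨r, hr, h2⟩ := hR.ex y
      refine ⟨⟨r, hr⟩, ?_⟩
      refine (Ideal.Quotient.eq.2 ?_).symm
      rw [Ideal.mem_span_singleton]
      exact h2
  have h3 := Nat.card_congr (Equiv.ofBijective _ h1)
  rw [Nat.card_eq_fintype_card, Fintype.card_coe] at h3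
  rw [h3, ← Nm_nat (F := F) n]
  rfl

open Classical in
/-- Chunk UA5. If (n - 1) z = eF F y then Ff F (n z) s = Ff F z s (Ff_per). Sum over b in R (the term b = 0 of the left side is 0: R.erase 0 or R give the same sum). -/
theorem dd_dist (F : Type) [Field F] [NumberField F] [IQ F] (n : ℕ) (hn : n ≠ 0) (R : Finset (𝓞 F))
    (hR : Rep (n : 𝓞 F) R) (z s : ℂ) (hs : 3 / 2 < s.re) (hz : ∃ y : 𝓞 F, (n : ℂ) * z - z = eF F y) :
    ∑ b ∈ R.erase 0, ∑' x : 𝓞 F, dd s (z + eF F x) (eF F b / n) =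
      2 * ((n : ℂ) ^ (2 * s - 1) - (n : ℂ) ^ 2) * Ff F z s := by
  obtain ⟨y, hy⟩ := hz
  have h1 : Ff F (n * z) s = Ff F z s := by
    rw [← Ff_per F z s y, ← hy]
    congr 1
    ring
  obtain ⟨h2, h3⟩ := Ff_dist F n hn R hR z s hs
  have h4 := rep_card F n hn R hR
  have h5 : ∀ b : 𝓞 F, ∑' x : 𝓞 F, dd s (z + eF F x) (eF F b / n) =
      Ff F (z + eF F b / n) s + Ff F (z - eF F b / n) s - 2 * Ff F z s := fun b => dd_Ff F z _ s hs
  have h6 : ∑' x : 𝓞 F, dd s (z + eF F x) (eF F (0 : 𝓞 F) / n) = 0 := by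
    rw [h5, map_zero, zero_div, add_zero, sub_zero]
    ring
  rw [Finset.sum_erase (f := fun b => ∑' x : 𝓞 F, dd s (z + eF F x) (eF F b / n)) R h6]
  simp only [h5]
  rw [Finset.sum_sub_distrib, Finset.sum_add_distrib, h2, h3, h1, Finset.sum_const, h4, nsmul_eq_mul]
  push_cast
  ring

end H55K
end

-- from Lib.H55K.UA6
section

/-! # H55K: the L-series as a sum over classes -/

open NumberField IsDedekindDomain WeierstrassCurve

namespace H55K

open H55P (IQ embF eF LF Per IsHecke Pt ac Inert Dec Nm)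
open H35P (WAB Ker tt)


variable {F : Type} [Field F] [NumberField F] [IQ F]

theorem ua6_ne0 {m : Ideal (𝓞 F)} {ψ : Ideal (𝓞 F) →*₀ 𝓞 F} (hψ : IsHecke m ψ) {h : 𝓞 F}
    (hh : Prm m ψ h) : h ≠ 0 := by
  rintro rfl
  have h1 := hh.1
  rw [Ideal.isCoprime_iff_sup_eq, Ideal.span_singleton_eq_bot.2 rfl, bot_sup_eq] at h1
  exact hψ.ntop h1

theorem ua6_prm {m : Ideal (𝓞 F)} {ψ : Ideal (𝓞 F) →*₀ 𝓞 F} (hψ : IsHecke m ψ) {μ h : 𝓞 F}
    (hμ : Ideal.span {μ} = m) (hh : Prm m ψ h) (x : 𝓞 F) : Prm m ψ (h + μ * x) := by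
  have hm : h + μ * x - h ∈ m := by
    rw [← hμ, add_sub_cancel_left]
    exact Ideal.mul_mem_right _ _ (Ideal.mem_span_singleton_self μ)
  have h1 : IsCoprime (Ideal.span {h + μ * x}) m := by
    have h2 := hh.1
    rw [Ideal.isCoprime_iff_sup_eq] at h2 ⊢
    rw [eq_top_iff, ← h2]
    refine sup_le ?_ le_sup_right
    rw [Ideal.span_le, Set.singleton_subset_iff]
    have h3 : (h + μ * x) + (-(h + μ * x - h)) = h := by ring
    have h5 : (h + μ * x) + (-(h + μ * x - h)) ∈ Ideal.span {h + μ * x} ⊔ m :=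
      Submodule.add_mem _ (Ideal.mem_sup_left (Ideal.mem_span_singleton_self _))
        (Ideal.mem_sup_right (m.neg_mem hm))
    rw [h3] at h5
    exact h5
  refine ⟨h1, ?_⟩
  have h4 := hψ.per (h + μ * x) h h1 hh.1 hm
  rw [hh.2, mul_comm h] at h4
  exact mul_right_cancel₀ (ua6_ne0 hψ hh) h4

theorem ua6_ff {m : Ideal (𝓞 F)} {ψ : Ideal (𝓞 F) →*₀ 𝓞 F} {y : 𝓞 F} (hy : Prm m ψ y) (s : ℂ) :
    (starRingEnd ℂ) (eF F (ψ (Ideal.span {y}))) * (Ideal.absNorm (Ideal.span {y}) : ℂ) ^ (-s) =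
      ff s (eF F y) := by
  unfold ff
  rw [hy.2, ← H55P.Nm_eq]
  rfl

/-- Chunk UA6 (M). h/μ + x = (h + μ x)/μ, ff_scale2 with c = eF F μ, ‖eF F μ‖^2 = Nm μ (H55P.Nm_eq). The map H × 𝓞 F → {J coprime to m}, (h, x) ↦ span {h + μ x} is bijective: y = h + μ x is congruent to h modulo m, coprime to m (IsHecke.per with x = y, y = h: ψ (span {y}) h = ψ (span {h}) y = h y, so ψ (span {y}) = y, h ≠ 0),
so y = ψ (span {y}) is determined by its ideal; surjective: J coprime to m, y = ψ J, span {y} = J (gen), HRep.ex. J = bottom is not coprime to m (ntop), the terms with J not coprime to m are 0 (IsHecke.zero). ff s y = conj (eF F y) (Nm y)^(-s), Nm y = absNorm (span {y}). HasSum.unique / tsum over the product. -/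
theorem Ff_ray {m : Ideal (𝓞 F)} {ψ : Ideal (𝓞 F) →*₀ 𝓞 F} (hψ : IsHecke m ψ) (μ : 𝓞 F) (hμ : Ideal.span {μ} = m)
    (H : Finset (𝓞 F)) (hH : HRep m ψ μ H) (s Λ : ℂ) (hs : 3 / 2 < s.re)
    (hΛ : HasSum (fun J : Ideal (𝓞 F) => (starRingEnd ℂ) (eF F (ψ J)) * (Ideal.absNorm J : ℂ) ^ (-s)) Λ) :
    ∑ h ∈ H, Ff F (eF F h / eF F μ) s = (Nm μ : ℂ) ^ s / (starRingEnd ℂ) (eF F μ) * Λ := by
  have hμ0 : μ ≠ 0 := by
    rintro rfl
    apply hψ.ne
    rw [← hμ, Ideal.span_singleton_eq_bot.2 rfl]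
  have hc : eF F μ ≠ 0 := H55P.eF_ne hμ0
  set i : ↥H × 𝓞 F → Ideal (𝓞 F) := fun p => Ideal.span {(p.1 : 𝓞 F) + μ * p.2} with hi
  have hprm : ∀ p : ↥H × 𝓞 F, Prm m ψ ((p.1 : 𝓞 F) + μ * p.2) := fun p =>
    ua6_prm hψ hμ (hH.prm p.1 p.1.2) p.2
  have hinj : Function.Injective i := by
    rintro ⟨h, x⟩ ⟨h', x'⟩ he
    have e1 := (hprm (h, x)).2
    have e2 := (hprm (h', x')).2
    simp only [hi] at he e1 e2
    rw [he, e2] at e1
    have e3 : (h : 𝓞 F) = h' := by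
      refine hH.un h h.2 h' h'.2 ⟨x' - x, ?_⟩
      linear_combination e1.symm
    have e4 : x = x' := by
      rw [e3] at e1
      exact (mul_left_cancel₀ hμ0 (add_left_cancel e1)).symm
    rw [Prod.mk.injEq]
    exact ⟨Subtype.ext e3, e4⟩
  have hsupp : ∀ J, J ∉ Set.range i →
      (starRingEnd ℂ) (eF F (ψ J)) * (Ideal.absNorm J : ℂ) ^ (-s) = 0 := by
    intro J hJ
    by_cases hJc : IsCoprime J m
    · exfalso
      apply hJ
      have hg := hψ.gen J hJc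
      have hy : Prm m ψ (ψ J) := by
        refine ⟨by rwa [hg], by rw [hg]⟩
      obtain ⟨h, hh, x, hx⟩ := hH.ex _ hy
      refine ⟨(⟨h, hh⟩, x), ?_⟩
      simp only [hi]
      rw [← hx, add_sub_cancel]
      exact hg
    · rw [hψ.zero J hJc]
      simp
  have h1 := (hinj.hasSum_iff hsupp).2 hΛ
  have h2 : HasSum (fun p : ↥H × 𝓞 F => ff s (eF F ((p.1 : 𝓞 F) + μ * p.2))) Λ := by
    refine h1.congr_fun ?_
    intro p
    exact (ua6_ff (hprm p) s).symm
  have hsc : ∀ (h x : 𝓞 F), ff s (eF F h / eF F μ + eF F x) =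
      ((‖eF F μ‖ ^ 2 : ℝ) : ℂ) ^ s / (starRingEnd ℂ) (eF F μ) * ff s (eF F (h + μ * x)) := by
    intro h x
    rw [← ff_scale2 _ _ _ hc]
    congr 1
    rw [map_add, map_mul]
    field_simp
  have hcc : ((‖eF F μ‖ ^ 2 : ℝ) : ℂ) ^ s / (starRingEnd ℂ) (eF F μ) ≠ 0 := by
    refine div_ne_zero ?_ (by simpa using hc)
    rw [Complex.cpow_ne_zero_iff]
    left
    have : (0 : ℝ) < ‖eF F μ‖ ^ 2 := by
      have := norm_pos_iff.2 hc
      positivity
    exact_mod_cast this.ne'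
  have h3 : ∀ h : 𝓞 F, HasSum (fun x : 𝓞 F => ff s (eF F (h + μ * x)))
      (∑' x : 𝓞 F, ff s (eF F (h + μ * x))) := by
    intro h
    have h4 := ff_sum F (eF F h / eF F μ) s hs
    simp only [hsc] at h4
    rw [summable_mul_left_iff hcc] at h4
    exact h4.hasSum
  have h5 := h2.prod_fiberwise (fun h => h3 h)
  have h6 := h5.unique (hasSum_fintype _)
  have h7 : ∀ h : 𝓞 F, Ff F (eF F h / eF F μ) s =
      ((‖eF F μ‖ ^ 2 : ℝ) : ℂ) ^ s / (starRingEnd ℂ) (eF F μ) *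
        ∑' x : 𝓞 F, ff s (eF F (h + μ * x)) := by
    intro h
    unfold Ff
    simp only [hsc]
    rw [tsum_mul_left]
  rw [h6, Finset.mul_sum, ← Finset.sum_coe_sort H]
  refine Finset.sum_congr rfl (fun h _ => ?_)
  rw [h7, ← H55P.Nm_eq]
  rfl

end H55K
end

-- from Lib.H13X.XN1
section

/-! # H13X: ports of GN6c, GN8a, GN8b, GN9a to all F -/

open NumberField IsDedekindDomain WeierstrassCurve

namespace H13X

open H55P (IQ embF eF LF Per IsHecke Pt ac Inert Dec Nm Coc)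
open H35P (WAB Ker tt)
open H55K (Tor ak xc yc CMA Dta GV GMod cj cj_cj mul_cj cj_prime cj_dvd cj_nat Nm_cj Nm_mul Nm_nat)
open H55K.S
open H55R (Pl ord es fs smulP)
open H13S (Abv)
open H13Y (guN EqHomN LocN Kap kmk kmk_zero kmk_surj SU mem_SU SU_act exists_lev)
open H99B (Lev)

variable {F : Type} [Field F] [NumberField F] [IQ F]

/-- F ⊆ N is not real, so N is totally complex: the number of infinite places is [N : F]. -/
theorem places_card (N : Type) [Field N] [NumberField N] [Algebra F N] :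
    (∀ v : InfinitePlace N, v.IsComplex) ∧ Fintype.card (InfinitePlace N) = Module.finrank F N := by
  classical
  have hreal := H55K.Ab.b3_real F
  have hc : ∀ v : InfinitePlace N, v.IsComplex := by
    intro v
    rw [← InfinitePlace.not_isReal_iff_isComplex]
    intro h
    have h1 : (v.comap (algebraMap F N)).IsReal := h.comap (algebraMap F N)
    have h3 : 0 < InfinitePlace.nrRealPlaces F := Fintype.card_pos_iff.2 ⟨⟨_, h1⟩⟩
    omega
  refine ⟨hc, ?_⟩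
  have h0 : InfinitePlace.nrRealPlaces N = 0 := by
    rw [InfinitePlace.nrRealPlaces, Fintype.card_eq_zero_iff]
    exact ⟨fun v => (InfinitePlace.not_isReal_iff_isComplex.2 (hc v.1)) v.2⟩
  have h2 := InfinitePlace.card_add_two_mul_card_eq_rank N
  have h4 := InfinitePlace.card_eq_nrRealPlaces_add_nrComplexPlaces N
  have h5 := Module.finrank_mul_finrank ℚ F N
  have h6 : Module.finrank ℚ F = 2 := IQ.deg
  rw [h6] at h5
  omega

/-- The product of the norms of different primes containing π. -/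
theorem prod_norm_le {N : Type} [Field N] [NumberField N] [Algebra F N] {π : 𝓞 F} (h0 : π ≠ 0)
    (T : Finset (Pl N)) (hT : ∀ v ∈ T, algebraMap (𝓞 F) (𝓞 N) π ∈ v.asIdeal) :
    ∏ v ∈ T, Ideal.absNorm v.asIdeal ≤ Nm π ^ Module.finrank F N := by
  classical
  have hinj : Function.Injective (algebraMap (𝓞 F) (𝓞 N)) := FaithfulSMul.algebraMap_injective (𝓞 F) (𝓞 N)
  have hπ : algebraMap (𝓞 F) (𝓞 N) π ≠ 0 := by
    intro h
    exact h0 (hinj (by rw [h, map_zero]))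
  have hdvd : ∏ v ∈ T, v.asIdeal ∣ Ideal.span {algebraMap (𝓞 F) (𝓞 N) π} := by
    have h1 : ∏ v ∈ T, v.asIdeal = ∏ P ∈ T.image (fun v => v.asIdeal), P := by
      rw [Finset.prod_image]
      intro v _ w _ hvw
      exact HeightOneSpectrum.ext hvw
    rw [h1]
    apply Finset.prod_primes_dvd
    · intro P hP
      rw [Finset.mem_image] at hP
      obtain ⟨v, -, rfl⟩ := hP
      exact v.prime
    · intro P hP
      rw [Finset.mem_image] at hP
      obtain ⟨v, hv, rfl⟩ := hP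
      rw [Ideal.dvd_span_singleton]
      exact hT v hv
  have hnorm : Ideal.absNorm (Ideal.span {algebraMap (𝓞 F) (𝓞 N) π}) = Nm π ^ Module.finrank F N := by
    rw [Ideal.absNorm_span_singleton]
    unfold Nm
    rw [Ideal.absNorm_span_singleton, ← Int.natAbs_pow]
    congr 1
    have h1 : ((Algebra.norm ℤ (algebraMap (𝓞 F) (𝓞 N) π) : ℤ) : ℚ) = ((Algebra.norm ℤ π ^ Module.finrank F N : ℤ) : ℚ) := by
      rw [Algebra.coe_norm_int]
      push_cast
      rw [Algebra.coe_norm_int]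
      have h2 : ((algebraMap (𝓞 F) (𝓞 N) π : 𝓞 N) : N) = algebraMap F N (π : F) := rfl
      rw [h2, ← Algebra.norm_norm (S := F), Algebra.norm_algebraMap, map_pow]
    exact_mod_cast h1
  have h1 : Ideal.absNorm (∏ v ∈ T, v.asIdeal) ∣ Ideal.absNorm (Ideal.span {algebraMap (𝓞 F) (𝓞 N) π}) :=
    Ideal.absNorm_dvd_absNorm_of_le (Ideal.le_of_dvd hdvd)
  rw [map_prod, hnorm] at h1
  apply Nat.le_of_dvd _ h1
  rw [← hnorm]
  apply Nat.pos_of_ne_zero
  rw [Ne, Ideal.absNorm_eq_zero_iff, Ideal.span_singleton_eq_bot]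
  exact hπ

/-- π divides l and l 𝓞 N is squarefree: v divides π exactly once. -/
theorem unr_val {l : ℕ} (hl : l ≠ 0) {π : 𝓞 F} (hd : π ∣ (l : 𝓞 F)) {N : Type} [Field N] [NumberField N]
    [Algebra F N] (hU : H55P.UnrP l N) (v : Pl N) (hv : algebraMap (𝓞 F) (𝓞 N) π ∈ v.asIdeal) :
    v.valuation N (algebraMap F N (π : F)) = WithZero.exp (-1 : ℤ) := by
  have hl0 : (l : 𝓞 N) ≠ 0 := Nat.cast_ne_zero.2 hl
  have hx : algebraMap (𝓞 F) (𝓞 N) π ∣ (l : 𝓞 N) := by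
    have h := map_dvd (algebraMap (𝓞 F) (𝓞 N)) hd
    rwa [map_natCast] at h
  have hx0 : algebraMap (𝓞 F) (𝓞 N) π ≠ 0 := fun h => hl0 (by rwa [h, zero_dvd_iff] at hx)
  have h1 : algebraMap F N (π : F) = algebraMap (𝓞 N) N (algebraMap (𝓞 F) (𝓞 N) π) := rfl
  rw [h1, HeightOneSpectrum.valuation_of_algebraMap]
  have hle : v.intValuation (algebraMap (𝓞 F) (𝓞 N) π) ≤ WithZero.exp (-((1 : ℕ) : ℤ)) := by
    rw [HeightOneSpectrum.intValuation_le_pow_iff_dvd, pow_one, Ideal.dvd_span_singleton]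
    exact hv
  have hnle : ¬ v.intValuation (algebraMap (𝓞 F) (𝓞 N) π) ≤ WithZero.exp (-((2 : ℕ) : ℤ)) := by
    rw [HeightOneSpectrum.intValuation_le_pow_iff_dvd]
    intro h
    have h2 : v.asIdeal * v.asIdeal ∣ Ideal.span {(l : 𝓞 N)} := by
      rw [← pow_two]
      refine h.trans ?_
      rw [Ideal.dvd_iff_le, Ideal.span_singleton_le_span_singleton]
      exact hx
    have h3 := hU v.asIdeal h2
    exact v.isPrime.ne_top (Ideal.isUnit_iff.1 h3)
  rw [HeightOneSpectrum.intValuation_if_neg _ hx0] at hle hnle ⊢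
  rw [WithZero.exp_le_exp] at hle hnle
  congr 1
  push_cast at hle hnle
  omega

theorem gn8b_fin {L : Type} [Field L] [NumberField L] [Algebra F L] {π : 𝓞 F} (h0 : π ≠ 0) :
    Finite {W : Pl L // algebraMap (𝓞 F) (𝓞 L) π ∈ W.asIdeal} := by
  have h1 : algebraMap (𝓞 F) (𝓞 L) π ≠ 0 := by
    intro h
    apply h0
    exact (FaithfulSMul.algebraMap_injective (𝓞 F) (𝓞 L)) (by rw [h, map_zero])
  have h2 : Ideal.span {algebraMap (𝓞 F) (𝓞 L) π} ≠ 0 := by
    simpa [Ideal.span_singleton_eq_bot] using h1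
  have h3 := Ideal.finite_factors h2
  refine Set.Finite.to_subtype (h3.subset ?_)
  intro W hW
  show W.asIdeal ∣ _
  rw [Ideal.dvd_span_singleton]
  exact hW

theorem gn8b_norm {N L : Type} [Field N] [NumberField N] [Field L] [NumberField L] [Algebra N L] (W : Pl L)
    (hs : ∀ b : Kap W, ∃ y : 𝓞 N, kmk W (algebraMap (𝓞 N) (𝓞 L) y) = b) :
    Nat.card (Kap W) = Ideal.absNorm (W.under (𝓞 N)).asIdeal := by
  set f : 𝓞 N →+* Kap W := (kmk W).comp (algebraMap (𝓞 N) (𝓞 L)) with hf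
  have hsur : Function.Surjective f := hs
  have hker : RingHom.ker f = (W.under (𝓞 N)).asIdeal := by
    ext y
    rw [RingHom.mem_ker, hf, RingHom.comp_apply, kmk_zero]
    rfl
  rw [Ideal.absNorm_apply, Submodule.cardQuot_apply, ← hker]
  exact Nat.card_congr (RingHom.quotientKerEquivOfSurjective hsur).symm.toEquiv

/-- The levels at all primes above π. -/
theorem exists_Lam {l : ℕ} [Fact l.Prime] {π : 𝓞 F} (h0 : π ≠ 0) {N L : Type} [Field N] [NumberField N]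
    [Field L] [NumberField L] [Algebra F N] [Algebra N L] [Algebra F L] [IsScalarTower F N L] {k : Type}
    [Field k] [Fintype k] [CharP k l] (hcard : Fintype.card k = Nm π) (χ : Gal(L/N) →* kˣ)
    (hone : ∀ W W' : Pl L, algebraMap (𝓞 F) (𝓞 L) π ∈ W.asIdeal → W.under (𝓞 N) = W'.under (𝓞 N) → W = W')
    (hloc : ∀ W : Pl L, algebraMap (𝓞 F) (𝓞 L) π ∈ W.asIdeal →
      ∃ (j : k →+* Kap W) (t : Lˣ), LocN j χ W t (kmk W)) :
    ∃ (Λ : Type) (_ : AddCommGroup Λ) (_ : Module k Λ) (_ : Module.Finite k Λ) (f : Lˣ → Λ),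
      Module.finrank k Λ ≤ Module.finrank F N ∧
      (∀ x y : Lˣ, (∀ W : Pl L, algebraMap (𝓞 F) (𝓞 L) π ∈ W.asIdeal → (l : ℤ) ∣ ord W x) →
        (∀ W : Pl L, algebraMap (𝓞 F) (𝓞 L) π ∈ W.asIdeal → (l : ℤ) ∣ ord W y) → f (x * y) = f x + f y) ∧
      (∀ (σ : Gal(L/N)) (x : Lˣ), (∀ W : Pl L, algebraMap (𝓞 F) (𝓞 L) π ∈ W.asIdeal → (l : ℤ) ∣ ord W x) →
        f (guN σ x) = (χ σ : k) • f x) ∧
      ∀ x : Lˣ, (∀ W : Pl L, algebraMap (𝓞 F) (𝓞 L) π ∈ W.asIdeal → (l : ℤ) ∣ ord W x) → f x = 0 →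
        ∀ W : Pl L, algebraMap (𝓞 F) (𝓞 L) π ∈ W.asIdeal → Lev l W x := by
  classical
  let S := {W : Pl L // algebraMap (𝓞 F) (𝓞 L) π ∈ W.asIdeal}
  haveI : Finite S := gn8b_fin h0
  haveI : Fintype S := Fintype.ofFinite S
  choose j t hl using fun W : S => hloc W.1 W.2
  have hch : ∀ W : S, CharP (Kap W.1) l := fun W => charP_of_injective_ringHom (j W).injective l
  choose c hc1 hc2 hc3 using fun W : S => haveI := hch W; exists_lev (hl W)
  let Λ := (W : S) → Kap W.1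
  letI m : ∀ W : S, Module k (Kap W.1) := fun W => Module.compHom _ (j W)
  have hsm : ∀ (W : S) (a : k) (x : Kap W.1), a • x = j W a * x := fun W a x => rfl
  haveI : Finite Λ := Pi.finite
  haveI hfin : Module.Finite k Λ := Module.Finite.of_finite
  refine ⟨Λ, inferInstance, inferInstance, hfin, fun x W => c W x, ?_, ?_, ?_, ?_⟩
  · have h1 : Nat.card Λ = ∏ W : S, Nat.card (Kap W.1) := Nat.card_pi
    have h2 : Nat.card Λ = Nat.card k ^ Module.finrank k Λ := Module.natCard_eq_pow_finrank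
    have hinj : Set.InjOn (fun W : S => W.1.under (𝓞 N)) (Finset.univ : Finset S) := by
      intro W _ W' _ h
      exact Subtype.ext (hone W.1 W'.1 W.2 h)
    have h3 : ∏ W : S, Nat.card (Kap W.1) = ∏ v ∈ Finset.univ.image (fun W : S => W.1.under (𝓞 N)), Ideal.absNorm v.asIdeal := by
      rw [Finset.prod_image hinj]
      exact Finset.prod_congr rfl fun W _ => gn8b_norm W.1 (hl W).surj
    have h4 := prod_norm_le (F := F) (N := N) h0 (Finset.univ.image (fun W : S => W.1.under (𝓞 N))) (by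
      intro v hv
      obtain ⟨W, -, rfl⟩ := Finset.mem_image.1 hv
      show algebraMap (𝓞 N) (𝓞 L) (algebraMap (𝓞 F) (𝓞 N) π) ∈ W.1.asIdeal
      have : algebraMap (𝓞 N) (𝓞 L) (algebraMap (𝓞 F) (𝓞 N) π) = algebraMap (𝓞 F) (𝓞 L) π := by
        rw [← IsScalarTower.algebraMap_apply]
      rw [this]
      exact W.2)
    rw [← h3, ← h1, h2, ← hcard, Nat.card_eq_fintype_card] at h4
    exact (Nat.pow_le_pow_iff_right Fintype.one_lt_card).1 h4
  · intro x y hx hy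
    funext W
    exact hc1 W x y (hx W.1 W.2) (hy W.1 W.2)
  · intro σ x hx
    funext W
    exact hc2 W σ x (hx W.1 W.2)
  · intro x hx h W hW
    exact hc3 ⟨W, hW⟩ x (hx W hW) (congrFun h ⟨W, hW⟩)

end H13X
end

-- from Lib.H28T.CB1
section

open NumberField IsDedekindDomain WeierstrassCurve

namespace H28T

open H55P H55R
open H55K H55K.TQ

variable {F : Type} [Field F] [NumberField F] [IQ F] {W₀ : WeierstrassCurve (𝓞 F)} {Om : ℂ}
    {m : Ideal (𝓞 F)} {ψ : Ideal (𝓞 F) →*₀ 𝓞 F} {p : ℕ}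

/-- Chunk CB1 (S/M, port of H28R.bad_dvd in H28R/A9.lean with ψ v in place of gen v). p divides the number of points (¬ Gd), which is Nm (1 - ψ v) (hH.deu), 1 - ψ v times its conjugate (mul_cj, D1.lean in H55K), so π divides 1 - ψ v or cj (1 - ψ v) = 1 - cj (ψ v). In the second case: v is not above m (hH.supp: Δ not in v), so v and m are coprime (v maximal),
v.asIdeal = span {ψ v} (IsHecke.gen, hH.data.hecke), absNorm v = Nm (ψ v) (definition of Nm), ψ v * cj (ψ v) = Nm (ψ v) = 1 modulo π (hd, p ∣ absNorm v - 1, π ∣ p), ψ v - 1 = ψ v (1 - cj (ψ v)) + (ψ v cj (ψ v) - 1). -/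
theorem cb1_dvd (hH : BaseH F W₀ Om m ψ) {v : HeightOneSpectrum (𝓞 F)} (hΔ : W₀.Δ ∉ v.asIdeal)
    (hv : (p : 𝓞 F) ∉ v.asIdeal) (hN : p ∣ Ideal.absNorm v.asIdeal - 1) (hg : ¬ Gd W₀ p v) {π : 𝓞 F}
    (hπ : Prime π) (hd : π ∣ (p : 𝓞 F)) : π ∣ ψ v.asIdeal - 1 := by
  have h1 : p ∣ Nat.card (W₀⁄(𝓞 F ⧸ v.asIdeal)).toAffine.Point := by
    by_contra h
    exact hg ⟨hΔ, hv, h⟩
  rw [hH.deu v hΔ] at h1
  have key : ∀ n : ℕ, p ∣ n → π ∣ (n : 𝓞 F) := by
    rintro n ⟨k, rfl⟩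
    rw [Nat.cast_mul]
    exact hd.mul_right _
  have h2 := key _ h1
  rw [← mul_cj] at h2
  rcases hπ.dvd_or_dvd h2 with h4 | h4
  · have e1 : ψ v.asIdeal - 1 = -(1 - ψ v.asIdeal) := by ring
    rw [e1]
    exact h4.neg_right
  · have h5 := key _ hN
    have hm : ¬ m ≤ v.asIdeal := fun h => hΔ ((hH.supp v).2 h)
    have hcop : IsCoprime v.asIdeal m := by
      rw [Ideal.isCoprime_iff_sup_eq]
      by_contra hne
      obtain ⟨M, hM, hle⟩ := Ideal.exists_le_maximal _ hne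
      have h7 : v.asIdeal = M := v.isMaximal.eq_of_le hM.ne_top (le_sup_left.trans hle)
      exact hm (h7 ▸ (le_sup_right.trans hle))
    have h8 : Ideal.absNorm v.asIdeal = H55P.Nm (ψ v.asIdeal) := by
      unfold H55P.Nm
      rw [hH.data.hecke.gen _ hcop]
    have h6 : 1 ≤ Ideal.absNorm v.asIdeal :=
      Nat.pos_of_ne_zero fun h => v.ne_bot (Ideal.absNorm_eq_zero_iff.1 h)
    rw [Nat.cast_sub h6, h8, ← mul_cj, Nat.cast_one] at h5
    rw [map_sub, map_one] at h4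
    have e1 : ψ v.asIdeal - 1 = ψ v.asIdeal * (1 - cj (ψ v.asIdeal)) +
        (ψ v.asIdeal * cj (ψ v.asIdeal) - 1) := by ring
    rw [e1]
    exact dvd_add (h4.mul_left _) h5

/-- Chunk CB1 (S/M). A prime element above p (p is not a unit: Nm p = p^2, H55K.Nm_nat; 𝓞 F is a principal ideal ring: IQ.pid; a maximal ideal containing p is generated by a prime element: Ideal.span_singleton_prime). -/
theorem cb1_pi (hp : p.Prime) : ∃ π : 𝓞 F, Prime π ∧ π ∣ (p : 𝓞 F) := by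
  haveI : IsPrincipalIdealRing (𝓞 F) := IQ.pid
  have h1 : ¬ IsUnit (p : 𝓞 F) := by
    intro h
    have h2 : H55P.Nm (p : 𝓞 F) = 1 := by
      unfold H55P.Nm
      rw [Ideal.span_singleton_eq_top.2 h, Ideal.absNorm_top]
    rw [Nm_nat] at h2
    have h3 : p = 1 := by
      have := Nat.pow_eq_one.1 h2
      rcases this with h | h
      · exact h
      · omega
    exact hp.one_lt.ne' h3
  have h2 : (p : 𝓞 F) ≠ 0 := by exact_mod_cast hp.ne_zero
  obtain ⟨π, hπ, hd⟩ := WfDvdMonoid.exists_irreducible_factor h1 h2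
  exact ⟨π, hπ.prime, hd⟩

end H28T
end

-- from Lib.H13D.A7
section

/-! # H13D, part A: good reduction (generic) -/

open NumberField IsDedekindDomain WeierstrassCurve

namespace H13D

open H55P (IQ embF eF LF Per IsHecke Pt ac Inert Dec Nm)
open H35P (WAB Ker tt GoodW IntW)
open H55K

/-- Chunk A7 (S/M). p prime, V(p) < 1, q = p^f: (x + y)^q is congruent to x^q + y^q and (x - y)^q to x^q - y^q. H55K.g7c_add (G7C.lean) or exists_add_pow_prime_eq; induction on f, or: in the residue field of V (characteristic p) sub_pow_char_pow; IsLocalRing.residue. For p = 2: -1 = 1. -/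
theorem sub_pow_val {k : Type} [Field k] (V : ValuationSubring k) {p : ℕ} (hp : p.Prime) (hpV : V.valuation (p : k) < 1) (f : ℕ)
    {x y : k} (hx : V.valuation x ≤ 1) (hy : V.valuation y ≤ 1) :
    V.valuation ((x - y) ^ p ^ f - (x ^ p ^ f - y ^ p ^ f)) < 1 := by
  set X : V := ⟨x, V.mem_of_valuation_le_one x hx⟩ with hX
  set Y : V := ⟨y, V.mem_of_valuation_le_one y hy⟩ with hY
  have hval : ∀ a : V, V.valuation (a : k) < 1 ↔ IsLocalRing.residue V a = 0 := by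
    intro a
    rw [IsLocalRing.residue_eq_zero_iff, ← ValuationSubring.valuation_lt_one_iff]
  have hp0 : ((p : ℕ) : IsLocalRing.ResidueField V) = 0 := by
    have h1 := (hval (p : V)).1 (by simpa using hpV)
    rw [map_natCast] at h1
    exact h1
  haveI : CharP (IsLocalRing.ResidueField V) p := (CharP.charP_iff_prime_eq_zero hp).2 hp0
  haveI : Fact p.Prime := ⟨hp⟩
  have h2 := (hval ((X - Y) ^ p ^ f - (X ^ p ^ f - Y ^ p ^ f))).2 (by
    rw [map_sub, map_pow, map_sub, map_sub, map_pow, map_pow, sub_pow_char_pow, sub_self])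
  simpa using h2

variable {F : Type} [Field F] [NumberField F] [IQ F] {A B : F} {Om : ℂ} {Ω : Type} [Field Ω] [DecidableEq Ω]
  [Algebra F Ω] {j : Ω →+* ℂ} {act : 𝓞 F →+* AddMonoid.End (Pt (WAB A B) Ω)} {V : ValuationSubring Ω}
  {Kg : AddSubgroup (Pt (WAB A B) Ω)} {u r : Ω}

/-- Chunk A7 (M). Port of H55K/G7C.lean (frob_diff), with xn in place of xc. κ = β^2 * product over S of xn R (S the nonzero points killed by β), V(κ) = 1 (prod_xn). For X, Y not in Kg: act β X, act β Y are not in Kg (ker_red'), so they are not 0; e2n: κ * prod (1 - xn Y/xn R) * (xn (βX) - xn (βY)) =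
(xn X - xn Y) * prod (xn (X + R) - xn Y), where V(xn Y/xn R) < 1 (R in Kg by tor_ker') and V(xn (X + R) - xn X) < 1 (hR.conv): so κ (xn (βX) - xn (βY)) is congruent to (xn X - xn Y)^q, q = Nm β = S.card + 1 (exists_TN), and this to xn X^q - xn Y^q (sub_pow_val). -/
theorem frob_diff' (h : CMA F A B Om j act) (hR : RM A B V Kg u r) {β : 𝓞 F} (hβ : Prime β) (hv : V.valuation (ak Ω β) < 1)
    {p f : ℕ} (hp : p.Prime) (hq : Nm β = p ^ f) (hpV : V.valuation (p : Ω) < 1) : ∃ κ : Ω, V.valuation κ = 1 ∧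
    ∀ X Y : Pt (WAB A B) Ω, X ∉ Kg → Y ∉ Kg →
      V.valuation (κ * (xn u r (act β X) - xn u r (act β Y)) - (xn u r X ^ Nm β - xn u r Y ^ Nm β)) < 1 := by
  classical
  have hβ0 : β ≠ 0 := hβ.ne_zero
  obtain ⟨S, hS, hcard⟩ := exists_TN h hβ0
  have hR1 : ∀ R ∈ S, R ≠ 0 ∧ R ∈ Kg ∧ 1 < V.valuation (xn u r R) := by
    intro R hRS
    obtain ⟨h1, h2⟩ := (hS R).1 hRS
    have h3 : R ∈ Kg := tor_ker' h hR hβ hv h1
    exact ⟨h2, h3, hR.big _ h3 h2⟩
  have hxR : ∀ R ∈ S, xn u r R ≠ 0 := by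
    intro R hRS h0
    have := (hR1 R hRS).2.2
    rw [h0, map_zero] at this
    exact absurd this (not_lt.2 zero_le_one)
  have hred : ∀ X : Pt (WAB A B) Ω, X ∉ Kg → act β X ∉ Kg := fun X hX hX' =>
    hX (ker_red' h hR hβ hv hX')
  have hκ : V.valuation (ak Ω β ^ 2 * ∏ R ∈ S, xn u r R) = 1 := prod_xn h hR hβ hv hS
  refine ⟨ak Ω β ^ 2 * ∏ R ∈ S, xn u r R, hκ, ?_⟩
  intro X Y hX hY
  have hX1 := hR.int _ hX
  have hY1 := hR.int _ hY
  have hbX := hred X hX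
  have hbY := hred Y hY
  have hbX0 : act β X ≠ 0 := fun h0 => hbX (h0 ▸ Kg.zero_mem)
  have hbY0 : act β Y ≠ 0 := fun h0 => hbY (h0 ▸ Kg.zero_mem)
  have hbX1 := hR.int _ hbX
  have hbY1 := hR.int _ hbY
  have he2 := e2n (u := u) (r := r) h hR.une hβ0 hS hbX0 hbY0
  have hu : V.valuation (∏ R ∈ S, (1 - xn u r Y / xn u r R) - ∏ R ∈ S, (1 : Ω)) < 1 := by
    have hlt : ∀ R ∈ S, V.valuation (xn u r Y / xn u r R) < 1 := by
      intro R hRS
      rw [map_div₀]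
      have h1 := (hR1 R hRS).2.2
      exact (div_lt_one₀ (zero_lt_one.trans h1)).2 (hY1.trans_lt h1)
    refine g7c_prod V S _ _ (fun R hRS => ?_) (fun R hRS => (map_one _).le) (fun R hRS => ?_)
    · refine (V.valuation.map_sub _ _).trans (max_le (map_one _).le (hlt R hRS).le)
    · have h1 : 1 - xn u r Y / xn u r R - 1 = -(xn u r Y / xn u r R) := by ring
      rw [h1, Valuation.map_neg]
      exact hlt R hRS
  rw [Finset.prod_const_one] at hu
  have hP : V.valuation (∏ R ∈ S, (xn u r (X + R) - xn u r Y) - ∏ R ∈ S, (xn u r X - xn u r Y)) < 1 := by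
    have hc : ∀ R ∈ S, X + R ∉ Kg ∧ V.valuation (xn u r (X + R) - xn u r X) < 1 := by
      intro R hRS
      have h1 : X + R - X ∈ Kg := by
        rw [add_sub_cancel_left]
        exact (hR1 R hRS).2.1
      refine ⟨fun hk => hX ?_, hR.conv _ _ hX h1⟩
      have h2 := Kg.sub_mem hk h1
      rwa [sub_sub_cancel] at h2
    refine g7c_prod V S _ _ (fun R hRS => ?_) (fun R hRS => ?_) (fun R hRS => ?_)
    · exact (V.valuation.map_sub _ _).trans (max_le (hR.int _ (hc R hRS).1) hY1)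
    · exact (V.valuation.map_sub _ _).trans (max_le hX1 hY1)
    · have h1 : xn u r (X + R) - xn u r Y - (xn u r X - xn u r Y) = xn u r (X + R) - xn u r X := by ring
      rw [h1]
      exact (hc R hRS).2
  rw [Finset.prod_const, hcard] at hP
  have hprod : ∏ R ∈ S, (xn u r R - xn u r Y) = (∏ R ∈ S, xn u r R) * ∏ R ∈ S, (1 - xn u r Y / xn u r R) := by
    rw [← Finset.prod_mul_distrib]
    refine Finset.prod_congr rfl fun R hRS => ?_
    have := hxR R hRS
    field_simp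
  rw [hprod] at he2
  have hqpos : 1 ≤ Nm β := by
    rw [hq]
    exact Nat.one_le_pow _ _ hp.pos
  have hpow : (xn u r X - xn u r Y) * (xn u r X - xn u r Y) ^ (Nm β - 1) = (xn u r X - xn u r Y) ^ Nm β := by
    rw [← pow_succ', Nat.sub_add_cancel hqpos]
  have hsub : V.valuation ((xn u r X - xn u r Y) ^ Nm β - (xn u r X ^ Nm β - xn u r Y ^ Nm β)) < 1 := by
    rw [hq]
    exact sub_pow_val V hp hpV f hX1 hY1
  have hD : V.valuation (xn u r (act β X) - xn u r (act β Y)) ≤ 1 :=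
    (V.valuation.map_sub _ _).trans (max_le hbX1 hbY1)
  have hxy : V.valuation (xn u r X - xn u r Y) ≤ 1 := (V.valuation.map_sub _ _).trans (max_le hX1 hY1)
  set κ := ak Ω β ^ 2 * ∏ R ∈ S, xn u r R with hκdef
  set w := ∏ R ∈ S, (1 - xn u r Y / xn u r R) with hudef
  set p' := ∏ R ∈ S, (xn u r (X + R) - xn u r Y) with hpdef
  have hfin : κ * (xn u r (act β X) - xn u r (act β Y)) - (xn u r X ^ Nm β - xn u r Y ^ Nm β) =
      (xn u r X - xn u r Y) * (p' - (xn u r X - xn u r Y) ^ (Nm β - 1)) - κ * (xn u r (act β X) - xn u r (act β Y)) * (w - 1) +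
      ((xn u r X - xn u r Y) ^ Nm β - (xn u r X ^ Nm β - xn u r Y ^ Nm β)) := by
    rw [← hpow]
    have : κ * (xn u r (act β X) - xn u r (act β Y)) * w = (xn u r X - xn u r Y) * p' := by
      rw [← he2, hκdef]
      ring
    linear_combination this
  rw [hfin]
  refine V.valuation.map_add_lt (V.valuation.map_sub_lt ?_ ?_) hsub
  · exact g7c_mul V hxy hP
  · refine g7c_mul V ?_ hu
    rw [map_mul, hκ, one_mul]
    exact hD

end H13D
end

-- from Lib.H13D.A8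
section

/-! # H13D, part A: good reduction (generic) -/

open NumberField IsDedekindDomain WeierstrassCurve

namespace H13D

open H55P (IQ embF eF LF Per IsHecke Pt ac Inert Dec Nm)
open H35P (WAB Ker tt GoodW IntW)
open H55K

variable {F : Type} [Field F] [NumberField F] [IQ F] {A B : F} {Om : ℂ} {Ω : Type} [Field Ω] [DecidableEq Ω]
  [Algebra F Ω] {j : Ω →+* ℂ} {act : 𝓞 F →+* AddMonoid.End (Pt (WAB A B) Ω)} {V : ValuationSubring Ω}
  {Kg : AddSubgroup (Pt (WAB A B) Ω)} {u r : Ω}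

/-- Chunk A8 (S). xn (ac s P) = s (xn P) for P ≠ 0 (H55K.ac_crd in M4B.lean: xc (ac s P) = s (xc P); s u = u, s r = r) and for P = 0 (both are -r/u^2). -/
theorem xn_ac (s : Ω ≃ₐ[F] Ω) (hu : s u = u) (hr : s r = r) (P : Pt (WAB A B) Ω) :
    xn u r (ac (WAB A B) s P) = s (xn u r P) := by
  unfold xn
  rw [xc_ac, map_div₀, map_sub, map_pow, hu, hr]

/-- Chunk A8 (S). mem_iff, xn_ac; s is a Frobenius element, so it is in the decomposition group (H55K.g8c_dec in G8C.lean): V(s x) > 1 iff V(x) > 1. -/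
theorem ac_mem_iff (hR : RM A B V Kg u r) (s : Ω ≃ₐ[F] Ω) (hs : Dec V s) (hu : s u = u) (hr : s r = r) (P : Pt (WAB A B) Ω) :
    ac (WAB A B) s P ∈ Kg ↔ P ∈ Kg := by
  by_cases hP : P = 0
  · rw [hP, map_zero]
  · have h0 : ac (WAB A B) s P ≠ 0 := fun h => hP (by
      obtain ⟨-, -, h1, -⟩ := MG.ac_crd (W := WAB A B) s P
      exact h1 h)
    rw [mem_iff hR h0, mem_iff hR hP, xn_ac s hu hr, ← not_le, ← not_le, V.valuation_le_one_iff, V.valuation_le_one_iff, hs]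

/-- Chunk A8 (M). THE FROBENIUS ELEMENT IS A MULTIPLICATION. T, T' are not in Kg, nor T - T', T + T'; β T = ± sT (the x-coordinates agree) and the same for T'. κ from frob_diff'. xn (sT) = s (xn T) is congruent to (xn T)^q (hs; xn T in V by hR.int), the same for T'. So with D = xn (βT) - xn (βT') (V(D) = 1 by hR.diff: βT, βT', β(T - T'), β(T + T') are
not in Kg by ker_red') frob_diff' says V(κ D - D) < 1, so V(κ - 1) < 1. For X not in Kg: frob_diff' for X and T: xn (βX) - xn (βT) is congruent to xn X^q - xn T^q (xn (βX), xn (βT) in V: ker_red'), and xn (βT) = xn (sT) is congruent to xn T^q: so xn (βX) is congruent to xn X^q, which is congruent to s (xn X) = xn (sX).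
Both βX, sX are not in Kg (ker_red', ac_mem_iff): cls_of: βX - sX or βX + sX is in Kg. For X in Kg both are in Kg (act_mem, ac_mem_iff). H55K.two_sub (G8B.lean) with K = Kg, f = act β, g = ac s: γ = β or γ = -β. -/
theorem frob_gen' (h : CMA F A B Om j act) (hR : RM A B V Kg u r) {β : 𝓞 F} (hβ : Prime β) (hv : V.valuation (ak Ω β) < 1)
    {p f : ℕ} (hp : p.Prime) (hq : Nm β = p ^ f) (hpV : V.valuation (p : Ω) < 1) (s : Ω ≃ₐ[F] Ω) (hs : Dec V s)
    (hsF : ∀ x ∈ V, V.valuation (s x - x ^ Nm β) < 1) (hu : s u = u) (hr : s r = r) {T T' : Pt (WAB A B) Ω}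
    (h1 : T ∉ Kg) (h2 : T' ∉ Kg) (h3 : T - T' ∉ Kg) (h4 : T + T' ∉ Kg)
    (h5 : xc (ac (WAB A B) s T) = xc (act β T)) (h6 : xc (ac (WAB A B) s T') = xc (act β T')) :
    ∃ γ : 𝓞 F, (γ = β ∨ γ = -β) ∧ ∀ X : Pt (WAB A B) Ω, act γ X - ac (WAB A B) s X ∈ Kg := by
  obtain ⟨κ, hκ, hfd⟩ := frob_diff' (u := u) (r := r) h hR hβ hv hp hq hpV
  have hred : ∀ X : Pt (WAB A B) Ω, X ∉ Kg → act β X ∉ Kg := fun X hX hX' =>
    hX (ker_red' h hR hβ hv hX')
  have hxs : ∀ X : Pt (WAB A B) Ω, X ∉ Kg → V.valuation (xn u r (ac (WAB A B) s X) - xn u r X ^ Nm β) < 1 := by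
    intro X hX
    rw [xn_ac s hu hr]
    exact hsF _ ((V.valuation_le_one_iff _).1 (hR.int _ hX))
  have hT : ∀ T : Pt (WAB A B) Ω, T ∉ Kg → xc (ac (WAB A B) s T) = xc (act β T) →
      V.valuation (xn u r (act β T) - xn u r T ^ Nm β) < 1 := by
    intro T hT1 hT2
    have e : xn u r (act β T) = xn u r (ac (WAB A B) s T) := by
      unfold xn
      rw [hT2]
    rw [e]
    exact hxs T hT1
  have hm : act β (T - T') = act β T - act β T' := map_sub _ _ _
  have hm' : act β (T + T') = act β T + act β T' := map_add _ _ _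
  have hD : V.valuation (xn u r (act β T) - xn u r (act β T')) = 1 :=
    hR.diff _ _ (hred T h1) (hred T' h2) (hm ▸ hred _ h3) (hm' ▸ hred _ h4)
  have hκ1 : V.valuation (κ - 1) < 1 := by
    have a1 := hfd T T' h1 h2
    have a2 := hT T h1 h5
    have a3 := hT T' h2 h6
    have a4 : V.valuation ((κ - 1) * (xn u r (act β T) - xn u r (act β T'))) < 1 := by
      have e : (κ - 1) * (xn u r (act β T) - xn u r (act β T')) =
          (κ * (xn u r (act β T) - xn u r (act β T')) - (xn u r T ^ Nm β - xn u r T' ^ Nm β)) -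
          (xn u r (act β T) - xn u r T ^ Nm β) + (xn u r (act β T') - xn u r T' ^ Nm β) := by ring
      rw [e]
      exact V.valuation.map_add_lt (V.valuation.map_sub_lt a1 a2) a3
    rwa [map_mul, hD, mul_one] at a4
  have hbx : ∀ X : Pt (WAB A B) Ω, X ∉ Kg → V.valuation (xn u r (act β X) - xn u r X ^ Nm β) < 1 := by
    intro X hX
    have b1 := hfd X T hX h1
    have b2 := hT T h1 h5
    have b3 : V.valuation ((κ - 1) * (xn u r (act β X) - xn u r (act β T))) < 1 := by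
      rw [map_mul]
      refine mul_lt_one_of_lt_of_le hκ1 ?_
      exact (V.valuation.map_sub _ _).trans (max_le (hR.int _ (hred X hX)) (hR.int _ (hred T h1)))
    have e : xn u r (act β X) - xn u r X ^ Nm β =
        (κ * (xn u r (act β X) - xn u r (act β T)) - (xn u r X ^ Nm β - xn u r T ^ Nm β)) -
        (κ - 1) * (xn u r (act β X) - xn u r (act β T)) + (xn u r (act β T) - xn u r T ^ Nm β) := by ring
    rw [e]
    exact V.valuation.map_add_lt (V.valuation.map_sub_lt b1 b3) b2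
  have hall : ∀ X : Pt (WAB A B) Ω, (act β X - ac (WAB A B) s X ∈ Kg) ∨
      (act β X + ac (WAB A B) s X ∈ Kg) := by
    intro X
    by_cases hX : X ∈ Kg
    · left
      exact Kg.sub_mem (act_mem h hR β hX) ((ac_mem_iff hR s hs hu hr X).2 hX)
    · refine cls_of hR (hred X hX) (fun h' => hX ((ac_mem_iff hR s hs hu hr X).1 h')) ?_
      have c1 := hbx X hX
      have c2 := hxs X hX
      have e : xn u r (act β X) - xn u r (ac (WAB A B) s X) =
          (xn u r (act β X) - xn u r X ^ Nm β) - (xn u r (ac (WAB A B) s X) - xn u r X ^ Nm β) := by ring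
      rw [e]
      exact V.valuation.map_sub_lt c1 c2
  rcases two_sub Kg (act β : Pt (WAB A B) Ω →+ Pt (WAB A B) Ω) (ac (WAB A B) s) hall with h7 | h7
  · exact ⟨β, Or.inl rfl, fun X => h7 X⟩
  · refine ⟨-β, Or.inr rfl, fun X => ?_⟩
    have e : act (-β) X - ac (WAB A B) s X = -(act β X + ac (WAB A B) s X) := by
      rw [map_neg]
      change -(act β X) - ac (WAB A B) s X = _
      abel
    rw [e]
    exact Kg.neg_mem (h7 X)

end H13D
end

-- from Lib.H55W.L0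
section

/-! # H55W, part L: the Frobenius element at a prime of good reduction -/

open NumberField IsDedekindDomain WeierstrassCurve

namespace H55W

open H55P (IQ embF eF LF Per IsHecke Pt ac Inert Dec Nm)
open H35P (WAB Ker tt GoodW IntW)
open H55K
open H13D (RM)

section

variable {F : Type} [Field F] [NumberField F] {Ω : Type} [Field Ω] [DecidableEq Ω] [Algebra F Ω]

/-- V lies over the prime v of good reduction, s is a Frobenius element at V, Kg is the kernel of reduction. -/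
structure LD {A B : F} (v : HeightOneSpectrum (𝓞 F)) (V : ValuationSubring Ω) (s : Ω ≃ₐ[F] Ω) (Kg : AddSubgroup (Pt (WAB A B) Ω))
    (r : Ω) : Prop where
  rm : RM A B V Kg 1 r
  sr : s r = r
  lt : ∀ a : 𝓞 F, a ∈ v.asIdeal → V.valuation (ak Ω a) < 1
  eq : ∀ a : 𝓞 F, a ∉ v.asIdeal → V.valuation (ak Ω a) = 1
  dec : Dec V s
  frob : ∀ x ∈ V, V.valuation (s x - x ^ Ideal.absNorm v.asIdeal) < 1

end

variable {F : Type} [Field F] [NumberField F] [IQ F] {A B : F} {Om : ℂ} {Ω : Type} [Field Ω] [DecidableEq Ω]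
  [Algebra F Ω] {j : Ω →+* ℂ} {act : 𝓞 F →+* AddMonoid.End (Pt (WAB A B) Ω)} {V : ValuationSubring Ω}
  {Kg : AddSubgroup (Pt (WAB A B) Ω)} {v : HeightOneSpectrum (𝓞 F)} {s : Ω ≃ₐ[F] Ω} {r : Ω}

theorem l0_mul (a b : 𝓞 F) (P : Pt (WAB A B) Ω) : act (a * b) P = act a (act b P) := by
  rw [map_mul]
  rfl

theorem l0_sub (a b : 𝓞 F) (P : Pt (WAB A B) Ω) : act (a - b) P = act a P - act b P := by
  rw [map_sub]
  rfl

theorem l0_one (P : Pt (WAB A B) Ω) : act 1 P = P := by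
  rw [map_one]
  rfl

theorem l0_inj {u : 𝓞 F} (hu : IsUnit u) {P : Pt (WAB A B) Ω} (h : act u P = 0) : P = 0 := by
  obtain ⟨w, hw⟩ := hu.exists_left_inv
  have h1 : act (w * u) P = P := by rw [hw, l0_one]
  rw [l0_mul, h, map_zero] at h1
  exact h1.symm

/-- Chunk L0 (S). h.e1x, h.e1y for the unit u and S = ∅ (TN act u ∅: act u T = 0 implies T = act u⁻¹ (act u T) = 0). P = 0: both sides are 0. -/
theorem act_unit (h : CMA F A B Om j act) {u : 𝓞 F} (hu : IsUnit u) (P : Pt (WAB A B) Ω) :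
    ak Ω u ^ 2 * xc (act u P) = xc P ∧ ak Ω u ^ 3 * yc (act u P) = yc P := by
  by_cases hP : P = 0
  · rw [hP, map_zero, xc_zero, yc_zero, mul_zero, mul_zero]
    exact ⟨rfl, rfl⟩
  · have hTN : TN act u ∅ := by
      intro T
      simp only [Finset.notMem_empty, false_iff, not_and, not_not]
      exact fun h1 => l0_inj hu h1
    have hne : act u P ≠ 0 := fun h1 => hP (l0_inj hu h1)
    have h1 := h.e1x u ∅ hu.ne_zero hTN P hne
    have h2 := h.e1y u ∅ hu.ne_zero hTN P hne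
    rw [Finset.sum_empty, add_zero] at h1 h2
    exact ⟨h1, h2⟩

/-- Chunk L0 (S). act (-1) P = -P. -/
theorem act_neg (a : 𝓞 F) (P : Pt (WAB A B) Ω) : act (-a) P = -act a P := by
  rw [map_neg]
  rfl

/-- Chunk L0 (M). Let a be one of 1, t, 1 - t, 1 + t (not divisible by n0; n0 is not a unit since it does not divide t): act a T ≠ 0 and act n0 (act a T) = 0, so act a T is not in Kg (H13D.tor_unit' with b = n0, V(n0) = 1). xc (ac s T) = xc (act β T): act c T = act β T or - act β T (n0 divides c - β or c + β: hTg; xc_neg). T' = act t T: ac s T' = act t (ac s T) (h.gal) = act c (act t T), the same.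
H13D.frob_gen' with u = 1: γ = β or -β (Prime β: span {β} = v; V(β) < 1; Nm β = absNorm v = p^f: the residue field, H13D or H55K: absNorm of a prime ideal is a prime power, e.g. Ideal.absNorm and FiniteField.card; p in v). Then act γ T - ac s T = act (γ - c) T is in Kg and killed by n0, so it is 0 (tor_unit'), and n0 divides γ - c (hTg). -/
theorem loc_gen (h : CMA F A B Om j act) (hL : LD v V s Kg r) {n0 : 𝓞 F} (hn0 : n0 ∉ v.asIdeal) {T : Pt (WAB A B) Ω}
    (hT : ∀ a, act a T = 0 ↔ n0 ∣ a) {c β t : 𝓞 F} (hβ : Ideal.span {β} = v.asIdeal)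
    (hc : ac (WAB A B) s T = act c T) (hcβ : n0 ∣ c - β ∨ n0 ∣ c + β) (h0 : ¬ n0 ∣ t) (h1 : ¬ n0 ∣ 1 - t) (h2 : ¬ n0 ∣ 1 + t) :
    ∃ γ : 𝓞 F, Ideal.span {γ} = v.asIdeal ∧ n0 ∣ γ - c ∧ ∀ X : Pt (WAB A B) Ω, act γ X - ac (WAB A B) s X ∈ Kg := by
  have hVn : V.valuation (ak Ω n0) = 1 := hL.eq n0 hn0
  have key : ∀ a : 𝓞 F, ¬ n0 ∣ a → act a T ∉ Kg := by
    intro a ha hK
    have h3 : act n0 (act a T) = 0 := by
      rw [← l0_mul]
      exact (hT _).2 (dvd_mul_right _ _)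
    exact ha ((hT a).1 (H13D.tor_unit' h hL.rm hVn h3 hK))
  have hone : ¬ n0 ∣ 1 := fun h3 => h0 (h3.trans (one_dvd t))
  have hβ0 : β ≠ 0 := by
    rintro rfl
    rw [Ideal.span_singleton_eq_bot.2 rfl] at hβ
    exact v.ne_bot hβ.symm
  have hβp : Prime β := (Ideal.span_singleton_prime hβ0).1 (by rw [hβ]; exact v.isPrime)
  have hβv : β ∈ v.asIdeal := by
    rw [← hβ]
    exact Ideal.mem_span_singleton_self β
  obtain ⟨p, f, hp, hpv, -, hN⟩ := H13D.below_v v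
  have hNm : Nm β = Ideal.absNorm v.asIdeal := by
    unfold Nm
    rw [hβ]
  have hpV : V.valuation (p : Ω) < 1 := by
    have h3 := hL.lt _ hpv
    unfold ak at h3
    simpa using h3
  have hx : ∀ a : 𝓞 F, xc (ac (WAB A B) s (act a T)) = xc (act β (act a T)) := by
    intro a
    have h3 : ac (WAB A B) s (act a T) = act a (act c T) := by rw [h.gal, hc]
    rw [h3]
    rcases hcβ with h4 | h4
    · have h5 := (hT _).2 h4
      rw [l0_sub, sub_eq_zero] at h5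
      rw [h5, ← l0_mul, ← l0_mul, mul_comm]
    · have h5 : act c T = -act β T := by
        have h6 := (hT _).2 h4
        have h7 : c + β = c - -β := by ring
        rw [h7, l0_sub, sub_eq_zero] at h6
        rw [h6, act_neg]
      rw [h5, map_neg, xc_neg, ← l0_mul, ← l0_mul, mul_comm]
  have e1 : T - act t T = act (1 - t) T := by rw [l0_sub, l0_one]
  have e2 : T + act t T = act (1 + t) T := by
    have h7 : (1 : 𝓞 F) + t = 1 - -t := by ring
    rw [h7, l0_sub, l0_one, act_neg, sub_neg_eq_add]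
  have hT1 : T ∉ Kg := by
    have := key 1 hone
    rwa [l0_one] at this
  have hx1 : xc (ac (WAB A B) s T) = xc (act β T) := by
    have := hx 1
    rwa [l0_one] at this
  obtain ⟨γ, hγ, hγK⟩ := H13D.frob_gen' h hL.rm hβp (hL.lt β hβv) hp (hNm.trans hN) hpV s hL.dec
    (fun x hx => by rw [hNm]; exact hL.frob x hx) (map_one s) hL.sr hT1 (key t h0)
    (by rw [e1]; exact key _ h1) (by rw [e2]; exact key _ h2) hx1 (hx t)
  refine ⟨γ, ?_, ?_, hγK⟩
  · rcases hγ with h3 | h3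
    · rw [h3, hβ]
    · rw [h3, Ideal.span_singleton_neg, hβ]
  · have h3 := hγK T
    rw [hc, ← l0_sub] at h3
    have h4 : act n0 (act (γ - c) T) = 0 := by
      rw [← l0_mul]
      exact (hT _).2 (dvd_mul_right _ _)
    exact (hT _).1 (H13D.tor_unit' h hL.rm hVn h4 h3)

theorem l0_pow {Γ : Type*} [LinearOrderedCommGroupWithZero Γ] {x : Γ} {m : ℕ} (hm : m ≠ 0) (h : x ^ m = 1) : x = 1 := by
  rcases lt_trichotomy x 1 with h1 | h1 | h1
  · exact absurd h (pow_lt_one₀ zero_le' h1 hm).ne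
  · exact h1
  · exact absurd h (one_lt_pow₀ h1 hm).ne'

/-- Chunk L0 (S/M). X^m = c, c an integer of F not in v, s X = ζ X with ζ in F, m divides N - 1: s X is congruent to X^N = X c^((N-1)/m), V(X) = 1 (V(X)^m = V(c) = 1; LinearOrderedCommGroupWithZero), so V(ζ - c^((N-1)/m)) < 1 and c^((N-1)/m) - ζ is in v (hL.eq otherwise). -/
theorem frob_root (hL : LD v V s Kg r) {m : ℕ} (hm : 0 < m) (hd : m ∣ Ideal.absNorm v.asIdeal - 1) {c ζ : 𝓞 F} (hc : c ∉ v.asIdeal)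
    {X : Ω} (hX : X ^ m = ak Ω c) (hs : s X = ak Ω ζ * X) : c ^ ((Ideal.absNorm v.asIdeal - 1) / m) - ζ ∈ v.asIdeal := by
  have hXV : V.valuation X = 1 := by
    refine l0_pow hm.ne' ?_
    rw [← map_pow, hX]
    exact hL.eq c hc
  have hX' : X ∈ V := (V.valuation_le_one_iff X).1 hXV.le
  have hN0 : Ideal.absNorm v.asIdeal ≠ 0 := by
    rw [Ne, Ideal.absNorm_eq_zero_iff]
    exact v.ne_bot
  obtain ⟨k, hk⟩ := hd
  have hk' : (Ideal.absNorm v.asIdeal - 1) / m = k := by rw [hk, Nat.mul_div_cancel_left _ hm]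
  rw [hk']
  have h1 := hL.frob X hX'
  have h2 : X ^ Ideal.absNorm v.asIdeal = X * ak Ω (c ^ k) := by
    have h3 : Ideal.absNorm v.asIdeal = 1 + m * k := by omega
    rw [h3, pow_add, pow_one, pow_mul, hX]
    unfold ak
    rw [← map_pow]
    simp
  have h3 : s X - X ^ Ideal.absNorm v.asIdeal = X * -(ak Ω (c ^ k - ζ)) := by
    rw [hs, h2]
    unfold ak
    simp
    ring
  rw [h3, map_mul, hXV, one_mul, Valuation.map_neg] at h1
  by_contra h4
  rw [hL.eq _ h4] at h1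
  exact lt_irrefl _ h1

end H55W
end

-- from Lib.H13D.A6
section

/-! # H13D, part A: good reduction (generic) -/

open NumberField IsDedekindDomain WeierstrassCurve

namespace H13D

open H55P (IQ embF eF LF Per IsHecke Pt ac Inert Dec Nm)
open H35P (WAB Ker tt GoodW IntW)
open H55K

variable {F : Type} [Field F] [NumberField F] [IQ F] {A B : F} {Om : ℂ} {Ω : Type} [Field Ω] [DecidableEq Ω]
  [Algebra F Ω] {j : Ω →+* ℂ} {act : 𝓞 F →+* AddMonoid.End (Pt (WAB A B) Ω)} {V : ValuationSubring Ω}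
  {Kg : AddSubgroup (Pt (WAB A B) Ω)} {u r : Ω}

theorem a6_ne {V : ValuationSubring Ω} {b : 𝓞 F} (hb : V.valuation (ak Ω b) = 1) : b ≠ 0 := by
  rintro rfl
  have h1 : ak Ω (0 : 𝓞 F) = 0 := by
    show algebraMap F Ω ((0 : 𝓞 F) : F) = 0
    simp
  rw [h1, map_zero] at hb
  exact zero_ne_one hb

/-- Chunk A6 (M). Port of H55K/G9A.lean (g9_surj). b ≠ 0 since V(b) = 1. If act b X = 0 take T = X. It is enough to find Z in Kg with act b Z = act b X (then T = X - Z). S the nonzero points killed by b, none in Kg (tor_unit'). Suppose X + R is not in Kg for R = 0 and all R in S. Y from exists_gen; e2n for X and Y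
(act b X ≠ 0, act b Y ≠ 0): V(b) = 1, V(xn (act b X) - xn (act b Y)) = V(xn (act b X)) > 1 (act b X in Kg, ≠ 0; act b Y not in Kg), V(xn R - xn Y) = 1 for R in S; the right side has value ≤ 1 (X, Y, X + R not in Kg): contradiction. So X + R is in Kg for R = 0 or some R in S: T = - R. -/
theorem tor_surj (h : CMA F A B Om j act) (hR : RM A B V Kg u r) {b : 𝓞 F} (hb : V.valuation (ak Ω b) = 1)
    {X : Pt (WAB A B) Ω} (hX : act b X ∈ Kg) : ∃ T, act b T = 0 ∧ X - T ∈ Kg := by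
  have hb0 : b ≠ 0 := a6_ne hb
  by_cases hK0 : act b X = 0
  · exact ⟨X, hK0, by rw [sub_self]; exact Kg.zero_mem⟩
  by_contra hcon
  push Not at hcon
  have hno : ∀ R, act b R = 0 → X + R ∉ Kg := by
    intro R hR' hk
    refine hcon (-R) (by rw [map_neg, hR', neg_zero]) ?_
    rwa [sub_neg_eq_add]
  obtain ⟨S, hS, -⟩ := exists_TN h hb0
  obtain ⟨Y, hYk, hYb, hYS, hg1, hg2⟩ := exists_gen h hR hb0 hS
  have hY0 : act b Y ≠ 0 := fun h0 => hYb (h0 ▸ Kg.zero_mem)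
  have hXk : X ∉ Kg := by
    have := hno 0 (map_zero (act b))
    rwa [add_zero] at this
  have he := e2n (u := u) (r := r) h hR.une hb0 hS hK0 hY0
  have hv := congrArg V.valuation he
  rw [map_mul, map_mul, map_mul, map_pow, hb, one_pow, one_mul, map_prod, map_prod] at hv
  have h1 : 1 < V.valuation (xn u r (act b X)) := hR.big _ hX hK0
  have h2 : V.valuation (xn u r (act b Y)) ≤ 1 := hR.int _ hYb
  have h3 : V.valuation (xn u r (act b X) - xn u r (act b Y)) = V.valuation (xn u r (act b X)) :=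
    Valuation.map_sub_eq_of_lt_left V.valuation (h2.trans_lt h1)
  have h4 : ∏ R ∈ S, V.valuation (xn u r R - xn u r Y) = 1 := by
    apply Finset.prod_eq_one
    intro R hRS
    have hR' := (hS R).1 hRS
    exact hg1 R hRS (fun hk => hR'.2 (tor_unit' h hR hb hR'.1 hk))
  rw [h3, h4, mul_one] at hv
  have hint : ∀ P : Pt (WAB A B) Ω, P ∉ Kg → V.valuation (xn u r P - xn u r Y) ≤ 1 := fun P hP =>
    (Valuation.map_sub _ _ _).trans (max_le (hR.int _ hP) (hR.int _ hYk))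
  have h5 : V.valuation (xn u r X - xn u r Y) * ∏ R ∈ S, V.valuation (xn u r (X + R) - xn u r Y) ≤ 1 := by
    refine mul_le_one' (hint X hXk) (Finset.prod_le_one' ?_)
    intro R hRS
    exact hint _ (hno R ((hS R).1 hRS).1)
  rw [← hv] at h5
  exact absurd h1 (not_lt.2 h5)

/-- Chunk A6 (M). Port of H55K/G9A.lean (cls_card): the map Tor act b → {classes c of X modulo Kg : act b X in Kg} is bijective (injective: tor_unit'; surjective: tor_surj), Nat.card (Tor act b) = Nm b (tor_card). -/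
theorem cls_card' (h : CMA F A B Om j act) (hR : RM A B V Kg u r) {b : 𝓞 F} (hb : V.valuation (ak Ω b) = 1) :
    Nat.card {c : Pt (WAB A B) Ω ⧸ Kg // ∃ X : Pt (WAB A B) Ω, (X : Pt (WAB A B) Ω ⧸ Kg) = c ∧ act b X ∈ Kg} = Nm b := by
  have hb0 : b ≠ 0 := a6_ne hb
  rw [← tor_card h hb0]
  symm
  have hk : ∀ T : Tor act b, act b (T : Pt (WAB A B) Ω) ∈ Kg := by
    intro T
    have h1 : act b (T : Pt (WAB A B) Ω) = 0 := T.2
    rw [h1]
    exact Kg.zero_mem
  apply Nat.card_eq_of_bijective (fun T : Tor act b =>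
    (⟨((T : Pt (WAB A B) Ω) : Pt (WAB A B) Ω ⧸ Kg), T, rfl, hk T⟩ :
      {c : Pt (WAB A B) Ω ⧸ Kg // ∃ X : Pt (WAB A B) Ω, (X : Pt (WAB A B) Ω ⧸ Kg) = c ∧
        act b X ∈ Kg}))
  constructor
  · intro T T' hTT
    have h1 := congrArg Subtype.val hTT
    simp only at h1
    rw [QuotientAddGroup.eq] at h1
    have h2 : (-T + T' : Tor act b) = 0 := by
      apply Subtype.ext
      exact tor_unit' h hR hb (-T + T' : Tor act b).2 h1
    exact neg_add_eq_zero.1 h2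
  · rintro ⟨c, X, rfl, hX⟩
    obtain ⟨T, hT, hXT⟩ := tor_surj h hR hb hX
    refine ⟨⟨T, hT⟩, ?_⟩
    apply Subtype.ext
    show (T : Pt (WAB A B) Ω ⧸ Kg) = X
    rw [QuotientAddGroup.eq, neg_add_eq_sub]
    exact hXT

end H13D
end

-- from Lib.H13D.B4
section

/-! # H13D, part B: points over the residue fields -/

open NumberField IsDedekindDomain WeierstrassCurve

namespace H13D

open H55P (IQ embF eF LF Per IsHecke Pt ac Inert Dec Nm)
open H35P (WAB Ker tt GoodW IntW)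
open H55K
open H55K.MG (VC Crd)

variable {F : Type} [Field F] [NumberField F] {Ω : Type} [Field Ω] [DecidableEq Ω] [Algebra F Ω] {V : ValuationSubring Ω}

omit [NumberField F] [DecidableEq Ω] in
theorem b4_h (W₀ : WeierstrassCurve (𝓞 F)) (a b : 𝓞 F) : ak Ω (g9E W₀ a b) =
    ak Ω b ^ 2 + ak Ω W₀.a₁ * ak Ω a * ak Ω b + ak Ω W₀.a₃ * ak Ω b -
      (ak Ω a ^ 3 + ak Ω W₀.a₂ * ak Ω a ^ 2 + ak Ω W₀.a₄ * ak Ω a + ak Ω W₀.a₆) := by
  unfold g9E
  simp only [← g9h_eq, map_sub, map_add, map_mul, map_pow]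

omit [NumberField F] [DecidableEq Ω] in
theorem b4_coef (W₀ : WeierstrassCurve (𝓞 F)) : ((W₀⁄F)⁄Ω).a₁ = ak Ω W₀.a₁ ∧ ((W₀⁄F)⁄Ω).a₂ = ak Ω W₀.a₂ ∧
    ((W₀⁄F)⁄Ω).a₃ = ak Ω W₀.a₃ ∧ ((W₀⁄F)⁄Ω).a₄ = ak Ω W₀.a₄ ∧ ((W₀⁄F)⁄Ω).a₆ = ak Ω W₀.a₆ := ⟨rfl, rfl, rfl, rfl, rfl⟩

omit [NumberField F] in
theorem b4_eq (W₀ : WeierstrassCurve (𝓞 F)) {X : Pt (W₀⁄F) Ω} (hX : X ≠ 0) :
    yc X ^ 2 + ak Ω W₀.a₁ * xc X * yc X + ak Ω W₀.a₃ * yc X -
      (xc X ^ 3 + ak Ω W₀.a₂ * xc X ^ 2 + ak Ω W₀.a₄ * xc X + ak Ω W₀.a₆) = 0 := by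
  rcases X with _ | ⟨x, y, hn⟩
  · exact absurd rfl hX
  · have h1 := (Affine.equation_iff _ _).1 hn.1
    obtain ⟨e1, e2, e3, e4, e6⟩ := b4_coef (Ω := Ω) W₀
    show y ^ 2 + ak Ω W₀.a₁ * x * y + ak Ω W₀.a₃ * y - (x ^ 3 + ak Ω W₀.a₂ * x ^ 2 + ak Ω W₀.a₄ * x + ak Ω W₀.a₆) = 0
    rw [← e1, ← e2, ← e3, ← e4, ← e6, sub_eq_zero]
    exact h1

/-- Chunk B4 (M). Port of H55K.g9_lift (G9B.lean), simpler: the curve is W₀ itself. g9E W₀ a b = b^2 + a₁ a b + a₃ b - (a^3 + a₂ a^2 + a₄ a + a₆). The monic quadratic polynomial Y^2 + (a₁ a + a₃) Y - (a^3 + ..) over Ω has roots y₁, y₂ (Ω algebraically closed): (b - y₁)(b - y₂) is the image of g9E W₀ a b, of value < 1, so one factor has value < 1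
(if both had value ≥ 1 so would the product): y with V(b - y) < 1. X = some a y: the equation holds and the curve is nonsingular (good_model: Δ ≠ 0; Affine.equation_iff_nonsingular_of_Δ_ne_zero). Not in Ker: V(ak a) ≤ 1 (ak_le). -/
theorem lift_pt [IsAlgClosed Ω] (W₀ : WeierstrassCurve (𝓞 F)) (hG : GoodW ((W₀⁄F)⁄Ω) V) (a b : 𝓞 F)
    (hE : V.valuation (ak Ω (g9E W₀ a b)) < 1) : ∃ X : Pt (W₀⁄F) Ω, ¬ Ker V X ∧ xc X = ak Ω a ∧
      V.valuation (yc X - ak Ω b) < 1 := by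
  obtain ⟨e1, e2, e3, e4, e6⟩ := b4_coef (Ω := Ω) W₀
  -- the polynomial
  set β : Ω := ak Ω W₀.a₁ * ak Ω a + ak Ω W₀.a₃ with hβ
  set γ : Ω := ak Ω a ^ 3 + ak Ω W₀.a₂ * ak Ω a ^ 2 + ak Ω W₀.a₄ * ak Ω a + ak Ω W₀.a₆ with hγ
  obtain ⟨y₁, hy₁⟩ : ∃ y : Ω, y ^ 2 + β * y - γ = 0 := by
    have hd : (Polynomial.X ^ 2 + Polynomial.C β * Polynomial.X + Polynomial.C (-γ) : Polynomial Ω).degree = 2 := by
      have := Polynomial.degree_quadratic (a := (1 : Ω)) (b := β) (c := -γ) one_ne_zero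
      rwa [Polynomial.C_1, one_mul] at this
    obtain ⟨y, hy⟩ := IsAlgClosed.exists_root (Polynomial.X ^ 2 + Polynomial.C β * Polynomial.X + Polynomial.C (-γ) : Polynomial Ω)
      (by rw [hd]; norm_num)
    refine ⟨y, ?_⟩
    rw [Polynomial.IsRoot.def] at hy
    simp only [Polynomial.eval_add, Polynomial.eval_pow, Polynomial.eval_X, Polynomial.eval_mul, Polynomial.eval_C] at hy
    rw [sub_eq_add_neg]
    exact hy
  have hΔ : ((W₀⁄F)⁄Ω).Δ ≠ 0 := by
    intro h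
    have h1 := hG.disc
    rw [h, map_zero] at h1
    exact zero_ne_one h1
  have hpt : ∀ y' : Ω, y' ^ 2 + β * y' - γ = 0 → V.valuation (y' - ak Ω b) < 1 → ∃ X : Pt (W₀⁄F) Ω, ¬ Ker V X ∧
      xc X = ak Ω a ∧ V.valuation (yc X - ak Ω b) < 1 := by
    intro y' hy' hv'
    have heq : ((W₀⁄F)⁄Ω).toAffine.Equation (ak Ω a) y' := by
      rw [Affine.equation_iff]
      show y' ^ 2 + ((W₀⁄F)⁄Ω).a₁ * ak Ω a * y' + ((W₀⁄F)⁄Ω).a₃ * y' = ak Ω a ^ 3 + ((W₀⁄F)⁄Ω).a₂ * ak Ω a ^ 2 +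
        ((W₀⁄F)⁄Ω).a₄ * ak Ω a + ((W₀⁄F)⁄Ω).a₆
      rw [e1, e2, e3, e4, e6, ← hγ]
      rw [hβ] at hy'
      linear_combination hy'
    have hns := (Affine.equation_iff_nonsingular_of_Δ_ne_zero (W := ((W₀⁄F)⁄Ω).toAffine) hΔ).1 heq
    exact ⟨.some _ _ hns, fun hk => absurd (show 1 < V.valuation (ak Ω a) from hk) (not_lt.2 (ak_le V a)), rfl, hv'⟩
  have hprod : V.valuation (ak Ω b - y₁) * V.valuation (ak Ω b + y₁ + β) < 1 := by
    rw [← map_mul]
    have : (ak Ω b - y₁) * (ak Ω b + y₁ + β) = ak Ω (g9E W₀ a b) := by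
      rw [b4_h, hβ]
      rw [hβ, hγ] at hy₁
      linear_combination -hy₁
    rw [this]
    exact hE
  by_cases h1 : V.valuation (ak Ω b - y₁) < 1
  · refine hpt y₁ hy₁ ?_
    rw [Valuation.map_sub_swap]
    exact h1
  · have h7 : V.valuation (ak Ω b + y₁ + β) < 1 := by
      by_contra h8
      push Not at h1 h8
      exact absurd hprod (not_lt.2 (one_le_mul h1 h8))
    refine hpt (-y₁ - β) (by linear_combination hy₁) ?_
    have : -y₁ - β - ak Ω b = -(ak Ω b + y₁ + β) := by ring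
    rw [this, Valuation.map_neg]
    exact h7

/-- Chunk B4 (S/M). s (xc X) is congruent to (xc X)^q (hs; xc X in V by MG.int_crd), congruent to (ak a)^q (difference of powers), congruent to ak a (H55K.g9_frob in G9B.lean), congruent to xc X; the same for yc. xc_ac, yc_ac; ac s X is not in Ker (V(s x) ≤ 1); MG.cong_ker (M3A.lean). -/
theorem fix_pt (W₀ : WeierstrassCurve (𝓞 F)) (hG : GoodW ((W₀⁄F)⁄Ω) V) (v : HeightOneSpectrum (𝓞 F))
    (hv : ∀ a : 𝓞 F, a ∈ v.asIdeal → V.valuation (ak Ω a) < 1) (s : Ω ≃ₐ[F] Ω) (hD : Dec V s)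
    (hs : ∀ x ∈ V, V.valuation (s x - x ^ Ideal.absNorm v.asIdeal) < 1) (a b : 𝓞 F) {X : Pt (W₀⁄F) Ω}
    (hX : ¬ Ker V X) (hx : V.valuation (xc X - ak Ω a) < 1) (hy : V.valuation (yc X - ak Ω b) < 1) :
    Ker V (ac (W₀⁄F) s X - X) := by
  obtain ⟨hX0, hxV, hyV⟩ := MG.int_crd hG hX
  have hxi := (V.valuation_le_one_iff _).2 hxV
  have hyi := (V.valuation_le_one_iff _).2 hyV
  have e1 : V.valuation (xc X ^ Ideal.absNorm v.asIdeal - xc X) < 1 := (g9_frob hv hxi).2 ⟨a, hx⟩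
  have e2 : V.valuation (yc X ^ Ideal.absNorm v.asIdeal - yc X) < 1 := (g9_frob hv hyi).2 ⟨b, hy⟩
  have e3 := g9_tri (hs _ hxV) e1
  have e4 := g9_tri (hs _ hyV) e2
  have hsX : ¬ Ker V (ac (W₀⁄F) s X) := by
    rw [MG.ker_crd (ac_ne (W₀⁄F) s hX0), xc_ac, not_lt]
    have : s (xc X) = (s (xc X) - xc X) + xc X := by ring
    rw [this]
    exact (Valuation.map_add _ _ _).trans (max_le e3.le hxi)
  apply MG.cong_ker hG hsX hX
  · rw [xc_ac]
    exact e3
  · rw [yc_ac]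
    exact e4

/-- Chunk B4 (S/M). conv_gen (P = X, Q = ac s X): xc (sX) = s (xc X) is congruent to xc X and to (xc X)^q (hs), so V((xc X)^q - xc X) < 1: g9_frob gives a with V(xc X - ak a) < 1; the same for yc and b. The image of g9E W₀ a b is congruent to the value 0 of the equation at (xc X, yc X): value < 1, so g9E W₀ a b is in v (H55K.g9_ker). -/
theorem conv_pt (W₀ : WeierstrassCurve (𝓞 F)) (hG : GoodW ((W₀⁄F)⁄Ω) V) (v : HeightOneSpectrum (𝓞 F))
    (hv : ∀ a : 𝓞 F, a ∈ v.asIdeal → V.valuation (ak Ω a) < 1) (s : Ω ≃ₐ[F] Ω)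
    (hs : ∀ x ∈ V, V.valuation (s x - x ^ Ideal.absNorm v.asIdeal) < 1) {X : Pt (W₀⁄F) Ω}
    (hX : ¬ Ker V X) (hk : Ker V (ac (W₀⁄F) s X - X)) : ∃ a b : 𝓞 F, g9E W₀ a b ∈ v.asIdeal ∧
      V.valuation (xc X - ak Ω a) < 1 ∧ V.valuation (yc X - ak Ω b) < 1 := by
  obtain ⟨hX0, hxV, hyV⟩ := MG.int_crd hG hX
  have hxi := (V.valuation_le_one_iff _).2 hxV
  have hyi := (V.valuation_le_one_iff _).2 hyV
  obtain ⟨-, hx1, hy1⟩ := conv_gen hG hX hk
  rw [xc_ac] at hx1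
  rw [yc_ac] at hy1
  have e1 : V.valuation (xc X ^ Ideal.absNorm v.asIdeal - xc X) < 1 := by
    refine g9_tri ?_ hx1
    rw [Valuation.map_sub_swap]
    exact hs _ hxV
  have e2 : V.valuation (yc X ^ Ideal.absNorm v.asIdeal - yc X) < 1 := by
    refine g9_tri ?_ hy1
    rw [Valuation.map_sub_swap]
    exact hs _ hyV
  obtain ⟨a, ha⟩ := (g9_frob hv hxi).1 e1
  obtain ⟨b, hb⟩ := (g9_frob hv hyi).1 e2
  refine ⟨a, b, ?_, ha, hb⟩
  rw [← g9_ker hv, b4_h]
  have heq := b4_eq W₀ hX0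
  set x := xc X
  set y := yc X
  have h7 : ak Ω b ^ 2 + ak Ω W₀.a₁ * ak Ω a * ak Ω b + ak Ω W₀.a₃ * ak Ω b -
      (ak Ω a ^ 3 + ak Ω W₀.a₂ * ak Ω a ^ 2 + ak Ω W₀.a₄ * ak Ω a + ak Ω W₀.a₆) =
      (y - ak Ω b) * (-(y + ak Ω b + ak Ω W₀.a₁ * ak Ω a + ak Ω W₀.a₃)) +
      (x - ak Ω a) * (-(ak Ω W₀.a₁ * y) + (x ^ 2 + x * ak Ω a + ak Ω a ^ 2 + ak Ω W₀.a₂ * (x + ak Ω a) + ak Ω W₀.a₄)) := by
    linear_combination heq
  rw [h7]
  have hm : ∀ {x y : Ω}, V.valuation x ≤ 1 → V.valuation y ≤ 1 → V.valuation (x * y) ≤ 1 := by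
    intro x y hx hy
    rw [map_mul]
    exact mul_le_one' hx hy
  have hp : ∀ {x y : Ω}, V.valuation x ≤ 1 → V.valuation y ≤ 1 → V.valuation (x + y) ≤ 1 :=
    fun hx hy => (Valuation.map_add _ _ _).trans (max_le hx hy)
  have k := ak_le (Ω := Ω) V (F := F)
  refine Valuation.map_add_lt _ (g9_mul hb ?_) (g9_mul ha ?_)
  · rw [Valuation.map_neg]
    exact hp (hp (hp hyi (k b)) (hm (k _) (k a))) (k _)
  · refine hp ?_ ?_
    · rw [Valuation.map_neg]
      exact hm (k _) hyi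
    · rw [sq, sq]
      exact hp (hp (hp (hp (hm hxi hxi) (hm hxi (k a))) (hm (k a) (k a))) (hm (k _) (hp hxi (k a)))) (k _)

end H13D
end

-- from Lib.H13D.B5
section

/-! # H13D, part B: points over the residue fields -/

open NumberField IsDedekindDomain WeierstrassCurve

namespace H13D

open H55P (IQ embF eF LF Per IsHecke Pt ac Inert Dec Nm)
open H35P (WAB Ker tt GoodW IntW)
open H55K
open H55K.MG (VC Crd)

variable {F : Type} [Field F] [NumberField F] {Ω : Type} [Field Ω] [DecidableEq Ω] [Algebra F Ω] {V : ValuationSubring Ω}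

/-- The class c is the class of the lifts of the point P. -/
def b5R (W₀ : WeierstrassCurve (𝓞 F)) (v : HeightOneSpectrum (𝓞 F)) (V : ValuationSubring Ω) (KE : AddSubgroup (Pt (W₀⁄F) Ω))
    (P : (W₀⁄(𝓞 F ⧸ v.asIdeal)).toAffine.Point) (c : Pt (W₀⁄F) Ω ⧸ KE) : Prop :=
  (P = 0 ∧ c = 0) ∨ ∃ (a b : 𝓞 F) (h : (W₀⁄(𝓞 F ⧸ v.asIdeal)).toAffine.Nonsingular (Ideal.Quotient.mk v.asIdeal a)
    (Ideal.Quotient.mk v.asIdeal b)) (X : Pt (W₀⁄F) Ω), P = .some _ _ h ∧ c = (X : Pt (W₀⁄F) Ω ⧸ KE) ∧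
      ¬ Ker V X ∧ V.valuation (xc X - ak Ω a) < 1 ∧ V.valuation (yc X - ak Ω b) < 1

omit [DecidableEq Ω] in
theorem b5_sub (v : HeightOneSpectrum (𝓞 F))
    (hv : ∀ a : 𝓞 F, a ∈ v.asIdeal → V.valuation (ak Ω a) < 1) (a a' : 𝓞 F) :
    V.valuation (ak Ω a - ak Ω a') < 1 ↔ Ideal.Quotient.mk v.asIdeal a = Ideal.Quotient.mk v.asIdeal a' := by
  have h1 : ak Ω a - ak Ω a' = ak Ω (a - a') := by
    rw [← g9h_eq (Ω := Ω) (a - a'), map_sub, g9h_eq, g9h_eq]
  rw [h1, g9_ker hv, ← Ideal.Quotient.eq]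

/-- Chunk B5 (M). Port of H55K.red_card (G9B.lean, the relation g9R), simpler: the points (ā, b̄) of W₀ over k = 𝓞 F ⧸ v correspond to the classes modulo KE of the points X with sX - X in KE. Relation R(P, c): P = 0 and c = 0, or P = some (class of a) (class of b), c = class of X, X not in Ker, V(xc X - ak a) < 1, V(yc X - ak b) < 1.
Every P has a c (lift_pt; g9_nons: the equation modulo v is g9E in v), c is a fixed class (fix_pt), unique (MG.cong_ker: two lifts X, X' have congruent coordinates); every fixed class c has a P (conv_pt; X in Ker: c = 0), unique (conv_gen: X, X' in the same class have congruent coordinates, so a - a' is in v: H55K.g9_ker).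
So there is a bijection: Nat.card_congr (Equiv.ofBijective). -/
theorem red_card' [IsAlgClosed Ω] (W₀ : WeierstrassCurve (𝓞 F)) (v : HeightOneSpectrum (𝓞 F)) (hΔ : W₀.Δ ∉ v.asIdeal)
    (hv : ∀ a : 𝓞 F, a ∈ v.asIdeal → V.valuation (ak Ω a) < 1) (s : Ω ≃ₐ[F] Ω) (hD : Dec V s)
    (hs : ∀ x ∈ V, V.valuation (s x - x ^ Ideal.absNorm v.asIdeal) < 1) {KE : AddSubgroup (Pt (W₀⁄F) Ω)}
    (hKE : ∀ P, P ∈ KE ↔ Ker V P) :
    Nat.card (W₀⁄(𝓞 F ⧸ v.asIdeal)).toAffine.Point =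
      Nat.card {c : Pt (W₀⁄F) Ω ⧸ KE // ∃ X : Pt (W₀⁄F) Ω, (X : Pt (W₀⁄F) Ω ⧸ KE) = c ∧ ac (W₀⁄F) s X - X ∈ KE} := by
  have hG : GoodW ((W₀⁄F)⁄Ω) V := good_model W₀ hΔ hv
  -- every point has a class
  have htot : ∀ P : (W₀⁄(𝓞 F ⧸ v.asIdeal)).toAffine.Point, ∃ c : {c : Pt (W₀⁄F) Ω ⧸ KE //
      ∃ X : Pt (W₀⁄F) Ω, (X : Pt (W₀⁄F) Ω ⧸ KE) = c ∧ ac (W₀⁄F) s X - X ∈ KE},
      b5R W₀ v V KE P c.1 := by
    intro P
    rcases P with _ | ⟨x, y, h⟩
    · refine ⟨⟨0, 0, rfl, ?_⟩, Or.inl ⟨rfl, rfl⟩⟩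
      rw [map_zero, sub_zero]
      exact KE.zero_mem
    · obtain ⟨a, rfl⟩ := Ideal.Quotient.mk_surjective x
      obtain ⟨b, rfl⟩ := Ideal.Quotient.mk_surjective y
      obtain ⟨X, hX, hXx, hXy⟩ := lift_pt W₀ hG a b (hv _ ((g9_nons W₀ v hΔ a b).1 h))
      have hXx' : V.valuation (xc X - ak Ω a) < 1 := by
        rw [hXx, sub_self, map_zero]
        exact zero_lt_one
      exact ⟨⟨(X : Pt (W₀⁄F) Ω ⧸ KE), X, rfl, (hKE _).2 (fix_pt W₀ hG v hv s hD hs a b hX hXx' hXy)⟩,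
        Or.inr ⟨a, b, h, X, rfl, rfl, hX, hXx', hXy⟩⟩
  choose f hf using htot
  apply Nat.card_eq_of_bijective f
  have hno : ∀ X : Pt (W₀⁄F) Ω, ¬ Ker V X → (X : Pt (W₀⁄F) Ω ⧸ KE) ≠ 0 := by
    intro X hX h
    exact hX ((hKE X).1 ((QuotientAddGroup.eq_zero_iff X).1 h))
  constructor
  · intro P P' hPP
    have h1 := hf P
    have h2 := hf P'
    rw [← hPP] at h2
    rcases h1 with ⟨h1, h1'⟩ | ⟨a, b, h, X, hP, hc, hX, hx, hy⟩
    · rcases h2 with ⟨h2, h2'⟩ | ⟨a', b', h', X', hP', hc', hX', hx', hy'⟩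
      · rw [h1, h2]
      · exact (hno X' hX' (hc'.symm.trans h1')).elim
    · rcases h2 with ⟨h2, h2'⟩ | ⟨a', b', h', X', hP', hc', hX', hx', hy'⟩
      · exact (hno X hX (hc.symm.trans h2')).elim
      · have h3 : Ker V (X' - X) := by
          have h4 := hc.symm.trans hc'
          rw [QuotientAddGroup.eq, neg_add_eq_sub] at h4
          exact (hKE _).1 h4
        obtain ⟨-, h5, h6⟩ := conv_gen hG hX h3
        rw [Valuation.map_sub_swap] at h5 h6 hx hy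
        have h7 : V.valuation (ak Ω a - ak Ω a') < 1 := g9_tri (g9_tri hx h5) hx'
        have h8 : V.valuation (ak Ω b - ak Ω b') < 1 := g9_tri (g9_tri hy h6) hy'
        rw [hP, hP', Affine.Point.some.injEq]
        exact ⟨(b5_sub v hv a a').1 h7, (b5_sub v hv b b').1 h8⟩
  · rintro ⟨c, X, rfl, hX⟩
    by_cases hXk : Ker V X
    · refine ⟨0, ?_⟩
      apply Subtype.ext
      have h1 : (X : Pt (W₀⁄F) Ω ⧸ KE) = 0 := (QuotientAddGroup.eq_zero_iff X).2 ((hKE X).2 hXk)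
      show (f 0).1 = (X : Pt (W₀⁄F) Ω ⧸ KE)
      rw [h1]
      rcases hf 0 with ⟨-, h2⟩ | ⟨a, b, h, X, hP, -⟩
      · exact h2
      · exact absurd hP.symm (Affine.Point.some_ne_zero _)
    · obtain ⟨a, b, hE, hx, hy⟩ := conv_pt W₀ hG v hv s hs hXk ((hKE _).1 hX)
      refine ⟨.some _ _ ((g9_nons W₀ v hΔ a b).2 hE), ?_⟩
      apply Subtype.ext
      show (f _).1 = _
      rcases hf (.some _ _ ((g9_nons W₀ v hΔ a b).2 hE)) with ⟨h2, -⟩ | ⟨a', b', h', X', hP', hc', hX', hx', hy'⟩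
      · exact absurd h2 (Affine.Point.some_ne_zero _)
      · rw [hc', QuotientAddGroup.eq, neg_add_eq_sub]
        rw [Affine.Point.some.injEq] at hP'
        rw [Valuation.map_sub_swap] at hx' hy'
        exact (hKE _).2 (MG.cong_ker hG hXk hX' (g9_tri (g9_tri hx ((b5_sub v hv a a').2 hP'.1)) hx')
          (g9_tri (g9_tri hy ((b5_sub v hv b b').2 hP'.2)) hy'))

/-- Chunk B5 (S). Transport along Θ: QuotientAddGroup.congr Kg KE Θ (Θ maps Kg onto KE: hK, hKE), the condition corresponds by hΘ; Nat.card_congr. -/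
theorem card_transport {A B : F} (W₀ : WeierstrassCurve (𝓞 F)) (s : Ω ≃ₐ[F] Ω) {KE : AddSubgroup (Pt (W₀⁄F) Ω)}
    (hKE : ∀ P, P ∈ KE ↔ Ker V P) {Kg : AddSubgroup (Pt (WAB A B) Ω)} (Θ : Pt (WAB A B) Ω ≃+ Pt (W₀⁄F) Ω)
    (hK : ∀ P, P ∈ Kg ↔ Ker V (Θ P)) (hΘ : ∀ P, Θ (ac (WAB A B) s P) = ac (W₀⁄F) s (Θ P)) :
    Nat.card {c : Pt (W₀⁄F) Ω ⧸ KE // ∃ X : Pt (W₀⁄F) Ω, (X : Pt (W₀⁄F) Ω ⧸ KE) = c ∧ ac (W₀⁄F) s X - X ∈ KE} =
      Nat.card {c : Pt (WAB A B) Ω ⧸ Kg // ∃ X : Pt (WAB A B) Ω, (X : Pt (WAB A B) Ω ⧸ Kg) = c ∧ ac (WAB A B) s X - X ∈ Kg} := by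
  have hmap : Kg.map (Θ : Pt (WAB A B) Ω →+ Pt (W₀⁄F) Ω) = KE := by
    ext P
    constructor
    · rintro ⟨Q, hQ, rfl⟩
      exact (hKE _).2 ((hK Q).1 hQ)
    · intro hP
      refine ⟨Θ.symm P, (hK _).2 ?_, ?_⟩
      · rw [Θ.apply_symm_apply]
        exact (hKE _).1 hP
      · exact Θ.apply_symm_apply P
  symm
  refine Nat.card_congr (Equiv.subtypeEquiv (QuotientAddGroup.congr Kg KE Θ hmap).toEquiv ?_)
  intro c
  constructor
  · rintro ⟨X, rfl, hX⟩
    refine ⟨Θ X, rfl, ?_⟩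
    rw [← hΘ, ← map_sub]
    exact (hKE _).2 ((hK _).1 hX)
  · rintro ⟨Y, hY, hYK⟩
    refine ⟨Θ.symm Y, ?_, ?_⟩
    · apply (QuotientAddGroup.congr Kg KE Θ hmap).injective
      change _ = (QuotientAddGroup.congr Kg KE Θ hmap) c at hY
      rw [← hY]
      show ((Θ (Θ.symm Y) : Pt (W₀⁄F) Ω) : Pt (W₀⁄F) Ω ⧸ KE) = _
      rw [Θ.apply_symm_apply]
    · rw [hK, map_sub, hΘ, Θ.apply_symm_apply]
      exact (hKE _).1 hYK

end H13D
end

-- from Lib.H13D.C4
section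

/-! # H13D, part C: the number of points -/

open NumberField IsDedekindDomain WeierstrassCurve

namespace H13D

open H55P (IQ embF eF LF Per IsHecke Pt ac Inert Dec Nm)
open H35P (WAB Ker tt GoodW IntW)
open H55K
open H55K.MG (VC Crd)

variable {F : Type} [Field F] [NumberField F] [IQ F] {A B : F} {Om : ℂ} {Ω : Type} [Field Ω] [DecidableEq Ω]
  [Algebra F Ω] {j : Ω →+* ℂ} {act : 𝓞 F →+* AddMonoid.End (Pt (WAB A B) Ω)} {V : ValuationSubring Ω}

/-- Chunk C4 (S/M). The good model at V. Θ from exists_model, good_model, KE from MG.kg_ex (M3B.lean) for the identity, Kg from MG.kg_ex for Θ; rm_of with u = 1; red_card' and card_transport for the last statement. -/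
theorem exists_rm [IsAlgClosed Ω] (W₀ : WeierstrassCurve (𝓞 F)) (hA : A = -(algebraMap (𝓞 F) F W₀.c₄) / 48)
    (hB : B = -(algebraMap (𝓞 F) F W₀.c₆) / 864) (v : HeightOneSpectrum (𝓞 F)) (hΔ : W₀.Δ ∉ v.asIdeal)
    (hv : ∀ a : 𝓞 F, a ∈ v.asIdeal → V.valuation (ak Ω a) < 1) :
    ∃ (Kg : AddSubgroup (Pt (WAB A B) Ω)) (Θ : Pt (WAB A B) Ω ≃+ Pt (W₀⁄F) Ω), (∀ P, P ∈ Kg ↔ Ker V (Θ P)) ∧
      GoodW ((W₀⁄F)⁄Ω) V ∧
      Crd 1 (algebraMap F Ω (algebraMap (𝓞 F) F W₀.b₂ / 12)) (algebraMap F Ω (algebraMap (𝓞 F) F W₀.a₁ / 2))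
        (algebraMap F Ω (algebraMap (𝓞 F) F W₀.a₃ / 2)) Θ ∧
      RM A B V Kg 1 (algebraMap F Ω (algebraMap (𝓞 F) F W₀.b₂ / 12)) ∧
      ∀ s : Ω ≃ₐ[F] Ω, Dec V s → (∀ x ∈ V, V.valuation (s x - x ^ Ideal.absNorm v.asIdeal) < 1) →
        Nat.card (W₀⁄(𝓞 F ⧸ v.asIdeal)).toAffine.Point =
          Nat.card {c : Pt (WAB A B) Ω ⧸ Kg // ∃ X : Pt (WAB A B) Ω, (X : Pt (WAB A B) Ω ⧸ Kg) = c ∧ ac (WAB A B) s X - X ∈ Kg} := by
  have hΔ0 : W₀.Δ ≠ 0 := by
    intro h0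
    rw [h0] at hΔ
    exact hΔ v.asIdeal.zero_mem
  obtain ⟨Θ, hC, hΘ⟩ := exists_model (Ω := Ω) W₀ hA hB hΔ0
  have hG : GoodW ((W₀⁄F)⁄Ω) V := good_model W₀ hΔ hv
  obtain ⟨KE, hKE⟩ := MG.kg_ex hG (AddEquiv.refl (Pt (W₀⁄F) Ω))
  obtain ⟨Kg, hKg⟩ := MG.kg_ex hG Θ
  refine ⟨Kg, Θ, hKg, hG, hC, rm_of hG one_ne_zero hC hKg, fun s hD hs => ?_⟩
  rw [red_card' W₀ v hΔ hv s hD hs hKE, card_transport W₀ s hKE Θ hKg (hΘ s)]

/-- Chunk C4 (S/M). cls_card' for b = γ - 1: V(γ - 1) = 1 because V(γ) < 1; act (γ - 1) X = (act γ X - ac s X) + (ac s X - X), so act (γ - 1) X in Kg iff ac s X - X in Kg; Nm (γ - 1) = Nm (1 - γ) (Nm (-x) = Nm x: Ideal.span_singleton_neg). See the end of the proof of H55K.dta_frob (G10C.lean). -/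
theorem card_gamma (h : CMA F A B Om j act) {Kg : AddSubgroup (Pt (WAB A B) Ω)} {u r : Ω} (hR : RM A B V Kg u r) (s : Ω ≃ₐ[F] Ω)
    {γ : 𝓞 F} (hγ : V.valuation (ak Ω γ) < 1) (hK : ∀ X : Pt (WAB A B) Ω, act γ X - ac (WAB A B) s X ∈ Kg) :
    Nat.card {c : Pt (WAB A B) Ω ⧸ Kg // ∃ X : Pt (WAB A B) Ω, (X : Pt (WAB A B) Ω ⧸ Kg) = c ∧ ac (WAB A B) s X - X ∈ Kg} =
      Nm (1 - γ) := by
  have hγ1 : V.valuation (ak Ω (γ - 1)) = 1 := by
    have e : ak Ω (γ - 1) = -(1 - ak Ω γ) := by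
      have e1 : ((γ - 1 : 𝓞 F) : F) = (γ : F) - 1 := by
        have := map_sub (algebraMap (𝓞 F) F) γ 1
        rw [map_one] at this
        exact this
      unfold ak
      rw [e1, map_sub, map_one]
      ring
    rw [e, Valuation.map_neg]
    have h1 := V.valuation.map_sub_eq_of_lt_right (x := ak Ω γ) (y := (1 : Ω)) (by rw [map_one]; exact hγ)
    rw [← h1.trans (map_one _)]
    exact Valuation.map_sub_swap _ _ _
  have hc2 := cls_card' h hR hγ1
  have hiff : ∀ X : Pt (WAB A B) Ω, ac (WAB A B) s X - X ∈ Kg ↔ act (γ - 1) X ∈ Kg := by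
    intro X
    have e : act (γ - 1) X = act γ X - X := by
      rw [map_sub, map_one]
      rfl
    rw [e]
    constructor
    · intro h1
      have e2 : act γ X - X = (act γ X - ac (WAB A B) s X) + (ac (WAB A B) s X - X) := by abel
      rw [e2]
      exact Kg.add_mem (hK X) h1
    · intro h1
      have e2 : ac (WAB A B) s X - X = (act γ X - X) - (act γ X - ac (WAB A B) s X) := by abel
      rw [e2]
      exact Kg.sub_mem h1 (hK X)
  simp only [hiff]
  rw [hc2]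
  unfold Nm
  rw [← Ideal.span_singleton_neg, neg_sub]

end H13D
end

-- from Lib.H28I.E0
section

/-! # H28I, part E: the good model of an equation over the integers -/

open NumberField IsDedekindDomain WeierstrassCurve

namespace H28I

open H55P (IQ embF eF LF Per IsHecke Pt ac Inert Dec Nm)
open H35P (WAB Ker tt GoodW IntW)
open H55K (xc yc)
open H13D
open H55K (CMA ak)

/-- Chunk E0 (S/M). H13D.exists_rm (C4.lean) for W₀ = W⁄(𝓞 F): the coefficients of W₀ are the images of the integers W.c₄, W.c₆, W.b₂ (map_c₄, map_c₆, map_b₂), so A = sA W F, B = sB W F and r = W.b₂/12 in Ω. -/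
theorem exists_rmZ {F : Type} [Field F] [NumberField F] [IQ F] {Ω : Type} [Field Ω] [DecidableEq Ω] [Algebra F Ω] [IsAlgClosed Ω]
    {V : ValuationSubring Ω} (W : WeierstrassCurve ℤ) (v : HeightOneSpectrum (𝓞 F)) (hΔ : (W⁄(𝓞 F)).Δ ∉ v.asIdeal)
    (hv : ∀ a : 𝓞 F, a ∈ v.asIdeal → V.valuation (ak Ω a) < 1) :
    ∃ Kg : AddSubgroup (Pt (WAB (sA W F) (sB W F)) Ω), RM (sA W F) (sB W F) V Kg 1 ((W.b₂ : Ω) / 12) ∧
      ∀ s : Ω ≃ₐ[F] Ω, Dec V s → (∀ x ∈ V, V.valuation (s x - x ^ Ideal.absNorm v.asIdeal) < 1) →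
        Nat.card ((W⁄(𝓞 F))⁄(𝓞 F ⧸ v.asIdeal)).toAffine.Point =
          Nat.card {c : Pt (WAB (sA W F) (sB W F)) Ω ⧸ Kg // ∃ X : Pt (WAB (sA W F) (sB W F)) Ω,
            (X : Pt (WAB (sA W F) (sB W F)) Ω ⧸ Kg) = c ∧ ac (WAB (sA W F) (sB W F)) s X - X ∈ Kg} := by
  have hA : sA W F = -(algebraMap (𝓞 F) F (W⁄(𝓞 F)).c₄) / 48 := by
    have h1 : (W⁄(𝓞 F)).c₄ = algebraMap ℤ (𝓞 F) W.c₄ := WeierstrassCurve.map_c₄ W _
    rw [h1, sA]
    simp
  have hB : sB W F = -(algebraMap (𝓞 F) F (W⁄(𝓞 F)).c₆) / 864 := by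
    have h1 : (W⁄(𝓞 F)).c₆ = algebraMap ℤ (𝓞 F) W.c₆ := WeierstrassCurve.map_c₆ W _
    rw [h1, sB]
    simp
  have hr : algebraMap F Ω (algebraMap (𝓞 F) F (W⁄(𝓞 F)).b₂ / 12) = (W.b₂ : Ω) / 12 := by
    have h1 : (W⁄(𝓞 F)).b₂ = algebraMap ℤ (𝓞 F) W.b₂ := WeierstrassCurve.map_b₂ W _
    have h2 : algebraMap F Ω 12 = 12 := map_ofNat _ 12
    rw [h1, map_div₀, h2]
    simp
  obtain ⟨Kg, Θ, _, _, _, hRM, hcard⟩ := exists_rm (Ω := Ω) (V := V) (W⁄(𝓞 F)) hA hB v hΔ hv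
  rw [hr] at hRM
  exact ⟨Kg, hRM, hcard⟩

end H28I
end

-- from Lib.H28I.E3
section

/-! # H28I, part E: finitely many classes are killed by b -/

open NumberField IsDedekindDomain WeierstrassCurve

namespace H28I

open H55P (IQ embF eF LF Per IsHecke Pt ac Inert Dec Nm)
open H35P (WAB Ker tt GoodW IntW)
open H55K (xc yc)
open H13D
open H55K (CMA ak)

variable {F : Type} [Field F] [NumberField F] [IQ F] {A B : F} {Om : ℂ} {Ω : Type} [Field Ω] [DecidableEq Ω]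
  [Algebra F Ω] {j : Ω →+* ℂ} {act : 𝓞 F →+* AddMonoid.End (Pt (WAB A B) Ω)} {V : ValuationSubring Ω}
  {Kg : AddSubgroup (Pt (WAB A B) Ω)} {u r : Ω}

/-- Chunk E3 (M). 𝓞 F is a principal ideal domain (IQ F; see t11a_prime in H55K/T11A.lean): UniqueFactorizationMonoid.induction_on_prime. Unit b: act b X in Kg implies X = act b⁻¹ (act b X) in Kg (act_mem): only the class 0. b = β b', β prime, β b' ≠ 0: if V(β) < 1 then act β (act b' X) in Kg implies act b' X in Kg (ker_red' in A5.lean),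
so the set for b is the set for b'. If V(β) = 1 (V(β) ≤ 1: H55K.ak_le): the class map X ↦ act b' X (act b' maps Kg to Kg: act_mem) sends the set for b to the set for β, which is finite (cls_card' in A6.lean: Nm β ≠ 0 elements; Nat.finite_of_card_ne_zero), and two classes with the same image differ by an element of the set for b':
finite fibres (Set.Finite.preimage' or Set.Finite.of_finite_fibers). -/
theorem fin_tor (h : CMA F A B Om j act) (hR : RM A B V Kg u r) {b : 𝓞 F} (hb : b ≠ 0) :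
    {c : Pt (WAB A B) Ω ⧸ Kg | ∃ X : Pt (WAB A B) Ω, (X : Pt (WAB A B) Ω ⧸ Kg) = c ∧ act b X ∈ Kg}.Finite := by
  have hmul : ∀ (a b : 𝓞 F) (Q : Pt (WAB A B) Ω), act (a * b) Q = act a (act b Q) := by
    intro a b Q
    rw [map_mul]
    rfl
  induction b using UniqueFactorizationMonoid.induction_on_prime with
  | h₁ => exact absurd rfl hb
  | h₂ b hu =>
    obtain ⟨y, hy⟩ := hu.exists_left_inv
    refine (Set.finite_singleton (0 : Pt (WAB A B) Ω ⧸ Kg)).subset ?_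
    rintro c ⟨X, rfl, hX⟩
    have h1 := act_mem h hR y hX
    rw [← hmul, hy, map_one] at h1
    have h2 : X ∈ Kg := h1
    exact (QuotientAddGroup.eq_zero_iff X).2 h2
  | h₃ b' β hb' hβ ih =>
    have ih' := ih hb'
    rcases (H55K.ak_le V β).lt_or_eq with hv | hv
    · refine ih'.subset ?_
      rintro c ⟨X, rfl, hX⟩
      rw [hmul] at hX
      exact ⟨X, rfl, ker_red' h hR hβ hv hX⟩
    · have hfin : {c : Pt (WAB A B) Ω ⧸ Kg | ∃ X : Pt (WAB A B) Ω, (X : Pt (WAB A B) Ω ⧸ Kg) = c ∧ act β X ∈ Kg}.Finite := by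
        have h1 := cls_card' h hR hv
        have h2 : Nm β ≠ 0 := fun h3 => hβ.ne_zero (H55P.Nm_eq_zero.1 h3)
        exact Set.finite_coe_iff.1 (Nat.finite_of_card_ne_zero (by rw [← h1] at h2; exact h2))
      set g : Pt (WAB A B) Ω ⧸ Kg →+ Pt (WAB A B) Ω ⧸ Kg :=
        QuotientAddGroup.map Kg Kg (act b') (fun X hX => act_mem h hR b' hX) with hg
      have eg : ∀ X : Pt (WAB A B) Ω, g (X : Pt (WAB A B) Ω ⧸ Kg) = ((act b' X : Pt (WAB A B) Ω) : Pt (WAB A B) Ω ⧸ Kg) :=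
        fun X => rfl
      refine (Set.Finite.preimage' (f := g) hfin ?_).subset ?_
      · intro d _
        by_cases hne : (g ⁻¹' {d}).Nonempty
        · obtain ⟨c0, hc0⟩ := hne
          have hc0' : g c0 = d := hc0
          refine (ih'.image (fun c => c + c0)).subset ?_
          intro c hc
          have hc' : g c = d := hc
          obtain ⟨X, hX⟩ := QuotientAddGroup.mk_surjective (c - c0)
          refine ⟨c - c0, ⟨X, hX, ?_⟩, sub_add_cancel c c0⟩
          have h3 : g (c - c0) = 0 := by rw [map_sub, hc', hc0', sub_self]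
          rw [← hX, eg] at h3
          exact (QuotientAddGroup.eq_zero_iff _).1 h3
        · rw [Set.not_nonempty_iff_eq_empty.1 hne]
          exact Set.finite_empty
      · rintro c ⟨X, rfl, hX⟩
        rw [hmul] at hX
        exact ⟨act b' X, rfl, hX⟩

/-- Chunk E3 (S). fin_tor for b = n: act (n : 𝓞 F) X = n • X (H55K.cu_nat). -/
theorem fin_nsmul (h : CMA F A B Om j act) (hR : RM A B V Kg u r) {n : ℕ} (hn : 0 < n) :
    {c : Pt (WAB A B) Ω ⧸ Kg | n • c = 0}.Finite := by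
  have hn0 : (n : 𝓞 F) ≠ 0 := by exact_mod_cast hn.ne'
  refine (fin_tor h hR hn0).subset ?_
  intro c hc
  obtain ⟨X, rfl⟩ := QuotientAddGroup.mk_surjective c
  refine ⟨X, rfl, ?_⟩
  have h1 : n • (X : Pt (WAB A B) Ω ⧸ Kg) = 0 := hc
  rw [← QuotientAddGroup.mk_nsmul] at h1
  have h2 : act (n : 𝓞 F) X = n • X := by rw [map_natCast]; rfl
  rw [h2]
  exact (QuotientAddGroup.eq_zero_iff _).1 h1

/-- Chunk E3 (S). h.surj for b = n. -/
theorem nsmul_surj (h : CMA F A B Om j act) {n : ℕ} (hn : 0 < n) (X : Pt (WAB A B) Ω) : ∃ Y, n • Y = X := by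
  have hn0 : (n : 𝓞 F) ≠ 0 := by exact_mod_cast hn.ne'
  obtain ⟨Y, hY⟩ := h.surj (n : 𝓞 F) hn0 X
  refine ⟨Y, ?_⟩
  rw [map_natCast] at hY
  exact hY

end H28I
end
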