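import Mathlib
import Pool.Agent.Lib.H1M.PP2.D_H28T_CD
import Pool.Agent.Lib.H1M.PP2.D_H55G_D0
import Pool.Agent.Lib.H1M.PP2.D_H55K_BH
import Pool.Agent.Lib.H1M.PP2.M019
import Pool.Agent.Lib.H1M.PP2.M030
import Pool.Agent.Lib.H1M.PP2.M051
import Pool.Agent.Lib.H1M.PP2.M054
import Pool.Agent.Lib.H1M.PP2.M060
import Pool.Agent.Lib.H1M.PP2.M063
import Pool.Agent.Lib.H1M.PP2.M073
import Pool.Agent.Lib.H1M.PP2.M074
import Pool.Agent.Lib.H1M.PP2.M080
import Pool.Agent.Lib.H1M.PP2.M082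
import Pool.Agent.Lib.H1M.PP2.M092
import Pool.Agent.Lib.H1M.PP2.M094
import Pool.Agent.Lib.H1M.PP2.M095
import Pool.Agent.Lib.H1M.PP2.M097
import Pool.Agent.Lib.H1M.PP2.M098
import Pool.Agent.Lib.H1M.PP2.M101

/-! Merged copies (to shorten the build) of Lib.H28T.CC2, Lib.H55K.Y2, Lib.H55K.FC2, Lib.H55K.UA1, Lib.H55G.D2, Lib.H55G.D3A, Lib.H55K.SQI, Lib.H55K.SQR, Lib.H55K.SLD, Lib.H55K.SNA. -/

-- from Lib.H28T.CC2
section

open NumberField IsDedekindDomain WeierstrassCurve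

namespace H28T

open H55P H55R
open H55K H55K.TQ

variable {F : Type} [Field F] [NumberField F] [IQ F] {W₀ : WeierstrassCurve (𝓞 F)} {Om : ℂ}
    {m : Ideal (𝓞 F)} {ψ : Ideal (𝓞 F) →*₀ 𝓞 F} {p : ℕ}

/-- Chunk CC2 (S/M). v contains l, so v.asIdeal = span {l} (span {l} is maximal: prime and not zero). Δ is not in v: otherwise m ≤ v (hH.supp), absNorm m in v (Ideal.absNorm_mem), l + 1 in v, so 1 in v. p is not in v: otherwise l - 1 is in v (p ∣ l - 1; in 𝓞 F: (l : 𝓞 F) - 1), so 1 in v. The number of points is Nm (1 - ψ v) (hH.deu), ψ v = -l (cc2a_psi),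
Nm (1 + l) = (l + 1)^2 (H55K.Nm_nat). p divides l - 1, so not l + 1 (p ≥ 5: otherwise p ∣ 2). -/
theorem cc2_good (hH : BaseH F W₀ Om m ψ) (hp : PrimeH F W₀ p) {l : ℕ} (hl : l.Prime) (hp1 : p ∣ l - 1)
    (hm : Ideal.absNorm m ∣ l + 1) (hin : Prime ((l : ℕ) : 𝓞 F)) : GoodL (Gd W₀ p) l := by
  intro v hv
  have h1v : (1 : 𝓞 F) ∉ v.asIdeal := fun h => v.isPrime.ne_top ((Ideal.eq_top_iff_one _).2 h)
  have hspan : Ideal.span {((l : ℕ) : 𝓞 F)} = v.asIdeal := by
    have hpr : (Ideal.span {((l : ℕ) : 𝓞 F)}).IsPrime :=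
      (Ideal.span_singleton_prime hin.ne_zero).2 hin
    have hmax : (Ideal.span {((l : ℕ) : 𝓞 F)}).IsMaximal :=
      hpr.isMaximal (fun h => hin.ne_zero (Ideal.span_singleton_eq_bot.1 h))
    exact hmax.eq_of_le v.isPrime.ne_top ((Ideal.span_singleton_le_iff_mem _).2 hv)
  have hΔ : W₀.Δ ∉ v.asIdeal := by
    intro h
    have h2 : m ≤ v.asIdeal := (hH.supp v).1 h
    obtain ⟨k, hk⟩ := hm
    have h3 : ((l + 1 : ℕ) : 𝓞 F) ∈ v.asIdeal := by
      rw [hk, Nat.cast_mul]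
      exact v.asIdeal.mul_mem_right _ (h2 (Ideal.absNorm_mem m))
    rw [Nat.cast_add, Nat.cast_one] at h3
    apply h1v
    have e : (1 : 𝓞 F) = ((l : 𝓞 F) + 1) - (l : 𝓞 F) := by ring
    rw [e]
    exact v.asIdeal.sub_mem h3 hv
  refine ⟨hΔ, ?_, ?_⟩
  · intro h
    obtain ⟨k, hk⟩ := hp1
    have h3 : ((l - 1 : ℕ) : 𝓞 F) ∈ v.asIdeal := by
      rw [hk, Nat.cast_mul]
      exact v.asIdeal.mul_mem_right _ h
    rw [Nat.cast_sub hl.one_lt.le, Nat.cast_one] at h3
    apply h1v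
    have e : (1 : 𝓞 F) = (l : 𝓞 F) - ((l : 𝓞 F) - 1) := by ring
    rw [e]
    exact v.asIdeal.sub_mem hv h3
  · rw [hH.deu v hΔ, ← hspan, cc2a_psi hH.data.hecke hm]
    have e : (1 : 𝓞 F) - -(l : 𝓞 F) = ((l + 1 : ℕ) : 𝓞 F) := by push_cast; ring
    rw [e, Nm_nat]
    intro h
    have h2 : p ∣ l + 1 := hp.prime.dvd_of_dvd_pow h
    have h3 : p ∣ (l + 1) - (l - 1) := Nat.dvd_sub h2 hp1
    have h4 : (l + 1) - (l - 1) = 2 := by
      have := hl.one_lt
      omega
    rw [h4] at h3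
    have h5 := Nat.le_of_dvd (by norm_num) h3
    have h6 := hp.five
    omega

end H28T
end

-- from Lib.H55K.Y2
section

/-! # H55K: the L-series over F and over the bottom field -/

open NumberField IsDedekindDomain WeierstrassCurve

namespace H55K

open H55P (IQ embF eF LF Per IsHecke Pt ac Inert Dec Nm)
open H35P (WAB Ker tt)


variable {F : Type} [Field F] [NumberField F] [IQ F]

/-- Chunk Y2 (S/M). H55P.pz13_equiv (Z13.lean) for K = F, K' = the bottom field (algebraMap is surjective) gives a bijection ε of the ideals with relNorm (ε J) = J and the same absolute norm: the HasSum over the ideals of the bottom field (tm (PsiP _ ψ) s, PsiP_apply) becomes the one over the ideals of F (Equiv.hasSum_iff).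
finrank of the bottom field is 1; UnitP is the condition val. -/
theorem LU_of {p : ℕ} {Om : ℂ} {ψ : Ideal (𝓞 F) →*₀ 𝓞 F}
    [NumberField (⊥ : IntermediateField F (AlgebraicClosure F))]
    (h : H55P.ValG p Om ψ (⊥ : IntermediateField F (AlgebraicClosure F))) : ∃ Λ : ℂ → ℂ, LU p Om ψ Λ := by
  obtain ⟨Λ, h1, h2, -, h3⟩ := h
  have hsurj : Function.Surjective
      (algebraMap F (⊥ : IntermediateField F (AlgebraicClosure F))) := by
    rintro ⟨x, hx⟩
    obtain ⟨y, hy⟩ := IntermediateField.mem_bot.1 hx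
    exact ⟨y, Subtype.ext hy⟩
  obtain ⟨ε, hε⟩ := H55P.pz13_equiv F (⊥ : IntermediateField F (AlgebraicClosure F)) hsurj
  refine ⟨Λ, h1, fun s hs => ?_, fun V hV => ?_⟩
  · have h4 := h2 s hs
    rw [← ε.hasSum_iff] at h4
    refine h4.congr_fun fun J => ?_
    obtain ⟨e1, e2⟩ := hε J
    show (starRingEnd ℂ) (eF F (ψ J)) * (Ideal.absNorm J : ℂ) ^ (-s) =
      H55P.PsiP _ ψ (ε J) * (Ideal.absNorm (ε J) : ℂ) ^ (-s)
    rw [H55P.PsiP_apply, e1, e2]
  · have h4 := h3 V hV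
    rwa [IntermediateField.finrank_bot, pow_one] at h4

end H55K
end

-- from Lib.H55K.FC2
section

/-! # H55K: almost all prime numbers -/

open NumberField IsDedekindDomain WeierstrassCurve

namespace H55K.TQ

open H55P (IQ embF eF LF Per IsHecke Pt ac Inert Dec Nm UnitP)
open H35P (WAB Ker tt GoodW IntW)
open H55K.MG (VC Crd)

theorem FC2_unr {F : Type} [Field F] [NumberField F] {p : ℕ} (hp : p.Prime)
    (hd : ¬ (p : ℤ) ∣ NumberField.discr F) : H55P.UnrP p F := by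
  have hpp : Prime (p : ℤ) := Nat.prime_iff_prime_int.1 hp
  rw [NumberField.not_dvd_discr_iff_forall_mem F (𝓞 F) hpp] at hd
  intro x hx
  rw [Ideal.isUnit_iff]
  by_contra hne
  obtain ⟨P, hP, hle⟩ := Ideal.exists_le_maximal x hne
  have hPp : P.IsPrime := hP.isPrime
  have h1 : P ^ 2 ∣ Ideal.span {(p : 𝓞 F)} := by
    refine dvd_trans ?_ hx
    rw [pow_two]
    exact mul_dvd_mul (Ideal.dvd_iff_le.2 hle) (Ideal.dvd_iff_le.2 hle)
  rw [Ideal.dvd_iff_le] at h1
  have h2 : (p : 𝓞 F) ∈ P := Ideal.pow_le_self two_ne_zero (h1 (Ideal.mem_span_singleton_self _))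
  have h3 := hd P hPp (by exact_mod_cast h2)
  have h4 : P.ramificationIdx ℤ = 1 := Ideal.ramificationIdx_eq_one_iff.2 h3
  have hover : P.under ℤ = Ideal.span {(p : ℤ)} := by
    have hmax : (Ideal.span {(p : ℤ)}).IsMaximal :=
      PrincipalIdealRing.isMaximal_of_irreducible hpp.irreducible
    refine (hmax.eq_of_le (Ideal.IsPrime.ne_top inferInstance) ?_).symm
    rw [Ideal.span_singleton_le_iff_mem, Ideal.under_def, Ideal.mem_comap, map_natCast]
    exact h2
  have : P.LiesOver (Ideal.span {(p : ℤ)}) := ⟨hover.symm⟩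
  have hne : Ideal.span {(p : ℤ)} ≠ ⊥ := by
    rw [Ne, Ideal.span_singleton_eq_bot]
    exact hpp.ne_zero
  rw [← Ideal.ramificationIdx'_eq_ramificationIdx (Ideal.span {(p : ℤ)}) P hne] at h4
  have hle' : Ideal.map (algebraMap ℤ (𝓞 F)) (Ideal.span {(p : ℤ)}) = Ideal.span {(p : 𝓞 F)} := by
    rw [Ideal.map_span, Set.image_singleton, map_natCast]
  have h5 : Ideal.map (algebraMap ℤ (𝓞 F)) (Ideal.span {(p : ℤ)}) ≤ P := by
    rw [hle', Ideal.span_singleton_le_iff_mem]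
    exact h2
  exact (Ideal.ramificationIdx'_ne_one_iff h5).2 (by rw [hle']; exact h1) h4

theorem FC2_cop {F : Type} [Field F] [NumberField F] {p : ℕ} (hp : p.Prime) {D : 𝓞 F}
    (hd : ¬ p ∣ Ideal.absNorm (Ideal.span {D})) :
    IsCoprime (Ideal.span {D}) (Ideal.span {(p : 𝓞 F)}) := by
  rw [Ideal.isCoprime_iff_sup_eq]
  by_contra hne
  obtain ⟨P, hP, hle⟩ := Ideal.exists_le_maximal _ hne
  apply hd
  have h1 : Ideal.absNorm P ∣ Ideal.absNorm (Ideal.span {D}) :=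
    Ideal.absNorm_dvd_absNorm_of_le (le_sup_left.trans hle)
  have h2 : Ideal.absNorm P ∣ Ideal.absNorm (Ideal.span {(p : 𝓞 F)}) :=
    Ideal.absNorm_dvd_absNorm_of_le (le_sup_right.trans hle)
  have h3 : Ideal.absNorm (Ideal.span {(p : 𝓞 F)}) = p ^ Module.finrank ℤ (𝓞 F) := by
    rw [Ideal.absNorm_span_singleton]
    have h4 : (p : 𝓞 F) = algebraMap ℤ (𝓞 F) (p : ℤ) := by simp
    rw [h4, Algebra.norm_algebraMap, Int.natAbs_pow, Int.natAbs_natCast]
  rw [h3, Nat.dvd_prime_pow hp] at h2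
  obtain ⟨k, _, hk⟩ := h2
  refine dvd_trans ?_ h1
  rw [hk]
  have hk0 : k ≠ 0 := by
    rintro rfl
    rw [pow_zero, Ideal.absNorm_eq_one_iff] at hk
    exact hP.ne_top hk
  exact dvd_pow_self p hk0

/-- Chunk FC2 (M). All but finitely many primes satisfy PrimeH: p ≥ 5; unramified: p does not divide the discriminant of F (NumberField.not_dvd_discr_iff_forall_mem, used in H55P/L1.lean pl1_discr; a square I^2 dividing (p) with I not a unit has a prime P, P^2 divides (p)); coprime: p does not divide the norm of Δ ≠ 0: if Δ and p are in a maximal ideal v then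
absNorm v is a power of p and divides the norm of Δ. -/
theorem prime_almost {F : Type} [Field F] [NumberField F] (W₀ : WeierstrassCurve (𝓞 F)) (h : W₀.Δ ≠ 0) :
    {p : ℕ | p.Prime ∧ ¬ PrimeH F W₀ p}.Finite := by
  have hD : (NumberField.discr F).natAbs ≠ 0 := by
    rw [Int.natAbs_ne_zero]
    exact NumberField.discr_ne_zero F
  have hN : Ideal.absNorm (Ideal.span {W₀.Δ}) ≠ 0 := by
    rw [Ne, Ideal.absNorm_eq_zero_iff, Ideal.span_singleton_eq_bot]
    exact h
  refine Set.Finite.subset ((Finset.range 5 ∪ (NumberField.discr F).natAbs.divisors ∪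
    (Ideal.absNorm (Ideal.span {W₀.Δ})).divisors).finite_toSet) ?_
  rintro p ⟨hp, hnot⟩
  rw [Finset.mem_coe, Finset.mem_union, Finset.mem_union, Finset.mem_range, Nat.mem_divisors,
    Nat.mem_divisors]
  by_contra hcon
  push Not at hcon
  obtain ⟨⟨h1, h2⟩, h3⟩ := hcon
  apply hnot
  refine ⟨hp, h1, FC2_unr hp ?_, FC2_cop hp ?_⟩
  · intro hd
    exact hD (h2 (Int.natCast_dvd.1 hd))
  · intro hd
    exact hN (h3 hd)

end H55K.TQ
end

-- from Lib.H55K.UA1
section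

/-! # H55K: the second difference -/

open NumberField IsDedekindDomain WeierstrassCurve

namespace H55K

open H55P (IQ embF eF LF Per IsHecke Pt ac Inert Dec Nm)
open H35P (WAB Ker tt)


variable {F : Type} [Field F] [NumberField F] [IQ F]

theorem ua1_second (g g1 g2 : ℝ → ℂ) (B : ℝ) (h1 : ∀ t ∈ Set.Icc (-1 : ℝ) 1, HasDerivAt g (g1 t) t)
    (h2 : ∀ t ∈ Set.Icc (-1 : ℝ) 1, HasDerivAt g1 (g2 t) t) (hB : ∀ t ∈ Set.Icc (-1 : ℝ) 1, ‖g2 t‖ ≤ B) :
    ‖g 1 + g (-1) - 2 * g 0‖ ≤ 2 * B := by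
  have hB0 : 0 ≤ B := le_trans (norm_nonneg _) (hB 0 (by simp))
  have k1 : ∀ t ∈ Set.Icc (0 : ℝ) 1, ‖g1 t - g1 (-t)‖ ≤ 2 * B := by
    intro t ht
    have := (convex_Icc (-1 : ℝ) 1).norm_image_sub_le_of_norm_hasDerivWithin_le
      (fun x hx => (h2 x hx).hasDerivWithinAt) hB
      (show (-t) ∈ Set.Icc (-1 : ℝ) 1 from ⟨by linarith [ht.2], by linarith [ht.1]⟩)
      (show t ∈ Set.Icc (-1 : ℝ) 1 from ⟨by linarith [ht.1], ht.2⟩)
    refine this.trans ?_
    have : ‖t - -t‖ ≤ 2 := by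
      rw [Real.norm_eq_abs, abs_of_nonneg (by linarith [ht.1])]
      linarith [ht.2]
    nlinarith
  have k2 : ∀ t ∈ Set.Icc (0 : ℝ) 1, HasDerivWithinAt (fun x : ℝ => g x + g (-x)) (g1 t - g1 (-t))
      (Set.Icc (0 : ℝ) 1) t := by
    intro t ht
    have e1 := h1 t ⟨by linarith [ht.1], ht.2⟩
    have e2 := h1 (-t) ⟨by linarith [ht.2], by linarith [ht.1]⟩
    have e3 : HasDerivAt (fun x : ℝ => g (-x)) (-g1 (-t)) t := by
      exact (HasDerivAt.scomp t e2 (hasDerivAt_neg t)).congr_deriv (by simp)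
    exact ((e1.add e3).hasDerivWithinAt (s := Set.Icc (0 : ℝ) 1)).congr_deriv (by ring)
  have := (convex_Icc (0 : ℝ) 1).norm_image_sub_le_of_norm_hasDerivWithin_le k2 k1
    (show (0 : ℝ) ∈ Set.Icc (0 : ℝ) 1 by simp) (show (1 : ℝ) ∈ Set.Icc (0 : ℝ) 1 by simp)
  have e : g 1 + g (-1) - 2 * g 0 = (g 1 + g (-1)) - (g 0 + g (-0)) := by
    rw [neg_zero]; ring
  rw [e]
  simpa using this

/-- The bound for one s, in terms of a lower bound d for the norms on the segment. -/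
theorem ua1_bd (s w q : ℂ) (d : ℝ) (hd : 0 < d) (hs : 0 < s.re)
    (hw : ∀ t ∈ Set.Icc (-1 : ℝ) 1, d ≤ ‖w + t * q‖) :
    ‖dd s w q‖ ≤ 2 * ((10 * ‖s‖ + 4 * ‖s‖ ^ 2) * ‖q‖ ^ 2 * d ^ (-1 - 2 * s.re)) := by
  set N : ℝ → ℝ := fun t => (w.re + t * q.re) ^ 2 + (w.im + t * q.im) ^ 2 with hN
  set N1 : ℝ → ℝ := fun t => 2 * (w.re + t * q.re) * q.re + 2 * (w.im + t * q.im) * q.im with hN1
  have hNn : ∀ t : ℝ, N t = ‖w + t * q‖ ^ 2 := by
    intro t
    rw [Complex.sq_norm, Complex.normSq_apply]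
    simp [hN]
    ring
  have hN1n : ∀ t : ℝ, |N1 t| ≤ 2 * (‖q‖ * ‖w + t * q‖) := by
    intro t
    have e : N1 t = 2 * ((w + t * q) * (starRingEnd ℂ) q).re := by
      simp [hN1]
      ring
    rw [e, abs_mul, abs_of_pos (by norm_num : (0 : ℝ) < 2)]
    have := Complex.abs_re_le_norm ((w + t * q) * (starRingEnd ℂ) q)
    rw [norm_mul, Complex.norm_conj] at this
    nlinarith
  have hNpos : ∀ t ∈ Set.Icc (-1 : ℝ) 1, 0 < N t := by
    intro t ht
    rw [hNn]
    have := lt_of_lt_of_le hd (hw t ht)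
    positivity
  have dN : ∀ t : ℝ, HasDerivAt N (N1 t) t := by
    intro t
    have a1 : HasDerivAt (fun t : ℝ => w.re + t * q.re) q.re t := by
      simpa using ((hasDerivAt_id t).mul_const q.re).const_add w.re
    have a2 : HasDerivAt (fun t : ℝ => w.im + t * q.im) q.im t := by
      simpa using ((hasDerivAt_id t).mul_const q.im).const_add w.im
    exact ((a1.pow 2).add (a2.pow 2)).congr_deriv (by simp [hN1])
  have dN1 : ∀ t : ℝ, HasDerivAt N1 (2 * ‖q‖ ^ 2) t := by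
    intro t
    have a1 : HasDerivAt (fun t : ℝ => w.re + t * q.re) q.re t := by
      simpa using ((hasDerivAt_id t).mul_const q.re).const_add w.re
    have a2 : HasDerivAt (fun t : ℝ => w.im + t * q.im) q.im t := by
      simpa using ((hasDerivAt_id t).mul_const q.im).const_add w.im
    exact (((a1.const_mul 2).mul_const q.re).add ((a2.const_mul 2).mul_const q.im)).congr_deriv (by
      rw [Complex.sq_norm, Complex.normSq_apply]; ring)
  set a : ℝ → ℝ := fun t => N1 t / N t with ha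
  set a1 : ℝ → ℝ := fun t => (2 * ‖q‖ ^ 2 * N t - N1 t * N1 t) / N t ^ 2 with ha1
  have da : ∀ t ∈ Set.Icc (-1 : ℝ) 1, HasDerivAt a (a1 t) t := by
    intro t ht
    exact (dN1 t).div (dN t) (hNpos t ht).ne'
  set E : ℝ → ℂ := fun t => Complex.exp (-s * ((Real.log (N t) : ℝ) : ℂ)) with hE
  have dE : ∀ t ∈ Set.Icc (-1 : ℝ) 1, HasDerivAt E (E t * (-s * (a t : ℂ))) t := by
    intro t ht
    have e1 : HasDerivAt (fun t => Real.log (N t)) (a t) t := (dN t).log (hNpos t ht).ne'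
    have e2 : HasDerivAt (fun t => ((Real.log (N t) : ℝ) : ℂ)) ((a t : ℝ) : ℂ) t := e1.ofReal_comp
    exact (e2.const_mul (-s)).cexp
  set u : ℝ → ℂ := fun t => (starRingEnd ℂ) w + t * (starRingEnd ℂ) q with hu
  have du : ∀ t : ℝ, HasDerivAt u ((starRingEnd ℂ) q) t := by
    intro t
    have e1 : HasDerivAt (fun t : ℝ => (t : ℂ)) ((1 : ℝ) : ℂ) t := (hasDerivAt_id t).ofReal_comp
    exact ((e1.mul_const ((starRingEnd ℂ) q)).const_add ((starRingEnd ℂ) w)).congr_deriv (by simp)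
  have hun : ∀ t : ℝ, ‖u t‖ = ‖w + t * q‖ := by
    intro t
    rw [← Complex.norm_conj (w + t * q)]
    simp [hu]
  set g : ℝ → ℂ := fun t => u t * E t with hg
  set g1 : ℝ → ℂ := fun t => ((starRingEnd ℂ) q + -s * (a t : ℂ) * u t) * E t with hg1
  set g2 : ℝ → ℂ := fun t => (-s * (a1 t : ℂ) * u t + -2 * s * (a t : ℂ) * (starRingEnd ℂ) q +
    s ^ 2 * (a t : ℂ) ^ 2 * u t) * E t with hg2
  have dg : ∀ t ∈ Set.Icc (-1 : ℝ) 1, HasDerivAt g (g1 t) t := by
    intro t ht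
    exact ((du t).mul (dE t ht)).congr_deriv (by simp only [hg1]; ring)
  have dg1 : ∀ t ∈ Set.Icc (-1 : ℝ) 1, HasDerivAt g1 (g2 t) t := by
    intro t ht
    have e1 : HasDerivAt (fun t => ((a t : ℝ) : ℂ)) ((a1 t : ℝ) : ℂ) t := (da t ht).ofReal_comp
    exact ((((e1.const_mul (-s)).mul (du t)).const_add ((starRingEnd ℂ) q)).mul (dE t ht)).congr_deriv (by
      simp only [hg2]; simp only [Pi.mul_apply]; ring)
  have hff : ∀ t ∈ Set.Icc (-1 : ℝ) 1, ff s (w + t * q) = g t := by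
    intro t ht
    have h0 := hNpos t ht
    rw [ff, ← hNn, Complex.cpow_def_of_ne_zero (by exact_mod_cast h0.ne'), ← Complex.ofReal_log h0.le]
    simp only [hg, hu, hE]
    rw [mul_comm (-s)]
    simp
  have hEn : ∀ t ∈ Set.Icc (-1 : ℝ) 1, ‖E t‖ = ‖w + t * q‖ ^ (-2 * s.re) := by
    intro t ht
    have hp : 0 < ‖w + t * q‖ := lt_of_lt_of_le hd (hw t ht)
    have hE' : E t = Complex.exp (-s * ((Real.log (N t) : ℝ) : ℂ)) := rfl
    rw [hE', Complex.norm_exp, hNn, Real.log_pow, Real.rpow_def_of_pos hp]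
    congr 1
    simp
    ring
  have key : ∀ t ∈ Set.Icc (-1 : ℝ) 1, ‖g2 t‖ ≤ (10 * ‖s‖ + 4 * ‖s‖ ^ 2) * ‖q‖ ^ 2 * d ^ (-1 - 2 * s.re) := by
    intro t ht
    have hp : 0 < ‖w + t * q‖ := lt_of_lt_of_le hd (hw t ht)
    set W := ‖w + t * q‖ with hW
    have b1 : |a t| ≤ 2 * ‖q‖ / W := by
      simp only [ha]
      rw [abs_div, hNn, abs_of_pos (by positivity : 0 < ‖w + t * q‖ ^ 2), ← hW, div_le_div_iff₀ (by positivity) hp]
      have := hN1n t
      rw [← hW] at this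
      nlinarith
    have b2 : |a1 t| ≤ 6 * ‖q‖ ^ 2 / W ^ 2 := by
      have e : a1 t = 2 * ‖q‖ ^ 2 / W ^ 2 - a t ^ 2 := by
        simp only [ha1, ha]
        rw [hNn, ← hW]
        field_simp
      rw [e]
      have c1 : a t ^ 2 ≤ 4 * ‖q‖ ^ 2 / W ^ 2 := by
        rw [← sq_abs]
        calc |a t| ^ 2 ≤ (2 * ‖q‖ / W) ^ 2 := by gcongr
          _ = _ := by ring
      have c2 : 0 ≤ 2 * ‖q‖ ^ 2 / W ^ 2 := by positivity
      have c3 : 6 * ‖q‖ ^ 2 / W ^ 2 = 2 * ‖q‖ ^ 2 / W ^ 2 + 4 * ‖q‖ ^ 2 / W ^ 2 := by ring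
      rw [abs_le, c3]
      constructor
      · nlinarith [sq_nonneg (a t)]
      · nlinarith [sq_nonneg (a t)]
    have b3 : ‖-s * (a1 t : ℂ) * u t + -2 * s * (a t : ℂ) * (starRingEnd ℂ) q +
        s ^ 2 * (a t : ℂ) ^ 2 * u t‖ ≤ (10 * ‖s‖ + 4 * ‖s‖ ^ 2) * ‖q‖ ^ 2 / W := by
      have d1 : ‖-s * (a1 t : ℂ) * u t‖ ≤ ‖s‖ * (6 * ‖q‖ ^ 2 / W ^ 2) * W := by
        rw [norm_mul, norm_mul, norm_neg, hun, ← hW, Complex.norm_real, Real.norm_eq_abs]
        gcongr
      have d2 : ‖-2 * s * (a t : ℂ) * (starRingEnd ℂ) q‖ ≤ 2 * ‖s‖ * (2 * ‖q‖ / W) * ‖q‖ := by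
        rw [norm_mul, norm_mul, norm_mul, norm_neg, Complex.norm_conj, Complex.norm_real, Real.norm_eq_abs]
        simp only [Complex.norm_ofNat]
        gcongr
      have d3 : ‖s ^ 2 * (a t : ℂ) ^ 2 * u t‖ ≤ ‖s‖ ^ 2 * (2 * ‖q‖ / W) ^ 2 * W := by
        rw [norm_mul, norm_mul, norm_pow, norm_pow, hun, ← hW, Complex.norm_real, Real.norm_eq_abs]
        gcongr
      refine (norm_add₃_le).trans ((add_le_add (add_le_add d1 d2) d3).trans (le_of_eq ?_))
      field_simp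
      ring
    have b4 : ‖g2 t‖ ≤ (10 * ‖s‖ + 4 * ‖s‖ ^ 2) * ‖q‖ ^ 2 / W * W ^ (-2 * s.re) := by
      simp only [hg2]
      rw [norm_mul, hEn t ht, ← hW]
      gcongr
    refine b4.trans ?_
    have e : (10 * ‖s‖ + 4 * ‖s‖ ^ 2) * ‖q‖ ^ 2 / W * W ^ (-2 * s.re) =
        (10 * ‖s‖ + 4 * ‖s‖ ^ 2) * ‖q‖ ^ 2 * W ^ (-1 - 2 * s.re) := by
      rw [show (-1 - 2 * s.re : ℝ) = -1 + -2 * s.re by ring, Real.rpow_add hp, Real.rpow_neg_one]
      ring
    rw [e]
    refine mul_le_mul_of_nonneg_left ?_ (by positivity)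
    exact Real.rpow_le_rpow_of_nonpos hd (hw t ht) (by linarith)
  have h1 := hff 1 (by simp)
  have h2 := hff (-1) (by simp)
  have h3 := hff 0 (by simp)
  have := ua1_second g g1 g2 _ dg dg1 key
  rw [← h1, ← h2, ← h3] at this
  simpa [dd, sub_eq_add_neg] using this

/-- Chunk UA1 (M). Real calculus on the segment: w_t = w + t q, t in [-1, 1], N(t) = ‖w_t‖^2 = ‖w‖^2 + 2 t Re(w conj q) + t^2 ‖q‖^2 > 0, g(t) = ff s (w_t) = conj(w_t) N(t)^(-s).
g' = conj q N^(-s) - s conj(w_t) N' N^(-s-1), g'' = -2 s conj q N' N^(-s-1) - s conj(w_t) N'' N^(-s-1) + s(s+1) conj(w_t) N'^2 N^(-s-2), |N'| ≤ 2‖q‖‖w_t‖, N'' = 2‖q‖^2, |N^(-s)| = N^(-Re s):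
|g''| ≤ ‖q‖^2 ‖w_t‖^(-1-2 Re s) (6‖s‖ + 4‖s‖‖s+1‖). g(1) + g(-1) - 2 g(0): h(t) = g(t) + g(-t) - 2 g(0), h(0) = 0, h'(0) = 0, h'' bounded by 2 sup|g''|; Convex.norm_image_sub_le_of_norm_deriv_le twice (or image_norm_le_of_norm_deriv_right_le_deriv_boundary):
|h(1)| ≤ 2 sup |g''|. ‖w‖/2 ≤ ‖w_t‖ ≤ 2‖w‖ because ‖q‖ ≤ ‖w‖/2, so ‖w_t‖^(-1-2 Re s) ≤ 2^(1+2 Re s) ‖w‖^(-1-2 Re s) ≤ 2^(1+2M) ‖w‖^(-1-2r) (‖w‖ ≥ 1). -/
theorem dd_bound (q : ℂ) (r M : ℝ) (hr : 0 < r) : ∃ C : ℝ, 0 ≤ C ∧ ∀ s : ℂ, r ≤ s.re → ‖s‖ ≤ M →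
    ∀ w : ℂ, 1 + 2 * ‖q‖ ≤ ‖w‖ → ‖dd s w q‖ ≤ C * ‖w‖ ^ (-1 - 2 * r) := by
  refine ⟨2 * ((10 * |M| + 4 * |M| ^ 2) * ‖q‖ ^ 2 * (2 : ℝ) ^ (1 + 2 * M)), by positivity, ?_⟩
  intro s hs hsM w hw
  have hM0 : 0 ≤ M := le_trans (norm_nonneg _) hsM
  have hw1 : 1 ≤ ‖w‖ := by linarith [norm_nonneg q]
  have hre : s.re ≤ M := (Complex.re_le_norm s).trans hsM
  have h1 := ua1_bd s w q (‖w‖ / 2) (by positivity) (lt_of_lt_of_le hr hs) (by
    intro t ht
    have e1 : ‖(t : ℂ) * q‖ ≤ ‖q‖ := by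
      rw [norm_mul, Complex.norm_real, Real.norm_eq_abs]
      have : |t| ≤ 1 := abs_le.mpr ht
      nlinarith [norm_nonneg q]
    have e2 := norm_sub_le_norm_add w ((t : ℂ) * q)
    linarith)
  refine h1.trans ?_
  have e1 : (‖w‖ / 2) ^ (-1 - 2 * s.re) = 2 ^ (1 + 2 * s.re) * ‖w‖ ^ (-1 - 2 * s.re) := by
    rw [Real.div_rpow (by positivity) (by norm_num), show (-1 - 2 * s.re : ℝ) = -(1 + 2 * s.re) by ring,
      Real.rpow_neg (by norm_num : (0 : ℝ) ≤ 2)]
    field_simp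
  have e2 : (2 : ℝ) ^ (1 + 2 * s.re) ≤ 2 ^ (1 + 2 * M) :=
    Real.rpow_le_rpow_of_exponent_le (by norm_num) (by linarith)
  have e3 : ‖w‖ ^ (-1 - 2 * s.re) ≤ ‖w‖ ^ (-1 - 2 * r) :=
    Real.rpow_le_rpow_of_exponent_le hw1 (by linarith)
  rw [e1, abs_of_nonneg hM0]
  calc 2 * ((10 * ‖s‖ + 4 * ‖s‖ ^ 2) * ‖q‖ ^ 2 * (2 ^ (1 + 2 * s.re) * ‖w‖ ^ (-1 - 2 * s.re)))
      ≤ 2 * ((10 * M + 4 * M ^ 2) * ‖q‖ ^ 2 * (2 ^ (1 + 2 * M) * ‖w‖ ^ (-1 - 2 * r))) := by
        gcongr
    _ = _ := by ring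

end H55K
end

-- from Lib.H55G.D2
section

/-! # H55G, part D: a good model over a number field -/

open NumberField IsDedekindDomain WeierstrassCurve Polynomial

namespace H55G

open H55P (IQ embF eF LF Per IsHecke Pt ac Inert Dec Nm)
open H35P (WAB Ker GoodW IntW)
open H55K (GoodAt Abw xc yc)
open H55K.MG (VC Crd)

/-- C is a good change of variables for W at w. -/
def GC {k : Type} [Field k] [NumberField k] (W : WeierstrassCurve k) (w : HeightOneSpectrum (𝓞 k)) (C : VariableChange k) :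
    Prop :=
  w.valuation k (C • W).a₁ ≤ 1 ∧ w.valuation k (C • W).a₂ ≤ 1 ∧ w.valuation k (C • W).a₃ ≤ 1 ∧
    w.valuation k (C • W).a₄ ≤ 1 ∧ w.valuation k (C • W).a₆ ≤ 1 ∧ w.valuation k (C • W).Δ = 1

theorem good_iff {k : Type} [Field k] [NumberField k] (W : WeierstrassCurve k) (w : HeightOneSpectrum (𝓞 k)) :
    GoodAt W w ↔ ∃ C : VariableChange k, GC W w C := Iff.rfl

/-- The curve W₁ over k is obtained from E over Ω by a change of variables with coefficients in k. -/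
def VCk {k : Type} [Field k] {Ω : Type} [Field Ω] [Algebra k Ω] (E : WeierstrassCurve Ω) (W₁ : WeierstrassCurve k) : Prop :=
  ∃ u r s t : k, VC E (W₁⁄Ω) (algebraMap k Ω u) (algebraMap k Ω r) (algebraMap k Ω s) (algebraMap k Ω t)

variable {F : Type} [Field F] {A B : F} {Ω : Type} [Field Ω] [DecidableEq Ω] [Algebra F Ω]
  {V : ValuationSubring Ω} {k : Type} [Field k] [NumberField k] [Algebra k Ω] {w : HeightOneSpectrum (𝓞 k)}

omit [DecidableEq Ω] in
/-- Chunk D2 (S). The coefficients of (C • W₁)⁄Ω are the images of those of C • W₁; Abw.eq_one, hV (K0A.lean); the discriminant: map_Δ. -/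
theorem gc_good {W₁ : WeierstrassCurve k} (hV : Abw V w) {C : VariableChange k} (hC : GC W₁ w C) : GoodW ((C • W₁)⁄Ω) V := by
  obtain ⟨h1, h2, h3, h4, h6, hd⟩ := hC
  refine ⟨⟨(hV _).2 h1, (hV _).2 h2, (hV _).2 h3, (hV _).2 h4, (hV _).2 h6⟩, ?_⟩
  have e : ((C • W₁)⁄Ω).Δ = algebraMap k Ω ((C • W₁).Δ) := WeierstrassCurve.map_Δ _ _
  rw [e]
  exact (hV.eq_one _).2 hd

/-- Chunk D2 (S/M). hVC: VC E (W₁⁄Ω) u₁ ..; H55K.TQ.vc_smul: VC W₁ (C • W₁) C.u C.r C.s C.t over k, mapped to Ω (vc_map, QC1C.lean); composition (vc_comp in QC1A.lean or QC1B.lean): VC E ((C • W₁)⁄Ω) with coefficients in the image of k (products and sums; see gmd_of_good in T9B.lean, where exactly this is done). Discriminants: hd gives (WAB A B).Δ ≠ 0 (as in H13R/C2.lean), the discriminant of (C • W₁)⁄Ω is not 0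
(gc_good). Θ from MG.vc_iso (M1B.lean), Kg from MG.kg_ex (M3B.lean). -/
theorem exists_GD (hd : 4 * A ^ 3 + 27 * B ^ 2 ≠ 0) [CharZero F] {W₁ : WeierstrassCurve k} (hV : Abw V w)
    (hVC : VCk ((WAB A B)⁄Ω) W₁) {C : VariableChange k} (hC : GC W₁ w C) :
    ∃ (u r s t : k) (Θ : Pt (WAB A B) Ω ≃+ ((C • W₁)⁄Ω).toAffine.Point) (Kg : AddSubgroup (Pt (WAB A B) Ω)),
      GD V ((C • W₁)⁄Ω) (algebraMap k Ω u) (algebraMap k Ω r) (algebraMap k Ω s) (algebraMap k Ω t) Θ Kg := by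
  obtain ⟨u₁, r₁, s₁, t₁, hv⟩ := hVC
  have hC' := H55K.TQ.vc_map (algebraMap k Ω) (H55K.TQ.vc_smul W₁ C)
  have hcomp := H55K.TQ.vc_comp hv hC'
  have hgood := gc_good hV hC
  have hΔ2 : ((C • W₁)⁄Ω).Δ ≠ 0 := by
    intro h0
    have h1 := hgood.disc
    rw [h0, map_zero] at h1
    exact zero_ne_one h1
  have hΔ1 : (WAB A B).Δ ≠ 0 := by
    have e : (WAB A B).Δ = -16 * (4 * A ^ 3 + 27 * B ^ 2) := by
      unfold WAB WeierstrassCurve.Δ WeierstrassCurve.b₂ WeierstrassCurve.b₄ WeierstrassCurve.b₆ WeierstrassCurve.b₈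
      ring
    rw [e]
    exact mul_ne_zero (by norm_num) hd
  have hΔ1' : ((WAB A B)⁄Ω).Δ ≠ 0 := by
    have e : ((WAB A B)⁄Ω).Δ = algebraMap F Ω ((WAB A B).Δ) := WeierstrassCurve.map_Δ _ _
    rw [e]
    exact (_root_.map_ne_zero _).2 hΔ1
  have hcomp' : VC ((WAB A B)⁄Ω) ((C • W₁)⁄Ω) (algebraMap k Ω (u₁ * (C.u : k)))
      (algebraMap k Ω (u₁ ^ 2 * C.r + r₁)) (algebraMap k Ω (u₁ * C.s + s₁))
      (algebraMap k Ω (u₁ ^ 3 * C.t + s₁ * u₁ ^ 2 * C.r + t₁)) := by
    simp only [map_mul, map_add, map_pow]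
    exact hcomp
  obtain ⟨Θ, hΘ⟩ := H55K.MG.vc_iso hcomp' hΔ1' hΔ2
  obtain ⟨Kg, hKg⟩ := H55K.MG.kg_ex hgood Θ
  exact ⟨_, _, _, _, Θ, Kg, ⟨hcomp'.une, hgood, hΘ, hKg⟩⟩

end H55G
end

-- from Lib.H55G.D3A
section

/-! # H55G, part D: the points of the minimal model -/

open NumberField IsDedekindDomain WeierstrassCurve Polynomial

namespace H55G

open H55K (GoodAt Abw)

theorem d3a_good (R : Type) [CommRing R] [IsDomain R] [IsDiscreteValuationRing R] (K : Type)
    [Field K] [Algebra R K] [IsFractionRing R K] (W : WeierstrassCurve R) (hΔ : IsUnit W.Δ) (N : WeierstrassCurve K)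
    [hmin : IsMinimal R N] (C : VariableChange K) (hC : N = C • (W⁄K)) :
    N.HasGoodReduction R := by
  rw [hasGoodReduction_iff]
  refine ⟨hmin, ?_⟩
  have hWint : IsIntegral R (W⁄K) := ⟨⟨W, rfl⟩⟩
  have hback : C⁻¹ • N = (W⁄K) := by rw [hC, inv_smul_smul]
  have hmax := hmin.val_Δ_maximal
  have hj : IsIntegral R (C⁻¹ • N) := by rw [hback]; exact hWint
  have hval : (valuation_Δ_aux R (C⁻¹ • N)).1 = 1 := by
    rw [hback]
    rw [valuation_Δ_aux_eq_of_isIntegral]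
    have h1 : (W⁄K).Δ = algebraMap R K W.Δ := map_Δ W (algebraMap R K)
    rw [h1]
    exact H55B.F1_val_unit R K hΔ
  have hle : valuation_Δ_aux R ((1 : VariableChange K) •
      N) ≤ valuation_Δ_aux R (C⁻¹ • N) := by
    rw [← Subtype.coe_le_coe, hval]
    exact (valuation_Δ_aux R _).2
  have hge := hmax.2 hj hle
  rw [← Subtype.coe_le_coe, hval] at hge
  change 1 ≤ (valuation_Δ_aux R ((1 : VariableChange K) •
      N)).1 at hge
  rw [one_smul, valuation_Δ_aux_eq_of_isIntegral] at hge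
  refine le_antisymm ?_ hge
  obtain ⟨r, hr⟩ := Δ_integral_of_isIntegral R (N)
  rw [← hr]
  exact IsDedekindDomain.HeightOneSpectrum.valuation_le_one _ _

theorem d3a_core (R : Type) [CommRing R] [IsDomain R] [IsDiscreteValuationRing R] (K : Type) [Field K] [Algebra R K]
    [IsFractionRing R K] (W : WeierstrassCurve R) (hΔ : IsUnit W.Δ) (N : WeierstrassCurve K)
    [hmin : IsMinimal R N] (C : VariableChange K) (hC : N = C • (W⁄K)) :
    ∃ C : VariableChange R, integralModel R N = C • W := by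
  set I := integralModel R N with hI
  have inj : Function.Injective (algebraMap R K) := IsFractionRing.injective R K
  -- the discriminant of the integral model is a unit
  have hΔI : IsUnit I.Δ := by
    have hg := (d3a_good R K W hΔ N C hC).goodReduction
    rw [← integralModel_Δ_eq R] at hg
    by_contra h
    have := (IsDedekindDomain.HeightOneSpectrum.valuation_lt_one_iff_mem
      (K := K) (IsDiscreteValuationRing.maximalIdeal R) I.Δ).2
      ((IsLocalRing.mem_maximalIdeal _).2 h)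
    exact absurd hg this.ne
  have mΔ : (W⁄K).Δ = algebraMap R K W.Δ := map_Δ W (algebraMap R K)
  have mb₂ : (W⁄K).b₂ = algebraMap R K W.b₂ := map_b₂ W (algebraMap R K)
  have mb₄ : (W⁄K).b₄ = algebraMap R K W.b₄ := map_b₄ W (algebraMap R K)
  have mb₆ : (W⁄K).b₆ = algebraMap R K W.b₆ := map_b₆ W (algebraMap R K)
  have mb₈ : (W⁄K).b₈ = algebraMap R K W.b₈ := map_b₈ W (algebraMap R K)
  have ma₁ : (W⁄K).a₁ = algebraMap R K W.a₁ := rfl
  have ma₂ : (W⁄K).a₂ = algebraMap R K W.a₂ := rfl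
  have ma₃ : (W⁄K).a₃ = algebraMap R K W.a₃ := rfl
  have ma₄ : (W⁄K).a₄ = algebraMap R K W.a₄ := rfl
  have ma₆ : (W⁄K).a₆ = algebraMap R K W.a₆ := rfl
  have eΔ : algebraMap R K I.Δ = ((C.u⁻¹ : Kˣ) : K) ^ 12 * algebraMap R K W.Δ := by
    rw [hI, integralModel_Δ_eq, hC, variableChange_Δ, mΔ]
  have eb₆ : algebraMap R K I.b₆ = ((C.u⁻¹ : Kˣ) : K) ^ 6 * (algebraMap R K W.b₆ +
      2 * C.r * algebraMap R K W.b₄ + C.r ^ 2 * algebraMap R K W.b₂ + 4 * C.r ^ 3) := by
    rw [hI, integralModel_b₆_eq, hC, variableChange_b₆, mb₆, mb₄, mb₂]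
  have eb₈ : algebraMap R K I.b₈ = ((C.u⁻¹ : Kˣ) : K) ^ 8 * (algebraMap R K W.b₈ +
      3 * C.r * algebraMap R K W.b₆ + 3 * C.r ^ 2 * algebraMap R K W.b₄ + C.r ^ 3 * algebraMap R K W.b₂ +
      3 * C.r ^ 4) := by
    rw [hI, integralModel_b₈_eq, hC, variableChange_b₈, mb₈, mb₆, mb₄, mb₂]
  have ea₂ : algebraMap R K I.a₂ = ((C.u⁻¹ : Kˣ) : K) ^ 2 * (algebraMap R K W.a₂ - C.s * algebraMap R K W.a₁ +
      3 * C.r - C.s ^ 2) := by
    rw [hI, integralModel_a₂_eq, hC, variableChange_a₂, ma₂, ma₁]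
  have ea₆ : algebraMap R K I.a₆ = ((C.u⁻¹ : Kˣ) : K) ^ 6 * (algebraMap R K W.a₆ + C.r * algebraMap R K W.a₄ +
      C.r ^ 2 * algebraMap R K W.a₂ + C.r ^ 3 - C.t * algebraMap R K W.a₃ - C.t ^ 2 -
      C.r * C.t * algebraMap R K W.a₁) := by
    rw [hI, integralModel_a₆_eq, hC, variableChange_a₆, ma₆, ma₄, ma₂, ma₃, ma₁]
  set u : K := (C.u : K) with hu
  have hu0 : u ≠ 0 := C.u.ne_zero
  have huinv : ((C.u⁻¹ : Kˣ) : K) = u⁻¹ := Units.val_inv_eq_inv_val _
  rw [huinv] at eΔ eb₆ eb₈ ea₂ ea₆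
  obtain ⟨d, hd⟩ := hΔI
  obtain ⟨m, hm⟩ := hΔ
  -- u is integral
  have hdm : algebraMap R K d = u⁻¹ ^ 12 * algebraMap R K m := by
    rw [hd, eΔ, hm]
  have hu12 : u ^ 12 = algebraMap R K ((m : R) * ((d⁻¹ : Rˣ) : R)) := by
    rw [map_mul]
    have h1 : algebraMap R K d * algebraMap R K ((d⁻¹ : Rˣ) : R) = 1 := by
      rw [← map_mul, Units.mul_inv, map_one]
    have h2 : u ^ 12 * algebraMap R K d = algebraMap R K m := by
      rw [hdm, inv_pow, mul_inv_cancel_left₀ (pow_ne_zero _ hu0)]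
    calc u ^ 12 = u ^ 12 * (algebraMap R K d * algebraMap R K ((d⁻¹ : Rˣ) : R)) := by rw [h1, mul_one]
      _ = (u ^ 12 * algebraMap R K d) * algebraMap R K ((d⁻¹ : Rˣ) : R) := by ring
      _ = _ := by rw [h2]
  have huinv12 : u⁻¹ ^ 12 = algebraMap R K ((d : R) * ((m⁻¹ : Rˣ) : R)) := by
    rw [map_mul]
    have h1 : algebraMap R K m * algebraMap R K ((m⁻¹ : Rˣ) : R) = 1 := by
      rw [← map_mul, Units.mul_inv, map_one]
    rw [hdm, mul_assoc, h1, mul_one]
  obtain ⟨u₀, hu₀⟩ : ∃ u₀ : R, algebraMap R K u₀ = u := by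
    apply IsIntegrallyClosed.exists_algebraMap_eq_of_isIntegral_pow (n := 12) (by norm_num)
    rw [hu12]; exact isIntegral_algebraMap
  obtain ⟨v₀, hv₀⟩ : ∃ v₀ : R, algebraMap R K v₀ = u⁻¹ := by
    apply IsIntegrallyClosed.exists_algebraMap_eq_of_isIntegral_pow (n := 12) (by norm_num)
    rw [huinv12]; exact isIntegral_algebraMap
  have huv : u₀ * v₀ = 1 := by
    apply inj
    rw [map_mul, hu₀, hv₀, map_one, mul_inv_cancel₀ hu0]
  -- r
  obtain ⟨r₀, hr₀⟩ : ∃ r₀ : R, algebraMap R K r₀ = C.r := by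
    rw [← IsIntegrallyClosed.isIntegral_iff]
    refine ⟨Polynomial.X ^ 4 - Polynomial.C W.b₄ * Polynomial.X ^ 2 -
      Polynomial.C (2 * W.b₆ + u₀ ^ 6 * I.b₆) * Polynomial.X + Polynomial.C (u₀ ^ 8 * I.b₈ - W.b₈), ?_, ?_⟩
    · monicity!
    · simp only [Polynomial.eval₂_sub, Polynomial.eval₂_add, Polynomial.eval₂_pow, Polynomial.eval₂_mul,
        Polynomial.eval₂_X, Polynomial.eval₂_C]
      rw [map_add, map_mul, map_mul, map_sub, map_mul, map_pow, map_pow, hu₀, eb₆, eb₈, map_ofNat]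
      have h6 : u ^ 6 * (u⁻¹ ^ 6 * (algebraMap R K W.b₆ +
          2 * C.r * algebraMap R K W.b₄ + C.r ^ 2 * algebraMap R K W.b₂ + 4 * C.r ^ 3)) =
          algebraMap R K W.b₆ + 2 * C.r * algebraMap R K W.b₄ + C.r ^ 2 * algebraMap R K W.b₂ + 4 * C.r ^ 3 := by
        rw [inv_pow, mul_inv_cancel_left₀ (pow_ne_zero _ hu0)]
      have h8 : u ^ 8 * (u⁻¹ ^ 8 * (algebraMap R K W.b₈ +
          3 * C.r * algebraMap R K W.b₆ + 3 * C.r ^ 2 * algebraMap R K W.b₄ + C.r ^ 3 * algebraMap R K W.b₂ +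
          3 * C.r ^ 4)) = algebraMap R K W.b₈ +
          3 * C.r * algebraMap R K W.b₆ + 3 * C.r ^ 2 * algebraMap R K W.b₄ + C.r ^ 3 * algebraMap R K W.b₂ +
          3 * C.r ^ 4 := by
        rw [inv_pow, mul_inv_cancel_left₀ (pow_ne_zero _ hu0)]
      rw [h6, h8]
      ring
  obtain ⟨s₀, hs₀⟩ : ∃ s₀ : R, algebraMap R K s₀ = C.s := by
    rw [← IsIntegrallyClosed.isIntegral_iff]
    refine ⟨Polynomial.X ^ 2 + Polynomial.C W.a₁ * Polynomial.X -
      Polynomial.C (W.a₂ + 3 * r₀ - u₀ ^ 2 * I.a₂), ?_, ?_⟩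
    · monicity!
    · simp only [Polynomial.eval₂_sub, Polynomial.eval₂_add, Polynomial.eval₂_pow, Polynomial.eval₂_mul,
        Polynomial.eval₂_X, Polynomial.eval₂_C]
      rw [map_sub, map_add, map_mul, map_mul, map_pow, hu₀, hr₀, ea₂, map_ofNat]
      have h2 : u ^ 2 * (u⁻¹ ^ 2 * (algebraMap R K W.a₂ - C.s * algebraMap R K W.a₁ + 3 * C.r - C.s ^ 2)) =
          algebraMap R K W.a₂ - C.s * algebraMap R K W.a₁ + 3 * C.r - C.s ^ 2 := by
        rw [inv_pow, mul_inv_cancel_left₀ (pow_ne_zero _ hu0)]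
      rw [h2]
      ring
  obtain ⟨t₀, ht₀⟩ : ∃ t₀ : R, algebraMap R K t₀ = C.t := by
    rw [← IsIntegrallyClosed.isIntegral_iff]
    refine ⟨Polynomial.X ^ 2 + Polynomial.C (W.a₃ + r₀ * W.a₁) * Polynomial.X -
      Polynomial.C (W.a₆ + r₀ * W.a₄ + r₀ ^ 2 * W.a₂ + r₀ ^ 3 - u₀ ^ 6 * I.a₆), ?_, ?_⟩
    · monicity!
    · simp only [Polynomial.eval₂_sub, Polynomial.eval₂_add, Polynomial.eval₂_pow, Polynomial.eval₂_mul,
        Polynomial.eval₂_X, Polynomial.eval₂_C, map_sub, map_add, map_mul, map_pow, hu₀, hr₀, ea₆]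
      have h6 : u ^ 6 * (u⁻¹ ^ 6 * (algebraMap R K W.a₆ + C.r * algebraMap R K W.a₄ +
          C.r ^ 2 * algebraMap R K W.a₂ + C.r ^ 3 - C.t * algebraMap R K W.a₃ - C.t ^ 2 -
          C.r * C.t * algebraMap R K W.a₁)) = algebraMap R K W.a₆ + C.r * algebraMap R K W.a₄ +
          C.r ^ 2 * algebraMap R K W.a₂ + C.r ^ 3 - C.t * algebraMap R K W.a₃ - C.t ^ 2 -
          C.r * C.t * algebraMap R K W.a₁ := by
        rw [inv_pow, mul_inv_cancel_left₀ (pow_ne_zero _ hu0)]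
      rw [h6]
      ring
  refine ⟨⟨⟨u₀, v₀, huv, by rw [mul_comm]; exact huv⟩, r₀, s₀, t₀⟩, ?_⟩
  have hmapinj : Function.Injective
      (fun E : WeierstrassCurve R => E.map (algebraMap R K)) := map_injective inj
  apply hmapinj
  show I.map (algebraMap R K) = (_ : WeierstrassCurve R).map (algebraMap R K)
  rw [← map_variableChange]
  have e1 : I.map (algebraMap R K) = N := baseChange_integralModel_eq R _
  rw [e1, hC]
  congr 1
  ext
  · show u = algebraMap R K u₀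
    rw [hu₀]
  · exact hr₀.symm
  · exact hs₀.symm
  · exact ht₀.symm

/-- Chunk D3A (M), PORT of H55K.DD.d2a_good, core and good_loc (D2A.lean, D2C.lean) to a curve E over K with a good change of variables C: C • E = W⁄K. E.minimal R = D • E for the chosen D, so E.minimal R = (D * C⁻¹) • (W⁄K) (mul_smul, inv_smul_smul): from here on the proofs of d2a_good and core are the same with this change of variables in place of the chosen one (in d2a_good: the inverse change of variables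
applied to E.minimal R is W⁄K, integral with discriminant of valuation 1). So integralModel R (E.minimal R) = C' • W for some C' : VariableChange R, the reduction is C'.map residue • W.map residue, card_vc (D2B.lean). -/
theorem red_card' (R : Type) [CommRing R] [IsDomain R] [IsDiscreteValuationRing R] (K : Type) [Field K] [Algebra R K]
    [IsFractionRing R K] (E : WeierstrassCurve K) (C : VariableChange K) (W : WeierstrassCurve R) (hC : C • E = W⁄K)
    (hΔ : IsUnit W.Δ) : (E.minimal R).HasGoodReduction R ∧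
      Nat.card ((E.minimal R).reduction R).toAffine.Point = Nat.card (W.map (IsLocalRing.residue R)).toAffine.Point := by
  obtain ⟨D, hD⟩ : ∃ D : VariableChange K, E.minimal R = D • E := ⟨_, rfl⟩
  have hmin : IsMinimal R (E.minimal R) := inferInstance
  have hN : E.minimal R = (D * C⁻¹) • (W⁄K) := by
    rw [hD, mul_smul, ← hC, inv_smul_smul]
  have hg := d3a_good R K W hΔ (E.minimal R) (D * C⁻¹) hN
  obtain ⟨D', hD'⟩ := d3a_core R K W hΔ (E.minimal R) (D * C⁻¹) hN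
  refine ⟨hg, ?_⟩
  have hred : (E.minimal R).reduction R = (D'.map (IsLocalRing.residue R)) • (W.map (IsLocalRing.residue R)) := by
    unfold WeierstrassCurve.reduction
    rw [hD', ← WeierstrassCurve.map_variableChange]
  have h0 : (W.map (IsLocalRing.residue R)).Δ ≠ 0 := by
    rw [WeierstrassCurve.map_Δ]
    exact (hΔ.map (IsLocalRing.residue R)).ne_zero
  rw [hred, H55K.DD.card_vc _ _ _ h0]

end H55G
end

-- from Lib.H55K.SQI
section

/-! # H55K, part S: in the inert case the local point can be taken in the kernel of reduction -/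

open NumberField IsDedekindDomain WeierstrassCurve

namespace H55K.S

open H55P (IQ embF eF LF Per IsHecke Pt ac Inert Dec Nm)
open H35P (WAB Ker tt)
open H13S (Abv)

variable {F : Type} [Field F] [NumberField F] [IQ F] {A B : F} {Om : ℂ} {Ω : Type} [Field Ω] [DecidableEq Ω]
  [Algebra F Ω] [IsAlgClosure F Ω] {j : Ω →+* ℂ} {act : 𝓞 F →+* AddMonoid.End (Pt (WAB A B) Ω)} {mo : Ideal (𝓞 F)}
  {ψ : Ideal (𝓞 F) →*₀ 𝓞 F}

omit [IsAlgClosure F Ω] in
theorem qi_unit (hA : CMA F A B Om j act) {V : ValuationSubring Ω} (hG : GV A B V) {u : 𝓞 F} (hu : IsUnit u)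
    {X : Pt (WAB A B) Ω} (hX : Ker V (act u X)) : Ker V X := by
  obtain ⟨v, hv⟩ := hu.exists_left_inv
  have h1 := kr_act hA hG v hX
  rwa [← act_mul, hv, act_one] at h1

omit [IsAlgClosure F Ω] in
/-- Multiplication by l is injective on the reduction (supersingular case). -/
theorem qi_l (hA : CMA F A B Om j act) {V : ValuationSubring Ω} (hG : GV A B V) {π : 𝓞 F} {l : ℕ}
    (hπ : Prime π) (hV : vo V π < 1) (hlπ : Associated (l : 𝓞 F) π)
    {X : Pt (WAB A B) Ω} (hX : Ker V (l • X)) : Ker V X := by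
  obtain ⟨u, hu⟩ := hlπ.symm
  rw [← act_nat (act := act), ← hu, act_mul] at hX
  exact qi_unit hA hG u.isUnit (ker_red hA hG hπ hV hX)

omit [IsAlgClosure F Ω] in
theorem qi_lpow (hA : CMA F A B Om j act) {V : ValuationSubring Ω} (hG : GV A B V) {π : 𝓞 F} {l : ℕ}
    (hπ : Prime π) (hV : vo V π < 1) (hlπ : Associated (l : 𝓞 F) π) (k : ℕ)
    {X : Pt (WAB A B) Ω} (hX : Ker V (l ^ k • X)) : Ker V X := by
  induction k with
  | zero => rwa [pow_zero, one_smul] at hX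
  | succ k ih =>
    rw [pow_succ', mul_smul] at hX
    exact ih (qi_l hA hG hπ hV hlπ hX)

/-- In the inert case the local point can be taken in the kernel of reduction. -/
theorem inert_point {π : 𝓞 F} {l : ℕ} {c : (Ω ≃ₐ[F] Ω) → Pt (WAB A B) Ω} (C : Cl A B Om j act mo ψ π l c)
    (hlπ : Associated (l : 𝓞 F) π) (V : ValuationSubring Ω) (hG : GV A B V) (hV : vo V π < 1) :
    ∃ Q : Pt (WAB A B) Ω, Ker V Q ∧ ∀ s, Inert V s → c s = ac (WAB A B) s Q - Q := by
  have hA := C.cma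
  have hl := C.hl
  have hVl : V.valuation (l : Ω) < 1 := by
    rw [← vo_nat (F := F), vo_assoc V hlπ (vo_le V)]
    exact hV
  obtain ⟨P, hP⟩ := C.loc V
  obtain ⟨n, hn0, hn⟩ := ker_fin (F := F) hG l hl hVl P
  obtain ⟨k, n', hn', hnn⟩ := Nat.exists_eq_pow_mul_and_not_dvd hn0.ne' l hl.ne_one
  have hK : Ker V (n' • P) := by
    rw [hnn, mul_smul] at hn
    exact qi_lpow hA hG C.pr hV hlπ k hn
  have hco : IsCoprime (n' : ℤ) (l : ℤ) := by
    rw [Nat.isCoprime_iff_coprime]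
    exact ((Nat.Prime.coprime_iff_not_dvd hl).2 hn').symm
  obtain ⟨a, b, hab⟩ := hco
  have hlc : ∀ s, (l : ℤ) • c s = 0 := by
    intro s
    obtain ⟨u, hu⟩ := C.dvd
    have h1 : (l : 𝓞 F) = cj u * cj π := by
      have h2 := congrArg cj hu
      rw [map_natCast, map_mul] at h2
      rw [h2, mul_comm]
    rw [natCast_zsmul, ← act_nat (act := act), h1, act_mul, mem_Tor.1 (C.val s), map_zero]
  refine ⟨a • (n' • P), ?_, fun s hs => ?_⟩
  · have h1 := kr_act hA hG (a : 𝓞 F) hK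
    have h2 : act (a : 𝓞 F) (n' • P) = a • (n' • P) := by
      rw [map_intCast]
      rfl
    rwa [h2] at h1
  · have h1 : c s = a • (n' • c s) := by
      have h2 : c s = ((a * n' + b * l : ℤ)) • c s := by rw [hab, one_smul]
      conv_lhs => rw [h2]
      rw [add_smul, mul_smul, mul_smul, hlc, smul_zero, add_zero, natCast_zsmul]
    rw [h1, hP s hs, map_zsmul, map_nsmul, smul_sub, smul_sub]

end H55K.S
end

-- from Lib.H55K.SQR
section

/-! # H55K, part S: port of H13S/QR -/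

open NumberField IsDedekindDomain WeierstrassCurve

namespace H55K.S

open H55P (IQ embF eF LF Per IsHecke Pt ac Inert Dec Nm)
open H35P (WAB Ker tt)
open H13S (Abv)




variable {F : Type} [Field F] [NumberField F] [IQ F] {A B : F} {Om : ℂ} {Ω : Type} [Field Ω] [DecidableEq Ω]
  [Algebra F Ω] [IsAlgClosure F Ω] {j : Ω →+* ℂ} {act : 𝓞 F →+* AddMonoid.End (Pt (WAB A B) Ω)} {mo : Ideal (𝓞 F)}
  {ψ : Ideal (𝓞 F) →*₀ 𝓞 F}

/-- Chunk QR (S/M). Ratios of parameters. tau = V.valuation (tt R), tau^(q-1) = vo V pi = r^q, r = V.valuation (tt Q) < 1, q = Nm pi ≥ 3, so tau < r and r^2 < tau (tau^(q-1) = r^q > r^(2(q-1))).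
kr_tt_add with c = r: V.valuation (tt (Q+R) - tt Q - tt R) ≤ r^2 < tau < r. So V.valuation (tt (Q+R)) = r and V.valuation (tt (Q + R) - tt Q) = tau. -/
theorem val_ratio (hA : CMA F A B Om j act) {π : 𝓞 F} (hπ : Prime π) (hq : 3 ≤ Nm π) (V : ValuationSubring Ω)
    (hG : GV A B V) (hV : vo V π < 1) (Q : Pt (WAB A B) Ω) (hQ : Ker V Q) (hv : V.valuation (tt Q) ^ Nm π = vo V π)
    (R : Pt (WAB A B) Ω) (hR : R ∈ Tor act π) (h0 : R ≠ 0) :
    V.valuation (tt (Q + R)) = V.valuation (tt Q) ∧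
      V.valuation (tt (Q + R) - tt Q) = V.valuation (tt R) ∧ V.valuation (tt R) < V.valuation (tt Q) := by
  obtain ⟨hKR, hτ⟩ : Ker V R ∧ V.valuation (tt R) ^ (Nm π - 1) = vo V π := tor_ram hA hG hπ hV hR h0
  have hπ0 : vo V π ≠ 0 := vo_ne V hπ.ne_zero
  set r := V.valuation (tt Q) with hr
  set τ := V.valuation (tt R) with hτd
  have hq1 : Nm π - 1 ≠ 0 := by omega
  have hr0 : r ≠ 0 := by
    intro h
    rw [h, zero_pow (by omega)] at hv
    exact hπ0 hv.symm
  have hr1 : r < 1 := H35P.tt_lt (gv_good hG).toIntW Q hQ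
  have hrp : 0 < r := zero_lt_iff.2 hr0
  have hlt : τ < r := by
    by_contra hle
    rw [not_lt] at hle
    have h1 : r ^ (Nm π - 1) ≤ τ ^ (Nm π - 1) := pow_le_pow_left₀ zero_le hle _
    rw [hτ, ← hv] at h1
    exact absurd h1 (not_le.2 (pow_lt_pow_right_of_lt_one₀ hrp hr1 (by omega)))
  have hlt2 : r ^ 2 < τ := by
    by_contra hle
    rw [not_lt] at hle
    have h1 : τ ^ (Nm π - 1) ≤ (r ^ 2) ^ (Nm π - 1) := pow_le_pow_left₀ zero_le hle _
    rw [hτ, ← hv, ← pow_mul] at h1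
    exact absurd h1 (not_le.2 (pow_lt_pow_right_of_lt_one₀ hrp hr1 (by omega)))
  have hadd := tt_add2 hG hQ hKR r le_rfl hlt.le
  have h4 : V.valuation (tt (Q + R) - tt Q) = τ := by
    have : tt (Q + R) - tt Q = (tt (Q + R) - tt Q - tt R) + tt R := by ring
    rw [this]
    exact Valuation.map_add_eq_of_lt_right _ (lt_of_le_of_lt hadd hlt2)
  have h5 : V.valuation (tt (Q + R)) = r := by
    have : tt (Q + R) = (tt (Q + R) - tt Q) + tt Q := by ring
    rw [this]
    exact Valuation.map_add_eq_of_lt_right _ (by rw [h4]; exact hlt)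
  exact ⟨h5, h4, hlt⟩

end H55K.S
end

-- from Lib.H55K.SLD
section

/-! # H55K, part S: port of H13S/LD3 -/

open NumberField IsDedekindDomain WeierstrassCurve

namespace H55K.S

open H55P (IQ embF eF LF Per IsHecke Pt ac Inert Dec Nm)
open H35P (WAB Ker tt)
open H13S (Abv)






variable {F : Type} [Field F] [NumberField F] [IQ F] {A B : F} {Om : ℂ} {Ω : Type} [Field Ω] [DecidableEq Ω]
  [Algebra F Ω] [IsAlgClosure F Ω] {j : Ω →+* ℂ} {act : 𝓞 F →+* AddMonoid.End (Pt (WAB A B) Ω)} {mo : Ideal (𝓞 F)}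
  {ψ : Ideal (𝓞 F) →*₀ 𝓞 F}

theorem ld3_e0 {π : 𝓞 F} {l : ℕ} (hl : l ≠ 0) {e : Pt (WAB A B) Ω → Pt (WAB A B) Ω → Ω} (he : Pairing A B act π l e) {T : Pt (WAB A B) Ω}
    (hT : T ∈ Tor act π) : e 0 T = 1 := by
  have h0 : (0 : Pt (WAB A B) Ω) ∈ Tor act (cj π) := AddSubgroup.zero_mem _
  have h1 := he.add_left 0 h0 0 h0 T hT
  have h2 := he.root 0 h0 T hT
  rw [add_zero] at h1
  have h3 : e 0 T ≠ 0 := by
    intro h
    rw [h, zero_pow hl] at h2
    exact zero_ne_one h2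
  exact (mul_eq_left₀ h3).1 h1.symm

theorem ld3_e0' {π : 𝓞 F} {l : ℕ} (hl : l ≠ 0) {e : Pt (WAB A B) Ω → Pt (WAB A B) Ω → Ω} (he : Pairing A B act π l e) {X : Pt (WAB A B) Ω}
    (hX : X ∈ Tor act (cj π)) : e X 0 = 1 := by
  have h0 : (0 : Pt (WAB A B) Ω) ∈ Tor act π := AddSubgroup.zero_mem _
  have h1 := he.add_right X hX 0 h0 0 h0
  have h2 := he.root X hX 0 h0
  rw [add_zero] at h1
  have h3 : e X 0 ≠ 0 := by
    intro h
    rw [h, zero_pow hl] at h2
    exact zero_ne_one h2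
  exact (mul_eq_left₀ h3).1 h1.symm

/-- Step D (final step for the level in the inert case). -/
theorem level_inert {π : 𝓞 F} {l : ℕ} {c : (Ω ≃ₐ[F] Ω) → Pt (WAB A B) Ω} (C : Cl A B Om j act mo ψ π l c) (hlπ : Associated (l : 𝓞 F) π)
    (hin : Tor act (cj π) = Tor act π) (hq : Nm π = l ^ 2) {e : Pt (WAB A B) Ω → Pt (WAB A B) Ω → Ω} (he : Pairing A B act π l e) {L : IntermediateField F Ω} (hL : H55K.S.IsTF act π L)
    [NumberField L] (V : ValuationSubring Ω) (hG : GV A B V) (hV : vo V π < 1) (w : HeightOneSpectrum (𝓞 L)) (hw : Abv L V w)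
    (T : Pt (WAB A B) Ω) (hT : T ∈ Tor act π) (m : L) (hm : m ≠ 0) (y : Ω) (hyk : Kum L e c T y) (hy : y ^ l = (m : Ω)) :
    ∃ z : L, z ≠ 0 ∧ w.valuation L (m / z ^ l - 1) ≤ WithZero.exp (-2 : ℤ) := by
  classical
  have hA := C.cma
  have hchar : CharZero Ω := charZero_of_injective_algebraMap (algebraMap F Ω).injective
  have hl0 : l ≠ 0 := C.hl.ne_zero
  have hVl : V.valuation (l : Ω) = vo V π := by rw [← vo_nat (F := F), vo_assoc V hlπ (vo_le V)]
  have hVl1 : V.valuation (l : Ω) < 1 := hVl ▸ hV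
  by_contra hlev
  have hex : ∃ s ∈ L.fixingSubgroup, Inert V s ∧ s y ≠ y := by
    by_contra hcon
    push Not at hcon
    exact hlev (H13S.level_unr L V w hw l C.hl hVl1 m hm y hy hcon)
  obtain ⟨s₁, hs1, hi1, hne1⟩ := hex
  have hTfix : ∀ s ∈ L.fixingSubgroup, ∀ R ∈ Tor act π, ac (WAB A B) s R = R := fun s hs => (hL.2 s).1 hs
  have hcT : ∀ s, c s ∈ Tor act π := fun s => by
    have := C.val s
    rwa [hin] at this
  have hc1 : c s₁ ≠ 0 := by
    intro h0
    apply hne1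
    rw [hyk.2 s₁ hs1, h0, ld3_e0 hl0 he hT, one_mul]
  have hT0 : T ≠ 0 := by
    intro h0
    apply hne1
    rw [hyk.2 s₁ hs1, h0, ld3_e0' hl0 he (C.val _), one_mul]
  obtain ⟨Q, hQ, hQc⟩ := inert_point C hlπ V hG hV
  have hr := val_point C hin V hG hV Q hQ hQc L hL s₁ hs1 hi1 hc1
  have hq3 : 3 ≤ Nm π := by
    rw [hq]
    nlinarith [C.five]
  have hvr := fun R (hR : R ∈ Tor act π) (h0 : R ≠ 0) => val_ratio hA C.pr hq3 V hG hV Q hQ hr R hR h0
  have hcard : Nat.card (Tor act π) = Nm π := (gi_gen hA π C.pr).1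
  have hfin : Finite (Tor act π) := Nat.finite_of_card_ne_zero (by rw [hcard]; omega)
  have hV0 : vo V π ≠ 0 := by
    unfold vo
    rw [Ne, map_eq_zero, map_eq_zero]
    exact_mod_cast C.pr.ne_zero
  have hQ0 : V.valuation (tt Q) ≠ 0 := by
    intro h0
    rw [h0, zero_pow (by omega)] at hr
    exact hV0 hr.symm
  -- the set J
  have hJfin : {R : Pt (WAB A B) Ω | ∃ h ∈ L.fixingSubgroup, Inert V h ∧ h y = y ∧ c h = R}.Finite := by
    refine Set.Finite.subset (Set.toFinite (Tor act π : Set (Pt (WAB A B) Ω))) ?_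
    rintro R ⟨h, -, -, -, rfl⟩
    exact hcT h
  set J : Finset (Pt (WAB A B) Ω) := hJfin.toFinset with hJ
  have hJmem : ∀ R, R ∈ J ↔ ∃ h ∈ L.fixingSubgroup, Inert V h ∧ h y = y ∧ c h = R := fun R => by
    rw [hJ, Set.Finite.mem_toFinset]
    rfl
  have hJT : ∀ R ∈ J, R ∈ Tor act π := fun R hR => by
    obtain ⟨h, -, -, -, rfl⟩ := (hJmem R).1 hR
    exact hcT h
  have hJcard : J.card ≤ Nm π := by
    rw [← hcard]
    have h1 : (J : Set (Pt (WAB A B) Ω)) ⊆ (Tor act π : Set (Pt (WAB A B) Ω)) := fun R hR => hJT R hR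
    calc J.card = Set.ncard (J : Set (Pt (WAB A B) Ω)) := (Set.ncard_coe_finset J).symm
      _ ≤ Set.ncard (Tor act π : Set (Pt (WAB A B) Ω)) := Set.ncard_le_ncard h1 (Set.toFinite _)
      _ = Nat.card (Tor act π) := rfl
  have hJ0 : (0 : Pt (WAB A B) Ω) ∈ J := (hJmem 0).2 ⟨1, Subgroup.one_mem _, fun x _ => by simp, rfl, C.one⟩
  have hcadd : ∀ h ∈ L.fixingSubgroup, ∀ h' , c (h * h') = c h + c h' := fun h hh h' => by
    rw [C.mul, hTfix h hh _ (hcT h')]
  have hcinv : ∀ h ∈ L.fixingSubgroup, c h⁻¹ = -c h := fun h hh => by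
    have h1 := hcadd h hh h⁻¹
    rw [mul_inv_cancel, C.one] at h1
    exact (neg_eq_of_add_eq_zero_right h1.symm).symm
  -- values
  have hval : ∀ R ∈ Tor act π, V.valuation (tt (Q + R)) = V.valuation (tt Q) := fun R hR => by
    by_cases h0 : R = 0
    · rw [h0, add_zero]
    · exact (hvr R hR h0).1
  have htau : ∀ R ∈ Tor act π, R ≠ 0 → V.valuation (tt R) = V.valuation (tt T) := fun R hR h0 => by
    have h1 := (kr_tor_ram hA hG π C.pr hV hR h0).2
    have h2 := (kr_tor_ram hA hG π C.pr hV hT hT0).2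
    exact (pow_left_inj₀ zero_le zero_le (by omega)).1 (h1.trans h2.symm)
  have hTQ : V.valuation (tt T) < V.valuation (tt Q) := (hvr T hT hT0).2.2
  have hTv : V.valuation (tt T) ^ (Nm π - 1) = vo V π := (kr_tor_ram hA hG π C.pr hV hT hT0).2
  have hT0' : V.valuation (tt T) ≠ 0 := by
    intro h0
    rw [h0, zero_pow (by omega)] at hTv
    exact hV0 hTv.symm
  obtain ⟨a, ha⟩ : ∃ a, a = V.valuation (tt T) / V.valuation (tt Q) := ⟨_, rfl⟩
  have ha1 : a < 1 := by
    rw [ha]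
    exact (div_lt_one₀ (zero_lt_iff.2 hQ0)).2 hTQ
  have ha0 : 0 < a := by
    rw [ha, zero_lt_iff]
    exact div_ne_zero hT0' hQ0
  have haq : a ^ (Nm π * (Nm π - 1)) = vo V π := by
    have h1 : V.valuation (tt T) ^ (Nm π * (Nm π - 1)) = vo V π ^ Nm π := by
      rw [mul_comm, pow_mul, hTv]
    have h2 : V.valuation (tt Q) ^ (Nm π * (Nm π - 1)) = vo V π ^ (Nm π - 1) := by
      rw [pow_mul, hr]
    have h3 : vo V π ^ Nm π = vo V π ^ (Nm π - 1) * vo V π := by
      rw [← pow_succ]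
      congr 1
      omega
    rw [ha, div_pow, h1, h2, h3]
    exact mul_div_cancel_left₀ _ (pow_ne_zero _ hV0)
  -- the bound
  have hbd := H13S.prod_bound V J hJ0 (fun R => tt T / tt (Q + R))
    (fun R hR => by
      rw [map_div₀, hval R (hJT R hR), ← ha]
      exact ha1.le)
    {σ : Ω ≃+* Ω | ∃ h ∈ L.fixingSubgroup, Inert V h ∧ h y = y ∧ σ = (h : Ω ≃+* Ω)}
    (by
      rintro σ ⟨h, hh, hih, hhy, rfl⟩
      refine ⟨c h, fun R hR => ?_, fun R => ⟨fun hR => ?_, fun hR => ?_⟩⟩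
      · change h (tt T / tt (Q + R)) = tt T / tt (Q + (R + c h))
        rw [map_div₀, ← tt_ac, ← tt_ac, hTfix h hh T hT, map_add, hTfix h hh R (hJT R hR)]
        have h1 : ac (WAB A B) h Q = c h + Q := by
          rw [hQc h hih, sub_add_cancel]
        rw [h1]
        congr 2
        abel
      · obtain ⟨k, hk, hik, hky, rfl⟩ := (hJmem R).1 hR
        refine (hJmem _).2 ⟨k * h, Subgroup.mul_mem _ hk hh, H13S.ld3_mul hik hih, ?_, hcadd k hk h⟩
        change k (h y) = y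
        rw [hhy, hky]
      · obtain ⟨k, hk, hik, hky, hkc⟩ := (hJmem _).1 hR
        refine (hJmem _).2 ⟨k * h⁻¹, Subgroup.mul_mem _ hk (Subgroup.inv_mem _ hh),
          H13S.ld3_mul hik (H13S.ld3_inv hih), ?_, ?_⟩
        · change k (h⁻¹ y) = y
          have h1 : h⁻¹ y = y := by
            have h2 : h⁻¹ (h y) = y := AlgEquiv.symm_apply_apply h y
            rwa [hhy] at h2
          rw [h1, hky]
        · rw [hcadd k hk, hcinv h hh, hkc, add_neg_cancel_right])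
    (s₁ : Ω ≃+* Ω) (l - 1) (V.valuation (l : Ω))
    (fun b hb hf => H13S.coef_bound L V w hw l C.hl (by have := C.five; omega) hVl1
      (mu_mem hA C.hl C.pr hin he hL) m hm y hy hlev b hb
      (fun s hs hi hsy => hf (s : Ω ≃+* Ω) ⟨s, hs, hi, hsy, rfl⟩) s₁ hs1 hi1)
  have hterm : ∀ R ∈ J, V.valuation (tt T / tt (Q + 0) - (s₁ : Ω ≃+* Ω) (tt T / tt (Q + R))) = a ^ 2 := by
    intro R hR
    have hR' := hJT R hR
    have h0 : R + c s₁ ≠ 0 := by
      intro h0
      obtain ⟨k, hk, hik, hky, hkc⟩ := (hJmem R).1 hR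
      apply hne1
      have h1 : c s₁ = c k⁻¹ := by
        rw [hcinv k hk, hkc]
        exact eq_neg_of_add_eq_zero_right h0
      have h2 : k⁻¹ y = y := by
        have h3 : k⁻¹ (k y) = y := AlgEquiv.symm_apply_apply k y
        rwa [hky] at h3
      rw [hyk.2 s₁ hs1, h1, ← hyk.2 k⁻¹ (Subgroup.inv_mem _ hk), h2]
    have hT' : R + c s₁ ∈ Tor act π := AddSubgroup.add_mem _ hR' (hcT s₁)
    have e1 : (s₁ : Ω ≃+* Ω) (tt T / tt (Q + R)) = tt T / tt (Q + (R + c s₁)) := by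
      change s₁ (tt T / tt (Q + R)) = _
      rw [map_div₀, ← tt_ac, ← tt_ac, hTfix s₁ hs1 T hT, map_add, hTfix s₁ hs1 R hR']
      have h1 : ac (WAB A B) s₁ Q = c s₁ + Q := by
        rw [hQc s₁ hi1, sub_add_cancel]
      rw [h1]
      congr 2
      abel
    rw [e1, add_zero]
    have hv1 := hvr _ hT' h0
    have hne2 : tt (Q + (R + c s₁)) ≠ 0 := by
      intro h1
      rw [h1, map_zero] at hv1
      exact hQ0 hv1.1.symm
    have hne3 : tt Q ≠ 0 := by
      intro h1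
      rw [h1, map_zero] at hQ0
      exact hQ0 rfl
    have e2 : tt T / tt Q - tt T / tt (Q + (R + c s₁)) =
        tt T * (tt (Q + (R + c s₁)) - tt Q) / (tt Q * tt (Q + (R + c s₁))) := by
      field_simp
    rw [e2, map_div₀, map_mul, map_mul, hv1.1, hv1.2.1, htau _ hT' h0, ha, div_pow, sq, sq]
  rw [Finset.prod_congr rfl (fun R hR => rfl), map_prod] at hbd
  rw [Finset.prod_congr rfl hterm, Finset.prod_const, hVl, ← haq, ← pow_mul, ← pow_mul] at hbd
  have h1 := (pow_le_pow_iff_right_of_lt_one₀ ha0 ha1).1 hbd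
  have h2 : 2 * J.card * (l - 1) ≤ 2 * Nm π * (l - 1) := by
    exact Nat.mul_le_mul_right _ (Nat.mul_le_mul_left _ hJcard)
  have h3 : Nm π * (Nm π - 1) ≤ Nm π * (2 * (l - 1)) := by
    calc Nm π * (Nm π - 1) ≤ 2 * (J.card * (l - 1)) := h1
      _ = 2 * J.card * (l - 1) := by ring
      _ ≤ 2 * Nm π * (l - 1) := h2
      _ = Nm π * (2 * (l - 1)) := by ring
  have h4 := Nat.le_of_mul_le_mul_left h3 (by omega)
  rw [hq] at h4
  have h5 := C.five
  have h6 : l * l = l ^ 2 := by ring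
  have h7 : 5 * l ≤ l ^ 2 := by
    rw [← h6]
    exact Nat.mul_le_mul_right l h5
  omega

end H55K.S
end

-- from Lib.H55K.SNA
section

/-! # H55K, part S: the valuations at the primes above the conjugate of pi, without a condition on the number of points -/

open NumberField IsDedekindDomain WeierstrassCurve

namespace H55K.S

open H55P (IQ embF eF LF Per IsHecke Pt ac Inert Dec Nm)
open H35P (WAB Ker tt)
open H13S (Abv)

variable {F : Type} [Field F] [NumberField F] [IQ F] {A B : F} {Om : ℂ} {Ω : Type} [Field Ω] [DecidableEq Ω]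
  [Algebra F Ω] [IsAlgClosure F Ω] {j : Ω →+* ℂ} {act : 𝓞 F →+* AddMonoid.End (Pt (WAB A B) Ω)} {mo : Ideal (𝓞 F)}
  {ψ : Ideal (𝓞 F) →*₀ 𝓞 F}

/-- The size of a local point Q in the kernel of reduction, with all ac s Q - Q killed by β but no translate fixed by inertia. -/
theorem na_point (hA : CMA F A B Om j act) {β : 𝓞 F} (hβ : Prime β) (hq3 : 3 ≤ Nm β)
    (V : ValuationSubring Ω) (hG : GV A B V) (hV : vo V β < 1) (Q : Pt (WAB A B) Ω) (hQ : Ker V Q)
    (hc : ∀ s, Inert V s → ac (WAB A B) s Q - Q ∈ Tor act β)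
    (hno : ¬ ∃ R ∈ Tor act β, ∀ s, Inert V s → ac (WAB A B) s (Q + R) = Q + R) :
    V.valuation (tt Q) ^ Nm β = vo V β := by
  have hF : IsAlgClosed Ω := IsAlgClosure.isAlgClosed F
  have hal : Algebra.IsAlgebraic F Ω := IsAlgClosure.isAlgebraic
  set ϖ := vo V β with hϖ
  set q := Nm β with hq
  have hϖ0 : ϖ ≠ 0 := vo_ne V hβ.ne_zero
  have hϖp : 0 < ϖ := zero_lt_iff.2 hϖ0
  -- the value of the points killed by pi
  obtain ⟨-, R₀, hR₀T, -, hR₀z⟩ := gi_gen hA β hβ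
  have hR₀0 : R₀ ≠ 0 := by
    intro h
    have h3 : act (1 : 𝓞 F) R₀ = 0 := by rw [h, map_zero]
    exact hβ.not_isUnit (isUnit_of_dvd_one ((hR₀z 1).1 h3))
  obtain ⟨hR₀K, hR₀q⟩ : Ker V R₀ ∧ V.valuation (tt R₀) ^ (Nm β - 1) = vo V β := kr_tor_ram hA hG β hβ hV hR₀T hR₀0
  set τ := V.valuation (tt R₀) with hτ
  have hτ0 : 0 < τ := by
    rw [zero_lt_iff]
    intro h
    have h4 : τ ^ (q - 1) = ϖ := hR₀q
    rw [h, zero_pow (by omega)] at h4
    exact hϖ0 h4.symm
  have hτ1 : τ < 1 := kr_tt_lt hG hR₀K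
  have hTorN : ∀ R ∈ Tor act β, R ≠ 0 → V.valuation (tt R) = τ := by
    intro R hR h0
    obtain ⟨h4, h5⟩ := kr_tor_ram hA hG β hβ hV hR h0
    have h6 : V.valuation (tt R) ^ (q - 1) = τ ^ (q - 1) := h5.trans hR₀q.symm
    exact (pow_left_inj₀ zero_le zero_le (by omega)).1 h6
  have hTor : ∀ R ∈ Tor act β, Ker V R ∧ V.valuation (tt R) ≤ τ := by
    intro R hR
    by_cases h0 : R = 0
    · rw [h0]
      refine ⟨ker_zero V, ?_⟩
      have : tt (0 : Pt (WAB A B) Ω) = 0 := rfl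
      rw [this, map_zero]
      exact zero_le
    · obtain ⟨h4, h5⟩ := kr_tor_ram hA hG β hβ hV hR h0
      refine ⟨h4, le_of_eq ?_⟩
      have h6 : V.valuation (tt R) ^ (q - 1) = τ ^ (q - 1) := h5.trans hR₀q.symm
      exact (pow_left_inj₀ zero_le zero_le (by omega)).1 h6
  -- translates
  have hlow : ∀ R ∈ Tor act β, Ker V (Q + R) ∧ τ ≤ V.valuation (tt (Q + R)) := by
    intro R hR
    have hK := kr_add hG hQ (hTor R hR).1
    refine ⟨hK, ?_⟩
    obtain ⟨s₀, h2, h3⟩ : ∃ s, Inert V s ∧ ac (WAB A B) s (Q + R) ≠ Q + R := by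
      by_contra hcon
      push Not at hcon
      exact hno ⟨R, hR, hcon⟩
    have hD : ac (WAB A B) s₀ (Q + R) + -(Q + R) ∈ Tor act β := by
      have e : ac (WAB A B) s₀ (Q + R) + -(Q + R) = (ac (WAB A B) s₀ Q - Q) + (ac (WAB A B) s₀ R - R) := by
        rw [map_add]
        abel
      rw [e]
      exact (Tor act β).add_mem (hc s₀ h2) ((Tor act β).sub_mem (ac_mem hA s₀ hR) hR)
    have hD0 : ac (WAB A B) s₀ (Q + R) + -(Q + R) ≠ 0 := by
      rw [← sub_eq_add_neg]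
      exact sub_ne_zero.2 h3
    obtain ⟨n1, n2⟩ := qv_neg hA hG hK
    have e2 : V.valuation (tt (ac (WAB A B) s₀ (Q + R))) = V.valuation (tt (Q + R)) := by
      rw [tt_ac, qv_val V s₀ h2]
    rw [← hTorN _ hD hD0]
    exact qv_add hG (kr_dec s₀ (in_dec s₀ h2) hK) n1 _ (kr_tt_lt hG hK).le e2.le n2
  -- the point X₀
  have hX₀K := kr_act hA hG β hQ
  have hprod := kr_prod hA hG β hβ hV hQ
  obtain ⟨hcard, -⟩ := gi_gen hA β hβ
  have hfin : Finite (Tor act β) := by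
    apply Nat.finite_of_card_ne_zero
    rw [hcard]
    omega
  let _ : Fintype (Tor act β) := Fintype.ofFinite _
  rw [finprod_eq_prod_of_fintype] at hprod
  have hX₀v : V.valuation (tt (act β Q)) ≠ 0 := by
    rw [← hprod]
    refine Finset.prod_ne_zero_iff.2 fun R _ => ?_
    exact (hτ0.trans_le (hlow R.1 R.2).2).ne'
  have hX₀t : tt (act β Q) ≠ 0 := (Valuation.ne_zero_iff _).1 hX₀v
  have hfix : ∀ s ∈ (⊥ : IntermediateField F Ω).fixingSubgroup, Inert V s →
      s (tt (act β Q)) = tt (act β Q) := by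
    intro s _ hs
    have e1 : ac (WAB A B) s Q = Q + (ac (WAB A B) s Q - Q) := by
      abel
    rw [← tt_ac, ac_act hA, e1, map_add, mem_Tor.1 (hc s hs), add_zero]
  have hNF : NumberField (⊥ : IntermediateField F Ω) := NumberField.of_module_finite F _
  obtain ⟨a, ha, hva⟩ := H13S.value_fixed (⊥ : IntermediateField F Ω) V _ hX₀t hfix
  obtain ⟨a', ha'⟩ := IntermediateField.mem_bot.1 a.2
  have ha'0 : a' ≠ 0 := by
    rintro rfl
    rw [map_zero] at ha'
    exact ha (Subtype.ext ha'.symm)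
  obtain ⟨k, hk⟩ := qv_intpow V hβ hV a' ha'0
  rw [ha'] at hk
  have hXk : V.valuation (tt (act β Q)) = ϖ ^ k := hva.trans hk
  have hk1 : 0 < k := by
    by_contra hcon
    push Not at hcon
    have h4 : V.valuation (tt (act β Q)) < 1 := kr_tt_lt hG hX₀K
    rw [hXk] at h4
    have h5 : 1 ≤ ϖ ^ k := by
      rw [← neg_neg k, zpow_neg]
      have h6 : 0 < ϖ ^ (-k) := zpow_pos hϖp _
      rw [one_le_inv₀ h6]
      obtain ⟨n, hn⟩ := Int.eq_ofNat_of_zero_le (neg_nonneg.2 hcon)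
      rw [hn]
      exact pow_le_one' hV.le n
    exact absurd h4 (not_lt.2 h5)
  obtain ⟨n, rfl⟩ := Int.eq_ofNat_of_zero_le hk1.le
  have hn1 : 0 < n := by exact_mod_cast hk1
  have hXn : V.valuation (tt (act β Q)) = ϖ ^ n := hXk
  -- strict monotonicity of the powers
  have hlt : ∀ i j : ℕ, ϖ ^ i < ϖ ^ j → j < i := by
    intro i j h
    by_contra hcon
    push Not at hcon
    exact absurd h (not_lt.2 (pow_le_pow_right_of_le_one' hV.le hcon))
  have heq : ∀ i j : ℕ, ϖ ^ i = ϖ ^ j → i = j := by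
    have hanti : StrictAnti (fun i : ℕ => ϖ ^ i) := by
      refine strictAnti_nat_of_succ_lt fun i => ?_
      rw [pow_succ]
      calc ϖ ^ i * ϖ < ϖ ^ i * 1 := mul_lt_mul_of_pos_left hV (pow_pos hϖp i)
        _ = ϖ ^ i := mul_one _
    exact fun i j h => hanti.injective h
  have hcard' : Fintype.card (Tor act β) = q := by
    rw [← Nat.card_eq_fintype_card]
    exact hcard
  have hQlow : τ ≤ V.valuation (tt Q) := by
    have := (hlow 0 (Tor act β).zero_mem).2
    rwa [add_zero] at this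
  have hQ1 : V.valuation (tt Q) < 1 := kr_tt_lt hG hQ
  rcases hQlow.lt_or_eq with hgt | heq'
  · have hall : ∀ R : Tor act β, V.valuation (tt (Q + (R : Pt (WAB A B) Ω))) = V.valuation (tt Q) := by
      intro R
      have h4 := (hTor R.1 R.2).2
      have h5 := kr_tt_add hG hQ (hTor R.1 R.2).1 (V.valuation (tt Q)) le_rfl (h4.trans hQlow)
      have h6 : V.valuation (tt Q) ^ 2 < V.valuation (tt Q) := by
        rw [sq]
        calc V.valuation (tt Q) * V.valuation (tt Q) < V.valuation (tt Q) * 1 :=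
              mul_lt_mul_of_pos_left hQ1 (hτ0.trans hgt)
          _ = _ := mul_one _
      have e : tt (Q + (R : Pt (WAB A B) Ω)) = tt Q + ((tt (Q + (R : Pt (WAB A B) Ω)) - tt Q - tt (R : Pt (WAB A B) Ω)) + tt (R : Pt (WAB A B) Ω)) := by
        ring
      rw [e]
      exact Valuation.map_add_eq_of_lt_left _ (Valuation.map_add_lt _ (h5.trans_lt h6) (h4.trans_lt hgt))
    rw [Finset.prod_congr rfl fun R _ => hall R, Finset.prod_const, Finset.card_univ, hcard', hXn] at hprod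
    have h7 : τ ^ (q * (q - 1)) < V.valuation (tt Q) ^ (q * (q - 1)) :=
      pow_lt_pow_left₀ hgt zero_le (Nat.mul_ne_zero (by omega) (by omega))
    have h8 : ϖ ^ q < ϖ ^ (n * (q - 1)) := by
      calc ϖ ^ q = τ ^ (q * (q - 1)) := by
            rw [mul_comm, pow_mul]
            exact congrArg (fun z => z ^ q) hR₀q.symm
        _ < V.valuation (tt Q) ^ (q * (q - 1)) := h7
        _ = ϖ ^ (n * (q - 1)) := by rw [pow_mul, hprod, ← pow_mul]
    have h9 := hlt _ _ h8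
    have hn : n = 1 := by
      by_contra hne
      have hn2 : 2 ≤ n := by omega
      have h10 : 2 * (q - 1) ≤ n * (q - 1) := Nat.mul_le_mul_right _ hn2
      omega
    rw [hn, pow_one] at hprod
    exact hprod
  · exfalso
    have hall : ∀ R : Tor act β, V.valuation (tt (Q + (R : Pt (WAB A B) Ω))) = τ := by
      intro R
      refine le_antisymm ?_ (hlow R.1 R.2).2
      exact qv_add hG hQ (hTor R.1 R.2).1 τ hτ1.le heq'.symm.le (hTor R.1 R.2).2
    rw [Finset.prod_congr rfl fun R _ => hall R, Finset.prod_const, Finset.card_univ, hcard', hXn] at hprod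
    have h8 : ϖ ^ q = ϖ ^ (n * (q - 1)) := by
      calc ϖ ^ q = τ ^ (q * (q - 1)) := by
            rw [mul_comm, pow_mul]
            exact congrArg (fun z => z ^ q) hR₀q.symm
        _ = ϖ ^ (n * (q - 1)) := by rw [pow_mul, hprod, ← pow_mul]
    have h9 := heq _ _ h8
    have h10 : (q - 1) ∣ q := ⟨n, h9.trans (mul_comm _ _)⟩
    have h11 : (q - 1) ∣ 1 := by
      have h12 := Nat.dvd_sub h10 (dvd_refl (q - 1))
      have e : q - (q - 1) = 1 := by omega
      rwa [e] at h12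
    have h12 := Nat.le_of_dvd one_pos h11
    omega

/-- Values of elements fixed by inertia. -/
theorem na_fix {β : 𝓞 F} (hβ : Prime β) {V : ValuationSubring Ω} (hV : vo V β < 1) {x : Ω} (hx : x ≠ 0)
    (h : ∀ s : Ω ≃ₐ[F] Ω, Inert V s → s x = x) : ∃ k : ℤ, V.valuation x = vo V β ^ k := by
  have hNF : NumberField (⊥ : IntermediateField F Ω) := NumberField.of_module_finite F _
  obtain ⟨a, ha, hva⟩ := H13S.value_fixed (⊥ : IntermediateField F Ω) V x hx fun s _ hs => h s hs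
  obtain ⟨a', ha'⟩ := IntermediateField.mem_bot.1 a.2
  have ha'0 : a' ≠ 0 := by
    rintro rfl
    rw [map_zero] at ha'
    exact ha (Subtype.ext ha'.symm)
  obtain ⟨k, hk⟩ := qv_intpow V hβ hV a' ha'0
  rw [ha'] at hk
  exact ⟨k, hva.trans hk⟩

section pure

variable {Ω : Type} [Field Ω]

/-- The value of ζ - 1. -/
theorem na_root (V : ValuationSubring Ω) (l : ℕ) (hl : l.Prime) (ζ : Ω) (hζ : ζ ^ l = 1) (h1 : ζ ≠ 1) :
    V.valuation (ζ - 1) ^ (l - 1) ≤ V.valuation (l : Ω) := by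
  have hl2 := hl.two_le
  have hv1 : V.valuation ζ = 1 := by
    apply H13Z.lf1_one _ l hl.ne_zero
    rw [← map_pow, hζ, map_one]
  have hpr : IsPrimitiveRoot ζ l := by
    have : Fact l.Prime := ⟨hl⟩
    have := orderOf_eq_prime hζ h1
    rw [← this]
    exact IsPrimitiveRoot.orderOf ζ
  have key : ∀ j ∈ Finset.range (l - 1), V.valuation (1 - ζ) ≤ V.valuation (1 - ζ ^ (j + 1)) := by
    intro j hj
    rw [Finset.mem_range] at hj
    have hcop : Nat.Coprime (j + 1) l := by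
      rw [Nat.coprime_comm]
      refine (Nat.Prime.coprime_iff_not_dvd hl).2 ?_
      intro hd
      have := Nat.le_of_dvd (by omega) hd
      omega
    obtain ⟨k, hk⟩ := Nat.exists_mul_mod_eq_one_of_coprime hcop (by omega)
    have hz : ζ = (ζ ^ (j + 1)) ^ k := by
      rw [← pow_mul]
      conv_lhs => rw [← pow_one ζ, ← hk.2]
      exact (pow_eq_pow_mod _ hζ).symm
    have e1 : (1 - ζ : Ω) = (1 - ζ ^ (j + 1)) * ∑ i ∈ Finset.range k, (ζ ^ (j + 1)) ^ i := by
      rw [mul_comm, geom_sum_mul_neg, ← hz]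
    rw [e1, map_mul]
    have e2 : V.valuation (∑ i ∈ Finset.range k, (ζ ^ (j + 1)) ^ i) ≤ 1 := by
      apply Valuation.map_sum_le
      intro i _
      rw [map_pow, map_pow, hv1, one_pow, one_pow]
    calc V.valuation (1 - ζ ^ (j + 1)) * V.valuation (∑ i ∈ Finset.range k, (ζ ^ (j + 1)) ^ i)
        ≤ V.valuation (1 - ζ ^ (j + 1)) * 1 := by gcongr
      _ = _ := mul_one _
  have hprod : ∏ k ∈ Finset.range (l - 1), (1 - ζ ^ (k + 1)) = (l : Ω) := by
    have hpr' : IsPrimitiveRoot ζ ((l - 1) + 1) := by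
      have : l - 1 + 1 = l := by omega
      rw [this]; exact hpr
    rw [hpr'.prod_one_sub_pow_eq_order]
    have : ((l - 1 : ℕ) : Ω) + 1 = ((l - 1 + 1 : ℕ) : Ω) := by push_cast; ring
    rw [this]
    congr 1
    omega
  rw [← hprod, map_prod, Valuation.map_sub_swap]
  calc V.valuation (1 - ζ) ^ (l - 1) = ∏ _k ∈ Finset.range (l - 1), V.valuation (1 - ζ) := by
        rw [Finset.prod_const, Finset.card_range]
    _ ≤ _ := Finset.prod_le_prod' key

/-- Terms with different values are not larger than the sum. -/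
theorem na_sum (V : ValuationSubring Ω) (l : ℕ) (A : ℕ → Ω)
    (hd : ∀ i < l, ∀ k < l, i ≠ k → A i ≠ 0 → V.valuation (A i) ≠ V.valuation (A k)) :
    ∀ i < l, V.valuation (A i) ≤ V.valuation (∑ k ∈ Finset.range l, A k) := by
  intro i hi
  obtain ⟨n, hn, hmax⟩ := Finset.exists_max_image (Finset.range l) (fun k => V.valuation (A k))
    ⟨i, Finset.mem_range.2 hi⟩
  refine (hmax i (Finset.mem_range.2 hi)).trans ?_
  by_cases h0 : A n = 0
  · show V.valuation (A n) ≤ _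
    rw [h0, map_zero]
    exact zero_le
  · rw [← Finset.add_sum_erase _ _ hn]
    have h1 : V.valuation (∑ k ∈ (Finset.range l).erase n, A k) < V.valuation (A n) := by
      refine Valuation.map_sum_lt _ ((Valuation.ne_zero_iff _).2 h0) fun k hk => ?_
      obtain ⟨h2, h3⟩ := Finset.mem_erase.1 hk
      refine lt_of_le_of_ne (hmax k h3) fun h4 => ?_
      exact hd n (Finset.mem_range.1 hn) k (Finset.mem_range.1 h3) (Ne.symm h2) h0 h4.symm
    exact (Valuation.map_add_eq_of_lt_left _ h1).ge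

/-- Lagrange resolvents. -/
theorem na_res {G : Type} [AddCommGroup G] [Fintype G] [DecidableEq G] {l : ℕ} (hl : l.Prime) (f : G → Ω)
    (hf : ∀ x y, f (x + y) = f x * f y) (hp : ∀ x, f x ^ l = 1) (h1 : ∀ x, f x = 1 → x = 0) (t : G → Ω) (g : G) :
    ∑ i ∈ Finset.range l, f g ^ i * ∑ x, f (-x) ^ i * t x = l * t g := by
  have h2 : ∀ i : ℕ, f g ^ i * ∑ x, f (-x) ^ i * t x = ∑ x, f (g - x) ^ i * t x := by
    intro i
    rw [Finset.mul_sum]
    refine Finset.sum_congr rfl fun x _ => ?_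
    rw [sub_eq_add_neg, hf, mul_pow, mul_assoc]
  rw [Finset.sum_congr rfl fun i _ => h2 i, Finset.sum_comm]
  have h3 : ∀ x : G, ∑ i ∈ Finset.range l, f (g - x) ^ i * t x = if x = g then l * t g else 0 := by
    intro x
    rw [← Finset.sum_mul]
    split_ifs with hx
    · subst hx
      have h4 : f (x - x) = 1 := by
        rw [sub_self]
        have h5 := hf 0 0
        rw [add_zero] at h5
        have h6 : f 0 ≠ 0 := fun h => by
          have h7 := hp 0
          rw [h, zero_pow hl.ne_zero] at h7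
          exact zero_ne_one h7
        exact (mul_eq_left₀ h6).1 h5.symm
      rw [h4]
      simp
    · have h4 : f (g - x) ≠ 1 := fun h => hx (sub_eq_zero.1 (h1 _ h)).symm
      have h5 : (∑ i ∈ Finset.range l, f (g - x) ^ i) * (f (g - x) - 1) = 0 := by
        rw [geom_sum_mul, hp, sub_self]
      have h6 := (mul_eq_zero.1 h5).resolve_right (sub_ne_zero.2 h4)
      rw [h6, zero_mul]
  rw [Finset.sum_congr rfl fun x _ => h3 x, Finset.sum_ite_eq' Finset.univ g]
  simp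

end pure

omit [IQ F] in
/-- In a residue field with a prime number of elements every element is a natural number. -/
theorem exists_natmod {π : 𝓞 F} {l : ℕ} (hl : l.Prime) (hN : Nm π = l) (a : 𝓞 F) : ∃ n : ℕ, π ∣ a - (n : 𝓞 F) := by
  have hc : Nat.card (𝓞 F ⧸ Ideal.span {π}) = l := hN
  have hfin : Finite (𝓞 F ⧸ Ideal.span {π}) := Nat.finite_of_card_ne_zero (by rw [hc]; exact hl.ne_zero)
  letI : Fintype (𝓞 F ⧸ Ideal.span {π}) := Fintype.ofFinite _
  have hl0 : NeZero l := ⟨hl.ne_zero⟩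
  rw [Nat.card_eq_fintype_card] at hc
  let e := ZMod.ringEquivOfPrime (𝓞 F ⧸ Ideal.span {π}) hl hc
  refine ⟨(e.symm (Ideal.Quotient.mk (Ideal.span {π}) a)).val, ?_⟩
  rw [← Ideal.mem_span_singleton, ← Ideal.Quotient.eq, map_natCast]
  have h1 : e (((e.symm (Ideal.Quotient.mk (Ideal.span {π}) a)).val : ℕ) : ZMod l) =
      Ideal.Quotient.mk (Ideal.span {π}) a := by
    rw [ZMod.natCast_val, ZMod.cast_id, RingEquiv.apply_symm_apply]
  exact h1.symm.trans (map_natCast e _)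

omit [IsAlgClosure F Ω] in
theorem na_red (hA : CMA F A B Om j act) {V : ValuationSubring Ω} (hG : GV A B V) {β : 𝓞 F} (hβ : Prime β)
    (hV : vo V β < 1) (k : ℕ) {X : Pt (WAB A B) Ω} (hX : Ker V (act (β ^ k) X)) : Ker V X := by
  induction k with
  | zero => rwa [pow_zero, act_one] at hX
  | succ k ih =>
    rw [pow_succ', act_mul] at hX
    exact ih (ker_red hA hG hβ hV hX)

/-- The local point can be taken in the kernel of reduction. -/
theorem na_pt {π : 𝓞 F} {l : ℕ} {c : (Ω ≃ₐ[F] Ω) → Pt (WAB A B) Ω} (C : Cl A B Om j act mo ψ π l c)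
    (V : ValuationSubring Ω) (hG : GV A B V) (hV : vo V (cj π) < 1) (hVl : V.valuation (l : Ω) < 1) :
    ∃ Q : Pt (WAB A B) Ω, Ker V Q ∧ ∀ s, Inert V s → c s = ac (WAB A B) s Q - Q := by
  have hA := C.cma
  have hβ : Prime (cj π) := cj_prime C.pr
  obtain ⟨P, hP⟩ := C.loc V
  obtain ⟨n, hn0, hn⟩ := ker_fin (F := F) hG l C.hl hVl P
  have hn0' : (n : 𝓞 F) ≠ 0 := Nat.cast_ne_zero.2 hn0.ne'
  obtain ⟨k, N, hN, hnN⟩ := WfDvdMonoid.max_power_factor hn0' hβ.irreducible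
  have hK : Ker V (act N P) := by
    rw [← act_nat (act := act), hnN, act_mul] at hn
    exact na_red hA hG hβ hV k hn
  obtain ⟨u, v, huv⟩ := (hβ.irreducible.coprime_iff_not_dvd).2 hN
  refine ⟨act v (act N P), kr_act hA hG v hK, fun s hs => ?_⟩
  have h1 : c s = act v (act N (c s)) := by
    conv_lhs => rw [← act_one (act := act) (c s), ← huv, act_add, act_mul u, mem_Tor.1 (C.val s), map_zero, zero_add,
      act_mul]
  rw [h1, hP s hs, map_sub, map_sub, ac_act hA, ac_act hA]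

/-- THE VALUATIONS at the primes above the conjugate of π in the split case. -/
theorem na_ord {π : 𝓞 F} {l : ℕ} {c : (Ω ≃ₐ[F] Ω) → Pt (WAB A B) Ω} (C : Cl A B Om j act mo ψ π l c)
    {e : Pt (WAB A B) Ω → Pt (WAB A B) Ω → Ω} (he : Pairing A B act π l e) {L : IntermediateField F Ω}
    (hL : H55K.S.IsTF act π L) [NumberField L] (V : ValuationSubring Ω) (hG : GV A B V) (h1 : vo V π = 1)
    (hV : vo V (cj π) < 1) (w : HeightOneSpectrum (𝓞 L)) (hw : Abv L V w) (T : Pt (WAB A B) Ω) (hT : T ∈ Tor act π)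
    (m : L) (hm : m ≠ 0) (y : Ω) (hyk : Kum L e c T y) (hy : y ^ l = (m : Ω)) :
    ∃ k : ℤ, w.valuation L m = WithZero.exp ((l : ℤ) * k) := by
  classical
  have hA := C.cma
  have hl := C.hl
  have h5 := C.five
  have hl0 := hl.ne_zero
  by_cases hT0 : T = 0
  · refine H13S.ord_of_unr L V w hw l m hm y hy fun s hs _ => ?_
    rw [hyk.2 s hs, hT0, ld3_e0' hl0 he (C.val s), one_mul]
  have hβ : Prime (cj π) := cj_prime C.pr
  have hnass : ¬ Associated (cj π) π := fun h => by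
    have h2 := vo_assoc V h (vo_le V)
    rw [h1] at h2
    exact absurd hV (by rw [h2]; exact lt_irrefl _)
  obtain ⟨hNπ, hπl⟩ : Nm π = l ∧ π * cj π = (l : 𝓞 F) := by
    rcases dichotomy hl C.dta.unr C.pr C.dvd with ⟨h2, -, -⟩ | ⟨-, -, h2, h3⟩
    · exact absurd h2 hnass
    · exact ⟨h2, h3⟩
  have hNβ : Nm (cj π) = l := by rw [Nm_cj, hNπ]
  have hVlβ : V.valuation (l : Ω) = vo V (cj π) := by
    rw [← vo_nat (F := F), ← hπl, vo_mul, h1, one_mul]
  have hin : ∀ s, Inert V s → s ∈ L.fixingSubgroup := fun s hs => (hL.2 s).2 fun X hX => by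
    refine sub_eq_zero.1 (kr_tor hA hG π h1 ?_ (kr_inert hG s hs X))
    exact (Tor act π).sub_mem (ac_mem hA s hX) hX
  have hsT : ∀ s, Inert V s → ac (WAB A B) s T = T := fun s hs => (hL.2 s).1 (hin s hs) T hT
  obtain ⟨P, hPK, hP⟩ := na_pt C V hG hV (by rw [hVlβ]; exact hV)
  by_cases hno : ∃ R ∈ Tor act (cj π), ∀ s, Inert V s → ac (WAB A B) s (P + R) = P + R
  · obtain ⟨R, hR, hfix⟩ := hno
    refine H13S.ord_of_unr L V w hw l m hm (y * e R T) ?_ fun s hs hi => ?_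
    · rw [mul_pow, he.root R hR T hT, mul_one, hy]
    · rw [map_mul, hyk.2 s hs, he.gal s R hR T hT, hsT s hi]
      have h2 : R = c s + ac (WAB A B) s R := by
        have h3 := hfix s hi
        rw [map_add] at h3
        rw [hP s hi, sub_add_eq_add_sub, h3, add_sub_cancel_left]
      have h3 : e R T = e (c s) T * e (ac (WAB A B) s R) T := by
        conv_lhs => rw [h2]
        exact he.add_left _ (C.val s) _ (ac_mem hA s hR) T hT
      rw [h3]
      ring
  · -- the value of tt P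
    set β := cj π with hβd
    have hc' : ∀ s, Inert V s → ac (WAB A B) s P - P ∈ Tor act β := fun s hs => by
      rw [← hP s hs]
      exact C.val s
    have hρ := na_point hA hβ (by rw [hNβ]; omega) V hG hV P hPK hc' hno
    rw [hNβ] at hρ
    set ρ := V.valuation (tt P) with hρd
    have hϖ0 : vo V β ≠ 0 := vo_ne V hβ.ne_zero
    have hρ0 : ρ ≠ 0 := by
      intro h
      rw [h, zero_pow hl0] at hρ
      exact hϖ0 hρ.symm
    have hρ1 : ρ < 1 := kr_tt_lt hG hPK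
    have hρp : 0 < ρ := zero_lt_iff.2 hρ0
    -- the value of m
    have hmΩ : (m : Ω) ≠ 0 := fun h => hm (Subtype.ext h)
    obtain ⟨k, hk⟩ := na_fix hβ hV hmΩ fun s hs =>
      (IntermediateField.mem_fixingSubgroup_iff _ s).1 (hin s hs) _ m.2
    have hy0 : y ≠ 0 := hyk.1
    by_cases hdvd : (l : ℤ) ∣ k
    · obtain ⟨k', hk'⟩ := hdvd
      have h2 : ((algebraMap F L (β : F) ^ k' : L) : Ω) = ak Ω β ^ k' := by
        exact map_zpow₀ (algebraMap L Ω) _ _
      have h3 : V.valuation (m : Ω) = V.valuation (((algebraMap F L (β : F) ^ k') ^ l : L) : Ω) := by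
        have h4 : (((algebraMap F L (β : F) ^ k') ^ l : L) : Ω) = (ak Ω β ^ k') ^ l := by
          rw [← h2]
          rfl
        rw [h4, hk, map_pow, map_zpow₀, ← zpow_natCast, ← zpow_mul, hk', mul_comm]
      have h4 : w.valuation L m = w.valuation L ((algebraMap F L (β : F) ^ k') ^ l) :=
        le_antisymm ((hw.le m _).1 h3.le) ((hw.le _ m).1 h3.ge)
      have h5 : algebraMap F L (β : F) ^ k' ≠ 0 := by
        refine zpow_ne_zero _ ((map_ne_zero _).2 fun h => hβ.ne_zero ?_)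
        exact_mod_cast h
      have h6 : w.valuation L (algebraMap F L (β : F) ^ k') ≠ 0 := (Valuation.ne_zero_iff _).2 h5
      refine ⟨WithZero.log (w.valuation L (algebraMap F L (β : F) ^ k')), ?_⟩
      rw [h4, map_pow, ← nsmul_eq_mul, WithZero.exp_nsmul, WithZero.exp_log h6]
    exfalso
    have hcop : IsCoprime k (l : ℤ) := by
      rw [isCoprime_comm]
      exact (Nat.prime_iff_prime_int.1 hl).coprime_iff_not_dvd.2 hdvd
    obtain ⟨a, b, hab⟩ := hcop
    -- the character f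
    have heT : ∀ R ∈ Tor act β, e R T ≠ 0 := fun R hR => ku2_ne C he hR hT
    have hgenT : ∀ R ∈ Tor act β, e R T = 1 → R = 0 := by
      intro R hR h2
      refine he.nondeg R hR fun X hX => ?_
      obtain ⟨x, rfl⟩ := (PA1_gen hA π C.pr T hT hT0).1 X hX
      obtain ⟨n, hn⟩ := exists_natmod hl hNπ x
      rw [← (PA1_gen hA π C.pr T hT hT0).2, act_sub, sub_eq_zero] at hn
      rw [hn, act_nat]
      have h3 : ∀ i : ℕ, e R (i • T) = 1 := by
        intro i
        induction i with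
        | zero => rw [zero_smul]; exact ld3_e0' hl0 he hR
        | succ i ih =>
          rw [succ_nsmul, he.add_right R hR _ ((Tor act π).nsmul_mem hT i) T hT, ih, h2, mul_one]
      exact h3 n
    let f : Tor act β → Ω := fun R => e (R : Pt (WAB A B) Ω) T ^ a
    have hfadd : ∀ R R' : Tor act β, f (R + R') = f R * f R' := by
      intro R R'
      show e ((R : Pt (WAB A B) Ω) + R') T ^ a = _
      rw [he.add_left _ R.2 _ R'.2 T hT, mul_zpow]
    have hfl : ∀ R : Tor act β, f R ^ l = 1 := by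
      intro R
      show (e (R : Pt (WAB A B) Ω) T ^ a) ^ l = 1
      rw [← zpow_natCast, ← zpow_mul, mul_comm, zpow_mul, zpow_natCast, he.root _ R.2 T hT, one_zpow]
    have hf1 : ∀ R : Tor act β, f R = 1 → R = 0 := by
      intro R h2
      apply Subtype.ext
      refine hgenT _ R.2 ?_
      have h3 : e (R : Pt (WAB A B) Ω) T ^ a = 1 := h2
      have h4 := he.root _ R.2 T hT
      have h5 : e (R : Pt (WAB A B) Ω) T ^ (a * k + b * l) = 1 := by
        rw [zpow_add₀ (heT _ R.2), zpow_mul, h3, one_zpow, one_mul, mul_comm, zpow_mul, zpow_natCast, h4, one_zpow]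
      rwa [hab, zpow_one] at h5
    have hf0 : f 0 = 1 := by
      show e ((0 : Tor act β) : Pt (WAB A B) Ω) T ^ a = 1
      rw [ZeroMemClass.coe_zero, ld3_e0 hl0 he hT, one_zpow]
    have hfne : ∀ R : Tor act β, f R ≠ 0 := fun R => zpow_ne_zero _ (heT _ R.2)
    have hfin : Finite (Tor act β) := by
      apply Nat.finite_of_card_ne_zero
      rw [(gi_gen hA β hβ).1, hNβ]
      exact hl0
    let _ : Fintype (Tor act β) := Fintype.ofFinite _
    -- y'
    let y' : Ω := y ^ a * ak Ω β ^ b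
    have hakβ : ak Ω β ≠ 0 := (Valuation.ne_zero_iff _).1 hϖ0
    have hy'0 : y' ≠ 0 := mul_ne_zero (zpow_ne_zero _ hy0) (zpow_ne_zero _ hakβ)
    have hy'v : V.valuation y' = ρ := by
      have h2 : V.valuation y' ^ l = ρ ^ l := by
        show V.valuation (y ^ a * ak Ω β ^ b) ^ l = _
        rw [hρ, ← map_pow, mul_pow, ← zpow_natCast, ← zpow_natCast, ← zpow_mul, ← zpow_mul, mul_comm a, zpow_mul y,
          zpow_natCast, hy, map_mul, map_zpow₀, map_zpow₀, hk, ← zpow_mul, ← zpow_add₀ hϖ0]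
        have h3 : k * a + b * (l : ℤ) = 1 := by rw [mul_comm k a]; exact hab
        rw [h3, zpow_one]
      exact (pow_left_inj₀ zero_le zero_le hl0).1 h2
    let c' : (Ω ≃ₐ[F] Ω) → Tor act β := fun s => ⟨c s, C.val s⟩
    have hsy' : ∀ s, Inert V s → s y' = f (c' s) * y' := by
      intro s hs
      show s (y ^ a * ak Ω β ^ b) = e (c s) T ^ a * (y ^ a * ak Ω β ^ b)
      rw [map_mul, map_zpow₀, map_zpow₀, hyk.2 s (hin s hs), mul_zpow, s.commutes]
      ring
    -- the resolvents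
    let t : Tor act β → Ω := fun R => tt (P + (R : Pt (WAB A B) Ω))
    let Ai : ℕ → Ω := fun i => ∑ R, f (-R) ^ i * t R
    have hsA : ∀ s, Inert V s → ∀ i, s (Ai i) = f (c' s) ^ i * Ai i := by
      intro s hs i
      show s (∑ R, f (-R) ^ i * t R) = f (c' s) ^ i * ∑ R, f (-R) ^ i * t R
      rw [map_sum, Finset.mul_sum]
      let g : Tor act β → Tor act β := fun R => ⟨ac (WAB A B) s (R : Pt (WAB A B) Ω), ac_mem hA s R.2⟩ + c' s
      have hg : Function.Bijective g := by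
        refine Finite.injective_iff_bijective.1 fun R R' h2 => ?_
        have h3 := congrArg Subtype.val (add_right_cancel h2)
        exact Subtype.ext (ac_inj s h3)
      refine Fintype.sum_bijective g hg _ _ fun R => ?_
      have h2 : s (f (-R)) = f (c' s) * f (-(g R)) := by
        rw [← hfadd]
        show s (e ((-R : Tor act β) : Pt (WAB A B) Ω) T ^ a) = e ((c' s + -(g R) : Tor act β) : Pt (WAB A B) Ω) T ^ a
        rw [map_zpow₀, he.gal s _ (-R).2 T hT, hsT s hs]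
        congr 2
        show ac (WAB A B) s (-(R : Pt (WAB A B) Ω)) = c s + -(ac (WAB A B) s (R : Pt (WAB A B) Ω) + c s)
        rw [map_neg]
        abel
      have h3 : s (t R) = t (g R) := by
        show s (tt (P + (R : Pt (WAB A B) Ω))) = tt (P + (ac (WAB A B) s (R : Pt (WAB A B) Ω) + c s))
        rw [← tt_ac, map_add, hP s hs]
        congr 1
        abel
      rw [map_mul, map_pow, h2, h3, mul_pow, mul_assoc]
    have hAv : ∀ i, Ai i ≠ 0 → ∃ n : ℤ, V.valuation (Ai i) = ρ ^ ((i : ℤ) + l * n) := by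
      intro i h0
      have h2 : Ai i / y' ^ i ≠ 0 := div_ne_zero h0 (pow_ne_zero _ hy'0)
      obtain ⟨n, hn⟩ := na_fix hβ hV h2 fun s hs => by
        rw [map_div₀, map_pow, hsA s hs, hsy' s hs, mul_pow,
          mul_div_mul_left _ _ (pow_ne_zero _ (hfne _))]
      refine ⟨n, ?_⟩
      rw [map_div₀, map_pow, hy'v, div_eq_iff (pow_ne_zero _ hρ0)] at hn
      rw [hn, ← hρ, ← zpow_natCast, ← zpow_mul, ← zpow_natCast, ← zpow_add₀ hρ0, add_comm]
    have hdist : ∀ i < l, ∀ k < l, i ≠ k → Ai i ≠ 0 → V.valuation (Ai i) ≠ V.valuation (Ai k) := by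
      intro i hi k hk' hne h0 h2
      have h3 : Ai k ≠ 0 := by
        rw [← Valuation.ne_zero_iff V.valuation, ← h2, Valuation.ne_zero_iff]
        exact h0
      obtain ⟨n, hn⟩ := hAv i h0
      obtain ⟨n', hn'⟩ := hAv k h3
      rw [hn, hn'] at h2
      have h4 := (zpow_right_injective₀ hρp hρ1.ne) h2
      have h5 : (i : ℤ) + l * n = k + l * n' := h4
      have h6 : (i : ℤ) % l = (k : ℤ) % l := by
        have h7 := congrArg (· % (l : ℤ)) h5
        simpa using h7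
      rw [Int.emod_eq_of_lt (by positivity) (by exact_mod_cast hi),
        Int.emod_eq_of_lt (by positivity) (by exact_mod_cast hk')] at h6
      exact hne (by exact_mod_cast h6)
    have hle := na_sum V l Ai hdist
    have hsum0 : ∑ i ∈ Finset.range l, Ai i = l * t 0 := by
      rw [← na_res hl f hfadd hfl hf1 t 0]
      refine Finset.sum_congr rfl fun i _ => ?_
      rw [hf0, one_pow, one_mul]
    have ht0 : t 0 = tt P := by
      show tt (P + ((0 : Tor act β) : Pt (WAB A B) Ω)) = tt P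
      rw [ZeroMemClass.coe_zero, add_zero]
    rw [hsum0, ht0, map_mul] at hle
    -- a nonzero point
    obtain ⟨-, R₀, hR₀T, -, hR₀z⟩ := gi_gen hA β hβ
    have hR₀0 : R₀ ≠ 0 := by
      intro h
      have h3 : act (1 : 𝓞 F) R₀ = 0 := by rw [h, map_zero]
      exact hβ.not_isUnit (isUnit_of_dvd_one ((hR₀z 1).1 h3))
    let R₁ : Tor act β := ⟨R₀, hR₀T⟩
    have hR₁ : f R₁ ≠ 1 := fun h => hR₀0 (congrArg Subtype.val (hf1 R₁ h))
    have hsum1 : (l : Ω) * (t R₁ - tt P) = ∑ i ∈ Finset.range l, (f R₁ ^ i - 1) * Ai i := by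
      rw [mul_sub, ← na_res hl f hfadd hfl hf1 t R₁, ← ht0, ← hsum0, ← Finset.sum_sub_distrib]
      refine Finset.sum_congr rfl fun i _ => ?_
      show f R₁ ^ i * Ai i - Ai i = _
      ring
    have hfv : V.valuation (f R₁) = 1 := by
      apply H13Z.lf1_one _ l hl0
      rw [← map_pow, hfl, map_one]
    have hbound : V.valuation ((l : Ω) * (t R₁ - tt P)) ≤
        V.valuation (f R₁ - 1) * (V.valuation (l : Ω) * ρ) := by
      rw [hsum1]
      refine Valuation.map_sum_le _ fun i hi => ?_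
      have h2 : f R₁ ^ i - 1 = (∑ n ∈ Finset.range i, f R₁ ^ n) * (f R₁ - 1) := (geom_sum_mul _ _).symm
      have h3 : V.valuation (∑ n ∈ Finset.range i, f R₁ ^ n) ≤ 1 := by
        refine Valuation.map_sum_le _ fun n _ => ?_
        rw [map_pow, hfv, one_pow]
      rw [map_mul, h2, map_mul]
      refine mul_le_mul' ?_ (hle i (Finset.mem_range.1 hi))
      calc V.valuation (∑ n ∈ Finset.range i, f R₁ ^ n) * V.valuation (f R₁ - 1)
          ≤ 1 * V.valuation (f R₁ - 1) := mul_le_mul' h3 le_rfl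
        _ = _ := one_mul _
    obtain ⟨-, hrat, -⟩ := val_ratio hA hβ (by rw [hNβ]; omega) V hG hV P hPK (by rw [hNβ]; exact hρ) R₀ hR₀T hR₀0
    obtain ⟨-, hτ⟩ := kr_tor_ram hA hG β hβ hV hR₀T hR₀0
    rw [hNβ] at hτ
    have hroot := na_root V l hl (f R₁) (hfl R₁) hR₁
    rw [hVlβ, ← hτ] at hroot
    have hfτ : V.valuation (f R₁ - 1) ≤ V.valuation (tt R₀) := by
      by_contra hcon
      push Not at hcon
      exact absurd hroot (not_le.2 (pow_lt_pow_left₀ hcon zero_le (by omega)))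
    have hVl0 : 0 < V.valuation (l : Ω) := by
      rw [hVlβ]
      exact zero_lt_iff.2 hϖ0
    rw [map_mul] at hbound
    have e1 : t R₁ - tt P = tt (P + R₀) - tt P := rfl
    rw [e1, hrat] at hbound
    have h6 : V.valuation (l : Ω) * V.valuation (tt R₀) ≤ V.valuation (l : Ω) * (V.valuation (tt R₀) * ρ) := by
      refine hbound.trans ?_
      calc V.valuation (f R₁ - 1) * (V.valuation (l : Ω) * ρ)
          ≤ V.valuation (tt R₀) * (V.valuation (l : Ω) * ρ) := mul_le_mul' hfτ le_rfl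
        _ = _ := by rw [mul_left_comm]
    have h7 : V.valuation (tt R₀) ≤ V.valuation (tt R₀) * ρ := (mul_le_mul_iff_right₀ hVl0).1 h6
    have hτ0 : 0 < V.valuation (tt R₀) := by
      rw [zero_lt_iff]
      intro h
      rw [h, zero_pow (by omega)] at hτ
      exact hϖ0 hτ.symm
    have h8 : V.valuation (tt R₀) * ρ < V.valuation (tt R₀) * 1 := mul_lt_mul_of_pos_left hρ1 hτ0
    rw [mul_one] at h8
    exact absurd h7 (not_le.2 h8)

end H55K.S
end
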