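import Mathlib
import Pool.Agent.Lib.H1M.PP2.D_H13Z_TR
import Pool.Agent.Lib.H1M.PP2.D_H28T_CD
import Pool.Agent.Lib.H1M.PP2.D_H28T_CE
import Pool.Agent.Lib.H1M.PP2.D_H28T_W15
import Pool.Agent.Lib.H1M.PP2.D_H55B_Defs
import Pool.Agent.Lib.H1M.PP2.D_H55C_Defs
import Pool.Agent.Lib.H1M.PP2.D_H55D_Defs
import Pool.Agent.Lib.H1M.PP2.D_H55K_FD
import Pool.Agent.Lib.H1M.PP2.D_H55K_RD
import Pool.Agent.Lib.H1M.PP2.D_H55P_CStm
import Pool.Agent.Lib.H1M.PP2.D_H55P_Sel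
import Pool.Agent.Lib.H1M.PP2.M005
import Pool.Agent.Lib.H1M.PP2.M007
import Pool.Agent.Lib.H1M.PP2.M010
import Pool.Agent.Lib.H1M.PP2.M016
import Pool.Agent.Lib.H1M.PP2.M020
import Pool.Agent.Lib.H1M.PP2.M021
import Pool.Agent.Lib.H1M.PP2.M029
import Pool.Agent.Lib.H1M.PP2.M031
import Pool.Agent.Lib.H1M.PP2.M032
import Pool.Agent.Lib.H1M.PP2.M040
import Pool.Agent.Lib.H1M.PP2.M041
import Pool.Agent.Lib.H1M.PP2.M046
import Pool.Agent.Lib.H1M.PP2.M047
import Pool.Agent.Lib.H1M.PP2.M050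
import Pool.Agent.Lib.H1M.PP2.M051
import Pool.Agent.Lib.H1M.PP2.M052
import Pool.Agent.Lib.H1M.PP2.M054
import Pool.Agent.Lib.H1M.PP2.M058
import Pool.Agent.Lib.H1M.PP2.M059
import Pool.Agent.Lib.H1M.PP2.M063
import Pool.Agent.Lib.H1M.PP2.M074
import Pool.Agent.Lib.H1M.PP2.M080
import Pool.Agent.Lib.H1M.PP2.M081
import Pool.Agent.Lib.H1M.PP2.M086
import Pool.Agent.Lib.H1M.PP2.M090
import Pool.Agent.Lib.H1M.PP2.M093
import Pool.Agent.Lib.H1M.PP2.M094
import Pool.Agent.Lib.H1M.PP2.M095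
import Pool.Agent.Lib.H1M.PP2.M098
import Pool.Agent.Lib.H1M.PP2.M102
import Pool.Agent.Lib.H1M.PP2.M106
import Pool.Agent.Lib.H1M.PP2.M110

/-! Merged copies (to shorten the build) of Lib.H55P.Fin, Lib.H13Y.G4, Lib.H55P.I4, Lib.H55P.I5, Lib.H55K.FB1, Lib.H55K.FB9A, Lib.H55K.NK2, Lib.H55K.NK3, Lib.H55K.FB9B, Lib.H55W.L8G, Lib.H55W.L8H, Lib.H28I.G2, Lib.H28T.W15_T, Lib.H55K.NQ, Lib.H28T.CC1, Lib.H28T.CC2B, Lib.H28T.CC3, Lib.H28T.CE_T. -/

-- from Lib.H55P.Fin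
section

open NumberField IsDedekindDomain WeierstrassCurve

namespace H55P

open H55N
open H55B (F O om e E27)

/-! The assembly for y^2 + y = x^3. -/

/-- An algebraic closure of F. -/
abbrev FB : Type := AlgebraicClosure F

noncomputable instance decFB : DecidableEq FB := Classical.decEq _

theorem W27O_base : (W27O⁄F) = H28G.W27 := by
  ext <;> simp [W27O, H28G.W27]


theorem W27O_disc : W27O.Δ = -27 := by
  simp [W27O, WeierstrassCurve.Δ, WeierstrassCurve.b₂, WeierstrassCurve.b₄, WeierstrassCurve.b₆,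
    WeierstrassCurve.b₈]

theorem W27_ell : H28G.W27.IsElliptic := by
  rw [WeierstrassCurve.isElliptic_iff]
  have h : H28G.W27.Δ = -27 := by
    simp [H28G.W27, WeierstrassCurve.Δ, WeierstrassCurve.b₂, WeierstrassCurve.b₄,
      WeierstrassCurve.b₆, WeierstrassCurve.b₈]
  rw [h]
  exact IsUnit.mk0 _ (by norm_num)

instance instEll : (W27O⁄F).IsElliptic := by
  rw [W27O_base]
  exact W27_ell

instance instEllQ : (E27 : WeierstrassCurve ℚ).IsElliptic := by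
  rw [WeierstrassCurve.isElliptic_iff]
  have h : E27.Δ = -27 := by
    simp [E27, WeierstrassCurve.Δ, WeierstrassCurve.b₂, WeierstrassCurve.b₄,
      WeierstrassCurve.b₆, WeierstrassCurve.b₈]
  rw [h]
  exact IsUnit.mk0 _ (by norm_num)

theorem finrank_bot' : Module.finrank F (⊥ : IntermediateField F FB) = 1 :=
  IntermediateField.finrank_bot

/-- The discriminant is prime to a prime not above 3. -/
theorem disc_notMem {M : IntermediateField F FB} (v : HeightOneSpectrum (𝓞 M))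
    (h3 : (3 : 𝓞 M) ∉ v.asIdeal) : algebraMap O (𝓞 M) W27O.Δ ∉ v.asIdeal := by
  rw [W27O_disc, map_neg, neg_mem_iff]
  intro h
  apply h3
  have h27 : algebraMap O (𝓞 M) 27 = 3 ^ 3 := by
    rw [map_ofNat]
    norm_num
  rw [h27] at h
  exact v.isPrime.mem_of_pow_mem 3 h

section tower

variable {p : ℕ} (hp : p.Prime) (h5 : 5 ≤ p) (L : IntermediateField F FB) (hL : PExt p ⊥ L)
  (hram : ∀ v₀ : HeightOneSpectrum O, RamF L v₀.asIdeal → GoodP p v₀)

include hp h5 hL hram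

omit hp h5 in
/-- The conditions at the ramified primes of the bottom field. -/
theorem ram_good (v : HeightOneSpectrum (𝓞 (⊥ : IntermediateField F FB)))
    (h : Ram (⊥ : IntermediateField F FB) L v.asIdeal) :
    (3 : 𝓞 (⊥ : IntermediateField F FB)) ∉ v.asIdeal ∧
      (p : 𝓞 (⊥ : IntermediateField F FB)) ∉ v.asIdeal ∧
      ¬ p ∣ Nat.card (W27O⁄(𝓞 (⊥ : IntermediateField F FB) ⧸ v.asIdeal)).toAffine.Point := by
  obtain ⟨v₀, h1, h2, h3⟩ := bot_conv W27O L v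
  obtain ⟨g3, gp, gc⟩ := hram v₀ (h2 h)
  refine ⟨fun hm => g3 ((h1 3).2 (by rwa [map_ofNat])), fun hm => gp ((h1 p).2 (by rwa [map_natCast])), ?_⟩
  rw [h3]
  exact gc

theorem sel_all (hRB : SelZero H28G.W27 p (⊥ : IntermediateField F FB)) (K : IntermediateField F FB)
    (hKL : K ≤ L) : SelZero H28G.W27 p K ∧
      ∀ T : Pt H28G.W27 FB, p • T = 0 → (∀ s ∈ K.fixingSubgroup, ac H28G.W27 s T = T) → T = 0 := by
  have hb : FiniteDimensional F (⊥ : IntermediateField F FB) := inferInstance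
  have hbn : NumberField (⊥ : IntermediateField F FB) := H16C.FR_numberField _
  have h0 : ∀ T : Pt (W27O⁄F) FB, p • T = 0 →
      (∀ s ∈ (⊥ : IntermediateField F FB).fixingSubgroup, ac (W27O⁄F) s T = T) → T = 0 := by
    obtain ⟨v, h3, hpv, hc⟩ := card_two p hp h5 (⊥ : IntermediateField F FB) finrank_bot'
    exact fun T hT hf => tors_of_prime W27O p hp ⊥ v (disc_notMem v h3) hpv hc T hT hf
  have h1 := sel_tower W27O p hp ⊥ L hL h0
    (fun v hv => ⟨disc_notMem v (ram_good L hL hram v hv).1, (ram_good L hL hram v hv).2⟩)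
    (by rw [W27O_base]; exact hRB) K bot_le hKL
  have h2 := tors_tower (W27O⁄F) p hp ⊥ L hL h0 K hKL
  rw [W27O_base] at h1 h2
  exact ⟨h1, h2⟩


end tower

section final

theorem rat_tower (A B : Type) [Field A] [Field B] [Algebra ℚ A] [Algebra ℚ B] [Algebra A B] :
    IsScalarTower ℚ A B :=
  IsScalarTower.of_algebraMap_eq fun x => by
    rw [eq_ratCast (algebraMap ℚ B) x, eq_ratCast (algebraMap ℚ A) x, map_ratCast]





end final

end H55P
end

-- from Lib.H13Y.G4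
section

open NumberField IsDedekindDomain WeierstrassCurve

namespace H13Y

open H55P H28G H13S
open H13Z (SelNon)

section gen

variable {k : Type} [Field k] {Ω : Type} [Field Ω] [DecidableEq Ω] [Algebra k Ω]

/-- Chunk YG6 (S/M). d s = c s - (ac s T - T) is a cocycle on the group of N, zero on the group of N' (normal in it: g⁻¹ s g maps x in N' to itself because g x is in N'). For g in the group of N, s in the group of N': d (s g) = ac s (d g) and d (s g) = d (g (g⁻¹ s g)) = d g, so d g is fixed by the group of N' and killed by p: 0. -/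
theorem cob_down (W : WeierstrassCurve k) (p : ℕ) {N N' : IntermediateField k Ω} (hNN : N ≤ N')
    (hn : ∀ s ∈ N.fixingSubgroup, ∀ x ∈ N', s x ∈ N')
    (ht : ∀ R : Pt W Ω, p • R = 0 → (∀ s ∈ N'.fixingSubgroup, ac W s R = R) → R = 0)
    {c : (Ω ≃ₐ[k] Ω) → Pt W Ω}
    (hm : ∀ s ∈ N.fixingSubgroup, ∀ t ∈ N.fixingSubgroup, c (s * t) = c s + ac W s (c t))
    (hl : ∀ s ∈ N.fixingSubgroup, p • c s = 0) {T : Pt W Ω} (hT : p • T = 0)
    (h : ∀ s ∈ N'.fixingSubgroup, c s = ac W s T - T) :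
    ∀ s ∈ N.fixingSubgroup, c s = ac W s T - T := by
  have hle : ∀ s ∈ N'.fixingSubgroup, s ∈ N.fixingSubgroup := by
    intro s hs
    rw [IntermediateField.mem_fixingSubgroup_iff] at hs ⊢
    exact fun x hx => hs x (hNN hx)
  have hac : ∀ (s t : Ω ≃ₐ[k] Ω) (P : Pt W Ω), ac W (s * t) P = ac W s (ac W t P) := by
    intro s t P
    have h1 := (acR W).map_mul s t
    exact DFunLike.congr_fun h1 P
  intro s hs
  have hd : c s - (ac W s T - T) = 0 := by
    apply ht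
    · rw [nsmul_sub, nsmul_sub, hl s hs, ← map_nsmul, hT, map_zero, sub_zero, sub_zero]
    · intro t htN
      have ht' : s⁻¹ * t * s ∈ N'.fixingSubgroup := by
        rw [IntermediateField.mem_fixingSubgroup_iff] at htN ⊢
        intro x hx
        rw [AlgEquiv.mul_apply, AlgEquiv.mul_apply, htN _ (hn s hs x hx)]
        exact s.symm_apply_apply x
      have e1 : s * (s⁻¹ * t * s) = t * s := by group
      have h2 := hm s hs _ (hle _ ht')
      have h3 := hm t (hle t htN) s hs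
      rw [e1] at h2
      rw [h2, h t htN, h _ ht', map_sub, ← hac, e1, hac] at h3
      rw [map_sub, map_sub]
      have h4 : ac W t (c s) = c s + (ac W t (ac W s T) - ac W s T) - (ac W t T - T) := by
        rw [h3]
        abel
      rw [h4]
      abel
  rw [← sub_eq_zero]
  exact hd

/-- The class restricted to N' is again nonzero. -/
theorem non_up (W : WeierstrassCurve k) (p : ℕ) {N N' : IntermediateField k Ω} (hNN : N ≤ N')
    (hn : ∀ s ∈ N.fixingSubgroup, ∀ x ∈ N', s x ∈ N')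
    (ht : ∀ R : Pt W Ω, p • R = 0 → (∀ s ∈ N'.fixingSubgroup, ac W s R = R) → R = 0)
    (h : SelNon W p N) : SelNon W p N' := by
  have hle : ∀ s ∈ N'.fixingSubgroup, s ∈ N.fixingSubgroup := by
    intro s hs
    rw [IntermediateField.mem_fixingSubgroup_iff] at hs ⊢
    exact fun x hx => hs x (hNN hx)
  obtain ⟨c, hc, hp, hV, hno⟩ := h
  refine ⟨c, ⟨fun s hs t ht => hc.mul s (hle s hs) t (hle t ht), ?_⟩, fun s hs => hp s (hle s hs),
    fun V hVt => ?_, ?_⟩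
  · obtain ⟨L, hL, hLc⟩ := hc.cont
    exact ⟨L, hL, fun s hs hsL => hLc s (hle s hs) hsL⟩
  · obtain ⟨P, hP⟩ := hV V hVt
    exact ⟨P, fun s hs hI => hP s (hle s hs) hI⟩
  · rintro ⟨T, hT, hcT⟩
    exact hno ⟨T, hT, cob_down W p hNN hn ht hc.mul hp hT hcT⟩

end gen

open H55B (F O)

/-- Chunk YG7 (S). No p-torsion: the second part of H55P.sel_all (Fin.lean) does not need its ramification hypothesis: h0 from card_two and tors_of_prime, then tors_tower, W27O_base. -/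
theorem no_tors {p : ℕ} (hp : p.Prime) (h5 : 5 ≤ p) {L₀ K : IntermediateField F FB} (hL : PExt p ⊥ L₀)
    (hKL : K ≤ L₀) (R : Pt W27 FB) (hR : p • R = 0) (h : ∀ s ∈ K.fixingSubgroup, ac W27 s R = R) :
    R = 0 := by
  have hb : FiniteDimensional F (⊥ : IntermediateField F FB) := inferInstance
  have hbn : NumberField (⊥ : IntermediateField F FB) := H16C.FR_numberField _
  have h0 : ∀ T : Pt (W27O⁄F) FB, p • T = 0 →
      (∀ s ∈ (⊥ : IntermediateField F FB).fixingSubgroup, ac (W27O⁄F) s T = T) → T = 0 := by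
    obtain ⟨v, h3, hpv, hc⟩ := card_two p hp h5 (⊥ : IntermediateField F FB) finrank_bot'
    exact fun T hT hf => tors_of_prime W27O p hp ⊥ v (disc_notMem v h3) hpv hc T hT hf
  have h2 := tors_tower (W27O⁄F) p hp ⊥ L₀ hL h0 K hKL
  rw [W27O_base] at h2
  exact h2 R hR h

end H13Y
end

-- from Lib.H55P.I4
section

open NumberField IsDedekindDomain WeierstrassCurve

namespace H55P

open H55N

/-! The exact criterion for y^2 + y = x^3 over Galois extensions of F of degree a power of p, analytic side. -/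

section ramn

variable {F : Type} [Field F] [NumberField F] {Ω : Type} [Field Ω] [DecidableEq Ω]
  [Algebra F Ω] [IsAlgClosed Ω] [Algebra.IsAlgebraic F Ω] [CharZero Ω]

omit [NumberField F] [DecidableEq Ω] [IsAlgClosed Ω] [Algebra.IsAlgebraic F Ω] [CharZero Ω] in
theorem ram_self (M : IntermediateField F Ω) [NumberField M] (v : HeightOneSpectrum (𝓞 M)) :
    ¬ Ram M M v.asIdeal := by
  rintro ⟨W, hWp, hW⟩
  have h1 : v.asIdeal ≤ W ^ 2 := fun x hx => hW x x hx rfl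
  have hWn : W ≠ ⊥ := by
    rintro rfl
    apply v.ne_bot
    rw [eq_bot_iff]
    exact h1.trans (Ideal.pow_le_self two_ne_zero)
  have h2 : v.asIdeal = W := v.isMaximal.eq_of_le hWp.ne_top (h1.trans (Ideal.pow_le_self two_ne_zero))
  have h3 : W ≤ W ^ 2 := h2 ▸ h1
  have h4 : W ^ 2 < W ^ 1 := Ideal.pow_right_strictAnti W hWn hWp.ne_top (show 1 < 2 by norm_num)
  rw [pow_one] at h4
  exact lt_irrefl _ (lt_of_lt_of_le h4 h3)

/-- A power p^j: a^(p^j) = a modulo p. -/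
theorem dvd_pow_sub (p : ℕ) (hp : p.Prime) (a j : ℕ) (ha : 1 ≤ a) (h : p ∣ a ^ p ^ j - 1) : p ∣ a - 1 := by
  have hf := Fact.mk hp
  rw [← ZMod.natCast_eq_zero_iff, Nat.cast_sub (Nat.one_le_pow _ _ ha), Nat.cast_pow,
    ZMod.pow_card_pow] at h
  rw [← ZMod.natCast_eq_zero_iff, Nat.cast_sub ha]
  exact h

/-- The norm of a ramified prime is 1 modulo p. -/
theorem ram_norm (p : ℕ) (hp : p.Prime) (M L : IntermediateField F Ω) (hL : PExt p M L)
    [NumberField M] (K : IntermediateField F Ω) [NumberField K] (hMK : M ≤ K) (hKL : K ≤ L)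
    (hU : UnrP p K) (v : HeightOneSpectrum (𝓞 M)) (hv : Ram M K v.asIdeal) :
    p ∣ Ideal.absNorm v.asIdeal - 1 := by
  have hLf : FiniteDimensional F L := hL.fin
  have key : ∀ (n : ℕ) (K : IntermediateField F Ω) [NumberField K], M ≤ K → K ≤ L → UnrP p K →
      Module.finrank F K = n → Ram M K v.asIdeal → p ∣ Ideal.absNorm v.asIdeal - 1 := by
    intro n
    induction n using Nat.strong_induction_on with
    | _ n ih =>
      intro K _ hMK hKL hU hn hr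
      rcases eq_or_ne K M with rfl | hne
      · exact absurd hr (ram_self _ v)
      obtain ⟨N, hMN, hNK, hdeg, hnorm⟩ := chain_step p hp M K L hL hMK hKL hne
      have hKf : FiniteDimensional F K := finDim_of_le hKL
      have hNf : FiniteDimensional F N := finDim_of_le hNK
      have hNn : NumberField N := H16C.FR_numberField N
      have hNpos : 0 < Module.finrank F N := Module.finrank_pos
      have hlt : Module.finrank F N < n := by
        rw [← hn, hdeg]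
        exact lt_mul_of_one_lt_right hNpos hp.one_lt
      letI iNK : Algebra N K := (IntermediateField.inclusion hNK).toRingHom.toAlgebra
      letI iMN : Algebra M N := (IntermediateField.inclusion hMN).toRingHom.toAlgebra
      obtain ⟨hst, hgal, hfr⟩ := chain_types p hp N K hNK hnorm hdeg
      rcases (ram_tower M N K hMN hNK hnorm v).1 hr with h4 | ⟨w, hw1, hw2⟩
      · exact ih _ hlt N hMN (hNK.trans hKL) (UnrP.down N K p hp hU) rfl h4
      · obtain ⟨v', hv', -, hf⟩ := ram_down p hp M N K L hL hMN hNK hKL hnorm w hw2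
        obtain ⟨j, hj⟩ : ∃ j : ℕ, w.asIdeal.inertiaDeg (𝓞 M) = p ^ j := hf
        have h5 := tame_dvd N K p hp hfr w (fun hpv => hw2 (pt10_ram N K p hU w hpv)) hw2
        have hl : w.asIdeal.LiesOver v.asIdeal := ⟨hw1.symm⟩
        have hvm := v.isMaximal
        have hvp := v.isPrime
        have hwm := w.isMaximal
        have hwp := w.isPrime
        have h1 := Ideal.relNorm_eq_pow_of_isMaximal w.asIdeal v.asIdeal
        have h6 : Ideal.absNorm w.asIdeal = Ideal.absNorm v.asIdeal ^ p ^ j := by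
          rw [← hj, ← map_pow, ← h1, Ideal.absNorm_relNorm (𝓞 M)]
        rw [h6] at h5
        refine dvd_pow_sub p hp _ j ?_ h5
        refine Nat.one_le_iff_ne_zero.2 ?_
        rw [Ne, Ideal.absNorm_eq_zero_iff]
        exact v.ne_bot
  exact key _ K hMK hKL hU rfl hv

/-- The bottom field: every prime of F comes from one of the bottom field. -/
theorem bot_conv' [IQ F] (W₀ : WeierstrassCurve (𝓞 F)) (L : IntermediateField F Ω) (v₀ : HeightOneSpectrum (𝓞 F))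
    [NumberField (⊥ : IntermediateField F Ω)] :
    ∃ v : HeightOneSpectrum (𝓞 (⊥ : IntermediateField F Ω)),
      (∀ x : 𝓞 F, x ∈ v₀.asIdeal ↔ algebraMap (𝓞 F) (𝓞 (⊥ : IntermediateField F Ω)) x ∈ v.asIdeal) ∧
      (RamF L v₀.asIdeal → Ram (⊥ : IntermediateField F Ω) L v.asIdeal) ∧
      Nat.card (W₀⁄(𝓞 (⊥ : IntermediateField F Ω) ⧸ v.asIdeal)).toAffine.Point =
        Nat.card (W₀⁄(𝓞 F ⧸ v₀.asIdeal)).toAffine.Point := by
  obtain ⟨v, hv⟩ := pt9_above (⊥ : IntermediateField F Ω) v₀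
  obtain ⟨v₁, h1, -, h3⟩ := bot_conv W₀ L v
  have he : v₁ = v₀ := by
    apply HeightOneSpectrum.ext
    ext x
    rw [h1 x, hv]
    rfl
  subst he
  refine ⟨v, h1, ?_, h3⟩
  rintro ⟨W, hW, hle⟩
  refine ⟨W, hW, fun x y hx hxy => ?_⟩
  obtain ⟨z, hz⟩ := IntermediateField.mem_bot.1 ((x : (⊥ : IntermediateField F Ω))).2
  have hzi : IsIntegral ℤ z := by
    have h2 : IsIntegral ℤ ((x : (⊥ : IntermediateField F Ω)) : Ω) :=
      (RingOfIntegers.isIntegral_coe x).map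
        ((⊥ : IntermediateField F Ω).val.toRingHom.toIntAlgHom)
    rw [← hz] at h2
    exact (isIntegral_algebraMap_iff (algebraMap F Ω).injective).1 h2
  have hx' : algebraMap (𝓞 F) (𝓞 (⊥ : IntermediateField F Ω)) ⟨z, hzi⟩ = x := by
    apply RingOfIntegers.ext
    apply Subtype.ext
    exact hz
  have hy' : algebraMap (𝓞 F) (𝓞 L) ⟨z, hzi⟩ = y := by
    apply RingOfIntegers.ext
    apply Subtype.ext
    rw [hxy]
    exact hz
  rw [← hy']
  refine hle (Ideal.mem_map_of_mem _ ((h1 _).2 ?_))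
  rw [hx']
  exact hx

end ramn

open H55B (F O om e emb E27)

section crit




end crit

end H55P
end

-- from Lib.H55P.I5
section

open NumberField IsDedekindDomain WeierstrassCurve

namespace H55P

open H55N
open H55B (F O om e emb E27)


/-- Values in F: a product of two numbers with valuations at most 1. -/
theorem i5_two (V : ValuationSubring ℂ) (x y : ℂ) (hx : V.valuation x ≤ 1) (hy : V.valuation y ≤ 1)
    (h : V.valuation (x * y) = 1) : V.valuation x = 1 := by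
  rw [map_mul] at h
  refine le_antisymm hx ?_
  by_contra hlt
  have h5 := mul_lt_one_of_nonneg_of_lt_one_left zero_le (not_le.1 hlt) hy
  rw [h] at h5
  exact lt_irrefl _ h5

/-- The conjugate valuation. -/
theorem i5_conj (V : ValuationSubring ℂ) (x : ℂ)
    (h : (V.comap (starRingEnd ℂ)).valuation x ≤ 1) : V.valuation ((starRingEnd ℂ) x) ≤ 1 := by
  rw [ValuationSubring.valuation_le_one_iff] at h ⊢
  exact h

theorem i5_above (p : ℕ) (hp : p.Prime) (V : ValuationSubring ℂ) (hV : V.valuation (p : ℂ) < 1) :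
    (V.comap (starRingEnd ℂ)).valuation (p : ℂ) < 1 := by
  have h2 : (p : ℂ) ≠ 0 := Nat.cast_ne_zero.2 hp.ne_zero
  have hmem : ∀ z : ℂ, z ∈ V.comap (starRingEnd ℂ) ↔ (starRingEnd ℂ) z ∈ V := fun z => Iff.rfl
  rw [H55C.B9_lt _ h2, hmem, map_inv₀, map_natCast, ← H55C.B9_lt V h2]
  exact hV

section

variable (p : ℕ) (hp : p.Prime) (h5 : 5 ≤ p) (K : Type) [Field K] [NumberField K] [Algebra F K]
  [IsGalois F K] (k : ℕ) (hk : Module.finrank F K = p ^ k) (hU : UnrP p K)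

include hp h5 hk hU





end

end H55P
end

-- from Lib.H55K.FB1
section

/-! # H55K: fields inside the algebraic closure -/

open NumberField IsDedekindDomain WeierstrassCurve

namespace H55K.TQ

open H55P (IQ embF eF LF Per IsHecke Pt ac Inert Dec Nm UnitP)
open H35P (WAB Ker tt GoodW IntW)
open H55K.MG (VC Crd)

/-- Chunk FB1 (S). Port of H55P.pext_range, rat_tower, alg_QFB (H55P/Fin.lean). -/
theorem tower_QFF (F : Type) [Field F] [NumberField F] : IsScalarTower ℚ F (AlgebraicClosure F) :=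
  H55P.rat_tower F (AlgebraicClosure F)

theorem alg_QFF (F : Type) [Field F] [NumberField F] : Algebra.IsAlgebraic ℚ (AlgebraicClosure F) := by
  have h := tower_QFF F
  exact Algebra.IsAlgebraic.trans ℚ F (AlgebraicClosure F)

theorem pextF_range {F : Type} [Field F] [NumberField F] (p : ℕ) (hp : p.Prime) (L : Type) [Field L] [NumberField L] [Algebra F L] (hG : IsGalois F L)
    (k : ℕ) (hk : Module.finrank F L = p ^ k) (j : L →ₐ[F] AlgebraicClosure F) : H55P.PExt p ⊥ j.fieldRange := by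
  let E : L ≃ₐ[F] j.fieldRange := AlgEquiv.ofInjectiveField j
  have hfL : FiniteDimensional F L := Module.finite_of_finrank_pos (by rw [hk]; exact pow_pos hp.pos k)
  have hn : Normal F j.fieldRange := Normal.of_algEquiv E
  refine ⟨Module.Finite.equiv E.toLinearEquiv, bot_le, fun s _ x hx => ?_, k, ?_⟩
  · have h1 := (IntermediateField.normal_iff_forall_map_le' (K := j.fieldRange)).1 hn s
    exact h1 ⟨x, hx, rfl⟩
  · rw [IntermediateField.finrank_bot, one_mul, ← hk]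
    exact E.toLinearEquiv.finrank_eq.symm

/-- Chunk FB1 (S/M). The beginning of bsdP_of and crit_sub (H55P/Fin.lean, I7.lean): j : L → Ω over F, L' the range of j, ι = j composed with K → L. UnrP for the range: UnrP.down with the inverse isomorphism; RamF: H55P.ramF_range (Z13.lean). -/
theorem sub_setup {F : Type} [Field F] [NumberField F] [IQ F] (p : ℕ) (hp : p.Prime) (K L : Type) [Field K] [NumberField K] [Field L] [NumberField L]
    [Algebra F L] [Algebra K L] (hG : IsGalois F L) (k : ℕ) (hk : Module.finrank F L = p ^ k) (hU : H55P.UnrP p L) :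
    ∃ (L' : IntermediateField F (AlgebraicClosure F)) (_ : NumberField L') (ι : K →ₐ[ℚ] AlgebraicClosure F),
      H55P.PExt p ⊥ L' ∧ H55P.UnrP p L' ∧ KG F K ι ≤ L' ∧
      ∀ v : HeightOneSpectrum (𝓞 F), H55P.RamF L' v.asIdeal →
        ∃ w : HeightOneSpectrum (𝓞 L), v.asIdeal = w.asIdeal.under (𝓞 F) ∧ w.asIdeal.ramificationIdx (𝓞 F) ≠ 1 := by
  have hfL : FiniteDimensional F L := Module.finite_of_finrank_pos (by rw [hk]; exact pow_pos hp.pos k)
  let j : L →ₐ[F] AlgebraicClosure F := IsAlgClosed.lift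
  have hL : H55P.PExt p ⊥ j.fieldRange := pextF_range p hp L hG k hk j
  have hLf : FiniteDimensional F j.fieldRange := hL.fin
  have hLn : NumberField j.fieldRange := NumberField.of_module_finite F j.fieldRange
  let ι₀ : K →+* AlgebraicClosure F := j.toRingHom.comp (algebraMap K L)
  let ι : K →ₐ[ℚ] AlgebraicClosure F := ι₀.toRatAlgHom
  refine ⟨j.fieldRange, hLn, ι, hL, ?_, ?_, fun v h => H55P.ramF_range L j v h⟩
  · letI : Algebra j.fieldRange L :=
      (AlgEquiv.ofInjectiveField j).symm.toRingEquiv.toRingHom.toAlgebra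
    exact H55P.UnrP.down j.fieldRange L p hp hU
  · unfold KG
    rw [IntermediateField.adjoin_le_iff]
    rintro _ ⟨x, rfl⟩
    exact ⟨algebraMap K L x, rfl⟩

end H55K.TQ
end

-- from Lib.H55K.FB9A
section

/-! # H55K: Selmer groups over K -/

open NumberField IsDedekindDomain WeierstrassCurve

namespace H55K.TQ

open H55P (IQ embF eF LF Per IsHecke Pt ac Inert Dec Nm UnitP)
open H35P (WAB Ker tt GoodW IntW)
open H55K.MG (VC Crd)

variable {F : Type} [Field F] [NumberField F] [IQ F] {W : WeierstrassCurve ℤ} {Om : ℂ}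
    {m : Ideal (𝓞 F)} {ψ : Ideal (𝓞 F) →*₀ 𝓞 F} {p : ℕ}

/-- Chunk FB9A (S/M). exists_goodG (Y7), tors_of_prime, tors_tower (H55P/S14.lean), as in gen_sel (H55P/Gen.lean). -/
theorem tors_K {W₀ : WeierstrassCurve (𝓞 F)} (hH : BaseH F W₀ Om m ψ) (hp : PrimeH F W₀ p) {L K : IntermediateField F (AlgebraicClosure F)}
    [DecidableEq (AlgebraicClosure F)] (hL : H55P.PExt p ⊥ L) (hK : K ≤ L) (T : Pt (W₀⁄F) (AlgebraicClosure F)) (hT : p • T = 0)
    (hf : ∀ s ∈ K.fixingSubgroup, ac (W₀⁄F) s T = T) : T = 0 := by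
  have hb := base_of hH hp
  have hbn : NumberField (⊥ : IntermediateField F (AlgebraicClosure F)) := H16C.FR_numberField _
  obtain ⟨v, hv⟩ := exists_goodG hp.prime hp.five hb.unr hH.data.hecke W₀ hH.data.ell
    hb.cop.of_mul_left_right hb.deu
  have hE : (W₀⁄F).IsElliptic := by
    have e : (W₀⁄F).Δ = algebraMap (𝓞 F) F W₀.Δ := W₀.map_Δ (algebraMap (𝓞 F) F)
    rw [WeierstrassCurve.isElliptic_iff, e]
    exact IsUnit.mk0 _ fun h0 =>
      hH.data.ell ((map_eq_zero_iff _ (FaithfulSMul.algebraMap_injective (𝓞 F) F)).1 h0)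
  exact H55P.tors_tower (W₀⁄F) p hp.prime ⊥ L hL
    (fun T hT hf => H55P.tors_of_prime W₀ p hp.prime ⊥ v hv.disc hv.res hv.pts T hT hf) K hK T hT hf

end H55K.TQ
end

-- from Lib.H55K.NK2
section

/-! # H55K: nonvanishing of the Selmer group over fields which do not contain F -/

open NumberField IsDedekindDomain WeierstrassCurve

namespace H55K.TQ

open H55P (IQ embF eF LF Per IsHecke Pt ac Inert Dec Nm UnitP UnrP)
open H35P (WAB Ker tt GoodW IntW)
open H55K.MG (VC Crd)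
open H13Z (SelNon SelNonT)

theorem nk2_vc (W : WeierstrassCurve ℚ) {A₀ B₀ : ℚ} (hA : A₀ = -W.c₄ / 48) (hB : B₀ = -W.c₆ / 864) :
    VC (WAB A₀ B₀) W 1 (W.b₂ / 12) (W.a₁ / 2) (W.a₃ / 2) := by
  refine ⟨one_ne_zero, ?_, ?_, ?_, ?_, ?_⟩
  · simp only [WAB]
    ring
  · simp only [WAB, WeierstrassCurve.b₂]
    ring
  · simp only [WAB]
    ring
  · simp only [WAB, WeierstrassCurve.b₂, hA, WeierstrassCurve.c₄, WeierstrassCurve.b₄]
    ring
  · simp only [WAB, WeierstrassCurve.b₂, hA, hB, WeierstrassCurve.c₄, WeierstrassCurve.b₄, WeierstrassCurve.c₆, WeierstrassCurve.b₆]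
    ring

/-- The isomorphism with the short equation over Ω, as a map from the points of an equal curve. -/
theorem nk2_iso {Ω : Type} [Field Ω] [DecidableEq Ω] [Algebra ℚ Ω] (W : WeierstrassCurve ℚ) (hΔ : W.Δ ≠ 0) {A₀ B₀ : ℚ}
    (hA : A₀ = -W.c₄ / 48) (hB : B₀ = -W.c₆ / 864) (E : WeierstrassCurve Ω) (hE : E = (WAB A₀ B₀)⁄Ω) :
    ∃ Θ : E.toAffine.Point ≃+ (W⁄Ω).toAffine.Point, ∀ P, P ≠ 0 → Θ P ≠ 0 ∧
      xc P = xc (Θ P) + algebraMap ℚ Ω (W.b₂ / 12) ∧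
      yc P = yc (Θ P) + algebraMap ℚ Ω (W.a₁ / 2) * xc (Θ P) + algebraMap ℚ Ω (W.a₃ / 2) := by
  subst hE
  have hd : (WAB A₀ B₀).Δ = W.Δ := by
    have h1 := W.c_relation
    have h2 : (WAB A₀ B₀).Δ = -16 * (4 * A₀ ^ 3 + 27 * B₀ ^ 2) := by
      simp only [WAB, WeierstrassCurve.Δ, WeierstrassCurve.b₂, WeierstrassCurve.b₄, WeierstrassCurve.b₆, WeierstrassCurve.b₈]
      ring
    rw [h2, hA, hB]
    linear_combination (-1 / 1728 : ℚ) * h1
  have hv : VC ((WAB A₀ B₀)⁄Ω) (W⁄Ω) (algebraMap ℚ Ω 1) (algebraMap ℚ Ω (W.b₂ / 12)) (algebraMap ℚ Ω (W.a₁ / 2))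
    (algebraMap ℚ Ω (W.a₃ / 2)) := vc_map (algebraMap ℚ Ω) (nk2_vc W hA hB)
  have e1 : ((WAB A₀ B₀)⁄Ω).Δ ≠ 0 := by
    have e : ((WAB A₀ B₀)⁄Ω).Δ = algebraMap ℚ Ω (WAB A₀ B₀).Δ := (WAB A₀ B₀).map_Δ _
    rw [e, hd]
    exact (map_ne_zero _).2 hΔ
  have e2 : (W⁄Ω).Δ ≠ 0 := by
    have e : (W⁄Ω).Δ = algebraMap ℚ Ω W.Δ := W.map_Δ _
    rw [e]
    exact (map_ne_zero _).2 hΔ
  obtain ⟨Θ, hΘ⟩ := MG.vc_iso hv e1 e2
  refine ⟨Θ, fun P hP => ?_⟩
  obtain ⟨g1, g2, g3⟩ := hΘ P hP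
  refine ⟨g1, ?_, ?_⟩
  · rw [g2, map_one]
    ring
  · rw [g3, map_one]
    ring

variable {F : Type} [Field F] [NumberField F] [IQ F]

/-- Every automorphism of Ω over the rational numbers is the identity or the conjugation on F. -/
theorem nk2_dich {Ω : Type} [Field Ω] [Algebra F Ω] [Algebra ℚ Ω] [IsScalarTower ℚ F Ω] (s : Ω ≃ₐ[ℚ] Ω) :
    (∀ x : F, s (algebraMap F Ω x) = algebraMap F Ω x) ∨
      ∀ a : 𝓞 F, s (ak Ω a) = ak Ω (cj a) := by
  have hq : Algebra.IsQuadraticExtension ℚ F := ⟨IQ.deg⟩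
  have hn : Normal ℚ F := Algebra.IsQuadraticExtension.normal ℚ F
  have h1 := AlgEquiv.restrictNormal_commutes s F
  obtain ⟨τ, hτ⟩ : ∃ τ, τ = s.restrictNormal F := ⟨_, rfl⟩
  rw [← hτ] at h1
  by_cases h2 : (embF F).comp (τ : F →+* F) = embF F
  · left
    intro x
    rw [← h1 x]
    congr 1
    exact (embF F).injective (RingHom.congr_fun h2 x)
  · right
    intro a
    have h3 := d1_emb F _ _ h2 (d1_conj_ne F)
    have h4 : τ (a : F) = ((cj a : 𝓞 F) : F) := by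
      apply (embF F).injective
      have h5 := RingHom.congr_fun h3 (a : F)
      exact h5.trans (e_cj a).symm
    show s (algebraMap F Ω (a : F)) = algebraMap F Ω ((cj a : 𝓞 F) : F)
    rw [← h1, h4]

/-- An element δ with cj δ = -δ and norm prime to p. -/
theorem nk2_delta {p : ℕ} (hp : p.Prime) (hp2 : p ≠ 2) (hU : UnrP p F) : ∃ δ : 𝓞 F, cj δ = -δ ∧ ¬ p ∣ Nm δ := by
  by_contra hcon
  push Not at hcon
  refine rf_card (F := F) hp hp2 (fun a => ?_)
  have h1 : cj (a - cj a) = -(a - cj a) := by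
    rw [map_sub, cj_cj]
    ring
  obtain ⟨n, hn⟩ := hcon _ h1
  have h2 := mul_cj (a - cj a)
  rw [h1, hn] at h2
  rw [← Ideal.mem_span_singleton]
  refine H55P.pd3_rad hp hU _ ?_
  have h3 : (a - cj a) ^ 2 ∈ Ideal.span {(p : 𝓞 F)} := by
    rw [Ideal.mem_span_singleton]
    refine ⟨-(n : 𝓞 F), ?_⟩
    push_cast at h2
    linear_combination -h2
  obtain ⟨k, hk⟩ : ∃ k, p = 2 + k := ⟨p - 2, by have := hp.two_le; omega⟩
  have h4 : (a - cj a) ^ p = (a - cj a) ^ 2 * (a - cj a) ^ k := by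
    rw [← pow_add, ← hk]
  rw [h4]
  exact Ideal.mul_mem_right _ _ h3

end H55K.TQ
end

-- from Lib.H55K.NK3
section

/-! # H55K: nonvanishing of the Selmer group over fields which do not contain F -/

open NumberField IsDedekindDomain WeierstrassCurve

namespace H55K.TQ

open H55P (IQ embF eF LF Per IsHecke Pt ac Inert Dec Nm UnitP UnrP)
open H35P (WAB Ker tt GoodW IntW)
open H55K.MG (VC Crd)
open H13Z (SelNon SelNonT)

variable {F : Type} [Field F] [NumberField F] [IQ F]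

section main

variable {W : WeierstrassCurve ℤ} {Om : ℂ} {m : Ideal (𝓞 F)} {ψ : Ideal (𝓞 F) →*₀ 𝓞 F}

open scoped Classical in
theorem nk3_data (hH : BaseH F (W⁄(𝓞 F)) Om m ψ) : ∃ (A B : F) (A₀ B₀ : ℚ) (j : AlgebraicClosure F →+* ℂ)
    (act : 𝓞 F →+* AddMonoid.End (Pt (WAB A B) (AlgebraicClosure F))), CMA F A B Om j act ∧
    A₀ = -(W⁄ℚ).c₄ / 48 ∧ B₀ = -(W⁄ℚ).c₆ / 864 ∧ A = algebraMap ℚ F A₀ ∧ B = algebraMap ℚ F B₀ ∧ (W⁄ℚ).Δ ≠ 0 := by
  have hc4 : algebraMap (𝓞 F) F (W⁄(𝓞 F)).c₄ = algebraMap ℚ F (W⁄ℚ).c₄ := by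
    have e1 : (W⁄(𝓞 F)).c₄ = algebraMap ℤ (𝓞 F) W.c₄ := W.map_c₄ _
    have e2 : (W⁄ℚ).c₄ = algebraMap ℤ ℚ W.c₄ := W.map_c₄ _
    rw [e1, e2]
    simp
  have hc6 : algebraMap (𝓞 F) F (W⁄(𝓞 F)).c₆ = algebraMap ℚ F (W⁄ℚ).c₆ := by
    have e1 : (W⁄(𝓞 F)).c₆ = algebraMap ℤ (𝓞 F) W.c₆ := W.map_c₆ _
    have e2 : (W⁄ℚ).c₆ = algebraMap ℤ ℚ W.c₆ := W.map_c₆ _
    rw [e1, e2]
    simp
  obtain ⟨A₀, hA₀⟩ : ∃ A₀ : ℚ, A₀ = -(W⁄ℚ).c₄ / 48 := ⟨_, rfl⟩
  obtain ⟨B₀, hB₀⟩ : ∃ B₀ : ℚ, B₀ = -(W⁄ℚ).c₆ / 864 := ⟨_, rfl⟩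
  obtain ⟨A, hA⟩ : ∃ A : F, A = -(algebraMap (𝓞 F) F (W⁄(𝓞 F)).c₄) / 48 := ⟨_, rfl⟩
  obtain ⟨B, hB⟩ : ∃ B : F, B = -(algebraMap (𝓞 F) F (W⁄(𝓞 F)).c₆) / 864 := ⟨_, rfl⟩
  have hA' : A = algebraMap ℚ F A₀ := by
    rw [hA, hc4, hA₀, map_div₀, map_neg, map_ofNat]
  have hB' : B = algebraMap ℚ F B₀ := by
    rw [hB, hc6, hB₀, map_div₀, map_neg, map_ofNat]
  have hΔ0 := hH.data.ell
  have hd := y3_ne (W⁄(𝓞 F)) hA hB hΔ0
  have hper : Per F (embF F A) (embF F B) Om := by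
    have e1 : embF F A = -(eF F (W⁄(𝓞 F)).c₄) / 48 := by
      rw [hA, map_div₀, map_neg, map_ofNat]
      rfl
    have e2 : embF F B = -(eF F (W⁄(𝓞 F)).c₆) / 864 := by
      rw [hB, map_div₀, map_neg, map_ofNat]
      rfl
    rw [e1, e2]
    exact hH.data.per
  obtain ⟨j, hj⟩ := exists_j F (AlgebraicClosure F)
  obtain ⟨act, h⟩ := exists_CMA F A B Om j hd hper hj
  have hΔQ : (W⁄ℚ).Δ = algebraMap ℤ ℚ W.Δ := W.map_Δ _
  have hΔF : (W⁄(𝓞 F)).Δ = algebraMap ℤ (𝓞 F) W.Δ := W.map_Δ _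
  refine ⟨A, B, A₀, B₀, j, act, h, hA₀, hB₀, hA', hB', ?_⟩
  intro h0
  apply hΔ0
  rw [hΔQ] at h0
  have h1 : W.Δ = 0 := by
    have h2 : (W.Δ : ℚ) = 0 := h0
    exact_mod_cast h2
  rw [hΔF, h1, map_zero]

open scoped Classical in
/-- Multiplication by δ = √-d on the points of the curve over the rational numbers. -/
theorem exists_sd (hH : BaseH F (W⁄(𝓞 F)) Om m ψ) (δ : 𝓞 F) (hδ : cj δ = -δ) :
    ∃ S : Pt (W⁄ℚ) (AlgebraicClosure F) →+ Pt (W⁄ℚ) (AlgebraicClosure F), (∀ P, S (S P) = -(Nm δ • P)) ∧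
    (∀ s : AlgebraicClosure F ≃ₐ[ℚ] AlgebraicClosure F,
      (∀ x : F, s (algebraMap F (AlgebraicClosure F) x) = algebraMap F (AlgebraicClosure F) x) →
        ∀ P, ac (W⁄ℚ) s (S P) = S (ac (W⁄ℚ) s P)) ∧
    (∀ s : AlgebraicClosure F ≃ₐ[ℚ] AlgebraicClosure F,
      (∀ a : 𝓞 F, s (ak (AlgebraicClosure F) a) = ak (AlgebraicClosure F) (cj a)) →
        ∀ P, ac (W⁄ℚ) s (S P) = -S (ac (W⁄ℚ) s P)) := by
  obtain ⟨A, B, A₀, B₀, j, act, h, hA₀, hB₀, hA, hB, hΔ⟩ := nk3_data hH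
  set Ω := AlgebraicClosure F with hΩ
  have hE : (WAB A B)⁄Ω = (WAB A₀ B₀)⁄Ω := by
    have e1 : algebraMap F Ω A = algebraMap ℚ Ω A₀ := by rw [hA, ← IsScalarTower.algebraMap_apply ℚ F Ω]
    have e2 : algebraMap F Ω B = algebraMap ℚ Ω B₀ := by rw [hB, ← IsScalarTower.algebraMap_apply ℚ F Ω]
    ext <;> simp [WAB, WeierstrassCurve.map, WeierstrassCurve.baseChange, e1, e2]
  obtain ⟨Θ, hΘ⟩ := nk2_iso (W⁄ℚ) hΔ hA₀ hB₀ ((WAB A B)⁄Ω) hE
  have hsA : ∀ s : Ω ≃ₐ[ℚ] Ω, (s : Ω ≃+* Ω) (algebraMap F Ω A) = algebraMap F Ω A := by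
    intro s
    rw [hA, ← IsScalarTower.algebraMap_apply ℚ F Ω]
    exact s.commutes _
  have hsB : ∀ s : Ω ≃ₐ[ℚ] Ω, (s : Ω ≃+* Ω) (algebraMap F Ω B) = algebraMap F Ω B := by
    intro s
    rw [hB, ← IsScalarTower.algebraMap_apply ℚ F Ω]
    exact s.commutes _
  -- Θ commutes with the automorphisms
  have hcomm : ∀ (s : Ω ≃ₐ[ℚ] Ω) (Q : Pt (WAB A B) Ω), ac (W⁄ℚ) s (Θ Q) = Θ (acr (s : Ω ≃+* Ω) (hsA s) (hsB s) Q) := by
    intro s Q
    by_cases hQ : Q = 0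
    · rw [hQ, map_zero, map_zero, map_zero, map_zero]
    · have hQ' : acr (s : Ω ≃+* Ω) (hsA s) (hsB s) Q ≠ 0 := fun h0 => hQ ((acr_zero_iff _ _ _ Q).1 h0)
      obtain ⟨a1, a2, a3⟩ := hΘ Q hQ
      obtain ⟨b1, b2, b3⟩ := hΘ _ hQ'
      obtain ⟨c1, c2, c3⟩ := MG.ac_crd (W := W⁄ℚ) s (Θ Q)
      rw [xc_acr] at b2
      rw [yc_acr] at b3
      have d2 := congrArg s a2
      have d3 := congrArg s a3
      rw [map_add, s.commutes] at d2
      rw [map_add, map_add, map_mul, s.commutes, s.commutes] at d3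
      have b2' : s (xc Q) = xc (Θ ((acr (s : Ω ≃+* Ω) (hsA s) (hsB s)) Q)) + algebraMap ℚ Ω ((W⁄ℚ).b₂ / 12) := b2
      have b3' : s (yc Q) = yc (Θ ((acr (s : Ω ≃+* Ω) (hsA s) (hsB s)) Q)) +
        algebraMap ℚ Ω ((W⁄ℚ).a₁ / 2) * xc (Θ ((acr (s : Ω ≃+* Ω) (hsA s) (hsB s)) Q)) + algebraMap ℚ Ω ((W⁄ℚ).a₃ / 2) := b3
      have hx : s (xc (Θ Q)) = xc (Θ ((acr (s : Ω ≃+* Ω) (hsA s) (hsB s)) Q)) := by
        linear_combination b2' - d2
      refine CC.c27_ext (fun h0 => a1 (c3.1 h0)) b1 ?_ ?_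
      · rw [c1]
        exact hx
      · rw [c2]
        rw [hx] at d3
        linear_combination b3' - d3
  have hact : ∀ (a b : 𝓞 F) (Q : Pt (WAB A B) Ω), act a (act b Q) = act (a * b) Q := by
    intro a b Q
    rw [map_mul]
    rfl
  have hneg : ∀ (a : 𝓞 F) (Q : Pt (WAB A B) Ω), act (-a) Q = -act a Q := by
    intro a Q
    rw [map_neg]
    rfl
  have hδ2 : δ * δ = -(Nm δ : 𝓞 F) := by
    have h1 := mul_cj δ
    rw [hδ] at h1
    linear_combination -h1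
  obtain ⟨S, hS⟩ : ∃ S : Pt (W⁄ℚ) Ω →+ Pt (W⁄ℚ) Ω, ∀ Q, S (Θ Q) = Θ (act δ Q) := by
    refine ⟨(Θ : Pt (WAB A B) Ω →+ Pt (W⁄ℚ) Ω).comp ((act δ : Pt (WAB A B) Ω →+ Pt (WAB A B) Ω).comp
      (Θ.symm : Pt (W⁄ℚ) Ω →+ Pt (WAB A B) Ω)), fun Q => ?_⟩
    show Θ (act δ (Θ.symm (Θ Q))) = _
    rw [Θ.symm_apply_apply]
  refine ⟨S, fun P => ?_, fun s hs P => ?_, fun s hs P => ?_⟩
  · obtain ⟨Q, rfl⟩ := Θ.surjective P
    rw [hS, hS, hact, hδ2, hneg, cu_nat, map_neg, map_nsmul]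
  · obtain ⟨Q, rfl⟩ := Θ.surjective P
    rw [hS, hcomm, hcomm, hS]
    congr 1
    let sF : Ω ≃ₐ[F] Ω := AlgEquiv.ofRingEquiv (f := (s : Ω ≃+* Ω)) hs
    have h1 : ∀ R : Pt (WAB A B) Ω, acr (s : Ω ≃+* Ω) (hsA s) (hsB s) R = ac (WAB A B) sF R :=
      fun R => acr_eq_ac sF (hsA s) (hsB s) R
    rw [h1, h1]
    exact h.gal sF δ Q
  · obtain ⟨Q, rfl⟩ := Θ.surjective P
    rw [hS, hcomm, hcomm, hS, cma_galr h (s : Ω ≃+* Ω) (hsA s) (hsB s) hs, hδ, hneg, map_neg]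

open scoped Classical in
/-- A nonzero Selmer class over the field generated by F gives one over K. -/
theorem nonsel_KG (hH : BaseH F (W⁄(𝓞 F)) Om m ψ) {p : ℕ} (hp : p.Prime) (hp2 : p ≠ 2) (hU : UnrP p F)
    (K : Type) [Field K] [NumberField K] (ι : K →ₐ[ℚ] AlgebraicClosure F) [NumberField (KG F K ι)]
    (h : SelNon ((W⁄(𝓞 F))⁄F) p (KG F K ι)) : SelNonT (W⁄K) p := by
  set Ω := AlgebraicClosure F with hΩ
  have hcl : IsAlgClosure ℚ Ω := ⟨inferInstance, Algebra.IsAlgebraic.trans ℚ F Ω⟩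
  have hal : Algebra.IsAlgebraic ℚ Ω := IsAlgClosure.isAlgebraic
  have hfd : FiniteDimensional F (KG F K ι) := FiniteDimensional.right ℚ F (KG F K ι)
  have hfq : FiniteDimensional ℚ ((KG F K ι).restrictScalars ℚ) := by
    have : FiniteDimensional ℚ (KG F K ι) := inferInstance
    exact this
  have hWF : (W⁄ℚ)⁄F = (W⁄(𝓞 F))⁄F := by
    ext <;> simp [WeierstrassCurve.map, WeierstrassCurve.baseChange]
  have hWK : (W⁄ℚ)⁄K = W⁄K := by
    ext <;> simp [WeierstrassCurve.map, WeierstrassCurve.baseChange]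
  rw [← hWF] at h
  rw [← hWK]
  have h1 : SelNon (W⁄ℚ) p ((KG F K ι).restrictScalars ℚ) := H13Y.non_base (F := F) (W⁄ℚ) p (KG F K ι) h
  obtain ⟨δ, hδ, hNδ⟩ := nk2_delta hp hp2 hU
  obtain ⟨S, hS, hS1, hS2⟩ := exists_sd hH δ hδ
  have hδ0 : δ ≠ 0 := by
    rintro rfl
    apply hNδ
    have e : Nm (0 : 𝓞 F) = 0 := H55P.Nm_eq_zero.2 rfl
    rw [e]
    exact dvd_zero p
  have hak : ak Ω δ ≠ 0 := by
    intro h0
    apply hδ0
    have e1 : algebraMap F Ω (δ : F) = algebraMap F Ω 0 := by rw [map_zero]; exact h0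
    have e2 := (algebraMap F Ω).injective e1
    exact_mod_cast e2
  have hneg : ak Ω (cj δ) = -ak Ω δ := by
    rw [hδ]
    show algebraMap F Ω (algebraMap (𝓞 F) F (-δ)) = _
    rw [map_neg, map_neg]
  have hne : -ak Ω δ ≠ ak Ω δ := by
    intro h0
    have h2 : (2 : Ω) * ak Ω δ = 0 := by linear_combination -h0
    rcases mul_eq_zero.1 h2 with h3 | h3
    · exact two_ne_zero h3
    · exact hak h3
  -- s δ = δ if and only if s is trivial on F
  have hd1 : ∀ s : Ω ≃ₐ[ℚ] Ω, s (ak Ω δ) = ak Ω δ → ∀ x : F, s (algebraMap F Ω x) = algebraMap F Ω x := by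
    intro s hs
    rcases nk2_dich (F := F) s with h2 | h2
    · exact h2
    · exfalso
      rw [h2, hneg] at hs
      exact hne hs
  have hd2 : ∀ s : Ω ≃ₐ[ℚ] Ω, s (ak Ω δ) ≠ ak Ω δ → ∀ a : 𝓞 F, s (ak Ω a) = ak Ω (cj a) := by
    intro s hs
    rcases nk2_dich (F := F) s with h2 | h2
    · exact absurd (h2 _) hs
    · exact h2
  have hfixK : ∀ s : Ω ≃ₐ[ℚ] Ω, s ∈ ι.fieldRange.fixingSubgroup → ∀ x : K, s (ι x) = ι x := fun s hs x =>
    (IntermediateField.mem_fixingSubgroup_iff _ s).1 hs (ι x) ⟨x, rfl⟩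
  refine H13Z.non_transport (W⁄ℚ) p K ι ?_
  refine nk_desc (W⁄ℚ) hp hp2 (kg_le F K ι) ?_ S (Nm δ) hNδ hS (ak Ω δ) (-ak Ω δ) ?_ ?_ ?_
    (fun s hs => hS1 s (hd1 s hs)) (fun s hs => hS2 s (hd2 s hs)) h1
  · intro s hs x hx
    exact kg_stable F K ι s (hfixK s hs) x hx
  · intro s hs
    constructor
    · intro hs'
      exact (IntermediateField.mem_fixingSubgroup_iff _ s).1 hs' _ ((KG F K ι).algebraMap_mem (δ : F))
    · intro hs'
      rw [IntermediateField.mem_fixingSubgroup_iff]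
      intro y hy
      have hF := hd1 s hs'
      refine IntermediateField.adjoin_induction F (p := fun x _ => s x = x) ?_ ?_ ?_ ?_ ?_ hy
      · rintro _ ⟨x, rfl⟩
        exact hfixK s hs x
      · exact hF
      · intro x y _ _ h1 h2
        rw [map_add, h1, h2]
      · intro x _ h1
        rw [map_inv₀, h1]
      · intro x y _ _ h1 h2
        rw [map_mul, h1, h2]
  · intro s
    by_cases hs : s (ak Ω δ) = ak Ω δ
    · exact Or.inl hs
    · right
      rw [hd2 s hs, hneg]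
  · intro s hs
    rw [map_neg, hs, neg_neg]


end main

end H55K.TQ
end

-- from Lib.H55K.FB9B
section

/-! # H55K: Selmer groups over K -/

open NumberField IsDedekindDomain WeierstrassCurve

namespace H55K.TQ

open H55P (IQ embF eF LF Per IsHecke Pt ac Inert Dec Nm UnitP)
open H35P (WAB Ker tt GoodW IntW)
open H55K.MG (VC Crd)

variable {F : Type} [Field F] [NumberField F] [IQ F] {W : WeierstrassCurve ℤ} {Om : ℂ}
    {m : Ideal (𝓞 F)} {ψ : Ideal (𝓞 F) →*₀ 𝓞 F} {p : ℕ}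

theorem fb9b_map {A B : Type} [CommRing A] [CommRing B] [Algebra A B] (W : WeierstrassCurve ℤ) :
    (W⁄A)⁄B = W⁄B :=
  (WeierstrassCurve.map_map W (algebraMap ℤ A) (algebraMap A B)).trans
    (congrArg W.map (RingHom.ext_int _ _))

open Classical in
/-- The groups of points over K and over its image. -/
theorem fb9b_pts {Ω : Type} [Field Ω] [Algebra ℚ Ω] (W : WeierstrassCurve ℚ) (K : Type) [Field K] [Algebra ℚ K]
    (ι : K →ₐ[ℚ] Ω) (p : ℕ)
    (h : Finite (Pt W ι.fieldRange) ∧ ¬ p ∣ Nat.card (Pt W ι.fieldRange)) :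
    Finite (Pt W K) ∧ ¬ p ∣ Nat.card (Pt W K) := by
  let e0 : K →+* ι.fieldRange :=
    { toFun := fun x => ⟨ι x, ⟨x, rfl⟩⟩
      map_one' := Subtype.ext (map_one ι)
      map_mul' := fun x y => Subtype.ext (map_mul ι x y)
      map_zero' := Subtype.ext (map_zero ι)
      map_add' := fun x y => Subtype.ext (map_add ι x y) }
  have hs : Function.Surjective e0 := by
    rintro ⟨_, y, rfl⟩
    exact ⟨y, rfl⟩
  let e1 : K ≃+* ι.fieldRange := RingEquiv.ofBijective e0 ⟨e0.injective, hs⟩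
  have e : K ≃ₐ[ℚ] ι.fieldRange := AlgEquiv.ofRingEquiv (f := e1) (fun q => by
    rw [eq_ratCast, map_ratCast, eq_ratCast])
  have h1 : Function.Injective (Affine.Point.map (W' := W.toAffine) e.toAlgHom) :=
    Affine.Point.map_injective _
  have h2 : Function.Injective (Affine.Point.map (W' := W.toAffine) e.symm.toAlgHom) :=
    Affine.Point.map_injective _
  have hf : Finite (Pt W K) := by
    have := h.1
    exact Finite.of_injective _ h1
  refine ⟨hf, ?_⟩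
  have := h.1
  have h3 : Nat.card (Pt W K) = Nat.card (Pt W ι.fieldRange) :=
    le_antisymm (Nat.card_le_card_of_injective _ h1) (Nat.card_le_card_of_injective _ h2)
  rw [h3]
  exact h.2

/-- Chunk FB9B (M). As in H55P.bsdP_of (Fin.lean), with W⁄ℚ for E27: sel_base, tors_base, sel_down (Z11.lean) with kg_le, kg_norm (RP1.lean) and tors_K, sel_transport, sha_transport, sha_zero, pts_fin, pts_congr. The curves (W⁄ℚ)⁄F and (W⁄(𝓞 F))⁄F agree (map_map), also (W⁄ℚ)⁄K = W⁄K. -/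
theorem sel_abs (hH : BaseH F (W⁄(𝓞 F)) Om m ψ) (hp : PrimeH F (W⁄(𝓞 F)) p) {L : IntermediateField F (AlgebraicClosure F)}
    (hL : H55P.PExt p ⊥ L) (K : Type) [Field K] [NumberField K] (ι : K →ₐ[ℚ] AlgebraicClosure F) (hK : KG F K ι ≤ L)
    (hS : H55P.SelG p (W⁄(𝓞 F)) (KG F K ι)) :
    H55P.SelTriv (W⁄K) p ∧ H55P.ShaTriv (W⁄K) p ∧
      Finite (W⁄K).toAffine.Point ∧ ¬ p ∣ Nat.card (W⁄K).toAffine.Point := by
  classical
  have hQF := tower_QFF F
  have hQA := alg_QFF F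
  have hLf : FiniteDimensional F L := hL.fin
  have hK'f : FiniteDimensional F (KG F K ι) := H55P.finDim_of_le hK
  have hd : W.Δ ≠ 0 := by
    intro h
    apply hH.data.ell
    have e := WeierstrassCurve.map_Δ W (algebraMap ℤ (𝓞 F))
    rw [h, map_zero] at e
    exact e
  have hell : (W⁄ℚ).IsElliptic := by
    rw [WeierstrassCurve.isElliptic_iff]
    have e := WeierstrassCurve.map_Δ W (algebraMap ℤ ℚ)
    refine IsUnit.mk0 _ ?_
    intro h
    apply hd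
    have h1 : (algebraMap ℤ ℚ) W.Δ = 0 := e.symm.trans h
    rw [eq_intCast] at h1
    exact_mod_cast h1
  have e1 : ((W⁄ℚ)⁄F) = ((W⁄(𝓞 F))⁄F) := by
    rw [fb9b_map, fb9b_map]
  have hS0 : H55P.SelZero ((W⁄ℚ)⁄F) p (KG F K ι) := by
    rw [e1]
    exact hS
  have hS1 : H55P.SelZero (W⁄ℚ) p ((KG F K ι).restrictScalars ℚ) :=
    H55P.sel_base (F := F) (W⁄ℚ) p (KG F K ι) hS0
  have hT0 : ∀ T : Pt ((W⁄ℚ)⁄F) (AlgebraicClosure F), p • T = 0 →
      (∀ s ∈ (KG F K ι).fixingSubgroup, ac ((W⁄ℚ)⁄F) s T = T) → T = 0 := by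
    rw [e1]
    exact tors_K hH hp hL hK
  have hT1 : ∀ T : Pt (W⁄ℚ) (AlgebraicClosure F), p • T = 0 →
      (∀ s ∈ ((KG F K ι).restrictScalars ℚ).fixingSubgroup, ac (W⁄ℚ) s T = T) → T = 0 :=
    H55P.tors_base (F := F) (W⁄ℚ) p (KG F K ι) hT0
  have hKQ : FiniteDimensional ℚ ((KG F K ι).restrictScalars ℚ) := by
    have : FiniteDimensional ℚ (KG F K ι) := Module.Finite.trans F (KG F K ι)
    exact this
  have hS2 : H55P.SelZero (W⁄ℚ) p ι.fieldRange :=
    H55P.sel_down (W⁄ℚ) p ι.fieldRange ((KG F K ι).restrictScalars ℚ) (kg_le F K ι) (kg_norm F K ι) hT1 hS1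
  have hfr : FiniteDimensional ℚ ι.fieldRange :=
    Module.Finite.equiv (AlgEquiv.ofInjectiveField ι).toLinearEquiv
  have hpt := fb9b_pts (W⁄ℚ) K ι p (H55P.pts_fin (W⁄ℚ) p hp.prime ι.fieldRange hS2)
  have hsel := H55P.sel_transport (W⁄ℚ) p K ι hS2
  have hsha := H55P.sha_transport (W⁄ℚ) p K ι (H55P.sha_zero (W⁄ℚ) p hp.prime _ hS2)
  have e2 : ((W⁄ℚ)⁄K) = (W⁄K) := fb9b_map W
  change Finite ((W⁄ℚ)⁄K).toAffine.Point ∧ ¬ p ∣ Nat.card ((W⁄ℚ)⁄K).toAffine.Point at hpt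
  rw [e2] at hpt hsel hsha
  exact ⟨hsel, hsha, hpt.1, hpt.2⟩

end H55K.TQ
end

-- from Lib.H55W.L8G
section

/-! # H55W, part L: the Frobenius element, discriminant -8 -/

open NumberField IsDedekindDomain WeierstrassCurve

namespace H55W

open H55P (IQ embF eF LF Per IsHecke Pt ac Inert Dec Nm)
open H35P (WAB Ker tt GoodW IntW)
open H55K
open H13D (RM)

variable {F : Type} [Field F] [NumberField F] [IQ F] {φ : 𝓞 F} {A B : F} {Om : ℂ} {Ω : Type} [Field Ω] [DecidableEq Ω]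
  [Algebra F Ω] {j : Ω →+* ℂ} {act : 𝓞 F →+* AddMonoid.End (Pt (WAB A B) Ω)} {V : ValuationSubring Ω}
  {Kg : AddSubgroup (Pt (WAB A B) Ω)} {v : HeightOneSpectrum (𝓞 F)} {s : Ω ≃ₐ[F] Ω} {r : Ω}

theorem l8g_sq (h2 : V.valuation (2 : Ω) = 1) {w : Ω} (hw : V.valuation (w - 1) < 1) : V.valuation (w ^ 2 - 1) < 1 ∧ (w ^ 2 = 1 → w = 1) := by
  have h3 : V.valuation (w + 1) ≤ 1 := by
    have e : w + 1 = (w - 1) + 2 := by ring
    rw [e]
    exact (Valuation.map_add _ _ _).trans (max_le hw.le h2.le)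
  refine ⟨?_, fun h => ?_⟩
  · have e : w ^ 2 - 1 = (w - 1) * (w + 1) := by ring
    rw [e, map_mul]
    exact mul_lt_one_of_lt_of_le hw h3
  · have h4 : (w - 1) * (w + 1) = 0 := by
      linear_combination h
    rcases mul_eq_zero.1 h4 with h5 | h5
    · exact sub_eq_zero.1 h5
    · exfalso
      have e : w - 1 = -2 := by linear_combination h5
      rw [e, Valuation.map_neg, h2] at hw
      exact lt_irrefl _ hw

/-- Chunk L8G (S). s ζ = ζ^N: s ζ and ζ^N are roots of X^8 + 1 or X^16 - 1, congruent at V, V(2) = 1: two 16th roots of unity z, z' with V(z - z') < 1 are equal: w = z/z', w^16 = 1, V(w - 1) < 1; if w ≠ 1 then some power w^(2^k) = -1 (16 = 2^4), and V(-1 - 1) < 1: contradiction. -/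
theorem frob_zeta (hL : LD v V s Kg r) (h2 : (2 : 𝓞 F) ∉ v.asIdeal) {ζ : Ω} (hζ : ζ ^ 8 = -1) : s ζ = ζ ^ Ideal.absNorm v.asIdeal := by
  have hV2 : V.valuation (2 : Ω) = 1 := by
    have h3 := hL.eq 2 h2
    have e : ak Ω (2 : 𝓞 F) = (2 : Ω) := by
      show algebraMap F Ω (algebraMap (𝓞 F) F 2) = 2
      rw [map_ofNat, map_ofNat]
    rwa [e] at h3
  have hζ16 : ζ ^ 16 = 1 := by
    have : ζ ^ 16 = (ζ ^ 8) ^ 2 := by ring
    rw [this, hζ]
    norm_num
  have hVζ : V.valuation ζ = 1 := by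
    have h3 := congrArg V.valuation hζ16
    rw [map_pow, map_one] at h3
    exact (pow_eq_one_iff_of_nonneg zero_le (by norm_num)).1 h3
  have hζV : ζ ∈ V := (V.valuation_le_one_iff ζ).1 hVζ.le
  have hf := hL.frob ζ hζV
  set N := Ideal.absNorm v.asIdeal with hN
  have hζ0 : ζ ≠ 0 := by
    intro h
    rw [h, map_zero] at hVζ
    exact zero_ne_one hVζ
  have hζN : ζ ^ N ≠ 0 := pow_ne_zero _ hζ0
  have hw : V.valuation (s ζ / ζ ^ N - 1) < 1 := by
    have e : s ζ / ζ ^ N - 1 = (s ζ - ζ ^ N) / ζ ^ N := by field_simp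
    rw [e, map_div₀, map_pow, hVζ, one_pow, div_one]
    exact hf
  have hw16 : (s ζ / ζ ^ N) ^ 16 = 1 := by
    rw [div_pow, ← map_pow, hζ16, map_one, ← pow_mul, mul_comm, pow_mul, hζ16, one_pow, div_one]
  set w := s ζ / ζ ^ N with hwdef
  obtain ⟨a1, b1⟩ := l8g_sq hV2 hw
  obtain ⟨a2, b2⟩ := l8g_sq hV2 a1
  obtain ⟨a3, b3⟩ := l8g_sq hV2 a2
  obtain ⟨a4, b4⟩ := l8g_sq hV2 a3
  have h5 : w = 1 := b1 (b2 (b3 (b4 (by
    have e : (((w ^ 2) ^ 2) ^ 2) ^ 2 = w ^ 16 := by ring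
    rw [e, hw16]))))
  rw [hwdef, div_eq_one_iff_eq hζN] at h5
  exact h5

theorem l8g_pm {T P : Pt (WAB A B) Ω} {κ η : 𝓞 F} (hκ : act κ T = P) (hP : P ≠ 0) (hT : T ≠ 0) (hη : η = 1 ∨ η = -1)
    (s : Ω ≃ₐ[F] Ω) (hx : s (xc T) = xc P) (hy : s (yc T) = ak Ω η * yc P) : ac (WAB A B) s T = act (η * κ) T := by
  have h1 : act (η * κ) T = act η P := by
    rw [map_mul, ← hκ]
    rfl
  have hac : ac (WAB A B) s T ≠ 0 := ac_ne (WAB A B) s hT
  rw [h1]
  rcases hη with rfl | rfl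
  · have h2 : act 1 P = P := by
      rw [map_one]
      rfl
    have h3 : ak Ω (1 : 𝓞 F) = 1 := by
      show algebraMap F Ω (algebraMap (𝓞 F) F 1) = 1
      rw [map_one, map_one]
    rw [h3, one_mul] at hy
    rw [h2]
    refine pt_ext hac hP ?_ ?_
    · rw [xc_ac, hx]
    · rw [yc_ac, hy]
  · have h2 : act (-1) P = -P := by
      rw [map_neg, map_one]
      rfl
    have h3 : ak Ω (-1 : 𝓞 F) = -1 := by
      show algebraMap F Ω (algebraMap (𝓞 F) F (-1)) = -1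
      rw [map_neg, map_one, map_neg, map_one]
    rw [h3] at hy
    rw [h2]
    refine pt_ext hac (neg_ne_zero.2 hP) ?_ ?_
    · rw [xc_ac, hx, xc_neg]
    · rw [yc_ac, hy, yc_neg]
      ring

/-- Chunk L8G (M). Computation with the coordinates: σ = ζ^2 - ζ^6, δ = 4 yc T/(n (ζ + ζ^(-1))), ζ^(-1) = -ζ^7, (ζ - ζ^7)^2 = 2 + σ ≠ 0 (σ^2 = 2), so δ^2 = n and yc T = n δ (ζ - ζ^7)/4. s δ = η δ, η = 1 or -1 (δ^2 = n). s ζ = ζ^N, N mod 16 in {1, 3, 9, 11}; ζ^8 = -1. The point ac s T has the coordinates n/3 + n s(σ)/4, n η δ (s ζ - (s ζ)^7)/4 (xc_ac, yc_ac).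
N = 1: (ζ, σ ↦ σ): ac s T = act η T. N = 9: ζ ↦ -ζ: ac s T = act (-η) T. N = 3: σ ↦ -σ, ζ - ζ^7 ↦ ζ^3 - ζ^21 = ζ^3 - ζ^5·ζ^16.. = ζ^3 - ζ^5, and (σ - 1)(ζ - ζ^7) = ζ^3 - ζ^5: ac s T = act (-η (1 + φ)) T (tg_add). N = 11: ζ^11 - ζ^77 = -(ζ^3 - ζ^5): ac s T = act (η (1 + φ)) T. Compare the coordinates: H55K.pt_ext, yc_neg, xc_neg; act (-1) = neg.
So ac s T = act (η kap N) T with η = 1 or -1 in 𝓞 F. -/
theorem zeta_act (h : CMA F A B Om j act) (hφ : TI φ) {n : ℤ} {T : Pt (WAB A B) Ω} (hT : TG act φ T) {ζ : Ω} (hζ : ζ ^ 8 = -1)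
    (hn : (n : Ω) ≠ 0) (hx : xc T = (n : Ω) / 3 + n * (ζ ^ 2 - ζ ^ 6) / 4) (hy : 16 * yc T ^ 2 = n ^ 3 * (2 + (ζ ^ 2 - ζ ^ 6)))
    (hx' : xc (act (1 + φ) T) = (n : Ω) / 3 - n * (ζ ^ 2 - ζ ^ 6) / 4) (hy' : yc (act (1 + φ) T) = -((ζ ^ 2 - ζ ^ 6) - 1) * yc T)
    (s : Ω ≃ₐ[F] Ω) {N : ℕ} (hN : NR N) (hs : s ζ = ζ ^ N) :
    ∃ (δ : Ω) (η : 𝓞 F), δ ^ 2 = (n : Ω) ∧ (η = 1 ∨ η = -1) ∧ s δ = ak Ω η * δ ∧ ac (WAB A B) s T = act (η * kap φ N) T := by
  have h2 : (2 : Ω) ≠ 0 := by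
    have := (map_ne_zero (algebraMap F Ω)).2 (two_ne_zero (α := F))
    rwa [map_ofNat] at this
  have h4 : (4 : Ω) ≠ 0 := by
    have e : (4 : Ω) = 2 * 2 := by norm_num
    rw [e]
    exact mul_ne_zero h2 h2
  have h16 : (16 : Ω) ≠ 0 := by
    have e : (16 : Ω) = 4 * 4 := by norm_num
    rw [e]
    exact mul_ne_zero h4 h4
  set σ : Ω := ζ ^ 2 - ζ ^ 6 with hσ
  set u : Ω := ζ - ζ ^ 7 with hu
  have hσ2 : σ ^ 2 = 2 := by
    rw [hσ]
    linear_combination (ζ ^ 4 - 2) * hζ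
  have hu2 : u ^ 2 = 2 + σ := by
    rw [hu, hσ]
    linear_combination (ζ ^ 6 - 2) * hζ
  have hσ' : 2 + σ ≠ 0 := by
    intro h0
    apply h2
    linear_combination (2 - σ) * h0 + hσ2
  have hσ1 : σ - 1 ≠ 0 := by
    intro h0
    have h1 : (1 : Ω) = 0 := by linear_combination (σ + 1) * h0 - hσ2
    exact one_ne_zero h1
  have hu0 : u ≠ 0 := by
    intro h0
    rw [h0] at hu2
    exact hσ' (by rw [← hu2]; ring)
  have hy0 : yc T ≠ 0 := by
    intro h0
    rw [h0] at hy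
    have h1 : (n : Ω) ^ 3 * (2 + σ) ≠ 0 := mul_ne_zero (pow_ne_zero 3 hn) hσ'
    exact h1 (by rw [← hy]; ring)
  have hyz : yc (0 : Pt (WAB A B) Ω) = 0 := rfl
  have hT0 : T ≠ 0 := by
    intro h0
    rw [h0] at hy0
    exact hy0 hyz
  have hT1 : act (1 + φ) T ≠ 0 := by
    intro h0
    rw [h0, hyz] at hy'
    exact mul_ne_zero (neg_ne_zero.2 hσ1) hy0 hy'.symm
  set δ : Ω := 4 * yc T / (n * u) with hδ
  have hδ2 : δ ^ 2 = (n : Ω) := by
    rw [hδ, div_pow, mul_pow, mul_pow, hu2, div_eq_iff (mul_ne_zero (pow_ne_zero 2 hn) hσ')]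
    linear_combination hy
  have hyδ : yc T = n * δ * u / 4 := by
    rw [hδ]
    field_simp
  have hsn : s (n : Ω) = n := map_intCast s n
  have hsδ : s δ = δ ∨ s δ = -δ := by
    apply sq_eq_sq_iff_eq_or_eq_neg.1
    rw [← map_pow, hδ2, hsn]
  have hs3 : s (3 : Ω) = 3 := map_ofNat s 3
  have hs4 : s (4 : Ω) = 4 := map_ofNat s 4
  obtain ⟨η, hη, hη'⟩ : ∃ η : 𝓞 F, (η = 1 ∨ η = -1) ∧ s δ = ak Ω η * δ := by
    rcases hsδ with h0 | h0
    · refine ⟨1, Or.inl rfl, ?_⟩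
      have h3 : ak Ω (1 : 𝓞 F) = 1 := by
        show algebraMap F Ω (algebraMap (𝓞 F) F 1) = 1
        rw [map_one, map_one]
      rw [h3, one_mul, h0]
    · refine ⟨-1, Or.inr rfl, ?_⟩
      have h3 : ak Ω (-1 : 𝓞 F) = -1 := by
        show algebraMap F Ω (algebraMap (𝓞 F) F (-1)) = -1
        rw [map_neg, map_one, map_neg, map_one]
      rw [h3, neg_one_mul, h0]
  refine ⟨δ, η, hδ2, hη, hη', ?_⟩
  have hsx : s (xc T) = n / 3 + n * s σ / 4 := by
    rw [hx, map_add, map_div₀, map_div₀, map_mul, hsn, hs3, hs4]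
  have hsy : s (yc T) = ak Ω η * (n * δ * s u / 4) := by
    rw [hyδ, map_div₀, map_mul, map_mul, hsn, hs4, hη']
    ring
  have hsσ : s σ = (s ζ) ^ 2 - (s ζ) ^ 6 := by
    rw [hσ, map_sub, map_pow, map_pow]
  have hsu : s u = s ζ - (s ζ) ^ 7 := by
    rw [hu, map_sub, map_pow]
  have hζ16 : ζ ^ 16 = 1 := by
    have e : ζ ^ 16 = (ζ ^ 8) ^ 2 := by ring
    rw [e, hζ]
    norm_num
  have hmod : ζ ^ N = ζ ^ (N % 16) := by
    conv_lhs => rw [← Nat.div_add_mod N 16]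
    rw [pow_add, pow_mul, hζ16, one_pow, one_mul]
  have hneg : act (-1) T = -T := by
    rw [map_neg, map_one]
    rfl
  have hone : act 1 T = T := by
    rw [map_one]
    rfl
  have hneg' : act (-(1 + φ)) T = -act (1 + φ) T := by
    rw [map_neg]
    rfl
  rcases hN with h0 | h0 | h0 | h0
  · -- 1
    have hk : kap φ N = 1 := by
      unfold kap
      rw [if_pos h0]
    have hz : s ζ = ζ := by rw [hs, hmod, h0, pow_one]
    rw [hk]
    refine l8g_pm hone hT0 hT0 hη s ?_ ?_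
    · rw [hsx, hsσ, hz, hx]
    · rw [hsy, hsu, hz, hyδ]
  · -- 3
    have hk : kap φ N = -(1 + φ) := by
      unfold kap
      rw [if_neg (by omega), if_neg (by omega), if_pos h0]
    have hz : s ζ = ζ ^ 3 := by rw [hs, hmod, h0]
    rw [hk]
    refine l8g_pm hneg' (neg_ne_zero.2 hT1) hT0 hη s ?_ ?_
    · rw [hsx, hsσ, hz, xc_neg, hx', hσ]
      have e : ((ζ ^ 3) ^ 2 - (ζ ^ 3) ^ 6 : Ω) = -(ζ ^ 2 - ζ ^ 6) := by
        linear_combination (-ζ ^ 10 + ζ ^ 2) * hζ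
      rw [e]
      ring
    · rw [hsy, hsu, hz, yc_neg, hy', hyδ]
      have e : (ζ ^ 3 - (ζ ^ 3) ^ 7 : Ω) = (σ - 1) * u := by
        rw [hσ, hu]
        linear_combination (-ζ ^ 13 + ζ) * hζ
      rw [e]
      ring
  · -- 9
    have hk : kap φ N = -1 := by
      unfold kap
      rw [if_neg (by omega), if_pos h0]
    have hz : s ζ = -ζ := by
      rw [hs, hmod, h0]
      linear_combination ζ * hζ
    rw [hk]
    refine l8g_pm hneg (neg_ne_zero.2 hT0) hT0 hη s ?_ ?_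
    · rw [hsx, hsσ, hz, xc_neg, hx, hσ]
      ring
    · rw [hsy, hsu, hz, yc_neg, hyδ, hu]
      ring
  · -- 11
    have hk : kap φ N = 1 + φ := by
      unfold kap
      rw [if_neg (by omega), if_neg (by omega), if_neg (by omega)]
    have hz : s ζ = -ζ ^ 3 := by
      rw [hs, hmod, h0]
      linear_combination ζ ^ 3 * hζ
    rw [hk]
    refine l8g_pm rfl hT1 hT0 hη s ?_ ?_
    · rw [hsx, hsσ, hz, hx', hσ]
      have e : ((-ζ ^ 3) ^ 2 - (-ζ ^ 3) ^ 6 : Ω) = -(ζ ^ 2 - ζ ^ 6) := by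
        linear_combination (-ζ ^ 10 + ζ ^ 2) * hζ
      rw [e]
      ring
    · rw [hsy, hsu, hz, hy', hyδ]
      have e : (-ζ ^ 3 - (-ζ ^ 3) ^ 7 : Ω) = -((σ - 1) * u) := by
        rw [hσ, hu]
        linear_combination (ζ ^ 13 - ζ) * hζ
      rw [e]
      ring

end H55W
end

-- from Lib.H55W.L8H
section

/-! # H55W, part L: the Frobenius element, discriminant -8 -/

open NumberField IsDedekindDomain WeierstrassCurve

namespace H55W

open H55P (IQ embF eF LF Per IsHecke Pt ac Inert Dec Nm)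
open H35P (WAB Ker tt GoodW IntW)
open H55K
open H13D (RM)

variable {F : Type} [Field F] [NumberField F] [IQ F] {φ : 𝓞 F} {A B : F} {Om : ℂ} {Ω : Type} [Field Ω] [DecidableEq Ω]
  [Algebra F Ω] {j : Ω →+* ℂ} {act : 𝓞 F →+* AddMonoid.End (Pt (WAB A B) Ω)} {V : ValuationSubring Ω}
  {Kg : AddSubgroup (Pt (WAB A B) Ω)} {v : HeightOneSpectrum (𝓞 F)} {s : Ω ≃ₐ[F] Ω} {r : Ω}

theorem l8h_gen [IsAlgClosed Ω] (hφ : TI φ) (h : CMA F A B Om j act) {n : ℤ} (hA : 24 * A = -5 * (n : F) ^ 2) (hB : 216 * B = 7 * (n : F) ^ 3)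
    {τ : Ω} (hτ : τ ^ 2 = 2) : ∃ T : Pt (WAB A B) Ω, TG act φ T ∧ (n : Ω) ≠ 0 ∧ xc T = (n : Ω) / 3 + n * τ / 4 ∧
      16 * yc T ^ 2 = n ^ 3 * (2 + τ) ∧ xc (act (1 + φ) T) = (n : Ω) / 3 - n * τ / 4 ∧ yc (act (1 + φ) T) = -(τ - 1) * yc T := by
  have : CharZero Ω := charZero_of_injective_algebraMap (algebraMap F Ω).injective
  obtain ⟨T0, hT0⟩ := exists_TG h hφ
  obtain ⟨hn0, σ0, hσ0, hx0, hy0, hx0', hy0'⟩ := tg_add h hφ hA hB hT0
  have h1 : (σ0 - τ) * (σ0 + τ) = 0 := by linear_combination hσ0 - hτ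
  rcases mul_eq_zero.1 h1 with h2 | h2
  · have h3 : σ0 = τ := sub_eq_zero.1 h2
    subst h3
    exact ⟨T0, hT0, hn0, hx0, hy0, hx0', hy0'⟩
  · have h3 : σ0 = -τ := by linear_combination h2
    have hT := tg_one hφ hT0
    obtain ⟨-, σ, hσ, hx, hy, hx', hy'⟩ := tg_add h hφ hA hB hT
    have h4 : (n : Ω) * (σ - τ) = 0 := by
      have h5 := hx.symm.trans hx0'
      rw [h3] at h5
      linear_combination 4 * h5
    have h6 : σ = τ := by
      rcases mul_eq_zero.1 h4 with h7 | h7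
      · exact absurd h7 hn0
      · exact sub_eq_zero.1 h7
    subst h6
    exact ⟨_, hT, hn0, hx, hy, hx', hy'⟩

theorem l8h_phi (hφ : TI φ) (h2 : (2 : 𝓞 F) ∉ v.asIdeal) : φ ∉ v.asIdeal := by
  intro h
  apply h2
  have h1 : (2 : 𝓞 F) = -φ * φ := by linear_combination hφ.sq
  rw [h1]
  exact v.asIdeal.mul_mem_left _ h

theorem l8h_ndvd (hφ : TI φ) (h2 : (2 : 𝓞 F) ∉ v.asIdeal) {β : 𝓞 F} (hβ : Ideal.span {β} = v.asIdeal) : ¬ φ ∣ β := by
  rintro ⟨c, hc⟩
  have hβm : β ∈ v.asIdeal := by rw [← hβ]; exact Ideal.mem_span_singleton_self β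
  have h3 : φ * c ∈ v.asIdeal := hc ▸ hβm
  rcases v.isPrime.mem_or_mem h3 with h4 | h4
  · exact l8h_phi hφ h2 h4
  · rw [← hβ, Ideal.mem_span_singleton] at h4
    obtain ⟨d, hd⟩ := h4
    have hβ0 : β ≠ 0 := by
      intro h0
      apply v.ne_bot
      rw [← hβ, h0]
      exact Ideal.span_singleton_eq_bot.2 rfl
    have h5 : φ * d = 1 := by
      apply mul_left_cancel₀ hβ0
      calc β * (φ * d) = φ * (β * d) := by ring
        _ = φ * c := by rw [← hd]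
        _ = β * 1 := by rw [← hc, mul_one]
    have h6 : (φ ^ 2 - 1 : 𝓞 F) = 0 := by
      rcases ti_unit hφ (IsUnit.of_mul_eq_one _ h5) with h7 | h7 <;> rw [h7] <;> ring
    have h8 : (3 : 𝓞 F) = 0 := by linear_combination -h6 + hφ.sq
    norm_num at h8

/-- Chunk L8H (M). T from exists_TG, σ from tg_add, ζ from exists_zeta: σ^2 = 2 = (ζ^2 - ζ^6)^2, so σ = ± (ζ^2 - ζ^6); in the case of the minus sign replace T by act (1 + φ) T (tg_one; its σ is the other one: tg_add for both: xc = n/3 - n σ/4). β a generator of v, Nm β = N = absNorm v, φ does not divide β (2 is not in v): ti_kap: NR N, 2φ | β ∓ kap N. frob_zeta, zeta_act: c = η kap N; frob_root with m = 2 (N is odd), X = δ, c = n.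
loc_gen with n0 = 2φ, c = η kap N (2φ divides c - β or c + β), t = φ: 2φ does not divide φ, 1 - φ, 1 + φ (ti_dvd). -/
theorem loc_eight [IsAlgClosed Ω] (hφ : TI φ) (h : CMA F A B Om j act) {n : ℤ} (hA : 24 * A = -5 * (n : F) ^ 2) (hB : 216 * B = 7 * (n : F) ^ 3)
    (hL : LD v V s Kg r) (h2 : (2 : 𝓞 F) ∉ v.asIdeal) (hn : (n : 𝓞 F) ∉ v.asIdeal) :
    ∃ γ η : 𝓞 F, Ideal.span {γ} = v.asIdeal ∧ (∀ X : Pt (WAB A B) Ω, act γ X - ac (WAB A B) s X ∈ Kg) ∧ (η = 1 ∨ η = -1) ∧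
      2 * φ ∣ γ - η * kap φ (Ideal.absNorm v.asIdeal) ∧
      (n : 𝓞 F) ^ ((Ideal.absNorm v.asIdeal - 1) / 2) - η ∈ v.asIdeal := by
  obtain ⟨ζ, hζ, hak⟩ := exists_zeta (Ω := Ω) hφ
  have hτ : (ζ ^ 2 - ζ ^ 6) ^ 2 = (2 : Ω) := by linear_combination (ζ ^ 4 - 2) * hζ
  obtain ⟨T, hT, hn0, hx, hy, hx', hy'⟩ := l8h_gen hφ h hA hB hτ
  obtain ⟨β, hβ'⟩ := (IsPrincipalIdealRing.principal v.asIdeal).principal
  have hβ : Ideal.span {β} = v.asIdeal := hβ'.symm
  have hN : Nm β = Ideal.absNorm v.asIdeal := by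
    unfold H55P.Nm
    rw [hβ]
  obtain ⟨hNR, hkap⟩ := ti_kap hφ (l8h_ndvd hφ h2 hβ)
  rw [hN] at hNR hkap
  obtain ⟨δ, η, hδ, hη, hsδ, hact⟩ := zeta_act h hφ hT hζ hn0 hx hy hx' hy' s hNR (frob_zeta hL h2 hζ)
  have hodd : 2 ∣ Ideal.absNorm v.asIdeal - 1 := by
    have := hNR
    unfold NR at this
    omega
  have h3 : (n : 𝓞 F) ^ ((Ideal.absNorm v.asIdeal - 1) / 2) - η ∈ v.asIdeal := by
    refine frob_root hL (by norm_num) hodd hn (X := δ) ?_ hsδ
    rw [hδ]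
    unfold H55K.ak
    simp
  have h4 : (2 * φ : 𝓞 F) ∉ v.asIdeal := by
    intro h5
    rcases v.isPrime.mem_or_mem h5 with h6 | h6
    · exact h2 h6
    · exact l8h_phi hφ h2 h6
  have h5 : 2 * φ ∣ η * kap φ (Ideal.absNorm v.asIdeal) - β ∨ 2 * φ ∣ η * kap φ (Ideal.absNorm v.asIdeal) + β := by
    rcases hη with rfl | rfl
    · rcases hkap with h6 | h6
      · left
        rw [one_mul, dvd_sub_comm]
        exact h6
      · right
        rw [one_mul, add_comm]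
        exact h6
    · rcases hkap with h6 | h6
      · right
        have h7 : -1 * kap φ (Ideal.absNorm v.asIdeal) + β = β - kap φ (Ideal.absNorm v.asIdeal) := by ring
        rw [h7]
        exact h6
      · left
        have h7 : -1 * kap φ (Ideal.absNorm v.asIdeal) - β = -(β + kap φ (Ideal.absNorm v.asIdeal)) := by ring
        rw [h7, dvd_neg]
        exact h6
  have e0 : ¬ 2 * φ ∣ φ := by
    intro h6
    have h7 := (ti_dvd hφ 0 1).1.1 (by simpa using h6)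
    omega
  have e1 : ¬ 2 * φ ∣ 1 - φ := by
    intro h6
    have h7 := (ti_dvd hφ 1 (-1)).1.1 (by
      have h8 : ((1 : ℤ) : 𝓞 F) + ((-1 : ℤ) : 𝓞 F) * φ = 1 - φ := by push_cast; ring
      rw [h8]
      exact h6)
    omega
  have e2 : ¬ 2 * φ ∣ 1 + φ := by
    intro h6
    have h7 := (ti_dvd hφ 1 1).1.1 (by simpa using h6)
    omega
  obtain ⟨γ, hγ, hγc, hX⟩ := loc_gen h hL h4 hT.zero hβ hact h5 e0 e1 e2
  exact ⟨γ, η, hγ, hX, hη, hγc, h3⟩

end H55W
end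

-- from Lib.H28I.G2
section

/-! # H28I, part G: good reduction is invariant -/

open NumberField IsDedekindDomain WeierstrassCurve

namespace H28I

open H55P (IQ embF eF LF Per IsHecke Pt ac Inert Dec Nm)
open H35P (WAB Ker tt GoodW IntW)
open H55K (xc yc)
open H55K.TQ
open H55K.MG (VC Crd)

open Classical in
/-- Chunk G2 (M). Ω = the algebraic closure of K, V from exists_VK, q from exists_q. gmd_K for W₁; inert_triv (T1.lean, F := K): every g with Inert V g fixes the points of W₁ killed by q (it fixes the image of K). T from exists_tors' for (W₁⁄Ω); T' = Φ T is not 0 (Ψ Φ T = 6 • T ≠ 0: q is prime to 6), q • T' = 0, g T' = T'.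
nos_up (T5.lean) for W₂ (jj = the image of j₀, in V: V(integer) ≤ 1; W₂⁄K has c₄, Δ the images of integers), descent (T7B.lean), good_VK. -/
theorem good_iso {K : Type} [Field K] [NumberField K] {W₁ : WeierstrassCurve K} {W₂ : WeierstrassCurve ℤ} (h1 : W₁.Δ ≠ 0) (h2 : W₂.Δ ≠ 0)
    (hj : ∃ j₀ : ℤ, W₂.c₄ ^ 3 = j₀ * W₂.Δ) (h : Iso6 W₁ (W₂⁄K) (AlgebraicClosure K)) (w : HeightOneSpectrum (𝓞 K))
    (hg : H55K.GoodAt W₁ w) : H55K.GoodAt (W₂⁄K) w := by
  obtain ⟨Φ, Ψ, hΨΦ, hΦΨ, hΦ, hΨ⟩ := h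
  obtain ⟨V, hV⟩ := exists_VK (AlgebraicClosure K) w
  obtain ⟨q, hq, h5, hqV⟩ := exists_q V
  have hG1 := gmd_K hV hg
  have h1' : (W₁⁄(AlgebraicClosure K)).Δ ≠ 0 := by
    have e : (W₁⁄(AlgebraicClosure K)).Δ = algebraMap K (AlgebraicClosure K) W₁.Δ := W₁.map_Δ _
    rw [e]
    exact (map_ne_zero _).2 h1
  obtain ⟨T, hT0, hqT⟩ := exists_tors' h1' hq.one_lt
  have hfix1 : ∀ g : AlgebraicClosure K ≃ₐ[K] AlgebraicClosure K, Inert V g → ac W₁ g T = T := by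
    intro g hgI
    refine inert_triv h1 hG1 g ?_ hgI q hqV T hqT
    rintro x ⟨a, rfl⟩
    exact g.commutes a
  have hT'0 : Φ T ≠ 0 := by
    intro h0
    have h6 : (6 : ℕ) • T = 0 := by
      rw [← hΨΦ T, h0, map_zero]
    have hcop : Nat.Coprime q 6 := by
      rw [Nat.Prime.coprime_iff_not_dvd hq]
      intro hd
      have := Nat.le_of_dvd (by norm_num) hd
      interval_cases q
      · omega
      · exact absurd hq (by norm_num)
    have h7 : (1 : ℕ) • T = 0 := by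
      have h8 := (addOrderOf_dvd_iff_nsmul_eq_zero).2 h6
      have h9 := (addOrderOf_dvd_iff_nsmul_eq_zero).2 hqT
      have h10 : addOrderOf T ∣ 1 := by
        rw [← hcop]
        exact Nat.dvd_gcd h9 h8
      exact addOrderOf_dvd_iff_nsmul_eq_zero.1 h10
    exact hT0 (by simpa using h7)
  have hqT' : q • Φ T = 0 := by
    rw [← map_nsmul, hqT, map_zero]
  have hfix2 : ∀ g : AlgebraicClosure K ≃ₐ[K] AlgebraicClosure K, Inert V g → ac (W₂⁄K) g (Φ T) = Φ T := by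
    intro g hgI
    rw [← hΦ g T, hfix1 g hgI]
  have hΔ2 : (W₂⁄K).Δ ≠ 0 := by
    have e : (W₂⁄K).Δ = algebraMap ℤ K W₂.Δ := W₂.map_Δ _
    rw [e]
    simpa using h2
  obtain ⟨j₀, hj₀⟩ := hj
  have hjV : ((j₀ : ℤ) : AlgebraicClosure K) ∈ V := intCast_mem V j₀
  have hjE : ((W₂⁄K)⁄(AlgebraicClosure K)).c₄ ^ 3 = ((j₀ : ℤ) : AlgebraicClosure K) * ((W₂⁄K)⁄(AlgebraicClosure K)).Δ := by
    have e1 : ((W₂⁄K)⁄(AlgebraicClosure K)).c₄ = ((W₂.c₄ : ℤ) : AlgebraicClosure K) := by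
      have e2 : ((W₂⁄K)⁄(AlgebraicClosure K)).c₄ = algebraMap K (AlgebraicClosure K) (W₂⁄K).c₄ := (W₂⁄K).map_c₄ _
      have e3 : (W₂⁄K).c₄ = algebraMap ℤ K W₂.c₄ := W₂.map_c₄ _
      rw [e2, e3]
      simp
    have e4 : ((W₂⁄K)⁄(AlgebraicClosure K)).Δ = ((W₂.Δ : ℤ) : AlgebraicClosure K) := by
      have e2 : ((W₂⁄K)⁄(AlgebraicClosure K)).Δ = algebraMap K (AlgebraicClosure K) (W₂⁄K).Δ := (W₂⁄K).map_Δ _
      have e3 : (W₂⁄K).Δ = algebraMap ℤ K W₂.Δ := W₂.map_Δ _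
      rw [e2, e3]
      simp
    rw [e1, e4]
    exact_mod_cast congrArg (Int.cast : ℤ → AlgebraicClosure K) hj₀
  have hG2 := nos_up hΔ2 hjV hjE hq h5 hqV hqT' hT'0 hfix2
  have hD := descent (v := w) (fun a ha => hV a ha) hG2
  exact good_VK hV hD

end H28I
end

-- from Lib.H28T.W15_T
section

open NumberField IsDedekindDomain

namespace H28T

open H28R
open H55P H55R

variable {F : Type} [Field F] [NumberField F] {G : HeightOneSpectrum (𝓞 F) → Prop}


theorem exists_wreath {p : ℕ} (hp : p.Prime) (h5 : 5 ≤ p) (hGp : ∀ v : HeightOneSpectrum (𝓞 F), G v → (p : 𝓞 F) ∉ v.asIdeal)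
    (hN : NiceH G p) (K : Type) [Field K] [NumberField K]
    [Algebra F K] (B : ℕ) (h : PB G p K B) : WrOver G p K B := by
  classical
  obtain ⟨C, _, _, _, _, _, ζ, hC⟩ := exists_cyc (F := F) p hp h5 K h.1.1 h.1.2.1
  obtain ⟨α, w, w', hα⟩ := exists_alp hp C B hGp (fun S hS => hN K C ζ h.1 hC B S hS)
  obtain ⟨γ, hγ⟩ := exists_gam hp hC hα
  obtain ⟨N, _, _, _, _, _, _, _, _, r, hr, hcen⟩ := exists_N hp hC γ hγ.eig
  have : Finite (FixZ F ζ) := inferInstance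
  let _ : Fintype (FixZ F ζ) := Fintype.ofFinite _
  have hGN : IsGalois F N := hr.gal
  obtain ⟨D, hD, hDK, ⟨e⟩⟩ := group_D hp h5 hC γ.ne_zero hr (fun a ha => not_pow hp hC hγ a ha) hcen
  obtain ⟨K', _, _, _, _, _, _, _, _, hG', ⟨e'⟩⟩ := exists_fix F K N D hD hDK
  have hcard : ∃ n : ℕ, Module.finrank F K' = p ^ n := by
    obtain ⟨k, hk⟩ := h.1.2.1
    have := h.1.1
    rw [← IsGalois.card_aut_eq_finrank, Nat.card_congr (e'.trans e).toEquiv,
      RegularWreathProduct.card, IsGalois.card_aut_eq_finrank, hk]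
    refine ⟨p ^ k + k, ?_⟩
    have h1 : Nat.card (CP p) = p := by
      rw [Nat.card_eq_of_bijective Multiplicative.toAdd Multiplicative.toAdd.bijective, Nat.card_zmod]
    rw [h1, pow_add]
  exact ⟨K', inferInstance, inferInstance, inferInstance, inferInstance, inferInstance,
    ram_PB hp h5 hC h hγ hr hG' hcard, ⟨e'.trans e⟩⟩

end H28T
end

-- from Lib.H55K.NQ
section

/-! # H55K: interface: classical Selmer groups over fields which do not contain F -/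

open NumberField IsDedekindDomain WeierstrassCurve

namespace H55K.TQ

open H55P (IQ embF eF LF Per IsHecke Pt ac Inert Dec Nm UnitP)

variable {F : Type} [Field F] [NumberField F] [IQ F] {W : WeierstrassCurve ℤ} {Om : ℂ}
    {m : Ideal (𝓞 F)} {ψ : Ideal (𝓞 F) →*₀ 𝓞 F} {p : ℕ}

open Classical in
/-- Nonvanishing over the field generated by F over K gives nonvanishing over K. -/
theorem non_abs (hH : BaseH F (W⁄(𝓞 F)) Om m ψ) (hp : PrimeH F (W⁄(𝓞 F)) p) (K : Type) [Field K] [NumberField K]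
    (ι : K →ₐ[ℚ] AlgebraicClosure F) [NumberField (KG F K ι)] (hS : H13Z.SelNon ((W⁄(𝓞 F))⁄F) p (KG F K ι)) :
    H13Z.SelNonT (W⁄K) p :=
  nonsel_KG hH hp.prime (by have := hp.five; omega) hp.unr K ι hS

end H55K.TQ
end

-- from Lib.H28T.CC1
section

open NumberField IsDedekindDomain WeierstrassCurve

namespace H28T

open H55P H55R
open H55K H55K.TQ

variable {F : Type} [Field F] [NumberField F] [IQ F]

/-- Chunk CC1 (S/M). δ from nk2_delta (NK2.lean), D = Nm δ, p ∤ D, D ≠ 0. Q = 4 D N is prime to p^n (p is odd): Nat.chineseRemainder gives a with a ≡ -1 modulo Q (that is Q - 1), a ≡ 1 modulo p^n; a is prime to Q p^n; Dirichlet: Nat.forall_exists_prime_gt_and_modEq (see H28R/A4.lean). cc1a_sq, cc1b_inert. -/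
theorem cc1_dir {p : ℕ} (hp : p.Prime) (hp2 : p ≠ 2) (hU : UnrP p F) {N : ℕ} (hN : ¬ p ∣ N) (n B : ℕ) :
    ∃ l : ℕ, l.Prime ∧ B < l ∧ p ^ n ∣ l - 1 ∧ N ∣ l + 1 ∧ Prime ((l : ℕ) : 𝓞 F) := by
  obtain ⟨δ, hδ, hpD⟩ := nk2_delta hp hp2 hU
  have hD0 : Nm δ ≠ 0 := by
    intro h
    rw [h] at hpD
    exact hpD (dvd_zero p)
  have hδ0 : δ ≠ 0 := by
    intro h
    apply hD0
    have h1 := Nm_nat (F := F) 0
    rw [h]
    simpa using h1
  have hN0 : N ≠ 0 := by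
    intro h
    rw [h] at hN
    exact hN (dvd_zero p)
  obtain ⟨q, hq⟩ : ∃ q, q = 4 * Nm δ * N := ⟨_, rfl⟩
  have hp4 : ¬ p ∣ 4 := by
    intro h
    have h1 : p ∣ 2 := by
      have h2 : p ∣ 2 ^ 2 := by simpa using h
      exact hp.dvd_of_dvd_pow h2
    have h2 := (Nat.prime_dvd_prime_iff_eq hp Nat.prime_two).1 h1
    exact hp2 h2
  have hpq : ¬ p ∣ q := by
    rw [hq]
    intro h
    rcases (Nat.Prime.dvd_mul hp).1 h with h1 | h1
    · rcases (Nat.Prime.dvd_mul hp).1 h1 with h2 | h2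
      · exact hp4 h2
      · exact hpD h2
    · exact hN h1
  have hq0 : q ≠ 0 := by
    rintro rfl
    exact hpq (dvd_zero p)
  have hcop : Nat.Coprime q (p ^ n) :=
    Nat.Coprime.pow_right n ((Nat.Prime.coprime_iff_not_dvd hp).2 hpq).symm
  obtain ⟨a, ha1, ha2⟩ := Nat.chineseRemainder hcop (q - 1) 1
  have hac1 : Nat.Coprime a q := by
    have h1 : Nat.gcd a q = Nat.gcd (q - 1) q := ha1.gcd_eq
    unfold Nat.Coprime
    rw [h1]
    have h2 : Nat.Coprime (q - 1) (q - 1 + 1) := by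
      rw [Nat.coprime_self_add_right]
      exact Nat.coprime_one_right _
    rwa [Nat.sub_add_cancel (Nat.pos_of_ne_zero hq0)] at h2
  have hac2 : Nat.Coprime a (p ^ n) := by
    have h1 : Nat.gcd a (p ^ n) = Nat.gcd 1 (p ^ n) := ha2.gcd_eq
    unfold Nat.Coprime
    rw [h1, Nat.gcd_one_left]
  have hac : Nat.Coprime a (q * p ^ n) := Nat.Coprime.mul_right hac1 hac2
  have hm0 : q * p ^ n ≠ 0 := mul_ne_zero hq0 (pow_ne_zero _ hp.ne_zero)
  obtain ⟨l, hlB, hl, hla⟩ := Nat.forall_exists_prime_gt_and_modEq B hm0 hac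
  have hl1 : l ≡ q - 1 [MOD q] := (hla.of_mul_right _).trans ha1
  have hl2 : l ≡ 1 [MOD p ^ n] := (hla.of_mul_left _).trans ha2
  have hql : q ∣ l + 1 := by
    have h1 : l + 1 ≡ q - 1 + 1 [MOD q] := hl1.add_right 1
    rw [Nat.sub_add_cancel (Nat.pos_of_ne_zero hq0)] at h1
    have h2 : l + 1 ≡ 0 [MOD q] := h1.trans (by simp [Nat.ModEq])
    exact (Nat.modEq_zero_iff_dvd).1 h2
  have h4D : 4 * Nm δ ∣ l + 1 := dvd_trans ⟨N, hq⟩ hql
  refine ⟨l, hl, hlB, ?_, ?_, ?_⟩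
  · exact (Nat.modEq_iff_dvd' hl.one_le).1 hl2.symm
  · exact dvd_trans ⟨4 * Nm δ, by rw [hq]; ring⟩ hql
  · exact cc1b_inert hδ hδ0 hl fun x => cc1a_sq (Nat.pos_of_ne_zero hD0) hl h4D x

end H28T
end

-- from Lib.H28T.CC2B
section

open NumberField IsDedekindDomain WeierstrassCurve

namespace H28T

open H55P H55R
open H55K H55K.TQ

variable {F : Type} [Field F] [NumberField F] [IQ F] {W₀ : WeierstrassCurve (𝓞 F)} {Om : ℂ}
    {m : Ideal (𝓞 F)} {ψ : Ideal (𝓞 F) →*₀ 𝓞 F} {p : ℕ}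

/-- Chunk CC2B (S/M). p does not divide absNorm m. p is coprime to m (hp.cop and hH.supp: base_of hH hp gives IsCoprime (span {Δ} * m) (span {p}), so IsCoprime m (span {p})). If p divides absNorm m = Nat.card (𝓞 F ⧸ m) (finite additive group), there is an element x of order p in 𝓞 F ⧸ m (exists_prime_addOrderOf_dvd_card'), p x = 0; a + b p = 1 with a in m,
so x = (a + b p) x = 0, contradiction. -/
theorem cc2b_cop (hH : BaseH F W₀ Om m ψ) (hp : PrimeH F W₀ p) : ¬ p ∣ Ideal.absNorm m := by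
  intro hd
  have hcop : IsCoprime m (Ideal.span {(p : 𝓞 F)}) :=
    (base_of hH hp).cop.of_isCoprime_of_dvd_left (dvd_mul_left _ _)
  have hne : Ideal.absNorm m ≠ 0 := fun h => hH.data.hecke.ne (Ideal.absNorm_eq_zero_iff.1 h)
  have hcard : Ideal.absNorm m = Nat.card (𝓞 F ⧸ m) := rfl
  have hfin : Finite (𝓞 F ⧸ m) := Nat.finite_of_card_ne_zero (by rw [← hcard]; exact hne)
  haveI : Fact p.Prime := ⟨hp.prime⟩
  rw [hcard] at hd
  obtain ⟨x, hx⟩ := exists_prime_addOrderOf_dvd_card' p hd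
  obtain ⟨y, rfl⟩ := Ideal.Quotient.mk_surjective x
  rw [Ideal.isCoprime_iff_exists] at hcop
  obtain ⟨a, ha, b, hb, hab⟩ := hcop
  obtain ⟨c, rfl⟩ := Ideal.mem_span_singleton'.1 hb
  have h1 : p • (Ideal.Quotient.mk m y) = 0 := by
    rw [← hx]
    exact addOrderOf_nsmul_eq_zero _
  have h2 : (p : 𝓞 F) * y ∈ m := by
    rw [← Ideal.Quotient.eq_zero_iff_mem, map_mul, map_natCast, ← nsmul_eq_mul]
    exact h1
  have h3 : y ∈ m := by
    have e : y = a * y + c * ((p : 𝓞 F) * y) := by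
      calc y = (a + c * (p : 𝓞 F)) * y := by rw [hab, one_mul]
        _ = a * y + c * ((p : 𝓞 F) * y) := by ring
    rw [e]
    exact m.add_mem (m.mul_mem_right _ ha) (m.mul_mem_left _ h2)
  rw [Ideal.Quotient.eq_zero_iff_mem.2 h3, addOrderOf_zero] at hx
  exact hp.prime.one_lt.ne hx

end H28T
end

-- from Lib.H28T.CC3
section

open NumberField IsDedekindDomain WeierstrassCurve

namespace H28T

open H55P H55R
open H55K H55K.TQ

variable {F : Type} [Field F] [NumberField F] [IQ F] {W₀ : WeierstrassCurve (𝓞 F)} {Om : ℂ}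
    {m : Ideal (𝓞 F)} {ψ : Ideal (𝓞 F) →*₀ 𝓞 F} {p : ℕ}

theorem cc_dirH (hH : BaseH F W₀ Om m ψ) (hp : PrimeH F W₀ p) : DirH (Gd W₀ p) p := by
  intro n N
  have hpp := hp.prime
  have h5 := hp.five
  obtain ⟨l, h1, h2, h3, h4, h6⟩ := cc1_dir hpp (by omega) hp.unr (cc2b_cop hH hp) (n + 1) N
  have h7 : p ∣ l - 1 := (dvd_pow_self p (Nat.succ_ne_zero n)).trans h3
  exact ⟨l, h1, h2, (pow_dvd_pow p (Nat.le_succ n)).trans h3, cc2_good hH hp h1 h7 h4 h6⟩

end H28T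
end

-- from Lib.H28T.CE_T
section

/-! # H28T: the largest class -/

open NumberField IsDedekindDomain WeierstrassCurve

namespace H28T

open H55P H55R
open H55K H55K.TQ

variable {F : Type} [Field F] [NumberField F] {W₀ : WeierstrassCurve (𝓞 F)} {p : ℕ}


theorem gx_of_gd {v : HeightOneSpectrum (𝓞 F)} (h : Gd W₀ p v) : Gx W₀ p v := ⟨h.2.1, fun _ => h.2.2⟩

theorem ce_es {K : Type} [Field K] [NumberField K] [Algebra F K] [IsGalois F K] (W : Pl K) :
    es F K (W.under (𝓞 F)) = W.asIdeal.ramificationIdx (𝓞 F) := by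
  have hvp := (W.under (𝓞 F)).isPrime
  have hwp := W.isPrime
  have hl : W.asIdeal.LiesOver (W.under (𝓞 F)).asIdeal := (BF2_mem (W.under (𝓞 F)) W rfl).2
  unfold es
  rw [Ideal.ramificationIdxIn_eq_ramificationIdx (W.under (𝓞 F)).asIdeal W.asIdeal Gal(K/F)]

/-- p is unramified in K/F. -/
theorem ce_unr (hp : p.Prime) (hU : H55P.UnrP p F) {G : HeightOneSpectrum (𝓞 F) → Prop}
    (hG : ∀ v, G v → (p : 𝓞 F) ∉ v.asIdeal) {K : Type} [Field K] [NumberField K] [Algebra F K]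
    (h : ExtG G p K) : H55P.UnrP p K := by
  have hGal : IsGalois F K := h.1
  rw [unr_iff hp] at hU ⊢
  intro W hW
  have hpW : (p : 𝓞 K) ∈ W.asIdeal := Ideal.pow_le_self two_ne_zero hW
  have hpv : (p : 𝓞 F) ∈ (W.under (𝓞 F)).asIdeal := by
    show algebraMap (𝓞 F) (𝓞 K) (p : 𝓞 F) ∈ W.asIdeal
    rw [map_natCast]
    exact hpW
  have hr : W.asIdeal.ramificationIdx (𝓞 F) = 1 :=
    h.2.2 W (W.under (𝓞 F)) rfl (fun hg => hG _ hg hpv)
  have hes : es F K (W.under (𝓞 F)) = 1 := (ce_es W).trans hr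
  have hp0 : (p : F) ≠ 0 := Nat.cast_ne_zero.mpr hp.ne_zero
  have h1 := ord_map W (W.under (𝓞 F)) rfl (Units.mk0 (p : F) hp0)
  rw [hes, Nat.cast_one, one_mul] at h1
  have h2 : ¬ ((2 : ℕ) : ℤ) ≤ ord (W.under (𝓞 F)) (Units.mk0 (p : F) hp0) := by
    rw [ord_int (W.under (𝓞 F)) (p : 𝓞 F) (Units.mk0 (p : F) hp0) (by simp)]
    exact hU _
  have h3 : ((2 : ℕ) : ℤ) ≤ ord W (Units.map (algebraMap F K : F →* K) (Units.mk0 (p : F) hp0)) := by
    rw [ord_int W (p : 𝓞 K) _ (by simp)]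
    exact hW
  rw [h1] at h3
  exact h2 h3

/-- The class InPF consists of the subfields of the fields in ExtG. -/
theorem inPF_iff (hp : p.Prime) (hU : H55P.UnrP p F) (K : Type) [Field K] [NumberField K] :
    InPF W₀ p K ↔ ∃ (L : Type) (_ : Field L) (_ : NumberField L) (_ : Algebra F L) (_ : Algebra K L),
      ExtG (Gx W₀ p) p L := by
  constructor
  · rintro ⟨L, i1, i2, i3, i4, h1, h2, h3, h4⟩
    refine ⟨L, i1, i2, i3, i4, h1, h2, ?_⟩
    intro w v hv hng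
    by_contra hne
    apply hng
    have hvw : w.under (𝓞 F) = v := HeightOneSpectrum.ext hv.symm
    refine ⟨fun hpv => ?_, fun hΔ hd => hne (h4 w v hv hΔ hd)⟩
    have hes : es F L v ≠ 1 := by
      rw [← hvw, ce_es w]
      exact hne
    have hpos : 0 < es F L v := es_pos v
    have hp0 : (p : F) ≠ 0 := Nat.cast_ne_zero.mpr hp.ne_zero
    have h5 := ord_map w v hvw (Units.mk0 (p : F) hp0)
    have h6 : ((1 : ℕ) : ℤ) ≤ ord v (Units.mk0 (p : F) hp0) := by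
      rw [ord_int v (p : 𝓞 F) (Units.mk0 (p : F) hp0) (by simp), pow_one]
      exact hpv
    have h7 : ((2 : ℕ) : ℤ) ≤ ord w (Units.map (algebraMap F L : F →* L) (Units.mk0 (p : F) hp0)) := by
      rw [h5]
      have h8 : (2 : ℤ) ≤ (es F L v : ℤ) := by omega
      push_cast at h6 ⊢
      nlinarith
    rw [ord_int w (p : 𝓞 L) _ (by simp)] at h7
    exact (unr_iff hp).1 h3 w h7
  · rintro ⟨L, i1, i2, i3, i4, h⟩
    exact ⟨L, i1, i2, i3, i4, h.1, h.2.1, ce_unr hp hU (fun v hv => hv.1) h,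
      fun w v hv hΔ hd => h.2.2 w v hv fun hg => hg.2 hΔ hd⟩

end H28T
end
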