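import Mathlib
import Pool.Agent.Lib.H1M.PP2.M059
import Pool.Agent.Lib.H1M.PP2.M074
import Pool.Agent.Lib.H1M.PP2.M102

/-! # H55Y: the lattice of integers of F -/

open NumberField IsDedekindDomain WeierstrassCurve

namespace H55Y

open H55P (IQ embF eF LF Per Nm)
open H55K (cj)
open H55W

variable {F : Type} [Field F] [NumberField F] [IQ F]

/-- The period lattice of y^2 = x^3 + A x + B is Om times the order of conductor f of F. -/
def PerO (F : Type) [Field F] [NumberField F] [IQ F] (f : ℕ) (A B Om : ℂ) : Prop :=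
  Om ≠ 0 ∧ ∃ L : PeriodPair, (∀ z, z ∈ L.lattice ↔ ∃ (a : ℤ) (y : 𝓞 F), z = a + f * eF F y) ∧
    L.g₂ = -4 * A * Om ^ 4 ∧ L.g₃ = -4 * B * Om ^ 6

end H55Y
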