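import Mathlib
import Pool.Agent.Lib.H1M.PP2.D_H28R_Defs
import Pool.Agent.Lib.H1M.PP2.D_H55Y_Y2
import Pool.Agent.Lib.H1M.PP2.M004
import Pool.Agent.Lib.H1M.PP2.M005
import Pool.Agent.Lib.H1M.PP2.M051
import Pool.Agent.Lib.H1M.PP2.M058
import Pool.Agent.Lib.H1M.PP2.M059
import Pool.Agent.Lib.H1M.PP2.M060
import Pool.Agent.Lib.H1M.PP2.M062
import Pool.Agent.Lib.H1M.PP2.M074
import Pool.Agent.Lib.H1M.PP2.M075
import Pool.Agent.Lib.H1M.PP2.M081
import Pool.Agent.Lib.H1M.PP2.M095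
import Pool.Agent.Lib.H1M.PP2.M098
import Pool.Agent.Lib.H1M.PP2.M102
import Pool.Agent.Lib.H1M.PP2.M106

/-! Merged copies (to shorten the build) of Lib.H13D.E3, Lib.H13D.E6, Lib.H28R.A8, Lib.H28T.AQ2, Lib.H55Y.Y2_T, Lib.H55W.L4A, Lib.H55W.L4B, Lib.H55W.L3, Lib.H55W.L3D, Lib.H55W.Z0, Lib.H55W.Z1, Lib.H55W.B3. -/

-- from Lib.H13D.E3
section

/-! # H13D, part E: the action on the elements Yel and Zel -/

open NumberField IsDedekindDomain WeierstrassCurve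

namespace H13D

open H55P (IQ embF eF LF Per IsHecke Pt ac Inert Dec Nm)
open H35P (WAB Ker tt GoodW IntW)
open H55K

variable {F : Type} [Field F] [NumberField F] [IQ F] {A B : F} {Ω : Type} [Field Ω] [DecidableEq Ω] [Algebra F Ω] {D : ℕ}

theorem e3_per {M : Type} [AddCommGroup M] {T₀ : M} (hT : D • T₀ = 0) {i j : ℤ} (h : (D : ℤ) ∣ i - j) : i • T₀ = j • T₀ := by
  obtain ⟨k, hk⟩ := h
  have h1 : i = j + D * k := by linarith
  rw [h1, add_zsmul, mul_comm, mul_zsmul, natCast_zsmul, hT, smul_zero, add_zero]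

/-- Chunk E3 (S/M). s (yc (i • T₀)) = yc (acr s (i • T₀)) = yc ((a i) • T₀) (yc_acr, map_nsmul). prod_odd for g i = 2 * yc (i • T₀) (i an integer; hper from D • T₀ = 0; hodd: yc (-P) = -yc P: H55K.yc_neg). -/
theorem Yel_acr (hD : D.Prime) (h4 : D % 4 = 3) (s : Ω ≃+* Ω) (hA : s (algebraMap F Ω A) = algebraMap F Ω A)
    (hB : s (algebraMap F Ω B) = algebraMap F Ω B) {T₀ : Pt (WAB A B) Ω} (hT : D • T₀ = 0) {a : ℤ} (hDa : ¬ (D : ℤ) ∣ a)
    (ha : acr s hA hB T₀ = a • T₀) : s (Yel D T₀) = ((jacobiSym a D : ℤ) : Ω) * Yel D T₀ := by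
  have h1 := prod_odd hD h4 (fun i : ℤ => 2 * yc (i • T₀)) (fun i j hij => by
    show 2 * yc (i • T₀) = 2 * yc (j • T₀)
    rw [e3_per hT hij]) (fun i => by
    show 2 * yc ((-i) • T₀) = -(2 * yc (i • T₀))
    rw [neg_zsmul, yc_neg, mul_neg]) hDa
  have h2 : Yel D T₀ = ∏ i ∈ QR D, 2 * yc ((i : ℤ) • T₀) := by
    unfold Yel
    refine Finset.prod_congr rfl fun i _ => ?_
    rw [natCast_zsmul]
  rw [h2, ← h1, map_prod]
  refine Finset.prod_congr rfl fun i _ => ?_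
  have h3 : acr s hA hB ((i : ℤ) • T₀) = (a * (i : ℤ)) • T₀ := by
    rw [map_zsmul, ha, ← mul_zsmul, mul_comm]
  show s (2 * yc ((i : ℤ) • T₀)) = 2 * yc ((a * (i : ℤ)) • T₀)
  rw [← h3, yc_acr, map_mul, map_ofNat]

/-- Chunk E3 (S/M). The same for an automorphism over F: xc_ac, yc_ac (E0.lean) or acr_eq_ac. -/
theorem Yel_ac (hD : D.Prime) (h4 : D % 4 = 3) (s : Ω ≃ₐ[F] Ω) {T₀ : Pt (WAB A B) Ω} (hT : D • T₀ = 0) {a : ℤ} (hDa : ¬ (D : ℤ) ∣ a)
    (ha : ac (WAB A B) s T₀ = a • T₀) : s (Yel D T₀) = ((jacobiSym a D : ℤ) : Ω) * Yel D T₀ := by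
  have hA : (s : Ω ≃+* Ω) (algebraMap F Ω A) = algebraMap F Ω A := s.commutes A
  have hB : (s : Ω ≃+* Ω) (algebraMap F Ω B) = algebraMap F Ω B := s.commutes B
  exact Yel_acr hD h4 (s : Ω ≃+* Ω) hA hB hT hDa (by rw [acr_eq_ac, ha])

/-- Chunk E3 (S/M). prod_even for g i = c₁ * (xc (i • T₀) - ρ) + c₃ (xc (-P) = xc P). -/
theorem Zel_acr (hD : D.Prime) (h4 : D % 4 = 3) (s : Ω ≃+* Ω) (hA : s (algebraMap F Ω A) = algebraMap F Ω A)
    (hB : s (algebraMap F Ω B) = algebraMap F Ω B) {T₀ : Pt (WAB A B) Ω} (hT : D • T₀ = 0) {a : ℤ} (hDa : ¬ (D : ℤ) ∣ a)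
    (ha : acr s hA hB T₀ = a • T₀) {c₁ ρ c₃ : Ω} (h1 : s c₁ = c₁) (h2 : s ρ = ρ) (h3 : s c₃ = c₃) :
    s (Zel D T₀ c₁ ρ c₃) = Zel D T₀ c₁ ρ c₃ := by
  have h5 := prod_even hD h4 (fun i : ℤ => c₁ * (xc (i • T₀) - ρ) + c₃) (fun i j hij => by
    show c₁ * (xc (i • T₀) - ρ) + c₃ = c₁ * (xc (j • T₀) - ρ) + c₃
    rw [e3_per hT hij]) (fun i => by
    show c₁ * (xc ((-i) • T₀) - ρ) + c₃ = c₁ * (xc (i • T₀) - ρ) + c₃
    rw [neg_zsmul, xc_neg]) hDa
  have h6 : Zel D T₀ c₁ ρ c₃ = ∏ i ∈ QR D, (c₁ * (xc ((i : ℤ) • T₀) - ρ) + c₃) := by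
    unfold Zel
    refine Finset.prod_congr rfl fun i _ => ?_
    rw [natCast_zsmul]
  have h7 : ∀ i ∈ QR D, s (c₁ * (xc ((i : ℤ) • T₀) - ρ) + c₃) = c₁ * (xc ((a * (i : ℤ)) • T₀) - ρ) + c₃ := by
    intro i _
    have h8 : acr s hA hB ((i : ℤ) • T₀) = (a * (i : ℤ)) • T₀ := by
      rw [map_zsmul, ha, ← mul_zsmul, mul_comm]
    rw [← h8, xc_acr, map_add, map_mul, map_sub, h1, h2, h3]
  rw [h6, map_prod, Finset.prod_congr rfl h7]
  exact h5

end H13D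
end

-- from Lib.H13D.E6
section

/-! # H13D, part E: the values of Yel and Zel at the good primes -/

open NumberField IsDedekindDomain WeierstrassCurve

namespace H13D

open H55P (IQ embF eF LF Per IsHecke Pt ac Inert Dec Nm)
open H35P (WAB Ker tt GoodW IntW)
open H55K
open H55K.MG (VC Crd)

variable {F : Type} [Field F] [NumberField F] [IQ F] {A B : F} {Om : ℂ} {Ω : Type} [Field Ω] [DecidableEq Ω]
  [Algebra F Ω] {j : Ω →+* ℂ} {act : 𝓞 F →+* AddMonoid.End (Pt (WAB A B) Ω)} {V : ValuationSubring Ω} {δ : 𝓞 F} {D : ℕ}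

/-- Chunk E6 (S/M). The points i • T₀ and (2i) • T₀ for i in QR D (0 < i < D: D does not divide i, 2i) are killed by δ and not 0 (zsmul_iff), so they are not in Kg (tor_unit' for δ). -/
theorem QR_out (h : CMA F A B Om j act) (hd : Del F δ D) {Kg : AddSubgroup (Pt (WAB A B) Ω)} {u r : Ω} (hR : RM A B V Kg u r)
    (hδ : V.valuation (ak Ω δ) = 1) {T₀ : Pt (WAB A B) Ω} (hT : act δ T₀ = 0) (h0 : T₀ ≠ 0) {i : ℕ} (hi : i ∈ QR D) :
    i • T₀ ∉ Kg ∧ i • T₀ + i • T₀ ∉ Kg := by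
  have key : ∀ k : ℕ, k • T₀ ∈ Kg → (D : ℤ) ∣ (k : ℤ) := by
    intro k hk
    have h1 : act δ (k • T₀) = 0 := by rw [map_nsmul, hT, smul_zero]
    have h2 := tor_unit' h hR hδ h1 hk
    rw [← zsmul_iff hd hT h0, natCast_zsmul]
    exact h2
  rw [mem_QR hd.prime] at hi
  have hD : ¬ (D : ℤ) ∣ (i : ℤ) := by
    intro h1
    have h2 : D ∣ i := Int.natCast_dvd_natCast.1 h1
    have h3 : i = 0 := Nat.eq_zero_of_dvd_of_lt h2 hi.1
    have h4 := hi.2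
    rw [h3, Nat.cast_zero, jacobiSym.zero_left hd.prime.one_lt] at h4
    exact absurd h4 (by norm_num)
  refine ⟨fun h1 => hD (key i h1), fun h1 => ?_⟩
  rw [← two_nsmul, ← mul_smul] at h1
  have h2 := key _ h1
  push_cast at h2
  rcases (Nat.prime_iff_prime_int.1 hd.prime).dvd_or_dvd h2 with h3 | h3
  · have h4 := Int.le_of_dvd (by norm_num) h3
    have := hd.big
    omega
  · exact hD h3

/-- Chunk E6 (S). QR_out, val_two_y for every factor. -/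
theorem val_Yel (h : CMA F A B Om j act) (hd : Del F δ D) (W₀ : WeierstrassCurve (𝓞 F)) (hG : GoodW ((W₀⁄F)⁄Ω) V)
    {Θ : Pt (WAB A B) Ω ≃+ Pt (W₀⁄F) Ω}
    (hc : Crd 1 (algebraMap F Ω (algebraMap (𝓞 F) F W₀.b₂ / 12)) (algebraMap F Ω (algebraMap (𝓞 F) F W₀.a₁ / 2))
        (algebraMap F Ω (algebraMap (𝓞 F) F W₀.a₃ / 2)) Θ) {Kg : AddSubgroup (Pt (WAB A B) Ω)} (hK : ∀ P, P ∈ Kg ↔ Ker V (Θ P))
    {u r : Ω} (hR : RM A B V Kg u r) (hδ : V.valuation (ak Ω δ) = 1) {T₀ : Pt (WAB A B) Ω} (hT : act δ T₀ = 0) (h0 : T₀ ≠ 0) :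
    V.valuation (Yel D T₀) = 1 := by
  unfold Yel
  rw [map_prod]
  refine Finset.prod_eq_one fun i hi => ?_
  obtain ⟨h1, h2⟩ := QR_out h hd hR hδ hT h0 hi
  exact val_two_y W₀ hG hc hK h1 h2

/-- Chunk E6 (S/M). By sq_two_y every factor of Yel^2 is α^2 + 4 c with α the factor of Zel, V(α) ≤ 1, V(c) ≤ 1 (xc (Θ P) = xc P - b₂/12 in V: MG.int_crd; ak_le). Products of such expressions: (α^2 + 4c)(α'^2 + 4c') = (αα')^2 + 4 (..): induction over the finite set. -/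
theorem sq_Yel (h : CMA F A B Om j act) (hd : Del F δ D) (W₀ : WeierstrassCurve (𝓞 F)) (hG : GoodW ((W₀⁄F)⁄Ω) V)
    {Θ : Pt (WAB A B) Ω ≃+ Pt (W₀⁄F) Ω}
    (hc : Crd 1 (algebraMap F Ω (algebraMap (𝓞 F) F W₀.b₂ / 12)) (algebraMap F Ω (algebraMap (𝓞 F) F W₀.a₁ / 2))
        (algebraMap F Ω (algebraMap (𝓞 F) F W₀.a₃ / 2)) Θ) {Kg : AddSubgroup (Pt (WAB A B) Ω)} (hK : ∀ P, P ∈ Kg ↔ Ker V (Θ P))
    {u r : Ω} (hR : RM A B V Kg u r) (hδ : V.valuation (ak Ω δ) = 1) {T₀ : Pt (WAB A B) Ω} (hT : act δ T₀ = 0) (h0 : T₀ ≠ 0) :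
    V.valuation (Zel D T₀ (ak Ω W₀.a₁) (algebraMap F Ω (algebraMap (𝓞 F) F W₀.b₂ / 12)) (ak Ω W₀.a₃)) ≤ 1 ∧
    ∃ w : Ω, V.valuation w ≤ 1 ∧ Yel D T₀ ^ 2 =
      Zel D T₀ (ak Ω W₀.a₁) (algebraMap F Ω (algebraMap (𝓞 F) F W₀.b₂ / 12)) (ak Ω W₀.a₃) ^ 2 + 4 * w := by
  classical
  have key : ∀ s : Finset ℕ, s ⊆ QR D →
      (∏ i ∈ s, (ak Ω W₀.a₁ * (xc (i • T₀) - algebraMap F Ω (algebraMap (𝓞 F) F W₀.b₂ / 12)) + ak Ω W₀.a₃)) ∈ V ∧
      ∃ w : Ω, w ∈ V ∧ (∏ i ∈ s, 2 * yc (i • T₀)) ^ 2 =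
        (∏ i ∈ s, (ak Ω W₀.a₁ * (xc (i • T₀) - algebraMap F Ω (algebraMap (𝓞 F) F W₀.b₂ / 12)) + ak Ω W₀.a₃)) ^ 2 + 4 * w := by
    intro s
    induction s using Finset.induction_on with
    | empty =>
      intro _
      simp only [Finset.prod_empty]
      exact ⟨V.one_mem, 0, V.zero_mem, by ring⟩
    | insert i s his ih =>
      intro hs
      obtain ⟨h1, w, hw, h2⟩ := ih (fun k hk => hs (Finset.mem_insert_of_mem hk))
      have hi := hs (Finset.mem_insert_self i s)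
      obtain ⟨h3, -⟩ := QR_out h hd hR hδ hT h0 hi
      have hP0 : i • T₀ ≠ 0 := fun h4 => h3 (by rw [h4]; exact Kg.zero_mem)
      have hker : ¬ Ker V (Θ (i • T₀)) := fun h4 => h3 ((hK _).2 h4)
      obtain ⟨-, hx, -⟩ := MG.int_crd hG hker
      obtain ⟨-, hxx, -⟩ := hc _ hP0
      have hx' : xc (i • T₀) - algebraMap F Ω (algebraMap (𝓞 F) F W₀.b₂ / 12) = xc (Θ (i • T₀)) := by
        rw [hxx]
        ring
      have hak : ∀ a : 𝓞 F, ak Ω a ∈ V := fun a => (V.valuation_le_one_iff _).1 (ak_le V a)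
      have hsq := sq_two_y W₀ hc hP0
      rw [hx'] at hsq
      have hα : ak Ω W₀.a₁ * xc (Θ (i • T₀)) + ak Ω W₀.a₃ ∈ V := V.add_mem _ _ (V.mul_mem _ _ (hak _) hx) (hak _)
      have hcc : xc (Θ (i • T₀)) ^ 3 + ak Ω W₀.a₂ * xc (Θ (i • T₀)) ^ 2 + ak Ω W₀.a₄ * xc (Θ (i • T₀)) + ak Ω W₀.a₆ ∈ V :=
        V.add_mem _ _ (V.add_mem _ _ (V.add_mem _ _ (pow_mem hx 3) (V.mul_mem _ _ (hak _) (pow_mem hx 2))) (V.mul_mem _ _ (hak _) hx)) (hak _)
      rw [Finset.prod_insert his, Finset.prod_insert his, hx']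
      generalize ak Ω W₀.a₁ * xc (Θ (i • T₀)) + ak Ω W₀.a₃ = α at hα hsq ⊢
      generalize xc (Θ (i • T₀)) ^ 3 + ak Ω W₀.a₂ * xc (Θ (i • T₀)) ^ 2 + ak Ω W₀.a₄ * xc (Θ (i • T₀)) + ak Ω W₀.a₆ = c at hcc hsq
      generalize (∏ i ∈ s, (ak Ω W₀.a₁ * (xc (i • T₀) - algebraMap F Ω (algebraMap (𝓞 F) F W₀.b₂ / 12)) + ak Ω W₀.a₃)) = β at h1 h2 ⊢
      refine ⟨V.mul_mem _ _ hα h1, α ^ 2 * w + c * β ^ 2 + 4 * (c * w), ?_, ?_⟩
      · refine V.add_mem _ _ (V.add_mem _ _ (V.mul_mem _ _ (pow_mem hα 2) hw) (V.mul_mem _ _ hcc (pow_mem h1 2))) (V.mul_mem _ _ ?_ (V.mul_mem _ _ hcc hw))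
        exact_mod_cast natCast_mem V 4
      · rw [mul_pow, hsq, h2]
        ring
  obtain ⟨h1, w, hw, h2⟩ := key (QR D) (fun _ h => h)
  exact ⟨(V.valuation_le_one_iff _).2 h1, w, (V.valuation_le_one_iff _).2 hw, h2⟩

end H13D
end

-- from Lib.H28R.A8
section

open NumberField IsDedekindDomain

namespace H28R

open H55B (F O om Prim gen)
open H55P H55R

/-! Chunk A8 (M): abelian extensions of the rationals. m from exists_quotP, N = CyclotomicField m ℚ, its group is (ZMod m)ˣ (IsCyclotomicExtension.Rat.galEquivZMod or autEquivPow with Polynomial.cyclotomic.irreducible_rat), K₀ the fixed field of the kernel of Φ, a Galois extension of the rationals with group A. Totally real: K₀/ℚ is Galois of odd degree, so a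
complex conjugation (an element of order at most 2 of the group: for an embedding i, conj ∘ i = i ∘ g: ComplexEmbedding.exists_comp_symm_eq_of_comp_eq, see H13N/X3.lean) is trivial; NumberField.IsTotallyReal (isReal of every place). RatP: the ramification indices over ℤ: w contains l with GoodL p l false, so l does not divide m and w does not contain m;
the inertia group of a prime of N above w is trivial (as in mu_unr, with ℤ in place of O: H55D.X3_card) or IsCyclotomicExtension.Rat ramification lemmas of Mathlib; multiplicativity in towers (Ideal.ramificationIdx_tower). Then of_ratP. -/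

/-- Galois extensions of the rationals of odd degree are totally real. -/
theorem A8_real (K₀ : Type) [Field K₀] [NumberField K₀] [IsGalois ℚ K₀]
    (h : Odd (Module.finrank ℚ K₀)) : IsTotallyReal K₀ := by
  have hu := IsUnramifiedAtInfinitePlaces_of_odd_finrank h
  refine ⟨fun v => ?_⟩
  rcases InfinitePlace.isUnramified_iff.1 (hu.isUnramified v) with h1 | h1
  · exact h1
  · exfalso
    exact InfinitePlace.not_isReal_iff_isComplex.2 h1 (IsTotallyReal.isReal _)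

/-- Subfields of the m-th cyclotomic field are unramified outside m. -/
theorem A8_unr (m : ℕ) [NeZero m] (N : Type) [Field N] [NumberField N]
    [IsCyclotomicExtension {m} ℚ N] (K₀ : Type) [Field K₀] [NumberField K₀] [Algebra K₀ N]
    (w : HeightOneSpectrum (𝓞 K₀)) (l : ℕ) (hl : l.Prime) (hlw : (l : 𝓞 K₀) ∈ w.asIdeal)
    (hlm : ¬ l ∣ m) : w.asIdeal.ramificationIdx ℤ = 1 := by
  obtain ⟨Q, hQm, hQl⟩ := Ideal.exists_maximal_ideal_liesOver_of_isIntegral (S := 𝓞 N) w.asIdeal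
  have hunder : w.asIdeal = Q.under (𝓞 K₀) := hQl.over
  have hp := hQm.isPrime
  have hlQ : (l : 𝓞 N) ∈ Q := by
    rw [hunder, Ideal.mem_under, map_natCast] at hlw
    exact hlw
  have hF : Fact l.Prime := ⟨hl⟩
  have hunZ : Q.under ℤ = Ideal.span {(l : ℤ)} := by
    have hmax : (Ideal.span {(l : ℤ)}).IsMaximal := by
      have h1 : (Ideal.span {(l : ℤ)}).IsPrime := by
        rw [Ideal.span_singleton_prime (by exact_mod_cast hl.ne_zero)]
        exact Nat.prime_iff_prime_int.1 hl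
      exact h1.isMaximal (by
        rw [Ne, Ideal.span_singleton_eq_bot]
        exact_mod_cast hl.ne_zero)
    refine (hmax.eq_of_le (Ideal.IsPrime.under ℤ Q).ne_top ?_).symm
    rw [Ideal.span_singleton_le_iff_mem, Ideal.mem_under]
    simpa using hlQ
  have hlo : Q.LiesOver (Ideal.span {(l : ℤ)}) := ⟨hunZ.symm⟩
  have h1 : Q.ramificationIdx ℤ = 1 :=
    IsCyclotomicExtension.Rat.ramificationIdx_eq_of_not_dvd (m := m) l N Q hlm
  rw [Ideal.ramificationIdx_tower (R := ℤ) (S := 𝓞 K₀) w.asIdeal Q] at h1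
  exact Nat.eq_one_of_mul_eq_one_right h1



end H28R
end

-- from Lib.H28T.AQ2
section

open NumberField IsDedekindDomain

namespace H28T

open H55P H55R

variable {F : Type} [Field F] [NumberField F] {G : HeightOneSpectrum (𝓞 F) → Prop}

/-- Chunk AQ2 (S/M), port of H28R.exists_abelianQ (H28R/A8.lean; A8_real, A8_unr are general; A8_aux with GoodL G, B in place of GoodL p). RatG: w contains l, ramification index of w is not 1: then l ∣ m (A8_unr), so GoodL G l and B < l. -/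
theorem aq2_abelian {p : ℕ} (hp : p.Prime) (h2 : p ≠ 2) (hD : DirH G p) (A : Type) [CommGroup A] [Finite A]
    (k : ℕ) (hA : Nat.card A = p ^ k) (B : ℕ) :
    ∃ (K₀ : Type) (_ : Field K₀) (_ : NumberField K₀), IsTotallyReal K₀ ∧ RatG G p K₀ B ∧
      Nonempty ((K₀ ≃ₐ[ℚ] K₀) ≃* A) := by
  obtain ⟨m, hm1, hml, Φ, hΦ⟩ := aq1_quot hp hD A k hA B
  have hm0 : NeZero m := ⟨by omega⟩
  have hcyc : IsCyclotomicExtension {m} ℚ (CyclotomicField m ℚ) :=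
    CyclotomicField.isCyclotomicExtension m ℚ
  have hgalN : IsGalois ℚ (CyclotomicField m ℚ) := IsCyclotomicExtension.isGalois {m} ℚ _
  let ψ : Gal((CyclotomicField m ℚ)/ℚ) →* A :=
    Φ.comp (IsCyclotomicExtension.Rat.galEquivZMod m (CyclotomicField m ℚ)).toMonoidHom
  have hψ : Function.Surjective ψ :=
    hΦ.comp (IsCyclotomicExtension.Rat.galEquivZMod m (CyclotomicField m ℚ)).surjective
  have hnor : ψ.ker.Normal := ψ.normal_ker
  have hgal : IsGalois ℚ (IntermediateField.fixedField ψ.ker) :=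
    IsGalois.of_fixedField_normal_subgroup ψ.ker
  have e : Gal((IntermediateField.fixedField ψ.ker)/ℚ) ≃* A :=
    (IsGalois.normalAutEquivQuotient ψ.ker).symm.trans (QuotientGroup.quotientKerEquivOfSurjective ψ hψ)
  have hdeg : Module.finrank ℚ (IntermediateField.fixedField ψ.ker) = p ^ k := by
    rw [← IsGalois.card_aut_eq_finrank, Nat.card_congr e.toEquiv, hA]
  refine ⟨IntermediateField.fixedField ψ.ker, inferInstance, inferInstance, ?_, ⟨hgal, ⟨k, hdeg⟩, ?_⟩,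
    ⟨e⟩⟩
  · refine H28R.A8_real _ ?_
    rw [hdeg]
    exact (hp.odd_of_ne_two h2).pow
  · intro w l hl hlw hr
    have hd : l ∣ m := by
      by_contra hnd
      exact hr (H28R.A8_unr m (CyclotomicField m ℚ) _ w l hl hlw hnd)
    exact ⟨(hml l hl hd).2, (hml l hl hd).1⟩

end H28T
end

-- from Lib.H55Y.Y2_T
section

/-! # H55Y: the lattice of integers of F -/

open NumberField IsDedekindDomain WeierstrassCurve

namespace H55Y

open H55P (IQ embF eF LF Per Nm)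
open H55K (cj)
open H55W

variable {F : Type} [Field F] [NumberField F] [IQ F]


theorem y2_g {L L' : PeriodPair} (h : L.lattice = L'.lattice) : L.g₂ = L'.g₂ ∧ L.g₃ = L'.g₃ := by
  unfold PeriodPair.g₂ PeriodPair.g₃
  rw [H55P.PZ2_G L L' h, H55P.PZ2_G L L' h]
  exact ⟨rfl, rfl⟩

theorem y2_unit {u : 𝓞 F} (hu : IsUnit u) : (LF F).g₂ / (eF F u) ^ 4 = (LF F).g₂ ∧ (LF F).g₃ / (eF F u) ^ 6 = (LF F).g₃ := by
  have h0 : eF F u ≠ 0 := (hu.map (eF F)).ne_zero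
  obtain ⟨L', hL, h2, h3⟩ := H55K.lat_scale (LF F) (eF F u) h0
  have hl : L'.lattice = (LF F).lattice := by
    ext z
    rw [hL, H55P.mem_LF]
    constructor
    · rintro ⟨l, hl, rfl⟩
      obtain ⟨y, rfl⟩ := (H55P.mem_LF l).1 hl
      exact ⟨u * y, by rw [map_mul]⟩
    · rintro ⟨y, rfl⟩
      obtain ⟨v, hv⟩ := hu.exists_right_inv
      exact ⟨eF F (v * y), (H55P.mem_LF _).2 ⟨_, rfl⟩, by rw [← map_mul, ← mul_assoc, hv, one_mul]⟩
  obtain ⟨e2, e3⟩ := y2_g hl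
  exact ⟨h2.symm.trans e2, h3.symm.trans e3⟩

/-- Eisenstein integers: g₂ = 0. -/
theorem g2_w {w : 𝓞 F} (hw : w ^ 2 + w + 1 = 0) : (LF F).g₂ = 0 := by
  have hu : IsUnit w := IsUnit.of_mul_eq_one (w ^ 2) (by linear_combination (w - 1) * hw)
  obtain ⟨h1, -⟩ := y2_unit hu
  have h0 : eF F w ≠ 0 := (hu.map (eF F)).ne_zero
  have hc : (eF F w) ^ 2 + eF F w + 1 = 0 := by
    have := congrArg (eF F) hw
    rwa [map_add, map_add, map_pow, map_one, map_zero] at this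
  have h3 : (eF F w) ^ 4 = eF F w := by linear_combination ((eF F w) ^ 2 - eF F w) * hc
  rw [h3, div_eq_iff h0] at h1
  have h4 : eF F w ≠ 1 := by
    intro h
    rw [h] at hc
    norm_num at hc
  have h5 : (LF F).g₂ * (eF F w - 1) = 0 := by linear_combination -h1
  exact (mul_eq_zero.1 h5).resolve_right (sub_ne_zero.2 h4)

/-- Gaussian integers: g₃ = 0. -/
theorem g3_i {i : 𝓞 F} (hi : i ^ 2 = -1) : (LF F).g₃ = 0 := by
  have hu : IsUnit i := IsUnit.of_mul_eq_one (-i) (by linear_combination -hi)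
  obtain ⟨-, h1⟩ := y2_unit hu
  have hc : (eF F i) ^ 2 = -1 := by
    have := congrArg (eF F) hi
    rwa [map_pow, map_neg, map_one] at this
  have h3 : (eF F i) ^ 6 = -1 := by
    have : (eF F i) ^ 6 = ((eF F i) ^ 2) ^ 3 := by ring
    rw [this, hc]
    norm_num
  rw [h3] at h1
  have h4 : (LF F).g₃ * 2 = 0 := by
    rw [div_neg, div_one] at h1
    linear_combination -h1
  exact (mul_eq_zero.1 h4).resolve_right two_ne_zero

/-- O = ℤ + ℤ θ, θ is not real. -/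
structure Gen (θ : 𝓞 F) : Prop where
  rep : ∀ x : 𝓞 F, ∃ a b : ℤ, x = (a : 𝓞 F) + (b : 𝓞 F) * θ
  ne : cj θ ≠ θ

theorem gen_out {θ : 𝓞 F} (h : Gen θ) {f : ℕ} (hf : 2 ≤ f) (a : ℤ) (y : 𝓞 F) : θ ≠ (a : 𝓞 F) + (f : 𝓞 F) * y := by
  intro hθ
  obtain ⟨c, d, rfl⟩ := h.rep y
  have h1 := congrArg cj hθ
  rw [map_add, map_mul, map_add, map_mul, H55K.cj_int, H55K.cj_int, H55K.cj_int, H55K.cj_nat] at h1
  have h2 : (θ - cj θ) * (((1 - f * d : ℤ)) : 𝓞 F) = 0 := by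
    push_cast
    linear_combination hθ - h1
  rcases mul_eq_zero.1 h2 with h3 | h3
  · exact h.ne (sub_eq_zero.1 h3).symm
  · have h4 : (1 - f * d : ℤ) = 0 := by exact_mod_cast h3
    have h5 : (f : ℤ) ∣ 1 := ⟨d, by linarith⟩
    have h6 : f ∣ 1 := by exact_mod_cast h5
    have := Nat.le_of_dvd one_pos h6
    omega

theorem gen_w {w : 𝓞 F} (hw : w ^ 2 + w + 1 = 0) (hr : ∀ x : 𝓞 F, ∃ a b : ℤ, x = (a : 𝓞 F) + (b : 𝓞 F) * w) : Gen w := by
  refine ⟨hr, fun h => ?_⟩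
  obtain ⟨n, hn⟩ := int_of_cj h
  rw [hn] at hw
  have h1 : n ^ 2 + n + 1 = 0 := by exact_mod_cast hw
  nlinarith [sq_nonneg (2 * n + 1)]

theorem gen_i {i : 𝓞 F} (hi : i ^ 2 = -1) (hr : ∀ x : 𝓞 F, ∃ a b : ℤ, x = (a : 𝓞 F) + (b : 𝓞 F) * i) : Gen i := by
  refine ⟨hr, fun h => ?_⟩
  obtain ⟨n, hn⟩ := int_of_cj h
  rw [hn] at hi
  have h1 : n ^ 2 = -1 := by exact_mod_cast hi
  nlinarith [sq_nonneg n]

theorem gen_a {α : 𝓞 F} (hα : α ^ 2 - α + 2 = 0) (hr : ∀ x : 𝓞 F, ∃ a b : ℤ, x = (a : 𝓞 F) + (b : 𝓞 F) * α) : Gen α := by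
  refine ⟨hr, fun h => ?_⟩
  obtain ⟨n, hn⟩ := int_of_cj h
  rw [hn] at hα
  have h1 : n ^ 2 - n + 2 = 0 := by exact_mod_cast hα
  nlinarith [sq_nonneg (2 * n - 1)]

/-- 1/2 is not an integer of F, and so on: c/2 is an integer of F only if 2 divides c. -/
theorem y2_half {c : 𝓞 F} (h : eF F c / 2 ∈ (LF F).lattice) : (2 : 𝓞 F) ∣ c := by
  obtain ⟨y, hy⟩ := (H55P.mem_LF _).1 h
  refine ⟨y, H55P.eF_inj ?_⟩
  rw [map_mul, map_ofNat, ← hy]
  ring

theorem two_int {a b : ℤ} {θ : 𝓞 F} (h : Gen θ) (hd : (2 : 𝓞 F) ∣ (a : 𝓞 F) + (b : 𝓞 F) * θ) : 2 ∣ a ∧ 2 ∣ b := by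
  obtain ⟨y, hy⟩ := hd
  obtain ⟨c, d, rfl⟩ := h.rep y
  have h1 := congrArg cj hy
  rw [map_add, map_mul, map_mul, map_add, map_mul, H55K.cj_int, H55K.cj_int, H55K.cj_int, H55K.cj_int, map_ofNat] at h1
  have h2 : (θ - cj θ) * (((b - 2 * d : ℤ)) : 𝓞 F) = 0 := by
    push_cast
    linear_combination hy - h1
  rcases mul_eq_zero.1 h2 with h3 | h3
  · exact absurd (sub_eq_zero.1 h3).symm h.ne
  · have h4 : b = 2 * d := by
      have : (b - 2 * d : ℤ) = 0 := by exact_mod_cast h3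
      linarith
    have h5 : ((a - 2 * c : ℤ) : 𝓞 F) = 0 := by
      rw [h4] at hy
      push_cast at hy ⊢
      linear_combination hy
    have h6 : (a - 2 * c : ℤ) = 0 := by exact_mod_cast h5
    exact ⟨⟨c, by linarith⟩, ⟨d, h4⟩⟩

end H55Y
end

-- from Lib.H55W.L4A
section

/-! # H55W, part L: the Frobenius element, discriminant -4 -/

open NumberField IsDedekindDomain WeierstrassCurve

namespace H55W

open H55P (IQ embF eF LF Per IsHecke Pt ac Inert Dec Nm)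
open H35P (WAB Ker tt GoodW IntW)
open H55K
open H13D (RM)

variable {F : Type} [Field F] [NumberField F] [IQ F] {I : 𝓞 F} {A B : F} {Om : ℂ} {Ω : Type} [Field Ω] [DecidableEq Ω]
  [Algebra F Ω] {j : Ω →+* ℂ} {act : 𝓞 F →+* AddMonoid.End (Pt (WAB A B) Ω)} {V : ValuationSubring Ω}
  {Kg : AddSubgroup (Pt (WAB A B) Ω)} {v : HeightOneSpectrum (𝓞 F)} {s : Ω ≃ₐ[F] Ω} {r : Ω}

theorem l4a_unit (hI : GI I) : IsUnit I :=
  IsUnit.of_mul_eq_one (-I) (by linear_combination (-1 : 𝓞 F) * hI.sq)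

theorem l4a_ak (a : 𝓞 F) : ∀ n : ℕ, ak Ω (a ^ n) = ak Ω a ^ n := by
  intro n
  unfold ak
  rw [← map_pow]
  simp

theorem l4a_sq (hI : GI I) : ak Ω I ^ 2 = -1 := by
  rw [← l4a_ak, hI.sq]
  unfold ak
  simp

theorem l4a_nat {n : ℕ} (hn : n ≠ 0) (j : Ω →+* ℂ) : (n : Ω) ≠ 0 := by
  intro h
  have h1 := congrArg j h
  rw [map_natCast, map_zero, Nat.cast_eq_zero] at h1
  exact hn h1

theorem l4a_add (a b : 𝓞 F) (P : Pt (WAB A B) Ω) : act (a + b) P = act a P + act b P := by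
  rw [map_add]
  rfl

/-- the coordinates of act I P -/
theorem l4a_act (hI : GI I) (h : CMA F A B Om j act) (P : Pt (WAB A B) Ω) :
    xc (act I P) = -xc P ∧ yc (act I P) = ak Ω I * yc P := by
  obtain ⟨h1, h2⟩ := act_unit h (l4a_unit hI) P
  have h3 := l4a_sq (Ω := Ω) hI
  constructor
  · linear_combination (-1 : Ω) * h1 + xc (act I P) * h3
  · linear_combination ak Ω I * h2 - (ak Ω I ^ 2 - 1) * yc (act I P) * h3

/-- Chunk L4A (S/M). A point P ≠ 0 (h.gen 5). act_unit for I: act I P = (I^(-2) x, I^(-3) y) = (-x, I y) is on the curve (eqnA): -y^2 = -x^3 - A x + B, and y^2 = x^3 + A x + B: so 2 B = 0. -/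
theorem b_zero (hI : GI I) (h : CMA F A B Om j act) : B = 0 := by
  have h5 : (5 : 𝓞 F) ≠ 0 := by norm_num
  obtain ⟨P, -, -, hT, -⟩ := h.gen 5 h5
  have hP : P ≠ 0 := by
    intro h0
    have h1 : act 1 P = 0 := by rw [h0, map_zero]
    have h2 := g0_dvd_nm ((hT 1).1 h1)
    have h3 := Nm_nat (F := F) 5
    have h4 := Nm_nat (F := F) 1
    rw [Nat.cast_ofNat] at h3
    rw [Nat.cast_one] at h4
    rw [h3, h4] at h2
    norm_num at h2
  have hQ : act I P ≠ 0 := fun h0 => hP (l0_inj (l4a_unit hI) h0)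
  obtain ⟨e1, e2⟩ := l4a_act hI h P
  have e3 := eqnA hQ
  have e4 := eqnA hP
  rw [e1, e2] at e3
  have e5 := l4a_sq (Ω := Ω) hI
  have e6 : 2 * algebraMap F Ω B = 0 := by
    linear_combination (yc P) ^ 2 * e5 - e3 - e4
  have h20 : (2 : Ω) ≠ 0 := by
    have := l4a_nat (Ω := Ω) (n := 2) (by norm_num) j
    exact_mod_cast this
  exact (map_eq_zero_iff _ (algebraMap F Ω).injective).1 ((mul_eq_zero.1 e6).resolve_left h20)

/-- Chunk L4A (M). T from h.gen (2 + 2I). Z = act (2I) T: not 0 (2 + 2I does not divide 2I: norm 8, 4), act (1 + I) Z = act (I (2 + 2I)) T = 0, so act I Z = -Z; act_unit: - xc (act I Z) = xc Z, xc (-Z) = xc Z: 2 xc Z = 0, xc Z = 0, yc Z^2 = B = 0 (eqnA). T + T = act 2 T = act (-I) Z: not 0, xc = 0 (act_unit for -I). yc T ≠ 0 (otherwise T = -T, T + T = 0).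
dbl_coords: 0 = ((3x^2 + A)/(2y))^2 - 2x: (3x^2 + A)^2 = 8 x y^2 = 8 x (x^3 + A x): (x^2 - A)^2 = 0. So x^2 = A ≠ 0 (h.disc), y^2 = 2 x^3; Y = y/x: Y^2 = 2x, Y^3 = 2y, Y^4 = 4 x^2 = 4A. -/
theorem tor_four (hI : GI I) (h : CMA F A B Om j act) {δ : ℤ} (hA : 4 * A = -(δ : F)) :
    ∃ (T : Pt (WAB A B) Ω) (Y : Ω), (∀ a : 𝓞 F, act a T = 0 ↔ 2 + 2 * I ∣ a) ∧
      (∀ P : Pt (WAB A B) Ω, act (2 + 2 * I) P = 0 → ∃ a : 𝓞 F, P = act a T) ∧
      2 * xc T = Y ^ 2 ∧ 2 * yc T = Y ^ 3 ∧ Y ^ 4 = -(δ : Ω) ∧ Y ≠ 0 := by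
  have hne : (2 + 2 * I : 𝓞 F) ≠ 0 := by
    intro h0
    have h1 := g0_nm22 hI
    rw [h0] at h1
    have h2 := Nm_nat (F := F) 0
    rw [Nat.cast_zero] at h2
    rw [h2] at h1
    norm_num at h1
  obtain ⟨T, -, hg, hT, -⟩ := h.gen (2 + 2 * I) hne
  have hB0 : algebraMap F Ω B = 0 := by rw [b_zero hI h, map_zero]
  have hAO : 4 * algebraMap F Ω A = -(δ : Ω) := by
    have h1 := congrArg (algebraMap F Ω) hA
    rw [map_mul, map_ofNat, map_neg, map_intCast] at h1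
    exact h1
  have hA0 : algebraMap F Ω A ≠ 0 := by
    intro h0
    have h1 := (map_eq_zero_iff _ (algebraMap F Ω).injective).1 h0
    apply h.disc
    rw [h1, b_zero hI h]
    norm_num
  have h20 : (2 : Ω) ≠ 0 := by
    have := l4a_nat (Ω := Ω) (n := 2) (by norm_num) j
    exact_mod_cast this
  have hZ0 : act (2 * I) T ≠ 0 := by
    intro h0
    have h1 := g0_dvd_nm ((hT _).1 h0)
    have h2 := gi_nm hI 0 2
    have h3 : ((0 : ℤ) : 𝓞 F) + ((2 : ℤ) : 𝓞 F) * I = 2 * I := by push_cast; ring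
    rw [h3] at h2
    have h4 : Nm (2 * I) = 4 := by
      have : ((Nm (2 * I) : ℕ) : ℤ) = 4 := by rw [h2]; norm_num
      exact_mod_cast this
    rw [g0_nm22 hI, h4] at h1
    norm_num at h1
  have hIZ : act I (act (2 * I) T) = -act (2 * I) T := by
    have h1 : act (1 + I) (act (2 * I) T) = 0 := by
      rw [← l0_mul]
      refine (hT _).2 ⟨I, ?_⟩
      ring
    rw [l4a_add, l0_one] at h1
    exact eq_neg_of_add_eq_zero_right h1
  have hxZ : xc (act (2 * I) T) = 0 := by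
    have h1 := (l4a_act hI h (act (2 * I) T)).1
    rw [hIZ, xc_neg] at h1
    have h2 : 2 * xc (act (2 * I) T) = 0 := by linear_combination h1
    exact (mul_eq_zero.1 h2).resolve_left h20
  have hTT : T + T = -act I (act (2 * I) T) := by
    have h1 : T + T = act 2 T := by
      have h2 : (2 : 𝓞 F) = 1 + 1 := by norm_num
      rw [h2, l4a_add, l0_one]
    rw [h1, ← l0_mul, ← act_neg]
    congr 1
    congr 1
    linear_combination (2 : 𝓞 F) * hI.sq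
  have hTT0 : T + T ≠ 0 := by
    rw [hTT, hIZ, neg_neg]
    exact hZ0
  have hxTT : xc (T + T) = 0 := by
    rw [hTT, hIZ, neg_neg, hxZ]
  have hT0 : T ≠ 0 := by
    intro h0
    rw [h0, add_zero] at hTT0
    exact hTT0 rfl
  have hy : 2 * yc T ≠ 0 := by
    intro h0
    have h1 : yc T = 0 := (mul_eq_zero.1 h0).resolve_left h20
    have h2 : -T = T := by
      refine pt_ext (neg_ne hT0) hT0 (xc_neg T) ?_
      rw [yc_neg, h1, neg_zero]
    apply hTT0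
    nth_rewrite 1 [← h2]
    exact neg_add_cancel T
  obtain ⟨-, e1, -⟩ := dbl_coords hT0 hy
  rw [hxTT, base_a4] at e1
  have e2 := eqnA hT0
  rw [hB0, add_zero] at e2
  have e3 : (3 * xc T ^ 2 + algebraMap F Ω A) ^ 2 = 8 * xc T * yc T ^ 2 := by
    have h1 : ((3 * xc T ^ 2 + algebraMap F Ω A) / (2 * yc T)) ^ 2 * (2 * yc T) ^ 2 =
        (3 * xc T ^ 2 + algebraMap F Ω A) ^ 2 := by
      rw [← mul_pow, div_mul_cancel₀ _ hy]
    have h2 : ((3 * xc T ^ 2 + algebraMap F Ω A) / (2 * yc T)) ^ 2 = 2 * xc T := by linear_combination -e1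
    rw [h2] at h1
    linear_combination -h1
  have e4 : (xc T ^ 2 - algebraMap F Ω A) ^ 2 = 0 := by
    linear_combination e3 + 8 * xc T * e2
  have e5 : xc T ^ 2 = algebraMap F Ω A := sub_eq_zero.1 (pow_eq_zero_iff (by norm_num) |>.1 e4)
  have hx0 : xc T ≠ 0 := by
    intro h0
    rw [h0, zero_pow (by norm_num)] at e5
    exact hA0 e5.symm
  have e6 : yc T ^ 2 = 2 * xc T ^ 3 := by
    rw [e2, ← e5]
    ring
  have hy0 : yc T ≠ 0 := fun h0 => hy (by rw [h0, mul_zero])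
  have e7 : (yc T / xc T) ^ 2 = 2 * xc T := by
    rw [div_pow, e6]
    field_simp
  refine ⟨T, yc T / xc T, hT, fun P hP => hg P hP, e7.symm, ?_, ?_, div_ne_zero hy0 hx0⟩
  · have h1 : (yc T / xc T) ^ 3 = (yc T / xc T) ^ 2 * (yc T / xc T) := by ring
    rw [h1, e7]
    field_simp
  · have h1 : (yc T / xc T) ^ 4 = ((yc T / xc T) ^ 2) ^ 2 := by ring
    rw [h1, e7]
    linear_combination 4 * e5 + hAO

end H55W
end

-- from Lib.H55W.L4B
section

/-! # H55W, part L: the Frobenius element, discriminant -4 -/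

open NumberField IsDedekindDomain WeierstrassCurve

namespace H55W

open H55P (IQ embF eF LF Per IsHecke Pt ac Inert Dec Nm)
open H35P (WAB Ker tt GoodW IntW)
open H55K
open H13D (RM)

variable {F : Type} [Field F] [NumberField F] [IQ F] {I : 𝓞 F} {A B : F} {Om : ℂ} {Ω : Type} [Field Ω] [DecidableEq Ω]
  [Algebra F Ω] {j : Ω →+* ℂ} {act : 𝓞 F →+* AddMonoid.End (Pt (WAB A B) Ω)} {V : ValuationSubring Ω}
  {Kg : AddSubgroup (Pt (WAB A B) Ω)} {v : HeightOneSpectrum (𝓞 F)} {s : Ω ≃ₐ[F] Ω} {r : Ω}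

theorem l4b_two (hI : GI I) : (1 + I) * ((1 + I) * -I) = 2 := by
  linear_combination (-I - 2) * hI.sq

theorem l4b_pp (hI : GI I) (h2 : (2 : 𝓞 F) ∉ v.asIdeal) : PP 4 I v.asIdeal where
  pr := v.isPrime
  ne := v.ne_bot
  nm := by
    intro h4
    have h5 : ((4 : ℕ) : 𝓞 F) = 2 * 2 := by push_cast; norm_num
    rw [h5] at h4
    rcases v.isPrime.mem_or_mem h4 with h6 | h6 <;> exact h2 h6
  root := gi_root hI
  two := by norm_num

theorem l4b_gen (hI : GI I) (h2 : (2 : 𝓞 F) ∉ v.asIdeal) {u : 𝓞 F} (hu : IsUnit u) :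
    ∃ β : 𝓞 F, Ideal.span {β} = v.asIdeal ∧ 2 + 2 * I ∣ u - β := by
  obtain ⟨β₀, hβ₀⟩ : ∃ β₀ : 𝓞 F, Ideal.span {β₀} = v.asIdeal :=
    ⟨Submodule.IsPrincipal.generator v.asIdeal, Ideal.span_singleton_generator v.asIdeal⟩
  have hβv : β₀ ∈ v.asIdeal := by
    rw [← hβ₀]
    exact Ideal.mem_span_singleton_self β₀
  have hβne : β₀ ≠ 0 := by
    rintro rfl
    rw [Ideal.span_singleton_eq_bot.2 rfl] at hβ₀
    exact v.ne_bot hβ₀.symm
  have hnd : ¬ (1 + I) ∣ β₀ := by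
    rintro ⟨z, hz⟩
    rw [hz] at hβv
    rcases v.isPrime.mem_or_mem hβv with h4 | h4
    · apply h2
      rw [← l4b_two hI]
      exact v.asIdeal.mul_mem_right _ h4
    · rw [← hβ₀, Ideal.mem_span_singleton] at h4
      obtain ⟨y, hy⟩ := h4
      have h5 : (1 + I) * y = 1 := by
        have h6 : β₀ * ((1 + I) * y - 1) = 0 := by linear_combination -(1 + I) * hy - hz
        exact sub_eq_zero.1 ((mul_eq_zero.1 h6).resolve_left hβne)
      have h6 := g0_nm_unit (IsUnit.of_mul_eq_one _ h5)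
      rw [g0_nm11 hI] at h6
      omega
  obtain ⟨k, hk⟩ := gi_exists hI hnd
  refine ⟨u * (I ^ k * β₀), ?_, ?_⟩
  · rw [← hβ₀, Ideal.span_singleton_eq_span_singleton, ← mul_assoc]
    exact associated_unit_mul_left β₀ _ (hu.mul ((l4a_unit hI).pow k))
  · have h5 : u - u * (I ^ k * β₀) = -u * (I ^ k * β₀ - 1) := by ring
    rw [h5]
    exact Dvd.dvd.mul_left hk _

theorem l4b_not (hI : GI I) {x : 𝓞 F} {a b : ℤ} (hx : x = (a : 𝓞 F) + (b : 𝓞 F) * I) (h : ¬ (8 : ℤ) ∣ a ^ 2 + b ^ 2) :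
    ¬ 2 + 2 * I ∣ x := by
  intro h1
  have h2 := g0_dvd_nm h1
  rw [g0_nm22 hI] at h2
  apply h
  rw [← gi_nm hI, ← hx]
  exact_mod_cast h2

/-- Chunk L4B (M). T, Y from tor_four. act (2 + 2I) (ac s T) = 0 (h.gal), so ac s T = act c T. 1 + I does not divide c: otherwise act 2 kills ac s T ((2 + 2I) | 2 (1 + I)), so act 2 T = 0 (ac_ne): 2 + 2I divides 2: contradiction. gi_exists: 2 + 2I | I^i c - 1; ζ = I^i, ac s T = act u T for u = I^(3i) (u ζ = 1). act_unit: s (xc T) = ζ^2 xc T, s (yc T) = ζ^3 yc T (xc_ac, yc_ac),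
so s Y = ζ Y (Y = Y^3 / Y^2 = yc T / xc T). frob_root with m = 4, c = -δ, X = Y (4 divides N - 1: ps_dvd for v.asIdeal, 4, I: 4 is not in v). δ is not in v.
γ: a generator β₀ of v is not divisible by 1 + I (2 is not in v), gi_exists: I^k β₀ is 1 modulo 2 + 2I, β = u I^k β₀: 2 + 2I | u - β (c ≡ u); loc_gen with n0 = 2 + 2I, c = u, t = 1 + I (t, 1 - t = -I, 1 + t = 2 + I have norms 2, 1, 5, not divisible by 8). γ ζ - 1 = (γ - u) ζ. -/
theorem loc_four (hI : GI I) (h : CMA F A B Om j act) {δ : ℤ} (hA : 4 * A = -(δ : F)) (hL : LD v V s Kg r)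
    (h2 : (2 : 𝓞 F) ∉ v.asIdeal) (hδ : (δ : 𝓞 F) ∉ v.asIdeal) :
    ∃ γ ζ : 𝓞 F, Ideal.span {γ} = v.asIdeal ∧ (∀ X : Pt (WAB A B) Ω, act γ X - ac (WAB A B) s X ∈ Kg) ∧
      2 + 2 * I ∣ γ * ζ - 1 ∧ (∃ i : ℕ, ζ = I ^ i) ∧
      (-(δ : 𝓞 F)) ^ ((Ideal.absNorm v.asIdeal - 1) / 4) - ζ ∈ v.asIdeal := by
  obtain ⟨T, Y, hT, hg, hx, hy, hY4, hY0⟩ := tor_four hI h hA
  have h1 : act (2 + 2 * I) (ac (WAB A B) s T) = 0 := by
    rw [← h.gal, (hT _).2 (dvd_refl _), ac_zero]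
  obtain ⟨c, hc⟩ := hg _ h1
  have hc1 : ¬ (1 + I) ∣ c := by
    rintro ⟨c', rfl⟩
    have h3 : act 2 (ac (WAB A B) s T) = 0 := by
      rw [hc, ← l0_mul]
      refine (hT _).2 ⟨c', ?_⟩
      ring
    rw [← h.gal] at h3
    have h4 : act 2 T = 0 := by
      by_contra h5
      exact ac_ne _ s h5 h3
    exact l4b_not hI (a := 2) (b := 0) (by push_cast; ring) (by norm_num) ((hT _).1 h4)
  obtain ⟨i, hi⟩ := gi_exists hI hc1
  have hI4 : I ^ 4 = 1 := (gi_root hI).pow_eq_one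
  have huz : I ^ (3 * i) * I ^ i = 1 := by
    rw [← pow_add, show 3 * i + i = 4 * i by ring, pow_mul, hI4, one_pow]
  have hu : IsUnit (I ^ (3 * i)) := (l4a_unit hI).pow _
  have hcu : ac (WAB A B) s T = act (I ^ (3 * i)) T := by
    have h3 : act (c - I ^ (3 * i)) T = 0 := by
      refine (hT _).2 ?_
      have h4 : c - I ^ (3 * i) = I ^ (3 * i) * (I ^ i * c - 1) := by linear_combination (-c) * huz
      rw [h4]
      exact Dvd.dvd.mul_left hi _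
    rw [l0_sub, sub_eq_zero] at h3
    rw [hc, h3]
  obtain ⟨e1, e2⟩ := act_unit h hu T
  rw [← hcu, xc_ac] at e1
  rw [← hcu, yc_ac] at e2
  have huzΩ : ak Ω (I ^ (3 * i)) * ak Ω (I ^ i) = 1 := by
    have h3 : ak Ω (I ^ (3 * i) * I ^ i) = ak Ω (I ^ (3 * i)) * ak Ω (I ^ i) := by
      unfold ak
      rw [← map_mul]
      rfl
    rw [← h3, huz]
    unfold ak
    simp
  have e3 : s (xc T) = ak Ω (I ^ i) ^ 2 * xc T := by
    linear_combination ak Ω (I ^ i) ^ 2 * e1 - (ak Ω (I ^ (3 * i)) * ak Ω (I ^ i) + 1) * s (xc T) * huzΩ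
  have e4 : s (yc T) = ak Ω (I ^ i) ^ 3 * yc T := by
    linear_combination ak Ω (I ^ i) ^ 3 * e2 -
      ((ak Ω (I ^ (3 * i)) * ak Ω (I ^ i)) ^ 2 + ak Ω (I ^ (3 * i)) * ak Ω (I ^ i) + 1) * s (yc T) * huzΩ
  have hsY : s Y = ak Ω (I ^ i) * Y := by
    have h3 : s Y ^ 2 = ak Ω (I ^ i) ^ 2 * Y ^ 2 := by
      rw [← map_pow, ← hx, map_mul, map_ofNat, e3]
      ring
    have h4 : s Y ^ 3 = ak Ω (I ^ i) ^ 3 * Y ^ 3 := by
      rw [← map_pow, ← hy, map_mul, map_ofNat, e4]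
      ring
    have h5 : s Y ^ 2 * (s Y - ak Ω (I ^ i) * Y) = 0 := by
      linear_combination h4 - ak Ω (I ^ i) * Y * h3
    have h6 : s Y ≠ 0 := by
      intro h7
      exact hY0 ((map_eq_zero_iff _ s.injective).1 h7)
    exact sub_eq_zero.1 ((mul_eq_zero.1 h5).resolve_left (pow_ne_zero _ h6))
  obtain ⟨β, hβ, h3β⟩ := l4b_gen (v := v) hI h2 hu
  have hn0 : 2 + 2 * I ∉ v.asIdeal := by
    intro h3
    have h4 : 2 + 2 * I = 2 * (1 + I) := by ring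
    rw [h4] at h3
    rcases v.isPrime.mem_or_mem h3 with h5 | h5
    · exact h2 h5
    · apply h2
      rw [← l4b_two hI]
      exact v.asIdeal.mul_mem_right _ h5
  obtain ⟨γ, hγ, hγu, hγK⟩ := loc_gen h hL hn0 hT hβ hcu (Or.inl h3β) (t := 1 + I)
    (l4b_not hI (a := 1) (b := 1) (by push_cast; ring) (by norm_num))
    (l4b_not hI (a := 0) (b := -1) (by push_cast; ring) (by norm_num))
    (l4b_not hI (a := 2) (b := 1) (by push_cast; ring) (by norm_num))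
  refine ⟨γ, I ^ i, hγ, hγK, ?_, ⟨i, rfl⟩, ?_⟩
  · have h3 : γ * I ^ i - 1 = (γ - I ^ (3 * i)) * I ^ i := by linear_combination huz
    rw [h3]
    exact Dvd.dvd.mul_right hγu _
  · refine frob_root hL (m := 4) (by norm_num) (ps_dvd (l4b_pp hI h2)).1 (c := -(δ : 𝓞 F)) ?_ (X := Y) ?_ hsY
    · intro h3
      exact hδ (by simpa using v.asIdeal.neg_mem h3)
    · rw [hY4]
      unfold ak
      simp

end H55W
end

-- from Lib.H55W.L3
section

/-! # H55W, part L: the Frobenius element, discriminant -3 -/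

open NumberField IsDedekindDomain WeierstrassCurve

namespace H55W

open H55P (IQ embF eF LF Per IsHecke Pt ac Inert Dec Nm)
open H35P (WAB Ker tt GoodW IntW)
open H55K
open H13D (RM)

variable {F : Type} [Field F] [NumberField F] [IQ F] {w : 𝓞 F}

variable {A B : F} {Om : ℂ} {Ω : Type} [Field Ω] [DecidableEq Ω]
  [Algebra F Ω] {j : Ω →+* ℂ} {act : 𝓞 F →+* AddMonoid.End (Pt (WAB A B) Ω)} {V : ValuationSubring Ω}
  {Kg : AddSubgroup (Pt (WAB A B) Ω)} {v : HeightOneSpectrum (𝓞 F)} {s : Ω ≃ₐ[F] Ω} {r : Ω}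

theorem l3_cube (hw : EI w) : w ^ 3 = 1 := by
  have h1 := hw.sq
  linear_combination (w - 1) * h1

theorem l3_unit (hw : EI w) : IsUnit w :=
  IsUnit.of_mul_eq_one (w ^ 2) (by rw [← l3_cube hw]; ring)

theorem l3_ak (a : 𝓞 F) : ∀ n : ℕ, ak Ω (a ^ n) = ak Ω a ^ n := by
  intro n
  unfold ak
  rw [← map_pow]
  simp

theorem l3_om (hw : EI w) : ak Ω w ^ 2 + ak Ω w + 1 = 0 := by
  have h1 := hw.sq
  have h2 : algebraMap F Ω ((w ^ 2 + w + 1 : 𝓞 F) : F) = 0 := by rw [h1]; simp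
  unfold ak
  simpa using h2

theorem l3_omcube (hw : EI w) : ak Ω w ^ 3 = 1 := by
  have h1 := l3_om (Ω := Ω) hw
  linear_combination (ak Ω w - 1) * h1

theorem l3_nat {n : ℕ} (hn : n ≠ 0) (j : Ω →+* ℂ) : (n : Ω) ≠ 0 := by
  intro h
  have h1 := congrArg j h
  rw [map_natCast, map_zero, Nat.cast_eq_zero] at h1
  exact hn h1

theorem l3_om1 (hw : EI w) (j : Ω →+* ℂ) : ak Ω w ≠ 1 := by
  intro h
  have h1 := l3_om (Ω := Ω) hw
  rw [h] at h1
  have h2 : ((3 : ℕ) : Ω) = 0 := by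
    push_cast
    linear_combination h1
  exact l3_nat (by norm_num) j h2

theorem l3_add (a b : 𝓞 F) (P : Pt (WAB A B) Ω) : act (a + b) P = act a P + act b P := by
  rw [map_add]
  rfl

theorem l3_dvd {m n : ℕ} (h : (m : 𝓞 F) ∣ (n : 𝓞 F)) : m ^ 2 ∣ n ^ 2 := by
  obtain ⟨z, hz⟩ := h
  have h1 := congrArg Nm hz
  rw [Nm_mul, Nm_nat, Nm_nat] at h1
  exact ⟨Nm z, h1⟩

/-- the coordinates of act w P -/
theorem l3_act (hw : EI w) (h : CMA F A B Om j act) (P : Pt (WAB A B) Ω) :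
    xc (act w P) = ak Ω w * xc P ∧ yc (act w P) = yc P := by
  obtain ⟨h1, h2⟩ := act_unit h (l3_unit hw) P
  have h3 := l3_omcube (Ω := Ω) hw
  constructor
  · rw [← h1]
    linear_combination (-xc (act w P)) * h3
  · rw [← h2, h3, one_mul]

/-- Chunk L3 (S/M). A point P ≠ 0 with xc P ≠ 0 (h.gen 5: T₀ ≠ 0 killed by 5; if all nonzero multiples a T₀ had x = 0 there would be at most 2 of them (H55K.xc_eq), but there are 24: tor_card; or: two points T, T' with T' ≠ ±T and xc = 0 for both contradicts xc_eq). act_unit for w: (w^(-2) x, w^(-3) y) = (w x, y) is on the curve (eqnA for act w P ≠ 0):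
y^2 = x^3 + A w x + B = x^3 + A x + B, so A (w - 1) x = 0. ak is injective. -/
theorem a_zero (hw : EI w) (h : CMA F A B Om j act) : A = 0 := by
  have h5 : (5 : 𝓞 F) ≠ 0 := by norm_num
  obtain ⟨T, -, -, hT, -⟩ := h.gen 5 h5
  have hT0 : T ≠ 0 := by
    intro h0
    have h1 : act 1 T = 0 := by rw [h0, map_zero]
    have h2 := (hT 1).1 h1
    have h3 : 5 ^ 2 ∣ 1 ^ 2 := l3_dvd (F := F) (by exact_mod_cast h2)
    norm_num at h3
  have hT2 : act 2 T = T + T := by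
    have h1 : (2 : 𝓞 F) = 1 + 1 := by norm_num
    rw [h1, l3_add, l0_one]
  have hT20 : act 2 T ≠ 0 := by
    intro h0
    have h2 := (hT 2).1 h0
    have h3 : 5 ^ 2 ∣ 2 ^ 2 := l3_dvd (F := F) (by exact_mod_cast h2)
    norm_num at h3
  obtain ⟨P, hP, hPx⟩ : ∃ P : Pt (WAB A B) Ω, P ≠ 0 ∧ xc P ≠ 0 := by
    by_contra hcon
    push Not at hcon
    rcases xc_eq hT20 hT0 ((hcon _ hT20).trans (hcon _ hT0).symm) with h1 | h1
    · rw [hT2] at h1
      exact hT0 (by simpa using h1)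
    · have h2 : act 3 T = 0 := by
        have h3 : (3 : 𝓞 F) = 2 + 1 := by norm_num
        rw [h3, l3_add, l0_one, h1, neg_add_cancel]
      have h3 := (hT 3).1 h2
      have h4 : 5 ^ 2 ∣ 3 ^ 2 := l3_dvd (F := F) (by exact_mod_cast h3)
      norm_num at h4
  have hQ : act w P ≠ 0 := fun h0 => hP (l0_inj (l3_unit hw) h0)
  obtain ⟨e1, e2⟩ := l3_act hw h P
  have e3 := eqnA hQ
  have e4 := eqnA hP
  rw [e1, e2] at e3
  have e5 := l3_omcube (Ω := Ω) hw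
  have e6 : algebraMap F Ω A * ((ak Ω w - 1) * xc P) = 0 := by
    linear_combination e4 - e3 - (xc P) ^ 3 * e5
  have e7 : algebraMap F Ω A = 0 := by
    rcases mul_eq_zero.1 e6 with e8 | e8
    · exact e8
    · exfalso
      rcases mul_eq_zero.1 e8 with e9 | e9
      · exact l3_om1 hw j (sub_eq_zero.1 e9)
      · exact hPx e9
  exact (map_eq_zero_iff _ (algebraMap F Ω).injective).1 e7

/-- Chunk L3 (M). T from h.gen 3. x = xc T, y = yc T. act 3 T = T + T + T = 0 and T ≠ 0 (3 does not divide 1), T + T = -T ≠ 0, so y ≠ 0 (if y = 0 then T = -T: pt_ext, yc_neg; T + T = 0) and dbl_coords: x = ((3x^2 + A)/(2y))^2 - 2x with A = 0: 9x^4 = 12 x y^2 = 12 x (x^3 + B) (eqnA): 3 x^4 + 12 B x = 0 up to sign: x = 0 or x^3 = -4B. If x = 0: act w T has the coordinates of T (act_unit: w^2 x' = 0, w^3 y' = y, w^3 = 1), so act w T = T (pt_ext),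
act (w - 1) T = 0, 3 divides w - 1: contradiction (ei_uniq). So x^3 = -4B = -b', and (2y)^2 = 4x^3 + 4B = -3 b'. -/
theorem tor_three (hw : EI w) (h : CMA F A B Om j act) {b' : ℤ} (hB : 4 * B = (b' : F)) :
    ∃ T : Pt (WAB A B) Ω, (∀ a : 𝓞 F, act a T = 0 ↔ (3 : 𝓞 F) ∣ a) ∧ (∀ P : Pt (WAB A B) Ω, act 3 P = 0 → ∃ a : 𝓞 F, P = act a T) ∧
      xc T ^ 3 = -(b' : Ω) ∧ (2 * yc T) ^ 2 = -3 * (b' : Ω) := by
  have h3 : (3 : 𝓞 F) ≠ 0 := by norm_num
  obtain ⟨T, -, hg, hT, -⟩ := h.gen 3 h3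
  have hA0 : algebraMap F Ω A = 0 := by rw [a_zero hw h, map_zero]
  have hBO : 4 * algebraMap F Ω B = (b' : Ω) := by
    have h1 := congrArg (algebraMap F Ω) hB
    rw [map_mul, map_ofNat, map_intCast] at h1
    exact h1
  have hT0 : T ≠ 0 := by
    intro h0
    have h1 : act 1 T = 0 := by rw [h0, map_zero]
    have h2 := (hT 1).1 h1
    have h3 : 3 ^ 2 ∣ 1 ^ 2 := l3_dvd (F := F) (by exact_mod_cast h2)
    norm_num at h3
  have hTT : T + T = -T := by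
    have h1 : act 3 T = 0 := (hT 3).2 (dvd_refl _)
    have h2 : (3 : 𝓞 F) = 1 + 1 + 1 := by norm_num
    rw [h2, l3_add, l3_add, l0_one] at h1
    exact eq_neg_of_add_eq_zero_left h1
  have h20 : (2 : Ω) ≠ 0 := by
    have := l3_nat (Ω := Ω) (n := 2) (by norm_num) j
    exact_mod_cast this
  have hy : 2 * yc T ≠ 0 := by
    intro h0
    have h1 : yc T = 0 := (mul_eq_zero.1 h0).resolve_left h20
    have h2 : -T = T := by
      refine pt_ext (neg_ne hT0) hT0 (xc_neg T) ?_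
      rw [yc_neg, h1, neg_zero]
    rw [h2] at hTT
    exact hT0 (by simpa using hTT)
  obtain ⟨-, e1, -⟩ := dbl_coords hT0 hy
  rw [hTT, xc_neg, base_a4, hA0, add_zero] at e1
  have e2 := eqnA hT0
  rw [hA0, zero_mul, add_zero] at e2
  have e3 : 9 * xc T ^ 4 = 12 * xc T * yc T ^ 2 := by
    have h1 : ((3 * xc T ^ 2) / (2 * yc T)) ^ 2 * (2 * yc T) ^ 2 = (3 * xc T ^ 2) ^ 2 := by
      rw [← mul_pow, div_mul_cancel₀ _ hy]
    have h2 : ((3 * xc T ^ 2) / (2 * yc T)) ^ 2 = 3 * xc T := by linear_combination -e1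
    rw [h2] at h1
    linear_combination -h1
  have h30 : (3 : Ω) ≠ 0 := by
    have := l3_nat (Ω := Ω) (n := 3) (by norm_num) j
    exact_mod_cast this
  have e4 : 3 * (xc T * (xc T ^ 3 + 4 * algebraMap F Ω B)) = 0 := by
    linear_combination (-1 : Ω) * e3 - 12 * xc T * e2
  have e5 : xc T ^ 3 = -(b' : Ω) := by
    rcases mul_eq_zero.1 ((mul_eq_zero.1 e4).resolve_left h30) with e6 | e6
    · exfalso
      obtain ⟨e7, e8⟩ := l3_act hw h T
      have hQ : act w T ≠ 0 := fun h0 => hT0 (l0_inj (l3_unit hw) h0)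
      have e9 : act w T = T := pt_ext hQ hT0 (by rw [e7, e6, mul_zero]) e8
      have e10 : act (w - 1) T = 0 := by rw [l0_sub, l0_one, e9, sub_self]
      have e11 := ei_uniq hw (l3_unit hw) ((hT _).1 e10)
      have e12 := hw.sq
      rw [e11] at e12
      norm_num at e12
    · rw [← hBO]
      linear_combination e6
  refine ⟨T, hT, fun P hP => hg P ?_, e5, ?_⟩
  · exact hP
  · linear_combination 4 * e2 + 4 * e5 + hBO

end H55W
end

-- from Lib.H55W.L3D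
section

/-! # H55W, part L: the Frobenius element, discriminant -3 -/

open NumberField IsDedekindDomain WeierstrassCurve

namespace H55W

open H55P (IQ embF eF LF Per IsHecke Pt ac Inert Dec Nm)
open H35P (WAB Ker tt GoodW IntW)
open H55K
open H13D (RM)

variable {F : Type} [Field F] [NumberField F] [IQ F] {w : 𝓞 F} {A B : F} {Om : ℂ} {Ω : Type} [Field Ω] [DecidableEq Ω]
  [Algebra F Ω] {j : Ω →+* ℂ} {act : 𝓞 F →+* AddMonoid.End (Pt (WAB A B) Ω)} {V : ValuationSubring Ω}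
  {Kg : AddSubgroup (Pt (WAB A B) Ω)} {v : HeightOneSpectrum (𝓞 F)} {s : Ω ≃ₐ[F] Ω} {r : Ω}

theorem l3d_ndvd (hw : EI w) {a b : ℤ} (h : (3 : 𝓞 F) ∣ (a : 𝓞 F) + (b : 𝓞 F) * w) : (9 : ℤ) ∣ a ^ 2 - a * b + b ^ 2 := by
  obtain ⟨z, hz⟩ := h
  have h1 := (ei_nm hw a b).2
  have h3 : Nm (3 : 𝓞 F) = 9 := by
    have := Nm_nat (F := F) 3
    rw [Nat.cast_ofNat] at this
    rw [this]
    norm_num
  rw [hz, Nm_mul, h3] at h1
  rw [← h1]
  push_cast
  exact dvd_mul_right _ _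

theorem l3d_not (hw : EI w) {x : 𝓞 F} {a b : ℤ} (hx : x = (a : 𝓞 F) + (b : 𝓞 F) * w) (h : ¬ (9 : ℤ) ∣ a ^ 2 - a * b + b ^ 2) :
    ¬ (3 : 𝓞 F) ∣ x := by
  intro h1
  rw [hx] at h1
  exact h (l3d_ndvd hw h1)

theorem l3d_three (hw : EI w) : (1 - w) * (1 - w ^ 2) = 3 := by
  have h1 := hw.sq
  linear_combination (w - 2) * h1

/-- Chunk L3D (S/M). s permutes the points killed by 3: act 3 (ac s T) = ac s (act 3 T) = 0 (h.gal): ac s T = act c T. 1 - w does not divide c: otherwise act (1 - w^2) kills ac s T: (1 - w)(1 - w^2) = 3, so act (1 - w^2) (act c T) = 0, ac s (act (1 - w^2) T) = 0, act (1 - w^2) T = 0 (ac_ne), 3 divides 1 - w^2 = (1 - w)(1 + w): contradiction. ei_mod3: unit u with 3 | c - u: act c T = act u T. -/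
theorem three_unit (hw : EI w) (h : CMA F A B Om j act) (s : Ω ≃ₐ[F] Ω) {T : Pt (WAB A B) Ω} (hT : ∀ a : 𝓞 F, act a T = 0 ↔ (3 : 𝓞 F) ∣ a)
    (hg : ∀ P : Pt (WAB A B) Ω, act 3 P = 0 → ∃ a : 𝓞 F, P = act a T) : ∃ u : 𝓞 F, IsUnit u ∧ ac (WAB A B) s T = act u T := by
  have h1 : act 3 (ac (WAB A B) s T) = 0 := by
    rw [← h.gal, (hT 3).2 (dvd_refl _), ac_zero]
  obtain ⟨c, hc⟩ := hg _ h1
  have hc1 : ¬ (1 - w) ∣ c := by
    rintro ⟨c', rfl⟩
    have h2 : act (1 - w ^ 2) (ac (WAB A B) s T) = 0 := by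
      rw [hc, ← l0_mul]
      have h3 : (1 - w ^ 2) * ((1 - w) * c') = 3 * c' := by rw [← l3d_three hw]; ring
      rw [h3]
      exact (hT _).2 (dvd_mul_right _ _)
    rw [← h.gal] at h2
    have h3 : act (1 - w ^ 2) T = 0 := by
      by_contra h4
      exact ac_ne _ s h4 h2
    have h4 : (1 : 𝓞 F) - w ^ 2 = ((2 : ℤ) : 𝓞 F) + ((1 : ℤ) : 𝓞 F) * w := by
      push_cast
      linear_combination (-1 : 𝓞 F) * hw.sq
    exact l3d_not hw h4 (by norm_num) ((hT _).1 h3)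
  obtain ⟨u, hu, h3⟩ := ei_mod3 hw hc1
  refine ⟨u, hu, ?_⟩
  have h4 := (hT _).2 h3
  rw [l0_sub, sub_eq_zero] at h4
  rw [hc, h4]

theorem l3d_coords (hw : EI w) (h : CMA F A B Om j act) (s : Ω ≃ₐ[F] Ω) {T : Pt (WAB A B) Ω} {η : 𝓞 F} {i : ℕ}
    (hη : η = 1 ∨ η = -1) (hu : IsUnit (η * w ^ i)) (hc : ac (WAB A B) s T = act (η * w ^ i) T) :
    s (xc T) = ak Ω (w ^ i) * xc T ∧ s (yc T) = ak Ω η * yc T := by
  obtain ⟨h1, h2⟩ := act_unit h hu T
  rw [← hc, xc_ac] at h1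
  rw [← hc, yc_ac] at h2
  have h3 : ak Ω (η * w ^ i) = ak Ω η * ak Ω (w ^ i) := by
    unfold ak
    rw [← map_mul]
    rfl
  have h4 : ak Ω η ^ 2 = 1 := by
    rcases hη with h5 | h5
    · rw [h5]
      unfold ak
      simp
    · rw [h5]
      unfold ak
      simp
  have h5 : ak Ω (w ^ i) ^ 3 = 1 := by
    rw [l3_ak, ← pow_mul, mul_comm, pow_mul, l3_omcube hw, one_pow]
  rw [h3] at h1 h2
  constructor
  · have e1 : ak Ω (w ^ i) ^ 2 * s (xc T) = xc T := by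
      linear_combination h1 - ak Ω (w ^ i) ^ 2 * s (xc T) * h4
    linear_combination ak Ω (w ^ i) * e1 - s (xc T) * h5
  · have e1 : ak Ω η * s (yc T) = yc T := by
      linear_combination h2 - (ak Ω η ^ 3 * s (yc T)) * h5 - (ak Ω η * s (yc T)) * h4
    linear_combination ak Ω η * e1 - s (yc T) * h4

theorem l3d_pp (hw : EI w) (h3 : (3 : 𝓞 F) ∉ v.asIdeal) : PP 3 w v.asIdeal where
  pr := v.isPrime
  ne := v.ne_bot
  nm := by exact_mod_cast h3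
  root := ei_root hw
  two := by norm_num

theorem l3d_pp2 (h2 : (2 : 𝓞 F) ∉ v.asIdeal) : PP 2 (-1 : 𝓞 F) v.asIdeal where
  pr := v.isPrime
  ne := v.ne_bot
  nm := by exact_mod_cast h2
  root := IsPrimitiveRoot.neg_one 0 (by norm_num)
  two := le_rfl

/-- the square root of b' -/
theorem l3d_sqrt (hw : EI w) (j : Ω →+* ℂ) {b' : ℤ} {y : Ω} (hy : (2 * y) ^ 2 = -3 * (b' : Ω)) :
    (2 * y / (ak Ω w - ak Ω w ^ 2)) ^ 2 = (b' : Ω) := by
  have h1 : (ak Ω w - ak Ω w ^ 2) ^ 2 = -3 := by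
    linear_combination (ak Ω w ^ 2 - 3 * ak Ω w + 3) * l3_om (Ω := Ω) hw
  have h30 : (3 : Ω) ≠ 0 := by
    have := l3_nat (Ω := Ω) (n := 3) (by norm_num) j
    exact_mod_cast this
  rw [div_pow, h1, hy, neg_mul, neg_div_neg_eq, mul_div_cancel_left₀ _ h30]

theorem l3d_pow4 {V : ValuationSubring Ω} {z : Ω} (hz : z ∈ V) (h4 : V.valuation (z ^ 4 - z) < 1) (g : ℕ) :
    V.valuation (z ^ 4 ^ g - z) < 1 := by
  induction g with
  | zero =>
    rw [pow_zero, pow_one, sub_self, map_zero]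
    exact zero_lt_one
  | succ g ih =>
    have h1 : z ^ 4 ^ (g + 1) - z = (z ^ 4 ^ g - z) * ((z ^ 4 ^ g) ^ 3 + (z ^ 4 ^ g) ^ 2 * z + z ^ 4 ^ g * z ^ 2 + z ^ 3) +
        (z ^ 4 - z) := by
      rw [pow_succ 4 g, pow_mul]
      ring
    rw [h1]
    have h2 : (z ^ 4 ^ g) ^ 3 + (z ^ 4 ^ g) ^ 2 * z + z ^ 4 ^ g * z ^ 2 + z ^ 3 ∈ V :=
      V.add_mem _ _ (V.add_mem _ _ (V.add_mem _ _ (pow_mem (pow_mem hz _) _) (V.mul_mem _ _ (pow_mem (pow_mem hz _) _) hz))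
        (V.mul_mem _ _ (pow_mem hz _) (pow_mem hz _))) (pow_mem hz _)
    have h3 := (V.valuation_le_one_iff _).2 h2
    refine lt_of_le_of_lt (Valuation.map_add _ _ _) (max_lt ?_ h4)
    rw [map_mul]
    exact mul_lt_one_of_lt_of_le ih h3

/-- at 2 -/
theorem l3d_two (hL : LD v V s Kg r) (h2 : (2 : 𝓞 F) ∈ v.asIdeal) (h20 : (2 : Ω) ≠ 0)
    (h3 : 3 ∣ Ideal.absNorm v.asIdeal - 1) {b' : ℤ} (hb : (b' : 𝓞 F) ∉ v.asIdeal) (hb4 : b' % 4 = 1) {X : Ω}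
    (hX : X ^ 2 = (b' : Ω)) (hs : s X = -X) : False := by
  have hV2 : V.valuation (2 : Ω) < 1 := by
    have h4 := hL.lt _ h2
    have e1 : ak Ω (2 : 𝓞 F) = 2 := by
      unfold ak
      rw [show ((2 : 𝓞 F) : F) = 2 from map_ofNat (algebraMap (𝓞 F) F) 2, map_ofNat]
    rwa [e1] at h4
  have hXV : V.valuation X = 1 := by
    refine l0_pow (m := 2) (by norm_num) ?_
    rw [← map_pow, hX]
    have h4 := hL.eq _ hb
    unfold ak at h4
    simpa using h4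
  obtain ⟨k, hk⟩ : ∃ k : ℤ, b' = 1 - 4 * k := ⟨(1 - b') / 4, by omega⟩
  have hint : ∀ n : ℤ, (n : Ω) ∈ V := fun n => intCast_mem V n
  obtain ⟨z, hz⟩ : ∃ z : Ω, 2 * z = 1 + X := ⟨(1 + X) / 2, by rw [mul_div_cancel₀ _ h20]⟩
  have hz2 : z ^ 2 = z - (k : Ω) := by
    have h4 : (4 : Ω) ≠ 0 := by
      have : (4 : Ω) = 2 * 2 := by norm_num
      rw [this]
      exact mul_ne_zero h20 h20
    have h5 : (b' : Ω) = 1 - 4 * (k : Ω) := by rw [hk]; push_cast; ring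
    have h6 : 4 * (z ^ 2 - (z - (k : Ω))) = 0 := by
      have h7 : X = 2 * z - 1 := by linear_combination -hz
      rw [h7, h5] at hX
      linear_combination hX
    exact sub_eq_zero.1 ((mul_eq_zero.1 h6).resolve_left h4)
  have hzV : z ∈ V := by
    rcases V.mem_or_inv_mem z with h4 | h4
    · exact h4
    · by_cases hz0 : z = 0
      · rw [hz0]
        exact V.zero_mem
      · have h5 : z = 1 - (k : Ω) * z⁻¹ := by
          have h6 : z * z⁻¹ = 1 := mul_inv_cancel₀ hz0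
          linear_combination z⁻¹ * hz2 - (z - 1) * h6
        rw [h5]
        exact sub_mem (one_mem _) (mul_mem (hint k) h4)
  obtain ⟨k', hk'⟩ : ∃ k' : ℤ, k ^ 2 - k = 2 * k' := by
    obtain ⟨m, hm⟩ := Int.even_mul_succ_self (k - 1)
    exact ⟨m, by linear_combination hm⟩
  have h4 : V.valuation (z ^ 4 - z) < 1 := by
    have h5 : z ^ 4 - z = 2 * ((k' : Ω) - (k : Ω) * z) := by
      have h6 : (k : Ω) ^ 2 - (k : Ω) = 2 * (k' : Ω) := by exact_mod_cast congrArg (Int.cast (R := Ω)) hk'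
      linear_combination (z ^ 2 + z - (k : Ω) + 1) * hz2 + h6
    rw [h5, map_mul]
    exact mul_lt_one_of_lt_of_le hV2 ((V.valuation_le_one_iff _).2 (sub_mem (hint _) (mul_mem (hint _) hzV)))
  obtain ⟨p, f, hp, hpv, hf0, hN⟩ := H13D.below_v v
  have hp2 : p = 2 := by
    by_contra hne
    have h5 : Nat.Coprime p 2 := (Nat.coprime_primes hp Nat.prime_two).2 hne
    have h6 := Nat.isCoprime_iff_coprime.2 h5
    obtain ⟨a, b, hab⟩ := h6
    apply v.isPrime.ne_top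
    rw [Ideal.eq_top_iff_one]
    have h7 : (1 : 𝓞 F) = (a : 𝓞 F) * (p : 𝓞 F) + (b : 𝓞 F) * 2 := by
      have := congrArg (Int.cast (R := 𝓞 F)) hab
      push_cast at this
      exact this.symm
    rw [h7]
    exact v.asIdeal.add_mem (v.asIdeal.mul_mem_left _ hpv) (v.asIdeal.mul_mem_left _ h2)
  obtain ⟨g, hg⟩ : ∃ g, f = 2 * g := by
    rcases Nat.even_or_odd f with h5 | h5
    · obtain ⟨g, hg⟩ := h5
      exact ⟨g, by omega⟩
    · exfalso
      obtain ⟨g, hg⟩ := h5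
      rw [hN, hp2, hg, pow_succ, pow_mul] at h3
      have h6 : (2 ^ 2) ^ g % 3 = 1 := by
        rw [Nat.pow_mod]
        norm_num
      have h7 : 1 ≤ (2 ^ 2) ^ g := Nat.one_le_pow _ _ (by norm_num)
      omega
  have hN4 : Ideal.absNorm v.asIdeal = 4 ^ g := by
    rw [hN, hp2, hg, pow_mul]
    norm_num
  have h5 := hL.frob z hzV
  rw [hN4] at h5
  have h6 := l3d_pow4 hzV h4 g
  have h7 : s z = z - X := by
    have h8 : 2 * s z = 1 + s X := by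
      have h9 := congrArg s hz
      rw [map_mul, map_add, map_one, map_ofNat] at h9
      exact h9
    rw [hs] at h8
    have h9 : 2 * (s z - (z - X)) = 0 := by linear_combination h8 - hz
    exact sub_eq_zero.1 ((mul_eq_zero.1 h9).resolve_left h20)
  have h8 : -X = (s z - z ^ 4 ^ g) + (z ^ 4 ^ g - z) := by
    rw [h7]
    ring
  have h9 : V.valuation (-X) < 1 := by
    rw [h8]
    exact lt_of_le_of_lt (Valuation.map_add _ _ _) (max_lt h5 h6)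
  rw [Valuation.map_neg, hXV] at h9
  exact lt_irrefl _ h9

theorem l3d_gen (hw : EI w) (h3 : (3 : 𝓞 F) ∉ v.asIdeal) {u : 𝓞 F} (hu : IsUnit u) :
    ∃ β : 𝓞 F, Ideal.span {β} = v.asIdeal ∧ (3 : 𝓞 F) ∣ u - β := by
  obtain ⟨β₀, hβ₀⟩ : ∃ β₀ : 𝓞 F, Ideal.span {β₀} = v.asIdeal :=
    ⟨Submodule.IsPrincipal.generator v.asIdeal, Ideal.span_singleton_generator v.asIdeal⟩
  have hβv : β₀ ∈ v.asIdeal := by
    rw [← hβ₀]
    exact Ideal.mem_span_singleton_self β₀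
  have hβne : β₀ ≠ 0 := by
    rintro rfl
    rw [Ideal.span_singleton_eq_bot.2 rfl] at hβ₀
    exact v.ne_bot hβ₀.symm
  have hnd : ¬ (1 - w) ∣ β₀ := by
    rintro ⟨z, hz⟩
    rw [hz] at hβv
    rcases v.isPrime.mem_or_mem hβv with h4 | h4
    · apply h3
      rw [← l3d_three hw]
      exact v.asIdeal.mul_mem_right _ h4
    · rw [← hβ₀, Ideal.mem_span_singleton] at h4
      obtain ⟨y, hy⟩ := h4
      have h5 : (1 - w) * y = 1 := by
        have h6 : β₀ * ((1 - w) * y - 1) = 0 := by linear_combination -(1 - w) * hy - hz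
        exact sub_eq_zero.1 ((mul_eq_zero.1 h6).resolve_left hβne)
      have h6 := congrArg Nm h5
      rw [Nm_mul] at h6
      have h7 := (ei_nm hw 1 (-1)).2
      have h8 : ((1 : ℤ) : 𝓞 F) + ((-1 : ℤ) : 𝓞 F) * w = 1 - w := by push_cast; ring
      rw [h8] at h7
      have h9 : Nm (1 - w) = 3 := by
        have : ((Nm (1 - w) : ℕ) : ℤ) = 3 := by rw [h7]; norm_num
        exact_mod_cast this
      have h10 : Nm (1 : 𝓞 F) = 1 := by
        have := Nm_nat (F := F) 1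
        rw [Nat.cast_one] at this
        rw [this]
        norm_num
      rw [h9, h10] at h6
      omega
  obtain ⟨u₀, hu₀, h4⟩ := ei_mod3 hw hnd
  obtain ⟨y, hy⟩ := hu₀.exists_left_inv
  have hyu : IsUnit y := IsUnit.of_mul_eq_one _ hy
  refine ⟨u * y * β₀, ?_, ?_⟩
  · rw [← hβ₀, Ideal.span_singleton_eq_span_singleton]
    exact (associated_unit_mul_left β₀ _ (hu.mul hyu))
  · have h5 : u - u * y * β₀ = -(u * y) * (β₀ - u₀) := by linear_combination (-u) * hy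
    rw [h5]
    exact Dvd.dvd.mul_left h4 _

/-- Chunk L3D (M). T from tor_three, u from three_unit, u = η w^i (ei_unit). (xc_ac, yc_ac, act_unit): s (xc T) = u^(-2) xc T, s (yc T) = u^(-3) yc T; u^(-2) = w^i =: ζ up to w^3 = 1 (w^(-2i) = w^i), u^(-3) = η. So u = η ζ. ζ: frob_root with m = 3, X = -xc T, X^3 = b' (3 divides N - 1: ps_dvd for P = v.asIdeal, m = 3, ζ = w: 3 is not in v).
η: X = 2 yc T / (w - w^2) (w - w^2 is a square root of -3, in F): X^2 = b', s X = η X, frob_root with m = 2 if 2 is not in v (2 | N - 1: ps_dvd with ζ = -1, or N odd). If 2 is in v and b' % 4 = 1: z = (1 + X)/2, z^2 = z - k, k = (1 - b')/4 an integer, z in V (integral: V(z)^2 ≤ max ..), N = |O/v| = 4 because 2 is inert (2 is a prime element: Nm (a + b w) = a^2 - ab + b^2 is never 2):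
z^4 - z = -2kz + k^2 - k has value < 1 (k^2 - k even), so V(s z - z) < 1, s z - z = (η - 1) X / 2, V(X) = 1: if η = -1 this is -X of value 1: contradiction.
γ: a generator β₀ of v is prime to 1 - w (3 not in v), so by ei_mod3 3 | β₀ - u₀, β = u u₀⁻¹ β₀, 3 | u - β; loc_gen with n0 = 3, c = u, t = 1 - w (3 does not divide 1 - w, w, 2 - w: norms 3, 1, 7 are not divisible by 9). -/
theorem loc_three (hw : EI w) (h : CMA F A B Om j act) {b' : ℤ} (hB : 4 * B = (b' : F)) (hL : LD v V s Kg r)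
    (h3 : (3 : 𝓞 F) ∉ v.asIdeal) (hb : (b' : 𝓞 F) ∉ v.asIdeal) :
    ∃ γ η ζ : 𝓞 F, Ideal.span {γ} = v.asIdeal ∧ (∀ X : Pt (WAB A B) Ω, act γ X - ac (WAB A B) s X ∈ Kg) ∧
      (3 : 𝓞 F) ∣ γ - η * ζ ∧ (η = 1 ∨ η = -1) ∧ (∃ i : ℕ, ζ = w ^ i) ∧
      (b' : 𝓞 F) ^ ((Ideal.absNorm v.asIdeal - 1) / 3) - ζ ∈ v.asIdeal ∧
      ((2 : 𝓞 F) ∉ v.asIdeal → (b' : 𝓞 F) ^ ((Ideal.absNorm v.asIdeal - 1) / 2) - η ∈ v.asIdeal) ∧
      ((2 : 𝓞 F) ∈ v.asIdeal → b' % 4 = 1 → η = 1) := by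
  obtain ⟨T, hT, hg, hx3, hy2⟩ := tor_three hw h hB
  obtain ⟨u, hu, hc⟩ := three_unit hw h s hT hg
  obtain ⟨η, i, hη, rfl⟩ := ei_unit hw hu
  obtain ⟨hsx, hsy⟩ := l3d_coords hw h s hη hu hc
  obtain ⟨β, hβ, h3β⟩ := l3d_gen (v := v) hw h3 hu
  have n1 : ¬ (3 : 𝓞 F) ∣ 1 - w := l3d_not hw (a := 1) (b := -1) (by push_cast; ring) (by norm_num)
  have n2 : ¬ (3 : 𝓞 F) ∣ 1 - (1 - w) := l3d_not hw (a := 0) (b := 1) (by push_cast; ring) (by norm_num)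
  have n3 : ¬ (3 : 𝓞 F) ∣ 1 + (1 - w) := l3d_not hw (a := 2) (b := -1) (by push_cast; ring) (by norm_num)
  obtain ⟨γ, hγ, hγu, hγK⟩ := loc_gen h hL h3 hT hβ hc (Or.inl h3β) n1 n2 n3
  have hd3 := (ps_dvd (l3d_pp hw h3)).1
  have hakb : ak Ω (b' : 𝓞 F) = (b' : Ω) := by
    unfold ak
    simp
  have h20 : (2 : Ω) ≠ 0 := by
    have := l3_nat (Ω := Ω) (n := 2) (by norm_num) j
    exact_mod_cast this
  have hXs : s (2 * yc T / (ak Ω w - ak Ω w ^ 2)) = ak Ω η * (2 * yc T / (ak Ω w - ak Ω w ^ 2)) := by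
    have e1 : s (ak Ω w) = ak Ω w := s.commutes _
    rw [map_div₀, map_mul, map_sub, map_pow, e1, hsy, map_ofNat]
    ring
  refine ⟨γ, η, w ^ i, hγ, hγK, hγu, hη, ⟨i, rfl⟩, ?_, ?_, ?_⟩
  · refine frob_root hL (m := 3) (by norm_num) hd3 hb (X := -xc T) ?_ ?_
    · rw [hakb]
      linear_combination (-1 : Ω) * hx3
    · rw [map_neg, hsx]
      ring
  · intro h2
    refine frob_root hL (m := 2) (by norm_num) (ps_dvd (l3d_pp2 h2)).1 hb
      (X := 2 * yc T / (ak Ω w - ak Ω w ^ 2)) ?_ hXs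
    rw [hakb]
    exact l3d_sqrt hw j hy2
  · intro h2 hb4
    rcases hη with h5 | h5
    · exact h5
    · exfalso
      refine l3d_two hL h2 h20 hd3 hb hb4 (l3d_sqrt hw j hy2) ?_
      rw [hXs, h5]
      unfold ak
      simp

end H55W
end

-- from Lib.H55W.Z0
section

/-! # H55W, part Z: Deuring's theorem from the local and the arithmetic parts -/

open NumberField IsDedekindDomain WeierstrassCurve

namespace H55W

open H55P (IQ embF eF LF Per IsHecke Pt ac Inert Dec Nm)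
open H35P (WAB Ker tt GoodW IntW)
open H55K H55K.TQ
open H55K.TQ (BaseH)
open H13D (RM exists_rm card_gamma)

theorem z0_disc {F : Type} [Field F] [NumberField F] (W : WeierstrassCurve ℤ) : (W⁄(𝓞 F)).Δ = ((W.Δ : ℤ) : 𝓞 F) := by
  have := W.map_Δ (algebraMap ℤ (𝓞 F))
  exact this.trans (by simp)

theorem z0_span {F : Type} [Field F] [NumberField F] (D : ℤ) :
    Ideal.span {((D.natAbs : ℕ) : 𝓞 F) ^ 3} = Ideal.span {((D : ℤ) : 𝓞 F) ^ 3} := by
  rcases Int.natAbs_eq D with h1 | h1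
  · conv_rhs => rw [h1, Int.cast_natCast]
  · conv_rhs => rw [h1, Int.cast_neg, Int.cast_natCast, Odd.neg_pow (by decide)]
    rw [Ideal.span_singleton_neg]

theorem base_gen {F : Type} [Field F] [NumberField F] [IQ F] (W : WeierstrassCurve ℤ) (Om : ℂ)
    (hΔ : W.Δ ≠ 0) (hper : Per F (-(eF F (W⁄(𝓞 F)).c₄) / 48) (-(eF F (W⁄(𝓞 F)).c₆) / 864) Om)
    (hbad : ∀ v : HeightOneSpectrum (𝓞 F), (W⁄(𝓞 F)).Δ ∈ v.asIdeal → ¬ GoodAt ((W⁄(𝓞 F))⁄F) v)
    {f : 𝓞 F → 𝓞 F} (hf : HF (Ideal.span {((W.Δ : ℤ) : 𝓞 F) ^ 3}) f) (hnu : ¬ IsUnit ((W.Δ : ℤ) : 𝓞 F))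
    (hloc : ∀ (Ω : Type) [Field Ω] [DecidableEq Ω] [Algebra F Ω] [IsAlgClosed Ω] (A B : F) (j : Ω →+* ℂ)
      (act : 𝓞 F →+* AddMonoid.End (Pt (WAB A B) Ω)), A = -(algebraMap (𝓞 F) F (W⁄(𝓞 F)).c₄) / 48 →
      B = -(algebraMap (𝓞 F) F (W⁄(𝓞 F)).c₆) / 864 → CMA F A B Om j act →
      ∀ (v : HeightOneSpectrum (𝓞 F)) (V : ValuationSubring Ω) (s : Ω ≃ₐ[F] Ω) (Kg : AddSubgroup (Pt (WAB A B) Ω)) (r : Ω),
        (W⁄(𝓞 F)).Δ ∉ v.asIdeal → LD v V s Kg r →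
        ∃ γ : 𝓞 F, Ideal.span {γ} = v.asIdeal ∧ f γ = 1 ∧ ∀ X : Pt (WAB A B) Ω, act γ X - ac (WAB A B) s X ∈ Kg) :
    ∃ ψ : Ideal (𝓞 F) →*₀ 𝓞 F, BaseH F (W⁄(𝓞 F)) Om (Ideal.span {((W.Δ.natAbs : ℕ) : 𝓞 F) ^ 3}) ψ := by
  classical
  have hΔF := z0_disc (F := F) W
  have hD0 : ((W.Δ : ℤ) : 𝓞 F) ≠ 0 := by exact_mod_cast hΔ
  have hΔ0 : (W⁄(𝓞 F)).Δ ≠ 0 := by rw [hΔF]; exact hD0
  rw [z0_span]
  set M := Ideal.span {((W.Δ : ℤ) : 𝓞 F) ^ 3} with hM
  have hM0 : M ≠ ⊥ := by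
    rw [hM, Ne, Ideal.span_singleton_eq_bot]
    exact pow_ne_zero 3 hD0
  have hM1 : M ≠ ⊤ := by
    rw [hM, Ne, Ideal.span_singleton_eq_top]
    exact fun h => hnu (isUnit_of_dvd_unit (dvd_pow_self _ three_ne_zero) h)
  obtain ⟨ψ, hψ, hval⟩ := exists_hecke M hM0 hM1 f hf.un hf.mul hf.inv hf.per
  have hsupp : ∀ v : HeightOneSpectrum (𝓞 F), (W⁄(𝓞 F)).Δ ∈ v.asIdeal ↔ M ≤ v.asIdeal := by
    intro v
    rw [hΔF, hM, Ideal.span_singleton_le_iff_mem]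
    exact ⟨fun h1 => Ideal.pow_mem_of_mem _ h1 3 (by norm_num), fun h1 => v.isPrime.mem_of_pow_mem 3 h1⟩
  -- the analytic data
  obtain ⟨A, hA⟩ : ∃ A : F, A = -(algebraMap (𝓞 F) F (W⁄(𝓞 F)).c₄) / 48 := ⟨_, rfl⟩
  obtain ⟨B, hB⟩ : ∃ B : F, B = -(algebraMap (𝓞 F) F (W⁄(𝓞 F)).c₆) / 864 := ⟨_, rfl⟩
  have hdisc := y3_ne (W⁄(𝓞 F)) hA hB hΔ0
  have hper' : Per F (embF F A) (embF F B) Om := by
    have e1 : embF F A = -(eF F (W⁄(𝓞 F)).c₄) / 48 := by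
      rw [hA, map_div₀, map_neg, map_ofNat]
      rfl
    have e2 : embF F B = -(eF F (W⁄(𝓞 F)).c₆) / 864 := by
      rw [hB, map_div₀, map_neg, map_ofNat]
      rfl
    rw [e1, e2]
    exact hper
  set Ω := AlgebraicClosure F with hΩ
  obtain ⟨j, hj⟩ := exists_j F Ω
  obtain ⟨act, h⟩ := exists_CMA F A B Om j hdisc hper' hj
  refine ⟨ψ, ⟨⟨hΔ0, hper, hψ⟩, ?_, hsupp, hbad⟩⟩
  intro v hv
  obtain ⟨V, hV⟩ := exists_abw Ω v
  have hVv : ∀ a : 𝓞 F, a ∈ v.asIdeal → V.valuation (ak Ω a) < 1 := by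
    intro a ha
    rw [hV.lt]
    exact (v.valuation_lt_one_iff_mem _).2 ha
  obtain ⟨s, hDec, hs⟩ := H13S.exists_frob v V hVv
  obtain ⟨Kg, Θ, -, -, -, hRM, hcard⟩ := exists_rm (W⁄(𝓞 F)) hA hB v hv hVv
  have hL : LD v V s Kg (algebraMap F Ω (algebraMap (𝓞 F) F (W⁄(𝓞 F)).b₂ / 12)) :=
    ⟨hRM, s.commutes _, hVv, fun a ha => rf_one hV ha, hDec, hs⟩
  obtain ⟨γ, hγ, hfγ, hX⟩ := hloc Ω A B j act hA hB h v V s Kg _ hv hL
  have hcop : IsCoprime (Ideal.span {γ}) M := by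
    rw [hγ, Ideal.isCoprime_iff_sup_eq]
    by_contra hne
    have h1 := v.isMaximal.eq_of_le hne le_sup_left
    exact hv ((hsupp v).2 (by rw [h1]; exact le_sup_right))
  have e4 : ψ v.asIdeal = γ := by
    rw [← hγ, hval γ hcop, hfγ, one_mul]
  have hγv : γ ∈ v.asIdeal := by
    rw [← hγ]
    exact Ideal.mem_span_singleton_self γ
  rw [e4, hcard s hDec hs]
  exact card_gamma h hRM s (hVv γ hγv) hX

end H55W
end

-- from Lib.H55W.Z1
section

/-! # H55W, part Z: preparations for the assembly -/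

open NumberField IsDedekindDomain WeierstrassCurve

namespace H55W

open H55P (IQ embF eF LF Per IsHecke Pt ac Inert Dec Nm)
open H35P (WAB Ker tt GoodW IntW)
open H55K H55K.TQ
open H55K.TQ (BaseH)

theorem z1_c4 {F : Type} [Field F] [NumberField F] (W : WeierstrassCurve ℤ) :
    algebraMap (𝓞 F) F (W⁄(𝓞 F)).c₄ = ((W.c₄ : ℤ) : F) := by
  have := W.map_c₄ (algebraMap ℤ (𝓞 F))
  have e : (W⁄(𝓞 F)).c₄ = ((W.c₄ : ℤ) : 𝓞 F) := this.trans (by simp)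
  rw [e, map_intCast]

theorem z1_c6 {F : Type} [Field F] [NumberField F] (W : WeierstrassCurve ℤ) :
    algebraMap (𝓞 F) F (W⁄(𝓞 F)).c₆ = ((W.c₆ : ℤ) : F) := by
  have := W.map_c₆ (algebraMap ℤ (𝓞 F))
  have e : (W⁄(𝓞 F)).c₆ = ((W.c₆ : ℤ) : 𝓞 F) := this.trans (by simp)
  rw [e, map_intCast]

theorem z1_cma {F : Type} [Field F] [NumberField F] [IQ F] (W : WeierstrassCurve ℤ) (Om : ℂ)
    (hΔ : W.Δ ≠ 0) (hper : Per F (-(eF F (W⁄(𝓞 F)).c₄) / 48) (-(eF F (W⁄(𝓞 F)).c₆) / 864) Om) {A B : F}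
    (hA : A = -(algebraMap (𝓞 F) F (W⁄(𝓞 F)).c₄) / 48) (hB : B = -(algebraMap (𝓞 F) F (W⁄(𝓞 F)).c₆) / 864)
    [DecidableEq (AlgebraicClosure F)] : ∃ (j : AlgebraicClosure F →+* ℂ)
      (act : 𝓞 F →+* AddMonoid.End (Pt (WAB A B) (AlgebraicClosure F))), CMA F A B Om j act := by
  have hΔF := z0_disc (F := F) W
  have hD0 : ((W.Δ : ℤ) : 𝓞 F) ≠ 0 := by exact_mod_cast hΔ
  have hΔ0 : (W⁄(𝓞 F)).Δ ≠ 0 := by rw [hΔF]; exact hD0
  have hdisc := y3_ne (W⁄(𝓞 F)) hA hB hΔ0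
  have hper' : Per F (embF F A) (embF F B) Om := by
    have e1 : embF F A = -(eF F (W⁄(𝓞 F)).c₄) / 48 := by
      rw [hA, map_div₀, map_neg, map_ofNat]
      rfl
    have e2 : embF F B = -(eF F (W⁄(𝓞 F)).c₆) / 864 := by
      rw [hB, map_div₀, map_neg, map_ofNat]
      rfl
    rw [e1, e2]
    exact hper
  obtain ⟨j, hj⟩ := exists_j F (AlgebraicClosure F)
  obtain ⟨act, h⟩ := exists_CMA F A B Om j hdisc hper' hj
  exact ⟨j, act, h⟩

/-- a prime generator -/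
theorem z1_prime {F : Type} [Field F] [NumberField F] {v : HeightOneSpectrum (𝓞 F)} {γ : 𝓞 F} (h : Ideal.span {γ} = v.asIdeal) :
    Prime γ ∧ (∀ a : 𝓞 F, γ ∣ a ↔ a ∈ v.asIdeal) ∧ Nm γ = Ideal.absNorm v.asIdeal := by
  have h0 : γ ≠ 0 := by
    rintro rfl
    apply v.ne_bot
    rw [← h]
    exact Ideal.span_singleton_eq_bot.2 rfl
  refine ⟨(Ideal.span_singleton_prime h0).1 (h ▸ v.isPrime), fun a => ?_, ?_⟩
  · rw [← h, Ideal.mem_span_singleton]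
  · unfold Nm
    rw [h]

end H55W
end

-- from Lib.H55W.B3
section

/-! # H55W, part Z: Deuring's theorem, discriminant -3 -/

open NumberField IsDedekindDomain WeierstrassCurve

namespace H55W

open H55P (IQ embF eF LF Per IsHecke Pt ac Inert Dec Nm)
open H35P (WAB Ker tt GoodW IntW)
open H55K H55K.TQ
open H55K.TQ (BaseH)

theorem base_3 {F : Type} [Field F] [NumberField F] [IQ F] {w : 𝓞 F} (hw : EI w)
    (hcub : ∀ n : ℤ, n ≠ 0 → ∃ κ : 𝓞 F → 𝓞 F, PRC (𝓞 F) 3 n (3 * n) (27 * n) κ) (W : WeierstrassCurve ℤ) (Om : ℂ)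
    (hΔ : W.Δ ≠ 0) (hper : Per F (-(eF F (W⁄(𝓞 F)).c₄) / 48) (-(eF F (W⁄(𝓞 F)).c₆) / 864) Om)
    (hbad : ∀ v : HeightOneSpectrum (𝓞 F), (W⁄(𝓞 F)).Δ ∈ v.asIdeal → ¬ GoodAt ((W⁄(𝓞 F))⁄F) v) :
    ∃ ψ : Ideal (𝓞 F) →*₀ 𝓞 F, BaseH F (W⁄(𝓞 F)) Om (Ideal.span {((W.Δ.natAbs : ℕ) : 𝓞 F) ^ 3}) ψ := by
  classical
  have hc4 : W.c₄ = 0 := by
    obtain ⟨j, act, h⟩ := z1_cma W Om hΔ hper rfl rfl
    have h1 := a_zero hw h
    rw [z1_c4, div_eq_zero_iff, neg_eq_zero] at h1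
    rcases h1 with h1 | h1
    · exact_mod_cast h1
    · norm_num at h1
  obtain ⟨b', h6, hD, h4⟩ := arith_three W hc4
  have hb : b' ≠ 0 := by
    rintro rfl
    exact hΔ (by rw [hD]; ring)
  obtain ⟨κ₃, hκ⟩ := hcub b' hb
  obtain ⟨f, hf, hlast⟩ := exists_f3 hw hb h4 hκ hD
  have hΔF := z0_disc (F := F) W
  have hd3 : (3 : 𝓞 F) ∣ ((W.Δ : ℤ) : 𝓞 F) := ⟨((-9 * b' ^ 2 : ℤ) : 𝓞 F), by rw [hD]; push_cast; ring⟩
  have hdb : (b' : 𝓞 F) ∣ ((W.Δ : ℤ) : 𝓞 F) := ⟨((-27 * b' : ℤ) : 𝓞 F), by rw [hD]; push_cast; ring⟩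
  refine base_gen W Om hΔ hper hbad hf ?_ ?_
  · intro hu
    have h3 : IsUnit (3 : 𝓞 F) := isUnit_of_dvd_unit hd3 hu
    have h9 : Nm (3 : 𝓞 F) = 1 := nm_unit h3
    have h9' : Nm (3 : 𝓞 F) = 3 ^ 2 := by
      have := Nm_nat (F := F) 3
      exact_mod_cast this
    rw [h9'] at h9
    norm_num at h9
  · intro Ω _ _ _ _ A B j act hA hB h v V s Kg r hv hL
    have hB' : 4 * B = (b' : F) := by
      rw [hB, z1_c6, h6]
      push_cast
      ring
    rw [hΔF] at hv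
    have h3 : (3 : 𝓞 F) ∉ v.asIdeal := fun hh => hv (v.asIdeal.mem_of_dvd hd3 hh)
    have hbv : (b' : 𝓞 F) ∉ v.asIdeal := fun hh => hv (v.asIdeal.mem_of_dvd hdb hh)
    obtain ⟨γ, η, ζ, hγ, hX, g1, g2, g3, g4, g5, g6⟩ := loc_three hw h hB' hL h3 hbv
    obtain ⟨p1, p2, p3⟩ := z1_prime hγ
    refine ⟨γ, hγ, hlast γ η ζ p1 (by rw [p2]; exact hv) g1 g2 g3 ?_ ?_ ?_, hX⟩
    · rw [p2, p3]; exact g4
    · intro hh
      rw [p2] at hh ⊢
      rw [p3]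
      exact g5 hh
    · intro hh
      rw [p2] at hh
      exact g6 hh

end H55W
end
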