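import Mathlib
import Pool.Agent.Lib.H1M.PP2.D_H55K_FD
import Pool.Agent.Lib.H1M.PP2.D_H55K_RD
import Pool.Agent.Lib.H1M.PP2.M004
import Pool.Agent.Lib.H1M.PP2.M020
import Pool.Agent.Lib.H1M.PP2.M051
import Pool.Agent.Lib.H1M.PP2.M052
import Pool.Agent.Lib.H1M.PP2.M058
import Pool.Agent.Lib.H1M.PP2.M074
import Pool.Agent.Lib.H1M.PP2.M080
import Pool.Agent.Lib.H1M.PP2.M083
import Pool.Agent.Lib.H1M.PP2.M086
import Pool.Agent.Lib.H1M.PP2.M092
import Pool.Agent.Lib.H1M.PP2.M093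
import Pool.Agent.Lib.H1M.PP2.M094
import Pool.Agent.Lib.H1M.PP2.M097
import Pool.Agent.Lib.H1M.PP2.M098
import Pool.Agent.Lib.H1M.PP2.M101

/-! Merged copies (to shorten the build) of Lib.H13S.GIT, Lib.H55K.SS0, Lib.H13Z.LG, Lib.H13S.PA2, Lib.H55K.SPA2, Lib.H13X.XG, Lib.H13X.XK, Lib.H28T.DT, Lib.H55K.RB1, Lib.H55K.RH, Lib.H55K.RI2, Lib.H55K.FB3C, Lib.H55K.FB4, Lib.H55P.Gen, Lib.H55K.QP2C, Lib.H55K.QS2, Lib.H55K.FB6A, Lib.H55K.FB6B, Lib.H55Z.P1, Lib.H55Z.P3. -/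

-- from Lib.H13S.GIT
section

open NumberField IsDedekindDomain

namespace H13S

open H55P H28G H55B

section git

variable {k : Type} [Field k] [DecidableEq k] [Algebra F k]
  {Γ : Type} [LinearOrderedCommGroupWithZero Γ] (v : Valuation k Γ)


end git

variable {Ω : Type} [Field Ω] [DecidableEq Ω] [Algebra F Ω]

theorem git_dec (V : ValuationSubring Ω) (s : Ω ≃ₐ[F] Ω) (h : Inert V s) : Dec V s := by
  intro x
  have hmem : ∀ x ∈ V, s x ∈ V := by
    intro x hx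
    have h1 : s x = x + (s x - x) := by ring
    rw [h1]
    refine V.add_mem _ _ hx ?_
    exact (V.valuation_le_one_iff _).1 (h x hx).le
  refine ⟨fun hsx => ?_, hmem x⟩
  by_contra hx
  have hx0 : x ≠ 0 := by
    rintro rfl
    exact hx V.zero_mem
  have h1 : x⁻¹ ∈ V := (V.mem_or_inv_mem x).resolve_left hx
  have h2 := h x⁻¹ h1
  have h3 : V.valuation x⁻¹ < 1 := by
    rw [map_inv₀]
    have h4 : ¬ V.valuation x ≤ 1 := fun h4 => hx ((V.valuation_le_one_iff _).1 h4)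
    rw [not_le] at h4
    exact inv_lt_one_of_one_lt₀ h4
  have h4 : V.valuation (s x⁻¹) < 1 := by
    have h5 : s x⁻¹ = (s x⁻¹ - x⁻¹) + x⁻¹ := by ring
    rw [h5]
    exact V.valuation.map_add_lt h2 h3
  rw [map_inv₀, map_inv₀] at h4
  have h5 : V.valuation (s x) ≤ 1 := (V.valuation_le_one_iff _).2 hsx
  have h6 : V.valuation (s x) ≠ 0 := by
    rw [Valuation.ne_zero_iff]
    exact (map_ne_zero s).2 hx0
  have h7 : 1 ≤ (V.valuation (s x))⁻¹ := (one_le_inv₀ (zero_lt_iff.2 h6)).2 h5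
  exact absurd h4 (not_lt.2 h7)



end H13S
end

-- from Lib.H55K.SS0
section

/-! # H55K, part S: decomposition of a Selmer class (port of H13S/S0) -/

open NumberField IsDedekindDomain WeierstrassCurve

namespace H55K.S

open H55P (IQ embF eF LF Per IsHecke Pt ac Inert Dec Nm Coc SelZero)
open H35P (WAB Ker tt)
open H13S (Abv)

variable {F : Type} [Field F] [NumberField F] [IQ F] {A B : F} {Om : ℂ} {Ω : Type} [Field Ω] [DecidableEq Ω]
  [Algebra F Ω] {j : Ω →+* ℂ} {act : 𝓞 F →+* AddMonoid.End (Pt (WAB A B) Ω)} {mo : Ideal (𝓞 F)}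
  {ψ : Ideal (𝓞 F) →*₀ 𝓞 F}

/-- Multiples of a cocycle. -/
theorem s0_cl {π : 𝓞 F} {l : ℕ} (dta : Dta A B Om j act mo ψ l) (hπ : Prime π)
    (hd : π ∣ (l : 𝓞 F)) {c : (Ω ≃ₐ[F] Ω) → Pt (WAB A B) Ω} (h1 : Coc (WAB A B) (⊥ : IntermediateField F Ω) c)
    (hloc : ∀ V : ValuationSubring Ω, ∃ P : Pt (WAB A B) Ω, ∀ s : Ω ≃ₐ[F] Ω, Inert V s →
      c s = ac (WAB A B) s P - P)
    (a : 𝓞 F) (hv : ∀ s, act (cj π) (act a (c s)) = 0) : Cl A B Om j act mo ψ π l fun s => act a (c s) := by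
  have hA := dta.cma
  have hbot : ∀ s : Ω ≃ₐ[F] Ω, s ∈ (⊥ : IntermediateField F Ω).fixingSubgroup := by
    intro s
    rw [IntermediateField.fixingSubgroup_bot]
    exact Subgroup.mem_top s
  refine ⟨dta, hπ, hd, ?_, ?_, hv, ?_⟩
  · intro s t
    show act a (c (s * t)) = act a (c s) + ac (WAB A B) s (act a (c t))
    rw [h1.mul s (hbot s) t (hbot t), map_add, ac_act hA]
  · obtain ⟨L, hL1, hL2⟩ := h1.cont
    refine ⟨L, hL1, fun s hs => ?_⟩
    show act a (c s) = 0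
    rw [hL2 s (hbot s) hs, map_zero]
  · intro V
    obtain ⟨P, hP⟩ := hloc V
    refine ⟨act a P, fun s hs => ?_⟩
    show act a (c s) = ac (WAB A B) s (act a P) - act a P
    rw [hP s hs, map_sub, ac_act hA]

/-- The Selmer group over F is zero if all classes with values in the points killed by a prime element above l are coboundaries. -/
theorem selzero_of (l : ℕ) (dta : Dta A B Om j act mo ψ l)
    (H : ∀ (π : 𝓞 F) (c : (Ω ≃ₐ[F] Ω) → Pt (WAB A B) Ω), Cl A B Om j act mo ψ π l c →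
      ∃ X ∈ Tor act (cj π), ∀ s, c s = ac (WAB A B) s X - X) :
    SelZero (WAB A B) l (⊥ : IntermediateField F Ω) := by
  have hA := dta.cma
  intro c hc hlc hloc
  have hbot : ∀ s : Ω ≃ₐ[F] Ω, s ∈ (⊥ : IntermediateField F Ω).fixingSubgroup := by
    intro s
    rw [IntermediateField.fixingSubgroup_bot]
    exact Subgroup.mem_top s
  have hloc' : ∀ V : ValuationSubring Ω, ∃ P : Pt (WAB A B) Ω, ∀ s : Ω ≃ₐ[F] Ω, Inert V s →
      c s = ac (WAB A B) s P - P := by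
    intro V
    obtain ⟨P, hP⟩ := hloc V
    exact ⟨P, fun s hs => hP s (hbot s) hs⟩
  have hlc' : ∀ s, act (l : 𝓞 F) (c s) = 0 := by
    intro s
    rw [act_nat]
    exact hlc s (hbot s)
  have hlX : ∀ X : Pt (WAB A B) Ω, act (l : 𝓞 F) X = 0 → l • X = 0 := fun X hX => by
    rwa [act_nat] at hX
  obtain ⟨π, hπ, hd⟩ := exists_prime_above (F := F) dta.prime
  rcases dichotomy dta.prime dta.unr hπ hd with ⟨h1, -, h3⟩ | ⟨h1, -, -, h4⟩
  · have hT : Tor act (cj π) = Tor act (l : 𝓞 F) := tor_assoc (h1.trans h3.symm)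
    have hv : ∀ s, act (cj π) (act 1 (c s)) = 0 := by
      intro s
      rw [act_one, ← mem_Tor, hT, mem_Tor]
      exact hlc' s
    obtain ⟨X, hX, hX2⟩ := H π _ (s0_cl dta hπ hd hc hloc' 1 hv)
    refine ⟨X, ?_, fun s _ => ?_⟩
    · rw [hT] at hX
      exact hlX X hX
    · have h4 := hX2 s
      change act (1 : 𝓞 F) (c s) = _ at h4
      rw [act_one] at h4
      exact h4
  · have hco : IsCoprime π (cj π) := (hπ.irreducible.coprime_iff_not_dvd).2 h1
    obtain ⟨a, b, hab⟩ := hco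
    have hπ' : Prime (cj π) := cj_prime hπ
    have hd' : cj π ∣ (l : 𝓞 F) := by
      rw [cj_dvd, cj_nat]
      exact hd
    have hC1 := s0_cl dta hπ hd hc hloc' (a * π) (by
      intro s
      rw [← act_mul]
      have e : cj π * (a * π) = a * (l : 𝓞 F) := by
        rw [← h4]
        ring
      rw [e, act_mul, hlc', map_zero])
    have hC2 := s0_cl dta hπ' hd' hc hloc' (b * cj π) (by
      intro s
      rw [← act_mul, cj_cj]
      have e : π * (b * cj π) = b * (l : 𝓞 F) := by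
        rw [← h4]
        ring
      rw [e, act_mul, hlc', map_zero])
    obtain ⟨X, hX, hX2⟩ := H π _ hC1
    obtain ⟨Y, hY, hY2⟩ := H (cj π) _ hC2
    rw [cj_cj] at hY
    refine ⟨X + Y, hlX _ ?_, fun s _ => ?_⟩
    · have e1 : act (l : 𝓞 F) X = 0 := by
        rw [← h4, act_mul, mem_Tor.1 hX, map_zero]
      have e2 : act (l : 𝓞 F) Y = 0 := by
        rw [← h4, mul_comm, act_mul, mem_Tor.1 hY, map_zero]
      rw [map_add, e1, e2, add_zero]
    · have h6 := hX2 s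
      have h5' := hY2 s
      change act (a * π) (c s) = _ at h6
      change act (b * cj π) (c s) = _ at h5'
      have e : c s = act (a * π) (c s) + act (b * cj π) (c s) := by
        rw [← act_add, hab, act_one]
      rw [e, h6, h5', map_add]
      abel

end H55K.S
end

-- from Lib.H13Z.LG
section

open NumberField IsDedekindDomain

namespace H13Z

open H55P H28G H55B H13S

variable {Ω : Type} [Field Ω] [DecidableEq Ω] [Algebra F Ω]

variable {π : O} {V : ValuationSubring Ω}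

/-- Chunk LG (S), closure properties, all direct from the definitions. -/
theorem Hx.add {x y : Ω} (hx : Hx π V x) (hy : Hx π V y) : Hx π V (x + y) := by
  intro s hs
  rw [map_add, hx s hs, hy s hs]

theorem Hx.sub {x y : Ω} (hx : Hx π V x) (hy : Hx π V y) : Hx π V (x - y) := by
  intro s hs
  rw [map_sub, hx s hs, hy s hs]

theorem Hx.mul {x y : Ω} (hx : Hx π V x) (hy : Hx π V y) : Hx π V (x * y) := by
  intro s hs
  rw [map_mul, hx s hs, hy s hs]

theorem Hx.div {x y : Ω} (hx : Hx π V x) (hy : Hx π V y) : Hx π V (x / y) := by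
  intro s hs
  rw [map_div₀, hx s hs, hy s hs]

theorem Hx.inv {x : Ω} (hx : Hx π V x) : Hx π V x⁻¹ := by
  intro s hs
  rw [map_inv₀, hx s hs]

theorem Hx.pow {x : Ω} (hx : Hx π V x) (n : ℕ) : Hx π V (x ^ n) := by
  intro s hs
  rw [map_pow, hx s hs]

theorem Hx.zpow {x : Ω} (hx : Hx π V x) (n : ℤ) : Hx π V (x ^ n) := by
  intro s hs
  rw [map_zpow₀, hx s hs]


theorem Hx.nat (n : ℕ) : Hx π V (n : Ω) := by
  intro s _
  exact map_natCast s n

theorem Hx.one : Hx π V (1 : Ω) := by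
  intro s _
  exact map_one s

/-- tt_mp, ac_eq. -/
theorem Hx.tt {T : P27 Ω} (hT : T ∈ Tor π Ω) : Hx π V (H28G.tt T) := by
  intro s hs
  have h1 : H28G.tt (ac W27 s T) = s (H28G.tt T) := tt_mp s.toAlgHom T
  rw [← h1, hs.2 T hT]

theorem Dec.mul' {s t : Ω ≃ₐ[F] Ω} (hs : Dec V s) (ht : Dec V t) : Dec V (s * t) := by
  intro x
  exact (hs (t x)).trans (ht x)

theorem Dec.inv' {s : Ω ≃ₐ[F] Ω} (hs : Dec V s) : Dec V s⁻¹ := by
  intro x
  have h1 := hs (s⁻¹ x)
  have h2 : s (s⁻¹ x) = x := s.apply_symm_apply x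
  rw [h2] at h1
  exact h1.symm

/-- Elements of the decomposition group preserve the inequalities between values (H13S.dv_le). -/
theorem Dec.lt {s : Ω ≃ₐ[F] Ω} (hs : Dec V s) (a b : Ω) :
    V.valuation (s a) < V.valuation (s b) ↔ V.valuation a < V.valuation b := by
  rw [← not_le, ← not_le, dv_le s hs b a]

theorem Dec.lt_one {s : Ω ≃ₐ[F] Ω} (hs : Dec V s) (a : Ω) : V.valuation (s a) < 1 ↔ V.valuation a < 1 := by
  have h := Dec.lt hs a 1
  rwa [map_one, map_one] at h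

theorem Dec.le_one {s : Ω ≃ₐ[F] Ω} (hs : Dec V s) (a : Ω) : V.valuation (s a) ≤ 1 ↔ V.valuation a ≤ 1 := by
  have h := dv_le s hs a 1
  rwa [map_one, map_one] at h

/-- s has a finite orbit on a: as in H13S.qv_val. -/
theorem Dec.val [Algebra.IsAlgebraic F Ω] {s : Ω ≃ₐ[F] Ω} (hs : Dec V s) (a : Ω) :
    V.valuation (s a) = V.valuation a := by
  obtain ⟨n, hn, hna⟩ := qv_orb s a
  have hstep : ∀ k : ℕ, (s ^ (k + 1)) a = s ((s ^ k) a) := by
    intro k
    rw [pow_succ']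
    rfl
  rcases lt_trichotomy (V.valuation (s a)) (V.valuation a) with h | h | h
  · exfalso
    have h1 : ∀ k : ℕ, V.valuation ((s ^ (k + 1)) a) < V.valuation a := by
      intro k
      induction k with
      | zero =>
        rw [zero_add, pow_one]
        exact h
      | succ k ih =>
        rw [hstep (k + 1)]
        exact lt_trans ((Dec.lt hs _ _).2 ih) h
    have h2 := h1 (n - 1)
    rw [Nat.sub_add_cancel hn, hna] at h2
    exact lt_irrefl _ h2
  · exact h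
  · exfalso
    have h1 : ∀ k : ℕ, V.valuation a < V.valuation ((s ^ (k + 1)) a) := by
      intro k
      induction k with
      | zero =>
        rw [zero_add, pow_one]
        exact h
      | succ k ih =>
        rw [hstep (k + 1)]
        exact lt_trans h ((Dec.lt hs _ _).2 ih)
    have h2 := h1 (n - 1)
    rw [Nat.sub_add_cancel hn, hna] at h2
    exact lt_irrefl _ h2

/-- The inertia group is contained in the decomposition group (H13S.git_dec). -/
theorem Inert.dec {s : Ω ≃ₐ[F] Ω} (hs : Inert V s) : Dec V s := git_dec V s hs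

/-- Conjugation: s σ x = σ (σ⁻¹ s σ) x, and σ⁻¹ s σ is again in DT (the points killed by pi are stable: ac_mem, ac_mul). -/
theorem Hx.dec {x : Ω} (hx : Hx π V x) {σ : Ω ≃ₐ[F] Ω} (hσ : Dec V σ) : Hx π V (σ x) := by
  intro s hs
  have h1 : DT π V (σ⁻¹ * s * σ) := by
    refine ⟨Dec.mul' (Dec.mul' (Dec.inv' hσ) hs.1) hσ, ?_⟩
    intro T hT
    rw [ac_mul, ac_mul, hs.2 _ (ac_mem σ hT), ← ac_mul, inv_mul_cancel, ac_one]
  have h2 := hx _ h1
  have h3 : s (σ x) = σ ((σ⁻¹ * s * σ) x) := by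
    have h4 : (σ⁻¹ * s * σ) x = σ⁻¹ (s (σ x)) := rfl
    rw [h4]
    exact (σ.apply_symm_apply _).symm
  rw [h3, h2]

/-- Conjugates of inertia elements by decomposition elements are inertia elements. -/
theorem Inert.conj {s σ : Ω ≃ₐ[F] Ω} (hs : Inert V s) (hσ : Dec V σ) : Inert V (σ⁻¹ * s * σ) := by
  intro x hx
  have h1 := hs (σ x) ((hσ x).2 hx)
  have h2 := (Dec.lt_one (Dec.inv' hσ) (s (σ x) - σ x)).2 h1
  rw [map_sub] at h2
  have h3 : σ⁻¹ (σ x) = x := σ.symm_apply_apply x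
  rw [h3] at h2
  exact h2

/-- An automorphism acting as act a on Tor β (β prime, primary) and moving a point has no fixed point: act (a - 1) T = 0 and β does not divide a - 1 (Bezout: β and a - 1 are coprime). a from exists_chi (CH.lean) or gi_gen. -/
theorem no_fix [IsAlgClosure F Ω] {β : O} (hβ : Prime β) (h3 : Prim β) {s : Ω ≃ₐ[F] Ω}
    (h : ∃ T ∈ Tor β Ω, ac W27 s T ≠ T) {T : P27 Ω} (hT : T ∈ Tor β Ω) (hs : ac W27 s T = T) : T = 0 := by
  obtain ⟨-, T₀, hT₀, hgen, hker⟩ := gi_gen (Ω := Ω) β hβ h3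
  obtain ⟨a, ha⟩ := hgen _ (ac_mem s hT₀)
  have hall : ∀ X ∈ Tor β Ω, ac W27 s X = H28G.act a X := by
    intro X hX
    obtain ⟨b, rfl⟩ := hgen X hX
    rw [ac_act, ha, ← act_mul, ← act_mul, mul_comm]
  obtain ⟨T₁, hT₁, hne⟩ := h
  have hnd : ¬ β ∣ a - 1 := by
    rintro ⟨c, hc⟩
    apply hne
    rw [hall T₁ hT₁, ← sub_eq_zero]
    have h1 : H28G.act (a - 1) T₁ = 0 := by
      rw [hc, mul_comm, act_mul, mem_Tor.1 hT₁]
      exact map_zero _
    rwa [act_sub, act_one] at h1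
  obtain ⟨u, v, huv⟩ := (hβ.irreducible.coprime_iff_not_dvd).2 hnd
  have h1 : H28G.act (a - 1) T = 0 := by
    rw [act_sub, act_one, ← hall T hT, hs, sub_self]
  have h2 : H28G.act (u * β + v * (a - 1)) T = 0 := by
    rw [act_add, act_mul, act_mul, mem_Tor.1 hT, h1, map_zero, map_zero, add_zero]
  rwa [huv, act_one] at h2

end H13Z
end

-- from Lib.H13S.PA2
section

open NumberField IsDedekindDomain

namespace H13S

open H55P H28G H55B

variable {Ω : Type} [Field Ω] [DecidableEq Ω] [Algebra F Ω] [IsAlgClosure F Ω]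

theorem PA2_prim {x : O} (h : Prim x) : Prim (cj x) := by
  obtain ⟨y, hy⟩ := h
  refine ⟨cj y, ?_⟩
  have h1 := congrArg cj hy
  rw [map_sub, map_one, map_mul, map_ofNat] at h1
  exact h1

theorem PA2_prime {x : O} (h : Prime x) : Prime (cj x) := (MulEquiv.prime_iff cj).2 h

theorem PA2_dvd {x y : O} : cj x ∣ y ↔ x ∣ cj y := by
  constructor
  · rintro ⟨z, rfl⟩
    rw [map_mul, cj_cj]
    exact Dvd.intro _ rfl
  · rintro ⟨z, hz⟩
    refine ⟨cj z, ?_⟩
    rw [← map_mul, ← hz, cj_cj]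

theorem PA2_form0 (l : ℕ) [Fact l.Prime] (V : Type) [AddCommGroup V] [Module (ZMod l) V] (v : V)
    (hv : v ≠ 0) : ∃ ρ : V →+ ZMod l, ρ v ≠ 0 := by
  by_contra hcon
  push Not at hcon
  apply hv
  refine (Module.forall_dual_apply_eq_zero_iff (ZMod l) v).1 ?_
  intro φ
  exact hcon φ.toAddMonoidHom

theorem PA2_form (l : ℕ) (hl : l.Prime) (V : Type) [AddCommGroup V] (hz : ∀ x : V, l • x = 0) (v : V)
    (hv : v ≠ 0) : ∃ ρ : V →+ ZMod l, ρ v ≠ 0 := by
  have := Fact.mk hl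
  exact @PA2_form0 l _ V _ (AddCommGroup.zmodModule hz) v hv

/-- A nonzero additive form on the residue field. -/
theorem PA2_rho (π : O) (l : ℕ) (hl : l.Prime) (hπ : Prime π) (hd : π ∣ (l : O)) :
    ∃ ρ : (O ⧸ Ideal.span {π}) →+ ZMod l, ρ 1 ≠ 0 := by
  have hz : ∀ x : O ⧸ Ideal.span {π}, l • x = 0 := by
    intro x
    rw [nsmul_eq_mul]
    have h1 : ((l : ℕ) : O ⧸ Ideal.span {π}) = Ideal.Quotient.mk _ (l : O) := (map_natCast _ _).symm
    rw [h1, Ideal.Quotient.eq_zero_iff_mem.2 (Ideal.mem_span_singleton.2 hd), zero_mul]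
  have h1 : (1 : O ⧸ Ideal.span {π}) ≠ 0 := by
    intro h
    rw [← map_one (Ideal.Quotient.mk (Ideal.span {π})), Ideal.Quotient.eq_zero_iff_mem,
      Ideal.mem_span_singleton] at h
    exact hπ.not_isUnit (isUnit_of_dvd_one h)
  exact PA2_form l hl _ hz 1 h1

/-- Chunk PA2 (M). The pairing. T₀, T₀' generators of Tor pi, Tor (cj pi) (gi_gen; cj pi is a primary prime too), zeta a primitive
l-th root of unity in Ω. k = O/pi is a field of characteristic l; rho : k -> ZMod l a nonzero additive map (exists: k is a nonzero vector space over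
ZMod l, e.g. a coordinate of a basis; or rho(class of x + y om) explicitly). e X T = zeta^(rho(class of cj a' * b)) if X = act a' T₀', T = act b T₀ (well defined: a' modulo
cj pi, so cj a' modulo pi). Bilinear, values l-th roots of unity. Nondegenerate: if rho(cj a' b) = 0 for all b then cj a' = 0 in the field k. Equivariance: ac s T₀ = act a T₀,
ac s T₀' = act b₁ T₀', s zeta = zeta^c; ac s X = act (a' b₁) T₀', ac s T = act (b a) T₀; cj(a' b₁) b a = cj a' b (cj b₁ a) = c cj a' b modulo pi (char_id), rho is additive: rho(c z) = c rho(z). -/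
theorem exists_pairing (π : O) (l : ℕ) (hl : l.Prime) (h5 : 5 ≤ l) (hπ : Prime π) (h3 : Prim π)
    (hd : π ∣ (l : O)) : ∃ e : P27 Ω → P27 Ω → Ω, Pairing π l e := by
  classical
  have := Fact.mk hl
  have : NeZero l := ⟨hl.ne_zero⟩
  have hΩ : IsAlgClosed Ω := IsAlgClosure.isAlgClosed F
  have hc0 : CharZero Ω := char0
  obtain ⟨ζ, hζ⟩ := HasEnoughRootsOfUnity.exists_primitiveRoot Ω l
  obtain ⟨_, T₀, hT₀, hgen, hz⟩ := gi_gen (Ω := Ω) π hπ h3
  obtain ⟨_, T₀', hT₀', hgen', hz'⟩ := gi_gen (Ω := Ω) (cj π) (PA2_prime hπ) (PA2_prim h3)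
  obtain ⟨ρ, hρ⟩ := PA2_rho π l hl hπ hd
  -- the character
  set Z : ZMod l → Ω := fun z => ζ ^ z.val with hZ
  have Z_nat : ∀ n : ℕ, Z (n : ZMod l) = ζ ^ n := by
    intro n
    show ζ ^ (n : ZMod l).val = ζ ^ n
    rw [ZMod.val_natCast]
    conv_rhs => rw [← Nat.mod_add_div n l, pow_add, pow_mul, hζ.pow_eq_one, one_pow, mul_one]
  have Z_add : ∀ x y : ZMod l, Z (x + y) = Z x * Z y := by
    intro x y
    have h1 : x + y = ((x.val + y.val : ℕ) : ZMod l) := by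
      rw [Nat.cast_add, ZMod.natCast_zmod_val, ZMod.natCast_zmod_val]
    rw [h1, Z_nat, pow_add]
  have Z_root : ∀ x : ZMod l, Z x ^ l = 1 := by
    intro x
    show (ζ ^ x.val) ^ l = 1
    rw [← pow_mul, mul_comm, pow_mul, hζ.pow_eq_one, one_pow]
  have Z_one : ∀ x : ZMod l, Z x = 1 → x = 0 := by
    intro x hx
    have h1 : l ∣ x.val := (hζ.pow_eq_one_iff_dvd _).1 hx
    have h2 : x.val < l := ZMod.val_lt x
    have h4 : x.val = 0 := Nat.eq_zero_of_dvd_of_lt h1 h2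
    exact (ZMod.val_eq_zero x).1 h4
  have Z_cmul : ∀ (c : ℕ) (x : ZMod l), Z ((c : ZMod l) * x) = Z x ^ c := by
    intro c x
    have h1 : (c : ZMod l) * x = ((c * x.val : ℕ) : ZMod l) := by
      rw [Nat.cast_mul, ZMod.natCast_zmod_val]
    rw [h1, Z_nat]
    show _ = (ζ ^ x.val) ^ c
    rw [← pow_mul, mul_comm]
  have hmk : ∀ x y : O, π ∣ x - y → Ideal.Quotient.mk (Ideal.span {π}) x =
      Ideal.Quotient.mk (Ideal.span {π}) y := by
    intro x y h
    rw [Ideal.Quotient.mk_eq_mk_iff_sub_mem, Ideal.mem_span_singleton]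
    exact h
  have hact : ∀ a b : O, act a T₀ = act b T₀ → π ∣ a - b := by
    intro a b h
    rw [← hz, act_sub, h, sub_self]
  have hact' : ∀ a b : O, act a T₀' = act b T₀' → π ∣ cj a - cj b := by
    intro a b h
    rw [← map_sub, ← PA2_dvd, ← hz', act_sub, h, sub_self]
  let e : P27 Ω → P27 Ω → Ω := fun X T =>
    if h : ∃ a b : O, X = act a T₀' ∧ T = act b T₀ then
      Z (ρ (Ideal.Quotient.mk (Ideal.span {π}) (cj h.choose * h.choose_spec.choose))) else 1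
  have he : ∀ a b : O, e (act a T₀') (act b T₀) =
      Z (ρ (Ideal.Quotient.mk (Ideal.span {π}) (cj a * b))) := by
    intro a b
    have h : ∃ a₁ b₁ : O, act a T₀' = act a₁ T₀' ∧ act b T₀ = act b₁ T₀ := ⟨a, b, rfl, rfl⟩
    show (if h : ∃ a₁ b₁ : O, act a T₀' = act a₁ T₀' ∧ act b T₀ = act b₁ T₀ then
      Z (ρ (Ideal.Quotient.mk (Ideal.span {π}) (cj h.choose * h.choose_spec.choose))) else 1) = _
    rw [dif_pos h]
    obtain ⟨h1, h2⟩ := h.choose_spec.choose_spec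
    have h4 := hact' _ _ h1
    have h6 := hact _ _ h2
    rw [map_mul (Ideal.Quotient.mk (Ideal.span {π})), map_mul (Ideal.Quotient.mk (Ideal.span {π})),
      ← hmk _ _ h4, ← hmk _ _ h6]
  have hT1 : T₀ ≠ 0 := by
    intro h
    have h1 := (hz 1).1 (by rw [act_one, h])
    exact hπ.not_isUnit (isUnit_of_dvd_one h1)
  have hT1' : T₀' ≠ 0 := by
    intro h
    have h1 := (hz' 1).1 (by rw [act_one, h])
    exact (PA2_prime hπ).not_isUnit (isUnit_of_dvd_one h1)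
  refine ⟨e, ?_, ?_, ?_, ?_, ?_⟩
  · intro X hX X' hX' T hT
    obtain ⟨a, rfl⟩ := hgen' X hX
    obtain ⟨a', rfl⟩ := hgen' X' hX'
    obtain ⟨b, rfl⟩ := hgen T hT
    rw [← act_add, he, he, he, ← Z_add, ← map_add, ← map_add, map_add cj, add_mul]
  · intro X hX T hT T' hT'
    obtain ⟨a, rfl⟩ := hgen' X hX
    obtain ⟨b, rfl⟩ := hgen T hT
    obtain ⟨b', rfl⟩ := hgen T' hT'
    rw [← act_add, he, he, he, ← Z_add, ← map_add, ← map_add, mul_add]
  · intro X hX T hT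
    obtain ⟨a, rfl⟩ := hgen' X hX
    obtain ⟨b, rfl⟩ := hgen T hT
    rw [he]
    exact Z_root _
  · intro s X hX T hT
    obtain ⟨a', rfl⟩ := hgen' X hX
    obtain ⟨b, rfl⟩ := hgen T hT
    obtain ⟨a, ha⟩ := hgen _ (ac_mem s hT₀)
    obtain ⟨b₁, hb₁⟩ := hgen' _ (ac_mem s hT₀')
    have hs : (s ζ) ^ l = 1 := by rw [← map_pow, hζ.pow_eq_one, map_one]
    obtain ⟨c, _, hc⟩ := hζ.eq_pow_of_pow_eq_one hs
    have h1 := char_id π l hl h5 hπ h3 hd ζ hζ s a b₁ c T₀ T₀' hT₀ hT1 hT₀' hT1' ha hb₁ hc.symm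
    rw [ac_act, ac_act, ha, hb₁, ← act_mul, ← act_mul, he, he]
    have h2 : Ideal.Quotient.mk (Ideal.span {π}) (cj (a' * b₁) * (b * a)) =
        ((c : ℕ) : O ⧸ Ideal.span {π}) * Ideal.Quotient.mk (Ideal.span {π}) (cj a' * b) := by
      have h4 : cj (a' * b₁) * (b * a) = (cj b₁ * a) * (cj a' * b) := by
        rw [map_mul]
        ring
      rw [h4, map_mul, hmk _ _ h1, map_natCast]
    rw [h2, ← nsmul_eq_mul, map_nsmul, nsmul_eq_mul, Z_cmul]
    show s (ζ ^ _) = _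
    rw [map_pow, ← hc, ← pow_mul, mul_comm, pow_mul]
  · intro X hX h
    obtain ⟨a', rfl⟩ := hgen' X hX
    rw [hz', PA2_dvd]
    by_contra hcon
    have hmax : (Ideal.span {π}).IsMaximal :=
      PrincipalIdealRing.isMaximal_of_irreducible hπ.irreducible
    let : Field (O ⧸ Ideal.span {π}) := Ideal.Quotient.field _
    have h1 : Ideal.Quotient.mk (Ideal.span {π}) (cj a') ≠ 0 := by
      rw [Ne, Ideal.Quotient.eq_zero_iff_mem, Ideal.mem_span_singleton]
      exact hcon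
    obtain ⟨b, hb⟩ := Ideal.Quotient.mk_surjective (Ideal.Quotient.mk (Ideal.span {π}) (cj a'))⁻¹
    have h2 := h (act b T₀) (by
      rw [mem_Tor, ← act_mul, mul_comm, act_mul, mem_Tor.1 hT₀, map_zero])
    rw [he] at h2
    have h4 := Z_one _ h2
    rw [map_mul, hb, mul_inv_cancel₀ h1] at h4
    exact hρ h4

end H13S
end

-- from Lib.H55K.SPA2
section

/-! # H55K, part S: port of H13S/PA2 -/

open NumberField IsDedekindDomain WeierstrassCurve

namespace H55K.S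

open H55P (IQ embF eF LF Per IsHecke Pt ac Inert Dec Nm)
open H35P (WAB Ker tt)
open H13S (Abv)




variable {F : Type} [Field F] [NumberField F] [IQ F] {A B : F} {Om : ℂ} {Ω : Type} [Field Ω] [DecidableEq Ω]
  [Algebra F Ω] [IsAlgClosure F Ω] {j : Ω →+* ℂ} {act : 𝓞 F →+* AddMonoid.End (Pt (WAB A B) Ω)} {mo : Ideal (𝓞 F)}
  {ψ : Ideal (𝓞 F) →*₀ 𝓞 F}

/-- A nonzero additive form on the residue field. -/
theorem PA2_rho (π : 𝓞 F) (l : ℕ) (hl : l.Prime) (hπ : Prime π) (hd : π ∣ (l : 𝓞 F)) :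
    ∃ ρ : (𝓞 F ⧸ Ideal.span {π}) →+ ZMod l, ρ 1 ≠ 0 := by
  have hz : ∀ x : 𝓞 F ⧸ Ideal.span {π}, l • x = 0 := by
    intro x
    rw [nsmul_eq_mul]
    have h1 : ((l : ℕ) : 𝓞 F ⧸ Ideal.span {π}) = Ideal.Quotient.mk _ (l : 𝓞 F) := (map_natCast _ _).symm
    rw [h1, Ideal.Quotient.eq_zero_iff_mem.2 (Ideal.mem_span_singleton.2 hd), zero_mul]
  have h1 : (1 : 𝓞 F ⧸ Ideal.span {π}) ≠ 0 := by
    intro h
    rw [← map_one (Ideal.Quotient.mk (Ideal.span {π})), Ideal.Quotient.eq_zero_iff_mem,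
      Ideal.mem_span_singleton] at h
    exact hπ.not_isUnit (isUnit_of_dvd_one h)
  exact H13S.PA2_form l hl _ hz 1 h1

/-- Chunk PA2 (M). The pairing. T₀, T₀' generators of Tor pi, Tor (cj pi) (gi_gen; cj pi is a primary prime too), zeta a primitive
l-th root of unity in Ω. k = 𝓞 F/pi is a field of characteristic l; rho : k -> ZMod l a nonzero additive map (exists: k is a nonzero vector space over
ZMod l, e.g. a coordinate of a basis; or rho(class of x + y om) explicitly). e X T = zeta^(rho(class of cj a' * b)) if X = act a' T₀', T = act b T₀ (well defined: a' modulo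
cj pi, so cj a' modulo pi). Bilinear, values l-th roots of unity. Nondegenerate: if rho(cj a' b) = 0 for all b then cj a' = 0 in the field k. Equivariance: ac s T₀ = act a T₀,
ac s T₀' = act b₁ T₀', s zeta = zeta^c; ac s X = act (a' b₁) T₀', ac s T = act (b a) T₀; cj(a' b₁) b a = cj a' b (cj b₁ a) = c cj a' b modulo pi (char_id), rho is additive: rho(c z) = c rho(z). -/
theorem exists_pairing (π : 𝓞 F) (l : ℕ) (dta : Dta A B Om j act mo ψ l) (hπ : Prime π)
    (hd : π ∣ (l : 𝓞 F)) : ∃ e : Pt (WAB A B) Ω → Pt (WAB A B) Ω → Ω, Pairing A B act π l e := by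
  classical
  have hA := dta.cma
  have hl := dta.prime
  have := Fact.mk hl
  have : NeZero l := ⟨hl.ne_zero⟩
  have hΩ : IsAlgClosed Ω := IsAlgClosure.isAlgClosed F
  have hc0 : CharZero Ω := charZero_of_injective_algebraMap (algebraMap F Ω).injective
  obtain ⟨ζ, hζ⟩ := HasEnoughRootsOfUnity.exists_primitiveRoot Ω l
  obtain ⟨_, T₀, hT₀, hgen, hz⟩ := gi_gen hA π hπ
  obtain ⟨_, T₀', hT₀', hgen', hz'⟩ := gi_gen hA (cj π) (cj_prime hπ)
  obtain ⟨ρ, hρ⟩ := PA2_rho π l hl hπ hd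
  -- the character
  set Z : ZMod l → Ω := fun z => ζ ^ z.val with hZ
  have Z_nat : ∀ n : ℕ, Z (n : ZMod l) = ζ ^ n := by
    intro n
    show ζ ^ (n : ZMod l).val = ζ ^ n
    rw [ZMod.val_natCast]
    conv_rhs => rw [← Nat.mod_add_div n l, pow_add, pow_mul, hζ.pow_eq_one, one_pow, mul_one]
  have Z_add : ∀ x y : ZMod l, Z (x + y) = Z x * Z y := by
    intro x y
    have h1 : x + y = ((x.val + y.val : ℕ) : ZMod l) := by
      rw [Nat.cast_add, ZMod.natCast_zmod_val, ZMod.natCast_zmod_val]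
    rw [h1, Z_nat, pow_add]
  have Z_root : ∀ x : ZMod l, Z x ^ l = 1 := by
    intro x
    show (ζ ^ x.val) ^ l = 1
    rw [← pow_mul, mul_comm, pow_mul, hζ.pow_eq_one, one_pow]
  have Z_one : ∀ x : ZMod l, Z x = 1 → x = 0 := by
    intro x hx
    have h1 : l ∣ x.val := (hζ.pow_eq_one_iff_dvd _).1 hx
    have h2 : x.val < l := ZMod.val_lt x
    have h4 : x.val = 0 := Nat.eq_zero_of_dvd_of_lt h1 h2
    exact (ZMod.val_eq_zero x).1 h4
  have Z_cmul : ∀ (c : ℕ) (x : ZMod l), Z ((c : ZMod l) * x) = Z x ^ c := by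
    intro c x
    have h1 : (c : ZMod l) * x = ((c * x.val : ℕ) : ZMod l) := by
      rw [Nat.cast_mul, ZMod.natCast_zmod_val]
    rw [h1, Z_nat]
    show _ = (ζ ^ x.val) ^ c
    rw [← pow_mul, mul_comm]
  have hmk : ∀ x y : 𝓞 F, π ∣ x - y → Ideal.Quotient.mk (Ideal.span {π}) x =
      Ideal.Quotient.mk (Ideal.span {π}) y := by
    intro x y h
    rw [Ideal.Quotient.mk_eq_mk_iff_sub_mem, Ideal.mem_span_singleton]
    exact h
  have hact : ∀ a b : 𝓞 F, act a T₀ = act b T₀ → π ∣ a - b := by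
    intro a b h
    rw [← hz, act_sub, h, sub_self]
  have hact' : ∀ a b : 𝓞 F, act a T₀' = act b T₀' → π ∣ cj a - cj b := by
    intro a b h
    rw [← map_sub, ← cj_dvd, ← hz', act_sub, h, sub_self]
  let e : Pt (WAB A B) Ω → Pt (WAB A B) Ω → Ω := fun X T =>
    if h : ∃ a b : 𝓞 F, X = act a T₀' ∧ T = act b T₀ then
      Z (ρ (Ideal.Quotient.mk (Ideal.span {π}) (cj h.choose * h.choose_spec.choose))) else 1
  have he : ∀ a b : 𝓞 F, e (act a T₀') (act b T₀) =
      Z (ρ (Ideal.Quotient.mk (Ideal.span {π}) (cj a * b))) := by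
    intro a b
    have h : ∃ a₁ b₁ : 𝓞 F, act a T₀' = act a₁ T₀' ∧ act b T₀ = act b₁ T₀ := ⟨a, b, rfl, rfl⟩
    show (if h : ∃ a₁ b₁ : 𝓞 F, act a T₀' = act a₁ T₀' ∧ act b T₀ = act b₁ T₀ then
      Z (ρ (Ideal.Quotient.mk (Ideal.span {π}) (cj h.choose * h.choose_spec.choose))) else 1) = _
    rw [dif_pos h]
    obtain ⟨h1, h2⟩ := h.choose_spec.choose_spec
    have h4 := hact' _ _ h1
    have h6 := hact _ _ h2
    rw [map_mul (Ideal.Quotient.mk (Ideal.span {π})), map_mul (Ideal.Quotient.mk (Ideal.span {π})),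
      ← hmk _ _ h4, ← hmk _ _ h6]
  have hT1 : T₀ ≠ 0 := by
    intro h
    have h1 := (hz 1).1 (by rw [act_one, h])
    exact hπ.not_isUnit (isUnit_of_dvd_one h1)
  have hT1' : T₀' ≠ 0 := by
    intro h
    have h1 := (hz' 1).1 (by rw [act_one, h])
    exact (cj_prime hπ).not_isUnit (isUnit_of_dvd_one h1)
  refine ⟨e, ?_, ?_, ?_, ?_, ?_⟩
  · intro X hX X' hX' T hT
    obtain ⟨a, rfl⟩ := hgen' X hX
    obtain ⟨a', rfl⟩ := hgen' X' hX'
    obtain ⟨b, rfl⟩ := hgen T hT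
    rw [← act_add, he, he, he, ← Z_add, ← map_add, ← map_add, map_add cj, add_mul]
  · intro X hX T hT T' hT'
    obtain ⟨a, rfl⟩ := hgen' X hX
    obtain ⟨b, rfl⟩ := hgen T hT
    obtain ⟨b', rfl⟩ := hgen T' hT'
    rw [← act_add, he, he, he, ← Z_add, ← map_add, ← map_add, mul_add]
  · intro X hX T hT
    obtain ⟨a, rfl⟩ := hgen' X hX
    obtain ⟨b, rfl⟩ := hgen T hT
    rw [he]
    exact Z_root _
  · intro s X hX T hT
    obtain ⟨a', rfl⟩ := hgen' X hX
    obtain ⟨b, rfl⟩ := hgen T hT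
    obtain ⟨a, ha⟩ := hgen _ (ac_mem hA s hT₀)
    obtain ⟨b₁, hb₁⟩ := hgen' _ (ac_mem hA s hT₀')
    have hs : (s ζ) ^ l = 1 := by rw [← map_pow, hζ.pow_eq_one, map_one]
    obtain ⟨c, _, hc⟩ := hζ.eq_pow_of_pow_eq_one hs
    have h1 := char_id π l dta hπ hd ζ hζ s a b₁ c T₀ T₀' hT₀ hT1 hT₀' hT1' ha hb₁ hc.symm
    rw [ac_act hA, ac_act hA, ha, hb₁, ← act_mul, ← act_mul, he, he]
    have h2 : Ideal.Quotient.mk (Ideal.span {π}) (cj (a' * b₁) * (b * a)) =
        ((c : ℕ) : 𝓞 F ⧸ Ideal.span {π}) * Ideal.Quotient.mk (Ideal.span {π}) (cj a' * b) := by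
      have h4 : cj (a' * b₁) * (b * a) = (cj b₁ * a) * (cj a' * b) := by
        rw [map_mul]
        ring
      rw [h4, map_mul, hmk _ _ h1, map_natCast]
    rw [h2, ← nsmul_eq_mul, map_nsmul, nsmul_eq_mul, Z_cmul]
    show s (ζ ^ _) = _
    rw [map_pow, ← hc, ← pow_mul, mul_comm, pow_mul]
  · intro X hX h
    obtain ⟨a', rfl⟩ := hgen' X hX
    rw [hz', cj_dvd]
    by_contra hcon
    have hmax : (Ideal.span {π}).IsMaximal :=
      PrincipalIdealRing.isMaximal_of_irreducible hπ.irreducible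
    let : Field (𝓞 F ⧸ Ideal.span {π}) := Ideal.Quotient.field _
    have h1 : Ideal.Quotient.mk (Ideal.span {π}) (cj a') ≠ 0 := by
      rw [Ne, Ideal.Quotient.eq_zero_iff_mem, Ideal.mem_span_singleton]
      exact hcon
    obtain ⟨b, hb⟩ := Ideal.Quotient.mk_surjective (Ideal.Quotient.mk (Ideal.span {π}) (cj a'))⁻¹
    have h2 := h (act b T₀) (by
      rw [mem_Tor, ← act_mul, mul_comm, act_mul, mem_Tor.1 hT₀, map_zero])
    rw [he] at h2
    have h4 := Z_one _ h2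
    rw [map_mul, hb, mul_inv_cancel₀ h1] at h4
    exact hρ h4

end H55K.S
end

-- from Lib.H13X.XG
section

/-! # H13X: decomposition groups and fixed elements (port of H13Z.LG, H13Y.YG) -/

open NumberField IsDedekindDomain WeierstrassCurve

namespace H13X

open H55P (IQ embF eF LF Per IsHecke Pt ac Inert Dec Nm Coc)
open H35P (WAB Ker tt)
open H55K (Tor ak xc yc CMA Dta GV GMod cj cj_cj mul_cj cj_prime cj_dvd cj_nat Nm_cj Nm_mul Nm_nat)
open H55K.S
open H13S (Abv)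

section gal

variable {F : Type} [Field F] {Ω : Type} [Field Ω] [Algebra F Ω] {V : ValuationSubring Ω}

theorem gi_dec (V : ValuationSubring Ω) (s : Ω ≃ₐ[F] Ω) (h : Inert V s) : Dec V s := by
  intro x
  have hmem : ∀ x ∈ V, s x ∈ V := by
    intro x hx
    have h1 : s x = x + (s x - x) := by ring
    rw [h1]
    refine V.add_mem _ _ hx ?_
    exact (V.valuation_le_one_iff _).1 (h x hx).le
  refine ⟨fun hsx => ?_, hmem x⟩
  by_contra hx
  have hx0 : x ≠ 0 := by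
    rintro rfl
    exact hx V.zero_mem
  have h1 : x⁻¹ ∈ V := (V.mem_or_inv_mem x).resolve_left hx
  have h2 := h x⁻¹ h1
  have h3 : V.valuation x⁻¹ < 1 := by
    rw [map_inv₀]
    have h4 : ¬ V.valuation x ≤ 1 := fun h4 => hx ((V.valuation_le_one_iff _).1 h4)
    rw [not_le] at h4
    exact inv_lt_one_of_one_lt₀ h4
  have h4 : V.valuation (s x⁻¹) < 1 := by
    have h5 : s x⁻¹ = (s x⁻¹ - x⁻¹) + x⁻¹ := by ring
    rw [h5]
    exact V.valuation.map_add_lt h2 h3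
  rw [map_inv₀, map_inv₀] at h4
  have h5 : V.valuation (s x) ≤ 1 := (V.valuation_le_one_iff _).2 hsx
  have h6 : V.valuation (s x) ≠ 0 := by
    rw [Valuation.ne_zero_iff]
    exact (map_ne_zero s).2 hx0
  have h7 : 1 ≤ (V.valuation (s x))⁻¹ := (one_le_inv₀ (zero_lt_iff.2 h6)).2 h5
  exact absurd h4 (not_lt.2 h7)


theorem Dec.mul' {s t : Ω ≃ₐ[F] Ω} (hs : Dec V s) (ht : Dec V t) : Dec V (s * t) := by
  intro x
  exact (hs (t x)).trans (ht x)

theorem Dec.inv' {s : Ω ≃ₐ[F] Ω} (hs : Dec V s) : Dec V s⁻¹ := by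
  intro x
  have h1 := hs (s⁻¹ x)
  have h2 : s (s⁻¹ x) = x := s.apply_symm_apply x
  rw [h2] at h1
  exact h1.symm

/-- Elements of the decomposition group preserve the inequalities between values (H13S.dv_le). -/
theorem Dec.lt {s : Ω ≃ₐ[F] Ω} (hs : Dec V s) (a b : Ω) :
    V.valuation (s a) < V.valuation (s b) ↔ V.valuation a < V.valuation b := by
  rw [← not_le, ← not_le, H13S.dv_le s hs b a]

theorem Dec.lt_one {s : Ω ≃ₐ[F] Ω} (hs : Dec V s) (a : Ω) : V.valuation (s a) < 1 ↔ V.valuation a < 1 := by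
  have h := Dec.lt hs a 1
  rwa [map_one, map_one] at h

theorem Dec.le_one {s : Ω ≃ₐ[F] Ω} (hs : Dec V s) (a : Ω) : V.valuation (s a) ≤ 1 ↔ V.valuation a ≤ 1 := by
  have h := H13S.dv_le s hs a 1
  rwa [map_one, map_one] at h

/-- s has a finite orbit on a: as in H13S.qv_val. -/
theorem Dec.val [Algebra.IsAlgebraic F Ω] {s : Ω ≃ₐ[F] Ω} (hs : Dec V s) (a : Ω) :
    V.valuation (s a) = V.valuation a := by
  obtain ⟨n, hn, hna⟩ := qv_orb s a
  have hstep : ∀ k : ℕ, (s ^ (k + 1)) a = s ((s ^ k) a) := by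
    intro k
    rw [pow_succ']
    rfl
  rcases lt_trichotomy (V.valuation (s a)) (V.valuation a) with h | h | h
  · exfalso
    have h1 : ∀ k : ℕ, V.valuation ((s ^ (k + 1)) a) < V.valuation a := by
      intro k
      induction k with
      | zero =>
        rw [zero_add, pow_one]
        exact h
      | succ k ih =>
        rw [hstep (k + 1)]
        exact lt_trans ((Dec.lt hs _ _).2 ih) h
    have h2 := h1 (n - 1)
    rw [Nat.sub_add_cancel hn, hna] at h2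
    exact lt_irrefl _ h2
  · exact h
  · exfalso
    have h1 : ∀ k : ℕ, V.valuation a < V.valuation ((s ^ (k + 1)) a) := by
      intro k
      induction k with
      | zero =>
        rw [zero_add, pow_one]
        exact h
      | succ k ih =>
        rw [hstep (k + 1)]
        exact lt_trans h ((Dec.lt hs _ _).2 ih)
    have h2 := h1 (n - 1)
    rw [Nat.sub_add_cancel hn, hna] at h2
    exact lt_irrefl _ h2

/-- The inertia group is contained in the decomposition group (H13S.git_dec). -/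
theorem Inert.dec {s : Ω ≃ₐ[F] Ω} (hs : Inert V s) : Dec V s := gi_dec V s hs

/-- Conjugates of inertia elements by decomposition elements are inertia elements. -/
theorem Inert.conj {s σ : Ω ≃ₐ[F] Ω} (hs : Inert V s) (hσ : Dec V σ) : Inert V (σ⁻¹ * s * σ) := by
  intro x hx
  have h1 := hs (σ x) ((hσ x).2 hx)
  have h2 := (Dec.lt_one (Dec.inv' hσ) (s (σ x) - σ x)).2 h1
  rw [map_sub] at h2
  have h3 : σ⁻¹ (σ x) = x := σ.symm_apply_apply x
  rw [h3] at h2
  exact h2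

theorem lcb_mul {s t : Ω ≃ₐ[F] Ω} (hs : Inert V s) (ht : Inert V t) : Inert V (s * t) := by
  intro x hx
  have h1 := hs (t x) ((Inert.dec ht x).2 hx)
  have h2 := ht x hx
  have h3 : (s * t) x - x = (s (t x) - t x) + (t x - x) := by
    change s (t x) - x = _
    ring
  rw [h3]
  exact (V.valuation.map_add _ _).trans_lt (max_lt h1 h2)

theorem lcb_inv {s : Ω ≃ₐ[F] Ω} (hs : Inert V s) : Inert V s⁻¹ := by
  intro x hx
  have e : s (s⁻¹ x) = x := AlgEquiv.apply_symm_apply s x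
  have h1 : s⁻¹ x ∈ V := by
    rw [← Inert.dec hs, e]
    exact hx
  have h2 := hs _ h1
  rw [e] at h2
  rw [← V.valuation.map_neg, neg_sub]
  exact h2

theorem lcb_one : Inert V (1 : Ω ≃ₐ[F] Ω) := by
  intro x _
  have : (1 : Ω ≃ₐ[F] Ω) x - x = 0 := sub_self x
  rw [this, map_zero]
  exact zero_lt_one

end gal

section act

variable {F : Type} [Field F] [NumberField F] [IQ F] {A B : F} {Om : ℂ} {Ω : Type} [Field Ω] [DecidableEq Ω]
  [Algebra F Ω] {j : Ω →+* ℂ} {act : 𝓞 F →+* AddMonoid.End (Pt (WAB A B) Ω)} {mo : Ideal (𝓞 F)}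
  {ψ : Ideal (𝓞 F) →*₀ 𝓞 F}

/-- An automorphism acting as act a on Tor β and moving a point has no fixed point. -/
theorem no_fix (hA : CMA F A B Om j act) {β : 𝓞 F} (hβ : Prime β) {s : Ω ≃ₐ[F] Ω}
    (h : ∃ T ∈ Tor act β, ac (WAB A B) s T ≠ T) {T : Pt (WAB A B) Ω} (hT : T ∈ Tor act β)
    (hs : ac (WAB A B) s T = T) : T = 0 := by
  obtain ⟨-, T₀, hT₀, hgen, hker⟩ := gi_gen hA β hβ
  obtain ⟨a, ha⟩ := hgen _ (ac_mem hA s hT₀)
  have hall : ∀ X ∈ Tor act β, ac (WAB A B) s X = act a X := by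
    intro X hX
    obtain ⟨b, rfl⟩ := hgen X hX
    rw [ac_act hA, ha, ← act_mul, ← act_mul, mul_comm]
  obtain ⟨T₁, hT₁, hne⟩ := h
  have hnd : ¬ β ∣ a - 1 := by
    rintro ⟨c, hc⟩
    apply hne
    rw [hall T₁ hT₁, ← sub_eq_zero]
    have h1 : act (a - 1) T₁ = 0 := by
      rw [hc, mul_comm, act_mul, mem_Tor.1 hT₁]
      exact map_zero _
    rwa [act_sub, act_one] at h1
  obtain ⟨u, v, huv⟩ := (hβ.irreducible.coprime_iff_not_dvd).2 hnd
  have h1 : act (a - 1) T = 0 := by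
    rw [act_sub, act_one, ← hall T hT, hs, sub_self]
  have h2 : act (u * β + v * (a - 1)) T = 0 := by
    rw [act_add, act_mul, act_mul, mem_Tor.1 hT, h1, map_zero, map_zero, add_zero]
  rwa [huv, act_one] at h2

variable {π : 𝓞 F} {l : ℕ} {N : IntermediateField F Ω} {V : ValuationSubring Ω}

theorem Hx.add {x y : Ω} (hx : Hx act π N V x) (hy : Hx act π N V y) : Hx act π N V (x + y) := by
  intro s hs
  rw [map_add, hx s hs, hy s hs]

theorem Hx.sub {x y : Ω} (hx : Hx act π N V x) (hy : Hx act π N V y) : Hx act π N V (x - y) := by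
  intro s hs
  rw [map_sub, hx s hs, hy s hs]

theorem Hx.mul {x y : Ω} (hx : Hx act π N V x) (hy : Hx act π N V y) : Hx act π N V (x * y) := by
  intro s hs
  rw [map_mul, hx s hs, hy s hs]

theorem Hx.div {x y : Ω} (hx : Hx act π N V x) (hy : Hx act π N V y) : Hx act π N V (x / y) := by
  intro s hs
  rw [map_div₀, hx s hs, hy s hs]

theorem Hx.inv {x : Ω} (hx : Hx act π N V x) : Hx act π N V x⁻¹ := by
  intro s hs
  rw [map_inv₀, hx s hs]

theorem Hx.pow {x : Ω} (hx : Hx act π N V x) (n : ℕ) : Hx act π N V (x ^ n) := by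
  intro s hs
  rw [map_pow, hx s hs]

theorem Hx.zpow {x : Ω} (hx : Hx act π N V x) (n : ℤ) : Hx act π N V (x ^ n) := by
  intro s hs
  rw [map_zpow₀, hx s hs]


theorem Hx.nat (n : ℕ) : Hx act π N V (n : Ω) := by
  intro s _
  exact map_natCast s n

theorem Hx.one : Hx act π N V (1 : Ω) := by
  intro s _
  exact map_one s

theorem Hx.of_mem {x : Ω} (hx : x ∈ N) : Hx act π N V x := fun s hs =>
  (IntermediateField.mem_fixingSubgroup_iff N s).1 hs.1.1 x hx

theorem Hx.tt {T : Pt (WAB A B) Ω} (hT : T ∈ Tor act π) : Hx act π N V (H35P.tt T) := by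
  intro s hs
  rw [← tt_ac, hs.2 T hT]

theorem DecN.mul {s t : Ω ≃ₐ[F] Ω} (hs : DecN N V s) (ht : DecN N V t) : DecN N V (s * t) :=
  ⟨mul_mem hs.1 ht.1, Dec.mul' hs.2 ht.2⟩

theorem DecN.inv {s : Ω ≃ₐ[F] Ω} (hs : DecN N V s) : DecN N V s⁻¹ :=
  ⟨inv_mem hs.1, Dec.inv' hs.2⟩

/-- Inertia elements above l are in the decomposition group over N. -/
theorem Nb.dec (hN : Nb l N) (h : V.valuation (l : Ω) < 1)
    {s : Ω ≃ₐ[F] Ω} (hs : Inert V s) : DecN N V s :=
  ⟨hN.inert V h s hs, Inert.dec hs⟩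

theorem DT.conj (hA : CMA F A B Om j act) {σ : Ω ≃ₐ[F] Ω} (hσ : DecN N V σ) {s : Ω ≃ₐ[F] Ω} (hs : DT act π N V s) :
    DT act π N V (σ⁻¹ * s * σ) := by
  refine ⟨(hσ.inv.mul hs.1).mul hσ, fun T hT => ?_⟩
  rw [ac_mul, ac_mul, hs.2 _ (ac_mem hA σ hT), ← ac_mul, inv_mul_cancel, ac_one]

theorem Hx.dec (hA : CMA F A B Om j act) {x : Ω} (hx : Hx act π N V x) {σ : Ω ≃ₐ[F] Ω} (hσ : DecN N V σ) : Hx act π N V (σ x) := by
  intro s hs
  have h2 := hx _ (DT.conj hA hσ hs)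
  have h3 : s (σ x) = σ ((σ⁻¹ * s * σ) x) := by
    have h4 : (σ⁻¹ * s * σ) x = σ⁻¹ (s (σ x)) := rfl
    rw [h4]
    exact (σ.apply_symm_apply _).symm
  rw [h3, h2]

/-- The cocycle condition over N gives the one on the inertia group. -/
theorem Dc.sub_cob (hA : CMA F A B Om j act) {c : (Ω ≃ₐ[F] Ω) → Pt (WAB A B) Ω} (hc : Dc act π N V c) {X : Pt (WAB A B) Ω} (hX : X ∈ Tor act (cj π)) :
    Dc act π N V fun s => c s - (ac (WAB A B) s X - X) := by
  refine ⟨fun s hs t ht => ?_, fun s hs => sub_mem (hc.val s hs) (sub_mem (ac_mem hA s hX) hX)⟩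
  show c (s * t) - (ac (WAB A B) (s * t) X - X) = c s - (ac (WAB A B) s X - X) + ac (WAB A B) s (c t - (ac (WAB A B) t X - X))
  rw [hc.mul s hs t ht, ac_mul, map_sub, map_sub]
  abel

theorem Dc.sub {c c' : (Ω ≃ₐ[F] Ω) → Pt (WAB A B) Ω} (hc : Dc act π N V c) (hc' : Dc act π N V c') :
    Dc act π N V fun s => c s - c' s := by
  refine ⟨fun s hs t ht => ?_, fun s hs => sub_mem (hc.val s hs) (hc'.val s hs)⟩
  show c (s * t) - c' (s * t) = c s - c' s + ac (WAB A B) s (c t - c' t)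
  rw [hc.mul s hs t ht, hc'.mul s hs t ht, map_sub]
  abel

theorem Dc.one {c : (Ω ≃ₐ[F] Ω) → Pt (WAB A B) Ω} (hc : Dc act π N V c) : c 1 = 0 := by
  have h1 : DecN N V (1 : Ω ≃ₐ[F] Ω) := ⟨one_mem _, fun x => Iff.rfl⟩
  have h2 := hc.mul 1 h1 1 h1
  rw [mul_one, ac_one] at h2
  exact left_eq_add.mp h2

/-- A cocycle vanishing on an inertia element: c (s n) = c s etc. -/
theorem Dc.conj_eq {c : (Ω ≃ₐ[F] Ω) → Pt (WAB A B) Ω} (hc : Dc act π N V c) {σ s : Ω ≃ₐ[F] Ω} (hσ : DecN N V σ)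
    (hs : DecN N V s) (h1 : c σ = 0) (h2 : c (s⁻¹ * σ * s) = 0) : ac (WAB A B) σ (c s) = c s := by
  have h3 := hc.mul σ hσ s hs
  have h4 := hc.mul s hs (s⁻¹ * σ * s) ((hs.inv.mul hσ).mul hs)
  have e : s * (s⁻¹ * σ * s) = σ * s := by group
  rw [e, h2, map_zero, add_zero] at h4
  rw [h1, zero_add, h4] at h3
  exact h3.symm

/-- If a cocycle vanishes on the inertia group over N and some inertia element has no fixed point then it vanishes. -/
theorem cob_dec_ram {c : (Ω ≃ₐ[F] Ω) → Pt (WAB A B) Ω} (hc : Dc act π N V c)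
    (h : ∀ s ∈ N.fixingSubgroup, Inert V s → c s = 0)
    (hσ : ∃ s ∈ N.fixingSubgroup, Inert V s ∧ ∀ T ∈ Tor act (cj π), ac (WAB A B) s T = T → T = 0) :
    ∀ s, DecN N V s → c s = 0 := by
  obtain ⟨σ, hσN, hσ1, hσ2⟩ := hσ
  intro s hs
  have hσD : DecN N V σ := ⟨hσN, Inert.dec hσ1⟩
  exact hσ2 _ (hc.val s hs) (hc.conj_eq hσD hs (h σ hσN hσ1)
    (h _ ((hs.inv.mul hσD).mul hs).1 (Inert.conj hσ1 hs.2)))

end act

end H13X
end

-- from Lib.H13X.XK
section

/-! # H13X: port of H13Y/YK -/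

open NumberField IsDedekindDomain WeierstrassCurve

namespace H13X

open H55P (IQ embF eF LF Per IsHecke Pt ac Inert Dec Nm Coc)
open H35P (WAB Ker tt)
open H55K (Tor ak xc yc CMA Dta GV GMod cj cj_cj mul_cj cj_prime cj_dvd cj_nat Nm_cj Nm_mul Nm_nat)
open H55K.S
open H13S (Abv)





variable {F : Type} [Field F] [NumberField F] [IQ F] {A B : F} {Om : ℂ} {Ω : Type} [Field Ω] [DecidableEq Ω]
  [Algebra F Ω] {j : Ω →+* ℂ} {act : 𝓞 F →+* AddMonoid.End (Pt (WAB A B) Ω)} {mo : Ideal (𝓞 F)}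
  {ψ : Ideal (𝓞 F) →*₀ 𝓞 F}

variable {π : 𝓞 F} {l : ℕ} {N : IntermediateField F Ω} {V : ValuationSubring Ω} {e : Pt (WAB A B) Ω → Pt (WAB A B) Ω → Ω} {c : (Ω ≃ₐ[F] Ω) → Pt (WAB A B) Ω}
  {y : Pt (WAB A B) Ω → Ω}

theorem lk_ne (D : Dat A B Om j act mo ψ π l) (he : Pairing A B act π l e) {X T : Pt (WAB A B) Ω} (hX : X ∈ Tor act (cj π))
    (hT : T ∈ Tor act π) : e X T ≠ 0 := by
  intro h
  have h1 := he.root X hX T hT
  rw [h, zero_pow (by have := D.five; omega)] at h1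
  exact zero_ne_one h1

theorem lk_sub (D : Dat A B Om j act mo ψ π l) (he : Pairing A B act π l e) {X Y T : Pt (WAB A B) Ω} (hX : X ∈ Tor act (cj π))
    (hY : Y ∈ Tor act (cj π)) (hT : T ∈ Tor act π) : e (X - Y) T = e X T / e Y T := by
  have h1 := he.add_left (X - Y) (sub_mem hX hY) Y hY T hT
  rw [sub_add_cancel] at h1
  rw [h1, mul_div_assoc, div_self (lk_ne D he hY hT), mul_one]

theorem lk_act (D : Dat A B Om j act mo ψ π l) (he : Pairing A B act π l e) (hc : Dc act π N V c) (hy : KS act π N V e c y)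
    {σ : Ω ≃ₐ[F] Ω} (hσ : DecN N V σ) {T : Pt (WAB A B) Ω} (hT : T ∈ Tor act π) {s : Ω ≃ₐ[F] Ω} (hs : DT act π N V s) :
    s (σ (y T) / e (c σ) (ac (WAB A B) σ T)) = e (c s) (ac (WAB A B) σ T) * (σ (y T) / e (c σ) (ac (WAB A B) σ T)) := by
  have hT' := ac_mem D.cma σ hT
  have hg := lk_ne D he (hc.val σ hσ) hT'
  have hs' := DT.conj D.cma hσ hs
  have e1 : σ * (σ⁻¹ * s * σ) = s * σ := by group
  have e2 : ac (WAB A B) σ (c (σ⁻¹ * s * σ)) = c s + ac (WAB A B) s (c σ) - c σ := by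
    have h1 := hc.mul σ hσ (σ⁻¹ * s * σ) hs'.1
    rw [e1, hc.mul s hs.1 σ hσ] at h1
    rw [h1, add_sub_cancel_left]
  have e3 : s (σ (y T)) = e (c s + ac (WAB A B) s (c σ) - c σ) (ac (WAB A B) σ T) * σ (y T) := by
    have h1 : s (σ (y T)) = σ ((σ⁻¹ * s * σ) (y T)) := by
      show (s * σ) (y T) = (σ * (σ⁻¹ * s * σ)) (y T)
      rw [e1]
    rw [h1, hy.gal T hT _ hs', map_mul, he.gal σ _ (hc.val _ hs'.1) _ hT, e2]
  have hXs := ac_mem D.cma s (hc.val σ hσ)
  have e4 : s (e (c σ) (ac (WAB A B) σ T)) = e (ac (WAB A B) s (c σ)) (ac (WAB A B) σ T) := by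
    rw [he.gal s _ (hc.val σ hσ) _ hT', hs.2 _ hT']
  have hg2 := lk_ne D he hXs hT'
  rw [map_div₀, e3, e4, lk_sub D he (add_mem (hc.val s hs.1) hXs) (hc.val σ hσ) hT',
    he.add_left _ (hc.val s hs.1) _ hXs _ hT']
  field_simp

theorem sys_of (D : Dat A B Om j act mo ψ π l) (he : Pairing A B act π l e) (hc : Dc act π N V c) (hy : KS act π N V e c y) :
    Sys act π l N V fun T => y T ^ l := by
  refine ⟨fun T hT => pow_ne_zero l (hy.ne T hT), fun T hT s hs => ?_, fun T hT T' hT' => ?_,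
    fun σ hσ T hT => ?_⟩
  · rw [map_pow, hy.gal T hT s hs, mul_pow, he.root _ (hc.val s hs.1) _ hT, one_mul]
  · have h1 := hy.ne T hT
    have h2 := hy.ne T' hT'
    have h3 := hy.ne (T + T') (add_mem hT hT')
    refine ⟨y (T + T') / (y T * y T'), fun s hs => ?_, div_ne_zero h3 (mul_ne_zero h1 h2), ?_⟩
    · have h4 := lk_ne D he (hc.val s hs.1) hT
      have h5 := lk_ne D he (hc.val s hs.1) hT'
      rw [map_div₀, map_mul, hy.gal _ (add_mem hT hT') s hs, hy.gal T hT s hs, hy.gal T' hT' s hs,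
        he.add_right _ (hc.val s hs.1) _ hT _ hT']
      field_simp
    · rw [div_pow, mul_pow]
      field_simp
  · have hT' := ac_mem D.cma σ hT
    have hg := lk_ne D he (hc.val σ hσ) hT'
    have h1 : σ (y T) ≠ 0 := by
      rw [Ne, map_eq_zero_iff σ σ.injective]
      exact hy.ne T hT
    have h2 := hy.ne _ hT'
    have h3 : σ (y T) / e (c σ) (ac (WAB A B) σ T) ≠ 0 := div_ne_zero h1 hg
    refine ⟨y (ac (WAB A B) σ T) / (σ (y T) / e (c σ) (ac (WAB A B) σ T)), fun s hs => ?_, div_ne_zero h2 h3, ?_⟩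
    · have h4 := lk_ne D he (hc.val s hs.1) hT'
      rw [map_div₀, lk_act D he hc hy hσ hT hs, hy.gal _ hT' s hs, mul_div_mul_left _ _ h4]
    · show y (ac (WAB A B) σ T) ^ l = σ (y T ^ l) * _
      rw [div_pow, div_pow, he.root _ (hc.val σ hσ) _ hT', div_one, map_pow]
      field_simp

theorem ks_sub (D : Dat A B Om j act mo ψ π l) (he : Pairing A B act π l e) (hc : Dc act π N V c) (hy : KS act π N V e c y)
    {c₁ : (Ω ≃ₐ[F] Ω) → Pt (WAB A B) Ω} {y₁ : Pt (WAB A B) Ω → Ω} (hc₁ : Dc act π N V c₁) (hy₁ : KS act π N V e c₁ y₁) :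
    KS act π N V e (fun s => c s - c₁ s) (fun T => y T / y₁ T) := by
  refine ⟨fun T hT => div_ne_zero (hy.ne T hT) (hy₁.ne T hT), fun T hT s hs => ?_⟩
  have h2 := lk_ne D he (hc₁.val s hs.1) hT
  have h3 := hy₁.ne T hT
  show s (y T / y₁ T) = e (c s - c₁ s) T * (y T / y₁ T)
  rw [map_div₀, hy.gal T hT s hs, hy₁.gal T hT s hs, lk_sub D he (hc.val s hs.1) (hc₁.val s hs.1) hT]
  field_simp

theorem c_zero (D : Dat A B Om j act mo ψ π l) (he : Pairing A B act π l e) (hc : Dc act π N V c) (hy : KS act π N V e c y) {s : Ω ≃ₐ[F] Ω}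
    (hs : DT act π N V s) (h : ∀ T ∈ Tor act π, s (y T) = y T) : c s = 0 := by
  apply he.nondeg _ (hc.val s hs.1)
  intro T hT
  have h1 := hy.gal T hT s hs
  rw [h T hT] at h1
  have h2 := hy.ne T hT
  field_simp at h1
  exact h1.symm

end H13X
end

-- from Lib.H28T.DT
section

open NumberField IsDedekindDomain WeierstrassCurve

namespace H28T

open H55P (IQ embF eF LF Per IsHecke Pt ac Inert Dec Nm CMData)
open H35P (WAB Ker tt)
open H55K H55K.TQ

variable {F : Type} [Field F] [NumberField F] [IQ F] {W₀ : WeierstrassCurve (𝓞 F)} {Om : ℂ}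
    {m : Ideal (𝓞 F)} {ψ : Ideal (𝓞 F) →*₀ 𝓞 F} {p : ℕ}

/-- The complete data over the algebraic closure of F. -/
theorem exists_dta [DecidableEq (AlgebraicClosure F)] (hH : BaseH F W₀ Om m ψ) (hp : PrimeH F W₀ p) :
    ∃ (A B : F) (j : AlgebraicClosure F →+* ℂ) (act : 𝓞 F →+* AddMonoid.End (Pt (WAB A B) (AlgebraicClosure F))),
      Dta A B Om j act m ψ p := by
  have hB := base_of hH hp
  obtain ⟨j, hj⟩ := exists_j F (AlgebraicClosure F)
  obtain ⟨A, hA⟩ : ∃ A : F, A = -(algebraMap (𝓞 F) F W₀.c₄) / 48 := ⟨_, rfl⟩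
  obtain ⟨B, hB'⟩ : ∃ B : F, B = -(algebraMap (𝓞 F) F W₀.c₆) / 864 := ⟨_, rfl⟩
  have hd := y3_ne W₀ hA hB' hB.data.ell
  have hper : Per F (embF F A) (embF F B) Om := by
    have e1 : embF F A = -(eF F W₀.c₄) / 48 := by
      rw [hA, map_div₀, map_neg, map_ofNat]
      rfl
    have e2 : embF F B = -(eF F W₀.c₆) / 864 := by
      rw [hB', map_div₀, map_neg, map_ofNat]
      rfl
    rw [e1, e2]
    exact hB.data.per
  obtain ⟨act, hact⟩ := exists_CMA F A B Om j hd hper hj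
  have hG : ∀ V : ValuationSubring (AlgebraicClosure F),
      ∃ (Kg : AddSubgroup (Pt (WAB A B) (AlgebraicClosure F))) (u : AlgebraicClosure F),
        GMod (WAB A B) V Kg u := fun V => exists_gmod hd (y3_j W₀ hA hB' hB.jint) V
  exact ⟨A, B, j, act, mk_Dta hB hA hB' hact hG⟩

end H28T
end

-- from Lib.H55K.RB1
section

/-! # H55K: primes in the quadratic extension -/

open NumberField IsDedekindDomain WeierstrassCurve

namespace H55K.TQ

open H55P (IQ embF eF LF Per IsHecke Pt ac Inert Dec Nm UnitP)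
open H35P (WAB Ker tt GoodW IntW)
open H55K.MG (VC Crd)

variable {F K₀ K : Type} [Field F] [NumberField F] [IQ F] [Field K₀] [NumberField K₀] [Field K] [NumberField K]
  [Algebra F K] [Algebra K₀ K]

/-- Chunk RB1 (M). K/K₀ is Galois of degree 2 (τ is not the identity: it is the conjugation on F, IQ.im, e_cj), group {1, τ}. g e f = 2 (Ideal.ncard_primesOver_mul_ramificationIdxIn_mul_inertiaDegIn or sum of e f = 2): g = 2: two primes, f = 1: N w = N v. g = 1, f = 2: N w = (N v)^2. g = 1, e = 2: the inertia group of w has e = 2 elements (H55P.cl_card in CL.lean),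
so it contains τ: τ x - x in w for all x in 𝓞 K; in particular for the elements of 𝓞 F: a - cj a in w. N = absNorm; w above v: w.asIdeal.under (𝓞 K₀) = v.asIdeal. -/
theorem quad_primes (hQ : QuadG F K₀ K) (v : HeightOneSpectrum (𝓞 K₀)) :
    (∃ w₁ w₂ : HeightOneSpectrum (𝓞 K), w₁ ≠ w₂ ∧ Ideal.absNorm w₁.asIdeal = Ideal.absNorm v.asIdeal ∧
      Ideal.absNorm w₂.asIdeal = Ideal.absNorm v.asIdeal ∧
      ∀ w : HeightOneSpectrum (𝓞 K), v.asIdeal = w.asIdeal.under (𝓞 K₀) ↔ w = w₁ ∨ w = w₂) ∨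
    (∃ w₁ : HeightOneSpectrum (𝓞 K), Ideal.absNorm w₁.asIdeal = Ideal.absNorm v.asIdeal ^ 2 ∧
      ∀ w : HeightOneSpectrum (𝓞 K), v.asIdeal = w.asIdeal.under (𝓞 K₀) ↔ w = w₁) ∨
    (∃ w₁ : HeightOneSpectrum (𝓞 K), (∀ a : 𝓞 F, algebraMap (𝓞 F) (𝓞 K) (a - cj a) ∈ w₁.asIdeal) ∧
      ∀ w : HeightOneSpectrum (𝓞 K), v.asIdeal = w.asIdeal.under (𝓞 K₀) ↔ w = w₁) := by
  haveI : Algebra.IsQuadraticExtension K₀ K := ⟨hQ.rank⟩
  haveI hgal : IsGalois K₀ K := inferInstance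
  obtain ⟨τ, hτ⟩ := hQ.tau
  have hcardG : Nat.card Gal(K/K₀) = 2 := by
    rw [IsGalois.card_aut_eq_finrank, hQ.rank]
  have hmax : v.asIdeal.IsMaximal := v.isMaximal
  have hid := Ideal.ncard_primesOver_mul_ramificationIdxIn_mul_inertiaDegIn v.asIdeal (𝓞 K) Gal(K/K₀)
  rw [hcardG] at hid
  -- every prime above
  have hprime : ∀ P ∈ Ideal.primesOver v.asIdeal (𝓞 K), ∃ w : HeightOneSpectrum (𝓞 K), w.asIdeal = P := by
    rintro P ⟨hP1, hP2⟩
    refine ⟨⟨P, hP1, ?_⟩, rfl⟩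
    exact Ideal.ne_bot_of_liesOver_of_ne_bot v.ne_bot P
  have hmem : ∀ w : HeightOneSpectrum (𝓞 K), v.asIdeal = w.asIdeal.under (𝓞 K₀) ↔
      w.asIdeal ∈ Ideal.primesOver v.asIdeal (𝓞 K) := by
    intro w
    constructor
    · intro h
      exact ⟨w.isPrime, ⟨h⟩⟩
    · intro h
      exact h.2.over
  have hnorm : ∀ w : HeightOneSpectrum (𝓞 K), w.asIdeal ∈ Ideal.primesOver v.asIdeal (𝓞 K) →
      Ideal.absNorm w.asIdeal = Ideal.absNorm v.asIdeal ^ (Ideal.inertiaDegIn v.asIdeal (𝓞 K)) := by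
    intro w hw
    have hlies : w.asIdeal.LiesOver v.asIdeal := hw.2
    have h3 := Ideal.absNorm_eq_pow_inertiaDeg'_of_liesOver w.asIdeal v.asIdeal v.isPrime v.ne_bot
    rw [Ideal.inertiaDeg'_algebraMap] at h3
    rw [h3, Ideal.inertiaDegIn_eq_inertiaDeg v.asIdeal w.asIdeal Gal(K/K₀),
      Ideal.inertiaDeg_eq_of_isMaximal v.asIdeal w.asIdeal]
  have hcases : ((Ideal.primesOver v.asIdeal (𝓞 K)).ncard = 2 ∧ Ideal.inertiaDegIn v.asIdeal (𝓞 K) = 1) ∨
      ((Ideal.primesOver v.asIdeal (𝓞 K)).ncard = 1 ∧ Ideal.inertiaDegIn v.asIdeal (𝓞 K) = 2) ∨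
      ((Ideal.primesOver v.asIdeal (𝓞 K)).ncard = 1 ∧ Ideal.ramificationIdxIn v.asIdeal (𝓞 K) = 2) := by
    generalize (Ideal.primesOver v.asIdeal (𝓞 K)).ncard = g at hid
    generalize Ideal.ramificationIdxIn v.asIdeal (𝓞 K) = e at hid
    generalize Ideal.inertiaDegIn v.asIdeal (𝓞 K) = f at hid
    have h1 : g ∣ 2 := ⟨_, hid.symm⟩
    rcases (Nat.dvd_prime Nat.prime_two).1 h1 with h2 | h2
    · rw [h2, one_mul] at hid
      have h3 : e ∣ 2 := ⟨_, hid.symm⟩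
      rcases (Nat.dvd_prime Nat.prime_two).1 h3 with h4 | h4
      · rw [h4, one_mul] at hid
        exact Or.inr (Or.inl ⟨h2, hid⟩)
      · exact Or.inr (Or.inr ⟨h2, h4⟩)
    · rw [h2] at hid
      have h3 : e * f = 1 := by omega
      exact Or.inl ⟨h2, Nat.eq_one_of_mul_eq_one_left h3⟩
  rcases hcases with ⟨hg, hf⟩ | ⟨hg, hf⟩ | ⟨hg, he⟩
  · left
    rw [Set.ncard_eq_two] at hg
    obtain ⟨P₁, P₂, hne, hP⟩ := hg
    obtain ⟨w₁, hw₁⟩ := hprime P₁ (by rw [hP]; exact Or.inl rfl)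
    obtain ⟨w₂, hw₂⟩ := hprime P₂ (by rw [hP]; exact Or.inr rfl)
    refine ⟨w₁, w₂, ?_, ?_, ?_, ?_⟩
    · rintro rfl
      exact hne (hw₁.symm.trans hw₂)
    · rw [hnorm w₁ (by rw [hw₁, hP]; exact Or.inl rfl), hf, pow_one]
    · rw [hnorm w₂ (by rw [hw₂, hP]; exact Or.inr rfl), hf, pow_one]
    · intro w
      rw [hmem, hP]
      constructor
      · rintro (h | h)
        · exact Or.inl (HeightOneSpectrum.ext (h.trans hw₁.symm))
        · exact Or.inr (HeightOneSpectrum.ext (h.trans hw₂.symm))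
      · rintro (h | h)
        · left; rw [h, hw₁]
        · right; rw [h, hw₂]; exact Set.mem_singleton _
  · right; left
    rw [Set.ncard_eq_one] at hg
    obtain ⟨P₁, hP⟩ := hg
    obtain ⟨w₁, hw₁⟩ := hprime P₁ (by rw [hP]; exact Set.mem_singleton _)
    refine ⟨w₁, ?_, ?_⟩
    · rw [hnorm w₁ (by rw [hw₁, hP]; exact Set.mem_singleton _), hf]
    · intro w
      rw [hmem, hP, Set.mem_singleton_iff]
      constructor
      · intro h
        exact HeightOneSpectrum.ext (h.trans hw₁.symm)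
      · intro h
        rw [h, hw₁]
  · right; right
    rw [Set.ncard_eq_one] at hg
    obtain ⟨P₁, hP⟩ := hg
    obtain ⟨w₁, hw₁⟩ := hprime P₁ (by rw [hP]; exact Set.mem_singleton _)
    refine ⟨w₁, ?_, ?_⟩
    · have hw1mem : w₁.asIdeal ∈ Ideal.primesOver v.asIdeal (𝓞 K) := by
        rw [hw₁, hP]; exact Set.mem_singleton _
      have hlies : w₁.asIdeal.LiesOver v.asIdeal := hw1mem.2
      have hne0 : w₁.asIdeal ≠ ⊥ := w₁.ne_bot
      have hcard := H55P.cl_card (M := K₀) w₁.asIdeal w₁.ne_bot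
      rw [← Ideal.ramificationIdxIn_eq_ramificationIdx v.asIdeal w₁.asIdeal Gal(K/K₀), he] at hcard
      have htop : w₁.asIdeal.inertia Gal(K/K₀) = ⊤ := by
        apply Subgroup.eq_top_of_card_eq
        rw [hcard, hcardG]
      intro a
      have hin : τ ∈ w₁.asIdeal.inertia Gal(K/K₀) := by rw [htop]; exact Subgroup.mem_top _
      have h1 := hin (algebraMap (𝓞 F) (𝓞 K) a)
      have h2 : τ • (algebraMap (𝓞 F) (𝓞 K) a) = algebraMap (𝓞 F) (𝓞 K) (cj a) := by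
        apply RingOfIntegers.ext
        exact hτ a
      rw [h2, ← map_sub] at h1
      rw [show a - cj a = -(cj a - a) by ring, map_neg]
      exact w₁.asIdeal.neg_mem h1
    · intro w
      rw [hmem, hP, Set.mem_singleton_iff]
      constructor
      · intro h
        exact HeightOneSpectrum.ext (h.trans hw₁.symm)
      · intro h
        rw [h, hw₁]

end H55K.TQ
end

-- from Lib.H55K.RH
section

/-! # H55K: the Euler factors over the quadratic extension -/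

open NumberField IsDedekindDomain WeierstrassCurve

namespace H55K.TQ

open H55P (IQ embF eF LF Per IsHecke Pt ac Inert Dec Nm UnitP)
open H35P (WAB Ker tt GoodW IntW)
open H55K.MG (VC Crd)
open H55K.DD (LF' ef)

variable {F K₀ K : Type} [Field F] [NumberField F] [IQ F] [Field K₀] [NumberField K₀] [Field K] [NumberField K]
  [Algebra F K] [Algebra K₀ K]

theorem rh_int {R : Type} [CommRing R] {I : Ideal R} (hI : I ≠ ⊤) {l : ℕ} (hl : l.Prime) (hlI : (l : R) ∈ I) (d : ℤ) :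
    (d : R) ∈ I ↔ (l : ℤ) ∣ d := by
  constructor
  · intro hd
    by_contra hn
    have hcop : IsCoprime (l : ℤ) d := (Int.isCoprime_iff_gcd_eq_one).2
      ((Nat.Prime.coprime_iff_not_dvd hl).2 fun h => hn (Int.natCast_dvd.2 h))
    obtain ⟨a, b, hab⟩ := hcop
    have h1 : (a : R) * (l : R) + (b : R) * (d : R) = 1 := by
      have := congrArg (fun z : ℤ => (z : R)) hab
      push_cast at this
      exact this
    apply hI
    rw [Ideal.eq_top_iff_one, ← h1]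
    exact add_mem (Ideal.mul_mem_left _ _ hlI) (Ideal.mul_mem_left _ _ hd)
  · rintro ⟨c, rfl⟩
    push_cast
    exact Ideal.mul_mem_right _ _ hlI

theorem rh_disc (W : WeierstrassCurve ℤ) (R : Type) [CommRing R] : (W⁄R).Δ = ((W.Δ : ℤ) : R) := by
  show (W.map (algebraMap ℤ R)).Δ = _
  rw [WeierstrassCurve.map_Δ, eq_intCast]

theorem rh_over {R S : Type} [CommRing R] [CommRing S] [Algebra R S] {I : Ideal R} {J : Ideal S}
    (h : I = J.under R) {l : ℕ} (hl : (l : R) ∈ I) : (l : S) ∈ J := by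
  rw [h, Ideal.under_def, Ideal.mem_comap, map_natCast] at hl
  exact hl

theorem rh_under {R S : Type} [CommRing R] [CommRing S] [Algebra R S] {I : Ideal R} {J : Ideal S}
    (h : I = J.under R) {l : ℕ} (hl : (l : S) ∈ J) : (l : R) ∈ I := by
  rw [h, Ideal.under_def, Ideal.mem_comap, map_natCast]
  exact hl

theorem rh_roots (t l : ℂ) : ∃ α β : ℂ, α + β = t ∧ α * β = l := by
  obtain ⟨s, hs⟩ := IsAlgClosed.exists_pow_nat_eq (t ^ 2 - 4 * l) (n := 2) (by norm_num)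
  refine ⟨(t + s) / 2, (t - s) / 2, by ring, ?_⟩
  linear_combination (-1 / 4) * hs

/-- Chunk RH (M). l, f from below_W for v. If Δ is in v (l divides Δ: an integer in v is divisible by l): hbad for the w above v (one exists; mK m ≤ w: m contained in w ∩ 𝓞 F because Δ is in it, hsupp), good_up: W⁄K₀ is bad at v: LF' = 1 (lf_W_bad), and LF' = 1 at all w. Otherwise l does not divide Δ; t = l + 1 - #W(ZMod l), α, β the roots of x^2 - t x + l in ℂ. quad_primes: third case: a - cj a in w₁ ∩ 𝓞 F =: v_F for all a,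
so Δ in v_F (hram), Δ in w₁, l divides Δ: excluded. Two primes: absNorm = l^f: all three local factors are ef(q)(α^f) ef(q)(β^f) (lf_W): the product over T = {w₁, w₂} is the square. One prime with absNorm (l^f)^2 = l^(2f): quad_inert (third case excluded for w as before): f odd, v_F = (l), inert_F (Δ not in v_F; not m ≤ v_F by hsupp): #W(ZMod l) = l + 1, t = 0,
β = -α, α^2 = -l. LF' over K₀: ef(q)(α^f) ef(q)(-α^f) = ef(q^2)(α^(2f)) (ef_sq, f odd), over K: ef(q^2)(α^(2f)) ef(q^2)(β^(2f)), β^(2f) = α^(2f). -/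
theorem lf_sq (hQ : QuadG F K₀ K) {W : WeierstrassCurve ℤ} {m : Ideal (𝓞 F)} {ψ : Ideal (𝓞 F) →*₀ 𝓞 F}
    (hψ : H55P.IsHecke m ψ)
    (hdeu : ∀ v : HeightOneSpectrum (𝓞 F), (W⁄(𝓞 F)).Δ ∉ v.asIdeal → ¬ m ≤ v.asIdeal →
      Nat.card ((W⁄(𝓞 F))⁄(𝓞 F ⧸ v.asIdeal)).toAffine.Point = Nm (1 - ψ v.asIdeal))
    (hsupp : ∀ v : HeightOneSpectrum (𝓞 F), (W⁄(𝓞 F)).Δ ∈ v.asIdeal ↔ m ≤ v.asIdeal)
    (hram : ∀ v : HeightOneSpectrum (𝓞 F), (∀ a : 𝓞 F, a - cj a ∈ v.asIdeal) → (W⁄(𝓞 F)).Δ ∈ v.asIdeal)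
    {j₀ : ℤ} (hj : W.c₄ ^ 3 = j₀ * W.Δ) (hbad : ∀ w : HeightOneSpectrum (𝓞 K), H55P.mK K m ≤ w.asIdeal → ¬ GoodAt (W⁄K) w)
    (v : HeightOneSpectrum (𝓞 K₀)) (T : Finset (HeightOneSpectrum (𝓞 K)))
    (hT : ∀ w, w ∈ T ↔ v.asIdeal = w.asIdeal.under (𝓞 K₀)) :
    ∏ w ∈ T, LF' (W⁄K) w = LF' (W⁄K₀) v * LF' (W⁄K₀) v := by
  classical
  obtain ⟨l, f, hl, hlv, hf, hNv⟩ := below_W v
  have hq := quad_primes hQ v
  by_cases hlΔ : (l : ℤ) ∣ W.Δ
  · -- bad reduction
    have hb : ∀ w : HeightOneSpectrum (𝓞 K), v.asIdeal = w.asIdeal.under (𝓞 K₀) → ¬ GoodAt (W⁄K) w := by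
      intro w hw
      apply hbad
      obtain ⟨v', hv', -, -, hm⟩ := H55K.DD.below (F := F) (m := m) w
      rw [hm, ← hsupp, rh_disc, rh_int v'.isPrime.ne_top hl (rh_under hv' (rh_over hw hlv))]
      exact hlΔ
    have h1 : ∏ w ∈ T, LF' (W⁄K) w = 1 := Finset.prod_eq_one fun w hw => lf_W_bad W w hj (hb w ((hT w).1 hw))
    have hex : ∃ w : HeightOneSpectrum (𝓞 K), v.asIdeal = w.asIdeal.under (𝓞 K₀) := by
      rcases hq with ⟨w₁, w₂, -, -, -, h⟩ | ⟨w₁, -, h⟩ | ⟨w₁, -, h⟩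
      · exact ⟨w₁, (h w₁).2 (Or.inl rfl)⟩
      · exact ⟨w₁, (h w₁).2 rfl⟩
      · exact ⟨w₁, (h w₁).2 rfl⟩
    obtain ⟨w, hw⟩ := hex
    have hbv : ¬ GoodAt (W⁄K₀) v := by
      intro hg
      apply hb w hw
      have h2 := good_up hw hg
      have e : ((W⁄K₀)⁄K) = W⁄K := by
        show (W.map (algebraMap ℤ K₀)).map (algebraMap K₀ K) = W.map (algebraMap ℤ K)
        rw [WeierstrassCurve.map_map]
        congr 1
        exact Subsingleton.elim _ _
      rwa [e] at h2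
    rw [h1, lf_W_bad W v hj hbv, mul_one]
  -- good reduction
  obtain ⟨α, β, h1, h2⟩ := rh_roots ((l : ℂ) + 1 - (Nat.card (W⁄(ZMod l)).toAffine.Point : ℂ)) (l : ℂ)
  have hLv := lf_W W v hl hlv hlΔ α β h1 h2 hNv
  have hnr : ∀ w : HeightOneSpectrum (𝓞 K), v.asIdeal = w.asIdeal.under (𝓞 K₀) →
      ¬ ∀ a : 𝓞 F, algebraMap (𝓞 F) (𝓞 K) (a - cj a) ∈ w.asIdeal := by
    intro w hw hall
    obtain ⟨v', hv', -, -, -⟩ := H55K.DD.below (F := F) (m := m) w
    have h3 := hram v' fun a => by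
      rw [hv', Ideal.under_def, Ideal.mem_comap]
      exact hall a
    rw [rh_disc, rh_int v'.isPrime.ne_top hl (rh_under hv' (rh_over hw hlv))] at h3
    exact hlΔ h3
  rcases hq with ⟨w₁, w₂, hne, hN1, hN2, h⟩ | ⟨w₁, hN1, h⟩ | ⟨w₁, hN1, h⟩
  · -- split
    have hTe : T = {w₁, w₂} := by
      ext w
      rw [hT, h, Finset.mem_insert, Finset.mem_singleton]
    have e1 := lf_W W w₁ hl (rh_over ((h w₁).2 (Or.inl rfl)) hlv) hlΔ α β h1 h2 (hN1.trans hNv)
    have e2 := lf_W W w₂ hl (rh_over ((h w₂).2 (Or.inr rfl)) hlv) hlΔ α β h1 h2 (hN2.trans hNv)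
    rw [hTe, Finset.prod_pair hne, e1, e2, hLv, hN1, hN2]
  · -- inert
    have hw1 := (h w₁).2 rfl
    have hTe : T = {w₁} := by
      ext w
      rw [hT, h, Finset.mem_singleton]
    obtain ⟨hodd, hund⟩ := quad_inert hQ v w₁ hN1 h (hnr w₁ hw1) hl hNv
    obtain ⟨v', hv', -, -, hm⟩ := H55K.DD.below (F := F) (m := m) w₁
    have hΔ' : (W⁄(𝓞 F)).Δ ∉ v'.asIdeal := by
      rw [rh_disc, rh_int v'.isPrime.ne_top hl (rh_under hv' (rh_over hw1 hlv))]
      exact hlΔ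
    have hm' : ¬ m ≤ v'.asIdeal := fun h3 => hΔ' ((hsupp v').2 h3)
    have hcard := (inert_F hψ hdeu hl v' (hv'.trans hund) hΔ' hm').1
    have hβ : β = -α := by
      rw [hcard] at h1
      push_cast at h1
      linear_combination h1
    have hNw : Ideal.absNorm w₁.asIdeal = l ^ (2 * f) := by
      rw [hN1, hNv, ← pow_mul, mul_comm]
    have e1 := lf_W W w₁ hl (rh_over hw1 hlv) hlΔ α β h1 h2 hNw
    have hq1 : 1 < Ideal.absNorm v.asIdeal := by
      rw [hNv]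
      exact Nat.one_lt_pow hf.ne' hl.one_lt
    have e2 : LF' (W⁄K₀) v = ef (Ideal.absNorm v.asIdeal ^ 2) (α ^ (2 * f)) := by
      rw [hLv, hβ, hodd.neg_pow, ef_sq hq1, ← pow_mul, mul_comm f 2]
    have e3 : β ^ (2 * f) = α ^ (2 * f) := by
      rw [hβ, pow_mul, neg_sq, ← pow_mul]
    rw [hTe, Finset.prod_singleton, e1, e2, e3, hN1]
  · exact absurd hN1 (hnr w₁ ((h w₁).2 rfl))

end H55K.TQ
end

-- from Lib.H55K.RI2
section

/-! # H55K: the L-function over a field which does not contain F -/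

open NumberField IsDedekindDomain WeierstrassCurve

namespace H55K.TQ

open H55P (IQ embF eF LF Per IsHecke Pt ac Inert Dec Nm UnitP)
open H35P (WAB Ker tt GoodW IntW)
open H55K.MG (VC Crd)
open H55K.DD (LF' ef)

variable {F K₀ K : Type} [Field F] [NumberField F] [IQ F] [Field K₀] [NumberField K₀] [Field K] [NumberField K]
  [Algebra F K] [Algebra K₀ K]

theorem ri2_one {L : Type} [Field L] [NumberField L] (V : WeierstrassCurve L) : ((V.LFunction 1 : ℤ) : ℂ) = 1 := by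
  obtain ⟨s, hs⟩ := (ri1_ev V 1).exists
  rw [← hs]
  exact H55D.DQA_prod_one s _ fun w _ => lf_one V w

theorem ri2_AI_one (ψ : Ideal (𝓞 F) →*₀ 𝓞 F) : H55N.AI (fun a : Ideal (𝓞 K) => H55P.PsiP K ψ a) 1 = 1 := by
  show (if (1 : ℕ) = 0 then (0 : ℂ) else
    ∑ᶠ (a : Ideal (𝓞 K)) (_ : Ideal.absNorm a = 1), H55P.PsiP K ψ a) = 1
  rw [if_neg one_ne_zero, finsum_eq_single _ (1 : Ideal (𝓞 K))]
  · rw [finsum_eq_if, if_pos (map_one _), map_one]
  · intro x hx
    rw [finsum_eq_if, if_neg]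
    intro hn
    exact hx (by rw [Ideal.absNorm_eq_one_iff] at hn; rw [hn, Ideal.one_eq_top])

/-- Chunk RI2 (M). Port of H55P.LFunU0 (Z7.lean): lf_sq, lfun_sq; lfun_K (DM.lean) for W₀ = W⁄(𝓞 F) over K ((W₀⁄F)⁄K = W⁄K); ai_real with psi_cj; H13E.sqrt_unique; the value of the L-function at 1 is 1 (H55D.DQA_LFun_one for W: lf_one). -/
theorem lfun_quad (hQ : QuadG F K₀ K) {W : WeierstrassCurve ℤ} {m : Ideal (𝓞 F)} {ψ : Ideal (𝓞 F) →*₀ 𝓞 F}
    (hψ : H55P.IsHecke m ψ)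
    (hdeu : ∀ v : HeightOneSpectrum (𝓞 F), (W⁄(𝓞 F)).Δ ∉ v.asIdeal → ¬ m ≤ v.asIdeal →
      Nat.card ((W⁄(𝓞 F))⁄(𝓞 F ⧸ v.asIdeal)).toAffine.Point = Nm (1 - ψ v.asIdeal))
    (hsupp : ∀ v : HeightOneSpectrum (𝓞 F), (W⁄(𝓞 F)).Δ ∈ v.asIdeal ↔ m ≤ v.asIdeal)
    (hram : ∀ v : HeightOneSpectrum (𝓞 F), (∀ a : 𝓞 F, a - cj a ∈ v.asIdeal) → (W⁄(𝓞 F)).Δ ∈ v.asIdeal)
    {j₀ : ℤ} (hj : W.c₄ ^ 3 = j₀ * W.Δ) (hbad : ∀ w : HeightOneSpectrum (𝓞 K), H55P.mK K m ≤ w.asIdeal → ¬ GoodAt (W⁄K) w)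
    (n : ℕ) : (((W⁄K₀).LFunction n : ℤ) : ℂ) = H55N.AI (fun a => H55P.PsiP K ψ a) n := by
  have hf1 : (((W⁄K₀).LFunction : ArithmeticFunction ℤ) : ArithmeticFunction ℂ) 1 = 1 := by
    rw [ArithmeticFunction.intCoe_apply]
    exact ri2_one (W⁄K₀)
  have hK : (((W⁄(𝓞 F))⁄F)⁄K) = W⁄K := by
    show ((W.map (algebraMap ℤ (𝓞 F))).map (algebraMap (𝓞 F) F)).map (algebraMap F K) = W.map (algebraMap ℤ K)
    rw [WeierstrassCurve.map_map, WeierstrassCurve.map_map]
    congr 1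
    exact Subsingleton.elim _ _
  have hjF : ∃ j₁ : 𝓞 F, (W⁄(𝓞 F)).c₄ ^ 3 = j₁ * (W⁄(𝓞 F)).Δ := by
    refine ⟨algebraMap ℤ (𝓞 F) j₀, ?_⟩
    show (W.map (algebraMap ℤ (𝓞 F))).c₄ ^ 3 = _ * (W.map (algebraMap ℤ (𝓞 F))).Δ
    rw [WeierstrassCurve.map_c₄, WeierstrassCurve.map_Δ, ← map_pow, hj, map_mul]
  have hsq : ∀ k, ((((W⁄K₀).LFunction : ArithmeticFunction ℤ) : ArithmeticFunction ℂ) *
      (((W⁄K₀).LFunction : ArithmeticFunction ℤ) : ArithmeticFunction ℂ)) k =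
      (H55N.AI (fun a => H55P.PsiP K ψ a) * H55N.AI (fun a => H55P.PsiP K ψ a)) k := by
    intro k
    rw [← lfun_sq (fun v T hT => lf_sq hQ hψ hdeu hsupp hram hj hbad v T hT) k]
    have h1 := H55K.lfun_K (K := K) (W₀ := W⁄(𝓞 F)) hψ hdeu (fun v h => (hsupp v).1 h) hjF
      (fun w hw => by rw [hK]; exact hbad w hw) k
    rw [hK] at h1
    rw [h1, ai_real hQ (psi_cj hψ hdeu hsupp hram)]
  have hfg := H13E.sqrt_unique hf1 (g := H55N.AI (fun a => H55P.PsiP K ψ a)) (ri2_AI_one ψ) hsq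
  rw [← hfg, ArithmeticFunction.intCoe_apply]

end H55K.TQ
end

-- from Lib.H55K.FB3C
section

/-! # H55K: the L-function over K -/

open NumberField IsDedekindDomain WeierstrassCurve

namespace H55K.TQ

open H55P (IQ embF eF LF Per IsHecke Pt ac Inert Dec Nm UnitP)
open H35P (WAB Ker tt GoodW IntW)
open H55K.MG (VC Crd)

variable {F : Type} [Field F] [NumberField F] [IQ F] {W : WeierstrassCurve ℤ} {Om : ℂ}
    {m : Ideal (𝓞 F)} {ψ : Ideal (𝓞 F) →*₀ 𝓞 F} {p : ℕ}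

/-- Chunk FB3C (S/M). The L-series over K₀ which does not contain F: lfun_quad (RI2.lean), hram from hram_of (RF.lean), hbad from bad_K and cur_eq; hj from jint: j₀ in 𝓞 F with c₄^3 = j₀ Δ, so Δ divides c₄^3 in ℤ (an integer divisible by an integer in 𝓞 F: norms or integral closedness of ℤ). Then as in L_valU0 (Z7.lean). -/
theorem jint_Z (hH : BaseH F (W⁄(𝓞 F)) Om m ψ) : ∃ j₀ : ℤ, W.c₄ ^ 3 = j₀ * W.Δ := by
  obtain ⟨j₀, hj⟩ := jint_of hH.data.per hH.data.ell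
  have e1 : (W⁄(𝓞 F)).c₄ = ((W.c₄ : ℤ) : 𝓞 F) := by
    show (W.map (algebraMap ℤ (𝓞 F))).c₄ = _
    rw [WeierstrassCurve.map_c₄]
    rfl
  have e2 : (W⁄(𝓞 F)).Δ = ((W.Δ : ℤ) : 𝓞 F) := by
    show (W.map (algebraMap ℤ (𝓞 F))).Δ = _
    rw [WeierstrassCurve.map_Δ]
    rfl
  have hΔ : W.Δ ≠ 0 := by
    intro h0
    apply hH.data.ell
    rw [e2, h0, Int.cast_zero]
  rw [e1, e2] at hj
  have hj' : ((W.c₄ : ℤ) : F) ^ 3 = (j₀ : F) * ((W.Δ : ℤ) : F) := by
    have h1 := congrArg (algebraMap (𝓞 F) F) hj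
    rw [map_pow, map_mul, map_intCast, map_intCast] at h1
    exact h1
  have hΔF : ((W.Δ : ℤ) : F) ≠ 0 := Int.cast_ne_zero.2 hΔ
  have hΔQ : ((W.Δ : ℤ) : ℚ) ≠ 0 := Int.cast_ne_zero.2 hΔ
  have h3 : algebraMap ℚ F (((W.c₄ : ℤ) : ℚ) ^ 3 / ((W.Δ : ℤ) : ℚ)) = (j₀ : F) := by
    rw [map_div₀, map_pow, map_intCast, map_intCast, hj', mul_div_assoc, div_self hΔF, mul_one]
  have h4 : _root_.IsIntegral ℤ (algebraMap ℚ F (((W.c₄ : ℤ) : ℚ) ^ 3 / ((W.Δ : ℤ) : ℚ))) := by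
    rw [h3]
    exact j₀.isIntegral_coe
  have h5 : _root_.IsIntegral ℤ (((W.c₄ : ℤ) : ℚ) ^ 3 / ((W.Δ : ℤ) : ℚ)) :=
    (isIntegral_algebraMap_iff (algebraMap ℚ F).injective).1 h4
  obtain ⟨y, hy⟩ := (IsIntegrallyClosed.isIntegral_iff (R := ℤ) (K := ℚ)).1 h5
  refine ⟨y, ?_⟩
  have h6 : ((W.c₄ : ℤ) : ℚ) ^ 3 = (y : ℚ) * ((W.Δ : ℤ) : ℚ) := by
    have h7 : (y : ℚ) = ((W.c₄ : ℤ) : ℚ) ^ 3 / ((W.Δ : ℤ) : ℚ) := hy
    rw [h7, div_mul_cancel₀ _ hΔQ]
  exact_mod_cast h6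

theorem lser_Q (hH : BaseH F (W⁄(𝓞 F)) Om m ψ) (hp : PrimeH F (W⁄(𝓞 F)) p) {L : IntermediateField F (AlgebraicClosure F)}
    (hL : H55P.PExt p ⊥ L) (K₀ : Type) [Field K₀] [NumberField K₀] (K' : IntermediateField F (AlgebraicClosure F)) [NumberField K']
    [Algebra K₀ K'] (hK : K' ≤ L) (hQ : QuadG F K₀ K') (Φ : ℂ → ℂ)
    (hΦ : ∀ s : ℂ, 3 / 2 < s.re → HasSum (H55N.tm (H55P.PsiP K' ψ) s) (Φ s)) (s : ℂ) (hs : 3 / 2 < s.re) :
    LSeriesHasSum (fun n => (((W⁄K₀).LFunction n : ℤ) : ℂ)) s (Φ s) := by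
  obtain ⟨j₀, hj⟩ := jint_Z hH
  have hbad : ∀ w : HeightOneSpectrum (𝓞 K'), H55P.mK K' m ≤ w.asIdeal → ¬ GoodAt (W⁄K') w := by
    intro w hw
    have h1 := bad_K hH hp hL hK w hw
    rw [cur_eq K'] at h1
    exact h1
  have hA : ∀ n : ℕ, (((W⁄K₀).LFunction n : ℤ) : ℂ) = H55N.AI (fun a => H55P.PsiP K' ψ a) n :=
    fun n => lfun_quad hQ hH.data.hecke (fun v hv _ => hH.deu v hv) hH.supp (hram_of hH) hj hbad n
  have h0 : H55P.PsiP K' ψ ⊥ = 0 := (H55P.PsiP K' ψ).map_zero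
  have h1 := H55N.AI_LSeries (fun a => H55P.PsiP K' ψ a) h0 s
    (H55N.tm_summable _ (H55P.PsiP_norm_le hH.data.hecke) s hs)
  have h2 : ∑' a : Ideal (𝓞 K'), H55N.tm (fun a => H55P.PsiP K' ψ a) s a = Φ s := (hΦ s hs).tsum_eq
  rw [h2] at h1
  have e1 : (fun n => (((W⁄K₀).LFunction n : ℤ) : ℂ)) = fun n => H55N.AI (fun a => H55P.PsiP K' ψ a) n :=
    funext hA
  rw [e1]
  exact h1

end H55K.TQ
end

-- from Lib.H55K.FB4
section

/-! # H55K: the L-function over K in terms of the Hecke L-series -/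

open NumberField IsDedekindDomain WeierstrassCurve

namespace H55K.TQ

open H55P (IQ embF eF LF Per IsHecke Pt ac Inert Dec Nm UnitP)
open H35P (WAB Ker tt GoodW IntW)
open H55K.MG (VC Crd)

variable {F : Type} [Field F] [NumberField F] [IQ F] {W : WeierstrassCurve ℤ} {Om : ℂ}
    {m : Ideal (𝓞 F)} {ψ : Ideal (𝓞 F) →*₀ 𝓞 F} {p : ℕ}

/-- The relation between the L-function over K and the Hecke L-series over KG: two cases. -/
def LRel (W : WeierstrassCurve ℤ) (ψ : Ideal (𝓞 F) →*₀ 𝓞 F) (K : Type) [Field K] [NumberField K] (K' : IntermediateField F (AlgebraicClosure F))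
    [NumberField K'] : Prop :=
  (Module.finrank ℚ K = 2 * Module.finrank F K' ∧
    ∀ Φ : ℂ → ℂ, (∀ s : ℂ, 3 / 2 < s.re → HasSum (H55N.tm (H55P.PsiP K' ψ) s) (Φ s)) → ∀ s : ℂ, 3 / 2 < s.re →
      LSeriesHasSum (fun n => (((W⁄K).LFunction n : ℤ) : ℂ)) s (Φ s * (starRingEnd ℂ) (Φ ((starRingEnd ℂ) s)))) ∨
  (Module.finrank ℚ K = Module.finrank F K' ∧
    ∀ Φ : ℂ → ℂ, (∀ s : ℂ, 3 / 2 < s.re → HasSum (H55N.tm (H55P.PsiP K' ψ) s) (Φ s)) → ∀ s : ℂ, 3 / 2 < s.re →
      LSeriesHasSum (fun n => (((W⁄K).LFunction n : ℤ) : ℂ)) s (Φ s))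

/-- Chunk FB4 (S/M). kg_dich (RP2.lean): first case kg_iso (RP3.lean), lser_F, the degree: θ and [F : ℚ] = 2 (IQ.deg); second case lser_Q and quad_deg (RP3.lean). -/
theorem lrel (hH : BaseH F (W⁄(𝓞 F)) Om m ψ) (hp : PrimeH F (W⁄(𝓞 F)) p) {L : IntermediateField F (AlgebraicClosure F)}
    (hL : H55P.PExt p ⊥ L) (K : Type) [Field K] [NumberField K] (ι : K →ₐ[ℚ] AlgebraicClosure F) [NumberField (KG F K ι)]
    (hK : KG F K ι ≤ L) : LRel W ψ K (KG F K ι) := by
  rcases kg_dich F K ι with ⟨f, hf⟩ | hQ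
  · left
    letI : Algebra F K := f.toAlgebra
    obtain ⟨θ⟩ := kg_iso F K ι f hf
    refine ⟨?_, fun Φ hΦ s hs => lser_F hH hp hL K (KG F K ι) hK θ Φ hΦ s hs⟩
    have h1 := Module.finrank_mul_finrank ℚ F K
    have h2 : Module.finrank F K = Module.finrank F (KG F K ι) := θ.toLinearEquiv.finrank_eq
    have h3 : Module.finrank ℚ F = 2 := IQ.deg
    rw [h3, h2] at h1
    exact h1.symm
  · right
    letI : Algebra K (KG F K ι) := (KGmap F K ι).toAlgebra
    exact ⟨quad_deg F hQ, fun Φ hΦ s hs => lser_Q hH hp hL K (KG F K ι) hK hQ Φ hΦ s hs⟩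

end H55K.TQ
end

-- from Lib.H55P.Gen
section

/-!
# H55P: the inheritance theorem for all curves with complex multiplication by the integers of a field of class number one
-/

open NumberField IsDedekindDomain WeierstrassCurve

namespace H55P

open H55N (tm ident tm_summable AI AI_LSeries H8_tm)

section gen

variable {F : Type} [Field F] [NumberField F] [IQ F]

/-- An integer of F of norm prime to p is a unit above p. -/
theorem gen_unit (p : ℕ) (hp : p.Prime) (z : 𝓞 F) (hz : ¬ p ∣ Ideal.absNorm (Ideal.span {z}))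
    (V : ValuationSubring ℂ) (hV : V.valuation (p : ℂ) < 1) :
    V.valuation (eF F z) = 1 ∧ V.valuation ((starRingEnd ℂ) (eF F z)) = 1 := by
  have h1 := PT1_int (eF F) z V
  have h2 := PT1_int ((starRingEnd ℂ).comp (eF F)) z V
  have h2' : V.valuation ((starRingEnd ℂ) (eF F z)) ≤ 1 := h2
  have h3 : eF F z * (starRingEnd ℂ) (eF F z) = (Ideal.absNorm (Ideal.span {z}) : ℂ) := by
    rw [Complex.mul_conj, Complex.normSq_eq_norm_sq, ← Nm_eq]
    unfold Nm
    norm_cast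
  have h4 := val_nat p hp V hV _ hz
  rw [← h3, map_mul] at h4
  constructor
  · refine le_antisymm h1 ?_
    by_contra hlt
    have h5 := mul_lt_one_of_nonneg_of_lt_one_left zero_le (not_le.1 hlt) h2'
    rw [h4] at h5
    exact lt_irrefl _ h5
  · refine le_antisymm h2' ?_
    by_contra hlt
    have h5 := mul_lt_one_of_nonneg_of_lt_one_right h1 zero_le (not_le.1 hlt)
    rw [h4] at h5
    exact lt_irrefl _ h5

/-- An integer of F prime to p is a unit above p. -/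
theorem gen_cop (p : ℕ) (z : 𝓞 F) (hz : IsCoprime (Ideal.span {z}) (Ideal.span {(p : 𝓞 F)}))
    (V : ValuationSubring ℂ) (hV : V.valuation (p : ℂ) < 1) : V.valuation (eF F z) = 1 := by
  rw [Ideal.isCoprime_span_singleton_iff] at hz
  obtain ⟨a, b, hab⟩ := hz
  have h1 : eF F a * eF F z + eF F b * (p : ℂ) = 1 := by
    rw [← map_natCast (eF F) p, ← map_mul, ← map_mul, ← map_add, hab, map_one]
  have ha := PT1_int (eF F) a V
  have hb := PT1_int (eF F) b V
  have hz := PT1_int (eF F) z V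
  refine le_antisymm hz ?_
  by_contra hlt
  have h5 : V.valuation (eF F a * eF F z) < 1 := by
    rw [map_mul]
    exact mul_lt_one_of_nonneg_of_lt_one_right ha zero_le (not_le.1 hlt)
  have h6 : V.valuation (eF F b * (p : ℂ)) < 1 := by
    rw [map_mul]
    exact mul_lt_one_of_nonneg_of_lt_one_right hb zero_le hV
  have h7 := V.valuation.map_add_lt h5 h6
  rw [h1, map_one] at h7
  exact lt_irrefl _ h7

/-- The short equation is good at V. -/
theorem gen_good (p : ℕ) (hp : p.Prime) (h5 : 5 ≤ p) (W₀ : WeierstrassCurve (𝓞 F))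
    (hΔ : IsCoprime (Ideal.span {W₀.Δ}) (Ideal.span {(p : 𝓞 F)}))
    (V : ValuationSubring ℂ) (hV : V.valuation (p : ℂ) < 1) :
    GoodV (-(eF F W₀.c₄) / 48) (-(eF F W₀.c₆) / 864) V := by
  obtain ⟨h3, h2⟩ := val3 p hp h5 V hV
  have h48 : V.valuation (48 : ℂ) = 1 := by
    have e : (48 : ℂ) = 2 * 2 * 2 * 2 * 3 := by norm_num
    rw [e]
    simp only [map_mul, h2, h3, one_mul]
  have h864 : V.valuation (864 : ℂ) = 1 := by
    have e : (864 : ℂ) = 2 * 2 * 2 * 2 * 2 * 3 * 3 * 3 := by norm_num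
    rw [e]
    simp only [map_mul, h2, h3, one_mul]
  have h16 : V.valuation (16 : ℂ) = 1 := by
    have e : (16 : ℂ) = 2 * 2 * 2 * 2 := by norm_num
    rw [e]
    simp only [map_mul, h2, one_mul]
  refine ⟨?_, ?_, h2, ?_⟩
  · rw [← V.valuation_le_one_iff, map_div₀, Valuation.map_neg, h48, div_one]
    exact PT1_int (eF F) _ V
  · rw [← V.valuation_le_one_iff, map_div₀, Valuation.map_neg, h864, div_one]
    exact PT1_int (eF F) _ V
  · have h1 : (1728 : ℂ) * eF F W₀.Δ = eF F W₀.c₄ ^ 3 - eF F W₀.c₆ ^ 2 := by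
      have := congrArg (eF F) W₀.c_relation
      rw [map_mul, map_sub, map_pow, map_pow, map_ofNat] at this
      exact this
    have h2 : (4 : ℂ) * (-(eF F W₀.c₄) / 48) ^ 3 + 27 * (-(eF F W₀.c₆) / 864) ^ 2 =
        -(eF F W₀.Δ) / 16 := by
      linear_combination (1 / 27648 : ℂ) * h1
    rw [h2, map_div₀, Valuation.map_neg, h16, div_one]
    exact gen_cop p _ hΔ V hV

/-- One continuation for all valuations above p. -/
theorem gen_glue {K : Type} [Field K] [NumberField K] [Algebra F K] {p : ℕ} (hp : p.Prime)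
    {Om : ℂ} {h : Ideal (𝓞 K) →*₀ ℂ}
    (hL : ∀ V : ValuationSubring ℂ, V.valuation (p : ℂ) < 1 → LVP F V Om h) :
    ∃ Λ : ℂ → ℂ, AnalyticOnNhd ℂ Λ {s | 1 / 2 < s.re} ∧
      (∀ s : ℂ, 3 / 2 < s.re → HasSum (tm h s) (Λ s)) ∧ Λ 1 ≠ 0 ∧
      UnitP p (Λ 1 / Om ^ Module.finrank F K) := by
  obtain ⟨V₀, hV₀⟩ := exists_above_p p hp
  obtain ⟨L, hLa, hLs, -⟩ := hL V₀ hV₀
  have hu : UnitP p (L 1 / Om ^ Module.finrank F K) := by
    intro V hV
    obtain ⟨L', hLa', hLs', hV'⟩ := hL V hV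
    have h1 : L 1 = L' 1 := ident L L' hLa hLa' (fun s hs => (hLs s hs).unique (hLs' s hs)) 1
      (by norm_num)
    rw [h1]
    exact hV'
  exact ⟨L, hLa, hLs, (div_ne_zero_iff.1 (pz6_ne hp hu)).1, hu⟩

omit [NumberField F] [IQ F] in
theorem gen_ell (W₀ : WeierstrassCurve (𝓞 F)) (h : W₀.Δ ≠ 0) : (W₀⁄F).IsElliptic := by
  have e : (W₀⁄F).Δ = algebraMap (𝓞 F) F W₀.Δ := W₀.map_Δ (algebraMap (𝓞 F) F)
  rw [WeierstrassCurve.isElliptic_iff, e]
  exact IsUnit.mk0 _ fun h0 => h ((map_eq_zero_iff _ (FaithfulSMul.algebraMap_injective (𝓞 F) F)).1 h0)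

/-- The L-function from the two L-series. -/
theorem gen_lval (p : ℕ) (hp : p.Prime) (W₀ : WeierstrassCurve (𝓞 F)) (Om : ℂ) {m : Ideal (𝓞 F)}
    {ψ : Ideal (𝓞 F) →*₀ 𝓞 F} (h : IsHecke m ψ) (K : IntermediateField F (AlgebraicClosure F))
    [NumberField K] (hV : ValG p Om ψ K) (hD : DeuG W₀ ψ K) : LvalG p W₀ Om K := by
  obtain ⟨L, hLa, hLs, hL0, hL1⟩ := hV
  have hval : UnitP p ((L 1 * (starRingEnd ℂ) (L ((starRingEnd ℂ) 1))) /
      ((‖Om‖ ^ 2 : ℝ) : ℂ) ^ Module.finrank F K) := by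
    have e0 : ((‖Om‖ ^ 2 : ℝ) : ℂ) = Om * (starRingEnd ℂ) Om := by
      rw [Complex.mul_conj, Complex.normSq_eq_norm_sq]
    have e1 : (L 1 * (starRingEnd ℂ) (L ((starRingEnd ℂ) 1))) /
        ((‖Om‖ ^ 2 : ℝ) : ℂ) ^ Module.finrank F K =
        (L 1 / Om ^ Module.finrank F K) *
          (starRingEnd ℂ) (L 1 / Om ^ Module.finrank F K) := by
      rw [e0, map_one, map_div₀, map_pow, mul_pow, mul_div_mul_comm]
    rw [e1]
    intro V hV
    rw [map_mul, hL1 V hV, pz6_conj hp (pz6_ne hp hL1) hL1 V hV, one_mul]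
  refine ⟨fun z => L z * (starRingEnd ℂ) (L ((starRingEnd ℂ) z)), hLa.mul (H55B.I4_conj hLa), ?_, ?_,
    hval⟩
  · intro z hz
    have hz' : 3 / 2 < ((starRingEnd ℂ) z).re := by simpa using hz
    have h0 : PsiP K ψ ⊥ = 0 := (PsiP K ψ).map_zero
    have h1 := AI_LSeries (fun a => PsiP K ψ a) h0 z (tm_summable _ (PsiP_norm_le h) z hz)
    have h2 := AI_LSeries (fun a => (starRingEnd ℂ) (PsiP K ψ a)) (by rw [h0, map_zero]) z
      (tm_summable _ (fun a => by rw [RCLike.norm_conj]; exact PsiP_norm_le h a) z hz)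
    have e1 : ∑' a, tm (fun a => PsiP K ψ a) z a = L z := (hLs z hz).tsum_eq
    have e2 : ∑' a, tm (fun a => (starRingEnd ℂ) (PsiP K ψ a)) z a =
        (starRingEnd ℂ) (L ((starRingEnd ℂ) z)) := by
      have h3 := (Complex.hasSum_conj').2 (hLs _ hz')
      have h4 := h3.tsum_eq
      rw [← h4]
      exact tsum_congr fun a => H8_tm _ z a
    rw [e1] at h1
    rw [e2] at h2
    have h3 := ArithmeticFunction.LSeriesHasSum_mul h1 h2
    have e3 : (fun n => ((((W₀⁄F)⁄K).LFunction n : ℤ) : ℂ)) = fun n =>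
        (AI (PsiP K ψ) * AI (fun a => (starRingEnd ℂ) (PsiP K ψ a))) n :=
      funext fun n => hD n
    have key : LSeriesHasSum (fun n => ((((W₀⁄F)⁄K).LFunction n : ℤ) : ℂ)) z
        (L z * (starRingEnd ℂ) (L ((starRingEnd ℂ) z))) := by
      rw [e3]
      exact h3
    exact ⟨key.LSeriesSummable, key.LSeries_eq.symm⟩
  · have h1 := pz6_ne hp hval
    exact (div_ne_zero_iff.1 h1).1

/-- Units at all valuations above p. -/
theorem gen_conv (p : ℕ) (hp : p.Prime) (z : 𝓞 F)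
    (h : ∀ V : ValuationSubring ℂ, V.valuation (p : ℂ) < 1 → V.valuation (eF F z) = 1) :
    ¬ p ∣ Ideal.absNorm (Ideal.span {z}) := by
  intro hd
  obtain ⟨V, hV⟩ := exists_above_p p hp
  have h1 := h V hV
  have h2 := pz6_conj hp (pz6_ne hp h) h V hV
  have h3 : eF F z * (starRingEnd ℂ) (eF F z) = (Ideal.absNorm (Ideal.span {z}) : ℂ) := by
    rw [Complex.mul_conj, Complex.normSq_eq_norm_sq, ← Nm_eq]
    unfold Nm
    norm_cast
  have h4 : V.valuation ((Ideal.absNorm (Ideal.span {z}) : ℕ) : ℂ) = 1 := by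
    rw [← h3, map_mul, h1, h2, one_mul]
  obtain ⟨t, ht⟩ := hd
  rw [ht, Nat.cast_mul, map_mul] at h4
  have h5 := mul_lt_one_of_lt_of_le hV (pt9_nat V t)
  rw [h4] at h5
  exact lt_irrefl _ h5

/-- The auxiliary ideal. -/
theorem gen_ntp (p : ℕ) (hp : p.Prime) {W₀ : WeierstrassCurve (𝓞 F)} {m : Ideal (𝓞 F)}
    {ψ : Ideal (𝓞 F) →*₀ 𝓞 F} (M : IntermediateField F (AlgebraicClosure F)) [NumberField M]
    (v₀ : HeightOneSpectrum (𝓞 M)) (hv₀ : GoodG p W₀ m ψ M v₀) (V : ValuationSubring ℂ)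
    (hV : V.valuation (p : ℂ) < 1) : NTP M p m ψ V := by
  refine ⟨v₀.asIdeal, ?_, ?_, ?_⟩
  · rw [PT1_max _ _ v₀.isMaximal]
    intro h
    exact hv₀.res (h (Ideal.mem_span_singleton_self _))
  · rw [PT1_max _ _ v₀.isMaximal]
    exact hv₀.modulus
  · have h1 := (gen_unit p hp _ hv₀.hecke V hV).2
    rw [PsiP_apply]
    rwa [map_sub, map_one, map_sub, map_one] at h1

section crit

variable (W₀ : WeierstrassCurve (𝓞 F)) (Om : ℂ) (m : Ideal (𝓞 F)) (ψ : Ideal (𝓞 F) →*₀ 𝓞 F)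
  (hC : CMData F W₀ Om m ψ) (p : ℕ) (hp : p.Prime) (h5 : 5 ≤ p)
  (hcop : IsCoprime (Ideal.span {W₀.Δ} * m) (Ideal.span {(p : 𝓞 F)}))
  (M L : IntermediateField F (AlgebraicClosure F)) [NumberField M] (hL : PExt p M L)
  (hex : ∃ v, GoodG p W₀ m ψ M v)
  (K : IntermediateField F (AlgebraicClosure F)) [NumberField K] (hMK : M ≤ K) (hKL : K ≤ L)

include hC hp h5 hcop hL hex hMK hKL

/-- Integrality over K. -/
theorem gen_int (hU : UnrP p K) : IntG p Om ψ K := by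
  have hLf : FiniteDimensional F L := hL.fin
  have hm : IsCoprime m (Ideal.span {(p : 𝓞 F)}) := hcop.of_mul_left_right
  have hΔ : IsCoprime (Ideal.span {W₀.Δ}) (Ideal.span {(p : 𝓞 F)}) := hcop.of_mul_left_left
  obtain ⟨v₀, hv₀⟩ := hex
  letI iMK : Algebra M K := (IntermediateField.inclusion hMK).toRingHom.toAlgebra
  have hst : IsScalarTower F M K := alg_tower M K hMK
  obtain ⟨j, hj⟩ := pext_deg p hp M K L hL hMK hKL
  have hI : ∀ V : ValuationSubring ℂ, V.valuation (p : ℂ) < 1 → LVI F V Om (PsiP K ψ) := fun V hV =>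
    LVI_base p hp hC.hecke hm hU _ _ Om hC.per V hV (gen_good p hp h5 W₀ hΔ V hV)
      (NTP_up M K p hp j hj V hV (gen_ntp p hp M v₀ hv₀ V hV))
  obtain ⟨V₀, hV₀⟩ := exists_above_p p hp
  obtain ⟨Λ, h1, h2, -⟩ := hI V₀ hV₀
  refine ⟨Λ, h1, h2, fun V hV => ?_⟩
  obtain ⟨Λ', h1', h2', h3'⟩ := hI V hV
  have h6 : Λ 1 = Λ' 1 := ident Λ Λ' h1 h1' (fun s hs => (h2 s hs).unique (h2' s hs)) 1
    (by norm_num)
  rw [h6, ← ValuationSubring.valuation_le_one_iff]
  exact h3'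

open Classical in
/-- The exact criterion for the L-values. -/
theorem gen_crit (hU : UnrP p K) : ValG p Om ψ K ↔ ValG p Om ψ M ∧
    ∀ v : HeightOneSpectrum (𝓞 M), Ram M K v.asIdeal →
      ¬ p ∣ Ideal.absNorm (Ideal.span {1 - ψ (Ideal.relNorm (𝓞 F) v.asIdeal)}) := by
  have hLf : FiniteDimensional F L := hL.fin
  have hLn : NumberField L := H16C.FR_numberField L
  have hm : IsCoprime m (Ideal.span {(p : 𝓞 F)}) := hcop.of_mul_left_right
  have hΔ : IsCoprime (Ideal.span {W₀.Δ}) (Ideal.span {(p : 𝓞 F)}) := hcop.of_mul_left_left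
  obtain ⟨v₀, hv₀⟩ := hex
  have key := fun (V : ValuationSubring ℂ) (hV : V.valuation (p : ℂ) < 1) =>
    LVP_tower_iff p hp M L hL hC.hecke hm _ _ Om hC.per V hV (gen_good p hp h5 W₀ hΔ V hV)
      (gen_ntp p hp M v₀ hv₀ V hV) K hMK hKL hU
  have hfac : ∀ v : HeightOneSpectrum (𝓞 M),
      1 - (starRingEnd ℂ) (PsiP M ψ v.asIdeal) =
        eF F (1 - ψ (Ideal.relNorm (𝓞 F) v.asIdeal)) := fun v => by
    rw [PsiP_apply, Complex.conj_conj, map_sub, map_one]
  constructor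
  · rintro ⟨Λ, a1, a2, -, a4⟩
    have h1 := fun V hV => (key V hV).1 ⟨Λ, a1, a2, a4 V hV⟩
    refine ⟨gen_glue hp fun V hV => (h1 V hV).1, fun v hv => gen_conv p hp _ fun V hV => ?_⟩
    rw [← hfac v]
    exact (h1 V hV).2 v hv
  · rintro ⟨⟨Λ, a1, a2, -, a4⟩, h2⟩
    refine gen_glue hp fun V hV => (key V hV).2 ⟨⟨Λ, a1, a2, a4 V hV⟩, fun v hv => ?_⟩
    rw [hfac v]
    exact (gen_unit p hp _ (h2 v hv) V hV).1



end crit

end gen

end H55P
end

-- from Lib.H55K.QP2C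
section

/-! # H55K: the complex and the real period are p-adic units times the periods -/

open NumberField IsDedekindDomain WeierstrassCurve

namespace H55K.TQ

open H55P (IQ embF eF LF Per IsHecke Pt ac Inert Dec Nm UnitP)
open H35P (WAB Ker tt GoodW IntW)
open H55K.MG (VC Crd)

variable {F : Type} [Field F] [NumberField F] [IQ F] {W : WeierstrassCurve ℤ} {Om : ℂ} {L : PeriodPair} {p : ℕ}

/-- A prime element dividing p and its conjugate: if both divide α then p divides α. -/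
theorem qp2c_dvd (hp : p.Prime) (hU : H55P.UnrP p F) {l α : 𝓞 F} (hl : Prime l) (hlp : l ∣ (p : 𝓞 F))
    (h1 : l ∣ α) (h2 : H55K.cj l ∣ α) : (p : 𝓞 F) ∣ α := by
  have hNl : l * H55K.cj l = (H55P.Nm l : 𝓞 F) := H55K.mul_cj l
  have hpN : p ∣ H55P.Nm l := by
    by_contra hn
    have hcop : IsCoprime (p : ℤ) (H55P.Nm l : ℤ) := by
      rw [Nat.isCoprime_iff_coprime]
      exact (Nat.Prime.coprime_iff_not_dvd hp).2 hn
    obtain ⟨a, b, hab⟩ := hcop
    have h3 : (a : 𝓞 F) * (p : 𝓞 F) + (b : 𝓞 F) * (H55P.Nm l : 𝓞 F) = 1 := by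
      have := congrArg (fun z : ℤ => (z : 𝓞 F)) hab
      push_cast at this
      exact this
    have h4 : l ∣ 1 := by
      rw [← h3]
      refine dvd_add (Dvd.dvd.mul_left hlp _) (Dvd.dvd.mul_left ?_ _)
      rw [← hNl]
      exact dvd_mul_right _ _
    exact hl.not_unit (isUnit_of_dvd_one h4)
  have hpd : (p : 𝓞 F) ∣ l * H55K.cj l := by
    rw [hNl]
    exact_mod_cast Nat.cast_dvd_cast hpN
  have hcl : Prime (H55K.cj l) := H55K.cj_prime hl
  by_cases hass : H55K.cj l ∣ l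
  · -- associated
    obtain ⟨μ, hμ⟩ := hlp
    obtain ⟨u, hu⟩ := (hcl.associated_of_dvd hl hass)
    have h5 : l * μ ∣ l * H55K.cj l := by
      rw [← hμ]
      exact hpd
    have h6 : μ ∣ H55K.cj l := (mul_dvd_mul_iff_left hl.ne_zero).1 h5
    rcases (hcl.irreducible).dvd_iff.1 h6 with h7 | h7
    · obtain ⟨m, rfl⟩ := h7
      rw [hμ]
      exact (Units.mul_right_dvd).2 h1
    · exfalso
      have h8 : Associated (l * l) (p : 𝓞 F) := by
        rw [hμ]
        exact Associated.mul_left l ((show Associated (H55K.cj l) l from ⟨u, hu⟩).symm.trans h7)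
      have h9 : Ideal.span {l} * Ideal.span {l} ∣ Ideal.span {(p : 𝓞 F)} := by
        rw [Ideal.span_singleton_mul_span_singleton, (Ideal.span_singleton_eq_span_singleton.2 h8)]
      have h10 := hU _ h9
      rw [Ideal.isUnit_iff, Ideal.span_singleton_eq_top] at h10
      exact hl.not_unit h10
  · obtain ⟨b, rfl⟩ := h1
    have h3 : H55K.cj l ∣ b := (hcl.dvd_or_dvd h2).resolve_left hass
    exact hpd.trans (mul_dvd_mul_left l h3)

/-- Chunk QP2C (M). Omr L = Om α (lat_W). α is prime to p: suppose a prime element λ dividing p divides α. conj (Om α) = Om α gives cj α η = α, so cj λ divides α as well. If λ and cj λ are not associated then λ cj λ = Nm λ divides α and p divides Nm λ, so p divides α. If they are associated: Nm λ = λ cj λ is associated to λ^2; Nm λ = p or p^2; Nm λ = p is impossible because p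
is not in λ^2 (unramified: squarefree), so Nm λ = p^2 = Nm p, λ divides p, so λ is associated to p and p divides α. So α = p β, Om β = Omr L/p is a real positive element of the lattice smaller than Omr L: contradiction (omr_mem). So α is prime to p: eF α is a unit at every V above p (H55P.gen_cop in Gen.lean or gen_unit). The factor 1 or 2 of OmP is a unit (p ≥ 5). -/
theorem omr_unit (hper : PerW F W Om) (hL : PerZ W L) (hp : p.Prime) (h5 : 5 ≤ p) (hU : H55P.UnrP p F) :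
    UnitP p ((OmP W L : ℂ) / Om) := by
  obtain ⟨hpos, hmem, hmin⟩ := omr_mem hL
  obtain ⟨α, hα⟩ := (lat_W hper hL _).1 hmem
  obtain ⟨η, hη⟩ := om_conj hper hL
  have hOm : Om ≠ 0 := hper.ne
  have h1 : (η : 𝓞 F) * H55K.cj α = α := by
    have h2 : (starRingEnd ℂ) ((H55D.Omr L : ℝ) : ℂ) = ((H55D.Omr L : ℝ) : ℂ) := Complex.conj_ofReal _
    rw [hα, map_mul, hη] at h2
    apply H55P.eF_inj
    rw [map_mul, H55K.e_cj]
    refine mul_left_cancel₀ hOm ?_
    rw [← h2]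
    ring
  have hα0 : α ≠ 0 := by
    rintro rfl
    rw [map_zero, mul_zero] at hα
    exact hpos.ne' (by exact_mod_cast hα)
  have hp0 : (p : ℂ) ≠ 0 := by exact_mod_cast hp.ne_zero
  have hnd : ¬(p : 𝓞 F) ∣ α := by
    rintro ⟨β, rfl⟩
    have h3 : ((H55D.Omr L / p : ℝ) : ℂ) ∈ L.lattice := by
      refine (lat_W hper hL _).2 ⟨β, ?_⟩
      rw [Complex.ofReal_div, hα, map_mul, map_natCast, Complex.ofReal_natCast]
      field_simp
    have hpR : (5 : ℝ) ≤ (p : ℝ) := by exact_mod_cast h5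
    have h4 := hmin _ (div_pos hpos (by linarith)) h3
    rw [le_div_iff₀ (by linarith)] at h4
    nlinarith
  have hcop : IsCoprime α (p : 𝓞 F) := by
    refine isCoprime_of_prime_dvd (fun h => hα0 h.1) fun l hl hla hlp => hnd ?_
    refine qp2c_dvd hp hU hl hlp hla ?_
    rw [H55K.cj_dvd]
    rw [← h1] at hla
    exact (hl.dvd_or_dvd hla).resolve_left fun h => hl.not_unit (isUnit_of_dvd_unit h η.isUnit)
  intro V hV
  have hV1 : V.valuation (eF F α) = 1 := H55P.gen_cop p α ((Ideal.isCoprime_span_singleton_iff _ _).2 hcop) V hV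
  have hV2 : V.valuation (2 : ℂ) = 1 := by
    have := H55P.val_nat p hp V hV 2 (fun h => by
      have := Nat.le_of_dvd (by norm_num) h
      omega)
    exact_mod_cast this
  have e : (OmP W L : ℂ) / Om = (if 0 < W.Δ then 2 else 1) * eF F α := by
    unfold OmP
    rw [Complex.ofReal_mul, hα]
    have e2 : (((if 0 < W.Δ then 2 else 1 : ℝ)) : ℂ) = if 0 < W.Δ then 2 else 1 := by
      split_ifs <;> simp
    rw [e2]
    field_simp
  rw [e, map_mul, hV1, mul_one]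
  split_ifs
  · exact hV2
  · exact map_one _

end H55K.TQ
end

-- from Lib.H55K.QS2
section

/-! # H55K: the value of the analytic order of the Tate-Shafarevich group -/

open NumberField IsDedekindDomain WeierstrassCurve

namespace H55K.TQ

open H55P (IQ embF eF LF Per IsHecke Pt ac Inert Dec Nm UnitP)
open H35P (WAB Ker tt GoodW IntW)
open H55K.MG (VC Crd)

variable {F : Type} [Field F] [NumberField F] [IQ F] {W : WeierstrassCurve ℤ} {Om : ℂ} {L : PeriodPair} {p : ℕ}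

theorem qs2_discr (p : ℕ) (hp : p.Prime) {K : Type} [Field K] [NumberField K] (hU : H55P.UnrP p K)
    (V : ValuationSubring ℂ) (hV : V.valuation (p : ℂ) < 1) :
    V.valuation ((Real.sqrt |(NumberField.discr K : ℝ)| : ℝ) : ℂ) = 1 := by
  have h0 := H55P.pl1_discr p hp hU
  obtain ⟨D, hD⟩ : ∃ D, D = NumberField.discr K := ⟨_, rfl⟩
  rw [← hD] at h0 ⊢
  have h1 : (((Real.sqrt |(D : ℝ)| : ℝ) : ℂ)) ^ 2 = ((D.natAbs : ℕ) : ℂ) := by
    rw [← Complex.ofReal_pow, Real.sq_sqrt (abs_nonneg _), ← Int.cast_abs, Int.abs_eq_natAbs]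
    simp only [Int.cast_natCast, Complex.ofReal_natCast]
  have h2 := H55P.val_nat p hp V hV D.natAbs (fun hd => h0 (Int.natCast_dvd.2 hd))
  rw [← h1, map_pow] at h2
  exact (pow_eq_one_iff_of_nonneg zero_le two_ne_zero).1 h2


end H55K.TQ
end

-- from Lib.H55K.FB6A
section

/-! # H55K: the analytic part over K and the Hecke L-value -/

open NumberField IsDedekindDomain WeierstrassCurve

namespace H55K.TQ

open H55P (IQ embF eF LF Per IsHecke Pt ac Inert Dec Nm UnitP)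
open H35P (WAB Ker tt GoodW IntW)
open H55K.MG (VC Crd)

variable {F : Type} [Field F] [NumberField F] [IQ F] {W : WeierstrassCurve ℤ} {Om : ℂ}
    {m : Ideal (𝓞 F)} {ψ : Ideal (𝓞 F) →*₀ 𝓞 F} {p : ℕ}

/-- Chunk FB6A (S). shaG = lG #E^2. -/
theorem shaG_lG (K : Type) [Field K] [NumberField K] (W : WeierstrassCurve ℤ) (L : PeriodPair) (L1 : ℂ) :
    shaG K W L L1 = lG K W L L1 * (Nat.card (W⁄K).toAffine.Point : ℂ) ^ 2 := by
  unfold shaG lG
  ring

/-- Chunk FB6A (S). As sha_val (QS2.lean) without the points (same proof; or cancel if the number of points is not 0). -/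
theorem lG_val (K : Type) [Field K] [NumberField K] {L : PeriodPair} (hper : PerW F W Om) (hL : PerZ W L) (hp : p.Prime) (h5 : 5 ≤ p)
    (hF : H55P.UnrP p F) (hK : H55P.UnrP p K) (hΔ : ¬ (p : ℤ) ∣ W.Δ) (hj : ∃ j₀ : ℤ, W.c₄ ^ 3 = j₀ * W.Δ) (L1 : ℂ)
    (V : ValuationSubring ℂ) (hV : V.valuation (p : ℂ) < 1) :
    V.valuation (lG K W L L1) = V.valuation (L1 / Om ^ Module.finrank ℚ K) := by
  have hOm : Om ≠ 0 := hper.ne
  have hVO : V.valuation Om ≠ 0 := (Valuation.ne_zero_iff _).2 hOm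
  have h1 : V.valuation ((Real.sqrt |(NumberField.discr K : ℝ)| : ℝ) : ℂ) = 1 :=
    qs2_discr p hp hK V hV
  have h2 := prod_W (W := W) K hp h5 hΔ hj V hV
  have h3 : V.valuation (OmP W L : ℂ) = V.valuation Om := by
    have h := omr_unit hper hL hp h5 hF V hV
    rw [map_div₀] at h
    exact (div_eq_one_iff_eq hVO).1 h
  have h4 : V.valuation (H55C.Om L : ℂ) = V.valuation Om ^ 2 := by
    have h := (om_unit hper hL hp hF).2 V hV
    rw [map_div₀, map_pow] at h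
    exact (div_eq_one_iff_eq (pow_ne_zero 2 hVO)).1 h
  have h5' := NumberField.InfinitePlace.card_add_two_mul_card_eq_rank K
  rw [lG, map_div₀, map_mul, map_mul, map_mul, map_pow, map_pow, h1, h2, h3, h4,
    mul_one, mul_one, map_div₀, map_pow, ← h5', ← pow_mul, ← pow_add]

end H55K.TQ
end

-- from Lib.H55K.FB6B
section

/-! # H55K: the analytic part over K and the Hecke L-value -/

open NumberField IsDedekindDomain WeierstrassCurve

namespace H55K.TQ

open H55P (IQ embF eF LF Per IsHecke Pt ac Inert Dec Nm UnitP)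
open H35P (WAB Ker tt GoodW IntW)
open H55K.MG (VC Crd)

variable {F : Type} [Field F] [NumberField F] [IQ F] {W : WeierstrassCurve ℤ} {Om : ℂ}
    {m : Ideal (𝓞 F)} {ψ : Ideal (𝓞 F) →*₀ 𝓞 F} {p : ℕ}

/-- The value at 1 of an L-series with integral coefficients is real. -/
theorem fb6b_real (K : Type) [Field K] [NumberField K] {Φ : ℂ → ℂ} (hΦa : AnalyticOnNhd ℂ Φ {s | 1 / 2 < s.re})
    (hser : ∀ s : ℂ, 3 / 2 < s.re → LSeriesHasSum (fun n => (((W⁄K).LFunction n : ℤ) : ℂ)) s (Φ s)) :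
    (starRingEnd ℂ) (Φ 1) = Φ 1 := by
  have h := H55N.TW1_ident (1 / 2) Φ (fun z => (starRingEnd ℂ) (Φ ((starRingEnd ℂ) z))) hΦa (H55B.I4_conj hΦa)
    (fun s hs => by
      have hs' : 3 / 2 < ((starRingEnd ℂ) s).re := by simpa using hs
      have h1 := (Complex.hasSum_conj').2 (hser _ hs')
      have h2 : ∀ n, (starRingEnd ℂ) (LSeries.term
          (fun n => (((W⁄K).LFunction n : ℤ) : ℂ)) ((starRingEnd ℂ) s) n) =
          LSeries.term (fun n => (((W⁄K).LFunction n : ℤ) : ℂ)) s n := by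
        intro n
        rcases eq_or_ne n 0 with rfl | hn
        · simp
        · rw [LSeries.term_of_ne_zero hn, LSeries.term_of_ne_zero hn, map_div₀, map_intCast]
          congr 1
          have h3 := Complex.cpow_conj (n : ℂ) ((starRingEnd ℂ) s) (by
            rw [Complex.natCast_arg]
            exact Real.pi_pos.ne)
          rw [Complex.conj_conj, map_natCast] at h3
          exact h3.symm
      have h3 : HasSum (fun n => LSeries.term
          (fun n => (((W⁄K).LFunction n : ℤ) : ℂ)) s n)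
          ((starRingEnd ℂ) (Φ ((starRingEnd ℂ) s))) := by
        simpa only [h2] using h1
      exact (hser s hs).unique h3) (by norm_num) 1 (by norm_num)
  simpa using h.symm

theorem fb6b_ndvd (hp : PrimeH F (W⁄(𝓞 F)) p) : ¬ (p : ℤ) ∣ W.Δ := by
  intro hd
  obtain ⟨t, ht⟩ := hd
  have h1 : Ideal.span {(W⁄(𝓞 F)).Δ} ≤ Ideal.span {(p : 𝓞 F)} := by
    rw [Ideal.span_singleton_le_span_singleton]
    refine ⟨algebraMap ℤ (𝓞 F) t, ?_⟩
    have e : (W⁄(𝓞 F)).Δ = algebraMap ℤ (𝓞 F) W.Δ := WeierstrassCurve.map_Δ _ _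
    rw [e, ht, map_mul, map_natCast]
  have h2 : Ideal.span {(p : 𝓞 F)} = ⊤ := by
    have h3 := Ideal.isCoprime_iff_sup_eq.1 hp.cop
    rwa [sup_eq_right.2 h1] at h3
  have h4 := congrArg Ideal.absNorm h2
  rw [Ideal.absNorm_top, Ideal.absNorm_span_natCast] at h4
  have h5 : 0 < Module.finrank ℤ (𝓞 F) := Module.finrank_pos
  exact (Nat.one_lt_pow h5.ne' hp.prime.one_lt).ne' h4

theorem fb6b_conj (hper : PerW F W Om) (V : ValuationSubring ℂ) (x : ℂ) (n : ℕ) :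
    V.valuation ((starRingEnd ℂ) (x / Om ^ n)) = V.valuation ((starRingEnd ℂ) x / Om ^ n) := by
  have hOm : Om ≠ 0 := hper.ne
  have h1 := om_conj_val hper V
  have hVO : V.valuation Om ≠ 0 := (Valuation.ne_zero_iff _).2 hOm
  rw [map_div₀] at h1
  have h2 : V.valuation ((starRingEnd ℂ) Om) = V.valuation Om := (div_eq_one_iff_eq hVO).1 h1
  rw [map_div₀, map_pow, map_div₀, map_pow, h2, map_div₀, map_pow]

/-- Chunk FB6B (M). V(lG) is V(x) V(conj x) in the first case of LRel, V(x) in the second, x = Φ(1)/Om^[K' : F]: identity theorem (H55P: ident, TW1), lG_val, om_conj_val. -/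
theorem lG_rel (hH : BaseH F (W⁄(𝓞 F)) Om m ψ) (hp : PrimeH F (W⁄(𝓞 F)) p) (K : Type) [Field K] [NumberField K]
    (K' : IntermediateField F (AlgebraicClosure F)) [NumberField K'] (hR : LRel W ψ K K') (hU : H55P.UnrP p K)
    {Φ : ℂ → ℂ} (hΦa : AnalyticOnNhd ℂ Φ {s | 1 / 2 < s.re})
    (hΦ : ∀ s : ℂ, 3 / 2 < s.re → HasSum (H55N.tm (H55P.PsiP K' ψ) s) (Φ s)) :
    ∃ Λ : ℂ → ℂ, AnalyticOnNhd ℂ Λ {s | 1 / 2 < s.re} ∧
      (∀ s : ℂ, 3 / 2 < s.re → LSeriesSummable (fun n => (((W⁄K).LFunction n : ℤ) : ℂ)) s ∧ Λ s = (W⁄K).LSeries s) ∧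
      (Φ 1 ≠ 0 → Λ 1 ≠ 0) ∧
      ∀ V : ValuationSubring ℂ, V.valuation (p : ℂ) < 1 → ∀ L : PeriodPair, PerZ W L →
        (V.valuation (lG K W L (Λ 1)) = V.valuation (Φ 1 / Om ^ Module.finrank F K') * V.valuation ((starRingEnd ℂ) (Φ 1 / Om ^ Module.finrank F K'))) ∨
        (V.valuation (lG K W L (Λ 1)) = V.valuation (Φ 1 / Om ^ Module.finrank F K') ∧
          V.valuation ((starRingEnd ℂ) (Φ 1 / Om ^ Module.finrank F K')) = V.valuation (Φ 1 / Om ^ Module.finrank F K')) := by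
  classical
  have hper := perW_of hH
  have hj := jint_Z hH
  have hΔ := fb6b_ndvd hp
  have hOm : Om ≠ 0 := hper.ne
  rcases hR with ⟨hd, hR⟩ | ⟨hd, hR⟩
  · have hser := hR Φ hΦ
    refine ⟨fun z => Φ z * (starRingEnd ℂ) (Φ ((starRingEnd ℂ) z)), hΦa.mul (H55B.I4_conj hΦa),
      fun s hs => ⟨(hser s hs).LSeriesSummable, (hser s hs).LSeries_eq.symm⟩, fun h0 => ?_, fun V hV L hL => Or.inl ?_⟩
    · simp only [map_one]
      exact mul_ne_zero h0 ((map_ne_zero _).2 h0)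
    · rw [lG_val K hper hL hp.prime hp.five hp.unr hU hΔ hj _ V hV, hd, fb6b_conj hper V, ← map_mul]
      congr 1
      simp only [map_one]
      rw [two_mul, pow_add, mul_div_mul_comm]
  · have hser := hR Φ hΦ
    have hreal := fb6b_real K hΦa hser
    refine ⟨Φ, hΦa, fun s hs => ⟨(hser s hs).LSeriesSummable, (hser s hs).LSeries_eq.symm⟩, fun h0 => h0,
      fun V hV L hL => Or.inr ⟨?_, ?_⟩⟩
    · rw [lG_val K hper hL hp.prime hp.five hp.unr hU hΔ hj _ V hV, hd]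
    · rw [fb6b_conj hper V, hreal]

end H55K.TQ
end

-- from Lib.H55Z.P1
section

/-! # H55Z, part P: the value of the L-function over a number field in which p may be ramified -/

open NumberField IsDedekindDomain WeierstrassCurve

namespace H55Z

open H55P (IQ embF eF LF Per IsHecke Pt ac Inert Dec Nm UnitP)
open H35P (WAB Ker tt GoodW IntW)
open H55K.MG (VC Crd)
open H55K H55K.TQ

variable {F : Type} [Field F] [NumberField F] [IQ F] {W : WeierstrassCurve ℤ} {Om : ℂ}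
    {m : Ideal (𝓞 F)} {ψ : Ideal (𝓞 F) →*₀ 𝓞 F} {p : ℕ}

/-- The value of the square root of the discriminant. -/
noncomputable def sD (V : ValuationSubring ℂ) (K : Type) [Field K] [NumberField K] : V.ValueGroup :=
  V.valuation ((Real.sqrt |(NumberField.discr K : ℝ)| : ℝ) : ℂ)

theorem sD_sq (V : ValuationSubring ℂ) (K : Type) [Field K] [NumberField K] :
    sD V K ^ 2 = V.valuation (((NumberField.discr K).natAbs : ℕ) : ℂ) := by
  obtain ⟨D, hD⟩ : ∃ D, D = NumberField.discr K := ⟨_, rfl⟩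
  unfold sD
  rw [← hD, ← map_pow]
  congr 1
  rw [← Complex.ofReal_pow, Real.sq_sqrt (abs_nonneg _), ← Int.cast_abs, Int.abs_eq_natAbs]
  simp only [Int.cast_natCast, Complex.ofReal_natCast]

theorem lG_valD (K : Type) [Field K] [NumberField K] {L : PeriodPair} (hper : PerW F W Om) (hL : PerZ W L) (hp : p.Prime) (h5 : 5 ≤ p)
    (hF : H55P.UnrP p F) (hΔ : ¬ (p : ℤ) ∣ W.Δ) (hj : ∃ j₀ : ℤ, W.c₄ ^ 3 = j₀ * W.Δ) (L1 : ℂ)
    (V : ValuationSubring ℂ) (hV : V.valuation (p : ℂ) < 1) :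
    V.valuation (lG K W L L1) = V.valuation (L1 / Om ^ Module.finrank ℚ K) * sD V K := by
  have hOm : Om ≠ 0 := hper.ne
  have hVO : V.valuation Om ≠ 0 := (Valuation.ne_zero_iff _).2 hOm
  have h2 := prod_W (W := W) K hp h5 hΔ hj V hV
  have h3 : V.valuation (OmP W L : ℂ) = V.valuation Om := by
    have h := omr_unit hper hL hp h5 hF V hV
    rw [map_div₀] at h
    exact (div_eq_one_iff_eq hVO).1 h
  have h4 : V.valuation (H55C.Om L : ℂ) = V.valuation Om ^ 2 := by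
    have h := (om_unit hper hL hp hF).2 V hV
    rw [map_div₀, map_pow] at h
    exact (div_eq_one_iff_eq (pow_ne_zero 2 hVO)).1 h
  have h5' := NumberField.InfinitePlace.card_add_two_mul_card_eq_rank K
  rw [lG, map_div₀, map_mul, map_mul, map_mul, map_pow, map_pow, h2, h3, h4,
    mul_one, map_div₀, map_pow, ← h5', ← pow_mul, ← pow_add]
  show _ * sD V K / _ = _
  rw [div_mul_eq_mul_div]

/-- V(lG) for all K: the discriminant appears through sD. -/
theorem lG_relD (hH : BaseH F (W⁄(𝓞 F)) Om m ψ) (hp : PrimeH F (W⁄(𝓞 F)) p) (K : Type) [Field K] [NumberField K]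
    (K' : IntermediateField F (AlgebraicClosure F)) [NumberField K'] (hR : LRel W ψ K K')
    {Φ : ℂ → ℂ} (hΦa : AnalyticOnNhd ℂ Φ {s | 1 / 2 < s.re})
    (hΦ : ∀ s : ℂ, 3 / 2 < s.re → HasSum (H55N.tm (H55P.PsiP K' ψ) s) (Φ s)) :
    ∃ Λ : ℂ → ℂ, AnalyticOnNhd ℂ Λ {s | 1 / 2 < s.re} ∧
      (∀ s : ℂ, 3 / 2 < s.re → LSeriesSummable (fun n => (((W⁄K).LFunction n : ℤ) : ℂ)) s ∧ Λ s = (W⁄K).LSeries s) ∧
      (Φ 1 ≠ 0 → Λ 1 ≠ 0) ∧
      ∀ V : ValuationSubring ℂ, V.valuation (p : ℂ) < 1 → ∀ L : PeriodPair, PerZ W L →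
        (Module.finrank ℚ K = 2 * Module.finrank F K' ∧
          V.valuation (lG K W L (Λ 1)) = V.valuation (Φ 1 / Om ^ Module.finrank F K') *
            V.valuation ((starRingEnd ℂ) (Φ 1 / Om ^ Module.finrank F K')) * sD V K) ∨
        (Module.finrank ℚ K = Module.finrank F K' ∧
          V.valuation (lG K W L (Λ 1)) = V.valuation (Φ 1 / Om ^ Module.finrank F K') * sD V K) := by
  classical
  have hper := perW_of hH
  have hj := jint_Z hH
  have hΔ := fb6b_ndvd hp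
  have hOm : Om ≠ 0 := hper.ne
  rcases hR with ⟨hd, hR⟩ | ⟨hd, hR⟩
  · have hser := hR Φ hΦ
    refine ⟨fun z => Φ z * (starRingEnd ℂ) (Φ ((starRingEnd ℂ) z)), hΦa.mul (H55B.I4_conj hΦa),
      fun s hs => ⟨(hser s hs).LSeriesSummable, (hser s hs).LSeries_eq.symm⟩, fun h0 => ?_, fun V hV L hL => Or.inl ⟨hd, ?_⟩⟩
    · simp only [map_one]
      exact mul_ne_zero h0 ((map_ne_zero _).2 h0)
    · rw [lG_valD K hper hL hp.prime hp.five hp.unr hΔ hj _ V hV, hd, fb6b_conj hper V, ← map_mul]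
      congr 2
      simp only [map_one]
      rw [two_mul, pow_add, mul_div_mul_comm]
  · have hser := hR Φ hΦ
    refine ⟨Φ, hΦa, fun s hs => ⟨(hser s hs).LSeriesSummable, (hser s hs).LSeries_eq.symm⟩, fun h0 => h0,
      fun V hV L hL => Or.inr ⟨hd, ?_⟩⟩
    rw [lG_valD K hper hL hp.prime hp.five hp.unr hΔ hj _ V hV, hd]

end H55Z
end

-- from Lib.H55Z.P3
section

/-! # H55Z, part P: the layers of the cyclotomic tower over a number field -/

open NumberField IsDedekindDomain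

namespace H55Z

/-- N is the field generated over K by the n-th layer of the cyclotomic extension of the rationals: the subfield of degree p^n of the
field of p^(n+1)-th roots of unity. -/
def Layer (p n : ℕ) (K N : Type) [Field K] [Field N] [CharZero N] [Algebra K N] : Prop :=
  ∃ Q : IntermediateField ℚ N, Module.finrank ℚ Q = p ^ n ∧ Nonempty (Q →ₐ[ℚ] CyclotomicField (p ^ (n + 1)) ℚ) ∧
    Algebra.adjoin K (Q : Set N) = ⊤

theorem p3_ne {p : ℕ} [hp : Fact p.Prime] (n : ℕ) : NeZero (p ^ (n + 1)) := ⟨(pow_pos hp.out.pos _).ne'⟩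

theorem p3_cyc {p : ℕ} [hp : Fact p.Prime] (n : ℕ) :
    IsCyclotomicExtension {p ^ (n + 1)} ℚ (CyclotomicField (p ^ (n + 1)) ℚ) := by
  have : NeZero ((p ^ (n + 1) : ℕ) : ℚ) := ⟨Nat.cast_ne_zero.2 (pow_pos hp.out.pos _).ne'⟩
  exact CyclotomicField.isCyclotomicExtension _ _

theorem p3_gal {p : ℕ} [hp : Fact p.Prime] {n : ℕ} {Q : Type} [Field Q] [NumberField Q]
    (f : Q →ₐ[ℚ] CyclotomicField (p ^ (n + 1)) ℚ) : IsAbelianGalois ℚ Q := by
  have := p3_ne (p := p) n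
  have := p3_cyc (p := p) n
  have h3 : IsAbelianGalois ℚ (CyclotomicField (p ^ (n + 1)) ℚ) := IsCyclotomicExtension.isAbelianGalois {p ^ (n + 1)} ℚ _
  exact IsAbelianGalois.of_algHom f

theorem p3_disc {p : ℕ} [hp : Fact p.Prime] (h2 : p ≠ 2) {n : ℕ} {Q : Type} [Field Q] [NumberField Q]
    (f : Q →ₐ[ℚ] CyclotomicField (p ^ (n + 1)) ℚ) (hQ : Module.finrank ℚ Q = p ^ n) :
    (NumberField.discr Q).natAbs = p ^ En p n := by
  have := p3_ne (p := p) n
  have := p3_cyc (p := p) n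
  let _ : Algebra Q (CyclotomicField (p ^ (n + 1)) ℚ) := f.toRingHom.toAlgebra
  exact discQ (CyclotomicField (p ^ (n + 1)) ℚ) h2 hQ

variable {p : ℕ} [hp : Fact p.Prime] {n : ℕ} {K N : Type} [Field K] [NumberField K] [Field N] [NumberField N] [Algebra K N]

/-- The degree and the discriminant of a layer. -/
theorem layer_disc (h2 : p ≠ 2) (hU : ¬ (p : ℤ) ∣ NumberField.discr K) (h : Layer p n K N) :
    Module.finrank K N = p ^ n ∧
      (NumberField.discr N).natAbs = (NumberField.discr K).natAbs ^ p ^ n * (p ^ En p n) ^ Module.finrank ℚ K := by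
  classical
  obtain ⟨Q, hQ, ⟨f⟩, htop⟩ := h
  let φ : K →ₐ[ℚ] N := (algebraMap K N).toRatAlgHom
  let K₁ : IntermediateField ℚ N := φ.fieldRange
  let e : K ≃ₐ[ℚ] K₁ := AlgEquiv.ofInjectiveField φ
  have hd : NumberField.discr K₁ = NumberField.discr K := (NumberField.discr_eq_discr_of_algEquiv K e).symm
  have hfr : Module.finrank ℚ K₁ = Module.finrank ℚ K := e.toLinearEquiv.finrank_eq.symm
  have hdQ := p3_disc h2 f hQ
  have hcop : IsCoprime (NumberField.discr Q) (NumberField.discr K₁) := by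
    rw [hd, Int.isCoprime_iff_gcd_eq_one, Int.gcd_eq_natAbs, hdQ]
    apply Nat.Coprime.pow_left
    rw [Nat.Prime.coprime_iff_not_dvd hp.out]
    intro hdv
    exact hU (Int.natCast_dvd.2 hdv)
  have hab := p3_gal f
  have hgal : IsGalois ℚ Q := hab.toIsGalois
  have hlin : Q.LinearDisjoint K₁ := NumberField.linearDisjoint_of_isGalois_isCoprime_discr N Q K₁ hcop
  have hsup : Q ⊔ K₁ = ⊤ := by
    rw [eq_top_iff]
    intro x _
    have h4 : x ∈ Algebra.adjoin K (Q : Set N) := htop ▸ Algebra.mem_top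
    refine Algebra.adjoin_induction (p := fun x _ => x ∈ Q ⊔ K₁) ?_ ?_ ?_ ?_ h4
    · intro y hy
      exact (le_sup_left : Q ≤ Q ⊔ K₁) hy
    · intro r
      exact (le_sup_right : K₁ ≤ Q ⊔ K₁) ⟨r, rfl⟩
    · intro a b _ _ ha hb
      exact add_mem ha hb
    · intro a b _ _ ha hb
      exact mul_mem ha hb
  have hcd := NumberField.isCoprime_differentIdeal_of_isCoprime_discr N (K₁ := Q) (K₂ := K₁) hcop
  have hmain := NumberField.natAbs_discr_eq_natAbs_discr_pow_mul_natAbs_discr_pow N Q K₁ hlin hsup hcd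
  rw [hdQ, hd, hfr, hQ] at hmain
  refine ⟨?_, by rw [hmain, mul_comm]⟩
  have h5 : Module.finrank ℚ N = Module.finrank ℚ Q * Module.finrank ℚ K₁ := by
    have h6 := hlin.finrank_sup
    rw [hsup, IntermediateField.finrank_top'] at h6
    exact h6
  have h7 := Module.finrank_mul_finrank ℚ K N
  rw [h5, hQ, hfr, mul_comm (p ^ n)] at h7
  exact mul_left_cancel₀ (Module.finrank_pos (R := ℚ) (M := K)).ne' h7

/-- The value of the discriminant of a layer. -/
theorem layer_sD (h2 : p ≠ 2) (hU : ¬ (p : ℤ) ∣ NumberField.discr K) (h : Layer p n K N) (V : ValuationSubring ℂ)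
    (hV : V.valuation (p : ℂ) < 1) : sD V N ^ 2 = V.valuation (p : ℂ) ^ (En p n * Module.finrank ℚ K) := by
  rw [sD_sq, (layer_disc h2 hU h).2]
  push_cast
  rw [map_mul, map_pow, map_pow, map_pow, ← pow_mul]
  have h3 : V.valuation (((NumberField.discr K).natAbs : ℕ) : ℂ) = 1 :=
    H55P.val_nat p hp.out V hV _ fun hd => hU (Int.natCast_dvd.2 hd)
  rw [h3, one_pow, one_mul]

end H55Z
end
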