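import Mathlib
import Pool.Agent.Lib.H1M.PP2.D_H55K_QD
import Pool.Agent.Lib.H1M.PP2.M019
import Pool.Agent.Lib.H1M.PP2.M021
import Pool.Agent.Lib.H1M.PP2.M030
import Pool.Agent.Lib.H1M.PP2.M046
import Pool.Agent.Lib.H1M.PP2.M051
import Pool.Agent.Lib.H1M.PP2.M052
import Pool.Agent.Lib.H1M.PP2.M062
import Pool.Agent.Lib.H1M.PP2.M073
import Pool.Agent.Lib.H1M.PP2.M074
import Pool.Agent.Lib.H1M.PP2.M075
import Pool.Agent.Lib.H1M.PP2.M080
import Pool.Agent.Lib.H1M.PP2.M083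
import Pool.Agent.Lib.H1M.PP2.M092
import Pool.Agent.Lib.H1M.PP2.M094
import Pool.Agent.Lib.H1M.PP2.M095

/-! Merged copies (to shorten the build) of Lib.H28I.LA4, Lib.H28I.LA4B, Lib.H28I.V3, Lib.H28I.V4, Lib.H28I.V6, Lib.H28I.K1, Lib.H28I.E6, Lib.H28I.E7, Lib.H55K.A.D5, Lib.H55K.A.Main, Lib.H55K.K6A, Lib.H55K.K3, Lib.H55K.K5, Lib.H55K.K9, Lib.H55K.K11, Lib.H55K.K12. -/

-- from Lib.H28I.LA4
section

/-! # H28I, part LA: the lattice of the isogenous curve -/

open NumberField IsDedekindDomain WeierstrassCurve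

namespace H28I

open H55P (IQ embF eF LF Per IsHecke Pt ac Inert Dec Nm)
open H35P (WAB Ker tt GoodW IntW)
open H55K (xc yc)

theorem la4_per (L : PeriodPair) {z w : ℂ} (h : z - w ∈ L.lattice) : L.weierstrassP z = L.weierstrassP w := by
  have h1 := L.weierstrassP_add_coe w ⟨z - w, h⟩
  rw [← h1]
  show L.weierstrassP z = L.weierstrassP (w + (z - w))
  rw [add_sub_cancel]

theorem la4_mul (L : PeriodPair) {z : ℂ} (n : ℤ) (h : z ∈ L.lattice) : (n : ℂ) * z ∈ L.lattice := by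
  have h1 := L.lattice.smul_mem n h
  rwa [zsmul_eq_mul] at h1

/-- Chunk LA4 (M). First case of h.cs: w from two_tor, L' from over_pair (N = 2), S = {w} (rep_two). Second case: w from three_tor, N = 3, S = {w, -w} (rep_three, Finset.sum_pair; wp(-w) = wp w). For z outside L': z, z + w, z - w are outside L (they are outside L'), so sum_wp and two_add or three_add give L'.weierstrassP z = vx e t u (L.weierstrassP z) and wp_L z ≠ e.
pole: z in L' is in L or z = ± w + l, where wp_L z = wp_L w = e. le, six: from the description of L'. -/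
theorem iso_x (L : PeriodPair) {A B A' B' e t u : ℂ} (h : VI A B A' B' e t u) (g2 : L.g₂ = -4 * A) (g3 : L.g₃ = -4 * B) :
    ∃ L' : PeriodPair, (∀ z ∈ L.lattice, z ∈ L'.lattice) ∧ (∀ z ∈ L'.lattice, 6 * z ∈ L.lattice) ∧
      (∀ z ∈ L'.lattice, z ∈ L.lattice ∨ L.weierstrassP z = e) ∧ (∀ z, z ∉ L'.lattice → L.weierstrassP z ≠ e) ∧
      ∀ z, z ∉ L'.lattice → L'.weierstrassP z = vx e t u (L.weierstrassP z) := by
  rcases h.cs with ⟨hu, he, ht⟩ | ⟨ht, hu, h3⟩
  · obtain ⟨w, hw, hwe, h2⟩ := two_tor L g2 g3 h.disc he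
    obtain ⟨L', hL'⟩ := over_pair L Nat.prime_two hw (by exact_mod_cast h2)
    have hR := rep_two hw h2 hL'
    have hcl : ∀ z ∈ L'.lattice, z ∈ L.lattice ∨ z - w ∈ L.lattice := by
      intro z hz
      rcases hR.ex z hz with h1 | ⟨r, hr, h1⟩
      · exact Or.inl h1
      · rw [Finset.mem_singleton.1 hr] at h1
        exact Or.inr h1
    have hout : ∀ z, z ∉ L'.lattice → z ∉ L.lattice ∧ z + w ∉ L.lattice := by
      intro z hz
      refine ⟨fun h1 => hz (hR.le z h1), fun h1 => hz ((hL' z).2 ⟨-1, ?_⟩)⟩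
      push_cast
      have e1 : z - -1 * w = z + w := by ring
      rw [e1]
      exact h1
    refine ⟨L', hR.le, ?_, ?_, ?_, ?_⟩
    · intro z hz
      rcases hcl z hz with h1 | h1
      · exact_mod_cast la4_mul L 6 h1
      · have e1 : (6 : ℂ) * z = ((6 : ℤ) : ℂ) * (z - w) + ((3 : ℤ) : ℂ) * (2 * w) := by
          push_cast
          ring
        rw [e1]
        exact add_mem (la4_mul L 6 h1) (la4_mul L 3 h2)
    · intro z hz
      rcases hcl z hz with h1 | h1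
      · exact Or.inl h1
      · exact Or.inr (by rw [la4_per L h1, hwe])
    · intro z hz
      obtain ⟨a1, a2⟩ := hout z hz
      have a3 := (two_add L g2 g3 hw h2 a1 a2).1
      rwa [hwe] at a3
    · intro z hz
      obtain ⟨a1, a2⟩ := hout z hz
      have a3 := (two_add L g2 g3 hw h2 a1 a2).2
      rw [sum_wp hR hz, Finset.sum_singleton, a3, hwe, hu, ht]
      unfold vx
      rw [zero_div, add_zero]
  · obtain ⟨w, hw, hwe, h3w⟩ := three_tor L g2 g3 h.disc h3
    obtain ⟨L', hL'⟩ := over_pair L Nat.prime_three hw (by exact_mod_cast h3w)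
    obtain ⟨hR, hne⟩ := rep_three hw h3w hL'
    have hcl : ∀ z ∈ L'.lattice, z ∈ L.lattice ∨ z - w ∈ L.lattice ∨ z + w ∈ L.lattice := by
      intro z hz
      rcases hR.ex z hz with h1 | ⟨r, hr, h1⟩
      · exact Or.inl h1
      · rcases Finset.mem_insert.1 hr with h4 | h4
        · rw [h4] at h1
          exact Or.inr (Or.inl h1)
        · rw [Finset.mem_singleton.1 h4, sub_neg_eq_add] at h1
          exact Or.inr (Or.inr h1)
    have hout : ∀ z, z ∉ L'.lattice → z ∉ L.lattice ∧ z + w ∉ L.lattice ∧ z - w ∉ L.lattice := by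
      intro z hz
      refine ⟨fun h1 => hz (hR.le z h1), fun h1 => hz ((hL' z).2 ⟨-1, ?_⟩), fun h1 => hz ((hL' z).2 ⟨1, ?_⟩)⟩
      · push_cast
        have e1 : z - -1 * w = z + w := by ring
        rw [e1]
        exact h1
      · push_cast
        rw [one_mul]
        exact h1
    refine ⟨L', hR.le, ?_, ?_, ?_, ?_⟩
    · intro z hz
      rcases hcl z hz with h1 | h1 | h1
      · exact_mod_cast la4_mul L 6 h1
      · have e1 : (6 : ℂ) * z = ((6 : ℤ) : ℂ) * (z - w) + ((2 : ℤ) : ℂ) * (3 * w) := by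
          push_cast
          ring
        rw [e1]
        exact add_mem (la4_mul L 6 h1) (la4_mul L 2 h3w)
      · have e1 : (6 : ℂ) * z = ((6 : ℤ) : ℂ) * (z + w) + ((-2 : ℤ) : ℂ) * (3 * w) := by
          push_cast
          ring
        rw [e1]
        exact add_mem (la4_mul L 6 h1) (la4_mul L (-2) h3w)
    · intro z hz
      rcases hcl z hz with h1 | h1 | h1
      · exact Or.inl h1
      · exact Or.inr (by rw [la4_per L h1, hwe])
      · refine Or.inr ?_
        have h4 : z - -w ∈ L.lattice := by rwa [sub_neg_eq_add]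
        rw [la4_per L h4, L.weierstrassP_neg, hwe]
    · intro z hz
      obtain ⟨a1, a2, a3⟩ := hout z hz
      have a4 := (three_add L g2 g3 hw a1 a2 a3).1
      rwa [hwe] at a4
    · intro z hz
      obtain ⟨a1, a2, a3⟩ := hout z hz
      have a4 := (three_add L g2 g3 hw a1 a2 a3).2
      rw [sum_wp hR hz, Finset.sum_pair hne, L.weierstrassP_neg, ← sub_eq_add_neg z w, a4, hwe, hu, ht]
      unfold vx
      ring

end H28I
end

-- from Lib.H28I.LA4B
section

/-! # H28I, part LA: the lattice of the isogenous curve -/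

open NumberField IsDedekindDomain WeierstrassCurve

namespace H28I

open H55P (IQ embF eF LF Per IsHecke Pt ac Inert Dec Nm)
open H35P (WAB Ker tt GoodW IntW)
open H55K (xc yc)

theorem la4b_vx {e t u x : ℂ} (hx : x ≠ e) : HasDerivAt (fun y => vx e t u y) (vd e t u x) x := by
  have hx' : x - e ≠ 0 := sub_ne_zero.2 hx
  have h1 : HasDerivAt (fun y : ℂ => y - e) 1 x := (hasDerivAt_id x).sub_const e
  have h2 := (((hasDerivAt_id x).add ((hasDerivAt_const x t).div h1 hx')).add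
    ((hasDerivAt_const x u).div (h1.fun_pow 2) (pow_ne_zero 2 hx')))
  unfold vx vd
  refine HasDerivAt.congr_deriv h2 ?_
  simp only [Nat.cast_ofNat]
  field_simp
  ring

/-- Chunk LA4B (S/M). On the open set of the z outside L' (H35P.compl_open L') the two functions L'.weierstrassP and vx e t u ∘ L.weierstrassP agree; derivatives (H35P.wp_hasDeriv for L' and for L (z is outside L), the chain rule: the derivative of vx e t u at x ≠ e is vd e t u x), HasDerivAt.unique. -/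
theorem iso_y {L L' : PeriodPair} {e t u : ℂ} (hle : ∀ z ∈ L.lattice, z ∈ L'.lattice)
    (hne : ∀ z, z ∉ L'.lattice → L.weierstrassP z ≠ e)
    (hx : ∀ z, z ∉ L'.lattice → L'.weierstrassP z = vx e t u (L.weierstrassP z)) {z : ℂ} (hz : z ∉ L'.lattice) :
    L'.derivWeierstrassP z = vd e t u (L.weierstrassP z) * L.derivWeierstrassP z := by
  have hzL : z ∉ L.lattice := fun h => hz (hle z h)
  have h1 := H35P.wp_hasDeriv L' z hz
  have h2 := (la4b_vx (t := t) (u := u) (hne z hz)).comp z (H35P.wp_hasDeriv L z hzL)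
  have h3 : ∀ᶠ w in nhds z, w ∉ L'.lattice := (H35P.compl_open L').mem_nhds hz
  refine h1.unique (h2.congr_of_eventuallyEq ?_)
  filter_upwards [h3] with w hw
  exact hx w hw

/-- Chunk LA4B (M). g₂, g₃ of L': for z outside L' put X = L'.weierstrassP z, x = L.weierstrassP z. derivWeierstrassP_sq for L' : (vd x)^2 (wp' z)^2 = 4 X^3 - g₂' X - g₃'; for L: (wp' z)^2 = 4 (x^3 + A x + B); vi_id: so 4 (X^3 + A' X + B') = 4 X^3 - g₂' X - g₃', that is (4 A' + g₂') X + (4 B' + g₃') = 0. X takes the values 0 and 1 (H55K.CC.wp_surj L'). -/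
theorem iso_L (L : PeriodPair) {A B A' B' e t u : ℂ} (h : VI A B A' B' e t u) (g2 : L.g₂ = -4 * A) (g3 : L.g₃ = -4 * B) :
    ∃ L' : PeriodPair, IsoL L L' A' B' e t u := by
  obtain ⟨L', hle, hsix, hpole, hout, hx⟩ := iso_x L h g2 g3
  have hy : ∀ z, z ∉ L'.lattice → L'.derivWeierstrassP z = vd e t u (L.weierstrassP z) * L.derivWeierstrassP z :=
    fun z hz => iso_y hle hout hx hz
  have hkey : ∀ z, z ∉ L'.lattice → (4 * A' + L'.g₂) * L'.weierstrassP z + (4 * B' + L'.g₃) = 0 := by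
    intro z hz
    have hzL : z ∉ L.lattice := fun h => hz (hle z h)
    have e1 := L'.derivWeierstrassP_sq z hz
    have e2 := L.derivWeierstrassP_sq z hzL
    have e3 := vi_id h (hout z hz)
    rw [hy z hz] at e1
    rw [← hx z hz] at e3
    rw [g2, g3] at e2
    linear_combination e1 - (vd e t u (L.weierstrassP z)) ^ 2 * e2 + 4 * e3
  obtain ⟨z0, h0, h0'⟩ := H55K.CC.wp_surj L' 0
  obtain ⟨z1, h1, h1'⟩ := H55K.CC.wp_surj L' 1
  have k0 := hkey z0 h0
  have k1 := hkey z1 h1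
  rw [h0'] at k0
  rw [h1'] at k1
  refine ⟨L', ?_, ?_, hle, hsix, hpole, hout, hx, hy⟩
  · linear_combination k1 - k0
  · linear_combination k0

end H28I
end

-- from Lib.H28I.V3
section

/-! # H28I, part V: additivity over the complex numbers -/

open NumberField IsDedekindDomain WeierstrassCurve

namespace H28I

open H55P (IQ embF eF LF Per IsHecke Pt ac Inert Dec Nm)
open H35P (WAB Ker tt GoodW IntW)
open H55K (xc yc)

theorem v3_surj (L : PeriodPair) {A B : ℂ} (g2 : L.g₂ = -4 * A) (g3 : L.g₃ = -4 * B)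
    {pt : ℂ → (WAB A B).toAffine.Point} (h0 : pt 0 = 0)
    (p1 : ∀ z ∉ L.lattice, ∃ h, pt z = .some (L.weierstrassP z / 1 ^ 2) (L.derivWeierstrassP z / (2 * 1 ^ 3)) h) :
    Function.Surjective pt := by
  intro R
  rcases R with _ | ⟨x, y, hxy⟩
  · exact ⟨0, h0⟩
  · obtain ⟨z, hz, hz1⟩ := H55K.CC.wp_surj L x
    have hE := (Affine.equation_iff _ _).1 hxy.1
    simp only [WAB] at hE
    have hY := L.derivWeierstrassP_sq z hz
    rw [hz1, g2, g3] at hY
    have h2 : (L.derivWeierstrassP z / 2 - y) * (L.derivWeierstrassP z / 2 + y) = 0 := by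
      linear_combination (1 / 4 : ℂ) * hY - hE
    rcases mul_eq_zero.1 h2 with h3 | h3
    · obtain ⟨hns, e⟩ := p1 z hz
      refine ⟨z, ?_⟩
      rw [e, Affine.Point.some.injEq]
      constructor
      · rw [hz1]
        ring
      · linear_combination h3
    · have hz' : -z ∉ L.lattice := fun h0 => hz (by simpa using L.lattice.neg_mem h0)
      obtain ⟨hns, e⟩ := p1 (-z) hz'
      refine ⟨-z, ?_⟩
      rw [e, Affine.Point.some.injEq]
      constructor
      · rw [L.weierstrassP_neg, hz1]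
        ring
      · rw [L.derivWeierstrassP_neg]
        linear_combination -h3

open Classical in
/-- Chunk V3 (M). L' from iso_L. pt, pt' from H35P.pt_exists for L and L' with Om = 1 (g₂ = -4 A * 1^4). Claim: Φ (pt z) = pt' z for all z. z in L: both are 0. z in L' but not in L: pt z = some (wp z) .. with wp z = e (IsoL.pole), so Φ (pt z) = 0 = pt' z. z not in L' : wp z ≠ e (IsoL.out), and the coordinates agree (IsoL.x, IsoL.y; y = wp'/2): two nonzero points with equal coordinates.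
pt is surjective (H55K.CC.wp_surj, as in H55K/C12.lean): P = pt z, Q = pt w; Φ (P + Q) = pt' (z + w). -/
theorem v_add_C {A B A' B' e t u : ℂ} (h : VI A B A' B' e t u) (L : PeriodPair) (g2 : L.g₂ = -4 * A) (g3 : L.g₃ = -4 * B)
    {Φ : (WAB A B).toAffine.Point → (WAB A' B').toAffine.Point} (hΦ : IsV A B A' B' e t u Φ) (P Q : (WAB A B).toAffine.Point) :
    Φ (P + Q) = Φ P + Φ Q := by
  obtain ⟨L', hL⟩ := iso_L L h g2 g3
  obtain ⟨pt, p0, p1⟩ := H35P.pt_exists L A B 1 one_ne_zero (by rw [g2]; ring) (by rw [g3]; ring) h.disc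
  obtain ⟨pt', p0', p1'⟩ := H35P.pt_exists L' A' B' 1 one_ne_zero (by rw [hL.g2]; ring) (by rw [hL.g3]; ring) h.disc'
  have hkey : ∀ z, Φ (pt z) = pt' z := by
    intro z
    by_cases hz : z ∈ L.lattice
    · rw [p0 z hz, hΦ.zero, p0' z (hL.le z hz)]
    · obtain ⟨hns, e1⟩ := p1 z hz
      have hne : pt z ≠ 0 := by
        rw [e1]
        exact Affine.Point.some_ne_zero _
      have hxc : xc (pt z) = L.weierstrassP z := by
        rw [e1]
        show L.weierstrassP z / 1 ^ 2 = _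
        ring
      have hyc : yc (pt z) = L.derivWeierstrassP z / 2 := by
        rw [e1]
        show L.derivWeierstrassP z / (2 * 1 ^ 3) = _
        ring
      by_cases hz' : z ∈ L'.lattice
      · rw [p0' z hz', hΦ.ker _ hne (hxc.trans ((hL.pole z hz').resolve_left hz))]
      · obtain ⟨hns', e1'⟩ := p1' z hz'
        have hxe : xc (pt z) ≠ e := by
          rw [hxc]
          exact hL.out z hz'
        refine H55K.CC.c14_ext (hΦ.ne _ hne hxe) ?_ ?_ ?_
        · rw [e1']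
          exact Affine.Point.some_ne_zero _
        · rw [hΦ.x _ hne hxe, hxc, ← hL.x z hz', e1']
          show _ = L'.weierstrassP z / 1 ^ 2
          ring
        · rw [hΦ.y _ hne hxe, hxc, hyc, e1']
          show _ = L'.derivWeierstrassP z / (2 * 1 ^ 3)
          rw [hL.y z hz']
          ring
  have hs := v3_surj L g2 g3 (map_zero pt) p1
  obtain ⟨z, rfl⟩ := hs P
  obtain ⟨w, rfl⟩ := hs Q
  rw [← map_add, hkey, hkey, hkey, map_add]

end H28I
end

-- from Lib.H28I.V4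
section

/-! # H28I, part V: additivity over a field with a complex embedding -/

open NumberField IsDedekindDomain WeierstrassCurve

namespace H28I

open H55P (IQ embF eF LF Per IsHecke Pt ac Inert Dec Nm)
open H35P (WAB Ker tt GoodW IntW)
open H55K (xc yc)

variable {k k' : Type} [Field k] [Field k'] [DecidableEq k] [DecidableEq k']

theorem v4_key [Algebra k k'] (E E₁ : WeierstrassCurve k) (E' : WeierstrassCurve k') (h1 : E.baseChange k = E₁)
    (h2 : E.baseChange k' = E') : ∃ J : E₁.toAffine.Point →+ E'.toAffine.Point,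
    Function.Injective J ∧ ∀ P, P ≠ 0 → J P ≠ 0 ∧ xc (J P) = algebraMap k k' (xc P) ∧ yc (J P) = algebraMap k k' (yc P) := by
  subst h1 h2
  refine ⟨Affine.Point.map (W' := E.toAffine) (Algebra.ofId k k'), Affine.Point.map_injective (Algebra.ofId k k'), ?_⟩
  intro P hP
  rcases P with _ | ⟨x, y, hxy⟩
  · exact absurd rfl hP
  · rw [Affine.Point.map_some]
    exact ⟨Affine.Point.some_ne_zero _, rfl, rfl⟩

/-- Chunk V4 (M). Port of c11_key (H55K/C11.lean): give k' the algebra structure j.toAlgebra; (WAB A B).baseChange k' = WAB (j A) (j B) (ext, map_zero) and (WAB A B).baseChange k = WAB A B (map_id). Or, simpler: Affine.Point.map (W' := (WAB A B).toAffine) with the base field k, (WAB A B)⁄k = WAB A B by WeierstrassCurve.map_id; prove the statement for all E, E' with (WAB A B)⁄k = E,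
(WAB A B)⁄k' = E' by rintro _ _ rfl rfl. -/
theorem exists_jj (j : k →+* k') (A B : k) : ∃ J : (WAB A B).toAffine.Point →+ (WAB (j A) (j B)).toAffine.Point,
    Function.Injective J ∧ ∀ P, P ≠ 0 → J P ≠ 0 ∧ xc (J P) = j (xc P) ∧ yc (J P) = j (yc P) := by
  letI : Algebra k k' := j.toAlgebra
  refine v4_key (WAB A B) (WAB A B) (WAB (j A) (j B)) ?_ ?_
  · exact WeierstrassCurve.map_id _
  · ext
    · exact map_zero (algebraMap k k')
    · exact map_zero (algebraMap k k')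
    · exact map_zero (algebraMap k k')
    · rfl
    · rfl

/-- Chunk V4 (S). Apply j to the equations; j is injective. -/
theorem vi_map (j : k →+* k') {A B A' B' e t u : k} (h : VI A B A' B' e t u) :
    VI (j A) (j B) (j A') (j B') (j e) (j t) (j u) := by
  obtain ⟨h1, h2, h3, h4, h5⟩ := h
  refine ⟨?_, ?_, ?_, ?_, ?_⟩
  · have e : 4 * j A ^ 3 + 27 * j B ^ 2 = j (4 * A ^ 3 + 27 * B ^ 2) := by
      simp only [map_add, map_mul, map_pow, map_ofNat]
    rw [e]
    exact (map_ne_zero j).2 h1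
  · have e : 4 * j A' ^ 3 + 27 * j B' ^ 2 = j (4 * A' ^ 3 + 27 * B' ^ 2) := by
      simp only [map_add, map_mul, map_pow, map_ofNat]
    rw [e]
    exact (map_ne_zero j).2 h2
  · rw [h3]
    simp only [map_sub, map_mul, map_ofNat]
  · rw [h4]
    simp only [map_sub, map_mul, map_add, map_ofNat]
  · rcases h5 with ⟨a1, a2, a3⟩ | ⟨a1, a2, a3⟩
    · left
      refine ⟨by rw [a1, map_zero], ?_, ?_⟩
      · have := congrArg j a2
        simpa only [map_add, map_mul, map_pow, map_zero] using this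
      · rw [a3]
        simp only [map_add, map_mul, map_pow, map_ofNat]
    · right
      refine ⟨?_, ?_, ?_⟩
      · rw [a1]
        simp only [map_add, map_mul, map_pow, map_ofNat]
      · rw [a2]
        simp only [map_add, map_mul, map_pow, map_ofNat]
      · have := congrArg j a3
        simpa only [map_add, map_sub, map_mul, map_pow, map_ofNat, map_zero] using this

/-- Chunk V4 (M). J, J' from exists_jj for (A, B) and (A', B'), Ψ from exists_v for the images (vi_map). J' (Φ P) = Ψ (J P) for all P: P = 0; xc P = e: both 0; xc P ≠ e: xc (J P) = j (xc P) ≠ j e, the coordinates agree (map_div₀ and so on). Ψ is additive (v_add_C), J, J' are additive, J' is injective. -/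
theorem v_add [CharZero k] (j : k →+* ℂ) {A B A' B' e t u : k} (h : VI A B A' B' e t u) (L : PeriodPair) (g2 : L.g₂ = -4 * j A)
    (g3 : L.g₃ = -4 * j B) {Φ : (WAB A B).toAffine.Point → (WAB A' B').toAffine.Point} (hΦ : IsV A B A' B' e t u Φ)
    (P Q : (WAB A B).toAffine.Point) : Φ (P + Q) = Φ P + Φ Q := by
  obtain ⟨J, hJ, hJ1⟩ := exists_jj (k' := ℂ) j A B
  obtain ⟨J', hJ', hJ1'⟩ := exists_jj (k' := ℂ) j A' B'
  have hv := vi_map j h
  obtain ⟨Ψ, hΨ⟩ := exists_v hv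
  have hkey : ∀ P, J' (Φ P) = Ψ (J P) := by
    intro P
    by_cases hP : P = 0
    · rw [hP, hΦ.zero, map_zero, map_zero, hΨ.zero]
    · obtain ⟨a1, a2, a3⟩ := hJ1 P hP
      by_cases hx : xc P = e
      · rw [hΦ.ker P hP hx, map_zero, hΨ.ker _ a1 (by rw [a2, hx])]
      · have hx' : xc (J P) ≠ j e := by
          rw [a2]
          exact fun h0 => hx (j.injective h0)
        obtain ⟨b1, b2, b3⟩ := hJ1' _ (hΦ.ne P hP hx)
        refine H55K.CC.c14_ext b1 (hΨ.ne _ a1 hx') ?_ ?_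
        · rw [b2, hΦ.x P hP hx, hΨ.x _ a1 hx', a2]
          unfold vx
          simp only [map_add, map_div₀, map_sub, map_pow]
        · rw [b3, hΦ.y P hP hx, hΨ.y _ a1 hx', a2, a3]
          unfold vd
          simp only [map_sub, map_mul, map_div₀, map_pow, map_one, map_ofNat]
  apply hJ'
  rw [hkey, map_add, map_add, hkey, hkey]
  exact v_add_C hv L g2 g3 hΨ _ _

end H28I
end

-- from Lib.H28I.V6
section

/-! # H28I, part V: the isogeny over Ω -/

open NumberField IsDedekindDomain WeierstrassCurve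

namespace H28I

open H55P (IQ embF eF LF Per IsHecke Pt ac Inert Dec Nm)
open H35P (WAB Ker tt GoodW IntW)
open H55K (xc yc)
open H55K.MG (VC Crd)

theorem v6_delta {k : Type} [Field k] (A B : k) : (WAB A B).Δ = -16 * (4 * A ^ 3 + 27 * B ^ 2) := by
  simp only [WAB, WeierstrassCurve.Δ, WeierstrassCurve.b₂, WeierstrassCurve.b₄, WeierstrassCurve.b₆, WeierstrassCurve.b₈]
  ring

/-- The properties of the isogeny, as a homomorphism, for equations E, E'. -/
structure IsH {k : Type} [Field k] [DecidableEq k] {E E' : WeierstrassCurve k} (e t u : k) (Φ : E.toAffine.Point →+ E'.toAffine.Point) : Prop where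
  ker : ∀ P, P ≠ 0 → xc P = e → Φ P = 0
  ne : ∀ P, P ≠ 0 → xc P ≠ e → Φ P ≠ 0
  x : ∀ P, P ≠ 0 → xc P ≠ e → xc (Φ P) = vx e t u (xc P)
  y : ∀ P, P ≠ 0 → xc P ≠ e → yc (Φ P) = vd e t u (xc P) * yc P
  surj : Function.Surjective Φ
  six : ∀ P, Φ P = 0 → (6 : ℕ) • P = 0

/-- Chunk V6 (S/M). subst E, E'; Φ from exists_v, additive by v_add (AddMonoidHom.mk'), v_surj, six_pt (Φ P = 0 and P ≠ 0: xc P = e by hΦ.ne). -/
theorem exists_h {k : Type} [Field k] [DecidableEq k] [CharZero k] [IsAlgClosed k] (j : k →+* ℂ) {A B A' B' e t u : k}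
    (h : VI A B A' B' e t u) (L : PeriodPair) (g2 : L.g₂ = -4 * j A) (g3 : L.g₃ = -4 * j B) (E E' : WeierstrassCurve k)
    (hE : E = WAB A B) (hE' : E' = WAB A' B') : ∃ Φ : E.toAffine.Point →+ E'.toAffine.Point, IsH e t u Φ := by
  subst hE hE'
  obtain ⟨Φ, hΦ⟩ := exists_v h
  have hadd := v_add j h L g2 g3 hΦ
  refine ⟨AddMonoidHom.mk' Φ hadd, hΦ.ker, hΦ.ne, hΦ.x, hΦ.y, v_surj h hΦ, ?_⟩
  intro P hP
  have hP' : Φ P = 0 := hP
  by_cases h0 : P = 0
  · rw [h0, nsmul_zero]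
  · refine six_pt h h0 ?_
    by_contra hx
    exact hΦ.ne P h0 hx hP'

variable {K : Type} [Field K] {Ω : Type} [Field Ω] [DecidableEq Ω] [Algebra K Ω]

/-- Chunk V6 (M). The equations A' = lam^4 A'', B' = lam^6 B'' over Ω: exists_h for the images of A, B, lam^4 A'', lam^6 B'', e, t, u in Ω (vi_map; (WAB A B)⁄Ω = WAB (image) (image): ext), E = (WAB A B)⁄Ω, E' = (WAB (lam^4 A'') (lam^6 B''))⁄Ω; then Θ from H55K.MG.vc_iso for VC E' ((WAB A'' B'')⁄Ω) lam 0 0 0 (both discriminants are not 0): xc P = lam^2 xc (Θ P), yc P = lam^3 yc (Θ P).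
Φ = Θ ∘ Φ₀. gal: P = 0 clear; xc P = e: xc (ac s P) = s (xc P) = e (H55K.MG.ac_crd or CC.c27_xc, CC.c27_ne), both sides are 0; otherwise compare the coordinates of the two nonzero points (lam^2 x and lam^3 y; s fixes the image of K). -/
theorem exists_W [CharZero Ω] [IsAlgClosed Ω] (j : Ω →+* ℂ) (L : PeriodPair) {A B A'' B'' e t u lam : K} (hl : lam ≠ 0)
    (h : VI A B (lam ^ 4 * A'') (lam ^ 6 * B'') e t u) (g2 : L.g₂ = -4 * j (algebraMap K Ω A))
    (g3 : L.g₃ = -4 * j (algebraMap K Ω B)) : ∃ Φ : Pt (WAB A B) Ω →+ Pt (WAB A'' B'') Ω, IsW A B A'' B'' e t u lam Φ := by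
  classical
  set a : K →+* Ω := algebraMap K Ω with ha
  have hv := vi_map a h
  have hla : a lam ≠ 0 := (map_ne_zero a).2 hl
  have hE : (WAB A B)⁄Ω = WAB (a A) (a B) := by
    ext
    · exact map_zero a
    · exact map_zero a
    · exact map_zero a
    · rfl
    · rfl
  obtain ⟨Φ₀, h₀⟩ := exists_h j hv L g2 g3 ((WAB A B)⁄Ω) (WAB (a (lam ^ 4 * A'')) (a (lam ^ 6 * B''))) hE rfl
  -- the scaling
  have hVC : VC (WAB (a (lam ^ 4 * A'')) (a (lam ^ 6 * B''))) ((WAB A'' B'')⁄Ω) (a lam) 0 0 0 := by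
    refine ⟨hla, ?_, ?_, ?_, ?_, ?_⟩
    · show a lam * a 0 = 0 + 2 * 0
      rw [map_zero]; ring
    · show a lam ^ 2 * a 0 = 0 - 0 * 0 + 3 * 0 - 0 ^ 2
      rw [map_zero]; ring
    · show a lam ^ 3 * a 0 = 0 + 0 * 0 + 2 * 0
      rw [map_zero]; ring
    · show a lam ^ 4 * a A'' = a (lam ^ 4 * A'') - 0 * 0 + 2 * 0 * 0 - (0 + 0 * 0) * 0 + 3 * 0 ^ 2 - 2 * 0 * 0
      rw [map_mul, map_pow]; ring
    · show a lam ^ 6 * a B'' = a (lam ^ 6 * B'') + 0 * a (lam ^ 4 * A'') + 0 ^ 2 * 0 + 0 ^ 3 - 0 * 0 - 0 ^ 2 - 0 * 0 * 0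
      rw [map_mul, map_pow]; ring
  have hd1 : (WAB (a (lam ^ 4 * A'')) (a (lam ^ 6 * B''))).Δ ≠ 0 := by
    rw [v6_delta]
    exact mul_ne_zero (by norm_num) hv.disc'
  have hd2 : ((WAB A'' B'')⁄Ω).Δ ≠ 0 := by
    have e1 : ((WAB A'' B'')⁄Ω).Δ = a (WAB A'' B'').Δ := (WAB A'' B'').map_Δ _
    rw [e1]
    refine (map_ne_zero a).2 ?_
    rw [v6_delta]
    have h16 : (-16 : K) ≠ 0 := by
      intro h0
      have h1 := congrArg a h0
      rw [map_neg, map_ofNat, map_zero] at h1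
      norm_num at h1
    refine mul_ne_zero h16 fun h0 => h.disc' ?_
    linear_combination lam ^ 12 * h0
  obtain ⟨Θ, hΘ⟩ := H55K.MG.vc_iso hVC hd1 hd2
  set Φ : Pt (WAB A B) Ω →+ Pt (WAB A'' B'') Ω := Θ.toAddMonoidHom.comp Φ₀ with hΦ
  have hΦ1 : ∀ P, Φ P = Θ (Φ₀ P) := fun P => rfl
  have hne : ∀ P, P ≠ 0 → xc P ≠ a e → Φ P ≠ 0 := by
    intro P hP hx
    rw [hΦ1]
    exact (hΘ _ (h₀.ne P hP hx)).1
  have hx : ∀ P, P ≠ 0 → xc P ≠ a e → a lam ^ 2 * xc (Φ P) = vx (a e) (a t) (a u) (xc P) := by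
    intro P hP hx
    rw [hΦ1, ← h₀.x P hP hx, (hΘ _ (h₀.ne P hP hx)).2.1, add_zero]
  have hy : ∀ P, P ≠ 0 → xc P ≠ a e → a lam ^ 3 * yc (Φ P) = vd (a e) (a t) (a u) (xc P) * yc P := by
    intro P hP hx
    rw [hΦ1, ← h₀.y P hP hx, (hΘ _ (h₀.ne P hP hx)).2.2]
    ring
  have hker : ∀ P, P ≠ 0 → xc P = a e → Φ P = 0 := by
    intro P hP hx
    rw [hΦ1, h₀.ker P hP hx, map_zero]
  refine ⟨Φ, hker, hne, hx, ?_, ?_, ?_⟩
  · intro Q
    obtain ⟨P, hP⟩ := h₀.surj (Θ.symm Q)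
    refine ⟨P, ?_⟩
    rw [hΦ1, hP, AddEquiv.apply_symm_apply]
  · intro P hP
    apply h₀.six
    rw [hΦ1] at hP
    exact (map_eq_zero_iff Θ Θ.injective).1 hP
  · intro s P
    by_cases hP : P = 0
    · rw [hP, map_zero, map_zero, map_zero]
    · have hsP := H55K.CC.c27_ne (WAB A B) s hP
      have hsx := H55K.CC.c27_xc (WAB A B) s P
      have hsy := H55K.CC.c27_yc (WAB A B) s P
      by_cases hxe : xc P = a e
      · rw [hker P hP hxe, map_zero]
        apply hker _ hsP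
        rw [hsx, hxe]
        exact s.commutes e
      · have hxe' : xc (ac (WAB A B) s P) ≠ a e := by
          rw [hsx]
          intro h0
          apply hxe
          apply s.injective
          rw [h0]
          exact (s.commutes e).symm
        have b1 := hx P hP hxe
        have b2 := hx _ hsP hxe'
        have b3 := hy P hP hxe
        have b4 := hy _ hsP hxe'
        have c1 := congrArg s b1
        have c2 := congrArg s b3
        have sc : ∀ z : K, s (a z) = a z := fun z => s.commutes z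
        have hlz : s (a lam) = a lam := sc lam
        refine H55K.CC.c14_ext (hne _ hsP hxe') (H55K.CC.c27_ne (WAB A'' B'') s (hne P hP hxe)) ?_ ?_
        · rw [H55K.CC.c27_xc]
          apply mul_left_cancel₀ (pow_ne_zero 2 hla)
          rw [b2, hsx]
          rw [map_mul, map_pow, hlz] at c1
          rw [c1]
          unfold vx
          simp only [map_add, map_div₀, map_sub, map_pow, sc]
        · rw [H55K.CC.c27_yc]
          apply mul_left_cancel₀ (pow_ne_zero 3 hla)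
          rw [b4, hsx, hsy]
          rw [map_mul, map_pow, hlz] at c2
          rw [c2]
          unfold vd
          simp only [map_mul, map_div₀, map_sub, map_pow, map_one, map_ofNat, sc]

end H28I
end

-- from Lib.H28I.K1
section

/-! # H28I, part K: the isogeny over a number field -/

open NumberField IsDedekindDomain WeierstrassCurve

namespace H28I

open H55P (IQ embF eF LF Per IsHecke Pt ac Inert Dec Nm)
open H35P (WAB Ker tt GoodW IntW)
open H55K (xc yc)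

theorem k1_cur (W : WeierstrassCurve ℤ) (K : Type) [Field K] [NumberField K] : (W⁄(𝓞 K))⁄K = W⁄K := by
  show (W.map (algebraMap ℤ (𝓞 K))).map (algebraMap (𝓞 K) K) = W.map (algebraMap ℤ K)
  rw [WeierstrassCurve.map_map]
  congr 1

/-- Chunk K1 (S). H13D.exists_model (B3.lean) for K instead of F, W₀ = W⁄(𝓞 K), (W⁄(𝓞 K))⁄K = W⁄K (see H55K.TQ.cur_eq in FB3A.lean); the c₄, c₆ of W⁄(𝓞 K) are the images of integers. -/
theorem model_K (W : WeierstrassCurve ℤ) (hΔ : W.Δ ≠ 0) (K : Type) [Field K] [NumberField K] (Ω : Type) [Field Ω] [DecidableEq Ω]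
    [Algebra K Ω] : ∃ Θ : Pt (WAB (sA W K) (sB W K)) Ω ≃+ Pt (W⁄K) Ω,
      ∀ (s : Ω ≃ₐ[K] Ω) (P : Pt (WAB (sA W K) (sB W K)) Ω), Θ (ac (WAB (sA W K) (sB W K)) s P) = ac (W⁄K) s (Θ P) := by
  have hA : sA W K = -(algebraMap (𝓞 K) K (W⁄(𝓞 K)).c₄) / 48 := by
    have e1 : (W⁄(𝓞 K)).c₄ = algebraMap ℤ (𝓞 K) W.c₄ := W.map_c₄ _
    rw [e1, sA]
    simp
  have hB : sB W K = -(algebraMap (𝓞 K) K (W⁄(𝓞 K)).c₆) / 864 := by
    have e1 : (W⁄(𝓞 K)).c₆ = algebraMap ℤ (𝓞 K) W.c₆ := W.map_c₆ _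
    rw [e1, sB]
    simp
  have hd : (W⁄(𝓞 K)).Δ ≠ 0 := by
    have e1 : (W⁄(𝓞 K)).Δ = algebraMap ℤ (𝓞 K) W.Δ := W.map_Δ _
    rw [e1]
    simpa using hΔ
  have h := H13D.exists_model (Ω := Ω) (W⁄(𝓞 K)) hA hB hd
  rw [k1_cur W K] at h
  obtain ⟨Θ, -, hΘ⟩ := h
  exact ⟨Θ, hΘ⟩

/-- Chunk K1 (S). Apply algebraMap ℚ K (vi_map in V4.lean); the images of sA W ℚ, sB W ℚ are sA W K, sB W K (map_intCast, map_div₀). -/
theorem vi_K {W W' : WeierstrassCurve ℤ} {kap : ℤ} {e t u lam : ℚ} (h : IP W W' kap e t u lam) (K : Type) [Field K] [CharZero K] [DecidableEq K] :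
    VI (sA W K) (sB W K) ((lam : K) ^ 4 * sA W' K) ((lam : K) ^ 6 * sB W' K) (e : K) (t : K) (u : K) := by
  have h1 := vi_map (Rat.castHom K) h.vi
  have eA : ∀ W : WeierstrassCurve ℤ, Rat.castHom K (sA W ℚ) = sA W K := by
    intro W
    simp [sA]
  have eB : ∀ W : WeierstrassCurve ℤ, Rat.castHom K (sB W ℚ) = sB W K := by
    intro W
    simp [sB]
  rw [map_mul, map_mul, map_pow, map_pow, eA, eA, eB, eB] at h1
  exact h1

/-- Chunk K1 (S). 1728 Δ = c₄^3 - c₆^2, so Δ = -16 (4 A^3 + 27 B^2) for A = -c₄/48, B = -c₆/864; the discriminants in vi are not 0. -/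
theorem disc_ne {W W' : WeierstrassCurve ℤ} {kap : ℤ} {e t u lam : ℚ} (h : IP W W' kap e t u lam) : W.Δ ≠ 0 ∧ W'.Δ ≠ 0 := by
  have key : ∀ W : WeierstrassCurve ℤ, (W.Δ : ℚ) = -16 * (4 * sA W ℚ ^ 3 + 27 * sB W ℚ ^ 2) := by
    intro W
    have h1 := W.c_relation
    have h2 : (1728 : ℚ) * (W.Δ : ℚ) = (W.c₄ : ℚ) ^ 3 - (W.c₆ : ℚ) ^ 2 := by
      exact_mod_cast h1
    rw [sA, sB]
    linear_combination h2 / 1728
  constructor
  · intro h0
    have h1 := key W
    rw [h0, Int.cast_zero] at h1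
    have h2 := h.vi.disc
    apply h2
    linarith
  · intro h0
    have h1 := key W'
    rw [h0, Int.cast_zero] at h1
    have h2 := h.vi.disc'
    apply h2
    have h3 : 4 * sA W' ℚ ^ 3 + 27 * sB W' ℚ ^ 2 = 0 := by linarith
    linear_combination lam ^ 12 * h3

theorem k1_exj (K : Type) [Field K] [NumberField K] : ∃ j : AlgebraicClosure K →+* ℂ, True := by
  obtain ⟨i⟩ : Nonempty (K →+* ℂ) := inferInstance
  letI : Algebra K ℂ := i.toAlgebra
  let j : AlgebraicClosure K →ₐ[K] ℂ := IsAlgClosed.lift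
  exact ⟨j.toRingHom, trivial⟩

open Classical in
/-- Chunk K1 (M). Ω = the algebraic closure; j : Ω → ℂ (an embedding of K in ℂ exists: NumberField, and IsAlgClosed.lift; see H55K.exists_j). exists_W (V6.lean) for A = sA W K, A'' = sA W' K and so on (vi_K), L.g₂ = c₄/12 = -4 j(A). Φ' = Θ' ∘ Φ ∘ Θ⁻¹ with model_K for W and W'; iso6_of_surj (C1.lean). -/
theorem iso6_of {W W' : WeierstrassCurve ℤ} {kap : ℤ} {e t u lam : ℚ} (h : IP W W' kap e t u lam) {L : PeriodPair}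
    (hL : H55K.TQ.PerZ W L) (K : Type) [Field K] [NumberField K] : Iso6 (W⁄K) (W'⁄K) (AlgebraicClosure K) := by
  obtain ⟨j, -⟩ := k1_exj K
  obtain ⟨hd1, hd2⟩ := disc_ne h
  have hl : (lam : K) ≠ 0 := by
    exact_mod_cast h.lam0
  have hg2 : L.g₂ = -4 * j (algebraMap K (AlgebraicClosure K) (sA W K)) := by
    rw [hL.g2, sA]
    simp only [map_div₀, map_neg, map_intCast, map_ofNat]
    ring
  have hg3 : L.g₃ = -4 * j (algebraMap K (AlgebraicClosure K) (sB W K)) := by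
    rw [hL.g3, sB]
    simp only [map_div₀, map_neg, map_intCast, map_ofNat]
    ring
  haveI : CharZero (AlgebraicClosure K) := charZero_of_injective_algebraMap (algebraMap K (AlgebraicClosure K)).injective
  obtain ⟨Φ, hΦ⟩ := exists_W (Ω := AlgebraicClosure K) j L hl (vi_K h K) hg2 hg3
  obtain ⟨Θ, hΘ⟩ := model_K W hd1 K (AlgebraicClosure K)
  obtain ⟨Θ', hΘ'⟩ := model_K W' hd2 K (AlgebraicClosure K)
  have hinv : ∀ (s : AlgebraicClosure K ≃ₐ[K] AlgebraicClosure K) (P : Pt (W⁄K) (AlgebraicClosure K)),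
      Θ.symm (ac (W⁄K) s P) = ac (WAB (sA W K) (sB W K)) s (Θ.symm P) := by
    intro s P
    apply Θ.injective
    rw [AddEquiv.apply_symm_apply, hΘ, AddEquiv.apply_symm_apply]
  refine iso6_of_surj (Θ'.toAddMonoidHom.comp (Φ.comp Θ.symm.toAddMonoidHom)) ?_ ?_ ?_
  · intro P
    obtain ⟨Q, hQ⟩ := Θ'.surjective P
    obtain ⟨R, hR⟩ := hΦ.surj Q
    refine ⟨Θ R, ?_⟩
    show Θ' (Φ (Θ.symm (Θ R))) = P
    rw [AddEquiv.symm_apply_apply, hR, hQ]
  · intro P hP
    have h1 : Θ' (Φ (Θ.symm P)) = 0 := hP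
    have h2 : Φ (Θ.symm P) = 0 := by
      apply Θ'.injective
      rw [h1, map_zero]
    have h3 := hΦ.six _ h2
    rw [← map_nsmul] at h3
    apply Θ.symm.injective
    rw [h3, map_zero]
  · intro s P
    show Θ' (Φ (Θ.symm (ac (W⁄K) s P))) = ac (W'⁄K) s (Θ' (Φ (Θ.symm P)))
    rw [hinv, hΦ.gal, hΘ']

end H28I
end

-- from Lib.H28I.E6
section

/-! # H28I, part E: integrality of the isogeny -/

open NumberField IsDedekindDomain WeierstrassCurve

namespace H28I

open H55P (IQ embF eF LF Per IsHecke Pt ac Inert Dec Nm)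
open H35P (WAB Ker tt GoodW IntW)
open H55K (xc yc)
open H13D
open H55K (CMA ak)

variable {F : Type} [Field F] [NumberField F] {Ω : Type} [Field Ω] [DecidableEq Ω] [Algebra F Ω] {V : ValuationSubring Ω}

/-- The data of the isogeny are integral at V. -/
structure IntA (W W' : WeierstrassCurve ℤ) (V : ValuationSubring Ω) (e t u lam : ℚ) : Prop where
  vlam : V.valuation (lam : Ω) = 1
  ve : V.valuation ((e : Ω) - (W.b₂ : Ω) / 12) ≤ 1
  vt : V.valuation (t : Ω) ≤ 1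
  vu : V.valuation (u : Ω) ≤ 1
  vrho : V.valuation ((lam : Ω) ^ 2 * ((W'.b₂ : Ω) / 12) - (W.b₂ : Ω) / 12) ≤ 1

theorem e6_int {v : HeightOneSpectrum (𝓞 F)}
    (hv : ∀ a : 𝓞 F, a ∈ v.asIdeal → V.valuation (ak Ω a) < 1) {n : ℤ} (hn : (n : 𝓞 F) ∉ v.asIdeal) :
    V.valuation (n : Ω) = 1 := by
  have h1 := H55K.TQ.t8_val hv hn
  rwa [show ak Ω ((n : ℤ) : 𝓞 F) = (n : Ω) by simp [ak]] at h1

theorem e6_lt {v : HeightOneSpectrum (𝓞 F)}
    (hv : ∀ a : 𝓞 F, a ∈ v.asIdeal → V.valuation (ak Ω a) < 1) {n : ℤ} (hn : (n : 𝓞 F) ∈ v.asIdeal) :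
    V.valuation (n : Ω) < 1 := by
  have h1 := hv _ hn
  rwa [show ak Ω ((n : ℤ) : 𝓞 F) = (n : Ω) by simp [ak]] at h1

theorem e6_le (n : ℤ) : V.valuation (n : Ω) ≤ 1 :=
  (V.valuation_le_one_iff _).2 (intCast_mem V n)

theorem e6_delta (W : WeierstrassCurve ℤ) (R : Type) [CommRing R] : (W⁄R).Δ = (W.Δ : R) := by
  have h1 : (W⁄R).Δ = algebraMap ℤ R W.Δ := W.map_Δ _
  rw [h1]
  simp

theorem e6_pt {k : Type} [Field k] [IsAlgClosed k] {A B : k} (hd : 4 * A ^ 3 + 27 * B ^ 2 ≠ 0) [CharZero k] (e : k)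
    (E : WeierstrassCurve k) (hE : E = WAB A B) : ∃ T : E.toAffine.Point, T ≠ 0 ∧ xc T = e := by
  subst hE
  obtain ⟨y, hy⟩ := IsAlgClosed.exists_pow_nat_eq (e ^ 3 + A * e + B) (show 0 < 2 by norm_num)
  have h1 : (WAB A B).toAffine.Equation e y := by
    rw [Affine.equation_iff]
    simp only [WAB]
    linear_combination hy
  have h2 : (WAB A B).Δ ≠ 0 := by
    have h3 : (WAB A B).Δ = -16 * (4 * A ^ 3 + 27 * B ^ 2) := by
      simp only [WAB, WeierstrassCurve.Δ, WeierstrassCurve.b₂, WeierstrassCurve.b₄, WeierstrassCurve.b₆, WeierstrassCurve.b₈]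
      ring
    rw [h3]
    exact mul_ne_zero (by norm_num) hd
  refine ⟨Affine.Point.some e y ((Affine.equation_iff_nonsingular_of_Δ_ne_zero h2).1 h1), ?_, rfl⟩
  exact Affine.Point.some_ne_zero _

theorem e6_two {k : Type} [Field k] [DecidableEq k] [CharZero k] {A B e : k} (he : e ^ 3 + A * e + B = 0)
    (E : WeierstrassCurve k) (hE : E = WAB A B) {P : E.toAffine.Point} (h0 : P ≠ 0) (hx : xc P = e) : (2 : ℕ) • P = 0 := by
  subst hE
  exact two_pt he h0 hx

theorem e6_three {k : Type} [Field k] [DecidableEq k] [CharZero k] {A B e : k} (hd : 4 * A ^ 3 + 27 * B ^ 2 ≠ 0)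
    (h3 : 3 * e ^ 4 + 6 * A * e ^ 2 + 12 * B * e - A ^ 2 = 0)
    (E : WeierstrassCurve k) (hE : E = WAB A B) {P : E.toAffine.Point} (h0 : P ≠ 0) (hx : xc P = e) : (3 : ℕ) • P = 0 := by
  subst hE
  exact three_pt hd h3 h0 hx

theorem e6_eq (W : WeierstrassCurve ℤ) : (WAB (sA W F) (sB W F))⁄Ω = WAB (sA W Ω) (sB W Ω) := by
  ext
  · exact map_zero (algebraMap F Ω)
  · exact map_zero (algebraMap F Ω)
  · exact map_zero (algebraMap F Ω)
  · show algebraMap F Ω (sA W F) = sA W Ω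
    simp only [sA, map_div₀, map_neg, map_intCast, map_ofNat]
  · show algebraMap F Ω (sB W F) = sB W Ω
    simp only [sB, map_div₀, map_neg, map_intCast, map_ofNat]

/-- Chunk E6 (S/M). v above V. An integer n with (n : 𝓞 F) not in v has value 1 (H55K.TQ.t8_val in T8.lean), in v value < 1. W.Δ, W'.Δ have value 1 (map_Δ); kap divides W.Δ^n, so V(kap) = 1; quo (cast to Ω): V(lam)^12 = 1, so V(lam) = 1 (pow_eq_one_iff / linear order). -/
theorem lam_unit {W W' : WeierstrassCurve ℤ} {kap : ℤ} {e t u lam : ℚ} (h : IP W W' kap e t u lam) {v : HeightOneSpectrum (𝓞 F)}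
    (hv : ∀ a : 𝓞 F, a ∈ v.asIdeal → V.valuation (ak Ω a) < 1) (hΔ : (W⁄(𝓞 F)).Δ ∉ v.asIdeal) (hΔ' : (W'⁄(𝓞 F)).Δ ∉ v.asIdeal) :
    V.valuation (lam : Ω) = 1 := by
  have hz := fun n : ℤ => e6_int (Ω := Ω) hv (n := n)
  have : CharZero Ω := charZero_of_injective_algebraMap (algebraMap F Ω).injective
  rw [e6_delta] at hΔ hΔ'
  have h1 : V.valuation (W.Δ : Ω) = 1 := hz _ hΔ
  have h2 : V.valuation (W'.Δ : Ω) = 1 := hz _ hΔ'
  have h3 : V.valuation (kap : Ω) = 1 := by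
    apply hz
    intro hk
    obtain ⟨n, c, hc⟩ := h.kd
    have h4 : ((W.Δ : ℤ) : 𝓞 F) ^ n ∈ v.asIdeal := by
      have h5 : ((W.Δ : ℤ) : 𝓞 F) ^ n = (kap : 𝓞 F) * (c : 𝓞 F) := by
        exact_mod_cast congrArg (fun z : ℤ => (z : 𝓞 F)) hc
      rw [h5]
      exact Ideal.mul_mem_right _ _ hk
    exact hΔ (v.isPrime.mem_of_pow_mem _ h4)
  have h6 : (lam : Ω) ^ 12 * (W'.Δ : Ω) = (kap : Ω) * (W.Δ : Ω) := by
    have := congrArg (fun z : ℚ => (z : Ω)) h.quo
    push_cast at this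
    exact this
  have h7 := congrArg V.valuation h6
  rw [map_mul, map_mul, map_pow, h1, h2, h3, mul_one, mul_one] at h7
  exact (pow_eq_one_iff.1 h7).resolve_right (by norm_num)

/-- Chunk E6 (M). A point T ≠ 0 with xc T = e exists (y with y^2 = e^3 + A e + B, Ω algebraically closed; or it is given: only the statement for all T is needed, and e₀ from a T). Cases of h.vi.cs (cast to Ω; vi_K in K1.lean style).
Case 2 (u = 4 f(e), degree 3; u ≠ 0 by f_ne in V0.lean): h.three: 3 divides Δ, so V(3) = 1 (otherwise 3 is in v: t8_val; 3 divides Δ: Δ in v). q = 3, q • T = 0 (three_pt). T is not in Kg (hR.tors), V(e₀) ≤ 1 (hR.int; xn 1 r T = e - b₂/12). tu_int.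
Case 1 (u = 0, degree 2), q = 2 (two_pt). If V(2) = 1: the same. If V(2) < 1: 2 is in v, so 2 does not divide Δ; h.two: b₂ is odd (V(b₂) = 1: odd integers have value 1, 2 a + 1) and t = a/b with b odd, so V(t) ≤ 1: e0_ord gives V(e₀) ≤ 1, T is not in Kg (hR.big). tu_int. In all cases rho_int. -/
theorem int_all [IsAlgClosed Ω] {W W' : WeierstrassCurve ℤ} {kap : ℤ} {e t u lam : ℚ} (h : IP W W' kap e t u lam) {v : HeightOneSpectrum (𝓞 F)}
    (hv : ∀ a : 𝓞 F, a ∈ v.asIdeal → V.valuation (ak Ω a) < 1) (hΔ : (W⁄(𝓞 F)).Δ ∉ v.asIdeal) (hΔ' : (W'⁄(𝓞 F)).Δ ∉ v.asIdeal)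
    {Kg : AddSubgroup (Pt (WAB (sA W F) (sB W F)) Ω)} (hR : RM (sA W F) (sB W F) V Kg 1 ((W.b₂ : Ω) / 12)) :
    IntA W W' V e t u lam ∧ ∃ q : ℕ, 0 < q ∧ ∀ T : Pt (WAB (sA W F) (sB W F)) Ω, T ≠ 0 → xc T = (e : Ω) → T ∉ Kg ∧ q • T = 0 := by
  have hl := lam_unit h hv hΔ hΔ'
  have : CharZero Ω := charZero_of_injective_algebraMap (algebraMap F Ω).injective
  have hVI := vi_K h Ω
  have hE := e6_eq (F := F) (Ω := Ω) W
  rw [e6_delta] at hΔ
  obtain ⟨T₀, hT0, hTx⟩ := e6_pt hVI.disc (e : Ω) _ hE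
  have hxn : ∀ T : Pt (WAB (sA W F) (sB W F)) Ω, xc T = (e : Ω) →
      xn 1 ((W.b₂ : Ω) / 12) T = (e : Ω) - (W.b₂ : Ω) / 12 := by
    intro T hT
    unfold xn
    rw [hT]
    simp
  -- from an estimate of e and the points to everything
  have hfin : V.valuation ((e : Ω) - (W.b₂ : Ω) / 12) ≤ 1 →
      ((u : Ω) = 0 → V.valuation (2 : Ω) = 1 ∨ V.valuation (t : Ω) ≤ 1) → IntA W W' V e t u lam := by
    intro h1 h2
    obtain ⟨ht, hu⟩ := tu_int W hVI h1 h2
    exact ⟨hl, h1, ht, hu, rho_int W W' hVI.hA hVI.hB hl h1 ht hu⟩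
  have hq : ∀ q : ℕ, V.valuation (q : Ω) = 1 → (∀ T : Pt (WAB (sA W F) (sB W F)) Ω, T ≠ 0 → xc T = (e : Ω) → q • T = 0) →
      (∀ T : Pt (WAB (sA W F) (sB W F)) Ω, T ≠ 0 → xc T = (e : Ω) → T ∉ Kg ∧ q • T = 0) ∧
        V.valuation ((e : Ω) - (W.b₂ : Ω) / 12) ≤ 1 := by
    intro q hq1 hq2
    have h1 : ∀ T : Pt (WAB (sA W F) (sB W F)) Ω, T ≠ 0 → xc T = (e : Ω) → T ∉ Kg ∧ q • T = 0 := by
      intro T h0 hx
      refine ⟨fun hK => h0 (hR.tors q hq1 T hK (hq2 T h0 hx)), hq2 T h0 hx⟩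
    refine ⟨h1, ?_⟩
    rw [← hxn T₀ hTx]
    exact hR.int T₀ (h1 T₀ hT0 hTx).1
  have hdv : ∀ n : ℤ, n ∣ W.Δ → (n : 𝓞 F) ∉ v.asIdeal := by
    intro n hn hm
    obtain ⟨c, hc⟩ := hn
    apply hΔ
    rw [hc, Int.cast_mul]
    exact Ideal.mul_mem_right _ _ hm
  rcases hVI.cs with ⟨hu, he, ht⟩ | ⟨ht, hu, h3⟩
  · have hu' : u = 0 := by exact_mod_cast hu
    have h2p : ∀ T : Pt (WAB (sA W F) (sB W F)) Ω, T ≠ 0 → xc T = (e : Ω) → (2 : ℕ) • T = 0 := by
      intro T h0 hx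
      exact e6_two he _ hE h0 hx
    by_cases hV : V.valuation (2 : Ω) = 1
    · obtain ⟨h4, h5⟩ := hq 2 (by exact_mod_cast hV) h2p
      exact ⟨hfin h5 fun _ => Or.inl hV, 2, by norm_num, h4⟩
    · have h2v : ((2 : ℤ) : 𝓞 F) ∈ v.asIdeal := by
        by_contra hn
        exact hV (by exact_mod_cast e6_int (Ω := Ω) (V := V) hv hn)
      have hV2 : V.valuation (2 : Ω) < 1 := by
        exact_mod_cast e6_lt (Ω := Ω) (V := V) hv h2v
      have hnd : ¬ (2 : ℤ) ∣ W.Δ := fun hn => hdv _ hn h2v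
      have hodd : ∀ b : ℤ, ¬ (2 : ℤ) ∣ b → V.valuation (b : Ω) = 1 := by
        intro b hb
        apply e6_int hv
        intro hm
        obtain ⟨m, hm2⟩ : ∃ m, b = 2 * m + 1 := ⟨b / 2, by omega⟩
        apply v.isPrime.ne_top
        rw [Ideal.eq_top_iff_one]
        have h6 : (1 : 𝓞 F) = (b : 𝓞 F) - ((2 : ℤ) : 𝓞 F) * (m : 𝓞 F) := by
          rw [hm2]
          push_cast
          ring
        rw [h6]
        exact Ideal.sub_mem _ hm (Ideal.mul_mem_right _ _ h2v)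
      rcases h.two hu' with h7 | ⟨hb, a, b, hb2, htt⟩
      · exact absurd h7 hnd
      have htV : V.valuation (t : Ω) ≤ 1 := by
        rw [htt]
        push_cast
        rw [map_div₀, hodd b hb2, div_one]
        exact e6_le a
      have h5 : V.valuation ((e : Ω) - (W.b₂ : Ω) / 12) ≤ 1 := e0_ord W he ht hV2 (hodd _ hb) htV
      refine ⟨hfin h5 fun _ => Or.inr htV, 2, by norm_num, ?_⟩
      intro T h0 hx
      refine ⟨fun hK => ?_, h2p T h0 hx⟩
      have h8 := hR.big T hK h0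
      rw [hxn T hx] at h8
      exact absurd h5 (not_le.2 h8)
  · have hu0 : (u : Ω) ≠ 0 := by
      rw [hu]
      exact mul_ne_zero (by norm_num) (f_ne hVI.disc h3)
    have hu' : u ≠ 0 := by
      intro h9
      exact hu0 (by rw [h9]; simp)
    have hV : V.valuation (3 : Ω) = 1 := by
      exact_mod_cast e6_int (Ω := Ω) (V := V) hv (hdv 3 (h.three hu'))
    obtain ⟨h4, h5⟩ := hq 3 (by exact_mod_cast hV) (fun T h0 hx => e6_three hVI.disc h3 _ hE h0 hx)
    exact ⟨hfin h5 fun h9 => absurd h9 hu0, 3, by norm_num, h4⟩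

end H28I
end

-- from Lib.H28I.E7
section

/-! # H28I, part E: the isogeny and the kernels of reduction -/

open NumberField IsDedekindDomain WeierstrassCurve

namespace H28I

open H55P (IQ embF eF LF Per IsHecke Pt ac Inert Dec Nm)
open H35P (WAB Ker tt GoodW IntW)
open H55K (xc yc)
open H13D
open H55K (CMA ak)

variable {F : Type} [Field F] [NumberField F] {Ω : Type} [Field Ω] [DecidableEq Ω] [Algebra F Ω] {V : ValuationSubring Ω}
  {W W' : WeierstrassCurve ℤ} {e t u lam : ℚ} {Kg : AddSubgroup (Pt (WAB (sA W F) (sB W F)) Ω)}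
  {Kg' : AddSubgroup (Pt (WAB (sA W' F) (sB W' F)) Ω)}
  {Φ : Pt (WAB (sA W F) (sB W F)) Ω →+ Pt (WAB (sA W' F) (sB W' F)) Ω}

theorem e7_map (r : ℚ) : algebraMap F Ω (r : F) = (r : Ω) := map_ratCast _ _

theorem e7_xn {E : WeierstrassCurve F} (c : Ω) (X : Pt E Ω) : xn 1 c X = xc X - c := by
  simp [xn]

/-- Chunk E7 (S/M). Definition of xn, hΦ.x, vx: with x = xc X - b₂/12, e₀ = e - b₂/12, ρ = lam^2 b₂'/12 - b₂/12: lam^2 xc (Φ X) = xc X + t/(x - e₀) + u/(x - e₀)^2 and xc X = x + b₂/12. (algebraMap F Ω of a rational number is the rational number: map_ratCast.) -/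
theorem xn_phi (hΦ : IsW (sA W F) (sB W F) (sA W' F) (sB W' F) (e : F) (t : F) (u : F) (lam : F) Φ) (hl : (lam : Ω) ≠ 0)
    {X : Pt (WAB (sA W F) (sB W F)) Ω} (h0 : X ≠ 0) (hX : xc X ≠ (e : Ω)) :
    (lam : Ω) ^ 2 * xn 1 ((W'.b₂ : Ω) / 12) (Φ X) = xn 1 ((W.b₂ : Ω) / 12) X +
      (t : Ω) / (xn 1 ((W.b₂ : Ω) / 12) X - ((e : Ω) - (W.b₂ : Ω) / 12)) +
      (u : Ω) / (xn 1 ((W.b₂ : Ω) / 12) X - ((e : Ω) - (W.b₂ : Ω) / 12)) ^ 2 -
      ((lam : Ω) ^ 2 * ((W'.b₂ : Ω) / 12) - (W.b₂ : Ω) / 12) := by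
  have hx := hΦ.x X h0 (by rwa [e7_map])
  rw [e7_map, e7_map, e7_map, e7_map, vx] at hx
  rw [e7_xn, e7_xn]
  have h1 : xc X - (W.b₂ : Ω) / 12 - ((e : Ω) - (W.b₂ : Ω) / 12) = xc X - (e : Ω) := by ring
  rw [h1, mul_sub, hx]
  ring

theorem e7_big {x e₀ t u ρ : Ω} (he : V.valuation e₀ ≤ 1) (ht : V.valuation t ≤ 1) (hu : V.valuation u ≤ 1)
    (hρ : V.valuation ρ ≤ 1) (hx : 1 < V.valuation x) :
    V.valuation (x + t / (x - e₀) + u / (x - e₀) ^ 2 - ρ) = V.valuation x := by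
  have h1 : V.valuation (x - e₀) = V.valuation x := by
    exact V.valuation.map_sub_eq_of_lt_left (lt_of_le_of_lt he hx)
  have h2 : V.valuation (t / (x - e₀)) ≤ 1 := by
    rw [map_div₀, h1]
    exact div_le_one_of_le₀ (ht.trans hx.le) zero_le'
  have h3 : V.valuation (u / (x - e₀) ^ 2) ≤ 1 := by
    rw [map_div₀, map_pow, h1]
    exact div_le_one_of_le₀ (hu.trans (one_le_pow₀ hx.le)) zero_le'
  have h4 : V.valuation (t / (x - e₀) + u / (x - e₀) ^ 2 - ρ) ≤ 1 :=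
    V.valuation.map_sub_le (V.valuation.map_add_le h2 h3) hρ
  have h5 : x + t / (x - e₀) + u / (x - e₀) ^ 2 - ρ = x + (t / (x - e₀) + u / (x - e₀) ^ 2 - ρ) := by ring
  rw [h5]
  exact V.valuation.map_add_eq_of_lt_left (lt_of_le_of_lt h4 hx)

theorem e7_le {x e₀ t u ρ : Ω} (ht : V.valuation t ≤ 1) (hu : V.valuation u ≤ 1)
    (hρ : V.valuation ρ ≤ 1) (hx : V.valuation x ≤ 1) (he : V.valuation (x - e₀) = 1) :
    V.valuation (x + t / (x - e₀) + u / (x - e₀) ^ 2 - ρ) ≤ 1 := by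
  have h2 : V.valuation (t / (x - e₀)) ≤ 1 := by
    rw [map_div₀, he, div_one]
    exact ht
  have h3 : V.valuation (u / (x - e₀) ^ 2) ≤ 1 := by
    rw [map_div₀, map_pow, he, one_pow, div_one]
    exact hu
  exact V.valuation.map_sub_le (V.valuation.map_add_le (V.valuation.map_add_le hx h2) h3) hρ

/-- Chunk E7 (M). X = 0 clear. xc X = e: Φ X = 0 (hΦ.ker). Otherwise V(x) > 1 for x = xn X (hR.big), V(x - e₀) = V(x), so the terms t/.. and u/.. have value < 1, V(ρ) ≤ 1: V(xn (Φ X)) = V(x) > 1 (V(lam) = 1), so Φ X is in Kg' (hR'.int: otherwise V ≤ 1). -/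
theorem phi_in (hΦ : IsW (sA W F) (sB W F) (sA W' F) (sB W' F) (e : F) (t : F) (u : F) (lam : F) Φ) (hI : IntA W W' V e t u lam)
    (hR : RM (sA W F) (sB W F) V Kg 1 ((W.b₂ : Ω) / 12)) (hR' : RM (sA W' F) (sB W' F) V Kg' 1 ((W'.b₂ : Ω) / 12))
    {X : Pt (WAB (sA W F) (sB W F)) Ω} (hX : X ∈ Kg) : Φ X ∈ Kg' := by
  by_cases h0 : X = 0
  · rw [h0, map_zero]
    exact Kg'.zero_mem
  by_cases he : xc X = (e : Ω)
  · rw [hΦ.ker X h0 (by rw [e7_map, he])]
    exact Kg'.zero_mem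
  have hl : (lam : Ω) ≠ 0 := by
    intro h
    have h1 := hI.vlam
    rw [h, map_zero] at h1
    exact zero_ne_one h1
  have h1 := xn_phi hΦ hl h0 he
  have h2 := hR.big X hX h0
  have h3 := e7_big hI.ve hI.vt hI.vu hI.vrho h2
  rw [← h1, map_mul, map_pow, hI.vlam, one_pow, one_mul] at h3
  by_contra h4
  have h5 := hR'.int _ h4
  rw [h3] at h5
  exact absurd h2 (not_lt.2 h5)

/-- Chunk E7 (M). X in Kg clear. Otherwise X ≠ 0. xc X = e: q • X = 0 (hT). Otherwise Φ X ≠ 0 (hΦ.ne), V(xn (Φ X)) > 1 (hR'.big), V(x) ≤ 1 for x = xn X (hR.int), V(ρ) ≤ 1: so V(t/(x - e₀) + u/(x - e₀)^2) > 1, and V(x - e₀) ≤ 1, V(t), V(u) ≤ 1: V(x - e₀) < 1 (if it were 1 the sum would have value ≤ 1).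
T with xc T = e, T ≠ 0 (y with y^2 = e^3 + A e + B, IsAlgClosed; the curve is nonsingular: disc_ne style, hypothesis hd). T is not in Kg (hT), xn T = e₀: cls_of (H13D/A1.lean): X - T or X + T is in Kg, so q • X is in Kg. -/
theorem phi_ker [IsAlgClosed Ω] (hd : 4 * sA W F ^ 3 + 27 * sB W F ^ 2 ≠ 0)
    (hΦ : IsW (sA W F) (sB W F) (sA W' F) (sB W' F) (e : F) (t : F) (u : F) (lam : F) Φ) (hI : IntA W W' V e t u lam)
    (hR : RM (sA W F) (sB W F) V Kg 1 ((W.b₂ : Ω) / 12)) (hR' : RM (sA W' F) (sB W' F) V Kg' 1 ((W'.b₂ : Ω) / 12)) {q : ℕ}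
    (hT : ∀ T : Pt (WAB (sA W F) (sB W F)) Ω, T ≠ 0 → xc T = (e : Ω) → T ∉ Kg ∧ q • T = 0)
    {X : Pt (WAB (sA W F) (sB W F)) Ω} (hX : Φ X ∈ Kg') : q • X ∈ Kg := by
  by_cases hK : X ∈ Kg
  · exact Kg.nsmul_mem hK q
  have h0 : X ≠ 0 := by
    rintro rfl
    exact hK Kg.zero_mem
  by_cases he : xc X = (e : Ω)
  · rw [(hT X h0 he).2]
    exact Kg.zero_mem
  have hl : (lam : Ω) ≠ 0 := by
    intro h
    have h1 := hI.vlam
    rw [h, map_zero] at h1
    exact zero_ne_one h1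
  have h1 := xn_phi hΦ hl h0 he
  have h2 := hR.int X hK
  have h3 : 1 < V.valuation (xn 1 ((W'.b₂ : Ω) / 12) (Φ X)) := hR'.big _ hX (hΦ.ne X h0 (by rwa [e7_map]))
  have h4 : 1 < V.valuation ((lam : Ω) ^ 2 * xn 1 ((W'.b₂ : Ω) / 12) (Φ X)) := by
    rwa [map_mul, map_pow, hI.vlam, one_pow, one_mul]
  rw [h1] at h4
  have h5 : V.valuation (xn 1 ((W.b₂ : Ω) / 12) X - ((e : Ω) - (W.b₂ : Ω) / 12)) < 1 := by
    refine lt_of_le_of_ne (V.valuation.map_sub_le h2 hI.ve) fun h => ?_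
    exact absurd h4 (not_lt.2 (e7_le hI.vt hI.vu hI.vrho h2 h))
  -- the point T
  have hd' : 4 * sA W Ω ^ 3 + 27 * sB W Ω ^ 2 ≠ 0 := by
    intro h
    apply hd
    apply (algebraMap F Ω).injective
    rw [map_zero]
    simp only [map_add, map_mul, map_pow, map_ofNat, sA, sB, map_div₀, map_neg, map_intCast] at h ⊢
    exact h
  haveI : CharZero Ω := charZero_of_injective_algebraMap (algebraMap F Ω).injective
  obtain ⟨T, hT0, hTe⟩ := e6_pt hd' (e : Ω) _ (e6_eq (F := F) (Ω := Ω) W)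
  obtain ⟨hTK, hTq⟩ := hT T hT0 hTe
  have h6 : V.valuation (xn 1 ((W.b₂ : Ω) / 12) X - xn 1 ((W.b₂ : Ω) / 12) T) < 1 := by
    have h7 : xn 1 ((W.b₂ : Ω) / 12) T = (e : Ω) - (W.b₂ : Ω) / 12 := by
      rw [e7_xn, hTe]
    rw [h7]
    exact h5
  have h10 : X - T ∈ Kg ∨ X + T ∈ Kg := by
    by_contra hcon
    push Not at hcon
    have h11 := hR.diff X T hK hTK hcon.1 hcon.2
    rw [h11] at h6
    exact lt_irrefl _ h6
  rcases h10 with h8 | h8
  · have h9 := Kg.nsmul_mem h8 q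
    rwa [nsmul_sub, hTq, sub_zero] at h9
  · have h9 := Kg.nsmul_mem h8 q
    rwa [nsmul_add, hTq, add_zero] at h9

end H28I
end

-- from Lib.H55K.A.D5
section

/-!
Chunk D5 (M/L). The choice of the auxiliary prime (assembly of D1, D2, D3, H55R.density_split, H55R.density_ker).
-/

open NumberField IsDedekindDomain

namespace H55K.Ab

open H55R

variable {F : Type} [Field F] [NumberField F]

/-- Primes outside four sets of small density. -/
theorem d5_out {K : Type} [Field K] [NumberField K] (A S N R : Set (Pl K)) (hR : R.Finite)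
    (l : ℕ) (hl : 3 ≤ l) (C₁ C₂ C₃ : ℝ)
    (hA : ∀ s ∈ Set.Ioc (1 : ℝ) 2, PS A s ≤ (1 / l : ℝ) * Real.log (1 / (s - 1)) + C₁)
    (hS : ∀ s ∈ Set.Ioc (1 : ℝ) 2, PS S s ≤ (1 / l : ℝ) * Real.log (1 / (s - 1)) + C₂)
    (hN : ∀ s ∈ Set.Ioc (1 : ℝ) 2, PS N s ≤ C₃) :
    ∃ v : Pl K, v ∉ A ∧ v ∉ S ∧ v ∉ N ∧ v ∉ R := by
  by_contra hcon
  push Not at hcon
  obtain ⟨C₀, hC₀⟩ := density_A K K ⊤ inferInstance
  have hU : {v : Pl K | SplA (⊤ : Subgroup Gal(K/K)) v} ⊆ A ∪ (S ∪ (N ∪ R)) := by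
    intro v _
    by_cases h1 : v ∈ A
    · exact Or.inl h1
    by_cases h2 : v ∈ S
    · exact Or.inr (Or.inl h2)
    by_cases h3 : v ∈ N
    · exact Or.inr (Or.inr (Or.inl h3))
    exact Or.inr (Or.inr (Or.inr (hcon v h1 h2 h3)))
  have hidx : ((⊤ : Subgroup Gal(K/K)).index : ℝ) = 1 := by
    rw [Subgroup.index_top, Nat.cast_one]
  have key : ∀ s ∈ Set.Ioc (1 : ℝ) 2, 1 * Real.log (1 / (s - 1)) ≤
      (2 / l : ℝ) * Real.log (1 / (s - 1)) + (C₁ + C₂ + C₃ + hR.toFinset.card + C₀) := by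
    intro s hs
    have h1 := X10_mono hU s hs.1
    have h2 := X10_union A (S ∪ (N ∪ R)) s hs.1
    have h3 := X10_union S (N ∪ R) s hs.1
    have h4 := X10_union N R s hs.1
    have n2 := X10_nonneg (A ∩ (S ∪ (N ∪ R))) s
    have n3 := X10_nonneg (S ∩ (N ∪ R)) s
    have n4 := X10_nonneg (N ∩ R) s
    have h5 := X10_fin hR s hs.1
    have h6 := hC₀ s hs
    rw [hidx, abs_le] at h6
    have h7 := hA s hs
    have h8 := hS s hs
    have h9 := hN s hs
    have h10 : (2 / l : ℝ) * Real.log (1 / (s - 1)) = (1 / l : ℝ) * Real.log (1 / (s - 1)) +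
        (1 / l : ℝ) * Real.log (1 / (s - 1)) := by ring
    rw [h10]
    linarith [h6.1]
  have h1 := X10_lim key
  have h2 : (3 : ℝ) ≤ l := by exact_mod_cast hl
  have h3 : (0 : ℝ) < l := by linarith
  rw [le_div_iff₀ h3] at h1
  linarith

theorem d5_order {K : Type} [Field K] [NumberField K] {l : ℕ} [Fact l.Prime] (ζ : K)
    (hζ : IsPrimitiveRoot ζ l) (W : Pl K) (hl : (l : 𝓞 K) ∉ W.asIdeal) :
    l ∣ Ideal.absNorm W.asIdeal - 1 := by
  classical
  have hlp : l.Prime := Fact.out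
  have hmax := W.isMaximal
  have hint : IsIntegral ℤ ζ := hζ.isIntegral hlp.pos
  obtain ⟨z, hz⟩ : ∃ z : 𝓞 K, (z : K) = ζ := ⟨⟨ζ, hint⟩, rfl⟩
  have hz1 : z ^ l = 1 := by
    apply RingOfIntegers.coe_injective
    rw [map_pow, map_one]
    show (z : K) ^ l = 1
    rw [hz]
    exact hζ.pow_eq_one
  have hzne : z ≠ 1 := by
    intro h
    have h1 : ζ = 1 := by
      rw [← hz, h]
      exact map_one (algebraMap (𝓞 K) K)
    exact hζ.ne_one hlp.one_lt h1
  have hsum : ∑ i ∈ Finset.range l, z ^ i = 0 := by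
    have h := mul_geom_sum z l
    rw [hz1, sub_self] at h
    rcases mul_eq_zero.1 h with h1 | h1
    · exact absurd (sub_eq_zero.1 h1) hzne
    · exact h1
  letI : Field (𝓞 K ⧸ W.asIdeal) := Ideal.Quotient.field W.asIdeal
  have hfin : Finite (𝓞 K ⧸ W.asIdeal) := Ideal.finiteQuotientOfFreeOfNeBot _ W.ne_bot
  obtain ⟨y, hy⟩ : ∃ y : 𝓞 K ⧸ W.asIdeal, y = Ideal.Quotient.mk W.asIdeal z := ⟨_, rfl⟩
  have hy1 : y ^ l = 1 := by
    rw [hy, ← map_pow, hz1, map_one]
  have hyne : y ≠ 1 := by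
    intro h
    have h1 := congrArg (Ideal.Quotient.mk W.asIdeal) hsum
    rw [map_sum, map_zero] at h1
    simp only [map_pow] at h1
    rw [← hy, h] at h1
    simp only [one_pow, Finset.sum_const, Finset.card_range, nsmul_eq_mul, mul_one] at h1
    apply hl
    rw [← Ideal.Quotient.eq_zero_iff_mem, map_natCast]
    exact h1
  have hy0 : y ≠ 0 := by
    rintro rfl
    rw [zero_pow hlp.ne_zero] at hy1
    exact zero_ne_one hy1
  have hord : orderOf (Units.mk0 y hy0) = l := by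
    apply orderOf_eq_prime
    · ext
      rw [Units.val_pow_eq_pow_val, Units.val_mk0, hy1, Units.val_one]
    · intro h
      apply hyne
      have := congrArg Units.val h
      rwa [Units.val_mk0, Units.val_one] at this
  have h1 := orderOf_dvd_natCard (Units.mk0 y hy0)
  rw [hord, Nat.card_units] at h1
  exact h1

theorem d5_powmod {L L' : Type} [Field L] [NumberField L] [Field L'] [NumberField L']
    [Algebra L L'] {l : ℕ} (W : Pl L') (η : Lˣ) (h : PowMod l (W.under (𝓞 L)) η) :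
    PowMod l W (Units.map (algebraMap L L' : L →* L') η) := by
  obtain ⟨z, hz⟩ := h
  refine ⟨Units.map (algebraMap L L' : L →* L') z, ?_⟩
  have hl : W.asIdeal.LiesOver (W.under (𝓞 L)).asIdeal := ⟨rfl⟩
  have h1 := HeightOneSpectrum.valuation_liesOver L' (W.under (𝓞 L)) W
    (((η * (z ^ l)⁻¹ : Lˣ) : L) - 1)
  have h2 : algebraMap L L' (((η * (z ^ l)⁻¹ : Lˣ) : L) - 1) =
      (((Units.map (algebraMap L L' : L →* L') η *
        ((Units.map (algebraMap L L' : L →* L') z) ^ l)⁻¹ : L'ˣ) : L') - 1) := by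
    rw [map_sub, map_one, ← map_pow, ← map_inv, ← map_mul]
    rfl
  rw [h2] at h1
  rw [← h1]
  exact pow_lt_one₀ (zero_le) hz (Ideal.IsDedekindDomain.ramificationIdx'_ne_zero_of_liesOver W.asIdeal
    (W.under (𝓞 L)).ne_bot)

theorem d5_above {K L : Type} [Field K] [NumberField K] [Field L] [NumberField L] [Algebra K L]
    [IsGalois K L] {S : Set (Pl K)} (hS : S.Finite) : {W : Pl L | W.under (𝓞 K) ∈ S}.Finite := by
  have h1 : {W : Pl L | W.under (𝓞 K) ∈ S} = ⋃ v ∈ S, {W : Pl L | W.under (𝓞 K) = v} := by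
    ext W
    simp only [Set.mem_ofPred_eq, Set.mem_iUnion, exists_prop, exists_eq_right']
  rw [h1]
  exact hS.biUnion fun v _ => above_finite v

theorem select {L : Type} [Field L] [NumberField L] [Algebra F L] [IsGalois F L] {l : ℕ}
    [Fact l.Prime] (h5 : 5 ≤ l) {k : Type} [Field k] [CharP k l] {χ : Gal(L/F) →* kˣ}
    (ρ : k →+ ZMod l) (hρ : ρ ≠ 0) {θ : Pl L → k} (hθ : IsTh χ θ) (h0 : ∃ v, θ v ≠ 0) (η : Lˣ)
    (hη : ¬ ∃ z : Lˣ, η = z ^ l) (bad : Set (Pl L)) (hbad : bad.Finite) :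
    ∃ Q : Pl L, Q ∉ bad ∧ (Ideal.absNorm Q.asIdeal).Prime ∧ l ∣ Ideal.absNorm Q.asIdeal - 1 ∧
      es F L (Q.under (𝓞 F)) = 1 ∧ θ Q ≠ 0 ∧ ¬ PowMod l Q η := by
  classical
  have hlp : l.Prime := Fact.out
  obtain ⟨L', i1, i2, i3, i4, i5, ζ, hζ, hc⟩ := exists_cyc L l h5
  obtain ⟨x, hxdef⟩ : ∃ x : L'ˣ, x = Units.map (algebraMap L L' : L →* L') η := ⟨_, rfl⟩
  have hx : ¬ ∃ z : L'ˣ, x = z ^ l := by
    intro h
    rw [hxdef] at h
    exact hη (not_pow hc η h)
  obtain ⟨M, j1, j2, j3, j4, β, hM, hβ, hgen⟩ := kummer ζ hζ x hx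
  obtain ⟨f, hfdef⟩ : ∃ f : Ideal (𝓞 L'), f = Ideal.span {(l : 𝓞 L')} := ⟨_, rfl⟩
  have hf : f ≠ ⊥ := by
    rw [hfdef, Ne, Ideal.span_singleton_eq_bot]
    exact Nat.cast_ne_zero.2 hlp.ne_zero
  have hf' : f ≠ ⊤ := by
    rw [hfdef]
    intro h
    have h2 : Ideal.absNorm (Ideal.span {(l : 𝓞 L')}) = 1 := by
      rw [h]
      exact Ideal.absNorm_top
    rw [Ideal.absNorm_span_singleton] at h2
    have h3 : (Algebra.norm ℤ (l : 𝓞 L')) = (l : ℤ) ^ Module.finrank ℤ (𝓞 L') := by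
      have := Algebra.norm_algebraMap (S := 𝓞 L') (l : ℤ)
      rw [map_natCast] at this
      exact this
    rw [h3, Int.natAbs_pow, Int.natAbs_natCast] at h2
    have h4 : 0 < Module.finrank ℤ (𝓞 L') := Module.finrank_pos
    have h6 := Nat.one_lt_pow h4.ne' hlp.one_lt
    omega
  obtain ⟨φ, hφ, hφ1, hφl, hφθ⟩ := theta_char hc ρ hρ hθ h0 f hf
  have hord : orderOf φ = l := orderOf_eq_prime hφl hφ1
  have hcard : Nat.card (Subgroup.zpowers φ) = l := by
    rw [Nat.card_zpowers, hord]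
  have hYfin : Finite (Subgroup.zpowers φ) := Nat.finite_of_card_ne_zero (by
    rw [hcard]
    exact hlp.ne_zero)
  have hY : Subgroup.zpowers φ ≤ RC f := by
    rw [Subgroup.zpowers_le]
    exact hφ
  obtain ⟨C₁, hC₁⟩ := density_ker f hf hf' (Subgroup.zpowers φ) hY
  obtain ⟨C₂, hC₂⟩ := density_split L' M
  obtain ⟨C₃, hC₃⟩ := deg_bound L'
  rw [hcard] at hC₁
  rw [hM] at hC₂
  -- the finite set
  obtain ⟨bad', hbad'def⟩ : ∃ bad' : Set (Pl L), bad' = bad ∪
    {v : Pl L | v.under (𝓞 F) ∈ {u : Pl F | es F L u ≠ 1}} := ⟨_, rfl⟩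
  have hbad' : bad'.Finite := by
    rw [hbad'def]
    exact hbad.union (d5_above (ram_fin F L))
  have hR : ({W : Pl L' | f ≤ W.asIdeal} ∪ {W : Pl L' | W.under (𝓞 L) ∈ bad'}).Finite :=
    (X10_bad hf).union (d5_above hbad')
  obtain ⟨W, hWA, hWS, hWN, hWR⟩ := d5_out
    {v : Pl L' | ¬ f ≤ v.asIdeal ∧ ∀ ψ ∈ Subgroup.zpowers φ, ψ v = 1} {v : Pl L' | Spl L' M v}
    {v : Pl L' | ¬ (Ideal.absNorm v.asIdeal).Prime} _ hR l (by omega) C₁ C₂ C₃ hC₁
    (fun s hs => by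
      have := (abs_le.1 (hC₂ s hs)).2
      linarith) hC₃
  have hfW : ¬ f ≤ W.asIdeal := fun h => hWR (Or.inl h)
  have hlW : (l : 𝓞 L') ∉ W.asIdeal := by
    intro h
    apply hfW
    rw [hfdef, Ideal.span_singleton_le_iff_mem]
    exact h
  have hWb : W.under (𝓞 L) ∉ bad' := fun h => hWR (Or.inr h)
  have hWp : (Ideal.absNorm W.asIdeal).Prime := by
    by_contra h
    exact hWN h
  have hnorm := D5_norm (W.under (𝓞 L)) W rfl
  have hQp : (Ideal.absNorm (W.under (𝓞 L)).asIdeal).Prime ∧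
      Ideal.absNorm W.asIdeal = Ideal.absNorm (W.under (𝓞 L)).asIdeal := by
    rw [hnorm] at hWp
    have h1 : fs L L' (W.under (𝓞 L)) = 1 := hWp.eq_one_of_pow
    rw [h1, pow_one] at hWp
    rw [h1, pow_one] at hnorm
    exact ⟨hWp, hnorm⟩
  refine ⟨W.under (𝓞 L), ?_, hQp.1, ?_, ?_, ?_, ?_⟩
  · intro h
    apply hWb
    rw [hbad'def]
    exact Or.inl h
  · rw [← hQp.2]
    exact d5_order ζ hζ W hlW
  · by_contra h
    apply hWb
    rw [hbad'def]
    exact Or.inr h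
  · intro h
    apply hWA
    refine ⟨hfW, fun ψ hψ => ?_⟩
    obtain ⟨n, rfl⟩ := Subgroup.mem_zpowers_iff.1 hψ
    rw [Pi.pow_apply, hφθ W h, one_zpow]
  · intro h
    apply hWS
    have h1 := d5_powmod W η h
    rw [← hxdef] at h1
    exact kummer_spl ζ hζ x β hβ hgen W hlW h1

end H55K.Ab
end

-- from Lib.H55K.A.Main
section

/-!
# H99B: the abstract theorem (assembly)
-/

open NumberField IsDedekindDomain

namespace H55K.Ab

open H55R

variable {F : Type} [Field F] [NumberField F]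

theorem rho_ne {l : ℕ} [Fact l.Prime] {k : Type} [Field k] [Fintype k] [DecidableEq k]
    {ρ : k →+ ZMod l} (hρ : IsRho l ρ) : ρ ≠ 0 := by
  rintro rfl
  have h := hρ.sum 1
  simp at h

/-- No equivariant homomorphism of the class group. -/
theorem no_theta {L : Type} [Field L] [NumberField L] [Algebra F L] [IsGalois F L] {l : ℕ}
    [Fact l.Prime] (h5 : 5 ≤ l) {k : Type} [Field k] [Fintype k] [DecidableEq k] [CharP k l]
    {χ : Gal(L/F) →* kˣ} (hχ : Function.Bijective χ) (ρ : k →+ ZMod l) (hρ : IsRho l ρ)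
    (w : Pl L) (ξ : Lˣ) (hlev : ¬ Lev l w (eta χ ρ 1 ξ))
    (bad : Set (Pl L)) (hbad : bad.Finite)
    (haux : ∀ Q : Pl L, Q ∉ bad → (Ideal.absNorm Q.asIdeal).Prime →
      l ∣ Ideal.absNorm Q.asIdeal - 1 → es F L (Q.under (𝓞 F)) = 1 →
      ∃ (B : Type) (_ : Field B) (_ : NumberField B) (_ : Algebra L B) (κ : Gal(B/L) → ℤ)
        (t al : Bˣ), Aux F L Q ξ B κ t al)
    (θ : Pl L → k) (hθ : IsTh χ θ) (v : Pl L) : θ v = 0 := by
  by_contra hv
  have hη : ¬ ∃ z : Lˣ, eta χ ρ 1 ξ = z ^ l := by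
    rintro ⟨z, hz⟩
    exact hlev (hz ▸ lev_pow z)
  obtain ⟨Q, hQ1, hQ2, hQ3, hQ4, hQ5, hQ6⟩ := select h5 ρ (rho_ne hρ) hθ ⟨v, hv⟩ (eta χ ρ 1 ξ) hη
    bad hbad
  obtain ⟨B, i1, i2, i3, κ, t, al, ha⟩ := haux Q hQ1 hQ2 hQ3 hQ4
  exact hQ6 (thaine hχ ρ Q hQ3 (stab_triv Q hQ2 hQ4) ξ ha hθ hQ5 1)

/-- THE ABSTRACT THEOREM. -/
theorem main_abs [H55P.IQ F] {L : Type} [Field L] [NumberField L] [Algebra F L] [IsGalois F L] {l : ℕ}
    [Fact l.Prime] (h5 : 5 ≤ l) {k : Type} [Field k] [Fintype k] [DecidableEq k] [CharP k l]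
    {χ : Gal(L/F) →* kˣ} (hχ : Function.Bijective χ) (ρ : k →+ ZMod l) (hρ : IsRho l ρ)
    (hcyc : ∀ ζ : Lˣ, IsPrimitiveRoot ζ l →
      ¬ ∀ (σ : Gal(L/F)) (n : ℕ), (n : k) = χ σ → gu σ ζ = ζ ^ n)
    (w : Pl L) (ξ : Lˣ) (hξ : ∀ v : Pl L, ord v ξ = 0)
    (hlev : ∀ a : k, a ≠ 0 → ¬ Lev l w (eta χ ρ a ξ))
    (bad : Set (Pl L)) (hbad : bad.Finite)
    (haux : ∀ Q : Pl L, Q ∉ bad → (Ideal.absNorm Q.asIdeal).Prime →
      l ∣ Ideal.absNorm Q.asIdeal - 1 → es F L (Q.under (𝓞 F)) = 1 →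
      ∃ (B : Type) (_ : Field B) (_ : NumberField B) (_ : Algebra L B) (κ : Gal(B/L) → ℤ)
        (t al : Bˣ), Aux F L Q ξ B κ t al)
    {m : k → Lˣ} (hm : EqHom l χ m) (hd : ∀ (a : k) (v : Pl L), (l : ℤ) ∣ ord v (m a))
    (hL : ∀ a, Lev l w (m a)) (a : k) : ∃ z : Lˣ, m a = z ^ l := by
  rcases class_step hχ ρ hρ hm hd with ⟨θ, hθ, v, hv⟩ | ⟨m', hm', hu, hmm⟩
  · exact absurd (no_theta h5 hχ ρ hρ w ξ (hlev 1 one_ne_zero) bad hbad haux θ hθ v) hv
  · obtain ⟨z, hz⟩ := unit_step hχ ρ hρ hcyc w ξ hξ hlev hm' hu (fun b => by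
      obtain ⟨y, hy⟩ := hmm b
      have h1 : m' b = m b * (y ^ l)⁻¹ := by rw [hy, mul_inv_cancel_right]
      rw [h1]
      exact lev_mul (hL b) (lev_inv (lev_pow y))) a
    obtain ⟨y, hy⟩ := hmm a
    exact ⟨z * y, by rw [hy, hz, mul_pow]⟩

end H55K.Ab
end

-- from Lib.H55K.K6A
section

open NumberField IsDedekindDomain WeierstrassCurve

namespace H55K

open H55P (IQ embF eF LF Per IsHecke Pt ac Inert Dec Nm)
open H35P (WAB Ker tt)
open H55R (Pl ord es fs smulP)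

/-! Chunk K6A (M). exists_okv: S is the union of the finite sets of XiD.fin, Dta.frob, of the primes dividing l or m (finitely many primes contain a nonzero element / ideal: H55R.X10_bad in H55R/X10.lean; v and m not coprime iff m ≤ v.asIdeal since v is maximal; IsHecke.ne: m ≠ ⊥),
and of S' = {v | (absNorm v : 𝓞 F) ∈ v'.asIdeal for some v' in S1}, S1 the finite set of Dta.fin. S' is finite: for v' in S1 let p be the prime number in v' (v'.asIdeal.under ℤ; or absNorm v' ∈ v'): if v has prime norm q and q ∈ v' then q = p (two different prime numbers in v' give 1 ∈ v'), so q = p ∈ v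
(Ideal.absNorm_mem), and finitely many v contain p ≠ 0. (Only v of prime norm matter; intersect S' with them.)
gv: let V(q) < 1, q = absNorm v prime. The set v' = {a in 𝓞 F | V(ak a) < 1} is a prime ideal (ak_le), contains q, so not zero: a prime v' of F with q ∈ v', so v' ∉ S1, Dta.fin gives GV A B V. -/

variable {F : Type} [Field F] [NumberField F] [IQ F] {A B : F} {Om : ℂ} {Ω : Type} [Field Ω] [DecidableEq Ω]
  [Algebra F Ω] {j : Ω →+* ℂ} {act : 𝓞 F →+* AddMonoid.End (Pt (WAB A B) Ω)}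

/-- The primes of prime norm whose norm is in v'. -/
def k6a_set (v' : Pl F) : Set (Pl F) :=
  {v | (Ideal.absNorm v.asIdeal).Prime ∧ ((Ideal.absNorm v.asIdeal : ℕ) : 𝓞 F) ∈ v'.asIdeal}

omit [IQ F] in
theorem k6a_fin (v' : Pl F) : (k6a_set v').Finite := by
  by_cases hne : (k6a_set v').Nonempty
  · obtain ⟨v0, hp0, hm0⟩ := hne
    have hne0 : Ideal.span {((Ideal.absNorm v0.asIdeal : ℕ) : 𝓞 F)} ≠ ⊥ := by
      rw [Ne, Ideal.span_singleton_eq_bot]
      exact_mod_cast hp0.ne_zero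
    refine (H55R.X10_bad hne0).subset fun v hv => ?_
    obtain ⟨hp, hm⟩ := hv
    have heq : Ideal.absNorm v.asIdeal = Ideal.absNorm v0.asIdeal := by
      by_contra hc
      have hcop : Nat.Coprime (Ideal.absNorm v.asIdeal) (Ideal.absNorm v0.asIdeal) :=
        (Nat.coprime_primes hp hp0).2 hc
      have h1 := Nat.isCoprime_iff_coprime.2 hcop
      obtain ⟨a, b, hab⟩ := h1
      have h2 := congrArg (fun t : ℤ => (t : 𝓞 F)) hab
      push_cast at h2
      have h3 : (1 : 𝓞 F) ∈ v'.asIdeal := by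
        rw [← h2]
        exact v'.asIdeal.add_mem (v'.asIdeal.mul_mem_left _ hm) (v'.asIdeal.mul_mem_left _ hm0)
      exact v'.isPrime.ne_top ((Ideal.eq_top_iff_one _).2 h3)
    show Ideal.span {((Ideal.absNorm v0.asIdeal : ℕ) : 𝓞 F)} ≤ v.asIdeal
    rw [Ideal.span_singleton_le_iff_mem, ← heq]
    exact Ideal.absNorm_mem v.asIdeal
  · rw [Set.not_nonempty_iff_eq_empty] at hne
    rw [hne]
    exact Set.finite_empty

omit [NumberField F] [IQ F] [DecidableEq Ω] in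
theorem k6a_cast (n : ℕ) : ak Ω (n : 𝓞 F) = (n : Ω) := by
  have e : ((n : 𝓞 F) : F) = (n : F) := by push_cast; rfl
  unfold ak
  rw [e, map_natCast]

omit [IQ F] [DecidableEq Ω] in
theorem k6a_below (V : ValuationSubring Ω) (q : ℕ) (hq : q.Prime) (hV : V.valuation (q : Ω) < 1) :
    ∃ v' : Pl F, ∀ a : 𝓞 F, a ∈ v'.asIdeal ↔ V.valuation (ak Ω a) < 1 := by
  let f : 𝓞 F →+* V :=
    { toFun := fun a => ⟨ak Ω a, (V.valuation_le_one_iff _).1 (ak_le V a)⟩
      map_one' := by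
        apply Subtype.ext
        simp [ak]
      map_mul' := fun a b => by
        apply Subtype.ext
        simp [ak]
      map_zero' := by
        apply Subtype.ext
        simp [ak]
      map_add' := fun a b => by
        apply Subtype.ext
        simp [ak] }
  have hmem : ∀ a : 𝓞 F, a ∈ Ideal.comap f (IsLocalRing.maximalIdeal V) ↔ V.valuation (ak Ω a) < 1 := by
    intro a
    rw [Ideal.mem_comap, V.valuation_lt_one_iff]
    exact Iff.rfl
  have hne : Ideal.comap f (IsLocalRing.maximalIdeal V) ≠ ⊥ := by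
    intro h0
    have h1 : (q : 𝓞 F) ∈ Ideal.comap f (IsLocalRing.maximalIdeal V) := by
      rw [hmem, k6a_cast]
      exact hV
    rw [h0, Ideal.mem_bot] at h1
    exact hq.ne_zero (by exact_mod_cast h1)
  exact ⟨⟨Ideal.comap f (IsLocalRing.maximalIdeal V), inferInstance, hne⟩, hmem⟩

theorem exists_okv {m : Ideal (𝓞 F)} {ψ : Ideal (𝓞 F) →*₀ 𝓞 F} {l : ℕ} {π : 𝓞 F}
    {Ξ : Pt (WAB A B) Ω → Ω} (h : Dta A B Om j act m ψ l) (hX : XiD act ψ π Ξ) :
    ∃ S : Set (Pl F), S.Finite ∧ ∀ v ∉ S, (Ideal.absNorm v.asIdeal).Prime → Okv A B act m ψ l π Ξ v := by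
  obtain ⟨S1, hS1, h1⟩ := h.fin
  obtain ⟨S2, hS2, h2⟩ := h.frob
  obtain ⟨S3, hS3, h3⟩ := hX.fin
  have hl0 : Ideal.span {(l : 𝓞 F)} ≠ ⊥ := by
    rw [Ne, Ideal.span_singleton_eq_bot]
    exact_mod_cast h.prime.ne_zero
  have hS4 := H55R.X10_bad hl0
  have hS5 := H55R.X10_bad h.hecke.ne
  have hS6 : (⋃ v' ∈ S1, k6a_set v').Finite := hS1.biUnion fun v' _ => k6a_fin v'
  refine ⟨S2 ∪ S3 ∪ {v : Pl F | Ideal.span {(l : 𝓞 F)} ≤ v.asIdeal} ∪ {v : Pl F | m ≤ v.asIdeal} ∪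
    ⋃ v' ∈ S1, k6a_set v', (((hS2.union hS3).union hS4).union hS5).union hS6, ?_⟩
  intro v hv hq
  simp only [Set.mem_union, not_or] at hv
  obtain ⟨⟨⟨⟨n2, n3⟩, n4⟩, n5⟩, n6⟩ := hv
  refine ⟨hq, fun h' => n4 ?_, ?_, fun V hV => ?_, h2 v n2 hq, h3 v n3 hq⟩
  · exact (Ideal.span_singleton_le_iff_mem _).2 h'
  · rw [Ideal.isCoprime_iff_sup_eq]
    by_contra hc
    apply n5
    have h5 : v.asIdeal = v.asIdeal ⊔ m := v.isMaximal.eq_of_le hc le_sup_left
    show m ≤ v.asIdeal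
    rw [h5]
    exact le_sup_right
  · obtain ⟨v', hv'⟩ := k6a_below (F := F) V _ hq hV
    have hn : v' ∉ S1 := by
      intro hm
      apply n6
      refine Set.mem_biUnion hm ?_
      exact ⟨hq, (hv' _).2 (by
        rw [k6a_cast]
        exact hV)⟩
    exact h1 v' hn V fun a ha => (hv' a).1 ha

end H55K
end

-- from Lib.H55K.K3
section

open NumberField IsDedekindDomain WeierstrassCurve

namespace H55K

open H55P (IQ embF eF LF Per IsHecke Pt ac Inert Dec Nm)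
open H35P (WAB Ker tt)
open H55R (Pl ord es fs smulP)

/-! Chunk K3 (M, port of H28G/K3.lean). v.valuation K b = exp(-1). For W above v, V above W (exists_abw): V(ak b) < 1, so GV A B V (hG) and tor_ram: V(tt R)^(Nm b - 1) = V(ak b) for R in Tor act b nonzero; with t : N, algebraMap N Ω t = tt R (t exists: tt_xy and TFld.crd, t = x/y):
W(t)^(Nm b - 1) = W(b) = exp(-es) (Abw.eq with t^(Nm b - 1) and b; map_pow; ord_map and BF1_val as in H28G/K3.lean). The rest is the proof of H28G/K3.lean: W(t) = exp(-m), (Nm b - 1) m = es, D5_card, card_le give es = Nm b - 1, fs = 1, one prime, degree Nm b - 1.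
orb: σ -> ac s R (s an extension of σ) is an injection (orb_inj) from Gal(N/K), Nm b - 1 elements, to Tor act b minus 0, Nm b - 1 elements (exists_TN), so surjective; for any other extension use lft_tor. K3_arith of H28G is elementary (copy it).
Lemmas about ord_map, BF1_val, es_pos, fs_pos, under_exists, D5_card, D5_mem are in Pool/Agent/Lib/H55R (BF1, BF3, D5, HA11; imports of H28G/K3.lean). -/

variable {F : Type} [Field F] [NumberField F] [IQ F] {A B : F} {Om : ℂ} {Ω : Type} [Field Ω] [DecidableEq Ω]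
  [Algebra F Ω] {j : Ω →+* ℂ} {act : 𝓞 F →+* AddMonoid.End (Pt (WAB A B) Ω)}
  {K N : Type} [Field K] [NumberField K] [Field N] [NumberField N] [Algebra F K] [Algebra F N]
  [Algebra K N] [Algebra K Ω] [Algebra N Ω] [IsScalarTower F K N] [IsScalarTower K N Ω]
  [IsScalarTower F K Ω] [IsScalarTower F N Ω]

theorem k3_arith {c P f m e : ℕ} (hc : 0 < c) (hf : 0 < f) (he : 0 < e) (hm : m * P = e)
    (h : c * (e * f) ≤ P) : c = 1 ∧ f = 1 ∧ m = 1 := by
  subst hm
  have hP : 0 < P := by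
    rcases Nat.eq_zero_or_pos P with h0 | h0
    · rw [h0, mul_zero] at he
      exact absurd he (lt_irrefl 0)
    · exact h0
  have hm0 : 0 < m := by
    rcases Nat.eq_zero_or_pos m with h0 | h0
    · rw [h0, zero_mul] at he
      exact absurd he (lt_irrefl 0)
    · exact h0
  have h1 : (c * f * m) * P ≤ 1 * P := by
    calc (c * f * m) * P = c * (m * P * f) := by ring
      _ ≤ P := h
      _ = 1 * P := (one_mul P).symm
  have h2 : c * f * m ≤ 1 := Nat.le_of_mul_le_mul_right h1 hP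
  have h3 : c * f * m = 1 := le_antisymm h2 (Nat.mul_pos (Nat.mul_pos hc hf) hm0)
  have h4 := Nat.eq_one_of_mul_eq_one_left h3
  have h5 := Nat.eq_one_of_mul_eq_one_right h3
  exact ⟨Nat.eq_one_of_mul_eq_one_right h5, Nat.eq_one_of_mul_eq_one_left h5, h4⟩

theorem tot_ram [IsAlgClosure F Ω] (h : CMA F A B Om j act) {b : 𝓞 F} (hp : Prime b)
    (hN : TFld act K N b) (v : Pl K)
    (hv : v.valuation K (algebraMap F K (b : F)) = WithZero.exp (-1 : ℤ))
    (hG : ∀ V : ValuationSubring Ω, V.valuation (ak Ω b) < 1 → GV A B V) : TotRam act K N b v := by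
  classical
  have hgal : IsGalois K N := hN.gal
  have hb0 := hp.ne_zero
  have hle : Module.finrank K N ≤ Nm b - 1 := card_le h hp hN
  have hbF : (b : F) ≠ 0 := by
    intro h1
    exact hb0 (by exact_mod_cast h1)
  have hakK : algebraMap F K (b : F) ≠ 0 := (map_ne_zero _).2 hbF
  obtain ⟨x, hx⟩ : ∃ x : Kˣ, (x : K) = algebraMap F K (b : F) := ⟨Units.mk0 _ hakK, rfl⟩
  have hordv : ord v x = 1 := by
    have h1 := H55R.BF1_val v x
    rw [hx, hv, WithZero.exp_inj] at h1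
    omega
  have hakN : ((Units.map (algebraMap K N : K →* N) x : Nˣ) : N) = algebraMap F N (b : F) := by
    show algebraMap K N (x : K) = _
    rw [hx, ← IsScalarTower.algebraMap_apply F K N]
  have hval : ∀ W : Pl N, W.under (𝓞 K) = v →
      W.valuation N (algebraMap F N (b : F)) = WithZero.exp (-(es K N v : ℤ)) := by
    intro W hW
    have h1 := H55R.ord_map W v hW x
    rw [hordv, mul_one] at h1
    have h2 := H55R.BF1_val W (Units.map (algebraMap K N : K →* N) x)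
    rw [h1, hakN] at h2
    exact h2
  have hes : 0 < es K N v := H55R.es_pos v
  have hfs : 0 < fs K N v := H55R.fs_pos v
  have key : ∀ W : Pl N, W.under (𝓞 K) = v → ∀ R ∈ Tor act b, R ≠ 0 → ∀ t : N, algebraMap N Ω t = tt R →
      ∃ m : ℕ, W.valuation N t = WithZero.exp (-(m : ℤ)) ∧ m * (Nm b - 1) = es K N v := by
    intro W hW R hR h0 t ht
    obtain ⟨V, hV⟩ := exists_abw Ω W
    have hbΩ : ak Ω b = algebraMap N Ω (algebraMap F N (b : F)) := by
      rw [← IsScalarTower.algebraMap_apply F N Ω]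
    have hWb : W.valuation N (algebraMap F N (b : F)) < 1 := by
      rw [hval W hW, ← WithZero.exp_zero, WithZero.exp_lt_exp]
      omega
    have hvb : V.valuation (ak Ω b) < 1 := by
      rw [hbΩ, hV.lt]
      exact hWb
    obtain ⟨-, h2⟩ := tor_ram h (hG V hvb) hp hvb hR h0
    rw [← ht, hbΩ, ← map_pow, ← map_pow, hV.eq, map_pow] at h2
    have hne : W.valuation N (algebraMap F N (b : F)) ≠ 0 := by
      rw [hval W hW]
      exact WithZero.exp_ne_zero
    have hP0 : Nm b - 1 ≠ 0 := by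
      intro h3
      rw [h3, pow_zero] at h2
      exact absurd h2.symm hWb.ne
    have ht0 : W.valuation N t ≠ 0 := by
      intro h3
      rw [h3, zero_pow hP0] at h2
      exact hne h2.symm
    obtain ⟨k, hk⟩ : ∃ k : ℤ, W.valuation N t = WithZero.exp k :=
      ⟨WithZero.log (W.valuation N t), (WithZero.exp_log ht0).symm⟩
    rw [hval W hW, hk, ← WithZero.exp_nsmul, WithZero.exp_inj, nsmul_eq_mul] at h2
    have hk0 : k ≤ 0 := by
      by_contra hcon
      push Not at hcon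
      have h3 : (0 : ℤ) < ((Nm b - 1 : ℕ) : ℤ) := by omega
      have h4 : (0 : ℤ) < ((Nm b - 1 : ℕ) : ℤ) * k := mul_pos h3 hcon
      omega
    obtain ⟨m, hm⟩ : ∃ m : ℕ, k = -(m : ℤ) := ⟨k.natAbs, by omega⟩
    refine ⟨m, by rw [hk, hm], ?_⟩
    rw [hm] at h2
    have h5 : ((m * (Nm b - 1) : ℕ) : ℤ) = (es K N v : ℤ) := by
      rw [Nat.cast_mul]
      linarith
    exact_mod_cast h5
  have hcoord : ∀ R ∈ Tor act b, ∃ t : N, algebraMap N Ω t = tt R := by
    intro R hR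
    obtain ⟨x, y, hx, hy⟩ := hN.crd R hR
    exact ⟨x / y, by rw [map_div₀, hx, hy, tt_xy]⟩
  obtain ⟨W₀, hW₀⟩ := H55R.under_exists (L := N) v
  obtain ⟨T, hT, hT0⟩ := exists_tor h hp
  obtain ⟨t, ht⟩ := hcoord T hT
  obtain ⟨m, -, hm⟩ := key W₀ hW₀ T hT hT0 t ht
  have hcard := H55R.D5_card (L := N) v
  have hcpos : 0 < (H55R.D5_T (L := N) v).card :=
    Finset.card_pos.2 ⟨W₀, (H55R.D5_mem v W₀).2 hW₀⟩
  obtain ⟨hc1, hf1, hm1⟩ := k3_arith hcpos hfs hes hm (hcard.le.trans hle)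
  have hes1 : es K N v = Nm b - 1 := by rw [← hm, hm1, one_mul]
  have hdeg : Module.finrank K N = Nm b - 1 := by
    rw [← hcard, hc1, hf1, hes1, one_mul, mul_one]
  have hP : 0 < Nm b - 1 := hes1 ▸ hes
  refine ⟨hdeg, hes1, hf1, ?_, ?_, ?_⟩
  · intro W W' hW hW'
    obtain ⟨Z, hZ⟩ := Finset.card_eq_one.1 hc1
    have h1 : W ∈ H55R.D5_T (L := N) v := (H55R.D5_mem v W).2 hW
    have h2 : W' ∈ H55R.D5_T (L := N) v := (H55R.D5_mem v W').2 hW'
    rw [hZ, Finset.mem_singleton] at h1 h2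
    rw [h1, h2]
  · intro W hW R hR h0 t' ht'
    obtain ⟨m', hm', hm2⟩ := key W hW R hR h0 t' ht'
    rw [hes1] at hm2
    have h3 : m' = 1 := Nat.eq_of_mul_eq_mul_right hP (by rw [hm2, one_mul])
    rw [hm', h3, Nat.cast_one]
  · intro R hR h0 R' hR' h0'
    obtain ⟨S, hS, hScard⟩ := exists_TN h hb0
    choose s hs using fun σ : Gal(N/K) => exists_lft (F := F) (Ω := Ω) σ
    let f : Gal(N/K) → S := fun σ =>
      ⟨ac (WAB A B) (s σ) R, (hS _).2 ⟨ac_tor h (s σ) hR, k2_ac_ne (s σ) h0⟩⟩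
    have hinj : Function.Injective f := by
      intro σ τ hστ
      exact orb_inj h hp hN hR h0 (hs σ) (hs τ) (congrArg Subtype.val hστ)
    have hbij := hinj.bijective_of_nat_card_le (by
      rw [IsGalois.card_aut_eq_finrank, Nat.card_eq_fintype_card, Fintype.card_coe, hScard, hdeg])
    obtain ⟨σ, hσ⟩ := hbij.2 ⟨R', (hS _).2 ⟨hR', h0'⟩⟩
    refine ⟨σ, fun s' hs' => ?_⟩
    rw [lft_tor hN hs' (hs σ) hR]
    exact congrArg Subtype.val hσ

end H55K
end

-- from Lib.H55K.K5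
section

open NumberField IsDedekindDomain WeierstrassCurve

namespace H55K

open H55P (IQ embF eF LF Per IsHecke Pt ac Inert Dec Nm)
open H35P (WAB Ker tt)
open H55R (Pl ord es fs smulP)

/-! Chunk K5 (M, port of H28G/K7.lean). w above v = (b) in the field N generated over F by the points killed by b. k5_res = H28G.K7_res for a variable F (copy). exists_loc: tot_ram gives TR; ker, surj, ram (w.valuation b = exp(-es), es = Nm b - 1 ≥ 2, integers have value ≤ 1), inv (TR.one, under_smulP), unif (TR.val, BF1_val), act: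
r(y) = q y = χ σ; s an extension of σ (exists_lft), ac s T = act y T (hχ), V above w, hG: tt_act: V(tt(act y T) - ak y * tt T) ≤ V(tt T)^2, tt (ac s T) = s (tt T) = algebraMap N Ω (σ t) (tt_ac, Lft); Abw.le with t^2; w(t)^2 = exp(-2) (TR.val). Ker V T from tor_ram. -/

variable {F : Type} [Field F] [NumberField F] [IQ F] {A B : F} {Om : ℂ} {Ω : Type} [Field Ω] [DecidableEq Ω]
  [Algebra F Ω] {j : Ω →+* ℂ} {act : 𝓞 F →+* AddMonoid.End (Pt (WAB A B) Ω)}
  {N : Type} [Field N] [NumberField N] [Algebra F N] [Algebra N Ω] [IsScalarTower F N Ω]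

omit [IQ F] in
/-- The residue fields agree. -/
theorem k5_res {N : Type} [Field N] [NumberField N] [Algebra F N] [IsGalois F N] (v : Pl F) (w : Pl N)
    (hw : w.under (𝓞 F) = v) (hf : fs F N v = 1) {k : Type} [Field k] (q : 𝓞 F →+* k)
    (hk : ∀ x : 𝓞 F, q x = 0 ↔ x ∈ v.asIdeal) : ∃ r : 𝓞 N →+* k,
      (∀ x : 𝓞 N, r x = 0 ↔ x ∈ w.asIdeal) ∧ ∀ y : 𝓞 F, r (algebraMap (𝓞 F) (𝓞 N) y) = q y := by
  have hu : ∀ y : 𝓞 F, y ∈ v.asIdeal ↔ algebraMap (𝓞 F) (𝓞 N) y ∈ w.asIdeal := by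
    intro y
    rw [← hw]
    exact Iff.rfl
  let φ : (𝓞 F ⧸ v.asIdeal) →+* (𝓞 N ⧸ w.asIdeal) :=
    Ideal.quotientMap w.asIdeal (algebraMap (𝓞 F) (𝓞 N)) fun y hy => (hu y).1 hy
  have hφ1 : Function.Injective φ := Ideal.quotientMap_injective' fun y hy => (hu y).2 hy
  have hfin1 : Finite (𝓞 F ⧸ v.asIdeal) := Ideal.finiteQuotientOfFreeOfNeBot v.asIdeal v.ne_bot
  have hfin2 : Finite (𝓞 N ⧸ w.asIdeal) := Ideal.finiteQuotientOfFreeOfNeBot w.asIdeal w.ne_bot
  have hcard : Nat.card (𝓞 F ⧸ v.asIdeal) = Nat.card (𝓞 N ⧸ w.asIdeal) := by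
    have h1 := H55R.D5_norm v w hw
    rw [hf, pow_one, Ideal.absNorm_apply, Ideal.absNorm_apply, Submodule.cardQuot_apply,
      Submodule.cardQuot_apply] at h1
    exact h1.symm
  have hφ : Function.Bijective φ := (Nat.bijective_iff_injective_and_card φ).2 ⟨hφ1, hcard⟩
  let ψ : (𝓞 F ⧸ v.asIdeal) ≃+* (𝓞 N ⧸ w.asIdeal) := RingEquiv.ofBijective φ hφ
  let q' : (𝓞 F ⧸ v.asIdeal) →+* k := Ideal.Quotient.lift v.asIdeal q fun a ha => (hk a).2 ha
  let r : 𝓞 N →+* k := q'.comp ((ψ.symm : (𝓞 N ⧸ w.asIdeal) →+* (𝓞 F ⧸ v.asIdeal)).comp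
    (Ideal.Quotient.mk w.asIdeal))
  have hr : ∀ y : 𝓞 F, r (algebraMap (𝓞 F) (𝓞 N) y) = q y := by
    intro y
    have e1 : ψ (Ideal.Quotient.mk v.asIdeal y) = Ideal.Quotient.mk w.asIdeal (algebraMap (𝓞 F) (𝓞 N) y) := rfl
    show q' (ψ.symm (Ideal.Quotient.mk w.asIdeal (algebraMap (𝓞 F) (𝓞 N) y))) = q y
    rw [← e1, RingEquiv.symm_apply_apply]
    rfl
  refine ⟨r, fun x => ?_, hr⟩
  obtain ⟨z, hz⟩ := hφ.2 (Ideal.Quotient.mk w.asIdeal x)
  obtain ⟨y, rfl⟩ := Ideal.Quotient.mk_surjective z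
  have e2 : Ideal.Quotient.mk w.asIdeal (algebraMap (𝓞 F) (𝓞 N) y) = Ideal.Quotient.mk w.asIdeal x := hz
  have e3 : r x = q y := by
    rw [← hr y]
    show q' (ψ.symm (Ideal.Quotient.mk w.asIdeal x)) =
      q' (ψ.symm (Ideal.Quotient.mk w.asIdeal (algebraMap (𝓞 F) (𝓞 N) y)))
    rw [e2]
  rw [e3, hk, hu, ← Ideal.Quotient.eq_zero_iff_mem, e2, Ideal.Quotient.eq_zero_iff_mem]

theorem exists_loc [IsAlgClosure F Ω] (h : CMA F A B Om j act) {b : 𝓞 F} (hp : Prime b)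
    (hN : TFld act F N b) (h3 : 2 < Nm b)
    (hG : ∀ V : ValuationSubring Ω, V.valuation (ak Ω b) < 1 → GV A B V) {k : Type} [Field k]
    (q : 𝓞 F →+* k) (hq : Function.Surjective q) (hk : ∀ x, q x = 0 ↔ b ∣ x) (χ : Gal(N/F) →* kˣ)
    (hχ : ∀ (σ : Gal(N/F)) (s : Ω ≃ₐ[F] Ω) (c : 𝓞 F), Lft σ s → q c = χ σ → ∀ R ∈ Tor act b,
      ac (WAB A B) s R = act c R) (v : Pl F)
    (hv : v.asIdeal = Ideal.span {b}) (w : Pl N) (hw : w.under (𝓞 F) = v) (T : Pt (WAB A B) Ω)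
    (hT : T ∈ Tor act b) (h0 : T ≠ 0) (t : Nˣ) (ht : algebraMap N Ω (t : N) = tt T) :
    ∃ r : 𝓞 N →+* k, Ab.Loc χ w t r ∧ ∀ y : 𝓞 F, r (algebraMap (𝓞 F) (𝓞 N) y) = q y := by
  have hgal : IsGalois F N := hN.gal
  have hb0 : b ≠ 0 := hp.ne_zero
  have hval : v.valuation F (algebraMap F F (b : F)) = WithZero.exp (-1 : ℤ) := by
    have e : algebraMap F F (b : F) = algebraMap (𝓞 F) F b := rfl
    rw [e, v.valuation_of_algebraMap, v.intValuation_singleton hb0 hv]
  have TR := tot_ram h hp hN v hval hG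
  obtain ⟨r, hr1, hr2⟩ := k5_res v w hw TR.fs q fun x => by
    rw [hk, hv, Ideal.mem_span_singleton]
  have hbF : (b : F) ≠ 0 := fun h1 => hb0 (RingOfIntegers.coe_injective (h1.trans (map_zero _).symm))
  have hwb : w.valuation N (algebraMap F N (b : F)) = WithZero.exp (-(es F N v : ℤ)) := by
    let u : Fˣ := Units.mk0 _ hbF
    have h1 : ord v u = 1 := by
      have h2 := H55R.BF1_val v u
      have h3 : v.valuation F (b : F) = WithZero.exp (-1 : ℤ) := hval
      rw [Units.val_mk0, h3, WithZero.exp_inj] at h2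
      omega
    have h2 := H55R.ord_map w v hw u
    rw [h1, mul_one] at h2
    have h4 := H55R.BF1_val w (Units.map (algebraMap F N : F →* N) u)
    rw [h2] at h4
    exact h4
  have hT2 : w.valuation N (t : N) = WithZero.exp (-1 : ℤ) := TR.val w hw T hT h0 t ht
  refine ⟨r, ⟨hr1, fun c => ?_, fun y hy => ?_, fun σ => ?_, ?_, fun σ y hy => ?_⟩, hr2⟩
  · obtain ⟨y, hy⟩ := hq c
    exact ⟨y, (hr2 y).trans hy⟩
  · have h1 : q y = 0 := (hr2 y).symm.trans hy
    rw [hk] at h1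
    obtain ⟨c, rfl⟩ := h1
    have e1 : algebraMap F N ((b * c : 𝓞 F) : F) = algebraMap F N (b : F) * algebraMap F N (c : F) := by
      rw [← map_mul]
      rfl
    have h5 : w.valuation N (algebraMap F N (c : F)) ≤ 1 := by
      have e2 : algebraMap F N (c : F) = algebraMap (𝓞 N) N (algebraMap (𝓞 F) (𝓞 N) c) := rfl
      rw [e2]
      exact w.valuation_le_one _
    rw [e1, map_mul, hwb]
    refine (mul_le_of_le_one_right' h5).trans ?_
    rw [WithZero.exp_le_exp, TR.es]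
    omega
  · exact TR.one _ _ ((H55R.under_smulP σ w).trans hw) hw
  · have h1 := H55R.BF1_val w t
    rw [hT2, WithZero.exp_inj] at h1
    omega
  · have h1 : q y = χ σ := (hr2 y).symm.trans hy
    obtain ⟨s, hs⟩ := exists_lft (F := F) (Ω := Ω) σ
    have h2 := hχ σ s y hs h1 T hT
    obtain ⟨V, hV⟩ := exists_abw Ω w
    have hVv : Abw V v := hV.below hw
    have hVb : V.valuation (ak Ω b) < 1 := (hVv.lt _).2 ((v.valuation_lt_one_iff_mem b).2 (by
      rw [hv]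
      exact Ideal.mem_span_singleton_self b))
    have hGV := hG V hVb
    have hK := (tor_ram h hGV hp hVb hT h0).1
    have h4 := tt_act h hGV y hK
    rw [← h2, tt_ac, ← ht, hs] at h4
    have e3 : ak Ω y = algebraMap N Ω (algebraMap F N (y : F)) := IsScalarTower.algebraMap_apply F N Ω _
    rw [e3, ← map_mul, ← map_sub, ← map_pow, ← map_pow, hV.le, map_pow, hT2] at h4
    refine h4.trans (le_of_eq ?_)
    rw [← WithZero.exp_nsmul]
    norm_num

end H55K
end

-- from Lib.H55K.K9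
section

open NumberField IsDedekindDomain WeierstrassCurve

namespace H55K

open H55P (IQ embF eF LF Per IsHecke Pt ac Inert Dec Nm)
open H35P (WAB Ker tt)
open H55R (Pl ord es fs smulP)

/-! Chunk K9 (M/L, port of exists_aux in H28G/K11.lean). β = ψ (Q.under).asIdeal, aux_prime (hv.cop); hn from it. N from exists_TFld L β. hG for β: V(ak β) < 1 implies V(absNorm v) < 1 (absNorm v = Nm β = β cj β, ak_le; mul_cj), so GV by hv.gv. tot_ram L N β at smulP σ Q for every σ (valuation exp(-1)). R in Tor act β nonzero (exists_tor);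
t : N with algebraMap N Ω t = tt R (tt_xy, hN.crd: t = x / y), t ≠ 0 (value exp(-1)); al : N with algebraMap N Ω al = Ξ (T + R): mem_of_fxd, because s with Fxd N s fixes R (crd, ac_fix) and T (L ⊂ N), hX.gal; al ≠ 0 (value 1 at some V).
gal: hN.gal. cyc: exists_chi for the field 𝓞 F ⧸ span {β} (injection of Gal(N/L) into the units of a finite field: isCyclic_of_injective). card: IsGalois.card_aut_eq_finrank, TotRam.deg. ram: TotRam.es. unr: unram (hv.gv with Nm β = absNorm v). unif: TotRam.val, BF1_val.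
κ: for g choose an extension s of g, ac s R = act c R (tor_gen, ac_tor), c = n mod β for an integer n (H28G/K11.lean K11_int for variable F: the residue field has a prime number of elements), κ g = n. tame: V above W (exists_abw): tt_act for n: V(tt (act n R) - n tt R) ≤ V(tt R)^2; tt (act n R) = tt (ac s R) = s (tt R) = algebraMap N Ω (g t);
Abw.le with t^2; W(t)^2 = exp(-2) (TotRam.val). Ker V R from tor_ram (V(ak β) < 1: β in smulP σ Q). norm: norm_xi with fix_T and hv.xi (third part). unit: V above W, hv.xi first part, Abw.eq_one, BF1_val. congr: V above W above smulP σ Q, V(ak β) < 1, hv.xi second part, Abw.lt; algebraMap N Ω (algebraMap L N ξ) = Ξ T. -/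

variable {F : Type} [Field F] [NumberField F] [IQ F] {A B : F} {Om : ℂ} {Ω : Type} [Field Ω] [DecidableEq Ω]
  [Algebra F Ω] {j : Ω →+* ℂ} {act : 𝓞 F →+* AddMonoid.End (Pt (WAB A B) Ω)}
  {L : Type} [Field L] [NumberField L] [Algebra F L] [Algebra L Ω] [IsScalarTower F L Ω]

omit [IQ F] [DecidableEq Ω] [Algebra F Ω] in
theorem k9_int {β : 𝓞 F} (hN : (Nm β).Prime) (c : 𝓞 F) : ∃ n : ℤ, β ∣ c - n := by
  have hf : Fact (Nm β).Prime := ⟨hN⟩
  have hcard : Nat.card (𝓞 F ⧸ Ideal.span {β}) = Nm β := by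
    unfold H55P.Nm
    rw [Ideal.absNorm_apply, Submodule.cardQuot_apply]
  have h1 : (1 : 𝓞 F ⧸ Ideal.span {β}) ≠ 0 := by
    intro h0
    have hs : Subsingleton (𝓞 F ⧸ Ideal.span {β}) := subsingleton_of_zero_eq_one h0.symm
    rw [Nat.card_of_subsingleton (0 : 𝓞 F ⧸ Ideal.span {β})] at hcard
    rw [← hcard] at hN
    exact Nat.not_prime_one hN
  have h2 := mem_zmultiples_of_prime_card hcard h1 (g' := Ideal.Quotient.mk (Ideal.span {β}) c)
  obtain ⟨n, hn⟩ := AddSubgroup.mem_zmultiples_iff.1 h2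
  refine ⟨n, ?_⟩
  rw [← Ideal.mem_span_singleton, ← Ideal.Quotient.eq, ← hn, map_intCast, zsmul_eq_mul, mul_one]


omit [NumberField F] [IQ F] in
theorem k9_fix {N : Type} [Field N] [Algebra N Ω] {b : 𝓞 F}
    (hcrd : ∀ T ∈ Tor act b, ∃ x y : N, algebraMap N Ω x = xc T ∧ algebraMap N Ω y = yc T)
    {s : Ω ≃ₐ[F] Ω} (hs : Fxd N s) {T : Pt (WAB A B) Ω} (hT : T ∈ Tor act b) :
    ac (WAB A B) s T = T := by
  obtain ⟨x, y, hx, hy⟩ := hcrd T hT
  exact ac_fix s (by rw [← hx, hs]) (by rw [← hy, hs])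

omit [NumberField F] [IQ F] in
theorem k9_tt {N : Type} [Field N] [Algebra N Ω] {b : 𝓞 F}
    (hcrd : ∀ T ∈ Tor act b, ∃ x y : N, algebraMap N Ω x = xc T ∧ algebraMap N Ω y = yc T)
    {T : Pt (WAB A B) Ω} (hT : T ∈ Tor act b) : ∃ t : N, algebraMap N Ω t = tt T := by
  obtain ⟨x, y, hx, hy⟩ := hcrd T hT
  exact ⟨x / y, by rw [tt_xy, map_div₀, hx, hy]⟩

theorem k9_small {V : ValuationSubring Ω} {β : 𝓞 F} (hv : V.valuation (ak Ω β) < 1) :
    V.valuation ((Nm β : ℕ) : Ω) < 1 := by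
  have h1 : ((Nm β : ℕ) : Ω) = ak Ω β * ak Ω (cj β) := by
    have h2 := mul_cj β
    have h3 := congrArg (fun x : 𝓞 F => ak Ω x) h2
    show _ = algebraMap F Ω (β : F) * algebraMap F Ω ((cj β : 𝓞 F) : F)
    rw [← map_mul]
    have h4 : ((β : F) * ((cj β : 𝓞 F) : F)) = ((Nm β : ℕ) : F) := by
      have h5 := congrArg (algebraMap (𝓞 F) F) h2
      rw [map_mul, map_natCast] at h5
      exact h5
    rw [h4, map_natCast]
  rw [h1, map_mul]
  exact mul_lt_one_of_lt_of_le hv (ak_le V _)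

theorem exists_aux [IsAlgClosure F Ω] {m : Ideal (𝓞 F)} {ψ : Ideal (𝓞 F) →*₀ 𝓞 F} {l : ℕ} {π : 𝓞 F}
    {Ξ : Pt (WAB A B) Ω → Ω} (h : Dta A B Om j act m ψ l) (hX : XiD act ψ π Ξ) (hπ : Prime π)
    (hd : π ∣ (l : 𝓞 F)) (hL : TFld act F L π) {T : Pt (WAB A B) Ω} (hT : T ∈ Tor act π) (h0 : T ≠ 0)
    (ξ : Lˣ) (hξ : algebraMap L Ω (ξ : L) = Ξ T) (Q : Pl L)
    (hv : Okv A B act m ψ l π Ξ (Q.under (𝓞 F))) (hQ : (Ideal.absNorm Q.asIdeal).Prime)
    (he : es F L (Q.under (𝓞 F)) = 1) :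
    ∃ (N : Type) (_ : Field N) (_ : NumberField N) (_ : Algebra L N) (κ : Gal(N/L) → ℤ)
      (t al : Nˣ), Ab.Aux F L Q ξ N κ t al := by
  classical
  have hC := h.cma
  have hgalL := hL.gal
  obtain ⟨β, hβe⟩ : ∃ β, β = ψ (Q.under (𝓞 F)).asIdeal := ⟨_, rfl⟩
  obtain ⟨hp, hspan, hN, hn, hmem, hval⟩ := aux_prime h.hecke Q hv.cop hQ he β hβe
  obtain ⟨N, i1, i2, i3, i4, i5, i6, i7, i8, hNf⟩ := exists_TFld hC L hp.ne_zero
  have hgal := hNf.gal
  have hGN : ∀ V : ValuationSubring Ω, V.valuation ((Nm β : ℕ) : Ω) < 1 → GV A B V := by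
    intro V hV
    apply hv.gv V
    rw [hn, ← hN]
    exact hV
  have hG : ∀ V : ValuationSubring Ω, V.valuation (ak Ω β) < 1 → GV A B V :=
    fun V hV => hGN V (k9_small hV)
  have tr : ∀ σ : Gal(L/F), TotRam act L N β (smulP σ Q) := fun σ => tot_ram hC hp hNf _ (hval σ) hG
  obtain ⟨R, hR, hR0⟩ := exists_tor hC hp
  obtain ⟨t, ht⟩ := k9_tt hNf.crd hR
  have hval2 : ∀ σ : Gal(L/F), ∀ W : Pl N, W.under (𝓞 L) = smulP σ Q →
      W.valuation N t = WithZero.exp (-1 : ℤ) := fun σ W hW => (tr σ).val W hW R hR hR0 t ht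
  -- the uniformizer
  obtain ⟨W0, hW0⟩ := H55R.under_exists (K := L) (L := N) (smulP (1 : Gal(L/F)) Q)
  have htt : t ≠ 0 := by
    intro h0
    have h := hval2 1 W0 hW0
    rw [h0, map_zero] at h
    exact WithZero.exp_ne_zero h.symm
  -- V above W above a conjugate of Q
  have hVβ : ∀ σ : Gal(L/F), ∀ W : Pl N, W.under (𝓞 L) = smulP σ Q → ∀ V : ValuationSubring Ω, Abw V W →
      V.valuation (ak Ω β) < 1 := by
    intro σ W hW V hV
    have h1 : Abw V (smulP σ Q) := hV.below hW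
    have h2 : ak Ω β = algebraMap L Ω (algebraMap F L (β : F)) :=
      IsScalarTower.algebraMap_apply F L Ω (β : F)
    rw [h2, h1.lt, hval σ, ← WithZero.exp_zero, WithZero.exp_lt_exp]
    norm_num
  -- the unit
  have hxi := hv.xi T hT h0
  rw [← hβe] at hxi
  obtain ⟨al, hal⟩ : ∃ al : N, algebraMap N Ω al = Ξ (T + R) := by
    refine mem_of_fxd (F := F) N _ fun s hs => ?_
    have hsL : Fxd L s := by
      intro x
      rw [IsScalarTower.algebraMap_apply L N Ω x]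
      exact hs _
    rw [hX.gal, map_add, k9_fix hL.crd hsL hT, k9_fix hNf.crd hs hR]
  have hone : ∀ V : ValuationSubring Ω, V.valuation (algebraMap N Ω al) = 1 := fun V => by
    rw [hal]
    exact hxi.1 R hR V
  have hne : al ≠ 0 := by
    intro h1
    obtain ⟨V, -⟩ := exists_abw Ω W0
    have h2 := hone V
    rw [h1, map_zero, map_zero] at h2
    exact zero_ne_one h2
  -- the character
  have hκ : ∀ g : Gal(N/L), ∃ n : ℤ, ∀ s : Ω ≃ₐ[F] Ω, Lft g s → ac (WAB A B) s R = act (n : 𝓞 F) R := by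
    intro g
    obtain ⟨s, hs⟩ := exists_lft (F := F) (Ω := Ω) g
    obtain ⟨c, hc⟩ := tor_gen hC hp hR (ac_tor hC s hR) hR0
    obtain ⟨n, y, hy⟩ := k9_int (by rw [hN]; exact hQ) c
    refine ⟨n, fun s' hs' => ?_⟩
    have e1 : c = y * β + n := by linear_combination hy
    rw [lft_tor hNf hs' hs hR, ← hc, e1, map_add, map_mul]
    have hR' : act β R = 0 := hR
    show act y (act β R) + act (n : 𝓞 F) R = act (n : 𝓞 F) R
    rw [hR', map_zero, zero_add]
  choose κ hκ using hκ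
  refine ⟨N, i1, i2, i4, κ, Units.mk0 t htt, Units.mk0 al hne, ?_⟩
  refine ⟨hgal, ?_, ?_, ?_, ?_, ?_, ?_, ?_, ?_, ?_⟩
  · have hmax : (Ideal.span {β}).IsMaximal := by
      have h1 : (Ideal.span {β}).IsPrime := (Ideal.span_singleton_prime hp.ne_zero).2 hp
      exact h1.isMaximal (by rw [Ne, Ideal.span_singleton_eq_bot]; exact hp.ne_zero)
    let _ := Ideal.Quotient.field (Ideal.span {β})
    have hfin : Finite (𝓞 F ⧸ Ideal.span {β}) := by
      apply Ideal.finiteQuotientOfFreeOfNeBot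
      rw [Ne, Ideal.span_singleton_eq_bot]
      exact hp.ne_zero
    obtain ⟨χ, hχ, -⟩ := exists_chi hC hp hNf (Ideal.Quotient.mk (Ideal.span {β}))
      Ideal.Quotient.mk_surjective (fun x => by
        rw [Ideal.Quotient.eq_zero_iff_mem, Ideal.mem_span_singleton])
    exact isCyclic_of_injective χ hχ
  · rw [IsGalois.card_aut_eq_finrank, (tr 1).deg, hN]
  · intro σ
    rw [(tr σ).es, hN]
  · intro v hv'
    exact unram h hπ hd hL hp hNf hGN v fun h => by
      obtain ⟨σ, hσ⟩ := (hmem v).1 h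
      exact hv' σ hσ
  · intro σ W hW
    have h4 := H55R.BF1_val W (Units.mk0 t htt)
    rw [Units.val_mk0, hval2 σ W hW] at h4
    have h5 := WithZero.exp_injective h4
    omega
  · intro σ W hW g
    obtain ⟨V, hV⟩ := exists_abw Ω W
    have hVb := hVβ σ W hW V hV
    have hK := (tor_ram hC (hG V hVb) hp hVb hR hR0).1
    obtain ⟨s, hs⟩ := exists_lft (F := F) (Ω := Ω) g
    have h1 := tt_act hC (hG V hVb) ((κ g : ℤ) : 𝓞 F) hK
    rw [← hκ g s hs, tt_ac, ← ht, hs] at h1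
    have h7 : ak Ω ((κ g : ℤ) : 𝓞 F) = algebraMap N Ω (κ g : N) := by
      rw [map_intCast]
      show algebraMap F Ω (((κ g : ℤ) : 𝓞 F) : F) = _
      have : ((((κ g : ℤ) : 𝓞 F)) : F) = ((κ g : ℤ) : F) := map_intCast (algebraMap (𝓞 F) F) _
      rw [this, map_intCast]
    rw [h7, ← map_mul, ← map_sub, ← map_pow, ← map_pow, hV.le, map_pow, hval2 σ W hW] at h1
    refine h1.trans (le_of_eq ?_)
    rw [← WithZero.exp_nsmul]
    rfl
  · refine norm_xi hC hp hL hNf (tr 1).orb hX.gal hT (fun S' hS' => ?_) hR hR0 al hal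
    refine hxi.2.2 ?_ S' hS'
    rw [hβe]
    exact fix_T hd hL Q hv hQ hn he hT
  · intro W
    obtain ⟨V, hV⟩ := exists_abw Ω W
    rw [H55R.HB1_ord_zero]
    exact (hV.eq_one al).1 (hone V)
  · intro σ W hW
    obtain ⟨V, hV⟩ := exists_abw Ω W
    rw [Units.val_mk0]
    rw [← hV.lt, map_sub, hal, ← IsScalarTower.algebraMap_apply L N Ω, hξ]
    exact hxi.2.1 R hR V (hVβ σ W hW V hV)

end H55K
end

-- from Lib.H55K.K11
section

open NumberField IsDedekindDomain WeierstrassCurve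

namespace H55K

open H55P (IQ embF eF LF Per IsHecke Pt ac Inert Dec Nm)
open H35P (WAB Ker tt)
open H55R (Pl ord es fs smulP)

/-! Chunk K11 (M, port of H28G/K13.lean: geo_main). T in Tor act π nonzero (exists_tor). v = w.under, v.asIdeal = span {π}. hG for π: V(ak π) < 1 gives V(l) < 1 (π | l), h.good. tot_ram F L π v: TotRam; chi_bij. t : L with algebraMap L Ω t = tt T (tt_xy, crd), nonzero. exists_loc gives r, Loc.
ξ : L with algebraMap L Ω ξ = Ξ T (mem_of_fxd: s with Fxd L s fixes T, hX.gal), ξ ≠ 0 and ord v ξ = 0 for all v: V above v (exists_abw), hX.unit0, Abw.eq_one, BF1_val. ρ from Ab.exists_rho. c from hX.exp. Ab.lev_eta (2 < card k) with a0 = 1 and c: w(ξ/1 - 1 - c t) ≤ exp(-2) from hX.exp for V above w (V(ak π) < 1), Abw.le with t^2, TotRam.val; r(c) = q c ≠ 0.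
Ab.main_abs with hcyc from k10_cyc, bad = {Q | Q.under ∈ S} with S from exists_okv (k10_fin), haux from exists_aux: Okv for Q.under needs absNorm (Q.under) prime: absNorm Q = absNorm(Q.under)^fs prime (H55R.D5_norm). -/

variable {F : Type} [Field F] [NumberField F] [IQ F] {A B : F} {Om : ℂ} {Ω : Type} [Field Ω] [DecidableEq Ω]
  [Algebra F Ω] {j : Ω →+* ℂ} {act : 𝓞 F →+* AddMonoid.End (Pt (WAB A B) Ω)}
  {L : Type} [Field L] [NumberField L] [Algebra F L] [Algebra L Ω] [IsScalarTower F L Ω]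

/-- THE THEOREM OF THAINE, KOLYVAGIN AND RUBIN for the field L of the π-torsion. -/
theorem geo_main [IsAlgClosure F Ω] {m : Ideal (𝓞 F)} {ψ : Ideal (𝓞 F) →*₀ 𝓞 F} {l : ℕ} [Fact l.Prime]
    {π : 𝓞 F} {Ξ : Pt (WAB A B) Ω → Ω} (h : Dta A B Om j act m ψ l) (hX : XiD act ψ π Ξ) (hπ : Prime π)
    (hd : π ∣ (l : 𝓞 F))
    (hcyc : ¬ ∀ (s : Ω ≃ₐ[F] Ω) (n : ℕ), (∀ T ∈ Tor act π, ac (WAB A B) s T = n • T) →
      ∀ ζ : Ω, ζ ^ l = 1 → s ζ = ζ ^ n)
    (hL : TFld act F L π) {k : Type} [Field k] [Fintype k] [DecidableEq k] [CharP k l] (q : 𝓞 F →+* k)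
    (hq : Function.Surjective q) (hk : ∀ x, q x = 0 ↔ π ∣ x) (χ : Gal(L/F) →* kˣ)
    (hχ : ∀ (σ : Gal(L/F)) (s : Ω ≃ₐ[F] Ω) (c : 𝓞 F), Lft σ s → q c = χ σ → ∀ R ∈ Tor act π,
      ac (WAB A B) s R = act c R) (w : Pl L) (hw : algebraMap (𝓞 F) (𝓞 L) π ∈ w.asIdeal) {m' : k → Lˣ}
    (hm : Ab.EqHom l χ m') (hdv : ∀ (a : k) (v : Pl L), (l : ℤ) ∣ ord v (m' a))
    (hlev : ∀ a, Ab.Lev l w (m' a)) (a : k) : ∃ z : Lˣ, m' a = z ^ l := by
  classical
  have hC := h.cma
  have hl : l.Prime := Fact.out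
  have hgal : IsGalois F L := hL.gal
  have hNm := k10_arith hl h.five hπ hd
  have hG : ∀ V : ValuationSubring Ω, V.valuation (ak Ω π) < 1 → GV A B V := by
    intro V hV
    apply h.good V
    obtain ⟨c, hc⟩ := hd
    have h1 : (l : Ω) = ak Ω π * ak Ω c := by
      have h2 := congrArg (algebraMap (𝓞 F) F) hc
      rw [map_natCast, map_mul] at h2
      show _ = algebraMap F Ω (π : F) * algebraMap F Ω (c : F)
      rw [← map_mul]
      have h3 := congrArg (algebraMap F Ω) h2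
      rw [map_natCast] at h3
      exact h3
    rw [h1, map_mul]
    exact mul_lt_one_of_lt_of_le hV (ak_le V c)
  obtain ⟨T, hT, h0⟩ := exists_tor hC hπ
  have hspan := k10_below hπ w hw
  have TR := tot_ram hC hπ hL (w.under (𝓞 F)) (k10_val hπ _ hspan) hG
  have hχb := chi_bij hC hπ hL TR.deg q hq hk χ hχ
  obtain ⟨t, ht⟩ := k9_tt hL.crd hT
  have hwt := TR.val w rfl T hT h0 t ht
  have htt : t ≠ 0 := by
    intro h1
    rw [h1, map_zero] at hwt
    exact WithZero.exp_ne_zero hwt.symm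
  obtain ⟨r, hloc, hr⟩ := exists_loc hC hπ hL (by omega) hG q hq hk χ hχ _ hspan w rfl T hT h0
    (Units.mk0 t htt) ht
  obtain ⟨ξ, hξ⟩ : ∃ ξ : L, algebraMap L Ω ξ = Ξ T := by
    refine mem_of_fxd (F := F) L _ fun s hs => ?_
    rw [hX.gal, k9_fix hL.crd hs hT]
  have hone : ∀ V : ValuationSubring Ω, V.valuation (algebraMap L Ω ξ) = 1 := fun V => by
    rw [hξ]
    exact hX.unit0 T hT h0 V
  obtain ⟨V, hV⟩ := exists_abw Ω w
  have hne : ξ ≠ 0 := by
    intro h1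
    have h2 := hone V
    rw [h1, map_zero, map_zero] at h2
    exact zero_ne_one h2
  have hord : ∀ v : Pl L, ord v (Units.mk0 ξ hne) = 0 := by
    intro v
    obtain ⟨V', hV'⟩ := exists_abw Ω v
    rw [H55R.HB1_ord_zero]
    exact (hV'.eq_one ξ).1 (hone V')
  obtain ⟨ρ, hρ⟩ := Ab.exists_rho l k
  have hcard : 2 < Fintype.card k := by
    have h1 := k10_card q hq hk
    rw [Nat.card_eq_fintype_card] at h1
    omega
  obtain ⟨c, hc, hexp⟩ := hX.exp
  have hVπ : V.valuation (ak Ω π) < 1 := by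
    have h2 : ak Ω π = algebraMap L Ω ((algebraMap (𝓞 F) (𝓞 L) π : 𝓞 L) : L) :=
      IsScalarTower.algebraMap_apply F L Ω (π : F)
    rw [h2, hV.lt]
    exact (w.valuation_lt_one_iff_mem _).2 hw
  have hlev' : ∀ a : k, a ≠ 0 → ¬ Ab.Lev l w (Ab.eta χ ρ a (Units.mk0 ξ hne)) := by
    intro a ha
    refine Ab.lev_eta hcard hχb ρ hρ hloc (Units.mk0 ξ hne) 1 one_ne_zero c ?_ ?_ a ha
    · rw [hr, Ne, hk]
      exact hc
    · have h1 := hexp V hVπ T hT h0
      rw [← hξ, ← ht] at h1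
      have h2 : ak Ω c = algebraMap L Ω (algebraMap F L (c : F)) :=
        IsScalarTower.algebraMap_apply F L Ω (c : F)
      have h3 : (1 : Ω) = algebraMap L Ω 1 := (map_one _).symm
      rw [h2, h3, ← map_sub, ← map_mul, ← map_sub, ← map_pow, ← map_pow, hV.le, map_pow, hwt] at h1
      rw [map_one, div_one, Units.val_mk0, Units.val_mk0]
      refine h1.trans (le_of_eq ?_)
      rw [← WithZero.exp_nsmul]
      rfl
  obtain ⟨S, hS, hok⟩ := exists_okv h hX
  refine Ab.main_abs h.five hχb ρ hρ (fun ζ hζ => k10_cyc hC hl hπ hL q hq hk χ hχ hcyc ζ hζ) w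
    (Units.mk0 ξ hne) hord hlev' {Q : Pl L | Q.under (𝓞 F) ∈ S} (k10_fin hS) ?_ hm hdv hlev a
  intro Q hQ1 hQ2 hQ3 hQ4
  refine exists_aux h hX hπ hd hL hT h0 (Units.mk0 ξ hne) hξ Q (hok _ hQ1 ?_) hQ2 hQ4
  have h1 := H55R.D5_norm (Q.under (𝓞 F)) Q rfl
  rw [h1] at hQ2
  have h2 := hQ2.eq_one_of_pow
  rw [h2, pow_one] at hQ2
  exact hQ2

end H55K
end

-- from Lib.H55K.K12
section

open NumberField IsDedekindDomain WeierstrassCurve

namespace H55K

open H55P (IQ embF eF LF Per IsHecke Pt ac Inert Dec Nm)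
open H35P (WAB Ker tt)
open H55R (Pl ord es fs smulP)

/-! Chunk K12 (M, port of H99B/Geom.lean, last theorem). L : IntermediateField F Ω generated by the points killed by π (IsTF): TFld act F L π by tfld_of_istf. k = 𝓞 F ⧸ span {π} (a finite field of characteristic l), q = mk; χ from exists_chi; w a prime of L above (π) (under_exists); T0 in Tor act π nonzero; o : k -> 𝓞 F a section of q;
P a = act (o a) T0; m' a = m (P a); EqHom: add: P (a + b) = P a + P b (tor_zero: act depends only on q); equiv: for σ take an extension s: P (χ σ * a) = ac s (P a) and hact, s (m T : Ω) = (σ (m T) : Ω). Every T in Tor act π is P (q c) with act c T0 = T (tor_gen).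
geo_main. (DecidableEq by classical.) -/

variable {F : Type} [Field F] [NumberField F] [IQ F] {A B : F} {Om : ℂ} {Ω : Type} [Field Ω] [DecidableEq Ω]
  [Algebra F Ω] {j : Ω →+* ℂ} {act : 𝓞 F →+* AddMonoid.End (Pt (WAB A B) Ω)}

/-- Kummer form: functions on the π-torsion points with values in L = F(E[π]). -/
theorem geom_main [IsAlgClosure F Ω] {m : Ideal (𝓞 F)} {ψ : Ideal (𝓞 F) →*₀ 𝓞 F} {l : ℕ}
    {π : 𝓞 F} {Ξ : Pt (WAB A B) Ω → Ω} (h : Dta A B Om j act m ψ l) (hX : XiD act ψ π Ξ) (hπ : Prime π)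
    (hd : π ∣ (l : 𝓞 F))
    (hcyc : ¬ ∀ (s : Ω ≃ₐ[F] Ω) (n : ℕ), (∀ T ∈ Tor act π, ac (WAB A B) s T = n • T) →
      ∀ ζ : Ω, ζ ^ l = 1 → s ζ = ζ ^ n)
    (L : IntermediateField F Ω) (hL : IsTF act π L) [NumberField L] (M : Pt (WAB A B) Ω → Lˣ)
    (hadd : ∀ T ∈ Tor act π, ∀ T' ∈ Tor act π, ∃ z : Lˣ, M (T + T') = M T * M T' * z ^ l)
    (hact : ∀ s : Ω ≃ₐ[F] Ω, ∀ T ∈ Tor act π, ∃ z : Lˣ,
      ((M (ac (WAB A B) s T) : L) : Ω) = s ((M T : L) : Ω) * ((z : L) : Ω) ^ l)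
    (hord : ∀ T ∈ Tor act π, ∀ w : Pl L, (l : ℤ) ∣ ord w (M T))
    (hlev : ∀ T ∈ Tor act π, ∀ w : Pl L, w.valuation L (algebraMap F L (π : F)) < 1 →
      ∃ z : Lˣ, w.valuation L (((M T * (z ^ l)⁻¹ : Lˣ) : L) - 1) ≤ WithZero.exp (-2 : ℤ)) :
    ∀ T ∈ Tor act π, ∃ z : Lˣ, M T = z ^ l := by
  classical
  have hC := h.cma
  have hl : Fact l.Prime := ⟨h.prime⟩
  have hL' := tfld_of_istf hC hL
  have hgal : IsGalois F L := hL'.gal
  have hmax : (Ideal.span {π}).IsMaximal := by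
    have h1 : (Ideal.span {π}).IsPrime := (Ideal.span_singleton_prime hπ.ne_zero).2 hπ
    exact h1.isMaximal (by rw [Ne, Ideal.span_singleton_eq_bot]; exact hπ.ne_zero)
  have hb : Ideal.span {π} ≠ ⊥ := by
    rw [Ne, Ideal.span_singleton_eq_bot]
    exact hπ.ne_zero
  let k := 𝓞 F ⧸ Ideal.span {π}
  letI ik : Field k := Ideal.Quotient.field (Ideal.span {π})
  have hfin : Finite k := Ideal.finiteQuotientOfFreeOfNeBot _ hb
  letI : Fintype k := Fintype.ofFinite k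
  let q : 𝓞 F →+* k := Ideal.Quotient.mk (Ideal.span {π})
  have hq : Function.Surjective q := Ideal.Quotient.mk_surjective
  have hk : ∀ x, q x = 0 ↔ π ∣ x := fun x => by
    rw [Ideal.Quotient.eq_zero_iff_mem, Ideal.mem_span_singleton]
  have hchar : CharP k l := by
    have h1 : ((l : ℕ) : k) = 0 := by
      have h2 := (hk (l : 𝓞 F)).2 hd
      rw [map_natCast] at h2
      exact h2
    obtain ⟨p, hp⟩ := CharP.exists k
    have h2 : p ∣ l := (CharP.cast_eq_zero_iff k p l).1 h1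
    rcases (Nat.dvd_prime h.prime).1 h2 with h3 | h3
    · exfalso
      subst h3
      have h4 : ((1 : ℕ) : k) = 0 := (CharP.cast_eq_zero_iff k 1 1).2 (dvd_refl 1)
      rw [Nat.cast_one] at h4
      exact one_ne_zero h4
    · rw [← h3]
      exact hp
  obtain ⟨χ, -, hχ⟩ := exists_chi hC hπ hL' q hq hk
  obtain ⟨w, hw⟩ : ∃ w : Pl L, algebraMap (𝓞 F) (𝓞 L) π ∈ w.asIdeal := by
    obtain ⟨w, hw⟩ := H55R.under_exists (L := L) (⟨Ideal.span {π}, hmax.isPrime, hb⟩ : Pl F)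
    refine ⟨w, ?_⟩
    have h1 : π ∈ (w.under (𝓞 F)).asIdeal := by
      rw [hw]
      exact Ideal.mem_span_singleton_self π
    exact h1
  have hw1 : w.valuation L (algebraMap F L (π : F)) < 1 :=
    (w.valuation_lt_one_iff_mem (algebraMap (𝓞 F) (𝓞 L) π)).2 hw
  obtain ⟨T₀, hT₀, h0⟩ := exists_tor hC hπ
  obtain ⟨o, ho⟩ : ∃ o : k → 𝓞 F, ∀ a, q (o a) = a := ⟨Function.surjInv hq, Function.surjInv_eq hq⟩
  have hact0 : ∀ c c' : 𝓞 F, q c = q c' → act c T₀ = act c' T₀ := by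
    intro c c' h
    have h1 : act (c - c') T₀ = 0 := by
      rw [tor_zero hC hπ hT₀ h0, ← hk, map_sub, h, sub_self]
    rw [map_sub] at h1
    exact sub_eq_zero.1 h1
  let P : k → Pt (WAB A B) Ω := fun a => act (o a) T₀
  have hP : ∀ a, P a ∈ Tor act π := fun a => tor_act (o a) hT₀
  have hm : Ab.EqHom l χ fun a => M (P a) := by
    constructor
    · intro a b
      have h1 : P (a + b) = P a + P b := by
        show act (o (a + b)) T₀ = act (o a) T₀ + act (o b) T₀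
        rw [hact0 (o (a + b)) (o a + o b) (by rw [map_add, ho, ho, ho]), map_add]
        rfl
      show ∃ z, M (P (a + b)) = _
      rw [h1]
      exact hadd _ (hP a) _ (hP b)
    · intro σ a
      obtain ⟨s, hs⟩ := exists_lft (F := F) (Ω := Ω) σ
      have h1 : P (χ σ * a) = ac (WAB A B) s (P a) := by
        rw [hχ σ s (o (χ σ)) hs (ho _) _ (hP a)]
        show act (o (χ σ * a)) T₀ = act (o (χ σ)) (act (o a) T₀)
        rw [hact0 (o (χ σ * a)) (o (χ σ) * o a) (by rw [map_mul, ho, ho, ho]), map_mul]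
        rfl
      obtain ⟨z, hz⟩ := hact s (P a) (hP a)
      refine ⟨z, ?_⟩
      show M (P (χ σ * a)) = _
      rw [h1]
      ext
      rw [hz]
      have h2 := hs (M (P a) : L)
      have h3 : s ((M (P a) : L) : Ω) = ((σ (M (P a) : L) : L) : Ω) := h2
      rw [h3]
      rfl
  intro T hT
  obtain ⟨c, hc⟩ := tor_gen hC hπ hT₀ hT h0
  have h1 : T = P (q c) := by
    rw [← hc]
    exact hact0 _ _ (ho _).symm
  rw [h1]
  exact geo_main h hX hπ hd hcyc hL' q hq hk χ hχ w hw hm (fun a v => hord _ (hP a) v)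
    (fun a => hlev _ (hP a) w hw1) (q c)

end H55K
end
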