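import Mathlib
import Pool.Agent.Lib.H1M.PP2.D_H55G_D0
import Pool.Agent.Lib.H1M.PP2.M052
import Pool.Agent.Lib.H1M.PP2.M092
import Pool.Agent.Lib.H1M.PP2.M101

/-! Merged copies (to shorten the build) of Lib.H13X.XKB, Lib.H13X.XKB2, Lib.H55G.C1a, Lib.H55G.C1b, Lib.H55G.C2a, Lib.H55G.C2b, Lib.H55G.C2c, Lib.H55G.B4c, Lib.H55G.B4d, Lib.H55G.C3a, Lib.H55G.C3b, Lib.H55G.C3c. -/

-- from Lib.H13X.XKB
section

/-! # H13X: port of H13Z/KB -/

open NumberField IsDedekindDomain WeierstrassCurve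

namespace H13X

open H55P (IQ embF eF LF Per IsHecke Pt ac Inert Dec Nm Coc)
open H35P (WAB Ker tt)
open H55K (Tor ak xc yc CMA Dta GV GMod cj cj_cj mul_cj cj_prime cj_dvd cj_nat Nm_cj Nm_mul Nm_nat)
open H55K.S
open H13S (Abv)




variable {F : Type} [Field F] [NumberField F] [IQ F] {A B : F} {Om : ℂ} {Ω : Type} [Field Ω] [DecidableEq Ω]
  [Algebra F Ω] [IsAlgClosure F Ω] {j : Ω →+* ℂ} {act : 𝓞 F →+* AddMonoid.End (Pt (WAB A B) Ω)} {mo : Ideal (𝓞 F)}
  {ψ : Ideal (𝓞 F) →*₀ 𝓞 F}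

variable {π : 𝓞 F} {l : ℕ} {B₀ L : IntermediateField F Ω} {c : (Ω ≃ₐ[F] Ω) → Pt (WAB A B) Ω}
  {e : Pt (WAB A B) Ω → Pt (WAB A B) Ω → Ω}

/-- Chunk KB1 (M), port of H13S.exists_kum (KU1.lean) to a base field B₀ (all elements s, t in L.fixingSubgroup lie in B₀.fixingSubgroup: IsTB.mono). -/
theorem exists_kumB (D : Dat A B Om j act mo ψ π l) (C : Cc act π B₀ c) (he : Pairing A B act π l e) (hL : IsTB act π B₀ L) {T : Pt (WAB A B) Ω}
    (hT : T ∈ Tor act π) : ∃ y : Ω, Kum L e c T y := by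
  classical
  obtain ⟨E₁, hE₁, hc₁⟩ := C.cont
  have hNF : Normal F Ω := IsAlgClosure.normal F Ω
  have hNL : Normal L Ω := Normal.tower_top_of_normal F L Ω
  let b := Module.finBasis F E₁
  let S : Set Ω := Set.range (fun i => ((b i : E₁) : Ω)) ∪ {x : Ω | x ^ l = 1}
  have hl0 : 0 < l := D.hl.pos
  have hfr : {x : Ω | x ^ l = 1}.Finite := by
    have h1 := (Polynomial.nthRoots l (1 : Ω)).toFinset.finite_toSet
    refine h1.subset fun x hx => ?_
    rw [Finset.mem_coe, Multiset.mem_toFinset, Polynomial.mem_nthRoots hl0]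
    exact hx
  have hSf : Finite S := ((Set.finite_range _).union hfr).to_subtype
  -- the inclusion of the automorphism groups
  have hmem : ∀ s : Ω ≃ₐ[L] Ω, s.restrictScalars F ∈ L.fixingSubgroup := by
    intro s
    rw [IntermediateField.mem_fixingSubgroup_iff]
    intro x hx
    exact s.commutes ⟨x, hx⟩
  have hmB : ∀ s : Ω ≃ₐ[L] Ω, s.restrictScalars F ∈ B₀.fixingSubgroup := fun s => hL.mono (hmem s)
  have hacT : ∀ s : Ω ≃ₐ[L] Ω, ac (WAB A B) (s.restrictScalars F) T = T := fun s =>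
    ((hL.fix _).1 (hmem s)).2 T hT
  have h0 : ∀ s : Ω ≃ₐ[L] Ω, e (c (s.restrictScalars F)) T ≠ 0 := by
    intro s h0
    have h1 := he.root _ (C.val (s.restrictScalars F) (hmB s)) T hT
    rw [h0, zero_pow hl0.ne'] at h1
    exact zero_ne_one h1
  have hcoc : ∀ s t : Ω ≃ₐ[L] Ω, e (c ((s * t).restrictScalars F)) T =
      e (c (s.restrictScalars F)) T * s (e (c (t.restrictScalars F)) T) := by
    intro s t
    have h1 : (s * t).restrictScalars F = s.restrictScalars F * t.restrictScalars F := rfl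
    rw [h1, C.mul _ (hmB s) _ (hmB t), he.add_left _ (C.val _ (hmB s)) _ (ac_mem D.cma _ (C.val _ (hmB t))) T hT]
    congr 1
    have h2 := he.gal (s.restrictScalars F) _ (C.val (t.restrictScalars F) (hmB t)) T hT
    rw [hacT] at h2
    exact h2.symm
  have htriv : ∀ n : Ω ≃ₐ[L] Ω, (∀ x ∈ S, n x = x) → e (c (n.restrictScalars F)) T = 1 := by
    intro n hn
    have h1 : n.restrictScalars F ∈ E₁.fixingSubgroup := by
      rw [IntermediateField.mem_fixingSubgroup_iff]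
      intro x hx
      have h2 := b.sum_repr ⟨x, hx⟩
      have h3 : x = ∑ i, (b.repr ⟨x, hx⟩ i) • ((b i : E₁) : Ω) := by
        have h4 := congrArg (fun z : E₁ => (z : Ω)) h2
        refine h4.symm.trans ?_
        push_cast
        rfl
      rw [h3, map_sum]
      refine Finset.sum_congr rfl fun i _ => ?_
      rw [map_smul]
      congr 1
      exact hn _ (Or.inl ⟨i, rfl⟩)
    have h2 := hc₁ _ (hmB n) h1
    rw [h2]
    have h3 := he.add_left 0 (zero_mem _) 0 (zero_mem _) T hT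
    rw [add_zero] at h3
    have h4 := he.root 0 (zero_mem _) T hT
    have h5 : e 0 T ≠ 0 := by
      intro h0
      rw [h0, zero_pow hl0.ne'] at h4
      exact zero_ne_one h4
    exact (mul_eq_left₀ h5).1 h3.symm
  obtain ⟨y, hy0, hy⟩ := H13S.ku1_h90 (k := L) (Ω := Ω) (fun s => e (c (s.restrictScalars F)) T) h0 hcoc S
    (fun s => Or.inr (he.root _ (C.val _ (hmB s)) T hT)) htriv
  refine ⟨y, hy0, fun s hs => ?_⟩
  exact hy (IntermediateField.fixingSubgroupEquiv L ⟨s, hs⟩)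

end H13X
end

-- from Lib.H13X.XKB2
section

/-! # H13X: port of H13Z/KB2 -/

open NumberField IsDedekindDomain WeierstrassCurve

namespace H13X

open H55P (IQ embF eF LF Per IsHecke Pt ac Inert Dec Nm Coc)
open H35P (WAB Ker tt)
open H55K (Tor ak xc yc CMA Dta GV GMod cj cj_cj mul_cj cj_prime cj_dvd cj_nat Nm_cj Nm_mul Nm_nat)
open H55K.S
open H13S (Abv)




variable {F : Type} [Field F] [NumberField F] [IQ F] {A B : F} {Om : ℂ} {Ω : Type} [Field Ω] [DecidableEq Ω]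
  [Algebra F Ω] [IsAlgClosure F Ω] {j : Ω →+* ℂ} {act : 𝓞 F →+* AddMonoid.End (Pt (WAB A B) Ω)} {mo : Ideal (𝓞 F)}
  {ψ : Ideal (𝓞 F) →*₀ 𝓞 F}

variable {π : 𝓞 F} {l : ℕ} {B₀ L : IntermediateField F Ω} {c : (Ω ≃ₐ[F] Ω) → Pt (WAB A B) Ω}
  {e : Pt (WAB A B) Ω → Pt (WAB A B) Ω → Ω}




omit [IsAlgClosure F Ω] in
theorem kb2_conj (hA : CMA F A B Om j act) (hL : IsTB act π B₀ L) {σ s : Ω ≃ₐ[F] Ω} (hσ : σ ∈ B₀.fixingSubgroup)
    (hs : s ∈ L.fixingSubgroup) : σ⁻¹ * s * σ ∈ L.fixingSubgroup := by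
  rw [hL.fix]
  refine ⟨mul_mem (mul_mem (inv_mem hσ) (hL.mono hs)) hσ, fun T hT => ?_⟩
  rw [ac_mul, ac_mul, ((hL.fix s).1 hs).2 _ (ac_mem hA σ hT), ← ac_mul, inv_mul_cancel, ac_one]

/-- Chunk KB2 (S/M), ports of H13S/KU2.lean to a base field B₀, and the product of Kummer generators. -/
theorem kumB_pow (C : Cc act π B₀ c) (he : Pairing A B act π l e) (hL : IsTB act π B₀ L) {T : Pt (WAB A B) Ω} (hT : T ∈ Tor act π)
    {y : Ω} (hy : Kum L e c T y) : ∃ m : L, (m : Ω) = y ^ l ∧ m ≠ 0 := by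
  have h1 : y ^ l ∈ L := by
    apply ku2_mem
    intro s hs
    rw [map_pow, hy.2 s hs, mul_pow, he.root _ (C.val s (hL.mono hs)) _ hT, one_mul]
  refine ⟨⟨y ^ l, h1⟩, rfl, fun h => ?_⟩
  have h2 : y ^ l = 0 := congrArg (fun z : L => (z : Ω)) h
  exact pow_ne_zero l hy.1 h2




/-- L is stable under the automorphisms over B₀. -/
theorem tb_stable (hA : CMA F A B Om j act) (hL : IsTB act π B₀ L) (σ : Ω ≃ₐ[F] Ω) (hσ : σ ∈ B₀.fixingSubgroup) (x : L) : σ (x : Ω) ∈ L := by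
  apply ku2_mem
  intro s hs
  have hs' := kb2_conj hA hL hσ hs
  have h1 : (σ⁻¹ * s * σ) (x : Ω) = (x : Ω) :=
    (IntermediateField.mem_fixingSubgroup_iff L _).1 hs' x x.2
  have e1 : σ * (σ⁻¹ * s * σ) = s * σ := by group
  show (s * σ) (x : Ω) = σ (x : Ω)
  rw [← e1]
  show σ ((σ⁻¹ * s * σ) (x : Ω)) = σ (x : Ω)
  rw [h1]

/-- Existence of L: L = B₀(coordinates of Tor π). -/
theorem exists_TB (hA : CMA F A B Om j act) (π : 𝓞 F) (hπ : Prime π) (B₀ : IntermediateField F Ω) [FiniteDimensional F B₀] :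
    ∃ L : IntermediateField F Ω, IsTB act π B₀ L := by
  classical
  obtain ⟨hcard, -⟩ := gi_gen hA π hπ
  have hN : Nm π ≠ 0 := fun h => hπ.ne_zero (H55P.Nm_eq_zero.1 h)
  have hfin : Finite (Tor act π) := by
    apply Nat.finite_of_card_ne_zero
    rw [hcard]
    exact hN
  have hint : ∀ x : Ω, IsIntegral F x := fun x =>
    (Algebra.IsAlgebraic.isAlgebraic x).isIntegral
  let A₀ : Set Ω := (xc '' (Tor act π : Set (Pt (WAB A B) Ω))) ∪ (yc '' (Tor act π : Set (Pt (WAB A B) Ω)))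
  have hAf : A₀.Finite := ((Set.toFinite (Tor act π : Set (Pt (WAB A B) Ω))).image _).union
    ((Set.toFinite (Tor act π : Set (Pt (WAB A B) Ω))).image _)
  have hAf' : Finite A₀ := hAf
  have hLf : FiniteDimensional F (IntermediateField.adjoin F A₀) :=
    IntermediateField.finiteDimensional_adjoin fun x _ => hint x
  refine ⟨B₀ ⊔ IntermediateField.adjoin F A₀, inferInstance, le_sup_left, fun s => ?_⟩
  rw [IntermediateField.fixingSubgroup_sup, Subgroup.mem_inf]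
  refine and_congr_right fun _ => ?_
  constructor
  · intro hs T hT
    have hfix : ∀ x ∈ A₀, s x = x := fun x hx =>
      (IntermediateField.mem_fixingSubgroup_iff _ _).1 hs x (IntermediateField.subset_adjoin F A₀ hx)
    by_cases hT0 : T = 0
    · rw [hT0, map_zero]
    · refine pt_ext (ac_ne s hT0) hT0 ?_ ?_
      · rw [xc_ac]
        exact hfix _ (Or.inl ⟨T, hT, rfl⟩)
      · rw [yc_ac]
        exact hfix _ (Or.inr ⟨T, hT, rfl⟩)
  · intro hs
    rw [IntermediateField.mem_fixingSubgroup_iff]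
    intro x hx
    have hA : ∀ x ∈ A₀, s x = x := by
      rintro x (⟨T, hT, rfl⟩ | ⟨T, hT, rfl⟩)
      · have h1 := congrArg xc (hs T hT)
        rw [xc_ac] at h1
        exact h1
      · have h1 := congrArg yc (hs T hT)
        rw [yc_ac] at h1
        exact h1
    induction hx using IntermediateField.adjoin_induction with
    | mem x hx => exact hA x hx
    | algebraMap x => exact s.commutes x
    | add x y _ _ h1 h2 => rw [map_add, h1, h2]
    | inv x _ h1 => rw [map_inv₀, h1]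
    | mul x y _ _ h1 h2 => rw [map_mul, h1, h2]

end H13X
end

-- from Lib.H55G.C1a
section

/-! # H55G, part C: the residue field of V -/

open NumberField IsDedekindDomain WeierstrassCurve Polynomial

namespace H55G

variable {Ω : Type} [Field Ω] {V : ValuationSubring Ω}

theorem c1a_rs {x : Ω} (hx : x ∈ V) : rs V x = IsLocalRing.residue V ⟨x, hx⟩ := dif_pos hx

/-- Chunk C1 (S). dif_pos; the residue map is a ring homomorphism and its kernel is the maximal ideal: IsLocalRing.residue_eq_zero_iff, ValuationSubring.valuation_lt_one_iff (or mem_nonunits_iff). Every residue class is the class of an element of V (IsLocalRing.residue_surjective). -/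
theorem rs_add {x y : Ω} (hx : x ∈ V) (hy : y ∈ V) : rs V (x + y) = rs V x + rs V y := by
  rw [c1a_rs hx, c1a_rs hy, c1a_rs (add_mem hx hy), ← map_add]
  rfl

theorem rs_sub {x y : Ω} (hx : x ∈ V) (hy : y ∈ V) : rs V (x - y) = rs V x - rs V y := by
  rw [c1a_rs hx, c1a_rs hy, c1a_rs (sub_mem hx hy), ← map_sub]
  rfl

theorem rs_mul {x y : Ω} (hx : x ∈ V) (hy : y ∈ V) : rs V (x * y) = rs V x * rs V y := by
  rw [c1a_rs hx, c1a_rs hy, c1a_rs (mul_mem hx hy), ← map_mul]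
  rfl

theorem rs_pow {x : Ω} (hx : x ∈ V) (n : ℕ) : rs V (x ^ n) = rs V x ^ n := by
  rw [c1a_rs hx, c1a_rs (pow_mem hx n), ← map_pow]
  rfl

theorem rs_one : rs V (1 : Ω) = 1 := by
  rw [c1a_rs V.one_mem]
  exact map_one _


theorem rs_prod {ι : Type} (S : Finset ι) (f : ι → Ω) (hf : ∀ i ∈ S, f i ∈ V) : rs V (∏ i ∈ S, f i) = ∏ i ∈ S, rs V (f i) := by
  classical
  induction S using Finset.induction_on with
  | empty => rw [Finset.prod_empty, Finset.prod_empty, rs_one]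
  | insert a T ha ih =>
    rw [Finset.prod_insert ha, Finset.prod_insert ha, rs_mul (hf a (Finset.mem_insert_self _ _))
      (prod_mem fun i hi => hf i (Finset.mem_insert_of_mem hi)), ih fun i hi => hf i (Finset.mem_insert_of_mem hi)]

theorem rs_eq_zero {x : Ω} (hx : x ∈ V) : rs V x = 0 ↔ V.valuation x < 1 := by
  rw [c1a_rs hx, IsLocalRing.residue_eq_zero_iff]
  exact V.valuation_lt_one_iff ⟨x, hx⟩

theorem rs_eq {x y : Ω} (hx : x ∈ V) (hy : y ∈ V) : rs V x = rs V y ↔ V.valuation (x - y) < 1 := by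
  rw [← sub_eq_zero, ← rs_sub hx hy, rs_eq_zero (sub_mem hx hy)]

theorem rs_surj (V : ValuationSubring Ω) (z : IsLocalRing.ResidueField V) : ∃ x ∈ V, rs V x = z := by
  obtain ⟨⟨x, hx⟩, h⟩ := IsLocalRing.residue_surjective z
  exact ⟨x, hx, (c1a_rs hx).trans h⟩

end H55G
end

-- from Lib.H55G.C1b
section

/-! # H55G, part C: the residue field of V -/

open NumberField IsDedekindDomain WeierstrassCurve Polynomial

namespace H55G

variable {Ω : Type} [Field Ω] {V : ValuationSubring Ω}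

/-- Chunk C1 (S/M). A monic polynomial over the residue field of degree ≥ 1 lifts to a monic polynomial over V of the same degree (Polynomial.lifts_and_natDegree_eq_and_monic, the residue map is surjective); it has a root in Ω (IsAlgClosed), which is integral over V, so it is in V (V is integrally closed in Ω: ValuationSubring / IsIntegrallyClosed, or directly with the valuation);
its class is a root. IsAlgClosed.of_exists_root. -/
theorem rs_algClosed [IsAlgClosed Ω] (V : ValuationSubring Ω) : IsAlgClosed (IsLocalRing.ResidueField V) := by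
  refine IsAlgClosed.of_exists_root _ fun p hp hirr => ?_
  have hdeg : 0 < p.natDegree := hirr.natDegree_pos
  have hl : p ∈ Polynomial.lifts (IsLocalRing.residue V) := by
    rw [Polynomial.lifts_iff_coeff_lifts]
    intro n
    exact IsLocalRing.residue_surjective _
  obtain ⟨P, hP, hPd, hPm⟩ := Polynomial.lifts_and_natDegree_eq_and_monic hl hp
  have hPd' : (P.map (algebraMap V Ω)).degree ≠ 0 := by
    rw [hPm.degree_map, Polynomial.degree_eq_natDegree hPm.ne_zero, hPd]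
    exact_mod_cast hdeg.ne'
  obtain ⟨x, hx⟩ := IsAlgClosed.exists_root _ hPd'
  have hint : IsIntegral V x := ⟨P, hPm, by
    rw [← Polynomial.eval_map]
    exact hx⟩
  obtain ⟨y, hy⟩ := IsIntegrallyClosed.isIntegral_iff.1 hint
  refine ⟨IsLocalRing.residue V y, ?_⟩
  have h1 : P.eval y = 0 := by
    apply IsFractionRing.injective V Ω
    rw [map_zero]
    have h2 : (algebraMap V Ω) (P.eval y) = (P.map (algebraMap V Ω)).eval (algebraMap V Ω y) := by
      rw [Polynomial.eval_map, Polynomial.eval₂_at_apply]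
    rw [h2, hy]
    exact hx
  rw [← hP, Polynomial.eval_map, Polynomial.eval₂_at_apply, h1, map_zero]

/-- Chunk C1 (S). κ algebraically closed of characteristic l, q = l^f with f ≥ 1: T^q - T is separable (its derivative is -1: galois_poly_separable, or FiniteField.X_pow_card_sub_X), so it has q roots (Polynomial.card_rootSet_eq_natDegree or IsAlgClosed.splits). -/
theorem card_fix {κ : Type} [Field κ] [IsAlgClosed κ] {l : ℕ} (hl : l.Prime) (hc : (l : κ) = 0) {q f : ℕ} (hf : f ≠ 0) (hq : q = l ^ f) :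
    Nat.card {x : κ // x ^ q = x} = q := by
  classical
  have hq1 : 1 < q := by
    rw [hq]
    exact Nat.one_lt_pow hf hl.one_lt
  have hcq : (q : κ) = 0 := by
    rw [hq, Nat.cast_pow, hc, zero_pow hf]
  have hsep : (X ^ q - X : κ[X]).Separable := by
    rw [Polynomial.separable_def]
    refine ⟨0, -1, ?_⟩
    rw [Polynomial.derivative_sub, Polynomial.derivative_X_pow, Polynomial.derivative_X, hcq]
    simp
  have hdeg : (X ^ q - X : κ[X]).natDegree = q := FiniteField.X_pow_card_sub_X_natDegree_eq κ hq1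
  have hne : (X ^ q - X : κ[X]) ≠ 0 := FiniteField.X_pow_card_sub_X_ne_zero κ hq1
  have h1 : (X ^ q - X : κ[X]).roots.card = q :=
    (IsAlgClosed.splits (X ^ q - X : κ[X])).natDegree_eq_card_roots.symm.trans hdeg
  have h2 : (X ^ q - X : κ[X]).roots.toFinset.card = q := by
    rw [Multiset.toFinset_card_of_nodup (Polynomial.nodup_roots hsep), h1]
  have h3 : {x : κ // x ^ q = x} ≃ (X ^ q - X : κ[X]).roots.toFinset := by
    refine Equiv.subtypeEquivRight fun x => ?_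
    rw [Multiset.mem_toFinset, Polynomial.mem_roots hne, Polynomial.IsRoot.def, Polynomial.eval_sub,
      Polynomial.eval_pow, Polynomial.eval_X, sub_eq_zero]
  rw [Nat.card_congr h3, Nat.card_eq_fintype_card, Fintype.card_coe, h2]

end H55G
end

-- from Lib.H55G.C2a
section

/-! # H55G, part C: the group of points of the reduced curve -/

open NumberField IsDedekindDomain WeierstrassCurve Polynomial

namespace H55G

open H55P (IQ embF eF LF Per IsHecke Pt ac Inert Dec Nm)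
open H35P (WAB Ker GoodW IntW)
open H55K (CMA Tor TN ak xc yc cj cj_cj mul_cj Nm_cj Nm_mul Nm_nat)
open H55K.MG (VC Crd)

variable {F : Type} [Field F] [NumberField F] [IQ F] {A B : F} {Om : ℂ} {Ω : Type} [Field Ω] [DecidableEq Ω]
  [Algebra F Ω] {j : Ω →+* ℂ} {act : 𝓞 F →+* AddMonoid.End (Pt (WAB A B) Ω)} {V : ValuationSubring Ω}
  {W' : WeierstrassCurve Ω} {u r s t : Ω} {Θ : Pt (WAB A B) Ω ≃+ W'.toAffine.Point} {Kg : AddSubgroup (Pt (WAB A B) Ω)}

omit [NumberField F] [IQ F] in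
/-- Chunk C2 (S). The chosen representative Q of the class of P (Quotient.out) satisfies Q - P in Kg (QuotientAddGroup.eq: -Q + P in Kg), so xp_cong: xp Q - xp P has value < 1; both in V (xp_int); rs_eq. -/
theorem XG_mk (hG : GD V W' u r s t Θ Kg) {P : Pt (WAB A B) Ω} (hP : P ∉ Kg) :
    XG V Θ Kg (P : Pt (WAB A B) Ω ⧸ Kg) = rs V (xp Θ P) ∧ YG V Θ Kg (P : Pt (WAB A B) Ω ⧸ Kg) = rs V (yp Θ P) := by
  set Q : Pt (WAB A B) Ω := (P : Pt (WAB A B) Ω ⧸ Kg).out with hQ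
  have h1 : Q - P ∈ Kg := by
    have h2 : ((Q : Pt (WAB A B) Ω) : Pt (WAB A B) Ω ⧸ Kg) = (P : Pt (WAB A B) Ω ⧸ Kg) := QuotientAddGroup.out_eq' _
    have h3 := QuotientAddGroup.eq.1 h2
    have h4 := neg_mem h3
    rwa [neg_add, neg_neg, ← sub_eq_add_neg] at h4
  obtain ⟨hQk, hx, hy⟩ := xp_cong hG hP h1
  obtain ⟨-, hPx, hPy⟩ := xp_int hG hP
  obtain ⟨-, hQx, hQy⟩ := xp_int hG hQk
  exact ⟨(rs_eq hQx hPx).2 hx, (rs_eq hQy hPy).2 hy⟩

/-- (x, y) satisfies the reduced equation. -/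
def Eqr (V : ValuationSubring Ω) (W' : WeierstrassCurve Ω) (x y : IsLocalRing.ResidueField V) : Prop :=
  y ^ 2 + rs V W'.a₁ * x * y + rs V W'.a₃ * y = x ^ 3 + rs V W'.a₂ * x ^ 2 + rs V W'.a₄ * x + rs V W'.a₆

omit [NumberField F] [IQ F] in
/-- Chunk C2 (S). g = class of P, P not in Kg. Θ P = some x y _ with the equation of W' (Affine.equation_iff), coefficients in V (hG.good), x, y in V (xp_int): apply rs (rs_add, rs_mul, rs_pow). -/
theorem XG_eqr (hG : GD V W' u r s t Θ Kg) {g : Pt (WAB A B) Ω ⧸ Kg} (hg : g ≠ 0) :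
    Eqr V W' (XG V Θ Kg g) (YG V Θ Kg g) := by
  obtain ⟨P, rfl⟩ := QuotientAddGroup.mk_surjective g
  have hP : P ∉ Kg := fun h => hg ((QuotientAddGroup.eq_zero_iff P).2 h)
  obtain ⟨e1, e2⟩ := XG_mk hG hP
  obtain ⟨hP0, hPx, hPy⟩ := xp_int hG hP
  rw [e1, e2]
  have h1 := hG.good.a1
  have h2 := hG.good.a2
  have h3 := hG.good.a3
  have h4 := hG.good.a4
  have h6 := hG.good.a6
  have heq : yp Θ P ^ 2 + W'.a₁ * xp Θ P * yp Θ P + W'.a₃ * yp Θ P =
      xp Θ P ^ 3 + W'.a₂ * xp Θ P ^ 2 + W'.a₄ * xp Θ P + W'.a₆ := by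
    have hT0 : Θ P ≠ 0 := fun h => hP0 (Θ.injective (h.trans (map_zero Θ).symm))
    unfold xp yp
    generalize Θ P = T at hT0
    rcases T with _ | ⟨x, y, hn⟩
    · exact absurd rfl hT0
    · exact (Affine.equation_iff _ _).1 hn.1
  generalize xp Θ P = x at heq hPx
  generalize yp Θ P = y at heq hPy
  have l1 : rs V (y ^ 2 + W'.a₁ * x * y + W'.a₃ * y) = rs V y ^ 2 + rs V W'.a₁ * rs V x * rs V y + rs V W'.a₃ * rs V y := by
    rw [rs_add (add_mem (pow_mem hPy 2) (mul_mem (mul_mem h1 hPx) hPy)) (mul_mem h3 hPy),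
      rs_add (pow_mem hPy 2) (mul_mem (mul_mem h1 hPx) hPy), rs_pow hPy, rs_mul (mul_mem h1 hPx) hPy, rs_mul h1 hPx,
      rs_mul h3 hPy]
  have l2 : rs V (x ^ 3 + W'.a₂ * x ^ 2 + W'.a₄ * x + W'.a₆) = rs V x ^ 3 + rs V W'.a₂ * rs V x ^ 2 + rs V W'.a₄ * rs V x +
      rs V W'.a₆ := by
    rw [rs_add (add_mem (add_mem (pow_mem hPx 3) (mul_mem h2 (pow_mem hPx 2))) (mul_mem h4 hPx)) h6,
      rs_add (add_mem (pow_mem hPx 3) (mul_mem h2 (pow_mem hPx 2))) (mul_mem h4 hPx),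
      rs_add (pow_mem hPx 3) (mul_mem h2 (pow_mem hPx 2)), rs_pow hPx, rs_mul h2 (pow_mem hPx 2), rs_pow hPx, rs_mul h4 hPx]
  unfold Eqr
  rw [← l1, ← l2, heq]

omit [NumberField F] [IQ F] in
/-- Chunk C2 (S/M). g, g' classes of P, P' not in Kg; XG_mk and rs_eq: V(xp P - xp P') < 1, V(yp P - yp P') < 1; MG.cong_ker (M3A.lean): Θ P - Θ P' in Ker, P - P' in Kg. -/
theorem XG_ext (hG : GD V W' u r s t Θ Kg) {g g' : Pt (WAB A B) Ω ⧸ Kg} (hg : g ≠ 0) (hg' : g' ≠ 0)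
    (h1 : XG V Θ Kg g = XG V Θ Kg g') (h2 : YG V Θ Kg g = YG V Θ Kg g') : g = g' := by
  obtain ⟨P, rfl⟩ := QuotientAddGroup.mk_surjective g
  obtain ⟨P', rfl⟩ := QuotientAddGroup.mk_surjective g'
  have hP : P ∉ Kg := fun h => hg ((QuotientAddGroup.eq_zero_iff P).2 h)
  have hP' : P' ∉ Kg := fun h => hg' ((QuotientAddGroup.eq_zero_iff P').2 h)
  obtain ⟨e1, e2⟩ := XG_mk hG hP
  obtain ⟨e1', e2'⟩ := XG_mk hG hP'
  rw [e1, e1'] at h1
  rw [e2, e2'] at h2
  obtain ⟨-, hPx, hPy⟩ := xp_int hG hP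
  obtain ⟨-, hPx', hPy'⟩ := xp_int hG hP'
  have k1 : ¬ Ker V (Θ P) := fun h => hP ((hG.kg P).2 h)
  have k2 : ¬ Ker V (Θ P') := fun h => hP' ((hG.kg P').2 h)
  have k3 := H55K.MG.cong_ker hG.good k1 k2 ((rs_eq hPx hPx').1 h1) ((rs_eq hPy hPy').1 h2)
  rw [← map_sub] at k3
  have k4 := (hG.kg _).2 k3
  refine QuotientAddGroup.eq.2 ?_
  have k5 := neg_mem k4
  rwa [neg_sub, sub_eq_neg_add] at k5

end H55G
end

-- from Lib.H55G.C2b
section

/-! # H55G, part C: the group of points of the reduced curve -/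

open NumberField IsDedekindDomain WeierstrassCurve Polynomial

namespace H55G

open H55P (IQ embF eF LF Per IsHecke Pt ac Inert Dec Nm)
open H35P (WAB Ker GoodW IntW)
open H55K (CMA Tor TN ak xc yc cj cj_cj mul_cj Nm_cj Nm_mul Nm_nat)
open H55K.MG (VC Crd)

variable {F : Type} [Field F] [NumberField F] [IQ F] {A B : F} {Om : ℂ} {Ω : Type} [Field Ω] [DecidableEq Ω]
  [Algebra F Ω] {j : Ω →+* ℂ} {act : 𝓞 F →+* AddMonoid.End (Pt (WAB A B) Ω)} {V : ValuationSubring Ω}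
  {W' : WeierstrassCurve Ω} {u r s t : Ω} {Θ : Pt (WAB A B) Ω ≃+ W'.toAffine.Point} {Kg : AddSubgroup (Pt (WAB A B) Ω)}

omit [NumberField F] [IQ F] in
/-- Chunk C2 (S/M). If g ≠ g' and g ≠ -g' then P - P', P + P' are not in Kg and V(xp P - xp P') = 1 (xp_diff), so the classes differ (rs_eq). Conversely if g = g' clear, if g = -g': P + P' in Kg; -P' has the same x-coordinate as P' (Θ (-P') = -Θ P', Affine.Point.neg_some) and P - (-P') in Kg: XG_mk and xp_cong. -/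
theorem XG_inj (hG : GD V W' u r s t Θ Kg) {g g' : Pt (WAB A B) Ω ⧸ Kg} (hg : g ≠ 0) (hg' : g' ≠ 0) :
    XG V Θ Kg g = XG V Θ Kg g' ↔ g = g' ∨ g = -g' := by
  obtain ⟨P, rfl⟩ := QuotientAddGroup.mk_surjective g
  obtain ⟨P', rfl⟩ := QuotientAddGroup.mk_surjective g'
  have hP : P ∉ Kg := fun h => hg ((QuotientAddGroup.eq_zero_iff P).2 h)
  have hP' : P' ∉ Kg := fun h => hg' ((QuotientAddGroup.eq_zero_iff P').2 h)
  obtain ⟨-, hPx, -⟩ := xp_int hG hP
  obtain ⟨-, hPx', -⟩ := xp_int hG hP'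
  constructor
  · intro h1
    by_contra h2
    push Not at h2
    obtain ⟨h3, h4⟩ := h2
    rw [(XG_mk hG hP).1, (XG_mk hG hP').1, rs_eq hPx hPx'] at h1
    have h5 : P - P' ∉ Kg := by
      intro h6
      apply h3
      refine QuotientAddGroup.eq.2 ?_
      have k5 := neg_mem h6
      rwa [neg_sub, sub_eq_neg_add] at k5
    have h7 : P + P' ∉ Kg := by
      intro h6
      apply h4
      refine QuotientAddGroup.eq.2 ?_
      have k5 := neg_mem h6
      rwa [neg_add] at k5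
    exact h1.ne (xp_diff hG hP hP' h5 h7)
  · rintro (h1 | h1)
    · rw [h1]
    · have h2 : -P' ∉ Kg := fun h => hP' ((neg_mem_iff).1 h)
      have h3 : xp Θ (-P') = xp Θ P' := by
        unfold xp
        rw [map_neg]
        generalize Θ P' = T
        rcases T with _ | ⟨x, y, hn⟩ <;> rfl
      rw [h1]
      change XG V Θ Kg ((-P' : Pt (WAB A B) Ω) : Pt (WAB A B) Ω ⧸ Kg) = _
      rw [(XG_mk hG h2).1, (XG_mk hG hP').1, h3]

end H55G
end

-- from Lib.H55G.C2c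
section

/-! # H55G, part C: the group of points of the reduced curve -/

open NumberField IsDedekindDomain WeierstrassCurve Polynomial

namespace H55G

open H55P (IQ embF eF LF Per IsHecke Pt ac Inert Dec Nm)
open H35P (WAB Ker GoodW IntW)
open H55K (CMA Tor TN ak xc yc cj cj_cj mul_cj Nm_cj Nm_mul Nm_nat)
open H55K.MG (VC Crd)

variable {F : Type} [Field F] [NumberField F] [IQ F] {A B : F} {Om : ℂ} {Ω : Type} [Field Ω] [DecidableEq Ω]
  [Algebra F Ω] {j : Ω →+* ℂ} {act : 𝓞 F →+* AddMonoid.End (Pt (WAB A B) Ω)} {V : ValuationSubring Ω}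
  {W' : WeierstrassCurve Ω} {u r s t : Ω} {Θ : Pt (WAB A B) Ω ≃+ W'.toAffine.Point} {Kg : AddSubgroup (Pt (WAB A B) Ω)}

omit [NumberField F] [IQ F] in
/-- Chunk C2 (M). Lift x to x₁ in V and y to y₁ in V (rs_surj). T^2 + (a₁ x₁ + a₃) T - (x₁^3 + a₂ x₁^2 + a₄ x₁ + a₆) has roots z, z' in Ω (IsAlgClosed: z a root, z' = -(a₁ x₁ + a₃) - z), both in V (monic with coefficients in V), and (y₁ - z)(y₁ - z') = the value at y₁, of value < 1 by Eqr (rs_eq_zero): V(y₁ - z) < 1 or V(y₁ - z') < 1; call it z.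
(x₁, z) is on W', nonsingular since Δ ≠ 0 (hG.good.disc; Affine.equation_iff_nonsingular_of_Δ_ne_zero); P = Θ.symm (some x₁ z _): V(x₁) ≤ 1, so P is not in Kg, xp P = x₁, yp P = z. XG_mk. Compare H13R.r2_lift (Lib/H13R/R2.lean). -/
theorem XG_lift [IsAlgClosed Ω] (hG : GD V W' u r s t Θ Kg) {x y : IsLocalRing.ResidueField V} (h : Eqr V W' x y) :
    ∃ g : Pt (WAB A B) Ω ⧸ Kg, g ≠ 0 ∧ XG V Θ Kg g = x ∧ YG V Θ Kg g = y := by
  obtain ⟨x₁, hx₁, ex⟩ := rs_surj V x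
  obtain ⟨y₁, hy₁, ey⟩ := rs_surj V y
  have h1 := hG.good.a1
  have h2 := hG.good.a2
  have h3 := hG.good.a3
  have h4 := hG.good.a4
  have h6 := hG.good.a6
  set β : Ω := W'.a₁ * x₁ + W'.a₃ with hβ
  set γ : Ω := -(x₁ ^ 3 + W'.a₂ * x₁ ^ 2 + W'.a₄ * x₁ + W'.a₆) with hγ
  have hβV : β ∈ V := add_mem (mul_mem h1 hx₁) h3
  have hRV : x₁ ^ 3 + W'.a₂ * x₁ ^ 2 + W'.a₄ * x₁ + W'.a₆ ∈ V :=
    add_mem (add_mem (add_mem (pow_mem hx₁ 3) (mul_mem h2 (pow_mem hx₁ 2))) (mul_mem h4 hx₁)) h6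
  have hLV : y₁ ^ 2 + W'.a₁ * x₁ * y₁ + W'.a₃ * y₁ ∈ V :=
    add_mem (add_mem (pow_mem hy₁ 2) (mul_mem (mul_mem h1 hx₁) hy₁)) (mul_mem h3 hy₁)
  obtain ⟨z, hz⟩ : ∃ z : Ω, z ^ 2 + β * z + γ = 0 := by
    have hd : (Polynomial.X ^ 2 + Polynomial.C β * Polynomial.X + Polynomial.C γ : Polynomial Ω).degree = 2 := by
      compute_degree!
    obtain ⟨z, hz⟩ := IsAlgClosed.exists_root (Polynomial.X ^ 2 + Polynomial.C β * Polynomial.X +
      Polynomial.C γ : Polynomial Ω) (by rw [hd]; norm_num)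
    refine ⟨z, ?_⟩
    rw [Polynomial.IsRoot.def] at hz
    simpa using hz
  have hval : V.valuation ((y₁ ^ 2 + W'.a₁ * x₁ * y₁ + W'.a₃ * y₁) - (x₁ ^ 3 + W'.a₂ * x₁ ^ 2 + W'.a₄ * x₁ + W'.a₆)) < 1 := by
    rw [← rs_eq hLV hRV]
    have l1 : rs V (y₁ ^ 2 + W'.a₁ * x₁ * y₁ + W'.a₃ * y₁) = rs V y₁ ^ 2 + rs V W'.a₁ * rs V x₁ * rs V y₁ + rs V W'.a₃ * rs V y₁ := by
      rw [rs_add (add_mem (pow_mem hy₁ 2) (mul_mem (mul_mem h1 hx₁) hy₁)) (mul_mem h3 hy₁),
        rs_add (pow_mem hy₁ 2) (mul_mem (mul_mem h1 hx₁) hy₁), rs_pow hy₁, rs_mul (mul_mem h1 hx₁) hy₁, rs_mul h1 hx₁,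
        rs_mul h3 hy₁]
    have l2 : rs V (x₁ ^ 3 + W'.a₂ * x₁ ^ 2 + W'.a₄ * x₁ + W'.a₆) = rs V x₁ ^ 3 + rs V W'.a₂ * rs V x₁ ^ 2 + rs V W'.a₄ * rs V x₁ +
        rs V W'.a₆ := by
      rw [rs_add (add_mem (add_mem (pow_mem hx₁ 3) (mul_mem h2 (pow_mem hx₁ 2))) (mul_mem h4 hx₁)) h6,
        rs_add (add_mem (pow_mem hx₁ 3) (mul_mem h2 (pow_mem hx₁ 2))) (mul_mem h4 hx₁),
        rs_add (pow_mem hx₁ 3) (mul_mem h2 (pow_mem hx₁ 2)), rs_pow hx₁, rs_mul h2 (pow_mem hx₁ 2), rs_pow hx₁, rs_mul h4 hx₁]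
    rw [l1, l2, ex, ey]
    exact h
  have hid : (y₁ - z) * (y₁ - (-β - z)) = (y₁ ^ 2 + W'.a₁ * x₁ * y₁ + W'.a₃ * y₁) - (x₁ ^ 3 + W'.a₂ * x₁ ^ 2 + W'.a₄ * x₁ + W'.a₆) := by
    rw [hβ, hγ] at hz
    rw [hβ]
    linear_combination -hz
  have hprod : V.valuation (y₁ - z) * V.valuation (y₁ - (-β - z)) < 1 := by
    rw [← map_mul, hid]
    exact hval
  have hΔ : W'.Δ ≠ 0 := by
    intro h
    have h4 := hG.good.disc
    rw [h, map_zero] at h4
    exact zero_ne_one h4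
  have hpt : ∀ y' : Ω, y' ^ 2 + β * y' + γ = 0 → V.valuation (y₁ - y') < 1 →
      ∃ g : Pt (WAB A B) Ω ⧸ Kg, g ≠ 0 ∧ XG V Θ Kg g = x ∧ YG V Θ Kg g = y := by
    intro y' hy' hv'
    have heq : W'.toAffine.Equation x₁ y' := by
      rw [Affine.equation_iff]
      rw [hβ, hγ] at hy'
      linear_combination hy'
    have hns := (Affine.equation_iff_nonsingular_of_Δ_ne_zero (W := W'.toAffine) hΔ).1 heq
    obtain ⟨P, hPT⟩ := Θ.surjective (.some _ _ hns)
    have hP : P ∉ Kg := by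
      intro h5
      have h7 := (hG.kg P).1 h5
      rw [hPT] at h7
      exact absurd ((V.valuation_le_one_iff _).2 hx₁) (not_le.2 h7)
    have hxP : xp Θ P = x₁ := by
      unfold xp
      rw [hPT]
      rfl
    have hyP : yp Θ P = y' := by
      unfold yp
      rw [hPT]
      rfl
    obtain ⟨e1, e2⟩ := XG_mk hG hP
    obtain ⟨-, -, hyV⟩ := xp_int hG hP
    rw [hyP] at hyV
    refine ⟨(P : Pt (WAB A B) Ω ⧸ Kg), fun h5 => hP ((QuotientAddGroup.eq_zero_iff P).1 h5), ?_, ?_⟩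
    · rw [e1, hxP, ex]
    · rw [e2, hyP, ← ey]
      refine (rs_eq hyV hy₁).2 ?_
      rw [Valuation.map_sub_swap]
      exact hv'
  by_cases h8 : V.valuation (y₁ - z) < 1
  · exact hpt z hz h8
  · have h7 : V.valuation (y₁ - (-β - z)) < 1 := by
      by_contra h9
      push Not at h8 h9
      exact absurd hprod (not_lt.2 (one_le_mul h8 h9))
    exact hpt (-β - z) (by linear_combination hz) h7

omit [NumberField F] [IQ F] in
/-- Chunk C2 (S). The residue field is algebraically closed (rs_algClosed), so there is y with Eqr x y (a monic quadratic polynomial has a root); XG_lift. -/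
theorem XG_surj [IsAlgClosed Ω] (hG : GD V W' u r s t Θ Kg) (x : IsLocalRing.ResidueField V) :
    ∃ g : Pt (WAB A B) Ω ⧸ Kg, g ≠ 0 ∧ XG V Θ Kg g = x := by
  have := rs_algClosed V
  obtain ⟨y, hy⟩ : ∃ y : IsLocalRing.ResidueField V, y ^ 2 + (rs V W'.a₁ * x + rs V W'.a₃) * y +
      -(x ^ 3 + rs V W'.a₂ * x ^ 2 + rs V W'.a₄ * x + rs V W'.a₆) = 0 := by
    generalize rs V W'.a₁ * x + rs V W'.a₃ = β
    generalize -(x ^ 3 + rs V W'.a₂ * x ^ 2 + rs V W'.a₄ * x + rs V W'.a₆) = γ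
    have hd : (Polynomial.X ^ 2 + Polynomial.C β * Polynomial.X + Polynomial.C γ : Polynomial (IsLocalRing.ResidueField V)).degree = 2 := by
      compute_degree!
    obtain ⟨z, hz⟩ := IsAlgClosed.exists_root (Polynomial.X ^ 2 + Polynomial.C β * Polynomial.X +
      Polynomial.C γ : Polynomial (IsLocalRing.ResidueField V)) (by rw [hd]; norm_num)
    refine ⟨z, ?_⟩
    rw [Polynomial.IsRoot.def] at hz
    simpa using hz
  have hE : Eqr V W' x y := by
    unfold Eqr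
    linear_combination hy
  obtain ⟨g, hg, h1, -⟩ := XG_lift hG hE
  exact ⟨g, hg, h1⟩

end H55G
end

-- from Lib.H55G.B4c
section

/-! # H55G, part B: the prime below V -/

open NumberField IsDedekindDomain WeierstrassCurve Polynomial

namespace H55G

open H55P (IQ embF eF LF Per IsHecke Pt ac Inert Dec Nm)
open H35P (WAB Ker GoodW IntW)
open H55K (CMA Tor TN ak xc yc cj cj_cj mul_cj Nm_cj Nm_mul Nm_nat)
open H55K.MG (VC Crd)

variable {F : Type} [Field F] [NumberField F] [IQ F] {A B : F} {Om : ℂ} {Ω : Type} [Field Ω] [DecidableEq Ω]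
  [Algebra F Ω] {j : Ω →+* ℂ} {act : 𝓞 F →+* AddMonoid.End (Pt (WAB A B) Ω)} {V : ValuationSubring Ω}
  {W' : WeierstrassCurve Ω} {u r s t : Ω} {Θ : Pt (WAB A B) Ω ≃+ W'.toAffine.Point} {Kg : AddSubgroup (Pt (WAB A B) Ω)}

omit [DecidableEq Ω] in
theorem b4c_mul {x y : V.ValueGroup} (hx : x ≤ 1) (hy : y < 1) : x * y < 1 := by
  rw [mul_comm]
  exact mul_lt_one_of_lt_of_le hy hx

omit [DecidableEq Ω] in
/-- Congruent factors of value at most 1 have congruent products. -/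
theorem b4c_prod {ι : Type} (S : Finset ι) (f g : ι → Ω) (hf : ∀ R ∈ S, V.valuation (f R) ≤ 1)
    (hg : ∀ R ∈ S, V.valuation (g R) ≤ 1) (hfg : ∀ R ∈ S, V.valuation (f R - g R) < 1) :
    V.valuation (∏ R ∈ S, f R - ∏ R ∈ S, g R) < 1 := by
  classical
  induction S using Finset.induction_on with
  | empty =>
    rw [Finset.prod_empty, Finset.prod_empty, sub_self, map_zero]
    exact zero_lt_one
  | insert a S ha ih =>
    rw [Finset.prod_insert ha, Finset.prod_insert ha]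
    have h1 := ih (fun R hR => hf R (Finset.mem_insert_of_mem hR)) (fun R hR => hg R (Finset.mem_insert_of_mem hR))
      (fun R hR => hfg R (Finset.mem_insert_of_mem hR))
    have h2 : f a * ∏ R ∈ S, f R - g a * ∏ R ∈ S, g R =
        f a * (∏ R ∈ S, f R - ∏ R ∈ S, g R) + (f a - g a) * ∏ R ∈ S, g R := by ring
    rw [h2]
    refine V.valuation.map_add_lt ?_ ?_
    · rw [map_mul]
      exact b4c_mul (hf a (Finset.mem_insert_self a S)) h1
    · rw [map_mul]
      refine mul_lt_one_of_lt_of_le (hfg a (Finset.mem_insert_self a S)) ?_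
      rw [map_prod]
      exact Finset.prod_le_one' fun R hR => hg R (Finset.mem_insert_of_mem hR)

/-- Chunk B4 (M). c = b^2 ∏ xp R, V(c) = 1 (cb_one). act b X ≠ 0: otherwise X in Kg (torb_kg). e2x: b^2 (xp (bX) - xp (bY)) ∏ (xp R - xp Y) = (xp X - xp Y) ∏ (xp (X + R) - xp Y). ∏ (xp R - xp Y) = (∏ xp R)(1 + m) with V(m) < 1 (each xp R - xp Y = xp R (1 - xp Y / xp R), V(xp Y/xp R) < 1; products of elements 1 + m_i); the right side is (xp X - xp Y)^(Nm b) + m' with V(m') < 1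
(xp (X + R) - xp X has value < 1: xp_cong; all in V; card S + 1 = Nm b since S is the set of exists_TN, being determined by TN). So c (xp (bX) - xp (bY)) (1 + m) = (xp X - xp Y)^(Nm b) + m'; the right side has value ≤ 1, 1 + m has value 1, so V(c (xp (bX) - xp (bY))) ≤ 1 and c (xp (bX) - xp (bY)) - (xp X - xp Y)^(Nm b) = m' - m c (xp (bX) - xp (bY)) has value < 1. -/
theorem cb_cong (h : CMA F A B Om j act) (hG : GD V W' u r s t Θ Kg) {b : 𝓞 F} (hb : Prime b)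
    (hV : V.valuation (ak Ω b) < 1) {S : Finset (Pt (WAB A B) Ω)} (hS : TN act b S) {X Y : Pt (WAB A B) Ω} (hX : X ∉ Kg)
    (hY : Y ∉ Kg) :
    V.valuation (ak Ω b ^ 2 * (∏ R ∈ S, xp Θ R) * (xp Θ (act b X) - xp Θ (act b Y)) - (xp Θ X - xp Θ Y) ^ Nm b) < 1 := by
  have hb0 : b ≠ 0 := hb.ne_zero
  have haX : act b X ≠ 0 := fun h0 => hX (torb_kg h hG hb hV h0)
  have haY : act b Y ≠ 0 := fun h0 => hY (torb_kg h hG hb hV h0)
  have e := e2x h hG hb0 hS haX haY
  have hc := cb_one h hG hb hV hS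
  have hXV : V.valuation (xp Θ X) ≤ 1 := (V.valuation_le_one_iff _).2 (xp_int hG hX).2.1
  have hYV : V.valuation (xp Θ Y) ≤ 1 := (V.valuation_le_one_iff _).2 (xp_int hG hY).2.1
  have hXY : V.valuation (xp Θ X - xp Θ Y) ≤ 1 := V.valuation.map_sub_le hXV hYV
  have hSK : ∀ R ∈ S, R ∈ Kg := fun R hR => torb_kg h hG hb hV ((hS R).1 hR).1
  have hS0 : ∀ R ∈ S, R ≠ 0 := fun R hR => ((hS R).1 hR).2
  -- the cardinality
  have hcard : S.card + 1 = Nm b := by
    obtain ⟨S', hS', hc'⟩ := H55K.exists_TN h hb0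
    have hSS : S = S' := by
      ext R
      rw [hS R, hS' R]
    have hN : Nm b ≠ 0 := by
      intro h0
      have h1 : Ideal.absNorm (Ideal.span {b} : Ideal (𝓞 F)) = 0 := h0
      rw [Ideal.absNorm_eq_zero_iff, Ideal.span_singleton_eq_bot] at h1
      exact hb0 h1
    rw [hSS, hc']
    omega
  -- the right side
  have hr : V.valuation ((xp Θ X - xp Θ Y) * ∏ R ∈ S, (xp Θ (X + R) - xp Θ Y) - (xp Θ X - xp Θ Y) ^ Nm b) < 1 := by
    have h1 : (xp Θ X - xp Θ Y) * ∏ R ∈ S, (xp Θ (X + R) - xp Θ Y) - (xp Θ X - xp Θ Y) ^ Nm b =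
        (xp Θ X - xp Θ Y) * (∏ R ∈ S, (xp Θ (X + R) - xp Θ Y) - ∏ R ∈ S, (xp Θ X - xp Θ Y)) := by
      rw [← hcard, Finset.prod_const, pow_succ]
      ring
    rw [h1, map_mul]
    refine b4c_mul hXY (b4c_prod S _ _ ?_ (fun R hR => hXY) ?_)
    · intro R hR
      have h2 : X + R ∉ Kg := fun h3 => hX (by
        have h4 := Kg.sub_mem h3 (hSK R hR)
        rwa [add_sub_cancel_right] at h4)
      exact V.valuation.map_sub_le ((V.valuation_le_one_iff _).2 (xp_int hG h2).2.1) hYV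
    · intro R hR
      have h2 : xp Θ (X + R) - xp Θ Y - (xp Θ X - xp Θ Y) = xp Θ (X + R) - xp Θ X := by ring
      rw [h2]
      refine (xp_cong hG hX ?_).2.1
      rw [add_sub_cancel_left]
      exact hSK R hR
  have hr1 : V.valuation ((xp Θ X - xp Θ Y) * ∏ R ∈ S, (xp Θ (X + R) - xp Θ Y)) ≤ 1 := by
    have h1 : (xp Θ X - xp Θ Y) * ∏ R ∈ S, (xp Θ (X + R) - xp Θ Y) =
        ((xp Θ X - xp Θ Y) * ∏ R ∈ S, (xp Θ (X + R) - xp Θ Y) - (xp Θ X - xp Θ Y) ^ Nm b) +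
          (xp Θ X - xp Θ Y) ^ Nm b := by ring
    rw [h1]
    refine V.valuation.map_add_le hr.le ?_
    rw [map_pow]
    exact pow_le_one' hXY _
  -- the left side
  have hm : V.valuation (∏ R ∈ S, (1 - xp Θ Y / xp Θ R) - 1) < 1 := by
    have h0 : ∀ R ∈ S, V.valuation (xp Θ Y / xp Θ R) < 1 := by
      intro R hR
      have h1 := (xp_far hG (hSK R hR) (hS0 R hR) hY).1
      rw [map_div₀]
      have h2 : 0 < V.valuation (xp Θ R) := lt_trans zero_lt_one h1
      rw [div_lt_one₀ h2]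
      exact lt_of_le_of_lt hYV h1
    have h1 := b4c_prod (V := V) S (fun R => 1 - xp Θ Y / xp Θ R) (fun _ => (1 : Ω)) (fun R hR =>
      V.valuation.map_sub_le (map_one V.valuation).le (h0 R hR).le) (fun R hR => (map_one V.valuation).le) (fun R hR => by
        rw [sub_sub_cancel_left, Valuation.map_neg]
        exact h0 R hR)
    rw [Finset.prod_const_one] at h1
    exact h1
  have hl : ∏ R ∈ S, (xp Θ R - xp Θ Y) = (∏ R ∈ S, xp Θ R) * ∏ R ∈ S, (1 - xp Θ Y / xp Θ R) := by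
    rw [← Finset.prod_mul_distrib]
    refine Finset.prod_congr rfl fun R hR => ?_
    have h1 := (xp_far hG (hSK R hR) (hS0 R hR) hY).1
    have h2 : xp Θ R ≠ 0 := by
      intro h3
      rw [h3, map_zero] at h1
      exact absurd h1 (not_lt.2 zero_le_one)
    field_simp
  rw [hl] at e
  set P1 := ∏ R ∈ S, xp Θ R with hP1
  set M := ∏ R ∈ S, (1 - xp Θ Y / xp Θ R) with hM
  set D := xp Θ (act b X) - xp Θ (act b Y) with hD
  set RR := (xp Θ X - xp Θ Y) * ∏ R ∈ S, (xp Θ (X + R) - xp Θ Y) with hRR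
  have hM1 : V.valuation M = 1 := by
    have h1 : V.valuation (M - 1) < V.valuation (1 : Ω) := by rw [map_one]; exact hm
    have h2 : M = (M - 1) + 1 := by ring
    rw [h2, Valuation.map_add_eq_of_lt_right _ h1, map_one]
  have e' : ak Ω b ^ 2 * P1 * D * M = RR := by rw [← e]; ring
  have hcD : V.valuation (ak Ω b ^ 2 * P1 * D) ≤ 1 := by
    have h1 := congrArg V.valuation e'
    rw [map_mul _ (ak Ω b ^ 2 * P1 * D), hM1, mul_one] at h1
    rw [h1]
    exact hr1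
  have h1 : ak Ω b ^ 2 * P1 * D - (xp Θ X - xp Θ Y) ^ Nm b =
      (RR - (xp Θ X - xp Θ Y) ^ Nm b) - (ak Ω b ^ 2 * P1 * D) * (M - 1) := by
    rw [← e']; ring
  rw [h1]
  refine V.valuation.map_sub_lt hr ?_
  rw [map_mul]
  exact b4c_mul hcD hm

end H55G
end

-- from Lib.H55G.B4d
section

/-! # H55G, part B: the prime below V -/

open NumberField IsDedekindDomain WeierstrassCurve Polynomial

namespace H55G

open H55P (IQ embF eF LF Per IsHecke Pt ac Inert Dec Nm)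
open H35P (WAB Ker GoodW IntW)
open H55K (CMA Tor TN ak xc yc cj cj_cj mul_cj Nm_cj Nm_mul Nm_nat)
open H55K.MG (VC Crd)

variable {F : Type} [Field F] [NumberField F] [IQ F] {A B : F} {Om : ℂ} {Ω : Type} [Field Ω] [DecidableEq Ω]
  [Algebra F Ω] {j : Ω →+* ℂ} {act : 𝓞 F →+* AddMonoid.End (Pt (WAB A B) Ω)} {V : ValuationSubring Ω}
  {W' : WeierstrassCurve Ω} {u r s t : Ω} {Θ : Pt (WAB A B) Ω ≃+ W'.toAffine.Point} {Kg : AddSubgroup (Pt (WAB A B) Ω)}

/-- Chunk B4 (S). Y from exists_gen with act b Y not in Kg; cb_cong and cb_one: V(xp (bX) - xp (bY)) ≤ 1, so V(xp (bX)) ≤ 1 and bX is not in Kg (bX ≠ 0 by torb_kg; xp_far). -/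
theorem b_kg (h : CMA F A B Om j act) (hG : GD V W' u r s t Θ Kg) {b : 𝓞 F} (hb : Prime b)
    (hV : V.valuation (ak Ω b) < 1) {X : Pt (WAB A B) Ω} (hX : act b X ∈ Kg) : X ∈ Kg := by
  by_contra hXK
  have hb0 : b ≠ 0 := hb.ne_zero
  obtain ⟨S, hS, -⟩ := H55K.exists_TN h hb0
  obtain ⟨X', Y, g⟩ := exists_gen h hG hb0 S
  have hbX0 : act b X ≠ 0 := fun h0 => hXK (torb_kg h hG hb hV h0)
  have hXV : V.valuation (xp Θ X) ≤ 1 := (V.valuation_le_one_iff _).2 (xp_int hG hXK).2.1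
  have hYV : V.valuation (xp Θ Y) ≤ 1 := (V.valuation_le_one_iff _).2 (xp_int hG g.y).2.1
  have hXY : V.valuation (xp Θ X - xp Θ Y) ≤ 1 := V.valuation.map_sub_le hXV hYV
  have h1 := cb_cong h hG hb hV hS hXK g.y
  have h2 := cb_one h hG hb hV hS
  have h3 : V.valuation (ak Ω b ^ 2 * (∏ R ∈ S, xp Θ R) * (xp Θ (act b X) - xp Θ (act b Y))) ≤ 1 := by
    have h4 : ak Ω b ^ 2 * (∏ R ∈ S, xp Θ R) * (xp Θ (act b X) - xp Θ (act b Y)) =
        (ak Ω b ^ 2 * (∏ R ∈ S, xp Θ R) * (xp Θ (act b X) - xp Θ (act b Y)) - (xp Θ X - xp Θ Y) ^ Nm b) +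
          (xp Θ X - xp Θ Y) ^ Nm b := by ring
    rw [h4]
    refine V.valuation.map_add_le h1.le ?_
    rw [map_pow]
    exact pow_le_one' hXY _
  rw [map_mul, h2, one_mul, (xp_far hG hX hbX0 g.ay).2] at h3
  exact absurd (xp_far hG hX hbX0 g.ay).1 (not_lt.2 h3)

/-- Chunk B4 (S/M). If X in Kg: T = 0. Otherwise, if act c X = 0: T = X. Otherwise S = the nonzero elements of the kernel of act c, Y generic for c, S. e2x with X, Y: the left side has value V(xp (cX) - xp (cY)) ∏ V(xp R - xp Y), where V(xp (cX) - xp (cY)) > 1 (xp_far) and V(xp R - xp Y) = 1 (R not in Kg by tor_kg; rm, rp; xp_diff). V(xp X - xp Y) ≤ 1. So some factor xp (X + R) - xp Y has value > 1 (otherwise the product is ≤ 1), hence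
V(xp (X + R)) > 1, X + R in Kg: T = -R. -/
theorem lift_tor (h : CMA F A B Om j act) (hG : GD V W' u r s t Θ Kg) {c : 𝓞 F} (hc : V.valuation (ak Ω c) = 1)
    {X : Pt (WAB A B) Ω} (hX : act c X ∈ Kg) : ∃ T : Pt (WAB A B) Ω, act c T = 0 ∧ X - T ∈ Kg := by
  by_cases hXK : X ∈ Kg
  · exact ⟨0, map_zero _, by rw [sub_zero]; exact hXK⟩
  by_cases hcX0 : act c X = 0
  · exact ⟨X, hcX0, by rw [sub_self]; exact Kg.zero_mem⟩
  have hc0 : c ≠ 0 := by
    rintro rfl
    have h0 : ak Ω (0 : 𝓞 F) = 0 := by simp only [ak, map_zero]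
    rw [h0, map_zero] at hc
    exact zero_ne_one hc
  obtain ⟨S, hS, -⟩ := H55K.exists_TN h hc0
  obtain ⟨X', Y, g⟩ := exists_gen h hG hc0 S
  have hcY0 : act c Y ≠ 0 := fun h0 => g.ay (h0 ▸ Kg.zero_mem)
  have hXV : V.valuation (xp Θ X) ≤ 1 := (V.valuation_le_one_iff _).2 (xp_int hG hXK).2.1
  have hYV : V.valuation (xp Θ Y) ≤ 1 := (V.valuation_le_one_iff _).2 (xp_int hG g.y).2.1
  have hXY : V.valuation (xp Θ X - xp Θ Y) ≤ 1 := V.valuation.map_sub_le hXV hYV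
  have e := congrArg V.valuation (e2x h hG hc0 hS hcX0 hcY0)
  have hSK : ∀ R ∈ S, R ∉ Kg := fun R hR hK => ((hS R).1 hR).2 (tor_kg h hG hc ((hS R).1 hR).1 hK)
  rw [map_mul, map_mul, map_pow, hc, one_pow, one_mul, (xp_far hG hX hcX0 g.ay).2,
    b4a_prod S _ fun R hR => xp_diff hG (hSK R hR) g.y (g.rm R hR) (g.rp R hR), mul_one, map_mul] at e
  have h1 := (xp_far hG hX hcX0 g.ay).1
  by_contra hcon
  have h2 : ∀ R ∈ S, X + R ∉ Kg := by
    intro R hR hK
    refine hcon ⟨-R, ?_, ?_⟩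
    · rw [map_neg, ((hS R).1 hR).1, neg_zero]
    · rw [sub_neg_eq_add]
      exact hK
  have h3 : V.valuation (∏ R ∈ S, (xp Θ (X + R) - xp Θ Y)) ≤ 1 := by
    rw [map_prod]
    refine Finset.prod_le_one' fun R hR => ?_
    exact V.valuation.map_sub_le ((V.valuation_le_one_iff _).2 (xp_int hG (h2 R hR)).2.1) hYV
  rw [e] at h1
  exact absurd h1 (not_lt.2 (mul_le_one' hXY h3))

end H55G
end

-- from Lib.H55G.C3a
section

/-! # H55G, part C: the multiplications on the reduced curve are rational functions -/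

open NumberField IsDedekindDomain WeierstrassCurve Polynomial

namespace H55G

open H55P (IQ embF eF LF Per IsHecke Pt ac Inert Dec Nm)
open H35P (WAB Ker GoodW IntW)
open H55K (CMA Tor TN ak xc yc cj cj_cj mul_cj Nm_cj Nm_mul Nm_nat)
open H55K.MG (VC Crd)

variable {F : Type} [Field F] [NumberField F] [IQ F] {A B : F} {Om : ℂ} {Ω : Type} [Field Ω] [DecidableEq Ω]
  [Algebra F Ω] {j : Ω →+* ℂ} {act : 𝓞 F →+* AddMonoid.End (Pt (WAB A B) Ω)} {V : ValuationSubring Ω}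
  {W' : WeierstrassCurve Ω} {u r s t : Ω} {Θ : Pt (WAB A B) Ω ≃+ W'.toAffine.Point} {Kg : AddSubgroup (Pt (WAB A B) Ω)}

/-- The x-coordinates of the multiples by a are given by a rational function of degree at most n. -/
def RFn (κ : Type) [Field κ] {G : Type} [AddCommGroup G] (ρ : 𝓞 F →+* AddMonoid.End G) (X : G → κ) (a : 𝓞 F) (n : ℕ) : Prop :=
  ∃ N D : κ[X], (N ≠ 0 ∨ D ≠ 0) ∧ N.natDegree ≤ n ∧ D.natDegree ≤ n ∧
    ∀ P : G, P ≠ 0 → ρ a P ≠ 0 → D.eval (X P) * X (ρ a P) = N.eval (X P)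

/-- The linear factors. -/
theorem c3a_lin {κ : Type} [Field κ] (r : κ) : (C r - X : κ[X]) ≠ 0 ∧ (C r - X : κ[X]).natDegree ≤ 1 := by
  refine ⟨fun h => ?_, ?_⟩
  · have h1 := congrArg Polynomial.natDegree (sub_eq_zero.1 h)
    rw [Polynomial.natDegree_C, Polynomial.natDegree_X] at h1
    exact zero_ne_one h1
  · refine (Polynomial.natDegree_sub_le _ _).trans (max_le ?_ Polynomial.natDegree_X_le)
    rw [Polynomial.natDegree_C]
    exact Nat.zero_le _

theorem c3a_prod {κ ι : Type} [Field κ] (S : Finset ι) (r : ι → κ) : (∏ R ∈ S, (C (r R) - X : κ[X])) ≠ 0 ∧ (∏ R ∈ S, (C (r R) - X : κ[X])).natDegree ≤ S.card ∧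
    ∀ x : κ, (∏ R ∈ S, (C (r R) - X : κ[X])).eval x = ∏ R ∈ S, (r R - x) := by
  refine ⟨Finset.prod_ne_zero_iff.2 fun R _ => (c3a_lin (r R)).1, ?_, fun x => ?_⟩
  · refine (Polynomial.natDegree_prod_le _ _).trans ?_
    calc ∑ R ∈ S, (C (r R) - X : κ[X]).natDegree ≤ ∑ _R ∈ S, 1 := Finset.sum_le_sum fun R _ => (c3a_lin (r R)).2
      _ = S.card := by rw [Finset.sum_const, smul_eq_mul, mul_one]
  · rw [Polynomial.eval_prod]
    refine Finset.prod_congr rfl fun R _ => ?_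
    rw [Polynomial.eval_sub, Polynomial.eval_C, Polynomial.eval_X]

/-- Chunk C3A (M). S = the nonzero elements of the kernel of act c (exists_TN, card S = Nm c - 1), none is in Kg (tor_kg). Fix Y with Y, act c Y, R - Y, R + Y not in Kg for R in S (exists_gen for c, S). Write bars for rs V. e2x for a pair Y', X' with X' = Y and the roles exchanged: e2x h hG hc hS (X := Y) (Y := P) for P not in Kg with act c P not in Kg (so act c P ≠ 0):
c^2 (xp (cY) - xp (cP)) ∏ (xp R - xp P) = (xp Y - xp P) ∏ (xp (Y + R) - xp P). All terms are in V (Y + R not in Kg: rp). Apply rs: with x = XG P and X(ρ c P) = rs (xp (cP)): c̄^2 (x̄(cY) - X(ρ c P)) ∏ (x̄_R - x) = (x̄_Y - x) ∏ (x̄_{Y+R} - x). So D = c̄^2 ∏ (C x̄_R - T), N = c̄^2 x̄(cY) ∏ (C x̄_R - T) - (C x̄_Y - T) ∏ (C x̄_{Y+R} - T), of degree ≤ card S + 1 = Nm c;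
D ≠ 0 since c̄ ≠ 0 (V(c) = 1) and the factors are nonzero polynomials. Points of the quotient: classes of P (QuotientAddGroup.mk surjective), rhoG_mk, XG_mk. -/
theorem rf_unit (h : CMA F A B Om j act) (hG : GD V W' u r s t Θ Kg) (hst : ∀ a : 𝓞 F, ∀ P ∈ Kg, act a P ∈ Kg)
    {c : 𝓞 F} (hc : V.valuation (ak Ω c) = 1) :
    RFn (IsLocalRing.ResidueField V) (rhoG Kg act hst) (XG V Θ Kg) c (Nm c) := by
  classical
  have hak0 : ak Ω (0 : 𝓞 F) = 0 := by
    unfold ak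
    simp
  have hc0 : c ≠ 0 := by
    rintro rfl
    rw [hak0, map_zero] at hc
    exact zero_ne_one hc
  have hcV : ak Ω c ∈ V := (V.valuation_le_one_iff _).1 hc.le
  obtain ⟨S, hS, hcard⟩ := H55K.exists_TN h hc0
  have hNm : Nm c ≠ 0 := by
    intro h0
    have h1 : Ideal.absNorm (Ideal.span {c} : Ideal (𝓞 F)) = 0 := h0
    rw [Ideal.absNorm_eq_zero_iff, Ideal.span_singleton_eq_bot] at h1
    exact hc0 h1
  have hSK : ∀ R ∈ S, R ∉ Kg := fun R hR hK => ((hS R).1 hR).2 (tor_kg h hG hc ((hS R).1 hR).1 hK)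
  obtain ⟨_X0, Y, hgen⟩ := exists_gen h hG hc0 S
  have hYR : ∀ R ∈ S, Y + R ∉ Kg := fun R hR => by
    rw [add_comm]
    exact hgen.rp R hR
  have h0K : ∀ {P : Pt (WAB A B) Ω}, P ∉ Kg → P ≠ 0 := fun hP h0 => hP (by rw [h0]; exact Kg.zero_mem)
  have hV : ∀ {P : Pt (WAB A B) Ω}, P ∉ Kg → xp Θ P ∈ V := fun hP => (xp_int hG hP).2.1
  obtain ⟨hp1, hp2, hp3⟩ := c3a_prod S fun R => rs V (xp Θ R)
  obtain ⟨-, hq2, hq3⟩ := c3a_prod S fun R => rs V (xp Θ (Y + R))
  have hcb : rs V (ak Ω c) ≠ 0 := by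
    rw [Ne, rs_eq_zero hcV, hc]
    exact lt_irrefl _
  refine ⟨C (rs V (ak Ω c) ^ 2 * rs V (xp Θ (act c Y))) * (∏ R ∈ S, (C (rs V (xp Θ R)) - X)) - (C (rs V (xp Θ Y)) - X) * (∏ R ∈ S, (C (rs V (xp Θ (Y + R))) - X)),
    C (rs V (ak Ω c) ^ 2) * (∏ R ∈ S, (C (rs V (xp Θ R)) - X)), Or.inr ?_, ?_, ?_, ?_⟩
  · exact mul_ne_zero (Polynomial.C_ne_zero.2 (pow_ne_zero 2 hcb)) hp1
  · refine (Polynomial.natDegree_sub_le _ _).trans (max_le ?_ ?_)
    · refine (Polynomial.natDegree_C_mul_le _ _).trans (hp2.trans ?_)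
      omega
    · refine Polynomial.natDegree_mul_le.trans ((add_le_add (c3a_lin _).2 hq2).trans ?_)
      omega
  · refine (Polynomial.natDegree_C_mul_le _ _).trans (hp2.trans ?_)
    omega
  · intro g hg hcg
    obtain ⟨P, rfl⟩ := QuotientAddGroup.mk_surjective g
    have hP : P ∉ Kg := fun hK => hg ((QuotientAddGroup.eq_zero_iff P).2 hK)
    have hrho : rhoG Kg act hst c (QuotientAddGroup.mk P) = QuotientAddGroup.mk (act c P) := rhoG_mk Kg act hst c P
    rw [hrho] at hcg ⊢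
    have hcP : act c P ∉ Kg := fun hK => hcg ((QuotientAddGroup.eq_zero_iff (act c P)).2 hK)
    have hX1 := (XG_mk hG hP).1
    have hX2 := (XG_mk hG hcP).1
    rw [hX1, hX2]
    have he := e2x h hG hc0 hS (X := Y) (Y := P) (h0K hgen.ay) (h0K hcP)
    have hd : ∀ {Q : Pt (WAB A B) Ω}, Q ∉ Kg → xp Θ Q - xp Θ P ∈ V := fun hQ => sub_mem (hV hQ) (hV hP)
    have hpm : ∀ f : Pt (WAB A B) Ω → Pt (WAB A B) Ω, (∀ R ∈ S, f R ∉ Kg) →
        (∏ R ∈ S, (xp Θ (f R) - xp Θ P)) ∈ V ∧ rs V (∏ R ∈ S, (xp Θ (f R) - xp Θ P)) = ∏ R ∈ S, (rs V (xp Θ (f R)) - rs V (xp Θ P)) := by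
      intro f hf
      refine ⟨prod_mem fun R hR => hd (hf R hR), ?_⟩
      rw [rs_prod S _ fun R hR => hd (hf R hR)]
      exact Finset.prod_congr rfl fun R hR => rs_sub (hV (hf R hR)) (hV hP)
    obtain ⟨ha1, ha2⟩ := hpm (fun R => R) hSK
    obtain ⟨hb1, hb2⟩ := hpm (fun R => Y + R) hYR
    have he2 := congrArg (rs V) he
    have hm1 : ak Ω c ^ 2 ∈ V := pow_mem hcV 2
    have hm2 : xp Θ (act c Y) - xp Θ (act c P) ∈ V := sub_mem (hV hgen.ay) (hV hcP)
    rw [rs_mul (V.mul_mem _ _ hm1 hm2) ha1, rs_mul hm1 hm2, rs_pow hcV, rs_sub (hV hgen.ay) (hV hcP), ha2,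
      rs_mul (hd hgen.y) hb1, rs_sub (hV hgen.y) (hV hP), hb2] at he2
    rw [Polynomial.eval_mul, Polynomial.eval_sub, Polynomial.eval_mul, Polynomial.eval_mul, Polynomial.eval_C, Polynomial.eval_C, hp3, hq3,
      Polynomial.eval_sub, Polynomial.eval_C, Polynomial.eval_X, ← he2]
    ring

end H55G
end

-- from Lib.H55G.C3b
section

/-! # H55G, part C: the multiplications on the reduced curve are rational functions -/

open NumberField IsDedekindDomain WeierstrassCurve Polynomial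

namespace H55G

open H55P (IQ embF eF LF Per IsHecke Pt ac Inert Dec Nm)
open H35P (WAB Ker GoodW IntW)
open H55K (CMA Tor TN ak xc yc cj cj_cj mul_cj Nm_cj Nm_mul Nm_nat)
open H55K.MG (VC Crd)

variable {F : Type} [Field F] [NumberField F] [IQ F] {A B : F} {Om : ℂ} {Ω : Type} [Field Ω] [DecidableEq Ω]
  [Algebra F Ω] {j : Ω →+* ℂ} {act : 𝓞 F →+* AddMonoid.End (Pt (WAB A B) Ω)} {V : ValuationSubring Ω}
  {W' : WeierstrassCurve Ω} {u r s t : Ω} {Θ : Pt (WAB A B) Ω ≃+ W'.toAffine.Point} {Kg : AddSubgroup (Pt (WAB A B) Ω)}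

/-- Chunk C3A (S/M). S for b, c = b^2 ∏ xp R, V(c) = 1 (cb_one), so c is in V with c̄ = rs V c ≠ 0. Y fixed, not in Kg (exists_gen), so act b Y is not in Kg (b_kg). For P not in Kg: act b P is not in Kg (b_kg; this gives rhoG b P ≠ 0), and cb_cong for X = P, Y: applying rs: c̄ (X(ρ b P) - x̄(bY)) = (X P - x̄_Y)^(Nm b). So e = c̄⁻¹, y = x̄_Y = rs V (xp Y), f = rs V (xp (bY)). -/
theorem rf_b (h : CMA F A B Om j act) (hG : GD V W' u r s t Θ Kg) (hst : ∀ a : 𝓞 F, ∀ P ∈ Kg, act a P ∈ Kg)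
    {b : 𝓞 F} (hb : Prime b) (hV : V.valuation (ak Ω b) < 1) :
    ∃ (e f : IsLocalRing.ResidueField V) (y : IsLocalRing.ResidueField V), e ≠ 0 ∧
      ∀ P : Pt (WAB A B) Ω ⧸ Kg, P ≠ 0 → rhoG Kg act hst b P ≠ 0 ∧
        XG V Θ Kg (rhoG Kg act hst b P) = e * (XG V Θ Kg P - y) ^ Nm b + f := by
  obtain ⟨S, hS, -⟩ := H55K.exists_TN h hb.ne_zero
  obtain ⟨X₀, Y, hgen⟩ := exists_gen h hG hb.ne_zero S
  have hc1 := cb_one h hG hb hV hS
  set c : Ω := ak Ω b ^ 2 * ∏ R ∈ S, xp Θ R with hcdef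
  have hcV : c ∈ V := (V.valuation_le_one_iff c).mp hc1.le
  have hc0 : rs V c ≠ 0 := by
    intro h0
    rw [rs_eq_zero hcV, hc1] at h0
    exact lt_irrefl _ h0
  have hY := xp_int hG hgen.y
  have hbY := xp_int hG hgen.ay
  refine ⟨(rs V c)⁻¹, rs V (xp Θ (act b Y)), rs V (xp Θ Y), inv_ne_zero hc0, ?_⟩
  intro P
  induction P using QuotientAddGroup.induction_on with
  | H Q =>
    intro hP
    have hQ : Q ∉ Kg := fun hQ => hP ((QuotientAddGroup.eq_zero_iff Q).mpr hQ)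
    have hbQ : act b Q ∉ Kg := fun hQ' => hQ (b_kg h hG hb hV hQ')
    rw [rhoG_mk]
    refine ⟨fun h0 => hbQ ((QuotientAddGroup.eq_zero_iff _).mp h0), ?_⟩
    rw [(XG_mk hG hQ).1, (XG_mk hG hbQ).1]
    have hX := xp_int hG hQ
    have hbX := xp_int hG hbQ
    have hcong := cb_cong h hG hb hV hS hQ hgen.y
    rw [← hcdef] at hcong
    have h1 : xp Θ (act b Q) - xp Θ (act b Y) ∈ V := V.sub_mem hbX.2.1 hbY.2.1
    have h2 : xp Θ Q - xp Θ Y ∈ V := V.sub_mem hX.2.1 hY.2.1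
    have h3 := (rs_eq (V.mul_mem _ _ hcV h1) (V.toSubring.pow_mem h2 (Nm b))).mpr hcong
    rw [rs_mul hcV h1, rs_pow h2, rs_sub hbX.2.1 hbY.2.1, rs_sub hX.2.1 hY.2.1] at h3
    rw [← h3, inv_mul_cancel_left₀ hc0]
    ring

end H55G
end

-- from Lib.H55G.C3c
section

/-! # H55G, part C: the multiplications on the reduced curve are rational functions -/

open NumberField IsDedekindDomain WeierstrassCurve Polynomial

namespace H55G

open H55P (IQ embF eF LF Per IsHecke Pt ac Inert Dec Nm)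
open H35P (WAB Ker GoodW IntW)
open H55K (CMA Tor TN ak xc yc cj cj_cj mul_cj Nm_cj Nm_mul Nm_nat)
open H55K.MG (VC Crd)

variable {F : Type} [Field F] [NumberField F] [IQ F] {A B : F} {Om : ℂ} {Ω : Type} [Field Ω] [DecidableEq Ω]
  [Algebra F Ω] {j : Ω →+* ℂ} {act : 𝓞 F →+* AddMonoid.End (Pt (WAB A B) Ω)} {V : ValuationSubring Ω}
  {W' : WeierstrassCurve Ω} {u r s t : Ω} {Θ : Pt (WAB A B) Ω ≃+ W'.toAffine.Point} {Kg : AddSubgroup (Pt (WAB A B) Ω)}

omit [Field F] [NumberField F] [IQ F] in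
/-- Chunk C3B (S, PURE). Composition with a polynomial q of degree ≤ m: N(q), D(q) (Polynomial.comp) have degree ≤ n m (natDegree_comp), and they are not both 0: if q is not constant then comp is injective (Polynomial.comp_eq_zero_iff / leading coefficients). -/
theorem comp_nd {κ : Type} [Field κ] {N D q : κ[X]} (h : N ≠ 0 ∨ D ≠ 0) (hq : 0 < q.natDegree) {n m : ℕ} (h1 : N.natDegree ≤ n)
    (h2 : D.natDegree ≤ n) (h3 : q.natDegree ≤ m) : (N.comp q ≠ 0 ∨ D.comp q ≠ 0) ∧ (N.comp q).natDegree ≤ m * n ∧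
      (D.comp q).natDegree ≤ m * n := by
  have hcomp : ∀ N : κ[X], N ≠ 0 → N.comp q ≠ 0 := by
    intro N hN h0
    rcases Polynomial.comp_eq_zero_iff.1 h0 with h1 | ⟨-, h2⟩
    · exact hN h1
    · rw [h2, natDegree_C] at hq
      exact lt_irrefl _ hq
  have hdeg : ∀ N : κ[X], N.natDegree ≤ n → (N.comp q).natDegree ≤ m * n := by
    intro N hN
    rw [natDegree_comp, mul_comm]
    exact Nat.mul_le_mul h3 hN
  exact ⟨h.imp (hcomp N) (hcomp D), hdeg N h1, hdeg D h2⟩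

end H55G
end
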