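import Mathlib
import Pool.Agent.Lib.H1M.PP2.M004
import Pool.Agent.Lib.H1M.PP2.M017
import Pool.Agent.Lib.H1M.PP2.M019
import Pool.Agent.Lib.H1M.PP2.M045
import Pool.Agent.Lib.H1M.PP2.M060
import Pool.Agent.Lib.H1M.PP2.M063
import Pool.Agent.Lib.H1M.PP2.M074
import Pool.Agent.Lib.H1M.PP2.M079
import Pool.Agent.Lib.H1M.PP2.M082
import Pool.Agent.Lib.H1M.PP2.M083
import Pool.Agent.Lib.H1M.PP2.M092
import Pool.Agent.Lib.H1M.PP2.M094
import Pool.Agent.Lib.H1M.PP2.M098
import Pool.Agent.Lib.H1M.PP2.M100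
import Pool.Agent.Lib.H1M.PP2.M101
import Pool.Agent.Lib.H1M.PP2.M102
import Pool.Agent.Lib.H1M.PP2.M106
import Pool.Agent.Lib.H1M.PP2.M107
import Pool.Agent.Lib.H1M.PP2.M108
import Pool.Agent.Lib.H1M.PP2.M110

/-! Merged copies (to shorten the build) of Lib.H13D.C1, Lib.H28I.E8, Lib.H13R.C3, Lib.H55G.D3Ba, Lib.H55G.D3Bb, Lib.H55K.T11B, Lib.SSG.Z.L9, Lib.H13X.XCB, Lib.H13Z.LI, Lib.H13X.XI, Lib.SSG.S.D1, Lib.H13X.XP0, Lib.H13X.XP. -/

-- from Lib.H13D.C1
section

/-! # H13D, part C: the cyclotomic character -/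

open NumberField IsDedekindDomain WeierstrassCurve

namespace H13D

open H55P (IQ embF eF LF Per IsHecke Pt ac Inert Dec Nm)
open H35P (WAB Ker tt GoodW IntW)
open H55K

variable {F : Type} [Field F] [NumberField F] [IQ F] {A B : F} {Om : ℂ} {Ω : Type} [Field Ω] [DecidableEq Ω]
  [Algebra F Ω] {j : Ω →+* ℂ} {act : 𝓞 F →+* AddMonoid.End (Pt (WAB A B) Ω)}

/-- Chunk C1 (S/M). S from H55K.gv_fin (G10C.lean). v = span {β} (IQ.pid: principal; β prime, Nm β = absNorm v), V(β) < 1. H55K.frob_gen (G8C.lean): γ associated to β (so Nm γ = Nm β) with Ker V (act γ X - ac s X) for all X. For n • T = 0, V(n) = 1: n • (act γ T - ac s T) = 0, H55K.ker_tors: act γ T = ac s T. See the proof of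
H55K.dta_frob (G10C.lean). -/
theorem frob_fin (h : CMA F A B Om j act) : ∃ S : Set (HeightOneSpectrum (𝓞 F)), S.Finite ∧
    ∀ v ∉ S, (Ideal.absNorm v.asIdeal).Prime →
    ∀ V : ValuationSubring Ω, (∀ a : 𝓞 F, a ∈ v.asIdeal → V.valuation (ak Ω a) < 1) →
      ∀ s : Ω ≃ₐ[F] Ω, (∀ x ∈ V, V.valuation (s x - x ^ Ideal.absNorm v.asIdeal) < 1) →
        ∃ γ : 𝓞 F, Nm γ = Ideal.absNorm v.asIdeal ∧ ∀ n : ℕ, V.valuation (n : Ω) = 1 → ∀ T : Pt (WAB A B) Ω, n • T = 0 →
          ac (WAB A B) s T = act γ T := by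
  obtain ⟨S₁, f₁, g₁⟩ := gv_fin (A := A) (B := B) h.disc Ω
  refine ⟨S₁, f₁, fun v v₁ hpr V hV s hs => ?_⟩
  obtain ⟨hG, hA', hB'⟩ := g₁ v v₁ V hV
  obtain ⟨β, hgen⟩ : ∃ β : 𝓞 F, Ideal.span {β} = v.asIdeal := by
    obtain ⟨β, hβ⟩ := (IQ.pid (F := F)).principal v.asIdeal
    exact ⟨β, hβ.symm⟩
  have hβ0 : β ≠ 0 := by
    intro h0
    apply v.ne_bot
    rw [← hgen, h0, Ideal.span_singleton_eq_bot]
  have hβ : Prime β := by
    rw [← Ideal.span_singleton_prime hβ0, hgen]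
    exact v.isPrime
  have hβv : β ∈ v.asIdeal := by
    have h1 := Ideal.mem_span_singleton_self β
    rw [hgen] at h1
    exact h1
  have hNm : Nm β = Ideal.absNorm v.asIdeal := by
    unfold Nm
    rw [hgen]
  obtain ⟨γ, hγ, hker⟩ := frob_gen h hG hβ (hV _ hβv) (by rw [hNm]; exact hpr) hA' hB' s
    (by rw [hNm]; exact hs)
  refine ⟨γ, ?_, fun n hn T hT => ?_⟩
  · rw [← hNm]
    unfold Nm
    rw [(Ideal.span_singleton_eq_span_singleton.2 hγ)]
  · have hK := hker T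
    have hz : n • (act γ T - ac (WAB A B) s T) = 0 := by
      rw [smul_sub, ← map_nsmul, ← map_nsmul, hT, map_zero, map_zero, sub_zero]
    have h0 := ker_tors hG n hn hz hK
    exact (sub_eq_zero.1 h0).symm

end H13D
end

-- from Lib.H28I.E8
section

/-! # H28I, part E: the numbers of points agree -/

open NumberField IsDedekindDomain WeierstrassCurve

namespace H28I

open H55P (IQ embF eF LF Per IsHecke Pt ac Inert Dec Nm)
open H35P (WAB Ker tt GoodW IntW)
open H55K (xc yc)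
open H13D
open H55K (CMA ak)
open H55K.TQ

theorem e8_fin {k : Type} [Field k] [Finite k] (W : WeierstrassCurve k) : Finite W.toAffine.Point := by
  let f : W.toAffine.Point → Option (k × k) := fun P => match P with
    | .zero => none
    | .some x y _ => some (x, y)
  apply Finite.of_injective f
  rintro (_ | ⟨x, y, h⟩) (_ | ⟨x', y', h'⟩) he
  · rfl
  · exact absurd he (by simp [f])
  · exact absurd he (by simp [f])
  · have h1 : (x, y) = (x', y') := Option.some.inj he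
    rw [Prod.mk.injEq] at h1
    obtain ⟨rfl, rfl⟩ := h1
    rfl

/-- Chunk E8 (M). Ω = the algebraic closure of F, V above v and a Frobenius element s (H13S.exists_frob; see H13D.H3 or H55K/G10C.lean for the setup: exists_abw, exists_j, exists_CMA, the relation between hH.data.per and A = sA W F, B = sB W F as in bad_K, T10.lean). Kg, Kg' from exists_rmZ for W and W'. int_all, exists_W (V6.lean; vi_K in K1.lean for F; L from exists_perZ, perW_of: FB5.lean, QP1A.lean).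
count_grp with f = ac s, f' = ac s (Kg, Kg' are stable: ac_mem_iff in H13D/A8.lean, s (b₂/12) = b₂/12), phi_in, phi_ker, nsmul_surj, fin_nsmul (q^n > 0; q^n • c = 0), hfix: the number of classes is the number of points over a finite field, which is not 0 (Nat.card of a finite nonempty type; the points over a finite field are finitely many:
WeierstrassCurve.Affine.Point over a Finite field, see H55K/G9B or W-part), so the type is finite. Then the two formulas of exists_rmZ. -/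
theorem deu_iso {F : Type} [Field F] [NumberField F] [IQ F] {W W' : WeierstrassCurve ℤ} {Om : ℂ} {m : Ideal (𝓞 F)}
    {ψ : Ideal (𝓞 F) →*₀ 𝓞 F} (hH : BaseH F (W⁄(𝓞 F)) Om m ψ) {kap : ℤ} {e t u lam : ℚ} (h : IP W W' kap e t u lam)
    (v : HeightOneSpectrum (𝓞 F)) (hΔ : (W⁄(𝓞 F)).Δ ∉ v.asIdeal) (hΔ' : (W'⁄(𝓞 F)).Δ ∉ v.asIdeal) :
    Nat.card ((W'⁄(𝓞 F))⁄(𝓞 F ⧸ v.asIdeal)).toAffine.Point = Nat.card ((W⁄(𝓞 F))⁄(𝓞 F ⧸ v.asIdeal)).toAffine.Point := by
  classical
  have hper := hH.data.per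
  have eA : sA W F = -(algebraMap (𝓞 F) F (W⁄(𝓞 F)).c₄) / 48 := by
    have h1 : (W⁄(𝓞 F)).c₄ = algebraMap ℤ (𝓞 F) W.c₄ := WeierstrassCurve.map_c₄ W _
    rw [h1, sA]
    simp
  have eB : sB W F = -(algebraMap (𝓞 F) F (W⁄(𝓞 F)).c₆) / 864 := by
    have h1 : (W⁄(𝓞 F)).c₆ = algebraMap ℤ (𝓞 F) W.c₆ := WeierstrassCurve.map_c₆ W _
    rw [h1, sB]
    simp
  have hdisc : 4 * sA W F ^ 3 + 27 * sB W F ^ 2 ≠ 0 := H55K.y3_ne (W⁄(𝓞 F)) eA eB hH.data.ell
  have hper' : Per F (embF F (sA W F)) (embF F (sB W F)) Om := by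
    have e1 : embF F (sA W F) = -(eF F (W⁄(𝓞 F)).c₄) / 48 := by
      rw [eA, map_div₀, map_neg, map_ofNat]
      rfl
    have e2 : embF F (sB W F) = -(eF F (W⁄(𝓞 F)).c₆) / 864 := by
      rw [eB, map_div₀, map_neg, map_ofNat]
      rfl
    rw [e1, e2]
    exact hper
  let Ω := AlgebraicClosure F
  obtain ⟨j, hj⟩ := H55K.exists_j F Ω
  obtain ⟨act, hC⟩ := H55K.exists_CMA F (sA W F) (sB W F) Om j hdisc hper' hj
  have : CharZero Ω := charZero_of_injective_algebraMap (algebraMap F Ω).injective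
  obtain ⟨V, hV⟩ := H55K.exists_abw Ω v
  have hVv : ∀ a : 𝓞 F, a ∈ v.asIdeal → V.valuation (ak Ω a) < 1 := by
    intro a ha
    rw [hV.lt]
    exact (v.valuation_lt_one_iff_mem _).2 ha
  obtain ⟨s, hDec, hs⟩ := H13S.exists_frob v V hVv
  obtain ⟨Kg, hR, hcard⟩ := exists_rmZ (Ω := Ω) (V := V) W v hΔ hVv
  obtain ⟨Kg', hR', hcard'⟩ := exists_rmZ (Ω := Ω) (V := V) W' v hΔ' hVv
  obtain ⟨hI, q, hq, hT⟩ := int_all h hVv hΔ hΔ' hR
  -- the isogeny
  obtain ⟨L, hL⟩ := exists_perZ (H55K.TQ.perW_of hH)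
  have g2 : L.g₂ = -4 * j (algebraMap F Ω (sA W F)) := by
    rw [hL.g2, hj, sA, map_div₀, map_neg, map_ofNat, map_intCast]
    ring
  have g3 : L.g₃ = -4 * j (algebraMap F Ω (sB W F)) := by
    rw [hL.g3, hj, sB, map_div₀, map_neg, map_ofNat, map_intCast]
    ring
  have hlF : (lam : F) ≠ 0 := by
    intro h0
    exact h.lam0 (by exact_mod_cast h0)
  obtain ⟨Φ, hΦ⟩ := exists_W (Ω := Ω) j L hlF (vi_K h F) g2 g3
  have hb : ∀ (E : WeierstrassCurve ℤ), s ((E.b₂ : Ω) / 12) = (E.b₂ : Ω) / 12 := by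
    intro E
    rw [map_div₀, map_intCast, map_ofNat]
  have hcnt := count_grp Kg Kg' Φ hΦ.surj (ac (WAB (sA W F) (sB W F)) s) (ac (WAB (sA W' F) (sB W' F)) s)
    (fun X => hΦ.gal s X) (fun X hX => (ac_mem_iff hR s hDec (map_one s) (hb W) X).2 hX)
    (fun X hX => (ac_mem_iff hR' s hDec (map_one s) (hb W') X).2 hX)
    (fun X hX => phi_in hΦ hI hR hR' hX) q (fun X hX => phi_ker hdisc hΦ hI hR hR' hT hX)
    (fun X => nsmul_surj hC hq X) (fun n => fin_nsmul hC hR (pow_pos hq n)) ?_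
  · rw [hcard' s hDec hs, hcard s hDec hs]
    exact hcnt
  · have hvm := v.isMaximal
    let _ : Field (𝓞 F ⧸ v.asIdeal) := Ideal.Quotient.field v.asIdeal
    have : Finite (𝓞 F ⧸ v.asIdeal) := Ideal.finiteQuotientOfFreeOfNeBot _ v.ne_bot
    have := e8_fin ((W⁄(𝓞 F))⁄(𝓞 F ⧸ v.asIdeal))
    apply Nat.finite_of_card_ne_zero
    rw [← hcard s hDec hs]
    have : Nonempty ((W⁄(𝓞 F))⁄(𝓞 F ⧸ v.asIdeal)).toAffine.Point := ⟨0⟩
    exact Nat.card_pos.ne'

end H28I
end

-- from Lib.H13R.C3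
section

/-! # H13R: bad primes stay bad in p-extensions of M -/

open NumberField IsDedekindDomain WeierstrassCurve

namespace H13R

open H55P (IQ embF eF LF Per IsHecke Pt ac Inert Dec Nm UnitP PExt)
open H35P (WAB Ker tt GoodW IntW)
open H55K.MG (VC Crd)
open H55K H55K.TQ

variable {F : Type} [Field F] [NumberField F] [IQ F] {W₀ : WeierstrassCurve (𝓞 F)} {Om : ℂ}
    {m : Ideal (𝓞 F)} {ψ : Ideal (𝓞 F) →*₀ 𝓞 F} {p : ℕ}

/-- The prime below in a smaller intermediate field. -/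
theorem c3_below {F : Type} [Field F] [NumberField F] {Ω : Type} [Field Ω] [Algebra F Ω] {M K : IntermediateField F Ω}
    [NumberField M] [NumberField K] (hMK : M ≤ K) (w : HeightOneSpectrum (𝓞 K)) :
    ∃ v : HeightOneSpectrum (𝓞 M), ∀ (a : 𝓞 M) (b : 𝓞 K), ((a : M) : Ω) = ((b : K) : Ω) → (a ∈ v.asIdeal ↔ b ∈ w.asIdeal) := by
  letI : Algebra M K := (IntermediateField.inclusion hMK).toRingHom.toAlgebra
  refine ⟨⟨w.asIdeal.under (𝓞 M), inferInstance, mt Ideal.eq_bot_of_comap_eq_bot w.ne_bot⟩, fun a b hab => ?_⟩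
  have h1 : algebraMap (𝓞 M) (𝓞 K) a = b := by
    apply RingOfIntegers.ext
    apply Subtype.ext
    rw [← hab]
    rfl
  change algebraMap (𝓞 M) (𝓞 K) a ∈ w.asIdeal ↔ _
  rw [h1]

/-- A point of order p. -/
theorem c3_point {A B : F} {Ω : Type} [Field Ω] [DecidableEq Ω] [Algebra F Ω] {j : Ω →+* ℂ}
    {act : 𝓞 F →+* AddMonoid.End (Pt (WAB A B) Ω)} (h : CMA F A B Om j act) (hp : p.Prime) :
    ∃ T : Pt (WAB A B) Ω, p • T = 0 ∧ T ≠ 0 := by
  have hp0 : ((p : ℕ) : 𝓞 F) ≠ 0 := by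
    intro h0
    exact hp.ne_zero (by exact_mod_cast h0)
  obtain ⟨T₀, hT₀, -, hT₁, -⟩ := h.gen ((p : ℕ) : 𝓞 F) hp0
  refine ⟨T₀, ?_, ?_⟩
  · have h1 : act ((p : ℕ) : 𝓞 F) T₀ = 0 := hT₀
    rw [map_natCast] at h1
    rw [← AddMonoid.End.natCast_apply]
    exact h1
  · intro h0
    have h1 := (hT₁ 1).1 (by rw [h0]; exact map_zero _)
    exact t8_dvd hp h1

/-- p is a unit at the primes of the discriminant. -/
theorem c3_vp (hp : PrimeH F W₀ p) {Ω : Type} [Field Ω] [Algebra F Ω] {M : IntermediateField F Ω} [NumberField M]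
    {V : ValuationSubring Ω} {v : HeightOneSpectrum (𝓞 M)}
    (hv : ∀ a : 𝓞 M, a ∈ v.asIdeal → V.valuation ((a : M) : Ω) < 1)
    (hΔ : algebraMap (𝓞 F) (𝓞 M) W₀.Δ ∈ v.asIdeal) : V.valuation (p : Ω) = 1 := by
  have hpv : (p : 𝓞 M) ∉ v.asIdeal := by
    intro h0
    obtain ⟨x, hx, y, hy, hxy⟩ := Ideal.isCoprime_iff_exists.1 hp.cop
    obtain ⟨c, rfl⟩ := Ideal.mem_span_singleton'.1 hx
    obtain ⟨d, rfl⟩ := Ideal.mem_span_singleton'.1 hy
    have h1 := congrArg (algebraMap (𝓞 F) (𝓞 M)) hxy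
    rw [map_add, map_mul, map_mul, map_natCast, map_one] at h1
    have h2 : (1 : 𝓞 M) ∈ v.asIdeal := by
      rw [← h1]
      exact Ideal.add_mem _ (Ideal.mul_mem_left _ _ hΔ) (Ideal.mul_mem_left _ _ h0)
    exact v.isPrime.ne_top ((Ideal.eq_top_iff_one _).2 h2)
  have hv' : ∀ a : 𝓞 M, a ∈ v.asIdeal → V.valuation (ak Ω a) < 1 := hv
  have h1 := t8_val hv' hpv
  have e : ak Ω ((p : ℕ) : 𝓞 M) = (p : Ω) := by
    have e1 : (((p : ℕ) : 𝓞 M) : M) = (p : M) := map_natCast (algebraMap (𝓞 M) M) p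
    unfold ak
    rw [e1, map_natCast]
  rwa [e] at h1

/-- Chunk C3 (M). bad_K (T10.lean) and good_down (T8.lean) with the base M: V from exists_V for K, v = the prime of M below w (Algebra M K by inclusion; V(a) < 1 for a in v), Δ in v (m ≤ the prime of F below w: hH.supp), V(p) = 1 (p not in v because Δ in v; coprime). GMd from gmd_of_good. For g in M.fixingSubgroup with Inert V g: g^(p^k) in L.fixingSubgroup
(H55P.PExt.pow, S12.lean), it fixes K, inert_triv (T1.lean): it fixes the points killed by p, fix_all: g does. A point T ≠ 0 killed by p (hact.gen as in good_down). core_bad (C2.lean). -/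
theorem bad_KR (hH : BaseH F W₀ Om m ψ) (hp : PrimeH F W₀ p) {M L K : IntermediateField F (AlgebraicClosure F)}
    [NumberField M] [NumberField K] (hL : PExt p M L) (hMK : M ≤ K) (hKL : K ≤ L) (hB : BadM W₀ M)
    (w : HeightOneSpectrum (𝓞 K)) (hw : H55P.mK K m ≤ w.asIdeal) : ¬ GoodAt ((W₀⁄F)⁄K) w := by
  classical
  intro hgood
  obtain ⟨V, hV⟩ := exists_V K w
  obtain ⟨j, hj⟩ := exists_j F (AlgebraicClosure F)
  obtain ⟨A, hA⟩ : ∃ A : F, A = -(algebraMap (𝓞 F) F W₀.c₄) / 48 := ⟨_, rfl⟩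
  obtain ⟨B, hB'⟩ : ∃ B : F, B = -(algebraMap (𝓞 F) F W₀.c₆) / 864 := ⟨_, rfl⟩
  have hd := y3_ne W₀ hA hB' hH.data.ell
  have hper : Per F (embF F A) (embF F B) Om := by
    have e1 : embF F A = -(eF F W₀.c₄) / 48 := by
      rw [hA, map_div₀, map_neg, map_ofNat]
      rfl
    have e2 : embF F B = -(eF F W₀.c₆) / 864 := by
      rw [hB', map_div₀, map_neg, map_ofNat]
      rfl
    rw [e1, e2]
    exact hH.data.per
  obtain ⟨act, hact⟩ := exists_CMA F A B Om j hd hper hj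
  obtain ⟨u, huw⟩ : ∃ u : HeightOneSpectrum (𝓞 F), u.asIdeal = w.asIdeal.under (𝓞 F) :=
    ⟨⟨w.asIdeal.under (𝓞 F), inferInstance, mt Ideal.eq_bot_of_comap_eq_bot w.ne_bot⟩, rfl⟩
  have hmu : m ≤ u.asIdeal := by
    rw [huw]
    exact Ideal.map_le_iff_le_comap.1 hw
  have hΔu : W₀.Δ ∈ u.asIdeal := (hH.supp u).2 hmu
  have hΔw : algebraMap (𝓞 F) (𝓞 K) W₀.Δ ∈ w.asIdeal := by
    rw [huw] at hΔu
    exact hΔu
  obtain ⟨v, hvw⟩ := c3_below hMK w
  have hv : ∀ a : 𝓞 M, a ∈ v.asIdeal → V.valuation ((a : M) : AlgebraicClosure F) < 1 := by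
    intro a ha
    have h1 : ∃ b : 𝓞 K, ((a : M) : AlgebraicClosure F) = ((b : K) : AlgebraicClosure F) := by
      refine ⟨⟨⟨((a : M) : AlgebraicClosure F), hMK (a : M).2⟩, ?_⟩, rfl⟩
      have h2 : IsIntegral ℤ (a : M) := a.isIntegral_coe
      have h3 : IsIntegral ℤ ((IntermediateField.inclusion hMK) (a : M)) :=
        h2.map ((IntermediateField.inclusion hMK).toRingHom.toIntAlgHom)
      exact h3
    obtain ⟨b, hb⟩ := h1
    rw [hb]
    exact hV b ((hvw a b hb).1 ha)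
  have hΔv : algebraMap (𝓞 F) (𝓞 M) W₀.Δ ∈ v.asIdeal := (hvw _ (algebraMap (𝓞 F) (𝓞 K) W₀.Δ) rfl).2 hΔw
  have hVp : V.valuation (p : AlgebraicClosure F) = 1 := c3_vp hp hv hΔv
  have hGM := gmd_of_good W₀ hA hB' w hV hgood
  have hΔA : (WAB A B).Δ ≠ 0 := by
    have e : (WAB A B).Δ = -16 * (4 * A ^ 3 + 27 * B ^ 2) := by
      unfold WAB WeierstrassCurve.Δ WeierstrassCurve.b₂ WeierstrassCurve.b₄ WeierstrassCurve.b₆ WeierstrassCurve.b₈
      ring
    rw [e]
    exact mul_ne_zero (by norm_num) hd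
  obtain ⟨k, hk⟩ := H55P.PExt.pow p hp.prime M L hL
  obtain ⟨T, hT, hT0⟩ := c3_point hact hp.prime
  refine core_bad hH.data.ell (jint_of hH.data.per hH.data.ell) hp.prime hp.five hA hB' M hB hΔv hv hVp hT hT0 ?_
  intro g hgM hg
  refine fix_all hact hp.prime ((unr_iff hp.prime).1 hp.unr) g (k := k) ?_ T hT
  intro P hP
  refine inert_triv hΔA hGM (g ^ (p ^ k)) ?_ ?_ p hVp P hP
  · intro x hx
    exact (IntermediateField.mem_fixingSubgroup_iff L _).1 (hk g hgM) x (hKL hx)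
  · have h1 : g ∈ H55P.inS F V := hg
    exact pow_mem h1 (p ^ k)

open Classical in
/-- Chunk C3 (M). bad_tors (T11B.lean) with the base M (PExt.pow, core_bad). -/
theorem bad_torsR (hH : BaseH F W₀ Om m ψ) (hp : PrimeH F W₀ p) {M L K : IntermediateField F (AlgebraicClosure F)}
    [NumberField M] (hL : PExt p M L) (hKL : K ≤ L) (hB : BadM W₀ M) {V : ValuationSubring (AlgebraicClosure F)}
    {v : HeightOneSpectrum (𝓞 M)} (hv : ∀ a : 𝓞 M, a ∈ v.asIdeal → V.valuation ((a : M) : AlgebraicClosure F) < 1)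
    (hΔ : algebraMap (𝓞 F) (𝓞 M) W₀.Δ ∈ v.asIdeal) (T : Pt (W₀⁄F) (AlgebraicClosure F)) (hT : p • T = 0)
    (hf : ∀ s ∈ K.fixingSubgroup, Inert V s → ac (W₀⁄F) s T = T) : T = 0 := by
  obtain ⟨A, hA⟩ : ∃ A : F, A = -(algebraMap (𝓞 F) F W₀.c₄) / 48 := ⟨_, rfl⟩
  obtain ⟨B, hB'⟩ : ∃ B : F, B = -(algebraMap (𝓞 F) F W₀.c₆) / 864 := ⟨_, rfl⟩
  have hell := hH.data.ell
  have hd := y3_ne W₀ hA hB' hell
  obtain ⟨j, hj⟩ := exists_j F (AlgebraicClosure F)
  have hper : Per F (embF F A) (embF F B) Om := by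
    have e1 : embF F A = -(eF F W₀.c₄) / 48 := by
      rw [hA, map_div₀, map_neg, map_ofNat]
      rfl
    have e2 : embF F B = -(eF F W₀.c₆) / 864 := by
      rw [hB', map_div₀, map_neg, map_ofNat]
      rfl
    rw [e1, e2]
    exact hH.data.per
  obtain ⟨act, hC⟩ := exists_CMA F A B Om j hd hper hj
  have hjint := jint_of hH.data.per hell
  obtain ⟨Kg, u, hG⟩ := exists_gmod (Ω := AlgebraicClosure F) hd (y3_j W₀ hA hB' hjint) V
  have hunr := (unr_iff hp.prime).1 hp.unr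
  have hVp : V.valuation (p : AlgebraicClosure F) = 1 := c3_vp hp hv hΔ
  have hΔA : (WAB A B).Δ ≠ 0 := by
    have e : (WAB A B).Δ = -16 * (4 * A ^ 3 + 27 * B ^ 2) := by
      unfold WAB WeierstrassCurve.Δ WeierstrassCurve.b₂ WeierstrassCurve.b₄ WeierstrassCurve.b₆ WeierstrassCurve.b₈
      ring
    rw [e]
    exact mul_ne_zero (by norm_num) hd
  obtain ⟨r, s, t, hVC⟩ := vc_short W₀ hA hB'
  have hVC' := vc_map (algebraMap F (AlgebraicClosure F)) hVC
  have hΔ1 : ((WAB A B).map (algebraMap F (AlgebraicClosure F))).Δ ≠ 0 := by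
    rw [WeierstrassCurve.map_Δ]
    exact (map_ne_zero _).2 hΔA
  have hΔ2 : ((W₀⁄F).map (algebraMap F (AlgebraicClosure F))).Δ ≠ 0 := by
    have e : (W₀⁄F).Δ = algebraMap (𝓞 F) F W₀.Δ := WeierstrassCurve.map_Δ _ _
    rw [WeierstrassCurve.map_Δ, e]
    refine (map_ne_zero _).2 fun h1 => hell ?_
    exact (map_eq_zero_iff _ (FaithfulSMul.algebraMap_injective (𝓞 F) F)).1 h1
  obtain ⟨Θ, hΘ⟩ : ∃ Θ : Pt (WAB A B) (AlgebraicClosure F) ≃+ Pt (W₀⁄F) (AlgebraicClosure F),
      Crd (algebraMap F (AlgebraicClosure F) 1) (algebraMap F (AlgebraicClosure F) r)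
        (algebraMap F (AlgebraicClosure F) s) (algebraMap F (AlgebraicClosure F) t) Θ := MG.vc_iso hVC' hΔ1 hΔ2
  have hcom : ∀ (g : AlgebraicClosure F ≃ₐ[F] AlgebraicClosure F) (P : Pt (WAB A B) (AlgebraicClosure F)),
      ac (W₀⁄F) g (Θ P) = Θ (ac (WAB A B) g P) := by
    intro g P
    by_cases hP : P = 0
    · subst hP
      rw [map_zero, map_zero, map_zero, map_zero]
    · obtain ⟨a1, a2, a3⟩ := hΘ P hP
      obtain ⟨b1, b2, b3⟩ := MG.ac_crd (W := WAB A B) g P
      have hP' : ac (WAB A B) g P ≠ 0 := fun h => hP (b3.1 h)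
      obtain ⟨c1, c2, c3⟩ := hΘ _ hP'
      obtain ⟨d1, d2, d3⟩ := MG.ac_crd (W := W₀⁄F) g (Θ P)
      have e2 := congrArg g a2
      have e3 := congrArg g a3
      simp only [map_add, map_mul, map_pow, map_one, AlgEquiv.commutes, one_pow, one_mul, mul_one] at e2 e3 c2 c3
      have f2 : xc (ac (W₀⁄F) g (Θ P)) = xc (Θ (ac (WAB A B) g P)) := by
        rw [d1]
        linear_combination c2 - e2 - b1
      refine pt_ext (fun h => a1 (d3.1 h)) c1 f2 ?_
      rw [d2]
      rw [d1] at f2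
      linear_combination c3 - e3 - b2 - (algebraMap F (AlgebraicClosure F) s) * f2
  by_contra h0
  obtain ⟨T', hT'⟩ := Θ.surjective T
  have hT0 : T' ≠ 0 := by
    rintro rfl
    exact h0 (by rw [← hT', map_zero])
  have hTp : p • T' = 0 := by
    apply Θ.injective
    rw [map_nsmul, hT', hT, map_zero]
  obtain ⟨k, hk⟩ := H55P.PExt.pow p hp.prime M L hL
  refine core_bad hell hjint hp.prime hp.five hA hB' M hB hΔ hv hVp hTp hT0 ?_
  intro g hgM hg
  refine fix_all hC hp.prime hunr g (k := k) ?_ T' hTp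
  intro P hP
  have hI : Inert V (g ^ (p ^ k)) := by
    have h1 : g ∈ H55P.inS F V := hg
    exact pow_mem h1 (p ^ k)
  refine fix_from_one hC hG hp.prime hp.five hVp (g ^ (p ^ k)) hI hTp hT0 ?_ P hP
  apply Θ.injective
  rw [← hcom, hT']
  refine hf _ ?_ hI
  exact (IntermediateField.mem_fixingSubgroup_iff K _).2 fun x hx =>
    (IntermediateField.mem_fixingSubgroup_iff L _).1 (hk g hgM) x (hKL hx)

end H13R
end

-- from Lib.H55G.D3Ba
section

/-! # H55G, part D: the points of the minimal model -/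

open NumberField IsDedekindDomain WeierstrassCurve Polynomial

namespace H55G

open H55K (GoodAt Abw)

variable {k : Type} [Field k] [NumberField k]

open Classical in
/-- The residue class modulo w of a w-integral element of k (0 for the other elements). -/
noncomputable def rk (w : HeightOneSpectrum (𝓞 k)) (x : k) : IsLocalRing.ResidueField (w.adicCompletionIntegers k) :=
  if h : (algebraMap k (w.adicCompletion k) x) ∈ w.adicCompletionIntegers k then
    IsLocalRing.residue (w.adicCompletionIntegers k) ⟨algebraMap k (w.adicCompletion k) x, h⟩ else 0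

/-- The reduction of a w-integral equation. -/
noncomputable def rkW (w : HeightOneSpectrum (𝓞 k)) (E : WeierstrassCurve k) :
    WeierstrassCurve (IsLocalRing.ResidueField (w.adicCompletionIntegers k)) :=
  ⟨rk w E.a₁, rk w E.a₂, rk w E.a₃, rk w E.a₄, rk w E.a₆⟩

theorem d3ba_val (w : HeightOneSpectrum (𝓞 k)) (x : k) : Valued.v (algebraMap k (w.adicCompletion k) x) = w.valuation k x :=
  HeightOneSpectrum.valuedAdicCompletion_eq_valuation' w x

theorem d3ba_mem (w : HeightOneSpectrum (𝓞 k)) {x : k} (hx : w.valuation k x ≤ 1) :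
    algebraMap k (w.adicCompletion k) x ∈ w.adicCompletionIntegers k := by
  show Valued.v (algebraMap k (w.adicCompletion k) x) ≤ 1
  rw [d3ba_val]
  exact hx

theorem d3ba_rk (w : HeightOneSpectrum (𝓞 k)) {x : k} (hx : w.valuation k x ≤ 1) :
    rk w x = IsLocalRing.residue (w.adicCompletionIntegers k) ⟨algebraMap k (w.adicCompletion k) x, d3ba_mem w hx⟩ :=
  dif_pos (d3ba_mem w hx)

/-- Chunk D3B (M). R = w.adicCompletionIntegers k, K = w.adicCompletion k. The coefficients of C • W₁ are w-integral: their images in K are in R (Valued.v of the image of x is w.valuation k x: HeightOneSpectrum.valuedAdicCompletion_eq_valuation', see bad_compl in H55K/D4.lean and d6_hom in D6.lean), so (C • W₁)⁄K = W⁄K for a curve W over R, with discriminant a unit (valuation 1: units of R are the elements of valuation 1).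
(C • W₁)⁄K = (C mapped to K) • (W₁⁄K) (map_variableChange). red_card': NW W₁ w is the number of points of W.map residue, which is rkW w (C • W₁) (WeierstrassCurve.ext; dif_pos); its discriminant is the residue class of a unit (map_Δ). -/
theorem NW_eq {W₁ : WeierstrassCurve k} {w : HeightOneSpectrum (𝓞 k)} {C : VariableChange k} (hC : GC W₁ w C) :
    ((W₁⁄(w.adicCompletion k)).minimal (w.adicCompletionIntegers k)).HasGoodReduction (w.adicCompletionIntegers k) ∧
      NW W₁ w = Nat.card (rkW w (C • W₁)).toAffine.Point ∧ (rkW w (C • W₁)).Δ ≠ 0 := by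
  obtain ⟨h1, h2, h3, h4, h6, hΔ⟩ := hC
  obtain ⟨W, hW⟩ : ∃ W : WeierstrassCurve (w.adicCompletionIntegers k), W = ⟨⟨_, d3ba_mem w h1⟩, ⟨_, d3ba_mem w h2⟩, ⟨_, d3ba_mem w h3⟩,
    ⟨_, d3ba_mem w h4⟩, ⟨_, d3ba_mem w h6⟩⟩ := ⟨_, rfl⟩
  have hWK : W⁄(w.adicCompletion k) = (C • W₁).map (algebraMap k (w.adicCompletion k)) := by
    rw [hW]
    rfl
  have hC' : C.map (algebraMap k (w.adicCompletion k)) • (W₁⁄(w.adicCompletion k)) = W⁄(w.adicCompletion k) := by
    rw [hWK]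
    exact WeierstrassCurve.map_variableChange _ _ _
  have hΔ1 : algebraMap (w.adicCompletionIntegers k) (w.adicCompletion k) W.Δ = algebraMap k (w.adicCompletion k) (C • W₁).Δ := by
    have e1 : (W⁄(w.adicCompletion k)).Δ = algebraMap (w.adicCompletionIntegers k) (w.adicCompletion k) W.Δ := WeierstrassCurve.map_Δ _ _
    rw [← e1, hWK]
    exact WeierstrassCurve.map_Δ _ _
  have hu : IsUnit W.Δ := by
    rw [HeightOneSpectrum.adicCompletionIntegers.isUnit_iff_valued_eq_one]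
    have e2 : ((W.Δ : w.adicCompletionIntegers k) : w.adicCompletion k) = algebraMap k (w.adicCompletion k) (C • W₁).Δ := hΔ1
    rw [e2, d3ba_val, hΔ]
  have hr : rkW w (C • W₁) = W.map (IsLocalRing.residue (w.adicCompletionIntegers k)) := by
    unfold rkW
    rw [d3ba_rk w h1, d3ba_rk w h2, d3ba_rk w h3, d3ba_rk w h4, d3ba_rk w h6, hW]
    rfl
  obtain ⟨g1, g2⟩ := red_card' (w.adicCompletionIntegers k) (w.adicCompletion k) (W₁⁄(w.adicCompletion k)) _ W hC' hu
  refine ⟨g1, ?_, ?_⟩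
  · rw [hr]
    exact g2
  · rw [hr, WeierstrassCurve.map_Δ]
    exact (hu.map (IsLocalRing.residue (w.adicCompletionIntegers k))).ne_zero

/-- Chunk D3B (S). Point = zero or some x y h; with Δ ≠ 0 nonsingular = equation (Affine.equation_iff_nonsingular_of_Δ_ne_zero or IsElliptic): an equivalence with Option of the subtype; Nat.card of Option (Finite): Finite.card_option. -/
theorem card_pairs {κ : Type} [Field κ] [Finite κ] (E : WeierstrassCurve κ) (hΔ : E.Δ ≠ 0) :
    Nat.card E.toAffine.Point = Nat.card {z : κ × κ // E.toAffine.Equation z.1 z.2} + 1 := by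
  have h : ∀ x y : κ, E.toAffine.Equation x y → E.toAffine.Nonsingular x y := fun x y hxy =>
    (Affine.equation_iff_nonsingular_of_Δ_ne_zero hΔ).1 hxy
  rw [← Finite.card_option]
  refine Nat.card_congr
    { toFun := fun P => match P with
        | .zero => none
        | .some x y hxy => some ⟨(x, y), hxy.1⟩
      invFun := fun z => match z with
        | none => .zero
        | some z => .some z.1.1 z.1.2 (h _ _ z.2)
      left_inv := fun P => by
        cases P <;> rfl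
      right_inv := fun z => by
        cases z <;> rfl }

end H55G
end

-- from Lib.H55G.D3Bb
section

/-! # H55G, part D: the points of the minimal model -/

open NumberField IsDedekindDomain WeierstrassCurve Polynomial

namespace H55G

open H55K (GoodAt Abw)

variable {Ω : Type} [Field Ω] {V : ValuationSubring Ω} {k : Type} [Field k] [NumberField k] [Algebra k Ω]
  {w : HeightOneSpectrum (𝓞 k)}

open Classical in
/-- The map of the integers of k to the residue field of V. -/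
noncomputable def d3bb_psi (V : ValuationSubring Ω) (k : Type) [Field k] [NumberField k] [Algebra k Ω] :
    𝓞 k →+* IsLocalRing.ResidueField V :=
  (IsLocalRing.residue V).comp
    (((algebraMap k Ω).comp (algebraMap (𝓞 k) k)).codRestrict V.toSubring fun x =>
      (V.valuation_le_one_iff _).1 (H55K.k0_int V x))

theorem d3bb_psi_apply (V : ValuationSubring Ω) (a : 𝓞 k) (h : algebraMap k Ω (a : k) ∈ V) :
    d3bb_psi V k a = IsLocalRing.residue V ⟨algebraMap k Ω (a : k), h⟩ := rfl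

theorem d3bb_zero (V : ValuationSubring Ω) (x : Ω) (h : x ∈ V) :
    IsLocalRing.residue V ⟨x, h⟩ = 0 ↔ V.valuation x < 1 := by
  rw [IsLocalRing.residue_eq_zero_iff]
  exact V.valuation_lt_one_iff ⟨x, h⟩

theorem d3bb_ker (hV : Abw V w) (a : 𝓞 k) : d3bb_psi V k a = 0 ↔ a ∈ w.asIdeal := by
  have h : algebraMap k Ω (a : k) ∈ V := (V.valuation_le_one_iff _).1 (H55K.k0_int V a)
  rw [d3bb_psi_apply V a h, d3bb_zero V _ h, hV.lt]
  exact w.valuation_lt_one_iff_mem a

/-- The residue class of a w-integral element is the residue class of an algebraic integer. -/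
theorem d3bb_cls (hV : Abw V w) {x : k} (hx : w.valuation k x ≤ 1) : ∃ a : 𝓞 k,
    rk w x = ((IsLocalRing.residue (w.adicCompletionIntegers k)).comp
      (algebraMap (𝓞 k) (w.adicCompletionIntegers k))) a ∧ rs V (algebraMap k Ω x) = d3bb_psi V k a := by
  obtain ⟨a, ha⟩ := HeightOneSpectrum.exists_valuation_sub_lt_of_integer w hx 1
  have ha' : w.valuation k ((a : k) - x) < 1 := by simpa using ha
  refine ⟨a, ?_, ?_⟩
  · have hm : (algebraMap k (w.adicCompletion k) x) ∈ w.adicCompletionIntegers k := by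
      show Valued.v ((x : k) : w.adicCompletion k) ≤ 1
      rw [HeightOneSpectrum.valuedAdicCompletion_eq_valuation' w x]
      exact hx
    unfold rk
    rw [dif_pos hm, RingHom.comp_apply, eq_comm, ← sub_eq_zero, ← map_sub, IsLocalRing.residue_eq_zero_iff,
      H55B.F3_mem_maximalIdeal]
    have h3 : ((algebraMap (𝓞 k) (w.adicCompletionIntegers k) a - ⟨algebraMap k (w.adicCompletion k) x, hm⟩ :
        w.adicCompletionIntegers k) : w.adicCompletion k) =
        (((a : k) - x : k) : w.adicCompletion k) := by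
      have h4 : (((a : k) - x : k) : w.adicCompletion k) = ((a : k) : w.adicCompletion k) - (x : w.adicCompletion k) :=
        map_sub (algebraMap k (w.adicCompletion k)) (a : k) x
      rw [h4]
      rfl
    rw [h3, HeightOneSpectrum.valuedAdicCompletion_eq_valuation' w]
    exact ha'
  · have hm : algebraMap k Ω x ∈ V := (hV x).2 hx
    have hm' : algebraMap k Ω (a : k) ∈ V := (V.valuation_le_one_iff _).1 (H55K.k0_int V a)
    unfold rs
    rw [dif_pos hm, d3bb_psi_apply V a hm', eq_comm, ← sub_eq_zero, ← map_sub]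
    have h5 : (⟨algebraMap k Ω (a : k), hm'⟩ - ⟨algebraMap k Ω x, hm⟩ : V) =
        ⟨algebraMap k Ω ((a : k) - x), by rw [map_sub]; exact V.sub_mem hm' hm⟩ :=
      Subtype.ext (map_sub _ _ _).symm
    rw [h5, d3bb_zero, hV.lt]
    exact ha'

/-- Chunk D3C (M). Let O = (w.valuation k).valuationSubring, the ring of the w-integral elements. The map O → V → κ = ResidueField V, x ↦ class of algebraMap k Ω x, and the map O → R = w.adicCompletionIntegers k → 𝔽 = ResidueField R, x ↦ rk w x, are ring homomorphisms (hV: w-integral elements go to V) with the same kernel {x : w.valuation k x < 1} (hV.lt in K0A.lean; the maximal ideal of R: Valued.v < 1), and the second is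
surjective (already on 𝓞 k: H55B.residue_surj, see D6.lean of H55K). So there is e : 𝔽 → κ with e (rk w x) = rs V x (RingHom.liftOfSurjective / Ideal.Quotient.lift). 𝔽 has q = absNorm w elements (H55B.residue_card, see D6.lean), so z^q = z for z in 𝔽 and for z in the range of e; T^q - T has at most q roots in κ and e is injective, so the range is exactly the set of roots. -/
theorem exists_emb (hV : Abw V w) : ∃ e : IsLocalRing.ResidueField (w.adicCompletionIntegers k) →+* IsLocalRing.ResidueField V,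
    (∀ x : k, w.valuation k x ≤ 1 → e (rk w x) = rs V (algebraMap k Ω x)) ∧
      ∀ z : IsLocalRing.ResidueField V, z ^ Ideal.absNorm w.asIdeal = z ↔ ∃ y, e y = z := by
  classical
  obtain ⟨hfin, hcard⟩ := H55B.residue_card k w
  let ψ : 𝓞 k →+* IsLocalRing.ResidueField (w.adicCompletionIntegers k) :=
    (IsLocalRing.residue (w.adicCompletionIntegers k)).comp (algebraMap (𝓞 k) (w.adicCompletionIntegers k))
  have hs : Function.Surjective ψ := H55B.residue_surj k w
  have hk : RingHom.ker ψ ≤ RingHom.ker (d3bb_psi V k) := by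
    intro a ha
    rw [H55B.residue_ker k w] at ha
    exact (d3bb_ker hV a).2 ha
  let e : IsLocalRing.ResidueField (w.adicCompletionIntegers k) →+* IsLocalRing.ResidueField V :=
    RingHom.liftOfSurjective ψ hs ⟨d3bb_psi V k, hk⟩
  have he : ∀ a : 𝓞 k, e (ψ a) = d3bb_psi V k a := fun a =>
    RingHom.liftOfRightInverse_comp_apply ψ _ _ ⟨d3bb_psi V k, hk⟩ a
  refine ⟨e, fun x hx => ?_, fun z => ?_⟩
  · obtain ⟨a, h1, h2⟩ := d3bb_cls hV hx
    rw [h1, h2]
    exact he a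
  · have hft := Fintype.ofFinite (IsLocalRing.ResidueField (w.adicCompletionIntegers k))
    have hc : Fintype.card (IsLocalRing.ResidueField (w.adicCompletionIntegers k)) = Ideal.absNorm w.asIdeal := by
      rw [← hcard, Nat.card_eq_fintype_card]
    have hq : 1 < Ideal.absNorm w.asIdeal := by
      rw [← hc]
      exact Fintype.one_lt_card
    have hr : ∀ y, (e y) ^ Ideal.absNorm w.asIdeal = e y := fun y => by
      rw [← map_pow, ← hc, FiniteField.pow_card]
    constructor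
    · intro hz
      have hP0 : (X ^ Ideal.absNorm w.asIdeal - X : (IsLocalRing.ResidueField V)[X]) ≠ 0 :=
        FiniteField.X_pow_card_sub_X_ne_zero _ hq
      have hmem : ∀ t : IsLocalRing.ResidueField V, t ^ Ideal.absNorm w.asIdeal = t →
          t ∈ (X ^ Ideal.absNorm w.asIdeal - X : (IsLocalRing.ResidueField V)[X]).roots.toFinset := by
        intro t ht
        rw [Multiset.mem_toFinset, Polynomial.mem_roots hP0, Polynomial.IsRoot.def, Polynomial.eval_sub,
          Polynomial.eval_pow, Polynomial.eval_X, ht, sub_self]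
      have hsub : Finset.univ.image e ⊆
          (X ^ Ideal.absNorm w.asIdeal - X : (IsLocalRing.ResidueField V)[X]).roots.toFinset := by
        intro t ht
        obtain ⟨y, _, rfl⟩ := Finset.mem_image.1 ht
        exact hmem _ (hr y)
      have hcd : (X ^ Ideal.absNorm w.asIdeal - X : (IsLocalRing.ResidueField V)[X]).roots.toFinset.card ≤
          (Finset.univ.image e).card := by
        rw [Finset.card_image_of_injective _ e.injective, Finset.card_univ, hc]
        refine (Multiset.toFinset_card_le _).trans ((Polynomial.card_roots' _).trans ?_)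
        rw [FiniteField.X_pow_card_sub_X_natDegree_eq _ hq]
      have heq := Finset.eq_of_subset_of_card_le hsub hcd
      have hz' := hmem z hz
      rw [← heq] at hz'
      obtain ⟨y, _, hy⟩ := Finset.mem_image.1 hz'
      exact ⟨y, hy⟩
    · rintro ⟨y, rfl⟩
      exact hr y

end H55G
end

-- from Lib.H55K.T11B
section

/-! # H55K: no p-torsion fixed by inertia at a bad prime -/

open NumberField IsDedekindDomain WeierstrassCurve

namespace H55K.TQ

open H55P (IQ embF eF LF Per IsHecke Pt ac Inert Dec Nm UnitP)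
open H35P (WAB Ker tt GoodW IntW)
open H55K.MG (VC Crd)

variable {F : Type} [Field F] [NumberField F] [IQ F] {W₀ : WeierstrassCurve (𝓞 F)} {Om : ℂ}
    {m : Ideal (𝓞 F)} {ψ : Ideal (𝓞 F) →*₀ 𝓞 F} {p : ℕ}

open Classical in
/-- Chunk T11B (M). Transport to WAB A B (an isomorphism of the groups of points over Ω commuting with ac: vc_short, MG.vc_iso, or PS4_iso in H55P/S4.lean, or H55K/Y6.lean sel_short for the style). Suppose T ≠ 0. By fix_from_one (exists_gmod in MM.lean; V(p) = 1 because v contains Δ, so not p) every s in K.fixingSubgroup with Inert V s fixes all points killed by p. As in T8 (good_down):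
for g with Inert V g, g^(p^k) is in L.fixingSubgroup (pow_fix), so in K.fixingSubgroup, and inertial; it fixes the points killed by p; fix_all: g does. nos_up, descent, good_of_V: GoodAt (W₀⁄F) v, against hH.bad. -/
theorem bad_tors (hH : BaseH F W₀ Om m ψ) (hp : PrimeH F W₀ p) {L K : IntermediateField F (AlgebraicClosure F)}
    (hL : H55P.PExt p ⊥ L) (hK : K ≤ L) {V : ValuationSubring (AlgebraicClosure F)} {v : HeightOneSpectrum (𝓞 F)}
    (hv : ∀ a : 𝓞 F, a ∈ v.asIdeal → V.valuation (ak (AlgebraicClosure F) a) < 1) (hΔ : W₀.Δ ∈ v.asIdeal)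
    (T : Pt (W₀⁄F) (AlgebraicClosure F)) (hT : p • T = 0)
    (hf : ∀ s ∈ K.fixingSubgroup, Inert V s → ac (W₀⁄F) s T = T) : T = 0 := by
  obtain ⟨A, hA⟩ : ∃ A : F, A = -(algebraMap (𝓞 F) F W₀.c₄) / 48 := ⟨_, rfl⟩
  obtain ⟨B, hB⟩ : ∃ B : F, B = -(algebraMap (𝓞 F) F W₀.c₆) / 864 := ⟨_, rfl⟩
  have hell := hH.data.ell
  have hd := y3_ne W₀ hA hB hell
  obtain ⟨j, hj⟩ := exists_j F (AlgebraicClosure F)
  have hper : Per F (embF F A) (embF F B) Om := by
    have e1 : embF F A = -(eF F W₀.c₄) / 48 := by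
      rw [hA, map_div₀, map_neg, map_ofNat]
      rfl
    have e2 : embF F B = -(eF F W₀.c₆) / 864 := by
      rw [hB, map_div₀, map_neg, map_ofNat]
      rfl
    rw [e1, e2]
    exact hH.data.per
  obtain ⟨act, hC⟩ := exists_CMA F A B Om j hd hper hj
  have hjint := jint_of hH.data.per hell
  obtain ⟨Kg, u, hG⟩ := exists_gmod (Ω := AlgebraicClosure F) hd (y3_j W₀ hA hB hjint) V
  have hunr := (unr_iff hp.prime).1 hp.unr
  have hpv : (p : 𝓞 F) ∉ v.asIdeal := by
    intro hpv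
    obtain ⟨x, hx, y, hy, hxy⟩ := Ideal.isCoprime_iff_exists.1 hp.cop
    have h1 : x ∈ v.asIdeal := (Ideal.span_singleton_le_iff_mem _).2 hΔ hx
    have h2 : y ∈ v.asIdeal := (Ideal.span_singleton_le_iff_mem _).2 hpv hy
    have h3 : (1 : 𝓞 F) ∈ v.asIdeal := hxy ▸ add_mem h1 h2
    exact v.isPrime.ne_top ((Ideal.eq_top_iff_one _).2 h3)
  have hVp : V.valuation (p : AlgebraicClosure F) = 1 := by
    have h1 := t8_val hv hpv
    have e : ak (AlgebraicClosure F) ((p : ℕ) : 𝓞 F) = (p : AlgebraicClosure F) := by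
      have e1 : (((p : ℕ) : 𝓞 F) : F) = (p : F) := map_natCast (algebraMap (𝓞 F) F) p
      unfold ak
      rw [e1, map_natCast]
    rwa [e] at h1
  have hΔA : (WAB A B).Δ ≠ 0 := by
    have e : (WAB A B).Δ = -16 * (4 * A ^ 3 + 27 * B ^ 2) := by
      unfold WAB WeierstrassCurve.Δ WeierstrassCurve.b₂ WeierstrassCurve.b₄ WeierstrassCurve.b₆ WeierstrassCurve.b₈
      ring
    rw [e]
    exact mul_ne_zero (by norm_num) hd
  obtain ⟨r, s, t, hVC⟩ := vc_short W₀ hA hB
  have hVC' := vc_map (algebraMap F (AlgebraicClosure F)) hVC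
  have hΔ1 : ((WAB A B).map (algebraMap F (AlgebraicClosure F))).Δ ≠ 0 := by
    rw [WeierstrassCurve.map_Δ]
    exact (map_ne_zero _).2 hΔA
  have hΔ2 : ((W₀⁄F).map (algebraMap F (AlgebraicClosure F))).Δ ≠ 0 := by
    have e : (W₀⁄F).Δ = algebraMap (𝓞 F) F W₀.Δ := WeierstrassCurve.map_Δ _ _
    rw [WeierstrassCurve.map_Δ, e]
    refine (map_ne_zero _).2 fun h1 => hell ?_
    exact (map_eq_zero_iff _ (FaithfulSMul.algebraMap_injective (𝓞 F) F)).1 h1
  obtain ⟨Θ, hΘ⟩ : ∃ Θ : Pt (WAB A B) (AlgebraicClosure F) ≃+ Pt (W₀⁄F) (AlgebraicClosure F),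
      Crd (algebraMap F (AlgebraicClosure F) 1) (algebraMap F (AlgebraicClosure F) r)
        (algebraMap F (AlgebraicClosure F) s) (algebraMap F (AlgebraicClosure F) t) Θ := MG.vc_iso hVC' hΔ1 hΔ2
  have hcom : ∀ (g : AlgebraicClosure F ≃ₐ[F] AlgebraicClosure F) (P : Pt (WAB A B) (AlgebraicClosure F)),
      ac (W₀⁄F) g (Θ P) = Θ (ac (WAB A B) g P) := by
    intro g P
    by_cases hP : P = 0
    · subst hP
      rw [map_zero, map_zero, map_zero, map_zero]
    · obtain ⟨a1, a2, a3⟩ := hΘ P hP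
      obtain ⟨b1, b2, b3⟩ := MG.ac_crd (W := WAB A B) g P
      have hP' : ac (WAB A B) g P ≠ 0 := fun h => hP (b3.1 h)
      obtain ⟨c1, c2, c3⟩ := hΘ _ hP'
      obtain ⟨d1, d2, d3⟩ := MG.ac_crd (W := W₀⁄F) g (Θ P)
      have e2 := congrArg g a2
      have e3 := congrArg g a3
      simp only [map_add, map_mul, map_pow, map_one, AlgEquiv.commutes, one_pow, one_mul, mul_one] at e2 e3 c2 c3
      have f2 : xc (ac (W₀⁄F) g (Θ P)) = xc (Θ (ac (WAB A B) g P)) := by
        rw [d1]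
        linear_combination c2 - e2 - b1
      refine pt_ext (fun h => a1 (d3.1 h)) c1 f2 ?_
      rw [d2]
      rw [d1] at f2
      linear_combination c3 - e3 - b2 - (algebraMap F (AlgebraicClosure F) s) * f2
  by_contra h0
  obtain ⟨T', hT'⟩ := Θ.surjective T
  have hT0 : T' ≠ 0 := by
    rintro rfl
    exact h0 (by rw [← hT', map_zero])
  have hTp : p • T' = 0 := by
    apply Θ.injective
    rw [map_nsmul, hT', hT, map_zero]
  obtain ⟨k, hk⟩ := pow_fix hL
  have hfix : ∀ g : AlgebraicClosure F ≃ₐ[F] AlgebraicClosure F, Inert V g →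
      ∀ P : Pt (WAB A B) (AlgebraicClosure F), p • P = 0 → ac (WAB A B) g P = P := by
    intro g hg P hP
    refine fix_all hC hp.prime hunr g (k := k) ?_ P hP
    intro P hP
    have hI : Inert V (g ^ (p ^ k)) := by
      have h1 : g ∈ H55P.inS F V := hg
      exact pow_mem h1 (p ^ k)
    refine fix_from_one hC hG hp.prime hp.five hVp (g ^ (p ^ k)) hI hTp hT0 ?_ P hP
    apply Θ.injective
    rw [← hcom, hT']
    refine hf _ ?_ hI
    exact (IntermediateField.mem_fixingSubgroup_iff K _).2 fun x hx =>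
      (IntermediateField.mem_fixingSubgroup_iff L _).1 (hk g) x (hK hx)
  obtain ⟨j₀, hj₀⟩ := hjint
  obtain ⟨j₁, hj₁⟩ := y3_j W₀ hA hB ⟨j₀, hj₀⟩
  have hc4 : (WAB A B).c₄ ^ 3 = (j₁ : F) * (WAB A B).Δ := by
    have e1 : (WAB A B).Δ = -16 * (4 * A ^ 3 + 27 * B ^ 2) := by
      unfold WAB WeierstrassCurve.Δ WeierstrassCurve.b₂ WeierstrassCurve.b₄ WeierstrassCurve.b₆ WeierstrassCurve.b₈
      ring
    have e2 : (WAB A B).c₄ = -48 * A := by
      unfold WAB WeierstrassCurve.c₄ WeierstrassCurve.b₂ WeierstrassCurve.b₄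
      ring
    rw [e1, e2]
    linear_combination (16 : F) * hj₁
  have hjj : ((WAB A B)⁄(AlgebraicClosure F)).c₄ ^ 3 = ak (AlgebraicClosure F) j₁ * ((WAB A B)⁄(AlgebraicClosure F)).Δ := by
    have e1 : ((WAB A B)⁄(AlgebraicClosure F)).c₄ = algebraMap F (AlgebraicClosure F) (WAB A B).c₄ :=
      WeierstrassCurve.map_c₄ _ _
    have e2 : ((WAB A B)⁄(AlgebraicClosure F)).Δ = algebraMap F (AlgebraicClosure F) (WAB A B).Δ :=
      WeierstrassCurve.map_Δ _ _
    rw [e1, e2, ← map_pow, hc4, map_mul]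
  have hdes := descent hv (nos_up hΔA (t8_le V j₁) hjj hp.prime hp.five hVp hTp hT0
    (fun g hg => hfix g hg T' hTp))
  exact hH.bad v hΔ (good_of_V W₀ hA hB v hv hdes)

end H55K.TQ
end

-- from Lib.SSG.Z.L9
section

/-! # SSG/Z, L9: the short equation and the complete data -/

open NumberField IsDedekindDomain WeierstrassCurve

namespace SSG

open H55P (IQ embF eF LF Per IsHecke Pt ac Inert Dec Nm CMData)
open H35P (WAB Ker tt)
open H55K H55K.TQ

/-- The complete data over the algebraic closure of F, with the values of A and B. -/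
theorem exists_dtaAB {F : Type} [Field F] [NumberField F] [IQ F] {W₀ : WeierstrassCurve (𝓞 F)} {Om : ℂ}
    {m : Ideal (𝓞 F)} {ψ : Ideal (𝓞 F) →*₀ 𝓞 F} {p : ℕ} [DecidableEq (AlgebraicClosure F)] (hH : BaseH F W₀ Om m ψ) (hp : PrimeH F W₀ p) :
    ∃ (A B : F) (j : AlgebraicClosure F →+* ℂ) (act : 𝓞 F →+* AddMonoid.End (Pt (WAB A B) (AlgebraicClosure F))),
      A = -(algebraMap (𝓞 F) F W₀.c₄) / 48 ∧ B = -(algebraMap (𝓞 F) F W₀.c₆) / 864 ∧ Dta A B Om j act m ψ p := by
  have hB := base_of hH hp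
  obtain ⟨j, hj⟩ := exists_j F (AlgebraicClosure F)
  obtain ⟨A, hA⟩ : ∃ A : F, A = -(algebraMap (𝓞 F) F W₀.c₄) / 48 := ⟨_, rfl⟩
  obtain ⟨B, hB'⟩ : ∃ B : F, B = -(algebraMap (𝓞 F) F W₀.c₆) / 864 := ⟨_, rfl⟩
  have hd := y3_ne W₀ hA hB' hB.data.ell
  have hper : Per F (embF F A) (embF F B) Om := by
    have e1 : embF F A = -(eF F W₀.c₄) / 48 := by
      rw [hA, map_div₀, map_neg, map_ofNat]
      rfl
    have e2 : embF F B = -(eF F W₀.c₆) / 864 := by
      rw [hB', map_div₀, map_neg, map_ofNat]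
      rfl
    rw [e1, e2]
    exact hB.data.per
  obtain ⟨act, hact⟩ := exists_CMA F A B Om j hd hper hj
  have hG : ∀ V : ValuationSubring (AlgebraicClosure F),
      ∃ (Kg : AddSubgroup (Pt (WAB A B) (AlgebraicClosure F))) (u : AlgebraicClosure F),
        GMod (WAB A B) V Kg u := fun V => exists_gmod hd (y3_j W₀ hA hB' hB.jint) V
  exact ⟨A, B, j, act, hA, hB', mk_Dta hB hA hB' hact hG⟩

/-- The equivariant isomorphism with the short equation. -/
theorem short_iso {F : Type} [Field F] [NumberField F] (W₀ : WeierstrassCurve (𝓞 F)) {A B : F}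
    (hA : A = -(algebraMap (𝓞 F) F W₀.c₄) / 48) (hB : B = -(algebraMap (𝓞 F) F W₀.c₆) / 864)
    (hΔ : W₀.Δ ≠ 0) {Ω : Type} [Field Ω] [DecidableEq Ω] [Algebra F Ω] :
    ∃ Θ : Pt (W₀⁄F) Ω ≃+ Pt (WAB A B) Ω, ∀ (s : Ω ≃ₐ[F] Ω) (P : Pt (W₀⁄F) Ω), Θ (ac (W₀⁄F) s P) = ac (WAB A B) s (Θ P) := by
  obtain ⟨W, hW⟩ : ∃ W : WeierstrassCurve F, W = (W₀⁄F) := ⟨_, rfl⟩
  have hc4 : W.c₄ = algebraMap (𝓞 F) F W₀.c₄ := by
    rw [hW]
    exact W₀.map_c₄ (algebraMap (𝓞 F) F)
  have hc6 : W.c₆ = algebraMap (𝓞 F) F W₀.c₆ := by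
    rw [hW]
    exact W₀.map_c₆ (algebraMap (𝓞 F) F)
  have hWΔ : W.Δ ≠ 0 := by
    rw [hW]
    intro h0
    apply hΔ
    have h1 : (W₀⁄F).Δ = algebraMap (𝓞 F) F W₀.Δ := W₀.map_Δ (algebraMap (𝓞 F) F)
    rw [h1] at h0
    exact (map_eq_zero_iff _ (IsFractionRing.injective (𝓞 F) F)).1 h0
  rw [← hc4] at hA
  rw [← hc6] at hB
  have D : H55P.PS4_D W (WAB A B) ((W.a₂ + (W.a₁ / 2) ^ 2) / 3) (W.a₁ / 2) (W.a₃ / 2) := by
    refine ⟨rfl, rfl, rfl, ?_, ?_, ?_, ?_, ?_⟩
    · field_simp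
    · field_simp
    · field_simp
    · show A = _
      rw [hA, WeierstrassCurve.c₄, WeierstrassCurve.b₂, WeierstrassCurve.b₄]
      ring
    · show B = _ - A * _
      rw [hB, hA, WeierstrassCurve.c₄, WeierstrassCurve.c₆, WeierstrassCurve.b₂, WeierstrassCurve.b₄, WeierstrassCurve.b₆]
      ring
  have hd := y6_delta D
  have i1 : W.IsElliptic := ⟨isUnit_iff_ne_zero.2 hWΔ⟩
  have i2 : (WAB A B).IsElliptic := ⟨isUnit_iff_ne_zero.2 (by rw [hd]; exact hWΔ)⟩
  have i3 : (W⁄Ω).IsElliptic := inferInstanceAs (W.map (algebraMap F Ω)).IsElliptic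
  have i4 : ((WAB A B)⁄Ω).IsElliptic := inferInstanceAs ((WAB A B).map (algebraMap F Ω)).IsElliptic
  rw [← hW]
  refine ⟨H55P.PS4_iso (H55P.PS4_map (Ω := Ω) D), ?_⟩
  intro f P
  rcases P with _ | ⟨x, y, h'⟩
  · rfl
  · have e1 : f (algebraMap F Ω ((W.a₂ + (W.a₁ / 2) ^ 2) / 3)) = algebraMap F Ω ((W.a₂ + (W.a₁ / 2) ^ 2) / 3) :=
      f.commutes _
    have e2 : f (algebraMap F Ω (W.a₁ / 2)) = algebraMap F Ω (W.a₁ / 2) := f.commutes _
    have e3 : f (algebraMap F Ω (W.a₃ / 2)) = algebraMap F Ω (W.a₃ / 2) := f.commutes _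
    change Affine.Point.some _ _ _ = Affine.Point.some _ _ _
    rw [Affine.Point.some.injEq]
    constructor
    · change f x + algebraMap F Ω ((W.a₂ + (W.a₁ / 2) ^ 2) / 3) = f (x + algebraMap F Ω ((W.a₂ + (W.a₁ / 2) ^ 2) / 3))
      rw [map_add, e1]
    · change f y + algebraMap F Ω (W.a₁ / 2) * f x + algebraMap F Ω (W.a₃ / 2) =
        f (y + algebraMap F Ω (W.a₁ / 2) * x + algebraMap F Ω (W.a₃ / 2))
      rw [map_add, map_add, map_mul, e2, e3]

open Classical in
/-- Equivariantly isomorphic curves have isomorphic systems. -/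
theorem equiv_card {F : Type} [Field F] {W₁ W₂ : WeierstrassCurve F} {Ω : Type} [Field Ω] [Algebra F Ω] (Θ : Pt W₁ Ω ≃+ Pt W₂ Ω)
    (hΘ : ∀ (s : Ω ≃ₐ[F] Ω) (P : Pt W₁ Ω), Θ (ac W₁ s P) = ac W₂ s (Θ P)) (H : Subgroup (Ω ≃ₐ[F] Ω)) {p : ℕ} (hp : p.Prime) :
    Nat.card (PP p ((galS W₁ Ω).res H).Sha) = Nat.card (PP p ((galS W₂ Ω).res H).Sha) := by
  have h1 : Hom ((galS W₁ Ω).res H) ((galS W₂ Ω).res H) (MonoidHom.id H) Θ.toAddMonoidHom :=
    ⟨fun g a => hΘ g a, fun u hu => ⟨u, hu, fun g hg => hg⟩, fun d hd => ⟨d, hd, fun g hg => hg⟩⟩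
  have h2 : Hom ((galS W₂ Ω).res H) ((galS W₁ Ω).res H) (MonoidHom.id H) Θ.symm.toAddMonoidHom := by
    refine ⟨fun g a => ?_, fun u hu => ⟨u, hu, fun g hg => hg⟩, fun d hd => ⟨d, hd, fun g hg => hg⟩⟩
    apply Θ.injective
    show Θ (Θ.symm (ac W₂ (g : Ω ≃ₐ[F] Ω) a)) = Θ (ac W₁ (g : Ω ≃ₐ[F] Ω) (Θ.symm a))
    rw [Θ.apply_symm_apply, hΘ, Θ.apply_symm_apply]
  refine Hom.card hp (m := 1) (fun h => hp.one_lt.ne' (Nat.dvd_one.1 h)) h1 h2 (fun _ => rfl) (fun _ => rfl) (fun a => ?_) (fun a => ?_)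
  · rw [one_smul]
    exact Θ.symm_apply_apply a
  · rw [one_smul]
    exact Θ.apply_symm_apply a

end SSG
end

-- from Lib.H13X.XCB
section

/-! # H13X: port of H13Y/YCB -/

open NumberField IsDedekindDomain WeierstrassCurve

namespace H13X

open H55P (IQ embF eF LF Per IsHecke Pt ac Inert Dec Nm Coc)
open H35P (WAB Ker tt)
open H55K (Tor ak xc yc CMA Dta GV GMod cj cj_cj mul_cj cj_prime cj_dvd cj_nat Nm_cj Nm_mul Nm_nat)
open H55K.S
open H13S (Abv)





variable {F : Type} [Field F] [NumberField F] [IQ F] {A B : F} {Om : ℂ} {Ω : Type} [Field Ω] [DecidableEq Ω]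
  [Algebra F Ω] [IsAlgClosure F Ω] {j : Ω →+* ℂ} {act : 𝓞 F →+* AddMonoid.End (Pt (WAB A B) Ω)} {mo : Ideal (𝓞 F)}
  {ψ : Ideal (𝓞 F) →*₀ 𝓞 F}

variable {π : 𝓞 F} {l : ℕ} {N : IntermediateField F Ω} {V : ValuationSubring Ω} {c : (Ω ≃ₐ[F] Ω) → Pt (WAB A B) Ω}

theorem lcb_l (D : Dat A B Om j act mo ψ π l) {P : Pt (WAB A B) Ω} (hP : P ∈ Tor act (cj π)) : l • P = 0 := by
  obtain ⟨u, hu⟩ := D.dvd
  have h1 : (l : 𝓞 F) = cj u * cj π := by
    have h2 := congrArg cj hu
    rw [cj_nat, map_mul] at h2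
    rw [h2, mul_comm]
  have h3 : act (cj π) P = 0 := mem_Tor.1 hP
  rw [← act_nat (act := act), h1, act_mul, h3, map_zero]

/-- A cocycle on the decomposition group which vanishes on the inertia elements fixing Tor pi and Tor (cj pi) is a coboundary on inertia. -/
theorem cob_inert (D : Dat A B Om j act mo ψ π l) (hc : Dc act π N V c)
    (h : ∀ s ∈ N.fixingSubgroup, JV act π V s → c s = 0) :
    ∃ X ∈ Tor act (cj π), ∀ s ∈ N.fixingSubgroup, Inert V s → c s = ac (WAB A B) s X - X := by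
  obtain ⟨N₁, hN₁, hn₁, hd₁, h0₁⟩ := stab_index D.cma π D.pr
  obtain ⟨N₂, hN₂, hn₂, hd₂, h0₂⟩ := stab_index D.cma (cj π) (cj_prime D.pr)
  have hlN : l ∣ Nm π := CO2_Nm D.hl D.pr D.dvd
  have hN0 : Nm π ≠ 0 := fun h => D.pr.ne_zero (H55P.Nm_eq_zero.1 h)
  rw [Nm_cj] at hd₂
  have hidx : (N₁ ⊓ N₂).index = N₁.relIndex N₂ * N₂.index := by
    rw [← Subgroup.relIndex_mul_index (inf_le_right : N₁ ⊓ N₂ ≤ N₂), Subgroup.inf_relIndex_right]
  have hrel : N₁.relIndex N₂ ∣ N₁.index := Subgroup.relIndex_dvd_index_of_normal N₁ N₂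
  have hcop : l.Coprime (N₁ ⊓ N₂).index := by
    rw [hidx]
    exact Nat.Coprime.mul_right (CO2_cop D.hl hlN hN0 (hrel.trans hd₁)) (CO2_cop D.hl hlN hN0 hd₂)
  have hne : (N₁ ⊓ N₂).index ≠ 0 := by
    rw [hidx]
    refine mul_ne_zero (fun h => h0₁ ?_) h0₂
    rw [h] at hrel
    exact Nat.eq_zero_of_zero_dvd hrel
  let I : Subgroup (Ω ≃ₐ[F] Ω) :=
    { carrier := {s | Inert V s ∧ s ∈ N.fixingSubgroup}
      mul_mem' := fun hs ht => ⟨lcb_mul hs.1 ht.1, mul_mem hs.2 ht.2⟩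
      one_mem' := ⟨lcb_one, one_mem _⟩
      inv_mem' := fun hs => ⟨lcb_inv hs.1, inv_mem hs.2⟩ }
  have hI : ∀ s : I, Inert V s.1 := fun s => s.2.1
  have hID : ∀ s : I, DecN N V s.1 := fun s => ⟨s.2.2, Inert.dec s.2.1⟩
  have hdvd : (N₁ ⊓ N₂).relIndex I ∣ (N₁ ⊓ N₂).index := Subgroup.relIndex_dvd_index_of_normal _ _
  have hcop' : l.Coprime ((N₁ ⊓ N₂).subgroupOf I).index := Nat.Coprime.coprime_dvd_right hdvd hcop
  have hne' : ((N₁ ⊓ N₂).subgroupOf I).index ≠ 0 := by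
    intro h1
    have h2 : (N₁ ⊓ N₂).relIndex I = 0 := h1
    rw [h2] at hdvd
    exact hne (Nat.eq_zero_of_zero_dvd hdvd)
  have hvan : ∀ n ∈ (N₁ ⊓ N₂).subgroupOf I, c n.1 = 0 := by
    intro s hs
    rw [Subgroup.mem_subgroupOf] at hs
    obtain ⟨hs₁, hs₂⟩ := Subgroup.mem_inf.1 hs
    rw [hN₁] at hs₁
    rw [hN₂] at hs₂
    exact h s.1 (hID s).1 ⟨hI s, hs₁, hs₂⟩
  obtain ⟨X, hX, hX2⟩ := H13S.cob_of_vanish (G := I) (fun s => (ac (WAB A B) s.1 : Pt (WAB A B) Ω →+ Pt (WAB A B) Ω))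
    (fun s t P => ac_mul s.1 t.1 P) (fun s => c s.1)
    (fun s t => hc.mul s.1 (hID s) t.1 (hID t))
    ((N₁ ⊓ N₂).subgroupOf I) hne' hvan l hcop' (fun s => lcb_l D (hc.val s.1 (hID s))) (Tor act (cj π))
    (fun s => hc.val s.1 (hID s))
  exact ⟨X, hX, fun s hs hs2 => hX2 ⟨s, hs2, hs⟩⟩


/-- From cocycles and Kummer generators over a field B₀ to the local notions. -/
theorem dc_of_cc {B₀ : IntermediateField F Ω} (hc : Cc act π B₀ c) (hB : ∀ s, DecN N V s → s ∈ B₀.fixingSubgroup) :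
    Dc act π N V c :=
  ⟨fun s hs t ht => hc.mul s (hB s hs) t (hB t ht), fun s hs => hc.val s (hB s hs)⟩

theorem ks_of_kum {B₀ L : IntermediateField F Ω} (hL : IsTB act π B₀ L)
    (hB : ∀ s, DecN N V s → s ∈ B₀.fixingSubgroup) {e : Pt (WAB A B) Ω → Pt (WAB A B) Ω → Ω} {y : Pt (WAB A B) Ω → Ω}
    (hy : ∀ T ∈ Tor act π, Kum L e c T (y T)) : KS act π N V e c y :=
  ⟨fun T hT => (hy T hT).1, fun T hT s hs => (hy T hT).2 s ((hL.fix s).2 ⟨hB s hs.1, hs.2⟩)⟩

/-- The two local reductions: on inertia to zero, then ramified torsion. If c vanishes on the inertia elements over N fixing Tor π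
and Tor (cj π), and some inertia element over N has no fixed point, then c is the coboundary of a point of Tor (cj π). -/
theorem cob_ram (D : Dat A B Om j act mo ψ π l) (hc : Dc act π N V c)
    (h : ∀ s ∈ N.fixingSubgroup, JV act π V s → c s = 0)
    (hσ : ∃ s ∈ N.fixingSubgroup, Inert V s ∧ ∀ T ∈ Tor act (cj π), ac (WAB A B) s T = T → T = 0) :
    ∃ X ∈ Tor act (cj π), ∀ s, DecN N V s → c s = ac (WAB A B) s X - X := by
  obtain ⟨X, hX, h1⟩ := cob_inert D hc h
  refine ⟨X, hX, fun s hs => ?_⟩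
  have h2 := cob_dec_ram (hc.sub_cob D.cma hX) (fun s hsN hs => by
    show c s - (ac (WAB A B) s X - X) = 0
    rw [h1 s hsN hs, sub_self]) hσ s hs
  exact sub_eq_zero.1 h2

/-- Elements of JV fix the l-th roots of unity. -/
theorem JV.mu (D : Dat A B Om j act mo ψ π l) {e : Pt (WAB A B) Ω → Pt (WAB A B) Ω → Ω} (he : Pairing A B act π l e)
    {s : Ω ≃ₐ[F] Ω} (hs : JV act π V s) (ζ : Ω) (hζ : ζ ^ l = 1) : s ζ = ζ := by
  have hpr := cj_prime D.pr
  obtain ⟨-, X, hX, -, hX0⟩ := gi_gen D.cma (cj π) hpr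
  have hXne : X ≠ 0 := by
    intro h0
    apply hpr.not_unit
    rw [isUnit_iff_dvd_one]
    apply (hX0 1).1
    rw [h0, map_zero]
  have hex : ∃ T ∈ Tor act π, e X T ≠ 1 := by
    by_contra hcon
    push Not at hcon
    exact hXne (he.nondeg X hX hcon)
  obtain ⟨T, hT, hne1⟩ := hex
  have hroot := he.root X hX T hT
  have hprim : IsPrimitiveRoot (e X T) l := by
    have h1 : Fact l.Prime := ⟨D.hl⟩
    rw [← orderOf_eq_prime hroot hne1]
    exact IsPrimitiveRoot.orderOf _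
  have hfix : s (e X T) = e X T := by
    rw [he.gal s _ hX T hT, hs.2.2 _ hX, hs.2.1 T hT]
  have hl0 : NeZero l := ⟨D.hl.ne_zero⟩
  obtain ⟨i, -, hi⟩ := hprim.eq_pow_of_pow_eq_one hζ
  rw [← hi, map_pow, hfix]

end H13X
end

-- from Lib.H13Z.LI
section

open NumberField IsDedekindDomain

namespace H13Z

open H55P H28G H55B H13S

variable {Ω : Type} [Field Ω] [DecidableEq Ω] [Algebra F Ω] [IsAlgClosure F Ω]

variable {β : O} {V : ValuationSubring Ω}

theorem li_zpow {Γ : Type} [LinearOrderedCommGroupWithZero Γ] {r : Γ} (h0 : r ≠ 0) (h1 : r < 1) (k : ℤ) {n : ℕ}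
    (hn : 2 ≤ n) : (r ^ k) ^ n ≠ r := by
  intro h
  have h2 : r ^ (k * (n : ℤ)) = r ^ (1 : ℤ) := by
    rw [zpow_mul, zpow_natCast, zpow_one, h]
  have h3 := zpow_right_injective₀ (zero_lt_iff.2 h0) h1.ne h2
  have h4 : (n : ℤ) ∣ 1 := ⟨k, by rw [mul_comm]; exact h3.symm⟩
  have h5 := Int.le_of_dvd one_pos h4
  omega

/-- the value of the parameter of a point fixed by inertia -/
theorem li_val (hβ : Prime β) (hV : vo V β < 1) {P : P27 Ω} (hP : Kr V P) (h0 : P ≠ 0)
    (h : ∀ s : Ω ≃ₐ[F] Ω, Inert V s → ac W27 s P = P) : ∃ k : ℤ, V.valuation (tt P) = vo V β ^ k := by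
  have ht : tt P ≠ 0 := fun hc => h0 ((kr_tt_zero V hP).1 hc)
  have hfix : ∀ s ∈ (⊥ : IntermediateField F Ω).fixingSubgroup, Inert V s → s (tt P) = tt P := by
    intro s _ hs
    rw [← qv_tt, h s hs]
  have hnf : NumberField (⊥ : IntermediateField F Ω) := NumberField.of_module_finite F _
  obtain ⟨a, ha0, ha⟩ := value_fixed (⊥ : IntermediateField F Ω) V (tt P) ht hfix
  obtain ⟨b, hb⟩ := IntermediateField.mem_bot.1 a.2
  have hb0 : b ≠ 0 := by
    rintro rfl
    rw [map_zero] at hb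
    exact ha0 (Subtype.ext hb.symm)
  rw [ha, ← hb]
  exact qv_intpow V hβ hV b hb0

/-- Chunk LI1 (S/M). T₁ ≠ 0 in Tor β (gi_gen). If all inertia elements fixed all points of Tor β then tt T₁ would be fixed by the inertia group: value_fixed for K = ⊥ and qv_intpow: V (tt T₁) = (V β)^n; V (tt T₁)^(Nm β - 1) = V β (kr_tor_ram), so n (Nm β - 1) = 1, impossible. no_fix. -/
theorem moved_ram (hβ : Prime β) (h3 : Prim β) (hN : 4 ≤ H55B.Nm β) (hV : vo V β < 1) :
    ∃ s : Ω ≃ₐ[F] Ω, Inert V s ∧ ∀ T ∈ Tor β Ω, ac W27 s T = T → T = 0 := by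
  have key : ∃ s : Ω ≃ₐ[F] Ω, Inert V s ∧ ∃ T ∈ Tor β Ω, ac W27 s T ≠ T := by
    by_contra hcon
    push Not at hcon
    obtain ⟨-, T, hT, -, hT0⟩ := gi_gen (Ω := Ω) β hβ h3
    have hTne : T ≠ 0 := by
      intro h0
      apply hβ.not_isUnit
      rw [isUnit_iff_dvd_one]
      apply (hT0 1).1
      rw [h0, map_zero]
    obtain ⟨hK, hv⟩ := kr_tor_ram β hβ h3 V hV hT hTne
    obtain ⟨k, hk⟩ := li_val hβ hV hK hTne (fun s hs => hcon s hs T hT)
    rw [hk] at hv
    exact li_zpow (qv_pos V hβ.ne_zero) hV k (by omega) hv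
  obtain ⟨s, hs, h⟩ := key
  exact ⟨s, hs, fun T hT hTs => no_fix hβ h3 h hT hTs⟩


/-- Chunk LN (S/M). P - X would be fixed by the inertia group, V (tt (P - X)) = V (tt P) (H13S.val_ratio with R = -X, if X ≠ 0), and it is a power of V β (value_fixed for K = ⊥, qv_intpow; tt ≠ 0): n * Nm β = 1, impossible. -/
theorem pt_nontriv (hβ : Prime β) (h3 : Prim β) (hN : 4 ≤ H55B.Nm β) (hV : vo V β < 1) {P : P27 Ω} (hP : Kr V P)
    (hv : V.valuation (tt P) ^ H55B.Nm β = vo V β) :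
    ¬ ∃ X ∈ Tor β Ω, ∀ s : Ω ≃ₐ[F] Ω, Inert V s → ac W27 s P - P = ac W27 s X - X := by
  rintro ⟨X, hX, h⟩
  have hfix : ∀ s : Ω ≃ₐ[F] Ω, Inert V s → ac W27 s (P - X) = P - X := by
    intro s hs
    have h1 := h s hs
    rw [map_sub, sub_eq_sub_iff_sub_eq_sub.1 h1]
  have hval : Kr V (P - X) ∧ V.valuation (tt (P - X)) = V.valuation (tt P) := by
    by_cases h0 : X = 0
    · rw [h0, sub_zero]
      exact ⟨hP, rfl⟩
    · have hnX : -X ∈ Tor β Ω := neg_mem hX
      have hn0 : -X ≠ 0 := neg_ne_zero.2 h0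
      rw [sub_eq_add_neg]
      exact ⟨kr_add V hP (kr_tor_ram β hβ h3 V hV hnX hn0).1,
        (val_ratio hβ h3 (by omega) V hV P hP hv (-X) hnX hn0).1⟩
  have hβ0 := qv_pos V hβ.ne_zero
  have hne : P - X ≠ 0 := by
    intro hc
    have h1 := hval.2
    rw [hc, gia_tt0, map_zero] at h1
    rw [← h1, zero_pow (by omega)] at hv
    exact hβ0 hv.symm
  obtain ⟨k, hk⟩ := li_val hβ hV hval.1 hne hfix
  rw [← hval.2, hk] at hv
  exact li_zpow hβ0 hV k (by omega) hv

end H13Z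
end

-- from Lib.H13X.XI
section

/-! # H13X: port of H13Z/LI -/

open NumberField IsDedekindDomain WeierstrassCurve

namespace H13X

open H55P (IQ embF eF LF Per IsHecke Pt ac Inert Dec Nm Coc)
open H35P (WAB Ker tt)
open H55K (Tor ak xc yc CMA Dta GV GMod cj cj_cj mul_cj cj_prime cj_dvd cj_nat Nm_cj Nm_mul Nm_nat)
open H55K.S
open H13S (Abv)




variable {F : Type} [Field F] [NumberField F] [IQ F] {A B : F} {Om : ℂ} {Ω : Type} [Field Ω] [DecidableEq Ω]
  [Algebra F Ω] [IsAlgClosure F Ω] {j : Ω →+* ℂ} {act : 𝓞 F →+* AddMonoid.End (Pt (WAB A B) Ω)} {mo : Ideal (𝓞 F)}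
  {ψ : Ideal (𝓞 F) →*₀ 𝓞 F}

variable {β : 𝓞 F} {V : ValuationSubring Ω}

/-- the value of the parameter of a point fixed by inertia -/
theorem li_val (hA : CMA F A B Om j act) (hG : GV A B V) (hβ : Prime β) (hV : vo V β < 1) {P : Pt (WAB A B) Ω} (hP : Ker V P) (h0 : P ≠ 0)
    (h : ∀ s : Ω ≃ₐ[F] Ω, Inert V s → ac (WAB A B) s P = P) : ∃ k : ℤ, V.valuation (tt P) = vo V β ^ k := by
  have ht : tt P ≠ 0 := fun hc => h0 ((kr_tt_zero hG hP).1 hc)
  have hfix : ∀ s ∈ (⊥ : IntermediateField F Ω).fixingSubgroup, Inert V s → s (tt P) = tt P := by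
    intro s _ hs
    rw [← tt_ac, h s hs]
  have hnf : NumberField (⊥ : IntermediateField F Ω) := NumberField.of_module_finite F _
  obtain ⟨a, ha0, ha⟩ := H13S.value_fixed (⊥ : IntermediateField F Ω) V (tt P) ht hfix
  obtain ⟨b, hb⟩ := IntermediateField.mem_bot.1 a.2
  have hb0 : b ≠ 0 := by
    rintro rfl
    rw [map_zero] at hb
    exact ha0 (Subtype.ext hb.symm)
  rw [ha, ← hb]
  exact qv_intpow V hβ hV b hb0

/-- Chunk LI1 (S/M). T₁ ≠ 0 in Tor β (gi_gen). If all inertia elements fixed all points of Tor β then tt T₁ would be fixed by the inertia group: H13S.value_fixed for K = ⊥ and qv_intpow: V (tt T₁) = (V β)^n; V (tt T₁)^(Nm β - 1) = V β (kr_tor_ram), so n (Nm β - 1) = 1, impossible. no_fix. -/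
theorem moved_ram (hA : CMA F A B Om j act) (hG : GV A B V) (hβ : Prime β) (hN : 4 ≤ Nm β) (hV : vo V β < 1) :
    ∃ s : Ω ≃ₐ[F] Ω, Inert V s ∧ ∀ T ∈ Tor act β, ac (WAB A B) s T = T → T = 0 := by
  have key : ∃ s : Ω ≃ₐ[F] Ω, Inert V s ∧ ∃ T ∈ Tor act β, ac (WAB A B) s T ≠ T := by
    by_contra hcon
    push Not at hcon
    obtain ⟨-, T, hT, -, hT0⟩ := gi_gen hA β hβ
    have hTne : T ≠ 0 := by
      intro h0
      apply hβ.not_isUnit
      rw [isUnit_iff_dvd_one]
      apply (hT0 1).1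
      rw [h0, map_zero]
    obtain ⟨hK, hv⟩ := kr_tor_ram hA hG β hβ hV hT hTne
    obtain ⟨k, hk⟩ := li_val hA hG hβ hV hK hTne (fun s hs => hcon s hs T hT)
    rw [hk] at hv
    exact H13Z.li_zpow (vo_ne V hβ.ne_zero) hV k (by omega) hv
  obtain ⟨s, hs, h⟩ := key
  exact ⟨s, hs, fun T hT hTs => no_fix hA hβ h hT hTs⟩

/-- Chunk LN (S/M). P - X would be fixed by the inertia group, V (tt (P - X)) = V (tt P) (H13S.val_ratio with R = -X, if X ≠ 0), and it is a power of V β (H13S.value_fixed for K = ⊥, qv_intpow; tt ≠ 0): n * Nm β = 1, impossible. -/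
theorem pt_nontriv (hA : CMA F A B Om j act) (hG : GV A B V) (hβ : Prime β) (hN : 4 ≤ Nm β) (hV : vo V β < 1) {P : Pt (WAB A B) Ω} (hP : Ker V P)
    (hv : V.valuation (tt P) ^ Nm β = vo V β) :
    ¬ ∃ X ∈ Tor act β, ∀ s : Ω ≃ₐ[F] Ω, Inert V s → ac (WAB A B) s P - P = ac (WAB A B) s X - X := by
  rintro ⟨X, hX, h⟩
  have hfix : ∀ s : Ω ≃ₐ[F] Ω, Inert V s → ac (WAB A B) s (P - X) = P - X := by
    intro s hs
    have h1 := h s hs
    rw [map_sub, sub_eq_sub_iff_sub_eq_sub.1 h1]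
  have hval : Ker V (P - X) ∧ V.valuation (tt (P - X)) = V.valuation (tt P) := by
    by_cases h0 : X = 0
    · rw [h0, sub_zero]
      exact ⟨hP, rfl⟩
    · have hnX : -X ∈ Tor act β := neg_mem hX
      have hn0 : -X ≠ 0 := neg_ne_zero.2 h0
      rw [sub_eq_add_neg]
      exact ⟨kr_add hG hP (kr_tor_ram hA hG β hβ hV hnX hn0).1,
        (val_ratio hA hβ (by omega) V hG hV P hP hv (-X) hnX hn0).1⟩
  have hβ0 := vo_ne V hβ.ne_zero
  have hne : P - X ≠ 0 := by
    intro hc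
    have h1 := hval.2
    rw [hc, tt_zero, map_zero] at h1
    rw [← h1, zero_pow (by omega)] at hv
    exact hβ0 hv.symm
  obtain ⟨k, hk⟩ := li_val hA hG hβ hV hval.1 hne hfix
  rw [← hval.2, hk] at hv
  exact H13Z.li_zpow hβ0 hV k (by omega) hv

end H13X
end

-- from Lib.SSG.S.D1
section

/-! # SSG, part S (E4), D: norms modulo p^N -/

open NumberField IsDedekindDomain

namespace SSG.S

open H55N H55P SSG.E

variable {F : Type} [Field F] [NumberField F] [IQ F] {K : Type} [Field K] [NumberField K] [Algebra F K]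

/-! Chunk D1 (S/M). PROOF of d1_nrm. nrm x = natAbs of Algebra.norm ℤ x = absNorm (span {x}) (Ideal.absNorm_span_singleton) = Nm x (H55P.Nm: unfold), and x * cj x = Nm x in 𝓞 F
(H55K.mul_cj, cj the complex conjugation of 𝓞 F, a ring homomorphism). So p^N divides x cj x - y cj y = (nrm x - nrm y : an integer) in 𝓞 F, hence in ℤ
(an integer n divisible by p^N in 𝓞 F: n/p^N is rational and integral; see H55K.pz_dvd or Algebra.norm, or (Int.cast_dvd_cast) style lemma in H55K: e.g. cj_nat / `natCast_dvd`);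
ZMod.intCast_eq_intCast_iff / natCast_eq_natCast_iff.
PROOF of d1_abs. absNorm (span {x}) = absNorm (relNorm (span {x})) (Ideal.absNorm_relNorm) = absNorm (span {n}), n = Algebra.intNorm (𝓞 F) (𝓞 K) x (Ideal.relNorm_singleton), = nrm n.
hC.nm x n (Algebra.algebraMap_intNorm) : mk n = prod of r k x = prod of mk (cr r x k) (Quotient.out: Ideal.Quotient.mk_out) = mk (prod of cr r x k), so p^N divides n - prod cr
(Ideal.Quotient.eq, mem_span_singleton); d1_nrm and multiplicativity of nrm (Algebra.norm, Int.natAbs multiplicative; map_prod). -/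

omit [IQ F] in
theorem d1_eq (x : 𝓞 F) : SSG.nrm x = Nm x := by
  unfold SSG.nrm Nm
  rw [Ideal.absNorm_span_singleton]

omit [IQ F] in
theorem d1_mul {ι : Type} (s : Finset ι) (f : ι → 𝓞 F) : SSG.nrm (∏ i ∈ s, f i) = ∏ i ∈ s, SSG.nrm (f i) := by
  unfold SSG.nrm
  rw [map_prod]
  exact map_prod Int.natAbsHom _ s

omit [IQ F] in
/-- An integer which is an algebraic multiple. -/
theorem d1_pz {l : ℕ} (hl : l ≠ 0) {t : 𝓞 F} {n : ℤ} (h : (l : 𝓞 F) * t = (n : 𝓞 F)) : ∃ t' : ℤ, t = (t' : 𝓞 F) := by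
  have h1 : (t : F) = algebraMap ℚ F ((n : ℚ) / (l : ℚ)) := by
    have h2 := congrArg (fun z : 𝓞 F => (z : F)) h
    simp only [map_mul, map_natCast, map_intCast] at h2
    have h3 : (l : F) ≠ 0 := Nat.cast_ne_zero.2 hl
    rw [map_div₀, map_intCast, map_natCast, eq_div_iff h3, mul_comm]
    exact h2
  have h2 : IsIntegral ℤ ((n : ℚ) / (l : ℚ)) := by
    have h3 : IsIntegral ℤ (t : F) := RingOfIntegers.isIntegral_coe t
    rw [h1] at h3
    exact (isIntegral_algebraMap_iff (algebraMap ℚ F).injective).1 h3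
  obtain ⟨y, hy⟩ := IsIntegrallyClosed.isIntegral_iff.1 h2
  refine ⟨y, ?_⟩
  apply RingOfIntegers.coe_injective
  refine Eq.trans (b := (t : F)) rfl (h1.trans ?_)
  rw [← hy]
  simp

theorem d1_nrm {p N : ℕ} {x y : 𝓞 F} (h : (p : 𝓞 F) ^ N ∣ x - y) :
    ((SSG.nrm x : ℕ) : ZMod (p ^ N)) = ((SSG.nrm y : ℕ) : ZMod (p ^ N)) := by
  by_cases hp : p ^ N = 0
  · have h1 : (p : 𝓞 F) ^ N = 0 := by
      rw [← Nat.cast_pow, hp, Nat.cast_zero]
    rw [h1, zero_dvd_iff, sub_eq_zero] at h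
    rw [h]
  · obtain ⟨t, ht⟩ := h
    have hx := H55K.mul_cj x
    have hy := H55K.mul_cj y
    have hc : H55K.cj x - H55K.cj y = (p : 𝓞 F) ^ N * H55K.cj t := by
      rw [← map_sub, ht, map_mul, map_pow, H55K.cj_nat]
    have h1 : ((p ^ N : ℕ) : 𝓞 F) * (x * H55K.cj t + t * H55K.cj y) = (((Nm x : ℤ) - (Nm y : ℤ) : ℤ) : 𝓞 F) := by
      push_cast
      rw [← hx, ← hy]
      have e1 : (p : 𝓞 F) ^ N * (x * H55K.cj t + t * H55K.cj y) =
          x * ((p : 𝓞 F) ^ N * H55K.cj t) + ((p : 𝓞 F) ^ N * t) * H55K.cj y := by ring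
      rw [e1, ← hc, ← ht]
      ring
    obtain ⟨t', ht'⟩ := d1_pz hp h1
    rw [ht'] at h1
    have h2 : ((p ^ N : ℕ) : ℤ) * t' = (Nm x : ℤ) - (Nm y : ℤ) := by
      exact_mod_cast h1
    rw [d1_eq, d1_eq]
    have h3 : ((Nm y : ℤ) : ZMod (p ^ N)) = ((Nm x : ℤ) : ZMod (p ^ N)) := by
      rw [ZMod.intCast_eq_intCast_iff_dvd_sub]
      exact ⟨t', h2.symm⟩
    push_cast at h3
    exact h3.symm

theorem d1_abs {p m N : ℕ} {v : Fin (m + 1) → HeightOneSpectrum (𝓞 K)} {r : Fin (m + 1) → 𝓞 K →+* RN F p N}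
    (hC : Crd p N v r) (x : 𝓞 K) :
    ((Ideal.absNorm (Ideal.span {x}) : ℕ) : ZMod (p ^ N)) = ∏ k, ((SSG.nrm (cr r x k) : ℕ) : ZMod (p ^ N)) := by
  obtain ⟨n, hn⟩ : ∃ n : 𝓞 F, n = Algebra.intNorm (𝓞 F) (𝓞 K) x := ⟨_, rfl⟩
  have h1 : Ideal.absNorm (Ideal.span {x}) = SSG.nrm n := by
    rw [← Ideal.absNorm_relNorm (𝓞 F) (𝓞 K) (Ideal.span {x}), Ideal.relNorm_singleton, ← hn, Ideal.absNorm_span_singleton]
    rfl
  have h2 : Algebra.norm F (x : K) = (n : F) := by
    rw [hn]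
    exact (Algebra.algebraMap_intNorm (A := 𝓞 F) (K := F) (L := K) (B := 𝓞 K) x).symm
  have h3 := hC.nm x n h2
  have h4 : ∏ k, r k x = Ideal.Quotient.mk (Ideal.span {(p : 𝓞 F) ^ N}) (∏ k, cr r x k) := by
    rw [map_prod]
    exact Finset.prod_congr rfl fun k _ => (Ideal.Quotient.mk_out (r k x)).symm
  rw [h4, Ideal.Quotient.eq, Ideal.mem_span_singleton] at h3
  rw [h1, d1_nrm h3, d1_mul, Nat.cast_prod]

end SSG.S
end

-- from Lib.H13X.XP0
section

/-! # H13X: port of H13Z/LP -/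

open NumberField IsDedekindDomain WeierstrassCurve

namespace H13X

open H55P (IQ embF eF LF Per IsHecke Pt ac Inert Dec Nm Coc)
open H35P (WAB Ker tt)
open H55K (Tor ak xc yc CMA Dta GV GMod cj cj_cj mul_cj cj_prime cj_dvd cj_nat Nm_cj Nm_mul Nm_nat)
open H55K.S
open H13S (Abv)




variable {F : Type} [Field F] [NumberField F] [IQ F] {A B : F} {Om : ℂ} {Ω : Type} [Field Ω] [DecidableEq Ω]
  [Algebra F Ω] [IsAlgClosure F Ω] {j : Ω →+* ℂ} {act : 𝓞 F →+* AddMonoid.End (Pt (WAB A B) Ω)} {mo : Ideal (𝓞 F)}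
  {ψ : Ideal (𝓞 F) →*₀ 𝓞 F}

variable {V : ValuationSubring Ω}

theorem lp_fix (s : Ω ≃ₐ[F] Ω) {P : Pt (WAB A B) Ω} (hx : s (xc P) = xc P) (hy : s (yc P) = yc P) : ac (WAB A B) s P = P := by
  by_cases hP : P = 0
  · rw [hP, map_zero]
  · refine pt_ext (ac_ne s hP) hP ?_ ?_
    · rw [xc_ac, hx]
    · rw [yc_ac, hy]

theorem lp_adj (s : Ω ≃ₐ[F] Ω) (P : Pt (WAB A B) Ω)
    (hs : s ∈ (IntermediateField.adjoin F {xc P, yc P}).fixingSubgroup) : ac (WAB A B) s P = P := by
  rw [IntermediateField.mem_fixingSubgroup_iff] at hs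
  refine lp_fix s (hs _ ?_) (hs _ ?_)
  · exact IntermediateField.subset_adjoin F _ (by simp)
  · exact IntermediateField.subset_adjoin F _ (by simp)

theorem lp_fin (P : Pt (WAB A B) Ω) : FiniteDimensional F (IntermediateField.adjoin F {xc P, yc P}) := by
  have hal : Algebra.IsAlgebraic F Ω := IsAlgClosure.isAlgebraic
  have hfin : Finite ({xc P, yc P} : Set Ω) := Set.Finite.to_subtype (Set.toFinite _)
  exact IntermediateField.finiteDimensional_adjoin fun x _ => (hal.isAlgebraic x).isIntegral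

theorem lp_adjoin (s : Ω ≃ₐ[F] Ω) (S : Set Ω) (h : ∀ x ∈ S, s x = x) :
    s ∈ (IntermediateField.adjoin F S).fixingSubgroup := by
  rw [IntermediateField.mem_fixingSubgroup_iff]
  intro x hx
  induction hx using IntermediateField.adjoin_induction with
  | mem x hx => exact h x hx
  | algebraMap a => exact s.commutes a
  | add x y _ _ hx hy => rw [map_add, hx, hy]
  | inv x _ hx => rw [map_inv₀, hx]
  | mul x y _ _ hx hy => rw [map_mul, hx, hy]

/-- The root of B w^3 + A t w^2 - w + t^3 in the maximal ideal. -/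
theorem xp_root (hG : GV A B V) {t : Ω} (ht0 : t ≠ 0) (ht : V.valuation t < 1) :
    ∃ w : Ω, w = t ^ 3 + algebraMap F Ω A * t * w ^ 2 + algebraMap F Ω B * w ^ 3 ∧ V.valuation w < 1 ∧ w ≠ 0 := by
  have hac : IsAlgClosed Ω := IsAlgClosure.isAlgClosed F
  let C : Cubic Ω := ⟨t ^ 3, -1, algebraMap F Ω A * t, algebraMap F Ω B⟩
  have ha : C.a ≠ 0 := pow_ne_zero 3 ht0
  have hs : (C.toPoly.map (RingHom.id Ω)).Splits := IsAlgClosed.splits _
  obtain ⟨x, y, z, h3⟩ := (Cubic.splits_iff_roots_eq_three (φ := RingHom.id Ω) ha).1 hs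
  have hb := Cubic.b_eq_three_roots (φ := RingHom.id Ω) ha h3
  change (-1 : Ω) = t ^ 3 * -(x + y + z) at hb
  have hroot : ∀ r ∈ ({x, y, z} : Multiset Ω), t ^ 3 * r ^ 3 - r ^ 2 + algebraMap F Ω A * t * r + algebraMap F Ω B = 0 := by
    intro r hr
    rw [← h3, Cubic.map_roots, Polynomial.mem_roots_map_of_injective (RingHom.id Ω).injective (Cubic.ne_zero_of_a_ne_zero ha)] at hr
    have h4 : t ^ 3 * r ^ 3 + -1 * r ^ 2 + algebraMap F Ω A * t * r + algebraMap F Ω B = 0 := by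
      simpa [Cubic.toPoly, C] using hr
    linear_combination h4
  have hmax : ∃ r ∈ ({x, y, z} : Multiset Ω), 1 < V.valuation r := by
    by_contra hcon
    push Not at hcon
    have h4 : V.valuation (x + y + z) ≤ 1 := by
      refine (V.valuation.map_add _ _).trans (max_le ((V.valuation.map_add _ _).trans (max_le ?_ ?_)) ?_)
      · exact hcon x (by simp)
      · exact hcon y (by simp)
      · exact hcon z (by simp)
    have h5 : t ^ 3 * (x + y + z) = 1 := by linear_combination hb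
    have h6 : V.valuation (t ^ 3 * (x + y + z)) < 1 := by
      rw [map_mul, map_pow]
      exact (mul_le_of_le_one_right' h4).trans_lt (pow_lt_one₀ zero_le ht (by norm_num))
    rw [h5, map_one] at h6
    exact lt_irrefl _ h6
  obtain ⟨r, hr, hr1⟩ := hmax
  have hr0 : r ≠ 0 := by
    rintro rfl
    rw [map_zero] at hr1
    exact absurd hr1 (not_lt.2 zero_le)
  refine ⟨r⁻¹, ?_, ?_, inv_ne_zero hr0⟩
  · have h4 := hroot r hr
    field_simp
    linear_combination -h4
  · rw [map_inv₀]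
    exact inv_lt_one_of_one_lt₀ hr1

/-- Its uniqueness. -/
theorem xp_uniq (hG : GV A B V) {t w w' : Ω} (ht : V.valuation t < 1)
    (h : w = t ^ 3 + algebraMap F Ω A * t * w ^ 2 + algebraMap F Ω B * w ^ 3) (hw : V.valuation w < 1)
    (h' : w' = t ^ 3 + algebraMap F Ω A * t * w' ^ 2 + algebraMap F Ω B * w' ^ 3) (hw' : V.valuation w' < 1) :
    w = w' := by
  have hA1 : V.valuation (algebraMap F Ω A) ≤ 1 := (V.valuation_le_one_iff _).2 hG.a
  have hB1 : V.valuation (algebraMap F Ω B) ≤ 1 := (V.valuation_le_one_iff _).2 hG.b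
  have e1 : (w - w') * (1 - (algebraMap F Ω A * t * (w + w') + algebraMap F Ω B * (w ^ 2 + w * w' + w' ^ 2))) = 0 := by
    linear_combination h - h'
  rcases mul_eq_zero.1 e1 with h2 | h2
  · exact sub_eq_zero.1 h2
  · exfalso
    have h3 : V.valuation (algebraMap F Ω A * t * (w + w') + algebraMap F Ω B * (w ^ 2 + w * w' + w' ^ 2)) < 1 := by
      refine (V.valuation.map_add _ _).trans_lt (max_lt ?_ ?_)
      · rw [map_mul, map_mul]
        have h4 : V.valuation (w + w') ≤ 1 := (V.valuation.map_add _ _).trans (max_le hw.le hw'.le)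
        exact (mul_le_of_le_one_right' h4).trans_lt ((mul_le_of_le_one_left' hA1).trans_lt ht)
      · rw [map_mul]
        refine (mul_le_of_le_one_left' hB1).trans_lt ?_
        refine (V.valuation.map_add _ _).trans_lt (max_lt ((V.valuation.map_add _ _).trans_lt (max_lt ?_ ?_)) ?_)
        · rw [map_pow]
          exact pow_lt_one₀ zero_le hw (by norm_num)
        · rw [map_mul]
          exact (mul_le_of_le_one_right' hw'.le).trans_lt hw
        · rw [map_pow]
          exact pow_lt_one₀ zero_le hw' (by norm_num)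
    rw [← sub_eq_zero.1 h2, map_one] at h3
    exact lt_irrefl _ h3

/-- A point in the kernel of reduction with a given parameter in N, defined over the decomposition field over N. -/
theorem local_ptt (hA : CMA F A B Om j act) (hG : GV A B V) {N : IntermediateField F Ω} [FiniteDimensional F N]
    {t : Ω} (htN : t ∈ N) (ht0 : t ≠ 0) (ht : V.valuation t < 1) :
    ∃ (Q : Pt (WAB A B) Ω) (B₀ : IntermediateField F Ω), FiniteDimensional F B₀ ∧
      (∀ s : Ω ≃ₐ[F] Ω, DecN N V s → s ∈ B₀.fixingSubgroup) ∧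
      (∀ s ∈ B₀.fixingSubgroup, ac (WAB A B) s Q = Q) ∧ Ker V Q ∧ tt Q = t := by
  have hal : Algebra.IsAlgebraic F Ω := IsAlgClosure.isAlgebraic
  obtain ⟨w, hw, hw1, hw0⟩ := xp_root hG ht0 ht
  have heq : (1 / w) ^ 2 = (t / w) ^ 3 + algebraMap F Ω A * (t / w) + algebraMap F Ω B := by
    field_simp
    linear_combination hw
  have hd : algebraMap F Ω (4 * A ^ 3 + 27 * B ^ 2) ≠ 0 := (map_ne_zero _).2 hA.disc
  have hΔ : ((WAB A B)⁄Ω).Δ ≠ 0 := by
    rw [H55K.s_Δ, H55K.base_a4, H55K.base_a6]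
    have hch : CharZero Ω := charZero_of_injective_algebraMap (algebraMap F Ω).injective
    refine mul_ne_zero (by norm_num) ?_
    rw [map_add, map_mul, map_mul, map_pow, map_pow] at hd
    intro h
    apply hd
    rw [← h]
    simp only [map_ofNat]
  obtain ⟨Q, hQ0, hQx, hQy⟩ := H55K.exists_pt (W := (WAB A B)⁄Ω) hΔ (x := t / w) (y := 1 / w) (by
    rw [H55K.base_a4, H55K.base_a6]
    exact heq)
  have htQ : tt Q = t := by
    rw [H55K.tt_eq, hQx, hQy]
    field_simp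
  have hVw : V.valuation w = V.valuation t ^ 3 := by
    have hA1 : V.valuation (algebraMap F Ω A) ≤ 1 := (V.valuation_le_one_iff _).2 hG.a
    have hB1 : V.valuation (algebraMap F Ω B) ≤ 1 := (V.valuation_le_one_iff _).2 hG.b
    have hw00 : 0 < V.valuation w := zero_lt_iff.2 ((map_ne_zero _).2 hw0)
    have h1 : V.valuation (algebraMap F Ω A * t * w ^ 2 + algebraMap F Ω B * w ^ 3) < V.valuation w := by
      have e : algebraMap F Ω A * t * w ^ 2 + algebraMap F Ω B * w ^ 3 =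
          (algebraMap F Ω A * t * w + algebraMap F Ω B * w ^ 2) * w := by ring
      rw [e, map_mul]
      refine mul_lt_of_lt_one_left hw00 ?_
      refine (V.valuation.map_add _ _).trans_lt (max_lt ?_ ?_)
      · rw [map_mul, map_mul]
        exact (mul_le_of_le_one_right' hw1.le).trans_lt ((mul_le_of_le_one_left' hA1).trans_lt ht)
      · rw [map_mul, map_pow]
        exact (mul_le_of_le_one_left' hB1).trans_lt (pow_lt_one₀ zero_le hw1 (by norm_num))
    have e2 : t ^ 3 = w - (algebraMap F Ω A * t * w ^ 2 + algebraMap F Ω B * w ^ 3) := by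
      linear_combination -hw
    rw [← map_pow, e2, Valuation.map_sub_eq_of_lt_left _ h1]
  have htV : 0 < V.valuation t := zero_lt_iff.2 ((map_ne_zero _).2 ht0)
  have hsw : ∀ s : Ω ≃ₐ[F] Ω, DecN N V s → s w = w := by
    intro s hs
    have hst : s t = t := (IntermediateField.mem_fixingSubgroup_iff N s).1 hs.1 t htN
    have h7 := congrArg s hw
    rw [map_add, map_add, map_mul, map_mul, map_mul, map_pow, map_pow, map_pow, hst, s.commutes, s.commutes] at h7
    exact xp_uniq hG ht h7 ((Dec.lt_one hs.2 w).2 hw1) hw hw1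
  have hfd : FiniteDimensional F (IntermediateField.adjoin F {w}) :=
    IntermediateField.adjoin.finiteDimensional (hal.isAlgebraic w).isIntegral
  refine ⟨Q, N ⊔ IntermediateField.adjoin F {w}, inferInstance, ?_, ?_, ?_, htQ⟩
  · intro s hs
    rw [IntermediateField.fixingSubgroup_sup, Subgroup.mem_inf]
    refine ⟨hs.1, lp_adjoin s _ ?_⟩
    intro x hx
    rw [Set.mem_singleton_iff] at hx
    rw [hx]
    exact hsw s hs
  · intro s hs
    rw [IntermediateField.fixingSubgroup_sup, Subgroup.mem_inf] at hs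
    have h5 : s w = w := (IntermediateField.mem_fixingSubgroup_iff _ s).1 hs.2 w
      (IntermediateField.mem_adjoin_simple_self F w)
    have h6 : s t = t := (IntermediateField.mem_fixingSubgroup_iff _ s).1 hs.1 t htN
    refine lp_fix s ?_ ?_
    · rw [hQx, map_div₀, h5, h6]
    · rw [hQy, map_div₀, map_one, h5]
  · rw [H55K.ker_iff V hQ0, hQx, map_div₀, hVw]
    rw [lt_div_iff₀ (pow_pos htV 3), one_mul]
    exact pow_lt_self_of_lt_one₀ htV ht (by norm_num)

/-- Chunk LP2 (M). act_div: act β P = Q. P in Ker V: otherwise P ≠ 0 and V (xc P) ≤ 1, kr_kron: V (xc Q) ≤ 1, Q ≠ 0 (tt Q ≠ 0), against Ker V Q. q = Nm β, τ = V (tt R) for R ≠ 0 in Tor β, τ^(q-1) = V β (kr_tor_ram). The points P + R are in Ker V (kr_add, kr_tor_ram). kr_prod: the product of the V (tt (P + R)) over R in Tor β (q points) is V (tt Q) = V β.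
If V (tt P) > τ: V (tt (P + R)) = V (tt P) for all R (kr_tt_add with c = V (tt P) < 1: c^2 < c), so V (tt P)^q = V β. If V (tt P) ≤ τ: V (tt (P + R)) ≤ τ for all R (kr_tt_add, c = τ), so V β ≤ τ^q = V β * τ < V β: contradiction. -/
theorem div_pt (hA : CMA F A B Om j act) (hG : GV A B V) {β : 𝓞 F} (hβ : Prime β) (hN : 4 ≤ Nm β) (hV : vo V β < 1) {Q : Pt (WAB A B) Ω}
    (hQ : Ker V Q) (hv : V.valuation (tt Q) = vo V β) :
    ∃ P : Pt (WAB A B) Ω, act β P = Q ∧ Ker V P ∧ V.valuation (tt P) ^ Nm β = vo V β := by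
  have hβ0 : vo V β ≠ 0 := by
    have h1 : algebraMap F Ω (β : F) ≠ 0 := by
      intro h
      have h2 : (β : F) = 0 := (map_eq_zero _).1 h
      exact hβ.ne_zero (by exact_mod_cast h2)
    simpa [vo] using h1
  obtain ⟨P, hP⟩ := hA.surj β hβ.ne_zero Q
  have hQ0 : Q ≠ 0 := by
    rintro rfl
    rw [tt_zero, map_zero] at hv
    exact hβ0 hv.symm
  have hK : Ker V P := by
    apply na_red hA hG hβ hV 1
    rw [pow_one, hP]
    exact hQ
  refine ⟨P, hP, hK, ?_⟩
  have hcard : Nat.card (Tor act β) = Nm β := (gi_gen hA β hβ).1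
  have hfin : Finite (Tor act β) := Nat.finite_of_card_ne_zero (by rw [hcard]; omega)
  have hfi : Fintype (Tor act β) := Fintype.ofFinite _
  have hcard' : (Finset.univ : Finset (Tor act β)).card = Nm β := by
    rw [Finset.card_univ, ← Nat.card_eq_fintype_card, hcard]
  have hprod := kr_prod hA hG β hβ hV hK
  rw [hP, hv, finprod_eq_prod_of_fintype] at hprod
  have hKR : ∀ R : Tor act β, Ker V (R : Pt (WAB A B) Ω) := by
    intro R
    by_cases h0 : (R : Pt (WAB A B) Ω) = 0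
    · rw [h0]
      exact trivial
    · exact (kr_tor_ram hA hG β hβ hV R.2 h0).1
  have hP0 : P ≠ 0 := by
    rintro rfl
    rw [map_zero] at hP
    exact hQ0 hP.symm
  have htP : tt P ≠ 0 := fun h => hP0 ((kr_tt_zero hG hK).1 h)
  have hc0 : 0 < V.valuation (tt P) := zero_lt_iff.2 ((Valuation.ne_zero_iff _).2 htP)
  have hc1 : V.valuation (tt P) < 1 := kr_tt_lt hG hK
  by_cases hcase : ∀ R : Tor act β, V.valuation (tt (R : Pt (WAB A B) Ω)) < V.valuation (tt P)
  · have h1 : ∀ R ∈ (Finset.univ : Finset (Tor act β)), V.valuation (tt (P + (R : Pt (WAB A B) Ω))) = V.valuation (tt P) := by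
      intro R _
      have h2 := kr_tt_add hG hK (hKR R) (V.valuation (tt P)) le_rfl (hcase R).le
      have h4 : V.valuation (tt P) ^ 2 < V.valuation (tt P) := pow_lt_self_of_lt_one₀ hc0 hc1 (by norm_num)
      have e : tt (P + (R : Pt (WAB A B) Ω)) = ((tt (P + (R : Pt (WAB A B) Ω)) - tt P - tt (R : Pt (WAB A B) Ω)) + tt (R : Pt (WAB A B) Ω)) + tt P := by
        ring
      rw [e]
      refine V.valuation.map_add_eq_of_lt_right ?_
      exact lt_of_le_of_lt (V.valuation.map_add _ _) (max_lt (lt_of_le_of_lt h2 h4) (hcase R))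
    rw [Finset.prod_congr rfl h1, Finset.prod_const, hcard'] at hprod
    exact hprod
  · exfalso
    rw [not_forall] at hcase
    obtain ⟨R₀, hR₀⟩ := hcase
    rw [not_lt] at hR₀
    have h0 : (R₀ : Pt (WAB A B) Ω) ≠ 0 := by
      intro h
      rw [h, tt_zero, map_zero] at hR₀
      exact absurd hR₀ (not_le.2 hc0)
    obtain ⟨-, hτ⟩ := kr_tor_ram hA hG β hβ hV R₀.2 h0
    have hτ1 : V.valuation (tt (R₀ : Pt (WAB A B) Ω)) < 1 := kr_tt_lt hG (hKR R₀)
    have hRle : ∀ R : Tor act β, V.valuation (tt (R : Pt (WAB A B) Ω)) ≤ V.valuation (tt (R₀ : Pt (WAB A B) Ω)) := by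
      intro R
      by_cases hR : (R : Pt (WAB A B) Ω) = 0
      · rw [hR, tt_zero, map_zero]
        exact zero_le
      · obtain ⟨-, h5⟩ := kr_tor_ram hA hG β hβ hV R.2 hR
        by_contra hlt
        rw [not_le] at hlt
        have hn : Nm β - 1 ≠ 0 := by omega
        have h6 := pow_lt_pow_left₀ hlt zero_le hn
        rw [hτ, h5] at h6
        exact lt_irrefl _ h6
    have h1 : ∀ R ∈ (Finset.univ : Finset (Tor act β)), V.valuation (tt (P + (R : Pt (WAB A B) Ω))) ≤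
        V.valuation (tt (R₀ : Pt (WAB A B) Ω)) := by
      intro R _
      have h2 := kr_tt_add hG hK (hKR R) (V.valuation (tt (R₀ : Pt (WAB A B) Ω))) hR₀ (hRle R)
      have h4 : V.valuation (tt (R₀ : Pt (WAB A B) Ω)) ^ 2 ≤ V.valuation (tt (R₀ : Pt (WAB A B) Ω)) :=
        pow_le_of_le_one zero_le hτ1.le (by norm_num)
      have e : tt (P + (R : Pt (WAB A B) Ω)) = ((tt (P + (R : Pt (WAB A B) Ω)) - tt P - tt (R : Pt (WAB A B) Ω)) + tt (R : Pt (WAB A B) Ω)) + tt P := by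
        ring
      rw [e]
      exact (V.valuation.map_add _ _).trans (max_le ((V.valuation.map_add _ _).trans
        (max_le (h2.trans h4) (hRle R))) hR₀)
    have h2 := Finset.prod_le_pow_card _ _ _ h1
    rw [hprod, hcard'] at h2
    have h5 : V.valuation (tt (R₀ : Pt (WAB A B) Ω)) ^ Nm β = vo V β * V.valuation (tt (R₀ : Pt (WAB A B) Ω)) := by
      rw [← hτ, ← pow_succ]
      congr 1
      omega
    rw [h5] at h2
    have h6 : vo V β * V.valuation (tt (R₀ : Pt (WAB A B) Ω)) < vo V β * 1 :=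
      mul_lt_mul_of_pos_left hτ1 (zero_lt_iff.2 hβ0)
    rw [mul_one] at h6
    exact absurd h2 (not_le.2 h6)

/-- Chunk LP3 (S). s → s P - P is a cocycle with values in Tor (cj π) on the group of B₀ if act (cj π) P is fixed by it. Continuous: N = adjoin F {xc P, yc P}. -/
theorem cc_pt (hA : CMA F A B Om j act) {π : 𝓞 F} {B₀ : IntermediateField F Ω} {P : Pt (WAB A B) Ω}
    (hP : ∀ s ∈ B₀.fixingSubgroup, ac (WAB A B) s (act (cj π) P) = act (cj π) P) :
    Cc act π B₀ fun s => ac (WAB A B) s P - P := by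
  refine ⟨fun s _ t _ => ?_, ?_, fun s hs => ?_⟩
  · rw [ac_mul, map_sub]
    abel
  · refine ⟨IntermediateField.adjoin F {xc P, yc P}, lp_fin P, fun s _ hs => ?_⟩
    rw [lp_adj s P hs, sub_self]
  · rw [mem_Tor, map_sub, ← ac_act hA, hP s hs, sub_self]

end H13X
end

-- from Lib.H13X.XP
section

/-! # H13X: port of H13Y/YP -/

open NumberField IsDedekindDomain WeierstrassCurve

namespace H13X

open H55P (IQ embF eF LF Per IsHecke Pt ac Inert Dec Nm Coc)
open H35P (WAB Ker tt)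
open H55K (Tor ak xc yc CMA Dta GV GMod cj cj_cj mul_cj cj_prime cj_dvd cj_nat Nm_cj Nm_mul Nm_nat)
open H55K.S
open H13S (Abv)





variable {F : Type} [Field F] [NumberField F] [IQ F] {A B : F} {Om : ℂ} {Ω : Type} [Field Ω] [DecidableEq Ω]
  [Algebra F Ω] [IsAlgClosure F Ω] {j : Ω →+* ℂ} {act : 𝓞 F →+* AddMonoid.End (Pt (WAB A B) Ω)} {mo : Ideal (𝓞 F)}
  {ψ : Ideal (𝓞 F) →*₀ 𝓞 F}

variable {π : 𝓞 F} {l : ℕ} {N : IntermediateField F Ω} {V : ValuationSubring Ω} {e : Pt (WAB A B) Ω → Pt (WAB A B) Ω → Ω}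

theorem local_ptu (hA : CMA F A B Om j act) (hG : GV A B V) [FiniteDimensional F N] (hl : l.Prime)
    (hV : V.valuation (l : Ω) < 1) {u : Ω} (hu : u ∈ N) (hu1 : V.valuation u = 1) :
    ∃ (Q : Pt (WAB A B) Ω) (B₀ : IntermediateField F Ω), FiniteDimensional F B₀ ∧
      (∀ s : Ω ≃ₐ[F] Ω, DecN N V s → s ∈ B₀.fixingSubgroup) ∧
      (∀ s ∈ B₀.fixingSubgroup, ac (WAB A B) s Q = Q) ∧ Ker V Q ∧ tt Q = l * u := by
  have hch : CharZero Ω := charZero_of_injective_algebraMap (algebraMap F Ω).injective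
  refine local_ptt hA hG (mul_mem (natCast_mem N l) hu) ?_ ?_
  · refine mul_ne_zero (Nat.cast_ne_zero.2 hl.ne_zero) ?_
    rintro rfl
    rw [map_zero] at hu1
    exact zero_ne_one hu1
  · rw [map_mul, hu1, mul_one]
    exact hV

/-- The norm of π. -/
theorem xp_nm (D : Dat A B Om j act mo ψ π l) : 4 ≤ Nm π ∧ 4 ≤ Nm (cj π) := by
  have h1 := H55K.k10_arith D.hl D.five D.pr D.dvd
  rw [Nm_cj]
  omega

/-- Chunk YP2 (S). div_pt gives P₁ with act β P₁ = act β P; P = P₁ + R, R in Tor β; R = 0 or kr_tor_ram, kr_add, val_ratio. -/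
theorem div_any (hA : CMA F A B Om j act) (hG : GV A B V) {β : 𝓞 F} (hβ : Prime β) (hN : 4 ≤ Nm β) (hV : vo V β < 1) {P : Pt (WAB A B) Ω}
    (hQ : Ker V (act β P)) (hv : V.valuation (tt (act β P)) = vo V β) :
    Ker V P ∧ V.valuation (tt P) ^ Nm β = vo V β := by
  obtain ⟨P₁, h1, h2, h4⟩ := div_pt hA hG hβ hN hV hQ hv
  have hR : P - P₁ ∈ Tor act β := by
    rw [mem_Tor, map_sub, h1, sub_self]
  by_cases h0 : P - P₁ = 0
  · rw [sub_eq_zero.1 h0]
    exact ⟨h2, h4⟩
  · have e : P = P₁ + (P - P₁) := by abel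
    rw [e]
    refine ⟨kr_add hG h2 (kr_tor_ram hA hG β hβ hV hR h0).1, ?_⟩
    rw [(val_ratio hA hβ (by omega) V hG hV P₁ h2 h4 (P - P₁) hR h0).1]
    exact h4

/-- Chunk YP3 (S/M). Ker V (-Q') and V (tt (-Q') + tt Q') ≤ V (tt Q')^2 (kr_act, kr_tt_act with a = -1, act_neg/act (-1) = neg), kr_add, kr_tt_add with c = V l: V (tt Q), V (tt Q') ≤ V l. So tt (Q - Q') = l (u - u') modulo elements of value < V l (V l^2 < V l). -/
theorem tt_diff (hA : CMA F A B Om j act) (hG : GV A B V) {Q Q' : Pt (WAB A B) Ω} (hQ : Ker V Q) (hQ' : Ker V Q') (hl0 : V.valuation (l : Ω) ≠ 0)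
    (hl : V.valuation (l : Ω) < 1) {u u' : Ω} (hu : V.valuation u ≤ 1) (hu' : V.valuation u' ≤ 1)
    (h : V.valuation (tt Q - l * u) < V.valuation (l : Ω))
    (h' : V.valuation (tt Q' - l * u') < V.valuation (l : Ω)) (hd : V.valuation (u - u') = 1) :
    Ker V (Q - Q') ∧ V.valuation (tt (Q - Q')) = V.valuation (l : Ω) := by
  have hlp : 0 < V.valuation (l : Ω) := zero_lt_iff.2 hl0
  have hsq : V.valuation (l : Ω) ^ 2 < V.valuation (l : Ω) :=
    pow_lt_self_of_lt_one₀ hlp hl (by norm_num)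
  have hle : ∀ (R : Pt (WAB A B) Ω) (v : Ω), V.valuation v ≤ 1 →
      V.valuation (tt R - l * v) < V.valuation (l : Ω) →
      V.valuation (tt R) ≤ V.valuation (l : Ω) := by
    intro R v hv h1
    have e : tt R = (tt R - l * v) + l * v := by ring
    rw [e]
    refine (V.valuation.map_add _ _).trans (max_le h1.le ?_)
    rw [map_mul]
    exact mul_le_of_le_one_right' hv
  have hn : act (-1 : 𝓞 F) Q' = -Q' := by rw [act_neg, act_one]
  have hK' : Ker V (-Q') := by
    rw [← hn]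
    exact kr_act hA hG _ hQ'
  have hm := kr_tt_act hA hG (-1 : 𝓞 F) hQ'
  have h1m : ak Ω (-1 : 𝓞 F) = -1 := by
    have e : (((-1 : 𝓞 F) : 𝓞 F) : F) = -1 := rfl
    show algebraMap F Ω (((-1 : 𝓞 F) : 𝓞 F) : F) = -1
    rw [e, map_neg, map_one]
  rw [hn, h1m] at hm
  have hQl := hle Q u hu h
  have hQ'l := hle Q' u' hu' h'
  have hm2 : V.valuation (tt (-Q') - -1 * tt Q') ≤ V.valuation (l : Ω) ^ 2 :=
    hm.trans (pow_le_pow_left' hQ'l 2)
  have hnQ' : V.valuation (tt (-Q')) ≤ V.valuation (l : Ω) := by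
    have e : tt (-Q') = (tt (-Q') - -1 * tt Q') - tt Q' := by ring
    rw [e]
    exact (V.valuation.map_sub _ _).trans (max_le (hm2.trans hsq.le) hQ'l)
  have ha := kr_tt_add hG hQ hK' (V.valuation (l : Ω)) hQl hnQ'
  rw [← sub_eq_add_neg] at ha
  refine ⟨by rw [sub_eq_add_neg]; exact kr_add hG hQ hK', ?_⟩
  have e : tt (Q - Q') = ((((tt (Q - Q') - tt Q - tt (-Q')) +
      (tt (-Q') - -1 * tt Q')) + (tt Q - l * u)) - (tt Q' - l * u')) +
      l * (u - u') := by ring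
  have hv : V.valuation ((l : Ω) * (u - u')) = V.valuation (l : Ω) := by
    rw [map_mul, hd, mul_one]
  rw [e, ← hv]
  refine V.valuation.map_add_eq_of_lt_right ?_
  rw [hv]
  exact V.valuation.map_sub_lt (V.valuation.map_add_lt (V.valuation.map_add_lt (ha.trans_lt hsq)
    (hm2.trans_lt hsq)) h) h'

/-- Chunk YP4 (S). tt_diff for Q = act (cj π) P, Q' = act (cj π) P'; act (cj π) (P - P') = Q - Q'; div_any with β = cj π (LL1_prime_cj, LL1_prim_cj, LL1_nm), pt_nontriv for P - P'. -/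
theorem pt_diff (D : Dat A B Om j act mo ψ π l) (hG : GV A B V) (hV : vo V (cj π) < 1) (hl : V.valuation (l : Ω) = vo V (cj π))
    {P P' : Pt (WAB A B) Ω} {u u' : Ω} (hu : V.valuation u ≤ 1) (hu' : V.valuation u' ≤ 1)
    (hQ : Ker V (act (cj π) P)) (hQ' : Ker V (act (cj π) P'))
    (h : V.valuation (tt (act (cj π) P) - l * u) < V.valuation (l : Ω))
    (h' : V.valuation (tt (act (cj π) P') - l * u') < V.valuation (l : Ω))
    (hd : V.valuation (u - u') = 1) :
    ¬ ∃ X ∈ Tor act (cj π), ∀ s : Ω ≃ₐ[F] Ω, Inert V s →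
      (ac (WAB A B) s P - P) - (ac (WAB A B) s P' - P') = ac (WAB A B) s X - X := by
  have hpr := cj_prime D.pr
  have hN := (xp_nm D).2
  have hl0 : V.valuation (l : Ω) ≠ 0 := by
    rw [hl]
    exact vo_ne V hpr.ne_zero
  have hl1 : V.valuation (l : Ω) < 1 := by
    rw [hl]
    exact hV
  obtain ⟨h1, h2⟩ := tt_diff D.cma hG hQ hQ' hl0 hl1 hu hu' h h' hd
  rw [← map_sub] at h1 h2
  rw [hl] at h2
  obtain ⟨h3, h4⟩ := div_any D.cma hG hpr hN hV h1 h2
  rintro ⟨X, hX, hX2⟩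
  refine pt_nontriv D.cma hG hpr hN hV h3 h4 ⟨X, hX, fun s hs => ?_⟩
  rw [← hX2 s hs, map_sub]
  abel

/-- Chunk YP5 (S/M), PORT of H13Z/LL1.lean exists_pt. If V u = 1: local_ptu, div_pt with β = cj π (V (tt Q) = V l), cc_pt, exists_TB, exists_kumB, dc_of_cc, ks_of_kum (YCB.lean). If V u < 1: P = 0 (tt 0 = 0: tt_zero; Ker V 0), B₀ = N, the same. -/
theorem exists_ptu (D : Dat A B Om j act mo ψ π l) (hG : GV A B V) (he : Pairing A B act π l e) (hNb : Nb l N) (hV : vo V (cj π) < 1)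
    (hl : V.valuation (l : Ω) = vo V (cj π)) {u : Ω} (hu : u ∈ N) (hu1 : V.valuation u ≤ 1) :
    ∃ (P : Pt (WAB A B) Ω) (B₀ L : IntermediateField F Ω) (y₁ : Pt (WAB A B) Ω → Ω),
      Ker V (act (cj π) P) ∧
      V.valuation (tt (act (cj π) P) - l * u) < V.valuation (l : Ω) ∧
      (P = 0 ∨ Ker V P ∧ V.valuation (tt P) ^ Nm (cj π) = vo V (cj π)) ∧
      (∀ s, DecN N V s → s ∈ B₀.fixingSubgroup) ∧
      Cc act π B₀ (fun s => ac (WAB A B) s P - P) ∧ IsTB act π B₀ L ∧
      (∀ T ∈ Tor act π, Kum L e (fun s => ac (WAB A B) s P - P) T (y₁ T)) ∧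
      Dc act π N V (fun s => ac (WAB A B) s P - P) ∧ KS act π N V e (fun s => ac (WAB A B) s P - P) y₁ := by
  classical
  have hfdN := hNb.fin
  have hVl : V.valuation (l : Ω) < 1 := by rw [hl]; exact hV
  have hpr := cj_prime D.pr
  have hl0 : V.valuation (l : Ω) ≠ 0 := by
    rw [hl]
    exact vo_ne V hpr.ne_zero
  have key : ∀ (P : Pt (WAB A B) Ω) (B₀ : IntermediateField F Ω), FiniteDimensional F B₀ →
      (∀ s, DecN N V s → s ∈ B₀.fixingSubgroup) →
      (∀ s ∈ B₀.fixingSubgroup, ac (WAB A B) s (act (cj π) P) = act (cj π) P) →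
      ∃ (L : IntermediateField F Ω) (y₁ : Pt (WAB A B) Ω → Ω), (∀ s, DecN N V s → s ∈ B₀.fixingSubgroup) ∧
      Cc act π B₀ (fun s => ac (WAB A B) s P - P) ∧ IsTB act π B₀ L ∧
      (∀ T ∈ Tor act π, Kum L e (fun s => ac (WAB A B) s P - P) T (y₁ T)) ∧
      Dc act π N V (fun s => ac (WAB A B) s P - P) ∧ KS act π N V e (fun s => ac (WAB A B) s P - P) y₁ := by
    intro P B₀ hfd hB hP
    have C : Cc act π B₀ fun s => ac (WAB A B) s P - P := cc_pt D.cma hP
    obtain ⟨L, hL⟩ := exists_TB D.cma π D.pr B₀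
    let y₁ : Pt (WAB A B) Ω → Ω := fun T => if hT : T ∈ Tor act π then (exists_kumB D C he hL hT).choose else 1
    have hy₁ : ∀ T ∈ Tor act π, Kum L e (fun s => ac (WAB A B) s P - P) T (y₁ T) := by
      intro T hT
      have h1 : y₁ T = (exists_kumB D C he hL hT).choose := dif_pos hT
      rw [h1]
      exact (exists_kumB D C he hL hT).choose_spec
    exact ⟨L, y₁, hB, C, hL, hy₁, dc_of_cc C hB, ks_of_kum hL hB hy₁⟩
  rcases lt_or_eq_of_le hu1 with hu2 | hu2
  · obtain ⟨L, y₁, h⟩ := key 0 N hfdN (fun s hs => hs.1) (fun s _ => by rw [map_zero, map_zero])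
    refine ⟨0, N, L, y₁, ?_, ?_, Or.inl rfl, h⟩
    · rw [map_zero]
      exact ker_zero V
    · rw [map_zero, tt_zero, zero_sub, Valuation.map_neg, map_mul]
      exact mul_lt_of_lt_one_right (zero_lt_iff.2 hl0) hu2
  · obtain ⟨Q, B₀, hfd, hB, hQ, hQK, hQt⟩ := local_ptu (V := V) (N := N) D.cma hG D.hl hVl hu hu2
    have hQv : V.valuation (tt Q) = vo V (cj π) := by
      rw [hQt, map_mul, hu2, mul_one, hl]
    obtain ⟨P, hPQ, hPK, hPt⟩ := div_pt D.cma hG hpr (xp_nm D).2 hV hQK hQv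
    obtain ⟨L, y₁, h⟩ := key P B₀ hfd hB (fun s hs => by rw [hPQ]; exact hQ s hs)
    refine ⟨P, B₀, L, y₁, ?_, ?_, Or.inr ⟨hPK, hPt⟩, h⟩
    · rw [hPQ]
      exact hQK
    · rw [hPQ, hQt, sub_self, map_zero]
      exact zero_lt_iff.2 hl0

end H13X
end
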