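import Mathlib
import Pool.Agent.Lib.H1M.PP2.D_H13D_MD
import Pool.Agent.Lib.H1M.PP2.D_H13R_D
import Pool.Agent.Lib.H1M.PP2.D_H13R_K0
import Pool.Agent.Lib.H1M.PP2.D_H28T_CE
import Pool.Agent.Lib.H1M.PP2.D_H55K_BH
import Pool.Agent.Lib.H1M.PP2.D_H55K_FD
import Pool.Agent.Lib.H1M.PP2.D_H55K_RD
import Pool.Agent.Lib.H1M.PP2.M005
import Pool.Agent.Lib.H1M.PP2.M074
import Pool.Agent.Lib.H1M.PP2.M081
import Pool.Agent.Lib.H1M.PP2.M086
import Pool.Agent.Lib.H1M.PP2.M088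
import Pool.Agent.Lib.H1M.PP2.M093
import Pool.Agent.Lib.H1M.PP2.M094
import Pool.Agent.Lib.H1M.PP2.M095
import Pool.Agent.Lib.H1M.PP2.M098
import Pool.Agent.Lib.H1M.PP2.M099
import Pool.Agent.Lib.H1M.PP2.M102
import Pool.Agent.Lib.H1M.PP2.M106
import Pool.Agent.Lib.H1M.PP2.M107
import Pool.Agent.Lib.H1M.PP2.M110
import Pool.Agent.Lib.H1M.PP2.M116
import Pool.Agent.Lib.H1M.PP2.M118
import Pool.Agent.Lib.H1M.PP2.M128

/-! Merged copies (to shorten the build) of Lib.H13R.D1, Lib.H13R.J4, Lib.H13R.K1, Lib.H13R.C4, Lib.H28I.A0, Lib.H55K.FB2, Lib.H28T.CB3, Lib.H28I.L0, Lib.H28I.L1, Lib.H28I.N4. -/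

-- from Lib.H13R.D1
section

/-! # H13R: the L-function over K in terms of the Hecke L-series, under the hypothesis of bad reduction over K -/

open NumberField IsDedekindDomain WeierstrassCurve

namespace H13R

open H55P (IQ embF eF LF Per IsHecke Pt ac Inert Dec Nm UnitP)
open H35P (WAB Ker tt GoodW IntW)
open H55K.MG (VC Crd)
open H55K H55K.TQ

variable {F : Type} [Field F] [NumberField F] [IQ F] {W : WeierstrassCurve ℤ} {Om : ℂ}
    {m : Ideal (𝓞 F)} {ψ : Ideal (𝓞 F) →*₀ 𝓞 F} {p : ℕ}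

/-- Bad reduction over K. -/
theorem fb3b_badR
    (K : Type) [Field K] [NumberField K] [Algebra F K] (K' : IntermediateField F (AlgebraicClosure F)) [NumberField K']
    (hbad : ∀ w : HeightOneSpectrum (𝓞 K'), H55P.mK K' m ≤ w.asIdeal → ¬ GoodAt (((W⁄(𝓞 F))⁄F)⁄K') w) (θ : K ≃ₐ[F] K') (w : HeightOneSpectrum (𝓞 K)) (hw : H55P.mK K m ≤ w.asIdeal) :
    ¬ GoodAt (((W⁄(𝓞 F))⁄F)⁄K) w := by
  intro hgood
  let _ : Algebra K K' := (θ : K →+* K').toAlgebra
  have hst : IsScalarTower F K K' := IsScalarTower.of_algebraMap_eq fun x => (θ.commutes x).symm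
  have hwm := w.isMaximal
  obtain ⟨Q, hQ1, hQ2⟩ := Ideal.exists_maximal_ideal_liesOver_of_isIntegral (S := 𝓞 K') w.asIdeal
  have hQ0 : Q ≠ ⊥ := Ideal.ne_bot_of_liesOver_of_ne_bot w.ne_bot Q
  have hover : w.asIdeal = Q.under (𝓞 K) := hQ2.over
  have hmQ : H55P.mK K' m ≤ Q := by
    have h1 : H55P.mK K' m = (H55P.mK K m).map (algebraMap (𝓞 K) (𝓞 K')) := by
      unfold H55P.mK
      rw [Ideal.map_map, ← IsScalarTower.algebraMap_eq]
    rw [h1, Ideal.map_le_iff_le_comap]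
    exact hw.trans (le_of_eq hover)
  have hg : GoodAt ((((W⁄(𝓞 F))⁄F)⁄K)⁄K') ⟨Q, hQ1.isPrime, hQ0⟩ := good_up hover hgood
  refine hbad ⟨Q, hQ1.isPrime, hQ0⟩ hmQ ?_
  have he : (((W⁄(𝓞 F))⁄F)⁄K)⁄K' = ((W⁄(𝓞 F))⁄F)⁄K' := by
    rw [WeierstrassCurve.baseChange, WeierstrassCurve.baseChange, WeierstrassCurve.baseChange, WeierstrassCurve.map_map]
    congr 1
    exact (IsScalarTower.algebraMap_eq F K K').symm
  rw [← he]
  exact hg

/-- Chunk FB3B (M). The L-series over K contains F. K' = KG F K ι, θ : K ≃ₐ[F] K' (kg_iso). lfun_K (DM.lean) for K: the condition hbad for W⁄K at w with mK K m ≤ w: a prime w' of K' above w (algebra K → K' by θ), mK K' m ≤ w', bad_K (T10.lean) for K' ≤ L, good_up (RG.lean). Then as in gen_lval (H55P/Gen.lean) or i5_lfun (I5.lean), with tm_congr. -/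
theorem lser_FR (hH : BaseH F (W⁄(𝓞 F)) Om m ψ)
    (K : Type) [Field K] [NumberField K] [Algebra F K] (K' : IntermediateField F (AlgebraicClosure F)) [NumberField K']
    (hbad : ∀ w : HeightOneSpectrum (𝓞 K'), H55P.mK K' m ≤ w.asIdeal → ¬ GoodAt (((W⁄(𝓞 F))⁄F)⁄K') w) (θ : K ≃ₐ[F] K') (Φ : ℂ → ℂ) (hΦ : ∀ s : ℂ, 3 / 2 < s.re → HasSum (H55N.tm (H55P.PsiP K' ψ) s) (Φ s)) (s : ℂ)
    (hs : 3 / 2 < s.re) :
    LSeriesHasSum (fun n => (((W⁄K).LFunction n : ℤ) : ℂ)) s (Φ s * (starRingEnd ℂ) (Φ ((starRingEnd ℂ) s))) := by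
  classical
  have hLs : ∀ s : ℂ, 3 / 2 < s.re → HasSum (H55N.tm (H55P.PsiP K ψ) s) (Φ s) := fun s hs => tm_congr K K' θ s _ (hΦ s hs)
  have hs' : 3 / 2 < ((starRingEnd ℂ) s).re := by simpa using hs
  have h := hH.data.hecke
  have h0 : H55P.PsiP K ψ ⊥ = 0 := (H55P.PsiP K ψ).map_zero
  have h1 := H55N.AI_LSeries (fun a => H55P.PsiP K ψ a) h0 s (H55N.tm_summable _ (H55P.PsiP_norm_le h) s hs)
  have h2 := H55N.AI_LSeries (fun a => (starRingEnd ℂ) (H55P.PsiP K ψ a)) (by rw [h0, map_zero]) s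
    (H55N.tm_summable _ (fun a => by rw [RCLike.norm_conj]; exact H55P.PsiP_norm_le h a) s hs)
  have e1 : ∑' a, H55N.tm (fun a => H55P.PsiP K ψ a) s a = Φ s := (hLs s hs).tsum_eq
  have e2 : ∑' a, H55N.tm (fun a => (starRingEnd ℂ) (H55P.PsiP K ψ a)) s a =
      (starRingEnd ℂ) (Φ ((starRingEnd ℂ) s)) := by
    have h3 := (Complex.hasSum_conj').2 (hLs _ hs')
    have h4 := h3.tsum_eq
    rw [← h4]
    exact tsum_congr fun a => H55N.H8_tm _ s a
  rw [e1] at h1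
  rw [e2] at h2
  have h3 := ArithmeticFunction.LSeriesHasSum_mul h1 h2
  have e3 : (fun n => (((W⁄K).LFunction n : ℤ) : ℂ)) = fun n =>
      (H55N.AI (H55P.PsiP K ψ) * H55N.AI (fun a => (starRingEnd ℂ) (H55P.PsiP K ψ a))) n := by
    funext n
    rw [← cur_eq (F := F) (W := W) K]
    exact lfun_K h (fun v hv _ => hH.deu v hv) (fun v hv => (hH.supp v).1 hv) (jint_of hH.data.per hH.data.ell)
      (fun w hw => fb3b_badR K K' hbad θ w hw) n
  rw [e3]
  exact h3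

theorem lser_QR (hH : BaseH F (W⁄(𝓞 F)) Om m ψ)
    (K₀ : Type) [Field K₀] [NumberField K₀] (K' : IntermediateField F (AlgebraicClosure F)) [NumberField K']
    [Algebra K₀ K'] (hbad : ∀ w : HeightOneSpectrum (𝓞 K'), H55P.mK K' m ≤ w.asIdeal → ¬ GoodAt (((W⁄(𝓞 F))⁄F)⁄K') w) (hQ : QuadG F K₀ K') (Φ : ℂ → ℂ)
    (hΦ : ∀ s : ℂ, 3 / 2 < s.re → HasSum (H55N.tm (H55P.PsiP K' ψ) s) (Φ s)) (s : ℂ) (hs : 3 / 2 < s.re) :
    LSeriesHasSum (fun n => (((W⁄K₀).LFunction n : ℤ) : ℂ)) s (Φ s) := by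
  obtain ⟨j₀, hj⟩ := jint_Z hH
  have hbad : ∀ w : HeightOneSpectrum (𝓞 K'), H55P.mK K' m ≤ w.asIdeal → ¬ GoodAt (W⁄K') w := by
    intro w hw
    have h1 := hbad w hw
    rw [cur_eq K'] at h1
    exact h1
  have hA : ∀ n : ℕ, (((W⁄K₀).LFunction n : ℤ) : ℂ) = H55N.AI (fun a => H55P.PsiP K' ψ a) n :=
    fun n => lfun_quad hQ hH.data.hecke (fun v hv _ => hH.deu v hv) hH.supp (hram_of hH) hj hbad n
  have h0 : H55P.PsiP K' ψ ⊥ = 0 := (H55P.PsiP K' ψ).map_zero
  have h1 := H55N.AI_LSeries (fun a => H55P.PsiP K' ψ a) h0 s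
    (H55N.tm_summable _ (H55P.PsiP_norm_le hH.data.hecke) s hs)
  have h2 : ∑' a : Ideal (𝓞 K'), H55N.tm (fun a => H55P.PsiP K' ψ a) s a = Φ s := (hΦ s hs).tsum_eq
  rw [h2] at h1
  have e1 : (fun n => (((W⁄K₀).LFunction n : ℤ) : ℂ)) = fun n => H55N.AI (fun a => H55P.PsiP K' ψ a) n :=
    funext hA
  rw [e1]
  exact h1

/-- Chunk FB4 (S/M). kg_dich (RP2.lean): first case kg_iso (RP3.lean), lser_FR, the degree: θ and [F : ℚ] = 2 (IQ.deg); second case lser_QR and quad_deg (RP3.lean). -/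
theorem lrelR (hH : BaseH F (W⁄(𝓞 F)) Om m ψ)
    (K : Type) [Field K] [NumberField K] (ι : K →ₐ[ℚ] AlgebraicClosure F) [NumberField (KG F K ι)]
    (hbad : ∀ w : HeightOneSpectrum (𝓞 (KG F K ι)), H55P.mK (KG F K ι) m ≤ w.asIdeal → ¬ GoodAt (((W⁄(𝓞 F))⁄F)⁄(KG F K ι)) w) : LRel W ψ K (KG F K ι) := by
  rcases kg_dich F K ι with ⟨f, hf⟩ | hQ
  · left
    letI : Algebra F K := f.toAlgebra
    obtain ⟨θ⟩ := kg_iso F K ι f hf
    refine ⟨?_, fun Φ hΦ s hs => lser_FR hH K (KG F K ι) hbad θ Φ hΦ s hs⟩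
    have h1 := Module.finrank_mul_finrank ℚ F K
    have h2 : Module.finrank F K = Module.finrank F (KG F K ι) := θ.toLinearEquiv.finrank_eq
    have h3 : Module.finrank ℚ F = 2 := IQ.deg
    rw [h3, h2] at h1
    exact h1.symm
  · right
    letI : Algebra K (KG F K ι) := (KGmap F K ι).toAlgebra
    exact ⟨quad_deg F hQ, fun Φ hΦ s hs => lser_QR hH K (KG F K ι) hbad hQ Φ hΦ s hs⟩

end H13R
end

-- from Lib.H13R.J4
section

/-! # H13R: the analytic part over K (without the points) and the Hecke L-value -/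

open NumberField IsDedekindDomain WeierstrassCurve

namespace H13R

open H55P (IQ embF eF LF Per IsHecke Pt ac Inert Dec Nm UnitP UnrP)
open H35P (WAB Ker tt GoodW IntW)
open H55K H55K.TQ

variable {F : Type} [Field F] [NumberField F] [IQ F] {W : WeierstrassCurve ℤ} {Om : ℂ}
    {m : Ideal (𝓞 F)} {ψ : Ideal (𝓞 F) →*₀ 𝓞 F} {p : ℕ}

theorem lunit_iff (hH : BaseH F (W⁄(𝓞 F)) Om m ψ) (hp : PrimeH F (W⁄(𝓞 F)) p) (K : Type) [Field K] [NumberField K]
    (K' : IntermediateField F (AlgebraicClosure F)) [NumberField K'] (hR : LRel W ψ K K') (hU : H55P.UnrP p K)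
    (hI : H55P.IntG p Om ψ K') : LUnitG p W K ↔ H55P.ValG p Om ψ K' := by
  constructor
  · intro hA
    obtain ⟨Φ, hΦa, hΦs, hΦi⟩ := hI
    obtain ⟨Λ, hΛa, hΛs, -, hΛv⟩ := lG_rel hH hp K K' hR hU hΦa hΦs
    obtain ⟨⟨L, hL⟩, Λ', hΛa', hΛs', -, hΛu'⟩ := hA
    have e1 : Λ 1 = Λ' 1 := H55N.ident Λ Λ' hΛa hΛa' (fun s hs => by
      rw [(hΛs s hs).2, (hΛs' s hs).2]) 1 (by norm_num)
    have hunit : UnitP p (Φ 1 / Om ^ Module.finrank F K') := by
      intro V hV
      have hx : V.valuation (Φ 1 / Om ^ Module.finrank F K') ≤ 1 :=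
        (V.valuation_le_one_iff _).2 (hΦi V hV)
      have hxc : V.valuation ((starRingEnd ℂ) (Φ 1 / Om ^ Module.finrank F K')) ≤ 1 := by
        refine H55P.i5_conj V _ ?_
        rw [ValuationSubring.valuation_le_one_iff]
        exact hΦi _ (H55P.i5_above p hp.prime V hV)
      have hl1 : V.valuation (lG K W L (Λ 1)) = 1 := by
        rw [e1]
        exact hΛu' L hL V hV
      rcases hΛv V hV L hL with h | h
      · rw [h, ← map_mul] at hl1
        exact H55P.i5_two V _ _ hx hxc hl1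
      · rw [h.1] at hl1
        exact hl1
    refine ⟨Φ, hΦa, hΦs, ?_, hunit⟩
    intro h0
    apply H55P.pz6_ne hp.prime hunit
    rw [h0, zero_div]
  · intro hV
    obtain ⟨Φ, hΦa, hΦs, hΦ1, hΦu⟩ := hV
    obtain ⟨Λ, hΛa, hΛs, hΛ1, hΛv⟩ := lG_rel hH hp K K' hR hU hΦa hΦs
    refine ⟨exists_perZ (perW_of hH), Λ, hΛa, hΛs, hΛ1 hΦ1, ?_⟩
    intro L hL V hV
    have hx := hΦu V hV
    have hxc := H55P.pz6_conj hp.prime (H55P.pz6_ne hp.prime hΦu) hΦu V hV
    rcases hΛv V hV L hL with h | h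
    · rw [h, hx, hxc, one_mul]
    · rw [h.1, hx]

/-- The analytic part with the points. -/
theorem an_iff {p : ℕ} (hp : p.Prime) {K : Type} [Field K] [NumberField K]
    (hE : ¬ p ∣ Nat.card (W⁄K).toAffine.Point) : AnUnitG p W K ↔ LUnitG p W K := by
  constructor
  · rintro ⟨h1, Λ, h2, h3, h4, h5⟩
    refine ⟨h1, Λ, h2, h3, h4, fun L hL V hV => ?_⟩
    have h6 := h5 L hL V hV
    rwa [shaG_lG, map_mul, map_pow, H55P.val_nat p hp V hV _ hE, one_pow, mul_one] at h6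
  · rintro ⟨h1, Λ, h2, h3, h4, h5⟩
    refine ⟨h1, Λ, h2, h3, h4, fun L hL V hV => ?_⟩
    rw [shaG_lG, map_mul, map_pow, H55P.val_nat p hp V hV _ hE, one_pow, mul_one]
    exact h5 L hL V hV

end H13R
end

-- from Lib.H13R.K1
section

/-! # H13R: almost all prime numbers, over M -/

open NumberField IsDedekindDomain WeierstrassCurve

namespace H13R

open H55P (IQ embF eF LF Per IsHecke Pt ac Inert Dec Nm UnitP UnrP PExt)
open H35P (WAB Ker tt GoodW IntW)
open H55K H55K.TQ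

theorem pext_self {F : Type} [Field F] [NumberField F] {Ω : Type} [Field Ω] [Algebra F Ω] (p : ℕ) (M : IntermediateField F Ω)
    [FiniteDimensional F M] : PExt p M M := by
  refine ⟨inferInstance, le_rfl, fun s hs x hx => ?_, 0, by rw [pow_zero, mul_one]⟩
  rw [IntermediateField.mem_fixingSubgroup_iff] at hs
  rw [hs x hx]
  exact hx

theorem unr_almost (K : Type) [Field K] [NumberField K] : {p : ℕ | p.Prime ∧ ¬ UnrP p K}.Finite := by
  have hD : (NumberField.discr K).natAbs ≠ 0 := by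
    rw [Int.natAbs_ne_zero]
    exact NumberField.discr_ne_zero K
  refine Set.Finite.subset ((NumberField.discr K).natAbs.divisors.finite_toSet) ?_
  rintro p ⟨hp, hnot⟩
  rw [Finset.mem_coe, Nat.mem_divisors]
  by_contra hcon
  push Not at hcon
  apply hnot
  apply FC2_unr hp
  intro hd
  exact hD (hcon (Int.natCast_dvd.1 hd))

theorem unr_KG {F : Type} [Field F] [NumberField F] [IQ F] {p : ℕ} (hp : p.Prime) (K : Type) [Field K] [NumberField K]
    (ι : K →ₐ[ℚ] AlgebraicClosure F) (h : UnrP p (KG F K ι)) : UnrP p K := by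
  letI : Algebra K (KG F K ι) := (KGmap F K ι).toAlgebra
  exact H55P.UnrP.down K (KG F K ι) p hp h

theorem unr_le {F : Type} [Field F] [NumberField F] [IQ F] {p : ℕ} (hp : p.Prime) {M L : IntermediateField F (AlgebraicClosure F)}
    [NumberField M] [NumberField L] (hML : M ≤ L) (h : UnrP p L) : UnrP p M := by
  letI : Algebra M L := (IntermediateField.inclusion hML).toRingHom.toAlgebra
  exact H55P.UnrP.down M L p hp h

section main

variable {F : Type} [Field F] [NumberField F] [IQ F] {W₀ : WeierstrassCurve (𝓞 F)} {Om : ℂ}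
    {m : Ideal (𝓞 F)} {ψ : Ideal (𝓞 F) →*₀ 𝓞 F} {p : ℕ}

theorem val_almostM (hH : BaseH F W₀ Om m ψ) (M : IntermediateField F (AlgebraicClosure F)) [NumberField M]
    (hL : ∃ Φ : ℂ → ℂ, AnalyticOnNhd ℂ Φ {s | 1 / 2 < s.re} ∧
      (∀ s : ℂ, 3 / 2 < s.re → HasSum (H55N.tm (H55P.PsiP M ψ) s) (Φ s)) ∧ Φ 1 ≠ 0) :
    {p : ℕ | PrimeH F W₀ p ∧ UnrP p M ∧ ¬ H55P.ValG p Om ψ M}.Finite := by
  have hfd : FiniteDimensional F M := FiniteDimensional.right ℚ F M
  by_cases hex : ∃ p, PrimeH F W₀ p ∧ UnrP p M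
  swap
  · refine Set.Finite.subset Set.finite_empty fun p hp => ?_
    exact absurd ⟨p, hp.1, hp.2.1⟩ hex
  obtain ⟨p₀, hp₀, hU₀⟩ := hex
  obtain ⟨Λ, ha, hs, hint⟩ := gen_intR hH hp₀ hU₀ (pext_self p₀ M) le_rfl le_rfl hU₀
  obtain ⟨Φ, hΦa, hΦs, hΦ1⟩ := hL
  have h1 : Λ 1 = Φ 1 := H55N.TW1_ident (1 / 2) Λ Φ ha hΦa
    (fun s hs' => (hs s hs').unique (hΦs s hs')) (by norm_num) 1 (by norm_num)
  have hne : Λ 1 ≠ 0 := by
    rw [h1]
    exact hΦ1
  have hOm : Om ≠ 0 := hH.data.per.ne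
  have hx : Λ 1 / Om ^ Module.finrank F M ≠ 0 := div_ne_zero hne (pow_ne_zero _ hOm)
  refine Set.Finite.subset (unit_almost hx (alg_of_int hp₀.prime hint)) ?_
  rintro p ⟨hp, -, hV⟩
  exact ⟨hp.prime, fun hU => hV ⟨Λ, ha, hs, hne, hU⟩⟩

theorem bad_of {M : IntermediateField F (AlgebraicClosure F)} [NumberField M] (hH : BaseH F W₀ Om m ψ) (hB : BadM W₀ M) :
    ∀ w : HeightOneSpectrum (𝓞 M), H55P.mK M m ≤ w.asIdeal → ¬ GoodAt ((W₀⁄F)⁄M) w :=
  fun w hw => hB w ((h1_pos hH w).2 hw)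

end main

section rat

variable {F : Type} [Field F] [NumberField F] [IQ F] {W : WeierstrassCurve ℤ} {Om : ℂ}
    {m : Ideal (𝓞 F)} {ψ : Ideal (𝓞 F) →*₀ 𝓞 F} {p : ℕ}

theorem lrelM (hH : BaseH F (W⁄(𝓞 F)) Om m ψ) (M : Type) [Field M] [NumberField M] (ι : M →ₐ[ℚ] AlgebraicClosure F)
    (hB : BadM (W⁄(𝓞 F)) (KG F M ι)) : LRel W ψ M (KG F M ι) :=
  lrelR hH M ι (bad_of hH hB)


end rat

end H13R
end

-- from Lib.H13R.C4
section

/-! # H13R: unramified extensions keep bad reduction -/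

open NumberField IsDedekindDomain WeierstrassCurve

namespace H13R

open H55P (IQ embF eF LF Per IsHecke Pt ac Inert Dec Nm UnitP PExt Ram RamF clos)
open H35P (WAB Ker tt GoodW IntW)
open H55K.MG (VC Crd)
open H55K H55K.TQ

variable {F : Type} [Field F] [NumberField F] [IQ F] {W₀ : WeierstrassCurve (𝓞 F)} {Om : ℂ}
    {m : Ideal (𝓞 F)} {ψ : Ideal (𝓞 F) →*₀ 𝓞 F} {p : ℕ}

theorem exists_prime {F : Type} [Field F] [NumberField F] (W₀ : WeierstrassCurve (𝓞 F)) (h : W₀.Δ ≠ 0) : ∃ p : ℕ, PrimeH F W₀ p := by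
  by_contra hcon
  push Not at hcon
  have h1 := prime_almost W₀ h
  have h2 : {p : ℕ | p.Prime ∧ ¬ PrimeH F W₀ p} = {p : ℕ | p.Prime} := by
    ext p
    exact ⟨fun h => h.1, fun h => ⟨h, hcon p⟩⟩
  rw [h2] at h1
  exact Nat.infinite_setOfPred_prime h1

/-- The base is bad at the primes of the discriminant. -/
theorem bad_bot (hH : BaseH F W₀ Om m ψ) [NumberField (⊥ : IntermediateField F (AlgebraicClosure F))] :
    BadM W₀ (⊥ : IntermediateField F (AlgebraicClosure F)) := by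
  obtain ⟨p, hp⟩ := exists_prime W₀ hH.data.ell
  intro w hw
  exact bad_K hH hp (pext_self p ⊥) le_rfl w ((h1_pos hH w).1 hw)

/-- A finite normal extension. -/
theorem exists_normal {F : Type} [Field F] [NumberField F] (M : IntermediateField F (AlgebraicClosure F)) [FiniteDimensional F M] :
    ∃ N : IntermediateField F (AlgebraicClosure F), FiniteDimensional F N ∧ M ≤ N ∧
      ∀ s : AlgebraicClosure F ≃ₐ[F] AlgebraicClosure F, ∀ x ∈ N, s x ∈ N := by
  refine ⟨IntermediateField.normalClosure F M (AlgebraicClosure F), inferInstance, M.le_normalClosure, fun s x hx => ?_⟩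
  have hn : Normal F (IntermediateField.normalClosure F M (AlgebraicClosure F)) := inferInstance
  have h1 := (IntermediateField.normal_iff_forall_map_le').1 hn s
  exact h1 ⟨x, hx, rfl⟩

/-- If the primes of F dividing the discriminant are unramified in M then W₀ has bad reduction at all primes of M dividing it. -/
theorem bad_unr (hH : BaseH F W₀ Om m ψ) (M : IntermediateField F (AlgebraicClosure F)) [NumberField M]
    (h : ∀ v : HeightOneSpectrum (𝓞 F), W₀.Δ ∈ v.asIdeal → ¬ RamF M v.asIdeal) : BadM W₀ M := by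
  classical
  intro w hΔw hgood
  have hMf : FiniteDimensional F M := FiniteDimensional.right ℚ F M
  obtain ⟨N, hNf, hMN, hNn⟩ := exists_normal M
  have hbn : NumberField (⊥ : IntermediateField F (AlgebraicClosure F)) := H16C.FR_numberField _
  obtain ⟨p, hp⟩ := exists_prime W₀ hH.data.ell
  obtain ⟨V, hV⟩ := exists_V M w
  obtain ⟨j, hj⟩ := exists_j F (AlgebraicClosure F)
  obtain ⟨A, hA⟩ : ∃ A : F, A = -(algebraMap (𝓞 F) F W₀.c₄) / 48 := ⟨_, rfl⟩
  obtain ⟨B, hB'⟩ : ∃ B : F, B = -(algebraMap (𝓞 F) F W₀.c₆) / 864 := ⟨_, rfl⟩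
  have hd := y3_ne W₀ hA hB' hH.data.ell
  have hper : Per F (embF F A) (embF F B) Om := by
    have e1 : embF F A = -(eF F W₀.c₄) / 48 := by
      rw [hA, map_div₀, map_neg, map_ofNat]
      rfl
    have e2 : embF F B = -(eF F W₀.c₆) / 864 := by
      rw [hB', map_div₀, map_neg, map_ofNat]
      rfl
    rw [e1, e2]
    exact hH.data.per
  obtain ⟨act, hact⟩ := exists_CMA F A B Om j hd hper hj
  obtain ⟨v, hvw⟩ := c3_below (M := ⊥) bot_le w
  have hup : ∀ a : 𝓞 (⊥ : IntermediateField F (AlgebraicClosure F)), ∃ b : 𝓞 M,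
      ((a : (⊥ : IntermediateField F (AlgebraicClosure F))) : AlgebraicClosure F) = ((b : M) : AlgebraicClosure F) := by
    intro a
    have hle : (⊥ : IntermediateField F (AlgebraicClosure F)) ≤ M := bot_le
    refine ⟨⟨⟨((a : (⊥ : IntermediateField F (AlgebraicClosure F))) : AlgebraicClosure F), hle a.1.2⟩, ?_⟩, rfl⟩
    have h2 : IsIntegral ℤ (a : (⊥ : IntermediateField F (AlgebraicClosure F))) := a.isIntegral_coe
    have h3 : IsIntegral ℤ ((IntermediateField.inclusion hle) (a : (⊥ : IntermediateField F (AlgebraicClosure F)))) :=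
      h2.map ((IntermediateField.inclusion hle).toRingHom.toIntAlgHom)
    exact h3
  have hv : ∀ a : 𝓞 (⊥ : IntermediateField F (AlgebraicClosure F)), a ∈ v.asIdeal →
      V.valuation ((a : (⊥ : IntermediateField F (AlgebraicClosure F))) : AlgebraicClosure F) < 1 := by
    intro a ha
    obtain ⟨b, hb⟩ := hup a
    rw [hb]
    exact hV b ((hvw a b hb).1 ha)
  have hΔv : algebraMap (𝓞 F) (𝓞 (⊥ : IntermediateField F (AlgebraicClosure F))) W₀.Δ ∈ v.asIdeal :=
    (hvw _ (algebraMap (𝓞 F) (𝓞 M) W₀.Δ) rfl).2 hΔw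
  have hVp : V.valuation (p : AlgebraicClosure F) = 1 := c3_vp hp hv hΔv
  have hGM := gmd_of_good W₀ hA hB' w hV hgood
  have hΔA : (WAB A B).Δ ≠ 0 := by
    have e : (WAB A B).Δ = -16 * (4 * A ^ 3 + 27 * B ^ 2) := by
      unfold WAB WeierstrassCurve.Δ WeierstrassCurve.b₂ WeierstrassCurve.b₄ WeierstrassCurve.b₆ WeierstrassCurve.b₈
      ring
    rw [e]
    exact mul_ne_zero (by norm_num) hd
  obtain ⟨T, hT, hT0⟩ := c3_point hact hp.prime
  refine core_bad hH.data.ell (jint_of hH.data.per hH.data.ell) hp.prime hp.five hA hB' ⊥ (bad_bot hH) hΔv hv hVp hT hT0 ?_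
  intro g hg0 hg
  have hCL : clos ⊥ M ≤ N := H55P.clos_le ⊥ M N hMN fun s _ x hx => hNn s x hx
  have hCf : FiniteDimensional F (clos ⊥ M) := H55P.finDim_of_le hCL
  have hgN : g ∈ (clos ⊥ M).fixingSubgroup := by
    refine H55P.inert_mem ⊥ (clos ⊥ M) bot_le (fun s hs x hx => H55P.clos_norm ⊥ M s hs x hx) V ?_ g hg0 hg
    intro v' hbel hram
    have hr := H55P.clos_ram ⊥ M N bot_le hMN (fun s _ x hx => hNn s x hx) v' hram
    obtain ⟨v₀, hv₀⟩ : ∃ v₀ : HeightOneSpectrum (𝓞 F),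
        ∀ x : 𝓞 F, x ∈ v₀.asIdeal ↔ algebraMap (𝓞 F) (𝓞 (⊥ : IntermediateField F (AlgebraicClosure F))) x ∈ v'.asIdeal :=
      ⟨⟨v'.asIdeal.under (𝓞 F), inferInstance, mt Ideal.eq_bot_of_comap_eq_bot v'.ne_bot⟩, fun x => Iff.rfl⟩
    refine h v₀ ?_ ((y9_ram hv₀ M).1 hr)
    rw [hv₀, hbel]
    exact hv _ hΔv
  refine inert_triv hΔA hGM g ?_ hg p hVp T hT
  intro x hx
  exact (IntermediateField.mem_fixingSubgroup_iff _ _).1 hgN x (H55P.le_clos ⊥ M hx)

end H13R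
end

-- from Lib.H28I.A0
section

/-! # H28I, part A: transfer of the conclusions -/

open NumberField IsDedekindDomain WeierstrassCurve

namespace H28I

open H55P (IQ embF eF LF Per IsHecke Pt ac Inert Dec Nm)
open H35P (WAB Ker tt GoodW IntW)
open H55K (xc yc)
open H55K.TQ

open Classical in
/-- What is the same for W and W' over K. -/
structure Same (p : ℕ) (W W' : WeierstrassCurve ℤ) (K : Type) [Field K] [NumberField K] : Prop where
  lf : ∀ n : ℕ, (W'⁄K).LFunction n = (W⁄K).LFunction n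
  per : ∀ L L' : PeriodPair, PerZ W L → PerZ W' L' → ∀ V : ValuationSubring ℂ, V.valuation (p : ℂ) < 1 → ∀ x : ℂ,
    V.valuation (lG K W' L' x) = V.valuation (lG K W L x)
  ex : ∃ L : PeriodPair, PerZ W L
  ex' : ∃ L : PeriodPair, PerZ W' L
  iso : Iso6 (W⁄K) (W'⁄K) (AlgebraicClosure K)
  disc : W.Δ ≠ 0
  disc' : W'.Δ ≠ 0

variable {p : ℕ} {W W' : WeierstrassCurve ℤ} {K : Type} [Field K] [NumberField K]

/-- Chunk A0 (S). The L-series depend only on the coefficients (h.lf, funext; WeierstrassCurve.LSeries is the LSeries of LFunction: rfl or unfold). -/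
theorem same_ser (h : Same p W W' K) (s : ℂ) :
    (LSeriesSummable (fun n => (((W'⁄K).LFunction n : ℤ) : ℂ)) s ↔ LSeriesSummable (fun n => (((W⁄K).LFunction n : ℤ) : ℂ)) s) ∧
      (W'⁄K).LSeries s = (W⁄K).LSeries s := by
  have e : (fun n => (((W'⁄K).LFunction n : ℤ) : ℂ)) = fun n => (((W⁄K).LFunction n : ℤ) : ℂ) := by
    funext n
    rw [h.lf n]
  refine ⟨by rw [e], ?_⟩
  show LSeries (fun n => (((W'⁄K).LFunction n : ℤ) : ℂ)) s = LSeries (fun n => (((W⁄K).LFunction n : ℤ) : ℂ)) s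
  rw [e]

theorem a0_ser (h : Same p W W' K) (Λ : ℂ → ℂ) :
    (∀ s : ℂ, 3 / 2 < s.re →
      LSeriesSummable (fun n => (((W'⁄K).LFunction n : ℤ) : ℂ)) s ∧ Λ s = (W'⁄K).LSeries s) ↔
    (∀ s : ℂ, 3 / 2 < s.re →
      LSeriesSummable (fun n => (((W⁄K).LFunction n : ℤ) : ℂ)) s ∧ Λ s = (W⁄K).LSeries s) := by
  refine forall_congr' fun s => imp_congr_right fun _ => ?_
  rw [(same_ser h s).1, (same_ser h s).2]

theorem a0_nat (hp : p.Prime) {n : ℕ} (hn : ¬ p ∣ n) (V : ValuationSubring ℂ) (hV : V.valuation (p : ℂ) < 1) :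
    V.valuation (n : ℂ) = 1 := by
  have h := fc1_one hp V hV (n : ℤ) (fun h => hn (Int.natCast_dvd_natCast.1 h))
  exact_mod_cast h

theorem a0_sha (K : Type) [Field K] [NumberField K] (W : WeierstrassCurve ℤ) (L : PeriodPair) (L1 : ℂ) (V : ValuationSubring ℂ) :
    V.valuation (shaG K W L L1) = V.valuation (lG K W L L1) * V.valuation (Nat.card (W⁄K).toAffine.Point : ℂ) ^ 2 := by
  rw [shaG_lG, map_mul, map_pow]

theorem a0_disc {W : WeierstrassCurve ℤ} (h : W.Δ ≠ 0) (K : Type) [Field K] [NumberField K] : (W⁄K).Δ ≠ 0 := by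
  have e : (W⁄K).Δ = algebraMap ℤ K W.Δ := WeierstrassCurve.map_Δ W (algebraMap ℤ K)
  rw [e]
  intro h0
  exact h ((injective_iff_map_eq_zero (algebraMap ℤ K)).1 (RingHom.injective_int _) _ h0)

theorem a0_two {Γ : Type*} [LinearOrderedCommGroupWithZero Γ] {a b : Γ} (ha : a ≤ 1) (hb : b ≤ 1) (h : a * b ^ 2 = 1) :
    a = 1 ∧ b = 1 := by
  have h1 : b = 1 := by
    by_contra hne
    have hlt : b < 1 := lt_of_le_of_ne hb hne
    have h2 : a * b ^ 2 ≤ b := by
      calc a * b ^ 2 ≤ 1 * b ^ 2 := mul_le_mul_left ha _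
        _ = b * b := by rw [one_mul, pow_two]
        _ ≤ 1 * b := mul_le_mul_left hb _
        _ = b := one_mul _
    rw [h] at h2
    exact absurd hlt (not_lt.2 h2)
  exact ⟨by rw [h1, one_pow, mul_one] at h; exact h, h1⟩

/-- Chunk A0 (S). The same Λ; h.per (for L from h.ex); V.valuation_le_one_iff. -/
theorem same_int (h : Same p W W' K) (hI : AnIntG p W K) : AnIntG p W' K := by
  obtain ⟨-, Λ, hΛ, hs, hv⟩ := hI
  obtain ⟨L, hL⟩ := h.ex
  refine ⟨h.ex', Λ, hΛ, (a0_ser h Λ).2 hs, fun L' hL' A hA => ?_⟩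
  rw [← A.valuation_le_one_iff, h.per L L' hL hL' A hA]
  exact (A.valuation_le_one_iff _).2 (hv L hL A hA)

/-- Chunk A0 (S). The same Λ; NonP is about valuations: unfold H55P.NonP (H55P/CStm.lean) and use h.per. -/
theorem same_non (h : Same p W W' K) (hI : AnNonG p W K) : AnNonG p W' K := by
  obtain ⟨-, Λ, hΛ, hs, hv⟩ := hI
  obtain ⟨L, hL⟩ := h.ex
  refine ⟨h.ex', Λ, hΛ, (a0_ser h Λ).2 hs, fun L' hL' A hA => ?_⟩
  rw [h.per L L' hL hL' A hA]
  exact hv L hL A hA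

/-- Chunk A0 (S). -/
theorem same_lnz (h : Same p W W' K) : LNz W' K ↔ LNz W K := by
  constructor
  · rintro ⟨Λ, hΛ, hs, hne⟩
    exact ⟨Λ, hΛ, (a0_ser h Λ).1 hs, hne⟩
  · rintro ⟨Λ, hΛ, hs, hne⟩
    exact ⟨Λ, hΛ, (a0_ser h Λ).2 hs, hne⟩

/-- Chunk A0 (M). Λ is the same. shaG = lG #E^2 (shaG_lG, FB6A.lean). By hB the number of points of W over K is finite, prime to p, so its value is 1 at all V above p (it is not 0; fc1_one), so V(lG W) = 1 = V(lG W'); pts_iso: the same for W'. -/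
theorem same_unit (hp : p.Prime) (h5 : 5 ≤ p) (h : Same p W W' K) (hA : AnUnitG p W K) (hB : BSDPG p W K) : AnUnitG p W' K := by
  obtain ⟨-, Λ, hΛ, hs, hne, hu⟩ := hA
  obtain ⟨⟨-, -, hf, hc⟩, -⟩ := hB
  obtain ⟨L, hL⟩ := h.ex
  obtain ⟨hf', hc'⟩ := pts_iso hp h5 (a0_disc h.disc' K) h.iso hf hc
  refine ⟨h.ex', Λ, hΛ, (a0_ser h Λ).2 hs, hne, fun L' hL' V hV => ?_⟩
  have h1 := hu L hL V hV
  rw [a0_sha, a0_nat hp hc V hV, one_pow, mul_one] at h1
  rw [a0_sha, a0_nat hp hc' V hV, one_pow, mul_one, h.per L L' hL hL' V hV, h1]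

/-- Chunk A0 (M). Let n' be the number of points of W' over K (Nat.card, 0 if infinite), Λ' as in hA, Λ from hI: Λ 1 = Λ' 1 (TW1_ident, same_ser). L from h.ex, L' from h.ex'. For every V above p: V(lG W')V(n')^2 = 1, V(lG W') = V(lG W) ≤ 1, V(n') ≤ 1, so V(lG W) = 1 and V(n') = 1. A V above p exists (H55P.exists_above_p): n' ≠ 0, so finite (Nat.finite_of_card_ne_zero), and p does
not divide n'. pts_iso for the inverse isogeny (iso6_symm): the number n of points of W over K is finite (Nat.card_pos: nonempty) and prime to p, V(n) = 1. So V(shaG W) = V(lG W) V(n)^2 = 1. -/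
theorem same_unit' (hp : p.Prime) (h5 : 5 ≤ p) (h : Same p W W' K) (hI : AnIntG p W K) (hA : AnUnitG p W' K) : AnUnitG p W K := by
  obtain ⟨-, Λ, hΛ, hs, hi⟩ := hI
  obtain ⟨-, Λ', hΛ', hs', hne, hu⟩ := hA
  have e1 : Λ 1 = Λ' 1 := H55N.TW1_ident (1 / 2) Λ Λ' hΛ hΛ'
    (fun s h32 => by rw [(hs s h32).2, (hs' s h32).2, (same_ser h s).2]) (by norm_num) 1 (by norm_num)
  obtain ⟨L, hL⟩ := h.ex
  obtain ⟨L', hL'⟩ := h.ex'
  have key : ∀ V : ValuationSubring ℂ, V.valuation (p : ℂ) < 1 →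
      V.valuation (lG K W L (Λ' 1)) = 1 ∧ V.valuation (Nat.card (W'⁄K).toAffine.Point : ℂ) = 1 := by
    intro V hV
    have h1 := hu L' hL' V hV
    rw [a0_sha, h.per L L' hL hL' V hV] at h1
    refine a0_two ?_ ?_ h1
    · rw [← e1]
      exact (V.valuation_le_one_iff _).2 (hi L hL V hV)
    · have h2 := V.valuation_le_one ((Nat.card (W'⁄K).toAffine.Point : ℕ) : V)
      exact_mod_cast h2
  obtain ⟨V₀, hV₀⟩ := H55P.exists_above_p p hp
  have hn0 : Nat.card (W'⁄K).toAffine.Point ≠ 0 := by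
    intro h0
    have h1 := (key V₀ hV₀).2
    rw [h0, Nat.cast_zero, map_zero] at h1
    exact zero_ne_one h1
  have hnp : ¬ p ∣ Nat.card (W'⁄K).toAffine.Point := by
    rintro ⟨m, hm⟩
    have h1 := (key V₀ hV₀).2
    have h2 : V₀.valuation (m : ℂ) ≤ 1 := by
      have h3 := V₀.valuation_le_one ((m : ℕ) : V₀)
      exact_mod_cast h3
    rw [hm, Nat.cast_mul, map_mul] at h1
    have h4 : V₀.valuation (p : ℂ) * V₀.valuation (m : ℂ) ≤ V₀.valuation (p : ℂ) := by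
      calc V₀.valuation (p : ℂ) * V₀.valuation (m : ℂ) ≤ V₀.valuation (p : ℂ) * 1 := mul_le_mul_right h2 _
        _ = V₀.valuation (p : ℂ) := mul_one _
    rw [h1] at h4
    exact absurd hV₀ (not_lt.2 h4)
  obtain ⟨hf, hc⟩ := pts_iso hp h5 (a0_disc h.disc K) (by classical exact iso6_symm h.iso) (Nat.finite_of_card_ne_zero hn0) hnp
  refine ⟨h.ex, Λ', hΛ', (a0_ser h Λ').1 hs', hne, fun L₁ hL₁ V hV => ?_⟩
  have h1 : V.valuation (lG K W L₁ (Λ' 1)) = 1 := by
    rw [← h.per L₁ L' hL₁ hL' V hV, h.per L L' hL hL' V hV]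
    exact (key V hV).1
  rw [a0_sha, a0_nat hp hc V hV, one_pow, mul_one, h1]

/-- Chunk A0 (S). sel_iso, sha_iso, pts_iso and hA. -/
theorem same_bsd (hp : p.Prime) (h5 : 5 ≤ p) (h : Same p W W' K) (hB : BSDPG p W K) (hA : AnUnitG p W' K) : BSDPG p W' K := by
  obtain ⟨⟨h1, h2, h3, h4⟩, -⟩ := hB
  exact ⟨⟨sel_iso hp h5 h.iso h1, sha_iso hp h5 h.iso h2, pts_iso hp h5 (a0_disc h.disc' K) h.iso h3 h4⟩, hA⟩

end H28I
end

-- from Lib.H55K.FB2
section

/-! # H55K: the Galois closure as an abstract field -/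

open NumberField IsDedekindDomain WeierstrassCurve

namespace H55K.TQ

open H55P (IQ embF eF LF Per IsHecke Pt ac Inert Dec Nm UnitP)
open H35P (WAB Ker tt GoodW IntW)
open H55K.MG (VC Crd)

variable {F : Type} [Field F] [NumberField F] {W₀ : WeierstrassCurve (𝓞 F)} {p : ℕ}

/-- Chunk FB2 (S). Ramification in a subfield: the prime P of K with v.map ≤ P^2 has a prime of L above it (Ideal.exists_ideal_over..), and P^2 maps into its square. -/
theorem ramF_up {F : Type} [Field F] [NumberField F] {Ω : Type} [Field Ω] [Algebra F Ω] {K L : IntermediateField F Ω}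
    [NumberField K] [NumberField L] (h : K ≤ L) (v : HeightOneSpectrum (𝓞 F)) (hv : H55P.RamF K v.asIdeal) :
    H55P.RamF L v.asIdeal := by
  obtain ⟨P, hP, hr⟩ := hv
  letI : Algebra K L := (IntermediateField.inclusion h).toRingHom.toAlgebra
  have hinj : Function.Injective (algebraMap (𝓞 K) (𝓞 L)) := by
    intro a b hab
    have h1 : algebraMap K L (a : K) = algebraMap K L (b : K) := congrArg (fun z : 𝓞 L => (z : L)) hab
    exact RingOfIntegers.ext ((algebraMap K L).injective h1)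
  obtain ⟨Q, hQ, hQP⟩ := Ideal.exists_ideal_over_prime_of_isIntegral_of_isDomain (S := 𝓞 L) P
    (by rw [(RingHom.injective_iff_ker_eq_bot _).1 hinj]; exact bot_le)
  refine ⟨Q, hQ, ?_⟩
  rw [Ideal.map_le_iff_le_comap]
  intro x hx
  rw [Ideal.mem_comap]
  have h1 : algebraMap (𝓞 F) (𝓞 K) x ∈ P ^ 2 := hr (Ideal.mem_map_of_mem _ hx)
  have h2 : algebraMap (𝓞 K) (𝓞 L) (algebraMap (𝓞 F) (𝓞 K) x) ∈ (P ^ 2).map (algebraMap (𝓞 K) (𝓞 L)) :=
    Ideal.mem_map_of_mem _ h1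
  have h3 : (P ^ 2).map (algebraMap (𝓞 K) (𝓞 L)) ≤ Q ^ 2 := by
    rw [Ideal.map_pow]
    refine Ideal.pow_right_mono ?_ 2
    rw [Ideal.map_le_iff_le_comap, hQP]
  exact h3 h2

/-- Chunk FB2 (M). Port of H55P.extP_clos, inP_of (H55P/I7.lean): L'' = clos ⊥ (KG F K ι) ≤ L, Galois over F of degree a power of p (clos_pext), UnrP by UnrP.down from L, ramified only at primes ramified in KG F K ι (clos_ram, bottom field: Y9.lean y9_up, y9_ram instead of bot_conv). -/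
theorem inPF_of [IQ F] (hp : p.Prime) (K : Type) [Field K] [NumberField K]
    (ι : K →ₐ[ℚ] AlgebraicClosure F) (L : IntermediateField F (AlgebraicClosure F)) [NumberField L] (hL : H55P.PExt p ⊥ L)
    (hU : H55P.UnrP p L) (hKL : KG F K ι ≤ L) (h : NoAn p W₀ (KG F K ι)) : InPF W₀ p K := by
  have hLf : FiniteDimensional F L := hL.fin
  have hC := H55P.clos_pext p hp ⊥ (KG F K ι) L hL bot_le hKL
  have hCf : FiniteDimensional F (H55P.clos (⊥ : IntermediateField F (AlgebraicClosure F)) (KG F K ι)) := hC.fin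
  have hCn : NumberField (H55P.clos (⊥ : IntermediateField F (AlgebraicClosure F)) (KG F K ι)) :=
    H16C.FR_numberField _
  have hbn : NumberField (⊥ : IntermediateField F (AlgebraicClosure F)) := H16C.FR_numberField _
  have hCL : H55P.clos (⊥ : IntermediateField F (AlgebraicClosure F)) (KG F K ι) ≤ L :=
    H55P.clos_le ⊥ (KG F K ι) L hKL hL.norm
  let f : K →+* H55P.clos (⊥ : IntermediateField F (AlgebraicClosure F)) (KG F K ι) :=
    (IntermediateField.inclusion (H55P.le_clos (⊥ : IntermediateField F (AlgebraicClosure F)) (KG F K ι))).toRingHom.comp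
      (KGmap F K ι)
  refine ⟨H55P.clos (⊥ : IntermediateField F (AlgebraicClosure F)) (KG F K ι), inferInstance, hCn, inferInstance,
    f.toAlgebra, ?_, ?_, ?_, ?_⟩
  · have hnorm : Normal F (H55P.clos (⊥ : IntermediateField F (AlgebraicClosure F)) (KG F K ι)) := by
      rw [IntermediateField.normal_iff_forall_map_le']
      rintro s _ ⟨x, hx, rfl⟩
      have hs : s ∈ (⊥ : IntermediateField F (AlgebraicClosure F)).fixingSubgroup := by
        rw [IntermediateField.fixingSubgroup_bot]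
        exact Subgroup.mem_top s
      exact hC.norm s hs x hx
    exact ⟨⟩
  · obtain ⟨k, hk⟩ := hC.deg
    rw [IntermediateField.finrank_bot, one_mul] at hk
    exact ⟨k, hk⟩
  · letI : Algebra (H55P.clos (⊥ : IntermediateField F (AlgebraicClosure F)) (KG F K ι)) L :=
      (IntermediateField.inclusion hCL).toRingHom.toAlgebra
    exact H55P.UnrP.down _ L p hp hU
  · intro w v hv hΔ hcard
    by_contra he
    have hl : w.asIdeal.LiesOver v.asIdeal := ⟨hv⟩
    have hWp := w.isPrime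
    have hr : H55P.RamF (H55P.clos (⊥ : IntermediateField F (AlgebraicClosure F)) (KG F K ι)) v.asIdeal := by
      refine ⟨w.asIdeal, hWp, ?_⟩
      rw [Ideal.map_le_iff_le_comap]
      intro x hx
      exact H55P.s13_le_sq v.asIdeal v.ne_bot w.asIdeal he x hx
    obtain ⟨v', h1⟩ := y9_up (Ω := AlgebraicClosure F) v
    have h3 : H55P.Ram (⊥ : IntermediateField F (AlgebraicClosure F)) (KG F K ι) v'.asIdeal :=
      H55P.clos_ram ⊥ (KG F K ι) L bot_le hKL hL.norm v' ((y9_ram h1 _).2 hr)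
    exact h v ((y9_ram h1 _).1 h3) hΔ hcard

end H55K.TQ
end

-- from Lib.H28T.CB3
section

open NumberField IsDedekindDomain WeierstrassCurve

namespace H28T

open H55P H55R
open H35P (WAB Ker tt)
open H55K H55K.TQ


variable {F : Type} [Field F] [NumberField F] [IQ F] {W₀ : WeierstrassCurve (𝓞 F)} {Om : ℂ}
    {m : Ideal (𝓞 F)} {ψ : Ideal (𝓞 F) →*₀ 𝓞 F} {p : ℕ}

/-- Chunk CB3 (M), the port of H28R.exists_nice (H28R/W5.lean). Given K, C, ζ, hK : ExtG (Gd W₀ p) p K, hC : Cyc F p K C ζ, B, S. Ω = AlgebraicClosure F; C is algebraic over F: IsAlgClosed.lift : C →ₐ[F] Ω makes Ω a C-algebra and a K-algebra (composition with K → C; the towers by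
IsScalarTower.of_algebraMap_eq). π from cb1_pi. The data A, B, j, act, hD : Dta A B Om j act m ψ p from exists_dta hH hp (DT.lean). D from exists_TFld C (K1A.lean). finrank C D ≠ 1: otherwise algebraMap C D is surjective (end of H28R/W3.lean, rank_ne), every s with Fxd C s satisfies Fxd D s,
so it fixes Tor act π (hD'.crd, H55K.ac_fix): contradiction to cb2_not (cb0_unr: UnrP p K). S' from cb3a_split. Apply H28R.exists_nonsplit C D to the union of S, S', the primes containing p and those containing the image of W₀.Δ (not zero: hH.data.ell) (H28R.W5_fin_mem), the primes with es F C (w.under) ≠ 1 (H55R.ram_fin F C and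
H55R.above_finite, as H28R.W5_fin_ram), the primes of norm ≤ B (H28R.W5_fin_norm). w has prime norm q and does not split. Nice: as in H28R.exists_nice: fs F C v = 1, absNorm v = absNorm w, inertia degree and ramification index 1. Good: if ¬ Gd W₀ p v, then p ∣ absNorm v - 1 (H28R.W5_dvd with hC.prim),
π ∣ ψ v - 1 (cb1_dvd), so w splits in D (cb3a_split): contradiction (Spl C D w is es = 1 and fs = 1). -/
theorem cb3_niceG (hH : BaseH F W₀ Om m ψ) (hp : PrimeH F W₀ p) {G : HeightOneSpectrum (𝓞 F) → Prop}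
    (hG : ∀ v, Gd W₀ p v → G v) (hG' : ∀ v, G v → (p : 𝓞 F) ∉ v.asIdeal) : NiceH G p := by
  classical
  intro K C _ _ _ _ _ _ _ _ ζ hK hC B₀ S hS
  have hgal : IsGalois F C := hC.gal
  have hF : IsScalarTower ℚ F C := IsScalarTower.of_algebraMap_eq' (Subsingleton.elim _ _)
  have hfin : FiniteDimensional F C := Module.Finite.of_restrictScalars_finite ℚ F C
  have halg : Algebra.IsAlgebraic F C := Algebra.IsAlgebraic.of_finite F C
  let iC : C →ₐ[F] AlgebraicClosure F := IsAlgClosed.lift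
  let algC : Algebra C (AlgebraicClosure F) := iC.toRingHom.toAlgebra
  let algK : Algebra K (AlgebraicClosure F) := (iC.toRingHom.comp (algebraMap K C)).toAlgebra
  have t1 : IsScalarTower K C (AlgebraicClosure F) := IsScalarTower.of_algebraMap_eq fun _ => rfl
  have t2 : IsScalarTower F C (AlgebraicClosure F) :=
    IsScalarTower.of_algebraMap_eq fun x => (iC.commutes x).symm
  have t3 : IsScalarTower F K (AlgebraicClosure F) := by
    refine IsScalarTower.of_algebraMap_eq fun x => ?_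
    show algebraMap F (AlgebraicClosure F) x = iC (algebraMap K C (algebraMap F K x))
    rw [← IsScalarTower.algebraMap_apply F K C, iC.commutes]
  obtain ⟨A, B, j, act, hDt⟩ := exists_dta hH hp
  obtain ⟨π, hπ, hπd⟩ := cb1_pi (F := F) hp.prime
  obtain ⟨D, _, _, _, _, _, t4, t5, t6, hD⟩ := exists_TFld hDt.cma C hπ.ne_zero
  have hgalD : IsGalois C D := hD.gal
  have hrk : Module.finrank C D ≠ 1 := by
    intro h1
    apply cb2_not (K := K) (C := C) hDt (ce_unr hp.prime hp.unr hG' hK) hC hπ hπd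
    intro s hs T hT
    have hsurj : Function.Surjective (algebraMap C D) := by
      intro y
      obtain ⟨v, hv⟩ := finrank_eq_one_iff'.1 h1
      obtain ⟨hv0, hv1⟩ := hv
      obtain ⟨c, hc⟩ := hv1 y
      obtain ⟨c1, hc1⟩ := hv1 1
      have hc10 : c1 ≠ 0 := by
        rintro rfl
        rw [zero_smul] at hc1
        exact zero_ne_one hc1
      refine ⟨c / c1, ?_⟩
      have e : v = c1⁻¹ • (1 : D) := by
        rw [← hc1, smul_smul, inv_mul_cancel₀ hc10, one_smul]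
      rw [← hc, e, smul_smul, Algebra.smul_def, mul_one, div_eq_mul_inv]
    have hfx : ∀ y : D, s (algebraMap D (AlgebraicClosure F) y) = algebraMap D (AlgebraicClosure F) y := by
      intro y
      obtain ⟨c, rfl⟩ := hsurj y
      rw [← IsScalarTower.algebraMap_apply C D (AlgebraicClosure F)]
      exact hs c
    obtain ⟨x, y, hx, hy⟩ := hD.crd T hT
    exact ac_fix s (by rw [← hx, hfx x]) (by rw [← hy, hfx y])
  obtain ⟨S', hS', hspl⟩ := cb3a_split (C := C) (D := D) hDt hπ hπd hD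
  have hΔC : algebraMap (𝓞 F) (𝓞 C) W₀.Δ ≠ 0 := by
    intro h0
    apply hH.data.ell
    apply RingOfIntegers.ext
    have h1 : algebraMap F C ((W₀.Δ : 𝓞 F) : F) = 0 := congrArg (fun x : 𝓞 C => (x : C)) h0
    rw [map_eq_zero] at h1
    exact h1
  have hpC : ((p : ℕ) : 𝓞 C) ≠ 0 := Nat.cast_ne_zero.2 hp.prime.ne_zero
  have hram : {w : Pl C | es F C (w.under (𝓞 F)) ≠ 1}.Finite :=
    (ram_fin F C).preimage' (f := fun w : Pl C => w.under (𝓞 F)) fun b _ => above_finite b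
  obtain ⟨w, hwS, hwN, hwns⟩ := H28R.exists_nonsplit C D hrk
    (S ∪ (S' ∪ ({w : Pl C | algebraMap (𝓞 F) (𝓞 C) W₀.Δ ∈ w.asIdeal} ∪
      ({w : Pl C | (p : 𝓞 C) ∈ w.asIdeal} ∪
        ({w : Pl C | es F C (w.under (𝓞 F)) ≠ 1} ∪ {w : Pl C | Ideal.absNorm w.asIdeal ≤ B₀})))))
    (hS.union (hS'.union ((H28R.W5_fin_mem _ hΔC).union ((H28R.W5_fin_mem _ hpC).union
      (hram.union (H28R.W5_fin_norm B₀))))))
  simp only [Set.mem_union, not_or] at hwS
  obtain ⟨hw1, hwS', hwd, hwp, hwe, hwB⟩ := hwS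
  have hwd' : algebraMap (𝓞 F) (𝓞 C) W₀.Δ ∉ w.asIdeal := hwd
  have hwp' : (p : 𝓞 C) ∉ w.asIdeal := hwp
  have hwe' : es F C (w.under (𝓞 F)) = 1 := not_not.1 hwe
  have hwB' : B₀ < Ideal.absNorm w.asIdeal := not_le.1 hwB
  refine ⟨w, hw1, ?_⟩
  have hwpr := w.isPrime
  let v : Pl F := w.under (𝓞 F)
  have hvpr := v.isPrime
  have hlies : w.asIdeal.LiesOver v.asIdeal := ⟨rfl⟩
  have hnorm := D5_norm v w rfl
  have hfs : fs F C v = 1 := by
    have hpos := fs_pos (L := C) v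
    by_contra hne
    have h2 : 2 ≤ fs F C v := by omega
    rw [hnorm] at hwN
    exact Nat.Prime.not_prime_pow h2 hwN
  rw [hfs, pow_one] at hnorm
  have hgood : Gd W₀ p v := by
    by_contra hng
    have hvd : W₀.Δ ∉ v.asIdeal := fun hm => hwd' hm
    have hvp : (p : 𝓞 F) ∉ v.asIdeal := by
      intro hm
      apply hwp'
      have h1 : algebraMap (𝓞 F) (𝓞 C) (p : 𝓞 F) ∈ w.asIdeal := hm
      rwa [map_natCast] at h1
    have hdv : p ∣ Ideal.absNorm v.asIdeal - 1 := by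
      rw [← hnorm]
      exact H28R.W5_dvd hp.prime hC.prim w hwp'
    have hbd := cb1_dvd hH hvd hvp hdv hng hπ hπd
    exact hwns (hspl w hwS' hwN hbd)
  refine ⟨?_, ?_, ?_, hwB'⟩
  · rw [← Ideal.inertiaDegIn_eq_inertiaDeg v.asIdeal w.asIdeal Gal(C/F)]
    exact hfs
  · rw [← Ideal.ramificationIdxIn_eq_ramificationIdx v.asIdeal w.asIdeal Gal(C/F)]
    exact hwe'
  · intro v' hv'
    have e : v' = v := HeightOneSpectrum.ext hv'
    rw [e]
    exact hG v hgood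


end H28T
end

-- from Lib.H28I.L0
section

/-! # H28I, part L: the two curves -/

open NumberField IsDedekindDomain WeierstrassCurve

namespace H28I

open H55P (IQ embF eF LF Per IsHecke Pt ac Inert Dec Nm)
open H35P (WAB Ker tt GoodW IntW)
open H55K (xc yc)
open H55K.TQ

/-- W has CM by the integers of F (BaseH); W' is isogenous to W by an explicit isogeny over the rational numbers, its j-invariant is integral, and the primes of F dividing its discriminant are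
primes of bad reduction. -/
structure TW (F : Type) [Field F] [NumberField F] [IQ F] (W W' : WeierstrassCurve ℤ) (Om : ℂ) (m : Ideal (𝓞 F))
    (ψ : Ideal (𝓞 F) →*₀ 𝓞 F) (kap : ℤ) (e t u lam : ℚ) : Prop where
  base : BaseH F (W⁄(𝓞 F)) Om m ψ
  ip : IP W W' kap e t u lam
  jint : ∃ j₀ : ℤ, W'.c₄ ^ 3 = j₀ * W'.Δ
  bad' : ∀ v : HeightOneSpectrum (𝓞 F), (W'⁄(𝓞 F)).Δ ∈ v.asIdeal → ¬ H55K.GoodAt ((W'⁄(𝓞 F))⁄F) v

variable {F : Type} [Field F] [NumberField F] [IQ F] {W W' : WeierstrassCurve ℤ} {Om : ℂ} {m : Ideal (𝓞 F)}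
    {ψ : Ideal (𝓞 F) →*₀ 𝓞 F} {kap : ℤ} {e t u lam : ℚ} {p : ℕ}

/-- The base change in two steps. -/
theorem l0_eq (W : WeierstrassCurve ℤ) (F : Type) [Field F] [NumberField F] : (W⁄(𝓞 F))⁄F = W⁄F := by
  show (W.map (algebraMap ℤ (𝓞 F))).map (algebraMap (𝓞 F) F) = W.map (algebraMap ℤ F)
  rw [WeierstrassCurve.map_map]
  congr 1

/-- An equation over the integers with discriminant a unit at w is good at w. -/
theorem l0_good {K : Type} [Field K] [NumberField K] (W₀ : WeierstrassCurve (𝓞 K)) (w : HeightOneSpectrum (𝓞 K))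
    (h : W₀.Δ ∉ w.asIdeal) : H55K.GoodAt (W₀⁄K) w := by
  have h1 : (1 : VariableChange K) • (W₀⁄K) = W₀⁄K := one_smul _ _
  refine ⟨1, ?_⟩
  rw [h1]
  refine ⟨w.valuation_le_one _, w.valuation_le_one _, w.valuation_le_one _, w.valuation_le_one _, w.valuation_le_one _, ?_⟩
  have h2 : (W₀⁄K).Δ = algebraMap (𝓞 K) K W₀.Δ := W₀.map_Δ (algebraMap (𝓞 K) K)
  rw [h2]
  exact (w.valuation_eq_one_iff_notMem).2 h

/-- Coprime to a prime number. -/
theorem l0_cop (F : Type) [Field F] [NumberField F] (D : 𝓞 F) (p : ℕ) (hp : p ≠ 0) :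
    IsCoprime (Ideal.span {D}) (Ideal.span {(p : 𝓞 F)}) ↔
      ∀ v : HeightOneSpectrum (𝓞 F), D ∈ v.asIdeal → (p : 𝓞 F) ∉ v.asIdeal := by
  constructor
  · intro h v h1 h2
    rw [Ideal.isCoprime_iff_sup_eq] at h
    apply v.isPrime.ne_top
    rw [eq_top_iff, ← h]
    exact sup_le ((Ideal.span_singleton_le_iff_mem _).2 h1) ((Ideal.span_singleton_le_iff_mem _).2 h2)
  · intro h
    rw [Ideal.isCoprime_iff_sup_eq]
    by_contra hne
    obtain ⟨M, hM, hle⟩ := Ideal.exists_le_maximal _ hne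
    have h1 : D ∈ M := hle (Ideal.mem_sup_left (Ideal.mem_span_singleton_self D))
    have h2 : (p : 𝓞 F) ∈ M := hle (Ideal.mem_sup_right (Ideal.mem_span_singleton_self _))
    have hb : M ≠ ⊥ := by
      rintro rfl
      rw [Ideal.mem_bot] at h2
      exact hp (by exact_mod_cast h2)
    exact h ⟨M, hM.isPrime, hb⟩ h1 h2

open Classical in
/-- Chunk L0 (S). iso6_of with L from exists_perZ (perW_of h.base). -/
theorem tw_iso (h : TW F W W' Om m ψ kap e t u lam) (K : Type) [Field K] [NumberField K] :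
    Iso6 (W⁄K) (W'⁄K) (AlgebraicClosure K) := by
  obtain ⟨L, hL⟩ := exists_perZ (perW_of h.base)
  exact iso6_of h.ip hL K

/-- Chunk L0 (S/M). good_iso in both directions (tw_iso, iso6_symm; jint_Z in FB3C.lean for W, disc_ne). -/
theorem tw_good (h : TW F W W' Om m ψ kap e t u lam) (K : Type) [Field K] [NumberField K] (w : HeightOneSpectrum (𝓞 K)) :
    H55K.GoodAt (W'⁄K) w ↔ H55K.GoodAt (W⁄K) w := by
  classical
  obtain ⟨hW, hW'⟩ := disc_ne h.ip
  have h1 : (W⁄K).Δ ≠ 0 := by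
    have e : (W⁄K).Δ = algebraMap ℤ K W.Δ := W.map_Δ (algebraMap ℤ K)
    rw [e, eq_intCast]
    exact Int.cast_ne_zero.2 hW
  have h2 : (W'⁄K).Δ ≠ 0 := by
    have e : (W'⁄K).Δ = algebraMap ℤ K W'.Δ := W'.map_Δ (algebraMap ℤ K)
    rw [e, eq_intCast]
    exact Int.cast_ne_zero.2 hW'
  exact ⟨fun hg => good_iso h2 hW (jint_Z h.base) (iso6_symm (tw_iso h K)) w hg,
    fun hg => good_iso h1 hW' h.jint (tw_iso h K) w hg⟩

/-- Chunk L0 (S/M). An equation over the integers whose discriminant is not in v is good at v (the change of variables 1; the coefficients have valuation ≤ 1, the discriminant 1: HeightOneSpectrum.valuation_eq_one_iff_notMem). So if W.Δ is in v: W⁄F is bad (h.base.bad), W'⁄F is bad (tw_good for K = F), so W'.Δ is in v; conversely with h.bad'. -/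
theorem tw_supp (h : TW F W W' Om m ψ kap e t u lam) (v : HeightOneSpectrum (𝓞 F)) :
    (W'⁄(𝓞 F)).Δ ∈ v.asIdeal ↔ (W⁄(𝓞 F)).Δ ∈ v.asIdeal := by
  constructor
  · intro h1
    by_contra h2
    have h3 := l0_good _ v h2
    rw [l0_eq] at h3
    have h4 := h.bad' v h1
    rw [l0_eq] at h4
    exact h4 ((tw_good h F v).2 h3)
  · intro h1
    by_contra h2
    have h3 := l0_good _ v h2
    rw [l0_eq] at h3
    have h4 := h.base.bad v h1
    rw [l0_eq] at h4
    exact h4 ((tw_good h F v).1 h3)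

/-- Chunk L0 (S). deu_iso, h.base.deu. -/
theorem tw_deu (h : TW F W W' Om m ψ kap e t u lam) (v : HeightOneSpectrum (𝓞 F)) (hΔ : (W'⁄(𝓞 F)).Δ ∉ v.asIdeal) :
    Nat.card ((W'⁄(𝓞 F))⁄(𝓞 F ⧸ v.asIdeal)).toAffine.Point = Nat.card ((W⁄(𝓞 F))⁄(𝓞 F ⧸ v.asIdeal)).toAffine.Point ∧
      Nat.card ((W'⁄(𝓞 F))⁄(𝓞 F ⧸ v.asIdeal)).toAffine.Point = Nm (1 - ψ v.asIdeal) := by
  have h1 : (W⁄(𝓞 F)).Δ ∉ v.asIdeal := mt (tw_supp h v).2 hΔ
  have h2 := deu_iso h.base h.ip v h1 hΔ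
  exact ⟨h2, h2.trans (h.base.deu v h1)⟩

/-- Chunk L0 (S/M). A prime number p ≥ 5 unramified in F is coprime to the discriminant iff no prime v of F contains both (Ideal.isCoprime_iff_sup_eq, maximal ideals); tw_supp. -/
theorem tw_prime (h : TW F W W' Om m ψ kap e t u lam) : PrimeH F (W'⁄(𝓞 F)) p ↔ PrimeH F (W⁄(𝓞 F)) p := by
  constructor
  · rintro ⟨h1, h2, h3, h4⟩
    rw [l0_cop F _ p h1.ne_zero] at h4
    exact ⟨h1, h2, h3, (l0_cop F _ p h1.ne_zero).2 fun v hv => h4 v ((tw_supp h v).2 hv)⟩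
  · rintro ⟨h1, h2, h3, h4⟩
    rw [l0_cop F _ p h1.ne_zero] at h4
    exact ⟨h1, h2, h3, (l0_cop F _ p h1.ne_zero).2 fun v hv => h4 v ((tw_supp h v).1 hv)⟩

/-- Chunk L0 (S). Definition; tw_supp, tw_deu. -/
theorem tw_inPF (h : TW F W W' Om m ψ kap e t u lam) (K : Type) [Field K] [NumberField K] :
    InPF (W'⁄(𝓞 F)) p K ↔ InPF (W⁄(𝓞 F)) p K := by
  constructor
  · rintro ⟨L, i1, i2, i3, i4, hG, hk, hU, hall⟩
    refine ⟨L, i1, i2, i3, i4, hG, hk, hU, fun w v hv hΔ hp => hall w v hv (mt (tw_supp h v).1 hΔ) ?_⟩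
    rw [(tw_deu h v (mt (tw_supp h v).1 hΔ)).1]
    exact hp
  · rintro ⟨L, i1, i2, i3, i4, hG, hk, hU, hall⟩
    refine ⟨L, i1, i2, i3, i4, hG, hk, hU, fun w v hv hΔ hp => hall w v hv (mt (tw_supp h v).2 hΔ) ?_⟩
    rw [← (tw_deu h v hΔ).1]
    exact hp

end H28I
end

-- from Lib.H28I.L1
section

/-! # H28I, part L: the L-functions agree -/

open NumberField IsDedekindDomain WeierstrassCurve

namespace H28I

open H55P (IQ embF eF LF Per IsHecke Pt ac Inert Dec Nm)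
open H35P (WAB Ker tt GoodW IntW)
open H55K (xc yc)
open H55K.TQ
open H55K (cj)

variable {F : Type} [Field F] [NumberField F] [IQ F] {W W' : WeierstrassCurve ℤ} {Om : ℂ} {m : Ideal (𝓞 F)}
    {ψ : Ideal (𝓞 F) →*₀ 𝓞 F} {kap : ℤ} {e t u lam : ℚ} {p : ℕ}

/-- Chunk L1 (M). lfun_K (H55K/DM.lean) for W and for W' : the right sides agree (see the end of lser_F, FB3B.lean; cur_eq). For W: hH = h.base, hbad = fb3b_bad. For W' : hdeu = tw_deu, hΔm = tw_supp and h.base.supp, hj from h.jint (the images in 𝓞 F), hbad: GoodAt (W'⁄K) w implies GoodAt (W⁄K) w (tw_good), contradiction to fb3b_bad. Int.cast_injective. -/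
theorem lfun_F (h : TW F W W' Om m ψ kap e t u lam) (hp : PrimeH F (W⁄(𝓞 F)) p) {L : IntermediateField F (AlgebraicClosure F)}
    (hL : H55P.PExt p ⊥ L) (K : Type) [Field K] [NumberField K] [Algebra F K] (K' : IntermediateField F (AlgebraicClosure F)) [NumberField K']
    (hK : K' ≤ L) (θ : K ≃ₐ[F] K') (n : ℕ) : (W'⁄K).LFunction n = (W⁄K).LFunction n := by
  obtain ⟨j₀, hj⟩ := h.jint
  have e1 : (((W⁄K).LFunction n : ℤ) : ℂ) =
      (H55N.AI (H55P.PsiP K ψ) * H55N.AI (fun a => (starRingEnd ℂ) (H55P.PsiP K ψ a))) n := by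
    rw [← cur_eq (F := F) (W := W) K]
    exact H55K.lfun_K h.base.data.hecke (fun v hv _ => h.base.deu v hv) (fun v hv => (h.base.supp v).1 hv)
      (H55K.jint_of h.base.data.per h.base.data.ell) (fun w hw => fb3b_bad h.base hp hL K K' hK θ w hw) n
  have hj' : ∃ j₁ : 𝓞 F, (W'⁄(𝓞 F)).c₄ ^ 3 = j₁ * (W'⁄(𝓞 F)).Δ := by
    refine ⟨algebraMap ℤ (𝓞 F) j₀, ?_⟩
    have e4 : (W'⁄(𝓞 F)).c₄ = algebraMap ℤ (𝓞 F) W'.c₄ := W'.map_c₄ (algebraMap ℤ (𝓞 F))
    have eD : (W'⁄(𝓞 F)).Δ = algebraMap ℤ (𝓞 F) W'.Δ := W'.map_Δ (algebraMap ℤ (𝓞 F))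
    rw [e4, eD, ← map_pow, ← map_mul, hj]
  have e2 : (((W'⁄K).LFunction n : ℤ) : ℂ) =
      (H55N.AI (H55P.PsiP K ψ) * H55N.AI (fun a => (starRingEnd ℂ) (H55P.PsiP K ψ a))) n := by
    rw [← cur_eq (F := F) (W := W') K]
    refine H55K.lfun_K h.base.data.hecke (fun v hv _ => (tw_deu h v hv).2) (fun v hv => (h.base.supp v).1 ((tw_supp h v).1 hv))
      hj' (fun w hw hg => ?_) n
    rw [cur_eq K] at hg
    refine fb3b_bad h.base hp hL K K' hK θ w hw ?_
    rw [cur_eq K]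
    exact (tw_good h K w).1 hg
  exact Int.cast_injective (e2.trans e1.symm)

/-- Chunk L1 (M). lfun_quad (H55K/RI2.lean) for W and for W' (see lser_Q, FB3C.lean). hram for W' : hram_of h.base and tw_supp. hbad for W' : tw_good for the field K'. -/
theorem lfun_Q (h : TW F W W' Om m ψ kap e t u lam) (hp : PrimeH F (W⁄(𝓞 F)) p) {L : IntermediateField F (AlgebraicClosure F)}
    (hL : H55P.PExt p ⊥ L) (K₀ : Type) [Field K₀] [NumberField K₀] (K' : IntermediateField F (AlgebraicClosure F)) [NumberField K']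
    [Algebra K₀ K'] (hK : K' ≤ L) (hQ : QuadG F K₀ K') (n : ℕ) : (W'⁄K₀).LFunction n = (W⁄K₀).LFunction n := by
  obtain ⟨j₀, hj⟩ := jint_Z h.base
  obtain ⟨j₁, hj₁⟩ := h.jint
  have hbad : ∀ w : HeightOneSpectrum (𝓞 K'), H55P.mK K' m ≤ w.asIdeal → ¬ H55K.GoodAt (W⁄K') w := by
    intro w hw
    have h1 := bad_K h.base hp hL hK w hw
    rw [cur_eq K'] at h1
    exact h1
  have e1 : (((W⁄K₀).LFunction n : ℤ) : ℂ) = H55N.AI (fun a => H55P.PsiP K' ψ a) n :=
    lfun_quad hQ h.base.data.hecke (fun v hv _ => h.base.deu v hv) h.base.supp (hram_of h.base) hj hbad n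
  have e2 : (((W'⁄K₀).LFunction n : ℤ) : ℂ) = H55N.AI (fun a => H55P.PsiP K' ψ a) n :=
    lfun_quad hQ h.base.data.hecke (fun v hv _ => (tw_deu h v hv).2)
      (fun v => (tw_supp h v).trans (h.base.supp v)) (fun v hv => (tw_supp h v).2 (hram_of h.base v hv)) hj₁
      (fun w hw hg => hbad w hw ((tw_good h K' w).1 hg)) n
  exact Int.cast_injective (e2.trans e1.symm)

/-- Chunk L1 (S/M). sub_setup (FB1.lean), kg_dich, kg_iso as in lrel (FB4.lean) and int_Q (F3.lean); lfun_F or lfun_Q. -/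
theorem lfun_same (h : TW F W W' Om m ψ kap e t u lam) (hp : PrimeH F (W⁄(𝓞 F)) p) (K : Type) [Field K] [NumberField K]
    (hK : SubUF F p K) (n : ℕ) : (W'⁄K).LFunction n = (W⁄K).LFunction n := by
  obtain ⟨Lt, _, _, _, _, hG, ⟨k, hk⟩, hUt⟩ := hK
  obtain ⟨L, hLn, ι, hL, hU, hKL, -⟩ := sub_setup (F := F) p hp.prime K Lt hG k hk hUt
  have hLf : FiniteDimensional F L := hL.fin
  have hKf : FiniteDimensional F (KG F K ι) := H55P.finDim_of_le hKL
  have hKn : NumberField (KG F K ι) := H16C.FR_numberField _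
  rcases kg_dich F K ι with ⟨f, hf⟩ | hQ
  · let _ : Algebra F K := f.toAlgebra
    obtain ⟨θ⟩ := kg_iso F K ι f hf
    exact lfun_F h hp hL K (KG F K ι) hKL θ n
  · let _ : Algebra K (KG F K ι) := (KGmap F K ι).toAlgebra
    exact lfun_Q h hp hL K (KG F K ι) hKL hQ n

end H28I
end

-- from Lib.H28I.N4
section

/-! # H28I, part N: bad reduction over F -/

open NumberField IsDedekindDomain WeierstrassCurve

namespace H28I

open H55P (IQ embF eF LF Per IsHecke Pt ac Inert Dec Nm)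
open H35P (WAB Ker tt GoodW IntW)
open H55K (xc yc)
open H13D
open H55K.TQ

section val

variable {K : Type} [Field K] [NumberField K] {v : HeightOneSpectrum (𝓞 K)}

theorem n4_int {l : ℕ} (hl : l.Prime) (hlv : (l : 𝓞 K) ∈ v.asIdeal) (n : ℤ) : (n : 𝓞 K) ∈ v.asIdeal ↔ (l : ℤ) ∣ n := by
  constructor
  · intro h
    by_contra hn
    obtain ⟨u, w, huw⟩ := (Nat.prime_iff_prime_int.1 hl).irreducible.coprime_iff_not_dvd.2 hn
    apply v.isPrime.ne_top
    rw [Ideal.eq_top_iff_one]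
    have h5 : (1 : 𝓞 K) = (u : 𝓞 K) * (l : 𝓞 K) + (w : 𝓞 K) * (n : 𝓞 K) := by
      have := congrArg (fun z : ℤ => (z : 𝓞 K)) huw
      push_cast at this
      exact this.symm
    rw [h5]
    exact v.asIdeal.add_mem (v.asIdeal.mul_mem_left _ hlv) (v.asIdeal.mul_mem_left _ h)
  · rintro ⟨c, rfl⟩
    push_cast
    exact v.asIdeal.mul_mem_right _ hlv

theorem n4_val (n : ℤ) : v.valuation K ((n : ℤ) : K) < 1 ↔ (n : 𝓞 K) ∈ v.asIdeal := by
  rw [← v.valuation_lt_one_iff_mem (K := K)]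
  have e : algebraMap (𝓞 K) K (n : 𝓞 K) = ((n : ℤ) : K) := map_intCast _ n
  rw [← e]

theorem n4_val1 (n : ℤ) : v.valuation K ((n : ℤ) : K) ≤ 1 := by
  have e : algebraMap (𝓞 K) K (n : 𝓞 K) = ((n : ℤ) : K) := map_intCast _ n
  rw [← e]
  exact v.valuation_le_one _

theorem n4_rat (q : ℚ) : (q : K) * ((q.den : ℤ) : K) = ((q.num : ℤ) : K) := by
  have h1 : q * (q.den : ℚ) = (q.num : ℚ) := Rat.mul_den_eq_num q
  exact_mod_cast congrArg (fun z : ℚ => (z : K)) h1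

theorem n4_den {l : ℕ} (hl : l.Prime) (hlv : (l : 𝓞 K) ∈ v.asIdeal) (q : ℚ) (h : v.valuation K (q : K) ≤ 1) : ¬ l ∣ q.den := by
  intro hd
  have h1 : ¬ (l : ℤ) ∣ q.num := by
    intro h2
    have h3 := q.reduced
    have h4 : l ∣ q.num.natAbs := Int.natCast_dvd.1 h2
    have h5 := Nat.dvd_gcd h4 hd
    rw [Nat.Coprime] at h3
    rw [h3] at h5
    exact hl.one_lt.ne' (Nat.dvd_one.1 h5)
  have h2 := congrArg (v.valuation K) (n4_rat (K := K) q)
  rw [map_mul] at h2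
  have h3 : v.valuation K ((q.den : ℤ) : K) < 1 := (n4_val _).2 ((n4_int hl hlv _).2 (by exact_mod_cast hd))
  have h4 : v.valuation K (q : K) * v.valuation K ((q.den : ℤ) : K) < 1 :=
    mul_lt_one_of_nonneg_of_lt_one_right h zero_le h3
  rw [h2, n4_val, n4_int hl hlv] at h4
  exact h1 h4

theorem n4_num {l : ℕ} (hl : l.Prime) (hlv : (l : 𝓞 K) ∈ v.asIdeal) (q : ℚ) (h : v.valuation K (q : K) = 1) :
    ¬ (l : ℤ) ∣ q.num := by
  intro h2
  have h3 := congrArg (v.valuation K) (n4_rat (K := K) q)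
  rw [map_mul, h, one_mul] at h3
  have h4 := (n4_val (v := v) q.num).2 ((n4_int hl hlv _).2 h2)
  rw [← h3, n4_val, n4_int hl hlv] at h4
  exact n4_den hl hlv q h.le (by exact_mod_cast h4)

end val

/-- Chunk N4 (S/M). K = ℚ, w a prime of 𝓞 ℚ containing l. The valuation w.valuation ℚ of a rational number is ≤ 1 iff l does not divide the denominator, and 1 iff l divides neither numerator nor denominator (integers are in w iff l divides them; as den_of_val, num_of_val in H13D/M5.lean, which are for F with IQ F: copy). -/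
theorem good_Q {l : ℕ} (hl : l.Prime) (w : HeightOneSpectrum (𝓞 ℚ)) (hw : (l : 𝓞 ℚ) ∈ w.asIdeal) (W : WeierstrassCurve ℤ) :
    (¬ (l : ℤ) ∣ W.Δ → H55K.GoodAt (W⁄ℚ) w) ∧ (H55K.GoodAt (W⁄ℚ) w → ∃ C : VariableChange ℚ, IntL (C • (W⁄ℚ)) l) := by
  have hid : ∀ q : ℚ, ((q : ℚ) : ℚ) = q := fun q => rfl
  constructor
  · intro h
    refine ⟨1, ?_, ?_, ?_, ?_, ?_, ?_⟩
    · rw [one_smul]
      exact n4_val1 (v := w) W.a₁
    · rw [one_smul]
      exact n4_val1 (v := w) W.a₂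
    · rw [one_smul]
      exact n4_val1 (v := w) W.a₃
    · rw [one_smul]
      exact n4_val1 (v := w) W.a₄
    · rw [one_smul]
      exact n4_val1 (v := w) W.a₆
    · rw [one_smul]
      have e1 : (W⁄ℚ).Δ = ((W.Δ : ℤ) : ℚ) := W.map_Δ (algebraMap ℤ ℚ)
      rw [e1]
      refine le_antisymm (n4_val1 (v := w) W.Δ) ?_
      by_contra h1
      rw [not_le, n4_val, n4_int hl hw] at h1
      exact h h1
  · rintro ⟨C, h1, h2, h3, h4, h6, hD⟩
    refine ⟨C, ⟨?_, ?_, ?_, ?_, ?_, ?_, ?_⟩⟩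
    · exact n4_den hl hw _ h1
    · exact n4_den hl hw _ h2
    · exact n4_den hl hw _ h3
    · exact n4_den hl hw _ h4
    · exact n4_den hl hw _ h6
    · exact n4_num hl hw _ hD
    · exact n4_den hl hw _ hD.le

/-- Chunk N4 (S). A maximal ideal of 𝓞 ℚ containing l (l is not a unit; or via the isomorphism 𝓞 ℚ = ℤ). -/
theorem exists_wl {l : ℕ} (hl : l.Prime) : ∃ w : HeightOneSpectrum (𝓞 ℚ), (l : 𝓞 ℚ) ∈ w.asIdeal := by
  have hnu : ¬ IsUnit (l : 𝓞 ℚ) := by
    intro h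
    have h1 := h.map Rat.ringOfIntegersEquiv
    rw [map_natCast, Int.isUnit_iff_natAbs_eq, Int.natAbs_natCast] at h1
    exact hl.one_lt.ne' h1
  have hne : Ideal.span {(l : 𝓞 ℚ)} ≠ ⊤ := by
    rwa [Ne, Ideal.span_singleton_eq_top]
  obtain ⟨M, hM, hle⟩ := Ideal.exists_le_maximal _ hne
  have hlM : (l : 𝓞 ℚ) ∈ M := hle (Ideal.mem_span_singleton_self _)
  have hM0 : M ≠ ⊥ := by
    rintro rfl
    have h1 : (l : 𝓞 ℚ) = 0 := hlM
    have h2 : (l : 𝓞 ℚ) ≠ 0 := Nat.cast_ne_zero.2 hl.ne_zero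
    exact h2 h1
  exact ⟨⟨M, hM.isPrime, hM0⟩, hlM⟩

/-- Chunk N4 (M). Suppose W'⁄F is good at v. good_iso over F (iso6_of with L from exists_perZ, iso6_symm; jint for W from jint_of / as in jint_Z): W⁄F is good at v, so W.Δ is not in v (bad_F, contraposition). l the prime number in v (below_v): l does not divide W.Δ (W.Δ = l m would be in v) but l divides W'.Δ (an integer in v is divisible by l: the end of bad_F).
Over ℚ: w from exists_wl, good_Q for W: W⁄ℚ is good at w; good_iso over ℚ: W'⁄ℚ is good at w; good_Q for W': contradiction to hmin'. -/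
theorem bad_tr {F : Type} [Field F] [NumberField F] [IQ F] {W W' : WeierstrassCurve ℤ} {Om : ℂ} {m : Ideal (𝓞 F)}
    {ψ : Ideal (𝓞 F) →*₀ 𝓞 F} (hH : BaseH F (W⁄(𝓞 F)) Om m ψ) (hmin : MinZ W) (hmin' : MinZ W') {kap : ℤ} {e t u lam : ℚ}
    (h : IP W W' kap e t u lam) (hj : ∃ j₀ : ℤ, W'.c₄ ^ 3 = j₀ * W'.Δ) (v : HeightOneSpectrum (𝓞 F))
    (hv : (W'⁄(𝓞 F)).Δ ∈ v.asIdeal) : ¬ H55K.GoodAt ((W'⁄(𝓞 F))⁄F) v := by
  classical
  intro hG
  rw [k1_cur] at hG
  obtain ⟨hd1, hd2⟩ := disc_ne h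
  obtain ⟨L, hL⟩ := exists_perZ (perW_of hH)
  have hDF : ∀ W : WeierstrassCurve ℤ, (W⁄(𝓞 F)).Δ = ((W.Δ : ℤ) : 𝓞 F) := by
    intro W
    exact (W.map_Δ (algebraMap ℤ (𝓞 F))).trans (by simp)
  have hne : ∀ (K : Type) [Field K] [NumberField K] (W : WeierstrassCurve ℤ), W.Δ ≠ 0 → (W⁄K).Δ ≠ 0 := by
    intro K _ _ W hW
    have e1 : (W⁄K).Δ = algebraMap ℤ K W.Δ := W.map_Δ (algebraMap ℤ K)
    rw [e1]
    simpa using hW
  have h1 : H55K.GoodAt (W⁄F) v :=
    good_iso (hne F W' hd2) hd1 (jint_Z hH) (iso6_symm (iso6_of h hL F)) v hG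
  have h2 : (W⁄(𝓞 F)).Δ ∉ v.asIdeal := by
    intro h3
    apply hH.bad v h3
    rw [k1_cur]
    exact h1
  obtain ⟨l, f, hl, hlv, -, -⟩ := below_v v
  have h3 : ¬ (l : ℤ) ∣ W.Δ := by
    intro h4
    apply h2
    rw [hDF]
    exact (n4_int hl hlv _).2 h4
  have h4 : (l : ℤ) ∣ W'.Δ := by
    rw [hDF] at hv
    exact (n4_int hl hlv _).1 hv
  obtain ⟨w, hw⟩ := exists_wl hl
  have h5 := (good_Q hl w hw W).1 h3
  have h6 : H55K.GoodAt (W'⁄ℚ) w := good_iso (hne ℚ W hd1) hd2 hj (iso6_of h hL ℚ) w h5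
  obtain ⟨C, hC⟩ := (good_Q hl w hw W').2 h6
  exact hmin' l hl h4 C hC

/-- The structure TW from minimal equations. -/
theorem tw_of {F : Type} [Field F] [NumberField F] [IQ F] {W W' : WeierstrassCurve ℤ} {Om : ℂ} {m : Ideal (𝓞 F)}
    {ψ : Ideal (𝓞 F) →*₀ 𝓞 F} (hH : BaseH F (W⁄(𝓞 F)) Om m ψ) (hmin : MinZ W) (hmin' : MinZ W') {kap : ℤ} {e t u lam : ℚ}
    (h : IP W W' kap e t u lam) (hj : ∃ j₀ : ℤ, W'.c₄ ^ 3 = j₀ * W'.Δ) : TW F W W' Om m ψ kap e t u lam :=
  ⟨hH, h, hj, fun v hv => bad_tr hH hmin hmin' h hj v hv⟩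

end H28I
end
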