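import Mathlib
import Pool.Agent.Lib.H1M.PP2.D_H28T_W15
import Pool.Agent.Lib.H1M.PP2.M083
import Pool.Agent.Lib.H1M.PP2.M128

open NumberField IsDedekindDomain

namespace H28T

open H28R
open H55P H55R

variable {F : Type} [Field F] [NumberField F] {G : HeightOneSpectrum (𝓞 F) → Prop}

/-- H embeds in the group of an extension of the class, ramified only at primes of norm greater than B. -/
def EmbP (G : HeightOneSpectrum (𝓞 F) → Prop) (p : ℕ) (H : Type) [Group H] (B : ℕ) : Prop :=
  ∃ (K : Type) (_ : Field K) (_ : NumberField K) (_ : Algebra F K), PB G p K B ∧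
    ∃ φ : H →* (K ≃ₐ[F] K), Function.Injective φ

end H28T
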