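import Mathlib
import Pool.Agent.Lib.H1M.PP2.M005
import Pool.Agent.Lib.H1M.PP2.M019
import Pool.Agent.Lib.H1M.PP2.M021
import Pool.Agent.Lib.H1M.PP2.M058
import Pool.Agent.Lib.H1M.PP2.M060
import Pool.Agent.Lib.H1M.PP2.M073
import Pool.Agent.Lib.H1M.PP2.M079
import Pool.Agent.Lib.H1M.PP2.M081
import Pool.Agent.Lib.H1M.PP2.M088
import Pool.Agent.Lib.H1M.PP2.M090
import Pool.Agent.Lib.H1M.PP2.M093
import Pool.Agent.Lib.H1M.PP2.M095
import Pool.Agent.Lib.H1M.PP2.M098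

/-! Merged copies (to shorten the build) of Lib.H13D.R3, Lib.H13D.BF, Lib.H13D.P2, Lib.H13D.H2, Lib.H13D.M0, Lib.H55Z.S1, Lib.SSG.S.S4, Lib.SSG.E.A10, Lib.SSG.E.E3, Lib.SSG.S.D3. -/

-- from Lib.H13D.R3
section

/-! # H13D, part R: bad reduction at the primes ramified in F -/

open NumberField IsDedekindDomain WeierstrassCurve

namespace H13D

open H55P (IQ embF eF LF Per IsHecke Pt ac Inert Dec Nm)
open H35P (WAB Ker tt GoodW IntW)
open H55K
open H55K.MG (VC Crd)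

/-- Chunk R3 (M). A CURVE OVER THE RATIONAL NUMBERS STAYS BAD OVER F AT THE RAMIFIED PRIMES. Follow the proof of H55K.TQ.hram_of (RF.lean) literally: the prime number p (3 or 5, not in v), Ω = AlgebraicClosure F, V above v (exists_abw), σ, the lift s in the inertia group of Gal(Ω/ℚ) with s = σ on F (H13S.inertia_lift), A₀, B₀, A, B, j, act, h : CMA, s' : Ω ≃+* Ω, hsA, hsB, hsc, hsl (semilinear: cma_galr).
Instead of hGood, hfix: Kg, u, r from exists_rm_F (W₀ = W⁄(𝓞 F)). hu: s' (image of u) = image of σ u, V of the quotient is 1 (val_cj: v is stable since a - cj a in v; Abw.eq) (u = 0 impossible: RM.une). hinv: s' twice is an automorphism g of Ω over F (σ σ = id: cj_cj), inert (s (s x) - x = (s (s x) - s x) + (s x - x); s x in V), so it is trivial on the points killed by p (exists_rm_F), acr_trans, acr_eq_ac.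
inv_pm: s' is 1 or -1 on the points killed by p. T₀ a generator (h.gen p): act (cj a) T₀ = ± act (cj a) (s' T₀) = ± s' (act a T₀) = act a T₀ (hsl) in both cases, so p divides a - cj a for all a: rf_card. -/
theorem bad_ram {F : Type} [Field F] [NumberField F] [IQ F] {W : WeierstrassCurve ℤ} {Om : ℂ} (hΔ : W.Δ ≠ 0)
    (hper : Per F (-(eF F (W⁄(𝓞 F)).c₄) / 48) (-(eF F (W⁄(𝓞 F)).c₆) / 864) Om) (v : HeightOneSpectrum (𝓞 F))
    (hv : ∀ a : 𝓞 F, a - cj a ∈ v.asIdeal) : ¬ GoodAt ((W⁄(𝓞 F))⁄F) v := by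
  classical
  intro hgood
  -- the prime number p
  obtain ⟨p, hp, hp2, hpv⟩ : ∃ p : ℕ, p.Prime ∧ p ≠ 2 ∧ (p : 𝓞 F) ∉ v.asIdeal := by
    by_cases h3 : ((3 : ℕ) : 𝓞 F) ∈ v.asIdeal
    · refine ⟨5, by norm_num, by norm_num, fun h5 => ?_⟩
      apply v.isPrime.ne_top
      rw [Ideal.eq_top_iff_one]
      have e : (1 : 𝓞 F) = 2 * ((3 : ℕ) : 𝓞 F) - ((5 : ℕ) : 𝓞 F) := by norm_num
      rw [e]
      exact v.asIdeal.sub_mem (v.asIdeal.mul_mem_left _ h3) h5
    · exact ⟨3, by norm_num, by norm_num, h3⟩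
  set Ω := AlgebraicClosure F with hΩ
  have hcl : IsAlgClosure ℚ Ω := ⟨inferInstance, Algebra.IsAlgebraic.trans ℚ F Ω⟩
  -- the valuation ring
  obtain ⟨V, hV⟩ := exists_abw Ω v
  -- the automorphism
  obtain ⟨σ, hσ'⟩ := exists_cj F
  have hn : Normal ℚ Ω := IsAlgClosure.normal ℚ Ω
  set s0 : Ω ≃ₐ[ℚ] Ω := AlgEquiv.liftNormal σ Ω with hs0
  have hs0' : ∀ x : F, s0 (algebraMap F Ω x) = algebraMap F Ω (σ x) := fun x => AlgEquiv.liftNormal_commutes _ _ _
  set N' : IntermediateField ℚ Ω := (IsScalarTower.toAlgHom ℚ F Ω).fieldRange with hN'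
  have hfin : FiniteDimensional ℚ N' :=
    (AlgEquiv.ofInjectiveField (IsScalarTower.toAlgHom ℚ F Ω)).toLinearEquiv.finiteDimensional
  have hmem : ∀ x : Ω, x ∈ N' → ∃ y : F, algebraMap F Ω y = x := by
    rintro x ⟨y, hy⟩
    exact ⟨y, hy⟩
  obtain ⟨s, hsI, hs1⟩ := H13S.inertia_lift N' V s0 (by
      intro x hx
      obtain ⟨y, rfl⟩ := hmem x hx
      rw [hs0']
      exact ⟨σ y, rfl⟩) (by
      intro x hx hxV
      obtain ⟨y, rfl⟩ := hmem x hx
      rw [hs0', ← map_sub, hV.lt]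
      refine H13S.in4_val v σ ?_ y ((hV y).1 hxV)
      intro z
      have e : σ • z = cj z := by
        apply RingOfIntegers.coe_injective
        exact hσ' z
      rw [e, ← neg_sub]
      exact v.asIdeal.neg_mem (hv z))
  have hs : ∀ x : F, s (algebraMap F Ω x) = algebraMap F Ω (σ x) := by
    intro x
    rw [hs1 (algebraMap F Ω x) ⟨x, rfl⟩, hs0']
  -- the curve over the rational numbers
  set A₀ : ℚ := -(W⁄ℚ).c₄ / 48 with hA₀
  set B₀ : ℚ := -(W⁄ℚ).c₆ / 864 with hB₀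
  have hc4 : algebraMap (𝓞 F) F (W⁄(𝓞 F)).c₄ = algebraMap ℚ F (W⁄ℚ).c₄ := by
    have e1 : (W⁄(𝓞 F)).c₄ = algebraMap ℤ (𝓞 F) W.c₄ := W.map_c₄ _
    have e2 : (W⁄ℚ).c₄ = algebraMap ℤ ℚ W.c₄ := W.map_c₄ _
    rw [e1, e2]
    simp
  have hc6 : algebraMap (𝓞 F) F (W⁄(𝓞 F)).c₆ = algebraMap ℚ F (W⁄ℚ).c₆ := by
    have e1 : (W⁄(𝓞 F)).c₆ = algebraMap ℤ (𝓞 F) W.c₆ := W.map_c₆ _
    have e2 : (W⁄ℚ).c₆ = algebraMap ℤ ℚ W.c₆ := W.map_c₆ _
    rw [e1, e2]
    simp
  obtain ⟨A, hA⟩ : ∃ A : F, A = -(algebraMap (𝓞 F) F (W⁄(𝓞 F)).c₄) / 48 := ⟨_, rfl⟩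
  obtain ⟨B, hB⟩ : ∃ B : F, B = -(algebraMap (𝓞 F) F (W⁄(𝓞 F)).c₆) / 864 := ⟨_, rfl⟩
  have hA' : A = algebraMap ℚ F A₀ := by
    rw [hA, hc4, hA₀, map_div₀, map_neg, map_ofNat]
  have hB' : B = algebraMap ℚ F B₀ := by
    rw [hB, hc6, hB₀, map_div₀, map_neg, map_ofNat]
  have hΔF : (W⁄(𝓞 F)).Δ = algebraMap ℤ (𝓞 F) W.Δ := W.map_Δ _
  have hΔ0 : (W⁄(𝓞 F)).Δ ≠ 0 := by
    rw [hΔF]
    intro h0
    apply hΔ
    have h1 : ((W.Δ : ℤ) : 𝓞 F) = 0 := h0
    exact_mod_cast h1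
  have hd := y3_ne (W⁄(𝓞 F)) hA hB hΔ0
  have hper' : Per F (embF F A) (embF F B) Om := by
    have e1 : embF F A = -(eF F (W⁄(𝓞 F)).c₄) / 48 := by
      rw [hA, map_div₀, map_neg, map_ofNat]
      rfl
    have e2 : embF F B = -(eF F (W⁄(𝓞 F)).c₆) / 864 := by
      rw [hB, map_div₀, map_neg, map_ofNat]
      rfl
    rw [e1, e2]
    exact hper
  obtain ⟨j, hj⟩ := exists_j F Ω
  obtain ⟨act, h⟩ := exists_CMA F A B Om j hd hper' hj
  set s' : Ω ≃+* Ω := (s : Ω ≃+* Ω) with hs'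
  have hsA : s' (algebraMap F Ω A) = algebraMap F Ω A := by
    rw [hA', ← IsScalarTower.algebraMap_apply ℚ F Ω]
    exact s.commutes _
  have hsB : s' (algebraMap F Ω B) = algebraMap F Ω B := by
    rw [hB', ← IsScalarTower.algebraMap_apply ℚ F Ω]
    exact s.commutes _
  have hsc : ∀ a : 𝓞 F, s' (ak Ω a) = ak Ω (cj a) := by
    intro a
    show s (algebraMap F Ω (a : F)) = _
    rw [hs, hσ']
  have hsl := cma_galr h s' hsA hsB hsc
  have hVp : V.valuation (p : Ω) = 1 := by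
    have h1 := TQ.rf_one hV hpv
    have e : ak Ω (p : 𝓞 F) = (p : Ω) := by
      show algebraMap F Ω (((p : 𝓞 F)) : F) = _
      simp
    rwa [e] at h1
  -- the good model
  obtain ⟨Kg, u, r, hR, hI⟩ := exists_rm_F (Ω := Ω) (W⁄(𝓞 F)) hA hB hΔ0 v hgood hV
  have hstab : ∀ a : 𝓞 F, a ∈ v.asIdeal → cj a ∈ v.asIdeal := by
    intro a ha
    have e : cj a = a - (a - cj a) := by ring
    rw [e]
    exact v.asIdeal.sub_mem ha (hv a)
  have hu : V.valuation (s' (algebraMap F Ω u) / algebraMap F Ω u) ≤ 1 := by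
    have h1 : s' (algebraMap F Ω u) = algebraMap F Ω (σ u) := hs u
    have h2 := (hV.eq (σ u) u).2 (val_cj hσ' hstab u)
    rw [h1, map_div₀, h2, div_self]
    exact (Valuation.ne_zero_iff _).2 hR.une
  have hsV : ∀ x ∈ V, V.valuation (s' x - x) < 1 := hsI
  -- the square
  have hcom : ∀ x : F, (s'.trans s') (algebraMap F Ω x) = algebraMap F Ω x := by
    intro x
    show s (s (algebraMap F Ω x)) = _
    rw [hs, hs, m2_invol hσ']
  set g : Ω ≃ₐ[F] Ω := AlgEquiv.ofRingEquiv (f := s'.trans s') hcom with hg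
  have hgI : Inert V g := by
    intro x hx
    have h1 := hsV x hx
    have h2 : s' x ∈ V := by
      have e : s' x = (s' x - x) + x := by ring
      rw [e]
      exact V.add_mem _ _ ((V.valuation_le_one_iff _).1 h1.le) hx
    have h3 := hsV _ h2
    have e : g x - x = (s' (s' x) - s' x) + (s' x - x) := by
      show s' (s' x) - x = _
      ring
    rw [e]
    exact V.valuation.map_add_lt h3 h1
  have hinv : ∀ P : Pt (WAB A B) Ω, p • P = 0 → acr s' hsA hsB (acr s' hsA hsB P) = P := by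
    intro P hP
    have h1 := hI g hgI p hVp P hP
    rw [acr_trans s' s' hsA hsB hsA hsB (hcom A) (hcom B) P]
    have h2 := acr_eq_ac (A := A) (B := B) g (hcom A) (hcom B) P
    rw [h1] at h2
    exact h2
  have hpm := inv_pm hR hp hp2 hVp s' hsA hsB hsV hu hinv
  -- the contradiction
  refine TQ.rf_card (F := F) hp hp2 (fun a => ?_)
  have hpne : (p : 𝓞 F) ≠ 0 := by exact_mod_cast hp.ne_zero
  obtain ⟨T₀, hT₀, g1, g2, -⟩ := h.gen (p : 𝓞 F) hpne
  have hT₀' : p • T₀ = 0 := by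
    rw [← cu_nat act]
    exact hT₀
  have e0 : p • act a T₀ = 0 := by
    rw [← map_nsmul, hT₀', map_zero]
  have e1 := hsl a T₀
  rw [← g2 (a - cj a), map_sub]
  show act a T₀ - act (cj a) T₀ = 0
  rcases hpm with hfix | hfix
  · rw [hfix T₀ hT₀', hfix _ e0] at e1
    rw [← e1, sub_self]
  · rw [hfix T₀ hT₀', hfix _ e0, map_neg] at e1
    rw [neg_inj.1 e1, sub_self]

end H13D
end

-- from Lib.H13D.BF
section

/-! # H13D: bad reduction over F -/

open NumberField IsDedekindDomain WeierstrassCurve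

namespace H13D

open H55P (IQ embF eF LF Per IsHecke Pt ac Inert Dec Nm)
open H35P (WAB Ker tt GoodW IntW)
open H55K

/-- The primes dividing the discriminant of a global minimal equation are primes of bad reduction over F. -/
theorem bad_F {F : Type} [Field F] [NumberField F] [IQ F] {W : WeierstrassCurve ℤ} {Om : ℂ} (hΔ : W.Δ ≠ 0)
    (hper : Per F (-(eF F (W⁄(𝓞 F)).c₄) / 48) (-(eF F (W⁄(𝓞 F)).c₆) / 864) Om) (hmin : MinZ W) (v : HeightOneSpectrum (𝓞 F))
    (hv : (W⁄(𝓞 F)).Δ ∈ v.asIdeal) : ¬ GoodAt ((W⁄(𝓞 F))⁄F) v := by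
  by_cases hr : ∀ a : 𝓞 F, a - cj a ∈ v.asIdeal
  · exact bad_ram hΔ hper v hr
  · rw [not_forall] at hr
    intro hG
    obtain ⟨l, f, hl, hlv, -, -⟩ := below_v v
    have hΔF : (W⁄(𝓞 F)).Δ = ((W.Δ : ℤ) : 𝓞 F) := by
      have := W.map_Δ (algebraMap ℤ (𝓞 F))
      exact this.trans (by simp)
    have hdv : (l : ℤ) ∣ W.Δ := by
      by_contra hnd
      have hcop : IsCoprime (l : ℤ) W.Δ := (Nat.prime_iff_prime_int.1 hl).coprime_iff_not_dvd.2 hnd
      obtain ⟨a, b, hab⟩ := hcop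
      apply v.isPrime.ne_top
      rw [Ideal.eq_top_iff_one]
      have h5 : (1 : 𝓞 F) = (a : 𝓞 F) * (l : 𝓞 F) + (b : 𝓞 F) * ((W.Δ : ℤ) : 𝓞 F) := by
        have := congrArg (fun z : ℤ => (z : 𝓞 F)) hab
        push_cast at this
        exact this.symm
      rw [h5]
      rw [hΔF] at hv
      exact Ideal.add_mem _ (Ideal.mul_mem_left _ _ hlv) (Ideal.mul_mem_left _ _ hv)
    have hE : ((W⁄ℚ)⁄F) = ((W⁄(𝓞 F))⁄F) := by
      ext <;> simp [WeierstrassCurve.map, WeierstrassCurve.baseChange]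
    obtain ⟨C, hC⟩ := descend hr hl hlv (W⁄ℚ) (by rw [hE]; exact hG)
    exact hmin l hl hdv C hC

end H13D
end

-- from Lib.H13D.P2
section

/-! # H13D, part P: arithmetic of the field -/

open NumberField IsDedekindDomain WeierstrassCurve

namespace H13D

open H55P (IQ embF eF LF Per IsHecke Pt ac Inert Dec Nm)
open H35P (WAB Ker tt GoodW IntW)
open H55K

variable {F : Type} [Field F] [NumberField F] [IQ F] {δ : 𝓞 F} {D : ℕ}

/-- Chunk P2 (M). x + cj x = a is an integer (H55K.TQ.rf_tr in RF.lean). x - cj x is divisible by δ (x and cj x are congruent to the same integer n modulo δ: ex_int, cj δ = -δ): x - cj x = δ w, and cj w = w (apply cj: cj x - x = -δ cj w; δ ≠ 0). w is an integer: 2 w = w + cj w = t is an integer (rf_tr), and w * w = Nm w (mul_cj) is an integer n, t^2 = 4 n, so t is even, w = t/2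
(characteristic 0, 2 ≠ 0). -/
theorem two_mul_eq (hd : Del F δ D) (x : 𝓞 F) : ∃ a b : ℤ, 2 * x = a + b * δ := by
  obtain ⟨a, ha⟩ := TQ.rf_tr x
  obtain ⟨n, c, hc⟩ := ex_int hd x
  obtain ⟨b, hb⟩ := TQ.rf_tr c
  refine ⟨a, b, ?_⟩
  have h1 := congrArg cj hc
  rw [map_sub, map_mul, cj_int, cj_del hd] at h1
  linear_combination ha + hc - h1 + δ * hb

/-- Chunk P2 (S/M). 2 u = a + b δ (two_mul_eq); Nm u = 1 (u * cj u = Nm u is a unit of 𝓞 F and a natural number; or Ideal.absNorm of the unit ideal), so 4 = (a + b δ)(a - b δ) = a^2 + D b^2 with D ≥ 7 (D > 3 prime, D % 4 = 3): b = 0, a = 2 or -2. -/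
theorem unit_pm (hd : Del F δ D) (u : (𝓞 F)ˣ) : (u : 𝓞 F) = 1 ∨ (u : 𝓞 F) = -1 := by
  obtain ⟨a, b, h1⟩ := two_mul_eq hd (u : 𝓞 F)
  have h2 := congrArg cj h1
  rw [map_mul, map_ofNat, map_add, map_mul, cj_int, cj_int, cj_del hd] at h2
  have h3 : Nm (u : 𝓞 F) = 1 := by
    unfold Nm
    rw [Ideal.absNorm_eq_one_iff, Ideal.span_singleton_eq_top]
    exact u.isUnit
  have h4 := mul_cj (u : 𝓞 F)
  rw [h3, Nat.cast_one] at h4
  have h5 : ((a ^ 2 + D * b ^ 2 : ℤ) : 𝓞 F) = ((4 : ℤ) : 𝓞 F) := by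
    push_cast
    have h6 := hd.sq
    linear_combination 4 * h4 - 2 * cj (u : 𝓞 F) * h1 - (a + b * δ) * h2 + b ^ 2 * h6
  have h6 : a ^ 2 + D * b ^ 2 = 4 := Int.cast_injective h5
  have hD : (7 : ℤ) ≤ D := by
    have h7 := hd.big
    have h8 := hd.mod
    omega
  have hb : b = 0 := by
    by_contra hb
    have h7 : 1 ≤ b ^ 2 := by
      have := pow_pos (abs_pos.2 hb) 2
      rw [sq_abs] at this
      omega
    nlinarith [sq_nonneg a]
  rw [hb] at h6 h1
  have ha : a = 2 ∨ a = -2 := by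
    have h7 : (a - 2) * (a + 2) = 0 := by linear_combination h6
    rcases mul_eq_zero.1 h7 with h8 | h8
    · left; linarith
    · right; linarith
  have h20 : (2 : 𝓞 F) ≠ 0 := two_ne_zero
  rcases ha with ha | ha
  · left
    apply mul_left_cancel₀ h20
    rw [h1, ha]
    push_cast
    ring
  · right
    apply mul_left_cancel₀ h20
    rw [h1, ha]
    push_cast
    ring


end H13D
end

-- from Lib.H13D.H2
section

/-! # H13D, part H: the Hecke character -/

open NumberField IsDedekindDomain WeierstrassCurve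

namespace H13D

open H55P (IQ embF eF LF Per IsHecke Pt ac Inert Dec Nm)
open H55K

variable {F : Type} [Field F] [NumberField F] [IQ F] {δ : 𝓞 F} {D : ℕ}

/-- Chunk H2 (S/M). For x with Nm x prime to N: δ does not divide x (D = Nm δ divides N), so the value is 1 or -1 (lam_pm, hχ.pm). -/
theorem eps_pm (hd : Del F δ D) {N : ℕ} (hDN : D ∣ N) {d : ℤ} {χ : ℕ → ℤ} (hχ : Kron d N χ) {x : 𝓞 F} (hx : (Nm x).Coprime N) :
    lam δ D x * χ (Nm x) = 1 ∨ lam δ D x * χ (Nm x) = -1 := by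
  have h1 : ¬ δ ∣ x := by
    rintro ⟨c, rfl⟩
    rw [Nm_mul, Nm_del hd] at hx
    have h2 : D.Coprime N := Nat.Coprime.coprime_mul_right hx
    have h3 := Nat.Coprime.eq_one_of_dvd h2 hDN
    exact hd.prime.one_lt.ne' h3
  rcases lam_pm hd h1 with h2 | h2 <;> rcases hχ.pm _ hx with h3 | h3 <;> rw [h2, h3]
  · left; norm_num
  · right; norm_num
  · right; norm_num
  · left; norm_num

/-- Chunk H2 (M). THE HECKE CHARACTER. M = span {N^3} is not bottom (N ≠ 0: D divides N and N ≠ 0) and not top (the prime D divides N). ε(x) = lam x * χ (Nm x) for x with Nm x prime to N (cop_iff): multiplicative (lam_mul, hχ.mul, Nm_mul), ε(-x) = -ε(x) (lam_neg, Nm (-x) = Nm x), ε(x) = ε(y) if x - y is in M (δ divides D, which divides N: lam_congr; Nm_congr, hχ.per).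
ψ(J) = ε(x) x for J = span {x} (IQ.pid; a generator is unique up to the sign: span_pm, and (-1)(-1) = 1) if J is prime to M, and 0 otherwise: a monoid homomorphism with zero (J K is prime to M iff J and K are; 0 is not). gen: ε(x) = ± 1. per: ε(x) = ε(y). If H55W/HB.lean (Hecke builder of helper55) is on main use it with f x = ε(x). -/
theorem exists_psi (hd : Del F δ D) {N : ℕ} (hN : N ≠ 0) (hDN : D ∣ N) {d : ℤ} {χ : ℕ → ℤ} (hχ : Kron d N χ) :
    ∃ ψ : Ideal (𝓞 F) →*₀ 𝓞 F, IsHecke (Ideal.span {(N : 𝓞 F) ^ 3}) ψ ∧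
      ∀ x : 𝓞 F, (Nm x).Coprime N → ψ (Ideal.span {x}) = ((lam δ D x * χ (Nm x) : ℤ) : 𝓞 F) * x := by
  have hbot : Ideal.span {(N : 𝓞 F) ^ 3} ≠ ⊥ := by
    rw [Ne, Ideal.span_singleton_eq_bot]
    exact pow_ne_zero 3 (Nat.cast_ne_zero.2 hN)
  have htop : Ideal.span {(N : 𝓞 F) ^ 3} ≠ ⊤ := by
    intro h
    have h1 : IsCoprime (Ideal.span {δ}) (Ideal.span {(N : 𝓞 F) ^ 3}) := by
      rw [h, ← Ideal.one_eq_top]
      exact isCoprime_one_right
    rw [cop_iff, Nm_del hd] at h1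
    exact hd.prime.one_lt.ne' (Nat.Coprime.eq_one_of_dvd h1 hDN)
  have hNneg : ∀ x : 𝓞 F, Nm (-x) = Nm x := by
    intro x
    unfold Nm
    rw [Ideal.span_singleton_neg]
  have key : ∃ ψ : Ideal (𝓞 F) →*₀ 𝓞 F, IsHecke (Ideal.span {(N : 𝓞 F) ^ 3}) ψ ∧
      ∀ x, IsCoprime (Ideal.span {x}) (Ideal.span {(N : 𝓞 F) ^ 3}) → ψ (Ideal.span {x}) =
        (fun x => ((lam δ D x * χ (Nm x) : ℤ) : 𝓞 F)) x * x := by
    refine H55W.exists_hecke (Ideal.span {(N : 𝓞 F) ^ 3}) hbot htop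
      (fun x => ((lam δ D x * χ (Nm x) : ℤ) : 𝓞 F)) ?_ ?_ ?_ ?_
    · intro x hx
      rcases eps_pm hd hDN hχ ((cop_iff N x).1 hx) with h | h
      · show IsUnit (((lam δ D x * χ (Nm x) : ℤ) : 𝓞 F))
        rw [h]
        simp
      · show IsUnit (((lam δ D x * χ (Nm x) : ℤ) : 𝓞 F))
        rw [h]
        simp
    · intro x y hx hy
      show ((lam δ D (x * y) * χ (Nm (x * y)) : ℤ) : 𝓞 F) = ((lam δ D x * χ (Nm x) : ℤ) : 𝓞 F) * ((lam δ D y * χ (Nm y) : ℤ) : 𝓞 F)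
      rw [lam_mul hd, Nm_mul, hχ.mul _ _ ((cop_iff N x).1 hx) ((cop_iff N y).1 hy)]
      push_cast
      ring
    · intro u x hu hx
      show ((lam δ D (u * x) * χ (Nm (u * x)) : ℤ) : 𝓞 F) * u = ((lam δ D x * χ (Nm x) : ℤ) : 𝓞 F)
      obtain ⟨w, rfl⟩ := hu
      rcases unit_pm hd w with h | h
      · rw [h, one_mul, mul_one]
      · rw [h, neg_one_mul, lam_neg hd, hNneg]
        push_cast
        ring
    · intro x y hx hy hxy
      show ((lam δ D x * χ (Nm x) : ℤ) : 𝓞 F) = ((lam δ D y * χ (Nm y) : ℤ) : 𝓞 F)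
      have h1 : δ ∣ x - y := by
        obtain ⟨c, hc⟩ := Ideal.mem_span_singleton.1 hxy
        have h3 : δ ∣ (N : 𝓞 F) := by
          obtain ⟨e, he⟩ := hDN
          refine ⟨-δ * e, ?_⟩
          rw [he]
          push_cast
          have := hd.sq
          linear_combination (e : 𝓞 F) * this
        rw [hc]
        exact dvd_mul_of_dvd_left (dvd_pow h3 (by norm_num)) _
      rw [lam_congr hd h1, hχ.per _ _ ((cop_iff N x).1 hx) ((cop_iff N y).1 hy) (Nm_congr N hxy)]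
  obtain ⟨ψ, h1, h2⟩ := key
  exact ⟨ψ, h1, fun x hx => h2 x ((cop_iff N x).2 hx)⟩

end H13D
end

-- from Lib.H13D.M0
section

/-! # H13D, part M: the primes ramified in F -/

open NumberField IsDedekindDomain WeierstrassCurve

namespace H13D

open H55P (IQ embF eF LF Per IsHecke Pt ac Inert Dec Nm)
open H35P (WAB Ker tt GoodW IntW)
open H55K H55K.TQ
open H55K.MG (VC Crd)

/-- Chunk M0 (S). Copy of the proof of H55K.TQ.hram_of (RF.lean), which uses of hH only hH.data.ell (the discriminant of W⁄(𝓞 F) is not 0: hΔ, W.map_Δ) and hH.data.per (hper). -/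
theorem disc_ram {F : Type} [Field F] [NumberField F] [IQ F] {W : WeierstrassCurve ℤ} {Om : ℂ} (hΔ : W.Δ ≠ 0)
    (hper : Per F (-(eF F (W⁄(𝓞 F)).c₄) / 48) (-(eF F (W⁄(𝓞 F)).c₆) / 864) Om) (v : HeightOneSpectrum (𝓞 F))
    (hv : ∀ a : 𝓞 F, a - cj a ∈ v.asIdeal) : (W⁄(𝓞 F)).Δ ∈ v.asIdeal := by
  classical
  by_contra hΔv
  -- the prime number p
  obtain ⟨p, hp, hp2, hpv⟩ : ∃ p : ℕ, p.Prime ∧ p ≠ 2 ∧ (p : 𝓞 F) ∉ v.asIdeal := by
    by_cases h3 : ((3 : ℕ) : 𝓞 F) ∈ v.asIdeal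
    · refine ⟨5, by norm_num, by norm_num, fun h5 => ?_⟩
      apply v.isPrime.ne_top
      rw [Ideal.eq_top_iff_one]
      have e : (1 : 𝓞 F) = 2 * ((3 : ℕ) : 𝓞 F) - ((5 : ℕ) : 𝓞 F) := by norm_num
      rw [e]
      exact v.asIdeal.sub_mem (v.asIdeal.mul_mem_left _ h3) h5
    · exact ⟨3, by norm_num, by norm_num, h3⟩
  set Ω := AlgebraicClosure F with hΩ
  have hcl : IsAlgClosure ℚ Ω := ⟨inferInstance, Algebra.IsAlgebraic.trans ℚ F Ω⟩
  -- the valuation ring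
  obtain ⟨V, hV⟩ := exists_abw Ω v
  -- the automorphism
  obtain ⟨σ, hσ⟩ := d1_sigma F
  have hσ' : ∀ a : 𝓞 F, σ (a : F) = ((cj a : 𝓞 F) : F) := by
    intro a
    apply (embF F).injective
    rw [hσ]
    exact (e_cj a).symm
  have hn : Normal ℚ Ω := IsAlgClosure.normal ℚ Ω
  set s0 : Ω ≃ₐ[ℚ] Ω := AlgEquiv.liftNormal σ Ω with hs0
  have hs0' : ∀ x : F, s0 (algebraMap F Ω x) = algebraMap F Ω (σ x) := fun x => AlgEquiv.liftNormal_commutes _ _ _
  set N' : IntermediateField ℚ Ω := (IsScalarTower.toAlgHom ℚ F Ω).fieldRange with hN'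
  have hfin : FiniteDimensional ℚ N' :=
    (AlgEquiv.ofInjectiveField (IsScalarTower.toAlgHom ℚ F Ω)).toLinearEquiv.finiteDimensional
  have hmem : ∀ x : Ω, x ∈ N' → ∃ y : F, algebraMap F Ω y = x := by
    rintro x ⟨y, hy⟩
    exact ⟨y, hy⟩
  obtain ⟨s, hsI, hs1⟩ := H13S.inertia_lift N' V s0 (by
      intro x hx
      obtain ⟨y, rfl⟩ := hmem x hx
      rw [hs0']
      exact ⟨σ y, rfl⟩) (by
      intro x hx hxV
      obtain ⟨y, rfl⟩ := hmem x hx
      rw [hs0', ← map_sub, hV.lt]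
      refine H13S.in4_val v σ ?_ y ((hV y).1 hxV)
      intro z
      have e : σ • z = cj z := by
        apply RingOfIntegers.coe_injective
        exact hσ' z
      rw [e, ← neg_sub]
      exact v.asIdeal.neg_mem (hv z))
  have hs : ∀ x : F, s (algebraMap F Ω x) = algebraMap F Ω (σ x) := by
    intro x
    rw [hs1 (algebraMap F Ω x) ⟨x, rfl⟩, hs0']
  -- the curve over the rational numbers
  set A₀ : ℚ := -(W⁄ℚ).c₄ / 48 with hA₀
  set B₀ : ℚ := -(W⁄ℚ).c₆ / 864 with hB₀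
  have hc4 : algebraMap (𝓞 F) F (W⁄(𝓞 F)).c₄ = algebraMap ℚ F (W⁄ℚ).c₄ := by
    have e1 : (W⁄(𝓞 F)).c₄ = algebraMap ℤ (𝓞 F) W.c₄ := W.map_c₄ _
    have e2 : (W⁄ℚ).c₄ = algebraMap ℤ ℚ W.c₄ := W.map_c₄ _
    rw [e1, e2]
    simp
  have hc6 : algebraMap (𝓞 F) F (W⁄(𝓞 F)).c₆ = algebraMap ℚ F (W⁄ℚ).c₆ := by
    have e1 : (W⁄(𝓞 F)).c₆ = algebraMap ℤ (𝓞 F) W.c₆ := W.map_c₆ _
    have e2 : (W⁄ℚ).c₆ = algebraMap ℤ ℚ W.c₆ := W.map_c₆ _
    rw [e1, e2]
    simp
  obtain ⟨A, hA⟩ : ∃ A : F, A = -(algebraMap (𝓞 F) F (W⁄(𝓞 F)).c₄) / 48 := ⟨_, rfl⟩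
  obtain ⟨B, hB⟩ : ∃ B : F, B = -(algebraMap (𝓞 F) F (W⁄(𝓞 F)).c₆) / 864 := ⟨_, rfl⟩
  have hA' : A = algebraMap ℚ F A₀ := by
    rw [hA, hc4, hA₀, map_div₀, map_neg, map_ofNat]
  have hB' : B = algebraMap ℚ F B₀ := by
    rw [hB, hc6, hB₀, map_div₀, map_neg, map_ofNat]
  have hΔ0 : (W⁄(𝓞 F)).Δ ≠ 0 := by
    intro h0
    have e1 : (W⁄(𝓞 F)).Δ = algebraMap ℤ (𝓞 F) W.Δ := W.map_Δ _
    rw [e1] at h0
    apply hΔ
    have e2 : ((W.Δ : ℤ) : 𝓞 F) = 0 := h0
    exact_mod_cast e2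
  have hd := y3_ne (W⁄(𝓞 F)) hA hB hΔ0
  have hper' : Per F (embF F A) (embF F B) Om := by
    have e1 : embF F A = -(eF F (W⁄(𝓞 F)).c₄) / 48 := by
      rw [hA, map_div₀, map_neg, map_ofNat]
      rfl
    have e2 : embF F B = -(eF F (W⁄(𝓞 F)).c₆) / 864 := by
      rw [hB, map_div₀, map_neg, map_ofNat]
      rfl
    rw [e1, e2]
    exact hper
  obtain ⟨j, hj⟩ := exists_j F Ω
  obtain ⟨act, h⟩ := exists_CMA F A B Om j hd hper' hj
  set s' : Ω ≃+* Ω := (s : Ω ≃+* Ω) with hs'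
  have hsA : s' (algebraMap F Ω A) = algebraMap F Ω A := by
    rw [hA', ← IsScalarTower.algebraMap_apply ℚ F Ω]
    exact s.commutes _
  have hsB : s' (algebraMap F Ω B) = algebraMap F Ω B := by
    rw [hB', ← IsScalarTower.algebraMap_apply ℚ F Ω]
    exact s.commutes _
  have hsc : ∀ a : 𝓞 F, s' (ak Ω a) = ak Ω (cj a) := by
    intro a
    show s (algebraMap F Ω (a : F)) = _
    rw [hs, hσ']
  have hsl := cma_galr h s' hsA hsB hsc
  -- good reduction
  have hVp : V.valuation (p : Ω) = 1 := by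
    have h1 := rf_one hV hpv
    have e : ak Ω (p : 𝓞 F) = (p : Ω) := by
      show algebraMap F Ω (((p : 𝓞 F)) : F) = _
      simp
    rwa [e] at h1
  have hcast : ∀ n : ℤ, algebraMap ℚ Ω (algebraMap ℤ ℚ n) = (n : Ω) := fun n => by simp
  have hcast' : ∀ n : ℤ, algebraMap ℚ Ω (algebraMap ℤ ℚ n) ∈ V := fun n => by
    rw [hcast]
    exact intCast_mem V n
  have hΔQ : (W⁄ℚ).Δ = algebraMap ℤ ℚ W.Δ := W.map_Δ _
  have hΔF : (W⁄(𝓞 F)).Δ = algebraMap ℤ (𝓞 F) W.Δ := W.map_Δ _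
  have hΔQ0 : (W⁄ℚ).Δ ≠ 0 := by
    intro h0
    apply hΔ0
    rw [hΔQ] at h0
    have h1 : W.Δ = 0 := by
      have h2 : (W.Δ : ℚ) = 0 := h0
      exact_mod_cast h2
    rw [hΔF, h1, map_zero]
  have hGood : GoodW ((W⁄ℚ)⁄Ω) V := by
    refine ⟨⟨hcast' _, hcast' _, hcast' _, hcast' _, hcast' _⟩, ?_⟩
    have e1 : ((W⁄ℚ)⁄Ω).Δ = algebraMap ℚ Ω (W⁄ℚ).Δ := (W⁄ℚ).map_Δ _
    have h1 := rf_one hV hΔv
    have e2 : ak Ω (W⁄(𝓞 F)).Δ = (W.Δ : Ω) := by
      rw [hΔF]
      show algebraMap F Ω ((algebraMap ℤ (𝓞 F) W.Δ : 𝓞 F) : F) = _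
      simp
    rw [e1, hΔQ, hcast, ← e2]
    exact h1
  have hE : (WAB A B)⁄Ω = (WAB A₀ B₀)⁄Ω := by
    have e1 : algebraMap F Ω A = algebraMap ℚ Ω A₀ := by rw [hA', ← IsScalarTower.algebraMap_apply ℚ F Ω]
    have e2 : algebraMap F Ω B = algebraMap ℚ Ω B₀ := by rw [hB', ← IsScalarTower.algebraMap_apply ℚ F Ω]
    ext <;> simp [WAB, WeierstrassCurve.map, WeierstrassCurve.baseChange, e1, e2]
  have hfix : ∀ T : Pt (WAB A B) Ω, p • T = 0 → acr s' hsA hsB T = T := by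
    intro T hT
    obtain ⟨f1, f2⟩ := rf_fix (W⁄ℚ) hGood hΔQ0 hA₀ hB₀ s hsI p hVp ((WAB A B)⁄Ω) hE T hT
    by_cases hT0 : T = 0
    · rw [hT0, map_zero]
    · refine CC.c27_ext (fun h0 => hT0 ((acr_zero_iff s' hsA hsB T).1 h0)) hT0 ?_ ?_
      · rw [xc_acr]
        exact f1
      · rw [yc_acr]
        exact f2
  -- the contradiction
  refine rf_card (F := F) hp hp2 (fun a => ?_)
  have hpne : (p : 𝓞 F) ≠ 0 := by exact_mod_cast hp.ne_zero
  obtain ⟨T₀, hT₀, g1, g2, -⟩ := h.gen (p : 𝓞 F) hpne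
  have hT₀' : p • T₀ = 0 := by
    rw [← cu_nat act]
    exact hT₀
  have e0 : p • act a T₀ = 0 := by
    rw [← map_nsmul, hT₀', map_zero]
  have e1 := hsl a T₀
  rw [hfix T₀ hT₀', hfix _ e0] at e1
  rw [← g2 (a - cj a), map_sub]
  show act a T₀ - act (cj a) T₀ = 0
  rw [← e1, sub_self]

end H13D
end

-- from Lib.H55Z.S1
section

/-! # H55Z: decomposition groups above p in the wreath step

If N/C is generated by p-th roots of elements congruent to 1 modulo p^2 (ζ in C) then the decomposition groups of the primes above p are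
trivial. -/

open NumberField IsDedekindDomain

namespace H55Z

open H28R H55P H55R

theorem s1_val {C N : Type} [Field C] [NumberField C] [Field N] [NumberField N] [Algebra C N]
    (σ : Gal(N/C)) (W : Pl N) (h : smulP σ W = W) (y : N) : W.valuation N (σ y) = W.valuation N y := by
  by_cases hy : y = 0
  · rw [hy, map_zero]
  · have h1 := ord_smul σ W (Units.mk0 y hy)
    rw [h] at h1
    have h2 := BF1_val W (Units.mk0 y hy)
    have h3 := BF1_val W (Units.map ((σ : N ≃ₐ[C] N) : N →* N) (Units.mk0 y hy))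
    rw [h1] at h3
    exact h3.trans h2.symm

/-- 1 - z^j and 1 - z have the same valuation. -/
theorem s1_ge {N : Type} [Field N] [NumberField N] (W : Pl N) {z μ : N} {p : ℕ} (hp : p.Prime)
    (hz : IsPrimitiveRoot z p) (hμ : μ ^ p = 1) (hne : μ ≠ 1) :
    W.valuation N (1 - z) ≤ W.valuation N (1 - μ) := by
  have hμp : IsPrimitiveRoot μ p := by
    have h2 := orderOf_eq_prime (p := p) (hp := ⟨hp⟩) hμ hne
    rw [← h2]
    exact IsPrimitiveRoot.orderOf μ
  have := NeZero.mk hp.ne_zero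
  obtain ⟨j, -, hj⟩ := hμp.eq_pow_of_pow_eq_one hz.pow_eq_one
  have hv : W.valuation N μ = 1 := by
    refine W12_root W hp.ne_zero ?_
    rw [← map_pow, hμ, map_one]
  rw [← hj]
  exact W12_pow W hv j

theorem dec_one {p : ℕ} (hp : p.Prime) (h3 : 3 ≤ p) {C N : Type} [Field C] [NumberField C] [Field N]
    [NumberField N] [Algebra C N] {ζ : C} (hζ : IsPrimitiveRoot ζ p) (R : Set N)
    (hgen : Algebra.adjoin C R = ⊤) (W : Pl N) (hpW : (p : 𝓞 N) ∈ W.asIdeal)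
    (hR : ∀ x ∈ R, ∃ c : Cˣ, x ^ p = algebraMap C N c ∧ ∃ a : 𝓞 C, (a : C) = c ∧ (p : 𝓞 C) ^ 2 ∣ a - 1)
    (σ : Gal(N/C)) (hσ : smulP σ W = W) : σ = 1 := by
  classical
  have hζN : IsPrimitiveRoot (algebraMap C N ζ) p := hζ.map_of_injective (algebraMap C N).injective
  have hne0 : NeZero p := ⟨hp.ne_zero⟩
  set z : N := algebraMap C N ζ with hzdef
  have hz1 : z ≠ 1 := hζN.ne_one hp.one_lt
  have hvz : W.valuation N z = 1 := by
    refine W12_root W hp.ne_zero ?_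
    rw [← map_pow, hζN.pow_eq_one, map_one]
  have hσfix : ∀ μ : N, μ ^ p = 1 → σ μ = μ := by
    intro μ hμ
    obtain ⟨i, -, hi⟩ := hζN.eq_pow_of_pow_eq_one hμ
    rw [← hi, hzdef, ← map_pow]
    exact σ.commutes _
  have hplt : W.valuation N (p : N) < 1 := by
    have h1 : W.valuation N (algebraMap (𝓞 N) N (p : 𝓞 N)) < 1 := (W.valuation_lt_one_iff_mem (K := N) (p : 𝓞 N)).2 hpW
    rwa [map_natCast] at h1
  have hzne : (1 - z) ≠ 0 := sub_ne_zero.2 hz1.symm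
  have hz0 : W.valuation N (1 - z) ≠ 0 := (Valuation.ne_zero_iff _).2 hzne
  -- 1 - z is not a unit
  have hzlt : W.valuation N (1 - z) < 1 := by
    have hle : W.valuation N (1 - z) ≤ 1 := by
      refine (Valuation.map_sub_le (v := W.valuation N) (g := 1) ?_ ?_)
      · rw [map_one]
      · exact hvz.le
    refine lt_of_le_of_ne hle fun h1 => ?_
    -- the product of the 1 - μ is p
    have e1 : (p : N) = ∏ μ ∈ primitiveRoots p N, (1 - μ) := by
      have := Fact.mk hp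
      rw [← Polynomial.eval_one_cyclotomic_prime (R := N) (p := p),
        Polynomial.cyclotomic_eq_prod_X_sub_primitiveRoots hζN, Polynomial.eval_prod]
      refine Finset.prod_congr rfl fun μ _ => ?_
      rw [Polynomial.eval_sub, Polynomial.eval_X, Polynomial.eval_C]
    have e2 : 1 ≤ W.valuation N (p : N) := by
      rw [e1]
      refine Finset.prod_induction _ (fun a => 1 ≤ W.valuation N a) ?_ ?_ ?_
      · intro a b ha hb
        rw [map_mul]
        exact one_le_mul ha hb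
      · exact (map_one _).ge
      · intro μ hμ
        rw [mem_primitiveRoots hp.pos] at hμ
        rw [← h1]
        exact s1_ge W hp hζN hμ.pow_eq_one (hμ.ne_one hp.one_lt)
    exact absurd (e2.trans_lt hplt) (lt_irrefl _)
  have hint : ∀ t : 𝓞 C, W.valuation N (algebraMap C N (t : C)) ≤ 1 := by
    intro t
    have e : algebraMap C N (t : C) = ((algebraMap (𝓞 C) (𝓞 N) t : 𝓞 N) : N) := rfl
    rw [e]
    exact W.valuation_le_one _
  have hfix : ∀ x ∈ R, σ x = x := by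
    intro x hx
    obtain ⟨c, hc, a, ha, b, hb⟩ := hR x hx
    have hcN : algebraMap C N c ≠ 0 := by
      intro h2
      exact c.ne_zero ((map_eq_zero _).1 h2)
    have hx0 : x ≠ 0 := by
      rintro rfl
      rw [zero_pow hp.ne_zero] at hc
      exact hcN hc.symm
    have hσx : σ x ^ p = algebraMap C N c := by
      rw [← map_pow, hc]
      exact σ.commutes _
    obtain ⟨w, hw⟩ : ∃ w, w = σ x / x := ⟨_, rfl⟩
    have hwp : w ^ p = 1 := by
      rw [hw, div_pow, hσx, hc, div_self hcN]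
    have hσw : σ x = w * x := by
      rw [hw, div_mul_cancel₀ _ hx0]
    have hcb : algebraMap C N c = 1 + (p : N) ^ 2 * algebraMap C N (b : C) := by
      rw [← ha]
      have e1 : a = 1 + (p : 𝓞 C) ^ 2 * b := by
        rw [← hb]
        ring
      have e2 : (a : C) = 1 + (p : C) ^ 2 * (b : C) := by
        rw [e1]
        show algebraMap (𝓞 C) C _ = _
        rw [map_add, map_mul, map_pow, map_one, map_natCast]
      rw [e2, map_add, map_mul, map_pow, map_one, map_natCast]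
    -- some root of unity is very close to x
    obtain ⟨μ, hμ, hμ2⟩ : ∃ μ ∈ Polynomial.nthRootsFinset p (1 : N),
        W.valuation N ((x - μ) / (1 - z)) < 1 := by
      by_contra hcon
      push Not at hcon
      have e1 : x ^ p - 1 = ∏ μ ∈ Polynomial.nthRootsFinset p (1 : N), (x - μ) := by
        have h5 := congrArg (Polynomial.eval x) (Polynomial.X_pow_sub_one_eq_prod hp.pos hζN)
        rw [Polynomial.eval_prod, Polynomial.eval_sub, Polynomial.eval_pow, Polynomial.eval_X,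
          Polynomial.eval_one] at h5
        rw [h5]
        refine Finset.prod_congr rfl fun μ _ => ?_
        rw [Polynomial.eval_sub, Polynomial.eval_X, Polynomial.eval_C]
      have e2 : (x ^ p - 1) / (1 - z) ^ p =
          ∏ μ ∈ Polynomial.nthRootsFinset p (1 : N), ((x - μ) / (1 - z)) := by
        rw [Finset.prod_div_distrib, ← e1, Finset.prod_const, hζN.card_nthRootsFinset]
      have e3 : (x ^ p - 1) / (1 - z) ^ p =
          algebraMap C N (b : C) * ((p : N) / (1 - z) ^ (p - 1)) ^ 2 * (1 - z) ^ (p - 2) := by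
        rw [hc, hcb]
        have e4 : (1 - z) ^ (p - 1) * (1 - z) ^ (p - 1) = (1 - z) ^ p * (1 - z) ^ (p - 2) := by
          rw [← pow_add, ← pow_add]
          congr 1
          omega
        rw [div_pow, ← pow_mul, show (p - 1) * 2 = (p - 1) + (p - 1) by ring, pow_add, e4,
          add_sub_cancel_left]
        have e5 : (1 - z) ^ p ≠ 0 := pow_ne_zero _ hzne
        have e6 : (1 - z) ^ (p - 2) ≠ 0 := pow_ne_zero _ hzne
        field_simp
      have h6 : W.valuation N ((x ^ p - 1) / (1 - z) ^ p) < 1 := by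
        rw [e3, map_mul, map_mul, map_pow, map_pow]
        refine mul_lt_one_of_nonneg_of_lt_one_right ?_ zero_le ?_
        · exact mul_le_one' (hint b) (pow_le_one₀ zero_le (W12_p2 W hp hvz hζN))
        · exact pow_lt_one₀ zero_le hzlt (by omega)
      have h7 : 1 ≤ W.valuation N ((x ^ p - 1) / (1 - z) ^ p) := by
        rw [e2]
        refine Finset.prod_induction _ (fun a => 1 ≤ W.valuation N a) ?_ ?_ ?_
        · intro a b ha hb
          rw [map_mul]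
          exact one_le_mul ha hb
        · exact (map_one _).ge
        · exact hcon
      exact absurd (h7.trans_lt h6) (lt_irrefl _)
    rw [Polynomial.mem_nthRootsFinset hp.pos] at hμ
    have hμ0 : μ ≠ 0 := by
      rintro rfl
      rw [zero_pow hp.ne_zero] at hμ
      exact zero_ne_one hμ
    have hσ1 : W.valuation N ((w * x - μ) / (1 - z)) < 1 := by
      have h8 := s1_val σ W hσ ((x - μ) / (1 - z))
      rw [map_div₀, map_sub, map_sub, map_one, hσfix z hζN.pow_eq_one, hσfix μ hμ, hσw] at h8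
      rw [h8]
      exact hμ2
    have hvw : W.valuation N w = 1 := by
      refine W12_root W hp.ne_zero ?_
      rw [← map_pow, hwp, map_one]
    have hvμ : W.valuation N μ = 1 := by
      refine W12_root W hp.ne_zero ?_
      rw [← map_pow, hμ, map_one]
    -- w μ - μ is divisible by (1 - z) times a non-unit
    have h9 : W.valuation N ((1 - w) / (1 - z)) < 1 := by
      have h10 : W.valuation N ((1 - w) / (1 - z) * μ) < 1 := by
        have e3 : (1 - w) / (1 - z) * μ = w * ((x - μ) / (1 - z)) - (w * x - μ) / (1 - z) := by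
          rw [mul_div_assoc', ← sub_div, div_mul_eq_mul_div]
          congr 1
          ring
        rw [e3]
        refine (Valuation.map_sub _ _ _).trans_lt (max_lt ?_ hσ1)
        rw [map_mul, hvw, one_mul]
        exact hμ2
      rwa [map_mul, hvμ, mul_one] at h10
    by_contra hne
    have hw1 : w ≠ 1 := by
      rintro rfl
      rw [one_mul] at hσw
      exact hne hσw
    have h11 := s1_ge W hp hζN hwp hw1
    rw [map_div₀, div_lt_one₀ (zero_lt_iff.2 hz0)] at h9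
    exact absurd (h11.trans_lt h9) (lt_irrefl _)
  have h9 : (σ : N →ₐ[C] N) = AlgHom.id C N := by
    apply AlgHom.ext_of_adjoin_eq_top hgen
    intro x hx
    exact hfix x hx
  apply AlgEquiv.ext
  intro x
  exact DFunLike.congr_fun h9 x

end H55Z
end

-- from Lib.SSG.S.S4
section

/-! # SSG, part S (E4), S: the smoothing factors -/

open NumberField IsDedekindDomain

namespace SSG.S

open H55N H55P

variable {F : Type} [Field F] [NumberField F] [IQ F] {K : Type} [Field K] [NumberField K] [Algebra F K]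

/-! Chunk S4 (S). PORTS of P_neP and factorP (Lib/H55P/T6.lean): only the facts ‖χ c‖ = 1 or χ c = 0, and V(χ c - 1) < 1 or χ c = 0, are used there. s4_unit1: the same with χ = 1
(q tm (PsiP) 1 c = PsiP c). s4_root: (z - 1)^(p^k) = z^(p^k) - 1 modulo p; or induction on k with pow_max/pt6_pow1: if V(z - 1) = 1 then (pow_max p hp V hV z .. k) V(1 - z^(p^k)) = 1, contradiction to z^(p^k) = 1. -/

theorem s4_ne {M : Ideal (𝓞 F)} {ψ : Ideal (𝓞 F) →*₀ 𝓞 F} (h : IsHecke M ψ) (χ : Ideal (𝓞 K) →*₀ ℂ)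
    (c : Ideal (𝓞 K)) (q : ℕ) (hq : q.Prime) (hc : Ideal.absNorm c = q) (hχ : ‖χ c‖ = 1 ∨ χ c = 0) (s : ℂ) (hs : s.re < 3 / 2) :
    1 - (q : ℂ) * tm (PsiP K ψ * χ : Ideal (𝓞 K) →*₀ ℂ) s c ≠ 0 := by
  have hp0 : (0 : ℝ) < q := by exact_mod_cast hq.pos
  have hp1 : (1 : ℝ) < q := by exact_mod_cast hq.one_lt
  have hc0 : c ≠ ⊥ := by
    intro h
    rw [h, Ideal.absNorm_bot] at hc
    exact hq.ne_zero hc.symm
  intro hh
  have h1 : (q : ℂ) * tm (PsiP K ψ * χ : Ideal (𝓞 K) →*₀ ℂ) s c = 1 := by linear_combination -hh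
  have h2 : tm (PsiP K ψ * χ : Ideal (𝓞 K) →*₀ ℂ) s c = PsiP K ψ c * χ c * (q : ℂ) ^ (-s) := by
    unfold tm
    rw [hc]
    rfl
  rw [h2] at h1
  have h3 : PsiP K ψ c ≠ 0 := by
    intro h0
    rw [h0] at h1
    simp at h1
  have h4 : χ c ≠ 0 := by
    intro h0
    rw [h0] at h1
    simp at h1
  have h5 : ‖χ c‖ = 1 := hχ.resolve_right h4
  have h6 : ‖PsiP K ψ c‖ ^ 2 = q := by
    rw [PsiP_norm h c hc0 ((PsiP_ne h c hc0).1 h3), hc]
  have h7 : ‖PsiP K ψ c‖ = (q : ℝ) ^ (1 / 2 : ℝ) := by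
    rw [← Real.sqrt_eq_rpow, ← h6, Real.sqrt_sq (norm_nonneg _)]
  have h8 := congrArg norm h1
  rw [norm_mul, norm_mul, norm_mul, h5, h7, NormOneClass.norm_one, Complex.norm_natCast,
    Complex.norm_natCast_cpow_of_pos hq.pos, mul_one, Complex.neg_re] at h8
  have h9 : (q : ℝ) * ((q : ℝ) ^ (1 / 2 : ℝ) * (q : ℝ) ^ (-s.re)) = (q : ℝ) ^ (3 / 2 - s.re) := by
    have h11 : (3 / 2 - s.re) = 1 + (1 / 2 + -s.re) := by ring
    rw [h11, Real.rpow_add hp0, Real.rpow_add hp0, Real.rpow_one]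
  rw [h9] at h8
  have h10 : 1 < (q : ℝ) ^ (3 / 2 - s.re) := Real.one_lt_rpow hp1 (by linarith)
  rw [h8] at h10
  exact lt_irrefl _ h10

theorem s4_unit (V : ValuationSubring ℂ) (ψ : Ideal (𝓞 F) →*₀ 𝓞 F) (χ : Ideal (𝓞 K) →*₀ ℂ) (c : Ideal (𝓞 K)) (q : ℕ)
    (hq : q.Prime) (hc : Ideal.absNorm c = q) (hu : V.valuation (1 - PsiP K ψ c) = 1)
    (hχ : V.valuation (χ c - 1) < 1 ∨ χ c = 0) :
    V.valuation (1 - (q : ℂ) * tm (PsiP K ψ * χ : Ideal (𝓞 K) →*₀ ℂ) 1 c) = 1 := by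
  have hq0 : (q : ℂ) ≠ 0 := by exact_mod_cast hq.ne_zero
  have h2 : (q : ℂ) * tm (PsiP K ψ * χ : Ideal (𝓞 K) →*₀ ℂ) 1 c = PsiP K ψ c * χ c := by
    have h1 : tm (PsiP K ψ * χ : Ideal (𝓞 K) →*₀ ℂ) 1 c = PsiP K ψ c * χ c * (q : ℂ) ^ (-1 : ℂ) := by
      unfold tm
      rw [hc]
      rfl
    rw [h1, Complex.cpow_neg_one]
    field_simp
  rw [h2]
  rcases hχ with h | h
  · have h3 : 1 - PsiP K ψ c * χ c = -(PsiP K ψ c * (χ c - 1)) + (1 - PsiP K ψ c) := by ring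
    rw [h3, Valuation.map_add_eq_of_lt_right, hu]
    rw [hu, Valuation.map_neg, map_mul]
    exact lt_of_le_of_lt (mul_le_of_le_one_left' (PsiP_int ψ c V).1) h
  · rw [h, mul_zero, sub_zero, map_one]

theorem s4_unit1 (V : ValuationSubring ℂ) (ψ : Ideal (𝓞 F) →*₀ 𝓞 F) (c : Ideal (𝓞 K)) (q : ℕ)
    (hq : q.Prime) (hc : Ideal.absNorm c = q) (hu : V.valuation (1 - PsiP K ψ c) = 1) :
    V.valuation (1 - (q : ℂ) * tm (PsiP K ψ) 1 c) = 1 := by
  have hq0 : (q : ℂ) ≠ 0 := by exact_mod_cast hq.ne_zero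
  have h2 : (q : ℂ) * tm (PsiP K ψ) 1 c = PsiP K ψ c := by
    have h1 : tm (PsiP K ψ) 1 c = PsiP K ψ c * (q : ℂ) ^ (-1 : ℂ) := by
      unfold tm
      rw [hc]
    rw [h1, Complex.cpow_neg_one]
    field_simp
  rw [h2]
  exact hu

theorem s4_root (p : ℕ) (hp : p.Prime) (V : ValuationSubring ℂ) (hV : V.valuation (p : ℂ) < 1) (k : ℕ) (z : ℂ)
    (hz : z ^ p ^ k = 1) : V.valuation (z - 1) < 1 := by
  have h1 : V.valuation z = 1 := by
    apply pt6_le (n := p ^ k) (pow_ne_zero _ hp.ne_zero)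
    rw [← map_pow, hz, map_one]
  have h2 : V.valuation (z - 1) ≤ 1 :=
    (Valuation.map_sub _ _ _).trans (max_le h1.le (by rw [map_one]))
  by_contra hcon
  have h5 : V.valuation (1 - z) = 1 := by
    rw [Valuation.map_sub_swap]
    exact le_antisymm h2 (not_lt.1 hcon)
  have h6 := pow_max p hp V hV z h1.le h5 k
  rw [hz, sub_self, map_zero] at h6
  exact zero_ne_one h6

end SSG.S
end

-- from Lib.SSG.E.A10
section

open NumberField IsDedekindDomain

namespace SSG.E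

open H55N H55P

variable {F : Type} [Field F] [NumberField F] [IQ F] {K : Type} [Field K] [NumberField K] [Algebra F K] {m p N : ℕ}

/-! Chunk A10 (M). (1) lin_form: the trace against a p-integral element is a linear form in the coordinates modulo p^N. α = y₀/d, p not dividing d; d' with d d' = 1 mod p^N (Nat / Int coprime). D.Tr α x = embF (trace (x α)) (Tr_eq, Lib/H55P/A2.lean), so d * y = trace (y₀ x)
in 𝓞 F (embF injective), so by hr.tr: mk (d y) = sum r k (y₀ x) = sum r k y₀ * r k x; c k := d' * out (r k y₀); mk (out z) = z (Ideal.Quotient.mk_out); mk y = mk (sum c k * cr r x k); then Ideal.Quotient.eq and Ideal.mem_span_singleton.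
(2) alg_int: the embeddings of a p-integral element: σ x is algebraic over Q, so it is in the range of j (Ω is algebraically closed of characteristic 0: the minimal polynomial of x over Q splits in Ω; its roots in ℂ are the images of the roots in Ω: IsAlgClosed.splits, Polynomial.roots_map; see tors_range in
Lib/H55K/C13.lean). d * x integral over Z, so j ω = σ x has d ω integral over Z (j injective), d ω in V (V is integrally closed: IsIntegral ... ValuationSubring; see ak_le in Lib/H55K/G1.lean), V(d) = 1 because p does not divide d and V(p) < 1 (Bezout). -/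

theorem lin_form (D : H55P.Ctx F K m) (hE : Emb F D.σ) {v : Fin (m + 1) → HeightOneSpectrum (𝓞 K)}
    {r : Fin (m + 1) → 𝓞 K →+* RN F p N} (hp : p.Prime) (hr : Crd p N v r) {α : K} (hα : LInt p α) :
    ∃ c : Fin (m + 1) → 𝓞 F, ∀ (x : 𝓞 K) (y : 𝓞 F), D.Tr α x = eF F y →
      (p : 𝓞 F) ^ N ∣ y - ∑ k, c k * cr r x k := by
  obtain ⟨d, hd, y0, hy0⟩ := hα
  have hco : IsCoprime (d : ℤ) ((p : ℤ) ^ N) := by
    apply IsCoprime.pow_right
    rw [Nat.isCoprime_iff_coprime]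
    exact ((Nat.Prime.coprime_iff_not_dvd hp).2 hd).symm
  obtain ⟨a, b, hab⟩ := hco
  refine ⟨fun k => (a : 𝓞 F) * Quotient.out (r k y0), ?_⟩
  intro x y hxy
  rw [Tr_eq D hE] at hxy
  have h1 : Algebra.trace F K ((x : K) * α) = (y : F) := (embF F).injective hxy
  have h2 : Algebra.trace F K ((y0 * x : 𝓞 K) : K) = (((d : 𝓞 F) * y : 𝓞 F) : F) := by
    have e1 : ((y0 * x : 𝓞 K) : K) = (d : F) • ((x : K) * α) := by
      have e0 : ((y0 * x : 𝓞 K) : K) = (y0 : K) * (x : K) := map_mul (algebraMap (𝓞 K) K) y0 x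
      rw [Algebra.smul_def, e0, ← hy0]
      simp only [map_natCast]
      ring
    have e2 : (((d : 𝓞 F) * y : 𝓞 F) : F) = (d : F) * (y : F) := by
      have e3 := map_mul (algebraMap (𝓞 F) F) (d : 𝓞 F) y
      rw [map_natCast] at e3
      exact e3
    rw [e1, map_smul, h1, smul_eq_mul, e2]
  have h3 := hr.tr _ _ h2
  rw [← Ideal.mem_span_singleton, ← Ideal.Quotient.eq_zero_iff_mem, map_sub, map_sum]
  have hout : ∀ z : RN F p N, Ideal.Quotient.mk (Ideal.span {(p : 𝓞 F) ^ N}) (Quotient.out z) = z :=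
    fun z => Ideal.Quotient.mk_out z
  have h4 : ∀ k, Ideal.Quotient.mk (Ideal.span {(p : 𝓞 F) ^ N}) ((a : 𝓞 F) * Quotient.out (r k y0) * cr r x k) =
      (a : RN F p N) * r k (y0 * x) := by
    intro k
    rw [cr, map_mul, map_mul, hout, hout, map_mul, map_intCast, mul_assoc]
  rw [Finset.sum_congr rfl fun k _ => h4 k, ← Finset.mul_sum, ← h3]
  have hpN : Ideal.Quotient.mk (Ideal.span {(p : 𝓞 F) ^ N}) ((p : 𝓞 F) ^ N) = 0 := by
    rw [Ideal.Quotient.eq_zero_iff_mem]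
    exact Ideal.mem_span_singleton_self _
  have h5 : (a : RN F p N) * (d : RN F p N) + (b : RN F p N) * (p : RN F p N) ^ N = 1 := by
    have := congrArg (fun t : ℤ => (t : RN F p N)) hab
    simpa using this
  have h6 : (p : RN F p N) ^ N = 0 := by
    rw [← hpN, map_pow, map_natCast]
  rw [h6, mul_zero, add_zero] at h5
  rw [map_mul, map_natCast, ← mul_assoc, h5, one_mul, sub_self]

theorem alg_int {Ω : Type} [Field Ω] [IsAlgClosed Ω] (j : Ω →+* ℂ) (hp : p.Prime) (V : ValuationSubring Ω)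
    (hV : V.valuation (p : Ω) < 1) {α : K} (hα : LInt p α) (σ : K →+* ℂ) :
    ∃ ω : Ω, j ω = σ α ∧ V.valuation ω ≤ 1 := by
  obtain ⟨d, hd, y0, hy0⟩ := hα
  haveI : CharZero Ω := j.charZero
  have hd0 : (d : Ω) ≠ 0 := by
    intro h
    rw [Nat.cast_eq_zero] at h
    exact hd (h ▸ dvd_zero p)
  have hdV : (d : Ω) ∈ V := natCast_mem V d
  have hV1 : V.valuation (d : Ω) = 1 := by
    apply le_antisymm ((V.valuation_le_one_iff _).2 hdV)
    by_contra hlt
    rw [not_le] at hlt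
    have hco : IsCoprime (d : ℤ) (p : ℤ) := by
      rw [Nat.isCoprime_iff_coprime]
      exact ((Nat.Prime.coprime_iff_not_dvd hp).2 hd).symm
    obtain ⟨a, b, hab⟩ := hco
    have h1 : (a : Ω) * (d : Ω) + (b : Ω) * (p : Ω) = 1 := by
      have := congrArg (fun t : ℤ => (t : Ω)) hab
      simpa using this
    have ha : V.valuation (a : Ω) ≤ 1 := (V.valuation_le_one_iff _).2 (intCast_mem V a)
    have hb : V.valuation (b : Ω) ≤ 1 := (V.valuation_le_one_iff _).2 (intCast_mem V b)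
    have h2 : V.valuation ((a : Ω) * (d : Ω) + (b : Ω) * (p : Ω)) < 1 := by
      apply V.valuation.map_add_lt
      · rw [map_mul]
        exact mul_lt_one_of_nonneg_of_lt_one_right ha zero_le hlt
      · rw [map_mul]
        exact mul_lt_one_of_nonneg_of_lt_one_right hb zero_le hV
    rw [h1, map_one] at h2
    exact lt_irrefl _ h2
  -- a root
  have hint : IsIntegral ℤ (y0 : K) := y0.2
  obtain ⟨P, hPm, hP0⟩ := hint
  have hPΩ : (P.map (algebraMap ℤ Ω)).Monic := hPm.map _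
  have hspl : (P.map (algebraMap ℤ Ω)).Splits := IsAlgClosed.splits _
  have hroots : ((P.map (algebraMap ℤ Ω)).map j).roots = (P.map (algebraMap ℤ Ω)).roots.map j :=
    hspl.roots_map j
  have hmem : σ (y0 : K) ∈ ((P.map (algebraMap ℤ Ω)).map j).roots := by
    rw [Polynomial.mem_roots (hPΩ.map j).ne_zero, Polynomial.IsRoot.def, Polynomial.map_map,
      Polynomial.eval_map]
    have e1 : (j.comp (algebraMap ℤ Ω)) = σ.comp (algebraMap ℤ K) := RingHom.ext_int _ _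
    rw [e1, ← Polynomial.hom_eval₂, hP0, map_zero]
  rw [hroots, Multiset.mem_map] at hmem
  obtain ⟨w, hw, hjw⟩ := hmem
  rw [Polynomial.mem_roots hPΩ.ne_zero, Polynomial.IsRoot.def, Polynomial.eval_map] at hw
  have hwi : IsIntegral ℤ w := ⟨P, hPm, hw⟩
  have hwV : w ∈ V := by
    have h3 : IsIntegral V w := hwi.tower_top
    obtain ⟨y, hy⟩ := IsIntegrallyClosed.isIntegral_iff.1 h3
    rw [← hy]
    exact y.2
  refine ⟨w / d, ?_, ?_⟩
  · rw [map_div₀, hjw, map_natCast, ← hy0, map_mul, map_natCast, mul_comm, mul_div_assoc, div_self, mul_one]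
    rw [Nat.cast_ne_zero]
    intro h
    exact hd (h ▸ dvd_zero p)
  · rw [map_div₀, hV1, div_one]
    exact (V.valuation_le_one_iff _).2 hwV

end SSG.E
end

-- from Lib.SSG.E.E3
section

open NumberField IsDedekindDomain

namespace SSG.E

open H55N H55P
open H35P (WAB Ker tt)
open H55K (CMA Dta)

variable {F : Type} [Field F] [NumberField F] [IQ F]

/-! Chunk E3 (M/L). The p-adic shape of the values: assembly of A1-A10. p does not divide S.M (hS.bez, N >= 1), S.M <> 0. For β in S.B (in D.X: hS.rep.sub) and each k: D.Tr (S.A k) β = eF (1 + l y) (hS.dir.one); S.d k i = eF (l δ_i) (dirN_tr, W8, with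
hS.dir.mem). l does not divide S.e₂ (e₁ M + e₂ P = 1, l | M). τ := e₂ (1 + l y) - l δ_0 - l δ_1 is not divisible by l; δ± := l (δ_0 ± δ_1). For a in D.X: D.Tr (S.A k) a = eF (y_k a), y_k a = sum c_k x cr r a x mod p^N (lin_form; hS.dir.one gives y_k a), so with c' := (-1)^N e₁ c:
S.z a β k = eF (sum c' * cr) / (-p)^N + eF τ / M + (an element e(t) of the lattice LF F): e₁ e(y)/p^N = e((-1)^N e₁ y)/(-p)^N; T2_perz. term_fn (A9) for c', τ, δ+ and δ- gives hh+, hh-. Put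
h a := ω * sum over β of G β * prod over k of (M⁻¹ * (hh+ (cr r a) - hh- (cr r a))), ω with j ω = det (σ_i (A k)) (alg_int for each entry, RingHom.map_det), H' a := i of the same expression at the vector a; H' in Fn: Fn_scal (‖i ω‖ <= 1), Fn_sum, Fn_prod, Fn_sub, ‖i M‖ = 1 (V(M) = 1: loc_eq), ‖G β‖ <= 1
(an integer). j (h a) = S.H a / Om^(m+1): unfold LD.H, the m + 1 factors Om⁻¹ go into the product (Finset.prod_div_distrib / prod_const, card Fin). GV: d.good V hV. -/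

theorem e3_det {Ω : Type} [Field Ω] (j : Ω →+* ℂ) (V : ValuationSubring Ω) {m : ℕ} (M : Matrix (Fin (m + 1)) (Fin (m + 1)) ℂ)
    (h : ∀ k i, ∃ ω : Ω, j ω = M k i ∧ V.valuation ω ≤ 1) : ∃ ω : Ω, j ω = M.det ∧ V.valuation ω ≤ 1 := by
  choose w hw hw' using h
  let W : Matrix (Fin (m + 1)) (Fin (m + 1)) V := Matrix.of fun k i => ⟨w k i, (V.valuation_le_one_iff _).1 (hw' k i)⟩
  refine ⟨algebraMap V Ω W.det, ?_, V.valuation_le_one W.det⟩
  have h1 := RingHom.map_det (j.comp (algebraMap V Ω)) W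
  have h2 : (j.comp (algebraMap V Ω)).mapMatrix W = M := by
    ext k i
    exact hw k i
  rw [h2] at h1
  exact h1

/-- (E3) The p-adic shape of the values. -/
theorem ldH_fn {A B : F} {Om : ℂ} {Ω : Type} [Field Ω] [DecidableEq Ω]
    [Algebra F Ω] [IsAlgClosure F Ω] {j : Ω →+* ℂ} {act : 𝓞 F →+* AddMonoid.End (Pt (WAB A B) Ω)}
    {mm : Ideal (𝓞 F)} {ψ : Ideal (𝓞 F) →*₀ 𝓞 F} {p : ℕ} [Fact p.Prime] (d : Dta A B Om j act mm ψ p)
    (hin : (Ideal.span {(p : 𝓞 F)}).IsPrime) (V : ValuationSubring Ω) (hV : V.valuation (p : Ω) < 1)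
    (i : Ω →+* ℂ_[p]) (T : ℕ → Pt (WAB A B) Ω) (L : LTF F ℂ_[p]) (hL : LocM A B Om j act p V i T L)
    {K : Type} [Field K] [NumberField K] [Algebra F K] {m N : ℕ}
    (v : Fin (m + 1) → HeightOneSpectrum (𝓞 K)) (r : Fin (m + 1) → 𝓞 K →+* RN F p N) (hr : Crd p N v r)
    {l : 𝓞 F} (hl : Prime l) (hlp : IsCoprime l (p : 𝓞 F)) (D : H55P.Ctx F K m) (hD : D.Ok)
    (hI : IsCoprime D.I (Ideal.span {(p : 𝓞 K)})) (S : LD D l (p ^ N)) (hS : S.Ok)
    (hA : ∀ k, LInt p (S.A k)) (hN : 1 ≤ N) :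
    ∃ (h : 𝓞 K → Ω) (H' : (Fin (m + 1) → 𝓞 F) → ℂ_[p]), (∀ a ∈ D.X, j (h a) = S.H a / Om ^ (m + 1)) ∧
      L.Fn N (Fin (m + 1)) H' ∧ ∀ a ∈ D.X, i (h a) = H' (cr r a) := by
  classical
  have hp := (Fact.out : p.Prime)
  have hac : IsAlgClosed Ω := IsAlgClosure.isAlgClosed F
  have hip : ‖(p : ℂ_[p])‖ < 1 := by
    have h1 := (loc_lt hL (p : Ω)).1 hV
    rwa [map_natCast] at h1
  have hiM : ‖(S.M : ℂ_[p])‖ = 1 := by
    refine le_antisymm (a7_nat S.M) ?_
    by_contra hlt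
    push Not at hlt
    have h1 : ((S.e₁ : ℂ_[p])) * S.M + S.e₂ * (p : ℂ_[p]) ^ N = 1 := by exact_mod_cast congrArg (Int.cast (R := ℂ_[p])) hS.bez
    have h2 : ‖((S.e₁ : ℂ_[p])) * S.M + S.e₂ * (p : ℂ_[p]) ^ N‖ < 1 := by
      refine (IsUltrametricDist.norm_add_le_max _ _).trans_lt (max_lt ?_ ?_)
      · rw [norm_mul]
        exact (mul_le_of_le_one_left (norm_nonneg _) (IsUltrametricDist.norm_intCast_le_one _ _)).trans_lt hlt
      · rw [norm_mul, norm_pow]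
        exact (mul_le_of_le_one_left (pow_nonneg (norm_nonneg _) _) (IsUltrametricDist.norm_intCast_le_one _ _)).trans_lt
          (pow_lt_one₀ (norm_nonneg _) hip (by omega))
    rw [h1, NormOneClass.norm_one] at h2
    exact lt_irrefl _ h2
  have hpM : ¬ p ∣ S.M := by
    rintro ⟨c, hc⟩
    rw [hc, Nat.cast_mul, norm_mul] at hiM
    have h1 : ‖(p : ℂ_[p])‖ * ‖(c : ℂ_[p])‖ < 1 :=
      (mul_le_of_le_one_right (norm_nonneg _) (a7_nat c)).trans_lt hip
    exact h1.ne hiM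
  have hle2 : ¬ l ∣ (S.e₂ : 𝓞 F) := by
    intro h1
    apply hl.not_isUnit
    rw [isUnit_iff_dvd_one]
    have h2 : ((S.e₁ : 𝓞 F)) * S.M + S.e₂ * (p : 𝓞 F) ^ N = 1 := by exact_mod_cast congrArg (Int.cast (R := 𝓞 F)) hS.bez
    rw [← h2]
    exact dvd_add (Dvd.dvd.mul_left hS.lM _) (Dvd.dvd.mul_right h1 _)
  -- the traces
  have hone : ∀ (x : 𝓞 K) (k : Fin (m + 1)), ∃ y : 𝓞 F, x ∈ D.X → D.Tr (S.A k) x = eF F (1 + l * y) := by
    intro x k
    by_cases hx : x ∈ D.X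
    · obtain ⟨y, hy⟩ := hS.dir.one x hx k
      exact ⟨y, fun _ => hy⟩
    · exact ⟨0, fun h => absurd h hx⟩
  choose yy hyy using hone
  have hdd : ∀ (k : Fin (m + 1)) (s : Fin 2), ∃ y : 𝓞 F, S.d k s = eF F (l * y) := fun k s =>
    dirN_tr D l (2 * p ^ N) S.A S.w' hS.dir (S.w' (k, s)) (hS.dir.mem _) k
  choose dd hdd using hdd
  choose c hc using fun k => lin_form (N := N) D hD.emb hp hr (hA k)
  let τ : 𝓞 K → Fin (m + 1) → 𝓞 F := fun β k => S.e₂ * (1 + l * yy β k) - l * dd k 0 - l * dd k 1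
  have hτ : ∀ β k, ¬ l ∣ τ β k := by
    intro β k h1
    apply hle2
    have h2 : (S.e₂ : 𝓞 F) = τ β k - l * (S.e₂ * yy β k - dd k 0 - dd k 1) := by
      show _ = (S.e₂ * (1 + l * yy β k) - l * dd k 0 - l * dd k 1) - l * (S.e₂ * yy β k - dd k 0 - dd k 1)
      ring
    rw [h2]
    exact dvd_sub h1 (Dvd.intro _ rfl)
  have hGV := d.good V hV
  have htp := fun β k => term_fn d.cma hGV hV hL N (ι := Fin (m + 1)) (fun s => (-1) ^ N * (S.e₁ : 𝓞 F) * c k s) (δ := l * (dd k 0 + dd k 1))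
    hS.ne hpM hl hlp hS.lM (Dvd.intro _ rfl) (hτ β k)
  have htm := fun β k => term_fn d.cma hGV hV hL N (ι := Fin (m + 1)) (fun s => (-1) ^ N * (S.e₁ : 𝓞 F) * c k s) (δ := l * (dd k 0 - dd k 1))
    hS.ne hpM hl hlp hS.lM (Dvd.intro _ rfl) (hτ β k)
  choose hhp hp1 hp2 using htp
  choose hhm hm1 hm2 using htm
  obtain ⟨ω, hω, hω'⟩ := e3_det j V (Matrix.of fun k i => D.σ i (S.A k)) fun k i => alg_int j hp V hV (hA k) (D.σ i)
  have hiω : ‖i ω‖ ≤ 1 := (loc_le hL _).1 hω'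
  have hs := hL.ok.small
  refine ⟨fun a => ω * ∑ β ∈ S.B, (S.G β : Ω) * ∏ k, ((S.M : Ω)⁻¹ * (hhp β k (cr r a) - hhm β k (cr r a))),
    fun b => i ω * ∑ β ∈ S.B, (S.G β : ℂ_[p]) * ∏ k, ((S.M : ℂ_[p])⁻¹ * (i (hhp β k b) - i (hhm β k b))), ?_, ?_, ?_⟩
  · intro a ha
    -- the torsion points
    have hz : ∀ β ∈ S.B, ∀ k, ∃ w ∈ (LF F).lattice, S.z a β k =
        (eF F (∑ s, (-1) ^ N * (S.e₁ : 𝓞 F) * c k s * cr r a s) / (-(p : ℂ)) ^ N + eF F (τ β k) / S.M) + w := by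
      intro β hβ k
      obtain ⟨t, ht⟩ := hc k a _ (hyy a k ha)
      refine ⟨eF F (S.e₁ * t), (mem_LF _).2 ⟨_, rfl⟩, ?_⟩
      have hp0 : (p : ℂ) ≠ 0 := Nat.cast_ne_zero.2 hp.ne_zero
      have h1 : D.Tr (S.A k) a = eF F (∑ s, c k s * cr r a s) + (p : ℂ) ^ N * eF F t := by
        rw [hyy a k ha, ← map_natCast (eF F) p, ← map_pow, ← map_mul, ← map_add]
        congr 1
        rw [← ht]
        ring
      have h2 : eF F (∑ s, (-1) ^ N * (S.e₁ : 𝓞 F) * c k s * cr r a s) =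
          (-1) ^ N * S.e₁ * eF F (∑ s, c k s * cr r a s) := by
        have h3 : ∑ s, (-1) ^ N * (S.e₁ : 𝓞 F) * c k s * cr r a s = (-1) ^ N * (S.e₁ : 𝓞 F) * ∑ s, c k s * cr r a s := by
          rw [Finset.mul_sum]
          refine Finset.sum_congr rfl fun s _ => ?_
          ring
        rw [h3, map_mul, map_mul, map_pow, map_neg, map_one, map_intCast]
      have h4 : S.e₂ * D.Tr (S.A k) β - S.d k 0 - S.d k 1 = eF F (τ β k) := by
        rw [hyy β k (hS.rep.sub β hβ), hdd, hdd]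
        show _ = eF F (S.e₂ * (1 + l * yy β k) - l * dd k 0 - l * dd k 1)
        rw [map_sub, map_sub, map_mul (eF F) (S.e₂ : 𝓞 F), map_intCast]
      unfold LD.z
      rw [h4, h1, h2, map_mul, map_intCast]
      have h5 : (-(p : ℂ)) ^ N = (-1) ^ N * (p : ℂ) ^ N := by
        rw [← mul_pow, neg_one_mul]
      have h6 : ((-1 : ℂ)) ^ N ≠ 0 := pow_ne_zero _ (by norm_num)
      rw [h5]
      push_cast
      field_simp
      ring
    have hd1 : ∀ k, (S.d k 0 + S.d k 1) / S.M = eF F (l * (dd k 0 + dd k 1)) / (S.M : ℂ) := fun k => by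
      rw [hdd, hdd, ← map_add, mul_add]
    have hd2 : ∀ k, (S.d k 0 - S.d k 1) / S.M = eF F (l * (dd k 0 - dd k 1)) / (S.M : ℂ) := fun k => by
      rw [hdd, hdd, ← map_sub, mul_sub]
    rw [map_mul, hω, map_sum, LD.H, mul_div_assoc, Finset.sum_div]
    congr 1
    refine Finset.sum_congr rfl fun β hβ => ?_
    rw [map_mul, map_intCast, map_prod, mul_div_assoc]
    congr 1
    have h7 : Om ^ (m + 1) = ∏ _k : Fin (m + 1), Om := by
      rw [Finset.prod_const, Finset.card_univ, Fintype.card_fin]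
    rw [h7, ← Finset.prod_div_distrib]
    refine Finset.prod_congr rfl fun k _ => ?_
    obtain ⟨w, hw, hz⟩ := hz β hβ k
    rw [map_mul, map_inv₀, map_natCast, map_sub, hp1, hm1, hz, T2_perz _ _ _ hw, T2_perz _ _ _ hw, hd1, hd2]
    ring
  · refine Fn_scal hs hiω (Fn_sum _ fun β _ => Fn_scal hs (IsUltrametricDist.norm_intCast_le_one _ _) (Fn_prod hs _ fun k _ =>
      Fn_scal hs ?_ (Fn_sub (hp2 β k) (hm2 β k))))
    rw [norm_inv, hiM, inv_one]
  · intro a ha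
    simp only [map_mul, map_sum, map_prod, map_intCast, map_inv₀, map_natCast, map_sub]

end SSG.E
end

-- from Lib.SSG.S.D3
section

/-! # SSG, part S (E4), D: representatives -/

open NumberField IsDedekindDomain

namespace SSG.S

open H55N H55P SSG.E

variable {F : Type} [Field F] [NumberField F] {K : Type} [Field K] [NumberField K] [Algebra F K]

theorem exists_RpU {K : Type} [Field K] [NumberField K] (I : Ideal (𝓞 K)) (hI : I ≠ ⊥) (c₀ : 𝓞 K) (P : ℕ) (hP : P ≠ 0) :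
    ∃ R : Finset (𝓞 K), RpU I c₀ P R := by
  classical
  have hP0 : (P : 𝓞 K) ≠ 0 := by exact_mod_cast hP
  have hJ : Ideal.span {(P : 𝓞 K)} * I ≠ ⊥ := mul_ne_zero (by simpa using hP0) hI
  have hfin : Finite (𝓞 K ⧸ (Ideal.span {(P : 𝓞 K)} * I)) := Ideal.finiteQuotientOfFreeOfNeBot _ hJ
  have hS : ((Ideal.Quotient.mk (Ideal.span {(P : 𝓞 K)} * I)) '' (XS I c₀)).Finite := Set.toFinite _
  have hch : ∀ y : 𝓞 K ⧸ (Ideal.span {(P : 𝓞 K)} * I), ∃ x : 𝓞 K,
      y ∈ (Ideal.Quotient.mk (Ideal.span {(P : 𝓞 K)} * I)) '' (XS I c₀) → x ∈ XS I c₀ ∧ Ideal.Quotient.mk _ x = y := by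
    intro y
    by_cases h : y ∈ (Ideal.Quotient.mk (Ideal.span {(P : 𝓞 K)} * I)) '' (XS I c₀)
    · obtain ⟨x, hx, hxy⟩ := h
      exact ⟨x, fun _ => ⟨hx, hxy⟩⟩
    · exact ⟨0, fun h' => absurd h' h⟩
  choose r hr using hch
  refine ⟨hS.toFinset.image r, ?_, ?_⟩
  · intro a ha
    obtain ⟨y, hy, rfl⟩ := Finset.mem_image.1 ha
    exact (hr y ((Set.Finite.mem_toFinset hS).1 hy)).1
  · intro x hx
    have hy : Ideal.Quotient.mk _ x ∈ (Ideal.Quotient.mk (Ideal.span {(P : 𝓞 K)} * I)) '' (XS I c₀) := ⟨x, hx, rfl⟩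
    refine ⟨r (Ideal.Quotient.mk _ x), ⟨Finset.mem_image.2 ⟨_, (Set.Finite.mem_toFinset hS).2 hy, rfl⟩, ?_⟩, ?_⟩
    · rw [← Ideal.Quotient.eq, (hr _ hy).2]
    · rintro a ⟨ha, hxa⟩
      obtain ⟨y, hy', rfl⟩ := Finset.mem_image.1 ha
      have h2 := (hr y ((Set.Finite.mem_toFinset hS).1 hy')).2
      rw [← Ideal.Quotient.eq, h2] at hxa
      rw [← hxa]

theorem exists_Rep (p N : ℕ) (hp : p ≠ 0) : ∃ T : Finset (𝓞 F), SSG.Rep p N T := by
  classical
  have hp0 : (p : 𝓞 F) ≠ 0 := by exact_mod_cast hp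
  have hpN0 : Ideal.span {(p : 𝓞 F) ^ N} ≠ ⊥ := by
    rw [Ne, Ideal.span_singleton_eq_bot]; exact pow_ne_zero N hp0
  have hfin : Finite (RN F p N) := Ideal.finiteQuotientOfFreeOfNeBot _ hpN0
  have hfr : (Set.range (Quotient.out : RN F p N → 𝓞 F)).Finite := Set.finite_range _
  have hout : ∀ y : RN F p N, Ideal.Quotient.mk (Ideal.span {(p : 𝓞 F) ^ N}) (Quotient.out y) = y :=
    fun y => Ideal.Quotient.mk_out y
  refine ⟨hfr.toFinset, fun x => ⟨Quotient.out (Ideal.Quotient.mk (Ideal.span {(p : 𝓞 F) ^ N}) x), ⟨?_, ?_⟩, ?_⟩⟩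
  · rw [Set.Finite.mem_toFinset]; exact ⟨_, rfl⟩
  · rw [← Ideal.mem_span_singleton, ← Ideal.Quotient.eq]
    exact (hout _).symm
  · rintro a ⟨ha, hxa⟩
    rw [Set.Finite.mem_toFinset] at ha
    obtain ⟨y, rfl⟩ := ha
    rw [← Ideal.mem_span_singleton, ← Ideal.Quotient.eq, hout] at hxa
    rw [hxa]

theorem d3_sum {p m N : ℕ} {v : Fin (m + 1) → HeightOneSpectrum (𝓞 K)} {r : Fin (m + 1) → 𝓞 K →+* RN F p N}
    (hC : Crd p N v r) {I : Ideal (𝓞 K)} (hI : IsCoprime I (Ideal.span {(p : 𝓞 K)})) {c₀ : 𝓞 K} {R : Finset (𝓞 K)}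
    (hR : RpU I c₀ (p ^ N) R) {T : Finset (𝓞 F)} (hT : SSG.Rep p N T) {C : Type} [AddCommMonoid C]
    (Φ : (Fin (m + 1) → 𝓞 F) → C) (hΦ : ∀ a b, (∀ k, (p : 𝓞 F) ^ N ∣ a k - b k) → Φ a = Φ b) :
    ∑ a ∈ R, Φ (cr r a) = ∑ t ∈ Fintype.piFinset (fun _ => T), Φ t := by
  classical
  have hcr : ∀ (x : 𝓞 K) k, Ideal.Quotient.mk (Ideal.span {(p : 𝓞 F) ^ N}) (cr r x k) = r k x :=
    fun x k => Ideal.Quotient.mk_out (r k x)
  have hIN : IsCoprime I (Ideal.span {(((p ^ N : ℕ)) : 𝓞 K)}) := by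
    rw [Nat.cast_pow, ← Ideal.span_singleton_pow]; exact hI.pow_right
  have hdiv : ∀ x y : 𝓞 K, (∀ k, r k x = r k y) → x - y ∈ Ideal.span {(((p ^ N : ℕ)) : 𝓞 K)} := by
    intro x y h
    rw [Ideal.mem_span_singleton, Nat.cast_pow, ← hC.ker]
    intro k
    rw [map_sub, h k, sub_self]
  have hdiv' : ∀ x y : 𝓞 K, x - y ∈ Ideal.span {(((p ^ N : ℕ)) : 𝓞 K)} → ∀ k, r k x = r k y := by
    intro x y h k
    rw [Ideal.mem_span_singleton, Nat.cast_pow, ← hC.ker] at h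
    have := h k
    rwa [map_sub, sub_eq_zero] at this
  choose τ hτ hτ' using hT
  refine Finset.sum_bij (fun a _ => fun k => τ (cr r a k)) ?_ ?_ ?_ ?_
  · intro a _
    rw [Fintype.mem_piFinset]
    exact fun k => (hτ _).1
  · intro a ha a' ha' h
    have h1 : ∀ k, r k a = r k a' := by
      intro k
      have e1 := (hτ (cr r a k)).2
      have e2 := (hτ (cr r a' k)).2
      have e3 : τ (cr r a k) = τ (cr r a' k) := congrFun h k
      rw [← hcr a k, ← hcr a' k, Ideal.Quotient.eq, Ideal.mem_span_singleton]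
      have e4 : cr r a k - cr r a' k = (cr r a k - τ (cr r a k)) - (cr r a' k - τ (cr r a' k)) := by
        rw [e3]; ring
      rw [e4]
      exact dvd_sub e1 e2
    have h2 := hdiv a a' h1
    have h3 : a - a' ∈ I := by
      have h4 : a - a' = (a - c₀) - (a' - c₀) := by ring
      rw [h4]
      exact Ideal.sub_mem _ (hR.sub a ha) (hR.sub a' ha')
    have h5 : a - a' ∈ Ideal.span {(((p ^ N : ℕ)) : 𝓞 K)} * I := by
      rw [Ideal.mul_eq_inf_of_isCoprime hIN.symm]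
      exact ⟨h2, h3⟩
    obtain ⟨t, _, htu⟩ := hR.ex a (hR.sub a ha)
    have e1 : a = t := htu a ⟨ha, by rw [sub_self]; exact Ideal.zero_mem _⟩
    have e2 : a' = t := htu a' ⟨ha', h5⟩
    rw [e1, e2]
  · intro t ht
    rw [Fintype.mem_piFinset] at ht
    obtain ⟨x, hx⟩ := hC.surj (fun k => Ideal.Quotient.mk _ (t k))
    obtain ⟨i, hi, j, hj, hij⟩ := Ideal.isCoprime_iff_exists.mp hIN
    have hyx : (i * x + j * c₀) - x ∈ Ideal.span {(((p ^ N : ℕ)) : 𝓞 K)} := by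
      have : (i * x + j * c₀) - x = j * (c₀ - x) + (i + j - 1) * x := by ring
      rw [this, hij, sub_self, zero_mul, add_zero]
      exact Ideal.mul_mem_right _ _ hj
    have hyc : (i * x + j * c₀) - c₀ ∈ I := by
      have : (i * x + j * c₀) - c₀ = i * (x - c₀) + (i + j - 1) * c₀ := by ring
      rw [this, hij, sub_self, zero_mul, add_zero]
      exact Ideal.mul_mem_right _ _ hi
    obtain ⟨a, ⟨ha, hya⟩, _⟩ := hR.ex (i * x + j * c₀) hyc
    refine ⟨a, ha, ?_⟩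
    funext k
    refine (hτ' (cr r a k) (t k) ⟨ht k, ?_⟩).symm
    rw [← Ideal.mem_span_singleton, ← Ideal.Quotient.eq, hcr]
    have hya' : (i * x + j * c₀) - a ∈ Ideal.span {(((p ^ N : ℕ)) : 𝓞 K)} :=
      (Ideal.mul_le_left : Ideal.span {(((p ^ N : ℕ)) : 𝓞 K)} * I ≤ Ideal.span {(((p ^ N : ℕ)) : 𝓞 K)}) hya
    have h1 := hdiv' (i * x + j * c₀) a hya' k
    have h2 := hdiv' (i * x + j * c₀) x hyx k
    rw [← h1, h2, hx k]
  · intro a _
    exact hΦ _ _ (fun k => (hτ (cr r a k)).2)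

end SSG.S
end
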