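import Mathlib
import Pool.Agent.Lib.H1M.PP2.D_H55P_Z10
import Pool.Agent.Lib.H1M.PP2.M052
import Pool.Agent.Lib.H1M.PP2.M079
import Pool.Agent.Lib.H1M.PP2.M086
import Pool.Agent.Lib.H1M.PP2.M092
import Pool.Agent.Lib.H1M.PP2.M093
import Pool.Agent.Lib.H1M.PP2.M102
import Pool.Agent.Lib.H1M.PP2.M107
import Pool.Agent.Lib.H1M.PP2.M110

/-! Merged copies (to shorten the build) of Lib.H13Z.LDG, Lib.H13X.XDG, Lib.H55Z.Q4, Lib.H13X.XNB, Lib.H55K.SLV, Lib.SSG.E.R3. -/

-- from Lib.H13Z.LDG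
section

open NumberField IsDedekindDomain

namespace H13Z

open H55P H28G H55B H13S

variable {Ω : Type} [Field Ω] [DecidableEq Ω] [Algebra F Ω] [IsAlgClosure F Ω]

theorem LDG_ff {k R : Type} [Field k] [Finite k] [Field R] [Finite R] (ι : k →+* R) (τ : R →+* R)
    (h : ∀ a, τ (ι a) = ι a) : ∃ j : ℕ, ∀ x, τ x = x ^ (Nat.card k ^ j) := by
  let _ : Algebra k R := ι.toAlgebra
  let _ : Fintype k := Fintype.ofFinite k
  let τ' : R →ₐ[k] R := { τ with commutes' := h }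
  obtain ⟨n, hn⟩ := (FiniteField.bijective_frobeniusAlgHom_pow k R).2 τ'
  refine ⟨n.1, fun x => ?_⟩
  have h1 := DFunLike.congr_fun hn x
  simp only [AlgHom.coe_pow, FiniteField.coe_frobeniusAlgHom, pow_iterate] at h1
  rw [Nat.card_eq_fintype_card]
  exact h1.symm

theorem LDG_pow {L : Type} [Field L] (V : ValuationSubring L) {x y : L} (hx : V.valuation x ≤ 1)
    (hy : V.valuation y ≤ 1) (h : V.valuation (x - y) < 1) (n : ℕ) : V.valuation (x ^ n - y ^ n) < 1 := by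
  induction n with
  | zero =>
    rw [pow_zero, pow_zero, sub_self, map_zero]
    exact zero_lt_one
  | succ n ih =>
    have e : x ^ (n + 1) - y ^ (n + 1) = x ^ n * (x - y) + (x ^ n - y ^ n) * y := by ring
    rw [e]
    refine V.valuation.map_add_lt ?_ ?_
    · rw [map_mul, map_pow]
      exact lt_of_le_of_lt (mul_le_of_le_one_left' (pow_le_one' hx n)) h
    · rw [map_mul]
      exact lt_of_le_of_lt (mul_le_of_le_one_right' hy) ih

theorem LDG_decpow {Ω : Type} [Field Ω] [DecidableEq Ω] [Algebra F Ω] {V : ValuationSubring Ω}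
    {φ : Ω ≃ₐ[F] Ω} (hφ : Dec V φ) (j : ℕ) : Dec V (φ ^ j) := by
  induction j with
  | zero =>
    intro x
    rw [pow_zero]
    rfl
  | succ j ih =>
    rw [pow_succ]
    exact Dec.mul' ih hφ

theorem LDG_phi {Ω : Type} [Field Ω] [DecidableEq Ω] [Algebra F Ω] {V : ValuationSubring Ω}
    {φ : Ω ≃ₐ[F] Ω} (hφ : Dec V φ) {Q : ℕ} (hφF : ∀ x ∈ V, V.valuation (φ x - x ^ Q) < 1) (j : ℕ)
    {y : Ω} (hy : y ∈ V) : V.valuation ((φ ^ j) y - y ^ (Q ^ j)) < 1 := by
  induction j with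
  | zero =>
    rw [pow_zero, pow_zero, pow_one]
    have : (1 : Ω ≃ₐ[F] Ω) y - y = 0 := sub_self y
    rw [this, map_zero]
    exact zero_lt_one
  | succ j ih =>
    have h1 : (φ ^ j) y ∈ V := (LDG_decpow hφ j y).2 hy
    have h2 := hφF _ h1
    have h3 := LDG_pow V ((V.valuation_le_one_iff _).2 h1)
      ((V.valuation_le_one_iff _).2 (V.pow_mem hy (Q ^ j))) ih Q
    have h4 : (φ ^ (j + 1)) y = φ ((φ ^ j) y) := by
      rw [pow_succ']
      rfl
    have e : (φ ^ (j + 1)) y - y ^ (Q ^ (j + 1)) = (φ ((φ ^ j) y) - ((φ ^ j) y) ^ Q) +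
        (((φ ^ j) y) ^ Q - (y ^ (Q ^ j)) ^ Q) := by
      rw [h4, pow_succ Q j, pow_mul]
      ring
    rw [e]
    exact V.valuation.map_add_lt h2 h3

theorem LDG_frobN {K : IntermediateField F Ω} [NumberField K] {V : ValuationSubring Ω}
    {w : HeightOneSpectrum (𝓞 K)} (hw : Abv K V w) (N : IntermediateField F Ω) [NumberField N]
    (W : HeightOneSpectrum (𝓞 N)) (hW : Abv N V W) (hKN : K ≤ N)
    (hN : ∀ s : Ω ≃ₐ[F] Ω, ∀ x ∈ N, s x ∈ N) {s : Ω ≃ₐ[F] Ω} (hs : s ∈ K.fixingSubgroup) (hsD : Dec V s) :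
    ∃ j : ℕ, ∀ a : 𝓞 N, V.valuation (s ((a : N) : Ω) - ((a : N) : Ω) ^ (Ideal.absNorm w.asIdeal ^ j)) < 1 := by
  let sN : N →+* N := (((s : Ω →ₐ[F] Ω).comp N.val).codRestrict N.toSubalgebra (fun x => hN s x x.2)).toRingHom
  let sO : 𝓞 N →+* 𝓞 N := RingOfIntegers.mapRingHom sN
  have hsO : ∀ a : 𝓞 N, (((sO a : 𝓞 N) : N) : Ω) = s ((a : N) : Ω) := fun a => rfl
  let iN : K →+* N := (IntermediateField.inclusion hKN).toRingHom
  let iO : 𝓞 K →+* 𝓞 N := RingOfIntegers.mapRingHom iN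
  have hiO : ∀ a : 𝓞 K, (((iO a : 𝓞 N) : N) : Ω) = ((a : K) : Ω) := fun a => rfl
  have memW : ∀ a : 𝓞 N, a ∈ W.asIdeal ↔ V.valuation ((a : N) : Ω) < 1 := by
    intro a
    rw [hW.lt]
    exact (W.valuation_lt_one_iff_mem a).symm
  have memw : ∀ a : 𝓞 K, a ∈ w.asIdeal ↔ V.valuation ((a : K) : Ω) < 1 := by
    intro a
    rw [hw.lt]
    exact (w.valuation_lt_one_iff_mem a).symm
  have hle1 : W.asIdeal ≤ W.asIdeal.comap sO := by
    intro a ha
    rw [Ideal.mem_comap, memW, hsO, Dec.lt_one hsD]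
    exact (memW a).1 ha
  have hle2 : w.asIdeal ≤ W.asIdeal.comap iO := by
    intro a ha
    rw [Ideal.mem_comap, memW, hiO]
    exact (memw a).1 ha
  have hwm := w.isMaximal
  have hWm := W.isMaximal
  let _ : Field (𝓞 K ⧸ w.asIdeal) := Ideal.Quotient.field w.asIdeal
  let _ : Field (𝓞 N ⧸ W.asIdeal) := Ideal.Quotient.field W.asIdeal
  have hfin1 : Finite (𝓞 K ⧸ w.asIdeal) := Ideal.finiteQuotientOfFreeOfNeBot _ w.ne_bot
  have hfin2 : Finite (𝓞 N ⧸ W.asIdeal) := Ideal.finiteQuotientOfFreeOfNeBot _ W.ne_bot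
  obtain ⟨j, hj⟩ := LDG_ff (Ideal.quotientMap W.asIdeal iO hle2) (Ideal.quotientMap W.asIdeal sO hle1) (by
    intro a
    obtain ⟨a, rfl⟩ := Ideal.Quotient.mk_surjective a
    rw [Ideal.quotientMap_mk, Ideal.quotientMap_mk]
    congr 1
    apply RingOfIntegers.coe_injective
    apply Subtype.ext
    rw [hsO, hiO]
    exact (IntermediateField.mem_fixingSubgroup_iff K s).1 hs _ (a : K).2)
  refine ⟨j, fun a => ?_⟩
  have h1 := hj (Ideal.Quotient.mk W.asIdeal a)
  rw [Ideal.quotientMap_mk, ← map_pow, Ideal.Quotient.mk_eq_mk_iff_sub_mem, memW] at h1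
  have h3 : Ideal.absNorm w.asIdeal = Nat.card (𝓞 K ⧸ w.asIdeal) := rfl
  rw [h3]
  exact h1

theorem LDG_ext (N : IntermediateField F Ω) [NumberField N] {V : ValuationSubring Ω}
    (W : HeightOneSpectrum (𝓞 N)) (hW : Abv N V W) {s : Ω ≃ₐ[F] Ω} (hsD : Dec V s) (q : ℕ)
    (h : ∀ a : 𝓞 N, V.valuation (s ((a : N) : Ω) - ((a : N) : Ω) ^ q) < 1) (x : Ω) (hx : x ∈ N) (hxV : x ∈ V) :
    V.valuation (s x - x ^ q) < 1 := by
  obtain ⟨n, d, hnd⟩ := HeightOneSpectrum.exists_primeCompl_mul_eq_of_integer W (⟨x, hx⟩ : N)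
    ((hW ⟨x, hx⟩).1 hxV)
  have hxd : x * (((d : 𝓞 N) : N) : Ω) = ((n : N) : Ω) := congrArg Subtype.val hnd
  have hd1 : ¬ V.valuation (((d : 𝓞 N) : N) : Ω) < 1 := by
    intro h1
    rw [hW.lt] at h1
    exact d.2 ((W.valuation_lt_one_iff_mem (d : 𝓞 N)).1 h1)
  have hsd : V.valuation (s (((d : 𝓞 N) : N) : Ω)) = 1 := by
    refine le_antisymm ?_ ?_
    · rw [Dec.le_one hsD]
      exact vw_int N V d
    · rw [← not_lt, Dec.lt_one hsD]
      exact hd1
  have h1 := h (d : 𝓞 N)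
  have h2 := h n
  have hxv : V.valuation (x ^ q) ≤ 1 := (V.valuation_le_one_iff _).2 (V.pow_mem hxV q)
  have e : (s x - x ^ q) * s (((d : 𝓞 N) : N) : Ω) = (s ((n : N) : Ω) - ((n : N) : Ω) ^ q) -
      x ^ q * (s (((d : 𝓞 N) : N) : Ω) - (((d : 𝓞 N) : N) : Ω) ^ q) := by
    rw [← hxd, map_mul, mul_pow]
    ring
  have h3 : V.valuation ((s x - x ^ q) * s (((d : 𝓞 N) : N) : Ω)) < 1 := by
    rw [e]
    refine lt_of_le_of_lt (V.valuation.map_sub _ _) (max_lt h2 ?_)
    rw [map_mul]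
    exact lt_of_le_of_lt (mul_le_of_le_one_left' hxv) h1
  rw [map_mul, hsd, mul_one] at h3
  exact h3

theorem LDG_top {K : IntermediateField F Ω} [NumberField K] {V : ValuationSubring Ω}
    {w : HeightOneSpectrum (𝓞 K)} (hw : Abv K V w) : ∃ x : K, (x : Ω) ∉ V := by
  obtain ⟨a, ha, ha0⟩ := Submodule.exists_mem_ne_zero_of_ne_bot w.ne_bot
  have h1 : V.valuation ((a : K) : Ω) < 1 := by
    rw [hw.lt]
    exact (w.valuation_lt_one_iff_mem a).2 ha
  have ha1 : ((a : K) : Ω) ≠ 0 := by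
    intro h
    apply ha0
    apply RingOfIntegers.coe_injective
    exact Subtype.ext h
  refine ⟨(a : K)⁻¹, fun h => ?_⟩
  have e : (((a : K)⁻¹ : K) : Ω) = ((a : K) : Ω)⁻¹ := rfl
  rw [e, ← V.valuation_le_one_iff, map_inv₀, inv_le_one₀ (zero_lt_iff.2 ((map_ne_zero _).2 ha1))] at h
  exact absurd h1 (not_lt.2 h)

/-- Chunk LDG1 (M). The decomposition group is generated by a Frobenius element and elements which are inertial on a given finite subfield N. N may be enlarged to a normal extension of F containing K (normalClosure). s in Dec V, s in K.fixingSubgroup. W = the prime of 𝓞 N below V (exists_below; V is not ⊤), the residue field 𝓞 N/W is finite,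
with the subfield 𝓞 K/w with Q = absNorm w elements. s and φ map 𝓞 N to itself and preserve W (Dec), s induces an automorphism of 𝓞 N/W over 𝓞 K/w, so x → x^(Q^j) for some j (FiniteField: the Galois group is generated by Frobenius; e.g. bijective_frobeniusAlgEquivOfAlgebraic_pow, or IsCyclic..), as φ^j.
So s φ^(-j) x - x has value < 1 for x in 𝓞 N, hence for x in N, x in V (x = a/b with a, b in 𝓞 N, b not in W). -/
theorem dec_frob {K : IntermediateField F Ω} [NumberField K] {V : ValuationSubring Ω}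
    {w : HeightOneSpectrum (𝓞 K)} (hw : Abv K V w) {φ : Ω ≃ₐ[F] Ω} (hφ : φ ∈ K.fixingSubgroup)
    (hφD : Dec V φ) (hφF : ∀ x ∈ V, V.valuation (φ x - x ^ Ideal.absNorm w.asIdeal) < 1)
    (N : IntermediateField F Ω) [FiniteDimensional F N] (hKN : K ≤ N)
    (hN : ∀ s : Ω ≃ₐ[F] Ω, ∀ x ∈ N, s x ∈ N) {s : Ω ≃ₐ[F] Ω} (hs : s ∈ K.fixingSubgroup) (hsD : Dec V s) :
    ∃ j : ℕ, ∀ x ∈ N, x ∈ V → V.valuation ((s * (φ ^ j)⁻¹) x - x) < 1 := by
  have hNnf : NumberField N := NumberField.of_module_finite F N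
  have hVN : ∃ x : N, (x : Ω) ∉ V := by
    obtain ⟨x, hx⟩ := LDG_top hw
    exact ⟨⟨x, hKN x.2⟩, hx⟩
  obtain ⟨W, hW⟩ := H13S.exists_below N V hVN
  obtain ⟨j, hj⟩ := LDG_frobN hw N W hW hKN hN hs hsD
  refine ⟨j, fun x hx hxV => ?_⟩
  have hy : (φ ^ j)⁻¹ x ∈ N := hN _ x hx
  have hyV : (φ ^ j)⁻¹ x ∈ V := (Dec.inv' (LDG_decpow hφD j) x).2 hxV
  have h1 := LDG_ext N W hW hsD _ hj _ hy hyV
  have h2 := LDG_phi hφD hφF j hyV
  have h3 : (φ ^ j) ((φ ^ j)⁻¹ x) = x := by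
    have h4 : ((φ ^ j) * (φ ^ j)⁻¹) x = x := by
      rw [mul_inv_cancel]
      rfl
    exact h4
  rw [h3] at h2
  have e : (s * (φ ^ j)⁻¹) x - x = (s ((φ ^ j)⁻¹ x) - ((φ ^ j)⁻¹ x) ^ (Ideal.absNorm w.asIdeal ^ j)) -
      (x - ((φ ^ j)⁻¹ x) ^ (Ideal.absNorm w.asIdeal ^ j)) := by
    have : (s * (φ ^ j)⁻¹) x = s ((φ ^ j)⁻¹ x) := rfl
    rw [this]
    ring
  rw [e]
  exact lt_of_le_of_lt (V.valuation.map_sub _ _) (max_lt h1 h2)

/-- Chunk LDG2 (S/M). A cocycle on the decomposition group over K vanishing on inertia and at Frobenius is zero. Enlarge N (from hc) to a finite normal extension of F containing K. dec_frob: s' = s φ^(-j) is inertial on N, inertia_lift: s'' with Inert V s'', s'' = s' on N; s'' is in K.fixingSubgroup (K ≤ N), n = s''⁻¹ s' is in N.fixingSubgroup and Dec V n.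
d s' = d (s'' n) = d s'' + ac s'' (d n) = 0; d (φ^j) = 0 (induction); d s = d (s' φ^j) = 0. -/
theorem dec_gen {K : IntermediateField F Ω} [NumberField K] {V : ValuationSubring Ω}
    {w : HeightOneSpectrum (𝓞 K)} (hw : Abv K V w) {d : (Ω ≃ₐ[F] Ω) → P27 Ω}
    (hd : ∀ s ∈ K.fixingSubgroup, Dec V s → ∀ t ∈ K.fixingSubgroup, Dec V t →
      d (s * t) = d s + ac W27 s (d t))
    (hc : ∃ N : IntermediateField F Ω, FiniteDimensional F N ∧
      ∀ s ∈ K.fixingSubgroup, s ∈ N.fixingSubgroup → Dec V s → d s = 0)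
    (hI : ∀ s ∈ K.fixingSubgroup, Inert V s → d s = 0) {φ : Ω ≃ₐ[F] Ω} (hφ : φ ∈ K.fixingSubgroup)
    (hφD : Dec V φ) (hφF : ∀ x ∈ V, V.valuation (φ x - x ^ Ideal.absNorm w.asIdeal) < 1) (h0 : d φ = 0)
    {s : Ω ≃ₐ[F] Ω} (hs : s ∈ K.fixingSubgroup) (hsD : Dec V s) : d s = 0 := by
  obtain ⟨N0, hN0f, hN0⟩ := hc
  have hcl0 : IsAlgClosed Ω := IsAlgClosure.isAlgClosed F
  have hal0 : Algebra.IsAlgebraic F Ω := IsAlgClosure.isAlgebraic
  have hnorm : Normal F Ω := IsAlgClosure.normal F Ω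
  have hKfin : FiniteDimensional F K := FiniteDimensional.right ℚ F K
  let M : IntermediateField F Ω := K ⊔ N0
  have hMfin : FiniteDimensional F M := IntermediateField.finiteDimensional_sup K N0
  let N : IntermediateField F Ω := IntermediateField.normalClosure F M Ω
  have hNfin : FiniteDimensional F N := normalClosure.is_finiteDimensional F M Ω
  have hNnorm : Normal F N := normalClosure.normal F M Ω
  have hMN : M ≤ N := IntermediateField.le_normalClosure M
  have hKN : K ≤ N := le_trans le_sup_left hMN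
  have hN0N : N0 ≤ N := le_trans le_sup_right hMN
  have hst : ∀ s : Ω ≃ₐ[F] Ω, ∀ x ∈ N, s x ∈ N := by
    intro s x hx
    exact (IntermediateField.normal_iff_forall_map_le'.1 hNnorm) s ⟨x, hx, rfl⟩
  obtain ⟨j, hj⟩ := dec_frob hw hφ hφD hφF N hKN hst hs hsD
  have hφj : φ ^ j ∈ K.fixingSubgroup := pow_mem hφ j
  have hφjD := LDG_decpow hφD j
  obtain ⟨s', hs'⟩ : ∃ s', s' = s * (φ ^ j)⁻¹ := ⟨_, rfl⟩
  rw [← hs'] at hj
  have hs'K : s' ∈ K.fixingSubgroup := by
    rw [hs']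
    exact mul_mem hs (inv_mem hφj)
  have hs'D : Dec V s' := by
    rw [hs']
    exact Dec.mul' hsD (Dec.inv' hφjD)
  obtain ⟨t, htI, ht⟩ := inertia_lift N V s' (fun x hx => hst s' x hx) hj
  have htD : Dec V t := Inert.dec htI
  have htK : t ∈ K.fixingSubgroup := by
    rw [IntermediateField.mem_fixingSubgroup_iff]
    intro x hx
    rw [ht x (hKN hx)]
    exact (IntermediateField.mem_fixingSubgroup_iff K s').1 hs'K x hx
  have hnK : t⁻¹ * s' ∈ K.fixingSubgroup := mul_mem (inv_mem htK) hs'K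
  have hnN : t⁻¹ * s' ∈ N0.fixingSubgroup := by
    rw [IntermediateField.mem_fixingSubgroup_iff]
    intro x hx
    have h1 : (t⁻¹ * s') x = t⁻¹ (s' x) := rfl
    rw [h1, ← ht x (hN0N hx)]
    have h2 : (t⁻¹ * t) x = x := by
      rw [inv_mul_cancel]
      rfl
    exact h2
  have hnD : Dec V (t⁻¹ * s') := Dec.mul' (Dec.inv' htD) hs'D
  have h1 : d s' = 0 := by
    have h2 := hd t htK htD (t⁻¹ * s') hnK hnD
    rw [mul_inv_cancel_left, hI t htK htI, hN0 _ hnK hnN hnD, map_zero, add_zero] at h2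
    exact h2
  have hd1 : d 1 = 0 := by
    have h2 := hd 1 (one_mem _) (LDG_decpow hφD 0 |> fun h => by rwa [pow_zero] at h) 1 (one_mem _)
      (LDG_decpow hφD 0 |> fun h => by rwa [pow_zero] at h)
    rw [mul_one, ac_one] at h2
    exact left_eq_add.1 h2
  have h3 : ∀ j : ℕ, d (φ ^ j) = 0 := by
    intro j
    induction j with
    | zero => rw [pow_zero, hd1]
    | succ j ih =>
      rw [pow_succ, hd _ (pow_mem hφ j) (LDG_decpow hφD j) _ hφ hφD, ih, h0, map_zero, add_zero]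
  have h4 : s = s' * φ ^ j := by
    rw [hs', inv_mul_cancel_right]
  rw [h4, hd s' hs'K hs'D _ hφj hφjD, h1, h3 j, map_zero, add_zero]

end H13Z
end

-- from Lib.H13X.XDG
section

/-! # H13X: port of H13Z/LDG -/

open NumberField IsDedekindDomain WeierstrassCurve

namespace H13X

open H55P (IQ embF eF LF Per IsHecke Pt ac Inert Dec Nm Coc)
open H35P (WAB Ker tt)
open H55K (Tor ak xc yc CMA Dta GV GMod cj cj_cj mul_cj cj_prime cj_dvd cj_nat Nm_cj Nm_mul Nm_nat)
open H55K.S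
open H13S (Abv)




variable {F : Type} [Field F] [NumberField F] [IQ F] {A B : F} {Om : ℂ} {Ω : Type} [Field Ω] [DecidableEq Ω]
  [Algebra F Ω] [IsAlgClosure F Ω] {j : Ω →+* ℂ} {act : 𝓞 F →+* AddMonoid.End (Pt (WAB A B) Ω)} {mo : Ideal (𝓞 F)}
  {ψ : Ideal (𝓞 F) →*₀ 𝓞 F}

theorem LDG_pow {L : Type} [Field L] (V : ValuationSubring L) {x y : L} (hx : V.valuation x ≤ 1)
    (hy : V.valuation y ≤ 1) (h : V.valuation (x - y) < 1) (n : ℕ) : V.valuation (x ^ n - y ^ n) < 1 := by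
  induction n with
  | zero =>
    rw [pow_zero, pow_zero, sub_self, map_zero]
    exact zero_lt_one
  | succ n ih =>
    have e : x ^ (n + 1) - y ^ (n + 1) = x ^ n * (x - y) + (x ^ n - y ^ n) * y := by ring
    rw [e]
    refine V.valuation.map_add_lt ?_ ?_
    · rw [map_mul, map_pow]
      exact lt_of_le_of_lt (mul_le_of_le_one_left' (pow_le_one' hx n)) h
    · rw [map_mul]
      exact lt_of_le_of_lt (mul_le_of_le_one_right' hy) ih

theorem LDG_decpow {Ω : Type} [Field Ω] [DecidableEq Ω] [Algebra F Ω] {V : ValuationSubring Ω}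
    {φ : Ω ≃ₐ[F] Ω} (hφ : Dec V φ) (j : ℕ) : Dec V (φ ^ j) := by
  induction j with
  | zero =>
    intro x
    rw [pow_zero]
    rfl
  | succ j ih =>
    rw [pow_succ]
    exact Dec.mul' ih hφ

theorem LDG_phi {Ω : Type} [Field Ω] [DecidableEq Ω] [Algebra F Ω] {V : ValuationSubring Ω}
    {φ : Ω ≃ₐ[F] Ω} (hφ : Dec V φ) {Q : ℕ} (hφF : ∀ x ∈ V, V.valuation (φ x - x ^ Q) < 1) (j : ℕ)
    {y : Ω} (hy : y ∈ V) : V.valuation ((φ ^ j) y - y ^ (Q ^ j)) < 1 := by
  induction j with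
  | zero =>
    rw [pow_zero, pow_zero, pow_one]
    have : (1 : Ω ≃ₐ[F] Ω) y - y = 0 := sub_self y
    rw [this, map_zero]
    exact zero_lt_one
  | succ j ih =>
    have h1 : (φ ^ j) y ∈ V := (LDG_decpow hφ j y).2 hy
    have h2 := hφF _ h1
    have h3 := LDG_pow V ((V.valuation_le_one_iff _).2 h1)
      ((V.valuation_le_one_iff _).2 (V.pow_mem hy (Q ^ j))) ih Q
    have h4 : (φ ^ (j + 1)) y = φ ((φ ^ j) y) := by
      rw [pow_succ']
      rfl
    have e : (φ ^ (j + 1)) y - y ^ (Q ^ (j + 1)) = (φ ((φ ^ j) y) - ((φ ^ j) y) ^ Q) +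
        (((φ ^ j) y) ^ Q - (y ^ (Q ^ j)) ^ Q) := by
      rw [h4, pow_succ Q j, pow_mul]
      ring
    rw [e]
    exact V.valuation.map_add_lt h2 h3

theorem LDG_frobN {K : IntermediateField F Ω} [NumberField K] {V : ValuationSubring Ω}
    {w : HeightOneSpectrum (𝓞 K)} (hw : Abv K V w) (N : IntermediateField F Ω) [NumberField N]
    (W : HeightOneSpectrum (𝓞 N)) (hW : Abv N V W) (hKN : K ≤ N)
    (hN : ∀ s : Ω ≃ₐ[F] Ω, ∀ x ∈ N, s x ∈ N) {s : Ω ≃ₐ[F] Ω} (hs : s ∈ K.fixingSubgroup) (hsD : Dec V s) :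
    ∃ j : ℕ, ∀ a : 𝓞 N, V.valuation (s ((a : N) : Ω) - ((a : N) : Ω) ^ (Ideal.absNorm w.asIdeal ^ j)) < 1 := by
  let sN : N →+* N := (((s : Ω →ₐ[F] Ω).comp N.val).codRestrict N.toSubalgebra (fun x => hN s x x.2)).toRingHom
  let sO : 𝓞 N →+* 𝓞 N := RingOfIntegers.mapRingHom sN
  have hsO : ∀ a : 𝓞 N, (((sO a : 𝓞 N) : N) : Ω) = s ((a : N) : Ω) := fun a => rfl
  let iN : K →+* N := (IntermediateField.inclusion hKN).toRingHom
  let iO : 𝓞 K →+* 𝓞 N := RingOfIntegers.mapRingHom iN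
  have hiO : ∀ a : 𝓞 K, (((iO a : 𝓞 N) : N) : Ω) = ((a : K) : Ω) := fun a => rfl
  have memW : ∀ a : 𝓞 N, a ∈ W.asIdeal ↔ V.valuation ((a : N) : Ω) < 1 := by
    intro a
    rw [hW.lt]
    exact (W.valuation_lt_one_iff_mem a).symm
  have memw : ∀ a : 𝓞 K, a ∈ w.asIdeal ↔ V.valuation ((a : K) : Ω) < 1 := by
    intro a
    rw [hw.lt]
    exact (w.valuation_lt_one_iff_mem a).symm
  have hle1 : W.asIdeal ≤ W.asIdeal.comap sO := by
    intro a ha
    rw [Ideal.mem_comap, memW, hsO, Dec.lt_one hsD]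
    exact (memW a).1 ha
  have hle2 : w.asIdeal ≤ W.asIdeal.comap iO := by
    intro a ha
    rw [Ideal.mem_comap, memW, hiO]
    exact (memw a).1 ha
  have hwm := w.isMaximal
  have hWm := W.isMaximal
  let _ : Field (𝓞 K ⧸ w.asIdeal) := Ideal.Quotient.field w.asIdeal
  let _ : Field (𝓞 N ⧸ W.asIdeal) := Ideal.Quotient.field W.asIdeal
  have hfin1 : Finite (𝓞 K ⧸ w.asIdeal) := Ideal.finiteQuotientOfFreeOfNeBot _ w.ne_bot
  have hfin2 : Finite (𝓞 N ⧸ W.asIdeal) := Ideal.finiteQuotientOfFreeOfNeBot _ W.ne_bot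
  obtain ⟨j, hj⟩ := H13Z.LDG_ff (Ideal.quotientMap W.asIdeal iO hle2) (Ideal.quotientMap W.asIdeal sO hle1) (by
    intro a
    obtain ⟨a, rfl⟩ := Ideal.Quotient.mk_surjective a
    rw [Ideal.quotientMap_mk, Ideal.quotientMap_mk]
    congr 1
    apply RingOfIntegers.coe_injective
    apply Subtype.ext
    rw [hsO, hiO]
    exact (IntermediateField.mem_fixingSubgroup_iff K s).1 hs _ (a : K).2)
  refine ⟨j, fun a => ?_⟩
  have h1 := hj (Ideal.Quotient.mk W.asIdeal a)
  rw [Ideal.quotientMap_mk, ← map_pow, Ideal.Quotient.mk_eq_mk_iff_sub_mem, memW] at h1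
  have h3 : Ideal.absNorm w.asIdeal = Nat.card (𝓞 K ⧸ w.asIdeal) := rfl
  rw [h3]
  exact h1

theorem LDG_ext (N : IntermediateField F Ω) [NumberField N] {V : ValuationSubring Ω}
    (W : HeightOneSpectrum (𝓞 N)) (hW : Abv N V W) {s : Ω ≃ₐ[F] Ω} (hsD : Dec V s) (q : ℕ)
    (h : ∀ a : 𝓞 N, V.valuation (s ((a : N) : Ω) - ((a : N) : Ω) ^ q) < 1) (x : Ω) (hx : x ∈ N) (hxV : x ∈ V) :
    V.valuation (s x - x ^ q) < 1 := by
  obtain ⟨n, d, hnd⟩ := HeightOneSpectrum.exists_primeCompl_mul_eq_of_integer W (⟨x, hx⟩ : N)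
    ((hW ⟨x, hx⟩).1 hxV)
  have hxd : x * (((d : 𝓞 N) : N) : Ω) = ((n : N) : Ω) := congrArg Subtype.val hnd
  have hd1 : ¬ V.valuation (((d : 𝓞 N) : N) : Ω) < 1 := by
    intro h1
    rw [hW.lt] at h1
    exact d.2 ((W.valuation_lt_one_iff_mem (d : 𝓞 N)).1 h1)
  have hsd : V.valuation (s (((d : 𝓞 N) : N) : Ω)) = 1 := by
    refine le_antisymm ?_ ?_
    · rw [Dec.le_one hsD]
      exact H13S.vw_int N V d
    · rw [← not_lt, Dec.lt_one hsD]
      exact hd1
  have h1 := h (d : 𝓞 N)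
  have h2 := h n
  have hxv : V.valuation (x ^ q) ≤ 1 := (V.valuation_le_one_iff _).2 (V.pow_mem hxV q)
  have e : (s x - x ^ q) * s (((d : 𝓞 N) : N) : Ω) = (s ((n : N) : Ω) - ((n : N) : Ω) ^ q) -
      x ^ q * (s (((d : 𝓞 N) : N) : Ω) - (((d : 𝓞 N) : N) : Ω) ^ q) := by
    rw [← hxd, map_mul, mul_pow]
    ring
  have h3 : V.valuation ((s x - x ^ q) * s (((d : 𝓞 N) : N) : Ω)) < 1 := by
    rw [e]
    refine lt_of_le_of_lt (V.valuation.map_sub _ _) (max_lt h2 ?_)
    rw [map_mul]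
    exact lt_of_le_of_lt (mul_le_of_le_one_left' hxv) h1
  rw [map_mul, hsd, mul_one] at h3
  exact h3

theorem LDG_top {K : IntermediateField F Ω} [NumberField K] {V : ValuationSubring Ω}
    {w : HeightOneSpectrum (𝓞 K)} (hw : Abv K V w) : ∃ x : K, (x : Ω) ∉ V := by
  obtain ⟨a, ha, ha0⟩ := Submodule.exists_mem_ne_zero_of_ne_bot w.ne_bot
  have h1 : V.valuation ((a : K) : Ω) < 1 := by
    rw [hw.lt]
    exact (w.valuation_lt_one_iff_mem a).2 ha
  have ha1 : ((a : K) : Ω) ≠ 0 := by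
    intro h
    apply ha0
    apply RingOfIntegers.coe_injective
    exact Subtype.ext h
  refine ⟨(a : K)⁻¹, fun h => ?_⟩
  have e : (((a : K)⁻¹ : K) : Ω) = ((a : K) : Ω)⁻¹ := rfl
  rw [e, ← V.valuation_le_one_iff, map_inv₀, inv_le_one₀ (zero_lt_iff.2 ((map_ne_zero _).2 ha1))] at h
  exact absurd h1 (not_lt.2 h)

/-- Chunk LDG1 (M). The decomposition group is generated by a Frobenius element and elements which are inertial on a given finite subfield N. N may be enlarged to a normal extension of F containing K (normalClosure). s in Dec V, s in K.fixingSubgroup. W = the prime of 𝓞 N below V (exists_below; V is not ⊤), the residue field 𝓞 N/W is finite,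
with the subfield 𝓞 K/w with Q = absNorm w elements. s and φ map 𝓞 N to itself and preserve W (Dec), s induces an automorphism of 𝓞 N/W over 𝓞 K/w, so x → x^(Q^j) for some j (FiniteField: the Galois group is generated by Frobenius; e.g. bijective_frobeniusAlgEquivOfAlgebraic_pow, or IsCyclic..), as φ^j.
So s φ^(-j) x - x has value < 1 for x in 𝓞 N, hence for x in N, x in V (x = a/b with a, b in 𝓞 N, b not in W). -/
theorem dec_frob {K : IntermediateField F Ω} [NumberField K] {V : ValuationSubring Ω}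
    {w : HeightOneSpectrum (𝓞 K)} (hw : Abv K V w) {φ : Ω ≃ₐ[F] Ω} (hφ : φ ∈ K.fixingSubgroup)
    (hφD : Dec V φ) (hφF : ∀ x ∈ V, V.valuation (φ x - x ^ Ideal.absNorm w.asIdeal) < 1)
    (N : IntermediateField F Ω) [FiniteDimensional F N] (hKN : K ≤ N)
    (hN : ∀ s : Ω ≃ₐ[F] Ω, ∀ x ∈ N, s x ∈ N) {s : Ω ≃ₐ[F] Ω} (hs : s ∈ K.fixingSubgroup) (hsD : Dec V s) :
    ∃ j : ℕ, ∀ x ∈ N, x ∈ V → V.valuation ((s * (φ ^ j)⁻¹) x - x) < 1 := by
  have hNnf : NumberField N := NumberField.of_module_finite F N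
  have hVN : ∃ x : N, (x : Ω) ∉ V := by
    obtain ⟨x, hx⟩ := LDG_top hw
    exact ⟨⟨x, hKN x.2⟩, hx⟩
  obtain ⟨W, hW⟩ := H13S.exists_below N V hVN
  obtain ⟨j, hj⟩ := LDG_frobN hw N W hW hKN hN hs hsD
  refine ⟨j, fun x hx hxV => ?_⟩
  have hy : (φ ^ j)⁻¹ x ∈ N := hN _ x hx
  have hyV : (φ ^ j)⁻¹ x ∈ V := (Dec.inv' (LDG_decpow hφD j) x).2 hxV
  have h1 := LDG_ext N W hW hsD _ hj _ hy hyV
  have h2 := LDG_phi hφD hφF j hyV
  have h3 : (φ ^ j) ((φ ^ j)⁻¹ x) = x := by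
    have h4 : ((φ ^ j) * (φ ^ j)⁻¹) x = x := by
      rw [mul_inv_cancel]
      rfl
    exact h4
  rw [h3] at h2
  have e : (s * (φ ^ j)⁻¹) x - x = (s ((φ ^ j)⁻¹ x) - ((φ ^ j)⁻¹ x) ^ (Ideal.absNorm w.asIdeal ^ j)) -
      (x - ((φ ^ j)⁻¹ x) ^ (Ideal.absNorm w.asIdeal ^ j)) := by
    have : (s * (φ ^ j)⁻¹) x = s ((φ ^ j)⁻¹ x) := rfl
    rw [this]
    ring
  rw [e]
  exact lt_of_le_of_lt (V.valuation.map_sub _ _) (max_lt h1 h2)

/-- Chunk LDG2 (S/M). A₀ cocycle on the decomposition group over K vanishing on inertia and at Frobenius is zero. Enlarge N (from hc) to a finite normal extension of F containing K. dec_frob: s' = s φ^(-j) is inertial on N, inertia_lift: s'' with Inert V s'', s'' = s' on N; s'' is in K.fixingSubgroup (K ≤ N), n = s''⁻¹ s' is in N.fixingSubgroup and Dec V n.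
d s' = d (s'' n) = d s'' + ac s'' (d n) = 0; d (φ^j) = 0 (induction); d s = d (s' φ^j) = 0. -/
theorem dec_gen {K : IntermediateField F Ω} [NumberField K] {V : ValuationSubring Ω}
    {w : HeightOneSpectrum (𝓞 K)} (hw : Abv K V w) {d : (Ω ≃ₐ[F] Ω) → Pt (WAB A B) Ω}
    (hd : ∀ s ∈ K.fixingSubgroup, Dec V s → ∀ t ∈ K.fixingSubgroup, Dec V t →
      d (s * t) = d s + ac (WAB A B) s (d t))
    (hc : ∃ N : IntermediateField F Ω, FiniteDimensional F N ∧
      ∀ s ∈ K.fixingSubgroup, s ∈ N.fixingSubgroup → Dec V s → d s = 0)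
    (hI : ∀ s ∈ K.fixingSubgroup, Inert V s → d s = 0) {φ : Ω ≃ₐ[F] Ω} (hφ : φ ∈ K.fixingSubgroup)
    (hφD : Dec V φ) (hφF : ∀ x ∈ V, V.valuation (φ x - x ^ Ideal.absNorm w.asIdeal) < 1) (h0 : d φ = 0)
    {s : Ω ≃ₐ[F] Ω} (hs : s ∈ K.fixingSubgroup) (hsD : Dec V s) : d s = 0 := by
  obtain ⟨N0, hN0f, hN0⟩ := hc
  have hcl0 : IsAlgClosed Ω := IsAlgClosure.isAlgClosed F
  have hal0 : Algebra.IsAlgebraic F Ω := IsAlgClosure.isAlgebraic
  have hnorm : Normal F Ω := IsAlgClosure.normal F Ω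
  have hKfin : FiniteDimensional F K := FiniteDimensional.right ℚ F K
  let M : IntermediateField F Ω := K ⊔ N0
  have hMfin : FiniteDimensional F M := IntermediateField.finiteDimensional_sup K N0
  let N : IntermediateField F Ω := IntermediateField.normalClosure F M Ω
  have hNfin : FiniteDimensional F N := normalClosure.is_finiteDimensional F M Ω
  have hNnorm : Normal F N := normalClosure.normal F M Ω
  have hMN : M ≤ N := IntermediateField.le_normalClosure M
  have hKN : K ≤ N := le_trans le_sup_left hMN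
  have hN0N : N0 ≤ N := le_trans le_sup_right hMN
  have hst : ∀ s : Ω ≃ₐ[F] Ω, ∀ x ∈ N, s x ∈ N := by
    intro s x hx
    exact (IntermediateField.normal_iff_forall_map_le'.1 hNnorm) s ⟨x, hx, rfl⟩
  obtain ⟨j, hj⟩ := dec_frob hw hφ hφD hφF N hKN hst hs hsD
  have hφj : φ ^ j ∈ K.fixingSubgroup := pow_mem hφ j
  have hφjD := LDG_decpow hφD j
  obtain ⟨s', hs'⟩ : ∃ s', s' = s * (φ ^ j)⁻¹ := ⟨_, rfl⟩
  rw [← hs'] at hj
  have hs'K : s' ∈ K.fixingSubgroup := by
    rw [hs']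
    exact mul_mem hs (inv_mem hφj)
  have hs'D : Dec V s' := by
    rw [hs']
    exact Dec.mul' hsD (Dec.inv' hφjD)
  obtain ⟨t, htI, ht⟩ := H13S.inertia_lift N V s' (fun x hx => hst s' x hx) hj
  have htD : Dec V t := Inert.dec htI
  have htK : t ∈ K.fixingSubgroup := by
    rw [IntermediateField.mem_fixingSubgroup_iff]
    intro x hx
    rw [ht x (hKN hx)]
    exact (IntermediateField.mem_fixingSubgroup_iff K s').1 hs'K x hx
  have hnK : t⁻¹ * s' ∈ K.fixingSubgroup := mul_mem (inv_mem htK) hs'K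
  have hnN : t⁻¹ * s' ∈ N0.fixingSubgroup := by
    rw [IntermediateField.mem_fixingSubgroup_iff]
    intro x hx
    have h1 : (t⁻¹ * s') x = t⁻¹ (s' x) := rfl
    rw [h1, ← ht x (hN0N hx)]
    have h2 : (t⁻¹ * t) x = x := by
      rw [inv_mul_cancel]
      rfl
    exact h2
  have hnD : Dec V (t⁻¹ * s') := Dec.mul' (Dec.inv' htD) hs'D
  have h1 : d s' = 0 := by
    have h2 := hd t htK htD (t⁻¹ * s') hnK hnD
    rw [mul_inv_cancel_left, hI t htK htI, hN0 _ hnK hnN hnD, map_zero, add_zero] at h2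
    exact h2
  have hd1 : d 1 = 0 := by
    have h2 := hd 1 (one_mem _) (LDG_decpow hφD 0 |> fun h => by rwa [pow_zero] at h) 1 (one_mem _)
      (LDG_decpow hφD 0 |> fun h => by rwa [pow_zero] at h)
    rw [mul_one, ac_one] at h2
    exact left_eq_add.1 h2
  have h3 : ∀ j : ℕ, d (φ ^ j) = 0 := by
    intro j
    induction j with
    | zero => rw [pow_zero, hd1]
    | succ j ih =>
      rw [pow_succ, hd _ (pow_mem hφ j) (LDG_decpow hφD j) _ hφ hφD, ih, h0, map_zero, add_zero]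
  have h4 : s = s' * φ ^ j := by
    rw [hs', inv_mul_cancel_right]
  rw [h4, hd s' hs'K hs'D _ hφj hφjD, h1, h3 j, map_zero, add_zero]

end H13X
end

-- from Lib.H55Z.Q4
section

/-! # H55Z, part Q: Dirichlet characters of order a power of p and modulus a power of p -/

open NumberField

namespace H55Z

variable {p : ℕ} [hp : Fact p.Prime] {n : ℕ}

instance q4_finite (p : ℕ) [hp : Fact p.Prime] (n : ℕ) : Finite (DirichletCharacter ℂ (p ^ (n + 1))) := by
  have := p3_ne (p := p) n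
  infer_instance

theorem q4_cyc (h2 : p ≠ 2) (n : ℕ) : IsCyclic (DirichletCharacter ℂ (p ^ (n + 1))) := by
  have := p3_ne (p := p) n
  obtain ⟨e⟩ := MulChar.mulEquiv_units (ZMod (p ^ (n + 1))) ℂ
  have h1 := ZMod.isCyclic_units_of_prime_pow p hp.out h2 (n + 1)
  exact isCyclic_of_surjective e.symm e.symm.surjective

theorem q4_card (p : ℕ) [hp : Fact p.Prime] (n : ℕ) : Nat.card (DirichletCharacter ℂ (p ^ (n + 1))) = p ^ n * (p - 1) := by
  have := p3_ne (p := p) n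
  obtain ⟨e⟩ := MulChar.mulEquiv_units (ZMod (p ^ (n + 1))) ℂ
  rw [Nat.card_congr e.toEquiv, Nat.card_eq_fintype_card, ZMod.card_units_eq_totient, Nat.totient_prime_pow hp.out n.succ_pos]
  rfl

/-- The characters modulo p^(n+1) whose order divides p^k. -/
noncomputable def XS (p : ℕ) [hp : Fact p.Prime] (n k : ℕ) : Finset (DirichletCharacter ℂ (p ^ (n + 1))) :=
  (Set.toFinite {χ : DirichletCharacter ℂ (p ^ (n + 1)) | χ ^ p ^ k = 1}).toFinset

theorem mem_XS {k : ℕ} {χ : DirichletCharacter ℂ (p ^ (n + 1))} : χ ∈ XS p n k ↔ χ ^ p ^ k = 1 := by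
  unfold XS
  rw [Set.Finite.mem_toFinset]
  rfl

/-- The subgroup of characters of order dividing p^k. -/
noncomputable def HS (p : ℕ) [hp : Fact p.Prime] (n k : ℕ) : Subgroup (DirichletCharacter ℂ (p ^ (n + 1))) :=
  (powMonoidHom (p ^ k) : DirichletCharacter ℂ (p ^ (n + 1)) →* DirichletCharacter ℂ (p ^ (n + 1))).ker

theorem mem_HS {k : ℕ} {χ : DirichletCharacter ℂ (p ^ (n + 1))} : χ ∈ HS p n k ↔ χ ^ p ^ k = 1 := Iff.rfl

theorem card_HS (h2 : p ≠ 2) {k : ℕ} (hk : k ≤ n) : Nat.card (HS p n k) = p ^ k := by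
  have := q4_cyc h2 n
  have h1 := IsCyclic.card_powMonoidHom_ker (G := DirichletCharacter ℂ (p ^ (n + 1))) (p ^ k)
  rw [q4_card, Nat.gcd_eq_right ((pow_dvd_pow p hk).trans (Dvd.intro _ rfl))] at h1
  exact h1

theorem card_XS (h2 : p ≠ 2) {k : ℕ} (hk : k ≤ n) : (XS p n k).card = p ^ k := by
  rw [← card_HS h2 hk, ← Fintype.card_coe, ← Nat.card_eq_fintype_card]
  apply Nat.card_congr
  exact Equiv.subtypeEquivRight fun χ => mem_XS

/-- Counting the values of a homomorphism to the roots of unity. -/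
theorem q4_fib {H : Type} [CommGroup H] [Fintype H] (φ : H →* ℂˣ) {f m : ℕ} (hf : 0 < f) (hm : Nat.card H = f * m)
    (hk : ∀ k : ℕ, (∀ h, φ h ^ k = 1) ↔ f ∣ k) {z : ℂ} (hz : IsPrimitiveRoot z f) {B : Type} [CommMonoid B] (g : ℂ → B) :
    ∏ h : H, g (φ h) = (∏ j ∈ Finset.range f, g (z ^ j)) ^ m := by
  classical
  -- the order of the image
  have hcyc : IsCyclic φ.range := inferInstance
  have hcard : Nat.card φ.range = f := by
    rw [← IsCyclic.exponent_eq_card]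
    have h1 : ∀ k, Monoid.exponent φ.range ∣ k ↔ f ∣ k := by
      intro k
      rw [Monoid.exponent_dvd_iff_forall_pow_eq_one, ← hk]
      constructor
      · intro h x
        have h2 := h ⟨φ x, x, rfl⟩
        exact congrArg Subtype.val h2
      · rintro h ⟨_, x, rfl⟩
        exact Subtype.ext (h x)
    exact Nat.dvd_antisymm ((h1 f).2 dvd_rfl) ((h1 _).1 dvd_rfl)
  have himg : (Finset.univ.image fun h => (φ h : ℂ)) = (Finset.range f).image fun j => z ^ j := by
    apply Finset.eq_of_subset_of_card_le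
    · intro x hx
      obtain ⟨h, -, rfl⟩ := Finset.mem_image.1 hx
      have h1 : (φ h : ℂ) ^ f = 1 := by
        rw [← Units.val_pow_eq_pow_val, (hk f).2 dvd_rfl h, Units.val_one]
      have := NeZero.mk hf.ne'
      obtain ⟨i, hi, hi2⟩ := hz.eq_pow_of_pow_eq_one h1
      exact Finset.mem_image.2 ⟨i, Finset.mem_range.2 hi, hi2⟩
    · refine Finset.card_image_le.trans ?_
      rw [Finset.card_range]
      have h1 : (Finset.univ.image fun h => (φ h : ℂ)).card = (Finset.univ.image φ).card := by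
        have h2 : (Finset.univ.image fun h => (φ h : ℂ)) = (Finset.univ.image φ).image Units.val := by
          rw [Finset.image_image]
          rfl
        rw [h2, Finset.card_image_of_injective _ Units.val_injective]
      rw [h1]
      have h3 : (Finset.univ.image φ).card = Nat.card φ.range := by
        rw [← Set.ncard_coe_finset, Finset.coe_image, Finset.coe_univ, Set.image_univ]
        rfl
      rw [h3, hcard]
  have hfib : ∀ h : H, ((Finset.univ : Finset H).filter fun a => (φ a : ℂ) = φ h).card = m := by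
    have h1 : ∀ h h' : H, ((Finset.univ : Finset H).filter fun a => (φ a : ℂ) = φ h).card =
        ((Finset.univ : Finset H).filter fun a => (φ a : ℂ) = φ h').card := by
      intro h h'
      have h2 := MonoidHom.card_fiber_eq_of_mem_range φ (x := φ h) (y := φ h') ⟨h, rfl⟩ ⟨h', rfl⟩
      simpa only [Units.val_inj] using h2
    have h2 := Finset.card_eq_sum_card_image (fun h => (φ h : ℂ)) (Finset.univ : Finset H)
    intro h
    rw [Finset.sum_congr rfl (g := fun _ => ((Finset.univ : Finset H).filter fun a => (φ a : ℂ) = φ h).card)] at h2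
    · rw [Finset.sum_const, himg, Finset.card_image_of_injOn, Finset.card_range, Finset.card_univ,
        ← Nat.card_eq_fintype_card, hm, smul_eq_mul] at h2
      · exact (Nat.eq_of_mul_eq_mul_left hf h2).symm
      · intro i hi j hj hij
        exact hz.pow_inj (Finset.mem_range.1 (Finset.mem_coe.1 hi)) (Finset.mem_range.1 (Finset.mem_coe.1 hj)) hij
    · intro x hx
      obtain ⟨h', -, rfl⟩ := Finset.mem_image.1 hx
      exact h1 h' h
  rw [Finset.prod_comp g (fun h => (φ h : ℂ)), ← Finset.prod_pow]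
  have h3 : ∏ b ∈ Finset.univ.image (fun h => (φ h : ℂ)),
      g b ^ ((Finset.univ : Finset H).filter fun a => (φ a : ℂ) = b).card =
      ∏ b ∈ Finset.univ.image (fun h => (φ h : ℂ)), g b ^ m := by
    refine Finset.prod_congr rfl fun b hb => ?_
    obtain ⟨h', -, rfl⟩ := Finset.mem_image.1 hb
    rw [hfib]
  rw [h3, himg, Finset.prod_image]
  intro i hi j hj hij
  exact hz.pow_inj (Finset.mem_range.1 hi) (Finset.mem_range.1 hj) hij

/-- The character values at a unit. -/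
noncomputable def evU {m : ℕ} (u : (ZMod m)ˣ) : DirichletCharacter ℂ m →* ℂˣ :=
  (MonoidHom.eval u).comp (MulChar.mulEquivToUnitHom : DirichletCharacter ℂ m ≃* ((ZMod m)ˣ →* ℂˣ)).toMonoidHom

theorem evU_coe {m : ℕ} (u : (ZMod m)ˣ) (χ : DirichletCharacter ℂ m) : ((evU u χ : ℂˣ) : ℂ) = χ (u : ZMod m) := rfl

theorem q4_exp (n : ℕ) (u : (ZMod (p ^ (n + 1)))ˣ) (k : ℕ) :
    (∀ h : HS p n n, evU u (h : DirichletCharacter ℂ (p ^ (n + 1))) ^ k = 1) ↔ u ^ (k * (p - 1)) = 1 := by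
  have := p3_ne (p := p) n
  have hcop : Nat.Coprime (p ^ n) (p - 1) := by
    apply Nat.Coprime.pow_left
    have h8 := (Nat.coprime_self_add_left (m := p - 1) (n := 1)).2 (Nat.coprime_one_left _)
    rwa [Nat.sub_add_cancel hp.out.one_le] at h8
  have hev : ∀ (χ : DirichletCharacter ℂ (p ^ (n + 1))) (j : ℕ), evU (u ^ j) χ = evU u χ ^ j := by
    intro χ j
    exact map_pow (MulChar.mulEquivToUnitHom χ) u j
  constructor
  · intro h
    by_contra hne
    have hne' : ((u ^ (k * (p - 1)) : (ZMod (p ^ (n + 1)))ˣ) : ZMod (p ^ (n + 1))) ≠ 1 := fun h1 =>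
      hne (Units.ext h1)
    obtain ⟨χ, hχ⟩ := MulChar.exists_apply_ne_one_of_hasEnoughRootsOfUnity (ZMod (p ^ (n + 1))) ℂ hne'
    apply hχ
    have h1 : χ ^ (p - 1) ∈ HS p n n := by
      rw [mem_HS, ← pow_mul, mul_comm, ← q4_card]
      exact pow_card_eq_one'
    have h2 := h ⟨χ ^ (p - 1), h1⟩
    rw [← evU_coe, hev]
    have h3 : evU u (χ ^ (p - 1)) ^ k = 1 := h2
    rw [map_pow, ← pow_mul, mul_comm] at h3
    rw [h3, Units.val_one]
  · rintro h ⟨χ, hχ⟩
    have h1 : (evU u χ ^ k) ^ (p - 1) = 1 := by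
      rw [← pow_mul, ← hev, h]
      exact map_one (MulChar.mulEquivToUnitHom χ)
    have h2 : (evU u χ ^ k) ^ p ^ n = 1 := by
      rw [← pow_mul, mul_comm, pow_mul, ← map_pow, mem_HS.1 hχ, map_one, one_pow]
    have h4 := Nat.dvd_gcd (orderOf_dvd_of_pow_eq_one h2) (orderOf_dvd_of_pow_eq_one h1)
    rw [Nat.Coprime.gcd_eq_one hcop] at h4
    exact orderOf_eq_one_iff.1 (Nat.dvd_one.1 h4)

/-- The product over the characters of order dividing p^n. -/
theorem q4_prod (h2 : p ≠ 2) (n : ℕ) {r f : ℕ} (hr : r.Coprime p) (hf : f ∣ p ^ n)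
    (hk : ∀ k : ℕ, f ∣ k ↔ ((r : ℕ) : ZMod (p ^ (n + 1))) ^ (k * (p - 1)) = 1) {z : ℂ} (hz : IsPrimitiveRoot z f)
    {B : Type} [CommMonoid B] (g : ℂ → B) :
    ∏ χ ∈ XS p n n, g (χ (r : ZMod (p ^ (n + 1)))) = (∏ j ∈ Finset.range f, g (z ^ j)) ^ (p ^ n / f) := by
  classical
  have := p3_ne (p := p) n
  have := Fintype.ofFinite (HS p n n)
  have hrc : r.Coprime (p ^ (n + 1)) := hr.pow_right _
  let u : (ZMod (p ^ (n + 1)))ˣ := ZMod.unitOfCoprime r hrc
  have hu : (u : ZMod (p ^ (n + 1))) = (r : ZMod (p ^ (n + 1))) := ZMod.coe_unitOfCoprime r hrc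
  have hf0 : 0 < f := Nat.pos_of_dvd_of_pos hf (pow_pos hp.out.pos _)
  have hm : Nat.card (HS p n n) = f * (p ^ n / f) := by
    rw [card_HS h2 le_rfl, Nat.mul_div_cancel' hf]
  have hk' : ∀ k : ℕ, (∀ h : HS p n n, ((evU u).comp (HS p n n).subtype) h ^ k = 1) ↔ f ∣ k := by
    intro k
    rw [hk]
    refine (q4_exp n u k).trans ?_
    rw [← hu, ← Units.val_pow_eq_pow_val, Units.val_eq_one]
  have h1 := q4_fib ((evU u).comp (HS p n n).subtype) hf0 hm hk' hz g
  rw [← h1]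
  have h3 : ∀ χ : DirichletCharacter ℂ (p ^ (n + 1)), χ ∈ XS p n n ↔ χ ∈ HS p n n := by
    intro χ
    rw [mem_XS, mem_HS]
  rw [Finset.prod_subtype (XS p n n) h3 (fun χ => g (χ (r : ZMod (p ^ (n + 1)))))]
  refine Finset.prod_congr rfl fun χ _ => ?_
  congr 1

theorem q4_mem {k : ℕ} (χ : DirichletCharacter ℂ (p ^ (n + 1))) : χ ∈ XS p n k ↔ orderOf χ ∣ p ^ k := by
  rw [mem_XS, orderOf_dvd_iff_pow_eq_one]

/-- A product over the characters of order dividing p^n by their orders. -/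
theorem q4_ord (h2 : p ≠ 2) (n : ℕ) {B : Type} [CommMonoid B] (F : DirichletCharacter ℂ (p ^ (n + 1)) → B) (c : ℕ → B)
    (hF : ∀ k, k < n → ∀ χ : DirichletCharacter ℂ (p ^ (n + 1)), orderOf χ = p ^ (k + 1) → F χ = c k) :
    ∏ χ ∈ (XS p n n).erase 1, F χ = ∏ k ∈ Finset.range n, c k ^ (p ^ (k + 1) - p ^ k) := by
  classical
  have hm : ∀ m, m ≤ n → ∏ χ ∈ (XS p n m).erase 1, F χ = ∏ k ∈ Finset.range m, c k ^ (p ^ (k + 1) - p ^ k) := by
    intro m
    induction m with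
    | zero =>
      intro _
      rw [Finset.prod_range_zero]
      apply Finset.prod_eq_one
      intro χ hχ
      exfalso
      obtain ⟨h1, h3⟩ := Finset.mem_erase.1 hχ
      rw [mem_XS, pow_zero, pow_one] at h3
      exact h1 h3
    | succ m ih =>
      intro hmn
      have hsub : XS p n m ⊆ XS p n (m + 1) := by
        intro χ hχ
        rw [q4_mem] at hχ ⊢
        exact hχ.trans (pow_dvd_pow p (Nat.le_succ m))
      have h1 : (XS p n (m + 1)).erase 1 = (XS p n m).erase 1 ∪ (XS p n (m + 1) \ XS p n m) := by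
        ext χ
        simp only [Finset.mem_erase, Finset.mem_union, Finset.mem_sdiff]
        constructor
        · rintro ⟨h3, h4⟩
          by_cases h5 : χ ∈ XS p n m
          · exact Or.inl ⟨h3, h5⟩
          · exact Or.inr ⟨h4, h5⟩
        · rintro (⟨h3, h4⟩ | ⟨h3, h4⟩)
          · exact ⟨h3, hsub h4⟩
          · refine ⟨?_, h3⟩
            rintro rfl
            exact h4 (mem_XS.2 (one_pow _))
      have h3 : Disjoint ((XS p n m).erase 1) (XS p n (m + 1) \ XS p n m) := by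
        rw [Finset.disjoint_left]
        intro χ h4 h5
        exact (Finset.mem_sdiff.1 h5).2 (Finset.mem_of_mem_erase h4)
      rw [h1, Finset.prod_union h3, ih (by omega), Finset.prod_range_succ]
      congr 1
      rw [Finset.prod_congr rfl (g := fun _ => c m), Finset.prod_const]
      · congr 1
        rw [Finset.card_sdiff_of_subset hsub, card_XS h2 hmn, card_XS h2 (by omega)]
      · intro χ hχ
        obtain ⟨h4, h5⟩ := Finset.mem_sdiff.1 hχ
        rw [q4_mem] at h4 h5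
        apply hF m (by omega)
        obtain ⟨j, hj, hj2⟩ := (Nat.dvd_prime_pow hp.out).1 h4
        rw [hj2] at h5 ⊢
        congr 1
        by_contra hne
        exact h5 (pow_dvd_pow p (by omega))
  exact hm n le_rfl

/-- A character of order p^k comes from a character modulo p^(k+1). -/
theorem q4_level (h2 : p ≠ 2) {n k : ℕ} (hk : k ≤ n) (χ : DirichletCharacter ℂ (p ^ (n + 1))) (hχ : orderOf χ = p ^ k) :
    ∃ χ' : DirichletCharacter ℂ (p ^ (k + 1)), orderOf χ' = p ^ k ∧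
      ∀ a : ℕ, χ (a : ZMod (p ^ (n + 1))) = χ' (a : ZMod (p ^ (k + 1))) := by
  classical
  have := p3_ne (p := p) n
  have := p3_ne (p := p) k
  have hd : p ^ (k + 1) ∣ p ^ (n + 1) := pow_dvd_pow p (by omega)
  have hinj := DirichletCharacter.changeLevel_injective (R := ℂ) hd
  have himg : (XS p k k).image (DirichletCharacter.changeLevel hd) = XS p n k := by
    apply Finset.eq_of_subset_of_card_le
    · intro x hx
      obtain ⟨y, hy, rfl⟩ := Finset.mem_image.1 hx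
      rw [mem_XS] at hy ⊢
      rw [← map_pow, hy, map_one]
    · rw [Finset.card_image_of_injective _ hinj, card_XS h2 le_rfl, card_XS h2 hk]
  have h3 : χ ∈ XS p n k := by
    rw [q4_mem, hχ]
  rw [← himg] at h3
  obtain ⟨χ', -, h4⟩ := Finset.mem_image.1 h3
  refine ⟨χ', ?_, fun a => ?_⟩
  · rw [← hχ, ← h4]
    exact (orderOf_injective (DirichletCharacter.changeLevel hd) hinj χ').symm
  · by_cases ha : a.Coprime p
    · have h5 := DirichletCharacter.changeLevel_eq_cast_of_dvd' χ' hd (a := (a : ℤ))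
        (by
          rw [Nat.isCoprime_iff_coprime]
          exact ha.pow_right _)
      rw [h4] at h5
      simpa using h5
    · have h6 : ∀ m : ℕ, ¬ IsUnit ((a : ℕ) : ZMod (p ^ (m + 1))) := by
        intro m hu
        apply ha
        rw [ZMod.isUnit_iff_coprime] at hu
        exact Nat.Coprime.coprime_dvd_right (dvd_pow_self p m.succ_ne_zero) hu
      rw [χ.map_nonunit (h6 n), χ'.map_nonunit (h6 k)]

end H55Z
end

-- from Lib.H13X.XNB
section

/-! # H13X: port of H13Y/YN: the base fields -/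

open NumberField IsDedekindDomain WeierstrassCurve

namespace H13X

open H55P (IQ embF eF LF Per IsHecke Pt ac Inert Dec Nm Coc)
open H35P (WAB Ker tt)
open H55K (Tor ak xc yc CMA Dta GV GMod cj cj_cj mul_cj cj_prime cj_dvd cj_nat Nm_cj Nm_mul Nm_nat)
open H55K.S
open H13S (Abv)

variable {F : Type} [Field F] [NumberField F] [IQ F]

omit [NumberField F] [IQ F] in
theorem fix_bot {Ω : Type} [Field Ω] [Algebra F Ω] (s : Ω ≃ₐ[F] Ω) : s ∈ (⊥ : IntermediateField F Ω).fixingSubgroup := by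
  rw [IntermediateField.fixingSubgroup_bot]
  exact Subgroup.mem_top s

theorem yn1_fin {Ω : Type} [Field Ω] [Algebra F Ω] (K : IntermediateField F Ω) [NumberField K] :
    FiniteDimensional F K := by
  have : IsScalarTower ℚ F K := IsScalarTower.of_algebraMap_eq' (Subsingleton.elim _ _)
  exact Module.Finite.of_restrictScalars_finite ℚ F K

/-- Chunk YN1 (M). Inertia elements above an unramified prime of a normal extension act trivially on it. w below V (H13S.exists_below), v₀ = w.under 𝓞 F: h v₀. Gal(L₀/F): L₀ is normal over F (hn), IsGalois. Ideal.card_inertia_eq_ramificationIdxIn: the inertia group of w has e elements, e = 1 because not H55P.RamF (all primes above v₀ have index < 2; ramificationIdxIn).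
σ = restriction of s to L₀ lies in the inertia group: for x in 𝓞 L₀, x in V, V (s x - x) < 1, so σ x - x in w (Abv.lt). So σ = 1. -/
theorem inert_triv {Ω : Type} [Field Ω] [DecidableEq Ω] [Algebra F Ω] [IsAlgClosure F Ω]
    {L₀ : IntermediateField F Ω} [NumberField L₀] (hn : ∀ s : Ω ≃ₐ[F] Ω, ∀ x ∈ L₀, s x ∈ L₀)
    {V : ValuationSubring Ω} (hV : ∃ x : L₀, (x : Ω) ∉ V)
    (h : ∀ v₀ : HeightOneSpectrum (𝓞 F), (∀ x : 𝓞 F, x ∈ v₀.asIdeal ↔ V.valuation (algebraMap F Ω (x : F)) < 1) →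
      ¬ H55P.RamF L₀ v₀.asIdeal) {s : Ω ≃ₐ[F] Ω} (hs : H55P.Inert V s) : s ∈ L₀.fixingSubgroup := by
  have hac : IsAlgClosed Ω := IsAlgClosure.isAlgClosed F
  have hal : Algebra.IsAlgebraic F Ω := IsAlgClosure.isAlgebraic
  have hcz : CharZero Ω := charZero_of_injective_algebraMap (algebraMap F Ω).injective
  have hfin : FiniteDimensional F L₀ := yn1_fin L₀
  refine H55P.inert_mem ⊥ L₀ bot_le (fun s _ => hn s) V ?_ s (fix_bot s) hs
  intro v hv hram
  obtain ⟨v₀, h1, h2, -⟩ := H55P.bot_conv (⟨0, 0, 0, 0, 0⟩ : WeierstrassCurve (𝓞 F)) L₀ v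
  refine h v₀ (fun x => ?_) (h2 hram)
  rw [h1, hv]
  rfl

theorem yn2_norm {Ω : Type} [Field Ω] [DecidableEq Ω] [Algebra F Ω] [IsAlgClosure F Ω] {l : ℕ}
    {L₀ : IntermediateField F Ω} (hL : H55P.PExt l ⊥ L₀) : IsGalois F L₀ := by
  have hac : IsAlgClosed Ω := IsAlgClosure.isAlgClosed F
  have hal : Algebra.IsAlgebraic F Ω := IsAlgClosure.isAlgebraic
  have hnΩ : Normal F Ω := IsAlgClosure.normal F Ω
  have h1 : Normal F L₀ := by
    rw [IntermediateField.normal_iff_forall_map_le']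
    rintro s _ ⟨x, hx, rfl⟩
    exact hL.norm s (fix_bot s) x hx
  exact ⟨⟩

/-- An element of N in V is congruent to an integer of N. -/
theorem yn2_approx {Ω : Type} [Field Ω] [Algebra F Ω] (N : IntermediateField F Ω) [NumberField N]
    (V : ValuationSubring Ω) (w : HeightOneSpectrum (𝓞 N)) (hw : Abv N V w) (x : N) (hx : (x : Ω) ∈ V) :
    ∃ y : 𝓞 N, V.valuation ((x : Ω) - ((y : N) : Ω)) < 1 := by
  have hwm := w.isMaximal
  have hunit : ∀ d : 𝓞 N, d ∉ w.asIdeal → V.valuation ((d : N) : Ω) = 1 := by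
    intro d hd
    refine le_antisymm (H13S.vw_int N V d) (not_lt.1 fun h' => hd ?_)
    have h2 := (hw.lt (d : N)).1 h'
    exact (w.valuation_lt_one_iff_mem d).1 h2
  have hlt : ∀ d : 𝓞 N, d ∈ w.asIdeal → V.valuation ((d : N) : Ω) < 1 := by
    intro d hd
    exact (hw.lt (d : N)).2 ((w.valuation_lt_one_iff_mem d).2 hd)
  have hx' : w.valuation N x ≤ 1 := (hw x).1 hx
  have key : ∃ n d : 𝓞 N, d ∉ w.asIdeal ∧ x * (d : N) = (n : N) := by
    obtain ⟨n, d, h | h⟩ := w.exists_primeCompl_mul_eq_or_mul_eq x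
    · exact ⟨n, d, d.2, h⟩
    · refine ⟨d, n, ?_, h⟩
      intro hn
      have h1 := congrArg (w.valuation N) h
      rw [map_mul] at h1
      have h2 : w.valuation N (algebraMap (𝓞 N) N (d : 𝓞 N)) = 1 :=
        le_antisymm (w.valuation_le_one _) (not_lt.1 fun h' => d.2 ((w.valuation_lt_one_iff_mem _).1 h'))
      have h3 : w.valuation N (algebraMap (𝓞 N) N n) < 1 := (w.valuation_lt_one_iff_mem n).2 hn
      rw [h2] at h1
      exact absurd h1 (ne_of_lt (lt_of_le_of_lt (mul_le_of_le_one_left' hx') h3))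
  obtain ⟨n, d, hd, hnd⟩ := key
  obtain ⟨c, hc⟩ : ∃ c : 𝓞 N, 1 - d * c ∈ w.asIdeal := by
    obtain ⟨c, hc⟩ := Ideal.Quotient.exists_inv (I := w.asIdeal) (a := Ideal.Quotient.mk _ d)
      (by rw [Ne, Ideal.Quotient.eq_zero_iff_mem]; exact hd)
    obtain ⟨c', rfl⟩ := Ideal.Quotient.mk_surjective c
    refine ⟨c', ?_⟩
    rw [← Ideal.Quotient.eq_zero_iff_mem, map_sub, map_mul, hc, map_one, sub_self]
  refine ⟨n * c, ?_⟩
  have hd1 := hunit d hd
  have hd0 : ((d : N) : Ω) ≠ 0 := by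
    intro h0
    rw [h0, map_zero] at hd1
    exact zero_ne_one hd1
  have e1 : ((n : N) : Ω) = (x : Ω) * ((d : N) : Ω) := by
    have h4 := congrArg (fun z : N => (z : Ω)) hnd
    exact h4.symm
  have e2 : (x : Ω) - (((n * c : 𝓞 N) : N) : Ω) = (x : Ω) * (((1 - d * c : 𝓞 N) : N) : Ω) := by
    have h5 : (((n * c : 𝓞 N) : N) : Ω) = ((n : N) : Ω) * ((c : N) : Ω) := by simp
    have h6 : (((1 - d * c : 𝓞 N) : N) : Ω) = 1 - ((d : N) : Ω) * ((c : N) : Ω) := by simp
    rw [h5, h6, e1]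
    ring
  rw [e2, map_mul]
  exact lt_of_le_of_lt (mul_le_of_le_one_left' ((V.valuation_le_one_iff _).2 hx)) (hlt _ hc)

theorem yn2_exp {Ω : Type} [Field Ω] [DecidableEq Ω] [Algebra F Ω] [IsAlgClosure F Ω] {l : ℕ} (hl : l.Prime)
    {N L₀ : IntermediateField F Ω} [NumberField N] [NumberField L₀] (hL : H55P.PExt l ⊥ L₀) (hNL : N ≤ L₀)
    (V : ValuationSubring Ω) (β : 𝓞 F) (hβ : Prime β) (hV : vo V β < 1)
    (w : HeightOneSpectrum (𝓞 N)) (hw : Abv N V w) (w₀ : HeightOneSpectrum (𝓞 L₀)) (hw₀ : Abv L₀ V w₀) :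
    ∃ j : ℕ, Ideal.absNorm w.asIdeal = Nm β ^ (l ^ j) := by
  have hac : IsAlgClosed Ω := IsAlgClosure.isAlgClosed F
  have hal : Algebra.IsAlgebraic F Ω := IsAlgClosure.isAlgebraic
  have hcz : CharZero Ω := charZero_of_injective_algebraMap (algebraMap F Ω).injective
  have hG := yn2_norm hL
  let _ : Algebra N L₀ := H55P.s13_alg hNL
  have t1 : IsScalarTower F N L₀ := IsScalarTower.of_algebraMap_eq fun x => rfl
  have hwp := w.isPrime
  have hwm := w.isMaximal
  have hw0p := w₀.isPrime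
  have hw0m := w₀.isMaximal
  obtain ⟨k, hk⟩ := hL.deg
  rw [IntermediateField.finrank_bot, one_mul] at hk
  obtain ⟨j, hj⟩ := H55P.s13_inertia l hl (M := F) (L := L₀) k hk w₀.asIdeal w₀.ne_bot
  have hover : w₀.asIdeal.LiesOver w.asIdeal := by
    constructor
    ext x
    rw [Ideal.mem_under, ← w₀.valuation_lt_one_iff_mem (K := L₀), ← w.valuation_lt_one_iff_mem (K := N),
      ← hw.lt, ← hw₀.lt]
    rfl
  have h2 := Ideal.inertiaDeg_tower (R := 𝓞 F) w.asIdeal w₀.asIdeal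
  have h3 : w.asIdeal.inertiaDeg (𝓞 F) ∣ l ^ j := by
    rw [← hj, h2]
    exact dvd_mul_right _ _
  obtain ⟨i, -, hi⟩ := (Nat.dvd_prime_pow hl).1 h3
  refine ⟨i, ?_⟩
  have hbot : Ideal.span {β} ≠ ⊥ := by
    rw [Ne, Ideal.span_singleton_eq_bot]
    exact hβ.ne_zero
  have hp : (Ideal.span {β}).IsPrime := (Ideal.span_singleton_prime hβ.ne_zero).2 hβ
  have hm : (Ideal.span {β}).IsMaximal := hp.isMaximal hbot
  have hmem : algebraMap (𝓞 F) (𝓞 N) β ∈ w.asIdeal := by
    rw [← HeightOneSpectrum.valuation_lt_one_iff_mem (K := N), ← hw.lt]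
    exact hV
  have hlies : w.asIdeal.LiesOver (Ideal.span {β}) := by
    constructor
    refine hm.eq_of_le (Ideal.IsPrime.ne_top inferInstance) ?_
    rw [Ideal.span_singleton_le_iff_mem]
    exact hmem
  rw [← Ideal.absNorm_pow_inertiaDeg (Ideal.span {β}) w.asIdeal, hi]
  rfl

/-- Chunk YN2 (M). The residue field of N at V. w below V (H13S.exists_below: N is not contained in V because of 1/l). norm_above: absNorm w = Nm β^f. f is a power of l: w₀ = the prime of L₀ below V, absNorm w₀ = Nm β^f₀, f₀ = the inertia degree of w₀ over F divides [L₀ : F] = l^k (L₀/F Galois: e f g = n), f divides f₀ (absNorm w₀ = absNorm w^g', inertia degrees in the tower; or: the residue field of w is a subfield of the residue field of w₀).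
x in N, x in V: x = a/b, a, b in 𝓞 N, b not in w (or: x is congruent to an element of 𝓞 N), a^q - a in w (q = card of the residue field). φ: exists_frobK N. r: representatives of the q = absNorm w classes of 𝓞 N modulo w (Fin q ≃ 𝓞 N/w; differences are not in w: V = 1 by Abv). -/
theorem nb_res {Ω : Type} [Field Ω] [DecidableEq Ω] [Algebra F Ω] [IsAlgClosure F Ω] {l : ℕ} (hl : l.Prime)
    {N L₀ : IntermediateField F Ω} [NumberField N] [NumberField L₀] (hL : H55P.PExt l ⊥ L₀) (hNL : N ≤ L₀)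
    (V : ValuationSubring Ω) (β : 𝓞 F) (hβ : Prime β) (hV : vo V β < 1) (hVl : V.valuation (l : Ω) < 1) :
    ∃ q f : ℕ, 0 < f ∧ q = Nm β ^ f ∧ (∀ x ∈ N, x ∈ V → V.valuation (x ^ q - x) < 1) ∧
      (∃ φ ∈ N.fixingSubgroup, H55P.Dec V φ ∧ ∀ x ∈ V, V.valuation (φ x - x ^ q) < 1) ∧
      ∃ r : Fin q → Ω, (∀ i, r i ∈ N ∧ V.valuation (r i) ≤ 1) ∧
        (∀ i i', i ≠ i' → V.valuation (r i - r i') = 1) ∧
        ∀ x ∈ N, x ∈ V → ∃ i, V.valuation (x - r i) < 1 := by
  have hcz : CharZero Ω := charZero_of_injective_algebraMap (algebraMap F Ω).injective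
  have hl0 : (l : Ω) ≠ 0 := Nat.cast_ne_zero.2 hl.ne_zero
  have hlinv : ((l : Ω)⁻¹) ∉ V := by
    rw [← V.valuation_le_one_iff, map_inv₀, not_le]
    exact (one_lt_inv₀ (zero_lt_iff.2 ((map_ne_zero _).2 hl0))).2 hVl
  have hN : ∃ x : N, (x : Ω) ∉ V := by
    refine ⟨(l : N)⁻¹, ?_⟩
    have e : (((l : N)⁻¹ : N) : Ω) = (l : Ω)⁻¹ := by simp
    rw [e]
    exact hlinv
  have hL' : ∃ x : L₀, (x : Ω) ∉ V := by
    refine ⟨(l : L₀)⁻¹, ?_⟩
    have e : (((l : L₀)⁻¹ : L₀) : Ω) = (l : Ω)⁻¹ := by simp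
    rw [e]
    exact hlinv
  obtain ⟨w, hw⟩ := H13S.exists_below N V hN
  obtain ⟨w₀, hw₀⟩ := H13S.exists_below L₀ V hL'
  have hwm := w.isMaximal
  obtain ⟨j, hj⟩ := yn2_exp hl hL hNL V β hβ hV w hw w₀ hw₀
  obtain ⟨φ, hφN, hφD, hφ⟩ := exists_frobK N hw
  refine ⟨Ideal.absNorm w.asIdeal, l ^ j, pow_pos hl.pos j, hj, ?_, ⟨φ, hφN, hφD, hφ⟩, ?_⟩
  · intro x hx hxV
    have h1 := hφ x hxV
    have h2 : φ x = x := (IntermediateField.mem_fixingSubgroup_iff N φ).1 hφN x hx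
    rw [h2] at h1
    rw [← neg_sub, Valuation.map_neg]
    exact h1
  · have hcard : Nat.card (𝓞 N ⧸ w.asIdeal) = Ideal.absNorm w.asIdeal := rfl
    have hfin : Finite (𝓞 N ⧸ w.asIdeal) := Ideal.finiteQuotientOfFreeOfNeBot _ w.ne_bot
    have e : Fin (Ideal.absNorm w.asIdeal) ≃ (𝓞 N ⧸ w.asIdeal) := by
      rw [← hcard]
      exact (Finite.equivFin _).symm
    have hmk : ∀ y : 𝓞 N ⧸ w.asIdeal, Ideal.Quotient.mk w.asIdeal (Quotient.out y) = y := fun y =>
      Quotient.out_eq y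
    refine ⟨fun i => (((Quotient.out (e i) : 𝓞 N) : N) : Ω), fun i => ⟨?_, H13S.vw_int N V _⟩, ?_, ?_⟩
    · exact ((Quotient.out (e i) : 𝓞 N) : N).2
    · intro i i' hii
      have e1 : (((Quotient.out (e i) : 𝓞 N) : N) : Ω) - (((Quotient.out (e i') : 𝓞 N) : N) : Ω) =
          (((Quotient.out (e i) - Quotient.out (e i') : 𝓞 N) : N) : Ω) := by simp
      show V.valuation ((((Quotient.out (e i) : 𝓞 N) : N) : Ω) - (((Quotient.out (e i') : 𝓞 N) : N) : Ω)) = 1
      rw [e1]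
      refine le_antisymm (H13S.vw_int N V _) (not_lt.1 fun h' => hii ?_)
      have h2 := (w.valuation_lt_one_iff_mem _).1 ((hw.lt _).1 h')
      rw [← Ideal.Quotient.eq_zero_iff_mem, map_sub, hmk, hmk, sub_eq_zero] at h2
      exact e.injective h2
    · intro x hx hxV
      obtain ⟨y, hy⟩ := yn2_approx N V w hw ⟨x, hx⟩ hxV
      refine ⟨e.symm (Ideal.Quotient.mk w.asIdeal y), ?_⟩
      have h3 : y - Quotient.out (Ideal.Quotient.mk w.asIdeal y) ∈ w.asIdeal := by
        rw [← Ideal.Quotient.eq_zero_iff_mem, map_sub, hmk, sub_self]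
      have h4 := (hw.lt _).2 ((w.valuation_lt_one_iff_mem _).2 h3)
      show V.valuation (x - (((Quotient.out (e (e.symm (Ideal.Quotient.mk w.asIdeal y))) : 𝓞 N) : N) : Ω)) < 1
      rw [e.apply_symm_apply]
      have e2 : x - (((Quotient.out (Ideal.Quotient.mk w.asIdeal y) : 𝓞 N) : N) : Ω) =
          (x - ((y : N) : Ω)) + (((y - Quotient.out (Ideal.Quotient.mk w.asIdeal y) : 𝓞 N) : N) : Ω) := by
        have h5 : (((y - Quotient.out (Ideal.Quotient.mk w.asIdeal y) : 𝓞 N) : N) : Ω) =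
          ((y : N) : Ω) - (((Quotient.out (Ideal.Quotient.mk w.asIdeal y) : 𝓞 N) : N) : Ω) := by simp
        rw [h5]
        ring
      rw [e2]
      exact V.valuation.map_add_lt hy h4

/-- Extensions inside a Galois extension of degree a power of l, in which l is unramified, satisfy Nb. -/
theorem nb_of {Ω : Type} [Field Ω] [DecidableEq Ω] [Algebra F Ω] [IsAlgClosure F Ω] {l : ℕ} (hl : l.Prime)
    {N L₀ : IntermediateField F Ω} [NumberField N] [NumberField L₀] (hL : H55P.PExt l ⊥ L₀) (hNL : N ≤ L₀)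
    (hU : H55P.UnrP l L₀) : Nb l N := by
  have hLf : FiniteDimensional F L₀ := hL.fin
  have hcz : CharZero Ω := charZero_of_injective_algebraMap (algebraMap F Ω).injective
  refine ⟨H55P.finDim_of_le hNL, ?_, ?_⟩
  · intro V h s hs
    have hn : ∀ s : Ω ≃ₐ[F] Ω, ∀ x ∈ L₀, s x ∈ L₀ := fun s => hL.norm s (fix_bot s)
    have hVne : ∃ x : L₀, (x : Ω) ∉ V := by
      have hl0 : (l : Ω) ≠ 0 := Nat.cast_ne_zero.2 hl.ne_zero
      refine ⟨(l : L₀)⁻¹, fun hmem => ?_⟩
      have h1 : V.valuation ((((l : L₀))⁻¹ : L₀) : Ω) ≤ 1 := (V.valuation_le_one_iff _).2 hmem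
      have h2 : ((((l : L₀))⁻¹ : L₀) : Ω) = (l : Ω)⁻¹ := by push_cast; rfl
      rw [h2] at h1
      have h3 : V.valuation ((l : Ω) * (l : Ω)⁻¹) < 1 := by
        rw [map_mul]
        exact mul_lt_one_of_lt_of_le h h1
      rw [mul_inv_cancel₀ hl0, map_one] at h3
      exact lt_irrefl _ h3
    refine IntermediateField.fixingSubgroup_le hNL (inert_triv hn hVne ?_ hs)
    intro v₀ hv₀ hr
    obtain ⟨W, hW, hle⟩ := hr
    have hlv : (l : 𝓞 F) ∈ v₀.asIdeal := by
      rw [hv₀]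
      simpa using h
    have h1 : (l : 𝓞 L₀) ∈ W ^ 2 := by
      have := hle (Ideal.mem_map_of_mem (algebraMap (𝓞 F) (𝓞 L₀)) hlv)
      rwa [map_natCast] at this
    have h2 : W ^ 2 ∣ Ideal.span {(l : 𝓞 L₀)} := by
      rw [Ideal.dvd_iff_le, Ideal.span_singleton_le_iff_mem]
      exact h1
    have h3 : IsUnit W := hU W (by rwa [← sq])
    exact hW.ne_top (Ideal.isUnit_iff.1 h3)
  · intro V β hβ h1 h2
    exact nb_res hl hL hNL V β hβ h1 h2

end H13X
end

-- from Lib.H55K.SLV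
section

/-! # H55K, part S: the level at the primes above π -/

open NumberField IsDedekindDomain WeierstrassCurve

namespace H55K.S

open H55P (IQ embF eF LF Per IsHecke Pt ac Inert Dec Nm)
open H35P (WAB Ker tt)
open H13S (Abv)

variable {F : Type} [Field F] [NumberField F] [IQ F] {A B : F} {Om : ℂ} {Ω : Type} [Field Ω] [DecidableEq Ω]
  [Algebra F Ω] [IsAlgClosure F Ω] {j : Ω →+* ℂ} {act : 𝓞 F →+* AddMonoid.End (Pt (WAB A B) Ω)} {mo : Ideal (𝓞 F)}
  {ψ : Ideal (𝓞 F) →*₀ 𝓞 F}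

omit [IsAlgClosure F Ω] [DecidableEq Ω] in
theorem val_l {π : 𝓞 F} {l : ℕ} (hd : π ∣ (l : 𝓞 F)) (hle : ∀ (V : ValuationSubring Ω) (x : 𝓞 F), vo V x ≤ 1)
    (V : ValuationSubring Ω) (hV : vo V π < 1) : V.valuation (l : Ω) < 1 := by
  obtain ⟨u, hu⟩ := hd
  rw [← vo_nat (F := F), hu, vo_mul]
  exact lt_of_le_of_lt (mul_le_of_le_one_right' (hle V u)) hV

/-- The level at the primes above π. -/
theorem level {π : 𝓞 F} {l : ℕ} {c : (Ω ≃ₐ[F] Ω) → Pt (WAB A B) Ω} (C : Cl A B Om j act mo ψ π l c)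
    {e : Pt (WAB A B) Ω → Pt (WAB A B) Ω → Ω} (he : Pairing A B act π l e) {L : IntermediateField F Ω}
    (hL : H55K.S.IsTF act π L) [NumberField L] (V : ValuationSubring Ω) (hV : vo V π < 1) (w : HeightOneSpectrum (𝓞 L))
    (hw : Abv L V w) (T : Pt (WAB A B) Ω) (hT : T ∈ Tor act π) (m : L) (hm : m ≠ 0) (y : Ω)
    (hyk : Kum L e c T y) (hy : y ^ l = (m : Ω)) :
    ∃ z : L, z ≠ 0 ∧ w.valuation L (m / z ^ l - 1) ≤ WithZero.exp (-2 : ℤ) := by
  have hVl := val_l C.dvd vo_le V hV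
  have hG := C.dta.good V hVl
  rcases dichotomy C.hl C.dta.unr C.pr C.dvd with ⟨h1, h2, h3⟩ | ⟨h1, -, -, -⟩
  · exact level_inert C h3 (tor_assoc h1) h2 he hL V hG hV w hw T hT m hm y hyk hy
  · have hcj : vo V (cj π) = 1 := vo_unit ((C.pr.irreducible.coprime_iff_not_dvd).2 h1) hV
    refine H13S.level_unr L V w hw l C.hl hVl m hm y hy ?_
    intro s hs hi
    rw [hyk.2 s hs, c_inert_zero C V hG hcj s hi, ld3_e0 C.hl.ne_zero he hT, one_mul]

end H55K.S
end

-- from Lib.SSG.E.R3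
section

open NumberField IsDedekindDomain

namespace SSG.E

open H55N H55P

variable {F : Type} [Field F] [NumberField F] [IQ F] {K : Type} [Field K] [NumberField K]
  [Algebra F K] {m : ℕ}

/-! Chunk R3 (M). A sum over X of products of functions of the traces, by classes modulo the lattice. COPY of the class decomposition in rat_val (Lib/H55P/E8.lean). For β in B the class β + Lat is parametrised by y in (𝓞 F)^(m+1): x = β + z y with
z y the element of D.I in all D.c i with traces M y k (Full), injective because eF is injective and M <> 0, onto the class by Tr_inj (hA). G (β + z y) = G β. The sum over y is the product of the one dimensional sums (pi_hasSum, as in E8.lean).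
Then add up over the finite set B (X is the disjoint union of the classes). -/

theorem sum_lat (D : Ctx F K m) (hD : D.Ok) (A : Fin (m + 1) → K) (hA : LinearIndependent F A) (M : ℕ) (hM : M ≠ 0)
    (hfull : Full D A M) (B : Finset (𝓞 K)) (hB : RpL D A M B) (G : 𝓞 K → ℂ) (hG : ∀ x, ∀ y ∈ Lat D A M, G (x + y) = G x)
    (f : Fin (m + 1) → ℂ → ℂ)
    (hf : ∀ β ∈ B, ∀ k, Summable fun y : 𝓞 F => ‖f k (D.Tr (A k) β + M * eF F y)‖) :
    ∑' x : D.X, G x * ∏ k, f k (D.Tr (A k) x) =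
      ∑ β ∈ B, G β * ∏ k, ∑' y : 𝓞 F, f k (D.Tr (A k) β + M * eF F y) := by
  classical
  have hm0 : (M : ℂ) ≠ 0 := by exact_mod_cast hM
  choose z hzI hzc hzT using hfull
  have hzL : ∀ y, z y ∈ Lat D A M := fun y => ⟨hzI y, hzc y, fun k => ⟨y k, hzT y k⟩⟩
  have hr : ∀ x : D.X, ∃ y, y ∈ B ∧ (x : 𝓞 K) - y ∈ Lat D A M := fun x => (hB.ex x x.2).exists
  choose r hrB hrL using hr
  have hru : ∀ (x : D.X) (y : 𝓞 K), y ∈ B → (x : 𝓞 K) - y ∈ Lat D A M → r x = y := fun x y h1 h2 =>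
    (hB.ex x x.2).unique ⟨hrB x, hrL x⟩ ⟨h1, h2⟩
  have hclass : ∀ β ∈ B, HasSum (fun x : D.X => if r x = β then G x * ∏ k, f k (D.Tr (A k) x) else 0)
      (G β * ∏ k, ∑' y : 𝓞 F, f k (D.Tr (A k) β + M * eF F y)) := by
    intro β hβ
    let j : (Fin (m + 1) → 𝓞 F) → D.X := fun y => ⟨β + z y, D.X_add (hB.sub β hβ) (hzI y)⟩
    have hjv : ∀ y, ((j y : D.X) : 𝓞 K) = β + z y := fun y => rfl
    have hjT : ∀ y k, D.Tr (A k) (j y) = D.Tr (A k) β + M * eF F (y k) := by
      intro y k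
      show D.Tr (A k) (β + z y) = _
      rw [D.Tr_add, hzT]
    have hjinj : Function.Injective j := by
      intro y y' h
      funext k
      have h1 := hjT y k
      rw [h, hjT y' k] at h1
      have h2 : eF F (y' k) = eF F (y k) := mul_left_cancel₀ hm0 (add_left_cancel h1)
      exact (eF_inj h2).symm
    have hjq : ∀ y, r (j y) = β := by
      intro y
      apply hru _ _ hβ
      rw [hjv, add_sub_cancel_left]
      exact hzL y
    have hjr : ∀ x : D.X, r x = β → x ∈ Set.range j := by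
      intro x hx
      have h0 := hrL x
      rw [hx] at h0
      choose t ht using h0.2.2
      refine ⟨t, Subtype.ext ?_⟩
      show β + z t = x
      have h2 : z t = x - β := by
        refine Tr_inj D hD.emb A hA _ _ fun k => ?_
        rw [hzT, ht k]
      rw [h2]; ring
    have hs := (pi_hasSum (m + 1) (fun k y => f k (D.Tr (A k) β + M * eF F y)) (fun k => hf β hβ k)).mul_left (G β)
    refine (hjinj.hasSum_iff ?_).1 ?_
    · intro x hx
      exact if_neg fun h => hx (hjr x h)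
    · have hcongr : ((fun x : D.X => if r x = β then G x * ∏ k, f k (D.Tr (A k) x) else 0) ∘ j) =
          fun y => G β * ∏ k, f k (D.Tr (A k) β + M * eF F (y k)) := by
        funext y
        show (if r (j y) = β then G (β + z y) * ∏ k, f k (D.Tr (A k) (j y)) else 0) = _
        rw [if_pos (hjq y), hG _ _ (hzL y)]
        congr 1
        exact Finset.prod_congr rfl fun k _ => by rw [hjT]
      rw [hcongr]
      exact hs
  have h1 := hasSum_sum (s := B) hclass
  have h2 : (fun x : D.X => ∑ β ∈ B, if r x = β then G x * ∏ k, f k (D.Tr (A k) x) else 0) =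
      fun x : D.X => G x * ∏ k, f k (D.Tr (A k) x) := by
    funext x
    rw [Finset.sum_ite_eq]
    exact if_pos (hrB x)
  rw [h2] at h1
  exact h1.tsum_eq

end SSG.E
end
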