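import Mathlib
import Pool.Agent.Lib.H1M.PP2.D_H28T_CD
import Pool.Agent.Lib.H1M.PP2.D_H28T_W15
import Pool.Agent.Lib.H1M.PP2.D_H28T_W16
import Pool.Agent.Lib.H1M.PP2.M059
import Pool.Agent.Lib.H1M.PP2.M083
import Pool.Agent.Lib.H1M.PP2.M090
import Pool.Agent.Lib.H1M.PP2.M091
import Pool.Agent.Lib.H1M.PP2.M095
import Pool.Agent.Lib.H1M.PP2.M099
import Pool.Agent.Lib.H1M.PP2.M102
import Pool.Agent.Lib.H1M.PP2.M103
import Pool.Agent.Lib.H1M.PP2.M107
import Pool.Agent.Lib.H1M.PP2.M116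
import Pool.Agent.Lib.H1M.PP2.M118
import Pool.Agent.Lib.H1M.PP2.M119
import Pool.Agent.Lib.H1M.PP2.M128

/-! Merged copies (to shorten the build) of Lib.H55K.NA7, Lib.H13R.E1, Lib.H55K.NF, Lib.H13R.G1, Lib.H13R.J3, Lib.H28T.W16_T, Lib.H28T.AR5, Lib.H55Z.S2. -/

-- from Lib.H55K.NA7
section

/-! # H55K, part N: the Selmer group in p-extensions, bad primes may be ramified -/

open NumberField IsDedekindDomain WeierstrassCurve

namespace H55K.NB

open H55P (IQ embF eF LF Per IsHecke Pt ac acR Inert Dec Nm UnitP Ram RamF PExt SelG ShaG PtsG clos)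
open H35P (WAB Ker tt GoodW IntW)
open H55K.MG (VC Crd)
open H55K.TQ

variable {F : Type} [Field F] [NumberField F] [IQ F] {W₀ : WeierstrassCurve (𝓞 F)} {Om : ℂ}
    {m : Ideal (𝓞 F)} {ψ : Ideal (𝓞 F) →*₀ 𝓞 F} {p : ℕ}

open Classical in
/-- The Galois action on the p-torsion is commutative. -/
theorem comm_tors (hH : BaseH F W₀ Om m ψ) (hp : p.Prime)
    (s t : AlgebraicClosure F ≃ₐ[F] AlgebraicClosure F) (T : Pt (W₀⁄F) (AlgebraicClosure F)) (hT : p • T = 0) :
    ac (W₀⁄F) s (ac (W₀⁄F) t T) = ac (W₀⁄F) t (ac (W₀⁄F) s T) := by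
  obtain ⟨A, hA⟩ : ∃ A : F, A = -(algebraMap (𝓞 F) F W₀.c₄) / 48 := ⟨_, rfl⟩
  obtain ⟨B, hB⟩ : ∃ B : F, B = -(algebraMap (𝓞 F) F W₀.c₆) / 864 := ⟨_, rfl⟩
  have hell := hH.data.ell
  have hd := y3_ne W₀ hA hB hell
  obtain ⟨j, hj⟩ := exists_j F (AlgebraicClosure F)
  have hper : Per F (embF F A) (embF F B) Om := by
    have e1 : embF F A = -(eF F W₀.c₄) / 48 := by
      rw [hA, map_div₀, map_neg, map_ofNat]
      rfl
    have e2 : embF F B = -(eF F W₀.c₆) / 864 := by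
      rw [hB, map_div₀, map_neg, map_ofNat]
      rfl
    rw [e1, e2]
    exact hH.data.per
  obtain ⟨act, hC⟩ := exists_CMA F A B Om j hd hper hj
  have hΔA : (WAB A B).Δ ≠ 0 := by
    have e : (WAB A B).Δ = -16 * (4 * A ^ 3 + 27 * B ^ 2) := by
      unfold WAB WeierstrassCurve.Δ WeierstrassCurve.b₂ WeierstrassCurve.b₄ WeierstrassCurve.b₆ WeierstrassCurve.b₈
      ring
    rw [e]
    exact mul_ne_zero (by norm_num) hd
  obtain ⟨r, s', t', hVC⟩ := vc_short W₀ hA hB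
  have hVC' := vc_map (algebraMap F (AlgebraicClosure F)) hVC
  have hΔ1 : ((WAB A B).map (algebraMap F (AlgebraicClosure F))).Δ ≠ 0 := by
    rw [WeierstrassCurve.map_Δ]
    exact (map_ne_zero _).2 hΔA
  have hΔ2 : ((W₀⁄F).map (algebraMap F (AlgebraicClosure F))).Δ ≠ 0 := by
    have e : (W₀⁄F).Δ = algebraMap (𝓞 F) F W₀.Δ := WeierstrassCurve.map_Δ _ _
    rw [WeierstrassCurve.map_Δ, e]
    refine (map_ne_zero _).2 fun h1 => hell ?_
    exact (map_eq_zero_iff _ (FaithfulSMul.algebraMap_injective (𝓞 F) F)).1 h1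
  obtain ⟨Θ, hΘ⟩ : ∃ Θ : Pt (WAB A B) (AlgebraicClosure F) ≃+ Pt (W₀⁄F) (AlgebraicClosure F),
      Crd (algebraMap F (AlgebraicClosure F) 1) (algebraMap F (AlgebraicClosure F) r)
        (algebraMap F (AlgebraicClosure F) s') (algebraMap F (AlgebraicClosure F) t') Θ := MG.vc_iso hVC' hΔ1 hΔ2
  have hcom : ∀ (g : AlgebraicClosure F ≃ₐ[F] AlgebraicClosure F) (P : Pt (WAB A B) (AlgebraicClosure F)),
      ac (W₀⁄F) g (Θ P) = Θ (ac (WAB A B) g P) := by
    intro g P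
    by_cases hP : P = 0
    · subst hP
      rw [map_zero, map_zero, map_zero, map_zero]
    · obtain ⟨a1, a2, a3⟩ := hΘ P hP
      obtain ⟨b1, b2, b3⟩ := MG.ac_crd (W := WAB A B) g P
      have hP' : ac (WAB A B) g P ≠ 0 := fun h => hP (b3.1 h)
      obtain ⟨c1, c2, c3⟩ := hΘ _ hP'
      obtain ⟨d1, d2, d3⟩ := MG.ac_crd (W := W₀⁄F) g (Θ P)
      have e2 := congrArg g a2
      have e3 := congrArg g a3
      simp only [map_add, map_mul, map_pow, map_one, AlgEquiv.commutes, one_pow, one_mul, mul_one] at e2 e3 c2 c3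
      have f2 : xc (ac (W₀⁄F) g (Θ P)) = xc (Θ (ac (WAB A B) g P)) := by
        rw [d1]
        linear_combination c2 - e2 - b1
      refine pt_ext (fun h => a1 (d3.1 h)) c1 f2 ?_
      rw [d2]
      rw [d1] at f2
      linear_combination c3 - e3 - b2 - (algebraMap F (AlgebraicClosure F) s') * f2
  obtain ⟨T', rfl⟩ := Θ.surjective T
  have hTp : p • T' = 0 := by
    apply Θ.injective
    rw [map_nsmul, hT, map_zero]
  rw [hcom, hcom, hcom, hcom]
  congr 1
  have hmul : ∀ (a b : 𝓞 F) (Q : Pt (WAB A B) (AlgebraicClosure F)), act (a * b) Q = act a (act b Q) := by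
    intro a b Q
    rw [map_mul]
    rfl
  have hp0 : (p : 𝓞 F) ≠ 0 := by exact_mod_cast hp.ne_zero
  have hact : ∀ Q : Pt (WAB A B) (AlgebraicClosure F), act (p : 𝓞 F) Q = p • Q := by
    intro Q
    rw [map_natCast]
    rfl
  obtain ⟨T₀, hT₀, hgen, -, -⟩ := hC.gen (p : 𝓞 F) hp0
  have hT₀' : p • T₀ = 0 := by
    rw [← hact]
    exact hT₀
  have hsc : ∀ g : AlgebraicClosure F ≃ₐ[F] AlgebraicClosure F, ∃ a : 𝓞 F, ∀ Q : Pt (WAB A B) (AlgebraicClosure F),
      p • Q = 0 → ac (WAB A B) g Q = act a Q := by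
    intro g
    obtain ⟨a, ha⟩ := hgen (ac (WAB A B) g T₀) (by
      show act (p : 𝓞 F) _ = 0
      rw [hact, ← map_nsmul, hT₀', map_zero])
    refine ⟨a, fun Q hQ => ?_⟩
    obtain ⟨x, rfl⟩ := hgen Q (by
      show act (p : 𝓞 F) _ = 0
      rw [hact, hQ])
    rw [hC.gal, ha, ← hmul, ← hmul, mul_comm]
  obtain ⟨a, ha⟩ := hsc s
  obtain ⟨b, hb⟩ := hsc t
  have h1 : p • act b T' = 0 := by rw [← map_nsmul, hTp, map_zero]
  have h2 : p • act a T' = 0 := by rw [← map_nsmul, hTp, map_zero]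
  rw [hb T' hTp, ha T' hTp, ha _ h1, hb _ h2, ← hmul, ← hmul, mul_comm]

open Classical in
/-- The tower theorem: the p-Selmer group stays zero in the fields K inside Galois extensions L of F of degree a power of p, if p is
unramified in K and no prime of good reduction with a number of points divisible by p is ramified in K. Bad primes may be ramified. -/
theorem selB (hH : BaseH F W₀ Om m ψ) (hp : PrimeH F W₀ p) {L K : IntermediateField F (AlgebraicClosure F)}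
    [NumberField K] (hL : PExt p ⊥ L) (hK : K ≤ L) (hU : H55P.UnrP p K) (hN : NoAn p W₀ K)
    (hS : SelG p W₀ (⊥ : IntermediateField F (AlgebraicClosure F))) : SelG p W₀ K ∧ ShaG p W₀ K ∧ PtsG p W₀ K := by
  have hLf : FiniteDimensional F L := hL.fin
  have hKf : FiniteDimensional F K := H55P.finDim_of_le hK
  have hMn : NumberField (⊥ : IntermediateField F (AlgebraicClosure F)) := H16C.FR_numberField _
  have hell : (W₀⁄F).IsElliptic := H55P.gen_ell W₀ hH.data.ell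
  obtain ⟨v₀, hv₀⟩ : ∃ v, H55P.GoodG p W₀ m ψ (⊥ : IntermediateField F (AlgebraicClosure F)) v := by
    refine exists_goodG hp.prime hp.five ((unr_iff hp.prime).1 hp.unr) hH.data.hecke W₀ hH.data.ell ?_
      (fun v h _ => hH.deu v h)
    rw [Ideal.isCoprime_iff_sup_eq]
    by_contra hne
    obtain ⟨Q, hQ, hle⟩ := Ideal.exists_le_maximal _ hne
    have hpQ : (p : 𝓞 F) ∈ Q := hle (Ideal.mem_sup_right (Ideal.mem_span_singleton_self _))
    have hp0 : (p : 𝓞 F) ≠ 0 := by exact_mod_cast hp.prime.ne_zero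
    have hQ0 : Q ≠ ⊥ := by
      rintro rfl
      exact hp0 ((Ideal.mem_bot).1 hpQ)
    have hΔ : W₀.Δ ∈ Q := (hH.supp ⟨Q, hQ.isPrime, hQ0⟩).2 (le_sup_left.trans hle)
    obtain ⟨x, hx, y, hy, hxy⟩ := Ideal.isCoprime_iff_exists.1 hp.cop
    have h1 : x ∈ Q := (Ideal.span_singleton_le_iff_mem _).2 hΔ hx
    have h2 : y ∈ Q := (Ideal.span_singleton_le_iff_mem _).2 hpQ hy
    exact hQ.ne_top ((Ideal.eq_top_iff_one _).2 (hxy ▸ Q.add_mem h1 h2))
  have hC' := H55P.clos_pext p hp.prime ⊥ K L hL bot_le hK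
  have h0 : ∀ T : Pt (W₀⁄F) (AlgebraicClosure F), p • T = 0 →
      (∀ s ∈ (⊥ : IntermediateField F (AlgebraicClosure F)).fixingSubgroup, ac (W₀⁄F) s T = T) → T = 0 := fun T hT hf =>
    H55P.tors_of_prime W₀ p hp.prime ⊥ v₀ hv₀.disc hv₀.res hv₀.pts T hT hf
  have hSK : H55P.SelZero (W₀⁄F) p K := sel_towerB W₀ p hp.prime ⊥ (clos ⊥ K) hC' h0
    (fun s _ t _ T hT => comm_tors hH hp.prime s t T hT)
    (fun v hv => by
      have hv' := H55P.clos_ram ⊥ K L bot_le hK hL.norm v hv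
      obtain ⟨v₁, h1, h2, h3⟩ := H55P.bot_conv W₀ (⊥ : IntermediateField F (AlgebraicClosure F)) v
      have hr : RamF K v₁.asIdeal := (y9_ram h1 K).1 hv'
      have hpv : (p : 𝓞 F) ∉ v₁.asIdeal := y9_unr K hU hr
      refine ⟨fun h => hpv ((h1 _).2 (by rwa [map_natCast])), ?_⟩
      by_cases hΔ : W₀.Δ ∈ v₁.asIdeal
      · right
        intro V hV T hT hf
        refine bad_tors hH hp hL (H55P.clos_le ⊥ K L hK hL.norm) (V := V) (v := v₁) (fun a ha => ?_) hΔ T hT hf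
        exact (hV _).1 ((h1 a).1 ha)
      · left
        refine ⟨fun h => hΔ ((h1 _).2 h), ?_⟩
        rw [h3]
        exact hN v₁ hr hΔ) hS K bot_le (H55P.le_clos ⊥ K)
  exact ⟨hSK, H55P.sha_zero (W₀⁄F) p hp.prime K hSK, H55P.pts_fin (W₀⁄F) p hp.prime K hSK⟩

end H55K.NB
end

-- from Lib.H13R.E1
section

/-! # H13R: Selmer groups in the tower over M -/

open NumberField IsDedekindDomain WeierstrassCurve

namespace H13R

open H55P (IQ embF eF LF Per IsHecke Pt ac acR Inert Dec Nm UnitP Ram RamF PExt SelG ShaG PtsG clos UnrP)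
open H35P (WAB Ker tt GoodW IntW)
open H55K.MG (VC Crd)
open H55K.TQ

variable {F : Type} [Field F] [NumberField F] [IQ F] {W₀ : WeierstrassCurve (𝓞 F)} {Om : ℂ}
    {m : Ideal (𝓞 F)} {ψ : Ideal (𝓞 F) →*₀ 𝓞 F} {p : ℕ}

open Classical in
/-- There is no p-torsion over the fields in p-extensions of M. -/
theorem tors_KR (hH : BaseH F W₀ Om m ψ) (hp : PrimeH F W₀ p) {M L K : IntermediateField F (AlgebraicClosure F)}
    [NumberField M] (hUM : UnrP p M) (hL : PExt p M L) (hK : K ≤ L) (T : Pt (W₀⁄F) (AlgebraicClosure F)) (hT : p • T = 0)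
    (hf : ∀ s ∈ K.fixingSubgroup, ac (W₀⁄F) s T = T) : T = 0 := by
  obtain ⟨v, hv⟩ := exists_goodGR hH hp M hUM
  have hLf : FiniteDimensional F L := hL.fin
  have hMf : FiniteDimensional F M := H55P.finDim_of_le hL.le
  have hE : (W₀⁄F).IsElliptic := H55P.gen_ell W₀ hH.data.ell
  exact H55P.tors_tower (W₀⁄F) p hp.prime M L hL
    (fun T hT hf => H55P.tors_of_prime W₀ p hp.prime M v hv.disc hv.res hv.pts T hT hf) K hK T hT hf



end H13R
end

-- from Lib.H55K.NF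
section

/-! # H55K: interface: Selmer groups over the tower (part N) -/

open NumberField IsDedekindDomain WeierstrassCurve

namespace H55K.TQ

open H55P (IQ embF eF LF Per IsHecke Pt ac Inert Dec Nm UnitP)

variable {F : Type} [Field F] [NumberField F] [IQ F] {W₀ : WeierstrassCurve (𝓞 F)} {Om : ℂ}
    {m : Ideal (𝓞 F)} {ψ : Ideal (𝓞 F) →*₀ 𝓞 F} {p : ℕ}

/-- Part N (helper99). -/
theorem sel_all (hH : BaseH F W₀ Om m ψ) (hp : PrimeH F W₀ p) {L K : IntermediateField F (AlgebraicClosure F)}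
    [NumberField K] (hL : H55P.PExt p ⊥ L) (hK : K ≤ L) (hU : H55P.UnrP p K) (hN : NoAn p W₀ K)
    (h0 : H55P.SelG p W₀ (⊥ : IntermediateField F (AlgebraicClosure F))) :
    H55P.SelG p W₀ K ∧ H55P.ShaG p W₀ K ∧ H55P.PtsG p W₀ K :=
  NB.selB hH hp hL hK hU hN h0

end H55K.TQ
end

-- from Lib.H13R.G1
section

/-! # H13R: the base fields -/

open NumberField IsDedekindDomain WeierstrassCurve

namespace H13R

open H55P (IQ embF eF LF Per IsHecke Pt ac Inert Dec Nm Coc PExt UnrP)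
open H35P (WAB Ker tt)
open H55K.S
open H13S (Abv)
open H13X

variable {F : Type} [Field F] [NumberField F] [IQ F] {l : ℕ}

theorem g1_exp {N : IntermediateField F (AlgebraicClosure F)} [NumberField N]
    (V : ValuationSubring (AlgebraicClosure F)) (β : 𝓞 F) (hβ : Prime β) (hV : vo V β < 1)
    (w : HeightOneSpectrum (𝓞 N)) (hw : Abv N V w) :
    ∃ f : ℕ, 0 < f ∧ Ideal.absNorm w.asIdeal = Nm β ^ f := by
  have hwp := w.isPrime
  have hwm := w.isMaximal
  have hbot : Ideal.span {β} ≠ ⊥ := by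
    rw [Ne, Ideal.span_singleton_eq_bot]
    exact hβ.ne_zero
  have hp : (Ideal.span {β}).IsPrime := (Ideal.span_singleton_prime hβ.ne_zero).2 hβ
  have hm : (Ideal.span {β}).IsMaximal := hp.isMaximal hbot
  have hmem : algebraMap (𝓞 F) (𝓞 N) β ∈ w.asIdeal := by
    rw [← HeightOneSpectrum.valuation_lt_one_iff_mem (K := N), ← hw.lt]
    exact hV
  have hlies : w.asIdeal.LiesOver (Ideal.span {β}) := by
    constructor
    refine hm.eq_of_le (Ideal.IsPrime.ne_top inferInstance) ?_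
    rw [Ideal.span_singleton_le_iff_mem]
    exact hmem
  refine ⟨w.asIdeal.inertiaDeg (𝓞 F), Ideal.inertiaDeg_pos w.asIdeal (𝓞 F), ?_⟩
  rw [← Ideal.absNorm_pow_inertiaDeg (Ideal.span {β}) w.asIdeal]
  rfl

/-- The residue fields above l. -/
theorem g1_res (hl : l.Prime) {N : IntermediateField F (AlgebraicClosure F)} [NumberField N]
    (V : ValuationSubring (AlgebraicClosure F)) (β : 𝓞 F) (hβ : Prime β) (hV : vo V β < 1) (hVl : V.valuation (l : AlgebraicClosure F) < 1) :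
    ∃ q f : ℕ, 0 < f ∧ q = Nm β ^ f ∧ (∀ x ∈ N, x ∈ V → V.valuation (x ^ q - x) < 1) ∧
      (∃ φ ∈ N.fixingSubgroup, H55P.Dec V φ ∧ ∀ x ∈ V, V.valuation (φ x - x ^ q) < 1) ∧
      ∃ r : Fin q → AlgebraicClosure F, (∀ i, r i ∈ N ∧ V.valuation (r i) ≤ 1) ∧
        (∀ i i', i ≠ i' → V.valuation (r i - r i') = 1) ∧
        ∀ x ∈ N, x ∈ V → ∃ i, V.valuation (x - r i) < 1 := by
  classical
  have hl0 : (l : AlgebraicClosure F) ≠ 0 := Nat.cast_ne_zero.2 hl.ne_zero
  have hlinv : ((l : AlgebraicClosure F)⁻¹) ∉ V := by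
    rw [← V.valuation_le_one_iff, map_inv₀, not_le]
    exact (one_lt_inv₀ (zero_lt_iff.2 ((map_ne_zero _).2 hl0))).2 hVl
  have hN : ∃ x : N, (x : AlgebraicClosure F) ∉ V := by
    refine ⟨(l : N)⁻¹, ?_⟩
    have e : (((l : N)⁻¹ : N) : AlgebraicClosure F) = (l : AlgebraicClosure F)⁻¹ := by simp
    rw [e]
    exact hlinv
  obtain ⟨w, hw⟩ := H13S.exists_below N V hN
  have hwm := w.isMaximal
  obtain ⟨f, hf0, hf⟩ := g1_exp V β hβ hV w hw
  obtain ⟨φ, hφN, hφD, hφ⟩ := exists_frobK N hw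
  refine ⟨Ideal.absNorm w.asIdeal, f, hf0, hf, ?_, ⟨φ, hφN, hφD, hφ⟩, ?_⟩
  · intro x hx hxV
    have h1 := hφ x hxV
    have h2 : φ x = x := (IntermediateField.mem_fixingSubgroup_iff N φ).1 hφN x hx
    rw [h2] at h1
    rw [← neg_sub, Valuation.map_neg]
    exact h1
  · have hcard : Nat.card (𝓞 N ⧸ w.asIdeal) = Ideal.absNorm w.asIdeal := rfl
    have hfin : Finite (𝓞 N ⧸ w.asIdeal) := Ideal.finiteQuotientOfFreeOfNeBot _ w.ne_bot
    have e : Fin (Ideal.absNorm w.asIdeal) ≃ (𝓞 N ⧸ w.asIdeal) := by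
      rw [← hcard]
      exact (Finite.equivFin _).symm
    have hmk : ∀ y : 𝓞 N ⧸ w.asIdeal, Ideal.Quotient.mk w.asIdeal (Quotient.out y) = y := fun y =>
      Quotient.out_eq y
    refine ⟨fun i => (((Quotient.out (e i) : 𝓞 N) : N) : AlgebraicClosure F), fun i => ⟨?_, H13S.vw_int N V _⟩, ?_, ?_⟩
    · exact ((Quotient.out (e i) : 𝓞 N) : N).2
    · intro i i' hii
      have e1 : (((Quotient.out (e i) : 𝓞 N) : N) : AlgebraicClosure F) - (((Quotient.out (e i') : 𝓞 N) : N) : AlgebraicClosure F) =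
          (((Quotient.out (e i) - Quotient.out (e i') : 𝓞 N) : N) : AlgebraicClosure F) := by simp
      show V.valuation ((((Quotient.out (e i) : 𝓞 N) : N) : AlgebraicClosure F) - (((Quotient.out (e i') : 𝓞 N) : N) : AlgebraicClosure F)) = 1
      rw [e1]
      refine le_antisymm (H13S.vw_int N V _) (not_lt.1 fun h' => hii ?_)
      have h2 := (w.valuation_lt_one_iff_mem _).1 ((hw.lt _).1 h')
      rw [← Ideal.Quotient.eq_zero_iff_mem, map_sub, hmk, hmk, sub_eq_zero] at h2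
      exact e.injective h2
    · intro x hx hxV
      obtain ⟨y, hy⟩ := yn2_approx N V w hw ⟨x, hx⟩ hxV
      refine ⟨e.symm (Ideal.Quotient.mk w.asIdeal y), ?_⟩
      have h3 : y - Quotient.out (Ideal.Quotient.mk w.asIdeal y) ∈ w.asIdeal := by
        rw [← Ideal.Quotient.eq_zero_iff_mem, map_sub, hmk, sub_self]
      have h4 := (hw.lt _).2 ((w.valuation_lt_one_iff_mem _).2 h3)
      show V.valuation (x - (((Quotient.out (e (e.symm (Ideal.Quotient.mk w.asIdeal y))) : 𝓞 N) : N) : AlgebraicClosure F)) < 1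
      rw [e.apply_symm_apply]
      have e2 : x - (((Quotient.out (Ideal.Quotient.mk w.asIdeal y) : 𝓞 N) : N) : AlgebraicClosure F) =
          (x - ((y : N) : AlgebraicClosure F)) + (((y - Quotient.out (Ideal.Quotient.mk w.asIdeal y) : 𝓞 N) : N) : AlgebraicClosure F) := by
        have h5 : (((y - Quotient.out (Ideal.Quotient.mk w.asIdeal y) : 𝓞 N) : N) : AlgebraicClosure F) =
          ((y : N) : AlgebraicClosure F) - (((Quotient.out (Ideal.Quotient.mk w.asIdeal y) : 𝓞 N) : N) : AlgebraicClosure F) := by simp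
        rw [h5]
        ring
      rw [e2]
      exact V.valuation.map_add_lt hy h4

open Classical in
/-- Number fields N in which l is unramified satisfy Nb. -/
theorem nb_ofR (hl : l.Prime) (hlF : UnrP l F) {N : IntermediateField F (AlgebraicClosure F)} [NumberField N]
    (hU : UnrP l N) : Nb l N := by
  obtain ⟨L₀, hLn, hLf, hNL, hn, hUL⟩ := unr_closF hl hlF hU
  refine ⟨H55P.finDim_of_le hNL, ?_, ?_⟩
  · intro V h s hs
    have hVne : ∃ x : L₀, (x : AlgebraicClosure F) ∉ V := by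
      have hl0 : (l : AlgebraicClosure F) ≠ 0 := Nat.cast_ne_zero.2 hl.ne_zero
      refine ⟨(l : L₀)⁻¹, fun hmem => ?_⟩
      have h1 : V.valuation ((((l : L₀))⁻¹ : L₀) : AlgebraicClosure F) ≤ 1 := (V.valuation_le_one_iff _).2 hmem
      have h2 : ((((l : L₀))⁻¹ : L₀) : AlgebraicClosure F) = (l : AlgebraicClosure F)⁻¹ := by push_cast; rfl
      rw [h2] at h1
      have h3 : V.valuation ((l : AlgebraicClosure F) * (l : AlgebraicClosure F)⁻¹) < 1 := by
        rw [map_mul]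
        exact mul_lt_one_of_lt_of_le h h1
      rw [mul_inv_cancel₀ hl0, map_one] at h3
      exact lt_irrefl _ h3
    refine IntermediateField.fixingSubgroup_le hNL (H13X.inert_triv hn hVne ?_ hs)
    intro v₀ hv₀ hr
    obtain ⟨W, hW, hle⟩ := hr
    have hlv : (l : 𝓞 F) ∈ v₀.asIdeal := by
      rw [hv₀]
      simpa using h
    have h1 : (l : 𝓞 L₀) ∈ W ^ 2 := by
      have := hle (Ideal.mem_map_of_mem (algebraMap (𝓞 F) (𝓞 L₀)) hlv)
      rwa [map_natCast] at this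
    have h2 : W ^ 2 ∣ Ideal.span {(l : 𝓞 L₀)} := by
      rw [Ideal.dvd_iff_le, Ideal.span_singleton_le_iff_mem]
      exact h1
    have h3 : IsUnit W := hUL W (by rwa [← sq])
    exact hW.ne_top (Ideal.isUnit_iff.1 h3)
  · intro V β hβ h1 h2
    exact g1_res hl V β hβ h1 h2

end H13R
end

-- from Lib.H13R.J3
section

/-! # H13R: Selmer groups over K and over the field generated by F over K -/

open NumberField IsDedekindDomain WeierstrassCurve

namespace H13R

open H55P (IQ embF eF LF Per IsHecke Pt ac Inert Dec Nm UnitP UnrP)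
open H35P (WAB Ker tt GoodW IntW)
open H55K.MG (VC Crd)
open H55K H55K.TQ

variable {F : Type} [Field F] [NumberField F] [IQ F] {W : WeierstrassCurve ℤ} {Om : ℂ}
    {m : Ideal (𝓞 F)} {ψ : Ideal (𝓞 F) →*₀ 𝓞 F} {p : ℕ}

open Classical in
/-- Descent from KG to K. -/
theorem sel_absR (hH : BaseH F (W⁄(𝓞 F)) Om m ψ) (hp : PrimeH F (W⁄(𝓞 F)) p)
    (K : Type) [Field K] [NumberField K] (ι : K →ₐ[ℚ] AlgebraicClosure F) [FiniteDimensional F (KG F K ι)]
    (hT : ∀ T : Pt ((W⁄(𝓞 F))⁄F) (AlgebraicClosure F), p • T = 0 →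
      (∀ s ∈ (KG F K ι).fixingSubgroup, ac ((W⁄(𝓞 F))⁄F) s T = T) → T = 0)
    (hS : H55P.SelG p (W⁄(𝓞 F)) (KG F K ι)) :
    H55P.SelTriv (W⁄K) p ∧ H55P.ShaTriv (W⁄K) p ∧
      Finite (W⁄K).toAffine.Point ∧ ¬ p ∣ Nat.card (W⁄K).toAffine.Point := by
  classical
  have hQF := tower_QFF F
  have hQA := alg_QFF F
  have hd : W.Δ ≠ 0 := by
    intro h
    apply hH.data.ell
    have e := WeierstrassCurve.map_Δ W (algebraMap ℤ (𝓞 F))
    rw [h, map_zero] at e
    exact e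
  have hell : (W⁄ℚ).IsElliptic := by
    rw [WeierstrassCurve.isElliptic_iff]
    have e := WeierstrassCurve.map_Δ W (algebraMap ℤ ℚ)
    refine IsUnit.mk0 _ ?_
    intro h
    apply hd
    have h1 : (algebraMap ℤ ℚ) W.Δ = 0 := e.symm.trans h
    rw [eq_intCast] at h1
    exact_mod_cast h1
  have e1 : ((W⁄ℚ)⁄F) = ((W⁄(𝓞 F))⁄F) := by
    rw [fb9b_map, fb9b_map]
  have hS0 : H55P.SelZero ((W⁄ℚ)⁄F) p (KG F K ι) := by
    rw [e1]
    exact hS
  have hS1 : H55P.SelZero (W⁄ℚ) p ((KG F K ι).restrictScalars ℚ) :=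
    H55P.sel_base (F := F) (W⁄ℚ) p (KG F K ι) hS0
  have hT0 : ∀ T : Pt ((W⁄ℚ)⁄F) (AlgebraicClosure F), p • T = 0 →
      (∀ s ∈ (KG F K ι).fixingSubgroup, ac ((W⁄ℚ)⁄F) s T = T) → T = 0 := by
    rw [e1]
    exact hT
  have hT1 : ∀ T : Pt (W⁄ℚ) (AlgebraicClosure F), p • T = 0 →
      (∀ s ∈ ((KG F K ι).restrictScalars ℚ).fixingSubgroup, ac (W⁄ℚ) s T = T) → T = 0 :=
    H55P.tors_base (F := F) (W⁄ℚ) p (KG F K ι) hT0
  have hKQ : FiniteDimensional ℚ ((KG F K ι).restrictScalars ℚ) := by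
    have : FiniteDimensional ℚ (KG F K ι) := Module.Finite.trans F (KG F K ι)
    exact this
  have hS2 : H55P.SelZero (W⁄ℚ) p ι.fieldRange :=
    H55P.sel_down (W⁄ℚ) p ι.fieldRange ((KG F K ι).restrictScalars ℚ) (kg_le F K ι) (kg_norm F K ι) hT1 hS1
  have hfr : FiniteDimensional ℚ ι.fieldRange :=
    Module.Finite.equiv (AlgEquiv.ofInjectiveField ι).toLinearEquiv
  have hpt := fb9b_pts (W⁄ℚ) K ι p (H55P.pts_fin (W⁄ℚ) p hp.prime ι.fieldRange hS2)
  have hsel := H55P.sel_transport (W⁄ℚ) p K ι hS2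
  have hsha := H55P.sha_transport (W⁄ℚ) p K ι (H55P.sha_zero (W⁄ℚ) p hp.prime _ hS2)
  have e2 : ((W⁄ℚ)⁄K) = (W⁄K) := fb9b_map W
  change Finite ((W⁄ℚ)⁄K).toAffine.Point ∧ ¬ p ∣ Nat.card ((W⁄ℚ)⁄K).toAffine.Point at hpt
  rw [e2] at hpt hsel hsha
  exact ⟨hsel, hsha, hpt.1, hpt.2⟩

open Classical in
/-- Ascent from K to KG. -/
theorem selG_of_triv (hH : BaseH F (W⁄(𝓞 F)) Om m ψ) {p : ℕ} (hp : p.Prime) (hp2 : p ≠ 2) (hU : UnrP p F)
    (K : Type) [Field K] [NumberField K] (ι : K →ₐ[ℚ] AlgebraicClosure F) [NumberField (KG F K ι)]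
    (h : H55P.SelTriv (W⁄K) p) : H55P.SelG p (W⁄(𝓞 F)) (KG F K ι) := by
  set Ω := AlgebraicClosure F with hΩ
  have hcl : IsAlgClosure ℚ Ω := ⟨inferInstance, Algebra.IsAlgebraic.trans ℚ F Ω⟩
  have hal : Algebra.IsAlgebraic ℚ Ω := IsAlgClosure.isAlgebraic
  have hfd : FiniteDimensional F (KG F K ι) := FiniteDimensional.right ℚ F (KG F K ι)
  have hfq : FiniteDimensional ℚ ((KG F K ι).restrictScalars ℚ) := by
    have : FiniteDimensional ℚ (KG F K ι) := inferInstance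
    exact this
  have hWF : (W⁄ℚ)⁄F = (W⁄(𝓞 F))⁄F := by
    ext <;> simp [WeierstrassCurve.map, WeierstrassCurve.baseChange]
  have hWK : (W⁄ℚ)⁄K = W⁄K := by
    ext <;> simp [WeierstrassCurve.map, WeierstrassCurve.baseChange]
  obtain ⟨δ, hδ, hNδ⟩ := nk2_delta hp hp2 hU
  obtain ⟨S, hS, hS1, hS2⟩ := exists_sd hH δ hδ
  have hδ0 : δ ≠ 0 := by
    rintro rfl
    apply hNδ
    have e : Nm (0 : 𝓞 F) = 0 := H55P.Nm_eq_zero.2 rfl
    rw [e]
    exact dvd_zero p
  have hak : ak Ω δ ≠ 0 := by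
    intro h0
    apply hδ0
    have e1 : algebraMap F Ω (δ : F) = algebraMap F Ω 0 := by rw [map_zero]; exact h0
    have e2 := (algebraMap F Ω).injective e1
    exact_mod_cast e2
  have hneg : ak Ω (cj δ) = -ak Ω δ := by
    rw [hδ]
    show algebraMap F Ω (algebraMap (𝓞 F) F (-δ)) = _
    rw [map_neg, map_neg]
  have hne : -ak Ω δ ≠ ak Ω δ := by
    intro h0
    have h2 : (2 : Ω) * ak Ω δ = 0 := by linear_combination -h0
    rcases mul_eq_zero.1 h2 with h3 | h3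
    · exact two_ne_zero h3
    · exact hak h3
  have hd1 : ∀ s : Ω ≃ₐ[ℚ] Ω, s (ak Ω δ) = ak Ω δ → ∀ x : F, s (algebraMap F Ω x) = algebraMap F Ω x := by
    intro s hs
    rcases nk2_dich (F := F) s with h2 | h2
    · exact h2
    · exfalso
      rw [h2, hneg] at hs
      exact hne hs
  have hd2 : ∀ s : Ω ≃ₐ[ℚ] Ω, s (ak Ω δ) ≠ ak Ω δ → ∀ a : 𝓞 F, s (ak Ω a) = ak Ω (cj a) := by
    intro s hs
    rcases nk2_dich (F := F) s with h2 | h2
    · exact absurd (h2 _) hs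
    · exact h2
  have hfixK : ∀ s : Ω ≃ₐ[ℚ] Ω, s ∈ ι.fieldRange.fixingSubgroup → ∀ x : K, s (ι x) = ι x := fun s hs x =>
    (IntermediateField.mem_fixingSubgroup_iff _ s).1 hs (ι x) ⟨x, rfl⟩
  have h' : H55P.SelTriv ((W⁄ℚ)⁄K) p := by
    rw [hWK]
    exact h
  have hz : H55P.SelZero (W⁄ℚ) p ι.fieldRange := zero_transport (W⁄ℚ) p K ι h'
  have hz1 : H55P.SelZero (W⁄ℚ) p ((KG F K ι).restrictScalars ℚ) := by
    refine nk_descI (W⁄ℚ) hp hp2 (kg_le F K ι) ?_ S (Nm δ) hNδ hS (ak Ω δ) (-ak Ω δ) ?_ ?_ ?_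
      (fun s hs => hS1 s (hd1 s hs)) (fun s hs => hS2 s (hd2 s hs)) hz
    · intro s hs x hx
      exact kg_stable F K ι s (hfixK s hs) x hx
    · intro s hs
      constructor
      · intro hs'
        exact (IntermediateField.mem_fixingSubgroup_iff _ s).1 hs' _ ((KG F K ι).algebraMap_mem (δ : F))
      · intro hs'
        rw [IntermediateField.mem_fixingSubgroup_iff]
        intro y hy
        have hF := hd1 s hs'
        refine IntermediateField.adjoin_induction F (p := fun x _ => s x = x) ?_ ?_ ?_ ?_ ?_ hy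
        · rintro _ ⟨x, rfl⟩
          exact hfixK s hs x
        · exact hF
        · intro x y _ _ h1 h2
          rw [map_add, h1, h2]
        · intro x _ h1
          rw [map_inv₀, h1]
        · intro x y _ _ h1 h2
          rw [map_mul, h1, h2]
    · intro s
      by_cases hs : s (ak Ω δ) = ak Ω δ
      · exact Or.inl hs
      · right
        rw [hd2 s hs, hneg]
    · intro s hs
      rw [map_neg, hs, neg_neg]
  have hz2 : H55P.SelZero ((W⁄ℚ)⁄F) p (KG F K ι) := zero_base (F := F) (W⁄ℚ) p (KG F K ι) hz1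
  rw [hWF] at hz2
  exact hz2

end H13R
end

-- from Lib.H28T.W16_T
section

open NumberField IsDedekindDomain

namespace H28T

open H28R
open H55P H55R

variable {F : Type} [Field F] [NumberField F] {G : HeightOneSpectrum (𝓞 F) → Prop}

/-! W16: every finite p-group embeds in the group of such an extension (assembly). -/

theorem pb_base (G : HeightOneSpectrum (𝓞 F) → Prop) (p B : ℕ) : PB G p F B :=
  ⟨⟨inferInstance, ⟨0, by rw [Module.finrank_self, pow_zero]⟩, fun w v _ _ => ge_unr_base w⟩,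
    fun w hw => absurd (ge_unr_base w) hw⟩


theorem exists_embedP {p : ℕ} (hp : p.Prime) (h5 : 5 ≤ p) (hGp : ∀ v : HeightOneSpectrum (𝓞 F), G v → (p : 𝓞 F) ∉ v.asIdeal)
    (hN : NiceH G p) (k : ℕ) :
    ∀ (H : Type) [Group H] [Finite H], Nat.card H = p ^ k → ∀ B : ℕ, EmbP G p H B := by
  induction k with
  | zero =>
    intro H _ _ hH B
    rw [pow_zero] at hH
    have : Subsingleton H := (Nat.card_eq_one_iff_unique.1 hH).1
    exact ⟨F, inferInstance, inferInstance, Algebra.id F, pb_base G p B,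
      ⟨1, Function.injective_of_subsingleton _⟩⟩
  | succ k ih =>
    intro H _ _ hH B
    obtain ⟨Z, hZ, hZ2, hQ⟩ := centreP hp H k hH
    obtain ⟨K, _, _, _, hK, ⟨φ, hφ⟩⟩ := ih (H ⧸ Z) hQ B
    obtain ⟨K', _, _, _, _, _, hK', ⟨e⟩⟩ := exists_wreath hp h5 hGp hN K B hK
    have : Finite (K ≃ₐ[F] K) := inferInstance
    have hker : (φ.comp (QuotientGroup.mk' Z)).ker = Z := by
      ext x
      rw [MonoidHom.mem_ker, MonoidHom.comp_apply, ← map_one φ, hφ.eq_iff]
      exact QuotientGroup.eq_one_iff x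
    obtain ⟨ψ, hψ⟩ := kkP hp H (K ≃ₐ[F] K) (φ.comp (QuotientGroup.mk' Z)) (by rw [hker]; exact hZ2)
    exact ⟨K', inferInstance, inferInstance, inferInstance, hK',
      ⟨e.symm.toMonoidHom.comp ψ, e.symm.injective.comp hψ⟩⟩

end H28T
end

-- from Lib.H28T.AR5
section

open NumberField IsDedekindDomain

namespace H28T

open H28R (SubQ)
open H55P H55R
open H55K

variable {F : Type} [Field F] [NumberField F] [IQ F] {G : HeightOneSpectrum (𝓞 F) → Prop}

theorem ar5_real {p : ℕ} (hp : p.Prime) (h5 : 5 ≤ p)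
    (hcj : ∀ v v' : HeightOneSpectrum (𝓞 F), (∀ x : 𝓞 F, cj x ∈ v'.asIdeal ↔ x ∈ v.asIdeal) → G v → G v')
    (hGp : ∀ v : HeightOneSpectrum (𝓞 F), G v → (p : 𝓞 F) ∉ v.asIdeal)
    (hN : NiceH G p) (H : Type) [Group H] [Finite H] (k : ℕ)
    (hH : Nat.card H = p ^ k) : RealFieldG G p H := by
  obtain ⟨L, i1, i2, i3, hL, ⟨ψ, hψ⟩⟩ := exists_embedP hp h5 hGp hN k H hH 0
  obtain ⟨N, j1, j2, j3, j4, j5, hGQ, hN'⟩ := ar3_gal hp hcj L hL.1
  obtain ⟨K₀, k1, k2, k3, hr, hQ⟩ := ar4_real (F := F) N hGQ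
  have hGL := hL.1.1
  have hGF := hN'.1
  refine ⟨K₀, k1, k2, hr, N, j1, j2, j3, k3, hQ, hGQ, hN', ?_⟩
  let res : (N ≃ₐ[F] N) →* (L ≃ₐ[F] L) := AlgEquiv.restrictNormalHom L
  have hres : Function.Surjective res := AlgEquiv.restrictNormalHom_surjective N
  let e : H ≃* ψ.range := MonoidHom.ofInjective hψ
  refine ⟨ψ.range.comap res, (e.symm : ψ.range →* H).comp (res.subgroupComap ψ.range), ?_⟩
  intro h
  obtain ⟨g, hg⟩ := hres (e h)
  refine ⟨⟨g, ?_⟩, ?_⟩
  · rw [Subgroup.mem_comap, hg]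
    exact (e h).2
  · have h1 : res.subgroupComap ψ.range ⟨g, by rw [Subgroup.mem_comap, hg]; exact (e h).2⟩ = e h :=
      Subtype.ext hg
    show e.symm _ = h
    rw [h1]
    exact e.symm_apply_apply h

end H28T
end

-- from Lib.H55Z.S2
section

/-! # H55Z: the prime p splits completely in the fields of the wreath step -/

open NumberField IsDedekindDomain

namespace H55Z

open H28R H55P H55R H28T

/-- The prime number p is unramified, of relative residue degree one, in K/F. -/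
def Spl (F : Type) [Field F] [NumberField F] (p : ℕ) (K : Type) [Field K] [NumberField K] [Algebra F K] : Prop :=
  ∀ w : HeightOneSpectrum (𝓞 K), (p : 𝓞 K) ∈ w.asIdeal →
    w.asIdeal.ramificationIdx (𝓞 F) = 1 ∧ w.asIdeal.inertiaDeg (𝓞 F) = 1

/-- Inertia degrees in towers. -/
theorem s2_tower {F₀ K L : Type} [Field F₀] [NumberField F₀] [Field K] [NumberField K] [Field L]
    [NumberField L] [Algebra F₀ K] [Algebra K L] [Algebra F₀ L] [IsScalarTower F₀ K L] (W : Pl L)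
    (w : Pl K) (h : W.under (𝓞 K) = w) :
    W.asIdeal.inertiaDeg (𝓞 F₀) = w.asIdeal.inertiaDeg (𝓞 F₀) * W.asIdeal.inertiaDeg (𝓞 K) := by
  have hl : W.asIdeal.LiesOver w.asIdeal := ⟨by rw [← h]; rfl⟩
  exact Ideal.inertiaDeg_tower w.asIdeal W.asIdeal

theorem s2_dvd {K L : Type} [Field K] [NumberField K] [Field L] [NumberField L] [Algebra K L]
    [IsGalois K L] (W : Pl L) : W.asIdeal.inertiaDeg (𝓞 K) ∣ Module.finrank K L := by
  have h1 := (HC6_dvd (L := L) (W.under (𝓞 K))).2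
  have hp := (W.under (𝓞 K)).isPrime
  have hW := W.isPrime
  have hl : W.asIdeal.LiesOver (W.under (𝓞 K)).asIdeal := ⟨rfl⟩
  have h2 := Ideal.inertiaDegIn_eq_inertiaDeg (W.under (𝓞 K)).asIdeal W.asIdeal Gal(L/K)
  rw [← h2]
  exact h1

/-- A prime with trivial stabiliser. -/
theorem s2_stab {C N : Type} [Field C] [NumberField C] [Field N] [NumberField N] [Algebra C N] [IsGalois C N]
    (W : Pl N) (h : ∀ σ : Gal(N/C), smulP σ W = W → σ = 1) :
    W.asIdeal.ramificationIdx (𝓞 C) = 1 ∧ W.asIdeal.inertiaDeg (𝓞 C) = 1 := by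
  have h1 := card_stab W (W.under (𝓞 C)) rfl
  have h2 : Nat.card {σ : Gal(N/C) // smulP σ W = W} = 1 := by
    rw [Nat.card_eq_one_iff_unique]
    exact ⟨⟨fun a b => Subtype.ext ((h a.1 a.2).trans (h b.1 b.2).symm)⟩, ⟨⟨1, smulP_one W⟩⟩⟩
  rw [h2] at h1
  have h3 := Nat.eq_one_of_mul_eq_one_right h1.symm
  have h4 := Nat.eq_one_of_mul_eq_one_left h1.symm
  have hp := (W.under (𝓞 C)).isPrime
  have hW := W.isPrime
  have hl : W.asIdeal.LiesOver (W.under (𝓞 C)).asIdeal := ⟨rfl⟩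
  have h5 := Ideal.inertiaDegIn_eq_inertiaDeg (W.under (𝓞 C)).asIdeal W.asIdeal Gal(N/C)
  have h6 := Ideal.ramificationIdxIn_eq_ramificationIdx (W.under (𝓞 C)).asIdeal W.asIdeal Gal(N/C)
  exact ⟨h6.symm.trans h3, h5.symm.trans h4⟩

theorem s2_one {m a n p : ℕ} (hm : m.Coprime p) (h1 : a ∣ m) (h2 : a ∣ p ^ n) : a = 1 :=
  Nat.eq_one_of_dvd_coprimes (Nat.Coprime.pow_right n hm) h1 h2

variable {F : Type} [Field F] [NumberField F] {G : HeightOneSpectrum (𝓞 F) → Prop}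

theorem spl_K' {p : ℕ} (hp : p.Prime) (h5 : 5 ≤ p) {K C N K' : Type} [Field K] [NumberField K]
    [Field C] [NumberField C] [Field N] [NumberField N] [Field K'] [NumberField K'] [Algebra F K]
    [Algebra F C] [Algebra F N] [Algebra F K'] [Algebra K C] [Algebra K N] [Algebra K K']
    [Algebra C N] [Algebra K' N] [IsScalarTower F K C] [IsScalarTower F C N] [IsScalarTower K C N]
    [IsScalarTower F K N] [IsScalarTower F K K'] [IsScalarTower F K' N] [IsScalarTower K K' N]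
    {ζ : C} (hC : Cyc F p K C ζ) {B : ℕ} (hS : Spl F p K) {γ : Cˣ} {w w' : Pl C}
    (hγ : Gam G p K C ζ B γ w w') {r : FixZ F ζ → N} (hr : WrP p F C N ζ γ r) (hG : IsGalois F K')
    (hk : ∃ n : ℕ, Module.finrank F K' = p ^ n) : Spl F p K' := by
  have hGN := hr.gal
  have hGC := hC.gal
  have hGCN : IsGalois C N := IsGalois.tower_top_of_isGalois F C N
  have hGKC : IsGalois K C := IsGalois.tower_top_of_isGalois F K C
  intro W' hW'
  obtain ⟨W, hW⟩ := under_exists (L := N) W'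
  have hWm : W'.asIdeal = W.asIdeal.comap (algebraMap (𝓞 K') (𝓞 N)) := by
    rw [← hW]
    rfl
  have hpW : (p : 𝓞 N) ∈ W.asIdeal := by
    have h1 : (p : 𝓞 K') ∈ W.asIdeal.comap (algebraMap (𝓞 K') (𝓞 N)) := hWm ▸ hW'
    rw [Ideal.mem_comap, map_natCast] at h1
    exact h1
  have hdec : ∀ σ : Gal(N/C), smulP σ W = W → σ = 1 := by
    refine fun σ hσ => dec_one hp (by omega) hC.prim (Set.range r) hr.gen W hpW ?_ σ hσ
    rintro _ ⟨g, rfl⟩
    refine ⟨Units.map (((g : C ≃ₐ[F] C) : C ≃ₐ[F] C) : C →* C) γ, hr.pow g, ?_⟩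
    obtain ⟨a, ha, hd⟩ := hγ.pp
    refine ⟨(g : C ≃ₐ[F] C) • a, ?_, ?_⟩
    · show (g : C ≃ₐ[F] C) (a : C) = (g : C ≃ₐ[F] C) (γ : C)
      rw [ha]
    · obtain ⟨b, hb⟩ := hd
      refine ⟨(g : C ≃ₐ[F] C) • b, ?_⟩
      have h3 : (g : C ≃ₐ[F] C) • (a - 1) = (g : C ≃ₐ[F] C) • ((p : 𝓞 C) ^ 2 * b) := by rw [hb]
      rw [smul_sub, smul_one, smul_mul', smul_pow'] at h3
      rw [h3]
      congr 2
      apply RingOfIntegers.ext
      have h4 : (((p : 𝓞 C)) : C) = (p : C) := map_natCast (algebraMap (𝓞 C) C) p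
      show (g : C ≃ₐ[F] C) ((p : 𝓞 C) : C) = ((p : 𝓞 C) : C)
      rw [h4, map_natCast]
  obtain ⟨e1, f1⟩ := s2_stab W hdec
  have hQ : (W.under (𝓞 C)).under (𝓞 K) = W'.under (𝓞 K) := by
    apply HeightOneSpectrum.ext
    show (W.asIdeal.under (𝓞 C)).under (𝓞 K) = W'.asIdeal.under (𝓞 K)
    rw [Ideal.under_under, ← hW]
    exact (Ideal.under_under W.asIdeal).symm
  have hpQ : (p : 𝓞 K) ∈ (W'.under (𝓞 K)).asIdeal := by
    show algebraMap (𝓞 K) (𝓞 K') (p : 𝓞 K) ∈ W'.asIdeal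
    rw [map_natCast]
    exact hW'
  obtain ⟨e3, f3⟩ := hS (W'.under (𝓞 K)) hpQ
  have hcop : (p - 1).Coprime p := by
    have := (Nat.coprime_self_add_right (m := p - 1) (n := 1)).2 (Nat.coprime_one_right _)
    rwa [Nat.sub_add_cancel hp.one_le] at this
  obtain ⟨n, hn⟩ := hk
  constructor
  · refine ram_one (F₀ := F) hp ⟨n, hn⟩ hcop W' W hW ?_
    rw [W13_tower (F₀ := F) W (W.under (𝓞 C)) rfl, e1, mul_one,
      W13_tower (F₀ := F) (W.under (𝓞 C)) (W'.under (𝓞 K)) hQ, e3, one_mul]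
    exact (W13_dvd (K := K) (W.under (𝓞 C))).trans hC.deg
  · refine s2_one hcop (n := n) ?_ (hn ▸ s2_dvd (K := F) W')
    have h1 : W'.asIdeal.inertiaDeg (𝓞 F) ∣ W.asIdeal.inertiaDeg (𝓞 F) :=
      Dvd.intro _ (s2_tower (F₀ := F) W W' hW).symm
    refine h1.trans ?_
    rw [s2_tower (F₀ := F) W (W.under (𝓞 C)) rfl, f1, mul_one,
      s2_tower (F₀ := F) (W.under (𝓞 C)) (W'.under (𝓞 K)) hQ, f3, one_mul]
    exact (s2_dvd (K := K) (W.under (𝓞 C))).trans hC.deg

/-- K' contains K, is of the same kind, and its group is the regular wreath product of the cyclic group of order p with the group of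
K/F. -/
def WrOverS (G : HeightOneSpectrum (𝓞 F) → Prop) (p : ℕ) (K : Type) [Field K] [NumberField K] [Algebra F K] (B : ℕ) : Prop :=
  ∃ (K' : Type) (_ : Field K') (_ : NumberField K') (_ : Algebra F K') (_ : Algebra K K')
    (_ : IsScalarTower F K K'), PB G p K' B ∧ Spl F p K' ∧ Nonempty ((K' ≃ₐ[F] K') ≃* CP p ≀ᵣ (K ≃ₐ[F] K))

theorem exists_wreathS {p : ℕ} (hp : p.Prime) (h5 : 5 ≤ p) (hGp : ∀ v : HeightOneSpectrum (𝓞 F), G v → (p : 𝓞 F) ∉ v.asIdeal)
    (hN : NiceH G p) (K : Type) [Field K] [NumberField K]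
    [Algebra F K] (B : ℕ) (h : PB G p K B) (hS : Spl F p K) : WrOverS G p K B := by
  classical
  obtain ⟨C, _, _, _, _, _, ζ, hC⟩ := exists_cyc (F := F) p hp h5 K h.1.1 h.1.2.1
  obtain ⟨α, w, w', hα⟩ := exists_alp hp C B hGp (fun S hS => hN K C ζ h.1 hC B S hS)
  obtain ⟨γ, hγ⟩ := exists_gam hp hC hα
  obtain ⟨N, _, _, _, _, _, _, _, _, r, hr, hcen⟩ := H28T.exists_N hp hC γ hγ.eig
  have : Finite (FixZ F ζ) := inferInstance
  let _ : Fintype (FixZ F ζ) := Fintype.ofFinite _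
  have hGN : IsGalois F N := hr.gal
  obtain ⟨D, hD, hDK, ⟨e⟩⟩ := group_D hp h5 hC γ.ne_zero hr (fun a ha => not_pow hp hC hγ a ha) hcen
  obtain ⟨K', _, _, _, _, _, _, _, _, hG', ⟨e'⟩⟩ := exists_fix F K N D hD hDK
  have hcard : ∃ n : ℕ, Module.finrank F K' = p ^ n := by
    obtain ⟨k, hk⟩ := h.1.2.1
    have := h.1.1
    rw [← IsGalois.card_aut_eq_finrank, Nat.card_congr (e'.trans e).toEquiv,
      RegularWreathProduct.card, IsGalois.card_aut_eq_finrank, hk]
    refine ⟨p ^ k + k, ?_⟩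
    have h1 : Nat.card (CP p) = p := by
      rw [Nat.card_eq_of_bijective Multiplicative.toAdd Multiplicative.toAdd.bijective, Nat.card_zmod]
    rw [h1, pow_add]
  exact ⟨K', inferInstance, inferInstance, inferInstance, inferInstance, inferInstance,
    ram_PB hp h5 hC h hγ hr hG' hcard, spl_K' hp h5 hC hS hγ hr hG' hcard, ⟨e'.trans e⟩⟩

/-- H embeds in the group of an extension of the class in which p splits completely, ramified only at primes of norm greater than B. -/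
def EmbS (G : HeightOneSpectrum (𝓞 F) → Prop) (p : ℕ) (H : Type) [Group H] (B : ℕ) : Prop :=
  ∃ (K : Type) (_ : Field K) (_ : NumberField K) (_ : Algebra F K), PB G p K B ∧ Spl F p K ∧
    ∃ φ : H →* (K ≃ₐ[F] K), Function.Injective φ

theorem spl_base (p : ℕ) : Spl F p F := by
  intro w _
  have hp := w.isPrime
  refine ⟨ge_unr_base w, ?_⟩
  exact s2_one (m := 1) (p := 1) (n := 1) (Nat.coprime_one_right 1) (by
    have h1 := s2_dvd (K := F) w
    rwa [Module.finrank_self] at h1) (by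
    have h1 := s2_dvd (K := F) w
    rwa [Module.finrank_self] at h1)

theorem exists_embedS {p : ℕ} (hp : p.Prime) (h5 : 5 ≤ p) (hGp : ∀ v : HeightOneSpectrum (𝓞 F), G v → (p : 𝓞 F) ∉ v.asIdeal)
    (hN : NiceH G p) (k : ℕ) :
    ∀ (H : Type) [Group H] [Finite H], Nat.card H = p ^ k → ∀ B : ℕ, EmbS G p H B := by
  induction k with
  | zero =>
    intro H _ _ hH B
    rw [pow_zero] at hH
    have : Subsingleton H := (Nat.card_eq_one_iff_unique.1 hH).1
    exact ⟨F, inferInstance, inferInstance, Algebra.id F, pb_base G p B, spl_base p,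
      ⟨1, Function.injective_of_subsingleton _⟩⟩
  | succ k ih =>
    intro H _ _ hH B
    obtain ⟨Z, hZ, hZ2, hQ⟩ := centreP hp H k hH
    obtain ⟨K, _, _, _, hK, hS, ⟨φ, hφ⟩⟩ := ih (H ⧸ Z) hQ B
    obtain ⟨K', _, _, _, _, _, hK', hS', ⟨e⟩⟩ := exists_wreathS hp h5 hGp hN K B hK hS
    have : Finite (K ≃ₐ[F] K) := inferInstance
    have hker : (φ.comp (QuotientGroup.mk' Z)).ker = Z := by
      ext x
      rw [MonoidHom.mem_ker, MonoidHom.comp_apply, ← map_one φ, hφ.eq_iff]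
      exact QuotientGroup.eq_one_iff x
    obtain ⟨ψ, hψ⟩ := kkP hp H (K ≃ₐ[F] K) (φ.comp (QuotientGroup.mk' Z)) (by rw [hker]; exact hZ2)
    exact ⟨K', inferInstance, inferInstance, inferInstance, hK', hS',
      ⟨e.symm.toMonoidHom.comp ψ, e.symm.injective.comp hψ⟩⟩

end H55Z
end
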