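import Mathlib
import Pool.Agent.Lib.H1M.PP2.M099
import Pool.Agent.Lib.H1M.PP2.M109
import Pool.Agent.Lib.H1M.PP2.M128
import Pool.Agent.Lib.H1M.PP2.M129
import Pool.Agent.Lib.H1M.PP2.M141
import Pool.Agent.Lib.H1M.PP2.M151

/-! # H28T: the class of fields is large, for all curves with complex multiplication -/

open NumberField IsDedekindDomain WeierstrassCurve

namespace H28T

open H55P H55R
open H55K H55K.TQ

variable {F : Type} [Field F] [NumberField F] [IQ F] {W₀ : WeierstrassCurve (𝓞 F)} {Om : ℂ}
    {m : Ideal (𝓞 F)} {ψ : Ideal (𝓞 F) →*₀ 𝓞 F} {p : ℕ}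

/-- The class of the Galois extensions K of F of degree a power of p, unramified at p and at the primes v of F which do not divide the
discriminant and at which p divides the number of points, is large; InPF consists of the subfields of the fields of the class. -/
structure Rich (W₀ : WeierstrassCurve (𝓞 F)) (p : ℕ) : Prop where
  /-- InPF consists of the subfields of the fields of the class -/
  cls : ∀ (K : Type) [Field K] [NumberField K], InPF W₀ p K ↔
    ∃ (L : Type) (_ : Field L) (_ : NumberField L) (_ : Algebra F L) (_ : Algebra K L), ExtG (Gx W₀ p) p L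
  /-- subfields of the fields generated by roots of unity of good order -/
  cyc : ∀ (K : Type) [Field K] [NumberField K] [Algebra F K], ExplicitG (Gx W₀ p) K →
    (∃ k : ℕ, Module.finrank F K = p ^ k) → ExtG (Gx W₀ p) p K
  /-- there are many good prime numbers -/
  inf : DirH (Gx W₀ p) p
  /-- every finite abelian p-group is a Galois group, with ramified primes of large norm -/
  abel : ∀ (A : Type) [CommGroup A] [Finite A] (k : ℕ), Nat.card A = p ^ k → ∀ B : ℕ,
    ∃ (K : Type) (_ : Field K) (_ : NumberField K) (_ : Algebra F K), PB (Gx W₀ p) p K B ∧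
      Nonempty ((K ≃ₐ[F] K) ≃* A)
  /-- regular wreath products -/
  wr : ∀ (K : Type) [Field K] [NumberField K] [Algebra F K] (B : ℕ), PB (Gx W₀ p) p K B → WrOver (Gx W₀ p) p K B
  /-- every finite p-group embeds in a Galois group -/
  emb : ∀ (H : Type) [Group H] [Finite H] (k : ℕ), Nat.card H = p ^ k → ∀ B : ℕ, EmbP (Gx W₀ p) p H B
  /-- Galois extensions of the rationals -/
  rat : ∀ (K₀ : Type) [Field K₀] [NumberField K₀], RatG (Gx W₀ p) p K₀ 0 → InPF W₀ p K₀
  /-- every finite abelian p-group is the Galois group of a totally real field of the class -/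
  real : ∀ (A : Type) [CommGroup A] [Finite A] (k : ℕ), Nat.card A = p ^ k → ∀ B : ℕ,
    ∃ (K₀ : Type) (_ : Field K₀) (_ : NumberField K₀), IsTotallyReal K₀ ∧ RatG (Gx W₀ p) p K₀ B ∧
      Nonempty ((K₀ ≃ₐ[ℚ] K₀) ≃* A)

/-- Real fields with arbitrarily complicated Galois groups: K₀ is in the class InPF and has a real place, N is the compositum of K₀ and F (a quadratic
extension of K₀), in the class, and H is a subquotient of its Galois group over F. -/
def RealG (W₀ : WeierstrassCurve (𝓞 F)) (p : ℕ) (H : Type) [Group H] : Prop :=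
  ∃ (K₀ : Type) (_ : Field K₀) (_ : NumberField K₀), 0 < InfinitePlace.nrRealPlaces K₀ ∧ InPF W₀ p K₀ ∧
    ∃ (N : Type) (_ : Field N) (_ : NumberField N) (_ : Algebra F N) (_ : Algebra K₀ N),
      Module.finrank K₀ N = 2 ∧ IsGalois ℚ N ∧ ExtG (Gx W₀ p) p N ∧ H28R.SubQ (N ≃ₐ[F] N) H

end H28T
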