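import Mathlib
import Pool.Agent.Lib.H1M.PP2.D_H16C_Stm
import Pool.Agent.Lib.H1M.PP2.M004
import Pool.Agent.Lib.H1M.PP2.M005
import Pool.Agent.Lib.H1M.PP2.M020
import Pool.Agent.Lib.H1M.PP2.M031
import Pool.Agent.Lib.H1M.PP2.M038
import Pool.Agent.Lib.H1M.PP2.M045
import Pool.Agent.Lib.H1M.PP2.M046
import Pool.Agent.Lib.H1M.PP2.M051

/-! Merged copies (to shorten the build) of Lib.H13Y.GT, Lib.H35Q.Defs, Lib.H35Q.G0, Lib.H35Q.G2, Lib.H35Q.G5, Lib.H35Q.G6, Lib.H35Q.L1, Lib.SSG.Z.C8, Lib.H35Q.S1, Lib.SSG.Z.C7, Lib.SSG.Z.C2, Lib.SSG.Z.C3, Lib.SSG.Z.C4, Lib.SSG.Z.C5, Lib.SSG.Z.C6, Lib.H35Q.L5, Lib.SSG.Z.B5, Lib.SSG.Z.B0, Lib.SSG.Z.B1, Lib.SSG.Z.B2, Lib.SSG.Z.B3, Lib.SSG.Z.B4, Lib.SSG.Z.B6, Lib.SSG.Z.B7. -/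

-- from Lib.H13Y.GT
section

open NumberField IsDedekindDomain

namespace H13Y

open H55P H13S

/-- Chunk YGT (M). N'/N Galois of prime degree l, w ramified in N': totally ramified, and every value of an element of N at a place above w is the l-th power of the value of an element of N'. N' over N: s13_alg, s13_galois (H55P/S13.lean), [N' : N] = l (ramificationIdxIn divides l by e f g = l; Ram gives a prime W of 𝓞 N' above w with index ≥ 2: all primes above w have the same index e ≥ 2 dividing l, so e = l).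
V above w: W' = the prime of N' below V (exists_below: V does not contain N), W' ∩ 𝓞 N = w (Abv). For a in N: W'(a) = w(a)^l (HeightOneSpectrum valuation in extensions: e = l; K5_ord or IsDedekindDomain.HeightOneSpectrum.valuation_comap). w(a) = exp(k): x = u^(-k), u a uniformizer of W': W'(x)^l = W'(a), Abv.le twice. -/
theorem ram_step {F : Type} [Field F] [NumberField F] {Ω : Type} [Field Ω] [DecidableEq Ω] [Algebra F Ω]
    {l : ℕ} (hl : l.Prime) {N N' : IntermediateField F Ω} [NumberField N] [NumberField N']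
    [FiniteDimensional F N'] (hNN : N ≤ N') (hn : ∀ s ∈ N.fixingSubgroup, ∀ x ∈ N', s x ∈ N')
    [IsAlgClosure F Ω] (hd : Module.finrank F N' = Module.finrank F N * l) {w : HeightOneSpectrum (𝓞 N)}
    (hr : Ram N N' w.asIdeal) {V : ValuationSubring Ω} (hV : Abv N V w) {a : Ω} (ha : a ∈ N) (h0 : a ≠ 0) :
    ∃ x ∈ N', V.valuation x ^ l = V.valuation a := by
  have hac : IsAlgClosed Ω := IsAlgClosure.isAlgClosed F
  have halg : Algebra.IsAlgebraic F Ω := IsAlgClosure.isAlgebraic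
  have hch : CharZero Ω := charZero_of_injective_algebraMap (algebraMap F Ω).injective
  let _ : Algebra N N' := s13_alg hNN
  have hgal : IsGalois N N' := s13_galois N N' hNN hn
  have hNf : FiniteDimensional F N := s13_fin hNN
  have hst : IsScalarTower F N N' := IsScalarTower.of_algebraMap_eq fun x => rfl
  have hfr : Module.finrank N N' = l := by
    have h1 := Module.finrank_mul_finrank F N N'
    rw [hd] at h1
    exact Nat.eq_of_mul_eq_mul_left Module.finrank_pos h1
  -- the ramification index is l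
  have hes : H55R.es N N' w = l := by
    have h1 := (H55R.HC6_dvd (L := N') w).1
    rw [hfr] at h1
    rcases (Nat.dvd_prime hl).1 h1 with h2 | h2
    · exfalso
      obtain ⟨W, hWp, hW⟩ := hr
      have hwm := w.isMaximal
      have hwp := w.isPrime
      have hle2 : Ideal.map (algebraMap (𝓞 N) (𝓞 N')) w.asIdeal ≤ W ^ 2 := by
        rw [Ideal.map_le_iff_le_comap]
        intro x hx
        exact hW x _ hx rfl
      have hle1 : Ideal.map (algebraMap (𝓞 N) (𝓞 N')) w.asIdeal ≤ W :=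
        hle2.trans (Ideal.pow_le_self two_ne_zero)
      have hlo : W.LiesOver w.asIdeal := by
        constructor
        have h3 : w.asIdeal ≤ W.under (𝓞 N) := Ideal.map_le_iff_le_comap.1 hle1
        have h4 : (W.under (𝓞 N)).IsPrime := inferInstance
        exact hwm.eq_of_le h4.ne_top h3
      have h5 : w.asIdeal.ramificationIdx' W ≠ 1 := (Ideal.ramificationIdx'_ne_one_iff hle1).2 hle2
      rw [Ideal.ramificationIdx'_eq_ramificationIdx w.asIdeal W w.ne_bot,
        ← Ideal.ramificationIdxIn_eq_ramificationIdx w.asIdeal W Gal(N'/N)] at h5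
      exact h5 h2
    · exact h2
  -- the prime below V
  obtain ⟨W', hW'⟩ : ∃ W' : HeightOneSpectrum (𝓞 N'), Abv N' V W' := by
    apply H13S.exists_below
    obtain ⟨π, hπ⟩ := H55R.HB1_pi w
    refine ⟨algebraMap N N' ((π⁻¹ : (N)ˣ) : N), ?_⟩
    have h1 := hV ((π⁻¹ : (N)ˣ) : N)
    have h2 : ¬ w.valuation N ((π⁻¹ : (N)ˣ) : N) ≤ 1 := by
      rw [H55R.BF1_val, H55R.ord_inv, hπ, neg_neg, not_le, ← WithZero.exp_zero,
        WithZero.exp_lt_exp]
      norm_num
    intro h3
    exact h2 (h1.1 h3)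
  have hund : W'.under (𝓞 N) = w := by
    apply HeightOneSpectrum.ext
    ext z
    show algebraMap (𝓞 N) (𝓞 N') z ∈ W'.asIdeal ↔ z ∈ w.asIdeal
    rw [← W'.valuation_lt_one_iff_mem (K := N'), ← w.valuation_lt_one_iff_mem (K := N)]
    have h1 := hW'.lt ((algebraMap (𝓞 N) (𝓞 N') z : 𝓞 N') : N')
    have h2 := hV.lt ((z : 𝓞 N) : N)
    exact h1.symm.trans h2
  -- the values
  have ha0 : (⟨a, ha⟩ : N) ≠ 0 := by
    intro h
    exact h0 (congrArg Subtype.val h)
  obtain ⟨u, hu⟩ := H55R.HB1_pi W'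
  obtain ⟨k, hk⟩ : ∃ k : ℤ, k = H55R.ord w (Units.mk0 _ ha0) := ⟨_, rfl⟩
  refine ⟨(((u ^ k : (N')ˣ) : N') : Ω), ((u ^ k : (N')ˣ) : N').2, ?_⟩
  have h1 := H55R.ord_map (L := N') W' w hund (Units.mk0 _ ha0)
  rw [hes, ← hk] at h1
  have h2 : W'.valuation N' (((u ^ k : (N')ˣ) : N') ^ l) =
      W'.valuation N' (algebraMap N N' (⟨a, ha⟩ : N)) := by
    have e1 : algebraMap N N' (⟨a, ha⟩ : N) =
        ((Units.map (algebraMap N N' : N →* N') (Units.mk0 _ ha0) : (N')ˣ) : N') := rfl
    rw [e1, H55R.BF1_val, h1, map_pow, H55R.BF1_val, H55R.ord_zpow, hu, mul_one,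
      ← WithZero.exp_nsmul]
    congr 1
    rw [nsmul_eq_mul]
    ring
  have h3 := (hW'.le _ _).2 h2.le
  have h4 := (hW'.le _ _).2 h2.ge
  have h5 := le_antisymm h3 h4
  rw [← map_pow]
  exact h5

end H13Y
end

-- from Lib.H35Q.Defs
section

/-!
# H35Q: the Tate-Shafarevich groups of y^2 = x^3 - d^2 and y^2 = x^3 + 27 d^2 and the 3-isogeny Selmer groups

Definitions. See PROOF.md.
-/

open NumberField IsDedekindDomain

namespace H35Q

open H16C





/-! ## Multiplication by the cube roots of unity -/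

section Geo

variable {F : Type*} [Field F] [DecidableEq F] {V : WeierstrassCurve.Affine F}

/-- φ(x, y) = (ω x, y). -/
structure IsOm (ω : F) (φ : V.Point →+ V.Point) : Prop where
  x : ∀ P, xc (φ P) = ω * xc P
  y : ∀ P, yc (φ P) = yc P
  ne : ∀ P, φ P = 0 → P = 0


variable (V) in
/-- V is y^2 = x^3 + δ^2, ω a primitive cube root of unity, φ(x, y) = (ω x, y), T = (0, δ). -/
structure Geo (ω δ : F) (φ : V.Point →+ V.Point) (T : V.Point) : Prop where
  a4 : V.a₄ = 0
  om : ω ^ 2 + ω + 1 = 0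
  sq : δ ^ 2 = V.a₆
  phi : IsOm ω φ
  ne : T ≠ 0
  xT : xc T = 0
  yT : yc T = δ

end Geo



end H35Q
end

-- from Lib.H35Q.G0
section

/-! Chunk G0 (S): small algebra. val_add: a, b in ZMod 3 with values 0, 1, 2 (fin_cases or decide on the nine cases); (a + b).val is a.val + b.val or a.val + b.val - 3. val_zsmul: both sides
are additive in n; n = 3 k + r: (n : ZMod 3) = r, n • (..) = r • (..) + k • (3 • ..); or ZMod.lift: define f = ZMod.lift 3 (zmultiplesHom A T, with 3 • T = 0) : ZMod 3 →+ A, f a = a.val • T, and f ((n : ZMod 3) * a) = f (n • a) = n • f a.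
val_inj: T nonzero, 3 • T = 0, a.val • T = b.val • T implies a = b: addOrderOf T = 3, or f (a - b) = 0 and check the cases 0, 1, 2 (2 • T = 0 and 3 • T = 0 give T = 0). om_cube: ω^3 - 1 = (ω - 1)(ω^2 + ω + 1).
om_pow_add: ω^3 = 1, nine cases. theta_sq: (2 ω + 1)^2 = 4 (ω^2 + ω + 1) - 3. -/

namespace H35Q










theorem om_ne_one {F : Type*} [Field F] [CharZero F] {ω : F} (h : ω ^ 2 + ω + 1 = 0) : ω ≠ 1 := by
  rintro rfl
  norm_num at h






end H35Q
end

-- from Lib.H35Q.G2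
section

/-! Chunk G2 (M): G : Geo V ω δ φ T.
delta_ne: δ = 0 would give V.a₆ = 0, V.a₄ = 0, Δ = 0, contradiction with IsElliptic (V.isUnit_Δ; Δ_of_isShortNF).
rel: φ (φ P) + φ P + P = 0. P = 0: clear. P = (x, y) with x = 0: φ P = P (pt_ext, ω 0 = 0), so the claim is 3 P = 0: y = ± δ is nonzero, D1_dbl: slope (3 x^2 + a4)/(2 y) = 0, x(2P) = 0, y(2P) = -y, 2 P = -P.
x nonzero: φ P = (ω x, y), ω x <> x, slope 0, D1_xc_add: x(P + φ P) = 0 - x - ω x = ω^2 x; y(P + φ P) = -y (H16C.D1 has yc_add or use Affine.Point.add_of_X_ne, addY; or: the y coordinate squared is known, and the points P, φ P,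
-(P + φ P) are on the line Y = y) so P + φ P = -(φ (φ P)) by pt_ext, xc_neg, yc_neg.
phi_T: φ T = T (pt_ext: xc = ω 0 = 0, yc = δ). three_T: rel for T. pim_apply: definition. pim_pim: algebra from rel: pim (pim P) = P + 4 φ P + 4 φ φ P = P - 4 P = -3 P (expand, use rel P and φ of rel is not needed; abel after
writing φ (φ P) = -P - φ P). pim_T: 3 T = 0.
xzero: P nonzero with xc P = 0: yc P ^ 2 = a₆ = δ^2, so yc P = ± δ, P = T or P = -T (pt_ext). -/

namespace H35Q

open H16C

variable {F : Type*} [Field F] [CharZero F] [DecidableEq F] {V : WeierstrassCurve.Affine F} [V.IsShortNF]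
  [V.IsElliptic] {ω δ : F} {φ : V.Point →+ V.Point} {T : V.Point}


omit [CharZero F] [V.IsElliptic] in
/-- the second coordinate of the sum -/
theorem g2_yc_add {P Q : V.Point} (hP : P ≠ 0) (hQ : Q ≠ 0) (h : xc P ≠ xc Q) :
    yc (P + Q) = -((yc P - yc Q) / (xc P - xc Q) * (xc (P + Q) - xc P) + yc P) := by
  rcases P with _ | ⟨x, y, h1⟩
  · exact absurd rfl hP
  rcases Q with _ | ⟨x', y', h2⟩
  · exact absurd rfl hQ
  change x ≠ x' at h
  rw [WeierstrassCurve.Affine.Point.add_of_X_ne h]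
  change V.addY x x' y (V.slope x x' y y') =
    -((y - y') / (x - x') * (V.addX x x' (V.slope x x' y y') - x) + y)
  rw [WeierstrassCurve.Affine.addY, WeierstrassCurve.Affine.negAddY, D1_negY,
    WeierstrassCurve.Affine.slope_of_X_ne h]

omit [CharZero F] [DecidableEq F] in
theorem g2_a6_ne (h4 : V.a₄ = 0) : V.a₆ ≠ 0 := by
  intro h6
  have h1 : V.Δ ≠ 0 := V.isUnit_Δ.ne_zero
  apply h1
  rw [WeierstrassCurve.Δ_of_isShortNF, h4, h6]
  ring


omit [CharZero F] [V.IsShortNF] [V.IsElliptic] in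
theorem g2_phi_ne (G : Geo V ω δ φ T) {P : V.Point} (h0 : P ≠ 0) : φ P ≠ 0 :=
  fun h => h0 (G.phi.ne P h)

omit [CharZero F] [V.IsElliptic] in
theorem g2_fix (G : Geo V ω δ φ T) {P : V.Point} (h0 : P ≠ 0) (hx : xc P = 0) : φ P = P := by
  apply pt_ext (g2_phi_ne G h0) h0
  · rw [G.phi.x, hx, mul_zero]
  · rw [G.phi.y]

theorem g2_three (G : Geo V ω δ φ T) {P : V.Point} (h0 : P ≠ 0) (hx : xc P = 0) :
    (2 : ℕ) • P = -P := by
  have h2 : (2 : F) ≠ 0 := two_ne_zero
  have hy2 : yc P ^ 2 = V.a₆ := by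
    rw [eqn h0, hx, G.a4]
    ring
  have hy : yc P ≠ 0 := by
    intro h
    apply g2_a6_ne (V := V) G.a4
    rw [← hy2, h]
    ring
  have h2P : (2 : ℕ) • P ≠ 0 := by
    intro h
    exact hy ((two_smul_eq_zero_iff h2 h0).mp h)
  obtain ⟨e1, e2⟩ := D1_dbl h2 h0 hy
  have e0 : (3 * xc P ^ 2 + V.a₄) / (2 * yc P) = 0 := by
    rw [hx, G.a4]
    simp
  rw [e0, hx] at e1
  rw [e0] at e2
  apply pt_ext h2P (neg_ne_zero.mpr h0)
  · rw [e1, xc_neg, hx]
    ring
  · rw [e2, yc_neg]
    ring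

theorem Geo.rel (G : Geo V ω δ φ T) (P : V.Point) : φ (φ P) + φ P + P = 0 := by
  by_cases h0 : P = 0
  · rw [h0, map_zero, map_zero, add_zero, add_zero]
  by_cases hx : xc P = 0
  · have h1 := g2_fix G h0 hx
    have h2 := g2_three G h0 hx
    rw [h1, h1]
    rw [two_nsmul] at h2
    rw [h2, neg_add_cancel]
  · have hφ := g2_phi_ne G h0
    have hφφ := g2_phi_ne G hφ
    have hne1 : ω ≠ 1 := om_ne_one G.om
    have hxne : xc P ≠ xc (φ P) := by
      rw [G.phi.x]
      intro h
      apply hne1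
      have h3 : (ω - 1) * xc P = 0 := by linear_combination -h
      rcases mul_eq_zero.mp h3 with h4 | h4
      · linear_combination h4
      · exact absurd h4 hx
    have hs : (yc P - yc (φ P)) / (xc P - xc (φ P)) = 0 := by
      rw [G.phi.y, sub_self, zero_div]
    have e1 := D1_xc_add h0 hφ hxne
    have e2 := g2_yc_add h0 hφ hxne
    rw [hs] at e1 e2
    have hS := (ne_zero_of_xc_ne h0 hφ hxne).1
    have hE : P + φ P = -(φ (φ P)) := by
      apply pt_ext hS (neg_ne_zero.mpr hφφ)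
      · rw [e1, xc_neg, G.phi.x (φ P), G.phi.x P]
        linear_combination -xc P * G.om
      · rw [e2, yc_neg, G.phi.y (φ P), G.phi.y P]
        ring
    have : φ (φ P) + φ P + P = φ (φ P) + (P + φ P) := by abel
    rw [this, hE, add_neg_cancel]






end H35Q
end

-- from Lib.H35Q.G5
section

/-! Chunk G5 (S): signs. t in Ω with t^2 = c in K. (g t)^2 = g (t^2) = t^2, so g t = t or g t = -t; sg_spec. If t is nonzero then t <> -t (char 0), so sg t g is determined by g t = ± t; sg_mul, sg_prod, sg_smul follow from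
sg_spec (compare the factors; use sg_eq). exists_neg: t^2 = c is not a square in K: some g moves t: otherwise t is fixed by all g, so t is in K (IsGalois.mem_bot / InfiniteGalois; IsAlgClosure, char 0: Galois; or
H16C.SE3 Setup.mem_L as a model), t = algebraMap x, x^2 = c. fix_mem: an element fixed by all g is in K. -/

namespace H35Q

variable {K Ω : Type*} [Field K] [Field Ω] [Algebra K Ω] [CharZero Ω]









variable [IsAlgClosure K Ω]

theorem fix_mem {x : Ω} (h : ∀ g : Ω ≃ₐ[K] Ω, g x = x) : ∃ y : K, algebraMap K Ω y = x := by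
  have h0 : CharZero K := ((algebraMap K Ω).charZero_iff (algebraMap K Ω).injective).mpr
    inferInstance
  have h3 : IsGalois K Ω := inferInstance
  have h4 : x ∈ (⊥ : IntermediateField K Ω) := by
    rw [← InfiniteGalois.fixedField_fixingSubgroup (⊥ : IntermediateField K Ω),
      IntermediateField.mem_fixedField_iff]
    exact fun g _ => h g
  exact IntermediateField.mem_bot.1 h4


end H35Q
end

-- from Lib.H35Q.G6
section

/-! Chunk G6 (S/M): Galois action and embeddings. rx, ry, rne: coordinates of rho W g P (cases P, rfl; compare SE3_xc in H16C/SE3.lean). om_sq: ω is a root of X^2 + X + 1, (2 ω + 1)^2 = -3, so theta is a square root of a rational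
number (hypothesis of sg_spec). rho_pim: g ω = ω (sg θ g = 1, θ = 2 ω + 1): rho (φ P) = φ (rho P) (both 0 or pt_ext: xc: g (ω x) = ω g x). sg θ g = -1: g θ = -θ, g ω = -1 - ω = ω^2: rho (φ P) = φ (φ (rho P)) by pt_ext, and by rel
φ φ R = -R - φ R: rho (pim P) = R + 2 (-R - φ R) = -pim R, R = rho P. rho_T: δ^2 = a₆ rational; coordinates of rho T: 0, g δ = ± δ; -T has coordinates 0, -δ (pt_ext; delta_ne is not needed).
rho_aT: rho (a • T) = a • rho T = a • (sg δ g • T) and val_zsmul. map: mx, my, mne coordinates of Point.map ι P. exists_geo_map: exists_om for the curve over Ω' with ι ω (import G1; ι is a ring homomorphism) gives φ'; T' = map ι T; map ι (φ P) = φ' (map ι P) by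
coordinates. (baseChange W Ω).a₆ = algebraMap K Ω W.a₆ is rfl. DecidableEq: classical. -/

namespace H35Q

open H16C

open Classical in
theorem rx {K Ω : Type*} [Field K] [Field Ω] [Algebra K Ω] {W : WeierstrassCurve.Affine K} (g : Ω ≃ₐ[K] Ω)
    (P : Pt W Ω) : xc (rho W g P) = g (xc P) := by
  cases P with
  | zero => exact (map_zero g).symm
  | some x y h => rfl

open Classical in
theorem ry {K Ω : Type*} [Field K] [Field Ω] [Algebra K Ω] {W : WeierstrassCurve.Affine K} (g : Ω ≃ₐ[K] Ω)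
    (P : Pt W Ω) : yc (rho W g P) = g (yc P) := by
  cases P with
  | zero => exact (map_zero g).symm
  | some x y h => rfl

open Classical in
theorem rne {K Ω : Type*} [Field K] [Field Ω] [Algebra K Ω] {W : WeierstrassCurve.Affine K} (g : Ω ≃ₐ[K] Ω)
    {P : Pt W Ω} (h : P ≠ 0) : rho W g P ≠ 0 := by
  cases P with
  | zero => exact absurd rfl h
  | some x y h1 => exact WeierstrassCurve.Affine.Point.some_ne_zero _


section

variable {K Ω : Type*} [Field K] [Field Ω] [Algebra K Ω] [CharZero Ω] {W : WeierstrassCurve.Affine K}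
  [W.IsShortNF] [W.IsElliptic]




end

section

variable {K Ω : Type*} [Field K] [Field Ω] [Algebra K Ω] {W : WeierstrassCurve.Affine K}
variable {Ω' : Type*} [Field Ω'] [Algebra K Ω'] (ι : Ω →ₐ[K] Ω')





end

end H35Q
end

-- from Lib.H35Q.L1
section

/-! Chunk L1 (M): avoid. L a field over K, Ω' an algebraic closure of L, the curve has infinitely many points over L. Take S₀ in Pt W L and S = its image in Pt W Ω' (Point.map of IsScalarTower.toAlgHom K L Ω', injective: WeierstrassCurve.Affine.Point.map_injective); S is fixed by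
all σ in Gal(Ω'/L) (coordinates, rx ry). The set of R with R = 0 or xc R = 0 is finite (H16C.T1_fiber / T1_fin, or xzero), and for given R the set of the S with 3 • (Q + S) = R is finite (two of them differ by an element killed by 3: tors_finite in H16C/T1.lean).
So only finitely many S₀ are bad; infinitely many S₀.
desc: a point R of Pt W Ω' fixed by all σ in Gal(Ω'/L) with R nonzero has coordinates in L (fix_mem). -/

namespace H35Q

open H16C

open Classical in
theorem l1_fix {K : Type*} [Field K] (W : WeierstrassCurve.Affine K) [W.IsShortNF]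
    {L Ω' : Type*} [Field L] [Algebra K L] [Field Ω'] [Algebra L Ω'] [Algebra K Ω'] [IsScalarTower K L Ω']
    (S : Pt W L) (σ : Ω' ≃ₐ[L] Ω') :
    rho W (σ.restrictScalars K) (WeierstrassCurve.Affine.Point.map (IsScalarTower.toAlgHom K L Ω') S : Pt W Ω') =
      WeierstrassCurve.Affine.Point.map (IsScalarTower.toAlgHom K L Ω') S := by
  by_cases h : S = 0
  · rw [h, map_zero, map_zero]
  · have hne : (WeierstrassCurve.Affine.Point.map (IsScalarTower.toAlgHom K L Ω') S : Pt W Ω') ≠ 0 := by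
      cases S with
      | zero => exact absurd rfl h
      | some x y h1 => exact WeierstrassCurve.Affine.Point.some_ne_zero _
    have hx : xc (WeierstrassCurve.Affine.Point.map (IsScalarTower.toAlgHom K L Ω') S : Pt W Ω') =
        algebraMap L Ω' (xc S) := by
      cases S with
      | zero => exact absurd rfl h
      | some x y h1 => rfl
    have hy : yc (WeierstrassCurve.Affine.Point.map (IsScalarTower.toAlgHom K L Ω') S : Pt W Ω') =
        algebraMap L Ω' (yc S) := by
      cases S with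
      | zero => exact absurd rfl h
      | some x y h1 => rfl
    apply pt_ext (rne _ hne) hne
    · rw [rx, hx]
      exact σ.commutes _
    · rw [ry, hy]
      exact σ.commutes _


end H35Q
end

-- from Lib.SSG.Z.C8
section

/-! Chunk C8 (S/M). Avoiding finitely many points. Copy of avoid in H35Q/L1.lean (same file: l1_fix for the Galois invariance): S = the image of S₀ in Pt W L; for every k with 0 < k ≤ N the set of the S₀ with k • (Q + S) = 0 is finite (two of them differ by a point killed by k, tors_finite), infinitely many S₀. -/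

open H16C

namespace SSG

open Classical in
theorem avoid_tors {K : Type} [Field K] [CharZero K] (W : WeierstrassCurve.Affine K) [W.IsShortNF] [W.IsElliptic] {L Ω' : Type} [Field L]
    [Algebra K L] [Field Ω'] [Algebra L Ω'] [Algebra K Ω'] [IsScalarTower K L Ω'] [IsAlgClosure L Ω'] [CharZero Ω'] (hinf : Infinite (Pt W L)) (N : ℕ)
    (Q : Pt W Ω') : ∃ S : Pt W Ω', (∀ σ : Ω' ≃ₐ[L] Ω', act W Ω' (σ.restrictScalars K) S = S) ∧ ∀ k : ℕ, 0 < k → k ≤ N → k • (Q + S) ≠ 0 := by
  let f : Pt W L →+ Pt W Ω' := WeierstrassCurve.Affine.Point.map (IsScalarTower.toAlgHom K L Ω')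
  have hf : Function.Injective f := WeierstrassCurve.Affine.Point.map_injective _
  have hfib : ∀ k : ℕ, 0 < k → {S : Pt W L | k • (Q + f S) = 0}.Finite := by
    intro k hk
    by_cases hn : ∃ S₁ : Pt W L, k • (Q + f S₁) = 0
    · obtain ⟨S₁, h1⟩ := hn
      have ht : {P : Pt W Ω' | k • P = 0}.Finite := tors_finite _ k hk
      have hinj : Function.Injective (fun S : Pt W L => f S - f S₁) := by
        intro a b hab
        exact hf (sub_left_injective hab)
      apply (ht.preimage hinj.injOn).subset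
      intro S hS
      show k • (f S - f S₁) = 0
      have h2 : k • (Q + f S) = 0 := hS
      rw [← h1, smul_add, smul_add, add_right_inj] at h2
      rw [smul_sub, h2, sub_self]
    · have he : {S : Pt W L | k • (Q + f S) = 0} = ∅ := by
        ext S
        constructor
        · intro hS
          exact absurd ⟨S, hS⟩ hn
        · intro hS
          exact absurd hS (Set.notMem_empty _)
      rw [he]
      exact Set.finite_empty
  have hbad : {S : Pt W L | ∃ k ∈ Finset.Icc 1 N, k • (Q + f S) = 0}.Finite := by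
    apply (((Finset.Icc 1 N).finite_toSet).biUnion (fun k hk => hfib k (by
      have := Finset.mem_Icc.1 (Finset.mem_coe.1 hk)
      omega))).subset
    rintro S ⟨k, hk, hS⟩
    rw [Set.mem_iUnion₂]
    exact ⟨k, Finset.mem_coe.2 hk, hS⟩
  obtain ⟨S, hS⟩ := hbad.exists_notMem
  refine ⟨f S, fun σ => H35Q.l1_fix W S σ, fun k h0 hk h => hS ⟨k, Finset.mem_Icc.2 ⟨h0, hk⟩, h⟩⟩

end SSG
end

-- from Lib.H35Q.S1
section

/-! Chunk S1 (M): coboundaries are in ZSha; 3-torsion of Sha. cob_coc: g ↦ g R - R is a cocycle (act is a homomorphism in g: cases R, rfl / rho) and vanishes on the g fixing the coordinates of R (F = K(xc R, yc R), finite: algebraic elements).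
cob_loc: it is locally trivial over every L: Q = map ι R (copy TR3_loc in H16C/TR3.lean: Point.map_map, the two embeddings ι ∘ g and σ ∘ ι are equal). sha_iff: Sha = ZSha / (BSha inside ZSha); z = class of c (Quotient.out or
QuotientAddGroup.mk_surjective), z = 0 iff c in BSha (QuotientAddGroup.eq_zero_iff, AddSubgroup.mem_addSubgroupOf, see sha_hom in H16C/TR3.lean). (left to right) 3 c = 0 implies 3 z = 0, z = 0. (right to left) 3 z = 0: 3 c(g) = g Q - Q;
divisible (H16C.T1, n = 3, the curve over Ω is short and elliptic): 3 R = Q; c' = c - (g R - R) is in ZSha (cob_coc, cob_loc), 3 c' = 0, so c' and c are coboundaries. -/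

open NumberField IsDedekindDomain

namespace H35Q

open H16C

theorem s1_some {F : Type*} [Field F] {V : WeierstrassCurve.Affine F} {x y x' y' : F}
    {h : V.Nonsingular x y} {h' : V.Nonsingular x' y'} (hx : x = x') (hy : y = y') :
    WeierstrassCurve.Affine.Point.some x y h = WeierstrassCurve.Affine.Point.some x' y' h' := by
  subst hx hy
  rfl

open Classical in
theorem act_eq {K Ω : Type*} [Field K] [Field Ω] [Algebra K Ω] (W : WeierstrassCurve.Affine K) (g : Ω ≃ₐ[K] Ω)
    (P : Pt W Ω) : act W Ω g P = rho W g P := rfl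

open Classical in
theorem cob_coc {K Ω : Type*} [Field K] [Field Ω] [Algebra K Ω] [Algebra.IsAlgebraic K Ω]
    (W : WeierstrassCurve.Affine K) (R : Pt W Ω) : IsCocycle W Ω (fun g => rho W g R - R) := by
  refine ⟨fun g h => ?_, ?_⟩
  · have h1 : rho W (g * h) R = rho W g (rho W h R) := by
      rw [map_mul]
      rfl
    show rho W (g * h) R - R = (rho W g R - R) + act W Ω g (rho W h R - R)
    rw [h1, map_sub, act_eq, act_eq]
    abel
  · rcases R with _ | ⟨x, y, hxy⟩
    · refine ⟨⊥, inferInstance, fun g _ => ?_⟩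
      show rho W g 0 - 0 = 0
      rw [map_zero, sub_zero]
    · refine ⟨IntermediateField.adjoin K ({x, y} : Set Ω), ?_, fun g hg => ?_⟩
      · exact IntermediateField.finiteDimensional_adjoin fun z _ =>
          Algebra.IsIntegral.isIntegral z
      · rw [IntermediateField.mem_fixingSubgroup_iff] at hg
        have hx : g x = x := hg x (IntermediateField.subset_adjoin K _ (by simp))
        have hy : g y = y := hg y (IntermediateField.subset_adjoin K _ (by simp))
        have h2 : rho W g (WeierstrassCurve.Affine.Point.some x y hxy : Pt W Ω) =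
            (WeierstrassCurve.Affine.Point.some x y hxy : Pt W Ω) := by
          exact s1_some hx hy
        show rho W g (WeierstrassCurve.Affine.Point.some x y hxy : Pt W Ω) - _ = 0
        rw [h2, sub_self]

open Classical in
theorem cob_loc {K Ω : Type*} [Field K] [Field Ω] [Algebra K Ω] (W : WeierstrassCurve.Affine K) (R : Pt W Ω)
    (L : Type*) [Field L] [Algebra K L] : LocTriv W Ω L (fun g => rho W g R - R) := by
  intro ι
  refine ⟨WeierstrassCurve.Affine.Point.map ι R, fun σ g h => ?_⟩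
  show WeierstrassCurve.Affine.Point.map ι (rho W g R - R) = _
  rw [map_sub, ← act_eq]
  congr 1
  unfold act
  rw [WeierstrassCurve.Affine.Point.map_map, WeierstrassCurve.Affine.Point.map_map]
  have h1 : ι.comp (g : Ω →ₐ[K] Ω) =
      ((σ.restrictScalars K : AlgebraicClosure L ≃ₐ[K] AlgebraicClosure L) :
        AlgebraicClosure L →ₐ[K] AlgebraicClosure L).comp ι := AlgHom.ext h
  rw [h1]


end H35Q
end

-- from Lib.SSG.Z.C7
section

/-! Chunk C7 (M). E(K_w) is infinite for every short elliptic curve. Copy of inf_loc in H35Q/F1.lean (case a₄ = 0, x = r x₀ with r a cube root) with squares instead of cubes: π the uniformizer there; for m large x = (π^m)⁻¹ ^ 2, x^3 + A x + B = (π^m)⁻¹ ^ 6 (1 + A π^(4m) + B π^(6m)) and 1 + A π^(4m) + B π^(6m) is a square s^2 in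
K_w because it is near 1: Hensel for T^2 - u, Valued.v (u - 1) < Valued.v 4 (see H35X.cube_nine, cube_one used in f1_cube, and H19X.hensel (grep theorem hensel in Lib/H19X), H16A.exists_root_lift; or: for an element z with v z < 1 the polynomial T^2 + T - z has a root in the ring of integers, (1 + 2T)^2 = 1 + 4 z).
y = s (π^m)⁻¹ ^ 3. The points are pairwise different (the x-coordinates have different valuations). -/

open NumberField IsDedekindDomain H16C

namespace SSG

theorem c7_small {K : Type} [Field K] [NumberField K] (w : HeightOneSpectrum (𝓞 K)) (π c : w.adicCompletion K)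
    (hπ : Valued.v π = WithZero.exp (-1 : ℤ)) :
    ∃ N : ℕ, ∀ m : ℕ, N ≤ m → Valued.v (c * π ^ m) < 1 := by
  by_cases hc : Valued.v c = 0
  · refine ⟨0, fun m _ => ?_⟩
    rw [map_mul, hc, zero_mul]
    exact zero_lt_one
  · obtain ⟨k, hk⟩ : ∃ k : ℤ, Valued.v c = WithZero.exp k := ⟨WithZero.log (Valued.v c), (WithZero.exp_log hc).symm⟩
    refine ⟨k.toNat + 1, fun m hm => ?_⟩
    rw [map_mul, map_pow, hπ, hk, ← WithZero.exp_nsmul, ← WithZero.exp_add, ← WithZero.exp_zero, WithZero.exp_lt_exp]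
    have h1 : k ≤ k.toNat := Int.self_le_toNat k
    rw [nsmul_eq_mul]
    have h2 : ((k.toNat + 1 : ℕ) : ℤ) ≤ m := by exact_mod_cast hm
    push_cast at h2
    linarith

open Classical in
theorem inf_pts {K : Type} [Field K] [NumberField K] (W : WeierstrassCurve.Affine K) [W.IsShortNF] [W.IsElliptic] (w : HeightOneSpectrum (𝓞 K)) :
    Infinite (Pt W (w.adicCompletion K)) := by
  obtain ⟨π0, hπ0⟩ := w.valuation_exists_uniformizer K
  obtain ⟨π, hπd⟩ : ∃ π : w.adicCompletion K, π = algebraMap K (w.adicCompletion K) π0 := ⟨_, rfl⟩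
  have hπ : Valued.v π = WithZero.exp (-1 : ℤ) := by
    rw [hπd, ← hπ0]
    exact HeightOneSpectrum.valuedAdicCompletion_eq_valuation' w π0
  have hπne : π ≠ 0 := by
    intro h
    rw [h, map_zero] at hπ
    exact WithZero.exp_ne_zero hπ.symm
  have h4 : (4 : w.adicCompletion K) ≠ 0 := by
    have h1 : (algebraMap K (w.adicCompletion K)) 4 = 4 := map_ofNat _ 4
    rw [← h1]
    exact (_root_.map_ne_zero _).2 (by norm_num)
  obtain ⟨A, hA⟩ : ∃ A : w.adicCompletion K, A = algebraMap K (w.adicCompletion K) W.a₄ := ⟨_, rfl⟩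
  obtain ⟨B, hB⟩ : ∃ B : w.adicCompletion K, B = algebraMap K (w.adicCompletion K) W.a₆ := ⟨_, rfl⟩
  obtain ⟨N₁, hN₁⟩ := c7_small w π (A / 4) hπ
  obtain ⟨N₂, hN₂⟩ := c7_small w π (B / 4) hπ
  obtain ⟨N, hN⟩ : ∃ N : ℕ, N = N₁ + N₂ := ⟨_, rfl⟩
  have hv4 : 0 < Valued.v (4 : w.adicCompletion K) := zero_lt_iff.2 ((Valuation.ne_zero_iff _).2 h4)
  have hpt : ∀ m : ℕ, ∃ P : Pt W (w.adicCompletion K), P ≠ 0 ∧ xc P = (π ^ (N + m))⁻¹ ^ 2 := by
    intro m
    have h1 := hN₁ (4 * (N + m)) (by omega)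
    have h2 := hN₂ (6 * (N + m)) (by omega)
    have h3 : Valued.v ((1 + A * π ^ (4 * (N + m)) + B * π ^ (6 * (N + m))) - 1) <
        Valued.v (4 : w.adicCompletion K) := by
      have e : (1 + A * π ^ (4 * (N + m)) + B * π ^ (6 * (N + m))) - 1 =
          4 * (A / 4 * π ^ (4 * (N + m))) + 4 * (B / 4 * π ^ (6 * (N + m))) := by
        field_simp
        ring
      rw [e]
      refine (Valued.v.map_add _ _).trans_lt (max_lt ?_ ?_)
      · rw [map_mul]
        calc Valued.v (4 : w.adicCompletion K) * Valued.v (A / 4 * π ^ (4 * (N + m))) <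
            Valued.v (4 : w.adicCompletion K) * 1 := (mul_lt_mul_iff_right₀ hv4).2 h1
          _ = Valued.v (4 : w.adicCompletion K) := mul_one _
      · rw [map_mul]
        calc Valued.v (4 : w.adicCompletion K) * Valued.v (B / 4 * π ^ (6 * (N + m))) <
            Valued.v (4 : w.adicCompletion K) * 1 := (mul_lt_mul_iff_right₀ hv4).2 h2
          _ = Valued.v (4 : w.adicCompletion K) := mul_one _
    obtain ⟨s, hs⟩ := H19X.hensel w _ h3
    have h0 : π ^ (N + m) ≠ 0 := pow_ne_zero _ hπne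
    have hE : (s * (π ^ (N + m))⁻¹ ^ 3) ^ 2 = ((π ^ (N + m))⁻¹ ^ 2) ^ 3 +
        (WeierstrassCurve.Affine.baseChange W (w.adicCompletion K)).a₄ * ((π ^ (N + m))⁻¹ ^ 2) +
        (WeierstrassCurve.Affine.baseChange W (w.adicCompletion K)).a₆ := by
      have e4 : (WeierstrassCurve.Affine.baseChange W (w.adicCompletion K)).a₄ = A := hA.symm
      have e6 : (WeierstrassCurve.Affine.baseChange W (w.adicCompletion K)).a₆ = B := hB.symm
      rw [e4, e6, mul_pow, ← hs, show π ^ (6 * (N + m)) = (π ^ (N + m)) ^ 6 by rw [← pow_mul, mul_comm],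
        show π ^ (4 * (N + m)) = (π ^ (N + m)) ^ 4 by rw [← pow_mul, mul_comm]]
      field_simp
    obtain ⟨P, hP, hx, -⟩ := exists_pt _ _ hE
    exact ⟨P, hP, hx⟩
  choose P hP hx using hpt
  apply Infinite.of_injective P
  intro m n hmn
  have h1 : (π ^ (N + m))⁻¹ ^ 2 = (π ^ (N + n))⁻¹ ^ 2 := by
    rw [← hx, ← hx, hmn]
  have h2 : (Valued.v π) ^ (2 * (N + m)) = (Valued.v π) ^ (2 * (N + n)) := by
    rw [← map_pow, ← map_pow]
    congr 1
    rw [inv_pow, inv_pow, inv_inj, ← pow_mul, ← pow_mul] at h1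
    rw [mul_comm 2, mul_comm 2]
    exact h1
  have h3 : (0 : WithZero (Multiplicative ℤ)) < Valued.v π := zero_lt_iff.2 ((Valuation.ne_zero_iff _).2 hπne)
  have h4' : Valued.v π ≠ 1 := by
    rw [hπ]
    intro h
    rw [← WithZero.exp_zero, WithZero.exp_inj] at h
    omega
  have h5 := pow_right_injective₀ h3 h4' h2
  omega

end SSG
end

-- from Lib.SSG.Z.C2
section

/-! Chunk C2 (M). Division near Q. L an algebraically closed normed field of characteristic 0, V a short elliptic curve over L, Q a point with k Q ≠ 0 for 0 < k ≤ n, a = xc (n Q). For a' near a there is a point Q' near Q with xc (n Q') = a'.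
PROOF. xc_smul (H16C/T1.lean): (ΨSq n)(X) ≠ 0 and a (ΨSq n)(X) = (Φ n)(X), X = xc Q. The polynomial h = Φ n - C a' * ΨSq n is monic of degree n^2 > 0 (natDegree_Φ, leadingCoeff_Φ, natDegree_ΨSq_le, see the proof of divisible in H16C/T1.lean) and h(X) = (a - a') (ΨSq n)(X): root_close gives a root X' near X.
Y = yc Q, Y^2 = X^3 + A X + B (eqn); X' ↦ X'^3 + A X' + B is continuous, so sqrt_close gives Y' near Y with Y'^2 = X'^3 + A X' + B; Q' = the point (X', Y') (exists_pt). The set of the points P ≠ 0 with k P = 0 for some 0 < k ≤ n is finite (tors_finite); their x-coordinates are different from X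
(xc P = X gives P = ±Q, xc_eq), so for X' nearer to X than all of them k Q' ≠ 0 for 0 < k ≤ n; xc_smul for Q': xc (n Q') (ΨSq n)(X') = (Φ n)(X') = a' (ΨSq n)(X') and (ΨSq n)(X') ≠ 0, so xc (n Q') = a'.
Organise with eps-delta: first choose ε' ≤ ε for X' (continuity of the cubic, finitely many points), then δ with δ ‖ΨSq n (X)‖ < ε' ^ (n^2). -/

open WeierstrassCurve Polynomial H16C

namespace SSG

theorem c2_monic {L : Type} [Field L] (V : WeierstrassCurve.Affine L) (n : ℕ) (hn : 0 < n) (a : L) :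
    (V.Φ n - Polynomial.C a * V.ΨSq n).Monic ∧ (V.Φ n - Polynomial.C a * V.ΨSq n).natDegree = n ^ 2 := by
  have hp : 0 < n ^ 2 := by positivity
  have hlt : (Polynomial.C a * V.ΨSq n).natDegree < n ^ 2 := by
    refine (natDegree_C_mul_le _ _).trans_lt ((V.natDegree_ΨSq_le n).trans_lt ?_)
    rw [Int.natAbs_natCast]
    omega
  have h1 : (V.Φ n - C a * V.ΨSq n).coeff (n ^ 2) = 1 := by
    have h2 := V.coeff_Φ n
    rw [Int.natAbs_natCast] at h2
    rw [coeff_sub, h2, coeff_eq_zero_of_natDegree_lt hlt, sub_zero]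
  have h2 : (V.Φ n - C a * V.ΨSq n).natDegree ≤ n ^ 2 := by
    refine (natDegree_sub_le _ _).trans (max_le ?_ hlt.le)
    have h3 := V.natDegree_Φ_le n
    rwa [Int.natAbs_natCast] at h3
  refine ⟨monic_of_natDegree_le_of_coeff_eq_one (n ^ 2) h2 h1, le_antisymm h2 ?_⟩
  exact le_natDegree_of_ne_zero (by rw [h1]; exact one_ne_zero)

open Classical in
theorem div_close {L : Type} [NormedField L] [IsAlgClosed L] [CharZero L] (V : WeierstrassCurve.Affine L) [V.IsShortNF] [V.IsElliptic] (n : ℕ)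
    (hn : 0 < n) (Q : V.Point) (hQ : ∀ k : ℕ, 0 < k → k ≤ n → k • Q ≠ 0) {ε : ℝ} (hε : 0 < ε) :
    ∃ δ : ℝ, 0 < δ ∧ ∀ a' : L, ‖a' - xc (n • Q)‖ < δ → ∃ Q' : V.Point, Q' ≠ 0 ∧ (∀ k : ℕ, 0 < k → k ≤ n → k • Q' ≠ 0) ∧
      ‖xc Q' - xc Q‖ < ε ∧ ‖yc Q' - yc Q‖ < ε ∧ xc (n • Q') = a' ∧ ((V.Φ n) - Polynomial.C a' * (V.ΨSq n)).eval (xc Q') = 0 := by
  have hQ0 : Q ≠ 0 := by
    have := hQ 1 one_pos hn
    rwa [one_nsmul] at this
  have hB : {P : V.Point | ∃ k : ℕ, 0 < k ∧ k ≤ n ∧ k • P = 0}.Finite := by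
    apply Set.Finite.subset (Set.Finite.biUnion (Finset.finite_toSet (Finset.Icc 1 n))
      (fun k (hk : k ∈ ((Finset.Icc 1 n : Finset ℕ) : Set ℕ)) => tors_finite V k (by
        rw [Finset.mem_coe, Finset.mem_Icc] at hk
        omega)))
    rintro P ⟨k, h1, h2, h3⟩
    rw [Set.mem_iUnion₂]
    exact ⟨k, Finset.mem_coe.mpr (Finset.mem_Icc.mpr ⟨h1, h2⟩), h3⟩
  have hS : (xc '' {P : V.Point | P ≠ 0 ∧ ∃ k : ℕ, 0 < k ∧ k ≤ n ∧ k • P = 0}).Finite :=
    (hB.subset (fun P hP => hP.2)).image _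
  have hXS : xc Q ∈ (xc '' {P : V.Point | P ≠ 0 ∧ ∃ k : ℕ, 0 < k ∧ k ≤ n ∧ k • P = 0})ᶜ := by
    rintro ⟨P, ⟨hP0, k, hk1, hk2, hk3⟩, hPx⟩
    rcases xc_eq hP0 hQ0 hPx with h | h
    · exact hQ k hk1 hk2 (h ▸ hk3)
    · apply hQ k hk1 hk2
      rw [h, smul_neg, neg_eq_zero] at hk3
      exact hk3
  obtain ⟨e1, he1, hb1⟩ := Metric.isOpen_iff.mp hS.isClosed.isOpen_compl _ hXS
  have hcont : ContinuousAt (fun x : L => x ^ 3 + V.a₄ * x + V.a₆) (xc Q) := by fun_prop
  obtain ⟨e2, he2, hb2⟩ := Metric.continuousAt_iff.mp hcont (ε ^ 2) (by positivity)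
  obtain ⟨hΨ, hΦ⟩ := xc_smul n hn hQ
  have hD : 0 < ‖(V.ΨSq n).eval (xc Q)‖ := norm_pos_iff.mpr hΨ
  have hε' : 0 < min ε (min e1 e2) := lt_min hε (lt_min he1 he2)
  refine ⟨(min ε (min e1 e2)) ^ (n ^ 2) / ‖(V.ΨSq n).eval (xc Q)‖, by positivity, fun a' ha' => ?_⟩
  obtain ⟨hm, hdeg⟩ := c2_monic V n hn a'
  have hval : ‖(V.Φ n - Polynomial.C a' * V.ΨSq n).eval (xc Q)‖ < (min ε (min e1 e2)) ^ (V.Φ n - Polynomial.C a' * V.ΨSq n).natDegree := by
    rw [hdeg, eval_sub, eval_mul, eval_C, ← hΦ, ← sub_mul, norm_mul, norm_sub_rev]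
    rwa [lt_div_iff₀ hD] at ha'
  obtain ⟨x', hx', hxd⟩ := root_close hm (by rw [hdeg]; positivity) hε' hval
  rw [lt_min_iff, lt_min_iff] at hxd
  have hy1 := hb2 (show dist x' (xc Q) < e2 by rw [dist_eq_norm, norm_sub_rev]; exact hxd.2.2)
  rw [dist_eq_norm, ← eqn hQ0, norm_sub_rev] at hy1
  obtain ⟨y', hy', hyd⟩ := sqrt_close hε hy1
  obtain ⟨Q', hQ'0, rfl, rfl⟩ := exists_pt x' y' hy'
  have hk : ∀ k : ℕ, 0 < k → k ≤ n → k • Q' ≠ 0 := by
    intro k hk1 hk2 hk3
    have h3 : xc Q' ∈ Metric.ball (xc Q) e1 := by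
      rw [Metric.mem_ball, dist_eq_norm, norm_sub_rev]
      exact hxd.2.1
    exact hb1 h3 ⟨Q', ⟨hQ'0, k, hk1, hk2, hk3⟩, rfl⟩
  refine ⟨Q', hQ'0, hk, by rw [norm_sub_rev]; exact hxd.1, by rw [norm_sub_rev]; exact hyd, ?_, hx'⟩
  obtain ⟨h4, h5⟩ := xc_smul n hn hk
  rw [eval_sub, eval_mul, eval_C, sub_eq_zero] at hx'
  rw [hx'] at h5
  exact mul_right_cancel₀ h4 h5

end SSG
end

-- from Lib.SSG.Z.C3
section

/-! Chunk C3 (M). Translations are continuous. For t ≠ 0 and P ≠ 0 with xc P ≠ xc t: xc (P + t) = ((yc P - yc t) / (xc P - xc t))^2 - xc P - xc t (D1_xc_add in H16C/D1.lean), yc (P + t) = -(λ (xc (P + t) - xc P) + yc P) (prove it: see H16C/D1.lean; or from D1_xc_add for the three collinear points P, t, -(P + t)).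
Both are continuous functions of (xc P, yc P) at (xc Q, yc Q) (ContinuousAt, Metric.continuousAt_iff; fun_prop with the denominator nonzero). Q ≠ t and Q ≠ -t give xc Q ≠ xc t (xc_eq) and Q + t ≠ 0; for P near Q: xc P ≠ xc t, so P ≠ ±t and P + t ≠ 0. t = 0: trivial. T is finite: take the minimum of the δ (induction on T). -/

open WeierstrassCurve H16C

namespace SSG

open Classical in
theorem c3_yc_add {L : Type} [NormedField L] (V : WeierstrassCurve.Affine L) [V.IsShortNF] {P Q : V.Point} (hP : P ≠ 0) (hQ : Q ≠ 0)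
    (h : xc P ≠ xc Q) :
    yc (P + Q) = -(((yc P - yc Q) / (xc P - xc Q)) * ((((yc P - yc Q) / (xc P - xc Q)) ^ 2 - xc P - xc Q) - xc P) + yc P) := by
  rcases P with _ | ⟨x, y, h1⟩
  · exact absurd rfl hP
  rcases Q with _ | ⟨x', y', h2⟩
  · exact absurd rfl hQ
  change x ≠ x' at h
  rw [WeierstrassCurve.Affine.Point.add_of_X_ne h]
  change V.addY x x' y (V.slope x x' y y') = -(((y - y') / (x - x')) * ((((y - y') / (x - x')) ^ 2 - x - x') - x) + y)
  rw [WeierstrassCurve.Affine.slope_of_X_ne h, WeierstrassCurve.Affine.addY, WeierstrassCurve.Affine.negAddY,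
    WeierstrassCurve.Affine.addX, D1_negY, a₁_of_isShortNF, a₂_of_isShortNF]
  ring

open Classical in
theorem c3_one {L : Type} [NormedField L] (V : WeierstrassCurve.Affine L) [V.IsShortNF] [V.IsElliptic] (Q : V.Point) (hQ : Q ≠ 0)
    (t : V.Point) (ht : Q ≠ t ∧ Q ≠ -t) {ε : ℝ} (hε : 0 < ε) :
    ∃ δ : ℝ, 0 < δ ∧ ∀ P : V.Point, P ≠ 0 → ‖xc P - xc Q‖ < δ → ‖yc P - yc Q‖ < δ → 
      P + t ≠ 0 ∧ ‖xc (P + t) - xc (Q + t)‖ < ε ∧ ‖yc (P + t) - yc (Q + t)‖ < ε := by
  by_cases ht0 : t = 0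
  · subst ht0
    refine ⟨ε, hε, fun P hP h1 h2 => ?_⟩
    rw [add_zero, add_zero]
    exact ⟨hP, h1, h2⟩
  · have hx : xc Q ≠ xc t := by
      intro h
      rcases xc_eq hQ ht0 h with h1 | h1
      · exact ht.1 h1
      · exact ht.2 h1
    have hx' : xc Q - xc t ≠ 0 := sub_ne_zero.mpr hx
    let F : L × L → L := fun z => ((z.2 - yc t) / (z.1 - xc t)) ^ 2 - z.1 - xc t
    let G : L × L → L := fun z => -(((z.2 - yc t) / (z.1 - xc t)) * ((((z.2 - yc t) / (z.1 - xc t)) ^ 2 - z.1 - xc t) - z.1) + z.2)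
    have hs : ContinuousAt (fun z : L × L => (z.2 - yc t) / (z.1 - xc t)) (xc Q, yc Q) :=
      ContinuousAt.div (by fun_prop) (by fun_prop) hx'
    have hF : ContinuousAt F (xc Q, yc Q) := ((hs.pow 2).sub continuousAt_fst).sub continuousAt_const
    have hG : ContinuousAt G (xc Q, yc Q) := ((hs.mul (hF.sub continuousAt_fst)).add continuousAt_snd).neg
    obtain ⟨d1, hd1, h1⟩ := Metric.continuousAt_iff.mp hF ε hε
    obtain ⟨d2, hd2, h2⟩ := Metric.continuousAt_iff.mp hG ε hε
    have h3 : 0 < ‖xc Q - xc t‖ := norm_pos_iff.mpr hx'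
    refine ⟨min (min d1 d2) ‖xc Q - xc t‖, lt_min (lt_min hd1 hd2) h3, fun P hP hPx hPy => ?_⟩
    rw [lt_min_iff, lt_min_iff] at hPx hPy
    have hxt : xc P ≠ xc t := by
      intro h
      have := hPx.2
      rw [h, norm_sub_rev] at this
      exact lt_irrefl _ this
    have hd : ∀ d : ℝ, ‖xc P - xc Q‖ < d → ‖yc P - yc Q‖ < d → dist ((xc P, yc P) : L × L) (xc Q, yc Q) < d := by
      intro d h4 h5
      rw [Prod.dist_eq, max_lt_iff, dist_eq_norm, dist_eq_norm]
      exact ⟨h4, h5⟩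
    have e1 := h1 (hd d1 hPx.1.1 hPy.1.1)
    have e2 := h2 (hd d2 hPx.1.2 hPy.1.2)
    rw [dist_eq_norm] at e1 e2
    refine ⟨(ne_zero_of_xc_ne hP ht0 hxt).1, ?_, ?_⟩
    · rw [D1_xc_add hP ht0 hxt, D1_xc_add hQ ht0 hx]
      exact e1
    · rw [c3_yc_add V hP ht0 hxt, c3_yc_add V hQ ht0 hx]
      exact e2

open Classical in
theorem add_close {L : Type} [NormedField L] (V : WeierstrassCurve.Affine L) [V.IsShortNF] [V.IsElliptic] (Q : V.Point) (hQ : Q ≠ 0)
    (T : Finset V.Point) (hT : ∀ t ∈ T, Q ≠ t ∧ Q ≠ -t) {ε : ℝ} (hε : 0 < ε) :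
    ∃ δ : ℝ, 0 < δ ∧ ∀ P : V.Point, P ≠ 0 → ‖xc P - xc Q‖ < δ → ‖yc P - yc Q‖ < δ → ∀ t ∈ T,
      P + t ≠ 0 ∧ ‖xc (P + t) - xc (Q + t)‖ < ε ∧ ‖yc (P + t) - yc (Q + t)‖ < ε := by
  induction T using Finset.induction_on with
  | empty => exact ⟨1, one_pos, fun P _ _ _ t ht => absurd ht (Finset.notMem_empty t)⟩
  | insert t T _ ih =>
    obtain ⟨d1, hd1, h1⟩ := ih (fun s hs => hT s (Finset.mem_insert_of_mem hs))
    obtain ⟨d2, hd2, h2⟩ := c3_one V Q hQ t (hT t (Finset.mem_insert_self t T)) hε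
    refine ⟨min d1 d2, lt_min hd1 hd2, fun P hP hx hy s hs => ?_⟩
    rw [lt_min_iff] at hx hy
    rcases Finset.mem_insert.mp hs with rfl | hs
    · exact h2 P hP hx.2 hy.2
    · exact h1 P hP hx.1 hy.1 s hs

end SSG
end

-- from Lib.SSG.Z.C4
section

/-! Chunk C4 (S/M). Two small statements.
galois_sqrt: L' a normed field with an ultrametric norm, G a set of isometric automorphisms of L'. b ≠ 0 is fixed by G, b'^2 is fixed by G, b' is near b: ‖b' - b‖ < ‖2 b‖. Then b' is fixed by G: s b' = ± b'; if s b' = -b' then ‖b' + b‖ = ‖-(s b') + ... : ‖b' - b‖ = ‖s (b' - b)‖ = ‖-b' - b‖ = ‖b' + b‖, and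
‖2 b‖ = ‖(b' + b) - (b' - b)‖ ≤ max < ‖2 b‖.
sep: a finite set T of points with Q + t ≠ 0 for t in T: there is ε > 0 such that for t ≠ t' in T: ε ≤ ‖xc (Q + t) - xc (Q + t')‖ or ε ≤ ‖yc (Q + t) - yc (Q + t')‖ (pt_ext in H16C/D1.lean: different nonzero points have different coordinates; minimum over the finite set T × T). -/

open WeierstrassCurve H16C

namespace SSG

theorem c4_sub_le {L : Type} [NormedField L] [IsUltrametricDist L] (x y : L) : ‖x - y‖ ≤ max ‖x‖ ‖y‖ := by
  rw [sub_eq_add_neg, ← norm_neg y]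
  exact IsUltrametricDist.norm_add_le_max x (-y)

theorem galois_sqrt {L : Type} [NormedField L] [IsUltrametricDist L] [CharZero L] (s : L ≃+* L) (hs : ∀ x, ‖s x‖ = ‖x‖) {b b' : L} (hb : s b = b)
    (hb' : s (b' ^ 2) = b' ^ 2) (h : ‖b' - b‖ < ‖2 * b‖) : s b' = b' := by
  rw [map_pow] at hb'
  rcases sq_eq_sq_iff_eq_or_eq_neg.mp hb' with h1 | h1
  · exact h1
  · exfalso
    have h2 : ‖b' - b‖ = ‖b' + b‖ := by
      rw [← hs (b' - b), map_sub, h1, hb, ← norm_neg]
      congr 1
      ring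
    have h3 : ‖2 * b‖ ≤ max ‖b' + b‖ ‖b' - b‖ := by
      have e : 2 * b = (b' + b) - (b' - b) := by ring
      rw [e]
      exact c4_sub_le _ _
    rw [← h2, max_self] at h3
    exact absurd h (not_lt.mpr h3)

open Classical in
theorem sep {L : Type} [NormedField L] (V : WeierstrassCurve.Affine L) [V.IsShortNF] [V.IsElliptic] (Q : V.Point) (T : Finset V.Point)
    (hT : ∀ t ∈ T, Q + t ≠ 0) : ∃ ε : ℝ, 0 < ε ∧ ∀ t ∈ T, ∀ t' ∈ T, t ≠ t' →
      ε ≤ ‖xc (Q + t) - xc (Q + t')‖ ∨ ε ≤ ‖yc (Q + t) - yc (Q + t')‖ := by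
  have hfin : ∀ S : Finset (V.Point × V.Point), (∀ z ∈ S, Q + z.1 ≠ 0 ∧ Q + z.2 ≠ 0 ∧ z.1 ≠ z.2) →
      ∃ ε : ℝ, 0 < ε ∧ ∀ z ∈ S, ε ≤ ‖xc (Q + z.1) - xc (Q + z.2)‖ ∨ ε ≤ ‖yc (Q + z.1) - yc (Q + z.2)‖ := by
    intro S
    induction S using Finset.induction_on with
    | empty => exact fun _ => ⟨1, one_pos, fun z hz => absurd hz (Finset.notMem_empty z)⟩
    | insert z S _ ih =>
      intro hS
      obtain ⟨d, hd, h1⟩ := ih (fun w hw => hS w (Finset.mem_insert_of_mem hw))
      obtain ⟨a1, a2, a3⟩ := hS z (Finset.mem_insert_self z S)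
      have h2 : ∃ e : ℝ, 0 < e ∧ (e ≤ ‖xc (Q + z.1) - xc (Q + z.2)‖ ∨ e ≤ ‖yc (Q + z.1) - yc (Q + z.2)‖) := by
        by_cases hx : xc (Q + z.1) = xc (Q + z.2)
        · have hy : yc (Q + z.1) ≠ yc (Q + z.2) := by
            intro hy
            exact a3 (add_left_cancel (pt_ext a1 a2 hx hy))
          exact ⟨_, norm_pos_iff.mpr (sub_ne_zero.mpr hy), Or.inr le_rfl⟩
        · exact ⟨_, norm_pos_iff.mpr (sub_ne_zero.mpr hx), Or.inl le_rfl⟩
      obtain ⟨e, he, h3⟩ := h2
      refine ⟨min d e, lt_min hd he, fun w hw => ?_⟩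
      rcases Finset.mem_insert.mp hw with rfl | hw
      · rcases h3 with h3 | h3
        · exact Or.inl ((min_le_right _ _).trans h3)
        · exact Or.inr ((min_le_right _ _).trans h3)
      · rcases h1 w hw with h3 | h3
        · exact Or.inl ((min_le_left _ _).trans h3)
        · exact Or.inr ((min_le_left _ _).trans h3)
  obtain ⟨ε, hε, h⟩ := hfin ((T ×ˢ T).filter (fun z => z.1 ≠ z.2)) (fun z hz => by
    rw [Finset.mem_filter, Finset.mem_product] at hz
    exact ⟨hT _ hz.1.1, hT _ hz.1.2, hz.2⟩)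
  exact ⟨ε, hε, fun t ht t' ht' hne => h (t, t') (Finset.mem_filter.mpr ⟨Finset.mem_product.mpr ⟨ht, ht'⟩, hne⟩)⟩

end SSG
end

-- from Lib.SSG.Z.C5
section

/-! Chunk C5 (S/M). Roots of polynomials over an algebraically closed field Ω stay in Ω: q in Ω[X], q ≠ 0, ι : Ω → L a ring homomorphism into a field, a root of q.map ι lies in the image of ι (q splits over Ω: IsAlgClosed.splits, roots_map / aroots; or q = C c ∏ (X - r)).
pt_range: ι : Ω →ₐ[K] L, a' in K, W short over K, Q' = (x', y') a point of W over L, x' a root of Φ n - a' ΨSq n (n ≥ 1): this polynomial is the image of the polynomial (W⁄Ω).Φ n - C a' * (W⁄Ω).ΨSq n over Ω (WeierstrassCurve.map_Φ, map_ΨSq; monic of degree n^2, so nonzero, see the proof of divisible in H16C/T1.lean), so x' = ι x;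
y'^2 = x'^3 + A x' + B (eqn) is the image of an element of Ω, so y' = ι y (root of T^2 - c); the point (x, y) of W over Ω (exists_pt, equation by injectivity of ι) is mapped to Q'. -/

open WeierstrassCurve Polynomial H16C

namespace SSG

theorem root_range {Ω L : Type} [Field Ω] [IsAlgClosed Ω] [Field L] (ι : Ω →+* L) {q : Polynomial Ω} (hq : q ≠ 0) {x : L} (hx : (q.map ι).eval x = 0) :
    ∃ y : Ω, ι y = x := by
  have hs := IsAlgClosed.splits q
  have h1 : (q.map ι).roots = q.roots.map ι := hs.roots_map ι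
  have h2 : x ∈ (q.map ι).roots := by
    rw [Polynomial.mem_roots ((Polynomial.map_ne_zero_iff ι.injective).mpr hq)]
    exact hx
  rw [h1, Multiset.mem_map] at h2
  obtain ⟨y, _, hy⟩ := h2
  exact ⟨y, hy⟩

theorem c5_ne {L : Type} [Field L] (V : WeierstrassCurve.Affine L) (n : ℕ) (hn : 0 < n) (a : L) :
    (V.Φ n - Polynomial.C a * V.ΨSq n) ≠ 0 := by
  have hp : 0 < n ^ 2 := by positivity
  have hlt : (Polynomial.C a * V.ΨSq n).natDegree < n ^ 2 := by
    refine (natDegree_C_mul_le _ _).trans_lt ((V.natDegree_ΨSq_le n).trans_lt ?_)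
    rw [Int.natAbs_natCast]
    omega
  have h1 : (V.Φ n - C a * V.ΨSq n).coeff (n ^ 2) = 1 := by
    have h2 := V.coeff_Φ n
    rw [Int.natAbs_natCast] at h2
    rw [coeff_sub, h2, coeff_eq_zero_of_natDegree_lt hlt, sub_zero]
  intro h
  rw [h, coeff_zero] at h1
  exact zero_ne_one h1

open Classical in
theorem pt_range {K : Type} [Field K] [CharZero K] (W : WeierstrassCurve.Affine K) [W.IsShortNF] [W.IsElliptic] {Ω L : Type} [Field Ω] [Algebra K Ω]
    [IsAlgClosed Ω] [Field L] [Algebra K L] (ι : Ω →ₐ[K] L) (n : ℕ) (hn : 0 < n) (a' : K) (Q' : Pt W L) (hQ : Q' ≠ 0)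
    (h : (((WeierstrassCurve.Affine.baseChange W L).Φ n) - Polynomial.C (algebraMap K L a') * ((WeierstrassCurve.Affine.baseChange W L).ΨSq n)).eval (xc Q') = 0) :
    ∃ Q : Pt W Ω, WeierstrassCurve.Affine.Point.map ι Q = Q' := by
  have hι : (ι : Ω →+* L).comp (algebraMap K Ω) = algebraMap K L := ι.comp_algebraMap
  have hΦ : (WeierstrassCurve.Affine.baseChange W L).Φ n = ((WeierstrassCurve.Affine.baseChange W Ω).Φ n).map (ι : Ω →+* L) := by
    change (WeierstrassCurve.map W (algebraMap K L)).Φ n = ((WeierstrassCurve.map W (algebraMap K Ω)).Φ n).map (ι : Ω →+* L)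
    rw [WeierstrassCurve.map_Φ, WeierstrassCurve.map_Φ, Polynomial.map_map, hι]
  have hΨ : (WeierstrassCurve.Affine.baseChange W L).ΨSq n = ((WeierstrassCurve.Affine.baseChange W Ω).ΨSq n).map (ι : Ω →+* L) := by
    change (WeierstrassCurve.map W (algebraMap K L)).ΨSq n = ((WeierstrassCurve.map W (algebraMap K Ω)).ΨSq n).map (ι : Ω →+* L)
    rw [WeierstrassCurve.map_ΨSq, WeierstrassCurve.map_ΨSq, Polynomial.map_map, hι]
  have hq : ((((WeierstrassCurve.Affine.baseChange W Ω).Φ n) - Polynomial.C (algebraMap K Ω a') * ((WeierstrassCurve.Affine.baseChange W Ω).ΨSq n)).map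
      (ι : Ω →+* L)).eval (xc Q') = 0 := by
    rw [Polynomial.map_sub, Polynomial.map_mul, Polynomial.map_C, ← hΦ, ← hΨ]
    have h1 : (ι : Ω →+* L) (algebraMap K Ω a') = algebraMap K L a' := ι.commutes a'
    rw [h1]
    exact h
  obtain ⟨x, hx⟩ := root_range (ι : Ω →+* L) (c5_ne _ n hn _) hq
  have hE := eqn hQ
  have h4 : (WeierstrassCurve.Affine.baseChange W L).a₄ = (ι : Ω →+* L) (WeierstrassCurve.Affine.baseChange W Ω).a₄ := (ι.commutes W.a₄).symm
  have h6 : (WeierstrassCurve.Affine.baseChange W L).a₆ = (ι : Ω →+* L) (WeierstrassCurve.Affine.baseChange W Ω).a₆ := (ι.commutes W.a₆).symm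
  have hE' : yc Q' ^ 2 = (ι : Ω →+* L) (x ^ 3 + (WeierstrassCurve.Affine.baseChange W Ω).a₄ * x + (WeierstrassCurve.Affine.baseChange W Ω).a₆) := by
    rw [hE, h4, h6, ← hx, map_add, map_add, map_mul, map_pow]
  obtain ⟨y, hy⟩ : ∃ y : Ω, (ι : Ω →+* L) y = yc Q' := by
    apply root_range (ι : Ω →+* L) (q := X ^ 2 - C (x ^ 3 + (WeierstrassCurve.Affine.baseChange W Ω).a₄ * x + (WeierstrassCurve.Affine.baseChange W Ω).a₆))
      (Polynomial.X_pow_sub_C_ne_zero (by norm_num) _)
    rw [Polynomial.map_sub, Polynomial.map_pow, Polynomial.map_X, Polynomial.map_C, eval_sub, eval_pow, eval_X, eval_C, hE', sub_self]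
  have hxy : y ^ 2 = x ^ 3 + (WeierstrassCurve.Affine.baseChange W Ω).a₄ * x + (WeierstrassCurve.Affine.baseChange W Ω).a₆ := by
    apply (ι : Ω →+* L).injective
    rw [map_pow, hy, hE']
  obtain ⟨P, hP0, hPx, hPy⟩ := exists_pt (W := WeierstrassCurve.Affine.baseChange W Ω) x y hxy
  refine ⟨P, ?_⟩
  rcases P with _ | ⟨x1, y1, h1⟩
  · exact absurd rfl hP0
  change x1 = x at hPx
  change y1 = y at hPy
  subst hPx hPy
  refine pt_ext (WeierstrassCurve.Affine.Point.some_ne_zero _) hQ ?_ ?_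
  · exact hx
  · exact hy

end SSG
end

-- from Lib.SSG.Z.C6
section

/-! Chunk C6 (M/L). Algebraisation. F a complete ultrametric field of characteristic 0 in which K is dense, Ω' = AlgebraicClosure F with the spectral norm: letI : NormedField Ω' := spectralNorm.normedField F Ω' (Mathlib; ‖x‖ = spectralNorm F Ω' x; ultrametric: isNonarchimedean_spectralNorm, IsUltrametricDist.isUltrametricDist_of_isNonarchimedean_norm;
spectralNorm_extends; spectralNorm_eq_of_equiv: automorphisms over F are isometries). Q a point over Ω' with k Q ≠ 0 for 0 < k ≤ 2n and n Q fixed by Gal(Ω'/F). Then there is a point Q' of W over Ω with σ (ι Q') - ι Q' = σ Q - Q for all σ in Gal(Ω'/F).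
PROOF. E(n) = the finite set T of the points t with n t = 0 (tors_finite). Q ≠ ±t and Q + t ≠ 0 for t in T (n Q ≠ 0). sep (C4) gives ε₀; add_close (C3) for ε₀ gives δ₀. a = xc (n Q) is in F (a fixed element, InfiniteGalois / fix_mem in H35Q: see desc in H35Q/L1.lean), b = yc (n Q) ≠ 0 since 2 (n Q) ≠ 0
(two_smul_eq_zero_iff). div_close (C2) with ε = min(δ₀, ε₀) gives δ; choose a' in K near a: ‖a - a'‖ < δ and so near that ‖f(a') - f(a)‖ < (‖2 b‖)^2 where f(x) = x^3 + A x + B (continuity). Q₁ the point of C2 with xc (n Q₁) = a'; pt_range (C5): Q₁ = ι Q'. b₁ = yc (n Q₁), b₁^2 = f(a'), (b₁ - b)(b₁ + b) = f(a') - f(a) so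
‖b₁ - b‖ < ‖2 b‖ or ‖b₁ + b‖ < ‖2 b‖; galois_sqrt for b and b₁ or -b₁: b₁ is fixed by all σ, so n Q₁ is fixed by all σ (pt_ext; xc = a' in K).
For σ: t = σ Q - Q and t₁ = σ Q₁ - Q₁ are in T (n t = σ(n Q) - n Q = 0). σ Q = Q + t, σ Q₁ = Q₁ + t₁. ‖xc(Q₁ + t₁) - xc(Q + t)‖ = ‖σ(xc Q₁ - xc Q)‖ = ‖xc Q₁ - xc Q‖ < ε₀ and ‖xc(Q₁ + t₁) - xc(Q + t₁)‖ < ε₀ (add_close), so ‖xc(Q + t₁) - xc(Q + t)‖ < ε₀ (ultrametric), the same for yc; sep: t = t₁.
The coordinates of rho W σ P: rx, ry in H35Q (xc (rho W g P) = g (xc P)). -/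

open WeierstrassCurve H16C

namespace SSG

open Classical in
theorem c6_ax {K Ω : Type} [Field K] [Field Ω] [Algebra K Ω] {W : WeierstrassCurve.Affine K} (g : Ω ≃ₐ[K] Ω)
    (P : Pt W Ω) : xc (act W Ω g P) = g (xc P) := by
  cases P with
  | zero => exact (map_zero g).symm
  | some x y h => rfl

open Classical in
theorem c6_ay {K Ω : Type} [Field K] [Field Ω] [Algebra K Ω] {W : WeierstrassCurve.Affine K} (g : Ω ≃ₐ[K] Ω)
    (P : Pt W Ω) : yc (act W Ω g P) = g (yc P) := by
  cases P with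
  | zero => exact (map_zero g).symm
  | some x y h => rfl

open Classical in
theorem c6_ane {K Ω : Type} [Field K] [Field Ω] [Algebra K Ω] {W : WeierstrassCurve.Affine K} (g : Ω ≃ₐ[K] Ω)
    {P : Pt W Ω} (h : P ≠ 0) : act W Ω g P ≠ 0 := by
  cases P with
  | zero => exact absurd rfl h
  | some x y h1 => exact WeierstrassCurve.Affine.Point.some_ne_zero _

theorem c6_near {L : Type} [NormedField L] {b b1 : L} {r : ℝ} (hr : 0 ≤ r) (h : ‖b1 ^ 2 - b ^ 2‖ < r ^ 2) : ‖b1 - b‖ < r ∨ ‖b1 + b‖ < r := by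
  by_contra hc
  rw [not_or, not_lt, not_lt] at hc
  have h1 : ‖b1 - b‖ * ‖b1 + b‖ < r ^ 2 := by
    rw [← norm_mul]
    have e : (b1 - b) * (b1 + b) = b1 ^ 2 - b ^ 2 := by ring
    rw [e]
    exact h
  nlinarith [hc.1, hc.2]

theorem c6_tri {L : Type} [NormedField L] [IsUltrametricDist L] {x y z : L} {e : ℝ} (h1 : ‖z - x‖ < e) (h2 : ‖z - y‖ < e) : ‖x - y‖ < e := by
  have e1 : x - y = (z - y) - (z - x) := by ring
  rw [e1]
  exact (c4_sub_le _ _).trans_lt (max_lt h2 h1)

open Classical in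
theorem c6_main {K : Type} [Field K] [CharZero K] {F : Type} [NormedField F] [CharZero F]
    [Algebra K F] (hd : ∀ (x : F) (ε : ℝ), 0 < ε → ∃ y : K, ‖x - algebraMap K F y‖ < ε) {Ω : Type} [Field Ω] [Algebra K Ω] [IsAlgClosed Ω]
    {L : Type} [NormedField L] [IsUltrametricDist L] [CharZero L] [Algebra F L] [IsAlgClosure F L] [Algebra K L] [IsScalarTower K F L]
    (hnorm : ∀ x : F, ‖algebraMap F L x‖ = ‖x‖) (hiso : ∀ (σ : L ≃ₐ[F] L) (x : L), ‖σ x‖ = ‖x‖)
    (ι : Ω →ₐ[K] L) (W : WeierstrassCurve.Affine K) [W.IsShortNF] [W.IsElliptic] (n : ℕ) (hn : 0 < n)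
    (Q : Pt W L) (hQ : ∀ k : ℕ, 0 < k → k ≤ 2 * n → k • Q ≠ 0)
    (hfix : ∀ σ : L ≃ₐ[F] L, act W L (σ.restrictScalars K) (n • Q) = n • Q) :
    ∃ Q' : Pt W Ω, ∀ σ : L ≃ₐ[F] L,
      act W L (σ.restrictScalars K) (WeierstrassCurve.Affine.Point.map ι Q') - WeierstrassCurve.Affine.Point.map ι Q' =
        act W L (σ.restrictScalars K) Q - Q := by
  have hacL : IsAlgClosed L := IsAlgClosure.isAlgClosed F
  have hQ0 : Q ≠ 0 := by
    have := hQ 1 one_pos (by omega)
    rwa [one_nsmul] at this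
  have hnQ : n • Q ≠ 0 := hQ n hn (by omega)
  have hT : ∀ t : Pt W L, t ∈ (tors_finite (WeierstrassCurve.Affine.baseChange W L) n hn).toFinset ↔ n • t = 0 := by
    intro t
    rw [Set.Finite.mem_toFinset]
    rfl
  obtain ⟨T, hTdef⟩ : ∃ T, T = (tors_finite (WeierstrassCurve.Affine.baseChange W L) n hn).toFinset := ⟨_, rfl⟩
  rw [← hTdef] at hT
  have hT1 : ∀ t ∈ T, Q ≠ t ∧ Q ≠ -t := by
    intro t ht
    rw [hT] at ht
    constructor
    · intro h
      exact hnQ (h ▸ ht)
    · intro h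
      apply hnQ
      rw [h, smul_neg, ht, neg_zero]
  have hT2 : ∀ t ∈ T, Q + t ≠ 0 := by
    intro t ht h
    apply (hT1 t ht).2
    exact eq_neg_of_add_eq_zero_left h
  obtain ⟨e0, he0, hsep⟩ := sep (WeierstrassCurve.Affine.baseChange W L) Q T hT2
  obtain ⟨d0, hd0, hadd⟩ := add_close (WeierstrassCurve.Affine.baseChange W L) Q hQ0 T hT1 he0
  obtain ⟨d1, hd1, hdiv⟩ := div_close (WeierstrassCurve.Affine.baseChange W L) n hn Q (fun k h1 h2 => hQ k h1 (by omega)) (lt_min hd0 he0)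
  -- coordinates in F
  have hca : ∀ σ : L ≃ₐ[F] L, σ (xc (n • Q)) = xc (n • Q) := by
    intro σ
    have h1 := c6_ax (σ.restrictScalars K) (n • Q)
    rw [hfix σ] at h1
    exact h1.symm
  have hcb : ∀ σ : L ≃ₐ[F] L, σ (yc (n • Q)) = yc (n • Q) := by
    intro σ
    have h1 := c6_ay (σ.restrictScalars K) (n • Q)
    rw [hfix σ] at h1
    exact h1.symm
  obtain ⟨a0, ha0⟩ := H35Q.fix_mem hca
  have hb0 : yc (n • Q) ≠ 0 := by
    intro h
    have h2 : (2 : L) ≠ 0 := two_ne_zero
    have h3 := (two_smul_eq_zero_iff h2 hnQ).mpr h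
    rw [← mul_smul] at h3
    exact hQ (2 * n) (by omega) le_rfl h3
  have hr : 0 < ‖2 * yc (n • Q)‖ := norm_pos_iff.mpr (mul_ne_zero two_ne_zero hb0)
  have hcont : ContinuousAt (fun x : L => x ^ 3 + (WeierstrassCurve.Affine.baseChange W L).a₄ * x + (WeierstrassCurve.Affine.baseChange W L).a₆)
      (xc (n • Q)) := by fun_prop
  obtain ⟨d2, hd2, hf⟩ := Metric.continuousAt_iff.mp hcont (‖2 * yc (n • Q)‖ ^ 2) (by positivity)
  obtain ⟨y, hy⟩ := hd a0 (min d1 d2) (lt_min hd1 hd2)
  have hya : ‖algebraMap K L y - xc (n • Q)‖ < min d1 d2 := by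
    rw [← ha0, IsScalarTower.algebraMap_apply K F L, ← map_sub, hnorm, norm_sub_rev]
    exact hy
  rw [lt_min_iff] at hya
  obtain ⟨Q1, hQ10, hk, hx1, hy1, hxn, hroot⟩ := hdiv _ hya.1
  obtain ⟨Q', hQ'⟩ := pt_range W ι n hn y Q1 hQ10 hroot
  rw [lt_min_iff] at hx1 hy1
  -- n Q1 is fixed
  have hnQ1 : n • Q1 ≠ 0 := hk n hn le_rfl
  have hE1 := eqn hnQ1
  have hE := eqn hnQ
  rw [hxn] at hE1
  have hnear : ‖yc (n • Q1) ^ 2 - yc (n • Q) ^ 2‖ < ‖2 * yc (n • Q)‖ ^ 2 := by
    rw [hE1, hE]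
    have h3 := hf (show dist (algebraMap K L y) (xc (n • Q)) < d2 by rw [dist_eq_norm]; exact hya.2)
    rw [dist_eq_norm] at h3
    exact h3
  have hfix1 : ∀ σ : L ≃ₐ[F] L, act W L (σ.restrictScalars K) (n • Q1) = n • Q1 := by
    intro σ
    have hK : ∀ z : K, σ (algebraMap K L z) = algebraMap K L z := fun z => (σ.restrictScalars K).commutes z
    have hsq : σ (yc (n • Q1) ^ 2) = yc (n • Q1) ^ 2 := by
      rw [hE1, map_add, map_add, map_mul, map_pow, hK]
      have h4 : σ (WeierstrassCurve.Affine.baseChange W L).a₄ = (WeierstrassCurve.Affine.baseChange W L).a₄ := hK W.a₄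
      have h6 : σ (WeierstrassCurve.Affine.baseChange W L).a₆ = (WeierstrassCurve.Affine.baseChange W L).a₆ := hK W.a₆
      rw [h4, h6]
    have hyy : σ (yc (n • Q1)) = yc (n • Q1) := by
      rcases c6_near hr.le hnear with h5 | h5
      · exact galois_sqrt (σ : L ≃+* L) (hiso σ) (hcb σ) hsq h5
      · have h6 : σ (-(yc (n • Q1))) = -(yc (n • Q1)) := by
          refine galois_sqrt (σ : L ≃+* L) (hiso σ) (hcb σ) (b' := -(yc (n • Q1))) ?_ ?_
          · rw [neg_sq]
            exact hsq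
          · rw [← norm_neg]
            have e : -(-(yc (n • Q1)) - yc (n • Q)) = yc (n • Q1) + yc (n • Q) := by ring
            rw [e]
            exact h5
        rw [map_neg, neg_inj] at h6
        exact h6
    apply pt_ext (c6_ane _ hnQ1) hnQ1
    · rw [c6_ax, hxn]
      exact hK y
    · rw [c6_ay]
      exact hyy
  refine ⟨Q', fun σ => ?_⟩
  rw [hQ']
  obtain ⟨t, ht⟩ : ∃ t, t = act W L (σ.restrictScalars K) Q - Q := ⟨_, rfl⟩
  obtain ⟨t1, ht1⟩ : ∃ t, t = act W L (σ.restrictScalars K) Q1 - Q1 := ⟨_, rfl⟩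
  rw [← ht, ← ht1]
  have htT : t ∈ T := by
    rw [hT, ht, smul_sub, ← map_nsmul, hfix, sub_self]
  have ht1T : t1 ∈ T := by
    rw [hT, ht1, smul_sub, ← map_nsmul, hfix1, sub_self]
  have e1 : Q + t = act W L (σ.restrictScalars K) Q := by rw [ht]; abel
  have e2 : Q1 + t1 = act W L (σ.restrictScalars K) Q1 := by rw [ht1]; abel
  by_contra hne
  obtain ⟨_, hax, hay⟩ := hadd Q1 hQ10 hx1.1 hy1.1 t1 ht1T
  have hiso' : ∀ x y : L, ‖σ x - σ y‖ = ‖x - y‖ := by
    intro x y
    rw [← map_sub, hiso]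
  rcases hsep t htT t1 ht1T (fun h => hne h.symm) with h | h
  · apply absurd h (not_le.mpr _)
    apply c6_tri (z := xc (Q1 + t1)) _ hax
    rw [e1, e2, c6_ax, c6_ax]
    exact (hiso' _ _).trans_lt hx1.2
  · apply absurd h (not_le.mpr _)
    apply c6_tri (z := yc (Q1 + t1)) _ hay
    rw [e1, e2, c6_ay, c6_ay]
    exact (hiso' _ _).trans_lt hy1.2

open Classical in
theorem alg_pt {K : Type} [Field K] [CharZero K] {F : Type} [NontriviallyNormedField F] [IsUltrametricDist F] [CompleteSpace F] [CharZero F]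
    [Algebra K F] (hd : ∀ (x : F) (ε : ℝ), 0 < ε → ∃ y : K, ‖x - algebraMap K F y‖ < ε) {Ω : Type} [Field Ω] [Algebra K Ω] [IsAlgClosed Ω]
    (ι : Ω →ₐ[K] AlgebraicClosure F) (W : WeierstrassCurve.Affine K) [W.IsShortNF] [W.IsElliptic] (n : ℕ) (hn : 0 < n)
    (Q : Pt W (AlgebraicClosure F)) (hQ : ∀ k : ℕ, 0 < k → k ≤ 2 * n → k • Q ≠ 0)
    (hfix : ∀ σ : AlgebraicClosure F ≃ₐ[F] AlgebraicClosure F, act W (AlgebraicClosure F) (σ.restrictScalars K) (n • Q) = n • Q) :
    ∃ Q' : Pt W Ω, ∀ σ : AlgebraicClosure F ≃ₐ[F] AlgebraicClosure F,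
      act W (AlgebraicClosure F) (σ.restrictScalars K) (WeierstrassCurve.Affine.Point.map ι Q') - WeierstrassCurve.Affine.Point.map ι Q' =
        act W (AlgebraicClosure F) (σ.restrictScalars K) Q - Q := by
  letI : NormedField (AlgebraicClosure F) := spectralNorm.normedField F (AlgebraicClosure F)
  have hu : IsUltrametricDist (AlgebraicClosure F) :=
    IsUltrametricDist.isUltrametricDist_of_isNonarchimedean_norm (isNonarchimedean_spectralNorm (K := F) (L := AlgebraicClosure F))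
  exact c6_main (F := F) hd (L := AlgebraicClosure F) (fun x => spectralNorm_extends x) (fun σ x => (spectralNorm_eq_of_equiv σ x).symm) ι W n hn Q hQ hfix

end SSG
end

-- from Lib.H35Q.L5
section

/-! Chunk L5 (M): infinite places. c a cocycle with 3 c = 0, v an infinite place, ι : Ω → AlgebraicClosure v.Completion, I a square root of -1 in Ω. If some τ in Gal(AlgebraicClosure v.Completion / v.Completion) has restriction h (exists_restrict) with h I <> I (so h I = -I), put
Q = map ι (c h); otherwise Q = 0. For σ with restriction g: if g I = I then g = 1 (place_inf) and σ is the identity on the image of ι; c 1 = 0; claim 0 = σ Q - Q (Q is in the image of ι: map ι (act g P) = act σ (map ι P), see TR3_loc in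
H16C/TR3.lean; or: place_inf type argument gives σ = 1, TR2_real, TR2_complex). If g I <> I, then h is defined, h^-1 g fixes I so g = h (place_inf for τ^-1 σ); h h fixes I so h h = 1, 0 = c(h h) = c h + h (c h), so h (c h) - c h = -2 c h = c h (3 c h = 0), map ι. -/

open NumberField IsDedekindDomain

namespace H35Q

open H16C

open Classical in
theorem act_map {K Ω : Type*} [Field K] [Field Ω] [Algebra K Ω] (W : WeierstrassCurve.Affine K) {L : Type*}
    [Field L] [Algebra K L] (ι : Ω →ₐ[K] AlgebraicClosure L) (P : Pt W Ω)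
    (σ : AlgebraicClosure L ≃ₐ[L] AlgebraicClosure L) (g : Ω ≃ₐ[K] Ω) (h : ∀ x, ι (g x) = σ (ι x)) :
    act W (AlgebraicClosure L) (σ.restrictScalars K)
        (WeierstrassCurve.Affine.Point.map ι P : Pt W (AlgebraicClosure L)) =
      WeierstrassCurve.Affine.Point.map ι (act W Ω g P) := by
  unfold act
  rw [WeierstrassCurve.Affine.Point.map_map, WeierstrassCurve.Affine.Point.map_map]
  have h1 : ι.comp (g : Ω →ₐ[K] Ω) =
      ((σ.restrictScalars K : AlgebraicClosure L ≃ₐ[K] AlgebraicClosure L) :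
        AlgebraicClosure L →ₐ[K] AlgebraicClosure L).comp ι := AlgHom.ext h
  rw [h1]

open Classical in
theorem loc_inf {K Ω : Type*} [Field K] [NumberField K] [Field Ω] [Algebra K Ω] [IsAlgClosure K Ω] [CharZero Ω]
    (W : WeierstrassCurve.Affine K) (c : (Ω ≃ₐ[K] Ω) → Pt W Ω) (hc : IsCocycle W Ω c)
    (h3 : ∀ g, (3 : ℕ) • c g = 0) (v : InfinitePlace K) : LocTriv W Ω v.Completion c := by
  intro ι
  have hcl : IsAlgClosed Ω := IsAlgClosure.isAlgClosed K
  obtain ⟨I, hI⟩ := IsAlgClosed.exists_pow_nat_eq (-1 : Ω) (n := 2) (by norm_num)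
  have hneg : ∀ g : Ω ≃ₐ[K] Ω, g I ≠ I → g I = -I := by
    intro g hg
    have h1 : (g I) ^ 2 = I ^ 2 := by rw [← map_pow, hI, map_neg, map_one]
    exact (sq_eq_sq_iff_eq_or_eq_neg.1 h1).resolve_left hg
  have h10 : c 1 = 0 := by
    have h := hc.1 1 1
    have e : act W Ω (1 : Ω ≃ₐ[K] Ω) (c 1) = c 1 := by
      change rho W (1 : Ω ≃ₐ[K] Ω) (c 1) = c 1
      rw [map_one]
      rfl
    rw [mul_one, e] at h
    exact left_eq_add.1 h
  by_cases hex : ∃ (τ : AlgebraicClosure v.Completion ≃ₐ[v.Completion] AlgebraicClosure v.Completion)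
      (h : Ω ≃ₐ[K] Ω), (∀ x, ι (h x) = τ (ι x)) ∧ h I ≠ I
  · obtain ⟨τ, h, hτ, hhI⟩ := hex
    refine ⟨WeierstrassCurve.Affine.Point.map ι (c h), fun σ g hσ => ?_⟩
    rw [act_map W ι (c h) σ g hσ]
    by_cases hg : g I = I
    · have hg1 : g = 1 := place_inf v ι I hI σ g hσ hg
      subst hg1
      have e : act W Ω (1 : Ω ≃ₐ[K] Ω) (c h) = c h := by
        change rho W (1 : Ω ≃ₐ[K] Ω) (c h) = c h
        rw [map_one]
        rfl
      rw [h10, e, map_zero, sub_self]
    · have hinv : ∀ x, ι ((h⁻¹ * g) x) = (τ⁻¹ * σ) (ι x) := by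
        intro x
        apply τ.injective
        have e1 : τ ((τ⁻¹ * σ) (ι x)) = σ (ι x) := τ.apply_symm_apply _
        have e2 : h ((h⁻¹ * g) x) = g x := h.apply_symm_apply _
        rw [e1, ← hτ, e2, hσ]
      have hfix : (h⁻¹ * g) I = I := by
        apply h.injective
        have e2 : h ((h⁻¹ * g) I) = g I := h.apply_symm_apply _
        rw [e2, hneg h hhI, hneg g hg]
      have h1 := place_inf v ι I hI (τ⁻¹ * σ) (h⁻¹ * g) hinv hfix
      have hgh : g = h := (inv_mul_eq_one.1 h1).symm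
      subst hgh
      have hgg : g * g = 1 := by
        refine place_inf v ι I hI (τ * τ) (g * g) (fun x => ?_) ?_
        · change ι (g (g x)) = τ (τ (ι x))
          rw [hτ, hτ]
        · change g (g I) = I
          rw [hneg g hg, map_neg, hneg g hg, neg_neg]
      have h2 := hc.1 g g
      rw [hgg, h10] at h2
      have h4 : act W Ω g (c g) = -(c g) := (neg_eq_of_add_eq_zero_right h2.symm).symm
      rw [h4, ← map_sub]
      congr 1
      have h5 := h3 g
      rw [show (3 : ℕ) = 2 + 1 from rfl, add_nsmul, one_nsmul, two_nsmul] at h5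
      rw [eq_sub_iff_add_eq, eq_neg_iff_add_eq_zero]
      exact h5
  · push Not at hex
    refine ⟨0, fun σ g hσ => ?_⟩
    have hg1 : g = 1 := place_inf v ι I hI σ g hσ (hex σ g hσ)
    subst hg1
    rw [h10, map_zero, map_zero, sub_zero]

end H35Q
end

-- from Lib.SSG.Z.B5
section

/-! Chunk B5 (S/M). Infinite places. Copy of loc_inf in H35Q/L5.lean (n = 3, Q = ι (c h)) for odd n: n = 2 m + 1, Q = ι (m • c h): h (c h) = -c h, so σ Q - Q = m (h c h - c h) = -2 m c h = c h since (2m + 1) c h = 0. In the case g = 1 the claim is 0 = σ Q - Q = ι (1 P - P). -/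

open NumberField IsDedekindDomain H16C

namespace SSG

open Classical in
theorem loc_inf {K : Type} [Field K] [NumberField K] {Ω : Type} [Field Ω] [Algebra K Ω] [IsAlgClosure K Ω] [CharZero Ω]
    (W : WeierstrassCurve.Affine K) (c : (Ω ≃ₐ[K] Ω) → Pt W Ω) (hc : IsCocycle W Ω c) {n : ℕ} (hn : Odd n) (h3 : ∀ g, n • c g = 0)
    (v : InfinitePlace K) : LocTriv W Ω v.Completion c := by
  intro ι
  have hcl : IsAlgClosed Ω := IsAlgClosure.isAlgClosed K
  obtain ⟨I, hI⟩ := IsAlgClosed.exists_pow_nat_eq (-1 : Ω) (n := 2) (by norm_num)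
  have hneg : ∀ g : Ω ≃ₐ[K] Ω, g I ≠ I → g I = -I := by
    intro g hg
    have h1 : (g I) ^ 2 = I ^ 2 := by rw [← map_pow, hI, map_neg, map_one]
    exact (sq_eq_sq_iff_eq_or_eq_neg.1 h1).resolve_left hg
  have e1 : ∀ P : Pt W Ω, act W Ω (1 : Ω ≃ₐ[K] Ω) P = P := by
    intro P
    change rho W (1 : Ω ≃ₐ[K] Ω) P = P
    rw [map_one]
    rfl
  have h10 : c 1 = 0 := by
    have h := hc.1 1 1
    rw [mul_one, e1] at h
    exact left_eq_add.1 h
  by_cases hex : ∃ (τ : AlgebraicClosure v.Completion ≃ₐ[v.Completion] AlgebraicClosure v.Completion)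
      (h : Ω ≃ₐ[K] Ω), (∀ x, ι (h x) = τ (ι x)) ∧ h I ≠ I
  · obtain ⟨τ, h, hτ, hhI⟩ := hex
    obtain ⟨m, hm⟩ := hn
    refine ⟨WeierstrassCurve.Affine.Point.map ι (m • c h), fun σ g hσ => ?_⟩
    rw [H35Q.act_map W ι (m • c h) σ g hσ]
    by_cases hg : g I = I
    · have hg1 : g = 1 := H16C.place_inf v ι I hI σ g hσ hg
      subst hg1
      rw [h10, e1, map_zero, sub_self]
    · have hinv : ∀ x, ι ((h⁻¹ * g) x) = (τ⁻¹ * σ) (ι x) := by
        intro x
        apply τ.injective
        have e1 : τ ((τ⁻¹ * σ) (ι x)) = σ (ι x) := τ.apply_symm_apply _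
        have e2 : h ((h⁻¹ * g) x) = g x := h.apply_symm_apply _
        rw [e1, ← hτ, e2, hσ]
      have hfix : (h⁻¹ * g) I = I := by
        apply h.injective
        have e2 : h ((h⁻¹ * g) I) = g I := h.apply_symm_apply _
        rw [e2, hneg h hhI, hneg g hg]
      have h1 := H16C.place_inf v ι I hI (τ⁻¹ * σ) (h⁻¹ * g) hinv hfix
      have hgh : g = h := (inv_mul_eq_one.1 h1).symm
      subst hgh
      have hgg : g * g = 1 := by
        refine H16C.place_inf v ι I hI (τ * τ) (g * g) (fun x => ?_) ?_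
        · change ι (g (g x)) = τ (τ (ι x))
          rw [hτ, hτ]
        · change g (g I) = I
          rw [hneg g hg, map_neg, hneg g hg, neg_neg]
      have h2 := hc.1 g g
      rw [hgg, h10] at h2
      have h4 : act W Ω g (c g) = -(c g) := (neg_eq_of_add_eq_zero_right h2.symm).symm
      rw [map_nsmul, h4, ← map_sub]
      congr 1
      have h5 := h3 g
      rw [hm, add_nsmul, one_nsmul, mul_nsmul, two_nsmul, nsmul_add] at h5
      rw [eq_sub_iff_add_eq, smul_neg, eq_neg_iff_add_eq_zero]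
      rw [← h5]
      abel
  · push Not at hex
    refine ⟨0, fun σ g hσ => ?_⟩
    have hg1 : g = 1 := H16C.place_inf v ι I hI σ g hσ (hex σ g hσ)
    subst hg1
    rw [h10, map_zero, map_zero, sub_zero]

end SSG
end

-- from Lib.SSG.Z.B0
section

/-! # SSG/Z: the bridge between completions and valuation rings: definitions -/

open NumberField IsDedekindDomain WeierstrassCurve H16C
open scoped WithZero

namespace SSG

/-- The p-primary part of the Tate-Shafarevich group of W over K (the same as H19A.ShaP). -/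
def ShaC (p : ℕ) (K : Type) [Field K] [NumberField K] (W : WeierstrassCurve K) : Type _ :=
  {z : H16C.Sha W.toAffine (AlgebraicClosure K) // ∃ k : ℕ, (p ^ k : ℕ) • z = 0}

/-- The absolute value of the algebraic closure of the completion at v. -/
noncomputable def nv {K : Type} [Field K] [NumberField K] (v : HeightOneSpectrum (𝓞 K)) (x : AlgebraicClosure (v.adicCompletion K)) : ℝ :=
  letI : NontriviallyNormedField (v.adicCompletion K) := Valued.toNontriviallyNormedField (v.adicCompletion K) ℤᵐ⁰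
  spectralNorm (v.adicCompletion K) (AlgebraicClosure (v.adicCompletion K)) x

/-- The valuation ring of Ω attached to an embedding into the algebraic closure of the completion at v. -/
def IsVal {K : Type} [Field K] [NumberField K] {Ω : Type} [Field Ω] [Algebra K Ω] (v : HeightOneSpectrum (𝓞 K))
    (ι : Ω →ₐ[K] AlgebraicClosure (v.adicCompletion K)) (V : ValuationSubring Ω) : Prop := ∀ x : Ω, x ∈ V ↔ nv v (ι x) ≤ 1

open Classical in
/-- c is trivial on the decomposition groups of the nontrivial valuation rings. -/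
def TrivV {K : Type} [Field K] (W : WeierstrassCurve.Affine K) (Ω : Type) [Field Ω] [Algebra K Ω] (c : (Ω ≃ₐ[K] Ω) → Pt W Ω) : Prop :=
  ∀ V : ValuationSubring Ω, V ≠ ⊤ → ∃ P : Pt W Ω, ∀ g : Ω ≃ₐ[K] Ω, H55P.Dec V g → c g = act W Ω g P - P

end SSG
end

-- from Lib.SSG.Z.B1
section

/-! Chunk B1 (M). Two valuation rings of Ω with the same trace on K are conjugate. IsGalois K Ω (IsAlgClosure.isGalois). If V ≠ ⊤ (and V' ≠ ⊤; if one is ⊤ then K ⊆ the other and both are ⊤: every x in Ω is algebraic over K, hence integral over K ⊆ V', V' is integrally closed; then g = 1).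
PROOF. Q = the prime ideal of 𝓞 Ω of the z with V.valuation z < 1 (ps9Q, ps9_lt, ps9_prime in H55P/S9.lean, namespace H55P), Q' the same for V'. Their intersections with 𝓞 K agree: z in 𝓞 K, z ≠ 0: z in Q iff z⁻¹ not in V, z⁻¹ in K (ValuationSubring.valuation_lt_one_iff or H55P.lt1_iff).
ST32.exists_smul_eq (CFT/N01.lean) gives g with x in Q iff g x in Q' (or for Q', Q). V is determined by Q: ps9_frac (q a prime number with V.valuation q < 1: exists because V ≠ ⊤, otherwise all prime numbers are units in V, 𝓞 Ω-elements nonzero divide integers (norm), so all of Ω = fractions of 𝓞 Ω is in V): every x in V is a/c with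
a, c in 𝓞 Ω, V.valuation c = 1, i.e. c not in Q (ps9_one); g maps it to (g a)/(g c), g c not in Q', so g x in V' (see ps9_dec in H55P/S9.lean). The converse with g⁻¹. -/

open NumberField IsDedekindDomain

namespace SSG

theorem b1_top {K : Type} [Field K] {Ω : Type} [Field Ω] [Algebra K Ω] [Algebra.IsAlgebraic K Ω] (V : ValuationSubring Ω)
    (h : ∀ x : K, algebraMap K Ω x ∈ V) (x : Ω) : x ∈ V := by
  let φ : K →+* V := (algebraMap K Ω).codRestrict V h
  obtain ⟨f, hf, hfx⟩ : IsIntegral K x := Algebra.IsIntegral.isIntegral x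
  have h1 : IsIntegral V x := by
    refine ⟨f.map φ, hf.map φ, ?_⟩
    rw [Polynomial.eval₂_map]
    exact hfx
  obtain ⟨y, hy⟩ := IsIntegrallyClosed.isIntegral_iff.1 h1
  rw [← hy]
  exact y.2

theorem b1_exists_prime {K : Type} [Field K] [NumberField K] {Ω : Type} [Field Ω] [Algebra K Ω] [Algebra.IsAlgebraic K Ω]
    [CharZero Ω] (V : ValuationSubring Ω) (hV : ∃ x, x ∉ V) : ∃ q : ℕ, q.Prime ∧ V.valuation (q : Ω) < 1 := by
  by_contra hcon
  push Not at hcon
  obtain ⟨x, hx⟩ := hV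
  apply hx
  have hle : ∀ n : ℕ, V.valuation (n : Ω) ≤ 1 := fun n => (V.valuation_le_one_iff _).2 (natCast_mem V n)
  have hn : ∀ n : ℕ, n ≠ 0 → V.valuation (n : Ω) = 1 := by
    intro n
    induction n using induction_on_primes with
    | zero => intro h; exact absurd rfl h
    | one => intro _; rw [Nat.cast_one, map_one]
    | prime_mul p a hp ih =>
      intro h
      have ha : a ≠ 0 := by
        rintro rfl
        exact h (mul_zero _)
      rw [Nat.cast_mul, map_mul, ih ha, mul_one]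
      exact le_antisymm (hle p) (hcon p hp)
  have halg : Algebra.IsAlgebraic ℚ Ω := Algebra.IsAlgebraic.trans ℚ K Ω
  have hx1 : IsAlgebraic ℤ x := (IsFractionRing.isAlgebraic_iff ℤ ℚ Ω).2 (Algebra.IsAlgebraic.isAlgebraic x)
  obtain ⟨d, hd0, hd⟩ := hx1.exists_integral_multiple
  have h1 : V.valuation (d • x) ≤ 1 := H16C.FR_le_one V hd
  have h2 : V.valuation (d : Ω) = 1 := by
    rcases Int.natAbs_eq d with h3 | h3
    · rw [h3, Int.cast_natCast]
      exact hn _ (Int.natAbs_ne_zero.2 hd0)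
    · rw [h3, Int.cast_neg, Int.cast_natCast, Valuation.map_neg]
      exact hn _ (Int.natAbs_ne_zero.2 hd0)
  rw [zsmul_eq_mul, map_mul, h2, one_mul] at h1
  exact (V.valuation_le_one_iff _).1 h1

theorem conj_V {K : Type} [Field K] [NumberField K] {Ω : Type} [Field Ω] [Algebra K Ω] [IsAlgClosed Ω] [Algebra.IsAlgebraic K Ω] [CharZero Ω]
    (V V' : ValuationSubring Ω) (h : ∀ x : K, algebraMap K Ω x ∈ V ↔ algebraMap K Ω x ∈ V') :
    ∃ g : Ω ≃ₐ[K] Ω, ∀ x : Ω, g x ∈ V ↔ x ∈ V' := by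
  classical
  by_cases hV : ∃ x, x ∉ V
  swap
  · push Not at hV
    have h1 : ∀ x, x ∈ V' := b1_top V' (fun x => (h x).1 (hV _))
    exact ⟨1, fun x => ⟨fun _ => h1 x, fun _ => hV _⟩⟩
  by_cases hV' : ∃ x, x ∉ V'
  swap
  · push Not at hV'
    have h1 : ∀ x, x ∈ V := b1_top V (fun x => (h x).2 (hV' _))
    exact ⟨1, fun x => ⟨fun _ => hV' x, fun _ => h1 _⟩⟩
  have hcl : IsAlgClosure K Ω := ⟨inferInstance, inferInstance⟩
  have hG : IsGalois K Ω := IsAlgClosure.isGalois K Ω
  obtain ⟨q', hq', hVq'⟩ := b1_exists_prime (K := K) V' hV'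
  have hcomap : (H55P.ps9Q V').comap (algebraMap (𝓞 K) (𝓞 Ω)) = (H55P.ps9Q V).comap (algebraMap (𝓞 K) (𝓞 Ω)) := by
    ext z
    rw [Ideal.mem_comap, Ideal.mem_comap, H55P.ps9_lt, H55P.ps9_lt, H55P.lt1_iff, H55P.lt1_iff]
    have h1 : ((algebraMap (𝓞 K) (𝓞 Ω) z : 𝓞 Ω) : Ω) = algebraMap K Ω (z : K) := rfl
    rw [h1, ← map_inv₀, h]
  obtain ⟨g, hg⟩ := ST32.exists_smul_eq K Ω (H55P.ps9Q V') (H55P.ps9Q V) (H55P.ps9_prime V') (H55P.ps9_prime V) hcomap
  have hgz : ∀ z : 𝓞 Ω, ((g • z : 𝓞 Ω) : Ω) = g (z : Ω) := fun z => rfl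
  have hone : ∀ c : 𝓞 Ω, V'.valuation (c : Ω) = 1 → V.valuation (g (c : Ω)) = 1 := by
    intro c hc
    have h1 := (H55P.ps9_one V' c).2 hc
    rw [← hgz]
    exact (H55P.ps9_one V _).1 (fun h2 => h1 ((hg c).2 h2))
  have hle : ∀ a : 𝓞 Ω, V.valuation (g (a : Ω)) ≤ 1 := by
    intro a
    rw [← hgz]
    exact (V.valuation_le_one_iff _).2 (H55P.ps9_mem V _)
  refine ⟨g, fun x => ⟨fun hx => ?_, fun hx => ?_⟩⟩
  · by_contra hx'
    have hx0 : x ≠ 0 := by
      rintro rfl
      exact hx' V'.zero_mem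
    have h1 : V'.valuation x⁻¹ < 1 := by
      rw [H55P.lt1_iff, inv_inv]
      exact Or.inr hx'
    obtain ⟨a, c, hc, hac⟩ := H55P.ps9_frac K V' q' hq' hVq' x⁻¹ ((V'.valuation_le_one_iff _).1 h1.le)
    have ha : V'.valuation (a : Ω) < 1 := by
      rw [hac, map_div₀, hc, div_one] at h1
      exact h1
    have ha2 : V.valuation (g (a : Ω)) < 1 := by
      rw [← hgz]
      exact (H55P.ps9_lt V _).1 ((hg a).1 ((H55P.ps9_lt V' a).2 ha))
    have h3 : V.valuation (g x)⁻¹ < 1 := by
      rw [← map_inv₀, hac, map_div₀, map_div₀, hone c hc, div_one]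
      exact ha2
    rw [H55P.lt1_iff, inv_inv] at h3
    rcases h3 with h3 | h3
    · rw [inv_eq_zero, map_eq_zero] at h3
      exact hx0 h3
    · exact h3 hx
  · obtain ⟨a, c, hc, rfl⟩ := H55P.ps9_frac K V' q' hq' hVq' x hx
    rw [← V.valuation_le_one_iff, map_div₀, map_div₀, hone c hc, div_one]
    exact hle a

end SSG
end

-- from Lib.SSG.Z.B2
section

/-! Chunk B2 (M). exists_iota: every nontrivial valuation ring V of Ω comes from an embedding ι into the algebraic closure of a completion K_v.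
PROOF. V₀ = V ∩ K (V.comap (algebraMap K Ω)) is a valuation ring of K, not K itself (otherwise Ω, algebraic over K, would be integral over K ⊆ V, V integrally closed, V = ⊤). 𝓞 K ⊆ V₀ (integral elements); P = the nonunits of V₀ in 𝓞 K, a nonzero prime ideal = v (nonzero: otherwise all nonzero integers are units, V₀ = K);
for x in K: x in V₀ iff v.valuation K x ≤ 1: (if v x ≤ 1 then x = a/b with a, b in 𝓞 K, b not in v: IsDedekindDomain.HeightOneSpectrum.. / H16C.frac_rep or IsLocalization at v; so x in V₀; if v x > 1 then v x⁻¹ < 1, x⁻¹ = a/b with a in v, b not in v, so x⁻¹ is a nonunit of V₀, x not in V₀).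
ι₀ = IsAlgClosed.lift : Ω →ₐ[K] AlgebraicClosure K_v; the ring V₁ = {x | nv v (ι₀ x) ≤ 1} is a valuation ring ((TR1_val ..).comap ι₀).valuationSubring, see H16F/E7.lean (first 50 lines, the letI / haveI instances) and its trace on K is the same: nv v (algebraMap x) = ‖x‖_v (spectralNorm_extends), ≤ 1 iff v.valuation K x ≤ 1
(Valued.toNormedField.norm_le_one_iff, valuedAdicCompletion_eq_valuation'). conj_V (B1) gives g with g x in V₁ iff x in V; ι = ι₀ ∘ g.
exists_val: for given v, ι the valuation ring of IsVal exists (the same construction) and is not ⊤ (v contains a prime number q, nv (q⁻¹) > 1). -/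

open NumberField IsDedekindDomain WeierstrassCurve H16C

namespace SSG

open scoped WithZero

theorem b2_lt {Γ : Type*} [LinearOrderedCommGroupWithZero Γ] {a b : Γ} (ha : a ≤ 1) (hb : b < 1) : a * b < 1 :=
  (mul_le_mul_left ha b).trans_lt (by rwa [one_mul])

theorem b2_nv {K : Type} [Field K] [NumberField K] (v : HeightOneSpectrum (𝓞 K)) (x : K) :
    nv v (algebraMap K (AlgebraicClosure (v.adicCompletion K)) x) ≤ 1 ↔ v.valuation K x ≤ 1 := by
  letI : NontriviallyNormedField (v.adicCompletion K) :=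
    Valued.toNontriviallyNormedField (v.adicCompletion K) ℤᵐ⁰
  haveI : IsUltrametricDist (v.adicCompletion K) :=
    Valued.instIsUltrametricDist (v.adicCompletion K) ℤᵐ⁰
  show spectralNorm (v.adicCompletion K) (AlgebraicClosure (v.adicCompletion K)) _ ≤ 1 ↔ _
  have h1 : algebraMap K (AlgebraicClosure (v.adicCompletion K)) x =
      algebraMap (v.adicCompletion K) (AlgebraicClosure (v.adicCompletion K))
        (algebraMap K (v.adicCompletion K) x) :=
    IsScalarTower.algebraMap_apply _ _ _ _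
  rw [h1, spectralNorm_extends, Valued.toNormedField.norm_le_one_iff]
  rw [← v.valuedAdicCompletion_eq_valuation' (K := K) x]
  rfl

theorem b2_val {K : Type} [Field K] [NumberField K] {Ω : Type} [Field Ω] [Algebra K Ω] (v : HeightOneSpectrum (𝓞 K))
    (ι : Ω →ₐ[K] AlgebraicClosure (v.adicCompletion K)) : ∃ V : ValuationSubring Ω, IsVal v ι V := by
  letI : NontriviallyNormedField (v.adicCompletion K) :=
    Valued.toNontriviallyNormedField (v.adicCompletion K) ℤᵐ⁰
  haveI : IsUltrametricDist (v.adicCompletion K) :=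
    Valued.instIsUltrametricDist (v.adicCompletion K) ℤᵐ⁰
  refine ⟨((TR1_val (v.adicCompletion K)
    (AlgebraicClosure (v.adicCompletion K))).comap ι.toRingHom).valuationSubring, fun x => ?_⟩
  rw [Valuation.mem_valuationSubring_iff]
  rfl

theorem b2_int {K : Type} [Field K] {Ω : Type} [Field Ω] [Algebra K Ω] [Algebra.IsAlgebraic K Ω] (V : ValuationSubring Ω)
    (h : ∀ x : K, algebraMap K Ω x ∈ V) : V = ⊤ := by
  ext x
  refine ⟨fun _ => trivial, fun _ => ?_⟩
  obtain ⟨f, hf⟩ : ∃ f : K →+* V, (algebraMap V Ω).comp f = algebraMap K Ω :=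
    ⟨(algebraMap K Ω).codRestrict V.toSubring h, rfl⟩
  have h1 : (algebraMap K Ω).IsIntegralElem x := Algebra.IsIntegral.isIntegral (R := K) x
  rw [← hf] at h1
  have h2 : IsIntegral V x := h1.of_comp
  obtain ⟨y, hy⟩ := (IsIntegrallyClosed.isIntegral_iff (R := V) (K := Ω)).1 h2
  rw [← hy]
  exact y.2

theorem b2_O {K : Type} [Field K] [NumberField K] {Ω : Type} [Field Ω] [Algebra K Ω] (V : ValuationSubring Ω)
    (z : 𝓞 K) : V.valuation (algebraMap K Ω (algebraMap (𝓞 K) K z)) ≤ 1 := by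
  rw [ValuationSubring.valuation_le_one_iff]
  have h0 : IsIntegral ℤ (algebraMap K Ω (algebraMap (𝓞 K) K z)) := (RingOfIntegers.isIntegral_coe z).algebraMap
  have h2 : IsIntegral V (algebraMap K Ω (algebraMap (𝓞 K) K z)) := h0.tower_top
  obtain ⟨y, hy⟩ := (IsIntegrallyClosed.isIntegral_iff (R := V) (K := Ω)).1 h2
  rw [← hy]
  exact y.2

/-- the trace of a valuation ring on the number field. -/
theorem b2_trace {K : Type} [Field K] [NumberField K] {Ω : Type} [Field Ω] [Algebra K Ω] [Algebra.IsAlgebraic K Ω]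
    (V : ValuationSubring Ω) (hV : V ≠ ⊤) :
    ∃ v : HeightOneSpectrum (𝓞 K), ∀ x : K, algebraMap K Ω x ∈ V ↔ v.valuation K x ≤ 1 := by
  obtain ⟨w, hw⟩ : ∃ w : Valuation K V.ValueGroup, w = V.valuation.comap (algebraMap K Ω) := ⟨_, rfl⟩
  have hwx : ∀ x : K, w x = V.valuation (algebraMap K Ω x) := fun x => by rw [hw]; rfl
  have hmem : ∀ x : K, algebraMap K Ω x ∈ V ↔ w x ≤ 1 := fun x => by
    rw [hwx, ValuationSubring.valuation_le_one_iff]
  have hO : ∀ z : 𝓞 K, w (algebraMap (𝓞 K) K z) ≤ 1 := fun z => by rw [hwx]; exact b2_O V z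
  -- the prime
  let P : Ideal (𝓞 K) :=
    { carrier := {z | w (algebraMap (𝓞 K) K z) < 1}
      add_mem' := by
        intro a b ha hb
        show w (algebraMap (𝓞 K) K (a + b)) < 1
        rw [map_add]
        exact (w.map_add _ _).trans_lt (max_lt ha hb)
      zero_mem' := by
        show w (algebraMap (𝓞 K) K 0) < 1
        rw [map_zero, map_zero]
        exact zero_lt_one
      smul_mem' := by
        intro c z hz
        show w (algebraMap (𝓞 K) K (c * z)) < 1
        rw [map_mul, map_mul]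
        exact b2_lt (hO c) hz }
  have hP : ∀ z, z ∈ P ↔ w (algebraMap (𝓞 K) K z) < 1 := fun z => Iff.rfl
  have hP1 : ∀ z, z ∉ P → w (algebraMap (𝓞 K) K z) = 1 := fun z hz => le_antisymm (hO z) (not_lt.1 hz)
  have hprime : P.IsPrime := by
    constructor
    · rw [Ideal.ne_top_iff_one, hP, map_one, map_one]
      exact lt_irrefl _
    · intro a b hab
      by_contra hc
      push Not at hc
      have h1 := hP1 a hc.1
      have h2 := hP1 b hc.2
      rw [hP, map_mul, map_mul, h1, h2, one_mul] at hab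
      exact lt_irrefl _ hab
  have hbot : P ≠ ⊥ := by
    intro hb
    apply hV
    apply b2_int (K := K) V
    intro x
    obtain ⟨a, b, hb0, hx⟩ := IsFractionRing.div_surjective (A := 𝓞 K) x
    have hb' : b ≠ 0 := nonZeroDivisors.ne_zero hb0
    have h1 : w (algebraMap (𝓞 K) K b) = 1 := hP1 b (by rw [hb]; exact hb')
    rw [hmem, ← hx, map_div₀, h1, div_one]
    exact hO a
  obtain ⟨v, hv⟩ : ∃ v : HeightOneSpectrum (𝓞 K), v.asIdeal = P := ⟨⟨P, hprime, hbot⟩, rfl⟩
  refine ⟨v, fun x => ?_⟩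
  rw [hmem]
  obtain ⟨n, d, h | h⟩ := HeightOneSpectrum.exists_primeCompl_mul_eq_or_mul_eq v x
  · have hd : (d : 𝓞 K) ∉ P := by rw [← hv]; exact d.2
    have e1 := congrArg w h
    have e2 := congrArg (v.valuation K) h
    rw [map_mul, hP1 _ hd, mul_one] at e1
    rw [map_mul, v.valuation_eq_one_iff_notMem.2 d.2, mul_one] at e2
    rw [e1, e2]
    exact ⟨fun _ => v.valuation_le_one n, fun _ => hO n⟩
  · have hd : (d : 𝓞 K) ∉ P := by rw [← hv]; exact d.2
    have e1 := congrArg w h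
    have e2 := congrArg (v.valuation K) h
    rw [map_mul, hP1 _ hd] at e1
    rw [map_mul, v.valuation_eq_one_iff_notMem.2 d.2] at e2
    by_cases hn : n ∈ P
    · have h1 : w (algebraMap (𝓞 K) K n) < 1 := hn
      have h2 : v.valuation K (algebraMap (𝓞 K) K n) < 1 := (v.valuation_lt_one_iff_mem (K := K) n).2 (by rw [hv]; exact hn)
      constructor
      · intro h3
        exact absurd e1 (b2_lt h3 h1).ne
      · intro h3
        exact absurd e2 (b2_lt h3 h2).ne
    · rw [hP1 n hn, mul_one] at e1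
      rw [v.valuation_eq_one_iff_notMem.2 (by rw [hv]; exact hn), mul_one] at e2
      rw [e1, e2]
      exact ⟨fun _ => le_rfl, fun _ => le_rfl⟩

theorem exists_val {K : Type} [Field K] [NumberField K] {Ω : Type} [Field Ω] [Algebra K Ω] (v : HeightOneSpectrum (𝓞 K))
    (ι : Ω →ₐ[K] AlgebraicClosure (v.adicCompletion K)) : ∃ V : ValuationSubring Ω, V ≠ ⊤ ∧ IsVal v ι V := by
  obtain ⟨V, hV⟩ := b2_val v ι
  refine ⟨V, ?_, hV⟩
  intro htop
  obtain ⟨z, hz, hz0⟩ := Submodule.exists_mem_ne_zero_of_ne_bot v.ne_bot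
  have hz0' : (algebraMap (𝓞 K) K z) ≠ 0 := by
    intro h
    exact hz0 ((FaithfulSMul.algebraMap_injective (𝓞 K) K) (h.trans (map_zero _).symm))
  have h1 : v.valuation K (algebraMap (𝓞 K) K z) < 1 := (v.valuation_lt_one_iff_mem (K := K) z).2 hz
  have h2 : algebraMap K Ω (algebraMap (𝓞 K) K z)⁻¹ ∈ V := by rw [htop]; trivial
  rw [hV, ι.commutes, b2_nv, map_inv₀] at h2
  have h3 : v.valuation K (algebraMap (𝓞 K) K z) ≠ 0 := (Valuation.ne_zero_iff _).2 hz0'
  have h4 : (v.valuation K (algebraMap (𝓞 K) K z))⁻¹ * v.valuation K (algebraMap (𝓞 K) K z) < 1 := by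
    calc _ ≤ 1 * v.valuation K (algebraMap (𝓞 K) K z) := mul_le_mul_left h2 _
      _ < 1 := by rwa [one_mul]
  rw [inv_mul_cancel₀ h3] at h4
  exact lt_irrefl _ h4

theorem exists_iota {K : Type} [Field K] [NumberField K] {Ω : Type} [Field Ω] [Algebra K Ω] [IsAlgClosed Ω] [Algebra.IsAlgebraic K Ω] [CharZero Ω]
    (V : ValuationSubring Ω) (hV : V ≠ ⊤) :
    ∃ (v : HeightOneSpectrum (𝓞 K)) (ι : Ω →ₐ[K] AlgebraicClosure (v.adicCompletion K)), IsVal v ι V := by
  obtain ⟨v, hv⟩ := b2_trace (K := K) V hV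
  obtain ⟨ι₀⟩ : Nonempty (Ω →ₐ[K] AlgebraicClosure (v.adicCompletion K)) := ⟨IsAlgClosed.lift⟩
  obtain ⟨V₁, hV₁⟩ := b2_val v ι₀
  obtain ⟨g, hg⟩ := conj_V (K := K) V₁ V (fun x => by
    rw [hv, hV₁, ι₀.commutes, b2_nv])
  refine ⟨v, ι₀.comp (g : Ω →ₐ[K] Ω), fun x => ?_⟩
  rw [← hg x, hV₁]
  rfl

end SSG
end

-- from Lib.SSG.Z.B3
section

/-! Chunk B3 (M). Decomposition groups and isometries. nv v is multiplicative and ultrametric, nv v (σ x) = nv v x for σ over K_v (spectralNorm_eq_of_equiv), nv v x = 0 iff x = 0: see H16C/TR1.lean (TR1_val) and H16F/E7.lean for the letI / haveI instances.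
ext_of_dec: g in Dec V (g x in V iff x in V). CLAIM nv (ι (g x)) ≤ nv (ι x) for all x (then also for g⁻¹, so equality). x = 0 clear. Suppose nv(ι(g x)) > nv(ι x) > 0. Choose π in K with 0 < nv π < 1 (a nonzero element of v) and k with (nv(ι(g x))/nv(ι x))^k > 1/nv π. Choose an integer j with nv(ι x)^k ≤ (nv π)^j < nv(ι x)^k / nv π
(exists_mem_Ico_zpow or similar) and z = x^k / π^j: nv(ι z) ≤ 1, so z in V, g z in V, but nv(ι(g z)) = nv(ι(g x))^k / (nv π)^j > nv(ι(g x))^k nv π / nv(ι x)^k > 1, contradiction. Now H16F.exists_ext with H16F.dense_adic v.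
dec_of_ext: nv(ι(g x)) = nv(σ(ι x)) = nv(ι x). -/

open NumberField IsDedekindDomain WeierstrassCurve H16C

namespace SSG

open scoped WithZero

section gen

variable {K : Type} [Field K] [NumberField K] (v : HeightOneSpectrum (𝓞 K))

theorem b3_mul (x y : AlgebraicClosure (v.adicCompletion K)) : nv v (x * y) = nv v x * nv v y := by
  letI : NontriviallyNormedField (v.adicCompletion K) :=
    Valued.toNontriviallyNormedField (v.adicCompletion K) ℤᵐ⁰
  haveI : IsUltrametricDist (v.adicCompletion K) :=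
    Valued.instIsUltrametricDist (v.adicCompletion K) ℤᵐ⁰
  exact congrArg (fun t : NNReal => (t : ℝ))
    (map_mul (TR1_val (v.adicCompletion K) (AlgebraicClosure (v.adicCompletion K))) x y)

theorem b3_one : nv v (1 : AlgebraicClosure (v.adicCompletion K)) = 1 := by
  letI : NontriviallyNormedField (v.adicCompletion K) :=
    Valued.toNontriviallyNormedField (v.adicCompletion K) ℤᵐ⁰
  haveI : IsUltrametricDist (v.adicCompletion K) :=
    Valued.instIsUltrametricDist (v.adicCompletion K) ℤᵐ⁰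
  exact congrArg (fun t : NNReal => (t : ℝ))
    (map_one (TR1_val (v.adicCompletion K) (AlgebraicClosure (v.adicCompletion K))))

theorem b3_nonneg (x : AlgebraicClosure (v.adicCompletion K)) : 0 ≤ nv v x := by
  letI : NontriviallyNormedField (v.adicCompletion K) :=
    Valued.toNontriviallyNormedField (v.adicCompletion K) ℤᵐ⁰
  haveI : IsUltrametricDist (v.adicCompletion K) :=
    Valued.instIsUltrametricDist (v.adicCompletion K) ℤᵐ⁰
  exact ((TR1_val (v.adicCompletion K) (AlgebraicClosure (v.adicCompletion K))) x).2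

theorem b3_zero : nv v (0 : AlgebraicClosure (v.adicCompletion K)) = 0 := by
  letI : NontriviallyNormedField (v.adicCompletion K) :=
    Valued.toNontriviallyNormedField (v.adicCompletion K) ℤᵐ⁰
  haveI : IsUltrametricDist (v.adicCompletion K) :=
    Valued.instIsUltrametricDist (v.adicCompletion K) ℤᵐ⁰
  exact congrArg (fun t : NNReal => (t : ℝ))
    (map_zero (TR1_val (v.adicCompletion K) (AlgebraicClosure (v.adicCompletion K))))

theorem b3_pos {x : AlgebraicClosure (v.adicCompletion K)} (hx : x ≠ 0) : 0 < nv v x := by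
  refine lt_of_le_of_ne (b3_nonneg v x) ?_
  intro h
  have h1 : nv v (x * x⁻¹) = 0 := by rw [b3_mul, ← h, zero_mul]
  rw [mul_inv_cancel₀ hx, b3_one] at h1
  exact one_ne_zero h1

theorem b3_equiv (σ : AlgebraicClosure (v.adicCompletion K) ≃ₐ[v.adicCompletion K]
    AlgebraicClosure (v.adicCompletion K)) (x : AlgebraicClosure (v.adicCompletion K)) :
    nv v (σ x) = nv v x := by
  letI : NontriviallyNormedField (v.adicCompletion K) :=
    Valued.toNontriviallyNormedField (v.adicCompletion K) ℤᵐ⁰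
  haveI : IsUltrametricDist (v.adicCompletion K) :=
    Valued.instIsUltrametricDist (v.adicCompletion K) ℤᵐ⁰
  exact (spectralNorm_eq_of_equiv σ x).symm

/-- The absolute value as a monoid homomorphism. -/
noncomputable def b3_hom : AlgebraicClosure (v.adicCompletion K) →*₀ ℝ where
  toFun := nv v
  map_zero' := b3_zero v
  map_one' := b3_one v
  map_mul' := b3_mul v

theorem b3_hom_apply (x : AlgebraicClosure (v.adicCompletion K)) : b3_hom v x = nv v x := rfl

/-- An element of K with absolute value between 0 and 1. -/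
theorem b3_unif : ∃ π : K, π ≠ 0 ∧
    nv v (algebraMap K (AlgebraicClosure (v.adicCompletion K)) π) < 1 := by
  letI : NontriviallyNormedField (v.adicCompletion K) :=
    Valued.toNontriviallyNormedField (v.adicCompletion K) ℤᵐ⁰
  haveI : IsUltrametricDist (v.adicCompletion K) :=
    Valued.instIsUltrametricDist (v.adicCompletion K) ℤᵐ⁰
  obtain ⟨π0, hπ0⟩ := v.valuation_exists_uniformizer K
  have hπ : Valued.v (algebraMap K (v.adicCompletion K) π0) = WithZero.exp (-1 : ℤ) := by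
    rw [← hπ0]
    exact HeightOneSpectrum.valuedAdicCompletion_eq_valuation' v π0
  refine ⟨π0, ?_, ?_⟩
  · rintro rfl
    rw [map_zero, map_zero] at hπ
    exact WithZero.exp_ne_zero hπ.symm
  · have h1 : algebraMap K (AlgebraicClosure (v.adicCompletion K)) π0 =
        algebraMap (v.adicCompletion K) (AlgebraicClosure (v.adicCompletion K))
          (algebraMap K (v.adicCompletion K) π0) :=
      IsScalarTower.algebraMap_apply _ _ _ _
    rw [h1]
    have h2 : nv v (algebraMap (v.adicCompletion K) (AlgebraicClosure (v.adicCompletion K))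
        (algebraMap K (v.adicCompletion K) π0)) = ‖algebraMap K (v.adicCompletion K) π0‖ :=
      spectralNorm_extends _
    rw [h2]
    refine Valued.toNormedField.norm_lt_one_iff.2 ?_
    rw [hπ, ← WithZero.exp_zero, WithZero.exp_lt_exp]
    omega

end gen

theorem b3_le {K : Type} [Field K] [NumberField K] {Ω : Type} [Field Ω] [Algebra K Ω] {v : HeightOneSpectrum (𝓞 K)}
    {ι : Ω →ₐ[K] AlgebraicClosure (v.adicCompletion K)} {V : ValuationSubring Ω} (hV : IsVal v ι V) {g : Ω ≃ₐ[K] Ω} (hg : H55P.Dec V g)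
    (x : Ω) : nv v (ι (g x)) ≤ nv v (ι x) := by
  by_contra hlt
  rw [not_le] at hlt
  have hx : x ≠ 0 := by
    rintro rfl
    simp only [map_zero] at hlt
    exact lt_irrefl _ hlt
  have ha : 0 < nv v (ι x) := b3_pos v ((map_ne_zero ι).2 hx)
  obtain ⟨π, hπ0, hπ1⟩ := b3_unif v
  have hc : 0 < nv v (algebraMap K (AlgebraicClosure (v.adicCompletion K)) π) :=
    b3_pos v ((map_ne_zero _).2 hπ0)
  obtain ⟨c, hcd⟩ : ∃ c : ℝ, c = (nv v (algebraMap K (AlgebraicClosure (v.adicCompletion K)) π))⁻¹ :=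
    ⟨_, rfl⟩
  have hc1 : 1 < c := by
    rw [hcd]
    exact (one_lt_inv₀ hc).2 hπ1
  obtain ⟨k, hk⟩ := pow_unbounded_of_one_lt c ((one_lt_div ha).2 hlt)
  obtain ⟨n, hn1, hn2⟩ := exists_mem_Ioc_zpow (pow_pos ha k) hc1
  obtain ⟨w, hw⟩ : ∃ w : K, w = (π⁻¹) ^ (n + 1) := ⟨_, rfl⟩
  have hNw : nv v (algebraMap K (AlgebraicClosure (v.adicCompletion K)) w) = c ^ (n + 1) := by
    rw [hw, map_zpow₀, map_inv₀, ← b3_hom_apply, map_zpow₀, map_inv₀, b3_hom_apply, ← hcd]
  have hcn : 0 < c ^ (n + 1) := zpow_pos (zero_lt_one.trans hc1) _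
  have hval : ∀ y : Ω, nv v (ι (y ^ k / algebraMap K Ω w)) = nv v (ι y) ^ k / c ^ (n + 1) := by
    intro y
    rw [map_div₀, map_pow, ι.commutes, ← b3_hom_apply, map_div₀, map_pow, b3_hom_apply,
      b3_hom_apply, hNw]
  have hz : x ^ k / algebraMap K Ω w ∈ V := by
    rw [hV, hval, div_le_one hcn]
    exact hn2
  have hgz : g (x ^ k / algebraMap K Ω w) ∈ V := (hg _).2 hz
  rw [map_div₀, map_pow, g.commutes, hV, hval, div_le_one hcn] at hgz
  have h5 : c ^ (n + 1) = c * c ^ n := by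
    rw [zpow_add_one₀ (zero_lt_one.trans hc1).ne', mul_comm]
  rw [div_pow, lt_div_iff₀ (pow_pos ha k)] at hk
  have h6 : c * c ^ n < c * nv v (ι x) ^ k := (mul_lt_mul_iff_right₀ (zero_lt_one.trans hc1)).2 hn1
  rw [h5] at hgz
  linarith

theorem ext_of_dec {K : Type} [Field K] [NumberField K] {Ω : Type} [Field Ω] [Algebra K Ω] {v : HeightOneSpectrum (𝓞 K)}
    {ι : Ω →ₐ[K] AlgebraicClosure (v.adicCompletion K)} {V : ValuationSubring Ω} (hV : IsVal v ι V) {g : Ω ≃ₐ[K] Ω} (hg : H55P.Dec V g) :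
    ∃ σ : AlgebraicClosure (v.adicCompletion K) ≃ₐ[v.adicCompletion K] AlgebraicClosure (v.adicCompletion K), ∀ x, ι (g x) = σ (ι x) := by
  have hg' : H55P.Dec V g⁻¹ := by
    intro x
    have h1 := hg (g⁻¹ x)
    have h2 : g (g⁻¹ x) = x := g.apply_symm_apply x
    rw [h2] at h1
    exact h1.symm
  have heq : ∀ x, nv v (ι (g x)) = nv v (ι x) := by
    intro x
    refine le_antisymm (b3_le hV hg x) ?_
    have h1 := b3_le hV hg' (g x)
    have h2 : g⁻¹ (g x) = x := g.symm_apply_apply x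
    rw [h2] at h1
    exact h1
  letI : NontriviallyNormedField (v.adicCompletion K) :=
    Valued.toNontriviallyNormedField (v.adicCompletion K) ℤᵐ⁰
  haveI : IsUltrametricDist (v.adicCompletion K) :=
    Valued.instIsUltrametricDist (v.adicCompletion K) ℤᵐ⁰
  exact H16F.exists_ext (H16F.dense_adic v) ι g heq

theorem dec_of_ext {K : Type} [Field K] [NumberField K] {Ω : Type} [Field Ω] [Algebra K Ω] {v : HeightOneSpectrum (𝓞 K)}
    {ι : Ω →ₐ[K] AlgebraicClosure (v.adicCompletion K)} {V : ValuationSubring Ω} (hV : IsVal v ι V) {g : Ω ≃ₐ[K] Ω}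
    (σ : AlgebraicClosure (v.adicCompletion K) ≃ₐ[v.adicCompletion K] AlgebraicClosure (v.adicCompletion K)) (h : ∀ x, ι (g x) = σ (ι x)) :
    H55P.Dec V g := by
  intro x
  rw [hV, hV, h, b3_equiv]

end SSG
end

-- from Lib.SSG.Z.B4
section

/-! Chunk B4 (M). loc_dec: LocTriv at all v implies TrivV for a cocycle with n c = 0. V ≠ ⊤: exists_iota gives v, ι. LocTriv for ι: Q₀ with ι(c g) = σ Q₀ - Q₀ whenever ι ∘ g = σ ∘ ι. avoid_tors (C8) with inf_pts (C7), N = 2n: Q = Q₀ + S has σ Q - Q = σ Q₀ - Q₀ and k Q ≠ 0 for 0 < k ≤ 2n.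
n Q is fixed by all σ (exists_restrict in H16C/TR2.lean gives g for σ; n(σ Q - Q) = ι(n c g) = 0). alg_pt (C6) with the instances of H16F/E7.lean (letI := Valued.toNontriviallyNormedField .., ultrametric, CharZero, H16F.dense_adic v): Q' with σ(ι Q') - ι Q' = σ Q - Q. For g in Dec V: ext_of_dec gives σ; ι(c g) = σ(ι Q') - ι Q' = ι(g Q' - Q')
(H35Q.act_map in H35Q/L5.lean), Point.map ι injective (WeierstrassCurve.Affine.Point.map_injective). P = Q'.
dec_loc: TrivV implies LocTriv at v: ι given, exists_val: V, P; Q = ι P; for ι ∘ g = σ ∘ ι: dec_of_ext: Dec V g, c g = g P - P, ι(c g) = σ Q - Q (act_map). -/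

open NumberField IsDedekindDomain WeierstrassCurve H16C
open scoped WithZero

namespace SSG

open Classical in
theorem loc_dec {K : Type} [Field K] [NumberField K] (W : WeierstrassCurve.Affine K) [W.IsShortNF] [W.IsElliptic] {Ω : Type} [Field Ω] [Algebra K Ω]
    [IsAlgClosed Ω] [Algebra.IsAlgebraic K Ω] [CharZero Ω] (c : (Ω ≃ₐ[K] Ω) → Pt W Ω) {n : ℕ} (hn : 0 < n) (hc : ∀ g, n • c g = 0)
    (h : ∀ v : HeightOneSpectrum (𝓞 K), LocTriv W Ω (v.adicCompletion K) c) : TrivV W Ω c := by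
  intro V hVt
  obtain ⟨v, ι, hV⟩ := exists_iota (K := K) V hVt
  obtain ⟨Q₀, hQ₀⟩ := h v ι
  have hchar : CharZero (v.adicCompletion K) :=
    charZero_of_injective_algebraMap (algebraMap K (v.adicCompletion K)).injective
  have hcharA : CharZero (AlgebraicClosure (v.adicCompletion K)) :=
    charZero_of_injective_algebraMap
      (algebraMap (v.adicCompletion K) (AlgebraicClosure (v.adicCompletion K))).injective
  have hinf : Infinite (Pt W (v.adicCompletion K)) := inf_pts W v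
  obtain ⟨S, hS, hS2⟩ := avoid_tors W (L := v.adicCompletion K)
    (Ω' := AlgebraicClosure (v.adicCompletion K)) hinf (2 * n) Q₀
  have hfix : ∀ σ : AlgebraicClosure (v.adicCompletion K) ≃ₐ[v.adicCompletion K]
      AlgebraicClosure (v.adicCompletion K),
      act W (AlgebraicClosure (v.adicCompletion K)) (σ.restrictScalars K) (n • (Q₀ + S)) =
        n • (Q₀ + S) := by
    intro σ
    obtain ⟨g, hg, -⟩ := exists_restrict ι σ
    have h1 := hQ₀ σ g hg
    have h2 : n • (WeierstrassCurve.Affine.Point.map ι (c g) :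
        Pt W (AlgebraicClosure (v.adicCompletion K))) = 0 := by
      rw [← map_nsmul, hc, map_zero]
    rw [h1, nsmul_sub, sub_eq_zero] at h2
    rw [map_nsmul, map_add, hS, nsmul_add, nsmul_add, h2]
  have halg : ∃ Q' : Pt W Ω, ∀ σ : AlgebraicClosure (v.adicCompletion K) ≃ₐ[v.adicCompletion K]
      AlgebraicClosure (v.adicCompletion K),
      act W (AlgebraicClosure (v.adicCompletion K)) (σ.restrictScalars K)
        (WeierstrassCurve.Affine.Point.map ι Q') - WeierstrassCurve.Affine.Point.map ι Q' =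
        act W (AlgebraicClosure (v.adicCompletion K)) (σ.restrictScalars K) (Q₀ + S) - (Q₀ + S) := by
    letI : NontriviallyNormedField (v.adicCompletion K) :=
      Valued.toNontriviallyNormedField (v.adicCompletion K) ℤᵐ⁰
    haveI : IsUltrametricDist (v.adicCompletion K) :=
      Valued.instIsUltrametricDist (v.adicCompletion K) ℤᵐ⁰
    exact alg_pt (H16F.dense_adic v) ι W n hn (Q₀ + S) hS2 hfix
  obtain ⟨Q', hQ'⟩ := halg
  refine ⟨Q', fun g hg => ?_⟩
  obtain ⟨σ, hσ⟩ := ext_of_dec hV hg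
  have h1 := hQ₀ σ g hσ
  have h2 := hQ' σ
  rw [H35Q.act_map W ι Q' σ g hσ, ← map_sub, map_add, hS σ, add_sub_add_right_eq_sub, ← h1] at h2
  exact (WeierstrassCurve.Affine.Point.map_injective ι h2).symm

open Classical in
theorem dec_loc {K : Type} [Field K] [NumberField K] (W : WeierstrassCurve.Affine K) {Ω : Type} [Field Ω] [Algebra K Ω]
    (c : (Ω ≃ₐ[K] Ω) → Pt W Ω) (h : TrivV W Ω c) (v : HeightOneSpectrum (𝓞 K)) : LocTriv W Ω (v.adicCompletion K) c := by
  intro ι
  obtain ⟨V, hVt, hV⟩ := exists_val v ι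
  obtain ⟨P, hP⟩ := h V hVt
  refine ⟨WeierstrassCurve.Affine.Point.map ι P, fun σ g hσ => ?_⟩
  rw [hP g (dec_of_ext hV σ hσ), H35Q.act_map W ι P σ g hσ, map_sub]

end SSG
end

-- from Lib.SSG.Z.B6
section

/-! Chunk B6 (M). The bridge for short equations: H16C.Sha (completions, all places) and (galS W Ω).Sha (valuation rings) have the same p-primary part, p odd.
PROOF. Ω = AlgebraicClosure K. KEY: for a cocycle c (H16C.IsCocycle; the same as mul and cont of (galS W Ω).IsZ: act = H55P.ac up to rfl) and k with p^k c a coboundary: EverywhereTriv W Ω c iff TrivV W Ω c (iff the loc field of IsZ). Proof of KEY: p^k c(g) = g Q - Q, Q = p^k R (H16C.divisible), c' = c - (g R - R):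
p^k c' = 0; coboundaries satisfy both conditions (H35Q.cob_loc; trivial for TrivV), both conditions are additive (locTriv_add, locTriv_neg); for c': loc_dec, dec_loc (B4), loc_inf (B5, n = p^k odd).
EQUIVALENCE: PP p (Sha W Ω) ≃ PP p (galS W Ω).Sha: both are quotients of the same group of cocycles c with some p^k c in B (by KEY) by the group B ∩ .. : construct for instance: Z₀ = the subgroup of the cocycles c with exists k, p^k c coboundary, and locally trivial (either sense); map c to its class; it is surjective onto both PP groups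
(elements are classes of cocycles, p^k [c] = 0 iff p^k c is a coboundary) and two elements of Z₀ have the same class iff they differ by a coboundary, in both groups. So define the map PP → PP by choosing a representative (Quotient.out / surjectivity and Classical.choice), it is well defined, injective and surjective. See H35Q/S1.lean (sha_iff) for the
handling of H16C.Sha; LS.cl, cl_surj, cl_zero, cl_eq in ZD.lean, ZH.lean. ShaC p K W: B0.lean. -/

open NumberField IsDedekindDomain WeierstrassCurve H16C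

namespace SSG

/-- Two quotients by the same subgroup have the same p-primary part. -/
theorem b6_card {M : Type*} [AddCommGroup M] (Z₁ Z₂ B : AddSubgroup M) (p : ℕ)
    (key : ∀ c : M, (∃ k : ℕ, p ^ k • c ∈ B) → (c ∈ Z₁ ↔ c ∈ Z₂)) :
    Nat.card {z : Z₁ ⧸ B.addSubgroupOf Z₁ // ∃ k : ℕ, p ^ k • z = 0} =
      Nat.card {z : Z₂ ⧸ B.addSubgroupOf Z₂ // ∃ k : ℕ, p ^ k • z = 0} := by
  classical
  have hz : ∀ (Z : AddSubgroup M) (c : Z),
      (QuotientAddGroup.mk' (B.addSubgroupOf Z) c = 0 ↔ c.1 ∈ B) := by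
    intro Z c
    refine (QuotientAddGroup.eq_zero_iff (N := B.addSubgroupOf Z) c).trans ?_
    exact AddSubgroup.mem_addSubgroupOf
  have heq : ∀ (Z : AddSubgroup M) (c c' : Z),
      (QuotientAddGroup.mk' (B.addSubgroupOf Z) c = QuotientAddGroup.mk' (B.addSubgroupOf Z) c' ↔
        c.1 - c'.1 ∈ B) := by
    intro Z c c'
    rw [← sub_eq_zero, ← map_sub, hz]
    rfl
  have hp : ∀ (Z : AddSubgroup M) (c : Z) (k : ℕ),
      (p ^ k • QuotientAddGroup.mk' (B.addSubgroupOf Z) c = 0 ↔ p ^ k • c.1 ∈ B) := by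
    intro Z c k
    rw [← map_nsmul, hz]
    rfl
  have hex : ∀ z : {z : Z₁ ⧸ B.addSubgroupOf Z₁ // ∃ k : ℕ, p ^ k • z = 0},
      ∃ w : {z : Z₂ ⧸ B.addSubgroupOf Z₂ // ∃ k : ℕ, p ^ k • z = 0},
        ∃ (c : M) (h1 : c ∈ Z₁) (h2 : c ∈ Z₂),
          QuotientAddGroup.mk' (B.addSubgroupOf Z₁) ⟨c, h1⟩ = z.1 ∧
          QuotientAddGroup.mk' (B.addSubgroupOf Z₂) ⟨c, h2⟩ = w.1 := by
    rintro ⟨z, k, hk⟩
    obtain ⟨c, rfl⟩ := QuotientAddGroup.mk'_surjective _ z
    have h1 := (hp Z₁ c k).1 hk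
    have h2 : c.1 ∈ Z₂ := (key c.1 ⟨k, h1⟩).1 c.2
    exact ⟨⟨QuotientAddGroup.mk' (B.addSubgroupOf Z₂) ⟨c.1, h2⟩, k, (hp Z₂ ⟨c.1, h2⟩ k).2 h1⟩,
      c.1, c.2, h2, rfl, rfl⟩
  choose f c h1 h2 h3 h4 using hex
  refine Nat.card_congr (Equiv.ofBijective f ⟨fun z z' hzz => ?_, fun w => ?_⟩)
  · apply Subtype.ext
    rw [← h3 z, ← h3 z', heq]
    have h5 : (f z).1 = (f z').1 := by rw [hzz]
    rw [← h4 z, ← h4 z', heq] at h5
    exact h5
  · obtain ⟨w, k, hk⟩ := w
    obtain ⟨d, rfl⟩ := QuotientAddGroup.mk'_surjective _ w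
    have h5 := (hp Z₂ d k).1 hk
    have h6 : d.1 ∈ Z₁ := (key d.1 ⟨k, h5⟩).2 d.2
    obtain ⟨z, hzd⟩ : ∃ z : {z : Z₁ ⧸ B.addSubgroupOf Z₁ // ∃ k : ℕ, p ^ k • z = 0},
        z = ⟨QuotientAddGroup.mk' (B.addSubgroupOf Z₁) ⟨d.1, h6⟩, k, (hp Z₁ ⟨d.1, h6⟩ k).2 h5⟩ :=
      ⟨_, rfl⟩
    refine ⟨z, ?_⟩
    apply Subtype.ext
    rw [← h4 z, heq]
    have h7 := h3 z
    have h8 : z.1 = QuotientAddGroup.mk' (B.addSubgroupOf Z₁) ⟨d.1, h6⟩ := by rw [hzd]
    rw [h8, heq] at h7
    exact h7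

open Classical in
theorem b6_key {K : Type} [Field K] [NumberField K] (W : WeierstrassCurve.Affine K) [W.IsShortNF] [W.IsElliptic]
    {Ω : Type} [Field Ω] [Algebra K Ω] [IsAlgClosed Ω] [Algebra.IsAlgebraic K Ω] [CharZero Ω] [IsAlgClosure K Ω]
    (c : (Ω ≃ₐ[K] Ω) → Pt W Ω) (hc : IsCocycle W Ω c) {n : ℕ} (hn : Odd n)
    (hB : IsCoboundary W Ω (n • c)) : EverywhereTriv W Ω c ↔ TrivV W Ω c := by
  have hn0 : 0 < n := hn.pos
  obtain ⟨Q, hQ⟩ := hB
  obtain ⟨R, hR⟩ := divisible (W := WeierstrassCurve.Affine.baseChange W Ω) n hn0 Q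
  obtain ⟨d, hd⟩ : ∃ d : (Ω ≃ₐ[K] Ω) → Pt W Ω, d = fun g => rho W g R - R := ⟨_, rfl⟩
  have hdg : ∀ g, d g = act W Ω g R - R := by
    intro g
    rw [hd]
    rfl
  have hdc : IsCocycle W Ω d := by
    rw [hd]
    exact H35Q.cob_coc W R
  have hdl : ∀ (L : Type) [Field L] [Algebra K L], LocTriv W Ω L d := by
    intro L _ _
    rw [hd]
    exact H35Q.cob_loc W R L
  obtain ⟨c', hc'⟩ : ∃ c' : (Ω ≃ₐ[K] Ω) → Pt W Ω, c' = c + -d := ⟨_, rfl⟩
  have hcoc : IsCocycle W Ω c' := by
    rw [hc']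
    exact isCocycle_add W Ω hc (isCocycle_neg W Ω hdc)
  have hc'g : ∀ g, c' g = c g - d g := by
    intro g
    rw [hc']
    exact (sub_eq_add_neg _ _).symm
  have hn' : ∀ g, n • c' g = 0 := by
    intro g
    have h1 : n • c g = act W Ω g Q - Q := hQ g
    rw [hc'g, nsmul_sub, h1, hdg, nsmul_sub, ← map_nsmul, hR, sub_self]
  have hback : c = c' + d := by
    funext g
    have h1 : (c' + d) g = c' g + d g := rfl
    rw [h1, hc'g, sub_add_cancel]
  constructor
  · intro h
    have h1 : TrivV W Ω c' := by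
      refine loc_dec W c' hn0 hn' fun v => ?_
      rw [hc']
      exact locTriv_add W Ω _ (h.1 v) (locTriv_neg W Ω _ (hdl _))
    intro V hV
    obtain ⟨P, hP⟩ := h1 V hV
    refine ⟨P + R, fun g hg => ?_⟩
    have h2 : c g = c' g + d g := congrFun hback g
    rw [h2, hP g hg, hdg, map_add]
    abel
  · intro h
    have h1 : TrivV W Ω c' := by
      intro V hV
      obtain ⟨P, hP⟩ := h V hV
      refine ⟨P - R, fun g hg => ?_⟩
      rw [hc'g, hP g hg, hdg, map_sub]
      abel
    refine ⟨fun v => ?_, fun v => ?_⟩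
    · rw [hback]
      exact locTriv_add W Ω _ (dec_loc W c' h1 v) (hdl _)
    · rw [hback]
      exact locTriv_add W Ω _ (loc_inf W c' hcoc hn hn' v) (hdl _)

open Classical in
theorem bridge_short {K : Type} [Field K] [NumberField K] (W : WeierstrassCurve K) [W.IsShortNF] [W.IsElliptic] {p : ℕ} (hp : p.Prime)
    (hp2 : p ≠ 2) : Nat.card (ShaC p K W) = Nat.card (PP p (galS W (AlgebraicClosure K)).Sha) := by
  have hodd : ∀ k : ℕ, Odd (p ^ k) := fun k => (hp.odd_of_ne_two hp2).pow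
  refine b6_card (ZSha W.toAffine (AlgebraicClosure K)) (galS W (AlgebraicClosure K)).Z
    (BSha W.toAffine (AlgebraicClosure K)) p ?_
  rintro c ⟨k, hk⟩
  have hcoc : IsCocycle W.toAffine (AlgebraicClosure K) c →
      (EverywhereTriv W.toAffine (AlgebraicClosure K) c ↔
        TrivV W.toAffine (AlgebraicClosure K) c) :=
    fun h => b6_key W.toAffine c h (hodd k) hk
  constructor
  · rintro ⟨h1, h2⟩
    have h3 := (hcoc h1).1 h2
    refine ⟨h1.1, ?_, ?_⟩
    · obtain ⟨L, hL, h4⟩ := h1.2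
      exact ⟨_, ⟨L, hL, rfl⟩, h4⟩
    · rintro _ ⟨V, hV, rfl⟩
      obtain ⟨P, hP⟩ := h3 V hV
      exact ⟨P, fun g hg => hP g hg⟩
  · intro h
    have h' : (galS W (AlgebraicClosure K)).IsZ c := h
    have h1 : IsCocycle W.toAffine (AlgebraicClosure K) c := by
      refine ⟨h'.mul, ?_⟩
      obtain ⟨_, ⟨L, hL, rfl⟩, h4⟩ := h'.cont
      exact ⟨L, hL, h4⟩
    refine ⟨h1, (hcoc h1).2 ?_⟩
    intro V hV
    obtain ⟨P, hP⟩ := h'.loc _ ⟨V, hV, rfl⟩
    exact ⟨P, fun g hg => hP g hg⟩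

end SSG
end

-- from Lib.SSG.Z.B7
section

/-! Chunk B7 (S/M). General Weierstrass equations. K has characteristic 0, so W has a short form W' (WeierstrassCurve.exists_variableChange_isShortNF or as in H19Q/Main.lean, H19Q/SS.lean: the relation H19Z.ZL1_D W W' u r s t from ZL1_rel). H19Q.sha_iso: H16C.Sha W Ω ≃+ H16C.Sha W' Ω, so the ShaP have the same cardinality;
H19Q.fe D Ω : Pt W Ω ≃+ Pt W' Ω with fe_act: (galS W Ω) and (galS W' Ω) by Hom.card (ZH.lean) with e = id, m = 1. bridge_short (B6) for W'. -/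

open NumberField IsDedekindDomain WeierstrassCurve H16C

namespace SSG

open Classical in
theorem b7_hom {K : Type} [Field K] {W W' : WeierstrassCurve K} [W.IsElliptic] [W'.IsElliptic] {u r s t : K} (D : H19Z.ZL1_D W.toAffine W'.toAffine u r s t)
    {Ω : Type} [Field Ω] [Algebra K Ω] : Hom (galS W Ω) (galS W' Ω) (MonoidHom.id _) (H19Q.fe D Ω).toAddMonoidHom :=
  ⟨fun g a => H19Q.fe_act D Ω g a, fun u hu => ⟨u, hu, fun _ hg => hg⟩, fun d hd => ⟨d, hd, fun _ hg => hg⟩⟩

open Classical in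
theorem b7_hom' {K : Type} [Field K] {W W' : WeierstrassCurve K} [W.IsElliptic] [W'.IsElliptic] {u r s t : K} (D : H19Z.ZL1_D W.toAffine W'.toAffine u r s t)
    {Ω : Type} [Field Ω] [Algebra K Ω] : Hom (galS W' Ω) (galS W Ω) (MonoidHom.id _) (H19Q.fe D Ω).symm.toAddMonoidHom :=
  ⟨fun g a => H19Q.fe_act_symm D Ω g a, fun u hu => ⟨u, hu, fun _ hg => hg⟩, fun d hd => ⟨d, hd, fun _ hg => hg⟩⟩



open Classical in
theorem bridge {K : Type} [Field K] [NumberField K] (W : WeierstrassCurve K) [W.IsElliptic] {p : ℕ} (hp : p.Prime) (hp2 : p ≠ 2) :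
    Nat.card (ShaC p K W) = Nat.card (PP p (galS W (AlgebraicClosure K)).Sha) := by
  haveI : Invertible (2 : K) := invertibleOfNonzero two_ne_zero
  haveI : Invertible (3 : K) := invertibleOfNonzero three_ne_zero
  obtain ⟨C, hC⟩ := W.exists_variableChange_isShortNF
  have D := H19Z.ZL1_rel W C
  haveI : (C • W).toAffine.IsElliptic := inferInstanceAs (C • W).IsElliptic
  haveI : W.toAffine.IsElliptic := inferInstanceAs W.IsElliptic
  obtain ⟨f⟩ := H19Q.sha_iso (W := (C • W).toAffine) (W' := W.toAffine) D (AlgebraicClosure K)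
  have h1 : Nat.card (ShaC p K (C • W)) = Nat.card (ShaC p K W) := by
    refine Nat.card_congr ⟨fun z => ⟨f z.1, ?_⟩, fun z => ⟨f.symm z.1, ?_⟩, fun z => ?_, fun z => ?_⟩
    · obtain ⟨k, hk⟩ := z.2
      exact ⟨k, by rw [← map_nsmul, hk, map_zero]⟩
    · obtain ⟨k, hk⟩ := z.2
      exact ⟨k, by rw [← map_nsmul, hk, map_zero]⟩
    · exact Subtype.ext (f.symm_apply_apply z.1)
    · exact Subtype.ext (f.apply_symm_apply z.1)
  have h2 := bridge_short (C • W) hp hp2
  have h3 : Nat.card (PP p (galS (C • W) (AlgebraicClosure K)).Sha) = Nat.card (PP p (galS W (AlgebraicClosure K)).Sha) := by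
    refine (b7_hom (W := C • W) (W' := W) D (Ω := AlgebraicClosure K)).card hp hp.not_dvd_one
      (b7_hom' (W := C • W) (W' := W) D (Ω := AlgebraicClosure K)) (fun _ => rfl) (fun _ => rfl) (fun a => ?_) (fun a => ?_)
    · rw [one_nsmul]
      exact (H19Q.fe (W := (C • W).toAffine) (W' := W.toAffine) D (AlgebraicClosure K)).symm_apply_apply a
    · rw [one_nsmul]
      exact (H19Q.fe (W := (C • W).toAffine) (W' := W.toAffine) D (AlgebraicClosure K)).apply_symm_apply a
  rw [← h1, h2, h3]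

end SSG
end
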