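import Mathlib
import Pool.Agent.Lib.H1M.PP2.D_H55G_D0
import Pool.Agent.Lib.H1M.PP2.D_H55K_BH
import Pool.Agent.Lib.H1M.PP2.M005
import Pool.Agent.Lib.H1M.PP2.M029
import Pool.Agent.Lib.H1M.PP2.M030
import Pool.Agent.Lib.H1M.PP2.M051
import Pool.Agent.Lib.H1M.PP2.M059
import Pool.Agent.Lib.H1M.PP2.M082
import Pool.Agent.Lib.H1M.PP2.M083
import Pool.Agent.Lib.H1M.PP2.M092
import Pool.Agent.Lib.H1M.PP2.M098
import Pool.Agent.Lib.H1M.PP2.M099
import Pool.Agent.Lib.H1M.PP2.M100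
import Pool.Agent.Lib.H1M.PP2.M101
import Pool.Agent.Lib.H1M.PP2.M102
import Pool.Agent.Lib.H1M.PP2.M106
import Pool.Agent.Lib.H1M.PP2.M107
import Pool.Agent.Lib.H1M.PP2.M108
import Pool.Agent.Lib.H1M.PP2.M110

/-! Merged copies (to shorten the build) of Lib.H13X.XG2, Lib.H13X.XLV0, Lib.H13X.XN2, Lib.H13X.XN3, Lib.H13X.XN4, Lib.H13X.XN5, Lib.H55G.E3a, Lib.H55G.E3b. -/

-- from Lib.H13X.XG2
section

/-! # H13X: port of H13Y/G2 -/

open NumberField IsDedekindDomain WeierstrassCurve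

namespace H13X

open H55P (IQ embF eF LF Per IsHecke Pt ac Inert Dec Nm Coc)
open H35P (WAB Ker tt)
open H55K (Tor ak xc yc CMA Dta GV GMod cj cj_cj mul_cj cj_prime cj_dvd cj_nat Nm_cj Nm_mul Nm_nat)
open H55K.S
open H13S (Abv)





variable {F : Type} [Field F] [NumberField F] [IQ F] {A B : F} {Om : ℂ} {Ω : Type} [Field Ω] [DecidableEq Ω]
  [Algebra F Ω] [IsAlgClosure F Ω] {j : Ω →+* ℂ} {act : 𝓞 F →+* AddMonoid.End (Pt (WAB A B) Ω)} {mo : Ideal (𝓞 F)}
  {ψ : Ideal (𝓞 F) →*₀ 𝓞 F}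

variable {π : 𝓞 F} {l : ℕ} {e : Pt (WAB A B) Ω → Pt (WAB A B) Ω → Ω} {N L : IntermediateField F Ω} [NumberField N]
  {w : HeightOneSpectrum (𝓞 N)} {c : (Ω ≃ₐ[F] Ω) → Pt (WAB A B) Ω} {y : Pt (WAB A B) Ω → Ω} {V : ValuationSubring Ω}

omit [IsAlgClosure F Ω] in
/-- Chunk YG2 (S/M). As H13Z/FZ2.lean Gl.zero. -/
theorem Gl.zero (G : Gl A B Om j act mo ψ π l e N L w c y) (he : Pairing A B act π l e) {s : Ω ≃ₐ[F] Ω}
    (hs : s ∈ L.fixingSubgroup) (h : ∀ T ∈ Tor act π, s (y T) = y T) : c s = 0 := by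
  refine he.nondeg _ (G.cc.val s (G.tb.mono hs)) fun T hT => ?_
  obtain ⟨h0, h1⟩ := G.kum T hT
  have h2 := h1 s hs
  rw [h T hT] at h2
  exact mul_right_cancel₀ h0 (by rw [one_mul]; exact h2.symm)

omit [IsAlgClosure F Ω] in
/-- The l-th power of y T is fixed by the automorphisms over L. -/
theorem yg2_pow (G : Gl A B Om j act mo ψ π l e N L w c y) (he : Pairing A B act π l e) {s : Ω ≃ₐ[F] Ω}
    (hs : s ∈ L.fixingSubgroup) {T : Pt (WAB A B) Ω} (hT : T ∈ Tor act π) : s (y T ^ l) = y T ^ l := by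
  rw [map_pow, (G.kum T hT).2 s hs, mul_pow, he.root _ (G.cc.val s (G.tb.mono hs)) T hT, one_mul]

omit [IsAlgClosure F Ω] in
/-- Outside l and w: x in L from Gl.out is fixed by s, y T^l is fixed (kum, he.root), unr_val (as H13Z/FZ2.lean Gl.inert). -/
theorem Gl.inert (G : Gl A B Om j act mo ψ π l e N L w c y) (he : Pairing A B act π l e) (hl : V.valuation (l : Ω) = 1)
    (hw : ¬ Abv N V w) {s : Ω ≃ₐ[F] Ω} (hs : Inert V s) (hT : s ∈ L.fixingSubgroup) : c s = 0 := by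
  have hchar : CharZero Ω := charZero_of_injective_algebraMap (algebraMap F Ω).injective
  refine G.zero he hT fun T hT' => ?_
  obtain ⟨x, hxL, hx0, hx⟩ := G.out V hw T hT'
  exact H13Z.unr_val V G.D.hl hl (G.kum T hT').1 hx hs
    ((IntermediateField.mem_fixingSubgroup_iff L s).1 hT x hxL) (yg2_pow G he hT hT')

omit [DecidableEq Ω] [IsAlgClosure F Ω] in
theorem yg2_unit (hV : Abv N V w) (a : 𝓞 N) (ha : a ∉ w.asIdeal) : V.valuation (((a : N) : Ω)) = 1 := by
  apply le_antisymm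
  · exact (V.valuation_le_one_iff _).2 ((hV (a : N)).2 (w.valuation_le_one a))
  · by_contra hcon
    push Not at hcon
    exact ha ((w.valuation_lt_one_iff_mem a).1 ((H13S.Abv.lt hV _).1 hcon))

omit [IsAlgClosure F Ω] in
/-- The values above w: V l = 1. -/
theorem Gl.val_w (G : Gl A B Om j act mo ψ π l e N L w c y) (hV : Abv N V w) : V.valuation (l : Ω) = 1 := by
  have h1 := yg2_unit hV (l : 𝓞 N) G.wl
  have h2 : (((l : 𝓞 N) : N) : Ω) = l := by
    have e1 : ((l : 𝓞 N) : N) = l := map_natCast (algebraMap (𝓞 N) N) l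
    rw [e1]
    exact map_natCast (algebraMap N Ω) l
  rwa [h2] at h1

/-- Above w over N': inertia elements over N fix Tor π (inert_tors: V 3 = 1, vo V π = 1 because π divides l), so they are in L.fixingSubgroup (tb.fix). y T^l is fixed by the inertia elements over N: H13S.value_fixed for K = N: V (y T)^l = V a, a in N, a ≠ 0, = V x^l with x in N' (hx), so V (y T) = V x; x is fixed by s (s in N'.fixingSubgroup). unr_val, Gl.zero. -/
theorem Gl.kill (G : Gl A B Om j act mo ψ π l e N L w c y) (he : Pairing A B act π l e) (hV : Abv N V w)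
    {N' : IntermediateField F Ω} (hNN : N ≤ N')
    (hx : ∀ a ∈ N, a ≠ 0 → ∃ x ∈ N', V.valuation x ^ l = V.valuation a) {s : Ω ≃ₐ[F] Ω}
    (hs : s ∈ N'.fixingSubgroup) (hi : Inert V s) : c s = 0 := by
  have hchar : CharZero Ω := charZero_of_injective_algebraMap (algebraMap F Ω).injective
  have hl := G.val_w hV
  have hfix : ∀ t : Ω ≃ₐ[F] Ω, t ∈ N.fixingSubgroup → Inert V t → t ∈ L.fixingSubgroup :=
    fun t ht hti => (G.tb.fix t).2 ⟨ht, G.fx V hV t ⟨ht, Inert.dec hti⟩⟩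
  have hsN : s ∈ N.fixingSubgroup := by
    rw [IntermediateField.mem_fixingSubgroup_iff] at hs ⊢
    exact fun x hx => hs x (hNN hx)
  have hsL := hfix s hsN hi
  refine G.zero he hsL fun T hT => ?_
  have hy0 : y T ≠ 0 := (G.kum T hT).1
  obtain ⟨a, ha0, ha⟩ := H13S.value_fixed N V (y T ^ l) (pow_ne_zero l hy0)
    (fun t ht hti => yg2_pow G he (hfix t ht hti) hT)
  obtain ⟨x, hxN, hxa⟩ := hx (a : Ω) a.2 (fun h => ha0 (Subtype.ext h))
  rw [← hxa, map_pow] at ha
  have hxy : V.valuation (y T) = V.valuation x :=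
    (pow_left_inj₀ zero_le zero_le G.D.hl.ne_zero).1 ha
  exact H13Z.unr_val V G.D.hl hl hy0 hxy hi ((IntermediateField.mem_fixingSubgroup_iff N' s).1 hs x hxN)
    (yg2_pow G he hsL hT)

omit [IsAlgClosure F Ω] [NumberField N] in
/-- the coboundary may be taken with values in the points killed by cj π -/
theorem YG3_red (D : Dat A B Om j act mo ψ π l) (C : Cc act π N c) {T : Pt (WAB A B) Ω} (hT : l • T = 0)
    (hc : ∀ s ∈ N.fixingSubgroup, c s = ac (WAB A B) s T - T) :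
    ∃ X ∈ Tor act (cj π), ∀ s ∈ N.fixingSubgroup, c s = ac (WAB A B) s X - X := by
  have hlT : act (l : 𝓞 F) T = 0 := by rw [act_nat (act := act), hT]
  rcases dichotomy D.hl D.dta.unr D.pr D.dvd with ⟨h1, h2, h3⟩ | ⟨h1, -, -, hll⟩
  · refine ⟨T, ?_, hc⟩
    rw [tor_assoc h1, ← tor_assoc h3, mem_Tor]
    exact hlT
  · have hcop : IsCoprime π (cj π) := (D.pr.irreducible.coprime_iff_not_dvd).2 h1
    obtain ⟨u, v, huv⟩ := hcop
    have hX : act (u * π) T ∈ Tor act (cj π) := by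
      rw [mem_Tor, ← act_mul]
      have h6 : cj π * (u * π) = u * (l : 𝓞 F) := by rw [← hll]; ring
      rw [h6, act_mul, hlT, map_zero]
    refine ⟨act (u * π) T, hX, fun s hs => ?_⟩
    have h3 : act (u * π) (c s) = c s := by
      have h4 : act (v * cj π) (c s) = 0 := by
        rw [act_mul, mem_Tor.1 (C.val s hs), map_zero]
      have h5 : act (u * π + v * cj π) (c s) = c s := by rw [huv, act_one]
      rw [act_add, h4, add_zero] at h5
      exact h5
    rw [ac_act D.cma, ← map_sub, ← hc s hs, h3]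

/-- Chunk YG3 (S/M). c is not a coboundary over N. Suppose c s = ac s T - T on N.fixingSubgroup, l • T = 0. If cj π = π (dichotomy) then l is a unit times π: T in Tor π = Tor (cj π), X = T. Otherwise π, cj π are coprime, l = unit * π cj π, T = T₁ + X with T₁ in Tor π, X in Tor (cj π) (act of a π + b cj π = 1); c s = (ac s T₁ - T₁) + (ac s X - X) with c s in Tor (cj π), ac s T₁ - T₁ in Tor π, the intersection is 0: ac s T₁ = T₁. So in all cases c s = ac s X - X on N.fixingSubgroup, X in Tor (cj π).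
T' from G.nz; s in L.fixingSubgroup: s (y T') = e (ac s X - X) T' * y T' = (e (ac s X) T'/e X T') y T' = (s (e X T')/e X T') y T' (he.gal, ac s T' = T'), so z = y T'/e X T' is fixed by L.fixingSubgroup: z in L (ku2_mem), z^l = y T'^l (he.root). Contradiction. -/
theorem Gl.not_cob (G : Gl A B Om j act mo ψ π l e N L w c y) (he : Pairing A B act π l e) :
    ¬ ∃ T : Pt (WAB A B) Ω, l • T = 0 ∧ ∀ s ∈ N.fixingSubgroup, c s = ac (WAB A B) s T - T := by
  rintro ⟨T, hT, hc⟩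
  obtain ⟨X, hX, hcX⟩ := YG3_red G.D G.cc hT hc
  obtain ⟨T', hT', hnz⟩ := G.nz
  have hl0 : l ≠ 0 := G.D.hl.ne_zero
  have h1 : e X T' ^ l = 1 := he.root X hX T' hT'
  have hne : e X T' ≠ 0 := by
    intro h
    rw [h, zero_pow hl0] at h1
    exact zero_ne_one h1
  have hz : y T' / e X T' ∈ L := by
    apply ku2_mem
    intro s hs
    have h2 := (G.kum T' hT').2 s hs
    have hsX : ac (WAB A B) s X ∈ Tor act (cj π) := ac_mem G.D.cma s hX
    have hsT : ac (WAB A B) s T' = T' := ((G.tb.fix s).1 hs).2 T' hT'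
    have h3 : s (e X T') = e (ac (WAB A B) s X) T' := by rw [he.gal s X hX T' hT', hsT]
    have h4 : e (ac (WAB A B) s X) T' = e (c s) T' * e X T' := by
      rw [← he.add_left _ (G.cc.val s (G.tb.mono hs)) _ hX T' hT', hcX s (G.tb.mono hs), sub_add_cancel]
    have h5 : e (c s) T' ≠ 0 := by
      intro h6
      rw [h6, zero_mul] at h2
      exact (G.kum T' hT').1 ((map_eq_zero_iff s s.injective).1 h2)
    rw [map_div₀, h2, h3, h4, mul_div_mul_left _ _ h5]
  refine hnz _ hz ?_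
  rw [div_pow, h1, div_one]

end H13X
end

-- from Lib.H13X.XLV0
section

/-! # H13X: port of H13Z/LV -/

open NumberField IsDedekindDomain WeierstrassCurve

namespace H13X

open H55P (IQ embF eF LF Per IsHecke Pt ac Inert Dec Nm Coc)
open H35P (WAB Ker tt)
open H55K (Tor ak xc yc CMA Dta GV GMod cj cj_cj mul_cj cj_prime cj_dvd cj_nat Nm_cj Nm_mul Nm_nat)
open H55K.S
open H13S (Abv)




variable {F : Type} [Field F] [NumberField F] [IQ F] {A B : F} {Om : ℂ} {Ω : Type} [Field Ω] [DecidableEq Ω]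
  [Algebra F Ω] [IsAlgClosure F Ω] {j : Ω →+* ℂ} {act : 𝓞 F →+* AddMonoid.End (Pt (WAB A B) Ω)} {mo : Ideal (𝓞 F)}
  {ψ : Ideal (𝓞 F) →*₀ 𝓞 F}

variable {π : 𝓞 F} {l : ℕ} {V : ValuationSubring Ω} {t : Ω} {e0 : ℕ} {e : Pt (WAB A B) Ω → Pt (WAB A B) Ω → Ω}

/-- the roots of unity are in L -/
theorem lv_mu (D : Dat A B Om j act mo ψ π l) (hin : Tor act (cj π) = Tor act π) (he : Pairing A B act π l e) {B₀ L : IntermediateField F Ω}
    (hL : IsTB act π B₀ L) (ζ : Ω) (hζ : ζ ^ l = 1) : ζ ∈ L := by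
  have hl := D.hl
  obtain ⟨-, X, hX, -, hX0⟩ := gi_gen D.cma π D.pr
  have hXne : X ≠ 0 := by
    intro h
    have h1 : act (1 : 𝓞 F) X = 0 := by rw [h, map_zero]
    exact D.pr.not_isUnit (isUnit_of_dvd_one ((hX0 1).1 h1))
  have hX' : X ∈ Tor act (cj π) := by rw [hin]; exact hX
  obtain ⟨T, hT, hTe⟩ : ∃ T ∈ Tor act π, e X T ≠ 1 := by
    by_contra h
    push Not at h
    exact hXne (he.nondeg X hX' h)
  have hprim : IsPrimitiveRoot (e X T) l := by
    have : Fact l.Prime := ⟨hl⟩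
    have h1 := orderOf_eq_prime (he.root X hX' T hT) hTe
    rw [← h1]
    exact IsPrimitiveRoot.orderOf _
  have : NeZero l := ⟨hl.ne_zero⟩
  obtain ⟨i, -, hi⟩ := hprim.eq_pow_of_pow_eq_one hζ
  have hmem : e X T ∈ L := by
    apply ku2_mem
    intro s hs
    rw [he.gal s X hX' T hT, ((hL.fix s).1 hs).2 T hT, ((hL.fix s).1 hs).2 X hX]
  rw [← hi]
  exact pow_mem hmem i

theorem level_gen (D : Dat A B Om j act mo ψ π l) (hin : Tor act (cj π) = Tor act π) (hq : Nm π = l ^ 2) (he : Pairing A B act π l e)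
    {B₀ L : IntermediateField F Ω} [NumberField L] (hL : IsTB act π B₀ L) (V : ValuationSubring Ω) (hG : GV A B V)
    (hV : vo V π < 1) (hVl : V.valuation (l : Ω) = vo V π) (w : HeightOneSpectrum (𝓞 L)) (hw : Abv L V w) {P : Pt (WAB A B) Ω} (hP : Ker V P)
    (hPv : V.valuation (tt P) ^ Nm π = vo V π) (C : Cc act π B₀ fun s => ac (WAB A B) s P - P)
    (T : Pt (WAB A B) Ω) (hT : T ∈ Tor act π) (m : L) (hm : m ≠ 0) (y : Ω)
    (hyk : Kum L e (fun s => ac (WAB A B) s P - P) T y) (hy : y ^ l = (m : Ω)) :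
    ∃ z : L, z ≠ 0 ∧ w.valuation L (m / z ^ l - 1) ≤ WithZero.exp (-2 : ℤ) := by
  obtain ⟨c, hcdef⟩ : ∃ c : (Ω ≃ₐ[F] Ω) → Pt (WAB A B) Ω, c = fun s => ac (WAB A B) s P - P := ⟨_, rfl⟩
  rw [← hcdef] at C hyk
  classical
  have hchar : CharZero Ω := charZero_of_injective_algebraMap (algebraMap F Ω).injective
  have hl0 : l ≠ 0 := D.hl.ne_zero
  have hVl1 : V.valuation (l : Ω) < 1 := hVl ▸ hV
  by_contra hlev
  have hex : ∃ s ∈ L.fixingSubgroup, Inert V s ∧ s y ≠ y := by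
    by_contra hcon
    push Not at hcon
    exact hlev (H13S.level_unr L V w hw l D.hl hVl1 m hm y hy hcon)
  obtain ⟨s₁, hs1, hi1, hne1⟩ := hex
  have hTfix : ∀ s ∈ L.fixingSubgroup, ∀ R ∈ Tor act π, ac (WAB A B) s R = R := fun s hs => ((hL.fix s).1 hs).2
  have hcT : ∀ s ∈ L.fixingSubgroup, c s ∈ Tor act π := fun s hs => by
    have := C.val s (hL.mono hs)
    rwa [hin] at this
  have hc1 : c s₁ ≠ 0 := by
    intro h0
    apply hne1
    rw [hyk.2 s₁ hs1, h0, ld3_e0 hl0 he hT, one_mul]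
  have hT0 : T ≠ 0 := by
    intro h0
    apply hne1
    rw [hyk.2 s₁ hs1, h0, ld3_e0' hl0 he (C.val _ (hL.mono hs1)), one_mul]
  have hQc : ∀ h : Ω ≃ₐ[F] Ω, c h = ac (WAB A B) h P - P := fun h => by rw [hcdef]
  have hr := hPv
  have hq3 : 3 ≤ Nm π := by
    rw [hq]
    nlinarith [D.five]
  have hvr := fun R (hR : R ∈ Tor act π) (h0 : R ≠ 0) => val_ratio D.cma D.pr hq3 V hG hV P hP hr R hR h0
  have hcard : Nat.card (Tor act π) = Nm π := (gi_gen D.cma π D.pr).1
  have hfin : Finite (Tor act π) := Nat.finite_of_card_ne_zero (by rw [hcard]; omega)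
  have hV0 : vo V π ≠ 0 := by
    unfold vo
    rw [Ne, map_eq_zero, map_eq_zero]
    exact_mod_cast D.pr.ne_zero
  have hQ0 : V.valuation (tt P) ≠ 0 := by
    intro h0
    rw [h0, zero_pow (by omega)] at hr
    exact hV0 hr.symm
  -- the set J
  have hJfin : {R : Pt (WAB A B) Ω | ∃ h ∈ L.fixingSubgroup, Inert V h ∧ h y = y ∧ c h = R}.Finite := by
    refine Set.Finite.subset (Set.toFinite (Tor act π : Set (Pt (WAB A B) Ω))) ?_
    rintro R ⟨h, hh, -, -, rfl⟩
    exact hcT h hh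
  set J : Finset (Pt (WAB A B) Ω) := hJfin.toFinset with hJ
  have hJmem : ∀ R, R ∈ J ↔ ∃ h ∈ L.fixingSubgroup, Inert V h ∧ h y = y ∧ c h = R := fun R => by
    rw [hJ, Set.Finite.mem_toFinset]
    rfl
  have hJT : ∀ R ∈ J, R ∈ Tor act π := fun R hR => by
    obtain ⟨h, hh, -, -, rfl⟩ := (hJmem R).1 hR
    exact hcT h hh
  have hJcard : J.card ≤ Nm π := by
    rw [← hcard]
    have h1 : (J : Set (Pt (WAB A B) Ω)) ⊆ (Tor act π : Set (Pt (WAB A B) Ω)) := fun R hR => hJT R hR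
    calc J.card = Set.ncard (J : Set (Pt (WAB A B) Ω)) := (Set.ncard_coe_finset J).symm
      _ ≤ Set.ncard (Tor act π : Set (Pt (WAB A B) Ω)) := Set.ncard_le_ncard h1 (Set.toFinite _)
      _ = Nat.card (Tor act π) := rfl
  have hJ0 : (0 : Pt (WAB A B) Ω) ∈ J := (hJmem 0).2 ⟨1, Subgroup.one_mem _, fun x _ => by simp, rfl, C.one⟩
  have hcadd : ∀ h ∈ L.fixingSubgroup, ∀ h' ∈ L.fixingSubgroup, c (h * h') = c h + c h' := fun h hh h' hh' => by
    rw [C.mul h (hL.mono hh) h' (hL.mono hh'), hTfix h hh _ (hcT h' hh')]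
  have hcinv : ∀ h ∈ L.fixingSubgroup, c h⁻¹ = -c h := fun h hh => by
    have h1 := hcadd h hh h⁻¹ (Subgroup.inv_mem _ hh)
    rw [mul_inv_cancel, C.one] at h1
    exact (neg_eq_of_add_eq_zero_right h1.symm).symm
  -- values
  have hval : ∀ R ∈ Tor act π, V.valuation (tt (P + R)) = V.valuation (tt P) := fun R hR => by
    by_cases h0 : R = 0
    · rw [h0, add_zero]
    · exact (hvr R hR h0).1
  have htau : ∀ R ∈ Tor act π, R ≠ 0 → V.valuation (tt R) = V.valuation (tt T) := fun R hR h0 => by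
    have h1 := (kr_tor_ram D.cma hG π D.pr hV hR h0).2
    have h2 := (kr_tor_ram D.cma hG π D.pr hV hT hT0).2
    exact (pow_left_inj₀ zero_le zero_le (by omega)).1 (h1.trans h2.symm)
  have hTQ : V.valuation (tt T) < V.valuation (tt P) := (hvr T hT hT0).2.2
  have hTv : V.valuation (tt T) ^ (Nm π - 1) = vo V π := (kr_tor_ram D.cma hG π D.pr hV hT hT0).2
  have hT0' : V.valuation (tt T) ≠ 0 := by
    intro h0
    rw [h0, zero_pow (by omega)] at hTv
    exact hV0 hTv.symm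
  obtain ⟨a, ha⟩ : ∃ a, a = V.valuation (tt T) / V.valuation (tt P) := ⟨_, rfl⟩
  have ha1 : a < 1 := by
    rw [ha]
    exact (div_lt_one₀ (zero_lt_iff.2 hQ0)).2 hTQ
  have ha0 : 0 < a := by
    rw [ha, zero_lt_iff]
    exact div_ne_zero hT0' hQ0
  have haq : a ^ (Nm π * (Nm π - 1)) = vo V π := by
    have h1 : V.valuation (tt T) ^ (Nm π * (Nm π - 1)) = vo V π ^ Nm π := by
      rw [mul_comm, pow_mul, hTv]
    have h2 : V.valuation (tt P) ^ (Nm π * (Nm π - 1)) = vo V π ^ (Nm π - 1) := by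
      rw [pow_mul, hr]
    have h3 : vo V π ^ Nm π = vo V π ^ (Nm π - 1) * vo V π := by
      rw [← pow_succ]
      congr 1
      omega
    rw [ha, div_pow, h1, h2, h3]
    exact mul_div_cancel_left₀ _ (pow_ne_zero _ hV0)
  -- the bound
  have hbd := H13S.prod_bound V J hJ0 (fun R => tt T / tt (P + R))
    (fun R hR => by
      rw [map_div₀, hval R (hJT R hR), ← ha]
      exact ha1.le)
    {σ : Ω ≃+* Ω | ∃ h ∈ L.fixingSubgroup, Inert V h ∧ h y = y ∧ σ = (h : Ω ≃+* Ω)}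
    (by
      rintro σ ⟨h, hh, hih, hhy, rfl⟩
      refine ⟨c h, fun R hR => ?_, fun R => ⟨fun hR => ?_, fun hR => ?_⟩⟩
      · change h (tt T / tt (P + R)) = tt T / tt (P + (R + c h))
        rw [map_div₀, ← tt_ac, ← tt_ac, hTfix h hh T hT, map_add, hTfix h hh R (hJT R hR)]
        have h1 : ac (WAB A B) h P = c h + P := by
          rw [hQc h, sub_add_cancel]
        rw [h1]
        congr 2
        abel
      · obtain ⟨k, hk, hik, hky, rfl⟩ := (hJmem R).1 hR
        refine (hJmem _).2 ⟨k * h, Subgroup.mul_mem _ hk hh, lcb_mul hik hih, ?_, hcadd k hk h hh⟩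
        change k (h y) = y
        rw [hhy, hky]
      · obtain ⟨k, hk, hik, hky, hkc⟩ := (hJmem _).1 hR
        refine (hJmem _).2 ⟨k * h⁻¹, Subgroup.mul_mem _ hk (Subgroup.inv_mem _ hh),
          lcb_mul hik (lcb_inv hih), ?_, ?_⟩
        · change k (h⁻¹ y) = y
          have h1 : h⁻¹ y = y := by
            have h2 : h⁻¹ (h y) = y := AlgEquiv.symm_apply_apply h y
            rwa [hhy] at h2
          rw [h1, hky]
        · rw [hcadd k hk h⁻¹ (Subgroup.inv_mem _ hh), hcinv h hh, hkc, add_neg_cancel_right])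
    (s₁ : Ω ≃+* Ω) (l - 1) (V.valuation (l : Ω))
    (fun b hb hf => H13S.coef_bound L V w hw l D.hl (by have := D.five; omega) hVl1
      (lv_mu D hin he hL) m hm y hy hlev b hb
      (fun s hs hi hsy => hf (s : Ω ≃+* Ω) ⟨s, hs, hi, hsy, rfl⟩) s₁ hs1 hi1)
  have hterm : ∀ R ∈ J, V.valuation (tt T / tt (P + 0) - (s₁ : Ω ≃+* Ω) (tt T / tt (P + R))) = a ^ 2 := by
    intro R hR
    have hR' := hJT R hR
    have h0 : R + c s₁ ≠ 0 := by
      intro h0
      obtain ⟨k, hk, hik, hky, hkc⟩ := (hJmem R).1 hR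
      apply hne1
      have h1 : c s₁ = c k⁻¹ := by
        rw [hcinv k hk, hkc]
        exact eq_neg_of_add_eq_zero_right h0
      have h2 : k⁻¹ y = y := by
        have h3 : k⁻¹ (k y) = y := AlgEquiv.symm_apply_apply k y
        rwa [hky] at h3
      rw [hyk.2 s₁ hs1, h1, ← hyk.2 k⁻¹ (Subgroup.inv_mem _ hk), h2]
    have hT' : R + c s₁ ∈ Tor act π := AddSubgroup.add_mem _ hR' (hcT s₁ hs1)
    have e1 : (s₁ : Ω ≃+* Ω) (tt T / tt (P + R)) = tt T / tt (P + (R + c s₁)) := by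
      change s₁ (tt T / tt (P + R)) = _
      rw [map_div₀, ← tt_ac, ← tt_ac, hTfix s₁ hs1 T hT, map_add, hTfix s₁ hs1 R hR']
      have h1 : ac (WAB A B) s₁ P = c s₁ + P := by
        rw [hQc s₁, sub_add_cancel]
      rw [h1]
      congr 2
      abel
    rw [e1, add_zero]
    have hv1 := hvr _ hT' h0
    have hne2 : tt (P + (R + c s₁)) ≠ 0 := by
      intro h1
      rw [h1, map_zero] at hv1
      exact hQ0 hv1.1.symm
    have hne3 : tt P ≠ 0 := by
      intro h1
      rw [h1, map_zero] at hQ0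
      exact hQ0 rfl
    have e2 : tt T / tt P - tt T / tt (P + (R + c s₁)) =
        tt T * (tt (P + (R + c s₁)) - tt P) / (tt P * tt (P + (R + c s₁))) := by
      field_simp
    rw [e2, map_div₀, map_mul, map_mul, hv1.1, hv1.2.1, htau _ hT' h0, ha, div_pow, sq, sq]
  rw [Finset.prod_congr rfl (fun R hR => rfl), map_prod] at hbd
  rw [Finset.prod_congr rfl hterm, Finset.prod_const, hVl, ← haq, ← pow_mul, ← pow_mul] at hbd
  have h1 := (pow_le_pow_iff_right_of_lt_one₀ ha0 ha1).1 hbd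
  have h2 : 2 * J.card * (l - 1) ≤ 2 * Nm π * (l - 1) := by
    exact Nat.mul_le_mul_right _ (Nat.mul_le_mul_left _ hJcard)
  have h3 : Nm π * (Nm π - 1) ≤ Nm π * (2 * (l - 1)) := by
    calc Nm π * (Nm π - 1) ≤ 2 * (J.card * (l - 1)) := h1
      _ = 2 * J.card * (l - 1) := by ring
      _ ≤ 2 * Nm π * (l - 1) := h2
      _ = Nm π * (2 * (l - 1)) := by ring
  have h4 := Nat.le_of_mul_le_mul_left h3 (by omega)
  rw [hq] at h4
  have h5 := D.five
  have h6 : l * l = l ^ 2 := by ring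
  have h7 : 5 * l ≤ l ^ 2 := by
    rw [← h6]
    exact Nat.mul_le_mul_right l h5
  omega


end H13X
end

-- from Lib.H13X.XN2
section

/-! # H13X: ports of GN9b, GN11a, GN11b to all F -/

open NumberField IsDedekindDomain WeierstrassCurve

namespace H13X

open H55P (IQ embF eF LF Per IsHecke Pt ac Inert Dec Nm Coc)
open H35P (WAB Ker tt)
open H55K (Tor ak xc yc CMA Dta GV GMod cj cj_cj mul_cj cj_prime cj_dvd cj_nat Nm_cj Nm_mul Nm_nat)
open H55K (Fxd Lft TFld TotRam tot_ram exists_lft lft_fxd exists_abw Abw)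
open H55K.S
open H55R (Pl ord es fs smulP under_smulP under_exists ord_map)
open H13S (Abv)
open H13Y (guN EqHomN LocN Kap kmk kmk_zero kmk_surj SU mem_SU SU_act exists_lev gn9b_surj gn9b_ram)

open H99B (Lev)

variable {F : Type} [Field F] [NumberField F] [IQ F] {A B : F} {Om : ℂ} {Ω : Type} [Field Ω] [DecidableEq Ω]
  [Algebra F Ω] {j : Ω →+* ℂ} {act : 𝓞 F →+* AddMonoid.End (Pt (WAB A B) Ω)}
  {N L : Type} [Field N] [NumberField N] [Field L] [NumberField L] [Algebra F N] [Algebra F L]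
  [Algebra N L] [Algebra N Ω] [Algebra L Ω] [IsScalarTower F N L] [IsScalarTower N L Ω]
  [IsScalarTower F N Ω] [IsScalarTower F L Ω]

omit [IQ F] in
theorem gn9b_tower {N L : Type} [Field N] [NumberField N] [Field L] [NumberField L] [Algebra F N]
    [Algebra N L] [Algebra F L] [IsScalarTower F N L] (y : 𝓞 F) :
    algebraMap (𝓞 F) (𝓞 L) y = algebraMap (𝓞 N) (𝓞 L) (algebraMap (𝓞 F) (𝓞 N) y) := by
  apply RingOfIntegers.ext
  exact IsScalarTower.algebraMap_apply F N L (y : F)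

/-- The local data at the primes above π. -/
theorem exists_locN [IsAlgClosure F Ω] (h : CMA F A B Om j act) {π : 𝓞 F} (hp : Prime π)
    (hL : TFld act N L π) (h2 : 2 < Nm π)
    (hG : ∀ V : ValuationSubring Ω, V.valuation (ak Ω π) < 1 → GV A B V)
    (hun : ∀ v : Pl N, algebraMap (𝓞 F) (𝓞 N) π ∈ v.asIdeal →
      v.valuation N (algebraMap F N (π : F)) = WithZero.exp (-1 : ℤ))
    {k : Type} [Field k] (q : 𝓞 F →+* k) (hq : Function.Surjective q) (hk : ∀ x, q x = 0 ↔ π ∣ x)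
    (χ : Gal(L/N) →* kˣ) (hχ : ∀ (σ : Gal(L/N)) (s : Ω ≃ₐ[F] Ω) (c : 𝓞 F), Lft σ s → q c = χ σ →
      ∀ R ∈ Tor act π, ac (WAB A B) s R = act c R)
    (W : Pl L) (hW : algebraMap (𝓞 F) (𝓞 L) π ∈ W.asIdeal) :
    ∃ (j : k →+* Kap W) (t : Lˣ), LocN j χ W t (kmk W) := by
  have hgal : IsGalois N L := hL.gal
  obtain ⟨v, hWv⟩ : ∃ v : Pl N, W.under (𝓞 N) = v := ⟨_, rfl⟩
  have hmem : ∀ y : 𝓞 N, y ∈ v.asIdeal ↔ algebraMap (𝓞 N) (𝓞 L) y ∈ W.asIdeal := by
    intro y
    rw [← hWv]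
    exact Iff.rfl
  have hv : algebraMap (𝓞 F) (𝓞 N) π ∈ v.asIdeal := by
    rw [hmem, ← gn9b_tower]
    exact hW
  have TR := tot_ram h hp hL v (hun v hv) hG
  have he : 2 ≤ es N L v := by
    rw [TR.es]
    omega
  obtain ⟨T, hT, h0⟩ := H55K.exists_tor h hp
  obtain ⟨x, y, hx, hy⟩ := hL.crd T hT
  obtain ⟨t, ht⟩ : ∃ t : L, algebraMap L Ω t = tt T := ⟨x / y, by rw [map_div₀, hx, hy, H55K.tt_xy]⟩
  have hT2 := TR.val W hWv T hT h0 t ht
  have ht0 : t ≠ 0 := by
    intro h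
    rw [h, map_zero] at hT2
    exact WithZero.exp_ne_zero hT2.symm
  have hψ : ∀ a : 𝓞 F, q a = 0 → ((kmk W).comp (algebraMap (𝓞 F) (𝓞 L))) a = 0 := by
    intro a ha
    rw [hk] at ha
    obtain ⟨c, rfl⟩ := ha
    rw [map_mul, RingHom.comp_apply, (kmk_zero W _).2 hW, zero_mul]
  let j' : k →+* Kap W := q.liftOfSurjective hq ⟨(kmk W).comp (algebraMap (𝓞 F) (𝓞 L)), fun a ha => hψ a ha⟩
  have hj : ∀ y : 𝓞 F, j' (q y) = kmk W (algebraMap (𝓞 N) (𝓞 L) (algebraMap (𝓞 F) (𝓞 N) y)) := by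
    intro y
    rw [← gn9b_tower]
    exact RingHom.liftOfRightInverse_comp_apply q (Function.surjInv hq) (Function.rightInverse_surjInv hq)
      ⟨(kmk W).comp (algebraMap (𝓞 F) (𝓞 L)), fun a ha => hψ a ha⟩ y
  refine ⟨j', Units.mk0 t ht0, ⟨fun x => kmk_zero W x, fun b => ?_, fun y hy => ?_, fun σ => ?_, ?_,
    fun σ y hy => ?_⟩⟩
  · exact gn9b_surj v W hWv TR.fs b
  · exact gn9b_ram v W hWv he y ((kmk_zero W _).1 hy)
  · exact TR.one _ _ ((under_smulP σ W).trans hWv) hWv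
  · have h1 := H55R.BF1_val W (Units.mk0 t ht0)
    rw [Units.val_mk0, hT2, WithZero.exp_inj] at h1
    omega
  · obtain ⟨c, hc⟩ := hq (χ σ : k)
    obtain ⟨s, hs⟩ := exists_lft (F := F) (Ω := Ω) σ
    have h1 := hχ σ s c hs hc T hT
    obtain ⟨V, hV⟩ := exists_abw Ω W
    have hWπ : W.valuation L (algebraMap F L (π : F)) < 1 := by
      have e : algebraMap F L (π : F) = algebraMap (𝓞 L) L (algebraMap (𝓞 F) (𝓞 L) π) := rfl
      rw [e]
      exact (W.valuation_lt_one_iff_mem _).2 hW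
    have hVb : V.valuation (ak Ω π) < 1 := by
      have e : ak Ω π = algebraMap L Ω (algebraMap F L (π : F)) := IsScalarTower.algebraMap_apply F L Ω _
      rw [e, hV.lt]
      exact hWπ
    have hGV := hG V hVb
    have hK := (H55K.tor_ram h hGV hp hVb hT h0).1
    have h4 := H55K.tt_act h hGV c hK
    rw [← h1, H55K.tt_ac, ← ht, hs] at h4
    have e3 : ak Ω c = algebraMap L Ω (algebraMap F L (c : F)) := IsScalarTower.algebraMap_apply F L Ω _
    rw [e3, ← map_mul, ← map_sub, ← map_pow, ← map_pow, hV.le, map_pow, hT2] at h4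
    have h5 : W.valuation L (algebraMap N L (((y - algebraMap (𝓞 F) (𝓞 N) c : 𝓞 N)) : N)) ≤
        WithZero.exp (-2 : ℤ) := by
      refine gn9b_ram v W hWv he _ ((kmk_zero W _).1 ?_)
      rw [map_sub, map_sub, hy, ← hc, hj, sub_self]
    have h6 : ((y - algebraMap (𝓞 F) (𝓞 N) c : 𝓞 N) : N) = (y : N) - algebraMap F N (c : F) := rfl
    have h10 : algebraMap N L (y : N) - algebraMap F L (c : F) =
        algebraMap N L (((y - algebraMap (𝓞 F) (𝓞 N) c : 𝓞 N)) : N) := by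
      rw [h6, map_sub, IsScalarTower.algebraMap_apply F N L]
    rw [← h10] at h5
    have h7 : σ ((Units.mk0 t ht0 : Lˣ) : L) - algebraMap N L (y : N) * ((Units.mk0 t ht0 : Lˣ) : L) =
        (σ t - algebraMap F L (c : F) * t) - (algebraMap N L (y : N) - algebraMap F L (c : F)) * t := by
      rw [Units.val_mk0]
      ring
    rw [h7]
    have h9 : (WithZero.exp (-1 : ℤ)) ^ 2 = (WithZero.exp (-2 : ℤ)) := by
      rw [← WithZero.exp_nsmul]
      norm_num
    rw [h9] at h4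
    refine (W.valuation L).map_sub_le h4 ?_
    rw [map_mul, hT2]
    refine (mul_le_of_le_one_right' ?_).trans h5
    rw [← WithZero.exp_zero, WithZero.exp_le_exp]
    norm_num

/-- χ is a bijection. -/
theorem chi_bijN [IsAlgClosure F Ω] (h : CMA F A B Om j act) {π : 𝓞 F} (hp : Prime π)
    (hL : TFld act N L π)
    (hG : ∀ V : ValuationSubring Ω, V.valuation (ak Ω π) < 1 → GV A B V)
    (hun : ∀ v : Pl N, algebraMap (𝓞 F) (𝓞 N) π ∈ v.asIdeal →
      v.valuation N (algebraMap F N (π : F)) = WithZero.exp (-1 : ℤ))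
    {k : Type} [Field k] [Fintype k] (q : 𝓞 F →+* k) (hq : Function.Surjective q)
    (hk : ∀ x, q x = 0 ↔ π ∣ x) (χ : Gal(L/N) →* kˣ) (hχi : Function.Injective χ) :
    Fintype.card k = Nm π ∧ Function.Bijective χ := by
  classical
  obtain ⟨v, hv⟩ : ∃ v : Pl N, algebraMap (𝓞 F) (𝓞 N) π ∈ v.asIdeal := by
    have h1 : ¬ IsUnit (algebraMap (𝓞 F) (𝓞 N) π) := by
      intro h
      exact hp.not_isUnit ((isUnit_map_iff (algebraMap (𝓞 F) (𝓞 N)) π).1 h)
    have h0 : algebraMap (𝓞 F) (𝓞 N) π ≠ 0 := by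
      intro h
      apply hp.ne_zero
      exact (FaithfulSMul.algebraMap_injective (𝓞 F) (𝓞 N)) (by rw [h, map_zero])
    obtain ⟨M, hM, hle⟩ := Ideal.exists_le_maximal (Ideal.span {algebraMap (𝓞 F) (𝓞 N) π})
      (by rwa [Ne, Ideal.span_singleton_eq_top])
    have hmem : algebraMap (𝓞 F) (𝓞 N) π ∈ M := hle (Ideal.mem_span_singleton_self _)
    refine ⟨⟨M, hM.isPrime, ?_⟩, hmem⟩
    rintro rfl
    exact h0 (by simpa using hmem)
  have htot := tot_ram h hp hL v (hun v hv) hG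
  have hgal : IsGalois N L := hL.gal
  have hfin : Finite kˣ := inferInstance
  refine ⟨by rw [← Nat.card_eq_fintype_card, H55K.k10_card q hq hk], ?_⟩
  rw [Nat.bijective_iff_injective_and_card]
  refine ⟨hχi, ?_⟩
  rw [IsGalois.card_aut_eq_finrank, htot.deg, ← H55K.k10_card q hq hk, Nat.card_units]

end H13X
end

-- from Lib.H13X.XN3
section

/-! # H13X: port of GN11b to all F -/

open NumberField IsDedekindDomain WeierstrassCurve

namespace H13X

open H55P (IQ embF eF LF Per IsHecke Pt ac Inert Dec Nm Coc)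
open H35P (WAB Ker tt)
open H55K (Tor ak xc yc CMA Dta GV GMod cj cj_cj mul_cj cj_prime cj_dvd cj_nat Nm_cj Nm_mul Nm_nat)
open H55K (Fxd Lft TFld TotRam tot_ram exists_lft lft_fxd exists_abw Abw)
open H55K.S
open H55R (Pl ord es fs smulP under_smulP under_exists ord_map)
open H13S (Abv)
open H13Y (guN EqHomN LocN Kap kmk kmk_zero kmk_surj SU mem_SU SU_act exists_lev gn9b_surj gn9b_ram etaN_hom
  exists_teich exists_psi gn_alg SU_fg SU_pow gn11b_units gn11b_K)
open H99B (Lev cf pw exists_rho)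

variable {F : Type} [Field F] [NumberField F] [IQ F] {A B : F} {Om : ℂ} {Ω : Type} [Field Ω] [DecidableEq Ω]
  [Algebra F Ω] {j : Ω →+* ℂ} {act : 𝓞 F →+* AddMonoid.End (Pt (WAB A B) Ω)}
  {N L : Type} [Field N] [NumberField N] [Field L] [NumberField L] [Algebra F N] [Algebra F L]
  [Algebra N L] [Algebra N Ω] [Algebra L Ω] [IsScalarTower F N L] [IsScalarTower N L Ω]
  [IsScalarTower F N Ω] [IsScalarTower F L Ω]

/-- The class over N by counting. -/
theorem glob_N [IsAlgClosure F Ω] (hA : CMA F A B Om j act) {l : ℕ} [Fact l.Prime] (h5 : 5 ≤ l) {π : 𝓞 F} (hp : Prime π)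
    (hL : TFld act N L π)
    (hG : ∀ V : ValuationSubring Ω, V.valuation (ak Ω π) < 1 → GV A B V)
    (hun : ∀ v : Pl N, algebraMap (𝓞 F) (𝓞 N) π ∈ v.asIdeal →
      v.valuation N (algebraMap F N (π : F)) = WithZero.exp (-1 : ℤ))
    {k : Type} [Field k] [Fintype k] [DecidableEq k] [CharP k l] (q : 𝓞 F →+* k)
    (hq : Function.Surjective q) (hk : ∀ x, q x = 0 ↔ π ∣ x) (χ : Gal(L/N) →* kˣ) (hχi : Function.Injective χ)
    (hχ : ∀ (σ : Gal(L/N)) (s : Ω ≃ₐ[F] Ω) (c : 𝓞 F), Lft σ s → q c = χ σ →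
      ∀ R ∈ Tor act π, ac (WAB A B) s R = act c R) (w : Pl N)
    (hwπ : algebraMap (𝓞 F) (𝓞 N) π ∉ w.asIdeal)
    (hst : ∀ Q : Pl L, Q.under (𝓞 N) = w → ∀ σ : Gal(L/N), smulP σ Q = Q → σ = 1) :
    ∃ m : k → Lˣ, EqHomN l χ m ∧
      (∀ (a : k) (v : Pl L), v.under (𝓞 N) ≠ w → (l : ℤ) ∣ ord v (m a)) ∧
      (∀ (a : k) (W : Pl L), algebraMap (𝓞 F) (𝓞 L) π ∈ W.asIdeal → Lev l W (m a)) ∧
      ∃ a : k, ∀ z : Lˣ, m a ≠ z ^ l := by
  have hgal : IsGalois N L := hL.gal
  have hl : l.Prime := Fact.out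
  obtain ⟨hcard, hχb⟩ := chi_bijN hA hp hL hG hun q hq hk χ hχi
  obtain ⟨ρ, hρ⟩ := exists_rho l k
  obtain ⟨V, ω, hV, hωi, hω⟩ := exists_teich l χ hχb.1
  obtain ⟨hk5, u, hu⟩ := gn11b_units h5 (k := k)
  have h2 : 2 < Nm π := by
    rw [← hcard]
    omega
  have hω1 : ω ≠ 1 := by
    intro h
    obtain ⟨g, hg⟩ := hχb.2 u
    apply hu
    have h3 : g = 1 := hωi (by rw [h]; rfl)
    rw [← hg, h3, map_one]
  obtain ⟨Q, hQ⟩ := under_exists (L := L) w
  obtain ⟨hc, hcardN⟩ := places_card (F := F) N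
  obtain ⟨ψ, p1, p2, p3⟩ := exists_psi hc ω hω1 w Q hQ (hst Q hQ)
  have htow : ∀ c : 𝓞 F, algebraMap (𝓞 F) (𝓞 L) c = algebraMap (𝓞 N) (𝓞 L) (algebraMap (𝓞 F) (𝓞 N) c) :=
    fun c => RingOfIntegers.ext (IsScalarTower.algebraMap_apply F N L (c : F))
  have hmem : ∀ W : Pl L, algebraMap (𝓞 F) (𝓞 L) π ∈ W.asIdeal →
      algebraMap (𝓞 F) (𝓞 N) π ∈ (W.under (𝓞 N)).asIdeal := by
    intro W hW
    rw [htow] at hW
    exact hW
  have hone : ∀ W W' : Pl L, algebraMap (𝓞 F) (𝓞 L) π ∈ W.asIdeal → W.under (𝓞 N) = W'.under (𝓞 N) →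
      W = W' := by
    intro W W' hW hWW
    exact (tot_ram hA hp hL (W.under (𝓞 N)) (hun _ (hmem W hW)) hG).one W W' rfl hWW.symm
  have hloc : ∀ W : Pl L, algebraMap (𝓞 F) (𝓞 L) π ∈ W.asIdeal →
      ∃ (j : k →+* Kap W) (t : Lˣ), LocN j χ W t (kmk W) := fun W hW =>
    exists_locN hA hp hL h2 hG hun q hq hk χ hχ W hW
  obtain ⟨Λ, i1, i2, i3, f, hfin, f1, f2, f3⟩ := exists_Lam hp.ne_zero hcard χ hone hloc
  have hdv : ∀ x ∈ SU L w, ∀ W : Pl L, algebraMap (𝓞 F) (𝓞 L) π ∈ W.asIdeal → (l : ℤ) ∣ ord W x := by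
    intro x hx W hW
    have h3 : W.under (𝓞 N) ≠ w := by
      intro h
      apply hwπ
      rw [← h]
      exact hmem W hW
    rw [hx W h3]
    exact dvd_zero _
  have f1' : ∀ x ∈ SU L w, ∀ y ∈ SU L w, f (x * y) = f x + f y := fun x hx y hy =>
    f1 x y (hdv x hx) (hdv y hy)
  have f2' : ∀ g : Gal(L/N), ∀ x ∈ SU L w, f (guN g x) = (χ g : k) • f x := fun g x hx =>
    f2 g x (hdv x hx)
  obtain ⟨x, hx, hfx, hnx⟩ := gn_alg χ hχb ρ hρ (guN : Gal(L/N) →* Monoid.End Lˣ) (SU L w)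
    (fun g x hx => SU_act g hx) f f1' f2' (ι := Option (InfinitePlace N)) (by
      rw [Fintype.card_option, hcardN]
      omega) V hV ω hω ψ (fun i x _ y _ => p1 i x y) (fun i g x _ => p2 i g x) p3 (SU_fg w)
  have hK : ∀ g : Gal(L/N), guN g x ∈ gn11b_K w f f1' := by
    intro g
    refine ⟨SU_act g hx, ?_⟩
    rw [f2' g x hx, hfx, smul_zero]
  have hm0 : ∀ a : k, pw guN (cf χ ρ a) x ∈ gn11b_K w f f1' := by
    intro a
    unfold pw
    exact Subgroup.prod_mem _ fun g _ => Subgroup.zpow_mem _ (hK g) _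
  refine ⟨fun a => pw guN (cf χ ρ a) x, etaN_hom χ ρ x, ?_, ?_, 1, ?_⟩
  · intro a v hv
    show (l : ℤ) ∣ ord v (pw guN (cf χ ρ a) x)
    rw [(hm0 a).1 v hv]
    exact dvd_zero _
  · intro a W hW
    exact f3 _ (hdv _ (hm0 a).1) (hm0 a).2 W hW
  · intro z hz
    exact hnx z (SU_pow hl.ne_zero (hm0 1).1 hz) hz

end H13X
end

-- from Lib.H13X.XN4
section

/-! # H13X: the global elements over N, for points over Ω -/

open NumberField IsDedekindDomain WeierstrassCurve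
open scoped Pointwise

namespace H13X

open H55P (IQ embF eF LF Per IsHecke Pt ac Inert Dec Nm Coc)
open H35P (WAB Ker tt)
open H55K (Tor ak xc yc CMA Dta GV GMod cj cj_cj mul_cj cj_prime cj_dvd cj_nat Nm_cj Nm_mul Nm_nat)
open H55K (Fxd Lft TFld TotRam tot_ram exists_lft lft_fxd exists_abw Abw)
open H55K.S
open H55R (Pl ord es fs smulP under_smulP under_exists ord_map)
open H13S (Abv)
open H13Y (guN EqHomN)
open H99B (Lev)

section res

/-- A finite field in which every element is its own q-th power has at most q elements. -/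
theorem xn4_card {κ : Type} [Field κ] [Finite κ] {q : ℕ} (hq : 2 ≤ q) (h : ∀ b : κ, b ^ q = b) : Nat.card κ ≤ q := by
  classical
  have : Fintype κ := Fintype.ofFinite κ
  let P : Polynomial κ := Polynomial.X ^ q - Polynomial.X
  have hdeg : P.natDegree = q := by
    show (Polynomial.X ^ q - Polynomial.X : Polynomial κ).natDegree = q
    exact FiniteField.X_pow_card_sub_X_natDegree_eq κ (by omega)
  have hP : P ≠ 0 := by
    intro h0
    rw [h0, Polynomial.natDegree_zero] at hdeg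
    omega
  have h1 : (Finset.univ : Finset κ).val ⊆ P.roots := by
    intro b _
    rw [Polynomial.mem_roots hP, Polynomial.IsRoot.def]
    show (Polynomial.X ^ q - Polynomial.X : Polynomial κ).eval b = 0
    rw [Polynomial.eval_sub, Polynomial.eval_pow, Polynomial.eval_X, h b, sub_self]
  have h2 := Polynomial.card_le_degree_of_subset_roots h1
  rw [hdeg] at h2
  rwa [Nat.card_eq_fintype_card]

end res

variable {F : Type} [Field F] [NumberField F] [IQ F] {A B : F} {Om : ℂ} {Ω : Type} [Field Ω] [DecidableEq Ω]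
  [Algebra F Ω] [IsAlgClosure F Ω] {j : Ω →+* ℂ} {act : 𝓞 F →+* AddMonoid.End (Pt (WAB A B) Ω)} {mo : Ideal (𝓞 F)}
  {ψ : Ideal (𝓞 F) →*₀ 𝓞 F}

variable {π : 𝓞 F} {l : ℕ} {N L : IntermediateField F Ω}

/-- The structure of an extension of N on L. -/
@[reducible] noncomputable def algNL {N L : IntermediateField F Ω} (h : N ≤ L) : Algebra N L :=
  (IntermediateField.inclusion h).toRingHom.toAlgebra

/-- The restriction of s (over N) to L. -/
theorem exists_restr (hA : CMA F A B Om j act) (hL : IsTB act π N L) :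
    letI := algNL hL.le
    ∀ s ∈ N.fixingSubgroup, ∃ g : Gal(L/N), ∀ x : L, s (x : Ω) = ((g x : L) : Ω) := by
  letI := algNL hL.le
  intro s hs
  have hs' : s⁻¹ ∈ N.fixingSubgroup := Subgroup.inv_mem _ hs
  have hmap : ∀ y : N, ((algebraMap N L y : L) : Ω) = (y : Ω) := fun _ => rfl
  refine ⟨AlgEquiv.ofBijective
    { toFun := fun x => ⟨s (x : Ω), tb_stable hA hL s hs x⟩
      map_one' := Subtype.ext (map_one s)
      map_mul' := fun x y => Subtype.ext (map_mul s _ _)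
      map_zero' := Subtype.ext (map_zero s)
      map_add' := fun x y => Subtype.ext (map_add s _ _)
      commutes' := fun y => Subtype.ext ((IntermediateField.mem_fixingSubgroup_iff N _).1 hs _ y.2) }
    ⟨fun x y hxy => ?_, fun y => ?_⟩, fun x => rfl⟩
  · have h1 : s (x : Ω) = s (y : Ω) := congrArg Subtype.val hxy
    exact Subtype.ext (s.injective h1)
  · refine ⟨⟨s⁻¹ (y : Ω), tb_stable hA hL s⁻¹ hs' y⟩, Subtype.ext ?_⟩
    show s (s⁻¹ (y : Ω)) = y
    exact s.apply_symm_apply _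

/-- L = N(E[π]) as an abstract extension. -/
theorem tfld_of_tb (hA : CMA F A B Om j act) (hL : IsTB act π N L) :
    letI := algNL hL.le
    TFld act N L π := by
  letI := algNL hL.le
  have hT : IsScalarTower F N L := IsScalarTower.of_algebraMap_eq fun x => Subtype.ext rfl
  have halg : IsAlgClosed Ω := IsAlgClosure.isAlgClosed F
  have hint : Algebra.IsAlgebraic F Ω := IsAlgClosure.isAlgebraic
  have hch : CharZero Ω := charZero_of_injective_algebraMap (algebraMap F Ω).injective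
  have hfL : FiniteDimensional F L := hL.fin
  have hfin : FiniteDimensional N L := Module.Finite.of_restrictScalars_finite F N L
  have hmem : ∀ x : Ω, (∀ s : Ω ≃ₐ[F] Ω, s ∈ L.fixingSubgroup → s x = x) → x ∈ L := fun x hx => ku2_mem L hx
  refine ⟨?_, ?_, ?_⟩
  · apply IsGalois.of_fixedField_eq_bot
    rw [eq_bot_iff]
    intro x hx
    rw [IntermediateField.mem_fixedField_iff] at hx
    have h1 : (x : Ω) ∈ N := by
      apply ku2_mem
      intro s hs
      obtain ⟨g, hg⟩ := exists_restr hA hL s hs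
      rw [hg x, hx g (Subgroup.mem_top g)]
    rw [IntermediateField.mem_bot]
    exact ⟨⟨x, h1⟩, Subtype.ext rfl⟩
  · intro T hT
    have hx : xc T ∈ L := hmem _ fun s hs => by rw [← xc_ac, ((hL.fix s).1 hs).2 T hT]
    have hy : yc T ∈ L := hmem _ fun s hs => by rw [← yc_ac, ((hL.fix s).1 hs).2 T hT]
    exact ⟨⟨xc T, hx⟩, ⟨yc T, hy⟩, rfl, rfl⟩
  · intro s hs hfix x
    have h1 : s ∈ L.fixingSubgroup := (hL.fix s).2 ⟨by
      rw [IntermediateField.mem_fixingSubgroup_iff]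
      exact fun y hy => hs ⟨y, hy⟩, hfix⟩
    exact (IntermediateField.mem_fixingSubgroup_iff L _).1 h1 x x.2

/-- The decomposition groups above w over N fix the points killed by π: Gal(L/N) acts freely on the primes of L above w. -/
theorem stab_N (hL : IsTB act π N L) [NumberField N] [NumberField L] {w : Pl N}
    (hfx : ∀ V : ValuationSubring Ω, Abv N V w → ∀ s, DecN N V s → ∀ T ∈ Tor act π, ac (WAB A B) s T = T) :
    letI := algNL hL.le
    ∀ Q : Pl L, Q.under (𝓞 N) = w → ∀ σ : Gal(L/N), smulP σ Q = Q → σ = 1 := by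
  letI := algNL hL.le
  have hT : IsScalarTower F N L := IsScalarTower.of_algebraMap_eq fun x => Subtype.ext rfl
  have hT' : IsScalarTower N L Ω := IsScalarTower.of_algebraMap_eq fun x => rfl
  intro Q hQ σ hσ
  obtain ⟨V, hV⟩ := exists_abw Ω Q
  have hVw : Abv N V w := hV.below hQ
  have hmono : ∀ s : Ω ≃ₐ[F] Ω, DecN N V s → s ∈ L.fixingSubgroup := fun s hs =>
    (hL.fix s).2 ⟨hs.1, hfx V hVw s hs⟩
  obtain ⟨φ, hφ, hφD, hφF⟩ := exists_frobK N hVw
  set q := Ideal.absNorm w.asIdeal with hq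
  have hq2 : 2 ≤ q := by
    have h1 : q ≠ 0 := by
      rw [hq, Ne, Ideal.absNorm_eq_zero_iff]
      exact w.ne_bot
    have h2 : q ≠ 1 := by
      rw [hq, Ne, Ideal.absNorm_eq_one_iff]
      exact w.isPrime.ne_top
    omega
  have hQm := Q.isMaximal
  have hQp := Q.isPrime
  have hwm := w.isMaximal
  letI : Field (𝓞 L ⧸ Q.asIdeal) := Ideal.Quotient.field Q.asIdeal
  have hfinQ : Finite (𝓞 L ⧸ Q.asIdeal) := Ideal.finiteQuotientOfFreeOfNeBot Q.asIdeal Q.ne_bot
  have hfinw : Finite (𝓞 N ⧸ w.asIdeal) := Ideal.finiteQuotientOfFreeOfNeBot w.asIdeal w.ne_bot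
  have hpow : ∀ b : 𝓞 L ⧸ Q.asIdeal, b ^ q = b := by
    intro b
    obtain ⟨y, rfl⟩ := Ideal.Quotient.mk_surjective b
    rw [← map_pow, ← sub_eq_zero, ← map_sub, Ideal.Quotient.eq_zero_iff_mem]
    have hyV : ((y : L) : Ω) ∈ V := (hV (y : L)).2 (Q.valuation_le_one y)
    have h1 := hφF _ hyV
    rw [(IntermediateField.mem_fixingSubgroup_iff L _).1 (hmono φ ⟨hφ, hφD⟩) _ (y : L).2] at h1
    have h2 : Q.valuation L ((y - y ^ q : 𝓞 L) : L) < 1 := by
      rw [← hV.lt]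
      exact h1
    have h3 := (Q.valuation_lt_one_iff_mem _).1 h2
    have e : y ^ q - y = -(y - y ^ q) := by ring
    rw [e]
    exact neg_mem h3
  have hcard := xn4_card hq2 hpow
  have hu : ∀ y : 𝓞 N, y ∈ w.asIdeal ↔ algebraMap (𝓞 N) (𝓞 L) y ∈ Q.asIdeal := by
    intro y
    rw [← hQ]
    exact Iff.rfl
  let f : (𝓞 N ⧸ w.asIdeal) →+* (𝓞 L ⧸ Q.asIdeal) :=
    Ideal.quotientMap Q.asIdeal (algebraMap (𝓞 N) (𝓞 L)) fun y hy => (hu y).1 hy
  have hf1 : Function.Injective f := Ideal.quotientMap_injective' fun y hy => (hu y).2 hy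
  have hf : Function.Bijective f := hf1.bijective_of_nat_card_le (by
    have h1 : Nat.card (𝓞 N ⧸ w.asIdeal) = q := by
      rw [hq, Ideal.absNorm_apply, Submodule.cardQuot_apply]
    rw [h1]
    exact hcard)
  have hσx : ∀ x : 𝓞 L, σ • x - x ∈ Q.asIdeal := by
    intro x
    obtain ⟨b, hb⟩ := hf.2 (Ideal.Quotient.mk Q.asIdeal x)
    obtain ⟨y, rfl⟩ := Ideal.Quotient.mk_surjective b
    have h1 : Ideal.Quotient.mk Q.asIdeal (algebraMap (𝓞 N) (𝓞 L) y) = Ideal.Quotient.mk Q.asIdeal x := hb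
    have hz : x - algebraMap (𝓞 N) (𝓞 L) y ∈ Q.asIdeal := by
      rw [← Ideal.Quotient.eq_zero_iff_mem, map_sub, h1, sub_self]
    have hsz : σ • (x - algebraMap (𝓞 N) (𝓞 L) y) ∈ Q.asIdeal := by
      have h2 : Q.asIdeal = σ • Q.asIdeal := (congrArg HeightOneSpectrum.asIdeal hσ).symm
      rw [h2]
      exact Ideal.smul_mem_pointwise_smul _ _ _ hz
    have hy : σ • algebraMap (𝓞 N) (𝓞 L) y = algebraMap (𝓞 N) (𝓞 L) y := by
      apply RingOfIntegers.ext
      exact σ.commutes (y : N)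
    have e : σ • x - x = σ • (x - algebraMap (𝓞 N) (𝓞 L) y) - (x - algebraMap (𝓞 N) (𝓞 L) y) := by
      rw [smul_sub, hy]
      ring
    rw [e]
    exact sub_mem hsz hz
  obtain ⟨s, hs, hsl⟩ := H55K.exists_inert (F := F) hV σ hσx
  have hsN : s ∈ N.fixingSubgroup := by
    rw [IntermediateField.mem_fixingSubgroup_iff]
    exact fun y hy => hsl.fxd ⟨y, hy⟩
  have hsL := hmono s ⟨hsN, Inert.dec hs⟩
  exact (lft_fxd hsl).1 fun x => (IntermediateField.mem_fixingSubgroup_iff L _).1 hsL _ x.2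

end H13X
end

-- from Lib.H13X.XN5
section

/-! # H13X: the global elements over N (GN) -/

open NumberField IsDedekindDomain WeierstrassCurve

namespace H13X

open H55P (IQ embF eF LF Per IsHecke Pt ac Inert Dec Nm Coc)
open H35P (WAB Ker tt)
open H55K (Tor ak xc yc CMA Dta GV GMod cj cj_cj mul_cj cj_prime cj_dvd cj_nat Nm_cj Nm_mul Nm_nat)
open H55K (Fxd Lft TFld TotRam tot_ram exists_lft lft_fxd exists_abw Abw)
open H55K.S
open H55R (Pl ord es fs smulP under_smulP under_exists ord_map)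
open H13S (Abv)
open H13Y (guN EqHomN)
open H99B (Lev)

variable {F : Type} [Field F] [NumberField F] [IQ F] {A B : F} {Om : ℂ} {Ω : Type} [Field Ω] [DecidableEq Ω]
  [Algebra F Ω] [IsAlgClosure F Ω] {j : Ω →+* ℂ} {act : 𝓞 F →+* AddMonoid.End (Pt (WAB A B) Ω)} {mo : Ideal (𝓞 F)}
  {ψ : Ideal (𝓞 F) →*₀ 𝓞 F}

variable {π : 𝓞 F} {l : ℕ} {N L : IntermediateField F Ω}

/-- THE GLOBAL ELEMENTS: w is not above l, the decomposition groups above w over N fix the points killed by π. -/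
theorem exists_GN (D : Dat A B Om j act mo ψ π l) [NumberField N] [NumberField L] (hL : IsTB act π N L)
    (hU : H55P.UnrP l N) {w : HeightOneSpectrum (𝓞 N)} (hl : (l : 𝓞 N) ∉ w.asIdeal)
    (hfx : ∀ V : ValuationSubring Ω, Abv N V w → ∀ s, DecN N V s → ∀ T ∈ Tor act π, ac (WAB A B) s T = T) :
    ∃ m : Pt (WAB A B) Ω → (L)ˣ, GN act π l N L w m := by
  classical
  have hlp : Fact l.Prime := ⟨D.hl⟩
  have hA := D.cma
  have hp := D.pr
  let _ := algNL hL.le
  have hT : IsScalarTower F N L := IsScalarTower.of_algebraMap_eq fun x => Subtype.ext rfl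
  have hT' : IsScalarTower N L Ω := IsScalarTower.of_algebraMap_eq fun x => rfl
  have hTF := tfld_of_tb hA hL
  have hrestr := exists_restr hA hL
  have hst := stab_N hL hfx
  have hgal : IsGalois N L := hTF.gal
  have hmax : (Ideal.span {π}).IsMaximal := by
    have h1 : (Ideal.span {π}).IsPrime := (Ideal.span_singleton_prime hp.ne_zero).2 hp
    exact h1.isMaximal (by rw [Ne, Ideal.span_singleton_eq_bot]; exact hp.ne_zero)
  have hb : Ideal.span {π} ≠ ⊥ := by
    rw [Ne, Ideal.span_singleton_eq_bot]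
    exact hp.ne_zero
  let k := 𝓞 F ⧸ Ideal.span {π}
  letI ik : Field k := Ideal.Quotient.field (Ideal.span {π})
  have hfin : Finite k := Ideal.finiteQuotientOfFreeOfNeBot _ hb
  letI : Fintype k := Fintype.ofFinite k
  let q : 𝓞 F →+* k := Ideal.Quotient.mk (Ideal.span {π})
  have hq : Function.Surjective q := Ideal.Quotient.mk_surjective
  have hk : ∀ x, q x = 0 ↔ π ∣ x := fun x => by
    rw [Ideal.Quotient.eq_zero_iff_mem, Ideal.mem_span_singleton]
  have hchar : CharP k l := by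
    have h1 : ((l : ℕ) : k) = 0 := by
      have h2 := (hk (l : 𝓞 F)).2 D.dvd
      rw [map_natCast] at h2
      exact h2
    obtain ⟨p, hp⟩ := CharP.exists k
    have h2 : p ∣ l := (CharP.cast_eq_zero_iff k p l).1 h1
    rcases (Nat.dvd_prime D.hl).1 h2 with h3 | h3
    · exfalso
      subst h3
      have h4 : ((1 : ℕ) : k) = 0 := (CharP.cast_eq_zero_iff k 1 1).2 (dvd_refl 1)
      rw [Nat.cast_one] at h4
      exact one_ne_zero h4
    · rw [← h3]
      exact hp
  obtain ⟨χ, hχi, hχ⟩ := H55K.exists_chi hA hp hTF q hq hk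
  obtain ⟨T₀, hT₀, h0⟩ := H55K.exists_tor hA hp
  have hwπ : algebraMap (𝓞 F) (𝓞 N) π ∉ w.asIdeal := by
    intro h
    apply hl
    obtain ⟨c, hc⟩ := D.dvd
    have h1 := congrArg (algebraMap (𝓞 F) (𝓞 N)) hc
    rw [map_natCast, map_mul] at h1
    rw [h1]
    exact w.asIdeal.mul_mem_right _ h
  have hG : ∀ V : ValuationSubring Ω, V.valuation (ak Ω π) < 1 → GV A B V := by
    intro V hV
    have hVl : V.valuation (l : Ω) < 1 := by
      obtain ⟨c, hc⟩ := D.dvd
      have h1 : vo V (l : 𝓞 F) = vo V π * vo V c := by rw [hc, vo_mul]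
      rw [← vo_nat (F := F), h1]
      exact lt_of_le_of_lt (mul_le_of_le_one_right' (vo_le V c)) hV
    exact D.dta.good V hVl
  obtain ⟨m₀, hm, hm1, hm2, a0, hm3⟩ := glob_N hA D.five hp hTF hG
    (fun v hv => unr_val D.hl.ne_zero D.dvd hU v hv) q hq hk χ hχi hχ w hwπ hst
  have hmem : ∀ (c : 𝓞 F) (v : Pl L), v.valuation L (algebraMap F L (c : F)) < 1 →
      algebraMap (𝓞 F) (𝓞 L) c ∈ v.asIdeal := by
    intro c v hv
    have h1 : algebraMap F L (c : F) = algebraMap (𝓞 L) L (algebraMap (𝓞 F) (𝓞 L) c) := rfl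
    rw [h1, HeightOneSpectrum.valuation_lt_one_iff_mem] at hv
    exact hv
  have hact0 : ∀ c c' : 𝓞 F, act c T₀ = act c' T₀ → q c = q c' := by
    intro c c' h
    have h1 : act (c - c') T₀ = 0 := by rw [H55K.k2a_sub, h, sub_self]
    rw [H55K.tor_zero hA hp hT₀ h0, ← hk, map_sub, sub_eq_zero] at h1
    exact h1
  have hex : ∀ T : Pt (WAB A B) Ω, ∃ c : 𝓞 F, T ∈ Tor act π → act c T₀ = T := by
    intro T
    by_cases hT : T ∈ Tor act π
    · obtain ⟨c, hc⟩ := H55K.tor_gen hA hp hT₀ hT h0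
      exact ⟨c, fun _ => hc⟩
    · exact ⟨0, fun h => absurd h hT⟩
  choose cc hcc using hex
  have hP : ∀ c : 𝓞 F, act c T₀ ∈ Tor act π := fun c => H55K.tor_act c hT₀
  have hdet : ∀ (c : 𝓞 F), q (cc (act c T₀)) = q c := by
    intro c
    exact hact0 _ _ (hcc _ (hP c))
  refine ⟨fun T => m₀ (q (cc T)), ⟨?_, ?_, ?_, ?_, ?_⟩⟩
  · intro T hT T' hT'
    have h2 : q (cc (T + T')) = q (cc T) + q (cc T') := by
      rw [← map_add, ← hdet (cc T + cc T')]
      congr 2
      rw [H55K.k2a_add, hcc T hT, hcc T' hT']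
    show ∃ z, m₀ (q (cc (T + T'))) = _
    rw [h2]
    exact hm.add _ _
  · intro σ hσ T hT
    obtain ⟨s, hs⟩ := hrestr σ hσ
    obtain ⟨c, hc⟩ := hq (χ s : k)
    have h2 : ac (WAB A B) σ T = act (c * cc T) T₀ := by
      rw [H55K.k2a_mul, hcc T hT]
      exact hχ s σ c (fun x => hs x) hc T hT
    have h3 : q (cc (ac (WAB A B) σ T)) = χ s * q (cc T) := by
      rw [h2, hdet, map_mul, hc]
    obtain ⟨z, hz⟩ := hm.equiv s (q (cc T))
    refine ⟨z, ?_⟩
    show ((m₀ (q (cc (ac (WAB A B) σ T))) : L) : Ω) = _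
    rw [h3, hz, hs]
    rfl
  · intro T hT V W hVW hVw
    refine hm1 _ W fun hWw => hVw ?_
    have h1 : Abw V W := hVW
    exact h1.below hWw
  · intro T hT v hv
    exact hm2 _ v (hmem π v hv)
  · obtain ⟨c, hc⟩ := hq a0
    refine ⟨act c T₀, hP c, ?_⟩
    intro z
    show m₀ (q (cc (act c T₀))) ≠ z ^ l
    rw [hdet, hc]
    exact hm3 z

end H13X
end

-- from Lib.H55G.E3a
section

/-! # H55G, part E: the primes of a quadratic extension -/

open NumberField IsDedekindDomain WeierstrassCurve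

namespace H55G

open H55P (IQ embF eF LF Per IsHecke Pt ac Inert Dec Nm)
open H35P (WAB Ker GoodW IntW)
open H55K (CMA ak xc yc cj cj_cj GoodAt Abw)
open H55K.TQ

variable {F K₀ K : Type} [Field F] [NumberField F] [IQ F] [Field K₀] [NumberField K₀] [Field K] [NumberField K]
  [Algebra F K] [Algebra K₀ K]

/-- τ is an automorphism of the quadratic extension K of K₀ which is the complex conjugation on F. -/
structure QT (F K₀ K : Type) [Field F] [NumberField F] [IQ F] [Field K₀] [NumberField K₀] [Field K] [NumberField K]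
    [Algebra F K] [Algebra K₀ K] (τ : K ≃ₐ[K₀] K) : Prop where
  rank : Module.finrank K₀ K = 2
  tau : ∀ x : 𝓞 F, τ (algebraMap F K (x : F)) = algebraMap F K ((cj x : 𝓞 F) : F)

theorem e3a_cj (F : Type) [Field F] [NumberField F] [IQ F] : ∃ a : 𝓞 F, cj a ≠ a := by
  by_contra hcon
  push Not at hcon
  obtain ⟨x, hx⟩ := IQ.im (F := F)
  apply hx
  rw [← Complex.conj_eq_iff_im]
  obtain ⟨a, b, hb, rfl⟩ := IsFractionRing.div_surjective (𝓞 F) x
  have h : ∀ c : 𝓞 F, (starRingEnd ℂ) ((IQ.emb : F →+* ℂ) (algebraMap (𝓞 F) F c)) = (IQ.emb : F →+* ℂ) (algebraMap (𝓞 F) F c) := by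
    intro c
    have h1 := H55K.e_cj c
    rw [hcon c] at h1
    exact h1.symm
  rw [map_div₀, map_div₀, h, h]

theorem e3a_ne {τ : K ≃ₐ[K₀] K} (hτ : QT F K₀ K τ) : τ ≠ 1 := by
  rintro rfl
  obtain ⟨a, ha⟩ := e3a_cj F
  apply ha
  have h1 := hτ.tau a
  have h2 : algebraMap F K (a : F) = algebraMap F K ((cj a : 𝓞 F) : F) := h1
  exact (RingOfIntegers.ext ((algebraMap F K).injective h2)).symm

theorem e3a_card {τ : K ≃ₐ[K₀] K} (hτ : QT F K₀ K τ) : Nat.card Gal(K/K₀) = 2 := by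
  have : Algebra.IsQuadraticExtension K₀ K := ⟨hτ.rank⟩
  have hgal : IsGalois K₀ K := inferInstance
  rw [IsGalois.card_aut_eq_finrank, hτ.rank]

theorem e3a_gal {τ : K ≃ₐ[K₀] K} (hτ : QT F K₀ K τ) (g : Gal(K/K₀)) : g = 1 ∨ g = τ := by
  obtain ⟨y, -, hy⟩ := (Nat.card_eq_two_iff' (1 : Gal(K/K₀))).1 (e3a_card hτ)
  by_cases hg : g = 1
  · exact Or.inl hg
  · exact Or.inr ((hy g hg).trans (hy τ (e3a_ne hτ)).symm)

open scoped Pointwise in
/-- A prime over v different from w: w is not stable under τ. -/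
theorem e3a_move {τ : K ≃ₐ[K₀] K} (hτ : QT F K₀ K τ) {v : HeightOneSpectrum (𝓞 K₀)} {w w' : HeightOneSpectrum (𝓞 K)}
    (hw : v.asIdeal = w.asIdeal.under (𝓞 K₀)) (hw' : v.asIdeal = w'.asIdeal.under (𝓞 K₀)) (hne : w ≠ w') :
    ∃ x : 𝓞 K, x ∈ w.asIdeal ∧ τ • x ∉ w.asIdeal := by
  have : Algebra.IsQuadraticExtension K₀ K := ⟨hτ.rank⟩
  have hgal : IsGalois K₀ K := inferInstance
  by_contra hcon
  push Not at hcon
  have hp : w.asIdeal.IsPrime := w.isPrime
  have hp' : w'.asIdeal.IsPrime := w'.isPrime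
  obtain ⟨g, hg⟩ := Algebra.IsInvariant.exists_smul_of_under_eq (𝓞 K₀) (𝓞 K) Gal(K/K₀) w.asIdeal w'.asIdeal (hw.symm.trans hw')
  rcases e3a_gal hτ g with h1 | h1
  · rw [h1, one_smul] at hg
    exact hne (HeightOneSpectrum.ext hg.symm)
  · rw [h1] at hg
    have hle : w'.asIdeal ≤ w.asIdeal := by
      intro x hx
      rw [hg, Ideal.mem_pointwise_smul_iff_inv_smul_mem] at hx
      have h2 := hcon _ hx
      rwa [smul_inv_smul] at h2
    exact hne (HeightOneSpectrum.ext (w'.isMaximal.eq_of_le w.isPrime.ne_top hle).symm)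

/-- Chunk E3 (M). Port of H55K.TQ.quad_primes (RB1.lean; copy its proof: hQ.rank and τ from hQ). Additional claims. First case (two primes): if τ x were in w₁ for all x in w₁ then τ w₁ = w₁ (as ideals: w₁ ≤ τ⁻¹ w₁, maximal), so the group {1, τ} (2 elements, τ ≠ 1 because it is not the identity on F) fixes w₁, but it acts transitively on the primes above v (Ideal.exists_smul_eq_of_isGaloisGroup
or Algebra.IsInvariant.exists_smul_of_under_eq): contradiction to w₁ ≠ w₂; the same for w₂. Second case: the inertia group of w₁ has ramificationIdx = 1 elements (H55P.cl_card; e f = 2 with f = 2), so τ is not in it. Third case: the inertia group has 2 elements, it is everything: hin in the proof of quad_primes. -/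
theorem quad_primes' {τ : K ≃ₐ[K₀] K} (hτ : QT F K₀ K τ) (v : HeightOneSpectrum (𝓞 K₀)) :
    (∃ w₁ w₂ : HeightOneSpectrum (𝓞 K), w₁ ≠ w₂ ∧ Ideal.absNorm w₁.asIdeal = Ideal.absNorm v.asIdeal ∧
      Ideal.absNorm w₂.asIdeal = Ideal.absNorm v.asIdeal ∧ (∃ x : 𝓞 K, x ∈ w₁.asIdeal ∧ τ • x ∉ w₁.asIdeal) ∧
      (∃ x : 𝓞 K, x ∈ w₂.asIdeal ∧ τ • x ∉ w₂.asIdeal) ∧
      ∀ w : HeightOneSpectrum (𝓞 K), v.asIdeal = w.asIdeal.under (𝓞 K₀) ↔ w = w₁ ∨ w = w₂) ∨
    (∃ w₁ : HeightOneSpectrum (𝓞 K), Ideal.absNorm w₁.asIdeal = Ideal.absNorm v.asIdeal ^ 2 ∧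
      (∃ x : 𝓞 K, τ • x - x ∉ w₁.asIdeal) ∧
      ∀ w : HeightOneSpectrum (𝓞 K), v.asIdeal = w.asIdeal.under (𝓞 K₀) ↔ w = w₁) ∨
    (∃ w₁ : HeightOneSpectrum (𝓞 K), (∀ x : 𝓞 K, τ • x - x ∈ w₁.asIdeal) ∧
      ∀ w : HeightOneSpectrum (𝓞 K), v.asIdeal = w.asIdeal.under (𝓞 K₀) ↔ w = w₁) := by
  have : Algebra.IsQuadraticExtension K₀ K := ⟨hτ.rank⟩
  have hgal : IsGalois K₀ K := inferInstance
  have hcardG : Nat.card Gal(K/K₀) = 2 := e3a_card hτ
  have hmax : v.asIdeal.IsMaximal := v.isMaximal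
  have hid := Ideal.ncard_primesOver_mul_ramificationIdxIn_mul_inertiaDegIn v.asIdeal (𝓞 K) Gal(K/K₀)
  rw [hcardG] at hid
  -- every prime above
  have hprime : ∀ P ∈ Ideal.primesOver v.asIdeal (𝓞 K), ∃ w : HeightOneSpectrum (𝓞 K), w.asIdeal = P := by
    rintro P ⟨hP1, hP2⟩
    refine ⟨⟨P, hP1, ?_⟩, rfl⟩
    exact Ideal.ne_bot_of_liesOver_of_ne_bot v.ne_bot P
  have hmem : ∀ w : HeightOneSpectrum (𝓞 K), v.asIdeal = w.asIdeal.under (𝓞 K₀) ↔
      w.asIdeal ∈ Ideal.primesOver v.asIdeal (𝓞 K) := by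
    intro w
    constructor
    · intro h
      exact ⟨w.isPrime, ⟨h⟩⟩
    · intro h
      exact h.2.over
  have hnorm : ∀ w : HeightOneSpectrum (𝓞 K), w.asIdeal ∈ Ideal.primesOver v.asIdeal (𝓞 K) →
      Ideal.absNorm w.asIdeal = Ideal.absNorm v.asIdeal ^ (Ideal.inertiaDegIn v.asIdeal (𝓞 K)) := by
    intro w hw
    have hlies : w.asIdeal.LiesOver v.asIdeal := hw.2
    have h3 := Ideal.absNorm_eq_pow_inertiaDeg'_of_liesOver w.asIdeal v.asIdeal v.isPrime v.ne_bot
    rw [Ideal.inertiaDeg'_algebraMap] at h3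
    rw [h3, Ideal.inertiaDegIn_eq_inertiaDeg v.asIdeal w.asIdeal Gal(K/K₀),
      Ideal.inertiaDeg_eq_of_isMaximal v.asIdeal w.asIdeal]
  have hcases : ((Ideal.primesOver v.asIdeal (𝓞 K)).ncard = 2 ∧ Ideal.inertiaDegIn v.asIdeal (𝓞 K) = 1) ∨
      ((Ideal.primesOver v.asIdeal (𝓞 K)).ncard = 1 ∧ Ideal.ramificationIdxIn v.asIdeal (𝓞 K) = 1 ∧
        Ideal.inertiaDegIn v.asIdeal (𝓞 K) = 2) ∨
      ((Ideal.primesOver v.asIdeal (𝓞 K)).ncard = 1 ∧ Ideal.ramificationIdxIn v.asIdeal (𝓞 K) = 2) := by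
    generalize (Ideal.primesOver v.asIdeal (𝓞 K)).ncard = g at hid
    generalize Ideal.ramificationIdxIn v.asIdeal (𝓞 K) = e at hid
    generalize Ideal.inertiaDegIn v.asIdeal (𝓞 K) = f at hid
    have h1 : g ∣ 2 := ⟨_, hid.symm⟩
    rcases (Nat.dvd_prime Nat.prime_two).1 h1 with h2 | h2
    · rw [h2, one_mul] at hid
      have h3 : e ∣ 2 := ⟨_, hid.symm⟩
      rcases (Nat.dvd_prime Nat.prime_two).1 h3 with h4 | h4
      · rw [h4, one_mul] at hid
        exact Or.inr (Or.inl ⟨h2, h4, hid⟩)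
      · exact Or.inr (Or.inr ⟨h2, h4⟩)
    · rw [h2] at hid
      have h3 : e * f = 1 := by omega
      exact Or.inl ⟨h2, Nat.eq_one_of_mul_eq_one_left h3⟩
  rcases hcases with ⟨hg, hf⟩ | ⟨hg, he, hf⟩ | ⟨hg, he⟩
  · left
    rw [Set.ncard_eq_two] at hg
    obtain ⟨P₁, P₂, hne, hP⟩ := hg
    obtain ⟨w₁, hw₁⟩ := hprime P₁ (by rw [hP]; exact Or.inl rfl)
    obtain ⟨w₂, hw₂⟩ := hprime P₂ (by rw [hP]; exact Or.inr rfl)
    have hne12 : w₁ ≠ w₂ := by
      rintro rfl
      exact hne (hw₁.symm.trans hw₂)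
    have hm1 : v.asIdeal = w₁.asIdeal.under (𝓞 K₀) := (hmem w₁).2 (by rw [hw₁, hP]; exact Or.inl rfl)
    have hm2 : v.asIdeal = w₂.asIdeal.under (𝓞 K₀) := (hmem w₂).2 (by rw [hw₂, hP]; exact Or.inr rfl)
    refine ⟨w₁, w₂, hne12, ?_, ?_, e3a_move hτ hm1 hm2 hne12, e3a_move hτ hm2 hm1 hne12.symm, ?_⟩
    · rw [hnorm w₁ (by rw [hw₁, hP]; exact Or.inl rfl), hf, pow_one]
    · rw [hnorm w₂ (by rw [hw₂, hP]; exact Or.inr rfl), hf, pow_one]
    · intro w
      rw [hmem, hP]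
      constructor
      · rintro (h | h)
        · exact Or.inl (HeightOneSpectrum.ext (h.trans hw₁.symm))
        · exact Or.inr (HeightOneSpectrum.ext (h.trans hw₂.symm))
      · rintro (h | h)
        · left; rw [h, hw₁]
        · right; rw [h, hw₂]; exact Set.mem_singleton _
  · right; left
    rw [Set.ncard_eq_one] at hg
    obtain ⟨P₁, hP⟩ := hg
    obtain ⟨w₁, hw₁⟩ := hprime P₁ (by rw [hP]; exact Set.mem_singleton _)
    refine ⟨w₁, ?_, ?_, ?_⟩
    · rw [hnorm w₁ (by rw [hw₁, hP]; exact Set.mem_singleton _), hf]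
    · by_contra hcon
      push Not at hcon
      have hw1mem : w₁.asIdeal ∈ Ideal.primesOver v.asIdeal (𝓞 K) := by
        rw [hw₁, hP]; exact Set.mem_singleton _
      have hlies : w₁.asIdeal.LiesOver v.asIdeal := hw1mem.2
      have hcard := H55P.cl_card (M := K₀) w₁.asIdeal w₁.ne_bot
      rw [← Ideal.ramificationIdxIn_eq_ramificationIdx v.asIdeal w₁.asIdeal Gal(K/K₀), he] at hcard
      have hbot := Subgroup.eq_bot_of_card_eq _ hcard
      have hin : τ ∈ w₁.asIdeal.inertia Gal(K/K₀) := hcon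
      rw [hbot, Subgroup.mem_bot] at hin
      exact e3a_ne hτ hin
    · intro w
      rw [hmem, hP, Set.mem_singleton_iff]
      constructor
      · intro h
        exact HeightOneSpectrum.ext (h.trans hw₁.symm)
      · intro h
        rw [h, hw₁]
  · right; right
    rw [Set.ncard_eq_one] at hg
    obtain ⟨P₁, hP⟩ := hg
    obtain ⟨w₁, hw₁⟩ := hprime P₁ (by rw [hP]; exact Set.mem_singleton _)
    refine ⟨w₁, ?_, ?_⟩
    · have hw1mem : w₁.asIdeal ∈ Ideal.primesOver v.asIdeal (𝓞 K) := by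
        rw [hw₁, hP]; exact Set.mem_singleton _
      have hlies : w₁.asIdeal.LiesOver v.asIdeal := hw1mem.2
      have hne0 : w₁.asIdeal ≠ ⊥ := w₁.ne_bot
      have hcard := H55P.cl_card (M := K₀) w₁.asIdeal w₁.ne_bot
      rw [← Ideal.ramificationIdxIn_eq_ramificationIdx v.asIdeal w₁.asIdeal Gal(K/K₀), he] at hcard
      have htop : w₁.asIdeal.inertia Gal(K/K₀) = ⊤ := by
        apply Subgroup.eq_top_of_card_eq
        rw [hcard, hcardG]
      intro x
      have hin : τ ∈ w₁.asIdeal.inertia Gal(K/K₀) := by rw [htop]; exact Subgroup.mem_top _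
      exact hin x
    · intro w
      rw [hmem, hP, Set.mem_singleton_iff]
      constructor
      · intro h
        exact HeightOneSpectrum.ext (h.trans hw₁.symm)
      · intro h
        rw [h, hw₁]

end H55G
end

-- from Lib.H55G.E3b
section

/-! # H55G, part E: the primes of a quadratic extension -/

open NumberField IsDedekindDomain WeierstrassCurve

namespace H55G

open H55P (IQ embF eF LF Per IsHecke Pt ac Inert Dec Nm)
open H35P (WAB Ker GoodW IntW)
open H55K (CMA ak xc yc cj cj_cj GoodAt Abw)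
open H55K.TQ

variable {F K₀ K : Type} [Field F] [NumberField F] [IQ F] [Field K₀] [NumberField K₀] [Field K] [NumberField K]
  [Algebra F K] [Algebra K₀ K]

/-- Chunk E3 (S). g fixes K₀ and K is normal of degree 2 over K₀: g maps the image of K in Ω to itself (choose x in K not in K₀; x is a root of (T - x)(T - τ x), with coefficients in K₀, so g x = x or g x = τ x in Ω; K = K₀ + K₀ x). -/
theorem g_cases {τ : K ≃ₐ[K₀] K} (hτ : QT F K₀ K τ) {Ω : Type} [Field Ω] [Algebra K Ω] [Algebra K₀ Ω] [IsScalarTower K₀ K Ω]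
    (g : Ω ≃+* Ω) (hg : ∀ x : K₀, g (algebraMap K₀ Ω x) = algebraMap K₀ Ω x) :
    (∀ x : K, g (algebraMap K Ω x) = algebraMap K Ω x) ∨ ∀ x : K, g (algebraMap K Ω x) = algebraMap K Ω (τ x) := by
  have : Algebra.IsQuadraticExtension K₀ K := ⟨hτ.rank⟩
  have hgal : IsGalois K₀ K := inferInstance
  obtain ⟨a, ha⟩ := e3a_cj F
  have hn := H55K.mul_cj a
  set y : K := algebraMap F K (a : F) with hy
  set y' : K := algebraMap F K ((cj a : 𝓞 F) : F) with hy'
  have hty : τ y = y' := hτ.tau a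
  have hty' : τ y' = y := by
    have h1 := hτ.tau (cj a)
    rw [H55K.cj_cj] at h1
    exact h1
  have hne : y - y' ≠ 0 := by
    intro h0
    apply ha
    have h2 : algebraMap F K (a : F) = algebraMap F K ((cj a : 𝓞 F) : F) := sub_eq_zero.1 h0
    exact (RingOfIntegers.ext ((algebraMap F K).injective h2)).symm
  have hfix : ∀ z : K, τ z = z → ∃ α : K₀, algebraMap K₀ K α = z := by
    intro z hz
    have h1 : z ∈ (⊥ : IntermediateField K₀ K) := by
      rw [IsGalois.mem_bot_iff_fixed]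
      intro f
      rcases e3a_gal hτ f with h2 | h2
      · rw [h2]; rfl
      · rw [h2]; exact hz
    exact IntermediateField.mem_bot.1 h1
  have hdec : ∀ z : K, ∃ α β : K₀, z = algebraMap K₀ K α + algebraMap K₀ K β * y := by
    intro z
    obtain ⟨β, hβ⟩ := hfix ((z - τ z) / (y - y')) (by
      have h1 : τ (τ z) = z := by
        rcases e3a_gal hτ (τ * τ) with h2 | h2
        · exact congrArg (fun f : Gal(K/K₀) => f z) h2
        · exact absurd (mul_eq_left.1 h2) (e3a_ne hτ)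
      rw [map_div₀, map_sub, map_sub, hty, hty', h1, ← neg_sub z, ← neg_sub y, neg_div_neg_eq])
    obtain ⟨α, hα⟩ := hfix (z - algebraMap K₀ K β * y) (by
      rw [map_sub, map_mul, hty, AlgEquiv.commutes, hβ]
      field_simp
      ring)
    exact ⟨α, β, by rw [hα, sub_add_cancel]⟩
  obtain ⟨α₀, hα₀⟩ := hfix (y + y') (by rw [map_add, hty, hty', add_comm])
  obtain ⟨β₀, hβ₀⟩ := hfix (y * y') (by rw [map_mul, hty, hty', mul_comm])
  have hmap : ∀ α : K₀, algebraMap K Ω (algebraMap K₀ K α) = algebraMap K₀ Ω α := fun α =>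
    (IsScalarTower.algebraMap_apply K₀ K Ω α).symm
  have hroot : (g (algebraMap K Ω y) - algebraMap K Ω y) * (g (algebraMap K Ω y) - algebraMap K Ω y') = 0 := by
    have h1 : y * y - (y + y') * y + y * y' = 0 := by ring
    rw [← hα₀, ← hβ₀] at h1
    have h2 := congrArg (fun z => g (algebraMap K Ω z)) h1
    simp only [map_add, map_sub, map_mul, hmap, hg, map_zero] at h2
    have h3 : algebraMap K₀ Ω α₀ = algebraMap K Ω y + algebraMap K Ω y' := by
      rw [← hmap, hα₀, map_add]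
    have h4 : algebraMap K₀ Ω β₀ = algebraMap K Ω y * algebraMap K Ω y' := by
      rw [← hmap, hβ₀, map_mul]
    rw [h3, h4] at h2
    linear_combination h2
  rcases mul_eq_zero.1 hroot with h1 | h1
  · left
    intro z
    obtain ⟨α, β, rfl⟩ := hdec z
    rw [map_add, map_mul, hmap, hmap, map_add, map_mul, hg, hg, sub_eq_zero.1 h1]
  · right
    intro z
    obtain ⟨α, β, rfl⟩ := hdec z
    rw [map_add, map_mul, hmap, hmap, map_add, map_mul, hg, hg, sub_eq_zero.1 h1, map_add τ, map_mul τ, AlgEquiv.commutes,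
      AlgEquiv.commutes, hty, map_add, map_mul, hmap, hmap]

end H55G
end
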