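import Mathlib
import Pool.Agent.Lib.H1M.PP2.D_H55G_D0
import Pool.Agent.Lib.H1M.PP2.M101

/-! Merged copies (to shorten the build) of Lib.H55G.A1a, Lib.H55G.A1b, Lib.H55G.A2, Lib.H55G.A4A, Lib.H55G.A5, Lib.H55G.A3a, Lib.H55G.A3b, Lib.H55G.A4B, Lib.H55G.A6, Lib.H55G.A7a, Lib.H55G.A7b, Lib.H55G.A7c, Lib.H55G.A8. -/

-- from Lib.H55G.A1a
section

/-! # H55G, part A: kernels of multiplications -/

open NumberField IsDedekindDomain WeierstrassCurve Polynomial

namespace H55G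

open H55P (IQ embF eF Nm)
open H55K (cj cj_cj mul_cj Nm_cj Nm_mul Nm_nat e_cj)

variable {F : Type} [Field F] [NumberField F] [IQ F] {G κ : Type} [AddCommGroup G] [Field κ]
  {ρ : 𝓞 F →+* AddMonoid.End G} {X : G → κ}

/-- Chunk A1 (S/M). T from hb.gen c. The map a ↦ ρ a T from 𝓞 F to the kernel of ρ c is well defined (ρ c (ρ a T) = ρ a (ρ c T) = 0: map_mul, mul_comm, and ρ c T = 0 since c ∣ c), surjective (first property of T) and ρ a T = ρ a' T iff c ∣ a - a' (map_sub). So the kernel is in bijection with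
𝓞 F ⧸ span {c} (Ideal.Quotient; Quotient.lift or Nat.card_congr of Equiv.ofBijective), which has Nm c elements (Nm c is by definition Ideal.absNorm (span {c}), Ideal.absNorm_apply, Submodule.cardQuot_apply): see H55K.tor_card (Lib/H55K/G4A.lean), of which this is a port. -/
theorem kk_nb {b : 𝓞 F} (hb : RB ρ b) {c : 𝓞 F} (hc : ¬ b ∣ c) : kk (ρ c) = Nm c := by
  obtain ⟨T₀, h1, h2⟩ := hb.gen c hc
  let f : 𝓞 F →+ G :=
    { toFun := fun a => ρ a T₀
      map_zero' := by rw [map_zero]; rfl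
      map_add' := fun a d => by rw [map_add]; rfl }
  have hf : ∀ a, f a = ρ a T₀ := fun a => rfl
  have hker : f.ker = (Ideal.span {c} : Ideal (𝓞 F)).toAddSubgroup := by
    ext a
    rw [AddMonoidHom.mem_ker, hf, h2]
    exact Ideal.mem_span_singleton.symm
  have hT₀ : ρ c T₀ = 0 := (h2 c).2 dvd_rfl
  have hran : f.range = AddMonoidHom.ker (ρ c) := by
    ext T
    rw [AddMonoidHom.mem_range, AddMonoidHom.mem_ker]
    constructor
    · rintro ⟨a, rfl⟩
      have e : ρ c (ρ a T₀) = ρ a (ρ c T₀) := by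
        have e1 : ρ (c * a) = ρ (a * c) := by rw [mul_comm]
        rw [map_mul, map_mul] at e1
        exact congrArg (fun φ : AddMonoid.End G => φ T₀) e1
      exact e.trans ((congrArg (ρ a) hT₀).trans (map_zero (ρ a)))
    · intro hT
      obtain ⟨a, ha⟩ := h1 T hT
      exact ⟨a, ha.symm⟩
  have h3 := AddSubgroup.index_ker f
  rw [hker, hran] at h3
  have h4 : kk (ρ c) = Nat.card (AddMonoidHom.ker (ρ c)) := rfl
  rw [h4, ← h3]
  rfl

end H55G
end

-- from Lib.H55G.A1b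
section

/-! # H55G, part A: kernels of multiplications -/

open NumberField IsDedekindDomain WeierstrassCurve Polynomial

namespace H55G

open H55P (IQ embF eF Nm)
open H55K (cj cj_cj mul_cj Nm_cj Nm_mul Nm_nat e_cj)

variable {F : Type} [Field F] [NumberField F] [IQ F] {G κ : Type} [AddCommGroup G] [Field κ]
  {ρ : 𝓞 F →+* AddMonoid.End G} {X : G → κ}

omit [IQ F] in
theorem a1b_pow (c : 𝓞 F) (k : ℕ) : Nm (c ^ k) = Nm c ^ k := by
  unfold Nm
  rw [← Ideal.span_singleton_pow, map_pow]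

omit [NumberField F] [IQ F] in
theorem a1b_mul (a c : 𝓞 F) (P : G) : ρ (a * c) P = ρ a (ρ c P) := by
  rw [map_mul]
  rfl

omit [NumberField F] [IQ F] in
theorem a1b_inj {b : 𝓞 F} (hb : RB ρ b) (k : ℕ) (Q : G) (h : ρ (b ^ k) Q = 0) : Q = 0 := by
  induction k with
  | zero =>
    rw [pow_zero, map_one] at h
    exact h
  | succ k ih =>
    rw [pow_succ', a1b_mul] at h
    exact ih (hb.inj _ h)

/-- Chunk A1. c ≠ 0 and b prime: c = b^k c' with c' not divisible by b (the multiplicity is finite in the Dedekind domain 𝓞 F: FiniteMultiplicity.of_prime_left or WfDvdMonoid.max_power_factor). ρ c P = ρ (b^k) (ρ c' P) = 0 iff ρ c' P = 0 (hb.inj, induction on k; write c = c' b^k or b^k c': the ring 𝓞 F is commutative). Then kk_nb and Nm_mul (Nm of a power: induction or the map_pow of absNorm). -/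
theorem kk_split {b : 𝓞 F} (hb : RB ρ b) {c : 𝓞 F} (hc : c ≠ 0) : ∃ (k : ℕ) (c' : 𝓞 F), c = b ^ k * c' ∧ ¬ b ∣ c' ∧
    kk (ρ c) = Nm c' ∧ Nm c = Nm b ^ k * Nm c' := by
  obtain ⟨k, c', hc', rfl⟩ := WfDvdMonoid.max_power_factor hc hb.prime.irreducible
  refine ⟨k, c', rfl, hc', ?_, ?_⟩
  · rw [← kk_nb hb hc']
    unfold kk
    refine Nat.card_congr (Equiv.subtypeEquivRight fun P => ?_)
    rw [a1b_mul]
    refine ⟨fun h => a1b_inj hb k _ h, fun h => ?_⟩
    rw [h, map_zero]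
  · rw [Nm_mul, a1b_pow]

/-- Chunk A1. From kk_split: Nm c' > 0 (H55P.Nm_eq_zero: c' ≠ 0 because b ∣ 0), Nm b ≥ 1, so 0 < kk (ρ c) ≤ Nm c; finite because Nat.card is not 0 (Nat.finite_of_card_ne_zero). -/
theorem kk_fin {b : 𝓞 F} (hb : RB ρ b) {c : 𝓞 F} (hc : c ≠ 0) : Finite {P : G // ρ c P = 0} ∧ 0 < kk (ρ c) ∧ kk (ρ c) ≤ Nm c := by
  obtain ⟨k, c', -, h1, h2, h3⟩ := kk_split hb hc
  have h4 : 0 < Nm c' := by
    refine Nat.pos_of_ne_zero fun h0 => h1 ?_
    rw [H55P.Nm_eq_zero] at h0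
    rw [h0]
    exact dvd_zero b
  have h5 : 0 < Nm b := by
    refine Nat.pos_of_ne_zero fun h0 => hb.prime.ne_zero ?_
    rwa [H55P.Nm_eq_zero] at h0
  have h6 : 0 < kk (ρ c) := by rw [h2]; exact h4
  refine ⟨Nat.finite_of_card_ne_zero h6.ne', h6, ?_⟩
  rw [h2, h3]
  exact Nat.le_mul_of_pos_left _ (pow_pos h5 k)

end H55G
end

-- from Lib.H55G.A2
section

/-! # H55G, part A: the points fixed by the Frobenius endomorphism up to sign -/

open NumberField IsDedekindDomain WeierstrassCurve Polynomial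

namespace H55G

open H55P (IQ embF eF Nm)
open H55K (cj cj_cj mul_cj Nm_cj Nm_mul Nm_nat e_cj)

variable {F : Type} [Field F] [NumberField F] [IQ F] {G κ : Type} [AddCommGroup G] [Field κ]
  {ρ : 𝓞 F →+* AddMonoid.End G} {X : G → κ}

/-- Helper: a set with two elements. -/
theorem a2_two {α : Type} (x y : α) (hxy : x ≠ y) (h : ∀ z : α, z = x ∨ z = y) : Nat.card α = 2 := by
  refine Nat.card_eq_two_iff.2 ⟨x, y, hxy, ?_⟩
  ext z
  simpa using h z

/-- Chunk A2 (M). Let R = {x : κ // x^q = x}, finite with q elements (hφ.card, hφ.two: Nat.finite_of_card_ne_zero). For P ≠ 0: φ P ≠ 0 (hφ.bij injective, map_zero), and X P in R iff X (φ P) = X P (hφ.x) iff φ P = P or φ P = -P (h.xinj). For x in R the set of the nonzero P with X P = x is {P₀, -P₀} (h.xsurj, h.xinj), and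
all its elements satisfy φ P = ± P. Count pairs: let U = {P ≠ 0 : φ P = P}, U' = {P ≠ 0 : φ P = -P}. Both are finite (X maps U ∪ U' to the finite R with fibres of at most 2 elements). For x in R: #{P in U : X P = x} + #{P in U' : X P = x} = 2: if P₀ ≠ -P₀ then exactly one of φ P₀ = P₀, φ P₀ = -P₀ holds and it holds for -P₀ as well (map_neg), so one of the
two numbers is 2 and the other 0; if P₀ = -P₀ the fibre is {P₀} and P₀ is in both. Sum over x in R (Finset.card_eq_sum_card_fiberwise or Finset.card_sigma): #U + #U' = 2 q. With P = 0, in both sets: 2 q + 2. -/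
theorem fr_two (h : RG ρ X) {q : ℕ} {φ : AddMonoid.End G} (hφ : Fr X q φ) :
    Finite {P : G // φ P = P} ∧ Finite {P : G // φ P = -P} ∧
      Nat.card {P : G // φ P = P} + Nat.card {P : G // φ P = -P} = 2 * (q + 1) := by
  classical
  have hneg : ∀ P : G, P ≠ 0 → X (-P) = X P := fun P hP => (h.xinj (-P) P (neg_ne_zero.2 hP) hP).2 (Or.inr rfl)
  have hq : q ≠ 0 := by
    have := hφ.two
    omega
  have hSfin : Finite {x : κ // x ^ q = x} := Nat.finite_of_card_ne_zero (by rw [hφ.card]; exact hq)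
  let v : {P : G // φ P = P} ⊕ {P : G // φ P = -P} → G := Sum.elim Subtype.val Subtype.val
  have hv : ∀ d, v d ≠ 0 → X (v d) ^ q = X (v d) := by
    rintro (⟨P, hP⟩ | ⟨P, hP⟩) h0
    · change P ≠ 0 at h0
      have h1 := hφ.x P h0
      rw [hP] at h1
      exact h1.symm
    · change P ≠ 0 at h0
      have h1 := hφ.x P h0
      rw [hP, hneg P h0] at h1
      exact h1.symm
  let Fm : {P : G // φ P = P} ⊕ {P : G // φ P = -P} → Option {x : κ // x ^ q = x} :=
    fun d => if hd : v d = 0 then none else some ⟨X (v d), hv d hd⟩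
  have hφ0 : φ 0 = 0 := map_zero φ
  have hfib : ∀ y, Nat.card {d // Fm d = y} = 2 := by
    intro y
    rcases y with _ | x
    · have hmem : ∀ d, Fm d = none ↔ v d = 0 := by
        intro d
        by_cases hd : v d = 0
        · exact ⟨fun _ => hd, fun _ => dif_pos hd⟩
        · have h3 : Fm d = some ⟨X (v d), hv d hd⟩ := dif_neg hd
          rw [h3]
          exact ⟨fun h1 => absurd h1 (Option.some_ne_none _), fun h1 => absurd h1 hd⟩
      refine a2_two ⟨Sum.inl ⟨0, hφ0⟩, (hmem _).2 rfl⟩ ⟨Sum.inr ⟨0, by rw [hφ0, neg_zero]⟩, (hmem _).2 rfl⟩ ?_ ?_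
      · intro he
        exact Sum.inl_ne_inr (congrArg Subtype.val he)
      · rintro ⟨(⟨P, hP⟩ | ⟨P, hP⟩), hd⟩
        · left
          exact Subtype.ext (congrArg Sum.inl (Subtype.ext ((hmem _).1 hd)))
        · right
          exact Subtype.ext (congrArg Sum.inr (Subtype.ext ((hmem _).1 hd)))
    · obtain ⟨P₀, hP0, hPx⟩ := h.xsurj x.1
      have hmem : ∀ d, Fm d = some x ↔ v d = P₀ ∨ v d = -P₀ := by
        intro d
        by_cases hd : v d = 0
        · have h3 : Fm d = none := dif_pos hd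
          rw [h3]
          constructor
          · intro h1
            exact absurd h1.symm (Option.some_ne_none _)
          · intro h1
            rw [hd] at h1
            rcases h1 with h1 | h1
            · exact absurd h1.symm hP0
            · exact absurd h1.symm (neg_ne_zero.2 hP0)
        · have h3 : Fm d = some ⟨X (v d), hv d hd⟩ := dif_neg hd
          rw [h3, Option.some_inj, Subtype.ext_iff]
          change X (v d) = x.1 ↔ _
          rw [← hPx]
          exact h.xinj _ _ hd hP0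
      have hφP : φ P₀ = P₀ ∨ φ P₀ = -P₀ := by
        have h1 : φ P₀ ≠ 0 := fun h2 => hP0 (hφ.bij.1 (h2.trans hφ0.symm))
        refine (h.xinj _ _ h1 hP0).1 ?_
        rw [hφ.x P₀ hP0, hPx]
        exact x.2
      by_cases h2 : P₀ = -P₀
      · have h3 : φ P₀ = P₀ := by
          rcases hφP with h3 | h3
          · exact h3
          · rw [h3]
            exact h2.symm
        refine a2_two ⟨Sum.inl ⟨P₀, h3⟩, (hmem _).2 (Or.inl rfl)⟩ ⟨Sum.inr ⟨P₀, h3.trans h2⟩, (hmem _).2 (Or.inl rfl)⟩ ?_ ?_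
        · intro he
          exact Sum.inl_ne_inr (congrArg Subtype.val he)
        · rintro ⟨(⟨P, hP⟩ | ⟨P, hP⟩), hd⟩
          · left
            refine Subtype.ext (congrArg Sum.inl (Subtype.ext ?_))
            rcases (hmem _).1 hd with h4 | h4
            · exact h4
            · exact (show P = -P₀ from h4).trans h2.symm
          · right
            refine Subtype.ext (congrArg Sum.inr (Subtype.ext ?_))
            rcases (hmem _).1 hd with h4 | h4
            · exact h4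
            · exact (show P = -P₀ from h4).trans h2.symm
      · rcases hφP with h3 | h3
        · have h3' : φ (-P₀) = -P₀ := by rw [map_neg, h3]
          refine a2_two ⟨Sum.inl ⟨P₀, h3⟩, (hmem _).2 (Or.inl rfl)⟩ ⟨Sum.inl ⟨-P₀, h3'⟩, (hmem _).2 (Or.inr rfl)⟩ ?_ ?_
          · intro he
            exact h2 (congrArg Subtype.val (Sum.inl_injective (congrArg Subtype.val he)))
          · rintro ⟨(⟨P, hP⟩ | ⟨P, hP⟩), hd⟩
            · rcases (hmem _).1 hd with h4 | h4
              · left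
                exact Subtype.ext (congrArg Sum.inl (Subtype.ext h4))
              · right
                exact Subtype.ext (congrArg Sum.inl (Subtype.ext h4))
            · exfalso
              rcases (hmem _).1 hd with h4 | h4
              · change P = P₀ at h4
                rw [h4, h3] at hP
                exact h2 hP
              · change P = -P₀ at h4
                rw [h4, h3', neg_neg] at hP
                exact h2 hP.symm
        · have h3' : φ (-P₀) = -(-P₀) := by rw [map_neg, h3]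
          refine a2_two ⟨Sum.inr ⟨P₀, h3⟩, (hmem _).2 (Or.inl rfl)⟩ ⟨Sum.inr ⟨-P₀, h3'⟩, (hmem _).2 (Or.inr rfl)⟩ ?_ ?_
          · intro he
            exact h2 (congrArg Subtype.val (Sum.inr_injective (congrArg Subtype.val he)))
          · rintro ⟨(⟨P, hP⟩ | ⟨P, hP⟩), hd⟩
            · exfalso
              rcases (hmem _).1 hd with h4 | h4
              · change P = P₀ at h4
                rw [h4, h3] at hP
                exact h2 hP.symm
              · change P = -P₀ at h4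
                rw [h4, h3', neg_neg] at hP
                exact h2 hP
            · rcases (hmem _).1 hd with h4 | h4
              · left
                exact Subtype.ext (congrArg Sum.inr (Subtype.ext h4))
              · right
                exact Subtype.ext (congrArg Sum.inr (Subtype.ext h4))
  have hfin : ∀ y, Finite {d // Fm d = y} := fun y => Nat.finite_of_card_ne_zero (by rw [hfib y]; norm_num)
  have e := Equiv.sigmaFiberEquiv Fm
  have hD : Finite ({P : G // φ P = P} ⊕ {P : G // φ P = -P}) := Finite.of_equiv _ e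
  have hA : Finite {P : G // φ P = P} := Finite.of_injective (Sum.inl : _ → {P : G // φ P = P} ⊕ {P : G // φ P = -P}) Sum.inl_injective
  have hB : Finite {P : G // φ P = -P} := Finite.of_injective (Sum.inr : _ → {P : G // φ P = P} ⊕ {P : G // φ P = -P}) Sum.inr_injective
  refine ⟨hA, hB, ?_⟩
  have : Fintype {x : κ // x ^ q = x} := Fintype.ofFinite _
  rw [← Nat.card_sum, ← Nat.card_congr e, Nat.card_sigma, Finset.sum_congr rfl fun y _ => hfib y, Finset.sum_const,
    Finset.card_univ, Fintype.card_option, ← Nat.card_eq_fintype_card, hφ.card]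
  simp only [smul_eq_mul]
  ring

end H55G
end

-- from Lib.H55G.A4A
section

/-! # H55G, part A: a group which is the union of two subgroups up to a finite set -/

namespace H55G

/-- A subgroup of finite complement in an infinite group. -/
theorem a4a_top {G : Type} [AddCommGroup G] [Infinite G] (H : AddSubgroup G) (hf : {g : G | g ∉ H}.Finite) : H = ⊤ := by
  by_contra hne
  obtain ⟨P, hP⟩ : ∃ P, P ∉ H := by
    by_contra hall
    push Not at hall
    exact hne ((AddSubgroup.eq_top_iff' H).2 hall)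
  have h1 : (H : Set G).Finite := by
    have h2 : ((fun h => P + h) '' (H : Set G)).Finite := by
      refine hf.subset ?_
      rintro _ ⟨h, hh, rfl⟩
      intro h3
      apply hP
      have h4 := H.sub_mem h3 hh
      have h5 : P + h - h = P := add_sub_cancel_right P h
      rwa [h5] at h4
    exact h2.of_finite_image (fun a _ b _ hab => add_left_cancel hab)
  have h6 : (Set.univ : Set G).Finite := by
    refine (h1.union hf).subset fun g _ => ?_
    by_cases hg : g ∈ H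
    · exact Or.inl hg
    · exact Or.inr hg
  exact Set.infinite_univ h6

/-- Chunk A4A (S, PURE). (i) If H is a subgroup which is not ⊤ and G ∖ H is finite then a contradiction: P not in H; the coset P + H is contained in G ∖ H, so H is finite (translation is injective), and G = H ∪ (G ∖ H) is finite. (ii) Suppose H₁ ≠ ⊤ and H₂ ≠ ⊤; P not in H₁. For h in H₁, P + h is not in H₁, so P + h in H₂ or P + h in S. If H₁ is
finite then G ∖ H₂ is contained in S ∪ H₁, finite: (i). If H₁ is infinite: for h₀ in H₁ there is h in H₁ such that P + h and P + h + h₀ are both not in S (the h for which one of them is in S form a finite set), so both are in H₂ and h₀ is in H₂: H₁ ≤ H₂; then G ∖ H₂ is contained in S, finite: (i). -/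
theorem union_cofin {G : Type} [AddCommGroup G] [Infinite G] (H₁ H₂ : AddSubgroup G) (S : Set G) (hS : S.Finite)
    (h : ∀ g : G, g ∉ S → g ∈ H₁ ∨ g ∈ H₂) : H₁ = ⊤ ∨ H₂ = ⊤ := by
  by_contra hcon
  push Not at hcon
  obtain ⟨hn1, hn2⟩ := hcon
  obtain ⟨P, hP⟩ : ∃ P, P ∉ H₁ := by
    by_contra hall
    push Not at hall
    exact hn1 ((AddSubgroup.eq_top_iff' H₁).2 hall)
  apply hn2
  apply a4a_top
  by_cases hfin : (H₁ : Set G).Finite
  · refine (hS.union hfin).subset fun g hg => ?_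
    by_cases hgS : g ∈ S
    · exact Or.inl hgS
    · rcases h g hgS with h1 | h1
      · exact Or.inr h1
      · exact absurd h1 hg
  · have hle : H₁ ≤ H₂ := by
      intro h₀ hh₀
      have hf1 : ((fun x => P + x) ⁻¹' S).Finite := hS.preimage (fun a _ b _ hab => add_left_cancel hab)
      have hf2 : ((fun x => P + (x + h₀)) ⁻¹' S).Finite :=
        hS.preimage (fun a _ b _ hab => add_right_cancel (add_left_cancel hab))
      obtain ⟨x, hx, hx2⟩ := (Set.Infinite.sdiff hfin (hf1.union hf2)).nonempty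
      rw [Set.mem_union, not_or] at hx2
      obtain ⟨hx3, hx4⟩ := hx2
      have h1 : P + x ∈ H₂ := by
        rcases h _ hx3 with h2 | h2
        · exfalso
          apply hP
          have h4 := H₁.sub_mem h2 hx
          rwa [add_sub_cancel_right] at h4
        · exact h2
      have h2 : P + (x + h₀) ∈ H₂ := by
        rcases h _ hx4 with h2 | h2
        · exfalso
          apply hP
          have h4 := H₁.sub_mem h2 (H₁.add_mem hx hh₀)
          rwa [add_sub_cancel_right] at h4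
        · exact h2
      have h3 := H₂.sub_mem h2 h1
      have h5 : P + (x + h₀) - (P + x) = h₀ := by abel
      rwa [h5] at h3
    refine hS.subset fun g hg => ?_
    by_contra hgS
    rcases h g hgS with h1 | h1
    · exact hg (hle h1)
    · exact hg h1

end H55G
end

-- from Lib.H55G.A5
section

/-! # H55G, part A: pigeonhole -/

open NumberField

namespace H55G

open H55P (IQ embF eF Nm)

/-- Auxiliary: the norm of a combination of the basis. -/
theorem a5_bd (F : Type) [Field F] [NumberField F] [IQ F] (m : ℕ) (x y : ℤ) (hx : |x| ≤ m) (hy : |y| ≤ m) :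
    (Nm (x • H55P.bF F 0 + y • H55P.bF F 1) : ℝ) ≤
      (m : ℝ) ^ 2 * (‖eF F (H55P.bF F 0)‖ + ‖eF F (H55P.bF F 1)‖) ^ 2 := by
  have h1 : ‖eF F (x • H55P.bF F 0 + y • H55P.bF F 1)‖ ≤ m * (‖eF F (H55P.bF F 0)‖ + ‖eF F (H55P.bF F 1)‖) := by
    rw [map_add, zsmul_eq_mul, zsmul_eq_mul, map_mul, map_mul, map_intCast, map_intCast]
    refine (norm_add_le _ _).trans ?_
    rw [norm_mul, norm_mul, Complex.norm_intCast, Complex.norm_intCast, mul_add]
    have h2 : |(x : ℝ)| ≤ m := by exact_mod_cast hx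
    have h3 : |(y : ℝ)| ≤ m := by exact_mod_cast hy
    exact add_le_add (mul_le_mul_of_nonneg_right h2 (norm_nonneg _)) (mul_le_mul_of_nonneg_right h3 (norm_nonneg _))
  rw [H55P.Nm_eq, ← mul_pow]
  exact pow_le_pow_left₀ (norm_nonneg _) h1 2

/-- Chunk A5 (M). 𝓞 F is a free ℤ-module of rank 2 (RingOfIntegers.basis or Module.finBasis ℤ (𝓞 F), Module.finrank ℤ (𝓞 F) = Module.finrank ℚ F = 2 by IQ.deg): basis e₁, e₂. C = ⌈(‖eF e₁‖ + ‖eF e₂‖)^2⌉ (Nat.ceil). Let n > 0, c; m = Nat.sqrt n, so n < (m + 1)^2. The elements x e₁ + y e₂ with x, y in {0..m} are (m+1)^2 in number, the pairs (a, b)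
of them (m+1)^4 > n^2 = Nm n = card (𝓞 F ⧸ (n)) (H55K.Nm_nat; Nm n = absNorm (span {n}) = Nat.card of the quotient). Pigeonhole (Fintype.exists_ne_map_eq_of_card_lt or Finset.exists_ne_map_eq_of_card_lt_of_maps_to) for the map (x, y, x', y') ↦ class of a - b c from Fin (m+1)^4: two different quadruples with the same class; the differences a, b have
coordinates of absolute value ≤ m, (a, b) ≠ (0, 0) because e₁, e₂ is a basis, n ∣ a - b c. ‖eF a‖ ≤ m (‖eF e₁‖ + ‖eF e₂‖), so Nm a = ‖eF a‖^2 ≤ m^2 C ≤ n C (H55P.Nm_eq), Nat.sqrt_le'. -/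
theorem pigeon (F : Type) [Field F] [NumberField F] [IQ F] : ∃ C : ℕ, ∀ n : ℕ, 0 < n → ∀ c : 𝓞 F, ∃ a b : 𝓞 F,
    (a ≠ 0 ∨ b ≠ 0) ∧ (n : 𝓞 F) ∣ a - b * c ∧ Nm a ≤ C * n ∧ Nm b ≤ C * n := by
  classical
  let S : ℝ := ‖eF F (H55P.bF F 0)‖ + ‖eF F (H55P.bF F 1)‖
  refine ⟨⌈S ^ 2⌉₊, fun n hn c => ?_⟩
  let m := Nat.sqrt n
  have hm1 : n < (m + 1) ^ 2 := Nat.lt_succ_sqrt' n
  have hm2 : m ^ 2 ≤ n := Nat.sqrt_le' n
  let I : Ideal (𝓞 F) := Ideal.span {(n : 𝓞 F)}
  have hcard : Nat.card (𝓞 F ⧸ I) = n ^ 2 := by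
    have h1 : (Nm (n : 𝓞 F) : ℝ) = ‖eF F (n : 𝓞 F)‖ ^ 2 := H55P.Nm_eq _
    rw [map_natCast, Complex.norm_natCast] at h1
    have h2 : Nm (n : 𝓞 F) = n ^ 2 := by exact_mod_cast h1
    rw [← h2]
    unfold Nm
    rw [Ideal.absNorm_apply, Submodule.cardQuot_apply]
  have hfin : Finite (𝓞 F ⧸ I) := Nat.finite_of_card_ne_zero (by
    rw [hcard]
    exact pow_ne_zero _ hn.ne')
  let _ : Fintype (𝓞 F ⧸ I) := Fintype.ofFinite _
  let el : Fin (m + 1) × Fin (m + 1) → 𝓞 F := fun p => ((p.1 : ℕ) : ℤ) • H55P.bF F 0 + ((p.2 : ℕ) : ℤ) • H55P.bF F 1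
  let f : (Fin (m + 1) × Fin (m + 1)) × (Fin (m + 1) × Fin (m + 1)) → 𝓞 F ⧸ I :=
    fun t => Ideal.Quotient.mk I (el t.1 - el t.2 * c)
  have hlt : Fintype.card (𝓞 F ⧸ I) < Fintype.card ((Fin (m + 1) × Fin (m + 1)) × (Fin (m + 1) × Fin (m + 1))) := by
    rw [← Nat.card_eq_fintype_card, hcard, Fintype.card_prod, Fintype.card_prod, Fintype.card_fin]
    have h1 : (m + 1) * (m + 1) * ((m + 1) * (m + 1)) = ((m + 1) ^ 2) ^ 2 := by ring
    rw [h1]
    exact Nat.pow_lt_pow_left hm1 two_ne_zero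
  obtain ⟨⟨p, p'⟩, ⟨r, r'⟩, hne, hf⟩ := Fintype.exists_ne_map_eq_of_card_lt f hlt
  have hel : ∀ p r : Fin (m + 1) × Fin (m + 1), el p - el r =
      (((p.1 : ℕ) : ℤ) - ((r.1 : ℕ) : ℤ)) • H55P.bF F 0 + (((p.2 : ℕ) : ℤ) - ((r.2 : ℕ) : ℤ)) • H55P.bF F 1 := by
    intro p r
    change (((p.1 : ℕ) : ℤ) • H55P.bF F 0 + ((p.2 : ℕ) : ℤ) • H55P.bF F 1) -
      (((r.1 : ℕ) : ℤ) • H55P.bF F 0 + ((r.2 : ℕ) : ℤ) • H55P.bF F 1) = _
    rw [sub_smul, sub_smul]
    abel
  have hinj : ∀ p r : Fin (m + 1) × Fin (m + 1), el p - el r = 0 → p = r := by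
    intro p r h
    rw [hel] at h
    have h1 := Fintype.linearIndependent_iff.1 (H55P.bF F).linearIndependent
      ![((p.1 : ℕ) : ℤ) - ((r.1 : ℕ) : ℤ), ((p.2 : ℕ) : ℤ) - ((r.2 : ℕ) : ℤ)] (by
        rw [Fin.sum_univ_two]
        exact h)
    have h2 : ((p.1 : ℕ) : ℤ) - ((r.1 : ℕ) : ℤ) = 0 := h1 0
    have h3 : ((p.2 : ℕ) : ℤ) - ((r.2 : ℕ) : ℤ) = 0 := h1 1
    refine Prod.ext (Fin.ext ?_) (Fin.ext ?_)
    · omega
    · omega
  have hbd : ∀ p r : Fin (m + 1) × Fin (m + 1), Nm (el p - el r) ≤ ⌈S ^ 2⌉₊ * n := by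
    intro p r
    have h1 : |((p.1 : ℕ) : ℤ) - ((r.1 : ℕ) : ℤ)| ≤ m := by
      rw [abs_le]
      have := p.1.2
      have := r.1.2
      constructor <;> omega
    have h2 : |((p.2 : ℕ) : ℤ) - ((r.2 : ℕ) : ℤ)| ≤ m := by
      rw [abs_le]
      have := p.2.2
      have := r.2.2
      constructor <;> omega
    have h3 := a5_bd F m _ _ h1 h2
    rw [← hel] at h3
    have h4 : (m : ℝ) ^ 2 ≤ n := by exact_mod_cast hm2
    have h5 : S ^ 2 ≤ (⌈S ^ 2⌉₊ : ℝ) := Nat.le_ceil _
    have h6 : (Nm (el p - el r) : ℝ) ≤ ((⌈S ^ 2⌉₊ * n : ℕ) : ℝ) := by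
      refine h3.trans ?_
      rw [Nat.cast_mul, mul_comm]
      exact mul_le_mul h5 h4 (sq_nonneg _) (Nat.cast_nonneg _)
    exact_mod_cast h6
  refine ⟨el p - el r, el p' - el r', ?_, ?_, hbd p r, hbd p' r'⟩
  · by_contra hcon
    push Not at hcon
    exact hne (Prod.ext (hinj p r hcon.1) (hinj p' r' hcon.2))
  · have h1 : (el p - el p' * c) - (el r - el r' * c) ∈ I := by
      rw [← Ideal.Quotient.eq_zero_iff_mem, map_sub]
      exact sub_eq_zero.2 hf
    rw [Ideal.mem_span_singleton] at h1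
    have h2 : el p - el r - (el p' - el r') * c = (el p - el p' * c) - (el r - el r' * c) := by ring
    rw [h2]
    exact h1

end H55G
end

-- from Lib.H55G.A3a
section

/-! # H55G, part A: kernels of compositions -/

open NumberField IsDedekindDomain WeierstrassCurve Polynomial

namespace H55G

open H55P (IQ embF eF Nm)
open H55K (cj cj_cj mul_cj Nm_cj Nm_mul Nm_nat e_cj)

variable {F : Type} [Field F] [NumberField F] [IQ F] {G κ : Type} [AddCommGroup G] [Field κ]
  {ρ : 𝓞 F →+* AddMonoid.End G} {X : G → κ}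

omit [Field κ] in
/-- Chunk A3 (S). (f * g) P = f (g P). The kernel of f * g maps onto the kernel of f by g (hg) with kernel the kernel of g; as sets: choose for each Q in the kernel of f a P_Q with g P_Q = Q; (Q, R) ↦ P_Q + R is a bijection from ker f × ker g to ker (f * g). Nat.card_congr, Nat.card_prod. -/
theorem kk_mul {f g : AddMonoid.End G} (hg : Function.Surjective g) : kk (f * g) = kk f * kk g := by
  choose s hs using hg
  unfold kk
  rw [← Nat.card_prod]
  refine Nat.card_congr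
    { toFun := fun P => (⟨g P.1, P.2⟩, ⟨P.1 - s (g P.1), by rw [map_sub, hs, sub_self]⟩)
      invFun := fun QR => ⟨s QR.1.1 + QR.2.1, by
        show f (g (s QR.1.1 + QR.2.1)) = 0
        rw [map_add g, hs, QR.2.2, add_zero, QR.1.2]⟩
      left_inv := ?_
      right_inv := ?_ }
  · rintro ⟨P, hP⟩
    apply Subtype.ext
    show s (g P) + (P - s (g P)) = P
    abel
  · rintro ⟨⟨Q, hQ⟩, ⟨R, hR⟩⟩
    have h1 : g (s Q + R) = Q := by rw [map_add, hs, hR, add_zero]
    refine Prod.ext (Subtype.ext h1) (Subtype.ext ?_)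
    show s Q + R - s (g (s Q + R)) = R
    rw [h1]
    abel

omit [Field κ] in
/-- Chunk A3 (S). g maps the kernel of f * g to the kernel of f, with fibres of at most kk g elements (two elements of a fibre differ by an element of the kernel of g): the map P ↦ (g P, P - P_Q) with P_Q chosen in the fibre of Q = g P (Classical) is injective into ker f × ker g (finite). -/
theorem kk_mul_le {f g : AddMonoid.End G} (hf : Finite {P : G // f P = 0}) (hg : Finite {P : G // g P = 0}) :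
    Finite {P : G // (f * g) P = 0} ∧ kk (f * g) ≤ kk f * kk g := by
  classical
  have hc : ∀ Q : G, ∃ P : G, (∃ P', g P' = Q) → g P = Q := by
    intro Q
    by_cases h : ∃ P', g P' = Q
    · obtain ⟨P', hP'⟩ := h
      exact ⟨P', fun _ => hP'⟩
    · exact ⟨0, fun h' => absurd h' h⟩
  choose c hc using hc
  let F : {P : G // (f * g) P = 0} → {P : G // f P = 0} × {P : G // g P = 0} := fun P =>
    (⟨g P.1, P.2⟩, ⟨P.1 - c (g P.1), by rw [map_sub, hc (g P.1) ⟨P.1, rfl⟩, sub_self]⟩)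
  have hF : Function.Injective F := by
    rintro ⟨P, hP⟩ ⟨P', hP'⟩ h
    have h1 : g P = g P' := congrArg Subtype.val (congrArg Prod.fst h)
    have h2 : P - c (g P) = P' - c (g P') := congrArg Subtype.val (congrArg Prod.snd h)
    rw [h1] at h2
    exact Subtype.ext (sub_left_injective h2)
  refine ⟨Finite.of_injective F hF, ?_⟩
  unfold kk
  rw [← Nat.card_prod]
  exact Nat.card_le_card_of_injective F hF

end H55G
end

-- from Lib.H55G.A3b
section

/-! # H55G, part A: kernels of compositions -/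

open NumberField IsDedekindDomain WeierstrassCurve Polynomial

namespace H55G

open H55P (IQ embF eF Nm)
open H55K (cj cj_cj mul_cj Nm_cj Nm_mul Nm_nat e_cj)

variable {F : Type} [Field F] [NumberField F] [IQ F] {G κ : Type} [AddCommGroup G] [Field κ]
  {ρ : 𝓞 F →+* AddMonoid.End G} {X : G → κ}


omit [Field κ] in
/-- Chunk A3 (S). φ P = P iff (φ - 1) P = 0, φ P = -P iff (φ + 1) P = 0. -/
theorem kk_pm (φ : AddMonoid.End G) : kk (φ - 1) = Nat.card {P : G // φ P = P} ∧ kk (φ + 1) = Nat.card {P : G // φ P = -P} := by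
  refine ⟨Nat.card_congr (Equiv.subtypeEquivRight fun P => ?_), Nat.card_congr (Equiv.subtypeEquivRight fun P => ?_)⟩
  · show φ P - P = 0 ↔ φ P = P
    exact sub_eq_zero
  · show φ P + P = 0 ↔ φ P = -P
    exact eq_neg_iff_add_eq_zero.symm

omit [Field κ] in
/-- The kernel of a composition. -/
theorem a3b_mul {A B C : Type} [AddCommGroup A] [AddCommGroup B] [AddCommGroup C] (u : A →+ B) (hu : Function.Surjective u) (v : B →+ C) :
    Nat.card {P : A // v (u P) = 0} = Nat.card {P : B // v P = 0} * Nat.card {P : A // u P = 0} := by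
  rw [← Nat.card_prod]
  choose s hs using hu
  refine Nat.card_congr
    { toFun := fun x => (⟨u x.1, x.2⟩, ⟨x.1 - s (u x.1), by rw [map_sub, hs, sub_self]⟩)
      invFun := fun y => ⟨s y.1.1 + y.2.1, by rw [map_add, hs, y.2.2, add_zero, y.1.2]⟩
      left_inv := fun x => Subtype.ext (by
        show s (u x.1) + (x.1 - s (u x.1)) = x.1
        abel)
      right_inv := fun y => ?_ }
  have h1 : u (s y.1.1 + y.2.1) = y.1.1 := by rw [map_add, hs, y.2.2, add_zero]
  refine Prod.ext (Subtype.ext h1) (Subtype.ext ?_)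
  show s y.1.1 + y.2.1 - s (u (s y.1.1 + y.2.1)) = y.2.1
  rw [h1]
  abel

/-- Chunk A3 (S/M). Two groups, f : G → G' surjective with finite kernel, f φ = φ' f, φ - 1 surjective on G: the kernel of f ∘ (φ - 1) has #ker f · #ker (φ - 1) elements (φ - 1 is surjective), and f ∘ (φ - 1) = (φ' - 1) ∘ f has a kernel with #ker (φ' - 1) · #ker f elements (f is surjective); cancel #ker f > 0. (General form of the bijection in kk_mul for homomorphisms
u : A → B surjective, v : B → C: #ker (v u) = #ker v · #ker u.) -/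
theorem iso_count {G G' : Type} [AddCommGroup G] [AddCommGroup G'] (f : G →+ G') (hf : Function.Surjective f)
    (hfin : Finite {P : G // f P = 0}) (φ : AddMonoid.End G) (φ' : AddMonoid.End G') (hc : ∀ P, f (φ P) = φ' (f P))
    (hs : ∀ P, ∃ Q, φ Q - Q = P) : Nat.card {P : G // φ P = P} = Nat.card {P : G' // φ' P = P} := by
  have h1 := a3b_mul (φ - 1 : AddMonoid.End G) (fun P => by
    obtain ⟨Q, hQ⟩ := hs P
    exact ⟨Q, hQ⟩) f
  have h2 := a3b_mul f hf (φ' - 1 : AddMonoid.End G')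
  have h3 : Nat.card {P : G // f ((φ - 1 : AddMonoid.End G) P) = 0} = Nat.card {P : G // (φ' - 1 : AddMonoid.End G') (f P) = 0} := by
    refine Nat.card_congr (Equiv.subtypeEquivRight fun P => ?_)
    show f (φ P - P) = 0 ↔ φ' (f P) - f P = 0
    rw [map_sub, hc]
  have h4 : Nat.card {P : G // (φ - 1 : AddMonoid.End G) P = 0} = Nat.card {P : G // φ P = P} :=
    Nat.card_congr (Equiv.subtypeEquivRight fun P => sub_eq_zero)
  have h5 : Nat.card {P : G' // (φ' - 1 : AddMonoid.End G') P = 0} = Nat.card {P : G' // φ' P = P} :=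
    Nat.card_congr (Equiv.subtypeEquivRight fun P => sub_eq_zero)
  have h6 : 0 < Nat.card {P : G // f P = 0} := by
    have hne : Nonempty {P : G // f P = 0} := ⟨⟨0, map_zero f⟩⟩
    exact Nat.card_pos
  have h7 : Nat.card {P : G // f P = 0} * Nat.card {P : G' // φ' P = P} = Nat.card {P : G // f P = 0} * Nat.card {P : G // φ P = P} := by
    rw [← h4, ← h5, mul_comm]
    exact h2.symm.trans (h3.symm.trans h1)
  exact (Nat.eq_of_mul_eq_mul_left h6 h7).symm

end H55G
end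

-- from Lib.H55G.A4B
section

/-! # H55G, part A: the number of solutions of a P = b φ P -/

open NumberField IsDedekindDomain WeierstrassCurve Polynomial

namespace H55G

open H55P (IQ embF eF Nm)
open H55K (cj cj_cj mul_cj Nm_cj Nm_mul Nm_nat e_cj)

variable {F : Type} [Field F] [NumberField F] [IQ F] {G κ : Type} [AddCommGroup G] [Field κ]
  {ρ : 𝓞 F →+* AddMonoid.End G} {X : G → κ}

/-- The points with X-coordinate in a finite set. -/
theorem a4b_fib (h : RG ρ X) (E : Finset κ) :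
    {P : G | P ≠ 0 ∧ X P ∈ E}.Finite ∧ {P : G | P ≠ 0 ∧ X P ∈ E}.ncard ≤ 2 * E.card := by
  classical
  choose c hc0 hc using h.xsurj
  have hsub : {P : G | P ≠ 0 ∧ X P ∈ E} ⊆ ((E.biUnion fun x => ({c x, -c x} : Finset G) : Finset G) : Set G) := by
    rintro P ⟨hP, hE⟩
    rw [Finset.mem_coe, Finset.mem_biUnion]
    refine ⟨X P, hE, ?_⟩
    have h1 := (h.xinj P (c (X P)) hP (hc0 _)).1 (hc _).symm
    rw [Finset.mem_insert, Finset.mem_singleton]
    exact h1
  have hfin := (E.biUnion fun x => ({c x, -c x} : Finset G)).finite_toSet.subset hsub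
  refine ⟨hfin, ?_⟩
  refine (Set.ncard_le_ncard hsub (Finset.finite_toSet _)).trans ?_
  rw [Set.ncard_coe_finset, mul_comm]
  exact Finset.card_biUnion_le_card_mul _ _ _ fun x _ => Finset.card_le_two

theorem a4b_ker (h : RG ρ X) {a : 𝓞 F} (ha : a ≠ 0) : {P : G | ρ a P = 0}.Finite ∧ {P : G | ρ a P = 0}.ncard ≤ Nm a := by
  obtain ⟨b₀, hb₀⟩ := h.b
  obtain ⟨h1, _, h3⟩ := kk_fin hb₀ ha
  have h1' : Finite ({P : G | ρ a P = 0} : Set G) := h1
  refine ⟨Set.toFinite _, ?_⟩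
  rw [← Nat.card_coe_set_eq]
  exact h3

theorem a4b_inf (h : RG ρ X) : Infinite G := by
  have := h.inf
  exact Infinite.of_surjective X fun x => by
    obtain ⟨P, _, hP⟩ := h.xsurj x
    exact ⟨P, hP⟩

theorem a4b_ne (h : RG ρ X) {a : 𝓞 F} (ha : a ≠ 0) {N D : κ[X]} (hND : N ≠ 0 ∨ D ≠ 0)
    (hx : ∀ P : G, P ≠ 0 → ρ a P ≠ 0 → D.eval (X P) * X (ρ a P) = N.eval (X P)) : D ≠ 0 := by
  classical
  rintro rfl
  have hN : N ≠ 0 := hND.resolve_right fun h0 => h0 rfl
  have hG := a4b_inf h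
  have hcov : (Set.univ : Set G) ⊆ ({0} ∪ {P : G | ρ a P = 0}) ∪ {P : G | P ≠ 0 ∧ X P ∈ N.roots.toFinset} := by
    intro P _
    by_cases hP : P = 0
    · exact Or.inl (Or.inl hP)
    · by_cases hP2 : ρ a P = 0
      · exact Or.inl (Or.inr hP2)
      · refine Or.inr ⟨hP, ?_⟩
        have h1 := hx P hP hP2
        rw [eval_zero, zero_mul] at h1
        rw [Multiset.mem_toFinset, mem_roots hN]
        exact h1.symm
  exact Set.infinite_univ ((((Set.finite_singleton (0 : G)).union (a4b_ker h ha).1).union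
    (a4b_fib h N.roots.toFinset).1).subset hcov)

/-- Chunk A4B (M/L). h.rf gives N_a, D_a for a and N_b, D_b for b, of degree ≤ Nm a, Nm b. Q = N_a · D_b(T^q) - N_b(T^q) · D_a in κ[T] (D_b(T^q) = D_b.expand q, Polynomial.expand or comp (X^q), natDegree ≤ q Nm b), natDegree Q ≤ Nm a + q Nm b. Let P ≠ 0, x = X P.
(1) If ρ a P ≠ 0, ρ b (φ P) ≠ 0 (φ P ≠ 0, X (φ P) = x^q): D_a(x) X(ρ a P) = N_a(x), D_b(x^q) X(ρ b (φ P)) = N_b(x^q), so Q(x) = D_a(x) D_b(x^q) (X (ρ a P) - X (ρ b (φ P))).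
(2) Q ≠ 0: let Z = {P : ρ a P = ρ b (φ P)}. The P in Z with ρ a P = 0 are at most Nm a in number (kk_fin); the others have P ≠ 0 and Q(X P) = 0 by (1); Q has at most natDegree Q ≤ Nm a + q Nm b roots and X has fibres of at most 2 elements on the nonzero points (h.xinj: P or -P): at most 2 (Nm a + q Nm b). Third case.
(3) Q = 0: the set S of the P with P = 0 or ρ a P = 0 or ρ b (φ P) = 0 or D_a(X P) = 0 or D_b(X(P)^q) = 0 is finite: kk_fin (φ injective), and D_a ≠ 0, D_b ≠ 0: if D_a = 0 then N_a ≠ 0 and N_a(X P) = 0 for all P ≠ 0 with ρ a P ≠ 0, but these take infinitely many values X P (κ is infinite, h.xsurj, finitely many P excluded); roots are finite in number, fibres of X have at most 2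
elements, and x^q = y^q for x, y: the set of the x with D_b(x^q) = 0 is the set of roots of D_b.expand q ≠ 0. For P not in S: X(ρ a P) = X(ρ b (φ P)) by (1), so ρ a P = ± ρ b (φ P) (h.xinj). G is infinite (h.xsurj, h.inf). union_cofin with the kernels of ρ a - ρ b * φ and ρ a + ρ b * φ: first or second case. -/
theorem four (h : RG ρ X) {q : ℕ} {φ : AddMonoid.End G} (hφ : Fr X q φ) {a b : 𝓞 F} (ha : a ≠ 0) (hb : b ≠ 0) :
    (∀ P, ρ a P = ρ b (φ P)) ∨ (∀ P, ρ a P = -ρ b (φ P)) ∨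
      (Finite {P : G // ρ a P = ρ b (φ P)} ∧
        Nat.card {P : G // ρ a P = ρ b (φ P)} ≤ 2 * (Nm a + q * Nm b) + Nm a) := by
  classical
  obtain ⟨Na, Da, ha1, ha2, ha3, ha4⟩ := h.rf a ha
  obtain ⟨Nb, Db, hb1, hb2, hb3, hb4⟩ := h.rf b hb
  have hq : 0 < q := lt_of_lt_of_le two_pos hφ.two
  have hG := a4b_inf h
  have hφ0 : ∀ P : G, φ P = 0 → P = 0 := by
    intro P hP
    exact hφ.bij.1 (hP.trans (map_zero φ).symm)
  have hDa := a4b_ne h ha ha1 ha4
  have hDb := a4b_ne h hb hb1 hb4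
  have hDb' : expand κ q Db ≠ 0 := (expand_ne_zero hq).2 hDb
  obtain ⟨Q, hQ⟩ : ∃ Q : κ[X], Q = Na * expand κ q Db - expand κ q Nb * Da := ⟨_, rfl⟩
  have hdeg : Q.natDegree ≤ Nm a + q * Nm b := by
    rw [hQ]
    refine (natDegree_sub_le _ _).trans (max_le ?_ ?_)
    · refine natDegree_mul_le.trans ?_
      rw [natDegree_expand, mul_comm _ q]
      exact add_le_add ha2 (Nat.mul_le_mul_left q hb3)
    · refine natDegree_mul_le.trans ?_
      rw [natDegree_expand, mul_comm _ q, add_comm]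
      exact add_le_add ha3 (Nat.mul_le_mul_left q hb2)
  have hQe : ∀ P : G, P ≠ 0 → ρ a P ≠ 0 → ρ b (φ P) ≠ 0 → Q.eval (X P) =
      Da.eval (X P) * Db.eval (X P ^ q) * (X (ρ a P) - X (ρ b (φ P))) := by
    intro P hP h1 h2
    have e1 := ha4 P hP h1
    have e2 := hb4 (φ P) (fun h0 => hP (hφ0 P h0)) h2
    rw [hφ.x P hP] at e2
    rw [hQ, eval_sub, eval_mul, eval_mul, expand_eval, expand_eval, ← e1, ← e2]
    ring
  have hK1 := a4b_ker h ha
  by_cases hQ0 : Q = 0
  · have hK2 : {P : G | ρ b (φ P) = 0}.Finite := by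
      have h1 := (a4b_ker h hb).1.preimage (f := φ) (hφ.bij.1.injOn)
      exact h1
    have hS : (({0} ∪ {P : G | ρ a P = 0}) ∪ {P : G | ρ b (φ P) = 0} ∪
        ({P : G | P ≠ 0 ∧ X P ∈ Da.roots.toFinset} ∪ {P : G | P ≠ 0 ∧ X P ∈ (expand κ q Db).roots.toFinset})).Finite :=
      (((Set.finite_singleton (0 : G)).union hK1.1).union hK2).union
        ((a4b_fib h Da.roots.toFinset).1.union (a4b_fib h (expand κ q Db).roots.toFinset).1)
    let H₁ : AddSubgroup G :=
      { carrier := {P | ρ a P = ρ b (φ P)}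
        zero_mem' := by simp
        add_mem' := by
          intro x y hx hy
          rw [Set.mem_ofPred_eq] at hx hy ⊢
          rw [map_add, map_add, map_add, hx, hy]
        neg_mem' := by
          intro x hx
          rw [Set.mem_ofPred_eq] at hx ⊢
          rw [map_neg, map_neg, map_neg, hx] }
    let H₂ : AddSubgroup G :=
      { carrier := {P | ρ a P = -ρ b (φ P)}
        zero_mem' := by simp
        add_mem' := by
          intro x y hx hy
          rw [Set.mem_ofPred_eq] at hx hy ⊢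
          rw [map_add, map_add, map_add, hx, hy, neg_add]
        neg_mem' := by
          intro x hx
          rw [Set.mem_ofPred_eq] at hx ⊢
          rw [map_neg, map_neg, map_neg, hx] }
    have key := union_cofin H₁ H₂ _ hS ?_
    · rcases key with h1 | h1
      · left
        intro P
        have h2 : P ∈ H₁ := by
          rw [h1]
          exact AddSubgroup.mem_top P
        exact h2
      · right
        left
        intro P
        have h2 : P ∈ H₂ := by
          rw [h1]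
          exact AddSubgroup.mem_top P
        exact h2
    · intro P hP
      simp only [Set.mem_union, Set.mem_singleton_iff, Set.mem_ofPred_eq, not_or] at hP
      obtain ⟨⟨⟨h0, h1⟩, h2⟩, h3, h4⟩ := hP
      have e1 := hQe P h0 h1 h2
      rw [hQ0, eval_zero] at e1
      have n1 : Da.eval (X P) ≠ 0 := by
        intro h5
        apply h3
        refine ⟨h0, ?_⟩
        rw [Multiset.mem_toFinset, mem_roots hDa]
        exact h5
      have n2 : Db.eval (X P ^ q) ≠ 0 := by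
        intro h5
        apply h4
        refine ⟨h0, ?_⟩
        rw [Multiset.mem_toFinset, mem_roots hDb', IsRoot.def, expand_eval]
        exact h5
      have e2 : X (ρ a P) = X (ρ b (φ P)) := by
        rcases mul_eq_zero.1 e1.symm with h6 | h6
        · rcases mul_eq_zero.1 h6 with h7 | h7
          · exact absurd h7 n1
          · exact absurd h7 n2
        · exact sub_eq_zero.1 h6
      exact (h.xinj _ _ h1 h2).1 e2
  · right
    right
    have hsub : {P : G | ρ a P = ρ b (φ P)} ⊆ {P : G | ρ a P = 0} ∪ {P : G | P ≠ 0 ∧ X P ∈ Q.roots.toFinset} := by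
      intro P hP
      rw [Set.mem_ofPred_eq] at hP
      by_cases h1 : ρ a P = 0
      · exact Or.inl h1
      · have h0 : P ≠ 0 := by
          rintro rfl
          exact h1 (map_zero _)
        refine Or.inr ⟨h0, ?_⟩
        have h2 : ρ b (φ P) ≠ 0 := by
          rw [← hP]
          exact h1
        have e1 := hQe P h0 h1 h2
        rw [hP, sub_self, mul_zero] at e1
        rw [Multiset.mem_toFinset, mem_roots hQ0]
        exact e1
    have hF := a4b_fib h Q.roots.toFinset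
    have hfin : {P : G | ρ a P = ρ b (φ P)}.Finite := (hK1.1.union hF.1).subset hsub
    refine ⟨hfin.to_subtype, ?_⟩
    have h1 : Nat.card {P : G // ρ a P = ρ b (φ P)} = {P : G | ρ a P = ρ b (φ P)}.ncard :=
      Nat.card_coe_set_eq _
    rw [h1]
    refine (Set.ncard_le_ncard hsub (hK1.1.union hF.1)).trans ?_
    refine (Set.ncard_union_le _ _).trans ?_
    have h2 : Q.roots.toFinset.card ≤ Nm a + q * Nm b :=
      (Multiset.toFinset_card_le _).trans ((card_roots' Q).trans hdeg)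
    have h3 := hF.2
    have h4 := hK1.2
    omega

end H55G
end

-- from Lib.H55G.A6
section

/-! # H55G, part A: the Frobenius endomorphism is a quotient of multiplications -/

open NumberField IsDedekindDomain WeierstrassCurve Polynomial

namespace H55G

open H55P (IQ embF eF Nm)
open H55K (cj cj_cj mul_cj Nm_cj Nm_mul Nm_nat e_cj)

variable {F : Type} [Field F] [NumberField F] [IQ F] {G κ : Type} [AddCommGroup G] [Field κ]
  {ρ : 𝓞 F →+* AddMonoid.End G} {X : G → κ}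

/-- Chunk A6 (M). b₀ with hb : RB ρ b₀ (h.b), C from pigeon. Put n = Nm b₀ * M + 1 with M = (3 + 2 q) * C + 1 (so n > (3 + 2 q) C and n > C). b₀ does not divide n: b₀ ∣ Nm b₀ (mul_cj), so b₀ ∣ n would give b₀ ∣ 1. T = the generator of the kernel of ρ n (hb.gen). φ T is in the kernel (hlin), φ T = ρ c T for some c; by hlin φ P = ρ c P for all P in the kernel
(P = ρ a T). pigeon n c: a, b not both 0, n ∣ a - b c, Nm a ≤ C n, Nm b ≤ C n. For P with ρ n P = 0: ρ a P - ρ b (φ P) = ρ (a - b c) P = 0. kk (ρ n) = Nm n = n^2 (kk_nb, Nm_nat).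
b ≠ 0: otherwise n ∣ a ≠ 0, so n^2 = Nm n ≤ Nm a ≤ C n (Nm_mul), contradiction. a ≠ 0: otherwise ρ b (φ P) = 0 on the kernel of ρ n; φ is injective (hφ.bij) and maps the finite kernel to itself, so it is onto it: ρ b kills the kernel, ρ b T = 0, n ∣ b ≠ 0, the same contradiction. four for a, b: first case: done. Second case: -a, b (map_neg). Third case: the kernel of ρ n is contained in
the finite set, n^2 ≤ 2 (Nm a + q Nm b) + Nm a ≤ (3 + 2 q) C n: contradiction. -/
theorem rel (h : RG ρ X) {q : ℕ} {φ : AddMonoid.End G} (hφ : Fr X q φ) (hlin : ∀ (a : 𝓞 F) (P : G), φ (ρ a P) = ρ a (φ P)) :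
    ∃ a b : 𝓞 F, a ≠ 0 ∧ b ≠ 0 ∧ ∀ P : G, ρ a P = ρ b (φ P) := by
  classical
  obtain ⟨b₀, hb⟩ := h.b
  obtain ⟨C, hC⟩ := pigeon F
  obtain ⟨n, hn⟩ : ∃ n : ℕ, n = Nm b₀ * ((3 + 2 * q) * C + 1) + 1 := ⟨_, rfl⟩
  have hn0 : 0 < n := by rw [hn]; exact Nat.succ_pos _
  have hNb : 1 ≤ Nm b₀ := Nat.one_le_iff_ne_zero.2 fun h0 => hb.prime.ne_zero (H55P.Nm_eq_zero.1 h0)
  have hnC : (3 + 2 * q) * C < n := by
    have h1 : 1 * ((3 + 2 * q) * C + 1) ≤ Nm b₀ * ((3 + 2 * q) * C + 1) := Nat.mul_le_mul_right _ hNb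
    omega
  have hnC' : C < n := by
    have h1 : 1 * C ≤ (3 + 2 * q) * C := Nat.mul_le_mul_right _ (by omega)
    omega
  have hbn : ¬ b₀ ∣ (n : 𝓞 F) := by
    intro h1
    have h2 : b₀ ∣ (Nm b₀ : 𝓞 F) := ⟨cj b₀, (mul_cj b₀).symm⟩
    have h3 : (n : 𝓞 F) = (Nm b₀ : 𝓞 F) * (((3 + 2 * q) * C + 1 : ℕ) : 𝓞 F) + 1 := by
      rw [hn]
      push_cast
      ring
    rw [h3] at h1
    have h4 : b₀ ∣ 1 := (dvd_add_right (h2.mul_right _)).1 h1
    exact hb.prime.not_isUnit (isUnit_of_dvd_one h4)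
  obtain ⟨T, hT1, hT2⟩ := hb.gen _ hbn
  have hcomm : ∀ (a c : 𝓞 F) (P : G), ρ a (ρ c P) = ρ c (ρ a P) := by
    intro a c P
    have h1 : ρ (a * c) P = ρ (c * a) P := by rw [mul_comm]
    rw [map_mul, map_mul] at h1
    exact h1
  have hnT : ρ (n : 𝓞 F) T = 0 := (hT2 _).2 dvd_rfl
  have hker : ∀ P : G, ρ (n : 𝓞 F) P = 0 → ρ (n : 𝓞 F) (φ P) = 0 := by
    intro P hP
    rw [← hlin, hP, map_zero]
  obtain ⟨c, hc⟩ := hT1 (φ T) (hker T hnT)
  have hφc : ∀ P : G, ρ (n : 𝓞 F) P = 0 → φ P = ρ c P := by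
    intro P hP
    obtain ⟨a, rfl⟩ := hT1 P hP
    rw [hlin, hc, hcomm]
  obtain ⟨a, b, hab, hdvd, ha, hb'⟩ := hC n hn0 c
  have hrel : ∀ P : G, ρ (n : 𝓞 F) P = 0 → ρ a P = ρ b (φ P) := by
    intro P hP
    obtain ⟨d, hd⟩ := hdvd
    have h1 : ρ (a - b * c) P = 0 := by
      rw [hd, mul_comm, map_mul]
      change ρ d (ρ (n : 𝓞 F) P) = 0
      rw [hP, map_zero]
    rw [map_sub, map_mul] at h1
    have h2 : ρ a P - ρ b (ρ c P) = 0 := h1
    rw [hφc P hP]
    exact sub_eq_zero.1 h2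
  have hbig : ∀ x : 𝓞 F, x ≠ 0 → (n : 𝓞 F) ∣ x → Nm x ≤ C * n → False := by
    rintro x hx ⟨d, rfl⟩ h1
    rw [Nm_mul, Nm_nat] at h1
    have hd : 1 ≤ Nm d := Nat.one_le_iff_ne_zero.2 fun h0 => hx (by rw [H55P.Nm_eq_zero.1 h0, mul_zero])
    have h2 : n * n ≤ n ^ 2 * Nm d := by
      calc n * n = n ^ 2 * 1 := by ring
        _ ≤ n ^ 2 * Nm d := Nat.mul_le_mul_left _ hd
    have h3 : n * n ≤ C * n := h2.trans h1
    have h4 := Nat.le_of_mul_le_mul_right h3 hn0
    omega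
  have hcard : kk (ρ (n : 𝓞 F)) = n ^ 2 := by rw [kk_nb hb hbn, Nm_nat]
  have hfin : Finite {P : G // ρ (n : 𝓞 F) P = 0} := Nat.finite_of_card_ne_zero (by
    change kk (ρ (n : 𝓞 F)) ≠ 0
    rw [hcard]
    exact pow_ne_zero _ hn0.ne')
  have hb0 : b ≠ 0 := by
    intro h0
    have ha0 : a ≠ 0 := hab.resolve_right fun h1 => h1 h0
    rw [h0, zero_mul, sub_zero] at hdvd
    exact hbig a ha0 hdvd ha
  have ha0 : a ≠ 0 := by
    intro h0
    let g : {P : G // ρ (n : 𝓞 F) P = 0} → {P : G // ρ (n : 𝓞 F) P = 0} := fun P => ⟨φ P.1, hker P.1 P.2⟩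
    have hginj : Function.Injective g := by
      intro P Q hPQ
      exact Subtype.ext (hφ.bij.1 (congrArg Subtype.val hPQ))
    obtain ⟨P, hP⟩ := (Finite.injective_iff_surjective.1 hginj) ⟨T, hnT⟩
    have h1 : φ P.1 = T := congrArg Subtype.val hP
    have h2 := hrel P.1 P.2
    rw [h1, h0, map_zero] at h2
    have h3 : ρ b T = 0 := h2.symm
    exact hbig b hb0 ((hT2 b).1 h3) hb'
  rcases four h hφ ha0 hb0 with h1 | h1 | ⟨h1, h2⟩
  · exact ⟨a, b, ha0, hb0, h1⟩
  · refine ⟨-a, b, neg_ne_zero.2 ha0, hb0, fun P => ?_⟩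
    rw [map_neg]
    change -(ρ a P) = _
    rw [h1 P, neg_neg]
  · exfalso
    have h3 : Nat.card {P : G // ρ (n : 𝓞 F) P = 0} ≤ Nat.card {P : G // ρ a P = ρ b (φ P)} :=
      Nat.card_le_card_of_injective (fun P => (⟨P.1, hrel P.1 P.2⟩ : {P : G // ρ a P = ρ b (φ P)})) (by
        intro P Q hPQ
        exact Subtype.ext (congrArg (fun R : {P : G // ρ a P = ρ b (φ P)} => R.1) hPQ))
    have h4 : n ^ 2 ≤ 2 * (Nm a + q * Nm b) + Nm a := by
      rw [← hcard]
      exact h3.trans h2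
    have h5 : 2 * (Nm a + q * Nm b) + Nm a ≤ ((3 + 2 * q) * C) * n := by
      have h6 : q * Nm b ≤ q * (C * n) := Nat.mul_le_mul_left _ hb'
      calc 2 * (Nm a + q * Nm b) + Nm a ≤ 2 * (C * n + q * (C * n)) + C * n := by omega
        _ = ((3 + 2 * q) * C) * n := by ring
    have h6 : n * n ≤ ((3 + 2 * q) * C) * n := by
      rw [← pow_two]
      exact h4.trans h5
    have h7 := Nat.le_of_mul_le_mul_right h6 hn0
    omega

end H55G
end

-- from Lib.H55G.A7a
section

/-! # H55G, part A: the Hasse bound -/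

open NumberField IsDedekindDomain WeierstrassCurve Polynomial

namespace H55G

open H55P (IQ embF eF Nm)
open H55K (cj cj_cj mul_cj Nm_cj Nm_mul Nm_nat e_cj)

variable {F : Type} [Field F] [NumberField F] [IQ F] {G κ : Type} [AddCommGroup G] [Field κ]
  {ρ : 𝓞 F →+* AddMonoid.End G} {X : G → κ}

/-- Chunk A7 (S). eF is injective, ‖α + β‖^2 + ‖α - β‖^2 = 2 ‖α‖^2 + 2 ‖β‖^2 for α = eF a, β = eF b (parallelogram law), H55P.Nm_eq, cast to ℕ. -/
theorem nm_par (a b : 𝓞 F) : Nm (a + b) + Nm (a - b) = 2 * (Nm a + Nm b) := by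
  have h1 : ((Nm (a + b) + Nm (a - b) : ℕ) : ℝ) = ((2 * (Nm a + Nm b) : ℕ) : ℝ) := by
    push_cast
    rw [H55P.Nm_eq, H55P.Nm_eq, H55P.Nm_eq, H55P.Nm_eq, map_add, map_sub, Complex.sq_norm, Complex.sq_norm,
      Complex.sq_norm, Complex.sq_norm, Complex.normSq_apply, Complex.normSq_apply, Complex.normSq_apply,
      Complex.normSq_apply, Complex.add_re, Complex.add_im, Complex.sub_re, Complex.sub_im]
    ring
  exact_mod_cast h1

/-- Chunk A7 (S). Nm a + Nm b - Nm (a - b) = 2 Re(α conj β), of square ≤ 4 |α|^2 |β|^2. -/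
theorem nm_cs (a b : 𝓞 F) : ((Nm a : ℤ) + Nm b - Nm (a - b)) ^ 2 ≤ 4 * Nm a * Nm b := by
  have h1 : ((((Nm a : ℤ) + Nm b - Nm (a - b)) ^ 2 : ℤ) : ℝ) ≤ ((4 * Nm a * Nm b : ℤ) : ℝ) := by
    push_cast
    rw [H55P.Nm_eq, H55P.Nm_eq, H55P.Nm_eq, map_sub, Complex.sq_norm, Complex.sq_norm,
      Complex.sq_norm, Complex.normSq_apply, Complex.normSq_apply, Complex.normSq_apply,
      Complex.sub_re, Complex.sub_im]
    generalize (eF F a).re = x
    generalize (eF F a).im = y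
    generalize (eF F b).re = u
    generalize (eF F b).im = v
    have h2 : 4 * (x * x + y * y) * (u * u + v * v) - (x * x + y * y + (u * u + v * v) -
        ((x - u) * (x - u) + (y - v) * (y - v))) ^ 2 = 4 * (x * v - y * u) ^ 2 := by ring
    have h3 := sq_nonneg (x * v - y * u)
    linarith
  exact_mod_cast h1

/-- Chunk A7 (S/M). From rel: a₁, b₁ ≠ 0 with ρ a₁ P = ρ b₁ (φ P). Cancel the common powers of β (β prime; hb.inj: if a₁ = β a₂, b₁ = β b₂ then ρ β (ρ a₂ P - ρ b₂ (φ P)) = 0): strong induction on Nm a₁ (Nm β > 1 since β is not a unit) or take a relation with Nm a minimal (Nat.find). -/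
theorem rel_red (h : RG ρ X) {β : 𝓞 F} (hb : RB ρ β) {q : ℕ} {φ : AddMonoid.End G} (hφ : Fr X q φ)
    (hlin : ∀ (a : 𝓞 F) (P : G), φ (ρ a P) = ρ a (φ P)) :
    ∃ a b : 𝓞 F, a ≠ 0 ∧ b ≠ 0 ∧ (∀ P : G, ρ a P = ρ b (φ P)) ∧ ¬ (β ∣ a ∧ β ∣ b) := by
  classical
  let S : ℕ → Prop := fun n => ∃ a b : 𝓞 F, a ≠ 0 ∧ b ≠ 0 ∧ (∀ P : G, ρ a P = ρ b (φ P)) ∧ Nm a = n
  have hS : ∃ n, S n := by
    obtain ⟨a, b, ha, hb1, hr⟩ := rel h hφ hlin
    exact ⟨Nm a, a, b, ha, hb1, hr, rfl⟩
  obtain ⟨a, b, ha, hb1, hr, hn⟩ := Nat.find_spec hS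
  refine ⟨a, b, ha, hb1, hr, ?_⟩
  rintro ⟨⟨a₂, rfl⟩, ⟨b₂, rfl⟩⟩
  have ha₂ : a₂ ≠ 0 := right_ne_zero_of_mul ha
  have hb₂ : b₂ ≠ 0 := right_ne_zero_of_mul hb1
  have hr₂ : ∀ P : G, ρ a₂ P = ρ b₂ (φ P) := by
    intro P
    have h1 := hr P
    rw [map_mul, map_mul] at h1
    have h2 : ρ β (ρ a₂ P) = ρ β (ρ b₂ (φ P)) := h1
    have h3 : ρ β (ρ a₂ P - ρ b₂ (φ P)) = 0 := by rw [map_sub, h2, sub_self]
    exact sub_eq_zero.1 (hb.inj _ h3)
  have hβ0 : Nm β ≠ 0 := fun h0 => hb.prime.ne_zero (H55P.Nm_eq_zero.1 h0)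
  have hβ1 : Nm β ≠ 1 := by
    intro h1
    unfold Nm at h1
    rw [Ideal.absNorm_eq_one_iff, Ideal.span_singleton_eq_top] at h1
    exact hb.prime.not_isUnit h1
  have hNa : 0 < Nm a₂ := Nat.pos_of_ne_zero fun h0 => ha₂ (H55P.Nm_eq_zero.1 h0)
  have hlt : Nm a₂ < Nat.find hS := by
    rw [← hn, Nm_mul]
    have h2 : 2 * Nm a₂ ≤ Nm β * Nm a₂ := Nat.mul_le_mul_right _ (by omega)
    omega
  exact Nat.find_min hS hlt ⟨a₂, b₂, ha₂, hb₂, hr₂, rfl⟩

end H55G
end

-- from Lib.H55G.A7b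
section

/-! # H55G, part A: the Hasse bound -/

open NumberField IsDedekindDomain WeierstrassCurve Polynomial

namespace H55G

open H55P (IQ embF eF Nm)
open H55K (cj cj_cj mul_cj Nm_cj Nm_mul Nm_nat e_cj)

variable {F : Type} [Field F] [NumberField F] [IQ F] {G κ : Type} [AddCommGroup G] [Field κ]
  {ρ : 𝓞 F →+* AddMonoid.End G} {X : G → κ}

/-- Chunk A7 (S/M). ρ b * (φ - 1) = ρ (a - b) and (φ - 1) * ρ b = ρ (a - b) (hlin). With N₊ = card {φ P = P} = kk (φ - 1), N₋ = kk (φ + 1) (kk_pm): kk (ρ (a - b)) = kk ((φ - 1) * ρ b) = N₊ kk (ρ b) (kk_mul, ρ b surjective by h.surj), the same with +. N₊ > 0 and N₋ > 0 (they contain 0 and are finite, fr_two), kk (ρ b) > 0 (kk_fin).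
a ≠ b: otherwise kk (ρ 0) = Nat.card G = 0 as G is infinite (h.xsurj, h.inf). a ≠ -b the same. -/
theorem rel_card (h : RG ρ X) {q : ℕ} {φ : AddMonoid.End G} (hφ : Fr X q φ)
    (hlin : ∀ (a : 𝓞 F) (P : G), φ (ρ a P) = ρ a (φ P)) {a b : 𝓞 F} (ha : a ≠ 0) (hb : b ≠ 0)
    (hab : ∀ P : G, ρ a P = ρ b (φ P)) :
    kk (ρ (a - b)) = Nat.card {P : G // φ P = P} * kk (ρ b) ∧ kk (ρ (a + b)) = Nat.card {P : G // φ P = -P} * kk (ρ b) ∧
      a - b ≠ 0 ∧ a + b ≠ 0 ∧ kk (ρ a) = kk (ρ b) := by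
  have hfr := fr_two h hφ
  have hs := h.surj b hb
  have hsb : Function.Surjective (ρ b) := fun P => hs P
  have e1 : (φ - 1) * ρ b = ρ (a - b) := by
    refine AddMonoidHom.ext fun P => ?_
    have h1 : ((φ - 1) * ρ b) P = φ (ρ b P) - ρ b P := rfl
    have h2 : ρ (a - b) P = ρ a P - ρ b P := by
      rw [map_sub]
      rfl
    have h3 : φ (ρ b P) - ρ b P = ρ a P - ρ b P := by rw [hlin, ← hab]
    exact h1.trans (h3.trans h2.symm)
  have e2 : (φ + 1) * ρ b = ρ (a + b) := by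
    refine AddMonoidHom.ext fun P => ?_
    have h1 : ((φ + 1) * ρ b) P = φ (ρ b P) + ρ b P := rfl
    have h2 : ρ (a + b) P = ρ a P + ρ b P := by
      rw [map_add]
      rfl
    have h3 : φ (ρ b P) + ρ b P = ρ a P + ρ b P := by rw [hlin, ← hab]
    exact h1.trans (h3.trans h2.symm)
  have e3 : ρ a = ρ b * φ := AddMonoidHom.ext fun P => hab P
  have g1 : kk (ρ (a - b)) = Nat.card {P : G // φ P = P} * kk (ρ b) := by
    rw [← e1, kk_mul hsb, (kk_pm φ).1]
  have g2 : kk (ρ (a + b)) = Nat.card {P : G // φ P = -P} * kk (ρ b) := by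
    rw [← e2, kk_mul hsb, (kk_pm φ).2]
  have g3 : kk φ = 1 := by
    have h1 : Subsingleton {P : G // φ P = 0} := ⟨fun x y => Subtype.ext (hφ.bij.1 (x.2.trans y.2.symm))⟩
    have h2 : Nonempty {P : G // φ P = 0} := ⟨⟨0, map_zero φ⟩⟩
    have : Unique {P : G // φ P = 0} := ⟨⟨⟨0, map_zero φ⟩⟩, fun x => Subsingleton.elim _ _⟩
    exact Nat.card_unique
  have g4 : kk (ρ a) = kk (ρ b) := by
    rw [e3, kk_mul hφ.bij.2, g3, mul_one]
  obtain ⟨β, hβ⟩ := h.b
  have hkb := (kk_fin hβ hb).2.1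
  have n1 : 0 < Nat.card {P : G // φ P = P} := by
    have := hfr.1
    have h2 : Nonempty {P : G // φ P = P} := ⟨⟨0, map_zero φ⟩⟩
    exact Nat.card_pos
  have n2 : 0 < Nat.card {P : G // φ P = -P} := by
    have := hfr.2.1
    have h2 : Nonempty {P : G // φ P = -P} := ⟨⟨0, by rw [map_zero, neg_zero]⟩⟩
    exact Nat.card_pos
  have hG : Infinite G := by
    have := h.inf
    choose f hf0 hf using h.xsurj
    exact Infinite.of_injective f fun x y hxy => by rw [← hf x, ← hf y, hxy]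
  have k0 : kk (ρ 0) = 0 := by
    have h1 : Infinite {P : G // ρ 0 P = 0} := by
      refine Infinite.of_injective (fun P : G => (⟨P, by rw [map_zero]; rfl⟩ : {P : G // ρ 0 P = 0})) ?_
      intro P Q hPQ
      exact congrArg Subtype.val hPQ
    exact Nat.card_eq_zero_of_infinite
  refine ⟨g1, g2, fun h1 => ?_, fun h1 => ?_, g4⟩
  · rw [h1, k0] at g1
    exact (Nat.mul_pos n1 hkb).ne g1
  · rw [h1, k0] at g2
    exact (Nat.mul_pos n2 hkb).ne g2

end H55G
end

-- from Lib.H55G.A7c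
section

/-! # H55G, part A: the Hasse bound -/

open NumberField IsDedekindDomain WeierstrassCurve Polynomial

namespace H55G

open H55P (IQ embF eF Nm)
open H55K (cj cj_cj mul_cj Nm_cj Nm_mul Nm_nat e_cj)

variable {F : Type} [Field F] [NumberField F] [IQ F] {G κ : Type} [AddCommGroup G] [Field κ]
  {ρ : 𝓞 F →+* AddMonoid.End G} {X : G → κ}

/-- Chunk A7 (M). β from h.b, a, b from rel_red, N₊, N₋ as in rel_card; N₊ + N₋ = 2 (q + 1) (fr_two). (For kk (ρ a) = kk (ρ b) in rel_card: kk (ρ b * φ) = kk (ρ b) kk φ (kk_mul, φ surjective) and kk φ = 1, φ injective.)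
Case 1: β does not divide b, β ∣ a. Then β does not divide a - b, a + b; kk (ρ b) = Nm b, kk (ρ (a ± b)) = Nm (a ± b) (kk_nb): Nm b N₊ = Nm (a - b), Nm b N₋ = Nm (a + b); the sum and nm_par: 2 (q + 1) Nm b = 2 (Nm a + Nm b), so Nm a = q Nm b. (q + 1 - N₊) Nm b = Nm a + Nm b - Nm (a - b); nm_cs: (q + 1 - N₊)^2 Nm b^2 ≤ 4 Nm a Nm b = 4 q Nm b^2; Nm b > 0.
Case 2: β ∣ b, β does not divide a: b = β^k b'' with kk (ρ b) = Nm b'', Nm b = Nm β^k Nm b'' (kk_split), kk (ρ a) = Nm a, so Nm a = Nm b''. β does not divide a ± b. Nm b'' N± = Nm (a ∓ b), sum: 2 (q + 1) Nm b'' = 2 (Nm a + Nm b) = 2 (1 + Nm β^k) Nm b'', so Nm β^k = q. (q + 1 - N₊) Nm b'' = Nm b + Nm a - Nm (a - b); nm_cs: (q + 1 - N₊)^2 Nm b''^2 ≤ 4 Nm a Nm b = 4 Nm b'' q Nm b''.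
Case 3: β divides neither: kk (ρ a) = Nm a, kk (ρ b) = Nm b: Nm a = Nm b. kk (ρ (a ± b)) ≤ Nm (a ± b) (kk_fin): 2 (q + 1) Nm b = Nm b (N₊ + N₋) ≤ Nm (a - b) + Nm (a + b) = 4 Nm b: q + 1 ≤ 2, against q ≥ 2. -/
theorem hasse (h : RG ρ X) {q : ℕ} {φ : AddMonoid.End G} (hφ : Fr X q φ)
    (hlin : ∀ (a : 𝓞 F) (P : G), φ (ρ a P) = ρ a (φ P)) :
    ((q : ℤ) + 1 - (Nat.card {P : G // φ P = P} : ℤ)) ^ 2 ≤ 4 * q := by
  obtain ⟨β, hβ⟩ := h.b
  obtain ⟨a, b, ha, hb, hab, hred⟩ := rel_red h hβ hφ hlin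
  obtain ⟨r1, r2, r3, r4, r5⟩ := rel_card h hφ hlin ha hb hab
  obtain ⟨-, -, hsum⟩ := fr_two h hφ
  have hpar := nm_par a b
  have hcs := nm_cs a b
  have hq := hφ.two
  set N := Nat.card {P : G // φ P = P} with hN
  set N' := Nat.card {P : G // φ P = -P} with hN'
  have key : ∀ D : ℕ, 0 < D → Nm (a - b) = N * D → Nm (a + b) = N' * D → (Nm a : ℤ) * Nm b = q * (D : ℤ) ^ 2 →
      Nm a + Nm b = (q + 1) * D → ((q : ℤ) + 1 - (N : ℤ)) ^ 2 ≤ 4 * q := by
    intro D hD h1 h2 h3 h4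
    have h5 : ((Nm a : ℤ) + Nm b - Nm (a - b)) = ((q : ℤ) + 1 - N) * D := by
      have h6 : (Nm a : ℤ) + Nm b = (q + 1) * D := by exact_mod_cast h4
      have h7 : (Nm (a - b) : ℤ) = N * D := by exact_mod_cast h1
      rw [h6, h7]
      ring
    rw [h5, mul_pow, mul_assoc, h3, ← mul_assoc] at hcs
    have h8 : (0 : ℤ) < (D : ℤ) ^ 2 := by positivity
    exact le_of_mul_le_mul_right hcs h8
  have hpos : 0 < Nm b := Nat.pos_of_ne_zero fun h0 => hb (H55P.Nm_eq_zero.1 h0)
  have hposa : 0 < Nm a := Nat.pos_of_ne_zero fun h0 => ha (H55P.Nm_eq_zero.1 h0)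
  have dvd1 : ∀ {x y : 𝓞 F}, β ∣ x → ¬ β ∣ y → ¬ β ∣ x - y ∧ ¬ β ∣ x + y := by
    intro x y hx hy
    refine ⟨fun h1 => hy ?_, fun h1 => hy ?_⟩
    · have := dvd_sub hx h1
      rwa [sub_sub_cancel] at this
    · exact (dvd_add_right hx).1 h1
  have dvd2 : ∀ {x y : 𝓞 F}, ¬ β ∣ x → β ∣ y → ¬ β ∣ x - y ∧ ¬ β ∣ x + y := by
    intro x y hx hy
    refine ⟨fun h1 => hx ?_, fun h1 => hx ?_⟩
    · have := dvd_add h1 hy
      rwa [sub_add_cancel] at this
    · exact (dvd_add_left hy).1 h1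
  by_cases hβb : β ∣ b
  · have hβa : ¬ β ∣ a := fun h1 => hred ⟨h1, hβb⟩
    obtain ⟨d1, d2⟩ := dvd2 hβa hβb
    obtain ⟨k, b'', hb1, hb2, hb3, hb4⟩ := kk_split hβ hb
    rw [kk_nb hβ d1] at r1
    rw [kk_nb hβ d2] at r2
    rw [kk_nb hβ hβa] at r5
    rw [← r5] at r1 r2
    have h1 : Nm b = q * Nm a := by
      have h2 : N * Nm a + N' * Nm a = 2 * (q + 1) * Nm a := by rw [← add_mul, hsum]
      rw [← r1, ← r2] at h2
      nlinarith
    refine key (Nm a) hposa r1 r2 ?_ ?_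
    · rw [h1]
      push_cast
      ring
    · rw [h1]
      ring
  · by_cases hβa : β ∣ a
    · obtain ⟨d1, d2⟩ := dvd1 hβa hβb
      rw [kk_nb hβ d1, kk_nb hβ hβb] at r1
      rw [kk_nb hβ d2, kk_nb hβ hβb] at r2
      have h1 : Nm a = q * Nm b := by
        have h2 : N * Nm b + N' * Nm b = 2 * (q + 1) * Nm b := by rw [← add_mul, hsum]
        rw [← r1, ← r2] at h2
        nlinarith
      refine key (Nm b) hpos r1 r2 ?_ ?_
      · rw [h1]
        push_cast
        ring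
      · rw [h1]
        ring
    · exfalso
      rw [kk_nb hβ hβa, kk_nb hβ hβb] at r5
      rw [kk_nb hβ hβb] at r1 r2
      have h1 := (kk_fin hβ r3).2.2
      have h2 := (kk_fin hβ r4).2.2
      rw [r1] at h1
      rw [r2] at h2
      have h3 : N * Nm b + N' * Nm b = 2 * (q + 1) * Nm b := by rw [← add_mul, hsum]
      nlinarith

/-- Chunk A7 (S). a, b from rel: (φ - 1) (ρ b Q) = ρ (a - b) Q (hlin), a - b ≠ 0 (rel_card), so every P is ρ (a - b) Q = φ (ρ b Q) - ρ b Q (h.surj). The same with +. -/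
theorem fr_surj (h : RG ρ X) {q : ℕ} {φ : AddMonoid.End G} (hφ : Fr X q φ)
    (hlin : ∀ (a : 𝓞 F) (P : G), φ (ρ a P) = ρ a (φ P)) : (∀ P : G, ∃ Q : G, φ Q - Q = P) ∧ ∀ P : G, ∃ Q : G, φ Q + Q = P := by
  obtain ⟨a, b, ha, hb, hab⟩ := rel h hφ hlin
  obtain ⟨-, -, r3, r4, -⟩ := rel_card h hφ hlin ha hb hab
  refine ⟨fun P => ?_, fun P => ?_⟩
  · obtain ⟨Q, hQ⟩ := h.surj (a - b) r3 P
    refine ⟨ρ b Q, ?_⟩
    rw [← hQ, map_sub, hlin, ← hab]
    rfl
  · obtain ⟨Q, hQ⟩ := h.surj (a + b) r4 P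
    refine ⟨ρ b Q, ?_⟩
    rw [← hQ, map_add, hlin, ← hab]
    rfl

end H55G
end

-- from Lib.H55G.A8
section

/-! # H55G, part A: antilinear Frobenius endomorphisms -/

open NumberField IsDedekindDomain WeierstrassCurve Polynomial

namespace H55G

open H55P (IQ embF eF Nm)
open H55K (cj cj_cj mul_cj Nm_cj Nm_mul Nm_nat e_cj)

variable {F : Type} [Field F] [NumberField F] [IQ F] {G κ : Type} [AddCommGroup G] [Field κ]
  {ρ : 𝓞 F →+* AddMonoid.End G} {X : G → κ}

/-- Chunk A8 (S). cj is not the identity on 𝓞 F (IQ.im: eF a not real for some a; e_cj): δ = a - cj a, cj δ = -δ (cj_cj). -/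
theorem exists_delta (F : Type) [Field F] [NumberField F] [IQ F] : ∃ δ : 𝓞 F, δ ≠ 0 ∧ cj δ = -δ := by
  have ha : ∃ a : 𝓞 F, (eF F a).im ≠ 0 := by
    by_contra hn
    push Not at hn
    obtain ⟨x, hx⟩ := IQ.im (F := F)
    obtain ⟨a, b, -, hab⟩ := IsFractionRing.div_surjective (A := 𝓞 F) x
    apply hx
    have e1 : (IQ.emb : F →+* ℂ) x = eF F a / eF F b := by
      rw [← hab, map_div₀]
      rfl
    have e2 : ∀ c : 𝓞 F, eF F c = (((eF F c).re : ℝ) : ℂ) := fun c =>
      Complex.ext (by simp) (by simp [hn c])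
    rw [e1, e2 a, e2 b, ← Complex.ofReal_div]
    exact Complex.ofReal_im _
  obtain ⟨a, ha⟩ := ha
  refine ⟨a - cj a, ?_, ?_⟩
  · intro h0
    have h1 : a = cj a := sub_eq_zero.1 h0
    have h2 : eF F a = (starRingEnd ℂ) (eF F a) := by
      rw [← e_cj, ← h1]
    exact ha (Complex.conj_eq_iff_im.1 h2.symm)
  · rw [map_sub, cj_cj, neg_sub]

theorem a8_kk {G : Type} [AddCommGroup G] {f g : AddMonoid.End G} (h : ∀ P : G, f P = 0 ↔ g P = 0) :
    kk f = kk g :=
  Nat.card_congr (Equiv.subtypeEquivRight h)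

/-- Chunk A8 (M). δ from exists_delta. φ (ρ δ P) = -ρ δ (φ P) (hanti, map_neg), so (φ - 1) * ρ δ = -(ρ δ * (φ + 1)) and (φ + 1) * ρ δ = -(ρ δ * (φ - 1)). kk ((φ - 1) * ρ δ) = kk (φ - 1) kk (ρ δ) (kk_mul, h.surj), kk (ρ δ * (φ + 1)) ≤ kk (ρ δ) kk (φ + 1) (kk_mul_le; the kernel of -f is the kernel of f), kk (ρ δ) > 0 (kk_fin): kk (φ - 1) ≤ kk (φ + 1), and the same with the signs
exchanged: equal. kk_pm, fr_two: both are q + 1 (first claim). φ * φ is linear: φ (φ (ρ a P)) = ρ (cj (cj a)) .. = ρ a (φ (φ P)) (cj_cj). fr_surj for φ * φ (hφ2): for P there is Q with φ (φ Q) - Q = P; Q' = φ Q + Q satisfies φ Q' - Q' = φ (φ Q) - Q = P: φ - 1 is surjective, and Q'' = φ Q - Q satisfies φ Q'' + Q'' = P: φ + 1 is surjective.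
φ * φ - 1 = (φ - 1) * (φ + 1): kk = kk (φ - 1) kk (φ + 1) = (q + 1)^2 (kk_mul; {P // φ (φ P) = P} is the kernel of φ * φ - 1: kk_pm for φ * φ). -/
theorem anti (h : RG ρ X) {q : ℕ} {φ : AddMonoid.End G} (hφ : Fr X q φ) (hφ2 : Fr X (q ^ 2) (φ * φ))
    (hanti : ∀ (a : 𝓞 F) (P : G), φ (ρ a P) = ρ (cj a) (φ P)) :
    Nat.card {P : G // φ P = P} = q + 1 ∧ Nat.card {P : G // φ (φ P) = P} = (q + 1) ^ 2 ∧ ∀ P : G, ∃ Q : G, φ Q - Q = P := by
  obtain ⟨δ, hδ, hcj⟩ := exists_delta F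
  obtain ⟨b, hb⟩ := h.b
  obtain ⟨f1, f2, hsum⟩ := fr_two h hφ
  obtain ⟨p1, p2⟩ := kk_pm φ
  obtain ⟨k1, k2, -⟩ := kk_fin hb hδ
  have hδs : Function.Surjective (ρ δ) := fun P => h.surj δ hδ P
  have han : ∀ P : G, φ (ρ δ P) = -(ρ δ (φ P)) := by
    intro P
    rw [hanti, hcj, map_neg]
    rfl
  have fm : Finite {P : G // (φ - 1) P = 0} := by
    refine Finite.of_equiv _ (Equiv.subtypeEquivRight (p := fun P : G => φ P = P) fun P => ?_)
    change φ P = P ↔ φ P - P = 0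
    exact sub_eq_zero.symm
  have fp : Finite {P : G // (φ + 1) P = 0} := by
    refine Finite.of_equiv _ (Equiv.subtypeEquivRight (p := fun P : G => φ P = -P) fun P => ?_)
    change φ P = -P ↔ φ P + P = 0
    exact eq_neg_iff_add_eq_zero
  have e1 : kk ((φ - 1) * ρ δ) = kk (ρ δ * (φ + 1)) := by
    refine a8_kk fun P => ?_
    change φ (ρ δ P) - ρ δ P = 0 ↔ ρ δ (φ P + P) = 0
    rw [han, map_add, ← neg_eq_zero, neg_sub, sub_neg_eq_add, add_comm]
  have e2 : kk ((φ + 1) * ρ δ) = kk (ρ δ * (φ - 1)) := by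
    refine a8_kk fun P => ?_
    change φ (ρ δ P) + ρ δ P = 0 ↔ ρ δ (φ P - P) = 0
    rw [han, map_sub, ← neg_eq_zero, neg_add, neg_neg, sub_eq_add_neg]
  have l1 : kk (φ - 1) ≤ kk (φ + 1) := by
    have h1 := (kk_mul_le (f := ρ δ) (g := φ + 1) k1 fp).2
    rw [← e1, kk_mul hδs, mul_comm] at h1
    exact Nat.le_of_mul_le_mul_left h1 k2
  have l2 : kk (φ + 1) ≤ kk (φ - 1) := by
    have h1 := (kk_mul_le (f := ρ δ) (g := φ - 1) k1 fm).2
    rw [← e2, kk_mul hδs, mul_comm] at h1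
    exact Nat.le_of_mul_le_mul_left h1 k2
  have hm : kk (φ - 1) = q + 1 := by omega
  have hp : kk (φ + 1) = q + 1 := by omega
  have hlin2 : ∀ (a : 𝓞 F) (P : G), (φ * φ) (ρ a P) = ρ a ((φ * φ) P) := by
    intro a P
    change φ (φ (ρ a P)) = ρ a (φ (φ P))
    rw [hanti, hanti, cj_cj]
  obtain ⟨s1, -⟩ := fr_surj h hφ2 hlin2
  have sm : ∀ P : G, ∃ Q : G, φ Q - Q = P := by
    intro P
    obtain ⟨Q, hQ⟩ := s1 P
    refine ⟨φ Q + Q, ?_⟩
    rw [map_add]
    change φ (φ Q) - Q = P at hQ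
    rw [← hQ]
    abel
  have sp : Function.Surjective ((φ + 1 : AddMonoid.End G) : G → G) := by
    intro P
    obtain ⟨Q, hQ⟩ := s1 P
    refine ⟨φ Q - Q, ?_⟩
    change φ (φ Q - Q) + (φ Q - Q) = P
    change φ (φ Q) - Q = P at hQ
    rw [map_sub, ← hQ]
    abel
  refine ⟨by rw [← p1, hm], ?_, sm⟩
  have e3 : kk (φ * φ - 1) = kk ((φ - 1) * (φ + 1)) := by
    refine a8_kk fun P => ?_
    change φ (φ P) - P = 0 ↔ φ (φ P + P) - (φ P + P) = 0
    have e4 : φ (φ P + P) - (φ P + P) = φ (φ P) - P := by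
      rw [map_add]
      abel
    rw [e4]
  have e5 : Nat.card {P : G // φ (φ P) = P} = kk (φ * φ - 1) := (kk_pm (φ * φ)).1.symm
  rw [e5, e3, kk_mul sp, hm, hp, sq]

end H55G
end
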