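import Mathlib
import Pool.Agent.Lib.H1M.PP2.D_H55K_FD
import Pool.Agent.Lib.H1M.PP2.D_H55K_QD
import Pool.Agent.Lib.H1M.PP2.M005
import Pool.Agent.Lib.H1M.PP2.M031
import Pool.Agent.Lib.H1M.PP2.M062
import Pool.Agent.Lib.H1M.PP2.M073
import Pool.Agent.Lib.H1M.PP2.M074
import Pool.Agent.Lib.H1M.PP2.M075
import Pool.Agent.Lib.H1M.PP2.M080
import Pool.Agent.Lib.H1M.PP2.M081
import Pool.Agent.Lib.H1M.PP2.M082
import Pool.Agent.Lib.H1M.PP2.M086
import Pool.Agent.Lib.H1M.PP2.M090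
import Pool.Agent.Lib.H1M.PP2.M092
import Pool.Agent.Lib.H1M.PP2.M094
import Pool.Agent.Lib.H1M.PP2.M095
import Pool.Agent.Lib.H1M.PP2.M098
import Pool.Agent.Lib.H1M.PP2.M099
import Pool.Agent.Lib.H1M.PP2.M100
import Pool.Agent.Lib.H1M.PP2.M101
import Pool.Agent.Lib.H1M.PP2.M102
import Pool.Agent.Lib.H1M.PP2.M106
import Pool.Agent.Lib.H1M.PP2.M108
import Pool.Agent.Lib.H1M.PP2.M110
import Pool.Agent.Lib.H1M.PP2.M113

/-! Merged copies (to shorten the build) of Lib.H13X.XZ1, Lib.H13X.XZ3, Lib.H13X.XZ5, Lib.H28I.P0, Lib.H28I.P2, Lib.H28I.P1, Lib.H28I.P3, Lib.H55G.J0, Lib.H55G.J1a, Lib.H55G.J1b, Lib.H55G.J2a, Lib.H55G.J2b, Lib.H55G.J3a, Lib.H55K.UA2B, Lib.H55K.UA7, Lib.H55K.UB8, Lib.H55K.UB9B, Lib.H55K.UB9C, Lib.H55K.UB3A, Lib.H55K.UB3B, Lib.H55K.UB9A, Lib.H55K.UB10B. -/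

-- from Lib.H13X.XZ1
section

/-! # H13X: port of H13Z/CZ1 -/

open NumberField IsDedekindDomain WeierstrassCurve

namespace H13X

open H55P (IQ embF eF LF Per IsHecke Pt ac Inert Dec Nm Coc)
open H35P (WAB Ker tt)
open H55K (Tor ak xc yc CMA Dta GV GMod cj cj_cj mul_cj cj_prime cj_dvd cj_nat Nm_cj Nm_mul Nm_nat)
open H55K.S
open H13S (Abv)




variable {F : Type} [Field F] [NumberField F] [IQ F] {A B : F} {Om : ℂ} {Ω : Type} [Field Ω] [DecidableEq Ω]
  [Algebra F Ω] [IsAlgClosure F Ω] {j : Ω →+* ℂ} {act : 𝓞 F →+* AddMonoid.End (Pt (WAB A B) Ω)} {mo : Ideal (𝓞 F)}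
  {ψ : Ideal (𝓞 F) →*₀ 𝓞 F}

/-- Chunk CZ1 (M). Additive system of l-th roots. -/
theorem y_system {π : 𝓞 F} {l : ℕ} (D : Dat A B Om j act mo ψ π l) (L : IntermediateField F Ω) (m : Pt (WAB A B) Ω → (L)ˣ)
    (hadd : ∀ T ∈ Tor act π, ∀ T' ∈ Tor act π, ∃ z : (L)ˣ, m (T + T') = m T * m T' * z ^ l) :
    ∃ y : Pt (WAB A B) Ω → Ω, (∀ T ∈ Tor act π, y T ≠ 0 ∧ ∃ z : (L)ˣ, y T ^ l = ((m T * z ^ l : (L)ˣ) : L)) ∧
      ∀ T ∈ Tor act π, ∀ T' ∈ Tor act π, ∃ z : (L)ˣ, y (T + T') = y T * y T' * ((z : L) : Ω) := by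
  classical
  have hl : Fact l.Prime := ⟨D.hl⟩
  have hl0 : l ≠ 0 := D.hl.ne_zero
  have hAC : IsAlgClosed Ω := IsAlgClosure.isAlgClosed F
  have hfull := (gi_gen D.cma π D.pr).1
  have hfin : Finite (Tor act π) := Nat.finite_of_card_ne_zero (by rw [hfull]; exact fun h => D.pr.ne_zero (H55P.Nm_eq_zero.1 h))
  have hkill : ∀ T : Tor act π, l • T = 0 := by
    rintro ⟨T, hT⟩
    apply Subtype.ext
    change l • T = 0
    obtain ⟨c, hc⟩ := D.dvd
    rw [← act_nat (act := act), hc, mul_comm, act_mul, mem_Tor.1 hT, map_zero]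
  obtain ⟨iM⟩ : Nonempty (Module (ZMod l) (Tor act π)) := ⟨AddCommGroup.zmodModule hkill⟩
  have iF : Module.Finite (ZMod l) (Tor act π) := Module.Finite.of_finite
  obtain ⟨n, b⟩ : Σ n : ℕ, Module.Basis (Fin n) (ZMod l) (Tor act π) := ⟨_, Module.finBasis (ZMod l) ↥(Tor act π)⟩
  have hrep : ∀ T : Tor act π, T = ∑ i, (b.repr T i).val • b i := by
    intro T
    conv_lhs => rw [← b.sum_repr T]
    refine Finset.sum_congr rfl fun i _ => ?_
    conv_lhs => rw [← ZMod.natCast_zmod_val (b.repr T i)]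
    exact Nat.cast_smul_eq_nsmul (ZMod l) _ _
  have hroot : ∀ i : Fin n, ∃ w : Ω, w ^ l = ((m (b i) : L) : Ω) := fun i =>
    IsAlgClosed.exists_pow_nat_eq _ (Nat.pos_of_ne_zero hl0)
  choose w hw using hroot
  have hw0 : ∀ i, w i ≠ 0 := by
    intro i h
    have h1 := hw i
    rw [h, zero_pow hl0] at h1
    have h2 : ((m (b i) : L)) ≠ 0 := Units.ne_zero _
    apply h2
    exact_mod_cast h1.symm
  let cc : Pt (WAB A B) Ω → Fin n → ℕ := fun T i => if h : T ∈ Tor act π then (b.repr ⟨T, h⟩ i).val else 0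
  let y : Pt (WAB A B) Ω → Ω := fun T => ∏ i, w i ^ cc T i
  have hcc : ∀ T (h : T ∈ Tor act π) i, cc T i = (b.repr ⟨T, h⟩ i).val := fun T h i => dif_pos h
  have hprod : ∀ (e : Fin n → ℕ), (∏ i, (w i ^ l) ^ e i) = (((∏ i, m (b i) ^ e i : (L)ˣ) : L) : Ω) := by
    intro e
    rw [Units.coe_prod]
    rw [show ((((∏ i, ((m (b i) ^ e i : (L)ˣ) : L)) : L)) : Ω) = L.val (∏ i, ((m (b i) ^ e i : (L)ˣ) : L)) from rfl,
      map_prod]
    refine Finset.prod_congr rfl fun i _ => ?_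
    rw [hw i, Units.val_pow_eq_pow_val, map_pow]
    rfl
  refine ⟨y, fun T hT => ⟨Finset.prod_ne_zero_iff.2 fun i _ => pow_ne_zero _ (hw0 i), ?_⟩,
    fun T hT T' hT' => ?_⟩
  · obtain ⟨z, hz⟩ := H13Z.cz1_quot (A := Tor act π) l (fun T => m T) (fun T T' => hadd T T.2 T' T'.2) b (cc T)
    refine ⟨z, ?_⟩
    have h1 : (∑ i, cc T i • b i) = ⟨T, hT⟩ := by
      conv_rhs => rw [hrep ⟨T, hT⟩]
      exact Finset.sum_congr rfl fun i _ => by rw [hcc T hT i]
    rw [h1] at hz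
    change (∏ i, w i ^ cc T i) ^ l = _
    rw [← Finset.prod_pow]
    have h2 : (∏ i, (w i ^ cc T i) ^ l) = ∏ i, (w i ^ l) ^ cc T i :=
      Finset.prod_congr rfl fun i _ => by rw [← pow_mul, ← pow_mul, mul_comm]
    rw [h2, hprod, hz]
  · let q : Fin n → ℕ := fun i => (cc T i + cc T' i) / l
    refine ⟨(∏ i, m (b i) ^ q i)⁻¹, ?_⟩
    have h1 : ∀ i, cc T i + cc T' i = cc (T + T') i + l * q i := by
      intro i
      have h2 : cc (T + T') i = (cc T i + cc T' i) % l := by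
        rw [hcc _ ((Tor act π).add_mem hT hT'), hcc T hT, hcc T' hT']
        rw [← ZMod.val_add]
        congr 1
        have h3 : (⟨T + T', (Tor act π).add_mem hT hT'⟩ : Tor act π) = ⟨T, hT⟩ + ⟨T', hT'⟩ := rfl
        rw [h3, map_add]
        rfl
      rw [h2]
      exact (Nat.mod_add_div _ _).symm
    have h2 : y T * y T' = y (T + T') * (((∏ i, m (b i) ^ q i : (L)ˣ) : L) : Ω) := by
      change (∏ i, w i ^ cc T i) * (∏ i, w i ^ cc T' i) = (∏ i, w i ^ cc (T + T') i) * _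
      rw [← hprod, ← Finset.prod_mul_distrib, ← Finset.prod_mul_distrib]
      refine Finset.prod_congr rfl fun i _ => ?_
      rw [← pow_add, ← pow_mul, ← pow_add, h1 i]
    rw [h2, mul_assoc]
    have h3 : (((∏ i, m (b i) ^ q i : (L)ˣ) : L) : Ω) * ((((∏ i, m (b i) ^ q i : (L)ˣ)⁻¹ : (L)ˣ) : L) : Ω) = 1 := by
      have h4 : ((∏ i, m (b i) ^ q i : (L)ˣ) : L) * (((∏ i, m (b i) ^ q i : (L)ˣ)⁻¹ : (L)ˣ) : L) = 1 :=
        Units.mul_inv _
      have h5 := congrArg (fun x : L => (x : Ω)) h4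
      simpa using h5
    rw [h3, mul_one]

end H13X
end

-- from Lib.H13X.XZ3
section

/-! # H13X: port of H13Y/YZ1 -/

open NumberField IsDedekindDomain WeierstrassCurve

namespace H13X

open H55P (IQ embF eF LF Per IsHecke Pt ac Inert Dec Nm Coc)
open H35P (WAB Ker tt)
open H55K (Tor ak xc yc CMA Dta GV GMod cj cj_cj mul_cj cj_prime cj_dvd cj_nat Nm_cj Nm_mul Nm_nat)
open H55K.S
open H13S (Abv)





variable {F : Type} [Field F] [NumberField F] [IQ F] {A B : F} {Om : ℂ} {Ω : Type} [Field Ω] [DecidableEq Ω]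
  [Algebra F Ω] [IsAlgClosure F Ω] {j : Ω →+* ℂ} {act : 𝓞 F →+* AddMonoid.End (Pt (WAB A B) Ω)} {mo : Ideal (𝓞 F)}
  {ψ : Ideal (𝓞 F) →*₀ 𝓞 F}

theorem cz3_ne {π : 𝓞 F} {l : ℕ} (hl : l ≠ 0) {e : Pt (WAB A B) Ω → Pt (WAB A B) Ω → Ω} (he : Pairing A B act π l e) {X T : Pt (WAB A B) Ω}
    (hX : X ∈ Tor act (cj π)) (hT : T ∈ Tor act π) : e X T ≠ 0 := by
  intro h
  have h1 := he.root X hX T hT
  rw [h, zero_pow hl] at h1
  exact zero_ne_one h1

theorem cz3_uniq {π : 𝓞 F} {l : ℕ} (hl : l ≠ 0) {e : Pt (WAB A B) Ω → Pt (WAB A B) Ω → Ω} (he : Pairing A B act π l e) {X Y : Pt (WAB A B) Ω}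
    (hX : X ∈ Tor act (cj π)) (hY : Y ∈ Tor act (cj π)) (h : ∀ T ∈ Tor act π, e X T = e Y T) : X = Y := by
  have h1 : X - Y = 0 := by
    refine he.nondeg _ (sub_mem hX hY) fun T hT => ?_
    have h2 := he.add_left (X - Y) (sub_mem hX hY) Y hY T hT
    rw [sub_add_cancel, h T hT] at h2
    exact (mul_eq_right₀ (cz3_ne hl he hY hT)).1 h2.symm
  exact sub_eq_zero.1 h1

/-- Either all l-th roots of unity are in L or only the trivial one. -/
theorem cz3_dich {l : ℕ} (hl : l.Prime) (L : IntermediateField F Ω) :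
    (∀ x : Ω, x ^ l = 1 → x ∈ L) ∨ ∀ x : Ω, x ^ l = 1 → x ∈ L → x = 1 := by
  by_cases h : ∃ x : Ω, x ^ l = 1 ∧ x ∈ L ∧ x ≠ 1
  · left
    have hlf : Fact l.Prime := ⟨hl⟩
    have hln : NeZero l := ⟨hl.ne_zero⟩
    obtain ⟨x, hx, hxL, hx1⟩ := h
    intro t ht
    have hp : IsPrimitiveRoot x l := by
      have h1 : orderOf x = l := orderOf_eq_prime hx hx1
      rw [← h1]
      exact IsPrimitiveRoot.orderOf x
    obtain ⟨i, -, hi⟩ := hp.eq_pow_of_pow_eq_one ht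
    rw [← hi]
    exact pow_mem hxL i
  · right
    intro x hx hxL
    by_contra h1
    exact h ⟨x, hx, hxL, h1⟩

/-- Chunk YZ1 (S/M), PORT of H13Z/CZ3.lean c0_exists to the base field N: IsTF act π L becomes IsTB act π N L, automorphisms σ, g are taken in N.fixingSubgroup (L is stable under them: tb_stable; every use of hL.2 becomes hL.fix with the membership in N.fixingSubgroup: elements of L.fixingSubgroup are in it by hL.mono). -/
theorem c0_exists {π : 𝓞 F} {l : ℕ} (D : Dat A B Om j act mo ψ π l) {e : Pt (WAB A B) Ω → Pt (WAB A B) Ω → Ω} (he : Pairing A B act π l e)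
    {N L : IntermediateField F Ω} (hL : IsTB act π N L) (m : Pt (WAB A B) Ω → (L)ˣ)
    (hact : ∀ σ ∈ N.fixingSubgroup, ∀ T ∈ Tor act π, ∃ z : (L)ˣ,
      ((m (ac (WAB A B) σ T) : L) : Ω) = σ ((m T : L) : Ω) * ((z : L) : Ω) ^ l)
    (y : Pt (WAB A B) Ω → Ω) (hy : ∀ T ∈ Tor act π, y T ≠ 0 ∧ ∃ z : (L)ˣ, y T ^ l = ((m T * z ^ l : (L)ˣ) : L))
    (hy2 : ∀ T ∈ Tor act π, ∀ T' ∈ Tor act π, ∃ z : (L)ˣ, y (T + T') = y T * y T' * ((z : L) : Ω)) :
    ∃ c₀ : (Ω ≃ₐ[F] Ω) → Pt (WAB A B) Ω,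
      (∀ s ∈ L.fixingSubgroup, c₀ s ∈ Tor act (cj π) ∧ ∀ T ∈ Tor act π, s (y T) = e (c₀ s) T * y T) ∧
      (∀ s ∈ L.fixingSubgroup, ∀ t ∈ L.fixingSubgroup, c₀ (s * t) = c₀ s + ac (WAB A B) s (c₀ t)) ∧
      (∃ M : IntermediateField F Ω, FiniteDimensional F M ∧
        ∀ s ∈ L.fixingSubgroup, s ∈ M.fixingSubgroup → c₀ s = 0) ∧
      ∀ g ∈ N.fixingSubgroup, ∃ X ∈ Tor act (cj π), ∀ s ∈ L.fixingSubgroup,
        ac (WAB A B) g (c₀ (g⁻¹ * s * g)) = c₀ s + ac (WAB A B) s X - X := by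
  classical
  have hl0 : l ≠ 0 := D.hl.ne_zero
  have hfixL : ∀ s ∈ L.fixingSubgroup, ∀ x : Ω, x ∈ L → s x = x := fun s hs x hx =>
    (IntermediateField.mem_fixingSubgroup_iff L _).1 hs x hx
  have hTfix : ∀ s ∈ L.fixingSubgroup, ∀ R ∈ Tor act π, ac (WAB A B) s R = R := fun s hs => ((hL.fix s).1 hs).2
  have hun : ∀ z : (L)ˣ, ((z : L) : Ω) ≠ 0 := fun z h => z.ne_zero (by exact_mod_cast h)
  -- existence
  have hex : ∀ s ∈ L.fixingSubgroup, ∃ X ∈ Tor act (cj π), ∀ T ∈ Tor act π, s (y T) = e X T * y T := by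
    intro s hs
    obtain ⟨X, hX, h⟩ := pair_surj D he (fun T => s (y T) / y T) (by
      intro T hT
      obtain ⟨h0, z, hz⟩ := hy T hT
      rw [div_pow, ← map_pow, hz, hfixL s hs _ (SetLike.coe_mem _), ← hz]
      exact div_self (pow_ne_zero _ h0)) (by
      intro T hT T' hT'
      obtain ⟨z, hz⟩ := hy2 T hT T' hT'
      have h0 := (hy T hT).1
      have h0' := (hy T' hT').1
      have hz0 := hun z
      rw [hz, map_mul, map_mul, hfixL s hs _ (SetLike.coe_mem (z : L))]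
      field_simp)
    refine ⟨X, hX, fun T hT => ?_⟩
    rw [h T hT, div_mul_cancel₀ _ (hy T hT).1]
  let c₀ : (Ω ≃ₐ[F] Ω) → Pt (WAB A B) Ω := fun s => if h : s ∈ L.fixingSubgroup then (hex s h).choose else 0
  have hc : ∀ s ∈ L.fixingSubgroup, c₀ s ∈ Tor act (cj π) ∧ ∀ T ∈ Tor act π, s (y T) = e (c₀ s) T * y T := by
    intro s hs
    have h1 : c₀ s = (hex s hs).choose := dif_pos hs
    rw [h1]
    exact (hex s hs).choose_spec
  refine ⟨c₀, hc, fun s hs t ht => ?_, ?_, fun g hg => ?_⟩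
  · -- cocycle
    have hst : s * t ∈ L.fixingSubgroup := Subgroup.mul_mem _ hs ht
    have h1 : ac (WAB A B) s (c₀ t) ∈ Tor act (cj π) := ac_mem D.cma s (hc t ht).1
    refine cz3_uniq hl0 he (hc _ hst).1 (add_mem (hc s hs).1 h1) fun T hT => ?_
    have h2 := (hc _ hst).2 T hT
    have h3 : (s * t) (y T) = s (t (y T)) := rfl
    rw [h3, (hc t ht).2 T hT, map_mul, he.gal s _ (hc t ht).1 T hT, hTfix s hs T hT, (hc s hs).2 T hT] at h2
    rw [he.add_left _ (hc s hs).1 _ h1 T hT]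
    have h4 : e (c₀ (s * t)) T * y T = (e (c₀ s) T * e (ac (WAB A B) s (c₀ t)) T) * y T := by
      rw [← h2]
      ring
    exact mul_right_cancel₀ (hy T hT).1 h4
  · -- continuity
    have hfin : Finite (Tor act π) :=
      Nat.finite_of_card_ne_zero (by rw [(gi_gen D.cma π D.pr).1]; exact fun h => D.pr.ne_zero (H55P.Nm_eq_zero.1 h))
    have hfs : (y '' (Tor act π : Set (Pt (WAB A B) Ω))).Finite := (Set.toFinite _).image y
    have hfs' := hfs.to_subtype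
    refine ⟨IntermediateField.adjoin F (y '' (Tor act π : Set (Pt (WAB A B) Ω))), ?_, fun s hs hsN => ?_⟩
    · apply IntermediateField.finiteDimensional_adjoin
      intro x _
      exact (Algebra.IsAlgebraic.isAlgebraic (R := F) x).isIntegral
    · refine he.nondeg _ (hc s hs).1 fun T hT => ?_
      have h1 : s (y T) = y T := (IntermediateField.mem_fixingSubgroup_iff _ _).1 hsN (y T)
        (IntermediateField.subset_adjoin _ _ ⟨T, hT, rfl⟩)
      have h2 := (hc s hs).2 T hT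
      rw [h1] at h2
      exact (mul_eq_right₀ (hy T hT).1).1 h2.symm
  · -- conjugation
    have hst : ∀ x : Ω, x ∈ L → g x ∈ L := fun x hx => tb_stable D.cma hL g hg ⟨x, hx⟩
    have hgT : ∀ T ∈ Tor act π, ac (WAB A B) g T ∈ Tor act π := fun T hT => ac_mem D.cma g hT
    have hgi : ∀ T ∈ Tor act π, ac (WAB A B) g⁻¹ T ∈ Tor act π := fun T hT => ac_mem D.cma g⁻¹ hT
    have hgg : ∀ T : Pt (WAB A B) Ω, ac (WAB A B) g (ac (WAB A B) g⁻¹ T) = T := fun T => ac_inv g T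
    have hgg' : ∀ T : Pt (WAB A B) Ω, ac (WAB A B) g⁻¹ (ac (WAB A B) g T) = T := fun T => by
      rw [← ac_mul, inv_mul_cancel, ac_one]
    have hη : ∀ T ∈ Tor act π, ∃ η z : Ω, η ^ l = 1 ∧ z ∈ L ∧ z ≠ 0 ∧ g (y T) = η * y (ac (WAB A B) g T) * z := by
      intro T hT
      obtain ⟨h0, z, hz⟩ := hy T hT
      obtain ⟨h0', z', hz'⟩ := hy _ (hgT T hT)
      obtain ⟨z'', hz''⟩ := hact g hg T hT
      have e1 : ((((m T * z ^ l : (L)ˣ) : L)) : Ω) = ((m T : L) : Ω) * ((z : L) : Ω) ^ l := by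
        push_cast
        ring
      have e2 : ((((m (ac (WAB A B) g T) * z' ^ l : (L)ˣ) : L)) : Ω) =
          ((m (ac (WAB A B) g T) : L) : Ω) * ((z' : L) : Ω) ^ l := by
        push_cast
        ring
      rw [e1] at hz
      rw [e2, hz''] at hz'
      have hgz : g ((z : L) : Ω) ≠ 0 := by
        rw [Ne, map_eq_zero]
        exact hun z
      have hm0 : g ((m T : L) : Ω) ≠ 0 := by
        rw [Ne, map_eq_zero]
        exact hun _
      have h1 : g (y T) ^ l = g ((m T : L) : Ω) * g ((z : L) : Ω) ^ l := by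
        rw [← map_pow, hz, map_mul, map_pow]
      have hw := hun z'
      have hw'' := hun z''
      have hgy : g (y T) ≠ 0 := by
        rw [Ne, map_eq_zero]
        exact h0
      have hzz : g ((z : L) : Ω) / (((z'' : L) : Ω) * ((z' : L) : Ω)) ≠ 0 :=
        div_ne_zero hgz (mul_ne_zero hw'' hw)
      refine ⟨g (y T) / (y (ac (WAB A B) g T) * (g ((z : L) : Ω) / (((z'' : L) : Ω) * ((z' : L) : Ω)))),
        g ((z : L) : Ω) / (((z'' : L) : Ω) * ((z' : L) : Ω)), ?_,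
        div_mem (hst _ (SetLike.coe_mem _)) (mul_mem (SetLike.coe_mem _) (SetLike.coe_mem _)), hzz, ?_⟩
      · rw [div_pow, mul_pow, div_pow, mul_pow, h1, hz']
        have p1 := pow_ne_zero l hgz
        have p2 := pow_ne_zero l hw
        have p3 := pow_ne_zero l hw''
        field_simp
      · field_simp
    have hconj : ∀ s ∈ L.fixingSubgroup, ∀ T ∈ Tor act π,
        e (ac (WAB A B) g (c₀ (g⁻¹ * s * g))) (ac (WAB A B) g T) * g (y T) = s (g (y T)) := by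
      intro s hs T hT
      have hs' := kb2_conj D.cma hL hg hs
      have h1 := (hc _ hs').2 T hT
      have h2 : g ((g⁻¹ * s * g) (y T)) = s (g (y T)) := by
        have e1 : g * (g⁻¹ * s * g) = s * g := by group
        exact congrArg (fun t : Ω ≃ₐ[F] Ω => t (y T)) e1
      rw [← h2, h1, map_mul, he.gal g _ (hc _ hs').1 T hT]
    rcases cz3_dich (Ω := Ω) D.hl L with hA | hB
    · refine ⟨0, zero_mem _, fun s hs => ?_⟩
      have hs' := kb2_conj D.cma hL hg hs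
      rw [map_zero, add_zero, sub_zero]
      refine cz3_uniq hl0 he (ac_mem D.cma g (hc _ hs').1) (hc s hs).1 fun R hR => ?_
      have h1 := hconj s hs _ (hgi R hR)
      obtain ⟨η, z, hη1, hzL, hz0, h2⟩ := hη _ (hgi R hR)
      rw [hgg] at h1 h2
      have hgy : g (y (ac (WAB A B) g⁻¹ R)) ≠ 0 := by
        rw [Ne, map_eq_zero]
        exact (hy _ (hgi R hR)).1
      have h3 : s (g (y (ac (WAB A B) g⁻¹ R))) = e (c₀ s) R * g (y (ac (WAB A B) g⁻¹ R)) := by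
        rw [h2, map_mul, map_mul, hfixL s hs η (hA η hη1), hfixL s hs z hzL, (hc s hs).2 R hR]
        ring
      rw [h3] at h1
      exact mul_right_cancel₀ hgy h1
    · choose! η z hη1 hzL hz0 hη2 using hη
      have hη0 : ∀ T ∈ Tor act π, η T ≠ 0 := fun T hT h => by
        have := hη1 T hT
        rw [h, zero_pow hl0] at this
        exact zero_ne_one this
      have hadd : ∀ T ∈ Tor act π, ∀ T' ∈ Tor act π, η (T + T') = η T * η T' := by
        intro T hT T' hT'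
        obtain ⟨u, hu⟩ := hy2 T hT T' hT'
        obtain ⟨v, hv⟩ := hy2 _ (hgT T hT) _ (hgT T' hT')
        have h1 := hη2 _ (add_mem hT hT')
        rw [hu, map_mul, map_mul, hη2 T hT, hη2 T' hT', map_add, hv] at h1
        have a1 := (hy _ (hgT T hT)).1
        have a2 := (hy _ (hgT T' hT')).1
        have a3 := hη0 T hT
        have a4 := hη0 T' hT'
        have a5 := hz0 _ (add_mem hT hT')
        have a6 := hun v
        have h2 : η (T + T') * (((v : L) : Ω) * z (T + T')) = η T * η T' * (z T * z T' * g ((u : L) : Ω)) := by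
          have h3 : (y (ac (WAB A B) g T) * y (ac (WAB A B) g T')) * (η (T + T') * (((v : L) : Ω) * z (T + T'))) =
              (y (ac (WAB A B) g T) * y (ac (WAB A B) g T')) * (η T * η T' * (z T * z T' * g ((u : L) : Ω))) := by
            linear_combination -h1
          exact mul_left_cancel₀ (mul_ne_zero a1 a2) h3
        have h4 : η (T + T') / (η T * η T') = 1 := by
          apply hB
          · rw [div_pow, mul_pow, hη1 _ (add_mem hT hT'), hη1 T hT, hη1 T' hT', mul_one, div_one]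
          · have h5 : η (T + T') / (η T * η T') =
                (z T * z T' * g ((u : L) : Ω)) / (((v : L) : Ω) * z (T + T')) := by
              rw [div_eq_div_iff (mul_ne_zero a3 a4) (mul_ne_zero a6 a5), h2]
              ring
            rw [h5]
            exact div_mem (mul_mem (mul_mem (hzL T hT) (hzL T' hT')) (hst _ (SetLike.coe_mem _)))
              (mul_mem (SetLike.coe_mem _) (hzL _ (add_mem hT hT')))
        rw [div_eq_one_iff_eq (mul_ne_zero a3 a4)] at h4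
        exact h4
      obtain ⟨X, hX, hXe⟩ := pair_surj D he (fun R => η (ac (WAB A B) g⁻¹ R)) (fun R hR => hη1 _ (hgi R hR))
        (fun R hR R' hR' => by rw [map_add]; exact hadd _ (hgi R hR) _ (hgi R' hR'))
      refine ⟨X, hX, fun s hs => ?_⟩
      have hs' := kb2_conj D.cma hL hg hs
      rw [eq_sub_iff_add_eq]
      refine cz3_uniq hl0 he (add_mem (ac_mem D.cma g (hc _ hs').1) hX)
        (add_mem (hc s hs).1 (ac_mem D.cma s hX)) fun R hR => ?_
      rw [he.add_left _ (ac_mem D.cma g (hc _ hs').1) _ hX R hR, he.add_left _ (hc s hs).1 _ (ac_mem D.cma s hX) R hR]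
      have h1 := hconj s hs _ (hgi R hR)
      have h2 := hη2 _ (hgi R hR)
      rw [hgg] at h1 h2
      have h3 : s (η (ac (WAB A B) g⁻¹ R)) = e (ac (WAB A B) s X) R := by
        have h4 := he.gal s X hX R hR
        rw [hXe R hR, hTfix s hs R hR] at h4
        exact h4
      rw [h2, map_mul, map_mul, h3, hfixL s hs _ (hzL _ (hgi R hR)), (hc s hs).2 R hR] at h1
      rw [hXe R hR]
      have b1 := (hy R hR).1
      have b2 := hz0 _ (hgi R hR)
      have h5 : (y R * z (ac (WAB A B) g⁻¹ R)) * (e (ac (WAB A B) g (c₀ (g⁻¹ * s * g))) R * η (ac (WAB A B) g⁻¹ R)) =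
          (y R * z (ac (WAB A B) g⁻¹ R)) * (e (c₀ s) R * e (ac (WAB A B) s X) R) := by
        linear_combination h1
      exact mul_left_cancel₀ (mul_ne_zero b1 b2) h5

end H13X
end

-- from Lib.H13X.XZ5
section

/-! # H13X: port of H13Y/YZ2 -/

open NumberField IsDedekindDomain WeierstrassCurve

namespace H13X

open H55P (IQ embF eF LF Per IsHecke Pt ac Inert Dec Nm Coc)
open H35P (WAB Ker tt)
open H55K (Tor ak xc yc CMA Dta GV GMod cj cj_cj mul_cj cj_prime cj_dvd cj_nat Nm_cj Nm_mul Nm_nat)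
open H55K.S
open H13S (Abv)





variable {F : Type} [Field F] [NumberField F] [IQ F] {A B : F} {Om : ℂ} {Ω : Type} [Field Ω] [DecidableEq Ω]
  [Algebra F Ω] [IsAlgClosure F Ω] {j : Ω →+* ℂ} {act : 𝓞 F →+* AddMonoid.End (Pt (WAB A B) Ω)} {mo : Ideal (𝓞 F)}
  {ψ : Ideal (𝓞 F) →*₀ 𝓞 F}

/-- Chunk YZ2 (M), PORT of H13Z/CZ5.lean cocycle_of_m to the base field N. H13Z.ext_cocycle (CZ4) for the group G = N.fixingSubgroup and its subgroup N₁ = (pointwise stabilizer of Tor π, stab_index).subgroupOf G: normal, index = relIndex dividing Nm π - 1 (Subgroup.relIndex_dvd_index_of_normal), prime to l, not 0; s in N₁ iff s in L.fixingSubgroup (hL.fix).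
c s = 0 for s not in G. Continuity: M' = the normal closure of L ⊔ M ⊔ adjoin (coordinates of Tor (cj π)), U = M'.fixingSubgroup.subgroupOf G (contained in N₁ because N ≤ L ≤ M'). Kummer generators as in CZ5. -/
theorem cocycle_of_m {π : 𝓞 F} {l : ℕ} (D : Dat A B Om j act mo ψ π l) {e : Pt (WAB A B) Ω → Pt (WAB A B) Ω → Ω} (he : Pairing A B act π l e)
    {N L : IntermediateField F Ω} (hL : IsTB act π N L) (m : Pt (WAB A B) Ω → (L)ˣ)
    (hadd : ∀ T ∈ Tor act π, ∀ T' ∈ Tor act π, ∃ z : (L)ˣ, m (T + T') = m T * m T' * z ^ l)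
    (hact : ∀ σ ∈ N.fixingSubgroup, ∀ T ∈ Tor act π, ∃ z : (L)ˣ,
      ((m (ac (WAB A B) σ T) : L) : Ω) = σ ((m T : L) : Ω) * ((z : L) : Ω) ^ l) :
    ∃ c : (Ω ≃ₐ[F] Ω) → Pt (WAB A B) Ω, Cc act π N c ∧ ∀ T ∈ Tor act π, ∃ y : Ω, Kum L e c T y ∧
      ∃ z : (L)ˣ, y ^ l = ((m T * z ^ l : (L)ˣ) : L) := by
  classical
  obtain ⟨y, hy, hy2⟩ := y_system D L m hadd
  obtain ⟨c₀, h1, h2, ⟨N₀, hN₀, h3⟩, h4⟩ := c0_exists D he hL m hact y hy hy2
  obtain ⟨N₁, hN₁, hn₁, hd₁, h0₁⟩ := stab_index D.cma π D.pr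
  have hlN : l ∣ Nm π := CO2_Nm D.hl D.pr D.dvd
  have hN0 : Nm π ≠ 0 := fun h => D.pr.ne_zero (H55P.Nm_eq_zero.1 h)
  have hlB : ∀ P ∈ Tor act (cj π), l • P = 0 := by
    intro P hP
    obtain ⟨u, hu⟩ := D.dvd
    have h5 : (l : 𝓞 F) = cj u * cj π := by
      have h6 := congrArg cj hu
      rw [map_natCast, map_mul] at h6
      rw [h6, mul_comm]
    have h7 : act (cj π) P = 0 := hP
    rw [← act_nat (act := act), h5, act_mul, h7, map_zero]
  -- the group and its subgroup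
  have hd₂ : (N₁.subgroupOf N.fixingSubgroup).index ∣ N₁.index :=
    Subgroup.relIndex_dvd_index_of_normal N₁ N.fixingSubgroup
  have hd₃ : (N₁.subgroupOf N.fixingSubgroup).index ∣ Nm π - 1 := hd₂.trans hd₁
  have h0₂ : (N₁.subgroupOf N.fixingSubgroup).index ≠ 0 := fun h => h0₁ (by
    rw [h] at hd₂
    exact Nat.eq_zero_of_zero_dvd hd₂)
  have hcop : l.Coprime (N₁.subgroupOf N.fixingSubgroup).index := CO2_cop D.hl hlN hN0 hd₃
  have hNL : ∀ s : N.fixingSubgroup, s ∈ N₁.subgroupOf N.fixingSubgroup ↔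
      (s : Ω ≃ₐ[F] Ω) ∈ L.fixingSubgroup := fun s => by
    rw [Subgroup.mem_subgroupOf, hN₁, hL.fix]
    exact ⟨fun h => ⟨s.2, h⟩, fun h => h.2⟩
  obtain ⟨c', hcB, hcm, ⟨X, hX, hcX⟩, hcU⟩ := H13Z.ext_cocycle (G := N.fixingSubgroup)
    (fun s => ac (WAB A B) (s : Ω ≃ₐ[F] Ω))
    (fun P => ac_one P) (fun s t P => ac_mul (s : Ω ≃ₐ[F] Ω) t P) (Tor act (cj π)) (fun g P hP => ac_mem D.cma g hP)
    l hlB (N₁.subgroupOf N.fixingSubgroup) h0₂ hcop (fun s => c₀ (s : Ω ≃ₐ[F] Ω))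
    (fun s hs => (h1 s ((hNL s).1 hs)).1)
    (fun s hs t ht => h2 s ((hNL s).1 hs) t ((hNL t).1 ht))
    (fun g => by
      obtain ⟨X, hX, h5⟩ := h4 g g.2
      exact ⟨X, hX, fun s hs => h5 s ((hNL s).1 hs)⟩)
  obtain ⟨c, hc⟩ : ∃ c : (Ω ≃ₐ[F] Ω) → Pt (WAB A B) Ω, ∀ s (hs : s ∈ N.fixingSubgroup), c s = c' ⟨s, hs⟩ :=
    ⟨fun s => if h : s ∈ N.fixingSubgroup then c' ⟨s, h⟩ else 0, fun s hs => dif_pos hs⟩
  -- the field of the coordinates of the points killed by the conjugate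
  obtain ⟨-, T₀, hT₀, hgen, -⟩ := gi_gen D.cma (cj π) (cj_prime D.pr)
  have hint : ∀ x : Ω, IsIntegral F x := fun x => (Algebra.IsAlgebraic.isAlgebraic x).isIntegral
  let A₀ : Set Ω := {xc T₀, yc T₀}
  have hAf : A₀.Finite := Set.toFinite A₀
  have hAf' : Finite A₀ := hAf
  have hLf : FiniteDimensional F (IntermediateField.adjoin F A₀) :=
    IntermediateField.finiteDimensional_adjoin fun x _ => hint x
  have hfix : ∀ t ∈ (IntermediateField.adjoin F A₀).fixingSubgroup, ∀ P ∈ Tor act (cj π),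
      ac (WAB A B) t P = P := by
    intro t ht
    have hfx : ∀ x ∈ A₀, t x = x := fun x hx =>
      ht ⟨x, IntermediateField.subset_adjoin F A₀ hx⟩
    have e1 : ac (WAB A B) t T₀ = T₀ := by
      by_cases hT0 : T₀ = 0
      · rw [hT0, map_zero]
      · refine pt_ext (ac_ne t hT0) hT0 ?_ ?_
        · rw [xc_ac]
          exact hfx _ (by simp [A₀])
        · rw [yc_ac]
          exact hfx _ (by simp [A₀])
    intro P hP
    obtain ⟨a, rfl⟩ := hgen P hP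
    rw [ac_act D.cma, e1]
  have hLfin : FiniteDimensional F L := hL.fin
  let M : IntermediateField F Ω := L ⊔ N₀ ⊔ IntermediateField.adjoin F A₀
  have hMf : FiniteDimensional F M := inferInstance
  let M' : IntermediateField F Ω := IntermediateField.normalClosure F M Ω
  have hNn : Normal F M' := normalClosure.normal F M Ω
  have hNf : FiniteDimensional F M' := normalClosure.is_finiteDimensional F M Ω
  have hMN : M ≤ M' := IntermediateField.le_normalClosure M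
  have hLN : L ≤ M' := (le_sup_left.trans le_sup_left).trans hMN
  have hN₀N : N₀ ≤ M' := (le_sup_right.trans le_sup_left).trans hMN
  have hAN : IntermediateField.adjoin F A₀ ≤ M' := le_sup_right.trans hMN
  have hUn' : M'.fixingSubgroup.Normal := inferInstance
  have hUn : (M'.fixingSubgroup.subgroupOf N.fixingSubgroup).Normal := hUn'.subgroupOf _
  have hmono : ∀ {E : IntermediateField F Ω}, E ≤ M' → ∀ s ∈ M'.fixingSubgroup, s ∈ E.fixingSubgroup :=
    fun h s hs => IntermediateField.fixingSubgroup_antitone h hs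
  refine ⟨c, ⟨fun s hs t ht => ?_, ⟨M', hNf, fun s hs hs' => ?_⟩, fun s hs => ?_⟩, fun T hT => ?_⟩
  · rw [hc _ (mul_mem hs ht), hc s hs, hc t ht]
    exact hcm ⟨s, hs⟩ ⟨t, ht⟩
  · rw [hc s hs]
    refine hcU (M'.fixingSubgroup.subgroupOf N.fixingSubgroup) hUn
      (fun t ht => (hNL t).2 (hmono hLN t (Subgroup.mem_subgroupOf.1 ht)))
      (fun t ht => h3 t (hmono hLN t (Subgroup.mem_subgroupOf.1 ht))
        (hmono hN₀N t (Subgroup.mem_subgroupOf.1 ht)))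
      (fun t ht P hP => hfix t (hmono hAN t (Subgroup.mem_subgroupOf.1 ht)) P hP) ⟨s, hs⟩
      (Subgroup.mem_subgroupOf.2 hs')
  · rw [hc s hs]
    exact hcB ⟨s, hs⟩
  · obtain ⟨hy0, z, hz⟩ := hy T hT
    have hr := he.root X hX T hT
    have he0 : e X T ≠ 0 := by
      intro h
      rw [h, zero_pow D.hl.ne_zero] at hr
      exact zero_ne_one hr
    refine ⟨e X T * y T, ⟨mul_ne_zero he0 hy0, fun s hs => ?_⟩, z, ?_⟩
    · have hsN : s ∈ N.fixingSubgroup := hL.mono hs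
      have hs1 : (⟨s, hsN⟩ : N.fixingSubgroup) ∈ N₁.subgroupOf N.fixingSubgroup := (hNL ⟨s, hsN⟩).2 hs
      have hsT : ac (WAB A B) s T = T := ((hL.fix s).1 hs).2 T hT
      obtain ⟨hc0B, hc0⟩ := h1 s hs
      have h6 : c s + X = c₀ s + ac (WAB A B) s X := by
        rw [hc s hsN, hcX _ hs1]
        abel
      have hcs : c s ∈ Tor act (cj π) := by
        rw [hc s hsN]
        exact hcB _
      have h7 := he.add_left (c s) hcs X hX T hT
      have h8 := he.add_left (c₀ s) hc0B (ac (WAB A B) s X) (ac_mem D.cma s hX) T hT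
      rw [h6, h8] at h7
      rw [map_mul, he.gal s X hX T hT, hsT, hc0 T hT]
      linear_combination y T * h7
    · rw [mul_pow, hr, one_mul, hz]

end H13X
end

-- from Lib.H28I.P0
section

/-! # H28I, part P: the lattices of the two curves -/

open NumberField IsDedekindDomain WeierstrassCurve

namespace H28I

open H55P (IQ embF eF LF Per IsHecke Pt ac Inert Dec Nm)
open H35P (WAB Ker tt GoodW IntW)
open H55K (xc yc)
open H55K.TQ

/-- lam L is contained in L', and (6/lam) L' is contained in L. -/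
structure LRt (L L' : PeriodPair) (lam : ℝ) : Prop where
  ne : lam ≠ 0
  fw : ∀ z ∈ L.lattice, (lam : ℂ) * z ∈ L'.lattice
  bw : ∀ z ∈ L'.lattice, (6 : ℂ) / (lam : ℂ) * z ∈ L.lattice

theorem p0_map {W : WeierstrassCurve ℤ} :
    (algebraMap ℚ ℂ) (sA W ℚ) = -(W.c₄ : ℂ) / 48 ∧ (algebraMap ℚ ℂ) (sB W ℚ) = -(W.c₆ : ℂ) / 864 := by
  constructor
  · simp only [sA, map_div₀, map_neg, map_intCast, map_ofNat]
  · simp only [sB, map_div₀, map_neg, map_intCast, map_ofNat]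

/-- Chunk P0 (M). vi_map for ℚ → ℂ (the images of sA W ℚ.. are -c₄/48 ..); iso_L (LA4B.lean) for A = -c₄/48, B = -c₆/864 (L.g₂ = c₄/12 = -4 A): L₂ with g₂ = -4 lam^4 (-c₄'/48) = lam^4 c₄'/12, g₃ = lam^6 c₆'/216. lat_scale (Z1B.lean) with c = lam: L₃ = lam L₂, g₂ = c₄'/12, g₃ = c₆'/216: PerZ W' L₃.
L'.lattice = L₃.lattice (lat_eq, Z1A.lean). IsoL.le, IsoL.six. -/
theorem lrt_of {W W' : WeierstrassCurve ℤ} {kap : ℤ} {e t u lam : ℚ} (h : IP W W' kap e t u lam) {L : PeriodPair} (hL : PerZ W L) :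
    (∃ L' : PeriodPair, PerZ W' L') ∧ ∀ L' : PeriodPair, PerZ W' L' → LRt L L' (lam : ℝ) := by
  have hlam : (lam : ℂ) ≠ 0 := by exact_mod_cast h.lam0
  have hv := vi_map (algebraMap ℚ ℂ) h.vi
  rw [map_mul, map_mul, map_pow, map_pow, p0_map.1, p0_map.2, p0_map.1, p0_map.2] at hv
  have hla : (algebraMap ℚ ℂ) lam = (lam : ℂ) := by simp
  rw [hla] at hv
  obtain ⟨L₂, hL₂⟩ := iso_L L hv (by rw [hL.g2]; ring) (by rw [hL.g3]; ring)
  obtain ⟨L₃, hm, h2, h3⟩ := H55K.lat_scale L₂ (lam : ℂ) hlam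
  have hP : PerZ W' L₃ := by
    constructor
    · rw [h2, hL₂.g2]
      field_simp
      ring
    · rw [h3, hL₂.g3]
      field_simp
      ring
  refine ⟨⟨L₃, hP⟩, ?_⟩
  intro L' hL'
  have he : L'.lattice = L₃.lattice := H55K.lat_eq L' L₃ (hL'.g2.trans hP.g2.symm) (hL'.g3.trans hP.g3.symm)
  have hc : (((lam : ℚ) : ℝ) : ℂ) = (lam : ℂ) := by norm_cast
  refine ⟨by exact_mod_cast h.lam0, ?_, ?_⟩
  · intro z hz
    rw [he, hm, hc]
    exact ⟨z, hL₂.le z hz, rfl⟩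
  · intro z hz
    rw [he, hm] at hz
    obtain ⟨l, hl, rfl⟩ := hz
    rw [hc]
    have e6 : (6 : ℂ) / (lam : ℂ) * ((lam : ℂ) * l) = 6 * l := by
      field_simp
    rw [e6]
    exact hL₂.six l hl

end H28I
end

-- from Lib.H28I.P2
section

/-! # H28I, part P: the real period -/

open NumberField IsDedekindDomain WeierstrassCurve

namespace H28I

open H55P (IQ embF eF LF Per IsHecke Pt ac Inert Dec Nm)
open H35P (WAB Ker tt GoodW IntW)
open H55K (xc yc)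
open H55K.TQ

/-- Chunk P2 (S/M). omr_mem (QP2B.lean): m = Omr L > 0 is in the lattice and minimal. n = the integral part of x/m: x - n m is in the lattice, 0 ≤ x - n m < m, so it is 0. -/
theorem omr_mul {W : WeierstrassCurve ℤ} {L : PeriodPair} (hL : PerZ W L) {x : ℝ} (hx : 0 < x) (h : (x : ℂ) ∈ L.lattice) :
    ∃ n : ℕ, x = n * H55D.Omr L := by
  obtain ⟨hm, hml, hmin⟩ := omr_mem hL
  generalize H55D.Omr L = m at *
  refine ⟨⌊x / m⌋₊, ?_⟩
  have h1 : (⌊x / m⌋₊ : ℝ) ≤ x / m := Nat.floor_le (by positivity)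
  have h2 : x / m < ⌊x / m⌋₊ + 1 := Nat.lt_floor_add_one _
  rw [le_div_iff₀ hm] at h1
  rw [div_lt_iff₀ hm] at h2
  by_contra hne
  have h3 : 0 < x - ⌊x / m⌋₊ * m := by
    rcases h1.lt_or_eq with h | h
    · linarith
    · exact absurd h.symm hne
  have h4 : ((x - ⌊x / m⌋₊ * m : ℝ) : ℂ) ∈ L.lattice := by
    push_cast
    refine sub_mem h ?_
    rw [← nsmul_eq_mul]
    exact nsmul_mem hml _
  have h5 := hmin _ h3 h4
  linarith

/-- Chunk P2 (S/M). |lam| Omr L is ± lam Omr L, so it is in L': k Omr L' (omr_mul); (6/|lam|) Omr L' is in L: k' Omr L; k k' = 6. -/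
theorem omr_ratio {W W' : WeierstrassCurve ℤ} {L L' : PeriodPair} (hL : PerZ W L) (hL' : PerZ W' L') {lam : ℝ} (h : LRt L L' lam) :
    ∃ k : ℕ, k ∣ 6 ∧ |lam| * H55D.Omr L = k * H55D.Omr L' := by
  obtain ⟨hm, hml, -⟩ := omr_mem hL
  obtain ⟨hm', hml', -⟩ := omr_mem hL'
  have hl := h.ne
  have hlp : 0 < |lam| := abs_pos.2 hl
  have h1 : ((|lam| * H55D.Omr L : ℝ) : ℂ) ∈ L'.lattice := by
    have h2 := h.fw _ hml
    rcases abs_choice lam with h3 | h3
    · rw [h3]; push_cast; exact h2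
    · rw [h3]; push_cast
      rw [neg_mul]
      exact neg_mem h2
  have h1' : ((6 / |lam| * H55D.Omr L' : ℝ) : ℂ) ∈ L.lattice := by
    have h2 := h.bw _ hml'
    rcases abs_choice lam with h3 | h3
    · rw [h3]; push_cast; exact h2
    · rw [h3]; push_cast
      rw [div_neg, neg_mul]
      exact neg_mem h2
  obtain ⟨k, hk⟩ := omr_mul hL' (by positivity) h1
  obtain ⟨k', hk'⟩ := omr_mul hL (by positivity) h1'
  refine ⟨k, ⟨k', ?_⟩, hk⟩
  generalize H55D.Omr L = m at *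
  generalize H55D.Omr L' = m' at *
  have h4 : ((6 : ℕ) : ℝ) * m = ((k * k' : ℕ) : ℝ) * m := by
    push_cast
    calc (6 : ℝ) * m = 6 / |lam| * (|lam| * m) := by field_simp
      _ = 6 / |lam| * (k * m') := by rw [hk]
      _ = k * (6 / |lam| * m') := by ring
      _ = k * (k' * m) := by rw [hk']
      _ = _ := by ring
  exact_mod_cast mul_right_cancel₀ hm.ne' h4

end H28I
end

-- from Lib.H28I.P1
section

/-! # H28I, part P: the area -/

open NumberField IsDedekindDomain WeierstrassCurve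

namespace H28I

open H55P (IQ embF eF LF Per IsHecke Pt ac Inert Dec Nm)
open H35P (WAB Ker tt GoodW IntW)
open H55K (xc yc)
open H55K.TQ

theorem p1_ne (L : PeriodPair) : L.ω₁.re * L.ω₂.im - L.ω₁.im * L.ω₂.re ≠ 0 := by
  intro h2
  have h1 := L.indep
  rw [LinearIndependent.pair_iff] at h1
  have hne1 : L.ω₁ ≠ 0 := by
    intro h3
    have h4 := h1 1 0 (by rw [h3]; simp)
    exact one_ne_zero h4.1
  have h6 := h1 (-L.ω₂.im) L.ω₁.im (by
    apply Complex.ext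
    · simp only [Complex.add_re, Complex.real_smul, Complex.mul_re, Complex.ofReal_re, Complex.ofReal_im, Complex.zero_re]
      linear_combination -h2
    · simp only [Complex.add_im, Complex.real_smul, Complex.mul_im, Complex.ofReal_re, Complex.ofReal_im, Complex.zero_im]
      ring)
  have h7 := h1 (-L.ω₂.re) L.ω₁.re (by
    apply Complex.ext
    · simp only [Complex.add_re, Complex.real_smul, Complex.mul_re, Complex.ofReal_re, Complex.ofReal_im, Complex.zero_re]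
      ring
    · simp only [Complex.add_im, Complex.real_smul, Complex.mul_im, Complex.ofReal_re, Complex.ofReal_im, Complex.zero_im]
      linear_combination h2)
  exact hne1 (Complex.ext h7.2 h6.2)

/-- if `c ω₁, c ω₂` lie in L'.lattice then `‖c‖² X(ω) = d X(ω')` -/
theorem p1_half {L L' : PeriodPair} {c : ℂ} (h : ∀ z ∈ L.lattice, c * z ∈ L'.lattice) :
    ∃ d : ℤ, ‖c‖ ^ 2 * (L.ω₁.re * L.ω₂.im - L.ω₁.im * L.ω₂.re) = d * (L'.ω₁.re * L'.ω₂.im - L'.ω₁.im * L'.ω₂.re) := by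
  obtain ⟨m, n, hmn⟩ := PeriodPair.mem_lattice.1 (h _ L.ω₁_mem_lattice)
  obtain ⟨m', n', hmn'⟩ := PeriodPair.mem_lattice.1 (h _ L.ω₂_mem_lattice)
  refine ⟨m * n' - n * m', ?_⟩
  rw [← qp2a_mul, ← hmn, ← hmn', qp2a_cross]

/-- Chunk P1 (M). lam ω₁, lam ω₂ are integral combinations of ω₁', ω₂' with determinant d, (6/lam) ω₁', (6/lam) ω₂' of ω₁, ω₂ with determinant d' (PeriodPair.mem_lattice). Cross product X(a, b) = re a im b - im a re b (qp2a_cross, qp2a_mul in QP2A.lean): lam^2 X(ω) = d X(ω'), (36/lam^2) X(ω') = d' X(ω), X(ω) ≠ 0 (L.indep; see qp1b_indep):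
d d' = 36, n = |d|. H55C.Om L = 2 |X(ω)|. -/
theorem om_ratio {L L' : PeriodPair} {lam : ℝ} (h : LRt L L' lam) : ∃ n : ℕ, n ∣ 36 ∧ H55C.Om L * lam ^ 2 = n * H55C.Om L' := by
  obtain ⟨d, hd⟩ := p1_half h.fw
  obtain ⟨d', hd'⟩ := p1_half h.bw
  have hX := p1_ne L
  have e1 : ‖(lam : ℂ)‖ ^ 2 = lam ^ 2 := by
    rw [Complex.norm_real, Real.norm_eq_abs, sq_abs]
  have e2 : ‖(6 : ℂ) / (lam : ℂ)‖ ^ 2 = 36 / lam ^ 2 := by
    rw [norm_div, div_pow, e1]
    norm_num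
  rw [e1] at hd
  rw [e2] at hd'
  unfold H55C.Om
  generalize L.ω₁.re * L.ω₂.im - L.ω₁.im * L.ω₂.re = X at *
  generalize L'.ω₁.re * L'.ω₂.im - L'.ω₁.im * L'.ω₂.re = Y at *
  have hl := h.ne
  have h1 : (d * d' : ℤ) = 36 := by
    have h2 : ((d * d' : ℤ) : ℝ) * X = 36 * X := by
      push_cast
      calc (d : ℝ) * d' * X = d * (d' * X) := by ring
        _ = d * (36 / lam ^ 2 * Y) := by rw [← hd']
        _ = 36 / lam ^ 2 * (d * Y) := by ring
        _ = 36 / lam ^ 2 * (lam ^ 2 * X) := by rw [← hd]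
        _ = 36 * X := by field_simp
    have h3 := mul_right_cancel₀ hX h2
    exact_mod_cast h3
  refine ⟨d.natAbs, ?_, ?_⟩
  · have h2 : d.natAbs * d'.natAbs = 36 := by
      rw [← Int.natAbs_mul, h1]; rfl
    exact ⟨_, h2.symm⟩
  · have h2 : ((d.natAbs : ℕ) : ℝ) = |(d : ℝ)| := by
      rw [Nat.cast_natAbs, Int.cast_abs]
    rw [h2]
    calc 2 * |X| * lam ^ 2 = 2 * |lam ^ 2 * X| := by rw [abs_mul, abs_of_nonneg (sq_nonneg lam)]; ring
      _ = 2 * |(d : ℝ) * Y| := by rw [hd]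
      _ = |(d : ℝ)| * (2 * |Y|) := by rw [abs_mul]; ring

end H28I
end

-- from Lib.H28I.P3
section

/-! # H28I, part P: the algebraic parts of the L-values -/

open NumberField IsDedekindDomain WeierstrassCurve

namespace H28I

open H55P (IQ embF eF LF Per IsHecke Pt ac Inert Dec Nm)
open H35P (WAB Ker tt GoodW IntW)
open H55K (xc yc)
open H55K.TQ

theorem p3_not_dvd {p : ℕ} (hp : p.Prime) (h5 : 5 ≤ p) {m : ℤ} {n : ℕ} (h : m ∣ 6 ^ n) : ¬ (p : ℤ) ∣ m := by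
  intro hpm
  have h1 : (p : ℤ) ∣ 6 ^ n := hpm.trans h
  have h2 : (p : ℤ) ∣ 6 := (Nat.prime_iff_prime_int.mp hp).dvd_of_dvd_pow h1
  have h3 : p ∣ 6 := by exact_mod_cast h2
  have h4 : p ≤ 6 := Nat.le_of_dvd (by norm_num) h3
  interval_cases p
  · omega
  · exact absurd hp (by decide)

theorem p3_val_nat {p : ℕ} (hp : p.Prime) (h5 : 5 ≤ p) (V : ValuationSubring ℂ) (hV : V.valuation (p : ℂ) < 1) {k n : ℕ} (h : k ∣ 6 ^ n) :
    V.valuation (k : ℂ) = 1 := by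
  have h1 := fc1_one hp V hV (k : ℤ) (p3_not_dvd hp h5 (m := (k : ℤ)) (n := n) (by exact_mod_cast h))
  exact_mod_cast h1

/-- Chunk P3 (S/M). V(n) = 1 for integers n not divisible by p (fc1_one in H55K/FC1.lean or H55P.val_nat). quo, cast to ℂ: V(lam)^12 = 1: kap divides 6^n, so p does not divide kap. -/
theorem vlam_C {W W' : WeierstrassCurve ℤ} {kap : ℤ} {e t u lam : ℚ} (h : IP W W' kap e t u lam) {p : ℕ} (hp : p.Prime) (h5 : 5 ≤ p)
    (hΔ : ¬ (p : ℤ) ∣ W.Δ) (hΔ' : ¬ (p : ℤ) ∣ W'.Δ) (V : ValuationSubring ℂ) (hV : V.valuation (p : ℂ) < 1) :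
    V.valuation (lam : ℂ) = 1 := by
  obtain ⟨n, hn⟩ := h.k6
  have h1 := fc1_one hp V hV kap (p3_not_dvd hp h5 hn)
  have h2 := fc1_one hp V hV W.Δ hΔ
  have h3 := fc1_one hp V hV W'.Δ hΔ'
  have h4 : (lam : ℂ) ^ 12 * ((W'.Δ : ℤ) : ℂ) = (kap : ℂ) * ((W.Δ : ℤ) : ℂ) := by
    have h5 := congrArg (fun x : ℚ => (x : ℂ)) h.quo
    push_cast at h5
    exact h5
  have h6 := congrArg V.valuation h4
  rw [map_mul, map_mul, map_pow, h1, h2, h3, mul_one, mul_one] at h6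
  exact (pow_eq_one_iff.1 h6).resolve_right (by norm_num)

/-- Chunk P3 (M). lrt_of, om_ratio, omr_ratio; V(lam) = 1, V(n) = V(k) = 1 (n divides 36, k divides 6), V(2) = 1 for the factor in OmP. -/
theorem per_val {W W' : WeierstrassCurve ℤ} {kap : ℤ} {e t u lam : ℚ} (h : IP W W' kap e t u lam) {p : ℕ} (hp : p.Prime) (h5 : 5 ≤ p)
    (hΔ : ¬ (p : ℤ) ∣ W.Δ) (hΔ' : ¬ (p : ℤ) ∣ W'.Δ) {L L' : PeriodPair} (hL : PerZ W L) (hL' : PerZ W' L') (V : ValuationSubring ℂ)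
    (hV : V.valuation (p : ℂ) < 1) : V.valuation (OmP W' L' : ℂ) = V.valuation (OmP W L : ℂ) ∧
      V.valuation (H55C.Om L' : ℂ) = V.valuation (H55C.Om L : ℂ) := by
  have hl := vlam_C h hp h5 hΔ hΔ' V hV
  have hr : LRt L L' (lam : ℝ) := (lrt_of h hL).2 L' hL'
  have hlC : V.valuation (((lam : ℝ) : ℂ)) = 1 := by
    have e : (((lam : ℝ) : ℂ)) = (lam : ℂ) := by push_cast; rfl
    rw [e]
    exact hl
  obtain ⟨n, hn, en⟩ := om_ratio hr
  obtain ⟨k, hk, ek⟩ := omr_ratio hL hL' hr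
  have vn : V.valuation (n : ℂ) = 1 := p3_val_nat hp h5 V hV (n := 2) (by norm_num; exact hn)
  have vk : V.valuation (k : ℂ) = 1 := p3_val_nat hp h5 V hV (n := 1) (by norm_num; exact hk)
  have v2 : V.valuation (2 : ℂ) = 1 := by
    have h2 := p3_val_nat hp h5 V hV (k := 2) (n := 1) (by norm_num)
    exact_mod_cast h2
  have habs : V.valuation (((|(lam : ℝ)| : ℝ) : ℂ)) = 1 := by
    rcases abs_choice (lam : ℝ) with e | e
    · rw [e]
      exact hlC
    · rw [e, Complex.ofReal_neg, Valuation.map_neg]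
      exact hlC
  have r1 : V.valuation ((H55D.Omr L : ℝ) : ℂ) = V.valuation ((H55D.Omr L' : ℝ) : ℂ) := by
    have e1 := congrArg (fun x : ℝ => V.valuation (x : ℂ)) ek
    simp only [Complex.ofReal_mul, Complex.ofReal_natCast, map_mul, habs, vk, one_mul] at e1
    exact e1
  have r2 : V.valuation ((H55C.Om L : ℝ) : ℂ) = V.valuation ((H55C.Om L' : ℝ) : ℂ) := by
    have e1 := congrArg (fun x : ℝ => V.valuation (x : ℂ)) en
    simp only [Complex.ofReal_mul, Complex.ofReal_pow, Complex.ofReal_natCast, map_mul, map_pow, hlC, vn, one_mul, one_pow, mul_one] at e1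
    exact e1
  have key : ∀ (X : WeierstrassCurve ℤ) (M : PeriodPair), V.valuation ((OmP X M : ℝ) : ℂ) = V.valuation ((H55D.Omr M : ℝ) : ℂ) := by
    intro X M
    unfold OmP
    split_ifs
    · rw [Complex.ofReal_mul, map_mul, Complex.ofReal_ofNat, v2, one_mul]
    · rw [one_mul]
  exact ⟨by rw [key, key, r1], r2.symm⟩

/-- Chunk P3 (S/M). Definition of lG; per_val; prod_W (QS1.lean) for W and W'. -/
theorem lG_same {W W' : WeierstrassCurve ℤ} {kap : ℤ} {e t u lam : ℚ} (h : IP W W' kap e t u lam) {p : ℕ} (hp : p.Prime) (h5 : 5 ≤ p)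
    (hΔ : ¬ (p : ℤ) ∣ W.Δ) (hΔ' : ¬ (p : ℤ) ∣ W'.Δ) (hj : ∃ j₀ : ℤ, W.c₄ ^ 3 = j₀ * W.Δ) (hj' : ∃ j₀ : ℤ, W'.c₄ ^ 3 = j₀ * W'.Δ)
    (K : Type) [Field K] [NumberField K] {L L' : PeriodPair} (hL : PerZ W L) (hL' : PerZ W' L') (x : ℂ) (V : ValuationSubring ℂ)
    (hV : V.valuation (p : ℂ) < 1) : V.valuation (lG K W' L' x) = V.valuation (lG K W L x) := by
  obtain ⟨e1, e2⟩ := per_val h hp h5 hΔ hΔ' hL hL' V hV
  have u1 := prod_W (W := W) K hp h5 hΔ hj V hV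
  have u2 := prod_W (W := W') K hp h5 hΔ' hj' V hV
  unfold lG
  simp only [map_div₀, map_mul, map_pow] at u1 u2 ⊢
  rw [e1, e2, u1, u2]

end H28I
end

-- from Lib.H55G.J0
section

/-! # H55G, part J: the isogeny with its y-coordinate -/

open NumberField IsDedekindDomain WeierstrassCurve

namespace H55G

open H55P (IQ embF eF LF Per IsHecke Pt ac Inert Dec Nm)
open H35P (WAB Ker tt GoodW IntW)
open H55K (xc yc acr xc_acr yc_acr acr_zero_iff acr_inj acr_eq_ac acr_trans)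
open H28I
open H55K.MG (VC Crd)

variable {K : Type} [Field K] {Ω : Type} [Field Ω] [DecidableEq Ω] [Algebra K Ω]

/-- The isogeny with its y-coordinate. -/
structure IsY (A B A'' B'' e t u lam : K) (Φ : Pt (WAB A B) Ω →+ Pt (WAB A'' B'') Ω) : Prop where
  w : IsW A B A'' B'' e t u lam Φ
  y : ∀ P, P ≠ 0 → xc P ≠ algebraMap K Ω e →
    algebraMap K Ω lam ^ 3 * yc (Φ P) = vd (algebraMap K Ω e) (algebraMap K Ω t) (algebraMap K Ω u) (xc P) * yc P

/-- Chunk J0a (S). The proof of H28I.exists_W (Lib/H28I/V6.lean), where hy is the additional claim. -/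
theorem exists_Y [CharZero Ω] [IsAlgClosed Ω] (j : Ω →+* ℂ) (L : PeriodPair) {A B A'' B'' e t u lam : K} (hl : lam ≠ 0)
    (h : VI A B (lam ^ 4 * A'') (lam ^ 6 * B'') e t u) (g2 : L.g₂ = -4 * j (algebraMap K Ω A))
    (g3 : L.g₃ = -4 * j (algebraMap K Ω B)) : ∃ Φ : Pt (WAB A B) Ω →+ Pt (WAB A'' B'') Ω, IsY A B A'' B'' e t u lam Φ := by
  classical
  set a : K →+* Ω := algebraMap K Ω with ha
  have hv := vi_map a h
  have hla : a lam ≠ 0 := (map_ne_zero a).2 hl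
  have hE : (WAB A B)⁄Ω = WAB (a A) (a B) := by
    ext
    · exact map_zero a
    · exact map_zero a
    · exact map_zero a
    · rfl
    · rfl
  obtain ⟨Φ₀, h₀⟩ := exists_h j hv L g2 g3 ((WAB A B)⁄Ω) (WAB (a (lam ^ 4 * A'')) (a (lam ^ 6 * B''))) hE rfl
  -- the scaling
  have hVC : VC (WAB (a (lam ^ 4 * A'')) (a (lam ^ 6 * B''))) ((WAB A'' B'')⁄Ω) (a lam) 0 0 0 := by
    refine ⟨hla, ?_, ?_, ?_, ?_, ?_⟩
    · show a lam * a 0 = 0 + 2 * 0
      rw [map_zero]; ring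
    · show a lam ^ 2 * a 0 = 0 - 0 * 0 + 3 * 0 - 0 ^ 2
      rw [map_zero]; ring
    · show a lam ^ 3 * a 0 = 0 + 0 * 0 + 2 * 0
      rw [map_zero]; ring
    · show a lam ^ 4 * a A'' = a (lam ^ 4 * A'') - 0 * 0 + 2 * 0 * 0 - (0 + 0 * 0) * 0 + 3 * 0 ^ 2 - 2 * 0 * 0
      rw [map_mul, map_pow]; ring
    · show a lam ^ 6 * a B'' = a (lam ^ 6 * B'') + 0 * a (lam ^ 4 * A'') + 0 ^ 2 * 0 + 0 ^ 3 - 0 * 0 - 0 ^ 2 - 0 * 0 * 0
      rw [map_mul, map_pow]; ring
  have hd1 : (WAB (a (lam ^ 4 * A'')) (a (lam ^ 6 * B''))).Δ ≠ 0 := by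
    rw [v6_delta]
    exact mul_ne_zero (by norm_num) hv.disc'
  have hd2 : ((WAB A'' B'')⁄Ω).Δ ≠ 0 := by
    have e1 : ((WAB A'' B'')⁄Ω).Δ = a (WAB A'' B'').Δ := (WAB A'' B'').map_Δ _
    rw [e1]
    refine (map_ne_zero a).2 ?_
    rw [v6_delta]
    have h16 : (-16 : K) ≠ 0 := by
      intro h0
      have h1 := congrArg a h0
      rw [map_neg, map_ofNat, map_zero] at h1
      norm_num at h1
    refine mul_ne_zero h16 fun h0 => h.disc' ?_
    linear_combination lam ^ 12 * h0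
  obtain ⟨Θ, hΘ⟩ := H55K.MG.vc_iso hVC hd1 hd2
  set Φ : Pt (WAB A B) Ω →+ Pt (WAB A'' B'') Ω := Θ.toAddMonoidHom.comp Φ₀ with hΦ
  have hΦ1 : ∀ P, Φ P = Θ (Φ₀ P) := fun P => rfl
  have hne : ∀ P, P ≠ 0 → xc P ≠ a e → Φ P ≠ 0 := by
    intro P hP hx
    rw [hΦ1]
    exact (hΘ _ (h₀.ne P hP hx)).1
  have hx : ∀ P, P ≠ 0 → xc P ≠ a e → a lam ^ 2 * xc (Φ P) = vx (a e) (a t) (a u) (xc P) := by
    intro P hP hx
    rw [hΦ1, ← h₀.x P hP hx, (hΘ _ (h₀.ne P hP hx)).2.1, add_zero]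
  have hy : ∀ P, P ≠ 0 → xc P ≠ a e → a lam ^ 3 * yc (Φ P) = vd (a e) (a t) (a u) (xc P) * yc P := by
    intro P hP hx
    rw [hΦ1, ← h₀.y P hP hx, (hΘ _ (h₀.ne P hP hx)).2.2]
    ring
  have hker : ∀ P, P ≠ 0 → xc P = a e → Φ P = 0 := by
    intro P hP hx
    rw [hΦ1, h₀.ker P hP hx, map_zero]
  refine ⟨Φ, ⟨hker, hne, hx, ?_, ?_, ?_⟩, hy⟩
  · intro Q
    obtain ⟨P, hP⟩ := h₀.surj (Θ.symm Q)
    refine ⟨P, ?_⟩
    rw [hΦ1, hP, AddEquiv.apply_symm_apply]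
  · intro P hP
    apply h₀.six
    rw [hΦ1] at hP
    exact (map_eq_zero_iff Θ Θ.injective).1 hP
  · intro s P
    by_cases hP : P = 0
    · rw [hP, map_zero, map_zero, map_zero]
    · have hsP := H55K.CC.c27_ne (WAB A B) s hP
      have hsx := H55K.CC.c27_xc (WAB A B) s P
      have hsy := H55K.CC.c27_yc (WAB A B) s P
      by_cases hxe : xc P = a e
      · rw [hker P hP hxe, map_zero]
        apply hker _ hsP
        rw [hsx, hxe]
        exact s.commutes e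
      · have hxe' : xc (ac (WAB A B) s P) ≠ a e := by
          rw [hsx]
          intro h0
          apply hxe
          apply s.injective
          rw [h0]
          exact (s.commutes e).symm
        have b1 := hx P hP hxe
        have b2 := hx _ hsP hxe'
        have b3 := hy P hP hxe
        have b4 := hy _ hsP hxe'
        have c1 := congrArg s b1
        have c2 := congrArg s b3
        have sc : ∀ z : K, s (a z) = a z := fun z => s.commutes z
        have hlz : s (a lam) = a lam := sc lam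
        refine H55K.CC.c14_ext (hne _ hsP hxe') (H55K.CC.c27_ne (WAB A'' B'') s (hne P hP hxe)) ?_ ?_
        · rw [H55K.CC.c27_xc]
          apply mul_left_cancel₀ (pow_ne_zero 2 hla)
          rw [b2, hsx]
          rw [map_mul, map_pow, hlz] at c1
          rw [c1]
          unfold vx
          simp only [map_add, map_div₀, map_sub, map_pow, sc]
        · rw [H55K.CC.c27_yc]
          apply mul_left_cancel₀ (pow_ne_zero 3 hla)
          rw [b4, hsx, hsy]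
          rw [map_mul, map_pow, hlz] at c2
          rw [c2]
          unfold vd
          simp only [map_mul, map_div₀, map_sub, map_pow, map_one, map_ofNat, sc]

/-- Chunk J0a (S). As the last part (gal) of the proof of H28I.exists_W, for a ring automorphism: xc_acr, yc_acr, acr_zero_iff (Lib/H55K/CG.lean) in place of c27_xc, c27_yc, c27_ne; H55K.CC.c14_ext. -/
theorem isy_acr {A B A'' B'' e t u lam : K} {Φ : Pt (WAB A B) Ω →+ Pt (WAB A'' B'') Ω} (hΦ : IsY A B A'' B'' e t u lam Φ)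
    (hl : lam ≠ 0) (g : Ω ≃+* Ω) (he : g (algebraMap K Ω e) = algebraMap K Ω e) (ht : g (algebraMap K Ω t) = algebraMap K Ω t)
    (hu : g (algebraMap K Ω u) = algebraMap K Ω u) (hlam : g (algebraMap K Ω lam) = algebraMap K Ω lam)
    (hA : g (algebraMap K Ω A) = algebraMap K Ω A) (hB : g (algebraMap K Ω B) = algebraMap K Ω B)
    (hA' : g (algebraMap K Ω A'') = algebraMap K Ω A'') (hB' : g (algebraMap K Ω B'') = algebraMap K Ω B'')
    (P : Pt (WAB A B) Ω) : Φ (acr g hA hB P) = acr g hA' hB' (Φ P) := by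
  have hla : algebraMap K Ω lam ≠ 0 := (map_ne_zero _).2 hl
  by_cases hP : P = 0
  · rw [hP, map_zero, map_zero, map_zero]
  · have hsP : acr g hA hB P ≠ 0 := fun h0 => hP ((acr_zero_iff g hA hB P).1 h0)
    have hsx := xc_acr g hA hB P
    have hsy := yc_acr g hA hB P
    by_cases hxe : xc P = algebraMap K Ω e
    · rw [hΦ.w.ker P hP hxe, map_zero]
      apply hΦ.w.ker _ hsP
      rw [hsx, hxe]
      exact he
    · have hxe' : xc (acr g hA hB P) ≠ algebraMap K Ω e := by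
        rw [hsx]
        intro h0
        apply hxe
        apply g.injective
        rw [h0]
        exact he.symm
      have b1 := hΦ.w.x P hP hxe
      have b2 := hΦ.w.x _ hsP hxe'
      have b3 := hΦ.y P hP hxe
      have b4 := hΦ.y _ hsP hxe'
      have c1 := congrArg g b1
      have c2 := congrArg g b3
      have hne2 : acr g hA' hB' (Φ P) ≠ 0 := fun h0 => hΦ.w.ne P hP hxe ((acr_zero_iff g hA' hB' _).1 h0)
      refine H55K.CC.c14_ext (hΦ.w.ne _ hsP hxe') hne2 ?_ ?_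
      · rw [xc_acr]
        apply mul_left_cancel₀ (pow_ne_zero 2 hla)
        rw [b2, hsx]
        rw [map_mul, map_pow, hlam] at c1
        rw [c1]
        unfold vx
        simp only [map_add, map_div₀, map_sub, map_pow, he, ht, hu]
      · rw [yc_acr]
        apply mul_left_cancel₀ (pow_ne_zero 3 hla)
        rw [b4, hsx, hsy]
        rw [map_mul, map_pow, hlam] at c2
        rw [c2]
        unfold vd
        simp only [map_mul, map_div₀, map_sub, map_pow, map_one, map_ofNat, he, ht, hu]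

end H55G
end

-- from Lib.H55G.J1a
section

/-! # H55G, part J: the identity e2 for the isogeny -/

open NumberField IsDedekindDomain WeierstrassCurve

namespace H55G

open H55P (IQ embF eF LF Per IsHecke Pt ac Inert Dec Nm)
open H35P (WAB Ker tt GoodW IntW)
open H55K (xc yc)
open H28I

/-- Chunk J1a (S). vx x - vx w = (x - w)(1 - t/((x - e)(w - e)) - u ((x - e) + (w - e))/((x - e)^2 (w - e)^2)), u = 0. The right side: the point (e, 0): X = ((y - 0)/(x - e))^2 - x - e, y^2 = x^3 + A x + B, B = - e^3 - A e. So X = e + t/(x - e). field_simp, linear_combination. -/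
theorem j1_two {k : Type} [Field k] {A B e t x y w X : k} (hx : x ≠ e) (hw : w ≠ e) (he : e ^ 3 + A * e + B = 0)
    (ht : t = 3 * e ^ 2 + A) (hy : y ^ 2 = x ^ 3 + A * x + B) (hX : X = (y / (x - e)) ^ 2 - x - e) :
    (vx e t 0 x - vx e t 0 w) * (e - w) = (x - w) * (X - w) := by
  have hz : x - e ≠ 0 := sub_ne_zero.mpr hx
  have hv : w - e ≠ 0 := sub_ne_zero.mpr hw
  have h1 : X = e + t / (x - e) := by
    rw [hX, div_pow, hy, ht]
    field_simp
    linear_combination he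
  rw [h1]
  unfold vx
  field_simp
  ring

/-- Chunk J1a (M). f = y₀^2 = e^3 + A e + B, z = x - e. X₁, X₂ are the x-coordinates of P ± (e, y₀). With a = (y - y₀)/z, b = (y + y₀)/z: a b = (x^2 + x e + e^2 + A)/z (since y^2 - y₀^2 = z (x^2 + x e + e^2 + A)), a^2 + b^2 = 2 (y^2 + f)/z^2, X₁ - w = a^2 - (x + e + w), X₂ - w = b^2 - (x + e + w). So z^2 (X₁ - w)(X₂ - w) = (x^2 + x e + e^2 + A)^2 - 2 (x + e + w)(x^3 + A x + B + f) + (x + e + w)^2 z^2 =: R.
The left side is (x - w) times: (w - e)^2 - t (w - e)/z - u (z + (w - e))/z^2; times z^2: L = (w - e)^2 z^2 - t (w - e) z - u (z + w - e). With t = 2 (3 e^2 + A), u = 4 f: R - L = -(3 e^4 + 6 A e^2 + 12 B e - A^2) = 0 (checked by computer): linear_combination. -/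
theorem j1_three {k : Type} [Field k] {A B e t u x y y₀ w X₁ X₂ : k} (hx : x ≠ e) (hw : w ≠ e) (hy₀ : y₀ ^ 2 = e ^ 3 + A * e + B)
    (ht : t = 2 * (3 * e ^ 2 + A)) (hu : u = 4 * (e ^ 3 + A * e + B)) (h3 : 3 * e ^ 4 + 6 * A * e ^ 2 + 12 * B * e - A ^ 2 = 0)
    (hy : y ^ 2 = x ^ 3 + A * x + B) (hX₁ : X₁ = ((y - y₀) / (x - e)) ^ 2 - x - e) (hX₂ : X₂ = ((y + y₀) / (x - e)) ^ 2 - x - e) :
    (vx e t u x - vx e t u w) * ((e - w) * (e - w)) = (x - w) * ((X₁ - w) * (X₂ - w)) := by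
  have hz : x - e ≠ 0 := sub_ne_zero.mpr hx
  have hv : w - e ≠ 0 := sub_ne_zero.mpr hw
  have hL : (vx e t u x - vx e t u w) * ((e - w) * (e - w)) * (x - e) ^ 2 =
      (x - w) * ((w - e) ^ 2 * (x - e) ^ 2 - t * (w - e) * (x - e) - u * ((x - e) + (w - e))) := by
    unfold vx
    field_simp
    ring
  have hq : y ^ 2 - y₀ ^ 2 = (x - e) * (x ^ 2 + x * e + e ^ 2 + A) := by
    rw [hy, hy₀]
    ring
  have hR0 : (X₁ - w) * (X₂ - w) * (x - e) ^ 2 = ((y ^ 2 - y₀ ^ 2) / (x - e)) ^ 2 -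
      2 * (x + e + w) * (y ^ 2 + y₀ ^ 2) + (x + e + w) ^ 2 * (x - e) ^ 2 := by
    rw [hX₁, hX₂]
    field_simp
    ring
  have hR : (X₁ - w) * (X₂ - w) * (x - e) ^ 2 = (x ^ 2 + x * e + e ^ 2 + A) ^ 2 -
      2 * (x + e + w) * (y ^ 2 + y₀ ^ 2) + (x + e + w) ^ 2 * (x - e) ^ 2 := by
    rw [hR0, hq, mul_div_cancel_left₀ _ hz]
  have hLR : (w - e) ^ 2 * (x - e) ^ 2 - t * (w - e) * (x - e) - u * ((x - e) + (w - e)) =
      (x ^ 2 + x * e + e ^ 2 + A) ^ 2 - 2 * (x + e + w) * (y ^ 2 + y₀ ^ 2) +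
        (x + e + w) ^ 2 * (x - e) ^ 2 := by
    linear_combination (-(w - e) * (x - e)) * ht - ((x - e) + (w - e)) * hu +
      2 * (x + e + w) * hy + 2 * (x + e + w) * hy₀ + h3
  refine mul_right_cancel₀ (pow_ne_zero 2 hz) ?_
  rw [hL, hLR, ← hR]
  ring

end H55G
end

-- from Lib.H55G.J1b
section

/-! # H55G, part J: the identity e2 for the isogeny -/

open NumberField IsDedekindDomain WeierstrassCurve

namespace H55G

open H55P (IQ embF eF LF Per IsHecke Pt ac Inert Dec Nm)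
open H35P (WAB Ker tt GoodW IntW)
open H55K (xc yc)
open H28I

variable {K : Type} [Field K] {Ω : Type} [Field Ω] [DecidableEq Ω] [Algebra K Ω] [CharZero Ω] [IsAlgClosed Ω]
  {A B A'' B'' e t u lam : K} {Φ : Pt (WAB A B) Ω →+ Pt (WAB A'' B'') Ω}

/-- The points of the kernel and the identity, for a curve over an algebraically closed field. -/
theorem j1b_gen {k : Type} [Field k] [DecidableEq k] [CharZero k] [IsAlgClosed k] {a b e t u : k}
    (hd : 4 * a ^ 3 + 27 * b ^ 2 ≠ 0)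
    (hcs : (u = 0 ∧ e ^ 3 + a * e + b = 0 ∧ t = 3 * e ^ 2 + a) ∨
      (t = 2 * (3 * e ^ 2 + a) ∧ u = 4 * (e ^ 3 + a * e + b) ∧ 3 * e ^ 4 + 6 * a * e ^ 2 + 12 * b * e - a ^ 2 = 0))
    (E : WeierstrassCurve k) (hE : E = WAB a b) :
    ∃ S : Finset E.toAffine.Point, (∀ R, R ∈ S ↔ R ≠ 0 ∧ xc R = e) ∧ (∀ R ∈ S, ∀ R' ∈ S, R' = R ∨ R' = -R) ∧
      ∀ X Y : E.toAffine.Point, X ≠ 0 → Y ≠ 0 → xc X ≠ e → xc Y ≠ e →
        (vx e t u (xc X) - vx e t u (xc Y)) * ∏ R ∈ S, (xc R - xc Y) =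
          (xc X - xc Y) * ∏ R ∈ S, (xc (X + R) - xc Y) := by
  subst hE
  classical
  obtain ⟨y₀, hy₀⟩ := IsAlgClosed.exists_pow_nat_eq (e ^ 3 + a * e + b) (n := 2) (by norm_num)
  have hD : (WAB a b).Δ ≠ 0 := by
    rw [H55K.s_Δ]
    exact mul_ne_zero (by norm_num) hd
  have hns : (WAB a b).toAffine.Nonsingular e y₀ := by
    refine (Affine.equation_iff_nonsingular_of_Δ_ne_zero hD).1 ?_
    rw [Affine.equation_iff]
    simp only [WAB]
    linear_combination hy₀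
  obtain ⟨R₀, hR₀0, hxR, hyR⟩ : ∃ R₀ : (WAB a b).toAffine.Point, R₀ ≠ 0 ∧ xc R₀ = e ∧ yc R₀ = y₀ :=
    ⟨Affine.Point.some e y₀ hns, Affine.Point.some_ne_zero _, rfl, rfl⟩
  have heqn : ∀ X : (WAB a b).toAffine.Point, X ≠ 0 → yc X ^ 2 = xc X ^ 3 + a * xc X + b := fun X hX => H55K.eqn hX
  have hadd : ∀ X : (WAB a b).toAffine.Point, X ≠ 0 → xc X ≠ e →
      xc (X + R₀) = ((yc X - y₀) / (xc X - e)) ^ 2 - xc X - e := by
    intro X hX hx
    have h1 := (H55K.add_coords hX hR₀0 (by rw [hxR]; exact hx)).2.1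
    rw [hxR, hyR] at h1
    exact h1
  have hmem : ∀ R : (WAB a b).toAffine.Point, R ≠ 0 ∧ xc R = e ↔ R = R₀ ∨ R = -R₀ := by
    intro R
    constructor
    · rintro ⟨h1, h2⟩
      exact H55K.xc_eq h1 hR₀0 (h2.trans hxR.symm)
    · rintro (h | h)
      · rw [h]
        exact ⟨hR₀0, hxR⟩
      · rw [h]
        exact ⟨H55K.neg_ne hR₀0, by rw [H55K.xc_neg, hxR]⟩
  rcases hcs with ⟨hu, hf, ht⟩ | ⟨ht, hu, h3⟩
  · -- degree two
    have hy0 : y₀ = 0 := by
      rw [hf] at hy₀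
      exact pow_eq_zero_iff two_ne_zero |>.1 hy₀
    have hneg : -R₀ = R₀ := by
      refine H55K.pt_ext (H55K.neg_ne hR₀0) hR₀0 (H55K.xc_neg R₀) ?_
      rw [H55K.yc_neg, hyR, hy0, neg_zero]
    refine ⟨{R₀}, fun R => ?_, fun R hR R' hR' => ?_, fun X Y hX hY hx hy => ?_⟩
    · rw [Finset.mem_singleton, hmem, hneg, or_self]
    · rw [Finset.mem_singleton] at hR hR'
      exact Or.inl (hR'.trans hR.symm)
    · rw [Finset.prod_singleton, Finset.prod_singleton, hxR, hadd X hX hx, hy0, sub_zero, hu]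
      exact j1_two hx hy hf ht (heqn X hX) rfl
  · -- degree three
    have hy0 : y₀ ≠ 0 := by
      intro h0
      have hf : e ^ 3 + a * e + b = 0 := by
        rw [← hy₀, h0]
        ring
      apply hd
      have h4 : (3 * e ^ 2 + a) ^ 2 = 0 := by
        linear_combination (12 * e) * hf - h3
      have h5 : 3 * e ^ 2 + a = 0 := pow_eq_zero_iff two_ne_zero |>.1 h4
      have ha : a = -3 * e ^ 2 := by linear_combination h5
      have hb : b = 2 * e ^ 3 := by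
        rw [ha] at hf
        linear_combination hf
      rw [ha, hb]
      ring
    have hne : R₀ ≠ -R₀ := by
      intro h
      have h1 := congrArg yc h
      rw [H55K.yc_neg, hyR] at h1
      apply hy0
      have h2 : 2 * y₀ = 0 := by linear_combination h1
      exact (mul_eq_zero.1 h2).resolve_left two_ne_zero
    have hadd' : ∀ X : (WAB a b).toAffine.Point, X ≠ 0 → xc X ≠ e →
        xc (X + -R₀) = ((yc X + y₀) / (xc X - e)) ^ 2 - xc X - e := by
      intro X hX hx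
      have h1 := (H55K.add_coords hX (H55K.neg_ne hR₀0) (by rw [H55K.xc_neg, hxR]; exact hx)).2.1
      rw [H55K.xc_neg, H55K.yc_neg, hxR, hyR, sub_neg_eq_add] at h1
      exact h1
    refine ⟨{R₀, -R₀}, fun R => ?_, fun R hR R' hR' => ?_, fun X Y hX hY hx hy => ?_⟩
    · rw [Finset.mem_insert, Finset.mem_singleton, hmem]
    · rw [Finset.mem_insert, Finset.mem_singleton] at hR hR'
      rcases hR with h | h <;> rcases hR' with h' | h'
      · exact Or.inl (h'.trans h.symm)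
      · right; rw [h, h']
      · right; rw [h, h', neg_neg]
      · exact Or.inl (h'.trans h.symm)
    · rw [Finset.prod_pair hne, Finset.prod_pair hne, H55K.xc_neg, hxR, hadd X hX hx, hadd' X hX hx]
      exact j1_three hx hy hy₀ ht hu h3 (heqn X hX) rfl rfl

/-- Chunk J1b (M). The points of (WAB A B)⁄Ω are those of y^2 = x^3 + A x + B with the images of A, B (write e, A, .. for the images; see v4_key, exists_W in H28I for the equality (WAB A B)⁄Ω = WAB ..; add_coords in H55K/E0.lean for the addition, c14_ext, neg: xc (-P) = xc P, yc (-P) = - yc P (WAB has a₁ = a₃ = 0)). y₀ with y₀^2 = e^3 + A e + B (IsAlgClosed.exists_pow_nat_eq), R₀ = (e, y₀) a point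
(nonsingular since the discriminant is not 0: h.disc; v2_ns). The nonzero R with Φ R = 0 are those with xc R = e (hΦ.ker, hΦ.ne), i.e. R₀ and -R₀. First case of h.cs (u = 0): y₀ = 0, R₀ = -R₀, S = {R₀}; second case: y₀^2 = u/4 ≠ 0 (f_ne), R₀ ≠ -R₀, S = {R₀, -R₀}.
X, Y nonzero with x-coordinates ≠ e (since Φ X, Φ Y ≠ 0; Φ 0 = 0, hΦ.ker): hΦ.x. xc (X + R₀) = ((yc X - y₀)/(xc X - e))^2 - xc X - e, xc (X - R₀) = ((yc X + y₀)/(xc X - e))^2 - xc X - e (add_coords). j1_two or j1_three. -/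
theorem phi_e2 (hΦ : IsW A B A'' B'' e t u lam Φ) (h : VI A B (lam ^ 4 * A'') (lam ^ 6 * B'') e t u) :
    ∃ S : Finset (Pt (WAB A B) Ω), (∀ R, R ∈ S ↔ Φ R = 0 ∧ R ≠ 0) ∧ (∀ R ∈ S, ∀ R' ∈ S, R' = R ∨ R' = -R) ∧
      ∀ X Y : Pt (WAB A B) Ω, Φ X ≠ 0 → Φ Y ≠ 0 →
        algebraMap K Ω lam ^ 2 * (xc (Φ X) - xc (Φ Y)) * ∏ R ∈ S, (xc R - xc Y) =
          (xc X - xc Y) * ∏ R ∈ S, (xc (X + R) - xc Y) := by
  obtain ⟨a, ha⟩ : ∃ a : K →+* Ω, a = algebraMap K Ω := ⟨_, rfl⟩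
  have hd : 4 * a A ^ 3 + 27 * a B ^ 2 ≠ 0 := by
    have e1 : 4 * a A ^ 3 + 27 * a B ^ 2 = a (4 * A ^ 3 + 27 * B ^ 2) := by
      simp only [map_add, map_mul, map_pow, map_ofNat]
    rw [e1]
    exact (map_ne_zero a).2 h.disc
  have hcs : (a u = 0 ∧ a e ^ 3 + a A * a e + a B = 0 ∧ a t = 3 * a e ^ 2 + a A) ∨
      (a t = 2 * (3 * a e ^ 2 + a A) ∧ a u = 4 * (a e ^ 3 + a A * a e + a B) ∧
        3 * a e ^ 4 + 6 * a A * a e ^ 2 + 12 * a B * a e - a A ^ 2 = 0) := by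
    rcases h.cs with ⟨h1, h2, h3⟩ | ⟨h1, h2, h3⟩
    · refine Or.inl ⟨by rw [h1, map_zero], ?_, ?_⟩
      · have e1 := congrArg a h2
        simpa only [map_add, map_mul, map_pow, map_ofNat, map_zero] using e1
      · have e1 := congrArg a h3
        simpa only [map_add, map_mul, map_pow, map_ofNat, map_zero] using e1
    · refine Or.inr ⟨?_, ?_, ?_⟩
      · have e1 := congrArg a h1
        simpa only [map_add, map_mul, map_pow, map_ofNat, map_zero] using e1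
      · have e1 := congrArg a h2
        simpa only [map_add, map_mul, map_pow, map_ofNat, map_zero] using e1
      · have e1 := congrArg a h3
        simpa only [map_add, map_sub, map_mul, map_pow, map_ofNat, map_zero] using e1
  have hE : (WAB A B)⁄Ω = WAB (a A) (a B) := by
    rw [ha]
    ext
    · exact map_zero (algebraMap K Ω)
    · exact map_zero (algebraMap K Ω)
    · exact map_zero (algebraMap K Ω)
    · rfl
    · rfl
  obtain ⟨S, hS1, hS2, hS3⟩ := j1b_gen hd hcs ((WAB A B)⁄Ω) hE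
  have hne : ∀ X : Pt (WAB A B) Ω, Φ X ≠ 0 → X ≠ 0 ∧ xc X ≠ a e := by
    intro X hX
    have h0 : X ≠ 0 := by
      rintro rfl
      exact hX (map_zero Φ)
    refine ⟨h0, fun h1 => hX (hΦ.ker X h0 ?_)⟩
    rw [h1, ha]
  refine ⟨S, fun R => ?_, hS2, fun X Y hX hY => ?_⟩
  · rw [hS1]
    constructor
    · rintro ⟨h1, h2⟩
      refine ⟨hΦ.ker R h1 ?_, h1⟩
      rw [h2, ha]
    · rintro ⟨h1, h2⟩
      refine ⟨h2, ?_⟩
      by_contra h3
      refine hΦ.ne R h2 ?_ h1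
      rw [← ha]
      exact h3
  · obtain ⟨x1, x2⟩ := hne X hX
    obtain ⟨y1, y2⟩ := hne Y hY
    have e1 := hΦ.x X x1 (by rw [← ha]; exact x2)
    have e2 := hΦ.x Y y1 (by rw [← ha]; exact y2)
    rw [← ha] at e1 e2 ⊢
    rw [mul_sub, e1, e2]
    exact hS3 X Y x1 y1 x2 y2

end H55G
end

-- from Lib.H55G.J2a
section

/-! # H55G, part J: the isogeny and the kernels of reduction -/

open NumberField IsDedekindDomain WeierstrassCurve

namespace H55G

open H55P (IQ embF eF LF Per IsHecke Pt ac Inert Dec Nm)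
open H35P (WAB Ker GoodW IntW)
open H55K (CMA Tor TN ak xc yc)
open H55K.MG (VC Crd)

/-- The data of an isogeny Φ from the curve WAB A B (with complex multiplication) to the curve WAB A₂ B₂, with good models of both curves at V. S is the set of the nonzero elements of the
kernel of Φ. -/
structure PD {F : Type} [Field F] {A B A₂ B₂ : F} {Ω : Type} [Field Ω] [DecidableEq Ω] [Algebra F Ω] (V : ValuationSubring Ω)
    (W' : WeierstrassCurve Ω) (u r s t : Ω) (Θ : Pt (WAB A B) Ω ≃+ W'.toAffine.Point) (Kg : AddSubgroup (Pt (WAB A B) Ω))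
    (W₂ : WeierstrassCurve Ω) (u₂ r₂ s₂ t₂ : Ω) (Θ₂ : Pt (WAB A₂ B₂) Ω ≃+ W₂.toAffine.Point) (Kg₂ : AddSubgroup (Pt (WAB A₂ B₂) Ω))
    (Φ : Pt (WAB A B) Ω →+ Pt (WAB A₂ B₂) Ω) (S : Finset (Pt (WAB A B) Ω)) (c₀ : Ω) : Prop where
  gd : GD V W' u r s t Θ Kg
  gd₂ : GD V W₂ u₂ r₂ s₂ t₂ Θ₂ Kg₂
  div : ∀ n : ℕ, n ≠ 0 → ∀ P : Pt (WAB A B) Ω, ∃ Q, n • Q = P
  surj : Function.Surjective Φ
  c0 : c₀ ≠ 0
  mem : ∀ R, R ∈ S ↔ Φ R = 0 ∧ R ≠ 0
  pm : ∀ R ∈ S, ∀ R' ∈ S, R' = R ∨ R' = -R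
  e2 : ∀ X Y : Pt (WAB A B) Ω, Φ X ≠ 0 → Φ Y ≠ 0 →
    c₀ * (xc (Φ X) - xc (Φ Y)) * ∏ R ∈ S, (xc R - xc Y) = (xc X - xc Y) * ∏ R ∈ S, (xc (X + R) - xc Y)

variable {F : Type} [Field F] {A B A₂ B₂ : F} {Ω : Type} [Field Ω] [DecidableEq Ω] [Algebra F Ω] {V : ValuationSubring Ω}
  {W' : WeierstrassCurve Ω} {u r s t : Ω} {Θ : Pt (WAB A B) Ω ≃+ W'.toAffine.Point} {Kg : AddSubgroup (Pt (WAB A B) Ω)}
  {W₂ : WeierstrassCurve Ω} {u₂ r₂ s₂ t₂ : Ω} {Θ₂ : Pt (WAB A₂ B₂) Ω ≃+ W₂.toAffine.Point} {Kg₂ : AddSubgroup (Pt (WAB A₂ B₂) Ω)}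
  {Φ : Pt (WAB A B) Ω →+ Pt (WAB A₂ B₂) Ω} {S : Finset (Pt (WAB A B) Ω)} {c₀ : Ω}

/-- Auxiliary: a root of T^2 + a T - b. -/
theorem j2a_root {Ω : Type} [Field Ω] [IsAlgClosed Ω] (a b : Ω) : ∃ y : Ω, y ^ 2 + a * y = b := by
  have hd : (Polynomial.X ^ 2 + Polynomial.C a * Polynomial.X + Polynomial.C (-b) : Polynomial Ω).degree ≠ 0 := by
    have h1 : (Polynomial.X ^ 2 + Polynomial.C a * Polynomial.X + Polynomial.C (-b) : Polynomial Ω).degree = 2 := by
      have h2 := Polynomial.degree_quadratic (R := Ω) (a := 1) (b := a) (c := -b) one_ne_zero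
      rw [map_one, one_mul] at h2
      exact h2
    rw [h1]
    decide
  obtain ⟨y, hy⟩ := IsAlgClosed.exists_root _ hd
  refine ⟨y, ?_⟩
  rw [Polynomial.IsRoot.def] at hy
  simp only [Polynomial.eval_add, Polynomial.eval_pow, Polynomial.eval_X, Polynomial.eval_mul, Polynomial.eval_C] at hy
  linear_combination hy

/-- Chunk J2a (S). Ω algebraically closed: y with y^2 + a₃ y = a₆ (IsAlgClosed: a root of T^2 + a₃ T - a₆); (0, y) satisfies the equation of W' and is nonsingular because the discriminant is not 0 (hG.good.disc: V(Δ) = 1; Affine.equation_iff_nonsingular_of_Δ_ne_zero or H35P.B1_delta). P = Θ⁻¹ (0, y); it is not in Kg (hG.kg: Ker V (.some 0 y _) means 1 < V(0) = 0). -/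
theorem kg_ne' [IsAlgClosed Ω] (hG : GD V W' u r s t Θ Kg) : ∃ P : Pt (WAB A B) Ω, P ∉ Kg := by
  obtain ⟨y, hy⟩ := j2a_root W'.a₃ W'.a₆
  have hD : W'.Δ ≠ 0 := by
    intro h0
    have h1 := hG.good.disc
    rw [h0, map_zero] at h1
    exact zero_ne_one h1
  have he : W'.toAffine.Equation 0 y := by
    rw [Affine.equation_iff]
    linear_combination hy
  have hn : W'.toAffine.Nonsingular 0 y := (Affine.equation_iff_nonsingular_of_Δ_ne_zero hD).1 he
  refine ⟨Θ.symm (Affine.Point.some 0 y hn), fun hP => ?_⟩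
  have h1 := (hG.kg _).1 hP
  rw [AddEquiv.apply_symm_apply] at h1
  have h2 : 1 < V.valuation (0 : Ω) := h1
  rw [map_zero] at h2
  exact not_lt_of_ge zero_le h2

/-- Chunk J2a (S/M). e2 in the coordinates of the good models. For P ≠ 0: xc P = u^2 xp Θ P + r (hG.crd, H55K.MG.Crd), so xc P - xc Q = u^2 (xp P - xp Q); the same for the second curve. All points are nonzero: X, Y (Φ X ≠ 0), R in S, X + R (Φ (X + R) = Φ X ≠ 0), Φ X, Φ Y. Both sides have the factor u^(2 (card S)) (Finset.prod_const, prod_mul_distrib), and the right side one more u^2: c = c₀ (u₂/u)^2. Compare e2x (B1.lean). -/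
theorem e2p (h : PD V W' u r s t Θ Kg W₂ u₂ r₂ s₂ t₂ Θ₂ Kg₂ Φ S c₀) {X Y : Pt (WAB A B) Ω} (hX : Φ X ≠ 0) (hY : Φ Y ≠ 0) :
    c₀ * (u₂ / u) ^ 2 * (xp Θ₂ (Φ X) - xp Θ₂ (Φ Y)) * ∏ R ∈ S, (xp Θ R - xp Θ Y) =
      (xp Θ X - xp Θ Y) * ∏ R ∈ S, (xp Θ (X + R) - xp Θ Y) := by
  have key : ∀ P Q : Pt (WAB A B) Ω, P ≠ 0 → Q ≠ 0 → xc P - xc Q = u ^ 2 * (xp Θ P - xp Θ Q) := by
    intro P Q hP hQ
    rw [(h.gd.crd P hP).2.1, (h.gd.crd Q hQ).2.1]
    simp only [xp]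
    ring
  have key₂ : ∀ P Q : Pt (WAB A₂ B₂) Ω, P ≠ 0 → Q ≠ 0 → xc P - xc Q = u₂ ^ 2 * (xp Θ₂ P - xp Θ₂ Q) := by
    intro P Q hP hQ
    rw [(h.gd₂.crd P hP).2.1, (h.gd₂.crd Q hQ).2.1]
    simp only [xp]
    ring
  have hX0 : X ≠ 0 := by
    rintro rfl
    exact hX (map_zero _)
  have hY0 : Y ≠ 0 := by
    rintro rfl
    exact hY (map_zero _)
  have e := h.e2 X Y hX hY
  have p1 : ∏ R ∈ S, (xc R - xc Y) = ∏ R ∈ S, (u ^ 2 * (xp Θ R - xp Θ Y)) :=
    Finset.prod_congr rfl fun R hR => key R Y ((h.mem R).1 hR).2 hY0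
  have p2 : ∏ R ∈ S, (xc (X + R) - xc Y) = ∏ R ∈ S, (u ^ 2 * (xp Θ (X + R) - xp Θ Y)) := by
    refine Finset.prod_congr rfl fun R hR => key (X + R) Y (fun h0 => hX ?_) hY0
    have h1 : Φ (X + R) = 0 := by rw [h0, map_zero]
    rwa [map_add, ((h.mem R).1 hR).1, add_zero] at h1
  rw [key₂ _ _ hX hY, key _ _ hX0 hY0, p1, p2, Finset.prod_mul_distrib, Finset.prod_mul_distrib, Finset.prod_const] at e
  have hu0 : u ≠ 0 := h.gd.une
  have hu : u ^ 2 * (u ^ 2) ^ S.card ≠ 0 :=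
    mul_ne_zero (pow_ne_zero _ hu0) (pow_ne_zero _ (pow_ne_zero _ hu0))
  have hc : (u₂ / u) ^ 2 * u ^ 2 = u₂ ^ 2 := by
    rw [← mul_pow, div_mul_cancel₀ _ hu0]
  apply mul_left_cancel₀ hu
  linear_combination e + (c₀ * (xp Θ₂ (Φ X) - xp Θ₂ (Φ Y)) * (∏ R ∈ S, (xp Θ R - xp Θ Y)) * (u ^ 2) ^ S.card) * hc

/-- Auxiliary: avoid for linear conditions on a pair. -/
theorem j2a_gen0 {G : Type} [AddCommGroup G] (hdiv : ∀ n : ℕ, n ≠ 0 → ∀ g : G, ∃ g' : G, n • g' = g) {ι : Type} (I : Set ι)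
    (hI : I.Finite) (L : ι → (G × G →+ G)) (hL : ∀ i ∈ I, Function.Surjective (L i)) (K : ι → AddSubgroup G)
    (hK : ∀ i ∈ I, K i ≠ ⊤) (R : ι → G) : ∃ g : G × G, ∀ i ∈ I, L i g + R i ∉ K i := by
  classical
  have hdiv2 : ∀ n : ℕ, n ≠ 0 → ∀ g : G × G, ∃ g', n • g' = g := by
    intro n hn g
    obtain ⟨a, ha⟩ := hdiv n hn g.1
    obtain ⟨b, hb⟩ := hdiv n hn g.2
    exact ⟨(a, b), Prod.ext ha hb⟩
  let c : ι → G × G := fun i => if hi : i ∈ I then (hL i hi (-R i)).choose else 0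
  have hc : ∀ i ∈ I, L i (c i) = -R i := by
    intro i hi
    have e : c i = (hL i hi (-R i)).choose := by
      simp only [c, dif_pos hi]
    rw [e]
    exact (hL i hi (-R i)).choose_spec
  obtain ⟨g, hg⟩ := avoid hdiv2 I hI (fun i => (K i).comap (L i)) (fun i hi h0 => hK i hi (by
    rw [eq_top_iff]
    intro x _
    obtain ⟨y, rfl⟩ := hL i hi x
    have h1 : y ∈ (K i).comap (L i) := by
      rw [h0]
      exact AddSubgroup.mem_top _
    exact AddSubgroup.mem_comap.1 h1)) c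
  refine ⟨g, fun i hi hh => hg i hi ?_⟩
  rw [AddSubgroup.mem_comap, map_sub, hc i hi, sub_neg_eq_add]
  exact hh

/-- Auxiliary: the generic pair for two proper subgroups of a divisible group. -/
theorem j2a_gen {G : Type} [AddCommGroup G] (hdiv : ∀ n : ℕ, n ≠ 0 → ∀ g : G, ∃ g' : G, n • g' = g) (T : Finset G)
    {K K' : AddSubgroup G} (hK : K ≠ ⊤) (hK' : K' ≠ ⊤) : ∃ X Y : G, ∀ R ∈ T,
      (X + R ∉ K ∧ R - Y ∉ K ∧ R + Y ∉ K ∧ X + R - Y ∉ K ∧ X + R + Y ∉ K) ∧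
      (X + R ∉ K' ∧ R - Y ∉ K' ∧ R + Y ∉ K' ∧ X + R - Y ∉ K' ∧ X + R + Y ∉ K') := by
  obtain ⟨g, hg⟩ := j2a_gen0 hdiv (ι := (ℤ × ℤ) × Bool × G)
    ((({(1, 0), (0, -1), (0, 1), (1, -1), (1, 1)} : Finset (ℤ × ℤ)) : Set (ℤ × ℤ)) ×ˢ (Set.univ ×ˢ (T : Set G)))
    ((Finset.finite_toSet _).prod (Set.finite_univ.prod (Finset.finite_toSet _)))
    (fun i => i.1.1 • AddMonoidHom.fst G G + i.1.2 • AddMonoidHom.snd G G)
    (fun i hi x => by
      obtain ⟨hi, -⟩ := hi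
      rw [Finset.mem_coe] at hi
      simp only [Finset.mem_insert, Finset.mem_singleton] at hi
      rcases hi with h | h | h | h | h <;> rw [h]
      · exact ⟨(x, 0), by simp⟩
      · exact ⟨(0, -x), by simp⟩
      · exact ⟨(0, x), by simp⟩
      · exact ⟨(x, 0), by simp⟩
      · exact ⟨(x, 0), by simp⟩)
    (fun i => if i.2.1 then K else K')
    (fun i hi => by
      rcases i with ⟨i, b, R⟩
      cases b
      · simpa using hK'
      · simpa using hK)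
    (fun i => i.2.2)
  have key : ∀ R ∈ T, ∀ b : Bool, (g.1 + R ∉ (if b then K else K') ∧ R - g.2 ∉ (if b then K else K') ∧ R + g.2 ∉ (if b then K else K') ∧
      g.1 + R - g.2 ∉ (if b then K else K') ∧ g.1 + R + g.2 ∉ (if b then K else K')) := by
    intro R hR b
    have k1 : ∀ z : ℤ × ℤ, z ∈ ({(1, 0), (0, -1), (0, 1), (1, -1), (1, 1)} : Finset (ℤ × ℤ)) →
        z.1 • g.1 + z.2 • g.2 + R ∉ (if b then K else K') := fun z hz =>
      hg (z, b, R) ⟨by rw [Finset.mem_coe]; exact hz, Set.mem_univ _, hR⟩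
    have l1 := k1 (1, 0) (by simp)
    have l2 := k1 (0, -1) (by simp)
    have l3 := k1 (0, 1) (by simp)
    have l4 := k1 (1, -1) (by simp)
    have l5 := k1 (1, 1) (by simp)
    simp only [one_smul, zero_smul, neg_smul, add_zero, zero_add] at l1 l2 l3 l4 l5
    refine ⟨l1, ?_, ?_, ?_, ?_⟩
    · rwa [sub_eq_add_neg, add_comm]
    · rwa [add_comm]
    · rwa [sub_eq_add_neg, add_right_comm]
    · rwa [add_right_comm]
  exact ⟨g.1, g.2, fun R hR => ⟨by simpa using key R hR true, by simpa using key R hR false⟩⟩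

/-- Chunk J2a (M). avoid (B2.lean) for the group Pt × Pt (h.div, componentwise), with the finite set of the conditions: the proper subgroups are the preimages of Kg under (X, Y) ↦ X, Y, X - Y, X + Y (not everything: kg_ne') and of Kg₂ under (X, Y) ↦ Φ X, Φ Y, Φ X - Φ Y, Φ X + Φ Y (not everything: kg_ne' for the second curve, h.surj); the cosets: for R in S: X + R, R - Y, R + Y, X + R - Y, X + R + Y.
(For example index set ι = Fin 2 × ℤ × ℤ × Pt restricted to a finite set, H i = the preimage of Kg (first component 0) or Kg₂ under (X, Y) ↦ a X + b Y (or Φ of it), a, b in {0, 1, -1} not both 0; c i = a pair with a X₀ + b Y₀ = R.) -/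
theorem gen_phi [IsAlgClosed Ω] (h : PD V W' u r s t Θ Kg W₂ u₂ r₂ s₂ t₂ Θ₂ Kg₂ Φ S c₀) : ∃ X Y : Pt (WAB A B) Ω,
    X ∉ Kg ∧ Y ∉ Kg ∧ X - Y ∉ Kg ∧ X + Y ∉ Kg ∧ Φ X ∉ Kg₂ ∧ Φ Y ∉ Kg₂ ∧ Φ X - Φ Y ∉ Kg₂ ∧ Φ X + Φ Y ∉ Kg₂ ∧
      ∀ R ∈ S, X + R ∉ Kg ∧ R - Y ∉ Kg ∧ R + Y ∉ Kg ∧ X + R - Y ∉ Kg ∧ X + R + Y ∉ Kg := by
  classical
  obtain ⟨P, hP⟩ := kg_ne' h.gd
  obtain ⟨P₂, hP₂⟩ := kg_ne' h.gd₂
  obtain ⟨P₃, hP₃⟩ := h.surj P₂
  have hKK : Kg₂.comap Φ ≠ ⊤ := by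
    intro h0
    have h1 : P₃ ∈ Kg₂.comap Φ := by
      rw [h0]
      exact AddSubgroup.mem_top _
    rw [AddSubgroup.mem_comap, hP₃] at h1
    exact hP₂ h1
  have hK : Kg ≠ ⊤ := by
    intro h0
    rw [h0] at hP
    exact hP (AddSubgroup.mem_top _)
  obtain ⟨X, Y, hXY⟩ := j2a_gen h.div (insert 0 S) hK hKK
  refine ⟨X, Y, ?_⟩
  obtain ⟨h0, h0'⟩ := hXY 0 (Finset.mem_insert_self _ _)
  obtain ⟨a1, a2, a3, a4, a5⟩ := h0
  obtain ⟨b1, b2, b3, b4, b5⟩ := h0'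
  simp only [add_zero, zero_add, AddSubgroup.mem_comap, map_sub, map_add] at a1 a2 a3 a4 a5 b1 b2 b3 b4 b5
  exact ⟨a1, a3, a4, a5, b1, b3, b4, b5, fun R hR => (hXY R (Finset.mem_insert_of_mem hR)).1⟩

end H55G
end

-- from Lib.H55G.J2b
section

/-! # H55G, part J: the isogeny and the kernels of reduction -/

open NumberField IsDedekindDomain WeierstrassCurve

namespace H55G

open H55P (IQ embF eF LF Per IsHecke Pt ac Inert Dec Nm)
open H35P (WAB Ker GoodW IntW)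
open H55K (CMA Tor TN ak xc yc)
open H55K.MG (VC Crd)

variable {F : Type} [Field F] {A B A₂ B₂ : F} {Ω : Type} [Field Ω] [DecidableEq Ω] [Algebra F Ω] {V : ValuationSubring Ω}
  {W' : WeierstrassCurve Ω} {u r s t : Ω} {Θ : Pt (WAB A B) Ω ≃+ W'.toAffine.Point} {Kg : AddSubgroup (Pt (WAB A B) Ω)}
  {W₂ : WeierstrassCurve Ω} {u₂ r₂ s₂ t₂ : Ω} {Θ₂ : Pt (WAB A₂ B₂) Ω ≃+ W₂.toAffine.Point} {Kg₂ : AddSubgroup (Pt (WAB A₂ B₂) Ω)}
  {Φ : Pt (WAB A B) Ω →+ Pt (WAB A₂ B₂) Ω} {S : Finset (Pt (WAB A B) Ω)} {c₀ : Ω}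

/-- Auxiliary: the values of the two sides of e2p. -/
theorem j2b_e (h : PD V W' u r s t Θ Kg W₂ u₂ r₂ s₂ t₂ Θ₂ Kg₂ Φ S c₀) {X Y : Pt (WAB A B) Ω} (hX : Φ X ≠ 0) (hY : Φ Y ≠ 0) :
    V.valuation (c₀ * (u₂ / u) ^ 2) * V.valuation (xp Θ₂ (Φ X) - xp Θ₂ (Φ Y)) * ∏ R ∈ S, V.valuation (xp Θ R - xp Θ Y) =
      V.valuation (xp Θ X - xp Θ Y) * ∏ R ∈ S, V.valuation (xp Θ (X + R) - xp Θ Y) := by
  have e := congrArg V.valuation (e2p h hX hY)
  generalize c₀ * (u₂ / u) ^ 2 = c at e ⊢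
  simpa only [map_mul, map_prod] using e

/-- Auxiliary: no element of S or all of them are in Kg. -/
theorem j2b_cases (h : PD V W' u r s t Θ Kg W₂ u₂ r₂ s₂ t₂ Θ₂ Kg₂ Φ S c₀) :
    (∀ R ∈ S, R ∉ Kg) ∨ (∀ R ∈ S, R ∈ Kg) := by
  by_cases hh : ∃ R ∈ S, R ∈ Kg
  · obtain ⟨R, hR, hK⟩ := hh
    right
    intro R' hR'
    rcases h.pm R hR R' hR' with h1 | h1
    · rw [h1]
      exact hK
    · rw [h1]
      exact Kg.neg_mem hK
  · left
    intro R hR hK
    exact hh ⟨R, hR, hK⟩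

/-- Chunk J2b (S/M). X, Y from gen_phi. e2p (Φ X, Φ Y ≠ 0 since they are not in Kg₂): V(xp₂ (Φ X) - xp₂ (Φ Y)) = 1, V(xp X - xp Y) = 1, V(xp (X + R) - xp Y) = 1 (xp_diff, B1.lean). First claim: V(xp R - xp Y) = 1 (R, Y, R ± Y not in Kg). Second claim: V(xp R - xp Y) = V(xp R) (xp_far: R in Kg, R ≠ 0 by h.mem, Y not in Kg). -/
theorem c_val [IsAlgClosed Ω] (h : PD V W' u r s t Θ Kg W₂ u₂ r₂ s₂ t₂ Θ₂ Kg₂ Φ S c₀) :
    ((∀ R ∈ S, R ∉ Kg) → V.valuation (c₀ * (u₂ / u) ^ 2) = 1) ∧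
      ((∀ R ∈ S, R ∈ Kg) → V.valuation (c₀ * (u₂ / u) ^ 2 * ∏ R ∈ S, xp Θ R) = 1) := by
  obtain ⟨X, Y, hX, hY, hm, hp, hX₂, hY₂, hm₂, hp₂, hR⟩ := gen_phi h
  have hX0 : Φ X ≠ 0 := fun h0 => hX₂ (by rw [h0]; exact Kg₂.zero_mem)
  have hY0 : Φ Y ≠ 0 := fun h0 => hY₂ (by rw [h0]; exact Kg₂.zero_mem)
  have e := j2b_e h hX0 hY0
  have p2 : ∏ R ∈ S, V.valuation (xp Θ (X + R) - xp Θ Y) = 1 :=
    Finset.prod_eq_one fun R hRS => xp_diff h.gd (hR R hRS).1 hY (hR R hRS).2.2.2.1 (hR R hRS).2.2.2.2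
  rw [xp_diff h.gd₂ hX₂ hY₂ hm₂ hp₂, xp_diff h.gd hX hY hm hp, p2, mul_one, mul_one] at e
  refine ⟨fun hS => ?_, fun hS => ?_⟩
  · have p1 : ∏ R ∈ S, V.valuation (xp Θ R - xp Θ Y) = 1 :=
      Finset.prod_eq_one fun R hRS => xp_diff h.gd (hS R hRS) hY (hR R hRS).2.1 (hR R hRS).2.2.1
    rw [p1, mul_one] at e
    exact e
  · have p1 : ∏ R ∈ S, V.valuation (xp Θ R - xp Θ Y) = ∏ R ∈ S, V.valuation (xp Θ R) :=
      Finset.prod_congr rfl fun R hRS => (xp_far h.gd (hS R hRS) ((h.mem R).1 hRS).2 hY).2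
    rw [p1] at e
    rw [map_mul, map_prod]
    exact e

/-- Auxiliary: the value of xp₂ (Φ X) - xp₂ (Φ Y). -/
theorem j2b_val [IsAlgClosed Ω] (h : PD V W' u r s t Θ Kg W₂ u₂ r₂ s₂ t₂ Θ₂ Kg₂ Φ S c₀) {X Y : Pt (WAB A B) Ω} (hX : Φ X ≠ 0)
    (hY : Φ Y ≠ 0) (hYK : Y ∉ Kg) (hR : ∀ R ∈ S, R - Y ∉ Kg ∧ R + Y ∉ Kg) :
    V.valuation (xp Θ₂ (Φ X) - xp Θ₂ (Φ Y)) =
      V.valuation (xp Θ X - xp Θ Y) * ∏ R ∈ S, V.valuation (xp Θ (X + R) - xp Θ Y) := by
  rw [← j2b_e h hX hY]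
  rcases j2b_cases h with hS | hS
  · have p1 : ∏ R ∈ S, V.valuation (xp Θ R - xp Θ Y) = 1 :=
      Finset.prod_eq_one fun R hRS => xp_diff h.gd (hS R hRS) hYK (hR R hRS).1 (hR R hRS).2
    rw [p1, (c_val h).1 hS, one_mul, mul_one]
  · have p1 : ∏ R ∈ S, V.valuation (xp Θ R - xp Θ Y) = ∏ R ∈ S, V.valuation (xp Θ R) :=
      Finset.prod_congr rfl fun R hRS => (xp_far h.gd (hS R hRS) ((h.mem R).1 hRS).2 hYK).2
    have h1 := (c_val h).2 hS
    rw [map_mul, map_prod] at h1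
    rw [p1, mul_right_comm, h1, one_mul]

/-- Chunk J2b (M). If Φ X = 0: clear (0 in Kg₂). Y from gen_phi. Write c = c₀ (u₂/u)^2. By h.pm either no R in S is in Kg or all are. In both cases e2p for X, Y:
(1) No R in Kg: V(c) = 1 (c_val), V(xp R - xp Y) = 1, X + R, X + R ± Y not in Kg (X in Kg), so V(xp (X + R) - xp Y) = 1; V(xp X - xp Y) = V(xp X) > 1 (xp_far; X ≠ 0). So V(xp₂ (Φ X) - xp₂ (Φ Y)) > 1; Φ X not in Kg₂ would give ≤ 1 (xp_int: both in V₂'s ring).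
(2) All R in Kg: V(xp R - xp Y) = V(xp R), so the left side has value V(xp₂ (Φ X) - xp₂ (Φ Y)) (c_val); X + R is in Kg and ≠ 0 (Φ (X + R) = Φ X ≠ 0): V(xp (X + R) - xp Y) > 1, V(xp X - xp Y) > 1. The same conclusion. -/
theorem phi_kg [IsAlgClosed Ω] (h : PD V W' u r s t Θ Kg W₂ u₂ r₂ s₂ t₂ Θ₂ Kg₂ Φ S c₀) {X : Pt (WAB A B) Ω} (hX : X ∈ Kg) :
    Φ X ∈ Kg₂ := by
  by_contra hc
  have hX0 : Φ X ≠ 0 := fun h0 => hc (by rw [h0]; exact Kg₂.zero_mem)
  have hne : X ≠ 0 := by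
    rintro rfl
    exact hX0 (map_zero _)
  obtain ⟨X', Y, -, hY, -, -, -, hY₂, -, -, hR⟩ := gen_phi h
  have hY0 : Φ Y ≠ 0 := fun h0 => hY₂ (by rw [h0]; exact Kg₂.zero_mem)
  have e := j2b_val h hX0 hY0 hY fun R hRS => ⟨(hR R hRS).2.1, (hR R hRS).2.2.1⟩
  have h1 : 1 < V.valuation (xp Θ X - xp Θ Y) := by
    have h2 := xp_far h.gd hX hne hY
    rw [h2.2]
    exact h2.1
  have h3 : ∀ R ∈ S, 1 ≤ V.valuation (xp Θ (X + R) - xp Θ Y) := by
    intro R hRS
    by_cases hRK : R ∈ Kg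
    · have h4 : X + R ≠ 0 := by
        intro h5
        apply hX0
        have h6 : Φ (X + R) = 0 := by rw [h5, map_zero]
        rwa [map_add, ((h.mem R).1 hRS).1, add_zero] at h6
      have h7 := xp_far h.gd (Kg.add_mem hX hRK) h4 hY
      rw [h7.2]
      exact h7.1.le
    · rw [xp_diff h.gd (fun hm => hRK ((Kg.add_mem_cancel_left hX).1 hm)) hY (fun hm => (hR R hRS).2.1 ?_)
        (fun hm => (hR R hRS).2.2.1 ?_)]
      · rw [add_sub_assoc] at hm
        exact (Kg.add_mem_cancel_left hX).1 hm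
      · rw [add_assoc] at hm
        exact (Kg.add_mem_cancel_left hX).1 hm
  have h4 : 1 ≤ ∏ R ∈ S, V.valuation (xp Θ (X + R) - xp Θ Y) := Finset.one_le_prod' h3
  have h5 : 1 < V.valuation (xp Θ₂ (Φ X) - xp Θ₂ (Φ Y)) := by
    rw [e]
    exact lt_of_lt_of_le h1 (le_mul_of_one_le_right' h4)
  have h6 : V.valuation (xp Θ₂ (Φ X) - xp Θ₂ (Φ Y)) ≤ 1 :=
    V.valuation.map_sub_le ((V.valuation_le_one_iff _).2 (xp_int h.gd₂ hc).2.1)
      ((V.valuation_le_one_iff _).2 (xp_int h.gd₂ hY₂).2.1)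
  exact absurd (lt_of_lt_of_le h5 h6) (lt_irrefl _)

/-- Chunk J2b (M). If Φ X = 0: R = X. Otherwise suppose X is not in Kg and X + R is not in Kg for all R in S (if X in Kg: R = 0; if X + R in Kg: take -R). Y from gen_phi (only conditions on Y). e2p for X, Y: V(xp₂ (Φ X) - xp₂ (Φ Y)) > 1 (xp_far for the second curve: Φ X in Kg₂, ≠ 0, Φ Y not in Kg₂).
Cases as in phi_kg: in both the left side has value > 1 (c_val: (1) V(c) = 1, V(xp R - xp Y) = 1; (2) V(c ∏ xp R) = 1). The right side has value ≤ 1: xp X, xp Y, xp (X + R) are in V (xp_int). Contradiction. -/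
theorem phi_lift [IsAlgClosed Ω] (h : PD V W' u r s t Θ Kg W₂ u₂ r₂ s₂ t₂ Θ₂ Kg₂ Φ S c₀) {X : Pt (WAB A B) Ω} (hX : Φ X ∈ Kg₂) :
    ∃ R, Φ R = 0 ∧ X - R ∈ Kg := by
  by_contra hc
  have hX0 : Φ X ≠ 0 := fun h0 => hc ⟨X, h0, by rw [sub_self]; exact Kg.zero_mem⟩
  have hXK : X ∉ Kg := fun hK => hc ⟨0, map_zero _, by rw [sub_zero]; exact hK⟩
  have hXR : ∀ R ∈ S, X + R ∉ Kg := fun R hRS hK =>
    hc ⟨-R, by rw [map_neg, ((h.mem R).1 hRS).1, neg_zero], by rw [sub_neg_eq_add]; exact hK⟩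
  obtain ⟨X', Y, -, hY, -, -, -, hY₂, -, -, hR⟩ := gen_phi h
  have hY0 : Φ Y ≠ 0 := fun h0 => hY₂ (by rw [h0]; exact Kg₂.zero_mem)
  have e := j2b_val h hX0 hY0 hY fun R hRS => ⟨(hR R hRS).2.1, (hR R hRS).2.2.1⟩
  have h1 : 1 < V.valuation (xp Θ₂ (Φ X) - xp Θ₂ (Φ Y)) := by
    have h2 := xp_far h.gd₂ hX hX0 hY₂
    rw [h2.2]
    exact h2.1
  have hle : ∀ P : Pt (WAB A B) Ω, P ∉ Kg → V.valuation (xp Θ P - xp Θ Y) ≤ 1 := fun P hP =>
    V.valuation.map_sub_le ((V.valuation_le_one_iff _).2 (xp_int h.gd hP).2.1)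
      ((V.valuation_le_one_iff _).2 (xp_int h.gd hY).2.1)
  have h3 : ∏ R ∈ S, V.valuation (xp Θ (X + R) - xp Θ Y) ≤ 1 :=
    Finset.prod_le_one' fun R hRS => hle _ (hXR R hRS)
  rw [e] at h1
  exact absurd (lt_of_lt_of_le h1 (mul_le_one' (hle X hXK) h3)) (lt_irrefl _)

end H55G
end

-- from Lib.H55G.J3a
section

/-! # H55G, part J: counting fixed points -/

open NumberField IsDedekindDomain WeierstrassCurve

namespace H55G

open H55P (IQ embF eF LF Per IsHecke Pt ac Inert Dec Nm)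
open H35P (WAB Ker GoodW IntW)
open H55K (CMA Tor TN ak xc yc acr xc_acr yc_acr acr_zero_iff acr_inj acr_eq_ac acr_trans)
open H55K.MG (VC Crd)

variable {F : Type} [Field F] {A B A₂ B₂ : F} {Ω : Type} [Field Ω] [DecidableEq Ω] [Algebra F Ω] {V : ValuationSubring Ω}
  {W' : WeierstrassCurve Ω} {u r s t : Ω} {Θ : Pt (WAB A B) Ω ≃+ W'.toAffine.Point} {Kg : AddSubgroup (Pt (WAB A B) Ω)}
  {W₂ : WeierstrassCurve Ω} {u₂ r₂ s₂ t₂ : Ω} {Θ₂ : Pt (WAB A₂ B₂) Ω ≃+ W₂.toAffine.Point} {Kg₂ : AddSubgroup (Pt (WAB A₂ B₂) Ω)}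
  {Φ : Pt (WAB A B) Ω →+ Pt (WAB A₂ B₂) Ω} {S : Finset (Pt (WAB A B) Ω)} {c₀ : Ω}

/-- Chunk J3a (S/M). f = QuotientAddGroup.map Kg Kg₂ Φ (phi_kg): surjective (h.surj). Its kernel: the classes of X with Φ X in Kg₂; by phi_lift such a class is the class of some R with Φ R = 0, and these R are finitely many (R = 0 or R in S: h.mem). f commutes with the maps qmap (acr g) (hc; classes of points, qmap_mk). iso_count (A3.lean) with φ = qmap (acr g) on the first quotient (hs) and φ' on the second. -/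
theorem pd_count [IsAlgClosed Ω] (h : PD V W' u r s t Θ Kg W₂ u₂ r₂ s₂ t₂ Θ₂ Kg₂ Φ S c₀) {g : Ω ≃+* Ω}
    {hA : g (algebraMap F Ω A) = algebraMap F Ω A} {hB : g (algebraMap F Ω B) = algebraMap F Ω B}
    {hA₂ : g (algebraMap F Ω A₂) = algebraMap F Ω A₂} {hB₂ : g (algebraMap F Ω B₂) = algebraMap F Ω B₂}
    (hc : ∀ P, Φ (acr g hA hB P) = acr g hA₂ hB₂ (Φ P)) (hK : ∀ P ∈ Kg, acr g hA hB P ∈ Kg)
    (hK₂ : ∀ P ∈ Kg₂, acr g hA₂ hB₂ P ∈ Kg₂)
    (hs : ∀ P : Pt (WAB A B) Ω ⧸ Kg, ∃ Q, qmap Kg (acr g hA hB) hK Q - Q = P) :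
    Nat.card {c : Pt (WAB A B) Ω ⧸ Kg // qmap Kg (acr g hA hB) hK c = c} =
      Nat.card {c : Pt (WAB A₂ B₂) Ω ⧸ Kg₂ // qmap Kg₂ (acr g hA₂ hB₂) hK₂ c = c} := by
  classical
  have hle : Kg ≤ Kg₂.comap Φ := fun X hX => phi_kg h hX
  let f : (Pt (WAB A B) Ω ⧸ Kg) →+ (Pt (WAB A₂ B₂) Ω ⧸ Kg₂) := QuotientAddGroup.map Kg Kg₂ Φ hle
  have hf : ∀ X : Pt (WAB A B) Ω, f (QuotientAddGroup.mk X) = QuotientAddGroup.mk (Φ X) := fun X => rfl
  refine iso_count f ?_ ?_ (qmap Kg (acr g hA hB) hK) (qmap Kg₂ (acr g hA₂ hB₂) hK₂) ?_ hs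
  · intro q
    obtain ⟨y, rfl⟩ := QuotientAddGroup.mk_surjective q
    obtain ⟨x, rfl⟩ := h.surj y
    exact ⟨QuotientAddGroup.mk x, hf x⟩
  · have hfin : ((QuotientAddGroup.mk : Pt (WAB A B) Ω → Pt (WAB A B) Ω ⧸ Kg) '' (↑(insert 0 S) : Set (Pt (WAB A B) Ω))).Finite :=
      (Finset.finite_toSet _).image _
    have hsub : {P : Pt (WAB A B) Ω ⧸ Kg | f P = 0} ⊆
        ((QuotientAddGroup.mk : Pt (WAB A B) Ω → Pt (WAB A B) Ω ⧸ Kg) '' (↑(insert 0 S) : Set (Pt (WAB A B) Ω))) := by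
      intro q hq
      obtain ⟨X, rfl⟩ := QuotientAddGroup.mk_surjective q
      have h1 : f (QuotientAddGroup.mk X) = 0 := hq
      rw [hf] at h1
      have h2 : Φ X ∈ Kg₂ := (QuotientAddGroup.eq_zero_iff _).1 h1
      obtain ⟨R, hR, hXR⟩ := phi_lift h h2
      refine ⟨R, ?_, ?_⟩
      · rw [Finset.mem_coe, Finset.mem_insert]
        by_cases hR0 : R = 0
        · exact Or.inl hR0
        · exact Or.inr ((h.mem R).2 ⟨hR, hR0⟩)
      · refine QuotientAddGroup.eq.2 ?_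
        rw [neg_add_eq_sub]
        exact hXR
    exact (hfin.subset hsub).to_subtype
  · intro P
    obtain ⟨X, rfl⟩ := QuotientAddGroup.mk_surjective P
    exact congrArg (fun z : Pt (WAB A₂ B₂) Ω => (QuotientAddGroup.mk z : Pt (WAB A₂ B₂) Ω ⧸ Kg₂)) (hc X)

end H55G
end

-- from Lib.H55K.UA2B
section

/-! # H55K: the sum of the second differences is analytic -/

open NumberField IsDedekindDomain WeierstrassCurve

namespace H55K

open H55P (IQ embF eF LF Per IsHecke Pt ac Inert Dec Nm)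
open H35P (WAB Ker tt)


variable {F : Type} [Field F] [NumberField F] [IQ F]

/-- Chunk UA2B (S). ff is differentiable in s for w ≠ 0 (‖w‖^2 > 0: the function (‖w‖^2)^(-s) is entire), and ff s 0 = 0. -/
theorem ff_diff (w : ℂ) : Differentiable ℂ fun s => ff s w := by
  unfold ff
  by_cases hw : w = 0
  · subst hw
    simp
  · have h1 : ((‖w‖ ^ 2 : ℝ) : ℂ) ≠ 0 := by
      have : 0 < ‖w‖ := norm_pos_iff.2 hw
      exact_mod_cast (by positivity : (0 : ℝ) < ‖w‖ ^ 2).ne'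
    exact (differentiable_id.neg.const_cpow (Or.inl h1)).const_mul _

theorem ua2b_dd (w q : ℂ) : Differentiable ℂ fun s => dd s w q := by
  unfold dd
  exact ((ff_diff (w + q)).add (ff_diff (w - q))).sub ((ff_diff w).const_mul 2)

theorem ua2b_bd (F : Type) [Field F] [NumberField F] [IQ F] (z q : ℂ) (r M : ℝ) (hr : 1 / 2 < r) :
    ∃ u : 𝓞 F → ℝ, Summable u ∧ ∀ (x : 𝓞 F) (s : ℂ), r ≤ s.re → ‖s‖ ≤ M → ‖dd s (z + eF F x) q‖ ≤ u x := by
  classical
  obtain ⟨C, hC0, hC⟩ := dd_bound q r M (by linarith)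
  have hfin := fin_shift F z (1 + 2 * ‖q‖)
  have hB : ∀ x : 𝓞 F, ∃ B : ℝ, 0 ≤ B ∧ ∀ s : ℂ, ‖s‖ ≤ M → ‖dd s (z + eF F x) q‖ ≤ B := by
    intro x
    have hc : Continuous fun s => dd s (z + eF F x) q := (ua2b_dd _ _).continuous
    obtain ⟨B, hB⟩ := (isCompact_closedBall (0 : ℂ) M).exists_bound_of_continuousOn hc.continuousOn
    refine ⟨max B 0, le_max_right _ _, fun s hs => ?_⟩
    exact (hB s (by simpa using hs)).trans (le_max_left _ _)
  choose B hB0 hB using hB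
  refine ⟨fun x => C * ‖z + eF F x‖ ^ (-(1 + 2 * r)) + if x ∈ hfin.toFinset then B x else 0, ?_, ?_⟩
  · refine ((sum_shift F z (1 + 2 * r) (by linarith)).mul_left C).add ?_
    refine summable_of_hasFiniteSupport (Set.Finite.subset hfin.toFinset.finite_toSet ?_)
    intro x hx
    by_contra hc
    apply hx
    show (if x ∈ hfin.toFinset then B x else 0) = 0
    exact if_neg fun h' => hc (Finset.mem_coe.2 h')
  · intro x s h1 h2
    have h3 : 0 ≤ C * ‖z + eF F x‖ ^ (-(1 + 2 * r)) := mul_nonneg hC0 (Real.rpow_nonneg (norm_nonneg _) _)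
    show _ ≤ C * ‖z + eF F x‖ ^ (-(1 + 2 * r)) + if x ∈ hfin.toFinset then B x else 0
    split_ifs with h4
    · exact (hB x s h2).trans (le_add_of_nonneg_left h3)
    · rw [add_zero]
      rw [Set.Finite.mem_toFinset, Set.mem_ofPred_eq, not_lt] at h4
      have h5 := hC s h1 h2 (z + eF F x) h4
      rwa [show (-1 - 2 * r : ℝ) = -(1 + 2 * r) by ring] at h5

/-- Chunk UA2B (M). On the open set U = {s : r < Re s, ‖s‖ < M}, 1/2 < r < M: the terms are bounded by C ‖z + eF F x‖^(-1-2r) (dd_bound) outside the finite set {‖z + eF F x‖ < 1 + 2‖q‖}; for the finitely many other x the term is a continuous function of s on the compact closure (‖s‖ ≤ M): bounded. sum_shift with κ = 1 + 2r > 2.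
differentiableOn_tsum_of_summable_norm, then DifferentiableOn.analyticOnNhd on the open set {1/2 < Re s} (union of the U). -/
theorem dd_analytic (F : Type) [Field F] [NumberField F] [IQ F] (z q : ℂ) :
    (∀ s : ℂ, 1 / 2 < s.re → Summable fun x : 𝓞 F => dd s (z + eF F x) q) ∧
    AnalyticOnNhd ℂ (fun s => ∑' x : 𝓞 F, dd s (z + eF F x) q) {s | 1 / 2 < s.re} := by
  constructor
  · intro s hs
    obtain ⟨u, hu, hb⟩ := ua2b_bd F z q s.re ‖s‖ hs
    exact Summable.of_norm_bounded hu fun x => hb x s le_rfl le_rfl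
  · intro s hs
    have hs' : 1 / 2 < s.re := hs
    obtain ⟨u, hu, hb⟩ := ua2b_bd F z q ((1 / 2 + s.re) / 2) (‖s‖ + 1) (by linarith)
    have hU : IsOpen {t : ℂ | (1 / 2 + s.re) / 2 < t.re ∧ ‖t‖ < ‖s‖ + 1} :=
      (isOpen_lt continuous_const Complex.continuous_re).inter (isOpen_lt continuous_norm continuous_const)
    have hd := Complex.differentiableOn_tsum_of_summable_norm hu
      (fun x => (ua2b_dd (z + eF F x) q).differentiableOn) hU
      (fun x t ht => hb x t ht.1.le ht.2.le)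
    exact hd.analyticAt (hU.mem_nhds ⟨by linarith, by linarith⟩)

end H55K
end

-- from Lib.H55K.UA7
section

/-! # H55K: the value of the L-function -/

open NumberField IsDedekindDomain WeierstrassCurve

namespace H55K

open H55P (IQ embF eF LF Per IsHecke Pt ac Inert Dec Nm)
open H35P (WAB Ker tt)


variable {F : Type} [Field F] [NumberField F] [IQ F]

theorem ua7_ndvd {m : Ideal (𝓞 F)} {ψ : Ideal (𝓞 F) →*₀ 𝓞 F} (hψ : IsHecke m ψ) {μ : 𝓞 F}
    (hμ : Ideal.span {μ} = m) {h : 𝓞 F} (hh : Prm m ψ h) : ¬ μ ∣ h := by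
  intro hd
  apply hψ.ntop
  have h1 := hh.1
  rw [Ideal.isCoprime_iff_sup_eq] at h1
  have h2 : Ideal.span {h} ≤ m := by
    rw [← hμ]
    exact Ideal.span_singleton_le_span_singleton.2 hd
  rw [sup_eq_right.2 h2] at h1
  exact h1

theorem ua7_lat {a : ℕ} (a0 : 1 < a) {μ : 𝓞 F} (hμ0 : μ ≠ 0) (a1 : ∃ k, a = 1 + Nm μ * k) {h : 𝓞 F}
    (hh : ¬ μ ∣ h) (b : 𝓞 F) : eF F h / eF F μ + eF F b / (a : ℂ) ∉ (LF F).lattice := by
  intro hl
  rw [H55P.mem_LF] at hl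
  obtain ⟨y, hy⟩ := hl
  obtain ⟨k, hk⟩ := a1
  have hμ' : eF F μ ≠ 0 := H55P.eF_ne hμ0
  have ha' : (a : ℂ) ≠ 0 := Nat.cast_ne_zero.2 (by omega)
  have h1 : eF F (a * h + μ * b) = eF F (μ * a * y) := by
    simp only [map_add, map_mul, map_natCast]
    field_simp at hy
    linear_combination hy
  have h2 := H55P.eF_inj h1
  have h3 : (a : 𝓞 F) = 1 + μ * cj μ * k := by
    rw [mul_cj, hk]
    push_cast
    rfl
  apply hh
  refine ⟨a * y - b - cj μ * k * h, ?_⟩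
  linear_combination h2 - h * h3

theorem ua7_z {a : ℕ} {μ : 𝓞 F} (hμ0 : μ ≠ 0) (a1 : ∃ k, a = 1 + Nm μ * k) (h : 𝓞 F) :
    ∃ y : 𝓞 F, (a : ℂ) * (eF F h / eF F μ) - eF F h / eF F μ = eF F y := by
  obtain ⟨k, hk⟩ := a1
  have hμ' : eF F μ ≠ 0 := H55P.eF_ne hμ0
  have e1 : eF F μ * eF F (cj μ) = (Nm μ : ℂ) := by rw [← map_mul, mul_cj, map_natCast]
  have e2 : (a : ℂ) = 1 + Nm μ * k := by
    rw [hk]
    push_cast
    rfl
  refine ⟨cj μ * k * h, ?_⟩
  rw [map_mul, map_mul, map_natCast, e2, ← e1]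
  field_simp
  ring

theorem ua7_cpow (c : ℂ) (hc : c ≠ 0) : AnalyticOnNhd ℂ (fun s : ℂ => c ^ (2 * s - 1)) {s | 1 / 2 < s.re} := by
  have h1 : Differentiable ℂ fun s : ℂ => c ^ (2 * s - 1) := fun s =>
    (((differentiableAt_id.const_mul 2).sub_const 1).const_cpow (Or.inl hc) :
      DifferentiableAt ℂ (fun s : ℂ => c ^ (2 * s - 1)) s)
  exact fun s _ => h1.analyticAt s

theorem ua7_cpow' (c : ℂ) (hc : c ≠ 0) : AnalyticOnNhd ℂ (fun s : ℂ => c ^ s) {s | 1 / 2 < s.re} := by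
  have h1 : Differentiable ℂ fun s : ℂ => c ^ s := fun s =>
    (differentiableAt_id.const_cpow (Or.inl hc) : DifferentiableAt ℂ (fun s : ℂ => c ^ s) s)
  exact fun s _ => h1.analyticAt s

theorem ua7_sum {ι : Type} (S : Finset ι) {f : ι → ℂ → ℂ} (hf : ∀ i ∈ S, AnalyticOnNhd ℂ (f i) {s | 1 / 2 < s.re}) :
    AnalyticOnNhd ℂ (fun s => ∑ i ∈ S, f i s) {s | 1 / 2 < s.re} := by
  classical
  induction S using Finset.induction_on with
  | empty =>
    simp only [Finset.sum_empty]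
    exact analyticOnNhd_const
  | insert i S hi ih =>
    simp only [Finset.sum_insert hi]
    exact (hf i (Finset.mem_insert_self i S)).add (ih fun j hj => hf j (Finset.mem_insert_of_mem hj))

/-- Identity theorem on a half plane. -/
theorem ua7_ident (A B : ℂ → ℂ) (hA : AnalyticOnNhd ℂ A {s | 1 / 2 < s.re})
    (hB : AnalyticOnNhd ℂ B {s | 1 / 2 < s.re}) (h : ∀ s : ℂ, 3 / 2 < s.re → A s = B s) (s : ℂ)
    (hs : 1 / 2 < s.re) : A s = B s := by
  have h1 : (2 : ℂ) ∈ {s : ℂ | 1 / 2 < s.re} := by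
    change 1 / 2 < (2 : ℂ).re
    norm_num
  have h2 : A =ᶠ[nhds (2 : ℂ)] B := by
    have h3 : {s : ℂ | 3 / 2 < s.re} ∈ nhds (2 : ℂ) :=
      (isOpen_lt continuous_const Complex.continuous_re).mem_nhds (by
        change 3 / 2 < (2 : ℂ).re
        norm_num)
    filter_upwards [h3] with z hz
    exact h z hz
  exact hA.eqOn_of_preconnected_of_eventuallyEq hB (convex_halfSpace_re_gt (1 / 2)).isPreconnected h1 h2 hs

open Classical in
/-- Chunk UA7 (M). G(s) = sum over h in H, b in R.erase 0 of the sum over x of dd s (h/μ + x) (b/a) is analytic for Re s > 1/2 (dd_analytic) and equals 2 (a^(2s-1) - a^2) (Nm μ)^s / conj μ * Λ(s) for Re s > 3/2 (dd_dist with z = h/μ: (a - 1) h/μ = Nm μ k h/μ = cj μ k h in 𝓞 F by mul_cj; Ff_ray). Both sides are analytic on the connected set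
{1/2 < Re s} (identity theorem: H55N.ident / AnalyticOnNhd.eqOn_of_preconnected_of_eventuallyEq; see H55P.gen_glue), so they agree at s = 1: the right side is 2 (a - a^2) μ Λ(1) (Nm μ = μ cj μ, e_cj). Left side: dd_one for z = h/μ, q = b/a: z, q, z ± q are not in the lattice (mem_LF; μ does not divide h because h is prime to m ≠ top; a does not divide b;
if h/μ ± b/a = y then a h = μ (a y -+ b), so μ divides h since μ and a are coprime: a = 1 + Nm μ k, Nm μ = μ cj μ) and H35P.wp_ne: the difference of the values of the Weierstrass function is not 0, so the inner sum is the quotient. -/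
theorem L_val {m : Ideal (𝓞 F)} {ψ : Ideal (𝓞 F) →*₀ 𝓞 F} (hψ : IsHecke m ψ) {μ : 𝓞 F}
    (hμ : Ideal.span {μ} = m) {H : Finset (𝓞 F)} (hH : HRep m ψ μ H) {a : ℕ} (a0 : 1 < a)
    (a1 : ∃ k, a = 1 + Nm μ * k) {R : Finset (𝓞 F)} (hR : Rep (a : 𝓞 F) R) {l : ℕ} {Om : ℂ} {Λ : ℂ → ℂ}
    (hΛ : LU l Om ψ Λ) :
    ∑ h ∈ H, ∑ b ∈ R.erase 0, (LF F).derivWeierstrassP (eF F h / eF F μ) /
      ((LF F).weierstrassP (eF F h / eF F μ) - (LF F).weierstrassP (eF F b / (a : ℂ))) =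
      2 * (a * (1 - a)) * eF F μ * Λ 1 := by
  have hμ0 : μ ≠ 0 := by
    rintro rfl
    apply hψ.ne
    rw [← hμ, Ideal.span_singleton_eq_bot]
  have hμ' : eF F μ ≠ 0 := H55P.eF_ne hμ0
  have hcμ : (starRingEnd ℂ) (eF F μ) ≠ 0 := (map_ne_zero _).2 hμ'
  have ha : a ≠ 0 := by omega
  have ha' : (a : ℂ) ≠ 0 := Nat.cast_ne_zero.2 ha
  have hN : (Nm μ : ℂ) = eF F μ * (starRingEnd ℂ) (eF F μ) := by
    rw [← e_cj, ← map_mul, mul_cj, map_natCast]
  have hN0 : (Nm μ : ℂ) ≠ 0 := by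
    rw [hN]
    exact mul_ne_zero hμ' hcμ
  have hG : ∀ s : ℂ, 3 / 2 < s.re → ∑ h ∈ H, ∑ b ∈ R.erase 0, ∑' x : 𝓞 F,
      dd s (eF F h / eF F μ + eF F x) (eF F b / (a : ℂ)) =
      2 * ((a : ℂ) ^ (2 * s - 1) - (a : ℂ) ^ 2) * ((Nm μ : ℂ) ^ s / (starRingEnd ℂ) (eF F μ) * Λ s) := by
    intro s hs
    rw [← Ff_ray hψ μ hμ H hH s (Λ s) hs (hΛ.sum s hs), Finset.mul_sum]
    exact Finset.sum_congr rfl fun h _ => dd_dist F a ha R hR _ s hs (ua7_z hμ0 a1 h)
  have hA1 : AnalyticOnNhd ℂ (fun s : ℂ => ∑ h ∈ H, ∑ b ∈ R.erase 0, ∑' x : 𝓞 F,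
      dd s (eF F h / eF F μ + eF F x) (eF F b / (a : ℂ))) {s | 1 / 2 < s.re} :=
    ua7_sum H fun h _ => ua7_sum (R.erase 0) fun b _ => (dd_analytic F _ _).2
  have hA2 : AnalyticOnNhd ℂ (fun s : ℂ => 2 * ((a : ℂ) ^ (2 * s - 1) - (a : ℂ) ^ 2) *
      ((Nm μ : ℂ) ^ s / (starRingEnd ℂ) (eF F μ) * Λ s)) {s | 1 / 2 < s.re} := by
    refine (analyticOnNhd_const.mul ((ua7_cpow _ ha').sub analyticOnNhd_const)).mul (AnalyticOnNhd.mul ?_ hΛ.an)
    simp only [div_eq_mul_inv]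
    exact (ua7_cpow' _ hN0).mul analyticOnNhd_const
  have hkey := ua7_ident _ _ hA1 hA2 hG 1 (by norm_num)
  have hterm : ∀ h ∈ H, ∀ b ∈ R.erase 0, (LF F).derivWeierstrassP (eF F h / eF F μ) /
      ((LF F).weierstrassP (eF F h / eF F μ) - (LF F).weierstrassP (eF F b / (a : ℂ))) =
      ∑' x : 𝓞 F, dd 1 (eF F h / eF F μ + eF F x) (eF F b / (a : ℂ)) := by
    intro h hh b hb
    have hnd := ua7_ndvd hψ hμ (hH.prm h hh)
    have hz : eF F h / eF F μ ∉ (LF F).lattice := by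
      have h1 := ua7_lat a0 hμ0 a1 hnd 0
      rwa [map_zero, zero_div, add_zero] at h1
    have hq : eF F b / (a : ℂ) ∉ (LF F).lattice := by
      rw [H55P.mem_LF]
      rintro ⟨y, hy⟩
      rw [div_eq_iff ha'] at hy
      have h1 : eF F b = eF F (y * a) := by rw [map_mul, map_natCast, hy]
      have h2 := H55P.eF_inj h1
      rw [Finset.mem_erase] at hb
      exact hb.1 (hR.un b hb.2 0 hR.zero ⟨y, by rw [h2]; ring⟩)
    have hp := ua7_lat a0 hμ0 a1 hnd b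
    have hm : eF F h / eF F μ - eF F b / (a : ℂ) ∉ (LF F).lattice := by
      have h1 := ua7_lat a0 hμ0 a1 hnd (-b)
      rwa [map_neg, neg_div, ← sub_eq_add_neg] at h1
    have hne := H35P.wp_ne (LF F) _ _ hz hq hp hm
    rw [← dd_one F _ _ hz hq hp hm, mul_div_assoc, div_self (sub_ne_zero.2 hne), mul_one]
  rw [Finset.sum_congr rfl fun h hh => Finset.sum_congr rfl fun b hb => hterm h hh b hb]
  rw [hkey, Complex.cpow_one, hN]
  have e3 : (2 * 1 - 1 : ℂ) = 1 := by norm_num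
  rw [e3, Complex.cpow_one]
  field_simp

end H55K
end

-- from Lib.H55K.UB8
section

/-! # H55K: elliptic units: the expansion -/

open NumberField IsDedekindDomain WeierstrassCurve

namespace H55K

open H55P (IQ embF eF LF Per IsHecke Pt ac Inert Dec Nm)
open H35P (WAB Ker tt)


variable {F : Type} [Field F] [NumberField F] [IQ F] {A B : F} {Om : ℂ} {Ω : Type} [Field Ω] [DecidableEq Ω]
  [Algebra F Ω] {j : Ω →+* ℂ} {act : 𝓞 F →+* AddMonoid.End (Pt (WAB A B) Ω)} {m : Ideal (𝓞 F)}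
  {ψ : Ideal (𝓞 F) →*₀ 𝓞 F} {l : ℕ} {μ : 𝓞 F} {a : ℕ} {ρ τ : Pt (WAB A B) Ω} {H R : Finset (𝓞 F)}
  {D S : Finset (Pt (WAB A B) Ω)}

/-- The coefficient of the expansion. -/
noncomputable def cU (D S : Finset (Pt (WAB A B) Ω)) : Ω := 4 * ∑ X ∈ D, ∑ Q ∈ S, yc X / (xc X - xc Q)

theorem ub8_prod {k ι : Type} [Field k] {Γ : Type} [LinearOrderedCommGroupWithZero Γ] (v : Valuation k Γ)
    {t : k} (ht : v t ≤ 1) (s : Finset ι) (f c : ι → k) (hf : ∀ i ∈ s, v (f i - 1 + c i * t) ≤ v t ^ 2)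
    (hc : ∀ i ∈ s, v (c i) ≤ 1) :
    v (∏ i ∈ s, f i - 1 + (∑ i ∈ s, c i) * t) ≤ v t ^ 2 ∧ v (∑ i ∈ s, c i) ≤ 1 := by
  classical
  induction s using Finset.induction_on with
  | empty =>
    rw [Finset.prod_empty, Finset.sum_empty, sub_self, zero_mul, add_zero, map_zero]
    exact ⟨zero_le, zero_le⟩
  | insert i s hi ih =>
    obtain ⟨h1, h2⟩ := ih (fun j hj => hf j (Finset.mem_insert_of_mem hj))
      (fun j hj => hc j (Finset.mem_insert_of_mem hj))
    have h3 := hf i (Finset.mem_insert_self i s)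
    have h4 := hc i (Finset.mem_insert_self i s)
    rw [Finset.prod_insert hi, Finset.sum_insert hi]
    refine ⟨?_, (v.map_add _ _).trans (max_le h4 h2)⟩
    obtain ⟨p, hp⟩ : ∃ p, p = ∏ j ∈ s, f j := ⟨_, rfl⟩
    obtain ⟨b, hb⟩ : ∃ b, b = ∑ j ∈ s, c j := ⟨_, rfl⟩
    rw [← hp, ← hb] at h1 ⊢
    rw [← hb] at h2
    have ht2 : v t ^ 2 ≤ 1 := pow_le_one₀ zero_le ht
    have e : f i * p - 1 + (c i + b) * t = (c i * b) * t ^ 2 + (f i - 1 + c i * t) * (1 - b * t) +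
        (p - 1 + b * t) * (1 - c i * t) + (f i - 1 + c i * t) * (p - 1 + b * t) := by ring
    have hone : ∀ x : k, v x ≤ 1 → v (1 - x * t) ≤ 1 := by
      intro x hx
      refine (v.map_sub _ _).trans (max_le (map_one v).le ?_)
      rw [map_mul]
      exact mul_le_one₀ hx zero_le ht
    rw [e]
    refine (v.map_add _ _).trans (max_le ((v.map_add _ _).trans (max_le ((v.map_add _ _).trans (max_le ?_ ?_)) ?_)) ?_)
    · rw [map_mul, map_mul, map_pow]
      exact mul_le_of_le_one_left zero_le (mul_le_one₀ h4 zero_le h2)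
    · rw [map_mul]
      exact (mul_le_of_le_one_right zero_le (hone b h2)).trans h3
    · rw [map_mul]
      exact (mul_le_of_le_one_right zero_le (hone (c i) h4)).trans h1
    · rw [map_mul]
      exact (mul_le_of_le_one_right zero_le (h1.trans ht2)).trans h3

theorem ub8_one {k : Type} [Field k] {Γ : Type} [LinearOrderedCommGroupWithZero Γ] (v : Valuation k Γ)
    {t u y x₁ x₂ q x : k} (ht : v t < 1) (hu : v u = 1) (hy : v y ≤ 1) (h8 : v (2 : k) ≤ 1)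
    (h1 : v (x₁ - x + 2 * y * t) ≤ v t ^ 2) (h2 : v (x₂ - x + 2 * y * -t) ≤ v t ^ 2) (hx : u = x - q) :
    v ((x₁ - q) / (x₂ - q) - 1 + 4 * (y / u) * t) ≤ v t ^ 2 ∧ v (4 * (y / u)) ≤ 1 := by
  have h4 : v (4 : k) ≤ 1 := by
    have e : (4 : k) = 2 * 2 := by norm_num
    rw [e, map_mul]
    exact mul_le_one₀ h8 zero_le h8
  have hyu : v (y / u) ≤ 1 := by
    rw [map_div₀, hu, div_one]
    exact hy
  have hc : v (4 * (y / u)) ≤ 1 := by
    rw [map_mul]
    exact mul_le_one₀ h4 zero_le hyu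
  refine ⟨?_, hc⟩
  have hu0 : u ≠ 0 := by
    rintro rfl
    rw [map_zero] at hu
    exact zero_ne_one hu
  have ht2 : v t ^ 2 < 1 := pow_lt_one₀ zero_le ht (by norm_num)
  obtain ⟨e₁, he₁⟩ : ∃ e, e = x₁ - x + 2 * y * t := ⟨_, rfl⟩
  obtain ⟨e₂, he₂⟩ : ∃ e, e = x₂ - x + 2 * y * -t := ⟨_, rfl⟩
  rw [← he₁] at h1
  rw [← he₂] at h2
  have hD : x₂ - q = (2 * y * t + e₂) + u := by
    rw [he₂, hx]
    ring
  have hN : x₁ - q = u - 2 * y * t + e₁ := by
    rw [he₁, hx]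
    ring
  have h2yt : v (2 * y * t) < 1 := by
    rw [map_mul]
    refine lt_of_le_of_lt (mul_le_of_le_one_left zero_le ?_) ht
    rw [map_mul]
    exact mul_le_one₀ h8 zero_le hy
  have hDv : v (x₂ - q) = 1 := by
    rw [hD, v.map_add_eq_of_lt_right]
    · exact hu
    · rw [hu]
      exact v.map_add_lt h2yt (h2.trans_lt ht2)
  have hD0 : x₂ - q ≠ 0 := by
    intro h0
    rw [h0, map_zero] at hDv
    exact zero_ne_one hDv
  have e : (x₁ - q) / (x₂ - q) - 1 + 4 * (y / u) * t =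
      (e₁ - e₂ + (4 * (y / u)) * (2 * y) * t ^ 2 + (4 * (y / u)) * t * e₂) / (x₂ - q) := by
    rw [eq_div_iff hD0]
    have e0 : (x₁ - q) / (x₂ - q) * (x₂ - q) = x₁ - q := div_mul_cancel₀ _ hD0
    have e1 : ((x₁ - q) / (x₂ - q) - 1 + 4 * (y / u) * t) * (x₂ - q) =
        (x₁ - q) / (x₂ - q) * (x₂ - q) + (-1 + 4 * (y / u) * t) * (x₂ - q) := by ring
    rw [e1, e0, hN, hD]
    have e2 : y / u * u = y := div_mul_cancel₀ _ hu0
    linear_combination 4 * t * e2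
  rw [e, map_div₀, hDv, div_one]
  refine (v.map_add _ _).trans (max_le ((v.map_add _ _).trans (max_le ((v.map_sub _ _).trans (max_le h1 h2)) ?_)) ?_)
  · rw [map_mul, map_pow]
    refine mul_le_of_le_one_left zero_le ?_
    rw [map_mul]
    refine mul_le_one₀ hc zero_le ?_
    rw [map_mul]
    exact mul_le_one₀ h8 zero_le hy
  · rw [map_mul]
    refine (mul_le_of_le_one_left zero_le ?_).trans h2
    rw [map_mul]
    exact mul_le_one₀ hc zero_le ht.le

theorem ub8_nat {Ω : Type} [Field Ω] {V : ValuationSubring Ω} {n l : ℕ} (h : Nat.Coprime n l)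
    (hl : V.valuation (l : Ω) < 1) : V.valuation (n : Ω) = 1 := by
  have hle : ∀ z : ℤ, V.valuation (z : Ω) ≤ 1 := fun z => (V.valuation_le_one_iff _).2 (intCast_mem V z)
  have hln : V.valuation (n : Ω) ≤ 1 := (V.valuation_le_one_iff _).2 (natCast_mem V n)
  refine le_antisymm hln ?_
  by_contra hcon
  rw [not_le] at hcon
  obtain ⟨u, w, huw⟩ := Nat.isCoprime_iff_coprime.2 h
  have h1 : ((u : Ω) * (n : Ω) + (w : Ω) * (l : Ω)) = 1 := by exact_mod_cast congrArg (Int.cast (R := Ω)) huw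
  have h2 : V.valuation ((u : Ω) * (n : Ω) + (w : Ω) * (l : Ω)) < 1 := by
    refine V.valuation.map_add_lt ?_ ?_
    · rw [map_mul, mul_comm]
      exact mul_lt_one_of_lt_of_le hcon (hle u)
    · rw [map_mul, mul_comm]
      exact mul_lt_one_of_lt_of_le hl (hle w)
  rw [h1, map_one] at h2
  exact lt_irrefl _ h2

/-- Chunk UB8 (M). V(l) < 1: V good (h.good), V(Nm μ) = 1 = V(a) (cop; a = 2 + l k, V(2) = 1). For X in D, Q in S: X, Q, X + Q, X - Q are not in Ker (ker_tors: killed by Nm μ * a, a multiple is X ≠ 0 or Q ≠ 0, coprime orders), V(xc X - xc Q) = 1 (cls_diff). t = tt T, V(t) < 1. transl: xc (X + T) = xc X - 2 yc X t + O(t^2),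
xc (X - T) = xc X + 2 yc X t + O(t^2) (tt_neg), so (xc (X + T) - xc Q)/(xc (X - T) - xc Q) = 1 - 4 yc X/(xc X - xc Q) t + O(t^2). Product over D × S: 1 - cU t + O(t^2) (induction over finite sets: (1 + a t + O(t^2))(1 + b t + O(t^2)), a, b integral). O(t^2) means value ≤ V(t)^2. -/
theorem Xi_exp (h : Dta A B Om j act m ψ l) (hU : UDat Om j act m ψ l μ a ρ τ H R D S)
    {V : ValuationSubring Ω} (hV : V.valuation (l : Ω) < 1) {T : Pt (WAB A B) Ω} (hT : Ker V T) :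
    V.valuation (Xi D S T - 1 + cU D S * tt T) ≤ V.valuation (tt T) ^ 2 := by
  have hG : GV A B V := h.good V hV
  have hN : V.valuation ((Nm μ : ℕ) : Ω) = 1 := ub8_nat hU.cop hV
  have ha : V.valuation (a : Ω) = 1 := by
    obtain ⟨k, hk⟩ := hU.a2
    have e : (a : Ω) = (l : Ω) * (k : Ω) + 2 := by
      rw [hk]
      push_cast
      ring
    rw [e, V.valuation.map_add_eq_of_lt_right]
    · exact hG.two
    · rw [hG.two, map_mul]
      exact mul_lt_one_of_lt_of_le hV ((V.valuation_le_one_iff _).2 (natCast_mem V k))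
  have hcop : Nat.Coprime a (Nm μ) := by
    obtain ⟨k, hk⟩ := hU.a1
    rw [hk]
    simp
  have hNa : V.valuation ((Nm μ * a : ℕ) : Ω) = 1 := by
    rw [Nat.cast_mul, map_mul, hN, ha, mul_one]
  have ht : V.valuation (tt T) < 1 := ttlt hG hT
  have h2le : V.valuation (2 : Ω) ≤ 1 := hG.two.le
  have hnX : ∀ X ∈ D, ¬ Ker V X := by
    intro X hX hK
    obtain ⟨h0, h1⟩ := D_ne h hU hX
    exact h0 (ker_tors hG _ hN h1 hK)
  have hnQ : ∀ Q ∈ S, ¬ Ker V Q := by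
    intro Q hQ hK
    obtain ⟨h0, h1⟩ := S_ne hU hQ
    exact h0 (ker_tors hG _ ha h1 hK)
  have hpm : ∀ X ∈ D, ∀ Q ∈ S, ¬ Ker V (X - Q) ∧ ¬ Ker V (X + Q) := by
    intro X hX Q hQ
    obtain ⟨hX0, hX1⟩ := D_ne h hU hX
    obtain ⟨hQ0, hQ1⟩ := S_ne hU hQ
    have hXa : (Nm μ * a) • X = 0 := by rw [mul_comm, mul_smul, hX1, smul_zero]
    have hQa : (Nm μ * a) • Q = 0 := by rw [mul_smul, hQ1, smul_zero]
    constructor
    · intro hK
      have h3 := ker_tors hG _ hNa (by rw [smul_sub, hXa, hQa, sub_zero]) hK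
      have h4 : X = Q := sub_eq_zero.1 h3
      exact hX0 (cop_zero hcop (by rw [h4]; exact hQ1) hX1)
    · intro hK
      have h3 := ker_tors hG _ hNa (by rw [smul_add, hXa, hQa, add_zero]) hK
      have h4 : X = -Q := eq_neg_of_add_eq_zero_left h3
      exact hX0 (cop_zero hcop (by rw [h4, smul_neg, hQ1, neg_zero]) hX1)
  have hone : ∀ X ∈ D, ∀ Q ∈ S,
      V.valuation ((xc (X + T) - xc Q) / (xc (X - T) - xc Q) - 1 + 4 * (yc X / (xc X - xc Q)) * tt T) ≤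
        V.valuation (tt T) ^ 2 ∧ V.valuation (4 * (yc X / (xc X - xc Q))) ≤ 1 := by
    intro X hX Q hQ
    obtain ⟨h5, h6⟩ := hpm X hX Q hQ
    have hu := cls_diff hG (hnX X hX) (hnQ Q hQ) h5 h6
    obtain ⟨-, t1, -⟩ := transl hG (hnX X hX) hT
    obtain ⟨-, t2, -⟩ := transl hG (hnX X hX) (kneg hT)
    rw [tt_neg, Valuation.map_neg, ← sub_eq_add_neg X] at t2
    exact ub8_one V.valuation ht hu (gv_y hG (hnX X hX)) h2le t1 t2 rfl
  have hin : ∀ X ∈ D, V.valuation (Phi S (X + T) / Phi S (X - T) - 1 +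
      (∑ Q ∈ S, 4 * (yc X / (xc X - xc Q))) * tt T) ≤ V.valuation (tt T) ^ 2 ∧
      V.valuation (∑ Q ∈ S, 4 * (yc X / (xc X - xc Q))) ≤ 1 := by
    intro X hX
    unfold Phi
    rw [← Finset.prod_div_distrib]
    exact ub8_prod V.valuation ht.le S _ _ (fun Q hQ => (hone X hX Q hQ).1) (fun Q hQ => (hone X hX Q hQ).2)
  have hfin := ub8_prod V.valuation ht.le D _ _ (fun X hX => (hin X hX).1) (fun X hX => (hin X hX).2)
  have e : cU D S = ∑ X ∈ D, ∑ Q ∈ S, 4 * (yc X / (xc X - xc Q)) := by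
    unfold cU
    simp only [Finset.mul_sum]
  rw [e]
  exact hfin.1

end H55K
end

-- from Lib.H55K.UB9B
section

/-! # H55K: elliptic units: the coefficient -/

open NumberField IsDedekindDomain WeierstrassCurve

namespace H55K

open H55P (IQ embF eF LF Per IsHecke Pt ac Inert Dec Nm)
open H35P (WAB Ker tt)


variable {F : Type} [Field F] [NumberField F] [IQ F] {A B : F} {Om : ℂ} {Ω : Type} [Field Ω] [DecidableEq Ω]
  [Algebra F Ω] {j : Ω →+* ℂ} {act : 𝓞 F →+* AddMonoid.End (Pt (WAB A B) Ω)} {m : Ideal (𝓞 F)}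
  {ψ : Ideal (𝓞 F) →*₀ 𝓞 F} {l : ℕ} {μ : 𝓞 F} {a : ℕ} {ρ τ : Pt (WAB A B) Ω} {H R : Finset (𝓞 F)}
  {D S : Finset (Pt (WAB A B) Ω)}

theorem ub9_alg (p u w Om : ℂ) (hO : Om ≠ 0) :
    p / (2 * Om ^ 3) / (u / Om ^ 2 - w / Om ^ 2) = 1 / (2 * Om) * (p / (u - w)) := by
  rw [← sub_div]
  by_cases h : u - w = 0
  · rw [h, zero_div, div_zero, div_zero, mul_zero]
  · field_simp

omit [NumberField F] [IQ F] in
theorem ub9_sub {b c : 𝓞 F} {P : Pt (WAB A B) Ω} (h : act b P = act c P) : act (b - c) P = 0 := by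
  have h1 : act (b - c) P = act b P - act c P := by
    rw [map_sub]
    rfl
  rw [h1, h, sub_self]

/-- Chunk UB9B (S/M). The sums over D and S as sums over H and R.erase 0 (memD', memS': the maps h ↦ act h ρ on H and b ↦ act b τ on R.erase 0 are injective by HRep.un, Rep.un, rho0, tau), rhox, taux; L_val: 4 * (1/(2 Om)) * 2 a (1 - a) μ Λ(1). -/
theorem cU_val (h : Dta A B Om j act m ψ l) (hU : UDat Om j act m ψ l μ a ρ τ H R D S) {Λ : ℂ → ℂ}
    (hΛ : LU l Om ψ Λ) : j (cU D S) = 4 * (a * (1 - a)) * eF F μ * (Λ 1 / Om) := by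
  classical
  have hOm : Om ≠ 0 := h.cma.per.ne
  have hD : D = H.image fun x => act x ρ := by
    ext X
    rw [hU.memD' X, Finset.mem_image]
    exact ⟨fun ⟨x, hx, hX⟩ => ⟨x, hx, hX.symm⟩, fun ⟨x, hx, hX⟩ => ⟨x, hx, hX.symm⟩⟩
  have hS : S = (R.erase 0).image fun b => act b τ := by
    ext Q
    rw [hU.memS' Q, Finset.mem_image]
    constructor
    · rintro ⟨b, hb, hb0, hQ⟩
      exact ⟨b, Finset.mem_erase.2 ⟨hb0, hb⟩, hQ.symm⟩
    · rintro ⟨b, hb, hQ⟩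
      exact ⟨b, (Finset.mem_erase.1 hb).2, (Finset.mem_erase.1 hb).1, hQ.symm⟩
  have hDi : Set.InjOn (fun x => act x ρ) (H : Set (𝓞 F)) := by
    intro x hx y hy hxy
    exact hU.hrep.un x hx y hy ((hU.rho0 _).1 (ub9_sub hxy))
  have hSi : Set.InjOn (fun b => act b τ) ((R.erase 0 : Finset (𝓞 F)) : Set (𝓞 F)) := by
    intro x hx y hy hxy
    exact hU.rep.un x (Finset.mem_erase.1 hx).2 y (Finset.mem_erase.1 hy).2 ((hU.tau _).1 (ub9_sub hxy))
  have hsum : ∑ X ∈ D, ∑ Q ∈ S, j (yc X) / (j (xc X) - j (xc Q)) =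
      ∑ x ∈ H, ∑ b ∈ R.erase 0, 1 / (2 * Om) * ((LF F).derivWeierstrassP (eF F x / eF F μ) /
        ((LF F).weierstrassP (eF F x / eF F μ) - (LF F).weierstrassP (eF F b / (a : ℂ)))) := by
    rw [hD, hS, Finset.sum_image hDi]
    apply Finset.sum_congr rfl
    intro x hx
    rw [Finset.sum_image hSi]
    apply Finset.sum_congr rfl
    intro b hb
    have h1 : ¬ μ ∣ x := ua7_ndvd h.hecke hU.mu (hU.hrep.prm x hx)
    have h2 : ¬ (a : 𝓞 F) ∣ b := by
      intro h3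
      exact (Finset.mem_erase.1 hb).1 (hU.rep.un b (Finset.mem_erase.1 hb).2 0 hU.rep.zero (by rwa [sub_zero]))
    obtain ⟨e1, e2⟩ := hU.rhox x h1
    rw [e1, e2, hU.taux b h2]
    exact ub9_alg _ _ _ _ hOm
  have hL := L_val h.hecke hU.mu hU.hrep hU.a0 hU.a1 hU.rep hΛ
  unfold cU
  rw [map_mul, map_ofNat, map_sum]
  simp only [map_sum, map_div₀, map_sub]
  rw [hsum]
  simp only [← Finset.mul_sum]
  rw [hL]
  field_simp

end H55K
end

-- from Lib.H55K.UB9C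
section

/-! # H55K: elliptic units: the coefficient -/

open NumberField IsDedekindDomain WeierstrassCurve

namespace H55K

open H55P (IQ embF eF LF Per IsHecke Pt ac Inert Dec Nm)
open H35P (WAB Ker tt)


variable {F : Type} [Field F] [NumberField F] [IQ F] {A B : F} {Om : ℂ} {Ω : Type} [Field Ω] [DecidableEq Ω]
  [Algebra F Ω] {j : Ω →+* ℂ} {act : 𝓞 F →+* AddMonoid.End (Pt (WAB A B) Ω)} {m : Ideal (𝓞 F)}
  {ψ : Ideal (𝓞 F) →*₀ 𝓞 F} {l : ℕ} {μ : 𝓞 F} {a : ℕ} {ρ τ : Pt (WAB A B) Ω} {H R : Finset (𝓞 F)}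
  {D S : Finset (Pt (WAB A B) Ω)}

theorem ub9c_lt {L : Type} [Field L] (W : ValuationSubring L) {y : L} (hy : y ≠ 0) :
    W.valuation y < 1 ↔ y⁻¹ ∉ W := by
  rw [← W.valuation_le_one_iff, not_le, map_inv₀, one_lt_inv₀]
  exact zero_lt_iff.2 ((Valuation.ne_zero_iff _).2 hy)

omit [DecidableEq Ω] [Algebra F Ω] in
/-- Chunk UB9C (S/M). The image of V in the subfield j(Ω) is a valuation ring; it is dominated by a valuation ring of ℂ (LocalSubring.exists_le_valuationSubring or H13S.exists_above, H55P.exists_above_p for the style), whose intersection with j(Ω) is V (a valuation ring is maximal for domination). -/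
theorem exists_ext {Ω : Type} [Field Ω] (j : Ω →+* ℂ) (V : ValuationSubring Ω) : ∃ V' : ValuationSubring ℂ,
    ∀ x : Ω, (j x ∈ V' ↔ x ∈ V) ∧ (V'.valuation (j x) < 1 ↔ V.valuation x < 1) := by
  obtain ⟨V', hV'⟩ := (V.toLocalSubring.map j).exists_le_valuationSubring
  obtain ⟨h1, h2⟩ := LocalSubring.le_def.1 hV'
  have hmem : ∀ x : Ω, j x ∈ V' ↔ x ∈ V := by
    intro x
    refine ⟨fun hx => ?_, fun hx => h1 ⟨x, hx, rfl⟩⟩
    by_contra hc
    have hx0 : x ≠ 0 := by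
      rintro rfl
      exact hc V.zero_mem
    have hi : x⁻¹ ∈ V := (V.mem_or_inv_mem x).resolve_left hc
    have hm : j x⁻¹ ∈ (V.toLocalSubring.map j).toSubring := ⟨x⁻¹, hi, rfl⟩
    have hu : IsUnit (Subring.inclusion h1 ⟨j x⁻¹, hm⟩) := by
      refine isUnit_iff_exists_inv.2 ⟨⟨j x, hx⟩, Subtype.ext ?_⟩
      show j x⁻¹ * j x = 1
      rw [← map_mul, inv_mul_cancel₀ hx0, map_one]
    obtain ⟨⟨b, hb⟩, hb1⟩ := isUnit_iff_exists_inv.1 (h2.map_nonunit _ hu)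
    obtain ⟨z, hz, rfl⟩ := hb
    have h3 : j (x⁻¹ * z) = j 1 := by
      rw [map_mul, map_one]
      exact congrArg Subtype.val hb1
    have h4 : x⁻¹ * z = 1 := j.injective h3
    have h5 : z = x := by
      rw [inv_mul_eq_iff_eq_mul₀ hx0, mul_one] at h4
      exact h4
    rw [h5] at hz
    exact hc hz
  refine ⟨V', fun x => ⟨hmem x, ?_⟩⟩
  rcases eq_or_ne x 0 with rfl | hx0
  · simp
  · rw [ub9c_lt V hx0, ub9c_lt V' (fun h => hx0 (j.injective (by rw [h, map_zero]))), ← map_inv₀, hmem]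

/-- Chunk UB9C. V' from exists_ext: V'(l) < 1, so hΛ.val; V'(4) = V'(a) = V'(1 - a) = 1 (a = 2 + l k, l odd), V'(eF F μ) = 1 (h.cma.ovr: eF F μ = j (ak Ω μ); μ * cj μ = Nm μ is prime to l). So V'(j cU) = 1, V(cU) = 1. -/
theorem cU_unit (h : Dta A B Om j act m ψ l) (hU : UDat Om j act m ψ l μ a ρ τ H R D S) {Λ : ℂ → ℂ}
    (hΛ : LU l Om ψ Λ) {V : ValuationSubring Ω} (hV : V.valuation (l : Ω) < 1) :
    V.valuation (cU D S) = 1 := by
  obtain ⟨V', hV'⟩ := exists_ext j V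
  have hl : V'.valuation (l : ℂ) < 1 := by
    have := (hV' (l : Ω)).2.2 hV
    rwa [map_natCast] at this
  have hint : ∀ z : ℤ, V'.valuation (z : ℂ) ≤ 1 := by
    intro z
    rw [V'.valuation_le_one_iff]
    exact intCast_mem V' z
  have hun : ∀ z : ℤ, ¬ (l : ℤ) ∣ z → V'.valuation (z : ℂ) = 1 := by
    intro z hz
    refine le_antisymm (hint z) (not_lt.1 fun hlt => ?_)
    obtain ⟨x, y, hxy⟩ := (Nat.prime_iff_prime_int.1 h.prime).coprime_iff_not_dvd.2 hz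
    have e : (1 : ℂ) = (x : ℂ) * (l : ℂ) + (y : ℂ) * (z : ℂ) := by
      have := congrArg (fun t : ℤ => (t : ℂ)) hxy
      push_cast at this
      exact this.symm
    have h1 : V'.valuation (1 : ℂ) < 1 := by
      rw [e]
      refine lt_of_le_of_lt (V'.valuation.map_add _ _) (max_lt ?_ ?_)
      · rw [map_mul]
        exact lt_of_le_of_lt (mul_le_of_le_one_left' (hint x)) hl
      · rw [map_mul]
        exact lt_of_le_of_lt (mul_le_of_le_one_left' (hint y)) hlt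
    rw [map_one] at h1
    exact lt_irrefl _ h1
  have h5 := h.five
  have hlodd : ¬ (l : ℤ) ∣ 2 := by
    intro hd
    have := Int.le_of_dvd (by norm_num) hd
    omega
  have h4 : V'.valuation (4 : ℂ) = 1 := by
    have := hun 4 (by
      intro hd
      have := Int.le_of_dvd (by norm_num) hd
      omega)
    exact_mod_cast this
  obtain ⟨k, hk⟩ := hU.a2
  have ha : V'.valuation (a : ℂ) = 1 := by
    have := hun a (by
      intro hd
      apply hlodd
      have e : (2 : ℤ) = (a : ℤ) - l * k := by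
        rw [hk]
        push_cast
        ring
      rw [e]
      exact dvd_sub hd (dvd_mul_right _ _))
    exact_mod_cast this
  have ha1 : V'.valuation (1 - (a : ℂ)) = 1 := by
    have := hun (1 - a) (by
      intro hd
      have e : (1 : ℤ) = -(1 - (a : ℤ)) - l * k := by
        rw [hk]
        push_cast
        ring
      have h1 : (l : ℤ) ∣ 1 := by
        rw [e]
        exact dvd_sub ((dvd_neg).2 hd) (dvd_mul_right _ _)
      have := Int.le_of_dvd (by norm_num) h1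
      omega)
    push_cast at this
    exact this
  have he : ∀ x : 𝓞 F, V'.valuation (eF F x) ≤ 1 := by
    intro x
    rw [V'.valuation_le_one_iff]
    have h1 : eF F x = j (ak Ω x) := (h.cma.ovr (x : F)).symm
    rw [h1, (hV' _).1, ← V.valuation_le_one_iff]
    exact ak_le V x
  have hμ : V'.valuation (eF F μ) = 1 := by
    refine le_antisymm (he μ) (not_lt.1 fun hlt => ?_)
    have h1 : V'.valuation ((Nm μ : ℕ) : ℂ) = 1 := by
      have := hun (Nm μ) (by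
        rw [Int.natCast_dvd_natCast]
        intro hd
        have h2 := (Nat.Coprime.dvd_of_dvd_mul_left (Nat.Coprime.symm hU.cop) (by rw [mul_one]; exact hd : l ∣ Nm μ * 1))
        exact h.prime.one_lt.ne' (Nat.dvd_one.1 h2))
      exact_mod_cast this
    have h2 : eF F μ * eF F (cj μ) = ((Nm μ : ℕ) : ℂ) := by
      rw [← map_mul, mul_cj, map_natCast]
    rw [← h2, map_mul] at h1
    have h3 : V'.valuation (eF F μ) * V'.valuation (eF F (cj μ)) < 1 :=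
      lt_of_le_of_lt (mul_le_of_le_one_right' (he (cj μ))) hlt
    rw [h1] at h3
    exact lt_irrefl _ h3
  have hj : V'.valuation (j (cU D S)) = 1 := by
    rw [cU_val h hU hΛ, map_mul, map_mul, map_mul, map_mul, h4, ha, ha1, hμ, hΛ.val V' hl]
    simp
  refine le_antisymm ?_ (not_lt.1 fun hlt => ?_)
  · rw [V.valuation_le_one_iff, ← (hV' _).1, ← V'.valuation_le_one_iff]
    exact hj.le
  · have := (hV' _).2.2 hlt
    rw [hj] at this
    exact lt_irrefl _ this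

end H55K
end

-- from Lib.H55K.UB3A
section

/-! # H55K: elliptic units: Galois action -/

open NumberField IsDedekindDomain WeierstrassCurve

namespace H55K

open H55P (IQ embF eF LF Per IsHecke Pt ac Inert Dec Nm)
open H35P (WAB Ker tt)


variable {F : Type} [Field F] [NumberField F] [IQ F] {A B : F} {Om : ℂ} {Ω : Type} [Field Ω] [DecidableEq Ω]
  [Algebra F Ω] {j : Ω →+* ℂ} {act : 𝓞 F →+* AddMonoid.End (Pt (WAB A B) Ω)} {m : Ideal (𝓞 F)}
  {ψ : Ideal (𝓞 F) →*₀ 𝓞 F} {l : ℕ} {μ : 𝓞 F} {a : ℕ} {ρ τ : Pt (WAB A B) Ω} {H R : Finset (𝓞 F)}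
  {D S : Finset (Pt (WAB A B) Ω)}

theorem ub3_inj (s : Ω ≃ₐ[F] Ω) {P Q : Pt (WAB A B) Ω} (h : ac (WAB A B) s P = ac (WAB A B) s Q) :
    P = Q := by
  have h1 := congrArg (ac (WAB A B) s⁻¹) h
  have h2 := ac_inv (WAB A B) s⁻¹ P
  have h3 := ac_inv (WAB A B) s⁻¹ Q
  rw [inv_inv] at h2 h3
  rwa [h2, h3] at h1

theorem ub3_rho (hU : UDat Om j act m ψ l μ a ρ τ H R D S) : ρ ∈ D :=
  (hU.memD ρ).2 ⟨1, Prm_one, (ub2_one act ρ).symm⟩

theorem ub3_gal (h : Dta A B Om j act m ψ l) (hU : UDat Om j act m ψ l μ a ρ τ H R D S)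
    (s : Ω ≃ₐ[F] Ω) (hs : ac (WAB A B) s ρ ∈ D) {X : Pt (WAB A B) Ω} (hX : X ∈ D) :
    ac (WAB A B) s X ∈ D := by
  obtain ⟨x, hx, rfl⟩ := (hU.memD X).1 hX
  obtain ⟨c, hc, hc'⟩ := (hU.memD _).1 hs
  rw [h.cma.gal, hc', ub2_mul]
  exact (hU.memD _).2 ⟨x * c, Prm_mul hx hc, rfl⟩

/-- The subgroup. -/
def ub3_K (h : Dta A B Om j act m ψ l) (hU : UDat Om j act m ψ l μ a ρ τ H R D S) :
    Subgroup (Ω ≃ₐ[F] Ω) where
  carrier := {s | ac (WAB A B) s ρ ∈ D}
  one_mem' := by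
    show ac (WAB A B) 1 ρ ∈ D
    rw [ac_one]
    exact ub3_rho hU
  mul_mem' := by
    intro s t hs ht
    show ac (WAB A B) (s * t) ρ ∈ D
    rw [ac_mul]
    exact ub3_gal h hU s hs ht
  inv_mem' := by
    intro s hs
    show ac (WAB A B) s⁻¹ ρ ∈ D
    classical
    have h1 : D.image (ac (WAB A B) s) = D :=
      Finset.eq_of_subset_of_card_le
        (Finset.image_subset_iff.2 fun X hX => ub3_gal h hU s hs hX)
        (Finset.card_image_of_injective _ fun P Q hPQ => ub3_inj s hPQ).ge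
    have h2 : ρ ∈ D.image (ac (WAB A B) s) := by
      rw [h1]
      exact ub3_rho hU
    obtain ⟨X, hX, hXρ⟩ := Finset.mem_image.1 h2
    have h3 : ac (WAB A B) s⁻¹ ρ = X := by
      apply ub3_inj s
      rw [ac_inv, hXρ]
    rwa [h3]

theorem ub3_normal (h : Dta A B Om j act m ψ l) (hU : UDat Om j act m ψ l μ a ρ τ H R D S) :
    (ub3_K h hU).Normal := by
  constructor
  intro t ht g
  show ac (WAB A B) (g * t * g⁻¹) ρ ∈ D
  have ht' : ac (WAB A B) t ρ ∈ D := ht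
  obtain ⟨c, hc, hc'⟩ := (hU.memD _).1 ht'
  obtain ⟨b, hb⟩ := hU.rhog (ac (WAB A B) g⁻¹ ρ) (by
    rw [← h.cma.gal, hU.rho, ac_zero])
  have h1 : ac (WAB A B) (g * t * g⁻¹) ρ = act c ρ := by
    rw [ac_mul, ac_mul, hb, h.cma.gal, hc', ub2_mul, mul_comm b c, ← ub2_mul, ← hb, h.cma.gal,
      ac_inv]
  rw [h1, ← hc']
  exact ht'

theorem ub3_fin {x : 𝓞 F} (hx : x ≠ 0) : {v : HeightOneSpectrum (𝓞 F) | x ∈ v.asIdeal}.Finite := by
  have h1 : Ideal.span {x} ≠ 0 := by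
    rw [Ideal.zero_eq_bot, Ne, Ideal.span_singleton_eq_bot]
    exact hx
  refine (Ideal.finite_factors h1).subset fun v hv => ?_
  show v.asIdeal ∣ Ideal.span {x}
  rw [Ideal.dvd_span_singleton]
  exact hv

theorem ub3_frob (h : Dta A B Om j act m ψ l) (hU : UDat Om j act m ψ l μ a ρ τ H R D S)
    (v : HeightOneSpectrum (𝓞 F)) (hv : (Nm μ : 𝓞 F) ∉ v.asIdeal) (s : Ω ≃ₐ[F] Ω)
    (hs : ac (WAB A B) s ρ = act (ψ v.asIdeal) ρ) : ac (WAB A B) s ρ ∈ D := by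
  rw [hs]
  have hm : ¬ m ≤ v.asIdeal := by
    intro h1
    apply hv
    rw [← mul_cj]
    refine Ideal.mul_mem_right _ _ (h1 ?_)
    rw [← hU.mu]
    exact Ideal.mem_span_singleton_self μ
  have hc : IsCoprime v.asIdeal m := by
    rw [Ideal.isCoprime_iff_sup_eq]
    refine v.isMaximal.1.2 _ (lt_of_le_of_ne le_sup_left ?_)
    intro h1
    apply hm
    rw [h1]
    exact le_sup_right
  have hg := h.hecke.gen _ hc
  exact (hU.memD _).2 ⟨ψ v.asIdeal, ⟨by rwa [hg], by rw [hg]⟩, rfl⟩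

theorem ub3_val (v : HeightOneSpectrum (𝓞 F)) (V : ValuationSubring Ω)
    (hV : ∀ x : 𝓞 F, x ∈ v.asIdeal → V.valuation (ak Ω x) < 1) (n : ℕ) (hn : (n : 𝓞 F) ∉ v.asIdeal) :
    V.valuation (n : Ω) = 1 := by
  have hle : V.valuation (n : Ω) ≤ 1 := by
    rw [ValuationSubring.valuation_le_one_iff]
    exact natCast_mem V n
  refine le_antisymm hle (not_lt.1 fun hlt => ?_)
  have hint : ∀ x : 𝓞 F, V.valuation (ak Ω x) ≤ 1 := ak_le V
  have h1 : Ideal.span {(n : 𝓞 F)} ⊔ v.asIdeal = ⊤ := by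
    rw [sup_comm]
    refine v.isMaximal.1.2 _ (lt_of_le_of_ne le_sup_left ?_)
    intro h1
    apply hn
    rw [h1]
    exact Ideal.mem_sup_right (Ideal.mem_span_singleton_self _)
  have h2 : (1 : 𝓞 F) ∈ Ideal.span {(n : 𝓞 F)} ⊔ v.asIdeal := by
    rw [h1]
    trivial
  obtain ⟨y, hy, z, hz, hyz⟩ := Submodule.mem_sup.1 h2
  obtain ⟨w, rfl⟩ := Ideal.mem_span_singleton.1 hy
  have h3 : (n : Ω) * ak Ω w + ak Ω z = 1 := by
    have h4 := congrArg (fun t : 𝓞 F => algebraMap F Ω (t : F)) hyz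
    simpa using h4
  have h5 : V.valuation ((n : Ω) * ak Ω w + ak Ω z) < 1 := by
    refine Valuation.map_add_lt _ ?_ (hV z hz)
    rw [map_mul]
    exact mul_lt_one_of_lt_of_le hlt (hint w)
  rw [h3, map_one] at h5
  exact lt_irrefl _ h5

/-- Chunk UB3A (M). K = {s : for all X in D, ac s X is in D} is a subgroup (D is finite and ac s is injective: ac s permutes D, so does its inverse). Every s acts on Tor act μ as act c, c with ac s ρ = act c ρ (rhog; cma.gal), so all s commute on Tor act μ and K is normal. It contains the fixing subgroup of a finite extension fixing ρ (H55P.pt_open).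
H13S.PA1_top (PA1.lean): it is enough to treat Frobenius elements s at V above v, v outside the finite set of h.frob and the primes containing Nm μ (finite: Ideal.finite_factors): V(Nm μ) = 1, ac s ρ = act (ψ v) ρ by h.frob; v is coprime to m (v maximal does not contain m), span {ψ v} = v (hecke.gen), so Prm (ψ v), and ac s (act h ρ) =
act (h * ψ v) ρ is in D (memD, Prm_mul). -/
theorem D_gal [IsAlgClosure F Ω] (h : Dta A B Om j act m ψ l) (hU : UDat Om j act m ψ l μ a ρ τ H R D S)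
    (s : Ω ≃ₐ[F] Ω) {X : Pt (WAB A B) Ω} (hX : X ∈ D) : ac (WAB A B) s X ∈ D := by
  have halg : Algebra.IsAlgebraic F Ω := IsAlgClosure.isAlgebraic
  obtain ⟨L, hLf, hL⟩ := H55P.pt_open (WAB A B) ρ
  obtain ⟨S₀, hS₀, hfr⟩ := h.frob
  have hNm : (Nm μ : 𝓞 F) ≠ 0 := by
    intro h0
    have h1 : Nm μ = 0 := by exact_mod_cast h0
    exact hU.mu0 (H55P.Nm_eq_zero.1 h1)
  have htop : ub3_K h hU = ⊤ := by
    refine H13S.PA1_top (F₀ := F) (ub3_K h hU) (ub3_normal h hU) L ?_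
      (S₀ ∪ {v | (Nm μ : 𝓞 F) ∈ v.asIdeal}) (hS₀.union (ub3_fin hNm)) ?_
    · intro t ht
      show ac (WAB A B) t ρ ∈ D
      rw [hL t ht]
      exact ub3_rho hU
    · intro v hv hp V hV t ht
      rw [Set.mem_union, not_or] at hv
      show ac (WAB A B) t ρ ∈ D
      refine ub3_frob h hU v hv.2 t ?_
      exact hfr v hv.1 hp V hV t ht (Nm μ) (ub3_val v V hV _ hv.2) ρ
        (D_ne h hU (ub3_rho hU)).2
  have hs : s ∈ ub3_K h hU := by
    rw [htop]
    exact Subgroup.mem_top s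
  exact ub3_gal h hU s hs hX

end H55K
end

-- from Lib.H55K.UB3B
section

/-! # H55K: elliptic units: Galois action -/

open NumberField IsDedekindDomain WeierstrassCurve

namespace H55K

open H55P (IQ embF eF LF Per IsHecke Pt ac Inert Dec Nm)
open H35P (WAB Ker tt)


variable {F : Type} [Field F] [NumberField F] [IQ F] {A B : F} {Om : ℂ} {Ω : Type} [Field Ω] [DecidableEq Ω]
  [Algebra F Ω] {j : Ω →+* ℂ} {act : 𝓞 F →+* AddMonoid.End (Pt (WAB A B) Ω)} {m : Ideal (𝓞 F)}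
  {ψ : Ideal (𝓞 F) →*₀ 𝓞 F} {l : ℕ} {μ : 𝓞 F} {a : ℕ} {ρ τ : Pt (WAB A B) Ω} {H R : Finset (𝓞 F)}
  {D S : Finset (Pt (WAB A B) Ω)}

theorem ub3_permS {α M : Type} [AddCommMonoid M] (D : Finset α) (g : α → α) (hm : ∀ x ∈ D, g x ∈ D)
    (hi : Set.InjOn g (D : Set α)) (f : α → M) : ∑ X ∈ D, f (g X) = ∑ X ∈ D, f X := by
  classical
  have h1 : D.image g = D :=
    Finset.eq_of_subset_of_card_le (Finset.image_subset_iff.2 hm) (Finset.card_image_of_injOn hi).ge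
  conv_rhs => rw [← h1]
  rw [Finset.sum_image hi]

/-- Chunk UB3B (S). ac s permutes D (injective, D_gal) and S (cma.gal). -/
theorem prod_gal [IsAlgClosure F Ω] (h : Dta A B Om j act m ψ l)
    (hU : UDat Om j act m ψ l μ a ρ τ H R D S) (s : Ω ≃ₐ[F] Ω) (f : Pt (WAB A B) Ω → Ω) :
    ∏ X ∈ D, f (ac (WAB A B) s X) = ∏ X ∈ D, f X ∧ ∏ X ∈ S, f (ac (WAB A B) s X) = ∏ X ∈ S, f X ∧
    ∑ X ∈ D, f (ac (WAB A B) s X) = ∑ X ∈ D, f X ∧ ∑ X ∈ S, f (ac (WAB A B) s X) = ∑ X ∈ S, f X := by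
  have hD : ∀ X ∈ D, ac (WAB A B) s X ∈ D := fun X hX => D_gal h hU s hX
  have hS : ∀ X ∈ S, ac (WAB A B) s X ∈ S := by
    intro X hX
    have h1 := (hU.memS X).1 hX
    refine (hU.memS _).2 ⟨?_, ac_ne _ s h1.2⟩
    rw [← h.cma.gal, h1.1, ac_zero]
  have hi : Function.Injective (ac (WAB A B) s : Pt (WAB A B) Ω → Pt (WAB A B) Ω) :=
    fun P Q hPQ => ub3_inj s hPQ
  exact ⟨ub2_perm D _ hD hi.injOn f, ub2_perm S _ hS hi.injOn f, ub3_permS D _ hD hi.injOn f,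
    ub3_permS S _ hS hi.injOn f⟩

/-- Chunk UB3B. xc_ac (E0), prod_gal. -/
theorem Xi_gal [IsAlgClosure F Ω] (h : Dta A B Om j act m ψ l)
    (hU : UDat Om j act m ψ l μ a ρ τ H R D S) (s : Ω ≃ₐ[F] Ω) (P : Pt (WAB A B) Ω) :
    s (Xi D S P) = Xi D S (ac (WAB A B) s P) := by
  have h1 : ∀ Y : Pt (WAB A B) Ω, s (Phi S Y) = Phi S (ac (WAB A B) s Y) := by
    intro Y
    have h2 := (prod_gal h hU s (fun T => xc (ac (WAB A B) s Y) - xc T)).2.1
    unfold Phi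
    rw [← h2, map_prod]
    refine Finset.prod_congr rfl fun Q _ => ?_
    rw [map_sub, xc_ac, xc_ac]
  have h3 := (prod_gal h hU s
    (fun Y => Phi S (Y + ac (WAB A B) s P) / Phi S (Y - ac (WAB A B) s P))).1
  unfold Xi
  rw [← h3, map_prod]
  refine Finset.prod_congr rfl fun X _ => ?_
  rw [map_div₀, h1, h1, map_add, map_sub]

end H55K
end

-- from Lib.H55K.UB9A
section

/-! # H55K: elliptic units: the coefficient -/

open NumberField IsDedekindDomain WeierstrassCurve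

namespace H55K

open H55P (IQ embF eF LF Per IsHecke Pt ac Inert Dec Nm)
open H35P (WAB Ker tt)


variable {F : Type} [Field F] [NumberField F] [IQ F] {A B : F} {Om : ℂ} {Ω : Type} [Field Ω] [DecidableEq Ω]
  [Algebra F Ω] {j : Ω →+* ℂ} {act : 𝓞 F →+* AddMonoid.End (Pt (WAB A B) Ω)} {m : Ideal (𝓞 F)}
  {ψ : Ideal (𝓞 F) →*₀ 𝓞 F} {l : ℕ} {μ : 𝓞 F} {a : ℕ} {ρ τ : Pt (WAB A B) Ω} {H R : Finset (𝓞 F)}
  {D S : Finset (Pt (WAB A B) Ω)}

/-- Chunk UB9A (S). cU is fixed by all automorphisms (prod_gal, xc_ac, yc_ac); Ω is Galois over F. -/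
theorem cU_mem [IsAlgClosure F Ω] (h : Dta A B Om j act m ψ l)
    (hU : UDat Om j act m ψ l μ a ρ τ H R D S) : ∃ c : F, algebraMap F Ω c = cU D S := by
  have hnorm : Normal F Ω := IsAlgClosure.normal F Ω
  have hgal : IsGalois F Ω := { }
  have hfix : ∀ s : Ω ≃ₐ[F] Ω, s (cU D S) = cU D S := by
    intro s
    unfold cU
    rw [map_mul, map_ofNat, map_sum]
    congr 1
    have h1 : ∀ X : Pt (WAB A B) Ω, s (∑ Q ∈ S, yc X / (xc X - xc Q)) =
        ∑ Q ∈ S, yc (ac (WAB A B) s X) / (xc (ac (WAB A B) s X) - xc Q) := by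
      intro X
      rw [map_sum, ← (prod_gal h hU s (fun Q => yc (ac (WAB A B) s X) /
        (xc (ac (WAB A B) s X) - xc Q))).2.2.2]
      refine Finset.sum_congr rfl fun Q _ => ?_
      rw [map_div₀, map_sub, xc_ac, xc_ac, yc_ac]
    simp only [h1]
    exact (prod_gal h hU s (fun X => ∑ Q ∈ S, yc X / (xc X - xc Q))).2.2.1
  have h1 : cU D S ∈ IntermediateField.fixedField (⊤ : Subgroup (Ω ≃ₐ[F] Ω)) := by
    rw [IntermediateField.mem_fixedField_iff]
    intro s _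
    exact hfix s
  have h2 := InfiniteGalois.fixedField_fixingSubgroup (⊥ : IntermediateField F Ω)
  rw [IntermediateField.fixingSubgroup_bot] at h2
  rw [h2] at h1
  exact IntermediateField.mem_bot.1 h1

end H55K
end

-- from Lib.H55K.UB10B
section

/-! # H55K: elliptic units: the main theorem -/

open NumberField IsDedekindDomain WeierstrassCurve

namespace H55K

open H55P (IQ embF eF LF Per IsHecke Pt ac Inert Dec Nm)
open H35P (WAB Ker tt)


variable {F : Type} [Field F] [NumberField F] [IQ F] {A B : F} {Om : ℂ} {Ω : Type} [Field Ω] [DecidableEq Ω]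
  [Algebra F Ω] {j : Ω →+* ℂ} {act : 𝓞 F →+* AddMonoid.End (Pt (WAB A B) Ω)} {m : Ideal (𝓞 F)}
  {ψ : Ideal (𝓞 F) →*₀ 𝓞 F} {l : ℕ} {μ : 𝓞 F} {a : ℕ} {ρ τ : Pt (WAB A B) Ω} {H R : Finset (𝓞 F)}
  {D S : Finset (Pt (WAB A B) Ω)}

/-- A point killed by a divisor of l is killed by l. -/
theorem ub10b_tor {π : 𝓞 F} (hd : π ∣ (l : 𝓞 F)) {T : Pt (WAB A B) Ω} (hT : T ∈ Tor act π) : l • T = 0 := by
  obtain ⟨c, hc⟩ := hd
  have h1 : act (l : 𝓞 F) T = l • T := by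
    rw [map_natCast]
    rfl
  have h2 : act (l : 𝓞 F) T = act c (act π T) := by
    rw [hc, mul_comm, map_mul]
    rfl
  have h3 : act π T = 0 := hT
  rw [← h1, h2, h3, map_zero]

omit [IQ F] [DecidableEq Ω] in
theorem ub10b_val {π : 𝓞 F} (hd : π ∣ (l : 𝓞 F)) {V : ValuationSubring Ω} (hV : V.valuation (ak Ω π) < 1) :
    V.valuation (l : Ω) < 1 := by
  obtain ⟨c, hc⟩ := hd
  have h1 : (l : Ω) = ak Ω π * ak Ω c := by
    have h2 : (l : Ω) = ak Ω ((l : 𝓞 F)) := by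
      show (l : Ω) = algebraMap F Ω (algebraMap (𝓞 F) F ((l : 𝓞 F)))
      rw [map_natCast, map_natCast]
    rw [h2, hc]
    show algebraMap F Ω (algebraMap (𝓞 F) F (π * c)) =
      algebraMap F Ω (algebraMap (𝓞 F) F π) * algebraMap F Ω (algebraMap (𝓞 F) F c)
    rw [map_mul, map_mul]
  rw [h1, map_mul]
  exact mul_lt_one_of_lt_of_le hV (ak_le V c)

/-- Chunk UB10B (M). THE ELLIPTIC UNIT. exists_UDat, Xi D S: gal = Xi_gal; unit0 = Xi_unit with R₁ = 0, n = 1 (act π T = 0 and π ∣ l give l • T = 0); exp: c₁ from cU_mem, int_repl (cU_unit: V(π) < 1 implies V(l) < 1), Xi_exp (T is in Ker V by tor_ram), and V((c + c₁) tt T) ≤ V(π) V(tt T) = V(tt T)^(Nm π) ≤ V(tt T)^2 (tor_ram, Nm π ≥ 2);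
fin: fin_set; Xi_unit with n = Nm β (tor_nm); Xi_cong (R in Ker by tor_ram); Xi_norm: Xi T * prod = Xi (act β T) = Xi T and Xi T ≠ 0 (unit0). -/
theorem exists_XiD [IsAlgClosure F Ω] (h : Dta A B Om j act m ψ l) {Λ : ℂ → ℂ} (hΛ : LU l Om ψ Λ)
    {π : 𝓞 F} (hπ : Prime π) (hd : π ∣ (l : 𝓞 F)) : ∃ Ξ : Pt (WAB A B) Ω → Ω, XiD act ψ π Ξ := by
  obtain ⟨μ, a, ρ, τ, H, R, D, S, hU⟩ := exists_UDat h
  have hu0 : ∀ T ∈ Tor act π, T ≠ 0 → ∀ V : ValuationSubring Ω, V.valuation (Xi D S T) = 1 := by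
    intro T hT h0 V
    have := Xi_unit h hU (ub10b_tor hd hT) h0 (n := 1) (R₁ := 0) (by simp) (by simp) (by simp) V
    rwa [add_zero] at this
  refine ⟨Xi D S, fun s P => Xi_gal h hU s P, hu0, ?_, ?_⟩
  · obtain ⟨c₁, hc₁⟩ := cU_mem h hU
    obtain ⟨c, hc, hc'⟩ := int_repl (Ω := Ω) hπ c₁ (fun V hV => by
      rw [hc₁]
      exact cU_unit h hU hΛ (ub10b_val hd hV))
    refine ⟨c, hc, fun V hV T hT h0 => ?_⟩
    have hVl := ub10b_val hd hV
    obtain ⟨hK, hr⟩ := tor_ram h.cma (h.good V hVl) hπ hV hT h0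
    have h1 := Xi_exp h hU hVl hK
    have h2 := hc' V hV
    rw [hc₁] at h2
    have e1 : Xi D S T - 1 - ak Ω c * tt T = (Xi D S T - 1 + cU D S * tt T) - (ak Ω c + cU D S) * tt T := by
      ring
    rw [e1]
    refine (V.valuation.map_sub _ _).trans (max_le h1 ?_)
    rw [map_mul]
    have ht : V.valuation (tt T) < 1 := by
      by_contra hcon
      rw [not_lt] at hcon
      have := one_le_pow₀ (n := Nm π - 1) hcon
      rw [hr] at this
      exact absurd hV (not_lt.2 this)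
    have hn : Nm π - 1 ≠ 0 := by
      intro hn
      rw [hn, pow_zero] at hr
      rw [← hr] at hV
      exact lt_irrefl _ hV
    have h3 : V.valuation (ak Ω π) ≤ V.valuation (tt T) := by
      rw [← hr]
      exact pow_le_of_le_one zero_le ht.le hn
    calc V.valuation (ak Ω c + cU D S) * V.valuation (tt T) ≤ V.valuation (tt T) * V.valuation (tt T) :=
          mul_le_mul_left (h2.trans h3) _
      _ = V.valuation (tt T) ^ 2 := (sq _).symm
  · obtain ⟨E, hE, hE'⟩ := fin_set h hU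
    refine ⟨E, hE, fun v hv hq T hT h0 => ?_⟩
    obtain ⟨q1, q2, q3, q4, q5, q6, q7⟩ := hE' v hv hq
    have hl := ub10b_tor hd hT
    refine ⟨fun R hR V => ?_, fun R hR V hV => ?_, fun hfix S' hS' => ?_⟩
    · exact Xi_unit h hU hl h0 (tor_nm hR) q5 q6 V
    · obtain ⟨r1, r2⟩ := q7 V hV
      refine Xi_cong h hU r1 r2 hl h0 ?_
      by_cases hR0 : R = 0
      · rw [hR0]
        exact ker_zero V
      · exact (tor_ram h.cma r1 q1 hV hR hR0).1
    · have h1 := Xi_norm h hU q1.ne_zero q2 q3 q4 hS' hl h0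
      rw [hfix] at h1
      have h2 : Xi D S T ≠ 0 := by
        intro h3
        have h4 := hu0 T hT h0 ⊤
        rw [h3, map_zero] at h4
        exact zero_ne_one h4
      exact mul_left_cancel₀ h2 (by rw [h1, mul_one])

end H55K
end
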