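import Mathlib
import Pool.Agent.Lib.H1M.PP2.M074
import Pool.Agent.Lib.H1M.PP2.M092
import Pool.Agent.Lib.H1M.PP2.M100
import Pool.Agent.Lib.H1M.PP2.M107
import Pool.Agent.Lib.H1M.PP2.M110
import Pool.Agent.Lib.H1M.PP2.M119

/-! Merged copies (to shorten the build) of Lib.H55K.SPS, Lib.H55K.SHC, Lib.H55K.SF, Lib.H13X.XR1, Lib.H13X.XR, Lib.H13X.XU, Lib.H13X.XC1. -/

-- from Lib.H55K.SPS
section

/-! # H55K, part S: port of H13S/PS -/

open NumberField IsDedekindDomain WeierstrassCurve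

namespace H55K.S

open H55P (IQ embF eF LF Per IsHecke Pt ac Inert Dec Nm)
open H35P (WAB Ker tt)
open H13S (Abv)
open H55R (Pl ord)




variable {F : Type} [Field F] [NumberField F] [IQ F] {A B : F} {Om : ℂ} {Ω : Type} [Field Ω] [DecidableEq Ω]
  [Algebra F Ω] [IsAlgClosure F Ω] {j : Ω →+* ℂ} {act : 𝓞 F →+* AddMonoid.End (Pt (WAB A B) Ω)} {mo : Ideal (𝓞 F)}
  {ψ : Ideal (𝓞 F) →*₀ 𝓞 F}

theorem ps_add {π : 𝓞 F} {l : ℕ} {c : (Ω ≃ₐ[F] Ω) → Pt (WAB A B) Ω} (C : Cl A B Om j act mo ψ π l c)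
    {e : Pt (WAB A B) Ω → Pt (WAB A B) Ω → Ω} (he : Pairing A B act π l e) {L : IntermediateField F Ω} (hL : H55K.S.IsTF act π L)
    (m : Pt (WAB A B) Ω → L) (y : Pt (WAB A B) Ω → Ω) (hy : ∀ T ∈ Tor act π, Kum L e c T (y T))
    (hm : ∀ T ∈ Tor act π, m T ≠ 0 ∧ (m T : Ω) = y T ^ l) (T : Pt (WAB A B) Ω) (hT : T ∈ Tor act π) (T' : Pt (WAB A B) Ω)
    (hT' : T' ∈ Tor act π) : ∃ z : L, z ≠ 0 ∧ m (T + T') = m T * m T' * z ^ l := by
  have h1 := AddSubgroup.add_mem _ hT hT'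
  obtain ⟨z, hz0, hz⟩ := kum_ratio hL (hy _ h1) (kum_mul C he hL hT hT' (hy T hT) (hy T' hT'))
  refine ⟨z, hz0, Subtype.ext ?_⟩
  push_cast
  rw [(hm _ h1).2, (hm T hT).2, (hm T' hT').2, hz]
  ring

theorem ps_act {π : 𝓞 F} {l : ℕ} {c : (Ω ≃ₐ[F] Ω) → Pt (WAB A B) Ω} (C : Cl A B Om j act mo ψ π l c)
    {e : Pt (WAB A B) Ω → Pt (WAB A B) Ω → Ω} (he : Pairing A B act π l e) {L : IntermediateField F Ω} (hL : H55K.S.IsTF act π L)
    (m : Pt (WAB A B) Ω → L) (y : Pt (WAB A B) Ω → Ω) (hy : ∀ T ∈ Tor act π, Kum L e c T (y T))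
    (hm : ∀ T ∈ Tor act π, m T ≠ 0 ∧ (m T : Ω) = y T ^ l) (σ : Ω ≃ₐ[F] Ω) (T : Pt (WAB A B) Ω) (hT : T ∈ Tor act π) :
    ∃ x' z : L, z ≠ 0 ∧ (x' : Ω) = σ (m T : Ω) ∧ x' = m (ac (WAB A B) σ T) * z ^ l := by
  have h1 := ac_mem C.cma σ hT
  obtain ⟨z, hz0, hz⟩ := kum_ratio hL (kum_act C he hL σ hT (hy T hT)) (hy _ h1)
  refine ⟨m (ac (WAB A B) σ T) * z ^ l, z, hz0, ?_, rfl⟩
  have hr := he.root _ (C.val σ) _ h1
  push_cast
  rw [(hm T hT).2, (hm _ h1).2, map_pow, mul_comm, ← mul_pow, ← hz, div_pow, hr, div_one]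

/-- The valuations. -/
theorem ords {π : 𝓞 F} {l : ℕ} {c : (Ω ≃ₐ[F] Ω) → Pt (WAB A B) Ω} (C : Cl A B Om j act mo ψ π l c)
    {e : Pt (WAB A B) Ω → Pt (WAB A B) Ω → Ω} (he : Pairing A B act π l e) {L : IntermediateField F Ω}
    (hL : H55K.S.IsTF act π L) [NumberField L] (m : Pt (WAB A B) Ω → L) (y : Pt (WAB A B) Ω → Ω)
    (hy : ∀ T ∈ Tor act π, Kum L e c T (y T))
    (hm : ∀ T ∈ Tor act π, m T ≠ 0 ∧ (m T : Ω) = y T ^ l) (T : Pt (WAB A B) Ω) (hT : T ∈ Tor act π)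
    (w : HeightOneSpectrum (𝓞 L)) : ∃ k : ℤ, w.valuation L (m T) = WithZero.exp ((l : ℤ) * k) := by
  have hA := C.cma
  obtain ⟨V, hw⟩ := H13S.exists_above L w
  have hl0 : l ≠ 0 := C.hl.ne_zero
  by_cases h1 : vo V π < 1
  · obtain ⟨z, hz0, hz⟩ := level C he hL V h1 w hw T hT (m T) (hm T hT).1 (y T) (hy T hT)
      (hm T hT).2.symm
    have h2 : w.valuation L (m T / z ^ l) = 1 := by
      have h3 : w.valuation L (m T / z ^ l - 1) < w.valuation L (1 : L) := by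
        rw [map_one]
        refine lt_of_le_of_lt hz ?_
        rw [← WithZero.exp_zero, WithZero.exp_lt_exp]
        norm_num
      have h4 := (w.valuation L).map_add_eq_of_lt_left h3
      rw [add_sub_cancel, map_one] at h4
      exact h4
    rw [map_div₀, map_pow] at h2
    have hz1 : w.valuation L z ≠ 0 := by
      rwa [Ne, map_eq_zero]
    have h3 := (div_eq_one_iff_eq (pow_ne_zero l hz1)).1 h2
    refine ⟨WithZero.log (w.valuation L z), ?_⟩
    rw [h3, ← nsmul_eq_mul, WithZero.exp_nsmul, WithZero.exp_log hz1]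
  · have h1' : vo V π = 1 := le_antisymm (vo_le V π) (not_lt.1 h1)
    by_cases h2 : V.valuation (l : Ω) < 1
    · have hcv : vo V (cj π) < 1 := by
        by_contra hcon
        have h3 : vo V (cj π) = 1 := le_antisymm (vo_le V _) (not_lt.1 hcon)
        rcases dichotomy C.hl C.dta.unr C.pr C.dvd with ⟨-, -, h4⟩ | ⟨-, -, -, h4⟩
        · rw [← vo_nat (F := F), vo_assoc V h4 (vo_le V), h1'] at h2
          exact lt_irrefl _ h2
        · rw [← vo_nat (F := F), ← h4, vo_mul, h1', h3, one_mul] at h2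
          exact lt_irrefl _ h2
      exact na_ord C he hL V (C.dta.good V h2) h1' hcv w hw T hT (m T) (hm T hT).1 (y T) (hy T hT) (hm T hT).2.symm
    · have h2' : V.valuation (l : Ω) = 1 := by
        refine le_antisymm ?_ (not_lt.1 h2)
        rw [← vo_nat (F := F)]
        exact vo_le V _
      refine H13S.ord_of_unr L V w hw l (m T) (hm T hT).1 (y T) (hm T hT).2.symm fun s hs hi => ?_
      rw [(hy T hT).2 s hs, c_inert_away C V h2' s hi ((hL.2 s).1 hs), ld3_e0 hl0 he hT, one_mul]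

/-- THE SELMER SIDE. -/
theorem partS {π : 𝓞 F} {l : ℕ} {c : (Ω ≃ₐ[F] Ω) → Pt (WAB A B) Ω} (C : Cl A B Om j act mo ψ π l c) {L : IntermediateField F Ω}
    (hL : H55K.S.IsTF act π L) [NumberField L] : ∃ m : Pt (WAB A B) Ω → (L)ˣ,
      (∀ T ∈ Tor act π, ∀ T' ∈ Tor act π, ∃ z : (L)ˣ, m (T + T') = m T * m T' * z ^ l) ∧
      (∀ σ : Ω ≃ₐ[F] Ω, ∀ T ∈ Tor act π, ∃ z : (L)ˣ,
        ((m (ac (WAB A B) σ T) : L) : Ω) = σ ((m T : L) : Ω) * ((z : L) : Ω) ^ l) ∧
      (∀ T ∈ Tor act π, ∀ w : Pl L, (l : ℤ) ∣ ord w (m T)) ∧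
      (∀ T ∈ Tor act π, ∀ w : Pl L, w.valuation L (algebraMap F L (π : F)) < 1 →
        ∃ z : (L)ˣ, w.valuation L (((m T * (z ^ l)⁻¹ : (L)ˣ) : L) - 1) ≤ WithZero.exp (-2 : ℤ)) ∧
      ((∀ T ∈ Tor act π, ∃ z : (L)ˣ, m T = z ^ l) →
        ∃ X ∈ Tor act (cj π), ∀ s, c s = ac (WAB A B) s X - X) := by
  classical
  obtain ⟨e, he⟩ := exists_pairing (Ω := Ω) π l C.dta C.pr C.dvd
  have h1 : ∀ T : Pt (WAB A B) Ω, ∃ y : Ω, T ∈ Tor act π → Kum L e c T y := fun T => by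
    by_cases hT : T ∈ Tor act π
    · obtain ⟨y, hy⟩ := exists_kum C he hL hT
      exact ⟨y, fun _ => hy⟩
    · exact ⟨0, fun h => absurd h hT⟩
  choose y hy using h1
  have h2 : ∀ T : Pt (WAB A B) Ω, ∃ m : (L)ˣ, T ∈ Tor act π → ((m : L) : Ω) = y T ^ l := fun T => by
    by_cases hT : T ∈ Tor act π
    · obtain ⟨m, hm, hm0⟩ := kum_pow C he hL hT (hy T hT)
      exact ⟨Units.mk0 m hm0, fun _ => hm⟩
    · exact ⟨1, fun h => absurd h hT⟩
  choose m hm using h2
  have hm' : ∀ T ∈ Tor act π, ((m T : (L)ˣ) : L) ≠ 0 ∧ (((m T : (L)ˣ) : L) : Ω) = y T ^ l := fun T hT =>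
    ⟨(m T).ne_zero, hm T hT⟩
  refine ⟨m, ?_, ?_, ?_, ?_, ?_⟩
  · intro T hT T' hT'
    obtain ⟨z, hz0, hz⟩ := ps_add C he hL (fun T => (m T : L)) y hy hm' T hT T' hT'
    refine ⟨Units.mk0 z hz0, Units.ext ?_⟩
    push_cast
    exact hz
  · intro σ T hT
    obtain ⟨x', z, hz0, hx, hz⟩ := ps_act C he hL (fun T => (m T : L)) y hy hm' σ T hT
    refine ⟨(Units.mk0 z hz0)⁻¹, ?_⟩
    have h3 : ((z : L) : Ω) ≠ 0 := by
      exact_mod_cast hz0
    have h4 : ((((Units.mk0 z hz0)⁻¹ : (L)ˣ) : L) : Ω) = (z : Ω)⁻¹ := by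
      rw [Units.val_inv_eq_inv_val]
      push_cast
      rfl
    have h5 : σ (((m T : (L)ˣ) : L) : Ω) = (((m (ac (WAB A B) σ T) : (L)ˣ) : L) : Ω) * (z : Ω) ^ l := by
      rw [← hx, hz]
      push_cast
      rfl
    rw [h4, h5, inv_pow, mul_assoc, mul_inv_cancel₀ (pow_ne_zero l h3), mul_one]
  · intro T hT w
    obtain ⟨k, hk⟩ := ords C he hL (fun T => (m T : L)) y hy hm' T hT w
    have h3 := H55R.BF1_val w (m T)
    rw [hk] at h3
    have h4 : (l : ℤ) * k = -ord w (m T) := WithZero.exp_injective h3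
    exact ⟨-k, by linarith⟩
  · intro T hT w hwπ
    obtain ⟨V, hw⟩ := H13S.exists_above L w
    have hV : vo V π < 1 := (hw.lt _).2 hwπ
    obtain ⟨z, hz0, hz⟩ := level C he hL V hV w hw T hT (m T) (m T).ne_zero (y T) (hy T hT)
      (hm T hT).symm
    refine ⟨Units.mk0 z hz0, ?_⟩
    rw [Units.val_mul, Units.val_inv_eq_inv_val, Units.val_pow_eq_pow_val, Units.val_mk0,
      ← div_eq_mul_inv]
    exact hz
  · intro h
    refine cob_of_kum C he hL fun T hT => ?_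
    obtain ⟨z, hz⟩ := h T hT
    refine ⟨y T, hy T hT, z, ?_⟩
    rw [← hm T hT, hz]
    push_cast
    rfl

end H55K.S
end

-- from Lib.H55K.SHC
section

/-! # H55K, part S: the character of the torsion points is surjective, and not the cyclotomic character -/

open NumberField IsDedekindDomain WeierstrassCurve

namespace H55K.S

open H55P (IQ embF eF LF Per IsHecke Pt ac Inert Dec Nm)
open H35P (WAB Ker tt)
open H13S (Abv)

variable {F : Type} [Field F] [NumberField F] [IQ F] {A B : F} {Om : ℂ} {Ω : Type} [Field Ω] [DecidableEq Ω]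
  [Algebra F Ω] [IsAlgClosure F Ω] {j : Ω →+* ℂ} {act : 𝓞 F →+* AddMonoid.End (Pt (WAB A B) Ω)} {mo : Ideal (𝓞 F)}
  {ψ : Ideal (𝓞 F) →*₀ 𝓞 F}

omit [DecidableEq Ω] [IsAlgClosure F Ω] [IQ F] in
/-- A valuation ring above a prime element. -/
theorem exists_vr {β : 𝓞 F} (hβ : Prime β) : ∃ V : ValuationSubring Ω, vo V β < 1 := by
  have hb : Ideal.span {β} ≠ ⊥ := by
    rw [Ne, Ideal.span_singleton_eq_bot]
    exact hβ.ne_zero
  let w : HeightOneSpectrum (𝓞 F) := ⟨Ideal.span {β}, (Ideal.span_singleton_prime hβ.ne_zero).2 hβ, hb⟩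
  obtain ⟨V, hV⟩ := exists_abw Ω w
  refine ⟨V, ?_⟩
  rw [hV.lt]
  exact (w.valuation_lt_one_iff_mem β).2 (Ideal.mem_span_singleton_self β)

/-- Every multiplication by an integer prime to beta is realized by an automorphism on the points killed by beta. -/
theorem act_real (hA : CMA F A B Om j act) (β : 𝓞 F) (hβ : Prime β)
    (hG : ∀ V : ValuationSubring Ω, vo V β < 1 → GV A B V) (a : 𝓞 F) (ha : ¬ β ∣ a) :
    ∃ s : Ω ≃ₐ[F] Ω, ∀ T ∈ Tor act β, ac (WAB A B) s T = act a T := by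
  classical
  obtain ⟨V, hV⟩ := exists_vr (Ω := Ω) hβ
  have hGV := hG V hV
  obtain ⟨χ, h1, h2⟩ := H55K.S.exists_chi hA β hβ
  obtain ⟨-, T₀, hT₀, hgen, hker⟩ := gi_gen hA β hβ
  have hp : (Ideal.span {β}).IsPrime := (Ideal.span_singleton_prime hβ.ne_zero).2 hβ
  have hbot : Ideal.span {β} ≠ ⊥ := by
    rw [Ne, Ideal.span_singleton_eq_bot]
    exact hβ.ne_zero
  have hm : (Ideal.span {β}).IsMaximal := hp.isMaximal hbot
  have hfin : Finite (𝓞 F ⧸ Ideal.span {β}) := Ideal.finiteQuotientOfFreeOfNeBot _ hbot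
  letI ik : Field (𝓞 F ⧸ Ideal.span {β}) := Ideal.Quotient.field (Ideal.span {β})
  have hcard : Nat.card (𝓞 F ⧸ Ideal.span {β})ˣ = Nm β - 1 :=
    Nat.card_units (𝓞 F ⧸ Ideal.span {β})
  let q : 𝓞 F →+* 𝓞 F ⧸ Ideal.span {β} := Ideal.Quotient.mk (Ideal.span {β})
  have hqs : Function.Surjective q := Ideal.Quotient.mk_surjective
  have hq : ∀ a b : 𝓞 F, act a T₀ = act b T₀ ↔ q a = q b := by
    intro a b
    show _ ↔ Ideal.Quotient.mk (Ideal.span {β}) a = Ideal.Quotient.mk (Ideal.span {β}) b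
    rw [Ideal.Quotient.eq, Ideal.mem_span_singleton, ← hker, act_sub, sub_eq_zero]
  have hT₀0 : T₀ ≠ 0 := by
    intro h
    have h3 : act (1 : 𝓞 F) T₀ = 0 := by rw [h, map_zero]
    exact hβ.not_isUnit (isUnit_of_dvd_one ((hker 1).1 h3))
  choose o ho using hqs
  have hne : ∀ r : (𝓞 F ⧸ Ideal.span {β})ˣ, act (o r) T₀ ≠ 0 := by
    intro r h
    have h3 : q (o r) = 0 := by
      rw [← map_zero q, ← hq, h, act_zero]
    rw [ho] at h3
    exact r.ne_zero h3
  letI : Fintype χ.range := Fintype.ofFinite _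
  let x : Ω := ∏ r : χ.range, tt (act (o (r : (𝓞 F ⧸ Ideal.span {β})ˣ)) T₀)
  have hsx : ∀ s : Ω ≃ₐ[F] Ω, s x = x := by
    intro s
    show s (∏ r : χ.range, tt (act (o (r : (𝓞 F ⧸ Ideal.span {β})ˣ)) T₀)) = _
    rw [map_prod]
    refine Fintype.prod_equiv (Equiv.mulLeft (⟨χ s, ⟨s, rfl⟩⟩ : χ.range)) _ _ fun r => ?_
    rw [← tt_ac, ac_act hA, h1 s (o (χ s : 𝓞 F ⧸ Ideal.span {β})) (ho _) T₀ hT₀, ← act_mul]
    congr 1
    rw [hq, map_mul, ho, ho, ho, mul_comm]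
    rfl
  have htr : ∀ r : χ.range, Ker V (act (o (r : (𝓞 F ⧸ Ideal.span {β})ˣ)) T₀) ∧
      V.valuation (tt (act (o (r : (𝓞 F ⧸ Ideal.span {β})ˣ)) T₀)) ^ (Nm β - 1) = vo V β := fun r =>
    kr_tor_ram hA hGV β hβ hV (act_tor hT₀) (hne _)
  have hN : 1 < Nm β := by
    have h3 : Nm β ≠ 1 := fun h => hβ.not_isUnit (Nm_eq_one'.1 h)
    have h4 := Nm_ne_zero' hβ.ne_zero
    omega
  have hx0 : x ≠ 0 := by
    refine Finset.prod_ne_zero_iff.2 fun r _ => ?_
    rw [Ne, kr_tt_zero hGV (htr r).1]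
    exact hne _
  obtain ⟨y, hy⟩ : ∃ y : F, algebraMap F Ω y = x := by
    have h3 : x ∈ (⊥ : IntermediateField F Ω) := ku2_mem ⊥ fun s _ => hsx s
    exact IntermediateField.mem_bot.1 h3
  have hy0 : y ≠ 0 := by
    rintro rfl
    rw [map_zero] at hy
    exact hx0 hy.symm
  obtain ⟨k, hk⟩ := qv_intpow V hβ hV y hy0
  have hval : V.valuation x ^ (Nm β - 1) = vo V β ^ Nat.card χ.range := by
    show V.valuation (∏ r : χ.range, tt (act (o (r : (𝓞 F ⧸ Ideal.span {β})ˣ)) T₀)) ^ (Nm β - 1) = _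
    rw [map_prod, ← Finset.prod_pow, Finset.prod_congr rfl fun r _ => (htr r).2, Finset.prod_const,
      Nat.card_eq_fintype_card]
    rfl
  have hdiv : ((Nm β - 1 : ℕ) : ℤ) * k = (Nat.card χ.range : ℤ) := by
    rw [← hy, hk, ← zpow_natCast, ← zpow_natCast, ← zpow_mul] at hval
    have h3 : vo V β ≠ 0 := vo_ne V hβ.ne_zero
    have h4 := (zpow_right_injective₀ (zero_lt_iff.2 h3) hV.ne) hval
    rw [mul_comm] at h4
    exact h4
  have hle : Nm β - 1 ∣ Nat.card χ.range := by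
    have h3 : ((Nm β - 1 : ℕ) : ℤ) ∣ (Nat.card χ.range : ℤ) := ⟨k, hdiv.symm⟩
    exact_mod_cast h3
  have htop : χ.range = ⊤ := by
    refine Subgroup.eq_top_of_le_card _ ?_
    rw [hcard]
    exact Nat.le_of_dvd Nat.card_pos hle
  have hqa : q a ≠ 0 := by
    intro h
    have h3 : act a T₀ = act (0 : 𝓞 F) T₀ := (hq a 0).2 (by rw [h, map_zero])
    rw [act_zero] at h3
    exact ha ((hker a).1 h3)
  have hmem : Units.mk0 (q a) hqa ∈ χ.range := by rw [htop]; trivial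
  obtain ⟨s, hs⟩ := hmem
  refine ⟨s, h1 s a ?_⟩
  rw [hs]
  rfl

/-- THE CYCLOTOMIC CHARACTER is not the character of the points killed by pi. -/
theorem hcyc_not {l : ℕ} {π : 𝓞 F} (h : Dta A B Om j act mo ψ l) (hπ : Prime π) (hd : π ∣ (l : 𝓞 F)) :
    ¬ ∀ (s : Ω ≃ₐ[F] Ω) (n : ℕ), (∀ T ∈ Tor act π, ac (WAB A B) s T = n • T) →
      ∀ ζ : Ω, ζ ^ l = 1 → s ζ = ζ ^ n := by
  intro H
  have hA := h.cma
  have hl := h.prime
  have h5 := h.five
  have hl0 : NeZero l := ⟨hl.ne_zero⟩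
  have hac : IsAlgClosed Ω := IsAlgClosure.isAlgClosed F
  have hch : CharZero Ω := charZero_of_injective_algebraMap (algebraMap F Ω).injective
  have hlΩ : NeZero (l : Ω) := ⟨Nat.cast_ne_zero.2 hl.ne_zero⟩
  have hπ' : Prime (cj π) := cj_prime hπ
  have hd' : cj π ∣ (l : 𝓞 F) := by
    rw [cj_dvd, cj_nat]
    exact hd
  obtain ⟨ζ, hζ⟩ := HasEnoughRootsOfUnity.exists_primitiveRoot Ω l
  have hnd : ∀ β : 𝓞 F, Prime β → β ∣ (l : 𝓞 F) → ∀ n : ℕ, 0 < n → n < l → ¬ β ∣ (n : 𝓞 F) := by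
    intro β hβ hβl n h0 hn hdn
    have hco : IsCoprime (l : ℤ) (n : ℤ) := by
      rw [Nat.isCoprime_iff_coprime]
      exact (Nat.Prime.coprime_iff_not_dvd hl).2 fun h => absurd (Nat.le_of_dvd h0 h) (not_le.2 hn)
    obtain ⟨u, v, huv⟩ := hco
    have h1 : (u : 𝓞 F) * (l : 𝓞 F) + (v : 𝓞 F) * (n : 𝓞 F) = 1 := by exact_mod_cast congrArg (Int.cast : ℤ → 𝓞 F) huv
    apply hβ.not_isUnit
    apply isUnit_of_dvd_one
    rw [← h1]
    exact dvd_add (hβl.mul_left _) (hdn.mul_left _)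
  have hG : ∀ V : ValuationSubring Ω, vo V (cj π) < 1 → GV A B V := by
    intro V hV
    apply h.good V
    obtain ⟨c, hc⟩ := hd'
    rw [← vo_nat (F := F), hc, vo_mul]
    exact mul_lt_one_of_lt_of_le hV (vo_le V c)
  obtain ⟨-, T₀, hT₀, hgen, hker⟩ := gi_gen hA π hπ
  obtain ⟨-, T₁, hT₁, hgen', hker'⟩ := gi_gen hA (cj π) hπ'
  have hT₀0 : T₀ ≠ 0 := by
    intro h
    have h3 : act (1 : 𝓞 F) T₀ = 0 := by rw [h, map_zero]
    exact hπ.not_isUnit (isUnit_of_dvd_one ((hker 1).1 h3))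
  have hT₁0 : T₁ ≠ 0 := by
    intro h
    have h3 : act (1 : 𝓞 F) T₁ = 0 := by rw [h, map_zero]
    exact hπ'.not_isUnit (isUnit_of_dvd_one ((hker' 1).1 h3))
  obtain ⟨s, hs⟩ := act_real hA (cj π) hπ' hG 2 (by
    have h6 := hnd (cj π) hπ' hd' 2 (by omega) (by omega)
    rwa [Nat.cast_ofNat] at h6)
  obtain ⟨n, hn⟩ : ∃ n : ℕ, ∀ T ∈ Tor act π, ac (WAB A B) s T = n • T := by
    rcases dichotomy hl h.unr hπ hd with ⟨h1, -, -⟩ | ⟨-, -, h1, -⟩
    · refine ⟨2, fun T hT => ?_⟩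
      rw [tor_assoc h1] at hs
      rw [hs T hT, ← act_nat (act := act), Nat.cast_ofNat]
    · obtain ⟨a, ha⟩ := hgen _ (ac_mem hA s hT₀)
      obtain ⟨n, hn⟩ := exists_natmod hl h1 a
      refine ⟨n, fun T hT => ?_⟩
      obtain ⟨c, rfl⟩ := hgen T hT
      rw [← hker, act_sub, sub_eq_zero] at hn
      rw [ac_act hA, ha, hn, ← act_nat (act := act), ← act_mul, ← act_mul, mul_comm]
  have hz := H s n hn ζ hζ.pow_eq_one
  have h1 := char_id π l h hπ hd ζ hζ s (n : 𝓞 F) 2 n T₀ T₁ hT₀ hT₀0 hT₁ hT₁0 (by rw [hn T₀ hT₀, act_nat])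
    (hs T₁ hT₁) hz
  have h2 : cj (2 : 𝓞 F) = 2 := by
    have h3 := cj_nat (F := F) 2
    rwa [Nat.cast_ofNat] at h3
  rw [h2] at h1
  have h4 : (2 : 𝓞 F) * n - n = (n : 𝓞 F) := by ring
  rw [h4, ← hker, act_nat, ← hn T₀ hT₀] at h1
  exact ac_ne s hT₀0 h1

end H55K.S
end

-- from Lib.H55K.SF
section

/-! # H55K: the Selmer group over F is zero if there are elliptic units (assembly of the parts S and K) -/

open NumberField IsDedekindDomain WeierstrassCurve

namespace H55K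

open H55P (IQ embF eF LF Per IsHecke Pt ac Inert Dec Nm Coc SelZero)
open H35P (WAB Ker tt)
open H55R (Pl ord)

variable {F : Type} [Field F] [NumberField F] [IQ F] {A B : F} {Om : ℂ} {Ω : Type} [Field Ω] [DecidableEq Ω]
  [Algebra F Ω] {j : Ω →+* ℂ} {act : 𝓞 F →+* AddMonoid.End (Pt (WAB A B) Ω)}

/-- The field generated by the points killed by a prime element. -/
theorem exists_istf [IsAlgClosure F Ω] (hA : CMA F A B Om j act) {π : 𝓞 F} (hπ : Prime π) :
    ∃ L : IntermediateField F Ω, IsTF act π L := by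
  have halg : Algebra.IsAlgebraic F Ω := IsAlgClosure.isAlgebraic
  have hcard := (S.gi_gen hA π hπ).1
  have hfin : Finite (Tor act π) := by
    refine Nat.finite_of_card_ne_zero ?_
    rw [hcard]
    exact S.Nm_ne_zero' hπ.ne_zero
  let X : Set Ω := Set.range (fun T : Tor act π => xc (T : Pt (WAB A B) Ω)) ∪
    Set.range (fun T : Tor act π => yc (T : Pt (WAB A B) Ω))
  have hXf : X.Finite := (Set.finite_range _).union (Set.finite_range _)
  have hX : Finite X := hXf.to_subtype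
  refine ⟨IntermediateField.adjoin F X, ?_, fun s => ?_⟩
  · exact IntermediateField.finiteDimensional_adjoin fun x _ => (halg.isAlgebraic x).isIntegral
  · constructor
    · intro hs T hT
      by_cases h0 : T = 0
      · subst h0
        exact map_zero _
      · have hx : s (xc T) = xc T := (IntermediateField.mem_fixingSubgroup_iff _ s).1 hs _
          (IntermediateField.subset_adjoin F X (Or.inl ⟨⟨T, hT⟩, rfl⟩))
        have hy : s (yc T) = yc T := (IntermediateField.mem_fixingSubgroup_iff _ s).1 hs _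
          (IntermediateField.subset_adjoin F X (Or.inr ⟨⟨T, hT⟩, rfl⟩))
        refine S.pt_ext (S.ac_ne s h0) h0 ?_ ?_
        · rw [S.xc_ac, hx]
        · rw [S.yc_ac, hy]
    · intro hs
      rw [← Subgroup.zpowers_le, ← IntermediateField.le_iff_le, IntermediateField.adjoin_le_iff]
      have key : ∀ x : Ω, s x = x → x ∈ IntermediateField.fixedField (Subgroup.zpowers s) := by
        intro x hx
        rw [IntermediateField.mem_fixedField_iff]
        intro g hg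
        have h1 : Subgroup.zpowers s ≤ MulAction.stabilizer (Ω ≃ₐ[F] Ω) x := by
          rw [Subgroup.zpowers_le]
          exact hx
        exact h1 hg
      rintro x (⟨T, rfl⟩ | ⟨T, rfl⟩)
      · exact key _ (by rw [← S.xc_ac, hs _ T.2])
      · exact key _ (by rw [← S.yc_ac, hs _ T.2])

/-- THE SELMER GROUP OVER F IS ZERO, from the elliptic units. -/
theorem selzero_xi [IsAlgClosure F Ω] {m : Ideal (𝓞 F)} {ψ : Ideal (𝓞 F) →*₀ 𝓞 F} {l : ℕ}
    (h : Dta A B Om j act m ψ l)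
    (hX : ∀ π : 𝓞 F, Prime π → π ∣ (l : 𝓞 F) → ∃ Ξ : Pt (WAB A B) Ω → Ω, XiD act ψ π Ξ) :
    SelZero (WAB A B) l (⊥ : IntermediateField F Ω) := by
  refine S.selzero_of l h fun π c C => ?_
  obtain ⟨Ξ, hΞ⟩ := hX π C.pr C.dvd
  obtain ⟨L, hL⟩ := exists_istf h.cma C.pr
  have hfd : FiniteDimensional F L := hL.1
  have hch : CharZero L := charZero_of_injective_algebraMap (algebraMap F L).injective
  have hQ : FiniteDimensional ℚ L := FiniteDimensional.trans ℚ F L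
  have hnf : NumberField L := ⟨⟩
  obtain ⟨M, h1, h2, h3, h4, h5⟩ := S.partS C (L := L) hL
  exact h5 (geom_main h hΞ C.pr C.dvd (S.hcyc_not h C.pr C.dvd) L hL M h1 h2 h3 h4)

end H55K
end

-- from Lib.H13X.XR1
section

/-! # H13X: the ramified primes, base field F (port of H13Z.LR1, LR2, LR3) -/

open NumberField IsDedekindDomain WeierstrassCurve

namespace H13X

open H55P (IQ embF eF LF Per IsHecke Pt ac Inert Dec Nm Coc)
open H35P (WAB Ker tt)
open H55K (Tor ak xc yc CMA Dta GV GMod cj cj_cj mul_cj cj_prime cj_dvd cj_nat Nm_cj Nm_mul Nm_nat)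
open H55K.S
open H13S (Abv)

variable {F : Type} [Field F] [NumberField F] [IQ F] {A B : F} {Om : ℂ} {Ω : Type} [Field Ω] [DecidableEq Ω]
  [Algebra F Ω] [IsAlgClosure F Ω] {j : Ω →+* ℂ} {act : 𝓞 F →+* AddMonoid.End (Pt (WAB A B) Ω)} {mo : Ideal (𝓞 F)}
  {ψ : Ideal (𝓞 F) →*₀ 𝓞 F}

variable {π : 𝓞 F} {l : ℕ} {V : ValuationSubring Ω} {t : Ω} {e0 : ℕ}

theorem RB.vl (R : RB A B Om j act mo ψ π l V t e0) : V.valuation (l : Ω) < 1 :=
  H55K.S.val_l R.D.dvd (fun V x => vo_le V x) V R.above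

theorem RB.gv (R : RB A B Om j act mo ψ π l V t e0) : GV A B V := R.D.dta.good V R.vl

/-- Basic facts. -/
theorem RB.val_l (R : RB A B Om j act mo ψ π l V t e0) : V.valuation (l : Ω) = vo V π ∧
    V.valuation t ^ (Nm π - 1) = vo V π ∧
    V.valuation t < 1 ∧ V.valuation t ≠ 0 ∧ V.valuation t ^ (e0 * (l - 1)) = V.valuation (l : Ω) ∧
    (Nm π = l ∧ e0 = 1 ∨ Nm π = l ^ 2 ∧ e0 = l + 1 ∧ Tor act (cj π) = Tor act π) := by
  have D := R.D
  have hV := R.above
  have he := R.e0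
  obtain ⟨T, hT, hT0, ht⟩ := R.pt
  obtain ⟨hK, hv⟩ := kr_tor_ram D.cma R.gv π D.pr hV hT hT0
  rw [← ht] at hv
  have h1 : V.valuation t < 1 := by
    rw [ht]
    exact kr_tt_lt R.gv hK
  have h5 := D.five
  have hlo : V.valuation (l : Ω) = vo V (l : 𝓞 F) := (vo_nat V l).symm
  have hdi := dichotomy D.hl D.dta.unr D.pr D.dvd
  have hq : 2 ≤ Nm π := by
    rcases hdi with ⟨-, h, -⟩ | ⟨-, -, h, -⟩
    · rw [h]
      nlinarith
    · omega
  have h2 : V.valuation t ≠ 0 := by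
    intro h
    rw [h, zero_pow (by omega)] at hv
    exact vo_ne V D.pr.ne_zero hv.symm
  have hl : V.valuation (l : Ω) = vo V π := by
    rw [hlo]
    rcases hdi with ⟨-, -, h⟩ | ⟨hn, -, -, h⟩
    · exact vo_assoc V h (fun x => vo_le V x)
    · rw [← h, vo_mul, qv_unit V D.pr hV hn, mul_one]
  refine ⟨hl, hv, h1, h2, ?_, ?_⟩
  · rw [he, hl]
    exact hv
  · rcases hdi with ⟨hc, h, h3⟩ | ⟨-, -, h, -⟩
    · right
      refine ⟨h, ?_, tor_assoc hc⟩
      rw [h] at he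
      obtain ⟨m, rfl⟩ : ∃ m, l = m + 1 := ⟨l - 1, by omega⟩
      have e2 : (m + 1) ^ 2 - 1 = (m + 1 + 1) * (m + 1 - 1) := by
        have : (m + 1) ^ 2 = (m + 1 + 1) * m + 1 := by ring
        rw [this]
        simp
      rw [e2] at he
      exact Nat.eq_of_mul_eq_mul_right (by omega) he
    · left
      refine ⟨h, ?_⟩
      rw [h] at he
      have : e0 * (l - 1) = 1 * (l - 1) := by omega
      exact Nat.eq_of_mul_eq_mul_right (by omega) this

theorem RB.vo_lt (R : RB A B Om j act mo ψ π l V t e0) (a : 𝓞 F) : vo V a < 1 ↔ π ∣ a := by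
  constructor
  · intro h
    by_contra hn
    exact absurd (qv_unit V R.D.pr R.above hn) h.ne
  · rintro ⟨b, rfl⟩
    rw [vo_mul]
    exact (mul_le_of_le_one_right' (vo_le V b)).trans_lt R.above

/-- The field of the points killed by π and its prime below V. -/
theorem rb_base (R : RB A B Om j act mo ψ π l V t e0) : ∃ L : IntermediateField F Ω, H55K.IsTF act π L ∧
    ∃ (_ : NumberField L) (w : HeightOneSpectrum (𝓞 L)) (t' : L), Abv L V w ∧ (t' : Ω) = t ∧
      w.valuation L t' = WithZero.exp (-1 : ℤ) ∧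
      ∀ a : 𝓞 L, ∃ b : 𝓞 F, a - algebraMap (𝓞 F) (𝓞 L) b ∈ w.asIdeal := by
  classical
  have hp := R.D.pr
  have hA := R.D.cma
  obtain ⟨L, hLT⟩ := H55K.exists_istf hA hp
  have hfin : FiniteDimensional F L := hLT.1
  have hnf : NumberField L := NumberField.of_module_finite F _
  have hL := H55K.tfld_of_istf hA hLT
  have hgal : IsGalois F L := hL.gal
  have hV := R.above
  have hpi : V.valuation (((algebraMap F L (π : F) : L)) : Ω) < 1 := hV
  have hpi0 : (algebraMap F L (π : F)) ≠ 0 := by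
    rw [Ne, map_eq_zero_iff _ (algebraMap F L).injective]
    intro h
    apply hp.ne_zero
    exact RingOfIntegers.coe_injective (h.trans (map_zero _).symm)
  obtain ⟨w, hw⟩ := H13S.exists_below L V ⟨(algebraMap F L (π : F))⁻¹, by
    intro hin
    rw [← V.valuation_le_one_iff] at hin
    have e : (((algebraMap F L (π : F))⁻¹ : L) : Ω) = (((algebraMap F L (π : F) : L)) : Ω)⁻¹ := rfl
    rw [e, map_inv₀] at hin
    have h0 : 0 < V.valuation (((algebraMap F L (π : F) : L)) : Ω) :=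
      zero_lt_iff.2 ((map_ne_zero _).2 fun h => hpi0 (Subtype.ext h))
    rw [inv_le_one₀ h0] at hin
    exact absurd hin (not_le.2 hpi)⟩
  have hwpi := (hw.lt _).1 hpi
  have hmem : algebraMap (𝓞 F) (𝓞 L) π ∈ w.asIdeal := by
    have h1 : algebraMap F L (π : F) = algebraMap (𝓞 L) L (algebraMap (𝓞 F) (𝓞 L) π) := rfl
    rw [h1, HeightOneSpectrum.valuation_lt_one_iff_mem] at hwpi
    exact hwpi
  have hv := H55K.k10_below hp w hmem
  have tr := H55K.tot_ram hA hp hL (w.under (𝓞 F)) (H55K.k10_val hp _ hv) (fun V' hV' =>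
    R.D.dta.good V' (H55K.S.val_l R.D.dvd (fun V x => vo_le V x) V' hV'))
  obtain ⟨T, hT, hT0, hTt⟩ := R.pt
  obtain ⟨x, y, hx, hy⟩ := hL.crd T hT
  have htt : (((x / y : L)) : Ω) = tt T := by
    rw [H55K.tt_eq, ← hx, ← hy]
    rfl
  refine ⟨L, hLT, hnf, w, x / y, hw, ?_, tr.val w rfl T hT hT0 _ htt, ?_⟩
  · rw [hTt, htt]
  · intro a
    have hmax : (w.under (𝓞 F)).asIdeal.IsMaximal := (w.under (𝓞 F)).isMaximal
    let _ : Field (𝓞 F ⧸ (w.under (𝓞 F)).asIdeal) := Ideal.Quotient.field _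
    obtain ⟨r, hr, hr2⟩ := H55K.k5_res (w.under (𝓞 F)) w rfl tr.fs (k := 𝓞 F ⧸ (w.under (𝓞 F)).asIdeal)
      (Ideal.Quotient.mk (w.under (𝓞 F)).asIdeal) (fun x => Ideal.Quotient.eq_zero_iff_mem)
    obtain ⟨b, hb⟩ := Ideal.Quotient.mk_surjective (r a)
    refine ⟨b, ?_⟩
    rw [← hr, map_sub, hr2, hb, sub_self]

/-- An element fixed by the inertia elements which fix the points killed by π has the value of a power of t. -/
theorem values_inert (R : RB A B Om j act mo ψ π l V t e0) {x : Ω} (h0 : x ≠ 0)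
    (hx : ∀ s : Ω ≃ₐ[F] Ω, H55P.Inert V s → (∀ T ∈ Tor act π, ac (WAB A B) s T = T) → s x = x) :
    ∃ n : ℤ, V.valuation x = V.valuation t ^ n := by
  obtain ⟨L, hL, hnf, w, t', hw, ht, hwt, -⟩ := rb_base R
  obtain ⟨a, ha0, ha⟩ := H13S.value_fixed L V x h0 fun s hs hi => hx s hi ((hL.2 s).1 hs)
  have ht0 : t' ≠ 0 := by
    rintro rfl
    rw [map_zero] at hwt
    exact WithZero.exp_ne_zero hwt.symm
  have hwa : w.valuation L a ≠ 0 := (map_ne_zero _).2 ha0
  obtain ⟨m, hm⟩ : ∃ m : ℤ, w.valuation L a = WithZero.exp m :=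
    ⟨WithZero.log (w.valuation L a), (WithZero.exp_log hwa).symm⟩
  have h1 : w.valuation L a = w.valuation L (t' ^ (-m)) := by
    rw [hm, map_zpow₀, hwt, ← WithZero.exp_zsmul]
    congr 1
    simp
  have h2 : V.valuation (a : Ω) = V.valuation ((t' ^ (-m) : L) : Ω) :=
    le_antisymm ((hw.le _ _).2 h1.le) ((hw.le _ _).2 h1.ge)
  refine ⟨-m, ?_⟩
  rw [ha, h2]
  have e : ((t' ^ (-m) : L) : Ω) = (t' : Ω) ^ (-m) := rfl
  rw [e, map_zpow₀, ht]

theorem rb_mem {L : IntermediateField F Ω} (hL : H55K.IsTF act π L) {x : Ω} (hx : x ∈ L) : Hx act π ⊥ V x := by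
  intro s hs
  exact (IntermediateField.mem_fixingSubgroup_iff L s).1 ((hL.2 s).2 hs.2) x hx

/-- Residues over F. -/
theorem RB.residue (R : RB A B Om j act mo ψ π l V t e0) {x : Ω} (hx : Hx act π ⊥ V x) (h1 : V.valuation x ≤ 1) :
    ∃ a : 𝓞 F, V.valuation (x - algebraMap F Ω (a : F)) < 1 := by
  obtain ⟨L, hL, hnf, w, t', hw, ht, hwt, hres⟩ := rb_base R
  obtain ⟨-, -, ht1, ht0, -, -⟩ := R.val_l
  have htp : 0 < V.valuation t := zero_lt_iff.2 ht0
  have hV : V ≠ ⊤ := by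
    intro h
    have h2 : t⁻¹ ∈ V := by rw [h]; trivial
    rw [← V.valuation_le_one_iff, map_inv₀, inv_le_one₀ htp] at h2
    exact absurd h2 (not_le.2 ht1)
  have hbot : ∀ s : Ω ≃ₐ[F] Ω, s ∈ (⊥ : IntermediateField F Ω).fixingSubgroup := by
    intro s
    rw [IntermediateField.fixingSubgroup_bot]
    exact Subgroup.mem_top s
  obtain ⟨a, ha⟩ := H13S.residue_fixed L V hV x ((V.valuation_le_one_iff _).1 h1)
    fun s hs hd => hx s ⟨⟨hbot s, hd⟩, (hL.2 s).1 hs⟩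
  obtain ⟨b, hb⟩ := hres a
  refine ⟨b, ?_⟩
  have h3 : w.valuation L (algebraMap (𝓞 L) L (a - algebraMap (𝓞 F) (𝓞 L) b)) < 1 :=
    (HeightOneSpectrum.valuation_lt_one_iff_mem w _).2 hb
  have h4 := (hw.lt _).2 h3
  have e : (((algebraMap (𝓞 L) L (a - algebraMap (𝓞 F) (𝓞 L) b) : L)) : Ω) =
      ((a : L) : Ω) - algebraMap F Ω (b : F) := rfl
  rw [e] at h4
  have e2 : x - algebraMap F Ω (b : F) = (x - ((a : L) : Ω)) + (((a : L) : Ω) - algebraMap F Ω (b : F)) := by ring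
  rw [e2]
  exact V.valuation.map_add_lt ha h4

/-- The inertia group acts through all of (𝓞 F/π)^*. -/
theorem RB.exists_inert (R : RB A B Om j act mo ψ π l V t e0) {a : 𝓞 F} (ha : ¬ π ∣ a) :
    ∃ s : Ω ≃ₐ[F] Ω, H55P.Inert V s ∧ ∀ T ∈ Tor act π, ac (WAB A B) s T = act a T := by
  classical
  have hp : Prime π := R.D.pr
  have hA := R.D.cma
  obtain ⟨L, hLT⟩ := H55K.exists_istf hA hp
  have hfin : FiniteDimensional F L := hLT.1
  have hnf : NumberField L := NumberField.of_module_finite F _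
  have hL := H55K.tfld_of_istf hA hLT
  have hgal : IsGalois F L := hL.gal
  have hint : Algebra.IsAlgebraic F Ω := IsAlgClosure.isAlgebraic
  obtain ⟨T₁, hT₁, hT₁0, ht⟩ := R.pt
  obtain ⟨-, -, ht1, ht0, -⟩ := R.val_l
  obtain ⟨x, y, hx, hy⟩ := hL.crd T₁ hT₁
  have htN : t ∈ L := by
    rw [ht, H55K.tt_eq, ← hx, ← hy]
    exact (x / y).2
  obtain ⟨w, hw⟩ := H13S.exists_below L V ⟨(⟨t, htN⟩ : L)⁻¹, by
    rw [← V.valuation_le_one_iff]
    have e : (((⟨t, htN⟩ : L)⁻¹ : L) : Ω) = t⁻¹ := rfl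
    rw [e, map_inv₀, not_le]
    exact (one_lt_inv₀ (zero_lt_iff.2 ht0)).2 ht1⟩
  have hwπ : algebraMap (𝓞 F) (𝓞 L) π ∈ w.asIdeal := by
    rw [← HeightOneSpectrum.valuation_lt_one_iff_mem (K := L), ← hw.lt]
    exact R.above
  have hv := H55K.k10_below hp w hwπ
  have TR := H55K.tot_ram hA hp hL (w.under (𝓞 F)) (H55K.k10_val hp _ hv) (fun V' hV' =>
    R.D.dta.good V' (H55K.S.val_l R.D.dvd (fun V x => vo_le V x) V' hV'))
  have haR : act a T₁ ≠ 0 := by
    rw [Ne, H55K.tor_zero hA hp hT₁ hT₁0]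
    exact ha
  obtain ⟨σ, hσ⟩ := TR.orb T₁ hT₁ hT₁0 (act a T₁) (act_tor hT₁) haR
  obtain ⟨s, hs⟩ := H55K.exists_lft (Ω := Ω) (F := F) σ
  have hpt : ∀ T ∈ Tor act π, ac (WAB A B) s T = act a T := by
    intro T hT
    obtain ⟨c, hc⟩ := H55K.tor_gen hA hp hT₁ hT hT₁0
    rw [← hc, ac_act hA, hσ s hs, ← act_mul, mul_comm, act_mul]
  have hs' : ∀ x : L, s (x : Ω) = ((σ x : L) : Ω) := hs
  have hN : ∀ x ∈ L, s x ∈ L := by
    intro x hx
    rw [hs' ⟨x, hx⟩]
    exact (σ _).2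
  have hsm : H55R.smulP σ w = w := TR.one _ _ (H55R.under_smulP σ w) rfl
  have hval : ∀ x : L, w.valuation L (σ x) = w.valuation L x := by
    intro x
    have h1 := H55K.Ab.T3_val σ w (σ x)
    rw [hsm] at h1
    rw [← h1]
    congr 1
    exact σ.symm_apply_apply x
  have hI : ∀ x ∈ L, x ∈ V → V.valuation (s x - x) < 1 := by
    intro x hx hxV
    obtain ⟨b, hb⟩ := R.residue (rb_mem hLT hx) ((V.valuation_le_one_iff _).2 hxV)
    have e : s x - x = s (x - algebraMap F Ω (b : F)) - (x - algebraMap F Ω (b : F)) := by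
      rw [map_sub, s.commutes]
      ring
    have hy : x - algebraMap F Ω (b : F) ∈ L := sub_mem hx (L.algebraMap_mem _)
    rw [e]
    refine lt_of_le_of_lt (V.valuation.map_sub _ _) (max_lt ?_ hb)
    rw [hs' ⟨_, hy⟩, hw.lt, hval, ← hw.lt]
    exact hb
  obtain ⟨s', hs'1, hs'2⟩ := H13S.inertia_lift L V s hN hI
  refine ⟨s', hs'1, fun T hT => ?_⟩
  rw [← hpt T hT]
  have h1 : s⁻¹ * s' ∈ L.fixingSubgroup := by
    rw [IntermediateField.mem_fixingSubgroup_iff]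
    intro x hx
    show s.symm (s' x) = x
    rw [hs'2 x hx, s.symm_apply_apply]
  have h2 := (hLT.2 _).1 h1 T hT
  rw [ac_mul] at h2
  have h3 := congrArg (ac (WAB A B) s) h2
  rw [ac_inv] at h3
  exact h3

/-- s t = a t modulo V t^2 if s acts as act a on Tor π. -/
theorem RB.act_t (R : RB A B Om j act mo ψ π l V t e0) {a : 𝓞 F} {s : Ω ≃ₐ[F] Ω}
    (hs : ∀ T ∈ Tor act π, ac (WAB A B) s T = act a T) :
    V.valuation (s t - algebraMap F Ω (a : F) * t) ≤ V.valuation t ^ 2 := by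
  obtain ⟨T₁, hT₁, hT₁0, rfl⟩ := R.pt
  have hK := (kr_tor_ram R.D.cma R.gv π R.D.pr R.above hT₁ hT₁0).1
  have h1 : s (tt T₁) = tt (act a T₁) := by
    rw [← hs T₁ hT₁, tt_ac]
  rw [h1]
  exact kr_tt_act R.D.cma R.gv a hK

end H13X
end

-- from Lib.H13X.XR
section

/-! # H13X: port of H13Y/YR -/

open NumberField IsDedekindDomain WeierstrassCurve

namespace H13X

open H55P (IQ embF eF LF Per IsHecke Pt ac Inert Dec Nm Coc)
open H35P (WAB Ker tt)
open H55K (Tor ak xc yc CMA Dta GV GMod cj cj_cj mul_cj cj_prime cj_dvd cj_nat Nm_cj Nm_mul Nm_nat)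
open H55K.S
open H13S (Abv)





variable {F : Type} [Field F] [NumberField F] [IQ F] {A B : F} {Om : ℂ} {Ω : Type} [Field Ω] [DecidableEq Ω]
  [Algebra F Ω] [IsAlgClosure F Ω] {j : Ω →+* ℂ} {act : 𝓞 F →+* AddMonoid.End (Pt (WAB A B) Ω)} {mo : Ideal (𝓞 F)}
  {ψ : Ideal (𝓞 F) →*₀ 𝓞 F}

variable {π : 𝓞 F} {l : ℕ} {N : IntermediateField F Ω} {V : ValuationSubring Ω} {t : Ω} {e0 : ℕ}

theorem RV.lt (R : RV A B Om j act mo ψ π l N V t e0) : V.valuation (l : Ω) < 1 := by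
  rw [R.base.val_l.1]
  exact R.base.above

theorem RV.dec (R : RV A B Om j act mo ψ π l N V t e0) {s : Ω ≃ₐ[F] Ω} (hs : Inert V s) : DecN N V s :=
  R.nb.dec R.lt hs

theorem RV.values (R : RV A B Om j act mo ψ π l N V t e0) {x : Ω} (hx : Hx act π N V x) (h0 : x ≠ 0) :
    ∃ n : ℤ, V.valuation x = V.valuation t ^ n :=
  values_inert R.base h0 fun s hs hT => hx s ⟨R.dec hs, hT⟩

theorem RV.step (R : RV A B Om j act mo ψ π l N V t e0) {x : Ω} (hx : Hx act π N V x) {i : ℕ}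
    (h : V.valuation x < V.valuation t ^ i) : V.valuation x ≤ V.valuation t ^ (i + 1) := by
  by_cases h0 : x = 0
  · rw [h0, map_zero]
    exact zero_le
  obtain ⟨n, hn⟩ := R.values hx h0
  obtain ⟨-, -, ht1, ht0, -, -⟩ := R.base.val_l
  have htp : 0 < V.valuation t := zero_lt_iff.2 ht0
  rw [hn] at h ⊢
  have h2 : (i : ℤ) < n := by
    by_contra hc
    rw [not_lt] at hc
    have h3 : V.valuation t ^ (i : ℤ) ≤ V.valuation t ^ n :=
      zpow_le_zpow_right_of_le_one₀ htp ht1.le hc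
    rw [zpow_natCast] at h3
    exact absurd h (not_lt.2 h3)
  have h3 : V.valuation t ^ n ≤ V.valuation t ^ ((i + 1 : ℕ) : ℤ) :=
    zpow_le_zpow_right_of_le_one₀ htp ht1.le (by push_cast; omega)
  rw [zpow_natCast] at h3
  exact h3

omit [IsAlgClosure F Ω] in
theorem yr_act {a b : 𝓞 F} {T : Pt (WAB A B) Ω} (hT : T ∈ Tor act π)
    (h : Ideal.Quotient.mk (Ideal.span {π}) a = Ideal.Quotient.mk (Ideal.span {π}) b) :
    act a T = act b T := by
  rw [Ideal.Quotient.eq, Ideal.mem_span_singleton] at h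
  obtain ⟨c, hc⟩ := h
  have h1 : act (a - b) T = 0 := by
    rw [hc, mul_comm, act_mul, mem_Tor.1 hT, map_zero]
  rw [act_sub] at h1
  exact sub_eq_zero.1 h1

omit [IsAlgClosure F Ω] in
theorem yr_mem {a : 𝓞 F} {T : Pt (WAB A B) Ω} (hT : T ∈ Tor act π) : act a T ∈ Tor act π := by
  rw [mem_Tor, ← act_mul, mul_comm, act_mul, mem_Tor.1 hT, map_zero]

/-- Chunk YR (M). Residues come from N. For each class ζ in (𝓞 F/π)^* choose a representative a in 𝓞 F (not divisible by π) and an inertia element s_ζ acting as act a on Tor π (RV.exists_inert R.base); it is in DecN (R.dec). b = (1/(Nm π - 1)) * sum over ζ of s_ζ x: V (s_ζ x - x) < 1, V (Nm π - 1) = 1 (Nm π - 1 is an integer prime to l, V l < 1), so V (b - x) < 1.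
b is fixed by every s in DecN N V: s acts as act c on Tor π (exists_chi/gi_gen; π does not divide c), s s_ζ and s_(cζ) act in the same way, so s_(cζ)⁻¹ s s_ζ is in DT and fixes x: s s_ζ x = s_(cζ) x; the sum is permuted. H13S.residue_fixed for K = N (NumberField from R.nb.fin; V ≠ ⊤ because V l < 1): a in 𝓞 N with V (b - a) < 1. -/
theorem RV.residue (R : RV A B Om j act mo ψ π l N V t e0) {x : Ω} (hx : Hx act π N V x) (h1 : V.valuation x ≤ 1) :
    ∃ a ∈ N, V.valuation a ≤ 1 ∧ V.valuation (x - a) < 1 := by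
  classical
  have hp := R.base.D.pr
  obtain ⟨χ, hχ, -⟩ := exists_chi R.base.D.cma π hp
  have hpp : (Ideal.span {π}).IsPrime := (Ideal.span_singleton_prime hp.ne_zero).2 hp
  have hbot : Ideal.span {π} ≠ ⊥ := by
    rw [Ne, Ideal.span_singleton_eq_bot]
    exact hp.ne_zero
  have hm : (Ideal.span {π}).IsMaximal := hpp.isMaximal hbot
  have hfin : Finite (𝓞 F ⧸ Ideal.span {π}) := Ideal.finiteQuotientOfFreeOfNeBot _ hbot
  have hcard : Nat.card (𝓞 F ⧸ Ideal.span {π})ˣ = Nm π - 1 := by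
    let _ := Ideal.Quotient.field (Ideal.span {π})
    exact Nat.card_units (𝓞 F ⧸ Ideal.span {π})
  let _ : Fintype (𝓞 F ⧸ Ideal.span {π})ˣ := Fintype.ofFinite _
  have hnt : Nontrivial (𝓞 F ⧸ Ideal.span {π}) := Ideal.Quotient.nontrivial_iff.2 hpp.ne_top
  have hA : ∀ u : (𝓞 F ⧸ Ideal.span {π})ˣ, ∃ a : 𝓞 F,
      Ideal.Quotient.mk (Ideal.span {π}) a = (u : 𝓞 F ⧸ Ideal.span {π}) := fun u =>
    Ideal.Quotient.mk_surjective _
  choose A₀ hA using hA
  have hnd : ∀ u, ¬ π ∣ A₀ u := by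
    intro u h
    have h1 : (u : 𝓞 F ⧸ Ideal.span {π}) = 0 := by
      rw [← hA u, Ideal.Quotient.eq_zero_iff_mem, Ideal.mem_span_singleton]
      exact h
    exact u.ne_zero h1
  have hS : ∀ u, ∃ s : Ω ≃ₐ[F] Ω, Inert V s ∧ ∀ T ∈ Tor act π, ac (WAB A B) s T = act (A₀ u) T :=
    fun u => R.base.exists_inert (hnd u)
  choose S hSI hST using hS
  -- the sum is fixed
  have key : ∀ s, DecN N V s → ∀ u, s (S u x) = S (χ s * u) x := by
    intro s hs u
    have hD : DT act π N V ((S (χ s * u))⁻¹ * (s * S u)) := by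
      refine ⟨(R.dec (hSI _)).inv.mul (hs.mul (R.dec (hSI u))), fun T hT => ?_⟩
      obtain ⟨c, hc⟩ := Ideal.Quotient.mk_surjective ((χ s : (𝓞 F ⧸ Ideal.span {π})ˣ) : 𝓞 F ⧸ Ideal.span {π})
      have h1 : ac (WAB A B) (s * S u) T = ac (WAB A B) (S (χ s * u)) T := by
        rw [ac_mul, hST u T hT, hχ s c hc _ (yr_mem hT), hST _ T hT, ← act_mul]
        refine yr_act hT ?_
        rw [map_mul, hc, hA, hA, Units.val_mul]
      rw [ac_mul, h1, ← ac_mul, inv_mul_cancel, ac_one]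
    have h2 := hx _ hD
    have h3 : ((S (χ s * u))⁻¹ * (s * S u)) x = (S (χ s * u)).symm (s (S u x)) := rfl
    rw [h3] at h2
    rw [← h2, (S (χ s * u)).apply_symm_apply]
    rw [h2]
  obtain ⟨hl1, -, ht1, ht0, -, hN⟩ := R.base.val_l
  have hVl := R.lt
  have hn : V.valuation ((Fintype.card (𝓞 F ⧸ Ideal.span {π})ˣ : ℕ) : Ω) = 1 := by
    have h1 : V.valuation ((Nm π : ℕ) : Ω) < 1 := by
      rcases hN with h | h
      · rw [h.1]
        exact hVl
      · rw [h.1, Nat.cast_pow, map_pow]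
        exact pow_lt_one₀ zero_le hVl two_ne_zero
    have h2 : 1 ≤ Nm π := by
      rcases hN with h | h
      · rw [h.1]
        exact R.base.D.hl.one_le
      · rw [h.1]
        exact Nat.one_le_pow _ _ R.base.D.hl.pos
    rw [← Nat.card_eq_fintype_card, hcard, Nat.cast_sub h2, Nat.cast_one]
    rw [Valuation.map_sub_swap, Valuation.map_one_sub_of_lt _ h1]
  have hn0 : ((Fintype.card (𝓞 F ⧸ Ideal.span {π})ˣ : ℕ) : Ω) ≠ 0 := by
    intro h
    rw [h, map_zero] at hn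
    exact zero_ne_one hn
  have hb : ∀ b : Ω, b = ((Fintype.card (𝓞 F ⧸ Ideal.span {π})ˣ : ℕ) : Ω)⁻¹ * ∑ u, S u x →
      V.valuation (b - x) < 1 := by
    intro b hb
    have h1' : b - x = ((Fintype.card (𝓞 F ⧸ Ideal.span {π})ˣ : ℕ) : Ω)⁻¹ * ∑ u, (S u x - x) := by
      rw [Finset.sum_sub_distrib, Finset.sum_const, Finset.card_univ, nsmul_eq_mul, mul_sub,
        inv_mul_cancel_left₀ hn0, hb]
    rw [h1', map_mul, map_inv₀, hn, inv_one, one_mul]
    exact V.valuation.map_sum_lt one_ne_zero fun u _ => hSI u x ((V.valuation_le_one_iff _).1 h1)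
  obtain ⟨b, hbd⟩ : ∃ b : Ω, b = ((Fintype.card (𝓞 F ⧸ Ideal.span {π})ˣ : ℕ) : Ω)⁻¹ * ∑ u, S u x :=
    ⟨_, rfl⟩
  have hbx := hb b hbd
  have hb1 : V.valuation b ≤ 1 := by
    have e : b = (b - x) + x := by ring
    rw [e]
    exact (V.valuation.map_add _ _).trans (max_le hbx.le h1)
  have hbf : ∀ s ∈ N.fixingSubgroup, Dec V s → s b = b := by
    intro s hs hd
    rw [hbd, map_mul, map_inv₀, map_natCast, map_sum]
    congr 1
    rw [Finset.sum_congr rfl fun u _ => key s ⟨hs, hd⟩ u]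
    exact Fintype.sum_equiv (Equiv.mulLeft (χ s)) _ _ fun u => rfl
  have hV : V ≠ ⊤ := by
    intro h
    have htp : 0 < V.valuation t := zero_lt_iff.2 ht0
    have h2 : t⁻¹ ∈ V := by rw [h]; trivial
    rw [← V.valuation_le_one_iff, map_inv₀, inv_le_one₀ htp] at h2
    exact absurd h2 (not_le.2 ht1)
  have hfd := R.nb.fin
  have hnf : NumberField N := NumberField.of_module_finite F _
  obtain ⟨a, ha⟩ := H13S.residue_fixed N V hV b ((V.valuation_le_one_iff _).1 hb1) hbf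
  refine ⟨((a : N) : Ω), (a : N).2, ?_, ?_⟩
  · have e : ((a : N) : Ω) = b - (b - ((a : N) : Ω)) := by ring
    rw [e]
    exact (V.valuation.map_sub _ _).trans (max_le hb1 ha.le)
  · have e : x - ((a : N) : Ω) = (b - ((a : N) : Ω)) - (b - x) := by ring
    rw [e]
    exact lt_of_le_of_lt (V.valuation.map_sub _ _) (max_lt ha hbx)


end H13X
end

-- from Lib.H13X.XU
section

/-! # H13X: port of H13Y/YU -/

open NumberField IsDedekindDomain WeierstrassCurve

namespace H13X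

open H55P (IQ embF eF LF Per IsHecke Pt ac Inert Dec Nm Coc)
open H35P (WAB Ker tt)
open H55K (Tor ak xc yc CMA Dta GV GMod cj cj_cj mul_cj cj_prime cj_dvd cj_nat Nm_cj Nm_mul Nm_nat)
open H55K.S
open H13S (Abv)





variable {F : Type} [Field F] [NumberField F] [IQ F] {A B : F} {Om : ℂ} {Ω : Type} [Field Ω] [DecidableEq Ω]
  [Algebra F Ω] [IsAlgClosure F Ω] {j : Ω →+* ℂ} {act : 𝓞 F →+* AddMonoid.End (Pt (WAB A B) Ω)} {mo : Ideal (𝓞 F)}
  {ψ : Ideal (𝓞 F) →*₀ 𝓞 F}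

variable {π : 𝓞 F} {l : ℕ} {N : IntermediateField F Ω} {V : ValuationSubring Ω} {t : Ω} {e0 : ℕ}

/-- The binomial formula modulo l. -/
theorem lu_add_pow (V : ValuationSubring Ω) (hl : l.Prime) {x y : Ω} (hx : V.valuation x ≤ 1)
    (hy : V.valuation y ≤ 1) : ∃ r, V.valuation r ≤ 1 ∧ (x + y) ^ l = x ^ l + y ^ l + l * x * y * r := by
  have hx' := (V.valuation_le_one_iff x).1 hx
  have hy' := (V.valuation_le_one_iff y).1 hy
  obtain ⟨r, hr⟩ := exists_add_pow_prime_eq hl (⟨x, hx'⟩ : V) (⟨y, hy'⟩ : V)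
  refine ⟨r, (V.valuation_le_one_iff _).2 r.2, ?_⟩
  have h1 := congrArg (fun a : V => (a : Ω)) hr
  simpa using h1

theorem xu_max {π : 𝓞 F} (hp : Prime π) : (Ideal.span {π}).IsMaximal := by
  have h1 : (Ideal.span {π}).IsPrime := (Ideal.span_singleton_prime hp.ne_zero).2 hp
  refine h1.isMaximal ?_
  rw [Ne, Ideal.span_singleton_eq_bot]
  exact hp.ne_zero


/-- Chunk YU (M), PORT of H13Z/LU.lean to the base field N (RV.values, RV.step, RV.residue of YR.lean; R.base.val_l). -/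
theorem RV.pow_unit (R : RV A B Om j act mo ψ π l N V t e0) {z : Ω} (hz : Hx act π N V z) {i : ℕ} (hi : 1 ≤ i) (h2 : i < l * e0)
    (h3 : ¬ l ∣ i) (h : V.valuation (z ^ l - 1) ≤ V.valuation t ^ i) :
    V.valuation (z ^ l - 1) ≤ V.valuation t ^ (i + 1) := by
  obtain ⟨hl1, hq, ht1, ht0, he, -⟩ := R.base.val_l
  have hlp := R.base.D.hl
  have hl2 : 2 ≤ l := hlp.two_le
  set r := V.valuation t with hr
  have hr0 : 0 < r := zero_lt_iff.2 ht0
  have hle : ∀ {a b : ℕ}, a ≤ b → r ^ b ≤ r ^ a := fun {a b} hab => pow_le_pow_right_of_le_one' ht1.le hab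
  have hlt : ∀ {a b : ℕ}, a < b → r ^ b < r ^ a := fun {a b} hab => pow_lt_pow_right_of_lt_one₀ hr0 ht1 hab
  have hw1 : V.valuation (z ^ l - 1) < 1 := lt_of_le_of_lt h (pow_lt_one₀ zero_le ht1 (by omega))
  have hvl : V.valuation (l : Ω) < 1 := by
    rw [hl1]
    exact R.base.above
  have hz1 : V.valuation z = 1 := by
    have h4 : V.valuation (z ^ l) = 1 := by
      have h5 : z ^ l = (z ^ l - 1) + 1 := by ring
      rw [h5]
      rw [Valuation.map_add_eq_of_lt_right]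
      · exact map_one V.valuation
      · rw [map_one]
        exact hw1
    rw [map_pow] at h4
    exact (pow_eq_one_iff.1 h4).resolve_right (by omega)
  obtain ⟨d, hd⟩ : ∃ d, d = z - 1 := ⟨_, rfl⟩
  have hzd : z = d + 1 := by rw [hd]; ring
  have hd1 : V.valuation d ≤ 1 := by
    rw [hd]
    exact V.valuation.map_sub_le hz1.le (map_one _).le
  obtain ⟨b, hb, hexp⟩ := lu_add_pow (l := l) V hlp hd1 (y := 1) (map_one _).le
  rw [← hzd, one_pow] at hexp
  have hexp' : z ^ l - 1 = d ^ l + l * d * b := by rw [hexp]; ring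
  have hrest : V.valuation (l * d * b) ≤ V.valuation (l : Ω) * V.valuation d := by
    rw [map_mul, map_mul]
    exact mul_le_of_le_one_right' hb
  have hdlt : V.valuation d < 1 := by
    have h5 : d ^ l = (z ^ l - 1) - l * d * b := by rw [hexp']; ring
    have h6 : V.valuation (d ^ l) < 1 := by
      rw [h5]
      refine lt_of_le_of_lt (Valuation.map_sub _ _ _) (max_lt hw1 (lt_of_le_of_lt hrest ?_))
      exact lt_of_le_of_lt (mul_le_of_le_one_right' hd1) hvl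
    rw [map_pow] at h6
    by_contra hcon
    exact absurd h6 (not_lt.2 (one_le_pow_of_one_le' (not_lt.1 hcon) l))
  by_cases hd0 : d = 0
  · have : z ^ l - 1 = 0 := by
      rw [hexp', hd0, zero_pow (by omega)]
      ring
    rw [this, map_zero]
    exact zero_le
  have hHd : Hx act π N V d := by
    rw [hd]
    exact hz.sub Hx.one
  obtain ⟨n, hn⟩ := R.values hHd hd0
  rw [← hr] at hn
  have hn0 : 0 < n := by
    by_contra hcon
    have h5 : n ≤ 0 := not_lt.1 hcon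
    obtain ⟨k, hk⟩ := Int.exists_eq_neg_ofNat h5
    rw [hn, hk, zpow_neg, zpow_natCast] at hdlt
    have h6 : r ^ k ≤ 1 := pow_le_one₀ zero_le ht1.le
    have h7 : 1 ≤ (r ^ k)⁻¹ := by
      rw [one_le_inv₀ (pow_pos hr0 k)]
      exact h6
    exact absurd hdlt (not_lt.2 h7)
  obtain ⟨j, hj⟩ : ∃ j : ℕ, n = j := ⟨n.toNat, (Int.toNat_of_nonneg hn0.le).symm⟩
  rw [hj, zpow_natCast] at hn
  have hj0 : 1 ≤ j := by omega
  have hrest' : V.valuation (l * d * b) ≤ r ^ (e0 * (l - 1) + j) := by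
    rw [pow_add, he, ← hn]
    exact hrest
  have hdl : V.valuation (d ^ l) = r ^ (l * j) := by
    rw [map_pow, hn, ← pow_mul, mul_comm]
  by_cases hje : j < e0
  · have h5 : l * j < e0 * (l - 1) + j := by
      obtain ⟨k, rfl⟩ : ∃ k, l = k + 1 := ⟨l - 1, by omega⟩
      rw [Nat.add_sub_cancel]
      have h6 : k * j < k * e0 := Nat.mul_lt_mul_of_pos_left hje (by omega)
      have e1 : (k + 1) * j = k * j + j := by ring
      rw [e1, mul_comm e0 k]
      omega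
    have h6 : V.valuation (z ^ l - 1) = r ^ (l * j) := by
      rw [hexp', Valuation.map_add_eq_of_lt_left]
      · exact hdl
      · rw [hdl]
        exact lt_of_le_of_lt hrest' (hlt h5)
    rw [h6] at h ⊢
    apply hle
    have h7 : i ≤ l * j := by
      by_contra hcon
      exact absurd h (not_le.2 (hlt (not_le.1 hcon)))
    rcases Nat.eq_or_lt_of_le h7 with h8 | h8
    · exact absurd ⟨j, h8⟩ h3
    · exact h8
  · have h5 : l * e0 ≤ l * j := Nat.mul_le_mul_left l (not_lt.1 hje)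
    have h6 : l * e0 ≤ e0 * (l - 1) + j := by
      obtain ⟨k, rfl⟩ : ∃ k, l = k + 1 := ⟨l - 1, by omega⟩
      rw [Nat.add_sub_cancel]
      have e1 : (k + 1) * e0 = e0 * k + e0 := by ring
      rw [e1]
      omega
    rw [hexp']
    refine Valuation.map_add_le _ ?_ ?_
    · rw [hdl]
      exact hle (by omega)
    · exact hrest'.trans (hle (by omega))

/-- The l-th root of the residue a in N: the residue field of N is finite (R.nb.res with β = π: a^q - a has value < 1, q = (Nm π)^(l^j) is a power of l, so b = a^(q/l)). -/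
theorem RV.raise_mul (R : RV A B Om j act mo ψ π l N V t e0) {m : Ω} (hm : Hx act π N V m) (h0 : m ≠ 0) {j : ℕ} (hj : 1 ≤ j)
    (h2 : j < e0) (h : Lv act π l N V (V.valuation t ^ (l * j)) m) : Lv act π l N V (V.valuation t ^ (l * j + 1)) m := by
  obtain ⟨hl1, hq, ht1, ht0, he, hcase⟩ := R.base.val_l
  have hlp := R.base.D.hl
  have hl2 : 2 ≤ l := hlp.two_le
  obtain ⟨hN, -⟩ : Nm π = l ^ 2 ∧ True := by
    rcases hcase with h3 | h3
    · omega
    · exact ⟨h3.1, trivial⟩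
  have hHt : Hx act π N V t := by
    obtain ⟨T, hT, -, e⟩ := R.base.pt
    rw [e]
    exact Hx.tt hT
  have ht : t ≠ 0 := fun e => ht0 (by rw [e, map_zero])
  obtain ⟨z, hz, hz0, hv⟩ := h
  obtain ⟨w, hw⟩ : ∃ w, w = m / z ^ l - 1 := ⟨_, rfl⟩
  rw [← hw] at hv
  have hHw : Hx act π N V w := by
    rw [hw]
    exact (hm.div (hz.pow l)).sub Hx.one
  have htp : t ^ (l * j) ≠ 0 := pow_ne_zero _ ht
  have hHx : Hx act π N V (w / t ^ (l * j)) := hHw.div (hHt.pow _)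
  have hx1 : V.valuation (w / t ^ (l * j)) ≤ 1 := by
    rw [map_div₀, map_pow]
    exact div_le_one_of_le₀ hv zero_le
  have hvl : V.valuation (l : Ω) < 1 := by
    rw [hl1]
    exact R.base.above
  obtain ⟨α, hαN, hα1, ha⟩ := R.residue hHx hx1
  obtain ⟨q, k, hk0, hqk, hres, -, -⟩ := R.nb.res V π R.base.D.pr R.base.above hvl
  rw [hN, ← pow_mul] at hqk
  have hk1 : 1 ≤ 2 * k := by omega
  obtain ⟨β, hβ⟩ : ∃ β, β = α ^ (l ^ (2 * k - 1)) := ⟨_, rfl⟩
  have hβl : β ^ l = α ^ q := by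
    rw [hβ, ← pow_mul, ← pow_succ, Nat.sub_add_cancel hk1, hqk]
  have hab : V.valuation (α - β ^ l) < 1 := by
    rw [hβl, Valuation.map_sub_swap]
    exact hres α hαN ((V.valuation_le_one_iff α).1 hα1)
  have hβ1 : V.valuation β ≤ 1 := by
    rw [hβ, map_pow]
    exact pow_le_one' hα1 _
  have hHβ : Hx act π N V β := by
    rw [hβ]
    exact (Hx.of_mem hαN).pow _
  have htj : V.valuation (t ^ j) < 1 := by
    rw [map_pow]
    exact pow_lt_one₀ zero_le ht1 (by omega)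
  have hd : V.valuation (β * t ^ j) < 1 := by
    rw [map_mul]
    exact lt_of_le_of_lt (mul_le_of_le_one_left' hβ1) htj
  obtain ⟨c, hc, hexp⟩ := lu_add_pow (l := l) V hlp hd.le (y := 1) (map_one _).le
  rw [one_pow] at hexp
  obtain ⟨u, hu⟩ : ∃ u, u = β * t ^ j + 1 := ⟨_, rfl⟩
  rw [← hu] at hexp
  have hu1 : V.valuation u = 1 := by
    rw [hu, Valuation.map_add_eq_of_lt_right]
    · exact map_one V.valuation
    · rw [map_one]
      exact hd
  have hu0 : u ≠ 0 := fun e => by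
    rw [e, map_zero] at hu1
    exact zero_ne_one hu1
  have hHu : Hx act π N V u := by
    rw [hu]
    exact (hHβ.mul (hHt.pow j)).add Hx.one
  have hr0 : 0 < V.valuation t := zero_lt_iff.2 ht0
  have hrp : 0 < V.valuation t ^ (l * j) := pow_pos hr0 _
  -- the error terms
  have e1 : V.valuation (w - α * t ^ (l * j)) < V.valuation t ^ (l * j) := by
    have e2 : w - α * t ^ (l * j) = (w / t ^ (l * j) - α) * t ^ (l * j) := by
      rw [sub_mul, div_mul_cancel₀ _ htp]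
    rw [e2, map_mul, map_pow]
    calc V.valuation (w / t ^ (l * j) - α) * V.valuation t ^ (l * j) < 1 * V.valuation t ^ (l * j) :=
          mul_lt_mul_of_pos_right ha hrp
      _ = _ := one_mul _
  have e2 : V.valuation ((α - β ^ l) * t ^ (l * j)) < V.valuation t ^ (l * j) := by
    rw [map_mul, map_pow]
    calc V.valuation (α - β ^ l) * V.valuation t ^ (l * j) < 1 * V.valuation t ^ (l * j) :=
          mul_lt_mul_of_pos_right hab hrp
      _ = _ := one_mul _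
  have e3 : V.valuation (l * (β * t ^ j) * 1 * c) < V.valuation t ^ (l * j) := by
    have h5 : l * j < e0 * (l - 1) + j := by
      obtain ⟨k, rfl⟩ : ∃ k, l = k + 1 := ⟨l - 1, by omega⟩
      rw [Nat.add_sub_cancel]
      have h6 : k * j < k * e0 := Nat.mul_lt_mul_of_pos_left h2 (by omega)
      have e1 : (k + 1) * j = k * j + j := by ring
      rw [e1, mul_comm e0 k]
      omega
    refine lt_of_le_of_lt ?_ (pow_lt_pow_right_of_lt_one₀ hr0 ht1 h5)
    rw [pow_add, he, mul_one, map_mul, map_mul, map_mul, map_pow]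
    exact (mul_le_of_le_one_right' hc).trans (mul_le_mul_right (mul_le_of_le_one_left' hβ1) _)
  have e4 : w - (u ^ l - 1) = (w - α * t ^ (l * j)) + (α - β ^ l) * t ^ (l * j) - l * (β * t ^ j) * 1 * c := by
    rw [hexp, mul_pow, ← pow_mul, mul_comm j l]
    ring
  have e5 : V.valuation (w - (u ^ l - 1)) < V.valuation t ^ (l * j) := by
    rw [e4]
    refine lt_of_le_of_lt (Valuation.map_sub _ _ _) (max_lt (lt_of_le_of_lt (Valuation.map_add _ _ _) (max_lt e1 e2)) e3)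
  refine ⟨z * u, hz.mul hHu, mul_ne_zero hz0 hu0, ?_⟩
  have e6 : m / (z * u) ^ l - 1 = (w - (u ^ l - 1)) / u ^ l := by
    rw [hw, mul_pow]
    have := pow_ne_zero l hz0
    have := pow_ne_zero l hu0
    field_simp
    ring
  refine R.step ((hm.div ((hz.mul hHu).pow l)).sub Hx.one) ?_
  rw [e6, map_div₀, map_pow, hu1, one_pow, div_one]
  exact e5

end H13X
end

-- from Lib.H13X.XC1
section

/-! # H13X: port of H13Y/YC1 -/

open NumberField IsDedekindDomain WeierstrassCurve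

namespace H13X

open H55P (IQ embF eF LF Per IsHecke Pt ac Inert Dec Nm Coc)
open H35P (WAB Ker tt)
open H55K (Tor ak xc yc CMA Dta GV GMod cj cj_cj mul_cj cj_prime cj_dvd cj_nat Nm_cj Nm_mul Nm_nat)
open H55K.S
open H13S (Abv)





variable {F : Type} [Field F] [NumberField F] [IQ F] {A B : F} {Om : ℂ} {Ω : Type} [Field Ω] [DecidableEq Ω]
  [Algebra F Ω] [IsAlgClosure F Ω] {j : Ω →+* ℂ} {act : 𝓞 F →+* AddMonoid.End (Pt (WAB A B) Ω)} {mo : Ideal (𝓞 F)}
  {ψ : Ideal (𝓞 F) →*₀ 𝓞 F}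

section gen

variable {Ω : Type} [Field Ω] [Algebra F Ω]



theorem lc1_pow (a : 𝓞 F) (n : ℕ) : algebraMap F Ω ((a ^ n : 𝓞 F) : F) = algebraMap F Ω (a : F) ^ n := by
  rw [← map_pow]
  congr 1


theorem lc1_sub (a b : 𝓞 F) : algebraMap F Ω ((a - b : 𝓞 F) : F) =
    algebraMap F Ω (a : F) - algebraMap F Ω (b : F) := by
  rw [← map_sub]
  congr 1


theorem lc1_pow_le {V : ValuationSubring Ω} {t : Ω} (ht : V.valuation t < 1) {m n : ℕ} (h : m ≤ n) :
    V.valuation t ^ n ≤ V.valuation t ^ m :=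
  pow_le_pow_right_of_le_one' ht.le h

theorem lc1_unit {V : ValuationSubring Ω} {t : Ω} (ht : V.valuation t < 1) {A₀ : Ω} {i : ℕ} (hi : 1 ≤ i)
    (h : V.valuation (A₀ - 1) ≤ V.valuation t ^ i) : V.valuation A₀ = 1 := by
  have h1 : V.valuation (A₀ - 1) < 1 := by
    refine h.trans_lt (lt_of_le_of_lt (lc1_pow_le ht hi) ?_)
    rw [pow_one]
    exact ht
  have h2 := Valuation.map_one_add_of_lt V.valuation h1
  have e : 1 + (A₀ - 1) = A₀ := by ring
  rwa [e] at h2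

theorem lc1_ne {V : ValuationSubring Ω} {A₀ : Ω} (h : V.valuation A₀ = 1) : A₀ ≠ 0 := by
  rintro rfl
  rw [map_zero] at h
  exact zero_ne_one h

theorem lc1_pow_sub {V : ValuationSubring Ω} {r : V.ValueGroup} {x y : Ω} (hx : V.valuation x ≤ r)
    (hy : V.valuation y ≤ r) (h : V.valuation (x - y) ≤ r ^ 2) (i : ℕ) :
    V.valuation (x ^ i - y ^ i) ≤ r ^ (i + 1) := by
  induction i with
  | zero => simp
  | succ i ih =>
    have e : x ^ (i + 1) - y ^ (i + 1) = x * (x ^ i - y ^ i) + (x - y) * y ^ i := by ring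
    rw [e]
    refine Valuation.map_add_le _ ?_ ?_
    · rw [map_mul]
      calc V.valuation x * V.valuation (x ^ i - y ^ i) ≤ r * r ^ (i + 1) := mul_le_mul' hx ih
        _ = r ^ (i + 1 + 1) := by rw [pow_succ' r (i + 1)]
    · rw [map_mul, map_pow]
      calc V.valuation (x - y) * V.valuation y ^ i ≤ r ^ 2 * r ^ i :=
            mul_le_mul' h (pow_le_pow_left' hy i)
        _ = r ^ (i + 1 + 1) := by rw [← pow_add, Nat.add_comm 2 i]

end gen

variable {π : 𝓞 F} {l : ℕ} {N : IntermediateField F Ω} {V : ValuationSubring Ω} {t : Ω} {e0 : ℕ}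

omit [IsAlgClosure F Ω] in
theorem yc1_hx (R : RV A B Om j act mo ψ π l N V t e0) : Hx act π N V t := by
  obtain ⟨T, hT, -, rfl⟩ := R.base.pt
  exact Hx.tt hT

omit [DecidableEq Ω] [Algebra F Ω] [IsAlgClosure F Ω] in
/-- The value of the main term. -/
theorem yc1_term {V : ValuationSubring Ω} (t : Ω) {a : Ω} (ha : V.valuation a ≤ 1) (i : ℕ) :
    V.valuation (a * t ^ i) ≤ V.valuation t ^ i := by
  rw [map_mul, map_pow]
  exact mul_le_of_le_one_left' ha

/-- m/z^l is at most 1 away from 1 by the value of t^i. -/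
theorem yc1_one {V : ValuationSubring Ω} {t : Ω} (ht : V.valuation t < 1) {A₀ : Ω} {a : Ω}
    (ha : V.valuation a ≤ 1) {i : ℕ}
    (h : V.valuation (A₀ - 1 - a * t ^ i) ≤ V.valuation t ^ (i + 1)) :
    V.valuation (A₀ - 1) ≤ V.valuation t ^ i := by
  have e : A₀ - 1 = (A₀ - 1 - a * t ^ i) + a * t ^ i := by ring
  rw [e]
  exact Valuation.map_add_le _ (h.trans (lc1_pow_le ht (Nat.le_succ i))) (yc1_term t ha i)

theorem yc1_small (R : RV A B Om j act mo ψ π l N V t e0) {d : Ω} (hN : d ∈ N) (hd : V.valuation d < 1) (i : ℕ) :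
    V.valuation (d * t ^ i) ≤ V.valuation t ^ (i + 1) := by
  obtain ⟨-, -, ht1, ht0, -, -⟩ := R.base.val_l
  refine R.step ((Hx.of_mem hN).mul ((yc1_hx R).pow i)) ?_
  rw [map_mul, map_pow]
  exact mul_lt_of_lt_one_left (pow_pos (zero_lt_iff.2 ht0) i) hd

/-- Chunk YC1 (M), PORT of H13Z/LC1.lean to the base field N: coefficients a in N with V a ≤ 1 in place of elements of 𝓞 F (π | a becomes V a < 1). -/
theorem RV.co_exists (R : RV A B Om j act mo ψ π l N V t e0) {m : Ω} (hm : Hx act π N V m) {i : ℕ}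
    (h : Lv act π l N V (V.valuation t ^ i) m) : ∃ a : Ω, Co act π l N V t i m a := by
  obtain ⟨-, -, ht1, ht0, -, -⟩ := R.base.val_l
  obtain ⟨z, hz, z0, h1⟩ := h
  have htx := yc1_hx R
  have t0 : t ^ i ≠ 0 := by
    intro h2
    apply pow_ne_zero i ht0
    rw [← map_pow, h2, map_zero]
  have hx : Hx act π N V ((m / z ^ l - 1) / t ^ i) := ((hm.div (hz.pow l)).sub Hx.one).div (htx.pow i)
  have hx1 : V.valuation ((m / z ^ l - 1) / t ^ i) ≤ 1 := by
    rw [map_div₀, map_pow]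
    exact div_le_one_of_le₀ h1 zero_le
  obtain ⟨a, haN, ha1, ha⟩ := R.residue hx hx1
  refine ⟨a, ⟨haN, ha1⟩, z, hz, z0, ?_⟩
  refine R.step (((hm.div (hz.pow l)).sub Hx.one).sub ((Hx.of_mem haN).mul (htx.pow i))) ?_
  have e : m / z ^ l - 1 - a * t ^ i = ((m / z ^ l - 1) / t ^ i - a) * t ^ i := by
    rw [sub_mul, div_mul_cancel₀ _ t0]
  rw [e, map_mul, map_pow]
  exact mul_lt_of_lt_one_left (pow_pos (zero_lt_iff.2 ht0) i) ha

theorem RV.co_unique (R : RV A B Om j act mo ψ π l N V t e0) {m : Ω} (h0 : m ≠ 0) {i : ℕ} (hi : 1 ≤ i) (h2 : i < l * e0)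
    (h3 : ¬ l ∣ i) {a a' : Ω} (h : Co act π l N V t i m a) (h' : Co act π l N V t i m a') :
    V.valuation (a - a') < 1 := by
  obtain ⟨-, -, ht1, ht0, -, -⟩ := R.base.val_l
  obtain ⟨⟨-, ha⟩, z, hz, z0, h4⟩ := h
  obtain ⟨⟨-, ha'⟩, z', hz', z0', h4'⟩ := h'
  set A₀ := m / z ^ l with hA
  set A' := m / z' ^ l with hA'
  have h5 := yc1_one ht1 ha h4
  have h5' := yc1_one ht1 ha' h4'
  have h6' := lc1_unit ht1 hi h5'
  have n' := lc1_ne h6'
  have e1 : (z' / z) ^ l - 1 = (A₀ - A') / A' := by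
    have e2 : (z' / z) ^ l = A₀ / A' := by
      rw [hA, hA', div_pow]
      have := pow_ne_zero l z0
      have := pow_ne_zero l z0'
      field_simp
    rw [e2, sub_div, div_self n']
  have e3 : V.valuation ((z' / z) ^ l - 1) = V.valuation (A₀ - A') := by
    rw [e1, map_div₀, h6', div_one]
  have h7 : V.valuation (A₀ - A') ≤ V.valuation t ^ i := by
    have e : A₀ - A' = (A₀ - 1) - (A' - 1) := by ring
    rw [e]
    exact Valuation.map_sub_le _ h5 h5'
  have h8 := R.pow_unit (hz'.div hz) hi h2 h3 (e3.le.trans h7)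
  rw [e3] at h8
  have h9 : V.valuation ((a - a') * t ^ i) ≤ V.valuation t ^ (i + 1) := by
    have e : (a - a') * t ^ i = (A₀ - A') -
        ((A₀ - 1 - a * t ^ i) - (A' - 1 - a' * t ^ i)) := by
      ring
    rw [e]
    exact Valuation.map_sub_le _ h8 (Valuation.map_sub_le _ h4 h4')
  rw [map_mul, map_pow, pow_succ', mul_le_mul_iff_left₀ (pow_pos (zero_lt_iff.2 ht0) i)] at h9
  exact h9.trans_lt ht1

theorem RV.co_mul (R : RV A B Om j act mo ψ π l N V t e0) {m m' z : Ω} {i : ℕ} (hi : 1 ≤ i) {a a' : Ω}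
    (h : Co act π l N V t i m a) (h' : Co act π l N V t i m' a') (hz : Hx act π N V z) (h0 : z ≠ 0) :
    Co act π l N V t i (m * m' * z ^ l) (a + a') := by
  obtain ⟨-, -, ht1, ht0, -, -⟩ := R.base.val_l
  obtain ⟨⟨haN, ha⟩, z1, hz1, z10, h4⟩ := h
  obtain ⟨⟨haN', ha'⟩, z2, hz2, z20, h4'⟩ := h'
  refine ⟨⟨N.add_mem haN haN', Valuation.map_add_le _ ha ha'⟩, z1 * z2 * z, (hz1.mul hz2).mul hz,
    mul_ne_zero (mul_ne_zero z10 z20) h0, ?_⟩
  set A₀ := m / z1 ^ l with hA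
  set A' := m' / z2 ^ l with hA'
  have e1 : m * m' * z ^ l / (z1 * z2 * z) ^ l = A₀ * A' := by
    rw [hA, hA', mul_pow, mul_pow]
    have := pow_ne_zero l z10
    have := pow_ne_zero l z20
    have := pow_ne_zero l h0
    field_simp
  have h5 := yc1_one ht1 ha h4
  have h5' := yc1_one ht1 ha' h4'
  have e2 : A₀ * A' - 1 - (a + a') * t ^ i = (A₀ - 1) * (A' - 1) +
      ((A₀ - 1 - a * t ^ i) + (A' - 1 - a' * t ^ i)) := by
    ring
  rw [e1, e2]
  refine Valuation.map_add_le _ ?_ (Valuation.map_add_le _ h4 h4')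
  rw [map_mul]
  calc V.valuation (A₀ - 1) * V.valuation (A' - 1) ≤ V.valuation t ^ i * V.valuation t ^ i :=
        mul_le_mul' h5 h5'
    _ = V.valuation t ^ (i + i) := by rw [pow_add]
    _ ≤ V.valuation t ^ (i + 1) := lc1_pow_le ht1 (by omega)

/-- b in 𝓞 F; the new coefficient is a b^i in N. -/
theorem RV.co_act (R : RV A B Om j act mo ψ π l N V t e0) {m z : Ω} {i : ℕ} {a : Ω} {b : 𝓞 F} (h : Co act π l N V t i m a)
    {s : Ω ≃ₐ[F] Ω} (hs : DecN N V s) (hb : ∀ T ∈ Tor act π, ac (WAB A B) s T = act b T)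
    (hz : Hx act π N V z) (h0 : z ≠ 0) :
    Co act π l N V t i (s m * z ^ l) (a * algebraMap F Ω (b : F) ^ i) := by
  have : Algebra.IsAlgebraic F Ω := IsAlgClosure.isAlgebraic
  obtain ⟨-, -, ht1, ht0, -, -⟩ := R.base.val_l
  obtain ⟨⟨haN, ha⟩, z1, hz1, z10, h4⟩ := h
  have z10' : s z1 ≠ 0 := by
    intro h5
    exact z10 (s.injective (h5.trans (map_zero s).symm))
  have hbV : V.valuation (algebraMap F Ω (b : F)) ≤ 1 := vo_le V b
  refine ⟨⟨N.mul_mem haN (pow_mem (N.algebraMap_mem _) i), ?_⟩, s z1 * z, (hz1.dec R.base.D.cma hs).mul hz,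
    mul_ne_zero z10' h0, ?_⟩
  · rw [map_mul, map_pow]
    exact mul_le_one' ha (pow_le_one' hbV i)
  set A₀ := m / z1 ^ l with hA
  have e1 : s m * z ^ l / (s z1 * z) ^ l = s A₀ := by
    rw [hA, map_div₀, map_pow, mul_pow]
    have := pow_ne_zero l z10'
    have := pow_ne_zero l h0
    field_simp
  have hsa : s a = a := (IntermediateField.mem_fixingSubgroup_iff N s).1 hs.1 a haN
  have h5 : V.valuation (s A₀ - 1 - a * (s t) ^ i) ≤ V.valuation t ^ (i + 1) := by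
    have e2 : s A₀ - 1 - a * (s t) ^ i = s (A₀ - 1 - a * t ^ i) := by
      rw [map_sub, map_sub, map_mul, map_pow, map_one, hsa]
    rw [e2, Dec.val hs.2]
    exact h4
  have h6 : V.valuation ((s t) ^ i - (algebraMap F Ω (b : F) * t) ^ i) ≤ V.valuation t ^ (i + 1) := by
    refine lc1_pow_sub (Dec.val hs.2 t).le ?_ (R.base.act_t hb) i
    rw [map_mul]
    exact mul_le_of_le_one_left' hbV
  have e3 : s A₀ - 1 - a * algebraMap F Ω (b : F) ^ i * t ^ i =
      (s A₀ - 1 - a * (s t) ^ i) +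
        a * ((s t) ^ i - (algebraMap F Ω (b : F) * t) ^ i) := by
    ring
  rw [e1, e3]
  refine Valuation.map_add_le _ h5 ?_
  rw [map_mul]
  exact (mul_le_of_le_one_left' ha).trans h6

theorem RV.co_inv (R : RV A B Om j act mo ψ π l N V t e0) {m : Ω} (h0 : m ≠ 0) {i : ℕ} (hi : 1 ≤ i) {a : Ω}
    (h : Co act π l N V t i m a) : Co act π l N V t i m⁻¹ (-a) := by
  obtain ⟨-, -, ht1, ht0, -, -⟩ := R.base.val_l
  obtain ⟨⟨haN, ha⟩, z1, hz1, z10, h4⟩ := h
  refine ⟨⟨N.neg_mem haN, by rw [Valuation.map_neg]; exact ha⟩, z1⁻¹, hz1.inv, inv_ne_zero z10, ?_⟩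
  set A₀ := m / z1 ^ l with hA
  have e1 : m⁻¹ / z1⁻¹ ^ l = A₀⁻¹ := by
    rw [hA, inv_pow, inv_div, div_inv_eq_mul, div_eq_mul_inv, mul_comm]
  have h5 := yc1_one ht1 ha h4
  have h6 := lc1_unit ht1 hi h5
  have n := lc1_ne h6
  have e2 : A₀⁻¹ - 1 - -a * t ^ i =
      (a * t ^ i * (A₀ - 1) - (A₀ - 1 - a * t ^ i)) / A₀ := by
    field_simp
    ring
  rw [e1, e2, map_div₀, h6, div_one]
  refine Valuation.map_sub_le _ ?_ h4
  rw [map_mul]
  calc V.valuation (a * t ^ i) * V.valuation (A₀ - 1) ≤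
        V.valuation t ^ i * V.valuation t ^ i := mul_le_mul' (yc1_term t ha i) h5
    _ = V.valuation t ^ (i + i) := by rw [pow_add]
    _ ≤ V.valuation t ^ (i + 1) := lc1_pow_le ht1 (by omega)

theorem RV.co_cong (R : RV A B Om j act mo ψ π l N V t e0) {m : Ω} {i : ℕ} {a a' : Ω} (h : Co act π l N V t i m a)
    (ha' : a' ∈ N) (hd : V.valuation (a - a') < 1) : Co act π l N V t i m a' := by
  obtain ⟨⟨haN, ha⟩, z1, hz1, z10, h4⟩ := h
  have ha1 : V.valuation a' ≤ 1 := by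
    have e : a' = a - (a - a') := by ring
    rw [e]
    exact Valuation.map_sub_le _ ha hd.le
  refine ⟨⟨ha', ha1⟩, z1, hz1, z10, ?_⟩
  have e : m / z1 ^ l - 1 - a' * t ^ i =
      (m / z1 ^ l - 1 - a * t ^ i) + (a - a') * t ^ i := by
    ring
  rw [e]
  exact Valuation.map_add_le _ h4 (yc1_small R (N.sub_mem haN ha') hd i)

theorem RV.co_zero (R : RV A B Om j act mo ψ π l N V t e0) {m : Ω} {i : ℕ} {a : Ω} (h : Co act π l N V t i m a)
    (hd : V.valuation a < 1) : Lv act π l N V (V.valuation t ^ (i + 1)) m := by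
  obtain ⟨⟨haN, ha⟩, z1, hz1, z10, h4⟩ := h
  refine ⟨z1, hz1, z10, ?_⟩
  have e : m / z1 ^ l - 1 = (m / z1 ^ l - 1 - a * t ^ i) + a * t ^ i := by ring
  rw [e]
  exact Valuation.map_add_le _ h4 (yc1_small R haN hd i)

end H13X
end
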