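import Mathlib
import Pool.Agent.Lib.H1M.PP2.M005
import Pool.Agent.Lib.H1M.PP2.M058
import Pool.Agent.Lib.H1M.PP2.M092
import Pool.Agent.Lib.H1M.PP2.M102
import Pool.Agent.Lib.H1M.PP2.M107
import Pool.Agent.Lib.H1M.PP2.M110
import Pool.Agent.Lib.H1M.PP2.M118
import Pool.Agent.Lib.H1M.PP2.M119

/-! Merged copies (to shorten the build) of Lib.H13X.XLZ, Lib.H13X.XQ1, Lib.H13X.XNV, Lib.H13X.XQ2. -/

-- from Lib.H13X.XLZ
section

/-!
# H13X: a class which is zero on the inertia elements fixing the l-torsion is locally a coboundary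

If some inertia element over K moves the points killed by the conjugate β of π, then the class is a coboundary (cob_dec_ram).
Otherwise inertia over K fixes all points killed by powers of β, and a Frobenius element φ over K moves some of them
(fin_move: the residue field of K is finite), so every point killed by β is φ P - P with P killed by a power of β (phi_surj).
-/

open NumberField IsDedekindDomain WeierstrassCurve

namespace H13X

open H55P (IQ embF eF LF Per IsHecke Pt ac Inert Dec Nm Coc)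
open H35P (WAB Ker tt)
open H55K (Tor ak xc yc CMA Dta GV GMod cj cj_cj mul_cj cj_prime cj_dvd cj_nat Nm_cj Nm_mul Nm_nat)
open H55K.S
open H13S (Abv)

variable {F : Type} [Field F] [NumberField F] [IQ F] {A B : F} {Om : ℂ} {Ω : Type} [Field Ω] [DecidableEq Ω]
  [Algebra F Ω] [IsAlgClosure F Ω] {j : Ω →+* ℂ} {act : 𝓞 F →+* AddMonoid.End (Pt (WAB A B) Ω)} {mo : Ideal (𝓞 F)}
  {ψ : Ideal (𝓞 F) →*₀ 𝓞 F}

variable {π : 𝓞 F} {l : ℕ} {V : ValuationSubring Ω}

/-- Many points killed by a power of β, no two equal up to sign. -/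
theorem many_pts (hA : CMA F A B Om j act) {β : 𝓞 F} (hβ : Prime β) (m : ℕ) :
    ∃ (n : ℕ) (T : ℕ → Pt (WAB A B) Ω), (∀ i, T i ∈ Tor act (β ^ n)) ∧ (∀ i < m, T i ≠ 0) ∧
      ∀ i < m, ∀ k < m, i ≠ k → T i ≠ T k ∧ T i ≠ -T k := by
  have hN0 : Nm β ≠ 0 := Nm_ne_zero' hβ.ne_zero
  have hN1 : Nm β ≠ 1 := fun h => hβ.not_unit (Nm_eq_one'.1 h)
  have hN2 : 2 ≤ Nm β := by omega
  have hn : (2 * m) ^ 2 < Nm β ^ ((2 * m) ^ 2) := Nat.lt_pow_self (by omega)
  obtain ⟨T₀, hT₀, -, hz, -⟩ := hA.gen (β ^ ((2 * m) ^ 2)) (pow_ne_zero _ hβ.ne_zero)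
  have key : ∀ a : ℤ, a ≠ 0 → |a| ≤ 2 * m → act ((a : ℤ) : 𝓞 F) T₀ ≠ 0 := by
    intro a ha0 ha h
    have h1 := (hz _).1 h
    have h2 : Nm β ^ ((2 * m) ^ 2) ∣ a.natAbs ^ 2 := by
      obtain ⟨c, hc⟩ := h1
      have h3 : Nm ((a.natAbs : ℕ) : 𝓞 F) = a.natAbs ^ 2 := Nm_nat _
      have h4 : Nm ((a : ℤ) : 𝓞 F) = Nm ((a.natAbs : ℕ) : 𝓞 F) := by
        rcases Int.natAbs_eq a with h5 | h5
        · conv_lhs => rw [h5]
          rw [Int.cast_natCast]
        · conv_lhs => rw [h5]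
          rw [Int.cast_neg, Int.cast_natCast, neg_eq_neg_one_mul, Nm_mul]
          have h6 : Nm (-1 : 𝓞 F) = 1 := Nm_eq_one'.2 isUnit_one.neg
          rw [h6, one_mul]
      have h7 : ∀ k : ℕ, Nm (β ^ k) = Nm β ^ k := by
        intro k
        induction k with
        | zero => rw [pow_zero, pow_zero]; exact Nm_eq_one'.2 isUnit_one
        | succ k ih => rw [pow_succ, Nm_mul, ih, pow_succ]
      rw [← h3, ← h4, hc, Nm_mul, h7]
      exact dvd_mul_right _ _
    have h8 : 0 < a.natAbs ^ 2 := pow_pos (Int.natAbs_pos.2 ha0) 2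
    have h9 := Nat.le_of_dvd h8 h2
    have h10 : a.natAbs ≤ 2 * m := by
      have h12 := Int.abs_eq_natAbs a
      rw [h12] at ha
      exact_mod_cast ha
    have h11 : a.natAbs ^ 2 ≤ (2 * m) ^ 2 := Nat.pow_le_pow_left h10 2
    omega
  refine ⟨(2 * m) ^ 2, fun i => act (((i + 1 : ℕ) : ℤ) : 𝓞 F) T₀, fun i => act_tor hT₀, fun i hi => ?_,
    fun i hi k hk hik => ⟨fun h => ?_, fun h => ?_⟩⟩
  · refine key _ (by positivity) ?_
    rw [abs_of_nonneg (by positivity)]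
    push_cast
    omega
  · refine key (((i + 1 : ℕ) : ℤ) - ((k + 1 : ℕ) : ℤ)) (by push_cast; omega) ?_ ?_
    · rw [abs_le]
      push_cast
      omega
    · change act (((i + 1 : ℕ) : ℤ) : 𝓞 F) T₀ = act (((k + 1 : ℕ) : ℤ) : 𝓞 F) T₀ at h
      rw [Int.cast_sub, act_sub, h, sub_self]
  · refine key (((i + 1 : ℕ) : ℤ) + ((k + 1 : ℕ) : ℤ)) (by push_cast; omega) ?_ ?_
    · rw [abs_le]
      push_cast
      omega
    · change act (((i + 1 : ℕ) : ℤ) : 𝓞 F) T₀ = -act (((k + 1 : ℕ) : ℤ) : 𝓞 F) T₀ at h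
      rw [Int.cast_add, act_add, h, neg_add_cancel]

/-- The Frobenius element moves a point killed by a power of β, if the differences of the x-coordinates of these points have
all the same value. -/
theorem fin_move (hA : CMA F A B Om j act) {β : 𝓞 F} (hβ : Prime β) {φ : Ω ≃ₐ[F] Ω} {Q : ℕ} (hQ : 2 ≤ Q)
    (hφ : ∀ x ∈ V, V.valuation (φ x - x ^ Q) < 1) {r : V.ValueGroup} (hr : r ≠ 0)
    (hd : ∀ n : ℕ, ∀ P ∈ Tor act (β ^ n), ∀ P' ∈ Tor act (β ^ n), P ≠ 0 → P' ≠ 0 → P ≠ P' → P ≠ -P' →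
      V.valuation (xc P - xc P') = r) :
    ∃ n : ℕ, ∃ T ∈ Tor act (β ^ n), ac (WAB A B) φ T ≠ T := by
  by_contra hcon
  push Not at hcon
  obtain ⟨n, T, hT, hT0, hTT⟩ := many_pts hA hβ (Q + 3)
  have hv : ∀ i < Q + 3, ∀ k < Q + 3, i ≠ k → V.valuation (xc (T i) - xc (T k)) = r := fun i hi k hk hik =>
    hd n _ (hT i) _ (hT k) (hT0 i hi) (hT0 k hk) (hTT i hi k hk hik).1 (hTT i hi k hk hik).2
  have hx : ∀ i, φ (xc (T i)) = xc (T i) := fun i => by
    rw [← xc_ac, hcon n _ (hT i)]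
  let f : ℕ → Ω := fun i => (xc (T (i + 2)) - xc (T 0)) / (xc (T 1) - xc (T 0))
  have hf1 : ∀ i < Q + 1, V.valuation (f i) = 1 := by
    intro i hi
    show V.valuation ((xc (T (i + 2)) - xc (T 0)) / (xc (T 1) - xc (T 0))) = 1
    rw [map_div₀, hv _ (by omega) _ (by omega) (by omega), hv _ (by omega) _ (by omega) (by omega), div_self hr]
  have hfd : ∀ i < Q + 1, ∀ k < Q + 1, i ≠ k → V.valuation (f i - f k) = 1 := by
    intro i hi k hk hik
    have e : f i - f k = (xc (T (i + 2)) - xc (T (k + 2))) / (xc (T 1) - xc (T 0)) := by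
      show (xc (T (i + 2)) - xc (T 0)) / (xc (T 1) - xc (T 0)) -
        (xc (T (k + 2)) - xc (T 0)) / (xc (T 1) - xc (T 0)) = _
      rw [← sub_div]
      congr 1
      ring
    rw [e, map_div₀, hv _ (by omega) _ (by omega) (by omega), hv _ (by omega) _ (by omega) (by omega), div_self hr]
  have hff : ∀ i < Q + 1, V.valuation (f i ^ Q - (1 : ℕ) * f i) < 1 := by
    intro i hi
    have h1 := hφ (f i) ((V.valuation_le_one_iff _).1 (hf1 i hi).le)
    have h2 : φ (f i) = f i := by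
      show φ ((xc (T (i + 2)) - xc (T 0)) / (xc (T 1) - xc (T 0))) = _
      rw [map_div₀, map_sub, map_sub, hx, hx, hx]
    rw [h2] at h1
    rw [Nat.cast_one, one_mul, Valuation.map_sub_swap]
    exact h1
  obtain ⟨i, hi⟩ := H13Y.pigeon2 V hQ (n := 1) (fun i : Fin Q => f i)
    (fun i => ⟨(hf1 i (by omega)).le, hff i (by omega)⟩)
    (fun i i' hii h => by
      have h1 := hfd i (by omega) i' (by omega) (fun h2 => hii (Fin.ext h2))
      exact absurd h (by rw [h1]; exact lt_irrefl _)) (z := f Q) (hf1 Q (by omega)).le (hff Q (by omega))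
  rw [hfd Q (by omega) i (by omega) (by omega)] at hi
  exact lt_irrefl _ hi

/-- Every point killed by β is φ P - P with P killed by a power of β. -/
theorem phi_surj (hA : CMA F A B Om j act) {β : 𝓞 F} (hβ : Prime β) {φ : Ω ≃ₐ[F] Ω}
    (h : ∃ n : ℕ, ∃ T ∈ Tor act (β ^ n), ac (WAB A B) φ T ≠ T) {R : Pt (WAB A B) Ω} (hR : R ∈ Tor act β) :
    ∃ n : ℕ, ∃ P ∈ Tor act (β ^ n), ac (WAB A B) φ P - P = R := by
  classical
  obtain ⟨T, hT, hne⟩ := Nat.find_spec h
  have hmin := fun m (hm : m < Nat.find h) => Nat.find_min h hm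
  obtain ⟨n, hn⟩ : ∃ n, n = Nat.find h := ⟨_, rfl⟩
  rw [← hn] at hT hmin
  have hn0 : n ≠ 0 := by
    rintro rfl
    apply hne
    rw [pow_zero, mem_Tor, act_one] at hT
    rw [hT, map_zero]
  obtain ⟨k, rfl⟩ : ∃ k, n = k + 1 := ⟨n - 1, by omega⟩
  have hβT : act β T ∈ Tor act (β ^ k) := by
    rw [mem_Tor, ← act_mul, ← pow_succ]
    exact hT
  have hfix : ac (WAB A B) φ (act β T) = act β T := by
    by_contra h1
    exact hmin k (Nat.lt_succ_self k) ⟨_, hβT, h1⟩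
  have hR₀ : ac (WAB A B) φ T - T ∈ Tor act β := by
    rw [mem_Tor, map_sub, ← ac_act hA, hfix, sub_self]
  obtain ⟨a, ha⟩ := (PA1_gen hA β hβ _ hR₀ (sub_ne_zero.2 hne)).1 R hR
  refine ⟨k + 1, act a T, act_tor hT, ?_⟩
  rw [ac_act hA, ha, map_sub]

/-- THE LOCAL LEMMA. -/
theorem loc_zero (D : Dat A B Om j act mo ψ π l) {K : IntermediateField F Ω} [NumberField K]
    {c : (Ω ≃ₐ[F] Ω) → Pt (WAB A B) Ω} (C : Cc act π K c) {w : HeightOneSpectrum (𝓞 K)} (hw : Abv K V w)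
    (hI : V.valuation (l : Ω) < 1 → ∀ s, Inert V s → s ∈ K.fixingSubgroup)
    (h : ∀ s ∈ K.fixingSubgroup, JV act π V s → c s = 0) :
    ∃ P : Pt (WAB A B) Ω, ∀ s ∈ K.fixingSubgroup, Dec V s → c s = ac (WAB A B) s P - P := by
  have hA := D.cma
  have hπ' : Prime (cj π) := cj_prime D.pr
  have hd' : cj π ∣ (l : 𝓞 F) := D.conj.dvd
  have hDc : Dc act π K V c := dc_of_cc C fun s hs => hs.1
  obtain ⟨X, hX, hX2⟩ := cob_inert D hDc h
  by_cases hmv : ∃ σ ∈ K.fixingSubgroup, Inert V σ ∧ ∃ T ∈ Tor act (cj π), ac (WAB A B) σ T ≠ T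
  · obtain ⟨σ, hσ, hσI, hσT⟩ := hmv
    have h1 := cob_dec_ram (hDc.sub_cob hA hX) (fun s hs hi => by
      show c s - (ac (WAB A B) s X - X) = 0
      rw [hX2 s hs hi, sub_self]) ⟨σ, hσ, hσI, fun T hT hs => no_fix hA hπ' hσT hT hs⟩
    exact ⟨X, fun s hs hd => sub_eq_zero.1 (h1 s ⟨hs, hd⟩)⟩
  · push Not at hmv
    have hcj1 : vo V (cj π) = 1 := by
      by_contra hne
      have hlt : vo V (cj π) < 1 := lt_of_le_of_ne (vo_le V _) hne
      have hVl := H55K.S.val_l hd' (fun V x => vo_le V x) V hlt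
      obtain ⟨σ, h1, h2⟩ := moved_ram hA (D.dta.good V hVl) hπ' (xp_nm D).2 hlt
      obtain ⟨T, hT, hT0⟩ := H55K.exists_tor hA hπ'
      exact hT0 (h2 T hT (hmv σ (hI hVl σ h1) h1 T hT))
    obtain ⟨φ, hφK, hφD, hφF⟩ := exists_frobK K hw
    have hQ : 2 ≤ Ideal.absNorm w.asIdeal := by
      have h1 : Ideal.absNorm w.asIdeal ≠ 0 := by
        rw [Ne, Ideal.absNorm_eq_zero_iff]
        exact w.ne_bot
      have h2 : Ideal.absNorm w.asIdeal ≠ 1 := by
        rw [Ne, Ideal.absNorm_eq_one_iff]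
        exact w.isPrime.ne_top
      omega
    have hpow1 : ∀ n, vo V (cj π ^ n) = 1 := fun n => by rw [vo_pow, hcj1, one_pow]
    have hln : ∀ (n : ℕ), ∀ P ∈ Tor act (cj π ^ n), (l ^ n) • P = 0 := by
      intro n P hP
      rw [← act_nat (act := act), Nat.cast_pow]
      obtain ⟨u, hu⟩ := pow_dvd_pow_of_dvd hd' n
      rw [hu, mul_comm, act_mul, mem_Tor.1 hP, map_zero]
    have hle : V.valuation (l : Ω) ≤ 1 := by
      rw [← vo_nat (F := F)]
      exact vo_le V _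
    -- inertia over K fixes the points killed by the powers of the conjugate of π
    have hfix : ∀ s ∈ K.fixingSubgroup, Inert V s → ∀ (n : ℕ), ∀ P ∈ Tor act (cj π ^ n), ac (WAB A B) s P = P := by
      intro s hs hi n P hP
      rcases lt_or_eq_of_le hle with h1 | h1
      · exact inert_tors hA (D.dta.good V h1) (hpow1 n) hi hP
      · obtain ⟨Kg, u, hG⟩ := D.dta.gmod V
        refine H55K.inert_fix hA D.hl D.five hπ' hd' hG h1 s hi (fun T hT => hmv s hs hi T hT) (l ^ n) ?_ P ?_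
        · rw [Nat.cast_pow, map_pow, h1, one_pow]
        · rw [smul_sub, hln n P hP, sub_zero]
          have h2 : (l ^ n) • ac (WAB A B) s P = ac (WAB A B) s ((l ^ n) • P) := (map_nsmul _ _ _).symm
          rw [h2, hln n P hP, map_zero]
    have hmove : ∃ n : ℕ, ∃ T ∈ Tor act (cj π ^ n), ac (WAB A B) φ T ≠ T := by
      rcases lt_or_eq_of_le hle with h1 | h1
      · have hG := D.dta.good V h1
        have hnk : ∀ n : ℕ, ∀ P ∈ Tor act (cj π ^ n), P ≠ 0 → ¬ Ker V P := fun n P hP h0 hK =>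
          h0 (kr_tor hA hG _ (hpow1 n) hP hK)
        refine fin_move hA hπ' hQ hφF (r := 1) one_ne_zero fun n P hP P' hP' h0 h0' h2 h3 => ?_
        exact H55K.cls_diff hG (hnk n P hP h0) (hnk n P' hP' h0')
          (hnk n _ (sub_mem hP hP') (sub_ne_zero.2 h2))
          (hnk n _ (add_mem hP hP') (fun h4 => h3 (eq_neg_of_add_eq_zero_left h4)))
      · obtain ⟨Kg, u, hG⟩ := D.dta.gmod V
        have hnk : ∀ n : ℕ, ∀ P ∈ Tor act (cj π ^ n), P ≠ 0 → P ∉ Kg := fun n P hP h0 hK =>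
          h0 (hG.tors (l ^ n) (by rw [Nat.cast_pow, map_pow, h1, one_pow]) P hK (hln n P hP))
        refine fin_move hA hπ' hQ hφF (r := V.valuation u ^ 2)
          (pow_ne_zero 2 ((map_ne_zero _).2 hG.une)) fun n P hP P' hP' h0 h0' h2 h3 => ?_
        exact hG.diff P P' (hnk n P hP h0) (hnk n P' hP' h0')
          (hnk n _ (sub_mem hP hP') (sub_ne_zero.2 h2))
          (hnk n _ (add_mem hP hP') (fun h4 => h3 (eq_neg_of_add_eq_zero_left h4)))
    have hcφ : c φ - (ac (WAB A B) φ X - X) ∈ Tor act (cj π) :=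
      sub_mem (C.val φ hφK) (sub_mem (ac_mem hA φ hX) hX)
    obtain ⟨n, P, hP, hPR⟩ := phi_surj hA hπ' hmove hcφ
    refine ⟨X + P, fun s hs hd => ?_⟩
    have h0 : c s - (ac (WAB A B) s X - X) - (ac (WAB A B) s P - P) = 0 := by
      refine dec_gen (d := fun s => c s - (ac (WAB A B) s X - X) - (ac (WAB A B) s P - P)) hw (fun s hs _ t ht _ => ?_) ?_ (fun s hs hi => ?_) hφK hφD hφF ?_ hs hd
      · show c (s * t) - (ac (WAB A B) (s * t) X - X) - (ac (WAB A B) (s * t) P - P) = _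
        rw [C.mul s hs t ht, ac_mul, ac_mul, map_sub, map_sub, map_sub, map_sub]
        abel
      · obtain ⟨N, hN, hN0⟩ := C.cont
        have hf1 := lp_fin X
        have hf2 := lp_fin P
        refine ⟨N ⊔ IntermediateField.adjoin F {xc X, yc X} ⊔ IntermediateField.adjoin F {xc P, yc P},
          inferInstance, fun s hs hsN _ => ?_⟩
        rw [IntermediateField.fixingSubgroup_sup, IntermediateField.fixingSubgroup_sup, Subgroup.mem_inf,
          Subgroup.mem_inf] at hsN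
        show c s - (ac (WAB A B) s X - X) - (ac (WAB A B) s P - P) = 0
        rw [hN0 s hs hsN.1.1, lp_adj s X hsN.1.2, lp_adj s P hsN.2, sub_self, sub_self, sub_self, sub_zero]
      · show c s - (ac (WAB A B) s X - X) - (ac (WAB A B) s P - P) = 0
        rw [hX2 s hs hi, hfix s hs hi n P hP]
        abel
      · show c φ - (ac (WAB A B) φ X - X) - (ac (WAB A B) φ P - P) = 0
        rw [hPR, sub_self]
    have h1 : c s - (ac (WAB A B) s X - X) = ac (WAB A B) s P - P := sub_eq_zero.1 h0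
    rw [sub_eq_iff_eq_add.1 h1, map_add]
    abel

end H13X
end

-- from Lib.H13X.XQ1
section

/-! # H13X: port of H13Y/YQ1 -/

open NumberField IsDedekindDomain WeierstrassCurve

namespace H13X

open H55P (IQ embF eF LF Per IsHecke Pt ac Inert Dec Nm Coc)
open H35P (WAB Ker tt)
open H55K (Tor ak xc yc CMA Dta GV GMod cj cj_cj mul_cj cj_prime cj_dvd cj_nat Nm_cj Nm_mul Nm_nat)
open H55K.S
open H13S (Abv)





variable {F : Type} [Field F] [NumberField F] [IQ F] {A B : F} {Om : ℂ} {Ω : Type} [Field Ω] [DecidableEq Ω]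
  [Algebra F Ω] [IsAlgClosure F Ω] {j : Ω →+* ℂ} {act : 𝓞 F →+* AddMonoid.End (Pt (WAB A B) Ω)} {mo : Ideal (𝓞 F)}
  {ψ : Ideal (𝓞 F) →*₀ 𝓞 F}

section gen

variable {Ω : Type} [Field Ω] {l : ℕ} {V : ValuationSubring Ω}

theorem LQ1_pow {R : Type} [CommRing R] (y : R) (n : ℕ) : ∃ c : R,
    (1 + y) ^ n = 1 + n * y + y ^ 2 * c := by
  induction n with
  | zero => exact ⟨0, by simp⟩
  | succ n ih =>
    obtain ⟨c, hc⟩ := ih
    refine ⟨n + c + c * y, ?_⟩
    rw [pow_succ, hc]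
    push_cast
    ring

theorem LQ1_est {y : Ω} (hy : V.valuation y ≤ 1) (n : ℕ) :
    V.valuation ((1 + y) ^ n - 1 - n * y) ≤ V.valuation y ^ 2 := by
  have hyV : y ∈ V := (V.valuation_le_one_iff y).1 hy
  obtain ⟨c, hc⟩ := LQ1_pow (⟨y, hyV⟩ : V) n
  have hc' := congrArg (fun z : V => (z : Ω)) hc
  push_cast at hc'
  have e : (1 + y) ^ n - 1 - n * y = y ^ 2 * (c : Ω) := by
    rw [hc']
    ring
  rw [e, map_mul, map_pow]
  exact mul_le_of_le_one_right' ((V.valuation_le_one_iff _).2 c.2)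

theorem LQ1_root (hl : l.Prime) (h5 : 5 ≤ l) (hVl : V.valuation (l : Ω) < 1) {z : Ω}
    (hz : V.valuation z ≤ 1) (h : V.valuation (z ^ l - 1) < 1) : V.valuation (z - 1) < 1 := by
  have hzV : z ∈ V := (V.valuation_le_one_iff z).1 hz
  obtain ⟨r, hr⟩ := exists_add_pow_prime_eq hl (⟨z, hzV⟩ : V) (-1)
  have hr' := congrArg (fun z : V => (z : Ω)) hr
  push_cast at hr'
  have hodd : Odd l := hl.odd_of_ne_two (by omega)
  rw [hodd.neg_one_pow] at hr'
  have e : (z - 1) ^ l = (z ^ l - 1) + (l : Ω) * ((-⟨z, hzV⟩ * r : V) : Ω) := by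
    rw [sub_eq_add_neg z 1, hr']
    push_cast
    ring
  have h2 : V.valuation ((z - 1) ^ l) < 1 := by
    rw [e]
    refine Valuation.map_add_lt _ h ?_
    rw [map_mul]
    exact mul_lt_one_of_lt_of_le hVl ((V.valuation_le_one_iff _).2 (-⟨z, hzV⟩ * r : V).2)
  rw [map_pow] at h2
  by_contra hcon
  push Not at hcon
  exact absurd h2 (not_lt.2 (one_le_pow₀ hcon))

theorem LQ1_up {z : Ω} (h : V.valuation (z - 1) ≤ V.valuation (l : Ω)) (hVl : V.valuation (l : Ω) < 1) :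
    V.valuation (z ^ l - 1) ≤ V.valuation (l : Ω) ^ 2 := by
  have h1 := LQ1_est (V := V) (y := z - 1) (h.trans hVl.le) l
  have e1 : 1 + (z - 1) = z := by ring
  rw [e1] at h1
  have e : z ^ l - 1 = (z ^ l - 1 - l * (z - 1)) + l * (z - 1) := by ring
  rw [e]
  refine Valuation.map_add_le _ (h1.trans (pow_le_pow_left₀ zero_le h 2)) ?_
  rw [map_mul, sq]
  exact mul_le_mul' le_rfl h

end gen

/-- Existence of the data in the unramified case. -/
theorem exists_UV {π : 𝓞 F} {l : ℕ} {N : IntermediateField F Ω} {V : ValuationSubring Ω}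
    (D : Dat A B Om j act mo ψ π l) (hNb : Nb l N) (hs : ¬ π ∣ cj π) (hV : vo V (cj π) < 1) :
    ∃ (φ : Ω ≃ₐ[F] Ω) (q n : ℕ), UV A B Om j act mo ψ π l N V φ q n := by
  have hc := cj_prime D.pr
  have hA := D.cma
  have hVl : V.valuation (l : Ω) < 1 := H55K.S.val_l D.conj.dvd (fun V x => vo_le V x) V hV
  have hG := D.dta.good V hVl
  have hdi : Nm π = l := by
    rcases dichotomy D.hl D.dta.unr D.pr D.dvd with ⟨h, -, -⟩ | ⟨-, -, h, -⟩
    · exact absurd h.symm.dvd hs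
    · exact h
  have hp1 : vo V π = 1 := vo_unit (IsCoprime.symm ((D.pr.irreducible.coprime_iff_not_dvd).2 hs)) hV
  obtain ⟨q, f, hf, hq, -, ⟨φ, hφN, hφD, hφ⟩, r, hr1, hr2, -⟩ := hNb.res V (cj π) hc hV hVl
  have hNc : Nm (cj π) = l := by rw [Nm_cj, hdi]
  -- φ acts on the points killed by π as a number
  obtain ⟨-, T₀, hT₀, hgen, hz⟩ := gi_gen hA π D.pr
  obtain ⟨a, ha⟩ := hgen _ (ac_mem hA φ hT₀)
  obtain ⟨n, hn⟩ := exists_natmod D.hl hdi a
  have hact : ∀ T ∈ Tor act π, ac (WAB A B) φ T = n • T := by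
    intro T hT
    obtain ⟨b, rfl⟩ := hgen T hT
    have h1 : act a T₀ = n • T₀ := by
      obtain ⟨u, hu⟩ := hn
      rw [← act_nat (act := act), ← sub_eq_zero, ← act_sub, hu, mul_comm, act_mul, mem_Tor.1 hT₀, map_zero]
    rw [ac_act hA, ha, h1, map_nsmul]
  refine ⟨φ, q, n, D, hs, hV, hNb, ⟨hφN, hφD⟩, ?_, hφ, hact, ?_, r, hr1, hr2⟩
  · refine ⟨l ^ (f - 1), ?_, pow_pos D.hl.pos _⟩
    rw [hq, hNc, ← pow_succ', Nat.sub_add_cancel hf]
  · intro h
    have h1 := hact T₀ hT₀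
    have h2 : n • T₀ = 0 := by
      obtain ⟨w, rfl⟩ := h
      rw [mul_comm, mul_nsmul, ← act_nat (act := act) l]
      obtain ⟨u, hu⟩ := D.dvd
      rw [hu, mul_comm π u, act_mul, mem_Tor.1 (nsmul_mem hT₀ w), map_zero]
    rw [h2] at h1
    have hT0 : T₀ ≠ 0 := by
      intro h0
      exact D.pr.not_unit (isUnit_of_dvd_one ((hz 1).1 (by rw [h0, map_zero])))
    exact ac_ne φ hT0 h1

variable {π : 𝓞 F} {l : ℕ} {N : IntermediateField F Ω} {V : ValuationSubring Ω} {φ : Ω ≃ₐ[F] Ω} {q n : ℕ}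
  {e : Pt (WAB A B) Ω → Pt (WAB A B) Ω → Ω}

theorem UV.val_l (U : UV A B Om j act mo ψ π l N V φ q n) : V.valuation (l : Ω) = vo V (cj π) ∧ vo V π = 1 ∧
    GV A B V ∧ V.valuation (l : Ω) ≠ 0 ∧ V.valuation (l : Ω) < 1 := by
  have hp1 : vo V π = 1 := vo_unit (IsCoprime.symm ((U.D.pr.irreducible.coprime_iff_not_dvd).2 U.nd)) U.above
  have h2 : π * cj π = (l : 𝓞 F) := by
    rcases dichotomy U.D.hl U.D.dta.unr U.D.pr U.D.dvd with ⟨h, -, -⟩ | ⟨-, -, -, h⟩
    · exact absurd h.symm.dvd U.nd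
    · exact h
  have h1 : V.valuation (l : Ω) = vo V (cj π) := by
    rw [← vo_nat (F := F), ← h2, vo_mul, hp1, one_mul]
  have hlt : V.valuation (l : Ω) < 1 := by
    rw [h1]
    exact U.above
  refine ⟨h1, hp1, U.D.dta.good V hlt, ?_, hlt⟩
  rw [h1]
  exact vo_ne V (cj_prime U.D.pr).ne_zero

/-- PORT of UV.values: inertia elements are in DecN (U.nb.dec) and fix Tor π (inert_tors). -/
theorem UV.values (U : UV A B Om j act mo ψ π l N V φ q n) {x : Ω} (hx : Hx act π N V x) (h0 : x ≠ 0) :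
    ∃ k : ℤ, V.valuation x = V.valuation (l : Ω) ^ k := by
  obtain ⟨h1, h2, h3, -, h5⟩ := U.val_l
  have hNF : NumberField (⊥ : IntermediateField F Ω) := NumberField.of_module_finite F _
  have hfix : ∀ s ∈ (⊥ : IntermediateField F Ω).fixingSubgroup, Inert V s → s x = x := by
    intro s _ hs
    exact hx s ⟨U.nb.dec h5 hs, fun T hT => inert_tors U.D.cma h3 h2 hs hT⟩
  obtain ⟨a, ha, hva⟩ := H13S.value_fixed (⊥ : IntermediateField F Ω) V _ h0 hfix
  obtain ⟨a', ha'⟩ := IntermediateField.mem_bot.1 a.2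
  have ha'0 : a' ≠ 0 := by
    rintro rfl
    rw [map_zero] at ha'
    exact ha (Subtype.ext ha'.symm)
  obtain ⟨k, hk⟩ := qv_intpow V (cj_prime U.D.pr) U.above a' ha'0
  rw [ha'] at hk
  exact ⟨k, by rw [hva, hk, h1]⟩

theorem UV.step (U : UV A B Om j act mo ψ π l N V φ q n) {x : Ω} (hx : Hx act π N V x) (h : V.valuation x < 1) :
    V.valuation x ≤ V.valuation (l : Ω) := by
  obtain ⟨-, -, -, h4, h5⟩ := U.val_l
  by_cases h0 : x = 0
  · rw [h0, map_zero]
    exact zero_le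
  obtain ⟨k, hk⟩ := U.values hx h0
  have h6 : 0 < V.valuation (l : Ω) := zero_lt_iff.2 h4
  rw [hk] at h ⊢
  have hk1 : 1 ≤ k := by
    by_contra hcon
    push Not at hcon
    have h7 : k ≤ 0 := by omega
    have h8 : 1 ≤ V.valuation (l : Ω) ^ k := by
      have h9 := zpow_le_zpow_right_of_le_one₀ h6 h5.le h7
      rwa [zpow_zero] at h9
    exact absurd h (not_lt.2 h8)
  have h9 := zpow_le_zpow_right_of_le_one₀ h6 h5.le hk1
  rwa [zpow_one] at h9

theorem yq1_nsmul {m : Pt (WAB A B) Ω → Ω} (hm : Sys act π l N V m) {T : Pt (WAB A B) Ω}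
    (hT : T ∈ Tor act π) (k : ℕ) : ∃ z : Ω, Hx act π N V z ∧ z ≠ 0 ∧ m (k • T) = m T ^ k * z ^ l := by
  induction k with
  | zero =>
    obtain ⟨z, hz, hz0, he⟩ := hm.add 0 (zero_mem _) 0 (zero_mem _)
    have h0 := hm.ne 0 (zero_mem _)
    refine ⟨z⁻¹, hz.inv, inv_ne_zero hz0, ?_⟩
    rw [add_zero] at he
    have h1 : m 0 * z ^ l = 1 := by
      apply mul_left_cancel₀ h0
      rw [mul_one, ← mul_assoc]
      exact he.symm
    rw [zero_smul, pow_zero, one_mul, inv_pow]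
    exact eq_inv_of_mul_eq_one_left h1
  | succ k ih =>
    obtain ⟨z₁, hz₁, hz₁0, he₁⟩ := ih
    have hk : k • T ∈ Tor act π := nsmul_mem hT k
    obtain ⟨z, hz, hz0, he⟩ := hm.add _ hk _ hT
    refine ⟨z₁ * z, hz₁.mul hz, mul_ne_zero hz₁0 hz0, ?_⟩
    rw [succ_nsmul, he, he₁]
    ring

/-- Chunk YQ3 (S/M), PORT of UV.coef (LQ1.lean). The only change: φ is a Frobenius element with exponent q = l q': b = (φ⁻¹ u)^q', V (u - b^l) < 1; at the end V (φ x - x^q) < 1. -/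
theorem UV.coef (U : UV A B Om j act mo ψ π l N V φ q n) {m : Pt (WAB A B) Ω → Ω} (hm : Sys act π l N V m) {T : Pt (WAB A B) Ω} (hT : T ∈ Tor act π)
    (hvm : ∃ k : ℤ, V.valuation (m T) = V.valuation (l : Ω) ^ ((l : ℤ) * k)) :
    ∃ z x : Ω, Hx act π N V z ∧ z ≠ 0 ∧ Hx act π N V x ∧ V.valuation x ≤ 1 ∧ m T = z ^ l * (1 + l * x) ∧
      V.valuation (x ^ q - n * x) < 1 := by
  have halg : Algebra.IsAlgebraic F Ω := IsAlgClosure.isAlgebraic
  obtain ⟨-, -, -, h4, h5⟩ := U.val_l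
  have hl := U.D.hl
  have hl5 := U.D.five
  have hL0 : (l : Ω) ≠ 0 := (Valuation.ne_zero_iff _).1 h4
  have hLp : 0 < V.valuation (l : Ω) := zero_lt_iff.2 h4
  have hM0 := hm.ne T hT
  have hMx := hm.fx T hT
  obtain ⟨M, hMd⟩ : ∃ M : Ω, M = m T := ⟨_, rfl⟩
  rw [← hMd] at hM0 hMx ⊢
  -- the equation φ M = M^n z^l
  have hφM : ∃ z : Ω, Hx act π N V z ∧ z ≠ 0 ∧ φ M = M ^ n * z ^ l := by
    obtain ⟨z₁, hz₁, hz₁0, he₁⟩ := yq1_nsmul hm hT n
    obtain ⟨z₂, hz₂, hz₂0, he₂⟩ := hm.gal φ U.dec T hT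
    rw [U.gal T hT, he₁] at he₂
    refine ⟨z₁ / z₂, hz₁.div hz₂, div_ne_zero hz₁0 hz₂0, ?_⟩
    rw [hMd, div_pow]
    field_simp
    exact he₂.symm
  obtain ⟨z, hz, hz0, hφ⟩ := hφM
  obtain ⟨r', hvr⟩ := hvm
  obtain ⟨r, hr'⟩ : ∃ r : ℤ, r = (l : ℤ) * r' := ⟨_, rfl⟩
  have hr : V.valuation M = V.valuation (l : Ω) ^ r := by
    rw [hMd, hvr, hr']
  have hLx : Hx act π N V ((l : Ω) ^ r') := (Hx.nat l).zpow r'
  have hLr0 : (l : Ω) ^ r' ≠ 0 := zpow_ne_zero _ hL0
  obtain ⟨u, hud⟩ : ∃ u : Ω, u = M / ((l : Ω) ^ r') ^ l := ⟨_, rfl⟩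
  have hux : Hx act π N V u := by
    rw [hud]
    exact hMx.div (hLx.pow l)
  have hu1 : V.valuation u = 1 := by
    rw [hud, map_div₀, map_pow, map_zpow₀, hr, hr', ← zpow_natCast, ← zpow_mul, mul_comm r' (l : ℤ)]
    exact div_self (zpow_ne_zero _ h4)
  obtain ⟨q', hqq, hq'⟩ := U.ql
  obtain ⟨b', hbd⟩ : ∃ b' : Ω, b' = φ⁻¹ u := ⟨_, rfl⟩
  have hbx' : Hx act π N V b' := by
    rw [hbd]
    exact hux.dec U.D.cma U.dec.inv
  have hφb : φ b' = u := by
    rw [hbd, ← AlgEquiv.mul_apply, mul_inv_cancel]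
    rfl
  have hb1' : V.valuation b' = 1 := by
    rw [← Dec.val U.dec.2 b', hφb, hu1]
  obtain ⟨b, hbq⟩ : ∃ b : Ω, b = b' ^ q' := ⟨_, rfl⟩
  have hbx : Hx act π N V b := by
    rw [hbq]
    exact hbx'.pow q'
  have hb1 : V.valuation b = 1 := by
    rw [hbq, map_pow, hb1', one_pow]
  have hb0 : b ≠ 0 := by
    rintro rfl
    rw [map_zero] at hb1
    exact zero_ne_one hb1
  have hub : V.valuation (u - b ^ l) < 1 := by
    have h8 := U.frob b' ((V.valuation_le_one_iff b').1 hb1'.le)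
    rw [hφb, hqq, mul_comm l q', pow_mul, ← hbq] at h8
    exact h8
  obtain ⟨y, hyd⟩ : ∃ y : Ω, y = u / b ^ l - 1 := ⟨_, rfl⟩
  have hyx : Hx act π N V y := by
    rw [hyd]
    exact (hux.div (hbx.pow l)).sub Hx.one
  have hy1 : V.valuation y < 1 := by
    have e : y = (u - b ^ l) / b ^ l := by
      rw [hyd]
      field_simp
    rw [e, map_div₀, map_pow, hb1, one_pow, div_one]
    exact hub
  have hyl := U.step hyx hy1
  obtain ⟨x, hxd⟩ : ∃ x : Ω, x = y / l := ⟨_, rfl⟩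
  have hxx : Hx act π N V x := by
    rw [hxd]
    exact hyx.div (Hx.nat l)
  have hyx' : y = l * x := by
    rw [hxd]
    field_simp
  have hx1 : V.valuation x ≤ 1 := by
    rw [hxd, map_div₀]
    exact div_le_one_of_le₀ hyl zero_le
  have hub' : u = b ^ l * (1 + l * x) := by
    rw [← hyx', hyd]
    field_simp
    ring
  have hMw : M = ((l : Ω) ^ r' * b) ^ l * (1 + l * x) := by
    have h9 : M = ((l : Ω) ^ r') ^ l * u := by
      rw [hud]
      field_simp
    rw [h9, hub', mul_pow]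
    ring
  refine ⟨(l : Ω) ^ r' * b, x, hLx.mul hbx, mul_ne_zero hLr0 hb0, hxx, hx1, hMw, ?_⟩
  -- the congruence
  obtain ⟨w, hwd⟩ : ∃ w : Ω, w = (l : Ω) ^ r' * b := ⟨_, rfl⟩
  rw [← hwd] at hMw
  have hwx : Hx act π N V w := by
    rw [hwd]
    exact hLx.mul hbx
  have hw0 : w ≠ 0 := by
    rw [hwd]
    exact mul_ne_zero hLr0 hb0
  have hφw0 : φ w ≠ 0 := (map_ne_zero φ).2 hw0
  have hφl : φ (l : Ω) = l := map_natCast φ l
  have hφx1 : V.valuation (φ x) ≤ 1 := by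
    rw [Dec.val U.dec.2 x]
    exact hx1
  obtain ⟨z', hz'd⟩ : ∃ z' : Ω, z' = w ^ n * z / φ w := ⟨_, rfl⟩
  have hz'x : Hx act π N V z' := by
    rw [hz'd]
    exact ((hwx.pow n).mul hz).div (hwx.dec U.D.cma U.dec)
  have hkey : 1 + l * φ x = (1 + l * x) ^ n * z' ^ l := by
    have h10 : φ M = (φ w) ^ l * (1 + l * φ x) := by
      rw [hMw, map_mul, map_pow, map_add, map_mul, hφl, map_one]
    rw [hφ, hMw] at h10
    rw [hz'd, div_pow, mul_pow]
    have h11 : (φ w) ^ l ≠ 0 := pow_ne_zero _ hφw0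
    field_simp
    have h12 : (w ^ l * (1 + l * x)) ^ n = (w ^ n) ^ l * (1 + l * x) ^ n := by
      rw [mul_pow, ← pow_mul, ← pow_mul, mul_comm l n]
    rw [mul_comm, ← h10, h12]
    ring
  have hlx1 : V.valuation ((l : Ω) * x) ≤ V.valuation (l : Ω) := by
    rw [map_mul]
    exact mul_le_of_le_one_right' hx1
  have hlx2 : V.valuation ((l : Ω) * φ x) ≤ V.valuation (l : Ω) := by
    rw [map_mul]
    exact mul_le_of_le_one_right' hφx1
  have hu2 : V.valuation (1 + (l : Ω) * x) = 1 := by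
    have h13 : V.valuation ((l : Ω) * x) < V.valuation (1 : Ω) := by
      rw [map_one]
      exact lt_of_le_of_lt hlx1 h5
    have h14 := V.valuation.map_add_eq_of_lt_left h13
    rwa [map_one] at h14
  have hest := LQ1_est (V := V) (y := (l : Ω) * x) (hlx1.trans h5.le) n
  have hest' : V.valuation ((1 + (l : Ω) * x) ^ n - 1 - n * (l * x)) ≤ V.valuation (l : Ω) ^ 2 :=
    hest.trans (pow_le_pow_left₀ zero_le hlx1 2)
  have hnl : V.valuation ((n : Ω) * (l * x)) ≤ V.valuation (l : Ω) := by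
    rw [map_mul]
    exact (mul_le_of_le_one_left' ((V.valuation_le_one_iff _).2 (natCast_mem V n))).trans hlx1
  have hl2 : V.valuation (l : Ω) ^ 2 ≤ V.valuation (l : Ω) := by
    rw [sq]
    exact mul_le_of_le_one_right' h5.le
  have hz1 : V.valuation (z' ^ l - 1) ≤ V.valuation (l : Ω) := by
    have e : (1 + l * x) ^ n * (z' ^ l - 1) =
        l * φ x - (((1 + (l : Ω) * x) ^ n - 1 - n * (l * x)) + n * (l * x)) := by
      linear_combination -hkey
    have h15 : V.valuation ((1 + l * x) ^ n * (z' ^ l - 1)) ≤ V.valuation (l : Ω) := by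
      rw [e]
      refine Valuation.map_sub_le _ hlx2 (Valuation.map_add_le _ (hest'.trans hl2) hnl)
    rwa [map_mul, map_pow, hu2, one_pow, one_mul] at h15
  have hz'1 : V.valuation z' ≤ 1 := by
    have h16 : V.valuation (z' ^ l) ≤ 1 := by
      have e : z' ^ l = (z' ^ l - 1) + 1 := by ring
      rw [e]
      refine Valuation.map_add_le _ (hz1.trans h5.le) ?_
      rw [map_one]
    rw [map_pow] at h16
    exact (pow_le_one_iff_of_nonneg zero_le hl.ne_zero).1 h16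
  have hz2 := LQ1_root hl hl5 h5 hz'1 (lt_of_le_of_lt hz1 h5)
  have hz3 := U.step (hz'x.sub Hx.one) hz2
  have hz4 := LQ1_up hz3 h5
  have hfin : V.valuation ((l : Ω) * (φ x - n * x)) ≤ V.valuation (l : Ω) ^ 2 := by
    have e : (l : Ω) * (φ x - n * x) = ((1 + (l : Ω) * x) ^ n - 1 - n * (l * x)) +
        (1 + l * x) ^ n * (z' ^ l - 1) := by
      linear_combination hkey
    rw [e]
    refine Valuation.map_add_le _ hest' ?_
    rw [map_mul, map_pow, hu2, one_pow, one_mul]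
    exact hz4
  rw [map_mul, sq] at hfin
  have hfin2 : V.valuation (φ x - n * x) ≤ V.valuation (l : Ω) := le_of_mul_le_mul_left hfin hLp
  have hfr := U.frob x ((V.valuation_le_one_iff x).1 hx1)
  have e : x ^ q - n * x = (φ x - n * x) - (φ x - x ^ q) := by ring
  rw [e]
  exact Valuation.map_sub_lt _ (lt_of_le_of_lt hfin2 h5) hfr

/-- Chunk YQ4 (S), PORT of UV.fix and UV.zero (LQ3.lean; zero needs only D and nd). -/
theorem UV.fix (U : UV A B Om j act mo ψ π l N V φ q n) (he : Pairing A B act π l e) {y z v : Ω} (hz : Hx act π N V z) (h0 : z ≠ 0)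
    (hv : Hx act π N V v) (h : y ^ l = z ^ l * v) (h1 : V.valuation (v - 1) ≤ V.valuation (l : Ω) ^ 2)
    {s : Ω ≃ₐ[F] Ω} (hs : JV act π V s) : s y = y := by
  have hΩ : IsAlgClosed Ω := IsAlgClosure.isAlgClosed F
  have hc0 : CharZero Ω := charZero_of_injective_algebraMap (algebraMap F Ω).injective
  obtain ⟨_, _, _, _, hl1⟩ := U.val_l
  have hD : DecN N V s := U.nb.dec hl1 hs.1
  have hDT : DT act π N V s := ⟨hD, hs.2.1⟩
  have h2 : (y / z) ^ l = v := by
    rw [div_pow, h, mul_div_cancel_left₀ _ (pow_ne_zero l h0)]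
  have h3 := H13Z.fix_strict V U.D.hl (by
    have := U.D.five
    omega) hl1 h2 h1 hD.2 (fun ζ hζ => JV.mu U.D he hs ζ hζ) (hv s hDT)
  rw [map_div₀ s, hz s hDT] at h3
  exact (div_left_inj' h0).1 h3

theorem yq4_zero (D : Dat A B Om j act mo ψ π l) (he : Pairing A B act π l e) {X : Pt (WAB A B) Ω} (hX : X ∈ Tor act (cj π)) :
    e X 0 = 1 := by
  have h1 := he.add_right X hX 0 (zero_mem _) 0 (zero_mem _)
  rw [add_zero] at h1
  have h2 := lk_ne D he hX (zero_mem (Tor act π))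
  exact (left_eq_mul₀ h2).1 h1


theorem UV.zero (U : UV A B Om j act mo ψ π l N V φ q n) (he : Pairing A B act π l e) {T₀ : Pt (WAB A B) Ω} (hT : T₀ ∈ Tor act π) (h0 : T₀ ≠ 0)
    {X : Pt (WAB A B) Ω} (hX : X ∈ Tor act (cj π)) (h : e X T₀ = 1) : X = 0 := by
  refine he.nondeg X hX fun T hTT => ?_
  have hcard : Nat.card (Tor act π) = l := by
    obtain ⟨h1, _⟩ := gi_gen U.D.cma π U.D.pr
    rw [h1]
    rcases dichotomy U.D.hl U.D.dta.unr U.D.pr U.D.dvd with ⟨h, -, -⟩ | ⟨-, -, h, -⟩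
    · exact absurd h.symm.dvd U.nd
    · exact h
  have hf : Fact (Nat.card (Tor act π)).Prime := ⟨by rw [hcard]; exact U.D.hl⟩
  let H : AddSubgroup (Tor act π) :=
    { carrier := {S | e X S = 1}
      zero_mem' := yq4_zero U.D he hX
      add_mem' := by
        intro S S' hS hS'
        show e X ((S + S' : Tor act π) : Pt (WAB A B) Ω) = 1
        have h1 : ((S + S' : Tor act π) : Pt (WAB A B) Ω) = (S : Pt (WAB A B) Ω) + S' := rfl
        rw [h1, he.add_right X hX S S.2 S' S'.2]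
        have h2 : e X S = 1 := hS
        have h3 : e X S' = 1 := hS'
        rw [h2, h3, one_mul]
      neg_mem' := by
        intro S hS
        show e X ((-S : Tor act π) : Pt (WAB A B) Ω) = 1
        have h1 := he.add_right X hX S S.2 ((-S : Tor act π) : Pt (WAB A B) Ω) (-S : Tor act π).2
        have h2 : e X S = 1 := hS
        have h3 : (S : Pt (WAB A B) Ω) + ((-S : Tor act π) : Pt (WAB A B) Ω) = 0 := by
          have : ((-S : Tor act π) : Pt (WAB A B) Ω) = -(S : Pt (WAB A B) Ω) := rfl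
          rw [this, add_neg_cancel]
        rw [h3, yq4_zero U.D he hX, h2, one_mul] at h1
        exact h1.symm }
  rcases AddSubgroup.eq_bot_or_eq_top_of_prime_card H with h1 | h1
  · exfalso
    have h2 : (⟨T₀, hT⟩ : Tor act π) ∈ H := h
    rw [h1, AddSubgroup.mem_bot] at h2
    exact h0 (congrArg Subtype.val h2)
  · have h2 : (⟨T, hTT⟩ : Tor act π) ∈ H := by
      rw [h1]
      trivial
    exact h2

end H13X
end

-- from Lib.H13X.XNV
section

/-! # H13X: the values of the Kummer generators of a local point (from H55K.SNA) -/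

open NumberField IsDedekindDomain WeierstrassCurve

namespace H13X

open H55P (IQ embF eF LF Per IsHecke Pt ac Inert Dec Nm Coc)
open H35P (WAB Ker tt)
open H55K (Tor ak xc yc CMA Dta GV GMod cj cj_cj mul_cj cj_prime cj_dvd cj_nat Nm_cj Nm_mul Nm_nat)
open H55K.S
open H13S (Abv)

variable {F : Type} [Field F] [NumberField F] [IQ F] {A B : F} {Om : ℂ} {Ω : Type} [Field Ω] [DecidableEq Ω]
  [Algebra F Ω] [IsAlgClosure F Ω] {j : Ω →+* ℂ} {act : 𝓞 F →+* AddMonoid.End (Pt (WAB A B) Ω)} {mo : Ideal (𝓞 F)}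
  {ψ : Ideal (𝓞 F) →*₀ 𝓞 F}

/-- The value of a Kummer generator of the class of a point in the kernel of reduction, in the split case above the conjugate
of π. -/
theorem na_val {π : 𝓞 F} {l : ℕ} (D : Dat A B Om j act mo ψ π l) {e : Pt (WAB A B) Ω → Pt (WAB A B) Ω → Ω}
    (he : Pairing A B act π l e) (V : ValuationSubring Ω) (hG : GV A B V) (h1 : vo V π = 1)
    (hV : vo V (cj π) < 1) {P : Pt (WAB A B) Ω} (hPK : Ker V P)
    (hc' : ∀ s, H55P.Inert V s → ac (WAB A B) s P - P ∈ Tor act (cj π)) {T : Pt (WAB A B) Ω} (hT : T ∈ Tor act π)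
    {y : Ω} (hy0 : y ≠ 0) (hyk : ∀ s, H55P.Inert V s → s y = e (ac (WAB A B) s P - P) T * y) :
    ∃ k : ℤ, V.valuation y = vo V (cj π) ^ k := by
  classical
  have hA := D.cma
  have hl := D.hl
  have h5 := D.five
  have hl0 : l ≠ 0 := hl.ne_zero
  have hβ : Prime (cj π) := cj_prime D.pr
  have hnass : ¬ Associated (cj π) π := by
    intro h
    have h2 := vo_assoc V h (vo_le V)
    rw [h1] at h2
    exact absurd hV (by rw [h2]; exact lt_irrefl _)
  obtain ⟨hNπ, hπl⟩ : Nm π = l ∧ π * cj π = (l : 𝓞 F) := by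
    rcases dichotomy hl D.dta.unr D.pr D.dvd with ⟨h2, -, -⟩ | ⟨-, -, h2, h3⟩
    · exact absurd h2 hnass
    · exact ⟨h2, h3⟩
  have hNβ : Nm (cj π) = l := by rw [Nm_cj, hNπ]
  have hVlβ : V.valuation (l : Ω) = vo V (cj π) := by
    rw [← vo_nat (F := F), ← hπl, vo_mul, h1, one_mul]
  have hsT : ∀ s, H55P.Inert V s → ac (WAB A B) s T = T := fun s hs => by
    refine sub_eq_zero.1 (kr_tor hA hG π h1 ?_ (kr_inert hG s hs T))
    exact (Tor act π).sub_mem (ac_mem hA s hT) hT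
  by_cases hT0 : T = 0
  · refine na_fix hβ hV hy0 fun s hs => ?_
    rw [hyk s hs, hT0, ld3_e0' hl0 he (hc' s hs), one_mul]
  by_cases hno : ∃ R ∈ Tor act (cj π), ∀ s, H55P.Inert V s → ac (WAB A B) s (P + R) = P + R
  · obtain ⟨R, hR, hfix⟩ := hno
    have heR : e R T ≠ 0 := by
      intro h
      have h2 := he.root R hR T hT
      rw [h, zero_pow hl0] at h2
      exact zero_ne_one h2
    obtain ⟨k, hk⟩ := na_fix hβ hV (mul_ne_zero hy0 heR) fun s hi => by
      rw [map_mul, hyk s hi, he.gal s R hR T hT, hsT s hi]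
      have h2 : R = (ac (WAB A B) s P - P) + ac (WAB A B) s R := by
        have h3 := hfix s hi
        rw [map_add] at h3
        rw [sub_add_eq_add_sub, h3, add_sub_cancel_left]
      have h3 : e R T = e (ac (WAB A B) s P - P) T * e (ac (WAB A B) s R) T := by
        conv_lhs => rw [h2]
        exact he.add_left _ (hc' s hi) _ (ac_mem hA s hR) T hT
      rw [h3]
      ring
    refine ⟨k, ?_⟩
    have h4 : V.valuation (e R T) = 1 := by
      apply H13Z.lf1_one _ l hl0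
      rw [← map_pow, he.root R hR T hT, map_one]
    rwa [map_mul, h4, mul_one] at hk
  · -- the value of tt P
    set β := cj π with hβd
    have hρ := na_point hA hβ (by rw [hNβ]; omega) V hG hV P hPK hc' hno
    rw [hNβ] at hρ
    set ρ := V.valuation (tt P) with hρd
    have hϖ0 : vo V β ≠ 0 := vo_ne V hβ.ne_zero
    have hρ0 : ρ ≠ 0 := by
      intro h
      rw [h, zero_pow hl0] at hρ
      exact hϖ0 hρ.symm
    have hρ1 : ρ < 1 := kr_tt_lt hG hPK
    have hρp : 0 < ρ := zero_lt_iff.2 hρ0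
    obtain ⟨k, hk⟩ := na_fix hβ hV (pow_ne_zero l hy0) fun s hs => by
      rw [map_pow, hyk s hs, mul_pow, he.root _ (hc' s hs) T hT, one_mul]
    by_cases hdvd : (l : ℤ) ∣ k
    · obtain ⟨k', hk'⟩ := hdvd
      refine ⟨k', ?_⟩
      rw [map_pow, hk', mul_comm, zpow_mul, zpow_natCast] at hk
      exact (pow_left_inj₀ zero_le zero_le hl0).1 hk
    exfalso
    have hcop : IsCoprime k (l : ℤ) := by
      rw [isCoprime_comm]
      exact (Nat.prime_iff_prime_int.1 hl).coprime_iff_not_dvd.2 hdvd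
    obtain ⟨a, b, hab⟩ := hcop
    -- the character f
    have heT : ∀ R ∈ Tor act β, e R T ≠ 0 := fun R hR h => by
      have h2 := he.root R hR T hT
      rw [h, zero_pow hl0] at h2
      exact zero_ne_one h2
    have hgenT : ∀ R ∈ Tor act β, e R T = 1 → R = 0 := by
      intro R hR h2
      refine he.nondeg R hR fun X hX => ?_
      obtain ⟨x, rfl⟩ := (PA1_gen hA π D.pr T hT hT0).1 X hX
      obtain ⟨n, hn⟩ := exists_natmod hl hNπ x
      rw [← (PA1_gen hA π D.pr T hT hT0).2, act_sub, sub_eq_zero] at hn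
      rw [hn, act_nat]
      have h3 : ∀ i : ℕ, e R (i • T) = 1 := by
        intro i
        induction i with
        | zero => rw [zero_smul]; exact ld3_e0' hl0 he hR
        | succ i ih =>
          rw [succ_nsmul, he.add_right R hR _ ((Tor act π).nsmul_mem hT i) T hT, ih, h2, mul_one]
      exact h3 n
    let f : Tor act β → Ω := fun R => e (R : Pt (WAB A B) Ω) T ^ a
    have hfadd : ∀ R R' : Tor act β, f (R + R') = f R * f R' := by
      intro R R'
      show e ((R : Pt (WAB A B) Ω) + R') T ^ a = _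
      rw [he.add_left _ R.2 _ R'.2 T hT, mul_zpow]
    have hfl : ∀ R : Tor act β, f R ^ l = 1 := by
      intro R
      show (e (R : Pt (WAB A B) Ω) T ^ a) ^ l = 1
      rw [← zpow_natCast, ← zpow_mul, mul_comm, zpow_mul, zpow_natCast, he.root _ R.2 T hT, one_zpow]
    have hf1 : ∀ R : Tor act β, f R = 1 → R = 0 := by
      intro R h2
      apply Subtype.ext
      refine hgenT _ R.2 ?_
      have h3 : e (R : Pt (WAB A B) Ω) T ^ a = 1 := h2
      have h4 := he.root _ R.2 T hT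
      have h5 : e (R : Pt (WAB A B) Ω) T ^ (a * k + b * l) = 1 := by
        rw [zpow_add₀ (heT _ R.2), zpow_mul, h3, one_zpow, one_mul, mul_comm, zpow_mul, zpow_natCast, h4, one_zpow]
      rwa [hab, zpow_one] at h5
    have hf0 : f 0 = 1 := by
      show e ((0 : Tor act β) : Pt (WAB A B) Ω) T ^ a = 1
      rw [ZeroMemClass.coe_zero, ld3_e0 hl0 he hT, one_zpow]
    have hfne : ∀ R : Tor act β, f R ≠ 0 := fun R => zpow_ne_zero _ (heT _ R.2)
    have hfin : Finite (Tor act β) := by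
      apply Nat.finite_of_card_ne_zero
      rw [(gi_gen hA β hβ).1, hNβ]
      exact hl0
    let _ : Fintype (Tor act β) := Fintype.ofFinite _
    -- y'
    let y' : Ω := y ^ a * ak Ω β ^ b
    have hakβ : ak Ω β ≠ 0 := (Valuation.ne_zero_iff _).1 hϖ0
    have hy'0 : y' ≠ 0 := mul_ne_zero (zpow_ne_zero _ hy0) (zpow_ne_zero _ hakβ)
    have hy'v : V.valuation y' = ρ := by
      have h2 : V.valuation y' ^ l = ρ ^ l := by
        show V.valuation (y ^ a * ak Ω β ^ b) ^ l = _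
        rw [hρ, ← map_pow, mul_pow, ← zpow_natCast, ← zpow_natCast, ← zpow_mul, ← zpow_mul, mul_comm a, zpow_mul y,
          zpow_natCast, map_mul, map_zpow₀, map_zpow₀, hk, ← zpow_mul, ← zpow_add₀ hϖ0]
        have h3 : k * a + b * (l : ℤ) = 1 := by rw [mul_comm k a]; exact hab
        rw [h3, zpow_one]
      exact (pow_left_inj₀ zero_le zero_le hl0).1 h2
    let c' : (Ω ≃ₐ[F] Ω) → Tor act β := fun s => if h : H55P.Inert V s then ⟨ac (WAB A B) s P - P, hc' s h⟩ else 0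
    have hcc : ∀ s, H55P.Inert V s → ((c' s : Tor act β) : Pt (WAB A B) Ω) = ac (WAB A B) s P - P := fun s hs => by
      show (((if h : H55P.Inert V s then ⟨ac (WAB A B) s P - P, hc' s h⟩ else 0 : Tor act β)) : Pt (WAB A B) Ω) = _
      rw [dif_pos hs]
    have hsy' : ∀ s, H55P.Inert V s → s y' = f (c' s) * y' := by
      intro s hs
      show s (y ^ a * ak Ω β ^ b) = e (c' s : Pt (WAB A B) Ω) T ^ a * (y ^ a * ak Ω β ^ b)
      rw [hcc s hs, map_mul, map_zpow₀, map_zpow₀, hyk s hs, mul_zpow, s.commutes]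
      ring
    -- the resolvents
    let t : Tor act β → Ω := fun R => tt (P + (R : Pt (WAB A B) Ω))
    let Ai : ℕ → Ω := fun i => ∑ R, f (-R) ^ i * t R
    have hsA : ∀ s, H55P.Inert V s → ∀ i, s (Ai i) = f (c' s) ^ i * Ai i := by
      intro s hs i
      show s (∑ R, f (-R) ^ i * t R) = f (c' s) ^ i * ∑ R, f (-R) ^ i * t R
      rw [map_sum, Finset.mul_sum]
      let g : Tor act β → Tor act β := fun R => ⟨ac (WAB A B) s (R : Pt (WAB A B) Ω), ac_mem hA s R.2⟩ + c' s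
      have hg : Function.Bijective g := by
        refine Finite.injective_iff_bijective.1 fun R R' h2 => ?_
        have h3 := congrArg Subtype.val (add_right_cancel h2)
        exact Subtype.ext (ac_inj s h3)
      refine Fintype.sum_bijective g hg _ _ fun R => ?_
      have h2 : s (f (-R)) = f (c' s) * f (-(g R)) := by
        rw [← hfadd]
        show s (e ((-R : Tor act β) : Pt (WAB A B) Ω) T ^ a) = e ((c' s + -(g R) : Tor act β) : Pt (WAB A B) Ω) T ^ a
        rw [map_zpow₀, he.gal s _ (-R).2 T hT, hsT s hs]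
        congr 2
        show ac (WAB A B) s (-(R : Pt (WAB A B) Ω)) = (c' s : Pt (WAB A B) Ω) +
          -(ac (WAB A B) s (R : Pt (WAB A B) Ω) + (c' s : Pt (WAB A B) Ω))
        rw [map_neg]
        abel
      have h3 : s (t R) = t (g R) := by
        show s (tt (P + (R : Pt (WAB A B) Ω))) = tt (P + (ac (WAB A B) s (R : Pt (WAB A B) Ω) + (c' s : Pt (WAB A B) Ω)))
        rw [← tt_ac, map_add, hcc s hs]
        congr 1
        abel
      rw [map_mul, map_pow, h2, h3, mul_pow, mul_assoc]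
    have hAv : ∀ i, Ai i ≠ 0 → ∃ n : ℤ, V.valuation (Ai i) = ρ ^ ((i : ℤ) + l * n) := by
      intro i h0
      have h2 : Ai i / y' ^ i ≠ 0 := div_ne_zero h0 (pow_ne_zero _ hy'0)
      obtain ⟨n, hn⟩ := na_fix hβ hV h2 fun s hs => by
        rw [map_div₀, map_pow, hsA s hs, hsy' s hs, mul_pow,
          mul_div_mul_left _ _ (pow_ne_zero _ (hfne _))]
      refine ⟨n, ?_⟩
      rw [map_div₀, map_pow, hy'v, div_eq_iff (pow_ne_zero _ hρ0)] at hn
      rw [hn, ← hρ, ← zpow_natCast, ← zpow_mul, ← zpow_natCast, ← zpow_add₀ hρ0, add_comm]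
    have hdist : ∀ i < l, ∀ k < l, i ≠ k → Ai i ≠ 0 → V.valuation (Ai i) ≠ V.valuation (Ai k) := by
      intro i hi k hk' hne h0 h2
      have h3 : Ai k ≠ 0 := by
        rw [← Valuation.ne_zero_iff V.valuation, ← h2, Valuation.ne_zero_iff]
        exact h0
      obtain ⟨n, hn⟩ := hAv i h0
      obtain ⟨n', hn'⟩ := hAv k h3
      rw [hn, hn'] at h2
      have h4 := (zpow_right_injective₀ hρp hρ1.ne) h2
      have h5 : (i : ℤ) + l * n = k + l * n' := h4
      have h6 : (i : ℤ) % l = (k : ℤ) % l := by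
        have h7 := congrArg (· % (l : ℤ)) h5
        simpa using h7
      rw [Int.emod_eq_of_lt (by positivity) (by exact_mod_cast hi),
        Int.emod_eq_of_lt (by positivity) (by exact_mod_cast hk')] at h6
      exact hne (by exact_mod_cast h6)
    have hle := na_sum V l Ai hdist
    have hsum0 : ∑ i ∈ Finset.range l, Ai i = l * t 0 := by
      rw [← na_res hl f hfadd hfl hf1 t 0]
      refine Finset.sum_congr rfl fun i _ => ?_
      rw [hf0, one_pow, one_mul]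
    have ht0 : t 0 = tt P := by
      show tt (P + ((0 : Tor act β) : Pt (WAB A B) Ω)) = tt P
      rw [ZeroMemClass.coe_zero, add_zero]
    rw [hsum0, ht0, map_mul] at hle
    -- a nonzero point
    obtain ⟨-, R₀, hR₀T, -, hR₀z⟩ := gi_gen hA β hβ
    have hR₀0 : R₀ ≠ 0 := by
      intro h
      have h3 : act (1 : 𝓞 F) R₀ = 0 := by rw [h, map_zero]
      exact hβ.not_isUnit (isUnit_of_dvd_one ((hR₀z 1).1 h3))
    let R₁ : Tor act β := ⟨R₀, hR₀T⟩
    have hR₁ : f R₁ ≠ 1 := fun h => hR₀0 (congrArg Subtype.val (hf1 R₁ h))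
    have hsum1 : (l : Ω) * (t R₁ - tt P) = ∑ i ∈ Finset.range l, (f R₁ ^ i - 1) * Ai i := by
      rw [mul_sub, ← na_res hl f hfadd hfl hf1 t R₁, ← ht0, ← hsum0, ← Finset.sum_sub_distrib]
      refine Finset.sum_congr rfl fun i _ => ?_
      show f R₁ ^ i * Ai i - Ai i = _
      ring
    have hfv : V.valuation (f R₁) = 1 := by
      apply H13Z.lf1_one _ l hl0
      rw [← map_pow, hfl, map_one]
    have hbound : V.valuation ((l : Ω) * (t R₁ - tt P)) ≤
        V.valuation (f R₁ - 1) * (V.valuation (l : Ω) * ρ) := by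
      rw [hsum1]
      refine Valuation.map_sum_le _ fun i hi => ?_
      have h2 : f R₁ ^ i - 1 = (∑ n ∈ Finset.range i, f R₁ ^ n) * (f R₁ - 1) := (geom_sum_mul _ _).symm
      have h3 : V.valuation (∑ n ∈ Finset.range i, f R₁ ^ n) ≤ 1 := by
        refine Valuation.map_sum_le _ fun n _ => ?_
        rw [map_pow, hfv, one_pow]
      rw [map_mul, h2, map_mul]
      refine mul_le_mul' ?_ (hle i (Finset.mem_range.1 hi))
      calc V.valuation (∑ n ∈ Finset.range i, f R₁ ^ n) * V.valuation (f R₁ - 1)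
          ≤ 1 * V.valuation (f R₁ - 1) := mul_le_mul' h3 le_rfl
        _ = _ := one_mul _
    obtain ⟨-, hrat, -⟩ := val_ratio hA hβ (by rw [hNβ]; omega) V hG hV P hPK (by rw [hNβ]; exact hρ) R₀ hR₀T hR₀0
    obtain ⟨-, hτ⟩ := kr_tor_ram hA hG β hβ hV hR₀T hR₀0
    rw [hNβ] at hτ
    have hroot := na_root V l hl (f R₁) (hfl R₁) hR₁
    rw [hVlβ, ← hτ] at hroot
    have hfτ : V.valuation (f R₁ - 1) ≤ V.valuation (tt R₀) := by
      by_contra hcon
      push Not at hcon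
      exact absurd hroot (not_le.2 (pow_lt_pow_left₀ hcon zero_le (by omega)))
    have hVl0 : 0 < V.valuation (l : Ω) := by
      rw [hVlβ]
      exact zero_lt_iff.2 hϖ0
    rw [map_mul] at hbound
    have e1 : t R₁ - tt P = tt (P + R₀) - tt P := rfl
    rw [e1, hrat] at hbound
    have h6 : V.valuation (l : Ω) * V.valuation (tt R₀) ≤ V.valuation (l : Ω) * (V.valuation (tt R₀) * ρ) := by
      refine hbound.trans ?_
      calc V.valuation (f R₁ - 1) * (V.valuation (l : Ω) * ρ)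
          ≤ V.valuation (tt R₀) * (V.valuation (l : Ω) * ρ) := mul_le_mul' hfτ le_rfl
        _ = _ := by rw [mul_left_comm]
    have h7 : V.valuation (tt R₀) ≤ V.valuation (tt R₀) * ρ := (mul_le_mul_iff_right₀ hVl0).1 h6
    have hτ0 : 0 < V.valuation (tt R₀) := by
      rw [zero_lt_iff]
      intro h
      rw [h, zero_pow (by omega)] at hτ
      exact hϖ0 hτ.symm
    have h8 : V.valuation (tt R₀) * ρ < V.valuation (tt R₀) * 1 := mul_lt_mul_of_pos_left hρ1 hτ0
    rw [mul_one] at h8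
    exact absurd h7 (not_le.2 h8)

end H13X
end

-- from Lib.H13X.XQ2
section

/-! # H13X: port of H13Y/YQ2 -/

open NumberField IsDedekindDomain WeierstrassCurve

namespace H13X

open H55P (IQ embF eF LF Per IsHecke Pt ac Inert Dec Nm Coc)
open H35P (WAB Ker tt)
open H55K (Tor ak xc yc CMA Dta GV GMod cj cj_cj mul_cj cj_prime cj_dvd cj_nat Nm_cj Nm_mul Nm_nat)
open H55K.S
open H13S (Abv)





variable {F : Type} [Field F] [NumberField F] [IQ F] {A B : F} {Om : ℂ} {Ω : Type} [Field Ω] [DecidableEq Ω]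
  [Algebra F Ω] [IsAlgClosure F Ω] {j : Ω →+* ℂ} {act : 𝓞 F →+* AddMonoid.End (Pt (WAB A B) Ω)} {mo : Ideal (𝓞 F)}
  {ψ : Ideal (𝓞 F) →*₀ 𝓞 F}

variable {π : 𝓞 F} {l : ℕ} {N : IntermediateField F Ω} {V : ValuationSubring Ω} {φ : Ω ≃ₐ[F] Ω} {q n : ℕ}
  {e : Pt (WAB A B) Ω → Pt (WAB A B) Ω → Ω}

/-- Chunk YQ5 (S/M). Two classes with congruent coefficients x, x₁ at T₀ ≠ 0: y T₀^l = z^l (1 + l x), y₁ T₀^l = z₁^l (1 + l x₁). (y T₀/y₁ T₀)^l = (z/z₁)^l v, v = (1 + l x)/(1 + l x₁), v - 1 = l (x - x₁)/(1 + l x₁), V ≤ V l^2 (UV.step). UV.fix: y T₀/y₁ T₀ is fixed by s in JV (in DT), KS.act: e (c s) T₀/e (c₁ s) T₀ = 1, lk_sub, UV.zero. -/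
theorem UV.same (U : UV A B Om j act mo ψ π l N V φ q n) (he : Pairing A B act π l e) {c c₁ : (Ω ≃ₐ[F] Ω) → Pt (WAB A B) Ω}
    (hc : Dc act π N V c) (hc₁ : Dc act π N V c₁) {y y₁ : Pt (WAB A B) Ω → Ω} (hy : KS act π N V e c y)
    (hy₁ : KS act π N V e c₁ y₁) {T₀ : Pt (WAB A B) Ω} (hT : T₀ ∈ Tor act π) (h0 : T₀ ≠ 0) {z x z₁ x₁ : Ω}
    (hz : Hx act π N V z) (hz0 : z ≠ 0) (hx : Hx act π N V x) (hx1 : V.valuation x ≤ 1)
    (h : y T₀ ^ l = z ^ l * (1 + l * x)) (hz₁ : Hx act π N V z₁) (hz10 : z₁ ≠ 0) (hx₁ : Hx act π N V x₁)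
    (hx11 : V.valuation x₁ ≤ 1) (h₁ : y₁ T₀ ^ l = z₁ ^ l * (1 + l * x₁))
    (hd : V.valuation (x - x₁) < 1) : ∀ s, JV act π V s → c s - c₁ s = 0 := by
  intro s hs
  have D := U.D
  obtain ⟨_, _, _, _, hl1⟩ := U.val_l
  have hDN : DecN N V s := U.nb.dec hl1 hs.1
  have hDT : DT act π N V s := ⟨hDN, hs.2.1⟩
  have hyn : y T₀ ≠ 0 := hy.ne T₀ hT
  have hyn₁ : y₁ T₀ ≠ 0 := hy₁.ne T₀ hT
  have hxx := U.step (hx.sub hx₁) hd
  have hlx₁ : V.valuation ((l : Ω) * x₁) < 1 := by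
    rw [map_mul]
    exact lt_of_le_of_lt (mul_le_of_le_one_right' hx11) hl1
  have hu₁ : V.valuation (1 + (l : Ω) * x₁) = 1 := Valuation.map_one_add_of_lt _ hlx₁
  have hun₁ : 1 + (l : Ω) * x₁ ≠ 0 := by
    intro h0
    rw [h0, map_zero] at hu₁
    exact zero_ne_one hu₁
  obtain ⟨v, hv⟩ : ∃ v, v = (1 + (l : Ω) * x) / (1 + (l : Ω) * x₁) := ⟨_, rfl⟩
  have hvH : Hx act π N V v := by
    rw [hv]
    exact (Hx.one.add ((Hx.nat l).mul hx)).div (Hx.one.add ((Hx.nat l).mul hx₁))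
  have hv1 : V.valuation (v - 1) ≤ V.valuation (l : Ω) ^ 2 := by
    have e1 : v - 1 = (l : Ω) * (x - x₁) / (1 + (l : Ω) * x₁) := by
      rw [hv, div_sub_one hun₁]
      congr 1
      ring
    rw [e1, map_div₀, hu₁, div_one, map_mul, sq]
    exact mul_le_mul_right hxx _
  have hq : (y T₀ / y₁ T₀) ^ l = (z / z₁) ^ l * v := by
    rw [div_pow, h, h₁, hv, div_pow]
    field_simp
  have h3 := U.fix he (hz.div hz₁) (div_ne_zero hz0 hz10) hvH hq hv1 hs
  rw [map_div₀ s, hy.gal T₀ hT s hDT, hy₁.gal T₀ hT s hDT] at h3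
  have h5 := lk_ne D he (hc₁.val s hDN) hT
  have h4 : e (c s) T₀ / e (c₁ s) T₀ = 1 := by
    field_simp at h3 ⊢
    exact h3
  apply U.zero he hT h0 (sub_mem (hc.val s hDN) (hc₁.val s hDN))
  rw [lk_sub D he (hc.val s hDN) (hc₁.val s hDN) hT]
  exact h4

/-- Chunk YQ6 (M). The local condition above cj π over N in the split case. T₀ ≠ 0 in Tor π (gi_gen). r from U.rep. For each i: exists_ptu with u = r i (hl: UV.val_l): P i, y i, class c_i; UV.coef for sys_of: z i, x i, V (x i^q - n x i) < 1. For i ≠ i' not V (x i - x i') < 1: otherwise UV.same: the difference vanishes on JV; cob_inert (inertia elements are in DecN: U.nb.dec) against pt_diff.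
c has (z, x) (UV.coef, sys_of). pigeon2 (2 ≤ q): i with V (x - x i) < 1. UV.same, cob_ram with moved_ram for cj π: c s - (s P_i - P_i) = s X - X. The point P_i + X. -/
theorem loc_conj (U : UV A B Om j act mo ψ π l N V φ q n) (he : Pairing A B act π l e) {c : (Ω ≃ₐ[F] Ω) → Pt (WAB A B) Ω} (hc : Dc act π N V c)
    {y : Pt (WAB A B) Ω → Ω} (hy : KS act π N V e c y)
    (hvy : ∀ T ∈ Tor act π, ∃ k : ℤ, V.valuation (y T) = V.valuation (l : Ω) ^ k) : ∃ P : Pt (WAB A B) Ω, ∀ s, DecN N V s → c s = ac (WAB A B) s P - P := by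
  have D := U.D
  obtain ⟨hl0, hp1, hG, hl00, hl1⟩ := U.val_l
  have hA := D.cma
  have hβ : Prime (cj π) := cj_prime D.pr
  have hID : ∀ s : Ω ≃ₐ[F] Ω, Inert V s → DecN N V s := fun s hs => U.nb.dec hl1 hs
  have hDT : ∀ s : Ω ≃ₐ[F] Ω, Inert V s → DT act π N V s := fun s hs =>
    ⟨hID s hs, fun T hT => inert_tors hA hG hp1 hs hT⟩
  obtain ⟨_, T₀, hT₀, _, hz0⟩ := gi_gen U.D.cma π D.pr
  have hT00 : T₀ ≠ 0 := by
    intro h
    have h1 := (hz0 1).1 (by rw [act_one, h])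
    exact D.pr.not_unit (isUnit_of_dvd_one h1)
  obtain ⟨r, hr1, hr2⟩ := U.rep
  have key : ∀ i : Fin q, ∃ (P : Pt (WAB A B) Ω) (y₁ : Pt (WAB A B) Ω → Ω) (z x : Ω),
      Ker V (act (cj π) P) ∧
      V.valuation (tt (act (cj π) P) - l * r i) < V.valuation (l : Ω) ∧
      Dc act π N V (fun s => ac (WAB A B) s P - P) ∧ KS act π N V e (fun s => ac (WAB A B) s P - P) y₁ ∧
      Hx act π N V z ∧ z ≠ 0 ∧ Hx act π N V x ∧ V.valuation x ≤ 1 ∧ y₁ T₀ ^ l = z ^ l * (1 + l * x) ∧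
      V.valuation (x ^ q - n * x) < 1 := by
    intro i
    obtain ⟨P, B₀, L, y₁, hP, hPv, hP3, -, -, -, -, hc₁, hy₁⟩ :=
      exists_ptu D hG he U.nb U.above hl0 (hr1 i).1 (hr1 i).2
    have hPK : Ker V P := by
      rcases hP3 with h | h
      · rw [h]
        exact ker_zero V
      · exact h.1
    obtain ⟨k, hk⟩ := na_val D he V hG hp1 U.above hPK (fun s hs => hc₁.val s (hID s hs)) hT₀ (hy₁.ne T₀ hT₀)
      (fun s hs => hy₁.gal T₀ hT₀ s (hDT s hs))
    obtain ⟨z, x, hz, hzn, hx, hx1, hmz, hxe⟩ := U.coef (sys_of D he hc₁ hy₁) hT₀ ⟨k, by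
      show V.valuation (y₁ T₀ ^ l) = _
      rw [map_pow, hk, ← hl0, mul_comm, zpow_mul, zpow_natCast]⟩
    exact ⟨P, y₁, z, x, hP, hPv, hc₁, hy₁, hz, hzn, hx, hx1, hmz, hxe⟩
  choose P y₁ z x hP hPv hc₁ hy₁ hz hzn hx hx1 hm hxe using key
  have hinj : ∀ i i', i ≠ i' → ¬ V.valuation (x i - x i') < 1 := by
    intro i i' hne hlt
    have h1 := U.same he (hc₁ i) (hc₁ i') (hy₁ i) (hy₁ i') hT₀ hT00 (hz i) (hzn i) (hx i) (hx1 i)
      (hm i) (hz i') (hzn i') (hx i') (hx1 i') (hm i') hlt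
    obtain ⟨X, hX, hX1⟩ := cob_inert D ((hc₁ i).sub (hc₁ i')) (fun s _ hs => h1 s hs)
    exact pt_diff D hG U.above hl0 (hr1 i).2 (hr1 i').2 (hP i) (hP i') (hPv i) (hPv i') (hr2 i i' hne)
      ⟨X, hX, fun s hs => hX1 s (hID s hs).1 hs⟩
  obtain ⟨z', x', hz', hzn', hx', hx1', hmz', hxe'⟩ := U.coef (sys_of D he hc hy) hT₀ (by
    obtain ⟨k, hk⟩ := hvy T₀ hT₀
    exact ⟨k, by
      show V.valuation (y T₀ ^ l) = _
      rw [map_pow, hk, mul_comm, zpow_mul, zpow_natCast]⟩)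
  have hq2 : 2 ≤ q := by
    obtain ⟨q', hq', hq0⟩ := U.ql
    have h5 := D.five
    rw [hq']
    nlinarith
  obtain ⟨i, hi⟩ := H13Y.pigeon2 V hq2 x (fun i => ⟨hx1 i, hxe i⟩) hinj hx1' hxe'
  have h1 := U.same he hc (hc₁ i) hy (hy₁ i) hT₀ hT00 hz' hzn' hx' hx1' hmz' (hz i) (hzn i) (hx i)
    (hx1 i) (hm i) hi
  obtain ⟨X, hX, hX1⟩ := cob_ram D (hc.sub (hc₁ i)) (fun s _ hs => h1 s hs) (by
    obtain ⟨σ, h6, h7⟩ := moved_ram hA hG hβ (xp_nm D).2 U.above
    exact ⟨σ, (hID σ h6).1, h6, h7⟩)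
  refine ⟨P i + X, fun s hs => ?_⟩
  have h2 : c s - (ac (WAB A B) s (P i) - P i) = ac (WAB A B) s X - X := hX1 s hs
  rw [map_add, sub_eq_iff_eq_add.1 h2]
  abel

end H13X
end
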