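import Mathlib
import Pool.Agent.Lib.H1M.PP2.D_H55Y_Y2
import Pool.Agent.Lib.H1M.PP2.M051
import Pool.Agent.Lib.H1M.PP2.M063
import Pool.Agent.Lib.H1M.PP2.M069
import Pool.Agent.Lib.H1M.PP2.M073
import Pool.Agent.Lib.H1M.PP2.M074
import Pool.Agent.Lib.H1M.PP2.M083
import Pool.Agent.Lib.H1M.PP2.M094
import Pool.Agent.Lib.H1M.PP2.M098
import Pool.Agent.Lib.H1M.PP2.M099
import Pool.Agent.Lib.H1M.PP2.M100
import Pool.Agent.Lib.H1M.PP2.M102
import Pool.Agent.Lib.H1M.PP2.M118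
import Pool.Agent.Lib.H1M.PP2.M119
import Pool.Agent.Lib.H1M.PP2.M129

/-! Merged copies (to shorten the build) of Lib.H13X.XLK, Lib.H13R.R3, Lib.H13R.R6, Lib.H55Y.Y1, Lib.H55Y.Y3, Lib.H55Y.Y4. -/

-- from Lib.H13X.XLK
section

/-! # H13X: the link between the number of points and the decomposition group -/

open NumberField IsDedekindDomain WeierstrassCurve

namespace H13X

open H55P (IQ embF eF LF Per IsHecke Pt ac Inert Dec Nm Coc PExt UnrP Ram RamF)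
open H35P (WAB Ker tt)
open H55K (Tor ak xc yc CMA Dta GV GMod cj cj_cj mul_cj cj_prime cj_dvd cj_nat Nm_cj Nm_mul Nm_nat)
open H55K (Abw exists_abw)
open H55K.S
open H55R (Pl)
open H13S (Abv)

theorem lk_fin {k : Type} [Field k] [Finite k] (W : WeierstrassCurve k) : Finite W.toAffine.Point := by
  let f : W.toAffine.Point → Option (k × k) := fun P => match P with
    | .zero => none
    | .some x y _ => some (x, y)
  apply Finite.of_injective f
  rintro (_ | ⟨x, y, h⟩) (_ | ⟨x', y', h'⟩) he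
  · rfl
  · exact absurd he (by simp [f])
  · exact absurd he (by simp [f])
  · have h1 : (x, y) = (x', y') := Option.some.inj he
    rw [Prod.mk.injEq] at h1
    obtain ⟨rfl, rfl⟩ := h1
    rfl

variable {F : Type} [Field F] [NumberField F] [IQ F] {A B : F} {Om : ℂ} {Ω : Type} [Field Ω] [DecidableEq Ω]
  [Algebra F Ω] [IsAlgClosure F Ω] {j : Ω →+* ℂ} {act : 𝓞 F →+* AddMonoid.End (Pt (WAB A B) Ω)} {mo : Ideal (𝓞 F)}
  {ψ : Ideal (𝓞 F) →*₀ 𝓞 F} {π : 𝓞 F} {l : ℕ}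

/-- The reduction is good at V above v₀ if v₀ is prime to 6 and to the discriminant. -/
theorem lk_gv (W₀ : WeierstrassCurve (𝓞 F)) (hA : A = -(algebraMap (𝓞 F) F W₀.c₄) / 48)
    (hB : B = -(algebraMap (𝓞 F) F W₀.c₆) / 864) {V : ValuationSubring Ω} (h2 : V.valuation (2 : Ω) = 1)
    (h3 : V.valuation (3 : Ω) = 1) (hΔ : vo V W₀.Δ = 1) : GV A B V := by
  have h48 : V.valuation (48 : Ω) = 1 := by
    have e : (48 : Ω) = 2 * 2 * 2 * 2 * 3 := by norm_num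
    rw [e]
    simp only [map_mul, h2, h3, one_mul]
  have h864 : V.valuation (864 : Ω) = 1 := by
    have e : (864 : Ω) = 2 * 2 * 2 * 2 * 2 * 3 * 3 * 3 := by norm_num
    rw [e]
    simp only [map_mul, h2, h3, one_mul]
  have h16 : V.valuation (16 : Ω) = 1 := by
    have e : (16 : Ω) = 2 * 2 * 2 * 2 := by norm_num
    rw [e]
    simp only [map_mul, h2, one_mul]
  refine ⟨?_, ?_, h2, h3, ?_⟩
  · rw [← V.valuation_le_one_iff, hA, map_div₀, map_neg, map_ofNat, map_div₀, Valuation.map_neg, h48,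
      div_one]
    exact H55K.y3_le V _
  · rw [← V.valuation_le_one_iff, hB, map_div₀, map_neg, map_ofNat, map_div₀, Valuation.map_neg, h864,
      div_one]
    exact H55K.y3_le V _
  · rw [H55K.y3_disc W₀ hA hB, map_div₀, map_neg, map_ofNat, map_div₀, Valuation.map_neg, h16, div_one]
    exact hΔ

/-- An element of 𝓞 F not in v₀ has value 1. -/
theorem lk_one {v₀ : Pl F} {V : ValuationSubring Ω} (hV : Abw V v₀) {x : 𝓞 F} (hx : x ∉ v₀.asIdeal) : vo V x = 1 := by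
  refine le_antisymm (vo_le V x) (not_lt.1 fun h => hx ?_)
  exact (v₀.valuation_lt_one_iff_mem x).1 ((hV.lt (x : F)).1 h)

theorem lk_lt {v₀ : Pl F} {V : ValuationSubring Ω} (hV : Abw V v₀) {x : 𝓞 F} (hx : x ∈ v₀.asIdeal) : vo V x < 1 :=
  (hV.lt (x : F)).2 ((v₀.valuation_lt_one_iff_mem x).2 hx)

/-- l divides the number of points modulo v₀: there is a point killed by l fixed by a Frobenius element. -/
theorem lk_frob (hA : CMA F A B Om j act) (W₀ : WeierstrassCurve (𝓞 F))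
    (hA' : A = -(algebraMap (𝓞 F) F W₀.c₄) / 48) (hB' : B = -(algebraMap (𝓞 F) F W₀.c₆) / 864) {v₀ : Pl F}
    (hΔ : W₀.Δ ∉ v₀.asIdeal) {V : ValuationSubring Ω} (hV : Abw V v₀) (hG : GV A B V) (hl : l.Prime)
    (hlV : (l : 𝓞 F) ∉ v₀.asIdeal) (hpts : l ∣ Nat.card (W₀⁄(𝓞 F ⧸ v₀.asIdeal)).toAffine.Point)
    {s : Ω ≃ₐ[F] Ω} (hsD : Dec V s) (hs : ∀ x ∈ V, V.valuation (s x - x ^ Ideal.absNorm v₀.asIdeal) < 1) :
    ∃ T : Pt (WAB A B) Ω, T ≠ 0 ∧ l • T = 0 ∧ ac (WAB A B) s T = T := by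
  have hcl0 : IsAlgClosed Ω := IsAlgClosure.isAlgClosed F
  have hm := v₀.isMaximal
  have hlV1 := lk_one hV hlV
  let C : AddSubgroup (Pt (WAB A B) Ω ⧸ H55K.kerG hG) :=
    { carrier := {c | ∃ X : Pt (WAB A B) Ω, (X : Pt (WAB A B) Ω ⧸ H55K.kerG hG) = c ∧
        Ker V (ac (WAB A B) s X - X)}
      add_mem' := by
        rintro _ _ ⟨X, rfl, hX⟩ ⟨Y, rfl, hY⟩
        refine ⟨X + Y, rfl, ?_⟩
        have e : ac (WAB A B) s (X + Y) - (X + Y) = (ac (WAB A B) s X - X) + (ac (WAB A B) s Y - Y) := by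
          rw [map_add]
          abel
        rw [e]
        exact H55K.kadd hG hX hY
      zero_mem' := by
        refine ⟨0, rfl, ?_⟩
        rw [map_zero, sub_zero]
        trivial
      neg_mem' := by
        rintro _ ⟨X, rfl, hX⟩
        refine ⟨-X, rfl, ?_⟩
        have e : ac (WAB A B) s (-X) - (-X) = -(ac (WAB A B) s X - X) := by
          rw [map_neg]
          abel
        rw [e]
        exact H55K.kneg hX }
  have hcard : Nat.card (W₀⁄(𝓞 F ⧸ v₀.asIdeal)).toAffine.Point = Nat.card C :=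
    H55K.red_card hG W₀ hA' hB' v₀ hΔ (fun a ha => lk_lt hV ha) s hs
  have hfin : Finite C := by
    let _ : Field (𝓞 F ⧸ v₀.asIdeal) := Ideal.Quotient.field _
    have hf : Finite (𝓞 F ⧸ v₀.asIdeal) := Ideal.finiteQuotientOfFreeOfNeBot _ v₀.ne_bot
    have h1 : Finite (W₀⁄(𝓞 F ⧸ v₀.asIdeal)).toAffine.Point := lk_fin _
    have h2 : Nat.card (W₀⁄(𝓞 F ⧸ v₀.asIdeal)).toAffine.Point ≠ 0 := Nat.card_pos.ne'
    rw [hcard] at h2
    exact Nat.finite_of_card_ne_zero h2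
  have hfact : Fact l.Prime := ⟨hl⟩
  rw [hcard] at hpts
  obtain ⟨⟨c, X, rfl, hX⟩, hc⟩ := exists_prime_addOrderOf_dvd_card' l hpts
  have hc0 : ¬ Ker V X := by
    intro h
    have h1 : (⟨(X : Pt (WAB A B) Ω ⧸ H55K.kerG hG), X, rfl, hX⟩ : C) = 0 := by
      apply Subtype.ext
      exact (QuotientAddGroup.eq_zero_iff X).2 h
    rw [h1, addOrderOf_zero] at hc
    exact hl.one_lt.ne hc
  have hlX : Ker V (l • X) := by
    have h1 := addOrderOf_nsmul_eq_zero (⟨(X : Pt (WAB A B) Ω ⧸ H55K.kerG hG), X, rfl, hX⟩ : C)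
    rw [hc] at h1
    have h2 : ((l • X : Pt (WAB A B) Ω) : Pt (WAB A B) Ω ⧸ H55K.kerG hG) = 0 := congrArg Subtype.val h1
    exact (QuotientAddGroup.eq_zero_iff _).1 h2
  obtain ⟨T, hT, hXT⟩ := H55K.g9_surj hA hG (b := (l : 𝓞 F)) hlV1 (X := X) (by rw [act_nat (act := act)]; exact hlX)
  have hlT : l • T = 0 := by
    have h1 : act (l : 𝓞 F) T = 0 := hT
    rwa [act_nat (act := act)] at h1
  refine ⟨T, ?_, hlT, ?_⟩
  · rintro rfl
    rw [sub_zero] at hXT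
    exact hc0 hXT
  · have h1 : ac (WAB A B) s T - T = (ac (WAB A B) s X - X) - (ac (WAB A B) s (X - T) - (X - T)) := by
      rw [map_sub]
      abel
    have h2 : Ker V (ac (WAB A B) s T - T) := by
      rw [h1]
      exact H55K.ksub hG hX (H55K.ksub hG (kr_dec s hsD hXT) hXT)
    exact sub_eq_zero.1 (H55K.tor_unit hA hG (b := (l : 𝓞 F)) hlV1 (sub_mem (ac_mem hA s hT) hT) h2)

omit [IQ F] in
theorem lk_norm {v₀ : Pl F} {V : ValuationSubring Ω} (hV : Abw V v₀)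
    [NumberField (⊥ : IntermediateField F Ω)] : ∃ w : HeightOneSpectrum (𝓞 (⊥ : IntermediateField F Ω)),
      Abv ⊥ V w ∧ Ideal.absNorm w.asIdeal = Ideal.absNorm v₀.asIdeal := by
  obtain ⟨a, ha, ha0⟩ := Submodule.exists_mem_ne_zero_of_ne_bot v₀.ne_bot
  have h1 : V.valuation (algebraMap F Ω (a : F)) < 1 := (hV.lt (a : F)).2 ((v₀.valuation_lt_one_iff_mem a).2 ha)
  have ha1 : algebraMap F Ω (a : F) ≠ 0 := by
    rw [Ne, map_eq_zero]
    intro h
    apply ha0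
    exact RingOfIntegers.ext h
  obtain ⟨x, hx⟩ : ∃ x : F, x = (a : F) := ⟨_, rfl⟩
  rw [← hx] at h1 ha1
  obtain ⟨w, hw⟩ := H13S.exists_below (⊥ : IntermediateField F Ω) V
    ⟨algebraMap F (⊥ : IntermediateField F Ω) x⁻¹, fun h => by
      have e : ((algebraMap F (⊥ : IntermediateField F Ω) x⁻¹ : (⊥ : IntermediateField F Ω)) : Ω) =
          (algebraMap F Ω x)⁻¹ := by
        rw [← map_inv₀]
        rfl
      rw [e, ← V.valuation_le_one_iff, map_inv₀, inv_le_one₀ (zero_lt_iff.2 ((map_ne_zero _).2 ha1))] at h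
      exact absurd h1 (not_lt.2 h)⟩
  refine ⟨w, hw, ?_⟩
  have hmem : ∀ x : 𝓞 F, x ∈ v₀.asIdeal ↔ algebraMap (𝓞 F) (𝓞 (⊥ : IntermediateField F Ω)) x ∈ w.asIdeal := by
    intro x
    rw [← v₀.valuation_lt_one_iff_mem (K := F) x, ← hV.lt (x : F)]
    have h2 := hw.lt (algebraMap F (⊥ : IntermediateField F Ω) (x : F))
    exact h2.trans (w.valuation_lt_one_iff_mem (K := (⊥ : IntermediateField F Ω))
      (algebraMap (𝓞 F) (𝓞 (⊥ : IntermediateField F Ω)) x))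
  rw [← Ideal.absNorm_relNorm (𝓞 F) (𝓞 (⊥ : IntermediateField F Ω)) w.asIdeal, H55K.y9_norm hmem]

/-- The same for the decomposition group. -/
theorem lk_dec (hA : CMA F A B Om j act) (W₀ : WeierstrassCurve (𝓞 F))
    (hA' : A = -(algebraMap (𝓞 F) F W₀.c₄) / 48) (hB' : B = -(algebraMap (𝓞 F) F W₀.c₆) / 864) {v₀ : Pl F}
    (hΔ : W₀.Δ ∉ v₀.asIdeal) {V : ValuationSubring Ω} (hV : Abw V v₀) (hG : GV A B V) (hl : l.Prime)
    (hlV : (l : 𝓞 F) ∉ v₀.asIdeal) (hpts : l ∣ Nat.card (W₀⁄(𝓞 F ⧸ v₀.asIdeal)).toAffine.Point) :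
    ∃ T : Pt (WAB A B) Ω, T ≠ 0 ∧ l • T = 0 ∧ ∀ s, Dec V s → ac (WAB A B) s T = T := by
  have hcl0 : IsAlgClosed Ω := IsAlgClosure.isAlgClosed F
  have hal0 : Algebra.IsAlgebraic F Ω := IsAlgClosure.isAlgebraic
  have hbn : NumberField (⊥ : IntermediateField F Ω) := NumberField.of_module_finite F _
  obtain ⟨w, hw, hn⟩ := lk_norm hV
  obtain ⟨φ, hφ, hφD, hφF⟩ := exists_frobK (⊥ : IntermediateField F Ω) hw
  obtain ⟨T, hT0, hT, hφT⟩ := lk_frob hA W₀ hA' hB' hΔ hV hG hl hlV hpts hφD (by rw [← hn]; exact hφF)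
  refine ⟨T, hT0, hT, fun s hs => ?_⟩
  have hbot : ∀ s : Ω ≃ₐ[F] Ω, s ∈ (⊥ : IntermediateField F Ω).fixingSubgroup := fun s => by
    rw [IntermediateField.fixingSubgroup_bot]
    exact Subgroup.mem_top s
  have hTl : T ∈ Tor act (l : 𝓞 F) := by
    rw [mem_Tor, act_nat (act := act)]
    exact hT
  have hfin := lp_fin T
  have h0 := dec_gen (A := A) (B := B) (d := fun s => ac (WAB A B) s T - T) hw (fun s _ _ t _ _ => by
      show ac (WAB A B) (s * t) T - T = (ac (WAB A B) s T - T) + ac (WAB A B) s (ac (WAB A B) t T - T)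
      rw [ac_mul, map_sub]
      abel)
    ⟨IntermediateField.adjoin F {xc T, yc T}, hfin, fun s _ hs _ => by
      show ac (WAB A B) s T - T = 0
      rw [lp_adj s T hs, sub_self]⟩
    (fun s _ hi => by
      show ac (WAB A B) s T - T = 0
      rw [inert_tors hA hG (lk_one hV hlV) hi hTl, sub_self])
    hφ hφD hφF (by show ac (WAB A B) φ T - T = 0; rw [hφT, sub_self]) (hbot s) hs
  exact sub_eq_zero.1 h0

/-- A prime element π above l such that the decomposition group fixes all the points killed by π. -/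
theorem lk_pi (hA : CMA F A B Om j act) (hl : l.Prime) (unr : ∀ v : HeightOneSpectrum (𝓞 F), (l : 𝓞 F) ∉ v.asIdeal ^ 2)
    {V : ValuationSubring Ω} {T : Pt (WAB A B) Ω} (hT0 : T ≠ 0) (hT : l • T = 0)
    (hf : ∀ s, Dec V s → ac (WAB A B) s T = T) :
    ∃ π : 𝓞 F, Prime π ∧ π ∣ (l : 𝓞 F) ∧ ∀ s, Dec V s → ∀ R ∈ Tor act π, ac (WAB A B) s R = R := by
  have key : ∀ β : 𝓞 F, Prime β → ∀ T' ∈ Tor act β, T' ≠ 0 → (∀ s, Dec V s → ac (WAB A B) s T' = T') →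
      ∀ s, Dec V s → ∀ R ∈ Tor act β, ac (WAB A B) s R = R := by
    intro β hβ T' hT' h0 hf' s hs R hR
    obtain ⟨a, rfl⟩ := H55K.tor_gen hA hβ hT' hR h0
    rw [ac_act hA, hf' s hs]
  have hTl : act (l : 𝓞 F) T = 0 := by
    rw [act_nat (act := act)]
    exact hT
  obtain ⟨π, hπ, hd⟩ := exists_prime_above (F := F) hl
  rcases dichotomy hl unr hπ hd with ⟨-, -, h3⟩ | ⟨-, -, -, hll⟩
  · exact ⟨π, hπ, hd, key π hπ T (by rw [← tor_assoc h3]; exact hTl) hT0 hf⟩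
  · have hd' : cj π ∣ (l : 𝓞 F) := by rw [cj_dvd, cj_nat]; exact hd
    by_cases h : act (cj π) T = 0
    · exact ⟨cj π, cj_prime hπ, hd', key (cj π) (cj_prime hπ) T h hT0 hf⟩
    · refine ⟨π, hπ, hd, key π hπ (act (cj π) T) ?_ h fun s hs => ?_⟩
      · rw [mem_Tor, ← act_mul, hll]
        exact hTl
      · rw [ac_act hA, hf s hs]

end H13X
end

-- from Lib.H13R.R3
section

/-! # H13R: a point of order l modulo v, over M -/

open NumberField IsDedekindDomain WeierstrassCurve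

namespace H13R

open H55P (IQ embF eF LF Per IsHecke Pt ac Inert Dec Nm Coc PExt UnrP Ram RamF)
open H35P (WAB Ker tt GoodW IntW)
open H55K (Tor ak xc yc CMA Dta GV GMod)
open H55K H55K.MG
open H13S (Abv)

section cast

variable {k : Type} [Field k] [DecidableEq k]

/-- The identity map between the groups of points of equal curves. -/
noncomputable def castPt {E₁ E₂ : WeierstrassCurve k} (h : E₁ = E₂) : E₁.toAffine.Point ≃+ E₂.toAffine.Point := by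
  subst h
  exact AddEquiv.refl _

theorem castPt_some {E₁ E₂ : WeierstrassCurve k} (h : E₁ = E₂) (x y : k) (hn : E₁.toAffine.Nonsingular x y) :
    castPt h (.some x y hn) = .some x y (h ▸ hn) := by
  subst h
  rfl

theorem castPt_ker {E₁ E₂ : WeierstrassCurve k} (h : E₁ = E₂) (V : ValuationSubring k) (P : E₁.toAffine.Point) :
    Ker V (castPt h P) ↔ Ker V P := by
  subst h
  exact Iff.rfl

end cast

section count

variable {F : Type} [Field F] [NumberField F] {Ω : Type} [Field Ω] [DecidableEq Ω]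
  [Algebra F Ω] {V : ValuationSubring Ω}

/-- l divides the number of points modulo v: a point X not in the kernel of reduction, with l X in it and the class of X fixed by the Frobenius element. -/
theorem lk_X0 [IsAlgClosed Ω] (W₀ : WeierstrassCurve (𝓞 F)) (hG : GoodW ((W₀⁄F)⁄Ω) V)
    (v₀ : HeightOneSpectrum (𝓞 F)) (hΔ : W₀.Δ ∉ v₀.asIdeal)
    (hv : ∀ a : 𝓞 F, a ∈ v₀.asIdeal → V.valuation (ak Ω a) < 1) {l : ℕ} (hl : l.Prime)
    (hpts : l ∣ Nat.card (W₀⁄(𝓞 F ⧸ v₀.asIdeal)).toAffine.Point)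
    (s : Ω ≃ₐ[F] Ω) (hs : ∀ x ∈ V, V.valuation (s x - x ^ Ideal.absNorm v₀.asIdeal) < 1) :
    ∃ X : Pt (W₀⁄F) Ω, ¬ Ker V X ∧ Ker V (l • X) ∧ Ker V (ac (W₀⁄F) s X - X) := by
  have hm := v₀.isMaximal
  let C : AddSubgroup (Pt (W₀⁄F) Ω ⧸ kerR hG) :=
    { carrier := {c | ∃ X : Pt (W₀⁄F) Ω, (X : Pt (W₀⁄F) Ω ⧸ kerR hG) = c ∧
        Ker V (ac (W₀⁄F) s X - X)}
      add_mem' := by
        rintro _ _ ⟨X, rfl, hX⟩ ⟨Y, rfl, hY⟩
        refine ⟨X + Y, rfl, ?_⟩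
        have e : ac (W₀⁄F) s (X + Y) - (X + Y) = (ac (W₀⁄F) s X - X) + (ac (W₀⁄F) s Y - Y) := by
          rw [map_add]
          abel
        rw [e]
        exact (kerR hG).add_mem hX hY
      zero_mem' := by
        refine ⟨0, rfl, ?_⟩
        rw [map_zero, sub_zero]
        trivial
      neg_mem' := by
        rintro _ ⟨X, rfl, hX⟩
        refine ⟨-X, rfl, ?_⟩
        have e : ac (W₀⁄F) s (-X) - (-X) = -(ac (W₀⁄F) s X - X) := by
          rw [map_neg]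
          abel
        rw [e]
        exact (kerR hG).neg_mem hX }
  have hcard : Nat.card (W₀⁄(𝓞 F ⧸ v₀.asIdeal)).toAffine.Point = Nat.card C :=
    red_cardR W₀ hG v₀ hΔ hv s hs
  have hfin : Finite C := by
    let _ : Field (𝓞 F ⧸ v₀.asIdeal) := Ideal.Quotient.field _
    have hf : Finite (𝓞 F ⧸ v₀.asIdeal) := Ideal.finiteQuotientOfFreeOfNeBot _ v₀.ne_bot
    have h1 : Finite (W₀⁄(𝓞 F ⧸ v₀.asIdeal)).toAffine.Point := H13X.lk_fin _
    have h2 : Nat.card (W₀⁄(𝓞 F ⧸ v₀.asIdeal)).toAffine.Point ≠ 0 := Nat.card_pos.ne'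
    rw [hcard] at h2
    exact Nat.finite_of_card_ne_zero h2
  have hfact : Fact l.Prime := ⟨hl⟩
  rw [hcard] at hpts
  obtain ⟨⟨c, X, rfl, hX⟩, hc⟩ := exists_prime_addOrderOf_dvd_card' l hpts
  have hc0 : ¬ Ker V X := by
    intro h
    have h1 : (⟨(X : Pt (W₀⁄F) Ω ⧸ kerR hG), X, rfl, hX⟩ : C) = 0 := by
      apply Subtype.ext
      exact (QuotientAddGroup.eq_zero_iff X).2 h
    rw [h1, addOrderOf_zero] at hc
    exact hl.one_lt.ne hc
  have hlX : Ker V (l • X) := by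
    have h1 := addOrderOf_nsmul_eq_zero (⟨(X : Pt (W₀⁄F) Ω ⧸ kerR hG), X, rfl, hX⟩ : C)
    rw [hc] at h1
    have h2 : ((l • X : Pt (W₀⁄F) Ω) : Pt (W₀⁄F) Ω ⧸ kerR hG) = 0 := congrArg Subtype.val h1
    exact (QuotientAddGroup.eq_zero_iff _).1 h2
  exact ⟨X, hc0, hlX, hX⟩

end count

section base

variable {F : Type} [Field F] {Ω : Type} [Field Ω] [DecidableEq Ω] [Algebra F Ω] (M : IntermediateField F Ω)

omit [DecidableEq Ω] in
theorem r3_eq (W₀ : WeierstrassCurve (𝓞 F)) : (((W₀⁄(𝓞 M))⁄M)⁄Ω) = ((W₀⁄F)⁄Ω) := rfl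

theorem r3_ac (W₀ : WeierstrassCurve (𝓞 F)) (s : Ω ≃ₐ[M] Ω) (P : Pt ((W₀⁄(𝓞 M))⁄M) Ω) :
    castPt (r3_eq M W₀) (ac ((W₀⁄(𝓞 M))⁄M) s P) =
      ac (W₀⁄F) (s.restrictScalars F) (castPt (r3_eq M W₀) P) := by
  rcases P with _ | ⟨x, y, h⟩
  · show castPt (r3_eq M W₀) (ac ((W₀⁄(𝓞 M))⁄M) s 0) =
      ac (W₀⁄F) (s.restrictScalars F) (castPt (r3_eq M W₀) 0)
    rw [map_zero, map_zero, map_zero]
  · rw [castPt_some]
    exact castPt_some (r3_eq M W₀) (s x) (s y) _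

end base

variable {F : Type} [Field F] [NumberField F] {Ω : Type} [Field Ω] [DecidableEq Ω]
  [Algebra F Ω] [IsAlgClosure F Ω] {l : ℕ}

theorem lk_XM (W₀ : WeierstrassCurve (𝓞 F)) (M : IntermediateField F Ω) [NumberField M] {v : HeightOneSpectrum (𝓞 M)}
    (hΔ : algebraMap (𝓞 F) (𝓞 M) W₀.Δ ∉ v.asIdeal) {V : ValuationSubring Ω} (hV : Abv M V v)
    (hG : GoodW ((W₀⁄F)⁄Ω) V) (hl : l.Prime)
    (hpts : l ∣ Nat.card (W₀⁄(𝓞 M ⧸ v.asIdeal)).toAffine.Point)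
    {s : Ω ≃ₐ[F] Ω} (hsM : s ∈ M.fixingSubgroup) (hs : ∀ x ∈ V, V.valuation (s x - x ^ Ideal.absNorm v.asIdeal) < 1) :
    ∃ X : Pt (W₀⁄F) Ω, ¬ Ker V X ∧ Ker V (l • X) ∧ Ker V (ac (W₀⁄F) s X - X) := by
  have hcl0 : IsAlgClosed Ω := IsAlgClosure.isAlgClosed F
  let s' : Ω ≃ₐ[M] Ω := AlgEquiv.ofRingEquiv (f := (s : Ω ≃+* Ω)) (fun x =>
    (IntermediateField.mem_fixingSubgroup_iff M s).1 hsM (x : Ω) x.2)
  have hss : s'.restrictScalars F = s := by
    ext x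
    rfl
  have eΔ : (W₀⁄(𝓞 M)).Δ = algebraMap (𝓞 F) (𝓞 M) W₀.Δ := W₀.map_Δ _
  have hcur : (W₀⁄(𝓞 M))⁄(𝓞 M ⧸ v.asIdeal) = W₀⁄(𝓞 M ⧸ v.asIdeal) := rfl
  have hG' : GoodW (((W₀⁄(𝓞 M))⁄M)⁄Ω) V := by
    rw [r3_eq]
    exact hG
  obtain ⟨X, h1, h2, h3⟩ := lk_X0 (F := M) (Ω := Ω) (V := V) (W₀⁄(𝓞 M)) hG' v (by rw [eΔ]; exact hΔ)
    (fun a ha => (hV.lt (a : M)).2 ((v.valuation_lt_one_iff_mem a).2 ha)) hl (by rw [hcur]; exact hpts) s' hs
  refine ⟨castPt (r3_eq M W₀) X, ?_, ?_, ?_⟩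
  · rwa [castPt_ker]
  · rwa [← map_nsmul, castPt_ker]
  · have h4 := r3_ac M W₀ s' X
    rw [hss] at h4
    rw [← h4, ← map_sub, castPt_ker]
    exact h3

end H13R
end

-- from Lib.H13R.R6
section

/-! # H13R: the link between the number of points and the decomposition group over M, any residue characteristic -/

open NumberField IsDedekindDomain WeierstrassCurve

namespace H13R

open H55P (IQ embF eF LF Per IsHecke Pt ac Inert Dec Nm Coc PExt UnrP Ram RamF)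
open H35P (WAB Ker tt GoodW IntW)
open H55K (Tor TN ak xc yc CMA Dta GV GMod cj cj_cj mul_cj cj_prime cj_dvd cj_nat Nm_cj Nm_mul Nm_nat)
open H55K.MG (VC Crd)
open H55K.TQ
open H55K.S
open H13S (Abv)
open H13X

variable {F : Type} [Field F] [NumberField F] [IQ F] {A B : F} {Om : ℂ} {Ω : Type} [Field Ω] [DecidableEq Ω]
  [Algebra F Ω] [IsAlgClosure F Ω] {j : Ω →+* ℂ} {act : 𝓞 F →+* AddMonoid.End (Pt (WAB A B) Ω)} {l : ℕ}

omit [NumberField F] [IQ F] [IsAlgClosure F Ω] in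
theorem r6_ker {W : WeierstrassCurve F} {V : ValuationSubring Ω} {s : Ω ≃ₐ[F] Ω} (hs : Dec V s) {P : Pt W Ω} (hP : Ker V P) :
    Ker V (ac W s P) := by
  rcases P with _ | ⟨x, y, h⟩
  · trivial
  · show 1 < V.valuation (s x)
    have h1 : 1 < V.valuation x := hP
    rw [← not_le, V.valuation_le_one_iff] at h1 ⊢
    exact fun h2 => h1 ((hs x).1 h2)

/-- The isomorphism of the short equation and of W₀ over Ω commutes with the Galois action. -/
theorem r6_iso (W₀ : WeierstrassCurve (𝓞 F)) (hell : W₀.Δ ≠ 0)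
    (hA : A = -(algebraMap (𝓞 F) F W₀.c₄) / 48) (hB : B = -(algebraMap (𝓞 F) F W₀.c₆) / 864) :
    ∃ (r s t : F) (Θ : Pt (WAB A B) Ω ≃+ Pt (W₀⁄F) Ω), VC (WAB A B) (W₀⁄F) 1 r s t ∧
      Crd (algebraMap F Ω 1) (algebraMap F Ω r) (algebraMap F Ω s) (algebraMap F Ω t) Θ ∧
      ∀ (g : Ω ≃ₐ[F] Ω) (P : Pt (WAB A B) Ω), ac (W₀⁄F) g (Θ P) = Θ (ac (WAB A B) g P) := by
  have hd := H55K.y3_ne W₀ hA hB hell
  have hΔA : (WAB A B).Δ ≠ 0 := by
    have e : (WAB A B).Δ = -16 * (4 * A ^ 3 + 27 * B ^ 2) := by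
      unfold WAB WeierstrassCurve.Δ WeierstrassCurve.b₂ WeierstrassCurve.b₄ WeierstrassCurve.b₆ WeierstrassCurve.b₈
      ring
    rw [e]
    exact mul_ne_zero (by norm_num) hd
  obtain ⟨r, s', t', hVC⟩ := vc_short W₀ hA hB
  have hVC' := vc_map (algebraMap F Ω) hVC
  have hΔ1 : ((WAB A B).map (algebraMap F Ω)).Δ ≠ 0 := by
    rw [WeierstrassCurve.map_Δ]
    exact (map_ne_zero _).2 hΔA
  have hΔ2 : ((W₀⁄F).map (algebraMap F Ω)).Δ ≠ 0 := by
    have e : (W₀⁄F).Δ = algebraMap (𝓞 F) F W₀.Δ := WeierstrassCurve.map_Δ _ _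
    rw [WeierstrassCurve.map_Δ, e]
    refine (map_ne_zero _).2 fun h1 => hell ?_
    exact (map_eq_zero_iff _ (FaithfulSMul.algebraMap_injective (𝓞 F) F)).1 h1
  obtain ⟨Θ, hΘ⟩ : ∃ Θ : Pt (WAB A B) Ω ≃+ Pt (W₀⁄F) Ω,
      Crd (algebraMap F Ω 1) (algebraMap F Ω r)
        (algebraMap F Ω s') (algebraMap F Ω t') Θ := H55K.MG.vc_iso hVC' hΔ1 hΔ2
  refine ⟨r, s', t', Θ, hVC, hΘ, ?_⟩
  intro g P
  by_cases hP : P = 0
  · subst hP
    rw [map_zero, map_zero, map_zero, map_zero]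
  · obtain ⟨a1, a2, a3⟩ := hΘ P hP
    obtain ⟨b1, b2, b3⟩ := H55K.MG.ac_crd (W := WAB A B) g P
    have hP' : ac (WAB A B) g P ≠ 0 := fun h => hP (b3.1 h)
    obtain ⟨c1, c2, c3⟩ := hΘ _ hP'
    obtain ⟨d1, d2, d3⟩ := H55K.MG.ac_crd (W := W₀⁄F) g (Θ P)
    have e2 := congrArg g a2
    have e3 := congrArg g a3
    simp only [map_add, map_mul, map_pow, map_one, AlgEquiv.commutes, one_pow, one_mul, mul_one] at e2 e3 c2 c3
    have f2 : xc (ac (W₀⁄F) g (Θ P)) = xc (Θ (ac (WAB A B) g P)) := by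
      rw [d1]
      linear_combination c2 - e2 - b1
    refine pt_ext (fun h => a1 (d3.1 h)) c1 f2 ?_
    rw [d2]
    rw [d1] at f2
    linear_combination c3 - e3 - b2 - (algebraMap F Ω s') * f2

/-- l divides the number of points modulo v: there is a point killed by l fixed by the decomposition group. -/
theorem lk_decR (hA : CMA F A B Om j act) (W₀ : WeierstrassCurve (𝓞 F)) (hell : W₀.Δ ≠ 0)
    (hA' : A = -(algebraMap (𝓞 F) F W₀.c₄) / 48) (hB' : B = -(algebraMap (𝓞 F) F W₀.c₆) / 864)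
    (M : IntermediateField F Ω) [NumberField M] {v : HeightOneSpectrum (𝓞 M)}
    (hΔ : algebraMap (𝓞 F) (𝓞 M) W₀.Δ ∉ v.asIdeal) {V : ValuationSubring Ω} (hV : Abv M V v) (hl : l.Prime) (h5 : 5 ≤ l)
    (hlv : (l : 𝓞 M) ∉ v.asIdeal) (hpts : l ∣ Nat.card (W₀⁄(𝓞 M ⧸ v.asIdeal)).toAffine.Point) :
    ∃ T : Pt (WAB A B) Ω, T ≠ 0 ∧ l • T = 0 ∧ ∀ s, DecN M V s → ac (WAB A B) s T = T := by
  have hcl0 : IsAlgClosed Ω := IsAlgClosure.isAlgClosed F
  have hal0 : Algebra.IsAlgebraic F Ω := IsAlgClosure.isAlgebraic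
  have hc0' : CharZero Ω := charZero_of_injective_algebraMap (algebraMap F Ω).injective
  have hbel : H55P.Below V M v.asIdeal := fun x => by
    rw [← v.valuation_lt_one_iff_mem (K := M) x]
    exact (hV.lt (x : M)).symm
  have hG : GoodW ((W₀⁄F)⁄Ω) V := H55P.good_below W₀ M V v hbel hΔ
  have hlV : V.valuation (l : Ω) = 1 := H55P.val_below M V v hbel l hlv
  obtain ⟨r, s', t', Θ, hVC, hΘ, hcom⟩ := r6_iso (Ω := Ω) W₀ hell hA' hB'
  obtain ⟨φ, hφ, hφD, hφF⟩ := exists_frobK M hV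
  obtain ⟨X', hc0, hlX, hX⟩ := lk_XM W₀ M hΔ hV hG hl hpts hφ hφF
  obtain ⟨X, rfl⟩ := Θ.surjective X'
  obtain ⟨T, hT, hXT⟩ := surj_lR hA W₀ hVC hΘ hG hl h5 hlV (X := X) (by rw [map_nsmul]; exact hlX)
  have hT0 : T ≠ 0 := by
    rintro rfl
    rw [sub_zero] at hXT
    exact hc0 hXT
  have hφT : ac (WAB A B) φ T = T := by
    have h1 : Θ (ac (WAB A B) φ T - T) = (ac (W₀⁄F) φ (Θ X) - Θ X) -
        (ac (W₀⁄F) φ (Θ (X - T)) - Θ (X - T)) := by
      rw [hcom, hcom, map_sub, map_sub, map_sub, map_sub]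
      abel
    have h2 : Ker V (Θ (ac (WAB A B) φ T - T)) := by
      rw [h1]
      exact (kerR hG).sub_mem hX ((kerR hG).sub_mem (r6_ker hφD hXT) hXT)
    have h3 : Θ (ac (WAB A B) φ T - T) = 0 := H35P.fg hG.toIntW _ l hlV (by
      rw [← map_nsmul, smul_sub, ← map_nsmul, hT, map_zero, sub_zero, map_zero]) h2
    exact sub_eq_zero.1 ((map_eq_zero_iff Θ Θ.injective).1 h3)
  refine ⟨T, hT0, hT, fun s hs => ?_⟩
  have hfin := lp_fin T
  have h0 := dec_gen (A := A) (B := B) (d := fun s => ac (WAB A B) s T - T) hV (fun s _ _ t _ _ => by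
      show ac (WAB A B) (s * t) T - T = (ac (WAB A B) s T - T) + ac (WAB A B) s (ac (WAB A B) t T - T)
      rw [ac_mul, map_sub]
      abel)
    ⟨IntermediateField.adjoin F {xc T, yc T}, hfin, fun s _ hs _ => by
      show ac (WAB A B) s T - T = 0
      rw [lp_adj s T hs, sub_self]⟩
    (fun s _ hi => by
      show ac (WAB A B) s T - T = 0
      have h4 : ac (W₀⁄F) s (Θ T) = Θ T := H55P.red_fix (W₀⁄F) V hG l hlV s hi (Θ T) (by
        rw [hcom, smul_sub, ← map_nsmul, ← map_nsmul, ← map_nsmul, hT, map_zero, map_zero, sub_zero])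
      rw [hcom] at h4
      rw [Θ.injective h4, sub_self])
    hφ hφD hφF (by show ac (WAB A B) φ T - T = 0; rw [hφT, sub_self]) hs.1 hs.2
  exact sub_eq_zero.1 h0

omit [IsAlgClosure F Ω] in
/-- A prime element π above l such that the decomposition group fixes all the points killed by π. -/
theorem lk_piR (hA : CMA F A B Om j act) (hl : l.Prime) (unr : ∀ v : HeightOneSpectrum (𝓞 F), (l : 𝓞 F) ∉ v.asIdeal ^ 2)
    (M : IntermediateField F Ω) {V : ValuationSubring Ω} {T : Pt (WAB A B) Ω} (hT0 : T ≠ 0) (hT : l • T = 0)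
    (hf : ∀ s, DecN M V s → ac (WAB A B) s T = T) :
    ∃ π : 𝓞 F, Prime π ∧ π ∣ (l : 𝓞 F) ∧ ∀ s, DecN M V s → ∀ R ∈ Tor act π, ac (WAB A B) s R = R := by
  have key : ∀ β : 𝓞 F, Prime β → ∀ T' ∈ Tor act β, T' ≠ 0 → (∀ s, DecN M V s → ac (WAB A B) s T' = T') →
      ∀ s, DecN M V s → ∀ R ∈ Tor act β, ac (WAB A B) s R = R := by
    intro β hβ T' hT' h0 hf' s hs R hR
    obtain ⟨a, rfl⟩ := H55K.tor_gen hA hβ hT' hR h0
    rw [ac_act hA, hf' s hs]
  have hTl : act (l : 𝓞 F) T = 0 := by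
    rw [act_nat (act := act)]
    exact hT
  obtain ⟨π, hπ, hd⟩ := exists_prime_above (F := F) hl
  rcases dichotomy hl unr hπ hd with ⟨-, -, h3⟩ | ⟨-, -, -, hll⟩
  · exact ⟨π, hπ, hd, key π hπ T (by rw [← tor_assoc h3]; exact hTl) hT0 hf⟩
  · have hd' : cj π ∣ (l : 𝓞 F) := by rw [cj_dvd, cj_nat]; exact hd
    by_cases h : act (cj π) T = 0
    · exact ⟨cj π, cj_prime hπ, hd', key (cj π) (cj_prime hπ) T h hT0 hf⟩
    · refine ⟨π, hπ, hd, key π hπ (act (cj π) T) ?_ h fun s hs => ?_⟩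
      · rw [mem_Tor, ← act_mul, hll]
        exact hTl
      · rw [ac_act hA, hf s hs]

end H13R
end

-- from Lib.H55Y.Y1
section

/-! # H55Y: the curves with complex multiplication by a nonmaximal order: lattices of index 2 and 3 -/

open NumberField IsDedekindDomain WeierstrassCurve

namespace H55Y

open H55P (IQ embF eF LF Per)
open H28I

/-- The identity of the isogeny, without the discriminants. -/
theorem y1_id {k : Type} [Field k] {A B e t u x : k} (hcs : (u = 0 ∧ e ^ 3 + A * e + B = 0 ∧ t = 3 * e ^ 2 + A) ∨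
    (t = 2 * (3 * e ^ 2 + A) ∧ u = 4 * (e ^ 3 + A * e + B) ∧ 3 * e ^ 4 + 6 * A * e ^ 2 + 12 * B * e - A ^ 2 = 0)) (hx : x ≠ e) :
    vx e t u x ^ 3 + (A - 5 * t) * vx e t u x + (B - 7 * (u + e * t)) = vd e t u x ^ 2 * (x ^ 3 + A * x + B) := by
  obtain ⟨z, rfl⟩ : ∃ z, x = z + e := ⟨x - e, by ring⟩
  have hz : z ≠ 0 := by
    rintro rfl
    exact hx (zero_add e)
  unfold vx vd
  rw [add_sub_cancel_right]
  rcases hcs with ⟨rfl, h1, rfl⟩ | ⟨rfl, rfl, h1⟩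
  · obtain rfl : B = -e ^ 3 - A * e := by linear_combination h1
    field_simp
    ring
  · have e1 : (z + e + 2 * (3 * e ^ 2 + A) / z + 4 * (e ^ 3 + A * e + B) / z ^ 2) =
        ((z + e) * z ^ 2 + 2 * (3 * e ^ 2 + A) * z + 4 * (e ^ 3 + A * e + B)) / z ^ 2 := by
      field_simp
    have e2 : 1 - 2 * (3 * e ^ 2 + A) / z ^ 2 - 2 * (4 * (e ^ 3 + A * e + B)) / z ^ 3 =
        (z ^ 3 - 2 * (3 * e ^ 2 + A) * z - 2 * (4 * (e ^ 3 + A * e + B))) / z ^ 3 := by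
      field_simp
    rw [e1, e2]
    have hz6 : z ^ 6 ≠ 0 := pow_ne_zero 6 hz
    have e3 : (((z + e) * z ^ 2 + 2 * (3 * e ^ 2 + A) * z + 4 * (e ^ 3 + A * e + B)) / z ^ 2) ^ 3 +
        (A - 5 * (2 * (3 * e ^ 2 + A))) *
          (((z + e) * z ^ 2 + 2 * (3 * e ^ 2 + A) * z + 4 * (e ^ 3 + A * e + B)) / z ^ 2) +
        (B - 7 * (4 * (e ^ 3 + A * e + B) + e * (2 * (3 * e ^ 2 + A)))) =
        (((z + e) * z ^ 2 + 2 * (3 * e ^ 2 + A) * z + 4 * (e ^ 3 + A * e + B)) ^ 3 +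
        (A - 5 * (2 * (3 * e ^ 2 + A))) *
          ((z + e) * z ^ 2 + 2 * (3 * e ^ 2 + A) * z + 4 * (e ^ 3 + A * e + B)) * z ^ 4 +
        (B - 7 * (4 * (e ^ 3 + A * e + B) + e * (2 * (3 * e ^ 2 + A)))) * z ^ 6) / z ^ 6 := by
      field_simp
    have e4 : ((z ^ 3 - 2 * (3 * e ^ 2 + A) * z - 2 * (4 * (e ^ 3 + A * e + B))) / z ^ 3) ^ 2 *
        ((z + e) ^ 3 + A * (z + e) + B) =
        ((z ^ 3 - 2 * (3 * e ^ 2 + A) * z - 2 * (4 * (e ^ 3 + A * e + B))) ^ 2 *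
        ((z + e) ^ 3 + A * (z + e) + B)) / z ^ 6 := by
      field_simp
    rw [e3, e4]
    congr 1
    linear_combination (6 * z ^ 5 - 12 * z ^ 3 * e ^ 2 - 4 * z ^ 3 * A - 12 * z ^ 2 * e ^ 3 - 12 * z ^ 2 * e * A -
      12 * z ^ 2 * B) * h1

/-- The invariants of the overlattice. -/
theorem over_gen {L L' : PeriodPair} {A B e t u : ℂ} (g2 : L.g₂ = -4 * A) (g3 : L.g₃ = -4 * B)
    (hle : ∀ z ∈ L.lattice, z ∈ L'.lattice)
    (hcs : (u = 0 ∧ e ^ 3 + A * e + B = 0 ∧ t = 3 * e ^ 2 + A) ∨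
    (t = 2 * (3 * e ^ 2 + A) ∧ u = 4 * (e ^ 3 + A * e + B) ∧ 3 * e ^ 4 + 6 * A * e ^ 2 + 12 * B * e - A ^ 2 = 0))
    (hout : ∀ z, z ∉ L'.lattice → L.weierstrassP z ≠ e)
    (hx : ∀ z, z ∉ L'.lattice → L'.weierstrassP z = vx e t u (L.weierstrassP z)) :
    L'.g₂ = -4 * (A - 5 * t) ∧ L'.g₃ = -4 * (B - 7 * (u + e * t)) := by
  have hkey : ∀ z, z ∉ L'.lattice → (4 * (A - 5 * t) + L'.g₂) * L'.weierstrassP z + (4 * (B - 7 * (u + e * t)) + L'.g₃) = 0 := by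
    intro z hz
    have hzL : z ∉ L.lattice := fun h => hz (hle z h)
    have e1 := L'.derivWeierstrassP_sq z hz
    have e2 := L.derivWeierstrassP_sq z hzL
    have e3 := y1_id hcs (hout z hz)
    rw [iso_y hle hout hx hz] at e1
    rw [← hx z hz] at e3
    rw [g2, g3] at e2
    linear_combination e1 - (vd e t u (L.weierstrassP z)) ^ 2 * e2 + 4 * e3
  obtain ⟨z0, h0, h0'⟩ := H55K.CC.wp_surj L' 0
  obtain ⟨z1, h1, h1'⟩ := H55K.CC.wp_surj L' 1
  have k0 := hkey z0 h0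
  have k1 := hkey z1 h1
  rw [h0'] at k0
  rw [h1'] at k1
  refine ⟨?_, ?_⟩
  · linear_combination k1 - k0
  · linear_combination k0

theorem y1_two_eq (L : PeriodPair) {A B : ℂ} (g2 : L.g₂ = -4 * A) (g3 : L.g₃ = -4 * B) {w : ℂ} (hw : w ∉ L.lattice)
    (h2 : 2 * w ∈ L.lattice) : L.weierstrassP w ^ 3 + A * L.weierstrassP w + B = 0 := by
  have e2 := L.derivWeierstrassP_sq w hw
  rw [la3_deriv L h2, g2, g3] at e2
  linear_combination (-1 / 4 : ℂ) * e2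

/-- Index 2. -/
theorem over_two {L L' : PeriodPair} {A B : ℂ} (g2 : L.g₂ = -4 * A) (g3 : L.g₃ = -4 * B) {w : ℂ} (hw : w ∉ L.lattice)
    (h2 : 2 * w ∈ L.lattice) (hL' : ∀ z, z ∈ L'.lattice ↔ ∃ k : ℤ, z - k * w ∈ L.lattice) {e : ℂ} (he : L.weierstrassP w = e) :
    e ^ 3 + A * e + B = 0 ∧ L'.g₂ = -4 * (-4 * A - 15 * e ^ 2) ∧ L'.g₃ = -4 * (-22 * e ^ 3 - 8 * A * e) := by
  have hR := rep_two hw h2 hL'
  have h3 := y1_two_eq L g2 g3 hw h2
  rw [he] at h3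
  have hout : ∀ z, z ∉ L'.lattice → z ∉ L.lattice ∧ z + w ∉ L.lattice := by
    intro z hz
    refine ⟨fun h1 => hz (hR.le z h1), fun h1 => hz ((hL' z).2 ⟨-1, ?_⟩)⟩
    push_cast
    have e1 : z - -1 * w = z + w := by ring
    rw [e1]
    exact h1
  obtain ⟨a, b⟩ := over_gen (t := 3 * e ^ 2 + A) (u := 0) g2 g3 hR.le (Or.inl ⟨rfl, h3, rfl⟩) (fun z hz => by
    obtain ⟨a1, a2⟩ := hout z hz
    have a3 := (two_add L g2 g3 hw h2 a1 a2).1
    rwa [he] at a3) (fun z hz => by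
    obtain ⟨a1, a2⟩ := hout z hz
    have a3 := (two_add L g2 g3 hw h2 a1 a2).2
    rw [sum_wp hR hz, Finset.sum_singleton, a3, he]
    unfold vx
    rw [zero_div, add_zero])
  refine ⟨h3, ?_, ?_⟩
  · rw [a]; ring
  · rw [b]; linear_combination (-4 : ℂ) * h3

theorem y1_three_eq (L : PeriodPair) {A B : ℂ} (g2 : L.g₂ = -4 * A) (g3 : L.g₃ = -4 * B) {w : ℂ} (hw : w ∉ L.lattice)
    (h3 : 3 * w ∈ L.lattice) :
    3 * L.weierstrassP w ^ 4 + 6 * A * L.weierstrassP w ^ 2 + 12 * B * L.weierstrassP w - A ^ 2 = 0 := by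
  have h2 : 2 * w ∉ L.lattice := by
    intro h2
    apply hw
    have := sub_mem h3 h2
    rwa [show 3 * w - 2 * w = w by ring] at this
  have e1 := L.derivWeierstrassP_sq w hw
  rw [g2, g3] at e1
  have h4 := H35P.dbl_x L w hw h2
  have h5 := H35P.wpd_ne L w hw h2
  have h6 : L.weierstrassP (2 * w) = L.weierstrassP w := by
    have h7 := H55K.CC.wp_per L (-w) h3
    rw [show -w + 3 * w = 2 * w by ring, L.weierstrassP_neg] at h7
    exact h7
  rw [h6] at h4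
  unfold H35P.md at h4
  rw [g2, div_pow] at h4
  have h8 : (6 * L.weierstrassP w ^ 2 - -4 * A / 2) ^ 2 / L.derivWeierstrassP w ^ 2 = 12 * L.weierstrassP w := by
    linear_combination (-4 : ℂ) * h4
  rw [div_eq_iff (pow_ne_zero 2 h5), e1] at h8
  linear_combination (-1 / 4 : ℂ) * h8

/-- Index 3. -/
theorem over_three {L L' : PeriodPair} {A B : ℂ} (g2 : L.g₂ = -4 * A) (g3 : L.g₃ = -4 * B) {w : ℂ} (hw : w ∉ L.lattice)
    (h3 : 3 * w ∈ L.lattice) (hL' : ∀ z, z ∈ L'.lattice ↔ ∃ k : ℤ, z - k * w ∈ L.lattice) {e : ℂ} (he : L.weierstrassP w = e) :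
    3 * e ^ 4 + 6 * A * e ^ 2 + 12 * B * e - A ^ 2 = 0 ∧ L'.g₂ = -4 * (-9 * A - 30 * e ^ 2) ∧
      L'.g₃ = -4 * (-27 * B - 70 * e ^ 3 - 42 * A * e) := by
  obtain ⟨hR, hne⟩ := rep_three hw h3 hL'
  have h4 := y1_three_eq L g2 g3 hw h3
  rw [he] at h4
  have hout : ∀ z, z ∉ L'.lattice → z ∉ L.lattice ∧ z + w ∉ L.lattice ∧ z - w ∉ L.lattice := by
    intro z hz
    refine ⟨fun h1 => hz (hR.le z h1), fun h1 => hz ((hL' z).2 ⟨-1, ?_⟩), fun h1 => hz ((hL' z).2 ⟨1, ?_⟩)⟩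
    · push_cast
      have e1 : z - -1 * w = z + w := by ring
      rw [e1]
      exact h1
    · push_cast
      rw [one_mul]
      exact h1
  obtain ⟨a, b⟩ := over_gen (t := 2 * (3 * e ^ 2 + A)) (u := 4 * (e ^ 3 + A * e + B)) g2 g3 hR.le (Or.inr ⟨rfl, rfl, h4⟩)
    (fun z hz => by
    obtain ⟨a1, a2, a3⟩ := hout z hz
    have a4 := (three_add L g2 g3 hw a1 a2 a3).1
    rwa [he] at a4) (fun z hz => by
    obtain ⟨a1, a2, a3⟩ := hout z hz
    have a4 := (three_add L g2 g3 hw a1 a2 a3).2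
    rw [sum_wp hR hz, Finset.sum_pair hne, L.weierstrassP_neg, ← sub_eq_add_neg, a4, he]
    unfold vx
    ring)
  refine ⟨h4, ?_, ?_⟩
  · rw [a]; ring
  · rw [b]; ring

end H55Y
end

-- from Lib.H55Y.Y3
section

/-! # H55Y: the field of discriminant -7: the points of order two -/

open NumberField IsDedekindDomain WeierstrassCurve

namespace H55Y

open H55P (IQ embF eF LF Per Nm)
open H55K (cj)
open H55W

variable {F : Type} [Field F] [NumberField F] [IQ F]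

/-- The point 1/α of order two. -/
theorem y3_one {α : 𝓞 F} (hα : α ^ 2 - α + 2 = 0) (hG : Gen α) {A B : ℂ} (g2 : (LF F).g₂ = -4 * A) (g3 : (LF F).g₃ = -4 * B) :
    (LF F).weierstrassP ((1 - eF F α) / 2) ^ 3 + A * (LF F).weierstrassP ((1 - eF F α) / 2) + B = 0 ∧
      (eF F α) ^ 2 * A = 5 * (LF F).weierstrassP ((1 - eF F α) / 2) ^ 2 := by
  set a := eF F α with ha
  have hc : a ^ 2 - a + 2 = 0 := by
    have := congrArg (eF F) hα
    rwa [map_add, map_sub, map_pow, map_ofNat, map_zero] at this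
  have ha0 : a ≠ 0 := by
    intro h
    rw [h] at hc
    norm_num at hc
  have hinv : a⁻¹ = (1 - a) / 2 := by
    refine inv_eq_of_mul_eq_one_right ?_
    linear_combination (-1 / 2 : ℂ) * hc
  obtain ⟨L', hL, h2, h3⟩ := H55K.lat_scale (LF F) a⁻¹ (inv_ne_zero ha0)
  have hw : (1 - a) / 2 ∉ (LF F).lattice := by
    intro h
    have e1 : (1 - a) / 2 = eF F (((1 : ℤ) : 𝓞 F) + ((-1 : ℤ) : 𝓞 F) * α) / 2 := by
      push_cast
      rw [map_add, map_one, map_mul, map_neg, map_one, ← ha]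
      ring
    rw [e1] at h
    have := (two_int hG (y2_half h)).1
    omega
  have hw2 : 2 * ((1 - a) / 2) ∈ (LF F).lattice := by
    rw [H55P.mem_LF]
    exact ⟨1 - α, by rw [map_sub, map_one, ← ha]; ring⟩
  have hL' : ∀ z, z ∈ L'.lattice ↔ ∃ k : ℤ, z - k * ((1 - a) / 2) ∈ (LF F).lattice := by
    intro z
    rw [hL]
    constructor
    · rintro ⟨l, hl, rfl⟩
      obtain ⟨y, rfl⟩ := (H55P.mem_LF l).1 hl
      obtain ⟨c, d, rfl⟩ := hG.rep y
      refine ⟨c, (H55P.mem_LF _).2 ⟨d, ?_⟩⟩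
      rw [hinv, map_add, map_mul, map_intCast, map_intCast, ← ha]
      linear_combination (-(d : ℂ) / 2) * hc
    · rintro ⟨k, hk⟩
      obtain ⟨y, hy⟩ := (H55P.mem_LF _).1 hk
      refine ⟨eF F (k + α * y), (H55P.mem_LF _).2 ⟨_, rfl⟩, ?_⟩
      rw [hinv, map_add, map_mul, map_intCast, ← ha, ← hy]
      linear_combination (1 / 2 : ℂ) * (z - k * ((1 - a) / 2)) * hc
  obtain ⟨e1, e2, -⟩ := over_two g2 g3 hw hw2 hL' (e := (LF F).weierstrassP ((1 - a) / 2)) rfl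
  refine ⟨e1, ?_⟩
  rw [h2, g2, inv_pow, div_inv_eq_mul] at e2
  have h4 : a ^ 4 = 2 - 3 * a := by linear_combination (a ^ 2 + a - 1) * hc
  linear_combination (1 / 12 : ℂ) * e2 + (1 / 3 : ℂ) * A * h4 + A * hc

/-- The invariants of the lattice of integers in terms of the point 1/2. -/
theorem y3_rel {α : 𝓞 F} (hα : α ^ 2 - α + 2 = 0) (hG : Gen α) {A B : ℂ} (g2 : (LF F).g₂ = -4 * A) (g3 : (LF F).g₃ = -4 * B)
    {e : ℂ} (he : (LF F).weierstrassP (1 / 2) = e) : 7 * A = -5 * e ^ 2 ∧ 7 * B = -2 * e ^ 3 := by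
  set a := eF F α with ha
  have hc : a ^ 2 - a + 2 = 0 := by
    have := congrArg (eF F) hα
    rwa [map_add, map_sub, map_pow, map_ofNat, map_zero] at this
  have hα' : (1 - α) ^ 2 - (1 - α) + 2 = 0 := by linear_combination hα
  have hG' : Gen (1 - α) := by
    refine ⟨fun x => ?_, fun h => hG.ne ?_⟩
    · obtain ⟨c, d, rfl⟩ := hG.rep x
      exact ⟨c + d, -d, by push_cast; ring⟩
    · rw [map_sub, map_one] at h
      linear_combination -h
  obtain ⟨p1, q1⟩ := y3_one hα hG g2 g3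
  obtain ⟨p2, q2⟩ := y3_one hα' hG' g2 g3
  have e1 : (1 - eF F (1 - α)) / 2 = a / 2 := by
    rw [map_sub, map_one, ← ha]
    ring
  have e2 : eF F (1 - α) = 1 - a := by rw [map_sub, map_one, ← ha]
  rw [e1] at p2 q2
  rw [e2] at q2
  rw [← ha] at p1 q1
  -- the points
  have hcase : ∀ c d : ℤ, (¬ 2 ∣ c ∨ ¬ 2 ∣ d) → ((c : ℂ) + d * a) / 2 ∉ (LF F).lattice := by
    intro c d hcd h
    have e3 : ((c : ℂ) + d * a) / 2 = eF F ((c : 𝓞 F) + (d : 𝓞 F) * α) / 2 := by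
      rw [map_add, map_mul, map_intCast, map_intCast, ← ha]
    rw [e3] at h
    obtain ⟨h1, h2⟩ := two_int hG (y2_half h)
    rcases hcd with h3 | h3
    · exact h3 h1
    · exact h3 h2
  have m1 : (1 - a) / 2 ∉ (LF F).lattice := by
    have := hcase 1 (-1) (Or.inl (by omega))
    push_cast at this
    rwa [show (1 + -1 * a) / 2 = (1 - a) / 2 by ring] at this
  have m2 : a / 2 ∉ (LF F).lattice := by
    have := hcase 0 1 (Or.inr (by omega))
    push_cast at this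
    rwa [show (0 + 1 * a) / 2 = a / 2 by ring] at this
  have m3 : (1 : ℂ) / 2 ∉ (LF F).lattice := by
    have := hcase 1 0 (Or.inl (by omega))
    push_cast at this
    rwa [show (1 + 0 * a) / 2 = 1 / 2 by ring] at this
  have n12 : (LF F).weierstrassP ((1 - a) / 2) ≠ (LF F).weierstrassP (a / 2) := by
    refine H35P.wp_ne (LF F) _ _ m1 m2 ?_ ?_
    · rwa [show (1 - a) / 2 + a / 2 = 1 / 2 by ring]
    · have := hcase 1 (-2) (Or.inl (by omega))
      push_cast at this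
      rwa [show (1 - a) / 2 - a / 2 = (1 + -2 * a) / 2 by ring]
  have n13 : (LF F).weierstrassP ((1 - a) / 2) ≠ e := by
    rw [← he]
    refine H35P.wp_ne (LF F) _ _ m1 m3 ?_ ?_
    · have := hcase 2 (-1) (Or.inr (by omega))
      push_cast at this
      rwa [show (1 - a) / 2 + 1 / 2 = (2 + -1 * a) / 2 by ring]
    · have := hcase 0 (-1) (Or.inr (by omega))
      push_cast at this
      rwa [show (1 - a) / 2 - 1 / 2 = (0 + -1 * a) / 2 by ring]
  have n23 : (LF F).weierstrassP (a / 2) ≠ e := by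
    rw [← he]
    refine H35P.wp_ne (LF F) _ _ m2 m3 ?_ ?_
    · have := hcase 1 1 (Or.inl (by omega))
      push_cast at this
      rwa [show a / 2 + 1 / 2 = (1 + 1 * a) / 2 by ring]
    · have := hcase (-1) 1 (Or.inl (by omega))
      push_cast at this
      rwa [show a / 2 - 1 / 2 = (-1 + 1 * a) / 2 by ring]
  have p3 : e ^ 3 + A * e + B = 0 := by
    have h2 : 2 * ((1 : ℂ) / 2) ∈ (LF F).lattice := (H55P.mem_LF _).2 ⟨1, by rw [map_one]; norm_num⟩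
    have := y1_two_eq (LF F) g2 g3 m3 h2
    rwa [he] at this
  set x := (LF F).weierstrassP ((1 - a) / 2)
  set y := (LF F).weierstrassP (a / 2)
  have s1 : x ^ 2 + x * y + y ^ 2 + A = 0 := by
    have h1 : (x - y) * (x ^ 2 + x * y + y ^ 2 + A) = 0 := by linear_combination p1 - p2
    exact (mul_eq_zero.1 h1).resolve_left (sub_ne_zero.2 n12)
  have s2 : x ^ 2 + x * e + e ^ 2 + A = 0 := by
    have h1 : (x - e) * (x ^ 2 + x * e + e ^ 2 + A) = 0 := by linear_combination p1 - p3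
    exact (mul_eq_zero.1 h1).resolve_left (sub_ne_zero.2 n13)
  have s3 : x + y + e = 0 := by
    have h1 : (y - e) * (x + y + e) = 0 := by linear_combination s1 - s2
    exact (mul_eq_zero.1 h1).resolve_left (sub_ne_zero.2 n23)
  have s4 : 5 * (x * y) = -2 * A := by
    linear_combination 5 * s1 + q1 + q2 - 2 * A * hc
  have s5 : e = -x - y := by linear_combination s3
  have s6 : 7 * A = -5 * e ^ 2 := by
    rw [s5]
    linear_combination 5 * s1 + s4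
  refine ⟨s6, ?_⟩
  have s7 : B = -(x * y * e) := by
    have : B = -(e ^ 3 + A * e) := by linear_combination p3
    rw [this, s5]
    linear_combination (x + y) * s1
  rw [s7]
  have s8 : x * y = -2 / 5 * A := by linear_combination (1 / 5 : ℂ) * s4
  rw [s8]
  linear_combination (2 / 5 : ℂ) * e * s6

end H55Y
end

-- from Lib.H55Y.Y4
section

/-! # H55Y: the four nonmaximal orders -/

open NumberField IsDedekindDomain WeierstrassCurve

namespace H55Y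

open H55P (IQ embF eF LF Per Nm)
open H55K (cj)
open H55W

variable {F : Type} [Field F] [NumberField F] [IQ F]

theorem y4_idx {θ : 𝓞 F} (hG : Gen θ) {f : ℕ} (hf : 2 ≤ f) {L : PeriodPair}
    (hL : ∀ z, z ∈ L.lattice ↔ ∃ (a : ℤ) (y : 𝓞 F), z = a + f * eF F y) :
    eF F θ ∉ L.lattice ∧ f * eF F θ ∈ L.lattice ∧
      ∀ z, z ∈ (LF F).lattice ↔ ∃ k : ℤ, z - k * eF F θ ∈ L.lattice := by
  refine ⟨fun h => ?_, (hL _).2 ⟨0, θ, by push_cast; ring⟩, fun z => ?_⟩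
  · obtain ⟨a, y, hy⟩ := (hL _).1 h
    apply gen_out hG hf a y
    apply H55P.eF_inj
    rw [map_add, map_mul, map_intCast, map_natCast, hy]
  · rw [H55P.mem_LF]
    constructor
    · rintro ⟨x, rfl⟩
      obtain ⟨c, d, rfl⟩ := hG.rep x
      refine ⟨d, (hL _).2 ⟨c, 0, ?_⟩⟩
      rw [map_add, map_mul, map_intCast, map_intCast, map_zero]
      ring
    · rintro ⟨k, hk⟩
      obtain ⟨a, y, hy⟩ := (hL _).1 hk
      refine ⟨a + f * y + k * θ, ?_⟩
      rw [map_add, map_add, map_mul, map_mul, map_intCast, map_intCast, map_natCast]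
      linear_combination hy

/-- The multiples of an order by a number c: if g₂ and g₃ do not change then c is in the order. -/
theorem y4_mem {f : ℕ} {L : PeriodPair} (hL : ∀ z, z ∈ L.lattice ↔ ∃ (a : ℤ) (y : 𝓞 F), z = a + f * eF F y) {c : ℂ} (hc : c ≠ 0)
    (h2 : L.g₂ / c ^ 4 = L.g₂) (h3 : L.g₃ / c ^ 6 = L.g₃) : c ∈ L.lattice := by
  obtain ⟨L', hL', a, b⟩ := H55K.lat_scale L c hc
  have h6 : L'.lattice = L.lattice := H55K.lat_eq L' L (a.trans h2) (b.trans h3)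
  rw [← h6, hL']
  exact ⟨1, (hL 1).2 ⟨1, 0, by rw [map_zero]; push_cast; ring⟩, (mul_one c).symm⟩

theorem y4_disc {A B : ℚ} (hd : 4 * A ^ 3 + 27 * B ^ 2 ≠ 0) : 4 * (A : ℂ) ^ 3 + 27 * (B : ℂ) ^ 2 ≠ 0 := by
  exact_mod_cast hd

/-- Discriminant -12. -/
theorem case_w2 {w : 𝓞 F} (hw : w ^ 2 + w + 1 = 0) (hG : Gen w) {A B : ℚ} (hd : 4 * A ^ 3 + 27 * B ^ 2 ≠ 0) {Om : ℂ}
    (h : PerO F 2 (A : ℂ) (B : ℂ) Om) : ∃ a : ℚ, A = -15 * a ^ 2 ∧ B = -22 * a ^ 3 ∧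
      Per F ((0 : ℚ) : ℂ) ((-a ^ 3 : ℚ) : ℂ) (2 * Om) := by
  obtain ⟨hO, L, hL, g2, g3⟩ := h
  obtain ⟨h1, h2, h3⟩ := y4_idx hG (f := 2) le_rfl (L := L) (by exact_mod_cast hL)
  obtain ⟨e0, he0⟩ : ∃ e, L.weierstrassP (eF F w) = e := ⟨_, rfl⟩
  obtain ⟨e1, e2, e3⟩ := over_two (A := A * Om ^ 4) (B := B * Om ^ 6) (by rw [g2]; ring) (by rw [g3]; ring) h1
    (by exact_mod_cast h2) h3 he0
  obtain ⟨e, rfl⟩ : ∃ e, e0 = e * Om ^ 2 := ⟨e0 / Om ^ 2, by field_simp⟩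
  have hO4 : Om ^ 4 ≠ 0 := pow_ne_zero 4 hO
  have hO6 : Om ^ 6 ≠ 0 := pow_ne_zero 6 hO
  rw [g2_w hw] at e2
  have f1 : 4 * (A : ℂ) = -15 * e ^ 2 := by
    have : (4 * (A : ℂ) + 15 * e ^ 2) * Om ^ 4 = 0 := by linear_combination (-1 / 4 : ℂ) * e2
    linear_combination (mul_eq_zero.1 this).resolve_right hO4
  have f2 : 4 * (B : ℂ) = 11 * e ^ 3 := by
    have : (e ^ 3 + A * e + B) * Om ^ 6 = 0 := by linear_combination e1
    linear_combination 4 * (mul_eq_zero.1 this).resolve_right hO6 - e * f1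
  have he : e ≠ 0 := by
    rintro rfl
    apply y4_disc hd
    have a1 : (A : ℂ) = 0 := by linear_combination (1 / 4 : ℂ) * f1
    have a2 : (B : ℂ) = 0 := by linear_combination (1 / 4 : ℂ) * f2
    rw [a1, a2]
    ring
  have hA : (A : ℂ) ≠ 0 := by
    intro h0
    rw [h0, mul_zero] at f1
    have : e ^ 2 = 0 := by linear_combination (1 / 15 : ℂ) * f1
    exact he (pow_eq_zero_iff two_ne_zero |>.1 this)
  obtain ⟨a, ha⟩ : ∃ a : ℚ, (a : ℂ) = -e / 2 := by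
    refine ⟨15 * B / (22 * A), ?_⟩
    push_cast
    rw [div_eq_iff (mul_ne_zero (by norm_num) hA)]
    linear_combination (15 / 4 : ℂ) * f2 + (11 / 4 : ℂ) * e * f1
  have he' : e = -2 * a := by linear_combination (2 : ℂ) * ha
  rw [he'] at f1 f2 e3
  refine ⟨a, ?_, ?_, mul_ne_zero two_ne_zero hO, ?_, ?_⟩
  · have : (A : ℂ) = ((-15 * a ^ 2 : ℚ) : ℂ) := by
      push_cast
      linear_combination (1 / 4 : ℂ) * f1
    exact_mod_cast this
  · have : (B : ℂ) = ((-22 * a ^ 3 : ℚ) : ℂ) := by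
      push_cast
      linear_combination (1 / 4 : ℂ) * f2
    exact_mod_cast this
  · rw [g2_w hw]
    push_cast
    ring
  · rw [e3]
    push_cast
    linear_combination (-16 : ℂ) * a * Om ^ 6 * f1

/-- Discriminant -16. -/
theorem case_i2 {i : 𝓞 F} (hi : i ^ 2 = -1) (hG : Gen i) {A B : ℚ} (hd : 4 * A ^ 3 + 27 * B ^ 2 ≠ 0) {Om : ℂ}
    (h : PerO F 2 (A : ℂ) (B : ℂ) Om) : ∃ a : ℚ, A = -11 * a ^ 2 ∧ B = -14 * a ^ 3 ∧
      Per F ((-a ^ 2 : ℚ) : ℂ) ((0 : ℚ) : ℂ) (2 * Om) := by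
  obtain ⟨hO, L, hL, g2, g3⟩ := h
  obtain ⟨h1, h2, h3⟩ := y4_idx hG (f := 2) le_rfl (L := L) (by exact_mod_cast hL)
  obtain ⟨e0, he0⟩ : ∃ e, L.weierstrassP (eF F i) = e := ⟨_, rfl⟩
  obtain ⟨e1, e2, e3⟩ := over_two (A := A * Om ^ 4) (B := B * Om ^ 6) (by rw [g2]; ring) (by rw [g3]; ring) h1
    (by exact_mod_cast h2) h3 he0
  obtain ⟨e, rfl⟩ : ∃ e, e0 = e * Om ^ 2 := ⟨e0 / Om ^ 2, by field_simp⟩
  have hO4 : Om ^ 4 ≠ 0 := pow_ne_zero 4 hO
  have hO6 : Om ^ 6 ≠ 0 := pow_ne_zero 6 hO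
  rw [g3_i hi] at e3
  have f0 : (e : ℂ) ^ 3 + A * e + B = 0 := by
    have : (e ^ 3 + A * e + B) * Om ^ 6 = 0 := by linear_combination e1
    exact (mul_eq_zero.1 this).resolve_right hO6
  have he : e ≠ 0 := by
    rintro rfl
    have hB : (B : ℂ) = 0 := by linear_combination f0
    have hIc : (eF F i) ^ 2 = -1 := by
      have := congrArg (eF F) hi
      rwa [map_pow, map_neg, map_one] at this
    have hI0 : eF F i ≠ 0 := by
      intro h0
      rw [h0] at hIc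
      norm_num at hIc
    apply h1
    refine y4_mem hL hI0 ?_ ?_
    · have : (eF F i) ^ 4 = 1 := by
        have : (eF F i) ^ 4 = ((eF F i) ^ 2) ^ 2 := by ring
        rw [this, hIc]
        norm_num
      rw [this, div_one]
    · rw [g3, hB]
      simp
  have f1 : 4 * (A : ℂ) = -11 * e ^ 2 := by
    have : (e * (4 * (A : ℂ) + 11 * e ^ 2)) * Om ^ 6 = 0 := by linear_combination (-1 / 8 : ℂ) * e3
    have := (mul_eq_zero.1 ((mul_eq_zero.1 this).resolve_right hO6)).resolve_left he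
    linear_combination this
  have f2 : 4 * (B : ℂ) = 7 * e ^ 3 := by linear_combination 4 * f0 - e * f1
  have hA : (A : ℂ) ≠ 0 := by
    intro h0
    rw [h0, mul_zero] at f1
    have : e ^ 2 = 0 := by linear_combination (1 / 11 : ℂ) * f1
    exact he (pow_eq_zero_iff two_ne_zero |>.1 this)
  obtain ⟨a, ha⟩ : ∃ a : ℚ, (a : ℂ) = -e / 2 := by
    refine ⟨11 * B / (14 * A), ?_⟩
    push_cast
    rw [div_eq_iff (mul_ne_zero (by norm_num) hA)]
    linear_combination (11 / 4 : ℂ) * f2 + (7 / 4 : ℂ) * e * f1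
  have he' : e = -2 * a := by linear_combination (2 : ℂ) * ha
  rw [he'] at f1 f2 e2
  refine ⟨a, ?_, ?_, mul_ne_zero two_ne_zero hO, ?_, ?_⟩
  · have : (A : ℂ) = ((-11 * a ^ 2 : ℚ) : ℂ) := by
      push_cast
      linear_combination (1 / 4 : ℂ) * f1
    exact_mod_cast this
  · have : (B : ℂ) = ((-14 * a ^ 3 : ℚ) : ℂ) := by
      push_cast
      linear_combination (1 / 4 : ℂ) * f2
    exact_mod_cast this
  · rw [e2]
    push_cast
    linear_combination (4 : ℂ) * Om ^ 4 * f1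
  · rw [g3_i hi]
    push_cast
    ring

/-- Discriminant -27. -/
theorem case_w3 {w : 𝓞 F} (hw : w ^ 2 + w + 1 = 0) (hG : Gen w) {A B : ℚ} (hd : 4 * A ^ 3 + 27 * B ^ 2 ≠ 0) {Om : ℂ}
    (h : PerO F 3 (A : ℂ) (B : ℂ) Om) : ∃ a : ℚ, A = -480 * a ^ 2 ∧ B = -4048 * a ^ 3 ∧
      Per F ((0 : ℚ) : ℂ) ((-16 * a ^ 3 : ℚ) : ℂ) (3 * Om) := by
  obtain ⟨hO, L, hL, g2, g3⟩ := h
  obtain ⟨h1, h2, h3⟩ := y4_idx hG (f := 3) (by norm_num) (L := L) (by exact_mod_cast hL)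
  obtain ⟨e0, he0⟩ : ∃ e, L.weierstrassP (eF F w) = e := ⟨_, rfl⟩
  obtain ⟨e1, e2, e3⟩ := over_three (A := A * Om ^ 4) (B := B * Om ^ 6) (by rw [g2]; ring) (by rw [g3]; ring) h1
    (by exact_mod_cast h2) h3 he0
  obtain ⟨e, rfl⟩ : ∃ e, e0 = e * Om ^ 2 := ⟨e0 / Om ^ 2, by field_simp⟩
  have hO4 : Om ^ 4 ≠ 0 := pow_ne_zero 4 hO
  have hO8 : Om ^ 8 ≠ 0 := pow_ne_zero 8 hO
  rw [g2_w hw] at e2
  have f1 : 3 * (A : ℂ) = -10 * e ^ 2 := by
    have : (9 * (A : ℂ) + 30 * e ^ 2) * Om ^ 4 = 0 := by linear_combination (-1 / 4 : ℂ) * e2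
    linear_combination (1 / 3 : ℂ) * (mul_eq_zero.1 this).resolve_right hO4
  have f0 : 3 * e ^ 4 + 6 * A * e ^ 2 + 12 * B * e - (A : ℂ) ^ 2 = 0 := by
    have : (3 * e ^ 4 + 6 * A * e ^ 2 + 12 * B * e - (A : ℂ) ^ 2) * Om ^ 8 = 0 := by linear_combination e1
    exact (mul_eq_zero.1 this).resolve_right hO8
  have he : e ≠ 0 := by
    rintro rfl
    have hA : (A : ℂ) = 0 := by linear_combination (1 / 3 : ℂ) * f1
    have hc : (eF F w) ^ 2 + eF F w + 1 = 0 := by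
      have := congrArg (eF F) hw
      rwa [map_add, map_add, map_pow, map_one, map_zero] at this
    have hI0 : eF F w ≠ 0 := by
      intro h0
      rw [h0] at hc
      norm_num at hc
    apply h1
    refine y4_mem hL hI0 ?_ ?_
    · rw [g2, hA]
      simp
    · have : (eF F w) ^ 6 = 1 := by
        linear_combination ((eF F w) ^ 4 - (eF F w) ^ 3 + eF F w - 1) * hc
      rw [this, div_one]
  have f2 : 108 * (B : ℂ) = 253 * e ^ 3 := by
    have : e * (108 * (B : ℂ) - 253 * e ^ 3) = 0 := by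
      linear_combination 9 * f0 + (3 * A - 10 * e ^ 2 - 18 * e ^ 2) * f1
    have := (mul_eq_zero.1 this).resolve_left he
    linear_combination this
  have hA : (A : ℂ) ≠ 0 := by
    intro h0
    rw [h0, mul_zero] at f1
    have : e ^ 2 = 0 := by linear_combination (1 / 10 : ℂ) * f1
    exact he (pow_eq_zero_iff two_ne_zero |>.1 this)
  obtain ⟨a, ha⟩ : ∃ a : ℚ, (a : ℂ) = -e / 12 := by
    refine ⟨30 * B / (253 * A), ?_⟩
    push_cast
    rw [div_eq_iff (mul_ne_zero (by norm_num) hA)]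
    linear_combination (30 / 108 : ℂ) * f2 + (253 / 36 : ℂ) * e * f1
  have he' : e = -12 * a := by linear_combination (12 : ℂ) * ha
  rw [he'] at f1 f2 e3
  refine ⟨a, ?_, ?_, mul_ne_zero three_ne_zero hO, ?_, ?_⟩
  · have : (A : ℂ) = ((-480 * a ^ 2 : ℚ) : ℂ) := by
      push_cast
      linear_combination (1 / 3 : ℂ) * f1
    exact_mod_cast this
  · have : (B : ℂ) = ((-4048 * a ^ 3 : ℚ) : ℂ) := by
      push_cast
      linear_combination (1 / 108 : ℂ) * f2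
    exact_mod_cast this
  · rw [g2_w hw]
    push_cast
    ring
  · rw [e3]
    push_cast
    linear_combination (1 : ℂ) * Om ^ 6 * f2 - 672 * a * Om ^ 6 * f1

/-- Discriminant -28. -/
theorem case_a2 {α : 𝓞 F} (hα : α ^ 2 - α + 2 = 0) (hG : Gen α) {A B : ℚ} (hd : 4 * A ^ 3 + 27 * B ^ 2 ≠ 0) {Om : ℂ}
    (h : PerO F 2 (A : ℂ) (B : ℂ) Om) : ∃ a : ℚ, A = -595 * a ^ 2 ∧ B = 5586 * a ^ 3 ∧
      Per F ((-35 * a ^ 2 : ℚ) : ℂ) ((98 * a ^ 3 : ℚ) : ℂ) (2 * Om) := by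
  obtain ⟨hO, L, hL, g2, g3⟩ := h
  obtain ⟨e0, he0⟩ : ∃ e, (LF F).weierstrassP (1 / 2) = e := ⟨_, rfl⟩
  obtain ⟨A₁, hA₁⟩ : ∃ A₁, (LF F).g₂ = -4 * A₁ := ⟨-(LF F).g₂ / 4, by ring⟩
  obtain ⟨B₁, hB₁⟩ : ∃ B₁, (LF F).g₃ = -4 * B₁ := ⟨-(LF F).g₃ / 4, by ring⟩
  obtain ⟨r1, r2⟩ := y3_rel hα hG hA₁ hB₁ he0
  obtain ⟨L₂, hL₂, s2, s3⟩ := H55K.lat_scale L (1 / 2) (by norm_num)
  have hw : (1 : ℂ) / 2 ∉ (LF F).lattice := by
    intro hh
    have e1 : (1 : ℂ) / 2 = eF F (((1 : ℤ) : 𝓞 F) + ((0 : ℤ) : 𝓞 F) * α) / 2 := by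
      push_cast
      rw [map_add, map_one, zero_mul, map_zero, add_zero]
    rw [e1] at hh
    have := (two_int hG (y2_half hh)).1
    omega
  have hw2 : 2 * ((1 : ℂ) / 2) ∈ (LF F).lattice := (H55P.mem_LF _).2 ⟨1, by rw [map_one]; norm_num⟩
  have hL' : ∀ z, z ∈ L₂.lattice ↔ ∃ k : ℤ, z - k * (1 / 2) ∈ (LF F).lattice := by
    intro z
    rw [hL₂]
    constructor
    · rintro ⟨l, hl, rfl⟩
      obtain ⟨c, y, rfl⟩ := (hL l).1 hl
      exact ⟨c, (H55P.mem_LF _).2 ⟨y, by push_cast; ring⟩⟩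
    · rintro ⟨k, hk⟩
      obtain ⟨y, hy⟩ := (H55P.mem_LF _).1 hk
      exact ⟨k + 2 * eF F y, (hL _).2 ⟨k, y, by push_cast; ring⟩, by linear_combination hy⟩
  obtain ⟨-, e2, e3⟩ := over_two hA₁ hB₁ hw hw2 hL' he0
  rw [s2, g2] at e2
  rw [s3, g3] at e3
  obtain ⟨e, rfl⟩ : ∃ e, e0 = e * Om ^ 2 := ⟨e0 / Om ^ 2, by field_simp⟩
  have hO4 : Om ^ 4 ≠ 0 := pow_ne_zero 4 hO
  have hO6 : Om ^ 6 ≠ 0 := pow_ne_zero 6 hO
  have f1 : 112 * (A : ℂ) = -85 * e ^ 2 := by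
    have : (112 * (A : ℂ) + 85 * e ^ 2) * Om ^ 4 = 0 := by
      linear_combination (-7 / 4 : ℂ) * e2 - 4 * r1
    linear_combination (mul_eq_zero.1 this).resolve_right hO4
  have f2 : 224 * (B : ℂ) = -57 * e ^ 3 := by
    have : (224 * (B : ℂ) + 57 * e ^ 3) * Om ^ 6 = 0 := by
      linear_combination (-7 / 8 : ℂ) * e3 - 4 * e * Om ^ 2 * r1
    linear_combination (mul_eq_zero.1 this).resolve_right hO6
  have he : e ≠ 0 := by
    rintro rfl
    apply y4_disc hd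
    have a1 : (A : ℂ) = 0 := by linear_combination (1 / 112 : ℂ) * f1
    have a2 : (B : ℂ) = 0 := by linear_combination (1 / 224 : ℂ) * f2
    rw [a1, a2]
    ring
  have hA : (A : ℂ) ≠ 0 := by
    intro h0
    rw [h0, mul_zero] at f1
    have : e ^ 2 = 0 := by linear_combination (1 / 85 : ℂ) * f1
    exact he (pow_eq_zero_iff two_ne_zero |>.1 this)
  obtain ⟨a, ha⟩ : ∃ a : ℚ, (a : ℂ) = -e / 28 := by
    refine ⟨-85 * B / (798 * A), ?_⟩
    push_cast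
    rw [div_eq_iff (mul_ne_zero (by norm_num) hA)]
    linear_combination (-85 / 224 : ℂ) * f2 + (57 / 224 : ℂ) * e * f1
  have he' : e = -28 * a := by linear_combination (28 : ℂ) * ha
  rw [he'] at f1 f2 r1 r2
  refine ⟨a, ?_, ?_, mul_ne_zero two_ne_zero hO, ?_, ?_⟩
  · have : (A : ℂ) = ((-595 * a ^ 2 : ℚ) : ℂ) := by
      push_cast
      linear_combination (1 / 112 : ℂ) * f1
    exact_mod_cast this
  · have : (B : ℂ) = ((5586 * a ^ 3 : ℚ) : ℂ) := by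
      push_cast
      linear_combination (1 / 224 : ℂ) * f2
    exact_mod_cast this
  · rw [hA₁]
    push_cast
    linear_combination (-4 / 7 : ℂ) * r1
  · rw [hB₁]
    push_cast
    linear_combination (-4 / 7 : ℂ) * r2

end H55Y
end
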