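import Mathlib
import Pool.Agent.Lib.H1M.PP2.D_H13R_D
import Pool.Agent.Lib.H1M.PP2.D_H55K_FD
import Pool.Agent.Lib.H1M.PP2.M005
import Pool.Agent.Lib.H1M.PP2.M051
import Pool.Agent.Lib.H1M.PP2.M055
import Pool.Agent.Lib.H1M.PP2.M060
import Pool.Agent.Lib.H1M.PP2.M074
import Pool.Agent.Lib.H1M.PP2.M086
import Pool.Agent.Lib.H1M.PP2.M094
import Pool.Agent.Lib.H1M.PP2.M098
import Pool.Agent.Lib.H1M.PP2.M099
import Pool.Agent.Lib.H1M.PP2.M101
import Pool.Agent.Lib.H1M.PP2.M107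
import Pool.Agent.Lib.H1M.PP2.M108
import Pool.Agent.Lib.H1M.PP2.M110
import Pool.Agent.Lib.H1M.PP2.M116
import Pool.Agent.Lib.H1M.PP2.M118
import Pool.Agent.Lib.H1M.PP2.M119
import Pool.Agent.Lib.H1M.PP2.M120
import Pool.Agent.Lib.H1M.PP2.M123
import Pool.Agent.Lib.H1M.PP2.M128
import Pool.Agent.Lib.H1M.PP2.M134
import Pool.Agent.Lib.H1M.PP2.M135
import Pool.Agent.Lib.H1M.PP2.M141
import Pool.Agent.Lib.H1M.PP2.M146
import Pool.Agent.Lib.H1M.PP2.M151

/-! Merged copies (to shorten the build) of Lib.H13X.XG1, Lib.H13X.XPA, Lib.H13X.XC2, Lib.H13X.XLV, Lib.H13X.XL1, Lib.H13X.XG3, Lib.H13X.XS, Lib.H13R.G4, Lib.H13X.XF, Lib.H13R.G6, Lib.H55K.XF, Lib.H55K.Y8, Lib.H55K.F1, Lib.H55K.FB7A, Lib.H55K.FB7B, Lib.H55K.FB7C, Lib.H55K.F2, Lib.H55K.F3, Lib.H13R.Main, Lib.H13R.I1. -/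

-- from Lib.H13X.XG1
section

/-! # H13X: port of H13Y/G1 -/

open NumberField IsDedekindDomain WeierstrassCurve

namespace H13X

open H55P (IQ embF eF LF Per IsHecke Pt ac Inert Dec Nm Coc)
open H35P (WAB Ker tt)
open H55K (Tor ak xc yc CMA Dta GV GMod cj cj_cj mul_cj cj_prime cj_dvd cj_nat Nm_cj Nm_mul Nm_nat)
open H55K.S
open H13S (Abv)





variable {F : Type} [Field F] [NumberField F] [IQ F] {A B : F} {Om : ℂ} {Ω : Type} [Field Ω] [DecidableEq Ω]
  [Algebra F Ω] [IsAlgClosure F Ω] {j : Ω →+* ℂ} {act : 𝓞 F →+* AddMonoid.End (Pt (WAB A B) Ω)} {mo : Ideal (𝓞 F)}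
  {ψ : Ideal (𝓞 F) →*₀ 𝓞 F}

/-- The parameter of a nonzero point killed by pi is a uniformizer of L at the places above pi. -/
theorem yg1_unif {π : 𝓞 F} {l : ℕ} (D : Dat A B Om j act mo ψ π l) {N L : IntermediateField F Ω} [NumberField L]
    (hN : Nb l N) (hL : IsTB act π N L) {V : ValuationSubring Ω} (hV : vo V π < 1) {T₀ : Pt (WAB A B) Ω}
    (hT₀ : T₀ ∈ Tor act π) (hT₀0 : T₀ ≠ 0) : ∃ (tL : L) (W : HeightOneSpectrum (𝓞 L)),
      (tL : Ω) = tt T₀ ∧ Abv L V W ∧ W.valuation L tL = WithZero.exp (-1 : ℤ) := by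
  obtain ⟨e0, R⟩ : ∃ e0 : ℕ, RV A B Om j act mo ψ π l N V (tt T₀) e0 := by
    have hl5 := D.five
    rcases dichotomy D.hl D.dta.unr D.pr D.dvd with ⟨hin, hq, -⟩ | ⟨hnd, -, hq, -⟩
    · exact ⟨l + 1, ⟨D, hV, ⟨T₀, hT₀, hT₀0, rfl⟩, by
        rw [hq]
        obtain ⟨k, rfl⟩ : ∃ k, l = k + 1 := ⟨l - 1, by omega⟩
        rw [Nat.add_sub_cancel]
        have : (k + 1) ^ 2 = (k + 1 + 1) * k + 1 := by ring
        omega⟩, hN⟩
    · exact ⟨1, ⟨D, hV, ⟨T₀, hT₀, hT₀0, rfl⟩, by rw [hq, one_mul]⟩, hN⟩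
  obtain ⟨-, -, ht1, ht0, -, -⟩ := R.base.val_l
  have htne : tt T₀ ≠ 0 := (Valuation.ne_zero_iff _).1 ht0
  have htL : tt T₀ ∈ L := by
    apply ku2_mem
    intro s hs
    rw [← tt_ac, ((hL.fix s).1 hs).2 _ hT₀]
  obtain ⟨tL, htL'⟩ : ∃ tL : L, (tL : Ω) = tt T₀ := ⟨⟨tt T₀, htL⟩, rfl⟩
  obtain ⟨w, hw⟩ := H13S.exists_below L V ⟨tL⁻¹, by
    rw [← V.valuation_le_one_iff]
    push_cast
    rw [htL', map_inv₀, not_le]
    exact (one_lt_inv₀ (zero_lt_iff.2 ht0)).2 ht1⟩
  refine ⟨tL, w, htL', hw, ?_⟩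
  have htL0 : tL ≠ 0 := by
    rintro rfl
    exact htne (by rw [← htL']; simp)
  have hwt0 : w.valuation L tL ≠ 0 := (Valuation.ne_zero_iff _).2 htL0
  obtain ⟨j, hj⟩ : ∃ j : ℤ, w.valuation L tL = WithZero.exp j :=
    ⟨WithZero.log (w.valuation L tL), (WithZero.exp_log hwt0).symm⟩
  have hj1 : j < 0 := by
    have h1 : w.valuation L tL < 1 := by
      rw [← hw.lt, htL']
      exact ht1
    rw [hj, ← WithZero.exp_zero, WithZero.exp_lt_exp] at h1
    exact h1
  obtain ⟨u, hu⟩ := w.valuation_exists_uniformizer L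
  have hu' : w.valuation L u = WithZero.exp (-1 : ℤ) := hu
  have hu0 : u ≠ 0 := by
    rintro rfl
    rw [map_zero] at hu'
    exact WithZero.exp_ne_zero hu'.symm
  have hHx : Hx act π N V (u : Ω) := by
    intro s hs
    have h1 : s ∈ L.fixingSubgroup := (hL.fix s).2 ⟨hs.1.1, hs.2⟩
    exact (IntermediateField.mem_fixingSubgroup_iff L _).1 h1 u u.2
  obtain ⟨n, hn⟩ := R.values hHx (by exact_mod_cast hu0)
  have hzc : ((tL ^ n : L) : Ω) = tt T₀ ^ n := by
    rw [← htL']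
    exact map_zpow₀ (algebraMap L Ω) tL n
  have h2 : w.valuation L u = w.valuation L (tL ^ n) := by
    have h3 : V.valuation (u : Ω) = V.valuation ((tL ^ n : L) : Ω) := by
      rw [hzc, map_zpow₀]
      exact hn
    exact le_antisymm ((hw.le _ _).1 h3.le) ((hw.le _ _).1 h3.ge)
  rw [hu', map_zpow₀, hj, ← WithZero.exp_zsmul, WithZero.exp_inj, smul_eq_mul] at h2
  have hjm : j = -1 := by
    have h4 : j ∣ -1 := ⟨n, by rw [h2]; ring⟩
    have h5 : IsUnit j := Int.isUnit_iff.2 (by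
      have h6 : j ∣ 1 := (dvd_neg).1 h4
      have h7 := Int.isUnit_iff.1 (isUnit_of_dvd_one h6)
      exact h7)
    rcases Int.isUnit_iff.1 h5 with h6 | h6 <;> omega
  rw [hj, hjm]

/-- Chunk YG1 (M). From GN to the class. cocycle_of_m: c, y T (choose; 1 outside Tor π) with y^l = m T * z^l. If V contains L then all elements of Ω are in V (H55P.s13_top or integral closure), V = ⊤, all values of nonzero elements are 1: out clear, vo V π < 1 impossible.
Otherwise W = the prime of L below V (H13S.exists_below, Abv). out: G.out with V, W: l | ord W (m T), so W (m T) = W x^l with x in L (a power of a uniformizer, valuation_exists_uniformizer; ord: H55R/Defs), V (y T)^l = V (x z)^l, so V (y T) = V (x z).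
lev: t = tt T₀ is in L (fixed by L.fixingSubgroup: ku2_mem as in H13Z/LV.lean), RV A B Om j act mo ψ π l N V t e0 (e0 = (Nm π - 1)/(l - 1): see H13Z/FZ4 or dichotomy), elements of L are in Hx act π N V (DT elements are in L.fixingSubgroup: hL.fix), RV.values: values of elements of L are powers of V t, so W t = exp(-1) (as in level_pt of H13Z/LV.lean: hjm); G.lev for W (W π < 1 by Abv.lt): W ≤ exp(-2) = W t^2, Abv.le.
nz: G.nz gives T; if z in L, z^l = y T^l = m T z'^l then m T = (z/z')^l. -/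
theorem exists_gl {π : 𝓞 F} {l : ℕ} (D : Dat A B Om j act mo ψ π l) {e : Pt (WAB A B) Ω → Pt (WAB A B) Ω → Ω} (he : Pairing A B act π l e)
    {N L : IntermediateField F Ω} [NumberField N] [NumberField L] (hN : Nb l N) (hL : IsTB act π N L)
    {w : HeightOneSpectrum (𝓞 N)} (hl : (l : 𝓞 N) ∉ w.asIdeal)
    (hfx : ∀ V : ValuationSubring Ω, Abv N V w → ∀ s, DecN N V s → ∀ T ∈ Tor act π, ac (WAB A B) s T = T)
    {m : Pt (WAB A B) Ω → (L)ˣ} (G : GN act π l N L w m) :
    ∃ (c : (Ω ≃ₐ[F] Ω) → Pt (WAB A B) Ω) (y : Pt (WAB A B) Ω → Ω), Gl A B Om j act mo ψ π l e N L w c y := by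
  classical
  have hac : IsAlgClosed Ω := IsAlgClosure.isAlgClosed F
  have halg : Algebra.IsAlgebraic F Ω := IsAlgClosure.isAlgebraic
  have hch : CharZero Ω := charZero_of_injective_algebraMap (algebraMap F Ω).injective
  have hl0 : l ≠ 0 := D.hl.ne_zero
  obtain ⟨c, hc, hy⟩ := cocycle_of_m D he hL m G.add G.gal
  have hy' : ∀ T, ∃ y : Ω, T ∈ Tor act π → (Kum L e c T y ∧
      ∃ z : (L)ˣ, y ^ l = ((m T * z ^ l : (L)ˣ) : L)) := by
    intro T
    by_cases hT : T ∈ Tor act π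
    · obtain ⟨y, h1, h2⟩ := hy T hT
      exact ⟨y, fun _ => ⟨h1, h2⟩⟩
    · exact ⟨1, fun h => absurd h hT⟩
  choose y hy using hy'
  have hcoe : ∀ a b : (L)ˣ, (((a * b ^ l : (L)ˣ) : L) : Ω) = ((a : L) : Ω) * ((b : L) : Ω) ^ l := by
    intro a b
    push_cast
    rfl
  refine ⟨c, y, { D := D, nb := hN, wl := hl, fx := hfx, tb := hL, cc := hc,
                  kum := fun T hT => (hy T hT).1, out := ?_, lev := ?_, nz := ?_ }⟩
  · intro V hV T hT
    obtain ⟨hk, z, hz⟩ := hy T hT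
    have hy0 : y T ≠ 0 := hk.1
    by_cases hLV : ∃ x : L, (x : Ω) ∉ V
    · obtain ⟨W, hW⟩ := H13S.exists_below L V hLV
      obtain ⟨k, hk⟩ := G.out T hT V W hW hV
      obtain ⟨u, hu⟩ := H55R.HB1_pi W
      refine ⟨(((u ^ k * z : (L)ˣ) : L) : Ω), ((u ^ k * z : (L)ˣ) : L).2, ?_, ?_⟩
      · intro h
        exact (u ^ k * z).ne_zero (by exact_mod_cast h)
      · have h1 : W.valuation L (((u ^ k : (L)ˣ) : L) ^ l) = W.valuation L ((m T : (L)ˣ) : L) := by
          rw [H55R.BF1_val, hk, map_pow, H55R.BF1_val, H55R.ord_zpow, hu, mul_one,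
            ← WithZero.exp_nsmul]
          congr 1
          rw [nsmul_eq_mul]
          ring
        have h2 := le_antisymm ((hW.le _ _).2 h1.le) ((hW.le _ _).2 h1.ge)
        have h3 : V.valuation (y T) ^ l = V.valuation (((u ^ k * z : (L)ˣ) : L) : Ω) ^ l := by
          rw [← map_pow, ← map_pow, hz, hcoe, map_mul, ← h2, ← map_mul]
          congr 1
          push_cast
          rw [mul_pow]
        exact (pow_left_inj₀ zero_le zero_le hl0).1 h3
    · push Not at hLV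
      have htop : ∀ x : Ω, x ∈ V := H55P.s13_top L V (by
        intro x hx
        have hx0 : ((x : L) : Ω) ≠ 0 := by
          intro h
          apply hx
          have h1 : (x : L) = 0 := by exact_mod_cast h
          exact RingOfIntegers.coe_injective (h1.trans (map_zero _).symm)
        have h1 := (V.valuation_le_one_iff _).2 (hLV (x : L))
        have h2 := (V.valuation_le_one_iff _).2 (hLV ((x : L)⁻¹))
        have e : (((x : L)⁻¹ : L) : Ω) = ((x : L) : Ω)⁻¹ := rfl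
        rw [e, map_inv₀, inv_le_one₀ (zero_lt_iff.2 ((map_ne_zero _).2 hx0))] at h2
        exact le_antisymm h1 h2)
      refine ⟨1, one_mem L, one_ne_zero, ?_⟩
      rw [map_one]
      have h1 := (V.valuation_le_one_iff _).2 (htop (y T))
      have h2 := (V.valuation_le_one_iff _).2 (htop ((y T)⁻¹))
      rw [map_inv₀, inv_le_one₀ (zero_lt_iff.2 ((map_ne_zero _).2 hy0))] at h2
      exact le_antisymm h1 h2
  · intro V hV T hT T₀ hT₀ hT₀0
    obtain ⟨hk, z, hz⟩ := hy T hT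
    obtain ⟨tL, W, htL, hW, hWt⟩ := yg1_unif D hN hL hV hT₀ hT₀0
    have hWπ : W.valuation L (algebraMap F L (π : F)) < 1 := by
      rw [← hW.lt]
      exact hV
    obtain ⟨z', hz'⟩ := G.lev T hT W hWπ
    refine ⟨(((z' * z : (L)ˣ) : L) : Ω), ((z' * z : (L)ˣ) : L).2, ?_, ?_⟩
    · intro h
      exact (z' * z).ne_zero (by exact_mod_cast h)
    · have hz0 : ((z : L) : Ω) ≠ 0 := by
        intro h
        exact z.ne_zero (by exact_mod_cast h)
      have hz'0 : ((z' : L) : Ω) ≠ 0 := by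
        intro h
        exact z'.ne_zero (by exact_mod_cast h)
      have e1 : y T ^ l / (((z' * z : (L)ˣ) : L) : Ω) ^ l - 1 =
          ((((m T * (z' ^ l)⁻¹ : (L)ˣ) : L) - 1 : L) : Ω) := by
        rw [hz, hcoe]
        push_cast
        field_simp
        ring
      have e2 : V.valuation (tt T₀) ^ 2 = V.valuation ((tL ^ 2 : L) : Ω) := by
        push_cast
        rw [htL, map_pow]
      rw [e1, e2, hW.le, map_pow, hWt, ← WithZero.exp_nsmul]
      refine hz'.trans ?_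
      rw [WithZero.exp_le_exp]
      norm_num
  · obtain ⟨T, hT, hT1⟩ := G.nz
    refine ⟨T, hT, fun x hx hxy => ?_⟩
    obtain ⟨hk, z, hz⟩ := hy T hT
    have hx0 : x ≠ 0 := by
      rintro rfl
      rw [zero_pow hl0] at hxy
      exact pow_ne_zero l hk.1 hxy.symm
    obtain ⟨xL, hxL⟩ : ∃ xL : L, (xL : Ω) = x := ⟨⟨x, hx⟩, rfl⟩
    have hxL0 : xL ≠ 0 := by
      rintro rfl
      exact hx0 (by rw [← hxL]; simp)
    apply hT1 (Units.mk0 xL hxL0 * z⁻¹)
    have h1 : ((xL ^ l : L) : Ω) = (((m T * z ^ l : (L)ˣ) : L) : Ω) := by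
      rw [← hz, ← hxy, ← hxL]
      push_cast
      rfl
    have h2 : xL ^ l = ((m T * z ^ l : (L)ˣ) : L) := Subtype.val_injective h1
    have h3 : Units.mk0 xL hxL0 ^ l = m T * z ^ l := by
      ext
      push_cast
      rw [Units.val_mk0]
      have h4 := congrArg (fun t : L => (t : Ω)) h2
      push_cast at h4
      exact h4
    rw [mul_pow, inv_pow, h3, mul_inv_cancel_right]

end H13X
end

-- from Lib.H13X.XPA
section

/-! # H13X: port of H13Z/LPA -/

open NumberField IsDedekindDomain WeierstrassCurve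

namespace H13X

open H55P (IQ embF eF LF Per IsHecke Pt ac Inert Dec Nm Coc)
open H35P (WAB Ker tt)
open H55K (Tor ak xc yc CMA Dta GV GMod cj cj_cj mul_cj cj_prime cj_dvd cj_nat Nm_cj Nm_mul Nm_nat)
open H55K.S
open H13S (Abv)




variable {F : Type} [Field F] [NumberField F] [IQ F] {A B : F} {Om : ℂ} {Ω : Type} [Field Ω] [DecidableEq Ω]
  [Algebra F Ω] {j : Ω →+* ℂ} {act : 𝓞 F →+* AddMonoid.End (Pt (WAB A B) Ω)} {mo : Ideal (𝓞 F)}
  {ψ : Ideal (𝓞 F) →*₀ 𝓞 F}

/-- Chunk LPA (S/M), pure algebra. K = 𝓞 F/π is a field with l or l^2 elements, x → x^i is an additive and multiplicative map, so a ring homomorphism f : K → K; for x in K the polynomial (X - x)(X - x^l) (or X - x if Nm π = l) has coefficients fixed by Frobenius, that is in the prime field (natural numbers), so f x is a root of it: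
f x = x or f x = x^l. For a generator x of K^*: q - 1 divides i - 1 or i - l. If Nm π = l: x^l = x, so q - 1 = l - 1 divides i - 1. -/
theorem pow_add_class {π : 𝓞 F} {l : ℕ} (D : Dat A B Om j act mo ψ π l) {i : ℕ} (hi : 1 ≤ i)
    (h : ∀ x y : 𝓞 F, π ∣ (x + y) ^ i - x ^ i - y ^ i) :
    ((Nm π : ℤ) - 1) ∣ (i : ℤ) - 1 ∨ (Nm π = l ^ 2 ∧ ((Nm π : ℤ) - 1) ∣ (i : ℤ) - l) := by
  have hfp : Fact l.Prime := ⟨D.hl⟩
  have hmax := xu_max D.pr
  let _ : Field (𝓞 F ⧸ Ideal.span {π}) := Ideal.Quotient.field _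
  let q : 𝓞 F →+* 𝓞 F ⧸ Ideal.span {π} := Ideal.Quotient.mk _
  have hq : Function.Surjective q := Ideal.Quotient.mk_surjective
  have hk : ∀ x, q x = 0 ↔ π ∣ x := by
    intro x
    rw [← Ideal.mem_span_singleton]
    exact Ideal.Quotient.eq_zero_iff_mem
  have hcd : Nat.card (𝓞 F ⧸ Ideal.span {π}) = Nm π := H55K.k10_card q hq hk
  have hNm : Nm π = l ∨ Nm π = l ^ 2 := by
    rcases dichotomy D.hl D.dta.unr D.pr D.dvd with h1 | h1
    · exact Or.inr h1.2.1
    · exact Or.inl h1.2.2.1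
  have hl1 := D.hl.pos
  have hNpos : Nm π ≠ 0 := by
    rcases hNm with h1 | h1
    · rw [h1]; omega
    · rw [h1]; positivity
  have hfin : Finite (𝓞 F ⧸ Ideal.span {π}) := Nat.finite_of_card_ne_zero (by rw [hcd]; exact hNpos)
  have hchar : CharP (𝓞 F ⧸ Ideal.span {π}) l := by
    rw [CharP.charP_iff_prime_eq_zero D.hl]
    have h1 := (hk (l : 𝓞 F)).2 D.dvd
    rwa [map_natCast] at h1
  let f : (𝓞 F ⧸ Ideal.span {π}) →+* (𝓞 F ⧸ Ideal.span {π}) :=
    { toFun := fun x => x ^ i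
      map_one' := one_pow i
      map_mul' := fun x y => mul_pow x y i
      map_zero' := zero_pow (by omega)
      map_add' := fun x y => by
        obtain ⟨a, rfl⟩ := hq x
        obtain ⟨b, rfl⟩ := hq y
        have h1 := (hk _).2 (h a b)
        rw [map_sub, map_sub, map_pow, map_pow, map_pow, map_add, sub_sub, sub_eq_zero] at h1
        exact h1 }
  have h1 := H13Z.lpa_field f (fun x => rfl) (l := l) (i := i) (by rw [hcd]; exact hNm)
  rw [hcd] at h1
  exact h1

end H13X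
end

-- from Lib.H13X.XC2
section

/-! # H13X: port of H13Y/YC2 -/

open NumberField IsDedekindDomain WeierstrassCurve

namespace H13X

open H55P (IQ embF eF LF Per IsHecke Pt ac Inert Dec Nm Coc)
open H35P (WAB Ker tt)
open H55K (Tor ak xc yc CMA Dta GV GMod cj cj_cj mul_cj cj_prime cj_dvd cj_nat Nm_cj Nm_mul Nm_nat)
open H55K.S
open H13S (Abv)





variable {F : Type} [Field F] [NumberField F] [IQ F] {A B : F} {Om : ℂ} {Ω : Type} [Field Ω] [DecidableEq Ω]
  [Algebra F Ω] [IsAlgClosure F Ω] {j : Ω →+* ℂ} {act : 𝓞 F →+* AddMonoid.End (Pt (WAB A B) Ω)} {mo : Ideal (𝓞 F)}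
  {ψ : Ideal (𝓞 F) →*₀ 𝓞 F}

variable {π : 𝓞 F} {l : ℕ} {N : IntermediateField F Ω} {V : ValuationSubring Ω} {t : Ω} {e0 : ℕ}

/-- Chunk YC2 (M), PORT of H13Z/LC2.lean, LC3.lean, LC5.lean to the base field N. The inertia elements of RV.exists_inert R.base are in DecN (R.dec). -/
theorem RV.lin (R : RV A B Om j act mo ψ π l N V t e0) {m : Pt (WAB A B) Ω → Ω} (hm : Sys act π l N V m) {T₀ : Pt (WAB A B) Ω}
    (hT : T₀ ∈ Tor act π) {i : ℕ} (hi : 1 ≤ i) {a : Ω} (h : Co act π l N V t i (m T₀) a) (x : 𝓞 F) :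
    Co act π l N V t i (m (act x T₀)) (a * algebraMap F Ω (x : F) ^ i) := by
  by_cases hx : π ∣ x
  · have e0 : act x T₀ = 0 := by
      obtain ⟨k, rfl⟩ := hx
      rw [mul_comm, act_mul, mem_Tor.1 hT, map_zero]
    rw [e0]
    have hT0 : (0 : Pt (WAB A B) Ω) ∈ Tor act π := AddSubgroup.zero_mem _
    have hm0 := hm.ne 0 hT0
    obtain ⟨z, hz, z0, h1⟩ := hm.add 0 hT0 0 hT0
    rw [add_zero] at h1
    have h2 : m 0 * z ^ l = 1 := by
      have h3 : m 0 * (m 0 * z ^ l) = m 0 * 1 := by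
        rw [mul_one, ← mul_assoc]
        exact h1.symm
      exact mul_left_cancel₀ hm0 h3
    have h3 : Co act π l N V t i (m 0) 0 := by
      refine ⟨⟨N.zero_mem, by rw [map_zero]; exact zero_le⟩, z⁻¹, hz.inv, inv_ne_zero z0, ?_⟩
      have e1 : m 0 / z⁻¹ ^ l = 1 := by
        rw [inv_pow, div_inv_eq_mul, h2]
      rw [e1, zero_mul, sub_self, sub_self, map_zero]
      exact zero_le
    have hxV : V.valuation (algebraMap F Ω (x : F)) < 1 := (R.base.vo_lt x).2 hx
    refine R.co_cong h3 (N.mul_mem h.1.1 (pow_mem (N.algebraMap_mem _) i)) ?_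
    rw [zero_sub, Valuation.map_neg, map_mul, map_pow]
    exact (mul_le_of_le_one_left' h.1.2).trans_lt (pow_lt_one₀ zero_le hxV (by omega))
  · obtain ⟨s, hs, hsT⟩ := R.base.exists_inert hx
    obtain ⟨z, hz, z0, h1⟩ := hm.gal s (R.dec hs) T₀ hT
    rw [← hsT T₀ hT, h1]
    exact R.co_act h (R.dec hs) hsT hz z0

theorem RV.pow_add (R : RV A B Om j act mo ψ π l N V t e0) {m : Pt (WAB A B) Ω → Ω} (hm : Sys act π l N V m) {T₀ : Pt (WAB A B) Ω}
    (hT : T₀ ∈ Tor act π) {i : ℕ} (hi : 1 ≤ i) (h2 : i < l * e0) (h3 : ¬ l ∣ i) {a : Ω}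
    (h : Co act π l N V t i (m T₀) a) (ha : V.valuation a = 1) (x y : 𝓞 F) :
    π ∣ (x + y) ^ i - x ^ i - y ^ i := by
  have hx := R.lin hm hT hi h x
  have hy := R.lin hm hT hi h y
  have hxy := R.lin hm hT hi h (x + y)
  obtain ⟨z, hz, z0, h1⟩ := hm.add _ (act_tor hT) _ (act_tor hT)
  have h4 := R.co_mul hi hx hy hz z0
  rw [← h1, ← act_add] at h4
  have h5 := R.co_unique (hm.ne _ (act_tor hT)) hi h2 h3 hxy h4
  have e : a * algebraMap F Ω ((x + y : 𝓞 F) : F) ^ i -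
      (a * algebraMap F Ω (x : F) ^ i + a * algebraMap F Ω (y : F) ^ i) =
      a * algebraMap F Ω (((x + y) ^ i - x ^ i - y ^ i : 𝓞 F) : F) := by
    rw [lc1_sub, lc1_sub, lc1_pow, lc1_pow, lc1_pow]
    ring
  rw [e, map_mul, ha, one_mul] at h5
  exact (R.base.vo_lt _).1 h5

theorem yc2_lt {a : Ω} (ha : V.valuation a < 1) (x : 𝓞 F) (i : ℕ) :
    V.valuation (a * algebraMap F Ω (x : F) ^ i) < 1 := by
  have h1 : V.valuation (algebraMap F Ω (x : F)) ≤ 1 := vo_le V x
  rw [map_mul, map_pow]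
  exact (mul_le_of_le_one_right' (pow_le_one' h1 i)).trans_lt ha

theorem RV.levels (R : RV A B Om j act mo ψ π l N V t e0) {m : Pt (WAB A B) Ω → Ω} (hm : Sys act π l N V m) {n : ℕ}
    (hn : Nm π = l ∧ n = l ∨ Nm π = l ^ 2 ∧ n = l ^ 2 + l - 1)
    (h : ∀ T ∈ Tor act π, Lv act π l N V (V.valuation t ^ 2) (m T)) :
    ∀ T ∈ Tor act π, Lv act π l N V (V.valuation t ^ n) (m T) := by
  have h5 := R.base.D.five
  have hcase := R.base.val_l.2.2.2.2.2
  have hn2 : 2 ≤ n := by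
    rcases hn with ⟨-, h1⟩ | ⟨-, h1⟩
    · omega
    · have : l ≤ l ^ 2 := Nat.le_self_pow (by norm_num) l
      omega
  have key : ∀ i, 2 ≤ i → i ≤ n → ∀ T ∈ Tor act π, Lv act π l N V (V.valuation t ^ i) (m T) := by
    intro i hi2
    induction i, hi2 using Nat.le_induction with
    | base => exact fun _ => h
    | succ i hi ih =>
      intro hin T hT
      have ih' := ih (by omega)
      have hi1 : 1 ≤ i := by omega
      have hie : i < l * e0 := by
        rcases hn with ⟨h1, h2⟩ | ⟨h1, h2⟩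
        · rcases hcase with ⟨-, h4⟩ | ⟨h3, -, -⟩
          · rw [h4]
            omega
          · exfalso
            rw [h1] at h3
            have : l * 1 < l * l := Nat.mul_lt_mul_of_pos_left (by omega) (by omega)
            rw [sq] at h3
            omega
        · rcases hcase with ⟨h3, -⟩ | ⟨-, h4, -⟩
          · exfalso
            rw [h1] at h3
            have : l * 1 < l * l := Nat.mul_lt_mul_of_pos_left (by omega) (by omega)
            rw [sq] at h3
            omega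
          · rw [h4, mul_add, mul_one, ← sq]
            omega
      by_cases hli : l ∣ i
      · obtain ⟨j, rfl⟩ := hli
        have hj : 1 ≤ j := by
          rcases Nat.eq_zero_or_pos j with h6 | h6
          · rw [h6] at hi
            omega
          · exact h6
        exact R.raise_mul (hm.fx T hT) (hm.ne T hT) hj (lt_of_mul_lt_mul_left hie (Nat.zero_le l))
          (ih' T hT)
      · obtain ⟨-, T₀, hT₀, hgen, -⟩ := gi_gen R.base.D.cma π R.base.D.pr
        obtain ⟨a, ha⟩ := R.co_exists (hm.fx T₀ hT₀) (ih' T₀ hT₀)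
        by_cases hpa : V.valuation a < 1
        · obtain ⟨x, rfl⟩ := hgen T hT
          exact R.co_zero (R.lin hm hT₀ hi1 ha x) (yc2_lt hpa x i)
        · exfalso
          have h7 := pow_add_class R.base.D hi1
            (R.pow_add hm hT₀ hi1 hie hli ha (le_antisymm ha.1.2 (not_lt.1 hpa)))
          rcases hn with ⟨h1, h2⟩ | ⟨h1, h2⟩
          · rcases h7 with h8 | ⟨h8, -⟩
            · rw [h1] at h8
              have h9 := Int.le_of_dvd (by omega) h8
              omega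
            · rw [h1] at h8
              have : l * 1 < l * l := Nat.mul_lt_mul_of_pos_left (by omega) (by omega)
              rw [sq] at h8
              omega
          · have hll : l * 5 ≤ l * l := Nat.mul_le_mul_left l h5
            rw [sq] at h1 h2
            rw [h1] at h7
            rcases h7 with h8 | ⟨-, h8⟩
            · obtain ⟨k, hk⟩ := h8
              have hk1 : k = 1 := by
                have e1 : 0 < (i : ℤ) - 1 := by omega
                have e2 : (i : ℤ) - 1 < 2 * (((l * l : ℕ) : ℤ) - 1) := by omega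
                have e3 : 0 < ((l * l : ℕ) : ℤ) - 1 := by omega
                have e4 : 0 < k := by
                  by_contra h9
                  have : (((l * l : ℕ) : ℤ) - 1) * k ≤ 0 :=
                    mul_nonpos_of_nonneg_of_nonpos e3.le (not_lt.1 h9)
                  omega
                have e5 : k < 2 := by
                  by_contra h9
                  have : (((l * l : ℕ) : ℤ) - 1) * 2 ≤ (((l * l : ℕ) : ℤ) - 1) * k :=
                    mul_le_mul_of_nonneg_left (not_lt.1 h9) e3.le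
                  omega
                omega
              rw [hk1, mul_one] at hk
              apply hli
              have : i = l * l := by omega
              rw [this]
              exact dvd_mul_right l l
            · obtain ⟨k, hk⟩ := h8
              have hk1 : k = 0 := by
                have e1 : -(((l * l : ℕ) : ℤ) - 1) < (i : ℤ) - l := by omega
                have e2 : (i : ℤ) - l < ((l * l : ℕ) : ℤ) - 1 := by omega
                have e3 : 0 < ((l * l : ℕ) : ℤ) - 1 := by omega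
                have e4 : -1 < k := by
                  by_contra h9
                  have : (((l * l : ℕ) : ℤ) - 1) * k ≤ (((l * l : ℕ) : ℤ) - 1) * (-1) :=
                    mul_le_mul_of_nonneg_left (not_lt.1 h9) e3.le
                  omega
                have e5 : k < 1 := by
                  by_contra h9
                  have : (((l * l : ℕ) : ℤ) - 1) * 1 ≤ (((l * l : ℕ) : ℤ) - 1) * k :=
                    mul_le_mul_of_nonneg_left (not_lt.1 h9) e3.le
                  omega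
                omega
              rw [hk1, mul_zero] at hk
              apply hli
              have : i = l := by omega
              rw [this]
  exact key n hn2 le_rfl

/-- If the coefficient at T₀ ≠ 0 (a generator) has value < 1 the level is raised for all T (lin, gi_gen / PA1_gen, co_zero). -/
theorem RV.up (R : RV A B Om j act mo ψ π l N V t e0) {m : Pt (WAB A B) Ω → Ω} (hm : Sys act π l N V m) {T₀ : Pt (WAB A B) Ω}
    (hT : T₀ ∈ Tor act π) (h0 : T₀ ≠ 0) {i : ℕ} (hi : 1 ≤ i) {a : Ω} (h : Co act π l N V t i (m T₀) a)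
    (ha : V.valuation a < 1) : ∀ T ∈ Tor act π, Lv act π l N V (V.valuation t ^ (i + 1)) (m T) := by
  intro T hT'
  obtain ⟨x, rfl⟩ := (PA1_gen R.base.D.cma π R.base.D.pr T₀ hT h0).1 T hT'
  exact R.co_zero (R.lin hm hT hi h x) (yc2_lt ha x i)

theorem RV.top (R : RV A B Om j act mo ψ π l N V t e0) {m y : Ω} (hm : Hx act π N V m) (hy : y ^ l = m)
    (h : Lv act π l N V (V.valuation t ^ (l * e0)) m) {s : Ω ≃ₐ[F] Ω} (hs : Inert V s)
    (hT : ∀ T ∈ Tor act π, ac (WAB A B) s T = T) : s y = y := by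
  have hchar : CharZero Ω := charZero_of_injective_algebraMap (algebraMap F Ω).injective
  obtain ⟨z, hz, hz0, hv⟩ := h
  obtain ⟨v1, v2, v3, v4, v5, v6⟩ := R.base.val_l
  have hDT : DT act π N V s := ⟨R.dec hs, hT⟩
  have hsm : s m = m := hm s hDT
  have hsz : s z = z := hz s hDT
  have hst : s t = t := yc1_hx R s hDT
  have h1 := H13Z.fix_eq V R.base.D.hl (by have := R.base.D.five; omega)
    (by rw [v1]; exact R.base.above)
    (τ := t ^ e0) (u := m / z ^ l) (y := y / z) (by rw [map_pow, ← pow_mul]; exact v5)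
    (by rw [div_pow, hy]) (by rw [map_pow, ← pow_mul, mul_comm e0]; exact hv) hs
    (by rw [map_pow, hst]) (by rw [map_div₀, map_pow, hsm, hsz])
  rw [map_div₀, hsz] at h1
  exact (div_left_inj' hz0).1 h1

/-- The quotient of two systems is a system (as in RV.compare, LC4.lean, without act b). -/
theorem Sys.div {m m₁ : Pt (WAB A B) Ω → Ω} (hm : Sys act π l N V m) (hm₁ : Sys act π l N V m₁) :
    Sys act π l N V fun T => m T / m₁ T := by
  refine ⟨fun T hT => div_ne_zero (hm.ne T hT) (hm₁.ne T hT),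
    fun T hT => (hm.fx T hT).div (hm₁.fx T hT), fun T hT T' hT' => ?_, fun s hs T hT => ?_⟩
  · obtain ⟨z, hz, z0, h1⟩ := hm.add T hT T' hT'
    obtain ⟨z', hz', z0', h1'⟩ := hm₁.add T hT T' hT'
    refine ⟨z / z', hz.div hz', div_ne_zero z0 z0', ?_⟩
    show m (T + T') / m₁ (T + T') = m T / m₁ T * (m T' / m₁ T') * (z / z') ^ l
    rw [h1, h1', div_pow]
    have := hm₁.ne T hT
    have := hm₁.ne T' hT'
    have := pow_ne_zero l z0'
    field_simp
  · obtain ⟨z, hz, z0, h1⟩ := hm.gal s hs T hT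
    obtain ⟨z', hz', z0', h1'⟩ := hm₁.gal s hs T hT
    refine ⟨z / z', hz.div hz', div_ne_zero z0 z0', ?_⟩
    show m (ac (WAB A B) s T) / m₁ (ac (WAB A B) s T) = s (m T / m₁ T) * (z / z') ^ l
    have h2 : s (m₁ T) ≠ 0 := by
      rw [Ne, map_eq_zero_iff s s.injective]
      exact hm₁.ne T hT
    rw [h1, h1', div_pow, map_div₀]
    have := pow_ne_zero l z0'
    field_simp

end H13X
end

-- from Lib.H13X.XLV
section

/-! # H13X: port of H13Y/YLV -/

open NumberField IsDedekindDomain WeierstrassCurve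

namespace H13X

open H55P (IQ embF eF LF Per IsHecke Pt ac Inert Dec Nm Coc)
open H35P (WAB Ker tt)
open H55K (Tor ak xc yc CMA Dta GV GMod cj cj_cj mul_cj cj_prime cj_dvd cj_nat Nm_cj Nm_mul Nm_nat)
open H55K.S
open H13S (Abv)





variable {F : Type} [Field F] [NumberField F] [IQ F] {A B : F} {Om : ℂ} {Ω : Type} [Field Ω] [DecidableEq Ω]
  [Algebra F Ω] [IsAlgClosure F Ω] {j : Ω →+* ℂ} {act : 𝓞 F →+* AddMonoid.End (Pt (WAB A B) Ω)} {mo : Ideal (𝓞 F)}
  {ψ : Ideal (𝓞 F) →*₀ 𝓞 F}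

variable {π : 𝓞 F} {l : ℕ} {N : IntermediateField F Ω} {V : ValuationSubring Ω} {t : Ω} {e0 : ℕ}
  {e : Pt (WAB A B) Ω → Pt (WAB A B) Ω → Ω}

theorem ylv_hx {B₀ L : IntermediateField F Ω} (hL : IsTB act π B₀ L)
    (hB : ∀ s, DecN N V s → s ∈ B₀.fixingSubgroup) (x : L) : Hx act π N V (x : Ω) := by
  intro s hs
  have h1 : s ∈ L.fixingSubgroup := (hL.fix s).2 ⟨hB s hs.1, hs.2⟩
  exact (IntermediateField.mem_fixingSubgroup_iff L _).1 h1 x x.2

/-- Chunk YLV (S/M), PORT of H13Z/LV.lean level_pt (uses level_gen as it is; RV.values of YR.lean in place of RV.values; elements of L are in Hx act π N V by hB). If P = 0 the cocycle is 0, e 0 T = 1, y is fixed by L.fixingSubgroup, so y in L (ku2_mem), z = y. -/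
theorem level_ptu (R : RV A B Om j act mo ψ π l N V t e0) (hin : Tor act (cj π) = Tor act π) (hq : Nm π = l ^ 2) (he : Pairing A B act π l e)
    {B₀ L : IntermediateField F Ω} [NumberField L] (hL : IsTB act π B₀ L)
    (hB : ∀ s, DecN N V s → s ∈ B₀.fixingSubgroup) {P : Pt (WAB A B) Ω}
    (hP : P = 0 ∨ Ker V P ∧ V.valuation (tt P) ^ Nm π = vo V π)
    (C : Cc act π B₀ fun s => ac (WAB A B) s P - P) (T : Pt (WAB A B) Ω) (hT : T ∈ Tor act π) (y : Ω)
    (hyk : Kum L e (fun s => ac (WAB A B) s P - P) T y) : Lv act π l N V (V.valuation t ^ 2) (y ^ l) := by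
  have hl0 : l ≠ 0 := R.base.D.hl.ne_zero
  rcases hP with hP0 | ⟨hP, hPv⟩
  · have hyL : y ∈ L := by
      apply ku2_mem
      intro s hs
      rw [hyk.2 s hs]
      show e (ac (WAB A B) s P - P) T * y = y
      rw [hP0, map_zero, sub_zero, ld3_e0 hl0 he hT, one_mul]
    refine ⟨y, ylv_hx hL hB ⟨y, hyL⟩, hyk.1, ?_⟩
    rw [div_self (pow_ne_zero l hyk.1), sub_self, map_zero]
    exact zero_le
  obtain ⟨-, -, ht1, ht0, -, -⟩ := R.base.val_l
  have htne : t ≠ 0 := (Valuation.ne_zero_iff _).1 ht0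
  have htL : t ∈ L := by
    obtain ⟨T₀, hT₀, -, rfl⟩ := R.base.pt
    apply ku2_mem
    intro s hs
    rw [← tt_ac, ((hL.fix s).1 hs).2 _ hT₀]
  obtain ⟨tL, htL'⟩ : ∃ tL : L, (tL : Ω) = t := ⟨⟨t, htL⟩, rfl⟩
  obtain ⟨w, hw⟩ := H13S.exists_below L V ⟨tL⁻¹, by
    rw [← V.valuation_le_one_iff]
    push_cast
    rw [htL', map_inv₀, not_le]
    exact (one_lt_inv₀ (zero_lt_iff.2 ht0)).2 ht1⟩
  obtain ⟨m, hm, hm0⟩ := kumB_pow C he hL hT hyk
  obtain ⟨z, hz0, hz⟩ := level_gen R.base.D hin hq he hL V R.base.gv R.base.above R.base.val_l.1 w hw hP hPv C T hT m hm0 y hyk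
    hm.symm
  have htL0 : tL ≠ 0 := by
    rintro rfl
    exact htne (by rw [← htL']; simp)
  have hwt0 : w.valuation L tL ≠ 0 := (Valuation.ne_zero_iff _).2 htL0
  obtain ⟨j, hj⟩ : ∃ j : ℤ, w.valuation L tL = WithZero.exp j :=
    ⟨WithZero.log (w.valuation L tL), (WithZero.exp_log hwt0).symm⟩
  have hj1 : j < 0 := by
    have h1 : w.valuation L tL < 1 := by
      rw [← hw.lt, htL']
      exact ht1
    rw [hj, ← WithZero.exp_zero, WithZero.exp_lt_exp] at h1
    exact h1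
  obtain ⟨u, hu⟩ := w.valuation_exists_uniformizer L
  have hu' : w.valuation L u = WithZero.exp (-1 : ℤ) := hu
  have hu0 : u ≠ 0 := by
    rintro rfl
    rw [map_zero] at hu'
    exact WithZero.exp_ne_zero hu'.symm
  obtain ⟨n, hn⟩ := R.values (ylv_hx hL hB u) (by exact_mod_cast hu0)
  have hzc : ((tL ^ n : L) : Ω) = t ^ n := by
    rw [← htL']
    exact map_zpow₀ (algebraMap L Ω) tL n
  have h2 : w.valuation L u = w.valuation L (tL ^ n) := by
    have h3 : V.valuation (u : Ω) = V.valuation ((tL ^ n : L) : Ω) := by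
      rw [hzc, map_zpow₀]
      exact hn
    exact le_antisymm ((hw.le _ _).1 h3.le) ((hw.le _ _).1 h3.ge)
  rw [hu', map_zpow₀, hj, ← WithZero.exp_zsmul, WithZero.exp_inj, smul_eq_mul] at h2
  have hjm : j = -1 := by
    have h4 : j ∣ -1 := ⟨n, by rw [h2]; ring⟩
    have h5 : IsUnit j := Int.isUnit_iff.2 (by
      have h6 : j ∣ 1 := (dvd_neg).1 h4
      have h7 := Int.isUnit_iff.1 (isUnit_of_dvd_one h6)
      exact h7)
    rcases Int.isUnit_iff.1 h5 with h6 | h6 <;> omega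
  refine ⟨z, ylv_hx hL hB z, by exact_mod_cast hz0, ?_⟩
  have h6 : w.valuation L (m / z ^ l - 1) ≤ w.valuation L (tL ^ 2) := by
    rw [map_pow, hj, hjm, ← WithZero.exp_nsmul]
    refine hz.trans ?_
    rw [WithZero.exp_le_exp]
    norm_num
  have h7 := (hw.le _ _).2 h6
  push_cast at h7
  rw [hm, htL', map_pow] at h7
  exact h7

end H13X
end

-- from Lib.H13X.XL1
section

/-! # H13X: port of H13Y/YL1 -/

open NumberField IsDedekindDomain WeierstrassCurve

namespace H13X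

open H55P (IQ embF eF LF Per IsHecke Pt ac Inert Dec Nm Coc)
open H35P (WAB Ker tt)
open H55K (Tor ak xc yc CMA Dta GV GMod cj cj_cj mul_cj cj_prime cj_dvd cj_nat Nm_cj Nm_mul Nm_nat)
open H55K.S
open H13S (Abv)





variable {F : Type} [Field F] [NumberField F] [IQ F] {A B : F} {Om : ℂ} {Ω : Type} [Field Ω] [DecidableEq Ω]
  [Algebra F Ω] [IsAlgClosure F Ω] {j : Ω →+* ℂ} {act : 𝓞 F →+* AddMonoid.End (Pt (WAB A B) Ω)} {mo : Ideal (𝓞 F)}
  {ψ : Ideal (𝓞 F) →*₀ 𝓞 F}

variable {π : 𝓞 F} {l : ℕ} {N : IntermediateField F Ω} {V : ValuationSubring Ω} {t : Ω} {e0 : ℕ}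
  {e : Pt (WAB A B) Ω → Pt (WAB A B) Ω → Ω}

/-- Chunk YL1a (S/M). If all (y T)^l have the level l e0 then c is zero on JV: RV.top, c_zero (JV elements are in DT: R.dec). -/
theorem top_zero (R : RV A B Om j act mo ψ π l N V t e0) (he : Pairing A B act π l e) {c : (Ω ≃ₐ[F] Ω) → Pt (WAB A B) Ω} (hc : Dc act π N V c)
    {y : Pt (WAB A B) Ω → Ω} (hy : KS act π N V e c y)
    (h : ∀ T ∈ Tor act π, Lv act π l N V (V.valuation t ^ (l * e0)) (y T ^ l)) :
    ∀ s, JV act π V s → c s = 0 := by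
  intro s hs
  refine c_zero R.base.D he hc hy ⟨R.dec hs.1, hs.2.1⟩ fun T hT => ?_
  exact R.top ((sys_of R.base.D he hc hy).fx T hT) rfl (h T hT) hs.1 hs.2.1

/-- Chunk YL1b (S/M). Two classes with the same coefficient at T₀ at the level l^2 + l - 1 = l e0 - 1 differ by a class vanishing on JV. hc.sub, ks_sub (YK.lean), sys_of, the system (y T/y₁ T)^l = (y T)^l/(y₁ T)^l (Sys.div or sys_of); its coefficient at T₀ is a - a₁ (co_inv, co_mul with z = 1); RV.up: level l^2 + l (not 0 for T₀: T₀ ≠ 0), top_zero. -/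
theorem same_coef (R : RV A B Om j act mo ψ π l N V t e0) (hin : Tor act (cj π) = Tor act π) (hq : Nm π = l ^ 2) (he : Pairing A B act π l e)
    {c c₁ : (Ω ≃ₐ[F] Ω) → Pt (WAB A B) Ω} (hc : Dc act π N V c) (hc₁ : Dc act π N V c₁) {y y₁ : Pt (WAB A B) Ω → Ω}
    (hy : KS act π N V e c y) (hy₁ : KS act π N V e c₁ y₁) {T₀ : Pt (WAB A B) Ω} (hT : T₀ ∈ Tor act π) (h0 : T₀ ≠ 0)
    {a a₁ : Ω} (ha : Co act π l N V t (l ^ 2 + l - 1) (y T₀ ^ l) a)
    (ha₁ : Co act π l N V t (l ^ 2 + l - 1) (y₁ T₀ ^ l) a₁) (hd : V.valuation (a - a₁) < 1) :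
    ∀ s, JV act π V s → c s - c₁ s = 0 := by
  have D := R.base.D
  have hl5 := D.five
  have he0 : l * e0 = l ^ 2 + l := by
    rcases R.base.val_l.2.2.2.2.2 with h | h
    · exfalso
      have h1 := h.1
      rw [hq] at h1
      nlinarith
    · rw [h.2.1]
      ring
  have hi1 : 1 ≤ l ^ 2 + l - 1 := by
    have : 1 ≤ l ^ 2 := Nat.one_le_pow _ _ (by omega)
    omega
  have hi2 : l ^ 2 + l - 1 + 1 = l ^ 2 + l := by omega
  have hks := ks_sub D he hc hy hc₁ hy₁
  have hm := sys_of D he (hc.sub hc₁) hks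
  have hm₁ := sys_of D he hc₁ hy₁
  have h1 := R.co_mul hi1 ha (R.co_inv (hm₁.ne T₀ hT) hi1 ha₁) Hx.one one_ne_zero
  have e1 : y T₀ ^ l * (y₁ T₀ ^ l)⁻¹ * 1 ^ l = (y T₀ / y₁ T₀) ^ l := by
    rw [div_pow, one_pow, mul_one, div_eq_mul_inv]
  rw [e1, ← sub_eq_add_neg] at h1
  have h2 := R.up hm hT h0 hi1 h1 hd
  rw [hi2, ← he0] at h2
  exact top_zero R he (hc.sub hc₁) hks h2

/-- The inert case: the conjugate of π is associated to π. -/
theorem inert_of (D : Dat A B Om j act mo ψ π l) (hq : Nm π = l ^ 2) :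
    Tor act (cj π) = Tor act π ∧ vo V (cj π) = vo V π := by
  have h5 := D.five
  rcases dichotomy D.hl D.dta.unr D.pr D.dvd with ⟨h, -, -⟩ | ⟨-, -, h, -⟩
  · exact ⟨tor_assoc h, vo_assoc V h (fun x => vo_le V x)⟩
  · exfalso
    rw [h] at hq
    nlinarith

/-- Chunk YL1c (M). The local condition in the inert case over N. cj π = π, V l = V π (R.base.val_l). q, r from R.nb.res V π. T₀ ≠ 0 from gi_gen. For each i: exists_ptu with u = r i (choose: P i, y i); levels: level_ptu and RV.levels, so co_exists gives a i = the coefficient at T₀ of (y i T₀)^l at the level l^2 + l - 1. For i ≠ i' not V (a i - a i') < 1: otherwise same_coef: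
the difference of the classes vanishes on JV, cob_inert (Dc.sub, R.dec) gives X, against pt_diff. c has the coefficient a (sys_of, RV.levels, co_exists). pigeon with S = N: i with V (a - a i) < 1. same_coef: c - c_i vanishes on JV; cob_ram (YCB.lean) with moved_ram: c s - (s P_i - P_i) = s X - X. The point P_i + X. -/
theorem loc_inert (R : RV A B Om j act mo ψ π l N V t e0) (hq : Nm π = l ^ 2) (he : Pairing A B act π l e)
    {c : (Ω ≃ₐ[F] Ω) → Pt (WAB A B) Ω} (hc : Dc act π N V c) {y : Pt (WAB A B) Ω → Ω} (hy : KS act π N V e c y)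
    (h2 : ∀ T ∈ Tor act π, Lv act π l N V (V.valuation t ^ 2) (y T ^ l)) :
    ∃ P : Pt (WAB A B) Ω, ∀ s, DecN N V s → c s = ac (WAB A B) s P - P := by
  have D := R.base.D
  obtain ⟨hin, hvc⟩ := inert_of (V := V) D hq
  have hG := R.base.gv
  have hV : vo V (cj π) < 1 := by
    rw [hvc]
    exact R.base.above
  have hvl : V.valuation (l : Ω) = vo V (cj π) := by
    rw [hvc]
    exact R.base.val_l.1
  obtain ⟨q, f, -, -, -, -, r, hr1, hr2, hr3⟩ := R.nb.res V π D.pr R.base.above R.lt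
  obtain ⟨-, T₀, hT₀, -, hz⟩ := gi_gen R.base.D.cma π D.pr
  have hT₀0 : T₀ ≠ 0 := by
    intro h
    have h1 := (hz 1).1 (by rw [act_one, h])
    exact D.pr.not_isUnit (isUnit_of_dvd_one h1)
  have hpts : ∀ i, ∃ (P : Pt (WAB A B) Ω) (y₁ : Pt (WAB A B) Ω → Ω) (a : Ω),
      Ker V (act (cj π) P) ∧
      V.valuation (tt (act (cj π) P) - l * r i) < V.valuation (l : Ω) ∧
      Dc act π N V (fun s => ac (WAB A B) s P - P) ∧ KS act π N V e (fun s => ac (WAB A B) s P - P) y₁ ∧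
      Co act π l N V t (l ^ 2 + l - 1) (y₁ T₀ ^ l) a := by
    intro i
    obtain ⟨P, B₀, L, y₁, h1, h3, h4, hB, C, hL, hkum, hc₁, hy₁⟩ :=
      exists_ptu D hG he R.nb hV hvl (hr1 i).1 (hr1 i).2
    have hfd := hL.fin
    have hnf : NumberField L := NumberField.of_module_finite F L
    rw [Nm_cj, hvc] at h4
    have hm₁ := sys_of D he hc₁ hy₁
    have hlev := R.levels hm₁ (Or.inr ⟨hq, rfl⟩) (fun T hT =>
      level_ptu R hin hq he hL hB h4 C T hT (y₁ T) (hkum T hT))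
    obtain ⟨a, ha⟩ := R.co_exists (hm₁.fx T₀ hT₀) (hlev T₀ hT₀)
    exact ⟨P, y₁, a, h1, h3, hc₁, hy₁, ha⟩
  choose P y₁ a hK hTt hcD hcK hco using hpts
  have hinj : ∀ i i', i ≠ i' → ¬ V.valuation (a i - a i') < 1 := by
    intro i i' hii hlt
    have h5 := same_coef R hin hq he (hcD i) (hcD i') (hcK i) (hcK i') hT₀ hT₀0 (hco i) (hco i') hlt
    obtain ⟨X, hX, h6⟩ := cob_inert D ((hcD i).sub (hcD i')) (fun s _ hs => h5 s hs)
    exact pt_diff D hG hV hvl (hr1 i).2 (hr1 i').2 (hK i) (hK i') (hTt i) (hTt i') (hr2 i i' hii)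
      ⟨X, hX, fun s hs => h6 s (R.dec hs).1 hs⟩
  have hm := sys_of D he hc hy
  have hlev := R.levels hm (Or.inr ⟨hq, rfl⟩) h2
  obtain ⟨a₀, ha₀⟩ := R.co_exists (hm.fx T₀ hT₀) (hlev T₀ hT₀)
  obtain ⟨i, hi⟩ := H13Y.pigeon V (N : Set Ω) r a (fun x hx hxV => hr3 x hx hxV) (fun i => (hco i).1) hinj
    ha₀.1.1 ha₀.1.2
  have h5 := same_coef R hin hq he hc (hcD i) hy (hcK i) hT₀ hT₀0 ha₀ (hco i) hi
  obtain ⟨X, hX, h6⟩ := cob_ram D (hc.sub (hcD i)) (fun s _ hs => h5 s hs) (by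
    obtain ⟨σ, h6, h7⟩ := moved_ram D.cma hG (cj_prime D.pr) (xp_nm D).2 hV
    exact ⟨σ, (R.dec h6).1, h6, h7⟩)
  refine ⟨P i + X, fun s hs => ?_⟩
  have h7 : c s - (ac (WAB A B) s (P i) - P i) = ac (WAB A B) s X - X := h6 s hs
  rw [map_add, sub_eq_iff_eq_add.1 h7]
  abel

end H13X
end

-- from Lib.H13X.XG3
section

/-! # H13X: the local conditions of the global class over N -/

open NumberField IsDedekindDomain WeierstrassCurve

namespace H13X

open H55P (IQ embF eF LF Per IsHecke Pt ac Inert Dec Nm Coc)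
open H35P (WAB Ker tt)
open H55K (Tor ak xc yc CMA Dta GV GMod cj cj_cj mul_cj cj_prime cj_dvd cj_nat Nm_cj Nm_mul Nm_nat)
open H55K.S
open H13S (Abv)

variable {F : Type} [Field F] [NumberField F] [IQ F] {A B : F} {Om : ℂ} {Ω : Type} [Field Ω] [DecidableEq Ω]
  [Algebra F Ω] [IsAlgClosure F Ω] {j : Ω →+* ℂ} {act : 𝓞 F →+* AddMonoid.End (Pt (WAB A B) Ω)} {mo : Ideal (𝓞 F)}
  {ψ : Ideal (𝓞 F) →*₀ 𝓞 F}

variable {π : 𝓞 F} {l : ℕ} {e : Pt (WAB A B) Ω → Pt (WAB A B) Ω → Ω} {N L : IntermediateField F Ω} [NumberField N]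
  {w : HeightOneSpectrum (𝓞 N)} {c : (Ω ≃ₐ[F] Ω) → Pt (WAB A B) Ω} {y : Pt (WAB A B) Ω → Ω} {V : ValuationSubring Ω}

omit [IQ F] [DecidableEq Ω] in
/-- V is a nontrivial valuation ring: it lies above a prime of K. -/
theorem xg3_below (K : IntermediateField F Ω) [NumberField K] (hV : V ≠ ⊤) : ∃ w : HeightOneSpectrum (𝓞 K), Abv K V w := by
  have hac : IsAlgClosed Ω := IsAlgClosure.isAlgClosed F
  have halg : Algebra.IsAlgebraic F Ω := IsAlgClosure.isAlgebraic
  have hch : CharZero Ω := charZero_of_injective_algebraMap (algebraMap F Ω).injective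
  by_cases hLV : ∃ x : K, (x : Ω) ∉ V
  · exact H13S.exists_below K V hLV
  · exfalso
    push Not at hLV
    have htop : ∀ x : Ω, x ∈ V := H55P.s13_top K V (by
      intro x hx
      have hx0 : ((x : K) : Ω) ≠ 0 := by
        intro h
        apply hx
        have h1 : (x : K) = 0 := by exact_mod_cast h
        exact RingOfIntegers.coe_injective (h1.trans (map_zero _).symm)
      have h1 := (V.valuation_le_one_iff _).2 (hLV (x : K))
      have h2 := (V.valuation_le_one_iff _).2 (hLV ((x : K)⁻¹))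
      have e : (((x : K)⁻¹ : K) : Ω) = ((x : K) : Ω)⁻¹ := rfl
      rw [e, map_inv₀, inv_le_one₀ (zero_lt_iff.2 ((map_ne_zero _).2 hx0))] at h2
      exact le_antisymm h1 h2)
    exact hV (top_unique fun x _ => htop x)

/-- The local condition above l. -/
theorem Gl.above (G : Gl A B Om j act mo ψ π l e N L w c y) (he : Pairing A B act π l e) (hV : V.valuation (l : Ω) < 1) :
    ∃ P : Pt (WAB A B) Ω, ∀ s, DecN N V s → c s = ac (WAB A B) s P - P := by
  have D := G.D
  have hl5 := D.five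
  have hdc : Dc act π N V c := dc_of_cc G.cc fun s hs => hs.1
  have hks : KS act π N V e c y := ks_of_kum G.tb (fun s hs => hs.1) G.kum
  have hVt : V ≠ ⊤ := by
    rintro rfl
    have h1 : (⊤ : ValuationSubring Ω).valuation (l : Ω) ≠ 0 := by
      rw [Ne, map_eq_zero]
      have hchar : CharZero Ω := charZero_of_injective_algebraMap (algebraMap F Ω).injective
      exact_mod_cast D.hl.ne_zero
    have h2 : (⊤ : ValuationSubring Ω).valuation ((l : Ω)⁻¹) ≤ 1 :=
      ((⊤ : ValuationSubring Ω).valuation_le_one_iff _).2 (ValuationSubring.mem_top _)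
    rw [map_inv₀, inv_le_one₀ (zero_lt_iff.2 h1)] at h2
    exact absurd hV (not_lt.2 h2)
  have hFx : ∀ x ∈ L, Hx act π N V x := by
    intro x hx s hs
    exact (IntermediateField.mem_fixingSubgroup_iff L s).1 ((G.tb.fix s).2 ⟨hs.1.1, hs.2⟩) x hx
  have hlvo : vo V (l : 𝓞 F) < 1 := by
    rw [vo_nat]
    exact hV
  by_cases hπ : vo V π < 1
  · obtain ⟨-, T₀, hT₀, -, hT₀a⟩ := gi_gen D.cma π D.pr
    have hT₀0 : T₀ ≠ 0 := by
      rintro rfl
      have h1 := (hT₀a 1).1 (map_zero _)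
      exact D.pr.not_isUnit (isUnit_of_dvd_one h1)
    have hlev : ∀ T ∈ Tor act π, Lv act π l N V (V.valuation (tt T₀) ^ 2) (y T ^ l) := by
      intro T hT
      obtain ⟨z, hz, hz0, hz1⟩ := G.lev V hπ T hT T₀ hT₀ hT₀0
      exact ⟨z, hFx z hz, hz0, hz1⟩
    rcases dichotomy D.hl D.dta.unr D.pr D.dvd with ⟨hin, hq, -⟩ | ⟨hnd, -, hq, -⟩
    · have R : RV A B Om j act mo ψ π l N V (tt T₀) (l + 1) := ⟨⟨D, hπ, ⟨T₀, hT₀, hT₀0, rfl⟩, by
        rw [hq]
        obtain ⟨k, rfl⟩ : ∃ k, l = k + 1 := ⟨l - 1, by omega⟩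
        rw [Nat.add_sub_cancel]
        have : (k + 1) ^ 2 = (k + 1 + 1) * k + 1 := by ring
        omega⟩, G.nb⟩
      exact loc_inert R hq he hdc hks hlev
    · have R : RV A B Om j act mo ψ π l N V (tt T₀) 1 := ⟨⟨D, hπ, ⟨T₀, hT₀, hT₀0, rfl⟩, by rw [hq, one_mul]⟩, G.nb⟩
      have hlev2 := R.levels (sys_of D he hdc hks) (Or.inl ⟨hq, rfl⟩) hlev
      have h0 := top_zero R he hdc hks (by rw [mul_one]; exact hlev2)
      obtain ⟨v, hv⟩ := xg3_below (F := F) N hVt
      obtain ⟨P, hP⟩ := loc_zero D G.cc hv (fun hVl s hs => G.nb.inert V hVl s hs) fun s _ hs => h0 s hs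
      exact ⟨P, fun s hs => hP s hs.1 hs.2⟩
  · have hcj : vo V (cj π) < 1 := by
      rcases dichotomy D.hl D.dta.unr D.pr D.dvd with ⟨-, -, h3⟩ | ⟨-, -, -, h3⟩
      · exfalso
        apply hπ
        rw [← vo_assoc V h3 (fun x => vo_le V x)]
        exact hlvo
      · rw [← h3, vo_mul] at hlvo
        have h1 : vo V π = 1 := le_antisymm (vo_le V π) (not_lt.1 hπ)
        rwa [h1, one_mul] at hlvo
    have hnd : ¬ π ∣ cj π := by
      rintro ⟨x, hx⟩
      have h1 : vo V π = 1 := le_antisymm (vo_le V π) (not_lt.1 hπ)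
      rcases dichotomy D.hl D.dta.unr D.pr D.dvd with ⟨h3, -, -⟩ | ⟨h3, -⟩
      · rw [vo_assoc V h3 (fun x => vo_le V x), h1] at hcj
        exact lt_irrefl _ hcj
      · exact h3 ⟨x, hx⟩
    obtain ⟨φ, q, n, U⟩ := exists_UV D G.nb hnd hcj
    refine loc_conj U he hdc hks fun T hT => ?_
    have hnw : ¬ Abv N V w := fun h => by
      rw [G.val_w h] at hV
      exact lt_irrefl _ hV
    obtain ⟨x, hx, hx0, hxv⟩ := G.out V hnw T hT
    obtain ⟨k, hk⟩ := U.values (hFx x hx) hx0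
    exact ⟨k, hxv.trans hk⟩

/-- The local conditions over N'. -/
theorem Gl.local (G : Gl A B Om j act mo ψ π l e N L w c y) (he : Pairing A B act π l e) {N' : IntermediateField F Ω}
    [NumberField N'] (hNN : N ≤ N')
    (hK : ∀ V : ValuationSubring Ω, Abv N V w → ∀ a ∈ N, a ≠ 0 → ∃ x ∈ N', V.valuation x ^ l = V.valuation a)
    (hV : V ≠ ⊤) : ∃ P : Pt (WAB A B) Ω, ∀ s ∈ N'.fixingSubgroup, Dec V s → c s = ac (WAB A B) s P - P := by
  have hfix : ∀ s ∈ N'.fixingSubgroup, s ∈ N.fixingSubgroup := by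
    intro s hs
    rw [IntermediateField.mem_fixingSubgroup_iff] at hs ⊢
    exact fun x hx => hs x (hNN hx)
  by_cases hlV : V.valuation (l : Ω) < 1
  · obtain ⟨P, hP⟩ := G.above he hlV
    exact ⟨P, fun s hs hsD => hP s ⟨hfix s hs, hsD⟩⟩
  · have hlV1 : V.valuation (l : Ω) = 1 := by
      apply le_antisymm _ (not_lt.1 hlV)
      have h1 := vo_le V (l : 𝓞 F)
      rwa [vo_nat] at h1
    by_cases hw : Abv N V w
    · have C' : Cc act π N' c := ⟨fun s hs t ht => G.cc.mul s (hfix s hs) t (hfix t ht), by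
        obtain ⟨M, hM, h1⟩ := G.cc.cont
        exact ⟨M, hM, fun s hs => h1 s (hfix s hs)⟩, fun s hs => G.cc.val s (hfix s hs)⟩
      obtain ⟨v, hv⟩ := xg3_below (F := F) N' hV
      exact loc_zero G.D C' hv (fun h => absurd h hlV) fun s hs hj => G.kill he hw hNN (hK V hw) hs hj.1
    · obtain ⟨v, hv⟩ := xg3_below (F := F) N hV
      obtain ⟨P, hP⟩ := loc_zero G.D G.cc hv (fun h => absurd h hlV) fun s hs hj =>
        G.inert he hlV1 hw hj.1 ((G.tb.fix s).2 ⟨hs, hj.2.1⟩)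
      exact ⟨P, fun s hs hsD => hP s (hfix s hs) hsD⟩

end H13X
end

-- from Lib.H13X.XS
section

/-! # H13X: one step of degree l, and the chain -/

open NumberField IsDedekindDomain WeierstrassCurve

namespace H13X

open H55P (IQ embF eF LF Per IsHecke Pt ac Inert Dec Nm Coc PExt UnrP Ram RamF)
open H35P (WAB Ker tt)
open H55K (Tor ak xc yc CMA Dta GV GMod cj cj_cj mul_cj cj_prime cj_dvd cj_nat Nm_cj Nm_mul Nm_nat)
open H55K (Abw exists_abw)
open H55K.S
open H55R (Pl)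
open H13S (Abv)
open H13Z (SelNon)

variable {F : Type} [Field F] [NumberField F] [IQ F] {A B : F} {Om : ℂ} {Ω : Type} [Field Ω] [DecidableEq Ω]
  [Algebra F Ω] [IsAlgClosure F Ω] {j : Ω →+* ℂ} {act : 𝓞 F →+* AddMonoid.End (Pt (WAB A B) Ω)} {mo : Ideal (𝓞 F)}
  {ψ : Ideal (𝓞 F) →*₀ 𝓞 F} {π : 𝓞 F} {l : ℕ}

/-- Inertia above a prime element β above l moves all points killed by β. -/
theorem xs_moved (D : Dat A B Om j act mo ψ π l) {K : IntermediateField F Ω} (hK : Nb l K) {β : 𝓞 F} (hβ : Prime β)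
    (hd : β ∣ (l : 𝓞 F)) {T : Pt (WAB A B) Ω} (hT : T ∈ Tor act β)
    (h : ∀ s ∈ K.fixingSubgroup, ac (WAB A B) s T = T) : T = 0 := by
  have hp : (Ideal.span {β}).IsPrime := (Ideal.span_singleton_prime hβ.ne_zero).2 hβ
  let v : Pl F := ⟨Ideal.span {β}, hp, by rw [Ne, Ideal.span_singleton_eq_bot]; exact hβ.ne_zero⟩
  obtain ⟨V, hV⟩ := exists_abw Ω v
  have hVβ : vo V β < 1 := by
    have h1 := (hV.lt (β : F)).2 ((v.valuation_lt_one_iff_mem β).2 (Ideal.mem_span_singleton_self β))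
    exact h1
  have hVl : V.valuation (l : Ω) < 1 := by
    obtain ⟨c, hc⟩ := hd
    have h1 : vo V (l : 𝓞 F) = vo V β * vo V c := by rw [hc, vo_mul]
    rw [← vo_nat (F := F), h1]
    exact lt_of_le_of_lt (mul_le_of_le_one_right' (vo_le V c)) hVβ
  have hN := H55K.k10_arith D.hl D.five hβ hd
  obtain ⟨s, hs, hs'⟩ := moved_ram D.cma (D.dta.good V hVl) hβ (by omega) hVβ
  exact hs' T hT (h s (hK.inert V hVl s hs))

/-- Points killed by l and fixed by the group of K are zero. -/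
theorem no_tors (D : Dat A B Om j act mo ψ π l) {K : IntermediateField F Ω} (hK : Nb l K) {R : Pt (WAB A B) Ω}
    (hR : l • R = 0) (h : ∀ s ∈ K.fixingSubgroup, ac (WAB A B) s R = R) : R = 0 := by
  have hlR : act (l : 𝓞 F) R = 0 := by rw [act_nat (act := act), hR]
  rcases dichotomy D.hl D.dta.unr D.pr D.dvd with ⟨-, -, h3⟩ | ⟨-, -, -, hll⟩
  · refine xs_moved D hK D.pr D.dvd ?_ h
    rw [← tor_assoc h3]
    exact hlR
  · have hd' : cj π ∣ (l : 𝓞 F) := by rw [cj_dvd, cj_nat]; exact D.dvd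
    have h1 : act (cj π) R = 0 := by
      refine xs_moved D hK D.pr D.dvd ?_ fun s hs => ?_
      · rw [mem_Tor, ← act_mul, hll]
        exact hlR
      · rw [ac_act D.cma, h s hs]
    exact xs_moved D hK (cj_prime D.pr) hd' h1 h

/-- One step. -/
theorem sel_step (D : Dat A B Om j act mo ψ π l) {N N' L₀ : IntermediateField F Ω} [NumberField N] [NumberField N']
    [NumberField L₀] (hL : PExt l ⊥ L₀) (hU : UnrP l L₀) (hNN : N ≤ N') (hNL : N' ≤ L₀)
    (hn : ∀ s ∈ N.fixingSubgroup, ∀ x ∈ N', s x ∈ N')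
    (hd : Module.finrank F N' = Module.finrank F N * l) {w : HeightOneSpectrum (𝓞 N)}
    (hlw : (l : 𝓞 N) ∉ w.asIdeal) (hr : Ram N N' w.asIdeal)
    (hfx : ∀ V : ValuationSubring Ω, Abv N V w → ∀ s, DecN N V s → ∀ T ∈ Tor act π, ac (WAB A B) s T = T) :
    SelNon (WAB A B) l N' := by
  have hL₀f : FiniteDimensional F L₀ := hL.fin
  have hN'f : FiniteDimensional F N' := H55P.finDim_of_le hNL
  have hNf : FiniteDimensional F N := H55P.finDim_of_le (hNN.trans hNL)
  have hN : Nb l N := nb_of D.hl hL (hNN.trans hNL) hU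
  have hN' : Nb l N' := nb_of D.hl hL hNL hU
  have hUN : UnrP l N := by
    letI : Algebra N L₀ := (IntermediateField.inclusion (hNN.trans hNL)).toRingHom.toAlgebra
    exact H55P.UnrP.down N L₀ l D.hl hU
  obtain ⟨L, hLT⟩ := exists_TB D.cma π D.pr N
  have hLf : FiniteDimensional F L := hLT.fin
  have hLn : NumberField L := NumberField.of_module_finite F L
  obtain ⟨m, hm⟩ := exists_GN D hLT hUN hlw hfx
  obtain ⟨e, he⟩ := exists_pairing π l D.dta D.pr D.dvd
  obtain ⟨c, y, G⟩ := exists_gl D he hN hLT hlw hfx hm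
  have hmono : ∀ s ∈ N'.fixingSubgroup, s ∈ N.fixingSubgroup := fun s hs =>
    IntermediateField.fixingSubgroup_antitone hNN hs
  refine ⟨c, ⟨fun s hs t ht => G.cc.mul s (hmono s hs) t (hmono t ht), ?_⟩, fun s hs =>
    lcb_l D (G.cc.val s (hmono s hs)), fun V hV => ?_, ?_⟩
  · obtain ⟨M, hM, h2⟩ := G.cc.cont
    exact ⟨M, hM, fun s hs hsM => h2 s (hmono s hs) hsM⟩
  · exact G.local he hNN (fun V hV a ha h0 => H13Y.ram_step D.hl hNN hn hd hr hV ha h0) hV
  · rintro ⟨T, hT, h⟩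
    refine G.not_cob he ⟨T, hT, ?_⟩
    exact H13Y.cob_down (WAB A B) l hNN hn (fun R hR hfix => no_tors D hN' hR hfix)
      G.cc.mul (fun s hs => lcb_l D (G.cc.val s hs)) hT h

omit [IsAlgClosure F Ω] [IQ F] in
/-- v₀ unramified in N and ramified in K: some prime w of N above v₀ is ramified in K. -/
theorem ram_up {N K : IntermediateField F Ω}
    [NumberField N] [NumberField K] (hNK : N ≤ K) (v₀ : HeightOneSpectrum (𝓞 F)) (hK : RamF K v₀.asIdeal)
    (hN : ¬ RamF N v₀.asIdeal) : ∃ w : HeightOneSpectrum (𝓞 N),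
      w.asIdeal.under (𝓞 F) = v₀.asIdeal ∧ Ram N K w.asIdeal := by
  obtain ⟨W, hWp, hW⟩ := hK
  letI : Algebra N K := (IntermediateField.inclusion hNK).toRingHom.toAlgebra
  have t1 : IsScalarTower F N K := IsScalarTower.of_algebraMap_eq fun x => rfl
  rw [Ideal.map_le_iff_le_comap] at hW
  obtain ⟨w, hw1, hw2, h | h⟩ := H55P.i3_tower (M := F) (N := N) (K := K) v₀ W fun x hx => hW hx
  · exact absurd ⟨w.asIdeal, w.isPrime, by
      rw [Ideal.map_le_iff_le_comap]
      exact fun x hx => h x hx⟩ hN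
  · refine ⟨w, hw2, W, hWp, fun x y hx hxy => ?_⟩
    have hl : W.LiesOver w.asIdeal := ⟨hw1.symm⟩
    have h2 := H55P.s13_le_sq w.asIdeal w.ne_bot W h x hx
    have h3 : y = algebraMap (𝓞 N) (𝓞 K) x := by
      apply RingOfIntegers.ext
      apply Subtype.ext
      exact hxy
    rw [h3]
    exact h2

/-- THEOREM X: v₀ is not above l and ramified in K, and the decomposition group of V₀ above v₀ fixes the points killed by π. -/
theorem x_core (D : Dat A B Om j act mo ψ π l) {L₀ : IntermediateField F Ω} [NumberField L₀] (hL : PExt l ⊥ L₀)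
    (hU : UnrP l L₀) (K : IntermediateField F Ω) [NumberField K] (hKL : K ≤ L₀) {v₀ : HeightOneSpectrum (𝓞 F)}
    (hr : RamF K v₀.asIdeal) (hl : (l : 𝓞 F) ∉ v₀.asIdeal) {V₀ : ValuationSubring Ω} (hV₀ : Abw V₀ v₀)
    (hfx : ∀ s, Dec V₀ s → ∀ T ∈ Tor act π, ac (WAB A B) s T = T) : SelNon (WAB A B) l K := by
  have hL₀f : FiniteDimensional F L₀ := hL.fin
  have hcl0 : IsAlgClosed Ω := IsAlgClosure.isAlgClosed F
  have hal0 : Algebra.IsAlgebraic F Ω := IsAlgClosure.isAlgebraic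
  have hc0 : CharZero Ω := charZero_of_injective_algebraMap (algebraMap F Ω).injective
  have hbn : NumberField (⊥ : IntermediateField F Ω) := NumberField.of_module_finite F _
  obtain ⟨n, hn⟩ : ∃ n, Module.finrank F K = n := ⟨_, rfl⟩
  induction n using Nat.strong_induction_on generalizing K with
  | _ n ih =>
    have hKf : FiniteDimensional F K := H55P.finDim_of_le hKL
    have hne : K ≠ ⊥ := by
      rintro rfl
      obtain ⟨v, -, h2, -⟩ := H55P.bot_conv' (⟨0, 0, 0, 0, 0⟩ : WeierstrassCurve (𝓞 F)) (⊥ : IntermediateField F Ω) v₀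
      exact H55P.ram_self _ v (h2 hr)
    obtain ⟨N, -, hNK, hd, hnorm⟩ := H55P.chain_step l D.hl ⊥ K L₀ hL bot_le hKL hne
    have hNf : FiniteDimensional F N := H55P.finDim_of_le hNK
    have hNn : NumberField N := NumberField.of_module_finite F N
    have hlt : Module.finrank F N < n := by
      have h0 : 0 < Module.finrank F N := Module.finrank_pos
      have h2 := D.hl.two_le
      rw [← hn, hd]
      nlinarith
    have hKN : Nb l K := nb_of D.hl hL hKL hU
    by_cases hrN : RamF N v₀.asIdeal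
    · exact H13Y.non_up (WAB A B) l hNK hnorm (fun R hR hfix => no_tors D hKN hR hfix)
        (ih _ hlt N (hNK.trans hKL) hrN rfl)
    · obtain ⟨w, hw, hram⟩ := ram_up hNK v₀ hr hrN
      have hlw : (l : 𝓞 N) ∉ w.asIdeal := by
        intro h
        apply hl
        rw [← hw, Ideal.mem_under, map_natCast]
        exact h
      refine sel_step D hL hU hNK hKL hnorm hd hlw hram fun V hV s hs T hT => ?_
      have hVv : Abw V v₀ := by
        have h1 : Abw V w := hV
        exact h1.below (K := F) (HeightOneSpectrum.ext hw)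
      obtain ⟨σ, hσ⟩ := trans_F hV₀ hVv
      have hD : Dec V₀ (σ⁻¹ * s * σ) := by
        intro x
        have h1 := hσ (σ⁻¹ (s (σ x)))
        have h2 : σ (σ⁻¹ (s (σ x))) = s (σ x) := σ.apply_symm_apply _
        rw [h2] at h1
        exact h1.symm.trans ((hs.2 (σ x)).trans (hσ x))
      have h3 := hfx _ hD (ac (WAB A B) σ⁻¹ T) (ac_mem D.cma σ⁻¹ hT)
      rw [← ac_mul, show σ⁻¹ * s * σ * σ⁻¹ = σ⁻¹ * s by group, ac_mul] at h3
      have h4 := congrArg (ac (WAB A B) σ) h3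
      have h5 : ∀ P, ac (WAB A B) σ (ac (WAB A B) σ⁻¹ P) = P := fun P => by
        rw [← ac_mul, mul_inv_cancel, ac_one]
      rwa [h5, h5] at h4

end H13X
end

-- from Lib.H13R.G4
section

/-! # H13R: one step of degree l, and the chain, over M -/

open NumberField IsDedekindDomain WeierstrassCurve

namespace H13R

open H55P (IQ embF eF LF Per IsHecke Pt ac Inert Dec Nm Coc PExt UnrP Ram RamF)
open H35P (WAB Ker tt)
open H55K (Tor ak xc yc CMA Dta GV GMod cj cj_cj mul_cj cj_prime cj_dvd cj_nat Nm_cj Nm_mul Nm_nat)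
open H55K (Abw exists_abw)
open H55K.S
open H55R (Pl)
open H13S (Abv)
open H13Z (SelNon)
open H13X

section step

variable {F : Type} [Field F] [NumberField F] [IQ F] {A B : F} {Om : ℂ} {Ω : Type} [Field Ω] [DecidableEq Ω]
  [Algebra F Ω] [IsAlgClosure F Ω] {j : Ω →+* ℂ} {act : 𝓞 F →+* AddMonoid.End (Pt (WAB A B) Ω)} {mo : Ideal (𝓞 F)}
  {ψ : Ideal (𝓞 F) →*₀ 𝓞 F} {π : 𝓞 F} {l : ℕ}


omit [IsAlgClosure F Ω] [IQ F] in
/-- v unramified in N and ramified in K: some prime w of N above v is ramified in K. -/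
theorem ram_upR {M N K : IntermediateField F Ω}
    [NumberField M] [NumberField N] [NumberField K] (hMN : M ≤ N) (hNK : N ≤ K) (v : HeightOneSpectrum (𝓞 M))
    (hK : Ram M K v.asIdeal) (hN : ¬ Ram M N v.asIdeal) : ∃ w : HeightOneSpectrum (𝓞 N),
      (∀ (x : 𝓞 M) (y : 𝓞 N), ((y : N) : Ω) = ((x : M) : Ω) → (x ∈ v.asIdeal ↔ y ∈ w.asIdeal)) ∧ Ram N K w.asIdeal := by
  obtain ⟨W, hWp, hW⟩ := hK
  letI : Algebra M N := (IntermediateField.inclusion hMN).toRingHom.toAlgebra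
  letI : Algebra N K := (IntermediateField.inclusion hNK).toRingHom.toAlgebra
  letI : Algebra M K := (IntermediateField.inclusion (hMN.trans hNK)).toRingHom.toAlgebra
  have t1 : IsScalarTower M N K := IsScalarTower.of_algebraMap_eq fun x => rfl
  obtain ⟨w, hw1, hw2, h | h⟩ := H55P.i3_tower (M := M) (N := N) (K := K) v W fun x hx => hW x _ hx rfl
  · refine absurd ⟨w.asIdeal, w.isPrime, fun x y hx hxy => ?_⟩ hN
    have h3 : y = algebraMap (𝓞 M) (𝓞 N) x := by
      apply RingOfIntegers.ext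
      apply Subtype.ext
      exact hxy
    rw [h3]
    exact h x hx
  · refine ⟨w, fun x y hxy => ?_, W, hWp, fun x y hx hxy => ?_⟩
    · have h3 : y = algebraMap (𝓞 M) (𝓞 N) x := by
        apply RingOfIntegers.ext
        apply Subtype.ext
        exact hxy
      rw [h3, ← hw2]
      rfl
    · have hl : W.LiesOver w.asIdeal := ⟨hw1.symm⟩
      have h2 := H55P.s13_le_sq w.asIdeal w.ne_bot W h x hx
      have h3 : y = algebraMap (𝓞 N) (𝓞 K) x := by
        apply RingOfIntegers.ext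
        apply Subtype.ext
        exact hxy
      rw [h3]
      exact h2

end step

section chain

variable {F : Type} [Field F] [NumberField F] [IQ F] {A B : F} {Om : ℂ} [DecidableEq (AlgebraicClosure F)]
  {j : AlgebraicClosure F →+* ℂ} {act : 𝓞 F →+* AddMonoid.End (Pt (WAB A B) (AlgebraicClosure F))} {mo : Ideal (𝓞 F)}
  {ψ : Ideal (𝓞 F) →*₀ 𝓞 F} {π : 𝓞 F} {l : ℕ}

/-- The prime of M below. -/
theorem abv_downR {M N : IntermediateField F (AlgebraicClosure F)} [NumberField M] [NumberField N] (hMN : M ≤ N)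
    {V : ValuationSubring (AlgebraicClosure F)} {v : HeightOneSpectrum (𝓞 M)} {w : HeightOneSpectrum (𝓞 N)}
    (h : ∀ (x : 𝓞 M) (y : 𝓞 N), ((y : N) : AlgebraicClosure F) = ((x : M) : AlgebraicClosure F) → (x ∈ v.asIdeal ↔ y ∈ w.asIdeal))
    (hV : Abv N V w) : Abv M V v := by
  let _ : Algebra M N := (IntermediateField.inclusion hMN).toRingHom.toAlgebra
  have t : IsScalarTower M N (AlgebraicClosure F) := IsScalarTower.of_algebraMap_eq fun x => rfl
  have h1 : Abw V w := hV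
  exact h1.below (K := M) (v := v) (HeightOneSpectrum.ext (by
    ext x
    exact (h x (algebraMap (𝓞 M) (𝓞 N) x) rfl).symm))


end chain

end H13R
end

-- from Lib.H13X.XF
section

/-! # H13X: a bad ramified prime gives a nonzero Selmer class, for all curves with complex multiplication -/

open NumberField IsDedekindDomain WeierstrassCurve

namespace H13X

open H55P (IQ embF eF LF Per IsHecke Pt ac Inert Dec Nm Coc PExt UnrP Ram RamF pt8_norm)
open H35P (WAB Ker tt)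
open H55K (Tor ak xc yc CMA Dta GV GMod cj cj_cj mul_cj cj_prime cj_dvd cj_nat Nm_cj Nm_mul Nm_nat)
open H55K (Abw exists_abw)
open H55K.S
open H55R (Pl)
open H13S (Abv)
open H13Z (SelNon)
open H55K.TQ (BaseH PrimeH NoAn)

section away

variable {F : Type} [Field F] [NumberField F] [IQ F] {Ω : Type} [Field Ω] [DecidableEq Ω] [Algebra F Ω]
  [IsAlgClosure F Ω]

omit [IQ F] [DecidableEq Ω] [IsAlgClosure F Ω] in
theorem xf_small {p q n : ℕ} (hp : p.Prime) (h5 : 5 ≤ p) (hq : q = 2 ∨ q = 3) (hn : n ≠ 1) (hd : n ∣ q ^ 2) (h : p ∣ n - 1) :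
    False := by
  rcases hq with rfl | rfl
  · obtain ⟨k, hk, rfl⟩ := (Nat.dvd_prime_pow Nat.prime_two).1 hd
    have hk0 : k ≠ 0 := by rintro rfl; exact hn rfl
    have : k = 1 ∨ k = 2 := by omega
    rcases this with rfl | rfl
    · have := Nat.le_of_dvd (by norm_num) h
      omega
    · have := Nat.le_of_dvd (by norm_num) h
      omega
  · obtain ⟨k, hk, rfl⟩ := (Nat.dvd_prime_pow Nat.prime_three).1 hd
    have hk0 : k ≠ 0 := by rintro rfl; exact hn rfl
    have : k = 1 ∨ k = 2 := by omega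
    rcases this with rfl | rfl
    · have := Nat.le_of_dvd (by norm_num) h
      omega
    · have h8 : p ∣ 2 ^ 3 := by simpa using h
      have := (Nat.prime_dvd_prime_iff_eq hp Nat.prime_two).1 (hp.dvd_of_dvd_pow h8)
      omega

/-- A prime which is ramified in a subfield K of a p-extension is prime to 6 and to p if p is unramified. -/
theorem xf_away {p : ℕ} (hp : p.Prime) (h5 : 5 ≤ p) {L K : IntermediateField F Ω} [NumberField L] [NumberField K]
    (hL : PExt p ⊥ L) (hU : UnrP p L) (hKL : K ≤ L) (v₀ : HeightOneSpectrum (𝓞 F)) (hr : RamF K v₀.asIdeal) :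
    (2 : 𝓞 F) ∉ v₀.asIdeal ∧ (3 : 𝓞 F) ∉ v₀.asIdeal ∧ (p : 𝓞 F) ∉ v₀.asIdeal := by
  have hcl0 : IsAlgClosed Ω := IsAlgClosure.isAlgClosed F
  have hal0 : Algebra.IsAlgebraic F Ω := IsAlgClosure.isAlgebraic
  have hc0 : CharZero Ω := charZero_of_injective_algebraMap (algebraMap F Ω).injective
  have hbn : NumberField (⊥ : IntermediateField F Ω) := NumberField.of_module_finite F _
  have hUK : UnrP p K := by
    let _ : Algebra K L := (IntermediateField.inclusion hKL).toAlgebra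
    exact H55P.UnrP.down K L p hp hU
  obtain ⟨v, h1⟩ := H55K.y9_up (F := F) (Ω := Ω) v₀
  have hram := (H55K.y9_ram h1 K).2 hr
  have hn := H55P.ram_norm p hp ⊥ L hL K bot_le hKL hUK v hram
  have hnorm : Ideal.absNorm v.asIdeal = Ideal.absNorm v₀.asIdeal := by
    rw [← Ideal.absNorm_relNorm (𝓞 F) (𝓞 (⊥ : IntermediateField F Ω)) v.asIdeal, H55K.y9_norm h1]
  rw [hnorm] at hn
  have hne : Ideal.absNorm v₀.asIdeal ≠ 1 := by
    rw [Ne, Ideal.absNorm_eq_one_iff]
    exact v₀.isPrime.ne_top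
  have hdvd : ∀ q : ℕ, (q : 𝓞 F) ∈ v₀.asIdeal → Ideal.absNorm v₀.asIdeal ∣ q ^ 2 := by
    intro q hq
    have h2 : Ideal.absNorm (Ideal.span {(q : 𝓞 F)}) = q ^ 2 := Nm_nat q
    rw [← h2]
    apply map_dvd
    rw [Ideal.dvd_iff_le, Ideal.span_singleton_le_iff_mem]
    exact hq
  refine ⟨fun h => ?_, fun h => ?_, H55K.y9_unr K hUK hr⟩
  · exact xf_small hp h5 (Or.inl rfl) hne (hdvd 2 (by exact_mod_cast h)) hn
  · exact xf_small hp h5 (Or.inr rfl) hne (hdvd 3 (by exact_mod_cast h)) hn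

end away

section transport

variable {F : Type} [Field F] [NumberField F] [IQ F]

omit [NumberField F] [IQ F] in
theorem xf_transport {Ω : Type} [Field Ω] [DecidableEq Ω] [Algebra F Ω] {W W' : WeierstrassCurve F} (p : ℕ)
    (K : IntermediateField F Ω) (φ : Pt W Ω ≃+ Pt W' Ω) (hφ : ∀ s P, φ (ac W s P) = ac W' s (φ P))
    (h : SelNon W' p K) : SelNon W p K := by
  obtain ⟨c, hc, hp, hV, hn⟩ := h
  have hφ' : ∀ s P, φ.symm (ac W' s P) = ac W s (φ.symm P) := by
    intro s P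
    apply φ.injective
    rw [hφ, φ.apply_symm_apply, φ.apply_symm_apply]
  refine ⟨fun s => φ.symm (c s), ⟨?_, ?_⟩, fun s hs => ?_, fun V hVt => ?_, ?_⟩
  · intro s hs t ht
    show φ.symm (c (s * t)) = φ.symm (c s) + ac W s (φ.symm (c t))
    rw [hc.mul s hs t ht, map_add, hφ']
  · obtain ⟨L, hL, hL2⟩ := hc.cont
    refine ⟨L, hL, fun s hs hs2 => ?_⟩
    show φ.symm (c s) = 0
    rw [hL2 s hs hs2, map_zero]
  · show p • φ.symm (c s) = 0
    rw [← map_nsmul, hp s hs, map_zero]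
  · obtain ⟨P, hP⟩ := hV V hVt
    refine ⟨φ.symm P, fun s hs hI => ?_⟩
    show φ.symm (c s) = ac W s (φ.symm P) - φ.symm P
    rw [hP s hs hI, map_sub, hφ']
  · rintro ⟨T, hT1, hT2⟩
    refine hn ⟨φ T, by rw [← map_nsmul, hT1, map_zero], fun s hs => ?_⟩
    have h1 : φ.symm (c s) = ac W s T - T := hT2 s hs
    rw [← hφ, ← map_sub, ← h1, φ.apply_symm_apply]

theorem xf_short {F : Type} [Field F] [NumberField F] (W₀ : WeierstrassCurve (𝓞 F)) {A B : F}
    (hA : A = -(algebraMap (𝓞 F) F W₀.c₄) / 48) (hB : B = -(algebraMap (𝓞 F) F W₀.c₆) / 864)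
    (hΔ : W₀.Δ ≠ 0) {Ω : Type} [Field Ω] [DecidableEq Ω] [Algebra F Ω] (p : ℕ) (K : IntermediateField F Ω)
    (h : SelNon (WAB A B) p K) : SelNon (W₀⁄F) p K := by
  obtain ⟨W, hW⟩ : ∃ W : WeierstrassCurve F, W = (W₀⁄F) := ⟨_, rfl⟩
  have hc4 : W.c₄ = algebraMap (𝓞 F) F W₀.c₄ := by
    rw [hW]
    exact W₀.map_c₄ (algebraMap (𝓞 F) F)
  have hc6 : W.c₆ = algebraMap (𝓞 F) F W₀.c₆ := by
    rw [hW]
    exact W₀.map_c₆ (algebraMap (𝓞 F) F)
  have hWΔ : W.Δ ≠ 0 := by
    rw [hW]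
    intro h0
    apply hΔ
    have h1 : (W₀⁄F).Δ = algebraMap (𝓞 F) F W₀.Δ := W₀.map_Δ (algebraMap (𝓞 F) F)
    rw [h1] at h0
    exact (map_eq_zero_iff _ (IsFractionRing.injective (𝓞 F) F)).1 h0
  rw [← hc4] at hA
  rw [← hc6] at hB
  have D : H55P.PS4_D W (WAB A B) ((W.a₂ + (W.a₁ / 2) ^ 2) / 3) (W.a₁ / 2) (W.a₃ / 2) := by
    refine ⟨rfl, rfl, rfl, ?_, ?_, ?_, ?_, ?_⟩
    · field_simp
    · field_simp
    · field_simp
    · show A = _
      rw [hA, WeierstrassCurve.c₄, WeierstrassCurve.b₂, WeierstrassCurve.b₄]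
      ring
    · show B = _ - A * _
      rw [hB, hA, WeierstrassCurve.c₄, WeierstrassCurve.c₆, WeierstrassCurve.b₂, WeierstrassCurve.b₄, WeierstrassCurve.b₆]
      ring
  have hd := H55K.y6_delta D
  have i1 : W.IsElliptic := ⟨isUnit_iff_ne_zero.2 hWΔ⟩
  have i2 : (WAB A B).IsElliptic := ⟨isUnit_iff_ne_zero.2 (by rw [hd]; exact hWΔ)⟩
  have i3 : (W⁄Ω).IsElliptic := inferInstanceAs (W.map (algebraMap F Ω)).IsElliptic
  have i4 : ((WAB A B)⁄Ω).IsElliptic := inferInstanceAs ((WAB A B).map (algebraMap F Ω)).IsElliptic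
  rw [← hW]
  refine xf_transport p K (H55P.PS4_iso (H55P.PS4_map (Ω := Ω) D)) ?_ h
  intro f P
  rcases P with _ | ⟨x, y, h'⟩
  · rfl
  · have e1 : f (algebraMap F Ω ((W.a₂ + (W.a₁ / 2) ^ 2) / 3)) = algebraMap F Ω ((W.a₂ + (W.a₁ / 2) ^ 2) / 3) :=
      f.commutes _
    have e2 : f (algebraMap F Ω (W.a₁ / 2)) = algebraMap F Ω (W.a₁ / 2) := f.commutes _
    have e3 : f (algebraMap F Ω (W.a₃ / 2)) = algebraMap F Ω (W.a₃ / 2) := f.commutes _
    change Affine.Point.some _ _ _ = Affine.Point.some _ _ _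
    rw [Affine.Point.some.injEq]
    constructor
    · change f x + algebraMap F Ω ((W.a₂ + (W.a₁ / 2) ^ 2) / 3) = f (x + algebraMap F Ω ((W.a₂ + (W.a₁ / 2) ^ 2) / 3))
      rw [map_add, e1]
    · change f y + algebraMap F Ω (W.a₁ / 2) * f x + algebraMap F Ω (W.a₃ / 2) =
        f (y + algebraMap F Ω (W.a₁ / 2) * x + algebraMap F Ω (W.a₃ / 2))
      rw [map_add, map_add, map_mul, e2, e3]


end transport

section main

variable {F : Type} [Field F] [NumberField F] [IQ F] {W₀ : WeierstrassCurve (𝓞 F)} {Om : ℂ}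
    {m : Ideal (𝓞 F)} {ψ : Ideal (𝓞 F) →*₀ 𝓞 F} {p : ℕ}

open Classical in
/-- THEOREM X for all curves with complex multiplication. If some prime v of F not dividing the discriminant, at which the number of points is divisible by p, is
ramified in K then the classical p-Selmer group over K is not zero. -/
theorem nonsel (hH : BaseH F W₀ Om m ψ) (hp : PrimeH F W₀ p) {L K : IntermediateField F (AlgebraicClosure F)}
    [NumberField L] [NumberField K] (hL : PExt p ⊥ L) (hU : UnrP p L) (hKL : K ≤ L) (hN : ¬ NoAn p W₀ K) :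
    SelNon (W₀⁄F) p K := by
  obtain ⟨v₀, hr, hΔ, hpts⟩ : ∃ v₀ : HeightOneSpectrum (𝓞 F), RamF K v₀.asIdeal ∧ W₀.Δ ∉ v₀.asIdeal ∧
      p ∣ Nat.card (W₀⁄(𝓞 F ⧸ v₀.asIdeal)).toAffine.Point := by
    unfold NoAn at hN
    push Not at hN
    exact hN
  have hB := H55K.TQ.base_of hH hp
  obtain ⟨j, hj⟩ := H55K.exists_j F (AlgebraicClosure F)
  obtain ⟨A, hA⟩ : ∃ A : F, A = -(algebraMap (𝓞 F) F W₀.c₄) / 48 := ⟨_, rfl⟩
  obtain ⟨B, hB'⟩ : ∃ B : F, B = -(algebraMap (𝓞 F) F W₀.c₆) / 864 := ⟨_, rfl⟩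
  have hd := H55K.y3_ne W₀ hA hB' hB.data.ell
  have hper : Per F (embF F A) (embF F B) Om := by
    have e1 : embF F A = -(eF F W₀.c₄) / 48 := by
      rw [hA, map_div₀, map_neg, map_ofNat]
      rfl
    have e2 : embF F B = -(eF F W₀.c₆) / 864 := by
      rw [hB', map_div₀, map_neg, map_ofNat]
      rfl
    rw [e1, e2]
    exact hB.data.per
  obtain ⟨act, hact⟩ := H55K.exists_CMA F A B Om j hd hper hj
  have hG : ∀ V : ValuationSubring (AlgebraicClosure F),
      ∃ (Kg : AddSubgroup (Pt (WAB A B) (AlgebraicClosure F))) (u : AlgebraicClosure F),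
        GMod (WAB A B) V Kg u := fun V => H55K.exists_gmod hd (H55K.y3_j W₀ hA hB' hB.jint) V
  have hD : Dta A B Om j act m ψ p := H55K.mk_Dta hB hA hB' hact hG
  obtain ⟨h2, h3, hpv⟩ := xf_away hp.prime hp.five hL hU hKL v₀ hr
  obtain ⟨V, hV⟩ := exists_abw (AlgebraicClosure F) v₀
  have hGV : GV A B V := by
    refine lk_gv W₀ hA hB' ?_ ?_ (lk_one hV hΔ)
    · have := lk_one hV (x := ((2 : ℕ) : 𝓞 F)) (by exact_mod_cast h2)
      rw [vo_nat] at this
      exact_mod_cast this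
    · have := lk_one hV (x := ((3 : ℕ) : 𝓞 F)) (by exact_mod_cast h3)
      rw [vo_nat] at this
      exact_mod_cast this
  obtain ⟨T, hT0, hT, hf⟩ := lk_dec hact W₀ hA hB' hΔ hV hGV hp.prime hpv hpts
  obtain ⟨π, hπ, hd', hfx⟩ := lk_pi hact hp.prime hB.unr hT0 hT hf
  have D : Dat A B Om j act m ψ π p := ⟨hD, hπ, hd'⟩
  exact xf_short W₀ hA hB' hB.data.ell p K (x_core D hL hU K hKL hr hpv hV hfx)


end main

end H13X
end

-- from Lib.H13R.G6
section

/-! # H13R: a bad ramified prime gives a nonzero Selmer class, over M -/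

open NumberField IsDedekindDomain WeierstrassCurve

namespace H13R

open H55P (IQ embF eF LF Per IsHecke Pt ac Inert Dec Nm Coc PExt UnrP Ram RamF pt8_norm)
open H35P (WAB Ker tt)
open H55K (Tor ak xc yc CMA Dta GV GMod cj cj_cj mul_cj cj_prime cj_dvd cj_nat Nm_cj Nm_mul Nm_nat exists_abw)
open H55K.S
open H55R (Pl)
open H13S (Abv)
open H13Z (SelNon)
open H55K.TQ (BaseH PrimeH NoAn)
open H13X

theorem g6_ram_p {F : Type} [Field F] [NumberField F] {Ω : Type} [Field Ω] [DecidableEq Ω] [Algebra F Ω] [IsAlgClosure F Ω]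
    {p : ℕ} (hp : p.Prime) {M L K : IntermediateField F Ω} [NumberField M] [NumberField K] (hL : PExt p M L) (hMK : M ≤ K)
    (hK : K ≤ L) (hU : UnrP p K) {v : HeightOneSpectrum (𝓞 M)} (hv : Ram M K v.asIdeal) : (p : 𝓞 M) ∉ v.asIdeal := by
  have hcl0 : IsAlgClosed Ω := IsAlgClosure.isAlgClosed F
  have hal0 : Algebra.IsAlgebraic F Ω := IsAlgClosure.isAlgebraic
  have hc0 : CharZero Ω := charZero_of_injective_algebraMap (algebraMap F Ω).injective
  have hn := H55P.ram_norm p hp M L hL K hMK hK hU v hv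
  intro hpv
  have h1 : v.asIdeal ∣ Ideal.span {(p : 𝓞 M)} := by
    rw [Ideal.dvd_iff_le, Ideal.span_singleton_le_iff_mem]
    exact hpv
  have h2 := map_dvd Ideal.absNorm h1
  rw [Ideal.absNorm_span_natCast] at h2
  obtain ⟨k, -, hk⟩ := (Nat.dvd_prime_pow hp).1 h2
  have hk0 : k ≠ 0 := by
    rintro rfl
    rw [pow_zero, Ideal.absNorm_eq_one_iff] at hk
    exact v.isPrime.ne_top hk
  have h3 : p ∣ Ideal.absNorm v.asIdeal := by
    rw [hk]
    exact dvd_pow_self p hk0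
  have h4 : 0 < Ideal.absNorm v.asIdeal := by
    rw [hk]
    exact pow_pos hp.pos k
  have h5 : p ∣ 1 := by
    have h6 := Nat.dvd_sub h3 hn
    rwa [Nat.sub_sub_self h4] at h6
  exact hp.one_lt.ne' (Nat.dvd_one.1 h5)

section main

variable {F : Type} [Field F] [NumberField F] [IQ F] {W₀ : WeierstrassCurve (𝓞 F)} {Om : ℂ}
    {m : Ideal (𝓞 F)} {ψ : Ideal (𝓞 F) →*₀ 𝓞 F} {p : ℕ}


end main

end H13R
end

-- from Lib.H55K.XF
section

/-! # H55K: interface: Selmer groups over the tower (part X) -/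

open NumberField IsDedekindDomain WeierstrassCurve

namespace H55K.TQ

open H55P (IQ embF eF LF Per IsHecke Pt ac Inert Dec Nm UnitP)

variable {F : Type} [Field F] [NumberField F] [IQ F] {W₀ : WeierstrassCurve (𝓞 F)} {Om : ℂ}
    {m : Ideal (𝓞 F)} {ψ : Ideal (𝓞 F) →*₀ 𝓞 F} {p : ℕ}

open Classical in
/-- Part X (helper13). -/
theorem non_all (hH : BaseH F W₀ Om m ψ) (hp : PrimeH F W₀ p) {L K : IntermediateField F (AlgebraicClosure F)}
    [NumberField L] [NumberField K] (hL : H55P.PExt p ⊥ L) (hU : H55P.UnrP p L) (hK : K ≤ L) (hN : ¬ NoAn p W₀ K) :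
    H13Z.SelNon (W₀⁄F) p K := H13X.nonsel hH hp hL hU hK hN

end H55K.TQ
end

-- from Lib.H55K.Y8
section

/-! # H55K: the base theorem -/

open NumberField IsDedekindDomain WeierstrassCurve

namespace H55K

open H55P (IQ embF eF LF Per IsHecke Pt ac Inert Dec Nm CMData)
open H35P (WAB Ker tt)

variable {F : Type} [Field F] [NumberField F] [IQ F] {W₀ : WeierstrassCurve (𝓞 F)} {Om : ℂ}
    {m : Ideal (𝓞 F)} {ψ : Ideal (𝓞 F) →*₀ 𝓞 F} {p : ℕ}

/-- THE BASE THEOREM. If the value of the L-function at 1, divided by the period, is a p-adic unit then the p-Selmer group over F is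
zero. -/
theorem base_main (hB : Base F W₀ Om m ψ p) [NumberField (⊥ : IntermediateField F (AlgebraicClosure F))]
    (hL : H55P.ValG p Om ψ (⊥ : IntermediateField F (AlgebraicClosure F))) :
    H55P.SelG p W₀ (⊥ : IntermediateField F (AlgebraicClosure F)) := by
  classical
  obtain ⟨j, hj⟩ := exists_j F (AlgebraicClosure F)
  obtain ⟨A, hA⟩ : ∃ A : F, A = -(algebraMap (𝓞 F) F W₀.c₄) / 48 := ⟨_, rfl⟩
  obtain ⟨B, hB'⟩ : ∃ B : F, B = -(algebraMap (𝓞 F) F W₀.c₆) / 864 := ⟨_, rfl⟩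
  have hd := y3_ne W₀ hA hB' hB.data.ell
  have hper : Per F (embF F A) (embF F B) Om := by
    have e1 : embF F A = -(eF F W₀.c₄) / 48 := by
      rw [hA, map_div₀, map_neg, map_ofNat]
      rfl
    have e2 : embF F B = -(eF F W₀.c₆) / 864 := by
      rw [hB', map_div₀, map_neg, map_ofNat]
      rfl
    rw [e1, e2]
    exact hB.data.per
  obtain ⟨act, hact⟩ := exists_CMA F A B Om j hd hper hj
  have hG : ∀ V : ValuationSubring (AlgebraicClosure F),
      ∃ (Kg : AddSubgroup (Pt (WAB A B) (AlgebraicClosure F))) (u : AlgebraicClosure F),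
        GMod (WAB A B) V Kg u := fun V => exists_gmod hd (y3_j W₀ hA hB' hB.jint) V
  have hD : Dta A B Om j act m ψ p := mk_Dta hB hA hB' hact hG
  obtain ⟨Λ, hΛ⟩ := LU_of hL
  have h1 : H55P.SelZero (WAB A B) p (⊥ : IntermediateField F (AlgebraicClosure F)) :=
    selzero_xi hD fun π hπ hd => exists_XiD hD hΛ hπ hd
  exact sel_short W₀ hA hB' hB.data.ell p ⊥ h1

end H55K
end

-- from Lib.H55K.F1
section

/-! # H55K: the theorem over F -/

open NumberField IsDedekindDomain WeierstrassCurve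

namespace H55K.TQ

open H55P (IQ embF eF LF Per IsHecke Pt ac Inert Dec Nm UnitP)

variable {F : Type} [Field F] [NumberField F] [IQ F] {W₀ : WeierstrassCurve (𝓞 F)} {Om : ℂ}
    {m : Ideal (𝓞 F)} {ψ : Ideal (𝓞 F) →*₀ 𝓞 F} {p : ℕ}

/-- The Galois closure is unramified at p. -/
theorem unr_clos (hpu : H55P.UnrP p F) (hp : p.Prime) {L K : IntermediateField F (AlgebraicClosure F)} [NumberField K]
    (hL : H55P.PExt p ⊥ L) (hK : K ≤ L) (hU : H55P.UnrP p K) :
    ∃ (L' : IntermediateField F (AlgebraicClosure F)) (_ : NumberField L'), H55P.PExt p ⊥ L' ∧ K ≤ L' ∧ H55P.UnrP p L' := by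
  classical
  have hLf : FiniteDimensional F L := hL.fin
  have hbf : FiniteDimensional F (⊥ : IntermediateField F (AlgebraicClosure F)) := inferInstance
  have hbn : NumberField (⊥ : IntermediateField F (AlgebraicClosure F)) := H16C.FR_numberField _
  have hC := H55P.clos_pext p hp ⊥ K L hL bot_le hK
  have hCf : FiniteDimensional F (H55P.clos (⊥ : IntermediateField F (AlgebraicClosure F)) K) := hC.fin
  have hCn : NumberField (H55P.clos (⊥ : IntermediateField F (AlgebraicClosure F)) K) := H16C.FR_numberField _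
  refine ⟨_, hCn, hC, H55P.le_clos _ _, ?_⟩
  refine H55P.unrP_sub p hp _ hpu fun v hv hpv => ?_
  obtain ⟨v', h1⟩ := y9_up (Ω := AlgebraicClosure F) v
  have hr' := (y9_ram h1 _).2 hv
  have h3 : H55P.Ram (⊥ : IntermediateField F (AlgebraicClosure F)) K v'.asIdeal :=
    H55P.clos_ram ⊥ K L bot_le hK hL.norm v' hr'
  exact y9_unr K hU ((y9_ram h1 K).1 h3) hpv

open Classical in
/-- THE THEOREM OVER F. -/
theorem main_F (hH : BaseH F W₀ Om m ψ) (hp : PrimeH F W₀ p) [NumberField (⊥ : IntermediateField F (AlgebraicClosure F))]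
    {L K : IntermediateField F (AlgebraicClosure F)} [NumberField K] (hL : H55P.PExt p ⊥ L) (hK : K ≤ L)
    (hU : H55P.UnrP p K) :
    H55P.IntG p Om ψ K ∧
    (H55P.ValG p Om ψ K ↔ H55P.ValG p Om ψ (⊥ : IntermediateField F (AlgebraicClosure F)) ∧ NoAn p W₀ K) ∧
    (H55P.ValG p Om ψ K → H55P.SelG p W₀ K ∧ H55P.ShaG p W₀ K ∧ H55P.PtsG p W₀ K ∧ H55P.LvalG p W₀ Om K) ∧
    (¬ NoAn p W₀ K → NonG p Om ψ K ∧ H13Z.SelNon (W₀⁄F) p K) := by
  refine ⟨gen_intK hH hp hL hK hU, gen_val hH hp hL hK hU, fun hV => ?_, fun hN => ⟨non_K hH hp hL hK hU hN, ?_⟩⟩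
  · obtain ⟨h0, hN⟩ := (gen_val hH hp hL hK hU).1 hV
    obtain ⟨h1, h2, h3⟩ := sel_all hH hp hL hK hU hN (base_main (base_of hH hp) h0)
    refine ⟨h1, h2, h3, H55P.gen_lval p hp.prime W₀ Om hH.data.hecke K hV ?_⟩
    exact deuG hH.data.hecke (fun v hv _ => hH.deu v hv) (fun v hv => (hH.supp v).1 hv)
      (jint_of hH.data.per hH.data.ell) K (fun w hw => bad_K hH hp hL hK w hw)
  · obtain ⟨L', hL'n, hL', hK', hU'⟩ := unr_clos hp.unr hp.prime hL hK hU
    exact non_all hH hp hL' hU' hK' hN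

end H55K.TQ
end

-- from Lib.H55K.FB7A
section

/-! # H55K: the analytic part over K and the Hecke L-value: conclusions -/

open NumberField IsDedekindDomain WeierstrassCurve

namespace H55K.TQ

open H55P (IQ embF eF LF Per IsHecke Pt ac Inert Dec Nm UnitP)
open H35P (WAB Ker tt GoodW IntW)
open H55K.MG (VC Crd)

variable {F : Type} [Field F] [NumberField F] [IQ F] {W : WeierstrassCurve ℤ} {Om : ℂ}
    {m : Ideal (𝓞 F)} {ψ : Ideal (𝓞 F) →*₀ 𝓞 F} {p : ℕ}

/-- Chunk FB7A (S/M). IntG gives x = Φ(1)/Om^n with V(x) ≤ 1 for all V above p, so V(conj x) ≤ 1 (H55P.i5_conj, i5_above); lG_rel gives Λ; two continuations agree at 1 (ident); UnitP(shaG) = V(lG) V(#E)^2 = 1, all factors ≤ 1 (pt9_nat): V(x) = 1; Φ(1) ≠ 0. -/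
theorem val_of_an (hH : BaseH F (W⁄(𝓞 F)) Om m ψ) (hp : PrimeH F (W⁄(𝓞 F)) p) (K : Type) [Field K] [NumberField K]
    (K' : IntermediateField F (AlgebraicClosure F)) [NumberField K'] (hR : LRel W ψ K K') (hU : H55P.UnrP p K)
    (hI : H55P.IntG p Om ψ K') (hA : AnUnitG p W K) : H55P.ValG p Om ψ K' := by
  obtain ⟨Φ, hΦa, hΦs, hΦi⟩ := hI
  obtain ⟨Λ, hΛa, hΛs, -, hΛv⟩ := lG_rel hH hp K K' hR hU hΦa hΦs
  obtain ⟨⟨L, hL⟩, Λ', hΛa', hΛs', -, hΛu'⟩ := hA
  have e1 : Λ 1 = Λ' 1 := H55N.ident Λ Λ' hΛa hΛa' (fun s hs => by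
    rw [(hΛs s hs).2, (hΛs' s hs).2]) 1 (by norm_num)
  have hunit : UnitP p (Φ 1 / Om ^ Module.finrank F K') := by
    intro V hV
    have hx : V.valuation (Φ 1 / Om ^ Module.finrank F K') ≤ 1 :=
      (V.valuation_le_one_iff _).2 (hΦi V hV)
    have hxc : V.valuation ((starRingEnd ℂ) (Φ 1 / Om ^ Module.finrank F K')) ≤ 1 := by
      refine H55P.i5_conj V _ ?_
      rw [ValuationSubring.valuation_le_one_iff]
      exact hΦi _ (H55P.i5_above p hp.prime V hV)
    have hcard : V.valuation ((Nat.card (W⁄K).toAffine.Point : ℂ) ^ 2) ≤ 1 := by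
      rw [map_pow]
      exact pow_le_one₀ zero_le (H55P.pt9_nat V _)
    have hu := hΛu' L hL V hV
    rw [shaG_lG, ← e1] at hu
    have hl : V.valuation (lG K W L (Λ 1)) ≤ 1 := by
      rcases hΛv V hV L hL with h | h
      · rw [h]
        exact mul_le_one₀ hx zero_le hxc
      · rw [h.1]
        exact hx
    have hl1 : V.valuation (lG K W L (Λ 1)) = 1 := H55P.i5_two V _ _ hl hcard hu
    rcases hΛv V hV L hL with h | h
    · rw [h, ← map_mul] at hl1
      exact H55P.i5_two V _ _ hx hxc hl1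
    · rw [h.1] at hl1
      exact hl1
  refine ⟨Φ, hΦa, hΦs, ?_, hunit⟩
  intro h0
  apply H55P.pz6_ne hp.prime hunit
  rw [h0, zero_div]

end H55K.TQ
end

-- from Lib.H55K.FB7B
section

/-! # H55K: the analytic part over K and the Hecke L-value: conclusions -/

open NumberField IsDedekindDomain WeierstrassCurve

namespace H55K.TQ

open H55P (IQ embF eF LF Per IsHecke Pt ac Inert Dec Nm UnitP)
open H35P (WAB Ker tt GoodW IntW)
open H55K.MG (VC Crd)

variable {F : Type} [Field F] [NumberField F] [IQ F] {W : WeierstrassCurve ℤ} {Om : ℂ}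
    {m : Ideal (𝓞 F)} {ψ : Ideal (𝓞 F) →*₀ 𝓞 F} {p : ℕ}

/-- Chunk FB7B (S/M). V(conj x) = 1 for all V above p (pz6_conj, pz6_ne). val_nat for the number of points. Existence of L: exists_perZ (QP1A.lean). -/
theorem an_of_val (hH : BaseH F (W⁄(𝓞 F)) Om m ψ) (hp : PrimeH F (W⁄(𝓞 F)) p) (K : Type) [Field K] [NumberField K]
    (K' : IntermediateField F (AlgebraicClosure F)) [NumberField K'] (hR : LRel W ψ K K') (hU : H55P.UnrP p K)
    (hV : H55P.ValG p Om ψ K') (hE : ¬ p ∣ Nat.card (W⁄K).toAffine.Point) : AnUnitG p W K := by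
  obtain ⟨Φ, hΦa, hΦs, hΦ1, hΦu⟩ := hV
  obtain ⟨Λ, hΛa, hΛs, hΛ1, hΛv⟩ := lG_rel hH hp K K' hR hU hΦa hΦs
  refine ⟨exists_perZ (perW_of hH), Λ, hΛa, hΛs, hΛ1 hΦ1, ?_⟩
  intro L hL V hV
  have hx := hΦu V hV
  have hxc := H55P.pz6_conj hp.prime (H55P.pz6_ne hp.prime hΦu) hΦu V hV
  rw [shaG_lG, map_mul, map_pow, H55P.val_nat p hp.prime V hV _ hE, one_pow, mul_one]
  rcases hΛv V hV L hL with h | h
  · rw [h, hx, hxc, one_mul]
  · rw [h.1, hx]

end H55K.TQ
end

-- from Lib.H55K.FB7C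
section

/-! # H55K: the analytic part over K and the Hecke L-value: conclusions -/

open NumberField IsDedekindDomain WeierstrassCurve

namespace H55K.TQ

open H55P (IQ embF eF LF Per IsHecke Pt ac Inert Dec Nm UnitP)
open H35P (WAB Ker tt GoodW IntW)
open H55K.MG (VC Crd)

variable {F : Type} [Field F] [NumberField F] [IQ F] {W : WeierstrassCurve ℤ} {Om : ℂ}
    {m : Ideal (𝓞 F)} {ψ : Ideal (𝓞 F) →*₀ 𝓞 F} {p : ℕ}

/-- Chunk FB7C (S/M). If V(x) V(conj x) < 1 for all V above p then V(lG) < 1 (second case of lG_rel: V(x)^2 < 1). -/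
theorem non_of (hH : BaseH F (W⁄(𝓞 F)) Om m ψ) (hp : PrimeH F (W⁄(𝓞 F)) p) (K : Type) [Field K] [NumberField K]
    (K' : IntermediateField F (AlgebraicClosure F)) [NumberField K'] (hR : LRel W ψ K K') (hU : H55P.UnrP p K)
    {Φ : ℂ → ℂ} (hΦa : AnalyticOnNhd ℂ Φ {s | 1 / 2 < s.re})
    (hΦ : ∀ s : ℂ, 3 / 2 < s.re → HasSum (H55N.tm (H55P.PsiP K' ψ) s) (Φ s))
    (hN : ∀ V : ValuationSubring ℂ, V.valuation (p : ℂ) < 1 →
      V.valuation (Φ 1 / Om ^ Module.finrank F K') * V.valuation ((starRingEnd ℂ) (Φ 1 / Om ^ Module.finrank F K')) < 1) :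
    AnNonG p W K := by
  obtain ⟨Λ, hΛa, hΛs, -, hΛv⟩ := lG_rel hH hp K K' hR hU hΦa hΦ
  refine ⟨exists_perZ (perW_of hH), Λ, hΛa, hΛs, ?_⟩
  intro L hL V hV
  have hn := hN V hV
  rcases hΛv V hV L hL with h | h
  · rw [h]
    exact hn
  · rw [h.2] at hn
    rw [h.1]
    by_contra hc
    have h1 := not_lt.1 hc
    have h2 : 1 ≤ V.valuation (Φ 1 / Om ^ Module.finrank F K') *
        V.valuation (Φ 1 / Om ^ Module.finrank F K') := one_le_mul h1 h1
    exact absurd hn (not_lt.2 h2)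

end H55K.TQ
end

-- from Lib.H55K.F2
section

/-! # H55K: the theorem for curves over the rationals -/

open NumberField IsDedekindDomain WeierstrassCurve

namespace H55K.TQ

open H55P (IQ embF eF LF Per IsHecke Pt ac Inert Dec Nm UnitP)

variable {F : Type} [Field F] [NumberField F] [IQ F] {W : WeierstrassCurve ℤ} {Om : ℂ}
    {m : Ideal (𝓞 F)} {ψ : Ideal (𝓞 F) →*₀ 𝓞 F} {p : ℕ}

/-- No prime is ramified in the bottom field. -/
theorem ramF_bot {F : Type} [Field F] [NumberField F] {Ω : Type} [Field Ω] [Algebra F Ω] (K : IntermediateField F Ω) (hK : K = ⊥) (v : HeightOneSpectrum (𝓞 F)) :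
    ¬ H55P.RamF K v.asIdeal := by
  subst hK
  have hbn : NumberField (⊥ : IntermediateField F Ω) := H16C.FR_numberField _
  intro hr
  obtain ⟨v', h1⟩ := y9_up (Ω := Ω) v
  obtain ⟨P, hP, hle⟩ := hr
  rw [← y9_map h1] at hle
  have h2 : v'.asIdeal ≤ P := hle.trans (Ideal.pow_le_self two_ne_zero)
  have h3 : v'.asIdeal = P := v'.isMaximal.eq_of_le hP.ne_top h2
  rw [← h3] at hle
  have h4 : v'.asIdeal ^ 2 = v'.asIdeal := le_antisymm (Ideal.pow_le_self two_ne_zero) hle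
  have h5 : v'.asIdeal * v'.asIdeal = v'.asIdeal * 1 := by rw [← pow_two, h4, mul_one]
  have h6 := mul_left_cancel₀ v'.ne_bot h5
  exact v'.isPrime.ne_top (h6.trans Ideal.one_eq_top)

/-- The field generated by F over the rationals. -/
theorem kg_rat (F : Type) [Field F] [NumberField F] [IQ F] (K : Type) [Field K] [NumberField K] (hK : ∀ x : K, ∃ q : ℚ, x = (q : K))
    (ι : K →ₐ[ℚ] AlgebraicClosure F) : KG F K ι = ⊥ := by
  rw [eq_bot_iff]
  unfold KG
  rw [IntermediateField.adjoin_le_iff]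
  rintro _ ⟨x, rfl⟩
  obtain ⟨q, rfl⟩ := hK x
  have h1 : ι (q : K) = algebraMap F (AlgebraicClosure F) (q : F) := by
    rw [map_ratCast, map_ratCast]
  show ι (q : K) ∈ (⊥ : IntermediateField F (AlgebraicClosure F))
  rw [h1]
  exact (⊥ : IntermediateField F (AlgebraicClosure F)).algebraMap_mem _

section fields

variable (hH : BaseH F (W⁄(𝓞 F)) Om m ψ) (hp : PrimeH F (W⁄(𝓞 F)) p)
  {L : IntermediateField F (AlgebraicClosure F)} [NumberField L] (hL : H55P.PExt p ⊥ L) (hU : H55P.UnrP p L)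
  (K : Type) [Field K] [NumberField K] (ι : K →ₐ[ℚ] AlgebraicClosure F) [NumberField (KG F K ι)]
  (hK : KG F K ι ≤ L)

include hH hp hL hU hK

omit hH in
theorem f2_unrG : H55P.UnrP p (KG F K ι) := by
  letI : Algebra (KG F K ι) L := (IntermediateField.inclusion hK).toRingHom.toAlgebra
  exact H55P.UnrP.down (KG F K ι) L p hp.prime hU

omit hH in
theorem f2_unr : H55P.UnrP p K := by
  letI : Algebra K (KG F K ι) := (KGmap F K ι).toAlgebra
  exact H55P.UnrP.down K (KG F K ι) p hp.prime (f2_unrG hp hL hU K ι hK)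

/-- The analytic part in terms of the Hecke L-value. -/
theorem an_iff [NumberField (⊥ : IntermediateField F (AlgebraicClosure F))] :
    AnUnitG p W K ↔ H55P.ValG p Om ψ (KG F K ι) := by
  have hR := lrel hH hp hL K ι hK
  have hUK := f2_unr hp hL hU K ι hK
  have hUG := f2_unrG hp hL hU K ι hK
  obtain ⟨h1, h2, h3, -⟩ := main_F hH hp hL hK hUG
  refine ⟨val_of_an hH hp K _ hR hUK h1, fun hV => an_of_val hH hp K _ hR hUK hV ?_⟩
  exact (sel_abs hH hp hL K ι hK (h3 hV).1).2.2.2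

end fields

/-- The analytic part over the rationals. -/
theorem an_rat (hH : BaseH F (W⁄(𝓞 F)) Om m ψ) (hp : PrimeH F (W⁄(𝓞 F)) p)
    [NumberField (⊥ : IntermediateField F (AlgebraicClosure F))] :
    AnUnitG p W ℚ ↔ H55P.ValG p Om ψ (⊥ : IntermediateField F (AlgebraicClosure F)) := by
  obtain ⟨L, hLn, ι, hL, hU, hK, -⟩ := sub_setup (F := F) p hp.prime ℚ F inferInstance 0
    (by rw [pow_zero, Module.finrank_self]) hp.unr
  have hG := kg_rat F ℚ (fun x => ⟨x, (Rat.cast_id x).symm⟩) ι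
  have hn : NumberField (KG F ℚ ι) := by
    rw [hG]
    infer_instance
  rw [an_iff hH hp hL hU ℚ ι hK, (main_F hH hp hL hK (f2_unrG hp hL hU ℚ ι hK)).2.1]
  exact ⟨fun h => h.1, fun h => ⟨h, fun v hv => absurd hv (ramF_bot _ hG v)⟩⟩

/-- THE THEOREM for curves over the rationals. -/
theorem main_Q (hH : BaseH F (W⁄(𝓞 F)) Om m ψ) (hp : PrimeH F (W⁄(𝓞 F)) p) (K : Type) [Field K] [NumberField K]
    (hK : SubUF F p K) :
    (AnUnitG p W K ↔ AnUnitG p W ℚ ∧ InPF (W⁄(𝓞 F)) p K) ∧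
    (AnUnitG p W K → BSDPG p W K) ∧
    (¬ InPF (W⁄(𝓞 F)) p K → AnNonG p W K ∧ H13Z.SelNonT (W⁄K) p) := by
  have hbf : FiniteDimensional F (⊥ : IntermediateField F (AlgebraicClosure F)) := inferInstance
  have hbn : NumberField (⊥ : IntermediateField F (AlgebraicClosure F)) := H16C.FR_numberField _
  obtain ⟨Lt, _, _, _, _, hG, ⟨k, hk⟩, hUt⟩ := hK
  obtain ⟨L, hLn, ι, hL, hU, hKL, -⟩ := sub_setup (F := F) p hp.prime K Lt hG k hk hUt
  have hLf : FiniteDimensional F L := hL.fin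
  have hKf : FiniteDimensional F (KG F K ι) := H55P.finDim_of_le hKL
  have hKn : NumberField (KG F K ι) := H16C.FR_numberField _
  have hUG := f2_unrG hp hL hU K ι hKL
  obtain ⟨m1, m2, m3, m4⟩ := main_F hH hp hL hKL hUG
  have hin : NoAn p (W⁄(𝓞 F)) (KG F K ι) → InPF (W⁄(𝓞 F)) p K := fun h =>
    inPF_of hp.prime K ι L hL hU hKL h
  have han := an_iff hH hp hL hU K ι hKL
  refine ⟨⟨fun h => ?_, ?_⟩, fun h => ?_, fun h => ?_⟩
  · obtain ⟨h1, h2⟩ := m2.1 (han.1 h)
    exact ⟨(an_rat hH hp).2 h1, hin h2⟩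
  · rintro ⟨h1, Lt', _, _, _, _, hG', ⟨k', hk'⟩, hUt', hr'⟩
    obtain ⟨L', hLn', ι', hL', hU', hKL', hram'⟩ := sub_setup (F := F) p hp.prime K Lt' hG' k' hk' hUt'
    have hLf' : FiniteDimensional F L' := hL'.fin
    have hKf' : FiniteDimensional F (KG F K ι') := H55P.finDim_of_le hKL'
    have hKn' : NumberField (KG F K ι') := H16C.FR_numberField _
    refine (an_iff hH hp hL' hU' K ι' hKL').2
      ((main_F hH hp hL' hKL' (f2_unrG hp hL' hU' K ι' hKL')).2.1.2 ⟨(an_rat hH hp).1 h1, fun v hv hΔ hd => ?_⟩)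
    obtain ⟨w, hw, he⟩ := hram' v (ramF_up hKL' v hv)
    exact he (hr' w v hw hΔ hd)
  · exact ⟨sel_abs hH hp hL K ι hKL (m3 (han.1 h)).1, h⟩
  · obtain ⟨⟨Φ, a1, a2, a3⟩, h2⟩ := m4 fun hN => h (hin hN)
    exact ⟨non_of hH hp K _ (lrel hH hp hL K ι hKL) (f2_unr hp hL hU K ι hKL) a1 a2 a3, non_abs hH hp K ι h2⟩

end H55K.TQ
end

-- from Lib.H55K.F3
section

/-! # H55K: integrality of the algebraic part of the L-value -/

open NumberField IsDedekindDomain WeierstrassCurve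

namespace H55K.TQ

open H55P (IQ embF eF LF Per IsHecke Pt ac Inert Dec Nm UnitP)

variable {F : Type} [Field F] [NumberField F] [IQ F] {W : WeierstrassCurve ℤ} {Om : ℂ}
    {m : Ideal (𝓞 F)} {ψ : Ideal (𝓞 F) →*₀ 𝓞 F} {p : ℕ}

/-- Integrality over K from integrality of the Hecke L-value. -/
theorem int_of (hH : BaseH F (W⁄(𝓞 F)) Om m ψ) (hp : PrimeH F (W⁄(𝓞 F)) p) (K : Type) [Field K] [NumberField K]
    (K' : IntermediateField F (AlgebraicClosure F)) [NumberField K'] (hR : LRel W ψ K K') (hU : H55P.UnrP p K)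
    (hI : H55P.IntG p Om ψ K') : AnIntG p W K := by
  obtain ⟨Φ, hΦa, hΦ, hx⟩ := hI
  obtain ⟨Λ, hΛa, hΛs, -, hΛv⟩ := lG_rel hH hp K K' hR hU hΦa hΦ
  refine ⟨exists_perZ (perW_of hH), Λ, hΛa, hΛs, fun L hL V hV => ?_⟩
  have h1 : V.valuation (Φ 1 / Om ^ Module.finrank F K') ≤ 1 := (V.valuation_le_one_iff _).2 (hx V hV)
  have h2 : V.valuation ((starRingEnd ℂ) (Φ 1 / Om ^ Module.finrank F K')) ≤ 1 :=
    H55P.i5_conj V _ (((V.comap (starRingEnd ℂ)).valuation_le_one_iff _).2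
      (hx _ (H55P.i5_above p hp.prime V hV)))
  rw [← V.valuation_le_one_iff]
  rcases hΛv V hV L hL with h | h
  · rw [h]
    exact mul_le_one' h1 h2
  · rw [h.1]
    exact h1

/-- Integrality over all fields of the class. -/
theorem int_Q (hH : BaseH F (W⁄(𝓞 F)) Om m ψ) (hp : PrimeH F (W⁄(𝓞 F)) p) (K : Type) [Field K] [NumberField K]
    (hK : SubUF F p K) : AnIntG p W K := by
  have hbf : FiniteDimensional F (⊥ : IntermediateField F (AlgebraicClosure F)) := inferInstance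
  have hbn : NumberField (⊥ : IntermediateField F (AlgebraicClosure F)) := H16C.FR_numberField _
  obtain ⟨Lt, _, _, _, _, hG, ⟨k, hk⟩, hUt⟩ := hK
  obtain ⟨L, hLn, ι, hL, hU, hKL, -⟩ := sub_setup (F := F) p hp.prime K Lt hG k hk hUt
  have hLf : FiniteDimensional F L := hL.fin
  have hKf : FiniteDimensional F (KG F K ι) := H55P.finDim_of_le hKL
  have hKn : NumberField (KG F K ι) := H16C.FR_numberField _
  have hUG := f2_unrG hp hL hU K ι hKL
  exact int_of hH hp K _ (lrel hH hp hL K ι hKL) (f2_unr hp hL hU K ι hKL) (gen_intK hH hp hL hKL hUG)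

end H55K.TQ
end

-- from Lib.H13R.Main
section

/-! # H13R: THE RELATIVE THEOREM -/

open NumberField IsDedekindDomain WeierstrassCurve

namespace H13R

open H55P (IQ embF eF LF Per IsHecke Pt ac Inert Dec Nm UnitP UnrP PExt)
open H35P (WAB Ker tt GoodW IntW)
open H55K H55K.TQ



variable {F : Type} [Field F] [NumberField F] [IQ F] {W : WeierstrassCurve ℤ} {Om : ℂ}
    {m : Ideal (𝓞 F)} {ψ : Ideal (𝓞 F) →*₀ 𝓞 F} {p : ℕ}

/-- The Hecke relation over K. -/
theorem lrelK (hH : BaseH F (W⁄(𝓞 F)) Om m ψ) (hp : PrimeH F (W⁄(𝓞 F)) p) {M : IntermediateField F (AlgebraicClosure F)}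
    [NumberField M] {L : IntermediateField F (AlgebraicClosure F)} (hL : PExt p M L) (hB : BadM (W⁄(𝓞 F)) M)
    (K : Type) [Field K] [NumberField K] (ι : K →ₐ[ℚ] AlgebraicClosure F) (hMK : M ≤ KG F K ι) (hKL : KG F K ι ≤ L) :
    LRel W ψ K (KG F K ι) :=
  lrelR hH K ι fun w hw => bad_KR hH hp hL hMK hKL hB w hw

open Classical in
/-- The Selmer group over K and over FK. -/
theorem sel_iff (hH : BaseH F (W⁄(𝓞 F)) Om m ψ) (hp : PrimeH F (W⁄(𝓞 F)) p) {M : IntermediateField F (AlgebraicClosure F)}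
    [NumberField M] {L : IntermediateField F (AlgebraicClosure F)} (hL : PExt p M L) (hUM : UnrP p M)
    (K : Type) [Field K] [NumberField K] (ι : K →ₐ[ℚ] AlgebraicClosure F) (hKL : KG F K ι ≤ L) :
    H55P.SelTriv (W⁄K) p ↔ H55P.SelG p (W⁄(𝓞 F)) (KG F K ι) := by
  have hfd : FiniteDimensional F (KG F K ι) := kg_fin F K ι
  refine ⟨fun h => selG_of_triv hH hp.prime (by have := hp.five; omega) hp.unr K ι h, fun h => ?_⟩
  exact (sel_absR hH hp K ι (fun T hT hf => tors_KR hH hp hUM hL hKL T hT hf) h).1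

open Classical in
/-- The Tate-Shafarevich group and the points. -/
theorem sel_rest (hH : BaseH F (W⁄(𝓞 F)) Om m ψ) (hp : PrimeH F (W⁄(𝓞 F)) p) {M : IntermediateField F (AlgebraicClosure F)}
    [NumberField M] {L : IntermediateField F (AlgebraicClosure F)} (hL : PExt p M L) (hUM : UnrP p M)
    (K : Type) [Field K] [NumberField K] (ι : K →ₐ[ℚ] AlgebraicClosure F) (hKL : KG F K ι ≤ L)
    (h : H55P.SelTriv (W⁄K) p) :
    H55P.SelTriv (W⁄K) p ∧ H55P.ShaTriv (W⁄K) p ∧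
      Finite (W⁄K).toAffine.Point ∧ ¬ p ∣ Nat.card (W⁄K).toAffine.Point := by
  have hfd : FiniteDimensional F (KG F K ι) := kg_fin F K ι
  exact sel_absR hH hp K ι (fun T hT hf => tors_KR hH hp hUM hL hKL T hT hf) ((sel_iff hH hp hL hUM K ι hKL).1 h)

theorem bsd_iff (hH : BaseH F (W⁄(𝓞 F)) Om m ψ) (hp : PrimeH F (W⁄(𝓞 F)) p) {M : IntermediateField F (AlgebraicClosure F)}
    [NumberField M] {L : IntermediateField F (AlgebraicClosure F)} (hL : PExt p M L) (hUM : UnrP p M)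
    (K : Type) [Field K] [NumberField K] (ι : K →ₐ[ℚ] AlgebraicClosure F) (hKL : KG F K ι ≤ L) :
    BSDPG p W K ↔ H55P.SelTriv (W⁄K) p ∧ LUnitG p W K := by
  constructor
  · rintro ⟨⟨h1, -, -, h2⟩, h3⟩
    exact ⟨h1, (an_iff hp.prime h2).1 h3⟩
  · rintro ⟨h1, h2⟩
    have h3 := sel_rest hH hp hL hUM K ι hKL h1
    exact ⟨h3, (an_iff hp.prime h3.2.2.2).2 h2⟩


end H13R
end

-- from Lib.H13R.I1
section

/-! # H13R: the relative theorem for isogenous curves -/

open NumberField IsDedekindDomain WeierstrassCurve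

namespace H13R

open H55P (IQ embF eF LF Per IsHecke Pt ac Inert Dec Nm UnitP UnrP PExt)
open H35P (WAB Ker tt GoodW IntW)
open H55K H55K.TQ
open H28I (TW Same tw_supp tw_good tw_deu tw_prime tw_iso disc_ne lrt_of lG_same iso6_symm Iso6 sel_iso sha_iso pts_iso selnon_iso
  same_int same_non same_lnz a0_ser a0_disc)

variable {F : Type} [Field F] [NumberField F] [IQ F] {W W' : WeierstrassCurve ℤ} {Om : ℂ} {m : Ideal (𝓞 F)}
    {ψ : Ideal (𝓞 F) →*₀ 𝓞 F} {kap : ℤ} {e t u lam : ℚ} {p : ℕ}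

/-- The primes of M dividing the discriminants. -/
theorem i1_supp (h : TW F W W' Om m ψ kap e t u lam) {M : Type} [Field M] [NumberField M] [Algebra F M] (w : HeightOneSpectrum (𝓞 M)) :
    algebraMap (𝓞 F) (𝓞 M) (W'⁄(𝓞 F)).Δ ∈ w.asIdeal ↔ algebraMap (𝓞 F) (𝓞 M) (W⁄(𝓞 F)).Δ ∈ w.asIdeal := by
  obtain ⟨v, hv, -, -, -⟩ := H55K.DD.below (m := m) w
  have h1 := tw_supp h v
  rw [hv] at h1
  exact h1

theorem i1_bad (h : TW F W W' Om m ψ kap e t u lam) (M : IntermediateField F (AlgebraicClosure F)) [NumberField M] :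
    BadM (W'⁄(𝓞 F)) M ↔ BadM (W⁄(𝓞 F)) M := by
  unfold BadM
  refine forall_congr' fun w => ?_
  rw [i1_supp h w, cur_eq M, cur_eq M, tw_good h M w]

theorem i1_pts (h : TW F W W' Om m ψ kap e t u lam) {M : Type} [Field M] [NumberField M] [Algebra F M] (w : HeightOneSpectrum (𝓞 M))
    (hΔ : algebraMap (𝓞 F) (𝓞 M) (W⁄(𝓞 F)).Δ ∉ w.asIdeal) :
    Nat.card ((W'⁄(𝓞 F))⁄(𝓞 M ⧸ w.asIdeal)).toAffine.Point = Nat.card ((W⁄(𝓞 F))⁄(𝓞 M ⧸ w.asIdeal)).toAffine.Point := by
  have hm : ¬ H55P.mK M m ≤ w.asIdeal := fun hm => hΔ ((h1_pos h.base w).2 hm)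
  rw [pts_w h.base.data.hecke (fun v hv _ => h.base.deu v hv) w hΔ hm,
    pts_w h.base.data.hecke (fun v hv _ => (tw_deu h v hv).2) w (fun h' => hΔ ((i1_supp h w).1 h')) hm]

theorem i1_norel (h : TW F W W' Om m ψ kap e t u lam) (M K : IntermediateField F (AlgebraicClosure F)) [NumberField M] :
    NoRel p (W'⁄(𝓞 F)) M K ↔ NoRel p (W⁄(𝓞 F)) M K := by
  unfold NoRel
  refine forall_congr' fun w => imp_congr_right fun _ => ?_
  rw [i1_supp h w]
  refine imp_congr_right fun hΔ => ?_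
  rw [i1_pts h w hΔ]

/-- The L-functions agree. -/
theorem i1_lfun (h : TW F W W' Om m ψ kap e t u lam) (K : Type) [Field K] [NumberField K] (ι : K →ₐ[ℚ] AlgebraicClosure F)
    (hbad : ∀ w : HeightOneSpectrum (𝓞 (KG F K ι)), H55P.mK (KG F K ι) m ≤ w.asIdeal → ¬ GoodAt (((W⁄(𝓞 F))⁄F)⁄(KG F K ι)) w) (n : ℕ) :
    (W'⁄K).LFunction n = (W⁄K).LFunction n := by
  obtain ⟨j₀, hj⟩ := jint_Z h.base
  obtain ⟨j₁, hj₁⟩ := h.jint
  rcases kg_dich F K ι with ⟨f, hf⟩ | hQ
  · let _ : Algebra F K := f.toAlgebra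
    obtain ⟨θ⟩ := kg_iso F K ι f hf
    have e1 : (((W⁄K).LFunction n : ℤ) : ℂ) =
        (H55N.AI (H55P.PsiP K ψ) * H55N.AI (fun a => (starRingEnd ℂ) (H55P.PsiP K ψ a))) n := by
      rw [← cur_eq (F := F) (W := W) K]
      exact H55K.lfun_K h.base.data.hecke (fun v hv _ => h.base.deu v hv) (fun v hv => (h.base.supp v).1 hv)
        (H55K.jint_of h.base.data.per h.base.data.ell) (fun w hw => fb3b_badR K (KG F K ι) hbad θ w hw) n
    have hj' : ∃ j₁ : 𝓞 F, (W'⁄(𝓞 F)).c₄ ^ 3 = j₁ * (W'⁄(𝓞 F)).Δ := by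
      refine ⟨algebraMap ℤ (𝓞 F) j₁, ?_⟩
      have e4 : (W'⁄(𝓞 F)).c₄ = algebraMap ℤ (𝓞 F) W'.c₄ := W'.map_c₄ (algebraMap ℤ (𝓞 F))
      have eD : (W'⁄(𝓞 F)).Δ = algebraMap ℤ (𝓞 F) W'.Δ := W'.map_Δ (algebraMap ℤ (𝓞 F))
      rw [e4, eD, ← map_pow, ← map_mul, hj₁]
    have e2 : (((W'⁄K).LFunction n : ℤ) : ℂ) =
        (H55N.AI (H55P.PsiP K ψ) * H55N.AI (fun a => (starRingEnd ℂ) (H55P.PsiP K ψ a))) n := by
      rw [← cur_eq (F := F) (W := W') K]
      refine H55K.lfun_K h.base.data.hecke (fun v hv _ => (tw_deu h v hv).2) (fun v hv => (h.base.supp v).1 ((tw_supp h v).1 hv))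
        hj' (fun w hw hg => ?_) n
      rw [cur_eq K] at hg
      refine fb3b_badR K (KG F K ι) hbad θ w hw ?_
      rw [cur_eq K]
      exact (tw_good h K w).1 hg
    exact Int.cast_injective (e2.trans e1.symm)
  · let _ : Algebra K (KG F K ι) := (KGmap F K ι).toAlgebra
    have hbad' : ∀ w : HeightOneSpectrum (𝓞 (KG F K ι)), H55P.mK (KG F K ι) m ≤ w.asIdeal → ¬ H55K.GoodAt (W⁄(KG F K ι)) w := by
      intro w hw
      have h1 := hbad w hw
      rw [cur_eq (KG F K ι)] at h1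
      exact h1
    have e1 : (((W⁄K).LFunction n : ℤ) : ℂ) = H55N.AI (fun a => H55P.PsiP (KG F K ι) ψ a) n :=
      lfun_quad hQ h.base.data.hecke (fun v hv _ => h.base.deu v hv) h.base.supp (hram_of h.base) hj hbad' n
    have e2 : (((W'⁄K).LFunction n : ℤ) : ℂ) = H55N.AI (fun a => H55P.PsiP (KG F K ι) ψ a) n :=
      lfun_quad hQ h.base.data.hecke (fun v hv _ => (tw_deu h v hv).2)
        (fun v => (tw_supp h v).trans (h.base.supp v)) (fun v hv => (tw_supp h v).2 (hram_of h.base v hv)) hj₁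
        (fun w hw hg => hbad' w hw ((tw_good h (KG F K ι) w).1 hg)) n
    exact Int.cast_injective (e2.trans e1.symm)

open Classical in
theorem i1_same (h : TW F W W' Om m ψ kap e t u lam) (hp : PrimeH F (W⁄(𝓞 F)) p) (K : Type) [Field K] [NumberField K]
    (hl : ∀ n : ℕ, (W'⁄K).LFunction n = (W⁄K).LFunction n) : Same p W W' K := by
  have hp' := (tw_prime h).2 hp
  obtain ⟨L, hL⟩ := exists_perZ (perW_of h.base)
  exact ⟨hl, fun L L' hL hL' V hV x => lG_same h.ip hp.prime hp.five (fb6b_ndvd hp) (fb6b_ndvd hp')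
    (jint_Z h.base) h.jint K hL hL' x V hV, ⟨L, hL⟩, (lrt_of h.ip hL).1, tw_iso h K, (disc_ne h.ip).1, (disc_ne h.ip).2⟩

/-- The analytic parts agree. -/
theorem i1_lunit {K : Type} [Field K] [NumberField K] (h : Same p W W' K) : LUnitG p W' K ↔ LUnitG p W K := by
  obtain ⟨L, hL⟩ := h.ex
  obtain ⟨L', hL'⟩ := h.ex'
  constructor
  · rintro ⟨-, Λ, hΛ, hs, hne, hu⟩
    refine ⟨h.ex, Λ, hΛ, (a0_ser h Λ).1 hs, hne, fun L₁ hL₁ V hV => ?_⟩
    rw [← h.per L₁ L' hL₁ hL' V hV]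
    exact hu L' hL' V hV
  · rintro ⟨-, Λ, hΛ, hs, hne, hu⟩
    refine ⟨h.ex', Λ, hΛ, (a0_ser h Λ).2 hs, hne, fun L₁ hL₁ V hV => ?_⟩
    rw [h.per L L₁ hL hL₁ V hV]
    exact hu L hL V hV

open Classical in
theorem i1_sel (hp : p.Prime) (h5 : 5 ≤ p) {K : Type} [Field K] [NumberField K] (h : Same p W W' K) :
    H55P.SelTriv (W'⁄K) p ↔ H55P.SelTriv (W⁄K) p :=
  ⟨sel_iso hp h5 (iso6_symm h.iso), sel_iso hp h5 h.iso⟩




end H13R
end
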