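import Mathlib
import Pool.Agent.Lib.H1M.PP2.M049
import Pool.Agent.Lib.H1M.PP2.M073
import Pool.Agent.Lib.H1M.PP2.M079

/-! Merged copies (to shorten the build) of Lib.SSG.E.R1, Lib.SSG.E.R4, Lib.SSG.E.W6, Lib.SSG.E.W7, Lib.SSG.E.W1, Lib.SSG.E.W2, Lib.SSG.E.W4, Lib.SSG.E.W3, Lib.SSG.E.W5. -/

-- from Lib.SSG.E.R1
section

open NumberField IsDedekindDomain

namespace SSG.E

open H55N H55P

variable {F : Type} [Field F] [NumberField F] [IQ F] {K : Type} [Field K] [NumberField K]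
  [Algebra F K] {m : ℕ}

/-- The second difference of 1/y in the directions a, b. -/
noncomputable def dd (y a b : ℂ) : ℂ := y⁻¹ - (y - a)⁻¹ - (y - b)⁻¹ + (y - a - b)⁻¹

/-! Chunk R1 (M). The value of J for rational labels as an absolutely convergent sum of products of second differences. First: the general statement for a context D (any), directions w with D.Dirs A w and G with D.GSpec w G.
reg_of_good (R2.lean) with h x = prod of (Tr (A k) x)^-1 (Good as in the proof of Jv_A in R8.lean) gives HasReg h (sum of G x * Dif w univ h x) and absolute convergence; Jv_eq and HasReg.smul, Idet (A labels) = det * h as in Jv_A. Then compute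
Dif w univ h x = prod over k of dd (Tr (A k) x) (Tr (A k) (w (k,0))) (Tr (A k) (w (k,1))): the index set is Fin (m+1) × Fin 2; subsets T correspond to families of subsets of Fin 2; Tr (A k) (x - sum over T of w i) = Tr (A k) x - sum over those i in T with i.1 = k
of Tr (A k) (w i) (Dirs.orth). Use induction over the factors or Finset.prod_univ_sum / Finset.prod_add; (-1)^card is multiplicative. -/

theorem r1_Tr_sub (D : Ctx F K m) (a : K) (x y : 𝓞 K) : D.Tr a (x - y) = D.Tr a x - D.Tr a y := by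
  unfold H55P.Ctx.Tr
  rw [← Finset.sum_sub_distrib]
  refine Finset.sum_congr rfl fun i _ => ?_
  rw [← map_sub]
  congr 1
  push_cast
  ring

theorem r1_Tr_sum (D : Ctx F K m) (a : K) {ι : Type} (T : Finset ι) (w : ι → 𝓞 K) :
    D.Tr a (∑ i ∈ T, w i) = ∑ i ∈ T, D.Tr a (w i) := by
  classical
  induction T using Finset.induction_on with
  | empty =>
    rw [Finset.sum_empty, Finset.sum_empty]
    unfold H55P.Ctx.Tr
    simp
  | insert i S hi ih =>
    rw [Finset.sum_insert hi, Finset.sum_insert hi, ← ih]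
    have h := r1_Tr_sub D a (w i + ∑ i ∈ S, w i) (∑ i ∈ S, w i)
    rw [add_sub_cancel_right] at h
    rw [h]
    ring

/-- subsets of a product are families of subsets -/
def r1_eqv (α β : Type) [Fintype α] [Fintype β] [DecidableEq α] [DecidableEq β] :
    (α → Finset β) ≃ Finset (α × β) where
  toFun p := Finset.univ.filter fun i => i.2 ∈ p i.1
  invFun T k := Finset.univ.filter fun j => (k, j) ∈ T
  left_inv p := by
    funext k
    ext j
    simp
  right_inv T := by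
    ext ⟨k, j⟩
    simp

theorem r1_dd (y : ℂ) (c : Fin 2 → ℂ) :
    dd y (c 0) (c 1) = ∑ t : Finset (Fin 2), (-1) ^ t.card * (y - ∑ j ∈ t, c j)⁻¹ := by
  have h : (Finset.univ : Finset (Finset (Fin 2))) = {∅, {0}, {1}, {0, 1}} := by decide
  rw [h, Finset.sum_insert (by decide), Finset.sum_insert (by decide),
    Finset.sum_insert (by decide), Finset.sum_singleton]
  unfold dd
  simp
  ring_nf

theorem r1_sum {α β : Type} [Fintype α] [Fintype β] [DecidableEq α] [DecidableEq β]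
    (p : α → Finset β) (f : α × β → ℂ) :
    ∑ i ∈ r1_eqv α β p, f i = ∑ k, ∑ j ∈ p k, f (k, j) := by
  change ∑ i ∈ Finset.univ.filter (fun i : α × β => i.2 ∈ p i.1), f i = _
  rw [Finset.sum_filter, Fintype.sum_prod_type]
  refine Finset.sum_congr rfl fun k _ => ?_
  simp

theorem r1_card {α β : Type} [Fintype α] [Fintype β] [DecidableEq α] [DecidableEq β]
    (p : α → Finset β) : (r1_eqv α β p).card = ∑ k, (p k).card := by
  have h := r1_sum p (fun _ => (1 : ℂ))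
  simp only [Finset.sum_const, nsmul_eq_mul, mul_one] at h
  exact_mod_cast h

theorem dif_prod (D : Ctx F K m) (A : Fin (m + 1) → K) (w : Fin (m + 1) × Fin 2 → 𝓞 K)
    (horth : ∀ i k, k ≠ i.1 → D.Tr (A k) (w i) = 0) (x : 𝓞 K) :
    Dif w Finset.univ (fun x : 𝓞 K => ∏ k, (D.Tr (A k) x)⁻¹) x =
      ∏ k, dd (D.Tr (A k) x) (D.Tr (A k) (w (k, 0))) (D.Tr (A k) (w (k, 1))) := by
  classical
  unfold Dif
  rw [Finset.powerset_univ]
  have e1 : ∀ k : Fin (m + 1), dd (D.Tr (A k) x) (D.Tr (A k) (w (k, 0))) (D.Tr (A k) (w (k, 1))) =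
      ∑ t : Finset (Fin 2), (-1) ^ t.card * (D.Tr (A k) x - ∑ j ∈ t, D.Tr (A k) (w (k, j)))⁻¹ :=
    fun k => r1_dd _ (fun j => D.Tr (A k) (w (k, j)))
  simp only [e1]
  rw [Finset.prod_univ_sum, Fintype.piFinset_univ]
  symm
  refine Fintype.sum_equiv (r1_eqv (Fin (m + 1)) (Fin 2)) _ _ fun p => ?_
  rw [r1_card, Finset.prod_mul_distrib, Finset.prod_pow_eq_pow_sum]
  congr 1
  refine Finset.prod_congr rfl fun k _ => ?_
  rw [r1_Tr_sub, r1_Tr_sum, r1_sum p (fun i => D.Tr (A k) (w i))]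
  congr 2
  rw [Finset.sum_eq_single k]
  · intro k' _ hk'
    exact Finset.sum_eq_zero fun j _ => horth (k', j) k (Ne.symm hk')
  · intro h
    exact absurd (Finset.mem_univ k) h

theorem Jv_rat (D : Ctx F K m) (hD : D.Ok) (A : Fin (m + 1) → K) (w : Fin (m + 1) × Fin 2 → 𝓞 K)
    (hdir : D.Dirs A w) (G : 𝓞 K → ℂ) (hG : D.GSpec w G) :
    (Summable fun x : D.X => ‖G x * ∏ k, dd (D.Tr (A k) x) (D.Tr (A k) (w (k, 0))) (D.Tr (A k) (w (k, 1)))‖) ∧
    D.Jv (fun k => .A (A k)) = Matrix.det (Matrix.of fun k i => D.σ i (A k)) *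
      ∑' x : D.X, G x * ∏ k, dd (D.Tr (A k) x) (D.Tr (A k) (w (k, 0))) (D.Tr (A k) (w (k, 1))) := by
  have hX := H55P.R2_stab D A w hdir
  have h1 : Good D.X w (D.gl A) (fun (_ : Unit) x => D.bl A x)
      (fun _ (x : 𝓞 K) => ∏ k, (D.Tr (A k) x)⁻¹) :=
    Good.prod hX (H55P.sv_gl D A w) Finset.univ
      (fun k (_ : Unit) x => (1 + ‖D.Tr (A k) x‖)⁻¹)
      (fun k (_ : Unit) x => (D.Tr (A k) x)⁻¹)
      (fun k _ => SV.inv hX (H55P.sv_tr (P := Unit) D A w k))
      (fun k _ => H55P.good_tr (P := Unit) D A w hdir k)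
  obtain ⟨h3, h2⟩ := H55P.reg_of_good D hD A w hdir G hG (fun x : 𝓞 K => ∏ k, (D.Tr (A k) x)⁻¹) h1
  have hd : ∀ x : 𝓞 K, Dif w Finset.univ (fun x : 𝓞 K => ∏ k, (D.Tr (A k) x)⁻¹) x =
      ∏ k, dd (D.Tr (A k) x) (D.Tr (A k) (w (k, 0))) (D.Tr (A k) (w (k, 1))) :=
    dif_prod D A w hdir.orth
  simp only [hd] at h3 h2
  refine ⟨h3, ?_⟩
  have h5 := H55P.HasReg.smul D h2 (Matrix.det (Matrix.of fun k i : Fin (m + 1) => D.σ i (A k)))
  apply H55P.Jv_eq
  refine H55P.HasReg.congr D h5 fun x _ => ?_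
  symm
  have h3 : D.Idet (fun k => .A (A k)) x = Matrix.det (Matrix.of fun k i : Fin (m + 1) =>
      (D.Tr (A k) x)⁻¹ * (Matrix.of fun k i : Fin (m + 1) => D.σ i (A k)) k i) := by
    unfold H55P.Ctx.Idet
    congr 1
    ext k i
    show D.σ i (A k) / D.Tr (A k) x = (D.Tr (A k) x)⁻¹ * D.σ i (A k)
    rw [div_eq_inv_mul]
  rw [h3, Matrix.det_mul_column]
  ring

end SSG.E
end

-- from Lib.SSG.E.R4
section

open NumberField IsDedekindDomain

namespace SSG.E

open H55N H55P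

variable {F : Type} [Field F] [NumberField F] [IQ F] {K : Type} [Field K] [NumberField K]
  [Algebra F K] {m : ℕ}

/-- The representative of the class of β in the class of a. -/
noncomputable def LD.x {D : Ctx F K m} {l : 𝓞 F} {P : ℕ} (S : LD D l P) (a β : 𝓞 K) : 𝓞 K :=
  (S.e₁ * S.M : ℤ) * a + (S.e₂ * P : ℤ) * β

/-! Chunk R4 (M/L). Chinese remainder theorem. q = (P), C = cx D q a, lattice of C: Lat C A (P M) = P Lat D A M: if y is in it then y = P z with z in I (q * I = P I: Ideal.mem_span_singleton_mul), z in c i (P z in c i, c i is prime of norm D.p i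
coprime to P, see W9 / dirs_of for the prime ideal c i), P Tr z = P M t so Tr z = M t.
x(a,β) = e₁ M a + e₂ P β = a + e₂ P (β - a) = β + e₁ M (a - β). So x(a,β) - a = P (e₂ (β - a)) in q * I, x(a,β) - β = e₁ (M (a - β)) is in Lat D A M (in I; in c i because M is in c i; the trace is M times the trace of a - β in I,
which is an e-value: DirN.one on X, difference of two values).
(1) x(a,β) is in C.X. (2) For x in C.X (so x in D.X) let β be the representative with x - β in Lat D A M; then x - x(a,β) is in q I and in Lat D A M; write it as P z, z in I: z in c i; P Tr z = M t in 𝓞 F-values, P and M coprime (bez), so Tr z is in M e(𝓞 F)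
(Tr z is an e-value; use e₁ M + e₂ P = 1: Tr z = e₁ M Tr z + e₂ (P Tr z)). Uniqueness: x(a,β) - x(a,β') in Lat C gives β - β' in Lat D (differences in Lat D A M), so β = β' . So the image of B is a set of representatives; injective on B. -/

theorem r4_Tr_int (D : Ctx F K m) (A : K) (z : ℤ) (x : 𝓞 K) :
    D.Tr A ((z : 𝓞 K) * x) = (z : ℂ) * D.Tr A x := by
  unfold H55P.Ctx.Tr
  rw [Finset.mul_sum]
  refine Finset.sum_congr rfl fun i _ => ?_
  have h1 : (((z : 𝓞 K) * x : 𝓞 K) : K) * A = (z : K) * ((x : K) * A) := by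
    have h := map_mul (algebraMap (𝓞 K) K) (z : 𝓞 K) x
    rw [map_intCast] at h
    have h2 : (((z : 𝓞 K) * x : 𝓞 K) : K) = (z : K) * (x : K) := h
    rw [h2]
    ring
  rw [h1, map_mul, map_intCast]

theorem r4_Tr_nat (D : Ctx F K m) (A : K) (n : ℕ) (x : 𝓞 K) :
    D.Tr A ((n : 𝓞 K) * x) = (n : ℂ) * D.Tr A x := by
  have h := r4_Tr_int D A (n : ℤ) x
  rw [Int.cast_natCast, Int.cast_natCast] at h
  exact h

theorem r4_sub (D : Ctx F K m) {x y : 𝓞 K} (hx : x ∈ D.X) (hy : y ∈ D.X) : x - y ∈ D.I := by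
  have h1 : x - D.c₀ ∈ D.I := hx
  have h2 : y - D.c₀ ∈ D.I := hy
  have h3 : x - y = (x - D.c₀) - (y - D.c₀) := by ring
  rw [h3]
  exact D.I.sub_mem h1 h2

theorem r4_x_beta {D : Ctx F K m} {l : 𝓞 F} {P : ℕ} (S : LD D l P) (hS : S.Ok) (a β : 𝓞 K) :
    S.x a β - β = (S.M : 𝓞 K) * ((S.e₁ : 𝓞 K) * (a - β)) := by
  have h1 : ((S.e₂ : 𝓞 K) * (P : 𝓞 K)) = 1 - (S.e₁ : 𝓞 K) * (S.M : 𝓞 K) := by
    have h := hS.bez
    have h2 : (((S.e₁ * S.M + S.e₂ * P : ℤ)) : 𝓞 K) = 1 := by rw [h]; simp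
    push_cast at h2
    linear_combination h2
  unfold LD.x
  push_cast
  rw [h1]
  ring

theorem r4_x_a {D : Ctx F K m} {l : 𝓞 F} {P : ℕ} (S : LD D l P) (hS : S.Ok) (a β : 𝓞 K) :
    S.x a β - a = (P : 𝓞 K) * ((S.e₂ : 𝓞 K) * (β - a)) := by
  have h1 : ((S.e₁ : 𝓞 K) * (S.M : 𝓞 K)) = 1 - (S.e₂ : 𝓞 K) * (P : 𝓞 K) := by
    have h := hS.bez
    have h2 : (((S.e₁ * S.M + S.e₂ * P : ℤ)) : 𝓞 K) = 1 := by rw [h]; simp
    push_cast at h2
    linear_combination h2
  unfold LD.x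
  push_cast
  rw [h1]
  ring

theorem x_mem {D : Ctx F K m} {l : 𝓞 F} {P : ℕ} (hP : P ≠ 0) (S : LD D l P) (hS : S.Ok) (hD : D.Ok) {a : 𝓞 K} (ha : a ∈ D.X)
    {β : 𝓞 K} (hβ : β ∈ S.B) : S.x a β - β ∈ Lat D S.A S.M ∧ S.x a β ∈ (cx D (Ideal.span {(P : 𝓞 K)}) a).X := by
  have hβX := hS.rep.sub β hβ
  have hab := r4_sub D ha hβX
  constructor
  · rw [r4_x_beta S hS]
    refine ⟨?_, fun i => ?_, fun k => ?_⟩
    · exact D.I.mul_mem_left _ (D.I.mul_mem_left _ hab)
    · exact (D.c i).mul_mem_right _ (hS.smo i)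
    · obtain ⟨y, hy⟩ := dirN_tr D l (2 * P) S.A S.w' hS.dir (a - β) hab k
      refine ⟨(S.e₁ : 𝓞 F) * (l * y), ?_⟩
      rw [r4_Tr_nat, r4_Tr_int, hy, map_mul (eF F) (S.e₁ : 𝓞 F), map_intCast]
  · show S.x a β - a ∈ Ideal.span {(P : 𝓞 K)} * D.I
    rw [r4_x_a S hS]
    refine Ideal.mul_mem_mul (Ideal.mem_span_singleton_self _) (D.I.mul_mem_left _ ?_)
    exact r4_sub D hβX ha

theorem r4_up {D : Ctx F K m} {l : 𝓞 F} {P : ℕ} (S : LD D l P) (hS : S.Ok) {a v : 𝓞 K}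
    (h1 : v ∈ Lat D S.A S.M) (h2 : v ∈ Ideal.span {(P : 𝓞 K)} * D.I) :
    v ∈ Lat (cx D (Ideal.span {(P : 𝓞 K)}) a) S.A (P * S.M) := by
  refine ⟨h2, h1.2.1, fun k => ?_⟩
  obtain ⟨z, hz, hzv⟩ := Ideal.mem_span_singleton_mul.1 h2
  obtain ⟨t, ht⟩ := h1.2.2 k
  obtain ⟨y, hy⟩ := dirN_tr D l (2 * P) S.A S.w' hS.dir z hz k
  have h3 : D.Tr (S.A k) v = (P : ℂ) * eF F (l * y) := by
    rw [← hzv, r4_Tr_nat, hy]
  refine ⟨(S.e₁ : 𝓞 F) * (l * y) + (S.e₂ : 𝓞 F) * t, ?_⟩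
  have h : ((S.e₁ * S.M + S.e₂ * P : ℤ) : ℂ) = 1 := by rw [hS.bez]; simp
  push_cast at h
  change D.Tr (S.A k) v = _
  rw [map_add (eF F), map_mul (eF F) (S.e₁ : 𝓞 F), map_mul (eF F) (S.e₂ : 𝓞 F) t, map_intCast,
    map_intCast]
  push_cast
  have h4 : (S.M : ℂ) * eF F t = (P : ℂ) * eF F (l * y) := by rw [← ht, h3]
  have h5 : (P : ℂ) * ((S.M : ℂ) * (S.e₂ * eF F t)) = (P : ℂ) * (S.e₂ * ((P : ℂ) * eF F (l * y))) := by
    rw [← h4]; ring
  have h6 : (P : ℂ) * (S.M : ℂ) * ((S.e₁ : ℂ) * eF F (l * y) + S.e₂ * eF F t) =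
      (P : ℂ) * eF F (l * y) := by
    have h7 : (P : ℂ) * (S.M : ℂ) * ((S.e₁ : ℂ) * eF F (l * y) + S.e₂ * eF F t) =
      (P : ℂ) * (S.M : ℂ) * ((S.e₁ : ℂ) * eF F (l * y)) +
        (P : ℂ) * ((S.M : ℂ) * (S.e₂ * eF F t)) := by ring
    rw [h7, h5]
    linear_combination (P : ℂ) * eF F (l * y) * h
  rw [h6, h3]

theorem r4_down {D : Ctx F K m} {P M : ℕ} {A : Fin (m + 1) → K} {a v : 𝓞 K}
    (h : v ∈ Lat (cx D (Ideal.span {(P : 𝓞 K)}) a) A (P * M)) : v ∈ Lat D A M := by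
  refine ⟨cx_le D _ h.1, h.2.1, fun k => ?_⟩
  obtain ⟨t, ht⟩ := h.2.2 k
  refine ⟨(P : 𝓞 F) * t, ?_⟩
  change D.Tr (A k) v = _ at ht
  rw [ht, map_mul, map_natCast]
  push_cast
  ring

open Classical in
theorem x_rep {D : Ctx F K m} {l : 𝓞 F} {P : ℕ} (hP : P ≠ 0) (S : LD D l P) (hS : S.Ok) (hD : D.Ok) {a : 𝓞 K} (ha : a ∈ D.X) :
    Set.InjOn (S.x a) S.B ∧ RpL (cx D (Ideal.span {(P : 𝓞 K)}) a) S.A (P * S.M) (S.B.image (S.x a)) := by
  have huniq : ∀ β ∈ S.B, ∀ β' ∈ S.B, S.x a β - S.x a β' ∈ Lat D S.A S.M → β = β' := by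
    intro β hβ β' hβ' hd
    have h1 := (x_mem hP S hS hD ha hβ).1
    have h2 := (x_mem hP S hS hD ha hβ').1
    have h3 : β - β' ∈ Lat D S.A S.M := by
      have h4 : β - β' = (S.x a β - S.x a β') - (S.x a β - β) + (S.x a β' - β') := by ring
      rw [h4]
      exact add_mem (sub_mem hd h1) h2
    refine (hS.rep.ex β (hS.rep.sub β hβ)).unique ⟨hβ, ?_⟩ ⟨hβ', h3⟩
    rw [sub_self]
    exact zero_mem _
  refine ⟨?_, ?_, ?_⟩
  · intro β hβ β' hβ' h
    refine huniq β hβ β' hβ' ?_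
    rw [h, sub_self]
    exact zero_mem _
  · intro x hx
    obtain ⟨β, hβ, rfl⟩ := Finset.mem_image.1 hx
    exact (x_mem hP S hS hD ha hβ).2
  · intro x hx
    have hxX : x ∈ D.X := cx_mem D _ ha hx
    obtain ⟨β, ⟨hβ, hxβ⟩, _⟩ := hS.rep.ex x hxX
    have h1 := x_mem hP S hS hD ha hβ
    have hxy : x - S.x a β ∈ Lat D S.A S.M := by
      have h4 : x - S.x a β = (x - β) - (S.x a β - β) := by ring
      rw [h4]
      exact sub_mem hxβ h1.1
    have hxyI : x - S.x a β ∈ Ideal.span {(P : 𝓞 K)} * D.I :=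
      r4_sub (cx D (Ideal.span {(P : 𝓞 K)}) a) hx h1.2
    have hxyC := r4_up S hS (a := a) hxy hxyI
    refine ⟨S.x a β, ⟨Finset.mem_image_of_mem _ hβ, hxyC⟩, ?_⟩
    rintro y ⟨hy, hxy'⟩
    obtain ⟨β', hβ', rfl⟩ := Finset.mem_image.1 hy
    have h5 : S.x a β' - S.x a β ∈ Lat D S.A S.M := by
      have h4 : S.x a β' - S.x a β = (x - S.x a β) - (x - S.x a β') := by ring
      rw [h4]
      exact r4_down (sub_mem hxyC hxy')
    rw [huniq β' hβ' β hβ h5]

theorem x_full {D : Ctx F K m} {l : 𝓞 F} {P : ℕ} (S : LD D l P) (hS : S.Ok) (a : 𝓞 K) :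
    Full (cx D (Ideal.span {(P : 𝓞 K)}) a) S.A (P * S.M) := by
  intro y
  obtain ⟨x, hx1, hx2, hx3⟩ := hS.full y
  refine ⟨(P : 𝓞 K) * x, Ideal.mul_mem_mul (Ideal.mem_span_singleton_self _) hx1,
    fun i => (D.c i).mul_mem_left _ (hx2 i), fun k => ?_⟩
  change D.Tr (S.A k) ((P : 𝓞 K) * x) = _
  rw [r4_Tr_nat, hx3]
  push_cast
  ring

theorem x_per {D : Ctx F K m} {l : 𝓞 F} {P : ℕ} (S : LD D l P) (hS : S.Ok) (a : 𝓞 K) (x : 𝓞 K) :
    ∀ y ∈ Lat (cx D (Ideal.span {(P : 𝓞 K)}) a) S.A (P * S.M), S.G (x + y) = S.G x :=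
  fun y hy => hS.per x y hy.2.1

end SSG.E
end

-- from Lib.SSG.E.W6
section

open NumberField IsDedekindDomain MeasureTheory

namespace SSG.E

open H55N H55P

variable {F : Type} [Field F] [NumberField F] [IQ F] {K : Type} [Field K] [NumberField K]
  [Algebra F K] {m : ℕ}

/-! Chunk W6 (M). Sums over X as sums over the classes: X is the disjoint union of the sets (cx D q a).X, a in R (cx_mem, Rp.ex), and φ is constant on each (Wt.per). Use Summable on X (norm), the equivalence of X with the sigma type over R of (cx D q a).X (or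
HasSum.sum over the indicator functions of the classes: hasSum_sum, Function.Injective.hasSum_iff), tsum_congr. -/

theorem w6_aux {α : Type*} (S T : Set α) (h : S ⊆ T) (f : α → ℝ) (hf : Summable fun x : T => f x) :
    Summable fun x : S => f x := hf.comp_injective (Set.inclusion_injective h)

theorem w6_summable (D : Ctx F K m) (q : Ideal (𝓞 K)) {a : 𝓞 K} (ha : a ∈ D.X) (f : 𝓞 K → ℂ)
    (hf : Summable fun x : D.X => ‖f x‖) : Summable fun x : (cx D q a).X => ‖f x‖ := by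
  have h1 : (cx D q a).X ⊆ D.X := fun x hx => cx_mem D q ha hx
  have h2 : Summable fun x : (cx D q a).X => (fun y => ‖f y‖) x :=
    w6_aux (cx D q a).X D.X h1 (fun y => ‖f y‖) hf
  exact h2

theorem sum_classes (D : Ctx F K m) (u : Fin m → (𝓞 K)ˣ) (q : Ideal (𝓞 K)) (R : Finset (𝓞 K)) (hR : Rp D q R) (φ : 𝓞 K → ℂ)
    (hφ : Wt D q u φ) (f : 𝓞 K → ℂ) (hf : Summable fun x : D.X => ‖f x‖) :
    ∑' x : D.X, φ x * f x = ∑ a ∈ R, φ a * ∑' x : (cx D q a).X, f x := by
  have hsub : ∀ a ∈ R, ∀ x, x ∈ (cx D q a).X → x ∈ D.X := fun a ha x hx =>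
    cx_mem D q (hR.sub a ha) hx
  have h1 : ∑' x : D.X, φ x * f x = ∑' x : 𝓞 K, Set.indicator D.X (fun y => φ y * f y) x :=
    tsum_subtype D.X (fun y => φ y * f y)
  have h2 : ∀ x : 𝓞 K, Set.indicator D.X (fun y => φ y * f y) x =
      ∑ a ∈ R, φ a * Set.indicator (cx D q a).X f x := by
    intro x
    by_cases hx : x ∈ D.X
    · rw [Set.indicator_of_mem hx]
      obtain ⟨a, ⟨ha, hxa⟩, huniq⟩ := hR.ex x hx
      rw [Finset.sum_eq_single a]
      · have h3 : x ∈ (cx D q a).X := hxa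
        rw [Set.indicator_of_mem h3, hφ.per x hx a hxa]
      · intro b hb hba
        have h3 : x ∉ (cx D q b).X := fun h => hba (huniq b ⟨hb, h⟩)
        rw [Set.indicator_of_notMem h3, mul_zero]
      · intro h
        exact absurd ha h
    · rw [Set.indicator_of_notMem hx]
      symm
      refine Finset.sum_eq_zero fun a ha => ?_
      have h3 : x ∉ (cx D q a).X := fun h => hx (hsub a ha x h)
      rw [Set.indicator_of_notMem h3, mul_zero]
  rw [h1, tsum_congr h2]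
  have hs : ∀ a ∈ R, Summable fun x : 𝓞 K => φ a * Set.indicator (cx D q a).X f x := by
    intro a ha
    refine Summable.mul_left _ ?_
    rw [← summable_subtype_iff_indicator]
    exact (w6_summable D q (hR.sub a ha) f hf).of_norm
  rw [Summable.tsum_finsetSum hs]
  refine Finset.sum_congr rfl fun a _ => ?_
  rw [tsum_mul_left]
  congr 1
  exact (tsum_subtype (cx D q a).X f).symm


/-- φ is bounded on X. -/
theorem wt_bdd (D : Ctx F K m) (u : Fin m → (𝓞 K)ˣ) (q : Ideal (𝓞 K)) (R : Finset (𝓞 K)) (hR : Rp D q R) (φ : 𝓞 K → ℂ)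
    (hφ : Wt D q u φ) : ∃ C : ℝ, ∀ x ∈ D.X, ‖φ x‖ ≤ C := by
  refine ⟨∑ a ∈ R, ‖φ a‖, fun x hx => ?_⟩
  obtain ⟨a, ⟨ha, hxa⟩, -⟩ := hR.ex x hx
  rw [hφ.per x hx a hxa]
  exact Finset.single_le_sum (f := fun a => ‖φ a‖) (fun _ _ => norm_nonneg _) ha

end SSG.E
end

-- from Lib.SSG.E.W7
section

open NumberField IsDedekindDomain MeasureTheory

namespace SSG.E

open H55N H55P

variable {F : Type} [Field F] [NumberField F] [IQ F] {K : Type} [Field K] [NumberField K]
  [Algebra F K] {m : ℕ}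

/-! Chunk W7 (M). The weighted zeta function. COPY of zfun in Lib/H55P/U5.lean. V(s) = int over the cube of sum over a in R of φ a * (sum over (cx D q a).X of G x * Dif w univ (D.fs (tt lm z) s) x); V is analytic: it is the finite sum over R of φ a times the
integrals (the integral of a finite sum: each integrand is integrable on the cube; to avoid integrability DEFINE V(s) as the finite sum of φ a * integral, cont_analytic for cx D q a), and use unfold for D (U3.lean) with g x := φ' x * D.g x where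
φ' x = φ x for x in X and 0 otherwise (bounded by wt_bdd; invariant on X under the units: Wt.inv, R5_g, u3_mem). unfold gives the sum over T as the integral of sum over D.X of φ x * D.g x * fs; by sum_classes (summable: fs_summable and g bounded) and hG.2 for
each class this is the sum over R of φ a * sum over the class of G x * Dif. To interchange the finite sum over R and the integral at the end (value at 1 and V(s)) one needs integrability of z -> sum over the class of G Dif (fs (tt lm z) s) for Re s > 3/2 and s = 1: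
for s = 1 it is continuous in z on the compact cube (Bv_cont, pu5_fs_one); for Re s > 3/2 it is equal to the sum over the class of D.g x * fs x, which is a uniform limit (continuousOn_tsum with the bound of u3_fs_le, u3_tt, u3_sum); IntegrableOn by
ContinuousOn.integrableOn_compact, isCompact_Icc. Gamma factors: U5_gam. -/

theorem w7_tt_cont (lm : Fin (m + 1) → Fin m → ℝ) : Continuous fun z : Fin m → ℝ => tt lm z := by
  refine continuous_pi fun i => ?_
  unfold tt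
  exact Real.continuous_exp.comp
    (continuous_finsetSum _ fun j _ => (continuous_apply j).mul continuous_const)

theorem w7_fs_cont (D : Ctx F K m) (lm : Fin (m + 1) → Fin m → ℝ) (s : ℂ) (x : 𝓞 K) (hx : x ≠ 0) :
    Continuous fun z : Fin m → ℝ => D.fs (tt lm z) s x := by
  have hQ : Continuous fun z : Fin m → ℝ => D.Q (tt lm z) x := by
    unfold H55P.Ctx.Q
    exact continuous_finsetSum _ fun i _ =>
      ((continuous_apply i).comp (w7_tt_cont lm)).mul continuous_const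
  unfold H55P.Ctx.fs
  refine continuous_const.mul ?_
  refine (Complex.continuous_ofReal.comp hQ).cpow continuous_const fun z => ?_
  have h1 : 0 < D.Q (tt lm z) x := by
    unfold H55P.Ctx.Q
    exact Finset.sum_pos (fun i _ => mul_pos (Real.exp_pos _) (H55P.u3_pos D x hx i))
      Finset.univ_nonempty
  exact Or.inl h1

theorem w7_cont (D : Ctx F K m) (hD : D.Ok) (lm : Fin (m + 1) → Fin m → ℝ) (s : ℂ)
    (hs : 3 / 2 < s.re) : ContinuousOn (fun z : Fin m → ℝ => ∑' x : D.X, D.g x * D.fs (tt lm z) s x)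
      (Set.Icc (0 : Fin m → ℝ) 1) := by
  obtain ⟨Cg, hCg⟩ := H55P.g_bdd D
  have hCg0 : 0 ≤ Cg := (norm_nonneg _).trans (hCg 0)
  obtain ⟨a, ha, hat⟩ := H55P.u3_tt lm
  obtain ⟨c, hc, hQ⟩ := Q_low D hD.emb a ha
  refine continuousOn_tsum (u := fun x : D.X => Cg * (c ^ (-((m + 1 : ℕ) * s.re)) *
    D.sz (x : 𝓞 K) ^ (-((2 * s.re - 1) * (m + 1 : ℝ))))) (fun x => ?_) ?_ fun x z hz => ?_
  · exact (continuous_const.mul
      (w7_fs_cont D lm s x (D.X_ne hD.ne x.2))).continuousOn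
  · exact ((H55P.u3_sum D hD.emb s hs).mul_left _).mul_left _
  · rw [norm_mul]
    refine mul_le_mul (hCg _) ?_ (norm_nonneg _) hCg0
    exact H55P.u3_fs_le D (tt lm z) s (by linarith) c hc x (hQ _ (hat z hz) x (D.X_ne hD.ne x.2))

theorem zfunw (D : Ctx F K m) (hD : D.Ok) (u : Fin m → (𝓞 K)ˣ) (hu : D.UOk u) (q : Ideal (𝓞 K)) (R : Finset (𝓞 K))
    (hR : Rp D q R) (φ : 𝓞 K → ℂ) (hφ : Wt D q u φ)
    (A : Fin (m + 1) → K) (w : Fin (m + 1) × Fin 2 → 𝓞 K) (hdir : ∀ a ∈ R, (cx D q a).Dirs A w) (G : 𝓞 K → ℂ)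
    (hG : ∀ a ∈ R, (cx D q a).GSpec w G) : ∃ Z : ℂ → ℂ, AnalyticOnNhd ℂ Z {s | 1 / 2 < s.re} ∧
      (∀ T : Set (𝓞 K), T ⊆ D.X →
        (∀ x ∈ D.X, ∃! q : (Fin m → ℤ) × T, x = (uu u q.1 : 𝓞 K) * q.2) →
        ∀ s : ℂ, 3 / 2 < s.re → HasSum (fun x : T => φ x * (D.g x * nf F s (x : 𝓞 K))) (Z s)) ∧
      Z 1 = (m.factorial : ℂ) * ((|Delta (D.lm u)| : ℝ) : ℂ) *
        ∫ z in Set.Icc (0 : Fin m → ℝ) 1, ∑ a ∈ R, φ a * (cx D q a).Bv w G (fun _ => tt (D.lm u) z) := by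
  have hok : ∀ a ∈ R, (cx D q a).Ok := fun a ha => cx_ok D hD q (hR.sub a ha)
  set V : ℂ → ℂ := fun s => ∑ a ∈ R, φ a * ∫ z in Set.Icc (0 : Fin m → ℝ) 1,
      ∑' x : (cx D q a).X, G x * Dif w Finset.univ ((cx D q a).fs (tt (D.lm u) z) s) x with hVdef
  have hcard : Fintype.card (Fin (m + 1) × Fin 2) = 2 * (m + 1) := by
    rw [Fintype.card_prod, Fintype.card_fin, Fintype.card_fin, mul_comm]
  have hreg : 3 / 2 - (Fintype.card (Fin (m + 1) × Fin 2) : ℝ) / (2 * (m + 1)) = 1 / 2 := by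
    rw [hcard]
    push_cast
    field_simp
    norm_num
  have hV : AnalyticOnNhd ℂ V {s | 1 / 2 < s.re} := by
    refine Finset.analyticOnNhd_fun_sum R fun a ha => ?_
    have h := H55P.cont_analytic (cx D q a) (hok a ha).emb (cx D q a).I le_rfl (hok a ha).ne w
      (hdir a ha).mem hcard.le G (hG a ha).1 (D.lm u)
    rw [hreg] at h
    exact analyticOnNhd_const.mul h
  obtain ⟨hA1, hA2⟩ := H55P.U5_gam D u hu V (1 / 2) (by norm_num) hV
  refine ⟨_, hA1, ?_, ?_⟩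
  · intro T hT hbij s hs
    obtain ⟨Cφ, hCφ⟩ := wt_bdd D u q R hR φ hφ
    obtain ⟨Cg, hCg⟩ := H55P.g_bdd D
    have hCg0 : 0 ≤ Cg := (norm_nonneg _).trans (hCg 0)
    have hφ' : ∀ x, ‖Set.indicator D.X φ x‖ ≤ |Cφ| := by
      intro x
      by_cases hx : x ∈ D.X
      · rw [Set.indicator_of_mem hx]
        exact (hCφ x hx).trans (le_abs_self Cφ)
      · rw [Set.indicator_of_notMem hx, norm_zero]
        exact abs_nonneg Cφ
    have hgb : ∃ C : ℝ, ∀ x, ‖Set.indicator D.X φ x * D.g x‖ ≤ C := by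
      refine ⟨|Cφ| * Cg, fun x => ?_⟩
      rw [norm_mul]
      exact mul_le_mul (hφ' x) (hCg x) (norm_nonneg _) (abs_nonneg _)
    have hgu : ∀ x ∈ D.X, ∀ z, Set.indicator D.X φ ((uu u z : 𝓞 K) * x) * D.g ((uu u z : 𝓞 K) * x) =
        Set.indicator D.X φ x * D.g x := by
      intro x hx z
      rw [Set.indicator_of_mem hx, Set.indicator_of_mem (H55P.u3_mem D u hu z x hx), hφ.inv x hx z,
        H55P.R5_g D (uu u z) x]
    obtain ⟨h1, h2⟩ := unfold D hD.emb hD.ne u hu (fun x => Set.indicator D.X φ x * D.g x) hgb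
      hgu T hT hbij s hs
    have hsum : ∀ z : Fin m → ℝ, Summable fun x : D.X => ‖D.g x * D.fs (tt (D.lm u) z) s x‖ := by
      intro z
      refine Summable.of_nonneg_of_le (fun _ => norm_nonneg _) (fun x => ?_)
        ((H55P.fs_summable D hD.emb hD.ne (tt (D.lm u) z) (fun i => Real.exp_pos _) s hs).mul_left Cg)
      rw [norm_mul]
      exact mul_le_mul_of_nonneg_right (hCg _) (norm_nonneg _)
    have hcl : ∀ a ∈ R, ∀ z : Fin m → ℝ, ∑' x : (cx D q a).X, D.g x * D.fs (tt (D.lm u) z) s x =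
        ∑' x : (cx D q a).X, G x * Dif w Finset.univ ((cx D q a).fs (tt (D.lm u) z) s) x := by
      intro a ha z
      exact (hG a ha).2 ((cx D q a).fs (tt (D.lm u) z) s)
        (H55P.fs_summable (cx D q a) (hok a ha).emb (hok a ha).ne _ (fun i => Real.exp_pos _) s hs)
    have hint : ∀ a ∈ R, IntegrableOn (fun z : Fin m → ℝ =>
        φ a * ∑' x : (cx D q a).X, G x * Dif w Finset.univ ((cx D q a).fs (tt (D.lm u) z) s) x)
        (Set.Icc (0 : Fin m → ℝ) 1) volume := by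
      intro a ha
      refine ContinuousOn.integrableOn_compact isCompact_Icc ?_
      refine continuousOn_const.mul ?_
      have hc := w7_cont (cx D q a) (hok a ha) (D.lm u) s hs
      refine hc.congr fun z _ => ?_
      exact (hcl a ha z).symm
    have h3 : (∑' x : T, Set.indicator D.X φ x * D.g x * nf F s (x : 𝓞 K)) * cst (D.lm u) s =
        V s := by
      rw [h2, hVdef]
      simp only
      have h4 : ∀ z : Fin m → ℝ, ∑' x : D.X, Set.indicator D.X φ x * D.g x *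
          D.fs (tt (D.lm u) z) s x = ∑ a ∈ R, φ a * ∑' x : (cx D q a).X,
            G x * Dif w Finset.univ ((cx D q a).fs (tt (D.lm u) z) s) x := by
        intro z
        have h5 := sum_classes D u q R hR φ hφ (fun x => D.g x * D.fs (tt (D.lm u) z) s x) (hsum z)
        rw [Finset.sum_congr rfl fun a ha => congrArg (fun y => φ a * y) (hcl a ha z).symm, ← h5]
        refine tsum_congr fun x => ?_
        rw [Set.indicator_of_mem x.2, mul_assoc]
      rw [show (∫ z in Set.Icc (0 : Fin m → ℝ) 1, ∑' x : D.X, Set.indicator D.X φ x * D.g x *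
          D.fs (tt (D.lm u) z) s x) = ∫ z in Set.Icc (0 : Fin m → ℝ) 1,
            ∑ a ∈ R, φ a * ∑' x : (cx D q a).X,
            G x * Dif w Finset.univ ((cx D q a).fs (tt (D.lm u) z) s) x from
        integral_congr_ae (Filter.Eventually.of_forall h4)]
      rw [integral_finsetSum R hint]
      exact Finset.sum_congr rfl fun a _ => integral_const_mul _ _
    have h4 := hA2 s (by linarith) _ h3
    rw [h4]
    have h5 : ∀ x : T, Set.indicator D.X φ x * D.g x * nf F s (x : 𝓞 K) =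
        φ x * (D.g x * nf F s (x : 𝓞 K)) := by
      intro x
      rw [Set.indicator_of_mem (hT x.2), mul_assoc]
    have h6 := h1.of_norm.hasSum
    have h7 : HasSum (fun x : T => φ x * (D.g x * nf F s (x : 𝓞 K)))
        (∑' x : T, Set.indicator D.X φ x * D.g x * nf F s (x : 𝓞 K)) := by
      refine h6.congr_fun ?_
      exact fun x => (h5 x).symm
    exact h7
  · have h1 : V 1 = ∫ z in Set.Icc (0 : Fin m → ℝ) 1,
        ∑ a ∈ R, φ a * (cx D q a).Bv w G (fun _ => tt (D.lm u) z) := by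
      have hint : ∀ a ∈ R, IntegrableOn (fun z : Fin m → ℝ =>
          φ a * (cx D q a).Bv w G (fun _ => tt (D.lm u) z)) (Set.Icc (0 : Fin m → ℝ) 1) volume := by
        intro a ha
        refine ContinuousOn.integrableOn_compact isCompact_Icc ?_
        refine continuousOn_const.mul ?_
        have hc := H55P.Bv_cont (cx D q a) (hok a ha) A w (hdir a ha) G (hG a ha)
        refine hc.comp (f := fun z : Fin m → ℝ => fun _ : Fin (m + 1) => tt (D.lm u) z) ?_ ?_
        · refine Continuous.continuousOn ?_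
          exact continuous_pi fun _ => w7_tt_cont (D.lm u)
        · intro z _ j i
          exact Real.exp_pos _
      rw [integral_finsetSum R hint, hVdef]
      simp only
      refine Finset.sum_congr rfl fun a ha => ?_
      rw [integral_const_mul]
      congr 1
      refine integral_congr_ae (Filter.Eventually.of_forall fun z => ?_)
      show ∑' x : (cx D q a).X, _ = ∑' x : (cx D q a).X, _
      refine tsum_congr fun x => ?_
      congr 2
      funext y
      exact pu5_fs_one (cx D q a) _ y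
    show V 1 * _ * _ / _ = _
    rw [h1, mul_one, Complex.Gamma_one, one_pow, div_one]
    have h2 : Complex.Gamma ((m + 1 : ℕ) : ℂ) = (m.factorial : ℂ) := by
      have := Complex.Gamma_nat_eq_factorial m
      rw [← this]
      push_cast
      rfl
    rw [h2]
    ring

end SSG.E
end

-- from Lib.SSG.E.W1
section

open NumberField IsDedekindDomain

namespace SSG.E

open H55N H55P

variable {F : Type} [Field F] [NumberField F] [IQ F] {K : Type} [Field K] [NumberField K]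
  [Algebra F K] {m : ℕ}

/-! Chunk W1 (S). The context depends only on the class of a modulo q I. (1) X: x - a and x - b differ by a - b in q I. (2) Ctx.HasReg for (cx D q a) and (cx D q b): the fields
σ, I, c, p are the same, so row, Q, cut, Idet, g are the same functions (rfl) and the sets X agree by (1) (rewrite the subtype: after `have hX : (cx D q a).X = (cx D q b).X`, unfold Ctx.HasReg, rw [hX]; if the motive is wrong state
the lemma for a general set X, or use tsum over indicator / Equiv.setCongr hX). Ctx.Jv is defined by HasReg: same value (the two propositions and the choices are equal: funext/propext on S, then simp only / congr 1). Same for Bv (a sum over X) and GSpec. -/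

theorem cx_X (D : Ctx F K m) (q : Ideal (𝓞 K)) {a b : 𝓞 K} (h : a - b ∈ q * D.I) : (cx D q a).X = (cx D q b).X := by
  ext x
  show x - a ∈ q * D.I ↔ x - b ∈ q * D.I
  have e1 : x - b = (x - a) + (a - b) := by ring
  have e2 : x - a = (x - b) - (a - b) := by ring
  constructor
  · intro hx
    rw [e1]
    exact (q * D.I).add_mem hx h
  · intro hx
    rw [e2]
    exact (q * D.I).sub_mem hx h

theorem w1_reg (D : Ctx F K m) (f : 𝓞 K → ℂ) (S : ℂ) {X Y : Set (𝓞 K)} (hXY : X = Y) :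
    ((∃ C : ℝ, ∀ x ∈ X, ‖f x‖ ≤ C) ∧ ∀ B : Matrix (Fin (m + 1)) (Fin (m + 1)) ℂ, B.det ≠ 0 →
      Filter.Tendsto (fun R : ℝ => ∑' x : X, D.g x * f x * (D.cut B R x : ℂ)) Filter.atTop (nhds S)) ↔
    ((∃ C : ℝ, ∀ x ∈ Y, ‖f x‖ ≤ C) ∧ ∀ B : Matrix (Fin (m + 1)) (Fin (m + 1)) ℂ, B.det ≠ 0 →
      Filter.Tendsto (fun R : ℝ => ∑' x : Y, D.g x * f x * (D.cut B R x : ℂ)) Filter.atTop (nhds S)) := by
  subst hXY
  exact Iff.rfl

open Classical in
theorem w1_choose {P Q : ℂ → Prop} (h : P = Q) : (if h : ∃ S, P S then h.choose else 0) =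
    (if h : ∃ S, Q S then h.choose else 0 : ℂ) := by
  subst h
  rfl

theorem cx_reg (D : Ctx F K m) (q : Ideal (𝓞 K)) {a b : 𝓞 K} (h : a - b ∈ q * D.I) (f : 𝓞 K → ℂ) (S : ℂ) :
    (cx D q a).HasReg f S ↔ (cx D q b).HasReg f S :=
  w1_reg D f S (cx_X D q h)

theorem cx_Jv (D : Ctx F K m) (q : Ideal (𝓞 K)) {a b : 𝓞 K} (h : a - b ∈ q * D.I) (L : Fin (m + 1) → Lab K m) :
    (cx D q a).Jv L = (cx D q b).Jv L := by
  unfold H55P.Ctx.Jv
  exact w1_choose (funext fun S => propext (cx_reg D q h _ S))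

end SSG.E
end

-- from Lib.SSG.E.W2
section

open NumberField IsDedekindDomain

namespace SSG.E

open H55N H55P

variable {F : Type} [Field F] [NumberField F] [IQ F] {K : Type} [Field K] [NumberField K]
  [Algebra F K] {m : ℕ}

/-! Chunk W2 (M). Multiplication by a unit v moves the class of a to the class of v a. COPY of R5_inv, R5_memX, R5_equiv, R5_reg, reg_act, Jv_act in Lib/H55P/R5.lean; the assumption (v - 1) c0 in I is not needed because the class
is allowed to move: x in (cx D q a).X iff v x in (cx D q (v a)).X (v x - v a = v (x - a); conversely multiply by v^-1). g (v x) = g x (R5_g), cut (B diag) R (v x) = cut B R x (R5_cut), Idet (act v L) x = Idet L (v x) (R5_Idet);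
all these functions are the same for (cx D q a) and for D (rfl: they do not use I, c0). So (cx D q (v a)).HasReg h S implies (cx D q a).HasReg (fun x => h (v x)) S (for B use B diag(σ_j v)^-1), and conversely with v^-1 (v^-1 (v a) = a).
Then Jv by cases on existence as in Jv_act. -/

theorem w2_mem (D : Ctx F K m) (q : Ideal (𝓞 K)) (v : (𝓞 K)ˣ) (a : 𝓞 K) {x : 𝓞 K} (hx : x ∈ (cx D q a).X) :
    (v : 𝓞 K) * x ∈ (cx D q ((v : 𝓞 K) * a)).X := by
  have h1 : x - a ∈ q * D.I := hx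
  show (v : 𝓞 K) * x - v * a ∈ q * D.I
  rw [← mul_sub]
  exact Ideal.mul_mem_left _ _ h1

theorem w2_mem' (D : Ctx F K m) (q : Ideal (𝓞 K)) (v : (𝓞 K)ˣ) (a : 𝓞 K) {x : 𝓞 K} (hx : x ∈ (cx D q ((v : 𝓞 K) * a)).X) :
    ((v⁻¹ : (𝓞 K)ˣ) : 𝓞 K) * x ∈ (cx D q a).X := by
  have h1 : x - v * a ∈ q * D.I := hx
  show ((v⁻¹ : (𝓞 K)ˣ) : 𝓞 K) * x - a ∈ q * D.I
  have h2 : ((v⁻¹ : (𝓞 K)ˣ) : 𝓞 K) * x - a = ((v⁻¹ : (𝓞 K)ˣ) : 𝓞 K) * (x - v * a) := by
    rw [mul_sub, ← mul_assoc, v.inv_mul, one_mul]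
  rw [h2]
  exact Ideal.mul_mem_left _ _ h1

/-- Multiplication by v from the class of a to the class of v a. -/
noncomputable def w2_equiv (D : Ctx F K m) (q : Ideal (𝓞 K)) (v : (𝓞 K)ˣ) (a : 𝓞 K) :
    (cx D q a).X ≃ (cx D q ((v : 𝓞 K) * a)).X where
  toFun x := ⟨v * x, w2_mem D q v a x.2⟩
  invFun x := ⟨((v⁻¹ : (𝓞 K)ˣ) : 𝓞 K) * x, w2_mem' D q v a x.2⟩
  left_inv x := by
    apply Subtype.ext
    show ((v⁻¹ : (𝓞 K)ˣ) : 𝓞 K) * (v * x) = x
    rw [← mul_assoc, v.inv_mul, one_mul]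
  right_inv x := by
    apply Subtype.ext
    show (v : 𝓞 K) * (((v⁻¹ : (𝓞 K)ˣ) : 𝓞 K) * x) = x
    rw [← mul_assoc, v.mul_inv, one_mul]

theorem mv_reg (D : Ctx F K m) (q : Ideal (𝓞 K)) (v : (𝓞 K)ˣ) (a : 𝓞 K) {h : 𝓞 K → ℂ} {S : ℂ}
    (hS : (cx D q ((v : 𝓞 K) * a)).HasReg h S) : (cx D q a).HasReg (fun x => h (v * x)) S := by
  obtain ⟨⟨C, hC⟩, hB⟩ := hS
  refine ⟨⟨C, fun x hx => hC _ (w2_mem D q v a hx)⟩, fun B hdet => ?_⟩
  have hd : (B * Matrix.diagonal fun j => (D.σ j ((v : 𝓞 K) : K))⁻¹).det ≠ 0 := by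
    rw [Matrix.det_mul, Matrix.det_diagonal]
    exact mul_ne_zero hdet (Finset.prod_ne_zero_iff.2 fun j _ => inv_ne_zero (H55P.R5_ne D v j))
  have h1 := hB _ hd
  refine h1.congr fun R => ?_
  rw [← (w2_equiv D q v a).tsum_eq]
  refine tsum_congr fun x => ?_
  have e1 : (cx D q ((v : 𝓞 K) * a)).g (v * x) = (cx D q a).g x := H55P.R5_g (cx D q a) v x
  have e2 : (cx D q ((v : 𝓞 K) * a)).cut (B * Matrix.diagonal fun j => (D.σ j ((v : 𝓞 K) : K))⁻¹) R (v * x) =
      (cx D q a).cut B R x := H55P.R5_cut (cx D q a) v B R x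
  show (cx D q ((v : 𝓞 K) * a)).g (v * x) * h (v * x) *
    ((cx D q ((v : 𝓞 K) * a)).cut (B * Matrix.diagonal fun j => (D.σ j ((v : 𝓞 K) : K))⁻¹) R (v * x) : ℂ) = _
  rw [e1, e2]

theorem w2_iff (D : Ctx F K m) (q : Ideal (𝓞 K)) (v : (𝓞 K)ˣ) (hN : ∏ i, D.σ i ((v : 𝓞 K) : K) = 1) (a : 𝓞 K)
    (L : Fin (m + 1) → Lab K m) (S : ℂ) :
    (cx D q a).HasReg ((cx D q a).Idet fun j => D.act v (L j)) S ↔
      (cx D q ((v : 𝓞 K) * a)).HasReg ((cx D q ((v : 𝓞 K) * a)).Idet L) S := by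
  have h1 : ((cx D q a).Idet fun j => D.act v (L j)) = fun x => (cx D q ((v : 𝓞 K) * a)).Idet L (v * x) :=
    funext fun x => H55P.R5_Idet (cx D q a) v hN L x
  rw [h1]
  constructor
  · intro h
    have e : ((v⁻¹ : (𝓞 K)ˣ) : 𝓞 K) * ((v : 𝓞 K) * a) = a := by rw [← mul_assoc, v.inv_mul, one_mul]
    have h2 := mv_reg D q v⁻¹ ((v : 𝓞 K) * a) (h := fun x => (cx D q ((v : 𝓞 K) * a)).Idet L (v * x)) (S := S)
      (by rw [e]; exact h)
    have h3 : (fun x : 𝓞 K => (cx D q ((v : 𝓞 K) * a)).Idet L (v * (((v⁻¹ : (𝓞 K)ˣ) : 𝓞 K) * x))) =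
        (cx D q ((v : 𝓞 K) * a)).Idet L := by
      funext x
      rw [← mul_assoc, v.mul_inv, one_mul]
    rwa [h3] at h2
  · exact fun h => mv_reg D q v a h

theorem mv_Jv (D : Ctx F K m) (q : Ideal (𝓞 K)) (v : (𝓞 K)ˣ) (hN : ∏ i, D.σ i ((v : 𝓞 K) : K) = 1) (a : 𝓞 K)
    (L : Fin (m + 1) → Lab K m) : (cx D q a).Jv (fun j => D.act v (L j)) = (cx D q ((v : 𝓞 K) * a)).Jv L := by
  by_cases h : ∃ S, (cx D q ((v : 𝓞 K) * a)).HasReg ((cx D q ((v : 𝓞 K) * a)).Idet L) S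
  · obtain ⟨S, hS⟩ := h
    rw [H55P.Jv_eq _ hS, H55P.Jv_eq _ ((w2_iff D q v hN a L S).2 hS)]
  · have h' : ¬ ∃ S, (cx D q a).HasReg ((cx D q a).Idet fun j => D.act v (L j)) S :=
      fun ⟨S, hS⟩ => h ⟨S, (w2_iff D q v hN a L S).1 hS⟩
    unfold H55P.Ctx.Jv
    rw [dif_neg h, dif_neg h']

end SSG.E
end

-- from Lib.SSG.E.W4
section

open NumberField IsDedekindDomain

namespace SSG.E

open H55N H55P

variable {F : Type} [Field F] [NumberField F] [IQ F] {K : Type} [Field K] [NumberField K]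
  [Algebra F K] {m : ℕ}

/-! Chunk W4 (S). The cocycle identity and the degenerate simplices for Jw: both are linear, from prism_cocycle and Jv_degenerate for each context cx D q a (cx_ok). (Interchange the two sums: Finset.sum_comm, Finset.mul_sum.) -/

theorem Jw_prism {V : Type} (D : Ctx F K m) (hD : D.Ok) (q : Ideal (𝓞 K)) (R : Finset (𝓞 K)) (hR : Rp D q R) (φ : 𝓞 K → ℂ)
    (A : Fin (m + 1) → K) (w : Fin (m + 1) × Fin 2 → 𝓞 K) (hdir : ∀ a ∈ R, (cx D q a).Dirs A w) (L L' : V → Lab K m) (v : ℕ → V)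
    (hL : ∀ k : Fin (m + 1), L (v k) = .A (A k) ∨ ∃ t, L (v k) = .T t ∧ ∀ i, 0 < t i)
    (hL' : ∀ k ≤ m, ∃ t, L' (v k) = .T t ∧ ∀ i, 0 < t i) (i : ℕ) (hi : i ≤ m) :
    ∑ j : Fin (m + 2), (-1) ^ (j : ℕ) * Jw D q R φ (fun k : Fin (m + 1) =>
      prism L L' v i (j.succAbove k : Fin (m + 2))) = 0 := by
  have h1 : ∀ a ∈ R, ∑ j : Fin (m + 2), (-1) ^ (j : ℕ) * (cx D q a).Jv (fun k : Fin (m + 1) =>
      prism L L' v i (j.succAbove k : Fin (m + 2))) = 0 := fun a ha =>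
    H55P.prism_cocycle (cx D q a) (cx_ok D hD q (hR.sub a ha)) A w (hdir a ha) L L' v hL hL' i hi
  unfold Jw
  simp only [Finset.mul_sum]
  rw [Finset.sum_comm]
  apply Finset.sum_eq_zero
  intro a ha
  have h2 : ∀ j : Fin (m + 2), (-1) ^ (j : ℕ) * (φ a * (cx D q a).Jv (fun k : Fin (m + 1) =>
      prism L L' v i (j.succAbove k : Fin (m + 2))))
      = φ a * ((-1) ^ (j : ℕ) * (cx D q a).Jv (fun k : Fin (m + 1) =>
      prism L L' v i (j.succAbove k : Fin (m + 2)))) := fun j => by ring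
  rw [Finset.sum_congr rfl (fun j _ => h2 j), ← Finset.mul_sum, h1 a ha, mul_zero]

theorem Jw_degenerate (D : Ctx F K m) (q : Ideal (𝓞 K)) (R : Finset (𝓞 K)) (φ : 𝓞 K → ℂ)
    (L : Fin (m + 1) → Lab K m) (h : ∃ j : Fin m, L j.castSucc = L j.succ) : Jw D q R φ L = 0 := by
  unfold Jw
  apply Finset.sum_eq_zero
  intro a _
  rw [H55P.Jv_degenerate (cx D q a) L h, mul_zero]

end SSG.E
end

-- from Lib.SSG.E.W3
section

open NumberField IsDedekindDomain

namespace SSG.E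

open H55N H55P

variable {F : Type} [Field F] [NumberField F] [IQ F] {K : Type} [Field K] [NumberField K]
  [Algebra F K] {m : ℕ}

/-! Chunk W3 (M). Jw is invariant under the units. v = uu u z. By mv_Jv the left side is the sum over a in R of φ(a) (cx D q (v a)).Jv L. For a in R let s(a) be the element of R with v a - s(a) in q I (v a is in X: uu_act D u hu z and
R5_memX; Rp.ex). By cx_Jv the a-term is φ(a) (cx D q (s a)).Jv L, and φ(s a) = φ(v a) = φ(a) (Wt.per, Wt.inv). s : R -> R is injective: s a = s b gives v (a - b) in q I, so a - b in q I (multiply by v^-1), so a = b by uniqueness in Rp.ex for a;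
R is finite, so s is a bijection of R (Finset.sum_bij / Finset.sum_nbij with surjectivity from Finset.surj_on_of_inj_on_of_card_le or Finset.map_eq_of_subset). -/

theorem w3_uniq {D : Ctx F K m} {q : Ideal (𝓞 K)} {R : Finset (𝓞 K)} (hR : Rp D q R) {a b : 𝓞 K} (ha : a ∈ R) (hb : b ∈ R)
    (h : a - b ∈ q * D.I) : a = b := by
  obtain ⟨c, _, hc⟩ := hR.ex a (hR.sub a ha)
  have h0 : a - a ∈ q * D.I := by
    rw [sub_self]
    exact (q * D.I).zero_mem
  exact (hc a ⟨ha, h0⟩).trans (hc b ⟨hb, h⟩).symm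

theorem w3_sel {D : Ctx F K m} {q : Ideal (𝓞 K)} {R : Finset (𝓞 K)} (hR : Rp D q R) (v : (𝓞 K)ˣ)
    (hv : ((v : 𝓞 K) - 1) * D.c₀ ∈ D.I) (a : 𝓞 K) (ha : a ∈ R) : ∃ s, s ∈ R ∧ (v : 𝓞 K) * a - s ∈ q * D.I :=
  (hR.ex _ (H55P.R5_memX D v hv (hR.sub a ha))).exists

theorem w3_inv {D : Ctx F K m} {q : Ideal (𝓞 K)} (v w : (𝓞 K)ˣ) (hvw : (w : 𝓞 K) * v = 1) {a s t : 𝓞 K}
    (h1 : (v : 𝓞 K) * a - s ∈ q * D.I) (h2 : (w : 𝓞 K) * s - t ∈ q * D.I) : t - a ∈ q * D.I := by
  have e : t - a = -((w : 𝓞 K) * ((v : 𝓞 K) * a - s)) - ((w : 𝓞 K) * s - t) := by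
    linear_combination a * hvw
  rw [e]
  exact (q * D.I).sub_mem ((q * D.I).neg_mem ((q * D.I).mul_mem_left _ h1)) h2

theorem Jw_act (D : Ctx F K m) (u : Fin m → (𝓞 K)ˣ) (hu : D.UOk u) (q : Ideal (𝓞 K)) (R : Finset (𝓞 K)) (hR : Rp D q R)
    (φ : 𝓞 K → ℂ) (hφ : Wt D q u φ) (z : Fin m → ℤ) (L : Fin (m + 1) → Lab K m) :
    Jw D q R φ (fun j => D.act (uu u z) (L j)) = Jw D q R φ L := by
  classical
  obtain ⟨hv, hN, -⟩ := H55P.uu_act D u hu z
  have hv' := H55P.R5_inv D (uu u z) hv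
  unfold Jw
  choose s hs using w3_sel hR (uu u z) hv
  choose t ht using w3_sel hR (uu u z)⁻¹ hv'
  refine Finset.sum_bij' s t (fun a ha => (hs a ha).1) (fun a ha => (ht a ha).1) (fun a ha => ?_) (fun a ha => ?_) (fun a ha => ?_)
  · exact w3_uniq hR (ht _ (hs a ha).1).1 ha (w3_inv (uu u z) (uu u z)⁻¹ (uu u z).inv_mul (hs a ha).2 (ht _ (hs a ha).1).2)
  · exact w3_uniq hR (hs _ (ht a ha).1).1 ha (w3_inv (uu u z)⁻¹ (uu u z) (uu u z).mul_inv (ht a ha).2 (hs _ (ht a ha).1).2)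
  · have h1 := hs a ha
    rw [mv_Jv D q (uu u z) hN a L, cx_Jv D q h1.2 L, ← hφ.per _ (H55P.R5_memX D (uu u z) hv (hR.sub a ha)) _ h1.2,
      hφ.inv a (hR.sub a ha) z]

end SSG.E
end

-- from Lib.SSG.E.W5
section

open NumberField IsDedekindDomain MeasureTheory

namespace SSG.E

open H55N H55P

variable {F : Type} [Field F] [NumberField F] [IQ F] {K : Type} [Field K] [NumberField K]
  [Algebra F K] {m : ℕ}

/-! Chunk W5 (M). The value of the alternating sum. COPY of CN_value (Lib/H55P/CN.lean) with D.Jv replaced by Jw D q R φ: hJ is Jw_act; the two cocycle identities are Jw_prism; degenerate simplices: Jw_degenerate;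
reg_T for each class (cx D q a): the T-labels give det * sum over R of φ a * (cx D q a).Bv w G t; riemann with B t = sum over a in R of φ a * (cx D q a).Bv w G t (ContinuousOn: finite sum of Bv_cont for each a). Z1_Lin, Z1_Fl, Z1_Lin_add, Z1_Fl_add
of CN.lean are used for D itself. -/

theorem CNw_value (D : Ctx F K m) (hD : D.Ok) (u : Fin m → (𝓞 K)ˣ) (hu : D.UOk u) (q : Ideal (𝓞 K)) (R : Finset (𝓞 K))
    (hR : Rp D q R) (φ : 𝓞 K → ℂ) (hφ : Wt D q u φ)
    (A : Fin (m + 1) → K) (w : Fin (m + 1) × Fin 2 → 𝓞 K) (hdir : ∀ a ∈ R, (cx D q a).Dirs A w) (G : 𝓞 K → ℂ)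
    (hG : ∀ a ∈ R, (cx D q a).GSpec w G) (L : (Fin m → ℤ) → K)
    (hequi : ∀ a z : Fin m → ℤ, L (a + ((m + 1 : ℕ) : ℤ) • z) = ((uu u z : 𝓞 K) : K) * L a)
    (hdirs : ∀ (a : Fin m → Fin (m + 1)) (π : Equiv.Perm (Fin m)),
      ∃ w', ∀ r ∈ R, (cx D q r).Dirs (fun k : Fin (m + 1) => L (kv (fun k => ((a k : ℕ) : ℤ)) π k)) w') :
    CN (m + 1) (Jw D q R φ) (fun a => .A (L a)) = (m.factorial : ℂ) * ((Delta (D.lm u) : ℝ) : ℂ) *
      ∫ z in Set.Icc (0 : Fin m → ℝ) 1, ∑ a ∈ R, φ a * (cx D q a).Bv w G (fun _ => tt (D.lm u) z) := by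
  have hJ : ∀ (z : Fin m → ℤ) (l : Fin (m + 1) → Lab K m),
      Jw D q R φ (fun j => D.act (uu u z) (l j)) = Jw D q R φ l := fun z l =>
    Jw_act D u hu q R hR φ hφ z l
  have h1 : CN (m + 1) (Jw D q R φ) (fun a => .A (L a)) =
      CN (m + 1) (Jw D q R φ) (H55P.Z1_Lin D u (m + 1)) := by
    refine CN_eq (m + 1) (Nat.succ_pos m) (Jw D q R φ) (fun a => .A (L a)) (H55P.Z1_Lin D u (m + 1))
      (fun z => D.act (uu u z)) hJ ?_ (fun a z => H55P.Z1_Lin_add D u hu (m + 1) (Nat.succ_pos m) a z) ?_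
    · intro a z
      show Lab.A (L (a + ((m + 1 : ℕ) : ℤ) • z)) = Lab.A (((uu u z : 𝓞 K) : K) * L a)
      rw [hequi]
    · intro a π i hi
      obtain ⟨w', hw'⟩ := hdirs a π
      exact Jw_prism D hD q R hR φ _ w' hw' (fun a => .A (L a)) (H55P.Z1_Lin D u (m + 1)) _
        (fun k => Or.inl rfl) (fun k _ => ⟨_, rfl, H55P.Z1_tt_pos _ _⟩) i hi
  have h2 : ∀ N : ℕ, 0 < N → CN N (Jw D q R φ) (H55P.Z1_Lin D u N) = CN 1 (Jw D q R φ) (H55P.Z1_Fl D u) := by
    intro N hN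
    rw [← CN_floor N hN (Jw D q R φ) (Jw_degenerate D q R φ) (H55P.Z1_Fl D u)]
    refine CN_eq N hN (Jw D q R φ) (H55P.Z1_Lin D u N) (fun a => H55P.Z1_Fl D u fun k => a k / (N : ℤ))
      (fun z => D.act (uu u z)) hJ (fun a z => H55P.Z1_Lin_add D u hu N hN a z)
      (fun a z => H55P.Z1_Fl_add D u hu N hN a z) ?_
    intro a π i hi
    exact Jw_prism D hD q R hR φ A w hdir (H55P.Z1_Lin D u N) (fun a => H55P.Z1_Fl D u fun k => a k / (N : ℤ)) _
      (fun k => Or.inr ⟨_, rfl, H55P.Z1_tt_pos _ _⟩) (fun k _ => ⟨_, rfl, H55P.Z1_tt_pos _ _⟩) i hi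
  rw [h1, h2 _ (Nat.succ_pos m)]
  have hB : ContinuousOn (fun t : Fin (m + 1) → Fin (m + 1) → ℝ =>
      ∑ a ∈ R, φ a * (cx D q a).Bv w G t) {t | ∀ j i, 0 < t j i} :=
    continuousOn_finsetSum R fun a ha => continuousOn_const.mul
      (H55P.Bv_cont (cx D q a) (cx_ok D hD q (hR.sub a ha)) A w (hdir a ha) G (hG a ha))
  have h3 := riemann m (D.lm u) (H55P.lm_sum D u hu)
    (fun t => ∑ a ∈ R, φ a * (cx D q a).Bv w G t) hB
  refine tendsto_nhds_unique ?_ h3
  refine (tendsto_const_nhds (x := CN 1 (Jw D q R φ) (H55P.Z1_Fl D u))).congr' ?_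
  filter_upwards [Filter.eventually_gt_atTop 0] with N hN
  rw [← h2 N hN]
  unfold CN
  refine Finset.sum_congr rfl fun a _ => Finset.sum_congr rfl fun π _ => ?_
  congr 1
  unfold Jw
  rw [Finset.mul_sum]
  refine Finset.sum_congr rfl fun r hr => ?_
  have h4 := H55P.reg_T (cx D q r) (cx_ok D hD q (hR.sub r hr)) A w (hdir r hr) G (hG r hr)
    (fun j => tt (D.lm u) (fun k => (kv (fun k => ((a k : ℕ) : ℤ)) π j k : ℝ) / N))
    fun j i => H55P.Z1_tt_pos _ _ _
  have h5 : (cx D q r).Jv (fun j => H55P.Z1_Lin D u N (kv (fun k => ((a k : ℕ) : ℤ)) π j)) =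
      ((Matrix.det (Matrix.of fun j i : Fin (m + 1) =>
        tt (D.lm u) (fun k => (kv (fun k => ((a k : ℕ) : ℤ)) π j k : ℝ) / N) i) : ℝ) : ℂ) *
      (cx D q r).Bv w G (fun j => tt (D.lm u) (fun k => (kv (fun k => ((a k : ℕ) : ℤ)) π j k : ℝ) / N)) := h4
  rw [h5]
  ring

end SSG.E
end
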