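import Mathlib
import Pool.Agent.Lib.H1M.PP2.M004
import Pool.Agent.Lib.H1M.PP2.M005
import Pool.Agent.Lib.H1M.PP2.M022
import Pool.Agent.Lib.H1M.PP2.M048
import Pool.Agent.Lib.H1M.PP2.M058
import Pool.Agent.Lib.H1M.PP2.M069
import Pool.Agent.Lib.H1M.PP2.M079
import Pool.Agent.Lib.H1M.PP2.M081
import Pool.Agent.Lib.H1M.PP2.M087
import Pool.Agent.Lib.H1M.PP2.M090
import Pool.Agent.Lib.H1M.PP2.M091
import Pool.Agent.Lib.H1M.PP2.M101
import Pool.Agent.Lib.H1M.PP2.M102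
import Pool.Agent.Lib.H1M.PP2.M103
import Pool.Agent.Lib.H1M.PP2.M106
import Pool.Agent.Lib.H1M.PP2.M118
import Pool.Agent.Lib.H1M.PP2.M119
import Pool.Agent.Lib.H1M.PP2.M128
import Pool.Agent.Lib.H1M.PP2.M129

/-! Merged copies (to shorten the build) of Lib.H13D.C3, Lib.H13D.C5, Lib.H13D.E4, Lib.H13D.E9, Lib.H13D.E10, Lib.H13D.H3, Lib.H13D.Main, Lib.H55W.B4, Lib.H55W.B8, Lib.H55W.Main, Lib.SSG.E.R2, Lib.SSG.E.R5, Lib.SSG.E.W11, Lib.SSG.E.CLW. -/

-- from Lib.H13D.C3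
section

/-! # H13D, part C: the cyclotomic character -/

open NumberField IsDedekindDomain WeierstrassCurve

namespace H13D

open H55P (IQ embF eF LF Per IsHecke Pt ac Inert Dec Nm)
open H35P (WAB Ker tt GoodW IntW)
open H55K

variable {F : Type} [Field F] [NumberField F] [IQ F] {A B : F} {Om : ℂ} {Ω : Type} [Field Ω] [DecidableEq Ω]
  [Algebra F Ω] {j : Ω →+* ℂ} {act : 𝓞 F →+* AddMonoid.End (Pt (WAB A B) Ω)} {δ : 𝓞 F} {D : ℕ}

/-- Chunk C3 (M). THE SQUARE OF THE CHARACTER ON THE POINTS KILLED BY δ IS THE CYCLOTOMIC CHARACTER. Port of H55K.S.char_id (SPA1.lean), simpler: only T₀ (cj δ = -δ has the same points), integers a instead of elements of 𝓞 F. Every t in the group maps T₀ to a(t) • T₀ (ac t T₀ is killed by δ: h.gal; tor_gen) and ζ to ζ^(c(t)); a(t), c(t) are well defined modulo D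
(zsmul_iff; order of ζ), multiplicative. D₁(t) = a(t)^2, C₁(t) = c(t) in ZMod D are monoid homomorphisms from Ω ≃ₐ[F] Ω; the subgroup H where they agree (MonoidHom.eqLocus) is normal (ZMod D is commutative) and contains the fixing subgroup of L = F(xc T₀, yc T₀, ζ). H13S.PA1_top with the finite set of frob_fin together with the primes v containing D: for v outside,
of prime norm q, V above v (V(D) = 1), s a Frobenius element: frob_fin gives γ with Nm γ = q and ac s T₀ = act γ T₀ = n • T₀, γ congruent to n modulo δ (ex_int, act_tor), and q is congruent to n^2 modulo D (Nm_mod); s ζ = ζ^q (H55K.S.PA1_zeta). So s is in H. Hence H = everything. -/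
theorem chi_sq [IsAlgClosure F Ω] (h : CMA F A B Om j act) (hd : Del F δ D) {T₀ : Pt (WAB A B) Ω} (hT : act δ T₀ = 0) (h0 : T₀ ≠ 0)
    {ζ : Ω} (hζ : IsPrimitiveRoot ζ D) (s : Ω ≃ₐ[F] Ω) {a : ℤ} {c : ℕ} (ha : ac (WAB A B) s T₀ = a • T₀) (hc : s ζ = ζ ^ c) :
    (D : ℤ) ∣ a ^ 2 - c := by
  classical
  have hDp := hd.prime
  have hl0 : NeZero D := ⟨hDp.ne_zero⟩
  have hac : IsAlgClosed Ω := IsAlgClosure.isAlgClosed F
  have halg : Algebra.IsAlgebraic F Ω := IsAlgClosure.isAlgebraic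
  have hex : ∀ t : Ω ≃ₐ[F] Ω, ∃ p : ℤ × ℕ, ac (WAB A B) t T₀ = p.1 • T₀ ∧ t ζ = ζ ^ p.2 := by
    intro t
    have h1 : act δ (ac (WAB A B) t T₀) = 0 := by rw [← h.gal, hT, map_zero]
    obtain ⟨m, hm⟩ := tor_gen h hd hT h0 h1
    have h1 : (t ζ) ^ D = 1 := by rw [← map_pow, hζ.pow_eq_one, map_one]
    obtain ⟨i, _, hi⟩ := hζ.eq_pow_of_pow_eq_one h1
    exact ⟨⟨m, i⟩, hm, hi.symm⟩
  choose p hp using hex
  have hmk : ∀ x y : ℤ, (x : ZMod D) = (y : ZMod D) ↔ (D : ℤ) ∣ x - y := by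
    intro x y
    rw [← sub_eq_zero, ← Int.cast_sub, ZMod.intCast_zmod_eq_zero_iff_dvd]
  have uniq0 : ∀ (t : Ω ≃ₐ[F] Ω) (x : ℤ), ac (WAB A B) t T₀ = x • T₀ → (x : ZMod D) = ((p t).1 : ZMod D) := by
    intro t x hx
    rw [hmk, ← zsmul_iff hd hT h0, sub_smul, ← hx, ← (hp t).1, sub_self]
  have uniq1 : ∀ (t : Ω ≃ₐ[F] Ω) (x : ℤ), ac (WAB A B) t T₀ = x • T₀ → ((x : ZMod D)) ^ 2 = ((p t).1 : ZMod D) ^ 2 := by
    intro t x hx
    rw [uniq0 t x hx]
  have uniq2 : ∀ (t : Ω ≃ₐ[F] Ω) (n : ℕ), t ζ = ζ ^ n → (n : ZMod D) = ((p t).2 : ZMod D) := by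
    intro t n hn
    have h1 : ζ ^ n = ζ ^ (p t).2 := by rw [← hn, (hp t).2]
    have h2 : n ≡ (p t).2 [MOD D] := by
      rw [← pow_mod_orderOf, ← pow_mod_orderOf ζ (p t).2, ← hζ.eq_orderOf] at h1
      exact hζ.pow_inj (Nat.mod_lt _ hDp.pos) (Nat.mod_lt _ hDp.pos) h1
    exact (ZMod.natCast_eq_natCast_iff _ _ _).2 h2
  have hzs : ∀ (t : Ω ≃ₐ[F] Ω) (x : ℤ) (P : Pt (WAB A B) Ω), ac (WAB A B) t (x • P) = x • ac (WAB A B) t P :=
    fun t x P => map_zsmul (ac (WAB A B) t) x P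
  let D₁ : (Ω ≃ₐ[F] Ω) →* ZMod D :=
    { toFun := fun t => ((p t).1 : ZMod D) ^ 2
      map_one' := by
        rw [← uniq1 1 1 (by rw [H55K.S.ac_one, one_smul])]
        simp
      map_mul' := fun t u => by
        rw [← uniq1 (t * u) ((p u).1 * (p t).1)
          (by rw [H55K.S.ac_mul, (hp u).1, hzs, (hp t).1, mul_smul])]
        push_cast
        ring }
  let C₁ : (Ω ≃ₐ[F] Ω) →* ZMod D :=
    { toFun := fun t => ((p t).2 : ZMod D)
      map_one' := by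
        rw [← uniq2 1 1 (by rw [pow_one]; rfl)]
        simp
      map_mul' := fun t u => by
        rw [← uniq2 (t * u) ((p t).2 * (p u).2) (by
          rw [AlgEquiv.mul_apply, (hp u).2, map_pow, (hp t).2, pow_mul])]
        push_cast
        rfl }
  have hH : ∀ (t : Ω ≃ₐ[F] Ω) (x : ℤ) (n : ℕ), ac (WAB A B) t T₀ = x • T₀ →
      t ζ = ζ ^ n → (t ∈ MonoidHom.eqLocus D₁ C₁ ↔ (D : ℤ) ∣ x ^ 2 - n) := by
    intro t x n hx hn
    rw [← hmk]
    push_cast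
    rw [uniq1 t x hx, uniq2 t n hn]
    exact Iff.rfl
  have key : MonoidHom.eqLocus D₁ C₁ = ⊤ := by
    have hint : ∀ x : Ω, IsIntegral F x := fun x => (Algebra.IsAlgebraic.isAlgebraic x).isIntegral
    let A₁ : Set Ω := {xc T₀, yc T₀, ζ}
    have hAf : A₁.Finite := Set.toFinite A₁
    have hAf' : Finite A₁ := hAf
    have hLf : FiniteDimensional F (IntermediateField.adjoin F A₁) :=
      IntermediateField.finiteDimensional_adjoin fun x _ => hint x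
    obtain ⟨S₀, hS₀, hfr⟩ := frob_fin h
    refine H13S.PA1_top (F₀ := F) (MonoidHom.eqLocus D₁ C₁) ?_ (IntermediateField.adjoin F A₁) ?_
      (S₀ ∪ {v | (D : 𝓞 F) ∈ v.asIdeal}) ?_ ?_
    · constructor
      intro t ht g
      show D₁ (g * t * g⁻¹) = C₁ (g * t * g⁻¹)
      have h1 : D₁ t = C₁ t := ht
      rw [map_mul, map_mul, map_mul, map_mul, mul_right_comm, mul_right_comm (C₁ g), h1, ← map_mul,
        ← map_mul, mul_inv_cancel, map_one, map_one]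
    · intro t ht
      have hfix : ∀ x ∈ A₁, t x = x := fun x hx =>
        ht ⟨x, IntermediateField.subset_adjoin F A₁ hx⟩
      have e1 : ac (WAB A B) t T₀ = (1 : ℤ) • T₀ := by
        rw [one_smul]
        refine pt_ext (H55K.S.ac_ne t h0) h0 ?_ ?_
        · rw [H55K.S.xc_ac]
          exact hfix _ (by simp [A₁])
        · rw [H55K.S.yc_ac]
          exact hfix _ (by simp [A₁])
      rw [hH t 1 1 e1 (by rw [pow_one]; exact hfix _ (by simp [A₁]))]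
      simp
    · have hf : ∀ n : ℕ, n ≠ 0 → {v : HeightOneSpectrum (𝓞 F) | (n : 𝓞 F) ∈ v.asIdeal}.Finite := by
        intro n hn
        have h1 : Ideal.span {(n : 𝓞 F)} ≠ 0 := by
          rw [Ideal.zero_eq_bot, Ne, Ideal.span_singleton_eq_bot]
          exact Nat.cast_ne_zero.2 hn
        refine (Ideal.finite_factors h1).subset ?_
        intro v hv
        exact Ideal.dvd_span_singleton.2 hv
      exact hS₀.union (hf D hDp.ne_zero)
    · intro v hv hq V hV t ht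
      rw [Set.mem_union, not_or] at hv
      obtain ⟨hvS, hvl⟩ := hv
      change (D : 𝓞 F) ∉ v.asIdeal at hvl
      have hV1 : V.valuation (D : Ω) = 1 := by
        rw [← H55K.S.vo_nat (F := F)]
        exact g10b_one V v hV _ hvl
      have hVl : ¬ V.valuation (D : Ω) < 1 := by
        rw [hV1]
        exact lt_irrefl _
      obtain ⟨γ, hγ1, hγ2⟩ := hfr v hvS hq V hV t ht
      have f1 := hγ2 D hV1 T₀ (D_tor hd hT)
      obtain ⟨n, hn⟩ := ex_int hd γ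
      rw [act_tor hn hT] at f1
      have f3 := H55K.S.PA1_zeta D hDp ζ hζ V hVl _ t ht
      rw [hH t _ _ f1 f3]
      have h6 := Nm_mod hd hn
      rw [hγ1] at h6
      have h7 := dvd_neg.2 h6
      rwa [neg_sub] at h7
  have h1 : s ∈ MonoidHom.eqLocus D₁ C₁ := by
    rw [key]
    exact Subgroup.mem_top s
  exact (hH s a c ha hc).1 h1

end H13D
end

-- from Lib.H13D.C5
section

/-! # H13D, part C: the Frobenius elements at the good primes -/

open NumberField IsDedekindDomain WeierstrassCurve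

namespace H13D

open H55P (IQ embF eF LF Per IsHecke Pt ac Inert Dec Nm)
open H35P (WAB Ker tt GoodW IntW)
open H55K

variable {F : Type} [Field F] [NumberField F] [IQ F] {A B : F} {Om : ℂ} {Ω : Type} [Field Ω] [DecidableEq Ω]
  [Algebra F Ω] {j : Ω →+* ℂ} {act : 𝓞 F →+* AddMonoid.End (Pt (WAB A B) Ω)} {V : ValuationSubring Ω} {δ : 𝓞 F} {D : ℕ}

/-- Chunk C5 (M). THE FROBENIUS ELEMENT AT A GOOD PRIME v (also above 2 and 3) not containing δ. q = absNorm v = p^f, p in v (below_v in P0.lean). v = span {β} (IQ.pid), β prime, Nm β = q, V(β) < 1, V(p) < 1, V(δ) = 1, V(D) = 1 (g10b_one). Kg, RM from exists_rm (u = 1, r in F: s u = u, s r = r). ac s T₀ = a • T₀ (tor_gen; killed by δ by h.gal), β congruent to b modulo δ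
(ex_int), so act β T₀ = b • T₀ (act_tor). ζ a primitive D-th root of unity in Ω (HasEnoughRootsOfUnity.exists_primitiveRoot or IsAlgClosed), s ζ = ζ^q (H55K.S.PA1_zeta): D divides a^2 - q (chi_sq), and q - b^2 (Nm_mod), so D divides (a - b)(a + b): a • T₀ = b • T₀ or = -(b • T₀), and the same for T' = 2 • T₀: the x-coordinates of ac s T and act β T agree
for T = T₀, T' (xc (-P) = xc P). T₀, T', T₀ - T' = -T₀, T₀ + T' = 3 • T₀ are killed by δ and not 0 (zsmul_iff, D > 3), so they are not in Kg (tor_unit' for δ). frob_gen': γ = β or -β, act γ X - ac s X in Kg for all X; span {γ} = v. act γ T₀ - ac s T₀ is killed by δ and in Kg: it is 0 (tor_unit'); γ is congruent to g modulo δ: (g - a) • T₀ = 0, so δ divides γ - a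
(zsmul_iff, del_dvd_int). The number of points: exists_rm, card_gamma. -/
theorem frob_v [IsAlgClosure F Ω] (h : CMA F A B Om j act) (hd : Del F δ D) (W₀ : WeierstrassCurve (𝓞 F))
    (hA : A = -(algebraMap (𝓞 F) F W₀.c₄) / 48) (hB : B = -(algebraMap (𝓞 F) F W₀.c₆) / 864) (v : HeightOneSpectrum (𝓞 F))
    (hΔ : W₀.Δ ∉ v.asIdeal) (hδ : δ ∉ v.asIdeal) (hv : ∀ a : 𝓞 F, a ∈ v.asIdeal → V.valuation (ak Ω a) < 1)
    (s : Ω ≃ₐ[F] Ω) (hD : Dec V s) (hs : ∀ x ∈ V, V.valuation (s x - x ^ Ideal.absNorm v.asIdeal) < 1)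
    {T₀ : Pt (WAB A B) Ω} (hT : act δ T₀ = 0) (h0 : T₀ ≠ 0) {a : ℤ} (ha : ac (WAB A B) s T₀ = a • T₀) :
    ∃ γ : 𝓞 F, Ideal.span {γ} = v.asIdeal ∧ δ ∣ γ - a ∧
      Nat.card (W₀⁄(𝓞 F ⧸ v.asIdeal)).toAffine.Point = Nm (1 - γ) := by
  have hac : IsAlgClosed Ω := IsAlgClosure.isAlgClosed F
  obtain ⟨p, f, hp, hpv, -, hq⟩ := below_v v
  obtain ⟨Kg, Θ, hK, hG, hc, hR, hcard⟩ := exists_rm (A := A) (B := B) (Ω := Ω) (V := V) W₀ hA hB v hΔ hv
  -- the generator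
  obtain ⟨β, hβv'⟩ := (IQ.pid (F := F)).principal v.asIdeal
  have hgen : Ideal.span {β} = v.asIdeal := hβv'.symm
  have hβ0 : β ≠ 0 := by
    intro h0
    apply v.ne_bot
    rw [← hgen, h0, Ideal.span_singleton_eq_bot]
  have hβ : Prime β := by
    rw [← Ideal.span_singleton_prime hβ0, hgen]
    exact v.isPrime
  have hβv : β ∈ v.asIdeal := by
    have h1 := Ideal.mem_span_singleton_self β
    rw [hgen] at h1
    exact h1
  have hNm : Nm β = Ideal.absNorm v.asIdeal := by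
    unfold Nm
    rw [hgen]
  have hVβ : V.valuation (ak Ω β) < 1 := hv _ hβv
  have hVp : V.valuation (p : Ω) < 1 := by
    have h1 := hv _ hpv
    rwa [show ak Ω (p : 𝓞 F) = (p : Ω) from (map_natCast (g9h F Ω) p)] at h1
  have hVδ : V.valuation (ak Ω δ) = 1 := g10b_one V v hv δ hδ
  have hVD : V.valuation (D : Ω) = 1 := by
    have h1 : (D : Ω) = -(ak Ω δ) ^ 2 := by
      have h2 : g9h F Ω (δ ^ 2) = g9h F Ω (-(D : 𝓞 F)) := by rw [hd.sq]
      rw [map_pow, map_neg, map_natCast, g9h_eq] at h2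
      rw [h2, neg_neg]
    rw [h1, Valuation.map_neg, map_pow, hVδ, one_pow]
  -- the action on T₀
  obtain ⟨b, hb⟩ := ex_int hd β
  have hbT : act β T₀ = b • T₀ := act_tor hb hT
  have hζ0 : NeZero (D : Ω) := ⟨fun h1 => by
    rw [h1, map_zero] at hVD
    exact zero_ne_one hVD⟩
  obtain ⟨ζ, hζ⟩ := HasEnoughRootsOfUnity.exists_primitiveRoot Ω D
  have hsζ : s ζ = ζ ^ Ideal.absNorm v.asIdeal :=
    H55K.S.PA1_zeta D hd.prime ζ hζ V (by rw [hVD]; exact lt_irrefl _) _ s hs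
  have hdiv1 := chi_sq h hd hT h0 hζ s ha hsζ
  have hdiv2 := Nm_mod hd hb
  rw [hNm] at hdiv2
  have hdiv : (D : ℤ) ∣ (a - b) * (a + b) := by
    have h1 := dvd_add hdiv1 hdiv2
    have h2 : a ^ 2 - (Ideal.absNorm v.asIdeal : ℤ) + ((Ideal.absNorm v.asIdeal : ℤ) - b ^ 2) = (a - b) * (a + b) := by ring
    rwa [h2] at h1
  have hpD : Prime (D : ℤ) := Nat.prime_iff_prime_int.1 hd.prime
  have hpm : ac (WAB A B) s T₀ = act β T₀ ∨ ac (WAB A B) s T₀ = -(act β T₀) := by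
    rw [ha, hbT]
    rcases hpD.dvd_or_dvd hdiv with h1 | h1
    · left
      have h2 := (zsmul_iff hd hT h0 (a - b)).2 h1
      rwa [sub_smul, sub_eq_zero] at h2
    · right
      have h2 := (zsmul_iff hd hT h0 (a + b)).2 h1
      rwa [add_smul, add_eq_zero_iff_eq_neg] at h2
  have hDbig := hd.big
  -- multiples of T₀ are not in Kg
  have hnk : ∀ n : ℤ, ¬ (D : ℤ) ∣ n → n • T₀ ∉ Kg := by
    intro n hn hk
    apply hn
    rw [← zsmul_iff hd hT h0]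
    refine tor_unit' h hR hVδ ?_ hk
    have : act δ (n • T₀) = n • act δ T₀ := map_zsmul (act δ : Pt (WAB A B) Ω →+ Pt (WAB A B) Ω) n T₀
    rw [this, hT, smul_zero]
  have hnd : ∀ n : ℤ, 0 < n → n < D → ¬ (D : ℤ) ∣ n := fun n h1 h2 h3 => absurd (Int.le_of_dvd h1 h3) (not_le.2 h2)
  have hk1 : T₀ ∉ Kg := by
    have := hnk 1 (hnd 1 (by norm_num) (by omega))
    rwa [one_smul] at this
  have hk2 : (2 : ℤ) • T₀ ∉ Kg := hnk 2 (hnd 2 (by norm_num) (by omega))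
  have hk3 : T₀ - (2 : ℤ) • T₀ ∉ Kg := by
    have e : T₀ - (2 : ℤ) • T₀ = -T₀ := by rw [two_smul]; abel
    rw [e]
    exact fun hh => hk1 (by have := Kg.neg_mem hh; rwa [neg_neg] at this)
  have hk4 : T₀ + (2 : ℤ) • T₀ ∉ Kg := by
    have e : T₀ + (2 : ℤ) • T₀ = (3 : ℤ) • T₀ := by
      rw [show (3 : ℤ) = 1 + 2 by norm_num, add_smul, one_smul]
    rw [e]
    exact hnk 3 (hnd 3 (by norm_num) (by omega))
  have hx1 : xc (ac (WAB A B) s T₀) = xc (act β T₀) := by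
    rcases hpm with h1 | h1
    · rw [h1]
    · rw [h1, xc_neg]
  have hx2 : xc (ac (WAB A B) s ((2 : ℤ) • T₀)) = xc (act β ((2 : ℤ) • T₀)) := by
    have e1 : ac (WAB A B) s ((2 : ℤ) • T₀) = (2 : ℤ) • ac (WAB A B) s T₀ := map_zsmul _ _ _
    have e2 : act β ((2 : ℤ) • T₀) = (2 : ℤ) • act β T₀ := map_zsmul (act β : Pt (WAB A B) Ω →+ Pt (WAB A B) Ω) 2 T₀
    rw [e1, e2]
    rcases hpm with h1 | h1
    · rw [h1]
    · rw [h1, smul_neg, xc_neg]
  obtain ⟨γ, hγ, hγK⟩ := frob_gen' h hR hβ hVβ hp (hNm.trans hq) hVp s hD (by rw [hNm]; exact hs)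
    (map_one s) (s.commutes _) hk1 hk2 hk3 hk4 hx1 hx2
  have hγs : Ideal.span {γ} = v.asIdeal := by
    rcases hγ with h1 | h1
    · rw [h1, hgen]
    · rw [h1, Ideal.span_singleton_neg, hgen]
  have hγv : γ ∈ v.asIdeal := by
    rw [← hγs]
    exact Ideal.mem_span_singleton_self γ
  refine ⟨γ, hγs, ?_, ?_⟩
  · obtain ⟨g, hg⟩ := ex_int hd γ
    have h1 : act γ T₀ = g • T₀ := act_tor hg hT
    have h2 := hγK T₀
    have h3 : act γ T₀ - ac (WAB A B) s T₀ = (g - a) • T₀ := by rw [h1, ha, sub_smul]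
    rw [h3] at h2
    have h4 : (D : ℤ) ∣ g - a := by
      by_contra hn
      exact hnk _ hn h2
    rw [← del_dvd_int hd] at h4
    have h5 := dvd_add hg h4
    push_cast at h5
    rwa [sub_add_sub_cancel] at h5
  · rw [hcard s hD hs, card_gamma h hR s (hv _ hγv) hγK]

end H13D
end

-- from Lib.H13D.E4
section

/-! # H13D, part E: the Galois group of the rational numbers -/

open NumberField IsDedekindDomain WeierstrassCurve

namespace H13D

open H55P (IQ embF eF LF Per IsHecke Pt ac Inert Dec Nm)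
open H35P (WAB Ker tt GoodW IntW)
open H55K

variable {F : Type} [Field F] [NumberField F] [IQ F] {A B : F} {Om : ℂ} {Ω : Type} [Field Ω] [DecidableEq Ω]
  [Algebra F Ω] {j : Ω →+* ℂ} {act : 𝓞 F →+* AddMonoid.End (Pt (WAB A B) Ω)} {δ : 𝓞 F} {D : ℕ}

/-- Chunk E4 (S/M). H55K.nk2_dich (NK2.lean). If s fixes the image of F: s is an automorphism s' over F (AlgEquiv.ofRingEquiv), acr_eq_ac, h.gal: ac s' T₀ is killed by δ. Otherwise cma_galr (CU.lean): 0 = acr s (act δ T₀) = act (cj δ) (acr s T₀) = -act δ (acr s T₀) (cj_del). So acr s T₀ is killed by δ in both cases: tor_gen gives a;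
acr s T₀ ≠ 0 (acr_zero_iff), so D does not divide a (zsmul_iff). -/
theorem acr_T [Algebra ℚ Ω] [IsScalarTower ℚ F Ω] [IsAlgClosed Ω] [Algebra.IsAlgebraic F Ω] (h : CMA F A B Om j act) (hd : Del F δ D)
    (s : Ω ≃ₐ[ℚ] Ω) (hA : (s : Ω ≃+* Ω) (algebraMap F Ω A) = algebraMap F Ω A)
    (hB : (s : Ω ≃+* Ω) (algebraMap F Ω B) = algebraMap F Ω B) {T₀ : Pt (WAB A B) Ω} (hT : act δ T₀ = 0) (h0 : T₀ ≠ 0) :
    ∃ a : ℤ, ¬ (D : ℤ) ∣ a ∧ acr (s : Ω ≃+* Ω) hA hB T₀ = a • T₀ := by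
  have hne : acr (s : Ω ≃+* Ω) hA hB T₀ ≠ 0 := fun h1 => h0 ((acr_zero_iff _ hA hB _).1 h1)
  have hk : act δ (acr (s : Ω ≃+* Ω) hA hB T₀) = 0 := by
    rcases TQ.nk2_dich (F := F) s with h1 | h1
    · obtain ⟨s', hs'⟩ : ∃ s' : Ω ≃ₐ[F] Ω, (s' : Ω ≃+* Ω) = (s : Ω ≃+* Ω) :=
        ⟨AlgEquiv.ofRingEquiv (f := (s : Ω ≃+* Ω)) h1, by ext; rfl⟩
      have h2 : acr (s : Ω ≃+* Ω) hA hB T₀ = ac (WAB A B) s' T₀ := by
        rw [← acr_eq_ac s' (by rw [hs']; exact hA) (by rw [hs']; exact hB)]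
        congr 1
        simp only [hs']
      rw [h2, ← h.gal, hT, map_zero]
    · have h2 := cma_galr h (s : Ω ≃+* Ω) hA hB h1 δ T₀
      rw [hT, map_zero, cj_del hd] at h2
      have h3 : act (-δ) (acr (s : Ω ≃+* Ω) hA hB T₀) = - act δ (acr (s : Ω ≃+* Ω) hA hB T₀) := by
        rw [map_neg]
        rfl
      rw [h3] at h2
      exact neg_eq_zero.1 h2.symm
  obtain ⟨a, ha⟩ := tor_gen h hd hT h0 hk
  refine ⟨a, fun hD => hne ?_, ha⟩
  rw [ha, zsmul_iff hd hT h0]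
  exact hD

/-- Chunk E4 (S). Pure Galois theory: Ω/ℚ is Galois (characteristic 0, normal: IsAlgClosure.normal); an element fixed by all automorphisms is rational: InfiniteGalois.mem_bot_iff_fixed or IsGalois / minpoly: all roots of the minimal polynomial are images of x. -/
theorem fixed_rat {Ω : Type} [Field Ω] [Algebra ℚ Ω] [IsAlgClosure ℚ Ω] (x : Ω) (h : ∀ s : Ω ≃ₐ[ℚ] Ω, s x = x) :
    ∃ q : ℚ, algebraMap ℚ Ω q = x := by
  have hn : Normal ℚ Ω := IsAlgClosure.normal ℚ Ω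
  have hg : IsGalois ℚ Ω := {}
  have h1 : x ∈ (⊥ : IntermediateField ℚ Ω) := (InfiniteGalois.mem_bot_iff_fixed x).2 h
  exact IntermediateField.mem_bot.1 h1

end H13D
end

-- from Lib.H13D.E9
section

/-! # H13D, part E: the discriminant of the quadratic character -/

open NumberField IsDedekindDomain WeierstrassCurve

namespace H13D

open H55P (IQ embF eF LF Per IsHecke Pt ac Inert Dec Nm)
open H35P (WAB Ker tt GoodW IntW)
open H55K
open H55K.MG (VC Crd)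

/-- Chunk E9 (S). For a prime number p not dividing W.Δ there is a prime v of F containing p (p is not a unit of 𝓞 F: Nm p = p^2), and W.Δ is not in v (an integer in v is divisible by p: u p + w n = 1 otherwise); a valuation ring V above v: exists_abw (K0A.lean), Abw.lt. -/
theorem exists_vV {F : Type} [Field F] [NumberField F] [IQ F] (Ω : Type) [Field Ω] [Algebra F Ω] {p : ℕ} (hp : p.Prime) {n : ℤ} (hn : ¬ (p : ℤ) ∣ n) :
    ∃ (v : HeightOneSpectrum (𝓞 F)) (V : ValuationSubring Ω), (n : 𝓞 F) ∉ v.asIdeal ∧ (p : 𝓞 F) ∈ v.asIdeal ∧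
      (∀ a : 𝓞 F, a ∈ v.asIdeal → V.valuation (ak Ω a) < 1) ∧ V.valuation (p : Ω) < 1 := by
  have hp0 : (p : 𝓞 F) ≠ 0 := Nat.cast_ne_zero.2 hp.ne_zero
  have htop : Ideal.span {(p : 𝓞 F)} ≠ ⊤ := by
    intro h
    have h1 := Nm_nat (F := F) p
    unfold Nm at h1
    rw [h, Ideal.absNorm_top] at h1
    have h2 := hp.one_lt
    nlinarith
  obtain ⟨m, hm, hle⟩ := Ideal.exists_le_maximal _ htop
  have hpm : (p : 𝓞 F) ∈ m := hle (Ideal.mem_span_singleton_self _)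
  have hbot : m ≠ ⊥ := by
    rintro rfl
    exact hp0 ((Submodule.mem_bot _).1 hpm)
  obtain ⟨V, hV⟩ := exists_abw Ω (⟨m, hm.isPrime, hbot⟩ : HeightOneSpectrum (𝓞 F))
  have hlt : ∀ a : 𝓞 F, a ∈ m → V.valuation (ak Ω a) < 1 := by
    intro a ha
    have h1 := (hV.lt (algebraMap (𝓞 F) F a)).2
      ((HeightOneSpectrum.valuation_lt_one_iff_mem (K := F) ⟨m, hm.isPrime, hbot⟩ a).2 ha)
    exact h1
  refine ⟨⟨m, hm.isPrime, hbot⟩, V, ?_, hpm, hlt, ?_⟩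
  · intro hnm
    obtain ⟨u, w, huw⟩ := (Nat.prime_iff_prime_int.1 hp).irreducible.coprime_iff_not_dvd.2 hn
    apply hm.ne_top
    rw [Ideal.eq_top_iff_one]
    have h1 : (1 : 𝓞 F) = (u : 𝓞 F) * (p : 𝓞 F) + (w : 𝓞 F) * (n : 𝓞 F) := by
      have := congrArg (fun z : ℤ => (z : 𝓞 F)) huw
      push_cast at this
      exact this.symm
    rw [h1]
    exact m.add_mem (m.mul_mem_left _ hpm) (m.mul_mem_left _ hnm)
  · have h1 := hlt _ hpm
    rwa [show ak Ω (p : 𝓞 F) = (p : Ω) from (map_natCast (g9h F Ω) p)] at h1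

variable {F : Type} [Field F] [NumberField F] [IQ F] {A B : F} {Om : ℂ} {Ω : Type} [Field Ω] [DecidableEq Ω]
  [Algebra F Ω] [Algebra ℚ Ω] [IsScalarTower ℚ F Ω] {j : Ω →+* ℂ} {act : 𝓞 F →+* AddMonoid.End (Pt (WAB A B) Ω)} {δ : 𝓞 F} {D : ℕ}

/-- Chunk E9 (M). THE ELEMENTS Yel^2 AND Zel ARE RATIONAL. For s in Ω ≃ₐ[ℚ] Ω: s fixes the images of A and B (A = algebraMap ℚ F (..): the coefficients of W are integers; W⁄(𝓞 F) has c₄ = the integer W.c₄; see hc4, hA', hsA in the proof of H55K.TQ.hram_of in RF.lean), acr_T gives a, Yel_acr: s Yel = ± Yel (the symbol is 1 or -1: D prime, not dividing a),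
Zel_acr: s Zel = Zel (s fixes ak a₁, ak a₃ and the image of b₂/12: rational numbers). fixed_rat (IsAlgClosure ℚ Ω: Ω is algebraically closed and algebraic over F, hence over ℚ). -/
theorem exists_ez [IsAlgClosure F Ω] (h : CMA F A B Om j act) (hd : Del F δ D) (W : WeierstrassCurve ℤ)
    (hA : A = -(algebraMap (𝓞 F) F (W⁄(𝓞 F)).c₄) / 48) (hB : B = -(algebraMap (𝓞 F) F (W⁄(𝓞 F)).c₆) / 864)
    {T₀ : Pt (WAB A B) Ω} (hT : act δ T₀ = 0) (h0 : T₀ ≠ 0) :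
    ∃ e z : ℚ, algebraMap ℚ Ω e = Yel D T₀ ^ 2 ∧
      algebraMap ℚ Ω z = Zel D T₀ (ak Ω (W⁄(𝓞 F)).a₁) (algebraMap F Ω (algebraMap (𝓞 F) F (W⁄(𝓞 F)).b₂ / 12)) (ak Ω (W⁄(𝓞 F)).a₃) := by
  have hac : IsAlgClosed Ω := IsAlgClosure.isAlgClosed F
  have halg : Algebra.IsAlgebraic F Ω := IsAlgClosure.isAlgebraic
  have halg' : Algebra.IsAlgebraic ℚ Ω := Algebra.IsAlgebraic.trans ℚ F Ω
  have hcl : IsAlgClosure ℚ Ω := ⟨hac, halg'⟩
  have hc4 : algebraMap (𝓞 F) F (W⁄(𝓞 F)).c₄ = algebraMap ℚ F (W.c₄ : ℚ) := by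
    have e1 : (W⁄(𝓞 F)).c₄ = algebraMap ℤ (𝓞 F) W.c₄ := W.map_c₄ _
    rw [e1]
    simp
  have hc6 : algebraMap (𝓞 F) F (W⁄(𝓞 F)).c₆ = algebraMap ℚ F (W.c₆ : ℚ) := by
    have e1 : (W⁄(𝓞 F)).c₆ = algebraMap ℤ (𝓞 F) W.c₆ := W.map_c₆ _
    rw [e1]
    simp
  have hb2 : algebraMap (𝓞 F) F (W⁄(𝓞 F)).b₂ / 12 = algebraMap ℚ F ((W.b₂ : ℚ) / 12) := by
    have e1 : (W⁄(𝓞 F)).b₂ = algebraMap ℤ (𝓞 F) W.b₂ := W.map_b₂ _
    rw [e1]
    simp
  have ha1 : ak Ω (W⁄(𝓞 F)).a₁ = (W.a₁ : Ω) := by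
    have e1 : (W⁄(𝓞 F)).a₁ = ((W.a₁ : ℤ) : 𝓞 F) := rfl
    rw [e1]
    exact map_intCast (g9h F Ω) W.a₁
  have ha3 : ak Ω (W⁄(𝓞 F)).a₃ = (W.a₃ : Ω) := by
    have e1 : (W⁄(𝓞 F)).a₃ = ((W.a₃ : ℤ) : 𝓞 F) := rfl
    rw [e1]
    exact map_intCast (g9h F Ω) W.a₃
  have hA' : A = algebraMap ℚ F (-(W.c₄ : ℚ) / 48) := by
    rw [hA, hc4, map_div₀, map_neg, map_ofNat]
  have hB' : B = algebraMap ℚ F (-(W.c₆ : ℚ) / 864) := by
    rw [hB, hc6, map_div₀, map_neg, map_ofNat]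
  have hsA : ∀ s : Ω ≃ₐ[ℚ] Ω, (s : Ω ≃+* Ω) (algebraMap F Ω A) = algebraMap F Ω A := by
    intro s
    rw [hA', ← IsScalarTower.algebraMap_apply ℚ F Ω]
    exact s.commutes _
  have hsB : ∀ s : Ω ≃ₐ[ℚ] Ω, (s : Ω ≃+* Ω) (algebraMap F Ω B) = algebraMap F Ω B := by
    intro s
    rw [hB', ← IsScalarTower.algebraMap_apply ℚ F Ω]
    exact s.commutes _
  have hDT := D_tor hd hT
  have h1 : ∀ s : Ω ≃ₐ[ℚ] Ω, s (Yel D T₀ ^ 2) = Yel D T₀ ^ 2 := by
    intro s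
    obtain ⟨a, hDa, ha⟩ := acr_T h hd s (hsA s) (hsB s) hT h0
    have h2 : s (Yel D T₀) = ((jacobiSym a D : ℤ) : Ω) * Yel D T₀ :=
      Yel_acr hd.prime hd.mod (s : Ω ≃+* Ω) (hsA s) (hsB s) hDT hDa ha
    rw [map_pow, h2]
    rcases e1_pm hd.prime hDa with h3 | h3
    · rw [h3]
      push_cast
      ring
    · rw [h3]
      push_cast
      ring
  have h2 : ∀ s : Ω ≃ₐ[ℚ] Ω, s (Zel D T₀ (ak Ω (W⁄(𝓞 F)).a₁) (algebraMap F Ω (algebraMap (𝓞 F) F (W⁄(𝓞 F)).b₂ / 12)) (ak Ω (W⁄(𝓞 F)).a₃)) =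
      Zel D T₀ (ak Ω (W⁄(𝓞 F)).a₁) (algebraMap F Ω (algebraMap (𝓞 F) F (W⁄(𝓞 F)).b₂ / 12)) (ak Ω (W⁄(𝓞 F)).a₃) := by
    intro s
    obtain ⟨a, hDa, ha⟩ := acr_T h hd s (hsA s) (hsB s) hT h0
    refine Zel_acr hd.prime hd.mod (s : Ω ≃+* Ω) (hsA s) (hsB s) hDT hDa ha ?_ ?_ ?_
    · rw [ha1]
      exact map_intCast (s : Ω ≃+* Ω) _
    · rw [hb2, ← IsScalarTower.algebraMap_apply ℚ F Ω]
      exact s.commutes _
    · rw [ha3]
      exact map_intCast (s : Ω ≃+* Ω) _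
  obtain ⟨e, he⟩ := fixed_rat _ h1
  obtain ⟨z, hz⟩ := fixed_rat _ h2
  exact ⟨e, z, he, hz⟩

end H13D
end

-- from Lib.H13D.E10
section

/-! # H13D, part E: the quadratic character -/

open NumberField IsDedekindDomain WeierstrassCurve

namespace H13D

open H55P (IQ embF eF LF Per IsHecke Pt ac Inert Dec Nm)
open H35P (WAB Ker tt GoodW IntW)
open H55K
open H55K.MG (VC Crd)

variable {F : Type} [Field F] [NumberField F] [IQ F] {A B : F} {Om : ℂ} {Ω : Type} [Field Ω] [DecidableEq Ω]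
  [Algebra F Ω] [Algebra ℚ Ω] [IsScalarTower ℚ F Ω] {j : Ω →+* ℂ} {act : 𝓞 F →+* AddMonoid.End (Pt (WAB A B) Ω)} {δ : 𝓞 F} {D : ℕ}

omit [Algebra ℚ Ω] [IsScalarTower ℚ F Ω] in
theorem e10_key [IsAlgClosure F Ω] (h : CMA F A B Om j act) (hd : Del F δ D) (W : WeierstrassCurve ℤ)
    (hA : A = -(algebraMap (𝓞 F) F (W⁄(𝓞 F)).c₄) / 48) (hB : B = -(algebraMap (𝓞 F) F (W⁄(𝓞 F)).c₆) / 864)
    (hDN : D ∣ W.Δ.natAbs) {T₀ : Pt (WAB A B) Ω} (hT : act δ T₀ = 0) (h0 : T₀ ≠ 0) {p : ℕ} (hp : p.Prime)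
    (hpN : ¬ p ∣ W.Δ.natAbs) : ∃ V : ValuationSubring Ω, V.valuation (p : Ω) < 1 ∧ V.valuation (Yel D T₀) = 1 ∧
      V.valuation (Zel D T₀ (ak Ω (W⁄(𝓞 F)).a₁) (algebraMap F Ω (algebraMap (𝓞 F) F (W⁄(𝓞 F)).b₂ / 12)) (ak Ω (W⁄(𝓞 F)).a₃)) ≤ 1 ∧
      ∃ w : Ω, V.valuation w ≤ 1 ∧ Yel D T₀ ^ 2 =
        Zel D T₀ (ak Ω (W⁄(𝓞 F)).a₁) (algebraMap F Ω (algebraMap (𝓞 F) F (W⁄(𝓞 F)).b₂ / 12)) (ak Ω (W⁄(𝓞 F)).a₃) ^ 2 + 4 * w := by
  have hac : IsAlgClosed Ω := IsAlgClosure.isAlgClosed F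
  have hpZ : ¬ (p : ℤ) ∣ W.Δ := fun h1 => hpN (Int.natCast_dvd.1 h1)
  obtain ⟨v, V, hΔv, hpv, hv, hpV⟩ := exists_vV (F := F) Ω hp hpZ
  have hpD : ¬ (p : ℤ) ∣ (D : ℤ) := by
    intro h1
    have h2 : p ∣ D := by exact_mod_cast h1
    exact hpN (h2.trans hDN)
  have hδ : V.valuation (ak Ω δ) = 1 := by
    have h1 : V.valuation (((D : ℤ)) : Ω) = 1 := e7_int_eq V hp hpV hpD
    have h2 : ak Ω δ ^ 2 = -(((D : ℤ)) : Ω) := by
      have h3 := congrArg (g9h F Ω) hd.sq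
      rw [map_pow, map_neg, map_natCast] at h3
      rw [← g9h_eq, h3]
      push_cast
      rfl
    have h4 : V.valuation (ak Ω δ) ^ 2 = 1 := by rw [← map_pow, h2, Valuation.map_neg, h1]
    exact (pow_eq_one_iff_of_nonneg zero_le two_ne_zero).1 h4
  have hΔ' : (W⁄(𝓞 F)).Δ ∉ v.asIdeal := by
    have e1 : (W⁄(𝓞 F)).Δ = algebraMap ℤ (𝓞 F) W.Δ := W.map_Δ _
    rw [e1]
    exact hΔv
  obtain ⟨Kg, Θ, hK, hG, hc, hR, -⟩ := exists_rm (Ω := Ω) (V := V) (W⁄(𝓞 F)) hA hB v hΔ' hv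
  have h1 := val_Yel h hd (W⁄(𝓞 F)) hG hc hK hR hδ hT h0
  obtain ⟨h2, w, hw, h3⟩ := sq_Yel h hd (W⁄(𝓞 F)) hG hc hK hR hδ hT h0
  exact ⟨V, hpV, h1, h2, w, hw, h3⟩

/-- Chunk E10 (M). THE DISCRIMINANT. e, z from exists_ez; N = W.Δ.natAbs. For a prime p not dividing N (p ≠ D since D divides N): v, V from exists_vV (n = W.Δ), δ is not in v (else D in v, with p in v: 1 in v), V(δ) = 1 (g10b_one in H55K/G10B.lean); (W⁄(𝓞 F)).Δ = W.Δ not in v; Kg, Θ, .. from exists_rm (C4.lean); val_Yel: V(e) = 1 (V(Yel) = 1), so rat_eq: p divides neither e.num nor e.den.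
e ≠ 0 (such p exist, or directly: V(e) = 1 at one V; there are infinitely many primes). p = 2: sq_Yel: e = z^2 + 4 w₀ with V(z) ≤ 1, V(w₀) ≤ 1; w = (e - z^2)/4 is rational with image w₀ (Ω of characteristic 0), rat_le for z and w. e_form. -/
theorem exists_d [IsAlgClosure F Ω] (h : CMA F A B Om j act) (hd : Del F δ D) (W : WeierstrassCurve ℤ) (hΔ : W.Δ ≠ 0)
    (hA : A = -(algebraMap (𝓞 F) F (W⁄(𝓞 F)).c₄) / 48) (hB : B = -(algebraMap (𝓞 F) F (W⁄(𝓞 F)).c₆) / 864)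
    (hDN : D ∣ W.Δ.natAbs) {T₀ : Pt (WAB A B) Ω} (hT : act δ T₀ = 0) (h0 : T₀ ≠ 0) :
    ∃ (d : ℤ) (f : ℚ), Squarefree d ∧ f ≠ 0 ∧ Yel D T₀ ^ 2 = algebraMap ℚ Ω (d * f ^ 2) ∧
      (∀ p : ℕ, p.Prime → (p : ℤ) ∣ d → p ∣ W.Δ.natAbs) ∧ (¬ 2 ∣ W.Δ.natAbs → d % 4 = 1) := by
  have hch : CharZero Ω := algebraRat.charZero Ω
  obtain ⟨e, z, he, hz⟩ := exists_ez h hd W hA hB hT h0
  have hN : W.Δ.natAbs ≠ 0 := Int.natAbs_ne_zero.2 hΔ
  have he0 : e ≠ 0 := by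
    obtain ⟨p, hpl, hp⟩ := Nat.exists_infinite_primes (W.Δ.natAbs + 1)
    have hpN : ¬ p ∣ W.Δ.natAbs := fun h1 => by
      have := Nat.le_of_dvd (Nat.pos_of_ne_zero hN) h1
      omega
    obtain ⟨V, hpV, h1, -⟩ := e10_key h hd W hA hB hDN hT h0 hp hpN
    rintro rfl
    rw [map_zero] at he
    have h2 : Yel D T₀ = 0 := pow_eq_zero_iff two_ne_zero |>.1 he.symm
    rw [h2, map_zero] at h1
    exact zero_ne_one h1
  obtain ⟨d, f, h1, h2, h3, h4, h5⟩ := e_form (N := W.Δ.natAbs) he0 (by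
    intro p hp hpN
    obtain ⟨V, hpV, h1, -⟩ := e10_key h hd W hA hB hDN hT h0 hp hpN
    exact rat_eq V hp hpV e (by rw [he, map_pow, h1, one_pow])) (by
    intro h2N
    obtain ⟨V, hpV, h1, h2, w, hw, h3⟩ := e10_key h hd W hA hB hDN hT h0 Nat.prime_two h2N
    refine ⟨z, (e - z ^ 2) / 4, by ring, rat_le V Nat.prime_two hpV z (by rw [hz]; exact h2), rat_le V Nat.prime_two hpV _ ?_⟩
    have h4 : algebraMap ℚ Ω ((e - z ^ 2) / 4) = w := by
      rw [map_div₀, map_sub, map_pow, he, hz, h3, map_ofNat]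
      field_simp
      ring
    rw [h4]
    exact hw)
  exact ⟨d, f, h1, h2, by rw [← he, h3], h4, h5⟩

/-- Chunk E10 (M). THE QUADRATIC CHARACTER. d, f from exists_d, χ from kron_even or kron_odd with N = W.Δ.natAbs (squarefree d). For a good prime v: p, n from below_v, p does not divide N (else Δ in v: Δ is an integer divisible by p). w = Yel / f: w^2 = d. s w = η w with η = jacobiSym a D (Yel_ac: D does not divide a, because ac s T₀ ≠ 0; s fixes the rational number f),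
η = 1 or -1. V(p) < 1 (hv). frob_kron (s as a ring homomorphism): η = χ (p^n) = χ (absNorm v). -/
theorem exists_chi [IsAlgClosure F Ω] (h : CMA F A B Om j act) (hd : Del F δ D) (W : WeierstrassCurve ℤ) (hΔ : W.Δ ≠ 0)
    (hA : A = -(algebraMap (𝓞 F) F (W⁄(𝓞 F)).c₄) / 48) (hB : B = -(algebraMap (𝓞 F) F (W⁄(𝓞 F)).c₆) / 864)
    (hDN : D ∣ W.Δ.natAbs) {T₀ : Pt (WAB A B) Ω} (hT : act δ T₀ = 0) (h0 : T₀ ≠ 0) :
    ∃ (d : ℤ) (χ : ℕ → ℤ), Kron d W.Δ.natAbs χ ∧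
      ∀ v : HeightOneSpectrum (𝓞 F), (W⁄(𝓞 F)).Δ ∉ v.asIdeal → ∀ V : ValuationSubring Ω,
        (∀ a : 𝓞 F, a ∈ v.asIdeal → V.valuation (ak Ω a) < 1) → ∀ s : Ω ≃ₐ[F] Ω,
        (∀ x ∈ V, V.valuation (s x - x ^ Ideal.absNorm v.asIdeal) < 1) → ∀ a : ℤ, ac (WAB A B) s T₀ = a • T₀ →
        jacobiSym a D = χ (Ideal.absNorm v.asIdeal) := by
  have hch : CharZero Ω := algebraRat.charZero Ω
  obtain ⟨d, f, hsq, hf, hYd, hdN, h4⟩ := exists_d h hd W hΔ hA hB hDN hT h0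
  have hN : W.Δ.natAbs ≠ 0 := Int.natAbs_ne_zero.2 hΔ
  obtain ⟨χ, hχ⟩ : ∃ χ : ℕ → ℤ, Kron d W.Δ.natAbs χ := by
    by_cases h2 : 2 ∣ W.Δ.natAbs
    · exact kron_even hsq hdN h2 hN
    · exact kron_odd hsq hdN h2 (h4 h2)
  refine ⟨d, χ, hχ, fun v hΔv V hv s hs a ha => ?_⟩
  obtain ⟨p, n, hp, hpv, hn0, hnorm⟩ := below_v v
  have hpN : ¬ p ∣ W.Δ.natAbs := by
    intro h1
    apply hΔv
    obtain ⟨c, hc⟩ : (p : ℤ) ∣ W.Δ := Int.natCast_dvd.2 h1
    have e1 : (W⁄(𝓞 F)).Δ = ((W.Δ : ℤ) : 𝓞 F) := W.map_Δ _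
    rw [e1, hc]
    push_cast
    exact Ideal.mul_mem_right _ _ hpv
  have hpV : V.valuation (p : Ω) < 1 := by
    have h1 := hv _ hpv
    rwa [show ak Ω (p : 𝓞 F) = (p : Ω) from (map_natCast (g9h F Ω) p)] at h1
  have hne : ac (WAB A B) s T₀ ≠ 0 := H55K.ac_ne _ s h0
  have hDa : ¬ (D : ℤ) ∣ a := by
    intro h1
    apply hne
    rw [ha]
    exact (zsmul_iff hd hT h0 a).2 h1
  have hY := Yel_ac hd.prime hd.mod s (D_tor hd hT) hDa ha
  set fΩ : Ω := algebraMap ℚ Ω f with hfΩ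
  have hfΩ0 : fΩ ≠ 0 := by
    rw [hfΩ]
    exact (map_ne_zero _).2 hf
  have hsf : s fΩ = fΩ := by
    rw [hfΩ, IsScalarTower.algebraMap_apply ℚ F Ω]
    exact s.commutes _
  have hw : (Yel D T₀ / fΩ) ^ 2 = (d : Ω) := by
    rw [div_pow, hYd, map_mul, map_pow, ← hfΩ, map_intCast]
    field_simp
  have hsw : (s : Ω →+* Ω) (Yel D T₀ / fΩ) = ((jacobiSym a D : ℤ) : Ω) * (Yel D T₀ / fΩ) := by
    show s (Yel D T₀ / fΩ) = _
    rw [map_div₀, hY, hsf, mul_div_assoc]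
  rw [hnorm] at hs ⊢
  exact frob_kron V hp hpV hχ hdN h4 hpN hw (s : Ω →+* Ω) hs (e1_pm hd.prime hDa) hsw

end H13D
end

-- from Lib.H13D.H3
section

/-! # H13D: Deuring's theorem: the curves over the rational numbers with complex multiplication by the integers of the field of discriminant -D -/

open NumberField IsDedekindDomain WeierstrassCurve

namespace H13D

open H55P (IQ embF eF LF Per IsHecke Pt ac Inert Dec Nm)
open H35P (WAB Ker tt GoodW IntW)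
open H55K
open H55K.TQ (BaseH)

/-- The Hecke character of a curve over the rational numbers with complex multiplication by the integers of F, F of
discriminant -D, D > 3 a prime number. -/
theorem base_D {F : Type} [Field F] [NumberField F] [IQ F] {δ : 𝓞 F} {D : ℕ} (hd : Del F δ D) (W : WeierstrassCurve ℤ) (Om : ℂ)
    (hΔ : W.Δ ≠ 0) (hper : Per F (-(eF F (W⁄(𝓞 F)).c₄) / 48) (-(eF F (W⁄(𝓞 F)).c₆) / 864) Om)
    (hbad : ∀ v : HeightOneSpectrum (𝓞 F), (W⁄(𝓞 F)).Δ ∈ v.asIdeal → ¬ GoodAt ((W⁄(𝓞 F))⁄F) v) :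
    ∃ ψ : Ideal (𝓞 F) →*₀ 𝓞 F, BaseH F (W⁄(𝓞 F)) Om (Ideal.span {((W.Δ.natAbs : ℕ) : 𝓞 F) ^ 3}) ψ := by
  classical
  set N := W.Δ.natAbs with hN
  have hN0 : N ≠ 0 := Int.natAbs_ne_zero.2 hΔ
  have hΔF : (W⁄(𝓞 F)).Δ = ((W.Δ : ℤ) : 𝓞 F) := by
    have := W.map_Δ (algebraMap ℤ (𝓞 F))
    exact this.trans (by simp)
  have hΔ0 : (W⁄(𝓞 F)).Δ ≠ 0 := by
    rw [hΔF]
    exact_mod_cast hΔ
  -- D divides the discriminant
  have hD1 := hd.prime.one_lt
  obtain ⟨vδ, hvδ⟩ : ∃ v : HeightOneSpectrum (𝓞 F), v.asIdeal = Ideal.span {δ} := by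
    have hp := del_prime hd
    exact ⟨⟨Ideal.span {δ}, (Ideal.span_singleton_prime hp.ne_zero).2 hp, by
      rw [Ne, Ideal.span_singleton_eq_bot]
      exact hp.ne_zero⟩, rfl⟩
  have hram : (W⁄(𝓞 F)).Δ ∈ vδ.asIdeal := by
    refine disc_ram hΔ hper vδ (fun a => ?_)
    rw [hvδ, Ideal.mem_span_singleton]
    obtain ⟨n, c, hc⟩ := ex_int hd a
    have hc' : cj a - n = -δ * cj c := by
      have := congrArg cj hc
      rw [map_sub, map_mul, cj_int, cj_del hd] at this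
      exact this
    exact ⟨c + cj c, by linear_combination hc - hc'⟩
  have hDN : D ∣ N := by
    rw [hvδ, Ideal.mem_span_singleton, hΔF, del_dvd_int hd] at hram
    exact Int.natCast_dvd.1 hram
  -- the analytic data
  obtain ⟨A, hA⟩ : ∃ A : F, A = -(algebraMap (𝓞 F) F (W⁄(𝓞 F)).c₄) / 48 := ⟨_, rfl⟩
  obtain ⟨B, hB⟩ : ∃ B : F, B = -(algebraMap (𝓞 F) F (W⁄(𝓞 F)).c₆) / 864 := ⟨_, rfl⟩
  have hdisc := y3_ne (W⁄(𝓞 F)) hA hB hΔ0
  have hper' : Per F (embF F A) (embF F B) Om := by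
    have e1 : embF F A = -(eF F (W⁄(𝓞 F)).c₄) / 48 := by
      rw [hA, map_div₀, map_neg, map_ofNat]
      rfl
    have e2 : embF F B = -(eF F (W⁄(𝓞 F)).c₆) / 864 := by
      rw [hB, map_div₀, map_neg, map_ofNat]
      rfl
    rw [e1, e2]
    exact hper
  set Ω := AlgebraicClosure F with hΩ
  obtain ⟨j, hj⟩ := exists_j F Ω
  obtain ⟨act, h⟩ := exists_CMA F A B Om j hdisc hper' hj
  obtain ⟨T₀, hT, h0⟩ := exists_T h hd
  obtain ⟨d, χ, hχ, hfr⟩ := exists_chi h hd W hΔ hA hB hDN hT h0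
  obtain ⟨ψ, hψ, hval⟩ := exists_psi (F := F) hd hN0 hDN hχ
  have hmem : ∀ v : HeightOneSpectrum (𝓞 F), (W⁄(𝓞 F)).Δ ∈ v.asIdeal ↔ (N : 𝓞 F) ∈ v.asIdeal := by
    intro v
    rw [hΔF]
    rcases Int.natAbs_eq W.Δ with h1 | h1
    · rw [h1, ← hN, Int.cast_natCast]
    · rw [h1, ← hN, Int.cast_neg, Int.cast_natCast, neg_mem_iff]
  have hsupp : ∀ v : HeightOneSpectrum (𝓞 F), (W⁄(𝓞 F)).Δ ∈ v.asIdeal ↔ Ideal.span {(N : 𝓞 F) ^ 3} ≤ v.asIdeal := by
    intro v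
    rw [hmem, Ideal.span_singleton_le_iff_mem]
    exact ⟨fun h1 => Ideal.pow_mem_of_mem _ h1 3 (by norm_num), fun h1 => v.isPrime.mem_of_pow_mem 3 h1⟩
  refine ⟨ψ, ⟨⟨hΔ0, hper, hψ⟩, ?_, hsupp, hbad⟩⟩
  intro v hv
  obtain ⟨V, hV⟩ := exists_abw Ω v
  have hVv : ∀ a : 𝓞 F, a ∈ v.asIdeal → V.valuation (ak Ω a) < 1 := by
    intro a ha
    rw [hV.lt]
    exact (v.valuation_lt_one_iff_mem _).2 ha
  obtain ⟨s, hDec, hs⟩ := H13S.exists_frob v V hVv
  have hsT : act δ (ac (WAB A B) s T₀) = 0 := by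
    rw [← h.gal, hT, map_zero]
  obtain ⟨a, ha⟩ := tor_gen h hd hT h0 hsT
  have hδv : δ ∉ v.asIdeal := by
    intro h1
    apply hv
    rw [hmem]
    obtain ⟨c, hc⟩ := hDN
    rw [hc, Nat.cast_mul]
    refine Ideal.mul_mem_right _ _ ?_
    have h2 : (D : 𝓞 F) = -(δ * δ) := by
      have := hd.sq
      linear_combination this
    rw [h2]
    exact neg_mem (Ideal.mul_mem_left _ _ h1)
  obtain ⟨γ, hγ, hγa, hcard⟩ := frob_v h hd (W⁄(𝓞 F)) hA hB v hv hδv hVv s hDec hs hT h0 ha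
  have hNγ : Nm γ = Ideal.absNorm v.asIdeal := by
    unfold Nm
    rw [hγ]
  have hcopI : IsCoprime (Ideal.span {γ}) (Ideal.span {(N : 𝓞 F) ^ 3}) := by
    rw [hγ, Ideal.isCoprime_iff_sup_eq]
    by_contra hne
    have h1 := v.isMaximal.eq_of_le hne le_sup_left
    exact hv ((hsupp v).2 (by rw [h1]; exact le_sup_right))
  have hcop : (Nm γ).Coprime N := (cop_iff N γ).1 hcopI
  have e1 : lam δ D γ = jacobiSym a D := lam_eq hd hγa
  have e2 := hfr v hv V hVv s hs a ha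
  have e3 := hχ.pm _ hcop
  have e4 : ψ v.asIdeal = γ := by
    rw [← hγ, hval γ hcop, e1, e2, hNγ]
    rw [hNγ] at e3
    rcases e3 with e3 | e3
    · rw [e3]
      simp
    · rw [e3]
      simp
  rw [hcard, e4]

end H13D
end

-- from Lib.H13D.Main
section

/-! # H13D: Deuring's theorem for the global minimal equations over the rational numbers with complex multiplication by the integers
of the field of discriminant -D, D = 7, 11, 19, 43, 67, 163 -/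

open NumberField IsDedekindDomain WeierstrassCurve

namespace H13D

open H55P (IQ embF eF LF Per IsHecke Pt ac Inert Dec Nm)
open H55K
open H55K.TQ (BaseH)

theorem base_exists {F : Type} [Field F] [NumberField F] [IQ F] {δ : 𝓞 F} {D : ℕ} (hd : Del F δ D) (W : WeierstrassCurve ℤ) (Om : ℂ)
    (hΔ : W.Δ ≠ 0) (hper : Per F (-(eF F (W⁄(𝓞 F)).c₄) / 48) (-(eF F (W⁄(𝓞 F)).c₆) / 864) Om) (hmin : MinZ W) :
    ∃ ψ : Ideal (𝓞 F) →*₀ 𝓞 F, BaseH F (W⁄(𝓞 F)) Om (Ideal.span {((W.Δ.natAbs : ℕ) : 𝓞 F) ^ 3}) ψ :=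
  base_D hd W Om hΔ hper (bad_F hΔ hper hmin)

end H13D
end

-- from Lib.H55W.B4
section

/-! # H55W, part Z: Deuring's theorem, discriminant -4 -/

open NumberField IsDedekindDomain WeierstrassCurve

namespace H55W

open H55P (IQ embF eF LF Per IsHecke Pt ac Inert Dec Nm)
open H35P (WAB Ker tt GoodW IntW)
open H55K H55K.TQ
open H55K.TQ (BaseH)

theorem b4_irr {F : Type} [Field F] [NumberField F] [IQ F] {π : 𝓞 F} {p : ℕ} (hp : p.Prime) (h : Nm π = p) : Prime π := by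
  have h1 : Irreducible π := by
    constructor
    · intro hu
      rw [nm_unit hu] at h
      exact hp.one_lt.ne h
    · intro a b hab
      have h2 : Nm a * Nm b = p := by rw [← Nm_mul, ← hab, h]
      have hu : ∀ x : 𝓞 F, Nm x = 1 → IsUnit x := by
        intro x hx
        unfold Nm at hx
        rw [Ideal.absNorm_eq_one_iff, Ideal.span_singleton_eq_top] at hx
        exact hx
      rcases (Nat.prime_mul_iff.1 (h2 ▸ hp)) with h3 | h3
      · exact Or.inr (hu b h3.2)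
      · exact Or.inl (hu a h3.2)
  exact h1.prime

theorem base_4 {F : Type} [Field F] [NumberField F] [IQ F] {I : 𝓞 F} (hI : GI I) (W : WeierstrassCurve ℤ) (Om : ℂ)
    (hΔ : W.Δ ≠ 0) (hper : Per F (-(eF F (W⁄(𝓞 F)).c₄) / 48) (-(eF F (W⁄(𝓞 F)).c₆) / 864) Om)
    (hbad : ∀ v : HeightOneSpectrum (𝓞 F), (W⁄(𝓞 F)).Δ ∈ v.asIdeal → ¬ GoodAt ((W⁄(𝓞 F))⁄F) v) :
    ∃ ψ : Ideal (𝓞 F) →*₀ 𝓞 F, BaseH F (W⁄(𝓞 F)) Om (Ideal.span {((W.Δ.natAbs : ℕ) : 𝓞 F) ^ 3}) ψ := by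
  classical
  have hc6 : W.c₆ = 0 := by
    obtain ⟨j, act, h⟩ := z1_cma W Om hΔ hper rfl rfl
    have h1 := b_zero hI h
    rw [z1_c6, div_eq_zero_iff, neg_eq_zero] at h1
    rcases h1 with h1 | h1
    · exact_mod_cast h1
    · norm_num at h1
  obtain ⟨δ, h4, hD⟩ := arith_four W hc6
  have hδ : δ ≠ 0 := by
    rintro rfl
    exact hΔ (by rw [hD]; ring)
  have hΔF := z0_disc (F := F) W
  have hdδ : (δ : 𝓞 F) ∣ ((W.Δ : ℤ) : 𝓞 F) := ⟨((δ ^ 2 : ℤ) : 𝓞 F), by rw [hD]; push_cast; ring⟩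
  -- the ramified prime
  have hN2 : Nm (1 + I) = 2 := by
    have := gi_nm hI 1 1
    push_cast at this
    rw [one_mul] at this
    norm_num at this
    exact_mod_cast this
  have hpr : Prime (1 + I) := b4_irr Nat.prime_two hN2
  obtain ⟨v₂, hv₂⟩ : ∃ v : HeightOneSpectrum (𝓞 F), v.asIdeal = Ideal.span {1 + I} :=
    ⟨⟨Ideal.span {1 + I}, (Ideal.span_singleton_prime hpr.ne_zero).2 hpr, by
      rw [Ne, Ideal.span_singleton_eq_bot]
      exact hpr.ne_zero⟩, rfl⟩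
  have h2I : (1 + I) ∣ (2 : 𝓞 F) := ⟨1 - I, by linear_combination hI.sq⟩
  have hram : (W⁄(𝓞 F)).Δ ∈ v₂.asIdeal := by
    refine H13D.disc_ram hΔ hper v₂ (fun a => ?_)
    rw [hv₂, Ideal.mem_span_singleton]
    obtain ⟨x, y, rfl⟩ := hI.rep a
    rw [map_add, map_mul, H55K.cj_int, H55K.cj_int, gi_cj hI]
    have e : (x : 𝓞 F) + y * I - (x + y * -I) = 2 * (y * I) := by ring
    rw [e]
    exact h2I.mul_right _
  have h2δ : δ % 2 = 0 := by
    rw [hΔF, hv₂, Ideal.mem_span_singleton, hD] at hram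
    push_cast at hram
    have h1 := hpr.dvd_of_dvd_pow hram
    have h2 : Nm (1 + I) ∣ Nm (δ : 𝓞 F) := by
      obtain ⟨c, hc⟩ := h1
      rw [hc, Nm_mul]
      exact dvd_mul_right _ _
    have h3 : Nm (δ : 𝓞 F) = δ.natAbs ^ 2 := by
      rcases Int.natAbs_eq δ with h | h
      · conv_lhs => rw [h, Int.cast_natCast, Nm_nat]
      · conv_lhs => rw [h, Int.cast_neg, Int.cast_natCast]
        unfold Nm
        rw [Ideal.span_singleton_neg]
        exact Nm_nat _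
    rw [hN2, h3] at h2
    have h4 := Nat.prime_two.dvd_of_dvd_pow h2
    have h5 : (2 : ℤ) ∣ δ := by
      have := Int.natCast_dvd.2 h4
      exact_mod_cast this
    exact Int.emod_eq_zero_of_dvd h5
  have hd2 : (2 : 𝓞 F) ∣ ((W.Δ : ℤ) : 𝓞 F) := by
    obtain ⟨c, hc⟩ := Int.dvd_of_emod_eq_zero h2δ
    refine Dvd.dvd.trans ⟨((c : ℤ) : 𝓞 F), ?_⟩ hdδ
    rw [hc]
    push_cast
    ring
  obtain ⟨f, hf, hlast⟩ := exists_f4 hI hδ h2δ hD
  refine base_gen W Om hΔ hper hbad hf ?_ ?_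
  · intro hu
    have h3 : IsUnit (2 : 𝓞 F) := isUnit_of_dvd_unit hd2 hu
    have h9 : Nm (2 : 𝓞 F) = 1 := nm_unit h3
    have h9' : Nm (2 : 𝓞 F) = 2 ^ 2 := by
      have := Nm_nat (F := F) 2
      exact_mod_cast this
    rw [h9'] at h9
    norm_num at h9
  · intro Ω _ _ _ _ A B j act hA hB h v V s Kg r hv hL
    have hA' : 4 * A = -(δ : F) := by
      rw [hA, z1_c4, h4]
      push_cast
      ring
    rw [hΔF] at hv
    have h2 : (2 : 𝓞 F) ∉ v.asIdeal := fun hh => hv (v.asIdeal.mem_of_dvd hd2 hh)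
    have hδv : (δ : 𝓞 F) ∉ v.asIdeal := fun hh => hv (v.asIdeal.mem_of_dvd hdδ hh)
    obtain ⟨γ, ζ, hγ, hX, g1, g3, g4⟩ := loc_four hI h hA' hL h2 hδv
    obtain ⟨p1, p2, p3⟩ := z1_prime hγ
    refine ⟨γ, hγ, hlast γ ζ p1 (by rw [p2]; exact hv) g1 g3 ?_, hX⟩
    rw [p2, p3]
    exact g4

end H55W
end

-- from Lib.H55W.B8
section

/-! # H55W, part Z: Deuring's theorem, discriminant -8 -/

open NumberField IsDedekindDomain WeierstrassCurve

namespace H55W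

open H55P (IQ embF eF LF Per IsHecke Pt ac Inert Dec Nm)
open H35P (WAB Ker tt GoodW IntW)
open H55K H55K.TQ
open H55K.TQ (BaseH)

theorem b8_nat {F : Type} [Field F] [NumberField F] [IQ F] (δ : ℤ) : Nm (δ : 𝓞 F) = δ.natAbs ^ 2 := by
  rcases Int.natAbs_eq δ with h | h
  · conv_lhs => rw [h, Int.cast_natCast, Nm_nat]
  · conv_lhs => rw [h, Int.cast_neg, Int.cast_natCast]
    unfold Nm
    rw [Ideal.span_singleton_neg]
    exact Nm_nat _

theorem base_8 {F : Type} [Field F] [NumberField F] [IQ F] {φ : 𝓞 F} (hφ : TI φ) (W : WeierstrassCurve ℤ) (Om : ℂ)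
    (hΔ : W.Δ ≠ 0) (hper : Per F (-(eF F (W⁄(𝓞 F)).c₄) / 48) (-(eF F (W⁄(𝓞 F)).c₆) / 864) Om)
    (hbad : ∀ v : HeightOneSpectrum (𝓞 F), (W⁄(𝓞 F)).Δ ∈ v.asIdeal → ¬ GoodAt ((W⁄(𝓞 F))⁄F) v) :
    ∃ ψ : Ideal (𝓞 F) →*₀ 𝓞 F, BaseH F (W⁄(𝓞 F)) Om (Ideal.span {((W.Δ.natAbs : ℕ) : 𝓞 F) ^ 3}) ψ := by
  classical
  have hrel : 125 * W.c₆ ^ 2 = 98 * W.c₄ ^ 3 := by
    obtain ⟨j, act, h⟩ := z1_cma W Om hΔ hper rfl rfl
    obtain ⟨T, hT⟩ := exists_TG h hφ
    obtain ⟨e, -, h1, h2, -⟩ := tg_coord h hφ hT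
    rw [z1_c4] at h1
    rw [z1_c6] at h2
    have hc : CharZero (AlgebraicClosure F) := charZero_of_injective_algebraMap (algebraMap F (AlgebraicClosure F)).injective
    rw [map_div₀, map_neg, map_intCast, map_ofNat] at h1 h2
    have e1 : ((W.c₄ : ℤ) : AlgebraicClosure F) = 90 * e ^ 2 := by linear_combination (-6) * h1
    have e2 : ((W.c₆ : ℤ) : AlgebraicClosure F) = -756 * e ^ 3 := by linear_combination (-108) * h2
    have e3 : ((125 * W.c₆ ^ 2 : ℤ) : AlgebraicClosure F) = ((98 * W.c₄ ^ 3 : ℤ) : AlgebraicClosure F) := by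
      push_cast
      rw [e1, e2]
      ring
    exact_mod_cast e3
  obtain ⟨n, h4, h6, hD⟩ := arith_eight W hΔ hrel
  have hn : n ≠ 0 := by
    rintro rfl
    have : 8 * W.Δ = 0 := by rw [hD]; ring
    exact hΔ (by omega)
  have hΔF := z0_disc (F := F) W
  have hN2 : Nm φ = 2 := by
    have := (ti_nm hφ 0 1).2
    push_cast at this
    rw [one_mul, zero_add] at this
    norm_num at this
    exact_mod_cast this
  have hpr : Prime φ := b4_irr Nat.prime_two hN2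
  obtain ⟨v₂, hv₂⟩ : ∃ v : HeightOneSpectrum (𝓞 F), v.asIdeal = Ideal.span {φ} :=
    ⟨⟨Ideal.span {φ}, (Ideal.span_singleton_prime hpr.ne_zero).2 hpr, by
      rw [Ne, Ideal.span_singleton_eq_bot]
      exact hpr.ne_zero⟩, rfl⟩
  have hram : (W⁄(𝓞 F)).Δ ∈ v₂.asIdeal := by
    refine H13D.disc_ram hΔ hper v₂ (fun a => ?_)
    rw [hv₂, Ideal.mem_span_singleton]
    obtain ⟨x, y, rfl⟩ := hφ.rep a
    rw [map_add, map_mul, H55K.cj_int, H55K.cj_int, (ti_nm hφ 0 0).1]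
    exact ⟨2 * y, by ring⟩
  have h2D : W.Δ % 2 = 0 := by
    rw [hΔF, hv₂, Ideal.mem_span_singleton] at hram
    have h2 : Nm φ ∣ Nm ((W.Δ : ℤ) : 𝓞 F) := by
      obtain ⟨c, hc⟩ := hram
      rw [hc, Nm_mul]
      exact dvd_mul_right _ _
    rw [hN2, b8_nat] at h2
    have h4 := Nat.prime_two.dvd_of_dvd_pow h2
    have h5 : (2 : ℤ) ∣ W.Δ := by
      have := Int.natCast_dvd.2 h4
      exact_mod_cast this
    exact Int.emod_eq_zero_of_dvd h5
  have hd2 : (2 : 𝓞 F) ∣ ((W.Δ : ℤ) : 𝓞 F) := by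
    obtain ⟨c, hc⟩ := Int.dvd_of_emod_eq_zero h2D
    refine ⟨((c : ℤ) : 𝓞 F), ?_⟩
    rw [hc]
    push_cast
    ring
  obtain ⟨f, hf, hlast⟩ := exists_f8 hφ hn hD h2D
  refine base_gen W Om hΔ hper hbad hf ?_ ?_
  · intro hu
    have h3 : IsUnit (2 : 𝓞 F) := isUnit_of_dvd_unit hd2 hu
    have h9 : Nm (2 : 𝓞 F) = 1 := nm_unit h3
    have h9' : Nm (2 : 𝓞 F) = 2 ^ 2 := by
      have := Nm_nat (F := F) 2
      exact_mod_cast this
    rw [h9'] at h9
    norm_num at h9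
  · intro Ω _ _ _ _ A B j act hA hB h v V s Kg r hv hL
    have hA' : 24 * A = -5 * (n : F) ^ 2 := by
      rw [hA, z1_c4, h4]
      push_cast
      ring
    have hB' : 216 * B = 7 * (n : F) ^ 3 := by
      rw [hB, z1_c6, h6]
      push_cast
      ring
    rw [hΔF] at hv
    have h2 : (2 : 𝓞 F) ∉ v.asIdeal := fun hh => hv (v.asIdeal.mem_of_dvd hd2 hh)
    have hnv : (n : 𝓞 F) ∉ v.asIdeal := by
      intro hh
      have h1 : ((8 * W.Δ : ℤ) : 𝓞 F) ∈ v.asIdeal := by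
        rw [hD]
        push_cast
        exact Ideal.pow_mem_of_mem _ hh 6 (by norm_num)
      push_cast at h1
      rcases v.isPrime.mem_or_mem h1 with h3 | h3
      · have h8 : (8 : 𝓞 F) = 2 ^ 3 := by norm_num
        rw [h8] at h3
        exact h2 (v.isPrime.mem_of_pow_mem 3 h3)
      · exact hv h3
    obtain ⟨γ, η, hγ, hX, g1, g3, g4⟩ := loc_eight hφ h hA' hB' hL h2 hnv
    obtain ⟨p1, p2, p3⟩ := z1_prime hγ
    refine ⟨γ, hγ, hlast γ η p1 (by rw [p2]; exact hv) g1 ?_ ?_, hX⟩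
    · rw [p3]
      exact g3
    · rw [p2, p3]
      exact g4

end H55W
end

-- from Lib.H55W.Main
section

/-! # H55W: Deuring's theorem for the elliptic curves over the rational numbers with complex multiplication by the ring of
integers of F, all fields F -/

open NumberField IsDedekindDomain WeierstrassCurve

namespace H55W

open H55P (IQ embF eF LF Per IsHecke Pt ac Inert Dec Nm)
open H55K
open H55K.TQ (BaseH)

theorem base_all0 {F : Type} [Field F] [NumberField F] [IQ F]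
    (hcub : ∀ w : 𝓞 F, w ^ 2 + w + 1 = 0 → ∀ n : ℤ, n ≠ 0 → ∃ κ : 𝓞 F → 𝓞 F, PRC (𝓞 F) 3 n (3 * n) (27 * n) κ)
    (W : WeierstrassCurve ℤ) (Om : ℂ)
    (hΔ : W.Δ ≠ 0) (hper : Per F (-(eF F (W⁄(𝓞 F)).c₄) / 48) (-(eF F (W⁄(𝓞 F)).c₆) / 864) Om) (hmin : H13D.MinZ W) :
    ∃ ψ : Ideal (𝓞 F) →*₀ 𝓞 F, BaseH F (W⁄(𝓞 F)) Om (Ideal.span {((W.Δ.natAbs : ℕ) : 𝓞 F) ^ 3}) ψ := by
  have hbad := H13D.bad_F hΔ hper hmin
  obtain ⟨θ, d, h⟩ := exists_TH F
  rcases class_one h with h1 | h1 | h1 | ⟨hp, h4, h3⟩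
  · subst h1
    exact base_4 (gi_of h) W Om hΔ hper hbad
  · subst h1
    exact base_8 (ti_of h) W Om hΔ hper hbad
  · subst h1
    obtain ⟨w, hw⟩ := ei_of h
    exact base_3 hw (hcub w hw.sq) W Om hΔ hper hbad
  · exact H13D.base_exists ⟨hp, h4, h3, h.sq⟩ W Om hΔ hper hmin

end H55W
end

-- from Lib.SSG.E.R2
section

open NumberField IsDedekindDomain

namespace SSG.E

open H55N H55P

variable {F : Type} [Field F] [NumberField F] [IQ F]

/-! Chunk R2 (M). The sum of the second differences over a coset of M 𝓞 F (M = m0 > 0). Put z = (α - (a+b)/2)/M, u = (a+b)/(2M), v = (a-b)/(2M). Then for y = α + M x: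
y = M (z + u + x), y - a - b = M (z - u + x), y - a = M (z - v + x), y - b = M (z + v + x) (x the element e(x) of the lattice LF F). So dd y a b = M^-1 (tT z u - tT z v) (the middle terms -2/(z + x) cancel), all terms finite sums of inverses (Lean: inverse of 0 is 0,
no case distinction is needed: the identity M^-1 (..)^-1 holds for all values). Sum: tT_summable and T2 (H35P.A3, E0), transported from the lattice to 𝓞 F by x -> e x (mem_LF, eF_inj: an equivalence 𝓞 F ≃ (LF F).lattice). -/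

theorem r2_dd (M : ℂ) (hM : M ≠ 0) (α a b x : ℂ) (l : (LF F).lattice) (hl : (l : ℂ) = x) :
    dd (α + M * x) a b = M⁻¹ * (H35P.tT (LF F) ((α - (a + b) / 2) / M) ((a + b) / (2 * M)) l -
      H35P.tT (LF F) ((α - (a + b) / 2) / M) ((a - b) / (2 * M)) l) := by
  unfold dd H35P.tT
  rw [hl]
  have e1 : α + M * x = M * ((α - (a + b) / 2) / M + (a + b) / (2 * M) + x) := by
    field_simp
    ring
  have e2 : α + M * x - a - b = M * ((α - (a + b) / 2) / M - (a + b) / (2 * M) + x) := by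
    field_simp
    ring
  have e3 : α + M * x - a = M * ((α - (a + b) / 2) / M - (a - b) / (2 * M) + x) := by
    field_simp
    ring
  have e4 : α + M * x - b = M * ((α - (a + b) / 2) / M + (a - b) / (2 * M) + x) := by
    field_simp
    ring
  rw [e2, e3, e4, e1, mul_inv, mul_inv, mul_inv, mul_inv]
  ring

theorem dd_sum (M : ℕ) (hM : M ≠ 0) (α a b : ℂ) :
    (Summable fun x : 𝓞 F => ‖dd (α + M * eF F x) a b‖) ∧
    ∑' x : 𝓞 F, dd (α + M * eF F x) a b = (M : ℂ)⁻¹ *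
      (H35P.T2 (LF F) ((α - (a + b) / 2) / M) ((a + b) / (2 * M)) -
        H35P.T2 (LF F) ((α - (a + b) / 2) / M) ((a - b) / (2 * M))) := by
  have hMC : (M : ℂ) ≠ 0 := by exact_mod_cast hM
  have h1 := H35P.tT_summable (LF F) ((α - (a + b) / 2) / M) ((a + b) / (2 * M))
  have h2 := H35P.tT_summable (LF F) ((α - (a + b) / 2) / M) ((a - b) / (2 * M))
  have h3 := (h1.hasSum.sub h2.hasSum).mul_left (M : ℂ)⁻¹
  have h4 := (LF_equiv F).hasSum_iff.2 h3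
  have h5 : (fun x : 𝓞 F => dd (α + M * eF F x) a b) = (fun l : (LF F).lattice => (M : ℂ)⁻¹ *
      (H35P.tT (LF F) ((α - (a + b) / 2) / M) ((a + b) / (2 * M)) l -
      H35P.tT (LF F) ((α - (a + b) / 2) / M) ((a - b) / (2 * M)) l)) ∘ (LF_equiv F) := by
    funext x
    exact r2_dd (M : ℂ) hMC α a b (eF F x) (LF_equiv F x) rfl
  rw [← h5] at h4
  exact ⟨h4.summable.norm, h4.tsum_eq⟩

end SSG.E
end

-- from Lib.SSG.E.R5
section

open NumberField IsDedekindDomain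

namespace SSG.E

open H55N H55P

variable {F : Type} [Field F] [NumberField F] [IQ F] {K : Type} [Field K] [NumberField K]
  [Algebra F K] {m : ℕ}

/-! Chunk R5 (M). The value of J on the class of a. C = cx D q a, q = (P), w = nw (2P) w'. Jv_rat for C (Dirs: dirN_dirs with 2P in q; GSpec: S.spec) gives Jv = det * sum over C.X of G * prod dd (Tr x) (2P d(k,0)) (2P d(k,1)) (Tr (A k) (n w') = n Tr (A k) w').
sum_lat for C with M := P M (x_full, x_per, x_rep, S.dir.ind) turns it into the sum over the image of B; Finset.sum_image with injectivity turns it into a sum over B with β replaced by x(a,β); G (x(a,β)) = G β (x_mem and S.per).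
dd_sum with M := P M, α = Tr (A k) (x(a,β)) = e₁ M Tr a + e₂ P Tr β, a := 2P d(k,0), b := 2P d(k,1): (α - (a+b)/2)/(P M) = S.z a β k, (a+b)/(2 P M) = (d0 + d1)/M, (a-b)/(2 P M) = (d0 - d1)/M (field_simp). The factor (P M)^-1 = P^-1 M^-1, m+1 times. -/

theorem Jv_H {D : Ctx F K m} {l : 𝓞 F} {P : ℕ} (hP : P ≠ 0) (S : LD D l P) (hS : S.Ok) (hD : D.Ok) {a : 𝓞 K} (ha : a ∈ D.X) :
    (cx D (Ideal.span {(P : 𝓞 K)}) a).Jv (fun k => .A (S.A k)) = ((P : ℂ)⁻¹) ^ (m + 1) * S.H a := by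
  classical
  have hq : ((2 * P : ℕ) : 𝓞 K) ∈ Ideal.span {(P : 𝓞 K)} := by
    rw [Nat.cast_mul]
    exact Ideal.mul_mem_left _ _ (Ideal.mem_span_singleton_self _)
  have hPM : P * S.M ≠ 0 := mul_ne_zero hP hS.ne
  have hPC : (P : ℂ) ≠ 0 := by exact_mod_cast hP
  have hMC : (S.M : ℂ) ≠ 0 := by exact_mod_cast hS.ne
  have hdirs := dirN_dirs D l (Ideal.span {(P : 𝓞 K)}) (2 * P) hq S.A S.w' hS.dir ha
  have h1 := (Jv_rat (cx D (Ideal.span {(P : 𝓞 K)}) a) (cx_ok D hD _ ha) S.A (nw (2 * P) S.w')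
    hdirs (fun x => ((S.G x : ℤ) : ℂ)) (hS.spec a ha)).2
  have h2 : ∀ k j, (cx D (Ideal.span {(P : 𝓞 K)}) a).Tr (S.A k) (nw (2 * P) S.w' (k, j)) =
      2 * P * S.d k j := by
    intro k j
    change D.Tr (S.A k) (((2 * P : ℕ) : 𝓞 K) * S.w' (k, j)) = _
    rw [r4_Tr_nat]
    unfold LD.d
    push_cast
    ring
  simp only [h2] at h1
  have hrep := x_rep hP S hS hD ha
  have h3 := sum_lat (cx D (Ideal.span {(P : 𝓞 K)}) a) (cx_ok D hD _ ha) S.A hS.dir.ind (P * S.M) hPM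
    (x_full S hS a) (S.B.image (S.x a)) hrep.2 (fun x => ((S.G x : ℤ) : ℂ))
    (fun x y hy => by
      change ((S.G (x + y) : ℤ) : ℂ) = ((S.G x : ℤ) : ℂ)
      rw [x_per S hS a x y hy])
    (fun k y => dd y (2 * P * S.d k 0) (2 * P * S.d k 1))
    (fun β _ k => (dd_sum (F := F) (P * S.M) hPM _ _ _).1)
  rw [h1, h3, Finset.sum_image fun x hx y hy h => hrep.1 hx hy h]
  unfold LD.H
  have h4 : ∀ β ∈ S.B, (((S.G (S.x a β) : ℤ) : ℂ) * ∏ k, ∑' y : 𝓞 F,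
      dd ((cx D (Ideal.span {(P : 𝓞 K)}) a).Tr (S.A k) (S.x a β) + ((P * S.M : ℕ) : ℂ) * eF F y)
        (2 * P * S.d k 0) (2 * P * S.d k 1)) = ((P : ℂ)⁻¹) ^ (m + 1) *
      (((S.G β : ℤ) : ℂ) * ∏ k, (S.M : ℂ)⁻¹ *
        (H35P.T2 (LF F) (S.z a β k) ((S.d k 0 + S.d k 1) / S.M) -
          H35P.T2 (LF F) (S.z a β k) ((S.d k 0 - S.d k 1) / S.M))) := by
    intro β hβ
    have h5 : S.G (S.x a β) = S.G β := by
      have h6 := (x_mem hP S hS hD ha hβ).1.2.1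
      have h7 := hS.per β (S.x a β - β) h6
      rw [← h7]
      congr 1
      ring
    have h8 : ∀ k : Fin (m + 1), (∑' y : 𝓞 F,
        dd ((cx D (Ideal.span {(P : 𝓞 K)}) a).Tr (S.A k) (S.x a β) + ((P * S.M : ℕ) : ℂ) * eF F y)
          (2 * P * S.d k 0) (2 * P * S.d k 1)) = (P : ℂ)⁻¹ * ((S.M : ℂ)⁻¹ *
        (H35P.T2 (LF F) (S.z a β k) ((S.d k 0 + S.d k 1) / S.M) -
          H35P.T2 (LF F) (S.z a β k) ((S.d k 0 - S.d k 1) / S.M))) := by
      intro k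
      rw [(dd_sum (F := F) (P * S.M) hPM _ _ _).2]
      have h9 : (cx D (Ideal.span {(P : 𝓞 K)}) a).Tr (S.A k) (S.x a β) =
          S.e₁ * S.M * D.Tr (S.A k) a + S.e₂ * P * D.Tr (S.A k) β := by
        change D.Tr (S.A k) (S.x a β) = _
        unfold LD.x
        rw [D.Tr_add, r4_Tr_int, r4_Tr_int]
        push_cast
        ring
      have h10 : ((cx D (Ideal.span {(P : 𝓞 K)}) a).Tr (S.A k) (S.x a β) -
          (2 * P * S.d k 0 + 2 * P * S.d k 1) / 2) / ((P * S.M : ℕ) : ℂ) = S.z a β k := by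
        rw [h9]
        unfold LD.z
        push_cast
        field_simp
        ring
      have h11 : (2 * P * S.d k 0 + 2 * P * S.d k 1) / (2 * ((P * S.M : ℕ) : ℂ)) =
          (S.d k 0 + S.d k 1) / S.M := by
        push_cast
        field_simp
      have h12 : (2 * P * S.d k 0 - 2 * P * S.d k 1) / (2 * ((P * S.M : ℕ) : ℂ)) =
          (S.d k 0 - S.d k 1) / S.M := by
        push_cast
        field_simp
      rw [h10, h11, h12, Nat.cast_mul, mul_inv, mul_assoc]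
    rw [h5, Finset.prod_congr rfl fun k _ => h8 k, Finset.prod_mul_distrib, Finset.prod_const,
      Finset.card_univ, Fintype.card_fin]
    ring
  rw [Finset.sum_congr rfl h4, ← Finset.mul_sum]
  change Matrix.det (Matrix.of fun k i => D.σ i (S.A k)) * _ = _
  ring

end SSG.E
end

-- from Lib.SSG.E.W11
section

open NumberField IsDedekindDomain

namespace SSG.E

open H55N H55P

/-! Chunk W11 (M/L). The weighted core. COPY of core (end of Lib/H55P/Core.lean); a weight φ invariant under units and periodic modulo P I. Data as there: σ, u (units_basis), L (labels), d (directions), Bad := the same set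
plus {c | (2 : 𝓞 K) in c}; ix := (Fin m → Fin (m + 1)) × Equiv.Perm (Fin m).
For each (a, π) (A := labels L (kv a π k)): dirN_of (W9) with n = 2 P (n not in c i: c i is prime, does not contain 2 and p, P = p^N) gives DirN D l (2P) A w' (hone, hlow from labels_low); m0_exists (E9) gives M₀ prime to p with the full trace (as in pc_CN: see how pc_CN uses it; for Full D A M₀
use its conclusion); ld_exists (R6) with hPc from D.p i <> p (primes), hcop from p not dividing M₀, gives S (a,π) with S.A = A. LInt: labels_int / pl1_dual_int (label_int in L1.lean: the proof gives d = absNorm b prime to p (absNorm_cop) and an integral element d' * a; restate it).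
Weight: Wt D (span {P}) u φ from WtU (inv for all units). Rp from RpU (same statement, definitional). Value: zfunw (W7) with w = nw (2P) w' of the first simplex and G from gInt (W10) (hdir by dirN_dirs W8 for a in R), CNw_value (W5) with hdirs from dirN_dirs for every (a,π),
CN unfolded is the sum over (a,π) of sign π * Jw .., Jw = sum over R of φ a * Jv, Jv_H (R5): Jv = P^-(m+1) * H. Sign of Delta as in core (two cases): sg j = + or - sign π. prime_change as in core: divides by ν, p not dividing ν; φ x * (gw * nf) is invariant under v.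
The value for another set of representatives R: choose R by a finite set of representatives for Z, then for arbitrary R both sums agree (φ a and H a depend only on the class: cx_Jv (W1) or prove the formula directly for every R: Z is unique because it is analytic? simplest: Z does not depend on R: zfunw is an existence statement for given R;
for two sets R, R' the sums sum over R of φ a * Jv (cx a) are equal by the bijection R -> R' (class), cx_Jv and Wt.per; so fix R0 (exists: W6-type finiteness, X / P I is finite because 𝓞 K / P I is) and convert at the end). You may split this chunk into files W11A, W11B. -/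

variable {F : Type} [Field F] [NumberField F] [IQ F]

/-- Integrality of a label at p. -/
theorem w11_lint (p : ℕ) (hp : p.Prime) {K : Type} [Field K] [NumberField K] [Algebra F K] (hK : UnrP p K) (b : Ideal (𝓞 K))
    (hb : IsCoprime b (Ideal.span {(p : 𝓞 K)})) (a : K)
    (ha : ∀ x ∈ b, ∃ y : 𝓞 F, Algebra.trace F K ((x : K) * a) = algebraMap (𝓞 F) F y) : LInt p a := by
  have hN := absNorm_cop p hp b hb
  have hNb := Ideal.absNorm_mem b
  obtain ⟨N, hNdef⟩ : ∃ N : ℕ, N = Ideal.absNorm b := ⟨_, rfl⟩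
  rw [← hNdef] at hN hNb
  obtain ⟨y, hy⟩ := pl1_dual_int (K := K) ((N : K) * a) (by
    intro x
    obtain ⟨y, hy⟩ := ha (N * x) (b.mul_mem_right x hNb)
    obtain ⟨z, hz⟩ := pl1_trace_O y
    refine ⟨z, ?_⟩
    have h1 : (x : K) * ((N : K) * a) = (((N : 𝓞 K) * x : 𝓞 K) : K) * a := by
      have h4 : (((N : 𝓞 K) * x : 𝓞 K) : K) = (N : K) * (x : K) := by
        rw [← map_natCast (algebraMap (𝓞 K) K) N]
        exact map_mul (algebraMap (𝓞 K) K) _ _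
      rw [h4]
      ring
    rw [h1, ← Algebra.trace_trace (S := F), hy]
    exact hz)
  have hd := pl1_discr p hp hK
  refine ⟨(NumberField.discr K).natAbs * N, ?_, ?_⟩
  · intro h
    rcases (hp.dvd_mul).1 h with h1 | h1
    · exact hd (Int.natCast_dvd.2 h1)
    · exact hN h1
  · rcases Int.natAbs_eq (NumberField.discr K) with h4 | h4
    · refine ⟨y, ?_⟩
      rw [hy]
      have h5 : ((NumberField.discr K : ℤ) : K) = (((NumberField.discr K).natAbs : ℕ) : K) := by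
        conv_lhs => rw [h4]
        rw [Int.cast_natCast]
      rw [h5]
      push_cast
      ring
    · refine ⟨-y, ?_⟩
      have h5 : ((NumberField.discr K : ℤ) : K) = -(((NumberField.discr K).natAbs : ℕ) : K) := by
        conv_lhs => rw [h4]
        rw [Int.cast_neg, Int.cast_natCast]
      have h6 : ((-y : 𝓞 K) : K) = -(y : K) := map_neg (algebraMap (𝓞 K) K) y
      rw [h6, hy, h5]
      push_cast
      ring

/-- A finite set of representatives. -/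
theorem w11_rep {K : Type} [Field K] [NumberField K] (I : Ideal (𝓞 K)) (hI : I ≠ ⊥) (c₀ : 𝓞 K) (P : ℕ) (hP : P ≠ 0) :
    ∃ R : Finset (𝓞 K), RpU I c₀ P R := by
  classical
  have hP0 : (P : 𝓞 K) ≠ 0 := by exact_mod_cast hP
  have hJ : Ideal.span {(P : 𝓞 K)} * I ≠ ⊥ := mul_ne_zero (by simpa using hP0) hI
  have hfin : Finite (𝓞 K ⧸ (Ideal.span {(P : 𝓞 K)} * I)) := Ideal.finiteQuotientOfFreeOfNeBot _ hJ
  have hS : ((Ideal.Quotient.mk (Ideal.span {(P : 𝓞 K)} * I)) '' (XS I c₀)).Finite := Set.toFinite _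
  have hch : ∀ y : 𝓞 K ⧸ (Ideal.span {(P : 𝓞 K)} * I), ∃ x : 𝓞 K,
      y ∈ (Ideal.Quotient.mk (Ideal.span {(P : 𝓞 K)} * I)) '' (XS I c₀) → x ∈ XS I c₀ ∧ Ideal.Quotient.mk _ x = y := by
    intro y
    by_cases h : y ∈ (Ideal.Quotient.mk (Ideal.span {(P : 𝓞 K)} * I)) '' (XS I c₀)
    · obtain ⟨x, hx, hxy⟩ := h
      exact ⟨x, fun _ => ⟨hx, hxy⟩⟩
    · exact ⟨0, fun h' => absurd h' h⟩
  choose r hr using hch
  refine ⟨hS.toFinset.image r, ?_, ?_⟩
  · intro a ha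
    obtain ⟨y, hy, rfl⟩ := Finset.mem_image.1 ha
    exact (hr y ((Set.Finite.mem_toFinset hS).1 hy)).1
  · intro x hx
    have hy : Ideal.Quotient.mk _ x ∈ (Ideal.Quotient.mk (Ideal.span {(P : 𝓞 K)} * I)) '' (XS I c₀) := ⟨x, hx, rfl⟩
    refine ⟨r (Ideal.Quotient.mk _ x), ⟨Finset.mem_image.2 ⟨_, (Set.Finite.mem_toFinset hS).2 hy, rfl⟩, ?_⟩, ?_⟩
    · rw [← Ideal.Quotient.eq, (hr _ hy).2]
    · rintro a ⟨ha, hxa⟩
      obtain ⟨y, hy', rfl⟩ := Finset.mem_image.1 ha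
      have h2 := (hr y ((Set.Finite.mem_toFinset hS).1 hy')).2
      rw [← Ideal.Quotient.eq, h2] at hxa
      rw [← hxa]

/-- Sums over representatives do not depend on the representatives. -/
theorem w11_sum {K : Type} [Field K] [NumberField K] {I : Ideal (𝓞 K)} {c₀ : 𝓞 K} {P : ℕ} {R R' : Finset (𝓞 K)}
    (hR : RpU I c₀ P R) (hR' : RpU I c₀ P R') (f : 𝓞 K → ℂ)
    (hf : ∀ x ∈ XS I c₀, ∀ y ∈ XS I c₀, x - y ∈ Ideal.span {(P : 𝓞 K)} * I → f x = f y) :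
    ∑ a ∈ R, f a = ∑ a ∈ R', f a := by
  classical
  choose g hg hg' using fun x : XS I c₀ => hR'.ex x.1 x.2
  refine Finset.sum_bij (fun a ha => g ⟨a, hR.sub a ha⟩) ?_ ?_ ?_ ?_
  · intro a ha
    exact (hg ⟨a, hR.sub a ha⟩).1
  · intro a ha a' ha' h
    have h1 := (hg ⟨a, hR.sub a ha⟩).2
    have h2 := (hg ⟨a', hR.sub a' ha'⟩).2
    have h3 : a - a' ∈ Ideal.span {(P : 𝓞 K)} * I := by
      have h4 : a - a' = (a - g ⟨a, hR.sub a ha⟩) - (a' - g ⟨a', hR.sub a' ha'⟩) := by rw [h]; ring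
      rw [h4]
      exact Ideal.sub_mem _ h1 h2
    obtain ⟨t, ht, htu⟩ := hR.ex a (hR.sub a ha)
    have e1 : a = t := htu a ⟨ha, by rw [sub_self]; exact Ideal.zero_mem _⟩
    have e2 : a' = t := htu a' ⟨ha', h3⟩
    rw [e1, e2]
  · intro b hb
    obtain ⟨t, ⟨ht, hbt⟩, _⟩ := hR.ex b (hR'.sub b hb)
    refine ⟨t, ht, ?_⟩
    refine (hg' ⟨t, hR.sub t ht⟩ b ⟨hb, ?_⟩).symm
    show t - b ∈ _
    rw [← neg_sub]
    exact neg_mem hbt
  · intro a ha
    exact hf a (hR.sub a ha) _ (hR'.sub _ (hg ⟨a, hR.sub a ha⟩).1) (hg ⟨a, hR.sub a ha⟩).2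

theorem w11_prime {K : Type} [Field K] [NumberField K] {m : ℕ} {c : Fin (m + 1) × Fin 2 → Ideal (𝓞 K)} {q : Fin (m + 1) × Fin 2 → ℕ}
    (h : Smooth c q) (i : Fin (m + 1) × Fin 2) : (c i).IsPrime :=
  Ideal.isPrime_of_irreducible_absNorm (by
    rw [h.norm i]
    exact (h.prime i))

/-- (E1) The weighted core. -/
theorem corew (p : ℕ) (hp : p.Prime) {M : Ideal (𝓞 F)} {l : 𝓞 F} (hM : Mod p M l)
    (K : Type) [Field K] [NumberField K] [Algebra F K] (m : ℕ)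
    (hm : Module.finrank F K = m + 1) (hK : UnrP p K) (b f : Ideal (𝓞 K)) (hb : b ≠ ⊥)
    (hbp : IsCoprime b (Ideal.span {(p : 𝓞 K)})) (hf : f ≠ ⊥)
    (hfp : IsCoprime f (Ideal.span {(p : 𝓞 K)}))
    (c₀ : 𝓞 K) (hc : c₀ ∈ b) (hc' : c₀ ∉ Ideal.span {algebraMap (𝓞 F) (𝓞 K) l} * b) (P : ℕ) (hP : ∃ N, P = p ^ N) :
    ∃ Bad : Set (Ideal (𝓞 K)), Bad.Finite ∧
      ∀ (c : Fin (m + 1) × Fin 2 → Ideal (𝓞 K)) (q : Fin (m + 1) × Fin 2 → ℕ), Smooth c q →
        (∀ i, c i ∉ Bad) → ∃ (σ : Fin (m + 1) → K →+* ℂ) (ν : ℕ) (ix : Type) (_ : Fintype ix) (sg : ix → ℤ)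
          (S : ix → LD (⟨σ, mK K M * f * b, c₀, c, q⟩ : H55P.Ctx F K m) l P),
          Emb F σ ∧ ¬ p ∣ ν ∧ (∀ j, (S j).Ok) ∧ (∀ j k, LInt p ((S j).A k)) ∧
          ∀ φ : 𝓞 K → ℂ, WtU (mK K M * f * b) c₀ P φ → ∃ Z : ℂ → ℂ, AnalyticOnNhd ℂ Z {s | 1 / 2 < s.re} ∧
            (∀ T : Set (𝓞 K), Transv (mK K M * f) (XS (mK K M * f * b) c₀) T →
              ∀ s : ℂ, 3 / 2 < s.re → HasSum (fun x : T => φ x * (gw c q x * nf F s (x : 𝓞 K))) (Z s)) ∧
            ∀ R : Finset (𝓞 K), RpU (mK K M * f * b) c₀ P R →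
              Z 1 = (ν : ℂ)⁻¹ * ((P : ℂ)⁻¹) ^ (m + 1) * ∑ a ∈ R, φ a * ∑ j, (sg j : ℂ) * (S j).H a := by
  classical
  obtain ⟨NN, hNN⟩ := hP
  obtain ⟨σ, hσ⟩ := emb_exists (F := F) K m hm
  set J : Ideal (𝓞 K) := mK K M * f with hJdef
  set J' : Ideal (𝓞 K) := Ideal.span {(p : 𝓞 K)} * J with hJ'def
  obtain ⟨hJ0, hJ'0, hJ'J, hJM, hJ'p, hJ'l, hJ'pl⟩ := pc_J hp hM f hf J J' hJdef hJ'def
  obtain ⟨u, hu1, hu2, hu3, hu4⟩ := H55P.units_basis hm J' hJ'0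
    (torsion_free p hp l hM.prime (pc_cop hM) J' hJ'p hJ'l)
  obtain ⟨L, hL⟩ := labels_exist hm p hp l hM.prime (pc_cop hM) b hb c₀ hc hc' u
    (fun z => hJ'pl (hu2 z))
  have hle : mK K M * f * b ≤ Ideal.span {algebraMap (𝓞 F) (𝓞 K) l} * b :=
    Ideal.mul_mono_left (hJM.trans (pc_mK hM.le))
  have hI0 : mK K M * f * b ≠ ⊥ := mul_ne_zero hJ0 hb
  have hdir := fun (q : (Fin m → Fin (m + 1)) × Equiv.Perm (Fin m)) =>
    directions hm (fun k : Fin (m + 1) => L (kv (fun k => ((q.1 k : ℕ) : ℤ)) q.2 k))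
      (labels_indep p hp l b c₀ u L hL _ _) (mK K M * f * b) hI0
  choose d hd1 hd2 hd3 using hdir
  have hp0 : (p : 𝓞 K) ≠ 0 := by exact_mod_cast hp.ne_zero
  have h20 : (2 : 𝓞 K) ≠ 0 := two_ne_zero
  have hP0 : P ≠ 0 := by rw [hNN]; exact pow_ne_zero _ hp.ne_zero
  refine ⟨((⋃ q : ((Fin m → Fin (m + 1)) × Equiv.Perm (Fin m)) × Fin (m + 1),
    {c : Ideal (𝓞 K) | d q.1 q.2 ∈ c}) ∪ {c : Ideal (𝓞 K) | (p : 𝓞 K) ∈ c}) ∪ {c : Ideal (𝓞 K) | (2 : 𝓞 K) ∈ c}, ?_, ?_⟩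
  · refine Set.Finite.union (Set.Finite.union (Set.finite_iUnion fun q => H55P.finite_ideals _ (hd2 _ _)) ?_) ?_
    · exact H55P.finite_ideals _ hp0
    · exact H55P.finite_ideals _ h20
  intro c q hcq hbad
  let D : Ctx F K m := ⟨σ, mK K M * f * b, c₀, c, q⟩
  have hD : D.Ok := ⟨hσ, fun h => hc' (hle h), hcq⟩
  have h0X : (0 : 𝓞 K) ∉ D.X := fun h => D.X_ne hD.ne h rfl
  have hpc : ∀ i, (p : 𝓞 K) ∉ c i := fun i h => hbad i (Or.inl (Or.inr h))
  have h2c : ∀ i, (2 : 𝓞 K) ∉ c i := fun i h => hbad i (Or.inr h)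
  have hp2 : ∀ i, D.p i ≠ p := by
    intro i hi
    apply hpc i
    have h1 : ((Ideal.absNorm (c i) : ℕ) : 𝓞 K) ∈ c i := Ideal.absNorm_mem _
    rw [hcq.norm i] at h1
    have h2 : q i = p := hi
    rw [h2] at h1
    exact h1
  have hnc : ∀ i, ((2 * P : ℕ) : 𝓞 K) ∉ D.c i := by
    intro i h
    have hpr := w11_prime hcq i
    rw [Nat.cast_mul, hNN, Nat.cast_pow, Nat.cast_ofNat] at h
    rcases hpr.mem_or_mem h with h1 | h1
    · exact h2c i h1
    · exact hpc i (hpr.mem_of_pow_mem _ h1)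
  have hPc : ∀ i, IsCoprime (P : ℤ) (D.p i : ℤ) := by
    intro i
    rw [Nat.isCoprime_iff_coprime, hNN]
    exact Nat.Coprime.pow_left _ ((Nat.coprime_primes hp (hcq.prime i)).2 (hp2 i).symm)
  have hact : ∀ v : (𝓞 K)ˣ, (v : 𝓞 K) - 1 ∈ J → ((v : 𝓞 K) - 1) * D.c₀ ∈ D.I :=
    fun v hv => Ideal.mul_mem_mul hv hc
  have hu : D.UOk u := ⟨fun j => hact _ (hJ'J (hu1 j)),
    fun j => H55P.norm_one D hσ hM (u j) (hJM (hJ'J (hu1 j))), H55P.delta_ne D hσ u hu4⟩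
  have hlow := labels_low D hσ p M l hM.prime hM.le b f c₀ ⟨rfl, rfl⟩ u L hL
  have hdirs : ∀ j : (Fin m → Fin (m + 1)) × Equiv.Perm (Fin m),
      ∃ w', DirN D l (2 * P) (fun k : Fin (m + 1) => L (kv (fun k => ((j.1 k : ℕ) : ℤ)) j.2 k)) w' := by
    intro j
    refine dirN_of D hD l (2 * P) _ (d j) (hd1 j) ?_ hnc (hd3 j) ?_ ?_
      (labels_indep p hp l b c₀ u L hL _ _)
    · intro i k hk
      apply hbad i
      left
      left
      exact Set.mem_iUnion.2 ⟨(j, k), hk⟩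
    · intro x hx k
      exact (hlow (kv (fun k => ((j.1 k : ℕ) : ℤ)) j.2 k) x hx).1
    · intro x hx k
      exact (hlow (kv (fun k => ((j.1 k : ℕ) : ℤ)) j.2 k) x hx).2
  choose w' hw' using hdirs
  have hn : ((2 * P : ℕ) : 𝓞 K) ∈ Ideal.span {(P : 𝓞 K)} := by
    rw [Nat.cast_mul]
    exact Ideal.mul_mem_left _ _ (Ideal.mem_span_singleton_self _)
  -- the data
  have hld : ∀ j : (Fin m → Fin (m + 1)) × Equiv.Perm (Fin m), ∃ S : LD D l P, S.Ok ∧
      S.A = fun k : Fin (m + 1) => L (kv (fun k => ((j.1 k : ℕ) : ℤ)) j.2 k) := by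
    intro j
    obtain ⟨m₀, h0, hpm, hlm, hm⟩ := H55P.m0_exists D hD p hp hM b f hf hfp rfl hp2 u L hL
      (fun k => ((j.1 k : ℕ) : ℤ)) j.2
    refine ld_exists D hD l P hP0 hPc _ (w' j) (hw' j) m₀ h0 ?_ hlm hm
    rw [Nat.isCoprime_iff_coprime, hNN]
    exact Nat.Coprime.pow_left _ ((Nat.Prime.coprime_iff_not_dvd hp).2 hpm)
  choose S hS hSA using hld
  obtain ⟨G, hGp, hG⟩ := gInt D hD l (Ideal.span {(P : 𝓞 K)}) (2 * P) hn _ (w' (fun _ => 0, 1)) (hw' (fun _ => 0, 1))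
  have hJ2 : IsCoprime J (Ideal.span {(p : 𝓞 K)}) := by
    rw [hJdef]
    exact IsCoprime.mul_left (pe9_cop hM.cop) hfp
  obtain ⟨ν, hν, hT⟩ := prime_change p hp hK J J' hJ0 hJ2 hJ'def D.X h0X (by
    intro v hv x hx
    have h1 : (v : 𝓞 K) * x - D.c₀ = ((v : 𝓞 K) - 1) * D.c₀ + v * (x - D.c₀) := by ring
    rw [D.mem_X, h1]
    exact D.I.add_mem (hact v hv) (D.I.mul_mem_left _ hx))
  refine ⟨σ, ν, (Fin m → Fin (m + 1)) × Equiv.Perm (Fin m), inferInstance,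
    fun j => (if 0 ≤ Delta (D.lm u) then 1 else -1) * (Equiv.Perm.sign j.2 : ℤ), S, hσ, hν, hS, ?_, ?_⟩
  · intro j k
    rw [hSA j]
    exact w11_lint p hp hK b hbp _ (hL.int _)
  intro φ hφ
  obtain ⟨R₀, hR₀⟩ := w11_rep (mK K M * f * b) hI0 c₀ P hP0
  have hRp : Rp D (Ideal.span {(P : 𝓞 K)}) R₀ := ⟨hR₀.sub, hR₀.ex⟩
  have hWt : Wt D (Ideal.span {(P : 𝓞 K)}) u φ := ⟨hφ.per, fun x hx z => hφ.inv x hx _⟩
  have hdD : ∀ j, ∀ a ∈ R₀, (cx D (Ideal.span {(P : 𝓞 K)}) a).Dirs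
      (fun k : Fin (m + 1) => L (kv (fun k => ((j.1 k : ℕ) : ℤ)) j.2 k)) (nw (2 * P) (w' j)) :=
    fun j a ha => dirN_dirs D l _ (2 * P) hn _ (w' j) (hw' j) (hR₀.sub a ha)
  have hGR : ∀ a ∈ R₀, (cx D (Ideal.span {(P : 𝓞 K)}) a).GSpec (nw (2 * P) (w' (fun _ => 0, 1)))
      (fun x => ((G x : ℤ) : ℂ)) := fun a ha => hG a (hR₀.sub a ha)
  obtain ⟨Z, hZ1, hZ2, hZ3⟩ := zfunw D hD u hu (Ideal.span {(P : 𝓞 K)}) R₀ hRp φ hWt _ _ (hdD (fun _ => 0, 1)) _ hGR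
  have hval := CNw_value D hD u hu (Ideal.span {(P : 𝓞 K)}) R₀ hRp φ hWt _ _ (hdD (fun _ => 0, 1)) _ hGR L hL.equi
    (fun a π => ⟨_, hdD (a, π)⟩)
  -- the value functions
  have hH : ∀ j, ∀ a ∈ D.X, (cx D (Ideal.span {(P : 𝓞 K)}) a).Jv
      (fun k : Fin (m + 1) => .A (L (kv (fun k => ((j.1 k : ℕ) : ℤ)) j.2 k))) = ((P : ℂ)⁻¹) ^ (m + 1) * (S j).H a := by
    intro j a ha
    have h1 := Jv_H hP0 (S j) (hS j) hD ha
    rw [hSA j] at h1
    exact h1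
  have hPC : ((P : ℂ)⁻¹) ^ (m + 1) ≠ 0 := pow_ne_zero _ (inv_ne_zero (by exact_mod_cast hP0))
  have hHc : ∀ j, ∀ x ∈ D.X, ∀ y ∈ D.X, x - y ∈ Ideal.span {(P : 𝓞 K)} * (mK K M * f * b) → (S j).H x = (S j).H y := by
    intro j x hx y hy hxy
    have h1 := cx_Jv D (Ideal.span {(P : 𝓞 K)}) hxy
      (fun k : Fin (m + 1) => .A (L (kv (fun k => ((j.1 k : ℕ) : ℤ)) j.2 k)))
    rw [hH j x hx, hH j y hy] at h1
    exact mul_left_cancel₀ hPC h1
  have hCN : CN (m + 1) (Jw D (Ideal.span {(P : 𝓞 K)}) R₀ φ) (fun a => .A (L a)) = ((P : ℂ)⁻¹) ^ (m + 1) *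
      ∑ a ∈ R₀, φ a * ∑ j : (Fin m → Fin (m + 1)) × Equiv.Perm (Fin m), (((Equiv.Perm.sign j.2 : ℤ)) : ℂ) * (S j).H a := by
    have h1 : CN (m + 1) (Jw D (Ideal.span {(P : 𝓞 K)}) R₀ φ) (fun a => .A (L a)) =
        ∑ j : (Fin m → Fin (m + 1)) × Equiv.Perm (Fin m), ((Equiv.Perm.sign j.2 : ℤ) : ℂ) *
          ∑ a ∈ R₀, φ a * (((P : ℂ)⁻¹) ^ (m + 1) * (S j).H a) := by
      unfold CN
      rw [Fintype.sum_prod_type]
      refine Finset.sum_congr rfl fun a _ => Finset.sum_congr rfl fun π _ => ?_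
      have h3 : Jw D (Ideal.span {(P : 𝓞 K)}) R₀ φ (fun j => .A (L (kv (fun k => ((a k : ℕ) : ℤ)) π j))) =
          ∑ r ∈ R₀, φ r * (((P : ℂ)⁻¹) ^ (m + 1) * (S (a, π)).H r) := by
        unfold Jw
        refine Finset.sum_congr rfl fun r hr => ?_
        rw [← hH (a, π) r (hR₀.sub r hr)]
      exact congrArg (fun z => ((Equiv.Perm.sign π : ℤ) : ℂ) * z) h3
    rw [h1]
    simp only [Finset.mul_sum]
    rw [Finset.sum_comm]
    refine Finset.sum_congr rfl fun a _ => Finset.sum_congr rfl fun j _ => ?_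
    ring
  have hZv : Z 1 = ((P : ℂ)⁻¹) ^ (m + 1) * ∑ a ∈ R₀, φ a * ∑ j : (Fin m → Fin (m + 1)) × Equiv.Perm (Fin m),
      ((((if 0 ≤ Delta (D.lm u) then 1 else -1) * (Equiv.Perm.sign j.2 : ℤ) : ℤ)) : ℂ) * (S j).H a := by
    by_cases h : 0 ≤ Delta (D.lm u)
    · rw [hZ3, abs_of_nonneg h, ← hval, hCN]
      simp only [if_pos h, one_mul]
    · have h' : Delta (D.lm u) ≤ 0 := (not_le.1 h).le
      rw [hZ3, abs_of_nonpos h']
      have e1 : (m.factorial : ℂ) * ((-Delta (D.lm u) : ℝ) : ℂ) *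
          (∫ z in Set.Icc (0 : Fin m → ℝ) 1, ∑ a ∈ R₀, φ a * (cx D (Ideal.span {(P : 𝓞 K)}) a).Bv
            (nw (2 * P) (w' (fun _ => 0, 1))) (fun x => ((G x : ℤ) : ℂ)) (fun _ => tt (D.lm u) z)) =
          -(CN (m + 1) (Jw D (Ideal.span {(P : 𝓞 K)}) R₀ φ) (fun a => .A (L a))) := by
        rw [hval]
        push_cast
        ring
      rw [e1, hCN]
      simp only [if_neg h, neg_mul, one_mul, Int.cast_neg, Finset.sum_neg_distrib, mul_neg]
  refine ⟨fun s => Z s / ν, ?_, ?_, ?_⟩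
  · exact fun s hs => (hZ1 s hs).div_const
  · intro T hTT s hs
    obtain ⟨T', hT', hφT⟩ := hT T hTT
    refine hφT (fun x => φ x * (gw c q x * nf F s x)) (Z s) ?_ ?_
    · intro v hv x hx
      rw [pc_gw, pc_nf hσ s v (H55P.norm_one D hσ hM v (hJM hv)), hφ.inv x hx]
    · exact hZ2 T' hT'.sub (pc_bij h0X hT' u hu2 hu3) s hs
  · intro R hR
    have h1 := w11_sum hR hR₀ (fun a => φ a * ∑ j : (Fin m → Fin (m + 1)) × Equiv.Perm (Fin m),
      ((((if 0 ≤ Delta (D.lm u) then 1 else -1) * (Equiv.Perm.sign j.2 : ℤ) : ℤ)) : ℂ) * (S j).H a) (by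
        intro x hx y hy hxy
        show φ x * _ = φ y * _
        rw [hφ.per x hx y hxy]
        exact congrArg (fun z => φ y * z) (Finset.sum_congr rfl fun j _ => by rw [hHc j x hx y hy hxy]))
    show Z 1 / ν = _
    rw [hZv, ← h1]
    ring

end SSG.E
end

-- from Lib.SSG.E.CLW
section

open NumberField IsDedekindDomain

namespace SSG.E

open H55N H55P
open H35P (WAB Ker tt)
open H55K (CMA Dta)

variable {F : Type} [Field F] [NumberField F] [IQ F]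

/-! Chunk CLW (M). One class: corew (W11) and ldH_fn (E3). Bad from corew with P = p^N. val a := ν^-1 * sum over j of sg j * (S j).H a. The formula for Z 1: pull ν^-1 inside. For the second part: ldH_fn for each S j (D.Ok: σ from corew: Emb; ne: c₀ not in I because I <= (l) b
(pc_mK) ; smooth: Smooth c q; hI: mK K M, f, b are prime to p (pe9_cop hM.cop, hfp, hbp); l prime, coprime to p: hM.prime, pc_cop hM) gives h_j, H'_j; h := ν^-1 sum sg j h_j, H' := i(ν)^-1 sum sg j H'_j; Fn is closed under sums (Q1 + Q2) and under multiplication by constants of norm <= 1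
(‖i (sg j)‖ <= 1, ‖i ν‖ = 1 because p does not divide ν: LocM.val and V(ν) = 1: an integer prime to p is a unit of V). Choose functions by Classical.choose / choose. -/

section clw

variable {p : ℕ} [Fact p.Prime] {F' : Type} [Field F'] [NumberField F']

theorem clw_mul {L : LTF F' ℂ_[p]} {N : ℕ} {ι : Type} [Fintype ι] {H : (ι → 𝓞 F') → ℂ_[p]}
    (hH : L.Fn N ι H) (c : ℂ_[p]) (hc : ‖c‖ ≤ 1) : L.Fn N ι (fun a => c * H a) := by
  intro ε hε
  obtain ⟨Q, hQ, hQ'⟩ := hH ε hε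
  refine ⟨MvPolynomial.C c * Q, fun m => ?_, fun a => ?_⟩
  · rw [MvPolynomial.coeff_C_mul, norm_mul]
    exact mul_le_one₀ hc (norm_nonneg _) (hQ m)
  · rw [map_mul, MvPolynomial.eval_C, ← mul_sub, norm_mul]
    exact (mul_le_of_le_one_left (norm_nonneg _) hc).trans (hQ' a)

theorem clw_add {L : LTF F' ℂ_[p]} {N : ℕ} {ι : Type} [Fintype ι] {H H' : (ι → 𝓞 F') → ℂ_[p]}
    (hH : L.Fn N ι H) (hH' : L.Fn N ι H') : L.Fn N ι (fun a => H a + H' a) := by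
  intro ε hε
  obtain ⟨Q, hQ, hQ1⟩ := hH (ε / 2) (half_pos hε)
  obtain ⟨Q', hQ', hQ1'⟩ := hH' (ε / 2) (half_pos hε)
  refine ⟨Q + Q', fun m => ?_, fun a => ?_⟩
  · rw [MvPolynomial.coeff_add]
    exact (PadicComplex.isNonarchimedean p _ _).trans (max_le (hQ m) (hQ' m))
  · rw [map_add, add_sub_add_comm]
    have h1 := norm_add_le (H a - MvPolynomial.eval (fun i => L.X N (a i)) Q)
      (H' a - MvPolynomial.eval (fun i => L.X N (a i)) Q')
    have h2 := hQ1 a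
    have h3 := hQ1' a
    linarith

theorem clw_sum {L : LTF F' ℂ_[p]} {N : ℕ} {ι : Type} [Fintype ι] {κ : Type} (s : Finset κ)
    (H : κ → (ι → 𝓞 F') → ℂ_[p]) (hH : ∀ k, L.Fn N ι (H k)) :
    L.Fn N ι (fun a => ∑ k ∈ s, H k a) := by
  classical
  induction s using Finset.induction_on with
  | empty =>
    intro ε hε
    refine ⟨0, fun m => ?_, fun a => ?_⟩
    · rw [MvPolynomial.coeff_zero, norm_zero]
      exact zero_le_one
    · simp only [Finset.sum_empty, map_zero, sub_zero, norm_zero]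
      exact hε.le
  | insert k s hk ih =>
    have h1 : (fun a => ∑ x ∈ insert k s, H x a) = fun a => H k a + ∑ x ∈ s, H x a := by
      funext a
      rw [Finset.sum_insert hk]
    rw [h1]
    exact clw_add (hH k) ih

theorem clw_val {Ω : Type} [Field Ω] (V : ValuationSubring Ω) (hV : V.valuation (p : Ω) < 1) (n : ℕ)
    (hn : ¬ p ∣ n) : (n : Ω)⁻¹ ∈ V := by
  have hp : p.Prime := Fact.out
  have hint : ∀ k : ℤ, V.valuation (k : Ω) ≤ 1 := fun k => by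
    have h := V.valuation_le_one (k : V)
    exact_mod_cast h
  have h1 : IsCoprime (n : ℤ) (p : ℤ) := Nat.isCoprime_iff_coprime.2
    (((Nat.Prime.coprime_iff_not_dvd hp).2 hn).symm)
  obtain ⟨a, b, h⟩ := h1
  have h5 : V.valuation (n : Ω) = 1 := by
    refine le_antisymm (by exact_mod_cast hint n) ?_
    by_contra hcon
    push Not at hcon
    have h2 : (1 : Ω) = (a : Ω) * (n : Ω) + (b : Ω) * (p : Ω) := by
      have h0 := congrArg (Int.cast : ℤ → Ω) h.symm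
      push_cast at h0
      exact h0
    have h3 : V.valuation ((a : Ω) * (n : Ω)) < 1 := by
      rw [map_mul]
      exact mul_lt_one_of_nonneg_of_lt_one_right (hint a) (zero_le) hcon
    have h4 : V.valuation ((b : Ω) * (p : Ω)) < 1 := by
      rw [map_mul]
      exact mul_lt_one_of_nonneg_of_lt_one_right (hint b) (zero_le) hV
    have h6 := V.valuation.map_add_lt h3 h4
    rw [← h2, map_one] at h6
    exact lt_irrefl _ h6
  rw [← ValuationSubring.valuation_le_one_iff, map_inv₀, h5, inv_one]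

end clw

/-- (E1) + (E3): one class. `val a` is the value of the class of a: the smoothed series with the weight φ has the value P^(-g) sum φ(a) val(a) at 1, and
val(a)/Om^g is a uniform limit of integral polynomials in the Lubin-Tate coordinates of a. -/
theorem classw (p : ℕ) [Fact p.Prime] {M : Ideal (𝓞 F)} {l : 𝓞 F} (hM : Mod p M l)
    (K : Type) [Field K] [NumberField K] [Algebra F K] (m : ℕ)
    (hm : Module.finrank F K = m + 1) (hK : UnrP p K) (b f : Ideal (𝓞 K)) (hb : b ≠ ⊥)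
    (hbp : IsCoprime b (Ideal.span {(p : 𝓞 K)})) (hf : f ≠ ⊥)
    (hfp : IsCoprime f (Ideal.span {(p : 𝓞 K)}))
    (c₀ : 𝓞 K) (hc : c₀ ∈ b) (hc' : c₀ ∉ Ideal.span {algebraMap (𝓞 F) (𝓞 K) l} * b) (N : ℕ) (hN : 1 ≤ N) :
    ∃ Bad : Set (Ideal (𝓞 K)), Bad.Finite ∧
      ∀ (c : Fin (m + 1) × Fin 2 → Ideal (𝓞 K)) (q : Fin (m + 1) × Fin 2 → ℕ), Smooth c q →
        (∀ i, c i ∉ Bad) → ∃ val : 𝓞 K → ℂ,
          (∀ φ : 𝓞 K → ℂ, WtU (mK K M * f * b) c₀ (p ^ N) φ → ∃ Z : ℂ → ℂ, AnalyticOnNhd ℂ Z {s | 1 / 2 < s.re} ∧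
            (∀ T : Set (𝓞 K), Transv (mK K M * f) (XS (mK K M * f * b) c₀) T →
              ∀ s : ℂ, 3 / 2 < s.re → HasSum (fun x : T => φ x * (gw c q x * nf F s (x : 𝓞 K))) (Z s)) ∧
            ∀ R : Finset (𝓞 K), RpU (mK K M * f * b) c₀ (p ^ N) R →
              Z 1 = (((p : ℂ) ^ N)⁻¹) ^ (m + 1) * ∑ a ∈ R, φ a * val a) ∧
          ∀ (A B : F) (Om : ℂ) (Ω : Type) [Field Ω] [DecidableEq Ω] [Algebra F Ω] [IsAlgClosure F Ω] (j : Ω →+* ℂ)
            (act : 𝓞 F →+* AddMonoid.End (Pt (WAB A B) Ω)) (mm : Ideal (𝓞 F)) (ψ : Ideal (𝓞 F) →*₀ 𝓞 F),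
            Dta A B Om j act mm ψ p → (Ideal.span {(p : 𝓞 F)}).IsPrime →
            ∀ (V : ValuationSubring Ω) (i : Ω →+* ℂ_[p]) (T : ℕ → Pt (WAB A B) Ω) (L : LTF F ℂ_[p]),
              V.valuation (p : Ω) < 1 → LocM A B Om j act p V i T L →
            ∀ (v : Fin (m + 1) → HeightOneSpectrum (𝓞 K)) (r : Fin (m + 1) → 𝓞 K →+* RN F p N), Crd p N v r →
            ∃ (h : 𝓞 K → Ω) (H' : (Fin (m + 1) → 𝓞 F) → ℂ_[p]),
              (∀ a ∈ XS (mK K M * f * b) c₀, j (h a) = val a / Om ^ (m + 1)) ∧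
              L.Fn N (Fin (m + 1)) H' ∧ ∀ a ∈ XS (mK K M * f * b) c₀, i (h a) = H' (cr r a) := by
  classical
  have hp : p.Prime := Fact.out
  obtain ⟨Bad, hBad, hcore⟩ :=
    corew p hp hM K m hm hK b f hb hbp hf hfp c₀ hc hc' (p ^ N) ⟨N, rfl⟩
  refine ⟨Bad, hBad, fun c q hs hbad => ?_⟩
  obtain ⟨σ, ν, ix, hix, sg, S, hσ, hν, hS, hA, hZ⟩ := hcore c q hs hbad
  refine ⟨fun a => (ν : ℂ)⁻¹ * ∑ jx, (sg jx : ℂ) * (S jx).H a, ?_, ?_⟩
  · intro φ hφ
    obtain ⟨Z, h1, h2, h3⟩ := hZ φ hφ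
    refine ⟨Z, h1, h2, fun R hR => ?_⟩
    rw [h3 R hR, Finset.mul_sum, Finset.mul_sum]
    refine Finset.sum_congr rfl fun a _ => ?_
    push_cast
    ring
  · intro A B Om Ω _ _ _ _ j act mm ψ hd hin V i T L hV hL v r hr
    have hle : mK K M * f * b ≤ Ideal.span {algebraMap (𝓞 F) (𝓞 K) l} * b :=
      Ideal.mul_mono_left (Ideal.mul_le_left.trans (pc_mK hM.le))
    have hD : (⟨σ, mK K M * f * b, c₀, c, q⟩ : H55P.Ctx F K m).Ok := ⟨hσ, fun h => hc' (hle h), hs⟩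
    have hI : IsCoprime (mK K M * f * b) (Ideal.span {(p : 𝓞 K)}) :=
      IsCoprime.mul_left (IsCoprime.mul_left (pe9_cop hM.cop) hfp) hbp
    have hk := fun jx => ldH_fn hd hin V hV i T L hL v r hr hM.prime (pc_cop hM)
      (⟨σ, mK K M * f * b, c₀, c, q⟩ : H55P.Ctx F K m) hD hI (S jx) (hS jx) (hA jx) hN
    choose h H' h1 h2 h3 using hk
    refine ⟨fun a => (ν : Ω)⁻¹ * ∑ jx, (sg jx : Ω) * h jx a,
      fun a => i ((ν : Ω)⁻¹) * ∑ jx, i (sg jx : Ω) * H' jx a, ?_, ?_, ?_⟩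
    · intro a ha
      have e1 : ∀ jx, j (h jx a) = (S jx).H a / Om ^ (m + 1) := fun jx => h1 jx a ha
      rw [map_mul, map_inv₀, map_natCast, map_sum, mul_div_assoc, Finset.sum_div]
      congr 1
      refine Finset.sum_congr rfl fun jx _ => ?_
      rw [map_mul, map_intCast, e1, mul_div_assoc]
    · refine clw_mul (clw_sum _ _ fun jx => clw_mul (h2 jx) _ ?_) _ ?_
      · exact (hL.val _).1 (intCast_mem V.toSubring (sg jx))
      · exact (hL.val _).1 (clw_val V hV ν hν)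
    · intro a ha
      have e1 : ∀ jx, i (h jx a) = H' jx (cr r a) := fun jx => h3 jx a ha
      rw [map_mul, map_sum]
      congr 1
      refine Finset.sum_congr rfl fun jx _ => ?_
      rw [map_mul, e1]

end SSG.E
end
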