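import Mathlib
import Pool.Agent.Lib.H1M.PP2.M109
import Pool.Agent.Lib.H1M.PP2.M141
import Pool.Agent.Lib.H1M.PP2.M145
import Pool.Agent.Lib.H1M.PP2.M146

/-! # H55Y: elliptic curves over the rational numbers with complex multiplication by any order -/

open NumberField IsDedekindDomain WeierstrassCurve

namespace H55Y

open H55P (IQ embF eF LF Per Nm)
open H55K (cj)
open H55K.TQ
open H55W
open H28I (sA sB IP TW)

variable {F : Type} [Field F] [NumberField F] [IQ F]

/-- The order of conductor f of F has class number one. -/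
def Cond (F : Type) [Field F] [NumberField F] (f : ℕ) : Prop :=
  f = 1 ∨ (f = 2 ∧ ((∃ w : 𝓞 F, w ^ 2 + w + 1 = 0) ∨ (∃ i : 𝓞 F, i ^ 2 = -1) ∨ ∃ s : 𝓞 F, s ^ 2 = -7)) ∨
    (f = 3 ∧ ∃ w : 𝓞 F, w ^ 2 + w + 1 = 0)

end H55Y
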