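import Mathlib
import Pool.Agent.Lib.H1M.PP2.M098
import Pool.Agent.Lib.H1M.PP2.M101
import Pool.Agent.Lib.H1M.PP2.M107
import Pool.Agent.Lib.H1M.PP2.M108
import Pool.Agent.Lib.H1M.PP2.M113

/-! Merged copies (to shorten the build) of Lib.H55G.C3d, Lib.H55G.C3e, Lib.H55G.D1a, Lib.H55G.D1b, Lib.H55G.D1c, Lib.H55G.D1d, Lib.H55Z.Q1. -/

-- from Lib.H55G.C3d
section

/-! # H55G, part C: the multiplications on the reduced curve are rational functions -/

open NumberField IsDedekindDomain WeierstrassCurve Polynomial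

namespace H55G

open H55P (IQ embF eF LF Per IsHecke Pt ac Inert Dec Nm)
open H35P (WAB Ker GoodW IntW)
open H55K (CMA Tor TN ak xc yc cj cj_cj mul_cj Nm_cj Nm_mul Nm_nat)
open H55K.MG (VC Crd)

variable {F : Type} [Field F] [NumberField F] [IQ F] {A B : F} {Om : ℂ} {Ω : Type} [Field Ω] [DecidableEq Ω]
  [Algebra F Ω] {j : Ω →+* ℂ} {act : 𝓞 F →+* AddMonoid.End (Pt (WAB A B) Ω)} {V : ValuationSubring Ω}
  {W' : WeierstrassCurve Ω} {u r s t : Ω} {Θ : Pt (WAB A B) Ω ≃+ W'.toAffine.Point} {Kg : AddSubgroup (Pt (WAB A B) Ω)}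

/-- Chunk C3B (M). a = b^k c with b not dividing c (as in kk_split, A1.lean; val_nb gives V(c) = 1). Induction on k: k = 0: rf_unit. Step: a = b a' = a' b: for P ≠ 0 with ρ a P ≠ 0: P' = ρ b P ≠ 0 and ρ a P = ρ a' P'; N', D' for a' (degree ≤ Nm a'): D'(X P') X (ρ a' P') = N'(X P'), and X P' = q(X P), q = C e (T - C y)^(Nm b) + C f of degree Nm b > 0 (rf_b; Nm b ≠ 0). comp_nd, Nm_mul. -/
theorem rf_all (h : CMA F A B Om j act) (hG : GD V W' u r s t Θ Kg) (hst : ∀ a : 𝓞 F, ∀ P ∈ Kg, act a P ∈ Kg)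
    {b : 𝓞 F} (hb : Prime b) (hV : V.valuation (ak Ω b) < 1) {a : 𝓞 F} (ha : a ≠ 0) :
    RFn (IsLocalRing.ResidueField V) (rhoG Kg act hst) (XG V Θ Kg) a (Nm a) := by
  obtain ⟨k, c, hbc, rfl⟩ := WfDvdMonoid.max_power_factor ha hb.irreducible
  clear ha
  have hb0 : Nm b ≠ 0 := by
    intro h0
    rw [H55P.Nm_eq_zero] at h0
    exact hb.ne_zero h0
  obtain ⟨e, f, y, he, hef⟩ := rf_b h hG hst hb hV
  induction k with
  | zero =>
    have hc := ((val_nb (V := V) hb hV) c).1 hbc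
    rw [pow_zero, one_mul]
    exact rf_unit h hG hst hc
  | succ k ih =>
    obtain ⟨N, D, h0, hN, hD, h1⟩ := ih
    have hq : ((C e * (X - C y) ^ Nm b + C f : (IsLocalRing.ResidueField V)[X])).natDegree =
        Nm b := by
      rw [natDegree_add_C, natDegree_C_mul he, natDegree_pow, natDegree_X_sub_C, mul_one]
    obtain ⟨h2, h3, h4⟩ := comp_nd (q := C e * (X - C y) ^ Nm b + C f) h0
      (by rw [hq]; exact Nat.pos_of_ne_zero hb0) hN hD hq.le
    have hm : b ^ (k + 1) * c = b ^ k * c * b := by ring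
    refine ⟨N.comp (C e * (X - C y) ^ Nm b + C f), D.comp (C e * (X - C y) ^ Nm b + C f), h2, ?_,
      ?_, ?_⟩
    · rw [hm, Nm_mul, mul_comm (Nm (b ^ k * c))]
      exact h3
    · rw [hm, Nm_mul, mul_comm (Nm (b ^ k * c))]
      exact h4
    · intro P hP hP'
      have h5 : rhoG Kg act hst (b ^ (k + 1) * c) P =
          rhoG Kg act hst (b ^ k * c) (rhoG Kg act hst b P) := by
        rw [hm, map_mul]
        rfl
      rw [h5] at hP' ⊢
      obtain ⟨h6, h7⟩ := hef P hP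
      have h8 := h1 _ h6 hP'
      rw [h7] at h8
      rw [eval_comp, eval_comp]
      simpa using h8

end H55G
end

-- from Lib.H55G.C3e
section

/-! # H55G, part C: the multiplications on the reduced curve are rational functions -/

open NumberField IsDedekindDomain WeierstrassCurve Polynomial

namespace H55G

open H55P (IQ embF eF LF Per IsHecke Pt ac Inert Dec Nm)
open H35P (WAB Ker GoodW IntW)
open H55K (CMA Tor TN ak xc yc cj cj_cj mul_cj Nm_cj Nm_mul Nm_nat)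
open H55K.MG (VC Crd)

variable {F : Type} [Field F] [NumberField F] [IQ F] {A B : F} {Om : ℂ} {Ω : Type} [Field Ω] [DecidableEq Ω]
  [Algebra F Ω] {j : Ω →+* ℂ} {act : 𝓞 F →+* AddMonoid.End (Pt (WAB A B) Ω)} {V : ValuationSubring Ω}
  {W' : WeierstrassCurve Ω} {u r s t : Ω} {Θ : Pt (WAB A B) Ω ≃+ W'.toAffine.Point} {Kg : AddSubgroup (Pt (WAB A B) Ω)}

/-- Chunk C3B (S/M). prime: hb. inj: b_kg. gen: for c with b not dividing c, V(c) = 1 (val_nb); T₀ from h.gen c, T = its class. If ρ c P = 0, P the class of X: act c X in Kg, lift_tor: X - T' in Kg, act c T' = 0, T' = act a T₀. ρ a T = 0 iff act a T₀ in Kg iff act a T₀ = 0 (tor_kg, since act c (act a T₀) = 0) iff c ∣ a. -/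
theorem rb_of (h : CMA F A B Om j act) (hG : GD V W' u r s t Θ Kg) (hst : ∀ a : 𝓞 F, ∀ P ∈ Kg, act a P ∈ Kg)
    {b : 𝓞 F} (hb : Prime b) (hV : V.valuation (ak Ω b) < 1) : RB (rhoG Kg act hst) b := by
  have hq : ∀ X : Pt (WAB A B) Ω, ((X : Pt (WAB A B) Ω ⧸ Kg) = 0) ↔ X ∈ Kg := fun X =>
    QuotientAddGroup.eq_zero_iff X
  refine ⟨hb, ?_, ?_⟩
  · intro P hP
    induction P using QuotientAddGroup.induction_on with
    | H X =>
      rw [rhoG_mk, hq] at hP
      exact (hq X).2 (b_kg h hG hb hV hP)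
  · intro c hc
    have hVc : V.valuation (ak Ω c) = 1 := (val_nb hb hV c).1 hc
    have hc0 : c ≠ 0 := by
      rintro rfl
      exact hc (dvd_zero b)
    obtain ⟨T₀, hT₀, hgen, hann, -⟩ := h.gen c hc0
    have hT0 : act c T₀ = 0 := hT₀
    refine ⟨(T₀ : Pt (WAB A B) Ω ⧸ Kg), ?_, ?_⟩
    · intro P hP
      induction P using QuotientAddGroup.induction_on with
      | H X =>
        rw [rhoG_mk, hq] at hP
        obtain ⟨T, hT, hXT⟩ := lift_tor h hG hVc hP
        obtain ⟨a, ha⟩ := hgen T hT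
        refine ⟨a, ?_⟩
        rw [rhoG_mk, ← ha]
        have h1 : ((X - T : Pt (WAB A B) Ω) : Pt (WAB A B) Ω ⧸ Kg) = 0 := (hq _).2 hXT
        rw [QuotientAddGroup.mk_sub, sub_eq_zero] at h1
        exact h1
    · intro a
      rw [rhoG_mk, hq, ← hann a]
      constructor
      · intro hm
        refine tor_kg h hG hVc ?_ hm
        have e : act c (act a T₀) = act a (act c T₀) := by
          have e1 : act c * act a = act a * act c := by rw [← map_mul, ← map_mul, mul_comm]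
          exact DFunLike.congr_fun e1 T₀
        rw [e, hT0, map_zero]
      · intro h0
        rw [h0]
        exact Kg.zero_mem

/-- Chunk C3B (S). inf: rs_algClosed, IsAlgClosed.instInfinite or IsAlgClosed infinite. xinj: XG_inj. xsurj: XG_surj. surj: h.surj and classes. b: rb_of. rf: rf_all. -/
theorem rg_of [IsAlgClosed Ω] (h : CMA F A B Om j act) (hG : GD V W' u r s t Θ Kg)
    (hst : ∀ a : 𝓞 F, ∀ P ∈ Kg, act a P ∈ Kg) {b : 𝓞 F} (hb : Prime b) (hV : V.valuation (ak Ω b) < 1) :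
    RG (rhoG Kg act hst) (XG V Θ Kg) := by
  have := rs_algClosed V
  refine ⟨IsAlgClosed.instInfinite, fun P Q hP hQ => XG_inj hG hP hQ, fun x => XG_surj hG x, ?_,
    ⟨b, rb_of h hG hst hb hV⟩, fun a ha => rf_all h hG hst hb hV ha⟩
  intro a ha P
  induction P using QuotientAddGroup.induction_on with
  | H X =>
    obtain ⟨Y, hY⟩ := h.surj a ha X
    exact ⟨(Y : Pt (WAB A B) Ω ⧸ Kg), by rw [rhoG_mk, hY]⟩

end H55G
end

-- from Lib.H55G.D1a
section

/-! # H55G, part D: the Frobenius endomorphism of the reduced curve -/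

open NumberField IsDedekindDomain WeierstrassCurve Polynomial

namespace H55G

open H55P (IQ embF eF LF Per IsHecke Pt ac Inert Dec Nm)
open H35P (WAB Ker GoodW IntW)
open H55K (CMA Tor TN ak xc yc cj cj_cj mul_cj Nm_cj Nm_mul Nm_nat acr xc_acr yc_acr acr_zero_iff acr_inj acr_eq_ac acr_trans GoodAt Abw)
open H55K.MG (VC Crd)

variable {F : Type} [Field F] [NumberField F] [IQ F] {A B : F} {Om : ℂ} {Ω : Type} [Field Ω] [DecidableEq Ω]
  [Algebra F Ω] {j : Ω →+* ℂ} {act : 𝓞 F →+* AddMonoid.End (Pt (WAB A B) Ω)} {V : ValuationSubring Ω}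
  {W' : WeierstrassCurve Ω} {u r s t : Ω} {Θ : Pt (WAB A B) Ω ≃+ W'.toAffine.Point} {Kg : AddSubgroup (Pt (WAB A B) Ω)}

/-- g fixes u, r, s, t. -/
def Fx (g : Ω ≃+* Ω) (u r s t : Ω) : Prop := g u = u ∧ g r = r ∧ g s = s ∧ g t = t

omit [DecidableEq Ω] in
/-- Chunk D1 (S). g x - x^q has value < 1 for x in V. If V(x) ≤ 1: V(g x) = V(x^q + small) ≤ 1, and V(g x) < 1 iff V(x)^q < 1 iff V(x) < 1. If V(x) > 1: 1/x has value < 1, so V(g (1/x)) < 1, V(g x) > 1. Compare H55K.g8c_dec (G8C.lean). -/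
theorem fr_mem {g : Ω ≃+* Ω} {q : ℕ} (hq : 0 < q) (hf : ∀ x ∈ V, V.valuation (g x - x ^ q) < 1) (x : Ω) :
    (V.valuation (g x) ≤ 1 ↔ V.valuation x ≤ 1) ∧ (V.valuation (g x) < 1 ↔ V.valuation x < 1) := by
  have hA : ∀ x, V.valuation x ≤ 1 → V.valuation (g x) ≤ 1 := by
    intro x hx
    have e : g x = (g x - x ^ q) + x ^ q := by ring
    rw [e]
    refine V.valuation.map_add_le (hf x ((V.valuation_le_one_iff _).1 hx)).le ?_
    rw [map_pow]
    exact pow_le_one₀ zero_le hx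
  have hB : ∀ x, V.valuation x < 1 → V.valuation (g x) < 1 := by
    intro x hx
    have e : g x = (g x - x ^ q) + x ^ q := by ring
    rw [e]
    refine V.valuation.map_add_lt (hf x ((V.valuation_le_one_iff _).1 hx.le)) ?_
    rw [map_pow]
    exact pow_lt_one₀ zero_le hx hq.ne'
  have hC : ∀ x, V.valuation x ≤ 1 → V.valuation (g x) < 1 → V.valuation x < 1 := by
    intro x hx hgx
    have e : x ^ q = g x - (g x - x ^ q) := by ring
    have h1 : V.valuation (x ^ q) < 1 := by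
      rw [e]
      exact V.valuation.map_sub_lt hgx (hf x ((V.valuation_le_one_iff _).1 hx))
    rw [map_pow] at h1
    by_contra h2
    have h3 : V.valuation x = 1 := le_antisymm hx (not_lt.1 h2)
    rw [h3, one_pow] at h1
    exact lt_irrefl _ h1
  have hD : ∀ x, 1 < V.valuation x → 1 < V.valuation (g x) := by
    intro x hx
    have hx0 : x ≠ 0 := by
      rintro rfl
      rw [map_zero] at hx
      exact not_lt_zero hx
    have h3 : V.valuation x⁻¹ < 1 := by
      rw [map_inv₀]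
      exact inv_lt_one_of_one_lt₀ hx
    have h4 := hB _ h3
    have h7 : V.valuation (g x) * V.valuation (g x⁻¹) = 1 := by
      rw [← map_mul, ← map_mul, mul_inv_cancel₀ hx0, map_one, map_one]
    by_contra h8
    have h9 : V.valuation (g x) * V.valuation (g x⁻¹) < 1 := by
      rw [mul_comm]
      exact mul_lt_one_of_lt_of_le h4 (not_lt.1 h8)
    exact h9.ne h7
  refine ⟨⟨fun h1 => not_lt.1 fun h2 => absurd (hD x h2) (not_lt.2 h1), hA x⟩, ⟨fun h1 => ?_, hB x⟩⟩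
  exact hC x (not_lt.1 fun h2 => absurd (hD x h2) (not_lt.2 h1.le)) h1

omit [NumberField F] [IQ F] in
/-- Chunk D1 (S). xc (acr P) = g (xc P), yc (acr P) = g (yc P) (xc_acr, yc_acr), acr P ≠ 0 (acr_zero_iff); hG.crd for P and acr P: u^2 xp (acr P) + r = g (u^2 xp P + r) = u^2 g (xp P) + r; divide by u^2 (hG.une); the same for y. -/
theorem xp_acr {g : Ω ≃+* Ω} {hA : g (algebraMap F Ω A) = algebraMap F Ω A} {hB : g (algebraMap F Ω B) = algebraMap F Ω B}
    (hG : GD V W' u r s t Θ Kg) (hg : Fx g u r s t) {P : Pt (WAB A B) Ω} (hP : P ≠ 0) :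
    xp Θ (acr g hA hB P) = g (xp Θ P) ∧ yp Θ (acr g hA hB P) = g (yp Θ P) := by
  obtain ⟨hT, hx, hy⟩ := hG.crd P hP
  obtain ⟨hT', hx', hy'⟩ := hG.crd (acr g hA hB P) (fun h => hP ((acr_zero_iff g hA hB P).1 h))
  obtain ⟨g1, g2, g3, g4⟩ := hg
  rw [xc_acr, hx, map_add, map_mul, map_pow, g1, g2] at hx'
  rw [yc_acr, hy, map_add, map_add, map_mul, map_mul, map_mul, map_pow, map_pow, g1, g3, g4] at hy'
  have e1 : xp Θ (acr g hA hB P) = g (xp Θ P) :=
    (mul_left_cancel₀ (pow_ne_zero 2 hG.une) (add_right_cancel hx')).symm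
  refine ⟨e1, ?_⟩
  have e2 : xc (Θ (acr g hA hB P)) = g (xc (Θ P)) := e1
  rw [e2] at hy'
  exact (mul_left_cancel₀ (pow_ne_zero 3 hG.une) (add_right_cancel (add_right_cancel hy'))).symm

omit [NumberField F] [IQ F] in
/-- Chunk D1 (S). P = 0 clear (acr_zero_iff). Otherwise P in Kg iff V(xp P) > 1 (hG.kg, MG.ker_crd in M3A.lean) iff V(g (xp P)) > 1 (fr_mem) iff acr P in Kg (xp_acr). -/
theorem acr_kg {g : Ω ≃+* Ω} {hA : g (algebraMap F Ω A) = algebraMap F Ω A} {hB : g (algebraMap F Ω B) = algebraMap F Ω B}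
    (hG : GD V W' u r s t Θ Kg) (hg : Fx g u r s t) {q : ℕ} (hq : 0 < q) (hf : ∀ x ∈ V, V.valuation (g x - x ^ q) < 1)
    (P : Pt (WAB A B) Ω) : acr g hA hB P ∈ Kg ↔ P ∈ Kg := by
  by_cases hP : P = 0
  · rw [hP, map_zero]
  · have hP' : acr g hA hB P ≠ 0 := fun h => hP ((acr_zero_iff g hA hB P).1 h)
    have h1 : Θ P ≠ 0 := (hG.crd P hP).1
    have h2 : Θ (acr g hA hB P) ≠ 0 := (hG.crd _ hP').1
    rw [hG.kg, hG.kg, H55K.MG.ker_crd h1, H55K.MG.ker_crd h2]
    have h3 : xc (Θ (acr g hA hB P)) = g (xc (Θ P)) := (xp_acr hG hg hP).1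
    rw [h3, ← not_le, ← not_le]
    exact not_congr (fr_mem hq hf _).1

end H55G
end

-- from Lib.H55G.D1b
section

/-! # H55G, part D: the Frobenius endomorphism of the reduced curve -/

open NumberField IsDedekindDomain WeierstrassCurve Polynomial

namespace H55G

open H55P (IQ embF eF LF Per IsHecke Pt ac Inert Dec Nm)
open H35P (WAB Ker GoodW IntW)
open H55K (CMA Tor TN ak xc yc cj cj_cj mul_cj Nm_cj Nm_mul Nm_nat acr xc_acr yc_acr acr_zero_iff acr_inj acr_eq_ac acr_trans GoodAt Abw)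
open H55K.MG (VC Crd)

variable {F : Type} [Field F] [NumberField F] [IQ F] {A B : F} {Om : ℂ} {Ω : Type} [Field Ω] [DecidableEq Ω]
  [Algebra F Ω] {j : Ω →+* ℂ} {act : 𝓞 F →+* AddMonoid.End (Pt (WAB A B) Ω)} {V : ValuationSubring Ω}
  {W' : WeierstrassCurve Ω} {u r s t : Ω} {Θ : Pt (WAB A B) Ω ≃+ W'.toAffine.Point} {Kg : AddSubgroup (Pt (WAB A B) Ω)}

omit [NumberField F] [IQ F] in
/-- Chunk D1 (S). c = class of P, P not in Kg, acr P not in Kg (acr_kg). qmap_mk, XG_mk, xp_acr: XG (φ c) = rs (g (xp P)) = rs ((xp P)^q) (rs_eq with hf; g (xp P) in V by fr_mem) = (rs (xp P))^q (rs_pow). -/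
theorem phi_xy {g : Ω ≃+* Ω} {hA : g (algebraMap F Ω A) = algebraMap F Ω A} {hB : g (algebraMap F Ω B) = algebraMap F Ω B}
    (hG : GD V W' u r s t Θ Kg) (hg : Fx g u r s t) {q : ℕ} (hq : 0 < q) (hf : ∀ x ∈ V, V.valuation (g x - x ^ q) < 1)
    (hK : ∀ P ∈ Kg, acr g hA hB P ∈ Kg) {c : Pt (WAB A B) Ω ⧸ Kg} (hc : c ≠ 0) :
    XG V Θ Kg (qmap Kg (acr g hA hB) hK c) = XG V Θ Kg c ^ q ∧ YG V Θ Kg (qmap Kg (acr g hA hB) hK c) = YG V Θ Kg c ^ q := by
  obtain ⟨P, rfl⟩ := QuotientAddGroup.mk_surjective c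
  have hP : P ∉ Kg := fun h => hc ((QuotientAddGroup.eq_zero_iff P).2 h)
  have hP' : acr g hA hB P ∉ Kg := fun h => hP ((acr_kg hG hg hq hf P).1 h)
  obtain ⟨hP0, hPx, hPy⟩ := xp_int hG hP
  obtain ⟨-, hPx', hPy'⟩ := xp_int hG hP'
  obtain ⟨e1, e2⟩ := xp_acr (hA := hA) (hB := hB) hG hg hP0
  change XG V Θ Kg ((acr g hA hB P : Pt (WAB A B) Ω) : Pt (WAB A B) Ω ⧸ Kg) = _ ∧
    YG V Θ Kg ((acr g hA hB P : Pt (WAB A B) Ω) : Pt (WAB A B) Ω ⧸ Kg) = _
  obtain ⟨f1, f2⟩ := XG_mk hG hP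
  obtain ⟨f3, f4⟩ := XG_mk hG hP'
  have f1' : XG V Θ Kg ((P : Pt (WAB A B) Ω) : Pt (WAB A B) Ω ⧸ Kg) = rs V (xp Θ P) := f1
  rw [f3, f4, e1, e2]
  rw [e1] at hPx'
  rw [e2] at hPy'
  constructor
  · rw [(rs_eq hPx' (pow_mem hPx q)).2 (hf _ hPx), rs_pow hPx]
    exact congrArg (fun z => z ^ q) f1.symm
  · rw [(rs_eq hPy' (pow_mem hPy q)).2 (hf _ hPy), rs_pow hPy]
    exact congrArg (fun z => z ^ q) f2.symm

end H55G
end

-- from Lib.H55G.D1c
section

/-! # H55G, part D: the Frobenius endomorphism of the reduced curve -/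

open NumberField IsDedekindDomain WeierstrassCurve Polynomial

namespace H55G

open H55P (IQ embF eF LF Per IsHecke Pt ac Inert Dec Nm)
open H35P (WAB Ker GoodW IntW)
open H55K (CMA Tor TN ak xc yc cj cj_cj mul_cj Nm_cj Nm_mul Nm_nat acr xc_acr yc_acr acr_zero_iff acr_inj acr_eq_ac acr_trans GoodAt Abw)
open H55K.MG (VC Crd)

variable {F : Type} [Field F] [NumberField F] [IQ F] {A B : F} {Om : ℂ} {Ω : Type} [Field Ω] [DecidableEq Ω]
  [Algebra F Ω] {j : Ω →+* ℂ} {act : 𝓞 F →+* AddMonoid.End (Pt (WAB A B) Ω)} {V : ValuationSubring Ω}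
  {W' : WeierstrassCurve Ω} {u r s t : Ω} {Θ : Pt (WAB A B) Ω ≃+ W'.toAffine.Point} {Kg : AddSubgroup (Pt (WAB A B) Ω)}

omit [NumberField F] [IQ F] in
/-- Chunk D1 (M). two: q = l^f ≥ 2. bij: injective: qmap (class P) = 0 iff acr P in Kg iff P in Kg (acr_kg); a homomorphism with trivial kernel. surjective: acr g.symm is an inverse of acr g (acr_trans; g.symm fixes A and B); the class of acr g.symm P is mapped to the class of P. x: phi_xy. card: card_fix with rs_algClosed and (l : residue field) = rs V l = 0 (rs_eq_zero; hl: V(l) < 1; the class of a natural number). -/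
theorem fr_of [IsAlgClosed Ω] {g : Ω ≃+* Ω} {hA : g (algebraMap F Ω A) = algebraMap F Ω A}
    {hB : g (algebraMap F Ω B) = algebraMap F Ω B} (hG : GD V W' u r s t Θ Kg) (hg : Fx g u r s t) {q l f : ℕ}
    (hl : l.Prime) (hlV : V.valuation (l : Ω) < 1) (hf0 : f ≠ 0) (hq : q = l ^ f)
    (hf : ∀ x ∈ V, V.valuation (g x - x ^ q) < 1) (hK : ∀ P ∈ Kg, acr g hA hB P ∈ Kg) :
    Fr (XG V Θ Kg) q (qmap Kg (acr g hA hB) hK) := by
  have hq0 : 0 < q := by
    rw [hq]
    exact pow_pos hl.pos f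
  have hA' : g.symm (algebraMap F Ω A) = algebraMap F Ω A := by
    rw [RingEquiv.symm_apply_eq, hA]
  have hB' : g.symm (algebraMap F Ω B) = algebraMap F Ω B := by
    rw [RingEquiv.symm_apply_eq, hB]
  have hinv : ∀ P : Pt (WAB A B) Ω, acr g hA hB (acr g.symm hA' hB' P) = P := by
    intro P
    by_cases hP : P = 0
    · rw [hP, map_zero, map_zero]
    · refine H55K.CC.c27_ext (fun h => hP ((acr_zero_iff _ hA' hB' P).1 ((acr_zero_iff _ hA hB _).1 h))) hP ?_ ?_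
      · rw [xc_acr, xc_acr, RingEquiv.apply_symm_apply]
      · rw [yc_acr, yc_acr, RingEquiv.apply_symm_apply]
  refine ⟨?_, ⟨?_, ?_⟩, ?_, ?_⟩
  · rw [hq]
    exact hl.two_le.trans (Nat.le_self_pow hf0 l)
  · rw [injective_iff_map_eq_zero]
    intro c hc
    induction c using QuotientAddGroup.induction_on with
    | H P =>
      change ((acr g hA hB P : Pt (WAB A B) Ω) : Pt (WAB A B) Ω ⧸ Kg) = 0 at hc
      rw [QuotientAddGroup.eq_zero_iff, acr_kg hG hg hq0 hf] at hc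
      exact (QuotientAddGroup.eq_zero_iff P).2 hc
  · intro c
    induction c using QuotientAddGroup.induction_on with
    | H P =>
      refine ⟨((acr g.symm hA' hB' P : Pt (WAB A B) Ω) : Pt (WAB A B) Ω ⧸ Kg), ?_⟩
      change ((acr g hA hB (acr g.symm hA' hB' P) : Pt (WAB A B) Ω) : Pt (WAB A B) Ω ⧸ Kg) = _
      rw [hinv]
  · intro c hc
    exact (phi_xy hG hg hq0 hf hK hc).1
  · have hac : IsAlgClosed (IsLocalRing.ResidueField V) := rs_algClosed V
    refine card_fix hl ?_ hf0 hq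
    have h1 : (l : Ω) ∈ V := natCast_mem V l
    have h2 : rs V (l : Ω) = 0 := (rs_eq_zero h1).2 hlV
    rw [rs, dif_pos h1] at h2
    rw [← h2]
    exact (map_natCast (IsLocalRing.residue V) l).symm

end H55G
end

-- from Lib.H55G.D1d
section

/-! # H55G, part D: the Frobenius endomorphism of the reduced curve -/

open NumberField IsDedekindDomain WeierstrassCurve Polynomial

namespace H55G

open H55P (IQ embF eF LF Per IsHecke Pt ac Inert Dec Nm)
open H35P (WAB Ker GoodW IntW)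
open H55K (CMA Tor TN ak xc yc cj cj_cj mul_cj Nm_cj Nm_mul Nm_nat acr xc_acr yc_acr acr_zero_iff acr_inj acr_eq_ac acr_trans GoodAt Abw)
open H55K.MG (VC Crd)

variable {F : Type} [Field F] [NumberField F] [IQ F] {A B : F} {Om : ℂ} {Ω : Type} [Field Ω] [DecidableEq Ω]
  [Algebra F Ω] {j : Ω →+* ℂ} {act : 𝓞 F →+* AddMonoid.End (Pt (WAB A B) Ω)} {V : ValuationSubring Ω}
  {W' : WeierstrassCurve Ω} {u r s t : Ω} {Θ : Pt (WAB A B) Ω ≃+ W'.toAffine.Point} {Kg : AddSubgroup (Pt (WAB A B) Ω)}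

omit [DecidableEq Ω] in
/-- Chunk D1 (S). An automorphism of Ω over the rational numbers maps the image of F to itself (F/ℚ is quadratic, so Galois) and induces the identity or the complex conjugation: choose a in 𝓞 F with cj a ≠ a (exists_delta in A8.lean or IQ.im); g (ak a) is a root of the polynomial (T - ak a)(T - ak (cj a)), which has integral coefficients (H55K.TQ.rf_tr in RF.lean, mul_cj), so g (ak a) = ak a or ak (cj a);
every b in F is x + y a with x, y rational (F has degree 2), so g (ak b) = ak b for all b, or g (ak b) = ak (cj b) for all b. -/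
theorem lin_or (g : Ω ≃+* Ω) : (∀ a : 𝓞 F, g (ak Ω a) = ak Ω a) ∨ (∀ a : 𝓞 F, g (ak Ω a) = ak Ω (cj a)) := by
  obtain ⟨δ, hδ, hcδ⟩ := exists_delta F
  have hak : ∀ a : 𝓞 F, ak Ω a = ((algebraMap F Ω).comp (algebraMap (𝓞 F) F)) a := fun _ => rfl
  obtain ⟨κ, hκ⟩ : ∃ κ : 𝓞 F →+* Ω, κ = (algebraMap F Ω).comp (algebraMap (𝓞 F) F) := ⟨_, rfl⟩
  simp only [hak, ← hκ]
  have hinj : Function.Injective κ := by
    rw [hκ]
    exact (algebraMap F Ω).injective.comp (FaithfulSMul.algebraMap_injective (𝓞 F) F)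
  obtain ⟨n, hn⟩ : ∃ n : ℕ, n = Nm δ := ⟨_, rfl⟩
  have hn0 : n ≠ 0 := by
    rw [hn]
    exact fun h => hδ (H55P.Nm_eq_zero.1 h)
  have hδ2 : δ ^ 2 = -(n : 𝓞 F) := by
    have h1 := mul_cj δ
    rw [hcδ, ← hn] at h1
    linear_combination -h1
  have hκn : (-(4 : Ω)) * (n : Ω) ≠ 0 := by
    have h1 : κ (-4 * (n : 𝓞 F)) ≠ κ 0 := by
      refine fun h => ?_
      have h2 := hinj h
      have h3 : (4 * (n : 𝓞 F)) = 0 := by linear_combination -h2
      have h4 : ((4 * n : ℕ) : 𝓞 F) = 0 := by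
        push_cast
        exact h3
      rw [Nat.cast_eq_zero] at h4
      omega
    rw [map_zero, map_mul, map_neg, map_natCast, map_ofNat] at h1
    exact h1
  have hgδ : g (κ δ) = κ δ ∨ g (κ δ) = κ (cj δ) := by
    have h1 : g (κ δ) ^ 2 = κ δ ^ 2 := by
      rw [← map_pow, ← map_pow, hδ2, map_neg, map_natCast, map_neg, map_natCast]
    rcases sq_eq_sq_iff_eq_or_eq_neg.1 h1 with h2 | h2
    · exact Or.inl h2
    · right
      rw [h2, hcδ, map_neg]
  have hrel : ∀ a : 𝓞 F, ∃ n₁ m : ℤ, -4 * (n : 𝓞 F) * a = -2 * n * n₁ + m * δ := by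
    intro a
    obtain ⟨n₁, h1⟩ := H55K.TQ.rf_tr a
    obtain ⟨m, h2⟩ := H55K.TQ.rf_tr ((a - cj a) * δ)
    refine ⟨n₁, m, ?_⟩
    rw [map_mul, map_sub, cj_cj, hcδ] at h2
    linear_combination (-2 * (n : 𝓞 F)) * h1 + δ * h2 - 2 * (a - cj a) * hδ2
  rcases hgδ with h1 | h1
  · left
    intro a
    obtain ⟨n₁, m, h2⟩ := hrel a
    have h3 := congrArg κ h2
    have h4 := congrArg g h3
    simp only [map_add, map_mul, map_neg, map_natCast, map_intCast, map_ofNat, h1] at h3 h4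
    exact mul_left_cancel₀ hκn (by rw [h4, h3])
  · right
    intro a
    obtain ⟨n₁, m, h2⟩ := hrel a
    have h3 := congrArg g (congrArg κ h2)
    have h4 := congrArg κ (congrArg cj h2)
    simp only [map_add, map_mul, map_neg, map_natCast, map_intCast, map_ofNat, h1] at h3 h4
    exact mul_left_cancel₀ hκn (by rw [h4, h3])

/-- Chunk D1 (S). g fixes the image of F (quotients of integers): g is an algebra automorphism s over F; acr_eq_ac, h.gal; rhoG_mk, qmap_mk. -/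
theorem phi_lin (h : CMA F A B Om j act) {g : Ω ≃+* Ω} {hA : g (algebraMap F Ω A) = algebraMap F Ω A}
    {hB : g (algebraMap F Ω B) = algebraMap F Ω B} (hst : ∀ a : 𝓞 F, ∀ P ∈ Kg, act a P ∈ Kg)
    (hK : ∀ P ∈ Kg, acr g hA hB P ∈ Kg) (hl : ∀ a : 𝓞 F, g (ak Ω a) = ak Ω a) (a : 𝓞 F) (c : Pt (WAB A B) Ω ⧸ Kg) :
    qmap Kg (acr g hA hB) hK (rhoG Kg act hst a c) = rhoG Kg act hst a (qmap Kg (acr g hA hB) hK c) := by
  obtain ⟨P, rfl⟩ := QuotientAddGroup.mk_surjective c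
  have hF : ∀ x : F, g (algebraMap F Ω x) = algebraMap F Ω x := by
    intro x
    obtain ⟨a, b, hb, rfl⟩ := IsFractionRing.div_surjective (A := 𝓞 F) x
    rw [map_div₀, map_div₀]
    have h1 := hl a
    have h2 := hl b
    unfold ak at h1 h2
    rw [h1, h2]
  obtain ⟨s', hs'⟩ : ∃ s' : Ω ≃ₐ[F] Ω, (s' : Ω ≃+* Ω) = g := ⟨AlgEquiv.ofRingEquiv (f := g) hF, RingEquiv.ext fun _ => rfl⟩
  subst hs'
  change ((acr (s' : Ω ≃+* Ω) hA hB (act a P) : Pt (WAB A B) Ω) : Pt (WAB A B) Ω ⧸ Kg) =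
    ((act a (acr (s' : Ω ≃+* Ω) hA hB P) : Pt (WAB A B) Ω) : Pt (WAB A B) Ω ⧸ Kg)
  rw [acr_eq_ac, acr_eq_ac, h.gal]

/-- Chunk D1 (S). H55K.cma_galr (CU.lean). -/
theorem phi_anti [IsAlgClosed Ω] [Algebra.IsAlgebraic F Ω] (h : CMA F A B Om j act) {g : Ω ≃+* Ω}
    {hA : g (algebraMap F Ω A) = algebraMap F Ω A}
    {hB : g (algebraMap F Ω B) = algebraMap F Ω B} (hst : ∀ a : 𝓞 F, ∀ P ∈ Kg, act a P ∈ Kg)
    (hK : ∀ P ∈ Kg, acr g hA hB P ∈ Kg) (hl : ∀ a : 𝓞 F, g (ak Ω a) = ak Ω (cj a)) (a : 𝓞 F) (c : Pt (WAB A B) Ω ⧸ Kg) :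
    qmap Kg (acr g hA hB) hK (rhoG Kg act hst a c) = rhoG Kg act hst (cj a) (qmap Kg (acr g hA hB) hK c) := by
  obtain ⟨P, rfl⟩ := QuotientAddGroup.mk_surjective c
  change ((acr g hA hB (act a P) : Pt (WAB A B) Ω) : Pt (WAB A B) Ω ⧸ Kg) =
    ((act (cj a) (acr g hA hB P) : Pt (WAB A B) Ω) : Pt (WAB A B) Ω ⧸ Kg)
  rw [H55K.cma_galr h g hA hB hl]

end H55G
end

-- from Lib.H55Z.Q1
section

/-! # H55Z, part Q: the layer inside the field of roots of unity -/

open NumberField IsDedekindDomain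

namespace H55Z

variable {p : ℕ} [hp : Fact p.Prime] {n : ℕ} {K N L : Type} [Field K] [NumberField K] [Field N] [NumberField N] [Algebra K N]
  [Field L] [NumberField L] [Algebra N L] [Algebra K L] [IsScalarTower K N L]

/-- The subfield Q of N lies in the field of roots of unity. -/
theorem q1_mem {Q : IntermediateField ℚ N} (f : Q →ₐ[ℚ] CyclotomicField (p ^ (n + 1)) ℚ) {ζ : L}
    (hζ : IsPrimitiveRoot ζ (p ^ (n + 1))) (x : Q) : algebraMap N L (x : N) ∈ Algebra.adjoin ℚ {ζ} := by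
  have := p3_ne (p := p) n
  have := p3_cyc (p := p) n
  have hab := p3_gal f
  let C := CyclotomicField (p ^ (n + 1)) ℚ
  have hζC : IsPrimitiveRoot (IsCyclotomicExtension.zeta (p ^ (n + 1)) ℚ C) (p ^ (n + 1)) :=
    IsCyclotomicExtension.zeta_spec _ _ _
  have hroot : Polynomial.aeval ζ (minpoly ℚ (IsCyclotomicExtension.zeta (p ^ (n + 1)) ℚ C)) = 0 := by
    rw [← Polynomial.cyclotomic_eq_minpoly_rat hζC (NeZero.pos _)]
    rw [Polynomial.aeval_def, ← Polynomial.eval_map, Polynomial.map_cyclotomic]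
    exact hζ.isRoot_cyclotomic (NeZero.pos _)
  let g : C →ₐ[ℚ] L := (hζC.powerBasis ℚ).lift ζ hroot
  have hg : g.range = Algebra.adjoin ℚ {ζ} := by
    have h1 : (⊤ : Subalgebra ℚ C) = Algebra.adjoin ℚ {IsCyclotomicExtension.zeta (p ^ (n + 1)) ℚ C} :=
      (IsCyclotomicExtension.adjoin_primitive_root_eq_top hζC).symm
    rw [← Algebra.map_top, h1, AlgHom.map_adjoin, Set.image_singleton]
    congr 2
    exact (hζC.powerBasis ℚ).lift_gen ζ hroot
  let i : Q →ₐ[ℚ] L := ((algebraMap N L).toRatAlgHom).comp Q.val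
  let E : IntermediateField ℚ L := i.fieldRange
  let e : Q ≃ₐ[ℚ] E := AlgEquiv.ofInjectiveField i
  have hN : Normal ℚ E := Normal.of_algEquiv (h := (IsGalois.to_normal : Normal ℚ Q)) e
  have h2 : ((g.comp f).comp (e.symm : E →ₐ[ℚ] Q)).fieldRange = E :=
    @AlgHom.fieldRange_of_normal ℚ L _ _ _ E hN ((g.comp f).comp (e.symm : E →ₐ[ℚ] Q))
  have h3 : algebraMap N L (x : N) ∈ E := ⟨x, rfl⟩
  rw [← h2] at h3
  obtain ⟨y, hy⟩ := h3
  rw [← hg]
  exact ⟨f (e.symm y), hy⟩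

/-- If L is generated by a primitive root of unity over the layer N then also over K. -/
theorem q1_top (h : Layer p n K N) {ζ : L} (hζ : IsPrimitiveRoot ζ (p ^ (n + 1)))
    (hL : Algebra.adjoin N {ζ} = ⊤) : Algebra.adjoin K {ζ} = ⊤ := by
  obtain ⟨Q, -, ⟨f⟩, htop⟩ := h
  have h1 : ∀ x : N, algebraMap N L x ∈ Algebra.adjoin K {ζ} := by
    intro x
    have h4 : x ∈ Algebra.adjoin K (Q : Set N) := htop ▸ Algebra.mem_top
    refine Algebra.adjoin_induction (p := fun x _ => algebraMap N L x ∈ Algebra.adjoin K {ζ}) ?_ ?_ ?_ ?_ h4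
    · intro y hy
      have h5 := q1_mem f hζ ⟨y, hy⟩
      have h6 : Algebra.adjoin ℚ {ζ} ≤ (Algebra.adjoin K {ζ}).restrictScalars ℚ := by
        rw [Algebra.adjoin_le_iff]
        rintro _ rfl
        exact Algebra.subset_adjoin rfl
      exact h6 h5
    · intro r
      show algebraMap N L (algebraMap K N r) ∈ _
      rw [← IsScalarTower.algebraMap_apply K N L]
      exact Subalgebra.algebraMap_mem _ _
    · intro a b _ _ ha hb
      rw [map_add]
      exact add_mem ha hb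
    · intro a b _ _ ha hb
      rw [map_mul]
      exact mul_mem ha hb
  rw [eq_top_iff]
  intro y _
  have h4 : y ∈ Algebra.adjoin N {ζ} := hL ▸ Algebra.mem_top
  refine Algebra.adjoin_induction (p := fun x _ => x ∈ Algebra.adjoin K {ζ}) ?_ ?_ ?_ ?_ h4
  · intro y hy
    exact Algebra.subset_adjoin hy
  · intro r
    exact h1 r
  · intro a b _ _ ha hb
    exact add_mem ha hb
  · intro a b _ _ ha hb
    exact mul_mem ha hb

theorem q1_cyc (h : Layer p n K N) [hc : IsCyclotomicExtension {p ^ (n + 1)} N L] :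
    IsCyclotomicExtension {p ^ (n + 1)} K L := by
  have := p3_ne (p := p) n
  have hζ := IsCyclotomicExtension.zeta_spec (p ^ (n + 1)) N L
  have h1 := IsCyclotomicExtension.adjoin_primitive_root_eq_top (A := N) (B := L) hζ
  have h2 := q1_top h hζ h1
  rw [IsCyclotomicExtension.iff_singleton]
  refine ⟨⟨_, hζ⟩, fun x => ?_⟩
  have h3 : x ∈ Algebra.adjoin K {IsCyclotomicExtension.zeta (p ^ (n + 1)) N L} := h2 ▸ Algebra.mem_top
  refine Algebra.adjoin_mono ?_ h3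
  rintro _ rfl
  exact hζ.pow_eq_one

end H55Z
end
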