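import Mathlib
import Pool.Agent.Lib.H1M.PP2.M051
import Pool.Agent.Lib.H1M.PP2.M074
import Pool.Agent.Lib.H1M.PP2.M094
import Pool.Agent.Lib.H1M.PP2.M098
import Pool.Agent.Lib.H1M.PP2.M108
import Pool.Agent.Lib.H1M.PP2.M110
import Pool.Agent.Lib.H1M.PP2.M113
import Pool.Agent.Lib.H1M.PP2.M118
import Pool.Agent.Lib.H1M.PP2.M124

/-! Merged copies (to shorten the build) of Lib.H55G.D4a, Lib.H55G.D4b, Lib.H55G.E1a, Lib.H55G.E1b, Lib.H55G.E2a, Lib.H55G.E2b. -/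

-- from Lib.H55G.D4a
section

/-! # H55G, part D: the points of the minimal model and the fixed points of the Frobenius endomorphism -/

open NumberField IsDedekindDomain WeierstrassCurve Polynomial

namespace H55G

open H55P (IQ embF eF LF Per IsHecke Pt ac Inert Dec Nm)
open H35P (WAB Ker GoodW IntW)
open H55K (CMA Tor TN ak xc yc cj cj_cj mul_cj Nm_cj Nm_mul Nm_nat acr xc_acr yc_acr acr_zero_iff acr_inj acr_eq_ac acr_trans GoodAt Abw)
open H55K.MG (VC Crd)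

variable {Ω : Type} [Field Ω] {V : ValuationSubring Ω} {k : Type} [Field k] [NumberField k] [Algebra k Ω]
  {w : HeightOneSpectrum (𝓞 k)}

theorem d4a_eqr {W₁ : WeierstrassCurve k} {C : VariableChange k}
    {e : IsLocalRing.ResidueField (w.adicCompletionIntegers k) →+* IsLocalRing.ResidueField V}
    (he : ∀ x : k, w.valuation k x ≤ 1 → e (rk w x) = rs V (algebraMap k Ω x)) (hC : GC W₁ w C)
    (x y : IsLocalRing.ResidueField (w.adicCompletionIntegers k)) :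
    (rkW w (C • W₁)).toAffine.Equation x y ↔ Eqr V ((C • W₁)⁄Ω) (e x) (e y) := by
  obtain ⟨h1, h2, h3, h4, h6, -⟩ := hC
  have e1 : rs V ((C • W₁)⁄Ω).a₁ = e (rk w (C • W₁).a₁) := (he _ h1).symm
  have e2 : rs V ((C • W₁)⁄Ω).a₂ = e (rk w (C • W₁).a₂) := (he _ h2).symm
  have e3 : rs V ((C • W₁)⁄Ω).a₃ = e (rk w (C • W₁).a₃) := (he _ h3).symm
  have e4 : rs V ((C • W₁)⁄Ω).a₄ = e (rk w (C • W₁).a₄) := (he _ h4).symm
  have e6 : rs V ((C • W₁)⁄Ω).a₆ = e (rk w (C • W₁).a₆) := (he _ h6).symm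
  rw [WeierstrassCurve.Affine.equation_iff, Eqr, e1, e2, e3, e4, e6]
  constructor
  · intro h
    have h7 := congrArg e h
    simp only [map_add, map_mul, map_pow] at h7
    exact h7
  · intro h
    apply e.injective
    simp only [map_add, map_mul, map_pow]
    exact h

/-- Chunk D4 (M). NW_eq, card_pairs for rkW w (C • W₁) (the residue field is finite: H55B.residue_card or Nat.card ≠ 0), e from exists_emb (hV). The map (x, y) ↦ (e x, e y) is a bijection from the pairs over 𝔽 satisfying the equation to the pairs (z₁, z₂) over the residue field of V with z₁^q = z₁, z₂^q = z₂ and Eqr: e is an injective ring homomorphism and maps the coefficients rk w a_i to rs V (algebraMap k Ω a_i) (hC: the coefficients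
are w-integral), which are the coefficients in Eqr for (C • W₁)⁄Ω ((C • W₁)⁄Ω).a₁ = algebraMap k Ω (C • W₁).a₁: rfl). Affine.equation_iff. -/
theorem NW_pairs (hV : Abw V w) {W₁ : WeierstrassCurve k} {C : VariableChange k} (hC : GC W₁ w C) :
    NW W₁ w = Nat.card {z : IsLocalRing.ResidueField V × IsLocalRing.ResidueField V //
      z.1 ^ Ideal.absNorm w.asIdeal = z.1 ∧ z.2 ^ Ideal.absNorm w.asIdeal = z.2 ∧ Eqr V ((C • W₁)⁄Ω) z.1 z.2} + 1 := by
  have hfin := (H55B.residue_card k w).1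
  obtain ⟨e, he, hroot⟩ := exists_emb hV
  rw [(NW_eq hC).2.1, card_pairs _ (NW_eq hC).2.2]
  congr 1
  refine Nat.card_congr (Equiv.ofBijective
    (fun z => ⟨(e z.1.1, e z.1.2), (hroot _).2 ⟨_, rfl⟩, (hroot _).2 ⟨_, rfl⟩, (d4a_eqr he hC _ _).1 z.2⟩) ⟨?_, ?_⟩)
  · rintro ⟨⟨x, y⟩, h⟩ ⟨⟨x', y'⟩, h'⟩ h1
    have h2 := congrArg Subtype.val h1
    have h3 := congrArg Prod.fst h2
    have h4 := congrArg Prod.snd h2
    have h5 : x = x' := e.injective h3
    have h6 : y = y' := e.injective h4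
    subst h5 h6
    rfl
  · rintro ⟨⟨x, y⟩, h1, h2, h3⟩
    obtain ⟨x', rfl⟩ := (hroot _).1 h1
    obtain ⟨y', rfl⟩ := (hroot _).1 h2
    exact ⟨⟨(x', y'), (d4a_eqr he hC _ _).2 h3⟩, rfl⟩

end H55G
end

-- from Lib.H55G.D4b
section

/-! # H55G, part D: the points of the minimal model and the fixed points of the Frobenius endomorphism -/

open NumberField IsDedekindDomain WeierstrassCurve Polynomial

namespace H55G

open H55P (IQ embF eF LF Per IsHecke Pt ac Inert Dec Nm)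
open H35P (WAB Ker GoodW IntW)
open H55K (CMA Tor TN ak xc yc cj cj_cj mul_cj Nm_cj Nm_mul Nm_nat acr xc_acr yc_acr acr_zero_iff acr_inj acr_eq_ac acr_trans GoodAt Abw)
open H55K.MG (VC Crd)

variable {F : Type} [Field F] {A B : F} {Ω : Type} [Field Ω] [DecidableEq Ω] [Algebra F Ω]
  {V : ValuationSubring Ω} {k : Type} [Field k] [NumberField k] [Algebra k Ω] {w : HeightOneSpectrum (𝓞 k)}
  {W₁ : WeierstrassCurve k} {C : VariableChange k} {W' : WeierstrassCurve Ω} {u r s t : Ω}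
  {Θ : Pt (WAB A B) Ω ≃+ W'.toAffine.Point} {Kg : AddSubgroup (Pt (WAB A B) Ω)}

/-- Chunk D4 (S/M). q = absNorm w > 0. For c ≠ 0: φ c ≠ 0 (φ c = 0 means acr P in Kg, P in Kg: acr_kg with hfr.frob), and φ c = c iff XG (φ c) = XG c and YG (φ c) = YG c (XG_ext) iff XG c^q = XG c and YG c^q = YG c (phi_xy). So c ↦ (XG c, YG c) is a bijection from the nonzero fixed points to the pairs of NW_pairs (subst hW'; XG_eqr; injective: XG_ext;
surjective: XG_lift). With c = 0: + 1 (the set of the pairs is finite: there are finitely many z with z^q = z; Nat.card of a type with an extra point: Finite.card_option). -/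
theorem NW_fr [IsAlgClosed Ω] {g : Ω ≃+* Ω} (hfr : FrD k V w g) {hA : g (algebraMap F Ω A) = algebraMap F Ω A}
    {hB : g (algebraMap F Ω B) = algebraMap F Ω B} (hC : GC W₁ w C) (hW' : W' = (C • W₁)⁄Ω)
    (hG : GD V W' u r s t Θ Kg) (hg : Fx g u r s t) (hK : ∀ P ∈ Kg, acr g hA hB P ∈ Kg) :
    NW W₁ w = Nat.card {c : Pt (WAB A B) Ω ⧸ Kg // qmap Kg (acr g hA hB) hK c = c} := by
  subst hW'
  have hq : 0 < Ideal.absNorm w.asIdeal :=
    Nat.pos_of_ne_zero (mt Ideal.absNorm_eq_zero_iff.1 w.ne_bot)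
  rw [NW_pairs hfr.abw hC]
  have hfin0 : Finite {z : IsLocalRing.ResidueField V // z ^ Ideal.absNorm w.asIdeal = z} := by
    have hfin := (H55B.residue_card k w).1
    obtain ⟨e, -, hroot⟩ := exists_emb hfr.abw
    refine Finite.of_surjective (α := IsLocalRing.ResidueField (w.adicCompletionIntegers k))
      (fun y => ⟨e y, (hroot _).2 ⟨y, rfl⟩⟩) ?_
    rintro ⟨z, hz⟩
    obtain ⟨y, rfl⟩ := (hroot _).1 hz
    exact ⟨y, rfl⟩
  have hfin : Finite {z : IsLocalRing.ResidueField V × IsLocalRing.ResidueField V //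
      z.1 ^ Ideal.absNorm w.asIdeal = z.1 ∧ z.2 ^ Ideal.absNorm w.asIdeal = z.2 ∧ Eqr V ((C • W₁)⁄Ω) z.1 z.2} := by
    refine Finite.of_injective (β := {z : IsLocalRing.ResidueField V // z ^ Ideal.absNorm w.asIdeal = z} ×
      {z : IsLocalRing.ResidueField V // z ^ Ideal.absNorm w.asIdeal = z})
      (fun z => (⟨z.1.1, z.2.1⟩, ⟨z.1.2, z.2.2.1⟩)) ?_
    rintro ⟨⟨x, y⟩, h⟩ ⟨⟨x', y'⟩, h'⟩ h1
    have h2 := congrArg (fun t => (t.1 : IsLocalRing.ResidueField V)) h1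
    have h3 := congrArg (fun t => (t.2 : IsLocalRing.ResidueField V)) h1
    have h4 : x = x' := h2
    have h5 : y = y' := h3
    subst h4 h5
    rfl
  rw [← Finite.card_option]
  have hne : ∀ c : Pt (WAB A B) Ω ⧸ Kg, c ≠ 0 → qmap Kg (acr g hA hB) hK c ≠ 0 := by
    intro c hc h0
    induction c using QuotientAddGroup.induction_on with
    | H P =>
      rw [qmap_mk] at h0
      have h1 : acr g hA hB P ∈ Kg := (QuotientAddGroup.eq_zero_iff _).1 h0
      exact hc ((QuotientAddGroup.eq_zero_iff _).2 ((acr_kg hG hg hq hfr.frob P).1 h1))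
  have hlift : ∀ z : {z : IsLocalRing.ResidueField V × IsLocalRing.ResidueField V //
      z.1 ^ Ideal.absNorm w.asIdeal = z.1 ∧ z.2 ^ Ideal.absNorm w.asIdeal = z.2 ∧ Eqr V ((C • W₁)⁄Ω) z.1 z.2},
      ∃ c : Pt (WAB A B) Ω ⧸ Kg, c ≠ 0 ∧ XG V Θ Kg c = z.1.1 ∧ YG V Θ Kg c = z.1.2 ∧ qmap Kg (acr g hA hB) hK c = c := by
    rintro ⟨⟨x, y⟩, h1, h2, h3⟩
    obtain ⟨c, hc, hx, hy⟩ := XG_lift hG h3
    refine ⟨c, hc, hx, hy, XG_ext hG (hne c hc) hc ?_ ?_⟩
    · rw [(phi_xy hG hg hq hfr.frob hK hc).1, hx]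
      exact h1
    · rw [(phi_xy hG hg hq hfr.frob hK hc).2, hy]
      exact h2
  choose lift l1 l2 l3 l4 using hlift
  refine Nat.card_congr (Equiv.ofBijective (fun o => match o with
    | none => ⟨0, map_zero _⟩
    | some z => ⟨lift z, l4 z⟩) ⟨?_, ?_⟩)
  · intro o o' h
    cases o with
    | none =>
      cases o' with
      | none => rfl
      | some z' => exact absurd (congrArg Subtype.val h).symm (l1 z')
    | some z =>
      cases o' with
      | none => exact absurd (congrArg Subtype.val h) (l1 z)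
      | some z' =>
        have h1 : lift z = lift z' := congrArg Subtype.val h
        have h2 : z.1.1 = z'.1.1 := by rw [← l2 z, ← l2 z', h1]
        have h3 : z.1.2 = z'.1.2 := by rw [← l3 z, ← l3 z', h1]
        exact congrArg some (Subtype.ext (Prod.ext h2 h3))
  · rintro ⟨c, hc⟩
    by_cases h0 : c = 0
    · subst h0
      exact ⟨none, rfl⟩
    · have hp := phi_xy hG hg hq hfr.frob hK h0
      rw [hc] at hp
      let z : {z : IsLocalRing.ResidueField V × IsLocalRing.ResidueField V //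
          z.1 ^ Ideal.absNorm w.asIdeal = z.1 ∧ z.2 ^ Ideal.absNorm w.asIdeal = z.2 ∧ Eqr V ((C • W₁)⁄Ω) z.1 z.2} :=
        ⟨(XG V Θ Kg c, YG V Θ Kg c), hp.1.symm, hp.2.symm, XG_eqr hG h0⟩
      refine ⟨some z, Subtype.ext ?_⟩
      exact XG_ext hG (l1 z) h0 (l2 z) (l3 z)

end H55G
end

-- from Lib.H55G.E1a
section

/-! # H55G, part E: the number of points at a prime of good reduction -/

open NumberField IsDedekindDomain WeierstrassCurve Polynomial

namespace H55G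

open H55P (IQ embF eF LF Per IsHecke Pt ac Inert Dec Nm)
open H35P (WAB Ker GoodW IntW)
open H55K (CMA Tor TN ak xc yc cj cj_cj mul_cj Nm_cj Nm_mul Nm_nat acr xc_acr yc_acr acr_zero_iff acr_inj acr_eq_ac acr_trans GoodAt Abw)
open H55K.MG (VC Crd)

variable {F : Type} [Field F] [NumberField F] [IQ F] {A B : F} {Om : ℂ} {Ω : Type} [Field Ω] [DecidableEq Ω]
  [Algebra F Ω] {j : Ω →+* ℂ} {act : 𝓞 F →+* AddMonoid.End (Pt (WAB A B) Ω)} {V : ValuationSubring Ω}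
  {k : Type} [Field k] [NumberField k] [Algebra k Ω] {w : HeightOneSpectrum (𝓞 k)}
  {W₁ : WeierstrassCurve k} {C : VariableChange k} {W' : WeierstrassCurve Ω} {u r s t : Ω}
  {Θ : Pt (WAB A B) Ω ≃+ W'.toAffine.Point} {Kg : AddSubgroup (Pt (WAB A B) Ω)}

omit [NumberField F] [IQ F] [DecidableEq Ω] in
/-- Integers of F have valuation at most one. -/
theorem e1a_ak_le (V : ValuationSubring Ω) (a : 𝓞 F) : V.valuation (ak Ω a) ≤ 1 := by
  rw [V.valuation_le_one_iff]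
  have h1 : IsIntegral ℤ (ak Ω a) := by
    have h2 : IsIntegral ℤ (a : F) := RingOfIntegers.isIntegral_coe a
    exact h2.map ((algebraMap F Ω).toIntAlgHom)
  have h3 : IsIntegral V (ak Ω a) := h1.tower_top
  obtain ⟨y, hy⟩ := IsIntegrallyClosed.isIntegral_iff.1 h3
  rw [← hy]
  exact y.2

omit [NumberField F] [IQ F] [DecidableEq Ω] [Field F] [Algebra F Ω] in
/-- Chunk E1 (S). absNorm w = l^f with l a prime number, f ≠ 0, l in w (the residue field is a finite field: see fb/re_inertia or Ideal.absNorm_mem, exists_frob in H13S/FR.lean); V(l) < 1: hV.lt (K0A.lean). -/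
theorem exists_l (hV : Abw V w) : ∃ l f : ℕ, l.Prime ∧ f ≠ 0 ∧ Ideal.absNorm w.asIdeal = l ^ f ∧ V.valuation (l : Ω) < 1 := by
  have hvm := w.isMaximal
  let _ : Field (𝓞 k ⧸ w.asIdeal) := Ideal.Quotient.field w.asIdeal
  have hfin : Finite (𝓞 k ⧸ w.asIdeal) := Ideal.finiteQuotientOfFreeOfNeBot _ w.ne_bot
  let _ : Fintype (𝓞 k ⧸ w.asIdeal) := Fintype.ofFinite _
  obtain ⟨l, hlc⟩ := CharP.exists (𝓞 k ⧸ w.asIdeal)
  obtain ⟨n, hl, hn⟩ := FiniteField.card (𝓞 k ⧸ w.asIdeal) l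
  refine ⟨l, n, hl, n.ne_zero, ?_, ?_⟩
  · have h3 : Ideal.absNorm w.asIdeal = Nat.card (𝓞 k ⧸ w.asIdeal) := rfl
    rw [h3, Nat.card_eq_fintype_card, hn]
  · have hqv : (l : 𝓞 k) ∈ w.asIdeal := by
      rw [← Ideal.Quotient.eq_zero_iff_mem, map_natCast]
      exact CharP.cast_eq_zero _ l
    have h1 := (hV.lt (l : k)).2 (by
      have h2 := (w.valuation_lt_one_iff_mem (K := k) (l : 𝓞 k)).2 hqv
      have h3 : (((l : 𝓞 k)) : k) = (l : k) := map_natCast (algebraMap (𝓞 k) k) l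
      rw [← h3]
      exact h2)
    rwa [map_natCast] at h1

omit [DecidableEq Ω] in
/-- Chunk E1 (S). The ideal of the a in 𝓞 F with V(ak a) < 1 is prime, and it contains the prime number l of exists_l, l ≠ 0; it is principal (IQ F: class number one), generated by a prime element b. -/
theorem exists_b (hV : Abw V w) : ∃ b : 𝓞 F, Prime b ∧ V.valuation (ak Ω b) < 1 := by
  obtain ⟨l, f, hl, hf, hq, hlV⟩ := exists_l hV
  let I : Ideal (𝓞 F) :=
    { carrier := {a | V.valuation (ak Ω a) < 1}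
      add_mem' := by
        intro a b ha hb
        have h1 : ak Ω (a + b) = ak Ω a + ak Ω b := by simp only [ak, map_add]
        show V.valuation (ak Ω (a + b)) < 1
        rw [h1]
        exact lt_of_le_of_lt (V.valuation.map_add _ _) (max_lt ha hb)
      zero_mem' := by
        have h1 : ak Ω (0 : 𝓞 F) = 0 := by simp only [ak, map_zero]
        show V.valuation (ak Ω (0 : 𝓞 F)) < 1
        rw [h1, map_zero]
        exact zero_lt_one
      smul_mem' := by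
        intro c a ha
        have h1 : ak Ω (c * a) = ak Ω c * ak Ω a := by simp only [ak, map_mul]
        show V.valuation (ak Ω (c * a)) < 1
        rw [h1, map_mul]
        exact lt_of_le_of_lt (mul_le_of_le_one_left' (e1a_ak_le V c)) ha }
  have hmem : ∀ a : 𝓞 F, a ∈ I ↔ V.valuation (ak Ω a) < 1 := fun _ => Iff.rfl
  have hI : I.IsPrime := by
    refine Ideal.isPrime_iff.2 ⟨?_, ?_⟩
    · rw [Ideal.ne_top_iff_one, hmem]
      have h1 : ak Ω (1 : 𝓞 F) = 1 := by simp only [ak, map_one]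
      rw [h1, map_one]
      exact lt_irrefl _
    · intro a b hab
      rw [hmem] at hab ⊢
      rw [hmem]
      by_contra hc
      push Not at hc
      have h1 : ak Ω (a * b) = ak Ω a * ak Ω b := by simp only [ak, map_mul]
      rw [h1, map_mul] at hab
      have h2 : V.valuation (ak Ω a) = 1 := le_antisymm (e1a_ak_le V a) hc.1
      have h3 : V.valuation (ak Ω b) = 1 := le_antisymm (e1a_ak_le V b) hc.2
      rw [h2, h3, one_mul] at hab
      exact lt_irrefl _ hab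
  have hI0 : I ≠ ⊥ := by
    intro h0
    have h1 : ((l : ℕ) : 𝓞 F) ∈ I := by
      rw [hmem]
      have h2 : ak Ω ((l : ℕ) : 𝓞 F) = (l : Ω) := by simp only [ak, map_natCast]
      rw [h2]
      exact hlV
    rw [h0, Ideal.mem_bot] at h1
    exact hl.ne_zero (by exact_mod_cast h1)
  have hpid : IsPrincipalIdealRing (𝓞 F) := IQ.pid
  obtain ⟨b, hb⟩ := (IsPrincipalIdealRing.principal I).principal
  have hb' : I = Ideal.span {b} := hb
  have hb0 : b ≠ 0 := by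
    intro h0
    rw [h0, Ideal.span_singleton_eq_bot.2 rfl] at hb'
    exact hI0 hb'
  refine ⟨b, ?_, ?_⟩
  · rw [← Ideal.span_singleton_prime hb0, ← hb']
    exact hI
  · rw [← hmem, hb']
    exact Ideal.mem_span_singleton_self b

omit [NumberField F] [IQ F] in
/-- Chunk E1 (S). From fr_of (D1.lean) for g: two, bij, x for φ * φ follow (q^2 ≥ 2, composition, X(φφP) = X(φP)^q = X(P)^(q^2)); card: card_fix for q^2 = l^(2f) as in fr_of. -/
theorem fr_sq [IsAlgClosed Ω] {g : Ω ≃+* Ω} {hA : g (algebraMap F Ω A) = algebraMap F Ω A}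
    {hB : g (algebraMap F Ω B) = algebraMap F Ω B} (hG : GD V W' u r s t Θ Kg) (hg : Fx g u r s t) {q l f : ℕ}
    (hl : l.Prime) (hlV : V.valuation (l : Ω) < 1) (hf0 : f ≠ 0) (hq : q = l ^ f)
    (hf : ∀ x ∈ V, V.valuation (g x - x ^ q) < 1) (hK : ∀ P ∈ Kg, acr g hA hB P ∈ Kg) :
    Fr (XG V Θ Kg) (q ^ 2) ((qmap Kg (acr g hA hB) hK) * (qmap Kg (acr g hA hB) hK)) := by
  have h1 := fr_of hG hg hl hlV hf0 hq hf hK
  refine ⟨?_, ?_, ?_, ?_⟩
  · have h2 := h1.two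
    nlinarith
  · exact h1.bij.comp h1.bij
  · intro P hP
    have hP' : qmap Kg (acr g hA hB) hK P ≠ 0 := by
      intro h0
      exact hP (h1.bij.1 (by rw [h0, map_zero]))
    show XG V Θ Kg (qmap Kg (acr g hA hB) hK (qmap Kg (acr g hA hB) hK P)) = _
    rw [h1.x _ hP', h1.x _ hP, ← pow_mul, sq]
  · have hac := rs_algClosed V
    have hc : ((l : ℕ) : IsLocalRing.ResidueField V) = 0 := by
      rw [← map_natCast (IsLocalRing.residue V) l, IsLocalRing.residue_eq_zero_iff,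
        ValuationSubring.valuation_lt_one_iff]
      have h3 : (((l : ℕ) : V) : Ω) = (l : Ω) := by norm_cast
      rw [h3]
      exact hlV
    exact card_fix hl hc (f := 2 * f) (by omega) (by rw [hq, ← pow_mul, mul_comm])

end H55G
end

-- from Lib.H55G.E1b
section

/-! # H55G, part E: the number of points at a prime of good reduction -/

open NumberField IsDedekindDomain WeierstrassCurve Polynomial

namespace H55G

open H55P (IQ embF eF LF Per IsHecke Pt ac Inert Dec Nm)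
open H35P (WAB Ker GoodW IntW)
open H55K (CMA Tor TN ak xc yc cj cj_cj mul_cj Nm_cj Nm_mul Nm_nat acr xc_acr yc_acr acr_zero_iff acr_inj acr_eq_ac acr_trans GoodAt Abw)
open H55K.MG (VC Crd)

variable {F : Type} [Field F] [NumberField F] [IQ F] {A B : F} {Om : ℂ} {Ω : Type} [Field Ω] [DecidableEq Ω]
  [Algebra F Ω] {j : Ω →+* ℂ} {act : 𝓞 F →+* AddMonoid.End (Pt (WAB A B) Ω)} {V : ValuationSubring Ω}
  {k : Type} [Field k] [NumberField k] [Algebra k Ω] {w : HeightOneSpectrum (𝓞 k)}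
  {W₁ : WeierstrassCurve k} {C : VariableChange k} {W' : WeierstrassCurve Ω} {u r s t : Ω}
  {Θ : Pt (WAB A B) Ω ≃+ W'.toAffine.Point} {Kg : AddSubgroup (Pt (WAB A B) Ω)}

/-- Chunk E1 (M). b from exists_b, l, f from exists_l. RG from rg_of (C3C.lean) with hst from kg_stable (B3.lean), Fr from fr_of, fr_sq with hfr.frob. lin_or (D1.lean): linear case: phi_lin, hasse and fr_surj (A7.lean); antilinear case: phi_anti, anti (A8.lean): then q + 1 - NW = 0. NW_fr. In the second claim: anti. -/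
theorem e_all [IsAlgClosed Ω] [Algebra.IsAlgebraic F Ω] (h : CMA F A B Om j act) {g : Ω ≃+* Ω} (hfr : FrD k V w g)
    {hA : g (algebraMap F Ω A) = algebraMap F Ω A}
    {hB : g (algebraMap F Ω B) = algebraMap F Ω B} (hC : GC W₁ w C) (hW' : W' = (C • W₁)⁄Ω)
    (hG : GD V W' u r s t Θ Kg) (hg : Fx g u r s t) (hK : ∀ P ∈ Kg, acr g hA hB P ∈ Kg) :
    ((Ideal.absNorm w.asIdeal : ℤ) + 1 - (NW W₁ w : ℤ)) ^ 2 ≤ 4 * Ideal.absNorm w.asIdeal ∧
    ((∀ a : 𝓞 F, g (ak Ω a) = ak Ω (cj a)) → NW W₁ w = Ideal.absNorm w.asIdeal + 1 ∧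
      Nat.card {c : Pt (WAB A B) Ω ⧸ Kg // qmap Kg (acr g hA hB) hK (qmap Kg (acr g hA hB) hK c) = c} =
        (Ideal.absNorm w.asIdeal + 1) ^ 2) ∧
    ∀ P : Pt (WAB A B) Ω ⧸ Kg, ∃ Q, qmap Kg (acr g hA hB) hK Q - Q = P := by
  obtain ⟨b, hb, hbV⟩ := exists_b (F := F) hfr.abw
  obtain ⟨l, f, hl, hf0, hq, hlV⟩ := exists_l hfr.abw
  have hst : ∀ a : 𝓞 F, ∀ P ∈ Kg, act a P ∈ Kg := fun a P hP => kg_stable h hG a hP
  have hRG := rg_of h hG hst hb hbV
  have hFr := fr_of hG hg hl hlV hf0 hq hfr.frob hK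
  have hFr2 := fr_sq hG hg hl hlV hf0 hq hfr.frob hK
  have hNW := NW_fr hfr hC hW' hG hg hK
  have hanti : (∀ a : 𝓞 F, g (ak Ω a) = ak Ω (cj a)) →
      NW W₁ w = Ideal.absNorm w.asIdeal + 1 ∧
      Nat.card {c : Pt (WAB A B) Ω ⧸ Kg // qmap Kg (acr g hA hB) hK (qmap Kg (acr g hA hB) hK c) = c} =
        (Ideal.absNorm w.asIdeal + 1) ^ 2 ∧
      ∀ P : Pt (WAB A B) Ω ⧸ Kg, ∃ Q, qmap Kg (acr g hA hB) hK Q - Q = P := by
    intro h1
    have h2 := anti hRG hFr hFr2 (fun a P => phi_anti h hst hK h1 a P)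
    exact ⟨hNW.trans h2.1, h2.2.1, h2.2.2⟩
  rcases lin_or (F := F) g with h1 | h1
  · have hlin : ∀ (a : 𝓞 F) (P : Pt (WAB A B) Ω ⧸ Kg), qmap Kg (acr g hA hB) hK (rhoG Kg act hst a P) =
        rhoG Kg act hst a (qmap Kg (acr g hA hB) hK P) := fun a P => phi_lin h hst hK h1 a P
    refine ⟨?_, fun h2 => ⟨(hanti h2).1, (hanti h2).2.1⟩, (fr_surj hRG hFr hlin).1⟩
    rw [hNW]
    exact hasse hRG hFr hlin
  · have h2 := hanti h1
    refine ⟨?_, fun _ => ⟨h2.1, h2.2.1⟩, h2.2.2⟩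
    rw [h2.1]
    push_cast
    rw [sub_self]
    positivity

end H55G
end

-- from Lib.H55G.E2a
section

/-! # H55G, part E: the setting -/

open NumberField IsDedekindDomain WeierstrassCurve Polynomial

namespace H55G

open H55P (IQ embF eF LF Per IsHecke Pt ac Inert Dec Nm)
open H35P (WAB Ker GoodW IntW)
open H55K (CMA Tor TN ak xc yc cj cj_cj mul_cj Nm_cj Nm_mul Nm_nat acr xc_acr yc_acr acr_zero_iff acr_inj acr_eq_ac acr_trans GoodAt Abw)
open H55K.MG (VC Crd)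
open H55K.TQ

/-- The short equation of W₀ over F. -/
structure Sh {F : Type} [Field F] [NumberField F] (W₀ : WeierstrassCurve (𝓞 F)) (A B : F) : Prop where
  hA : A = -(algebraMap (𝓞 F) F W₀.c₄) / 48
  hB : B = -(algebraMap (𝓞 F) F W₀.c₆) / 864

variable {F : Type} [Field F] [NumberField F] [IQ F] {W₀ : WeierstrassCurve (𝓞 F)} {Om : ℂ}
    {m : Ideal (𝓞 F)} {ψ : Ideal (𝓞 F) →*₀ 𝓞 F} {A B : F}

omit [IQ F] in
/-- A and B are images of rational numbers. -/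
theorem e2a_rat {W : WeierstrassCurve ℤ} (hS : Sh (W⁄(𝓞 F)) A B) :
    A = algebraMap ℚ F (-(W⁄ℚ).c₄ / 48) ∧ B = algebraMap ℚ F (-(W⁄ℚ).c₆ / 864) := by
  have hc4 : algebraMap (𝓞 F) F (W⁄(𝓞 F)).c₄ = algebraMap ℚ F (W⁄ℚ).c₄ := by
    have e1 : (W⁄(𝓞 F)).c₄ = algebraMap ℤ (𝓞 F) W.c₄ := W.map_c₄ _
    have e2 : (W⁄ℚ).c₄ = algebraMap ℤ ℚ W.c₄ := W.map_c₄ _
    rw [e1, e2]
    simp
  have hc6 : algebraMap (𝓞 F) F (W⁄(𝓞 F)).c₆ = algebraMap ℚ F (W⁄ℚ).c₆ := by
    have e1 : (W⁄(𝓞 F)).c₆ = algebraMap ℤ (𝓞 F) W.c₆ := W.map_c₆ _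
    have e2 : (W⁄ℚ).c₆ = algebraMap ℤ ℚ W.c₆ := W.map_c₆ _
    rw [e1, e2]
    simp
  constructor
  · rw [hS.hA, hc4, map_div₀, map_neg, map_ofNat]
  · rw [hS.hB, hc6, map_div₀, map_neg, map_ofNat]

/-- The change of variables over the rational numbers. -/
theorem e2a_vc (W : WeierstrassCurve ℚ) {A₀ B₀ : ℚ} (hA : A₀ = -W.c₄ / 48) (hB : B₀ = -W.c₆ / 864) :
    VC (WAB A₀ B₀) W 1 (W.b₂ / 12) (W.a₁ / 2) (W.a₃ / 2) := by
  have k1 : (1 : ℚ) * W.a₁ = (WAB A₀ B₀).a₁ + 2 * (W.a₁ / 2) := by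
    simp only [WAB]
    ring
  have k2 : (1 : ℚ) ^ 2 * W.a₂ = (WAB A₀ B₀).a₂ - (W.a₁ / 2) * (WAB A₀ B₀).a₁ + 3 * (W.b₂ / 12) - (W.a₁ / 2) ^ 2 := by
    simp only [WAB, WeierstrassCurve.b₂]
    ring
  have k3 : (1 : ℚ) ^ 3 * W.a₃ = (WAB A₀ B₀).a₃ + (W.b₂ / 12) * (WAB A₀ B₀).a₁ + 2 * (W.a₃ / 2) := by
    simp only [WAB]
    ring
  have k4 : (1 : ℚ) ^ 4 * W.a₄ = (WAB A₀ B₀).a₄ - (W.a₁ / 2) * (WAB A₀ B₀).a₃ + 2 * (W.b₂ / 12) * (WAB A₀ B₀).a₂ -
      (W.a₃ / 2 + (W.b₂ / 12) * (W.a₁ / 2)) * (WAB A₀ B₀).a₁ + 3 * (W.b₂ / 12) ^ 2 - 2 * (W.a₁ / 2) * (W.a₃ / 2) := by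
    simp only [WAB, WeierstrassCurve.b₂, hA, WeierstrassCurve.c₄, WeierstrassCurve.b₄]
    ring
  have k6 : (1 : ℚ) ^ 6 * W.a₆ = (WAB A₀ B₀).a₆ + (W.b₂ / 12) * (WAB A₀ B₀).a₄ + (W.b₂ / 12) ^ 2 * (WAB A₀ B₀).a₂ + (W.b₂ / 12) ^ 3 -
      (W.a₃ / 2) * (WAB A₀ B₀).a₃ - (W.a₃ / 2) ^ 2 - (W.b₂ / 12) * (W.a₃ / 2) * (WAB A₀ B₀).a₁ := by
    simp only [WAB, WeierstrassCurve.b₂, hA, hB, WeierstrassCurve.c₄, WeierstrassCurve.b₄, WeierstrassCurve.c₆, WeierstrassCurve.b₆]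
    ring
  exact ⟨one_ne_zero, k1, k2, k3, k4, k6⟩

/-- Chunk E2A (S). y3_ne, exists_j, hper and exists_CMA exactly as at the beginning of the proof of H13R.bad_KR (Lib/H13R/C3.lean). -/
theorem setup (hH : BaseH F W₀ Om m ψ) (Ω : Type) [Field Ω] [DecidableEq Ω] [Algebra F Ω] [IsAlgClosed Ω]
    [Algebra.IsAlgebraic F Ω] : ∃ (A B : F) (j : Ω →+* ℂ) (act : 𝓞 F →+* AddMonoid.End (Pt (WAB A B) Ω)),
      Sh W₀ A B ∧ 4 * A ^ 3 + 27 * B ^ 2 ≠ 0 ∧ CMA F A B Om j act := by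
  obtain ⟨j, hj⟩ := H55K.exists_j F Ω
  obtain ⟨A, hA⟩ : ∃ A : F, A = -(algebraMap (𝓞 F) F W₀.c₄) / 48 := ⟨_, rfl⟩
  obtain ⟨B, hB'⟩ : ∃ B : F, B = -(algebraMap (𝓞 F) F W₀.c₆) / 864 := ⟨_, rfl⟩
  have hd := H55K.y3_ne W₀ hA hB' hH.data.ell
  have hper : Per F (embF F A) (embF F B) Om := by
    have e1 : embF F A = -(eF F W₀.c₄) / 48 := by
      rw [hA, map_div₀, map_neg, map_ofNat]
      rfl
    have e2 : embF F B = -(eF F W₀.c₆) / 864 := by
      rw [hB', map_div₀, map_neg, map_ofNat]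
      rfl
    rw [e1, e2]
    exact hH.data.per
  obtain ⟨act, hact⟩ := H55K.exists_CMA F A B Om j hd hper hj
  exact ⟨A, B, j, act, ⟨hA, hB'⟩, hd, hact⟩

omit [IQ F] in
/-- Chunk E2A (S). H55K.TQ.vc_short (T9A.lean): VC (WAB A B) (W₀⁄F) 1 r s t over F; vc_map for F → Ω; ((W₀⁄F)⁄K)⁄Ω = (W₀⁄F)⁄Ω (map_map, IsScalarTower.algebraMap_eq); the numbers are images of algebraMap F K r .. . -/
theorem vck_F (hS : Sh W₀ A B) {Ω : Type} [Field Ω] [Algebra F Ω] {K : Type} [Field K] [Algebra F K]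
    [Algebra K Ω] [IsScalarTower F K Ω] : VCk (k := K) ((WAB A B)⁄Ω) ((W₀⁄F)⁄K) := by
  obtain ⟨r, s, t, h⟩ := vc_short W₀ hS.hA hS.hB
  have h1 := vc_map (algebraMap F Ω) h
  refine ⟨algebraMap F K 1, algebraMap F K r, algebraMap F K s, algebraMap F K t, ?_⟩
  have e : ∀ x : F, algebraMap K Ω (algebraMap F K x) = algebraMap F Ω x :=
    fun x => (IsScalarTower.algebraMap_apply F K Ω x).symm
  have e2 : ((W₀⁄F)⁄K)⁄Ω = (W₀⁄F)⁄Ω := by
    show ((W₀⁄F).map (algebraMap F K)).map (algebraMap K Ω) = (W₀⁄F).map (algebraMap F Ω)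
    rw [WeierstrassCurve.map_map, ← IsScalarTower.algebraMap_eq]
  rw [e2, e, e, e, e]
  exact h1

omit [IQ F] in
/-- Chunk E2A (S/M). A = -c₄/48, B = -c₆/864 with the integers c₄, c₆ of W (map_c₄, map_c₆). VC ((WAB A B)⁄Ω) (W⁄k ⁄Ω) 1 (b₂/12) (a₁/2) (a₃/2) over Ω (see rf_fix in H55K/RF.lean, k1 .. k6; all coefficients are images of integers or rational numbers, so both sides are images of an identity over ℚ), and 1, b₂/12, a₁/2, a₃/2 are in k. -/
theorem vck_Z {W : WeierstrassCurve ℤ} (hS : Sh (W⁄(𝓞 F)) A B) {Ω : Type} [Field Ω] [Algebra F Ω] {k : Type} [Field k]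
    [NumberField k] [Algebra k Ω] : VCk (k := k) ((WAB A B)⁄Ω) (W⁄k) := by
  obtain ⟨eA, eB⟩ := e2a_rat hS
  set A₀ : ℚ := -(W⁄ℚ).c₄ / 48 with hA₀
  set B₀ : ℚ := -(W⁄ℚ).c₆ / 864 with hB₀
  have h0 := e2a_vc (W⁄ℚ) hA₀ hB₀
  set ρ : ℚ →+* Ω := (algebraMap k Ω).comp (algebraMap ℚ k) with hρ
  have hρ' : ρ = (algebraMap F Ω).comp (algebraMap ℚ F) := Subsingleton.elim _ _
  have h1 := vc_map ρ h0
  refine ⟨algebraMap ℚ k 1, algebraMap ℚ k ((W⁄ℚ).b₂ / 12), algebraMap ℚ k ((W⁄ℚ).a₁ / 2),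
    algebraMap ℚ k ((W⁄ℚ).a₃ / 2), ?_⟩
  have e1 : (WAB A B)⁄Ω = (WAB A₀ B₀).map ρ := by
    have f1 : algebraMap F Ω A = ρ A₀ := by
      rw [eA, hρ']
      rfl
    have f2 : algebraMap F Ω B = ρ B₀ := by
      rw [eB, hρ']
      rfl
    ext
    · show algebraMap F Ω 0 = ρ 0
      rw [map_zero, map_zero]
    · show algebraMap F Ω 0 = ρ 0
      rw [map_zero, map_zero]
    · show algebraMap F Ω 0 = ρ 0
      rw [map_zero, map_zero]
    · exact f1
    · exact f2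
  have e2 : (W⁄k)⁄Ω = (W⁄ℚ).map ρ := by
    show (W.map (algebraMap ℤ k)).map (algebraMap k Ω) = (W.map (algebraMap ℤ ℚ)).map ρ
    rw [WeierstrassCurve.map_map, WeierstrassCurve.map_map]
    exact congrArg (fun f : ℤ →+* Ω => W.map f) (Subsingleton.elim _ _)
  rw [e1, e2]
  exact h1

end H55G
end

-- from Lib.H55G.E2b
section

/-! # H55G, part E: the setting -/

open NumberField IsDedekindDomain WeierstrassCurve Polynomial

namespace H55G

open H55P (IQ embF eF LF Per IsHecke Pt ac Inert Dec Nm)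
open H35P (WAB Ker GoodW IntW)
open H55K (CMA Tor TN ak xc yc cj cj_cj mul_cj Nm_cj Nm_mul Nm_nat acr xc_acr yc_acr acr_zero_iff acr_inj acr_eq_ac acr_trans GoodAt Abw)
open H55K.MG (VC Crd)
open H55K.TQ

variable {F : Type} [Field F] [NumberField F] [IQ F] {W₀ : WeierstrassCurve (𝓞 F)} {Om : ℂ}
    {m : Ideal (𝓞 F)} {ψ : Ideal (𝓞 F) →*₀ 𝓞 F} {A B : F}

omit [IQ F] in
/-- Chunk E2A (S). A and B are images of rational numbers (map_c₄, map_c₆; map_ratCast, map_intCast). -/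
theorem fix_AB {W : WeierstrassCurve ℤ} (hS : Sh (W⁄(𝓞 F)) A B) {Ω : Type} [Field Ω] [Algebra F Ω] (g : Ω ≃+* Ω) :
    g (algebraMap F Ω A) = algebraMap F Ω A ∧ g (algebraMap F Ω B) = algebraMap F Ω B := by
  obtain ⟨eA, eB⟩ := e2a_rat hS
  have h1 : ∀ q : ℚ, g (algebraMap F Ω (algebraMap ℚ F q)) = algebraMap F Ω (algebraMap ℚ F q) := by
    intro q
    have h2 : ((g : Ω →+* Ω).comp ((algebraMap F Ω).comp (algebraMap ℚ F))) = (algebraMap F Ω).comp (algebraMap ℚ F) :=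
      Subsingleton.elim _ _
    exact congrArg (fun f : ℚ →+* Ω => f q) h2
  rw [eA, eB]
  exact ⟨h1 _, h1 _⟩

/-- Chunk E2A (S). H13S.exists_frob (Lib/H13S/FR.lean) for F₀ = k and v = w (hv from hV.lt); the ring automorphism underlying s. -/
theorem exists_g {k : Type} [Field k] [NumberField k] {Ω : Type} [Field Ω] [Algebra k Ω] [IsAlgClosure k Ω] {V : ValuationSubring Ω}
    {w : HeightOneSpectrum (𝓞 k)} (hV : Abw V w) : ∃ g : Ω ≃+* Ω, FrD k V w g := by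
  obtain ⟨s, -, hs⟩ := H13S.exists_frob (F₀ := k) w V (fun a ha =>
    (hV.lt (a : k)).2 ((w.valuation_lt_one_iff_mem (K := k) a).2 ha))
  exact ⟨(s : Ω ≃+* Ω), ⟨hV, fun x => s.commutes x, hs⟩⟩

end H55G
end
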