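import Mathlib
import Pool.Agent.Lib.H1M.PP2.D_H28T_XMain
import Pool.Agent.Lib.H1M.PP2.D_H55Y_Y5
import Pool.Agent.Lib.H1M.PP2.M029
import Pool.Agent.Lib.H1M.PP2.M031
import Pool.Agent.Lib.H1M.PP2.M038
import Pool.Agent.Lib.H1M.PP2.M051
import Pool.Agent.Lib.H1M.PP2.M074
import Pool.Agent.Lib.H1M.PP2.M080
import Pool.Agent.Lib.H1M.PP2.M086
import Pool.Agent.Lib.H1M.PP2.M094
import Pool.Agent.Lib.H1M.PP2.M098
import Pool.Agent.Lib.H1M.PP2.M099
import Pool.Agent.Lib.H1M.PP2.M102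
import Pool.Agent.Lib.H1M.PP2.M107
import Pool.Agent.Lib.H1M.PP2.M109
import Pool.Agent.Lib.H1M.PP2.M110
import Pool.Agent.Lib.H1M.PP2.M118
import Pool.Agent.Lib.H1M.PP2.M120
import Pool.Agent.Lib.H1M.PP2.M128
import Pool.Agent.Lib.H1M.PP2.M129
import Pool.Agent.Lib.H1M.PP2.M138
import Pool.Agent.Lib.H1M.PP2.M141
import Pool.Agent.Lib.H1M.PP2.M145
import Pool.Agent.Lib.H1M.PP2.M146
import Pool.Agent.Lib.H1M.PP2.M151

/-! Merged copies (to shorten the build) of Lib.H28T.XMain_T, Lib.H55Z.S3, Lib.H55Y.Y5_T, Lib.H55Z.Q10, Lib.H55G.E4a, Lib.H55G.E5, Lib.H55G.E4b, Lib.H55G.E6a. -/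

-- from Lib.H28T.XMain_T
section

/-! # H28T: the class of fields is large, for all curves with complex multiplication -/

open NumberField IsDedekindDomain WeierstrassCurve

namespace H28T

open H55P H55R
open H55K H55K.TQ

variable {F : Type} [Field F] [NumberField F] [IQ F] {W₀ : WeierstrassCurve (𝓞 F)} {Om : ℂ}
    {m : Ideal (𝓞 F)} {ψ : Ideal (𝓞 F) →*₀ 𝓞 F} {p : ℕ}


theorem xm_goodL {l : ℕ} (h : GoodL (Gd W₀ p) l) : GoodL (Gx W₀ p) l := fun v hv => gx_of_gd (h v hv)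

theorem xm_dir (hH : BaseH F W₀ Om m ψ) (hp : PrimeH F W₀ p) : DirH (Gx W₀ p) p := by
  intro n N
  obtain ⟨l, h1, h2, h3, h4⟩ := cc_dirH hH hp n N
  exact ⟨l, h1, h2, h3, xm_goodL h4⟩

theorem xm_nice (hH : BaseH F W₀ Om m ψ) (hp : PrimeH F W₀ p) : NiceH (Gx W₀ p) p :=
  cb3_niceG hH hp (fun _ h => gx_of_gd h) fun _ h => h.1

/-- The realisation part over F. -/
theorem rich_of (hH : BaseH F W₀ Om m ψ) (hp : PrimeH F W₀ p) : Rich W₀ p := by
  have hpp := hp.prime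
  have h5 := hp.five
  have hGp : ∀ v : HeightOneSpectrum (𝓞 F), Gx W₀ p v → (p : 𝓞 F) ∉ v.asIdeal := fun v h => h.1
  have hN := xm_nice hH hp
  have hD := xm_dir hH hp
  refine ⟨fun K _ _ => inPF_iff hpp hp.unr K, fun K _ _ _ h hk => exp_ext h hk, hD, ?_,
    fun K _ _ _ B h => exists_wreath hpp h5 hGp hN K B h,
    fun H _ _ k hH B => exists_embedP hpp h5 hGp hN k H hH B, ?_,
    fun A _ _ k hA B => aq2_abelian hpp (by omega) hD A k hA B⟩
  · intro A _ _ k hA B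
    obtain ⟨K₀, i1, i2, -, h1, ⟨e⟩⟩ := aq2_abelian hpp (by omega) hD A k hA B
    obtain ⟨E, j1, j2, j3, j4, h2, ⟨e'⟩⟩ := aq3_of (F := F) hpp (by omega) K₀ h1
    exact ⟨E, j1, j2, j3, h2, ⟨e'.trans e⟩⟩
  · intro K₀ _ _ h
    obtain ⟨E, j1, j2, j3, j4, h2, -⟩ := aq3_of (F := F) hpp (by omega) K₀ h
    rw [inPF_iff hpp hp.unr]
    exact ⟨E, j1, j2, j3, j4, h2.1⟩

/-- The set Gx is stable under conjugation. -/
theorem gx_conj {W : WeierstrassCurve ℤ} {p : ℕ} (v v' : HeightOneSpectrum (𝓞 F))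
    (h : ∀ x : 𝓞 F, cj x ∈ v'.asIdeal ↔ x ∈ v.asIdeal) (hg : Gx (W⁄(𝓞 F)) p v) : Gx (W⁄(𝓞 F)) p v' := by
  have hp' : (p : 𝓞 F) ∉ v'.asIdeal := by
    intro h1
    apply hg.1
    rw [← h, cj_nat]
    exact h1
  refine ⟨hp', fun hΔ => ?_⟩
  have hD : cj (W⁄(𝓞 F)).Δ = (W⁄(𝓞 F)).Δ := by
    have e : (W⁄(𝓞 F)).Δ = ((W.Δ : ℤ) : 𝓞 F) := by
      have e1 : (W⁄(𝓞 F)).Δ = algebraMap ℤ (𝓞 F) W.Δ := W.map_Δ _
      rw [e1]
      simp
    rw [e, cj_int]
  have hΔ' : (W⁄(𝓞 F)).Δ ∉ v.asIdeal := by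
    intro h1
    apply hΔ
    rw [← hD, h]
    exact h1
  exact (ar2_conj v v' h ⟨hΔ', hg.1, hg.2 hΔ'⟩).2.2


/-- The realisation part over the rationals. -/
theorem real_Q {W : WeierstrassCurve ℤ} (hH : BaseH F (W⁄(𝓞 F)) Om m ψ) (hp : PrimeH F (W⁄(𝓞 F)) p)
    (H : Type) [Group H] [Finite H] (k : ℕ) (hk : Nat.card H = p ^ k) : RealG (W⁄(𝓞 F)) p H := by
  obtain ⟨K₀, i1, i2, h1, N, j1, j2, j3, j4, h2, h3, h4, h5⟩ :=
    ar5_real hp.prime hp.five (fun v v' h hg => gx_conj v v' h hg) (fun v h => h.1) (xm_nice hH hp) H k hk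
  exact ⟨K₀, i1, i2, h1, (inPF_iff hp.prime hp.unr K₀).2 ⟨N, j1, j2, j3, j4, h4⟩, N, j1, j2, j3, j4, h2, h3, h4, h5⟩

end H28T
end

-- from Lib.H55Z.S3
section

/-! # H55Z: the Galois closure over the rationals; real fields -/

open NumberField IsDedekindDomain WeierstrassCurve
open scoped Pointwise

namespace H55Z

open H28T
open H55P H55R
open H55K H55K.TQ

/-- The converse of s2_stab. -/
theorem s3_stab {C N : Type} [Field C] [NumberField C] [Field N] [NumberField N] [Algebra C N] [IsGalois C N]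
    (W : Pl N) (h : W.asIdeal.ramificationIdx (𝓞 C) = 1 ∧ W.asIdeal.inertiaDeg (𝓞 C) = 1)
    (σ : Gal(N/C)) (hσ : smulP σ W = W) : σ = 1 := by
  have h1 := card_stab W (W.under (𝓞 C)) rfl
  have hp := (W.under (𝓞 C)).isPrime
  have hW := W.isPrime
  have hl : W.asIdeal.LiesOver (W.under (𝓞 C)).asIdeal := ⟨rfl⟩
  have h5 : fs C N (W.under (𝓞 C)) = 1 :=
    (Ideal.inertiaDegIn_eq_inertiaDeg (W.under (𝓞 C)).asIdeal W.asIdeal Gal(N/C)).trans h.2
  have h6 : es C N (W.under (𝓞 C)) = 1 :=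
    (Ideal.ramificationIdxIn_eq_ramificationIdx (W.under (𝓞 C)).asIdeal W.asIdeal Gal(N/C)).trans h.1
  rw [h5, h6, mul_one] at h1
  have h2 := (Nat.card_eq_one_iff_unique.1 h1).1
  have h3 := h2.elim (⟨σ, hσ⟩ : {σ : Gal(N/C) // smulP σ W = W}) ⟨1, smulP_one W⟩
  exact congrArg Subtype.val h3

section

variable {F : Type} [Field F] [NumberField F] [IQ F] {G : HeightOneSpectrum (𝓞 F) → Prop}

/-- The prime p splits completely in the Galois closure. -/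
theorem spl_closure {p : ℕ} (L N : Type) [Field L] [NumberField L] [Algebra F L] [Field N] [NumberField N]
    [Algebra F N] (hG : IsGalois F L) (hS : Spl F p L) (hN : IsGalois ℚ N)
    (hgen : ∀ g : N ≃ₐ[F] N, (∀ (τ : L →+* N) (x : L), g (τ x) = τ x) → g = 1) : Spl F p N := by
  have hNF : IsGalois F N := IsGalois.tower_top_of_isGalois ℚ F N
  intro P hpP
  apply s2_stab
  intro g hg
  apply hgen
  intro τ x
  obtain ⟨α, hα⟩ := ar1_restrict L N hG g τ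
  suffices h1 : α = 1 by
    rw [hα, h1]
    rfl
  let t : 𝓞 L →+* 𝓞 N := RingOfIntegers.mapRingHom τ
  have hPp := P.isPrime
  have hne : P.asIdeal.comap t ≠ ⊥ := by
    intro h
    have hn : (Ideal.absNorm P.asIdeal : 𝓞 L) ∈ P.asIdeal.comap t := by
      rw [Ideal.mem_comap, map_natCast]
      exact Ideal.absNorm_mem _
    rw [h, Ideal.mem_bot, Nat.cast_eq_zero, Ideal.absNorm_eq_zero_iff] at hn
    exact P.ne_bot hn
  let P' : HeightOneSpectrum (𝓞 L) := ⟨P.asIdeal.comap t, inferInstance, hne⟩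
  have hP' : ∀ y, y ∈ P'.asIdeal ↔ t y ∈ P.asIdeal := fun y => Iff.rfl
  have hpP' : (p : 𝓞 L) ∈ P'.asIdeal := by
    rw [hP', map_natCast]
    exact hpP
  apply s3_stab (C := F) P' (hS P' hpP')
  apply HeightOneSpectrum.ext
  show α • P'.asIdeal = P'.asIdeal
  have hgP : g • P.asIdeal = P.asIdeal := congrArg HeightOneSpectrum.asIdeal hg
  have ht : ∀ y : 𝓞 L, t (α • y) = g • t y := by
    intro y
    apply RingOfIntegers.ext
    exact (hα (y : L)).symm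
  have key : ∀ y : 𝓞 L, α • y ∈ P'.asIdeal ↔ y ∈ P'.asIdeal := by
    intro y
    rw [hP', hP', ht]
    nth_rewrite 1 [← hgP]
    exact Ideal.smul_mem_pointwise_smul_iff
  ext y
  obtain ⟨z, rfl⟩ : ∃ z, α • z = y := ⟨α⁻¹ • y, smul_inv_smul _ _⟩
  rw [Ideal.smul_mem_pointwise_smul_iff, key]

theorem s3_gal {p : ℕ} (hp : p.Prime)
    (hcj : ∀ v v' : HeightOneSpectrum (𝓞 F), (∀ x : 𝓞 F, cj x ∈ v'.asIdeal ↔ x ∈ v.asIdeal) → G v → G v')
    (L : Type) [Field L] [NumberField L] [Algebra F L] (h : ExtG G p L) (hS : Spl F p L) :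
    ∃ (N : Type) (_ : Field N) (_ : NumberField N) (_ : Algebra F N) (_ : Algebra L N)
      (_ : IsScalarTower F L N), IsGalois ℚ N ∧ ExtG G p N ∧ Spl F p N := by
  obtain ⟨hG, ⟨k, hk⟩, hU⟩ := h
  obtain ⟨N, i1, i2, i3, hN, hg⟩ := H13N.g3_closure L
  let i4 : Algebra F N := ((algebraMap L N).comp (algebraMap F L)).toAlgebra
  have i5 : IsScalarTower F L N := IsScalarTower.of_algebraMap_eq fun x => rfl
  have hgen : ∀ g : N ≃ₐ[F] N, (∀ (τ : L →+* N) (x : L), g (τ x) = τ x) → g = 1 := by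
    intro g h
    have h1 := hg (g.restrictScalars ℚ) h
    ext x
    exact congrArg (fun σ : N ≃ₐ[ℚ] N => σ x) h1
  obtain ⟨m, hm⟩ := ar3_pow hp L N hG k hk hN hgen
  exact ⟨N, i1, i2, i4, i3, i5, hN, ⟨IsGalois.tower_top_of_isGalois ℚ F N, ⟨m, hm⟩,
    ar3_unr hcj L N hG hU hN hgen⟩, spl_closure L N hG hS hN hgen⟩

/-- A real field K₀ whose compositum N with F is Galois over the rationals, a Galois extension of F of the class in which p splits
completely, with H as a subquotient of the Galois group of N/F. -/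
def RealS (G : HeightOneSpectrum (𝓞 F) → Prop) (p : ℕ) (H : Type) [Group H] : Prop :=
  ∃ (K₀ : Type) (_ : Field K₀) (_ : NumberField K₀), 0 < InfinitePlace.nrRealPlaces K₀ ∧
    ∃ (N : Type) (_ : Field N) (_ : NumberField N) (_ : Algebra F N) (_ : Algebra K₀ N),
      Module.finrank K₀ N = 2 ∧ IsGalois ℚ N ∧ ExtG G p N ∧ Spl F p N ∧ H28R.SubQ (N ≃ₐ[F] N) H

theorem s3_real {p : ℕ} (hp : p.Prime) (h5 : 5 ≤ p)
    (hcj : ∀ v v' : HeightOneSpectrum (𝓞 F), (∀ x : 𝓞 F, cj x ∈ v'.asIdeal ↔ x ∈ v.asIdeal) → G v → G v')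
    (hGp : ∀ v : HeightOneSpectrum (𝓞 F), G v → (p : 𝓞 F) ∉ v.asIdeal)
    (hN : NiceH G p) (H : Type) [Group H] [Finite H] (k : ℕ)
    (hH : Nat.card H = p ^ k) : RealS G p H := by
  obtain ⟨L, i1, i2, i3, hL, hS, ⟨ψ, hψ⟩⟩ := exists_embedS hp h5 hGp hN k H hH 0
  obtain ⟨N, j1, j2, j3, j4, j5, hGQ, hN', hSN⟩ := s3_gal hp hcj L hL.1 hS
  obtain ⟨K₀, k1, k2, k3, hr, hQ⟩ := ar4_real (F := F) N hGQ
  have hGL := hL.1.1
  have hGF := hN'.1
  refine ⟨K₀, k1, k2, hr, N, j1, j2, j3, k3, hQ, hGQ, hN', hSN, ?_⟩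
  let res : (N ≃ₐ[F] N) →* (L ≃ₐ[F] L) := AlgEquiv.restrictNormalHom L
  have hres : Function.Surjective res := AlgEquiv.restrictNormalHom_surjective N
  let e : H ≃* ψ.range := MonoidHom.ofInjective hψ
  refine ⟨ψ.range.comap res, (e.symm : ψ.range →* H).comp (res.subgroupComap ψ.range), ?_⟩
  intro h
  obtain ⟨g, hg⟩ := hres (e h)
  refine ⟨⟨g, ?_⟩, ?_⟩
  · rw [Subgroup.mem_comap, hg]
    exact (e h).2
  · have h1 : res.subgroupComap ψ.range ⟨g, by rw [Subgroup.mem_comap, hg]; exact (e h).2⟩ = e h :=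
      Subtype.ext hg
    show e.symm _ = h
    rw [h1]
    exact e.symm_apply_apply h

end

variable {F : Type} [Field F] [NumberField F] [IQ F] {W₀ : WeierstrassCurve (𝓞 F)} {Om : ℂ}
    {m : Ideal (𝓞 F)} {ψ : Ideal (𝓞 F) →*₀ 𝓞 F} {p : ℕ}

/-- Every finite p-group embeds in the Galois group of an extension of F of the class in which p splits completely. -/
theorem emb_split (hH : BaseH F W₀ Om m ψ) (hp : PrimeH F W₀ p) (H : Type) [Group H] [Finite H] (k : ℕ)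
    (hk : Nat.card H = p ^ k) (B : ℕ) : EmbS (Gx W₀ p) p H B :=
  exists_embedS hp.prime hp.five (fun _ h => h.1) (xm_nice hH hp) k H hk B


/-- Real fields. -/
theorem real_split {W : WeierstrassCurve ℤ} (hH : BaseH F (W⁄(𝓞 F)) Om m ψ) (hp : PrimeH F (W⁄(𝓞 F)) p)
    (H : Type) [Group H] [Finite H] (k : ℕ) (hk : Nat.card H = p ^ k) : RealS (Gx (W⁄(𝓞 F)) p) p H :=
  s3_real hp.prime hp.five (fun v v' h hg => gx_conj v v' h hg) (fun _ h => h.1) (xm_nice hH hp) H k hk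

end H55Z
end

-- from Lib.H55Y.Y5_T
section

/-! # H55Y: elliptic curves over the rational numbers with complex multiplication by any order -/

open NumberField IsDedekindDomain WeierstrassCurve

namespace H55Y

open H55P (IQ embF eF LF Per Nm)
open H55K (cj)
open H55K.TQ
open H55W
open H28I (sA sB IP TW)

variable {F : Type} [Field F] [NumberField F] [IQ F]

theorem y5_w {w : 𝓞 F} (hw : w ^ 2 + w + 1 = 0) : ∃ w' : 𝓞 F, w' ^ 2 + w' + 1 = 0 ∧ Gen w' := by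
  obtain ⟨w', h⟩ := ei_of (θ := 2 * w + 1) ⟨by push_cast; linear_combination 4 * hw, Nat.prime_three.prime.irreducible.squarefree, by norm_num⟩
  exact ⟨w', h.sq, gen_w h.sq h.rep⟩

theorem y5_i {i : 𝓞 F} (hi : i ^ 2 = -1) : Gen i := by
  have h := gi_of (θ := i) ⟨by rw [hi]; push_cast; rfl, squarefree_one, by norm_num⟩
  exact gen_i hi h.rep

theorem y5_a {s : 𝓞 F} (hs : s ^ 2 = -7) : ∃ α : 𝓞 F, α ^ 2 - α + 2 = 0 ∧ Gen α := by
  have h : TH s 7 := ⟨by rw [hs]; push_cast; rfl, (by norm_num : Nat.Prime 7).prime.irreducible.squarefree, by norm_num⟩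
  have hθF : (s : F) ^ 2 = -7 := by
    have h1 := congrArg (algebraMap (𝓞 F) F) h.sq
    rw [map_pow, map_neg, map_natCast] at h1
    exact_mod_cast h1
  have hint : _root_.IsIntegral ℤ ((1 + (s : F)) / 2) := by
    refine ⟨Polynomial.X ^ 2 - Polynomial.X + 2, by monicity!, ?_⟩
    simp only [Polynomial.eval₂_add, Polynomial.eval₂_sub, Polynomial.eval₂_pow, Polynomial.eval₂_X, Polynomial.eval₂_ofNat]
    linear_combination (1 / 4 : F) * hθF
  set α : 𝓞 F := ⟨(1 + (s : F)) / 2, hint⟩ with hα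
  have hα2 : 2 * α = 1 + s := by
    apply RingOfIntegers.coe_injective
    show algebraMap (𝓞 F) F (2 * α) = algebraMap (𝓞 F) F (1 + s)
    rw [map_mul, map_ofNat, map_add, map_one]
    show 2 * ((1 + (s : F)) / 2) = 1 + (s : F)
    ring
  have hα3 : α ^ 2 - α + 2 = 0 := by
    have h40 : (4 : 𝓞 F) ≠ 0 := by
      have h5 : ((4 : ℤ) : 𝓞 F) ≠ ((0 : ℤ) : 𝓞 F) := fun h6 => by
        have h7 := cl2_inj h6
        omega
      push_cast at h5
      exact h5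
    apply mul_left_cancel₀ h40
    linear_combination (2 * α + (1 + s) - 2) * hα2 + hs
  refine ⟨α, hα3, gen_a hα3 fun x => ?_⟩
  obtain ⟨a, b, h1, h2⟩ := two_mul_eq h x
  push_cast at h2
  have h3 : (a - b) % 2 = 0 := by
    obtain ⟨c, hc⟩ := h2
    rcases Int.emod_two_eq_zero_or_one a with ha | ha <;> rcases Int.emod_two_eq_zero_or_one b with hb | hb
    · omega
    · exfalso
      have ea := Int.emod_add_mul_ediv a 2
      have eb := Int.emod_add_mul_ediv b 2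
      rw [ha] at ea
      rw [hb] at eb
      rw [← ea, ← eb] at hc
      ring_nf at hc
      omega
    · exfalso
      have ea := Int.emod_add_mul_ediv a 2
      have eb := Int.emod_add_mul_ediv b 2
      rw [ha] at ea
      rw [hb] at eb
      rw [← ea, ← eb] at hc
      ring_nf at hc
      omega
    · omega
  refine ⟨(a - b) / 2, b, ?_⟩
  apply mul_left_cancel₀ (two_ne_zero (α := 𝓞 F))
  rw [h1]
  have ea : ((2 * ((a - b) / 2) : ℤ) : 𝓞 F) = ((a - b : ℤ) : 𝓞 F) := by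
    rw [Int.mul_ediv_cancel' (Int.dvd_of_emod_eq_zero h3)]
  push_cast at ea
  linear_combination -ea - (b : 𝓞 F) * hα2


theorem y5_one {A B Om : ℂ} (h : PerO F 1 A B Om) : Per F A B Om := by
  obtain ⟨hO, L, hL, g2, g3⟩ := h
  have hl : L.lattice = (LF F).lattice := by
    ext z
    rw [hL, H55P.mem_LF]
    constructor
    · rintro ⟨a, y, rfl⟩
      exact ⟨(a : 𝓞 F) + y, by rw [map_add, map_intCast, Nat.cast_one, one_mul]⟩
    · rintro ⟨y, rfl⟩
      exact ⟨0, y, by rw [Int.cast_zero, zero_add, Nat.cast_one, one_mul]⟩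
  obtain ⟨e2, e3⟩ := y2_g hl
  exact ⟨hO, e2 ▸ g2, e3 ▸ g3⟩

theorem y5_scale {A B A' B' mu : ℚ} {Om : ℂ} (hmu : mu ≠ 0) (hA : A = mu ^ 4 * A') (hB : B = mu ^ 6 * B')
    (h : Per F (A : ℂ) (B : ℂ) Om) : Per F (A' : ℂ) (B' : ℂ) (mu * Om) := by
  have hmu' : (mu : ℂ) ≠ 0 := by exact_mod_cast hmu
  refine ⟨mul_ne_zero hmu' h.ne, ?_, ?_⟩
  · rw [h.g2, hA]
    push_cast
    ring
  · rw [h.g3, hB]
    push_cast
    ring

theorem y5_c4 (W : WeierstrassCurve ℤ) : -(eF F (W⁄(𝓞 F)).c₄) / 48 = ((sA W ℚ : ℚ) : ℂ) := by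
  have h : (W⁄(𝓞 F)).c₄ = ((W.c₄ : ℤ) : 𝓞 F) := (W.map_c₄ (algebraMap ℤ (𝓞 F))).trans (by simp)
  rw [h, map_intCast]
  unfold sA
  push_cast
  rfl

theorem y5_c6 (W : WeierstrassCurve ℤ) : -(eF F (W⁄(𝓞 F)).c₆) / 864 = ((sB W ℚ : ℚ) : ℂ) := by
  have h : (W⁄(𝓞 F)).c₆ = ((W.c₆ : ℤ) : 𝓞 F) := (W.map_c₆ (algebraMap ℤ (𝓞 F))).trans (by simp)
  rw [h, map_intCast]
  unfold sB
  push_cast
  rfl

/-- W is a global minimal equation of an elliptic curve over the rational numbers with complex multiplication by the order of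
conductor f of F. -/
def CMO (F : Type) [Field F] [NumberField F] [IQ F] (W : WeierstrassCurve ℤ) : Prop :=
  W.Δ ≠ 0 ∧ H13D.MinZ W ∧ ∃ (f : ℕ) (Om : ℂ), Cond F f ∧
    PerO F f (-(eF F (W⁄(𝓞 F)).c₄) / 48) (-(eF F (W⁄(𝓞 F)).c₆) / 864) Om

/-- The other curve. -/
theorem y5_other {W' : WeierstrassCurve ℤ} (h0 : W'.Δ ≠ 0) (hmin' : H13D.MinZ W') {A B : ℚ} {Om : ℂ} (hd : 4 * A ^ 3 + 27 * B ^ 2 ≠ 0)
    (hper : Per F (A : ℂ) (B : ℂ) Om)
    (hcub : ∀ w : 𝓞 F, w ^ 2 + w + 1 = 0 → ∀ n : ℤ, n ≠ 0 → ∃ κ : 𝓞 F → 𝓞 F, PRC (𝓞 F) 3 n (3 * n) (27 * n) κ)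
    (hfam : ∀ (W : WeierstrassCurve ℤ) (mu : ℚ), mu ≠ 0 → A = mu ^ 4 * sA W ℚ → B = mu ^ 6 * sB W ℚ →
      ∃ (kap : ℤ) (e t u lam : ℚ), IP W W' kap e t u lam ∧ ∃ j₀ : ℤ, W'.c₄ ^ 3 = j₀ * W'.Δ) :
    ∃ (W : WeierstrassCurve ℤ) (Om' : ℂ) (m : Ideal (𝓞 F)) (ψ : Ideal (𝓞 F) →*₀ 𝓞 F) (kap : ℤ) (e t u lam : ℚ),
      W.Δ ≠ 0 ∧ Per F (-(eF F (W⁄(𝓞 F)).c₄) / 48) (-(eF F (W⁄(𝓞 F)).c₆) / 864) Om' ∧ TW F W W' Om' m ψ kap e t u lam := by
  obtain ⟨W, mu, hmu, hΔ, hmin, hA, hB⟩ := H28I.min_short hd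
  have hp := y5_scale hmu hA hB hper
  rw [← y5_c4 (F := F), ← y5_c6 (F := F)] at hp
  obtain ⟨ψ, hH⟩ := base_all0 hcub W (mu * Om) hΔ hp hmin
  obtain ⟨kap, e, t, u, lam, hI, hj⟩ := hfam W mu hmu hA hB
  exact ⟨W, _, _, ψ, kap, e, t, u, lam, hΔ, hp, H28I.tw_of hH hmin hmin' hI hj⟩

/-- Either complex multiplication by the ring of integers, or an isogeny to such a curve. -/
theorem y5_cases {W' : WeierstrassCurve ℤ} (h : CMO F W')
    (hcub : ∀ w : 𝓞 F, w ^ 2 + w + 1 = 0 → ∀ n : ℤ, n ≠ 0 → ∃ κ : 𝓞 F → 𝓞 F, PRC (𝓞 F) 3 n (3 * n) (27 * n) κ) :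
    (∃ Om : ℂ, Per F (-(eF F (W'⁄(𝓞 F)).c₄) / 48) (-(eF F (W'⁄(𝓞 F)).c₆) / 864) Om) ∨
    ∃ (W : WeierstrassCurve ℤ) (Om' : ℂ) (m : Ideal (𝓞 F)) (ψ : Ideal (𝓞 F) →*₀ 𝓞 F) (kap : ℤ) (e t u lam : ℚ),
      W.Δ ≠ 0 ∧ Per F (-(eF F (W⁄(𝓞 F)).c₄) / 48) (-(eF F (W⁄(𝓞 F)).c₆) / 864) Om' ∧ TW F W W' Om' m ψ kap e t u lam := by
  obtain ⟨h0, hmin, f, Om, hc, hper⟩ := h
  have hd' : 4 * (sA W' ℚ) ^ 3 + 27 * (sB W' ℚ) ^ 2 ≠ 0 := by
    have h1 := (H28I.disc_sAB W').1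
    intro h2
    rw [h2, mul_zero] at h1
    exact h0 (by exact_mod_cast h1)
  rcases hc with rfl | ⟨rfl, hc⟩ | ⟨rfl, w, hw⟩
  · exact Or.inl ⟨Om, y5_one hper⟩
  · right
    rw [y5_c4, y5_c6] at hper
    rcases hc with ⟨w, hw⟩ | ⟨i, hi⟩ | ⟨s, hs⟩
    · obtain ⟨w', hw', hG⟩ := y5_w hw
      obtain ⟨a, hA, hB, hP⟩ := case_w2 hw' hG hd' hper
      have ha : a ≠ 0 := by
        rintro rfl
        apply hd'
        rw [hA, hB]
        norm_num
      refine y5_other h0 hmin ?_ hP hcub fun W mu hmu h1 h2 => ?_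
      · have : a ^ 6 ≠ 0 := pow_ne_zero _ ha
        intro h3
        apply this
        linear_combination (1 / 27) * h3
      · obtain ⟨h3, h4⟩ := H28I.fam12 ha hmu h1 h2 hA hB
        exact ⟨_, _, _, _, _, h3, _, h4⟩
    · obtain ⟨a, hA, hB, hP⟩ := case_i2 hi (y5_i hi) hd' hper
      have ha : a ≠ 0 := by
        rintro rfl
        apply hd'
        rw [hA, hB]
        norm_num
      refine y5_other h0 hmin ?_ hP hcub fun W mu hmu h1 h2 => ?_
      · have : a ^ 6 ≠ 0 := pow_ne_zero _ ha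
        intro h3
        apply this
        linear_combination (-1 / 4) * h3
      · obtain ⟨h3, h4⟩ := H28I.fam16 ha hmu h1 h2 hA hB
        exact ⟨_, _, _, _, _, h3, _, h4⟩
    · obtain ⟨α, hα, hG⟩ := y5_a hs
      obtain ⟨a, hA, hB, hP⟩ := case_a2 hα hG hd' hper
      have ha : a ≠ 0 := by
        rintro rfl
        apply hd'
        rw [hA, hB]
        norm_num
      refine y5_other h0 hmin ?_ hP hcub fun W mu hmu h1 h2 => ?_
      · have : a ^ 6 ≠ 0 := pow_ne_zero _ ha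
        intro h3
        apply this
        linear_combination (1 / 87808) * h3
      · obtain ⟨h3, h4⟩ := H28I.fam28 ha hmu h1 h2 hA hB
        exact ⟨_, _, _, _, _, h3, _, h4⟩
  · right
    rw [y5_c4, y5_c6] at hper
    obtain ⟨w', hw', hG⟩ := y5_w hw
    obtain ⟨a, hA, hB, hP⟩ := case_w3 hw' hG hd' hper
    have ha : a ≠ 0 := by
      rintro rfl
      apply hd'
      rw [hA, hB]
      norm_num
    refine y5_other h0 hmin ?_ hP hcub fun W mu hmu h1 h2 => ?_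
    · have : a ^ 6 ≠ 0 := pow_ne_zero _ ha
      intro h3
      apply this
      linear_combination (1 / 6912) * h3
    · obtain ⟨h3, h4⟩ := H28I.fam27 ha hmu h1 h2 hA hB
      exact ⟨_, _, _, _, _, h3, _, h4⟩

end H55Y
end

-- from Lib.H55Z.Q10
section

/-! # H55Z, part Q: the prime p, inert in F, in the field generated by F and M -/

open NumberField IsDedekindDomain
open scoped Pointwise

namespace H55Z

open H55R
open H55P (IQ UnrP)
open H55K H55K.TQ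

section gen

variable {p : ℕ} {F M K : Type} [Field F] [NumberField F] [IQ F] [Field M] [NumberField M] [Field K] [NumberField K] [Algebra F K] [Algebra M K]

theorem q10_mem (hp : p.Prime) (hI : (Ideal.span {(p : 𝓞 F)}).IsPrime) (W : Pl K) (hW : (p : 𝓞 K) ∈ W.asIdeal) :
    W.asIdeal.under (𝓞 F) = Ideal.span {(p : 𝓞 F)} := by
  have hWp := W.isPrime
  have h0 : Ideal.span {(p : 𝓞 F)} ≠ ⊥ := by
    rw [Ne, Ideal.span_singleton_eq_bot]
    exact Nat.cast_ne_zero.2 hp.ne_zero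
  have hm : (Ideal.span {(p : 𝓞 F)}).IsMaximal := hI.isMaximal h0
  refine (hm.eq_of_le (Ideal.IsPrime.ne_top inferInstance) ?_).symm
  rw [Ideal.span_singleton_le_iff_mem, Ideal.under, Ideal.mem_comap, map_natCast]
  exact hW

theorem q10_card (hp : p.Prime) (hI : (Ideal.span {(p : 𝓞 F)}).IsPrime) (x : 𝓞 F) : x ^ p ^ 2 - x ∈ Ideal.span {(p : 𝓞 F)} := by
  have h0 : Ideal.span {(p : 𝓞 F)} ≠ ⊥ := by
    rw [Ne, Ideal.span_singleton_eq_bot]
    exact Nat.cast_ne_zero.2 hp.ne_zero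
  have hm : (Ideal.span {(p : 𝓞 F)}).IsMaximal := hI.isMaximal h0
  let _ : Field (𝓞 F ⧸ Ideal.span {(p : 𝓞 F)}) := Ideal.Quotient.field _
  have hfin : Finite (𝓞 F ⧸ Ideal.span {(p : 𝓞 F)}) := Ideal.finiteQuotientOfFreeOfNeBot _ h0
  let _ := Fintype.ofFinite (𝓞 F ⧸ Ideal.span {(p : 𝓞 F)})
  have hc : Fintype.card (𝓞 F ⧸ Ideal.span {(p : 𝓞 F)}) = p ^ 2 := by
    rw [← Nat.card_eq_fintype_card, ← Submodule.cardQuot_apply, ← Ideal.absNorm_apply, Ideal.absNorm_span_natCast,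
      RingOfIntegers.rank F, IQ.deg]
  rw [← Ideal.Quotient.eq, map_pow, ← hc]
  exact FiniteField.pow_card _

/-- The primes above p in K. -/
theorem q10_gen [IsGalois M K] (hp : p.Prime) (h2 : p ≠ 2) (hI : (Ideal.span {(p : 𝓞 F)}).IsPrime)
    (hσ : ∀ σ : Gal(K/M), σ ≠ 1 → ∀ x : 𝓞 F, σ (algebraMap F K (x : F)) = algebraMap F K ((cj x : 𝓞 F) : F))
    (hS : ∀ w : Pl M, (p : 𝓞 M) ∈ w.asIdeal → w.asIdeal.ramificationIdx ℤ = 1 ∧ Ideal.absNorm w.asIdeal ∣ p ^ 2)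
    (W : Pl K) (hW : (p : 𝓞 K) ∈ W.asIdeal) : W.asIdeal.ramificationIdx ℤ = 1 ∧ Ideal.absNorm W.asIdeal ∣ p ^ 2 := by
  obtain ⟨w, hw⟩ : ∃ w : Pl M, W.under (𝓞 M) = w := ⟨_, rfl⟩
  have hpw : (p : 𝓞 M) ∈ w.asIdeal := by
    rw [← hw]
    show algebraMap (𝓞 M) (𝓞 K) (p : 𝓞 M) ∈ W.asIdeal
    rw [map_natCast]
    exact hW
  obtain ⟨he, hf⟩ := hS w hpw
  have hcom := BF1_comm (K := M) (L := K)
  have hl : W.asIdeal.LiesOver w.asIdeal := (BF2_mem w W hw).2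
  have hwp := w.isPrime
  have hWp := W.isPrime
  have hWm := W.isMaximal
  have hwm := w.isMaximal
  have hfin : Finite (𝓞 K ⧸ W.asIdeal) := Ideal.finiteQuotientOfFreeOfNeBot _ W.ne_bot
  have hdown : ∀ x : 𝓞 F, algebraMap (𝓞 F) (𝓞 K) x ∈ W.asIdeal → (p : 𝓞 F) ∣ x := by
    intro x hx
    rw [← Ideal.mem_span_singleton, ← q10_mem hp hI W hW]
    exact hx
  have hact : ∀ σ : Gal(K/M), σ ≠ 1 → ∀ x : 𝓞 F, σ • (algebraMap (𝓞 F) (𝓞 K) x) = algebraMap (𝓞 F) (𝓞 K) (cj x) := by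
    intro σ hs x
    apply RingOfIntegers.ext
    exact hσ σ hs x
  -- no unramified automorphism
  have hno : ∀ σ : Gal(K/M), σ ≠ 1 → ¬ ∀ x : 𝓞 F, σ • (algebraMap (𝓞 F) (𝓞 K) x) - algebraMap (𝓞 F) (𝓞 K) x ∈ W.asIdeal := by
    intro σ hs h
    refine rf_card (F := F) hp h2 fun a => ?_
    have h3 := h a
    rw [hact σ hs, ← map_sub] at h3
    have h4 := hdown _ h3
    rw [← neg_sub]
    exact (dvd_neg).2 h4
  have hes : es M K w = 1 := by
    have h3 : Nat.card (W.asIdeal.inertia Gal(K/M)) = es M K w :=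
      Ideal.card_inertia_eq_ramificationIdxIn (G := Gal(K/M)) w.asIdeal W.asIdeal
    rw [← h3, Subgroup.card_eq_one, eq_bot_iff]
    intro σ hσ'
    rw [Subgroup.mem_bot]
    by_contra hs
    exact hno σ hs fun x => hσ' _
  have e3 : es M K w = W.asIdeal.ramificationIdx (𝓞 M) :=
    Ideal.ramificationIdxIn_eq_ramificationIdx w.asIdeal W.asIdeal Gal(K/M)
  have e4 : fs M K w = W.asIdeal.inertiaDeg (𝓞 M) :=
    Ideal.inertiaDegIn_eq_inertiaDeg w.asIdeal W.asIdeal Gal(K/M)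
  refine ⟨?_, ?_⟩
  · have e1 : W.asIdeal.ramificationIdx ℤ = w.asIdeal.ramificationIdx ℤ * W.asIdeal.ramificationIdx (𝓞 M) :=
      Ideal.ramificationIdx_tower w.asIdeal W.asIdeal
    rw [e1, he, ← e3, hes]
  · have hnorm : Ideal.absNorm W.asIdeal = Ideal.absNorm w.asIdeal ^ fs M K w := by
      rw [← map_pow, ← CH2_norm w W (congrArg HeightOneSpectrum.asIdeal hw), Ideal.absNorm_relNorm]
    obtain ⟨g, hg⟩ := IsArithFrobAt.exists_of_isInvariant (𝓞 M) Gal(K/M) W.asIdeal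
    have h1 := card_stab W w hw
    rw [hes, one_mul] at h1
    by_cases hg1 : g = 1
    · have hf1 : fs M K w = 1 := by
        rw [← h1, Nat.card_eq_one_iff_unique]
        refine ⟨⟨fun a b => Subtype.ext ?_⟩, ⟨⟨1, smulP_one W⟩⟩⟩
        obtain ⟨i, hi⟩ := X7_pow w hes W g hg a.1 (congrArg HeightOneSpectrum.asIdeal a.2)
        obtain ⟨j, hj⟩ := X7_pow w hes W g hg b.1 (congrArg HeightOneSpectrum.asIdeal b.2)
        rw [hi, hj, hg1, one_pow, one_pow]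
      rw [hnorm, hf1, pow_one]
      exact hf
    · obtain ⟨k, hk2, hk⟩ := (Nat.dvd_prime_pow hp).1 hf
      have hk0 : k ≠ 0 := by
        rintro rfl
        rw [pow_zero, Ideal.absNorm_eq_one_iff] at hk
        exact hwp.ne_top hk
      have hk1 : k ≠ 2 := by
        rintro rfl
        refine hno g hg1 fun x => ?_
        have h3 := hg (algebraMap (𝓞 F) (𝓞 K) x)
        have h4 : Nat.card (𝓞 M ⧸ W.asIdeal.under (𝓞 M)) = p ^ 2 := by
          rw [← hk, Ideal.absNorm_apply, Submodule.cardQuot_apply, hl.over]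
        rw [h4] at h3
        have h5 : algebraMap (𝓞 F) (𝓞 K) (x ^ p ^ 2 - x) ∈ W.asIdeal := by
          have h6 := q10_card hp hI x
          rw [← q10_mem hp hI W hW] at h6
          exact h6
        rw [map_sub, map_pow] at h5
        have h7 := add_mem h3 h5
        have h8 : (MulSemiringAction.toAlgHom (𝓞 M) (𝓞 K) g) (algebraMap (𝓞 F) (𝓞 K) x) -
            algebraMap (𝓞 F) (𝓞 K) x ^ p ^ 2 + (algebraMap (𝓞 F) (𝓞 K) x ^ p ^ 2 - algebraMap (𝓞 F) (𝓞 K) x) =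
            g • (algebraMap (𝓞 F) (𝓞 K) x) - algebraMap (𝓞 F) (𝓞 K) x := by
          show g • (algebraMap (𝓞 F) (𝓞 K) x) - _ + _ = _
          ring
        rw [h8] at h7
        exact h7
      have hk' : k = 1 := by omega
      rw [hk', pow_one] at hk
      have hg2 : g ^ 2 = 1 := by
        by_contra hs
        refine rf_card (F := F) hp h2 fun a => ?_
        have h3 := hact (g ^ 2) hs a
        have h4 : g ^ 2 • (algebraMap (𝓞 F) (𝓞 K) a) = algebraMap (𝓞 F) (𝓞 K) a := by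
          rw [sq, mul_smul, hact g hg1, hact g hg1, cj_cj]
        rw [h4] at h3
        have h5 : a = cj a := FaithfulSMul.algebraMap_injective (𝓞 F) (𝓞 K) h3
        rw [← h5, sub_self]
        exact dvd_zero _
      have hfs : fs M K w ∣ 2 := by
        have h3 : orderOf g = fs M K w := by
          rw [← h1, ← Nat.card_zpowers]
          apply Nat.card_congr
          refine Equiv.subtypeEquivRight fun σ => ⟨?_, ?_⟩
          · rintro ⟨i, rfl⟩
            have h3 : g ∈ MulAction.stabilizer Gal(K/M) W.asIdeal := hg.mem_stabilizer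
            have h4 := Subgroup.zpow_mem _ h3 i
            apply HeightOneSpectrum.ext
            exact h4
          · intro hσ'
            obtain ⟨i, hi⟩ := X7_pow w hes W g hg σ (congrArg HeightOneSpectrum.asIdeal hσ')
            rw [hi]
            exact Subgroup.npow_mem_zpowers g i
        rw [← h3]
        exact orderOf_dvd_of_pow_eq_one hg2
      rw [hnorm, hk]
      exact pow_dvd_pow p (Nat.le_of_dvd two_pos hfs)

/-- From the integers to F. -/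
theorem q10_spl (hp : p.Prime) (hI : (Ideal.span {(p : 𝓞 F)}).IsPrime)
    (h : ∀ W : Pl K, (p : 𝓞 K) ∈ W.asIdeal → W.asIdeal.ramificationIdx ℤ = 1 ∧ Ideal.absNorm W.asIdeal ∣ p ^ 2) :
    Spl F p K := by
  intro W hW
  obtain ⟨he, hf⟩ := h W hW
  have hWp := W.isPrime
  have hWm := W.isMaximal
  have hu := q10_mem hp hI W hW
  have h0 : Ideal.span {(p : 𝓞 F)} ≠ ⊥ := by
    rw [Ne, Ideal.span_singleton_eq_bot]
    exact Nat.cast_ne_zero.2 hp.ne_zero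
  have hm : (Ideal.span {(p : 𝓞 F)}).IsMaximal := hI.isMaximal h0
  have hl : W.asIdeal.LiesOver (Ideal.span {(p : 𝓞 F)}) := ⟨hu.symm⟩
  have e1 : W.asIdeal.ramificationIdx ℤ = (Ideal.span {(p : 𝓞 F)}).ramificationIdx ℤ * W.asIdeal.ramificationIdx (𝓞 F) :=
    Ideal.ramificationIdx_tower (Ideal.span {(p : 𝓞 F)}) W.asIdeal
  rw [he] at e1
  have e2 := Ideal.relNorm_eq_pow_of_isMaximal W.asIdeal (Ideal.span {(p : 𝓞 F)})
  have e3 : Ideal.absNorm W.asIdeal = (p ^ 2) ^ W.asIdeal.inertiaDeg (𝓞 F) := by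
    rw [← Ideal.absNorm_relNorm (𝓞 F), e2, map_pow, Ideal.absNorm_span_natCast, RingOfIntegers.rank F, IQ.deg]
  refine ⟨Nat.eq_one_of_mul_eq_one_left e1.symm, ?_⟩
  rw [e3, ← pow_mul] at hf
  have h3 := (Nat.pow_dvd_pow_iff_le_right hp.one_lt).1 hf
  have h4 : W.asIdeal.inertiaDeg (𝓞 F) ≠ 0 := by
    intro h5
    rw [h5, pow_zero, Ideal.absNorm_eq_one_iff] at e3
    exact hWp.ne_top e3
  omega

end gen

section KG

variable {p : ℕ} {F M : Type} [Field F] [NumberField F] [IQ F] [Field M] [NumberField M]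

theorem q10_unr (hp : p.Prime) {K : Type} [Field K] [NumberField K]
    (h : ∀ W : Pl K, (p : 𝓞 K) ∈ W.asIdeal → W.asIdeal.ramificationIdx ℤ = 1) : ¬ (p : ℤ) ∣ NumberField.discr K := by
  have hpp : Prime (p : ℤ) := Nat.prime_iff_prime_int.1 hp
  rw [NumberField.not_dvd_discr_iff_forall_mem K (𝓞 K) hpp]
  intro P hP h2
  have h2' : (p : 𝓞 K) ∈ P := by exact_mod_cast h2
  have hp0 : (p : 𝓞 K) ≠ 0 := Nat.cast_ne_zero.2 hp.ne_zero
  have hPne : P ≠ ⊥ := by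
    rintro rfl
    rw [Ideal.mem_bot] at h2'
    exact hp0 h2'
  have h3 := h ⟨P, hP, hPne⟩ h2'
  exact Ideal.ramificationIdx_eq_one_iff.1 h3

theorem q10_KG (hp : p.Prime) (h2 : p ≠ 2) (hI : (Ideal.span {(p : 𝓞 F)}).IsPrime)
    (hS : ∀ w : Pl M, (p : 𝓞 M) ∈ w.asIdeal → w.asIdeal.ramificationIdx ℤ = 1 ∧ Ideal.absNorm w.asIdeal ∣ p ^ 2)
    (ι : M →ₐ[ℚ] AlgebraicClosure F) (W : Pl (KG F M ι)) (hW : (p : 𝓞 (KG F M ι)) ∈ W.asIdeal) :
    W.asIdeal.ramificationIdx ℤ = 1 ∧ Ideal.absNorm W.asIdeal ∣ p ^ 2 := by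
  letI i : Algebra M (KG F M ι) := (KGmap F M ι).toAlgebra
  rcases kg_dich F M ι with ⟨f, hf⟩ | hQ
  · letI : Algebra F M := f.toAlgebra
    obtain ⟨θ⟩ := kg_iso F M ι f hf
    let g : M →ₐ[F] KG F M ι :=
      { KGmap F M ι with
        commutes' := fun y => Subtype.ext (hf y) }
    have hsur : Function.Surjective (KGmap F M ι) := by
      have h3 : Function.Injective g.toLinearMap := (KGmap F M ι).injective
      have h4 := (LinearMap.injective_iff_surjective_of_finrank_eq_finrank θ.toLinearEquiv.finrank_eq).1 h3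
      exact h4
    have hG : IsGalois M (KG F M ι) := IsGalois.of_algEquiv
      (AlgEquiv.ofBijective (Algebra.ofId M (KG F M ι)) ⟨(KGmap F M ι).injective, hsur⟩)
    refine q10_gen (F := F) (M := M) hp h2 hI (fun σ hs => ?_) hS W hW
    exfalso
    apply hs
    apply AlgEquiv.ext
    intro x
    obtain ⟨y, rfl⟩ := hsur x
    exact σ.commutes y
  · have hq : Algebra.IsQuadraticExtension M (KG F M ι) := ⟨hQ.rank⟩
    have hn : Normal M (KG F M ι) := Algebra.IsQuadraticExtension.normal M (KG F M ι)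
    have hG : IsGalois M (KG F M ι) := ⟨⟩
    obtain ⟨τ, hτ⟩ := hQ.tau
    have hcard : Nat.card (Gal((KG F M ι)/M)) = 2 := by
      rw [IsGalois.card_aut_eq_finrank, hQ.rank]
    have hτ1 : τ ≠ 1 := by
      intro h
      refine rf_card (F := F) hp h2 fun a => ?_
      have h3 := hτ a
      rw [h] at h3
      have h4 : algebraMap F (KG F M ι) (a : F) = algebraMap F (KG F M ι) ((cj a : 𝓞 F) : F) := h3
      have h5 : (a : F) = ((cj a : 𝓞 F) : F) := (algebraMap F (KG F M ι)).injective h4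
      have h6 : a = cj a := RingOfIntegers.ext h5
      rw [← h6, sub_self]
      exact dvd_zero _
    refine q10_gen (F := F) (M := M) hp h2 hI (fun σ hs x => ?_) hS W hW
    have h3 : σ = τ := by
      obtain ⟨a, b, hab, h4⟩ := Nat.card_eq_two_iff.1 hcard
      have h5 : ∀ c : Gal((KG F M ι)/M), c = a ∨ c = b := by
        intro c
        have h6 : c ∈ ({a, b} : Set (Gal((KG F M ι)/M))) := h4 ▸ Set.mem_univ c
        simpa using h6
      rcases h5 1 with h1 | h1 <;> rcases h5 σ with h7 | h7 <;> rcases h5 τ with h8 | h8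
      · exact absurd (h7.trans h1.symm) hs
      · exact absurd (h7.trans h1.symm) hs
      · exact absurd (h8.trans h1.symm) hτ1
      · exact h7.trans h8.symm
      · exact h7.trans h8.symm
      · exact absurd (h8.trans h1.symm) hτ1
      · exact absurd (h7.trans h1.symm) hs
      · exact absurd (h7.trans h1.symm) hs
    rw [h3]
    exact hτ x

/-- The prime p, inert in F, splits completely in KG over F. -/
theorem q10_main (hp : p.Prime) (h2 : p ≠ 2) (hI : (Ideal.span {(p : 𝓞 F)}).IsPrime)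
    (hS : ∀ w : Pl M, (p : 𝓞 M) ∈ w.asIdeal → w.asIdeal.ramificationIdx ℤ = 1 ∧ Ideal.absNorm w.asIdeal ∣ p ^ 2)
    (ι : M →ₐ[ℚ] AlgebraicClosure F) :
    Spl F p (KG F M ι) ∧ UnrP p (KG F M ι) ∧ UnrP p M :=
  ⟨q10_spl hp hI (q10_KG hp h2 hI hS ι), H55K.TQ.FC2_unr hp (q10_unr hp fun W hW => (q10_KG hp h2 hI hS ι W hW).1),
    H55K.TQ.FC2_unr hp (q10_unr hp fun w hw => (hS w hw).1)⟩

end KG

end H55Z
end

-- from Lib.H55G.E4a
section

/-! # H55G, part E: a point of order p fixed by inertia gives good reduction -/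

open NumberField IsDedekindDomain WeierstrassCurve

namespace H55G

open H55P (IQ embF eF LF Per IsHecke Pt ac Inert Dec Nm)
open H35P (WAB Ker GoodW IntW)
open H55K (CMA ak xc yc cj cj_cj GoodAt Abw)
open H55K.TQ

/-- Chunk E4 (S/M). This is the middle part of the proof of H13R.core_bad (Lib/H13R/C2.lean), for k, W₁, A, B in place of M, W₁, A', B': hd, hΔA, y3_j, hc4', hjj, nos_up (T5.lean; V contains the integers: t8_le), descent (T7B.lean), good_of_V (T9C.lean). -/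
theorem good_nos {k : Type} [Field k] [NumberField k] {Ω : Type} [Field Ω] [DecidableEq Ω] [Algebra k Ω] [IsAlgClosure k Ω]
    (W₁ : WeierstrassCurve (𝓞 k)) (hΔ : W₁.Δ ≠ 0) (hj : ∃ j₀ : 𝓞 k, W₁.c₄ ^ 3 = j₀ * W₁.Δ) {A B : k}
    (hA : A = -(algebraMap (𝓞 k) k W₁.c₄) / 48) (hB : B = -(algebraMap (𝓞 k) k W₁.c₆) / 864) {v : HeightOneSpectrum (𝓞 k)}
    {V : ValuationSubring Ω} (hv : ∀ a : 𝓞 k, a ∈ v.asIdeal → V.valuation (ak Ω a) < 1) {p : ℕ} (hp : p.Prime) (h5 : 5 ≤ p)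
    (hV : V.valuation (p : Ω) = 1) {T : Pt (WAB A B) Ω} (hT : p • T = 0) (h0 : T ≠ 0)
    (hfix : ∀ g : Ω ≃ₐ[k] Ω, Inert V g → ac (WAB A B) g T = T) : GoodAt (W₁⁄k) v := by
  have hd := H55K.y3_ne W₁ hA hB hΔ
  have hΔA : (WAB A B).Δ ≠ 0 := by
    have e : (WAB A B).Δ = -16 * (4 * A ^ 3 + 27 * B ^ 2) := by
      unfold WAB WeierstrassCurve.Δ WeierstrassCurve.b₂ WeierstrassCurve.b₄ WeierstrassCurve.b₆ WeierstrassCurve.b₈
      ring
    rw [e]
    exact mul_ne_zero (by norm_num) hd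
  obtain ⟨j₁, hj₁⟩ := H55K.y3_j W₁ hA hB hj
  have hc4' : (WAB A B).c₄ ^ 3 = (j₁ : k) * (WAB A B).Δ := by
    have e1 : (WAB A B).Δ = -16 * (4 * A ^ 3 + 27 * B ^ 2) := by
      unfold WAB WeierstrassCurve.Δ WeierstrassCurve.b₂ WeierstrassCurve.b₄ WeierstrassCurve.b₆ WeierstrassCurve.b₈
      ring
    have e2 : (WAB A B).c₄ = -48 * A := by
      unfold WAB WeierstrassCurve.c₄ WeierstrassCurve.b₂ WeierstrassCurve.b₄
      ring
    rw [e1, e2]
    linear_combination (16 : k) * hj₁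
  have hjj : ((WAB A B)⁄Ω).c₄ ^ 3 = ak Ω j₁ * ((WAB A B)⁄Ω).Δ := by
    have e1 : ((WAB A B)⁄Ω).c₄ = algebraMap k Ω (WAB A B).c₄ := WeierstrassCurve.map_c₄ _ _
    have e2 : ((WAB A B)⁄Ω).Δ = algebraMap k Ω (WAB A B).Δ := WeierstrassCurve.map_Δ _ _
    rw [e1, e2, ← map_pow, hc4', map_mul]
  have : IsAlgClosed Ω := IsAlgClosure.isAlgClosed k
  have hdes := H55K.TQ.descent hv
    (H55K.TQ.nos_up hΔA (H55K.TQ.t8_le V j₁) hjj hp h5 hV hT h0 hfix)
  exact H55K.TQ.good_of_V W₁ hA hB v hv hdes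

end H55G
end

-- from Lib.H55G.E5
section

/-! # H55G, part E: inertia acts trivially at primes of good reduction -/

open NumberField IsDedekindDomain WeierstrassCurve

namespace H55G

open H55P (IQ embF eF LF Per IsHecke Pt ac Inert Dec Nm)
open H35P (WAB Ker GoodW IntW)
open H55K (CMA Tor TN ak xc yc cj cj_cj mul_cj Nm_cj Nm_mul Nm_nat acr xc_acr yc_acr acr_zero_iff acr_inj acr_eq_ac acr_trans GoodAt Abw)
open H55K.MG (VC Crd)
open H55K.TQ

/-- Helper: the statement for a curve over k. -/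
theorem e5_fix {k : Type} [Field k] [NumberField k] {Ω : Type} [Field Ω] [DecidableEq Ω] [Algebra k Ω] {A₀ B₀ : k}
    (hΔ : (WAB A₀ B₀).Δ ≠ 0) {V : ValuationSubring Ω} (E : WeierstrassCurve Ω) (hE : E = (WAB A₀ B₀)⁄Ω)
    (hG : GMd E V (Set.range (algebraMap k Ω))) (g : Ω ≃ₐ[k] Ω) (hg : ∀ x ∈ V, V.valuation (g x - x) < 1) {n : ℕ}
    (hn : V.valuation (n : Ω) = 1) (T : E.toAffine.Point) (hT : n • T = 0) : g (xc T) = xc T ∧ g (yc T) = yc T := by
  subst hE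
  have h0 : ac (WAB A₀ B₀) g T = T := inert_triv hΔ hG g (by
    rintro _ ⟨x, rfl⟩
    exact g.commutes x) hg n hn T hT
  have h1 := H55K.MG.ac_crd g T
  rw [h0] at h1
  exact ⟨h1.1.symm, h1.2.1.symm⟩

/-- Chunk E5 (M). Let A₀, B₀ be the rational numbers -c₄/48, -c₆/864: (WAB A₀ B₀)⁄Ω = (WAB A B)⁄Ω (cf. rf_fix, hram_of in H55K/RF.lean). Ω is a ℚ-algebra and s is ℚ-linear. GMd ((WAB A₀ B₀)⁄Ω) V (range of algebraMap k Ω): vck_Z composed with C, gc_good, as in exists_GD (D2.lean; exists_GD gives u, r, s, t in k, but only the statement on the points;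
repeat its first part: VC ((WAB A B)⁄Ω) ((C • (W⁄k))⁄Ω) with coefficients in the image of k). H55K.TQ.inert_triv (T1.lean) for F = ℚ, W = WAB A₀ B₀, the set M = range (algebraMap k Ω), fixed by s, and the point T transported to Pt (WAB A₀ B₀) Ω (equal curves: generalize the curve and subst, as rf_fix does with E, hE); coordinates: MG.ac_crd. -/
theorem inert_trivZ {F : Type} [Field F] [NumberField F] [IQ F] {W : WeierstrassCurve ℤ} (hΔ : W.Δ ≠ 0) {A B : F} (hS : Sh (W⁄(𝓞 F)) A B)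
    {k : Type} [Field k] [NumberField k] {Ω : Type} [Field Ω] [DecidableEq Ω] [Algebra F Ω] [Algebra k Ω]
    {w : HeightOneSpectrum (𝓞 k)} (hg : GoodAt (W⁄k) w) {V : ValuationSubring Ω} (hV : Abw V w) (s : Ω ≃+* Ω)
    (hs : ∀ x : k, s (algebraMap k Ω x) = algebraMap k Ω x) (hI : ∀ x ∈ V, V.valuation (s x - x) < 1) {n : ℕ}
    (hn : V.valuation (n : Ω) = 1) {T : Pt (WAB A B) Ω} (hT : n • T = 0) : s (xc T) = xc T ∧ s (yc T) = yc T := by
  have hc4 : (W⁄k).c₄ = (W.c₄ : k) := W.map_c₄ _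
  have hc6 : (W⁄k).c₆ = (W.c₆ : k) := W.map_c₆ _
  have hc4F : algebraMap (𝓞 F) F (W⁄(𝓞 F)).c₄ = (W.c₄ : F) := by
    have e1 : (W⁄(𝓞 F)).c₄ = algebraMap ℤ (𝓞 F) W.c₄ := W.map_c₄ _
    rw [e1]
    simp
  have hc6F : algebraMap (𝓞 F) F (W⁄(𝓞 F)).c₆ = (W.c₆ : F) := by
    have e1 : (W⁄(𝓞 F)).c₆ = algebraMap ℤ (𝓞 F) W.c₆ := W.map_c₆ _
    rw [e1]
    simp
  obtain ⟨A₀, hA₀⟩ : ∃ A₀ : k, A₀ = -(W⁄k).c₄ / 48 := ⟨_, rfl⟩
  obtain ⟨B₀, hB₀⟩ : ∃ B₀ : k, B₀ = -(W⁄k).c₆ / 864 := ⟨_, rfl⟩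
  have eA : algebraMap F Ω A = algebraMap k Ω A₀ := by
    rw [hS.hA, hA₀, hc4, hc4F, map_div₀, map_div₀, map_neg, map_neg, map_intCast, map_intCast, map_ofNat, map_ofNat]
  have eB : algebraMap F Ω B = algebraMap k Ω B₀ := by
    rw [hS.hB, hB₀, hc6, hc6F, map_div₀, map_div₀, map_neg, map_neg, map_intCast, map_intCast, map_ofNat, map_ofNat]
  have hE : (WAB A B)⁄Ω = (WAB A₀ B₀)⁄Ω := by
    ext <;> simp [WAB, WeierstrassCurve.map, WeierstrassCurve.baseChange, eA, eB]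
  have hΔ₀ : (WAB A₀ B₀).Δ ≠ 0 := by
    have h1 := (W⁄k).c_relation
    have h2 : (WAB A₀ B₀).Δ = -16 * (4 * A₀ ^ 3 + 27 * B₀ ^ 2) := by
      simp only [WAB, WeierstrassCurve.Δ, WeierstrassCurve.b₂, WeierstrassCurve.b₄, WeierstrassCurve.b₆, WeierstrassCurve.b₈]
      ring
    have h3 : (WAB A₀ B₀).Δ = (W⁄k).Δ := by
      rw [h2, hA₀, hB₀]
      linear_combination (-1 / 1728 : k) * h1
    have h4 : (W⁄k).Δ = (W.Δ : k) := W.map_Δ _
    rw [h3, h4]
    exact_mod_cast hΔ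
  obtain ⟨C, hC⟩ := (good_iff (W⁄k) w).1 hg
  obtain ⟨u₁, r₁, s₁, t₁, hvc⟩ := vck_Z (k := k) (Ω := Ω) hS
  have hG : GMd ((WAB A B)⁄Ω) V (Set.range (algebraMap k Ω)) := by
    have hcomp := vc_comp hvc (vc_map (algebraMap k Ω) (vc_smul (W⁄k) C))
    have hm : ∀ x : k, algebraMap k Ω x ∈ (algebraMap k Ω).fieldRange := fun x => ⟨x, rfl⟩
    refine ⟨_, _, _, _, _, ?_, ?_, ?_, ?_, hcomp, gc_good hV hC⟩
    · exact mul_mem (hm _) (hm _)
    · exact add_mem (mul_mem (pow_mem (hm _) 2) (hm _)) (hm _)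
    · exact add_mem (mul_mem (hm _) (hm _)) (hm _)
    · exact add_mem (add_mem (mul_mem (pow_mem (hm _) 3) (hm _))
        (mul_mem (mul_mem (hm _) (pow_mem (hm _) 2)) (hm _))) (hm _)
  exact e5_fix hΔ₀ ((WAB A B)⁄Ω) hE hG (AlgEquiv.ofRingEquiv (f := s) hs) hI hn T hT

end H55G
end

-- from Lib.H55G.E4b
section

/-! # H55G, part E: a point of order p fixed by inertia gives good reduction -/

open NumberField IsDedekindDomain WeierstrassCurve

namespace H55G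

open H55P (IQ embF eF LF Per IsHecke Pt ac Inert Dec Nm)
open H35P (WAB Ker GoodW IntW)
open H55K (CMA ak xc yc cj cj_cj GoodAt Abw)
open H55K.TQ

theorem e4b_c {F : Type} [Field F] (n : ℤ) {Ω : Type} [Field Ω] [Algebra F Ω] (m : ℤ) [NumberField F]
    (c : 𝓞 F) (hc : c = algebraMap ℤ (𝓞 F) n) :
    algebraMap F Ω (-(algebraMap (𝓞 F) F c) / (m : F)) = -(n : Ω) / (m : Ω) := by
  have h1 : algebraMap (𝓞 F) F c = (n : F) := by
    rw [hc, eq_intCast, map_intCast]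
  rw [h1, map_div₀, map_neg, map_intCast, map_intCast]

/-- Chunk E4 (S/M). good_nos for W₁ = W⁄(𝓞 k), A' = -c₄/48, B' = -c₆/864 in k: (WAB A' B')⁄Ω = (WAB A B)⁄Ω (both have the coefficients -c₄/48, -c₆/864, images of rational numbers), H13R.c2_tr transports T; the hypothesis on coordinates gives ac g T' = T' (MG.ac_crd, pt_ext as in core_bad). ((W⁄(𝓞 k))⁄k = W⁄k: map_map.) j: H55K.TQ.jint_Z or hj mapped to 𝓞 k. -/
theorem good_nosZ {F : Type} [Field F] [NumberField F] {W : WeierstrassCurve ℤ} (hΔ : W.Δ ≠ 0)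
    (hj : ∃ j₀ : ℤ, W.c₄ ^ 3 = j₀ * W.Δ) {A B : F} (hS : Sh (W⁄(𝓞 F)) A B) {k : Type} [Field k] [NumberField k]
    {Ω : Type} [Field Ω] [DecidableEq Ω] [Algebra F Ω] [Algebra k Ω] [IsAlgClosure k Ω] {v : HeightOneSpectrum (𝓞 k)}
    {V : ValuationSubring Ω} (hv : ∀ a : 𝓞 k, a ∈ v.asIdeal → V.valuation (ak Ω a) < 1) {p : ℕ} (hp : p.Prime) (h5 : 5 ≤ p)
    (hV : V.valuation (p : Ω) = 1) {T : Pt (WAB A B) Ω} (hT : p • T = 0) (h0 : T ≠ 0)
    (hfix : ∀ g : Ω ≃ₐ[k] Ω, Inert V g → g (xc T) = xc T ∧ g (yc T) = yc T) : GoodAt (W⁄k) v := by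
  obtain ⟨W₁, hW₁⟩ : ∃ W₁ : WeierstrassCurve (𝓞 k), W₁ = W.map (algebraMap ℤ (𝓞 k)) := ⟨_, rfl⟩
  obtain ⟨A', hA1⟩ : ∃ A' : k, A' = -(algebraMap (𝓞 k) k W₁.c₄) / 48 := ⟨_, rfl⟩
  obtain ⟨B', hB1⟩ : ∃ B' : k, B' = -(algebraMap (𝓞 k) k W₁.c₆) / 864 := ⟨_, rfl⟩
  have hW1Δ : W₁.Δ = algebraMap ℤ (𝓞 k) W.Δ := by
    rw [hW₁, WeierstrassCurve.map_Δ]
  have hW1c : W₁.c₄ = algebraMap ℤ (𝓞 k) W.c₄ := by
    rw [hW₁, WeierstrassCurve.map_c₄]
  have hW1c6 : W₁.c₆ = algebraMap ℤ (𝓞 k) W.c₆ := by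
    rw [hW₁, WeierstrassCurve.map_c₆]
  have hΔ1 : W₁.Δ ≠ 0 := by
    rw [hW1Δ, eq_intCast]
    exact_mod_cast hΔ
  have f4 : (W⁄(𝓞 F)).c₄ = algebraMap ℤ (𝓞 F) W.c₄ := WeierstrassCurve.map_c₄ _ _
  have f6 : (W⁄(𝓞 F)).c₆ = algebraMap ℤ (𝓞 F) W.c₆ := WeierstrassCurve.map_c₆ _ _
  have hcur : (WAB A B)⁄Ω = (WAB A' B')⁄Ω := by
    have e1 : algebraMap k Ω A' = algebraMap F Ω A := by
      have a1 := e4b_c (Ω := Ω) W.c₄ 48 _ f4
      have a2 := e4b_c (Ω := Ω) W.c₄ 48 _ hW1c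
      rw [Int.cast_ofNat, Int.cast_ofNat] at a1 a2
      rw [hS.hA, hA1, a1, a2]
    have e2 : algebraMap k Ω B' = algebraMap F Ω B := by
      have a1 := e4b_c (Ω := Ω) W.c₆ 864 _ f6
      have a2 := e4b_c (Ω := Ω) W.c₆ 864 _ hW1c6
      rw [Int.cast_ofNat, Int.cast_ofNat] at a1 a2
      rw [hS.hB, hB1, a1, a2]
    apply WeierstrassCurve.ext
    · change algebraMap F Ω 0 = algebraMap k Ω 0
      rw [map_zero, map_zero]
    · change algebraMap F Ω 0 = algebraMap k Ω 0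
      rw [map_zero, map_zero]
    · change algebraMap F Ω 0 = algebraMap k Ω 0
      rw [map_zero, map_zero]
    · exact e1.symm
    · exact e2.symm
  obtain ⟨T', hT', h0', hx', hy'⟩ := H13R.c2_tr hcur hT h0
  have hfix' : ∀ g : Ω ≃ₐ[k] Ω, Inert V g → ac (WAB A' B') g T' = T' := by
    intro g hg
    obtain ⟨b1, b2, b3⟩ := H55K.MG.ac_crd (W := WAB A' B') g T'
    obtain ⟨a1, a2⟩ := hfix g hg
    refine H55K.pt_ext (fun h => h0' (b3.1 h)) h0' ?_ ?_
    · rw [b1, hx']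
      exact a1
    · rw [b2, hy']
      exact a2
  have hj' : ∃ j₀ : 𝓞 k, W₁.c₄ ^ 3 = j₀ * W₁.Δ := by
    obtain ⟨j₀, hj₀⟩ := hj
    refine ⟨algebraMap ℤ (𝓞 k) j₀, ?_⟩
    rw [hW1c, hW1Δ, ← map_pow, hj₀, map_mul]
  have hgood := good_nos W₁ hΔ1 hj' hA1 hB1 hv hp h5 hV hT' h0' hfix'
  have hcur2 : W₁⁄k = W⁄k := by
    rw [hW₁]
    change (W.map (algebraMap ℤ (𝓞 k))).map (algebraMap (𝓞 k) k) = W.map (algebraMap ℤ k)
    rw [WeierstrassCurve.map_map]
    congr 1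
  rwa [hcur2] at hgood

/-- Chunk E4 (S). Local form of H13R.core_bad: the proof of core_bad, ending with hgood. -/
theorem core_good {F : Type} [Field F] [NumberField F] {W₀ : WeierstrassCurve (𝓞 F)} {p : ℕ} (hΔ0 : W₀.Δ ≠ 0)
    (hj : ∃ j₀ : 𝓞 F, W₀.c₄ ^ 3 = j₀ * W₀.Δ) (hp : p.Prime) (h5 : 5 ≤ p) {A B : F} (hS : Sh W₀ A B)
    (M : IntermediateField F (AlgebraicClosure F)) [NumberField M] [DecidableEq (AlgebraicClosure F)]
    {v : HeightOneSpectrum (𝓞 M)} {V : ValuationSubring (AlgebraicClosure F)}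
    (hv : ∀ a : 𝓞 M, a ∈ v.asIdeal → V.valuation ((a : M) : AlgebraicClosure F) < 1)
    (hV : V.valuation (p : AlgebraicClosure F) = 1) {T : Pt (WAB A B) (AlgebraicClosure F)} (hT : p • T = 0) (h0 : T ≠ 0)
    (hfix : ∀ g ∈ M.fixingSubgroup, Inert V g → ac (WAB A B) g T = T) : GoodAt ((W₀⁄F)⁄M) v := by
  have hA := hS.hA
  have hB' := hS.hB
  have halg : Algebra.IsAlgebraic M (AlgebraicClosure F) := Algebra.IsAlgebraic.tower_top (K := F) M
  have hcl : IsAlgClosure M (AlgebraicClosure F) := ⟨inferInstance, halg⟩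
  obtain ⟨W₁, hW₁⟩ : ∃ W₁ : WeierstrassCurve (𝓞 M), W₁ = W₀.map (algebraMap (𝓞 F) (𝓞 M)) := ⟨_, rfl⟩
  obtain ⟨A', hA'⟩ : ∃ A' : M, A' = algebraMap F M A := ⟨_, rfl⟩
  obtain ⟨B', hB''⟩ : ∃ B' : M, B' = algebraMap F M B := ⟨_, rfl⟩
  have hc4 : algebraMap (𝓞 M) M W₁.c₄ = algebraMap F M (algebraMap (𝓞 F) F W₀.c₄) := by
    rw [hW₁, WeierstrassCurve.map_c₄, ← IsScalarTower.algebraMap_apply, ← IsScalarTower.algebraMap_apply]
  have hc6 : algebraMap (𝓞 M) M W₁.c₆ = algebraMap F M (algebraMap (𝓞 F) F W₀.c₆) := by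
    rw [hW₁, WeierstrassCurve.map_c₆, ← IsScalarTower.algebraMap_apply, ← IsScalarTower.algebraMap_apply]
  have hA1 : A' = -(algebraMap (𝓞 M) M W₁.c₄) / 48 := by
    rw [hc4, hA', hA, map_div₀, map_neg, map_ofNat]
  have hB1 : B' = -(algebraMap (𝓞 M) M W₁.c₆) / 864 := by
    rw [hc6, hB'', hB', map_div₀, map_neg, map_ofNat]
  have hW1Δ : W₁.Δ = algebraMap (𝓞 F) (𝓞 M) W₀.Δ := by
    rw [hW₁, WeierstrassCurve.map_Δ]
  have hW1c : W₁.c₄ = algebraMap (𝓞 F) (𝓞 M) W₀.c₄ := by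
    rw [hW₁, WeierstrassCurve.map_c₄]
  have hΔ1 : W₁.Δ ≠ 0 := by
    rw [hW1Δ]
    exact (map_ne_zero_iff _ (FaithfulSMul.algebraMap_injective (𝓞 F) (𝓞 M))).2 hΔ0
  have hcur : (WAB A B)⁄(AlgebraicClosure F) = (WAB A' B')⁄(AlgebraicClosure F) := by
    have e1 : algebraMap M (AlgebraicClosure F) A' = algebraMap F (AlgebraicClosure F) A := by
      rw [hA', ← IsScalarTower.algebraMap_apply]
    have e2 : algebraMap M (AlgebraicClosure F) B' = algebraMap F (AlgebraicClosure F) B := by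
      rw [hB'', ← IsScalarTower.algebraMap_apply]
    apply WeierstrassCurve.ext
    · change algebraMap F (AlgebraicClosure F) 0 = algebraMap M (AlgebraicClosure F) 0
      rw [map_zero, map_zero]
    · change algebraMap F (AlgebraicClosure F) 0 = algebraMap M (AlgebraicClosure F) 0
      rw [map_zero, map_zero]
    · change algebraMap F (AlgebraicClosure F) 0 = algebraMap M (AlgebraicClosure F) 0
      rw [map_zero, map_zero]
    · exact e1.symm
    · exact e2.symm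
  obtain ⟨T', hT', h0', hx', hy'⟩ := H13R.c2_tr hcur hT h0
  have hfix' : ∀ g : AlgebraicClosure F ≃ₐ[M] AlgebraicClosure F, Inert V g → ac (WAB A' B') g T' = T' := by
    intro g hg
    have h1 : g.restrictScalars F ∈ M.fixingSubgroup := by
      rw [IntermediateField.mem_fixingSubgroup_iff]
      intro x hx
      exact g.commutes ⟨x, hx⟩
    have h2 : Inert V (g.restrictScalars F) := fun x hx => hg x hx
    have h3 := hfix _ h1 h2
    obtain ⟨a1, a2, -⟩ := H55K.MG.ac_crd (W := WAB A B) (g.restrictScalars F) T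
    obtain ⟨b1, b2, b3⟩ := H55K.MG.ac_crd (W := WAB A' B') g T'
    rw [h3] at a1 a2
    refine H55K.pt_ext (fun h => h0' (b3.1 h)) h0' ?_ ?_
    · rw [b1, hx']
      exact a1.symm
    · rw [b2, hy']
      exact a2.symm
  have hj' : ∃ j₀ : 𝓞 M, W₁.c₄ ^ 3 = j₀ * W₁.Δ := by
    obtain ⟨j₀, hj₀⟩ := hj
    refine ⟨algebraMap (𝓞 F) (𝓞 M) j₀, ?_⟩
    rw [hW1c, hW1Δ, ← map_pow, hj₀, map_mul]
  have hv' : ∀ a : 𝓞 M, a ∈ v.asIdeal → V.valuation (ak (AlgebraicClosure F) a) < 1 := hv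
  have hgood := good_nos W₁ hΔ1 hj' hA1 hB1 hv' hp h5 hV hT' h0' hfix'
  have hcur2 : W₁⁄M = (W₀⁄F)⁄M := by
    rw [hW₁]
    change (W₀.map (algebraMap (𝓞 F) (𝓞 M))).map (algebraMap (𝓞 M) M) = (W₀.map (algebraMap (𝓞 F) F)).map (algebraMap F M)
    rw [WeierstrassCurve.map_map, WeierstrassCurve.map_map, ← IsScalarTower.algebraMap_eq, ← IsScalarTower.algebraMap_eq]
  rwa [hcur2] at hgood

end H55G
end

-- from Lib.H55G.E6a
section

/-! # H55G, part E: good reduction in the quadratic extension -/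

open NumberField IsDedekindDomain WeierstrassCurve

namespace H55G

open H55P (IQ embF eF LF Per IsHecke Pt ac Inert Dec Nm)
open H35P (WAB Ker GoodW IntW)
open H55K (CMA Tor TN ak xc yc cj cj_cj mul_cj Nm_cj Nm_mul Nm_nat acr xc_acr yc_acr acr_zero_iff acr_inj acr_eq_ac acr_trans GoodAt Abw)
open H55K.MG (VC Crd)
open H55K.TQ

variable {F K₀ K : Type} [Field F] [NumberField F] [IQ F] [Field K₀] [NumberField K₀] [Field K] [NumberField K]
  [Algebra F K] [Algebra K₀ K] {τ : K ≃ₐ[K₀] K} {W : WeierstrassCurve ℤ} {Om : ℂ} {m : Ideal (𝓞 F)}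
  {ψ : Ideal (𝓞 F) →*₀ 𝓞 F} {w : HeightOneSpectrum (𝓞 K)} {v : HeightOneSpectrum (𝓞 K₀)}

/-- Chunk E6A (M). Ω = AlgebraicClosure K (algebras over F, K₀, K; scalar towers; algebraic over each of them, so IsAlgClosure K₀ Ω), classical decidability; A, B, j, act from setup; V above w (exists_abw), so above v (Abw.below, K0A.lean). p in {5, 7} with V(p) = 1 (V(5) < 1 and V(7) < 1 would give V(1) = V(3 · 5 - 2 · 7) < 1). T ≠ 0 with p • T = 0 (H13R.c3_point). good_nosZ for k = K₀: let s : Ω ≃ₐ[K₀] Ω with Inert V s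
(for x in V: V(s x - x) < 1). g_cases (E3.lean): s is the identity or τ on K; in the second case τ • x - x is in w for all x in 𝓞 K (x in V; hV.lt; RingOfIntegers coe), against hnr. So s fixes K, and inert_trivZ for k = K, w (hg), n = p. jint: H55K.TQ.jint_Z (FB3C.lean). W.Δ ≠ 0: hH.data.ell. -/
theorem good_desc (hH : BaseH F (W⁄(𝓞 F)) Om m ψ) (hτ : QT F K₀ K τ) (hv : v.asIdeal = w.asIdeal.under (𝓞 K₀))
    (hnr : ∃ x : 𝓞 K, τ • x - x ∉ w.asIdeal) (hg : GoodAt (W⁄K) w) : GoodAt (W⁄K₀) v := by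
  classical
  have hFK : Module.Finite F K := Module.Finite.of_restrictScalars_finite ℚ F K
  have hKK : Module.Finite K₀ K := Module.Finite.of_restrictScalars_finite ℚ K₀ K
  have hFa : Algebra.IsAlgebraic F (AlgebraicClosure K) := Algebra.IsAlgebraic.trans F K (AlgebraicClosure K)
  have hKa : Algebra.IsAlgebraic K₀ (AlgebraicClosure K) := Algebra.IsAlgebraic.trans K₀ K (AlgebraicClosure K)
  have hcl : IsAlgClosure K₀ (AlgebraicClosure K) := ⟨inferInstance, hKa⟩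
  obtain ⟨A, B, j, act, hS, -, hact⟩ := setup hH (AlgebraicClosure K)
  obtain ⟨V, hV⟩ := H55K.exists_abw (AlgebraicClosure K) w
  have hVv : Abw V v := hV.below (v := v) (HeightOneSpectrum.ext hv.symm)
  have hn : ∀ n : ℕ, V.valuation ((n : ℕ) : AlgebraicClosure K) ≤ 1 := fun n =>
    (V.valuation_le_one_iff _).2 (natCast_mem V n)
  obtain ⟨p, hp, h5, hVp⟩ : ∃ p : ℕ, p.Prime ∧ 5 ≤ p ∧ V.valuation ((p : ℕ) : AlgebraicClosure K) = 1 := by
    by_cases h : V.valuation ((5 : ℕ) : AlgebraicClosure K) = 1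
    · exact ⟨5, by norm_num, le_rfl, h⟩
    · refine ⟨7, by norm_num, by norm_num, ?_⟩
      by_contra h7
      have h5' := lt_of_le_of_ne (hn 5) h
      have h7' := lt_of_le_of_ne (hn 7) h7
      have e : (1 : AlgebraicClosure K) = ((3 : ℕ) : AlgebraicClosure K) * ((5 : ℕ) : AlgebraicClosure K) -
          ((2 : ℕ) : AlgebraicClosure K) * ((7 : ℕ) : AlgebraicClosure K) := by
        push_cast
        norm_num
      have h1 : V.valuation (1 : AlgebraicClosure K) < 1 := by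
        rw [e]
        refine lt_of_le_of_lt (V.valuation.map_sub _ _) (max_lt ?_ ?_)
        · rw [map_mul]
          exact lt_of_le_of_lt (mul_le_of_le_one_left' (hn 3)) h5'
        · rw [map_mul]
          exact lt_of_le_of_lt (mul_le_of_le_one_left' (hn 2)) h7'
      rw [map_one] at h1
      exact lt_irrefl _ h1
  obtain ⟨T, hT, hT0⟩ := H13R.c3_point hact hp
  have hΔ : W.Δ ≠ 0 := by
    intro h0
    apply hH.data.ell
    show (W.map (algebraMap ℤ (𝓞 F))).Δ = 0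
    rw [WeierstrassCurve.map_Δ, h0, map_zero]
  refine good_nosZ hΔ (jint_Z hH) hS (k := K₀) (v := v) (V := V) (fun a ha => ?_) hp h5 hVp hT hT0 ?_
  · exact (hVv.lt (a : K₀)).2 ((v.valuation_lt_one_iff_mem a).2 ha)
  · intro s hs
    rcases g_cases hτ (s : AlgebraicClosure K ≃+* AlgebraicClosure K) (fun x => s.commutes x) with h1 | h1
    · exact inert_trivZ hΔ hS hg hV (s : AlgebraicClosure K ≃+* AlgebraicClosure K) h1 hs hVp hT
    · exfalso
      obtain ⟨x, hx⟩ := hnr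
      apply hx
      have hxV : algebraMap K (AlgebraicClosure K) (x : K) ∈ V := (V.valuation_le_one_iff _).1 (H55K.k0_int V x)
      have h2 := hs _ hxV
      have h3 : s (algebraMap K (AlgebraicClosure K) (x : K)) = algebraMap K (AlgebraicClosure K) (τ (x : K)) := h1 (x : K)
      rw [h3, ← map_sub, hV.lt] at h2
      have h4 : τ (x : K) - (x : K) = ((τ • x - x : 𝓞 K) : K) := rfl
      rw [h4] at h2
      exact (w.valuation_lt_one_iff_mem _).1 h2

end H55G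
end
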