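import Mathlib
import Pool.Agent.Lib.H1M.PP2.D_H16C_Stm
import Pool.Agent.Lib.H1M.PP2.D_H28T_XMain
import Pool.Agent.Lib.H1M.PP2.D_H55P_SD
import Pool.Agent.Lib.H1M.PP2.D_H55P_Stm
import Pool.Agent.Lib.H1M.PP2.M154
import Pool.Agent.Lib.H1M.PP2.M162

/-! # H19A: statement of the theorem on supersingular cyclotomic towers (MP_f50388_nt, theorem (A)) -/

open NumberField IsDedekindDomain WeierstrassCurve

namespace H19A

open H55P (IQ)
open H55K (GoodAt)
open H55K.TQ

/-- The prime number p is inert in F. -/
def InertQ (F : Type) [Field F] [NumberField F] (p : ℕ) : Prop := (Ideal.span {(p : 𝓞 F)}).IsPrime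

/-- The completions of M above p are contained in the unramified quadratic extension of the p-adic numbers (for p inert in F: p splits
completely in FM/F). -/
def SplitM (p : ℕ) (M : Type) [Field M] [NumberField M] : Prop :=
  ∀ w : HeightOneSpectrum (𝓞 M), (p : 𝓞 M) ∈ w.asIdeal → w.asIdeal.ramificationIdx ℤ = 1 ∧ Ideal.absNorm w.asIdeal ∣ p ^ 2

/-- K is the n-th layer of the cyclotomic extension of M with group the p-adic integers (p unramified in M): K has degree p^n over M and is
isomorphic over M to a subfield of the field of the p^(n+1)-th roots of unity over M. -/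
def Layer (p n : ℕ) (M K : Type) [Field M] [NumberField M] [Field K] [Algebra M K] : Prop :=
  Module.finrank M K = p ^ n ∧ Nonempty (K →ₐ[M] CyclotomicField (p ^ (n + 1)) M)

/-- The p-primary part of the Tate-Shafarevich group of W over K. -/
def ShaP (p : ℕ) (K : Type) [Field K] [NumberField K] (W : WeierstrassCurve K) : Type _ :=
  {z : H16C.Sha W.toAffine (AlgebraicClosure K) // ∃ k : ℕ, (p ^ k : ℕ) • z = 0}

/-- J_1 + ... + J_n with J_k the integral part of p^k/(p+1). -/
def JS (p n : ℕ) : ℕ := ∑ k ∈ Finset.range n, p ^ (k + 1) / (p + 1)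

open Classical in
/-- The conclusions over the n-th layer K: the group of points is finite of order prime to p; the p-primary part of the Tate-Shafarevich
group has order p^([M:ℚ](J_1 + ... + J_n)); the L-series of W over K (Mathlib: WeierstrassCurve.LSeries) converges absolutely for Re s > 3/2,
continues to Re s > 1/2, does not vanish at 1, and the analytic order of the Tate-Shafarevich group has the valuation of the order of the
p-primary part of the Tate-Shafarevich group, for all valuations above p. -/
structure AtLayer (p n : ℕ) (W : WeierstrassCurve ℤ) (M K : Type) [Field M] [NumberField M] [Field K] [NumberField K] : Prop where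
  pts : Finite (W⁄K).toAffine.Point ∧ ¬ p ∣ Nat.card (W⁄K).toAffine.Point
  sha : Finite (ShaP p K (W⁄K)) ∧ Nat.card (ShaP p K (W⁄K)) = p ^ (Module.finrank ℚ M * JS p n)
  per : ∃ L : PeriodPair, PerZ W L
  bsd : ∃ Λ : ℂ → ℂ, AnalyticOnNhd ℂ Λ {s | 1 / 2 < s.re} ∧
    (∀ s : ℂ, 3 / 2 < s.re →
      LSeriesSummable (fun n => (((W⁄K).LFunction n : ℤ) : ℂ)) s ∧ Λ s = (W⁄K).LSeries s) ∧
    Λ 1 ≠ 0 ∧
    ∀ L : PeriodPair, PerZ W L → ∀ V : ValuationSubring ℂ, V.valuation (p : ℂ) < 1 →
      V.valuation (shaG K W L (Λ 1)) = V.valuation ((Nat.card (ShaP p K (W⁄K)) : ℕ) : ℂ)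

/-- Every layer exists. -/
def LayerEx (p : ℕ) : Prop :=
  ∀ (M : Type) [Field M] [NumberField M], SplitM p M → ∀ n : ℕ,
    ∃ (K : Type) (_ : Field K) (_ : NumberField K) (_ : Algebra M K), Layer p n M K

end H19A
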