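import Mathlib
import Pool.Agent.Lib.H1M.PP2.M005
import Pool.Agent.Lib.H1M.PP2.M029
import Pool.Agent.Lib.H1M.PP2.M031
import Pool.Agent.Lib.H1M.PP2.M073
import Pool.Agent.Lib.H1M.PP2.M075
import Pool.Agent.Lib.H1M.PP2.M079
import Pool.Agent.Lib.H1M.PP2.M081
import Pool.Agent.Lib.H1M.PP2.M118
import Pool.Agent.Lib.H1M.PP2.M119
import Pool.Agent.Lib.H1M.PP2.M124

/-! Merged copies (to shorten the build) of Lib.H55Z.Q2, Lib.H55Z.Q3, Lib.H55Z.Q5, Lib.H55Z.Q6, Lib.SSG.S.S3. -/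

-- from Lib.H55Z.Q2
section

/-! # H55Z, part Q: Frobenius elements of a layer -/

open NumberField IsDedekindDomain
open scoped Pointwise

namespace H55Z

open H55R

variable {p : ℕ} [hp : Fact p.Prime] {n : ℕ} {K N : Type} [Field K] [NumberField K] [Field N] [NumberField N] [Algebra K N]

theorem q2_ab (h : Layer p n K N) : IsAbelianGalois K N := by
  have := p3_ne (p := p) n
  have h1 : IsCyclotomicExtension {p ^ (n + 1)} K (CyclotomicField (p ^ (n + 1)) N) := q1_cyc h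
  have h2 : IsAbelianGalois K (CyclotomicField (p ^ (n + 1)) N) :=
    IsCyclotomicExtension.isAbelianGalois {p ^ (n + 1)} K _
  exact IsAbelianGalois.tower_bot K N (CyclotomicField (p ^ (n + 1)) N)


section

variable {L : Type} [Field L] [NumberField L] [Algebra N L] [Algebra K L] [IsScalarTower K N L]

theorem q2_pow {ζ : L} (σ : Gal(L/K)) {q : ℕ} (hσ : σ ζ = ζ ^ q) (k : ℕ) : (σ ^ k) ζ = ζ ^ q ^ k := by
  induction k with
  | zero => simp
  | succ k ih =>
    rw [pow_succ' σ]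
    show σ ((σ ^ k) ζ) = _
    rw [ih, map_pow, hσ, ← pow_mul, pow_succ']

theorem q2_one {m : ℕ} [NeZero m] {ζ : L} (hζ : IsPrimitiveRoot ζ m) (hL : Algebra.adjoin K {ζ} = ⊤) (σ : Gal(L/K)) {q : ℕ}
    (hσ : σ ζ = ζ ^ q) (k : ℕ) : σ ^ k = 1 ↔ ((q : ℕ) : ZMod m) ^ k = 1 := by
  have h1 : σ ^ k = 1 ↔ (σ ^ k) ζ = ζ := by
    constructor
    · intro h
      rw [h]
      rfl
    · intro h
      have h2 : ((σ ^ k : Gal(L/K)) : L →ₐ[K] L) = ((1 : Gal(L/K)) : L →ₐ[K] L) := by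
        apply AlgHom.ext_of_adjoin_eq_top hL
        rintro _ rfl
        exact h
      apply AlgEquiv.ext
      intro x
      exact DFunLike.congr_fun h2 x
  rw [h1, q2_pow σ hσ, ← Nat.cast_pow]
  have h3 : ((q ^ k : ℕ) : ZMod m) = 1 ↔ q ^ k ≡ 1 [MOD m] := by
    rw [← ZMod.natCast_eq_natCast_iff, Nat.cast_one]
  rw [h3]
  constructor
  · intro h
    have h4 : ζ ^ q ^ k = ζ ^ 1 := by rw [h, pow_one]
    have h5 : IsOfFinOrder ζ := isOfFinOrder_iff_pow_eq_one.2 ⟨m, Nat.pos_of_neZero m, hζ.pow_eq_one⟩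
    rw [h5.pow_eq_pow_iff_modEq, ← hζ.eq_orderOf] at h4
    exact h4
  · intro h
    have h4 : ζ ^ q ^ k = ζ ^ 1 := pow_eq_pow_of_modEq h hζ.pow_eq_one
    rw [h4, pow_one]

theorem q2_deg (hn : Module.finrank K N = p ^ n) [hc : IsCyclotomicExtension {p ^ (n + 1)} K L] :
    Nat.card (Gal(L/N)) ∣ p - 1 := by
  have := p3_ne (p := p) n
  have hG : IsGalois K L := IsCyclotomicExtension.isGalois {p ^ (n + 1)} K L
  have hG' : IsGalois N L := IsGalois.tower_top_of_isGalois K N L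
  have hζ := IsCyclotomicExtension.zeta_spec (p ^ (n + 1)) K L
  have h1 : Nat.card (Gal(L/K)) ∣ Nat.card (ZMod (p ^ (n + 1)))ˣ :=
    Subgroup.card_dvd_of_injective (hζ.autToPow K) (IsPrimitiveRoot.autToPow_injective K hζ)
  have h2 : Nat.card (ZMod (p ^ (n + 1)))ˣ = p ^ n * (p - 1) := by
    rw [Nat.card_eq_fintype_card, ZMod.card_units_eq_totient, Nat.totient_prime_pow hp.out n.succ_pos]
    rfl
  rw [h2, IsGalois.card_aut_eq_finrank, ← Module.finrank_mul_finrank K N L, hn] at h1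
  rw [IsGalois.card_aut_eq_finrank]
  exact Nat.dvd_of_mul_dvd_mul_left (pow_pos hp.out.pos n) h1

theorem q2_order (hn : Module.finrank K N = p ^ n) [hc : IsCyclotomicExtension {p ^ (n + 1)} K L] (hG : IsGalois K N)
    {ζ : L} (hζ : IsPrimitiveRoot ζ (p ^ (n + 1))) (σ : Gal(L/K)) {q : ℕ}
    (hσ : σ ζ = ζ ^ q) (k : ℕ) :
    (AlgEquiv.restrictNormalHom N σ) ^ k = 1 ↔ ((q : ℕ) : ZMod (p ^ (n + 1))) ^ (k * (p - 1)) = 1 := by
  have := p3_ne (p := p) n
  have hL := IsCyclotomicExtension.adjoin_primitive_root_eq_top (A := K) (B := L) hζ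
  have hGL : IsGalois K L := IsCyclotomicExtension.isGalois {p ^ (n + 1)} K L
  have hG' : IsGalois N L := IsGalois.tower_top_of_isGalois K N L
  rw [← q2_one hζ hL σ hσ]
  constructor
  · intro h
    have h1 : ∀ x : N, (σ ^ k) (algebraMap N L x) = algebraMap N L x := by
      intro x
      rw [← map_pow] at h
      have h2 := AlgEquiv.restrictNormal_commutes (σ ^ k) N x
      rw [← h2]
      have h3 : (σ ^ k).restrictNormal N = 1 := h
      rw [h3]
      rfl
    let τ : Gal(L/N) := AlgEquiv.ofRingEquiv (f := ((σ ^ k : Gal(L/K)) : L ≃+* L)) h1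
    have h4 : τ ^ (p - 1) = 1 := by
      obtain ⟨d, hd⟩ := q2_deg (K := K) (N := N) (L := L) hn
      rw [hd, pow_mul, pow_card_eq_one', one_pow]
    apply AlgEquiv.ext
    intro x
    have h5 : ∀ j : ℕ, (τ ^ j) x = ((σ ^ k) ^ j) x := by
      intro j
      induction j with
      | zero => rfl
      | succ j ih =>
        rw [pow_succ', pow_succ']
        show τ ((τ ^ j) x) = (σ ^ k) (((σ ^ k) ^ j) x)
        rw [ih]
        rfl
    rw [pow_mul, ← h5, h4]
    rfl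
  · intro h
    have h1 : ((AlgEquiv.restrictNormalHom N σ) ^ k) ^ (p - 1) = 1 := by
      rw [← pow_mul, ← map_pow, h, map_one]
    have h2 : ((AlgEquiv.restrictNormalHom N σ) ^ k) ^ p ^ n = 1 := by
      have h3 : Nat.card (Gal(N/K)) = p ^ n := by
        rw [IsGalois.card_aut_eq_finrank, hn]
      rw [← h3]
      exact pow_card_eq_one'
    have hcop : Nat.Coprime (p ^ n) (p - 1) := by
      apply Nat.Coprime.pow_left
      have h8 := (Nat.coprime_self_add_left (m := p - 1) (n := 1)).2 (Nat.coprime_one_left _)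
      rwa [Nat.sub_add_cancel hp.out.one_le] at h8
    have h4 := Nat.dvd_gcd (orderOf_dvd_of_pow_eq_one h2) (orderOf_dvd_of_pow_eq_one h1)
    rw [Nat.Coprime.gcd_eq_one hcop] at h4
    exact orderOf_eq_one_iff.1 (Nat.dvd_one.1 h4)

end

/-- The Frobenius element of a layer. -/
theorem q2_frob (h : Layer p n K N) (hn : Module.finrank K N = p ^ n) (w : Pl K) (hw : (p : 𝓞 K) ∉ w.asIdeal)
    (W : Pl N) (hW : W.under (𝓞 K) = w) :
    ∃ (_ : SMulCommClass Gal(N/K) (𝓞 K) (𝓞 N)) (g : Gal(N/K)), IsArithFrobAt (𝓞 K) g W.asIdeal ∧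
      ∀ k : ℕ, g ^ k = 1 ↔ ((Ideal.absNorm w.asIdeal : ℕ) : ZMod (p ^ (n + 1))) ^ (k * (p - 1)) = 1 := by
  have := p3_ne (p := p) n
  have hc : IsCyclotomicExtension {p ^ (n + 1)} K (CyclotomicField (p ^ (n + 1)) N) := q1_cyc h
  obtain ⟨L, i1, i2, i3, i4, i5, hcK⟩ : ∃ (L : Type) (_ : Field L) (_ : NumberField L) (_ : Algebra N L) (_ : Algebra K L)
      (_ : IsScalarTower K N L), IsCyclotomicExtension {p ^ (n + 1)} K L :=
    ⟨CyclotomicField (p ^ (n + 1)) N, inferInstance, inferInstance, inferInstance, inferInstance, inferInstance, hc⟩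
  have hab := q2_ab h
  have hG : IsGalois K N := hab.toIsGalois
  have hGL : IsGalois K L := IsCyclotomicExtension.isGalois {p ^ (n + 1)} K L
  have hζ := IsCyclotomicExtension.zeta_spec (p ^ (n + 1)) K L
  have hcL := BF1_comm (K := K) (L := L)
  have hcN := BF1_comm (K := K) (L := N)
  obtain ⟨WL, hWL⟩ := under_exists (L := L) W
  have hWLp := WL.isPrime
  have hfin : Finite (𝓞 L ⧸ WL.asIdeal) := Ideal.finiteQuotientOfFreeOfNeBot _ WL.ne_bot
  obtain ⟨σ, hσ⟩ := IsArithFrobAt.exists_of_isInvariant (𝓞 K) Gal(L/K) WL.asIdeal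
  have hu : WL.asIdeal.under (𝓞 N) = W.asIdeal := congrArg HeightOneSpectrum.asIdeal hWL
  have hu2 : WL.asIdeal.under (𝓞 K) = w.asIdeal := by
    rw [← Ideal.under_under (B := 𝓞 N), hu]
    exact congrArg HeightOneSpectrum.asIdeal hW
  refine ⟨hcN, AlgEquiv.restrictNormalHom N σ, ?_, fun k => ?_⟩
  · intro x
    rw [← hu]
    show algebraMap (𝓞 N) (𝓞 L) _ ∈ WL.asIdeal
    have h1 := hσ (algebraMap (𝓞 N) (𝓞 L) x)
    have h2 : (MulSemiringAction.toAlgHom (𝓞 K) (𝓞 L) σ) (algebraMap (𝓞 N) (𝓞 L) x) =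
        algebraMap (𝓞 N) (𝓞 L) ((MulSemiringAction.toAlgHom (𝓞 K) (𝓞 N) (AlgEquiv.restrictNormalHom N σ)) x) := by
      apply RingOfIntegers.ext
      exact (AlgEquiv.restrictNormal_commutes σ N (x : N)).symm
    rw [map_sub, map_pow, ← h2]
    rw [hu, show (W.asIdeal.under (𝓞 K)) = WL.asIdeal.under (𝓞 K) by
      rw [hu2]
      exact congrArg HeightOneSpectrum.asIdeal hW]
    exact h1
  · refine q2_order hn hG hζ σ ?_ k
    have hpW : ((p ^ (n + 1) : ℕ) : 𝓞 L) ∉ WL.asIdeal := by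
      intro hh
      apply hw
      rw [← hu2, Ideal.under, Ideal.mem_comap, map_natCast]
      rw [Nat.cast_pow] at hh
      exact hWLp.mem_of_pow_mem _ hh
    have hz1 : hζ.toInteger ^ p ^ (n + 1) = 1 := by
      apply RingOfIntegers.coe_injective
      rw [map_pow, map_one]
      exact hζ.pow_eq_one
    have h1 := AlgHom.IsArithFrobAt.apply_of_pow_eq_one hσ hz1 hpW
    have h2 : σ • hζ.toInteger = hζ.toInteger ^ Ideal.absNorm w.asIdeal := by
      rw [Ideal.absNorm_apply, Submodule.cardQuot_apply, ← hu2]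
      exact h1
    have h3 : ((σ • hζ.toInteger : 𝓞 L) : L) = ((hζ.toInteger ^ Ideal.absNorm w.asIdeal : 𝓞 L) : L) := by rw [h2]
    rw [BF1_coe] at h3
    exact h3

/-- The residue degree is the order of the Frobenius element. -/
theorem q2_card (h : Layer p n K N) (hn : Module.finrank K N = p ^ n) (w : Pl K) (hw : (p : 𝓞 K) ∉ w.asIdeal)
    (hes : es K N w = 1) :
    fs K N w ∣ p ^ n ∧ ∀ k : ℕ, fs K N w ∣ k ↔
      ((Ideal.absNorm w.asIdeal : ℕ) : ZMod (p ^ (n + 1))) ^ (k * (p - 1)) = 1 := by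
  have hab := q2_ab h
  have hG : IsGalois K N := hab.toIsGalois
  obtain ⟨W, hW⟩ := under_exists (L := N) w
  obtain ⟨hcN, g, hg, hk⟩ := q2_frob h hn w hw W hW
  have hl : W.asIdeal.LiesOver w.asIdeal := (BF2_mem w W hW).2
  have hWp := W.isPrime
  have h1 := card_stab W w hW
  rw [hes, one_mul] at h1
  have h2 : orderOf g = fs K N w := by
    rw [← h1, ← Nat.card_zpowers]
    apply Nat.card_congr
    refine Equiv.subtypeEquivRight fun σ => ⟨?_, ?_⟩
    · rintro ⟨i, rfl⟩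
      have h3 : g ∈ MulAction.stabilizer Gal(N/K) W.asIdeal := hg.mem_stabilizer
      have h4 := Subgroup.zpow_mem _ h3 i
      apply HeightOneSpectrum.ext
      exact h4
    · intro hσ
      obtain ⟨m, hm⟩ := X7_pow w hes W g hg σ (congrArg HeightOneSpectrum.asIdeal hσ)
      rw [hm]
      exact Subgroup.npow_mem_zpowers g m
  refine ⟨?_, fun k => ?_⟩
  · rw [← h2, ← hn, ← IsGalois.card_aut_eq_finrank]
    exact orderOf_dvd_natCard g
  · rw [← h2, orderOf_dvd_iff_pow_eq_one, hk]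

end H55Z
end

-- from Lib.H55Z.Q3
section

/-! # H55Z, part Q: ramification in a layer -/

open NumberField IsDedekindDomain
open scoped Pointwise

namespace H55Z

open H55R

variable {p : ℕ} [hp : Fact p.Prime] {n : ℕ} {K N : Type} [Field K] [NumberField K] [Field N] [NumberField N] [Algebra K N]

/-- A layer is unramified outside p. -/
theorem q3_unr (h2 : p ≠ 2) (hU : ¬ (p : ℤ) ∣ NumberField.discr K) (h : Layer p n K N) (w : Pl K)
    (hw : (p : 𝓞 K) ∉ w.asIdeal) : es K N w = 1 := by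
  have hab := q2_ab h
  have hG : IsGalois K N := hab.toIsGalois
  by_contra hne
  obtain ⟨hn, hd⟩ := layer_disc h2 hU h
  obtain ⟨P, hP1, hP2⟩ : ∃ P : Ideal (𝓞 N), P.IsPrime ∧ P.LiesOver w.asIdeal := by
    obtain ⟨⟨P, h3, h4⟩⟩ := w.asIdeal.nonempty_primesOver (S := 𝓞 N)
    exact ⟨P, h3, h4⟩
  have h3 : es K N w = P.ramificationIdx (𝓞 K) :=
    Ideal.ramificationIdxIn_eq_ramificationIdx w.asIdeal P Gal(N/K)
  have h4 : P ∣ differentIdeal (𝓞 K) (𝓞 N) := by
    by_contra h4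
    rw [not_dvd_differentIdeal_iff] at h4
    apply hne
    rw [h3]
    exact Ideal.ramificationIdx_eq_one P (𝓞 K)
  have h5 := natAbs_discr_eq_absNorm_differentIdeal_mul_natAbs_discr_pow K (𝓞 K) N (𝓞 N)
  rw [hd, hn, mul_comm] at h5
  have h6 : 0 < (NumberField.discr K).natAbs ^ p ^ n :=
    pow_pos (Int.natAbs_pos.2 (NumberField.discr_ne_zero K)) _
  have h7 := Nat.eq_of_mul_eq_mul_right h6 h5
  have h8 := Ideal.absNorm_mem (differentIdeal (𝓞 K) (𝓞 N))
  rw [← h7] at h8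
  have h9 : (((p ^ En p n) ^ Module.finrank ℚ K : ℕ) : 𝓞 N) ∈ P := Ideal.dvd_iff_le.1 h4 h8
  rw [Nat.cast_pow, Nat.cast_pow] at h9
  have h10 := hP1.mem_of_pow_mem _ (hP1.mem_of_pow_mem _ h9)
  apply hw
  rw [hP2.over, Ideal.under, Ideal.mem_comap, map_natCast]
  exact h10

/-- The primes above p are unramified over the integers. -/
theorem q3_one (hU : ¬ (p : ℤ) ∣ NumberField.discr K) (w : Pl K) (hw : (p : 𝓞 K) ∈ w.asIdeal) :
    w.asIdeal.ramificationIdx ℤ = 1 := by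
  have hpp : Prime (p : ℤ) := Nat.prime_iff_prime_int.1 hp.out
  rw [NumberField.not_dvd_discr_iff_forall_mem K (𝓞 K) hpp] at hU
  have hP := w.isPrime
  have h1 := hU w.asIdeal hP (by exact_mod_cast hw)
  exact Ideal.ramificationIdx_eq_one w.asIdeal ℤ

theorem q3_cyc {L : Type} [Field L] [NumberField L] {ζ : L} (hζ : IsPrimitiveRoot ζ (p ^ (n + 1))) (P : Pl L)
    (hP : (p : 𝓞 L) ∈ P.asIdeal) : p ^ n * (p - 1) ∣ P.asIdeal.ramificationIdx ℤ := by
  have := p3_ne (p := p) n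
  let C := IntermediateField.adjoin ℚ {ζ}
  have hC : IsCyclotomicExtension {p ^ (n + 1)} ℚ C := hζ.intermediateField_adjoin_isCyclotomicExtension ℚ
  have hPp := P.isPrime
  have h1 : ((P.asIdeal.under (𝓞 C))).IsPrime := inferInstance
  have h2 : (P.asIdeal.under (𝓞 C)).LiesOver (Ideal.span {(p : ℤ)}) := by
    have hpp : Prime (p : ℤ) := Nat.prime_iff_prime_int.1 hp.out
    rw [Ideal.liesOver_span_iff h1.ne_top hpp]
    rw [Ideal.under, Ideal.mem_comap]
    simpa using hP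
  have h3 := IsCyclotomicExtension.Rat.ramificationIdx_eq_of_prime_pow p n C (P.asIdeal.under (𝓞 C))
  rw [← h3]
  have h4 : P.asIdeal.LiesOver (P.asIdeal.under (𝓞 C)) := ⟨rfl⟩
  exact Ideal.ramificationIdx_below_dvd (P.asIdeal.under (𝓞 C)) P.asIdeal

/-- The primes above p are totally ramified in a layer. -/
theorem q3_ram (h2 : p ≠ 2) (hU : ¬ (p : ℤ) ∣ NumberField.discr K) (h : Layer p n K N) (w : Pl K)
    (hw : (p : 𝓞 K) ∈ w.asIdeal) : es K N w = p ^ n := by
  have := p3_ne (p := p) n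
  have hn := (layer_disc h2 hU h).1
  have hc : IsCyclotomicExtension {p ^ (n + 1)} K (CyclotomicField (p ^ (n + 1)) N) := q1_cyc h
  obtain ⟨L, i1, i2, i3, i4, i5, hcK⟩ : ∃ (L : Type) (_ : Field L) (_ : NumberField L) (_ : Algebra N L) (_ : Algebra K L)
      (_ : IsScalarTower K N L), IsCyclotomicExtension {p ^ (n + 1)} K L :=
    ⟨CyclotomicField (p ^ (n + 1)) N, inferInstance, inferInstance, inferInstance, inferInstance, inferInstance, hc⟩
  have hab := q2_ab h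
  have hG : IsGalois K N := hab.toIsGalois
  have hGL : IsGalois K L := IsCyclotomicExtension.isGalois {p ^ (n + 1)} K L
  have hGNL : IsGalois N L := IsGalois.tower_top_of_isGalois K N L
  have hζ := IsCyclotomicExtension.zeta_spec (p ^ (n + 1)) K L
  obtain ⟨W, hW⟩ := under_exists (L := N) w
  obtain ⟨WL, hWL⟩ := under_exists (L := L) W
  have hl1 : W.asIdeal.LiesOver w.asIdeal := (BF2_mem w W hW).2
  have hl2 : WL.asIdeal.LiesOver W.asIdeal := (BF2_mem W WL hWL).2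
  have hwp := w.isPrime
  have hWp := W.isPrime
  have hWLp := WL.isPrime
  have hpL : (p : 𝓞 L) ∈ WL.asIdeal := by
    have h3 : (p : 𝓞 N) ∈ W.asIdeal := by
      rw [hl1.over, Ideal.under, Ideal.mem_comap, map_natCast] at hw
      exact hw
    rw [hl2.over, Ideal.under, Ideal.mem_comap, map_natCast] at h3
    exact h3
  have h3 := q3_cyc hζ WL hpL
  have e1 : W.asIdeal.ramificationIdx ℤ = w.asIdeal.ramificationIdx ℤ * W.asIdeal.ramificationIdx (𝓞 K) :=
    Ideal.ramificationIdx_tower w.asIdeal W.asIdeal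
  have e2 : WL.asIdeal.ramificationIdx ℤ = W.asIdeal.ramificationIdx ℤ * WL.asIdeal.ramificationIdx (𝓞 N) :=
    Ideal.ramificationIdx_tower W.asIdeal WL.asIdeal
  have e3 : es K N w = W.asIdeal.ramificationIdx (𝓞 K) :=
    Ideal.ramificationIdxIn_eq_ramificationIdx w.asIdeal W.asIdeal Gal(N/K)
  have e4 : es N L W = WL.asIdeal.ramificationIdx (𝓞 N) :=
    Ideal.ramificationIdxIn_eq_ramificationIdx W.asIdeal WL.asIdeal Gal(L/N)
  rw [e2, e1, q3_one hU w hw, one_mul, ← e3, ← e4] at h3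
  have h4 : es N L W ∣ p - 1 := by
    refine (HC6_dvd W).1.trans ?_
    rw [← IsGalois.card_aut_eq_finrank]
    exact q2_deg (K := K) hn
  have h5 : es K N w ∣ p ^ n := hn ▸ (HC6_dvd w).1
  have hp1 : 0 < p - 1 := by
    have := hp.out.two_le
    omega
  apply Nat.dvd_antisymm h5
  have h6 : p ^ n ∣ es K N w * es N L W := (Dvd.intro _ rfl).trans h3
  have hcop : Nat.Coprime (p ^ n) (es N L W) := by
    apply Nat.Coprime.coprime_dvd_right h4
    apply Nat.Coprime.pow_left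
    have h8 := (Nat.coprime_self_add_left (m := p - 1) (n := 1)).2 (Nat.coprime_one_left _)
    rwa [Nat.sub_add_cancel hp.out.one_le] at h8
  exact hcop.dvd_of_dvd_mul_right h6

end H55Z
end

-- from Lib.H55Z.Q5
section

/-! # H55Z, part Q: the Euler product of a layer -/

open NumberField IsDedekindDomain

namespace H55Z

open H55P H55N

/-- A Dirichlet character modulo a power of p on the ideals of K. -/
noncomputable def chN (K : Type) [Field K] [NumberField K] {p : ℕ} [hp : Fact p.Prime] {k : ℕ}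
    (χ : DirichletCharacter ℂ (p ^ (k + 1))) : Ideal (𝓞 K) →*₀ ℂ where
  toFun a := χ ((Ideal.absNorm a : ℕ) : ZMod (p ^ (k + 1)))
  map_zero' := by
    have h1 : ((Ideal.absNorm (0 : Ideal (𝓞 K)) : ℕ) : ZMod (p ^ (k + 1))) = ((0 : ℕ) : ZMod (p ^ (k + 1))) := by
      congr 1
      exact map_zero Ideal.absNorm
    rw [h1]
    apply χ.map_nonunit
    rw [ZMod.isUnit_iff_coprime, Nat.coprime_zero_left]
    exact (Nat.one_lt_pow k.succ_ne_zero hp.out.one_lt).ne'
  map_one' := by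
    rw [map_one, Nat.cast_one, map_one]
  map_mul' a b := by
    rw [map_mul, Nat.cast_mul, map_mul]

theorem chN_apply (K : Type) [Field K] [NumberField K] {p : ℕ} [hp : Fact p.Prime] {k : ℕ}
    (χ : DirichletCharacter ℂ (p ^ (k + 1))) (a : Ideal (𝓞 K)) :
    chN K χ a = χ ((Ideal.absNorm a : ℕ) : ZMod (p ^ (k + 1))) := rfl

theorem chN_norm (K : Type) [Field K] [NumberField K] {p : ℕ} [hp : Fact p.Prime] {k : ℕ}
    (χ : DirichletCharacter ℂ (p ^ (k + 1))) (a : Ideal (𝓞 K)) : ‖chN K χ a‖ ≤ 1 := by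
  rw [chN_apply]
  exact χ.norm_le_one _

variable {F : Type} [Field F] [NumberField F] [IQ F]

section

variable {p : ℕ} [hp : Fact p.Prime] {n : ℕ} (K N : Type) [Field K] [NumberField K] [Field N] [NumberField N] [Algebra K N]

theorem q5_cop (w : H55R.Pl K) : (p : 𝓞 K) ∈ w.asIdeal ↔ ¬ (Ideal.absNorm w.asIdeal).Coprime p := by
  have hw := w.isPrime
  have hm := w.isMaximal
  constructor
  · intro h hc
    have h1 := Ideal.absNorm_mem w.asIdeal
    have h2 : (1 : 𝓞 K) ∈ w.asIdeal := by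
      have h3 : ((Ideal.absNorm w.asIdeal : ℤ)) * Nat.gcdA (Ideal.absNorm w.asIdeal) p +
          (p : ℤ) * Nat.gcdB (Ideal.absNorm w.asIdeal) p = 1 := by
        have h4 := Nat.gcd_eq_gcd_ab (Ideal.absNorm w.asIdeal) p
        rw [Nat.Coprime.gcd_eq_one hc] at h4
        exact_mod_cast h4.symm
      have h5 : (((Ideal.absNorm w.asIdeal : ℕ) : 𝓞 K)) * ((Nat.gcdA (Ideal.absNorm w.asIdeal) p : ℤ) : 𝓞 K) +
          (p : 𝓞 K) * ((Nat.gcdB (Ideal.absNorm w.asIdeal) p : ℤ) : 𝓞 K) = 1 := by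
        exact_mod_cast congrArg (Int.cast : ℤ → 𝓞 K) h3
      rw [← h5]
      exact add_mem (Ideal.mul_mem_right _ _ h1) (Ideal.mul_mem_right _ _ h)
    exact hw.ne_top ((Ideal.eq_top_iff_one _).2 h2)
  · intro h
    by_contra hn
    apply h
    rw [Nat.coprime_comm, Nat.Prime.coprime_iff_not_dvd hp.out]
    intro hd
    apply hn
    obtain ⟨q, hq⟩ : ∃ q : ℕ, q = Ideal.absNorm w.asIdeal := ⟨_, rfl⟩
    -- the residue field has characteristic p
    have hfin : Finite (𝓞 K ⧸ w.asIdeal) := Ideal.finiteQuotientOfFreeOfNeBot _ w.ne_bot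
    have h1 : p ∣ Nat.card (𝓞 K ⧸ w.asIdeal) := by
      rw [← Submodule.cardQuot_apply, ← Ideal.absNorm_apply]
      exact hd
    obtain ⟨x, hx⟩ := exists_prime_addOrderOf_dvd_card' p h1
    have h2 : (p : 𝓞 K ⧸ w.asIdeal) * x = 0 := by
      rw [← nsmul_eq_mul, ← hx, addOrderOf_nsmul_eq_zero]
    have hx0 : x ≠ 0 := by
      rintro rfl
      rw [addOrderOf_zero] at hx
      exact hp.out.one_lt.ne hx
    rcases mul_eq_zero.1 h2 with h3 | h3
    · rw [← map_natCast (Ideal.Quotient.mk w.asIdeal)] at h3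
      exact Ideal.Quotient.eq_zero_iff_mem.1 h3
    · exact absurd h3 hx0

variable [Algebra F K] [Algebra F N] [IsScalarTower F K N]

theorem q5_loc (ψ : Ideal (𝓞 F) →*₀ 𝓞 F) (h2 : p ≠ 2) (hU : ¬ (p : ℤ) ∣ NumberField.discr K) (h : Layer p n K N)
    (w : HeightOneSpectrum (𝓞 K)) :
    ∃ A : Finset (HeightOneSpectrum (𝓞 N)), (∀ W, W ∈ A ↔ W.asIdeal.under (𝓞 K) = w.asIdeal) ∧
      ∏ W ∈ A, H9_EF (PsiP N ψ) W = H9_EF (PsiP K ψ) w *
        ∏ χ ∈ (XS p n n).erase 1, H9_EF (PsiP K ψ * chN K χ : Ideal (𝓞 K) →*₀ ℂ) w := by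
  classical
  have hab := q2_ab h
  have hG : IsGalois K N := hab.toIsGalois
  have hn := (layer_disc h2 hU h).1
  obtain ⟨T, hT, hc⟩ := pt10_card (K' := N) w
  rw [hn] at hc
  have hnorm : ∀ W ∈ T, Ideal.relNorm (𝓞 K) W.asIdeal = w.asIdeal ^ H55R.fs K N w :=
    fun W hW => H55R.CH2_norm w W ((hT W).1 hW)
  have hmul : ∀ χ : DirichletCharacter ℂ (p ^ (n + 1)), (PsiP K ψ * chN K χ : Ideal (𝓞 K) →*₀ ℂ) w.asIdeal =
      PsiP K ψ w.asIdeal * χ ((Ideal.absNorm w.asIdeal : ℕ) : ZMod (p ^ (n + 1))) := fun χ => rfl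
  refine ⟨T, hT, ?_⟩
  by_cases hw : (p : 𝓞 K) ∈ w.asIdeal
  · have he := q3_ram h2 hU h w hw
    rw [he] at hc
    have hc1 : T.card * H55R.fs K N w = 1 := by
      have h3 : p ^ n * (T.card * H55R.fs K N w) = p ^ n * 1 := by
        rw [mul_one]
        conv_rhs => rw [← hc]
        ring
      exact Nat.eq_of_mul_eq_mul_left (pow_pos hp.out.pos _) h3
    have hcT : T.card = 1 := Nat.eq_one_of_mul_eq_one_right hc1
    have hf1 : H55R.fs K N w = 1 := Nat.eq_one_of_mul_eq_one_left hc1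
    obtain ⟨W, rfl⟩ := Finset.card_eq_one.1 hcT
    have hW := hnorm W (Finset.mem_singleton_self _)
    rw [hf1, pow_one] at hW
    rw [Finset.prod_singleton]
    have e1 : H9_EF (PsiP N ψ) W = H9_EF (PsiP K ψ) w := by
      unfold H9_EF
      rw [PsiP_top (K := K) ψ N, pt4_norm K N, hW]
    rw [e1, Finset.prod_eq_one, mul_one]
    intro χ _
    unfold H9_EF
    have h3 : χ ((Ideal.absNorm w.asIdeal : ℕ) : ZMod (p ^ (n + 1))) = 0 := by
      apply χ.map_nonunit
      rw [ZMod.isUnit_iff_coprime]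
      intro h4
      exact (q5_cop K w).1 hw (Nat.Coprime.coprime_dvd_right (dvd_pow_self p n.succ_ne_zero) h4)
    rw [hmul, h3, mul_zero, map_zero, zero_mul, sub_zero]
    have h4 : ((1 : PowerSeries ℂ)⁻¹) = 1 := by simp
    rw [h4, map_one]
  · have he := q3_unr h2 hU h w hw
    obtain ⟨hf, hk⟩ := q2_card h hn w hw he
    rw [he, one_mul] at hc
    have hcop : (Ideal.absNorm w.asIdeal).Coprime p := by
      by_contra h3
      exact hw ((q5_cop K w).2 h3)
    have hf0 : 0 < H55R.fs K N w := H55R.fs_pos w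
    have hz := Complex.isPrimitiveRoot_exp (H55R.fs K N w) hf0.ne'
    set z := Complex.exp (2 * Real.pi * Complex.I / (H55R.fs K N w : ℕ)) with hzd
    have hcT : T.card = p ^ n / H55R.fs K N w := by
      rw [← hc, Nat.mul_div_cancel _ hf0]
    have e1 : ∀ W ∈ T, H9_EF (PsiP N ψ) W = ∏ j ∈ Finset.range (H55R.fs K N w),
        ArithmeticFunction.ofPowerSeries (Ideal.absNorm w.asIdeal)
          ((1 - PowerSeries.C (PsiP K ψ w.asIdeal * z ^ j) * PowerSeries.X)⁻¹ : PowerSeries ℂ) := by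
      intro W hW
      unfold H9_EF
      rw [PsiP_top (K := K) ψ N, pt4_norm K N, hnorm W hW, map_pow, map_pow]
      exact pt4_cu _ _ _ _ hf0 hz
    have e2 := q4_prod h2 n hcop hf hk hz (B := ArithmeticFunction ℂ)
      (fun x => ArithmeticFunction.ofPowerSeries (Ideal.absNorm w.asIdeal)
          ((1 - PowerSeries.C (PsiP K ψ w.asIdeal * x) * PowerSeries.X)⁻¹ : PowerSeries ℂ))
    rw [Finset.prod_congr rfl e1, Finset.prod_const, hcT, ← e2]
    have h1 : (1 : DirichletCharacter ℂ (p ^ (n + 1))) ∈ XS p n n := mem_XS.2 (one_pow _)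
    rw [← Finset.mul_prod_erase _ _ h1]
    congr 1
    have h3 : IsUnit ((Ideal.absNorm w.asIdeal : ℕ) : ZMod (p ^ (n + 1))) := by
      rw [ZMod.isUnit_iff_coprime]
      exact hcop.pow_right _
    rw [MulChar.one_apply h3, mul_one]
    rfl

/-- The L-series of a layer. -/
theorem q5_AI (ψ : Ideal (𝓞 F) →*₀ 𝓞 F) (h2 : p ≠ 2) (hU : ¬ (p : ℤ) ∣ NumberField.discr K) (h : Layer p n K N) :
    AI (PsiP N ψ) = AI (PsiP K ψ) *
      ∏ χ ∈ (XS p n n).erase 1, AI (PsiP K ψ * chN K χ : Ideal (𝓞 K) →*₀ ℂ) := by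
  classical
  choose A hA hprod using q5_loc (F := F) K N ψ h2 hU h
  ext m
  have e1 : ∀ᶠ S : Finset (HeightOneSpectrum (𝓞 K)) in Filter.atTop,
      (∏ W ∈ S.biUnion A, H9_EF (PsiP N ψ) W) m = AI (PsiP N ψ) m := by
    have h1 := AI_euler (PsiP N ψ) m
    have h2 : Filter.Tendsto (fun S : Finset (HeightOneSpectrum (𝓞 K)) => S.biUnion A)
        Filter.atTop Filter.atTop := by
      rw [Filter.tendsto_atTop]
      intro T
      filter_upwards [Filter.eventually_ge_atTop (T.image (HeightOneSpectrum.under (𝓞 K)))] with S hS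
      intro W hW
      rw [Finset.mem_biUnion]
      refine ⟨HeightOneSpectrum.under (𝓞 K) W, hS (Finset.mem_image_of_mem _ hW), ?_⟩
      rw [hA]
      rfl
    exact h2.eventually h1
  have e2 : ∀ h : Ideal (𝓞 K) →*₀ ℂ, ∀ᶠ S : Finset (HeightOneSpectrum (𝓞 K)) in Filter.atTop,
      ∀ j ∈ Finset.range (m + 1), (∏ w ∈ S, H9_EF h w) j = AI h j := by
    intro h
    rw [Filter.eventually_all_finset]
    intro j _
    exact AI_euler h j
  have e3 : ∀ᶠ S : Finset (HeightOneSpectrum (𝓞 K)) in Filter.atTop,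
      ∀ χ ∈ (XS p n n).erase 1, ∀ j ∈ Finset.range (m + 1),
        (∏ w ∈ S, H9_EF (PsiP K ψ * chN K χ : Ideal (𝓞 K) →*₀ ℂ) w) j =
          AI (PsiP K ψ * chN K χ : Ideal (𝓞 K) →*₀ ℂ) j := by
    rw [Filter.eventually_all_finset]
    intro χ _
    exact e2 _
  obtain ⟨S, h1, h3, h4⟩ := (e1.and ((e2 (PsiP K ψ)).and e3)).exists
  rw [← h1, Finset.prod_biUnion, Finset.prod_congr rfl fun w _ => hprod w,
    Finset.prod_mul_distrib, Finset.prod_comm]
  · exact H55B.I2_mul_congr (fun j hj => h3 j (Finset.mem_range.2 (by omega)))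
      (H55B.I2_prod_congr _ _ _ fun χ hχ j hj => h4 χ hχ j (Finset.mem_range.2 (by omega))) m le_rfl
  · intro w _ w' _ hne
    rw [Function.onFun, Finset.disjoint_left]
    intro W hW hW'
    rw [hA] at hW hW'
    exact hne (HeightOneSpectrum.ext (hW.symm.trans hW'))

end

end H55Z
end

-- from Lib.H55Z.Q6
section

/-! # H55Z, part Q: the value of the L-function of a layer -/

open NumberField IsDedekindDomain

namespace H55Z

open H55P H55N

section

variable {p : ℕ} [hp : Fact p.Prime]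

theorem q6_le {V : ValuationSubring ℂ} {z : ℂ} (hz : V.valuation z = 1) (a : ℕ) :
    V.valuation (z ^ a - 1) ≤ V.valuation (z - 1) := by
  have h1 : (∑ i ∈ Finset.range a, z ^ i) * (z - 1) = z ^ a - 1 := geom_sum_mul z a
  rw [← h1, map_mul]
  refine mul_le_of_le_one_left' ?_
  refine V.valuation.map_sum_le (fun i _ => ?_)
  rw [map_pow, hz, one_pow]

/-- The value of 1 - z for a primitive root of unity z of order a power of p. -/
theorem q6_root (V : ValuationSubring ℂ) {k : ℕ} {z : ℂ} (hz : IsPrimitiveRoot z (p ^ (k + 1))) :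
    V.valuation (z - 1) ^ (p ^ (k + 1) - p ^ k) = V.valuation (p : ℂ) := by
  classical
  have hpos : 0 < p ^ (k + 1) := pow_pos hp.out.pos _
  have hne := NeZero.mk hpos.ne'
  have hv1 : ∀ μ : ℂ, IsPrimitiveRoot μ (p ^ (k + 1)) → V.valuation μ = 1 := by
    intro μ hμ
    apply pt6_le hpos.ne'
    rw [← map_pow, hμ.pow_eq_one, map_one]
  have hle : ∀ μ ν : ℂ, IsPrimitiveRoot μ (p ^ (k + 1)) → IsPrimitiveRoot ν (p ^ (k + 1)) →
      V.valuation (ν - 1) ≤ V.valuation (μ - 1) := by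
    intro μ ν hμ hν
    obtain ⟨a, -, ha⟩ := hμ.eq_pow_of_pow_eq_one hν.pow_eq_one
    rw [← ha]
    exact q6_le (hv1 μ hμ) a
  have h1 := Polynomial.cyclotomic_eq_prod_X_sub_primitiveRoots hz
  have h2 := congrArg (Polynomial.eval 1) h1
  rw [Polynomial.eval_one_cyclotomic_prime_pow, Polynomial.eval_prod] at h2
  rw [h2, map_prod, Finset.prod_congr rfl (g := fun _ => V.valuation (z - 1)), Finset.prod_const,
    Complex.card_primitiveRoots, Nat.totient_prime_pow hp.out k.succ_pos]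
  · congr 1
    show _ = p ^ k * (p - 1)
    rw [pow_succ, Nat.mul_sub_one]
  · intro μ hμ
    have hμ' : IsPrimitiveRoot μ (p ^ (k + 1)) := (mem_primitiveRoots hpos).1 hμ
    rw [Polynomial.eval_sub, Polynomial.eval_X, Polynomial.eval_C, Valuation.map_sub_swap]
    exact le_antisymm (hle z μ hz hμ') (hle μ z hμ' hz)

end

theorem q6_prod {ι : Type} {s : ℂ} (S : Finset ι) (f : ι → ArithmeticFunction ℂ) (a : ι → ℂ)
    (h : ∀ i ∈ S, LSeriesHasSum (fun k => f i k) s (a i)) :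
    LSeriesHasSum (fun k => (∏ i ∈ S, f i) k) s (∏ i ∈ S, a i) := by
  classical
  induction S using Finset.induction_on with
  | empty =>
    have h1 := pt5_prod (s := s) 0 (fun _ => 1) (fun _ => 1) (fun j hj => absurd hj (Nat.not_lt_zero j))
    exact h1
  | insert i S hi ih =>
    rw [Finset.prod_insert hi, Finset.prod_insert hi]
    exact ArithmeticFunction.LSeriesHasSum_mul (h i (Finset.mem_insert_self i S))
      (ih fun j hj => h j (Finset.mem_insert_of_mem hj))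

variable {F : Type} [Field F] [NumberField F] [IQ F]

/-- The L-series of the function h on the ideals converges for Re s > 3/2, its sum continues to Re s > 1/2, with value v at 1. -/
def HasL {K : Type} [Field K] [NumberField K] (h : Ideal (𝓞 K) → ℂ) (v : ℂ) : Prop :=
  ∃ Λ : ℂ → ℂ, AnalyticOnNhd ℂ Λ {s | 1 / 2 < s.re} ∧ (∀ s : ℂ, 3 / 2 < s.re → HasSum (tm h s) (Λ s)) ∧ Λ 1 = v

/-- The exact valuation of the value at 1 of the L-function of ψ over K and a Dirichlet character of order p^k, divided by the power of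
the period: z is a primitive p^k-th root of unity. -/
def ValK (F : Type) [Field F] [NumberField F] [IQ F] (K : Type) [Field K] [NumberField K] [Algebra F K] (p : ℕ) [Fact p.Prime] (Om : ℂ)
    (ψ : Ideal (𝓞 F) →*₀ 𝓞 F) (k : ℕ) (χ : DirichletCharacter ℂ (p ^ (k + 1))) : Prop :=
  ∃ v : ℂ, HasL (PsiP K ψ * chN K χ : Ideal (𝓞 K) →*₀ ℂ) v ∧ v ≠ 0 ∧ ∃ z : ℂ, IsPrimitiveRoot z (p ^ k) ∧
    ∀ V : ValuationSubring ℂ, V.valuation (p : ℂ) < 1 →
      V.valuation (v / Om ^ Module.finrank F K) ^ 2 * V.valuation (p : ℂ) ^ (Module.finrank F K * (k + 1)) =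
        V.valuation (z - 1) ^ (2 * Module.finrank F K * H35K.J p k)

section

variable {p : ℕ} [hp : Fact p.Prime] {n : ℕ} (K N : Type) [Field K] [NumberField K] [Field N] [NumberField N] [Algebra K N]
  [Algebra F K] [Algebra F N] [IsScalarTower F K N]

theorem q6_level {ψ : Ideal (𝓞 F) →*₀ 𝓞 F} (h2 : p ≠ 2) {Om : ℂ}
    (hE : ∀ k, 1 ≤ k → k ≤ n → ∀ χ : DirichletCharacter ℂ (p ^ (k + 1)), orderOf χ = p ^ k → ValK F K p Om ψ k χ)
    (χ : DirichletCharacter ℂ (p ^ (n + 1))) (hχ : χ ∈ (XS p n n).erase 1) :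
    ∃ k v, k < n ∧ orderOf χ = p ^ (k + 1) ∧ HasL (PsiP K ψ * chN K χ : Ideal (𝓞 K) →*₀ ℂ) v ∧ v ≠ 0 ∧
      ∃ z : ℂ, IsPrimitiveRoot z (p ^ (k + 1)) ∧
      ∀ V : ValuationSubring ℂ, V.valuation (p : ℂ) < 1 →
        V.valuation (v / Om ^ Module.finrank F K) ^ 2 * V.valuation (p : ℂ) ^ (Module.finrank F K * (k + 2)) =
          V.valuation (z - 1) ^ (2 * Module.finrank F K * H35K.J p (k + 1)) := by
  obtain ⟨h1, h3⟩ := Finset.mem_erase.1 hχ
  rw [q4_mem] at h3
  obtain ⟨j, hj, hj2⟩ := (Nat.dvd_prime_pow hp.out).1 h3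
  obtain ⟨k, rfl⟩ : ∃ k, j = k + 1 := by
    rcases j with _ | k
    · exfalso
      rw [pow_zero] at hj2
      exact h1 (orderOf_eq_one_iff.1 hj2)
    · exact ⟨k, rfl⟩
  obtain ⟨χ', h4, h5⟩ := q4_level h2 hj χ hj2
  obtain ⟨v, h6, h7, z, hz, hV⟩ := hE (k + 1) (by omega) hj χ' h4
  refine ⟨k, v, by omega, hj2, ?_, h7, z, hz, fun V hV1 => hV V hV1⟩
  have h8 : chN K χ = chN K χ' := by
    apply MonoidWithZeroHom.ext
    intro a
    exact h5 (Ideal.absNorm a)
  rw [h8]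
  exact h6

/-- The value of the L-function of a layer. -/
theorem q6_val {M : Ideal (𝓞 F)} {ψ : Ideal (𝓞 F) →*₀ 𝓞 F} (hψ : IsHecke M ψ) (h2 : p ≠ 2) (hU : ¬ (p : ℤ) ∣ NumberField.discr K)
    (h : Layer p n K N) {Om : ℂ} {v₀ : ℂ} (h0 : HasL (PsiP K ψ) v₀) (h0' : v₀ ≠ 0)
    (h1 : ∀ V : ValuationSubring ℂ, V.valuation (p : ℂ) < 1 → V.valuation (v₀ / Om ^ Module.finrank F K) = 1)
    (hE : ∀ k, 1 ≤ k → k ≤ n → ∀ χ : DirichletCharacter ℂ (p ^ (k + 1)), orderOf χ = p ^ k → ValK F K p Om ψ k χ) :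
    ∃ v : ℂ, HasL (PsiP N ψ) v ∧ v ≠ 0 ∧ ∀ V : ValuationSubring ℂ, V.valuation (p : ℂ) < 1 →
      V.valuation (v / Om ^ Module.finrank F N) ^ 2 * V.valuation (p : ℂ) ^ (Module.finrank F K * En p n) =
        V.valuation (p : ℂ) ^ (2 * Module.finrank F K * ∑ k ∈ Finset.range n, H35K.J p (k + 1)) := by
  classical
  have hn := (layer_disc h2 hU h).1
  have hlev := q6_level K (n := n) h2 hE
  have hcard : (XS p n n).card = p ^ n := card_XS h2 le_rfl
  have hmem1 : (1 : DirichletCharacter ℂ (p ^ (n + 1))) ∈ XS p n n := mem_XS.2 (one_pow _)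
  obtain ⟨Λ₀, ha0, hs0, hv0⟩ := h0
  have hall : ∀ χ : DirichletCharacter ℂ (p ^ (n + 1)), ∃ (Λ : ℂ → ℂ), χ ∈ (XS p n n).erase 1 →
      AnalyticOnNhd ℂ Λ {s | 1 / 2 < s.re} ∧
      (∀ s : ℂ, 3 / 2 < s.re → HasSum (tm (PsiP K ψ * chN K χ : Ideal (𝓞 K) →*₀ ℂ) s) (Λ s)) ∧ Λ 1 ≠ 0 ∧
      ∃ k, k < n ∧ orderOf χ = p ^ (k + 1) ∧ ∃ z : ℂ, IsPrimitiveRoot z (p ^ (k + 1)) ∧
        ∀ V : ValuationSubring ℂ, V.valuation (p : ℂ) < 1 →
        V.valuation (Λ 1 / Om ^ Module.finrank F K) ^ 2 * V.valuation (p : ℂ) ^ (Module.finrank F K * (k + 2)) =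
          V.valuation (z - 1) ^ (2 * Module.finrank F K * H35K.J p (k + 1)) := by
    intro χ
    by_cases hχ : χ ∈ (XS p n n).erase 1
    · obtain ⟨k, v, hk, ho, ⟨Λ, ha, hs, hv⟩, hv1, z, hz, hV⟩ := hlev χ hχ
      exact ⟨Λ, fun _ => ⟨ha, hs, by rw [hv]; exact hv1, k, hk, ho, z, hz, by rw [hv]; exact hV⟩⟩
    · exact ⟨fun _ => 0, fun h => absurd h hχ⟩
  choose Λ hΛ using hall
  have hb : ∀ χ : DirichletCharacter ℂ (p ^ (n + 1)), ∀ a : Ideal (𝓞 K),
      ‖(PsiP K ψ * chN K χ : Ideal (𝓞 K) →*₀ ℂ) a‖ ^ 2 ≤ Ideal.absNorm a := by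
    intro χ a
    refine le_trans ?_ (PsiP_norm_le hψ a)
    have h4 : (PsiP K ψ * chN K χ : Ideal (𝓞 K) →*₀ ℂ) a = PsiP K ψ a * chN K χ a := rfl
    rw [h4, norm_mul, mul_pow]
    exact mul_le_of_le_one_right (by positivity) (pow_le_one₀ (norm_nonneg _) (chN_norm K χ a))
  refine ⟨Λ₀ 1 * ∏ χ ∈ (XS p n n).erase 1, Λ χ 1,
    ⟨fun s => Λ₀ s * ∏ χ ∈ (XS p n n).erase 1, Λ χ s, fun s hs => (ha0 s hs).mul ?_, fun s hs => ?_, rfl⟩, ?_,
    fun V hV => ?_⟩
  · exact Finset.analyticAt_fun_prod _ fun χ hχ => (hΛ χ hχ).1 s hs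
  · have hsum := tm_summable (PsiP N ψ) (fun a => PsiP_norm_le hψ a) s hs
    have hL := AI_LSeries (PsiP N ψ) (PsiP N ψ).map_zero s hsum
    have hsum1 := tm_summable (PsiP K ψ) (fun a => PsiP_norm_le hψ a) s hs
    have hL1 := AI_LSeries (PsiP K ψ) (PsiP K ψ).map_zero s hsum1
    have hL2 := fun χ => AI_LSeries (PsiP K ψ * chN K χ : Ideal (𝓞 K) →*₀ ℂ)
      (PsiP K ψ * chN K χ : Ideal (𝓞 K) →*₀ ℂ).map_zero s
      (tm_summable (PsiP K ψ * chN K χ : Ideal (𝓞 K) →*₀ ℂ) (hb χ) s hs)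
    have hL3 := q6_prod ((XS p n n).erase 1) (fun χ => AI (PsiP K ψ * chN K χ : Ideal (𝓞 K) →*₀ ℂ))
      (fun χ => Λ χ s) (fun χ hχ => by
        have h3 := hL2 χ
        rw [((hΛ χ hχ).2.1 s hs).tsum_eq] at h3
        exact h3)
    have hL4 := ArithmeticFunction.LSeriesHasSum_mul hL1 hL3
    rw [← q5_AI K N ψ h2 hU h] at hL4
    have h5 : ∑' a, tm (PsiP N ψ) s a = Λ₀ s * ∏ χ ∈ (XS p n n).erase 1, Λ χ s := by
      rw [hL.unique hL4, (hs0 s hs).tsum_eq]
    show HasSum (tm (PsiP N ψ) s) (Λ₀ s * ∏ χ ∈ (XS p n n).erase 1, Λ χ s)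
    rw [← h5]
    exact hsum.of_norm.hasSum
  · refine mul_ne_zero (by rw [hv0]; exact h0') ?_
    exact Finset.prod_ne_zero_iff.2 fun χ hχ => (hΛ χ hχ).2.2.1
  · have hp0 : V.valuation (p : ℂ) ≠ 0 :=
      (Valuation.ne_zero_iff _).2 (Nat.cast_ne_zero.2 hp.out.ne_zero)
    have hcard1 : ((XS p n n).erase 1).card + 1 = p ^ n := by
      rw [Finset.card_erase_of_mem hmem1, hcard, Nat.sub_add_cancel (Nat.one_le_pow _ _ hp.out.pos)]
    have h5 : Om ^ Module.finrank F N = Om ^ Module.finrank F K *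
        ∏ χ ∈ (XS p n n).erase 1, Om ^ Module.finrank F K := by
      rw [← Module.finrank_mul_finrank F K N, hn, pow_mul, Finset.prod_const, ← pow_succ', hcard1]
    have hval : V.valuation (Λ₀ 1 * (∏ χ ∈ (XS p n n).erase 1, Λ χ 1) / Om ^ Module.finrank F N) ^ 2 =
        ∏ χ ∈ (XS p n n).erase 1, V.valuation (Λ χ 1 / Om ^ Module.finrank F K) ^ 2 := by
      rw [h5, mul_div_mul_comm, ← Finset.prod_div_distrib, map_mul, hv0, h1 V hV, one_mul, map_prod, Finset.prod_pow]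
    obtain ⟨y, hy⟩ : ∃ y : ℕ → V.ValueGroup, ∀ k, y k * V.valuation (p : ℂ) ^ (Module.finrank F K * (k + 2)) =
        V.valuation (Complex.exp (2 * Real.pi * Complex.I / ((p ^ (k + 1) : ℕ) : ℂ)) - 1) ^
          (2 * Module.finrank F K * H35K.J p (k + 1)) :=
      ⟨fun k => V.valuation (Complex.exp (2 * Real.pi * Complex.I / ((p ^ (k + 1) : ℕ) : ℂ)) - 1) ^
          (2 * Module.finrank F K * H35K.J p (k + 1)) / V.valuation (p : ℂ) ^ (Module.finrank F K * (k + 2)),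
        fun k => div_mul_cancel₀ _ (pow_ne_zero _ hp0)⟩
    have hzz : ∀ k, ∀ z : ℂ, IsPrimitiveRoot z (p ^ (k + 1)) → V.valuation (z - 1) =
        V.valuation (Complex.exp (2 * Real.pi * Complex.I / ((p ^ (k + 1) : ℕ) : ℂ)) - 1) := by
      intro k z hz
      have hpos : 0 < p ^ (k + 1) := pow_pos hp.out.pos _
      have h6 := q6_root V hz
      have h7 := q6_root V (Complex.isPrimitiveRoot_exp (p ^ (k + 1)) hpos.ne')
      have hne : p ^ (k + 1) - p ^ k ≠ 0 := by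
        have : p ^ k < p ^ (k + 1) := Nat.pow_lt_pow_right hp.out.one_lt (Nat.lt_succ_self k)
        omega
      exact (pow_left_inj₀ zero_le zero_le hne).1 (h6.trans h7.symm)
    have hprod := q4_ord h2 n (fun χ : DirichletCharacter ℂ (p ^ (n + 1)) =>
      if χ ∈ (XS p n n).erase 1 then V.valuation (Λ χ 1 / Om ^ Module.finrank F K) ^ 2 else y (Nat.log p (orderOf χ) - 1)) y ?_
    · rw [Finset.prod_congr rfl (fun χ hχ => if_pos hχ)] at hprod
      rw [hval, hprod]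
      have h8 : ∀ m, (∏ k ∈ Finset.range m, y k ^ (p ^ (k + 1) - p ^ k)) * V.valuation (p : ℂ) ^ (Module.finrank F K * En p m) =
          V.valuation (p : ℂ) ^ (2 * Module.finrank F K * ∑ k ∈ Finset.range m, H35K.J p (k + 1)) := by
        intro m
        induction m with
        | zero => simp [En]
        | succ m ih =>
          have h9 : En p (m + 1) = En p m + (m + 2) * (p ^ (m + 1) - p ^ m) := by
            unfold En
            rw [Finset.sum_range_succ]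
          have hpos : 0 < p ^ (m + 1) := pow_pos hp.out.pos _
          have h7 := q6_root V (Complex.isPrimitiveRoot_exp (p ^ (m + 1)) hpos.ne')
          have h10 : y m ^ (p ^ (m + 1) - p ^ m) *
              V.valuation (p : ℂ) ^ (Module.finrank F K * (m + 2) * (p ^ (m + 1) - p ^ m)) =
              V.valuation (p : ℂ) ^ (2 * Module.finrank F K * H35K.J p (m + 1)) := by
            rw [pow_mul _ (Module.finrank F K * (m + 2)), ← mul_pow, hy m, ← pow_mul, mul_comm _ (p ^ (m + 1) - p ^ m),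
              pow_mul, h7]
          obtain ⟨e, he⟩ : ∃ e, e = p ^ (m + 1) - p ^ m := ⟨_, rfl⟩
          rw [← he] at h9 h10
          rw [Finset.prod_range_succ, Finset.sum_range_succ, h9, ← he, mul_add (Module.finrank F K),
            pow_add (V.valuation (p : ℂ)) (Module.finrank F K * En p m), mul_add (2 * Module.finrank F K),
            pow_add (V.valuation (p : ℂ)) (2 * Module.finrank F K * _), ← ih, ← h10,
            ← mul_assoc (Module.finrank F K) (m + 2)]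
          exact mul_mul_mul_comm _ _ _ _
      exact h8 n
    · intro k hk χ hχ
      by_cases hm : χ ∈ (XS p n n).erase 1
      · show (if χ ∈ (XS p n n).erase 1 then _ else _) = _
        rw [if_pos hm]
        obtain ⟨-, -, -, k', hk', ho, z, hz, hVz⟩ := hΛ χ hm
        have hkk : k' = k := by
          have h11 := Nat.pow_right_injective hp.out.two_le (ho.symm.trans hχ)
          omega
        subst hkk
        have h12 := hVz V hV
        rw [hzz k' z hz, ← hy k'] at h12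
        exact mul_right_cancel₀ (pow_ne_zero _ hp0) h12
      · exfalso
        apply hm
        rw [Finset.mem_erase, q4_mem, hχ]
        refine ⟨?_, pow_dvd_pow p (by omega)⟩
        rintro rfl
        rw [orderOf_one] at hχ
        exact absurd hχ (Nat.one_lt_pow k.succ_ne_zero hp.out.one_lt).ne
end

end H55Z
end

-- from Lib.SSG.S.S3
section

/-! # SSG, part S (E4), S: the continuation of the twisted series beyond Re s = 3/2 -/

open NumberField IsDedekindDomain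

namespace SSG.S

open H55N H55P

variable {F : Type} [Field F] [NumberField F] [IQ F] {K : Type} [Field K] [NumberField K] [Algebra F K]

/-- The character vanishes on the ideals which are not prime to p. -/
theorem s3_zero {p : ℕ} [hp : Fact p.Prime] {k : ℕ} (χ : DirichletCharacter ℂ (p ^ (k + 1)))
    (a : Ideal (𝓞 K)) (ha : ¬ IsCoprime a (Ideal.span {((p ^ (k + 1) : ℕ) : 𝓞 K)})) : H55Z.chN K χ a = 0 := by
  have h1 : ¬ IsCoprime a (Ideal.span {(p : 𝓞 K)}) := by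
    intro h
    apply ha
    rw [Nat.cast_pow, ← Ideal.span_singleton_pow]
    exact h.pow_right
  have h2 : p ∣ Ideal.absNorm a := by
    by_contra h3
    apply h1
    have h4 : Nat.Coprime p (Ideal.absNorm a) := (Nat.Prime.coprime_iff_not_dvd hp.out).2 h3
    have h5 : IsCoprime ((p : ℕ) : ℤ) ((Ideal.absNorm a : ℕ) : ℤ) := Nat.isCoprime_iff_coprime.2 h4
    obtain ⟨u, v, huv⟩ := h5
    rw [Ideal.isCoprime_iff_exists]
    refine ⟨(v : 𝓞 K) * ((Ideal.absNorm a : ℕ) : 𝓞 K), Ideal.mul_mem_left _ _ (Ideal.absNorm_mem a),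
      (u : 𝓞 K) * ((p : ℕ) : 𝓞 K), Ideal.mul_mem_left _ _ (Ideal.mem_span_singleton_self _), ?_⟩
    have h6 := congrArg (fun z : ℤ => (z : 𝓞 K)) huv
    push_cast at h6
    rw [← h6]
    ring
  rw [H55Z.chN_apply]
  apply χ.map_nonunit
  rw [ZMod.isUnit_iff_coprime]
  intro h3
  exact Nat.Prime.not_coprime_iff_dvd.2 ⟨p, hp.out, h2, dvd_pow_self p k.succ_ne_zero⟩ h3

/-- The character of a principal ideal depends only on the generator modulo p^N. -/
theorem s3_cong (F : Type) [Field F] [NumberField F] [IQ F] {K : Type} [Field K] [NumberField K] [Algebra F K]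
    {p : ℕ} [hp : Fact p.Prime] {k : ℕ} (χ : DirichletCharacter ℂ (p ^ (k + 1)))
    (x y : 𝓞 K) (h : x - y ∈ Ideal.span {((p ^ (k + 1) : ℕ) : 𝓞 K)}) :
    H55Z.chN K χ (Ideal.span {x}) = H55Z.chN K χ (Ideal.span {y}) := by
  rw [H55Z.chN_apply, H55Z.chN_apply]
  congr 1
  have h1 : x - y ∈ mK K (Ideal.span {((p : 𝓞 F)) ^ (k + 1)}) := by
    unfold mK
    rw [Ideal.map_span, Set.image_singleton, map_pow, map_natCast, ← Nat.cast_pow]
    exact h
  have h2 := intNorm_cong (Ideal.span {((p : 𝓞 F)) ^ (k + 1)}) x y h1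
  rw [Ideal.mem_span_singleton] at h2
  have h3 : ∀ z : 𝓞 K, Ideal.absNorm (Ideal.span {z}) = SSG.nrm (Algebra.intNorm (𝓞 F) (𝓞 K) z) := by
    intro z
    rw [← Ideal.absNorm_relNorm (𝓞 F), Ideal.relNorm_singleton, Ideal.absNorm_span_singleton]
    rfl
  rw [h3 x, h3 y]
  exact d1_nrm h2

theorem s3_cont {p : ℕ} [hp : Fact p.Prime] {M : Ideal (𝓞 F)} {ψ : Ideal (𝓞 F) →*₀ 𝓞 F} (h : IsHecke M ψ)
    (hMp : IsCoprime M (Ideal.span {(p : 𝓞 F)})) {m : ℕ} (hm : Module.finrank F K = m + 1) {k : ℕ}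
    (χ : DirichletCharacter ℂ (p ^ (k + 1))) :
    ∃ Z0 : ℂ → ℂ, AnalyticOnNhd ℂ Z0 {s | 3 / 2 - 1 / (2 * (m + 1 : ℝ)) < s.re} ∧
      ∀ s : ℂ, 3 / 2 < s.re → HasSum (tm (PsiP K ψ * H55Z.chN K χ : Ideal (𝓞 K) →*₀ ℂ) s) (Z0 s) := by
  classical
  obtain ⟨l, hl⟩ := h.toMod p hMp
  obtain ⟨w0, hw0l, hw0M⟩ := pt9_prime K hl
  obtain ⟨f, hf⟩ : ∃ f : Ideal (𝓞 K), f = Ideal.span {((p ^ (k + 1) : ℕ) : 𝓞 K)} := ⟨_, rfl⟩
  have hpne : (p : 𝓞 K) ≠ 0 := by
    rw [Ne, Nat.cast_eq_zero]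
    exact hp.out.ne_zero
  have hf0 : f ≠ ⊥ := by
    rw [hf, Ne, Ideal.span_singleton_eq_bot, Nat.cast_pow]
    exact pow_ne_zero _ hpne
  have hJM : mK K M * f ≤ mK K M := Ideal.mul_le_left
  have hJ0 : mK K M * f ≠ ⊥ := mul_ne_zero (pt9_mK_ne h.ne) hf0
  have hJ1 : mK K M * f ≠ ⊤ := by
    intro h1
    apply w0.isPrime.ne_top
    rw [← top_le_iff, ← h1]
    exact hJM.trans hw0M
  have hg0 : Ideal.span {(p : 𝓞 K)} * (mK K M * f) ≠ ⊥ := by
    refine mul_ne_zero ?_ hJ0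
    have h1 : Ideal.span {(p : 𝓞 K)} ≠ ⊥ := by
      rw [Ne, Ideal.span_singleton_eq_bot]
      exact hpne
    exact h1
  have hgJ : Ideal.span {(p : 𝓞 K)} * (mK K M * f) ≤ mK K M * f := Ideal.mul_le_right
  obtain ⟨ι, hι, b, c₀, T, hcd⟩ := exists_CDJ (mK K M * f) (Ideal.span {(p : 𝓞 K)} * (mK K M * f))
    hJ0 hg0 hgJ hJ1
  have hbp : ∀ i, IsCoprime (b i) (Ideal.span {(p : 𝓞 K)}) := fun i =>
    (hcd.cop i).of_mul_right_left
  have hlam : ∀ i, c₀ i ∉ Ideal.span {algebraMap (𝓞 F) (𝓞 K) l} * b i := by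
    intro i hi
    refine hcd.prim i w0 (hJM.trans hw0M) (Ideal.mul_mono_left ?_ hi)
    rw [Ideal.span_singleton_le_iff_mem]
    exact hw0l
  have hnop := fun i => nopoles p hp.out hl K m hm (b i) f (hcd.ne i) hf0 (c₀ i) (hcd.mem i) (hlam i)
  choose Z0 hZ0 hZ0s using hnop
  have hMtop : (mK K M * ⊤ : Ideal (𝓞 K)) = mK K M := Ideal.mul_top _
  have hkap := fun i => k1_kappa p hp.out h hMp (b i) (hcd.ne i)
    (by
      rw [hMtop]
      exact IsCoprime.mul_right (hbp i) (hcd.cop i).of_mul_right_right.of_mul_right_left) (c₀ i) (hcd.mem i)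
    (fun w hw => hcd.prim i w (hJM.trans (by rw [hMtop] at hw; exact hw)))
  choose κ _ _ hκ using hkap
  have hbne : ∀ i, H55Z.chN K χ (b i) ≠ 0 := by
    intro i
    rw [H55Z.chN_apply]
    have h1 : IsUnit (((Ideal.absNorm (b i) : ℕ)) : ZMod (p ^ (k + 1))) := by
      rw [ZMod.isUnit_iff_coprime]
      exact Nat.Coprime.pow_right _ ((Nat.Prime.coprime_iff_not_dvd hp.out).2
        (absNorm_cop p hp.out (b i) (hbp i))).symm
    exact (h1.map χ).ne_zero
  have hC : CoefP F (mK K M * f) ι b c₀ (PsiP K ψ * H55Z.chN K χ)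
      (fun i => κ i * (H55Z.chN K χ (Ideal.span {c₀ i}) * (H55Z.chN K χ (b i))⁻¹)) := by
    refine coef_mulP h (fun a ha => s3_zero χ a (by rw [← hf]; exact ha)) (fun a => H55Z.chN_norm K χ a) ?_
    intro i x hx a ha
    have hx' : x ∈ XS (mK K M * ⊤ * b i) (c₀ i) := by
      have h1 : mK K M * f * b i ≤ mK K M * ⊤ * b i := Ideal.mul_mono_left (Ideal.mul_mono_right le_top)
      exact h1 hx
    obtain ⟨hx0, hpsi⟩ := hκ i x hx' a ha
    refine ⟨hx0, ?_⟩
    have hxf : x - c₀ i ∈ Ideal.span {((p ^ (k + 1) : ℕ) : 𝓞 K)} := by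
      rw [← hf]
      have h1 : mK K M * f * b i ≤ f := Ideal.mul_le_left.trans Ideal.mul_le_right
      exact h1 hx
    have h2 : H55Z.chN K χ a * H55Z.chN K χ (b i) = H55Z.chN K χ (Ideal.span {c₀ i}) := by
      rw [← map_mul, ha]
      exact s3_cong F χ x (c₀ i) hxf
    show PsiP K ψ a * H55Z.chN K χ a = _
    rw [hpsi, ← h2, mul_inv_cancel_right₀ (hbne i)]
    ring
  have hNb : ∀ i, Ideal.absNorm (b i) ≠ 0 := fun i => by
    rw [Ne, Ideal.absNorm_eq_zero_iff]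
    exact hcd.ne i
  refine ⟨fun s : ℂ => ∑ i, (κ i * (H55Z.chN K χ (Ideal.span {c₀ i}) * (H55Z.chN K χ (b i))⁻¹)) *
    (Ideal.absNorm (b i) : ℂ) ^ s * Z0 i s, ?_, fun s hs' => ?_⟩
  · intro s hs'
    exact Finset.analyticAt_fun_sum _ fun i _ =>
      (analyticAt_const.mul (pt3_pow_analytic _ (hNb i) Set.univ s trivial)).mul (hZ0 i s hs')
  · exact series_eq0P hgJ hJ1 hcd hC Z0 s fun i => hZ0s i (T i) (hcd.trans i) s hs'

end SSG.S
end
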