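import Mathlib
import Pool.Agent.Lib.H1M.PP2.M045
import Pool.Agent.Lib.H1M.PP2.M052

/-! Merged copies (to shorten the build) of Lib.SSG.Z.A1, Lib.SSG.Z.A2, Lib.SSG.Z.A3, Lib.SSG.Z.A4, Lib.SSG.Z.A5, Lib.SSG.Z.A6, Lib.SSG.Z.L1, Lib.SSG.Z.L2, Lib.SSG.Z.L3, Lib.SSG.Z.L4. -/

-- from Lib.SSG.Z.A1
section

/-! Chunk A1 (S/M). Pure algebra of abelian groups (PP p X = elements killed by a power of p, SSG/Z/ZD.lean; lemmas pp_inj, pp_surj, pp_card, ppMap in ZH.lean).
PROOF. 2 and d are prime to p. T (r x) = r x (r (k (r x)) = 2 r x = r x + T r x). Y+ = the y in PP with T y = y, Y- = those with T y = -y.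
(1) y -> (y + T y, y - T y) is a bijection PP p Y -> Y+ x Y-: injective (2 y is determined, pp_inj for the difference); surjective: given (u, v) choose y with 2 y = u + v (pp_surj: y = n • (u + v)), then 2 (y + T y) = 2 u, 2 (y - T y) = 2 v, pp_inj.
(2) r : PP p X -> Y+ is a bijection: injective since k r = 2; surjective: u = 2 w (pp_surj, w = n • u, so T w = w), r (k w) = w + T w = 2 w = u.
(3) a : Y- -> Y+ is a bijection: T (a v) = -a (T v) = a v; injective: a (a v) = -(d v); surjective: u = d w with w = n • u in Y+, v = -(a w) is in Y-, a v = -(a (a w)) = d w = u.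
So card = card Y+ * card Y- = card Y+ ^ 2 = card (PP p X) ^ 2 (Nat.card_congr, Nat.card_prod; no finiteness needed). -/

namespace SSG

theorem two_card {X Y : Type} [AddCommGroup X] [AddCommGroup Y] {p d : ℕ} (hp : p.Prime) (hp2 : p ≠ 2) (hd : ¬ p ∣ d) (r : X →+ Y)
    (k : Y →+ X) (T a : Y →+ Y) (hkr : ∀ x, k (r x) = 2 • x) (hrk : ∀ y, r (k y) = y + T y) (hT : ∀ y, T (T y) = y)
    (haa : ∀ y, a (a y) = -(d • y)) (hTa : ∀ y, T (a y) = -(a (T y))) : Nat.card (PP p Y) = Nat.card (PP p X) ^ 2 := by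
  have h2 : ¬ p ∣ 2 := fun h => hp2 ((Nat.prime_dvd_prime_iff_eq hp Nat.prime_two).1 h)
  have h2d : ¬ p ∣ 2 * d := fun h => (hp.dvd_mul.1 h).elim h2 hd
  have hTr : ∀ x, T (r x) = r x := by
    intro x
    have h := hrk (r x)
    rw [hkr, map_nsmul, two_nsmul] at h
    exact (add_left_cancel h).symm
  have hkar : ∀ x, (∃ l : ℕ, p ^ l • x = 0) → k (a (r x)) = 0 := by
    intro x hx
    obtain ⟨l, hl⟩ := hx
    refine pp_inj hp h2 ⟨l, ?_⟩ ?_
    · rw [← map_nsmul, ← map_nsmul, ← map_nsmul, hl, map_zero, map_zero, map_zero]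
    · rw [← hkr, hrk, hTa, hTr, add_neg_cancel, map_zero]
  have hbij : Function.Bijective (fun y : PP p Y => (ppMap k y, ppMap (k.comp a) y)) := by
    refine ⟨fun y y' h => ?_, fun x => ?_⟩
    · apply pp_ext
      have h1 : k y.1 = k y'.1 := congrArg (fun z : PP p X × PP p X => z.1.1) h
      have h3 : k (a y.1) = k (a y'.1) := congrArg (fun z : PP p X × PP p X => z.2.1) h
      rw [← sub_eq_zero, ← map_sub] at h1
      rw [← sub_eq_zero, ← map_sub, ← map_sub] at h3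
      rw [← sub_eq_zero]
      obtain ⟨w, hw⟩ : ∃ w, w = y.1 - y'.1 := ⟨_, rfl⟩
      rw [← hw] at h1 h3 ⊢
      have hpw : ∃ l : ℕ, p ^ l • w = 0 := by
        obtain ⟨l, hl⟩ := y.2
        obtain ⟨l', hl'⟩ := y'.2
        refine ⟨l + l', ?_⟩
        rw [hw, smul_sub, pow_add, mul_smul, mul_smul, smul_comm (p ^ l) (p ^ l') y.1, hl, hl', smul_zero,
          smul_zero, sub_zero]
      have h4 : T w = -w := by
        have := hrk w
        rw [h1, map_zero] at this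
        exact (neg_eq_of_add_eq_zero_right this.symm).symm
      have h5 : a w + a w = 0 := by
        have := hrk (a w)
        rw [h3, map_zero, hTa, h4, map_neg, neg_neg] at this
        exact this.symm
      refine pp_inj hp h2d hpw ?_
      have h6 : a (a w + a w) = 0 := by rw [h5, map_zero]
      rw [map_add, haa, ← neg_add, neg_eq_zero] at h6
      rw [two_mul, add_smul]
      exact h6
    · obtain ⟨x₁, x₂⟩ := x
      obtain ⟨n₁, hn₁⟩ := pp_surj hp h2 x₁.2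
      obtain ⟨n₂, hn₂⟩ := pp_surj hp h2d x₂.2
      obtain ⟨l₁, hl₁⟩ := x₁.2
      obtain ⟨l₂, hl₂⟩ := x₂.2
      have hy₁ : p ^ l₁ • (n₁ • x₁.1) = 0 := by rw [smul_comm, hl₁, smul_zero]
      have hy₂ : p ^ l₂ • (n₂ • x₂.1) = 0 := by rw [smul_comm, hl₂, smul_zero]
      refine ⟨⟨r (n₁ • x₁.1) - a (r (n₂ • x₂.1)), l₁ + l₂, ?_⟩, ?_⟩
      · rw [smul_sub, pow_add]
        have e1 : (p ^ l₁ * p ^ l₂) • r (n₁ • x₁.1) = 0 := by
          rw [mul_comm, mul_smul, ← map_nsmul r, hy₁, map_zero, smul_zero]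
        have e2 : (p ^ l₁ * p ^ l₂) • a (r (n₂ • x₂.1)) = 0 := by
          rw [mul_smul, ← map_nsmul a, ← map_nsmul r, hy₂, map_zero, map_zero, smul_zero]
        rw [e1, e2, sub_zero]
      · refine Prod.ext (pp_ext ?_) (pp_ext ?_)
        · show k (r (n₁ • x₁.1) - a (r (n₂ • x₂.1))) = x₁.1
          rw [map_sub, hkr, hkar _ ⟨l₂, hy₂⟩, sub_zero, hn₁]
        · show k (a (r (n₁ • x₁.1) - a (r (n₂ • x₂.1)))) = x₂.1
          rw [map_sub, map_sub, hkar _ ⟨l₁, hy₁⟩, haa, map_neg, zero_sub, neg_neg, map_nsmul, hkr,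
            ← mul_smul, mul_comm d 2, hn₂]
  rw [Nat.card_congr (Equiv.ofBijective _ hbij), Nat.card_prod, sq]

end SSG
end

-- from Lib.SSG.Z.A2
section

/-! Chunk A2 (S/M). Conjugation. (cj H τ h = τ⁻¹ h τ: cj_coe.)
conj_hom: eqv: τ (τ⁻¹ g τ a) = g τ a (map_mul of S.act: S.act (g * h) a = S.act g (S.act h a)). U: u = u'.subgroupOf H, hS.U u' with g = τ⁻¹: x in u'' gives τ⁻¹ x τ in u' (inv_inv). D: similarly with hS.D.
conj_triv: t in H: the class of (h ↦ t c(t⁻¹ h t)) minus c is the coboundary of c(t): c(h t) = c(h) + h c(t) and c(h t) = c(t (t⁻¹ h t)) = c(t) + t c(t⁻¹ h t). Use LS.cl_eq with P = c t (c : H → A; everything is an identity in H: h * ⟨t, ht⟩ = ⟨t, ht⟩ * cj H t h by Subtype.ext and group).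
conj_twice: the composite of the map for τ with itself is the map for τ * τ in H: on cocycles, τ (τ c(τ⁻¹ (τ⁻¹ h τ) τ)) = (τ τ) c((τ τ)⁻¹ h (τ τ)); then conj_triv. (Hom.map_cl, mapZ_apply; LS.cl_surj.) -/

namespace SSG

variable {G A : Type} [Group G] [AddCommGroup A]

theorem a2_act (S : LS G A) (g h : G) (a : A) : S.act (g * h) a = S.act g (S.act h a) := by
  rw [map_mul]
  rfl

theorem conj_hom {S : LS G A} (hS : S.Conj) (H : Subgroup G) [H.Normal] (τ : G) : Hom (S.res H) (S.res H) (cj H τ) (S.act τ : A →+ A) := by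
  refine ⟨fun g a => ?_, ?_, ?_⟩
  · show S.act τ (S.act ((cj H τ g : H) : G) a) = S.act (g : G) (S.act τ a)
    rw [← a2_act, ← a2_act, cj_coe]
    congr 2
    group
  · rintro _ ⟨u, hu, rfl⟩
    obtain ⟨u', hu', h1⟩ := hS.U u hu τ⁻¹
    refine ⟨_, ⟨u', hu', rfl⟩, fun g hg => ?_⟩
    rw [Subgroup.mem_subgroupOf, cj_coe]
    have h2 := h1 _ (Subgroup.mem_subgroupOf.1 hg)
    rwa [inv_inv] at h2
  · rintro _ ⟨d, hd, rfl⟩
    obtain ⟨d', hd', h1⟩ := hS.D d hd τ⁻¹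
    refine ⟨_, ⟨d', hd', rfl⟩, fun g hg => ?_⟩
    rw [Subgroup.mem_subgroupOf, cj_coe]
    have h2 := h1 _ (Subgroup.mem_subgroupOf.1 hg)
    rwa [inv_inv] at h2

theorem conj_triv {S : LS G A} (hS : S.Conj) (H : Subgroup G) [H.Normal] {t : G} (ht : t ∈ H) (x : (S.res H).Sha) :
    (conj_hom hS H t).map x = x := by
  obtain ⟨c, rfl⟩ := (S.res H).cl_surj x
  refine ((S.res H).cl_eq ((conj_hom hS H t).mapZ c) c).2 ⟨c.1 ⟨t, ht⟩, fun h => ?_⟩
  show S.act t (c.1 (cj H t h)) = _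
  have hc : (S.res H).IsZ c.1 := c.2
  have h1 := hc.mul h ⟨t, ht⟩
  have h2 := hc.mul ⟨t, ht⟩ (cj H t h)
  have h3 : h * ⟨t, ht⟩ = ⟨t, ht⟩ * cj H t h := by
    apply Subtype.ext
    show (h : G) * t = t * ((cj H t h : H) : G)
    rw [cj_coe]
    group
  rw [h3, h2] at h1
  have h4 : (S.res H).act ⟨t, ht⟩ (c.1 (cj H t h)) = S.act t (c.1 (cj H t h)) := rfl
  rw [h4] at h1
  have h5 : S.act t (c.1 (cj H t h)) =
      c.1 h + (S.res H).act h (c.1 ⟨t, ht⟩) - c.1 ⟨t, ht⟩ := by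
    rw [← h1]
    abel
  rw [h5]
  abel

theorem conj_twice {S : LS G A} (hS : S.Conj) (H : Subgroup G) [H.Normal] {τ : G} (ht : τ * τ ∈ H) (x : (S.res H).Sha) :
    (conj_hom hS H τ).map ((conj_hom hS H τ).map x) = x := by
  have h0 := conj_triv hS H ht x
  obtain ⟨c, rfl⟩ := (S.res H).cl_surj x
  have h1 : (conj_hom hS H τ).mapZ ((conj_hom hS H τ).mapZ c) = (conj_hom hS H (τ * τ)).mapZ c := by
    apply Subtype.ext
    funext h
    show S.act τ (S.act τ (c.1 (cj H τ (cj H τ h)))) = S.act (τ * τ) (c.1 (cj H (τ * τ) h))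
    have h2 : cj H (τ * τ) h = cj H τ (cj H τ h) := by
      apply Subtype.ext
      rw [cj_coe, cj_coe, cj_coe]
      group
    rw [h2, a2_act]
  exact Eq.trans (congrArg (S.res H).cl h1) h0

end SSG
end

-- from Lib.SSG.Z.A3
section

/-! Chunk A3 (M). The corestriction is a cocycle. Index two: for τ not in H, g in H iff g τ not in H iff τ⁻¹ g not in H, and g in H iff τ⁻¹ g τ in H (Subgroup.mul_mem_iff_of_index_two: a * b ∈ H ↔ (a ∈ H ↔ b ∈ H); inv_mem_iff).
Write f = ext0 H c (ext0_mem, ext0_not). corF for g in H: f g + τ f(τ⁻¹ g τ) (the other two terms vanish); for g not in H: f(g τ) + τ f(τ⁻¹ g). First prove: for a, b in H: f (a b) = f a + a f b. Then cor (g h) = cor g + g cor h in four cases: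
(g, h in H): f(g h) + τ f(τ⁻¹ g τ τ⁻¹ h τ) with τ (τ⁻¹ g τ) = g τ. (g in H, h not): cor(gh) = f(g (h τ)) + τ f((τ⁻¹ g τ)(τ⁻¹ h)). (g not in H, h in H): cor(gh) = f((g τ)(τ⁻¹ h τ)) + τ f((τ⁻¹ g) h) and g τ, τ⁻¹ g are in H: = f(gτ) + g τ f(τ⁻¹ h τ) + τ f(τ⁻¹ g) + g f(h). (both not):
cor(gh) = f((g τ)(τ⁻¹ h)) + τ f((τ⁻¹ g)(h τ)) = f(gτ) + g τ f(τ⁻¹ h) + τ f(τ⁻¹ g) + g f(h τ). -/

namespace SSG

variable {G A : Type} [Group G] [AddCommGroup A]

theorem a3_aa (S : LS G A) (a b : G) (x : A) : S.act a (S.act b x) = S.act (a * b) x := by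
  rw [map_mul]; rfl

theorem a3_in (S : LS G A) (H : Subgroup G) (hi : H.index = 2) {τ : G} (hτ : τ ∉ H) (c : H → A) {g : G} (hg : g ∈ H) :
    corF S H τ c g = ext0 H c g + S.act τ (ext0 H c (τ⁻¹ * g * τ)) := by
  have h1 : g * τ ∉ H := by rw [Subgroup.mul_mem_iff_of_index_two hi]; tauto
  have h2 : τ⁻¹ * g ∉ H := by rw [Subgroup.mul_mem_iff_of_index_two hi, inv_mem_iff]; tauto
  unfold corF
  rw [ext0_not c h1, ext0_not c h2, map_zero, add_zero, add_zero]

theorem a3_out (S : LS G A) (H : Subgroup G) (hi : H.index = 2) {τ : G} (hτ : τ ∉ H) (c : H → A) {g : G} (hg : g ∉ H) :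
    corF S H τ c g = ext0 H c (g * τ) + S.act τ (ext0 H c (τ⁻¹ * g)) := by
  have h1 : τ⁻¹ * g * τ ∉ H := by
    rw [Subgroup.mul_mem_iff_of_index_two hi, Subgroup.mul_mem_iff_of_index_two hi, inv_mem_iff]; tauto
  unfold corF
  rw [ext0_not c hg, ext0_not c h1, map_zero, add_zero, zero_add]

theorem a3_add (S : LS G A) (H : Subgroup G) {c : H → A} (hc : ∀ g h, c (g * h) = c g + S.act g (c h)) {a b : G} (ha : a ∈ H)
    (hb : b ∈ H) : ext0 H c (a * b) = ext0 H c a + S.act a (ext0 H c b) := by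
  rw [ext0_mem c ha, ext0_mem c hb, ext0_mem c (H.mul_mem ha hb)]
  exact hc ⟨a, ha⟩ ⟨b, hb⟩

theorem cor_mul (S : LS G A) (H : Subgroup G) (hi : H.index = 2) {τ : G} (hτ : τ ∉ H) {c : H → A}
    (hc : ∀ g h, c (g * h) = c g + S.act g (c h)) (g h : G) :
    corF S H τ c (g * h) = corF S H τ c g + S.act g (corF S H τ c h) := by
  have hm : ∀ a b : G, a * b ∈ H ↔ (a ∈ H ↔ b ∈ H) := fun a b => Subgroup.mul_mem_iff_of_index_two hi
  have hinv : ∀ a : G, a⁻¹ ∈ H ↔ a ∈ H := fun a => inv_mem_iff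
  by_cases hg : g ∈ H <;> by_cases hh : h ∈ H
  · have h1 : g * h ∈ H := H.mul_mem hg hh
    have h2 : τ⁻¹ * g * τ ∈ H := by rw [hm, hm, hinv]; tauto
    have h3 : τ⁻¹ * h * τ ∈ H := by rw [hm, hm, hinv]; tauto
    have h4 : τ⁻¹ * (g * h) * τ = (τ⁻¹ * g * τ) * (τ⁻¹ * h * τ) := by group
    rw [a3_in S H hi hτ c h1, a3_in S H hi hτ c hg, a3_in S H hi hτ c hh, h4, a3_add S H hc hg hh, a3_add S H hc h2 h3,
      map_add, map_add, a3_aa, a3_aa, show τ * (τ⁻¹ * g * τ) = g * τ by group]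
    abel
  · have h1 : g * h ∉ H := by rw [hm]; tauto
    have h2 : τ⁻¹ * g * τ ∈ H := by rw [hm, hm, hinv]; tauto
    have h3 : h * τ ∈ H := by rw [hm]; tauto
    have h3' : τ⁻¹ * h ∈ H := by rw [hm, hinv]; tauto
    have h4 : g * h * τ = g * (h * τ) := by group
    have h5 : τ⁻¹ * (g * h) = (τ⁻¹ * g * τ) * (τ⁻¹ * h) := by group
    rw [a3_out S H hi hτ c h1, a3_in S H hi hτ c hg, a3_out S H hi hτ c hh, h4, h5, a3_add S H hc hg h3, a3_add S H hc h2 h3',
      map_add, map_add, a3_aa, a3_aa, show τ * (τ⁻¹ * g * τ) = g * τ by group]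
    abel
  · have h1 : g * h ∉ H := by rw [hm]; tauto
    have h2 : τ⁻¹ * h * τ ∈ H := by rw [hm, hm, hinv]; tauto
    have h3 : g * τ ∈ H := by rw [hm]; tauto
    have h3' : τ⁻¹ * g ∈ H := by rw [hm, hinv]; tauto
    have h4 : g * h * τ = (g * τ) * (τ⁻¹ * h * τ) := by group
    have h5 : τ⁻¹ * (g * h) = (τ⁻¹ * g) * h := by group
    rw [a3_out S H hi hτ c h1, a3_out S H hi hτ c hg, a3_in S H hi hτ c hh, h4, h5, a3_add S H hc h3 h2, a3_add S H hc h3' hh,
      map_add, map_add, a3_aa, a3_aa, show τ * (τ⁻¹ * g) = g by group]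
    abel
  · have h1 : g * h ∈ H := by rw [hm]; tauto
    have h2 : g * τ ∈ H := by rw [hm]; tauto
    have h2' : τ⁻¹ * h ∈ H := by rw [hm, hinv]; tauto
    have h3 : τ⁻¹ * g ∈ H := by rw [hm, hinv]; tauto
    have h3' : h * τ ∈ H := by rw [hm]; tauto
    have h4 : ext0 H c (g * h) = ext0 H c ((g * τ) * (τ⁻¹ * h)) := by congr 1; group
    have h5 : τ⁻¹ * (g * h) * τ = (τ⁻¹ * g) * (h * τ) := by group
    rw [a3_in S H hi hτ c h1, a3_out S H hi hτ c hg, a3_out S H hi hτ c hh, h4, h5, a3_add S H hc h2 h2', a3_add S H hc h3 h3',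
      map_add, map_add, a3_aa, a3_aa, show τ * (τ⁻¹ * g) = g by group]
    abel

end SSG
end

-- from Lib.SSG.Z.A4
section

/-! Chunk A4 (M). The corestriction is continuous and locally trivial. See A3 for the two cases of corF (index two: Subgroup.mul_mem_iff_of_index_two).
cor_cont: c is zero on (u.subgroupOf H), u in S.U; H contains u₀ in S.U; u₁ in S.U with τ⁻¹ x τ in u for x in u₁ (hS.U with g = τ⁻¹, inv_inv). Take w in S.U below u, u₀, u₁ (S.inf twice). For g in w: g in H, τ⁻¹ g τ in H, both terms vanish.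
cor_loc: d in S.D. CASE 1: d ≤ H. P for d (hloc with d.subgroupOf H), P' for d' where τ⁻¹ x τ in d' for x in d (hS.D, g = τ⁻¹; note τ⁻¹ x τ in H by index two). cor c g = g P - P + τ (τ⁻¹gτ P' - P') = g(P + τ P') - (P + τ P').
CASE 2: t in d, t not in H. s = τ⁻¹ t in H (index two). P for d ∩ H. Y = P + t P - τ c(s). For g in d ∩ H: g' = t⁻¹ g t is in d ∩ H, τ⁻¹ g τ = s g' s⁻¹ in H; c(s g' s⁻¹) = c(s) + s (g'P - P) - s g' s⁻¹ c(s) (c(s⁻¹) = -s⁻¹ c(s)); τ s = t, t g' = g t, t s⁻¹ = τ: τ c(τ⁻¹gτ) = τ c(s) + g t P - t P - g τ c(s); cor c g = g Y - Y.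
For g in d, g not in H: g t in d ∩ H, g τ = (g t) s⁻¹: c(g τ) = g t P - P - g τ c(s); τ⁻¹ g = s (t⁻¹ g): c(τ⁻¹ g) = c(s) + s (t⁻¹ g P - P), so τ c(τ⁻¹g) = τ c(s) + g P - t P; the sum is g Y - Y. -/

namespace SSG

variable {G A : Type} [Group G] [AddCommGroup A]

theorem a4_aa (S : LS G A) (a b : G) (x : A) : S.act a (S.act b x) = S.act (a * b) x := by
  rw [map_mul]; rfl

theorem a4_in (S : LS G A) (H : Subgroup G) (hi : H.index = 2) {τ : G} (hτ : τ ∉ H) (c : H → A) {g : G} (hg : g ∈ H) :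
    corF S H τ c g = ext0 H c g + S.act τ (ext0 H c (τ⁻¹ * g * τ)) := by
  have h1 : g * τ ∉ H := by rw [Subgroup.mul_mem_iff_of_index_two hi]; tauto
  have h2 : τ⁻¹ * g ∉ H := by rw [Subgroup.mul_mem_iff_of_index_two hi, inv_mem_iff]; tauto
  unfold corF
  rw [ext0_not c h1, ext0_not c h2, map_zero, add_zero, add_zero]

theorem a4_out (S : LS G A) (H : Subgroup G) (hi : H.index = 2) {τ : G} (hτ : τ ∉ H) (c : H → A) {g : G} (hg : g ∉ H) :
    corF S H τ c g = ext0 H c (g * τ) + S.act τ (ext0 H c (τ⁻¹ * g)) := by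
  have h1 : τ⁻¹ * g * τ ∉ H := by
    rw [Subgroup.mul_mem_iff_of_index_two hi, Subgroup.mul_mem_iff_of_index_two hi, inv_mem_iff]; tauto
  unfold corF
  rw [ext0_not c hg, ext0_not c h1, map_zero, add_zero, zero_add]

theorem a4_add (S : LS G A) (H : Subgroup G) {c : H → A} (hc : ∀ g h, c (g * h) = c g + S.act g (c h)) {a b : G} (ha : a ∈ H)
    (hb : b ∈ H) : ext0 H c (a * b) = ext0 H c a + S.act a (ext0 H c b) := by
  rw [ext0_mem c ha, ext0_mem c hb, ext0_mem c (H.mul_mem ha hb)]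
  exact hc ⟨a, ha⟩ ⟨b, hb⟩

theorem a4_inv (S : LS G A) (H : Subgroup G) {c : H → A} (hc : ∀ g h, c (g * h) = c g + S.act g (c h)) {a : G} (ha : a ∈ H) :
    ext0 H c a⁻¹ = - S.act a⁻¹ (ext0 H c a) := by
  have h1 : ext0 H c (1 : G) = 0 := by
    have := a4_add S H hc H.one_mem H.one_mem
    rw [mul_one, map_one] at this
    have h2 : (1 : AddMonoid.End A) (ext0 H c 1) = ext0 H c 1 := rfl
    rw [h2] at this
    exact left_eq_add.1 this
  have h3 := a4_add S H hc (H.inv_mem ha) ha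
  rw [inv_mul_cancel, h1] at h3
  exact eq_neg_of_add_eq_zero_left h3.symm

theorem cor_cont {S : LS G A} (hS : S.Conj) (H : Subgroup G) (hH : ∃ u ∈ S.U, u ≤ H) (hi : H.index = 2) {τ : G} (hτ : τ ∉ H) {c : H → A}
    (hc : ∃ u ∈ (S.res H).U, ∀ g ∈ u, c g = 0) : ∃ u ∈ S.U, ∀ g ∈ u, corF S H τ c g = 0 := by
  have hm : ∀ a b : G, a * b ∈ H ↔ (a ∈ H ↔ b ∈ H) := fun a b => Subgroup.mul_mem_iff_of_index_two hi
  have hinv : ∀ a : G, a⁻¹ ∈ H ↔ a ∈ H := fun a => inv_mem_iff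
  obtain ⟨_, ⟨u', hu', rfl⟩, h0⟩ := hc
  obtain ⟨u₀, hu₀, h1⟩ := hH
  obtain ⟨u₁, hu₁, h2⟩ := hS.U u' hu' τ⁻¹
  obtain ⟨w₁, hw₁, h3, h3'⟩ := S.inf u' hu' u₀ hu₀
  obtain ⟨w, hw, h4, h4'⟩ := S.inf w₁ hw₁ u₁ hu₁
  refine ⟨w, hw, fun g hg => ?_⟩
  have hgH : g ∈ H := h1 (h3' (h4 hg))
  have h5 : τ⁻¹ * g * τ ∈ H := by rw [hm, hm, hinv]; tauto
  have h6 : ext0 H c g = 0 := by
    rw [ext0_mem c hgH]
    exact h0 _ (h3 (h4 hg))
  have h7 : ext0 H c (τ⁻¹ * g * τ) = 0 := by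
    rw [ext0_mem c h5]
    apply h0
    have := h2 g (h4' hg)
    rw [inv_inv] at this
    exact this
  rw [a4_in S H hi hτ c hgH, h6, h7, map_zero, add_zero]

theorem cor_loc {S : LS G A} (hS : S.Conj) (H : Subgroup G) (hi : H.index = 2) {τ : G} (hτ : τ ∉ H) {c : H → A}
    (hc : (S.res H).IsZ c) : ∀ d ∈ S.D, ∃ P, ∀ g ∈ d, corF S H τ c g = S.act g P - P := by
  have hm : ∀ a b : G, a * b ∈ H ↔ (a ∈ H ↔ b ∈ H) := fun a b => Subgroup.mul_mem_iff_of_index_two hi
  have hinv : ∀ a : G, a⁻¹ ∈ H ↔ a ∈ H := fun a => inv_mem_iff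
  have hmul : ∀ g h : H, c (g * h) = c g + S.act g (c h) := hc.mul
  intro d hd
  obtain ⟨P, hP⟩ := hc.loc (d.subgroupOf H) ⟨d, hd, rfl⟩
  have hP1 : ∀ g ∈ H, g ∈ d → ext0 H c g = S.act g P - P := by
    intro g hg hgd
    rw [ext0_mem c hg]
    exact hP ⟨g, hg⟩ hgd
  by_cases hdH : d ≤ H
  · obtain ⟨d', hd', h1⟩ := hS.D d hd τ⁻¹
    obtain ⟨P', hP'⟩ := hc.loc (d'.subgroupOf H) ⟨d', hd', rfl⟩
    refine ⟨P + S.act τ P', fun g hg => ?_⟩
    have hgH : g ∈ H := hdH hg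
    have h5 : τ⁻¹ * g * τ ∈ H := by rw [hm, hm, hinv]; tauto
    have h6 : ext0 H c (τ⁻¹ * g * τ) = S.act (τ⁻¹ * g * τ) P' - P' := by
      rw [ext0_mem c h5]
      have := h1 g hg
      rw [inv_inv] at this
      exact hP' ⟨_, h5⟩ this
    rw [a4_in S H hi hτ c hgH, h6, hP1 g hgH hg, map_sub, map_add, a4_aa, a4_aa, show τ * (τ⁻¹ * g * τ) = g * τ by group]
    abel
  · obtain ⟨t, htd, htH⟩ := SetLike.not_le_iff_exists.1 hdH
    have hs : τ⁻¹ * t ∈ H := by rw [hm, hinv]; tauto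
    refine ⟨P + S.act t P - S.act τ (ext0 H c (τ⁻¹ * t)), fun g hg => ?_⟩
    by_cases hgH : g ∈ H
    · have h1 : t⁻¹ * g * t ∈ H := by rw [hm, hm, hinv]; tauto
      have h1d : t⁻¹ * g * t ∈ d := d.mul_mem (d.mul_mem (d.inv_mem htd) hg) htd
      have h2 : τ⁻¹ * g * τ = (τ⁻¹ * t) * ((t⁻¹ * g * t) * (τ⁻¹ * t)⁻¹) := by group
      rw [a4_in S H hi hτ c hgH, h2, a4_add S H hmul hs (H.mul_mem h1 (H.inv_mem hs)), a4_add S H hmul h1 (H.inv_mem hs),
        a4_inv S H hmul hs, hP1 g hgH hg, hP1 _ h1 h1d]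
      simp only [map_add, map_sub, map_neg, a4_aa]
      rw [show τ * (τ⁻¹ * t * (t⁻¹ * g * t)) = g * t by group, show τ * (τ⁻¹ * t) = t by group,
        show τ * (τ⁻¹ * t * (t⁻¹ * g * t * (τ⁻¹ * t)⁻¹)) = g * τ by group]
      abel
    · have h1 : g * t ∈ H := by rw [hm]; tauto
      have h1d : g * t ∈ d := d.mul_mem hg htd
      have h2 : t⁻¹ * g ∈ H := by rw [hm, hinv]; tauto
      have h2d : t⁻¹ * g ∈ d := d.mul_mem (d.inv_mem htd) hg
      have h3 : ext0 H c (g * τ) = ext0 H c ((g * t) * (τ⁻¹ * t)⁻¹) := by congr 1; group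
      have h4 : τ⁻¹ * g = (τ⁻¹ * t) * (t⁻¹ * g) := by group
      rw [a4_out S H hi hτ c hgH, h3, h4, a4_add S H hmul h1 (H.inv_mem hs), a4_add S H hmul hs h2, a4_inv S H hmul hs,
        hP1 _ h1 h1d, hP1 _ h2 h2d]
      simp only [map_add, map_sub, map_neg, a4_aa]
      rw [show τ * (τ⁻¹ * t * (t⁻¹ * g)) = g by group, show τ * (τ⁻¹ * t) = t by group,
        show g * t * (τ⁻¹ * t)⁻¹ = g * τ by group]
      abel

end SSG
end

-- from Lib.SSG.Z.A5
section

/-! Chunk A5 (M). The corestriction as a homomorphism of Sha. On cocycles c ↦ corF S H τ c (cor_mul, cor_cont, cor_loc; additive: corF is additive in c since ext0 H is); coboundaries h ↦ h P - P go to g ↦ g (P + τ P) - (P + τ P)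
(g in H: g P - P + τ(τ⁻¹ g τ P - P); g not in H: g τ P - P + τ(τ⁻¹ g P - P); index two: Subgroup.mul_mem_iff_of_index_two); QuotientAddGroup.lift as in Hom.map (ZH.lean: the map of S.B.addSubgroupOf S.Z).
k r = 2: for c in S.Z and g in H: c(g) + τ c(τ⁻¹ g τ) = 2 c(g) + g c(τ) - c(τ); for g not in H: c(g τ) + τ c(τ⁻¹ g) = c(g) + g c(τ) + c(g) - c(τ) (c(g) = c(τ τ⁻¹ g) = c(τ) + τ c(τ⁻¹ g)); so the difference to 2 c is the coboundary of c(τ) (LS.cl_eq; LS.cl_surj to choose c).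
r k = 1 + T: corF on g in H is c(g) + τ c(τ⁻¹ g τ) (ext0_mem, ext0_not; cj_coe). -/

namespace SSG

variable {G A : Type} [Group G] [AddCommGroup A]

theorem a5_ext0_add (H : Subgroup G) (c c' : H → A) (g : G) : ext0 H (c + c') g = ext0 H c g + ext0 H c' g := by
  by_cases h : g ∈ H
  · rw [ext0_mem _ h, ext0_mem _ h, ext0_mem _ h]; rfl
  · rw [ext0_not _ h, ext0_not _ h, ext0_not _ h, add_zero]

/-- The corestriction of cocycles. -/
noncomputable def a5_corZ {S : LS G A} (hS : S.Conj) (H : Subgroup G) (hH : ∃ u ∈ S.U, u ≤ H) (hi : H.index = 2) {τ : G}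
    (hτ : τ ∉ H) : (S.res H).Z →+ S.Z where
  toFun c := ⟨corF S H τ c.1, ⟨cor_mul S H hi hτ c.2.mul, cor_cont hS H hH hi hτ c.2.cont, cor_loc hS H hi hτ c.2⟩⟩
  map_zero' := by
    apply Subtype.ext
    funext g
    show corF S H τ (0 : H → A) g = 0
    have h0 : ∀ x : G, ext0 H (0 : H → A) x = 0 := by
      intro x
      by_cases h : x ∈ H
      · rw [ext0_mem _ h]; rfl
      · rw [ext0_not _ h]
    unfold corF
    simp only [h0, map_zero, add_zero]
  map_add' c c' := by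
    apply Subtype.ext
    funext g
    show corF S H τ (c.1 + c'.1) g = corF S H τ c.1 g + corF S H τ c'.1 g
    unfold corF
    simp only [a5_ext0_add, map_add]
    abel

theorem a5_corZ_apply {S : LS G A} (hS : S.Conj) (H : Subgroup G) (hH : ∃ u ∈ S.U, u ≤ H) (hi : H.index = 2) {τ : G}
    (hτ : τ ∉ H) (c : (S.res H).Z) (g : G) : (a5_corZ hS H hH hi hτ c).1 g = corF S H τ c.1 g := rfl

theorem exists_cor {S : LS G A} (hS : S.Conj) (H : Subgroup G) [H.Normal] (hH : ∃ u ∈ S.U, u ≤ H) (hi : H.index = 2) {τ : G} (hτ : τ ∉ H) :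
    ∃ k : (S.res H).Sha →+ S.Sha, (∀ x, k ((res_hom S H).map x) = 2 • x) ∧
      ∀ y, (res_hom S H).map (k y) = y + (conj_hom hS H τ).map y := by
  have hm : ∀ a b : G, a * b ∈ H ↔ (a ∈ H ↔ b ∈ H) := fun a b => Subgroup.mul_mem_iff_of_index_two hi
  have hinv : ∀ a : G, a⁻¹ ∈ H ↔ a ∈ H := fun a => inv_mem_iff
  refine ⟨QuotientAddGroup.lift ((S.res H).B.addSubgroupOf (S.res H).Z) (S.cl.comp (a5_corZ hS H hH hi hτ)) ?_, ?_, ?_⟩
  · intro c hc
    rw [AddSubgroup.mem_addSubgroupOf] at hc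
    obtain ⟨P, hP⟩ := hc
    have hP1 : ∀ x ∈ H, ext0 H c.1 x = S.act x P - P := by
      intro x hx
      rw [ext0_mem _ hx]
      exact hP ⟨x, hx⟩
    refine (S.cl_zero _).2 ⟨P + S.act τ P, fun g => ?_⟩
    rw [a5_corZ_apply]
    by_cases hg : g ∈ H
    · have h5 : τ⁻¹ * g * τ ∈ H := by rw [hm, hm, hinv]; tauto
      rw [a3_in S H hi hτ _ hg, hP1 g hg, hP1 _ h5, map_sub, map_add, a3_aa, a3_aa, show τ * (τ⁻¹ * g * τ) = g * τ by group]
      abel
    · have h1 : g * τ ∈ H := by rw [hm]; tauto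
      have h2 : τ⁻¹ * g ∈ H := by rw [hm, hinv]; tauto
      rw [a3_out S H hi hτ _ hg, hP1 _ h1, hP1 _ h2, map_sub, map_add, a3_aa, a3_aa, show τ * (τ⁻¹ * g) = g by group]
      abel
  · intro x
    obtain ⟨c, rfl⟩ := S.cl_surj x
    rw [← map_nsmul]
    show S.cl (a5_corZ hS H hH hi hτ ((res_hom S H).mapZ c)) = _
    refine (S.cl_eq _ _).2 ⟨c.1 τ, fun g => ?_⟩
    rw [a5_corZ_apply]
    have hc : ∀ x ∈ H, ext0 H ((res_hom S H).mapZ c).1 x = c.1 x := by
      intro x hx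
      rw [ext0_mem _ hx]
      rfl
    have h2c : (2 • c).1 g = c.1 g + c.1 g := by
      rw [two_nsmul]; rfl
    rw [h2c]
    by_cases hg : g ∈ H
    · have h5 : τ⁻¹ * g * τ ∈ H := by rw [hm, hm, hinv]; tauto
      have h6 : c.1 (g * τ) = c.1 g + S.act g (c.1 τ) := c.2.mul _ _
      have h7 : c.1 (τ * (τ⁻¹ * g * τ)) = c.1 τ + S.act τ (c.1 (τ⁻¹ * g * τ)) := c.2.mul _ _
      rw [show τ * (τ⁻¹ * g * τ) = g * τ by group, h6] at h7
      rw [a3_in S H hi hτ _ hg, hc g hg, hc _ h5, add_assoc, add_right_inj]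
      rw [← add_sub_assoc, h7, add_sub_cancel_left]
    · have h1 : g * τ ∈ H := by rw [hm]; tauto
      have h2 : τ⁻¹ * g ∈ H := by rw [hm, hinv]; tauto
      have h6 : c.1 (g * τ) = c.1 g + S.act g (c.1 τ) := c.2.mul _ _
      have h7 : c.1 (τ * (τ⁻¹ * g)) = c.1 τ + S.act τ (c.1 (τ⁻¹ * g)) := c.2.mul _ _
      rw [show τ * (τ⁻¹ * g) = g by group] at h7
      have h8 : S.act τ (c.1 (τ⁻¹ * g)) = c.1 g - c.1 τ := by rw [h7, add_sub_cancel_left]
      rw [a3_out S H hi hτ _ hg, hc _ h1, hc _ h2, h6, h8]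
      abel
  · intro y
    obtain ⟨c, rfl⟩ := (S.res H).cl_surj y
    have h1 : (S.res H).cl c + (conj_hom hS H τ).map ((S.res H).cl c) = (S.res H).cl (c + (conj_hom hS H τ).mapZ c) := by
      rw [map_add]; rfl
    rw [h1]
    show (S.res H).cl ((res_hom S H).mapZ (a5_corZ hS H hH hi hτ c)) = _
    congr 1
    apply Subtype.ext
    funext g
    show corF S H τ c.1 (g : G) = c.1 g + S.act τ (c.1 (cj H τ g))
    have h5 : τ⁻¹ * (g : G) * τ ∈ H := by
      have := g.2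
      rw [hm, hm, hinv]; tauto
    rw [a3_in S H hi hτ _ g.2, ext0_mem _ g.2, ext0_mem _ h5]
    have h6 : (⟨τ⁻¹ * (g : G) * τ, h5⟩ : H) = cj H τ g := Subtype.ext (cj_coe H τ g).symm
    rw [h6]

end SSG
end

-- from Lib.SSG.Z.A6
section

/-! Chunk A6 (S/M). The index two step. H is normal (Subgroup.normal_of_index_eq_two; have hN : H.Normal := ... puts it in the context). Choose τ not in H (index two: H is not ⊤). exists_cor (A5) gives k.
Apply two_card (A1) with X = S.Sha, Y = (S.res H).Sha, r = (res_hom S H).map, k, T = (conj_hom hS H τ).map, a = the map of the morphism h_a : Hom (S.res H) (S.res H) (MonoidHom.id H) α (eqv from hα; U, D trivial).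
T T = 1: conj_twice (τ τ in H by index two). a a = -d: on cocycles (LS.cl_surj, Hom.map_cl, LS.cl_eq with P = 0). T a = -a T: on cocycles T(a c)(h) = τ α c(τ⁻¹ h τ) = -α τ c(τ⁻¹ h τ) (hα' for τ); no coboundary is needed. -/

namespace SSG

variable {G A : Type} [Group G] [AddCommGroup A]

theorem index_two {S : LS G A} (hS : S.Conj) (H : Subgroup G) (hH : ∃ u ∈ S.U, u ≤ H) (hi : H.index = 2) {p d : ℕ} (hp : p.Prime)
    (hp2 : p ≠ 2) (hd : ¬ p ∣ d) (α : A →+ A) (hαα : ∀ P, α (α P) = -(d • P)) (hα : ∀ h ∈ H, ∀ P, α (S.act h P) = S.act h (α P))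
    (hα' : ∀ g, g ∉ H → ∀ P, α (S.act g P) = -(S.act g (α P))) :
    Nat.card (PP p (S.res H).Sha) = Nat.card (PP p S.Sha) ^ 2 := by
  have hN : H.Normal := Subgroup.normal_of_index_eq_two hi
  obtain ⟨τ, hτ⟩ : ∃ τ, τ ∉ H := by
    by_contra hc
    push Not at hc
    have h1 : H = ⊤ := (Subgroup.eq_top_iff' H).2 hc
    rw [h1, Subgroup.index_top] at hi
    omega
  obtain ⟨k, hk1, hk2⟩ := exists_cor hS H hH hi hτ
  have ha : Hom (S.res H) (S.res H) (MonoidHom.id H) α :=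
    ⟨fun g a => hα g g.2 a, fun u hu => ⟨u, hu, fun g hg => hg⟩, fun d hd => ⟨d, hd, fun g hg => hg⟩⟩
  have hττ : τ * τ ∈ H := by rw [Subgroup.mul_mem_iff_of_index_two hi]
  refine two_card hp hp2 hd (res_hom S H).map k (conj_hom hS H τ).map ha.map hk1 hk2 (conj_twice hS H hττ) ?_ ?_
  · intro y
    obtain ⟨c, rfl⟩ := (S.res H).cl_surj y
    rw [ha.map_cl, ha.map_cl, ← map_nsmul, ← map_neg]
    refine (LS.cl_eq _ _).2 ⟨0, fun g => ?_⟩
    rw [map_zero, sub_zero, add_zero]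
    show α (α (c.1 g)) = -(d • c.1 g)
    exact hαα _
  · intro y
    obtain ⟨c, rfl⟩ := (S.res H).cl_surj y
    rw [ha.map_cl, Hom.map_cl, Hom.map_cl, ha.map_cl, ← map_neg]
    refine (LS.cl_eq _ _).2 ⟨0, fun g => ?_⟩
    rw [map_zero, sub_zero, add_zero]
    show S.act τ (α (c.1 (cj H τ g))) = -(α (S.act τ (c.1 (cj H τ g))))
    rw [hα' τ hτ, neg_neg]

end SSG
end

-- from Lib.SSG.Z.L1
section

/-! Chunk L1 (S/M). Two formal statements.
conj_res: S.Conj implies (S.res H).Conj: for u = u'.subgroupOf H and g in H take u'' from hS.U u' g and u''.subgroupOf H. D similarly.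
res_res: for H ≤ K: (S.res K).res (H.subgroupOf K) and S.res H: Hom.card (ZH.lean) with m = 1 (not divisible by p), e : the isomorphism Subgroup.subgroupOfEquivOfLe hle : H.subgroupOf K ≃* H (both directions), φ = identity (AddMonoidHom.id A). U: the sets (u.subgroupOf K).subgroupOf (H.subgroupOf K) and u.subgroupOf H
correspond; D the same. Hom S S' e φ needs e : G' →* G. -/

namespace SSG

variable {G A : Type} [Group G] [AddCommGroup A]

theorem conj_res {S : LS G A} (hS : S.Conj) (H : Subgroup G) : (S.res H).Conj := by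
  constructor
  · rintro _ ⟨u, hu, rfl⟩ g
    obtain ⟨u', hu', h⟩ := hS.U u hu g
    exact ⟨_, ⟨u', hu', rfl⟩, fun x hx => h x hx⟩
  · rintro _ ⟨d, hd, rfl⟩ g
    obtain ⟨d', hd', h⟩ := hS.D d hd g
    exact ⟨_, ⟨d', hd', rfl⟩, fun x hx => h x hx⟩

theorem res_res (S : LS G A) {H K : Subgroup G} (hle : H ≤ K) {p : ℕ} (hp : p.Prime) :
    Nat.card (PP p ((S.res K).res (H.subgroupOf K)).Sha) = Nat.card (PP p (S.res H).Sha) := by
  have h : Hom ((S.res K).res (H.subgroupOf K)) (S.res H) (Subgroup.subgroupOfEquivOfLe hle).symm.toMonoidHom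
      (AddMonoidHom.id A) := by
    refine ⟨fun g a => rfl, ?_, ?_⟩
    · rintro _ ⟨_, ⟨u, hu, rfl⟩, rfl⟩
      exact ⟨_, ⟨u, hu, rfl⟩, fun g hg => hg⟩
    · rintro _ ⟨d, hd, rfl⟩
      exact ⟨_, ⟨_, ⟨d, hd, rfl⟩, rfl⟩, fun g hg => hg⟩
  have h' : Hom (S.res H) ((S.res K).res (H.subgroupOf K)) (Subgroup.subgroupOfEquivOfLe hle).toMonoidHom
      (AddMonoidHom.id A) := by
    refine ⟨fun g a => rfl, ?_, ?_⟩
    · rintro _ ⟨u, hu, rfl⟩
      exact ⟨_, ⟨_, ⟨u, hu, rfl⟩, rfl⟩, fun g hg => hg⟩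
    · rintro _ ⟨_, ⟨d, hd, rfl⟩, rfl⟩
      exact ⟨_, ⟨d, hd, rfl⟩, fun g hg => hg⟩
  exact h.card hp hp.not_dvd_one h' (fun g => rfl) (fun g => rfl) (fun a => (one_nsmul a).symm)
    (fun a => (one_nsmul a).symm)

end SSG
end

-- from Lib.SSG.Z.L2
section

/-! Chunk L2 (M). The system galS W Ω (ZD.lean; G = Ω ≃ₐ[k] Ω, U = the fixing subgroups of the finite extensions L, D = the decomposition groups decS k V of the valuation rings V ≠ ⊤; H55P.Dec V s: s x in V iff x in V; decS in H55P/S1.lean) is stable under conjugation.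
U: for u = L.fixingSubgroup and g take L' = L.map (g⁻¹ as an algebra homomorphism) = {g⁻¹ x | x in L} (finite: inferInstance): if x' fixes g⁻¹ L then g x' g⁻¹ fixes L (see the definition of tr in H35L/Ar.lean, field cont, for the same computation).
D: for d = decS k V and g take V' = {x | g⁻¹ x in V} = V.comap (g⁻¹ as a ring homomorphism) (ValuationSubring.mem_comap): if x' in decS V then g x' g⁻¹ in decS V'. V' ≠ ⊤: otherwise V = ⊤ (for x: g x in V', so g⁻¹ (g x) = x in V). See GI_conj in H35L/Ar.lean. -/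

open WeierstrassCurve

namespace SSG

open Classical in
theorem galS_conj {k : Type} [Field k] (W : WeierstrassCurve k) (Ω : Type) [Field Ω] [Algebra k Ω] : (galS W Ω).Conj := by
  refine ⟨?_, ?_⟩
  · rintro _ ⟨L, hL, rfl⟩ g
    refine ⟨_, ⟨L.map (g⁻¹ : Ω ≃ₐ[k] Ω).toAlgHom, inferInstance, rfl⟩, fun h hm => ?_⟩
    rw [IntermediateField.mem_fixingSubgroup_iff] at hm ⊢
    intro x hx
    have h2 := hm ((g⁻¹ : Ω ≃ₐ[k] Ω) x) ⟨x, hx, rfl⟩
    show g (h ((g⁻¹ : Ω ≃ₐ[k] Ω) x)) = x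
    rw [h2]
    show (g * g⁻¹) x = x
    rw [mul_inv_cancel]
    rfl
  · rintro _ ⟨V, hV, rfl⟩ g
    have hm : ∀ x, x ∈ V.comap ((g⁻¹ : Ω ≃ₐ[k] Ω) : Ω →+* Ω) ↔ (g⁻¹ : Ω ≃ₐ[k] Ω) x ∈ V := fun x => ValuationSubring.mem_comap
    refine ⟨_, ⟨V.comap ((g⁻¹ : Ω ≃ₐ[k] Ω) : Ω →+* Ω), ?_, rfl⟩, fun s hs => ?_⟩
    · intro htop
      apply hV
      rw [eq_top_iff]
      intro x _
      have h1 : g x ∈ V.comap ((g⁻¹ : Ω ≃ₐ[k] Ω) : Ω →+* Ω) := by rw [htop]; trivial
      rw [hm] at h1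
      have h2 : (g⁻¹ : Ω ≃ₐ[k] Ω) (g x) = x := g.symm_apply_apply x
      rwa [h2] at h1
    · rw [H55P.mem_decS] at hs ⊢
      intro z
      rw [hm, hm]
      have h2 : (g⁻¹ : Ω ≃ₐ[k] Ω) ((g * s * g⁻¹ : Ω ≃ₐ[k] Ω) z) = s ((g⁻¹ : Ω ≃ₐ[k] Ω) z) := by
        rw [AlgEquiv.mul_apply, AlgEquiv.mul_apply]
        exact g.symm_apply_apply _
      rw [h2]
      exact hs _

end SSG
end

-- from Lib.SSG.Z.L3
section

/-! Chunk L3 (M/L). Change of the algebraic closure and of the base field. K is a finite extension of k with an embedding ι in the algebraic closure Ω of k. The two systems (galS (W⁄K) (AlgebraicClosure K)) and (galS W Ω).res ι.fieldRange.fixingSubgroup are isomorphic.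
PROOF. Copy of z12_core (H55P/Z12.lean), which constructs the isomorphism Φ of the points and the map hat : Gal(AlgebraicClosure K / K) → Gal(Ω/k), hat s = θk s θk⁻¹, injective, multiplicative, with image the fixing subgroup; but here both directions of U and D are needed, so do not use its statement, redo it with the
explicit θ, θk, z12_pt, z12_hat (open H55P). Apply Hom.card (ZH.lean) with m = 1:
e₁ : Gal(AlgebraicClosure K/K) →* (fixing subgroup), s ↦ ⟨hat s, _⟩, its inverse e : (fixing subgroup) →* Gal(AlgebraicClosure K / K) (t ↦ θ⁻¹ t θ, a K-automorphism since t fixes ι K; or the MulEquiv.ofBijective of e₁), φ = Φ and Φ⁻¹ (AddEquiv.toAddMonoidHom).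
U: finite extensions correspond under θ: L ↦ (L.restrictScalars k).map θk (finite over k, as in z12_core) and L' (finite over k) ↦ the intermediate field over K generated by θ⁻¹ L' (IntermediateField.adjoin K of the image, finite since generated by finitely many algebraic elements or since it is the image of the compositum;
simplest: the fixing subgroup of L' contains elements t = hat s; take a finite set of generators of L' over k (or a basis) and adjoin K of their images under θ⁻¹, IntermediateField.finiteDimensional_adjoin).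
D: V ↦ V.comap θk and V' ↦ V'.comap θk.symm, nontrivial, and Dec V (hat s) iff Dec (V.comap θk) s. -/

open WeierstrassCurve H55P

namespace SSG

/-- The isomorphisms. -/
theorem l3_core {k : Type} [Field k] (W : WeierstrassCurve k) (K : Type) [Field K] [Algebra k K] [FiniteDimensional k K] {Ω : Type} [Field Ω]
    [DecidableEq Ω] [Algebra k Ω] [IsAlgClosed Ω] [Algebra.IsAlgebraic k Ω] (ι : K →ₐ[k] Ω) [DecidableEq (AlgebraicClosure K)] :
    ∃ (Φ : Pt (W⁄K) (AlgebraicClosure K) ≃+ Pt W Ω)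
      (ε : (AlgebraicClosure K ≃ₐ[K] AlgebraicClosure K) ≃* ι.fieldRange.fixingSubgroup) (θ : AlgebraicClosure K ≃ₐ[k] Ω),
      (∀ s x, ((ε s : ι.fieldRange.fixingSubgroup) : Ω ≃ₐ[k] Ω) x = θ (s (θ.symm x))) ∧
      (∀ s P, Φ (ac (W⁄K) s P) = ac W ((ε s : ι.fieldRange.fixingSubgroup) : Ω ≃ₐ[k] Ω) (Φ P)) := by
  let algKΩ : Algebra K Ω := ι.toRingHom.toAlgebra
  have htow : IsScalarTower k K Ω := IsScalarTower.of_algebraMap_eq fun x => (ι.commutes x).symm
  have halg : Algebra.IsAlgebraic K Ω := Algebra.IsAlgebraic.tower_top (K := k) K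
  have hcl : IsAlgClosure K Ω := ⟨inferInstance, halg⟩
  let θ : AlgebraicClosure K ≃ₐ[K] Ω := IsAlgClosure.equiv K (AlgebraicClosure K) Ω
  let θk : AlgebraicClosure K ≃ₐ[k] Ω := θ.restrictScalars k
  obtain ⟨φ, hφ⟩ := base_iso (k := k) (F := K) (Ω := AlgebraicClosure K) W
  have hmem : ∀ s : AlgebraicClosure K ≃ₐ[K] AlgebraicClosure K, z12_hat θk s ∈ ι.fieldRange.fixingSubgroup := by
    intro s
    rw [IntermediateField.mem_fixingSubgroup_iff]
    rintro x ⟨y, rfl⟩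
    rw [z12_hat_apply]
    show θ (s (θ.symm (algebraMap K Ω y))) = algebraMap K Ω y
    rw [θ.symm.commutes, s.commutes, θ.commutes]
  let e₁ : (AlgebraicClosure K ≃ₐ[K] AlgebraicClosure K) →* ι.fieldRange.fixingSubgroup :=
    { toFun := fun s => ⟨z12_hat θk s, hmem s⟩
      map_one' := by
        apply Subtype.ext
        apply AlgEquiv.ext
        intro x
        show z12_hat θk 1 x = x
        rw [z12_hat_apply]
        exact θk.apply_symm_apply x
      map_mul' := fun s t => by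
        apply Subtype.ext
        apply AlgEquiv.ext
        intro x
        show z12_hat θk (s * t) x = z12_hat θk s (z12_hat θk t x)
        rw [z12_hat_apply, z12_hat_apply, z12_hat_apply, θk.symm_apply_apply, AlgEquiv.mul_apply] }
  have hinj : Function.Injective e₁ := by
    intro s t hst
    apply AlgEquiv.ext
    intro x
    have h0 : z12_hat θk s = z12_hat θk t := congrArg Subtype.val hst
    have h1 := DFunLike.congr_fun h0 (θk x)
    rw [z12_hat_apply, z12_hat_apply, θk.symm_apply_apply] at h1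
    exact θk.injective h1
  have hsur : Function.Surjective e₁ := by
    rintro ⟨t, ht⟩
    rw [IntermediateField.mem_fixingSubgroup_iff] at ht
    have h1 : ∀ x : K, t (algebraMap K Ω x) = algebraMap K Ω x := fun x => ht _ ⟨x, rfl⟩
    let tK : Ω ≃ₐ[K] Ω := AlgEquiv.ofRingEquiv (f := (t : Ω ≃+* Ω)) h1
    refine ⟨(θ.trans tK).trans θ.symm, Subtype.ext (AlgEquiv.ext fun x => ?_)⟩
    show z12_hat θk _ x = t x
    rw [z12_hat_apply]
    show θ (θ.symm (t (θ (θ.symm x)))) = t x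
    rw [θ.apply_symm_apply, θ.apply_symm_apply]
  refine ⟨φ.symm.trans (z12_pt W θk), MulEquiv.ofBijective e₁ ⟨hinj, hsur⟩, θk, fun s x => rfl, ?_⟩
  intro s P
  have h1 : φ.symm (ac (W⁄K) s P) = ac W (s.restrictScalars k) (φ.symm P) := by
    apply φ.injective
    rw [hφ, φ.apply_symm_apply, φ.apply_symm_apply]
  show z12_pt W θk (φ.symm (ac (W⁄K) s P)) = ac W (z12_hat θk s) (z12_pt W θk (φ.symm P))
  rw [h1]
  generalize φ.symm P = Q
  show Affine.Point.map (W' := W.toAffine) θk.toAlgHom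
    (Affine.Point.map (W' := W.toAffine) (s.restrictScalars k).toAlgHom Q) =
    Affine.Point.map (W' := W.toAffine) (z12_hat θk s).toAlgHom
      (Affine.Point.map (W' := W.toAffine) θk.toAlgHom Q)
  rw [Affine.Point.map_map, Affine.Point.map_map]
  congr 1
  congr 1
  ext x
  show θk (s x) = z12_hat θk s (θk x)
  rw [z12_hat_apply, θk.symm_apply_apply]

/-- The finite extensions. -/
theorem l3_up {k : Type} [Field k] (K : Type) [Field K] [Algebra k K] {Ω : Type} [Field Ω] [Algebra k Ω]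
    (θ : AlgebraicClosure K ≃ₐ[k] Ω) (L' : IntermediateField k Ω) (hL' : FiniteDimensional k L') :
    ∃ L : IntermediateField K (AlgebraicClosure K), FiniteDimensional K L ∧
      ∀ s : AlgebraicClosure K ≃ₐ[K] AlgebraicClosure K, s ∈ L.fixingSubgroup → ∀ x ∈ L', θ (s (θ.symm x)) = x := by
  let b := Module.finBasis k L'
  refine ⟨IntermediateField.adjoin K (Set.range fun i => θ.symm (b i : Ω)), ?_, ?_⟩
  · exact IntermediateField.finiteDimensional_adjoin fun x _ => Algebra.IsIntegral.isIntegral x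
  · intro s hs x hx
    rw [IntermediateField.mem_fixingSubgroup_iff] at hs
    let f : L' →ₗ[k] Ω := (((θ.symm.trans (s.restrictScalars k)).trans θ).toLinearMap).comp L'.val.toLinearMap
    have h1 : f = L'.val.toLinearMap := by
      refine b.ext fun i => ?_
      show θ (s (θ.symm (b i : Ω))) = (b i : Ω)
      rw [hs _ (IntermediateField.subset_adjoin K _ ⟨i, rfl⟩), θ.apply_symm_apply]
    exact DFunLike.congr_fun h1 (⟨x, hx⟩ : L')

theorem l3_down {k : Type} [Field k] (K : Type) [Field K] [Algebra k K] [FiniteDimensional k K] {Ω : Type} [Field Ω] [Algebra k Ω]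
    (θ : AlgebraicClosure K ≃ₐ[k] Ω) (L : IntermediateField K (AlgebraicClosure K)) (hL : FiniteDimensional K L) :
    ∃ L' : IntermediateField k Ω, FiniteDimensional k L' ∧
      ∀ s : AlgebraicClosure K ≃ₐ[K] AlgebraicClosure K, (∀ x ∈ L', θ (s (θ.symm x)) = x) → s ∈ L.fixingSubgroup := by
  have h1 : FiniteDimensional k (L.restrictScalars k) := FiniteDimensional.trans k K L
  let e := IntermediateField.intermediateFieldMap θ (L.restrictScalars k)
  refine ⟨(L.restrictScalars k).map θ.toAlgHom, Module.Finite.equiv e.toLinearEquiv, ?_⟩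
  intro s hs
  rw [IntermediateField.mem_fixingSubgroup_iff]
  intro x hx
  have h2 := hs (θ x) ⟨x, hx, rfl⟩
  rw [θ.symm_apply_apply] at h2
  exact θ.injective h2

/-- The valuation rings. -/
theorem l3_top {A B : Type} [Field A] [Field B] (θ : A ≃+* B) (V : ValuationSubring B) (hV : V ≠ ⊤) :
    V.comap (θ : A →+* B) ≠ ⊤ := by
  intro h
  apply hV
  refine eq_top_iff.2 fun x _ => ?_
  have h1 : θ.symm x ∈ V.comap (θ : A →+* B) := by
    rw [h]
    exact ValuationSubring.mem_top _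
  have h2 : θ (θ.symm x) ∈ V := ValuationSubring.mem_comap.1 h1
  rwa [θ.apply_symm_apply] at h2

open Classical in
theorem closure_card {k : Type} [Field k] [CharZero k] (W : WeierstrassCurve k) (K : Type) [Field K] [Algebra k K] [FiniteDimensional k K] {Ω : Type} [Field Ω]
    [Algebra k Ω] [IsAlgClosed Ω] [Algebra.IsAlgebraic k Ω] (ι : K →ₐ[k] Ω) {p : ℕ} (hp : p.Prime) :
    Nat.card (PP p (galS (W⁄K) (AlgebraicClosure K)).Sha) = Nat.card (PP p ((galS W Ω).res ι.fieldRange.fixingSubgroup).Sha) := by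
  obtain ⟨Φ, ε, θ, h1, h2⟩ := l3_core W K ι
  have hA : Hom (galS (W⁄K) (AlgebraicClosure K)) ((galS W Ω).res ι.fieldRange.fixingSubgroup) ε.symm.toMonoidHom Φ.toAddMonoidHom := by
    refine ⟨fun g a => ?_, ?_, ?_⟩
    · show Φ (ac (W⁄K) (ε.symm g) a) = ac W (g : Ω ≃ₐ[k] Ω) (Φ a)
      rw [h2, ε.apply_symm_apply]
    · rintro _ ⟨L, hL, rfl⟩
      obtain ⟨L', hL', h3⟩ := l3_down K θ L hL
      refine ⟨_, ⟨L'.fixingSubgroup, ⟨L', hL', rfl⟩, rfl⟩, fun g hg => ?_⟩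
      apply h3
      intro x hx
      have h4 : (g : Ω ≃ₐ[k] Ω) ∈ L'.fixingSubgroup := hg
      rw [IntermediateField.mem_fixingSubgroup_iff] at h4
      have h5 := h1 (ε.symm g) x
      rw [ε.apply_symm_apply] at h5
      exact h5.symm.trans (h4 x hx)
    · rintro _ ⟨_, ⟨V, hV, rfl⟩, rfl⟩
      refine ⟨_, ⟨V.comap ((θ : AlgebraicClosure K ≃+* Ω) : AlgebraicClosure K →+* Ω), l3_top _ V hV, rfl⟩, fun g hg => ?_⟩
      have hg' : Dec V (g : Ω ≃ₐ[k] Ω) := hg
      show Dec _ (ε.symm g)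
      intro x
      have h5 := h1 (ε.symm g) (θ x)
      rw [ε.apply_symm_apply, θ.symm_apply_apply] at h5
      have h6 := hg' (θ x)
      rw [h5] at h6
      exact h6
  have hB : Hom ((galS W Ω).res ι.fieldRange.fixingSubgroup) (galS (W⁄K) (AlgebraicClosure K)) ε.toMonoidHom Φ.symm.toAddMonoidHom := by
    refine ⟨fun g a => ?_, ?_, ?_⟩
    · show Φ.symm (ac W ((ε g : ι.fieldRange.fixingSubgroup) : Ω ≃ₐ[k] Ω) a) = ac (W⁄K) g (Φ.symm a)
      apply Φ.injective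
      rw [h2, Φ.apply_symm_apply, Φ.apply_symm_apply]
    · rintro _ ⟨_, ⟨L', hL', rfl⟩, rfl⟩
      obtain ⟨L, hL, h3⟩ := l3_up K θ L' hL'
      refine ⟨_, ⟨L, hL, rfl⟩, fun g hg => ?_⟩
      show ((ε g : ι.fieldRange.fixingSubgroup) : Ω ≃ₐ[k] Ω) ∈ L'.fixingSubgroup
      rw [IntermediateField.mem_fixingSubgroup_iff]
      intro x hx
      rw [h1]
      exact h3 g hg x hx
    · rintro _ ⟨V, hV, rfl⟩
      refine ⟨_, ⟨_, ⟨V.comap ((θ.symm : Ω ≃+* AlgebraicClosure K) : Ω →+* AlgebraicClosure K), l3_top _ V hV, rfl⟩, rfl⟩, fun g hg => ?_⟩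
      have hg' : Dec V g := hg
      show Dec _ ((ε g : ι.fieldRange.fixingSubgroup) : Ω ≃ₐ[k] Ω)
      intro x
      have h6 := hg' (θ.symm x)
      rw [h1]
      rw [ValuationSubring.mem_comap, ValuationSubring.mem_comap]
      show θ.symm (θ (g (θ.symm x))) ∈ V ↔ θ.symm x ∈ V
      rw [θ.symm_apply_apply]
      exact h6
  refine Hom.card hp (m := 1) hp.not_dvd_one hA hB (fun g => ε.symm_apply_apply g) (fun g => ε.apply_symm_apply g) (fun a => ?_) (fun a => ?_)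
  · rw [one_nsmul]
    exact Φ.symm_apply_apply a
  · rw [one_nsmul]
    exact Φ.apply_symm_apply a

end SSG
end

-- from Lib.SSG.Z.L4
section

/-! Chunk L4 (M). From k to F: N is an intermediate field of Ω/F, k ⊆ F. The groups N.fixingSubgroup (in Gal(Ω/F)) and (N.restrictScalars k).fixingSubgroup (in Gal(Ω/k)) are equal as sets of maps Ω → Ω.
PROOF. Hom.card (ZH.lean) with m = 1. e₁ : N.fixingSubgroup →* (N.restrictScalars k).fixingSubgroup, s ↦ s.restrictScalars k; e : back, t ↦ AlgEquiv.ofRingEquiv (t fixes N, hence the image of F). Points: base_iso in H55P/Z11.lean: φ : Pt W Ω ≃+ Pt (W⁄F) Ω with φ (ac W (s.restrictScalars k) P) = ac (W⁄F) s (φ P)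
(see its use in H55P/Z12.lean, Z11.lean: sel_base; there F is a number field or a general field: check its hypotheses). U: L finite over k, take IntermediateField.adjoin F of a finite set of generators of L (k-basis); fixing it implies fixing L. L finite over F, F finite over k: L.restrictScalars k. D: the same V. -/

open WeierstrassCurve H55P

namespace SSG

open Classical in
theorem base_card {k : Type} [Field k] [CharZero k] (W : WeierstrassCurve k) {F : Type} [Field F] [Algebra k F] [FiniteDimensional k F] {Ω : Type} [Field Ω]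
    [Algebra k Ω] [Algebra F Ω] [IsScalarTower k F Ω] [IsAlgClosed Ω] [Algebra.IsAlgebraic k Ω] (N : IntermediateField F Ω) {p : ℕ}
    (hp : p.Prime) : Nat.card (PP p ((galS (W⁄F) Ω).res N.fixingSubgroup).Sha) =
      Nat.card (PP p ((galS W Ω).res (N.restrictScalars k).fixingSubgroup).Sha) := by
  obtain ⟨φ₀, hφ₀⟩ := base_iso (F := F) (Ω := Ω) W
  obtain ⟨e₁, he₁⟩ : ∃ e₁ : N.fixingSubgroup →* (N.restrictScalars k).fixingSubgroup,
      ∀ s, ((e₁ s : (N.restrictScalars k).fixingSubgroup) : Ω ≃ₐ[k] Ω) = (s : Ω ≃ₐ[F] Ω).restrictScalars k :=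
    ⟨{ toFun := fun s => ⟨(s : Ω ≃ₐ[F] Ω).restrictScalars k, Z11_mem N s.1 s.2⟩
       map_one' := rfl
       map_mul' := fun s t => rfl }, fun s => rfl⟩
  have hbij : Function.Bijective e₁ := by
    constructor
    · intro s t hst
      have h1 : (s : Ω ≃ₐ[F] Ω).restrictScalars k = (t : Ω ≃ₐ[F] Ω).restrictScalars k := by
        rw [← he₁, ← he₁, hst]
      apply Subtype.ext
      exact AlgEquiv.ext fun x => congrArg (fun f : Ω ≃ₐ[k] Ω => f x) h1
    · intro t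
      obtain ⟨s, hs, hs'⟩ := Z11_lift N t.1 t.2
      exact ⟨⟨s, hs'⟩, Subtype.ext (by rw [he₁]; exact hs)⟩
  obtain ⟨E, hE⟩ : ∃ E : N.fixingSubgroup ≃* (N.restrictScalars k).fixingSubgroup, ∀ s, E s = e₁ s :=
    ⟨MulEquiv.ofBijective e₁ hbij, fun s => rfl⟩
  have hEs : ∀ t, e₁ (E.symm t) = t := fun t => by rw [← hE, MulEquiv.apply_symm_apply]
  have hsE : ∀ s, E.symm (e₁ s) = s := fun s => by rw [← hE, MulEquiv.symm_apply_apply]
  have hpt : ∀ t x, ((E.symm t : N.fixingSubgroup) : Ω ≃ₐ[F] Ω) x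
      = ((t : (N.restrictScalars k).fixingSubgroup) : Ω ≃ₐ[k] Ω) x := by
    intro t x
    conv_rhs => rw [← hEs t, he₁]
    rfl
  have hpt' : ∀ s x, ((e₁ s : (N.restrictScalars k).fixingSubgroup) : Ω ≃ₐ[k] Ω) x
      = ((s : N.fixingSubgroup) : Ω ≃ₐ[F] Ω) x := by
    intro s x
    rw [he₁]
    rfl
  have h : Hom ((galS (W⁄F) Ω).res N.fixingSubgroup) ((galS W Ω).res (N.restrictScalars k).fixingSubgroup)
      E.symm.toMonoidHom (φ₀.symm.toAddMonoidHom) := by
    refine ⟨fun g a => ?_, ?_, ?_⟩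
    · apply φ₀.injective
      show φ₀ (φ₀.symm (ac (W⁄F) ((E.symm g : N.fixingSubgroup) : Ω ≃ₐ[F] Ω) a))
        = φ₀ (ac W ((g : (N.restrictScalars k).fixingSubgroup) : Ω ≃ₐ[k] Ω) (φ₀.symm a))
      have e1 : ((g : (N.restrictScalars k).fixingSubgroup) : Ω ≃ₐ[k] Ω)
          = ((E.symm g : N.fixingSubgroup) : Ω ≃ₐ[F] Ω).restrictScalars k := by
        rw [← he₁, hEs]
      rw [AddEquiv.apply_symm_apply, e1, hφ₀, AddEquiv.apply_symm_apply]
    · rintro _ ⟨_, ⟨L, hL, rfl⟩, rfl⟩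
      haveI : FiniteDimensional F L := hL
      have hfin : FiniteDimensional k (L.restrictScalars k) := FiniteDimensional.trans k F L
      refine ⟨_, ⟨_, ⟨L.restrictScalars k, hfin, rfl⟩, rfl⟩, fun g hg => ?_⟩
      have hg' : ((g : (N.restrictScalars k).fixingSubgroup) : Ω ≃ₐ[k] Ω) ∈ (L.restrictScalars k).fixingSubgroup := hg
      show ((E.symm g : N.fixingSubgroup) : Ω ≃ₐ[F] Ω) ∈ L.fixingSubgroup
      rw [IntermediateField.mem_fixingSubgroup_iff] at hg' ⊢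
      intro x hx
      rw [hpt]
      exact hg' x hx
    · rintro _ ⟨_, ⟨V, hV, rfl⟩, rfl⟩
      refine ⟨_, ⟨_, ⟨V, hV, rfl⟩, rfl⟩, fun g hg => ?_⟩
      intro x
      show ((E.symm g : N.fixingSubgroup) : Ω ≃ₐ[F] Ω) x ∈ V ↔ x ∈ V
      rw [hpt]
      exact hg x
  have h' : Hom ((galS W Ω).res (N.restrictScalars k).fixingSubgroup) ((galS (W⁄F) Ω).res N.fixingSubgroup)
      e₁ (φ₀.toAddMonoidHom) := by
    refine ⟨fun g a => ?_, ?_, ?_⟩
    · show φ₀ (ac W ((e₁ g : (N.restrictScalars k).fixingSubgroup) : Ω ≃ₐ[k] Ω) a)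
        = ac (W⁄F) ((g : N.fixingSubgroup) : Ω ≃ₐ[F] Ω) (φ₀ a)
      rw [he₁, hφ₀]
    · rintro _ ⟨_, ⟨L, hL, rfl⟩, rfl⟩
      haveI : FiniteDimensional k L := hL
      obtain ⟨L', hL', hg⟩ := Z11_field (F := F) L
      refine ⟨_, ⟨_, ⟨L', hL', rfl⟩, rfl⟩, fun g hg' => ?_⟩
      show ((e₁ g : (N.restrictScalars k).fixingSubgroup) : Ω ≃ₐ[k] Ω) ∈ L.fixingSubgroup
      rw [he₁]
      exact hg _ hg'
    · rintro _ ⟨_, ⟨V, hV, rfl⟩, rfl⟩
      refine ⟨_, ⟨_, ⟨V, hV, rfl⟩, rfl⟩, fun g hg => ?_⟩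
      intro x
      show ((e₁ g : (N.restrictScalars k).fixingSubgroup) : Ω ≃ₐ[k] Ω) x ∈ V ↔ x ∈ V
      rw [hpt']
      exact hg x
  refine h.card hp hp.not_dvd_one h' (fun g => hsE g) (fun g => hEs g) (fun a => ?_) (fun a => ?_)
  · rw [one_nsmul]
    exact φ₀.apply_symm_apply a
  · rw [one_nsmul]
    exact φ₀.symm_apply_apply a

end SSG
end
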