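import Mathlib
import Pool.Agent.Lib.H1M.PP2.D_H13R_K0
import Pool.Agent.Lib.H1M.PP2.M050
import Pool.Agent.Lib.H1M.PP2.M051
import Pool.Agent.Lib.H1M.PP2.M052
import Pool.Agent.Lib.H1M.PP2.M055
import Pool.Agent.Lib.H1M.PP2.M056
import Pool.Agent.Lib.H1M.PP2.M058
import Pool.Agent.Lib.H1M.PP2.M059
import Pool.Agent.Lib.H1M.PP2.M063
import Pool.Agent.Lib.H1M.PP2.M074
import Pool.Agent.Lib.H1M.PP2.M094
import Pool.Agent.Lib.H1M.PP2.M103
import Pool.Agent.Lib.H1M.PP2.M118
import Pool.Agent.Lib.H1M.PP2.M128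

/-! Merged copies (to shorten the build) of Lib.H55G.E8, Lib.H55W.PR, Lib.SSG.Z.L6, Lib.SSG.Z.L7, Lib.SSG.Z.L8. -/

-- from Lib.H55G.E8
section

/-! # H55G, part E: the Euler factors at primes of good reduction -/

open NumberField IsDedekindDomain WeierstrassCurve

namespace H55G

open H55P (IQ embF eF LF Per IsHecke Pt ac Inert Dec Nm PsiP mK UnitP UnrP)
open H35P (WAB Ker GoodW IntW)
open H55K (CMA Tor TN ak xc yc cj cj_cj mul_cj Nm_cj Nm_mul Nm_nat GoodAt Abw)
open H55K.DD (LF' ef)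
open H55K.MG (VC Crd)
open H55K.TQ

/-- Chunk E8 (S/M). C from hg (good_iff), NW_eq (D3B.lean): the minimal model has good reduction, so the local polynomial is 1 - a T + q T^2 with q = card of the residue field = absNorm w (H55B.residue_card) and a = q + 1 - NW W w (definition of localPolynomial, if_pos; NW is the number in the definition). With complex coefficients it is (1 - α T)(1 - β T). Then as in the proof of lf_good (H55K/D6.lean):
H55B.loc_good, I2_local_good. -/
theorem lf_ef {k : Type} [Field k] [NumberField k] (W : WeierstrassCurve k) (w : HeightOneSpectrum (𝓞 k)) (hg : GoodAt W w) {α β : ℂ}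
    (h1 : α + β = (Ideal.absNorm w.asIdeal : ℂ) + 1 - (NW W w : ℂ)) (h2 : α * β = (Ideal.absNorm w.asIdeal : ℂ)) :
    LF' W w = ef (Ideal.absNorm w.asIdeal) α * ef (Ideal.absNorm w.asIdeal) β := by
  obtain ⟨C, hC⟩ := (good_iff W w).1 hg
  obtain ⟨hgr, -, -⟩ := NW_eq hC
  have hq := H55K.DD.d6_one_lt w
  obtain ⟨hfin, hcard⟩ := H55B.residue_card k w
  have hP0' : (W⁄(w.adicCompletion k)).localPolynomial (w.adicCompletionIntegers k) =
      1 - Polynomial.C ((Ideal.absNorm w.asIdeal : ℤ) + 1 - (NW W w : ℤ)) * Polynomial.X +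
        Polynomial.C (Ideal.absNorm w.asIdeal : ℤ) * Polynomial.X ^ 2 := by
    unfold WeierstrassCurve.localPolynomial
    rw [if_pos hgr, hcard]
    rfl
  have hP : ((W⁄(w.adicCompletion k)).localPolynomial (w.adicCompletionIntegers k)).map (Int.castRingHom ℂ) =
      (1 - Polynomial.C α * Polynomial.X) * (1 - Polynomial.C β * Polynomial.X) := by
    rw [hP0']
    simp only [Polynomial.map_add, Polynomial.map_sub, Polynomial.map_one, Polynomial.map_mul,
      Polynomial.map_X, Polynomial.map_pow, Polynomial.map_C]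
    have e1 : (Int.castRingHom ℂ) ((Ideal.absNorm w.asIdeal : ℤ) + 1 - (NW W w : ℤ)) = α + β := by
      simp only [eq_intCast, Int.cast_sub, Int.cast_add, Int.cast_natCast, Int.cast_one]
      rw [h1]
    have e2 : (Int.castRingHom ℂ) (Ideal.absNorm w.asIdeal : ℤ) = α * β := by
      rw [eq_intCast, Int.cast_natCast, h2]
    rw [e1, e2, map_add, map_mul]
    ring
  have hP0 : ((W⁄(w.adicCompletion k)).localPolynomial (w.adicCompletionIntegers k)).coeff 0 = 1 := by
    have := congrArg (fun P : Polynomial ℂ => P.coeff 0) hP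
    simp only [Polynomial.coeff_map, Polynomial.mul_coeff_zero] at this
    simpa using this
  unfold LF' ef
  rw [WeierstrassCurve.localEulerFactor, hcard, H55B.I2_cast_ofPS hq,
    WeierstrassCurve.localPowerSeries, H55B.I2_map_invOfUnit _ hP0, hP, ← map_mul,
    mul_comm ((1 - PowerSeries.C α * PowerSeries.X)⁻¹ : PowerSeries ℂ),
    ← PowerSeries.mul_inv_rev]
  congr 2
  simp

/-- Chunk E8 (S). lf_ef with roots α, β of T^2 - (q + 1 - N) T + q (rh_roots in H55K/RH.lean): the same for both. -/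
theorem lf_same {k k' : Type} [Field k] [NumberField k] [Field k'] [NumberField k'] {W : WeierstrassCurve k}
    {W' : WeierstrassCurve k'} {w : HeightOneSpectrum (𝓞 k)} {w' : HeightOneSpectrum (𝓞 k')} (hg : GoodAt W w)
    (hg' : GoodAt W' w') (hq : Ideal.absNorm w.asIdeal = Ideal.absNorm w'.asIdeal) (hN : NW W w = NW W' w') :
    LF' W w = LF' W' w' := by
  obtain ⟨α, β, h1, h2⟩ : ∃ α β : ℂ, α + β = (Ideal.absNorm w.asIdeal : ℂ) + 1 - (NW W w : ℂ) ∧
      α * β = (Ideal.absNorm w.asIdeal : ℂ) := by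
    obtain ⟨t, ht⟩ : ∃ t : ℂ, t = (Ideal.absNorm w.asIdeal : ℂ) + 1 - (NW W w : ℂ) := ⟨_, rfl⟩
    obtain ⟨l, hl⟩ : ∃ l : ℂ, l = (Ideal.absNorm w.asIdeal : ℂ) := ⟨_, rfl⟩
    rw [← ht, ← hl]
    obtain ⟨s, hs⟩ := IsAlgClosed.exists_pow_nat_eq (t ^ 2 - 4 * l) (n := 2) (by norm_num)
    refine ⟨(t + s) / 2, (t - s) / 2, by ring, ?_⟩
    linear_combination (-1 / 4) * hs
  rw [lf_ef W w hg h1 h2, lf_ef W' w' hg' (by rw [← hq, ← hN]; exact h1) (by rw [← hq]; exact h2), hq]

end H55G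
end

-- from Lib.H55W.PR
section

/-! # H55W: the prime numbers of good reduction are unramified in F -/

open NumberField IsDedekindDomain WeierstrassCurve

namespace H55W

open H55P (IQ embF eF LF Per IsHecke Pt ac Inert Dec Nm)
open H55K
open H55K.TQ (BaseH PrimeH)

/-- A prime element π with Nm π = p whose square divides p: every a - cj a is divisible by π. -/
theorem pr_ram {F : Type} [Field F] [NumberField F] [IQ F] {p : ℕ} (hp : p.Prime) {π : 𝓞 F} (hπ : Prime π) (hN : Nm π = p)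
    (hd : π ^ 2 ∣ (p : 𝓞 F)) (a : 𝓞 F) : π ∣ a - cj a := by
  have hpp : π * cj π = (p : 𝓞 F) := by rw [mul_cj, hN]
  have hc : π ∣ cj π := by
    rw [← hpp, pow_two] at hd
    exact (mul_dvd_mul_iff_left hπ.ne_zero).1 hd
  -- the residue field has p elements
  have hcard : Nat.card (𝓞 F ⧸ Ideal.span {π}) = p := by rw [nm_card, hN]
  have hn : ∃ n : ℤ, π ∣ a - (n : 𝓞 F) := by
    have hpos : 0 < p := hp.pos
    have hf : Finite (𝓞 F ⧸ Ideal.span {π}) := Nat.finite_of_card_ne_zero (by rw [hcard]; exact hp.ne_zero)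
    have hft : Fintype (𝓞 F ⧸ Ideal.span {π}) := Fintype.ofFinite _
    have hinj : Function.Injective (fun i : Fin p => (Ideal.Quotient.mk (Ideal.span {π}) ((i : ℕ) : 𝓞 F))) := by
      intro i k hik
      have h1 : ((i : ℕ) : 𝓞 F) - ((k : ℕ) : 𝓞 F) ∈ Ideal.span {π} := by
        rw [← Ideal.Quotient.eq]
        exact hik
      rw [Ideal.mem_span_singleton] at h1
      have h2 : ((p : ℕ) : ℤ) ∣ ((i : ℕ) : ℤ) - ((k : ℕ) : ℤ) := by
        have h3 : cj π ∣ ((i : ℕ) : 𝓞 F) - ((k : ℕ) : 𝓞 F) := by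
          obtain ⟨c, hc'⟩ := h1
          refine ⟨cj c, ?_⟩
          have := congrArg cj hc'
          rw [map_sub, cj_nat, cj_nat, map_mul] at this
          exact this
        have h4 : Nm π ∣ Nm ((((i : ℕ) : ℤ) - ((k : ℕ) : ℤ) : ℤ) : 𝓞 F) := by
          have e : ((((i : ℕ) : ℤ) - ((k : ℕ) : ℤ) : ℤ) : 𝓞 F) = ((i : ℕ) : 𝓞 F) - ((k : ℕ) : 𝓞 F) := by push_cast; ring
          rw [e]
          obtain ⟨c, hc'⟩ := h1
          rw [hc', Nm_mul]
          exact dvd_mul_right _ _
        have h5 : Nm ((((i : ℕ) : ℤ) - ((k : ℕ) : ℤ) : ℤ) : 𝓞 F) = (((i : ℕ) : ℤ) - ((k : ℕ) : ℤ)).natAbs ^ 2 := by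
          set m : ℤ := ((i : ℕ) : ℤ) - ((k : ℕ) : ℤ)
          rcases Int.natAbs_eq m with h | h
          · conv_lhs => rw [h, Int.cast_natCast, Nm_nat]
          · conv_lhs => rw [h, Int.cast_neg, Int.cast_natCast]
            unfold Nm
            rw [Ideal.span_singleton_neg]
            exact Nm_nat _
        rw [hN, h5] at h4
        exact Int.natCast_dvd.2 (hp.dvd_of_dvd_pow h4)
      have h6 : |((i : ℕ) : ℤ) - ((k : ℕ) : ℤ)| < p := by
        have := i.2
        have := k.2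
        rw [abs_lt]
        omega
      have h7 := Int.eq_zero_of_abs_lt_dvd h2 h6
      exact Fin.ext (by omega)
    have hbij := (Fintype.bijective_iff_injective_and_card (fun i : Fin p => (Ideal.Quotient.mk (Ideal.span {π}) ((i : ℕ) : 𝓞 F)))).2
      ⟨hinj, by rw [Fintype.card_fin, ← Nat.card_eq_fintype_card, hcard]⟩
    obtain ⟨i, hi⟩ := hbij.2 (Ideal.Quotient.mk (Ideal.span {π}) a)
    refine ⟨((i : ℕ) : ℤ), ?_⟩
    rw [← Ideal.mem_span_singleton, ← Ideal.Quotient.eq]
    rw [← hi]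
    simp
  obtain ⟨n, c, hc'⟩ := hn
  have h1 : cj a - (n : 𝓞 F) = cj π * cj c := by
    have := congrArg cj hc'
    rw [map_sub, H55K.cj_int, map_mul] at this
    exact this
  have h2 : π ∣ cj a - (n : 𝓞 F) := by
    rw [h1]
    exact hc.mul_right _
  have h3 : a - cj a = (a - (n : 𝓞 F)) - (cj a - (n : 𝓞 F)) := by ring
  rw [h3]
  exact dvd_sub ⟨c, hc'⟩ h2

theorem prime_simple {F : Type} [Field F] [NumberField F] [IQ F] {W : WeierstrassCurve ℤ} {Om : ℂ} (hΔ : W.Δ ≠ 0)
    (hper : Per F (-(eF F (W⁄(𝓞 F)).c₄) / 48) (-(eF F (W⁄(𝓞 F)).c₆) / 864) Om) {p : ℕ} (hp : p.Prime) (h5 : 5 ≤ p)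
    (hd : ¬ (p : ℤ) ∣ W.Δ) : PrimeH F (W⁄(𝓞 F)) p := by
  have hΔF : (W⁄(𝓞 F)).Δ = ((W.Δ : ℤ) : 𝓞 F) := by
    have := W.map_Δ (algebraMap ℤ (𝓞 F))
    exact this.trans (by simp)
  have hcop : IsCoprime W.Δ (p : ℤ) :=
    ((Nat.prime_iff_prime_int.1 hp).coprime_iff_not_dvd.2 hd).symm
  have hcop' : IsCoprime ((W.Δ : ℤ) : 𝓞 F) ((p : ℕ) : 𝓞 F) := by
    have := hcop.map (Int.castRingHom (𝓞 F))
    simpa using this
  refine ⟨hp, h5, ?_, ?_⟩
  · -- unramified
    have hp0 : ((p : ℕ) : 𝓞 F) ≠ 0 := by exact_mod_cast hp.ne_zero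
    show Squarefree (Ideal.span {((p : ℕ) : 𝓞 F)})
    intro J hJ
    by_contra hJu
    have hJ0 : J ≠ ⊥ := by
      rintro rfl
      have h1 := Ideal.dvd_iff_le.1 hJ
      rw [Ideal.bot_mul, le_bot_iff, Ideal.span_singleton_eq_bot] at h1
      exact hp0 h1
    set x := Submodule.IsPrincipal.generator J with hx
    have hxJ : Ideal.span {x} = J := Ideal.span_singleton_generator J
    have hx0 : x ≠ 0 := by
      intro h0
      rw [h0] at hxJ
      exact hJ0 (by rw [← hxJ]; exact Ideal.span_singleton_eq_bot.2 rfl)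
    have hxu : ¬ IsUnit x := by
      intro hu
      apply hJu
      rw [← hxJ, Ideal.span_singleton_eq_top.2 hu, ← Ideal.one_eq_top]
      exact isUnit_one
    obtain ⟨π, hπi, hπx⟩ := WfDvdMonoid.exists_irreducible_factor hxu hx0
    have hπ : Prime π := hπi.prime
    have hdp : π ^ 2 ∣ ((p : ℕ) : 𝓞 F) := by
      have h1 : x * x ∣ ((p : ℕ) : 𝓞 F) := by
        rw [← hxJ, Ideal.span_singleton_mul_span_singleton, Ideal.dvd_iff_le, Ideal.span_singleton_le_iff_mem,
          Ideal.mem_span_singleton] at hJ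
        exact hJ
      rw [pow_two]
      exact (mul_dvd_mul hπx hπx).trans h1
    have hN1 : Nm π ≠ 1 := fun h => hπ.not_unit (q1_unit h)
    have hNN : Nm π = p := by
      obtain ⟨c, hc⟩ := hdp
      have h1 : p ^ 2 = (Nm π) ^ 2 * Nm c := by
        rw [← Nm_nat (F := F) p, hc, Nm_mul, pow_two, Nm_mul]
        ring
      have h2 : Nm π ^ 2 ∣ p ^ 2 := ⟨Nm c, h1⟩
      have h3 : Nm π ∣ p := (Nat.pow_dvd_pow_iff two_ne_zero).1 h2
      exact ((Nat.dvd_prime hp).1 h3).resolve_left hN1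
    obtain ⟨v, hv⟩ : ∃ v : HeightOneSpectrum (𝓞 F), v.asIdeal = Ideal.span {π} :=
      ⟨⟨Ideal.span {π}, (Ideal.span_singleton_prime hπ.ne_zero).2 hπ, by
        rw [Ne, Ideal.span_singleton_eq_bot]
        exact hπ.ne_zero⟩, rfl⟩
    have h1 : (W⁄(𝓞 F)).Δ ∈ v.asIdeal := by
      refine H13D.disc_ram hΔ hper v (fun a => ?_)
      rw [hv, Ideal.mem_span_singleton]
      exact pr_ram hp hπ hNN hdp a
    rw [hΔF, hv, Ideal.mem_span_singleton] at h1
    have h2 : π ∣ ((p : ℕ) : 𝓞 F) := (dvd_pow_self π two_ne_zero).trans hdp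
    obtain ⟨a, b, hab⟩ := hcop'
    apply hπ.not_unit
    rw [isUnit_iff_dvd_one, ← hab]
    exact dvd_add (h1.mul_left _) (h2.mul_left _)
  · rw [hΔF, Ideal.isCoprime_span_singleton_iff]
    exact hcop'

end H55W
end

-- from Lib.SSG.Z.L6
section

/-! Chunk L6 (M). The fixing groups of ι K and of F ι K in Gal(Ω/ℚ), Ω = AlgebraicClosure F. G₁ = ι.fieldRange.fixingSubgroup, G₂ = ((KG F K ι).restrictScalars ℚ).fixingSubgroup, G₂ ≤ G₁ (kg_le).
An element s of G₁ is in G₂ iff it fixes F (KG is generated over F by ι K: adjoin induction, see H13R/J3.lean, selG_of_triv). CASE 1: F ⊆ ι K (kg_dich, first alternative: f : F →+* K with ι (f y) = y): s in G₁ fixes F, so G₂ = G₁; and KG = ι K as sets (ι K contains F), so the degrees over ℚ agree.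
CASE 2: not. The degree of KG over K is 2: kg_dich gives QuadG F K (KG F K ι) (with the algebra structure KGmap), see its definition (it contains the degree 2) or H55P.Z14; finrank ℚ KG = finrank ℚ K * 2 (Module.finrank_mul_finrank, or through ι.fieldRange).
The index: Subgroup.index_eq_two_iff: there is s₀ in G₁ not in G₂ (some element of F is not in ι K, Galois theory for Ω over ι K: IsGalois, IntermediateField.fixedField_fixingSubgroup or InfiniteGalois; or because the degree is not 1); for s, t in G₁ both not fixing F: s t fixes F (nk2_dich: they act on 𝓞 F as cj, cj (cj a) = a).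
The last clause is nk2_dich. -/

open NumberField IsDedekindDomain WeierstrassCurve

namespace SSG

open H55P (IQ)
open H55K H55K.TQ

theorem kg_index {F : Type} [Field F] [NumberField F] [IQ F] (K : Type) [Field K] [NumberField K] (ι : K →ₐ[ℚ] AlgebraicClosure F)
    [NumberField (KG F K ι)] :
    ((KG F K ι).restrictScalars ℚ).fixingSubgroup ≤ ι.fieldRange.fixingSubgroup ∧
    ((((KG F K ι).restrictScalars ℚ).fixingSubgroup = ι.fieldRange.fixingSubgroup ∧
        Module.finrank ℚ (KG F K ι) = Module.finrank ℚ K) ∨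
      ((((KG F K ι).restrictScalars ℚ).fixingSubgroup.subgroupOf ι.fieldRange.fixingSubgroup).index = 2 ∧
        Module.finrank ℚ (KG F K ι) = 2 * Module.finrank ℚ K ∧
        ∀ s ∈ ι.fieldRange.fixingSubgroup, (s ∈ ((KG F K ι).restrictScalars ℚ).fixingSubgroup →
            ∀ x : F, s (algebraMap F (AlgebraicClosure F) x) = algebraMap F (AlgebraicClosure F) x) ∧
          (s ∉ ((KG F K ι).restrictScalars ℚ).fixingSubgroup → ∀ a : 𝓞 F, s (ak (AlgebraicClosure F) a) = ak (AlgebraicClosure F) (H55K.cj a)))) := by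
  have hm : ∀ s : AlgebraicClosure F ≃ₐ[ℚ] AlgebraicClosure F,
      s ∈ ((KG F K ι).restrictScalars ℚ).fixingSubgroup ↔ ∀ x ∈ KG F K ι, s x = x := by
    intro s
    rw [IntermediateField.mem_fixingSubgroup_iff]
    exact Iff.rfl
  have hm1 : ∀ s : AlgebraicClosure F ≃ₐ[ℚ] AlgebraicClosure F,
      s ∈ ι.fieldRange.fixingSubgroup ↔ ∀ y : K, s (ι y) = ι y := by
    intro s
    rw [IntermediateField.mem_fixingSubgroup_iff]
    constructor
    · intro h y
      exact h _ ⟨y, rfl⟩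
    · rintro h _ ⟨y, rfl⟩
      exact h y
  have hle : ((KG F K ι).restrictScalars ℚ).fixingSubgroup ≤ ι.fieldRange.fixingSubgroup := by
    intro s hs
    rw [hm] at hs
    rw [hm1]
    intro y
    exact hs _ (IntermediateField.subset_adjoin F _ ⟨y, rfl⟩)
  have hF : ∀ s ∈ ((KG F K ι).restrictScalars ℚ).fixingSubgroup,
      ∀ x : F, s (algebraMap F (AlgebraicClosure F) x) = algebraMap F (AlgebraicClosure F) x := by
    intro s hs x
    rw [hm] at hs
    exact hs _ ((KG F K ι).algebraMap_mem x)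
  have hF' : ∀ s ∈ ι.fieldRange.fixingSubgroup,
      (∀ x : F, s (algebraMap F (AlgebraicClosure F) x) = algebraMap F (AlgebraicClosure F) x) →
      s ∈ ((KG F K ι).restrictScalars ℚ).fixingSubgroup := by
    intro s hs h
    rw [hm1] at hs
    rw [hm]
    intro x hx
    refine IntermediateField.adjoin_induction F (p := fun x _ => s x = x) ?_ ?_ ?_ ?_ ?_ hx
    · rintro _ ⟨y, rfl⟩
      exact hs y
    · exact h
    · intro x y _ _ h1 h2
      rw [map_add, h1, h2]
    · intro x _ h1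
      rw [map_inv₀, h1]
    · intro x y _ _ h1 h2
      rw [map_mul, h1, h2]
  refine ⟨hle, ?_⟩
  rcases kg_dich F K ι with ⟨f, hf⟩ | hQ
  · left
    refine ⟨le_antisymm hle fun s hs => hF' s hs fun x => ?_, ?_⟩
    · rw [hm1] at hs
      rw [← hf x, hs]
    · letI : Algebra F K := f.toAlgebra
      obtain ⟨e⟩ := kg_iso F K ι f hf
      let e' : K →+* KG F K ι := (e : K ≃+* KG F K ι)
      let g : K →ₗ[ℚ] KG F K ι :=
        { toFun := e'
          map_add' := map_add e'
          map_smul' := fun q x => by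
            rw [RingHom.id_apply, Rat.smul_def, map_mul, map_ratCast, Rat.smul_def] }
      exact (LinearEquiv.finrank_eq (LinearEquiv.ofBijective g ⟨e.injective, e.surjective⟩)).symm
  · right
    letI : Algebra K (KG F K ι) := (KGmap F K ι).toAlgebra
    have hd : Module.finrank ℚ (KG F K ι) = 2 * Module.finrank ℚ K := by
      have h1 := Module.finrank_mul_finrank ℚ K (KG F K ι)
      rw [hQ.rank] at h1
      rw [← h1, mul_comm]
    have hpos : 0 < Module.finrank ℚ K := Module.finrank_pos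
    have hne : ∃ s₀ ∈ ι.fieldRange.fixingSubgroup, s₀ ∉ ((KG F K ι).restrictScalars ℚ).fixingSubgroup := by
      by_contra hcon
      push Not at hcon
      have h1 : ((KG F K ι).restrictScalars ℚ).fixingSubgroup = ι.fieldRange.fixingSubgroup :=
        le_antisymm hle hcon
      have halg : Algebra.IsAlgebraic ℚ (AlgebraicClosure F) := Algebra.IsAlgebraic.trans ℚ F (AlgebraicClosure F)
      have hcl : IsAlgClosure ℚ (AlgebraicClosure F) := ⟨inferInstance, halg⟩
      have hgal : IsGalois ℚ (AlgebraicClosure F) := IsAlgClosure.isGalois ℚ (AlgebraicClosure F)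
      have h2 := congrArg IntermediateField.fixedField h1
      rw [InfiniteGalois.fixedField_fixingSubgroup, InfiniteGalois.fixedField_fixingSubgroup] at h2
      -- every element of KG is in the range of ι
      have hsurj : Function.Surjective (KGmap F K ι) := by
        rintro ⟨x, hx⟩
        have h3 : x ∈ ι.fieldRange := by
          rw [← h2]
          exact hx
        obtain ⟨y, hy⟩ := h3
        exact ⟨y, Subtype.ext hy⟩
      let g : K →ₗ[ℚ] KG F K ι :=
        { toFun := KGmap F K ι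
          map_add' := map_add _
          map_smul' := fun q x => by
            rw [RingHom.id_apply, Rat.smul_def, map_mul, map_ratCast, Rat.smul_def] }
      have h3 := LinearEquiv.finrank_eq (LinearEquiv.ofBijective g ⟨(KGmap F K ι).injective, hsurj⟩)
      omega
    have hc : ∀ s ∈ ι.fieldRange.fixingSubgroup, s ∉ ((KG F K ι).restrictScalars ℚ).fixingSubgroup →
        ∀ a : 𝓞 F, s (ak (AlgebraicClosure F) a) = ak (AlgebraicClosure F) (H55K.cj a) := by
      intro s hs hs'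
      rcases nk2_dich (F := F) s with h | h
      · exact absurd (hF' s hs h) hs'
      · exact h
    refine ⟨?_, hd, fun s hs => ⟨hF s, hc s hs⟩⟩
    obtain ⟨s₀, h0, h0'⟩ := hne
    rw [Subgroup.index_eq_two_iff]
    refine ⟨⟨s₀, h0⟩, ?_⟩
    rintro ⟨t, ht⟩
    rw [Subgroup.mem_subgroupOf, Subgroup.mem_subgroupOf]
    show Xor (t * s₀ ∈ ((KG F K ι).restrictScalars ℚ).fixingSubgroup) (t ∈ ((KG F K ι).restrictScalars ℚ).fixingSubgroup)
    by_cases h : t ∈ ((KG F K ι).restrictScalars ℚ).fixingSubgroup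
    · right
      exact ⟨h, fun h' => h0' ((Subgroup.mul_mem_cancel_left _ h).1 h')⟩
    · left
      refine ⟨hF' _ (mul_mem ht h0) ?_, h⟩
      have h1 := hc t ht h
      have h2 := hc s₀ h0 h0'
      have h3 : ∀ a : 𝓞 F, (t * s₀) (algebraMap F (AlgebraicClosure F) (a : F)) = algebraMap F (AlgebraicClosure F) (a : F) := by
        intro a
        have h4 : (t * s₀) (ak (AlgebraicClosure F) a) = ak (AlgebraicClosure F) a := by
          rw [AlgEquiv.mul_apply, h2, h1, cj_cj]
        exact h4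
      intro x
      obtain ⟨a, b, hb, rfl⟩ := IsFractionRing.div_surjective (A := 𝓞 F) x
      rw [map_div₀, map_div₀]
      congr 1
      · exact h3 a
      · exact h3 b

end SSG
end

-- from Lib.SSG.Z.L7
section

/-! Chunk L7 (M). Assembly: Sha over K and over F K. Ω = AlgebraicClosure F, G₁, G₂ as in L6. ((W⁄ℚ)⁄K) = W⁄K, ((W⁄ℚ)⁄F) = (W⁄(𝓞 F))⁄F (fb9b_map in H55K/FB9B.lean, or ext <;> simp, see H13R/J3.lean).
card ShaC = card PP (galS (W⁄K) (AlgebraicClosure K)).Sha (bridge, B7) = card PP ((galS (W⁄ℚ) Ω).res G₁).Sha (closure_card, L3, k = ℚ). card PP ((galS ((W⁄(𝓞 F))⁄F) Ω).res N.fixingSubgroup).Sha = card PP ((galS (W⁄ℚ) Ω).res G₂).Sha (base_card, L4).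
CASE 1 of kg_index (L6): d = 1. CASE 2: d = 2: index_two (A6) for S = (galS (W⁄ℚ) Ω).res G₁ (conj_res, galS_conj: L1, L2), H = G₂.subgroupOf G₁ (hH: the fixing subgroup of the finite extension (KG F K ι).restrictScalars ℚ is in U: take its subgroupOf), α = the S of exists_sd (H55K/NK3.lean) for δ of nk2_delta
(cj δ = -δ, p does not divide Nm δ = d): S (S P) = -(Nm δ • P), commutes with the elements fixing F, anticommutes with the others: ac s (S P) = -S (ac s P), so S (ac s P) = -(ac s (S P)). Then res_res (L1). W⁄ℚ, W⁄K are elliptic (Δ ≠ 0 in characteristic 0, see H13R/J3.lean). -/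

open NumberField IsDedekindDomain WeierstrassCurve

namespace SSG

open H55P (IQ UnrP ac)
open H55K H55K.TQ

open Classical in
theorem card_KG {F : Type} [Field F] [NumberField F] [IQ F] {W : WeierstrassCurve ℤ} {Om : ℂ} {m : Ideal (𝓞 F)} {ψ : Ideal (𝓞 F) →*₀ 𝓞 F}
    (hH : BaseH F (W⁄(𝓞 F)) Om m ψ) {p : ℕ} (hp : p.Prime) (hp2 : p ≠ 2) (hU : UnrP p F) (K : Type) [Field K] [NumberField K]
    (ι : K →ₐ[ℚ] AlgebraicClosure F) [NumberField (KG F K ι)] :
    ∃ d : ℕ, 0 < d ∧ Module.finrank ℚ (KG F K ι) = d * Module.finrank ℚ K ∧ Nat.card (ShaC p K (W⁄K)) ^ d =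
      Nat.card (PP p ((galS ((W⁄(𝓞 F))⁄F) (AlgebraicClosure F)).res (KG F K ι).fixingSubgroup).Sha) := by
  have hQF := tower_QFF F
  have hQA := alg_QFF F
  have hd0 : W.Δ ≠ 0 := by
    intro h
    apply hH.data.ell
    have e := WeierstrassCurve.map_Δ W (algebraMap ℤ (𝓞 F))
    rw [h, map_zero] at e
    exact e
  have hellK : (W⁄K).IsElliptic := by
    rw [WeierstrassCurve.isElliptic_iff]
    have e := WeierstrassCurve.map_Δ W (algebraMap ℤ K)
    refine IsUnit.mk0 _ ?_
    intro h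
    apply hd0
    have h1 : (algebraMap ℤ K) W.Δ = 0 := e.symm.trans h
    rw [eq_intCast] at h1
    exact_mod_cast h1
  have e1 : ((W⁄ℚ)⁄F) = ((W⁄(𝓞 F))⁄F) := by
    rw [fb9b_map, fb9b_map]
  have e2 : ((W⁄ℚ)⁄K) = (W⁄K) := fb9b_map W
  have c1 := bridge (W⁄K) hp hp2
  have c2 := closure_card (k := ℚ) (W⁄ℚ) K ι hp
  rw [e2] at c2
  have c3 := base_card (k := ℚ) (W⁄ℚ) (KG F K ι) hp
  rw [e1] at c3
  obtain ⟨hle, ⟨hG, hf⟩ | ⟨hi, hf, hs⟩⟩ := kg_index K ι
  · refine ⟨1, one_pos, by rw [one_mul, hf], ?_⟩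
    rw [pow_one, c1, c2, c3, hG]
  · refine ⟨2, two_pos, hf, ?_⟩
    have hKQ : FiniteDimensional ℚ ((KG F K ι).restrictScalars ℚ) := by
      have : FiniteDimensional F (KG F K ι) := FiniteDimensional.right ℚ F (KG F K ι)
      have : FiniteDimensional ℚ (KG F K ι) := Module.Finite.trans F (KG F K ι)
      exact this
    obtain ⟨δ, hδ, hδp⟩ := nk2_delta (F := F) hp hp2 hU
    obtain ⟨α, a1, a2, a3⟩ := exists_sd hH δ hδ
    have h3 := index_two (S := (galS (W⁄ℚ) (AlgebraicClosure F)).res ι.fieldRange.fixingSubgroup)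
      (conj_res (galS_conj (W⁄ℚ) (AlgebraicClosure F)) _)
      (((KG F K ι).restrictScalars ℚ).fixingSubgroup.subgroupOf ι.fieldRange.fixingSubgroup)
      ⟨_, ⟨_, ⟨(KG F K ι).restrictScalars ℚ, hKQ, rfl⟩, rfl⟩, le_rfl⟩ hi hp hp2 hδp α a1
      (fun h hh P => (a2 _ ((hs _ h.2).1 hh) P).symm)
      (fun g hg P => by
        have h4 := a3 _ ((hs _ g.2).2 hg) P
        show α (ac (W⁄ℚ) (g : AlgebraicClosure F ≃ₐ[ℚ] AlgebraicClosure F) P) =
          -(ac (W⁄ℚ) (g : AlgebraicClosure F ≃ₐ[ℚ] AlgebraicClosure F) (α P))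
        rw [h4, neg_neg])
    rw [c1, c2, c3, ← h3]
    exact res_res (galS (W⁄ℚ) (AlgebraicClosure F)) hle hp

end SSG
end

-- from Lib.SSG.Z.L8
section

/-! Chunk L8 (S/M). The points over K from the points over F K. The points of W over ι K (fb9b_pts in H55K/FB9B.lean reduces K to ι.fieldRange; finite and order not divisible by p) embed in Pt (W⁄ℚ) Ω (Point.map of the inclusion, injective), hence (base_iso in H55P/Z11.lean: Pt (W⁄ℚ) Ω ≃+ Pt ((W⁄(𝓞 F))⁄F) Ω, compatible with the actions) in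
the set of the points fixed by (KG F K ι).fixingSubgroup (an element fixing KG fixes ι K). The set is finite, so Pt is finite; if p divides its order then there is a point of order p (exists_prime_addOrderOf_dvd_card), contradiction. See H13R/J3.lean (sel_absR) for the same transports. -/

open NumberField IsDedekindDomain WeierstrassCurve

namespace SSG

open H55P (IQ Pt ac)
open H55K H55K.TQ

open Classical in
/-- The same with a general set of fixed points. -/
theorem l8_main {F : Type} [Field F] [NumberField F] [IQ F] (W : WeierstrassCurve ℚ) {p : ℕ} (hp : p.Prime) (K : Type) [Field K] [NumberField K]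
    (ι : K →ₐ[ℚ] AlgebraicClosure F)
    (h1 : {P : Pt (W⁄F) (AlgebraicClosure F) | ∀ s ∈ (KG F K ι).fixingSubgroup, ac (W⁄F) s P = P}.Finite)
    (h2 : ∀ P : Pt (W⁄F) (AlgebraicClosure F), (∀ s ∈ (KG F K ι).fixingSubgroup, ac (W⁄F) s P = P) → p • P = 0 → P = 0) :
    Finite (Pt W K) ∧ ¬ p ∣ Nat.card (Pt W K) := by
  have hQF := tower_QFF F
  obtain ⟨φ, hφ⟩ := H55P.base_iso (k := ℚ) (F := F) (Ω := AlgebraicClosure F) W
  let f : Pt W K →+ Pt W (AlgebraicClosure F) := Affine.Point.map (W' := W.toAffine) ι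
  have hf : Function.Injective f := Affine.Point.map_injective _
  have hfix : ∀ P : Pt W K, ∀ s ∈ (KG F K ι).fixingSubgroup, ac (W⁄F) s (φ (f P)) = φ (f P) := by
    intro P s hs
    rw [← hφ]
    congr 1
    have hs1 : ∀ x : K, s (ι x) = ι x := fun x =>
      (IntermediateField.mem_fixingSubgroup_iff _ _).1 hs _
        (IntermediateField.subset_adjoin F _ ⟨x, rfl⟩)
    have e : (s.restrictScalars ℚ).toAlgHom.comp ι = ι := AlgHom.ext hs1
    have e2 := Affine.Point.map_map (W' := W.toAffine) ι (s.restrictScalars ℚ).toAlgHom P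
    rw [e] at e2
    exact e2
  have hfin : Finite (Pt W K) := by
    have h3 := h1.to_subtype
    refine Finite.of_injective (fun P : Pt W K =>
      (⟨φ (f P), hfix P⟩ : {P : Pt (W⁄F) (AlgebraicClosure F) |
        ∀ s ∈ (KG F K ι).fixingSubgroup, ac (W⁄F) s P = P})) ?_
    intro P Q hPQ
    exact hf (φ.injective (congrArg Subtype.val hPQ))
  refine ⟨hfin, ?_⟩
  intro hdvd
  haveI : Fact p.Prime := ⟨hp⟩
  haveI := Fintype.ofFinite (Pt W K)
  obtain ⟨x, hx⟩ := exists_prime_addOrderOf_dvd_card' (G := Pt W K) p hdvd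
  have hx0 : x ≠ 0 := by
    intro h0
    rw [h0, addOrderOf_zero] at hx
    exact hp.one_lt.ne hx
  apply hx0
  have h3 : φ (f x) = 0 := by
    refine h2 _ (hfix x) ?_
    rw [← map_nsmul, ← map_nsmul, ← hx, addOrderOf_nsmul_eq_zero, map_zero, map_zero]
  have h4 : f x = 0 := by
    rw [← map_zero φ] at h3
    exact φ.injective h3
  rw [← map_zero f] at h4
  exact hf h4

open Classical in
theorem pts_KG {F : Type} [Field F] [NumberField F] [IQ F] (W : WeierstrassCurve ℤ) {p : ℕ} (hp : p.Prime) (K : Type) [Field K] [NumberField K]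
    (ι : K →ₐ[ℚ] AlgebraicClosure F)
    (h1 : {P : Pt ((W⁄(𝓞 F))⁄F) (AlgebraicClosure F) | ∀ s ∈ (KG F K ι).fixingSubgroup, ac ((W⁄(𝓞 F))⁄F) s P = P}.Finite)
    (h2 : ∀ P : Pt ((W⁄(𝓞 F))⁄F) (AlgebraicClosure F), (∀ s ∈ (KG F K ι).fixingSubgroup, ac ((W⁄(𝓞 F))⁄F) s P = P) → p • P = 0 → P = 0) :
    Finite (W⁄K).toAffine.Point ∧ ¬ p ∣ Nat.card (W⁄K).toAffine.Point := by
  have e1 : ((W⁄ℚ)⁄F) = ((W⁄(𝓞 F))⁄F) := by
    rw [fb9b_map, fb9b_map]
  rw [← e1] at h1 h2
  have h3 := l8_main (W⁄ℚ) hp K ι h1 h2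
  have e2 : ((W⁄ℚ)⁄K) = (W⁄K) := fb9b_map W
  change Finite ((W⁄ℚ)⁄K).toAffine.Point ∧ ¬ p ∣ Nat.card ((W⁄ℚ)⁄K).toAffine.Point at h3
  rw [e2] at h3
  exact h3

end SSG
end
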