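import Mathlib
import Pool.Agent.Lib.H1M.PP2.D_H13R_D
import Pool.Agent.Lib.H1M.PP2.M051
import Pool.Agent.Lib.H1M.PP2.M074
import Pool.Agent.Lib.H1M.PP2.M080
import Pool.Agent.Lib.H1M.PP2.M086
import Pool.Agent.Lib.H1M.PP2.M094
import Pool.Agent.Lib.H1M.PP2.M098
import Pool.Agent.Lib.H1M.PP2.M109
import Pool.Agent.Lib.H1M.PP2.M118
import Pool.Agent.Lib.H1M.PP2.M120
import Pool.Agent.Lib.H1M.PP2.M123
import Pool.Agent.Lib.H1M.PP2.M138
import Pool.Agent.Lib.H1M.PP2.M139
import Pool.Agent.Lib.H1M.PP2.M141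

/-! Merged copies (to shorten the build) of Lib.H55G.E7a, Lib.H55G.E7b, Lib.H55Z.Q7, Lib.H55G.I1a, Lib.H55G.I4a, Lib.H55G.I3a, Lib.H55G.I3b, Lib.H55G.J3b, Lib.H55G.J3c. -/

-- from Lib.H55G.E7a
section

/-! # H55G, part E: the numbers of points in the quadratic extension -/

open NumberField IsDedekindDomain WeierstrassCurve

namespace H55G

open H55P (IQ embF eF LF Per IsHecke Pt ac Inert Dec Nm)
open H35P (WAB Ker GoodW IntW)
open H55K (CMA Tor TN ak xc yc cj cj_cj mul_cj Nm_cj Nm_mul Nm_nat acr xc_acr yc_acr acr_zero_iff acr_inj acr_eq_ac acr_trans GoodAt Abw)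
open H55K.MG (VC Crd)
open H55K.TQ

variable {F K₀ K : Type} [Field F] [NumberField F] [IQ F] [Field K₀] [NumberField K₀] [Field K] [NumberField K]
  [Algebra F K] [Algebra K₀ K] {τ : K ≃ₐ[K₀] K} {W : WeierstrassCurve ℤ} {Om : ℂ} {m : Ideal (𝓞 F)}
  {ψ : Ideal (𝓞 F) →*₀ 𝓞 F} {w : HeightOneSpectrum (𝓞 K)} {v : HeightOneSpectrum (𝓞 K₀)}

/-- Chunk E7 (S/M). A change of variables C which is good for W⁄K₀ at v is, mapped to K, good for W⁄K at w (as in good_up, RG.lean), and the two curves over Ω are equal ((C.map • (W⁄K))⁄Ω = (C • (W⁄K₀))⁄Ω: map_variableChange, map_map, scalar tower). -/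
theorem gc_up (hv : v.asIdeal = w.asIdeal.under (𝓞 K₀)) {C : VariableChange K₀} (hC : GC (W⁄K₀) v C) {Ω : Type} [Field Ω]
    [Algebra K₀ Ω] [Algebra K Ω] [IsScalarTower K₀ K Ω] : ∃ C' : VariableChange K, GC (W⁄K) w C' ∧ (C' • (W⁄K))⁄Ω = (C • (W⁄K₀))⁄Ω := by
  have ecur : W⁄K = (W⁄K₀).map (algebraMap K₀ K) := by
    show W.map (algebraMap ℤ K) = (W.map (algebraMap ℤ K₀)).map (algebraMap K₀ K)
    rw [WeierstrassCurve.map_map]
    congr 1
    exact Subsingleton.elim _ _
  obtain ⟨h1, h2, h3, h4, h6, hD⟩ := hC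
  obtain ⟨v', e, hv', he, hval⟩ := H55C.A4_glob (K := K₀) (N := K) w
  have hvv : v' = v := HeightOneSpectrum.ext (hv'.trans hv.symm)
  subst hvv
  have hle : ∀ z : K₀, v'.valuation K₀ z ≤ 1 → w.valuation K (algebraMap K₀ K z) ≤ 1 := by
    intro z hz
    rw [hval]
    exact pow_le_one' hz e
  have hC' : (C.map (algebraMap K₀ K)) • (W⁄K) = (C • (W⁄K₀)).map (algebraMap K₀ K) := by
    rw [ecur]
    exact WeierstrassCurve.map_variableChange _ _ _
  refine ⟨C.map (algebraMap K₀ K), ?_, ?_⟩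
  · unfold GC
    rw [hC']
    refine ⟨hle _ h1, hle _ h2, hle _ h3, hle _ h4, hle _ h6, ?_⟩
    rw [WeierstrassCurve.map_Δ, hval, hD, one_pow]
  · rw [hC']
    show ((C • (W⁄K₀)).map (algebraMap K₀ K)).map (algebraMap K Ω) = (C • (W⁄K₀)).map (algebraMap K₀ Ω)
    rw [WeierstrassCurve.map_map, ← IsScalarTower.algebraMap_eq]

/-- Chunk E7A (M). Ω = AlgebraicClosure K, setting as in good_desc (E6.lean): A, B, j, act from setup, V above w and above v, C good for W⁄K₀ at v, GD for W' = (C • (W⁄K₀))⁄Ω (exists_GD with vck_Z for k = K₀), g a Frobenius element over K₀ at V (exists_g: FrD K₀ V v g; IsAlgClosure K₀ Ω). g_cases: if g = τ on K then x in w implies V(x) < 1, V(g x) < 1 (fr_mem), τ • x in w: against hs. So g fixes K and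
FrD K V w g (absNorm w = absNorm v). hA, hB: fix_AB. Fx: u, r, s, t are images of elements of K₀. hK: acr_kg. NW_fr for k = K₀ (C, rfl) and for k = K (C' of gc_up) with the same GD and g: both numbers are the number of fixed points. -/
theorem nw_split (hH : BaseH F (W⁄(𝓞 F)) Om m ψ) (hτ : QT F K₀ K τ) (hv : v.asIdeal = w.asIdeal.under (𝓞 K₀))
    (hN : Ideal.absNorm w.asIdeal = Ideal.absNorm v.asIdeal) (hs : ∃ x : 𝓞 K, x ∈ w.asIdeal ∧ τ • x ∉ w.asIdeal)
    (hg : GoodAt (W⁄K₀) v) : NW (W⁄K) w = NW (W⁄K₀) v := by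
  classical
  have hfd : FiniteDimensional F K := Module.Finite.of_restrictScalars_finite ℚ F K
  have hfd' : FiniteDimensional K₀ K := Module.Finite.of_restrictScalars_finite ℚ K₀ K
  have hal : Algebra.IsAlgebraic F (AlgebraicClosure K) := Algebra.IsAlgebraic.trans F K (AlgebraicClosure K)
  have hal' : Algebra.IsAlgebraic K₀ (AlgebraicClosure K) := Algebra.IsAlgebraic.trans K₀ K (AlgebraicClosure K)
  have hcl : IsAlgClosure K₀ (AlgebraicClosure K) := ⟨inferInstance, hal'⟩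
  obtain ⟨V, hV⟩ := H55K.exists_abw (AlgebraicClosure K) w
  have hVv : Abw V v := hV.below (K := K₀) (HeightOneSpectrum.ext hv.symm)
  obtain ⟨A, B, j, act, hS, hd, hc⟩ := setup hH (AlgebraicClosure K)
  obtain ⟨C, hC⟩ := (good_iff _ _).1 hg
  obtain ⟨u, r, s, t, Θ, Kg, hGD⟩ := exists_GD hd hVv (vck_Z hS) hC
  obtain ⟨g, hfr⟩ := exists_g hVv
  have hq : 0 < Ideal.absNorm v.asIdeal := lt_trans one_pos (H55K.DD.d6_one_lt v)
  have hgfix : ∀ x : K, g (algebraMap K (AlgebraicClosure K) x) = algebraMap K (AlgebraicClosure K) x := by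
    rcases g_cases hτ g hfr.fix with h | h
    · exact h
    · exfalso
      obtain ⟨x, hx, hx'⟩ := hs
      have h1 : V.valuation (algebraMap K (AlgebraicClosure K) (x : K)) < 1 :=
        (hV.lt _).2 ((w.valuation_lt_one_iff_mem x).2 hx)
      have h2 := ((fr_mem hq hfr.frob _).2).2 h1
      rw [h] at h2
      exact hx' ((w.valuation_lt_one_iff_mem (τ • x)).1 ((hV.lt _).1 h2))
  obtain ⟨hA, hB⟩ := fix_AB hS g
  have hFx : Fx g (algebraMap K₀ (AlgebraicClosure K) u) (algebraMap K₀ (AlgebraicClosure K) r)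
      (algebraMap K₀ (AlgebraicClosure K) s) (algebraMap K₀ (AlgebraicClosure K) t) :=
    ⟨hfr.fix u, hfr.fix r, hfr.fix s, hfr.fix t⟩
  have hK : ∀ P ∈ Kg, acr g hA hB P ∈ Kg := fun P hP => (acr_kg hGD hFx hq hfr.frob P).2 hP
  have e1 := NW_fr hfr (hA := hA) (hB := hB) hC rfl hGD hFx hK
  obtain ⟨C', hC', hCe⟩ := gc_up (Ω := AlgebraicClosure K) hv hC
  have hfr' : FrD K V w g := ⟨hV, hgfix, by rw [hN]; exact hfr.frob⟩
  have e2 := NW_fr hfr' (hA := hA) (hB := hB) hC' hCe.symm hGD hFx hK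
  rw [e1, e2]

end H55G
end

-- from Lib.H55G.E7b
section

/-! # H55G, part E: the numbers of points in the quadratic extension -/

open NumberField IsDedekindDomain WeierstrassCurve

namespace H55G

open H55P (IQ embF eF LF Per IsHecke Pt ac Inert Dec Nm)
open H35P (WAB Ker GoodW IntW)
open H55K (CMA Tor TN ak xc yc cj cj_cj mul_cj Nm_cj Nm_mul Nm_nat acr xc_acr yc_acr acr_zero_iff acr_inj acr_eq_ac acr_trans GoodAt Abw)
open H55K.MG (VC Crd)
open H55K.TQ

variable {F K₀ K : Type} [Field F] [NumberField F] [IQ F] [Field K₀] [NumberField K₀] [Field K] [NumberField K]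
  [Algebra F K] [Algebra K₀ K] {τ : K ≃ₐ[K₀] K} {W : WeierstrassCurve ℤ} {Om : ℂ} {m : Ideal (𝓞 F)}
  {ψ : Ideal (𝓞 F) →*₀ 𝓞 F} {w : HeightOneSpectrum (𝓞 K)} {v : HeightOneSpectrum (𝓞 K₀)}

omit [NumberField K₀] in
theorem e7b_count {q : ℕ} (hq : 1 < q) (hN : Ideal.absNorm w.asIdeal = q ^ 2) (h : ∀ x : 𝓞 K, x ^ q - x ∈ w.asIdeal) : False := by
  classical
  have hmax : w.asIdeal.IsMaximal := w.isMaximal
  let _ := Ideal.Quotient.field w.asIdeal
  have hcard : Nat.card (𝓞 K ⧸ w.asIdeal) = q ^ 2 := hN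
  have hpos : 0 < Nat.card (𝓞 K ⧸ w.asIdeal) := by rw [hcard]; positivity
  have hfin : Finite (𝓞 K ⧸ w.asIdeal) := (Nat.card_pos_iff.1 hpos).2
  have hft : Fintype (𝓞 K ⧸ w.asIdeal) := Fintype.ofFinite _
  have hne : (Polynomial.X ^ q - Polynomial.X : Polynomial (𝓞 K ⧸ w.asIdeal)) ≠ 0 :=
    FiniteField.X_pow_card_sub_X_ne_zero _ hq
  have hdeg : (Polynomial.X ^ q - Polynomial.X : Polynomial (𝓞 K ⧸ w.asIdeal)).natDegree = q :=
    FiniteField.X_pow_card_sub_X_natDegree_eq _ hq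
  have hsub : (Finset.univ : Finset (𝓞 K ⧸ w.asIdeal)).val ⊆
      (Polynomial.X ^ q - Polynomial.X : Polynomial (𝓞 K ⧸ w.asIdeal)).roots := by
    intro y _
    rw [Polynomial.mem_roots hne, Polynomial.IsRoot.def, Polynomial.eval_sub, Polynomial.eval_pow, Polynomial.eval_X]
    obtain ⟨x, rfl⟩ := Ideal.Quotient.mk_surjective y
    rw [← map_pow, ← map_sub]
    exact Ideal.Quotient.eq_zero_iff_mem.2 (h x)
  have h1 := Polynomial.card_le_degree_of_subset_roots hsub
  rw [hdeg, Finset.card_univ, ← Nat.card_eq_fintype_card, hcard] at h1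
  nlinarith

/-- Chunk E7B (M). The same setting. q = absNorm v. g is not the identity on K: otherwise for all x in 𝓞 K: V(x^q - x) < 1 (hfr.frob, x in V), x^q - x in w; the residue field of w would have at most q elements (roots of T^q - T), but it has q^2 > q. So g = τ on K (g_cases) and g (ak a) = ak (cj a) (hτ.tau; ak a is the image of an element of K). e_all (E1.lean), second claim, for k = K₀: NW (W⁄K₀) v = q + 1 and the number of the c with
φ (φ c) = c is (q + 1)^2. g₂ = g.trans g satisfies FrD K V w g₂: it fixes K (τ (τ x) = x), and V(g (g x) - x^(q^2)) < 1 for x in V: g (g x) - (g x)^q and (g x)^q - (x^q)^q have value < 1 (fr_mem: g x in V; a^q - b^q is divisible by a - b). NW_fr for k = K, C' of gc_up, g₂: NW (W⁄K) w is the number of fixed points of qmap (acr g₂), and qmap (acr g₂) c = φ (φ c) (acr_trans; classes of points). -/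
theorem nw_inert (hH : BaseH F (W⁄(𝓞 F)) Om m ψ) (hτ : QT F K₀ K τ) (hv : v.asIdeal = w.asIdeal.under (𝓞 K₀))
    (hN : Ideal.absNorm w.asIdeal = Ideal.absNorm v.asIdeal ^ 2) (hg : GoodAt (W⁄K₀) v) :
    NW (W⁄K₀) v = Ideal.absNorm v.asIdeal + 1 ∧ NW (W⁄K) w = (Ideal.absNorm v.asIdeal + 1) ^ 2 := by
  classical
  have hfd : FiniteDimensional F K := Module.Finite.of_restrictScalars_finite ℚ F K
  have hfd' : FiniteDimensional K₀ K := Module.Finite.of_restrictScalars_finite ℚ K₀ K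
  have hal : Algebra.IsAlgebraic F (AlgebraicClosure K) := Algebra.IsAlgebraic.trans F K (AlgebraicClosure K)
  have hal' : Algebra.IsAlgebraic K₀ (AlgebraicClosure K) := Algebra.IsAlgebraic.trans K₀ K (AlgebraicClosure K)
  have hcl : IsAlgClosure K₀ (AlgebraicClosure K) := ⟨inferInstance, hal'⟩
  obtain ⟨V, hV⟩ := H55K.exists_abw (AlgebraicClosure K) w
  have hVv : Abw V v := hV.below (K := K₀) (HeightOneSpectrum.ext hv.symm)
  obtain ⟨A, B, j, act, hS, hd, hc⟩ := setup hH (AlgebraicClosure K)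
  obtain ⟨C, hC⟩ := (good_iff _ _).1 hg
  obtain ⟨u, r, s, t, Θ, Kg, hGD⟩ := exists_GD hd hVv (vck_Z hS) hC
  obtain ⟨g, hfr⟩ := exists_g hVv
  have hq1 : 1 < Ideal.absNorm v.asIdeal := H55K.DD.d6_one_lt v
  have hq : 0 < Ideal.absNorm v.asIdeal := lt_trans one_pos hq1
  have hnt : ¬ ∀ x : K, g (algebraMap K (AlgebraicClosure K) x) = algebraMap K (AlgebraicClosure K) x := by
    intro h
    refine e7b_count hq1 hN fun x => ?_
    have hxV : algebraMap K (AlgebraicClosure K) (x : K) ∈ V :=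
      (hV _).2 (w.valuation_le_one x)
    have h2 := hfr.frob _ hxV
    rw [h, ← map_pow, ← map_sub] at h2
    have h3 := (hV.lt _).1 h2
    have h4 : x - x ^ Ideal.absNorm v.asIdeal ∈ w.asIdeal := by
      refine (w.valuation_lt_one_iff_mem (K := K) (x - x ^ Ideal.absNorm v.asIdeal)).1 ?_
      exact h3
    have h5 := w.asIdeal.neg_mem h4
    rwa [neg_sub] at h5
  have hτg : ∀ x : K, g (algebraMap K (AlgebraicClosure K) x) = algebraMap K (AlgebraicClosure K) (τ x) := by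
    rcases g_cases hτ g hfr.fix with h | h
    · exact absurd h hnt
    · exact h
  obtain ⟨hA, hB⟩ := fix_AB hS g
  have hFx : Fx g (algebraMap K₀ (AlgebraicClosure K) u) (algebraMap K₀ (AlgebraicClosure K) r)
      (algebraMap K₀ (AlgebraicClosure K) s) (algebraMap K₀ (AlgebraicClosure K) t) :=
    ⟨hfr.fix u, hfr.fix r, hfr.fix s, hfr.fix t⟩
  have hK : ∀ P ∈ Kg, acr g hA hB P ∈ Kg := fun P hP => (acr_kg hGD hFx hq hfr.frob P).2 hP
  have hanti : ∀ a : 𝓞 F, g (ak (AlgebraicClosure K) a) = ak (AlgebraicClosure K) (cj a) := by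
    intro a
    have h1 : ∀ b : 𝓞 F, ak (AlgebraicClosure K) b = algebraMap K (AlgebraicClosure K) (algebraMap F K (b : F)) := by
      intro b
      exact IsScalarTower.algebraMap_apply F K (AlgebraicClosure K) (b : F)
    rw [h1, h1, hτg, hτ.tau]
  obtain ⟨e1, e2⟩ := (e_all hc hfr (hA := hA) (hB := hB) hC rfl hGD hFx hK).2.1 hanti
  refine ⟨e1, ?_⟩
  -- the square of g
  have hττ : ∀ x : K, τ (τ x) = x := by
    intro x
    rcases e3a_gal hτ (τ * τ) with h2 | h2
    · exact congrArg (fun f : Gal(K/K₀) => f x) h2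
    · exact absurd (mul_eq_left.1 h2) (e3a_ne hτ)
  have hfr2 : FrD K V w (g.trans g) := by
    refine ⟨hV, fun x => ?_, fun x hx => ?_⟩
    · show g (g (algebraMap K (AlgebraicClosure K) x)) = _
      rw [hτg, hτg, hττ]
    · show V.valuation (g (g x) - x ^ Ideal.absNorm w.asIdeal) < 1
      rw [hN]
      have hxle : V.valuation x ≤ 1 := (V.valuation_le_one_iff _).2 hx
      have hgle : V.valuation (g x) ≤ 1 := ((fr_mem hq hfr.frob x).1).2 hxle
      have hgV : g x ∈ V := (V.valuation_le_one_iff _).1 hgle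
      have h1 := hfr.frob _ hgV
      have h2 : V.valuation (g x ^ Ideal.absNorm v.asIdeal - (x ^ Ideal.absNorm v.asIdeal) ^ Ideal.absNorm v.asIdeal) < 1 := by
        obtain ⟨c, hc'⟩ := sub_dvd_pow_sub_pow (⟨g x, hgV⟩ : V) ⟨x ^ Ideal.absNorm v.asIdeal, V.pow_mem hx _⟩
          (Ideal.absNorm v.asIdeal)
        have h3 := congrArg (fun z : V => (z : AlgebraicClosure K)) hc'
        have h4 : g x ^ Ideal.absNorm v.asIdeal - (x ^ Ideal.absNorm v.asIdeal) ^ Ideal.absNorm v.asIdeal =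
            (g x - x ^ Ideal.absNorm v.asIdeal) * (c : AlgebraicClosure K) := h3
        rw [h4, map_mul]
        exact mul_lt_one_of_lt_of_le (hfr.frob x hx) ((V.valuation_le_one_iff _).2 c.2)
      have h5 : g (g x) - x ^ Ideal.absNorm v.asIdeal ^ 2 = (g (g x) - g x ^ Ideal.absNorm v.asIdeal) +
          (g x ^ Ideal.absNorm v.asIdeal - (x ^ Ideal.absNorm v.asIdeal) ^ Ideal.absNorm v.asIdeal) := by
        rw [← pow_mul, sq]
        ring
      rw [h5]
      exact lt_of_le_of_lt (V.valuation.map_add _ _) (max_lt h1 h2)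
  obtain ⟨hA2, hB2⟩ := fix_AB hS (g.trans g)
  obtain ⟨C', hC', hCe⟩ := gc_up (Ω := AlgebraicClosure K) hv hC
  have hFx2 : Fx (g.trans g) (algebraMap K₀ (AlgebraicClosure K) u) (algebraMap K₀ (AlgebraicClosure K) r)
      (algebraMap K₀ (AlgebraicClosure K) s) (algebraMap K₀ (AlgebraicClosure K) t) := by
    have h : ∀ z : K₀, (g.trans g) (algebraMap K₀ (AlgebraicClosure K) z) = algebraMap K₀ (AlgebraicClosure K) z := by
      intro z
      show g (g (algebraMap K₀ (AlgebraicClosure K) z)) = _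
      rw [hfr.fix, hfr.fix]
    exact ⟨h u, h r, h s, h t⟩
  have htr : ∀ P, acr g hA hB (acr g hA hB P) = acr (g.trans g) hA2 hB2 P :=
    fun P => acr_trans g g hA hB hA hB hA2 hB2 P
  have hK2 : ∀ P ∈ Kg, acr (g.trans g) hA2 hB2 P ∈ Kg := by
    intro P hP
    rw [← htr]
    exact hK _ (hK P hP)
  have e3 := NW_fr hfr2 (hA := hA2) (hB := hB2) hC' hCe.symm hGD hFx2 hK2
  rw [e3, ← e2]
  refine Nat.card_congr (Equiv.subtypeEquivRight fun c => ?_)
  have h6 : qmap Kg (acr (g.trans g) hA2 hB2) hK2 c = qmap Kg (acr g hA hB) hK (qmap Kg (acr g hA hB) hK c) := by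
    induction c using QuotientAddGroup.induction_on with
    | H P =>
      exact congrArg (fun z : Pt (WAB A B) (AlgebraicClosure K) => (z : Pt (WAB A B) (AlgebraicClosure K) ⧸ Kg)) (htr P).symm
  rw [h6]


end H55G
end

-- from Lib.H55Z.Q7
section

/-! # H55Z, part Q: the layers as subfields of the fields of roots of unity; existence of the layers -/

open NumberField IsDedekindDomain

namespace H55Z

variable {p : ℕ} [hp : Fact p.Prime] {n : ℕ}

theorem q7_cop (p n : ℕ) [hp : Fact p.Prime] : Nat.Coprime (p ^ n) (p - 1) := by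
  apply Nat.Coprime.pow_left
  have h8 := (Nat.coprime_self_add_left (m := p - 1) (n := 1)).2 (Nat.coprime_one_left _)
  rwa [Nat.sub_add_cancel hp.out.one_le] at h8

/-- The n-th layer over the rationals. -/
theorem q7_QC (h2 : p ≠ 2) (n : ℕ) : ∃ Q : IntermediateField ℚ (CyclotomicField (p ^ (n + 1)) ℚ), Module.finrank ℚ Q = p ^ n := by
  have := p3_ne (p := p) n
  have := p3_cyc (p := p) n
  have hG : IsGalois ℚ (CyclotomicField (p ^ (n + 1)) ℚ) := IsCyclotomicExtension.isGalois {p ^ (n + 1)} ℚ _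
  let e := IsCyclotomicExtension.autEquivPow (CyclotomicField (p ^ (n + 1)) ℚ)
    (Polynomial.cyclotomic.irreducible_rat (n := p ^ (n + 1)) (NeZero.pos _))
  have hcyc := ZMod.isCyclic_units_of_prime_pow p hp.out h2 (n + 1)
  have hcard : Nat.card (ZMod (p ^ (n + 1)))ˣ = p ^ n * (p - 1) := by
    rw [Nat.card_eq_fintype_card, ZMod.card_units_eq_totient, Nat.totient_prime_pow hp.out n.succ_pos]
    rfl
  have h1 := IsCyclic.card_powMonoidHom_ker (G := (ZMod (p ^ (n + 1)))ˣ) (p - 1)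
  rw [hcard, Nat.gcd_eq_right (Dvd.intro_left _ rfl)] at h1
  let H : Subgroup (Gal(CyclotomicField (p ^ (n + 1)) ℚ/ℚ)) :=
    (powMonoidHom (p - 1) : (ZMod (p ^ (n + 1)))ˣ →* (ZMod (p ^ (n + 1)))ˣ).ker.map (e.symm : _ →* _)
  have h3 : Nat.card H = p - 1 := by
    rw [← h1]
    exact (Nat.card_congr (Subgroup.equivMapOfInjective _ _ e.symm.injective).toEquiv).symm
  refine ⟨IntermediateField.fixedField H, ?_⟩
  have h4 := IntermediateField.finrank_fixedField_eq_card H
  rw [h3] at h4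
  have h5 := Module.finrank_mul_finrank ℚ (IntermediateField.fixedField H) (CyclotomicField (p ^ (n + 1)) ℚ)
  have h6 : Module.finrank ℚ (CyclotomicField (p ^ (n + 1)) ℚ) = p ^ n * (p - 1) := by
    rw [IsCyclotomicExtension.finrank (n := p ^ (n + 1)) (CyclotomicField (p ^ (n + 1)) ℚ)
      (Polynomial.cyclotomic.irreducible_rat (NeZero.pos _)), Nat.totient_prime_pow hp.out n.succ_pos]
    rfl
  rw [h4, h6] at h5
  have hp1 : 0 < p - 1 := by
    have := hp.out.two_le
    omega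
  exact Nat.eq_of_mul_eq_mul_right hp1 h5

variable {M K : Type} [Field M] [NumberField M] [Field K] [NumberField K] [Algebra M K]

/-- In a cyclotomic extension L of M there is a field of degree p^n over the rationals. -/
theorem q7_QL (h2 : p ≠ 2) (n : ℕ) {L : Type} [Field L] [NumberField L] {ζ : L} (hζ : IsPrimitiveRoot ζ (p ^ (n + 1))) :
    ∃ Q : IntermediateField ℚ L, Module.finrank ℚ Q = p ^ n ∧ Nonempty (Q →ₐ[ℚ] CyclotomicField (p ^ (n + 1)) ℚ) := by
  have := p3_ne (p := p) n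
  have := p3_cyc (p := p) n
  obtain ⟨Q, hQ⟩ := q7_QC (p := p) h2 n
  have hζC : IsPrimitiveRoot (IsCyclotomicExtension.zeta (p ^ (n + 1)) ℚ (CyclotomicField (p ^ (n + 1)) ℚ)) (p ^ (n + 1)) :=
    IsCyclotomicExtension.zeta_spec _ _ _
  have hroot : Polynomial.aeval ζ (minpoly ℚ (IsCyclotomicExtension.zeta (p ^ (n + 1)) ℚ (CyclotomicField (p ^ (n + 1)) ℚ))) = 0 := by
    rw [← Polynomial.cyclotomic_eq_minpoly_rat hζC (NeZero.pos _)]
    rw [Polynomial.aeval_def, ← Polynomial.eval_map, Polynomial.map_cyclotomic]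
    exact hζ.isRoot_cyclotomic (NeZero.pos _)
  let g : CyclotomicField (p ^ (n + 1)) ℚ →ₐ[ℚ] L := (hζC.powerBasis ℚ).lift ζ hroot
  let e : Q ≃ₐ[ℚ] Q.map g := Q.equivMap g
  refine ⟨Q.map g, ?_, ⟨Q.val.comp (e.symm : Q.map g →ₐ[ℚ] Q)⟩⟩
  rw [← hQ]
  exact e.toLinearEquiv.finrank_eq.symm

/-- The field generated over M by the field of degree p^n. -/
theorem q7_adj {L : Type} [Field L] [NumberField L] [Algebra M L] (Q : IntermediateField ℚ L) (hQ : Module.finrank ℚ Q = p ^ n)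
    (f : Q →ₐ[ℚ] CyclotomicField (p ^ (n + 1)) ℚ) : Layer p n M (IntermediateField.adjoin M (Q : Set L)) := by
  have hle : ∀ x : Q, (x : L) ∈ IntermediateField.adjoin M (Q : Set L) := fun x => IntermediateField.subset_adjoin M _ x.2
  let j : Q →ₐ[ℚ] IntermediateField.adjoin M (Q : Set L) :=
    RingHom.toRatAlgHom
      { toFun := fun x => ⟨(x : L), hle x⟩
        map_one' := rfl
        map_mul' := fun _ _ => rfl
        map_zero' := rfl
        map_add' := fun _ _ => rfl }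
  let e : Q ≃ₐ[ℚ] j.fieldRange := AlgEquiv.ofInjectiveField j
  refine ⟨j.fieldRange, ?_, ⟨f.comp (e.symm : j.fieldRange →ₐ[ℚ] Q)⟩, ?_⟩
  · rw [← hQ]
    exact e.toLinearEquiv.finrank_eq.symm
  · rw [eq_top_iff]
    rintro ⟨x, hx⟩ -
    have h1 : (IntermediateField.adjoin M (Q : Set L)).toSubalgebra = Algebra.adjoin M (Q : Set L) :=
      IntermediateField.adjoin_toSubalgebra_of_isAlgebraic fun y _ => Algebra.IsAlgebraic.isAlgebraic y
    have hx' : x ∈ Algebra.adjoin M (Q : Set L) := by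
      rw [← h1]
      exact hx
    refine Algebra.adjoin_induction (p := fun x _ => ∀ hx : x ∈ IntermediateField.adjoin M (Q : Set L),
      (⟨x, hx⟩ : IntermediateField.adjoin M (Q : Set L)) ∈ Algebra.adjoin M (j.fieldRange : Set (IntermediateField.adjoin M (Q : Set L))))
      ?_ ?_ ?_ ?_ hx' hx
    · intro y hy hy'
      exact Algebra.subset_adjoin ⟨⟨y, hy⟩, rfl⟩
    · intro r hr
      exact Subalgebra.algebraMap_mem _ r
    · intro a b ha hb iha ihb hab
      have ha' : a ∈ IntermediateField.adjoin M (Q : Set L) := by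
        have h3 : a ∈ (IntermediateField.adjoin M (Q : Set L)).toSubalgebra := h1 ▸ ha
        exact h3
      have hb' : b ∈ IntermediateField.adjoin M (Q : Set L) := by
        have h3 : b ∈ (IntermediateField.adjoin M (Q : Set L)).toSubalgebra := h1 ▸ hb
        exact h3
      exact add_mem (iha ha') (ihb hb')
    · intro a b ha hb iha ihb hab
      have ha' : a ∈ IntermediateField.adjoin M (Q : Set L) := by
        have h3 : a ∈ (IntermediateField.adjoin M (Q : Set L)).toSubalgebra := h1 ▸ ha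
        exact h3
      have hb' : b ∈ IntermediateField.adjoin M (Q : Set L) := by
        have h3 : b ∈ (IntermediateField.adjoin M (Q : Set L)).toSubalgebra := h1 ▸ hb
        exact h3
      exact mul_mem (iha ha') (ihb hb')

/-- Existence of the layers. -/
theorem q7_ex (h2 : p ≠ 2) (n : ℕ) (M : Type) [Field M] [NumberField M] :
    ∃ K : IntermediateField M (CyclotomicField (p ^ (n + 1)) M), Layer p n M K := by
  have := p3_ne (p := p) n
  have hζ := IsCyclotomicExtension.zeta_spec (p ^ (n + 1)) M (CyclotomicField (p ^ (n + 1)) M)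
  obtain ⟨Q, hQ, ⟨f⟩⟩ := q7_QL h2 n hζ
  exact ⟨_, q7_adj Q hQ f⟩

/-- A subfield of degree p^n of the field of the p^(n+1)-th roots of unity over M is the n-th layer. -/
theorem q7_conv (h2 : p ≠ 2) (hU : ¬ (p : ℤ) ∣ NumberField.discr M) (hK : Module.finrank M K = p ^ n)
    (φ : K →ₐ[M] CyclotomicField (p ^ (n + 1)) M) : Layer p n M K := by
  have := p3_ne (p := p) n
  obtain ⟨L, i1, i2, i3, i5, hcK, ⟨φ⟩⟩ : ∃ (L : Type) (_ : Field L) (_ : NumberField L) (_ : Algebra M L)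
      (_ : IsCyclotomicExtension {p ^ (n + 1)} M L), True ∧ Nonempty (K →ₐ[M] L) :=
    ⟨CyclotomicField (p ^ (n + 1)) M, inferInstance, inferInstance, inferInstance, inferInstance, trivial, ⟨φ⟩⟩
  have hζ := IsCyclotomicExtension.zeta_spec (p ^ (n + 1)) M L
  obtain ⟨Q, hQ, ⟨f⟩⟩ := q7_QL h2 n hζ
  have habQ := p3_gal f
  have hGQ : IsGalois ℚ Q := habQ.toIsGalois
  let _ : Algebra K L := φ.toRingHom.toAlgebra
  have ht : IsScalarTower M K L := IsScalarTower.of_algebraMap_eq fun x => (φ.commutes x).symm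
  have hGL : IsGalois M L := IsCyclotomicExtension.isGalois {p ^ (n + 1)} M L
  have hGKL : IsGalois K L := IsGalois.tower_top_of_isGalois M K L
  have hdeg := q2_deg (K := M) (N := K) (L := L) hK
  -- Q is contained in K
  have hmem : ∀ x : Q, ∃ y : K, algebraMap K L y = (x : L) := by
    intro x
    have h3 : ∀ σ : Gal(L/K), σ (x : L) = x := by
      intro σ
      let τ : Gal(L/ℚ) := AlgEquiv.restrictScalarsHom ℚ σ
      have hτ : ∀ y : L, τ y = σ y := fun y => rfl
      have h4 : σ ^ (p - 1) = 1 := by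
        obtain ⟨d, hd⟩ := hdeg
        rw [hd, pow_mul, pow_card_eq_one', one_pow]
      have h5 : (AlgEquiv.restrictNormalHom Q τ) ^ (p - 1) = 1 := by
        rw [← map_pow, ← map_pow, h4, map_one, map_one]
      have h6 : (AlgEquiv.restrictNormalHom Q τ) ^ p ^ n = 1 := by
        have h7 : Nat.card (Gal(Q/ℚ)) = p ^ n := by
          rw [IsGalois.card_aut_eq_finrank, hQ]
        rw [← h7]
        exact pow_card_eq_one'
      have h8 := Nat.dvd_gcd (orderOf_dvd_of_pow_eq_one h6) (orderOf_dvd_of_pow_eq_one h5)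
      rw [Nat.Coprime.gcd_eq_one (q7_cop p n)] at h8
      have h9 := orderOf_eq_one_iff.1 (Nat.dvd_one.1 h8)
      have h10 := AlgEquiv.restrictNormal_commutes τ Q x
      have h11 : τ.restrictNormal Q = 1 := h9
      rw [h11] at h10
      rw [← hτ]
      exact h10.symm
    have h4 := (IsGalois.mem_bot_iff_fixed (F := K) (x : L)).2 h3
    rw [IntermediateField.mem_bot] at h4
    exact h4
  let R : IntermediateField ℚ L := (φ.toRingHom.toRatAlgHom).fieldRange
  let e : K ≃ₐ[ℚ] R := AlgEquiv.ofInjectiveField φ.toRingHom.toRatAlgHom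
  have hQR : Q ≤ R := fun x hx => hmem ⟨x, hx⟩
  let j : Q →ₐ[ℚ] K := (e.symm : R →ₐ[ℚ] K).comp (IntermediateField.inclusion hQR)
  have hj : ∀ x : Q, φ (j x) = (x : L) := by
    intro x
    have h3 : e (j x) = IntermediateField.inclusion hQR x := e.apply_symm_apply _
    exact congrArg Subtype.val h3
  let e' : Q ≃ₐ[ℚ] j.fieldRange := AlgEquiv.ofInjectiveField j
  refine ⟨j.fieldRange, ?_, ⟨f.comp (e'.symm : j.fieldRange →ₐ[ℚ] Q)⟩, ?_⟩
  · rw [← hQ]
    exact e'.toLinearEquiv.finrank_eq.symm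
  · have hN := layer_disc h2 hU (q7_adj (M := M) Q hQ f)
    have hle : IntermediateField.adjoin M (Q : Set L) ≤ φ.fieldRange := by
      rw [IntermediateField.adjoin_le_iff]
      intro x hx
      exact hmem ⟨x, hx⟩
    have hK' : Module.finrank M φ.fieldRange = p ^ n := by
      rw [← hK]
      exact (AlgEquiv.ofInjectiveField φ).toLinearEquiv.finrank_eq.symm
    have heq := IntermediateField.eq_of_le_of_finrank_eq hle (hN.1.trans hK'.symm)
    have h1 : (IntermediateField.adjoin M (Q : Set L)).toSubalgebra = Algebra.adjoin M (Q : Set L) :=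
      IntermediateField.adjoin_toSubalgebra_of_isAlgebraic fun y _ => Algebra.IsAlgebraic.isAlgebraic y
    have himg : φ '' (j.fieldRange : Set K) = (Q : Set L) := by
      ext x
      constructor
      · rintro ⟨_, ⟨y, rfl⟩, rfl⟩
        show φ (j y) ∈ Q
        rw [hj]
        exact y.2
      · intro hx
        exact ⟨j ⟨x, hx⟩, ⟨⟨x, hx⟩, rfl⟩, hj ⟨x, hx⟩⟩
    rw [eq_top_iff]
    intro x _
    have h3 : φ x ∈ Algebra.adjoin M (Q : Set L) := by
      rw [← h1, heq]
      exact ⟨x, rfl⟩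
    rw [← himg, ← AlgHom.map_adjoin] at h3
    obtain ⟨y, hy, hxy⟩ := h3
    rw [← φ.injective hxy]
    exact hy

end H55Z
end

-- from Lib.H55G.I1a
section

/-! # H55G, part I: p divides the number of points iff there is a fixed class of order p -/

open NumberField IsDedekindDomain WeierstrassCurve Polynomial

namespace H55G

open H55P (IQ embF eF LF Per IsHecke Pt ac Inert Dec Nm)
open H35P (WAB Ker GoodW IntW)
open H55K (CMA Tor TN ak xc yc cj acr xc_acr yc_acr acr_zero_iff acr_inj acr_eq_ac acr_trans GoodAt Abw)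
open H55K.MG (VC Crd)

variable {F : Type} [Field F] {A B : F} {Ω : Type} [Field Ω] [DecidableEq Ω] [Algebra F Ω]
  {V : ValuationSubring Ω} {k : Type} [Field k] [NumberField k] [Algebra k Ω] {w : HeightOneSpectrum (𝓞 k)}
  {W₁ : WeierstrassCurve k} {C : VariableChange k} {W' : WeierstrassCurve Ω} {u r s t : Ω}
  {Θ : Pt (WAB A B) Ω ≃+ W'.toAffine.Point} {Kg : AddSubgroup (Pt (WAB A B) Ω)}

/-- Chunk I1a (S). NW_fr (D4.lean): NW is the number of the fixed points of φ = qmap (acr g), which are the elements of the subgroup ker (φ - 1). It is not 0 (NW_pairs in D4.lean: NW = .. + 1), so the subgroup is finite (Nat.finite_of_card_ne_zero). Cauchy: exists_prime_addOrderOf_dvd_card (with Nat.card_eq_fintype_card): an element of order p, so c ≠ 0 and p • c = 0. Conversely: c ≠ 0, p • c = 0 gives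
addOrderOf c = p (addOrderOf_eq_prime), and it divides the order of the subgroup (addOrderOf_dvd_natCard). -/
theorem nw_dvd [IsAlgClosed Ω] {g : Ω ≃+* Ω} (hV : Abw V w) (hfr : FrD k V w g) {hA : g (algebraMap F Ω A) = algebraMap F Ω A}
    {hB : g (algebraMap F Ω B) = algebraMap F Ω B} (hC : GC W₁ w C) (hW' : W' = (C • W₁)⁄Ω)
    (hG : GD V W' u r s t Θ Kg) (hg : Fx g u r s t) (hK : ∀ P ∈ Kg, acr g hA hB P ∈ Kg) {p : ℕ} (hp : p.Prime) :
    p ∣ NW W₁ w ↔ ∃ c : Pt (WAB A B) Ω ⧸ Kg, c ≠ 0 ∧ p • c = 0 ∧ qmap Kg (acr g hA hB) hK c = c := by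
  have hNW := NW_fr hfr hC hW' hG hg hK
  have hpos : NW W₁ w ≠ 0 := by
    rw [NW_pairs hV hC]
    exact Nat.succ_ne_zero _
  obtain ⟨S, hS⟩ : ∃ S : AddSubgroup (Pt (WAB A B) Ω ⧸ Kg), ∀ c, c ∈ S ↔ qmap Kg (acr g hA hB) hK c = c :=
    ⟨{ carrier := {c | qmap Kg (acr g hA hB) hK c = c}
       zero_mem' := map_zero _
       add_mem' := by
        intro a b ha hb
        change qmap Kg (acr g hA hB) hK (a + b) = a + b
        rw [map_add, ha, hb]
       neg_mem' := by
        intro a ha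
        change qmap Kg (acr g hA hB) hK (-a) = -a
        rw [map_neg, ha] }, fun _ => Iff.rfl⟩
  have hcard : Nat.card S = NW W₁ w := by
    rw [hNW]
    exact Nat.card_congr (Equiv.subtypeEquivRight hS)
  have hfin : Finite S := Nat.finite_of_card_ne_zero (by rw [hcard]; exact hpos)
  have := Fact.mk hp
  rw [← hcard]
  constructor
  · intro h
    obtain ⟨c, hc⟩ := exists_prime_addOrderOf_dvd_card' p h
    refine ⟨c, ?_, ?_, (hS _).1 c.2⟩
    · intro h0
      have h1 : c = 0 := Subtype.ext h0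
      rw [h1, addOrderOf_zero] at hc
      exact hp.one_lt.ne hc
    · have h2 := addOrderOf_nsmul_eq_zero c
      rw [hc] at h2
      have h3 := congrArg (fun x : S => (x : Pt (WAB A B) Ω ⧸ Kg)) h2
      exact h3
  · rintro ⟨c, hc0, hpc, hfix⟩
    have h1 : addOrderOf (⟨c, (hS c).2 hfix⟩ : S) = p := by
      refine addOrderOf_eq_prime (Subtype.ext hpc) ?_
      intro h0
      exact hc0 (congrArg (fun x : S => (x : Pt (WAB A B) Ω ⧸ Kg)) h0)
    have h2 := addOrderOf_dvd_natCard (⟨c, (hS c).2 hfix⟩ : S)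
    rwa [h1] at h2

end H55G
end

-- from Lib.H55G.I4a
section

/-! # H55G, part I: the Frobenius elements in a tower of fields -/

open NumberField IsDedekindDomain WeierstrassCurve Polynomial

namespace H55G

open H55P (IQ embF eF LF Per IsHecke Pt ac Inert Dec Nm)
open H35P (WAB Ker GoodW IntW)
open H55K (CMA Tor TN ak xc yc cj acr xc_acr yc_acr acr_zero_iff acr_inj acr_eq_ac acr_trans GoodAt Abw)
open H55K.MG (VC Crd)

variable {F : Type} [Field F] {A B : F} {Ω : Type} [Field Ω] [DecidableEq Ω] [Algebra F Ω]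
  {V : ValuationSubring Ω} {k₀ : Type} [Field k₀] [NumberField k₀] [Algebra k₀ Ω] {v : HeightOneSpectrum (𝓞 k₀)}
  {k : Type} [Field k] [NumberField k] [Algebra k Ω] {w : HeightOneSpectrum (𝓞 k)}
  {W' : WeierstrassCurve Ω} {u r s t : Ω}
  {Θ : Pt (WAB A B) Ω ≃+ W'.toAffine.Point} {Kg : AddSubgroup (Pt (WAB A B) Ω)}

omit [DecidableEq Ω] in
theorem i4a_pow {g : Ω ≃+* Ω} {q : ℕ} (hq : 0 < q) (hf : ∀ x ∈ V, V.valuation (g x - x ^ q) < 1) {b : Ω} (hb : b ∈ V) (n : ℕ) :
    (g ^ n) b ∈ V ∧ rs V ((g ^ n) b) = rs V b ^ q ^ n := by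
  induction n with
  | zero =>
    have h1 : (g ^ 0) b = b := rfl
    rw [h1, pow_zero, pow_one]
    exact ⟨hb, rfl⟩
  | succ n ih =>
    obtain ⟨h1, h2⟩ := ih
    have h3 : (g ^ (n + 1)) b = g ((g ^ n) b) := by
      rw [pow_succ']
      rfl
    have h4 : g ((g ^ n) b) ∈ V := by
      rw [← V.valuation_le_one_iff]
      exact (fr_mem hq hf _).1.2 ((V.valuation_le_one_iff _).2 h1)
    rw [h3]
    refine ⟨h4, ?_⟩
    rw [(rs_eq h4 (pow_mem h1 q)).2 (hf _ h1), rs_pow h1, h2, ← pow_mul, pow_succ]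

omit [DecidableEq Ω] in
theorem i4a_fix {g g' : Ω ≃+* Ω} (hfr : FrD k₀ V v g) (hfr' : FrD k V w g') (n : ℕ)
    (hn : ∀ x : k, (g ^ n) (algebraMap k Ω x) = algebraMap k Ω x) {z : IsLocalRing.ResidueField V}
    (hz : z ^ Ideal.absNorm w.asIdeal = z) : z ^ Ideal.absNorm v.asIdeal ^ n = z := by
  have hq : 0 < Ideal.absNorm v.asIdeal := Nat.pos_of_ne_zero (by
    rw [Ne, Ideal.absNorm_eq_zero_iff]
    exact v.ne_bot)
  obtain ⟨e, he1, he2⟩ := exists_emb hfr'.abw
  obtain ⟨y, hy⟩ := (he2 z).1 hz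
  obtain ⟨a, ha⟩ := H55B.residue_surj k w y
  have hm : algebraMap k (w.adicCompletion k) (a : k) ∈ w.adicCompletionIntegers k :=
    (algebraMap (𝓞 k) (w.adicCompletionIntegers k) a).2
  have hrk : rk w (a : k) = y := by
    rw [← ha]
    exact dif_pos hm
  have hz' : z = rs V (algebraMap k Ω (a : k)) := by
    rw [← hy, ← hrk]
    exact he1 _ (w.valuation_le_one a)
  have hb : algebraMap k Ω (a : k) ∈ V := (V.valuation_le_one_iff _).1 (H55K.k0_int V a)
  have h1 := (i4a_pow hq hfr.frob hb n).2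
  rw [hn, ← hz'] at h1
  exact h1.symm

theorem i4a_iter {g : Ω ≃+* Ω} {q : ℕ} {hA : g (algebraMap F Ω A) = algebraMap F Ω A}
    {hB : g (algebraMap F Ω B) = algebraMap F Ω B} (hG : GD V W' u r s t Θ Kg) (hg : Fx g u r s t) (hq : 0 < q)
    (hf : ∀ x ∈ V, V.valuation (g x - x ^ q) < 1) (hK : ∀ P ∈ Kg, acr g hA hB P ∈ Kg) {c : Pt (WAB A B) Ω ⧸ Kg} (hc : c ≠ 0) (n : ℕ) :
    ((qmap Kg (acr g hA hB) hK) ^ n) c ≠ 0 ∧ XG V Θ Kg (((qmap Kg (acr g hA hB) hK) ^ n) c) = XG V Θ Kg c ^ q ^ n ∧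
      YG V Θ Kg (((qmap Kg (acr g hA hB) hK) ^ n) c) = YG V Θ Kg c ^ q ^ n := by
  induction n with
  | zero =>
    have h1 : ((qmap Kg (acr g hA hB) hK) ^ 0) c = c := rfl
    rw [h1, pow_zero, pow_one, pow_one]
    exact ⟨hc, rfl, rfl⟩
  | succ n ih =>
    obtain ⟨h1, h2, h3⟩ := ih
    have h4 : ((qmap Kg (acr g hA hB) hK) ^ (n + 1)) c =
        qmap Kg (acr g hA hB) hK (((qmap Kg (acr g hA hB) hK) ^ n) c) := by
      rw [pow_succ']
      rfl
    rw [h4]
    refine ⟨?_, ?_, ?_⟩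
    · generalize ((qmap Kg (acr g hA hB) hK) ^ n) c = d at h1
      induction d using QuotientAddGroup.induction_on with
      | H P =>
        intro h5
        apply h1
        change ((acr g hA hB P : Pt (WAB A B) Ω) : Pt (WAB A B) Ω ⧸ Kg) = 0 at h5
        rw [QuotientAddGroup.eq_zero_iff, acr_kg hG hg hq hf] at h5
        exact (QuotientAddGroup.eq_zero_iff P).2 h5
    · rw [(phi_xy hG hg hq hf hK h1).1, h2, ← pow_mul, pow_succ]
    · rw [(phi_xy hG hg hq hf hK h1).2, h3, ← pow_mul, pow_succ]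

/-- Chunk I4a (M). g is a Frobenius element over k₀ (q = absNorm v), g' over the larger field k (q' = absNorm w), and g^n fixes k. φ, φ' the maps on the quotient. If φ' c = c then φ^n c = c.
c = 0: clear. c ≠ 0: x = XG c, y = YG c satisfy x^q' = x, y^q' = y (phi_xy, D1.lean, for g'). exists_emb (D3B.lean) for k, w: x = e z, z in the residue field of the completion, and every such z is rk w a for some a in 𝓞 k (H55B.residue_surj; rk in D3B.lean), so x = rs V (algebraMap k Ω a) with w.valuation k a ≤ 1 (a an integer). Claim: V(g^n b - b^(q^n)) < 1 for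
b in V, by induction on n (g (b') with b' = g^n b in V (fr_mem): V(g b' - b'^q) < 1 and V(b'^q - (b^(q^n))^q) < 1 since b' - b^(q^n) has value < 1). So V(a - a^(q^n)) < 1 (hn), x^(q^n) = x (rs_eq, rs_pow); the same for y. φ^n c ≠ 0 (φ injective: acr_kg as in NW_fr) and XG (φ^n c) = x^(q^n) = x, YG (φ^n c) = y (phi_xy, induction on n: for all m, φ^m c ≠ 0,
XG (φ^m c) = x^(q^m)). XG_ext (C2.lean). -/
theorem frob_pow [IsAlgClosed Ω] {g g' : Ω ≃+* Ω} (hfr : FrD k₀ V v g) (hfr' : FrD k V w g') (n : ℕ)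
    (hn : ∀ x : k, (g ^ n) (algebraMap k Ω x) = algebraMap k Ω x) {hA : g (algebraMap F Ω A) = algebraMap F Ω A}
    {hB : g (algebraMap F Ω B) = algebraMap F Ω B} {hA' : g' (algebraMap F Ω A) = algebraMap F Ω A}
    {hB' : g' (algebraMap F Ω B) = algebraMap F Ω B} (hG : GD V W' u r s t Θ Kg) (hg : Fx g u r s t) (hg' : Fx g' u r s t)
    (hK : ∀ P ∈ Kg, acr g hA hB P ∈ Kg) (hK' : ∀ P ∈ Kg, acr g' hA' hB' P ∈ Kg) {c : Pt (WAB A B) Ω ⧸ Kg}
    (hc : qmap Kg (acr g' hA' hB') hK' c = c) : ((qmap Kg (acr g hA hB) hK) ^ n) c = c := by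
  have hq : 0 < Ideal.absNorm v.asIdeal := Nat.pos_of_ne_zero (by
    rw [Ne, Ideal.absNorm_eq_zero_iff]
    exact v.ne_bot)
  have hq' : 0 < Ideal.absNorm w.asIdeal := Nat.pos_of_ne_zero (by
    rw [Ne, Ideal.absNorm_eq_zero_iff]
    exact w.ne_bot)
  by_cases hc0 : c = 0
  · rw [hc0, map_zero]
  have hxy := phi_xy hG hg' hq' hfr'.frob hK' hc0
  rw [hc] at hxy
  have hx := i4a_fix hfr hfr' n hn hxy.1.symm
  have hy := i4a_fix hfr hfr' n hn hxy.2.symm
  obtain ⟨h1, h2, h3⟩ := i4a_iter hG hg hq hfr.frob hK hc0 n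
  exact XG_ext hG h1 hc0 (h2.trans hx) (h3.trans hy)

end H55G
end

-- from Lib.H55G.I3a
section

/-! # H55G, part I: the short equation and the Galois action -/

open NumberField IsDedekindDomain WeierstrassCurve

namespace H55G

open H55P (IQ embF eF LF Per IsHecke Pt ac Inert Dec Nm UnitP PExt)
open H35P (WAB Ker tt GoodW IntW)
open H55K.MG (VC Crd)
open H55K H55K.TQ

variable {F : Type} [Field F] [NumberField F] {W₀ : WeierstrassCurve (𝓞 F)} {A B : F}

/-- Chunk I3a (S). This is part of the proof of H13R.bad_torsR (Lib/H13R/C3.lean): vc_short, vc_map, MG.vc_iso and hcom. -/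
theorem short_ac (hS : Sh W₀ A B) (hell : W₀.Δ ≠ 0) {Ω : Type} [Field Ω] [DecidableEq Ω] [Algebra F Ω] :
    ∃ Θ : Pt (WAB A B) Ω ≃+ Pt (W₀⁄F) Ω, ∀ (g : Ω ≃ₐ[F] Ω) (P : Pt (WAB A B) Ω), ac (W₀⁄F) g (Θ P) = Θ (ac (WAB A B) g P) := by
  have hd := y3_ne W₀ hS.hA hS.hB hell
  have hΔA : (WAB A B).Δ ≠ 0 := by
    have e : (WAB A B).Δ = -16 * (4 * A ^ 3 + 27 * B ^ 2) := by
      unfold WAB WeierstrassCurve.Δ WeierstrassCurve.b₂ WeierstrassCurve.b₄ WeierstrassCurve.b₆ WeierstrassCurve.b₈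
      ring
    rw [e]
    exact mul_ne_zero (by norm_num) hd
  obtain ⟨r, s, t, hVC⟩ := vc_short W₀ hS.hA hS.hB
  have hVC' := vc_map (algebraMap F Ω) hVC
  have hΔ1 : ((WAB A B).map (algebraMap F Ω)).Δ ≠ 0 := by
    rw [WeierstrassCurve.map_Δ]
    exact (map_ne_zero _).2 hΔA
  have hΔ2 : ((W₀⁄F).map (algebraMap F Ω)).Δ ≠ 0 := by
    have e : (W₀⁄F).Δ = algebraMap (𝓞 F) F W₀.Δ := WeierstrassCurve.map_Δ _ _
    rw [WeierstrassCurve.map_Δ, e]
    refine (map_ne_zero _).2 fun h1 => hell ?_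
    exact (map_eq_zero_iff _ (FaithfulSMul.algebraMap_injective (𝓞 F) F)).1 h1
  obtain ⟨Θ, hΘ⟩ : ∃ Θ : Pt (WAB A B) Ω ≃+ Pt (W₀⁄F) Ω,
      Crd (algebraMap F Ω 1) (algebraMap F Ω r)
        (algebraMap F Ω s) (algebraMap F Ω t) Θ := MG.vc_iso hVC' hΔ1 hΔ2
  refine ⟨Θ, ?_⟩
  intro g P
  by_cases hP : P = 0
  · subst hP
    rw [map_zero, map_zero, map_zero, map_zero]
  · obtain ⟨a1, a2, a3⟩ := hΘ P hP
    obtain ⟨b1, b2, b3⟩ := MG.ac_crd (W := WAB A B) g P
    have hP' : ac (WAB A B) g P ≠ 0 := fun h => hP (b3.1 h)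
    obtain ⟨c1, c2, c3⟩ := hΘ _ hP'
    obtain ⟨d1, d2, d3⟩ := MG.ac_crd (W := W₀⁄F) g (Θ P)
    have e2 := congrArg g a2
    have e3 := congrArg g a3
    simp only [map_add, map_mul, map_pow, map_one, AlgEquiv.commutes, one_pow, one_mul, mul_one] at e2 e3 c2 c3
    have f2 : xc (ac (W₀⁄F) g (Θ P)) = xc (Θ (ac (WAB A B) g P)) := by
      rw [d1]
      linear_combination c2 - e2 - b1
    refine pt_ext (fun h => a1 (d3.1 h)) c1 f2 ?_
    rw [d2]
    rw [d1] at f2
    linear_combination c3 - e3 - b2 - (algebraMap F Ω s) * f2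

end H55G
end

-- from Lib.H55G.I3b
section

/-! # H55G, part I: the local conditions at a good prime which divides the discriminant -/

open NumberField IsDedekindDomain WeierstrassCurve

namespace H55G

open H55P (IQ embF eF LF Per IsHecke Pt ac Inert Dec Nm UnitP PExt Below)
open H35P (WAB Ker tt GoodW IntW)
open H55K.MG (VC Crd)
open H55K H55K.TQ

variable {F : Type} [Field F] [NumberField F] [IQ F] {W₀ : WeierstrassCurve (𝓞 F)} {Om : ℂ}
    {m : Ideal (𝓞 F)} {ψ : Ideal (𝓞 F) →*₀ 𝓞 F} {p : ℕ}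

omit [NumberField F] [IQ F] in
/-- Chunk I3b (S). For a in 𝓞 M: a in v iff V(a) < 1 (Below). x in M with v(x) ≤ 1: x = a/b with a, b integers, b not in v (IsDedekindDomain: exists such a fraction for elements of the localization: see HeightOneSpectrum.valuation_le_one_iff.. or the proof of H55K.t8_val / exists_abw); V(b) = 1 (V(b) ≤ 1 and not < 1), V(a) ≤ 1. If v(x) > 1 then v(1/x) < 1, 1/x = a/b with a in v, b not in v: V(1/x) < 1. See also
H55K.TQ.re_below or the conversions of Below and Abw in Lib/H19B, Lib/H55Z (search for Abw, Below). -/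
theorem abw_of_below {Ω : Type} [Field Ω] [Algebra F Ω] {M : IntermediateField F Ω} [NumberField M] {v : HeightOneSpectrum (𝓞 M)}
    {V : ValuationSubring Ω} (hV : Below V M v.asIdeal) : Abw (N := M) V v := by
  have hle : ∀ a : 𝓞 M, V.valuation (algebraMap M Ω (a : M)) ≤ 1 := fun a =>
    (V.valuation_le_one_iff _).2 (t8_le V a)
  have h1 : ∀ a : 𝓞 M, a ∉ v.asIdeal → V.valuation (algebraMap M Ω (a : M)) = 1 := fun a ha =>
    le_antisymm (hle a) (not_lt.1 fun h => ha ((hV a).2 h))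
  have g1 : ∀ a : 𝓞 M, a ∉ v.asIdeal → v.valuation M (a : M) = 1 := fun a ha =>
    le_antisymm (v.valuation_le_one a) (not_lt.1 fun h => ha ((v.valuation_lt_one_iff_mem a).1 h))
  intro x
  rw [← V.valuation_le_one_iff]
  obtain ⟨n, d, h | h⟩ := v.exists_primeCompl_mul_eq_or_mul_eq (K := M) x
  · have e1 := congrArg (fun z => V.valuation (algebraMap M Ω z)) h
    have e2 := congrArg (fun z => v.valuation M z) h
    simp only [map_mul] at e1 e2
    have e3 : V.valuation (algebraMap M Ω ((d : 𝓞 M) : M)) = 1 := h1 d d.2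
    have e4 : v.valuation M ((d : 𝓞 M) : M) = 1 := g1 d d.2
    have e5 : V.valuation (algebraMap M Ω x) = V.valuation (algebraMap M Ω (n : M)) := by
      have := e1
      rw [e3, mul_one] at this
      exact this
    have e6 : v.valuation M x = v.valuation M (n : M) := by
      have := e2
      rw [e4, mul_one] at this
      exact this
    rw [e5, e6]
    exact ⟨fun _ => v.valuation_le_one n, fun _ => hle n⟩
  · have e1 := congrArg (fun z => V.valuation (algebraMap M Ω z)) h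
    have e2 := congrArg (fun z => v.valuation M z) h
    simp only [map_mul] at e1 e2
    have e3 : V.valuation (algebraMap M Ω ((d : 𝓞 M) : M)) = 1 := h1 d d.2
    have e4 : v.valuation M ((d : 𝓞 M) : M) = 1 := g1 d d.2
    have f1 : V.valuation (algebraMap M Ω x) * V.valuation (algebraMap M Ω (n : M)) = 1 := e1.trans e3
    have f2 : v.valuation M x * v.valuation M (n : M) = 1 := e2.trans e4
    by_cases hn : n ∈ v.asIdeal
    · have a1 : V.valuation (algebraMap M Ω (n : M)) < 1 := (hV n).1 hn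
      have a2 : v.valuation M (n : M) < 1 := (v.valuation_lt_one_iff_mem n).2 hn
      constructor
      · intro hx
        exfalso
        have := lt_of_le_of_lt (mul_le_of_le_one_left' (a := V.valuation (algebraMap M Ω (n : M))) hx) a1
        rw [f1] at this
        exact lt_irrefl _ this
      · intro hx
        exfalso
        have := lt_of_le_of_lt (mul_le_of_le_one_left' (a := v.valuation M (n : M)) hx) a2
        rw [f2] at this
        exact lt_irrefl _ this
    · rw [h1 n hn, mul_one] at f1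
      rw [g1 n hn, mul_one] at f2
      rw [f1, f2]
      exact ⟨fun _ => le_refl _, fun _ => le_refl _⟩

/-- Chunk I3b (M). A, B, j, act from setup (E2.lean). By locOk_tr and short_ac it suffices to prove LocOk (WAB A B) p M V. Abw V v: abw_of_below. C with GC ((W₀⁄F)⁄M) v C from hg; exists_GD (D2.lean) with vck_F (E2.lean): GD for W' = (C • ((W₀⁄F)⁄M))⁄Ω, with u, r, s, t images of elements of M, fixed by M.fixingSubgroup. V(p) = 1: H13R.c3_vp with hΔ (Below gives hv).
inert: s in M.fixingSubgroup, Inert V s: MG.inert_ker (M4C.lean; s u = u, s r = r, .. so the conditions hs are V(0) < 1) gives Ker V (Θ (ac s P - P)); MG.kg_tors (M3B.lean) with n = p: ac s P - P = 0.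
dec: g from exists_g (E2.lean) for k = M: FrD M V v g. g fixes the image of M, so of F: it gives an element s of Ω ≃ₐ[F] Ω (AlgEquiv.ofRingEquiv) in M.fixingSubgroup, with Dec V s (fr_mem, D1.lean; q = absNorm v > 0). So ac s T = T for the T in question, acr g T = T (acr_eq_ac). If T ≠ 0: T is not in Kg (MG.kg_tors, hG.kg), the class c of T is not 0, p • c = 0, and it is fixed by qmap (acr g) (qmap_mk):
nw_dvd (I1a.lean) gives p ∣ NW: contradiction to hN. (hK: acr_kg in D1.lean.) -/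
theorem locOk_of (hH : BaseH F W₀ Om m ψ) (hp : PrimeH F W₀ p) {M : IntermediateField F (AlgebraicClosure F)} [NumberField M]
    [DecidableEq (AlgebraicClosure F)] {v : HeightOneSpectrum (𝓞 M)} {V : ValuationSubring (AlgebraicClosure F)}
    (hV : Below V M v.asIdeal) (hΔ : algebraMap (𝓞 F) (𝓞 M) W₀.Δ ∈ v.asIdeal) (hg : GoodAt ((W₀⁄F)⁄M) v)
    (hN : ¬ p ∣ NW ((W₀⁄F)⁄M) v) : LocOk (W₀⁄F) p M V := by
  obtain ⟨A, B, j, act, hS, hd, -⟩ := setup hH (AlgebraicClosure F)
  obtain ⟨Θ₀, hΘ₀⟩ := short_ac hS hH.data.ell (Ω := AlgebraicClosure F)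
  refine locOk_tr Θ₀ hΘ₀ ?_
  have hVA : Abw (N := M) V v := abw_of_below hV
  obtain ⟨C, hC⟩ := (good_iff _ _).1 hg
  obtain ⟨u, r, s, t, Θ, Kg, hG⟩ := exists_GD hd hVA (vck_F hS) hC
  have hVp : V.valuation (p : AlgebraicClosure F) = 1 := H13R.c3_vp hp (fun a ha => (hV a).1 ha) hΔ
  have hkg : ∀ T : Pt (WAB A B) (AlgebraicClosure F), T ∈ Kg → p • T = 0 → T = 0 := fun T hT h0 =>
    MG.kg_tors hG.good hVp ((hG.kg T).1 hT) h0
  refine ⟨fun g hgM hI P hP => ?_, fun T hT hf => ?_⟩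
  · have hfix : ∀ x : M, g (algebraMap M (AlgebraicClosure F) x) = algebraMap M (AlgebraicClosure F) x :=
      fun x => (IntermediateField.mem_fixingSubgroup_iff M g).1 hgM _ x.2
    have hk : Ker V (Θ (ac (WAB A B) g P - P)) := by
      refine MG.inert_ker hG.une hG.good hG.crd g hI ?_ P
      rw [hfix, hfix, hfix, hfix, div_self hG.une, sub_self, sub_self, sub_self, sub_self]
      simp
    exact sub_eq_zero.1 (hkg _ ((hG.kg _).2 hk) hP)
  · by_contra hT0
    haveI : IsAlgClosure M (AlgebraicClosure F) :=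
      ⟨inferInstance, Algebra.IsAlgebraic.tower_top (K := F) M⟩
    obtain ⟨g, hfr⟩ := exists_g (k := M) (Ω := AlgebraicClosure F) hVA
    have hgF : ∀ x : F, g (algebraMap F (AlgebraicClosure F) x) = algebraMap F (AlgebraicClosure F) x := by
      intro x
      rw [IsScalarTower.algebraMap_apply F M (AlgebraicClosure F)]
      exact hfr.fix _
    have hq : 0 < Ideal.absNorm v.asIdeal :=
      Nat.pos_of_ne_zero fun h => v.ne_bot (Ideal.absNorm_eq_zero_iff.1 h)
    obtain ⟨gF, hgF'⟩ : ∃ gF : AlgebraicClosure F ≃ₐ[F] AlgebraicClosure F, (gF : AlgebraicClosure F ≃+* AlgebraicClosure F) = g :=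
      ⟨AlgEquiv.ofRingEquiv (f := g) hgF, RingEquiv.ext fun x => rfl⟩
    have hgx : ∀ x, gF x = g x := fun x => by
      rw [← hgF']
      rfl
    have hmem : gF ∈ M.fixingSubgroup := by
      rw [IntermediateField.mem_fixingSubgroup_iff]
      intro x hx
      rw [hgx]
      exact hfr.fix ⟨x, hx⟩
    have hDec : Dec V gF := by
      intro x
      rw [hgx, ← V.valuation_le_one_iff, ← V.valuation_le_one_iff]
      exact (fr_mem hq hfr.frob x).1
    have hgT : ac (WAB A B) gF T = T := hf gF hmem hDec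
    have hFx : Fx g (algebraMap M (AlgebraicClosure F) u) (algebraMap M (AlgebraicClosure F) r)
        (algebraMap M (AlgebraicClosure F) s) (algebraMap M (AlgebraicClosure F) t) :=
      ⟨hfr.fix u, hfr.fix r, hfr.fix s, hfr.fix t⟩
    have hacr : acr g (hgF A) (hgF B) T = T := by
      have h1 : ∀ (f : AlgebraicClosure F ≃+* AlgebraicClosure F) (hf : (gF : AlgebraicClosure F ≃+* AlgebraicClosure F) = f)
          (hA : f (algebraMap F (AlgebraicClosure F) A) = algebraMap F (AlgebraicClosure F) A)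
          (hB : f (algebraMap F (AlgebraicClosure F) B) = algebraMap F (AlgebraicClosure F) B),
          acr f hA hB T = T := by
        intro f hf hA hB
        subst hf
        rw [acr_eq_ac]
        exact hgT
      exact h1 g hgF' _ _
    have hK : ∀ P ∈ Kg, acr g (hgF A) (hgF B) P ∈ Kg := fun P hP => (acr_kg hG hFx hq hfr.frob P).2 hP
    refine hN ((nw_dvd hVA hfr hC rfl hG hFx hK hp.prime).2
      ⟨(T : Pt (WAB A B) (AlgebraicClosure F) ⧸ Kg), ?_, ?_, ?_⟩)
    · intro h0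
      exact hT0 (hkg T ((QuotientAddGroup.eq_zero_iff T).1 h0) hT)
    · rw [← QuotientAddGroup.mk_nsmul, hT, QuotientAddGroup.mk_zero]
    · rw [qmap_mk]
      exact congrArg (QuotientAddGroup.mk (s := Kg)) hacr

end H55G
end

-- from Lib.H55G.J3b
section

/-! # H55G, part J: the numbers of points of isogenous curves -/

open NumberField IsDedekindDomain WeierstrassCurve

namespace H55G

open H55P (IQ embF eF LF Per IsHecke Pt ac Inert Dec Nm)
open H35P (WAB Ker tt GoodW IntW)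
open H55K (CMA Tor TN ak xc yc acr xc_acr yc_acr acr_zero_iff acr_inj acr_eq_ac acr_trans GoodAt Abw)
open H55K.MG (VC Crd)
open H55K.TQ
open H28I (TW VI IsW IP sA sB)

variable {F : Type} [Field F] [NumberField F] [IQ F] {W W' : WeierstrassCurve ℤ} {Om : ℂ} {m : Ideal (𝓞 F)}
  {ψ : Ideal (𝓞 F) →*₀ 𝓞 F} {kap : ℤ} {e t u lam : ℚ}

omit [IQ F] in
/-- Chunk J3b (S). A = -c₄/48 with c₄ the image of the integer W.c₄ (map_c₄, Sh); sA, sB in H28I/D.lean. -/
theorem sh_s {A B : F} (hS : Sh (W⁄(𝓞 F)) A B) : A = sA W F ∧ B = sB W F := by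
  have hA : sA W F = -(algebraMap (𝓞 F) F (W⁄(𝓞 F)).c₄) / 48 := by
    have e1 : (W⁄(𝓞 F)).c₄ = algebraMap ℤ (𝓞 F) W.c₄ := W.map_c₄ _
    rw [e1, sA]
    simp
  have hB : sB W F = -(algebraMap (𝓞 F) F (W⁄(𝓞 F)).c₆) / 864 := by
    have e1 : (W⁄(𝓞 F)).c₆ = algebraMap ℤ (𝓞 F) W.c₆ := W.map_c₆ _
    rw [e1, sB]
    simp
  exact ⟨hS.hA.trans hA.symm, hS.hB.trans hB.symm⟩

omit [IQ F] in
theorem j3b_sh (W : WeierstrassCurve ℤ) : Sh (W⁄(𝓞 F)) (sA W F) (sB W F) := by
  refine ⟨?_, ?_⟩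
  · have e1 : (W⁄(𝓞 F)).c₄ = algebraMap ℤ (𝓞 F) W.c₄ := W.map_c₄ _
    rw [e1, sA]
    simp
  · have e1 : (W⁄(𝓞 F)).c₆ = algebraMap ℤ (𝓞 F) W.c₆ := W.map_c₆ _
    rw [e1, sB]
    simp

/-- Chunk J3b (M). Ω an algebraically closed field, algebraic over the image of F, with act .. from setup (E2.lean) for W: A = sA W F, B = sB W F (sh_s). A₂ = sA W' F, B₂ = sB W' F; Sh (W'⁄(𝓞 F)) A₂ B₂. VI A B (lam^4 A₂) (lam^6 B₂) e t u over F: h.ip.vi mapped from ℚ to F (vi_map in H28I/V4.lean; sA W F = image of sA W ℚ).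
Φ with IsY: exists_Y (J0.lean) for this j and L from exists_perZ (perW_of h.base); g2, g3, VI over F, lam ≠ 0: as in the proof of H28I.iso6_of (Lib/H28I/K1.lean). -/
theorem exists_phi (h : TW F W W' Om m ψ kap e t u lam) (Ω : Type) [Field Ω] [DecidableEq Ω] [Algebra F Ω] [IsAlgClosed Ω]
    [Algebra.IsAlgebraic F Ω] : ∃ (j : Ω →+* ℂ) (act : 𝓞 F →+* AddMonoid.End (Pt (WAB (sA W F) (sB W F)) Ω))
      (Φ : Pt (WAB (sA W F) (sB W F)) Ω →+ Pt (WAB (sA W' F) (sB W' F)) Ω),
      Sh (W⁄(𝓞 F)) (sA W F) (sB W F) ∧ Sh (W'⁄(𝓞 F)) (sA W' F) (sB W' F) ∧ CMA F (sA W F) (sB W F) Om j act ∧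
      4 * sA W' F ^ 3 + 27 * sB W' F ^ 2 ≠ 0 ∧
      VI (sA W F) (sB W F) ((lam : F) ^ 4 * sA W' F) ((lam : F) ^ 6 * sB W' F) (e : F) (t : F) (u : F) ∧
      IsY (sA W F) (sB W F) (sA W' F) (sB W' F) (e : F) (t : F) (u : F) (lam : F) Φ := by
  classical
  obtain ⟨A, B, j, act, hS, hd, hC⟩ := setup h.base Ω
  obtain ⟨rfl, rfl⟩ := sh_s hS
  obtain ⟨L, hL⟩ := H55K.TQ.exists_perZ (H55K.TQ.perW_of h.base)
  have hl : (lam : F) ≠ 0 := by
    exact_mod_cast h.ip.lam0
  have hg2 : L.g₂ = -4 * j (algebraMap F Ω (sA W F)) := by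
    rw [hL.g2, sA]
    simp only [map_div₀, map_neg, map_intCast, map_ofNat]
    ring
  have hg3 : L.g₃ = -4 * j (algebraMap F Ω (sB W F)) := by
    rw [hL.g3, sB]
    simp only [map_div₀, map_neg, map_intCast, map_ofNat]
    ring
  have hc : CharZero Ω := charZero_of_injective_algebraMap (algebraMap F Ω).injective
  have hVI := H28I.vi_K h.ip F
  obtain ⟨Φ, hΦ⟩ := exists_Y (Ω := Ω) j L hl hVI hg2 hg3
  refine ⟨j, act, Φ, hS, j3b_sh W', hC, ?_, hVI, hΦ⟩
  intro h0
  apply hVI.disc'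
  linear_combination (lam : F) ^ 12 * h0

end H55G
end

-- from Lib.H55G.J3c
section

/-! # H55G, part J: the numbers of points of isogenous curves -/

open NumberField IsDedekindDomain WeierstrassCurve

namespace H55G

open H55P (IQ embF eF LF Per IsHecke Pt ac Inert Dec Nm)
open H35P (WAB Ker tt GoodW IntW)
open H55K (CMA Tor TN ak xc yc acr xc_acr yc_acr acr_zero_iff acr_inj acr_eq_ac acr_trans GoodAt Abw)
open H55K.MG (VC Crd)
open H55K.TQ
open H28I (TW VI IsW IP sA sB)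

variable {F : Type} [Field F] [NumberField F] [IQ F] {W W' : WeierstrassCurve ℤ} {Om : ℂ} {m : Ideal (𝓞 F)}
  {ψ : Ideal (𝓞 F) →*₀ 𝓞 F} {kap : ℤ} {e t u lam : ℚ}

/-- Chunk J3c (M). As hasse_Z (E2C.lean): Ω = AlgebraicClosure k with an embedding of F (Algebra F Ω), algebraic over F; classical DecidableEq. exists_phi (J3b.lean): j, act, Φ. V above w: exists_abw. C with GC (W⁄k) w C (hg), C₂ with GC (W'⁄k) w C₂ (H28I.tw_good). exists_GD (D2.lean) with vck_Z (E2.lean) for both curves: GD V ((C • (W⁄k))⁄Ω) .. Θ Kg and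
GD V ((C₂ • (W'⁄k))⁄Ω) .. Θ₂ Kg₂, with u, r, s, t, u₂, .. images of elements of k. phi_e2 (J1b.lean; IsY.w, c₀ = lam^2 ≠ 0) gives S: PD (div: CMA.surj for n ≠ 0, map_natCast). g from exists_g (E2.lean): FrD k V w g; it fixes all rational numbers, so A, B, A₂, B₂ (fix_AB) and e, t, u, lam: isy_acr (J0.lean) gives hc; Fx for both models; hK, hK₂: acr_kg.
e_all (E1.lean), third claim: hs. pd_count (J3a.lean) and NW_fr (D4.lean) for both curves. -/
theorem nw_tw (h : TW F W W' Om m ψ kap e t u lam) (k : Type) [Field k] [NumberField k] (w : HeightOneSpectrum (𝓞 k))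
    (hg : GoodAt (W⁄k) w) : NW (W'⁄k) w = NW (W⁄k) w := by
  classical
  let ι : F →+* AlgebraicClosure k :=
    ((IsAlgClosed.lift (R := ℚ) (S := F) (M := AlgebraicClosure k) : F →ₐ[ℚ] AlgebraicClosure k) : F →+* AlgebraicClosure k)
  letI algF : Algebra F (AlgebraicClosure k) := ι.toAlgebra
  have htow : IsScalarTower ℚ F (AlgebraicClosure k) :=
    IsScalarTower.of_algebraMap_eq' (Subsingleton.elim _ _)
  have halgQ : Algebra.IsAlgebraic ℚ (AlgebraicClosure k) := Algebra.IsAlgebraic.trans ℚ k (AlgebraicClosure k)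
  have halg : Algebra.IsAlgebraic F (AlgebraicClosure k) := Algebra.IsAlgebraic.tower_top (K := ℚ) F
  obtain ⟨j, act, Φ, hS, hS', hC, hd₂, hVI, hY⟩ := exists_phi h (AlgebraicClosure k)
  have hd := hC.disc
  obtain ⟨V, hV⟩ := H55K.exists_abw (AlgebraicClosure k) w
  obtain ⟨C, hCg⟩ := (good_iff _ w).1 hg
  obtain ⟨C₂, hCg₂⟩ := (good_iff _ w).1 ((H28I.tw_good h k w).2 hg)
  obtain ⟨u₁, r₁, s₁, t₁, Θ, Kg, hG⟩ := exists_GD hd hV (vck_Z hS) hCg
  obtain ⟨u₂, r₂, s₂, t₂, Θ₂, Kg₂, hG₂⟩ := exists_GD hd₂ hV (vck_Z hS') hCg₂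
  obtain ⟨S, hmem, hpm, he2⟩ := phi_e2 hY.w hVI
  obtain ⟨g, hfr⟩ := exists_g hV
  have hlam : (lam : F) ≠ 0 := Rat.cast_ne_zero.2 h.ip.lam0
  have hrat : ∀ q : ℚ, g (algebraMap F (AlgebraicClosure k) (q : F)) = algebraMap F (AlgebraicClosure k) (q : F) := by
    intro q
    rw [map_ratCast, map_ratCast]
  obtain ⟨fA, fB⟩ := fix_AB hS g
  obtain ⟨fA₂, fB₂⟩ := fix_AB hS' g
  have hc : ∀ P, Φ (acr g fA fB P) = acr g fA₂ fB₂ (Φ P) :=
    isy_acr hY hlam g (hrat e) (hrat t) (hrat u) (hrat lam) fA fB fA₂ fB₂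
  have hgx : Fx g (algebraMap k (AlgebraicClosure k) u₁) (algebraMap k (AlgebraicClosure k) r₁)
      (algebraMap k (AlgebraicClosure k) s₁) (algebraMap k (AlgebraicClosure k) t₁) :=
    ⟨hfr.fix _, hfr.fix _, hfr.fix _, hfr.fix _⟩
  have hgx₂ : Fx g (algebraMap k (AlgebraicClosure k) u₂) (algebraMap k (AlgebraicClosure k) r₂)
      (algebraMap k (AlgebraicClosure k) s₂) (algebraMap k (AlgebraicClosure k) t₂) :=
    ⟨hfr.fix _, hfr.fix _, hfr.fix _, hfr.fix _⟩
  have hq : 0 < Ideal.absNorm w.asIdeal := Nat.pos_of_ne_zero fun h => w.ne_bot (Ideal.absNorm_eq_zero_iff.1 h)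
  have hK : ∀ P ∈ Kg, acr g fA fB P ∈ Kg := fun P hP => (acr_kg hG hgx hq hfr.frob P).2 hP
  have hK₂ : ∀ P ∈ Kg₂, acr g fA₂ fB₂ P ∈ Kg₂ := fun P hP => (acr_kg hG₂ hgx₂ hq hfr.frob P).2 hP
  have hs := (e_all hC hfr hCg rfl hG hgx hK).2.2
  have hdiv : ∀ n : ℕ, n ≠ 0 → ∀ P : Pt (WAB (sA W F) (sB W F)) (AlgebraicClosure k), ∃ Q, n • Q = P := by
    intro n hn P
    obtain ⟨Q, hQ⟩ := hC.surj ((n : ℕ) : 𝓞 F) (by exact_mod_cast hn) P
    refine ⟨Q, ?_⟩
    rw [map_natCast, AddMonoid.End.natCast_apply] at hQ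
    exact hQ
  have hla : algebraMap F (AlgebraicClosure k) (lam : F) ^ 2 ≠ 0 := pow_ne_zero 2 ((map_ne_zero _).2 hlam)
  have hPD : PD V ((C • (W⁄k))⁄(AlgebraicClosure k)) _ _ _ _ Θ Kg ((C₂ • (W'⁄k))⁄(AlgebraicClosure k)) _ _ _ _ Θ₂ Kg₂ Φ S
      (algebraMap F (AlgebraicClosure k) (lam : F) ^ 2) :=
    { gd := hG
      gd₂ := hG₂
      div := hdiv
      surj := hY.w.surj
      c0 := hla
      mem := hmem
      pm := hpm
      e2 := he2 }
  have h1 := pd_count hPD hc hK hK₂ hs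
  have h2 := NW_fr hfr hCg rfl hG hgx hK
  have h3 := NW_fr hfr hCg₂ rfl hG₂ hgx₂ hK₂
  rw [h2, h3, h1]

end H55G
end
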