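import Mathlib
import Pool.Agent.Lib.H1M.PP2.D_H13R_K0
import Pool.Agent.Lib.H1M.PP2.D_H16C_Stm
import Pool.Agent.Lib.H1M.PP2.D_H19A_Stm
import Pool.Agent.Lib.H1M.PP2.D_H28T_XMain
import Pool.Agent.Lib.H1M.PP2.D_H55P_SD
import Pool.Agent.Lib.H1M.PP2.D_H55P_Stm
import Pool.Agent.Lib.H1M.PP2.D_H55Y_Y5
import Pool.Agent.Lib.H1M.PP2.M045
import Pool.Agent.Lib.H1M.PP2.M060
import Pool.Agent.Lib.H1M.PP2.M081
import Pool.Agent.Lib.H1M.PP2.M109
import Pool.Agent.Lib.H1M.PP2.M110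
import Pool.Agent.Lib.H1M.PP2.M118
import Pool.Agent.Lib.H1M.PP2.M123
import Pool.Agent.Lib.H1M.PP2.M128
import Pool.Agent.Lib.H1M.PP2.M139
import Pool.Agent.Lib.H1M.PP2.M141
import Pool.Agent.Lib.H1M.PP2.M143
import Pool.Agent.Lib.H1M.PP2.M145
import Pool.Agent.Lib.H1M.PP2.M150
import Pool.Agent.Lib.H1M.PP2.M154
import Pool.Agent.Lib.H1M.PP2.M162

/-! Merged copies (to shorten the build) of Lib.H19A.Stm_T, Lib.H55K.FC3, Lib.H28I.A1, Lib.H55Z.X1, Lib.H55Y.Y6, Lib.H55Z.Q8, Lib.H55Z.Q9, Lib.SSG.Z.L10, Lib.SSG.Z.Fin, Lib.SSG.Z.Z5, Lib.H55G.I4b, Lib.H55G.I4c. -/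

-- from Lib.H19A.Stm_T
section

/-! # H19A: statement of the theorem on supersingular cyclotomic towers (MP_f50388_nt, theorem (A)) -/

open NumberField IsDedekindDomain WeierstrassCurve

namespace H19A

open H55P (IQ)
open H55K (GoodAt)
open H55K.TQ







/-- The base field M: p unramified with residue fields of order p or p^2, W bad at all primes of FM which divide the discriminant, and
(unit case) the rank part and the p-part of the conjecture over M with trivial p-Selmer group. -/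
structure Base (F : Type) [Field F] [NumberField F] [IQ F] (p : ℕ) (W : WeierstrassCurve ℤ) (M : Type) [Field M] [NumberField M]
    (ιM : M →ₐ[ℚ] AlgebraicClosure F) : Prop where
  split : SplitM p M
  bad : H13R.BadM (W⁄(𝓞 F)) (KG F M ιM)
  unit : BSDPG p W M

/-- The theorem over the base field M. -/
def TowerThm (F : Type) [Field F] [NumberField F] [IQ F] (p : ℕ) (W : WeierstrassCurve ℤ) : Prop :=
  ∀ (M : Type) [Field M] [NumberField M] (ιM : M →ₐ[ℚ] AlgebraicClosure F), Base F p W M ιM →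
    ∀ (n : ℕ) (K : Type) [Field K] [NumberField K] [Algebra M K], Layer p n M K → AtLayer p n W M K

/-- Every finite p-group is a subgroup of the Galois group of a Galois extension M/F of degree a power of p to which the theorem
applies. -/
def Exist (F : Type) [Field F] [NumberField F] [IQ F] (p : ℕ) (W : WeierstrassCurve ℤ) : Prop :=
  ∀ (H : Type) [Group H] [Finite H] (k : ℕ), Nat.card H = p ^ k →
    ∃ (M : Type) (_ : Field M) (_ : NumberField M) (_ : Algebra F M), IsGalois F M ∧ (∃ r : ℕ, Module.finrank F M = p ^ r) ∧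
      (∃ φ : H →* (M ≃ₐ[F] M), Function.Injective φ) ∧ ∀ ιM : M →ₐ[ℚ] AlgebraicClosure F, Base F p W M ιM

/-- Every finite p-group is a subquotient of the Galois group over F of the field generated by F and a field M with a real place to which
the theorem applies. -/
def ExistReal (F : Type) [Field F] [NumberField F] [IQ F] (p : ℕ) (W : WeierstrassCurve ℤ) : Prop :=
  ∀ (H : Type) [Group H] [Finite H] (k : ℕ), Nat.card H = p ^ k →
    ∃ (M : Type) (_ : Field M) (_ : NumberField M), 0 < InfinitePlace.nrRealPlaces M ∧ (∀ ιM : M →ₐ[ℚ] AlgebraicClosure F, Base F p W M ιM) ∧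
      ∃ (N : Type) (_ : Field N) (_ : NumberField N) (_ : Algebra F N) (_ : Algebra M N),
        Module.finrank M N = 2 ∧ IsGalois ℚ N ∧ (∃ r : ℕ, Module.finrank F N = p ^ r) ∧ H28R.SubQ (N ≃ₐ[F] N) H


end H19A
end

-- from Lib.H55K.FC3
section

/-! # H55K: almost all prime numbers: conclusions -/

open NumberField IsDedekindDomain WeierstrassCurve

namespace H55K.TQ

open H55P (IQ embF eF LF Per IsHecke Pt ac Inert Dec Nm UnitP)
open H35P (WAB Ker tt GoodW IntW)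
open H55K.MG (VC Crd)

variable {F : Type} [Field F] [NumberField F] [IQ F] {W₀ : WeierstrassCurve (𝓞 F)} {Om : ℂ}
    {m : Ideal (𝓞 F)} {ψ : Ideal (𝓞 F) →*₀ 𝓞 F} {p : ℕ}

theorem fc3_pext (F : Type) [Field F] [NumberField F] (p : ℕ)
    [NumberField (⊥ : IntermediateField F (AlgebraicClosure F))] :
    H55P.PExt p (⊥ : IntermediateField F (AlgebraicClosure F)) ⊥ := by
  refine ⟨inferInstance, le_rfl, fun s hs x hx => ?_, 0, by rw [pow_zero, mul_one]⟩
  rw [IntermediateField.mem_fixingSubgroup_iff] at hs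
  rw [hs x hx]
  exact hx

theorem fc3_unr (F : Type) [Field F] [NumberField F] {p : ℕ} (hp : p.Prime) (hU : H55P.UnrP p F)
    [NumberField (⊥ : IntermediateField F (AlgebraicClosure F))] :
    H55P.UnrP p (⊥ : IntermediateField F (AlgebraicClosure F)) := by
  letI : Algebra (⊥ : IntermediateField F (AlgebraicClosure F)) F :=
    (IntermediateField.botEquiv F (AlgebraicClosure F)).toRingEquiv.toRingHom.toAlgebra
  exact H55P.UnrP.down (⊥ : IntermediateField F (AlgebraicClosure F)) F p hp hU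

theorem fc3_tr {ψ : Ideal (𝓞 F) →*₀ 𝓞 F} {K' K'' : IntermediateField F (AlgebraicClosure F)} (h : K' = K'')
    [NumberField K'] [NumberField K'']
    (hL : ∃ Φ : ℂ → ℂ, AnalyticOnNhd ℂ Φ {s | 1 / 2 < s.re} ∧
      (∀ s : ℂ, 3 / 2 < s.re → HasSum (H55N.tm (H55P.PsiP K' ψ) s) (Φ s)) ∧ Φ 1 ≠ 0) :
    ∃ Φ : ℂ → ℂ, AnalyticOnNhd ℂ Φ {s | 1 / 2 < s.re} ∧
      (∀ s : ℂ, 3 / 2 < s.re → HasSum (H55N.tm (H55P.PsiP K'' ψ) s) (Φ s)) ∧ Φ 1 ≠ 0 := by
  subst h
  exact hL

/-- Chunk FC3 (M). If no prime satisfies PrimeH the set is finite. Otherwise gen_intK for one p₀ and K = the bottom field (PExt p ⊥ ⊥: fin, le, norm, deg with k = 0; UnrP p ⊥: transport of UnrP p F by the isomorphism, UnrP.down with the algebra structure ⊥ → F, or f2_unrG style) gives Φ and x = Φ(1)/Om^1 with V(x) ≤ 1 above p₀: x is algebraic (alg_of_int), x ≠ 0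
(hypothesis: Φ(1) = Φ'(1) by ident; Om ≠ 0: hH.data.per.ne), unit_almost: ValG for all the other p. -/
theorem val_almost (hH : BaseH F W₀ Om m ψ) [NumberField (⊥ : IntermediateField F (AlgebraicClosure F))]
    (hL : ∃ Φ : ℂ → ℂ, AnalyticOnNhd ℂ Φ {s | 1 / 2 < s.re} ∧
      (∀ s : ℂ, 3 / 2 < s.re → HasSum (H55N.tm (H55P.PsiP (⊥ : IntermediateField F (AlgebraicClosure F)) ψ) s) (Φ s)) ∧ Φ 1 ≠ 0) :
    {p : ℕ | PrimeH F W₀ p ∧ ¬ H55P.ValG p Om ψ (⊥ : IntermediateField F (AlgebraicClosure F))}.Finite := by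
  by_cases hex : ∃ p, PrimeH F W₀ p
  swap
  · refine Set.Finite.subset Set.finite_empty fun p hp => ?_
    exact absurd ⟨p, hp.1⟩ hex
  obtain ⟨p₀, hp₀⟩ := hex
  obtain ⟨Λ, ha, hs, hint⟩ := gen_intK hH hp₀ (fc3_pext F p₀) (le_refl ⊥) (fc3_unr F hp₀.prime hp₀.unr)
  obtain ⟨Φ, hΦa, hΦs, hΦ1⟩ := hL
  have h1 : Λ 1 = Φ 1 := H55N.TW1_ident (1 / 2) Λ Φ ha hΦa
    (fun s hs' => (hs s hs').unique (hΦs s hs')) (by norm_num) 1 (by norm_num)
  have hne : Λ 1 ≠ 0 := by
    rw [h1]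
    exact hΦ1
  have hOm : Om ≠ 0 := hH.data.per.ne
  have hx : Λ 1 / Om ^ Module.finrank F (⊥ : IntermediateField F (AlgebraicClosure F)) ≠ 0 :=
    div_ne_zero hne (pow_ne_zero _ hOm)
  refine Set.Finite.subset (unit_almost hx (alg_of_int hp₀.prime hint)) ?_
  rintro p ⟨hp, hV⟩
  exact ⟨hp.prime, fun hU => hV ⟨Λ, ha, hs, hne, hU⟩⟩

/-- Chunk FC3 (S/M). an_rat (F2.lean), prime_almost, val_almost; the L-function over ℚ is Φ(s) or Φ(s) conj Φ(conj s) (lrel in FB4.lean for K = ℚ, with the ι of sub_setup and kg_rat as in an_rat; Φ from gen_intK), so Φ(1) ≠ 0 (H55P: ident). -/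
theorem an_almost {W : WeierstrassCurve ℤ} (hH : BaseH F (W⁄(𝓞 F)) Om m ψ) (hL : LNz W ℚ) :
    {p : ℕ | p.Prime ∧ ¬ AnUnitG p W ℚ}.Finite := by
  classical
  have hbn : NumberField (⊥ : IntermediateField F (AlgebraicClosure F)) := H16C.FR_numberField _
  have hfin := prime_almost (W⁄(𝓞 F)) hH.data.ell
  by_cases hex : ∃ p, PrimeH F (W⁄(𝓞 F)) p
  swap
  · refine hfin.subset ?_
    rintro p ⟨hp, -⟩
    exact ⟨hp, fun h => hex ⟨p, h⟩⟩
  obtain ⟨p₀, hp₀⟩ := hex
  obtain ⟨L, hLn, ι, hL', hU, hK, -⟩ := sub_setup (F := F) p₀ hp₀.prime ℚ F inferInstance 0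
    (by rw [pow_zero, Module.finrank_self]) hp₀.unr
  have hG := kg_rat F ℚ (fun x => ⟨x, (Rat.cast_id x).symm⟩) ι
  have hn : NumberField (KG F ℚ ι) := by
    rw [hG]
    infer_instance
  obtain ⟨Φ, hΦa, hΦs, -⟩ := gen_intK hH hp₀ hL' hK (f2_unrG hp₀ hL' hU ℚ ι hK)
  have hR := lrel hH hp₀ hL' ℚ ι hK
  obtain ⟨Λ, hΛa, hΛs, hΛ1⟩ := hL
  have hΦ1 : Φ 1 ≠ 0 := by
    rcases hR with ⟨hd, -⟩ | ⟨-, hR⟩
    · rw [Module.finrank_self] at hd
      omega
    · have h1 : Φ 1 = Λ 1 := H55N.TW1_ident (1 / 2) Φ Λ hΦa hΛa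
        (fun s hs => by
          rw [(hΛs s hs).2]
          exact ((hR Φ hΦs s hs).LSeries_eq).symm) (by norm_num) 1 (by norm_num)
      rw [h1]
      exact hΛ1
  have hval := val_almost hH (fc3_tr hG ⟨Φ, hΦa, hΦs, hΦ1⟩)
  refine (hfin.union hval).subset ?_
  rintro p ⟨hp, hA⟩
  by_cases hP : PrimeH F (W⁄(𝓞 F)) p
  · right
    exact ⟨hP, fun hV => hA ((an_rat hH hP).2 hV)⟩
  · left
    exact ⟨hp, hP⟩

end H55K.TQ
end

-- from Lib.H28I.A1
section

/-! # H28I, part A: the theorem for the isogenous curve -/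

open NumberField IsDedekindDomain WeierstrassCurve

namespace H28I

open H55P (IQ embF eF LF Per IsHecke Pt ac Inert Dec Nm)
open H35P (WAB Ker tt GoodW IntW)
open H55K (xc yc)
open H55K.TQ

variable {F : Type} [Field F] [NumberField F] [IQ F] {W W' : WeierstrassCurve ℤ} {Om : ℂ} {m : Ideal (𝓞 F)}
    {ψ : Ideal (𝓞 F) →*₀ 𝓞 F} {kap : ℤ} {e t u lam : ℚ} {p : ℕ}

/-- lfun_same, lG_same, tw_iso. -/
theorem same_of (h : TW F W W' Om m ψ kap e t u lam) (hp : PrimeH F (W⁄(𝓞 F)) p) (K : Type) [Field K] [NumberField K]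
    (hK : SubUF F p K) : Same p W W' K := by
  have hp' := (tw_prime h).2 hp
  obtain ⟨L, hL⟩ := exists_perZ (perW_of h.base)
  exact ⟨lfun_same h hp K hK, fun L L' hL hL' V hV x => lG_same h.ip hp.prime hp.five (fb6b_ndvd hp) (fb6b_ndvd hp')
    (jint_Z h.base) h.jint K hL hL' x V hV, ⟨L, hL⟩, (lrt_of h.ip hL).1, tw_iso h K, (disc_ne h.ip).1, (disc_ne h.ip).2⟩

/-- The rational numbers belong to all classes. -/
theorem subUF_Q (hp : PrimeH F (W⁄(𝓞 F)) p) : SubUF F p ℚ :=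
  ⟨F, inferInstance, inferInstance, inferInstance, inferInstance, inferInstance, ⟨0, by rw [pow_zero, Module.finrank_self]⟩, hp.unr⟩

/-- THE THEOREM for the isogenous curve. -/
theorem main_iso (h : TW F W W' Om m ψ kap e t u lam) (hp' : PrimeH F (W'⁄(𝓞 F)) p) (K : Type) [Field K] [NumberField K]
    (hK : SubUF F p K) :
    AnIntG p W' K ∧ (AnUnitG p W' K ↔ AnUnitG p W' ℚ ∧ InPF (W'⁄(𝓞 F)) p K) ∧ (AnUnitG p W' K → BSDPG p W' K) ∧
      (¬ InPF (W'⁄(𝓞 F)) p K → AnNonG p W' K ∧ H13Z.SelNonT (W'⁄K) p) := by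
  have hp := (tw_prime h).1 hp'
  have hS := same_of h hp K hK
  have hQ := subUF_Q (F := F) hp
  have hSQ := same_of h hp ℚ hQ
  obtain ⟨h1, h2, h3⟩ := main_Q h.base hp K hK
  obtain ⟨-, h2', -⟩ := main_Q h.base hp ℚ hQ
  have hI := int_Q h.base hp K hK
  have hIQ := int_Q h.base hp ℚ hQ
  have e1 : AnUnitG p W' K ↔ AnUnitG p W K :=
    ⟨fun a => same_unit' hp.prime hp.five hS hI a, fun a => same_unit hp.prime hp.five hS a (h2 a)⟩
  have e2 : AnUnitG p W' ℚ ↔ AnUnitG p W ℚ :=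
    ⟨fun a => same_unit' hp.prime hp.five hSQ hIQ a, fun a => same_unit hp.prime hp.five hSQ a (h2' a)⟩
  refine ⟨same_int hS hI, ?_, fun a => same_bsd hp.prime hp.five hS (h2 (e1.1 a)) a, fun a => ?_⟩
  · rw [e1, e2, tw_inPF h, h1]
  · obtain ⟨b1, b2⟩ := h3 (fun b => a ((tw_inPF h K).2 b))
    exact ⟨same_non hS b1, selnon_iso hp.prime hp.five (tw_iso h K) b2⟩

/-- Chunk A1 (M). As an_almost and result (PrimePart.lean). If no prime p₀ satisfies PrimeH F (W⁄(𝓞 F)) p₀ then (prime_almost, FC2.lean) there are only finitely many primes. Otherwise LNz W ℚ (same_lnz for same_of h hp₀ ℚ), an_almost h.base: for almost all p PrimeH F (W..) p (prime_almost) and AnUnitG p W ℚ; then same_unit (main_Q) gives AnUnitG p W' ℚ; tw_prime. -/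
theorem almost_iso (h : TW F W W' Om m ψ kap e t u lam) (hL : LNz W' ℚ) :
    {p : ℕ | p.Prime ∧ ¬ (PrimeH F (W'⁄(𝓞 F)) p ∧ AnUnitG p W' ℚ)}.Finite := by
  have hfin := prime_almost (W⁄(𝓞 F)) h.base.data.ell
  by_cases hex : ∃ p, PrimeH F (W⁄(𝓞 F)) p
  swap
  · refine hfin.subset ?_
    rintro p ⟨hp, -⟩
    exact ⟨hp, fun h => hex ⟨p, h⟩⟩
  obtain ⟨p₀, hp₀⟩ := hex
  have hS0 := same_of h hp₀ ℚ (subUF_Q (F := F) hp₀)
  have hLW := (same_lnz hS0).1 hL
  refine (hfin.union (an_almost h.base hLW)).subset ?_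
  rintro p ⟨hp, hV⟩
  by_cases hP : PrimeH F (W⁄(𝓞 F)) p
  · right
    refine ⟨hp, fun hA => hV ⟨(tw_prime h).2 hP, ?_⟩⟩
    have hQ := subUF_Q (F := F) hP
    obtain ⟨-, h2, -⟩ := main_Q h.base hP ℚ hQ
    exact same_unit hP.prime hP.five (same_of h hP ℚ hQ) hA (h2 hA)
  · left
    exact ⟨hp, hP⟩

/-- Chunk A1 (S). Definition of Gx (H28T); tw_supp, tw_deu. -/
theorem tw_gx (h : TW F W W' Om m ψ kap e t u lam) (v : HeightOneSpectrum (𝓞 F)) :
    H28T.Gx (W'⁄(𝓞 F)) p v ↔ H28T.Gx (W⁄(𝓞 F)) p v := by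
  unfold H28T.Gx
  refine and_congr_right fun _ => ?_
  have hs := tw_supp h v
  constructor
  · intro a hΔ
    have hΔ' : (W'⁄(𝓞 F)).Δ ∉ v.asIdeal := fun b => hΔ (hs.1 b)
    have b := a hΔ'
    rwa [(tw_deu h v hΔ').1] at b
  · intro a hΔ'
    have hΔ : (W⁄(𝓞 F)).Δ ∉ v.asIdeal := fun b => hΔ' (hs.2 b)
    rw [(tw_deu h v hΔ').1]
    exact a hΔ

/-- Chunk A1 (S). H28T.Gx (W'⁄(𝓞 F)) p = H28T.Gx (W⁄(𝓞 F)) p (funext, propext, tw_gx), tw_inPF: the fields of Rich and RealG for W' follow from those for W (rich_of, real_Q in H28T/XMain.lean) by rewriting. -/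
theorem rich_iso (h : TW F W W' Om m ψ kap e t u lam) (hp' : PrimeH F (W'⁄(𝓞 F)) p) :
    H28T.Rich (W'⁄(𝓞 F)) p ∧ ∀ (H : Type) [Group H] [Finite H] (k : ℕ), Nat.card H = p ^ k → H28T.RealG (W'⁄(𝓞 F)) p H := by
  have hp := (tw_prime h).1 hp'
  have hG : H28T.Gx (W'⁄(𝓞 F)) p = H28T.Gx (W⁄(𝓞 F)) p := funext fun v => propext (tw_gx h v)
  have r := H28T.rich_of h.base hp
  refine ⟨⟨fun K _ _ => ?_, ?_, ?_, ?_, ?_, ?_, fun K₀ _ _ hK => ?_, ?_⟩, fun H _ _ k hk => ?_⟩
  · rw [hG]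
    exact (tw_inPF h K).trans (r.cls K)
  · rw [hG]
    exact r.cyc
  · rw [hG]
    exact r.inf
  · rw [hG]
    exact r.abel
  · rw [hG]
    exact r.wr
  · rw [hG]
    exact r.emb
  · rw [hG] at hK
    exact (tw_inPF h K₀).2 (r.rat K₀ hK)
  · rw [hG]
    exact r.real
  · obtain ⟨K₀, i1, i2, h1, h2, N, j1, j2, j3, j4, h3, h4, h5, h6⟩ := H28T.real_Q h.base hp H k hk
    exact ⟨K₀, i1, i2, h1, (tw_inPF h K₀).2 h2, N, j1, j2, j3, j4, h3, h4, by rw [hG]; exact h5, h6⟩

end H28I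
end

-- from Lib.H55Z.X1
section

/-! # H55Z, part X: existence of the base fields and of the layers -/

open NumberField IsDedekindDomain WeierstrassCurve

namespace H55Z

open H28T
open H55P H55R
open H55K H55K.TQ

section pext

variable {F : Type} [Field F] [NumberField F] [IQ F]

/-- An embedding of a field which contains F, restricted to F. -/
theorem x1_conj {N : Type} [Field N] [NumberField N] [Algebra F N] (ι : N →ₐ[ℚ] AlgebraicClosure F) :
    ∃ c : F ≃+* F, ∀ y, algebraMap F (AlgebraicClosure F) (c y) = ι (algebraMap F N y) := by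
  have hq : Algebra.IsQuadraticExtension ℚ F := ⟨IQ.deg⟩
  have hn : Normal ℚ F := Algebra.IsQuadraticExtension.normal ℚ F
  let g : F →ₐ[ℚ] AlgebraicClosure F := (ι.toRingHom.comp (algebraMap F N)).toRatAlgHom
  let h : F →ₐ[ℚ] AlgebraicClosure F := (algebraMap F (AlgebraicClosure F)).toRatAlgHom
  let eh : F ≃ₐ[ℚ] h.fieldRange := AlgEquiv.ofInjectiveField h
  let eg : F ≃ₐ[ℚ] g.fieldRange := AlgEquiv.ofInjectiveField g
  have hn' : Normal ℚ h.fieldRange := Normal.of_algEquiv eh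
  have h1 : g.fieldRange = h.fieldRange := by
    have h2 := @AlgHom.fieldRange_of_normal ℚ (AlgebraicClosure F) _ _ _ h.fieldRange hn' (g.comp (eh.symm : h.fieldRange →ₐ[ℚ] F))
    rw [← h2]
    apply le_antisymm
    · rintro _ ⟨x, rfl⟩
      exact ⟨eh x, congrArg g (eh.symm_apply_apply x)⟩
    · rintro _ ⟨x, rfl⟩
      exact ⟨eh.symm x, rfl⟩
  let c : F ≃ₐ[ℚ] F := (eg.trans (IntermediateField.equivOfEq h1)).trans eh.symm
  refine ⟨c.toRingEquiv, fun y => ?_⟩
  have h3 : eh (c y) = IntermediateField.equivOfEq h1 (eg y) := eh.apply_symm_apply _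
  exact congrArg Subtype.val h3

theorem x1_gal2 {N : Type} [Field N] (i1 i2 : Algebra F N) (c : F ≃+* F)
    (h : ∀ y, @algebraMap F N _ _ i2 (c y) = @algebraMap F N _ _ i1 y) (hG : @IsGalois F _ N _ i1) :
    @IsGalois F _ N _ i2 ∧ @Module.finrank F N _ _ i2.toModule = @Module.finrank F N _ _ i1.toModule := by
  constructor
  · exact @IsGalois.of_equiv_equiv F N _ _ i1 F N _ _ i2 hG c (RingEquiv.refl N) (RingHom.ext h)
  · exact (@Algebra.finrank_eq_of_equiv_equiv F N _ _ i1 F N _ _ i2 c (RingEquiv.refl N) (RingHom.ext h)).symm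

/-- The field generated by F and an arbitrary conjugate of N. -/
theorem x1_pext {p : ℕ} (hp : p.Prime) (N : Type) [Field N] [NumberField N] [Algebra F N] (hG : IsGalois F N) {k : ℕ}
    (hk : Module.finrank F N = p ^ k) (ι : N →ₐ[ℚ] AlgebraicClosure F) : PExt p ⊥ (KG F N ι) := by
  obtain ⟨c, hc⟩ := x1_conj (F := F) ι
  obtain ⟨h1, h2⟩ := x1_gal2 (F := F) (N := N) inferInstance ((algebraMap F N).comp c.symm.toRingHom).toAlgebra c (fun y => by
    show algebraMap F N (c.symm (c y)) = _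
    rw [c.symm_apply_apply]) hG
  letI i2 : Algebra F N := ((algebraMap F N).comp c.symm.toRingHom).toAlgebra
  let j : N →ₐ[F] AlgebraicClosure F :=
    { ι.toRingHom with
      commutes' := fun y => by
        show ι _ = _
        have h3 := hc (c.symm y)
        rw [c.apply_symm_apply] at h3
        exact h3.symm }
  have h3 := pextF_range p hp N h1 k (h2.trans hk) j
  have h4 : KG F N ι = j.fieldRange := by
    apply le_antisymm
    · unfold KG
      rw [IntermediateField.adjoin_le_iff]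
      rintro _ ⟨x, rfl⟩
      exact ⟨x, rfl⟩
    · rintro _ ⟨x, rfl⟩
      exact IntermediateField.subset_adjoin F _ ⟨x, rfl⟩
  rw [h4]
  exact h3

end pext

section split

variable {F : Type} [Field F] [NumberField F] [IQ F] {p : ℕ}

theorem x1_pr (hp : p.Prime) (hI : H19A.InertQ F p) (hU : UnrP p F) :
    ∃ P : Pl F, P.asIdeal = Ideal.span {(p : 𝓞 F)} ∧ P.asIdeal.ramificationIdx ℤ = 1 := by
  have h0 : Ideal.span {(p : 𝓞 F)} ≠ ⊥ := by
    rw [Ne, Ideal.span_singleton_eq_bot]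
    exact Nat.cast_ne_zero.2 hp.ne_zero
  have hpr : (Ideal.span {(p : 𝓞 F)}).IsPrime := hI
  refine ⟨⟨Ideal.span {(p : 𝓞 F)}, hpr, h0⟩, rfl, ?_⟩
  have hl : (Ideal.span {(p : 𝓞 F)}).LiesOver (Ideal.span {(p : ℤ)}) := by
    refine ⟨?_⟩
    have hpp : Prime (p : ℤ) := Nat.prime_iff_prime_int.1 hp
    have hm : (Ideal.span {(p : ℤ)}).IsMaximal := PrincipalIdealRing.isMaximal_of_irreducible hpp.irreducible
    refine hm.eq_of_le (Ideal.IsPrime.ne_top inferInstance) ?_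
    rw [Ideal.span_singleton_le_iff_mem, Ideal.under, Ideal.mem_comap, map_natCast]
    exact Ideal.mem_span_singleton_self _
  have hne : Ideal.span {(p : ℤ)} ≠ ⊥ := by
    rw [Ne, Ideal.span_singleton_eq_bot]
    exact_mod_cast hp.ne_zero
  by_contra h
  have h1 : 0 < (Ideal.span {(p : 𝓞 F)}).ramificationIdx ℤ := Ideal.ramificationIdx_pos _ ℤ
  have h2 : 2 ≤ (Ideal.span {(p : ℤ)}).ramificationIdx' (Ideal.span {(p : 𝓞 F)}) := by
    rw [Ideal.ramificationIdx'_eq_ramificationIdx (Ideal.span {(p : ℤ)}) (Ideal.span {(p : 𝓞 F)}) hne]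
    have h3 : (Ideal.span {(p : 𝓞 F)}).ramificationIdx ℤ ≠ 1 := h
    omega
  have h3 := (Ideal.le_pow_of_le_ramificationIdx' h2) (Ideal.mem_map_of_mem _ (Ideal.mem_span_singleton_self (p : ℤ)))
  rw [map_natCast] at h3
  exact (unr_iff hp).1 hU ⟨Ideal.span {(p : 𝓞 F)}, hpr, h0⟩ h3

/-- The completions above p of the subfields of N. -/
theorem x1_split (hp : p.Prime) (hI : H19A.InertQ F p) (hU : UnrP p F) {K N : Type} [Field K] [NumberField K] [Field N] [NumberField N]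
    [Algebra F N] [Algebra K N] (hS : Spl F p N) : H19A.SplitM p K := by
  intro w hw
  obtain ⟨W, hW⟩ := under_exists (L := N) w
  have hwW : w.asIdeal = W.asIdeal.comap (algebraMap (𝓞 K) (𝓞 N)) := by
    rw [← hW]
    rfl
  have hpW : (p : 𝓞 N) ∈ W.asIdeal := by
    have h1 : (p : 𝓞 K) ∈ W.asIdeal.comap (algebraMap (𝓞 K) (𝓞 N)) := hwW ▸ hw
    rw [Ideal.mem_comap, map_natCast] at h1
    exact h1
  obtain ⟨e1, f1⟩ := hS W hpW
  obtain ⟨P, hP, hPe⟩ := x1_pr (F := F) hp hI hU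
  have hWp := W.isPrime
  have hWm := W.isMaximal
  have hwp := w.isPrime
  have hwm := w.isMaximal
  have hPp := P.isPrime
  have hPm := P.isMaximal
  have hu : W.asIdeal.under (𝓞 F) = P.asIdeal := by
    rw [hP]
    exact q10_mem hp hI W hpW
  have hl : W.asIdeal.LiesOver P.asIdeal := ⟨hu.symm⟩
  have hl' : W.asIdeal.LiesOver w.asIdeal := ⟨hwW⟩
  have e2 : W.asIdeal.ramificationIdx ℤ = P.asIdeal.ramificationIdx ℤ * W.asIdeal.ramificationIdx (𝓞 F) :=
    Ideal.ramificationIdx_tower P.asIdeal W.asIdeal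
  have e3 : W.asIdeal.ramificationIdx ℤ = w.asIdeal.ramificationIdx ℤ * W.asIdeal.ramificationIdx (𝓞 K) :=
    Ideal.ramificationIdx_tower w.asIdeal W.asIdeal
  rw [hPe, e1, e3, mul_one] at e2
  refine ⟨Nat.eq_one_of_mul_eq_one_right e2, ?_⟩
  have n1 := Ideal.relNorm_eq_pow_of_isMaximal W.asIdeal P.asIdeal
  have n2 : Ideal.absNorm W.asIdeal = p ^ 2 := by
    rw [← Ideal.absNorm_relNorm (𝓞 F), n1, f1, pow_one, hP, Ideal.absNorm_span_natCast, RingOfIntegers.rank F, IQ.deg]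
  have n3 := Ideal.relNorm_eq_pow_of_isMaximal W.asIdeal w.asIdeal
  have n4 : Ideal.absNorm W.asIdeal = Ideal.absNorm w.asIdeal ^ W.asIdeal.inertiaDeg (𝓞 K) := by
    rw [← Ideal.absNorm_relNorm (𝓞 K), n3, map_pow]
  have h4 : W.asIdeal.inertiaDeg (𝓞 K) ≠ 0 := by
    intro h5
    rw [n4, h5, pow_zero] at n2
    have := Nat.one_lt_pow two_ne_zero hp.one_lt
    omega
  rw [← n2, n4]
  exact dvd_pow_self _ h4

end split

section ex

variable {F : Type} [Field F] [NumberField F] [IQ F] {W : WeierstrassCurve ℤ} {Om : ℂ}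
    {m : Ideal (𝓞 F)} {ψ : Ideal (𝓞 F) →*₀ 𝓞 F} {p : ℕ}

/-- Bad reduction at the primes dividing the discriminant. -/
theorem x1_bad (hH : BaseH F (W⁄(𝓞 F)) Om m ψ) (hp : PrimeH F (W⁄(𝓞 F)) p)
    {K N : Type} [Field K] [NumberField K] [Field N] [NumberField N] [Algebra F N] [Algebra K N]
    (hG : IsGalois F N) {k : ℕ} (hk : Module.finrank F N = p ^ k) (ιM : K →ₐ[ℚ] AlgebraicClosure F) :
    H13R.BadM (W⁄(𝓞 F)) (KG F K ιM) := by
  have hQK : Algebra.IsAlgebraic K N := by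
    have := Algebra.IsAlgebraic.of_finite ℚ N
    exact Algebra.IsAlgebraic.tower_top (K := ℚ) K
  let _ : Algebra K (AlgebraicClosure F) := ιM.toRingHom.toAlgebra
  let j : N →ₐ[K] AlgebraicClosure F := IsAlgClosed.lift
  let ι : N →ₐ[ℚ] AlgebraicClosure F := j.toRingHom.toRatAlgHom
  have hj : ∀ x : K, ι (algebraMap K N x) = ιM x := fun x => j.commutes x
  have hL := x1_pext hp.prime N hG hk ι
  have hbn : NumberField (⊥ : IntermediateField F (AlgebraicClosure F)) := H16C.FR_numberField _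
  have hle : KG F K ιM ≤ KG F N ι := by
    unfold KG
    rw [IntermediateField.adjoin_le_iff]
    rintro _ ⟨x, rfl⟩
    rw [← hj]
    exact IntermediateField.subset_adjoin F _ ⟨_, rfl⟩
  intro w hw
  exact H13R.bad_KR hH hp hL bot_le hle (H13R.bad_bot hH) w ((H13R.h1_pos hH w).1 hw)

theorem x1_sub {W₀ : WeierstrassCurve (𝓞 F)} {K : Type} [Field K] [NumberField K] (h : InPF W₀ p K) : SubUF F p K := by
  obtain ⟨L, i1, i2, i3, i4, h1, h2, h3, -⟩ := h
  exact ⟨L, i1, i2, i3, i4, h1, h2, h3⟩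

/-- The base conditions for the subfields of a field of the class in which p splits. -/
theorem x1_base (hH : BaseH F (W⁄(𝓞 F)) Om m ψ) (hp : PrimeH F (W⁄(𝓞 F)) p) (hI : H19A.InertQ F p) (hA : AnUnitG p W ℚ)
    {K N : Type} [Field K] [NumberField K] [Field N] [NumberField N] [Algebra F N] [Algebra K N]
    (hE : ExtG (Gx (W⁄(𝓞 F)) p) p N) (hS : Spl F p N) (ιM : K →ₐ[ℚ] AlgebraicClosure F) : H19A.Base F p W K ιM := by
  have hInP : InPF (W⁄(𝓞 F)) p K := (inPF_iff hp.prime hp.unr K).2 ⟨N, inferInstance, inferInstance, inferInstance, inferInstance, hE⟩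
  obtain ⟨hcrit, hbsd, -⟩ := main_Q hH hp K (x1_sub hInP)
  obtain ⟨hG, ⟨k, hk⟩, -⟩ := hE
  exact ⟨x1_split hp.prime hI hp.unr hS, x1_bad hH hp hG hk ιM, hbsd (hcrit.2 ⟨hA, hInP⟩)⟩

theorem x1_exist (hH : BaseH F (W⁄(𝓞 F)) Om m ψ) (hp : PrimeH F (W⁄(𝓞 F)) p) (hI : H19A.InertQ F p) (hA : AnUnitG p W ℚ) :
    H19A.Exist F p W := by
  intro H _ _ k hk
  obtain ⟨M, i1, i2, i3, hB, hS, φ, hφ⟩ := emb_split hH hp H k hk 0
  exact ⟨M, i1, i2, i3, hB.1.1, hB.1.2.1, ⟨φ, hφ⟩, fun ιM => x1_base hH hp hI hA (K := M) (N := M) hB.1 hS ιM⟩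

theorem x1_real (hH : BaseH F (W⁄(𝓞 F)) Om m ψ) (hp : PrimeH F (W⁄(𝓞 F)) p) (hI : H19A.InertQ F p) (hA : AnUnitG p W ℚ) :
    H19A.ExistReal F p W := by
  intro H _ _ k hk
  obtain ⟨M, i1, i2, hr, N, j1, j2, j3, j4, hd, hG, hE, hS, hQ⟩ := real_split hH hp H k hk
  exact ⟨M, i1, i2, hr, fun ιM => x1_base hH hp hI hA (K := M) (N := N) hE hS ιM, N, j1, j2, j3, j4, hd, hG, hE.2.1, hQ⟩

end ex

section iso

open H28I

variable {F : Type} [Field F] [NumberField F] [IQ F] {W W' : WeierstrassCurve ℤ} {Om : ℂ} {m : Ideal (𝓞 F)}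
    {ψ : Ideal (𝓞 F) →*₀ 𝓞 F} {kap : ℤ} {e t u lam : ℚ} {p : ℕ}

/-- The same for the isogenous curve. -/
theorem x1_base_iso (h : TW F W W' Om m ψ kap e t u lam) (hp' : PrimeH F (W'⁄(𝓞 F)) p) (hI : H19A.InertQ F p) (hA : AnUnitG p W' ℚ)
    {K N : Type} [Field K] [NumberField K] [Field N] [NumberField N] [Algebra F N] [Algebra K N]
    (hE : ExtG (Gx (W⁄(𝓞 F)) p) p N) (hS : Spl F p N) (ιM : K →ₐ[ℚ] AlgebraicClosure F) : H19A.Base F p W' K ιM := by
  have hp := (tw_prime h).1 hp'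
  have hInP : InPF (W⁄(𝓞 F)) p K := (inPF_iff hp.prime hp.unr K).2 ⟨N, inferInstance, inferInstance, inferInstance, inferInstance, hE⟩
  obtain ⟨-, hcrit, hbsd, -⟩ := main_iso h hp' K (x1_sub hInP)
  obtain ⟨hG, ⟨k, hk⟩, -⟩ := hE
  exact ⟨x1_split hp.prime hI hp.unr hS, (H13R.i1_bad h _).2 (x1_bad h.base hp hG hk ιM), hbsd (hcrit.2 ⟨hA, (tw_inPF h K).2 hInP⟩)⟩

theorem x1_exist_iso (h : TW F W W' Om m ψ kap e t u lam) (hp' : PrimeH F (W'⁄(𝓞 F)) p) (hI : H19A.InertQ F p)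
    (hA : AnUnitG p W' ℚ) : H19A.Exist F p W' := by
  intro H _ _ k hk
  obtain ⟨M, i1, i2, i3, hB, hS, φ, hφ⟩ := emb_split h.base ((tw_prime h).1 hp') H k hk 0
  exact ⟨M, i1, i2, i3, hB.1.1, hB.1.2.1, ⟨φ, hφ⟩, fun ιM => x1_base_iso h hp' hI hA (K := M) (N := M) hB.1 hS ιM⟩

theorem x1_real_iso (h : TW F W W' Om m ψ kap e t u lam) (hp' : PrimeH F (W'⁄(𝓞 F)) p) (hI : H19A.InertQ F p)
    (hA : AnUnitG p W' ℚ) : H19A.ExistReal F p W' := by
  intro H _ _ k hk
  obtain ⟨M, i1, i2, hr, N, j1, j2, j3, j4, hd, hG, hE, hS, hQ⟩ := real_split h.base ((tw_prime h).1 hp') H k hk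
  exact ⟨M, i1, i2, hr, fun ιM => x1_base_iso h hp' hI hA (K := M) (N := N) hE hS ιM, N, j1, j2, j3, j4, hd, hG, hE.2.1, hQ⟩

end iso

/-- Existence of the layers. -/
theorem x1_layer {p : ℕ} (hp : p.Prime) (h2 : p ≠ 2) : H19A.LayerEx p := by
  intro M _ _ hS n
  have : Fact p.Prime := ⟨hp⟩
  have hU := q10_unr hp fun w hw => (hS w hw).1
  obtain ⟨K, hK⟩ := q7_ex (p := p) h2 n M
  exact ⟨K, inferInstance, inferInstance, inferInstance, (layer_disc h2 hU hK).1, ⟨K.val⟩⟩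

end H55Z
end

-- from Lib.H55Y.Y6
section

/-! # H55Y: the final theorem for the curves with complex multiplication by any order -/

open NumberField IsDedekindDomain WeierstrassCurve H55P H55K.TQ

namespace H55Y

open H28I (TW)

/-- The conclusions over K. -/
structure OverK (F : Type) [Field F] [NumberField F] (p : ℕ) (W : WeierstrassCurve ℤ) (K : Type) [Field K] [NumberField K] :
    Prop where
  int : AnIntG p W K
  crit : AnUnitG p W K ↔ AnUnitG p W ℚ ∧ InPF (W⁄(𝓞 F)) p K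
  bsd : AnUnitG p W K → BSDPG p W K
  non : ¬ InPF (W⁄(𝓞 F)) p K → AnNonG p W K ∧ H13Z.SelNonT (W⁄K) p

structure AtP (F : Type) [Field F] [NumberField F] [IQ F] (p : ℕ) (W : WeierstrassCurve ℤ) : Prop where
  res : ∀ (K : Type) [Field K] [NumberField K], SubUF F p K → OverK F p W K
  rich : H28T.Rich (W⁄(𝓞 F)) p
  real : ∀ (H : Type) [Group H] [Finite H] (k : ℕ), Nat.card H = p ^ k → H28T.RealG (W⁄(𝓞 F)) p H

/-- A prime number dividing the discriminant of W divides the discriminant of W'. -/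
theorem y6_dvd {F : Type} [Field F] [NumberField F] [IQ F] {W W' : WeierstrassCurve ℤ} {Om : ℂ} {m : Ideal (𝓞 F)}
    {ψ : Ideal (𝓞 F) →*₀ 𝓞 F} {kap : ℤ} {e t u lam : ℚ} (h : TW F W W' Om m ψ kap e t u lam) {p : ℕ} (hp : p.Prime)
    (hd : (p : ℤ) ∣ W.Δ) : (p : ℤ) ∣ W'.Δ := by
  obtain ⟨π, hπ, hπp⟩ := H55K.S.exists_prime_above (F := F) hp
  have hpr : (Ideal.span {π}).IsPrime := (Ideal.span_singleton_prime hπ.ne_zero).2 hπ
  have hne : Ideal.span {π} ≠ ⊥ := fun h0 => hπ.ne_zero (Ideal.span_singleton_eq_bot.1 h0)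
  let v : HeightOneSpectrum (𝓞 F) := ⟨Ideal.span {π}, hpr, hne⟩
  have hv : (p : 𝓞 F) ∈ v.asIdeal := Ideal.mem_span_singleton.2 hπp
  have e1 : ∀ W : WeierstrassCurve ℤ, (W⁄(𝓞 F)).Δ = ((W.Δ : ℤ) : 𝓞 F) := fun W =>
    (W.map_Δ (algebraMap ℤ (𝓞 F))).trans (by simp)
  have h1 := (H28I.tw_supp h v).2
  rw [e1, e1, H13D.m5_int hp hv, H13D.m5_int hp hv] at h1
  exact h1 hd


end H55Y
end

-- from Lib.H55Z.Q8
section

/-! # H55Z, part Q: the layer over KG -/

open NumberField IsDedekindDomain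

namespace H55Z

open H55P (IQ)
open H55K.TQ

variable {p : ℕ} [hp : Fact p.Prime] {n : ℕ} {F : Type} [Field F] [NumberField F] [IQ F] {M K : Type} [Field M] [NumberField M]
  [Field K] [NumberField K] [Algebra M K]

theorem q8_le (ιM : M →ₐ[ℚ] AlgebraicClosure F) (ιK : K →ₐ[ℚ] AlgebraicClosure F) (hι : ∀ x : M, ιK (algebraMap M K x) = ιM x) :
    KG F M ιM ≤ KG F K ιK := by
  unfold KG
  rw [IntermediateField.adjoin_le_iff]
  rintro _ ⟨x, rfl⟩
  exact IntermediateField.subset_adjoin F _ ⟨algebraMap M K x, hι x⟩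

/-- An embedding of K which extends a given embedding of M. -/
theorem q8_ext (ιM : M →ₐ[ℚ] AlgebraicClosure F) : ∃ ιK : K →ₐ[ℚ] AlgebraicClosure F, ∀ x : M, ιK (algebraMap M K x) = ιM x := by
  let _ : Algebra M (AlgebraicClosure F) := ιM.toRingHom.toAlgebra
  have h1 : Algebra.IsAlgebraic M K := inferInstance
  let g : K →ₐ[M] AlgebraicClosure F := IsAlgClosed.lift
  exact ⟨g.toRingHom.toRatAlgHom, fun x => g.commutes x⟩

theorem q8_layer (h : Layer p n M K) (ιM : M →ₐ[ℚ] AlgebraicClosure F) (ιK : K →ₐ[ℚ] AlgebraicClosure F)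
    (hι : ∀ x : M, ιK (algebraMap M K x) = ιM x) (hle : KG F M ιM ≤ KG F K ιK) :
    letI : Algebra (KG F M ιM) (KG F K ιK) := (IntermediateField.inclusion hle).toRingHom.toAlgebra
    Layer p n (KG F M ιM) (KG F K ιK) := by
  letI i : Algebra (KG F M ιM) (KG F K ιK) := (IntermediateField.inclusion hle).toRingHom.toAlgebra
  obtain ⟨Q, hQ, ⟨f⟩, htop⟩ := h
  let κ : K →ₐ[ℚ] KG F K ιK := (KGmap F K ιK).toRatAlgHom
  let e : Q ≃ₐ[ℚ] Q.map κ := Q.equivMap κ
  refine ⟨Q.map κ, ?_, ⟨f.comp (e.symm : Q.map κ →ₐ[ℚ] Q)⟩, ?_⟩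
  · rw [← hQ]
    exact e.toLinearEquiv.finrank_eq.symm
  · have hK : ∀ x : K, κ x ∈ Algebra.adjoin (KG F M ιM) ((Q.map κ : IntermediateField ℚ (KG F K ιK)) : Set (KG F K ιK)) := by
      intro x
      have h4 : x ∈ Algebra.adjoin M (Q : Set K) := htop ▸ Algebra.mem_top
      refine Algebra.adjoin_induction (p := fun x _ => κ x ∈ Algebra.adjoin (KG F M ιM)
        ((Q.map κ : IntermediateField ℚ (KG F K ιK)) : Set (KG F K ιK))) ?_ ?_ ?_ ?_ h4
      · intro y hy
        exact Algebra.subset_adjoin ⟨y, hy, rfl⟩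
      · intro r
        have h5 : κ (algebraMap M K r) = algebraMap (KG F M ιM) (KG F K ιK) (KGmap F M ιM r) := by
          apply Subtype.ext
          exact hι r
        rw [h5]
        exact Subalgebra.algebraMap_mem _ _
      · intro a b _ _ ha hb
        rw [map_add]
        exact add_mem ha hb
      · intro a b _ _ ha hb
        rw [map_mul]
        exact mul_mem ha hb
    rw [eq_top_iff]
    rintro ⟨z, hz⟩ -
    have h1 : (KG F K ιK).toSubalgebra = Algebra.adjoin F (Set.range ιK) :=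
      IntermediateField.adjoin_toSubalgebra_of_isAlgebraic fun y _ => Algebra.IsAlgebraic.isAlgebraic y
    have hz' : z ∈ Algebra.adjoin F (Set.range ιK) := by
      rw [← h1]
      exact hz
    have hmem : ∀ a, a ∈ Algebra.adjoin F (Set.range ιK) → a ∈ KG F K ιK := by
      intro a ha
      have h3 : a ∈ (KG F K ιK).toSubalgebra := h1 ▸ ha
      exact h3
    refine Algebra.adjoin_induction (p := fun z _ => ∀ hz : z ∈ KG F K ιK,
      (⟨z, hz⟩ : KG F K ιK) ∈ Algebra.adjoin (KG F M ιM) ((Q.map κ : IntermediateField ℚ (KG F K ιK)) : Set (KG F K ιK)))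
      ?_ ?_ ?_ ?_ hz' hz
    · rintro _ ⟨x, rfl⟩ hx
      exact hK x
    · intro r hr
      have h5 : (⟨algebraMap F (AlgebraicClosure F) r, hr⟩ : KG F K ιK) =
          algebraMap (KG F M ιM) (KG F K ιK) (algebraMap F (KG F M ιM) r) := by
        apply Subtype.ext
        rfl
      rw [h5]
      exact Subalgebra.algebraMap_mem _ _
    · intro a b ha hb iha ihb hab
      exact add_mem (iha (hmem a ha)) (ihb (hmem b hb))
    · intro a b ha hb iha ihb hab
      exact mul_mem (iha (hmem a ha)) (ihb (hmem b hb))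

end H55Z
end

-- from Lib.H55Z.Q9
section

/-! # H55Z, part Q: the analytic part over the layers -/

open NumberField IsDedekindDomain WeierstrassCurve

namespace H55Z

open H55P (IQ UnitP UnrP PExt)
open H55K H55K.TQ

variable {p : ℕ} [hpf : Fact p.Prime] {n : ℕ} {F : Type} [Field F] [NumberField F] [IQ F]

/-- The layer over KG is a Galois p-extension. -/
theorem q9_pext {M' K' : IntermediateField F (AlgebraicClosure F)} [NumberField M'] [NumberField K'] (hle : M' ≤ K')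
    (hn : letI : Algebra M' K' := (IntermediateField.inclusion hle).toRingHom.toAlgebra; Module.finrank M' K' = p ^ n)
    (h : letI : Algebra M' K' := (IntermediateField.inclusion hle).toRingHom.toAlgebra; Layer p n M' K') : PExt p M' K' := by
  letI i : Algebra M' K' := (IntermediateField.inclusion hle).toRingHom.toAlgebra
  have hab := q2_ab h
  have hG : IsGalois M' K' := hab.toIsGalois
  have hst : IsScalarTower F M' K' := IsScalarTower.of_algebraMap_eq fun x => rfl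
  have hst2 : IsScalarTower M' K' (AlgebraicClosure F) := IsScalarTower.of_algebraMap_eq fun x => rfl
  have hfd : FiniteDimensional F K' := Module.Finite.of_restrictScalars_finite ℚ F K'
  refine ⟨hfd, hle, fun s hs x hx => ?_, n, ?_⟩
  · let s' : AlgebraicClosure F ≃ₐ[M'] AlgebraicClosure F := IntermediateField.fixingSubgroupEquiv M' ⟨s, hs⟩
    have h1 := AlgHom.restrictNormal_commutes (s' : AlgebraicClosure F →ₐ[M'] AlgebraicClosure F) K' ⟨x, hx⟩
    have h2 : s x = ((s' : AlgebraicClosure F →ₐ[M'] AlgebraicClosure F).restrictNormal K' ⟨x, hx⟩ : K') := h1.symm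
    rw [h2]
    exact SetLike.coe_mem _
  · rw [← hn]
    exact (Module.finrank_mul_finrank F M' K').symm

theorem q9_conj {x : ℂ} {a b : ℕ} (hx0 : x ≠ 0)
    (h : ∀ V : ValuationSubring ℂ, V.valuation (p : ℂ) < 1 → V.valuation x ^ 2 * V.valuation (p : ℂ) ^ a = V.valuation (p : ℂ) ^ b)
    (V : ValuationSubring ℂ) (hV : V.valuation (p : ℂ) < 1) :
    V.valuation ((starRingEnd ℂ) x) ^ 2 * V.valuation (p : ℂ) ^ a = V.valuation (p : ℂ) ^ b := by
  have hp0 : (p : ℂ) ≠ 0 := Nat.cast_ne_zero.2 hpf.out.ne_zero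
  have h1 : UnitP p (x ^ 2 * (p : ℂ) ^ a / (p : ℂ) ^ b) := by
    intro A hA
    have hA0 : A.valuation (p : ℂ) ≠ 0 := (Valuation.ne_zero_iff _).2 hp0
    rw [map_div₀, map_mul, map_pow, map_pow, map_pow, h A hA]
    exact div_self (pow_ne_zero _ hA0)
  have h2 := H55P.pz6_conj hpf.out (div_ne_zero (mul_ne_zero (pow_ne_zero 2 hx0) (pow_ne_zero a hp0)) (pow_ne_zero b hp0)) h1 V hV
  rw [map_div₀, map_mul, map_pow, map_pow, map_pow, map_natCast, map_div₀, map_mul, map_pow, map_pow, map_pow] at h2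
  have hV0 : V.valuation (p : ℂ) ≠ 0 := (Valuation.ne_zero_iff _).2 hp0
  exact (div_eq_one_iff_eq (pow_ne_zero _ hV0)).1 h2

theorem q9_val {Γ : Type} [LinearOrderedCommGroupWithZero Γ] {x y P D r : Γ} {a b : ℕ} (hP : P ≠ 0) (hx : x ^ 2 * P ^ a = P ^ b)
    (hy : y ^ 2 * P ^ a = P ^ b) (hD : D ^ 2 = P ^ (a + a)) (hr : r = x * y * D) : r = P ^ b := by
  have h1 : r ^ 2 = (P ^ b) ^ 2 := by
    calc r ^ 2 = (x ^ 2 * P ^ a) * (y ^ 2 * P ^ a) := by
          rw [hr, mul_pow, mul_pow, hD, pow_add]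
          exact mul_mul_mul_comm _ _ _ _
      _ = (P ^ b) ^ 2 := by rw [hx, hy, sq]
  exact (pow_left_inj₀ zero_le zero_le two_ne_zero).1 h1

theorem q9_val2 {Γ : Type} [LinearOrderedCommGroupWithZero Γ] {x P D r : Γ} {a b : ℕ} (hx : x ^ 2 * P ^ a = P ^ (2 * b))
    (hD : D ^ 2 = P ^ a) (hr : r = x * D) : r = P ^ b := by
  have h1 : r ^ 2 = (P ^ b) ^ 2 := by
    rw [hr, mul_pow, hD, hx, ← pow_mul, mul_comm]
  exact (pow_left_inj₀ zero_le zero_le two_ne_zero).1 h1

variable {W : WeierstrassCurve ℤ} {Om : ℂ} {m : Ideal (𝓞 F)} {ψ : Ideal (𝓞 F) →*₀ 𝓞 F} {M K : Type} [Field M] [NumberField M]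
  [Field K] [NumberField K] [Algebra M K]


end H55Z
end

-- from Lib.SSG.Z.L10
section

/-! Chunk L10 (M). The fixing group of a layer. H55Z.Layer p n M K: K = M Q, Q a subfield of K of degree p^n over ℚ with an embedding f : Q → CyclotomicField (p^(n+1)) ℚ. Gc p n s: the exponent a of s on the p^(n+1)-th roots of unity satisfies a^(p-1) = 1 mod p^(n+1).
PROOF. s fixes K iff s fixes M and Q (Algebra.adjoin M Q = ⊤: adjoin induction; conversely clear). Let ζ be a primitive p^(n+1)-th root of unity in Ω, C = ℚ(ζ) (IntermediateField.adjoin ℚ {ζ} in Ω; cyclotomic, Galois over ℚ with cyclic group (ZMod (p^(n+1)))ˣ of order p^n (p-1), p odd). The image Q' of Q in Ω is contained in C: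
f and C ≅ CyclotomicField give an embedding of Q in Ω with image in C, and Q is normal over ℚ (H55Z.p3_gal f), so the image of the inclusion is the same (AlgHom.fieldRange_of_normal; see H55Z.q1_mem in Q1.lean for exactly this: algebraMap N L x ∈ Algebra.adjoin ℚ {ζ}; it can be applied with L = a number field in Ω containing K and ζ).
s ζ = ζ^a with a prime to p; s restricted to C is σ_a. Gal(C/Q') has order (p-1) (degree p^n (p-1) over ℚ, degree p^n of Q'), in the cyclic group of order p^n (p-1) it is the set of the x with x^(p-1) = 1 (a cyclic group has exactly (p-1) elements x with x^(p-1) = 1 since (p-1) divides the order: IsCyclic.card_pow_eq_one_eq_gcd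
or IsCyclic.card_powMonoidHom_ker; inclusion by Lagrange, equality by cardinality). So s fixes Q' iff σ_a in Gal(C/Q') iff a^(p-1) = 1 mod p^(n+1) (H55Z.q2_order, Q2.lean, with K = ℚ or M may give this at once: (restriction of σ to N)^k = 1 iff q^(k (p-1)) = 1; take k = 1).
∀ z with z^(p^(n+1)) = 1: z is a power of ζ, so s z = z^a. In the direction from Gc: the a of Gc agrees with the exponent modulo p^(n+1). -/

open NumberField IsDedekindDomain WeierstrassCurve

namespace SSG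

open H55P (IQ)

/-- The ranges of two embeddings of a normal field agree. -/
theorem l10_range {k Q Ω : Type} [Field k] [Field Q] [Field Ω] [Algebra k Q] [Algebra k Ω] (hn : Normal k Q) (g h : Q →ₐ[k] Ω) :
    ∀ x : Q, ∃ y : Q, g y = h x := by
  let eh : Q ≃ₐ[k] h.fieldRange := AlgEquiv.ofInjectiveField h
  have hn' : Normal k h.fieldRange := Normal.of_algEquiv eh
  have h2 := AlgHom.fieldRange_of_normal (E := h.fieldRange) (g.comp (eh.symm : h.fieldRange →ₐ[k] Q))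
  intro x
  have h3 : h x ∈ h.fieldRange := ⟨x, rfl⟩
  rw [← h2] at h3
  obtain ⟨y, hy⟩ := h3
  exact ⟨eh.symm y, hy⟩

/-- The automorphisms fixing a subfield of degree p^n of the cyclotomic field. -/
theorem l10_fix {p : ℕ} [Fact p.Prime] {n : ℕ} {Q Ω : Type} [Field Q] [NumberField Q] [Field Ω] [CharZero Ω] [Algebra ℚ Ω] [IsAlgClosed Ω]
    (hQ : Module.finrank ℚ Q = p ^ n) (f : Q →ₐ[ℚ] CyclotomicField (p ^ (n + 1)) ℚ) (g : Q →ₐ[ℚ] Ω) (s : Ω ≃ₐ[ℚ] Ω) :
    (∀ x, s (g x) = g x) ↔ ∃ a : ℕ, a ^ (p - 1) ≡ 1 [MOD p ^ (n + 1)] ∧ ∀ z : Ω, z ^ p ^ (n + 1) = 1 → s z = z ^ a := by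
  have := H55Z.p3_ne (p := p) n
  have hcyc := H55Z.p3_cyc (p := p) n
  have hab := H55Z.p3_gal f
  have hGQ : IsGalois ℚ Q := hab.toIsGalois
  obtain ⟨C, i1, i2, hC, ⟨f⟩⟩ : ∃ (C : Type) (_ : Field C) (_ : NumberField C), IsCyclotomicExtension {p ^ (n + 1)} ℚ C ∧ Nonempty (Q →ₐ[ℚ] C) :=
    ⟨CyclotomicField (p ^ (n + 1)) ℚ, inferInstance, inferInstance, hcyc, ⟨f⟩⟩
  have hGC : IsGalois ℚ C := IsCyclotomicExtension.isGalois {p ^ (n + 1)} ℚ C
  have halg : Algebra.IsAlgebraic ℚ C := Algebra.IsAlgebraic.of_finite ℚ C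
  let c : C →ₐ[ℚ] Ω := IsAlgClosed.lift
  let _ : Algebra C Ω := c.toRingHom.toAlgebra
  have hto : IsScalarTower ℚ C Ω := IsScalarTower.of_algebraMap_eq fun x => (c.commutes x).symm
  let _ : Algebra Q C := f.toRingHom.toAlgebra
  have hto' : IsScalarTower ℚ Q C := IsScalarTower.of_algebraMap_eq fun x => (f.commutes x).symm
  let σ : Gal(C/ℚ) := s.restrictNormal C
  have hσ : ∀ y : C, c (σ y) = s (c y) := fun y => AlgEquiv.restrictNormal_commutes s C y
  obtain ⟨ζ, hζ⟩ : ∃ ζ : C, IsPrimitiveRoot ζ (p ^ (n + 1)) := ⟨_, IsCyclotomicExtension.zeta_spec (p ^ (n + 1)) ℚ C⟩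
  have hζΩ : IsPrimitiveRoot (c ζ) (p ^ (n + 1)) := hζ.map_of_injective c.injective
  have h1 : (∀ x, s (g x) = g x) ↔ AlgEquiv.restrictNormalHom Q σ ^ 1 = 1 := by
    have h2 : (∀ x, s (g x) = g x) ↔ ∀ x, s (c (f x)) = c (f x) := by
      constructor
      · intro h x
        obtain ⟨y, hy⟩ := l10_range hGQ.to_normal g (c.comp f) x
        have hy' : g y = c (f x) := hy
        rw [← hy', h]
      · intro h x
        obtain ⟨y, hy⟩ := l10_range hGQ.to_normal (c.comp f) g x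
        have hy' : c (f y) = g x := hy
        rw [← hy', h]
    rw [h2, pow_one]
    constructor
    · intro h
      apply AlgEquiv.ext
      intro x
      have h3 := AlgEquiv.restrictNormal_commutes σ Q x
      have h4 : f ((AlgEquiv.restrictNormalHom Q σ) x) = σ (f x) := h3
      have h5 : c (σ (f x)) = c (f x) := by rw [hσ, h]
      exact f.injective (h4.trans (c.injective h5))
    · intro h x
      have h3 := AlgEquiv.restrictNormal_commutes σ Q x
      have h4 : f ((AlgEquiv.restrictNormalHom Q σ) x) = σ (f x) := h3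
      rw [h] at h4
      rw [← hσ, ← h4]
      rfl
  have key : ∀ a : ℕ, s (c ζ) = (c ζ) ^ a → ((∀ x, s (g x) = g x) ↔ a ^ (p - 1) ≡ 1 [MOD p ^ (n + 1)]) := by
    intro a ha
    have h2 : σ ζ = ζ ^ a := by
      have h5 : c (σ ζ) = c (ζ ^ a) := by rw [hσ, ha, map_pow]
      exact c.injective h5
    rw [h1, H55Z.q2_order hQ hGQ hζ σ h2 1, one_mul, ← ZMod.natCast_eq_natCast_iff, Nat.cast_pow, Nat.cast_one]
  constructor
  · intro h
    have h3 : (s (c ζ)) ^ p ^ (n + 1) = 1 := by rw [← map_pow, hζΩ.pow_eq_one, map_one]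
    obtain ⟨a, -, ha⟩ := hζΩ.eq_pow_of_pow_eq_one h3
    refine ⟨a, (key a ha.symm).1 h, fun z hz => ?_⟩
    obtain ⟨i, -, rfl⟩ := hζΩ.eq_pow_of_pow_eq_one hz
    rw [map_pow, ← ha, ← pow_mul, ← pow_mul, mul_comm]
  · rintro ⟨a, ha, h⟩
    exact (key a (h _ hζΩ.pow_eq_one)).2 ha

theorem layer_fix {p : ℕ} [Fact p.Prime] (h2 : p ≠ 2) {n : ℕ} {F : Type} [Field F] [NumberField F] [IQ F]
    (M K : IntermediateField F (AlgebraicClosure F)) [NumberField M] [NumberField K] (hle : M ≤ K)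
    (h : letI : Algebra M K := (IntermediateField.inclusion hle).toRingHom.toAlgebra
      H55Z.Layer p n M K) (s : AlgebraicClosure F ≃ₐ[F] AlgebraicClosure F) :
    s ∈ K.fixingSubgroup ↔ s ∈ M.fixingSubgroup ∧ H35L.Gc p n s := by
  let _ : Algebra M K := (IntermediateField.inclusion hle).toRingHom.toAlgebra
  obtain ⟨Q, hQ, ⟨f⟩, htop⟩ := h
  have hQF := H55K.TQ.tower_QFF F
  let g : Q →ₐ[ℚ] AlgebraicClosure F := ((algebraMap K (AlgebraicClosure F)).comp (algebraMap Q K)).toRatAlgHom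
  have h1 := l10_fix hQ f g (s.restrictScalars ℚ)
  rw [IntermediateField.mem_fixingSubgroup_iff, IntermediateField.mem_fixingSubgroup_iff]
  constructor
  · intro h
    exact ⟨fun x hx => h x (hle hx), h1.1 fun x => h _ (x : K).2⟩
  · rintro ⟨h2, h3⟩ x hx
    have h4 := h1.2 h3
    have h5 : (⟨x, hx⟩ : K) ∈ Algebra.adjoin M (Q : Set K) := htop ▸ Algebra.mem_top
    refine Algebra.adjoin_induction (p := fun (y : K) _ => s (y : AlgebraicClosure F) = y) ?_ ?_ ?_ ?_ h5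
    · intro y hy
      exact h4 ⟨y, hy⟩
    · intro r
      exact h2 _ r.2
    · intro a b _ _ ha hb
      show s ((a : AlgebraicClosure F) + b) = (a : AlgebraicClosure F) + b
      rw [map_add, ha, hb]
    · intro a b _ _ ha hb
      show s ((a : AlgebraicClosure F) * b) = (a : AlgebraicClosure F) * b
      rw [map_mul, ha, hb]

end SSG
end

-- from Lib.SSG.Z.Fin
section

/-! # SSG/Z: the theorem for the maximal order and for isogenous curves, from the interfaces (AL) and (E) -/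

open NumberField IsDedekindDomain WeierstrassCurve

namespace SSG

open H55P (IQ embF eF LF Per IsHecke Pt ac Inert Dec Nm UnitP UnrP PExt)
open H35P (WAB Ker tt GoodW IntW)
open H55K H55K.TQ
open H55Z (Layer Spl ValK)




variable {F : Type} [Field F] [NumberField F] [IQ F] {W : WeierstrassCurve ℤ} {Om : ℂ} {m : Ideal (𝓞 F)}
    {ψ : Ideal (𝓞 F) →*₀ 𝓞 F} {p : ℕ}


variable {W' : WeierstrassCurve ℤ} {kap : ℤ} {e t u lam : ℚ}

theorem fin_ell {W : WeierstrassCurve ℤ} (hW : W.Δ ≠ 0) (K : Type) [Field K] [NumberField K] : (W⁄K).IsElliptic := by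
  rw [WeierstrassCurve.isElliptic_iff]
  have e : (W⁄K).Δ = algebraMap ℤ K W.Δ := W.map_Δ (algebraMap ℤ K)
  rw [e]
  refine IsUnit.mk0 _ ?_
  rw [eq_intCast]
  exact_mod_cast hW


end SSG
end

-- from Lib.SSG.Z.Z5
section

/-! # SSG/Z: the theorem for all orders of class number one, from the interfaces (AL) and (E) -/

open NumberField IsDedekindDomain WeierstrassCurve

namespace SSG

open H55P (IQ embF eF LF Per IsHecke Pt ac Inert Dec Nm UnitP UnrP PExt)
open H55K H55K.TQ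

/-- The conclusions for the prime p. -/
structure AtP (F : Type) [Field F] [NumberField F] [IQ F] (p : ℕ) (W : WeierstrassCurve ℤ) : Prop where
  tower : H19A.TowerThm F p W
  exist : AnUnitG p W ℚ → H19A.Exist F p W
  real : AnUnitG p W ℚ → H19A.ExistReal F p W




end SSG
end

-- from Lib.H55G.I4b
section

/-! # H55G, part I: good reduction descends, and OkM persists, in p-extensions -/

open NumberField IsDedekindDomain WeierstrassCurve

namespace H55G

open H55P (IQ embF eF LF Per IsHecke Pt ac Inert Dec Nm UnitP PExt Below)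
open H35P (WAB Ker tt GoodW IntW)
open H55K.MG (VC Crd)
open H55K H55K.TQ

variable {F : Type} [Field F] [NumberField F] [IQ F] {W₀ : WeierstrassCurve (𝓞 F)} {Om : ℂ}
    {m : Ideal (𝓞 F)} {ψ : Ideal (𝓞 F) →*₀ 𝓞 F} {p : ℕ}

/-- Chunk I4b (S). Local form of H13R.bad_KR: copy its proof (Lib/H13R/C3.lean) with core_good (E4.lean) in place of core_bad; v is given (hvw instead of c3_below). -/
theorem good_dn (hH : BaseH F W₀ Om m ψ) (hp : PrimeH F W₀ p) {M L K : IntermediateField F (AlgebraicClosure F)}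
    [NumberField M] [NumberField K] (hL : PExt p M L) (hMK : M ≤ K) (hKL : K ≤ L) {w : HeightOneSpectrum (𝓞 K)}
    {v : HeightOneSpectrum (𝓞 M)}
    (hvw : ∀ (a : 𝓞 M) (b : 𝓞 K), ((a : M) : AlgebraicClosure F) = ((b : K) : AlgebraicClosure F) → (a ∈ v.asIdeal ↔ b ∈ w.asIdeal))
    (hΔ : algebraMap (𝓞 F) (𝓞 K) W₀.Δ ∈ w.asIdeal) (hg : GoodAt ((W₀⁄F)⁄K) w) : GoodAt ((W₀⁄F)⁄M) v := by
  classical
  obtain ⟨V, hV⟩ := exists_V K w
  obtain ⟨j, hj⟩ := exists_j F (AlgebraicClosure F)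
  obtain ⟨A, hA⟩ : ∃ A : F, A = -(algebraMap (𝓞 F) F W₀.c₄) / 48 := ⟨_, rfl⟩
  obtain ⟨B, hB'⟩ : ∃ B : F, B = -(algebraMap (𝓞 F) F W₀.c₆) / 864 := ⟨_, rfl⟩
  have hd := y3_ne W₀ hA hB' hH.data.ell
  have hper : Per F (embF F A) (embF F B) Om := by
    have e1 : embF F A = -(eF F W₀.c₄) / 48 := by
      rw [hA, map_div₀, map_neg, map_ofNat]
      rfl
    have e2 : embF F B = -(eF F W₀.c₆) / 864 := by
      rw [hB', map_div₀, map_neg, map_ofNat]
      rfl
    rw [e1, e2]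
    exact hH.data.per
  obtain ⟨act, hact⟩ := exists_CMA F A B Om j hd hper hj
  have hv : ∀ a : 𝓞 M, a ∈ v.asIdeal → V.valuation ((a : M) : AlgebraicClosure F) < 1 := by
    intro a ha
    have h1 : ∃ b : 𝓞 K, ((a : M) : AlgebraicClosure F) = ((b : K) : AlgebraicClosure F) := by
      refine ⟨⟨⟨((a : M) : AlgebraicClosure F), hMK (a : M).2⟩, ?_⟩, rfl⟩
      have h2 : IsIntegral ℤ (a : M) := a.isIntegral_coe
      have h3 : IsIntegral ℤ ((IntermediateField.inclusion hMK) (a : M)) :=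
        h2.map ((IntermediateField.inclusion hMK).toRingHom.toIntAlgHom)
      exact h3
    obtain ⟨b, hb⟩ := h1
    rw [hb]
    exact hV b ((hvw a b hb).1 ha)
  have hΔv : algebraMap (𝓞 F) (𝓞 M) W₀.Δ ∈ v.asIdeal := (hvw _ (algebraMap (𝓞 F) (𝓞 K) W₀.Δ) rfl).2 hΔ
  have hVp : V.valuation (p : AlgebraicClosure F) = 1 := H13R.c3_vp hp hv hΔv
  have hGM := gmd_of_good W₀ hA hB' w hV hg
  have hΔA : (WAB A B).Δ ≠ 0 := by
    have e : (WAB A B).Δ = -16 * (4 * A ^ 3 + 27 * B ^ 2) := by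
      unfold WAB WeierstrassCurve.Δ WeierstrassCurve.b₂ WeierstrassCurve.b₄ WeierstrassCurve.b₆ WeierstrassCurve.b₈
      ring
    rw [e]
    exact mul_ne_zero (by norm_num) hd
  obtain ⟨k, hk⟩ := H55P.PExt.pow p hp.prime M L hL
  obtain ⟨T, hT, hT0⟩ := H13R.c3_point hact hp.prime
  refine core_good hH.data.ell (jint_of hH.data.per hH.data.ell) hp.prime hp.five ⟨hA, hB'⟩ M hv hVp hT hT0 ?_
  intro g hgM hgI
  refine fix_all hact hp.prime ((unr_iff hp.prime).1 hp.unr) g (k := k) ?_ T hT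
  intro P hP
  refine inert_triv hΔA hGM (g ^ (p ^ k)) ?_ ?_ p hVp P hP
  · intro x hx
    exact (IntermediateField.mem_fixingSubgroup_iff L _).1 (hk g hgM) x (hKL hx)
  · have h1 : g ∈ H55P.inS F V := hgI
    exact pow_mem h1 (p ^ k)

open Classical in
/-- Chunk I4b (S). Local form of H13R.bad_torsR: copy its proof with core_good in place of core_bad. -/
theorem bad_tors1 (hH : BaseH F W₀ Om m ψ) (hp : PrimeH F W₀ p) {M L K : IntermediateField F (AlgebraicClosure F)}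
    [NumberField M] (hL : PExt p M L) (hKL : K ≤ L) {V : ValuationSubring (AlgebraicClosure F)}
    {v : HeightOneSpectrum (𝓞 M)} (hb : ¬ GoodAt ((W₀⁄F)⁄M) v)
    (hv : ∀ a : 𝓞 M, a ∈ v.asIdeal → V.valuation ((a : M) : AlgebraicClosure F) < 1)
    (hΔ : algebraMap (𝓞 F) (𝓞 M) W₀.Δ ∈ v.asIdeal) (T : Pt (W₀⁄F) (AlgebraicClosure F)) (hT : p • T = 0)
    (hf : ∀ s ∈ K.fixingSubgroup, Inert V s → ac (W₀⁄F) s T = T) : T = 0 := by
  obtain ⟨A, hA⟩ : ∃ A : F, A = -(algebraMap (𝓞 F) F W₀.c₄) / 48 := ⟨_, rfl⟩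
  obtain ⟨B, hB'⟩ : ∃ B : F, B = -(algebraMap (𝓞 F) F W₀.c₆) / 864 := ⟨_, rfl⟩
  have hell := hH.data.ell
  have hd := y3_ne W₀ hA hB' hell
  obtain ⟨j, hj⟩ := exists_j F (AlgebraicClosure F)
  have hper : Per F (embF F A) (embF F B) Om := by
    have e1 : embF F A = -(eF F W₀.c₄) / 48 := by
      rw [hA, map_div₀, map_neg, map_ofNat]
      rfl
    have e2 : embF F B = -(eF F W₀.c₆) / 864 := by
      rw [hB', map_div₀, map_neg, map_ofNat]
      rfl
    rw [e1, e2]
    exact hH.data.per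
  obtain ⟨act, hC⟩ := exists_CMA F A B Om j hd hper hj
  have hjint := jint_of hH.data.per hell
  obtain ⟨Kg, u, hG⟩ := exists_gmod (Ω := AlgebraicClosure F) hd (y3_j W₀ hA hB' hjint) V
  have hunr := (unr_iff hp.prime).1 hp.unr
  have hVp : V.valuation (p : AlgebraicClosure F) = 1 := H13R.c3_vp hp hv hΔ
  have hΔA : (WAB A B).Δ ≠ 0 := by
    have e : (WAB A B).Δ = -16 * (4 * A ^ 3 + 27 * B ^ 2) := by
      unfold WAB WeierstrassCurve.Δ WeierstrassCurve.b₂ WeierstrassCurve.b₄ WeierstrassCurve.b₆ WeierstrassCurve.b₈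
      ring
    rw [e]
    exact mul_ne_zero (by norm_num) hd
  obtain ⟨r, s, t, hVC⟩ := vc_short W₀ hA hB'
  have hVC' := vc_map (algebraMap F (AlgebraicClosure F)) hVC
  have hΔ1 : ((WAB A B).map (algebraMap F (AlgebraicClosure F))).Δ ≠ 0 := by
    rw [WeierstrassCurve.map_Δ]
    exact (map_ne_zero _).2 hΔA
  have hΔ2 : ((W₀⁄F).map (algebraMap F (AlgebraicClosure F))).Δ ≠ 0 := by
    have e : (W₀⁄F).Δ = algebraMap (𝓞 F) F W₀.Δ := WeierstrassCurve.map_Δ _ _
    rw [WeierstrassCurve.map_Δ, e]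
    refine (map_ne_zero _).2 fun h1 => hell ?_
    exact (map_eq_zero_iff _ (FaithfulSMul.algebraMap_injective (𝓞 F) F)).1 h1
  obtain ⟨Θ, hΘ⟩ : ∃ Θ : Pt (WAB A B) (AlgebraicClosure F) ≃+ Pt (W₀⁄F) (AlgebraicClosure F),
      Crd (algebraMap F (AlgebraicClosure F) 1) (algebraMap F (AlgebraicClosure F) r)
        (algebraMap F (AlgebraicClosure F) s) (algebraMap F (AlgebraicClosure F) t) Θ := MG.vc_iso hVC' hΔ1 hΔ2
  have hcom : ∀ (g : AlgebraicClosure F ≃ₐ[F] AlgebraicClosure F) (P : Pt (WAB A B) (AlgebraicClosure F)),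
      ac (W₀⁄F) g (Θ P) = Θ (ac (WAB A B) g P) := by
    intro g P
    by_cases hP : P = 0
    · subst hP
      rw [map_zero, map_zero, map_zero, map_zero]
    · obtain ⟨a1, a2, a3⟩ := hΘ P hP
      obtain ⟨b1, b2, b3⟩ := MG.ac_crd (W := WAB A B) g P
      have hP' : ac (WAB A B) g P ≠ 0 := fun h => hP (b3.1 h)
      obtain ⟨c1, c2, c3⟩ := hΘ _ hP'
      obtain ⟨d1, d2, d3⟩ := MG.ac_crd (W := W₀⁄F) g (Θ P)
      have e2 := congrArg g a2
      have e3 := congrArg g a3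
      simp only [map_add, map_mul, map_pow, map_one, AlgEquiv.commutes, one_pow, one_mul, mul_one] at e2 e3 c2 c3
      have f2 : xc (ac (W₀⁄F) g (Θ P)) = xc (Θ (ac (WAB A B) g P)) := by
        rw [d1]
        linear_combination c2 - e2 - b1
      refine pt_ext (fun h => a1 (d3.1 h)) c1 f2 ?_
      rw [d2]
      rw [d1] at f2
      linear_combination c3 - e3 - b2 - (algebraMap F (AlgebraicClosure F) s) * f2
  by_contra h0
  obtain ⟨T', hT'⟩ := Θ.surjective T
  have hT0 : T' ≠ 0 := by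
    rintro rfl
    exact h0 (by rw [← hT', map_zero])
  have hTp : p • T' = 0 := by
    apply Θ.injective
    rw [map_nsmul, hT', hT, map_zero]
  obtain ⟨k, hk⟩ := H55P.PExt.pow p hp.prime M L hL
  refine hb (core_good hell hjint hp.prime hp.five ⟨hA, hB'⟩ M hv hVp hTp hT0 ?_)
  intro g hgM hg
  refine fix_all hC hp.prime hunr g (k := k) ?_ T' hTp
  intro P hP
  have hI : Inert V (g ^ (p ^ k)) := by
    have h1 : g ∈ H55P.inS F V := hg
    exact pow_mem h1 (p ^ k)
  refine fix_from_one hC hG hp.prime hp.five hVp (g ^ (p ^ k)) hI hTp hT0 ?_ P hP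
  apply Θ.injective
  rw [← hcom, hT']
  refine hf _ ?_ hI
  exact (IntermediateField.mem_fixingSubgroup_iff K _).2 fun x hx =>
    (IntermediateField.mem_fixingSubgroup_iff L _).1 (hk g hgM) x (hKL hx)

end H55G
end

-- from Lib.H55G.I4c
section

/-! # H55G, part I: OkM persists in p-extensions -/

open NumberField IsDedekindDomain WeierstrassCurve

namespace H55G

open H55P (IQ embF eF LF Per IsHecke Pt ac Inert Dec Nm UnitP PExt Below)
open H35P (WAB Ker tt GoodW IntW)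
open H55K.MG (VC Crd)
open H55K H55K.TQ

variable {F : Type} [Field F] [NumberField F] [IQ F] {W₀ : WeierstrassCurve (𝓞 F)} {Om : ℂ}
    {m : Ideal (𝓞 F)} {ψ : Ideal (𝓞 F) →*₀ 𝓞 F} {p : ℕ}

/-- Chunk I4c (M). w a prime of K with Δ in w and W₀ good at w; v the prime of M below w (H13R.c3_below hMK w); Δ in v; W₀ is good over M at v (good_dn), so p does not divide NW v (hOk). Suppose p ∣ NW w. Ω = AlgebraicClosure F, classical DecidableEq. A, B, j, act from setup; V above w: exists_abw for K (K0A.lean): Abw V w; then also Abw V v (Abw.below with Algebra M K from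
inclusion, or abw_of_below with Below V M v). C with GC ((W₀⁄F)⁄M) v C; exists_GD with vck_F for k = M: GD for W' = (C • ((W₀⁄F)⁄M))⁄Ω, u, r, s, t images of elements of M. g from exists_g for k = M, g' from exists_g for k = K; both fix M (K contains M; the image of x in M under M → K → Ω is its image), so they fix F, A, B and u, r, s, t. hK, hK' from acr_kg.
C' = C mapped to K (as in gc_up, E7.lean: C.map (algebraMap M K) with the algebra M → K by inclusion): GC ((W₀⁄F)⁄K) w C' and (C' • ((W₀⁄F)⁄K))⁄Ω = (C • ((W₀⁄F)⁄M))⁄Ω (map_variableChange, map_map). nw_dvd (I1a.lean) for K, w, g', C': a class c ≠ 0 with p • c = 0 and φ' c = c. g as an element of Ω ≃ₐ[F] Ω is in M.fixingSubgroup, so g^(p^k) is in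
L.fixingSubgroup (PExt.pow, S12.lean) and fixes K ≤ L: frob_pow (I4a.lean) with n = p^k: φ^(p^k) c = c. unip_fix (I1b.lean): c' ≠ 0, p • c' = 0, φ c' = c'. nw_dvd for M, v, g, C: p ∣ NW v, contradiction. -/
theorem ok_up (hH : BaseH F W₀ Om m ψ) (hp : PrimeH F W₀ p) {M L K : IntermediateField F (AlgebraicClosure F)}
    [NumberField M] [NumberField K] (hL : PExt p M L) (hMK : M ≤ K) (hKL : K ≤ L) (hOk : OkM p W₀ M) : OkM p W₀ K := by
  classical
  intro w hΔ hg hdvd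
  obtain ⟨v, hvw⟩ := H13R.c3_below hMK w
  have hΔv : algebraMap (𝓞 F) (𝓞 M) W₀.Δ ∈ v.asIdeal := (hvw _ (algebraMap (𝓞 F) (𝓞 K) W₀.Δ) rfl).2 hΔ
  have hgv := good_dn hH hp hL hMK hKL hvw hΔ hg
  refine hOk v hΔv hgv ?_
  obtain ⟨A, B, j, act, hS, hd, hC⟩ := setup hH (AlgebraicClosure F)
  obtain ⟨V, hV⟩ := exists_abw (AlgebraicClosure F) w
  have hVv : Abw (N := M) V v := by
    refine abw_of_below fun x => ?_
    have h1 : ∃ b : 𝓞 K, ((x : M) : AlgebraicClosure F) = ((b : K) : AlgebraicClosure F) := by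
      refine ⟨⟨⟨((x : M) : AlgebraicClosure F), hMK (x : M).2⟩, ?_⟩, rfl⟩
      have h2 : IsIntegral ℤ (x : M) := x.isIntegral_coe
      have h3 : IsIntegral ℤ ((IntermediateField.inclusion hMK) (x : M)) :=
        h2.map ((IntermediateField.inclusion hMK).toRingHom.toIntAlgHom)
      exact h3
    obtain ⟨b, hb⟩ := h1
    rw [hvw x b hb, hb, ← w.valuation_lt_one_iff_mem (K := K), ← hV.lt]
    rfl
  obtain ⟨C, hCv⟩ := (good_iff _ v).1 hgv
  obtain ⟨u, r, s, t, Θ, Kg, hG⟩ := exists_GD (k := M) hd hVv (vck_F hS) hCv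
  have halgM : Algebra.IsAlgebraic M (AlgebraicClosure F) := Algebra.IsAlgebraic.tower_top (K := F) M
  have halgK : Algebra.IsAlgebraic K (AlgebraicClosure F) := Algebra.IsAlgebraic.tower_top (K := F) K
  have hclM : IsAlgClosure M (AlgebraicClosure F) := ⟨inferInstance, inferInstance⟩
  have hclK : IsAlgClosure K (AlgebraicClosure F) := ⟨inferInstance, inferInstance⟩
  obtain ⟨g, hfr⟩ := exists_g (k := M) hVv
  obtain ⟨g', hfr'⟩ := exists_g (k := K) hV
  have hgF : ∀ x : F, g (algebraMap F (AlgebraicClosure F) x) = algebraMap F (AlgebraicClosure F) x := by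
    intro x
    rw [IsScalarTower.algebraMap_apply F M (AlgebraicClosure F)]
    exact hfr.fix _
  have hgF' : ∀ x : F, g' (algebraMap F (AlgebraicClosure F) x) = algebraMap F (AlgebraicClosure F) x := by
    intro x
    rw [IsScalarTower.algebraMap_apply F K (AlgebraicClosure F)]
    exact hfr'.fix _
  have hgM' : ∀ x : M, g' (algebraMap M (AlgebraicClosure F) x) = algebraMap M (AlgebraicClosure F) x := by
    intro x
    exact hfr'.fix (IntermediateField.inclusion hMK x)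
  have hgx : Fx g (algebraMap M (AlgebraicClosure F) u) (algebraMap M (AlgebraicClosure F) r)
      (algebraMap M (AlgebraicClosure F) s) (algebraMap M (AlgebraicClosure F) t) :=
    ⟨hfr.fix _, hfr.fix _, hfr.fix _, hfr.fix _⟩
  have hgx' : Fx g' (algebraMap M (AlgebraicClosure F) u) (algebraMap M (AlgebraicClosure F) r)
      (algebraMap M (AlgebraicClosure F) s) (algebraMap M (AlgebraicClosure F) t) :=
    ⟨hgM' _, hgM' _, hgM' _, hgM' _⟩
  have hq : 0 < Ideal.absNorm v.asIdeal := Nat.pos_of_ne_zero fun h => v.ne_bot (Ideal.absNorm_eq_zero_iff.1 h)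
  have hq' : 0 < Ideal.absNorm w.asIdeal := Nat.pos_of_ne_zero fun h => w.ne_bot (Ideal.absNorm_eq_zero_iff.1 h)
  have hK : ∀ P ∈ Kg, acr g (hgF A) (hgF B) P ∈ Kg := fun P hP => (acr_kg hG hgx hq hfr.frob P).2 hP
  have hK' : ∀ P ∈ Kg, acr g' (hgF' A) (hgF' B) P ∈ Kg := fun P hP => (acr_kg hG hgx' hq' hfr'.frob P).2 hP
  -- the change of variables over K
  have hE : (C.map ((IntermediateField.inclusion hMK : M →ₐ[F] K) : M →+* K)) • ((W₀⁄F)⁄K) =
      (C • ((W₀⁄F)⁄M)).map ((IntermediateField.inclusion hMK : M →ₐ[F] K) : M →+* K) := by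
    have hX : ((W₀⁄F)⁄K) = ((W₀⁄F)⁄M).map ((IntermediateField.inclusion hMK : M →ₐ[F] K) : M →+* K) := by
      show ((W₀⁄F).map (algebraMap F K)) = ((W₀⁄F).map (algebraMap F M)).map _
      rw [WeierstrassCurve.map_map]
      rfl
    rw [hX, WeierstrassCurve.map_variableChange]
  have hle : ∀ a : M, v.valuation M a ≤ 1 → w.valuation K (IntermediateField.inclusion hMK a) ≤ 1 :=
    fun a ha => (hV (IntermediateField.inclusion hMK a)).1 ((hVv a).2 ha)
  have hC' : GC ((W₀⁄F)⁄K) w (C.map ((IntermediateField.inclusion hMK : M →ₐ[F] K) : M →+* K)) := by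
    obtain ⟨h1, h2, h3, h4, h5, h6⟩ := hCv
    unfold GC
    rw [hE]
    refine ⟨hle _ h1, hle _ h2, hle _ h3, hle _ h4, hle _ h5, ?_⟩
    rw [WeierstrassCurve.map_Δ]
    exact (hV.eq_one (IntermediateField.inclusion hMK _)).1 ((hVv.eq_one _).2 h6)
  have hW' : (C • ((W₀⁄F)⁄M))⁄(AlgebraicClosure F) =
      ((C.map ((IntermediateField.inclusion hMK : M →ₐ[F] K) : M →+* K)) • ((W₀⁄F)⁄K))⁄(AlgebraicClosure F) := by
    rw [hE]
    show (C • ((W₀⁄F)⁄M)).map (algebraMap M (AlgebraicClosure F)) =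
      ((C • ((W₀⁄F)⁄M)).map _).map (algebraMap K (AlgebraicClosure F))
    rw [WeierstrassCurve.map_map]
    rfl
  obtain ⟨c, hc0, hpc, hcf⟩ := (nw_dvd hV hfr' hC' hW' hG hgx' hK' hp.prime).1 hdvd
  obtain ⟨k, hk⟩ := H55P.PExt.pow p hp.prime M L hL
  have hn : ∀ x : K, (g ^ (p ^ k)) (algebraMap K (AlgebraicClosure F) x) = algebraMap K (AlgebraicClosure F) x := by
    intro x
    have hs : AlgEquiv.ofRingEquiv (f := g) hgF ∈ M.fixingSubgroup := by
      rw [IntermediateField.mem_fixingSubgroup_iff]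
      intro y hy
      exact hfr.fix ⟨y, hy⟩
    have h1 := (IntermediateField.mem_fixingSubgroup_iff L _).1 (hk _ hs) (algebraMap K (AlgebraicClosure F) x) (hKL x.2)
    have h2 : ∀ (n : ℕ) (y : AlgebraicClosure F), (g ^ n) y = ((AlgEquiv.ofRingEquiv (f := g) hgF) ^ n) y := by
      intro n
      induction n with
      | zero => exact fun y => rfl
      | succ n ih =>
        intro y
        rw [pow_succ, pow_succ]
        exact ih (g y)
    rw [h2]
    exact h1
  have hcp := frob_pow hfr hfr' (p ^ k) hn hG hgx hgx' hK hK' hcf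
  obtain ⟨c', hc1, hc2, hc3⟩ := unip_fix _ hp.prime k hc0 hpc hcp
  exact (nw_dvd hVv hfr hCv rfl hG hgx hK hp.prime).2 ⟨c', hc1, hc2, hc3⟩

end H55G
end
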