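import Mathlib
import Pool.Agent.Lib.H1M.PP2.D_H19A_Stm
import Pool.Agent.Lib.H1M.PP2.M167

/-! # H13T: statement of the theorem on nontrivial Tate-Shafarevich groups in cyclic extensions (MP_f50388_nt, theorem (S)) -/

open NumberField IsDedekindDomain WeierstrassCurve

namespace H13T

open H55P (IQ)
open H55K.TQ
open H19A (ShaP)

/-- M ⊆ K' ⊆ K, K/M is Galois with cyclic group of order p^(n+1) and K' is the subfield of degree p^n. -/
structure CycT (p n : ℕ) (M K' K : Type) [Field M] [Field K'] [Field K] [Algebra M K'] [Algebra K' K] [Algebra M K] : Prop where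
  tow : IsScalarTower M K' K
  gal : IsGalois M K
  cyc : IsCyclic (K ≃ₐ[M] K)
  deg : Module.finrank M K = p ^ (n + 1)
  sub : Module.finrank M K' = p ^ n

/-- The primes w of K' which do not divide the discriminant of W, are ramified in K, and where p divides the number of points of W over the
residue field. -/
def AnR (p : ℕ) (W : WeierstrassCurve ℤ) (K' K : Type) [Field K'] [NumberField K'] [Field K] [NumberField K] [Algebra K' K] :
    Set (HeightOneSpectrum (𝓞 K')) :=
  {w | ((W.Δ : ℤ) : 𝓞 K') ∉ w.asIdeal ∧ p ∣ Nat.card (W⁄(𝓞 K' ⧸ w.asIdeal)).toAffine.Point ∧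
    ∃ P : HeightOneSpectrum (𝓞 K), P.asIdeal.under (𝓞 K') = w.asIdeal ∧ P.asIdeal.ramificationIdx (𝓞 K') ≠ 1}

/-- The embedding of a subfield. -/
noncomputable def emb {F K M : Type} [Field F] [Field K] [Field M] [Algebra M K] [Algebra ℚ M] [Algebra ℚ K] [Algebra ℚ (AlgebraicClosure F)]
    (ιK : K →ₐ[ℚ] AlgebraicClosure F) : M →ₐ[ℚ] AlgebraicClosure F :=
  ((ιK : K →+* AlgebraicClosure F).comp (algebraMap M K)).toRatAlgHom

open Classical in
/-- The conclusions over K: the group of points is finite of order prime to p; the p-primary part of the Tate-Shafarevich group is isomorphic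
to (ℤ/p)^(2r) (it has order p^(2r) and is killed by p); the L-series of W over K (Mathlib: WeierstrassCurve.LSeries) converges absolutely for
Re s > 3/2, continues to Re s > 1/2, does not vanish at 1, and the analytic order of the Tate-Shafarevich group has the valuation of the order of
the p-primary part of the Tate-Shafarevich group, for all valuations above p. -/
structure AtKS (p r : ℕ) (W : WeierstrassCurve ℤ) (K : Type) [Field K] [NumberField K] : Prop where
  pts : Finite (W⁄K).toAffine.Point ∧ ¬ p ∣ Nat.card (W⁄K).toAffine.Point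
  sha : Nat.card (ShaP p K (W⁄K)) = p ^ (2 * r)
  kil : ∀ z : H16C.Sha (W⁄K).toAffine (AlgebraicClosure K), (∃ k : ℕ, (p ^ k : ℕ) • z = 0) → p • z = 0
  per : ∃ L : PeriodPair, PerZ W L
  bsd : ∃ Λ : ℂ → ℂ, AnalyticOnNhd ℂ Λ {s | 1 / 2 < s.re} ∧
    (∀ s : ℂ, 3 / 2 < s.re →
      LSeriesSummable (fun n => (((W⁄K).LFunction n : ℤ) : ℂ)) s ∧ Λ s = (W⁄K).LSeries s) ∧
    Λ 1 ≠ 0 ∧
    ∀ L : PeriodPair, PerZ W L → ∀ V : ValuationSubring ℂ, V.valuation (p : ℂ) < 1 →
      V.valuation (shaG K W L (Λ 1)) = V.valuation ((Nat.card (ShaP p K (W⁄K)) : ℕ) : ℂ)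

end H13T
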