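import Mathlib

/-! Merged copies (to shorten the build) of Lib.H35M.GD, Lib.SSG.V.V1, Lib.H35M.RS1, Lib.H35M.RS2, Lib.H35M.GS1, Lib.H35M.LS1. -/

-- from Lib.H35M.GD
section

/-!
# H35M: primitive multiplicative characters of finite rings, characters on ideals (definitions)
-/

open NumberField IsDedekindDomain

namespace H35M

/-- Primitive multiplicative characters of a finite ring: for every x which is not a unit there is a unit z with z x = x and χ z <> 1. -/
def PrimM {R : Type} [CommRing R] (χ : MulChar R ℂ) : Prop :=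
  ∀ x : R, ¬ IsUnit x → ∃ z : Rˣ, (z : R) * x = x ∧ χ z ≠ 1

/-- Characters on ideals, values roots of unity of order dividing p, modulus f (p may divide f). -/
structure PCh {K : Type} [Field K] [NumberField K] (p : ℕ) (f : Ideal (𝓞 K)) (χ : Ideal (𝓞 K) →*₀ ℂ) : Prop where
  ne : f ≠ ⊥
  val : ∀ a : Ideal (𝓞 K), a ≠ ⊥ → IsCoprime a f → χ a ^ p = 1
  zero : ∀ a : Ideal (𝓞 K), ¬ IsCoprime a f → χ a = 0
  per : ∀ x y : 𝓞 K, x ≠ 0 → y ≠ 0 → IsCoprime (Ideal.span {x}) f → x - y ∈ f →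
    χ (Ideal.span {x}) = χ (Ideal.span {y})

/-- The product of v^(a v), v in T. -/
noncomputable def fT {K : Type} [Field K] [NumberField K] (T : Finset (HeightOneSpectrum (𝓞 K))) (a : HeightOneSpectrum (𝓞 K) → ℕ) :
    Ideal (𝓞 K) := ∏ v ∈ T, v.asIdeal ^ a v

open Classical in
/-- The product of v^(a v), v in T, divided by the product of v in S. -/
noncomputable def fS {K : Type} [Field K] [NumberField K] (T S : Finset (HeightOneSpectrum (𝓞 K))) (a : HeightOneSpectrum (𝓞 K) → ℕ) :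
    Ideal (𝓞 K) := ∏ v ∈ T, v.asIdeal ^ (a v - if v ∈ S then 1 else 0)

end H35M
end

-- from Lib.SSG.V.V1
section

/-! # SSG, part V (arbitrary number fields K at p): adapted bases

Chunk V1 (M). A set S of endomorphisms of a finite dimensional space all of whose products of e elements vanish has an adapted basis. PROOF, induction on n (all V). n = 0: trivial. Step: let W be the supremum
of the ranges of the elements of S. W ≠ ⊤: let W_i = the supremum of the ranges of the products of the lists of length i with elements in S (W_0 = ⊤); if W = ⊤ then W_i = ⊤ for all i, by induction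
(W_(i+1) contains N (W_i) = N (⊤) = range N for every N in S, Submodule.map of a supremum: Submodule.map_iSup, List.prod_cons), but W_e = 0 by the hypothesis and V ≠ 0. So (Submodule.exists_le_ker_of_lt_top)
there is a linear form f ≠ 0 with W ≤ ker f =: H, finrank H = n (LinearMap.finrank_range_add_finrank_ker), N V ≤ H for N in S. The restrictions N|H (LinearMap.restrict) satisfy the hypothesis for H (a product of
restrictions is the restriction of the product: induction on the list; state it for lists of pairs or for the set S' = {N' : H → H | ∃ N ∈ S, ∀ x : H, (N' x : V) = N x}). Induction gives a basis v' of H; v = (v0, v'),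
f v0 ≠ 0 (Module.Basis.mkFinCons / Fin.cons, or LinearIndependent.fin_cons and basisOfLinearIndependentOfCardEqFinrank). N v0 in H = span of v' ; N v'_i in the span of the later ones. -/

namespace SSG.V

theorem v1_form {k : Type} [Field k] {V : Type} [AddCommGroup V] [Module k V] [Nontrivial V] (S : Set (V →ₗ[k] V)) (e : ℕ)
    (h : ∀ l : List (V →ₗ[k] V), (∀ N ∈ l, N ∈ S) → l.length = e → l.prod = 0) :
    ∃ f : V →ₗ[k] k, f ≠ 0 ∧ ∀ N ∈ S, ∀ x, f (N x) = 0 := by
  classical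
  have hex : ∃ e : ℕ, ∀ l : List (V →ₗ[k] V), (∀ N ∈ l, N ∈ S) → l.length = e → l.prod = 0 := ⟨e, h⟩
  have h0 := Nat.find_spec hex
  have h1 : Nat.find hex ≠ 0 := by
    intro h2
    have h3 := h0 [] (by simp) (by rw [h2]; rfl)
    rw [List.prod_nil] at h3
    exact one_ne_zero h3
  obtain ⟨m, hm⟩ := Nat.exists_eq_succ_of_ne_zero h1
  have h2 := Nat.find_min hex (m := m) (by omega)
  push Not at h2
  obtain ⟨l, hl1, hl2, hl3⟩ := h2
  have h3 : LinearMap.ker l.prod < ⊤ := by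
    rw [lt_top_iff_ne_top]
    intro h4
    exact hl3 (LinearMap.ker_eq_top.1 h4)
  obtain ⟨f, hf, hfl⟩ := Submodule.exists_le_ker_of_lt_top _ h3
  refine ⟨f, hf, fun N hN x => ?_⟩
  have h4 : N x ∈ LinearMap.ker l.prod := by
    rw [LinearMap.mem_ker]
    have h5 := h0 (l ++ [N]) (by
      intro M hM
      rcases List.mem_append.1 hM with h6 | h6
      · exact hl1 M h6
      · rw [List.mem_singleton.1 h6]
        exact hN) (by rw [List.length_append, hl2, List.length_singleton, hm])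
    rw [List.prod_append, List.prod_singleton] at h5
    have h6 := congrArg (fun T : V →ₗ[k] V => T x) h5
    exact h6
  exact hfl h4

theorem adapted {k : Type} [Field k] (n : ℕ) : ∀ (V : Type) [AddCommGroup V] [Module k V] [FiniteDimensional k V],
    Module.finrank k V = n → ∀ (S : Set (V →ₗ[k] V)) (e : ℕ),
      (∀ l : List (V →ₗ[k] V), (∀ N ∈ l, N ∈ S) → l.length = e → l.prod = 0) →
        ∃ v : Module.Basis (Fin n) k V, ∀ N ∈ S, ∀ i, N (v i) ∈ Submodule.span k (v '' {j | i < j}) := by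
  induction n with
  | zero =>
    intro V _ _ _ hV S e _
    exact ⟨Module.finBasisOfFinrankEq k V hV, fun N _ i => i.elim0⟩
  | succ n ih =>
    intro V _ _ _ hV S e hS
    have hnt : Nontrivial V := Module.nontrivial_of_finrank_pos (R := k) (by omega)
    obtain ⟨f, hf, hfS⟩ := v1_form S e hS
    have hsurj : Function.Surjective f := LinearMap.surjective hf
    obtain ⟨v0, hv0⟩ := hsurj 1
    have hker : Module.finrank k (LinearMap.ker f) = n := by
      have h1 := LinearMap.finrank_range_add_finrank_ker f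
      rw [LinearMap.range_eq_top.2 hsurj, finrank_top, Module.finrank_self, hV] at h1
      omega
    have hpr : ∀ l' : List (LinearMap.ker f →ₗ[k] LinearMap.ker f),
        (∀ N' ∈ l', N' ∈ {N' : LinearMap.ker f →ₗ[k] LinearMap.ker f | ∃ N ∈ S, ∀ x, (N' x : V) = N x}) →
        ∃ l : List (V →ₗ[k] V), (∀ N ∈ l, N ∈ S) ∧ l.length = l'.length ∧ ∀ x, (l'.prod x : V) = l.prod x := by
      intro l'
      induction l' with
      | nil =>
        intro _
        exact ⟨[], by simp, rfl, fun x => rfl⟩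
      | cons N' l' ihl =>
        intro h
        obtain ⟨l, h1, h2, h3⟩ := ihl (fun M hM => h M (List.mem_cons_of_mem _ hM))
        obtain ⟨N, hN, hN'⟩ := h N' List.mem_cons_self
        refine ⟨N :: l, ?_, ?_, ?_⟩
        · intro M hM
          rcases List.mem_cons.1 hM with h4 | h4
          · rw [h4]
            exact hN
          · exact h1 M h4
        · rw [List.length_cons, List.length_cons, h2]
        · intro x
          rw [List.prod_cons, List.prod_cons, Module.End.mul_apply, Module.End.mul_apply, hN', h3]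
    obtain ⟨v', hv'⟩ := ih (LinearMap.ker f) hker
      {N' : LinearMap.ker f →ₗ[k] LinearMap.ker f | ∃ N ∈ S, ∀ x, (N' x : V) = N x} e (by
        intro l' hl' hlen
        obtain ⟨l, h1, h2, h3⟩ := hpr l' hl'
        have h4 := hS l h1 (h2.trans hlen)
        apply LinearMap.ext
        intro x
        apply Subtype.ext
        rw [h3 x, h4]
        rfl)
    let v : Module.Basis (Fin (n + 1)) k V := Module.Basis.mkFinCons v0 v' (by
      intro c x hx hcx
      have h1 := congrArg f hcx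
      rw [map_add, map_smul, hv0, LinearMap.mem_ker.1 hx, map_zero, add_zero, smul_eq_mul, mul_one] at h1
      exact h1) (by
      intro z
      refine ⟨- f z, ?_⟩
      rw [LinearMap.mem_ker, map_add, map_smul, hv0, smul_eq_mul, mul_one, add_neg_cancel])
    have hvs : ∀ j, v (Fin.succ j) = (v' j : V) := by
      intro j
      show (Module.Basis.mkFinCons v0 v' _ _ : Fin (n + 1) → V) (Fin.succ j) = _
      rw [Module.Basis.coe_mkFinCons, Fin.cons_succ]
      rfl
    have hspan : ∀ (T : Set (Fin n)) (y : LinearMap.ker f), y ∈ Submodule.span k (v' '' T) →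
        (y : V) ∈ Submodule.span k (v '' (Fin.succ '' T)) := by
      intro T y hy
      have h1 : (y : V) ∈ Submodule.map (LinearMap.ker f).subtype (Submodule.span k (v' '' T)) :=
        ⟨y, hy, rfl⟩
      rw [Submodule.map_span] at h1
      refine Submodule.span_mono ?_ h1
      rintro _ ⟨_, ⟨j, hj, rfl⟩, rfl⟩
      exact ⟨Fin.succ j, ⟨j, hj, rfl⟩, hvs j⟩
    refine ⟨v, fun N hN i => ?_⟩
    refine Fin.cases ?_ (fun i' => ?_) i
    · have h1 := hspan Set.univ ⟨N (v 0), hfS N hN _⟩ (by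
        rw [Set.image_univ, v'.span_eq]
        exact Submodule.mem_top)
      refine Submodule.span_mono (Set.image_mono ?_) h1
      rintro _ ⟨j, -, rfl⟩
      exact Fin.succ_pos j
    · have h3 := hv' ((N.domRestrict (LinearMap.ker f)).codRestrict (LinearMap.ker f)
        (fun x => hfS N hN _)) ⟨N, hN, fun x => rfl⟩ i'
      have h4 := hspan _ _ h3
      rw [hvs]
      refine Submodule.span_mono (Set.image_mono ?_) h4
      rintro _ ⟨j, hj, rfl⟩
      exact Fin.succ_lt_succ_iff.2 hj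

end SSG.V
end

-- from Lib.H35M.RS1
section

/-! # H35M, chunk RS1 (M): sums of additive characters over ideals -/

open NumberField IsDedekindDomain

namespace H35M

variable {K : Type} [Field K] [NumberField K]

/-- absNorm J = card A -/
theorem rs1_card {f I J : Ideal (𝓞 K)} (hf : f ≠ ⊥) (hIJ : I * J = f) [Fintype (𝓞 K ⧸ f)] :
    Nat.card (I.map (Ideal.Quotient.mk f)) = Ideal.absNorm J := by
  have h1 : Nat.card (𝓞 K ⧸ f) = Nat.card (I.map (Ideal.Quotient.mk f)) * Nat.card ((𝓞 K ⧸ f) ⧸ I.map (Ideal.Quotient.mk f)) := by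
    exact Submodule.card_eq_card_quotient_mul_card (I.map (Ideal.Quotient.mk f))
  have hle : f ≤ I := by rw [← hIJ]; exact Ideal.mul_le_left
  have h2 : Nat.card ((𝓞 K ⧸ f) ⧸ I.map (Ideal.Quotient.mk f)) = Nat.card (𝓞 K ⧸ I) :=
    Nat.card_congr (DoubleQuot.quotQuotEquivQuotOfLE hle).toEquiv
  have h3 : Ideal.absNorm f = Ideal.absNorm I * Ideal.absNorm J := by rw [← hIJ, map_mul]
  have hI0 : I ≠ ⊥ := by
    intro h
    apply hf
    rw [← hIJ, h, Ideal.bot_mul]
  have hI : Ideal.absNorm I ≠ 0 := by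
    rw [Ne, Ideal.absNorm_eq_zero_iff]; exact hI0
  rw [Ideal.absNorm_apply, Submodule.cardQuot_apply, h1, h2] at h3
  rw [Ideal.absNorm_apply I, Submodule.cardQuot_apply, mul_comm] at h3
  rw [Ideal.absNorm_apply, Submodule.cardQuot_apply] at hI
  exact Nat.eq_of_mul_eq_mul_left (Nat.pos_of_ne_zero hI) h3

/-- Chunk RS1 (M). PROOF. R = O/f, A = the set of u in R which come from I (an ideal of R: I.map (Ideal.Quotient.mk f); f = I J ≤ I). If x in J then u x = 0 for u in A (I J = f), so the sum is card A, and card A = [I : f] =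
absNorm f / absNorm I = absNorm J (Ideal.absNorm f = Nat.card (O/f) = card A * Nat.card (O/I); Submodule.card_quotient_mul_card_quotient or the surjection O/f → O/I with kernel A). If x is not in J then (x) I is not contained in
f = J I (cancel I: Ideal.mul_left_... / dvd), so there is u0 in I with u0 x not in f, and by primitivity of ψ there is y with ψ(y u0 x) <> 1; w = y u0 in A: replacing u by u + w gives S = ψ(w x) S, so S = 0. -/
theorem sum_ideal {f I J : Ideal (𝓞 K)} (hf : f ≠ ⊥) (hIJ : I * J = f) [Fintype (𝓞 K ⧸ f)] {ψ : AddChar (𝓞 K ⧸ f) ℂ} (hψ : ψ.IsPrimitive)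
    (x : 𝓞 K) [DecidablePred fun u : 𝓞 K ⧸ f => u ∈ I.map (Ideal.Quotient.mk f)] [Decidable (x ∈ J)] :
    ∑ u ∈ Finset.univ.filter (fun u : 𝓞 K ⧸ f => u ∈ I.map (Ideal.Quotient.mk f)), ψ (u * Ideal.Quotient.mk f x) =
      if x ∈ J then (Ideal.absNorm J : ℂ) else 0 := by
  split_ifs with hx
  · have h1 : ∀ u ∈ Finset.univ.filter (fun u : 𝓞 K ⧸ f => u ∈ I.map (Ideal.Quotient.mk f)), ψ (u * Ideal.Quotient.mk f x) = 1 := by
      intro u hu
      have hu' := (Finset.mem_filter.1 hu).2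
      obtain ⟨y, hy, rfl⟩ := (Ideal.mem_map_iff_of_surjective _ Ideal.Quotient.mk_surjective).1 hu'
      rw [← map_mul, Ideal.Quotient.eq_zero_iff_mem.2, AddChar.map_zero_eq_one]
      rw [← hIJ]
      exact Ideal.mul_mem_mul hy hx
    rw [Finset.sum_congr rfl h1, Finset.sum_const, nsmul_eq_mul, mul_one, ← rs1_card hf hIJ]
    congr 1
    rw [Nat.card_eq_fintype_card, Fintype.card_subtype]
  · have hI0 : I ≠ ⊥ := by
      intro h
      apply hf
      rw [← hIJ, h, Ideal.bot_mul]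
    have h1 : ¬ (I * Ideal.span {x} ≤ I * J) := by
      intro h
      apply hx
      have h2 : J ∣ Ideal.span {x} := by
        have h3 : I * J ∣ I * Ideal.span {x} := Ideal.dvd_iff_le.2 h
        exact (mul_dvd_mul_iff_left hI0).1 h3
      exact Ideal.dvd_span_singleton.1 h2
    obtain ⟨u0, hu0, h2⟩ : ∃ u0 ∈ I, u0 * x ∉ f := by
      by_contra h
      push Not at h
      apply h1
      rw [hIJ]
      rw [Ideal.mul_le]
      intro r hr s hs
      obtain ⟨y, rfl⟩ := Ideal.mem_span_singleton.1 hs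
      rw [← mul_assoc]
      exact Ideal.mul_mem_right _ _ (h r hr)
    have h3 : Ideal.Quotient.mk f (u0 * x) ≠ 0 := by
      rw [Ne, Ideal.Quotient.eq_zero_iff_mem]; exact h2
    obtain ⟨y, hy⟩ : ∃ y, ψ (Ideal.Quotient.mk f (u0 * x) * y) ≠ 1 := by
      by_contra h
      push Not at h
      apply hψ h3
      ext y
      rw [AddChar.mulShift_apply, h y, AddChar.one_apply]
    set w : 𝓞 K ⧸ f := y * Ideal.Quotient.mk f u0 with hw
    have hwA : w ∈ I.map (Ideal.Quotient.mk f) := Ideal.mul_mem_left _ _ (Ideal.mem_map_of_mem _ hu0)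
    have h4 : ∑ u ∈ Finset.univ.filter (fun u : 𝓞 K ⧸ f => u ∈ I.map (Ideal.Quotient.mk f)), ψ (u * Ideal.Quotient.mk f x) =
        ψ (w * Ideal.Quotient.mk f x) * ∑ u ∈ Finset.univ.filter (fun u : 𝓞 K ⧸ f => u ∈ I.map (Ideal.Quotient.mk f)), ψ (u * Ideal.Quotient.mk f x) := by
      rw [Finset.mul_sum]
      refine (Finset.sum_bij (fun u _ => w + u) ?_ ?_ ?_ ?_).symm
      · intro u hu
        rw [Finset.mem_filter] at hu ⊢
        exact ⟨Finset.mem_univ _, Ideal.add_mem _ hwA hu.2⟩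
      · intro u _ v _ h
        exact add_left_cancel h
      · intro u hu
        rw [Finset.mem_filter] at hu
        refine ⟨u - w, ?_, by ring⟩
        rw [Finset.mem_filter]
        exact ⟨Finset.mem_univ _, Ideal.sub_mem _ hu.2 hwA⟩
      · intro u _
        rw [add_mul, AddChar.map_add_eq_mul]
    have h5 : ψ (w * Ideal.Quotient.mk f x) ≠ 1 := by
      rw [hw]
      intro h
      apply hy
      rw [← h]
      congr 1
      rw [RingHom.map_mul]
      ring
    have h6 := sub_eq_zero.2 h4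
    have h7 : (1 - ψ (w * Ideal.Quotient.mk f x)) * ∑ u ∈ Finset.univ.filter (fun u : 𝓞 K ⧸ f => u ∈ I.map (Ideal.Quotient.mk f)), ψ (u * Ideal.Quotient.mk f x) = 0 := by
      rw [sub_mul, one_mul]; exact h6
    exact (mul_eq_zero.1 h7).resolve_left (sub_ne_zero.2 (Ne.symm h5))

end H35M
end

-- from Lib.H35M.RS2
section

/-! # H35M, chunk RS2 (M): Ramanujan sums over O_K/f -/

open NumberField IsDedekindDomain

namespace H35M

variable {K : Type} [Field K] [NumberField K]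

/-- Chunk RS2a (S). fS T S a * prod over v in S of v = fT T a for S ⊆ T, a v > 0 on T. -/
theorem fS_mul {T S : Finset (HeightOneSpectrum (𝓞 K))} (hS : S ⊆ T) {a : HeightOneSpectrum (𝓞 K) → ℕ} (ha : ∀ v ∈ T, 0 < a v) :
    fS T S a * ∏ v ∈ S, v.asIdeal = fT T a := by
  classical
  unfold fS fT
  have h1 : ∏ v ∈ S, v.asIdeal = ∏ v ∈ T, v.asIdeal ^ (if v ∈ S then 1 else 0) := by
    have h2 : ∏ v ∈ S, v.asIdeal = ∏ v ∈ S, v.asIdeal ^ (if v ∈ S then 1 else 0) :=
      Finset.prod_congr rfl fun v hv => by rw [if_pos hv, pow_one]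
    rw [h2]
    refine Finset.prod_subset hS fun v _ hv => ?_
    rw [if_neg hv, pow_zero]
  rw [h1, ← Finset.prod_mul_distrib]
  refine Finset.prod_congr rfl fun v hv => ?_
  have h3 := ha v hv
  by_cases hvS : v ∈ S
  · simp only [if_pos hvS]
    rw [← pow_add]
    congr 1
    omega
  · simp only [if_neg hvS]
    simp

theorem rs2_fT_ne (T : Finset (HeightOneSpectrum (𝓞 K))) (a : HeightOneSpectrum (𝓞 K) → ℕ) : fT T a ≠ ⊥ := by
  unfold fT
  rw [← Ideal.zero_eq_bot]
  refine Finset.prod_ne_zero_iff.2 fun v _ => pow_ne_zero _ ?_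
  rw [Ideal.zero_eq_bot]
  exact v.ne_bot

theorem rs2_fT_le {T : Finset (HeightOneSpectrum (𝓞 K))} {a : HeightOneSpectrum (𝓞 K) → ℕ} (ha : ∀ v ∈ T, 0 < a v) {v : HeightOneSpectrum (𝓞 K)}
    (hv : v ∈ T) : fT T a ≤ v.asIdeal := by
  classical
  unfold fT
  rw [← Finset.mul_prod_erase _ _ hv]
  exact Ideal.mul_le_left.trans (Ideal.pow_le_self (ha v hv).ne')

/-- Chunk RS2b (S/M). A residue class mk y is a unit of O/(fT T a) iff y is in no v in T (maximal ideals containing fT T a; a v > 0). -/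
theorem unit_iff {T : Finset (HeightOneSpectrum (𝓞 K))} {a : HeightOneSpectrum (𝓞 K) → ℕ} (ha : ∀ v ∈ T, 0 < a v) (y : 𝓞 K) :
    IsUnit (Ideal.Quotient.mk (fT T a) y) ↔ ∀ v ∈ T, y ∉ v.asIdeal := by
  constructor
  · intro hu v hv hy
    have h1 : IsUnit (Ideal.Quotient.factor (rs2_fT_le ha hv) (Ideal.Quotient.mk (fT T a) y)) := hu.map _
    rw [Ideal.Quotient.factor_mk, Ideal.Quotient.eq_zero_iff_mem.2 hy] at h1
    have : Nontrivial (𝓞 K ⧸ v.asIdeal) := Ideal.Quotient.nontrivial_iff.2 v.isPrime.ne_top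
    exact not_isUnit_zero h1
  · intro h
    by_contra hu
    obtain ⟨M, hM, hyM⟩ := exists_max_ideal_of_mem_nonunits hu
    have hP : (M.comap (Ideal.Quotient.mk (fT T a))).IsPrime := Ideal.comap_isPrime _ _
    have hf : fT T a ≤ M.comap (Ideal.Quotient.mk (fT T a)) := by
      intro z hz
      rw [Ideal.mem_comap, Ideal.Quotient.eq_zero_iff_mem.2 hz]
      exact M.zero_mem
    unfold fT at hf
    obtain ⟨v, hv, hvP⟩ := (Ideal.IsPrime.prod_le hP).1 hf
    have hle : v.asIdeal ≤ M.comap (Ideal.Quotient.mk (fT T a)) := Ideal.IsPrime.le_of_pow_le hvP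
    have hmax : v.asIdeal.IsMaximal := v.isMaximal
    have heq := hmax.eq_of_le hP.ne_top hle
    apply h v hv
    rw [heq]
    exact hyM

open Classical in
/-- Chunk RS2 (M). PROOF. The sum over the units is the sum over u in O/f of 1_unit(u) ψ(u x), 1_unit(u) = prod over v in T of (1 - [u in v]) = sum over S ⊆ T of (-1)^card S [u in v for all v in S] (Finset.prod_one_sub /
Finset.prod_add), u = mk y; [y in v for all v in S] = [y in prod of v in S] (distinct maximal ideals: Ideal.prod_eq... / inf = product for coprime ideals) = [mk y in the image of that product] (f ≤ product). RS1 with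
I = prod over S of v, J = fS T S a (RS2a). -/
theorem ram_sum {T : Finset (HeightOneSpectrum (𝓞 K))} {a : HeightOneSpectrum (𝓞 K) → ℕ} (ha : ∀ v ∈ T, 0 < a v) [Fintype (𝓞 K ⧸ fT T a)]
    {ψ : AddChar (𝓞 K ⧸ fT T a) ℂ} (hψ : ψ.IsPrimitive) (x : 𝓞 K) :
    ∑ u : (𝓞 K ⧸ fT T a)ˣ, ψ ((u : 𝓞 K ⧸ fT T a) * Ideal.Quotient.mk _ x) =
      ∑ S ∈ T.powerset, (-1) ^ S.card * (if x ∈ fS T S a then (Ideal.absNorm (fS T S a) : ℂ) else 0) := by
  have hprod : ∀ S ∈ T.powerset, ∀ y : 𝓞 K, Ideal.Quotient.mk (fT T a) y ∈ (∏ v ∈ S, v.asIdeal).map (Ideal.Quotient.mk (fT T a)) ↔ ∀ v ∈ S, y ∈ v.asIdeal := by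
    intro S hS y
    have hST := Finset.mem_powerset.1 hS
    have hle : fT T a ≤ ∏ v ∈ S, v.asIdeal := by
      rw [← fS_mul hST ha]
      exact Ideal.mul_le_right
    rw [← Ideal.mem_comap, Ideal.comap_map_mk hle]
    have h1 := IsDedekindDomain.inf_pow_eq_prod_of_prime S (fun v : HeightOneSpectrum (𝓞 K) => v.asIdeal) (fun _ => 1)
      (fun v _ => v.prime) (fun v _ w _ hvw h => hvw (HeightOneSpectrum.ext h))
    simp only [pow_one] at h1
    rw [← h1]
    simp only [Submodule.mem_finsetInf]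
  have hind : ∀ u : 𝓞 K ⧸ fT T a, (if IsUnit u then (1 : ℂ) else 0) =
      ∑ S ∈ T.powerset, (-1) ^ S.card * (if u ∈ (∏ v ∈ S, v.asIdeal).map (Ideal.Quotient.mk (fT T a)) then (1 : ℂ) else 0) := by
    intro u
    obtain ⟨y, rfl⟩ := Ideal.Quotient.mk_surjective u
    have h1 : ∏ v ∈ T, ((-(if y ∈ v.asIdeal then (1 : ℂ) else 0)) + 1) = (if IsUnit (Ideal.Quotient.mk (fT T a) y) then (1 : ℂ) else 0) := by
      by_cases h : ∀ v ∈ T, y ∉ v.asIdeal
      · rw [if_pos ((unit_iff ha y).2 h)]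
        refine Finset.prod_eq_one fun v hv => ?_
        rw [if_neg (h v hv)]
        simp
      · rw [if_neg (fun h' => h ((unit_iff ha y).1 h'))]
        push Not at h
        obtain ⟨v, hv, hy⟩ := h
        refine Finset.prod_eq_zero hv ?_
        rw [if_pos hy]
        simp
    rw [← h1, Finset.prod_add]
    refine Finset.sum_congr rfl fun S hS => ?_
    rw [Finset.prod_const_one, mul_one]
    have h2 : ∏ v ∈ S, (-(if y ∈ v.asIdeal then (1 : ℂ) else 0)) = (-1) ^ S.card * ∏ v ∈ S, (if y ∈ v.asIdeal then (1 : ℂ) else 0) := by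
      rw [← Finset.prod_const, ← Finset.prod_mul_distrib]
      exact Finset.prod_congr rfl fun v _ => by ring
    rw [h2]
    congr 1
    rw [Finset.prod_boole]
    exact if_congr (hprod S hS y).symm rfl rfl
  have hsum : ∑ u : (𝓞 K ⧸ fT T a)ˣ, ψ ((u : 𝓞 K ⧸ fT T a) * Ideal.Quotient.mk _ x) = ∑ u : 𝓞 K ⧸ fT T a, (if IsUnit u then (1 : ℂ) else 0) * ψ (u * Ideal.Quotient.mk (fT T a) x) := by
    have h3 : ∑ u : 𝓞 K ⧸ fT T a, (if IsUnit u then (1 : ℂ) else 0) * ψ (u * Ideal.Quotient.mk (fT T a) x) =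
        ∑ u ∈ Finset.univ.filter (fun u : 𝓞 K ⧸ fT T a => IsUnit u), ψ (u * Ideal.Quotient.mk (fT T a) x) := by
      rw [Finset.sum_filter]
      refine Finset.sum_congr rfl fun u _ => ?_
      by_cases h : IsUnit u
      · simp [h]
      · simp [h]
    rw [h3]
    refine Finset.sum_bij (fun (u : (𝓞 K ⧸ fT T a)ˣ) _ => (u : 𝓞 K ⧸ fT T a)) ?_ ?_ ?_ ?_
    · intro u _
      exact Finset.mem_filter.2 ⟨Finset.mem_univ _, u.isUnit⟩
    · intro u _ w _ h
      exact Units.ext h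
    · intro u hu
      obtain ⟨w, hw⟩ := (Finset.mem_filter.1 hu).2
      exact ⟨w, Finset.mem_univ _, hw⟩
    · intro u _
      rfl
  rw [hsum]
  have h4 : ∀ u : 𝓞 K ⧸ fT T a, (if IsUnit u then (1 : ℂ) else 0) * ψ (u * Ideal.Quotient.mk (fT T a) x) =
      ∑ S ∈ T.powerset, (-1) ^ S.card * ((if u ∈ (∏ v ∈ S, v.asIdeal).map (Ideal.Quotient.mk (fT T a)) then (1 : ℂ) else 0) * ψ (u * Ideal.Quotient.mk (fT T a) x)) := by
    intro u
    rw [hind u, Finset.sum_mul]
    exact Finset.sum_congr rfl fun S _ => by ring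
  rw [Finset.sum_congr rfl fun u _ => h4 u, Finset.sum_comm]
  refine Finset.sum_congr rfl fun S hS => ?_
  have hST := Finset.mem_powerset.1 hS
  have h5 : (∏ v ∈ S, v.asIdeal) * fS T S a = fT T a := by
    rw [mul_comm, fS_mul hST ha]
  rw [← Finset.mul_sum]
  congr 1
  rw [← sum_ideal (rs2_fT_ne T a) h5 hψ x, Finset.sum_filter]
  refine Finset.sum_congr rfl fun u _ => ?_
  by_cases h : u ∈ (∏ v ∈ S, v.asIdeal).map (Ideal.Quotient.mk (fT T a))
  · rw [if_pos h, if_pos h, one_mul]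
  · rw [if_neg h, if_neg h, zero_mul]

end H35M
end

-- from Lib.H35M.GS1
section

/-! # H35M, chunk GS1 (M): Gauss sums of primitive characters of finite rings -/

namespace H35M

variable {R : Type} [CommRing R] [Fintype R]

/-- Chunk GS1a (S/M). PROOF. x a unit: gaussSum_mulShift_eq (ψ.mulShift x u = ψ (x u)). x not a unit: χ⁻¹ x = 0 (MulChar.map_nonunit); take z with z x = x, χ z <> 1: replacing u by z u (bijection) multiplies the sum by χ z
and ψ (z u x) = ψ (u x): the sum S satisfies S = χ z S, so S = 0. -/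
theorem gs_shift {χ : MulChar R ℂ} (hχ : PrimM χ) (ψ : AddChar R ℂ) (x : R) : ∑ u, χ u * ψ (u * x) = χ⁻¹ x * gaussSum χ ψ := by
  by_cases hx : IsUnit x
  · obtain ⟨a, rfl⟩ := hx
    have h1 := gaussSum_mulShift χ ψ a
    have h2 : ∑ u, χ u * ψ (u * (a : R)) = gaussSum χ (ψ.mulShift a) := by
      unfold gaussSum
      refine Finset.sum_congr rfl fun u _ => ?_
      rw [AddChar.mulShift_apply, mul_comm u]
    rw [h2, ← h1, ← mul_assoc, ← MulChar.mul_apply]
    rw [MulChar.inv_mul, MulChar.one_apply_coe, one_mul]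
  · obtain ⟨z, hz, hz1⟩ := hχ x hx
    rw [MulChar.map_nonunit _ hx, zero_mul]
    have h1 : ∑ u, χ u * ψ (u * x) = χ z * ∑ u, χ u * ψ (u * x) := by
      rw [Finset.mul_sum]
      have h2 : ∑ u, χ ((z : R) * u) * ψ ((z : R) * u * x) = ∑ u, χ u * ψ (u * x) :=
        Fintype.sum_equiv (Units.mulLeft z) _ _ fun u => rfl
      rw [← h2]
      refine Finset.sum_congr rfl fun u _ => ?_
      rw [map_mul, mul_assoc, mul_right_comm, hz, mul_comm x u]
    have h3 : (1 - χ z) * ∑ u, χ u * ψ (u * x) = 0 := by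
      rw [sub_mul, one_mul, ← h1, sub_self]
    rcases mul_eq_zero.1 h3 with h4 | h4
    · exact absurd (sub_eq_zero.1 h4).symm hz1
    · exact h4

/-- Chunk GS1b (S). χ⁻¹ z = (χ z)⁻¹ for units z. -/
theorem PrimM.inv {χ : MulChar R ℂ} (hχ : PrimM χ) : PrimM χ⁻¹ := by
  intro x hx
  obtain ⟨z, hz, hz1⟩ := hχ x hx
  refine ⟨z, hz, fun h => hz1 ?_⟩
  have h1 : χ⁻¹ (z : R) * χ (z : R) = 1 := by
    rw [← MulChar.mul_apply, MulChar.inv_mul, MulChar.one_apply_coe]
  rw [h, one_mul] at h1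
  exact h1

/-- Chunk GS1c (S). χ ^ p = 1, p prime, 0 < j < p: χ z ^ j <> 1 since χ z ^ p = 1 and χ z <> 1 (j and p coprime). -/
theorem PrimM.pow {χ : MulChar R ℂ} (hχ : PrimM χ) {p : ℕ} (hp : p.Prime) (h1 : χ ^ p = 1) {j : ℕ} (h0 : 0 < j) (hj : j < p) :
    PrimM (χ ^ j) := by
  intro x hx
  obtain ⟨z, hz, hz1⟩ := hχ x hx
  refine ⟨z, hz, fun h => hz1 ?_⟩
  rw [MulChar.pow_apply_coe] at h
  have h2 : (χ (z : R)) ^ p = 1 := by
    rw [← MulChar.pow_apply_coe, h1, MulChar.one_apply_coe]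
  have hc : Nat.Coprime j p := by
    rw [Nat.coprime_comm]
    exact (Nat.Prime.coprime_iff_not_dvd hp).2 fun hd => absurd (Nat.le_of_dvd h0 hd) (not_le.2 hj)
  have h3 : orderOf (χ (z : R)) ∣ j := orderOf_dvd_of_pow_eq_one h
  have h4 : orderOf (χ (z : R)) ∣ p := orderOf_dvd_of_pow_eq_one h2
  have h5 : orderOf (χ (z : R)) ∣ 1 := by
    rw [← hc.gcd_eq_one]
    exact Nat.dvd_gcd h3 h4
  exact orderOf_eq_one_iff.1 (Nat.dvd_one.1 h5)

/-- Chunk GS1d (M). PROOF. Σ over x of (Σ_u χ u ψ(u x)) (Σ_w χ⁻¹ w ψ(-(w x))): by GS1a (for χ, ψ and for χ⁻¹, ψ⁻¹; w x -> ψ⁻¹ (w x)) each term is χ⁻¹ x χ x gaussSum χ ψ gaussSum χ⁻¹ ψ⁻¹, and χ⁻¹ x χ x is 1 for units, 0 else: the sum is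
card (units) times the product of the two Gauss sums. Expanding: Σ_u Σ_w χ u χ⁻¹ w Σ_x ψ((u - w) x) = card R Σ_u χ u χ⁻¹ u (AddChar.sum_mulShift) = card R card (units). Divide by card (units) <> 0:
gaussSum χ ψ gaussSum χ⁻¹ ψ⁻¹ = card R. Finally gaussSum χ⁻¹ ψ = χ (-1) gaussSum χ⁻¹ ψ⁻¹ (gaussSum_mulShift for -1; χ(-1) = χ⁻¹(-1)). -/
theorem gs_mul {χ : MulChar R ℂ} (hχ : PrimM χ) {ψ : AddChar R ℂ} (hψ : ψ.IsPrimitive) :
    gaussSum χ ψ * gaussSum χ⁻¹ ψ = χ (-1) * (Fintype.card R : ℂ) := by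
  classical
  have key : (∑ x : R, χ⁻¹ x * χ x) * (gaussSum χ ψ * gaussSum χ⁻¹ ψ⁻¹) = (∑ x : R, χ⁻¹ x * χ x) * (Fintype.card R : ℂ) := by
    have e1 : ∀ x : R, (∑ u, χ u * ψ (u * x)) * (∑ w, χ⁻¹ w * ψ⁻¹ (w * x)) = (χ⁻¹ x * χ x) * (gaussSum χ ψ * gaussSum χ⁻¹ ψ⁻¹) := by
      intro x
      rw [gs_shift hχ ψ x, gs_shift hχ.inv ψ⁻¹ x, inv_inv]
      ring
    have e2 : ∑ x : R, (∑ u, χ u * ψ (u * x)) * (∑ w, χ⁻¹ w * ψ⁻¹ (w * x)) = ∑ u : R, ∑ w : R, (χ u * χ⁻¹ w) * ∑ x : R, ψ (x * (u - w)) := by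
      simp_rw [Finset.sum_mul_sum]
      rw [Finset.sum_comm]
      refine Finset.sum_congr rfl fun u _ => ?_
      rw [Finset.sum_comm]
      refine Finset.sum_congr rfl fun w _ => ?_
      rw [Finset.mul_sum]
      refine Finset.sum_congr rfl fun x _ => ?_
      rw [AddChar.inv_apply, mul_sub, sub_eq_add_neg, AddChar.map_add_eq_mul, mul_comm u x, mul_comm w x]
      ring
    have e3 : ∀ u w : R, ∑ x : R, ψ (x * (u - w)) = if w = u then (Fintype.card R : ℂ) else 0 := by
      intro u w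
      rw [AddChar.sum_mulShift (u - w) hψ]
      by_cases h : w = u
      · subst h; simp
      · rw [if_neg h, if_neg (fun h' => h (sub_eq_zero.1 h').symm), Nat.cast_zero]
    calc (∑ x : R, χ⁻¹ x * χ x) * (gaussSum χ ψ * gaussSum χ⁻¹ ψ⁻¹) = ∑ x : R, (∑ u, χ u * ψ (u * x)) * (∑ w, χ⁻¹ w * ψ⁻¹ (w * x)) := by
          rw [Finset.sum_mul]
          exact Finset.sum_congr rfl fun x _ => (e1 x).symm
      _ = ∑ u : R, (χ u * χ⁻¹ u) * (Fintype.card R : ℂ) := by
          rw [e2]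
          refine Finset.sum_congr rfl fun u _ => ?_
          simp_rw [e3]
          simp
      _ = (∑ x : R, χ⁻¹ x * χ x) * (Fintype.card R : ℂ) := by
          rw [Finset.sum_mul]
          exact Finset.sum_congr rfl fun x _ => by ring
  have hne : (∑ x : R, χ⁻¹ x * χ x) ≠ 0 := by
    have e : (∑ x : R, χ⁻¹ x * χ x) = ∑ x : R, if IsUnit x then (1 : ℂ) else 0 := by
      refine Finset.sum_congr rfl fun x _ => ?_
      by_cases hx : IsUnit x
      · rw [if_pos hx, ← MulChar.mul_apply, MulChar.inv_mul, MulChar.one_apply hx]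
      · rw [if_neg hx, MulChar.map_nonunit _ hx, zero_mul]
    rw [e, Finset.sum_boole]
    have : 0 < (Finset.univ.filter fun x : R => IsUnit x).card :=
      Finset.card_pos.2 ⟨1, by simp⟩
    exact_mod_cast this.ne'
  have h1 : gaussSum χ ψ * gaussSum χ⁻¹ ψ⁻¹ = (Fintype.card R : ℂ) := mul_left_cancel₀ hne key
  have h2 : gaussSum χ⁻¹ ψ = χ (-1) * gaussSum χ⁻¹ ψ⁻¹ := by
    have h3 := gaussSum_mulShift χ⁻¹ ψ (-1 : Rˣ)
    have h4 : ψ.mulShift ((-1 : Rˣ) : R) = ψ⁻¹ := by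
      ext y
      rw [AddChar.mulShift_apply, AddChar.inv_apply]
      congr 1
      simp
    rw [h4] at h3
    rw [← h3]
    congr 1
    have h5 : ((-1 : Rˣ) : R) = -1 := by simp
    rw [h5]
    have h6 : χ⁻¹ (-1 : R) * χ (-1 : R) = 1 := by
      rw [← MulChar.mul_apply, MulChar.inv_mul, MulChar.one_apply (by exact isUnit_one.neg)]
    have h7 : χ (-1 : R) * χ (-1 : R) = 1 := by
      rw [← map_mul]
      simp
    calc χ⁻¹ (-1 : R) = χ⁻¹ (-1 : R) * (χ (-1 : R) * χ (-1 : R)) := by rw [h7, mul_one]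
      _ = χ (-1 : R) := by rw [← mul_assoc, h6, one_mul]
  rw [h2, mul_left_comm, h1]

end H35M
end

-- from Lib.H35M.LS1
section

/-! # H35M, chunk LS1 (M): local components of a character on ideals -/

open NumberField IsDedekindDomain

namespace H35M

variable {K : Type} [Field K] [NumberField K] {p : ℕ} {χ : Ideal (𝓞 K) →*₀ ℂ}

omit [NumberField K] in
theorem ls1_unit {f : Ideal (𝓞 K)} {x : 𝓞 K} :
    IsCoprime (Ideal.span {x}) f ↔ IsUnit (Ideal.Quotient.mk f x) := by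
  rw [Ideal.isCoprime_iff_exists, isUnit_iff_exists_inv]
  constructor
  · rintro ⟨i, hi, j, hj, hij⟩
    obtain ⟨c, rfl⟩ := Ideal.mem_span_singleton'.1 hi
    refine ⟨Ideal.Quotient.mk f c, ?_⟩
    rw [← map_mul, ← map_one (Ideal.Quotient.mk f), Ideal.Quotient.eq]
    have : x * c - 1 = -j := by
      rw [← hij]
      ring
    rw [this]
    exact f.neg_mem hj
  · rintro ⟨b, hb⟩
    obtain ⟨c, rfl⟩ := Ideal.Quotient.mk_surjective b
    rw [← map_mul, ← map_one (Ideal.Quotient.mk f), Ideal.Quotient.eq] at hb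
    refine ⟨c * x, Ideal.mem_span_singleton'.2 ⟨c, rfl⟩, 1 - c * x, ?_, by ring⟩
    have : 1 - c * x = -(x * c - 1) := by ring
    rw [this]
    exact f.neg_mem hb

omit [NumberField K] in
/-- Nonzero representatives. -/
theorem ls1_rep {f : Ideal (𝓞 K)} (hf : f ≠ ⊥) (u : 𝓞 K ⧸ f) : ∃ x : 𝓞 K, x ≠ 0 ∧ Ideal.Quotient.mk f x = u := by
  obtain ⟨x, rfl⟩ := Ideal.Quotient.mk_surjective u
  by_cases hx : x = 0
  · obtain ⟨t, ht, ht0⟩ := Submodule.exists_mem_ne_zero_of_ne_bot hf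
    refine ⟨t, ht0, ?_⟩
    rw [hx, Ideal.Quotient.eq, sub_zero]
    exact ht
  · exact ⟨x, hx, rfl⟩

theorem ls1_per {f : Ideal (𝓞 K)} (h : PCh p f χ) {x y : 𝓞 K} (hx : x ≠ 0) (hy : y ≠ 0)
    (hxy : Ideal.Quotient.mk f x = Ideal.Quotient.mk f y) : χ (Ideal.span {x}) = χ (Ideal.span {y}) := by
  by_cases hc : IsCoprime (Ideal.span {x}) f
  · exact h.per x y hx hy hc (Ideal.Quotient.eq.1 hxy)
  · have hc' : ¬ IsCoprime (Ideal.span {y}) f := by
      rw [ls1_unit, ← hxy, ← ls1_unit]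
      exact hc
    rw [h.zero _ hc, h.zero _ hc']

/-- The character of the residue ring. -/
theorem ls1_char {f : Ideal (𝓞 K)} (h : PCh p f χ) :
    ∃ η : MulChar (𝓞 K ⧸ f) ℂ, (∀ x : 𝓞 K, x ≠ 0 → η (Ideal.Quotient.mk f x) = χ (Ideal.span {x})) ∧
      ∀ u : (𝓞 K ⧸ f)ˣ, η u ^ p = 1 := by
  choose rep hrep0 hrep using ls1_rep h.ne
  have key : ∀ x : 𝓞 K, x ≠ 0 → χ (Ideal.span {rep (Ideal.Quotient.mk f x)}) = χ (Ideal.span {x}) := fun x hx =>
    ls1_per h (hrep0 _) hx (hrep _)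
  refine ⟨{ toFun := fun u => χ (Ideal.span {rep u})
            map_one' := ?_
            map_mul' := ?_
            map_nonunit' := ?_ }, ?_, ?_⟩
  · have h1 := key 1 one_ne_zero
    rw [map_one, Ideal.span_singleton_one, ← Ideal.one_eq_top, map_one] at h1
    exact h1
  · intro u v
    have h1 := key (rep u * rep v) (mul_ne_zero (hrep0 u) (hrep0 v))
    rw [map_mul, hrep, hrep, ← Ideal.span_singleton_mul_span_singleton, map_mul] at h1
    exact h1
  · intro u hu
    apply h.zero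
    rw [ls1_unit, hrep]
    exact hu
  · intro x hx
    exact key x hx
  · intro u
    refine h.val _ ?_ ?_
    · rw [Ne, Ideal.span_singleton_eq_bot]
      exact hrep0 _
    · rw [ls1_unit, hrep]
      exact u.isUnit

/-- Chunk LS1 (M). PROOF. For a class u in O/f1 which is a unit take x in O, x <> 0, mk x = u, x = 1 mod f2 (CRT; adding elements of f1 f2 <> ⊥ makes x <> 0); x is coprime to f = f1 f2; χ1 u = χ (span {x}) (independent of x by per). 0 for nonunits. χ1 is
multiplicative: x x' = 1 mod f2. The same for χ2. χ1^p = 1: val. For x <> 0: if x is not coprime to f both sides are 0 (mk x is a nonunit in O/f1 or O/f2). Otherwise x1 = x mod f1, 1 mod f2, x2 = 1 mod f1, x mod f2: x1 x2 = x mod f, so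
χ (x) = χ (x1) χ (x2) (span {x1 x2} = span {x1} span {x2}). MulChar.ofUnitHom or MulChar.mk'. -/
theorem ls_split (hp : p ≠ 0) {f f1 f2 : Ideal (𝓞 K)} (hf : f = f1 * f2) (h12 : IsCoprime f1 f2) (h : PCh p f χ) :
    ∃ (χ1 : MulChar (𝓞 K ⧸ f1) ℂ) (χ2 : MulChar (𝓞 K ⧸ f2) ℂ), χ1 ^ p = 1 ∧ χ2 ^ p = 1 ∧
      ∀ x : 𝓞 K, x ≠ 0 → χ (Ideal.span {x}) = χ1 (Ideal.Quotient.mk f1 x) * χ2 (Ideal.Quotient.mk f2 x) := by
  subst hf
  obtain ⟨η, hη1, hη2⟩ := ls1_char h
  obtain ⟨e, he⟩ : ∃ e : (𝓞 K ⧸ f1 * f2) ≃+* (𝓞 K ⧸ f1) × (𝓞 K ⧸ f2), e = Ideal.quotientMulEquivQuotientProd f1 f2 h12 := ⟨_, rfl⟩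
  have hemk : ∀ x : 𝓞 K, e (Ideal.Quotient.mk (f1 * f2) x) = (Ideal.Quotient.mk f1 x, Ideal.Quotient.mk f2 x) := by
    intro x
    rw [he]
    rfl
  have hnu : ∀ w : (𝓞 K ⧸ f1) × (𝓞 K ⧸ f2), ¬ IsUnit w → η (e.symm w) = 0 := by
    intro w hw
    apply η.map_nonunit
    intro hu
    apply hw
    have := hu.map e
    rwa [e.apply_symm_apply] at this
  have hu1 : ∀ u : (𝓞 K ⧸ f1) × (𝓞 K ⧸ f2), IsUnit u → η (e.symm u) ^ p = 1 := by
    intro u hu
    obtain ⟨w, hw⟩ := hu.map e.symm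
    rw [← hw]
    exact hη2 w
  refine ⟨{ toFun := fun u => η (e.symm (u, 1))
            map_one' := ?_
            map_mul' := ?_
            map_nonunit' := ?_ },
    { toFun := fun u => η (e.symm (1, u))
      map_one' := ?_
      map_mul' := ?_
      map_nonunit' := ?_ }, ?_, ?_, ?_⟩
  · rw [← Prod.one_eq_mk, map_one, map_one]
  · intro u v
    rw [← map_mul, ← map_mul, Prod.mk_mul_mk, one_mul]
  · intro u hu
    apply hnu
    rw [Prod.isUnit_iff]
    exact fun h => hu h.1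
  · rw [← Prod.one_eq_mk, map_one, map_one]
  · intro u v
    rw [← map_mul, ← map_mul, Prod.mk_mul_mk, one_mul]
  · intro u hu
    apply hnu
    rw [Prod.isUnit_iff]
    exact fun h => hu h.2
  · apply MulChar.ext
    intro u
    rw [MulChar.pow_apply_coe, MulChar.one_apply_coe]
    exact hu1 ((u : 𝓞 K ⧸ f1), 1) (Prod.isUnit_iff.2 ⟨u.isUnit, isUnit_one⟩)
  · apply MulChar.ext
    intro u
    rw [MulChar.pow_apply_coe, MulChar.one_apply_coe]
    exact hu1 (1, (u : 𝓞 K ⧸ f2)) (Prod.isUnit_iff.2 ⟨isUnit_one, u.isUnit⟩)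
  · intro x hx
    rw [← hη1 x hx]
    have h1 : Ideal.Quotient.mk (f1 * f2) x = e.symm (Ideal.Quotient.mk f1 x, 1) * e.symm (1, Ideal.Quotient.mk f2 x) := by
      rw [← map_mul, Prod.mk_mul_mk, mul_one, one_mul, ← hemk, e.symm_apply_apply]
    rw [h1, map_mul]
    rfl

/-- Chunk LS1b (S/M). PROOF. x in O/f1 not a unit, x = mk y, y in a maximal ideal v ⊇ f1 (v <> ⊥). z from the hypothesis: mk z is a unit (z is coprime to f1), (z - 1) y in I v = f1. -/
theorem primM_of {f1 : Ideal (𝓞 K)} (hf : f1 ≠ ⊥) (χ1 : MulChar (𝓞 K ⧸ f1) ℂ)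
    (h : ∀ v : HeightOneSpectrum (𝓞 K), f1 ≤ v.asIdeal → ∃ I : Ideal (𝓞 K), I * v.asIdeal = f1 ∧ ∃ z : 𝓞 K, z - 1 ∈ I ∧
      IsCoprime (Ideal.span {z}) f1 ∧ χ1 (Ideal.Quotient.mk f1 z) ≠ 1) : PrimM χ1 := by
  intro x hx
  obtain ⟨y, rfl⟩ := Ideal.Quotient.mk_surjective x
  have h1 : ¬ IsCoprime (Ideal.span {y}) f1 := by
    rw [ls1_unit]
    exact hx
  rw [Ideal.isCoprime_iff_sup_eq] at h1
  obtain ⟨M, hM, hle⟩ := Ideal.exists_le_maximal _ h1
  have hM0 : M ≠ ⊥ := by
    rintro rfl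
    exact hf (le_bot_iff.1 (le_sup_right.trans hle))
  obtain ⟨I, hI, z, hz1, hz2, hz3⟩ := h ⟨M, hM.isPrime, hM0⟩ (le_sup_right.trans hle)
  have hzu := ls1_unit.1 hz2
  refine ⟨hzu.unit, ?_, ?_⟩
  · rw [IsUnit.unit_spec, ← map_mul, Ideal.Quotient.eq]
    have h2 : z * y - y = (z - 1) * y := by ring
    rw [h2, ← hI]
    exact Ideal.mul_mem_mul hz1 (hle (Ideal.mem_sup_left (Ideal.mem_span_singleton_self y)))
  · rw [IsUnit.unit_spec]
    exact hz3

end H35M
end
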