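import Mathlib
import Pool.Agent.Lib.H1M.PP2.M009
import Pool.Agent.Lib.H1M.PP2.M017

/-! Merged copies (to shorten the build) of Lib.CFT.X01, Lib.CFT.X02, Lib.CFT.X03, Lib.CFT.X14, Lib.CFT.Y29B, Lib.H19B.GA, Lib.H19B.GB, Lib.H19B.NC, Lib.SSG.V.V2, Lib.H16D.A9, Lib.H16D.B1, Lib.H19B.GC, Lib.H35M.PA1. -/

-- from Lib.CFT.X01
section

/-! # CFT X01 (S/M): a cyclic group has one subgroup of order l

PROOF. Take c₁ ≠ 1 in zpowers t₁ and zpowers a; its order divides l^r, so it is l^j with j >= 1; replace c₁ by c₁^(l^(j-1)): order exactly l. The same for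
c₂ in zpowers t₂ and zpowers a. In the cyclic group zpowers a there are at most l elements x with x^l = 1 (IsCyclic.card_pow_eq_one_le), and zpowers c₁ consists of l
such elements; so c₂ is in zpowers c₁ (for instance: zpowers c₁ and zpowers c₂ are subgroups of zpowers a with the same number l of elements, so they are equal).
So c₂ ≠ 1 is in zpowers t₁ and in zpowers t₂. -/

namespace CFT

theorem x1_ord {Γ : Type} [CommGroup Γ] [Finite Γ] {l r : ℕ} (hl : l.Prime) {a t : Γ} (h1 : t ^ l ^ r = 1)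
    (n1 : ¬ Disjoint (Subgroup.zpowers t) (Subgroup.zpowers a)) :
    ∃ c : Γ, orderOf c = l ∧ c ∈ Subgroup.zpowers t ∧ c ∈ Subgroup.zpowers a := by
  rw [Subgroup.disjoint_def] at n1
  push Not at n1
  obtain ⟨c, hct, hca, hc1⟩ := n1
  have h2 : c ^ l ^ r = 1 := by
    obtain ⟨i, hi⟩ := Subgroup.mem_zpowers_iff.1 hct
    rw [← hi, ← zpow_natCast, ← zpow_mul, mul_comm, zpow_mul, zpow_natCast, h1, one_zpow]
  obtain ⟨j, _, hj⟩ := (Nat.dvd_prime_pow hl).1 (orderOf_dvd_of_pow_eq_one h2)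
  have hj0 : j ≠ 0 := by
    rintro rfl
    rw [pow_zero, orderOf_eq_one_iff] at hj
    exact hc1 hj
  obtain ⟨i, rfl⟩ := Nat.exists_eq_succ_of_ne_zero hj0
  refine ⟨c ^ l ^ i, ?_, Subgroup.pow_mem _ hct _, Subgroup.pow_mem _ hca _⟩
  rw [orderOf_pow_of_dvd (pow_ne_zero _ hl.ne_zero) (by rw [hj]; exact pow_dvd_pow _ (Nat.le_succ i)), hj,
    Nat.pow_div (Nat.le_succ i) hl.pos, Nat.succ_sub (le_refl i), Nat.sub_self, pow_one]

theorem x_cyc {Γ : Type} [CommGroup Γ] [Finite Γ] {l r : ℕ} (hl : l.Prime) {a t₁ t₂ : Γ} (h1 : t₁ ^ l ^ r = 1) (h2 : t₂ ^ l ^ r = 1)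
    (n1 : ¬ Disjoint (Subgroup.zpowers t₁) (Subgroup.zpowers a)) (n2 : ¬ Disjoint (Subgroup.zpowers t₂) (Subgroup.zpowers a)) :
    ¬ Disjoint (Subgroup.zpowers t₁) (Subgroup.zpowers t₂) := by
  obtain ⟨c₁, hc₁, m1, m1'⟩ := x1_ord hl h1 n1
  obtain ⟨c₂, hc₂, m2, m2'⟩ := x1_ord hl h2 n2
  intro hd
  rw [Subgroup.disjoint_def] at hd
  have h3 : c₂ ∈ Subgroup.zpowers c₁ := by
    classical
    haveI : Fintype Γ := Fintype.ofFinite Γ
    have h4 : (Finset.univ.filter fun x : Subgroup.zpowers a => x ^ l = 1).card ≤ l :=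
      IsCyclic.card_pow_eq_one_le hl.pos
    let f : Subgroup.zpowers c₁ → Subgroup.zpowers a := fun x =>
      ⟨x.1, (Subgroup.zpowers_le.2 m1') x.2⟩
    have h5 : (Finset.univ.image f).card = l := by
      rw [Finset.card_image_of_injective]
      · rw [Finset.card_univ, ← Nat.card_eq_fintype_card, Nat.card_zpowers, hc₁]
      · intro x y hxy
        exact Subtype.ext (congrArg (fun z : Subgroup.zpowers a => (z : Γ)) hxy)
    have h6 : Finset.univ.image f ⊆ Finset.univ.filter fun x : Subgroup.zpowers a => x ^ l = 1 := by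
      intro x hx
      obtain ⟨y, _, rfl⟩ := Finset.mem_image.1 hx
      rw [Finset.mem_filter]
      refine ⟨Finset.mem_univ _, Subtype.ext ?_⟩
      show (y : Γ) ^ l = 1
      obtain ⟨i, hi⟩ := Subgroup.mem_zpowers_iff.1 y.2
      rw [← hi, ← zpow_natCast, ← zpow_mul, mul_comm, zpow_mul, zpow_natCast, ← hc₁, pow_orderOf_eq_one, one_zpow]
    have h7 := Finset.eq_of_subset_of_card_le h6 (by rw [h5]; exact h4)
    have h8 : (⟨c₂, m2'⟩ : Subgroup.zpowers a) ∈ Finset.univ.image f := by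
      rw [h7, Finset.mem_filter]
      refine ⟨Finset.mem_univ _, Subtype.ext ?_⟩
      show c₂ ^ l = 1
      rw [← hc₂, pow_orderOf_eq_one]
    obtain ⟨y, _, hy⟩ := Finset.mem_image.1 h8
    have h9 : (y : Γ) = c₂ := congrArg (fun z : Subgroup.zpowers a => (z : Γ)) hy
    rw [← h9]
    exact y.2
  have h4 := hd ((Subgroup.zpowers_le.2 m1) h3) m2
  rw [h4, orderOf_one] at hc₂
  exact hl.one_lt.ne hc₂

end CFT
end

-- from Lib.CFT.X02
section

/-! # CFT X02 (M): the element tau

PROOF. u₁, u₂ and u₁ u₂ have order l^r and the three groups zpowers u₁, zpowers u₂, zpowers (u₁ u₂) are pairwise disjoint: if (u₁ u₂)^j = u₁^i then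
u₂^j = u₁^(i-j) is in both zpowers u₁, zpowers u₂, so u₂^j = 1, l^r divides j, u₁^j = 1 and (u₁ u₂)^j = 1; the same for u₂. ((u₁ u₂)^j = 1 gives u₂^j = u₁^(-j) = 1, so
l^r divides j: the order.) By x_cyc (X01) zpowers a is not disjoint from at most one of the three groups, the same for zpowers b; so one of the three elements is good. -/

namespace CFT

theorem x_tau {Γ : Type} [CommGroup Γ] [Finite Γ] {l r : ℕ} (hl : l.Prime) {u₁ u₂ : Γ} (h1 : orderOf u₁ = l ^ r) (h2 : orderOf u₂ = l ^ r)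
    (hd : Disjoint (Subgroup.zpowers u₁) (Subgroup.zpowers u₂)) (a b : Γ) :
    ∃ τ : Γ, orderOf τ = l ^ r ∧ Disjoint (Subgroup.zpowers τ) (Subgroup.zpowers a) ∧ Disjoint (Subgroup.zpowers τ) (Subgroup.zpowers b) := by
  have key : ∀ {s t : Γ}, orderOf s = l ^ r → orderOf t = l ^ r → Disjoint (Subgroup.zpowers s) (Subgroup.zpowers t) →
      ∀ c : Γ, Disjoint (Subgroup.zpowers s) (Subgroup.zpowers c) ∨ Disjoint (Subgroup.zpowers t) (Subgroup.zpowers c) := by
    intro s t hs ht hst c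
    by_contra hcon
    rw [not_or] at hcon
    exact x_cyc hl (by rw [← hs, pow_orderOf_eq_one]) (by rw [← ht, pow_orderOf_eq_one]) hcon.1 hcon.2 hst
  have h3 : ∀ i j : ℤ, (u₁ * u₂) ^ j = u₁ ^ i → u₂ ^ j = 1 ∧ u₁ ^ j = 1 := by
    intro i j hij
    have e1 : u₂ ^ j = u₁ ^ (i - j) := by
      rw [mul_zpow] at hij
      rw [zpow_sub, ← hij, mul_comm (u₁ ^ j) (u₂ ^ j), mul_assoc, mul_inv_cancel, mul_one]
    rw [Subgroup.disjoint_def] at hd
    have e2 : u₂ ^ j = 1 := by
      apply hd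
      · rw [e1]
        exact Subgroup.zpow_mem_zpowers _ _
      · exact Subgroup.zpow_mem_zpowers _ _
    refine ⟨e2, ?_⟩
    rw [← orderOf_dvd_iff_zpow_eq_one, h1, ← h2, orderOf_dvd_iff_zpow_eq_one]
    exact e2
  have h4 : ∀ i j : ℤ, (u₁ * u₂) ^ j = u₂ ^ i → u₂ ^ j = 1 ∧ u₁ ^ j = 1 := by
    intro i j hij
    have e1 : u₁ ^ j = u₂ ^ (i - j) := by
      rw [mul_zpow] at hij
      rw [zpow_sub, ← hij]
      group
    rw [Subgroup.disjoint_def] at hd
    have e2 : u₁ ^ j = 1 := by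
      apply hd
      · exact Subgroup.zpow_mem_zpowers _ _
      · rw [e1]
        exact Subgroup.zpow_mem_zpowers _ _
    refine ⟨?_, e2⟩
    rw [← orderOf_dvd_iff_zpow_eq_one, h2, ← h1, orderOf_dvd_iff_zpow_eq_one]
    exact e2
  have h5 : orderOf (u₁ * u₂) = l ^ r := by
    apply Nat.dvd_antisymm
    · apply orderOf_dvd_of_pow_eq_one
      rw [mul_pow]
      nth_rewrite 1 [← h1]
      rw [← h2, pow_orderOf_eq_one, pow_orderOf_eq_one, mul_one]
    · have e1 : (u₁ * u₂) ^ (orderOf (u₁ * u₂) : ℤ) = u₁ ^ (0 : ℤ) := by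
        rw [zpow_natCast, pow_orderOf_eq_one, zpow_zero]
      have e2 := (h3 _ _ e1).1
      rw [← h2]
      rw [zpow_natCast] at e2
      exact orderOf_dvd_of_pow_eq_one e2
  have d1 : Disjoint (Subgroup.zpowers u₁) (Subgroup.zpowers (u₁ * u₂)) := by
    rw [Subgroup.disjoint_def]
    intro x hx1 hx2
    obtain ⟨i, hi⟩ := Subgroup.mem_zpowers_iff.1 hx1
    obtain ⟨j, hj⟩ := Subgroup.mem_zpowers_iff.1 hx2
    obtain ⟨e1, e2⟩ := h3 i j (hj.trans hi.symm)
    rw [← hj, mul_zpow, e1, e2, one_mul]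
  have d2 : Disjoint (Subgroup.zpowers u₂) (Subgroup.zpowers (u₁ * u₂)) := by
    rw [Subgroup.disjoint_def]
    intro x hx1 hx2
    obtain ⟨i, hi⟩ := Subgroup.mem_zpowers_iff.1 hx1
    obtain ⟨j, hj⟩ := Subgroup.mem_zpowers_iff.1 hx2
    obtain ⟨e1, e2⟩ := h4 i j (hj.trans hi.symm)
    rw [← hj, mul_zpow, e1, e2, one_mul]
  by_contra hcon
  push Not at hcon
  have g1 := hcon u₁ h1
  have g2 := hcon u₂ h2
  have g3 := hcon (u₁ * u₂) h5
  have k12a := key h1 h2 hd a
  have k12b := key h1 h2 hd b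
  have k13a := key h1 h5 d1 a
  have k13b := key h1 h5 d1 b
  have k23a := key h2 h5 d2 a
  have k23b := key h2 h5 d2 b
  tauto

end CFT
end

-- from Lib.CFT.X03
section

/-! # CFT X03 (M): two independent units modulo q₁ q₂

PROOF. e : (ZMod (q₁ q₂))ˣ ≃* (ZMod q₁)ˣ × (ZMod q₂)ˣ (Units.mapEquiv of ZMod.chineseRemainder, MulEquiv.prodUnits). (ZMod q_i)ˣ is cyclic of order q_i - 1
(ZMod.isCyclic_units_prime, ZMod.card_units), so it has an element w_i of order l^r (orderOf_pow of a generator, exponent (q_i - 1) / l^r). u₁ = e.symm (w₁, 1), u₂ = e.symm (1, w₂). -/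

namespace CFT

theorem x3_elt {q l r : ℕ} (h1 : q.Prime) (d1 : l ^ r ∣ q - 1) : ∃ w : (ZMod q)ˣ, orderOf w = l ^ r := by
  haveI : Fact q.Prime := ⟨h1⟩
  obtain ⟨g, hg⟩ := IsCyclic.exists_generator (α := (ZMod q)ˣ)
  have h2 : orderOf g = q - 1 := by
    rw [orderOf_eq_card_of_forall_mem_zpowers hg, Nat.card_eq_fintype_card, ZMod.card_units]
  have hq1 : 0 < q - 1 := Nat.sub_pos_of_lt h1.one_lt
  refine ⟨g ^ ((q - 1) / l ^ r), ?_⟩
  have h3 : (q - 1) / l ^ r ∣ orderOf g := by
    rw [h2]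
    exact Nat.div_dvd_of_dvd d1
  have h4 : (q - 1) / l ^ r ≠ 0 := (Nat.div_pos (Nat.le_of_dvd hq1 d1) (Nat.pos_of_dvd_of_pos d1 hq1)).ne'
  rw [orderOf_pow_of_dvd h4 h3, h2, Nat.div_div_self d1 hq1.ne']

theorem x_units {q₁ q₂ l r : ℕ} (h1 : q₁.Prime) (h2 : q₂.Prime) (hne : q₁ ≠ q₂) (d1 : l ^ r ∣ q₁ - 1) (d2 : l ^ r ∣ q₂ - 1) :
    ∃ u₁ u₂ : (ZMod (q₁ * q₂))ˣ, orderOf u₁ = l ^ r ∧ orderOf u₂ = l ^ r ∧
      Disjoint (Subgroup.zpowers u₁) (Subgroup.zpowers u₂) := by
  haveI : Fact q₁.Prime := ⟨h1⟩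
  haveI : Fact q₂.Prime := ⟨h2⟩
  have hc : Nat.Coprime q₁ q₂ := (Nat.coprime_primes h1 h2).2 hne
  obtain ⟨w₁, hw₁⟩ := x3_elt h1 d1
  obtain ⟨w₂, hw₂⟩ := x3_elt h2 d2
  let e : (ZMod (q₁ * q₂))ˣ ≃* (ZMod q₁)ˣ × (ZMod q₂)ˣ :=
    (Units.mapEquiv (ZMod.chineseRemainder hc).toMulEquiv).trans MulEquiv.prodUnits
  refine ⟨e.symm (w₁, 1), e.symm (1, w₂), ?_, ?_, ?_⟩
  · rw [MulEquiv.orderOf_eq, Prod.orderOf_mk, orderOf_one, Nat.lcm_one_right, hw₁]
  · rw [MulEquiv.orderOf_eq, Prod.orderOf_mk, orderOf_one, Nat.lcm_one_left, hw₂]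
  · rw [Subgroup.disjoint_def]
    intro x hx1 hx2
    obtain ⟨i, hi⟩ := Subgroup.mem_zpowers_iff.1 hx1
    obtain ⟨j, hj⟩ := Subgroup.mem_zpowers_iff.1 hx2
    have e1 : e x = (w₁ ^ i, 1) := by
      rw [← hi, map_zpow, MulEquiv.apply_symm_apply]
      exact Prod.ext rfl (one_zpow i)
    have e2 : e x = (1, w₂ ^ j) := by
      rw [← hj, map_zpow, MulEquiv.apply_symm_apply]
      exact Prod.ext (one_zpow j) rfl
    have e3 : e x = 1 := by
      refine Prod.ext ?_ ?_
      · rw [e2]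
        rfl
      · rw [e1]
        rfl
    exact (MulEquiv.map_eq_one_iff e).1 e3

end CFT
end

-- from Lib.CFT.X14
section

/-! # CFT X14 (S/M): the group theory of the crossing

PROOF. z = x^i y^j with integers i, j (the set of these products is a subgroup because of hab; or make A a CommGroup and use Subgroup.mem_closure_pair). β x^i = β y^(-j) is in both zpowers, so it is 1:
β x^i = 1 and β y^j = 1, so n divides i and j (orderOf_dvd_iff_zpow_eq_one), α x^i = 1, α y^j = 1. -/

namespace CFT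

theorem x14_pair {A : Type} [Group A] (hab : ∀ a b : A, a * b = b * a) {x y z : A} (hz : z ∈ Subgroup.closure {x, y}) :
    ∃ i j : ℤ, z = x ^ i * y ^ j := by
  refine Subgroup.closure_induction (p := fun z _ => ∃ i j : ℤ, z = x ^ i * y ^ j) ?_ ?_ ?_ ?_ hz
  · intro w hw
    rcases hw with rfl | hw
    · exact ⟨1, 0, by simp⟩
    · rw [Set.mem_singleton_iff] at hw
      subst hw
      exact ⟨0, 1, by simp⟩
  · exact ⟨0, 0, by simp⟩
  · rintro a b _ _ ⟨i, j, rfl⟩ ⟨k, l, rfl⟩
    refine ⟨i + k, j + l, ?_⟩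
    rw [zpow_add, zpow_add, mul_assoc, mul_assoc, ← mul_assoc (y ^ j), hab (y ^ j) (x ^ k), mul_assoc]
  · rintro a _ ⟨i, j, rfl⟩
    refine ⟨-i, -j, ?_⟩
    rw [mul_inv_rev, zpow_neg, zpow_neg]
    exact hab _ _

theorem x_core {A G Δ : Type} [Group A] [Group G] [Group Δ] (hab : ∀ a b : A, a * b = b * a) (α : A →* G) (β : A →* Δ) {n : ℕ}
    (hG : ∀ g : G, g ^ n = 1) {x y : A} (hx : n ∣ orderOf (β x)) (hy : n ∣ orderOf (β y))
    (hd : Disjoint (Subgroup.zpowers (β x)) (Subgroup.zpowers (β y))) {z : A} (hz : z ∈ Subgroup.closure {x, y}) (h1 : β z = 1) :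
    α z = 1 := by
  obtain ⟨i, j, rfl⟩ := x14_pair hab hz
  rw [map_mul, map_zpow, map_zpow] at h1
  have h2 : β x ^ i = (β y ^ j)⁻¹ := eq_inv_of_mul_eq_one_left h1
  have h3 : β x ^ i = 1 := by
    refine (Subgroup.disjoint_def.1 hd) (Subgroup.zpow_mem_zpowers _ _) ?_
    rw [h2]
    exact inv_mem (Subgroup.zpow_mem_zpowers _ _)
  have h4 : β y ^ j = 1 := by
    rw [h3] at h2
    exact inv_eq_one.1 h2.symm
  have hk : ∀ (g : G) (k : ℤ), (n : ℤ) ∣ k → g ^ k = 1 := by
    rintro g k ⟨l, rfl⟩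
    rw [zpow_mul, zpow_natCast, hG, one_zpow]
  have h5 : (n : ℤ) ∣ i := (Int.natCast_dvd_natCast.2 hx).trans (orderOf_dvd_iff_zpow_eq_one.2 h3)
  have h6 : (n : ℤ) ∣ j := (Int.natCast_dvd_natCast.2 hy).trans (orderOf_dvd_iff_zpow_eq_one.2 h4)
  rw [map_mul, map_zpow, map_zpow, hk _ _ h5, hk _ _ h6, one_mul]

end CFT
end

-- from Lib.CFT.Y29B
section

/-! # CFT module Y, chunk Y29B: powers which are all 1 (pure complex analysis) -/

namespace CFTY

/-- PROOF. `|1 + M| ^ (re z) = 1` gives `re z = 0`. Then `exp (i t log (1 + k M)) = 1`, `t = im z`, so `t * log ((1 + (k + 1) M) / (1 + k M))` is in `2 π ℤ` for all `k`;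
it tends to 0, so it is 0 for some `k`, and the logarithm is not 0: `t = 0`. -/
theorem cpow_eq_one {M : ℕ} (hM : 1 ≤ M) {z : ℂ} (h : ∀ k : ℕ, ((1 + k * M : ℕ) : ℂ) ^ z = 1) : z = 0 := by
  have hpos : ∀ k : ℕ, (0 : ℝ) < ((1 + k * M : ℕ) : ℝ) := fun k => by
    have : 0 < 1 + k * M := by omega
    exact_mod_cast this
  have hne : ∀ k : ℕ, ((1 + k * M : ℕ) : ℂ) ≠ 0 := fun k => by
    have := (hpos k).ne'
    exact_mod_cast this
  -- real part
  have hre : z.re = 0 := by
    have h1 := congrArg norm (h 1)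
    rw [Complex.norm_natCast_cpow_of_pos (by omega), norm_one] at h1
    have h2 : (1 : ℝ) < ((1 + 1 * M : ℕ) : ℝ) := by
      have : 1 < 1 + 1 * M := by omega
      exact_mod_cast this
    by_contra hz
    rcases lt_or_gt_of_ne hz with h3 | h3
    · have := Real.rpow_lt_one_of_one_lt_of_neg h2 h3
      linarith
    · have := Real.one_lt_rpow h2 h3
      linarith
  -- logarithms
  have hlog : ∀ k : ℕ, ∃ n : ℤ, z.im * Real.log ((1 + k * M : ℕ) : ℝ) = n * (2 * Real.pi) := by
    intro k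
    have h1 := h k
    rw [Complex.cpow_def_of_ne_zero (hne k), Complex.exp_eq_one_iff] at h1
    obtain ⟨n, hn⟩ := h1
    refine ⟨n, ?_⟩
    have h2 : Complex.log ((1 + k * M : ℕ) : ℂ) = ((Real.log ((1 + k * M : ℕ) : ℝ) : ℝ) : ℂ) := by
      rw [Complex.ofReal_log (hpos k).le, Complex.ofReal_natCast]
    rw [h2] at hn
    have h3 := congrArg Complex.im hn
    simp only [Complex.mul_im, Complex.ofReal_re, Complex.ofReal_im, Complex.mul_re, Complex.intCast_re,
      Complex.intCast_im, Complex.I_re, Complex.I_im, Complex.re_ofNat, Complex.im_ofNat] at h3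
    linarith
  have hdiff : ∀ k : ℕ, ∃ n : ℤ, z.im * (Real.log ((1 + (k + 1) * M : ℕ) : ℝ) - Real.log ((1 + k * M : ℕ) : ℝ))
      = n * (2 * Real.pi) := by
    intro k
    obtain ⟨n1, h1⟩ := hlog (k + 1)
    obtain ⟨n2, h2⟩ := hlog k
    refine ⟨n1 - n2, ?_⟩
    push_cast at h1 h2 ⊢
    linarith
  have hsmall : ∀ k : ℕ, 0 < Real.log ((1 + (k + 1) * M : ℕ) : ℝ) - Real.log ((1 + k * M : ℕ) : ℝ) ∧
      Real.log ((1 + (k + 1) * M : ℕ) : ℝ) - Real.log ((1 + k * M : ℕ) : ℝ) ≤ M / ((1 + k * M : ℕ) : ℝ) := by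
    intro k
    have hM0 : (0 : ℝ) < M := by exact_mod_cast hM
    constructor
    · have : ((1 + k * M : ℕ) : ℝ) < ((1 + (k + 1) * M : ℕ) : ℝ) := by
        push_cast
        nlinarith
      have := Real.log_lt_log (hpos k) this
      linarith
    · rw [← Real.log_div (hpos (k + 1)).ne' (hpos k).ne']
      have h1 := Real.log_le_sub_one_of_pos (div_pos (hpos (k + 1)) (hpos k))
      refine h1.trans (le_of_eq ?_)
      have := (hpos k).ne'
      field_simp
      push_cast
      ring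
  -- find k with |z.im| * M / (1 + k M) < 2 pi
  have him : z.im = 0 := by
    by_contra hz
    obtain ⟨k, hk⟩ := exists_nat_gt (|z.im|)
    have hM0 : (1 : ℝ) ≤ M := by exact_mod_cast hM
    obtain ⟨n, hn⟩ := hdiff k
    obtain ⟨h1, h2⟩ := hsmall k
    have h3 : |z.im| * (Real.log ((1 + (k + 1) * M : ℕ) : ℝ) - Real.log ((1 + k * M : ℕ) : ℝ)) < 2 * Real.pi := by
      have h4 : |z.im| * (M / ((1 + k * M : ℕ) : ℝ)) ≤ 1 := by
        rw [← mul_div_assoc, div_le_one (hpos k)]
        push_cast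
        have : |z.im| * M ≤ k * M := mul_le_mul_of_nonneg_right hk.le (by linarith)
        linarith
      have h5 := mul_le_mul_of_nonneg_left h2 (abs_nonneg z.im)
      have := Real.pi_gt_three
      linarith
    have h6 : |(n : ℝ)| * (2 * Real.pi) < 2 * Real.pi := by
      have h7 : |(n : ℝ) * (2 * Real.pi)| = |(n : ℝ)| * (2 * Real.pi) := by
        rw [abs_mul, abs_of_pos (by positivity : (0 : ℝ) < 2 * Real.pi)]
      rw [← h7, ← hn, abs_mul, abs_of_pos h1]
      exact h3
    have h8 : |(n : ℝ)| < 1 := by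
      have := Real.pi_pos
      by_contra hcon
      rw [not_lt] at hcon
      nlinarith
    have h9 : n = 0 := by
      have : |n| < 1 := by exact_mod_cast h8
      exact Int.abs_lt_one_iff.mp this
    rw [h9] at hn
    simp only [Int.cast_zero, zero_mul, mul_eq_zero] at hn
    rcases hn with h10 | h10
    · exact hz h10
    · exact h1.ne' h10
  exact Complex.ext hre him

end CFTY
end

-- from Lib.H19B.GA
section

/-! # H19B, chunk GA (S/M): indices of additive subgroups (ONLY MATHLIB) -/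

namespace H19B

theorem ga_inj {M N : Type} [AddCommGroup M] (A B : AddSubgroup M) [Finite N] (F : B → N)
    (hj : ∀ b b' : B, F b = F b' → (b : M) - b' ∈ A) : A.relIndex B ≠ 0 ∧ A.relIndex B ≤ Nat.card N := by
  have hinj : Function.Injective (fun x : B ⧸ A.addSubgroupOf B => F x.out) := by
    intro x y hxy
    have h1 := hj x.out y.out hxy
    rw [← QuotientAddGroup.out_eq' x, ← QuotientAddGroup.out_eq' y]
    refine (QuotientAddGroup.eq_iff_sub_mem).2 ?_
    rw [AddSubgroup.mem_addSubgroupOf]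
    exact h1
  have hfin : Finite (B ⧸ A.addSubgroupOf B) := Finite.of_injective _ hinj
  have h2 : A.relIndex B = Nat.card (B ⧸ A.addSubgroupOf B) := rfl
  rw [h2]
  exact ⟨Nat.card_ne_zero.2 ⟨⟨QuotientAddGroup.mk 0⟩, hfin⟩, Nat.card_le_card_of_injective _ hinj⟩

/-- Chunk GA (S). PROOF. The quotient of B by A.addSubgroupOf B: the map b -> f b (b a representative: Quotient.out) with values in the finite set R (as a finite type) is injective by hj, so the quotient is finite with at most card R elements;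
AddSubgroup.relIndex, AddSubgroup.index = Nat.card of the quotient. -/
theorem rel_le {M k : Type} [AddCommGroup M] (A B : AddSubgroup M) (f : M → k) (R : Finset k) (hR : ∀ b ∈ B, f b ∈ R)
    (hj : ∀ b ∈ B, ∀ b' ∈ B, f b = f b' → b - b' ∈ A) : A.relIndex B ≠ 0 ∧ A.relIndex B ≤ R.card := by
  have h := ga_inj A B (N := {x : k // x ∈ R}) (fun b => ⟨f b, hR b b.2⟩)
    (fun b b' hb => hj b b.2 b' b'.2 (Subtype.ext_iff.1 hb))
  rw [Nat.card_eq_fintype_card, Fintype.card_coe] at h
  exact h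

/-- Chunk GA (S). The other inequality. PROOF. r : Fin m -> M gives an injective map Fin m -> B / A. -/
theorem rel_ge {M : Type} [AddCommGroup M] (A B : AddSubgroup M) (hf : A.relIndex B ≠ 0) {m : ℕ} (r : Fin m → M) (hr : ∀ i, r i ∈ B)
    (hj : ∀ i i', r i - r i' ∈ A → i = i') : m ≤ A.relIndex B := by
  have h2 : A.relIndex B = Nat.card (B ⧸ A.addSubgroupOf B) := rfl
  rw [h2] at hf ⊢
  have hfin : Finite (B ⧸ A.addSubgroupOf B) := Nat.finite_of_card_ne_zero hf
  have hinj : Function.Injective (fun i : Fin m => ((⟨r i, hr i⟩ : B) : B ⧸ A.addSubgroupOf B)) := by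
    intro i j hij
    have h3 := (QuotientAddGroup.eq_iff_sub_mem).1 hij
    rw [AddSubgroup.mem_addSubgroupOf] at h3
    exact hj i j h3
  have h4 := Nat.card_le_card_of_injective _ hinj
  rw [Nat.card_eq_fintype_card, Fintype.card_fin] at h4
  exact h4

/-- Chunk GA (S). PROOF. Choose representatives of the cosets of A in B, apply g and the projection to B' / A': injective. Or rel_le with k = M' ⧸ A' and R = the (finite) image of B'. -/
theorem rel_map {M M' : Type} [AddCommGroup M] [AddCommGroup M'] (A B : AddSubgroup M) (A' B' : AddSubgroup M') (g : M → M')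
    (hg : ∀ b ∈ B, g b ∈ B') (hj : ∀ b ∈ B, ∀ b' ∈ B, g b - g b' ∈ A' → b - b' ∈ A) (hf : A'.relIndex B' ≠ 0) :
    A.relIndex B ≠ 0 ∧ A.relIndex B ≤ A'.relIndex B' := by
  have h2 : A'.relIndex B' = Nat.card (B' ⧸ A'.addSubgroupOf B') := rfl
  rw [h2] at hf ⊢
  have hfin : Finite (B' ⧸ A'.addSubgroupOf B') := Nat.finite_of_card_ne_zero hf
  refine ga_inj A B (N := B' ⧸ A'.addSubgroupOf B') (fun b => ((⟨g b, hg b b.2⟩ : B') : B' ⧸ A'.addSubgroupOf B')) (fun b b' hb => ?_)
  have h3 := (QuotientAddGroup.eq_iff_sub_mem).1 hb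
  rw [AddSubgroup.mem_addSubgroupOf] at h3
  exact hj b b.2 b' b'.2 h3

/-- Chunk GA (S/M). A decreasing chain. PROOF. Induction on k: AddSubgroup.relIndex_mul_relIndex (A (k+1)) (A k) (A 0). -/
theorem rel_chain {M : Type} [AddCommGroup M] (A : ℕ → AddSubgroup M) (hA : Antitone A) (c : ℕ → ℕ) (k : ℕ)
    (h : ∀ i < k, (A (i + 1)).relIndex (A i) ≠ 0 ∧ (A (i + 1)).relIndex (A i) ≤ c i) :
    (A k).relIndex (A 0) ≠ 0 ∧ (A k).relIndex (A 0) ≤ ∏ i ∈ Finset.range k, c i := by
  induction k with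
  | zero =>
    rw [AddSubgroup.relIndex_self]
    exact ⟨one_ne_zero, le_of_eq (by simp)⟩
  | succ k ih =>
    obtain ⟨h1, h2⟩ := ih fun i hi => h i (Nat.lt_succ_of_lt hi)
    obtain ⟨h3, h4⟩ := h k (Nat.lt_succ_self k)
    rw [← AddSubgroup.relIndex_mul_relIndex (A (k + 1)) (A k) (A 0) (hA (Nat.le_succ k)) (hA (Nat.zero_le k)),
      Finset.prod_range_succ]
    refine ⟨mul_ne_zero h3 h1, ?_⟩
    rw [mul_comm]
    exact Nat.mul_le_mul h2 h4

end H19B
end

-- from Lib.H19B.GB
section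

/-! # H19B, chunk GB (M): counting with filtrations, surjectivity (ONLY MATHLIB) -/

namespace H19B


/-- Chunk GB (M). PROOF. K = {P in E | g P in A} is a subgroup (hadd: g (P - P') = g P - g P' modulo A; g 0 in A from P = P'), and P -> class of g P is an injective homomorphism of E / K to B / A (A ≤ B). So K.relIndex E ≠ 0 and K.relIndex E ≤ A.relIndex B ≤ m (rel_map), and
m ≤ K.relIndex E (hE). So the image of E / K in the finite set B / A has at least A.relIndex B elements: the map is surjective. -/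
theorem surj_index {M M' : Type} [AddCommGroup M] [AddCommGroup M'] (E : AddSubgroup M) (A B : AddSubgroup M') (hAB : A ≤ B) (g : M → M')
    (hg : ∀ P ∈ E, g P ∈ B) (hadd : ∀ P ∈ E, ∀ P' ∈ E, g (P - P') - (g P - g P') ∈ A) {m : ℕ} (hf : A.relIndex B ≠ 0)
    (hm : A.relIndex B ≤ m) (hE : ∀ K : AddSubgroup M, (∀ P ∈ K, P ∈ E ∧ g P ∈ A) → K.relIndex E ≠ 0 → m ≤ K.relIndex E)
    (c : M') (hc : c ∈ B) : ∃ P ∈ E, c - g P ∈ A := by
  classical
  have hz : g 0 ∈ A := by
    have h1 := hadd 0 E.zero_mem 0 E.zero_mem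
    rwa [sub_zero, sub_self, sub_zero] at h1
  have hng : ∀ P ∈ E, g P ∈ A → g (-P) ∈ A := by
    intro P hP hgP
    have h1 := hadd 0 E.zero_mem P hP
    rw [zero_sub] at h1
    have h2 := A.add_mem h1 (A.sub_mem hz hgP)
    rwa [sub_add_cancel] at h2
  let K : AddSubgroup M :=
    { carrier := {P | P ∈ E ∧ g P ∈ A}
      zero_mem' := ⟨E.zero_mem, hz⟩
      add_mem' := by
        rintro P P' ⟨h1, h2⟩ ⟨h3, h4⟩
        refine ⟨E.add_mem h1 h3, ?_⟩
        have h5 := hadd P h1 (-P') (E.neg_mem h3)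
        rw [sub_neg_eq_add] at h5
        have h6 := A.add_mem h5 (A.sub_mem h2 (hng P' h3 h4))
        rwa [sub_add_cancel] at h6
      neg_mem' := by
        rintro P ⟨h1, h2⟩
        exact ⟨E.neg_mem h1, hng P h1 h2⟩ }
  have hj : ∀ b ∈ E, ∀ b' ∈ E, g b - g b' ∈ A → b - b' ∈ K := by
    intro b hb b' hb' h1
    refine ⟨E.sub_mem hb hb', ?_⟩
    have h2 := A.add_mem (hadd b hb b' hb') h1
    rwa [sub_add_cancel] at h2
  have h1 := rel_map K E A B g hg hj hf
  have h2 : m ≤ K.relIndex E := hE K (fun P hP => hP) h1.1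
  have hle : A.relIndex B ≤ K.relIndex E := hm.trans h2
  have hfi : (A.addSubgroupOf B).FiniteIndex := ⟨hf⟩
  have hfin2 : Finite (B ⧸ A.addSubgroupOf B) := AddSubgroup.finite_quotient_of_finiteIndex
  let φ : (E ⧸ K.addSubgroupOf E) → (B ⧸ A.addSubgroupOf B) := fun x =>
    QuotientAddGroup.mk (⟨g (Quotient.out x : E), hg _ (Quotient.out x : E).2⟩ : B)
  have hφ : Function.Injective φ := by
    intro x x' hx
    have h3 := QuotientAddGroup.eq.1 hx
    have h4 : -g (Quotient.out x : E) + g (Quotient.out x' : E) ∈ A := h3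
    have h5 : g (Quotient.out x' : E) - g (Quotient.out x : E) ∈ A := by
      rw [sub_eq_neg_add]
      exact h4
    have h6 := hj _ (Quotient.out x' : E).2 _ (Quotient.out x : E).2 h5
    rw [← QuotientAddGroup.out_eq' x, ← QuotientAddGroup.out_eq' x']
    apply QuotientAddGroup.eq.2
    show -((Quotient.out x : E) : M) + ((Quotient.out x' : E) : M) ∈ K
    rw [← sub_eq_neg_add]
    exact h6
  have hbij := hφ.bijective_of_nat_card_le hle
  obtain ⟨x, hx⟩ := hbij.2 (QuotientAddGroup.mk (⟨c, hc⟩ : B))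
  have h3 := QuotientAddGroup.eq.1 hx
  refine ⟨(Quotient.out x : E), (Quotient.out x : E).2, ?_⟩
  have h4 : -g (Quotient.out x : E) + c ∈ A := h3
  rw [sub_eq_neg_add]
  exact h4

end H19B
end

-- from Lib.H19B.NC
section

/-! # H19B, chunk NC (S/M): counting exponents (ONLY MATHLIB) -/

namespace H19B

/-- Chunk NC (S/M). The number of exponents i with 0 < i, i (p-1) < e p, p not dividing i, is e. PROOF. k is the largest integer with k (p-1) < e p. Product of a constant over a filtered range: Finset.prod_ite, Finset.prod_const; the number of i < k with p not dividing i + 1 is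
k - k / p (Nat.card_multiples or Nat.count, Finset.card of multiples of p in Ioc 0 k: Nat.Ioc_filter_dvd_card_eq_div; p divides i + 1 for k / p values). k - k / p = e: write e = (p-1) a + b with 0 ≤ b < p - 1. If b > 0: k = largest with k (p-1) < p (p-1) a + p b, and p b = (p-1) b + b with 0 < b < p - 1,
so k = p a + b, k / p = a (b < p), k - k / p = (p - 1) a + b = e. If b = 0: k = p a - 1, k / p = a - 1 (a > 0), k - k / p = (p-1) a = e. (The hypotheses hk1, hk2 say that k is the largest integer with this property.) -/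
theorem prod_count {p q e k : ℕ} (hp : 2 < p) (he : 0 < e) (hk1 : k * (p - 1) < e * p) (hk2 : e * p ≤ (k + 1) * (p - 1)) :
    ∏ i ∈ Finset.range k, (if p ∣ i + 1 then 1 else q) = q ^ e := by
  have h0 := Finset.card_filter_add_card_filter_not (s := Finset.range k) (fun i => p ∣ i + 1)
  rw [Nat.card_multiples, Finset.card_range] at h0
  rw [Finset.prod_ite, Finset.prod_const_one, one_mul, Finset.prod_const]
  have hk := Nat.div_add_mod k p
  have hr : k % p < p := Nat.mod_lt _ (by omega)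
  generalize k / p = m at *
  generalize k % p = r at *
  generalize (Finset.filter (fun i => ¬ p ∣ i + 1) (Finset.range k)).card = c at *
  obtain ⟨P, rfl⟩ : ∃ P, p = P + 1 := ⟨p - 1, by omega⟩
  rw [Nat.add_sub_cancel] at hk1 hk2
  have hc : c = P * m + r := by
    have h1 : (P + 1) * m = P * m + m := by ring
    omega
  subst hc
  subst hk
  congr 1
  apply le_antisymm
  · by_contra hlt
    push Not at hlt
    nlinarith
  · by_contra hlt
    push Not at hlt
    nlinarith

end H19B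
end

-- from Lib.SSG.V.V2
section

/-! # SSG, part V: unitriangular families

Chunk V2 (S). PROOF. If sum c_i w_i = 0 with c ≠ 0 let i be the least index with c_i ≠ 0: the coefficient of v_i in sum c_j w_j = c_i (v.repr: w_j - v_j is in the span of the v_l, l > j, so (v.repr (w_j)) i = 0 for
j > i and = 1 for j = i; the terms with j < i have c_j = 0). Or: the matrix of w in the basis v is upper unitriangular, its determinant is 1 (Matrix.det_of_upperTriangular), so w is a basis. For Module.Basis use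
Module.Basis.mem_span_image / Module.Basis.repr_support_subset_of_mem_span. -/

namespace SSG.V

theorem v2_coord {k : Type} [Field k] {n : ℕ} {V : Type} [AddCommGroup V] [Module k V] (v : Module.Basis (Fin n) k V)
    {x : V} {j : Fin n} (hx : x ∈ Submodule.span k (v '' {l | j < l})) {i : Fin n} (hi : i ≤ j) : v.repr x i = 0 := by
  have h1 := v.repr_support_subset_of_mem_span _ hx
  by_contra h
  have h2 : i ∈ ({l | j < l} : Set (Fin n)) := h1 (Finsupp.mem_support_iff.2 h)
  exact absurd h2 (not_lt.2 hi)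

theorem unitri {k : Type} [Field k] {n : ℕ} {V : Type} [AddCommGroup V] [Module k V] (v : Module.Basis (Fin n) k V)
    (w : Fin n → V) (hw : ∀ i, w i - v i ∈ Submodule.span k (v '' {j | i < j})) : LinearIndependent k w := by
  classical
  rw [Fintype.linearIndependent_iff]
  intro g hg i
  induction i using WellFoundedLT.induction with
  | _ i ih =>
    have h1 : v.repr (∑ j, g j • w j) i = 0 := by
      rw [hg, map_zero]
      rfl
    rw [map_sum, Finsupp.finsetSum_apply, Finset.sum_eq_single i] at h1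
    · rw [map_smul, Finsupp.smul_apply, smul_eq_mul] at h1
      have h2 : v.repr (w i) i = 1 := by
        have h3 := v2_coord v (hw i) (le_refl i)
        rw [map_sub, Finsupp.sub_apply, Module.Basis.repr_self, Finsupp.single_eq_same] at h3
        exact sub_eq_zero.1 h3
      rw [h2, mul_one] at h1
      exact h1
    · intro j _ hj
      rw [map_smul, Finsupp.smul_apply, smul_eq_mul]
      rcases lt_or_gt_of_ne hj with h | h
      · rw [ih j h, zero_mul]
      · have h3 := v2_coord v (hw j) h.le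
        rw [map_sub, Finsupp.sub_apply, Module.Basis.repr_self, Finsupp.single_eq_of_ne hj.symm, sub_zero] at h3
        rw [h3, mul_zero]
    · intro h
      exact absurd (Finset.mem_univ i) h

end SSG.V
end

-- from Lib.H16D.A9
section

/-! # H16D, chunk A9: (M) the norm of 1 + z in a Galois extension of prime degree -/

open NumberField IsDedekindDomain

namespace H16D

open Pointwise in
theorem a9_free {G X M : Type} [Group G] [Fintype G] [DecidableEq G] [MulAction G X] [DecidableEq X] [AddCommMonoid M] (F : X → M) (S : Finset X)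
    (hS : ∀ (g : G), ∀ x ∈ S, g • x ∈ S) (hf : ∀ (g : G), ∀ x ∈ S, g • x = x → g = 1) :
    ∃ R : Finset X, R ⊆ S ∧ ∑ x ∈ S, F x = ∑ r ∈ R, ∑ g : G, F (g • r) := by
  induction S using Finset.strongInductionOn with
  | _ S ih =>
    rcases S.eq_empty_or_nonempty with h0 | ⟨x, hx⟩
    · refine ⟨∅, Finset.empty_subset _, ?_⟩
      rw [h0, Finset.sum_empty, Finset.sum_empty]
    · have hO : (Finset.univ.image fun g : G => g • x) ⊆ S := by
        intro y hy
        obtain ⟨g, -, rfl⟩ := Finset.mem_image.1 hy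
        exact hS g x hx
      have hxO : x ∈ Finset.univ.image fun g : G => g • x := Finset.mem_image.2 ⟨1, Finset.mem_univ _, one_smul _ _⟩
      have hlt : S \ (Finset.univ.image fun g : G => g • x) ⊂ S := by
        refine Finset.ssubset_iff_subset_ne.2 ⟨Finset.sdiff_subset, ?_⟩
        intro h
        have h2 := hx
        rw [← h, Finset.mem_sdiff] at h2
        exact h2.2 hxO
      obtain ⟨R, hR1, hR2⟩ := ih _ hlt (by
        intro g y hy
        rw [Finset.mem_sdiff] at hy ⊢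
        refine ⟨hS g y hy.1, ?_⟩
        intro h
        obtain ⟨k, -, hk⟩ := Finset.mem_image.1 h
        refine hy.2 (Finset.mem_image.2 ⟨g⁻¹ * k, Finset.mem_univ _, ?_⟩)
        show (g⁻¹ * k) • x = y
        rw [mul_smul, hk, inv_smul_smul]) (by
        intro g y hy h
        exact hf g y (Finset.mem_sdiff.1 hy).1 h)
      have hxR : x ∉ R := fun h => (Finset.mem_sdiff.1 (hR1 h)).2 hxO
      refine ⟨insert x R, Finset.insert_subset hx (hR1.trans Finset.sdiff_subset), ?_⟩
      rw [Finset.sum_insert hxR, ← hR2, ← Finset.sum_sdiff hO, add_comm]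
      refine congrArg₂ (· + ·) ?_ rfl
      rw [Finset.sum_image]
      intro g _ k _ hgk
      have h1 : (k⁻¹ * g) • x = x := by
        rw [mul_smul]
        rw [show g • x = k • x from hgk, inv_smul_smul]
      exact (inv_mul_eq_one.1 (hf _ x hx h1)).symm

open Pointwise in
theorem a9_act {G : Type} [Group G] [Fintype G] [DecidableEq G] (hG : (Nat.card G).Prime) (g : G) (X : Finset G) (h0 : X.Nonempty) (h1 : X ≠ Finset.univ)
    (h : g • X = X) : g = 1 := by
  haveI : Fact (Nat.card G).Prime := ⟨hG⟩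
  rcases (MulAction.stabilizer G X).eq_bot_or_eq_top_of_prime_card with h2 | h2
  · have h3 : g ∈ MulAction.stabilizer G X := h
    rw [h2] at h3
    exact Subgroup.mem_bot.1 h3
  · refine absurd ?_ h1
    obtain ⟨x, hx⟩ := h0
    refine Finset.eq_univ_iff_forall.2 fun y => ?_
    have h3 : y * x⁻¹ ∈ MulAction.stabilizer G X := by
      rw [h2]
      exact Subgroup.mem_top _
    have h4 : (y * x⁻¹) • X = X := h3
    rw [← h4]
    refine Finset.mem_smul_finset.2 ⟨x, hx, ?_⟩
    rw [smul_eq_mul, inv_mul_cancel_right]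

open Pointwise in
theorem a9_prod {K L : Type} [Field K] [Field L] [Algebra K L] [DecidableEq (L ≃ₐ[K] L)] (z : L) (g : L ≃ₐ[K] L) (X : Finset (L ≃ₐ[K] L)) :
    ∏ s ∈ g • X, s z = g (∏ s ∈ X, s z) := by
  rw [Finset.smul_finset_def, Finset.prod_image, map_prod]
  · rfl
  · intro a _ b _ hab
    exact mul_left_cancel hab

open Pointwise in
/-- PROOF. G = Gal(L/K) has p elements (IsGalois.card_aut_eq_finrank). N(1 + z) = prod_s (1 + s z) (Algebra.norm_eq_prod_automorphisms) = sum over the subsets X of G of P(X) = prod_{s in X} s z (Finset.prod_one_add or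
Finset.prod_add). X = ∅ gives 1, X = G gives N z. Let Ω be the subtype (or Finset) of the other X. G acts on Ω by left translation (g X = X.image (g * ·); in Mathlib Finset has the pointwise action, open Pointwise) and P(g X) = g (P X). The action is free: the stabilizer of X is a subgroup of the
group G of prime order, so 1 or G (e.g. Subgroup of a group of prime order: Subgroup.eq_bot_or_eq_top_of_prime_card); if it is G and X is nonempty then X = G. Choose a representative o.out for every orbit o: (o, g) ↦ g • o.out is a bijection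
from (orbits) × G to Ω, so the sum of P over Ω is the sum over o and g of g (P (o.out)) = trace of y, y = sum_o P(o.out) (Algebra.trace_eq_sum_automorphisms or similar name). V (P X) = product of V (s z) = V z ^ card X
<= V z as card X >= 1 and V z <= 1; so V y <= V z (Valuation.map_sum_le).
(Another way: G is cyclic, generated by σ; the same with subsets of ZMod p.) -/
theorem fo1 {K L : Type} [Field K] [Field L] [Algebra K L] [FiniteDimensional K L] [IsGalois K L] {p : ℕ} (hp : p.Prime) (hd : Module.finrank K L = p)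
    {Γ : Type} [LinearOrderedCommGroupWithZero Γ] (V : Valuation L Γ) (hV : ∀ (s : L ≃ₐ[K] L) (x : L), V (s x) = V x) (z : L) (hz : V z ≤ 1) :
    ∃ y : L, V y ≤ V z ∧ Algebra.norm K (1 + z) = 1 + Algebra.trace K L y + Algebra.norm K z := by
  classical
  have hG : (Nat.card (L ≃ₐ[K] L)).Prime := by
    rw [IsGalois.card_aut_eq_finrank, hd]
    exact hp
  have hne : (Finset.univ : Finset (L ≃ₐ[K] L)) ≠ ∅ := Finset.univ_nonempty.ne_empty
  obtain ⟨R, hR1, hR2⟩ := a9_free (G := L ≃ₐ[K] L) (fun X : Finset (L ≃ₐ[K] L) => ∏ s ∈ X, s z)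
    (((Finset.univ : Finset (L ≃ₐ[K] L)).powerset.erase ∅).erase Finset.univ) (by
      intro g X hX
      rw [Finset.mem_erase, Finset.mem_erase] at hX ⊢
      refine ⟨?_, ?_, Finset.mem_powerset.2 (Finset.subset_univ _)⟩
      · intro h
        apply hX.1
        rw [← inv_smul_smul g X, h, Finset.smul_finset_univ]
      · intro h
        apply hX.2.1
        rw [← inv_smul_smul g X, h, Finset.smul_finset_empty]) (by
      intro g X hX h
      rw [Finset.mem_erase, Finset.mem_erase] at hX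
      exact a9_act hG g X (Finset.nonempty_iff_ne_empty.2 hX.2.1) hX.1 h)
  refine ⟨∑ r ∈ R, ∏ s ∈ r, s z, ?_, ?_⟩
  · refine Valuation.map_sum_le V fun r hr => ?_
    have h1 := hR1 hr
    rw [Finset.mem_erase, Finset.mem_erase] at h1
    rw [map_prod, Finset.prod_congr rfl fun s _ => hV s z, Finset.prod_const]
    exact pow_le_of_le_one zero_le hz (Finset.card_ne_zero.2 (Finset.nonempty_iff_ne_empty.2 h1.2.1))
  · apply (algebraMap K L).injective
    have e1 : algebraMap K L (Algebra.norm K (1 + z)) = ∑ X ∈ (Finset.univ : Finset (L ≃ₐ[K] L)).powerset, ∏ s ∈ X, s z := by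
      rw [Algebra.norm_eq_prod_automorphisms, ← Finset.prod_one_add]
      refine Finset.prod_congr rfl fun s _ => ?_
      rw [map_add, map_one]
    have e2 : ∑ X ∈ (Finset.univ : Finset (L ≃ₐ[K] L)).powerset, ∏ s ∈ X, s z
        = (∏ s ∈ (∅ : Finset (L ≃ₐ[K] L)), s z) + ((∏ s ∈ (Finset.univ : Finset (L ≃ₐ[K] L)), s z) +
          ∑ X ∈ ((Finset.univ : Finset (L ≃ₐ[K] L)).powerset.erase ∅).erase Finset.univ, ∏ s ∈ X, s z) := by
      have h1 := Finset.add_sum_erase ((Finset.univ : Finset (L ≃ₐ[K] L)).powerset.erase ∅) (fun X : Finset (L ≃ₐ[K] L) => ∏ s ∈ X, s z)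
        (Finset.mem_erase.2 ⟨hne, Finset.mem_powerset.2 (Finset.subset_univ _)⟩)
      have h2 := Finset.add_sum_erase (Finset.univ : Finset (L ≃ₐ[K] L)).powerset (fun X : Finset (L ≃ₐ[K] L) => ∏ s ∈ X, s z)
        (Finset.mem_powerset.2 (Finset.empty_subset _))
      rw [h1, h2]
    rw [e1, e2, hR2, Finset.prod_empty, map_add, map_add, map_one, Algebra.norm_eq_prod_automorphisms, trace_eq_sum_automorphisms]
    have e3 : ∑ r ∈ R, ∑ g : L ≃ₐ[K] L, ∏ s ∈ g • r, s z = ∑ g : L ≃ₐ[K] L, g (∑ r ∈ R, ∏ s ∈ r, s z) := by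
      rw [Finset.sum_comm]
      refine Finset.sum_congr rfl fun g _ => ?_
      rw [map_sum]
      exact Finset.sum_congr rfl fun r _ => a9_prod z g r
    rw [e3]
    ring

end H16D
end

-- from Lib.H16D.B1
section

/-! # H16D, chunk B1: (S/M) the norm on the layers below the break -/

open NumberField IsDedekindDomain

namespace H16D

open CFT

variable {K : Type} [Field K] [NumberField K] {L : Type} [Field L] [NumberField L] [Algebra K L]

/-- PROOF. V = w.valuation L; fo1 (A9) (hz: exp(-n) <= 1): y with V y <= exp(-n), N(1+z) - 1 - N z = Tr y, whose valuation at v is <= exp(-((n + (p-1)(t+1)) / p)) by hT; and n + 1 <= (n + (p-1)(t+1)) / p because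
p (n + 1) <= n + (p-1)(t+1): with p = m + 1, m >= 1: (m+1)(n+1) = n + m n + m + 1 <= n + m (t + 1) as m (t + 1) >= m (n + 2) = m n + 2 m >= m n + m + 1 (hn: n + 1 <= t). -/
theorem la1 [IsGalois K L] {p : ℕ} (hp : p.Prime) (hd : Module.finrank K L = p) (w : Pr L) (v : Pr K)
    (hV : ∀ (s : L ≃ₐ[K] L) (x : L), w.valuation L (s x) = w.valuation L x) {t : ℕ}
    (hT : ∀ (y : L) (j : ℕ), w.valuation L y ≤ WithZero.exp (-(j : ℤ)) →
      v.valuation K (Algebra.trace K L y) ≤ WithZero.exp (-(((j + (p - 1) * (t + 1)) / p : ℕ) : ℤ)))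
    {n : ℕ} (hn : n + 1 ≤ t) (z : L) (hz : w.valuation L z ≤ WithZero.exp (-(n : ℤ))) :
    v.valuation K (Algebra.norm K (1 + z) - 1 - Algebra.norm K z) ≤ WithZero.exp (-((n + 1 : ℕ) : ℤ)) := by
  obtain ⟨y, hy, hN⟩ := fo1 hp hd (w.valuation L) hV z (hz.trans (CFT.exp_le_one n))
  have e1 : Algebra.norm K (1 + z) - 1 - Algebra.norm K z = Algebra.trace K L y := by
    rw [hN]
    ring
  rw [e1]
  refine (hT y n (hy.trans hz)).trans ?_
  rw [WithZero.exp_le_exp]
  have h2 : n + 1 ≤ (n + (p - 1) * (t + 1)) / p := by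
    rw [Nat.le_div_iff_mul_le hp.pos]
    obtain ⟨m, hm⟩ : ∃ m, p = m + 2 := ⟨p - 2, by have := hp.two_le; omega⟩
    rw [hm]
    have e2 : m + 2 - 1 = m + 1 := by omega
    rw [e2]
    nlinarith [Nat.zero_le (m * (t - (n + 1))), Nat.mul_le_mul_left m hn]
  omega

end H16D
end

-- from Lib.H19B.GC
section

/-! # H19B, chunk GC (M): counting with a filtration and a subgroup (ONLY MATHLIB) -/

namespace H19B

theorem gc_aux {M : Type} [AddCommGroup M] (A : ℕ → AddSubgroup M) (hA : Antitone A) {q : ℕ}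
    (h : ∀ i, (A (i + 1)).relIndex (A i) = q) (K : AddSubgroup M) (hK0 : K ≤ A 0) (hKf : K.relIndex (A 0) ≠ 0)
    (g : ℕ → Prop) [DecidablePred g] (k : ℕ) (hK : ∀ i < k, g i → ∀ x ∈ K, x ∈ A i → x ∈ A (i + 1)) :
    ∏ i ∈ Finset.range k, (if g i then q else 1) ≤ (K ⊔ A k).relIndex (A 0) := by
  induction k with
  | zero =>
    rw [sup_eq_right.2 hK0, AddSubgroup.relIndex_self]
    simp
  | succ k ih =>
    have h1 := ih fun i hi => hK i (Nat.lt_succ_of_lt hi)
    have hle : K ⊔ A (k + 1) ≤ K ⊔ A k := sup_le_sup_left (hA (Nat.le_succ k)) K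
    have hle0 : K ⊔ A k ≤ A 0 := sup_le hK0 (hA (Nat.zero_le k))
    have hmul := AddSubgroup.relIndex_mul_relIndex (K ⊔ A (k + 1)) (K ⊔ A k) (A 0) hle hle0
    have hne : (K ⊔ A (k + 1)).relIndex (A 0) ≠ 0 := by
      intro h0
      exact hKf (AddSubgroup.relIndex_eq_zero_of_le_left le_sup_left h0)
    have hne2 : (K ⊔ A (k + 1)).relIndex (K ⊔ A k) ≠ 0 := by
      intro h0
      rw [h0, zero_mul] at hmul
      exact hne hmul.symm
    rw [Finset.prod_range_succ, ← hmul, mul_comm]
    refine Nat.mul_le_mul ?_ h1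
    by_cases hg : g k
    · rw [if_pos hg, ← h k]
      refine (rel_map (A (k + 1)) (A k) (K ⊔ A (k + 1)) (K ⊔ A k) id
        (fun b hb => AddSubgroup.mem_sup_right hb) ?_ hne2).2
      intro b hb b' hb' hbb
      obtain ⟨x, hx, y, hy, hxy⟩ := AddSubgroup.mem_sup.1 hbb
      have hxy' : x + y = b - b' := hxy
      have hyk : y ∈ A k := hA (Nat.le_succ k) hy
      have hxe : x = (b - b') - y := by rw [← hxy']; abel
      have hxk : x ∈ A k := by
        rw [hxe]
        exact AddSubgroup.sub_mem _ (AddSubgroup.sub_mem _ hb hb') hyk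
      have hx1 := hK k (Nat.lt_succ_self k) hg x hx hxk
      rw [← hxy']
      exact AddSubgroup.add_mem _ hx1 hy
    · rw [if_neg hg]
      exact Nat.one_le_iff_ne_zero.2 hne2

/-- Chunk GC (M). PROOF. Replace K by K ⊓ A 0 (AddSubgroup.inf_relIndex_right). B i = K ⊔ A i (for K ≤ A 0), decreasing, B 0 = A 0, K ≤ B k. Induction on k: the product over i < k is ≤ (B k).relIndex (B 0), which is not 0 since K ≤ B k and K.relIndex (A 0) ≠ 0. Step: (B (k+1)).relIndex (B 0) =
(B (k+1)).relIndex (B k) * (B k).relIndex (B 0) (AddSubgroup.relIndex_mul_relIndex), and (B (k+1)).relIndex (B k) ≥ 1, and ≥ q if g k: rel_ge with q representatives r of A k / A (k+1) (or rel_map: A (k+1) ≤ A k, the map A k -> B k: for a, b in A k with a - b in B (k+1): a - b = x + y, x in K, y in A (k+1) ≤ A k, so x = (a - b) - y is in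
K and in A k, hence in A (k+1) by hK, and a - b in A (k+1); so (A (k+1)).relIndex (A k) ≤ (B (k+1)).relIndex (B k)). Finally (B k).relIndex (B 0) ≤ K.relIndex (A 0). -/
theorem count_filt {M : Type} [AddCommGroup M] (A : ℕ → AddSubgroup M) (hA : Antitone A) {q : ℕ} (hq : 0 < q)
    (h : ∀ i, (A (i + 1)).relIndex (A i) = q) (K : AddSubgroup M) (hKf : K.relIndex (A 0) ≠ 0) (g : ℕ → Prop) [DecidablePred g] (k : ℕ)
    (hK : ∀ i < k, g i → ∀ x ∈ K, x ∈ A i → x ∈ A (i + 1)) :
    ∏ i ∈ Finset.range k, (if g i then q else 1) ≤ K.relIndex (A 0) := by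
  have _ := hq
  have h1 := gc_aux A hA h (K ⊓ A 0) inf_le_right (by rw [AddSubgroup.inf_relIndex_right]; exact hKf) g k
    (fun i hi hg x hx hxi => hK i hi hg x hx.1 hxi)
  refine h1.trans ?_
  rw [← AddSubgroup.inf_relIndex_right K (A 0)]
  refine AddSubgroup.relIndex_le_of_le_left le_sup_left ?_
  rw [AddSubgroup.inf_relIndex_right]
  exact hKf

end H19B
end

-- from Lib.H35M.PA1
section

/-! # H35M, chunk PA1 (M): primitive additive characters of the quotients of O_K -/

open NumberField IsDedekindDomain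

namespace H35M

variable {K : Type} [Field K] [NumberField K]

/-- Chunk PA1a (S/M). PROOF. R = O/v^n, n > 0 (n = 0: R is trivial, any character is primitive). Take z in v^(n-1), not in v^n (v^n < v^(n-1)), and ψ with ψ(mk z) <> 1 (AddChar.exists_apply_ne_zero, mk z <> 0). Let a <> 0 in R, a = mk x, x not
in v^n: the ideal (x) + v^n is v^i with i < n (Ideal divisors of v^n: it divides v^n), so it contains z: z = x y + v^n-element, ψ(a mk y) = ψ(mk z) <> 1. -/
theorem prim_pp (v : HeightOneSpectrum (𝓞 K)) (n : ℕ) : ∃ ψ : AddChar (𝓞 K ⧸ v.asIdeal ^ n) ℂ, ψ.IsPrimitive := by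
  rcases Nat.eq_zero_or_pos n with rfl | hn
  · refine ⟨1, fun a ha => ?_⟩
    exfalso
    apply ha
    obtain ⟨x, rfl⟩ := Ideal.Quotient.mk_surjective a
    rw [Ideal.Quotient.eq_zero_iff_mem, pow_zero, Ideal.one_eq_top]
    trivial
  · have h1 : v.asIdeal ^ n < v.asIdeal ^ (n - 1) := Ideal.pow_right_strictAnti v.asIdeal v.ne_bot v.isPrime.ne_top (by omega)
    obtain ⟨z, hz1, hz2⟩ := SetLike.exists_of_lt h1
    have hz3 : Ideal.Quotient.mk (v.asIdeal ^ n) z ≠ 0 := by
      rw [Ne, Ideal.Quotient.eq_zero_iff_mem]; exact hz2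
    have : Finite (𝓞 K ⧸ v.asIdeal ^ n) := Ideal.finiteQuotientOfFreeOfNeBot _ (pow_ne_zero n v.ne_bot)
    obtain ⟨ψ, hψ⟩ := AddChar.exists_apply_ne_zero.2 hz3
    refine ⟨ψ, fun a ha hc => ?_⟩
    obtain ⟨x, rfl⟩ := Ideal.Quotient.mk_surjective a
    rw [Ne, Ideal.Quotient.eq_zero_iff_mem] at ha
    have h2 : (Ideal.span {x} ⊔ v.asIdeal ^ n) ∣ v.asIdeal ^ n := Ideal.dvd_iff_le.2 le_sup_right
    obtain ⟨i, hi, hi2⟩ := (dvd_prime_pow v.prime n).1 h2
    rw [associated_iff_eq] at hi2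
    have h3 : i ≤ n - 1 := by
      by_contra h4
      have h5 : i = n := by omega
      subst h5
      apply ha
      rw [← hi2]
      exact Ideal.mem_sup_left (Ideal.mem_span_singleton_self x)
    have h4 : z ∈ Ideal.span {x} ⊔ v.asIdeal ^ n := by
      rw [hi2]
      exact Ideal.pow_le_pow_right h3 hz1
    obtain ⟨s, hs, t, ht, hst⟩ := Submodule.mem_sup.1 h4
    obtain ⟨y, rfl⟩ := Ideal.mem_span_singleton.1 hs
    apply hψ
    have h6 := DFunLike.congr_fun hc (Ideal.Quotient.mk (v.asIdeal ^ n) y)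
    rw [AddChar.mulShift_apply, AddChar.one_apply, ← map_mul] at h6
    rw [← h6, ← hst, map_add, Ideal.Quotient.eq_zero_iff_mem.2 ht, add_zero]

/-- Chunk PA1b (S/M). PROOF. For coprime ideals let ψ(x) = ψ1(x mod f) ψ2(x mod g) (Ideal.Quotient.factor). a <> 0 in O/(f g): a = mk x, x not in f g = f ⊓ g, say x not in f: there is y with ψ1(x y) <> 1 (IsPrimitive, mk x <> 0); choose
y' = y mod f, y' = 0 mod g (CRT: IsCoprime): ψ(x y') = ψ1(x y) <> 1. -/
theorem prim_mul {f g : Ideal (𝓞 K)} (h : IsCoprime f g) (h1 : ∃ ψ : AddChar (𝓞 K ⧸ f) ℂ, ψ.IsPrimitive)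
    (h2 : ∃ ψ : AddChar (𝓞 K ⧸ g) ℂ, ψ.IsPrimitive) : ∃ ψ : AddChar (𝓞 K ⧸ f * g) ℂ, ψ.IsPrimitive := by
  obtain ⟨ψ1, h1⟩ := h1
  obtain ⟨ψ2, h2⟩ := h2
  let e := Ideal.quotientMulEquivQuotientProd f g h
  refine ⟨ψ1.compAddMonoidHom ((RingHom.fst _ _).comp e.toRingHom).toAddMonoidHom *
    ψ2.compAddMonoidHom ((RingHom.snd _ _).comp e.toRingHom).toAddMonoidHom, fun a ha hc => ?_⟩
  have hv : ∀ z : 𝓞 K ⧸ f * g, ψ1 ((e a).1 * (e z).1) * ψ2 ((e a).2 * (e z).2) = 1 := by
    intro z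
    have h6 := DFunLike.congr_fun hc z
    rw [AddChar.mulShift_apply, AddChar.one_apply, AddChar.mul_apply] at h6
    simpa using h6
  have hea : e a ≠ 0 := by
    intro h0
    exact ha ((map_eq_zero_iff e e.injective).1 h0)
  by_cases h3 : (e a).1 = 0
  · have h4 : (e a).2 ≠ 0 := fun h4 => hea (Prod.ext h3 h4)
    apply h2 h4
    ext y
    rw [AddChar.mulShift_apply, AddChar.one_apply]
    have := hv (e.symm (0, y))
    simpa using this
  · apply h1 h3
    ext y
    rw [AddChar.mulShift_apply, AddChar.one_apply]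
    have := hv (e.symm (y, 0))
    simpa using this

/-- Chunk PA1c (S). Induction on T (PA1a, PA1b); or use the factorisation of a nonzero ideal. -/
theorem prim_fT (T : Finset (HeightOneSpectrum (𝓞 K))) (a : HeightOneSpectrum (𝓞 K) → ℕ) :
    ∃ ψ : AddChar (𝓞 K ⧸ fT T a) ℂ, ψ.IsPrimitive := by
  classical
  induction T using Finset.induction_on with
  | empty =>
    refine ⟨1, fun a ha => ?_⟩
    exfalso
    apply ha
    obtain ⟨x, rfl⟩ := Ideal.Quotient.mk_surjective a
    rw [Ideal.Quotient.eq_zero_iff_mem, fT, Finset.prod_empty, Ideal.one_eq_top]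
    trivial
  | insert v T hv ih =>
    have hT : fT (insert v T) a = v.asIdeal ^ a v * fT T a := by
      rw [fT, Finset.prod_insert hv, fT]
    rw [hT]
    refine prim_mul ?_ (prim_pp v (a v)) ih
    rw [fT]
    refine IsCoprime.prod_right fun w hw => ?_
    refine IsCoprime.pow ?_
    have hvw : v ≠ w := by rintro rfl; exact hv hw
    rw [Ideal.isCoprime_iff_sup_eq]
    refine Ideal.IsMaximal.coprime_of_ne v.isMaximal w.isMaximal ?_
    intro h
    exact hvw (HeightOneSpectrum.ext h)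

end H35M
end
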