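import Mathlib
import Pool.Agent.Lib.H1M.PP2.D_H55P_Defs
import Pool.Agent.Lib.H1M.PP2.M009
import Pool.Agent.Lib.H1M.PP2.M048
import Pool.Agent.Lib.H1M.PP2.M054

/-! Merged copies (to shorten the build) of Lib.H41D.Defs, Lib.H41D.P2, Lib.H41D.P1, Lib.H41D.P3, Lib.H41D.P4, Lib.H41D.P5, Lib.H41D.P6, Lib.H41D.P7, Lib.H41D.P8. -/

-- from Lib.H41D.Defs
section

/-!
# H41D: relative differents and discriminants at a place above p (definitions and simple facts, no sorry)

Setting: F imaginary quadratic of class number one, K a finite extension, V a valuation subring of the complex numbers.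
-/

open NumberField IsDedekindDomain

namespace H41D

open H55P

/-- The size at V of the relative norm to F of an ideal. -/
noncomputable def vN (F : Type) [Field F] [NumberField F] [IQ F] {K : Type} [Field K] [NumberField K] [Algebra F K]
    (V : ValuationSubring ℂ) (a : Ideal (𝓞 K)) : V.ValueGroup :=
  V.valuation (eF F (Submodule.IsPrincipal.generator (Ideal.relNorm (𝓞 F) a)))

/-- The size at V of the complex conjugate of the relative norm to F of an ideal. -/
noncomputable def vNc (F : Type) [Field F] [NumberField F] [IQ F] {K : Type} [Field K] [NumberField K] [Algebra F K]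
    (V : ValuationSubring ℂ) (a : Ideal (𝓞 K)) : V.ValueGroup :=
  V.valuation ((starRingEnd ℂ) (eF F (Submodule.IsPrincipal.generator (Ideal.relNorm (𝓞 F) a))))

variable {F : Type} [Field F] [NumberField F] [IQ F] {K : Type} [Field K] [NumberField K] [Algebra F K]

theorem val_int (V : ValuationSubring ℂ) {z : ℂ} (hz : IsIntegral ℤ z) : V.valuation z ≤ 1 := by
  rw [V.valuation_le_one_iff]
  have h1 : IsIntegral V z := hz.tower_top
  obtain ⟨y, hy⟩ := IsIntegrallyClosed.isIntegral_iff.1 h1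
  rw [← hy]
  exact y.2

theorem val_emb (V : ValuationSubring ℂ) (σ : K →+* ℂ) (x : 𝓞 K) : V.valuation (σ x) ≤ 1 :=
  val_int V (map_isIntegral_int σ x.2)

theorem val_embc (V : ValuationSubring ℂ) (σ : K →+* ℂ) (x : 𝓞 K) : V.valuation ((starRingEnd ℂ) (σ x)) ≤ 1 :=
  val_int V (map_isIntegral_int (starRingEnd ℂ) (map_isIntegral_int σ x.2))

theorem val_eF (V : ValuationSubring ℂ) (x : 𝓞 F) : V.valuation (eF F x) ≤ 1 := val_emb V (embF F) x

theorem val_eFc (V : ValuationSubring ℂ) (x : 𝓞 F) : V.valuation ((starRingEnd ℂ) (eF F x)) ≤ 1 := val_embc V (embF F) x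

theorem val_unit (V : ValuationSubring ℂ) {x : 𝓞 F} (hx : IsUnit x) : V.valuation (eF F x) = 1 := by
  obtain ⟨u, rfl⟩ := hx
  refine le_antisymm (val_eF V _) ?_
  have h : V.valuation (eF F (u : 𝓞 F)) * V.valuation (eF F ((u⁻¹ : (𝓞 F)ˣ) : 𝓞 F)) = 1 := by
    rw [← map_mul, ← map_mul, Units.mul_inv, map_one, map_one]
  by_contra hlt
  push Not at hlt
  have h2 := mul_lt_one_of_lt_of_le hlt (val_eF V ((u⁻¹ : (𝓞 F)ˣ) : 𝓞 F))
  rw [h] at h2
  exact lt_irrefl _ h2

theorem val_unitc (V : ValuationSubring ℂ) {x : 𝓞 F} (hx : IsUnit x) : V.valuation ((starRingEnd ℂ) (eF F x)) = 1 := by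
  obtain ⟨u, rfl⟩ := hx
  refine le_antisymm (val_eFc V _) ?_
  have h : V.valuation ((starRingEnd ℂ) (eF F (u : 𝓞 F))) *
      V.valuation ((starRingEnd ℂ) (eF F ((u⁻¹ : (𝓞 F)ˣ) : 𝓞 F))) = 1 := by
    rw [← map_mul, ← map_mul, ← map_mul, Units.mul_inv, map_one, map_one, map_one]
  by_contra hlt
  push Not at hlt
  have h2 := mul_lt_one_of_lt_of_le hlt (val_eFc V ((u⁻¹ : (𝓞 F)ˣ) : 𝓞 F))
  rw [h] at h2
  exact lt_irrefl _ h2

/-- The generator may be replaced by any other one. -/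
theorem gen_assoc {a : Ideal (𝓞 F)} {g : 𝓞 F} (h : a = Ideal.span {g}) : Associated (Submodule.IsPrincipal.generator a) g := by
  rw [← Ideal.span_singleton_eq_span_singleton, ← h]
  exact Submodule.IsPrincipal.span_singleton_generator a

theorem val_gen (V : ValuationSubring ℂ) {a : Ideal (𝓞 F)} {g : 𝓞 F} (h : a = Ideal.span {g}) :
    V.valuation (eF F (Submodule.IsPrincipal.generator a)) = V.valuation (eF F g) := by
  obtain ⟨u, hu⟩ := gen_assoc h
  rw [← hu, map_mul, map_mul, val_unit V u.isUnit, mul_one]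

theorem val_genc (V : ValuationSubring ℂ) {a : Ideal (𝓞 F)} {g : 𝓞 F} (h : a = Ideal.span {g}) :
    V.valuation ((starRingEnd ℂ) (eF F (Submodule.IsPrincipal.generator a))) = V.valuation ((starRingEnd ℂ) (eF F g)) := by
  obtain ⟨u, hu⟩ := gen_assoc h
  rw [← hu, map_mul, map_mul, map_mul, val_unitc V u.isUnit, mul_one]

theorem vN_le (V : ValuationSubring ℂ) (a : Ideal (𝓞 K)) : vN F V a ≤ 1 := val_eF V _


theorem vN_eq (V : ValuationSubring ℂ) {a : Ideal (𝓞 K)} {g : 𝓞 F} (h : Ideal.relNorm (𝓞 F) a = Ideal.span {g}) :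
    vN F V a = V.valuation (eF F g) := val_gen V h

theorem vNc_eq (V : ValuationSubring ℂ) {a : Ideal (𝓞 K)} {g : 𝓞 F} (h : Ideal.relNorm (𝓞 F) a = Ideal.span {g}) :
    vNc F V a = V.valuation ((starRingEnd ℂ) (eF F g)) := val_genc V h

theorem exists_gen (a : Ideal (𝓞 K)) : ∃ g : 𝓞 F, Ideal.relNorm (𝓞 F) a = Ideal.span {g} :=
  ⟨_, (Submodule.IsPrincipal.span_singleton_generator (Ideal.relNorm (𝓞 F) a)).symm⟩

theorem vN_mul (V : ValuationSubring ℂ) (a b : Ideal (𝓞 K)) : vN F V (a * b) = vN F V a * vN F V b := by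
  obtain ⟨g, hg⟩ := exists_gen (F := F) a
  obtain ⟨h, hh⟩ := exists_gen (F := F) b
  rw [vN_eq V hg, vN_eq V hh, vN_eq V (g := g * h) (by rw [map_mul, hg, hh, Ideal.span_singleton_mul_span_singleton]), map_mul, map_mul]

theorem vNc_mul (V : ValuationSubring ℂ) (a b : Ideal (𝓞 K)) : vNc F V (a * b) = vNc F V a * vNc F V b := by
  obtain ⟨g, hg⟩ := exists_gen (F := F) a
  obtain ⟨h, hh⟩ := exists_gen (F := F) b
  rw [vNc_eq V hg, vNc_eq V hh, vNc_eq V (g := g * h) (by rw [map_mul, hg, hh, Ideal.span_singleton_mul_span_singleton]), map_mul, map_mul,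
    map_mul]

theorem vN_top (V : ValuationSubring ℂ) : vN F V (⊤ : Ideal (𝓞 K)) = 1 := by
  rw [vN_eq V (g := 1) (by rw [Ideal.relNorm_top, Ideal.span_singleton_one]), map_one, map_one]

theorem vNc_top (V : ValuationSubring ℂ) : vNc F V (⊤ : Ideal (𝓞 K)) = 1 := by
  rw [vNc_eq V (g := 1) (by rw [Ideal.relNorm_top, Ideal.span_singleton_one]), map_one, map_one, map_one]

theorem vN_pow (V : ValuationSubring ℂ) (a : Ideal (𝓞 K)) (n : ℕ) : vN F V (a ^ n) = vN F V a ^ n := by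
  induction n with
  | zero => rw [pow_zero, pow_zero, Ideal.one_eq_top, vN_top]
  | succ n ih => rw [pow_succ, pow_succ, vN_mul, ih]

theorem vNc_pow (V : ValuationSubring ℂ) (a : Ideal (𝓞 K)) (n : ℕ) : vNc F V (a ^ n) = vNc F V a ^ n := by
  induction n with
  | zero => rw [pow_zero, pow_zero, Ideal.one_eq_top, vNc_top]
  | succ n ih => rw [pow_succ, pow_succ, vNc_mul, ih]


theorem eF_ne {x : 𝓞 F} (hx : x ≠ 0) : eF F x ≠ 0 := by
  intro h
  apply hx
  apply RingOfIntegers.coe_injective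
  rw [map_zero]
  exact (map_eq_zero (embF F)).1 h




/-- Principal ideals. -/
theorem vN_span (V : ValuationSubring ℂ) {m : ℕ} {σ : Fin (m + 1) → K →+* ℂ} (hσ : Emb F σ) (x : 𝓞 K) :
    vN F V (Ideal.span {x}) = V.valuation (∏ i, σ i x) := by
  have := a1_fin hσ.fin
  rw [vN_eq V (Ideal.relNorm_singleton (R := 𝓞 F) x), norm_eq hσ]
  congr 1
  show embF F (algebraMap (𝓞 F) F (Algebra.intNorm (𝓞 F) (𝓞 K) x)) = _
  rw [Algebra.algebraMap_intNorm (A := 𝓞 F) (K := F) (L := K) (B := 𝓞 K)]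

end H41D
end

-- from Lib.H41D.P2
section

/-! # H41D, P2: determinants of embeddings -/

open NumberField IsDedekindDomain Matrix

namespace H41D

open H55P

variable {F : Type} [Field F] [NumberField F] [IQ F] {K : Type} [Field K] [NumberField K] [Algebra F K] {m : ℕ}

/-- The determinant of the embeddings of a family. -/
noncomputable def dl (σ : Fin (m + 1) → K →+* ℂ) (ω : Fin (m + 1) → K) : ℂ := Matrix.det (Matrix.of fun i s => σ i (ω s))

theorem dl_mul (σ : Fin (m + 1) → K →+* ℂ) (ω : Fin (m + 1) → K) (x : K) :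
    dl σ (fun s => x * ω s) = (∏ i, σ i x) * dl σ ω := by
  unfold dl
  have h : (Matrix.of fun i s => σ i (x * ω s)) = Matrix.of (fun i s => (σ i x) * (Matrix.of fun i s => σ i (ω s)) i s) := by
    ext i s
    simp [map_mul]
  rw [h, Matrix.det_mul_column]

theorem dl_dual {σ : Fin (m + 1) → K →+* ℂ} (hσ : Emb F σ) (ω ω' : Fin (m + 1) → K)
    (h : ∀ j k, Algebra.trace F K (ω j * ω' k) = if j = k then 1 else 0) : dl σ ω * dl σ ω' = 1 := by
  unfold dl
  rw [← Matrix.det_transpose, ← Matrix.det_mul]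
  have h1 : (Matrix.of fun i s => σ i (ω s))ᵀ * (Matrix.of fun i s => σ i (ω' s)) = 1 := by
    ext j k
    rw [Matrix.mul_apply]
    have h2 : ∀ i, (Matrix.of fun i s => σ i (ω s))ᵀ j i * (Matrix.of fun i s => σ i (ω' s)) i k = σ i (ω j * ω' k) := by
      intro i
      simp [map_mul]
    rw [Finset.sum_congr rfl fun i _ => h2 i, trace_eq hσ, h, Matrix.one_apply]
    split_ifs <;> simp
  rw [h1, Matrix.det_one]

theorem dl_rep {σ : Fin (m + 1) → K →+* ℂ} (hσ : Emb F σ) (x ω : Fin (m + 1) → K) (A : Fin (m + 1) → Fin (m + 1) → 𝓞 F)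
    (h : ∀ s, x s = ∑ t, algebraMap F K (A s t : F) * ω t) :
    dl σ x = eF F (Matrix.det (Matrix.of fun s t => A s t)) * dl σ ω := by
  unfold dl
  rw [(eF F).map_det, mul_comm, ← Matrix.det_transpose ((eF F).mapMatrix _), ← Matrix.det_mul]
  congr 1
  ext i s
  rw [Matrix.mul_apply]
  show σ i (x s) = _
  rw [h s, map_sum]
  refine Finset.sum_congr rfl fun t _ => ?_
  rw [map_mul, hσ.ovr, mul_comm]
  rfl

theorem val_dl_rep (V : ValuationSubring ℂ) {σ : Fin (m + 1) → K →+* ℂ} (hσ : Emb F σ) (x ω : Fin (m + 1) → K)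
    (h : ∀ s, ∃ a : Fin (m + 1) → 𝓞 F, x s = ∑ t, algebraMap F K (a t : F) * ω t) :
    V.valuation (dl σ x) ≤ V.valuation (dl σ ω) := by
  choose A hA using h
  rw [dl_rep hσ x ω A hA, map_mul]
  exact mul_le_of_le_one_left' (val_eF V _)


end H41D
end

-- from Lib.H41D.P1
section

/-! # H41D, P1: elements and ideals prime to the prime below V -/

open NumberField IsDedekindDomain

namespace H41D

open H55P

variable {F : Type} [Field F] [NumberField F] [IQ F] {K : Type} [Field K] [NumberField K] [Algebra F K]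

theorem val_lt_iff (V : ValuationSubring ℂ) {π : 𝓞 F} (hπ : Prime π) (hV : V.valuation (eF F π) < 1) (x : 𝓞 F) :
    V.valuation (eF F x) < 1 ↔ π ∣ x := by
  constructor
  · intro hx
    by_contra hdvd
    have hco : IsCoprime π x := (Prime.coprime_iff_not_dvd hπ).2 hdvd
    obtain ⟨a, b, hab⟩ := hco
    have h1 : V.valuation (eF F (a * π + b * x)) < 1 := by
      rw [map_add, map_mul, map_mul]
      refine lt_of_le_of_lt (V.valuation.map_add _ _) (max_lt ?_ ?_)
      · rw [map_mul, mul_comm]; exact mul_lt_one_of_lt_of_le hV (val_eF V a)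
      · rw [map_mul, mul_comm]; exact mul_lt_one_of_lt_of_le hx (val_eF V b)
    rw [hab, map_one, map_one] at h1
    exact lt_irrefl _ h1
  · rintro ⟨y, rfl⟩
    rw [map_mul, map_mul]
    exact mul_lt_one_of_lt_of_le hV (val_eF V y)

theorem val_eq_one_iff (V : ValuationSubring ℂ) {π : 𝓞 F} (hπ : Prime π) (hV : V.valuation (eF F π) < 1) (x : 𝓞 F) :
    V.valuation (eF F x) = 1 ↔ ¬ π ∣ x := by
  rw [← val_lt_iff V hπ hV, not_lt]
  exact ⟨fun h => h.ge, fun h => le_antisymm (val_eF V x) h⟩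

/-- An element of 1 + π O_K has norm of size 1. -/
theorem val_norm_one (V : ValuationSubring ℂ) {π : 𝓞 F} (hV : V.valuation (eF F π) < 1) {m : ℕ} {σ : Fin (m + 1) → K →+* ℂ}
    (hσ : Emb F σ) (y : 𝓞 K) : V.valuation (∏ i, σ i ((1 + algebraMap (𝓞 F) (𝓞 K) π * y : 𝓞 K) : K)) = 1 := by
  rw [map_prod]
  refine Finset.prod_eq_one fun i _ => ?_
  have h1 : σ i ((1 + algebraMap (𝓞 F) (𝓞 K) π * y : 𝓞 K) : K) = 1 + eF F π * σ i (y : K) := by
    have h2 : ((1 + algebraMap (𝓞 F) (𝓞 K) π * y : 𝓞 K) : K) = 1 + algebraMap F K (π : F) * (y : K) := rfl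
    rw [h2, map_add, map_one, map_mul, hσ.ovr]
    rfl
  rw [h1]
  have h3 : V.valuation (eF F π * σ i (y : K)) < 1 := by
    rw [map_mul]
    exact mul_lt_one_of_lt_of_le hV (val_emb V (σ i) y)
  have h4 := V.valuation.map_add_eq_of_lt_right (x := eF F π * σ i (y : K)) (y := 1) (by rw [map_one]; exact h3)
  rw [add_comm, h4, map_one]

/-- Ideals prime to π have norm of size 1. -/
theorem vN_cop (V : ValuationSubring ℂ) {π : 𝓞 F} (hV : V.valuation (eF F π) < 1) {C : Ideal (𝓞 K)}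
    (hC : C ⊔ Ideal.span {algebraMap (𝓞 F) (𝓞 K) π} = ⊤) : vN F V C = 1 := by
  have : FiniteDimensional F K := Module.Finite.of_restrictScalars_finite ℚ F K
  obtain ⟨m, hm⟩ : ∃ m, Module.finrank F K = m + 1 := ⟨Module.finrank F K - 1, by
    have := Module.finrank_pos (R := F) (M := K)
    omega⟩
  obtain ⟨σ, hσ⟩ := emb_exists K m hm
  obtain ⟨c, hc, d, hd, hcd⟩ := Submodule.mem_sup.1 (hC ▸ Submodule.mem_top : (1 : 𝓞 K) ∈ C ⊔ Ideal.span {algebraMap (𝓞 F) (𝓞 K) π})
  obtain ⟨y, rfl⟩ := Ideal.mem_span_singleton.1 hd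
  have hc1 : c = 1 + algebraMap (𝓞 F) (𝓞 K) π * (-y) := by linear_combination hcd
  obtain ⟨E, hE⟩ := Ideal.dvd_iff_le.2 ((Ideal.span_singleton_le_iff_mem (I := C)).2 hc)
  have h1 : vN F V C * vN F V E = 1 := by
    rw [← vN_mul, ← hE, vN_span V hσ, hc1]
    exact val_norm_one V hV hσ (-y)
  refine le_antisymm (vN_le V C) ?_
  by_contra hlt
  push Not at hlt
  have h2 := mul_lt_one_of_lt_of_le hlt (vN_le (F := F) V E)
  rw [h1] at h2
  exact lt_irrefl _ h2

end H41D
end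

-- from Lib.H41D.P3
section

/-! # H41D, P3: the discriminant of an integral basis is the norm of the different -/

open NumberField IsDedekindDomain

namespace H41D

open H55P

variable {F : Type} [Field F] [NumberField F] [IQ F] {K : Type} [Field K] [NumberField K] [Algebra F K] {m : ℕ}

theorem fone_ne {K : Type} [Field K] [NumberField K] : (1 : FractionalIdeal (nonZeroDivisors (𝓞 K)) K) ≠ 0 := one_ne_zero

theorem diff_ne : differentIdeal (𝓞 F) (𝓞 K) ≠ ⊥ := differentIdeal_ne_bot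

/-- An element of D generating D up to an ideal prime to J. -/
theorem exists_loc_gen {D J : Ideal (𝓞 K)} (hD : D ≠ ⊥) (hJ : J ≠ ⊥) :
    ∃ (x : 𝓞 K) (C : Ideal (𝓞 K)), x ≠ 0 ∧ Ideal.span {x} = D * C ∧ C ⊔ J = ⊤ := by
  obtain ⟨x, hx⟩ := IsDedekindDomain.exists_sup_span_eq (I := D * J) (J := D) Ideal.mul_le_left (mul_ne_zero hD hJ)
  have hxD : x ∈ D := by
    rw [← hx]
    exact Ideal.mem_sup_right (Ideal.mem_span_singleton_self x)
  by_cases h0 : x = 0
  · have h1 : D * J = D * ⊤ := by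
      rw [h0, Ideal.span_singleton_eq_bot.2 rfl, sup_bot_eq] at hx
      rw [hx, Ideal.mul_top]
    have h2 : J = ⊤ := mul_left_cancel₀ (show D ≠ 0 from hD) h1
    obtain ⟨y, hy, hy0⟩ := Submodule.exists_mem_ne_zero_of_ne_bot hD
    obtain ⟨C, hC⟩ := Ideal.dvd_iff_le.2 ((Ideal.span_singleton_le_iff_mem (I := D)).2 hy)
    exact ⟨y, C, hy0, hC, by rw [h2, sup_top_eq]⟩
  · obtain ⟨C, hC⟩ := Ideal.dvd_iff_le.2 ((Ideal.span_singleton_le_iff_mem (I := D)).2 hxD)
    refine ⟨x, C, h0, hC, ?_⟩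
    have h1 : D * (C ⊔ J) = D * ⊤ := by
      rw [Ideal.mul_sup, Ideal.mul_top, ← hC, sup_comm, hx]
    exact mul_left_cancel₀ (show D ≠ 0 from hD) h1

/-- The different and the dual of the integers: integrality of x y for x in the different, y in the dual. -/
theorem diff_mul_int {x : 𝓞 K} (hx : x ∈ differentIdeal (𝓞 F) (𝓞 K)) (y : K)
    (hy : ∀ b : 𝓞 K, ∃ z : 𝓞 F, Algebra.trace F K (y * b) = (z : F)) : ∃ z : 𝓞 K, (x : K) * y = z := by
  have h1 : y ∈ FractionalIdeal.dual (𝓞 F) F (1 : FractionalIdeal (nonZeroDivisors (𝓞 K)) K) := by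
    rw [FractionalIdeal.mem_dual fone_ne]
    intro a ha
    obtain ⟨b, rfl⟩ := (FractionalIdeal.mem_one_iff _).1 ha
    obtain ⟨z, hz⟩ := hy b
    exact ⟨z, hz.symm⟩
  have h2 : (x : K) ∈ (FractionalIdeal.dual (𝓞 F) F (1 : FractionalIdeal (nonZeroDivisors (𝓞 K)) K))⁻¹ := by
    rw [← coeIdeal_differentIdeal (𝓞 F) F K (𝓞 K)]
    exact (FractionalIdeal.mem_coeIdeal _).2 ⟨x, hx, rfl⟩
  have h3 := FractionalIdeal.mul_mem_mul h2 h1
  rw [inv_mul_cancel₀ (FractionalIdeal.dual_ne_zero (𝓞 F) F fone_ne)] at h3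
  obtain ⟨z, hz⟩ := (FractionalIdeal.mem_one_iff _).1 h3
  exact ⟨z, hz.symm⟩

theorem diff_dual {x : 𝓞 K} (hx0 : x ≠ 0) {C : Ideal (𝓞 K)} (hx : Ideal.span {x} = differentIdeal (𝓞 F) (𝓞 K) * C) {c : 𝓞 K}
    (hc : c ∈ C) (b : 𝓞 K) : ∃ z : 𝓞 F, Algebra.trace F K ((c : K) / x * b) = (z : F) := by
  have hxK : (x : K) ≠ 0 := fun h => hx0 (RingOfIntegers.coe_injective (h.trans (map_zero _).symm))
  have h0 : (differentIdeal (𝓞 F) (𝓞 K) : FractionalIdeal (nonZeroDivisors (𝓞 K)) K) ≠ 0 := by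
    rw [Ne, FractionalIdeal.coeIdeal_eq_zero]
    exact diff_ne
  have h1 : (c : K) / x ∈ FractionalIdeal.dual (𝓞 F) F (1 : FractionalIdeal (nonZeroDivisors (𝓞 K)) K) := by
    have h2 : FractionalIdeal.dual (𝓞 F) F (1 : FractionalIdeal (nonZeroDivisors (𝓞 K)) K) =
        (differentIdeal (𝓞 F) (𝓞 K) : FractionalIdeal (nonZeroDivisors (𝓞 K)) K)⁻¹ := by
      rw [coeIdeal_differentIdeal (𝓞 F) F K (𝓞 K), inv_inv]
    rw [h2, FractionalIdeal.mem_inv_iff h0]
    intro y hy
    obtain ⟨d, hd, rfl⟩ := (FractionalIdeal.mem_coeIdeal _).1 hy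
    have h3 : d * c ∈ Ideal.span {x} := by
      rw [hx]
      exact Ideal.mul_mem_mul hd hc
    obtain ⟨z, hz⟩ := Ideal.mem_span_singleton.1 h3
    refine (FractionalIdeal.mem_one_iff _).2 ⟨z, ?_⟩
    have h4 := congrArg (algebraMap (𝓞 K) K) hz
    rw [map_mul, map_mul] at h4
    rw [div_mul_eq_mul_div, eq_div_iff hxK]
    show algebraMap (𝓞 K) K z * algebraMap (𝓞 K) K x = algebraMap (𝓞 K) K c * _
    rw [mul_comm, ← h4, mul_comm]
  rw [FractionalIdeal.mem_dual fone_ne] at h1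
  obtain ⟨z, hz⟩ := h1 (b : K) ((FractionalIdeal.mem_one_iff _).2 ⟨b, rfl⟩)
  exact ⟨z, hz.symm⟩

end H41D
end

-- from Lib.H41D.P4
section

/-! # H41D, P4: V(det σ_i(ω_s))^2 = V(N D) for an integral basis ω -/

open NumberField IsDedekindDomain

namespace H41D

open H55P

variable {F : Type} [Field F] [NumberField F] [IQ F] {K : Type} [Field K] [NumberField K] [Algebra F K] {m : ℕ}

/-- ω is an integral basis of K over F. -/
def IBas (F : Type) [Field F] [NumberField F] [IQ F] {K : Type} [Field K] [NumberField K] [Algebra F K] {m : ℕ}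
    (ω : Fin (m + 1) → 𝓞 K) : Prop :=
  ∀ x : 𝓞 K, ∃ y : Fin (m + 1) → 𝓞 F, x = ∑ j, algebraMap (𝓞 F) (𝓞 K) (y j) * ω j

/-- The dual family. -/
def Dual (F : Type) [Field F] [NumberField F] [IQ F] {K : Type} [Field K] [NumberField K] [Algebra F K] {m : ℕ}
    (ω : Fin (m + 1) → K) (ω' : Fin (m + 1) → K) : Prop :=
  ∀ j k, Algebra.trace F K (ω j * ω' k) = if j = k then 1 else 0

theorem ibas_exists (hm : Module.finrank F K = m + 1) : ∃ ω : Fin (m + 1) → 𝓞 K, IBas F ω := by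
  obtain ⟨β, -, h2, -⟩ := pl1_basis hm (⊤ : Ideal (𝓞 K)) top_ne_bot
  exact ⟨β, fun x => h2 x Submodule.mem_top⟩

theorem ibas_of_basis (b : Module.Basis (Fin (m + 1)) (𝓞 F) (𝓞 K)) : IBas F b := by
  intro x
  refine ⟨fun j => b.repr x j, ?_⟩
  have h := b.sum_repr x
  rw [← h]
  refine Finset.sum_congr rfl fun j _ => ?_
  rw [b.sum_repr, Algebra.smul_def]

theorem coe_sum {ι : Type} (s : Finset ι) (f : ι → 𝓞 K) : ((∑ i ∈ s, f i : 𝓞 K) : K) = ∑ i ∈ s, (f i : K) :=
  map_sum (algebraMap (𝓞 K) K) f s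

theorem coe_rep (ω : Fin (m + 1) → 𝓞 K) (y : Fin (m + 1) → 𝓞 F) :
    ((∑ j, algebraMap (𝓞 F) (𝓞 K) (y j) * ω j : 𝓞 K) : K) = ∑ j, algebraMap F K (y j : F) * (ω j : K) := by
  rw [coe_sum]
  rfl

theorem ibas_dual (hm : Module.finrank F K = m + 1) {ω : Fin (m + 1) → 𝓞 K} (h : IBas F ω) :
    ∃ ω' : Fin (m + 1) → K, Dual F (fun j => (ω j : K)) ω' := by
  have := a1_fin hm
  obtain ⟨β, -, -, hli⟩ := pl1_basis hm (⊤ : Ideal (𝓞 K)) top_ne_bot
  have hsp : ⊤ ≤ Submodule.span F (Set.range fun j => (ω j : K)) := by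
    have h1 : (⊤ : Submodule F K) = Submodule.span F (Set.range fun j => (β j : K)) := by
      have := (basisOfLinearIndependentOfCardEqFinrank hli (by rw [hm, Fintype.card_fin])).span_eq
      rw [coe_basisOfLinearIndependentOfCardEqFinrank] at this
      exact this.symm
    rw [h1, Submodule.span_le]
    rintro _ ⟨j, rfl⟩
    obtain ⟨y, hy⟩ := h (β j)
    show ((β j : 𝓞 K) : K) ∈ Submodule.span F (Set.range fun j => (ω j : K))
    rw [hy, coe_rep]
    refine Submodule.sum_mem _ fun k _ => ?_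
    rw [← Algebra.smul_def]
    exact Submodule.smul_mem _ _ (Submodule.subset_span ⟨k, rfl⟩)
  have hli' : LinearIndependent F (fun j => (ω j : K)) :=
    linearIndependent_of_top_le_span_of_card_eq_finrank hsp (by rw [hm, Fintype.card_fin])
  obtain ⟨ω', -, h2⟩ := pl1_dual hm _ hli'
  exact ⟨ω', h2⟩

theorem dual_rep (hm : Module.finrank F K = m + 1) {ω ω' : Fin (m + 1) → K} (h : Dual F ω ω') (y : K) :
    y = ∑ t, algebraMap F K (Algebra.trace F K (y * ω t)) * ω' t := by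
  have := a1_fin hm
  have key : ∀ (f : Fin (m + 1) → F) (s : Fin (m + 1)), Algebra.trace F K ((∑ t, f t • ω' t) * ω s) = f s := by
    intro f s
    rw [Finset.sum_mul, map_sum, Finset.sum_eq_single s]
    · rw [smul_mul_assoc, map_smul, mul_comm, h, if_pos rfl, smul_eq_mul, mul_one]
    · intro t _ ht
      rw [smul_mul_assoc, map_smul, mul_comm, h, if_neg ht.symm, smul_zero]
    · intro h
      exact absurd (Finset.mem_univ s) h
  have hli : LinearIndependent F ω' := by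
    rw [Fintype.linearIndependent_iff]
    intro f hf s
    rw [← key f s, hf, zero_mul, map_zero]
  let B := basisOfLinearIndependentOfCardEqFinrank hli (by rw [hm, Fintype.card_fin])
  have hB : ∀ t, B t = ω' t := fun t => by rw [coe_basisOfLinearIndependentOfCardEqFinrank]
  have h1 := B.sum_repr y
  have h2 : ∀ t, Algebra.trace F K (y * ω t) = B.repr y t := by
    intro t
    have h3 : ∑ t, B.repr y t • ω' t = y := by
      refine Eq.trans (Finset.sum_congr rfl fun t _ => ?_) h1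
      rw [hB t]
    have h4 := key (fun t => B.repr y t) t
    rw [h3] at h4
    exact h4
  refine h1.symm.trans (Finset.sum_congr rfl fun t _ => ?_)
  rw [h2 t, ← Algebra.smul_def, ← hB t]

theorem val_disc_aux1 (V : ValuationSubring ℂ) {σ : Fin (m + 1) → K →+* ℂ} (hσ : Emb F σ) {ω : Fin (m + 1) → 𝓞 K} (hω : IBas F ω)
    {ω' : Fin (m + 1) → K} (hd : Dual F (fun j => (ω j : K)) ω') {x : 𝓞 K} (hx : x ∈ differentIdeal (𝓞 F) (𝓞 K)) :
    V.valuation (∏ i, σ i x) ≤ V.valuation (dl σ fun j => (ω j : K)) ^ 2 := by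
  have h1 : ∀ s, ∃ a : Fin (m + 1) → 𝓞 F, (x : K) * ω' s = ∑ t, algebraMap F K (a t : F) * (ω t : K) := by
    intro s
    have h2 : ∀ b : 𝓞 K, ∃ z : 𝓞 F, Algebra.trace F K (ω' s * b) = (z : F) := by
      intro b
      obtain ⟨y, hy⟩ := hω b
      refine ⟨y s, ?_⟩
      rw [hy, coe_rep, Finset.mul_sum, map_sum, Finset.sum_eq_single s]
      · rw [mul_left_comm, ← Algebra.smul_def, map_smul, mul_comm, hd, if_pos rfl, smul_eq_mul, mul_one]
      · intro t _ ht
        rw [mul_left_comm, ← Algebra.smul_def, map_smul, mul_comm, hd, if_neg ht, smul_zero]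
      · intro h
        exact absurd (Finset.mem_univ s) h
    obtain ⟨z, hz⟩ := diff_mul_int hx (ω' s) h2
    obtain ⟨a, ha⟩ := hω z
    exact ⟨a, by rw [hz, ha, coe_rep]⟩
  have h3 := val_dl_rep V hσ (fun s => (x : K) * ω' s) (fun t => (ω t : K)) h1
  rw [dl_mul, map_mul] at h3
  have h4 := congrArg V.valuation (dl_dual hσ _ _ hd)
  rw [map_mul, map_one] at h4
  calc V.valuation (∏ i, σ i x) = V.valuation (dl σ fun j => (ω j : K)) * (V.valuation (∏ i, σ i x) * V.valuation (dl σ ω')) := by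
        rw [mul_left_comm, h4, mul_one]
    _ ≤ V.valuation (dl σ fun j => (ω j : K)) * V.valuation (dl σ fun j => (ω j : K)) := mul_le_mul_right h3 _
    _ = _ := (sq _).symm

theorem val_disc_aux2 (V : ValuationSubring ℂ) {σ : Fin (m + 1) → K →+* ℂ} (hσ : Emb F σ) {ω : Fin (m + 1) → 𝓞 K}
    {ω' : Fin (m + 1) → K} (hd : Dual F (fun j => (ω j : K)) ω') {x : 𝓞 K} (hx0 : x ≠ 0) {C : Ideal (𝓞 K)}
    (hx : Ideal.span {x} = differentIdeal (𝓞 F) (𝓞 K) * C) {c : 𝓞 K} (hc : c ∈ C) (hc1 : V.valuation (∏ i, σ i c) = 1) :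
    V.valuation (dl σ fun j => (ω j : K)) ^ 2 ≤ V.valuation (∏ i, σ i x) := by
  have hxK : (x : K) ≠ 0 := fun h => hx0 (RingOfIntegers.coe_injective (h.trans (map_zero _).symm))
  have hNx : V.valuation (∏ i, σ i x) ≠ 0 := by
    rw [map_ne_zero]
    exact Finset.prod_ne_zero_iff.2 fun i _ => (map_ne_zero _).2 hxK
  have h1 : ∀ s, ∃ a : Fin (m + 1) → 𝓞 F, (c : K) / x * ω s = ∑ t, algebraMap F K (a t : F) * ω' t := by
    intro s
    have h2 : ∀ t, ∃ z : 𝓞 F, Algebra.trace F K ((c : K) / x * ω s * ω t) = (z : F) := by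
      intro t
      obtain ⟨z, hz⟩ := diff_dual hx0 hx hc (ω s * ω t)
      refine ⟨z, ?_⟩
      rw [← hz, mul_assoc]
      rfl
    choose a ha using h2
    refine ⟨a, ?_⟩
    conv_lhs => rw [dual_rep hσ.fin hd ((c : K) / x * ω s)]
    exact Finset.sum_congr rfl fun t _ => by rw [ha t]
  have h3 := val_dl_rep V hσ (fun s => (c : K) / x * ω s) ω' h1
  rw [dl_mul, map_mul] at h3
  have h4 := congrArg V.valuation (dl_dual hσ _ _ hd)
  rw [map_mul, map_one] at h4
  have h5 : V.valuation (∏ i, σ i ((c : K) / x)) = (V.valuation (∏ i, σ i x))⁻¹ := by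
    rw [Finset.prod_congr rfl fun i _ => map_div₀ (σ i) (c : K) (x : K), Finset.prod_div_distrib, map_div₀, hc1, one_div]
  rw [h5] at h3
  calc V.valuation (dl σ fun j => (ω j : K)) ^ 2 = V.valuation (∏ i, σ i x) * (V.valuation (dl σ fun j => (ω j : K)) *
        ((V.valuation (∏ i, σ i x))⁻¹ * V.valuation (dl σ fun j => (ω j : K)))) := by
        rw [mul_left_comm (V.valuation (dl σ fun j => (ω j : K))), mul_inv_cancel_left₀ hNx, sq]
    _ ≤ V.valuation (∏ i, σ i x) * (V.valuation (dl σ fun j => (ω j : K)) * V.valuation (dl σ ω')) :=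
        mul_le_mul_right (mul_le_mul_right h3 _) _
    _ = _ := by rw [h4, mul_one]

/-- (N2) The square of the discriminant determinant and the norm of the different. -/
theorem val_disc (V : ValuationSubring ℂ) {π : 𝓞 F} (hπ0 : π ≠ 0) (hV : V.valuation (eF F π) < 1) {σ : Fin (m + 1) → K →+* ℂ}
    (hσ : Emb F σ) {ω : Fin (m + 1) → 𝓞 K} (hω : IBas F ω) :
    V.valuation (dl σ fun j => (ω j : K)) ^ 2 = vN F V (differentIdeal (𝓞 F) (𝓞 K)) := by
  obtain ⟨ω', hd⟩ := ibas_dual hσ.fin hω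
  have hJ : Ideal.span {algebraMap (𝓞 F) (𝓞 K) π} ≠ ⊥ := by
    rw [Ne, Ideal.span_singleton_eq_bot]
    intro h
    apply hπ0
    apply (FaithfulSMul.algebraMap_injective (𝓞 F) (𝓞 K))
    rw [h, map_zero]
  obtain ⟨x, C, hx0, hx, hC⟩ := exists_loc_gen (diff_ne (F := F) (K := K)) hJ
  have h1 : vN F V (differentIdeal (𝓞 F) (𝓞 K)) = V.valuation (∏ i, σ i x) := by
    rw [← vN_span V hσ, hx, vN_mul, vN_cop V hV hC, mul_one]
  have hxD : x ∈ differentIdeal (𝓞 F) (𝓞 K) := by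
    have h2 : Ideal.span {x} ≤ differentIdeal (𝓞 F) (𝓞 K) := by
      rw [hx]
      exact Ideal.mul_le_left
    exact h2 (Ideal.mem_span_singleton_self x)
  obtain ⟨c, hc, d, hd', hcd⟩ := Submodule.mem_sup.1 (hC ▸ Submodule.mem_top : (1 : 𝓞 K) ∈ C ⊔ Ideal.span {algebraMap (𝓞 F) (𝓞 K) π})
  obtain ⟨y, rfl⟩ := Ideal.mem_span_singleton.1 hd'
  have hc1 : c = 1 + algebraMap (𝓞 F) (𝓞 K) π * (-y) := by linear_combination hcd
  rw [h1]
  refine le_antisymm (val_disc_aux2 V hσ hd hx0 hx hc ?_) (val_disc_aux1 V hσ hω hd hxD)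
  rw [hc1]
  exact val_norm_one V hV hσ (-y)

end H41D
end

-- from Lib.H41D.P5
section

/-! # H41D, P5: towers F ⊆ K ⊆ K' -/

open NumberField IsDedekindDomain

namespace H41D

open H55P

variable {F : Type} [Field F] [NumberField F] [IQ F] {K : Type} [Field K] [NumberField K] [Algebra F K]
  {K' : Type} [Field K'] [NumberField K'] [Algebra K K'] [Algebra F K'] [IsScalarTower F K K']

theorem finrank_O {K K' : Type} [Field K] [NumberField K] [Field K'] [NumberField K'] [Algebra K K'] :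
    Module.finrank (𝓞 K) (𝓞 K') = Module.finrank K K' :=
  (IsFractionRing.finrank_eq (𝓞 K) K (𝓞 K') K').symm

theorem relNorm_tower (a : Ideal (𝓞 K')) : Ideal.relNorm (𝓞 F) (Ideal.relNorm (𝓞 K) a) = Ideal.relNorm (𝓞 F) a := by
  have : IsScalarTower (𝓞 F) (𝓞 K) (𝓞 K') := by
    refine IsScalarTower.of_algebraMap_eq fun x => ?_
    apply RingOfIntegers.coe_injective
    exact IsScalarTower.algebraMap_apply F K K' (x : F)
  exact Ideal.relNorm_relNorm (𝓞 F) (𝓞 K) a

theorem vN_tower (V : ValuationSubring ℂ) (a : Ideal (𝓞 K')) : vN F V (Ideal.relNorm (𝓞 K) a) = vN F V a := by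
  obtain ⟨g, hg⟩ := exists_gen (F := F) a
  rw [vN_eq V hg, vN_eq V ((relNorm_tower (K := K) a).trans hg)]


theorem vN_map (V : ValuationSubring ℂ) (a : Ideal (𝓞 K)) :
    vN F V (a.map (algebraMap (𝓞 K) (𝓞 K'))) = vN F V a ^ Module.finrank K K' := by
  rw [← vN_tower (K := K), Ideal.relNorm_algebraMap, vN_pow, finrank_O]


theorem diff_tower : differentIdeal (𝓞 F) (𝓞 K') =
    differentIdeal (𝓞 K) (𝓞 K') * (differentIdeal (𝓞 F) (𝓞 K)).map (algebraMap (𝓞 K) (𝓞 K')) := by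
  have : IsScalarTower (𝓞 F) (𝓞 K) (𝓞 K') := by
    refine IsScalarTower.of_algebraMap_eq fun x => ?_
    apply RingOfIntegers.coe_injective
    exact IsScalarTower.algebraMap_apply F K K' (x : F)
  exact differentIdeal_eq_differentIdeal_mul_differentIdeal (𝓞 F) (𝓞 K) (𝓞 K')

/-- (N3) -/
theorem vN_diff_tower (V : ValuationSubring ℂ) : vN F V (differentIdeal (𝓞 F) (𝓞 K')) =
    vN F V (Ideal.relNorm (𝓞 K) (differentIdeal (𝓞 K) (𝓞 K'))) * vN F V (differentIdeal (𝓞 F) (𝓞 K)) ^ Module.finrank K K' := by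
  rw [diff_tower (K := K), vN_mul, vN_map, vN_tower]


end H41D
end

-- from Lib.H41D.P6
section

/-! # H41D, P6: absolute norms -/

open NumberField IsDedekindDomain

namespace H41D

open H55P

variable {F : Type} [Field F] [NumberField F] [IQ F] {K : Type} [Field K] [NumberField K] [Algebra F K]

theorem absNorm_eF (g : 𝓞 F) : ((Ideal.absNorm (Ideal.span {g}) : ℕ) : ℂ) = eF F g * (starRingEnd ℂ) (eF F g) := by
  have h := Nm_eq g
  rw [Complex.mul_conj, Complex.normSq_eq_norm_sq, ← h]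
  push_cast
  rfl

theorem val_absNorm (V : ValuationSubring ℂ) (a : Ideal (𝓞 K)) :
    V.valuation ((Ideal.absNorm a : ℕ) : ℂ) = vN F V a * vNc F V a := by
  obtain ⟨g, hg⟩ := exists_gen (F := F) a
  rw [vN_eq V hg, vNc_eq V hg, ← map_mul, ← absNorm_eF, ← hg, Ideal.absNorm_relNorm]

/-- The conjugate of π in the split case. -/
theorem conj_pi {p : ℕ} (hp : p.Prime) {π π' : 𝓞 F} (hπ : ¬ IsUnit π) (hπ' : ¬ IsUnit π') (h : (p : 𝓞 F) = π * π') :
    (starRingEnd ℂ) (eF F π) = eF F π' := by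
  have h0 : π ≠ 0 := by
    rintro rfl
    rw [zero_mul] at h
    exact hp.ne_zero (by exact_mod_cast h)
  have h1 : Ideal.absNorm (Ideal.span {π}) * Ideal.absNorm (Ideal.span {π'}) = p ^ 2 := by
    rw [← map_mul, Ideal.span_singleton_mul_span_singleton, ← h, Ideal.absNorm_span_singleton]
    have h6 := Algebra.norm_algebraMap (S := 𝓞 F) (p : ℤ)
    rw [RingOfIntegers.rank, IQ.deg] at h6
    have h7 : (Algebra.norm ℤ) (p : 𝓞 F) = (p : ℤ) ^ 2 := by simpa using h6
    rw [h7, Int.natAbs_pow, Int.natAbs_natCast]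
  have h2 : Ideal.absNorm (Ideal.span {π}) ≠ 1 := by
    rw [Ne, Ideal.absNorm_eq_one_iff, Ideal.span_singleton_eq_top]
    exact hπ
  have h3 : Ideal.absNorm (Ideal.span {π'}) ≠ 1 := by
    rw [Ne, Ideal.absNorm_eq_one_iff, Ideal.span_singleton_eq_top]
    exact hπ'
  have h4 : Ideal.absNorm (Ideal.span {π}) = p := by
    have h5 : Ideal.absNorm (Ideal.span {π}) ∣ p ^ 2 := ⟨_, h1.symm⟩
    obtain ⟨k, hk, hk'⟩ := (Nat.dvd_prime_pow hp).1 h5
    interval_cases k
    · exact absurd (by simpa using hk') h2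
    · simpa using hk'
    · rw [hk'] at h1
      exact absurd (Nat.eq_of_mul_eq_mul_left (pow_pos hp.pos 2) (h1.trans (mul_one _).symm)) h3
  have h5 := absNorm_eF π
  rw [h4] at h5
  have h6 : ((p : ℕ) : ℂ) = eF F π * eF F π' := by
    rw [← map_mul, ← h, map_natCast]
  rw [h6] at h5
  exact (mul_left_cancel₀ (eF_ne h0) h5).symm

end H41D
end

-- from Lib.H41D.P7
section

/-! # H41D, P7: the conjugate place; prime ideals above π and above its conjugate -/

open NumberField IsDedekindDomain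

namespace H41D

open H55P

variable {F : Type} [Field F] [NumberField F] [IQ F] {K : Type} [Field K] [NumberField K] [Algebra F K]

/-- The conjugate place. -/
noncomputable def cV (V : ValuationSubring ℂ) : ValuationSubring ℂ := V.comap (starRingEnd ℂ)

theorem mem_cV (V : ValuationSubring ℂ) (z : ℂ) : z ∈ cV V ↔ (starRingEnd ℂ) z ∈ V := Iff.rfl

theorem cV_le (V : ValuationSubring ℂ) (z w : ℂ) :
    (cV V).valuation z ≤ (cV V).valuation w ↔ V.valuation ((starRingEnd ℂ) z) ≤ V.valuation ((starRingEnd ℂ) w) := by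
  by_cases hw : w = 0
  · rw [hw, map_zero, map_zero, map_zero, le_zero_iff, le_zero_iff, map_eq_zero, map_eq_zero, map_eq_zero]
  · have hw' : (starRingEnd ℂ) w ≠ 0 := (map_ne_zero _).2 hw
    have h1 : (cV V).valuation z ≤ (cV V).valuation w ↔ (cV V).valuation (z / w) ≤ 1 := by
      rw [map_div₀, div_le_one₀ (zero_lt_iff.2 ((map_ne_zero _).2 hw))]
    have h2 : V.valuation ((starRingEnd ℂ) z) ≤ V.valuation ((starRingEnd ℂ) w) ↔ V.valuation ((starRingEnd ℂ) (z / w)) ≤ 1 := by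
      rw [map_div₀, map_div₀, div_le_one₀ (zero_lt_iff.2 ((map_ne_zero _).2 hw'))]
    rw [h1, h2, ValuationSubring.valuation_le_one_iff, ValuationSubring.valuation_le_one_iff, mem_cV]

theorem cV_lt (V : ValuationSubring ℂ) (z w : ℂ) :
    (cV V).valuation z < (cV V).valuation w ↔ V.valuation ((starRingEnd ℂ) z) < V.valuation ((starRingEnd ℂ) w) := by
  rw [← not_le, ← not_le, cV_le]

theorem cV_eq (V : ValuationSubring ℂ) (z w : ℂ) :
    (cV V).valuation z = (cV V).valuation w ↔ V.valuation ((starRingEnd ℂ) z) = V.valuation ((starRingEnd ℂ) w) := by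
  rw [le_antisymm_iff, le_antisymm_iff, cV_le, cV_le]

theorem cV_lt_one (V : ValuationSubring ℂ) (z : ℂ) : (cV V).valuation z < 1 ↔ V.valuation ((starRingEnd ℂ) z) < 1 := by
  have h := cV_lt V z 1
  rwa [map_one, map_one, map_one] at h

theorem cV_eq_one (V : ValuationSubring ℂ) (z : ℂ) : (cV V).valuation z = 1 ↔ V.valuation ((starRingEnd ℂ) z) = 1 := by
  have h := cV_eq V z 1
  rwa [map_one, map_one, map_one] at h



/-- The relative norm of a prime ideal above π. -/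
theorem relNorm_prime {π : 𝓞 F} (hπ : Prime π) (v : HeightOneSpectrum (𝓞 K)) (hv : algebraMap (𝓞 F) (𝓞 K) π ∈ v.asIdeal) :
    ∃ f : ℕ, f ≠ 0 ∧ Ideal.relNorm (𝓞 F) v.asIdeal = Ideal.span {π ^ f} := by
  have hmax : (Ideal.span {π}).IsMaximal := by
    have h1 : (Ideal.span {π}).IsPrime := (Ideal.span_singleton_prime hπ.ne_zero).2 hπ
    exact h1.isMaximal (by rw [Ne, Ideal.span_singleton_eq_bot]; exact hπ.ne_zero)
  have hl : v.asIdeal.LiesOver (Ideal.span {π}) := by
    constructor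
    refine hmax.eq_of_le (Ideal.IsPrime.ne_top (Ideal.IsPrime.under (𝓞 F) v.asIdeal)) ?_
    rw [Ideal.span_singleton_le_iff_mem]
    exact hv
  have := v.isMaximal
  refine ⟨v.asIdeal.inertiaDeg (𝓞 F), (Ideal.inertiaDeg_pos v.asIdeal (𝓞 F)).ne', ?_⟩
  rw [Ideal.relNorm_eq_pow_of_isMaximal v.asIdeal (Ideal.span {π}), Ideal.span_singleton_pow]

theorem vN_prime_above (V : ValuationSubring ℂ) {π : 𝓞 F} (hπ : Prime π) (hc : V.valuation ((starRingEnd ℂ) (eF F π)) = 1)
    (v : HeightOneSpectrum (𝓞 K)) (hv : algebraMap (𝓞 F) (𝓞 K) π ∈ v.asIdeal) :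
    vNc F V v.asIdeal = 1 ∧ vN F V v.asIdeal = V.valuation ((Ideal.absNorm v.asIdeal : ℕ) : ℂ) := by
  obtain ⟨f, hf, h⟩ := relNorm_prime hπ v hv
  have h1 : vNc F V v.asIdeal = 1 := by
    rw [vNc_eq V h, map_pow, map_pow, map_pow, hc, one_pow]
  exact ⟨h1, by rw [val_absNorm (F := F) V, h1, mul_one]⟩




end H41D
end

-- from Lib.H41D.P8
section

/-! # H41D, P8: the discriminant determinant in a tower of degree p (N4), the absolute discriminant (N5) -/

open NumberField IsDedekindDomain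

namespace H41D

open H55P

variable {F : Type} [Field F] [NumberField F] [IQ F] {K : Type} [Field K] [NumberField K] [Algebra F K]

/-- The part above π of a modulus. -/
theorem vN_fT (V : ValuationSubring ℂ) {π : 𝓞 F} (hπ : Prime π) (hc : V.valuation ((starRingEnd ℂ) (eF F π)) = 1)
    (T : Finset (HeightOneSpectrum (𝓞 K))) (hT : ∀ v ∈ T, algebraMap (𝓞 F) (𝓞 K) π ∈ v.asIdeal) (a : HeightOneSpectrum (𝓞 K) → ℕ) :
    vN F V (H35M.fT T a) = V.valuation ((Ideal.absNorm (H35M.fT T a) : ℕ) : ℂ) ∧ vNc F V (H35M.fT T a) = 1 := by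
  classical
  have h1 : vNc F V (H35M.fT T a) = 1 := by
    unfold H35M.fT
    induction T using Finset.induction_on with
    | empty => rw [Finset.prod_empty, Ideal.one_eq_top, vNc_top]
    | insert v s hv ih =>
      rw [Finset.prod_insert hv, vNc_mul, ih fun w hw => hT w (Finset.mem_insert_of_mem hw), vNc_pow,
        (vN_prime_above V hπ hc v (hT v (Finset.mem_insert_self v s))).1, one_pow, mul_one]
  exact ⟨by rw [val_absNorm (F := F) V, h1, mul_one], h1⟩

variable {K' : Type} [Field K'] [NumberField K'] [Algebra K K'] [Algebra F K'] [IsScalarTower F K K']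

/-- (N4) The different of K' over F in terms of the conductor. -/
theorem vN_diff_cond (V : ValuationSubring ℂ) {π : 𝓞 F} (hπ : Prime π) (hV : V.valuation (eF F π) < 1)
    (hc : V.valuation ((starRingEnd ℂ) (eF F π)) = 1)
    (T : Finset (HeightOneSpectrum (𝓞 K))) (hT : ∀ v ∈ T, algebraMap (𝓞 F) (𝓞 K) π ∈ v.asIdeal) (a : HeightOneSpectrum (𝓞 K) → ℕ)
    (n : ℕ) (C : Ideal (𝓞 K)) (hC : C ⊔ Ideal.span {algebraMap (𝓞 F) (𝓞 K) π} = ⊤)
    (hD : Ideal.relNorm (𝓞 K) (differentIdeal (𝓞 K) (𝓞 K')) = H35M.fT T a ^ n * C) :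
    vN F V (differentIdeal (𝓞 F) (𝓞 K')) =
      V.valuation ((Ideal.absNorm (H35M.fT T a) : ℕ) : ℂ) ^ n * vN F V (differentIdeal (𝓞 F) (𝓞 K)) ^ Module.finrank K K' := by
  rw [vN_diff_tower (K := K), hD, vN_mul, vN_pow, (vN_fT V hπ hc T hT a).1, vN_cop V hV hC, mul_one]


theorem val_natAbs (V : ValuationSubring ℂ) (z : ℤ) : V.valuation ((z.natAbs : ℕ) : ℂ) = V.valuation ((z : ℤ) : ℂ) := by
  rcases Int.natAbs_eq z with h | h
  · conv_rhs => rw [h]
    rw [Int.cast_natCast]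
  · conv_rhs => rw [h]
    rw [Int.cast_neg, Int.cast_natCast, Valuation.map_neg]


/-- Integers prime to p. -/
theorem val_cop (V : ValuationSubring ℂ) {p : ℕ} (hV : V.valuation (p : ℂ) < 1) {z : ℤ} (hz : IsCoprime (p : ℤ) z) :
    V.valuation ((z : ℤ) : ℂ) = 1 := by
  have hle : ∀ z : ℤ, V.valuation ((z : ℤ) : ℂ) ≤ 1 := fun z => val_int V (isIntegral_algebraMap (R := ℤ) (A := ℂ) (x := z))
  refine le_antisymm (hle z) ?_
  by_contra hlt
  push Not at hlt
  obtain ⟨a, b, hab⟩ := hz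
  have h1 : V.valuation (((a * p + b * z : ℤ)) : ℂ) < 1 := by
    push_cast
    refine lt_of_le_of_lt (V.valuation.map_add _ _) (max_lt ?_ ?_)
    · rw [map_mul, mul_comm]; exact mul_lt_one_of_lt_of_le hV (hle a)
    · rw [map_mul, mul_comm]; exact mul_lt_one_of_lt_of_le hlt (hle b)
  rw [hab, Int.cast_one, map_one] at h1
  exact lt_irrefl _ h1




end H41D
end
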