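import Mathlib
import Pool.Agent.Lib.H1M.PP2.M017

/-! Merged copies (to shorten the build) of Lib.CFT.D1, Lib.CFT.D2, Lib.CFT.B01, Lib.CFT.B02, Lib.CFT.B04, Lib.CFT.B06, Lib.H69H.A1, Lib.H69H.Defs, Lib.H69H.U2, Lib.H69H.C1, Lib.H69H.D1, Lib.H69H.D3, Lib.CFT.B03, Lib.H69H.G1, Lib.H69H.G3, Lib.H69H.G4, Lib.H69H.G6, Lib.CFT.B09, Lib.H69H.G5, Lib.H69H.P1, Lib.CFT.B08, Lib.CFT.B11, Lib.CFT.B14, Lib.H69H.P2. -/

-- from Lib.CFT.D1
section

/-! # CFT: further definitions (primes above a set, restriction of automorphisms) -/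

open NumberField IsDedekindDomain

namespace CFT

section

variable (K : Type) [Field K] [NumberField K] (L : Type) [Field L] [NumberField L] [Algebra K L]

theorem below_fin (v : Pr K) : {w : Pr L | below K w = v}.Finite := by
  have h := IsDedekindDomain.primesOver_finite v.asIdeal (𝓞 L)
  refine Set.Finite.of_finite_image (f := fun w : Pr L => w.asIdeal) (h.subset ?_) ?_
  · rintro _ ⟨w, hw, rfl⟩
    refine ⟨w.isPrime, ⟨?_⟩⟩
    rw [← (show below K w = v from hw)]
    rfl
  · intro a _ b _ hab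
    exact HeightOneSpectrum.ext hab

theorem up_fin (S : Finset (Pr K)) : {w : Pr L | below K w ∈ S}.Finite := by
  have h : {w : Pr L | below K w ∈ S} = ⋃ v ∈ S, {w : Pr L | below K w = v} := by
    ext w
    simp
  rw [h]
  exact Set.Finite.biUnion S.finite_toSet fun v _ => below_fin K L v

variable {K} in
/-- The primes of L above S. -/
noncomputable def up (S : Finset (Pr K)) : Finset (Pr L) := (up_fin K L S).toFinset

variable {K L} in
theorem mem_up (S : Finset (Pr K)) (w : Pr L) : w ∈ up L S ↔ below K w ∈ S := by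
  unfold up
  rw [Set.Finite.mem_toFinset]
  rfl

end

section

variable (K : Type) [Field K] (L : Type) [Field L] [Algebra K L] (E : Type) [Field E] [Algebra K E]
  (M : Type) [Field M] [Algebra K M] [Algebra L M] [Algebra E M] [IsScalarTower K L M] [IsScalarTower K E M]

/-- The restriction of the automorphisms of M over E to the normal extension L of K (E and L are subfields of M). -/
noncomputable def resE [Normal K L] : (M ≃ₐ[E] M) →* (L ≃ₐ[K] L) where
  toFun s := AlgEquiv.restrictNormalHom L (s.restrictScalars K)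
  map_one' := by
    have h : (1 : M ≃ₐ[E] M).restrictScalars K = 1 := rfl
    rw [h, map_one]
  map_mul' s t := by
    have h : (s * t).restrictScalars K = s.restrictScalars K * t.restrictScalars K := rfl
    rw [h, map_mul]

variable {K L E M} in
theorem resE_spec [Normal K L] (s : M ≃ₐ[E] M) (x : L) : algebraMap L M (resE K L E M s x) = s (algebraMap L M x) :=
  AlgEquiv.restrictNormal_commutes (s.restrictScalars K) L x

end

end CFT
end

-- from Lib.CFT.D2
section

/-! # CFT: ideal of a divisor, absolute norm of a divisor, conorm -/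

open NumberField IsDedekindDomain

namespace CFT

section

variable {K : Type} [Field K] [NumberField K]

/-- The ideal of a divisor (negative coefficients are ignored). -/
noncomputable def idl (D : Dv K) : Ideal (𝓞 K) := D.prod fun v n => v.asIdeal ^ n.toNat


theorem Nm_pos (v : Pr K) : 0 < Nm v := by
  unfold Nm
  exact Nat.pos_of_ne_zero (fun h => v.ne_bot (Ideal.absNorm_eq_zero_iff.1 h))




end

section

variable (K : Type) [Field K] [NumberField K] (L : Type) [Field L] [NumberField L] [Algebra K L]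

variable {K} in
/-- The primes of L above v. -/
noncomputable def abv (v : Pr K) : Finset (Pr L) := (below_fin K L v).toFinset

variable {K L} in
theorem mem_abv (v : Pr K) (w : Pr L) : w ∈ abv L v ↔ below K w = v := by
  unfold abv
  rw [Set.Finite.mem_toFinset]
  rfl

/-- The conorm (the divisor of K as a divisor of L). -/
noncomputable def Cn : Dv K →+ Dv L :=
  Finsupp.liftAddHom fun v => ∑ w ∈ abv L v, ((Finsupp.singleAddHom w).comp
    (AddMonoidHom.mulLeft ((w.asIdeal.ramificationIdx (𝓞 K) : ℕ) : ℤ)))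

theorem Nd_single (w : Pr L) (n : ℤ) :
    Nd K L (Finsupp.single w n) = Finsupp.single (below K w) ((w.asIdeal.inertiaDeg (𝓞 K) : ℕ) * n) := by
  unfold Nd
  rw [Finsupp.liftAddHom_apply_single]
  rfl

theorem Cn_single (v : Pr K) (n : ℤ) :
    Cn K L (Finsupp.single v n) = ∑ w ∈ abv L v, Finsupp.single w ((w.asIdeal.ramificationIdx (𝓞 K) : ℕ) * n) := by
  unfold Cn
  rw [Finsupp.liftAddHom_apply_single, AddMonoidHom.finsetSum_apply]
  rfl

variable {K L}

open Classical in
theorem art_single (S : Finset (Pr K)) {A : Type} [CommGroup A] (χ : (L ≃ₐ[K] L) →* A) (v : Pr K) (n : ℤ) :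
    art S χ (Finsupp.single v n) = n • (if v ∈ S then 0 else Additive.ofMul (χ (frob K L v))) := by
  unfold art
  rw [Finsupp.liftAddHom_apply_single]
  rfl

theorem art_single_of_notMem {S : Finset (Pr K)} {A : Type} [CommGroup A] (χ : (L ≃ₐ[K] L) →* A) {v : Pr K} (hv : v ∉ S) (n : ℤ) :
    art S χ (Finsupp.single v n) = n • Additive.ofMul (χ (frob K L v)) := by
  classical
  rw [art_single, if_neg hv]

theorem art_single_of_mem {S : Finset (Pr K)} {A : Type} [CommGroup A] (χ : (L ≃ₐ[K] L) →* A) {v : Pr K} (hv : v ∈ S) (n : ℤ) :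
    art S χ (Finsupp.single v n) = 0 := by
  classical
  rw [art_single, if_pos hv, smul_zero]

theorem art_comp (S : Finset (Pr K)) {A B : Type} [CommGroup A] [CommGroup B] (f : A →* B) (χ : (L ≃ₐ[K] L) →* A) (D : Dv K) :
    art S (f.comp χ) D = (MonoidHom.toAdditive f) (art S χ D) := by
  have h : art S (f.comp χ) = (MonoidHom.toAdditive f).comp (art S χ) := by
    refine Finsupp.addHom_ext fun v n => ?_
    rw [AddMonoidHom.comp_apply]
    by_cases hv : v ∈ S
    · rw [art_single_of_mem _ hv, art_single_of_mem _ hv, map_zero]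
    · rw [art_single_of_notMem _ hv, art_single_of_notMem _ hv, map_zsmul]
      rfl
  rw [h]
  rfl

/-- The Artin symbol depends only on the coefficients outside S. -/
theorem art_congr (S : Finset (Pr K)) {A : Type} [CommGroup A] (χ : (L ≃ₐ[K] L) →* A) {D E : Dv K} (h : ∀ v ∉ S, D v = E v) :
    art S χ D = art S χ E := by
  classical
  have h0 : ∀ F : Dv K, (∀ v ∉ S, F v = 0) → art S χ F = 0 := by
    intro F hF
    have e : F = ∑ v ∈ F.support, Finsupp.single v (F v) := (Finsupp.sum_single F).symm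
    rw [e, map_sum]
    refine Finset.sum_eq_zero fun v hv => ?_
    by_cases hS : v ∈ S
    · exact art_single_of_mem χ hS _
    · rw [hF v hS, Finsupp.single_zero, map_zero]
  have h1 := h0 (D - E) fun v hv => by rw [Finsupp.sub_apply, h v hv, sub_self]
  rw [map_sub, sub_eq_zero] at h1
  exact h1

/-- The modulus may be enlarged if the divisor is 0 at the new primes. -/
theorem art_mono {S T : Finset (Pr K)} (hST : S ⊆ T) {A : Type} [CommGroup A] (χ : (L ≃ₐ[K] L) →* A) {D : Dv K}
    (h : ∀ v ∈ T, v ∉ S → D v = 0) : art S χ D = art T χ D := by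
  classical
  have e : D = ∑ v ∈ D.support, Finsupp.single v (D v) := (Finsupp.sum_single D).symm
  rw [e, map_sum, map_sum]
  refine Finset.sum_congr rfl fun v _ => ?_
  by_cases hS : v ∈ S
  · rw [art_single_of_mem χ hS, art_single_of_mem χ (hST hS)]
  · by_cases hT : v ∈ T
    · rw [h v hT hS, Finsupp.single_zero, map_zero, map_zero]
    · rw [art_single_of_notMem χ hS, art_single_of_notMem χ hT]

/-- The ray conditions. -/
theorem Ray.mono {S T : Finset (Pr K)} (hST : S ⊆ T) {N M : ℕ} (hNM : N ≤ M) {x : K} (h : Ray T M x) : Ray S N x := by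
  refine ⟨h.ne, fun v hv => (h.cong v (hST hv)).trans_le ?_, h.pos⟩
  rw [WithZero.exp_le_exp]
  omega

theorem Ray.od_eq {S : Finset (Pr K)} {N : ℕ} {x : K} (h : Ray S N x) {v : Pr K} (hv : v ∈ S) : od v x = 0 := by
  unfold od
  rw [h.unit hv, WithZero.log_one, neg_zero]

theorem dv_mem_Pray {S : Finset (Pr K)} {N : ℕ} {x : K} (h : Ray S N x) : dv x ∈ Pray S N := ⟨x, h, fun _ _ => rfl⟩


/-- Divisors supported on S are in Pray S N. -/
theorem supp_mem_Pray {S : Finset (Pr K)} (N : ℕ) {D : Dv K} (h : ∀ v ∉ S, D v = 0) : D ∈ Pray S N :=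
  ⟨1, ray_one S N, fun v hv => by rw [h v hv, od_one]⟩


end

end CFT
end

-- from Lib.CFT.B01
section

/-! # CFT module B, chunk B01: orders of algebraic integers -/

open NumberField IsDedekindDomain

namespace CFT

variable {K : Type} [Field K] [NumberField K]


/-- PROOF. od v r = -log (v.valuation K r), v.valuation_le_one r; WithZero.log is monotone on nonzero elements (r = 0: od = 0). -/
theorem od_nonneg (v : Pr K) (r : 𝓞 K) : 0 ≤ od v (r : K) := by
  by_cases hr : r = 0
  · subst hr
    have e : ((0 : 𝓞 K) : K) = 0 := map_zero _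
    rw [e, od_zero]
  · have hr' : (r : K) ≠ 0 := fun h => hr (RingOfIntegers.coe_eq_zero_iff.1 h)
    have h1 : v.valuation K (r : K) ≤ 1 := v.valuation_le_one r
    rw [val_eq v hr', ← WithZero.exp_zero, WithZero.exp_le_exp] at h1
    omega

/-- PROOF. HeightOneSpectrum.valuation_lt_one_iff_dvd / valuation_le_pow_iff_dvd (or intValuation_le_pow_iff_mem) and valuation_of_algebraMap; val_eq in D0. -/
theorem od_le_iff (v : Pr K) {r : 𝓞 K} (hr : r ≠ 0) (n : ℕ) : (n : ℤ) ≤ od v (r : K) ↔ r ∈ v.asIdeal ^ n := by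
  have hr' : (r : K) ≠ 0 := fun h => hr (RingOfIntegers.coe_eq_zero_iff.1 h)
  rw [← v.intValuation_le_pow_iff_mem r n, ← v.valuation_of_algebraMap (K := K) r]
  have h1 : v.valuation K (algebraMap (𝓞 K) K r) = WithZero.exp (-od v (r : K)) := val_eq v hr'
  rw [h1, WithZero.exp_le_exp]
  omega

/-- PROOF. From od_le_iff with n = 1. -/
theorem od_pos_iff (v : Pr K) {r : 𝓞 K} (hr : r ≠ 0) : 0 < od v (r : K) ↔ r ∈ v.asIdeal := by
  have h := od_le_iff v hr 1
  rw [pow_one] at h
  rw [← h]
  norm_cast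


/-- PROOF. val_eq and WithZero.exp_lt_exp. -/
theorem val_lt_iff (v : Pr K) {x : K} (hx : x ≠ 0) (N : ℤ) : v.valuation K x < WithZero.exp (-N) ↔ N < od v x := by
  rw [val_eq v hx, WithZero.exp_lt_exp]
  omega

end CFT
end

-- from Lib.CFT.B02
section

/-! # CFT module B, chunk B02: elements with divisor >= 0 are integral, divisor 0 are units -/

open NumberField IsDedekindDomain

namespace CFT

variable {K : Type} [Field K] [NumberField K]


/-- PROOF. If x = 0 take r = 0. Otherwise v.valuation K x <= 1 for all v by val_eq (D0), and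
HeightOneSpectrum.mem_integers_of_valuation_le_one. -/
theorem int_of_od {x : K} (h : ∀ v : Pr K, 0 ≤ od v x) : ∃ r : 𝓞 K, (r : K) = x := by
  have h1 : ∀ v : Pr K, v.valuation K x ≤ 1 := by
    intro v
    by_cases hx : x = 0
    · rw [hx, map_zero]
      exact zero_le
    · rw [val_eq v hx, ← WithZero.exp_zero, WithZero.exp_le_exp]
      have := h v
      omega
  obtain ⟨r, hr⟩ := HeightOneSpectrum.mem_integers_of_valuation_le_one (R := 𝓞 K) K x h1
  exact ⟨r, hr⟩

/-- PROOF. int_of_od for x and for its inverse (od_inv). -/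
theorem unit_of_dv {x : K} (hx : x ≠ 0) (h : dv x = 0) : ∃ u : (𝓞 K)ˣ, ((u : 𝓞 K) : K) = x := by
  have h1 : ∀ v : Pr K, od v x = 0 := fun v => by
    rw [← dv_apply, h]
    rfl
  obtain ⟨r, hr⟩ := int_of_od (x := x) fun v => (h1 v).ge
  obtain ⟨t, ht⟩ := int_of_od (x := x⁻¹) fun v => by rw [od_inv, h1 v, neg_zero]
  have h2 : r * t = 1 := by
    apply RingOfIntegers.coe_injective
    rw [map_mul, map_one]
    have e1 : algebraMap (𝓞 K) K r = x := hr
    have e2 : algebraMap (𝓞 K) K t = x⁻¹ := ht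
    rw [e1, e2, mul_inv_cancel₀ hx]
  exact ⟨Units.mkOfMulEqOne r t h2, hr⟩

/-- PROOF. u and its inverse are algebraic integers: od_nonneg (B01) twice and od_inv. -/
theorem dv_unit (u : (𝓞 K)ˣ) : dv ((u : 𝓞 K) : K) = 0 := by
  ext v
  rw [dv_apply]
  have h1 := od_nonneg v (u : 𝓞 K)
  have h2 := od_nonneg v ((u⁻¹ : (𝓞 K)ˣ) : 𝓞 K)
  have h3 : (((u⁻¹ : (𝓞 K)ˣ) : 𝓞 K) : K) = ((u : 𝓞 K) : K)⁻¹ := by
    apply eq_inv_of_mul_eq_one_left
    have e : ((u⁻¹ : (𝓞 K)ˣ) : 𝓞 K) * (u : 𝓞 K) = 1 := u.inv_mul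
    have e2 := congrArg (fun z : 𝓞 K => (z : K)) e
    simpa using e2
  rw [h3, od_inv] at h2
  show od v ((u : 𝓞 K) : K) = 0
  omega


end CFT
end

-- from Lib.CFT.B04
section

/-! # CFT module B, chunk B04: divisors and ideals -/

open NumberField IsDedekindDomain

namespace CFT

variable {K : Type} [Field K] [NumberField K]


theorem b04_idl (D : Dv K) (T : Finset (Pr K)) (h : D.support ⊆ T) :
    idl D = ∏ v ∈ T, v.asIdeal ^ (D v).toNat := by
  unfold idl
  rw [Finsupp.prod_of_support_subset D h]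
  intro v _
  simp

theorem b04_idl_single (v : Pr K) (k : ℤ) : idl (Finsupp.single v k) = v.asIdeal ^ k.toNat := by
  unfold idl
  rw [Finsupp.prod_single_index]
  simp

theorem b04_single (v : Pr K) {k : ℤ} (hk : 0 ≤ k) (w : Pr K) : 0 ≤ (Finsupp.single v k : Dv K) w := by
  classical
  rw [Finsupp.single_apply]
  split_ifs
  · exact hk
  · exact le_rfl

/-- PROOF. Finsupp.prod_add_index' needs v^(a+b).toNat = v^a.toNat v^b.toNat, true for a, b >= 0; write both sides as products over the union of the supports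
(Finsupp.prod_of_support_subset). -/
theorem idl_add {D E : Dv K} (hD : ∀ v, 0 ≤ D v) (hE : ∀ v, 0 ≤ E v) : idl (D + E) = idl D * idl E := by
  classical
  rw [b04_idl (D + E) (D.support ∪ E.support) Finsupp.support_add,
    b04_idl D (D.support ∪ E.support) Finset.subset_union_left,
    b04_idl E (D.support ∪ E.support) Finset.subset_union_right, ← Finset.prod_mul_distrib]
  refine Finset.prod_congr rfl fun v _ => ?_
  rw [← pow_add, Finsupp.add_apply, Int.toNat_add (hD v) (hE v)]

/-- PROOF. Product of nonzero ideals. -/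
theorem idl_ne_zero (D : Dv K) : idl D ≠ ⊥ := by
  unfold idl Finsupp.prod
  rw [← Ideal.zero_eq_bot, Finset.prod_ne_zero_iff]
  intro v _
  exact pow_ne_zero _ v.ne_bot

/-- PROOF. Ideal.finprod_heightOneSpectrum_factorization: a nonzero ideal is the finite product of v^(count). Take D v = the count. -/
theorem exists_idl {I : Ideal (𝓞 K)} (hI : I ≠ ⊥) : ∃ D : Dv K, (∀ v, 0 ≤ D v) ∧ idl D = I := by
  revert hI
  refine UniqueFactorizationMonoid.induction_on_prime (P := fun I : Ideal (𝓞 K) => I ≠ ⊥ →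
    ∃ D : Dv K, (∀ v, 0 ≤ D v) ∧ idl D = I) I ?_ ?_ ?_
  · intro h
    exact absurd rfl h
  · intro J hJ _
    refine ⟨0, fun v => le_rfl, ?_⟩
    have h1 : J = 1 := (Ideal.isUnit_iff.1 hJ).trans Ideal.one_eq_top.symm
    rw [h1]
    exact Finsupp.prod_zero_index
  · intro J p hJ hp ih _
    obtain ⟨D, hD, hDJ⟩ := ih hJ
    have hp0 : p ≠ ⊥ := hp.ne_zero
    let v : Pr K := ⟨p, Ideal.isPrime_of_prime hp, hp0⟩
    refine ⟨Finsupp.single v 1 + D, fun w => ?_, ?_⟩
    · rw [Finsupp.add_apply]
      have h1 := hD w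
      have h2 := b04_single v (k := 1) (by norm_num) w
      omega
    · rw [idl_add (b04_single v (by norm_num)) hD, hDJ, b04_idl_single]
      show p ^ _ * J = p * J
      simp

/-- PROOF. The count of v in the factorization of idl D is (D v).toNat: the v are pairwise different primes. E.g. v^n divides idl D iff n <= (D v).toNat:
Associates.count / normalizedFactors of a product of prime powers, or Ideal.iInf / multiplicity. -/
theorem le_idl_iff {D : Dv K} (hD : ∀ v, 0 ≤ D v) (v : Pr K) (n : ℕ) : v.asIdeal ^ n ∣ idl D ↔ (n : ℤ) ≤ D v := by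
  have h1 : D = D.erase v + Finsupp.single v (D v) := (Finsupp.erase_add_single v D).symm
  have h2 : ∀ w, 0 ≤ D.erase v w := by
    intro w
    by_cases hw : w = v
    · rw [hw, Finsupp.erase_same]
    · rw [Finsupp.erase_ne hw]
      exact hD w
  have h3 : idl D = v.asIdeal ^ (D v).toNat * idl (D.erase v) := by
    conv_lhs => rw [h1]
    rw [idl_add h2 (b04_single v (hD v)), b04_idl_single, mul_comm]
  have h4 : ¬ v.asIdeal ∣ idl (D.erase v) := by
    classical
    intro h
    unfold idl Finsupp.prod at h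
    obtain ⟨w, hw, hw2⟩ := v.prime.exists_mem_finset_dvd h
    have h5 : v.asIdeal ∣ w.asIdeal := v.prime.dvd_of_dvd_pow hw2
    have h6 : w.asIdeal ≤ v.asIdeal := Ideal.dvd_iff_le.1 h5
    have h7 : w.asIdeal = v.asIdeal := w.isMaximal.eq_of_le v.isPrime.ne_top h6
    have h8 : w = v := HeightOneSpectrum.ext h7
    rw [h8, Finsupp.support_erase] at hw
    exact (Finset.notMem_erase v _) hw
  have hv0 : v.asIdeal ≠ 0 := v.ne_bot
  have h0 := hD v
  rw [h3]
  constructor
  · intro h
    by_contra hlt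
    have h5 : (D v).toNat < n := by omega
    obtain ⟨k, hk⟩ := Nat.exists_eq_add_of_lt h5
    have h6 : v.asIdeal ^ n = v.asIdeal ^ (D v).toNat * (v.asIdeal * v.asIdeal ^ k) := by
      rw [hk, ← pow_succ', ← pow_add, add_assoc]
    rw [h6] at h
    have h7 := (mul_dvd_mul_iff_left (pow_ne_zero _ hv0)).1 h
    exact h4 ((dvd_mul_right _ _).trans h7)
  · intro h
    have h5 : n ≤ (D v).toNat := by omega
    exact (pow_dvd_pow _ h5).trans (dvd_mul_right _ _)

/-- PROOF. From le_idl_iff. -/
theorem idl_inj {D E : Dv K} (hD : ∀ v, 0 ≤ D v) (hE : ∀ v, 0 ≤ E v) (h : idl D = idl E) : D = E := by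
  ext v
  have h1 := hD v
  have h2 := hE v
  have h3 := (le_idl_iff hD v (D v).toNat).2 (by omega)
  have h4 := (le_idl_iff hE v (E v).toNat).2 (by omega)
  rw [h] at h3
  rw [← h] at h4
  have h5 := (le_idl_iff hE v (D v).toNat).1 h3
  have h6 := (le_idl_iff hD v (E v).toNat).1 h4
  omega

/-- PROOF. Both sides are nonzero ideals and v^n divides span {r} iff r in v^n iff n <= od v r (od_le_iff, B01) iff v^n divides idl (dv r) (le_idl_iff). With exists_idl and
le_idl_iff they are equal. -/
theorem idl_dv {r : 𝓞 K} (hr : r ≠ 0) : idl (dv (r : K)) = Ideal.span {r} := by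
  obtain ⟨E, hE, hE2⟩ := exists_idl (K := K) (I := Ideal.span {r}) (fun h => hr (Ideal.span_singleton_eq_bot.1 h))
  have h1 : dv (r : K) = E := by
    ext v
    rw [dv_apply]
    have h2 := od_nonneg v r
    have h3 := hE v
    have h4 : ∀ n : ℕ, (n : ℤ) ≤ od v (r : K) ↔ (n : ℤ) ≤ E v := by
      intro n
      rw [od_le_iff v hr n, ← le_idl_iff hE v n, hE2, Ideal.dvd_span_singleton]
    have h5 := (h4 (od v (r : K)).toNat).1 (by omega)
    have h6 := (h4 (E v).toNat).2 (by omega)
    omega
  rw [h1, hE2]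


end CFT
end

-- from Lib.CFT.B06
section

/-! # CFT module B, chunk B06: below: surjective, order of an element of K at a prime of L, norm of a prime -/

open NumberField IsDedekindDomain

namespace CFT

variable {K : Type} [Field K] [NumberField K] {L : Type} [Field L] [NumberField L] [Algebra K L]


/-- PROOF. There is a prime of O_L over v (Ideal.exists_ideal_over_prime_of_isIntegral or primesOver_nonempty), it is not 0. -/
theorem below_surj : Function.Surjective (below K : Pr L → Pr K) := by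
  intro v
  have hinj : Function.Injective (algebraMap (𝓞 K) (𝓞 L)) := FaithfulSMul.algebraMap_injective _ _
  obtain ⟨Q, hQ, hQv⟩ := Ideal.exists_ideal_over_prime_of_isIntegral_of_isDomain (S := 𝓞 L) v.asIdeal
    (by rw [(RingHom.injective_iff_ker_eq_bot _).1 hinj]; exact bot_le)
  have hne : Q ≠ ⊥ := by
    rintro rfl
    apply v.ne_bot
    rw [← hQv]
    exact Ideal.comap_bot_of_injective _ hinj
  refine ⟨⟨Q, hQ, hne⟩, ?_⟩
  apply HeightOneSpectrum.ext
  exact hQv

/-- PROOF. ramificationIdx (O_K) is positive: Ideal.ramificationIdx_ne_zero (or via ramificationIdx' and ramificationIdx'_ne_zero_of_liesOver). -/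
theorem e_pos (w : Pr L) : 0 < w.asIdeal.ramificationIdx (𝓞 K) := by
  haveI := w.isPrime
  exact w.asIdeal.ramificationIdx_pos (𝓞 K)

/-- PROOF. Finite residue field extension. -/
theorem f_pos (w : Pr L) : 0 < w.asIdeal.inertiaDeg (𝓞 K) := by
  haveI := w.isPrime
  exact w.asIdeal.inertiaDeg_pos (𝓞 K)

/-- PROOF. HeightOneSpectrum.valuation of the algebraMap: Mathlib NumberTheory/RamificationInertia/Valuation.lean (valuation_comap or similar: w.valuation (algebraMap x) = v.valuation x ^ e). -/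
theorem od_alg (x : K) (w : Pr L) : od w (algebraMap K L x) = (w.asIdeal.ramificationIdx (𝓞 K) : ℤ) * od (below K w) x := by
  haveI : w.asIdeal.LiesOver (below K w).asIdeal := ⟨rfl⟩
  haveI := w.isPrime
  have h1 := HeightOneSpectrum.valuation_liesOver L (below K w) w x
  rw [Ideal.ramificationIdx'_eq_ramificationIdx (below K w).asIdeal w.asIdeal (below K w).ne_bot] at h1
  unfold od
  rw [← h1, WithZero.log_pow, nsmul_eq_mul]
  ring

/-- PROOF. Nm w = card (O_L / w) = card (O_K / v)^f, Module.card_eq_pow_finrank (or Ideal.absNorm_eq_pow_inertiaDeg' for general base; relNorm_eq_pow_of_isMaximal with absNorm_relNorm). -/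
theorem Nm_below (w : Pr L) : Nm w = Nm (below K w) ^ w.asIdeal.inertiaDeg (𝓞 K) := by
  haveI : w.asIdeal.LiesOver (below K w).asIdeal := ⟨rfl⟩
  haveI := w.isPrime
  haveI : w.asIdeal.IsMaximal := w.isMaximal
  haveI : (below K w).asIdeal.IsMaximal := (below K w).isMaximal
  have h1 := Ideal.absNorm_eq_pow_inertiaDeg'_of_liesOver w.asIdeal (below K w).asIdeal
    (below K w).isPrime (below K w).ne_bot
  rw [Ideal.inertiaDeg'_eq_inertiaDeg] at h1
  exact h1

end CFT
end

-- from Lib.H69H.A1
section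

set_option autoImplicit false

/-! Herbrand quotients as subgroup indices (for the first inequality of class field theory). -/

namespace Pool.Agent.H69H

variable {X : Type*} [CommGroup X]

/-- Two endomorphisms of a commutative group with `f g = g f = 1`. In the applications
`f x = σ x / x` and `g x = x * σ x * ... * σ ^ (n - 1) x`. -/
structure IsPair (f g : X →* X) : Prop where
  fg : ∀ x, f (g x) = 1
  gf : ∀ x, g (f x) = 1

/-- `A` is mapped into itself by `f` and `g`. -/
structure IsStable (f g : X →* X) (A : Subgroup X) : Prop where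
  left : ∀ x ∈ A, f x ∈ A
  right : ∀ x ∈ A, g x ∈ A

/-- The order of `ker f / im g` on the quotient `B / A` (`0` if infinite). -/
noncomputable def tate (f g : X →* X) (A B : Subgroup X) : ℕ :=
  (B.map g ⊔ A).relIndex (B ⊓ A.comap f)

/-- The Herbrand quotient of `B / A` is defined and equals `q`. -/
structure Her (f g : X →* X) (A B : Subgroup X) (q : ℚ) : Prop where
  left : tate f g A B ≠ 0
  right : tate g f A B ≠ 0
  eq : (tate f g A B : ℚ) = q * tate g f A B

theorem IsPair.symm {f g : X →* X} (h : IsPair f g) : IsPair g f := ⟨h.gf, h.fg⟩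

theorem IsStable.symm {f g : X →* X} {A : Subgroup X} (h : IsStable f g A) : IsStable g f A :=
  ⟨h.right, h.left⟩

theorem Her.pos {f g : X →* X} {A B : Subgroup X} {q : ℚ} (h : Her f g A B q) : 0 < q := by
  have h1 : (0 : ℚ) < tate f g A B := by exact_mod_cast Nat.pos_of_ne_zero h.left
  have h2 : (0 : ℚ) < tate g f A B := by exact_mod_cast Nat.pos_of_ne_zero h.right
  rw [h.eq] at h1
  exact pos_of_mul_pos_left h1 h2.le

theorem exists_her {f g : X →* X} {A B : Subgroup X} (h1 : tate f g A B ≠ 0)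
    (h2 : tate g f A B ≠ 0) : ∃ q, Her f g A B q :=
  ⟨tate f g A B / tate g f A B, h1, h2, by field_simp⟩

/-- Index formula for a homomorphism. -/
theorem relIndex_eq_map_mul_ker {Y : Type*} [CommGroup Y] (φ : X →* Y) {P Q : Subgroup X}
    (h : P ≤ Q) :
    P.relIndex Q = (P.map φ).relIndex (Q.map φ) * (P ⊓ φ.ker).relIndex (Q ⊓ φ.ker) := by
  have e1 : P ⊔ Q ⊓ φ.ker = Q ⊓ (P ⊔ φ.ker) := by
    rw [inf_comm Q, inf_comm Q]
    exact sup_inf_assoc_of_le φ.ker h |>.symm
  have e2 : P ⊔ Q ⊓ φ.ker ≤ Q := sup_le h inf_le_left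
  have e3 : (P ⊔ φ.ker) ⊔ Q = Q ⊔ φ.ker := by
    rw [sup_assoc, sup_comm φ.ker, ← sup_assoc, sup_eq_right.2 h]
  rw [Subgroup.relIndex_map_map, ← Subgroup.relIndex_mul_relIndex P (P ⊔ Q ⊓ φ.ker) Q le_sup_left e2,
    Subgroup.relIndex_sup_left, e1, Subgroup.inf_relIndex_left, ← e3, Subgroup.relIndex_sup_left,
    mul_comm, ← Subgroup.inf_relIndex_right P]
  congr 2
  rw [← inf_assoc, inf_eq_left.2 h]

section six

variable {f g : X →* X} {A B C : Subgroup X}

/-- `X`: the index `[B ∩ (f C A) : f B A]`. -/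
noncomputable def nX (f : X →* X) (A B C : Subgroup X) : ℕ :=
  (B.map f ⊔ A).relIndex (B ⊓ (C.map f ⊔ A))

/-- `Y`: the index `[C ∩ f⁻¹ A : g C (B ∩ f⁻¹ A)]`. -/
noncomputable def nY (f g : X →* X) (A B C : Subgroup X) : ℕ :=
  (C.map g ⊔ (B ⊓ A.comap f)).relIndex (C ⊓ A.comap f)

/-- `Z`: the index `[B ∩ f⁻¹ A : B ∩ (g C A)]`. -/
noncomputable def nZ (f g : X →* X) (A B C : Subgroup X) : ℕ :=
  (B ⊓ (C.map g ⊔ A)).relIndex (B ⊓ A.comap f)

theorem tate_low (hp : IsPair f g) (hA : IsStable f g A) (hB : IsStable f g B)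
    (hC : IsStable f g C) (hAB : A ≤ B) (hBC : B ≤ C) :
    tate f g A B = nX g A B C * nZ f g A B C := by
  unfold tate nX nZ
  refine (Subgroup.relIndex_mul_relIndex _ _ _ ?_ ?_).symm
  · refine le_inf (sup_le ?_ hAB) (sup_le_sup_right (Subgroup.map_mono hBC) _)
    rintro _ ⟨x, hx, rfl⟩
    exact hB.right x hx
  · refine le_inf inf_le_left (inf_le_right.trans (sup_le ?_ ?_))
    · rintro _ ⟨x, hx, rfl⟩
      show f (g x) ∈ A
      rw [hp.fg]
      exact A.one_mem
    · intro x hx
      exact hA.left x hx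

theorem tate_mid (hp : IsPair f g) (hA : IsStable f g A) (hB : IsStable f g B)
    (hC : IsStable f g C) (hAB : A ≤ B) (hBC : B ≤ C) :
    tate f g A C = nZ f g A B C * nY f g A B C := by
  unfold tate nZ nY
  have hgA : C.map g ≤ A.comap f := by
    rintro _ ⟨x, hx, rfl⟩
    show f (g x) ∈ A
    rw [hp.fg]
    exact A.one_mem
  have hAA : A ≤ A.comap f := fun x hx => hA.left x hx
  have hgC : C.map g ≤ C := by
    rintro _ ⟨x, hx, rfl⟩
    exact hC.right x hx
  rw [← Subgroup.relIndex_mul_relIndex (C.map g ⊔ A) (C.map g ⊔ (B ⊓ A.comap f))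
    (C ⊓ A.comap f) (sup_le_sup_left (le_inf hAB hAA) _)
    (sup_le (le_inf hgC hgA) (inf_le_inf_right _ hBC))]
  congr 1
  have e : C.map g ⊔ (B ⊓ A.comap f) = (C.map g ⊔ A) ⊔ (B ⊓ A.comap f) := by
    rw [sup_assoc, sup_eq_right.2 (le_inf hAB hAA)]
  rw [e, Subgroup.relIndex_sup_left, ← Subgroup.inf_relIndex_right]
  congr 1
  rw [← inf_assoc, inf_comm _ B, inf_assoc, inf_eq_left.2 (sup_le hgA hAA)]

theorem tate_high (hp : IsPair f g) (hA : IsStable f g A) (hB : IsStable f g B)
    (hC : IsStable f g C) (hAB : A ≤ B) (hBC : B ≤ C) :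
    tate f g B C = nX f A B C * nY f g A B C := by
  unfold tate nX nY
  have hgA : C.map g ≤ A.comap f := by
    rintro _ ⟨x, hx, rfl⟩
    show f (g x) ∈ A
    rw [hp.fg]
    exact A.one_mem
  have hAA : A ≤ A.comap f := fun x hx => hA.left x hx
  have hBB : B ≤ B.comap f := fun x hx => hB.left x hx
  have hgC : C.map g ≤ C := by
    rintro _ ⟨x, hx, rfl⟩
    exact hC.right x hx
  have hle : C.map g ⊔ B ≤ C ⊓ B.comap f :=
    sup_le (le_inf hgC (hgA.trans (Subgroup.comap_mono hAB))) (le_inf hBC hBB)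
  rw [relIndex_eq_map_mul_ker ((QuotientGroup.mk' A).comp f) hle]
  have hker : ((QuotientGroup.mk' A).comp f).ker = A.comap f := by
    ext x
    simp [MonoidHom.mem_ker]
  rw [hker]
  congr 1
  · rw [← Subgroup.map_map, ← Subgroup.map_map, Subgroup.relIndex_map_map, QuotientGroup.ker_mk']
    congr 1
    · rw [Subgroup.map_sup]
      have : (C.map g).map f = ⊥ := by
        rw [eq_bot_iff]
        rintro _ ⟨_, ⟨x, hx, rfl⟩, rfl⟩
        exact hp.fg x
      rw [this, bot_sup_eq]
    · ext y
      constructor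
      · intro hy
        obtain ⟨z, ⟨x, ⟨hx1, hx2⟩, rfl⟩, a, ha, rfl⟩ := Subgroup.mem_sup.1 hy
        exact ⟨B.mul_mem hx2 (hAB ha),
          Subgroup.mem_sup.2 ⟨f x, ⟨x, hx1, rfl⟩, a, ha, rfl⟩⟩
      · rintro ⟨h1, h2⟩
        obtain ⟨z, ⟨x, hx1, rfl⟩, a, ha, rfl⟩ := Subgroup.mem_sup.1 h2
        refine Subgroup.mem_sup.2 ⟨f x, ⟨x, ⟨hx1, ?_⟩, rfl⟩, a, ha, rfl⟩
        show f x ∈ B
        have := B.mul_mem h1 (B.inv_mem (hAB ha))
        simpa using this
  · congr 1
    · rw [sup_inf_assoc_of_le B hgA]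
    · rw [inf_assoc, inf_eq_right.2 (Subgroup.comap_mono hAB)]

/-- Herbrand's lemma: `q (C / A) = q (B / A) q (C / B)`. -/
theorem her_mid (hp : IsPair f g) (hA : IsStable f g A) (hB : IsStable f g B)
    (hC : IsStable f g C) (hAB : A ≤ B) (hBC : B ≤ C) {p q : ℚ} (h1 : Her f g A B p)
    (h2 : Her f g B C q) : Her f g A C (p * q) := by
  obtain ⟨l1, r1, e1⟩ := h1
  obtain ⟨l2, r2, e2⟩ := h2
  rw [tate_low hp hA hB hC hAB hBC] at l1 e1
  rw [tate_low hp.symm hA.symm hB.symm hC.symm hAB hBC] at r1 e1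
  rw [tate_high hp hA hB hC hAB hBC] at l2 e2
  rw [tate_high hp.symm hA.symm hB.symm hC.symm hAB hBC] at r2 e2
  have hm := tate_mid hp hA hB hC hAB hBC
  have hm' := tate_mid hp.symm hA.symm hB.symm hC.symm hAB hBC
  simp only [ne_eq, mul_eq_zero, not_or] at l1 r1 l2 r2
  refine ⟨by rw [hm]; simp [l1, l2], by rw [hm']; simp [r1, r2], ?_⟩
  rw [hm, hm']
  push_cast at e1 e2 ⊢
  have a1 : (nX g A B C : ℚ) ≠ 0 := by exact_mod_cast l1.1
  have a2 : (nX f A B C : ℚ) ≠ 0 := by exact_mod_cast l2.1
  have key : (nX g A B C : ℚ) * nX f A B C * (nZ f g A B C * nY f g A B C) =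
      (nX g A B C : ℚ) * nX f A B C * (p * q * (nZ g f A B C * nY g f A B C)) := by
    linear_combination (nX f A B C * nY f g A B C : ℚ) * e1 +
      p * nX f A B C * nZ g f A B C * e2
  exact mul_left_cancel₀ (mul_ne_zero a1 a2) key

theorem her_low (hp : IsPair f g) (hA : IsStable f g A) (hB : IsStable f g B)
    (hC : IsStable f g C) (hAB : A ≤ B) (hBC : B ≤ C) {p q : ℚ} (h1 : Her f g A C p)
    (h2 : Her f g B C q) : Her f g A B (p / q) := by
  have hq := h2.pos
  have h1' := h1
  have h2' := h2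
  obtain ⟨l1, r1, e1⟩ := h1'
  obtain ⟨l2, r2, e2⟩ := h2'
  rw [tate_mid hp hA hB hC hAB hBC] at l1
  rw [tate_mid hp.symm hA.symm hB.symm hC.symm hAB hBC] at r1
  rw [tate_high hp hA hB hC hAB hBC] at l2
  rw [tate_high hp.symm hA.symm hB.symm hC.symm hAB hBC] at r2
  simp only [ne_eq, mul_eq_zero, not_or] at l1 r1 l2 r2
  obtain ⟨r, hr⟩ := exists_her (f := f) (g := g) (A := A) (B := B)
    (by rw [tate_low hp hA hB hC hAB hBC]; simp [l1, r2])
    (by rw [tate_low hp.symm hA.symm hB.symm hC.symm hAB hBC]; simp [r1, l2])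
  have := her_mid hp hA hB hC hAB hBC hr h2
  have e : p = r * q := by
    have a := this.eq
    have b : (tate g f A C : ℚ) ≠ 0 := by exact_mod_cast h1.right
    rw [h1.eq] at a
    exact mul_right_cancel₀ b a
  rw [e, mul_div_cancel_right₀ _ hq.ne']
  exact hr

theorem her_high (hp : IsPair f g) (hA : IsStable f g A) (hB : IsStable f g B)
    (hC : IsStable f g C) (hAB : A ≤ B) (hBC : B ≤ C) {p q : ℚ} (h1 : Her f g A C p)
    (h2 : Her f g A B q) : Her f g B C (p / q) := by
  have hq := h2.pos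
  have h1' := h1
  have h2' := h2
  obtain ⟨l1, r1, e1⟩ := h1'
  obtain ⟨l2, r2, e2⟩ := h2'
  rw [tate_mid hp hA hB hC hAB hBC] at l1
  rw [tate_mid hp.symm hA.symm hB.symm hC.symm hAB hBC] at r1
  rw [tate_low hp hA hB hC hAB hBC] at l2
  rw [tate_low hp.symm hA.symm hB.symm hC.symm hAB hBC] at r2
  simp only [ne_eq, mul_eq_zero, not_or] at l1 r1 l2 r2
  obtain ⟨r, hr⟩ := exists_her (f := f) (g := g) (A := B) (B := C)
    (by rw [tate_high hp hA hB hC hAB hBC]; simp [l1, r2])
    (by rw [tate_high hp.symm hA.symm hB.symm hC.symm hAB hBC]; simp [r1, l2])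
  have := her_mid hp hA hB hC hAB hBC h2 hr
  have e : p = q * r := by
    have a := this.eq
    have b : (tate g f A C : ℚ) ≠ 0 := by exact_mod_cast h1.right
    rw [h1.eq] at a
    exact mul_right_cancel₀ b a
  rw [e, mul_div_cancel_left₀ _ hq.ne']
  exact hr

end six

/-- Finite quotients have Herbrand quotient `1`. -/
theorem her_finite {f g : X →* X} (hp : IsPair f g) {A B : Subgroup X} (hA : IsStable f g A)
    (hB : IsStable f g B) (hAB : A ≤ B) (hfin : A.relIndex B ≠ 0) : Her f g A B 1 := by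
  have main : ∀ f g : X →* X, IsPair f g → IsStable f g A → IsStable f g B →
      A.relIndex B = A.relIndex (B.map f ⊔ A) * (A.relIndex (B.map g ⊔ A) * tate f g A B) := by
    intro f g hp hA hB
    have hAA : A ≤ A.comap f := fun x hx => hA.left x hx
    have hgA : B.map g ≤ A.comap f := by
      rintro _ ⟨x, hx, rfl⟩
      show f (g x) ∈ A
      rw [hp.fg]
      exact A.one_mem
    have hgB : B.map g ≤ B := by
      rintro _ ⟨x, hx, rfl⟩
      exact hB.right x hx
    have hker : ((QuotientGroup.mk' A).comp f).ker = A.comap f := by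
      ext x
      simp [MonoidHom.mem_ker]
    have e := relIndex_eq_map_mul_ker ((QuotientGroup.mk' A).comp f) hAB
    rw [hker, inf_eq_left.2 hAA, ← Subgroup.map_map, ← Subgroup.map_map,
      Subgroup.relIndex_map_map, QuotientGroup.ker_mk'] at e
    have e2 : A.map f ⊔ A = A := sup_eq_right.2 (by
      rintro _ ⟨x, hx, rfl⟩
      exact hA.left x hx)
    rw [e2] at e
    rw [e]
    congr 1
    exact (Subgroup.relIndex_mul_relIndex _ _ _ le_sup_right
      (sup_le (le_inf hgB hgA) (le_inf hAB hAA))).symm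
  have m1 := main f g hp hA hB
  have m2 := main g f hp.symm hA.symm hB.symm
  have n1 := hfin
  rw [m1] at n1
  have n2 := hfin
  rw [m2] at n2
  simp only [ne_eq, mul_eq_zero, not_or] at n1 n2
  refine ⟨n1.2.2, n2.2.2, ?_⟩
  have : A.relIndex (B.map f ⊔ A) * A.relIndex (B.map g ⊔ A) * tate f g A B =
      A.relIndex (B.map f ⊔ A) * A.relIndex (B.map g ⊔ A) * tate g f A B := by
    rw [mul_assoc, ← m1, m2]
    ring
  have := Nat.eq_of_mul_eq_mul_left (Nat.pos_of_ne_zero (mul_ne_zero n1.1 n1.2.1)) this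
  rw [this, one_mul]

end Pool.Agent.H69H
end

-- from Lib.H69H.Defs
section

set_option autoImplicit false
set_option linter.unusedSectionVars false

/-! # H69H: the first inequality of class field theory. Definitions.

`dif s x = s x / x`, `nrm n s x = x * s x * ... * s^(n-1) x` on a commutative group `X` with an endomorphism `s`;
`tate (dif s) (nrm n s) A B` is the order of the Tate group `H^0` of `B / A`, `tate (nrm n s) (dif s) A B` the order of `H^(-1)`
(file A1). `sU σ` : the action of `σ` on `Lˣ`; `gp σ`: on the primes of `L`; `sM σ`: on the divisors of `L` (multiplicative notation);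
`dvU`: the divisor, as a homomorphism from `Lˣ`. `con`: the conorm `Dv K → Dv L`. `DTK T`, `DTL T`: divisors supported above `T`.
`UL`: the units of the ring of integers. `RamInf`: the ramified infinite places of `K`, `PosR x`: `x` is positive there.
`IsV S V`: the properties of the group `V` at the primes of `S`. `ET V T`: the elements of `V` supported above `T`. -/

namespace Pool.Agent.H69H

open NumberField IsDedekindDomain CFT
open scoped Pointwise

section gen

variable {X : Type*} [CommGroup X]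

/-- `x ↦ s x / x`. -/
def dif (s : X →* X) : X →* X := s / MonoidHom.id X

theorem dif_apply (s : X →* X) (x : X) : dif s x = s x / x := rfl

/-- `x ↦ x * s x * ... * s ^ (n - 1) x`. -/
def nrm (n : ℕ) (s : X →* X) : X →* X where
  toFun x := ∏ i ∈ Finset.range n, s^[i] x
  map_one' := by simp
  map_mul' x y := by simp [iterate_map_mul, Finset.prod_mul_distrib]

theorem nrm_apply (n : ℕ) (s : X →* X) (x : X) : nrm n s x = ∏ i ∈ Finset.range n, s^[i] x := rfl

end gen

variable {K : Type} [Field K] [NumberField K] {L : Type} [Field L] [NumberField L] [Algebra K L]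

/-- The action on `Lˣ`. -/
def sU (σ : L ≃ₐ[K] L) : Lˣ →* Lˣ := Units.map ((σ : L →+* L) : L →* L)

@[simp] theorem sU_coe (σ : L ≃ₐ[K] L) (x : Lˣ) : ((sU σ x : Lˣ) : L) = σ x := rfl

/-- The action on the primes. -/
def gp (σ : L ≃ₐ[K] L) (w : Pr L) : Pr L :=
  ⟨σ • w.asIdeal, inferInstance, by
    rw [Ne, ← Ideal.zero_eq_bot, smul_eq_zero_iff_eq, Ideal.zero_eq_bot]
    exact w.ne_bot⟩

theorem gp_asIdeal (σ : L ≃ₐ[K] L) (w : Pr L) : (gp σ w).asIdeal = σ • w.asIdeal := rfl

theorem gp_one (w : Pr L) : gp (1 : L ≃ₐ[K] L) w = w := by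
  ext1
  rw [gp_asIdeal, one_smul]

theorem gp_mul (σ τ : L ≃ₐ[K] L) (w : Pr L) : gp (σ * τ) w = gp σ (gp τ w) := by
  ext1
  rw [gp_asIdeal, gp_asIdeal, gp_asIdeal, mul_smul]

theorem gp_inv_gp (σ : L ≃ₐ[K] L) (w : Pr L) : gp σ⁻¹ (gp σ w) = w := by
  rw [← gp_mul, inv_mul_cancel, gp_one]

theorem gp_gp_inv (σ : L ≃ₐ[K] L) (w : Pr L) : gp σ (gp σ⁻¹ w) = w := by
  rw [← gp_mul, mul_inv_cancel, gp_one]

/-- The action on the primes, as an equivalence. -/
def gpE (σ : L ≃ₐ[K] L) : Pr L ≃ Pr L where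
  toFun := gp σ
  invFun := gp σ⁻¹
  left_inv := gp_inv_gp σ
  right_inv := gp_gp_inv σ

/-- The action on the divisors. -/
noncomputable def sD (σ : L ≃ₐ[K] L) : Dv L →+ Dv L :=
  (Finsupp.domCongr (gpE σ) : Dv L ≃+ Dv L).toAddMonoidHom

theorem sD_apply (σ : L ≃ₐ[K] L) (D : Dv L) (w : Pr L) : sD σ D w = D (gp σ⁻¹ w) := rfl

/-- The action on the divisors, multiplicative notation. -/
noncomputable def sM (σ : L ≃ₐ[K] L) : Multiplicative (Dv L) →* Multiplicative (Dv L) :=
  AddMonoidHom.toMultiplicative (sD σ)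

/-- The divisor as a homomorphism. -/
noncomputable def dvU (L : Type) [Field L] [NumberField L] : Lˣ →* Multiplicative (Dv L) where
  toFun x := Multiplicative.ofAdd (dv (x : L))
  map_one' := by
    rw [Units.val_one, dv_one, ofAdd_zero]
  map_mul' x y := by
    rw [Units.val_mul, dv_mul x.ne_zero y.ne_zero, ofAdd_add]

theorem dvU_apply (x : Lˣ) : dvU L x = Multiplicative.ofAdd (dv (x : L)) := rfl

theorem fib_fin (K : Type) [Field K] [NumberField K] [Algebra K L] (v : Pr K) : {w : Pr L | below K w = v}.Finite := by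
  have h : (v.asIdeal.primesOver (𝓞 L)).Finite := IsDedekindDomain.primesOver_finite v.asIdeal (𝓞 L)
  refine Set.Finite.of_finite_image (f := fun w : Pr L => w.asIdeal) (h.subset ?_)
    HeightOneSpectrum.asIdeal_injective.injOn
  rintro _ ⟨w, hw, rfl⟩
  refine ⟨w.isPrime, ⟨?_⟩⟩
  have : (below K w).asIdeal = v.asIdeal := by rw [hw]
  exact this.symm

/-- The conorm of a divisor of `K`. -/
noncomputable def con (K L : Type) [Field K] [NumberField K] [Field L] [NumberField L] [Algebra K L] : Dv K →+ Dv L where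
  toFun D := Finsupp.ofSupportFinite (fun w => (w.asIdeal.ramificationIdx (𝓞 K) : ℤ) * D (below K w)) (by
    refine ((D.support.finite_toSet).biUnion fun v _ => fib_fin (L := L) K v).subset fun w hw => ?_
    rw [Function.mem_support] at hw
    refine Set.mem_biUnion (x := below K w) ?_ rfl
    rw [Finset.mem_coe, Finsupp.mem_support_iff]
    exact right_ne_zero_of_mul hw)
  map_zero' := by
    ext w
    exact mul_zero _
  map_add' D E := by
    ext w
    exact mul_add _ _ _

theorem con_apply (D : Dv K) (w : Pr L) : con K L D w = (w.asIdeal.ramificationIdx (𝓞 K) : ℤ) * D (below K w) := rfl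

/-- The divisors of `K` supported on `T`. -/
noncomputable def DTK (T : Finset (Pr K)) : AddSubgroup (Dv K) where
  carrier := {D | ∀ v, v ∉ T → D v = 0}
  zero_mem' := fun _ _ => rfl
  add_mem' := fun {D E} h1 h2 v hv => by rw [Finsupp.add_apply, h1 v hv, h2 v hv, add_zero]
  neg_mem' := fun {D} h1 v hv => by rw [Finsupp.neg_apply, h1 v hv, neg_zero]

/-- The divisors of `L` supported above `T`. -/
noncomputable def DTL (L : Type) [Field L] [NumberField L] [Algebra K L] (T : Finset (Pr K)) : AddSubgroup (Dv L) where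
  carrier := {D | ∀ w, below K w ∉ T → D w = 0}
  zero_mem' := fun _ _ => rfl
  add_mem' := fun {D E} h1 h2 v hv => by rw [Finsupp.add_apply, h1 v hv, h2 v hv, add_zero]
  neg_mem' := fun {D} h1 v hv => by rw [Finsupp.neg_apply, h1 v hv, neg_zero]

/-- The group `DTL`, multiplicative notation. -/
noncomputable def MT (L : Type) [Field L] [NumberField L] [Algebra K L] (T : Finset (Pr K)) : Subgroup (Multiplicative (Dv L)) :=
  AddSubgroup.toSubgroup (DTL L T)

theorem mem_MT (T : Finset (Pr K)) (D : Multiplicative (Dv L)) :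
    D ∈ MT L T ↔ ∀ w, below K w ∉ T → Multiplicative.toAdd D w = 0 := Iff.rfl

/-- The units of the ring of integers. -/
noncomputable def UL (L : Type) [Field L] [NumberField L] : Subgroup Lˣ := (dvU L).ker

/-- The ramified infinite places of `K`. -/
noncomputable def RamInf (K L : Type) [Field K] [NumberField K] [Field L] [NumberField L] [Algebra K L] :
    Finset (InfinitePlace K) := by
  classical exact Finset.univ.filter fun v => ¬ v.IsUnramifiedIn L

/-- `x` is positive at the ramified infinite places. -/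
def PosR (L : Type) [Field L] [NumberField L] [Algebra K L] (x : K) : Prop :=
  ∀ φ : K →+* ℝ, InfinitePlace.mk ((algebraMap ℝ ℂ).comp φ) ∈ RamInf K L → 0 < φ x

/-- The embedding of `Kˣ` in `Lˣ`. -/
def kU (K L : Type) [Field K] [Field L] [Algebra K L] : Kˣ →* Lˣ := Units.map (algebraMap K L : K →* L)

@[simp] theorem kU_coe (κ : Kˣ) : ((kU K L κ : Lˣ) : L) = algebraMap K L (κ : K) := rfl

/-- The properties of the group `V` at the primes of `S`: stable; units at the primes of `S`; if `σ y / y` is in `V` then `y` is in `Kˣ V`;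
the elements sufficiently near to `1` at all primes above `S` are in `V`. -/
structure IsV (σ : L ≃ₐ[K] L) (S : Finset (Pr K)) (V : Subgroup Lˣ) : Prop where
  stable : ∀ x ∈ V, sU σ x ∈ V
  unit : ∀ x ∈ V, ∀ w : Pr L, below K w ∈ S → od w (x : L) = 0
  crit : ∀ y : Lˣ, dif (sU σ) y ∈ V → ∃ κ : Kˣ, ∃ x ∈ V, y = kU K L κ * x
  ray : ∃ N : ℕ, ∀ y : Lˣ, (∀ w : Pr L, below K w ∈ S → w.valuation L ((y : L) - 1) < WithZero.exp (-(N : ℤ))) → y ∈ V

/-- The elements of `V` supported above `T`. -/
noncomputable def ET (V : Subgroup Lˣ) (T : Finset (Pr K)) : Subgroup Lˣ := V ⊓ (MT L T).comap (dvU L)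

theorem mem_ET (V : Subgroup Lˣ) (T : Finset (Pr K)) (x : Lˣ) :
    x ∈ ET V T ↔ x ∈ V ∧ ∀ w, below K w ∉ T → od w (x : L) = 0 := Iff.rfl

/-- The properties of the finite set `T` of primes outside `S` (and of `N`): (ray) rays are in `V`; (a) `Dv K = DTK T + Pray S N`;
(b) every divisor of `L` is, outside `S`, the sum of an element of `DTL T` and of the divisor of an element of `V`; (c) for every ramified
infinite place `v` there is an element of `K` in `V`, supported on `T`, negative at `v` and positive at the other ramified infinite places. -/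
structure IsT (σ : L ≃ₐ[K] L) (S : Finset (Pr K)) (V : Subgroup Lˣ) (N : ℕ) (T : Finset (Pr K)) : Prop where
  disj : ∀ v ∈ T, v ∉ S
  ray : ∀ κ : Kˣ, Ray S N (κ : K) → kU K L κ ∈ V
  a : ∀ D : Dv K, ∃ E ∈ DTK T, D - E ∈ Pray S N
  b : ∀ D : Dv L, ∃ E ∈ DTL L T, ∃ y ∈ V, ∀ w, below K w ∉ S → D w = E w + od w (y : L)
  c : ∀ v ∈ RamInf K L, ∃ κ : Kˣ, kU K L κ ∈ ET V T ∧
    ∀ φ : K →+* ℝ, (InfinitePlace.mk ((algebraMap ℝ ℂ).comp φ) = v → φ (κ : K) < 0) ∧
      (InfinitePlace.mk ((algebraMap ℝ ℂ).comp φ) ∈ RamInf K L → InfinitePlace.mk ((algebraMap ℝ ℂ).comp φ) ≠ v → 0 < φ (κ : K))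

/-- The elements of `ET V T` which are in `K` and positive at the ramified infinite places. -/
def PP (V : Subgroup Lˣ) (T : Finset (Pr K)) : Subgroup Lˣ where
  carrier := {x | x ∈ ET V T ∧ ∃ κ : Kˣ, x = kU K L κ ∧ PosR L (κ : K)}
  one_mem' := ⟨one_mem _, 1, by simp, fun φ _ => by simp⟩
  mul_mem' := by
    rintro x y ⟨hx, κ, rfl, h1⟩ ⟨hy, μ, rfl, h2⟩
    exact ⟨mul_mem hx hy, κ * μ, by simp, fun φ hφ => by
      rw [Units.val_mul, map_mul]
      exact mul_pos (h1 φ hφ) (h2 φ hφ)⟩
  inv_mem' := by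
    rintro x ⟨hx, κ, rfl, h1⟩
    exact ⟨inv_mem hx, κ⁻¹, by simp, fun φ hφ => by
      rw [Units.val_inv_eq_inv_val, map_inv₀]
      exact inv_pos.2 (h1 φ hφ)⟩

/-- The divisors `dv κ + Nd E`, with `κ` as in `PP` and `E` supported above `T`. -/
def QQ (V : Subgroup Lˣ) (T : Finset (Pr K)) : AddSubgroup (Dv K) where
  carrier := {D | ∃ κ : Kˣ, kU K L κ ∈ ET V T ∧ PosR L (κ : K) ∧ ∃ E ∈ DTL L T, D = dv (κ : K) + Nd K L E}
  zero_mem' := ⟨1, by simp [one_mem], fun φ _ => by simp, 0, zero_mem _, by rw [Units.val_one, dv_one, map_zero, add_zero]⟩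
  add_mem' := by
    rintro D D' ⟨κ, h1, h2, E, h3, rfl⟩ ⟨κ', h1', h2', E', h3', rfl⟩
    refine ⟨κ * κ', by rw [map_mul]; exact mul_mem h1 h1', fun φ hφ => ?_, E + E', add_mem h3 h3', ?_⟩
    · rw [Units.val_mul, map_mul]
      exact mul_pos (h2 φ hφ) (h2' φ hφ)
    · rw [Units.val_mul, dv_mul κ.ne_zero κ'.ne_zero, map_add]
      abel
  neg_mem' := by
    rintro D ⟨κ, h1, h2, E, h3, rfl⟩
    refine ⟨κ⁻¹, by rw [map_inv]; exact inv_mem h1, fun φ hφ => ?_, -E, neg_mem h3, ?_⟩
    · rw [Units.val_inv_eq_inv_val, map_inv₀]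
      exact inv_pos.2 (h2 φ hφ)
    · rw [Units.val_inv_eq_inv_val, dv_inv, map_neg]
      abel

/-- The action of a permutation on integer valued functions. -/
def sW {W : Type*} (s : W ≃ W) : Multiplicative (W → ℤ) →* Multiplicative (W → ℤ) :=
  AddMonoidHom.toMultiplicative
    { toFun := fun x w => x (s.symm w)
      map_zero' := rfl
      map_add' := fun _ _ => rfl }

theorem sW_apply {W : Type*} (s : W ≃ W) (x : Multiplicative (W → ℤ)) (w : W) :
    Multiplicative.toAdd (sW s x) w = Multiplicative.toAdd x (s.symm w) := rfl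

/-- The homomorphism from functions on the infinite places to the units. -/
noncomputable def phi (ε : InfinitePlace L → Lˣ) : Multiplicative (InfinitePlace L → ℤ) →* Lˣ where
  toFun x := ∏ w, ε w ^ (Multiplicative.toAdd x w)
  map_one' := by simp
  map_mul' x y := by simp [zpow_add, Finset.prod_mul_distrib]

theorem phi_apply (ε : InfinitePlace L → Lˣ) (x : Multiplicative (InfinitePlace L → ℤ)) :
    phi ε x = ∏ w, ε w ^ (Multiplicative.toAdd x w) := rfl

end Pool.Agent.H69H
end

-- from Lib.H69H.U2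
section

set_option autoImplicit false
set_option linter.unusedSectionVars false

namespace Pool.Agent.H69H

open NumberField IsDedekindDomain CFT

theorem u2_claim {ι : Type*} [Fintype ι] (C : ι → ι → ℝ) (m : ι → ℝ) (hm : ∀ i, 0 < m i)
    (hoff : ∀ i j, i ≠ j → C i j < 0) (hsum : ∀ j, ∑ i, m i * C i j = 0) (x : ι → ℤ)
    (hx : ∀ i, ∑ j, C i j * x j = 0) (j0 : ι) (hj0 : 0 < x j0) : ∀ j, 0 < x j := by
  classical
  by_contra hcon
  push Not at hcon
  obtain ⟨q0, hq0⟩ := hcon
  let P : Finset ι := Finset.univ.filter fun j => 0 < x j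
  let Q : Finset ι := Finset.univ.filter fun j => ¬ 0 < x j
  have hP : j0 ∈ P := Finset.mem_filter.2 ⟨Finset.mem_univ _, hj0⟩
  have hQ : q0 ∈ Q := Finset.mem_filter.2 ⟨Finset.mem_univ _, not_lt.2 hq0⟩
  have h0 : ∑ j, (x j : ℝ) * ∑ i ∈ Q, m i * C i j = 0 := by
    have h1 : ∑ i ∈ Q, m i * ∑ j, C i j * x j = 0 :=
      Finset.sum_eq_zero fun i _ => by rw [hx i, mul_zero]
    rw [← h1]
    simp_rw [Finset.mul_sum]
    rw [Finset.sum_comm]
    refine Finset.sum_congr rfl fun i _ => Finset.sum_congr rfl fun j _ => by ring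
  have hcP : ∀ j ∈ P, ∑ i ∈ Q, m i * C i j < 0 := by
    intro j hj
    refine Finset.sum_neg (fun i hi => ?_) ⟨q0, hQ⟩
    have hij : i ≠ j := by
      rintro rfl
      exact (Finset.mem_filter.1 hi).2 (Finset.mem_filter.1 hj).2
    exact mul_neg_of_pos_of_neg (hm i) (hoff i j hij)
  have hcQ : ∀ j ∈ Q, 0 < ∑ i ∈ Q, m i * C i j := by
    intro j hj
    have h1 : ∑ i ∈ P, m i * C i j + ∑ i ∈ Q, m i * C i j = 0 := by
      rw [← hsum j]
      exact Finset.sum_filter_add_sum_filter_not _ _ _
    have h2 : ∑ i ∈ P, m i * C i j < 0 := by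
      refine Finset.sum_neg (fun i hi => ?_) ⟨j0, hP⟩
      have hij : i ≠ j := by
        rintro rfl
        exact (Finset.mem_filter.1 hj).2 (Finset.mem_filter.1 hi).2
      exact mul_neg_of_pos_of_neg (hm i) (hoff i j hij)
    linarith
  have hle : ∀ j ∈ (Finset.univ : Finset ι), (x j : ℝ) * ∑ i ∈ Q, m i * C i j ≤ 0 := by
    intro j _
    by_cases hj : 0 < x j
    · have h1 := hcP j (Finset.mem_filter.2 ⟨Finset.mem_univ _, hj⟩)
      have h2 : (0 : ℝ) < x j := by exact_mod_cast hj
      exact (mul_neg_of_pos_of_neg h2 h1).le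
    · have h1 := hcQ j (Finset.mem_filter.2 ⟨Finset.mem_univ _, hj⟩)
      have h2 : (x j : ℝ) ≤ 0 := by exact_mod_cast not_lt.1 hj
      exact mul_nonpos_of_nonpos_of_nonneg h2 h1.le
  have hlt : (x j0 : ℝ) * ∑ i ∈ Q, m i * C i j0 < 0 := by
    have h2 : (0 : ℝ) < x j0 := by exact_mod_cast hj0
    exact mul_neg_of_pos_of_neg h2 (hcP j0 hP)
  have := Finset.sum_lt_sum hle ⟨j0, Finset.mem_univ _, hlt⟩
  rw [h0, Finset.sum_const_zero] at this
  exact lt_irrefl _ this

/-- PROOF. Claim: if some `x j > 0` then all are. Let `P = {j | 0 < x j}`, nonempty, `Q` its complement, suppose `Q` is nonempty. Then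
`0 = ∑_{i ∈ Q} m i * ∑_j C i j * x j = ∑_j x j * c j`, `c j = ∑_{i ∈ Q} m i * C i j`. For `j ∈ P`: `c j < 0` (`Q` is nonempty and does not contain `j`).
For `j ∈ Q`: `c j = - ∑_{i ∈ P} m i * C i j > 0`. So all terms of `∑_j x j * c j` are `≤ 0` and those with `j ∈ P` are `< 0`: contradiction. Apply the
claim to `x` and to `-x`. -/
theorem sign_lemma {ι : Type*} [Fintype ι] (C : ι → ι → ℝ) (m : ι → ℝ) (hm : ∀ i, 0 < m i)
    (hoff : ∀ i j, i ≠ j → C i j < 0) (hsum : ∀ j, ∑ i, m i * C i j = 0) (x : ι → ℤ)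
    (hx : ∀ i, ∑ j, C i j * x j = 0) : (∀ j, x j = 0) ∨ (∀ j, 0 < x j) ∨ (∀ j, x j < 0) := by
  classical
  by_cases h1 : ∃ j, 0 < x j
  · obtain ⟨j0, hj0⟩ := h1
    exact Or.inr (Or.inl (u2_claim C m hm hoff hsum x hx j0 hj0))
  by_cases h2 : ∃ j, x j < 0
  · obtain ⟨j0, hj0⟩ := h2
    refine Or.inr (Or.inr fun j => ?_)
    have := u2_claim C m hm hoff hsum (fun j => -x j) (fun i => by
      have e : ∑ j, C i j * ((-x j : ℤ) : ℝ) = -∑ j, C i j * (x j : ℝ) := by
        rw [← Finset.sum_neg_distrib]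
        refine Finset.sum_congr rfl fun j _ => ?_
        push_cast
        ring
      rw [e, hx i, neg_zero]) j0 (by simpa using hj0) j
    simpa using this
  · push Not at h1 h2
    exact Or.inl fun j => le_antisymm (h1 j) (h2 j)

end Pool.Agent.H69H
end

-- from Lib.H69H.C1
section

set_option autoImplicit false
set_option linter.unusedSectionVars false

namespace Pool.Agent.H69H

open NumberField IsDedekindDomain CFT

variable {K : Type} [Field K] [NumberField K] {L : Type} [Field L] [NumberField L] [Algebra K L]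

theorem c1_iter (σ : L ≃ₐ[K] L) (i : ℕ) (x : Lˣ) : (((sU σ)^[i] x : Lˣ) : L) = (σ ^ i) (x : L) := by
  induction i with
  | zero => rfl
  | succ i ih => rw [Function.iterate_succ_apply', sU_coe, ih, pow_succ']; rfl

/-- `σ ^ card G = 1`, `card G = finrank K L` (`IsGalois.card_aut_eq_finrank`). -/
theorem sU_iter [IsGalois K L] (σ : L ≃ₐ[K] L) (x : Lˣ) : (sU σ)^[Module.finrank K L] x = x := by
  apply Units.ext
  rw [c1_iter, ← IsGalois.card_aut_eq_finrank, pow_card_eq_one']
  rfl

/-- An element fixed by the generator is fixed by all of `G`, so it is in `K` (`IsGalois.mem_bot_iff_fixed`, or `IsGalois.mem_range_algebraMap_iff_fixed`). -/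
theorem dif_eq_one [IsGalois K L] (σ : L ≃ₐ[K] L) (hσ : ∀ x, x ∈ Subgroup.zpowers σ) (x : Lˣ) :
    dif (sU σ) x = 1 ↔ ∃ κ : Kˣ, x = kU K L κ := by
  constructor
  · intro h
    rw [dif_apply, div_eq_one] at h
    have h1 : σ (x : L) = x := congrArg Units.val h
    have h2 : (x : L) ∈ Set.range (algebraMap K L) := by
      rw [IsGalois.mem_range_algebraMap_iff_fixed]
      intro f
      obtain ⟨i, rfl⟩ := hσ f
      have h3 : σ ∈ MulAction.stabilizer (L ≃ₐ[K] L) (x : L) := h1
      exact (MulAction.stabilizer (L ≃ₐ[K] L) (x : L)).zpow_mem h3 i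
    obtain ⟨κ, hκ⟩ := h2
    have hκ0 : κ ≠ 0 := by
      rintro rfl
      rw [map_zero] at hκ
      exact x.ne_zero hκ.symm
    exact ⟨Units.mk0 κ hκ0, Units.ext hκ.symm⟩
  · rintro ⟨κ, rfl⟩
    rw [dif_apply, div_eq_one]
    apply Units.ext
    rw [sU_coe, kU_coe, σ.commutes]

/-- `Algebra.norm_eq_prod_automorphisms` and the bijection `i ↦ σ^i` from `range n` to `G`. -/
theorem nrm_eq [IsGalois K L] (σ : L ≃ₐ[K] L) (hσ : ∀ x, x ∈ Subgroup.zpowers σ) (x : Lˣ) :
    nrm (Module.finrank K L) (sU σ) x = kU K L (Units.map (Algebra.norm K : L →* K) x) := by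
  apply Units.ext
  rw [nrm_apply, Units.coe_prod]
  simp only [c1_iter]
  rw [kU_coe, Units.coe_map]
  show _ = algebraMap K L (Algebra.norm K (x : L))
  rw [Algebra.norm_eq_prod_automorphisms, ← IsGalois.card_aut_eq_finrank]
  classical
  rw [← IsCyclic.image_range_card hσ, Finset.prod_image]
  rw [← orderOf_eq_card_of_forall_mem_zpowers hσ, Finset.coe_range]
  exact pow_injOn_Iio_orderOf

/-- Hilbert 90, Mathlib `groupCohomology.exists_div_of_norm_eq_one` (take the inverse of `y`). -/
theorem hilbert90 [IsGalois K L] (σ : L ≃ₐ[K] L) (hσ : ∀ x, x ∈ Subgroup.zpowers σ) (x : Lˣ)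
    (hx : nrm (Module.finrank K L) (sU σ) x = 1) : ∃ y : Lˣ, x = dif (sU σ) y := by
  rw [nrm_eq σ hσ] at hx
  have h1 : Algebra.norm K (x : L) = 1 := by
    have h2 := congrArg Units.val hx
    rw [kU_coe, Units.val_one, ← map_one (algebraMap K L)] at h2
    exact (algebraMap K L).injective h2
  have : IsCyclic (L ≃ₐ[K] L) := ⟨σ, hσ⟩
  obtain ⟨y, hy⟩ := groupCohomology.exists_div_of_norm_eq_one hσ h1
  refine ⟨y⁻¹, Units.ext ?_⟩
  rw [map_inv, dif_apply, ← hy]
  rw [Units.val_inv_eq_inv_val, Units.val_div_eq_div_val, sU_coe, inv_div]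

end Pool.Agent.H69H
end

-- from Lib.H69H.D1
section

set_option autoImplicit false
set_option linter.unusedSectionVars false

namespace Pool.Agent.H69H

open NumberField IsDedekindDomain CFT

variable {K : Type} [Field K] [NumberField K] {L : Type} [Field L] [NumberField L] [Algebra K L]

theorem d1_comm : SMulCommClass (L ≃ₐ[K] L) (𝓞 K) (𝓞 L) := by
  refine ⟨fun s a x => ?_⟩
  apply RingOfIntegers.ext
  show s ((a • x : 𝓞 L) : L) = ((a • (s • x : 𝓞 L) : 𝓞 L) : L)
  rw [Algebra.smul_def, Algebra.smul_def]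
  show s (algebraMap K L (a : K) * (x : L)) = algebraMap K L (a : K) * s (x : L)
  rw [map_mul, AlgEquiv.commutes]

open scoped Pointwise in
/-- PROOF: the valuation at `σ w` of `σ x` is the valuation at `w` of `x`; for `x` in the ring of integers from the definition of `intValuation` (`HeightOneSpectrum.intValuation_le_pow_iff_mem`
or `intValuation_eq_exp_neg_multiplicity`; `σ x ∈ (σ w)^n` iff `x ∈ w^n`), then quotients. -/
theorem od_gp (σ : L ≃ₐ[K] L) (w : Pr L) (x : L) : od (gp σ w) (σ x) = od w x := by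
  have h1 : ∀ r : 𝓞 L, (gp σ w).intValuation (σ • r) = w.intValuation r := by
    intro r
    by_cases hr : r = 0
    · subst hr
      rw [smul_zero, map_zero, map_zero]
    have hr' : σ • r ≠ 0 := by
      rw [Ne, smul_eq_zero_iff_eq]
      exact hr
    have hmem : ∀ n : ℕ, σ • r ∈ (gp σ w).asIdeal ^ n ↔ r ∈ w.asIdeal ^ n := by
      intro n
      rw [gp_asIdeal, ← smul_pow', Ideal.smul_mem_pointwise_smul_iff]
    refine le_antisymm ?_ ?_
    · rw [w.intValuation_if_neg hr, HeightOneSpectrum.intValuation_le_pow_iff_mem, hmem,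
        ← HeightOneSpectrum.intValuation_le_pow_iff_mem]
      exact (w.intValuation_if_neg hr).le
    · rw [(gp σ w).intValuation_if_neg hr', HeightOneSpectrum.intValuation_le_pow_iff_mem, ← hmem,
        ← HeightOneSpectrum.intValuation_le_pow_iff_mem]
      exact ((gp σ w).intValuation_if_neg hr').le
  have h2 : ∀ r : 𝓞 L, (gp σ w).valuation L (σ (algebraMap (𝓞 L) L r)) = w.valuation L (algebraMap (𝓞 L) L r) := by
    intro r
    rw [HeightOneSpectrum.valuation_of_algebraMap, ← h1, ← HeightOneSpectrum.valuation_of_algebraMap (K := L)]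
    rfl
  obtain ⟨a, b, hb, rfl⟩ := IsFractionRing.div_surjective (A := 𝓞 L) x
  unfold od
  rw [map_div₀, map_div₀, map_div₀, h2, h2]

theorem dvU_sU (σ : L ≃ₐ[K] L) (x : Lˣ) : dvU L (sU σ x) = sM σ (dvU L x) := by
  show Multiplicative.ofAdd (dv (σ (x : L))) = Multiplicative.ofAdd (sD σ (dv (x : L)))
  congr 1
  ext w
  rw [sD_apply, dv_apply, dv_apply, ← od_gp σ (gp σ⁻¹ w) (x : L), gp_gp_inv]

/-- Mathlib `Ideal.under_smul`. -/
theorem below_gp (σ : L ≃ₐ[K] L) (w : Pr L) : below K (gp σ w) = below K w := by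
  ext1
  show (gp σ w).asIdeal.under (𝓞 K) = w.asIdeal.under (𝓞 K)
  have hc : SMulCommClass (L ≃ₐ[K] L) (𝓞 K) (𝓞 L) := d1_comm
  rw [gp_asIdeal]
  exact Ideal.under_smul _ _ _

/-- Mathlib `Ideal.exists_smul_eq_of_isGaloisGroup` (or `Algebra.IsInvariant.exists_smul_of_under_eq`). -/
theorem exists_gp [IsGalois K L] (w w' : Pr L) (h : below K w = below K w') : ∃ τ : L ≃ₐ[K] L, gp τ w = w' := by
  have h1 : w.asIdeal.under (𝓞 K) = w'.asIdeal.under (𝓞 K) := congrArg HeightOneSpectrum.asIdeal h
  obtain ⟨g, hg⟩ := Algebra.IsInvariant.exists_smul_of_under_eq (𝓞 K) (𝓞 L) (L ≃ₐ[K] L) w.asIdeal w'.asIdeal h1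
  exact ⟨g, HeightOneSpectrum.ext hg.symm⟩

theorem sM_iter [IsGalois K L] (σ : L ≃ₐ[K] L) (D : Multiplicative (Dv L)) : (sM σ)^[Module.finrank K L] D = D := by
  have h1 : ∀ i : ℕ, (sM σ)^[i] D = sM (σ ^ i) D := by
    intro i
    induction i with
    | zero =>
      apply Multiplicative.toAdd.injective
      ext w
      show _ = Multiplicative.toAdd D (gp (σ ^ 0)⁻¹ w)
      rw [pow_zero, inv_one, gp_one]
      rfl
    | succ i ih =>
      rw [Function.iterate_succ_apply', ih]
      apply Multiplicative.toAdd.injective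
      ext w
      show Multiplicative.toAdd D (gp (σ ^ i)⁻¹ (gp σ⁻¹ w)) = Multiplicative.toAdd D (gp (σ ^ (i + 1))⁻¹ w)
      rw [← gp_mul, pow_succ', mul_inv_rev]
  rw [h1, ← IsGalois.card_aut_eq_finrank, pow_card_eq_one']
  apply Multiplicative.toAdd.injective
  ext w
  show Multiplicative.toAdd D (gp (1 : L ≃ₐ[K] L)⁻¹ w) = _
  rw [inv_one, gp_one]

end Pool.Agent.H69H
end

-- from Lib.H69H.D3
section

set_option autoImplicit false
set_option linter.unusedSectionVars false

namespace Pool.Agent.H69H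

open NumberField IsDedekindDomain CFT

variable {K : Type} [Field K] [NumberField K] {L : Type} [Field L] [NumberField L] [Algebra K L]

open scoped Pointwise in
/-- PROOF. As in U6: `i ↦ σ^i` is a bijection from `range (finrank K L)` to `G = Gal(L/K)`, `(gp σ)^[i] w = gp (σ^i) w`, so the number is `#{g ∈ G | g • w = w'}`, a coset of the stabilizer
(`w'` is in the orbit: `Ideal.exists_smul_eq_of_isGaloisGroup`), of order `e f`: Mathlib `Ideal.card_stabilizer_eq`, `Ideal.ramificationIdxIn_eq_ramificationIdx`, `Ideal.inertiaDegIn_eq_inertiaDeg`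
(`IsGaloisGroup (L ≃ₐ[K] L) (𝓞 K) (𝓞 L)` : see how NumberTheory/RamificationInertia/HilbertTheory.lean or NumberField files get it, `IsGaloisGroup.of_isFractionRing`). -/
theorem gp_count [IsGalois K L] (σ : L ≃ₐ[K] L) (hσ : ∀ x, x ∈ Subgroup.zpowers σ) (w w' : Pr L)
    (h : below K w = below K w') [DecidableEq (Pr L)] :
    ((Finset.range (Module.finrank K L)).filter fun i => (gp σ)^[i] w = w').card =
      w.asIdeal.ramificationIdx (𝓞 K) * w.asIdeal.inertiaDeg (𝓞 K) := by
  have hG : IsGaloisGroup (L ≃ₐ[K] L) (𝓞 K) (𝓞 L) := inferInstance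
  have hp := w.isPrime
  have hv := (below K w).isMaximal
  have hl : w.asIdeal.LiesOver (below K w).asIdeal := ⟨rfl⟩
  have hfin : Finite (𝓞 K ⧸ (below K w).asIdeal) := Ring.HasFiniteQuotients.finiteQuotient (below K w).ne_bot
  have hperf : PerfectField (below K w).asIdeal.ResidueField := by
    have : Finite (below K w).asIdeal.ResidueField :=
      Finite.of_surjective _ (Ideal.bijective_algebraMap_quotient_residueField (below K w).asIdeal).surjective
    infer_instance
  have hst : Nat.card (MulAction.stabilizer (L ≃ₐ[K] L) w.asIdeal) = w.asIdeal.ramificationIdx (𝓞 K) * w.asIdeal.inertiaDeg (𝓞 K) := by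
    rw [Ideal.card_stabilizer_eq (G := L ≃ₐ[K] L) (below K w).asIdeal w.asIdeal,
      Ideal.ramificationIdxIn_eq_ramificationIdx (below K w).asIdeal w.asIdeal (L ≃ₐ[K] L),
      Ideal.inertiaDegIn_eq_inertiaDeg (below K w).asIdeal w.asIdeal (L ≃ₐ[K] L)]
  rw [← hst]
  have hit : ∀ i : ℕ, (gp σ)^[i] w = gp (σ ^ i) w := by
    intro i
    induction i with
    | zero => rw [pow_zero, gp_one]; rfl
    | succ i ih => rw [Function.iterate_succ_apply', ih, ← gp_mul, pow_succ']
  have h1 : w.asIdeal.under (𝓞 K) = w'.asIdeal.under (𝓞 K) := congrArg HeightOneSpectrum.asIdeal h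
  obtain ⟨g, hg⟩ := Algebra.IsInvariant.exists_smul_of_under_eq (𝓞 K) (𝓞 L) (L ≃ₐ[K] L) w.asIdeal w'.asIdeal h1
  have hg' : gp g w = w' := HeightOneSpectrum.ext hg.symm
  classical
  have e1 : ((Finset.range (Module.finrank K L)).filter fun i => (gp σ)^[i] w = w').card =
      (Finset.univ.filter fun τ : L ≃ₐ[K] L => gp τ w = w').card := by
    rw [← IsGalois.card_aut_eq_finrank]
    simp only [hit]
    rw [← IsCyclic.image_range_card hσ, Finset.filter_image, Finset.card_image_of_injOn]
    rw [← orderOf_eq_card_of_forall_mem_zpowers hσ]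
    refine (pow_injOn_Iio_orderOf (x := σ)).mono fun i hi => ?_
    exact Finset.mem_range.1 (Finset.mem_filter.1 hi).1
  rw [e1]
  have e2 : Nat.card (MulAction.stabilizer (L ≃ₐ[K] L) w.asIdeal) = (Finset.univ.filter fun τ : L ≃ₐ[K] L => gp τ w = w).card := by
    rw [Nat.card_eq_fintype_card, Fintype.card_subtype]
    congr 1
    ext τ
    simp only [Finset.mem_filter, Finset.mem_univ, true_and, MulAction.mem_stabilizer_iff]
    constructor
    · intro h2
      exact HeightOneSpectrum.ext h2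
    · intro h2
      exact congrArg HeightOneSpectrum.asIdeal h2
  rw [e2]
  refine Finset.card_bij' (fun τ _ => g⁻¹ * τ) (fun τ _ => g * τ) ?_ ?_ ?_ ?_
  · intro τ hτ
    rw [Finset.mem_filter] at hτ ⊢
    refine ⟨Finset.mem_univ _, ?_⟩
    rw [gp_mul, hτ.2, ← hg', gp_inv_gp]
  · intro τ hτ
    rw [Finset.mem_filter] at hτ ⊢
    refine ⟨Finset.mem_univ _, ?_⟩
    rw [gp_mul, hτ.2, hg']
  · intro τ _
    rw [mul_inv_cancel_left]
  · intro τ _
    rw [inv_mul_cancel_left]

end Pool.Agent.H69H
end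

-- from Lib.CFT.B03
section

/-! # CFT module B, chunk B03: fractions with denominator prime to S -/

open NumberField IsDedekindDomain

namespace CFT

variable {K : Type} [Field K] [NumberField K]


/-- PROOF. x = a0 / b0 with a0, b0 in O_K. Let I = {b in O_K : b x in O_K} (an ideal, contains b0). For every v in S there is an element of I outside v.asIdeal:
otherwise ... simplest way: the ideal I is not contained in v.asIdeal: let n = od v b0 and choose c in O_K with c in w^(od w b0) for all w other than v in the support of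
dv b0 and c not in v (Chinese remainder theorem IsDedekindDomain.exists_forall_sub_mem_ideal or Ideal.exists.. ) then od w (c x) >= 0 for all w (at v because od v x >= 0), so c x is
integral (HeightOneSpectrum.mem_integers_of_valuation_le_one; same as int_of_od of B02) and c in I, c not in v. Then prime avoidance
(Ideal.subset_union_prime) gives b in I outside all v in S. Alternative in one step: Chinese remainder theorem with the primes of the support of dv b0 outside S
(c = 0 mod w^(od w b0)) and the primes of S (c = 1 mod v): b = c. That is the shortest way: od w (c x) >= 0 for w outside S because od w c >= od w b0 and od w x >= -od w b0; for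
w in S because od w x >= 0. -/
theorem frac_prime {x : K} (S : Finset (Pr K)) (hS : ∀ v ∈ S, 0 ≤ od v x) :
    ∃ a b : 𝓞 K, b ≠ 0 ∧ x = (a : K) / (b : K) ∧ ∀ v ∈ S, b ∉ v.asIdeal := by
  classical
  by_cases hx : x = 0
  · refine ⟨0, 1, one_ne_zero, ?_, fun v _ h => v.isPrime.ne_top ((Ideal.eq_top_iff_one _).2 h)⟩
    rw [hx]
    simp
  obtain ⟨a, b, hb, hxab⟩ := IsFractionRing.div_surjective (A := 𝓞 K) x
  have hb0 : b ≠ 0 := nonZeroDivisors.ne_zero hb
  have hb' : (b : K) ≠ 0 := fun h => hb0 (RingOfIntegers.coe_eq_zero_iff.1 h)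
  have hxab' : x = (a : K) / (b : K) := hxab.symm
  by_cases hSe : S = ∅
  · refine ⟨a, b, hb0, hxab', ?_⟩
    rw [hSe]
    simp
  obtain ⟨v0, hv0⟩ := Finset.nonempty_iff_ne_empty.2 hSe
  obtain ⟨c, hc⟩ := IsDedekindDomain.exists_forall_sub_mem_ideal
    (s := (dv (b : K)).support ∪ S) (fun v : Pr K => v.asIdeal)
    (fun w => if w ∈ S then 1 else (od w (b : K)).toNat) (fun v _ => v.prime)
    (fun v _ w _ hvw h => hvw (HeightOneSpectrum.ext h)) (fun w => if (w : Pr K) ∈ S then 1 else 0)
  have hcS : ∀ v ∈ S, c ∉ v.asIdeal := by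
    intro v hv hcv
    have h1 := hc v (Finset.mem_union_right _ hv)
    simp only [hv, if_true, pow_one] at h1
    have h2 : (1 : 𝓞 K) ∈ v.asIdeal := by
      have e : (1 : 𝓞 K) = c - (c - 1) := by ring
      rw [e]
      exact v.asIdeal.sub_mem hcv h1
    exact v.isPrime.ne_top ((Ideal.eq_top_iff_one _).2 h2)
  have hc0 : c ≠ 0 := fun h => hcS v0 hv0 (h ▸ v0.asIdeal.zero_mem)
  have hc' : (c : K) ≠ 0 := fun h => hc0 (RingOfIntegers.coe_eq_zero_iff.1 h)
  have ha0 : a ≠ 0 := by
    rintro rfl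
    apply hx
    rw [hxab']
    simp
  have ha' : (a : K) ≠ 0 := fun h => ha0 (RingOfIntegers.coe_eq_zero_iff.1 h)
  have hod : ∀ w : Pr K, 0 ≤ od w ((c : K) * x) := by
    intro w
    rw [od_mul w hc' hx]
    by_cases hw : w ∈ S
    · have h1 := hS w hw
      have h2 := od_nonneg w c
      omega
    · have h1 : od w (b : K) ≤ od w (c : K) := by
        by_cases hw2 : w ∈ (dv (b : K)).support
        · have h2 := hc w (Finset.mem_union_left _ hw2)
          simp only [hw, if_false, sub_zero] at h2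
          have h3 := (od_le_iff w hc0 _).2 h2
          have h4 := od_nonneg w b
          omega
        · have h2 : od w (b : K) = 0 := by
            have := Finsupp.notMem_support_iff.1 hw2
            rwa [dv_apply] at this
          rw [h2]
          exact od_nonneg w c
      have h2 : od w x = od w (a : K) - od w (b : K) := by
        rw [hxab', div_eq_mul_inv, od_mul w ha' (inv_ne_zero hb'), od_inv]
        ring
      have h3 := od_nonneg w a
      omega
  have h1 : ∀ v : Pr K, v.valuation K ((c : K) * x) ≤ 1 := by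
    intro v
    rw [val_eq v (mul_ne_zero hc' hx), ← WithZero.exp_zero, WithZero.exp_le_exp]
    have := hod v
    omega
  obtain ⟨r, hr⟩ := HeightOneSpectrum.mem_integers_of_valuation_le_one (R := 𝓞 K) K ((c : K) * x) h1
  refine ⟨r, c, hc0, ?_, hcS⟩
  have hr' : (r : K) = (c : K) * x := hr
  rw [hr']
  field_simp

end CFT
end

-- from Lib.H69H.G1
section

set_option autoImplicit false
set_option linter.unusedSectionVars false

namespace Pool.Agent.H69H

open NumberField IsDedekindDomain CFT

variable {X : Type*} [CommGroup X]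

/-- `Q` finitely generated, `P ≤ Q`, `x ^ n ∈ P` for all `x ∈ Q`: the index of `P` in `Q` is finite. PROOF: the quotient `Q / P` (for example
`Q ⧸ P.subgroupOf Q`) is a finitely generated commutative torsion group, so finite: Mathlib `CommGroup.finite_of_fg_torsion`. -/
theorem relIndex_ne_zero_of_fg {P Q : Subgroup X} (hPQ : P ≤ Q) (hfg : Q.FG) {n : ℕ} (hn : n ≠ 0)
    (h : ∀ x ∈ Q, x ^ n ∈ P) : P.relIndex Q ≠ 0 := by
  haveI : Group.FG Q := (Group.fg_iff_subgroup_fg Q).2 hfg
  have ht : Monoid.IsTorsion (Q ⧸ P.subgroupOf Q) := by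
    intro x
    obtain ⟨x, rfl⟩ := QuotientGroup.mk_surjective x
    rw [isOfFinOrder_iff_pow_eq_one]
    refine ⟨n, Nat.pos_of_ne_zero hn, ?_⟩
    rw [← QuotientGroup.mk_pow, QuotientGroup.eq_one_iff, Subgroup.mem_subgroupOf]
    exact h x x.2
  haveI : Finite (Q ⧸ P.subgroupOf Q) := CommGroup.finite_of_fg_torsion _ ht
  exact Subgroup.index_ne_zero_of_finite

end Pool.Agent.H69H
end

-- from Lib.H69H.G3
section

set_option autoImplicit false
set_option linter.unusedSectionVars false

namespace Pool.Agent.H69H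

open NumberField IsDedekindDomain CFT

variable {X : Type*} [CommGroup X]

/-- `dif s (nrm n s x) = s^n x / x = 1` and `nrm n s (dif s x) = s^n x / x = 1`. PROOF: both products telescope
(`Finset.prod_range_div`, or `Finset.prod_range_succ'` and `Finset.prod_range_succ`); `s (∏ i, s^[i] x) = ∏ i, s^[i+1] x` by `map_prod`
and `Function.iterate_succ_apply'`; `s^[i] (s x / x) = s^[i+1] x / s^[i] x` (`iterate_map_div`). -/
theorem isPair_dif_nrm (s : X →* X) {n : ℕ} (hn : ∀ x, s^[n] x = x) : IsPair (dif s) (nrm n s) := by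
  have h1 : ∀ x, s (nrm n s x) = ∏ i ∈ Finset.range n, s^[i + 1] x := by
    intro x
    rw [nrm_apply, map_prod]
    refine Finset.prod_congr rfl fun i _ => ?_
    rw [Function.iterate_succ_apply']
  have h2 : ∀ x, (∏ i ∈ Finset.range n, s^[i + 1] x) / (∏ i ∈ Finset.range n, s^[i] x) = 1 := by
    intro x
    rw [← Finset.prod_div_distrib, Finset.prod_range_div (fun i => s^[i] x), hn]
    simp
  refine ⟨fun x => ?_, fun x => ?_⟩
  · rw [dif_apply, h1, nrm_apply, h2]
  · rw [dif_apply, nrm_apply, ← h2 x, ← Finset.prod_div_distrib]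
    refine Finset.prod_congr rfl fun i _ => ?_
    rw [iterate_map_div, Function.iterate_succ_apply]

/-- A subgroup stable under `s` is stable under `dif s` and `nrm n s`. -/
theorem isStable_of (s : X →* X) (n : ℕ) {A : Subgroup X} (h : ∀ x ∈ A, s x ∈ A) : IsStable (dif s) (nrm n s) A := by
  have h1 : ∀ i : ℕ, ∀ x ∈ A, s^[i] x ∈ A := by
    intro i
    induction i with
    | zero => intro x hx; exact hx
    | succ i ih =>
      intro x hx
      rw [Function.iterate_succ_apply]
      exact ih _ (h x hx)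
  refine ⟨fun x hx => ?_, fun x hx => ?_⟩
  · rw [dif_apply]
    exact A.div_mem (h x hx) hx
  · rw [nrm_apply]
    exact A.prod_mem fun i _ => h1 i x hx

/-- If `s x = x` then `nrm n s x = x ^ n`. -/
theorem nrm_of_fixed (s : X →* X) (n : ℕ) {x : X} (h : s x = x) : nrm n s x = x ^ n := by
  rw [nrm_apply]
  have h1 : ∀ i : ℕ, s^[i] x = x := by
    intro i
    exact Function.iterate_fixed h i
  simp [h1]

/-- `x ^ n / nrm n s x` is of the form `dif s y`, with `y` a product of elements `s^[i] x` and inverses: `x / s^[i] x` is the inverse of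
`dif s (∏ j in range i, s^[j] x)`. So `y ∈ A` if `A` is stable under `s` and `x ∈ A`. -/
theorem exists_dif (s : X →* X) (n : ℕ) {A : Subgroup X} (h : ∀ x ∈ A, s x ∈ A) {x : X} (hx : x ∈ A) :
    ∃ y ∈ A, x ^ n / nrm n s x = dif s y := by
  have hA := isStable_of s n h
  have h1 : ∀ i : ℕ, ∃ y ∈ A, x / s^[i] x = dif s y := by
    intro i
    refine ⟨(nrm i s x)⁻¹, A.inv_mem ((isStable_of s i h).right x hx), ?_⟩
    rw [map_inv, dif_apply, nrm_apply, map_prod, ← Finset.prod_div_distrib, ← Finset.prod_inv_distrib]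
    have h2 := Finset.prod_range_div (fun j => (s^[j] x)⁻¹) i
    simp only [Function.iterate_zero, id] at h2
    rw [← inv_div, div_eq_mul_inv, ← inv_inv x]
    rw [inv_inv, ← div_eq_mul_inv]
    calc (s^[i] x / x)⁻¹ = (s^[i] x)⁻¹ / x⁻¹ := by
          rw [inv_div, div_eq_mul_inv, div_eq_mul_inv, inv_inv, mul_comm]
      _ = _ := h2.symm
      _ = _ := by
          refine Finset.prod_congr rfl fun j _ => ?_
          rw [← Function.iterate_succ_apply' s j x, div_eq_mul_inv, div_eq_mul_inv, mul_inv]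
  choose y hy h2 using h1
  refine ⟨∏ i ∈ Finset.range n, y i, A.prod_mem fun i _ => hy i, ?_⟩
  rw [map_prod, nrm_apply]
  rw [← Finset.prod_congr rfl fun i _ => h2 i, Finset.prod_div_distrib, Finset.prod_const, Finset.card_range]

end Pool.Agent.H69H
end

-- from Lib.H69H.G4
section

set_option autoImplicit false
set_option linter.unusedSectionVars false

namespace Pool.Agent.H69H

open NumberField IsDedekindDomain CFT

variable {X : Type*} [CommGroup X]

theorem g4_fg_of_le {P Q : Subgroup X} (h : P ≤ Q) (hQ : Q.FG) : P.FG := by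
  rw [Subgroup.fg_iff_add_fg] at hQ ⊢
  have hQ' : (AddSubgroup.toIntSubmodule Q.toAddSubgroup).FG := (Submodule.fg_iff_addSubgroup_fg _).2 hQ
  have := isNoetherian_of_fg_of_noetherian _ hQ'
  exact (Submodule.fg_iff_addSubgroup_fg (AddSubgroup.toIntSubmodule P.toAddSubgroup)).1
    (isNoetherian_submodule.1 this _ (fun x hx => h hx))

/-- PROOF. `tate f g A B = (B.map g ⊔ A).relIndex (B ⊓ A.comap f)`. By `relIndex_ne_zero_of_fg` (G1) it is enough: the inclusion; `B ⊓ A.comap f` is
finitely generated (a subgroup of a finitely generated commutative group: ℤ is Noetherian; Mathlib: `Subgroup.fg_of_le`-like statement or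
`AddSubgroup`/`Submodule ℤ` version with `IsNoetherian ℤ`), and `x ^ n` is in `B.map g ⊔ A` for `x ∈ B ⊓ A.comap f`. First group (`f = dif s`,
`g = nrm n s`): `s x = x a`, `a ∈ A`, so `s^[i] x = x a_i`, `a_i ∈ A` (induction, `A` stable) and `nrm n s x = x ^ n a'`, `a' ∈ A`. Second group (`f = nrm`, `g = dif`):
`x ^ n = (x ^ n / nrm n s x) * nrm n s x`, the first factor is `dif s y`, `y ∈ B` (`exists_dif`, G3), the second is in `A`. -/
theorem tate_fg (s : X →* X) {n : ℕ} (hn0 : n ≠ 0) (hn : ∀ x, s^[n] x = x) {A B : Subgroup X}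
    (hA : ∀ x ∈ A, s x ∈ A) (hB : ∀ x ∈ B, s x ∈ B) (hAB : A ≤ B) (hfg : B.FG) :
    tate (dif s) (nrm n s) A B ≠ 0 ∧ tate (nrm n s) (dif s) A B ≠ 0 := by
  have hB' := isStable_of s n hB
  have key : ∀ x, dif s x ∈ A → ∀ i : ℕ, s^[i] x / x ∈ A := by
    intro x hx i
    induction i with
    | zero => simp
    | succ i ih =>
      have h1 := A.mul_mem (hA _ ih) hx
      rw [map_div, ← Function.iterate_succ_apply' s i x, dif_apply, div_mul_div_cancel] at h1
      exact h1
  have hp := isPair_dif_nrm s hn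
  constructor
  · refine relIndex_ne_zero_of_fg ?_ (g4_fg_of_le inf_le_left hfg) hn0 ?_
    · refine sup_le (le_inf ?_ ?_) (le_inf hAB fun x hx => ((isStable_of s n hA).left x hx))
      · rintro _ ⟨x, hx, rfl⟩
        exact hB'.right x hx
      · rintro _ ⟨x, hx, rfl⟩
        show dif s (nrm n s x) ∈ A
        rw [hp.fg]
        exact A.one_mem
    · rintro x ⟨h1, h2⟩
      have h3 : nrm n s x / x ^ n ∈ A := by
        have h4 : nrm n s x / x ^ n = ∏ i ∈ Finset.range n, (s^[i] x / x) := by
          rw [nrm_apply, Finset.prod_div_distrib, Finset.prod_const, Finset.card_range]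
        rw [h4]
        exact A.prod_mem fun i _ => key x h2 i
      have h5 : x ^ n = nrm n s x * (nrm n s x / x ^ n)⁻¹ := by
        rw [inv_div, mul_div_cancel]
      rw [h5]
      exact Subgroup.mul_mem_sup ⟨x, h1, rfl⟩ (A.inv_mem h3)
  · refine relIndex_ne_zero_of_fg ?_ (g4_fg_of_le inf_le_left hfg) hn0 ?_
    · refine sup_le (le_inf ?_ ?_) (le_inf hAB fun x hx => ((isStable_of s n hA).right x hx))
      · rintro _ ⟨x, hx, rfl⟩
        exact hB'.left x hx
      · rintro _ ⟨x, hx, rfl⟩
        show nrm n s (dif s x) ∈ A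
        rw [hp.gf]
        exact A.one_mem
    · rintro x ⟨h1, h2⟩
      obtain ⟨y, hy, h3⟩ := exists_dif s n hB h1
      have h5 : x ^ n = dif s y * nrm n s x := by
        rw [← h3, div_mul_cancel]
      rw [h5]
      exact Subgroup.mul_mem_sup ⟨y, hy, rfl⟩ h2

end Pool.Agent.H69H
end

-- from Lib.H69H.G6
section

set_option autoImplicit false
set_option linter.unusedSectionVars false

namespace Pool.Agent.H69H

open NumberField IsDedekindDomain CFT

theorem g6_bound {X Y : Type*} [CommGroup X] [CommGroup Y] [Finite Y] (p : X →* Y) {P Q : Subgroup X} (h : Q ⊓ p.ker ≤ P) :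
    P.relIndex Q ≤ Nat.card Y := by
  have h1 : (Q ⊓ p.ker).relIndex Q = Nat.card (Q.map p) := by
    rw [Subgroup.inf_relIndex_left, Subgroup.relIndex_ker]
  have h2 : (Q ⊓ p.ker).relIndex Q ≠ 0 := by
    rw [h1]
    exact Nat.card_pos.ne'
  refine (Subgroup.relIndex_le_of_le_left h h2).trans ?_
  rw [h1]
  exact Nat.card_le_card_of_injective _ Subtype.val_injective

/-- `W` is a finite set with a permutation `s`, `s^n = 1`, whose orbits are the fibres of `q`; for `w, w'` in the same fibre the number of `i < n`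
with `s^i w = w'` is `2` if `q w ∈ R` and `1` otherwise. CLAIM: the Herbrand quotient of the group `W → ℤ` exists and is at most `2 ^ R.card`.
PROOF. Existence: `exists_her` (A1) and `tate_fg` (G4) (`⊤` is finitely generated; `sW s` iterated `n` times is the identity). The quotient is
`tate (dif) (nrm) / tate (nrm) (dif)`, the second is at least `1`, so it is at most `H := tate (dif (sW s)) (nrm n (sW s)) ⊥ ⊤`, which is
`(range nrm).relIndex (ker dif)`. BOUND of `H`: choose `c v ∈ W` with `q (c v) = v` (`hq`). The homomorphism `p : ker dif → (R → ZMod 2)`,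
`x ↦ (x (c v) mod 2)`. Its kernel is contained in the range of `nrm`: `x ∈ ker dif` is constant on the fibres of `q` (`hc` gives transitivity: the number is
not `0`); let `y w = x w` if `w = c (q w)` and `q w ∉ R`, `y w = x w / 2` if `w = c (q w)` and `q w ∈ R`, and `0` otherwise. Then
`(nrm y) w' = ∑_{i<n} y (s^{-i} w') = ∑_w y w * #{i < n | s^i w = w'} = y (c (q w')) * (2 or 1) = x w'`. So the index is at most the number
`2 ^ R.card` of elements of `R → ZMod 2` (for example `Subgroup.index_ker`, `Subgroup.relIndex_le_of_le_left`, `Nat.card_le_card_of_injective`). -/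
theorem tate_perm {W V : Type*} [Fintype W] [DecidableEq W] [DecidableEq V] (q : W → V) (hq : Function.Surjective q)
    (s : W ≃ W) {n : ℕ} (hn0 : n ≠ 0) (hn : ∀ w, s^[n] w = w) (R : Finset V) (hs : ∀ w, q (s w) = q w)
    (hc : ∀ w w', q w = q w' → ((Finset.range n).filter fun i => s^[i] w = w').card = if q w ∈ R then 2 else 1) :
    ∃ t : ℚ, Her (dif (sW s)) (nrm n (sW s)) ⊥ ⊤ t ∧ t ≤ 2 ^ R.card := by
  have hit : ∀ (i : ℕ) (x : Multiplicative (W → ℤ)) (w : W),
      Multiplicative.toAdd ((sW s)^[i] x) w = Multiplicative.toAdd x (s.symm^[i] w) := by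
    intro i
    induction i with
    | zero => intro x w; rfl
    | succ i ih =>
      intro x w
      rw [Function.iterate_succ_apply', sW_apply, ih, Function.iterate_succ_apply]
  have hss : ∀ (i : ℕ) (w w' : W), s.symm^[i] w' = w ↔ s^[i] w = w' := by
    intro i w w'
    have h1 : Function.LeftInverse s.symm^[i] s^[i] := Function.LeftInverse.iterate s.symm_apply_apply i
    have h2 : Function.LeftInverse s^[i] s.symm^[i] := Function.LeftInverse.iterate s.apply_symm_apply i
    constructor
    · rintro rfl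
      exact h2 w'
    · rintro rfl
      exact h1 w
  have hnn : ∀ x : Multiplicative (W → ℤ), (sW s)^[n] x = x := by
    intro x
    apply Multiplicative.toAdd.injective
    funext w
    rw [hit, (hss n w w).2 (hn w)]
  haveI : AddGroup.FG (W → ℤ) := Module.Finite.iff_addGroup_fg.1 inferInstance
  have hfg : (⊤ : Subgroup (Multiplicative (W → ℤ))).FG := Group.fg_def.1 (AddGroup.fg_iff_mul_fg.1 inferInstance)
  obtain ⟨t1, t2⟩ := tate_fg (sW s) hn0 hnn (A := ⊥) (B := ⊤) (fun x hx => by
    rw [Subgroup.mem_bot] at hx ⊢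
    rw [hx, map_one]) (fun _ _ => trivial) bot_le hfg
  obtain ⟨t, ht⟩ := exists_her t1 t2
  refine ⟨t, ht, ?_⟩
  have hb : tate (dif (sW s)) (nrm n (sW s)) ⊥ ⊤ ≤ 2 ^ R.card := by
    unfold tate
    obtain ⟨c, hcq⟩ := hq.hasRightInverse
    let p : Multiplicative (W → ℤ) →* Multiplicative (R → ZMod 2) := AddMonoidHom.toMultiplicative
      { toFun := fun x v => ((x (c v) : ℤ) : ZMod 2)
        map_zero' := by
          funext v
          simp
        map_add' := fun x y => by
          funext v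
          simp }
    have hcard : Nat.card (Multiplicative (R → ZMod 2)) = 2 ^ R.card := by
      rw [show Nat.card (Multiplicative (R → ZMod 2)) = Nat.card (R → ZMod 2) from rfl, Nat.card_pi]
      simp
    refine (g6_bound p ?_).trans_eq hcard
    rintro x ⟨⟨_, h1⟩, h2⟩
    have h1 : dif (sW s) x = 1 := h1
    have h2 : p x = 1 := h2
    rw [dif_apply, div_eq_one] at h1
    have h3 : ∀ w, Multiplicative.toAdd x (s w) = Multiplicative.toAdd x w := by
      intro w
      have h4 := sW_apply s x (s w)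
      rw [h1, s.symm_apply_apply] at h4
      exact h4
    have h4 : ∀ (i : ℕ) (w : W), Multiplicative.toAdd x (s^[i] w) = Multiplicative.toAdd x w := by
      intro i
      induction i with
      | zero => intro w; rfl
      | succ i ih =>
        intro w
        rw [Function.iterate_succ_apply', h3, ih]
    have h5 : ∀ w w', q w = q w' → Multiplicative.toAdd x w = Multiplicative.toAdd x w' := by
      intro w w' hw
      have h6 := hc w w' hw
      have h7 : ((Finset.range n).filter fun i => s^[i] w = w').Nonempty := by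
        rw [← Finset.card_pos, h6]
        split_ifs <;> norm_num
      obtain ⟨i, hi⟩ := h7
      rw [← (Finset.mem_filter.1 hi).2, h4]
    have h6 : ∀ v ∈ R, ∃ k : ℤ, Multiplicative.toAdd x (c v) = 2 * k := by
      intro v hv
      have h7 : ((Multiplicative.toAdd x (c v) : ℤ) : ZMod 2) = 0 := congrFun (congrArg Multiplicative.toAdd h2) ⟨v, hv⟩
      rw [ZMod.intCast_zmod_eq_zero_iff_dvd] at h7
      exact h7
    have hqs : ∀ (i : ℕ) (w : W), q (s^[i] w) = q w := by
      intro i
      induction i with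
      | zero => intro w; rfl
      | succ i ih =>
        intro w
        rw [Function.iterate_succ_apply', hs, ih]
    refine Subgroup.mem_sup_left ⟨Multiplicative.ofAdd fun w => if w = c (q w) then
      (if q w ∈ R then Multiplicative.toAdd x w / 2 else Multiplicative.toAdd x w) else 0, trivial, ?_⟩
    apply Multiplicative.toAdd.injective
    funext w'
    rw [nrm_apply, toAdd_prod, Finset.sum_apply]
    have h8 : ∀ i ∈ Finset.range n, Multiplicative.toAdd ((sW s)^[i] (Multiplicative.ofAdd fun w => if w = c (q w) then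
      (if q w ∈ R then Multiplicative.toAdd x w / 2 else Multiplicative.toAdd x w) else 0)) w' =
        if s^[i] (c (q w')) = w' then (if q w' ∈ R then Multiplicative.toAdd x w' / 2 else Multiplicative.toAdd x w') else 0 := by
      intro i _
      rw [hit, toAdd_ofAdd]
      have h9 : q (s.symm^[i] w') = q w' := by
        have h10 := hqs i (s.symm^[i] w')
        rw [(hss i (s.symm^[i] w') w').1 rfl] at h10
        exact h10.symm
      show (if s.symm^[i] w' = c (q (s.symm^[i] w')) then
        (if q (s.symm^[i] w') ∈ R then Multiplicative.toAdd x (s.symm^[i] w') / 2 else Multiplicative.toAdd x (s.symm^[i] w')) else 0) = _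
      rw [h9, h5 _ _ h9]
      simp only [hss]
    rw [Finset.sum_congr rfl h8, ← Finset.sum_filter, Finset.sum_const, hc _ _ (hcq (q w')), hcq (q w')]
    split_ifs with h9
    · obtain ⟨k, hk⟩ := h6 _ h9
      rw [h5 _ _ (hcq (q w'))] at hk
      rw [hk]
      simp
    · simp
  have h1 : (1 : ℚ) ≤ tate (nrm n (sW s)) (dif (sW s)) ⊥ ⊤ := by
    exact_mod_cast Nat.one_le_iff_ne_zero.2 t2
  have h2 : (tate (dif (sW s)) (nrm n (sW s)) ⊥ ⊤ : ℚ) ≤ 2 ^ R.card := by exact_mod_cast hb
  have h3 := ht.eq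
  have h4 := ht.pos
  nlinarith

end Pool.Agent.H69H
end

-- from Lib.CFT.B09
section

/-! # CFT module B, chunk B09: norm of the conorm -/

open NumberField IsDedekindDomain

namespace CFT

variable {K : Type} [Field K] [NumberField K] {L : Type} [Field L] [NumberField L] [Algebra K L]


theorem b09_sum (v : Pr K) : ∑ w ∈ abv L v, w.asIdeal.ramificationIdx (𝓞 K) * w.asIdeal.inertiaDeg (𝓞 K) =
    Module.finrank K L := by
  classical
  have hfin : (v.asIdeal.primesOver (𝓞 L)).Finite := IsDedekindDomain.primesOver_finite v.asIdeal (𝓞 L)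
  haveI : Fintype (v.asIdeal.primesOver (𝓞 L)) := hfin.fintype
  haveI := v.isPrime
  have h1 := Ideal.sum_ramification_inertia_eq_finrank v.asIdeal (𝓞 L)
  have h2 : Module.finrank K L = Module.finrank (𝓞 K) (𝓞 L) := IsFractionRing.finrank_eq (𝓞 K) K (𝓞 L) L
  rw [h2, ← h1]
  refine Finset.sum_bij (fun w hw => ⟨w.asIdeal, w.isPrime, ⟨?_⟩⟩) ?_ ?_ ?_ ?_
  · have h3 : below K w = v := (mem_abv v w).1 hw
    rw [← h3]
    rfl
  · intro w hw
    exact Finset.mem_univ _
  · intro a ha b hb hab
    exact HeightOneSpectrum.ext (congrArg Subtype.val hab)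
  · rintro ⟨Q, hQ, hQv⟩ _
    have hne : Q ≠ ⊥ := Ideal.ne_bot_of_mem_primesOver v.ne_bot ⟨hQ, hQv⟩
    refine ⟨⟨Q, hQ, hne⟩, (mem_abv v _).2 ?_, rfl⟩
    apply HeightOneSpectrum.ext
    exact hQv.over.symm
  · intro w hw
    rfl

/-- PROOF. Finsupp.addHom_ext; Cn_single, Nd_single (D2): the coefficient is the sum over the primes w above v of f(w) e(w) = [L : K] (Ideal.sum_ramification_inertia, over
primesOverFinset: change the index set by the injection w to w.asIdeal). -/
theorem Nd_Cn (D : Dv K) : Nd K L (Cn K L D) = Module.finrank K L • D := by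
  have h : (Nd K L).comp (Cn K L) = Module.finrank K L • AddMonoidHom.id (Dv K) := by
    refine Finsupp.addHom_ext fun v n => ?_
    rw [AddMonoidHom.comp_apply, Cn_single, map_sum, AddMonoidHom.smul_apply, AddMonoidHom.id_apply,
      Finsupp.smul_single, ← b09_sum (L := L) v]
    have h1 : ∀ w ∈ abv L v, Nd K L (Finsupp.single w ((w.asIdeal.ramificationIdx (𝓞 K) : ℤ) * n)) =
        Finsupp.single v (((w.asIdeal.ramificationIdx (𝓞 K) * w.asIdeal.inertiaDeg (𝓞 K) : ℕ) : ℤ) * n) := by
      intro w hw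
      rw [Nd_single, (mem_abv v w).1 hw]
      congr 1
      push_cast
      ring
    rw [Finset.sum_congr rfl h1, ← Finsupp.single_finsetSum, ← Finset.sum_mul, ← Nat.cast_sum, nsmul_eq_mul]
  exact DFunLike.congr_fun h D



/-- PROOF. Nd_Cn. -/
theorem n_mem_Nd (D : Dv K) : Module.finrank K L • D ∈ (Nd K L).range := by
 exact ⟨Cn K L D, Nd_Cn D⟩

/-- PROOF. Write D as the sum of D w single w and use Nd_single; the coefficient at v is the sum over the w above v. -/
theorem Nd_apply (D : Dv L) (v : Pr K) : Nd K L D v = ∑ w ∈ abv L v, (w.asIdeal.inertiaDeg (𝓞 K) : ℤ) * D w := by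
  have h : (Finsupp.applyAddHom v).comp (Nd K L) =
      ∑ w ∈ abv L v, (AddMonoidHom.mulLeft (w.asIdeal.inertiaDeg (𝓞 K) : ℤ)).comp (Finsupp.applyAddHom w) := by
    classical
    refine Finsupp.addHom_ext fun u n => ?_
    rw [AddMonoidHom.comp_apply, Nd_single, AddMonoidHom.finsetSum_apply]
    have h1 : ∀ w ∈ abv L v, ((AddMonoidHom.mulLeft (w.asIdeal.inertiaDeg (𝓞 K) : ℤ)).comp (Finsupp.applyAddHom w))
        (Finsupp.single u n) = if u = w then (u.asIdeal.inertiaDeg (𝓞 K) : ℤ) * n else 0 := by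
      intro w _
      show (w.asIdeal.inertiaDeg (𝓞 K) : ℤ) * (Finsupp.single u n : Dv L) w = _
      rw [Finsupp.single_apply]
      by_cases huw : u = w
      · rw [huw]
        simp
      · rw [if_neg huw, if_neg huw, mul_zero]
    rw [Finset.sum_congr rfl h1, Finset.sum_ite_eq]
    show (Finsupp.single (below K u) ((u.asIdeal.inertiaDeg (𝓞 K) : ℤ) * n) : Dv K) v = _
    rw [Finsupp.single_apply]
    by_cases hv : below K u = v
    · rw [if_pos hv, if_pos ((mem_abv v u).2 hv)]
    · rw [if_neg hv, if_neg (fun h2 => hv ((mem_abv v u).1 h2))]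
  have h2 := DFunLike.congr_fun h D
  rw [AddMonoidHom.finsetSum_apply] at h2
  exact h2

end CFT
end

-- from Lib.H69H.G5
section

set_option autoImplicit false
set_option linter.unusedSectionVars false

namespace Pool.Agent.H69H

open NumberField IsDedekindDomain CFT

variable {X : Type*} [CommGroup X]

/-- PROOF. On `B = zpowers c` the map `dif s` is trivial and `nrm n s` is `x ↦ x ^ n`. So `tate (dif s) (nrm n s) ⊥ B` is the index of the group
of n-th powers in `zpowers c`, that is `n` (`zpowers (c ^ n)`; c has infinite order; for example `Subgroup.relIndex` computed through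
`zmultiples`/`Int.index_zmultiples` and the isomorphism `ℤ ≅ zpowers c`, or by an explicit count: the classes of `c ^ i`, `0 ≤ i < n`), and
`tate (nrm n s) (dif s) ⊥ B` is the index of the trivial group in `{x ∈ zpowers c | x ^ n = 1}`, the trivial group: `1`. -/
theorem her_zpowers (s : X →* X) {n : ℕ} (hn0 : n ≠ 0) {c : X} (hc : s c = c) (hinf : ∀ i : ℤ, c ^ i = 1 → i = 0) :
    Her (dif s) (nrm n s) ⊥ (Subgroup.zpowers c) n := by
  have hfix : ∀ x ∈ Subgroup.zpowers c, s x = x := by
    rintro _ ⟨i, rfl⟩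
    show s (c ^ i) = c ^ i
    rw [map_zpow, hc]
  have e1 : Subgroup.zpowers c ⊓ (⊥ : Subgroup X).comap (dif s) = Subgroup.zpowers c := by
    refine inf_eq_left.2 fun x hx => ?_
    rw [Subgroup.mem_comap, Subgroup.mem_bot, dif_apply, hfix x hx, div_self']
  have hφ : Function.Injective (zpowersHom X c) := by
    rw [injective_iff_map_eq_one]
    intro i hi
    rw [zpowersHom_apply] at hi
    exact hinf _ hi
  have e2 : (Subgroup.zpowers c).map (nrm n s) ⊔ ⊥ =
      ((AddSubgroup.zmultiples (n : ℤ)).toSubgroup).map (zpowersHom X c) := by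
    rw [sup_bot_eq]
    ext x
    constructor
    · rintro ⟨y, hy, rfl⟩
      obtain ⟨i, rfl⟩ := hy
      refine ⟨Multiplicative.ofAdd (i * n), ⟨i, by simp [mul_comm]⟩, ?_⟩
      rw [zpowersHom_apply, toAdd_ofAdd, nrm_of_fixed s n (hfix _ ⟨i, rfl⟩)]
      show c ^ (i * (n : ℤ)) = (c ^ i) ^ n
      rw [zpow_mul, zpow_natCast]
    · rintro ⟨y, ⟨i, hi⟩, rfl⟩
      refine ⟨c ^ i, ⟨i, rfl⟩, ?_⟩
      have hi : i * (n : ℤ) = Multiplicative.toAdd y := by simpa using hi
      rw [zpowersHom_apply, ← hi, nrm_of_fixed s n (hfix _ ⟨i, rfl⟩), zpow_mul, zpow_natCast]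
  have e3 : Subgroup.zpowers c = (⊤ : Subgroup (Multiplicative ℤ)).map (zpowersHom X c) := by
    ext x
    constructor
    · rintro ⟨i, rfl⟩
      exact ⟨Multiplicative.ofAdd i, trivial, rfl⟩
    · rintro ⟨y, _, rfl⟩
      exact ⟨Multiplicative.toAdd y, rfl⟩
  have t1 : tate (dif s) (nrm n s) ⊥ (Subgroup.zpowers c) = n := by
    unfold tate
    rw [e1, e2, e3, Subgroup.relIndex_map_map_of_injective _ _ hφ, Subgroup.relIndex_top_right, AddSubgroup.index_toSubgroup,
      Int.index_zmultiples, Int.natAbs_natCast]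
  have t2 : tate (nrm n s) (dif s) ⊥ (Subgroup.zpowers c) = 1 := by
    unfold tate
    rw [Subgroup.relIndex_eq_one]
    rintro x ⟨hx, h2⟩
    have h2 : nrm n s x = 1 := h2
    rw [nrm_of_fixed s n (hfix x hx)] at h2
    obtain ⟨i, rfl⟩ := hx
    have h3 : c ^ (i * (n : ℤ)) = 1 := by
      rw [zpow_mul, zpow_natCast]
      exact h2
    have h4 := hinf _ h3
    have h5 : i = 0 := by
      rcases mul_eq_zero.1 h4 with h | h
      · exact h
      · exact absurd (by exact_mod_cast h) hn0
    subst h5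
    show c ^ (0 : ℤ) ∈ _
    rw [zpow_zero]
    exact Subgroup.one_mem _
  refine ⟨by rw [t1]; exact hn0, by rw [t2]; exact one_ne_zero, by rw [t1, t2]; simp⟩

end Pool.Agent.H69H
end

-- from Lib.H69H.P1
section

set_option autoImplicit false
set_option linter.unusedSectionVars false

namespace Pool.Agent.H69H

open NumberField IsDedekindDomain CFT

theorem p1_prod {G : Type*} [Fintype G] (f : G → ℂ) (ι : G → G) (h1 : ∀ g, ι (ι g) = g) (h2 : ∀ g, ι g ≠ g)
    (h3 : ∀ g, f g ≠ 0) (h4 : ∀ g, f (ι g) = (starRingEnd ℂ) (f g)) : ∃ r : ℝ, 0 < r ∧ ∏ g, f g = (r : ℂ) := by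
  classical
  let e := Fintype.equivFin G
  let A := Finset.univ.filter fun g : G => e g < e (ι g)
  have hB : (Finset.univ.filter fun g : G => ¬ e g < e (ι g)) = A.image ι := by
    ext g
    simp only [A, Finset.mem_filter, Finset.mem_univ, true_and, Finset.mem_image]
    constructor
    · intro h
      refine ⟨ι g, ?_, h1 g⟩
      rw [h1]
      refine lt_of_le_of_ne (not_lt.1 h) fun he => h2 g (e.injective he)
    · rintro ⟨k, hk, rfl⟩
      rw [h1]
      exact not_lt.2 hk.le
  refine ⟨∏ g ∈ A, Complex.normSq (f g), Finset.prod_pos fun g _ => Complex.normSq_pos.2 (h3 g), ?_⟩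
  rw [← Finset.prod_filter_mul_prod_filter_not Finset.univ (fun g : G => e g < e (ι g)), hB,
    Finset.prod_image fun a _ b _ h => by rw [← h1 a, h, h1], ← Finset.prod_mul_distrib, Complex.ofReal_prod]
  refine Finset.prod_congr rfl fun g _ => ?_
  rw [h4, Complex.mul_conj]

variable {K : Type} [Field K] [NumberField K] {L : Type} [Field L] [NumberField L] [Algebra K L]

/-- PROOF. Let `φ : K → ℝ` with place `v` ramified in `L`. Extend `φ` (into `ℂ`) to `ψ : L → ℂ` (`InfinitePlace.comap_mk_lift` or `IsAlgClosed.lift`, Mathlib `ComplexEmbedding.lift`), `w = mk ψ`, `w.comap = v`, `w` is ramified, so there is `τ ∈ Gal(L/K)` with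
`ψ ∘ τ = conj ∘ ψ` (Mathlib `InfinitePlace.exists_isConj_of_isRamified`; `ComplexEmbedding.IsConj`), `τ ≠ 1` (w is complex), `τ^2 = 1`. `φ (norm y) = ∏_{g ∈ G} ψ (g y)` (`Algebra.norm_eq_prod_automorphisms`). The involution `g ↦ τ * g` of `G` has no fixed
point and `ψ (τ g y) = conj (ψ (g y))`, so the product is a product of `|ψ (g y)|^2 > 0` over the pairs. In Lean: for example `Finset.prod_involution`-like argument, or: `∏_{g ∈ G} ψ (g y)`, choose a set of representatives of the cosets of `{1, τ}` in `G`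
(`G ≃ (G ⧸ H) × H`, Mathlib `Subgroup.groupEquivQuotientProdSubgroup`), the product over each coset is `z * conj z`, `z ≠ 0`. -/
theorem posR_norm [IsGalois K L] (y : Lˣ) : PosR L (Algebra.norm K (y : L)) := by
  intro φ hφ
  have h1 : ¬ (InfinitePlace.mk ((algebraMap ℝ ℂ).comp φ)).IsUnramifiedIn L := by
    classical
    have h2 := hφ
    unfold RamInf at h2
    rw [Finset.mem_filter] at h2
    exact h2.2
  unfold InfinitePlace.IsUnramifiedIn at h1
  push Not at h1
  obtain ⟨w, hw, hram⟩ := h1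
  have hram : w.IsRamified K := hram
  have h3 : ∀ x : K, w.embedding (algebraMap K L x) = ((φ x : ℝ) : ℂ) := by
    intro x
    have h4 : InfinitePlace.mk (w.embedding.comp (algebraMap K L)) = InfinitePlace.mk ((algebraMap ℝ ℂ).comp φ) := by
      rw [← hw, ← InfinitePlace.comap_mk, InfinitePlace.mk_embedding]
    rw [InfinitePlace.mk_eq_iff] at h4
    rcases h4 with h4 | h4
    · exact DFunLike.congr_fun h4 x
    · have h5 := DFunLike.congr_fun h4 x
      have h6 : (starRingEnd ℂ) (w.embedding (algebraMap K L x)) = ((φ x : ℝ) : ℂ) := h5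
      rw [← Complex.conj_conj (w.embedding (algebraMap K L x)), h6, Complex.conj_ofReal]
  have hram' : (InfinitePlace.mk w.embedding).IsRamified K := by
    rw [InfinitePlace.mk_embedding]
    exact hram
  obtain ⟨τ, hτ⟩ := InfinitePlace.exists_isConj_of_isRamified hram'
  have hτ' : ∀ x : L, w.embedding (τ x) = (starRingEnd ℂ) (w.embedding x) := by
    intro x
    have h4 := DFunLike.congr_fun hτ x
    exact h4.symm
  have hτ1 : τ ≠ 1 := by
    rintro rfl
    have h4 := hram.isComplex
    rw [InfinitePlace.isComplex_iff] at h4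
    apply h4
    rw [NumberField.ComplexEmbedding.isReal_iff]
    ext x
    exact (hτ' x).symm
  have hτ2 : τ * τ = 1 := by
    ext x
    apply w.embedding.injective
    show w.embedding (τ (τ x)) = w.embedding x
    rw [hτ', hτ', Complex.conj_conj]
  have h5 : ((φ (Algebra.norm K (y : L)) : ℝ) : ℂ) = ∏ g : L ≃ₐ[K] L, w.embedding (g (y : L)) := by
    rw [← h3, Algebra.norm_eq_prod_automorphisms, map_prod]
  obtain ⟨r, hr, h6⟩ := p1_prod (fun g : L ≃ₐ[K] L => w.embedding (g (y : L))) (fun g => τ * g)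
    (fun g => by rw [← mul_assoc, hτ2, one_mul]) (fun g h => hτ1 (by simpa using h))
    (fun g => by
      show w.embedding (g (y : L)) ≠ 0
      rw [Ne, map_eq_zero, map_eq_zero]
      exact y.ne_zero) (fun g => hτ' _)
  rw [h6] at h5
  have h7 : φ (Algebra.norm K (y : L)) = r := by exact_mod_cast h5
  rw [h7]
  exact hr

end Pool.Agent.H69H
end

-- from Lib.CFT.B08
section

/-! # CFT module B, chunk B08: towers -/

open NumberField IsDedekindDomain

namespace CFT

variable (K : Type) [Field K] [NumberField K] (E : Type) [Field E] [NumberField E] [Algebra K E]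
  (M : Type) [Field M] [NumberField M] [Algebra K M] [Algebra E M] [IsScalarTower K E M]


/-- PROOF. Ideal.under_under. -/
theorem below_below (w : Pr M) : below K (below E w) = below K w := by
  apply HeightOneSpectrum.ext
  show (w.asIdeal.under (𝓞 E)).under (𝓞 K) = w.asIdeal.under (𝓞 K)
  exact Ideal.under_under w.asIdeal

/-- PROOF. Ideal.inertiaDeg_algebra_tower (the version for Ideal.inertiaDeg; there is inertiaDeg'_algebra_tower and a lemma comparing the two), with
(below E w).asIdeal = w.asIdeal.under (O_E). -/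
theorem f_tower (w : Pr M) : w.asIdeal.inertiaDeg (𝓞 K) = (below E w).asIdeal.inertiaDeg (𝓞 K) * w.asIdeal.inertiaDeg (𝓞 E) := by
  haveI : w.asIdeal.LiesOver (below E w).asIdeal := ⟨rfl⟩
  exact Ideal.inertiaDeg_tower (R := 𝓞 K) (S := 𝓞 E) (T := 𝓞 M) (below E w).asIdeal w.asIdeal

/-- PROOF. Ideal.ramificationIdx_algebra_tower. -/
theorem e_tower (w : Pr M) : w.asIdeal.ramificationIdx (𝓞 K) = (below E w).asIdeal.ramificationIdx (𝓞 K) * w.asIdeal.ramificationIdx (𝓞 E) := by
  haveI : w.asIdeal.LiesOver (below E w).asIdeal := ⟨rfl⟩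
  exact Ideal.ramificationIdx_tower (R := 𝓞 K) (S := 𝓞 E) (T := 𝓞 M) (below E w).asIdeal w.asIdeal

/-- PROOF. Both sides are additive: Finsupp.addHom_ext, Nd_single (D2), below_below, f_tower. -/
theorem Nd_Nd (D : Dv M) : Nd K E (Nd E M D) = Nd K M D := by
  have h : (Nd K E).comp (Nd E M) = Nd K M := by
    refine Finsupp.addHom_ext fun w n => ?_
    rw [AddMonoidHom.comp_apply, Nd_single, Nd_single, Nd_single, below_below, f_tower K E M w]
    congr 1
    push_cast
    ring
  exact DFunLike.congr_fun h D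

/-- PROOF. e_tower and below_below; e >= 1, so the product is 1 iff both factors are 1; every prime of E is below some prime of M (below_surj, B06). -/
theorem unr_tower {v : Pr K} (h : Unr K M v) : Unr K E v ∧ ∀ w : Pr E, below K w = v → Unr E M w := by
  constructor
  · intro w hw
    obtain ⟨u, rfl⟩ := below_surj (K := E) (L := M) w
    have h1 := h u (by rw [← hw, below_below])
    rw [e_tower K E M u] at h1
    exact Nat.eq_one_of_mul_eq_one_right h1
  · intro w hw u hu
    have h1 := h u (by rw [← hw, ← hu, below_below])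
    rw [e_tower K E M u] at h1
    exact Nat.eq_one_of_mul_eq_one_left h1

/-- PROOF. e_tower. -/
theorem unr_of_tower {v : Pr K} (h : Unr K E v) (h2 : ∀ w : Pr E, below K w = v → Unr E M w) : Unr K M v := by
  intro u hu
  have h3 := h (below E u) (by rw [below_below, hu])
  have h4 := h2 (below E u) (by rw [below_below, hu]) u rfl
  rw [e_tower K E M u, h3, h4]

end CFT
end

-- from Lib.CFT.B11
section

/-! # CFT module B, chunk B11: the norm of a ray element (congruences) -/

open NumberField IsDedekindDomain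

namespace CFT

variable {K : Type} [Field K] [NumberField K] {L : Type} [Field L] [NumberField L] [Algebra K L]


theorem b11_lt_iff {F : Type} [Field F] [NumberField F] (v : Pr F) {x : F} (hx : x ≠ 0) (N : ℕ) :
    v.valuation F x < WithZero.exp (-(N : ℤ)) ↔ (N : ℤ) < od v x := by
  rw [val_eq v hx, WithZero.exp_lt_exp, neg_lt_neg_iff]

theorem b11_emb {M : Type} [Field M] [NumberField M] [Algebra K M] (σ : L →ₐ[K] M) (W : Pr M) (N : ℕ) (y : L)
    (hy : ∀ w : Pr L, below K w = below K W → w.valuation L (y - 1) < WithZero.exp (-(N : ℤ))) :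
    W.valuation M (σ y - 1) < WithZero.exp (-(N : ℤ)) := by
  by_cases h0 : y - 1 = 0
  · have h1 : σ y - 1 = 0 := by rw [← map_one σ, ← map_sub, h0, map_zero]
    rw [h1, map_zero]
    exact WithZero.zero_lt_coe _
  let _ : Algebra L M := σ.toRingHom.toAlgebra
  have : IsScalarTower K L M := IsScalarTower.of_algebraMap_eq fun x => (σ.commutes x).symm
  have h1 := hy (below L W) (below_below K L M W)
  have h2 : σ y - 1 = algebraMap L M (y - 1) := by
    rw [map_sub, map_one]
    rfl
  have h3 : algebraMap L M (y - 1) ≠ 0 := fun h => h0 ((map_eq_zero _).1 h)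
  rw [b11_lt_iff _ h0] at h1
  rw [h2, b11_lt_iff _ h3, od_alg]
  have h4 : (1 : ℤ) ≤ (W.asIdeal.ramificationIdx (𝓞 L) : ℤ) := by
    have := e_pos (K := L) W
    omega
  nlinarith

theorem b11_prod {M : Type} [Field M] [NumberField M] (W : Pr M) (N : ℕ) {ι : Type} (s : Finset ι) (f : ι → M)
    (h : ∀ i ∈ s, W.valuation M (f i - 1) < WithZero.exp (-(N : ℤ))) :
    W.valuation M (∏ i ∈ s, f i - 1) < WithZero.exp (-(N : ℤ)) := by
  classical
  have hlt : WithZero.exp (-(N : ℤ)) ≤ 1 := exp_le_one N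
  induction s using Finset.induction_on with
  | empty =>
    rw [Finset.prod_empty, sub_self, map_zero]
    exact WithZero.zero_lt_coe _
  | insert i s hi ih =>
    rw [Finset.prod_insert hi]
    have h1 := h i (Finset.mem_insert_self i s)
    have h2 := ih fun j hj => h j (Finset.mem_insert_of_mem hj)
    have h3 : W.valuation M (f i) = 1 := by
      have e : f i = 1 + (f i - 1) := by ring
      rw [e]
      exact Valuation.map_one_add_of_lt _ (h1.trans_le hlt)
    have e : f i * ∏ j ∈ s, f j - 1 = f i * (∏ j ∈ s, f j - 1) + (f i - 1) := by ring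
    rw [e]
    refine Valuation.map_add_lt _ ?_ h1
    rw [map_mul, h3, one_mul]
    exact h2

/-- PROOF. Let v in S, pi in v.asIdeal with pi not in v^2 ... EASIEST: reduce to matrices over the local ring R = localization of O_K at v (a discrete valuation ring, so a principal ideal ring)
and R' = the localization of O_L at the complement of v: a finite torsion free, hence free R-module of rank n. If y - 1 has order > N' >= e_w N at all w above v then
y - 1 in pi^N R' and N(y) = det (1 + pi^N A) with A a matrix over R, so N(y) = 1 mod pi^N; take N + 1 instead of N.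
ALTERNATIVE without localization (recommended): M = a Galois closure of L / K (number field, normalClosure K L (AlgebraicClosure K)); norm y = product over the K-embeddings sigma of L in M of sigma y
(Algebra.norm_eq_prod_embeddings, into M: or into the algebraic closure); for every prime W of M above v and every sigma, sigma induces from W a prime w of L above v
(w = the comap), and od W (sigma y - 1) = e(W|w) od w (y - 1) > N' ; so all sigma y are = 1 modulo W to the order N', so is the product (Ray.mul argument), so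
od W (norm y - 1) > N' and od W (norm y - 1) = e(W|v) od v (norm y - 1), e(W|v) <= [M:K]; N' = [M:K] (N+1) is enough. -/
theorem norm_cong (S : Finset (Pr K)) (N : ℕ) : ∃ N' : ℕ, ∀ y : L, y ≠ 0 →
    (∀ w ∈ up L S, w.valuation L (y - 1) < WithZero.exp (-(N' : ℤ))) →
    ∀ v ∈ S, v.valuation K (Algebra.norm K y - 1) < WithZero.exp (-(N : ℤ)) := by
  classical
  let M := IntermediateField.normalClosure K L (AlgebraicClosure K)
  have : NumberField M := NumberField.of_module_finite K M
  have hprod : ∀ y : L, algebraMap K M (Algebra.norm K y) = ∏ σ : L →ₐ[K] M, σ y := by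
    intro y
    apply (algebraMap M (AlgebraicClosure K)).injective
    rw [← IsScalarTower.algebraMap_apply, Algebra.norm_eq_prod_embeddings K (AlgebraicClosure K) y, map_prod]
    exact (Fintype.prod_equiv (_root_.normalClosure.algHomEquiv K L (AlgebraicClosure K)) _ _ fun σ => rfl).symm
  have hs := below_surj (K := K) (L := M)
  choose W hW using hs
  refine ⟨N * ∑ v ∈ S, (W v).asIdeal.ramificationIdx (𝓞 K), fun y hy h v hv => ?_⟩
  by_cases h0 : Algebra.norm K y - 1 = 0
  · rw [h0, map_zero]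
    exact WithZero.zero_lt_coe _
  have h1 : (W v).valuation M (∏ σ : L →ₐ[K] M, σ y - 1) <
      WithZero.exp (-((N * ∑ v ∈ S, (W v).asIdeal.ramificationIdx (𝓞 K) : ℕ) : ℤ)) := by
    refine b11_prod (W v) _ _ _ fun σ _ => b11_emb σ (W v) _ y fun w hw => h w ?_
    rw [mem_up, hw, hW]
    exact hv
  rw [← hprod] at h1
  have h2 : algebraMap K M (Algebra.norm K y) - 1 = algebraMap K M (Algebra.norm K y - 1) := by
    rw [map_sub, map_one]
  have h3 : algebraMap K M (Algebra.norm K y - 1) ≠ 0 := fun h => h0 ((map_eq_zero _).1 h)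
  rw [h2, b11_lt_iff _ h3, od_alg, hW] at h1
  rw [b11_lt_iff _ h0]
  have h4 : (W v).asIdeal.ramificationIdx (𝓞 K) ≤ ∑ v ∈ S, (W v).asIdeal.ramificationIdx (𝓞 K) :=
    Finset.single_le_sum (f := fun v => (W v).asIdeal.ramificationIdx (𝓞 K)) (fun _ _ => Nat.zero_le _) hv
  have h5 : N * (W v).asIdeal.ramificationIdx (𝓞 K) ≤ N * ∑ v ∈ S, (W v).asIdeal.ramificationIdx (𝓞 K) :=
    Nat.mul_le_mul_left _ h4
  have h6 : ((N * (W v).asIdeal.ramificationIdx (𝓞 K) : ℕ) : ℤ) <
      ((W v).asIdeal.ramificationIdx (𝓞 K) : ℤ) * od v (Algebra.norm K y - 1) :=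
    lt_of_le_of_lt (Int.ofNat_le.2 h5) h1
  rw [Nat.cast_mul, mul_comm] at h6
  exact lt_of_mul_lt_mul_left h6 (Int.natCast_nonneg _)

end CFT
end

-- from Lib.CFT.B14
section

/-! # CFT module B, chunk B14: weak approximation with signs -/

open NumberField IsDedekindDomain

namespace CFT

variable {K : Type} [Field K] [NumberField K]

theorem b14_sep : ∀ φ : K →+* ℝ, ∃ a : K, 1 < |φ a| ∧ ∀ ψ : K →+* ℝ, ψ ≠ φ → |ψ a| < 1 := by
  have hfin : Finite (K →+* ℝ) := by
    refine Finite.of_injective (fun φ : K →+* ℝ => Complex.ofRealHom.comp φ) fun φ ψ h => ?_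
    ext x
    have := congrArg (fun f : K →+* ℂ => f x) h
    simpa using this
  have key := AbsoluteValue.exists_one_lt_lt_one_pi_of_not_isEquiv
    (v := fun φ : K →+* ℝ => (InfinitePlace.mk (Complex.ofRealHom.comp φ)).1)
    (fun φ => InfinitePlace.isNontrivial _) (fun φ ψ hne h => by
      have h1 := InfinitePlace.eq_iff_isEquiv.2 h
      rw [InfinitePlace.mk_eq_iff] at h1
      apply hne
      ext x
      rcases h1 with h1 | h1
      · have := congrArg (fun f : K →+* ℂ => f x) h1
        simpa using this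
      · have := congrArg (fun f : K →+* ℂ => f x) h1
        simpa using this)
  intro φ
  obtain ⟨a, h1, h2⟩ := key φ
  have e : ∀ ψ : K →+* ℝ, (InfinitePlace.mk (Complex.ofRealHom.comp ψ)).1 a = |ψ a| := by
    intro ψ
    have h3 : (InfinitePlace.mk (Complex.ofRealHom.comp ψ)) a = ‖(Complex.ofRealHom.comp ψ) a‖ := InfinitePlace.apply _ _
    have h4 : ‖(Complex.ofRealHom.comp ψ) a‖ = |ψ a| := by
      simp
    rw [← h4, ← h3]
    rfl
  refine ⟨a, ?_, fun ψ hψ => ?_⟩
  · rw [← e]
    exact h1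
  · rw [← e]
    exact h2 ψ hψ

theorem b14_sign (ε : (K →+* ℝ) → ℝ) (hε : ∀ φ, ε φ ≠ 0) : ∃ x : 𝓞 K, (x : K) ≠ 0 ∧ ∀ φ : K →+* ℝ, 0 < φ (x : K) * ε φ := by
  classical
  have hfin : Finite (K →+* ℝ) := by
    refine Finite.of_injective (fun φ : K →+* ℝ => Complex.ofRealHom.comp φ) fun φ ψ h => ?_
    ext x
    have := congrArg (fun f : K →+* ℂ => f x) h
    simpa using this
  have := Fintype.ofFinite (K →+* ℝ)
  choose a ha1 ha2 using b14_sep (K := K)
  set y : K := ∏ φ ∈ Finset.univ.filter (fun φ : K →+* ℝ => ε φ < 0), (1 - a φ ^ 2) with hy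
  have hne : ∀ ψ : K →+* ℝ, ∀ φ : K →+* ℝ, ψ ≠ φ → 0 < ψ (1 - a φ ^ 2) := by
    intro ψ φ h
    rw [map_sub, map_one, map_pow, sub_pos, sq_lt_one_iff_abs_lt_one]
    exact ha2 φ ψ h
  have heq : ∀ φ : K →+* ℝ, φ (1 - a φ ^ 2) < 0 := by
    intro φ
    rw [map_sub, map_one, map_pow, sub_neg, one_lt_sq_iff_one_lt_abs]
    exact ha1 φ
  have hya : ∀ ψ : K →+* ℝ, 0 < ψ y * ε ψ := by
    intro ψ
    rw [hy, map_prod]
    by_cases h : ε ψ < 0
    · have hm : ψ ∈ Finset.univ.filter (fun φ : K →+* ℝ => ε φ < 0) := by simpa using h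
      rw [← Finset.mul_prod_erase _ _ hm]
      have h1 : 0 < ∏ φ ∈ (Finset.univ.filter (fun φ : K →+* ℝ => ε φ < 0)).erase ψ, ψ (1 - a φ ^ 2) := by
        refine Finset.prod_pos fun φ hφ => hne ψ φ ?_
        exact fun h => (Finset.ne_of_mem_erase hφ) h.symm
      have h2 := heq ψ
      have h3 : 0 < ψ (1 - a ψ ^ 2) * ε ψ := mul_pos_of_neg_of_neg h2 h
      calc 0 < (ψ (1 - a ψ ^ 2) * ε ψ) * ∏ φ ∈ (Finset.univ.filter (fun φ : K →+* ℝ => ε φ < 0)).erase ψ, ψ (1 - a φ ^ 2) := mul_pos h3 h1
        _ = _ := by ring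
    · have h0 : 0 < ε ψ := lt_of_le_of_ne (not_lt.1 h) (hε ψ).symm
      refine mul_pos (Finset.prod_pos fun φ hφ => hne ψ φ ?_) h0
      rintro rfl
      exact h (by simpa using hφ)
  have hy0 : y ≠ 0 := by
    rw [hy, Finset.prod_ne_zero_iff]
    intro φ _ h0
    have := heq φ
    rw [h0, map_zero] at this
    exact lt_irrefl _ this
  obtain ⟨p, q, hq, hpq⟩ := IsFractionRing.div_surjective (A := 𝓞 K) y
  have hq0 : (algebraMap (𝓞 K) K q) ≠ 0 := by
    intro h
    have := nonZeroDivisors.ne_zero hq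
    exact this ((FaithfulSMul.algebraMap_eq_zero_iff (𝓞 K) K).1 h)
  have hpe : (algebraMap (𝓞 K) K p) = y * algebraMap (𝓞 K) K q := by
    rw [← hpq]
    field_simp
  refine ⟨p * q, ?_, fun φ => ?_⟩
  · have : ((p * q : 𝓞 K) : K) = y * (algebraMap (𝓞 K) K q) ^ 2 := by
      show algebraMap (𝓞 K) K (p * q) = _
      rw [map_mul, hpe]
      ring
    rw [this]
    exact mul_ne_zero hy0 (pow_ne_zero 2 hq0)
  · have : ((p * q : 𝓞 K) : K) = y * (algebraMap (𝓞 K) K q) ^ 2 := by
      show algebraMap (𝓞 K) K (p * q) = _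
      rw [map_mul, hpe]
      ring
    rw [this, map_mul, map_pow]
    have h1 : 0 < (φ (algebraMap (𝓞 K) K q)) ^ 2 :=
      lt_of_le_of_ne (sq_nonneg _) (Ne.symm (pow_ne_zero 2 ((map_ne_zero φ).2 hq0)))
    calc 0 < (φ y * ε φ) * (φ (algebraMap (𝓞 K) K q)) ^ 2 := mul_pos (hya φ) h1
      _ = _ := by ring

theorem b14_cong (S : Finset (Pr K)) (N : ℕ) (a : Pr K → K) :
    ∃ x : K, ∀ v ∈ S, v.valuation K (x - a v) < WithZero.exp (-(N : ℤ)) := by
  classical
  obtain ⟨⟨b, hb⟩, hint⟩ := IsLocalization.exist_integer_multiples (nonZeroDivisors (𝓞 K)) S a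
  have hb0 : b ≠ 0 := nonZeroDivisors.ne_zero hb
  have hbK : (algebraMap (𝓞 K) K b) ≠ 0 := fun h => hb0 ((FaithfulSMul.algebraMap_eq_zero_iff (𝓞 K) K).1 h)
  choose! c hc using hint
  have hc' : ∀ v ∈ S, algebraMap (𝓞 K) K (c v) = algebraMap (𝓞 K) K b * a v := by
    intro v hv
    rw [hc v hv, Algebra.smul_def]
  obtain ⟨y, hy⟩ := IsDedekindDomain.exists_forall_sub_mem_ideal (s := S) (fun v : Pr K => v.asIdeal)
    (fun v => N + 1 + (od v (b : K)).toNat) (fun v _ => v.prime) (fun v _ w _ hvw h => hvw (HeightOneSpectrum.ext h))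
    (fun v => c v.1)
  refine ⟨(algebraMap (𝓞 K) K y) / algebraMap (𝓞 K) K b, fun v hv => ?_⟩
  have e : (algebraMap (𝓞 K) K y) / algebraMap (𝓞 K) K b - a v = algebraMap (𝓞 K) K (y - c v) / algebraMap (𝓞 K) K b := by
    rw [map_sub, hc' v hv]
    field_simp
  have h1 : v.valuation K (algebraMap (𝓞 K) K (y - c v)) ≤ WithZero.exp (-((N + 1 + (od v (b : K)).toNat : ℕ) : ℤ)) := by
    rw [HeightOneSpectrum.valuation_of_algebraMap, HeightOneSpectrum.intValuation_le_pow_iff_mem]
    exact hy v hv
  have h2 : v.valuation K (algebraMap (𝓞 K) K b) = WithZero.exp (-od v (algebraMap (𝓞 K) K b)) := val_eq v hbK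
  have h3 : od v (algebraMap (𝓞 K) K b) ≤ (od v (b : K)).toNat := Int.self_le_toNat _
  rw [e, map_div₀, h2]
  have h4 : v.valuation K (algebraMap (𝓞 K) K (y - c v)) / WithZero.exp (-od v (algebraMap (𝓞 K) K b)) ≤
      WithZero.exp (-((N + 1 + (od v (b : K)).toNat : ℕ) : ℤ)) / WithZero.exp (-od v (algebraMap (𝓞 K) K b)) := by
    gcongr
    exact (WithZero.exp_pos).le
  refine h4.trans_lt ?_
  rw [← WithZero.exp_sub, WithZero.exp_lt_exp]
  push_cast
  omega

theorem b14_t (S : Finset (Pr K)) (N : ℕ) : ∃ t : ℕ, 0 < t ∧ ∀ v ∈ S, v.valuation K (t : K) < WithZero.exp (-(N : ℤ)) := by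
  classical
  refine ⟨(∏ v ∈ S, Nm v) ^ (N + 1), ?_, fun v hv => ?_⟩
  · exact pow_pos (Finset.prod_pos fun v _ => Nm_pos v) _
  · have h1 : v.valuation K (((∏ v ∈ S, Nm v) : ℕ) : K) ≤ WithZero.exp (-1 : ℤ) := by
      have e : (((∏ v ∈ S, Nm v) : ℕ) : K) = algebraMap (𝓞 K) K ((((∏ v ∈ S, Nm v) : ℕ) : 𝓞 K)) := by
        rw [map_natCast]
      have h2 := HeightOneSpectrum.intValuation_le_pow_iff_mem v ((((∏ v ∈ S, Nm v) : ℕ) : 𝓞 K)) 1
      rw [e, HeightOneSpectrum.valuation_of_algebraMap]
      refine h2.2 ?_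
      rw [pow_one, Nat.cast_prod, ← Finset.mul_prod_erase _ _ hv]
      exact Ideal.mul_mem_right _ _ (Ideal.absNorm_mem _)
    rw [Nat.cast_pow, map_pow]
    calc (v.valuation K (((∏ v ∈ S, Nm v) : ℕ) : K)) ^ (N + 1) ≤ (WithZero.exp (-1 : ℤ)) ^ (N + 1) := pow_le_pow_left' h1 _
      _ = WithZero.exp (-((N + 1 : ℕ) : ℤ)) := by
          rw [← WithZero.exp_nsmul]
          congr 1
          simp
      _ < _ := by
          rw [WithZero.exp_lt_exp]
          push_cast
          omega

/-- PROOF. See the docstring in PLAN: congruences by the Chinese remainder theorem, then signs by adding a large multiple. -/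
theorem approx (S : Finset (Pr K)) (N : ℕ) (a : Pr K → K) (ε : (K →+* ℝ) → ℝ) (hε : ∀ φ, ε φ ≠ 0) :
    ∃ x : K, x ≠ 0 ∧ (∀ v ∈ S, v.valuation K (x - a v) < WithZero.exp (-(N : ℤ))) ∧ ∀ φ : K →+* ℝ, 0 < φ x * ε φ := by
  classical
  obtain ⟨x₁, hx₁⟩ := b14_cong S N a
  obtain ⟨t, ht0, ht⟩ := b14_t S N
  obtain ⟨y, hy0, hy⟩ := b14_sign ε hε
  have hfin : Finite (K →+* ℝ) := by
    refine Finite.of_injective (fun φ : K →+* ℝ => Complex.ofRealHom.comp φ) fun φ ψ h => ?_
    ext x
    have := congrArg (fun f : K →+* ℂ => f x) h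
    simpa using this
  have hev : ∀ φ : K →+* ℝ, ∀ᶠ m : ℕ in Filter.atTop, 0 < φ (x₁ + t * m * (y : K)) * ε φ := by
    intro φ
    have h1 : 0 < (t : ℝ) * (φ (y : K) * ε φ) := mul_pos (by exact_mod_cast ht0) (hy φ)
    have h2 : Filter.Tendsto (fun m : ℕ => (φ x₁ * ε φ) + (m : ℝ) * ((t : ℝ) * (φ (y : K) * ε φ))) Filter.atTop Filter.atTop := by
      refine Filter.tendsto_atTop_add_const_left _ _ ?_
      exact Filter.Tendsto.atTop_mul_const h1 tendsto_natCast_atTop_atTop
    filter_upwards [h2.eventually_gt_atTop 0] with m hm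
    have e : φ (x₁ + t * m * (y : K)) * ε φ = (φ x₁ * ε φ) + (m : ℝ) * ((t : ℝ) * (φ (y : K) * ε φ)) := by
      rw [map_add, map_mul, map_mul, map_natCast, map_natCast]
      ring
    rw [e]
    exact hm
  have hall : ∀ᶠ m : ℕ in Filter.atTop, ∀ φ : K →+* ℝ, 0 < φ (x₁ + t * m * (y : K)) * ε φ := Filter.eventually_all.2 hev
  obtain ⟨M, hM⟩ := Filter.eventually_atTop.1 hall
  have hval : ∀ m : ℕ, ∀ v ∈ S, v.valuation K ((x₁ + t * m * (y : K)) - a v) < WithZero.exp (-(N : ℤ)) := by
    intro m v hv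
    have e : (x₁ + t * m * (y : K)) - a v = (x₁ - a v) + t * (algebraMap (𝓞 K) K ((m : 𝓞 K) * y)) := by
      rw [map_mul, map_natCast]
      ring
    rw [e]
    refine Valuation.map_add_lt _ (hx₁ v hv) ?_
    rw [map_mul]
    calc v.valuation K (t : K) * v.valuation K (algebraMap (𝓞 K) K ((m : 𝓞 K) * y)) ≤ v.valuation K (t : K) * 1 :=
          mul_le_mul_right (v.valuation_le_one _) _
      _ < _ := by
          rw [mul_one]
          exact ht v hv
  by_cases h0 : x₁ + t * M * (y : K) = 0
  · refine ⟨x₁ + t * (M + 1 : ℕ) * (y : K), ?_, hval (M + 1), hM (M + 1) (Nat.le_succ M)⟩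
    have e : x₁ + t * (M + 1 : ℕ) * (y : K) = (x₁ + t * M * (y : K)) + t * (y : K) := by
      push_cast
      ring
    rw [e, h0, zero_add]
    exact mul_ne_zero (Nat.cast_ne_zero.2 ht0.ne') hy0
  · exact ⟨x₁ + t * M * (y : K), h0, hval M, hM M le_rfl⟩

end CFT
end

-- from Lib.H69H.P2
section

set_option autoImplicit false
set_option linter.unusedSectionVars false

namespace Pool.Agent.H69H

open NumberField IsDedekindDomain CFT

variable {K : Type} [Field K] [NumberField K] {L : Type} [Field L] [NumberField L] [Algebra K L]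

/-- Elements near `1` at `S`, negative at `v` and positive at the other real places. -/
theorem exists_sign (S : Finset (Pr K)) (N : ℕ) (v : InfinitePlace K) :
    ∃ κ : Kˣ, (∀ u ∈ S, u.valuation K ((κ : K) - 1) < WithZero.exp (-(N : ℤ))) ∧
      ∀ φ : K →+* ℝ, (InfinitePlace.mk ((algebraMap ℝ ℂ).comp φ) = v → φ (κ : K) < 0) ∧
        (InfinitePlace.mk ((algebraMap ℝ ℂ).comp φ) ≠ v → 0 < φ (κ : K)) := by
  classical
  obtain ⟨x, hx, h1, h2⟩ := CFT.approx S N (fun _ => (1 : K))
    (fun φ => if InfinitePlace.mk ((algebraMap ℝ ℂ).comp φ) = v then (-1 : ℝ) else 1) (fun φ => by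
      split_ifs <;> norm_num)
  refine ⟨Units.mk0 x hx, h1, fun φ => ⟨fun h => ?_, fun h => ?_⟩⟩
  · have := h2 φ
    rw [if_pos h] at this
    rw [Units.val_mk0]
    linarith
  · have := h2 φ
    rw [if_neg h] at this
    rw [Units.val_mk0]
    linarith

end Pool.Agent.H69H
end
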