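import Mathlib
import Pool.Agent.Lib.H1M.PP2.M024

/-! Merged copies (to shorten the build) of Lib.CFT.B07, Lib.H69H.D2, Lib.H69H.D4, Lib.H69H.D5, Lib.H69H.U3, Lib.H69H.U4, Lib.H69H.U5, Lib.H69H.G2, Lib.H69H.U6, Lib.H69H.U1, Lib.H69H.P3, Lib.H69H.T1. -/

-- from Lib.CFT.B07
section

/-! # CFT module B, chunk B07: norm of a principal divisor -/

open NumberField IsDedekindDomain

namespace CFT

variable {K : Type} [Field K] [NumberField K] {L : Type} [Field L] [NumberField L] [Algebra K L]


theorem b07_sum {ι : Type} (T : Finset ι) (g : ι → Dv K) (hg : ∀ i ∈ T, ∀ v, 0 ≤ g i v) :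
    (∀ v, 0 ≤ (∑ i ∈ T, g i) v) ∧ idl (∑ i ∈ T, g i) = ∏ i ∈ T, idl (g i) := by
  classical
  induction T using Finset.induction_on with
  | empty =>
    refine ⟨fun v => ?_, ?_⟩
    · rw [Finset.sum_empty]
      exact le_rfl
    · rw [Finset.sum_empty, Finset.prod_empty]
      exact Finsupp.prod_zero_index
  | insert i T hi ih =>
    obtain ⟨h1, h2⟩ := ih fun j hj => hg j (Finset.mem_insert_of_mem hj)
    have h3 := hg i (Finset.mem_insert_self i T)
    refine ⟨fun v => ?_, ?_⟩
    · rw [Finset.sum_insert hi, Finsupp.add_apply]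
      exact add_nonneg (h3 v) (h1 v)
    · rw [Finset.sum_insert hi, Finset.prod_insert hi, idl_add h3 h1, h2]

/-- PROOF. The relative norm of ideals (Ideal.relNorm): relNorm w = v^f (relNorm_eq_pow_of_isMaximal), multiplicative. -/
theorem relNorm_idl {D : Dv L} (hD : ∀ w, 0 ≤ D w) : Ideal.relNorm (𝓞 K) (idl D) = idl (Nd K L D) := by
  classical
  have e1 : idl (Nd K L D) = ∏ w ∈ D.support, (below K w).asIdeal ^ (w.asIdeal.inertiaDeg (𝓞 K) * (D w).toNat) := by
    have h1 : Nd K L D = ∑ w ∈ D.support, Finsupp.single (below K w) ((w.asIdeal.inertiaDeg (𝓞 K) : ℤ) * D w) := by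
      conv_lhs => rw [← Finsupp.sum_single D]
      unfold Finsupp.sum
      rw [map_sum]
      exact Finset.sum_congr rfl fun w _ => Nd_single K L w (D w)
    have h2 : ∀ w ∈ D.support, ∀ v, 0 ≤ (Finsupp.single (below K w) ((w.asIdeal.inertiaDeg (𝓞 K) : ℤ) * D w) : Dv K) v :=
      fun w _ => b04_single _ (mul_nonneg (Int.natCast_nonneg _) (hD w))
    rw [h1, (b07_sum D.support _ h2).2]
    refine Finset.prod_congr rfl fun w _ => ?_
    rw [b04_idl_single]
    congr 1
    have h3 := hD w
    obtain ⟨k, hk⟩ := Int.eq_ofNat_of_zero_le h3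
    rw [hk]
    have h4 : ((w.asIdeal.inertiaDeg (𝓞 K) : ℤ) * (k : ℤ)) = ((w.asIdeal.inertiaDeg (𝓞 K) * k : ℕ) : ℤ) := by
      push_cast
      ring
    rw [h4, Int.toNat_natCast, Int.toNat_natCast]
  rw [e1]
  unfold idl Finsupp.prod
  rw [map_prod]
  refine Finset.prod_congr rfl fun w _ => ?_
  haveI : w.asIdeal.LiesOver (below K w).asIdeal := ⟨rfl⟩
  haveI : w.asIdeal.IsMaximal := w.isMaximal
  haveI : (below K w).asIdeal.IsMaximal := (below K w).isMaximal
  rw [map_pow, Ideal.relNorm_eq_pow_of_isMaximal w.asIdeal (below K w).asIdeal, pow_mul]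

theorem b07_int {r : 𝓞 L} (hr : r ≠ 0) :
    Nd K L (dv (algebraMap (𝓞 L) L r)) = dv (Algebra.norm K (algebraMap (𝓞 L) L r)) := by
  have hr' : (algebraMap (𝓞 L) L r) ≠ 0 := fun h => hr (RingOfIntegers.coe_eq_zero_iff.1 h)
  have h1 : algebraMap (𝓞 K) K (Algebra.intNorm (𝓞 K) (𝓞 L) r) = Algebra.norm K (algebraMap (𝓞 L) L r) :=
    Algebra.algebraMap_intNorm r
  have h2 : Algebra.intNorm (𝓞 K) (𝓞 L) r ≠ 0 := by
    intro h
    rw [h, map_zero] at h1
    exact Algebra.norm_ne_zero_iff.2 hr' h1.symm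
  rw [← h1]
  have h3 : ∀ w, 0 ≤ dv (algebraMap (𝓞 L) L r) w := fun w => od_nonneg w r
  refine idl_inj ?_ (fun v => od_nonneg v _) ?_
  · intro v
    have e1 : Nd K L (dv (algebraMap (𝓞 L) L r)) = ∑ w ∈ (dv (algebraMap (𝓞 L) L r)).support,
        Finsupp.single (below K w) ((w.asIdeal.inertiaDeg (𝓞 K) : ℤ) * dv (algebraMap (𝓞 L) L r) w) := by
      conv_lhs => rw [← Finsupp.sum_single (dv (algebraMap (𝓞 L) L r))]
      unfold Finsupp.sum
      rw [map_sum]
      exact Finset.sum_congr rfl fun w _ => Nd_single K L w _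
    rw [e1]
    exact (b07_sum _ _ fun w _ => b04_single _ (mul_nonneg (Int.natCast_nonneg _) (h3 w))).1 v
  · rw [← relNorm_idl h3]
    have h4 : idl (dv (algebraMap (𝓞 L) L r)) = Ideal.span {r} := idl_dv hr
    have h5 : idl (dv (algebraMap (𝓞 K) K (Algebra.intNorm (𝓞 K) (𝓞 L) r))) =
        Ideal.span {Algebra.intNorm (𝓞 K) (𝓞 L) r} := idl_dv h2
    rw [h4, h5, Ideal.relNorm_singleton]

/-- PROOF. For y = r in O_L, r <> 0: relNorm (span {r}) = span {intNorm r} (Ideal.relNorm_singleton), relNorm_idl, idl_dv and idl_inj (B04); the coefficients of Nd K L (dv r) are >= 0.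
In general y = a / b. Algebra.algebraMap_intNorm relates intNorm and norm. -/
theorem Nd_dv {y : L} (hy : y ≠ 0) : Nd K L (dv y) = dv (Algebra.norm K y) := by
  obtain ⟨a, b, hb, rfl⟩ := IsFractionRing.div_surjective (A := 𝓞 L) y
  have hb0 : b ≠ 0 := nonZeroDivisors.ne_zero hb
  have ha0 : a ≠ 0 := by
    rintro rfl
    rw [map_zero, zero_div] at hy
    exact hy rfl
  have ha' : (algebraMap (𝓞 L) L a) ≠ 0 := fun h => ha0 (RingOfIntegers.coe_eq_zero_iff.1 h)
  have hb' : (algebraMap (𝓞 L) L b) ≠ 0 := fun h => hb0 (RingOfIntegers.coe_eq_zero_iff.1 h)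
  have ha2 : Algebra.norm K (algebraMap (𝓞 L) L a) ≠ 0 := Algebra.norm_ne_zero_iff.2 ha'
  have hb2 : Algebra.norm K (algebraMap (𝓞 L) L b) ≠ 0 := Algebra.norm_ne_zero_iff.2 hb'
  have hinv : Algebra.norm K (algebraMap (𝓞 L) L b)⁻¹ = (Algebra.norm K (algebraMap (𝓞 L) L b))⁻¹ := by
    apply eq_inv_of_mul_eq_one_left
    rw [← map_mul, inv_mul_cancel₀ hb', map_one]
  rw [div_eq_mul_inv, dv_mul ha' (inv_ne_zero hb'), dv_inv, map_add, map_neg, map_mul, hinv,
    dv_mul ha2 (inv_ne_zero hb2), dv_inv, b07_int ha0, b07_int hb0]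

end CFT
end

-- from Lib.H69H.D2
section

set_option autoImplicit false
set_option linter.unusedSectionVars false

namespace Pool.Agent.H69H

open NumberField IsDedekindDomain CFT

variable {K : Type} [Field K] [NumberField K] {L : Type} [Field L] [NumberField L] [Algebra K L]

/-- The order at `w` of an element of `K`. -/
theorem od_algebraMap (w : Pr L) (x : K) :
    od w (algebraMap K L x) = (w.asIdeal.ramificationIdx (𝓞 K) : ℤ) * od (below K w) x := CFT.od_alg x w


/-- There is a prime above. -/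
theorem below_surj (L : Type) [Field L] [NumberField L] [Algebra K L] (v : Pr K) : ∃ w : Pr L, below K w = v :=
  CFT.below_surj v

theorem ram_ne (w : Pr L) : (w.asIdeal.ramificationIdx (𝓞 K) : ℤ) ≠ 0 := by
  exact_mod_cast (CFT.e_pos w).ne'

/-- The conorm is injective. -/
theorem con_injective : Function.Injective (con K L) := by
  rw [injective_iff_map_eq_zero]
  intro D hD
  ext v
  obtain ⟨w, rfl⟩ := below_surj L v
  have h := DFunLike.congr_fun hD w
  rw [con_apply, Finsupp.zero_apply] at h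
  exact (mul_eq_zero.1 h).resolve_left (ram_ne w)

end Pool.Agent.H69H
end

-- from Lib.H69H.D4
section

set_option autoImplicit false
set_option linter.unusedSectionVars false

namespace Pool.Agent.H69H

open NumberField IsDedekindDomain CFT

variable {K : Type} [Field K] [NumberField K] {L : Type} [Field L] [NumberField L] [Algebra K L]

theorem d4_sD_single (σ : L ≃ₐ[K] L) (w : Pr L) (a : ℤ) :
    sD σ (Finsupp.single w a) = Finsupp.single (gp σ w) a := by
  classical
  ext w'
  rw [sD_apply, Finsupp.single_apply, Finsupp.single_apply]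
  by_cases h : gp σ w = w'
  · rw [if_pos h, if_pos]
    rw [← h, gp_inv_gp]
  · rw [if_neg h, if_neg]
    intro h'
    apply h
    rw [h', gp_gp_inv]

theorem d4_sM_iter (σ : L ≃ₐ[K] L) (w : Pr L) (a : ℤ) (i : ℕ) :
    (sM σ)^[i] (Multiplicative.ofAdd (Finsupp.single w a)) =
      Multiplicative.ofAdd (Finsupp.single ((gp σ)^[i] w) a) := by
  induction i with
  | zero => rfl
  | succ i ih =>
    rw [Function.iterate_succ_apply', ih, Function.iterate_succ_apply']
    show Multiplicative.ofAdd (sD σ (Finsupp.single ((gp σ)^[i] w) a)) = _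
    rw [d4_sD_single]

theorem d4_below_iter (σ : L ≃ₐ[K] L) (w : Pr L) (i : ℕ) :
    below K ((gp σ)^[i] w) = below K w := by
  induction i with
  | zero => rfl
  | succ i ih => rw [Function.iterate_succ_apply', below_gp, ih]

theorem d4_comm : SMulCommClass (L ≃ₐ[K] L) (𝓞 K) (𝓞 L) := by
  refine ⟨fun g a x => ?_⟩
  apply RingOfIntegers.ext
  show g (((a • x : 𝓞 L)) : L) = ((a • (g • x) : 𝓞 L) : L)
  rw [Algebra.smul_def, Algebra.smul_def]
  show g (algebraMap (𝓞 L) L (algebraMap (𝓞 K) (𝓞 L) a * x)) =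
    algebraMap (𝓞 L) L (algebraMap (𝓞 K) (𝓞 L) a * (g • x))
  rw [map_mul, map_mul, map_mul]
  have h : algebraMap (𝓞 L) L (algebraMap (𝓞 K) (𝓞 L) a) = algebraMap K L (algebraMap (𝓞 K) K a) := by
    rw [← IsScalarTower.algebraMap_apply, ← IsScalarTower.algebraMap_apply]
  rw [h, AlgEquiv.commutes]
  rfl

theorem d4_ram_gp (τ : L ≃ₐ[K] L) (w : Pr L) :
    (gp τ w).asIdeal.ramificationIdx (𝓞 K) = w.asIdeal.ramificationIdx (𝓞 K) := by
  rw [gp_asIdeal]
  have := d4_comm (K := K) (L := L)
  exact Ideal.ramificationIdx_smul (R := 𝓞 K) (S := 𝓞 L) (G := L ≃ₐ[K] L) w.asIdeal τ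

/-- PROOF. Both sides are additive in `D`; `D = single w a`. The coefficient at `w'` is on the left `e(w') * f(w) * a` if `below K w' = below K w` and `0` otherwise (`con_apply`, definition of `Nd`), on
the right `∑_{i<n} ((sD σ)^[i] (single w a)) w' = a * #{i < n | (gp σ)^[i] w = w'}`: `gp_count` (D3) if `below K w = below K w'`, and `0` otherwise (`below_gp`, D1). The ramification index is the same for `w` and `w'`
(they are conjugate: `Ideal.ramificationIdx_smul`, `exists_gp`). -/
theorem con_Nd [IsGalois K L] (σ : L ≃ₐ[K] L) (hσ : ∀ x, x ∈ Subgroup.zpowers σ) (D : Dv L) :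
    con K L (Nd K L D) = Multiplicative.toAdd (nrm (Module.finrank K L) (sM σ) (Multiplicative.ofAdd D)) := by
  classical
  let φ1 : Dv L →+ Dv L := (con K L).comp (Nd K L)
  let φ2 : Dv L →+ Dv L :=
    { toFun := fun D => Multiplicative.toAdd (nrm (Module.finrank K L) (sM σ) (Multiplicative.ofAdd D))
      map_zero' := by rw [ofAdd_zero, map_one, toAdd_one]
      map_add' := fun D E => by rw [ofAdd_add, map_mul, toAdd_mul] }
  have key : φ1 = φ2 := by
    refine Finsupp.addHom_ext fun w a => ?_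
    ext w'
    show con K L (Nd K L (Finsupp.single w a)) w' =
      (Multiplicative.toAdd (nrm (Module.finrank K L) (sM σ) (Multiplicative.ofAdd (Finsupp.single w a)))) w'
    rw [nrm_apply, toAdd_prod, con_apply]
    have h1 : Nd K L (Finsupp.single w a) =
        Finsupp.single (below K w) (((w.asIdeal.inertiaDeg (𝓞 K) : ℕ) : ℤ) * a) := by
      unfold Nd
      rw [Finsupp.liftAddHom_apply_single]
      rfl
    rw [h1, Finsupp.single_apply]
    have h2 : (∑ i ∈ Finset.range (Module.finrank K L), Multiplicative.toAdd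
        ((sM σ)^[i] (Multiplicative.ofAdd (Finsupp.single w a)))) w' =
        ∑ i ∈ Finset.range (Module.finrank K L), if (gp σ)^[i] w = w' then a else 0 := by
      rw [Finsupp.finsetSum_apply]
      refine Finset.sum_congr rfl fun i _ => ?_
      rw [d4_sM_iter, toAdd_ofAdd, Finsupp.single_apply]
    rw [h2, ← Finset.sum_filter, Finset.sum_const, nsmul_eq_mul]
    by_cases hb : below K w = below K w'
    · rw [if_pos hb, gp_count σ hσ w w' hb]
      obtain ⟨τ, hτ⟩ := exists_gp (K := K) w w' hb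
      rw [← hτ, d4_ram_gp]
      push_cast
      ring
    · rw [if_neg hb, mul_zero]
      have h3 : (Finset.range (Module.finrank K L)).filter (fun i => (gp σ)^[i] w = w') = ∅ := by
        rw [Finset.filter_eq_empty_iff]
        intro i _ hi
        apply hb
        rw [← hi, d4_below_iter]
      rw [h3, Finset.card_empty, Nat.cast_zero, zero_mul]
  exact DFunLike.congr_fun key D

theorem Nd_dv (y : Lˣ) : Nd K L (dv (y : L)) = dv (Algebra.norm K (y : L)) := CFT.Nd_dv y.ne_zero

end Pool.Agent.H69H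
end

-- from Lib.H69H.D5
section

set_option autoImplicit false
set_option linter.unusedSectionVars false

namespace Pool.Agent.H69H

open NumberField IsDedekindDomain CFT

variable {K : Type} [Field K] [NumberField K] {L : Type} [Field L] [NumberField L] [Algebra K L]

/-- PROOF. `D` is constant on the orbits (`sD σ D = D` gives `D (gp τ w) = D w` for all `τ ∈ zpowers σ = G`), the orbits are the sets of the primes above one `v` (`exists_gp`, D1). Let `E v = D w` for `v ∈ T`, `w` above `v`
(`below_surj`, D2), `0` for `v ∉ T`. `con E w = e(w) * E (below w) = D w`: `e(w) = 1` for `v ∈ T` (`hT`), both are `0` otherwise. -/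
theorem inv_con [IsGalois K L] (σ : L ≃ₐ[K] L) (hσ : ∀ x, x ∈ Subgroup.zpowers σ) (T : Finset (Pr K))
    (hT : ∀ v ∈ T, Unr K L v) (D : Dv L) (hD : D ∈ DTL L T) (h : sD σ D = D) : ∃ E ∈ DTK T, D = con K L E := by
  classical
  have h1 : ∀ w, D (gp σ w) = D w := by
    intro w
    have := DFunLike.congr_fun h (gp σ w)
    rw [sD_apply, gp_inv_gp] at this
    exact this.symm
  let H : Subgroup (L ≃ₐ[K] L) :=
    { carrier := {τ | ∀ w, D (gp τ w) = D w}
      one_mem' := fun w => by rw [gp_one]
      mul_mem' := fun {a b} ha hb w => by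
        rw [gp_mul]
        exact (ha _).trans (hb w)
      inv_mem' := fun {a} ha w => by
        have := ha (gp a⁻¹ w)
        rw [gp_gp_inv] at this
        exact this.symm }
  have hσH : σ ∈ H := h1
  have h2 : ∀ τ ∈ Subgroup.zpowers σ, ∀ w, D (gp τ w) = D w := by
    intro τ hτ
    have h2' : Subgroup.zpowers σ ≤ H := by
      rw [Subgroup.zpowers_le]
      exact hσH
    exact h2' hτ
  have h3 : ∀ w w' : Pr L, below K w = below K w' → D w = D w' := by
    intro w w' hb
    obtain ⟨τ, hτ⟩ := exists_gp (K := K) w w' hb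
    rw [← hτ, h2 τ (hσ τ)]
  choose up hup using fun v : Pr K => below_surj L v
  let E : Dv K := Finsupp.onFinset T (fun v => if v ∈ T then D (up v) else 0) (by
    intro v hv
    by_contra hcon
    exact hv (if_neg hcon))
  have hE : ∀ v, E v = if v ∈ T then D (up v) else 0 := fun v => rfl
  refine ⟨E, fun v hv => ?_, ?_⟩
  · rw [hE, if_neg hv]
  · ext w
    rw [con_apply, hE]
    by_cases hw : below K w ∈ T
    · rw [if_pos hw, hT _ hw w rfl, Nat.cast_one, one_mul]
      exact h3 w (up (below K w)) (hup (below K w)).symm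
    · rw [if_neg hw, mul_zero]
      exact hD w hw

/-- Generated by the `single w 1`, `w` above `T` (finitely many, `fib_fin`). -/
theorem MT_fg (T : Finset (Pr K)) : (MT L T).FG := by
  classical
  have hfin : {w : Pr L | below K w ∈ T}.Finite := by
    have h1 : {w : Pr L | below K w ∈ T} = ⋃ v ∈ T, {w : Pr L | below K w = v} := by
      ext w
      simp
    rw [h1]
    exact Set.Finite.biUnion T.finite_toSet fun v _ => fib_fin (L := L) K v
  obtain ⟨g, hg⟩ : ∃ g : Pr L → Multiplicative (Dv L),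
      ∀ w, g w = Multiplicative.ofAdd (Finsupp.single w (1 : ℤ)) := ⟨_, fun _ => rfl⟩
  rw [Subgroup.fg_iff]
  refine ⟨g '' {w : Pr L | below K w ∈ T}, ?_, hfin.image _⟩
  apply le_antisymm
  · rw [Subgroup.closure_le]
    rintro _ ⟨w, hw, rfl⟩
    rw [SetLike.mem_coe, mem_MT]
    intro w' hw'
    rw [hg, toAdd_ofAdd, Finsupp.single_apply, if_neg]
    rintro rfl
    exact hw' hw
  · intro D hD
    rw [mem_MT] at hD
    have key : ∀ (E : Dv L), (∀ w, below K w ∉ T → E w = 0) →
        Multiplicative.ofAdd E ∈ Subgroup.closure (g '' {w : Pr L | below K w ∈ T}) := by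
      intro E
      induction E using Finsupp.induction with
      | zero =>
        intro _
        rw [ofAdd_zero]
        exact one_mem _
      | single_add w a f hwf ha ih =>
        intro hE
        have hw : below K w ∈ T := by
          by_contra hcon
          have h1 := hE w hcon
          rw [Finsupp.add_apply, Finsupp.single_eq_same, Finsupp.notMem_support_iff.1 hwf, add_zero] at h1
          exact ha h1
        rw [ofAdd_add]
        refine mul_mem ?_ (ih ?_)
        · have h2 : Multiplicative.ofAdd (Finsupp.single w a) = g w ^ a := by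
            rw [hg, ← ofAdd_zsmul]
            congr 1
            rw [Finsupp.smul_single, smul_eq_mul, mul_one]
          rw [h2]
          have h3 : g w ∈ g '' {w : Pr L | below K w ∈ T} := Set.mem_image_of_mem g hw
          exact zpow_mem (Subgroup.subset_closure h3) a
        · intro w' hw'
          have h1 := hE w' hw'
          rw [Finsupp.add_apply, Finsupp.single_apply, if_neg, zero_add] at h1
          · exact h1
          · rintro rfl
            exact hw' hw
    exact key (Multiplicative.toAdd D) hD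


end Pool.Agent.H69H
end

-- from Lib.H69H.U3
section

set_option autoImplicit false
set_option linter.unusedSectionVars false

namespace Pool.Agent.H69H

open NumberField IsDedekindDomain CFT

variable {K : Type} [Field K] [NumberField K] {L : Type} [Field L] [NumberField L] [Algebra K L]

theorem u3_UL_eq (L : Type) [Field L] [NumberField L] : UL L = (Units.map (algebraMap (𝓞 L) L : 𝓞 L →* L)).range := by
  ext x
  constructor
  · intro hx
    have h1 : dvU L x = 1 := hx
    have h2 : dv (x : L) = 0 := by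
      rw [dvU_apply] at h1
      exact h1
    obtain ⟨u, hu⟩ := unit_of_dv x.ne_zero h2
    exact ⟨u, Units.ext hu⟩
  · rintro ⟨u, rfl⟩
    show dvU L _ = 1
    rw [dvU_apply]
    exact dv_unit u

/-- The units. -/
noncomputable def u3_equiv (L : Type) [Field L] [NumberField L] : (𝓞 L)ˣ ≃* UL L :=
  (MonoidHom.ofInjective (f := Units.map (algebraMap (𝓞 L) L : 𝓞 L →* L))
    (Units.map_injective (FaithfulSMul.algebraMap_injective (𝓞 L) L))).trans
    (MulEquiv.subgroupCongr (u3_UL_eq L).symm)

theorem u3_finrank (L : Type) [Field L] [NumberField L] : Module.finrank ℤ (Additive (UL L)) = NumberField.Units.rank L := by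
  rw [← NumberField.Units.finrank_eq]
  exact (LinearEquiv.finrank_eq (AddEquiv.toIntLinearEquiv (MulEquiv.toAdditive (u3_equiv L)))).symm

theorem u3_finite (L : Type) [Field L] [NumberField L] : Module.Finite ℤ (Additive (UL L)) :=
  Module.Finite.equiv (AddEquiv.toIntLinearEquiv (MulEquiv.toAdditive (u3_equiv L)))

/-- The linear map. -/
noncomputable def u3_f (ε : InfinitePlace L → Lˣ) (h : ∀ x, phi ε x ∈ UL L) : (InfinitePlace L → ℤ) →ₗ[ℤ] Additive (UL L) :=
  AddMonoidHom.toIntLinearMap
    { toFun := fun x => Additive.ofMul ⟨phi ε (Multiplicative.ofAdd x), h _⟩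
      map_zero' := by
        rw [← ofMul_one]
        congr 1
        exact Subtype.ext (map_one (phi ε))
      map_add' := fun x y => by
        rw [← ofMul_mul]
        congr 1
        exact Subtype.ext (map_mul (phi ε) (Multiplicative.ofAdd x) (Multiplicative.ofAdd y)) }

theorem u3_f_apply (ε : InfinitePlace L → Lˣ) (h : ∀ x, phi ε x ∈ UL L) (x : InfinitePlace L → ℤ) :
    u3_f ε h x = Additive.ofMul ⟨phi ε (Multiplicative.ofAdd x), h _⟩ := rfl

/-- The kernel is not trivial. PROOF: otherwise `phi ε` would be an injective homomorphism from a group of rank `card (InfinitePlace L)` to the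
units (`UL L`, isomorphic to `(𝓞 L)ˣ`), whose rank is `card - 1` (Mathlib `NumberField.Units.rank`, `NumberField.Units.finrank_eq :
finrank ℤ (Additive (𝓞 K)ˣ) = rank K`; `LinearMap.finrank_le_finrank_of_injective` or `LinearMap.rank_le_of_injective`). -/
theorem phi_ker_ne (ε : InfinitePlace L → Lˣ) (h1 : ∀ w, ε w ∈ UL L) :
    ∃ x : Multiplicative (InfinitePlace L → ℤ), x ≠ 1 ∧ phi ε x = 1 := by
  have hmem : ∀ x, phi ε x ∈ UL L := fun x => by
    rw [phi_apply]
    exact Subgroup.prod_mem _ fun w _ => Subgroup.zpow_mem _ (h1 w) _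
  by_contra hcon
  have hcon' : ∀ x : Multiplicative (InfinitePlace L → ℤ), phi ε x = 1 → x = 1 := by
    intro x hx
    by_contra h
    exact hcon ⟨x, h, hx⟩
  have hinj : Function.Injective (u3_f ε hmem) := by
    rw [injective_iff_map_eq_zero]
    intro x hx
    rw [u3_f_apply] at hx
    have h2 : phi ε (Multiplicative.ofAdd x) = 1 := congrArg (fun z : Additive (UL L) => ((Additive.toMul z : UL L) : Lˣ)) hx
    exact hcon' _ h2
  have := u3_finite L
  have h2 := LinearMap.finrank_le_finrank_of_injective hinj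
  rw [u3_finrank, NumberField.Units.rank, Module.finrank_fintype_fun_eq_card] at h2
  have h3 : 0 < Fintype.card (InfinitePlace L) := Fintype.card_pos
  omega

/-- The coordinates of an element of the kernel are all zero, all positive or all negative. PROOF: `sign_lemma` (U2) with
`C w' w = Real.log (w' (ε w))` and `m w' = mult w'`: `∑ w', mult w' * log (w' u) = 0` for a unit `u` (Mathlib `NumberField.Units.sum_mult_mul_log`),
`C w' w < 0` for `w' ≠ w`, and `∑_w C w' w * x w = log (w' (∏_w ε_w ^ x_w)) = 0`. -/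
theorem phi_ker_sign (ε : InfinitePlace L → Lˣ) (h1 : ∀ w, ε w ∈ UL L) (h3 : ∀ w w' : InfinitePlace L, w' ≠ w → w' (ε w : L) < 1)
    (x : Multiplicative (InfinitePlace L → ℤ)) (hx : phi ε x = 1) :
    (∀ w, Multiplicative.toAdd x w = 0) ∨ (∀ w, 0 < Multiplicative.toAdd x w) ∨ (∀ w, Multiplicative.toAdd x w < 0) := by
  have hpos : ∀ w w' : InfinitePlace L, 0 < w' (ε w : L) := fun w w' => InfinitePlace.pos_iff.2 (ε w).ne_zero
  refine sign_lemma (fun w' w => Real.log (w' (ε w : L))) (fun w => (w.mult : ℝ)) (fun w => ?_) ?_ ?_ _ ?_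
  · exact_mod_cast InfinitePlace.mult_pos
  · intro i j hij
    exact Real.log_neg (hpos j i) (h3 j i hij)
  · intro j
    have h4 := h1 j
    rw [u3_UL_eq] at h4
    obtain ⟨u, hu⟩ := h4
    have h5 := NumberField.Units.sum_mult_mul_log u
    have h6 : ((ε j : Lˣ) : L) = algebraMap (𝓞 L) L (u : 𝓞 L) := by
      rw [← hu]
      rfl
    rw [h6]
    exact h5
  · intro i
    have h4 : i ((phi ε x : Lˣ) : L) = ∏ w, i (ε w : L) ^ (Multiplicative.toAdd x w) := by
      rw [phi_apply, Units.coe_prod, map_prod]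
      exact Finset.prod_congr rfl fun w _ => by rw [Units.val_zpow_eq_zpow_val, map_zpow₀]
    rw [hx, Units.val_one, map_one] at h4
    have h5 := congrArg Real.log h4
    rw [Real.log_one, Real.log_prod (fun w _ => (zpow_pos (hpos w i) _).ne')] at h5
    rw [h5]
    refine Finset.sum_congr rfl fun w _ => ?_
    rw [Real.log_zpow, mul_comm]

end Pool.Agent.H69H
end

-- from Lib.H69H.U4
section

set_option autoImplicit false
set_option linter.unusedSectionVars false

namespace Pool.Agent.H69H

open NumberField IsDedekindDomain CFT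

variable {K : Type} [Field K] [NumberField K] {L : Type} [Field L] [NumberField L] [Algebra K L]

/-- PROOF. `phi_ker_ne`, `phi_ker_sign` (U3). Fix a place `w0`. By `phi_ker_ne` and `phi_ker_sign` (and inverses) there are elements of the kernel with
positive coordinate at `w0`; let `c` be one with the smallest such coordinate `m` (`Nat.find` or well founded minimum). If `x` is in the kernel, `x w0 = k m + r`, `0 ≤ r < m`, then
`x * c^(-k)` is in the kernel with `w0` coordinate `r`: so `r = 0` by minimality, and then all its coordinates are `0` by `phi_ker_sign`; `x = c ^ k`. `c ^ i = 1` gives `i * m = 0`.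
INVARIANCE: let `c' w = c (σ • w)`. `phi ε c' = ∏_w ε_w ^ c (σ • w) = ∏_w ε_(σ⁻¹ • w) ^ c w = σ⁻¹ (∏ ε_w ^ c w) = 1` (`h2`), so `c' = c ^ k`, and the sum of the coordinates
of `c'` and `c` is the same and positive: `k = 1`. -/
theorem phi_ker (ε : InfinitePlace L → Lˣ) (h1 : ∀ w, ε w ∈ UL L) (h2 : ∀ (σ : L ≃ₐ[K] L) w, sU σ (ε w) = ε (σ • w))
    (h3 : ∀ w w' : InfinitePlace L, w' ≠ w → w' (ε w : L) < 1) :
    ∃ c : Multiplicative (InfinitePlace L → ℤ), (phi ε).ker = Subgroup.zpowers c ∧ (∀ i : ℤ, c ^ i = 1 → i = 0) ∧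
      ∀ (σ : L ≃ₐ[K] L) w, Multiplicative.toAdd c (σ • w) = Multiplicative.toAdd c w := by
  classical
  obtain ⟨w0⟩ := (inferInstance : Nonempty (InfinitePlace L))
  let co : Multiplicative (InfinitePlace L → ℤ) → InfinitePlace L → ℤ := fun x => Multiplicative.toAdd x
  have co_mul : ∀ x y w, co (x * y) w = co x w + co y w := fun x y w => rfl
  have co_zpow : ∀ x (i : ℤ) w, co (x ^ i) w = i * co x w := fun x i w => by
    show Multiplicative.toAdd (x ^ i) w = _
    rw [toAdd_zpow, Pi.smul_apply, smul_eq_mul]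
  have co_one : ∀ w, co 1 w = 0 := fun w => rfl
  have co_ext : ∀ x y, (∀ w, co x w = co y w) → x = y := fun x y h => by
    apply Multiplicative.toAdd.injective
    funext w
    exact h w
  have sgn : ∀ x, phi ε x = 1 → (∀ w, co x w = 0) ∨ (∀ w, 0 < co x w) ∨ (∀ w, co x w < 0) :=
    fun x hx => phi_ker_sign ε h1 h3 x hx
  have hne : ∃ n : ℕ, 0 < n ∧ ∃ x, phi ε x = 1 ∧ co x w0 = n := by
    obtain ⟨x, hx1, hx2⟩ := phi_ker_ne ε h1
    rcases sgn x hx2 with h | h | h
    · exact absurd (co_ext x 1 fun w => by rw [h w, co_one]) hx1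
    · exact ⟨(co x w0).toNat, by have := h w0; omega, x, hx2, by have := h w0; omega⟩
    · refine ⟨(-co x w0).toNat, by have := h w0; omega, x ^ (-1 : ℤ), ?_, ?_⟩
      · rw [map_zpow, hx2, one_zpow]
      · rw [co_zpow]
        have := h w0
        omega
  set m := Nat.find hne with hm
  obtain ⟨hm0, c, hc1, hc2⟩ := Nat.find_spec hne
  rw [← hm] at hm0 hc2
  have hmin : ∀ k : ℕ, 0 < k → k < m → ∀ x, phi ε x = 1 → co x w0 ≠ k := by
    intro k hk hkm x hx hxk
    exact Nat.find_min hne hkm ⟨hk, x, hx, hxk⟩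
  have hker : ∀ x, phi ε x = 1 → ∃ k : ℤ, c ^ k = x := by
    intro x hx
    refine ⟨co x w0 / m, ?_⟩
    set q := co x w0 / (m : ℤ) with hq
    have hy : phi ε (x * c ^ (-q)) = 1 := by
      rw [map_mul, map_zpow, hx, hc1, one_zpow, mul_one]
    have hyw : co (x * c ^ (-q)) w0 = co x w0 % (m : ℤ) := by
      rw [co_mul, co_zpow, hc2, Int.emod_def, hq]
      ring
    have hr0 := Int.emod_nonneg (co x w0) (b := (m : ℤ)) (by omega)
    have hr1 := Int.emod_lt_of_pos (co x w0) (b := (m : ℤ)) (by omega)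
    have hr : co x w0 % (m : ℤ) = 0 := by
      by_contra hne'
      exact hmin (co x w0 % (m : ℤ)).toNat (by omega) (by omega) _ hy (by rw [hyw]; omega)
    rw [hr] at hyw
    have hy1 : x * c ^ (-q) = 1 := by
      rcases sgn _ hy with h | h | h
      · exact co_ext _ 1 fun w => by rw [h w, co_one]
      · have := h w0
        omega
      · have := h w0
        omega
    have : x = x * c ^ (-q) * c ^ q := by
      rw [mul_assoc, ← zpow_add, neg_add_cancel, zpow_zero, mul_one]
    rw [this, hy1, one_mul]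
  have hpos : ∀ w, 0 < co c w := by
    rcases sgn c hc1 with h | h | h
    · have := h w0
      omega
    · exact h
    · have := h w0
      omega
  refine ⟨c, ?_, ?_, ?_⟩
  · ext x
    rw [MonoidHom.mem_ker, Subgroup.mem_zpowers_iff]
    constructor
    · exact hker x
    · rintro ⟨k, rfl⟩
      rw [map_zpow, hc1, one_zpow]
  · intro i hi
    have h4 : co (c ^ i) w0 = 0 := by rw [hi, co_one]
    rw [co_zpow, hc2] at h4
    rcases mul_eq_zero.1 h4 with h | h
    · exact h
    · omega
  · intro σ w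
    let c' : Multiplicative (InfinitePlace L → ℤ) := Multiplicative.ofAdd fun w => co c (σ • w)
    have hc' : ∀ w, co c' w = co c (σ • w) := fun w => rfl
    have hphi : phi ε c' = 1 := by
      rw [phi_apply]
      have e1 : ∏ w, ε w ^ (Multiplicative.toAdd c' w) = ∏ w, ε (σ⁻¹ • w) ^ (co c w) := by
        rw [← Equiv.prod_comp (MulAction.toPerm (σ : L ≃ₐ[K] L)) fun w => ε (σ⁻¹ • w) ^ (co c w)]
        refine Finset.prod_congr rfl fun w _ => ?_
        show ε w ^ co c (σ • w) = ε (σ⁻¹ • σ • w) ^ co c (σ • w)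
        rw [inv_smul_smul]
      rw [e1]
      have e2 : ∏ w, ε (σ⁻¹ • w) ^ (co c w) = sU σ⁻¹ (phi ε c) := by
        rw [phi_apply, map_prod]
        refine Finset.prod_congr rfl fun w _ => ?_
        rw [← h2, map_zpow]
      rw [e2, hc1, map_one]
    obtain ⟨k, hk⟩ := hker c' hphi
    have hsum : ∑ w, co c' w = ∑ w, co c w := by
      rw [← Equiv.sum_comp (MulAction.toPerm (σ : L ≃ₐ[K] L)) fun w => co c w]
      rfl
    have hsum2 : ∑ w, co c' w = k * ∑ w, co c w := by
      rw [← hk, Finset.mul_sum]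
      exact Finset.sum_congr rfl fun w _ => co_zpow c k w
    have hS : 0 < ∑ w, co c w := Finset.sum_pos (fun w _ => hpos w) ⟨w0, Finset.mem_univ _⟩
    have hk1 : k = 1 := by
      rw [hsum] at hsum2
      have : (k - 1) * ∑ w, co c w = 0 := by linarith
      rcases mul_eq_zero.1 this with h | h
      · omega
      · omega
    rw [hk1, zpow_one] at hk
    have := hc' w
    rw [← hk] at this
    exact this.symm

end Pool.Agent.H69H
end

-- from Lib.H69H.U5
section

set_option autoImplicit false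
set_option linter.unusedSectionVars false

namespace Pool.Agent.H69H

open NumberField IsDedekindDomain CFT

variable {K : Type} [Field K] [NumberField K] {L : Type} [Field L] [NumberField L] [Algebra K L]

/-- `UL L` is the group of units of the ring of integers. PROOF: `od w x = 0` for all `w` iff all valuations of `x` are `1` (`val_eq` in CFT/D0), and then
`x` and `x⁻¹` are integral (`IsDedekindDomain.HeightOneSpectrum.mem_integers_of_valuation_le_one`). -/
theorem UL_eq (L : Type) [Field L] [NumberField L] : UL L = (Units.map (algebraMap (𝓞 L) L : 𝓞 L →* L)).range := by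
  ext x
  constructor
  · intro hx
    have h1 : dvU L x = 1 := hx
    have h2 : dv (x : L) = 0 := by
      rw [dvU_apply] at h1
      exact h1
    obtain ⟨u, hu⟩ := unit_of_dv x.ne_zero h2
    exact ⟨u, Units.ext hu⟩
  · rintro ⟨u, rfl⟩
    show dvU L _ = 1
    rw [dvU_apply]
    exact dv_unit u

theorem UL_fg (L : Type) [Field L] [NumberField L] : (UL L).FG := by
  rw [UL_eq]
  have : Group.FG (𝓞 L)ˣ := Group.fg_iff_monoid_fg.2 inferInstance
  rw [← Group.fg_iff_subgroup_fg]
  exact Group.fg_range _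

/-- The units. -/
noncomputable def u5_equiv (L : Type) [Field L] [NumberField L] : (𝓞 L)ˣ ≃* UL L :=
  (MonoidHom.ofInjective (f := Units.map (algebraMap (𝓞 L) L : 𝓞 L →* L))
    (Units.map_injective (FaithfulSMul.algebraMap_injective (𝓞 L) L))).trans
    (MulEquiv.subgroupCongr (UL_eq L).symm)

theorem u5_finrank (L : Type) [Field L] [NumberField L] : Module.finrank ℤ (Additive (UL L)) = NumberField.Units.rank L := by
  rw [← NumberField.Units.finrank_eq]
  exact (LinearEquiv.finrank_eq (AddEquiv.toIntLinearEquiv (MulEquiv.toAdditive (u5_equiv L)))).symm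

/-- The linear map. -/
noncomputable def u5_f (ε : InfinitePlace L → Lˣ) (h : ∀ x, phi ε x ∈ UL L) : (InfinitePlace L → ℤ) →ₗ[ℤ] Additive (UL L) :=
  AddMonoidHom.toIntLinearMap
    { toFun := fun x => Additive.ofMul ⟨phi ε (Multiplicative.ofAdd x), h _⟩
      map_zero' := by
        rw [← ofMul_one]
        congr 1
        exact Subtype.ext (map_one (phi ε))
      map_add' := fun x y => by
        rw [← ofMul_mul]
        congr 1
        exact Subtype.ext (map_mul (phi ε) (Multiplicative.ofAdd x) (Multiplicative.ofAdd y)) }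

theorem u5_f_apply (ε : InfinitePlace L → Lˣ) (h : ∀ x, phi ε x ∈ UL L) (x : InfinitePlace L → ℤ) :
    u5_f ε h x = Additive.ofMul ⟨phi ε (Multiplicative.ofAdd x), h _⟩ := rfl

theorem u5_ker (ε : InfinitePlace L → Lˣ) (h : ∀ x, phi ε x ∈ UL L) (c : Multiplicative (InfinitePlace L → ℤ))
    (hc : (phi ε).ker = Subgroup.zpowers c) : Module.finrank ℤ (LinearMap.ker (u5_f ε h)) ≤ 1 := by
  have h1 : LinearMap.ker (u5_f ε h) ≤ Submodule.span ℤ {Multiplicative.toAdd c} := by
    intro x hx
    rw [LinearMap.mem_ker, u5_f_apply] at hx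
    have h2 : phi ε (Multiplicative.ofAdd x) = 1 := congrArg (fun z : Additive (UL L) => ((Additive.toMul z : UL L) : Lˣ)) hx
    have h3 : Multiplicative.ofAdd x ∈ (phi ε).ker := h2
    rw [hc] at h3
    obtain ⟨k, hk⟩ := Subgroup.mem_zpowers_iff.1 h3
    rw [Submodule.mem_span_singleton]
    exact ⟨k, hk⟩
  have h2 : Submodule.span ℤ {Multiplicative.toAdd c} ≤ LinearMap.ker (u5_f ε h) := by
    rw [Submodule.span_singleton_le_iff_mem, LinearMap.mem_ker, u5_f_apply]
    have h3 : c ∈ (phi ε).ker := by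
      rw [hc]
      exact Subgroup.mem_zpowers c
    rw [← ofMul_one]
    congr 1
    exact Subtype.ext h3
  rw [le_antisymm h1 h2]
  refine (finrank_span_le_card (R := ℤ) {Multiplicative.toAdd c}).trans ?_
  rw [Set.toFinset_singleton, Finset.card_singleton]

/-- PROOF. The rank of `W → ℤ` is `card W`, the kernel has rank `1` (`phi_ker`, U4; only `phi_ker_ne` and the sign property, U3, are used if more convenient: here
`h2` is among the hypotheses), so the range has rank `card W - 1 = Units.rank L =` the rank of the units (`NumberField.Units.finrank_eq`), and a subgroup of the same finite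
rank of a finitely generated commutative group has finite index (the quotient has rank `0`, so it is torsion and finitely generated: finite).
Mathlib: `LinearMap.finrank_range_add_finrank_ker`, `Submodule.finrank_quotient_add_finrank`, `Module.finrank_eq_zero_iff_isTorsion`, `CommGroup.finite_of_fg_torsion`
or G1 with a common exponent. -/
theorem phi_range (ε : InfinitePlace L → Lˣ) (h1 : ∀ w, ε w ∈ UL L) (h2 : ∀ (σ : L ≃ₐ[K] L) w, sU σ (ε w) = ε (σ • w))
    (h3 : ∀ w w' : InfinitePlace L, w' ≠ w → w' (ε w : L) < 1) :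
    (phi ε).range ≤ UL L ∧ (phi ε).range.relIndex (UL L) ≠ 0 := by
  have hmem : ∀ x, phi ε x ∈ UL L := fun x => by
    rw [phi_apply]
    exact Subgroup.prod_mem _ fun w _ => Subgroup.zpow_mem _ (h1 w) _
  refine ⟨?_, ?_⟩
  · rintro _ ⟨x, rfl⟩
    exact hmem x
  obtain ⟨c, hc, -, -⟩ := phi_ker (K := K) ε h1 h2 h3
  have hk := u5_ker ε hmem c hc
  have : Group.FG (UL L) := (Group.fg_iff_subgroup_fg _).2 (UL_fg L)
  have hfin : Module.Finite ℤ (Additive (UL L)) := by
    exact Module.Finite.equiv (AddEquiv.toIntLinearEquiv (MulEquiv.toAdditive (u5_equiv L)))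
  have e1 := Submodule.finrank_quotient_add_finrank (LinearMap.ker (u5_f ε hmem))
  rw [(u5_f ε hmem).quotKerEquivRange.finrank_eq, Module.finrank_fintype_fun_eq_card] at e1
  have e2 := Submodule.finrank_quotient_add_finrank (LinearMap.range (u5_f ε hmem))
  rw [u5_finrank, NumberField.Units.rank] at e2
  have e3 : 0 < Fintype.card (InfinitePlace L) := Fintype.card_pos
  have e4 : Module.finrank ℤ (Additive (UL L) ⧸ LinearMap.range (u5_f ε hmem)) = 0 := by omega
  rw [Module.finrank_eq_zero_iff_isTorsion] at e4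
  have htor : IsMulTorsion (UL L ⧸ (phi ε).range.subgroupOf (UL L)) := by
    intro g
    obtain ⟨u, rfl⟩ := QuotientGroup.mk_surjective g
    obtain ⟨a, ha⟩ := @e4 (Submodule.Quotient.mk (Additive.ofMul u))
    have ha0 : (a : ℤ) ≠ 0 := nonZeroDivisors.ne_zero a.2
    have h4 : (Submodule.Quotient.mk ((a : ℤ) • Additive.ofMul u) :
        Additive (UL L) ⧸ LinearMap.range (u5_f ε hmem)) = 0 := ha
    rw [Submodule.Quotient.mk_eq_zero] at h4
    obtain ⟨x, hx⟩ := h4
    rw [u5_f_apply] at hx
    have h5 : phi ε (Multiplicative.ofAdd x) = (u : Lˣ) ^ (a : ℤ) :=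
      congrArg (fun z : Additive (UL L) => ((Additive.toMul z : UL L) : Lˣ)) hx
    refine (isOfFinOrder_iff_zpow_eq_one (G := UL L ⧸ (phi ε).range.subgroupOf (UL L))).2 ⟨(a : ℤ), ha0, ?_⟩
    have h6 : ((u ^ (a : ℤ) : UL L) : UL L ⧸ (phi ε).range.subgroupOf (UL L)) = 1 := by
      rw [QuotientGroup.eq_one_iff, Subgroup.mem_subgroupOf]
      exact ⟨_, h5⟩
    exact h6
  have : Finite (UL L ⧸ (phi ε).range.subgroupOf (UL L)) := CommGroup.finite_of_fg_isMulTorsion _ htor
  exact Subgroup.index_ne_zero_of_finite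

end Pool.Agent.H69H
end

-- from Lib.H69H.G2
section

set_option autoImplicit false
set_option linter.unusedSectionVars false

namespace Pool.Agent.H69H

open NumberField IsDedekindDomain CFT

variable {X : Type*} [CommGroup X]

/-- Transport of `tate` along a homomorphism. PROOF: use `relIndex_eq_map_mul_ker φ` (file A1) for
`B.map g ⊔ A ≤ B ⊓ A.comap f` (this inclusion needs `A ≤ B`, stability of `B` and `f (g x) = 1`; the hypothesis `hp`). The second factor is
`1` (Subgroup.relIndex_eq_one), because `B ⊓ φ.ker ≤ A ⊓ φ.ker`. The first factor: `(B.map g ⊔ A).map φ = (B.map φ).map g' ⊔ A.map φ`,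
and `(B ⊓ A.comap f).map φ = B.map φ ⊓ (A.map φ).comap f'`: if `b ∈ B` and `f' (φ b) = φ a`, `a ∈ A`, then `φ (f b) = φ a`, so `f b / a` is in
`B ⊓ φ.ker ≤ A`, and `f b ∈ A`. -/
theorem tate_map {Y : Type*} [CommGroup Y] (φ : X →* Y) {f g : X →* X} {f' g' : Y →* Y}
    (hf : ∀ x, φ (f x) = f' (φ x)) (hg : ∀ x, φ (g x) = g' (φ x)) (hp : IsPair f g) {A B : Subgroup X} (hAB : A ≤ B)
    (hA : IsStable f g A) (hB : IsStable f g B) (hk : B ⊓ φ.ker ≤ A) :
    tate f g A B = tate f' g' (A.map φ) (B.map φ) := by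
  unfold tate
  have hle : B.map g ⊔ A ≤ B ⊓ A.comap f := by
    refine sup_le (le_inf ?_ ?_) (le_inf hAB fun x hx => hA.left x hx)
    · rintro _ ⟨x, hx, rfl⟩
      exact hB.right x hx
    · rintro _ ⟨x, hx, rfl⟩
      show f (g x) ∈ A
      rw [hp.fg]
      exact A.one_mem
  rw [relIndex_eq_map_mul_ker φ hle]
  have h2 : ((B.map g ⊔ A) ⊓ φ.ker).relIndex (B ⊓ A.comap f ⊓ φ.ker) = 1 := by
    rw [Subgroup.relIndex_eq_one]
    rintro x ⟨⟨h1, _⟩, h3⟩
    exact ⟨Subgroup.mem_sup_right (hk ⟨h1, h3⟩), h3⟩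
  rw [h2, mul_one]
  congr 1
  · rw [Subgroup.map_sup, Subgroup.map_map, Subgroup.map_map]
    congr 2
    ext x
    exact hg x
  · ext y
    constructor
    · rintro ⟨x, ⟨h1, h3⟩, rfl⟩
      refine ⟨⟨x, h1, rfl⟩, ?_⟩
      show f' (φ x) ∈ A.map φ
      rw [← hf]
      exact ⟨f x, h3, rfl⟩
    · rintro ⟨⟨x, h1, rfl⟩, h3⟩
      refine ⟨x, ⟨h1, ?_⟩, rfl⟩
      have h3 : f' (φ x) ∈ A.map φ := h3
      rw [← hf] at h3
      obtain ⟨a, ha, h4⟩ := h3
      have h6 : f x * a⁻¹ ∈ φ.ker := by
        rw [MonoidHom.mem_ker, map_mul, map_inv, h4, mul_inv_cancel]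
      have h5 : f x * a⁻¹ ∈ A := hk ⟨B.mul_mem (hB.left x h1) (B.inv_mem (hAB ha)), h6⟩
      have := A.mul_mem h5 ha
      simpa using this

end Pool.Agent.H69H
end

-- from Lib.H69H.U6
section

set_option autoImplicit false
set_option linter.unusedSectionVars false

namespace Pool.Agent.H69H

open NumberField IsDedekindDomain CFT

variable {K : Type} [Field K] [NumberField K] {L : Type} [Field L] [NumberField L] [Algebra K L]

/-- PROOF. `i ↦ σ^i` is a bijection from `range n`, `n = finrank K L = card G`, to `G = Gal(L/K)` (σ is a generator: `hσ`; `orderOf σ = Nat.card G`), and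
`(fun w => σ • w)^[i] w = σ^i • w`, so the number is `#{g ∈ G | g • w = w'}`, which is the order of the stabilizer of `w` (`w'` is in the orbit of `w`: Mathlib
`InfinitePlace.exists_smul_eq_of_comap_eq` or `mem_orbit_iff`; the set is a coset). The order of the stabilizer is `2` if `w` is ramified and `1` otherwise (Mathlib `InfinitePlace.card_stabilizer`,
`InfinitePlace.isUnramifiedIn_comap`). -/
theorem infPlace_count [IsGalois K L] (σ : L ≃ₐ[K] L) (hσ : ∀ x, x ∈ Subgroup.zpowers σ) (w w' : InfinitePlace L)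
    (h : w.comap (algebraMap K L) = w'.comap (algebraMap K L)) [DecidableEq (InfinitePlace L)] [DecidableEq (InfinitePlace K)] :
    ((Finset.range (Module.finrank K L)).filter fun i => (fun w => σ • w)^[i] w = w').card =
      if w.comap (algebraMap K L) ∈ RamInf K L then 2 else 1 := by
  classical
  obtain ⟨g₀, hg₀⟩ := InfinitePlace.exists_smul_eq_of_comap_eq h
  have hn : orderOf σ = Module.finrank K L := by
    rw [orderOf_eq_card_of_forall_mem_zpowers hσ, IsGalois.card_aut_eq_finrank]
  have hit : ∀ i : ℕ, (fun w => σ • w)^[i] w = σ ^ i • w := by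
    intro i
    induction i with
    | zero => rw [Function.iterate_zero, id_eq, pow_zero, one_smul]
    | succ i ih => rw [Function.iterate_succ_apply', ih, pow_succ', mul_smul]
  have h1 : ((Finset.range (Module.finrank K L)).filter fun i => (fun w => σ • w)^[i] w = w').card =
      (Finset.univ.filter fun g : L ≃ₐ[K] L => g • w = w).card := by
    refine Finset.card_bij (fun i _ => g₀⁻¹ * σ ^ i) ?_ ?_ ?_
    · intro i hi
      have h2 := (Finset.mem_filter.1 hi).2
      rw [hit] at h2
      refine Finset.mem_filter.2 ⟨Finset.mem_univ _, ?_⟩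
      rw [mul_smul, h2, ← hg₀, inv_smul_smul]
    · intro i hi j hj hij
      have h2 : σ ^ i = σ ^ j := mul_left_cancel hij
      have hi' := Finset.mem_range.1 (Finset.mem_filter.1 hi).1
      have hj' := Finset.mem_range.1 (Finset.mem_filter.1 hj).1
      rw [← hn] at hi' hj'
      exact pow_injOn_Iio_orderOf hi' hj' h2
    · intro g hg
      have h2 := (Finset.mem_filter.1 hg).2
      have h3 : g₀ * g ∈ Subgroup.zpowers σ := hσ _
      rw [(isOfFinOrder_of_finite σ).mem_zpowers_iff_mem_range_orderOf] at h3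
      obtain ⟨i, hi, h4⟩ := Finset.mem_image.1 h3
      have h4' : σ ^ i = g₀ * g := h4
      refine ⟨i, Finset.mem_filter.2 ⟨?_, ?_⟩, ?_⟩
      · rw [← hn]
        exact hi
      · rw [hit, h4', mul_smul, h2, hg₀]
      · rw [h4', inv_mul_cancel_left]
  have h5 : (Finset.univ.filter fun g : L ≃ₐ[K] L => g • w = w).card = Nat.card (MulAction.stabilizer (L ≃ₐ[K] L) w) := by
    rw [Nat.card_eq_fintype_card, Fintype.card_subtype]
    rfl
  rw [h1, h5]
  unfold RamInf
  have h6 : w.comap (algebraMap K L) ∈ Finset.univ.filter (fun v : InfinitePlace K => ¬ v.IsUnramifiedIn L) ↔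
      ¬ InfinitePlace.IsUnramified K w := by
    rw [Finset.mem_filter, InfinitePlace.isUnramifiedIn_comap]
    exact ⟨fun h => h.2, fun h => ⟨Finset.mem_univ _, h⟩⟩
  by_cases h7 : InfinitePlace.IsUnramified K w
  · rw [if_neg (fun h8 => h6.1 h8 h7)]
    exact InfinitePlace.isUnramified_iff_card_stabilizer_eq_one.1 h7
  · rw [if_pos (h6.2 h7)]
    exact InfinitePlace.not_isUnramified_iff_card_stabilizer_eq_two.1 h7

end Pool.Agent.H69H
end

-- from Lib.H69H.U1
section

set_option autoImplicit false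
set_option linter.unusedSectionVars false

namespace Pool.Agent.H69H

open NumberField IsDedekindDomain CFT

theorem u1_mem {L : Type} [Field L] [NumberField L] {x : Lˣ} (h1 : IsIntegral ℤ (x : L)) (h2 : IsIntegral ℤ ((x⁻¹ : Lˣ) : L)) :
    x ∈ UL L := by
  have h3 : ∀ v : Pr L, od v (x : L) = 0 := by
    intro v
    have a1 : v.valuation L (x : L) ≤ 1 := v.valuation_le_one (⟨(x : L), h1⟩ : 𝓞 L)
    have a2 : v.valuation L ((x⁻¹ : Lˣ) : L) ≤ 1 := v.valuation_le_one (⟨((x⁻¹ : Lˣ) : L), h2⟩ : 𝓞 L)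
    have a3 : v.valuation L (x : L) * v.valuation L ((x⁻¹ : Lˣ) : L) = 1 := by
      rw [← map_mul, Units.mul_inv, map_one]
    have a4 : v.valuation L (x : L) = 1 := by
      refine le_antisymm a1 ?_
      rw [← a3]
      exact mul_le_of_le_one_right' a2
    unfold od
    rw [a4, WithZero.log_one, neg_zero]
  show dvU L x = 1
  rw [dvU_apply]
  have h4 : dv (x : L) = 0 := by
    ext v
    exact h3 v
  rw [h4, ofAdd_zero]

/-- PROOF. Choose a representative `o w` of each orbit of the Galois group on the infinite places (`Quotient.out` for `MulAction.orbitRel`) and a unit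
`u w0` of the ring of integers with `w' u < 1` for all `w' ≠ w0` (Mathlib `NumberField.Units.dirichletUnitTheorem.exists_unit`: `log (w' u) < 0`). Let
`ε w = ∏_{g : g • o w = w} g (u (o w))` (finite product over the filtered Finset of `L ≃ₐ[K] L`). It is a unit of the ring of integers
(`UL L = (dvU L).ker`: all `od` are `0`; a unit of `𝓞 L` has valuation one at all primes). EQUIVARIANCE: `σ (ε w) = ∏_{g : g • o w = w} (σ g) (u (o w)) = ε (σ • w)`,
as `o (σ • w) = o w` (bijection `g ↦ σ * g`). For `w' ≠ w`: `w' (g u) = (g⁻¹ • w') u < 1`, because `g⁻¹ • w' = o w` would give `w' = g • o w = w`; the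
product is not empty (`w` is in the orbit of `o w`), so `w' (ε w) < 1`. -/
theorem exists_eps (K L : Type) [Field K] [NumberField K] [Field L] [NumberField L] [Algebra K L] [IsGalois K L] :
    ∃ ε : InfinitePlace L → Lˣ, (∀ w, ε w ∈ UL L) ∧ (∀ (σ : L ≃ₐ[K] L) w, sU σ (ε w) = ε (σ • w)) ∧
      ∀ w w' : InfinitePlace L, w' ≠ w → w' (ε w : L) < 1 := by
  classical
  choose u hu using fun w : InfinitePlace L => NumberField.Units.dirichletUnitTheorem.exists_unit L w
  let r := MulAction.orbitRel (L ≃ₐ[K] L) (InfinitePlace L)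
  let o : InfinitePlace L → InfinitePlace L := fun w => (Quotient.mk r w).out
  have ho : ∀ (σ : L ≃ₐ[K] L) (w : InfinitePlace L), o (σ • w) = o w := by
    intro σ w
    have : (Quotient.mk r (σ • w)) = Quotient.mk r w := Quotient.sound ⟨σ, rfl⟩
    show (Quotient.mk r (σ • w)).out = (Quotient.mk r w).out
    rw [this]
  have hw : ∀ w : InfinitePlace L, ∃ g : L ≃ₐ[K] L, g • o w = w := by
    intro w
    have h1 : r w (o w) := Quotient.exact (Quotient.out_eq (Quotient.mk r w)).symm
    obtain ⟨g, hg⟩ := h1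
    exact ⟨g, hg⟩
  let U : InfinitePlace L → Lˣ := fun w => Units.map (algebraMap (𝓞 L) L : 𝓞 L →* L) (u w)
  have hU1 : ∀ w, IsIntegral ℤ ((U w : Lˣ) : L) := fun w => (u w : 𝓞 L).isIntegral_coe
  have hU2 : ∀ w, IsIntegral ℤ (((U w)⁻¹ : Lˣ) : L) := fun w => by
    have : ((U w)⁻¹ : Lˣ) = Units.map (algebraMap (𝓞 L) L : 𝓞 L →* L) (u w)⁻¹ := by
      rw [map_inv]
    rw [this]
    exact ((u w)⁻¹ : (𝓞 L)ˣ).1.isIntegral_coe
  let F : InfinitePlace L → Finset (L ≃ₐ[K] L) := fun w => Finset.univ.filter fun g => g • o w = w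
  let ε : InfinitePlace L → Lˣ := fun w => ∏ g ∈ F w, sU g (U (o w))
  refine ⟨ε, ?_, ?_, ?_⟩
  · intro w
    refine Subgroup.prod_mem _ fun g _ => u1_mem ?_ ?_
    · rw [sU_coe]
      exact (hU1 _).map ((g : L →+* L).toIntAlgHom)
    · rw [← map_inv, sU_coe]
      exact (hU2 _).map ((g : L →+* L).toIntAlgHom)
  · intro σ w
    show sU σ (∏ g ∈ F w, sU g (U (o w))) = ∏ g ∈ F (σ • w), sU g (U (o (σ • w)))
    rw [map_prod, ho]
    refine Finset.prod_nbij' (fun g => σ * g) (fun g => σ⁻¹ * g) ?_ ?_ ?_ ?_ ?_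
    · intro g hg
      rw [Finset.mem_filter] at hg ⊢
      refine ⟨Finset.mem_univ _, ?_⟩
      rw [ho, mul_smul, hg.2]
    · intro g hg
      rw [Finset.mem_filter] at hg ⊢
      refine ⟨Finset.mem_univ _, ?_⟩
      rw [ho] at hg
      rw [mul_smul, hg.2, inv_smul_smul]
    · intro g _
      exact inv_mul_cancel_left σ g
    · intro g _
      exact mul_inv_cancel_left σ g
    · intro g _
      ext
      rfl
  · intro w w' hne
    obtain ⟨g0, hg0⟩ := hw w
    have hlt : ∀ g ∈ F w, w' ((sU g (U (o w)) : Lˣ) : L) < 1 := by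
      intro g hg
      have hg' : g • o w = w := (Finset.mem_filter.1 hg).2
      have h1 : g⁻¹ • w' ≠ o w := by
        intro h2
        apply hne
        rw [← hg', ← h2, smul_inv_smul]
      have h3 := hu (o w) (g⁻¹ • w') h1
      have h4 : (g⁻¹ • w') ((U (o w) : Lˣ) : L) = w' ((sU g (U (o w)) : Lˣ) : L) := by
        rw [InfinitePlace.smul_apply]
        rfl
      have h5 : 0 < (g⁻¹ • w') ((U (o w) : Lˣ) : L) := InfinitePlace.pos_iff.2 (U (o w)).ne_zero
      rw [← h4]
      exact (Real.log_neg_iff h5).1 h3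
    have h0 : ∀ g : L ≃ₐ[K] L, 0 ≤ w' ((sU g (U (o w)) : Lˣ) : L) := fun g => apply_nonneg _ _
    have hmem : g0 ∈ F w := Finset.mem_filter.2 ⟨Finset.mem_univ _, hg0⟩
    have e : w' ((ε w : Lˣ) : L) = ∏ g ∈ F w, w' ((sU g (U (o w)) : Lˣ) : L) := by
      show w' ((∏ g ∈ F w, sU g (U (o w)) : Lˣ) : L) = _
      rw [Units.coe_prod, map_prod]
    rw [e, ← Finset.mul_prod_erase _ _ hmem]
    have h6 : ∏ g ∈ (F w).erase g0, w' ((sU g (U (o w)) : Lˣ) : L) ≤ 1 :=
      Finset.prod_le_one (fun g _ => h0 g) fun g hg => (hlt g (Finset.mem_of_mem_erase hg)).le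
    calc _ ≤ w' ((sU g0 (U (o w)) : Lˣ) : L) * 1 := mul_le_mul_of_nonneg_left h6 (h0 g0)
      _ < 1 := by rw [mul_one]; exact hlt g0 hmem

end Pool.Agent.H69H
end

-- from Lib.H69H.P3
section

set_option autoImplicit false
set_option linter.unusedSectionVars false

namespace Pool.Agent.H69H

open NumberField IsDedekindDomain CFT

variable {K : Type} [Field K] [NumberField K] {L : Type} [Field L] [NumberField L] [Algebra K L]

/-- PROOF. `B := ET V T ⊓ (dif (sU σ)).ker` is the group of the `kU κ` in `ET V T` (`dif_eq_one`, C1). For each `v ∈ RamInf K L` there is exactly one `φ_v : K →+* ℝ` with `mk φ_v = v` (ramified places are real, Mathlib `InfinitePlace.IsRamified.isReal`, `InfinitePlace.IsReal`,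
`InfinitePlace.embedding_of_isReal`). The homomorphism `sgn : B → (RamInf K L → ℤˣ)` (signs of `φ_v κ`), or equivalently work with the subgroups, has kernel `PP V T` and is surjective: the elements `κ_v` of `hT.c` are sent to the vectors with one entry `-1`, which generate. So the index of `PP V T` in `B` is
`2 ^ (RamInf K L).card`. -/
theorem PP_relIndex [IsGalois K L] {σ : L ≃ₐ[K] L} (hσ : ∀ x, x ∈ Subgroup.zpowers σ) {S T : Finset (Pr K)} {V : Subgroup Lˣ} {N : ℕ}
    (hT : IsT σ S V N T) : (PP V T).relIndex (ET V T ⊓ (dif (sU σ)).ker) = 2 ^ (RamInf K L).card := by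
  classical
  have hreal : ∀ v : {v // v ∈ RamInf K L}, ∃ φ : K →+* ℝ, InfinitePlace.mk ((algebraMap ℝ ℂ).comp φ) = v.1 := by
    rintro ⟨v, hv⟩
    have h1 : ¬ v.IsUnramifiedIn L := by
      have h2 := hv
      unfold RamInf at h2
      rw [Finset.mem_filter] at h2
      exact h2.2
    unfold InfinitePlace.IsUnramifiedIn at h1
    push Not at h1
    obtain ⟨w, hw, hram⟩ := h1
    have hram : w.IsRamified K := hram
    have hr : v.IsReal := by
      rw [← hw]
      exact hram.isReal
    refine ⟨v.embedding_of_isReal hr, ?_⟩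
    have h3 : (algebraMap ℝ ℂ).comp (v.embedding_of_isReal hr) = v.embedding := by
      ext x
      exact InfinitePlace.embedding_of_isReal_apply hr x
    rw [h3, InfinitePlace.mk_embedding]
  choose Φ hΦ using hreal
  have huniq : ∀ φ ψ : K →+* ℝ, InfinitePlace.mk ((algebraMap ℝ ℂ).comp φ) = InfinitePlace.mk ((algebraMap ℝ ℂ).comp ψ) → φ = ψ := by
    intro φ ψ h
    rw [InfinitePlace.mk_eq_iff] at h
    ext x
    rcases h with h | h
    · exact Complex.ofReal_injective (DFunLike.congr_fun h x)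
    · have h1 : (starRingEnd ℂ) ((φ x : ℝ) : ℂ) = ((ψ x : ℝ) : ℂ) := DFunLike.congr_fun h x
      rw [Complex.conj_ofReal] at h1
      exact Complex.ofReal_injective h1
  let s : Kˣ →* ({v // v ∈ RamInf K L} → SignTypeˣ) := Pi.monoidHom fun v =>
    (Units.map (signHom : ℝ →*₀ SignType).toMonoidHom).comp (Units.map (Φ v : K →* ℝ))
  have hs : ∀ (κ : Kˣ) (v : {v // v ∈ RamInf K L}), ((s κ v : SignTypeˣ) : SignType) = SignType.sign (Φ v (κ : K)) := fun κ v => rfl
  have hs1 : ∀ (κ : Kˣ) (v : {v // v ∈ RamInf K L}), s κ v = 1 ↔ 0 < Φ v (κ : K) := by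
    intro κ v
    rw [← Units.val_inj, hs, Units.val_one, sign_eq_one_iff]
  have hsn : ∀ (κ : Kˣ) (v : {v // v ∈ RamInf K L}), s κ v = -1 ↔ Φ v (κ : K) < 0 := by
    intro κ v
    rw [← Units.val_inj, hs, Units.val_neg, Units.val_one, sign_eq_neg_one_iff]
  have hpos : ∀ κ : Kˣ, PosR L (κ : K) ↔ κ ∈ s.ker := by
    intro κ
    rw [MonoidHom.mem_ker]
    constructor
    · intro h
      funext v
      rw [Pi.one_apply, hs1]
      exact h (Φ v) (by rw [hΦ]; exact v.2)
    · intro h φ hφ
      have h1 : φ = Φ ⟨_, hφ⟩ := huniq _ _ (hΦ ⟨_, hφ⟩).symm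
      rw [h1, ← hs1, h]
      rfl
  have hinj : Function.Injective (kU K L) := by
    intro a b h
    apply Units.ext
    have h1 := congrArg Units.val h
    rw [kU_coe, kU_coe] at h1
    exact (algebraMap K L).injective h1
  have e1 : ET V T ⊓ (dif (sU σ)).ker = ((ET V T).comap (kU K L)).map (kU K L) := by
    ext x
    constructor
    · rintro ⟨h1, h2⟩
      obtain ⟨κ, rfl⟩ := (dif_eq_one σ hσ x).1 h2
      exact ⟨κ, h1, rfl⟩
    · rintro ⟨κ, h1, rfl⟩
      exact ⟨h1, (dif_eq_one σ hσ _).2 ⟨κ, rfl⟩⟩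
  have e2 : PP V T = ((ET V T).comap (kU K L) ⊓ s.ker).map (kU K L) := by
    ext x
    constructor
    · rintro ⟨h1, κ, rfl, h2⟩
      exact ⟨κ, ⟨h1, (hpos κ).1 h2⟩, rfl⟩
    · rintro ⟨κ, ⟨h1, h2⟩, rfl⟩
      exact ⟨h1, κ, rfl, (hpos κ).2 h2⟩
  rw [e1, e2, Subgroup.relIndex_map_map_of_injective _ _ hinj, Subgroup.inf_relIndex_left, Subgroup.relIndex_ker]
  have e3 : ((ET V T).comap (kU K L)).map s = ⊤ := by
    rw [eq_top_iff]
    intro x _
    rw [← Finset.univ_prod_mulSingle x]
    refine Subgroup.prod_mem _ fun v _ => ?_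
    have h1 : x v = 1 ∨ x v = -1 := by
      generalize x v = z
      revert z
      decide
    rcases h1 with h1 | h1
    · rw [h1, Pi.mulSingle_one]
      exact Subgroup.one_mem _
    · obtain ⟨κ, h2, h3⟩ := hT.c v.1 v.2
      refine ⟨κ, h2, ?_⟩
      funext u
      by_cases huv : u = v
      · subst huv
        rw [h1, Pi.mulSingle_eq_same, hsn]
        exact (h3 (Φ u)).1 (hΦ u)
      · rw [Pi.mulSingle_eq_of_ne huv, hs1]
        refine (h3 (Φ u)).2 (by rw [hΦ]; exact u.2) ?_
        rw [hΦ]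
        exact fun h => huv (Subtype.ext h)
  rw [e3]
  have e4 : Nat.card (⊤ : Subgroup ({v // v ∈ RamInf K L} → SignTypeˣ)) = Nat.card ({v // v ∈ RamInf K L} → SignTypeˣ) :=
    Nat.card_congr Subgroup.topEquiv.toEquiv
  rw [e4, Nat.card_eq_fintype_card, Fintype.card_fun, Fintype.card_coe]
  rfl

end Pool.Agent.H69H
end

-- from Lib.H69H.T1
section

set_option autoImplicit false
set_option linter.unusedSectionVars false

namespace Pool.Agent.H69H

open NumberField IsDedekindDomain CFT

/-- PROOF. If `od w y = 0` then there is `a : 𝓞 L` with `w.valuation (y - a) < exp (-N)` (Mathlib `HeightOneSpectrum.exists_valuation_sub_lt_of_integer`), `a ∉ w`. The ring `𝓞 L ⧸ w^(N+1)` is finite (`Ideal.finiteQuotientOfFreeOfNeBot` or `Ideal.fintypeQuotientOfFreeOfNeBot`), `a` is a unit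
in it, so `a^m - 1 ∈ w^(N+1)`, `m` the order of the unit group, i.e. `w.valuation (a^m - 1) ≤ exp (-(N+1)) < exp (-N)` (`intValuation_le_pow_iff_mem`), and `y^m - a^m` is divisible by `y - a` (`sub_dvd_pow_sub_pow`), the cofactor is integral at `w`. -/
theorem pow_near {L : Type} [Field L] [NumberField L] (w : Pr L) (N : ℕ) : ∃ m : ℕ, m ≠ 0 ∧ ∀ y : Lˣ, od w (y : L) = 0 →
    w.valuation L ((y : L) ^ m - 1) < WithZero.exp (-(N : ℤ)) := by
  have hfin : Finite (𝓞 L ⧸ w.asIdeal ^ (N + 1)) :=
    Ideal.finiteQuotientOfFreeOfNeBot _ (pow_ne_zero _ w.ne_bot)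
  refine ⟨Nat.card (𝓞 L ⧸ w.asIdeal ^ (N + 1))ˣ, Nat.card_pos.ne', fun y hy => ?_⟩
  generalize hm : Nat.card (𝓞 L ⧸ w.asIdeal ^ (N + 1))ˣ = m
  have hy1 : w.valuation L (y : L) = 1 := by
    rw [val_eq w y.ne_zero, hy, neg_zero, WithZero.exp_zero]
  obtain ⟨a, ha⟩ := w.exists_valuation_sub_lt_of_integer (K := L) hy1.le (Units.mk0 (WithZero.exp (-(N : ℤ))) WithZero.coe_ne_zero)
  have ha : w.valuation L (algebraMap (𝓞 L) L a - y) < WithZero.exp (-(N : ℤ)) := ha
  have ha1 : w.valuation L (algebraMap (𝓞 L) L a) = 1 := by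
    have h1 : algebraMap (𝓞 L) L a = (y : L) + (algebraMap (𝓞 L) L a - y) := by ring
    rw [h1, Valuation.map_add_eq_of_lt_left _ (by rw [hy1]; exact ha.trans_le (exp_le_one N)), hy1]
  have ha2 : a ∉ w.asIdeal := by
    intro h
    have h1 := (w.valuation_lt_one_iff_mem (K := L) a).2 h
    rw [ha1] at h1
    exact lt_irrefl _ h1
  have ha3 : IsUnit (Ideal.Quotient.mk (w.asIdeal ^ (N + 1)) a) := by
    have hmax := w.isMaximal
    have h1 : IsCoprime (Ideal.span {a}) (w.asIdeal ^ (N + 1)) := by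
      refine IsCoprime.pow_right ?_
      rw [Ideal.isCoprime_iff_exists]
      obtain ⟨b, i, hi, hb⟩ := hmax.exists_inv ha2
      exact ⟨b * a, Ideal.mem_span_singleton'.2 ⟨b, rfl⟩, i, hi, hb⟩
    rw [Ideal.isCoprime_iff_exists] at h1
    obtain ⟨x, hx, z, hz, h2⟩ := h1
    obtain ⟨b, rfl⟩ := Ideal.mem_span_singleton'.1 hx
    refine IsUnit.of_mul_eq_one (Ideal.Quotient.mk _ b) ?_
    rw [← map_mul, mul_comm a b, ← map_one (Ideal.Quotient.mk (w.asIdeal ^ (N + 1))), ← h2, Ideal.Quotient.mk_eq_mk_iff_sub_mem]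
    have h3 : b * a - (b * a + z) = -z := by ring
    rw [h3]
    exact neg_mem hz
  obtain ⟨u, hu⟩ := ha3
  have hum : u ^ m = 1 := by
    rw [← hm]
    exact pow_card_eq_one'
  have ham : a ^ m - 1 ∈ w.asIdeal ^ (N + 1) := by
    rw [← Ideal.Quotient.mk_eq_mk_iff_sub_mem, map_pow, ← hu, map_one, ← Units.val_pow_eq_pow_val, hum, Units.val_one]
  have ham' : w.valuation L (algebraMap (𝓞 L) L a ^ m - 1) < WithZero.exp (-(N : ℤ)) := by
    rw [← map_pow, ← map_one (algebraMap (𝓞 L) L), ← map_sub, HeightOneSpectrum.valuation_of_algebraMap]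
    refine ((w.intValuation_le_pow_iff_mem _ _).2 ham).trans_lt ?_
    rw [WithZero.exp_lt_exp]
    push_cast
    omega
  have hind : ∀ k : ℕ, w.valuation L ((y : L) ^ k - algebraMap (𝓞 L) L a ^ k) < WithZero.exp (-(N : ℤ)) := by
    intro k
    induction k with
    | zero =>
      rw [pow_zero, pow_zero, sub_self, map_zero]
      exact WithZero.zero_lt_coe _
    | succ k ih =>
      have h1 : (y : L) ^ (k + 1) - algebraMap (𝓞 L) L a ^ (k + 1) =
          y * ((y : L) ^ k - algebraMap (𝓞 L) L a ^ k) - (algebraMap (𝓞 L) L a - y) * algebraMap (𝓞 L) L a ^ k := by ring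
      rw [h1]
      refine (Valuation.map_sub _ _ _).trans_lt (max_lt ?_ ?_)
      · rw [map_mul, hy1, one_mul]
        exact ih
      · rw [map_mul, map_pow, ha1, one_pow, mul_one]
        exact ha
  have h1 : (y : L) ^ m - 1 = ((y : L) ^ m - algebraMap (𝓞 L) L a ^ m) + (algebraMap (𝓞 L) L a ^ m - 1) := by ring
  rw [h1]
  exact (Valuation.map_add _ _ _).trans_lt (max_lt (hind m) ham')

variable {K : Type} [Field K] [NumberField K] {L : Type} [Field L] [NumberField L] [Algebra K L]

/-- PROOF. `hV.ray` gives `N`; take the product of the `m` of `pow_near` over the finitely many `w` above `S` (`fib_fin`); if `w.valuation (x - 1) < exp (-N) ≤ 1` then the same for the powers of `x`. -/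
theorem pow_mem_V {σ : L ≃ₐ[K] L} {S : Finset (Pr K)} {V : Subgroup Lˣ} (hV : IsV σ S V) :
    ∃ m : ℕ, m ≠ 0 ∧ ∀ y : Lˣ, (∀ w : Pr L, below K w ∈ S → od w (y : L) = 0) → y ^ m ∈ V := by
  obtain ⟨N, hN⟩ := hV.ray
  choose m hm0 hm using fun w : Pr L => pow_near w N
  have hfin : {w : Pr L | below K w ∈ S}.Finite := by
    refine (S.finite_toSet.biUnion fun v _ => fib_fin (L := L) K v).subset fun w hw => ?_
    exact Set.mem_biUnion (x := below K w) hw rfl
  refine ⟨∏ w ∈ hfin.toFinset, m w, Finset.prod_ne_zero_iff.2 fun w _ => hm0 w, fun y hy => ?_⟩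
  refine hN _ fun w hw => ?_
  have hmem : w ∈ hfin.toFinset := hfin.mem_toFinset.2 hw
  have hdvd : m w ∣ ∏ w ∈ hfin.toFinset, m w := Finset.dvd_prod_of_mem m hmem
  obtain ⟨k, hk⟩ := hdvd
  rw [hk, Units.val_pow_eq_pow_val, pow_mul]
  have h1 := hm w y (hy w hw)
  generalize (y : L) ^ m w = z at h1
  have hz : w.valuation L z = 1 := by
    have h2 : z = 1 + (z - 1) := by ring
    rw [h2]
    exact Valuation.map_one_add_of_lt _ (h1.trans_le (exp_le_one N))
  clear hk
  induction k with
  | zero =>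
    rw [pow_zero, sub_self, map_zero]
    exact WithZero.zero_lt_coe _
  | succ k ih =>
    have h2 : z ^ (k + 1) - 1 = z * (z ^ k - 1) + (z - 1) := by ring
    rw [h2]
    refine (Valuation.map_add _ _ _).trans_lt (max_lt ?_ h1)
    rw [map_mul, hz, one_mul]
    exact ih

end Pool.Agent.H69H
end
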