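import Mathlib

/-! Merged copies (to shorten the build) of Lib.CFT.X04, Lib.CFT.X05, Lib.CFT.X06, Lib.CFT.X15, Lib.CFT.Y31, Lib.CFT.X07, Lib.CFT.X08, Lib.CFT.X09, Lib.CFT.X10, Lib.SSR.RD, Lib.SSR.ND, Lib.SSR.N1, Lib.SSR.N2, Lib.SSR.N5, Lib.SSR.N3, Lib.SSR.N4, Lib.SSR.N6. -/

-- from Lib.CFT.X04
section

/-! # CFT X04 (S): orders modulo q and modulo m -/

namespace CFT

/-- PROOF. The ring homomorphism ZMod.castHom hq (ZMod q) maps the unit a of ZMod m to a; so orderOf (a : ZMod q) divides orderOf (a : (ZMod m)ˣ) (orderOf_map_dvd; orderOf_units). -/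
theorem x_order {m q a n : ℕ} (hq : q ∣ m) (ha : a.Coprime m) (h : n ∣ orderOf (a : ZMod q)) : n ∣ orderOf (ZMod.unitOfCoprime a ha) := by
  have h1 : orderOf (ZMod.unitsMap hq (ZMod.unitOfCoprime a ha)) ∣ orderOf (ZMod.unitOfCoprime a ha) :=
    orderOf_map_dvd _ _
  have h2 : ((ZMod.unitsMap hq (ZMod.unitOfCoprime a ha) : (ZMod q)ˣ) : ZMod q) = (a : ZMod q) := by
    rw [ZMod.unitsMap_val, ZMod.coe_unitOfCoprime]
    exact ZMod.cast_natCast hq a
  rw [← h2, orderOf_units] at h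
  exact h.trans h1

/-- PROOF. a^(q-1) = 1 in ZMod q (ZMod.pow_card_sub_one_eq_one), orderOf_dvd_of_pow_eq_one. -/
theorem x_pred {q a n : ℕ} (hq : q.Prime) (ha : ¬ q ∣ a) (h : n ∣ orderOf (a : ZMod q)) : n ∣ q - 1 := by
  haveI : Fact q.Prime := ⟨hq⟩
  have h1 : (a : ZMod q) ≠ 0 := fun h0 => ha ((ZMod.natCast_eq_zero_iff a q).1 h0)
  exact h.trans (orderOf_dvd_of_pow_eq_one (ZMod.pow_card_sub_one_eq_one h1))

end CFT
end

-- from Lib.CFT.X05
section

/-! # CFT X05 (M): primes q with a of order exactly l^k modulo q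

PROOF. Let A = a^(l^(k-1)) >= 2 and s = 1 + A + ... + A^(l-1) (sum over Finset.range l), so s (A - 1) = A^l - 1. CLAIM: s has a prime divisor q ≠ l. Otherwise s is a power of l
(s >= 2, Nat.eq_prime_pow_of_unique_prime_dvd), so l | s and A^l = 1 mod l, hence A = 1 mod l (Fermat: A^l = A mod l). Then l^2 does not divide s: for l odd write A = 1 + l t,
A^i = 1 + i l t mod l^2, s = l + l t l (l-1)/2 = l mod l^2; for l = 2 s = 1 + A and A = (a^(2^(k-2)))^2 is an odd square, so s = 2 mod 4 (here k >= 2 is used). So s = l; but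
s >= 1 + A > l for l = 2 (A >= 4), and for l >= 3 s >= 1 + A + A^2 + ... > l as A >= 2 (in general s >= 1 + A (l-1) > l). Contradiction.
Let q be a prime divisor of s, q ≠ l. Then A^l = 1 mod q. If A = 1 mod q, then s = l mod q, so q | l, q = l, contradiction. So a^(l^k) = 1 and a^(l^(k-1)) ≠ 1 in ZMod q:
orderOf_eq_prime_pow. -/

namespace CFT

theorem x_prime {a l k : ℕ} (ha : 2 ≤ a) (hl : l.Prime) (hk : 2 ≤ k) : ∃ q : ℕ, q.Prime ∧ orderOf (a : ZMod q) = l ^ k := by
  haveI : Fact l.Prime := ⟨hl⟩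
  obtain ⟨A, hA⟩ : ∃ A : ℕ, A = a ^ l ^ (k - 1) := ⟨_, rfl⟩
  have hA2 : 2 ≤ A := by
    rw [hA]
    calc 2 ≤ a := ha
      _ = a ^ 1 := (pow_one a).symm
      _ ≤ a ^ l ^ (k - 1) := Nat.pow_le_pow_right (by omega) (Nat.one_le_pow _ _ hl.pos)
  obtain ⟨s, hs⟩ : ∃ s : ℕ, s = ∑ i ∈ Finset.range l, A ^ i := ⟨_, rfl⟩
  have hsA : s * (A - 1) = A ^ l - 1 := by
    rw [hs]
    have h := Nat.geomSum_eq hA2 l
    rw [h]
    exact Nat.div_mul_cancel (by simpa using Nat.sub_dvd_pow_sub_pow A 1 l)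
  have hs0 : s ≠ 0 := by
    intro h0
    rw [h0, zero_mul] at hsA
    have h2 : 1 < A ^ l := Nat.one_lt_pow hl.ne_zero (by omega)
    omega
  have hsl : l < s := by
    have h1 : ∑ i ∈ Finset.range l, 1 < ∑ i ∈ Finset.range l, A ^ i := by
      apply Finset.sum_lt_sum
      · intro i _
        exact Nat.one_le_pow _ _ (by omega)
      · refine ⟨1, Finset.mem_range.2 hl.one_lt, ?_⟩
        rw [pow_one]
        omega
    rw [Finset.sum_const, Finset.card_range, smul_eq_mul, mul_one] at h1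
    rw [hs]
    exact h1
  obtain ⟨q, hq, hqs, hql⟩ : ∃ q : ℕ, q.Prime ∧ q ∣ s ∧ q ≠ l := by
    by_contra hcon
    push Not at hcon
    have e1 := Nat.eq_prime_pow_of_unique_prime_dvd hs0 (fun {d} hd hds => hcon d hd hds)
    obtain ⟨m, hm⟩ : ∃ m : ℕ, s = l ^ m := ⟨_, e1⟩
    have hm2 : 2 ≤ m := by
      by_contra h
      have h3 : m = 0 ∨ m = 1 := by omega
      rcases h3 with h3 | h3
      · rw [h3, pow_zero] at hm
        have := hl.pos
        omega
      · rw [h3, pow_one] at hm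
        omega
    have hll : l ^ 2 ∣ s := by
      rw [hm]
      exact pow_dvd_pow l hm2
    have hl1 : l ∣ s := (dvd_pow_self l (by norm_num)).trans hll
    have hAl : l ∣ A - 1 := by
      have h3 : l ∣ A ^ l - 1 := by
        rw [← hsA]
        exact hl1.mul_right _
      have h4 : ((A ^ l - 1 : ℕ) : ZMod l) = 0 := (ZMod.natCast_eq_zero_iff _ _).2 h3
      rw [Nat.cast_sub (Nat.one_le_pow _ _ (by omega)), Nat.cast_pow, ZMod.pow_card] at h4
      rw [← ZMod.natCast_eq_zero_iff, Nat.cast_sub (by omega)]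
      exact h4
    have hnA : ¬ l ∣ A := by
      intro h
      have h3 : l ∣ A - (A - 1) := Nat.dvd_sub h hAl
      have h4 : A - (A - 1) = 1 := by omega
      rw [h4] at h3
      exact hl.one_lt.ne' (Nat.dvd_one.1 h3)
    rcases hl.eq_two_or_odd' with h2 | hodd
    · subst h2
      have h3 : s = 1 + A := by
        rw [hs, Finset.sum_range_succ, Finset.sum_range_one, pow_zero, pow_one]
      obtain ⟨k', rfl⟩ := Nat.exists_eq_add_of_le hk
      have h4 : A = (a ^ 2 ^ k') ^ 2 := by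
        rw [hA, ← pow_mul]
        congr 1
        have h5 : 2 + k' - 1 = k' + 1 := by omega
        rw [h5, pow_succ]
      obtain ⟨b, hb⟩ : ∃ b : ℕ, b = a ^ 2 ^ k' := ⟨_, rfl⟩
      rw [← hb] at h4
      have h5 : b % 2 = 1 := by
        by_contra h6
        apply hnA
        have h7 : 2 ∣ b := by omega
        rw [h4]
        exact h7.trans (dvd_pow_self b (by norm_num))
      obtain ⟨c, hc⟩ : ∃ c, b = 2 * c + 1 := ⟨b / 2, by omega⟩
      rw [h3, h4, hc] at hll
      have h8 : 1 + (2 * c + 1) ^ 2 = 4 * (c ^ 2 + c) + 2 := by ring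
      rw [h8] at hll
      obtain ⟨d, hd⟩ := hll
      omega
    · have h3 := padicValNat.pow_sub_pow (p := l) (x := A) (y := 1) hodd (by omega) (by simpa using hAl) hnA hl.ne_zero
      rw [one_pow, padicValNat_self, ← hsA, padicValNat.mul hs0 (by omega)] at h3
      have h4 : padicValNat l s = 1 := by omega
      have h5 := (padicValNat_dvd_iff_le hs0).1 hll
      omega
  haveI : Fact q.Prime := ⟨hq⟩
  refine ⟨q, hq, ?_⟩
  have hz : ((s : ℕ) : ZMod q) = 0 := (ZMod.natCast_eq_zero_iff _ _).2 hqs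
  have hA1 : (A : ZMod q) ^ l = 1 := by
    have h3 : ((s * (A - 1) : ℕ) : ZMod q) = 0 := by rw [Nat.cast_mul, hz, zero_mul]
    rw [hsA, Nat.cast_sub (Nat.one_le_pow _ _ (by omega)), Nat.cast_pow, Nat.cast_one] at h3
    exact sub_eq_zero.1 h3
  have hne : (A : ZMod q) ≠ 1 := by
    intro h1
    rw [hs, Nat.cast_sum] at hz
    have h4 : ∑ i ∈ Finset.range l, ((A ^ i : ℕ) : ZMod q) = (l : ZMod q) := by
      have h5 : ∀ i ∈ Finset.range l, ((A ^ i : ℕ) : ZMod q) = 1 := by
        intro i _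
        rw [Nat.cast_pow, h1, one_pow]
      rw [Finset.sum_congr rfl h5, Finset.sum_const, Finset.card_range, nsmul_eq_mul, mul_one]
    rw [h4, ZMod.natCast_eq_zero_iff] at hz
    exact hql ((Nat.prime_dvd_prime_iff_eq hq hl).1 hz)
  obtain ⟨j, rfl⟩ : ∃ j, k = j + 1 := ⟨k - 1, by omega⟩
  rw [Nat.add_sub_cancel] at hA
  have hA' : (A : ZMod q) = (a : ZMod q) ^ l ^ j := by rw [hA, Nat.cast_pow]
  apply orderOf_eq_prime_pow
  · rw [← hA']
    exact hne
  · rw [pow_succ, pow_mul, ← hA']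
    exact hA1

end CFT
end

-- from Lib.CFT.X06
section

/-! # CFT X06 (S/M): such primes outside a finite set

PROOF. For k : ℕ let q k be the prime of x_prime (X05) for the exponent k + r + 2: orderOf (a : ZMod (q k)) = l^(k+r+2). q is injective (the orders are different), so some q k is outside the
finite set B (Set.infinite_range_of_injective). l^r divides l^(k+r+2). q ∤ a: otherwise (a : ZMod q) = 0, whose order is 0 (orderOf of 0 in a nontrivial ring: orderOf_eq_zero_iff', or 0^n ≠ 1 for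
n > 0). The last statement is x_pred (X04). -/

namespace CFT

theorem x_primes {a l : ℕ} (ha : 2 ≤ a) (hl : l.Prime) (r : ℕ) (B : Set ℕ) (hB : B.Finite) :
    ∃ q : ℕ, q.Prime ∧ q ∉ B ∧ ¬ q ∣ a ∧ l ^ r ∣ orderOf (a : ZMod q) ∧ l ^ r ∣ q - 1 := by
  choose q hq ho using fun k : ℕ => x_prime (a := a) (l := l) (k := k + r + 2) ha hl (by omega)
  have hinj : Function.Injective q := by
    intro i j hij
    have h1 := ho i
    rw [hij, ho j] at h1
    have h2 := Nat.pow_right_injective hl.two_le h1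
    omega
  obtain ⟨k, hk⟩ : ∃ k, q k ∉ B := by
    by_contra hcon
    push Not at hcon
    exact Set.infinite_range_of_injective hinj (hB.subset (by rintro _ ⟨i, rfl⟩; exact hcon i))
  have hd : l ^ r ∣ orderOf (a : ZMod (q k)) := by
    rw [ho k]
    exact pow_dvd_pow l (by omega)
  have hna : ¬ q k ∣ a := by
    intro h
    haveI : Fact (q k).Prime := ⟨hq k⟩
    have h1 : (a : ZMod (q k)) = 0 := (ZMod.natCast_eq_zero_iff _ _).2 h
    have h2 := pow_orderOf_eq_one (a : ZMod (q k))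
    rw [h1] at h2
    have h3 : orderOf (0 : ZMod (q k)) ≠ 0 := by
      rw [← h1, ho k]
      exact pow_ne_zero _ hl.ne_zero
    rw [zero_pow h3] at h2
    exact zero_ne_one h2
  exact ⟨q k, hq k, hk, hna, hd, x_pred (hq k) hna hd⟩

end CFT
end

-- from Lib.CFT.X15
section

/-! # CFT X15 (M): M is cyclotomic over the fixed field of H

PROOF. E = fixedField H. Let Z = adjoin E {zeta} (IntermediateField E M). An element t of Gal(M/E) fixing zeta is, as a K-automorphism, in H (IntermediateField.fixingSubgroup_fixedField: H = fixingSubgroup (fixedField H), M/K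
finite dimensional) and autToPow t = 1, so t = 1. So the fixing subgroup of Z is trivial and Z = ⊤ (Galois correspondence for M/E: IsGalois.fixedField_fixingSubgroup). Then M is a cyclotomic extension of E
(IsPrimitiveRoot.intermediateField_adjoin_isCyclotomicExtension, or the definition: primitive root exists, and Algebra.adjoin E {x | x^m = 1} = ⊤ from the integrality of zeta:
IntermediateField.adjoin_simple_toSubalgebra_of_integral). -/

open NumberField

namespace CFT

theorem x_fix {K : Type} [Field K] [NumberField K] {M : Type} [Field M] [NumberField M] [Algebra K M] [IsGalois K M] {m : ℕ} [NeZero m] {ζ : M}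
    (hζ : IsPrimitiveRoot ζ m) (H : Subgroup (M ≃ₐ[K] M)) (hH : ∀ z ∈ H, hζ.autToPow K z = 1 → z = 1) :
    IsCyclotomicExtension {m} (IntermediateField.fixedField H) M := by
  let E : IntermediateField K M := IntermediateField.fixedField H
  show IsCyclotomicExtension {m} E M
  have hEM : IsGalois E M := IsGalois.tower_top_of_isGalois K E M
  have hfd : FiniteDimensional E M := inferInstance
  let Z : IntermediateField E M := IntermediateField.adjoin E {ζ}
  have h1 : Z.fixingSubgroup = ⊥ := by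
    rw [Subgroup.eq_bot_iff_forall]
    intro t ht
    rw [IntermediateField.mem_fixingSubgroup_iff] at ht
    have h2 : t ζ = ζ := ht ζ (IntermediateField.mem_adjoin_simple_self E ζ)
    let t' : M ≃ₐ[K] M := t.restrictScalars K
    have h3 : t' ∈ H := by
      rw [← IntermediateField.fixingSubgroup_fixedField H, IntermediateField.mem_fixingSubgroup_iff]
      intro x hx
      exact t.commutes ⟨x, hx⟩
    have h4 : hζ.autToPow K t' = 1 := by
      have h5 : ζ ^ (hζ.autToPow K t' : ZMod m).val = ζ ^ 1 := by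
        rw [hζ.autToPow_spec K t', pow_one]
        exact h2
      rcases Nat.lt_or_ge 1 m with hm | hm
      · have h6 := hζ.pow_inj (ZMod.val_lt _) hm h5
        apply Units.ext
        rw [← ZMod.natCast_zmod_val (hζ.autToPow K t' : ZMod m), h6, Nat.cast_one]
        rfl
      · have hm1 : m = 1 := le_antisymm hm (Nat.one_le_iff_ne_zero.2 (NeZero.ne m))
        subst hm1
        apply Units.ext
        exact Subsingleton.elim _ _
    have h5 : t' = 1 := hH t' h3 h4
    ext y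
    exact DFunLike.congr_fun h5 y
  have h2 : Z = ⊤ := by
    rw [← IsGalois.fixedField_fixingSubgroup Z, h1, IntermediateField.fixedField_bot]
  have h3 : IsCyclotomicExtension {m} E Z := hζ.intermediateField_adjoin_isCyclotomicExtension E
  rw [h2] at h3
  exact IsCyclotomicExtension.equiv {m} E (⊤ : IntermediateField E M) IntermediateField.topEquiv

end CFT
end

-- from Lib.CFT.Y31
section

/-! # CFT module Y, chunk Y31: a quotient is bounded near 1 (pure) -/

namespace CFTY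

/-- PROOF. `H` is continuous on the compact set `[1, 2]` of the half plane, so bounded; `D s = z * N ^ (1 - s) - 1` is continuous and has no zero on `[1, 2]`: `‖z‖ = 1` and `N > 1`
give `|z N^(1 - s)| < 1` for `s > 1`, and `z ≠ 1` for `s = 1`. So `|D|` is bounded below. -/
theorem y31_bdd {H L : ℂ → ℂ} {U : Set ℂ} (hH : DifferentiableOn ℂ H U) (hU : ∀ s : ℝ, 1 ≤ s → (s : ℂ) ∈ U) {z : ℂ} (hz : ‖z‖ = 1)
    (hz1 : z ≠ 1) {N : ℕ} (hN : 1 < N) (h : ∀ s : ℝ, 1 < s → H s = (z * (N : ℂ) ^ (1 - (s : ℂ)) - 1) * L s) :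
    ∃ C : ℝ, ∀ s ∈ Set.Ioc (1 : ℝ) 2, ‖L s‖ ≤ C := by
  have hN0 : (N : ℂ) ≠ 0 := by
    have : N ≠ 0 := by omega
    exact_mod_cast this
  -- continuity
  have hHc : ContinuousOn (fun s : ℝ => H s) (Set.Icc 1 2) := by
    refine hH.continuousOn.comp Complex.continuous_ofReal.continuousOn ?_
    intro s hs
    exact hU s hs.1
  have hDc : Continuous (fun s : ℝ => z * (N : ℂ) ^ (1 - (s : ℂ)) - 1) := by
    refine (continuous_const.mul ?_).sub continuous_const
    refine Continuous.const_cpow ?_ (Or.inl hN0)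
    exact continuous_const.sub Complex.continuous_ofReal
  have hDne : ∀ s ∈ Set.Icc (1 : ℝ) 2, z * (N : ℂ) ^ (1 - (s : ℂ)) - 1 ≠ 0 := by
    intro s hs h0
    rw [sub_eq_zero] at h0
    rcases eq_or_lt_of_le hs.1 with h1 | h1
    · rw [← h1] at h0
      simp at h0
      exact hz1 h0
    · have h2 := congrArg norm h0
      rw [norm_mul, hz, one_mul, norm_one, Complex.norm_natCast_cpow_of_pos (by omega)] at h2
      have h3 : (1 - (s : ℂ)).re = 1 - s := by simp
      rw [h3] at h2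
      have h4 : ((N : ℕ) : ℝ) ^ (1 - s) < 1 :=
        Real.rpow_lt_one_of_one_lt_of_neg (by exact_mod_cast hN) (by linarith)
      linarith
  have hq : ContinuousOn (fun s : ℝ => H s / (z * (N : ℂ) ^ (1 - (s : ℂ)) - 1)) (Set.Icc 1 2) :=
    hHc.div hDc.continuousOn hDne
  obtain ⟨C, hC⟩ := isCompact_Icc.exists_bound_of_continuousOn hq
  refine ⟨C, ?_⟩
  intro s hs
  have hs' : s ∈ Set.Icc (1 : ℝ) 2 := ⟨hs.1.le, hs.2⟩
  have h1 := hC s hs'
  rw [h s hs.1, mul_comm, mul_div_assoc, div_self (hDne s hs'), mul_one] at h1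
  exact h1

end CFTY
end

-- from Lib.CFT.X07
section

/-! # CFT X07 (M): cyclotomic fields of different prime conductors are disjoint

PROOF. Let Z = adjoin ℚ {x | x^q = 1}, Z' the same for q'. They are cyclotomic extensions of ℚ ({q}, {q'}); e.g. Z = adjoin ℚ {ζ} for a primitive root ζ
(IsPrimitiveRoot.intermediateField_adjoin_isCyclotomicExtension; all roots are powers of ζ) and the same for Z ⊔ Z' = adjoin ℚ {ζ ζ'}-like field with {q q'}
(IntermediateField.isCyclotomicExtension_lcm_sup, used in Mathlib/NumberTheory/NumberField/Cyclotomic/Basic.lean, line 700). Degrees: IsCyclotomicExtension.finrank with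
Polynomial.cyclotomic.irreducible_rat: q - 1, q' - 1, (q-1)(q'-1) (Nat.totient_mul, Nat.totient_prime). Then IntermediateField.LinearDisjoint.of_finrank_sup and
IntermediateField.LinearDisjoint.inf_eq_bot. (Other way: NumberField discriminants, linearDisjoint_of_isGalois_isCoprime_discr, same file.) -/

namespace CFT

theorem X07_root {Ω : Type} [Field Ω] [CharZero Ω] [IsAlgClosed Ω] (n : ℕ) (hn : n ≠ 0) : ∃ r : Ω, IsPrimitiveRoot r n := by
  have : NeZero n := ⟨hn⟩
  have : NeZero (n : Ω) := ⟨Nat.cast_ne_zero.2 hn⟩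
  obtain ⟨x, hx⟩ := IsAlgClosed.exists_root (Polynomial.cyclotomic n Ω) (by
    rw [Polynomial.degree_cyclotomic]
    have := Nat.totient_pos.2 (Nat.pos_of_ne_zero hn)
    exact_mod_cast this.ne')
  exact ⟨x, (Polynomial.isRoot_cyclotomic_iff).1 hx⟩

theorem X07_cyc {K Ω : Type} [Field K] [Field Ω] [Algebra K Ω] [CharZero Ω] [IsAlgClosed Ω] (n : ℕ) (hn : n ≠ 0) :
    IsCyclotomicExtension {n} K (IntermediateField.adjoin K {x : Ω | x ^ n = 1}) := by
  have h := IntermediateField.isCyclotomicExtension_adjoin_of_exists_isPrimitiveRoot {n} K Ω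
    (fun m _ hm => X07_root m hm)
  have e : {b : Ω | ∃ m ∈ ({n} : Set ℕ), m ≠ 0 ∧ b ^ m = 1} = {x : Ω | x ^ n = 1} := by
    ext b
    constructor
    · rintro ⟨m, hm, _, hb⟩
      rw [Set.mem_singleton_iff] at hm
      subst hm
      exact hb
    · intro hb
      exact ⟨n, rfl, hn, hb⟩
  rw [e] at h
  exact h

theorem X07_gen {K Ω : Type} [Field K] [Field Ω] [Algebra K Ω] [CharZero Ω] [IsAlgClosed Ω] {q q' : ℕ} (hq : q ≠ 0) (hq' : q' ≠ 0)
    (hc : q.Coprime q') (hirr : ∀ n : ℕ, n ≠ 0 → Irreducible (Polynomial.cyclotomic n K)) :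
    IntermediateField.adjoin K {x : Ω | x ^ q = 1} ⊓ IntermediateField.adjoin K {x : Ω | x ^ q' = 1} = ⊥ := by
  have : NeZero q := ⟨hq⟩
  have : NeZero q' := ⟨hq'⟩
  have h1 := X07_cyc (K := K) (Ω := Ω) q hq
  have h2 := X07_cyc (K := K) (Ω := Ω) q' hq'
  have f1 : FiniteDimensional K (IntermediateField.adjoin K {x : Ω | x ^ q = 1}) :=
    IsCyclotomicExtension.finite_of_singleton q K _
  have f2 : FiniteDimensional K (IntermediateField.adjoin K {x : Ω | x ^ q' = 1}) :=
    IsCyclotomicExtension.finite_of_singleton q' K _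
  have h3 := IntermediateField.isCyclotomicExtension_lcm_sup K Ω q q'
    (IntermediateField.adjoin K {x : Ω | x ^ q = 1}) (IntermediateField.adjoin K {x : Ω | x ^ q' = 1})
  have : NeZero (q.lcm q') := ⟨Nat.lcm_ne_zero hq hq'⟩
  apply IntermediateField.LinearDisjoint.inf_eq_bot
  apply IntermediateField.LinearDisjoint.of_finrank_sup
  rw [IsCyclotomicExtension.finrank (n := q.lcm q') _ (hirr _ (NeZero.ne _)),
    IsCyclotomicExtension.finrank (n := q) _ (hirr _ hq),
    IsCyclotomicExtension.finrank (n := q') _ (hirr _ hq')]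
  rw [hc.lcm_eq_mul, Nat.totient_mul hc]

theorem x_disj {Ω : Type} [Field Ω] [CharZero Ω] [IsAlgClosed Ω] {q q' : ℕ} (hq : q.Prime) (hq' : q'.Prime) (hne : q ≠ q') :
    IntermediateField.adjoin ℚ {x : Ω | x ^ q = 1} ⊓ IntermediateField.adjoin ℚ {x : Ω | x ^ q' = 1} = ⊥ :=
  X07_gen hq.ne_zero hq'.ne_zero ((Nat.coprime_primes hq hq').2 hne)
    (fun _ hn => Polynomial.cyclotomic.irreducible_rat (Nat.pos_of_ne_zero hn))

end CFT
end

-- from Lib.CFT.X08
section

/-! # CFT X08 (M): a reducible cyclotomic polynomial gives a common element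

PROOF. Ω = AlgebraicClosure L, ζ a primitive q-th root of unity in Ω, f = minpoly L ζ, Z = adjoin ℚ {x | x^q = 1}. Suppose that every c in L whose image is in Z is in ⊥ (rational). f divides cyclotomic q L,
so all roots of f in Ω are roots of unity, in Z; f.map = product of the (X - root), so its coefficients are in Z (Polynomial.Splits, coeff of a product of linear factors over the
subfield Z: e.g. lift the multiset of roots to Z). So all coefficients of f are rational: f = g.map (algebraMap ℚ L) with g in ℚ[X] monic, g(ζ) = 0, so cyclotomic q ℚ = minpoly ℚ ζ divides g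
(Polynomial.cyclotomic_eq_minpoly_rat), so q - 1 = natDegree (cyclotomic q L) <= natDegree f and f = cyclotomic q L, which is irreducible (minpoly.irreducible). Contradiction.
Other way: [Ω ⊇ L(ζ) : L] etc. by Galois theory of Z/ℚ. -/

namespace CFT

open Polynomial in
theorem X08_coeff {Ω : Type} [Field Ω] (Z : Subfield Ω) (f : Polynomial Ω) (hm : f.Monic) (hs : f.Splits)
    (hr : ∀ x : Ω, f.IsRoot x → x ∈ Z) (n : ℕ) : f.coeff n ∈ Z := by
  have h1 : f ∈ Polynomial.lifts (algebraMap Z Ω) := by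
    rw [hs.eq_prod_roots_of_monic hm]
    refine Subsemiring.multiset_prod_mem _ _ ?_
    intro p hp
    obtain ⟨a, ha, rfl⟩ := Multiset.mem_map.1 hp
    have ha' : a ∈ Z := hr a (Polynomial.isRoot_of_mem_roots ha)
    rw [Polynomial.mem_lifts]
    refine ⟨X - C ⟨a, ha'⟩, ?_⟩
    rw [Polynomial.map_sub, Polynomial.map_X, Polynomial.map_C]
    rfl
  rw [Polynomial.lifts_iff_coeff_lifts] at h1
  obtain ⟨z, hz⟩ := h1 n
  rw [← hz]
  exact z.2

theorem x_coef {L : Type} [Field L] [CharZero L] {q : ℕ} (hq : q.Prime) (h : ¬ Irreducible (Polynomial.cyclotomic q L)) :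
    ∃ c : L, algebraMap L (AlgebraicClosure L) c ∈ IntermediateField.adjoin ℚ {x : AlgebraicClosure L | x ^ q = 1} ∧
      c ∉ (⊥ : IntermediateField ℚ L) := by
  by_contra hcon
  push Not at hcon
  apply h
  have : NeZero q := ⟨hq.ne_zero⟩
  have : CharZero (AlgebraicClosure L) := charZero_of_injective_algebraMap (algebraMap L (AlgebraicClosure L)).injective
  have : NeZero (q : AlgebraicClosure L) := ⟨Nat.cast_ne_zero.2 hq.ne_zero⟩
  obtain ⟨ζ, hζ⟩ : ∃ ζ : AlgebraicClosure L, IsPrimitiveRoot ζ q := by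
    obtain ⟨x, hx⟩ := IsAlgClosed.exists_root (Polynomial.cyclotomic q (AlgebraicClosure L)) (by
      rw [Polynomial.degree_cyclotomic]
      have := Nat.totient_pos.2 hq.pos
      exact_mod_cast this.ne')
    exact ⟨x, (Polynomial.isRoot_cyclotomic_iff).1 hx⟩
  have hint : IsIntegral L ζ := Algebra.IsIntegral.isIntegral ζ
  set f := minpoly L ζ with hf
  have hroot : Polynomial.aeval ζ (Polynomial.cyclotomic q L) = 0 := by
    rw [Polynomial.aeval_def, Polynomial.eval₂_eq_eval_map, Polynomial.map_cyclotomic]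
    exact (Polynomial.isRoot_cyclotomic_iff).2 hζ
  have hdvd : f ∣ Polynomial.cyclotomic q L := minpoly.dvd L ζ hroot
  have hfm : f.Monic := minpoly.monic hint
  have hcoef : ∀ n, algebraMap L (AlgebraicClosure L) (f.coeff n) ∈
      IntermediateField.adjoin ℚ {x : AlgebraicClosure L | x ^ q = 1} := by
    intro n
    rw [← Polynomial.coeff_map]
    apply X08_coeff (IntermediateField.adjoin ℚ {x : AlgebraicClosure L | x ^ q = 1}).toSubfield
    · exact hfm.map _
    · exact IsAlgClosed.splits _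
    · intro x hx
      apply IntermediateField.subset_adjoin
      show x ^ q = 1
      have h1 : f.map (algebraMap L (AlgebraicClosure L)) ∣ Polynomial.cyclotomic q (AlgebraicClosure L) := by
        rw [← Polynomial.map_cyclotomic q (algebraMap L (AlgebraicClosure L))]
        exact Polynomial.map_dvd _ hdvd
      have h2 := hx.dvd h1
      exact ((Polynomial.isRoot_cyclotomic_iff).1 h2).pow_eq_one
  have hrat : ∀ n, f.coeff n ∈ Set.range (algebraMap ℚ L) := fun n =>
    IntermediateField.mem_bot.1 (hcon _ (hcoef n))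
  have hlift : f ∈ Polynomial.lifts (algebraMap ℚ L) := by
    rw [Polynomial.lifts_iff_coeff_lifts]
    exact hrat
  obtain ⟨g, hg⟩ := (Polynomial.mem_lifts _).1 hlift
  have hgd : g.natDegree = f.natDegree := by
    rw [← hg, Polynomial.natDegree_map]
  have hg0 : g ≠ 0 := by
    rintro rfl
    rw [Polynomial.map_zero] at hg
    exact hfm.ne_zero hg.symm
  have hgz : Polynomial.aeval ζ g = 0 := by
    have h1 : Polynomial.aeval ζ f = 0 := minpoly.aeval L ζ
    rw [← hg, Polynomial.aeval_map_algebraMap] at h1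
    exact h1
  have hd2 : Polynomial.cyclotomic q ℚ ∣ g := by
    rw [Polynomial.cyclotomic_eq_minpoly_rat hζ hq.pos]
    exact minpoly.dvd ℚ ζ hgz
  have hle : (Polynomial.cyclotomic q L).natDegree ≤ f.natDegree := by
    rw [← hgd, Polynomial.natDegree_cyclotomic, ← Polynomial.natDegree_cyclotomic q ℚ]
    exact Polynomial.natDegree_le_of_dvd hd2 hg0
  have heq : f = Polynomial.cyclotomic q L :=
    (Polynomial.eq_of_monic_of_dvd_of_natDegree_le hfm (Polynomial.cyclotomic.monic q L) hdvd hle).symm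
  rw [← heq]
  exact minpoly.irreducible hint

end CFT
end

-- from Lib.CFT.X09
section

/-! # CFT X09 (M): only finitely many cyclotomic polynomials of prime conductor are reducible over a number field (no ramification theory)

PROOF. Ω = AlgebraicClosure L, j : L →ₐ[ℚ] Ω, Z q = adjoin ℚ {x | x^q = 1}, B q = (Z q).comap j : IntermediateField ℚ L. For a bad prime q, B q ≠ ⊥ (x_coef, X08). For two different bad primes
B q ≠ B q': an element c of B q = B q' has image in Z q ⊓ Z q' = ⊥ (x_disj, X07), so it is rational (j is injective and j (r) = r), so B q = ⊥, contradiction. IntermediateField ℚ L is finite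
(Field.exists_primitive_element_iff_finite_intermediateField, Field.exists_primitive_element; there may be an instance), so the set of bad primes is finite (Set.Finite.of_injOn or
Set.Finite.of_finite_image, with injectivity of B on the bad primes). -/

open NumberField

namespace CFT

theorem x_bad (L : Type) [Field L] [NumberField L] : {q : ℕ | q.Prime ∧ ¬ Irreducible (Polynomial.cyclotomic q L)}.Finite := by
  classical
  let j : L →ₐ[ℚ] AlgebraicClosure L := IsScalarTower.toAlgHom ℚ L (AlgebraicClosure L)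
  let B : ℕ → IntermediateField ℚ L := fun q => (IntermediateField.adjoin ℚ {x : AlgebraicClosure L | x ^ q = 1}).comap j
  haveI : Finite (IntermediateField ℚ L) := (Field.exists_primitive_element_iff_finite_intermediateField ℚ L).1
    ⟨inferInstance, Field.exists_primitive_element ℚ L⟩
  refine Set.Finite.of_finite_image (f := B) (Set.toFinite _) ?_
  rintro q ⟨hq, hqi⟩ q' ⟨hq', hqi'⟩ hBB
  by_contra hne
  obtain ⟨c, hc, hcb⟩ := x_coef hq hqi
  apply hcb
  have h1 : c ∈ B q := hc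
  rw [show B q = B q' from hBB] at h1
  have h2 : algebraMap L (AlgebraicClosure L) c ∈ IntermediateField.adjoin ℚ {x : AlgebraicClosure L | x ^ q' = 1} := h1
  have h3 : algebraMap L (AlgebraicClosure L) c ∈ IntermediateField.adjoin ℚ {x : AlgebraicClosure L | x ^ q = 1} ⊓
      IntermediateField.adjoin ℚ {x : AlgebraicClosure L | x ^ q' = 1} := ⟨hc, h2⟩
  have h4 := x_disj (Ω := AlgebraicClosure L) hq hq' hne
  rw [h4, IntermediateField.mem_bot] at h3
  obtain ⟨r, hr⟩ := h3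
  rw [IntermediateField.mem_bot]
  refine ⟨r, (algebraMap L (AlgebraicClosure L)).injective ?_⟩
  rw [← hr, eq_ratCast, map_ratCast, eq_ratCast]


end CFT
end

-- from Lib.CFT.X10
section

/-! # CFT X10 (M): cyclotomic polynomials of conductor q₁ q₂

PROOF. B = the bad set of L (x_bad, X09). For a prime q₁ not in B let L₁ = CyclotomicField q₁ L (a number field) and B' = the bad set of L₁ together with q₁. Let q₂ be a prime not in B'. Let
M = CyclotomicField q₂ L₁ (or an algebraic closure of L₁). [L₁ : L] = q₁ - 1, [M : L₁] = q₂ - 1 (IsCyclotomicExtension.finrank), so [M : L] = (q₁ - 1)(q₂ - 1). M is generated over L by a primitive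
q₁ q₂-th root of unity ζ (ζ₁ ζ₂; it is a cyclotomic extension of L: IsCyclotomicExtension.trans gives {q₁} ∪ {q₂}; IsCyclotomicExtension of lcm), so minpoly L ζ has degree
(q₁-1)(q₂-1) = natDegree (cyclotomic (q₁ q₂) L), divides it and both are monic: equal; irreducible. -/

open NumberField

namespace CFT

/-- Towers of cyclotomic extensions. -/
theorem x10_tower {L L₁ M : Type} [Field L] [Field L₁] [Field M] [CharZero L] [Algebra L L₁] [Algebra L M] [Algebra L₁ M] [IsScalarTower L L₁ M]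
    {q₁ q₂ : ℕ} [NeZero q₁] [NeZero q₂] [IsCyclotomicExtension {q₁} L L₁] [IsCyclotomicExtension {q₂} L₁ M] (hc : q₁.Coprime q₂)
    (h1 : Irreducible (Polynomial.cyclotomic q₁ L)) (h2 : Irreducible (Polynomial.cyclotomic q₂ L₁)) :
    Irreducible (Polynomial.cyclotomic (q₁ * q₂) L) := by
  have hT : IsCyclotomicExtension ({q₁} ∪ {q₂}) L M := IsCyclotomicExtension.trans {q₁} {q₂} L L₁ M (algebraMap L₁ M).injective
  have hd1 : Module.finrank L L₁ = q₁.totient := IsCyclotomicExtension.finrank L₁ h1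
  have hd2 : Module.finrank L₁ M = q₂.totient := IsCyclotomicExtension.finrank M h2
  haveI : FiniteDimensional L L₁ := IsCyclotomicExtension.finiteDimensional {q₁} L L₁
  haveI : FiniteDimensional L₁ M := IsCyclotomicExtension.finiteDimensional {q₂} L₁ M
  haveI : FiniteDimensional L M := FiniteDimensional.trans L L₁ M
  have hd : Module.finrank L M = (q₁ * q₂).totient := by
    rw [← Module.finrank_mul_finrank L L₁ M, hd1, hd2, Nat.totient_mul hc]
  obtain ⟨z1, hz1⟩ := IsCyclotomicExtension.exists_isPrimitiveRoot (S := {q₁} ∪ {q₂}) (A := L) (B := M) (n := q₁) (Or.inl rfl) (NeZero.ne q₁)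
  obtain ⟨z2, hz2⟩ := IsCyclotomicExtension.exists_isPrimitiveRoot (S := {q₁} ∪ {q₂}) (A := L) (B := M) (n := q₂) (Or.inr rfl) (NeZero.ne q₂)
  have hord : orderOf (z1 * z2) = q₁ * q₂ := by
    have h3 : (orderOf z1).Coprime (orderOf z2) := by
      rw [← hz1.eq_orderOf, ← hz2.eq_orderOf]
      exact hc
    rw [(Commute.all z1 z2).orderOf_mul_eq_mul_orderOf_of_coprime h3, ← hz1.eq_orderOf, ← hz2.eq_orderOf]
  have hz : IsPrimitiveRoot (z1 * z2) (q₁ * q₂) := by
    rw [← hord]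
    exact IsPrimitiveRoot.orderOf _
  haveI : NeZero (q₁ * q₂) := ⟨mul_ne_zero (NeZero.ne q₁) (NeZero.ne q₂)⟩
  have hint : IsIntegral L (z1 * z2) := Algebra.IsIntegral.isIntegral _
  have htop : IntermediateField.adjoin L {z1 * z2} = ⊤ := by
    rw [eq_top_iff]
    intro x _
    have h3 : x ∈ Algebra.adjoin L {b : M | ∃ n : ℕ, n ∈ ({q₁} ∪ {q₂} : Set ℕ) ∧ n ≠ 0 ∧ b ^ n = 1} := hT.adjoin_roots x
    have h4 : Algebra.adjoin L {b : M | ∃ n : ℕ, n ∈ ({q₁} ∪ {q₂} : Set ℕ) ∧ n ≠ 0 ∧ b ^ n = 1} ≤ (IntermediateField.adjoin L {z1 * z2}).toSubalgebra := by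
      rw [Algebra.adjoin_le_iff]
      rintro b ⟨n, hn, _, hb⟩
      have h5 : b ^ (q₁ * q₂) = 1 := by
        rcases hn with hn | hn
        · rw [Set.mem_singleton_iff] at hn
          subst hn
          rw [pow_mul, hb, one_pow]
        · rw [Set.mem_singleton_iff] at hn
          subst hn
          rw [mul_comm, pow_mul, hb, one_pow]
      obtain ⟨i, _, hi⟩ := hz.eq_pow_of_pow_eq_one h5
      rw [← hi]
      exact pow_mem (IntermediateField.subset_adjoin L {z1 * z2} rfl) i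
    exact h4 h3
  have hdeg : (minpoly L (z1 * z2)).natDegree = (q₁ * q₂).totient := by
    rw [← IntermediateField.adjoin.finrank hint, htop, IntermediateField.finrank_top', hd]
  have hdvd : minpoly L (z1 * z2) ∣ Polynomial.cyclotomic (q₁ * q₂) L := by
    apply minpoly.dvd
    rw [← Polynomial.eval_map_algebraMap, Polynomial.map_cyclotomic]
    exact (hz.isRoot_cyclotomic (Nat.pos_of_ne_zero (NeZero.ne _)))
  have heq : Polynomial.cyclotomic (q₁ * q₂) L = minpoly L (z1 * z2) := by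
    refine Polynomial.eq_of_monic_of_dvd_of_natDegree_le (minpoly.monic hint) (Polynomial.cyclotomic.monic _ _) hdvd ?_
    rw [hdeg, Polynomial.natDegree_cyclotomic]
  rw [heq]
  exact minpoly.irreducible hint

theorem x_irr2 (L : Type) [Field L] [NumberField L] :
    ∃ B : Set ℕ, B.Finite ∧ ∀ q₁ : ℕ, q₁.Prime → q₁ ∉ B → ∃ B' : Set ℕ, B'.Finite ∧ q₁ ∈ B' ∧
      ∀ q₂ : ℕ, q₂.Prime → q₂ ∉ B' → Irreducible (Polynomial.cyclotomic (q₁ * q₂) L) := by
  refine ⟨{q : ℕ | q.Prime ∧ ¬ Irreducible (Polynomial.cyclotomic q L)}, x_bad L, fun q₁ hq₁ hb₁ => ?_⟩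
  haveI : NeZero q₁ := ⟨hq₁.ne_zero⟩
  have h1 : Irreducible (Polynomial.cyclotomic q₁ L) := by
    by_contra h
    exact hb₁ ⟨hq₁, h⟩
  refine ⟨{q : ℕ | q.Prime ∧ ¬ Irreducible (Polynomial.cyclotomic q (CyclotomicField q₁ L))} ∪ {q₁}, (x_bad _).union (Set.finite_singleton _), Or.inr rfl, ?_⟩
  intro q₂ hq₂ hb₂
  haveI : NeZero q₂ := ⟨hq₂.ne_zero⟩
  have h2 : Irreducible (Polynomial.cyclotomic q₂ (CyclotomicField q₁ L)) := by
    by_contra h
    exact hb₂ (Or.inl ⟨hq₂, h⟩)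
  have hne : q₁ ≠ q₂ := fun h => hb₂ (Or.inr h.symm)
  exact x10_tower (L₁ := CyclotomicField q₁ L) (M := CyclotomicField q₂ (CyclotomicField q₁ L)) ((Nat.coprime_primes hq₁ hq₂).2 hne) h1 h2


end CFT
end

-- from Lib.SSR.RD
section

/-! # SSR, part R: ramification groups and exponents of the different: definitions (no sorry)

N ⊆ L number fields. Gp Q n s: the automorphism s acts trivially modulo Q^n (lower numbering: s in G_(n-1)). G2 N Q: the second ramification group of Q in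
L/N is trivial (only the identity acts trivially modulo Q^3). ex Q I: the exponent of the prime Q in the ideal I. -/

open NumberField IsDedekindDomain

namespace SSR

section

variable {N : Type} [Field N] [NumberField N] {L : Type} [Field L] [NumberField L] [Algebra N L]

/-- s acts trivially modulo Q^n. -/
def Gp (Q : Ideal (𝓞 L)) (n : ℕ) (s : L ≃ₐ[N] L) : Prop := ∀ x : 𝓞 L, s • x - x ∈ Q ^ n

variable (N) in
/-- The second ramification group of Q is trivial. -/
def G2 (Q : Ideal (𝓞 L)) : Prop := ∀ s : L ≃ₐ[N] L, Gp Q 3 s → s = 1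

/-- The exponent of Q in I. -/
noncomputable def ex (Q : HeightOneSpectrum (𝓞 L)) (I : Ideal (𝓞 L)) : ℕ := multiplicity Q.asIdeal I

theorem ex_fin (Q : HeightOneSpectrum (𝓞 L)) {I : Ideal (𝓞 L)} (hI : I ≠ ⊥) : FiniteMultiplicity Q.asIdeal I :=
  FiniteMultiplicity.of_prime_left Q.prime hI

theorem ex_mul (Q : HeightOneSpectrum (𝓞 L)) {I J : Ideal (𝓞 L)} (hI : I ≠ ⊥) (hJ : J ≠ ⊥) : ex Q (I * J) = ex Q I + ex Q J :=
  multiplicity_mul Q.prime (ex_fin Q (mul_ne_zero hI hJ))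

theorem ex_pow (Q : HeightOneSpectrum (𝓞 L)) {I : Ideal (𝓞 L)} (hI : I ≠ ⊥) (n : ℕ) : ex Q (I ^ n) = n * ex Q I :=
  FiniteMultiplicity.multiplicity_pow Q.prime (ex_fin Q hI)

omit [NumberField L] in
theorem ex_zero (Q : HeightOneSpectrum (𝓞 L)) {I : Ideal (𝓞 L)} (hI : ¬ I ≤ Q.asIdeal) : ex Q I = 0 :=
  multiplicity_eq_zero.2 fun h => hI (Ideal.le_of_dvd h)

theorem le_iff_ex (Q : HeightOneSpectrum (𝓞 L)) {I : Ideal (𝓞 L)} (hI : I ≠ ⊥) (n : ℕ) : I ≤ Q.asIdeal ^ n ↔ n ≤ ex Q I := by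
  rw [← Ideal.dvd_iff_le]
  exact (ex_fin Q hI).pow_dvd_iff_le_multiplicity

theorem different_ne : differentIdeal (𝓞 N) (𝓞 L) ≠ ⊥ := differentIdeal_ne_bot

end

end SSR
end

-- from Lib.SSR.ND
section

/-! # SSR, part N: local norms in a totally ramified cyclic step of degree p: definitions (no sorry) -/

open NumberField IsDedekindDomain

namespace SSR

/-- The prime v of N above p is totally ramified in L (degree p), w above it, and the exponent of the different at w is (p - 1)(t + 1). -/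
structure TRam (p : ℕ) {N : Type} [Field N] [NumberField N] {L : Type} [Field L] [NumberField L] [Algebra N L]
    (v : HeightOneSpectrum (𝓞 N)) (w : HeightOneSpectrum (𝓞 L)) (t : ℕ) : Prop where
  mem : (p : 𝓞 N) ∈ v.asIdeal
  map : v.asIdeal.map (algebraMap (𝓞 N) (𝓞 L)) = w.asIdeal ^ p
  pos : 1 ≤ t
  dif : ex w (differentIdeal (𝓞 N) (𝓞 L)) = (p - 1) * (t + 1)

end SSR
end

-- from Lib.SSR.N1
section

open NumberField IsDedekindDomain

namespace SSR

variable {N : Type} [Field N] [NumberField N] {L : Type} [Field L] [NumberField L] [Algebra N L]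

open FractionalIdeal nonZeroDivisors in
/-- The case of a principal ideal. -/
theorem n1_key (M : Ideal (𝓞 L)) (hM : M ≠ ⊥) (a : 𝓞 N) (ha : a ≠ 0) :
    M * differentIdeal (𝓞 N) (𝓞 L) ≤ Ideal.span {algebraMap (𝓞 N) (𝓞 L) a} ↔
      ∀ y ∈ M, Algebra.intTrace (𝓞 N) (𝓞 L) y ∈ Ideal.span {a} := by
  have haL : algebraMap N L (algebraMap (𝓞 N) N a) ≠ 0 := by
    rw [Ne, map_eq_zero, FaithfulSMul.algebraMap_eq_zero_iff]
    exact ha
  have haeq : algebraMap (𝓞 L) L (algebraMap (𝓞 N) (𝓞 L) a) =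
      algebraMap N L (algebraMap (𝓞 N) N a) := by
    rw [← IsScalarTower.algebraMap_apply, ← IsScalarTower.algebraMap_apply]
  have hM' : (M : FractionalIdeal (𝓞 L)⁰ L) ≠ 0 := coeIdeal_ne_zero.2 hM
  have hX : spanSingleton (𝓞 L)⁰ (algebraMap N L (algebraMap (𝓞 N) N a)) *
      (M : FractionalIdeal (𝓞 L)⁰ L)⁻¹ ≠ 0 := by
    refine mul_ne_zero ?_ (inv_ne_zero hM')
    rw [Ne, spanSingleton_eq_zero_iff]
    exact haL
  have h1 : M * differentIdeal (𝓞 N) (𝓞 L) ≤ Ideal.span {algebraMap (𝓞 N) (𝓞 L) a} ↔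
      ((differentIdeal (𝓞 N) (𝓞 L) : Ideal (𝓞 L)) : FractionalIdeal (𝓞 L)⁰ L) ≤
        spanSingleton (𝓞 L)⁰ (algebraMap N L (algebraMap (𝓞 N) N a)) *
          (M : FractionalIdeal (𝓞 L)⁰ L)⁻¹ := by
    rw [← coeIdeal_le_coeIdeal L, coeIdeal_mul, coeIdeal_span_singleton, haeq]
    constructor
    · intro h
      have h2 := mul_le_mul_left h ((M : FractionalIdeal (𝓞 L)⁰ L)⁻¹)
      rw [mul_comm (M : FractionalIdeal (𝓞 L)⁰ L), mul_assoc, mul_inv_cancel₀ hM', mul_one] at h2
      exact h2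
    · intro h
      have h2 := mul_le_mul_left h (M : FractionalIdeal (𝓞 L)⁰ L)
      rw [mul_assoc, inv_mul_cancel₀ hM', mul_one, mul_comm] at h2
      exact h2
  rw [h1, differentialIdeal_le_fractionalIdeal_iff (K := N) hX, mul_inv, inv_inv,
    spanSingleton_inv]
  constructor
  · intro h y hy
    have hmem : (algebraMap N L (algebraMap (𝓞 N) N a))⁻¹ * algebraMap (𝓞 L) L y ∈
        spanSingleton (𝓞 L)⁰ (algebraMap N L (algebraMap (𝓞 N) N a))⁻¹ *
          (M : FractionalIdeal (𝓞 L)⁰ L) :=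
      mul_mem_mul (mem_spanSingleton_self _ _) (mem_coeIdeal_of_mem _ hy)
    have h2 := h (Submodule.mem_map_of_mem (f := (Algebra.trace N L).restrictScalars (𝓞 N)) hmem)
    rw [Submodule.mem_one] at h2
    obtain ⟨c, hc⟩ := h2
    rw [LinearMap.restrictScalars_apply, ← map_inv₀, ← Algebra.smul_def, map_smul, smul_eq_mul,
      ← Algebra.algebraMap_intTrace (A := 𝓞 N)] at hc
    rw [Ideal.mem_span_singleton]
    refine ⟨c, ?_⟩
    have haN : algebraMap (𝓞 N) N a ≠ 0 := by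
      rw [Ne, FaithfulSMul.algebraMap_eq_zero_iff]
      exact ha
    apply FaithfulSMul.algebraMap_injective (𝓞 N) N
    rw [map_mul, hc, mul_inv_cancel_left₀ haN]
  · intro h
    rw [Submodule.map_le_iff_le_comap]
    intro x hx
    have hx' : x ∈ spanSingleton (𝓞 L)⁰ (algebraMap N L (algebraMap (𝓞 N) N a))⁻¹ *
          (M : FractionalIdeal (𝓞 L)⁰ L) := hx
    rw [mem_singleton_mul] at hx'
    obtain ⟨z, hz, rfl⟩ := hx'
    rw [mem_coeIdeal] at hz
    obtain ⟨y, hy, rfl⟩ := hz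
    obtain ⟨c, hc⟩ := Ideal.mem_span_singleton.1 (h y hy)
    rw [Submodule.mem_comap, Submodule.mem_one]
    refine ⟨c, ?_⟩
    have haN : algebraMap (𝓞 N) N a ≠ 0 := by
      rw [Ne, FaithfulSMul.algebraMap_eq_zero_iff]
      exact ha
    rw [LinearMap.restrictScalars_apply, ← map_inv₀, ← Algebra.smul_def, map_smul, smul_eq_mul,
      ← Algebra.algebraMap_intTrace (A := 𝓞 N), hc, map_mul, inv_mul_cancel_left₀ haN]

/-! Chunk N1 (M). The trace and the different. PROOF of n1_trace. In the field L: Tr(I) <= J iff for all z in I, c in J⁻¹: Tr(c z) in 𝓞 N iff J⁻¹ I <= dual of 1 = different⁻¹ iff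
I * different <= J 𝓞 L (J 𝓞 L invertible). Mathlib: differentialIdeal_le_fractionalIdeal_iff, FractionalIdeal.mem_dual, FractionalIdeal.dual, coeIdeal_differentIdeal (𝓞 N) N L (𝓞 L),
Submodule.mem_traceDual, Algebra.algebraMap_intTrace (the trace of N <= L restricted to integers). Possibly easier, elementary version: both sides can be checked after multiplying with an ideal:
choose 0 ≠ c in J (or J J' = (c)): I * D <= J 𝓞 L iff J' I D <= (c) iff c⁻¹ J' I <= D⁻¹ iff Tr(c⁻¹ J' I) <= 𝓞 N iff Tr(J' I) <= (c) = J J' iff (J' Tr(I) <= J J') iff Tr(I) <= J. -/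

theorem n1_trace (I : Ideal (𝓞 L)) (J : Ideal (𝓞 N)) (hJ : J ≠ ⊥) :
    (∀ z ∈ I, Algebra.intTrace (𝓞 N) (𝓞 L) z ∈ J) ↔ I * differentIdeal (𝓞 N) (𝓞 L) ≤ J.map (algebraMap (𝓞 N) (𝓞 L)) := by
  by_cases hI : I = ⊥
  · subst hI
    constructor
    · intro _
      rw [Ideal.bot_mul]
      exact bot_le
    · intro _ z hz
      rw [Ideal.mem_bot] at hz
      rw [hz, map_zero]
      exact J.zero_mem
  obtain ⟨a, haJ, ha⟩ := Submodule.exists_mem_ne_zero_of_ne_bot hJ
  obtain ⟨J', hJ'⟩ : J ∣ Ideal.span {a} :=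
    Ideal.dvd_iff_le.2 ((Ideal.span_singleton_le_iff_mem J).2 haJ)
  have hspan : Ideal.span {a} ≠ (⊥ : Ideal (𝓞 N)) := by
    rw [Ne, Ideal.span_singleton_eq_bot]
    exact ha
  have hJ'0 : J' ≠ ⊥ := by
    rintro rfl
    exact hspan (by rw [hJ', Ideal.mul_bot])
  have hmap0 : J'.map (algebraMap (𝓞 N) (𝓞 L)) ≠ ⊥ := by
    intro h
    exact hJ'0 ((Ideal.map_eq_bot_iff_of_injective
      (FaithfulSMul.algebraMap_injective (𝓞 N) (𝓞 L))).1 h)
  have hM : J'.map (algebraMap (𝓞 N) (𝓞 L)) * I ≠ ⊥ := mul_ne_zero hmap0 hI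
  have e1 : I * differentIdeal (𝓞 N) (𝓞 L) ≤ J.map (algebraMap (𝓞 N) (𝓞 L)) ↔
      J'.map (algebraMap (𝓞 N) (𝓞 L)) * I * differentIdeal (𝓞 N) (𝓞 L) ≤
        Ideal.span {algebraMap (𝓞 N) (𝓞 L) a} := by
    have h2 : Ideal.span {algebraMap (𝓞 N) (𝓞 L) a} =
        J'.map (algebraMap (𝓞 N) (𝓞 L)) * J.map (algebraMap (𝓞 N) (𝓞 L)) := by
      rw [← Ideal.map_mul, mul_comm J' J, ← hJ', Ideal.map_span, Set.image_singleton]
    rw [h2, mul_assoc, ← Ideal.dvd_iff_le, ← Ideal.dvd_iff_le, mul_dvd_mul_iff_left hmap0]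
  rw [e1, n1_key _ hM a ha, hJ']
  constructor
  · intro h y hy
    refine Submodule.mul_induction_on hy ?_ ?_
    · intro m hm
      refine Submodule.span_induction
        (p := fun m _ => ∀ z ∈ I, Algebra.intTrace (𝓞 N) (𝓞 L) (m * z) ∈ J * J') ?_ ?_ ?_ ?_ hm
      · rintro _ ⟨c, hc, rfl⟩ z hz
        rw [← Algebra.smul_def, map_smul, smul_eq_mul, mul_comm c]
        exact Ideal.mul_mem_mul (h z hz) hc
      · intro z _
        rw [zero_mul, map_zero]
        exact Ideal.zero_mem _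
      · intro x y _ _ hx hy z hz
        rw [add_mul, map_add]
        exact Ideal.add_mem _ (hx z hz) (hy z hz)
      · intro b x _ hx z hz
        rw [smul_eq_mul, mul_assoc, mul_left_comm]
        exact hx (b * z) (Ideal.mul_mem_left _ _ hz)
    · intro x y hx hy
      rw [map_add]
      exact Ideal.add_mem _ hx hy
  · intro h z hz
    have h3 : J' * Ideal.span {Algebra.intTrace (𝓞 N) (𝓞 L) z} ≤ J' * J := by
      rw [Ideal.mul_le]
      intro c hc t ht
      obtain ⟨b, rfl⟩ := Ideal.mem_span_singleton'.1 ht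
      have h4 := h (algebraMap (𝓞 N) (𝓞 L) c * z)
        (Ideal.mul_mem_mul (Ideal.mem_map_of_mem _ hc) hz)
      rw [← Algebra.smul_def, map_smul, smul_eq_mul, mul_comm J J'] at h4
      rw [mul_left_comm]
      exact Ideal.mul_mem_left _ _ h4
    rw [← Ideal.dvd_iff_le, mul_dvd_mul_iff_left hJ'0, Ideal.dvd_iff_le,
      Ideal.span_singleton_le_iff_mem] at h3
    exact h3

end SSR
end

-- from Lib.SSR.N2
section

open NumberField IsDedekindDomain

namespace SSR

variable {N : Type} [Field N] [NumberField N] {L : Type} [Field L] [NumberField L] [Algebra N L]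

theorem n2_map {p : ℕ} {v : HeightOneSpectrum (𝓞 N)} {w : HeightOneSpectrum (𝓞 L)} {t : ℕ}
    (h : TRam p v w t) (i : ℕ) :
    (v.asIdeal ^ i).map (algebraMap (𝓞 N) (𝓞 L)) = w.asIdeal ^ (p * i) := by
  rw [Ideal.map_pow, h.map, ← pow_mul]

theorem n2_iff {p : ℕ} {v : HeightOneSpectrum (𝓞 N)} {w : HeightOneSpectrum (𝓞 L)} {t : ℕ}
    (h : TRam p v w t) (n i : ℕ) :
    (∀ z ∈ w.asIdeal ^ n, Algebra.intTrace (𝓞 N) (𝓞 L) z ∈ v.asIdeal ^ i) ↔
      p * i ≤ n + (p - 1) * (t + 1) := by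
  have hw : w.asIdeal ≠ ⊥ := w.ne_bot
  have hwn : w.asIdeal ^ n ≠ ⊥ := pow_ne_zero n hw
  rw [n1_trace _ _ (pow_ne_zero i v.ne_bot), n2_map h,
    le_iff_ex w (mul_ne_zero hwn different_ne), ex_mul w hwn different_ne, h.dif, ex_pow w hw]
  have h1 : ex w w.asIdeal = 1 := by
    have h2 : FiniteMultiplicity w.asIdeal w.asIdeal := ex_fin w hw
    exact multiplicity_self
  rw [h1, mul_one]

/-! Chunk N2 (S/M). PROOF. n2_le, n2_not: n1_trace with I = w^n, J = v^i: (v^i) 𝓞 L = w^(p i) (Ideal.map_pow, h.map), ex w (w^n * D) = n + (p - 1)(t + 1) (ex_mul, ex_pow, ex w w = 1), le_iff_ex.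
n2_surj: T = {Tr z | z in w^n} + v^(i+1) is an ideal of 𝓞 N (Tr is 𝓞 N-linear: Algebra.intTrace is a linear map; T = Submodule.map (Algebra.intTrace ..) (w^n restricted to 𝓞 N) ⊔ v^(i+1)),
v^(i+1) < T <= v^i (n2_le, n2_not), so T = v^i: T divides v^(i+1), so T = v^j with j <= i + 1 ((Ideal.dvd_prime_pow / dvd_prime_pow) v.prime), i <= j (T <= v^i; Ideal.pow_le_pow... by
multiplicity) and j ≠ i + 1. -/

theorem n2_le {p : ℕ} {v : HeightOneSpectrum (𝓞 N)} {w : HeightOneSpectrum (𝓞 L)} {t : ℕ} (h : TRam p v w t) {n i : ℕ}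
    (hni : p * i ≤ n + (p - 1) * (t + 1)) {z : 𝓞 L} (hz : z ∈ w.asIdeal ^ n) : Algebra.intTrace (𝓞 N) (𝓞 L) z ∈ v.asIdeal ^ i :=
  (n2_iff h n i).2 hni z hz

theorem n2_not {p : ℕ} {v : HeightOneSpectrum (𝓞 N)} {w : HeightOneSpectrum (𝓞 L)} {t : ℕ} (h : TRam p v w t) {n i : ℕ}
    (hni : n + (p - 1) * (t + 1) < p * (i + 1)) : ∃ z ∈ w.asIdeal ^ n, Algebra.intTrace (𝓞 N) (𝓞 L) z ∉ v.asIdeal ^ (i + 1) := by
  by_contra hc
  push Not at hc
  have h1 := (n2_iff h n (i + 1)).1 hc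
  omega

theorem n2_surj {p : ℕ} {v : HeightOneSpectrum (𝓞 N)} {w : HeightOneSpectrum (𝓞 L)} {t : ℕ} (h : TRam p v w t) {n i : ℕ}
    (h1 : p * i ≤ n + (p - 1) * (t + 1)) (h2 : n + (p - 1) * (t + 1) < p * (i + 1)) (a : 𝓞 N) (ha : a ∈ v.asIdeal ^ i) :
    ∃ z ∈ w.asIdeal ^ n, Algebra.intTrace (𝓞 N) (𝓞 L) z - a ∈ v.asIdeal ^ (i + 1) := by
  let T : Ideal (𝓞 N) := Submodule.map (Algebra.intTrace (𝓞 N) (𝓞 L))
    ((w.asIdeal ^ n).restrictScalars (𝓞 N)) ⊔ v.asIdeal ^ (i + 1)
  have hT1 : T ≤ v.asIdeal ^ i := by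
    refine sup_le ?_ (Ideal.pow_le_pow_right (Nat.le_succ i))
    rintro _ ⟨z, hz, rfl⟩
    exact n2_le h h1 hz
  have hT2 : T ∣ v.asIdeal ^ (i + 1) := Ideal.dvd_iff_le.2 le_sup_right
  obtain ⟨j, hj, hTj⟩ := (dvd_prime_pow v.prime (i + 1)).1 hT2
  rw [associated_iff_eq] at hTj
  have hne : j ≠ i + 1 := by
    rintro rfl
    obtain ⟨z, hz, hz2⟩ := n2_not h h2
    apply hz2
    rw [← hTj]
    exact Ideal.mem_sup_left ⟨z, hz, rfl⟩
  have hij : i ≤ j := by
    rw [hTj, ← Ideal.dvd_iff_le, pow_dvd_pow_iff v.ne_bot v.prime.not_isUnit] at hT1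
    exact hT1
  have hji : j = i := by omega
  rw [hji] at hTj
  rw [← hTj] at ha
  obtain ⟨y, hy, b, hb, hab⟩ := Submodule.mem_sup.1 ha
  obtain ⟨z, hz, rfl⟩ := hy
  refine ⟨z, hz, ?_⟩
  have h3 : Algebra.intTrace (𝓞 N) (𝓞 L) z - a = -b := by
    rw [← hab]
    ring
  rw [h3]
  exact neg_mem hb

end SSR
end

-- from Lib.SSR.N5
section

open NumberField IsDedekindDomain

namespace SSR

variable {N : Type} [Field N] [NumberField N]

/-! Chunk N5 (S). v does not contain p: elements which are 1 modulo v are p-th powers modulo all powers of v. PROOF. Induction on n ≥ 1: y with y - 1 in v and y^p - x in v^n (n = 1: y = 1; n = 0: the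
same y). Step: a := x - y^p in v^n. p is invertible modulo v^(n+1): c p - 1 in v^(n+1) (v^(n+1) and (p) are coprime ideals). y' := y + c a: y'^p = y^p + p y^(p-1) c a mod v^(2n) (n ≥ 1),
= y^p + a mod v^(n+1) (y^(p-1) - 1 in v, c p = 1). -/

theorem n5_tame {p : ℕ} (hp : p.Prime) (v : HeightOneSpectrum (𝓞 N)) (hpv : (p : 𝓞 N) ∉ v.asIdeal) (x : 𝓞 N) (hx : x - 1 ∈ v.asIdeal) (n : ℕ) :
    ∃ y : 𝓞 N, y - 1 ∈ v.asIdeal ∧ y ^ p - x ∈ v.asIdeal ^ n := by
  have hbase : ∃ y : 𝓞 N, y - 1 ∈ v.asIdeal ∧ y ^ p - x ∈ v.asIdeal ^ 1 := by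
    refine ⟨1, by simp, ?_⟩
    rw [one_pow, pow_one, ← neg_sub]
    exact neg_mem hx
  rcases Nat.eq_zero_or_pos n with hn0 | hn0
  · subst hn0
    obtain ⟨y, hy, _⟩ := hbase
    exact ⟨y, hy, by simp⟩
  · induction n, hn0 using Nat.le_induction with
    | base => exact hbase
    | succ n hn ih =>
      obtain ⟨y, hy, hyx⟩ := ih
      have hmax : v.asIdeal.IsMaximal := v.isMaximal
      have hcop : IsCoprime v.asIdeal (Ideal.span {(p : 𝓞 N)}) := by
        rw [Ideal.isCoprime_iff_exists]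
        obtain ⟨c, i, hi, hci⟩ := hmax.exists_inv hpv
        exact ⟨i, hi, c * (p : 𝓞 N), Ideal.mul_mem_left _ _ (Ideal.mem_span_singleton_self _), by rw [add_comm]; exact hci⟩
      have hcop2 : IsCoprime (v.asIdeal ^ (n + 1)) (Ideal.span {(p : 𝓞 N)}) := hcop.pow_left
      rw [Ideal.isCoprime_iff_exists] at hcop2
      obtain ⟨i, hi, j, hj, hij⟩ := hcop2
      rw [Ideal.mem_span_singleton'] at hj
      obtain ⟨c, hc⟩ := hj
      have hcp : (p : 𝓞 N) * c - 1 ∈ v.asIdeal ^ (n + 1) := by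
        have : (p : 𝓞 N) * c - 1 = - i := by rw [← hij, ← hc]; ring
        rw [this]; exact neg_mem hi
      have ha : x - y ^ p ∈ v.asIdeal ^ n := by rw [← neg_sub]; exact neg_mem hyx
      refine ⟨y + c * (x - y ^ p), ?_, ?_⟩
      · have h1 : c * (x - y ^ p) ∈ v.asIdeal := Ideal.mul_mem_left _ _ (Ideal.pow_le_self (by omega) ha)
        have : y + c * (x - y ^ p) - 1 = (y - 1) + c * (x - y ^ p) := by ring
        rw [this]; exact add_mem hy h1
      · obtain ⟨k, hk⟩ := Polynomial.powAddExpansion y (c * (x - y ^ p)) p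
        have hyp : y ^ (p - 1) - 1 ∈ v.asIdeal := by
          have h := sub_dvd_pow_sub_pow y 1 (p - 1)
          rw [one_pow] at h
          exact Ideal.mem_of_dvd _ h hy
        have e : (y + c * (x - y ^ p)) ^ p - x = (y ^ (p - 1) - 1) * (x - y ^ p) * ((p : 𝓞 N) * c) + ((p : 𝓞 N) * c - 1) * (x - y ^ p) + (k * c ^ 2) * (x - y ^ p) ^ 2 := by
          rw [hk]; ring
        rw [e]
        refine add_mem (add_mem ?_ ?_) ?_
        · refine Ideal.mul_mem_right _ _ ?_
          rw [pow_succ']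
          exact Ideal.mul_mem_mul hyp ha
        · exact Ideal.mul_mem_right _ _ hcp
        · refine Ideal.mul_mem_left _ _ ?_
          have h2 : (x - y ^ p) ^ 2 ∈ v.asIdeal ^ (n * 2) := by
            rw [pow_mul]; exact Ideal.pow_mem_pow ha 2
          exact Ideal.pow_le_pow_right (by omega) h2

end SSR
end

-- from Lib.SSR.N3
section

open NumberField IsDedekindDomain

namespace SSR

section algebra

variable {B : Type*} [CommRing B] {σ : Type*} [Fintype σ]

/-- The elementary symmetric functions. -/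
noncomputable def n3_e (ζ : σ → B) (k : ℕ) : B :=
  ∑ t ∈ Finset.powersetCard k (Finset.univ : Finset σ), ∏ s ∈ t, ζ s

theorem n3_e_eq (ζ : σ → B) (k : ℕ) :
    MvPolynomial.aeval ζ (MvPolynomial.esymm σ ℤ k) = n3_e ζ k := by
  rw [MvPolynomial.esymm, map_sum, n3_e]
  refine Finset.sum_congr rfl fun t _ => ?_
  rw [map_prod]
  exact Finset.prod_congr rfl fun s _ => MvPolynomial.aeval_X ζ s

theorem n3_psum (ζ : σ → B) (k : ℕ) :
    MvPolynomial.aeval ζ (MvPolynomial.psum σ ℤ k) = ∑ s, ζ s ^ k := by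
  rw [MvPolynomial.psum, map_sum]
  refine Finset.sum_congr rfl fun s _ => ?_
  rw [map_pow, MvPolynomial.aeval_X]

theorem n3_mul (ζ : σ → B) (k : ℕ) :
    (k : B) * n3_e ζ k = (-1) ^ (k + 1) *
      ∑ a ∈ (Finset.HasAntidiagonal.antidiagonal k).filter (fun a => a.1 < k),
        (-1) ^ a.1 * n3_e ζ a.1 * ∑ s, ζ s ^ a.2 := by
  have h := congrArg (MvPolynomial.aeval ζ) (MvPolynomial.mul_esymm_eq_sum σ ℤ k)
  rw [map_mul, map_natCast, n3_e_eq, map_mul, map_pow, map_neg, map_one, map_sum] at h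
  rw [h]
  congr 1
  refine Finset.sum_congr rfl fun a _ => ?_
  rw [map_mul, map_mul, map_pow, map_neg, map_one, n3_e_eq, n3_psum]

theorem n3_e_zero (ζ : σ → B) : n3_e ζ 0 = 1 := by
  rw [n3_e, Finset.powersetCard_zero, Finset.sum_singleton, Finset.prod_empty]

theorem n3_e_one (ζ : σ → B) : n3_e ζ 1 = ∑ s, ζ s := by
  rw [n3_e, Finset.powersetCard_one, Finset.sum_map]
  refine Finset.sum_congr rfl fun s _ => ?_
  exact Finset.prod_singleton _ _

theorem n3_prod (ζ : σ → B) :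
    ∏ s, (1 + ζ s) = ∑ k ∈ Finset.range (Fintype.card σ + 1), n3_e ζ k := by
  classical
  rw [Finset.prod_one_add, Finset.sum_powerset]
  rfl

theorem n3_newton (ζ : σ → B) (K₁ K₂ : Ideal B) (h12 : K₂ ≤ K₁) (h11 : K₁ * K₁ ≤ K₂) (p : ℕ)
    (h1 : ∑ s, ζ s ∈ K₁) (hP : ∀ b, 2 ≤ b → ∑ s, ζ s ^ b ∈ K₂)
    (hk : ∀ k : ℕ, 2 ≤ k → k < p → ∀ x : B, (k : B) * x ∈ K₂ → x ∈ K₂) :
    ∀ k, 2 ≤ k → k < p → n3_e ζ k ∈ K₂ := by
  intro k
  induction k using Nat.strong_induction_on with
  | _ k ih =>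
    intro hk2 hkp
    apply hk k hk2 hkp
    rw [n3_mul]
    refine Ideal.mul_mem_left _ _ (Ideal.sum_mem _ fun a ha => ?_)
    rw [Finset.mem_filter, Finset.HasAntidiagonal.mem_antidiagonal] at ha
    obtain ⟨hak, hlt⟩ := ha
    rcases Nat.lt_or_ge a.1 2 with h2 | h2
    · rcases Nat.eq_zero_or_pos a.1 with h0 | h0
      · have h3 : a.2 = k := by omega
        rw [h3]
        exact Ideal.mul_mem_left _ _ (hP k hk2)
      · have h3 : a.1 = 1 := by omega
        rw [h3, n3_e_one, mul_assoc]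
        refine Ideal.mul_mem_left _ _ (h11 (Ideal.mul_mem_mul h1 ?_))
        rcases Nat.lt_or_ge a.2 2 with h4 | h4
        · have h5 : a.2 = 1 := by omega
          rw [h5]
          simpa only [pow_one] using h1
        · exact h12 (hP _ h4)
    · exact Ideal.mul_mem_right _ _ (Ideal.mul_mem_left _ _ (ih a.1 hlt h2 (by omega)))

end algebra

variable {N : Type} [Field N] [NumberField N] {L : Type} [Field L] [NumberField L] [Algebra N L]

omit [NumberField N] [NumberField L] in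
theorem n3_coe (x : 𝓞 N) : algebraMap (𝓞 L) L (algebraMap (𝓞 N) (𝓞 L) x) =
    algebraMap N L (algebraMap (𝓞 N) N x) := by
  rw [← IsScalarTower.algebraMap_apply, ← IsScalarTower.algebraMap_apply]

theorem n3_tr [IsGalois N L] (z : 𝓞 L) :
    algebraMap (𝓞 N) (𝓞 L) (Algebra.intTrace (𝓞 N) (𝓞 L) z) = ∑ s : L ≃ₐ[N] L, s • z := by
  apply FaithfulSMul.algebraMap_injective (𝓞 L) L
  rw [n3_coe, Algebra.algebraMap_intTrace (L := L), trace_eq_sum_automorphisms, map_sum]
  rfl

theorem n3_nm [IsGalois N L] (z : 𝓞 L) :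
    algebraMap (𝓞 N) (𝓞 L) (Algebra.intNorm (𝓞 N) (𝓞 L) z) = ∏ s : L ≃ₐ[N] L, s • z := by
  apply FaithfulSMul.algebraMap_injective (𝓞 L) L
  rw [n3_coe, Algebra.algebraMap_intNorm (L := L), Algebra.norm_eq_prod_automorphisms, map_prod]
  rfl

omit [NumberField N] [NumberField L] in
theorem n3_fix (s : L ≃ₐ[N] L) (x : 𝓞 N) :
    s • algebraMap (𝓞 N) (𝓞 L) x = algebraMap (𝓞 N) (𝓞 L) x := by
  apply FaithfulSMul.algebraMap_injective (𝓞 L) L
  have h : algebraMap (𝓞 L) L (s • algebraMap (𝓞 N) (𝓞 L) x) =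
      s (algebraMap (𝓞 L) L (algebraMap (𝓞 N) (𝓞 L) x)) := rfl
  rw [h, n3_coe, s.commutes]

theorem n3_prim (w : HeightOneSpectrum (𝓞 L)) (c x : 𝓞 L) (hc : c ∉ w.asIdeal) (m : ℕ)
    (h : c * x ∈ w.asIdeal ^ m) : x ∈ w.asIdeal ^ m := by
  have hco : IsCoprime (Ideal.span {c}) w.asIdeal := by
    rw [Ideal.isCoprime_iff_sup_eq]
    have hle : w.asIdeal < Ideal.span {c} ⊔ w.asIdeal := by
      refine lt_of_le_of_ne le_sup_right fun he => hc ?_
      rw [he]
      exact Ideal.mem_sup_left (Ideal.mem_span_singleton_self c)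
    exact w.isMaximal.1.2 _ hle
  obtain ⟨i, hi, j, hj, hij⟩ := Ideal.isCoprime_iff_exists.1 (hco.pow_right (n := m))
  obtain ⟨d, rfl⟩ := Ideal.mem_span_singleton'.1 hi
  have hx : x = d * (c * x) + j * x := by
    rw [← mul_assoc, ← add_mul, hij, one_mul]
  rw [hx]
  exact Ideal.add_mem _ (Ideal.mul_mem_left _ _ h) (Ideal.mul_mem_right _ _ hj)

theorem n3_stab {p : ℕ} (hp : p.Prime) {v : HeightOneSpectrum (𝓞 N)}
    {w : HeightOneSpectrum (𝓞 L)} {t : ℕ} (h : TRam p v w t) (s : L ≃ₐ[N] L) (n : ℕ) (z : 𝓞 L)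
    (hz : z ∈ w.asIdeal ^ n) : s • z ∈ w.asIdeal ^ n := by
  have hpr : (w.asIdeal.comap (MulSemiringAction.toRingHom (L ≃ₐ[N] L) (𝓞 L) s)).IsPrime :=
    Ideal.comap_isPrime _ _
  have h1 : w.asIdeal ^ p ≤ w.asIdeal.comap (MulSemiringAction.toRingHom (L ≃ₐ[N] L) (𝓞 L) s) := by
    rw [← h.map, Ideal.map_le_iff_le_comap]
    intro x hx
    rw [Ideal.mem_comap, Ideal.mem_comap]
    have h2 : MulSemiringAction.toRingHom (L ≃ₐ[N] L) (𝓞 L) s (algebraMap (𝓞 N) (𝓞 L) x) =
      algebraMap (𝓞 N) (𝓞 L) x := n3_fix s x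
    rw [h2]
    have h3 : algebraMap (𝓞 N) (𝓞 L) x ∈ w.asIdeal ^ p := by
      rw [← h.map]
      exact Ideal.mem_map_of_mem _ hx
    exact Ideal.pow_le_self hp.ne_zero h3
  have h2 : w.asIdeal ≤ w.asIdeal.comap (MulSemiringAction.toRingHom (L ≃ₐ[N] L) (𝓞 L) s) :=
    hpr.le_of_pow_le h1
  have h3 : (w.asIdeal ^ n).map (MulSemiringAction.toRingHom (L ≃ₐ[N] L) (𝓞 L) s) ≤
      w.asIdeal ^ n := by
    rw [Ideal.map_pow]
    exact Ideal.pow_right_mono (Ideal.map_le_iff_le_comap.2 h2) n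
  exact h3 (Ideal.mem_map_of_mem (MulSemiringAction.toRingHom (L ≃ₐ[N] L) (𝓞 L) s) hz)

/-! Chunk N3 (M). The norm of 1 + z. i ≥ t + 1, n = t + p (i - t), z in w^n. PROOF. Conjugates z_s = s • z, s in Gal(L/N) (p of them): norm(1 + z) = prod (1 + z_s) = sum over k = 0..p of e_k,
e_k = the k-th elementary symmetric function of the z_s (Finset.prod_one_add / Multiset.esymm; Algebra.norm_eq_prod_automorphisms, Algebra.algebraMap_intNorm; trace_eq_sum_automorphisms; powers:
Tr(z^k) = sum of z_s^k). All e_k lie in 𝓞 N (for k = 1: Tr z, k = p: norm z); claim: e_k is in v^(i+1) for 2 <= k <= p. Newton's identities (MvPolynomial.mul_esymm_eq_sum, evaluated at the z_s):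
k e_k = (-1)^(k+1) sum over (a, b), a + b = k, a < k of (-1)^a e_a P_b, P_b = Tr(z^b). Induction on k, 2 <= k < p: the term a = 0 is P_k = Tr(z^k), z^k in w^(2n), p (i+1) <= 2n + (p-1)(t+1)
(2n + (p-1)(t+1) - p(i+1) = (p i - p t + t - 1) ≥ 0): in v^(i+1) by n2_le; for 1 <= a < k: e_a in v^i (a = 1: Tr z in v^i by n2_le; n + (p-1)(t+1) = p i + p - 1) and P_b in v^i, product in v^(2i),
2 i ≥ i + 1. So k e_k in v^(i+1), and k is a unit modulo v (k < p, p in v: k not in v; v^(i+1) is primary: e_k in v^(i+1)). e_p = norm z: norm z is in v^n: z in w^n, and the exponent of v in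
(norm z) = relNorm (z) is that of relNorm w = v (f = 1, e = p: w^p = v 𝓞 L; or: (norm z) 𝓞 L = prod of (s • z) is in w^(p n) = v^n 𝓞 L (s w = w: the only prime above v) and
v^n 𝓞 L ∩ 𝓞 N = v^n), n ≥ i + 1 ((p-1)(i-t) ≥ 1).
If the elements e_k are inconvenient in 𝓞 N, do everything in 𝓞 L with the ideals v^i 𝓞 L = w^(p i) and go back at the end (comap of (v^i 𝓞 L) to 𝓞 N is v^i). -/

theorem n3_norm [IsGalois N L] {p : ℕ} (hp : p.Prime) (hn : Module.finrank N L = p) {v : HeightOneSpectrum (𝓞 N)} {w : HeightOneSpectrum (𝓞 L)} {t : ℕ}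
    (h : TRam p v w t) (i : ℕ) (hi : t + 1 ≤ i) (z : 𝓞 L) (hz : z ∈ w.asIdeal ^ (t + p * (i - t))) :
    Algebra.intNorm (𝓞 N) (𝓞 L) (1 + z) - 1 - Algebra.intTrace (𝓞 N) (𝓞 L) z ∈ v.asIdeal ^ (i + 1) := by
  classical
  obtain ⟨j, rfl⟩ : ∃ j, i = t + 1 + j := ⟨i - (t + 1), by omega⟩
  have hsub : t + 1 + j - t = 1 + j := by omega
  rw [hsub] at hz
  obtain ⟨q, hq⟩ : ∃ q, p = q + 2 := ⟨p - 2, by have := hp.two_le; omega⟩
  have hcard : Fintype.card (L ≃ₐ[N] L) = p := by
    rw [← Nat.card_eq_fintype_card, IsGalois.card_aut_eq_finrank, hn]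
  have hpw : (p : 𝓞 L) ∈ w.asIdeal := by
    have h1 : algebraMap (𝓞 N) (𝓞 L) (p : 𝓞 N) ∈ w.asIdeal ^ p := by
      rw [← h.map]
      exact Ideal.mem_map_of_mem _ h.mem
    rw [map_natCast] at h1
    exact Ideal.pow_le_self hp.ne_zero h1
  have htrw : ∀ (y : 𝓞 L) (b c : ℕ), y ∈ w.asIdeal ^ b → p * c ≤ b + (p - 1) * (t + 1) →
      ∑ s : L ≃ₐ[N] L, s • y ∈ w.asIdeal ^ (p * c) := by
    intro y b c hy hc
    rw [← n3_tr, ← n2_map h]
    exact Ideal.mem_map_of_mem _ (n2_le h hc hy)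
  have hN := n3_newton (fun s : L ≃ₐ[N] L => s • z) (w.asIdeal ^ (p * (t + 1 + j)))
    (w.asIdeal ^ (p * (t + 1 + j + 1))) (Ideal.pow_le_pow_right (Nat.mul_le_mul_left p (by omega)))
    (by
      rw [← pow_add, ← mul_add]
      exact Ideal.pow_le_pow_right (Nat.mul_le_mul_left p (by omega))) p
    (htrw z _ _ hz (by
      rw [hq]
      have e1 : q + 2 - 1 = q + 1 := by omega
      rw [e1]
      nlinarith))
    (by
      intro b hb
      have h1 : ∑ s : L ≃ₐ[N] L, (s • z) ^ b = ∑ s : L ≃ₐ[N] L, s • z ^ b :=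
        Finset.sum_congr rfl fun s _ => (smul_pow' s z b).symm
      rw [h1]
      refine htrw (z ^ b) (2 * (t + p * (1 + j))) _ ?_ ?_
      · have h2 : z ^ b ∈ (w.asIdeal ^ (t + p * (1 + j))) ^ b := Ideal.pow_mem_pow hz b
        rw [← pow_mul] at h2
        refine Ideal.pow_le_pow_right ?_ h2
        rw [mul_comm 2]
        exact Nat.mul_le_mul_left _ hb
      · rw [hq]
        have e1 : q + 2 - 1 = q + 1 := by omega
        rw [e1]
        have ht := h.pos
        nlinarith [Nat.zero_le (q * j), Nat.zero_le j, Nat.zero_le q])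
    (by
      intro k hk2 hkp x hx
      refine n3_prim w (k : 𝓞 L) x (fun hkw => ?_) _ hx
      have hco : IsCoprime (k : ℤ) (p : ℤ) :=
        Nat.isCoprime_iff_coprime.2
          ((hp.coprime_iff_not_dvd.2 (Nat.not_dvd_of_pos_of_lt (by omega) hkp)).symm)
      obtain ⟨a, b, hab⟩ := hco
      apply w.isPrime.ne_top
      rw [Ideal.eq_top_iff_one]
      have h1 : (1 : 𝓞 L) = (a : 𝓞 L) * (k : 𝓞 L) + (b : 𝓞 L) * (p : 𝓞 L) := by
        exact_mod_cast hab.symm
      rw [h1]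
      exact Ideal.add_mem _ (Ideal.mul_mem_left _ _ hkw) (Ideal.mul_mem_left _ _ hpw))
  have hlast : n3_e (fun s : L ≃ₐ[N] L => s • z) p ∈ w.asIdeal ^ (p * (t + 1 + j + 1)) := by
    rw [n3_e]
    refine Ideal.sum_mem _ fun T hT => ?_
    rw [Finset.mem_powersetCard] at hT
    have h1 : ∏ s ∈ T, s • z ∈ ∏ s ∈ T, w.asIdeal ^ (t + p * (1 + j)) :=
      Ideal.prod_mem_prod fun s _ => n3_stab hp h s _ z hz
    rw [Finset.prod_const, hT.2, ← pow_mul] at h1
    refine Ideal.pow_le_pow_right ?_ h1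
    rw [mul_comm p]
    refine Nat.mul_le_mul_right p ?_
    rw [hq]
    nlinarith [Nat.zero_le (q * j), Nat.zero_le j, Nat.zero_le q]
  have hfin : algebraMap (𝓞 N) (𝓞 L) (Algebra.intNorm (𝓞 N) (𝓞 L) (1 + z) - 1 -
      Algebra.intTrace (𝓞 N) (𝓞 L) z) ∈ w.asIdeal ^ (p * (t + 1 + j + 1)) := by
    rw [map_sub, map_sub, map_one, n3_nm, n3_tr]
    have h1 : ∏ s : L ≃ₐ[N] L, s • (1 + z) = ∏ s : L ≃ₐ[N] L, (1 + s • z) :=
      Finset.prod_congr rfl fun s _ => by rw [smul_add, smul_one]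
    rw [h1, n3_prod, hcard, hq, Finset.sum_range_succ', Finset.sum_range_succ', n3_e_zero,
      n3_e_one]
    have h2 : ∀ k ∈ Finset.range (q + 1), n3_e (fun s : L ≃ₐ[N] L => s • z) (k + 1 + 1) ∈
        w.asIdeal ^ ((q + 2) * (t + 1 + j + 1)) := by
      intro k hk
      rw [Finset.mem_range] at hk
      rw [← hq]
      rcases Nat.lt_or_ge (k + 1 + 1) p with h3 | h3
      · exact hN _ (by omega) h3
      · have h4 : k + 1 + 1 = p := by omega
        rw [h4]
        exact hlast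
    have h3 := Ideal.sum_mem _ h2
    have h4 : (∑ k ∈ Finset.range (q + 1), n3_e (fun s : L ≃ₐ[N] L => s • z) (k + 1 + 1) +
        ∑ s : L ≃ₐ[N] L, s • z + 1 - 1 - ∑ s : L ≃ₐ[N] L, s • z) =
        ∑ k ∈ Finset.range (q + 1), n3_e (fun s : L ≃ₐ[N] L => s • z) (k + 1 + 1) := by ring
    rw [h4]
    exact h3
  rw [← n2_map h] at hfin
  have hc := Ideal.comap_map_eq_self_of_faithfullyFlat (B := 𝓞 L) (v.asIdeal ^ (t + 1 + j + 1))
  rw [← hc]
  exact hfin

end SSR
end

-- from Lib.SSR.N4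
section

open NumberField IsDedekindDomain

namespace SSR

variable {N : Type} [Field N] [NumberField N] {L : Type} [Field L] [NumberField L] [Algebra N L]

/-! Chunk N4 (S/M). Units which are 1 modulo v^(t+1) are norms modulo all powers of v. PROOF. Show by induction on n ≥ t + 1: there is y with y - 1 in w and norm y - x in v^n; n = t + 1: y = 1.
Step i = n → n + 1: norm y = x mod v^i; a := x - norm y in v^i; norm y - 1 is in v (norm y = x = 1 mod v, t + 1 ≥ 1). n2_surj with n' = t + p (i - t): n' + (p-1)(t+1) = p i + p - 1: z in w^n',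
Tr z = a mod v^(i+1). y' := y (1 + z): norm y' = norm y * norm (1 + z) = norm y (1 + a) mod v^(i+1) (n3_norm) = norm y + a (a (norm y - 1) in v^(i+1)) = x. y' - 1 in w. For n < t + 1 use
n = t + 1 (Ideal.pow_le_pow_right). -/

theorem n4_loc [IsGalois N L] {p : ℕ} (hp : p.Prime) (hn : Module.finrank N L = p) {v : HeightOneSpectrum (𝓞 N)} {w : HeightOneSpectrum (𝓞 L)} {t : ℕ}
    (h : TRam p v w t) (x : 𝓞 N) (hx : x - 1 ∈ v.asIdeal ^ (t + 1)) (n : ℕ) :
    ∃ y : 𝓞 L, y - 1 ∈ w.asIdeal ∧ Algebra.intNorm (𝓞 N) (𝓞 L) y - x ∈ v.asIdeal ^ n := by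
  have key : ∀ m : ℕ, ∃ y : 𝓞 L, y - 1 ∈ w.asIdeal ∧
      Algebra.intNorm (𝓞 N) (𝓞 L) y - x ∈ v.asIdeal ^ (t + 1 + m) := by
    intro m
    induction m with
    | zero =>
      refine ⟨1, by rw [sub_self]; exact zero_mem _, ?_⟩
      rw [map_one, ← neg_sub]
      exact neg_mem hx
    | succ m ih =>
      obtain ⟨y, hy1, hy2⟩ := ih
      obtain ⟨i, hi⟩ : ∃ i, i = t + 1 + m := ⟨_, rfl⟩
      rw [← hi] at hy2
      have hti : t + 1 ≤ i := by omega
      have hpos := h.pos
      have hp2 := hp.two_le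
      have ha : x - Algebra.intNorm (𝓞 N) (𝓞 L) y ∈ v.asIdeal ^ i := by
        rw [← neg_sub]
        exact neg_mem hy2
      have hnum : t + p * (i - t) + (p - 1) * (t + 1) = p * i + (p - 1) := by
        obtain ⟨j, rfl⟩ : ∃ j, i = t + j := ⟨i - t, by omega⟩
        obtain ⟨q, rfl⟩ : ∃ q, p = q + 1 := ⟨p - 1, by omega⟩
        rw [Nat.add_sub_cancel_left, Nat.add_sub_cancel]
        ring
      obtain ⟨z, hz, hz2⟩ := n2_surj h (n := t + p * (i - t)) (i := i) (by rw [hnum]; omega)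
        (by rw [hnum, Nat.mul_succ]; omega) _ ha
      have hz3 := n3_norm hp hn h i hti z hz
      refine ⟨y * (1 + z), ?_, ?_⟩
      · have hzw : z ∈ w.asIdeal := by
          have h1 : w.asIdeal ^ (t + p * (i - t)) ≤ w.asIdeal ^ 1 :=
            Ideal.pow_le_pow_right (by omega)
          rw [pow_one] at h1
          exact h1 hz
        have e : y * (1 + z) - 1 = (y - 1) + y * z := by ring
        rw [e]
        exact add_mem hy1 (Ideal.mul_mem_left _ _ hzw)
      · have hi2 : t + 1 + (m + 1) = i + 1 := by omega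
        rw [hi2, map_mul]
        obtain ⟨a, haa⟩ : ∃ a, a = x - Algebra.intNorm (𝓞 N) (𝓞 L) y := ⟨_, rfl⟩
        obtain ⟨ny, hny⟩ : ∃ ny, ny = Algebra.intNorm (𝓞 N) (𝓞 L) y := ⟨_, rfl⟩
        rw [← hny] at haa hy2 ⊢
        rw [← hny, ← haa] at ha
        rw [← hny, ← haa] at hz2
        have hv : ∀ k, 1 ≤ k → ∀ u ∈ v.asIdeal ^ k, u ∈ v.asIdeal := by
          intro k hk u hu
          have h1 : v.asIdeal ^ k ≤ v.asIdeal ^ 1 := Ideal.pow_le_pow_right hk
          rw [pow_one] at h1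
          exact h1 hu
        have hny1 : ny - 1 ∈ v.asIdeal := by
          have e : ny - 1 = (ny - x) + (x - 1) := by ring
          rw [e]
          exact add_mem (hv i (by omega) _ hy2) (hv (t + 1) (by omega) _ hx)
        have hprod : a * (ny - 1) ∈ v.asIdeal ^ (i + 1) := by
          rw [pow_succ]
          exact Ideal.mul_mem_mul ha hny1
        obtain ⟨T, hT⟩ : ∃ T, T = Algebra.intTrace (𝓞 N) (𝓞 L) z := ⟨_, rfl⟩
        obtain ⟨M, hM⟩ : ∃ M, M = Algebra.intNorm (𝓞 N) (𝓞 L) (1 + z) := ⟨_, rfl⟩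
        rw [← hT] at hz2 hz3
        rw [← hM] at hz3 ⊢
        have e : ny * M - x = ny * (M - 1 - T) + ny * (T - a) + a * (ny - 1) := by
          rw [haa]
          ring
        rw [e]
        exact add_mem (add_mem (Ideal.mul_mem_left _ _ hz3) (Ideal.mul_mem_left _ _ hz2)) hprod
  obtain ⟨y, h1, h2⟩ := key n
  exact ⟨y, h1, Ideal.pow_le_pow_right (by omega) h2⟩

end SSR
end

-- from Lib.SSR.N6
section

open NumberField IsDedekindDomain

namespace SSR

variable {N : Type} [Field N] [NumberField N] {L : Type} [Field L] [NumberField L] [Algebra N L]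

/-! Chunk N6 (M). Simultaneous approximation. PROOF of n6_cong. If y - y' is in v^n 𝓞 L then norm y - norm y' is in v^n: in 𝓞 L (or L): norm = prod over s of (s • y), s (v^n 𝓞 L) = v^n 𝓞 L, so
the difference of the products is in v^n 𝓞 L (Finset.prod congruence mod an ideal: work in the quotient ring), and (v^n 𝓞 L) ∩ 𝓞 N = v^n (Ideal.comap_map_eq... for Dedekind extensions; see
intNorm_cong in Lib/H55P, which proves exactly this congruence: grep intNorm_cong). PROOF of n6_all. For each v in S: y_v in 𝓞 L with norm y_v = x mod v^n: if p not in v: n5_tame gives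
y in 𝓞 N, norm of its image = y^p (Algebra.intNorm_algebraMap? : norm of an element of the base = p-th power); if p in v: n4_loc. The ideals v^n 𝓞 L (v in S) are pairwise coprime (n ≥ 1; n = 0
trivial): y in 𝓞 L with y - y_v in v^n 𝓞 L for all v in S (Ideal.exists_forall_sub_mem_ideal). y ≠ 0: if S is not empty and n ≥ 1 then norm y = x mod v, and x is not in v (x - 1 in v);
otherwise take y = 1. -/

theorem n6_prod [IsGalois N L] (y : 𝓞 L) :
    algebraMap (𝓞 N) (𝓞 L) (Algebra.intNorm (𝓞 N) (𝓞 L) y) = ∏ s : L ≃ₐ[N] L, s • y := by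
  apply FaithfulSMul.algebraMap_injective (𝓞 L) L
  rw [← IsScalarTower.algebraMap_apply (𝓞 N) (𝓞 L) L, IsScalarTower.algebraMap_apply (𝓞 N) N L,
    Algebra.algebraMap_intNorm (K := N) (L := L), Algebra.norm_eq_prod_automorphisms, map_prod]
  rfl

theorem n6_base (y : 𝓞 N) : Algebra.intNorm (𝓞 N) (𝓞 L) (algebraMap (𝓞 N) (𝓞 L) y) = y ^ Module.finrank N L := by
  apply FaithfulSMul.algebraMap_injective (𝓞 N) N
  rw [Algebra.algebraMap_intNorm (K := N) (L := L), ← IsScalarTower.algebraMap_apply (𝓞 N) (𝓞 L) L,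
    IsScalarTower.algebraMap_apply (𝓞 N) N L, Algebra.norm_algebraMap, map_pow]

omit [NumberField N] [NumberField L] in
theorem n6_stab (I : Ideal (𝓞 N)) (s : L ≃ₐ[N] L) (z : 𝓞 L) (hz : z ∈ I.map (algebraMap (𝓞 N) (𝓞 L))) :
    s • z ∈ I.map (algebraMap (𝓞 N) (𝓞 L)) := by
  unfold Ideal.map at hz
  induction hz using Submodule.span_induction with
  | mem x hx =>
    obtain ⟨a, ha, rfl⟩ := hx
    have h1 : s • algebraMap (𝓞 N) (𝓞 L) a = algebraMap (𝓞 N) (𝓞 L) a := by
      apply RingOfIntegers.ext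
      exact s.commutes _
    rw [h1]
    exact Ideal.mem_map_of_mem _ ha
  | zero =>
    rw [smul_zero]
    exact Ideal.zero_mem _
  | add x y _ _ hx hy =>
    rw [smul_add]
    exact Ideal.add_mem _ hx hy
  | smul a x _ hx =>
    have h1 : s • (a • x) = (s • a) * (s • x) := by
      rw [smul_eq_mul, smul_mul']
    rw [h1]
    exact Ideal.mul_mem_left _ _ hx

theorem n6_cong [IsGalois N L] (v : HeightOneSpectrum (𝓞 N)) (n : ℕ) (y y' : 𝓞 L) (h : y - y' ∈ (v.asIdeal ^ n).map (algebraMap (𝓞 N) (𝓞 L))) :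
    Algebra.intNorm (𝓞 N) (𝓞 L) y - Algebra.intNorm (𝓞 N) (𝓞 L) y' ∈ v.asIdeal ^ n := by
  have h1 : algebraMap (𝓞 N) (𝓞 L) (Algebra.intNorm (𝓞 N) (𝓞 L) y - Algebra.intNorm (𝓞 N) (𝓞 L) y') ∈
      (v.asIdeal ^ n).map (algebraMap (𝓞 N) (𝓞 L)) := by
    rw [map_sub, n6_prod, n6_prod, ← Ideal.Quotient.eq, map_prod, map_prod]
    refine Finset.prod_congr rfl (fun s _ => ?_)
    rw [Ideal.Quotient.eq, ← smul_sub]
    exact n6_stab _ s _ h
  have h2 := Ideal.comap_map_eq_self_of_faithfullyFlat (B := 𝓞 L) (v.asIdeal ^ n)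
  rw [← h2]
  exact h1

theorem n6_all [IsGalois N L] {p : ℕ} (hp : p.Prime) (hn : Module.finrank N L = p) (S : Finset (HeightOneSpectrum (𝓞 N))) (t : HeightOneSpectrum (𝓞 N) → ℕ)
    (hS : ∀ v ∈ S, (p : 𝓞 N) ∈ v.asIdeal → ∃ w : HeightOneSpectrum (𝓞 L), TRam p v w (t v)) (x : 𝓞 N)
    (hx : ∀ v ∈ S, ((p : 𝓞 N) ∉ v.asIdeal → x - 1 ∈ v.asIdeal) ∧ ((p : 𝓞 N) ∈ v.asIdeal → x - 1 ∈ v.asIdeal ^ (t v + 1))) (n : ℕ) :
    ∃ y : 𝓞 L, y ≠ 0 ∧ ∀ v ∈ S, Algebra.intNorm (𝓞 N) (𝓞 L) y - x ∈ v.asIdeal ^ n := by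
  classical
  rcases Nat.eq_zero_or_pos n with h0 | h0
  · refine ⟨1, one_ne_zero, fun v _ => ?_⟩
    rw [h0, pow_zero, Ideal.one_eq_top]
    exact Submodule.mem_top
  rcases S.eq_empty_or_nonempty with hSe | ⟨v0, hv0⟩
  · refine ⟨1, one_ne_zero, fun v hv => ?_⟩
    rw [hSe] at hv
    exact absurd hv (Finset.notMem_empty v)
  have hloc : ∀ v : {v // v ∈ S}, ∃ y : 𝓞 L, Algebra.intNorm (𝓞 N) (𝓞 L) y - x ∈ v.1.asIdeal ^ n := by
    rintro ⟨v, hv⟩
    by_cases hpv : (p : 𝓞 N) ∈ v.asIdeal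
    · obtain ⟨w, hw⟩ := hS v hv hpv
      obtain ⟨y, -, hy⟩ := n4_loc hp hn hw x ((hx v hv).2 hpv) n
      exact ⟨y, hy⟩
    · obtain ⟨y, -, hy⟩ := n5_tame hp v hpv x ((hx v hv).1 hpv) n
      refine ⟨algebraMap (𝓞 N) (𝓞 L) y, ?_⟩
      rw [n6_base, hn]
      exact hy
  choose g hg using hloc
  have hcop : Pairwise (Function.onFun IsCoprime (fun v : {v // v ∈ S} => (v.1.asIdeal ^ n).map (algebraMap (𝓞 N) (𝓞 L)))) := by
    intro v v' hvv
    have h1 : IsCoprime v.1.asIdeal v'.1.asIdeal := by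
      have hm := v.1.isMaximal
      have hm' := v'.1.isMaximal
      exact Ideal.isCoprime_of_isMaximal (fun h => hvv (Subtype.ext (HeightOneSpectrum.ext h)))
    exact (h1.pow (m := n) (n := n)).map (Ideal.mapHom (algebraMap (𝓞 N) (𝓞 L)))
  obtain ⟨y, hy⟩ := Ideal.exists_forall_sub_mem_ideal hcop g
  have hy' : ∀ v ∈ S, Algebra.intNorm (𝓞 N) (𝓞 L) y - x ∈ v.asIdeal ^ n := by
    intro v hv
    have h1 := n6_cong v n y (g ⟨v, hv⟩) (hy ⟨v, hv⟩)
    have h2 := Ideal.add_mem _ h1 (hg ⟨v, hv⟩)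
    rwa [sub_add_sub_cancel] at h2
  refine ⟨y, ?_, hy'⟩
  rintro rfl
  have h1 := hy' v0 hv0
  have hz0 : Algebra.intNorm (𝓞 N) (𝓞 L) (0 : 𝓞 L) = 0 := by
    have h := n6_base (L := L) (0 : 𝓞 N)
    rwa [map_zero, hn, zero_pow hp.ne_zero] at h
  rw [hz0, zero_sub, neg_mem_iff] at h1
  have h2 : x ∈ v0.asIdeal := Ideal.pow_le_self h0.ne' h1
  have h3 : x - 1 ∈ v0.asIdeal := by
    by_cases hpv : (p : 𝓞 N) ∈ v0.asIdeal
    · exact Ideal.pow_le_self (Nat.succ_ne_zero _) ((hx v0 hv0).2 hpv)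
    · exact (hx v0 hv0).1 hpv
  have h4 : (1 : 𝓞 N) ∈ v0.asIdeal := by
    have h5 := Ideal.sub_mem _ h2 h3
    rwa [sub_sub_cancel] at h5
  exact v0.isPrime.ne_top ((Ideal.eq_top_iff_one _).2 h4)

end SSR
end
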