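import Mathlib
import Pool.Agent.Lib.H1M.PP2.M010
import Pool.Agent.Lib.H1M.PP2.M017

/-! Merged copies (to shorten the build) of Lib.CFT.ZA, Lib.CFT.YDefs, Lib.CFT.Y01, Lib.CFT.Y02, Lib.CFT.Y13, Lib.CFT.Y05, Lib.CFT.Y07, Lib.CFT.Y09, Lib.CFT.Y21, Lib.CFT.Y14, Lib.CFT.Y15, Lib.CFT.Y15B. -/

-- from Lib.CFT.ZA
section

/-! # CFT, module Z, part A: Dirichlet series over the ideals of a number field

A port of Lib/H55N/H3, H4 and Lib/H55R/DD, D1, D2, D3 without their other imports. Ls h s: the Dirichlet series of h at the real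
number s. ideal_summable; euler (Euler product, logarithm of the absolute value); log_cmp (comparison of log |L| with the sum over the
primes); zeta_log, zeta_pole (the pole of the zeta function). -/

open NumberField IsDedekindDomain

namespace CFTZ

open H55R

section base

variable {K : Type} [Field K] [NumberField K]

/-- The general term of a Dirichlet series over the ideals. -/
noncomputable def tm (h : Ideal (𝓞 K) → ℂ) (s : ℂ) (a : Ideal (𝓞 K)) : ℂ :=
  h a * (Ideal.absNorm a : ℂ) ^ (-s)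

/-- The general term of a Dirichlet series with completely multiplicative coefficients. -/
noncomputable def tmH (h : Ideal (𝓞 K) →*₀ ℂ) (s : ℂ) : Ideal (𝓞 K) →*₀ ℂ where
  toFun := tm h s
  map_zero' := by
    unfold tm
    rw [map_zero, zero_mul]
  map_one' := by
    unfold tm
    rw [map_one, map_one, Nat.cast_one, Complex.one_cpow, one_mul]
  map_mul' a b := by
    unfold tm
    rw [map_mul, map_mul, Nat.cast_mul, Complex.natCast_mul_natCast_cpow]
    ring

theorem H3_tendsto : Filter.Tendsto (fun n : ℕ => (∑ k ∈ Finset.Icc 1 n,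
    (Nat.card {I : Ideal (𝓞 K) // Ideal.absNorm I = k} : ℝ)) / (n : ℝ)) Filter.atTop
    (nhds (NumberField.dedekindZeta_residue K)) := by
  refine ((Ideal.tendsto_norm_le_div_atTop₀ K).comp tendsto_natCast_atTop_atTop).congr fun n ↦ ?_
  simp only [Function.comp_apply, Nat.cast_le, ← Nat.cast_sum]
  congr
  rw [← add_left_inj 1, ← Ideal.card_norm_le_eq_card_norm_le_add_one,
    show Finset.Icc 1 n = Finset.Ioc 0 n from Finset.Icc_succ_left_eq_Ioc _ _,
    show 1 = Nat.card {I : Ideal (𝓞 K) // Ideal.absNorm I = 0} by simp [Ideal.absNorm_eq_zero_iff],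
    Finset.sum_Ioc_add_eq_sum_Icc (n.zero_le),
    ← Finset.card_preimage_eq_sum_card_image_eq (fun k _ ↦ Ideal.finite_setOfPred_absNorm_eq k)]
  simp [Set.coe_eq_subtype]

theorem ideal_summable (σ : ℝ) (hσ : 1 < σ) :
    Summable (fun a : Ideal (𝓞 K) => (Ideal.absNorm a : ℝ) ^ (-σ)) := by
  have h0 : LSeriesSummable (fun n => (((Nat.card {I : Ideal (𝓞 K) // Ideal.absNorm I = n} : ℕ) : ℝ) : ℂ))
      (σ : ℂ) := by
    have h1 : 1 < (σ : ℂ).re := by simpa using hσ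
    refine LSeriesSummable_of_sum_norm_bigO_and_nonneg (r := 1) ?_ (fun _ => Nat.cast_nonneg _)
      zero_le_one h1
    exact Asymptotics.isBigO_atTop_natCast_rpow_of_tendsto_div_rpow (𝕜 := ℝ) (a := NumberField.dedekindZeta_residue K)
      (by simpa using (H3_tendsto (K := K)))
  have h2 : Summable (fun n : ℕ =>
      ((Nat.card {I : Ideal (𝓞 K) // Ideal.absNorm I = n} : ℕ) : ℝ) * (n : ℝ) ^ (-σ)) := by
    refine (summable_norm_iff.2 h0).congr fun n => ?_
    rcases Nat.eq_zero_or_pos n with rfl | hn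
    · rw [LSeries.term_zero, norm_zero, Nat.cast_zero, Real.zero_rpow (by linarith), mul_zero]
    · rw [LSeries.term_of_ne_zero (by omega), norm_div, Complex.norm_natCast_cpow_of_pos hn,
        Complex.norm_real, Real.norm_of_nonneg (Nat.cast_nonneg _), Complex.ofReal_re,
        Real.rpow_neg (Nat.cast_nonneg _), div_eq_mul_inv]
  rw [← (Equiv.sigmaFiberEquiv (fun a : Ideal (𝓞 K) => Ideal.absNorm a)).summable_iff]
  have h3 : ∀ n : ℕ, Finite {I : Ideal (𝓞 K) // Ideal.absNorm I = n} := fun n =>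
    (Ideal.finite_setOfPred_absNorm_eq n).to_subtype
  rw [summable_sigma_of_nonneg]
  · refine ⟨fun n => Summable.of_finite, h2.congr fun n => ?_⟩
    have := Fintype.ofFinite {I : Ideal (𝓞 K) // Ideal.absNorm I = n}
    rw [tsum_fintype]
    rw [Finset.sum_congr rfl (g := fun _ => (n : ℝ) ^ (-σ))]
    · rw [Finset.sum_const, Finset.card_univ, Nat.card_eq_fintype_card, nsmul_eq_mul]
    · rintro ⟨I, hI⟩ -
      simp only [Function.comp_apply, Equiv.sigmaFiberEquiv_apply]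
      rw [hI]
  · rintro ⟨n, I⟩
    simp only [Function.comp_apply]
    positivity

end base


open Classical in
theorem H4_aux {K : Type} [Field K] [NumberField K] {ι : Type}
    (k : Ideal (𝓞 K) →*₀ ℂ) (hk : Summable fun a => ‖k a‖) (c : ι → Ideal (𝓞 K))
    (hc : ∀ i, (c i).IsPrime) (hc0 : ∀ i, c i ≠ ⊥) (inj : Function.Injective c) (p : ι → ℂ)
    (S : Finset ι) :
    HasSum (fun a => k a * ∏ i ∈ S, (if a ≤ c i then 1 - p i else 1))
      ((∏ i ∈ S, (1 - p i * k (c i))) * ∑' a, k a) := by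
  induction S using Finset.induction_on with
  | empty => simpa using hk.of_norm.hasSum
  | insert j S hj ih =>
    set f : Ideal (𝓞 K) → ℂ := fun a => k a * ∏ i ∈ S, (if a ≤ c i then 1 - p i else 1) with hf
    set g : Ideal (𝓞 K) → ℂ := fun a => if a ≤ c j then f a else 0 with hg
    have hinj : Function.Injective (fun b : Ideal (𝓞 K) => c j * b) :=
      fun a b h => mul_left_cancel₀ (by simpa using hc0 j) h
    have h1 : ∀ b, g (c j * b) = k (c j) * f b := by
      intro b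
      have h2 : c j * b ≤ c j := Ideal.mul_le_left
      simp only [hg, hf]
      rw [if_pos h2, map_mul, mul_assoc]
      congr 2
      refine Finset.prod_congr rfl fun i hi => ?_
      have hij : i ≠ j := fun h => hj (h ▸ hi)
      have h3 : c j * b ≤ c i ↔ b ≤ c i := by
        constructor
        · intro h
          rcases (hc i).mul_le.1 h with h | h
          · exfalso
            have hmax : (c j).IsMaximal := (hc j).isMaximal (hc0 j)
            have := hmax.eq_of_le (hc i).ne_top h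
            exact hij (inj this.symm)
          · exact h
        · intro h
          exact Ideal.mul_le_right.trans h
      simp only [h3]
    have h4 : HasSum g (k (c j) * ((∏ i ∈ S, (1 - p i * k (c i))) * ∑' a, k a)) := by
      rw [← hinj.hasSum_iff]
      · refine (ih.mul_left (k (c j))).congr_fun ?_
        intro b
        exact h1 b
      · intro a ha
        simp only [hg]
        rw [if_neg]
        intro h
        obtain ⟨b, rfl⟩ := Ideal.dvd_iff_le.2 h
        exact ha ⟨b, rfl⟩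
    have h5 := ih.sub (h4.mul_left (p j))
    rw [Finset.prod_insert hj]
    have h6 : (∏ i ∈ S, (1 - p i * k (c i))) * ∑' a, k a -
        p j * (k (c j) * ((∏ i ∈ S, (1 - p i * k (c i))) * ∑' a, k a)) =
        (1 - p j * k (c j)) * (∏ i ∈ S, (1 - p i * k (c i))) * ∑' a, k a := by ring
    rw [h6] at h5
    refine h5.congr_fun ?_
    intro a
    rw [Finset.prod_insert hj]
    simp only [hg, hf]
    split_ifs <;> ring

section one

variable {K : Type} [Field K] [NumberField K]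

/-- The value of the Dirichlet series of h at the real number s. -/
noncomputable def Ls (h : Ideal (𝓞 K) → ℂ) (s : ℝ) : ℂ := ∑' a, tm h s a

theorem dd_two_le (v : Pl K) : 2 ≤ Ideal.absNorm v.asIdeal := by
  have h0 : Ideal.absNorm v.asIdeal ≠ 0 := fun h => v.ne_bot (Ideal.absNorm_eq_zero_iff.1 h)
  have h1 : Ideal.absNorm v.asIdeal ≠ 1 := fun h => v.isPrime.ne_top (Ideal.absNorm_eq_one_iff.1 h)
  omega

theorem dd_half (v : Pl K) (s : ℝ) (hs : 1 ≤ s) : (Ideal.absNorm v.asIdeal : ℝ) ^ (-s) ≤ 1 / 2 := by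
  have h2 : (2 : ℝ) ≤ (Ideal.absNorm v.asIdeal : ℝ) := by exact_mod_cast dd_two_le v
  calc (Ideal.absNorm v.asIdeal : ℝ) ^ (-s) ≤ (Ideal.absNorm v.asIdeal : ℝ) ^ (-1 : ℝ) :=
        Real.rpow_le_rpow_of_exponent_le (by linarith) (by linarith)
    _ = (Ideal.absNorm v.asIdeal : ℝ)⁻¹ := Real.rpow_neg_one _
    _ ≤ 1 / 2 := by
        rw [one_div]
        exact inv_anti₀ (by norm_num) h2

theorem dd_inj : Function.Injective fun v : Pl K => v.asIdeal := fun _ _ h =>
  HeightOneSpectrum.ext h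

theorem dd_summable (s : ℝ) (hs : 1 < s) :
    Summable fun v : Pl K => (Ideal.absNorm v.asIdeal : ℝ) ^ (-s) :=
  (ideal_summable (K := K) s hs).comp_injective dd_inj

theorem dd_norm_tm (h : Ideal (𝓞 K) → ℂ) (s : ℝ) (hs : s ≠ 0) (a : Ideal (𝓞 K)) :
    ‖tm h s a‖ = ‖h a‖ * (Ideal.absNorm a : ℝ) ^ (-s) := by
  unfold tm
  rw [norm_mul, Complex.norm_natCast_cpow_of_re_ne_zero _ (by simpa using hs)]
  simp

theorem dd_tm_summable (h : Ideal (𝓞 K) → ℂ) (hh : ∀ a, ‖h a‖ ≤ 1) (s : ℝ) (hs : 1 < s) :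
    Summable fun a => ‖tm h s a‖ := by
  refine Summable.of_nonneg_of_le (fun _ => norm_nonneg _) (fun a => ?_)
    (ideal_summable (K := K) s hs)
  rw [dd_norm_tm h s (by linarith) a]
  exact mul_le_of_le_one_left (by positivity) (hh a)

theorem dd_norm_pv (φ : Pl K → ℂˣ) (h : ∀ v, ‖(φ v : ℂ)‖ = 1) (a : Ideal (𝓞 K)) :
    ‖(pv φ a : ℂ)‖ = 1 := by
  unfold pv
  have h1 : ∀ s : Multiset ℂˣ, (∀ x ∈ s, ‖(x : ℂ)‖ = 1) → ‖((s.prod : ℂˣ) : ℂ)‖ = 1 := by
    intro s
    induction s using Multiset.induction_on with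
    | empty => simp
    | cons x s ih =>
      intro hx
      rw [Multiset.prod_cons, Units.val_mul, norm_mul, hx x (Multiset.mem_cons_self x s),
        ih fun y hy => hx y (Multiset.mem_cons_of_mem hy), one_mul]
  apply h1
  intro x hx
  rw [Multiset.mem_map] at hx
  obtain ⟨P, -, rfl⟩ := hx
  split_ifs with h2
  · exact h _
  · simp

theorem dd_norm_tI (f : Ideal (𝓞 K)) (φ : Pl K → ℂˣ) (h : ∀ v, ‖(φ v : ℂ)‖ = 1)
    (a : Ideal (𝓞 K)) : ‖tI f φ a‖ ≤ 1 := by
  by_cases h0 : a ≠ ⊥ ∧ IsCoprime a f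
  · rw [tI_apply f φ h0.1 h0.2, dd_norm_pv φ h a]
  · have : tI f φ a = 0 := if_neg h0
    rw [this, norm_zero]
    exact zero_le_one


/-- The value at an ideal all of whose primes have value 1. -/
theorem dd_pv_eq_one (φ : Pl K → ℂˣ) (a : Ideal (𝓞 K))
    (h : ∀ v : Pl K, a ≤ v.asIdeal → φ v = 1) : pv φ a = 1 := by
  unfold pv
  refine Multiset.prod_eq_one fun x hx => ?_
  rw [Multiset.mem_map] at hx
  obtain ⟨P, hP, rfl⟩ := hx
  split_ifs with h2
  · exact h _ (Ideal.dvd_iff_le.1 (UniqueFactorizationMonoid.dvd_of_mem_normalizedFactors hP))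
  · rfl

end one

theorem RD1_le {K : Type} [Field K] [NumberField K] (h : Ideal (𝓞 K) →*₀ ℂ)
    (hh : ∀ a, ‖h a‖ ≤ 1) (s : ℝ) (hs : 1 < s) (v : Pl K) : ‖tm h s v.asIdeal‖ ≤ 1 / 2 := by
  rw [dd_norm_tm h s (by linarith)]
  calc ‖h v.asIdeal‖ * (Ideal.absNorm v.asIdeal : ℝ) ^ (-s) ≤
      1 * (Ideal.absNorm v.asIdeal : ℝ) ^ (-s) := by
        gcongr
        exact hh _
    _ ≤ 1 / 2 := by
        rw [one_mul]
        exact dd_half v s hs.le

theorem RD1_ne {K : Type} [Field K] [NumberField K] (h : Ideal (𝓞 K) →*₀ ℂ)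
    (hh : ∀ a, ‖h a‖ ≤ 1) (s : ℝ) (hs : 1 < s) (v : Pl K) : 1 - tm h s v.asIdeal ≠ 0 := by
  intro h0
  have h1 := RD1_le h hh s hs v
  rw [← sub_eq_zero.1 h0, NormOneClass.norm_one] at h1
  norm_num at h1

open Filter Topology Classical in
theorem RD1_lim {K : Type} [Field K] [NumberField K] (h : Ideal (𝓞 K) →*₀ ℂ)
    (hh : ∀ a, ‖h a‖ ≤ 1) (s : ℝ) (hs : 1 < s) :
    Tendsto (fun S : Finset (Pl K) => (∏ v ∈ S, (1 - tm h s v.asIdeal)) * Ls h s) atTop (𝓝 1) := by
  set k : Ideal (𝓞 K) →*₀ ℂ := tmH h s with hk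
  have hkv : ∀ a, k a = tm h s a := fun _ => rfl
  have hsum : Summable fun a => ‖k a‖ := dd_tm_summable h hh s hs
  have h1 : ∀ S : Finset (Pl K), ∑' a, k a * ∏ v ∈ S, (if a ≤ v.asIdeal then (1 : ℂ) - 1 else 1) =
      (∏ v ∈ S, (1 - tm h s v.asIdeal)) * Ls h s := by
    intro S
    have h2 := H4_aux k hsum (fun v : Pl K => v.asIdeal) (fun v => v.isPrime) (fun v => v.ne_bot)
      dd_inj (fun _ => 1) S
    rw [h2.tsum_eq]
    simp only [one_mul]
    rfl
  have h3 : Tendsto (fun S : Finset (Pl K) =>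
      ∑' a, k a * ∏ v ∈ S, (if a ≤ v.asIdeal then (1 : ℂ) - 1 else 1)) atTop
      (𝓝 (∑' a : Ideal (𝓞 K), if a = 1 then (1 : ℂ) else 0)) := by
    refine tendsto_tsum_of_dominated_convergence hsum ?_ ?_
    · intro a
      by_cases ha : a = 1
      · subst ha
        rw [if_pos rfl]
        refine tendsto_const_nhds.congr fun S => ?_
        rw [map_one, one_mul]
        refine (Finset.prod_eq_one fun v _ => ?_).symm
        rw [if_neg]
        intro h4
        rw [Ideal.one_eq_top, top_le_iff] at h4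
        exact v.isPrime.ne_top h4
      · rw [if_neg ha]
        by_cases ha0 : a = ⊥
        · refine tendsto_const_nhds.congr fun S => ?_
          have h5 : k a = 0 := by
            rw [ha0]
            exact map_zero k
          rw [h5, zero_mul]
        · have h6 : a ≠ ⊤ := by
            rw [← Ideal.one_eq_top]
            exact ha
          obtain ⟨m, hm, ham⟩ := Ideal.exists_le_maximal a h6
          have hm0 : m ≠ ⊥ := by
            rintro rfl
            exact ha0 (le_bot_iff.1 ham)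
          refine tendsto_const_nhds.congr' ?_
          filter_upwards [eventually_ge_atTop {(⟨m, hm.isPrime, hm0⟩ : Pl K)}] with S hS
          have h7 : (⟨m, hm.isPrime, hm0⟩ : Pl K) ∈ S := hS (Finset.mem_singleton_self _)
          rw [Finset.prod_eq_zero h7, mul_zero]
          rw [if_pos ham, sub_self]
    · refine Eventually.of_forall fun S a => ?_
      rw [norm_mul, norm_prod]
      refine mul_le_of_le_one_right (norm_nonneg _) ?_
      refine Finset.prod_le_one (fun _ _ => norm_nonneg _) fun v _ => ?_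
      split_ifs
      · rw [sub_self, norm_zero]
        exact zero_le_one
      · rw [NormOneClass.norm_one]
  rw [tsum_ite_eq] at h3
  exact h3.congr h1

/-- Chunk RD1 (M), the Euler product. k = tmH h s (multiplicative, norm summable: dd_tm_summable). For a finset S of primes, H4_aux (or smooth_sum) with
index type Pl K, c v = v.asIdeal, p = 1 gives: the sum over a of k a * prod over v in S of (if a <= v then 0 else 1) is (prod over S of (1 - k v)) * L. When
S runs over the finsets (atTop) the left side tends to k 1 = 1: tendsto_tsum_of_dominated_convergence with the bound |k a|; for a = 1 = top all factors are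
1 (a prime is not top); for a = bot k a = 0; any other a is contained in a maximal ideal v (Ideal.exists_le_maximal), nonzero since a <> bot, so the term is 0 as soon
as v is in S (Filter.eventually_ge_atTop {v}). So (prod over S of (1 - k v)) * L tends to 1; hence L <> 0 and |prod over S of (1 - k v)| tends to 1 / |L| and
the sum over S of -log |1 - k v| = -log |prod| tends to log |L| (Real.log_prod needs 1 - k v <> 0: |k v| <= 1/2 by dd_norm_tm, dd_half; continuity of log at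
1/|L| > 0). HasSum is the convergence along the finsets. -/
theorem euler {K : Type} [Field K] [NumberField K] (h : Ideal (𝓞 K) →*₀ ℂ)
    (hh : ∀ a, ‖h a‖ ≤ 1) (s : ℝ) (hs : 1 < s) :
    Ls h s ≠ 0 ∧
      HasSum (fun v : Pl K => -Real.log ‖1 - tm h s v.asIdeal‖) (Real.log ‖Ls h s‖) := by
  have h1 := RD1_lim h hh s hs
  have hL : Ls h s ≠ 0 := by
    intro h0
    rw [h0] at h1
    simp only [mul_zero] at h1
    exact zero_ne_one (tendsto_nhds_unique tendsto_const_nhds h1)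
  refine ⟨hL, ?_⟩
  have h2 : Filter.Tendsto (fun S : Finset (Pl K) => ∏ v ∈ S, (1 - tm h s v.asIdeal))
      Filter.atTop (nhds (Ls h s)⁻¹) := by
    have h3 := h1.mul_const (Ls h s)⁻¹
    rw [one_mul] at h3
    refine h3.congr fun S => ?_
    rw [mul_assoc, mul_inv_cancel₀ hL, mul_one]
  have h4 := (h2.norm.log (norm_ne_zero_iff.2 (inv_ne_zero hL))).neg
  rw [norm_inv, Real.log_inv, neg_neg] at h4
  unfold HasSum
  rw [SummationFilter.unconditional_filter]
  refine h4.congr fun S => ?_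
  rw [norm_prod, Real.log_prod fun v _ => norm_ne_zero_iff.2 (RD1_ne h hh s hs v),
    Finset.sum_neg_distrib]

theorem RD2_re {K : Type} [Field K] [NumberField K] (h : Ideal (𝓞 K) →*₀ ℂ) (s : ℝ)
    (a : Ideal (𝓞 K)) : (tm h s a).re = (h a).re * (Ideal.absNorm a : ℝ) ^ (-s) := by
  unfold tm
  have h1 : ((Ideal.absNorm a : ℂ) ^ (-(s : ℂ))) = (((Ideal.absNorm a : ℝ) ^ (-s) : ℝ) : ℂ) := by
    rw [Complex.ofReal_cpow (Nat.cast_nonneg _)]
    push_cast
    rfl
  rw [h1, Complex.re_mul_ofReal]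

theorem RD2_term {K : Type} [Field K] [NumberField K] (h : Ideal (𝓞 K) →*₀ ℂ)
    (hh : ∀ a, ‖h a‖ ≤ 1) (s : ℝ) (hs : 1 < s) (v : Pl K) :
    |(h v.asIdeal).re * (Ideal.absNorm v.asIdeal : ℝ) ^ (-s) -
      (-Real.log ‖1 - tm h s v.asIdeal‖)| ≤ (Ideal.absNorm v.asIdeal : ℝ) ^ (-2 : ℝ) := by
  have h0 := RD1_le h hh s hs v
  set z := tm h s v.asIdeal with hz
  have h1 : ‖Complex.log (1 + -z) - -z‖ ≤ ‖z‖ ^ 2 := by
    have h2 := Complex.norm_log_one_add_sub_self_le (z := -z) (by rw [norm_neg]; linarith)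
    rw [norm_neg] at h2
    refine h2.trans ?_
    have h3 : (1 - ‖z‖)⁻¹ ≤ 2 := by
      rw [inv_le_comm₀ (by linarith) (by norm_num)]
      linarith
    have h4 : 0 ≤ ‖z‖ ^ 2 := sq_nonneg _
    nlinarith
  have h5 : (h v.asIdeal).re * (Ideal.absNorm v.asIdeal : ℝ) ^ (-s) -
      (-Real.log ‖1 - z‖) = (Complex.log (1 + -z) - -z).re := by
    rw [← RD2_re, Complex.sub_re, Complex.log_re, ← sub_eq_add_neg, Complex.neg_re]
    ring
  rw [h5]
  refine (Complex.abs_re_le_norm _).trans (h1.trans ?_)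
  have h6 : (0 : ℝ) ≤ (Ideal.absNorm v.asIdeal : ℝ) := Nat.cast_nonneg _
  have h2 : (2 : ℝ) ≤ (Ideal.absNorm v.asIdeal : ℝ) := by exact_mod_cast dd_two_le v
  have h7 : ‖z‖ ≤ (Ideal.absNorm v.asIdeal : ℝ) ^ (-s) := by
    rw [hz, dd_norm_tm h s (by linarith)]
    exact mul_le_of_le_one_left (by positivity) (hh _)
  calc ‖z‖ ^ 2 ≤ ((Ideal.absNorm v.asIdeal : ℝ) ^ (-s)) ^ 2 :=
        pow_le_pow_left₀ (norm_nonneg _) h7 2
    _ = (Ideal.absNorm v.asIdeal : ℝ) ^ (-s * 2) := by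
        rw [Real.rpow_mul h6]
        norm_num
    _ ≤ (Ideal.absNorm v.asIdeal : ℝ) ^ (-2 : ℝ) :=
        Real.rpow_le_rpow_of_exponent_le (by linarith) (by linarith)

/-- Chunk RD2 (S), logarithms. With z = tm h s v, |z| <= Nv^(-s) <= 1/2 (dd_norm_tm, dd_half): |-log |1 - z| - Re z| <= |log(1 - z) + z| <= |z|^2
(real part of the complex logarithm, Complex.log_re; Complex.norm_log_one_add_sub_self_le with z replaced by -z) and |z|^2 <= Nv^(-2s) <= Nv^(-2).
Re z = Re (h v) * Nv^(-s) (the power is a positive real number). Sum over v: euler, dd_summable; C is the sum of Nv^(-2) (tsum of a difference,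
norm of a tsum <= tsum of the bounds). Both series converge: Re (h v) Nv^(-s) is bounded by Nv^(-s). -/
theorem log_cmp (K : Type) [Field K] [NumberField K] : ∃ C : ℝ, ∀ h : Ideal (𝓞 K) →*₀ ℂ,
    (∀ a, ‖h a‖ ≤ 1) → ∀ s ∈ Set.Ioc (1 : ℝ) 2,
      |∑' v : Pl K, (h v.asIdeal).re * (Ideal.absNorm v.asIdeal : ℝ) ^ (-s) -
        Real.log ‖Ls h s‖| ≤ C := by
  refine ⟨∑' v : Pl K, (Ideal.absNorm v.asIdeal : ℝ) ^ (-2 : ℝ), fun h hh s hs => ?_⟩
  have h2 : Summable fun v : Pl K => (Ideal.absNorm v.asIdeal : ℝ) ^ (-2 : ℝ) :=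
    dd_summable 2 (by norm_num)
  have h3 := (euler h hh s hs.1).2
  have h4 : Summable fun v : Pl K => (h v.asIdeal).re * (Ideal.absNorm v.asIdeal : ℝ) ^ (-s) := by
    refine Summable.of_norm_bounded (dd_summable (K := K) s hs.1) fun v => ?_
    rw [norm_mul, Real.norm_eq_abs, Real.norm_of_nonneg (by positivity)]
    exact mul_le_of_le_one_left (by positivity) ((Complex.abs_re_le_norm _).trans (hh _))
  rw [← h3.tsum_eq, ← h4.tsum_sub h3.summable, ← Real.norm_eq_abs]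
  exact tsum_of_norm_bounded h2.hasSum fun v => RD2_term h hh s hs.1 v

theorem RD3_zeta {K : Type} [Field K] [NumberField K] (s : ℝ) (hs : 1 < s) :
    dedekindZeta K s = ((∑' a : Ideal (𝓞 K), (Ideal.absNorm a : ℝ) ^ (-s) : ℝ) : ℂ) := by
  have h0 := ideal_summable (K := K) s hs
  have h1 : HasSum (fun p : Σ n : ℕ, {a : Ideal (𝓞 K) // Ideal.absNorm a = n} =>
      (((Ideal.absNorm p.2.1 : ℝ) ^ (-s) : ℝ) : ℂ))
      ((∑' a : Ideal (𝓞 K), (Ideal.absNorm a : ℝ) ^ (-s) : ℝ) : ℂ) := by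
    have h2 := (Equiv.sigmaFiberEquiv (fun a : Ideal (𝓞 K) => Ideal.absNorm a)).hasSum_iff
      (f := fun a : Ideal (𝓞 K) => (((Ideal.absNorm a : ℝ) ^ (-s) : ℝ) : ℂ))
      (a := ((∑' a : Ideal (𝓞 K), (Ideal.absNorm a : ℝ) ^ (-s) : ℝ) : ℂ))
    exact h2.2 (Complex.hasSum_ofReal.2 h0.hasSum)
  have h2 : HasSum (LSeries.term (fun n => (Nat.card {I : Ideal (𝓞 K) // Ideal.absNorm I = n} : ℂ)) s)
      ((∑' a : Ideal (𝓞 K), (Ideal.absNorm a : ℝ) ^ (-s) : ℝ) : ℂ) := by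
    refine h1.sigma fun n => ?_
    have hfin : Finite {a : Ideal (𝓞 K) // Ideal.absNorm a = n} :=
      Ideal.finite_setOfPred_absNorm_eq n
    let _ : Fintype {a : Ideal (𝓞 K) // Ideal.absNorm a = n} := Fintype.ofFinite _
    have h3 : LSeries.term (fun n => (Nat.card {I : Ideal (𝓞 K) // Ideal.absNorm I = n} : ℂ)) s n =
        ∑ a : {a : Ideal (𝓞 K) // Ideal.absNorm a = n},
          (((Ideal.absNorm a.1 : ℝ) ^ (-s) : ℝ) : ℂ) := by
      rw [Finset.sum_congr rfl (g := fun _ => (((n : ℝ) ^ (-s) : ℝ) : ℂ))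
        (fun a _ => by rw [a.2]), Finset.sum_const, Finset.card_univ, ← Nat.card_eq_fintype_card,
        nsmul_eq_mul]
      rcases Nat.eq_zero_or_pos n with rfl | hn
      · rw [LSeries.term_zero, Nat.cast_zero, Real.zero_rpow (by linarith), Complex.ofReal_zero,
          mul_zero]
      · rw [LSeries.term_of_ne_zero (by omega), div_eq_mul_inv, ← Complex.cpow_neg,
          Complex.ofReal_cpow (Nat.cast_nonneg _)]
        push_cast
        rfl
    rw [h3]
    exact hasSum_fintype _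
  exact h2.tsum_eq

theorem RD3_one {K : Type} [Field K] [NumberField K] (s : ℝ) (hs : 1 < s) :
    1 ≤ ∑' a : Ideal (𝓞 K), (Ideal.absNorm a : ℝ) ^ (-s) := by
  have h1 := (ideal_summable (K := K) s hs).le_tsum (1 : Ideal (𝓞 K)) fun _ _ => by positivity
  rw [map_one, Nat.cast_one, Real.one_rpow] at h1
  exact h1

theorem RD3_anti {K : Type} [Field K] [NumberField K] {s t : ℝ} (hs : 1 < s) (hst : s ≤ t) :
    ∑' a : Ideal (𝓞 K), (Ideal.absNorm a : ℝ) ^ (-t) ≤
      ∑' a : Ideal (𝓞 K), (Ideal.absNorm a : ℝ) ^ (-s) := by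
  refine Summable.tsum_le_tsum (fun a => ?_) (ideal_summable (K := K) t (by linarith))
    (ideal_summable (K := K) s hs)
  rcases Nat.eq_zero_or_pos (Ideal.absNorm a) with h0 | h0
  · rw [h0, Nat.cast_zero, Real.zero_rpow (by linarith), Real.zero_rpow (by linarith)]
  · have h1 : (1 : ℝ) ≤ (Ideal.absNorm a : ℝ) := by exact_mod_cast h0
    exact Real.rpow_le_rpow_of_exponent_le h1 (by linarith)

open Filter Topology in
theorem RD3_bd (K : Type) [Field K] [NumberField K] : ∃ A B : ℝ, 0 < A ∧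
    ∀ s ∈ Set.Ioc (1 : ℝ) 2,
      A ≤ (s - 1) * ∑' a : Ideal (𝓞 K), (Ideal.absNorm a : ℝ) ^ (-s) ∧
      (s - 1) * ∑' a : Ideal (𝓞 K), (Ideal.absNorm a : ℝ) ^ (-s) ≤ B := by
  have hκ := dedekindZeta_residue_pos K
  set κ := dedekindZeta_residue K with hk
  have h1 : Tendsto (fun s : ℝ => (s - 1) * ∑' a : Ideal (𝓞 K), (Ideal.absNorm a : ℝ) ^ (-s))
      (𝓝[>] 1) (𝓝 κ) := by
    have h2 := (Complex.continuous_re.tendsto _).comp (tendsto_sub_one_mul_dedekindZeta_nhdsGT K)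
    rw [Complex.ofReal_re] at h2
    refine h2.congr' ?_
    filter_upwards [self_mem_nhdsWithin] with s hs
    show ((s - 1 : ℂ) * dedekindZeta K s).re = _
    rw [RD3_zeta s hs]
    rw [show ((s : ℂ) - 1) = ((s - 1 : ℝ) : ℂ) by push_cast; rfl, ← Complex.ofReal_mul,
      Complex.ofReal_re]
  have h3 : ∀ᶠ s in 𝓝[>] (1 : ℝ),
      (s - 1) * ∑' a : Ideal (𝓞 K), (Ideal.absNorm a : ℝ) ^ (-s) ∈ Set.Icc (κ / 2) (2 * κ) :=
    h1 (Icc_mem_nhds (by linarith) (by linarith))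
  obtain ⟨u, hu, hu2⟩ := (mem_nhdsGT_iff_exists_Ioo_subset).1 h3
  have hu1 : (1 : ℝ) < u := hu
  obtain ⟨d, hd⟩ : ∃ d, d = min ((u - 1) / 2) 1 := ⟨_, rfl⟩
  have hd0 : 0 < d := by rw [hd]; exact lt_min (by linarith) one_pos
  have hdu : d < u - 1 := by rw [hd]; exact (min_le_left _ _).trans_lt (by linarith)
  refine ⟨min (κ / 2) d, max (2 * κ)
    (∑' a : Ideal (𝓞 K), (Ideal.absNorm a : ℝ) ^ (-(1 + d))), lt_min (by linarith) hd0,
    fun s hs => ?_⟩
  have hs1 : 1 < s := hs.1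
  have hs2 : s ≤ 2 := hs.2
  by_cases hsd : s < 1 + d
  · have h4 : s ∈ Set.Ioo 1 u := ⟨hs1, by linarith⟩
    have h5 := hu2 h4
    exact ⟨(min_le_left _ _).trans h5.1, h5.2.trans (le_max_left _ _)⟩
  · push Not at hsd
    have h6 := RD3_one (K := K) s hs1
    have h7 := RD3_anti (K := K) (s := 1 + d) (t := s) (by linarith) hsd
    constructor
    · refine (min_le_right _ _).trans ?_
      nlinarith
    · refine le_trans ?_ (le_max_right _ _)
      nlinarith

/-- Chunk RD3 (M), the pole of the zeta function. Z s = sum over the ideals of Na^(-s) (the zero ideal contributes 0). For s > 1, Z s (as a complex number) is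
dedekindZeta K s, the L-series of the numbers of ideals of norm n (sum over the fibres of the norm; see the proof of ideal_summable in H55N/H3.lean, or AI_LSeries
in H55N/H6.lean for the pattern), and (s - 1) * dedekindZeta K s tends to the residue, which is positive (NumberField.tendsto_sub_one_mul_dedekindZeta_nhdsGT,
NumberField.dedekindZeta_residue_pos). Z is antitone on s > 1 (each term is, Na >= 1 or Na = 0; Summable.tsum_le_tsum) and Z s >= 1 (the term of the unit ideal). Near 1: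
there is d in (0,1) with residue/2 <= (s-1) Z s <= 2 residue for s in (1, 1 + d); for s in [1 + d, 2]: d * 1 <= (s - 1) Z s <= Z (1 + d). So
(s - 1) Z s lies in a fixed interval [A, B], 0 < A, and log Z s - log (1/(s-1)) = log ((s - 1) Z s) lies in [log A, log B]. -/
theorem zeta_log (K : Type) [Field K] [NumberField K] : ∃ C : ℝ, ∀ s ∈ Set.Ioc (1 : ℝ) 2,
    0 < ∑' a : Ideal (𝓞 K), (Ideal.absNorm a : ℝ) ^ (-s) ∧
    |Real.log (∑' a : Ideal (𝓞 K), (Ideal.absNorm a : ℝ) ^ (-s)) - Real.log (1 / (s - 1))| ≤ C := by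
  obtain ⟨A, B, hA, hAB⟩ := RD3_bd K
  refine ⟨|Real.log A| + |Real.log B|, fun s hs => ?_⟩
  have h1 := RD3_one (K := K) s hs.1
  have hs1 : 0 < s - 1 := sub_pos.2 hs.1
  refine ⟨by linarith, ?_⟩
  obtain ⟨h2, h3⟩ := hAB s hs
  rw [one_div, Real.log_inv, sub_neg_eq_add, add_comm, ← Real.log_mul hs1.ne' (by linarith)]
  have h4 := Real.log_le_log hA h2
  have h5 := Real.log_le_log (hA.trans_le h2) h3
  rw [abs_le]
  constructor
  · linarith [neg_abs_le (Real.log A), abs_nonneg (Real.log B)]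
  · linarith [le_abs_self (Real.log B), abs_nonneg (Real.log A)]

/-- The pole of the zeta function. -/
theorem zeta_pole (K : Type) [Field K] [NumberField K] : ∃ B : ℝ, ∀ s ∈ Set.Ioc (1 : ℝ) 2,
    (s - 1) * ∑' a : Ideal (𝓞 K), (Ideal.absNorm a : ℝ) ^ (-s) ≤ B := by
  obtain ⟨A, B, hA, hAB⟩ := RD3_bd K
  exact ⟨B, fun s hs => (hAB s hs).2⟩

end CFTZ
end

-- from Lib.CFT.YDefs
section

/-! # CFT, module Y: L-series of Hecke characters beyond the abscissa of convergence (definitions)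

`dg K`: the degree. `house x`: the largest absolute value of a conjugate (Mathlib). `nm x`: the absolute value
of the norm. `Cl δ x y`: `y` is close to `x` in every embedding, with relative error `δ`. `LL G`: `G` is
Lipschitz for this relation. `Bd G`: `G` is bounded. `Rg A x`: `x ≠ 0` and the absolute values of all conjugates of
`x` are comparable. `TP x`: `x ≠ 0` is positive at all real embeddings. `RU m`: the totally positive units
`≡ 1` modulo `m`. `Fs g s x = g x * nm x ^ (-s)`. `HCh m ψ χ`: `χ` is a (unitary) Hecke character modulo `m` with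
values `ψ x` at the principal ideals `(x)`, `x ≡ 1` modulo `m` totally positive. `Lc χ s`: its L-series. -/

open NumberField

namespace CFTY

variable {K : Type} [Field K] [NumberField K]

variable (K) in
/-- the degree of K -/
noncomputable def dg : ℕ := Module.finrank ℚ K

/-- the absolute value of the norm -/
noncomputable def nm (x : K) : ℝ := |((Algebra.norm ℚ x : ℚ) : ℝ)|

/-- relative closeness in all embeddings -/
def Cl (δ : ℝ) (x y : K) : Prop := ∀ σ : K →+* ℂ, ‖σ y - σ x‖ ≤ δ * ‖σ x‖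

/-- Lipschitz with respect to relative closeness -/
def LL (G : K → ℂ) : Prop := ∃ L : ℝ, 0 ≤ L ∧ ∀ (δ : ℝ) (x y : K), 0 ≤ δ → δ ≤ 1 / 2 → x ≠ 0 →
  Cl δ x y → ‖G y - G x‖ ≤ L * δ

/-- bounded -/
def Bd (G : K → ℂ) : Prop := ∃ B : ℝ, 0 ≤ B ∧ ∀ x, ‖G x‖ ≤ B

/-- the region where all conjugates are comparable -/
def Rg (A : ℝ) (x : K) : Prop := x ≠ 0 ∧ house x ^ dg K ≤ A * nm x

/-- nonzero and totally positive -/
def TP (x : K) : Prop := x ≠ 0 ∧ ∀ φ : K →+* ℝ, 0 < φ x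

theorem TP.mul {x y : K} (hx : TP x) (hy : TP y) : TP (x * y) :=
  ⟨mul_ne_zero hx.1 hy.1, fun φ => by rw [map_mul]; exact mul_pos (hx.2 φ) (hy.2 φ)⟩

theorem TP.inv {x : K} (hx : TP x) : TP x⁻¹ :=
  ⟨inv_ne_zero hx.1, fun φ => by rw [map_inv₀]; exact inv_pos.2 (hx.2 φ)⟩

theorem TP_one : TP (1 : K) := ⟨one_ne_zero, fun φ => by rw [map_one]; exact one_pos⟩

/-- the totally positive units which are 1 modulo m -/
def RU (m : Ideal (𝓞 K)) : Subgroup (𝓞 K)ˣ where
  carrier := {u | (u : 𝓞 K) - 1 ∈ m ∧ TP ((u : 𝓞 K) : K)}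
  mul_mem' := by
    rintro u v ⟨h1, h2⟩ ⟨h3, h4⟩
    refine ⟨?_, ?_⟩
    · have e : ((u * v : (𝓞 K)ˣ) : 𝓞 K) - 1 = ((u : 𝓞 K) - 1) * v + ((v : 𝓞 K) - 1) := by
        rw [Units.val_mul]
        ring
      rw [e]
      exact m.add_mem (m.mul_mem_right _ h1) h3
    · have e : (((u * v : (𝓞 K)ˣ) : 𝓞 K) : K) = ((u : 𝓞 K) : K) * ((v : 𝓞 K) : K) := rfl
      rw [e]
      exact h2.mul h4
  one_mem' := by
    refine ⟨?_, ?_⟩
    · rw [Units.val_one, sub_self]
      exact m.zero_mem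
    · exact TP_one
  inv_mem' := by
    rintro u ⟨h1, h2⟩
    refine ⟨?_, ?_⟩
    · have e : ((u⁻¹ : (𝓞 K)ˣ) : 𝓞 K) - 1 = -(((u : 𝓞 K) - 1) * ((u⁻¹ : (𝓞 K)ˣ) : 𝓞 K)) := by
        have h : (u : 𝓞 K) * ((u⁻¹ : (𝓞 K)ˣ) : 𝓞 K) = 1 := Units.mul_inv u
        linear_combination h
      rw [e]
      exact m.neg_mem (m.mul_mem_right _ h1)
    · have h : ((u : 𝓞 K) : K) * (((u⁻¹ : (𝓞 K)ˣ) : 𝓞 K) : K) = 1 :=
        congrArg (algebraMap (𝓞 K) K) (Units.mul_inv u)
      have e : (((u⁻¹ : (𝓞 K)ˣ) : 𝓞 K) : K) = ((u : 𝓞 K) : K)⁻¹ := (inv_eq_of_mul_eq_one_right h).symm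
      rw [e]
      exact h2.inv

theorem mem_RU {m : Ideal (𝓞 K)} {u : (𝓞 K)ˣ} : u ∈ RU m ↔ (u : 𝓞 K) - 1 ∈ m ∧ TP ((u : 𝓞 K) : K) := Iff.rfl

/-- the function which is summed over the lattice -/
noncomputable def Fs (g : K → ℂ) (s : ℂ) (x : K) : ℂ := g x * (nm x : ℂ) ^ (-s)

/-- the principal ideals (x), x = 1 mod m totally positive -/
def PrI (m a : Ideal (𝓞 K)) : Prop := ∃ x : 𝓞 K, x - 1 ∈ m ∧ TP (x : K) ∧ a = Ideal.span {x}

/-- unitary Hecke characters modulo m with infinity type ψ -/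
structure HCh (m : Ideal (𝓞 K)) (ψ : K → ℂ) (χ : Ideal (𝓞 K) →*₀ ℂ) : Prop where
  zero : ∀ a, ¬ IsCoprime a m → χ a = 0
  norm : ∀ a, a ≠ ⊥ → IsCoprime a m → ‖χ a‖ = 1
  ray : ∀ x : 𝓞 K, x - 1 ∈ m → TP (x : K) → χ (Ideal.span {x}) = ψ x

/-- the L-series -/
noncomputable def Lc (χ : Ideal (𝓞 K) →*₀ ℂ) (s : ℂ) : ℂ := ∑' a, CFTZ.tm χ s a

/-- a system of representatives of the ray classes: every ideal prime to m becomes PrI after multiplication with
exactly one member of T -/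
def Reps (m : Ideal (𝓞 K)) (T : Finset (Ideal (𝓞 K))) : Prop :=
  (∀ c ∈ T, c ≠ ⊥ ∧ IsCoprime c m) ∧
    ∀ a : Ideal (𝓞 K), a ≠ ⊥ → IsCoprime a m → ∃! c, c ∈ T ∧ PrI m (a * c)

variable (K) in
/-- the half plane of analyticity -/
def HP : Set ℂ := {s | 1 - 1 / (dg K : ℝ) < s.re}

/-- the infinity types -/
noncomputable def typ (n : (K →+* ℂ) → ℤ) (x : K) : ℂ := ∏ σ : K →+* ℂ, (σ x / (‖σ x‖ : ℂ)) ^ n σ

open Classical in
/-- the cut-off function -/
noncomputable def ph (C : ℝ) (x : K) : ℝ := if x = 0 then 0 else max 0 (2 * C - house x ^ dg K / nm x)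

/-- the sum of the cut-off function over a group of units -/
noncomputable def Wt (C : ℝ) (E : Subgroup (𝓞 K)ˣ) (x : K) : ℝ :=
  ∑' u : E, ph C (((u : (𝓞 K)ˣ) : 𝓞 K) * x)

end CFTY
end

-- from Lib.CFT.Y01
section

/-! # CFT module Y, chunk Y01: norm and house -/

open NumberField

namespace CFTY

variable {K : Type} [Field K] [NumberField K]

/-- PROOF. `Algebra.norm_eq_prod_embeddings` (over `K →ₐ[ℚ] ℂ`; `RingHom.equivRatAlgHom`), `norm_prod`. -/
theorem nm_eq (x : K) : nm x = ∏ σ : K →+* ℂ, ‖σ x‖ := by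
  classical
  unfold nm
  have h := congr_arg (‖·‖) (Algebra.norm_eq_prod_embeddings ℚ ℂ x)
  rw [norm_prod, ← Fintype.prod_equiv (RingHom.equivRatAlgHom K ℂ) (fun f => ‖f x‖)
      (fun φ => ‖φ x‖) fun _ => by simp [RingHom.equivRatAlgHom_apply]] at h
  rw [← h, eq_ratCast, Complex.norm_ratCast]

theorem nm_mul (x y : K) : nm (x * y) = nm x * nm y := by
  unfold nm
  rw [map_mul, Rat.cast_mul, abs_mul]

theorem nm_nonneg (x : K) : 0 ≤ nm x := abs_nonneg _

theorem nm_pos {x : K} (hx : x ≠ 0) : 0 < nm x := by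
  unfold nm
  rw [abs_pos]
  exact_mod_cast Algebra.norm_ne_zero_iff.2 hx


/-- Mathlib: `NumberField.norm_norm_le_norm_mul_house_pow`. -/
theorem nm_le (x : K) (σ : K →+* ℂ) : nm x ≤ ‖σ x‖ * house x ^ (dg K - 1) := by
  have h := NumberField.norm_norm_le_norm_mul_house_pow x σ
  rw [← Rat.norm_cast_real, Real.norm_eq_abs] at h
  exact h

theorem y01_dg_pos : 1 ≤ dg K := by
  unfold dg
  exact Module.finrank_pos

/-- From `nm_le` and `norm_embedding_le_house` (`1 ≤ dg K`). -/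
theorem nm_le_house (x : K) : nm x ≤ house x ^ dg K := by
  obtain ⟨σ⟩ : Nonempty (K →+* ℂ) := inferInstance
  have h1 := nm_le x σ
  have h2 := NumberField.norm_embedding_le_house x σ
  have h3 : (1 : ℕ) ≤ dg K := y01_dg_pos
  calc nm x ≤ ‖σ x‖ * house x ^ (dg K - 1) := h1
    _ ≤ house x * house x ^ (dg K - 1) :=
        mul_le_mul_of_nonneg_right h2 (pow_nonneg (NumberField.house_nonneg x) _)
    _ = house x ^ dg K := by
        rw [← pow_succ', Nat.sub_add_cancel h3]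

/-- The norm of a unit is 1 or -1 (`NumberField.isUnit_iff_norm`). -/
theorem nm_unit (u : (𝓞 K)ˣ) : nm (((u : (𝓞 K)ˣ) : 𝓞 K) : K) = 1 := by
  have h := NumberField.isUnit_iff_norm.1 u.isUnit
  unfold nm
  rw [RingOfIntegers.coe_norm] at h
  have h2 : |((Algebra.norm ℚ (((u : (𝓞 K)ˣ) : 𝓞 K) : K) : ℚ) : ℝ)| =
      ((|Algebra.norm ℚ (((u : (𝓞 K)ˣ) : 𝓞 K) : K)| : ℚ) : ℝ) := by
    rw [Rat.cast_abs]
  rw [h2, h, Rat.cast_one]

theorem y01_nm_int (x : 𝓞 K) : nm (x : K) = |((Algebra.norm ℤ x : ℤ) : ℝ)| := by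
  unfold nm
  have h : (Algebra.norm ℚ (x : K) : ℚ) = ((Algebra.norm ℤ x : ℤ) : ℚ) :=
    (Algebra.coe_norm_int x).symm
  rw [h, Rat.cast_intCast]

/-- The norm of an algebraic integer is an integer, not 0. -/
theorem one_le_nm {x : 𝓞 K} (hx : x ≠ 0) : 1 ≤ nm (x : K) := by
  rw [y01_nm_int]
  have h := Int.one_le_abs (Algebra.norm_ne_zero_iff.mpr hx : Algebra.norm ℤ x ≠ 0)
  exact_mod_cast h

/-- `Ideal.absNorm_span_singleton`. -/
theorem absNorm_span (x : 𝓞 K) : ((Ideal.absNorm (Ideal.span {x}) : ℕ) : ℝ) = nm (x : K) := by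
  rw [Ideal.absNorm_span_singleton, y01_nm_int, Nat.cast_natAbs, Int.cast_abs]

theorem dg_pos : 1 ≤ dg K := y01_dg_pos

theorem house_pos {x : K} (hx : x ≠ 0) : 0 < house x := by
  obtain ⟨σ⟩ : Nonempty (K →+* ℂ) := inferInstance
  have h1 : 0 < ‖σ x‖ := norm_pos_iff.2 ((map_ne_zero σ).2 hx)
  exact h1.trans_le (NumberField.norm_embedding_le_house x σ)

end CFTY
end

-- from Lib.CFT.Y02
section

/-! # CFT module Y, chunk Y02: closeness -/

open NumberField

namespace CFTY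

variable {K : Type} [Field K] [NumberField K]

theorem cl_lower {δ : ℝ} {x y : K} (h : Cl δ x y) (σ : K →+* ℂ) : (1 - δ) * ‖σ x‖ ≤ ‖σ y‖ := by
  have h1 := h σ
  have h2 : ‖σ x‖ ≤ ‖σ y‖ + ‖σ y - σ x‖ := by
    have := norm_sub_le (σ y) (σ y - σ x)
    rwa [sub_sub_cancel] at this
  linarith

theorem cl_upper {δ : ℝ} {x y : K} (h : Cl δ x y) (σ : K →+* ℂ) : ‖σ y‖ ≤ (1 + δ) * ‖σ x‖ := by
  have h1 := h σ
  have h2 : ‖σ y‖ ≤ ‖σ y - σ x‖ + ‖σ x‖ := by
    have := norm_add_le (σ y - σ x) (σ x)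
    rwa [sub_add_cancel] at this
  linarith

theorem cl_ne {δ : ℝ} {x y : K} (hδ : δ ≤ 1 / 2) (hx : x ≠ 0) (h : Cl δ x y) : y ≠ 0 := by
  obtain ⟨σ⟩ : Nonempty (K →+* ℂ) := inferInstance
  have h1 : 0 < ‖σ x‖ := norm_pos_iff.2 ((map_ne_zero σ).2 hx)
  have h2 := cl_lower h σ
  intro hy
  rw [hy, map_zero, norm_zero] at h2
  have h3 : 0 < (1 - δ) * ‖σ x‖ := mul_pos (by linarith) h1
  linarith

theorem cl_mul {δ : ℝ} {x y : K} (h : Cl δ x y) (a : K) : Cl δ (a * x) (a * y) := by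
  intro σ
  rw [map_mul, map_mul, ← mul_sub, norm_mul, norm_mul]
  calc ‖σ a‖ * ‖σ y - σ x‖ ≤ ‖σ a‖ * (δ * ‖σ x‖) :=
        mul_le_mul_of_nonneg_left (h σ) (norm_nonneg _)
    _ = δ * (‖σ a‖ * ‖σ x‖) := by ring

theorem y02_house_le {x : K} {c : ℝ} (h : ∀ σ : K →+* ℂ, ‖σ x‖ ≤ c) : house x ≤ c := by
  rw [NumberField.house_eq_sup']
  have h1 : ∀ σ : K →+* ℂ, (‖σ x‖₊ : ℝ) ≤ c := h
  have hc : 0 ≤ c := by
    obtain ⟨σ⟩ : Nonempty (K →+* ℂ) := inferInstance
    exact (norm_nonneg _).trans (h σ)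
  have h2 : Finset.univ.sup' Finset.univ_nonempty (fun φ : K →+* ℂ => ‖φ x‖₊) ≤
      (⟨c, hc⟩ : NNReal) := by
    refine Finset.sup'_le _ _ (fun σ _ => ?_)
    exact h σ
  exact h2

/-- `‖σ x‖ ≤ ‖σ y‖ / (1 - δ) ≤ house y / (1 - δ)`. -/
theorem cl_house_lower {δ : ℝ} {x y : K} (hδ : δ ≤ 1 / 2) (h : Cl δ x y) :
    (1 - δ) * house x ≤ house y := by
  have h0 : 0 < 1 - δ := by linarith
  have h1 : house x ≤ house y / (1 - δ) := by
    refine y02_house_le (fun σ => ?_)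
    rw [le_div_iff₀ h0, mul_comm]
    exact (cl_lower h σ).trans (NumberField.norm_embedding_le_house y σ)
  rw [le_div_iff₀ h0] at h1
  linarith

theorem cl_house_upper {δ : ℝ} {x y : K} (h0 : 0 ≤ δ) (h : Cl δ x y) :
    house y ≤ (1 + δ) * house x := by
  refine y02_house_le (fun σ => ?_)
  exact (cl_upper h σ).trans (mul_le_mul_of_nonneg_left (NumberField.norm_embedding_le_house x σ)
    (by linarith))

theorem y02_card : (Finset.univ : Finset (K →+* ℂ)).card = dg K := by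
  rw [Finset.card_univ]
  exact NumberField.Embeddings.card K ℂ

/-- `nm_eq`, `Finset.prod_le_prod`; the number of embeddings is `dg K` (`Embeddings.card`). -/
theorem cl_nm_lower {δ : ℝ} {x y : K} (hδ : δ ≤ 1 / 2) (h : Cl δ x y) :
    (1 - δ) ^ dg K * nm x ≤ nm y := by
  rw [nm_eq, nm_eq, ← y02_card (K := K), ← Finset.prod_const, ← Finset.prod_mul_distrib]
  refine Finset.prod_le_prod (fun σ _ => mul_nonneg (by linarith) (norm_nonneg _))
    (fun σ _ => cl_lower h σ)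

theorem cl_nm_upper {δ : ℝ} {x y : K} (h0 : 0 ≤ δ) (h : Cl δ x y) :
    nm y ≤ (1 + δ) ^ dg K * nm x := by
  rw [nm_eq, nm_eq, ← y02_card (K := K), ← Finset.prod_const, ← Finset.prod_mul_distrib]
  refine Finset.prod_le_prod (fun σ _ => norm_nonneg _)
    (fun σ _ => cl_upper h σ)

/-- PROOF. `house x ^ d ≤ A nm x ≤ A ‖σ x‖ house x ^ (d - 1)` (`nm_le`), divide by `house x ^ (d - 1)`. -/
theorem rg_house {A : ℝ} {x : K} (hA : 0 ≤ A) (h : Rg A x) (σ : K →+* ℂ) : house x ≤ A * ‖σ x‖ := by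
  obtain ⟨hx, h1⟩ := h
  have hp := house_pos hx
  have h2 := nm_le x σ
  have h3 : (1 : ℕ) ≤ dg K := dg_pos
  have h4 : house x * house x ^ (dg K - 1) ≤ (A * ‖σ x‖) * house x ^ (dg K - 1) := by
    calc house x * house x ^ (dg K - 1) = house x ^ dg K := by
          rw [← pow_succ', Nat.sub_add_cancel h3]
      _ ≤ A * nm x := h1
      _ ≤ A * (‖σ x‖ * house x ^ (dg K - 1)) := mul_le_mul_of_nonneg_left h2 hA
      _ = (A * ‖σ x‖) * house x ^ (dg K - 1) := by ring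
  exact le_of_mul_le_mul_right h4 (pow_pos hp _)

/-- PROOF. `A > 0` (otherwise `house x ^ d ≤ 0`). `A ‖σ h‖ ≤ A house h ≤ δ house x ≤ δ A ‖σ x‖`. -/
theorem cl_add {A δ : ℝ} {x h : K} (hA : 0 ≤ A) (hδ : 0 ≤ δ) (hx : Rg A x) (hh : A * house h ≤ δ * house x) :
    Cl δ x (x + h) := by
  intro σ
  have hA0 : 0 < A := by
    rcases hA.lt_or_eq with h0 | h0
    · exact h0
    · exfalso
      have h1 := hx.2
      rw [← h0, zero_mul] at h1
      have h2 := pow_pos (house_pos hx.1) (dg K)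
      linarith
  rw [map_add, add_sub_cancel_left]
  have h1 := NumberField.norm_embedding_le_house h σ
  have h2 := rg_house hA hx σ
  have h3 : A * ‖σ h‖ ≤ A * (δ * ‖σ x‖) := by
    calc A * ‖σ h‖ ≤ A * house h := mul_le_mul_of_nonneg_left h1 hA
      _ ≤ δ * house x := hh
      _ ≤ δ * (A * ‖σ x‖) := mul_le_mul_of_nonneg_left h2 hδ
      _ = A * (δ * ‖σ x‖) := by ring
  exact le_of_mul_le_mul_left h3 hA0

end CFTY
end

-- from Lib.CFT.Y13
section

/-! # CFT module Y, chunk Y13: summation over the ring of integers -/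

open NumberField

namespace CFTY

variable {K : Type} [Field K] [NumberField K]

open scoped Classical in
theorem y13_norm_le (x : K) : ‖mixedEmbedding K x‖ ≤ house x := by
  rw [Prod.norm_def]
  refine max_le ?_ ?_
  · refine (pi_norm_le_iff_of_nonneg (house_nonneg x)).2 fun w => ?_
    rw [mixedEmbedding.mixedEmbedding_apply_isReal, InfinitePlace.norm_embedding_of_isReal]
    rw [← InfinitePlace.norm_embedding_eq]
    exact norm_embedding_le_house x _
  · refine (pi_norm_le_iff_of_nonneg (house_nonneg x)).2 fun w => ?_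
    rw [mixedEmbedding.mixedEmbedding_apply_isComplex]
    exact norm_embedding_le_house x _

/-- PROOF. `ZLattice.summable_norm_rpow` for the lattice `L` = image of `𝓞 K` in `(K →+* ℂ) → ℂ` under `canonicalEmbedding K` (discrete:
`canonicalEmbedding.integerLattice.inter_ball_finite`; its `ℤ`-rank is `dg K`: `L` is isomorphic to `𝓞 K`, `RingOfIntegers.rank`), composed with the bijection `𝓞 K ≃ L`:
`∑ house x ^ (-β) < ∞` (`house x = ‖canonicalEmbedding K x‖`), and `(1 + house x) ^ (-β) ≤ house x ^ (-β)` for `x ≠ 0`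
(at the one point `x = 0` the value does not matter). -/
theorem summ_house {β : ℝ} (hβ : (dg K : ℝ) < β) : Summable fun x : 𝓞 K => (1 + house (x : K)) ^ (-β) := by
  classical
  have hinj : Function.Injective (((mixedEmbedding K).comp (algebraMap (𝓞 K) K)).toIntAlgHom.toLinearMap) :=
    (mixedEmbedding_injective K).comp RingOfIntegers.coe_injective
  let e : 𝓞 K ≃ₗ[ℤ] mixedEmbedding.integerLattice K := LinearEquiv.ofInjective _ hinj
  have hr : Module.finrank ℤ (mixedEmbedding.integerLattice K) = dg K := by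
    rw [← e.finrank_eq, RingOfIntegers.rank]
    rfl
  have h := ZLattice.summable_norm_rpow (mixedEmbedding.integerLattice K) (-β) (by rw [hr]; linarith)
  have h2 : Summable fun x : 𝓞 K => ‖e x‖ ^ (-β) := e.toEquiv.summable_iff.2 h
  have h3 : Summable fun x : 𝓞 K => if x = 0 then (1 : ℝ) else 0 := by
    refine summable_of_ne_finset_zero (s := {0}) fun x hx => ?_
    rw [if_neg]
    rwa [Finset.mem_singleton] at hx
  have hβ0 : 0 < β := lt_of_le_of_lt (Nat.cast_nonneg _) hβ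
  refine Summable.of_nonneg_of_le (fun x => Real.rpow_nonneg (by have := house_nonneg (x : K); linarith) _) (fun x => ?_) (h2.add h3)
  have hh := house_nonneg (x : K)
  by_cases hx : x = 0
  · rw [if_pos hx]
    have h4 : (1 + house (x : K)) ^ (-β) ≤ 1 := Real.rpow_le_one_of_one_le_of_nonpos (by linarith) (by linarith)
    have h5 : 0 ≤ ‖e x‖ ^ (-β) := Real.rpow_nonneg (norm_nonneg _) _
    linarith
  · rw [if_neg hx, add_zero]
    have h6 : 0 < ‖e x‖ := norm_pos_iff.2 fun h0 => hx (e.map_eq_zero_iff.1 h0)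
    refine Real.rpow_le_rpow_of_nonpos h6 ?_ (by linarith)
    have h7 : ‖e x‖ ≤ house (x : K) := y13_norm_le (x : K)
    linarith

end CFTY
end

-- from Lib.CFT.Y05
section

/-! # CFT module Y, chunk Y05: the cut-off function -/

open NumberField

namespace CFTY

variable {K : Type} [Field K] [NumberField K]

/-- PROOF. Induction on `d` for the stronger bound `(1 + 4 δ) ^ d ≤ 1 + 2 δ (3 ^ d - 1)`; in the step the difference of the two sides is
at least `4 δ (3 ^ d - 1) (1 - 2 δ) ≥ 0`. -/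
theorem y05_pow (d : ℕ) {δ : ℝ} (h0 : 0 ≤ δ) (h1 : δ ≤ 1 / 2) : (1 + 4 * δ) ^ d ≤ 1 + 2 * δ * 3 ^ d := by
  suffices h : (1 + 4 * δ) ^ d ≤ 1 + 2 * δ * (3 ^ d - 1) by linarith
  induction d with
  | zero => simp
  | succ d ih =>
    have h3 : (1 : ℝ) ≤ 3 ^ d := one_le_pow₀ (by norm_num)
    have h4 : 0 ≤ 1 + 4 * δ := by linarith
    have h5 : 0 ≤ 4 * δ * (3 ^ d - 1) * (1 - 2 * δ) :=
      mul_nonneg (mul_nonneg (by linarith) (by linarith)) (by linarith)
    calc (1 + 4 * δ) ^ (d + 1) = (1 + 4 * δ) ^ d * (1 + 4 * δ) := pow_succ _ _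
      _ ≤ (1 + 2 * δ * (3 ^ d - 1)) * (1 + 4 * δ) := by gcongr
      _ ≤ 1 + 2 * δ * (3 ^ (d + 1) - 1) := by
          rw [pow_succ]
          nlinarith

/-- `r x = house x ^ d / nm x`. PROOF. `house y ≤ (1 + δ) house x`, `nm y ≥ (1 - δ)^d nm x`, `(1 + δ)/(1 - δ) ≤ 1 + 4 δ`. -/
theorem y05_upper {δ : ℝ} {x y : K} (h0 : 0 ≤ δ) (h1 : δ ≤ 1 / 2) (hx : x ≠ 0) (h : Cl δ x y) :
    house y ^ dg K / nm y ≤ (1 + 2 * δ * 3 ^ dg K) * (house x ^ dg K / nm x) := by
  have hy : y ≠ 0 := cl_ne h1 hx h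
  have hnx := nm_pos hx
  have hny := nm_pos hy
  have hh := cl_house_upper h0 h
  have hn := cl_nm_lower h1 h
  have hd : 0 < 1 - δ := by linarith
  have hhx : 0 < house x := house_pos hx
  have hhy : 0 < house y := house_pos hy
  have hq : (1 + δ) / (1 - δ) ≤ 1 + 4 * δ := by
    rw [div_le_iff₀ hd]
    nlinarith [mul_nonneg h0 (show (0 : ℝ) ≤ 1 - 2 * δ by linarith)]
  calc house y ^ dg K / nm y ≤ ((1 + δ) * house x) ^ dg K / ((1 - δ) ^ dg K * nm x) := by
        gcongr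
    _ = ((1 + δ) / (1 - δ)) ^ dg K * (house x ^ dg K / nm x) := by
        rw [mul_pow, div_pow]
        field_simp
    _ ≤ (1 + 4 * δ) ^ dg K * (house x ^ dg K / nm x) := by
        gcongr
    _ ≤ _ := by
        gcongr
        exact y05_pow _ h0 h1

theorem y05_lower {δ : ℝ} {x y : K} (h0 : 0 ≤ δ) (h1 : δ ≤ 1 / 2) (hx : x ≠ 0) (h : Cl δ x y) :
    house x ^ dg K / nm x ≤ (1 + 2 * δ * 3 ^ dg K) * (house y ^ dg K / nm y) := by
  have hy : y ≠ 0 := cl_ne h1 hx h
  have hnx := nm_pos hx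
  have hny := nm_pos hy
  have hh := cl_house_lower h1 h
  have hn := cl_nm_upper h0 h
  have hd : 0 < 1 - δ := by linarith
  have hhx : 0 < house x := house_pos hx
  have hhy : 0 < house y := house_pos hy
  have hq : (1 + δ) / (1 - δ) ≤ 1 + 4 * δ := by
    rw [div_le_iff₀ hd]
    nlinarith [mul_nonneg h0 (show (0 : ℝ) ≤ 1 - 2 * δ by linarith)]
  have hh' : house x ≤ house y / (1 - δ) := by
    rw [le_div_iff₀ hd]
    linarith
  have hn' : nm y / (1 + δ) ^ dg K ≤ nm x := by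
    rw [div_le_iff₀ (by positivity)]
    linarith
  calc house x ^ dg K / nm x ≤ (house y / (1 - δ)) ^ dg K / (nm y / (1 + δ) ^ dg K) := by
        gcongr
    _ = ((1 + δ) / (1 - δ)) ^ dg K * (house y ^ dg K / nm y) := by
        rw [div_pow, div_pow]
        field_simp
    _ ≤ (1 + 4 * δ) ^ dg K * (house y ^ dg K / nm y) := by
        gcongr
    _ ≤ _ := by
        gcongr
        exact y05_pow _ h0 h1

/-- PROOF. If both quotients are `≥ 2 C` both values are 0. Otherwise the smaller of the two quotients is `≤ 2 C`, and their difference is at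
most `2 δ 3^d 2 C` by `y05_upper` / `y05_lower`; `t ↦ max 0 (2 C - t)` is 1-Lipschitz. `L = 4 C 3^d`. -/
theorem ph_LL (C : ℝ) (hC : 0 < C) : ∃ L : ℝ, 0 ≤ L ∧ ∀ (δ : ℝ) (x y : K), 0 ≤ δ → δ ≤ 1 / 2 → x ≠ 0 →
    Cl δ x y → |ph C y - ph C x| ≤ L * δ := by
  refine ⟨4 * C * 3 ^ dg K, by positivity, fun δ x y h0 h1 hx h => ?_⟩
  have hy : y ≠ 0 := cl_ne h1 hx h
  have u := y05_upper h0 h1 hx h
  have l := y05_lower h0 h1 hx h
  have hax : 0 ≤ house x ^ dg K / nm x := by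
    have := nm_pos hx
    have := house_pos hx
    positivity
  have hay : 0 ≤ house y ^ dg K / nm y := by
    have := nm_pos hy
    have := house_pos hy
    positivity
  unfold ph
  rw [if_neg hx, if_neg hy]
  set a := house x ^ dg K / nm x with ha
  set b := house y ^ dg K / nm y with hb
  set t : ℝ := 3 ^ dg K with ht
  have ht0 : 0 < t := by positivity
  have hδt : 0 ≤ 2 * δ * t := by positivity
  rcases le_total (2 * C) a with h2 | h2
  · rcases le_total (2 * C) b with h3 | h3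
    · rw [max_eq_left (by linarith), max_eq_left (by linarith), sub_self, abs_zero]
      positivity
    · rw [max_eq_left (b := 2 * C - a) (by linarith), max_eq_right (by linarith), sub_zero,
        abs_of_nonneg (by linarith)]
      have : 2 * δ * t * b ≤ 2 * δ * t * (2 * C) := by gcongr
      nlinarith
  · have hm : |max 0 (2 * C - b) - max 0 (2 * C - a)| ≤ |(2 * C - b) - (2 * C - a)| := by
      rw [max_comm 0 (2 * C - b), max_comm 0 (2 * C - a)]
      exact abs_max_sub_max_le_abs _ _ _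
    refine hm.trans ?_
    rw [abs_le]
    have h4 : 2 * δ * t * a ≤ 2 * δ * t * (2 * C) := by gcongr
    rcases le_total b a with h5 | h5
    · have h6 : 2 * δ * t * b ≤ 2 * δ * t * (2 * C) := by
        have := h5.trans h2
        gcongr
      constructor
      · nlinarith
      · nlinarith
    · constructor
      · nlinarith
      · have : 0 ≤ 4 * C * t * δ := by positivity
        linarith

theorem ph_nonneg (C : ℝ) (x : K) : 0 ≤ ph C x := by
  unfold ph
  split_ifs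
  · exact le_rfl
  · exact le_max_left _ _

theorem ph_le (C : ℝ) (hC : 0 ≤ C) (x : K) : ph C x ≤ 2 * C := by
  unfold ph
  split_ifs with h
  · linarith
  · have hx := nm_pos h
    have hh := house_pos h
    have : 0 ≤ house x ^ dg K / nm x := by positivity
    exact max_le (by linarith) (by linarith)

theorem ph_rg {C : ℝ} {x : K} (h : ph C x ≠ 0) : Rg (2 * C) x := by
  unfold ph at h
  split_ifs at h with hx
  · exact absurd rfl h
  · have hn := nm_pos hx
    refine ⟨hx, ?_⟩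
    by_contra hcon
    push Not at hcon
    apply h
    refine max_eq_left ?_
    have : 2 * C ≤ house x ^ dg K / nm x := by
      rw [le_div_iff₀ hn]
      exact hcon.le
    linarith

theorem ph_ge {C : ℝ} {x : K} (h : Rg C x) : C ≤ ph C x := by
  have hn := nm_pos h.1
  unfold ph
  rw [if_neg h.1]
  refine le_max_of_le_right ?_
  have : house x ^ dg K / nm x ≤ C := by
    rw [div_le_iff₀ hn]
    exact h.2
  linarith

end CFTY
end

-- from Lib.CFT.Y07
section

/-! # CFT module Y, chunk Y07: elements of bounded norm modulo the ray units -/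

open NumberField

namespace CFTY

variable {K : Type} [Field K] [NumberField K]

/-- PROOF. We may assume `B ≥ 0`. Let `q = (⌊B⌋₊)!` (a natural number `≥ 1`); every `a ≠ 0` with `nm a ≤ B` divides `q` in `𝓞 K`
(`a` divides its norm: `(Ideal.absNorm (span {a}) : 𝓞 K) ∈ span {a}` is `Ideal.absNorm_mem`; and the norm divides `q`).
Consider the map `κ a = (Ideal.span {a}, a mod (q m), signs of φ a for φ : K →+* ℝ)`. Its range on `{a ≠ 0, nm a ≤ B}` is finite
(`Ideal.finite_setOfPred_absNorm_le` or similar; `𝓞 K ⧸ (q m)` finite; finitely many real embeddings, each gives an embedding to ℂ).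
If `κ a = κ r` then `a = u r` with a unit `u`; `a - r ∈ span {q} * m ≤ span {r} * m`, so `(u - 1) r = r t` with `t ∈ m`, `u - 1 ∈ m`;
equal signs: `φ u > 0`. `R`: one element for every value of `κ` (`Set.Finite`, e.g. `Set.Finite.exists_finset..`/ `Finite.exists..`, choose a section). -/
theorem fin_cls (m : Ideal (𝓞 K)) (hm : m ≠ ⊥) (B : ℝ) : ∃ R : Finset (𝓞 K), (∀ r ∈ R, r ≠ 0) ∧
    ∀ a : 𝓞 K, a ≠ 0 → nm (a : K) ≤ B → ∃ r ∈ R, ∃ u ∈ RU m, a = ((u : (𝓞 K)ˣ) : 𝓞 K) * r := by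
  classical
  set q : ℕ := (⌊B⌋₊).factorial with hq
  have hq0 : (q : 𝓞 K) ≠ 0 := by
    rw [Nat.cast_ne_zero]
    exact Nat.factorial_ne_zero _
  set I : Ideal (𝓞 K) := Ideal.span {(q : 𝓞 K)} * m with hI
  have hI0 : I ≠ ⊥ := by
    rw [hI]
    refine mul_ne_zero ?_ hm
    rw [Ne, Ideal.zero_eq_bot, Ideal.span_singleton_eq_bot]
    exact hq0
  have hfq : Finite (𝓞 K ⧸ I) := Ideal.finiteQuotientOfFreeOfNeBot I hI0
  have hfe : Finite (K →+* ℝ) := by
    refine Finite.of_injective (fun φ : K →+* ℝ => (Complex.ofRealHom.comp φ : K →+* ℂ)) ?_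
    intro φ ψ h
    ext x
    have h1 := congrArg (fun f : K →+* ℂ => f x) h
    exact Complex.ofReal_injective h1
  set S : Set (𝓞 K) := {a | a ≠ 0 ∧ nm (a : K) ≤ B} with hS
  set κ : 𝓞 K → (Ideal (𝓞 K) × (𝓞 K ⧸ I)) × ((K →+* ℝ) → Prop) :=
    fun a => ((Ideal.span {a}, Ideal.Quotient.mk I a), fun φ => 0 < φ (a : K)) with hκ
  have hfin : (κ '' S).Finite := by
    have h1 : {J : Ideal (𝓞 K) | Ideal.absNorm J ≤ ⌊B⌋₊}.Finite := Ideal.finite_setOfPred_absNorm_le _
    refine Set.Finite.subset ((h1.prod (Set.finite_univ (α := 𝓞 K ⧸ I))).prod (Set.finite_univ (α := (K →+* ℝ) → Prop))) ?_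
    rintro _ ⟨a, ha, rfl⟩
    refine ⟨⟨?_, Set.mem_univ _⟩, Set.mem_univ _⟩
    show Ideal.absNorm (Ideal.span {a}) ≤ ⌊B⌋₊
    apply Nat.le_floor
    rw [absNorm_span]
    exact ha.2
  obtain ⟨R, hRS, hbij⟩ := Set.exists_subset_bijOn S κ
  have hRfin : R.Finite := by
    refine Set.Finite.of_finite_image ?_ hbij.injOn
    rw [hbij.image_eq]
    exact hfin
  refine ⟨hRfin.toFinset, fun r hr => (hRS (hRfin.mem_toFinset.1 hr)).1, ?_⟩
  intro a ha haB
  obtain ⟨r, hr, hκr⟩ := hbij.surjOn (Set.mem_image_of_mem κ (show a ∈ S from ⟨ha, haB⟩))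
  refine ⟨r, hRfin.mem_toFinset.2 hr, ?_⟩
  obtain ⟨hr0, hrB⟩ := hRS hr
  have e1 : Ideal.span {r} = Ideal.span {a} := (Prod.ext_iff.1 (Prod.ext_iff.1 hκr).1).1
  have e2 : Ideal.Quotient.mk I r = Ideal.Quotient.mk I a := (Prod.ext_iff.1 (Prod.ext_iff.1 hκr).1).2
  have e3 : (fun φ : K →+* ℝ => 0 < φ (r : K)) = fun φ : K →+* ℝ => 0 < φ (a : K) := (Prod.ext_iff.1 hκr).2
  obtain ⟨u, hu⟩ := Ideal.span_singleton_eq_span_singleton.1 e1
  have hua : a = (u : 𝓞 K) * r := by rw [← hu, mul_comm]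
  have hrq : r ∣ (q : 𝓞 K) := by
    have h1 : ((Ideal.absNorm (Ideal.span {r}) : ℕ) : 𝓞 K) ∈ Ideal.span {r} := Ideal.absNorm_mem _
    rw [Ideal.mem_span_singleton] at h1
    refine h1.trans ?_
    apply Nat.cast_dvd_cast
    rw [hq]
    refine Nat.dvd_factorial ?_ ?_
    · rw [Nat.pos_iff_ne_zero, Ne, Ideal.absNorm_eq_zero_iff, Ideal.span_singleton_eq_bot]
      exact hr0
    · apply Nat.le_floor
      rw [absNorm_span]
      exact hrB
  have hu1 : (u : 𝓞 K) - 1 ∈ m := by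
    have h1 : r - a ∈ I := Ideal.Quotient.eq.1 e2
    have h2 : a - r ∈ Ideal.span {(q : 𝓞 K)} * m := by
      rw [← neg_sub]
      exact I.neg_mem h1
    have h3 : a - r ∈ Ideal.span {r} * m := by
      refine Ideal.mul_mono_left ?_ h2
      rw [Ideal.span_singleton_le_span_singleton]
      exact hrq
    obtain ⟨t, ht, ht'⟩ := Ideal.mem_span_singleton_mul.1 h3
    have h4 : r * ((u : 𝓞 K) - 1) = r * t := by
      rw [ht', hua]
      ring
    rw [mul_left_cancel₀ hr0 h4]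
    exact ht
  refine ⟨u, mem_RU.2 ⟨hu1, ?_, ?_⟩, hua⟩
  · exact RingOfIntegers.coe_ne_zero_iff.2 (Units.ne_zero u)
  · intro φ
    have h1 : (0 < φ (r : K)) = (0 < φ (a : K)) := congrFun e3 φ
    have h2 : φ (a : K) = φ ((u : 𝓞 K) : K) * φ (r : K) := by
      have h9 : ((((u : 𝓞 K) * r : 𝓞 K)) : K) = ((u : 𝓞 K) : K) * (r : K) := map_mul (algebraMap (𝓞 K) K) _ _
      rw [hua, h9, map_mul]
    have h3 : φ ((u : 𝓞 K) : K) ≠ 0 := by
      rw [Ne, map_eq_zero]
      exact RingOfIntegers.coe_ne_zero_iff.2 (Units.ne_zero u)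
    have h4 : φ (r : K) ≠ 0 := by
      rw [Ne, map_eq_zero]
      exact RingOfIntegers.coe_ne_zero_iff.2 hr0
    rcases lt_or_gt_of_ne h4 with h5 | h5
    · have h6 : ¬ 0 < φ (a : K) := by
        rw [← h1]
        exact not_lt.2 h5.le
      rw [h2] at h6
      by_contra h7
      have h8 : φ ((u : 𝓞 K) : K) < 0 := lt_of_le_of_ne (not_lt.1 h7) h3
      exact h6 (mul_pos_of_neg_of_neg h8 h5)
    · have h6 : 0 < φ (a : K) := by
        rw [← h1]
        exact h5
      rw [h2] at h6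
      by_contra h7
      have h8 := mul_nonpos_of_nonpos_of_nonneg (not_lt.1 h7) h5.le
      linarith


end CFTY
end

-- from Lib.CFT.Y09
section

/-! # CFT module Y, chunk Y09: finitely many units -/

open NumberField

namespace CFTY

variable {K : Type} [Field K] [NumberField K]

/-- PROOF. `NumberField.Embeddings.finite_of_norm_le`, `norm_embedding_le_house`. -/
theorem fin_units (A : ℝ) : {u : (𝓞 K)ˣ | house (((u : (𝓞 K)ˣ) : 𝓞 K) : K) ≤ A}.Finite := by
  have h1 := Embeddings.finite_of_norm_le K ℂ A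
  refine Set.Finite.subset (h1.preimage (f := fun u : (𝓞 K)ˣ => (((u : (𝓞 K)ˣ) : 𝓞 K) : K)) ?_) ?_
  · intro u _ v _ h
    exact Units.ext (RingOfIntegers.ext h)
  · intro u hu
    exact ⟨RingOfIntegers.isIntegral_coe _, fun φ => (norm_embedding_le_house _ φ).trans hu⟩


/-- PROOF. Let `M = max (house x) (house (u x))`. `‖σ u‖ = ‖σ (u x)‖ / ‖σ x‖`, `nm x ≤ ‖σ x‖ house x ^ (d - 1)` (`nm_le`), so
`‖σ u‖ nm x ≤ house (u x) house x ^ (d - 1) ≤ M ^ d ≤ max A B * nm x` (`nm (u x) = nm x`). -/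
theorem house_unit {A B : ℝ} {x : K} (u : (𝓞 K)ˣ) (h1 : Rg A x)
    (h2 : Rg B ((((u : (𝓞 K)ˣ) : 𝓞 K) : K) * x)) : house (((u : (𝓞 K)ˣ) : 𝓞 K) : K) ≤ max A B := by
  have hd : 1 ≤ dg K := dg_pos
  obtain ⟨hx, hA⟩ := h1
  obtain ⟨hux, hB⟩ := h2
  rw [nm_mul, nm_unit, one_mul] at hB
  have hn := nm_pos hx
  set M : ℝ := max (house x) (house ((((u : (𝓞 K)ˣ) : 𝓞 K) : K) * x)) with hM
  have hM0 : 0 ≤ M := (house_nonneg x).trans (le_max_left _ _)
  have hMd : M ^ dg K ≤ max A B * nm x := by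
    rcases le_total (house x) (house ((((u : (𝓞 K)ˣ) : 𝓞 K) : K) * x)) with h | h
    · rw [hM, max_eq_right h]
      exact hB.trans (mul_le_mul_of_nonneg_right (le_max_right _ _) hn.le)
    · rw [hM, max_eq_left h]
      exact hA.trans (mul_le_mul_of_nonneg_right (le_max_left _ _) hn.le)
  have key : ∀ σ : K →+* ℂ, ‖σ (((u : (𝓞 K)ˣ) : 𝓞 K) : K)‖ ≤ max A B := by
    intro σ
    have h3 := nm_le x σ
    have h4 := norm_embedding_le_house ((((u : (𝓞 K)ˣ) : 𝓞 K) : K) * x) σ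
    rw [map_mul, norm_mul] at h4
    have h5 : ‖σ (((u : (𝓞 K)ˣ) : 𝓞 K) : K)‖ * nm x ≤ max A B * nm x := by
      calc ‖σ (((u : (𝓞 K)ˣ) : 𝓞 K) : K)‖ * nm x
          ≤ ‖σ (((u : (𝓞 K)ˣ) : 𝓞 K) : K)‖ * (‖σ x‖ * house x ^ (dg K - 1)) :=
            mul_le_mul_of_nonneg_left h3 (norm_nonneg _)
        _ = (‖σ (((u : (𝓞 K)ˣ) : 𝓞 K) : K)‖ * ‖σ x‖) * house x ^ (dg K - 1) := by ring
        _ ≤ M * M ^ (dg K - 1) := by
            refine mul_le_mul (h4.trans (le_max_right _ _)) (pow_le_pow_left₀ (house_nonneg x) (le_max_left _ _) _)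
              (pow_nonneg (house_nonneg x) _) hM0
        _ = M ^ dg K := by
            rw [← pow_succ']
            congr 1
            omega
        _ ≤ max A B * nm x := hMd
    exact le_of_mul_le_mul_right h5 hn
  unfold house
  rw [pi_norm_le_iff_of_nonempty]
  exact key


end CFTY
end

-- from Lib.CFT.Y21
section

/-! # CFT module Y, chunk Y21: unfolding: the sum over one fibre -/

open NumberField

namespace CFTY

variable {K : Type} [Field K] [NumberField K]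

/-- PROOF. `span {x} = span {y}`: `x = u y` with a unit `u` (`Ideal.span_singleton_eq_span_singleton`); `(u - 1) y = (x - 1) - (y - 1) ∈ m` and `y` is prime to `m`
(`y - 1 ∈ m`): `u - 1 = (u - 1) y - (u - 1)(y - 1) ∈ m`. `u = x / y` is totally positive. -/
theorem fibre {m : Ideal (𝓞 K)} {x y : 𝓞 K} (hx : x - 1 ∈ m) (hy : y - 1 ∈ m) (hx' : TP (x : K)) (hy' : TP (y : K))
    (h : Ideal.span {x} = Ideal.span {y}) : ∃ u ∈ RU m, x = ((u : (𝓞 K)ˣ) : 𝓞 K) * y := by
  have h1 : Associated y x := (Ideal.span_singleton_eq_span_singleton.1 h).symm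
  obtain ⟨u, hu⟩ := h1
  have hux : x = (u : 𝓞 K) * y := by rw [← hu, mul_comm]
  have hy0 : ((y : 𝓞 K) : K) ≠ 0 := hy'.1
  refine ⟨u, ⟨?_, ?_⟩, hux⟩
  · have e : (u : 𝓞 K) - 1 = ((x - 1) - (y - 1)) - ((u : 𝓞 K) - 1) * (y - 1) := by
      rw [hux]
      ring
    rw [e]
    exact m.sub_mem (m.sub_mem hx hy) (m.mul_mem_left _ hy)
  · have e : ((u : 𝓞 K) : K) = (x : K) * (y : K)⁻¹ := by
      rw [eq_mul_inv_iff_mul_eq₀ hy0, ← map_mul, ← hux]
    rw [e]
    exact hx'.mul hy'.inv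


open Classical in
/-- `tm χ s (span {x}) = ψ x * nm x ^ (-s)` (`HCh.ray`, `absNorm_span`). PROOF of the theorem. Let `f x` be the term. If `f x ≠ 0` then `x - 1 ∈ m`, `x ∈ j`, `TP x`, so `PrI m I`, `I ≤ j`
for `I = span {x}`: so both sides are 0 if not `PrI m I ∧ I ≤ j`. Otherwise `I = span {y}`, `y - 1 ∈ m`, `TP y`; the map `u ↦ u y` from `RU m` to the fibre is injective and its
image contains the support of `f` (`fibre`); `f (u y) = w (u y) * tm χ s I`; the sum of `w (u y)` is 1. (`Function.Injective.hasSum_iff`, `HasSum.mul_right`.) -/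
theorem fibre_sum {m : Ideal (𝓞 K)} {ψ : K → ℂ} {χ : Ideal (𝓞 K) →*₀ ℂ} (hχ : HCh m ψ χ) {w : K → ℝ}
    (hw : ∀ x : K, x ≠ 0 → HasSum (fun u : RU m => w ((((u : (𝓞 K)ˣ) : 𝓞 K) : K) * x)) 1) (j I : Ideal (𝓞 K)) (s : ℂ) :
    HasSum (fun x : {x : 𝓞 K // Ideal.span {x} = I} => if (x : 𝓞 K) - 1 ∈ m ∧ (x : 𝓞 K) ∈ j then
      Fs (fun z => (if TP z then 1 else 0) * (w z : ℂ) * ψ z) s ((x : 𝓞 K) : K) else 0)
      (if PrI m I ∧ I ≤ j then CFTZ.tm χ s I else 0) := by
  have hterm : ∀ x : {x : 𝓞 K // Ideal.span {x} = I}, (x : 𝓞 K) - 1 ∈ m → TP (((x : 𝓞 K)) : K) →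
      Fs (fun z => (if TP z then 1 else 0) * (w z : ℂ) * ψ z) s ((x : 𝓞 K) : K) = (w ((x : 𝓞 K) : K) : ℂ) * CFTZ.tm χ s I := by
    rintro ⟨x, hx⟩ h1 h2
    change Fs (fun z => (if TP z then 1 else 0) * (w z : ℂ) * ψ z) s (x : K) = (w (x : K) : ℂ) * CFTZ.tm χ s I
    have h3 : χ I = ψ x := by rw [← hx, hχ.ray x h1 h2]
    have h4 : ((Ideal.absNorm I : ℕ) : ℂ) = ((nm (x : K) : ℝ) : ℂ) := by
      rw [← absNorm_span x, hx]
      norm_cast
    unfold Fs CFTZ.tm
    change (if TP (x : K) then (1 : ℂ) else 0) * (w (x : K) : ℂ) * ψ (x : K) * _ = _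
    rw [if_pos h2, h3, h4]
    ring
  by_cases hP : PrI m I ∧ I ≤ j
  · rw [if_pos hP]
    obtain ⟨⟨y, hy1, hy2, hy3⟩, hIj⟩ := hP
    have hmem : ∀ u : RU m, Ideal.span {(((u : (𝓞 K)ˣ) : 𝓞 K) * y)} = I := by
      intro u
      rw [hy3, Ideal.span_singleton_eq_span_singleton]
      exact (associated_mul_unit_right y u.1 u.1.isUnit).symm.trans (Associated.refl _) |> fun h => by
        rw [mul_comm]
        exact h
    let φ : RU m → {x : 𝓞 K // Ideal.span {x} = I} := fun u => ⟨((u : (𝓞 K)ˣ) : 𝓞 K) * y, hmem u⟩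
    have hy0 : y ≠ 0 := by
      rintro rfl
      exact hy2.1 (map_zero _)
    have hφ : Function.Injective φ := by
      intro u v huv
      have h1 : ((u : (𝓞 K)ˣ) : 𝓞 K) * y = ((v : (𝓞 K)ˣ) : 𝓞 K) * y := congrArg Subtype.val huv
      exact Subtype.ext (Units.ext (mul_right_cancel₀ hy0 h1))
    rw [← hφ.hasSum_iff]
    · have h1 := (Complex.hasSum_ofReal.2 (hw (y : K) hy2.1)).mul_right (CFTZ.tm χ s I)
      rw [Complex.ofReal_one, one_mul] at h1
      have hfun : ((fun x : {x : 𝓞 K // Ideal.span {x} = I} => if (x : 𝓞 K) - 1 ∈ m ∧ (x : 𝓞 K) ∈ j then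
        Fs (fun z => (if TP z then 1 else 0) * (w z : ℂ) * ψ z) s ((x : 𝓞 K) : K) else 0) ∘ φ) =
          fun u : RU m => (w ((((u : (𝓞 K)ˣ) : 𝓞 K) : K) * (y : K)) : ℂ) * CFTZ.tm χ s I := ?_
      · rw [hfun]
        exact h1
      funext u
      have h2 : ((φ u : 𝓞 K)) - 1 ∈ m := by
        change ((u : (𝓞 K)ˣ) : 𝓞 K) * y - 1 ∈ m
        have e : ((u : (𝓞 K)ˣ) : 𝓞 K) * y - 1 = (((u : (𝓞 K)ˣ) : 𝓞 K) - 1) * y + (y - 1) := by ring
        rw [e]
        exact m.add_mem (m.mul_mem_right _ u.2.1) hy1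
      have h3 : (φ u : 𝓞 K) ∈ j := by
        apply hIj
        exact (φ u).2.le (Ideal.mem_span_singleton_self _)
      have h4 : TP (((φ u : 𝓞 K)) : K) := by
        change TP (algebraMap (𝓞 K) K (((u : (𝓞 K)ˣ) : 𝓞 K) * y))
        rw [map_mul]
        exact u.2.2.mul hy2
      change (if ((φ u : 𝓞 K)) - 1 ∈ m ∧ ((φ u : 𝓞 K)) ∈ j then
        Fs (fun z => (if TP z then 1 else 0) * (w z : ℂ) * ψ z) s (((φ u : 𝓞 K)) : K) else 0) = _
      rw [if_pos ⟨h2, h3⟩, hterm (φ u) h2 h4]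
      change (w (algebraMap (𝓞 K) K (((u : (𝓞 K)ˣ) : 𝓞 K) * y)) : ℂ) * _ = _
      rw [map_mul]
    · intro x hx
      by_cases h1 : (x : 𝓞 K) - 1 ∈ m ∧ (x : 𝓞 K) ∈ j
      · rw [if_pos h1]
        by_cases h2 : TP (((x : 𝓞 K)) : K)
        · exfalso
          apply hx
          obtain ⟨u, hu, hu2⟩ := fibre h1.1 hy1 h2 hy2 (by rw [x.2, hy3])
          exact ⟨⟨u, hu⟩, Subtype.ext hu2.symm⟩
        · unfold Fs
          change (if TP ((x : 𝓞 K) : K) then (1 : ℂ) else 0) * (w ((x : 𝓞 K) : K) : ℂ) * ψ ((x : 𝓞 K) : K) * _ = _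
          rw [if_neg h2, zero_mul, zero_mul, zero_mul]
      · rw [if_neg h1]
  · rw [if_neg hP]
    have h0 : (fun x : {x : 𝓞 K // Ideal.span {x} = I} => if (x : 𝓞 K) - 1 ∈ m ∧ (x : 𝓞 K) ∈ j then
        Fs (fun z => (if TP z then 1 else 0) * (w z : ℂ) * ψ z) s ((x : 𝓞 K) : K) else 0) = fun _ => 0 := by
      funext x
      by_cases h1 : (x : 𝓞 K) - 1 ∈ m ∧ (x : 𝓞 K) ∈ j
      · rw [if_pos h1]
        by_cases h2 : TP (((x : 𝓞 K)) : K)
        · exfalso
          apply hP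
          refine ⟨⟨x, h1.1, h2, x.2.symm⟩, ?_⟩
          rw [← x.2, Ideal.span_singleton_le_iff_mem]
          exact h1.2
        · unfold Fs
          change (if TP ((x : 𝓞 K) : K) then (1 : ℂ) else 0) * (w ((x : 𝓞 K) : K) : ℂ) * ψ ((x : 𝓞 K) : K) * _ = _
          rw [if_neg h2, zero_mul, zero_mul, zero_mul]
      · rw [if_neg h1]
    rw [h0]
    exact hasSum_zero


end CFTY
end

-- from Lib.CFT.Y14
section

/-! # CFT module Y, chunk Y14: difference of two values of Fs -/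

open NumberField

namespace CFTY

variable {K : Type} [Field K] [NumberField K]

/-- bounds for the logarithm -/
theorem y14_log (d : ℕ) {δ t : ℝ} (h0 : 0 ≤ δ) (h1 : δ ≤ 1 / 2) (ht1 : (1 - δ) ^ d ≤ t) (ht2 : t ≤ (1 + δ) ^ d) :
    0 < t ∧ |Real.log t| ≤ 2 * d * δ := by
  have hp : (0 : ℝ) < 1 - δ := by linarith
  have ht : 0 < t := lt_of_lt_of_le (pow_pos hp d) ht1
  refine ⟨ht, ?_⟩
  have hl1 : d * Real.log (1 - δ) ≤ Real.log t := by
    rw [← Real.log_pow]
    exact Real.log_le_log (pow_pos hp d) ht1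
  have hl2 : Real.log t ≤ d * Real.log (1 + δ) := by
    rw [← Real.log_pow]
    exact Real.log_le_log ht ht2
  have h3 : Real.log (1 + δ) ≤ δ := by
    have := Real.log_le_sub_one_of_pos (show (0 : ℝ) < 1 + δ by linarith)
    linarith
  have h4 : -(2 * δ) ≤ Real.log (1 - δ) := by
    have h5 := Real.one_sub_inv_le_log_of_pos hp
    have h6 : (1 - δ)⁻¹ ≤ 1 + 2 * δ := by
      rw [inv_le_comm₀ hp (by linarith)]
      rw [inv_le_iff_one_le_mul₀ (by linarith)]
      nlinarith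
    linarith
  have hd : (0 : ℝ) ≤ d := Nat.cast_nonneg d
  rw [abs_le]
  constructor
  · nlinarith
  · nlinarith

/-- PROOF. `t = e^u`, `|u| = |log t| ≤ 2 d δ` (`|log (1 ± δ)| ≤ 2 δ` for `δ ≤ 1/2`); `t ^ (-s) - 1 = exp (- s u) - 1`, `|exp z - 1| ≤ |z| e^|z|`
(`Complex.norm_exp_sub_one_le` or the power series), `|z| ≤ R 2 d δ ≤ R d`. -/
theorem y14_pow (d : ℕ) {δ R t : ℝ} (h0 : 0 ≤ δ) (h1 : δ ≤ 1 / 2) (hR : 0 ≤ R) (ht1 : (1 - δ) ^ d ≤ t) (ht2 : t ≤ (1 + δ) ^ d)
    {s : ℂ} (hs : ‖s‖ ≤ R) : ‖(t : ℂ) ^ (-s) - 1‖ ≤ 2 * R * d * Real.exp (R * d) * δ := by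
  obtain ⟨ht, hl⟩ := y14_log d h0 h1 ht1 ht2
  have htc : (t : ℂ) ≠ 0 := by exact_mod_cast ht.ne'
  rw [Complex.cpow_def_of_ne_zero htc, ← Complex.ofReal_log ht.le]
  set z : ℂ := (Real.log t : ℂ) * (-s) with hz
  have hzn : ‖z‖ ≤ 2 * R * d * δ := by
    rw [hz, norm_mul, norm_neg, Complex.norm_real, Real.norm_eq_abs]
    calc |Real.log t| * ‖s‖ ≤ (2 * d * δ) * R := mul_le_mul hl hs (norm_nonneg _) (by positivity)
      _ = 2 * R * d * δ := by ring
  have hzn2 : ‖z‖ ≤ R * d := by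
    refine hzn.trans ?_
    have : 0 ≤ R * d := by positivity
    nlinarith
  have hexp : ‖Complex.exp z - 1‖ ≤ ‖z‖ * Real.exp ‖z‖ := by
    have h2 := Complex.norm_exp_sub_sum_le_norm_mul_exp z 1
    simpa using h2
  calc ‖Complex.exp z - 1‖ ≤ ‖z‖ * Real.exp ‖z‖ := hexp
    _ ≤ (2 * R * d * δ) * Real.exp (R * d) :=
        mul_le_mul hzn (Real.exp_le_exp.2 hzn2) (Real.exp_pos _).le (by positivity)
    _ = 2 * R * d * Real.exp (R * d) * δ := by ring

/-- PROOF. `‖t ^ (-s)‖ = t ^ (- re s)`, `t ≥ 2^(-d)`, `t ≤ 2^d`. -/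
theorem y14_norm (d : ℕ) {δ R t : ℝ} (h0 : 0 ≤ δ) (h1 : δ ≤ 1 / 2) (hR : 0 ≤ R) (ht1 : (1 - δ) ^ d ≤ t) (ht2 : t ≤ (1 + δ) ^ d)
    {s : ℂ} (hs : ‖s‖ ≤ R) : ‖(t : ℂ) ^ (-s)‖ ≤ (2 : ℝ) ^ (R * d) := by
  obtain ⟨ht, -⟩ := y14_log d h0 h1 ht1 ht2
  rw [Complex.norm_cpow_eq_rpow_re_of_pos ht]
  have hsr : |s.re| ≤ R := (Complex.abs_re_le_norm s).trans hs
  have hd : (0 : ℝ) ≤ d := Nat.cast_nonneg d
  have h2 : |Real.log t| ≤ d * Real.log 2 := by
    have hl2 : Real.log t ≤ d * Real.log 2 := by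
      rw [← Real.log_pow]
      refine Real.log_le_log ht (ht2.trans ?_)
      exact pow_le_pow_left₀ (by linarith) (by linarith) d
    have hl1 : -(d * Real.log 2) ≤ Real.log t := by
      have h3 : ((2 : ℝ) ^ d)⁻¹ ≤ t := by
        refine le_trans ?_ ht1
        rw [← inv_pow]
        exact pow_le_pow_left₀ (by norm_num) (by linarith) d
      have h4 := Real.log_le_log (by positivity) h3
      rw [Real.log_inv, Real.log_pow] at h4
      exact h4
    rw [abs_le]
    exact ⟨hl1, hl2⟩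
  rw [Real.rpow_def_of_pos ht, Real.rpow_def_of_pos (by norm_num : (0 : ℝ) < 2)]
  refine Real.exp_le_exp.2 ?_
  have h5 : Real.log t * (-s).re ≤ |Real.log t| * |s.re| := by
    rw [← abs_mul, Complex.neg_re, mul_neg]
    exact (neg_le_abs _)
  have h6 : |Real.log t| * |s.re| ≤ (d * Real.log 2) * R :=
    mul_le_mul h2 hsr (abs_nonneg _) (by positivity)
  calc Real.log t * (-s).re ≤ (d * Real.log 2) * R := h5.trans h6
    _ = Real.log 2 * (R * d) := by ring

/-- PROOF. `t = nm y / nm x` (`cl_nm_lower`, `cl_nm_upper`), `nm y ^ (-s) = nm x ^ (-s) t ^ (-s)`.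
`Fs g s y - Fs g s x = nm x ^ (-s) ((g y - g x) t ^ (-s) + g x (t ^ (-s) - 1))`. -/
theorem fs_cl {g : K → ℂ} {B L R δ : ℝ} (hB : ∀ x, ‖g x‖ ≤ B)
    (hL : ∀ (δ : ℝ) (x y : K), 0 ≤ δ → δ ≤ 1 / 2 → x ≠ 0 → Cl δ x y → ‖g y - g x‖ ≤ L * δ)
    (h0 : 0 ≤ δ) (h1 : δ ≤ 1 / 2) (hR : 0 ≤ R) {s : ℂ} (hs : ‖s‖ ≤ R) {x y : K} (hx : x ≠ 0) (hc : Cl δ x y) :
    ‖Fs g s y - Fs g s x‖ ≤
      (L * (2 : ℝ) ^ (R * dg K) + B * (2 * R * dg K * Real.exp (R * dg K))) * δ * nm x ^ (-s.re) := by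
  have hnx : 0 < nm x := nm_pos hx
  have hB0 : 0 ≤ B := (norm_nonneg _).trans (hB x)
  set t : ℝ := nm y / nm x with ht
  have ht1 : (1 - δ) ^ dg K ≤ t := by
    rw [ht, le_div_iff₀ hnx]
    exact cl_nm_lower h1 hc
  have ht2 : t ≤ (1 + δ) ^ dg K := by
    rw [ht, div_le_iff₀ hnx]
    exact cl_nm_upper h0 hc
  obtain ⟨htp, -⟩ := y14_log (dg K) h0 h1 ht1 ht2
  have hny : nm y = nm x * t := by
    rw [ht]
    field_simp
  have e1 : (nm y : ℂ) ^ (-s) = (nm x : ℂ) ^ (-s) * (t : ℂ) ^ (-s) := by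
    rw [hny, Complex.ofReal_mul, Complex.mul_cpow_ofReal_nonneg hnx.le htp.le]
  have e2 : Fs g s y - Fs g s x = (nm x : ℂ) ^ (-s) * ((g y - g x) * (t : ℂ) ^ (-s) + g x * ((t : ℂ) ^ (-s) - 1)) := by
    unfold Fs
    rw [e1]
    ring
  have e3 : ‖(nm x : ℂ) ^ (-s)‖ = nm x ^ (-s.re) := by
    rw [Complex.norm_cpow_eq_rpow_re_of_pos hnx, Complex.neg_re]
  rw [e2, norm_mul, e3, mul_comm]
  refine mul_le_mul_of_nonneg_right ?_ (Real.rpow_nonneg hnx.le _)
  calc ‖(g y - g x) * (t : ℂ) ^ (-s) + g x * ((t : ℂ) ^ (-s) - 1)‖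
      ≤ ‖g y - g x‖ * ‖(t : ℂ) ^ (-s)‖ + ‖g x‖ * ‖(t : ℂ) ^ (-s) - 1‖ := by
        refine (norm_add_le _ _).trans ?_
        rw [norm_mul, norm_mul]
    _ ≤ (L * δ) * (2 : ℝ) ^ (R * dg K) + B * (2 * R * dg K * Real.exp (R * dg K) * δ) := by
        have h3 := hL δ x y h0 h1 hx hc
        have hLδ : 0 ≤ L * δ := (norm_nonneg _).trans h3
        refine add_le_add ?_ ?_
        · exact mul_le_mul h3 (y14_norm (dg K) h0 h1 hR ht1 ht2 hs) (norm_nonneg _) hLδ
        · exact mul_le_mul (hB x) (y14_pow (dg K) h0 h1 hR ht1 ht2 hs) (norm_nonneg _) hB0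
    _ = (L * (2 : ℝ) ^ (R * dg K) + B * (2 * R * dg K * Real.exp (R * dg K))) * δ := by ring

end CFTY
end

-- from Lib.CFT.Y15
section

/-! # CFT module Y, chunk Y15: difference of Fs at x + h and at x -/

open NumberField

namespace CFTY

variable {K : Type} [Field K] [NumberField K]

/-- PROOF. For `x ∈ Rg A`, `A ≥ 1`, `1 ≤ house x`, `σ₀ ≤ re s ≤ R`: `nm x ≥ house x ^ d / A`, so `nm x ^ (- re s) ≤ A ^ R house x ^ (- d re s) ≤
A ^ R house x ^ (- d σ₀)`. -/
theorem nm_rpow {A R σ₀ : ℝ} {x : K} (hA : 1 ≤ A) (hx : Rg A x) (h1 : 1 ≤ house x) (h0 : 0 ≤ σ₀) {σ : ℝ} (h2 : σ₀ ≤ σ)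
    (h3 : σ ≤ R) : nm x ^ (-σ) ≤ A ^ R * house x ^ (-((dg K : ℝ) * σ₀)) := by
  have hh : 0 < house x := by linarith
  have hA0 : 0 < A := by linarith
  have h4 : house x ^ dg K / A ≤ nm x := by
    rw [div_le_iff₀ hA0, mul_comm]
    exact hx.2
  have h5 : 0 < house x ^ dg K / A := by positivity
  calc nm x ^ (-σ) ≤ (house x ^ dg K / A) ^ (-σ) := Real.rpow_le_rpow_of_nonpos h5 h4 (by linarith)
    _ = A ^ σ * house x ^ (-((dg K : ℝ) * σ)) := by
        rw [Real.div_rpow (by positivity) hA0.le, ← Real.rpow_natCast, ← Real.rpow_mul hh.le, Real.rpow_neg hA0.le, div_inv_eq_mul,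
          mul_comm, mul_neg]
    _ ≤ A ^ R * house x ^ (-((dg K : ℝ) * σ₀)) := by
        refine mul_le_mul (Real.rpow_le_rpow_of_exponent_le hA h3) (Real.rpow_le_rpow_of_exponent_le h1 ?_) (by positivity)
          (by positivity)
        have : (dg K : ℝ) * σ₀ ≤ (dg K : ℝ) * σ := mul_le_mul_of_nonneg_left h2 (Nat.cast_nonneg _)
        linarith

/-- PROOF. As before (easier): `0` at `x = 0`; for `x ≠ 0`, `g x ≠ 0`: `‖Fs g s x‖ = ‖g x‖ nm x ^ (- re s) ≤ B A ^ (re s) house x ^ (- d re s)`, `house x ≥ (1 + house x) / 2`. -/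
theorem fs_norm {g : K → ℂ} {A : ℝ} (hB : Bd g) (hA : ∀ x, g x ≠ 0 → Rg A x) (s : ℂ) (hs : 0 ≤ s.re) :
    ∃ C : ℝ, ∀ x : 𝓞 K, ‖Fs g s (x : K)‖ ≤ C * (1 + house (x : K)) ^ (-((dg K : ℝ) * s.re)) := by
  obtain ⟨B, hB0, hB⟩ := hB
  obtain ⟨A', hA1, hAA⟩ : ∃ A' : ℝ, 1 ≤ A' ∧ A ≤ A' := ⟨max A 1, le_max_right _ _, le_max_left _ _⟩
  have hA0 : 0 < A' := by linarith
  refine ⟨B * A' ^ s.re * 2 ^ ((dg K : ℝ) * s.re), fun x => ?_⟩
  have hh := house_nonneg (x : K)
  by_cases hg : g (x : K) = 0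
  · unfold Fs
    rw [hg, zero_mul, norm_zero]
    positivity
  · have hx := hA _ hg
    have hx' : Rg A' (x : K) := ⟨hx.1, hx.2.trans (mul_le_mul_of_nonneg_right hAA (nm_nonneg _))⟩
    have h1 : 1 ≤ house (x : K) := one_le_house_of_isIntegral x.isIntegral_coe hx.1
    have h2 := nm_rpow hA1 hx' h1 hs (le_refl s.re) (le_refl s.re)
    have h3 : house (x : K) ^ (-((dg K : ℝ) * s.re)) ≤
        2 ^ ((dg K : ℝ) * s.re) * (1 + house (x : K)) ^ (-((dg K : ℝ) * s.re)) := by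
      have e : (2 : ℝ) ^ ((dg K : ℝ) * s.re) * (1 + house (x : K)) ^ (-((dg K : ℝ) * s.re)) =
          ((1 + house (x : K)) / 2) ^ (-((dg K : ℝ) * s.re)) := by
        rw [Real.div_rpow (by linarith) (by norm_num), Real.rpow_neg (by norm_num : (0 : ℝ) ≤ 2), div_inv_eq_mul, mul_comm]
      rw [e]
      refine Real.rpow_le_rpow_of_nonpos (by linarith) (by linarith) ?_
      have : 0 ≤ (dg K : ℝ) * s.re := mul_nonneg (Nat.cast_nonneg _) hs
      linarith
    unfold Fs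
    rw [norm_mul, Complex.norm_cpow_eq_rpow_re_of_pos (nm_pos hx.1), Complex.neg_re]
    calc ‖g (x : K)‖ * nm (x : K) ^ (-s.re) ≤ B * (A' ^ s.re * (2 ^ ((dg K : ℝ) * s.re) *
          (1 + house (x : K)) ^ (-((dg K : ℝ) * s.re)))) := by
          refine mul_le_mul (hB _) (h2.trans (mul_le_mul_of_nonneg_left h3 (by positivity))) (Real.rpow_nonneg (nm_nonneg _) _) hB0
      _ = B * A' ^ s.re * 2 ^ ((dg K : ℝ) * s.re) * (1 + house (x : K)) ^ (-((dg K : ℝ) * s.re)) := by ring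

end CFTY
end

-- from Lib.CFT.Y15B
section

/-! # CFT module Y, chunk Y15B: difference of Fs at x + h and at x -/

open NumberField

namespace CFTY

variable {K : Type} [Field K] [NumberField K]

theorem y15b_neg (x : K) : house (-x) = house x := by
  unfold house
  rw [map_neg, norm_neg]

theorem y15b_mono {A A' : ℝ} (h : A ≤ A') {x : K} (hx : Rg A x) : Rg A' x :=
  ⟨hx.1, hx.2.trans (mul_le_mul_of_nonneg_right h (nm_nonneg x))⟩


/-- the estimate near a point of the region -/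
theorem y15b_near {g : K → ℂ} {A B L R σ₀ : ℝ} (hA1 : 1 ≤ A) (hB : ∀ x, ‖g x‖ ≤ B)
    (hL : ∀ (δ : ℝ) (x y : K), 0 ≤ δ → δ ≤ 1 / 2 → x ≠ 0 → Cl δ x y → ‖g y - g x‖ ≤ L * δ) (hL0 : 0 ≤ L) (hB0 : 0 ≤ B)
    (hR : 0 ≤ R) (h0 : 0 ≤ σ₀) {s : ℂ} (hs : ‖s‖ ≤ R) (hs' : σ₀ ≤ s.re) {z k : K} (hz : Rg A z) (hz1 : 1 ≤ house z)
    (hk : A * house k ≤ 1 / 2 * house z) :
    ‖Fs g s (z + k) - Fs g s z‖ ≤ (L * (2 : ℝ) ^ (R * dg K) + B * (2 * R * dg K * Real.exp (R * dg K))) *
      (A * house k) * A ^ R * house z ^ (-((dg K : ℝ) * σ₀ + 1)) := by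
  have hz0 : 0 < house z := by linarith
  have hδ0 : 0 ≤ A * house k / house z := by
    have := house_nonneg k
    positivity
  have hδ1 : A * house k / house z ≤ 1 / 2 := by
    rw [div_le_iff₀ hz0]
    exact hk
  have hc : Cl (A * house k / house z) z (z + k) := by
    refine cl_add (by linarith) hδ0 hz ?_
    rw [div_mul_cancel₀ _ hz0.ne']
  have h1 := fs_cl hB hL hδ0 hδ1 hR hs hz.1 hc
  have h2 : nm z ^ (-s.re) ≤ A ^ R * house z ^ (-((dg K : ℝ) * σ₀)) :=
    nm_rpow hA1 hz hz1 h0 hs' ((Complex.re_le_norm s).trans hs)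
  have hM : 0 ≤ L * (2 : ℝ) ^ (R * dg K) + B * (2 * R * dg K * Real.exp (R * dg K)) := by positivity
  refine h1.trans ?_
  calc (L * (2 : ℝ) ^ (R * dg K) + B * (2 * R * dg K * Real.exp (R * dg K))) * (A * house k / house z) * nm z ^ (-s.re)
      ≤ (L * (2 : ℝ) ^ (R * dg K) + B * (2 * R * dg K * Real.exp (R * dg K))) * (A * house k / house z) *
        (A ^ R * house z ^ (-((dg K : ℝ) * σ₀))) := mul_le_mul_of_nonneg_left h2 (mul_nonneg hM hδ0)
    _ = (L * (2 : ℝ) ^ (R * dg K) + B * (2 * R * dg K * Real.exp (R * dg K))) *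
      (A * house k) * A ^ R * house z ^ (-((dg K : ℝ) * σ₀ + 1)) := by
        have e : -((dg K : ℝ) * σ₀ + 1) = -((dg K : ℝ) * σ₀) - 1 := by ring
        rw [e, Real.rpow_sub_one hz0.ne']
        ring

/-- trivial bound at the integers -/
theorem y15b_triv {g : K → ℂ} {B : ℝ} (hB : ∀ x, ‖g x‖ ≤ B) (hg : g 0 = 0) {s : ℂ} (hs : 0 ≤ s.re)
    (x : 𝓞 K) : ‖Fs g s (x : K)‖ ≤ B := by
  unfold Fs
  by_cases hx : x = 0
  · rw [hx]
    have e : ((0 : 𝓞 K) : K) = 0 := rfl
    rw [e, hg, zero_mul, norm_zero]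
    exact (norm_nonneg _).trans (hB 0)
  · have h1 : 1 ≤ nm (x : K) := one_le_nm hx
    rw [norm_mul, Complex.norm_cpow_eq_rpow_re_of_pos (by linarith)]
    have h2 : nm (x : K) ^ (-s).re ≤ 1 := by
      rw [Complex.neg_re]
      exact Real.rpow_le_one_of_one_le_of_nonpos h1 (by linarith)
    calc ‖g (x : K)‖ * nm (x : K) ^ (-s).re ≤ B * 1 :=
          mul_le_mul (hB _) h2 (Real.rpow_nonneg (by linarith) _) ((norm_nonneg _).trans (hB 0))
      _ = B := mul_one B

/-- comparison of powers -/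
theorem y15b_cmp {a b c E : ℝ} (hb : 0 < b) (hE : 0 ≤ E) (ha : 0 < a) (hc : 0 < c) (h : b ≤ c * a) :
    a ^ (-E) ≤ c ^ E * b ^ (-E) := by
  have h1 : b ^ E ≤ (c * a) ^ E := Real.rpow_le_rpow hb.le h hE
  rw [Real.mul_rpow hc.le ha.le] at h1
  rw [Real.rpow_neg ha.le, Real.rpow_neg hb.le, ← div_eq_mul_inv, inv_le_comm₀ (by positivity) (by positivity), inv_div,
    div_le_iff₀ (by positivity), mul_comm]
  exact h1

/-- The main estimate. `g` is bounded, `LL`, and 0 outside `Rg A`. -/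
theorem fs_diff {g : K → ℂ} {A : ℝ} (hB : Bd g) (hL : LL g) (hA : ∀ x, g x ≠ 0 → Rg A x) (h : 𝓞 K) {R σ₀ : ℝ}
    (hR : 0 ≤ R) (h0 : 0 ≤ σ₀) : ∃ C : ℝ, ∀ s : ℂ, ‖s‖ ≤ R → σ₀ ≤ s.re → ∀ x : 𝓞 K,
      ‖Fs g s ((x : K) + (h : K)) - Fs g s (x : K)‖ ≤ C * (1 + house (x : K)) ^ (-((dg K : ℝ) * σ₀ + 1)) := by
  obtain ⟨B, hB0, hB⟩ := hB
  obtain ⟨L, hL0, hL⟩ := hL
  have hg : g 0 = 0 := by
    by_contra hne
    exact (hA 0 hne).1 rfl
  obtain ⟨A', hA1, hAA⟩ : ∃ A' : ℝ, 1 ≤ A' ∧ A ≤ A' := ⟨max A 1, le_max_right _ _, le_max_left _ _⟩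
  have hA' : ∀ x, g x ≠ 0 → Rg A' x := fun x hx => y15b_mono hAA (hA x hx)
  have hh : 0 ≤ house (h : K) := house_nonneg _
  set M : ℝ := L * (2 : ℝ) ^ (R * dg K) + B * (2 * R * dg K * Real.exp (R * dg K)) with hM
  have hM0 : 0 ≤ M := by positivity
  set E : ℝ := (dg K : ℝ) * σ₀ + 1 with hE
  have hE0 : 0 ≤ E := by positivity
  set T : ℝ := 4 * A' * (house (h : K) + 1) with hT
  have hT4 : 4 ≤ T := by nlinarith
  set C1 : ℝ := M * (A' * house (h : K)) * A' ^ R with hC1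
  have hC10 : 0 ≤ C1 := by positivity
  refine ⟨C1 * 4 ^ E + 2 * B * (1 + T) ^ E, fun s hs hs' x => ?_⟩
  have hx0 : 0 ≤ house (x : K) := house_nonneg _
  have hp : 0 < (1 + house (x : K)) ^ (-E) := by positivity
  by_cases hc : T ≤ house (x : K)
  · have hmain : ‖Fs g s ((x : K) + (h : K)) - Fs g s (x : K)‖ ≤ C1 * 4 ^ E * (1 + house (x : K)) ^ (-E) := by
      have hx1 : 1 ≤ house (x : K) := by linarith
      have hAh : A' * house (h : K) ≤ 1 / 4 * house (x : K) := by nlinarith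
      by_cases hgx : g (x : K) = 0
      · by_cases hgy : g ((x : K) + (h : K)) = 0
        · unfold Fs
          rw [hgx, hgy, zero_mul, zero_mul, sub_zero, norm_zero]
          positivity
        · have hhx : house (h : K) ≤ 1 / 4 * house (x : K) := by nlinarith
          have h3 : house (x : K) ≤ house ((x : K) + (h : K)) + house (h : K) := by
            have h4 := house_add_le ((x : K) + (h : K)) (-(h : K))
            rw [y15b_neg, add_neg_cancel_right] at h4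
            exact h4
          have h5 := y15b_near (z := (x : K) + (h : K)) (k := -(h : K)) hA1 hB hL hL0 hB0 hR h0 hs hs' (hA' _ hgy)
            (by linarith) (by rw [y15b_neg]; linarith)
          rw [y15b_neg, add_neg_cancel_right, norm_sub_rev] at h5
          refine h5.trans ?_
          have h6 : house ((x : K) + (h : K)) ^ (-E) ≤ 4 ^ E * (1 + house (x : K)) ^ (-E) :=
            y15b_cmp (by linarith) hE0 (by linarith) (by norm_num) (by linarith)
          calc M * (A' * house (h : K)) * A' ^ R * house ((x : K) + (h : K)) ^ (-E)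
              ≤ C1 * (4 ^ E * (1 + house (x : K)) ^ (-E)) := mul_le_mul_of_nonneg_left h6 hC10
            _ = C1 * 4 ^ E * (1 + house (x : K)) ^ (-E) := by ring
      · have h5 := y15b_near (z := (x : K)) (k := (h : K)) hA1 hB hL hL0 hB0 hR h0 hs hs' (hA' _ hgx) hx1 (by linarith)
        refine h5.trans ?_
        have h6 : house (x : K) ^ (-E) ≤ 4 ^ E * (1 + house (x : K)) ^ (-E) :=
          y15b_cmp (by linarith) hE0 (by linarith) (by norm_num) (by linarith)
        calc M * (A' * house (h : K)) * A' ^ R * house (x : K) ^ (-E)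
            ≤ C1 * (4 ^ E * (1 + house (x : K)) ^ (-E)) := mul_le_mul_of_nonneg_left h6 hC10
          _ = C1 * 4 ^ E * (1 + house (x : K)) ^ (-E) := by ring
    have h7 : 0 ≤ 2 * B * (1 + T) ^ E * (1 + house (x : K)) ^ (-E) := by positivity
    rw [add_mul]
    linarith
  · rw [not_le] at hc
    have h1 : ‖Fs g s ((x : K) + (h : K)) - Fs g s (x : K)‖ ≤ 2 * B := by
      have h2 := y15b_triv hB hg (h0.trans hs') x
      have h3 := y15b_triv hB hg (h0.trans hs') (x + h)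
      have e : ((x + h : 𝓞 K) : K) = (x : K) + (h : K) := rfl
      rw [e] at h3
      have h4 := norm_sub_le (Fs g s ((x : K) + (h : K))) (Fs g s (x : K))
      linarith
    have h2 : 1 ≤ (1 + T) ^ E * (1 + house (x : K)) ^ (-E) := by
      rw [Real.rpow_neg (by linarith), ← div_eq_mul_inv, one_le_div (by positivity)]
      exact Real.rpow_le_rpow (by linarith) (by linarith) hE0
    have h3 : 2 * B ≤ 2 * B * ((1 + T) ^ E * (1 + house (x : K)) ^ (-E)) := le_mul_of_one_le_right (by positivity) h2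
    have h4 : 0 ≤ C1 * 4 ^ E * (1 + house (x : K)) ^ (-E) := by positivity
    rw [add_mul]
    linarith

end CFTY
end
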