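import Mathlib
import Pool.Agent.Lib.H1M.PP2.M002
import Pool.Agent.Lib.H1M.PP2.M024
import Pool.Agent.Lib.H1M.PP2.M026

/-! Merged copies (to shorten the build) of Lib.CFT.B12, Lib.CFT.B16, Lib.CFT.B17, Lib.CFT.X00, Lib.CFT.X12, Lib.CFT.Y06, Lib.CFT.ZD, Lib.CFT.YMod, Lib.CFT.Y25, Lib.CFT.Y26, Lib.CFT.B25, Lib.CFT.X11, Lib.CFT.Y19, Lib.CFT.Y23, Lib.CFT.Y03, Lib.CFT.Y04. -/

-- from Lib.CFT.B12
section

/-! # CFT module B, chunk B12: the norm of a totally positive element -/

open NumberField IsDedekindDomain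

namespace CFT

variable {K : Type} [Field K] [NumberField K] {L : Type} [Field L] [NumberField L] [Algebra K L]


/-- PROOF. Extend phi to i : K -> C. phi (norm y) (in C) = product over the ring homomorphisms s : L -> C with s o algebraMap = i of s y
(Algebra.norm_eq_prod_embeddings with the algebra structure i.toAlgebra on C: L ->A[K] C). Complex conjugation is an involution on this set (i is real valued); the fixed points are
real valued s, so s y > 0 (s factors through a real embedding: NumberField.ComplexEmbedding.IsReal.embedding), the other ones come in pairs with product |s y|^2 > 0.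
(Alternative: the product is real, positive because Finset.prod_involution-like argument; or sort: prod over all = prod over fixed * prod over non fixed,
the second is a product of squares of absolute values; or connectedness: y_t ...). -/
theorem norm_pos {y : L} (hy : y ≠ 0) (hpos : ∀ ψ : L →+* ℝ, 0 < ψ y) (φ : K →+* ℝ) : 0 < φ (Algebra.norm K y) := by
  classical
  letI alg : Algebra K ℂ := (Complex.ofRealHom.comp φ).toAlgebra
  have halg : ∀ r : K, algebraMap K ℂ r = ((φ r : ℝ) : ℂ) := fun r => rfl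
  have h := Algebra.norm_eq_prod_embeddings K ℂ y
  rw [halg] at h
  -- the conjugate embedding
  let g : (L →ₐ[K] ℂ) → (L →ₐ[K] ℂ) := fun s =>
    { toRingHom := (starRingEnd ℂ).comp s.toRingHom
      commutes' := fun r => by
        show (starRingEnd ℂ) (s (algebraMap K L r)) = algebraMap K ℂ r
        rw [s.commutes, halg, Complex.conj_ofReal] }
  have hg : ∀ (s : L →ₐ[K] ℂ) (z : L), g s z = (starRingEnd ℂ) (s z) := fun s z => rfl
  have hne : ∀ s : L →ₐ[K] ℂ, s y ≠ 0 := fun s h0 => hy (s.toRingHom.injective (by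
    rw [map_zero]
    exact h0))
  have hfix : ∀ s : L →ₐ[K] ℂ, g s = s → s y = (‖s y‖ : ℂ) := by
    intro s hs
    have hreal : NumberField.ComplexEmbedding.IsReal (s : L →+* ℂ) := by
      rw [NumberField.ComplexEmbedding.isReal_iff]
      ext z
      have := congrArg (fun t : L →ₐ[K] ℂ => t z) hs
      exact this
    have h1 := NumberField.ComplexEmbedding.IsReal.coe_embedding_apply hreal y
    have h2 := hpos hreal.embedding
    have h3 : s y = ((hreal.embedding y : ℝ) : ℂ) := h1.symm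
    rw [h3, Complex.norm_real, Real.norm_of_nonneg h2.le]
  have hprod : ∏ s : L →ₐ[K] ℂ, (s y / (‖s y‖ : ℂ)) = 1 := by
    refine Finset.prod_involution (fun s _ => g s) ?_ ?_ (fun s _ => Finset.mem_univ _) ?_
    · intro s _
      have h1 : (‖s y‖ : ℂ) ≠ 0 := by
        rw [Complex.ofReal_ne_zero]
        exact norm_ne_zero_iff.2 (hne s)
      have h2 : s y * (starRingEnd ℂ) (s y) = (‖s y‖ : ℂ) * (‖s y‖ : ℂ) := by
        rw [Complex.mul_conj, Complex.normSq_eq_norm_sq]
        push_cast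
        ring
      rw [hg, RCLike.norm_conj, div_mul_div_comm, h2]
      exact div_self (mul_ne_zero h1 h1)
    · intro s _ h1 h2
      apply h1
      have h3 := hfix s h2
      have h4 : (‖s y‖ : ℂ) ≠ 0 := by
        rw [Complex.ofReal_ne_zero]
        exact norm_ne_zero_iff.2 (hne s)
      rw [h3]
      simp only [Complex.norm_real, norm_norm]
      exact div_self h4
    · intro s _
      ext z
      rw [hg, hg, Complex.conj_conj]
  rw [Finset.prod_div_distrib, div_eq_one_iff_eq] at hprod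
  · rw [hprod, ← Complex.ofReal_prod, Complex.ofReal_inj] at h
    rw [h]
    exact Finset.prod_pos fun s _ => norm_pos_iff.2 (hne s)
  · rw [Finset.prod_ne_zero_iff]
    intro s _
    rw [Complex.ofReal_ne_zero]
    exact norm_ne_zero_iff.2 (hne s)

end CFT
end

-- from Lib.CFT.B16
section

/-! # CFT module B, chunk B16: inertia is trivial at unramified primes -/

open NumberField IsDedekindDomain

namespace CFT

variable {K : Type} [Field K] [NumberField K] {L : Type} [Field L] [NumberField L] [Algebra K L]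

theorem b16_gal [IsGalois K L] : IsGaloisGroup (L ≃ₐ[K] L) (𝓞 K) (𝓞 L) := inferInstance

theorem b16_card [IsGalois K L] (w : Pr L) : Nat.card (w.asIdeal.inertia (L ≃ₐ[K] L)) = w.asIdeal.ramificationIdx (𝓞 K) := by
  have hG : IsGaloisGroup (L ≃ₐ[K] L) (𝓞 K) (𝓞 L) := b16_gal
  have hp := w.isPrime
  have hv := (below K w).isMaximal
  have hl : w.asIdeal.LiesOver (below K w).asIdeal := ⟨rfl⟩
  have hfin : Finite (𝓞 K ⧸ (below K w).asIdeal) := Ring.HasFiniteQuotients.finiteQuotient (below K w).ne_bot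
  have hperf : PerfectField (below K w).asIdeal.ResidueField := by
    have : Finite (below K w).asIdeal.ResidueField :=
      Finite.of_surjective _ (Ideal.bijective_algebraMap_quotient_residueField (below K w).asIdeal).surjective
    infer_instance
  rw [Ideal.card_inertia_eq_ramificationIdxIn (G := L ≃ₐ[K] L) (below K w).asIdeal w.asIdeal,
    Ideal.ramificationIdxIn_eq_ramificationIdx (below K w).asIdeal w.asIdeal (L ≃ₐ[K] L)]

/-- PROOF. L/K Galois, G = L equiv L acts on O_L with invariants O_K. The inertia group of w has order ramificationIdx (Mathlib: Ideal.card_inertia_eq_ramificationIdxIn in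
NumberTheory/RamificationInertia/Galois.lean; ramificationIdxIn_eq_ramificationIdx), so it is trivial; s^-1 t is in the inertia group: for all x, s x - t x in w gives
t^-1 s x - x in t^-1 w ... Let a = s t^-1: a y - y in w for all y in O_L (y = t x). So a is in the inertia group of w (definition of Ideal.inertia: all y: a y - y in w), so a = 1. -/
theorem eq_of_cong [IsGalois K L] (w : Pr L) (h : w.asIdeal.ramificationIdx (𝓞 K) = 1) {s t : L ≃ₐ[K] L}
    (hst : ∀ x : 𝓞 L, s • x - t • x ∈ w.asIdeal) : s = t := by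
  have h1 : s * t⁻¹ ∈ w.asIdeal.inertia (L ≃ₐ[K] L) := by
    intro y
    have h2 := hst (t⁻¹ • y)
    rw [smul_inv_smul] at h2
    rw [mul_smul]
    exact h2
  have h3 := b16_card (K := K) w
  rw [h] at h3
  have h4 : w.asIdeal.inertia (L ≃ₐ[K] L) = ⊥ := Subgroup.eq_bot_of_card_eq _ h3
  rw [h4, Subgroup.mem_bot] at h1
  exact mul_inv_eq_one.1 h1

/-- PROOF. Conversely: if the only s with s x - x in w for all x is 1 then the inertia group is trivial and e = 1 by the same formula. -/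
theorem unr_of_inertia [IsGalois K L] (w : Pr L) (h : ∀ s : L ≃ₐ[K] L, (∀ x : 𝓞 L, s • x - x ∈ w.asIdeal) → s = 1) :
    w.asIdeal.ramificationIdx (𝓞 K) = 1 := by
  rw [← b16_card (K := K) w]
  have h4 : w.asIdeal.inertia (L ≃ₐ[K] L) = ⊥ := by
    rw [Subgroup.eq_bot_iff_forall]
    intro s hs
    exact h s hs
  rw [h4, Subgroup.card_bot]

end CFT
end

-- from Lib.CFT.B17
section

/-! # CFT module B, chunk B17: existence of the Frobenius element (abelian case) -/

open NumberField IsDedekindDomain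

namespace CFT

variable {K : Type} [Field K] [NumberField K] {L : Type} [Field L] [NumberField L] [Algebra K L]


instance b17_comm : SMulCommClass (L ≃ₐ[K] L) (𝓞 K) (𝓞 L) := by
  refine ⟨fun s a x => ?_⟩
  apply RingOfIntegers.ext
  show s ((a • x : 𝓞 L) : L) = ((a • (s • x : 𝓞 L) : 𝓞 L) : L)
  rw [Algebra.smul_def, Algebra.smul_def]
  show s (algebraMap K L (a : K) * (x : L)) = algebraMap K L (a : K) * s (x : L)
  rw [map_mul, AlgEquiv.commutes]

theorem b17_card (w : Pr L) : Nat.card (𝓞 K ⧸ w.asIdeal.under (𝓞 K)) = Nm (below K w) := by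
  unfold Nm
  rw [Ideal.absNorm_apply, Submodule.cardQuot_apply]
  rfl

theorem b17_fin (w : Pr L) : Finite (𝓞 L ⧸ w.asIdeal) := Ideal.finiteQuotientOfFreeOfNeBot _ w.ne_bot

/-- PROOF. One prime: IsArithFrobAt.exists_of_isInvariant (Mathlib RingTheory/Frobenius.lean) for G = L equiv L acting on O_L (IsInvariant (O_K) (O_L) G; the instance
SMulCommClass G (O_K) (O_L) may have to be supplied by hand: s (a x) = a s x); card (O_K / w.under) = Nm (below w) (Ideal.absNorm is the cardinality of the quotient, Submodule.cardQuot_apply / Nat.card). -/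
theorem fr_one [IsGalois K L] (w : Pr L) : ∃ s : L ≃ₐ[K] L, ∀ x : 𝓞 L, s • x - x ^ Nm (below K w) ∈ w.asIdeal := by
  haveI := b17_fin w
  obtain ⟨s, hs⟩ := IsArithFrobAt.exists_of_isInvariant (𝓞 K) (L ≃ₐ[K] L) w.asIdeal
  refine ⟨s, fun x => ?_⟩
  have h := hs x
  rw [b17_card] at h
  exact h

theorem b17_trans [IsGalois K L] (w w' : Pr L) (h : below K w = below K w') : ∃ g : L ≃ₐ[K] L, ∀ x : 𝓞 L, x ∈ w'.asIdeal ↔ g⁻¹ • x ∈ w.asIdeal := by
  have h1 : w.asIdeal.under (𝓞 K) = w'.asIdeal.under (𝓞 K) := congrArg HeightOneSpectrum.asIdeal h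
  obtain ⟨g, hg⟩ := Algebra.IsInvariant.exists_smul_of_under_eq (𝓞 K) (𝓞 L) (L ≃ₐ[K] L) w.asIdeal w'.asIdeal h1
  refine ⟨g, fun x => ?_⟩
  rw [hg, Ideal.pointwise_smul_eq_comap, Ideal.mem_comap]
  rfl

/-- PROOF. G acts transitively on the primes above v (Ideal.exists_smul_eq_of_isGaloisGroup, or exists_comap_galRestrict_eq; primesOver). If w' = g w then g s g^-1 = s is a Frobenius element for w'
(apply g to s x - x^q in w, with x = g^-1 y). -/
theorem fr_exists [IsGalois K L] (hab : ∀ a b : L ≃ₐ[K] L, a * b = b * a) (v : Pr K) : ∃ s, IsFr K L v s := by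
  obtain ⟨w, rfl⟩ := below_surj (K := K) (L := L) v
  obtain ⟨s, hs⟩ := fr_one (K := K) w
  refine ⟨s, fun w' hw' x => ?_⟩
  obtain ⟨g, hg⟩ := b17_trans (K := K) w w' hw'.symm
  rw [hg]
  have h := hs (g⁻¹ • x)
  have e : g⁻¹ • (s • x - x ^ Nm (below K w)) = s • (g⁻¹ • x) - (g⁻¹ • x) ^ Nm (below K w) := by
    rw [smul_sub, smul_pow', ← mul_smul, ← mul_smul, hab]
  rw [e]
  exact h

/-- PROOF. Take one prime w above v (below_surj, B06): s x - t x in w; eq_of_cong (B16). -/
theorem fr_unique [IsGalois K L] {v : Pr K} (hv : Unr K L v) {s t : L ≃ₐ[K] L} (hs : IsFr K L v s) (ht : IsFr K L v t) : s = t := by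
  obtain ⟨w, rfl⟩ := below_surj (K := K) (L := L) v
  refine eq_of_cong w (hv w rfl) fun x => ?_
  have h := w.asIdeal.sub_mem (hs w rfl x) (ht w rfl x)
  rwa [sub_sub_sub_cancel_right] at h

/-- PROOF. Unfold frob: dif_pos, Exists.choose_spec. -/
theorem frob_spec [IsGalois K L] (hab : ∀ a b : L ≃ₐ[K] L, a * b = b * a) {v : Pr K} (hv : Unr K L v) : IsFr K L v (frob K L v) := by
  have h : Unr K L v ∧ ∃ s, IsFr K L v s := ⟨hv, fr_exists hab v⟩
  unfold frob
  rw [dif_pos h]
  exact h.2.choose_spec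

/-- PROOF. fr_unique and dif_pos. -/
theorem frob_eq [IsGalois K L] {v : Pr K} (hv : Unr K L v) {s : L ≃ₐ[K] L} (hs : IsFr K L v s) : frob K L v = s := by
  have h : Unr K L v ∧ ∃ s, IsFr K L v s := ⟨hv, s, hs⟩
  unfold frob
  rw [dif_pos h]
  exact fr_unique hv h.2.choose_spec hs

/-- PROOF. One prime w is enough in the abelian case: fr_exists gives t with IsFr, s and t agree mod w, eq_of_cong, frob_eq. -/
theorem frob_eq_of_one [IsGalois K L] (hab : ∀ a b : L ≃ₐ[K] L, a * b = b * a) {v : Pr K} (hv : Unr K L v) (w : Pr L) (hw : below K w = v)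
    {s : L ≃ₐ[K] L} (hs : ∀ x : 𝓞 L, s • x - x ^ Nm v ∈ w.asIdeal) : frob K L v = s := by
  refine eq_of_cong w (hv w hw) fun x => ?_
  have h := w.asIdeal.sub_mem (frob_spec hab hv w hw x) (hs x)
  rwa [sub_sub_sub_cancel_right] at h

end CFT
end

-- from Lib.CFT.X00
section

/-! # CFT module X (Artin crossing): definitions. Tm K E S m: the primes of E above S or above m. -/

open NumberField IsDedekindDomain

namespace CFT

section

variable (K : Type) [Field K] [NumberField K] (E : Type) [Field E] [NumberField E] [Algebra K E]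

theorem m_fin (m : ℕ) [NeZero m] : {w : Pr E | (m : 𝓞 E) ∈ w.asIdeal}.Finite := by
  have h := Ideal.finite_factors (I := Ideal.span {(m : 𝓞 E)})
    (fun h => (NeZero.ne m) (by exact_mod_cast (Ideal.span_singleton_eq_bot.1 h)))
  refine h.subset fun v hv => ?_
  show v.asIdeal ∣ Ideal.span {(m : 𝓞 E)}
  rw [Ideal.dvd_span_singleton]
  exact hv

theorem Tm_fin (S : Finset (Pr K)) (m : ℕ) [NeZero m] : {w : Pr E | below K w ∈ S ∨ (m : 𝓞 E) ∈ w.asIdeal}.Finite :=
  (up_fin K E S).union (m_fin E m)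

/-- The primes of E above S or above m. -/
noncomputable def Tm (S : Finset (Pr K)) (m : ℕ) [NeZero m] : Finset (Pr E) := (Tm_fin K E S m).toFinset

variable {K E}

theorem mem_Tm {S : Finset (Pr K)} {m : ℕ} [NeZero m] {w : Pr E} : w ∈ Tm K E S m ↔ below K w ∈ S ∨ (m : 𝓞 E) ∈ w.asIdeal := by
  unfold Tm
  rw [Set.Finite.mem_toFinset]
  rfl

theorem up_subset_Tm (S : Finset (Pr K)) (m : ℕ) [NeZero m] : up E S ⊆ Tm K E S m := by
  intro w hw
  rw [mem_up] at hw
  exact mem_Tm.2 (Or.inl hw)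

/-- m is in w if and only if it is in the prime below. -/
theorem m_mem_below (m : ℕ) (w : Pr E) : (m : 𝓞 K) ∈ (below K w).asIdeal ↔ (m : 𝓞 E) ∈ w.asIdeal := by
  show algebraMap (𝓞 K) (𝓞 E) (m : 𝓞 K) ∈ w.asIdeal ↔ _
  rw [map_natCast]

end

end CFT
end

-- from Lib.CFT.X12
section

/-! # CFT X12 (M, 4 small): the Galois group of L(zeta_m)/K -/

open NumberField IsDedekindDomain

namespace CFT

section

variable (K : Type) [Field K] [NumberField K] (L : Type) [Field L] [NumberField L] [Algebra K L]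
  (M : Type) [Field M] [NumberField M] [Algebra K M] [Algebra L M] [IsScalarTower K L M] (m : ℕ) [NeZero m] [IsCyclotomicExtension {m} L M]

include K in
theorem x12_ind (P : M → Prop) (hL : ∀ x : L, P (algebraMap L M x)) (hz : ∀ b : M, b ^ m = 1 → P b) (hadd : ∀ a b, P a → P b → P (a + b))
    (hmul : ∀ a b, P a → P b → P (a * b)) (x : M) : P x := by
  have h := (inferInstance : IsCyclotomicExtension {m} L M).adjoin_roots x
  induction h using Algebra.adjoin_induction with
  | mem b hb =>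
    obtain ⟨n, hn, _, hb⟩ := hb
    rw [Set.mem_singleton_iff] at hn
    subst hn
    exact hz b hb
  | algebraMap r => exact hL r
  | add a b _ _ ha hb => exact hadd a b ha hb
  | mul a b _ _ ha hb => exact hmul a b ha hb

include m in
/-- PROOF. Separable (characteristic 0). Normal: M is generated over K by the image of L (normal over K) and a primitive m-th root of unity zeta, K(zeta)/K is normal; IntermediateField.normal_sup. Or: M is the
splitting field of f (X^m - 1), f in K[X] with splitting field L (IsGalois.of_separable_splitting_field). Or directly: an algebra homomorphism s : M -> algebraic closure over K maps L to L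
and zeta to a power of zeta. -/
theorem x_gal [IsGalois K L] : IsGalois K M := by
  have hζ := IsCyclotomicExtension.zeta_spec m L M
  haveI : Normal K (IsScalarTower.toAlgHom K L M).fieldRange :=
    Normal.of_algEquiv (AlgEquiv.ofInjectiveField (IsScalarTower.toAlgHom K L M))
  haveI : IsCyclotomicExtension {m} K (IntermediateField.adjoin K {IsCyclotomicExtension.zeta m L M}) :=
    hζ.intermediateField_adjoin_isCyclotomicExtension K
  haveI : IsGalois K (IntermediateField.adjoin K {IsCyclotomicExtension.zeta m L M}) := IsCyclotomicExtension.isGalois {m} K _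
  haveI : Normal K (IntermediateField.adjoin K {IsCyclotomicExtension.zeta m L M}) := IsGalois.to_normal
  have htop : (IsScalarTower.toAlgHom K L M).fieldRange ⊔ IntermediateField.adjoin K {IsCyclotomicExtension.zeta m L M} = ⊤ := by
    rw [eq_top_iff]
    intro x _
    refine x12_ind K L M m (fun x => x ∈ (IsScalarTower.toAlgHom K L M).fieldRange ⊔ IntermediateField.adjoin K {IsCyclotomicExtension.zeta m L M}) ?_ ?_ ?_ ?_ x
    · intro y
      exact (le_sup_left : (IsScalarTower.toAlgHom K L M).fieldRange ≤ _) ⟨y, rfl⟩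
    · intro b hb
      obtain ⟨i, _, hi⟩ := hζ.eq_pow_of_pow_eq_one hb
      rw [← hi]
      exact pow_mem ((le_sup_right : IntermediateField.adjoin K {IsCyclotomicExtension.zeta m L M} ≤ _) (IntermediateField.subset_adjoin K _ rfl)) i
    · intro a b ha hb
      exact add_mem ha hb
    · intro a b ha hb
      exact mul_mem ha hb
  have hN : Normal K (⊤ : IntermediateField K M) := by
    rw [← htop]
    infer_instance
  haveI : Normal K M := Normal.of_algEquiv (IntermediateField.topEquiv (F := K) (E := M))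
  exact ⟨⟩


variable {K L M m} {ζ : M} (hζ : IsPrimitiveRoot ζ m)

/-- PROOF. s fixes L (AlgEquiv.restrictNormal_commutes) and zeta (IsPrimitiveRoot.autToPow_spec), and M = L(zeta) (IsCyclotomicExtension.adjoin_primitive_root_eq_top or algHom_ext for the power
basis IsPrimitiveRoot.powerBasis). -/
theorem x_inj [IsGalois K L] (s : M ≃ₐ[K] M) (h1 : AlgEquiv.restrictNormalHom L s = 1) (h2 : hζ.autToPow K s = 1) : s = 1 := by
  apply AlgEquiv.ext
  intro x
  refine x12_ind K L M m (fun x => s x = x) ?_ ?_ ?_ ?_ x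
  · intro y
    have h3 := AlgEquiv.restrictNormal_commutes s L y
    have h4 : s.restrictNormal L = 1 := h1
    rw [h4, AlgEquiv.one_apply] at h3
    exact h3.symm
  · intro b hb
    obtain ⟨i, _, hi⟩ := hζ.eq_pow_of_pow_eq_one hb
    have h5 : s ζ = ζ := by
      rw [← hζ.autToPow_spec K s, h2]
      by_cases hm1 : m = 1
      · subst hm1
        have h6 : ζ = 1 := by
          have := hζ.pow_eq_one
          rwa [pow_one] at this
        rw [h6, one_pow]
      · haveI : Fact (1 < m) := ⟨by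
          have := NeZero.ne m
          omega⟩
        rw [Units.val_one, ZMod.val_one, pow_one]
    rw [← hi, map_pow, h5]
  · intro a b ha hb
    rw [map_add, ha, hb]
  · intro a b ha hb
    rw [map_mul, ha, hb]


include hζ in
/-- PROOF. a b a^-1 b^-1 is trivial under both homomorphisms: x_inj. -/
theorem x_comm [IsGalois K L] (hab : ∀ a b : L ≃ₐ[K] L, a * b = b * a) (a b : M ≃ₐ[K] M) : a * b = b * a := by
  have h := x_inj hζ (a * b * a⁻¹ * b⁻¹) (by
    rw [map_mul, map_mul, map_mul, map_inv, map_inv, hab (AlgEquiv.restrictNormalHom L a), mul_inv_cancel_right, mul_inv_cancel]) (by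
    rw [map_mul, map_mul, map_mul, map_inv, map_inv]
    rw [mul_comm (hζ.autToPow K a), mul_inv_cancel_right, mul_inv_cancel])
  have h2 : a * b * a⁻¹ = b := by
    rw [mul_inv_eq_one] at h
    exact h
  rw [mul_inv_eq_iff_eq_mul] at h2
  exact h2


/-- PROOF. Let s₀ be a lift of g (AlgEquiv.restrictNormalHom_surjective, M/K normal by x_gal). By IsCyclotomicExtension.autEquivPow (with hirr) there is t in Gal(M/L) with autToPow t = u (autToPow s₀)^-1
(same zeta or compare two primitive roots: s zeta = zeta^k for one primitive root gives it for all); s = (t restricted to K) s₀; t restricts to 1 on L. -/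
theorem x_surj [IsGalois K L] (hirr : Irreducible (Polynomial.cyclotomic m L)) (g : L ≃ₐ[K] L) (u : (ZMod m)ˣ) :
    ∃ s : M ≃ₐ[K] M, AlgEquiv.restrictNormalHom L s = g ∧ hζ.autToPow K s = u := by
  haveI : IsGalois K M := x_gal K L M m
  have hz := IsCyclotomicExtension.zeta_spec m L M
  obtain ⟨s₀, hs₀⟩ := AlgEquiv.restrictNormalHom_surjective (F := K) (K₁ := L) M g
  obtain ⟨t, ht⟩ := (IsCyclotomicExtension.autEquivPow M hirr).surjective (u * (hζ.autToPow K s₀)⁻¹)
  have ht2 : hz.autToPow L t = u * (hζ.autToPow K s₀)⁻¹ := ht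
  have ht3 : hζ.autToPow K (t.restrictScalars K) = u * (hζ.autToPow K s₀)⁻¹ := by
    rw [← ht2, IsPrimitiveRoot.autToPow_eq_modularCyclotomicCharacter, IsPrimitiveRoot.autToPow_eq_modularCyclotomicCharacter]
    rfl
  refine ⟨t.restrictScalars K * s₀, ?_, ?_⟩
  · rw [map_mul, hs₀]
    have h1 : AlgEquiv.restrictNormalHom L (t.restrictScalars K) = (1 : L ≃ₐ[K] L) := by
      apply AlgEquiv.ext
      intro y
      apply (algebraMap L M).injective
      have h2 := AlgEquiv.restrictNormal_commutes (t.restrictScalars K) L y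
      have h3 : (t.restrictScalars K) (algebraMap L M y) = algebraMap L M y := t.commutes y
      rw [h3] at h2
      exact h2
    rw [h1, one_mul]
  · rw [map_mul, ht3, inv_mul_cancel_right]


end

end CFT
end

-- from Lib.CFT.Y06
section

/-! # CFT module Y, chunk Y06: an application of Minkowski's theorem -/

open NumberField

namespace CFTY

variable {K : Type} [Field K] [NumberField K]

/-- PROOF. `NumberField.mixedEmbedding.exists_ne_zero_mem_ringOfIntegers_lt` with `f w = t * (w x)⁻¹ * (nm x)^(1/d)`, where `t` (independent of `x`) is so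
large that `t ^ d > minkowskiBound K 1` (`minkowskiBound_lt_top`; `convexBodyLT_volume`, `convexBodyLTFactor ≥ 1`,
`InfinitePlace.prod_eq_abs_norm`: `∏ w, w x ^ mult w = |norm x|`, `∑ w, mult w = d`: `InfinitePlace.sum_mult_eq`; so `∏ w, f w ^ mult w = t ^ d`).
We get `a ≠ 0` with `w a < f w`, so `w (a x) < t (nm x)^(1/d)` for all `w`, `house (a x) ≤ t (nm x)^(1/d)`. `c = t ^ d`. -/
theorem mink (K : Type) [Field K] [NumberField K] : ∃ c : ℝ, 0 < c ∧ ∀ x : K, x ≠ 0 →
    ∃ a : 𝓞 K, a ≠ 0 ∧ house ((a : K) * x) ^ dg K ≤ c * nm x := by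
  classical
  obtain ⟨B, hB⟩ : ∃ B : NNReal, B = (NumberField.mixedEmbedding.minkowskiBound K ↑1).toNNReal + 1 := ⟨_, rfl⟩
  have hB0 : 0 < B := by rw [hB]; positivity
  have hB1 : NumberField.mixedEmbedding.minkowskiBound K ↑1 < (B : ENNReal) := by
    have h1 := (NumberField.mixedEmbedding.minkowskiBound_lt_top K ↑1).ne
    rw [hB, ENNReal.coe_add, ENNReal.coe_toNNReal h1, ENNReal.coe_one]
    exact ENNReal.lt_add_right h1 one_ne_zero
  refine ⟨(B : ℝ), by exact_mod_cast hB0, fun x hx => ?_⟩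
  have hN : 0 < nm x := nm_pos hx
  have hd : dg K ≠ 0 := by have := dg_pos (K := K); omega
  obtain ⟨r, hr⟩ : ∃ r : ℝ, r = ((B : ℝ) * nm x) ^ ((dg K : ℝ)⁻¹) := ⟨_, rfl⟩
  have hBN : 0 < (B : ℝ) * nm x := mul_pos (by exact_mod_cast hB0) hN
  have hr0 : 0 < r := by
    rw [hr]
    exact Real.rpow_pos_of_pos hBN _
  have hrd : r ^ dg K = B * nm x := by
    rw [hr]
    exact Real.rpow_inv_natCast_pow hBN.le hd
  have hw : ∀ w : InfinitePlace K, 0 < w x := fun w => InfinitePlace.pos_iff.2 hx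
  obtain ⟨f, hf⟩ : ∃ f : InfinitePlace K → NNReal, ∀ w, (f w : ℝ) = r / w x :=
    ⟨fun w => ⟨r / w x, (div_pos hr0 (hw w)).le⟩, fun w => rfl⟩
  have hprod : ∏ w, (f w) ^ w.mult = B := by
    apply NNReal.coe_injective
    rw [NNReal.coe_prod]
    have h1 : ∀ w : InfinitePlace K, ((f w ^ w.mult : NNReal) : ℝ) = r ^ w.mult / (w x) ^ w.mult := fun w => by
      rw [NNReal.coe_pow, hf, div_pow]
    rw [Finset.prod_congr rfl fun w _ => h1 w, Finset.prod_div_distrib, InfinitePlace.prod_eq_abs_norm, Finset.prod_pow_eq_pow_sum,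
      InfinitePlace.sum_mult_eq]
    have h2 : ((|Algebra.norm ℚ x| : ℚ) : ℝ) = nm x := by
      unfold nm
      rw [Rat.cast_abs]
    have h3 : r ^ Module.finrank ℚ K = B * nm x := hrd
    rw [h2, h3, mul_div_cancel_right₀ _ hN.ne']
  have hvol : NumberField.mixedEmbedding.minkowskiBound K ↑1 < MeasureTheory.volume (NumberField.mixedEmbedding.convexBodyLT K f) := by
    rw [NumberField.mixedEmbedding.convexBodyLT_volume]
    refine hB1.trans_le ?_
    rw [hprod]
    have h2 : (1 : ENNReal) ≤ (NumberField.mixedEmbedding.convexBodyLTFactor K : ENNReal) := by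
      exact_mod_cast NumberField.mixedEmbedding.one_le_convexBodyLTFactor K
    calc (B : ENNReal) = 1 * B := (one_mul _).symm
      _ ≤ _ := mul_le_mul_left h2 _
  obtain ⟨a, ha, hlt⟩ := NumberField.mixedEmbedding.exists_ne_zero_mem_ringOfIntegers_lt K hvol
  refine ⟨a, ha, ?_⟩
  rw [← hrd]
  refine pow_le_pow_left₀ (norm_nonneg _) ?_ _
  show ‖canonicalEmbedding K ((a : K) * x)‖ ≤ r
  rw [pi_norm_le_iff_of_nonneg hr0.le]
  intro σ
  have h1 := hlt (InfinitePlace.mk σ)
  rw [hf, lt_div_iff₀ (hw _), ← map_mul, InfinitePlace.apply] at h1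
  exact h1.le

end CFTY
end

-- from Lib.CFT.ZD
section

/-! # CFT, module Z: ray class characters and their Dirichlet series (definitions, first lemmas)

cphi χ v: the value of the character χ of Dv K at the prime v. chI S χ: the character on the ideals (0 at the ideals which are 0 or divisible by
a prime in S, otherwise the product of the values at the prime factors). Its Dirichlet series is Ls (chI S χ) s. -/

open NumberField IsDedekindDomain

namespace CFTZ

open H55R CFT

variable {K : Type} [Field K] [NumberField K]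

/-- The product of the primes in S. -/
noncomputable def SI (S : Finset (Pr K)) : Ideal (𝓞 K) := ∏ v ∈ S, v.asIdeal

/-- The values of a character of the group of divisors at the primes. -/
noncomputable def cphi (χ : Dv K →+ Additive ℂˣ) (v : Pr K) : ℂˣ := (χ (Finsupp.single v 1)).toMul

/-- The character on the ideals, 0 for the ideals divisible by a prime in S. -/
noncomputable def chI (S : Finset (Pr K)) (χ : Dv K →+ Additive ℂˣ) : Ideal (𝓞 K) →*₀ ℂ := tI (SI S) (cphi χ)


/-- The primes containing the product of the primes in S are the primes in S. -/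
theorem SI_le (S : Finset (Pr K)) (v : Pr K) : SI S ≤ v.asIdeal ↔ v ∈ S := by
  have hp := v.isPrime
  unfold SI
  rw [hp.prod_le]
  constructor
  · rintro ⟨w, hw, h⟩
    have h1 := w.isMaximal.eq_of_le hp.ne_top h
    have h2 : w = v := HeightOneSpectrum.ext h1
    rwa [← h2]
  · intro h
    exact ⟨v, h, le_rfl⟩

/-- A prime is coprime to the product of the primes in S iff it is not in S. -/
theorem cop_iff (S : Finset (Pr K)) (v : Pr K) : IsCoprime v.asIdeal (SI S) ↔ v ∉ S := by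
  rw [Ideal.isCoprime_iff_sup_eq, ← SI_le]
  constructor
  · intro h hf
    rw [sup_eq_left.2 hf] at h
    exact v.isPrime.ne_top h
  · intro h
    by_contra hne
    apply h
    have h1 := v.isMaximal.eq_of_le hne le_sup_left
    rw [h1]
    exact le_sup_right

theorem chI_prime (S : Finset (Pr K)) (χ : Dv K →+ Additive ℂˣ) {v : Pr K} (h : v ∉ S) :
    chI S χ v.asIdeal = (cphi χ v : ℂ) := by
  unfold chI
  rw [tI_apply _ _ v.ne_bot ((cop_iff S v).2 h), pv_prime]

theorem chI_prime_mem (S : Finset (Pr K)) (χ : Dv K →+ Additive ℂˣ) {v : Pr K} (h : v ∈ S) :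
    chI S χ v.asIdeal = 0 := by
  unfold chI
  exact tI_zero _ _ fun h' => (cop_iff S v).1 h' h

/-- A character is the product of the values at the primes. -/
theorem chi_apply (χ : Dv K →+ Additive ℂˣ) (D : Dv K) : (χ D).toMul = D.prod fun v n => cphi χ v ^ n := by
  induction D using Finsupp.induction_linear with
  | zero => rw [map_zero, toMul_zero, Finsupp.prod_zero_index]
  | add D E hD hE =>
    rw [map_add, toMul_add, hD, hE, Finsupp.prod_add_index']
    · intro v
      exact zpow_zero _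
    · intro v a b
      exact zpow_add _ _ _
  | single v n =>
    rw [Finsupp.prod_single_index (zpow_zero _)]
    have h : (Finsupp.single v n : Dv K) = n • Finsupp.single v 1 := by
      rw [Finsupp.smul_single, smul_eq_mul, mul_one]
    rw [h, map_zsmul, toMul_zsmul]
    rfl

/-- Characters with the same values at the primes are equal. -/
theorem chi_ext {χ ψ : Dv K →+ Additive ℂˣ} (h : ∀ v, cphi χ v = cphi ψ v) : χ = ψ := by
  refine AddMonoidHom.ext fun D => ?_
  apply Additive.toMul.injective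
  rw [chi_apply, chi_apply]
  exact Finsupp.prod_congr fun v _ => by rw [h]

end CFTZ
end

-- from Lib.CFT.YMod
section

/-! # CFT, module Y: the modulus of the ray Ray S N (definition) -/

open NumberField IsDedekindDomain

namespace CFTY

open CFT

variable {K : Type} [Field K] [NumberField K]

/-- the product of the v^(N+1), v in S -/
noncomputable def mI (S : Finset (Pr K)) (N : ℕ) : Ideal (𝓞 K) := ∏ v ∈ S, v.asIdeal ^ (N + 1)

theorem mI_ne (S : Finset (Pr K)) (N : ℕ) : mI S N ≠ ⊥ := by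
  unfold mI
  exact Finset.prod_ne_zero_iff.2 fun v _ => pow_ne_zero _ v.ne_bot

end CFTY
end

-- from Lib.CFT.Y25
section

/-! # CFT module Y, chunk Y25: the modulus -/

open NumberField IsDedekindDomain

namespace CFTY

open CFT

variable {K : Type} [Field K] [NumberField K]

theorem y25_max (v : Pr K) (a : Ideal (𝓞 K)) : IsCoprime a v.asIdeal ↔ ¬ a ≤ v.asIdeal := by
  have hv : v.asIdeal.IsMaximal := v.isMaximal
  rw [Ideal.isCoprime_iff_sup_eq]
  constructor
  · intro h h1
    rw [sup_eq_right.2 h1] at h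
    exact hv.ne_top h
  · intro h
    by_contra hcon
    exact h (le_sup_left.trans (hv.eq_of_le hcon le_sup_right).ge)

/-- PROOF. `IsCoprime.prod_right_iff`, `IsCoprime.pow_right_iff`; for a maximal ideal `v`: `IsCoprime a v ↔ ¬ a ≤ v`. -/
theorem cop_mI (S : Finset (Pr K)) (N : ℕ) (a : Ideal (𝓞 K)) : IsCoprime a (mI S N) ↔ ∀ v ∈ S, ¬ a ≤ v.asIdeal := by
  unfold mI
  rw [IsCoprime.prod_right_iff]
  refine forall₂_congr fun v _ => ?_
  rw [IsCoprime.pow_right_iff (Nat.succ_pos N), y25_max]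

/-- the same for the product `SI S` -/
theorem cop_SI (S : Finset (Pr K)) (a : Ideal (𝓞 K)) : IsCoprime a (CFTZ.SI S) ↔ ∀ v ∈ S, ¬ a ≤ v.asIdeal := by
  unfold CFTZ.SI
  rw [IsCoprime.prod_right_iff]
  exact forall₂_congr fun v _ => y25_max v a

/-- PROOF. The `v^(N+1)` are pairwise coprime, so their product is their intersection. -/
theorem mem_mI (S : Finset (Pr K)) (N : ℕ) (x : 𝓞 K) : x ∈ mI S N ↔ ∀ v ∈ S, x ∈ v.asIdeal ^ (N + 1) := by
  classical
  induction S using Finset.induction_on with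
  | empty => simp [mI]
  | insert v S hv ih =>
    have hcop : IsCoprime (v.asIdeal ^ (N + 1)) (mI S N) := by
      refine IsCoprime.pow_left ?_
      rw [cop_mI]
      intro w hw hle
      have hvm : v.asIdeal.IsMaximal := v.isMaximal
      have : v.asIdeal = w.asIdeal := hvm.eq_of_le w.isPrime.ne_top hle
      exact hv (HeightOneSpectrum.ext this ▸ hw)
    have e : mI (insert v S) N = v.asIdeal ^ (N + 1) * mI S N := by
      unfold mI
      rw [Finset.prod_insert hv]
    rw [e, Ideal.mul_eq_inf_of_coprime (Ideal.isCoprime_iff_sup_eq.1 hcop), Ideal.mem_inf, ih]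
    simp

/-- PROOF. `mem_mI`; `x ∈ v^(N+1)` iff `v.valuation K x ≤ exp (-(N+1))` (`HeightOneSpectrum.intValuation_le_pow_iff_mem`, `valuation_of_algebraMap`) iff `< exp (-N)`. -/
theorem ray_iff (S : Finset (Pr K)) (N : ℕ) (x : 𝓞 K) : (x - 1 ∈ mI S N ∧ TP (x : K)) ↔ Ray S N (x : K) := by
  have key : ∀ v : Pr K, x - 1 ∈ v.asIdeal ^ (N + 1) ↔
      v.valuation K ((x : K) - 1) < WithZero.exp (-(N : ℤ)) := by
    intro v
    have e : ((x : K) - 1) = ((x - 1 : 𝓞 K) : K) := rfl
    rw [e]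
    by_cases h0 : x - 1 = 0
    · rw [h0]
      refine ⟨fun _ => ?_, fun _ => Ideal.zero_mem _⟩
      have e0 : ((0 : 𝓞 K) : K) = 0 := map_zero _
      rw [e0, map_zero]
      exact WithZero.zero_lt_coe _
    · have h1 := od_le_iff v h0 (N + 1)
      rw [← h1, val_lt_iff v (fun h => h0 (RingOfIntegers.coe_eq_zero_iff.1 h))]
      push_cast
      omega
  rw [mem_mI]
  constructor
  · rintro ⟨h1, h2, h3⟩
    exact ⟨h2, fun v hv => (key v).1 (h1 v hv), h3⟩
  · rintro ⟨h1, h2, h3⟩
    exact ⟨fun v hv => (key v).2 (h2 v hv), h1, h3⟩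

end CFTY
end

-- from Lib.CFT.Y26
section

/-! # CFT module Y, chunk Y26: principal ideals of the ray and Pray -/

open NumberField IsDedekindDomain

namespace CFTY

open CFT

variable {K : Type} [Field K] [NumberField K]

/-- PROOF. `v ∣ idl D ↔ 1 ≤ D v` (`le_idl_iff` with `n = 1`), `cop_mI`, `Ideal.dvd_iff_le`. -/
theorem cop_idl {S : Finset (Pr K)} (N : ℕ) {D : Dv K} (hD : ∀ v, 0 ≤ D v) :
    IsCoprime (idl D) (mI S N) ↔ ∀ v ∈ S, D v = 0 := by
  rw [cop_mI]
  refine forall₂_congr fun v _ => ?_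
  have h1 := le_idl_iff hD v 1
  rw [pow_one, Ideal.dvd_iff_le] at h1
  rw [h1]
  have h2 := hD v
  constructor
  · intro h
    push_cast at h
    omega
  · intro h
    push_cast
    omega

/-- PROOF. Left to right: `idl D = span {x} = idl (dv x)` (`idl_dv`), so `D = dv x` (`idl_inj`, `od_nonneg`), `ray_iff`, `dv_mem_Pray`. Right to left: `x` with `Ray S N x`, `D v = od v x` outside
`S`; in `S`: `od v x = 0 = D v` (`Ray.od_eq`). So all `od v x ≥ 0`, `x` is integral (`int_of_od`), `D = dv x`, `idl D = span {x}` (`idl_dv`), `ray_iff`. -/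
theorem prI_idl {S : Finset (Pr K)} {N : ℕ} {D : Dv K} (hD : ∀ v, 0 ≤ D v) (hS : ∀ v ∈ S, D v = 0) :
    PrI (mI S N) (idl D) ↔ D ∈ Pray S N := by
  constructor
  · rintro ⟨x, hx, hpos, h⟩
    have hR := (ray_iff S N x).1 ⟨hx, hpos⟩
    have hx0 : x ≠ 0 := by
      rintro rfl
      exact hR.ne rfl
    have h1 : idl D = idl (dv (x : K)) := by rw [h, idl_dv hx0]
    have h2 : D = dv (x : K) := idl_inj hD (fun v => od_nonneg v x) h1
    rw [h2]
    exact dv_mem_Pray hR
  · rintro ⟨x, hx, h⟩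
    have h1 : D = dv x := by
      ext v
      by_cases hv : v ∈ S
      · rw [hS v hv, dv_apply, hx.od_eq hv]
      · rw [h v hv, dv_apply]
    obtain ⟨r, rfl⟩ := int_of_od (x := x) fun v => by
      rw [← dv_apply, ← h1]
      exact hD v
    have hr0 : r ≠ 0 := by
      rintro rfl
      exact hx.ne rfl
    obtain ⟨h2, h3⟩ := (ray_iff S N r).2 hx
    exact ⟨r, h2, h3, by rw [h1, idl_dv hr0]⟩

end CFTY
end

-- from Lib.CFT.B25
section

/-! # CFT module B, chunk B25: group lemmas for the end -/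

open NumberField IsDedekindDomain

namespace CFT

/-- PROOF. A cyclic group of order l^r, l prime: the subgroups form a chain; if r = 0 any element of T (nonempty) or ... (T is not empty is assumed). If no element of T generates G then all elements of T lie in the unique
subgroup of index l (the l-th powers), so the closure is not everything. -/
theorem gen_mem {G : Type} [Group G] [Finite G] (hc : IsCyclic G) (l r : ℕ) (hl : l.Prime) (hn : Nat.card G = l ^ r) (T : Set G) (hne : T.Nonempty)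
    (hT : Subgroup.closure T = ⊤) : ∃ g ∈ T, Subgroup.zpowers g = ⊤ := by
  classical
  by_contra hcon
  push Not at hcon
  obtain ⟨g0, hg0⟩ := hc.exists_generator
  have hord : orderOf g0 = l ^ r := by
    rw [← hn]
    exact orderOf_eq_card_of_forall_mem_zpowers hg0
  rcases r with _ | r
  · rw [pow_zero] at hn
    obtain ⟨t, ht⟩ := hne
    refine hcon t ht ?_
    have hs : Subsingleton G := (Nat.card_eq_one_iff_unique.1 hn).1
    exact Subsingleton.elim _ _
  · have hkey : ∀ t ∈ T, t ^ (l ^ r) = 1 := by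
      intro t ht
      have h1 : orderOf t ∣ l ^ (r + 1) := by
        rw [← hn]
        exact orderOf_dvd_natCard t
      obtain ⟨m, hm, hm2⟩ := (Nat.dvd_prime_pow hl).1 h1
      have h2 : m ≠ r + 1 := by
        rintro rfl
        refine hcon t ht ?_
        rw [← Subgroup.card_eq_iff_eq_top, Nat.card_zpowers, hm2, hn]
      have h3 : m ≤ r := by omega
      rw [← orderOf_dvd_iff_pow_eq_one, hm2]
      exact pow_dvd_pow l h3
    letI : CommGroup G := hc.commGroup
    have h4 : Subgroup.closure T ≤ (powMonoidHom (l ^ r) : G →* G).ker := by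
      rw [Subgroup.closure_le]
      intro t ht
      exact hkey t ht
    have h5 : g0 ∈ (powMonoidHom (l ^ r) : G →* G).ker := h4 (hT ▸ Subgroup.mem_top g0)
    have h6 : g0 ^ (l ^ r) = 1 := h5
    rw [← orderOf_dvd_iff_pow_eq_one, hord] at h6
    have h7 := Nat.le_of_dvd (pow_pos hl.pos r) h6
    have h8 : l ^ r < l ^ (r + 1) := Nat.pow_lt_pow_right hl.one_lt (Nat.lt_succ_self r)
    omega


/-- PROOF. Character chi : G -> C^* with chi g <> 1 (CommGroup.exists_apply_ne_one_of_hasEnoughRootsOfUnity); the image of chi is cyclic of order n; let d = order of chi g, l a prime divisor of d, n = l^r n', l not dividing n';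
chi' = chi^n' has image of order l^r (cyclic) and chi'(g) <> 1 since d does not divide n'. H = ker chi'. G/H is isomorphic to the image. (Or: H maximal among the subgroups not containing g.) -/
theorem ker_pp {G : Type} [Group G] [Finite G] (hab : ∀ a b : G, a * b = b * a) (g : G) (hg : g ≠ 1) :
    ∃ H : Subgroup G, ∃ _ : H.Normal, g ∉ H ∧ IsCyclic (G ⧸ H) ∧ ∃ l r : ℕ, l.Prime ∧ Nat.card (G ⧸ H) = l ^ r := by
  classical
  letI : CommGroup G := { (inferInstance : Group G) with mul_comm := hab }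
  obtain ⟨χ, hχ⟩ := CommGroup.exists_apply_ne_one_of_hasEnoughRootsOfUnity G ℂ hg
  have hcard : Nat.card G ≠ 0 := Nat.card_pos.ne'
  have hc1 : (χ g) ^ Nat.card G = 1 := by rw [← map_pow, pow_card_eq_one', map_one]
  have hd : orderOf (χ g) ≠ 1 := fun h => hχ (orderOf_eq_one_iff.1 h)
  obtain ⟨l, hl, hld⟩ := Nat.exists_prime_and_dvd hd
  obtain ⟨r, n', hn', hrn⟩ := Nat.exists_eq_pow_mul_and_not_dvd hcard l hl.ne_one
  have hker : ∀ x : G, ((χ ^ n') x) ^ (l ^ r) = 1 := by
    intro x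
    rw [MonoidHom.pow_apply, ← pow_mul, mul_comm n', ← hrn, ← map_pow, pow_card_eq_one', map_one]
  have hrange : ∀ y : (χ ^ n').range, y ^ (l ^ r) = 1 := by
    rintro ⟨y, x, rfl⟩
    exact Subtype.ext (hker x)
  haveI : Finite (χ ^ n').range := Set.finite_range _ |>.to_subtype
  have hp : IsPGroup l (χ ^ n').range := fun y => ⟨r, hrange y⟩
  haveI : Fact l.Prime := ⟨hl⟩
  obtain ⟨r', hr'⟩ := IsPGroup.iff_card.1 hp
  have e := QuotientGroup.quotientKerEquivRange (χ ^ n')
  refine ⟨(χ ^ n').ker, inferInstance, ?_, ?_, l, r', hl, ?_⟩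
  · intro h
    have h1 : (χ g) ^ n' = 1 := h
    exact hn' (hld.trans (orderOf_dvd_iff_pow_eq_one.2 h1))
  · haveI : IsCyclic (χ ^ n').range := inferInstance
    exact isCyclic_of_surjective e.symm e.symm.surjective
  · rw [Nat.card_congr e.toEquiv, hr']


end CFT
end

-- from Lib.CFT.X11
section

/-! # CFT X11 (M): the choice of m = q₁ q₂

PROOF. Nm v >= 2 (Nm_pos, and absNorm = 1 iff the ideal is the whole ring). A prime number q with (q : O_K) in v divides Nm v (Ideal.absNorm_mem: Nm v in v; if q does not divide Nm v then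
1 = q x + Nm v y is in v), and only one prime number is in v. So {q | q.Prime and (q : O_K) in v} is finite (a subset of the divisors of Nm v, or a subsingleton). Let B be from x_irr2 (X10), q₁ from
x_primes (X06) with a = Nm v, avoiding B and the primes in v, v₀; B' from x_irr2, q₂ from x_primes with a = Nm v₀, avoiding B' and the primes in v, v₀. If (q₁ q₂ : O_K) is in v, then q₁ or q₂
is in v (prime ideal), a contradiction. -/

open NumberField IsDedekindDomain

namespace CFT

/-- Only one prime number is in a prime ideal. -/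
theorem x11_fin (K : Type) [Field K] [NumberField K] (v : Pr K) : {q : ℕ | q.Prime ∧ (q : 𝓞 K) ∈ v.asIdeal}.Finite := by
  refine Set.Subsingleton.finite ?_
  rintro q ⟨hq, hqv⟩ q' ⟨hq', hqv'⟩
  by_contra hne
  have h1 : IsCoprime (q : ℤ) (q' : ℤ) := Nat.isCoprime_iff_coprime.2 ((Nat.coprime_primes hq hq').2 hne)
  obtain ⟨a, b, hab⟩ := h1
  have h2 : (a : 𝓞 K) * (q : 𝓞 K) + (b : 𝓞 K) * (q' : 𝓞 K) = 1 := by exact_mod_cast hab
  apply v.isPrime.ne_top
  rw [Ideal.eq_top_iff_one, ← h2]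
  exact v.asIdeal.add_mem (v.asIdeal.mul_mem_left _ hqv) (v.asIdeal.mul_mem_left _ hqv')

theorem x11_two (K : Type) [Field K] [NumberField K] (v : Pr K) : 2 ≤ Nm v := by
  have h1 := Nm_pos v
  have h2 : Nm v ≠ 1 := by
    intro h
    unfold Nm at h
    exact v.isPrime.ne_top (Ideal.absNorm_eq_one_iff.1 h)
  omega

theorem x_choose (K : Type) [Field K] [NumberField K] (L : Type) [Field L] [NumberField L] {l : ℕ} (hl : l.Prime) (r : ℕ) (v v₀ : Pr K) :
    ∃ q₁ q₂ : ℕ, q₁.Prime ∧ q₂.Prime ∧ q₁ ≠ q₂ ∧ Irreducible (Polynomial.cyclotomic (q₁ * q₂) L) ∧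
      ((q₁ * q₂ : ℕ) : 𝓞 K) ∉ v.asIdeal ∧ ((q₁ * q₂ : ℕ) : 𝓞 K) ∉ v₀.asIdeal ∧
      l ^ r ∣ orderOf (Nm v : ZMod q₁) ∧ l ^ r ∣ orderOf (Nm v₀ : ZMod q₂) ∧ l ^ r ∣ q₁ - 1 ∧ l ^ r ∣ q₂ - 1 := by
  obtain ⟨B, hB, hB2⟩ := x_irr2 L
  obtain ⟨q₁, hq₁, hn₁, -, ho₁, hd₁⟩ := x_primes (x11_two K v) hl r (B ∪ ({q : ℕ | q.Prime ∧ (q : 𝓞 K) ∈ v.asIdeal} ∪ {q : ℕ | q.Prime ∧ (q : 𝓞 K) ∈ v₀.asIdeal}))
    (hB.union ((x11_fin K v).union (x11_fin K v₀)))
  rw [Set.mem_union, Set.mem_union, not_or, not_or] at hn₁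
  obtain ⟨hn1, hn2, hn3⟩ := hn₁
  obtain ⟨B', hB', hqB', hirr⟩ := hB2 q₁ hq₁ hn1
  obtain ⟨q₂, hq₂, hn₂, -, ho₂, hd₂⟩ := x_primes (x11_two K v₀) hl r (B' ∪ ({q : ℕ | q.Prime ∧ (q : 𝓞 K) ∈ v.asIdeal} ∪ {q : ℕ | q.Prime ∧ (q : 𝓞 K) ∈ v₀.asIdeal}))
    (hB'.union ((x11_fin K v).union (x11_fin K v₀)))
  rw [Set.mem_union, Set.mem_union, not_or, not_or] at hn₂
  obtain ⟨hm1, hm2, hm3⟩ := hn₂
  refine ⟨q₁, q₂, hq₁, hq₂, ?_, hirr q₂ hq₂ hm1, ?_, ?_, ho₁, ho₂, hd₁, hd₂⟩
  · rintro rfl
    exact hm1 hqB'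
  · intro h
    rw [Nat.cast_mul] at h
    rcases v.isPrime.mem_or_mem h with h | h
    · exact hn2 ⟨hq₁, h⟩
    · exact hm2 ⟨hq₂, h⟩
  · intro h
    rw [Nat.cast_mul] at h
    rcases v₀.isPrime.mem_or_mem h with h | h
    · exact hn3 ⟨hq₁, h⟩
    · exact hm3 ⟨hq₂, h⟩


end CFT
end

-- from Lib.CFT.Y19
section

/-! # CFT module Y, chunk Y19: counting residue classes -/

open NumberField

namespace CFTY

variable {K : Type} [Field K] [NumberField K]

/-- PROOF. The map `Ideal.Quotient.factor : 𝓞 K ⧸ J → 𝓞 K ⧸ h` is surjective, its fibres have the same number of elements (translates of the kernel;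
`AddMonoidHom.card_fiber_eq_of_mem_range`), there are `absNorm h` fibres and `absNorm J` elements (`Ideal.absNorm_apply`, `Submodule.cardQuot_apply`). -/
theorem card_fiber {J h : Ideal (𝓞 K)} (hJ : J ≠ ⊥) (hJh : J ≤ h) (z : 𝓞 K) :
    Nat.card {q : 𝓞 K ⧸ J // Ideal.Quotient.factor hJh q = Ideal.Quotient.mk h z} * Ideal.absNorm h = Ideal.absNorm J := by
  classical
  have hh : h ≠ ⊥ := fun e => hJ (le_bot_iff.1 (e ▸ hJh))
  haveI : Finite (𝓞 K ⧸ J) := Ideal.finiteQuotientOfFreeOfNeBot J hJ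
  haveI : Finite (𝓞 K ⧸ h) := Ideal.finiteQuotientOfFreeOfNeBot h hh
  letI : Fintype (𝓞 K ⧸ J) := Fintype.ofFinite _
  letI : Fintype (𝓞 K ⧸ h) := Fintype.ofFinite _
  have hsurj := Ideal.Quotient.factor_surjective hJh
  have hfib : ∀ y : 𝓞 K ⧸ h, Nat.card {q : 𝓞 K ⧸ J // Ideal.Quotient.factor hJh q = y}
      = Nat.card {q : 𝓞 K ⧸ J // Ideal.Quotient.factor hJh q = Ideal.Quotient.mk h z} := by
    intro y
    have h1 := AddMonoidHom.card_fiber_eq_of_mem_range (Ideal.Quotient.factor hJh).toAddMonoidHom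
      (x := y) (y := Ideal.Quotient.mk h z) (hsurj y) (hsurj _)
    rw [Nat.card_eq_fintype_card, Nat.card_eq_fintype_card, Fintype.card_subtype, Fintype.card_subtype]
    exact h1
  rw [Ideal.absNorm_apply, Ideal.absNorm_apply, Submodule.cardQuot_apply, Submodule.cardQuot_apply]
  have h2 : Nat.card (𝓞 K ⧸ J) = Nat.card (Σ y : 𝓞 K ⧸ h, {q : 𝓞 K ⧸ J // Ideal.Quotient.factor hJh q = y}) :=
    Nat.card_congr (Equiv.sigmaFiberEquiv (Ideal.Quotient.factor hJh)).symm
  rw [h2, Nat.card_sigma]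
  rw [Finset.sum_congr rfl (fun y _ => hfib y), Finset.sum_const, smul_eq_mul, Finset.card_univ,
    Nat.card_eq_fintype_card (α := 𝓞 K ⧸ h), mul_comm]

/-- PROOF. `b` and `c` are coprime to `m`, so is `b * c`; `z = 1 mod m`, `z ∈ b c`: `Ideal.IsCoprime` gives `1 = u + v`, `u ∈ m`, `v ∈ d`; `z = v`. Then
`x - 1 ∈ m ∧ x ∈ d ↔ x - z ∈ m ⊓ d = m * d`. -/
theorem coset_eq {m d : Ideal (𝓞 K)} (h : IsCoprime d m) : ∃ z : 𝓞 K, ∀ x : 𝓞 K, (x - 1 ∈ m ∧ x ∈ d) ↔ x - z ∈ m * d := by
  obtain ⟨v, hv, u, hu, huv⟩ := Ideal.isCoprime_iff_exists.1 h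
  refine ⟨v, ?_⟩
  intro x
  rw [Ideal.mul_eq_inf_of_isCoprime h.symm, Ideal.mem_inf]
  have e : x - v = (x - 1) + u := by
    rw [← huv]
    ring
  constructor
  · rintro ⟨h1, h2⟩
    refine ⟨?_, d.sub_mem h2 hv⟩
    rw [e]
    exact m.add_mem h1 hu
  · rintro ⟨h1, h2⟩
    constructor
    · have : x - 1 = (x - v) - u := by
        rw [e]
        ring
      rw [this]
      exact m.sub_mem h1 hu
    · have : x = (x - v) + v := by ring
      rw [this]
      exact d.add_mem h2 hv

open Classical in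
/-- PROOF. `coset_eq`: the condition is `x - z ∈ m * d`, which contains `J`; so it defines a function on the quotient (`a q = 1` if `factor q = mk z`), and the number of
`q` with value 1 is `absNorm J / absNorm (m * d)` (`card_fiber`). -/
theorem weight {m d J : Ideal (𝓞 K)} (hJ : J ≠ ⊥) (h : IsCoprime d m) (hJd : J ≤ m * d) : ∃ a : 𝓞 K ⧸ J → ℂ,
    (∀ x : 𝓞 K, a (Ideal.Quotient.mk J x) = if x - 1 ∈ m ∧ x ∈ d then 1 else 0) ∧
      (∑ᶠ q, a q) * (Ideal.absNorm (m * d) : ℂ) = Ideal.absNorm J := by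
  obtain ⟨z, hz⟩ := coset_eq h
  haveI : Finite (𝓞 K ⧸ J) := Ideal.finiteQuotientOfFreeOfNeBot J hJ
  letI : Fintype (𝓞 K ⧸ J) := Fintype.ofFinite _
  refine ⟨fun q => if Ideal.Quotient.factor hJd q = Ideal.Quotient.mk (m * d) z then 1 else 0, ?_, ?_⟩
  · intro x
    show (if Ideal.Quotient.factor hJd (Ideal.Quotient.mk J x) = Ideal.Quotient.mk (m * d) z then (1 : ℂ) else 0) = _
    rw [Ideal.Quotient.factor_mk, Ideal.Quotient.eq]
    simp only [hz x]
  · rw [finsum_eq_sum_of_fintype, Finset.sum_boole, ← card_fiber hJ hJd z, Nat.card_eq_fintype_card,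
      Fintype.card_subtype]
    push_cast
    rfl

end CFTY
end

-- from Lib.CFT.Y23
section

/-! # CFT module Y, chunk Y23: sums over ideals -/

open NumberField

namespace CFTY

variable {K : Type} [Field K] [NumberField K]

theorem tm_mul (χ : Ideal (𝓞 K) →*₀ ℂ) (s : ℂ) (a b : Ideal (𝓞 K)) :
    CFTZ.tm χ s (a * b) = CFTZ.tm χ s a * CFTZ.tm χ s b := by
  exact map_mul (CFTZ.tmH χ s) a b


/-- PROOF. `‖tm χ s a‖ ≤ (absNorm a) ^ (- re s)` for `a ≠ ⊥` (and 0 for `a = ⊥`), `CFTZ.ideal_summable`. -/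
theorem tm_summable {m : Ideal (𝓞 K)} {ψ : K → ℂ} {χ : Ideal (𝓞 K) →*₀ ℂ} (hχ : HCh m ψ χ) {s : ℂ} (hs : 1 < s.re) :
    Summable (CFTZ.tm χ s) := by
  have h1 : ∀ a, ‖χ a‖ ≤ 1 := by
    intro a
    by_cases ha : a = ⊥
    · subst ha
      have h2 : χ ⊥ = 0 := map_zero χ
      rw [h2, norm_zero]
      exact zero_le_one
    · by_cases hc : IsCoprime a m
      · exact (hχ.norm a ha hc).le
      · rw [hχ.zero a hc, norm_zero]
        exact zero_le_one
  refine Summable.of_norm_bounded (CFTZ.ideal_summable (K := K) s.re hs) fun a => ?_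
  unfold CFTZ.tm
  have h3 : (-s).re ≠ 0 := by
    rw [Complex.neg_re]
    linarith
  rw [norm_mul, Complex.norm_natCast_cpow_of_re_ne_zero _ h3, Complex.neg_re]
  exact mul_le_of_le_one_left (Real.rpow_nonneg (Nat.cast_nonneg _) _) (h1 a)


open Classical in
/-- PROOF. The ideals `I ≤ j` are the `a * j`; `a ↦ a * j` is injective (`j ≠ ⊥`). -/
theorem sum_multiples {j : Ideal (𝓞 K)} (hj : j ≠ ⊥) (F : Ideal (𝓞 K) → ℂ) :
    ∑' I : Ideal (𝓞 K), (if I ≤ j then F I else 0) = ∑' a : Ideal (𝓞 K), F (a * j) := by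
  have hinj : Function.Injective fun a : Ideal (𝓞 K) => a * j := fun a b h => mul_right_cancel₀ hj h
  have h1 : ∀ a : Ideal (𝓞 K), F (a * j) = (fun I => if I ≤ j then F I else 0) (a * j) := by
    intro a
    change _ = if a * j ≤ j then F (a * j) else 0
    rw [if_pos Ideal.mul_le_right]
  rw [tsum_congr h1]
  refine (hinj.tsum_eq ?_).symm
  intro I hI
  rw [Function.mem_support] at hI
  have h2 : I ≤ j := by
    by_contra h
    exact hI (if_neg h)
  obtain ⟨c, hc⟩ := Ideal.dvd_iff_le.2 h2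
  exact ⟨c, by
    change c * j = I
    rw [hc, mul_comm]⟩


open Classical in
/-- PROOF. For `c ∈ T`: `∑' I, [PrI m I ∧ I ≤ b c] tm I = tm c * ∑' a, [PrI m (a c) ∧ a ≤ b] tm a` (`sum_multiples` with `j = c`: `I ≤ b c ≤ c`, `a c ≤ b c ↔ a ≤ b`; `tm_mul`),
and `tm c ≠ 0`. Sum over `T`: for every `a` with `tm a ≠ 0` exactly one `c ∈ T` has `PrI m (a c)` (`HCh.zero`, `Reps`). Then `sum_multiples` with `j = b`, `tm_mul`, `tsum_mul_left`. -/
theorem sum_reps {m : Ideal (𝓞 K)} {ψ : K → ℂ} {χ : Ideal (𝓞 K) →*₀ ℂ} (hχ : HCh m ψ χ) {T : Finset (Ideal (𝓞 K))}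
    (hT : Reps m T) {b : Ideal (𝓞 K)} (hb : b ≠ ⊥) {s : ℂ} (hs : 1 < s.re) :
    ∑ c ∈ T, (CFTZ.tm χ s c)⁻¹ * ∑' I : Ideal (𝓞 K), (if PrI m I ∧ I ≤ b * c then CFTZ.tm χ s I else 0) =
      CFTZ.tm χ s b * Lc χ s := by
  have hsumm := tm_summable hχ hs
  have hne : ∀ c ∈ T, CFTZ.tm χ s c ≠ 0 := by
    intro c hc
    obtain ⟨h1, h2⟩ := hT.1 c hc
    unfold CFTZ.tm
    refine mul_ne_zero ?_ ?_
    · intro h0
      have h3 := hχ.norm c h1 h2
      rw [h0, norm_zero] at h3
      exact zero_ne_one h3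
    · intro h0
      rw [Complex.cpow_eq_zero_iff] at h0
      exact h1 (Ideal.absNorm_eq_zero_iff.1 (Nat.cast_eq_zero.1 h0.1))
  have hstep : ∀ c ∈ T, (CFTZ.tm χ s c)⁻¹ * ∑' I : Ideal (𝓞 K), (if PrI m I ∧ I ≤ b * c then CFTZ.tm χ s I else 0) =
      ∑' a : Ideal (𝓞 K), if PrI m (a * c) ∧ a ≤ b then CFTZ.tm χ s a else 0 := by
    intro c hc
    obtain ⟨h1, h2⟩ := hT.1 c hc
    have h3 : ∑' I : Ideal (𝓞 K), (if PrI m I ∧ I ≤ b * c then CFTZ.tm χ s I else 0) =
        ∑' I : Ideal (𝓞 K), if I ≤ c then (fun I => if PrI m I ∧ I ≤ b * c then CFTZ.tm χ s I else 0) I else 0 := by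
      refine tsum_congr fun I => ?_
      by_cases h4 : I ≤ c
      · rw [if_pos h4]
      · rw [if_neg h4, if_neg]
        rintro ⟨_, h5⟩
        exact h4 (h5.trans Ideal.mul_le_right)
    rw [h3, sum_multiples h1, ← tsum_mul_left]
    refine tsum_congr fun a => ?_
    have h6 : a * c ≤ b * c ↔ a ≤ b := by
      rw [← Ideal.dvd_iff_le, ← Ideal.dvd_iff_le, mul_dvd_mul_iff_right h1]
    by_cases h7 : PrI m (a * c) ∧ a ≤ b
    · rw [if_pos h7]
      change _ * (if PrI m (a * c) ∧ a * c ≤ b * c then CFTZ.tm χ s (a * c) else 0) = _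
      rw [if_pos ⟨h7.1, h6.2 h7.2⟩, tm_mul, mul_comm (CFTZ.tm χ s a), inv_mul_cancel_left₀ (hne c hc)]
    · rw [if_neg h7]
      change _ * (if PrI m (a * c) ∧ a * c ≤ b * c then CFTZ.tm χ s (a * c) else 0) = _
      rw [if_neg (fun h => h7 ⟨h.1, h6.1 h.2⟩), mul_zero]
  rw [Finset.sum_congr rfl hstep]
  have hS : ∀ c ∈ T, Summable fun a : Ideal (𝓞 K) => if PrI m (a * c) ∧ a ≤ b then CFTZ.tm χ s a else 0 := by
    intro c _
    refine Summable.of_norm_bounded hsumm.norm fun a => ?_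
    split_ifs
    · exact le_rfl
    · rw [norm_zero]
      exact norm_nonneg _
  rw [← Summable.tsum_finsetSum hS]
  have h8 : ∀ a : Ideal (𝓞 K), ∑ c ∈ T, (if PrI m (a * c) ∧ a ≤ b then CFTZ.tm χ s a else 0) = if a ≤ b then CFTZ.tm χ s a else 0 := by
    intro a
    by_cases hab : a ≤ b
    · rw [if_pos hab]
      by_cases ha : a ≠ ⊥ ∧ IsCoprime a m
      · obtain ⟨c, ⟨hc1, hc2⟩, hc3⟩ := hT.2 a ha.1 ha.2
        rw [Finset.sum_eq_single c]
        · rw [if_pos ⟨hc2, hab⟩]
        · intro c' hc' hne'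
          rw [if_neg]
          rintro ⟨h9, _⟩
          exact hne' (hc3 c' ⟨hc', h9⟩)
        · intro h
          exact absurd hc1 h
      · have h0 : CFTZ.tm χ s a = 0 := by
          unfold CFTZ.tm
          by_cases h10 : a = ⊥
          · have h11 : χ a = 0 := by
              rw [h10]
              exact map_zero χ
            rw [h11, zero_mul]
          · have h12 : ¬ IsCoprime a m := fun h => ha ⟨h10, h⟩
            rw [hχ.zero a h12, zero_mul]
        simp only [h0, ite_self, Finset.sum_const_zero]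
    · rw [if_neg hab]
      refine Finset.sum_eq_zero fun c _ => ?_
      rw [if_neg (fun h => hab h.2)]
  rw [tsum_congr h8, sum_multiples hb]
  unfold Lc
  rw [← tsum_mul_left]
  refine tsum_congr fun a => ?_
  rw [tm_mul, mul_comm]


end CFTY
end

-- from Lib.CFT.Y03
section

/-! # CFT module Y, chunk Y03: calculus of LL -/

open NumberField

namespace CFTY

variable {K : Type} [Field K] [NumberField K]

/-- `F y G y - F x G x = (F y - F x) G y + F x (G y - G x)`. -/
theorem LL.mul {F G : K → ℂ} (hF : LL F) (hG : LL G) (bF : Bd F) (bG : Bd G) : LL fun x => F x * G x := by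
  obtain ⟨L1, hL1, h1⟩ := hF
  obtain ⟨L2, hL2, h2⟩ := hG
  obtain ⟨B1, hB1, h3⟩ := bF
  obtain ⟨B2, hB2, h4⟩ := bG
  refine ⟨L1 * B2 + B1 * L2, by positivity, ?_⟩
  intro δ x y h0 h05 hx hxy
  have e : F y * G y - F x * G x = (F y - F x) * G y + F x * (G y - G x) := by ring
  rw [e]
  calc ‖(F y - F x) * G y + F x * (G y - G x)‖
      ≤ ‖(F y - F x) * G y‖ + ‖F x * (G y - G x)‖ := norm_add_le _ _
    _ = ‖F y - F x‖ * ‖G y‖ + ‖F x‖ * ‖G y - G x‖ := by rw [norm_mul, norm_mul]
    _ ≤ (L1 * δ) * B2 + B1 * (L2 * δ) :=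
        add_le_add (mul_le_mul (h1 δ x y h0 h05 hx hxy) (h4 y) (norm_nonneg _) (by positivity))
          (mul_le_mul (h3 x) (h2 δ x y h0 h05 hx hxy) (norm_nonneg _) hB1)
    _ = (L1 * B2 + B1 * L2) * δ := by ring

theorem Bd.mul {F G : K → ℂ} (bF : Bd F) (bG : Bd G) : Bd fun x => F x * G x := by
  obtain ⟨B1, hB1, h3⟩ := bF
  obtain ⟨B2, hB2, h4⟩ := bG
  refine ⟨B1 * B2, by positivity, fun x => ?_⟩
  rw [norm_mul]
  exact mul_le_mul (h3 x) (h4 x) (norm_nonneg _) hB1

theorem LL_const (c : ℂ) : LL (K := K) fun _ => c := by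
  refine ⟨0, le_rfl, ?_⟩
  intro δ x y _ _ _ _
  simp

theorem y03_TP {δ : ℝ} {x y : K} (h05 : δ ≤ 1 / 2) (hx : x ≠ 0) (hxy : Cl δ x y) :
    TP y ↔ TP x := by
  have key : ∀ φ : K →+* ℝ, |φ y - φ x| ≤ 1 / 2 * |φ x| := by
    intro φ
    have h := hxy (Complex.ofRealHom.comp φ)
    simp only [RingHom.comp_apply, Complex.ofRealHom_eq_coe] at h
    rw [← Complex.ofReal_sub, Complex.norm_real, Complex.norm_real, Real.norm_eq_abs,
      Real.norm_eq_abs] at h
    exact h.trans (mul_le_mul_of_nonneg_right h05 (abs_nonneg _))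
  constructor
  · intro hy
    refine ⟨hx, fun φ => ?_⟩
    have h1 := key φ
    have h2 := hy.2 φ
    by_contra h3
    push Not at h3
    rw [abs_of_nonpos h3, abs_le] at h1
    have h4 : φ x ≠ 0 := (map_ne_zero φ).2 hx
    have h5 : φ x < 0 := lt_of_le_of_ne h3 h4
    linarith [h1.2]
  · intro hx'
    refine ⟨cl_ne h05 hx hxy, fun φ => ?_⟩
    have h1 := key φ
    have h2 := hx'.2 φ
    rw [abs_of_pos h2, abs_le] at h1
    linarith [h1.1]

open Classical in
/-- PROOF. If `Cl δ x y`, `δ ≤ 1/2`, `x ≠ 0` and `φ : K →+* ℝ` then (apply `Cl` to the embedding `Complex.ofRealHom.comp φ`)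
`|φ y - φ x| ≤ |φ x| / 2`, so `φ y` and `φ x` have the same sign. So `TP y ↔ TP x` and the difference is 0. -/
theorem LL_TP : LL (K := K) fun x => if TP x then 1 else 0 := by
  refine ⟨0, le_rfl, ?_⟩
  intro δ x y _ h05 hx hxy
  have h := y03_TP h05 hx hxy
  simp only [h, sub_self, norm_zero, zero_mul, le_refl]

open Classical in
theorem Bd_TP : Bd (K := K) fun x => if TP x then 1 else 0 := by
  refine ⟨1, zero_le_one, fun x => ?_⟩
  simp only
  split_ifs
  · simp
  · simp

end CFTY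
end

-- from Lib.CFT.Y04
section

/-! # CFT module Y, chunk Y04: infinity types -/

open NumberField

namespace CFTY

variable {K : Type} [Field K] [NumberField K]

theorem y04_sgn {a b : ℂ} {δ : ℝ} (ha : a ≠ 0) (hb : b ≠ 0) (h : ‖b - a‖ ≤ δ * ‖a‖) :
    ‖b / (‖b‖ : ℂ) - a / (‖a‖ : ℂ)‖ ≤ 2 * δ := by
  have ha' : (0 : ℝ) < ‖a‖ := norm_pos_iff.2 ha
  have hb' : (0 : ℝ) < ‖b‖ := norm_pos_iff.2 hb
  have hac : ((‖a‖ : ℝ) : ℂ) ≠ 0 := by exact_mod_cast ha'.ne'
  have hbc : ((‖b‖ : ℝ) : ℂ) ≠ 0 := by exact_mod_cast hb'.ne'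
  have e : b / (‖b‖ : ℂ) - a / (‖a‖ : ℂ) =
      (b - a) / (‖a‖ : ℂ) + b * ((((‖a‖ - ‖b‖) : ℝ) : ℂ) / ((‖a‖ : ℂ) * (‖b‖ : ℂ))) := by
    push_cast
    field_simp
    ring
  rw [e]
  have h1 : ‖(b - a) / (‖a‖ : ℂ)‖ ≤ δ := by
    rw [norm_div, Complex.norm_real, Real.norm_of_nonneg ha'.le, div_le_iff₀ ha']
    exact h
  have h2 : ‖b * ((((‖a‖ - ‖b‖) : ℝ) : ℂ) / ((‖a‖ : ℂ) * (‖b‖ : ℂ)))‖ ≤ δ := by
    rw [norm_mul, norm_div, norm_mul, Complex.norm_real, Complex.norm_real, Complex.norm_real,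
      Real.norm_of_nonneg ha'.le, Real.norm_of_nonneg hb'.le, Real.norm_eq_abs]
    have h3 : |‖a‖ - ‖b‖| ≤ ‖b - a‖ := by
      rw [norm_sub_rev]
      exact abs_norm_sub_norm_le a b
    have h4 : ‖b‖ * (|‖a‖ - ‖b‖| / (‖a‖ * ‖b‖)) = |‖a‖ - ‖b‖| / ‖a‖ := by
      field_simp
    rw [h4, div_le_iff₀ ha']
    exact h3.trans h
  calc _ ≤ ‖(b - a) / (‖a‖ : ℂ)‖ +
        ‖b * ((((‖a‖ - ‖b‖) : ℝ) : ℂ) / ((‖a‖ : ℂ) * (‖b‖ : ℂ)))‖ := norm_add_le _ _
    _ ≤ 2 * δ := by linarith

/-- PROOF. `σ y / |σ y| - σ x / |σ x| = (σ y - σ x) / |σ x| + σ y (1 / |σ y| - 1 / |σ x|)`, each term has norm `≤ δ`. -/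
theorem LL_sgn (σ : K →+* ℂ) : LL (K := K) fun x => σ x / (‖σ x‖ : ℂ) := by
  refine ⟨2, by norm_num, ?_⟩
  intro δ x y _ h05 hx hxy
  exact y04_sgn ((map_ne_zero σ).2 hx) ((map_ne_zero σ).2 (cl_ne h05 hx hxy)) (hxy σ)

theorem y04_norm {a : ℂ} (ha : a ≠ 0) : ‖a / (‖a‖ : ℂ)‖ = 1 := by
  have ha' : (0 : ℝ) < ‖a‖ := norm_pos_iff.2 ha
  rw [norm_div, Complex.norm_real, Real.norm_of_nonneg ha'.le, div_self ha'.ne']

/-- The complex conjugate of the previous function, for `x ≠ 0`; or as before. -/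
theorem LL_sgn_inv (σ : K →+* ℂ) : LL (K := K) fun x => (σ x / (‖σ x‖ : ℂ))⁻¹ := by
  refine ⟨2, by norm_num, ?_⟩
  intro δ x y _ h05 hx hxy
  have ha : σ x ≠ 0 := (map_ne_zero σ).2 hx
  have hb : σ y ≠ 0 := (map_ne_zero σ).2 (cl_ne h05 hx hxy)
  have h := y04_sgn ha hb (hxy σ)
  have hu := y04_norm ha
  have hv := y04_norm hb
  set u : ℂ := σ x / (‖σ x‖ : ℂ) with hud
  set v : ℂ := σ y / (‖σ y‖ : ℂ) with hvd
  have hu0 : u ≠ 0 := by
    intro h0
    rw [h0, norm_zero] at hu
    exact zero_ne_one hu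
  have hv0 : v ≠ 0 := by
    intro h0
    rw [h0, norm_zero] at hv
    exact zero_ne_one hv
  have e : v⁻¹ - u⁻¹ = (u - v) / (v * u) := by
    field_simp
  show ‖v⁻¹ - u⁻¹‖ ≤ 2 * δ
  rw [e, norm_div, norm_mul, hu, hv, mul_one, div_one, norm_sub_rev]
  exact h

theorem y04_bd (σ : K →+* ℂ) (x : K) : ‖σ x / (‖σ x‖ : ℂ)‖ ≤ 1 := by
  rcases eq_or_ne (σ x) 0 with h | h
  · rw [h]
    simp
  · exact (y04_norm h).le

theorem y04_bd_inv (σ : K →+* ℂ) (x : K) : ‖(σ x / (‖σ x‖ : ℂ))⁻¹‖ ≤ 1 := by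
  rcases eq_or_ne (σ x) 0 with h | h
  · rw [h]
    simp
  · rw [norm_inv, y04_norm h, inv_one]

theorem y04_pow {F : K → ℂ} (hF : LL F) (bF : Bd F) (k : ℕ) :
    (LL fun x => F x ^ k) ∧ (Bd fun x => F x ^ k) := by
  induction k with
  | zero =>
    simp only [pow_zero]
    exact ⟨LL_const 1, ⟨1, zero_le_one, fun x => by simp⟩⟩
  | succ k ih =>
    simp only [pow_succ]
    exact ⟨LL.mul ih.1 hF ih.2 bF, Bd.mul ih.2 bF⟩

theorem y04_zpow (σ : K →+* ℂ) (k : ℤ) :
    (LL fun x => (σ x / (‖σ x‖ : ℂ)) ^ k) ∧ (Bd fun x => (σ x / (‖σ x‖ : ℂ)) ^ k) := by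
  obtain ⟨m, rfl | rfl⟩ := k.eq_nat_or_neg
  · simp only [zpow_natCast]
    exact y04_pow (LL_sgn σ) ⟨1, zero_le_one, y04_bd σ⟩ m
  · simp only [zpow_neg, zpow_natCast, ← inv_pow]
    exact y04_pow (LL_sgn_inv σ) ⟨1, zero_le_one, y04_bd_inv σ⟩ m

open Classical in
theorem y04_prod (n : (K →+* ℂ) → ℤ) (s : Finset (K →+* ℂ)) :
    (LL fun x => ∏ σ ∈ s, (σ x / (‖σ x‖ : ℂ)) ^ n σ) ∧
      (Bd fun x => ∏ σ ∈ s, (σ x / (‖σ x‖ : ℂ)) ^ n σ) := by
  induction s using Finset.induction_on with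
  | empty =>
    simp only [Finset.prod_empty]
    exact ⟨LL_const 1, ⟨1, zero_le_one, fun x => by simp⟩⟩
  | insert σ s hs ih =>
    simp only [Finset.prod_insert hs]
    have h := y04_zpow σ (n σ)
    exact ⟨LL.mul h.1 ih.1 h.2 ih.2, Bd.mul h.2 ih.2⟩

/-- PROOF. Products and powers of the two functions above (`LL.mul`, all bounded by 1), induction. -/
theorem LL_typ (n : (K →+* ℂ) → ℤ) : LL (typ n) :=
  (y04_prod n Finset.univ).1

/-- norm at most 1 (the factors have norm 1 or 0 or are 1) -/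
theorem Bd_typ (n : (K →+* ℂ) → ℤ) : Bd (typ n) :=
  (y04_prod n Finset.univ).2

/-- the type of a positive integer is 1 -/
theorem typ_nat (n : (K →+* ℂ) → ℤ) (k : ℕ) (hk : 1 ≤ k) : typ n (k : K) = 1 := by
  unfold typ
  refine Finset.prod_eq_one (fun σ _ => ?_)
  have hk' : (k : ℂ) ≠ 0 := by
    have : k ≠ 0 := by omega
    exact_mod_cast this
  rw [map_natCast, Complex.norm_natCast, Complex.ofReal_natCast, div_self hk', one_zpow]

end CFTY
end
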