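import Mathlib
import Pool.Agent.Lib.H1M.PP2.M024
import Pool.Agent.Lib.H1M.PP2.M031
import Pool.Agent.Lib.H1M.PP2.M033
import Pool.Agent.Lib.H1M.PP2.M036
import Pool.Agent.Lib.H1M.PP2.M054

/-! Merged copies (to shorten the build) of Lib.CFT.B13, Lib.CFT.X18, Lib.CFT.X19, Lib.H19B.D, Lib.H19B.Z1, Lib.H19B.P1, Lib.H19B.K8, Lib.H19B.R1, Lib.CFT.B18, Lib.CFT.B21, Lib.CFT.B20, Lib.CFT.Y28, Lib.CFT.X16, Lib.CFT.B22, Lib.CFT.B23, Lib.CFT.B24, Lib.CFT.X13. -/

-- from Lib.CFT.B13
section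

/-! # CFT module B, chunk B13: norms of rays -/

open NumberField IsDedekindDomain

namespace CFT

variable {K : Type} [Field K] [NumberField K] {L : Type} [Field L] [NumberField L] [Algebra K L]


/-- PROOF. B11 and B12 (take the N' of B11). -/
theorem ray_norm (S : Finset (Pr K)) (N : ℕ) : ∃ N' : ℕ, ∀ y : L, Ray (up L S) N' y → Ray S N (Algebra.norm K y) := by
  obtain ⟨N', hN'⟩ := norm_cong (K := K) (L := L) S N
  refine ⟨N', fun y hy => ⟨Algebra.norm_ne_zero_iff.2 hy.ne, hN' y hy.ne hy.cong, fun φ => ?_⟩⟩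
  exact norm_pos hy.ne hy.pos φ



end CFT
end

-- from Lib.CFT.X18
section

/-! # CFT X18 (S/M): divisors which are zero on T

PROOF. D = P + Nd E F C₀, P in Pray T N: P w = od w x for w not in T, Ray T N x. C = C₀.filter (fun u => below E u ∉ T). For w not in T: (Nd E F C) w = (Nd E F C₀) w (Nd_apply, B09: the sum over the primes
above w) so D w = od w x + (Nd E F C) w. For w in T: D w = 0, od w x = 0 (Ray.od_eq), (Nd E F C) w = 0 (all C u = 0 for u above w). -/

open NumberField IsDedekindDomain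

namespace CFT

theorem x_zero {E : Type} [Field E] [NumberField E] {F : Type} [Field F] [NumberField F] [Algebra E F] (T : Finset (Pr E)) (N : ℕ) (D : Dv E)
    (hD : ∀ w ∈ T, D w = 0) (h : D ∈ Pray T N ⊔ (Nd E F).range) : ∃ (x : E) (C : Dv F), Ray T N x ∧ D = dv x + Nd E F C := by
  classical
  obtain ⟨P, hP, Q, ⟨C₀, hC⟩, hPQ⟩ := AddSubgroup.mem_sup.1 h
  obtain ⟨x, hx, hx'⟩ := hP
  refine ⟨x, C₀.filter (fun u => below E u ∉ T), hx, ?_⟩
  ext w
  rw [Finsupp.add_apply, dv_apply, Nd_apply]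
  by_cases hw : w ∈ T
  · rw [hD w hw, hx.od_eq hw, zero_add]
    symm
    refine Finset.sum_eq_zero fun u hu => ?_
    rw [mem_abv] at hu
    rw [Finsupp.filter_apply_neg _ _ (by rw [hu]; exact fun h => h hw), mul_zero]
  · rw [← hPQ, Finsupp.add_apply, hx' w hw, ← hC, Nd_apply]
    congr 1
    refine Finset.sum_congr rfl fun u hu => ?_
    rw [mem_abv] at hu
    rw [Finsupp.filter_apply_pos _ _ (by rw [hu]; exact hw)]

end CFT
end

-- from Lib.CFT.X19
section

/-! # CFT X19 (S/M): going down from E to K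

PROOF. N' from ray_norm (B13) for K, E, S, N. h N' and x_zero (X18): D = dv x + Nd E F C with Ray T N' x, so Ray (up E S) N' x (Ray.mono) and Ray S N (norm x). Nd K E D = dv (norm x) + Nd K E (Nd E F C)
(Nd_dv, B07), and Nd K E (Nd E F C) = Nd K F C = Nd K L (Nd L F C) (Nd_Nd, B08, twice). dv_mem_Pray (D2). -/

open NumberField IsDedekindDomain

namespace CFT

theorem x_down {K : Type} [Field K] [NumberField K] {L : Type} [Field L] [NumberField L] [Algebra K L] {E : Type} [Field E] [NumberField E] [Algebra K E]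
    {F : Type} [Field F] [NumberField F] [Algebra K F] [Algebra L F] [Algebra E F] [IsScalarTower K L F] [IsScalarTower K E F]
    (S : Finset (Pr K)) (N : ℕ) (T : Finset (Pr E)) (hT : up E S ⊆ T) (D : Dv E) (hD : ∀ w ∈ T, D w = 0)
    (h : ∀ N' : ℕ, D ∈ Pray T N' ⊔ (Nd E F).range) : Nd K E D ∈ Pray S N ⊔ (Nd K L).range := by
  obtain ⟨N', hN'⟩ := ray_norm (K := K) (L := E) S N
  obtain ⟨x, C, hx, rfl⟩ := x_zero T N' D hD (h N')
  rw [map_add, Nd_dv hx.ne, Nd_Nd, ← Nd_Nd K L F]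
  refine AddSubgroup.add_mem_sup (dv_mem_Pray (hN' x (hx.mono hT le_rfl))) ⟨_, rfl⟩

end CFT
end

-- from Lib.H19B.D
section

/-! # H19B: Selmer groups in extensions which are ramified above a split prime number p: definitions for the local part -/

open NumberField IsDedekindDomain WeierstrassCurve

namespace H19B

open H55P (Dec Inert)

section grp

variable {G : Type} [Group G]

/-- S is a set of representatives of the cosets of A in B. -/
structure Rep (A B : Subgroup G) (S : Finset G) : Prop where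
  mem : ∀ s ∈ S, s ∈ B
  ex : ∀ t ∈ B, ∃ s ∈ S, s⁻¹ * t ∈ A
  un : ∀ s ∈ S, ∀ s' ∈ S, s⁻¹ * s' ∈ A → s = s'

end grp

/-- The power of ζ with exponent a, an integer modulo p. -/
noncomputable def zt {Ω : Type} [Field Ω] {p : ℕ} (ζ : Ω) (a : ZMod p) : Ω := ζ ^ a.val

/-- The data of a local situation: D is the decomposition group at V of a number field, w a uniformizer, q the number of elements of the
residue field, φ a Frobenius element; E and C are the subgroups of D fixing the etale part of the p-torsion and the p-torsion; ζ is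
a primitive p-th root of unity, om the cyclotomic character modulo p, et the character of the étale part, n = et φ. -/
structure Frm (F Ω : Type) [Field F] [Field Ω] [Algebra F Ω] where
  p : ℕ
  q : ℕ
  e : ℕ
  n : ℕ
  V : ValuationSubring Ω
  D : Subgroup (Ω ≃ₐ[F] Ω)
  E : Subgroup (Ω ≃ₐ[F] Ω)
  C : Subgroup (Ω ≃ₐ[F] Ω)
  w : Ω
  φ : Ω ≃ₐ[F] Ω
  ζ : Ω
  om : (Ω ≃ₐ[F] Ω) → ZMod p
  et : (Ω ≃ₐ[F] Ω) → ZMod p

namespace Frm

variable {F : Type} [Field F] {Ω : Type} [Field Ω] [Algebra F Ω]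

/-- The properties of the data. -/
structure Ok (X : Frm F Ω) : Prop where
  pr : X.p.Prime
  odd : 2 < X.p
  dec : ∀ s ∈ X.D, Dec X.V s
  le1 : X.C ≤ X.E
  le2 : X.E ≤ X.D
  nrm1 : ∀ s ∈ X.D, ∀ t ∈ X.C, s⁻¹ * t * s ∈ X.C
  nrm2 : ∀ s ∈ X.D, ∀ t ∈ X.E, s⁻¹ * t * s ∈ X.E
  rep : ∃ S : Finset (Ω ≃ₐ[F] Ω), Rep X.C X.E S ∧ ¬ X.p ∣ S.card
  fw : ∀ s ∈ X.D, s X.w = X.w
  w0 : X.w ≠ 0
  w1 : X.V.valuation X.w < 1
  val : ∀ x : Ω, x ≠ 0 → (∀ s ∈ X.E, s x = x) → ∃ i : ℤ, X.V.valuation x = X.V.valuation X.w ^ i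
  e0 : 0 < X.e
  ep : X.V.valuation (X.p : Ω) = X.V.valuation X.w ^ X.e
  q0 : 1 < X.q
  qp : X.p ∣ X.q
  res : ∀ x : Ω, X.V.valuation x ≤ 1 → (∀ s ∈ X.E, s x = x) → X.V.valuation (x ^ X.q ^ (X.p - 1) - x) < 1
  phi : X.φ ∈ X.D
  fro : ∀ x : Ω, X.V.valuation x ≤ 1 → X.V.valuation (X.φ x - x ^ X.q) < 1
  etn : X.et X.φ = (X.n : ZMod X.p)
  n1 : (X.n : ZMod X.p) ≠ 1
  prim : IsPrimitiveRoot X.ζ X.p
  zD : ∀ s ∈ X.D, s X.ζ = zt X.ζ (X.om s)
  om1 : ∀ s ∈ X.C, X.om s = 1
  et1 : ∀ s ∈ X.E, X.et s = 1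

/-- a is a continuous homomorphism of C to the integers modulo p, with the action of D by conjugation twisted by et / om. -/
structure Tw (X : Frm F Ω) (a : (Ω ≃ₐ[F] Ω) → ZMod X.p) : Prop where
  add : ∀ s ∈ X.C, ∀ t ∈ X.C, a (s * t) = a s + a t
  tw : ∀ s ∈ X.D, ∀ t ∈ X.C, X.om s * a (s⁻¹ * t * s) = X.et s * a t
  cont : ∃ L : IntermediateField F Ω, FiniteDimensional F L ∧ ∀ s ∈ X.C, s ∈ L.fixingSubgroup → a s = 0

/-- β is a Kummer generator for a. -/
structure Kg (X : Frm F Ω) (a : (Ω ≃ₐ[F] Ω) → ZMod X.p) (β : Ω) : Prop where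
  ne : β ≠ 0
  fx : ∀ s ∈ X.E, s (β ^ X.p) = β ^ X.p
  ev : ∀ t ∈ X.C, t β = zt X.ζ (a t) * β

/-- The group of the twisted characters. -/
def TS (X : Frm F Ω) : AddSubgroup ((Ω ≃ₐ[F] Ω) → ZMod X.p) where
  carrier := {a | X.Tw a}
  zero_mem' := ⟨fun s _ t _ => by simp, fun s _ t _ => by simp, ⊥, inferInstance, fun s _ _ => rfl⟩
  add_mem' := by
    rintro a b ⟨a1, a2, L, hL, a3⟩ ⟨b1, b2, L', hL', b3⟩
    refine ⟨fun s hs t ht => ?_, fun s hs t ht => ?_, L ⊔ L', IntermediateField.finiteDimensional_sup L L', fun s hs hs' => ?_⟩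
    · rw [Pi.add_apply, Pi.add_apply, Pi.add_apply, a1 s hs t ht, b1 s hs t ht]
      ring
    · rw [Pi.add_apply, Pi.add_apply, mul_add, a2 s hs t ht, b2 s hs t ht, mul_add]
    · rw [IntermediateField.fixingSubgroup_sup] at hs'
      rw [Pi.add_apply, a3 s hs hs'.1, b3 s hs hs'.2, add_zero]
  neg_mem' := by
    rintro a ⟨a1, a2, L, hL, a3⟩
    refine ⟨fun s hs t ht => ?_, fun s hs t ht => ?_, L, hL, fun s hs hs' => ?_⟩
    · rw [Pi.neg_apply, Pi.neg_apply, Pi.neg_apply, a1 s hs t ht]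
      ring
    · rw [Pi.neg_apply, Pi.neg_apply, mul_neg, a2 s hs t ht, mul_neg]
    · rw [Pi.neg_apply, a3 s hs hs', neg_zero]


/-- The twisted characters which are trivial on the inertia group. -/
def TI (X : Frm F Ω) : AddSubgroup ((Ω ≃ₐ[F] Ω) → ZMod X.p) where
  carrier := {a | X.Tw a ∧ ∀ t ∈ X.C, Inert X.V t → a t = 0}
  zero_mem' := ⟨X.TS.zero_mem, fun t _ _ => rfl⟩
  add_mem' := by
    rintro a b ⟨a1, a2⟩ ⟨b1, b2⟩
    exact ⟨X.TS.add_mem a1 b1, fun t ht hi => by rw [Pi.add_apply, a2 t ht hi, b2 t ht hi, add_zero]⟩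
  neg_mem' := by
    rintro a ⟨a1, a2⟩
    exact ⟨X.TS.neg_mem a1, fun t ht hi => by rw [Pi.neg_apply, a2 t ht hi, neg_zero]⟩


/-- a is a twisted character with a Kummer generator β such that V(β^p - 1) ≤ V(w)^(i+1). -/
structure Fl (X : Frm F Ω) (i : ℕ) (a : (Ω ≃ₐ[F] Ω) → ZMod X.p) : Prop where
  tw : X.Tw a
  ex : ∃ β : Ω, X.Kg a β ∧ X.V.valuation (β ^ X.p - 1) ≤ X.V.valuation X.w ^ (i + 1)

end Frm

end H19B
end

-- from Lib.H19B.Z1
section

/-! # H19B, chunk Z1 (S/M): powers of a root of unity with exponent in the integers modulo p -/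

namespace H19B

section zt

variable {Ω : Type} [Field Ω] {p : ℕ} {ζ : Ω}

/-- Chunk Z1 (S). ZMod.val_zero. -/
theorem zt_zero : zt ζ (0 : ZMod p) = 1 := by
  rw [zt, ZMod.val_zero, pow_zero]

/-- Chunk Z1 (S). ZMod.val_natCast: the exponent is k % p; ζ^p = 1 (pow_mod_orderOf or Nat.div_add_mod). -/
theorem zt_nat (hζ : IsPrimitiveRoot ζ p) (k : ℕ) : zt ζ (k : ZMod p) = ζ ^ k := by
  rw [zt, ZMod.val_natCast]
  conv_lhs => rw [hζ.eq_orderOf]
  exact pow_mod_orderOf ζ k

/-- Chunk Z1 (S). a = a.val, b = b.val as elements of ZMod p (ZMod.natCast_zmod_val; p ≠ 0: NeZero), zt_nat for a.val + b.val. -/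
theorem zt_add (hp : p.Prime) (hζ : IsPrimitiveRoot ζ p) (a b : ZMod p) : zt ζ (a + b) = zt ζ a * zt ζ b := by
  have : NeZero p := ⟨hp.ne_zero⟩
  have h : a + b = ((a.val + b.val : ℕ) : ZMod p) := by
    rw [Nat.cast_add, ZMod.natCast_zmod_val, ZMod.natCast_zmod_val]
  rw [h, zt_nat hζ, pow_add]
  rfl

/-- Chunk Z1 (S). -/
theorem zt_ne (hp : p.Prime) (hζ : IsPrimitiveRoot ζ p) (a : ZMod p) : zt ζ a ≠ 0 :=
  pow_ne_zero _ (hζ.ne_zero hp.ne_zero)

/-- Chunk Z1 (S). zt_add for a + (-a). -/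
theorem zt_neg (hp : p.Prime) (hζ : IsPrimitiveRoot ζ p) (a : ZMod p) : zt ζ (-a) = (zt ζ a)⁻¹ := by
  have h := zt_add hp hζ (-a) a
  rw [neg_add_cancel, zt_zero] at h
  exact eq_inv_of_mul_eq_one_left h.symm

/-- Chunk Z1 (S). zt_nat for k * a.val. -/
theorem zt_mul (hp : p.Prime) (hζ : IsPrimitiveRoot ζ p) (k : ℕ) (a : ZMod p) : zt ζ ((k : ZMod p) * a) = zt ζ a ^ k := by
  have : NeZero p := ⟨hp.ne_zero⟩
  have h : (k : ZMod p) * a = ((k * a.val : ℕ) : ZMod p) := by
    rw [Nat.cast_mul, ZMod.natCast_zmod_val]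
  rw [h, zt_nat hζ, mul_comm, pow_mul]
  rfl

/-- Chunk Z1 (S). -/
theorem zt_pow (hζ : IsPrimitiveRoot ζ p) (a : ZMod p) : zt ζ a ^ p = 1 := by
  rw [zt, ← pow_mul, mul_comm, pow_mul, hζ.pow_eq_one, one_pow]

/-- Chunk Z1 (S). IsPrimitiveRoot.pow_inj or pow_eq_one_iff_dvd, ZMod.val_lt. -/
theorem zt_inj (hp : p.Prime) (hζ : IsPrimitiveRoot ζ p) (a : ZMod p) (h : zt ζ a = 1) : a = 0 := by
  have : NeZero p := ⟨hp.ne_zero⟩
  have h1 : p ∣ a.val := (hζ.pow_eq_one_iff_dvd _).1 h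
  have h2 : a.val = 0 := Nat.eq_zero_of_dvd_of_lt h1 (ZMod.val_lt a)
  exact (ZMod.val_eq_zero a).1 h2

/-- Chunk Z1 (S). IsPrimitiveRoot.eq_pow_of_pow_eq_one; zt_nat. -/
theorem zt_root (hp : p.Prime) (hζ : IsPrimitiveRoot ζ p) {x : Ω} (hx : x ^ p = 1) : ∃ a : ZMod p, x = zt ζ a := by
  have : NeZero p := ⟨hp.ne_zero⟩
  obtain ⟨i, _, hi⟩ := hζ.eq_pow_of_pow_eq_one hx
  exact ⟨(i : ZMod p), by rw [zt_nat hζ, hi]⟩

theorem z1_val {n : ℕ} (hn : n ≠ 0) (V : ValuationSubring Ω) {x : Ω} (hx : x ^ n = 1) : V.valuation x = 1 := by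
  have h : V.valuation x ^ n = 1 := by rw [← map_pow, hx, map_one]
  exact (pow_eq_one_iff_of_nonneg zero_le hn).1 h

/-- Chunk Z1 (S). V(x)^p = 1 for x^p = 1, p ≠ 0 (pow_eq_one_iff in a linearly ordered monoid). -/
theorem zt_val (hp : p.Prime) (hζ : IsPrimitiveRoot ζ p) (V : ValuationSubring Ω) (a : ZMod p) : V.valuation (zt ζ a) = 1 :=
  z1_val hp.ne_zero V (zt_pow hζ a)

theorem z1_le (V : ValuationSubring Ω) {x : Ω} (hx : V.valuation x ≤ 1) (k : ℕ) : V.valuation (x ^ k - 1) ≤ V.valuation (x - 1) := by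
  rw [← geom_sum_mul x k, map_mul]
  have h : V.valuation (∑ i ∈ Finset.range k, x ^ i) ≤ 1 := by
    rw [V.valuation_le_one_iff] at hx ⊢
    exact sum_mem fun i _ => pow_mem hx i
  calc V.valuation (∑ i ∈ Finset.range k, x ^ i) * V.valuation (x - 1) ≤ 1 * V.valuation (x - 1) := mul_le_mul_left h _
    _ = V.valuation (x - 1) := one_mul _

/-- Chunk Z1 (S/M). PROOF. p = product over 0 < i < p of (1 - ζ^i) (IsPrimitiveRoot.prod_one_sub_pow_eq_order or similar: Mathlib has theorems on eval 1 of cyclotomic p and X^p - 1; the derivative of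
X^p - 1 = prod (X - ζ^i) at 1). All factors have the same value: for x, y ≠ 1 with x^p = y^p = 1, y is a power x^k (x is a primitive root: p prime), so
y - 1 = (x - 1)(1 + x + .. + x^(k-1)), V(y - 1) ≤ V(x - 1), and conversely. So V(zt a - 1)^(p-1) = V(p). -/
theorem zt_sub_one (hp : p.Prime) (hζ : IsPrimitiveRoot ζ p) (V : ValuationSubring Ω) (a : ZMod p) (ha : a ≠ 0) :
    V.valuation (zt ζ a - 1) ^ (p - 1) = V.valuation (p : Ω) := by
  set μ := zt ζ a with hμ
  have h1 : μ ^ p = 1 := zt_pow hζ a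
  have h2 : μ ≠ 1 := fun h => ha (zt_inj hp hζ a h)
  have : Fact p.Prime := ⟨hp⟩
  have h3 : orderOf μ = p := orderOf_eq_prime h1 h2
  have h4 : IsPrimitiveRoot μ p := h3 ▸ IsPrimitiveRoot.orderOf μ
  obtain ⟨m, hm⟩ : ∃ m, p = m + 1 := ⟨p - 1, by have := hp.pos; omega⟩
  have h5 : ∏ k ∈ Finset.range m, (1 - μ ^ (k + 1)) = (p : Ω) := by
    have h6 : IsPrimitiveRoot μ (m + 1) := hm ▸ h4
    rw [h6.prod_one_sub_pow_eq_order, hm]
    push_cast
    ring
  have hv : V.valuation μ ≤ 1 := (z1_val hp.ne_zero V h1).le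
  have h7 : ∀ k ∈ Finset.range m, V.valuation (1 - μ ^ (k + 1)) = V.valuation (μ - 1) := by
    intro k hk
    rw [Finset.mem_range] at hk
    have hs : V.valuation (1 - μ ^ (k + 1)) = V.valuation (μ ^ (k + 1) - 1) := by
      rw [← neg_sub, Valuation.map_neg]
    rw [hs]
    refine le_antisymm (z1_le V hv _) ?_
    have hc : Nat.Coprime (k + 1) p := ((Nat.Prime.coprime_iff_not_dvd hp).2 (Nat.not_dvd_of_pos_of_lt (by omega) (by omega))).symm
    obtain ⟨j, _, hj⟩ := Nat.exists_mul_mod_eq_one_of_coprime hc hp.one_lt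
    have h8 : (μ ^ (k + 1)) ^ j = μ := by
      rw [← pow_mul]
      conv_lhs => rw [← pow_mod_orderOf, h3]
      rw [hj, pow_one]
    have h9 : V.valuation (μ ^ (k + 1)) ≤ 1 := by rw [map_pow]; exact pow_le_one' hv _
    have h10 := z1_le V h9 j
    rw [h8] at h10
    exact h10
  rw [← h5, map_prod, Finset.prod_congr rfl h7, Finset.prod_const, Finset.card_range]
  congr 1
  omega

end zt

section frm

variable {F : Type} [Field F] {Ω : Type} [Field Ω] [Algebra F Ω]

/-- Chunk Z1 (S). s ζ = ζ^((om s).val) (zD), zt a = ζ^a.val; zt_nat, ZMod.natCast_zmod_val. -/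
theorem zt_map (X : Frm F Ω) (h : X.Ok) (s : Ω ≃ₐ[F] Ω) (hs : s ∈ X.D) (a : ZMod X.p) :
    s (zt X.ζ a) = zt X.ζ (X.om s * a) := by
  have : NeZero X.p := ⟨h.pr.ne_zero⟩
  have h1 : s (zt X.ζ a) = (s X.ζ) ^ a.val := by rw [zt, map_pow]
  rw [h1, h.zD s hs, ← zt_mul h.pr h.prim, ZMod.natCast_zmod_val, mul_comm]


/-- Chunk Z1 (S). V(p) = V(w)^e, e > 0, V(w) < 1. -/
theorem vp_lt (X : Frm F Ω) (h : X.Ok) : X.V.valuation (X.p : Ω) < 1 := by
  rw [h.ep]
  exact pow_lt_one₀ zero_le h.w1 h.e0.ne'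

/-- Chunk Z1 (S). Values of elements fixed by E: V(x) ≤ 1 etc. A nonzero x fixed by E with V(x) < V(w)^i satisfies V(x) ≤ V(w)^(i+1) (h.val: V(x) = V(w)^m, m an integer;
V(w) < 1, V(w) ≠ 0, so m > i; zpow order lemmas in a linearly ordered group with zero). -/
theorem val_succ (X : Frm F Ω) (h : X.Ok) {x : Ω} (hx : ∀ s ∈ X.E, s x = x) {i : ℕ} (hi : X.V.valuation x < X.V.valuation X.w ^ i) :
    X.V.valuation x ≤ X.V.valuation X.w ^ (i + 1) := by
  rcases eq_or_ne x 0 with rfl | h0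
  · rw [map_zero]; exact zero_le
  obtain ⟨m, hm⟩ := h.val x h0 hx
  have hw : 0 < X.V.valuation X.w := zero_lt_iff.2 ((map_ne_zero _).2 h.w0)
  rw [hm, ← zpow_natCast] at hi ⊢
  have h1 : (i : ℤ) < m := (zpow_lt_zpow_iff_right_of_lt_one₀ hw h.w1).1 hi
  exact (zpow_le_zpow_iff_right_of_lt_one₀ hw h.w1).2 (by push_cast; omega)


end frm

end H19B
end

-- from Lib.H19B.P1
section

/-! # H19B, chunk P1 (M): p-th powers of one-units -/

namespace H19B

variable {F : Type} [Field F] {Ω : Type} [Field Ω] [Algebra F Ω]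

/-- Chunk P1 (S). PROOF. (1 + y)^p = 1 + y^p + p y z with V(z) ≤ 1 for V(y) ≤ 1: add_pow or Commute.exists_add_pow_prime_eq (exists_add_pow_prime_eq: (x + y)^p = x^p + y^p + p x y r); apply it in the subring V (r in V). -/
theorem pow_one_add {p : ℕ} (hp : p.Prime) (V : ValuationSubring Ω) {y : Ω} (hy : V.valuation y ≤ 1) :
    ∃ z : Ω, V.valuation z ≤ 1 ∧ (1 + y) ^ p = 1 + y ^ p + p * y * z := by
  have hyV : y ∈ V := (V.valuation_le_one_iff _).1 hy
  obtain ⟨r, hr⟩ := exists_add_pow_prime_eq hp (1 : V) ⟨y, hyV⟩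
  refine ⟨r, (V.valuation_le_one_iff _).2 r.2, ?_⟩
  have h2 := congrArg (Subtype.val) hr
  push_cast at h2
  rw [h2]
  ring

/-- Chunk P1 (S). In fact z = 1 + (multiple of y) up to the maximal ideal: the linear coefficient. PROOF. (1+y)^p = ∑ over i of (p choose i) y^i; the terms 0 < i < p are p y (1 + y z'): (p choose i) = p c_i (Nat.Prime.dvd_choose_self), c_1 = 1. -/
theorem pow_one_add' {p : ℕ} (hp : p.Prime) (V : ValuationSubring Ω) {y : Ω} (hy : V.valuation y ≤ 1) :
    ∃ z : Ω, V.valuation z ≤ 1 ∧ (1 + y) ^ p = 1 + y ^ p + p * y * (1 + y * z) := by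
  obtain ⟨P, rfl⟩ : ∃ P, p = P + 2 := ⟨p - 2, by have := hp.two_le; omega⟩
  have hc : ∀ i ∈ Finset.range P, ((Nat.choose (P + 2) (i + 2) : ℕ) : Ω)
      = ((P + 2 : ℕ) : Ω) * ((Nat.choose (P + 2) (i + 2) / (P + 2) : ℕ) : Ω) := by
    intro i hi
    have hd : (P + 2) ∣ Nat.choose (P + 2) (i + 2) :=
      hp.dvd_choose_self (by omega) (by have := Finset.mem_range.1 hi; omega)
    rw [← Nat.cast_mul, Nat.mul_div_cancel' hd]
  refine ⟨∑ i ∈ Finset.range P, y ^ i * ((Nat.choose (P + 2) (i + 2) / (P + 2) : ℕ) : Ω), ?_, ?_⟩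
  · refine Valuation.map_sum_le _ fun i _ => ?_
    rw [map_mul, map_pow]
    exact mul_le_one' (pow_le_one' hy _) ((V.valuation_le_one_iff _).2 (natCast_mem V _))
  · have hs : ∑ i ∈ Finset.range P, y ^ (i + 2) * ((Nat.choose (P + 2) (i + 2) : ℕ) : Ω)
        = ((P + 2 : ℕ) : Ω) * y * (y * ∑ i ∈ Finset.range P, y ^ i * ((Nat.choose (P + 2) (i + 2) / (P + 2) : ℕ) : Ω)) := by
      rw [Finset.mul_sum, Finset.mul_sum]
      refine Finset.sum_congr rfl fun i hi => ?_
      rw [hc i hi]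
      ring
    rw [add_comm 1 y, add_pow, Finset.sum_range_succ, Finset.sum_range_succ', Finset.sum_range_succ']
    simp only [one_pow, mul_one, Nat.choose_self, Nat.cast_one, pow_zero, Nat.choose_zero_right, zero_add, pow_one,
      Nat.choose_one_right, add_assoc, one_add_one_eq_two]
    rw [hs]
    ring

/-- Chunk P1 (M). PROOF. First V(γ - 1) < 1: V(γ)^p = V(γ^p) = 1 as V(γ^p - 1) < 1 (i > 0: p does not divide 0; V(w) < 1), so V(γ) = 1, y = γ - 1 has V(y) ≤ 1, pow_one_add: V(y^p) ≤ max (V(γ^p - 1), V(p)) < 1. If y = 0 then γ^p - 1 = 0, clear (V(w) ≠ 0).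
Otherwise V(y) = V(w)^j, j an integer (h.val, y is fixed by E), j ≥ 1. V(γ^p - 1) ≤ max (V(w)^(p j), V(w)^(e + j)) (V(p) = V(w)^e). If p j ≠ e + j the value is exactly the larger one, V(w)^min(pj, e+j) (use pow_one_add', V(1 + y z) = 1).
(1) p j < e + j: V(w)^(pj) = V(γ^p - 1) ≤ V(w)^i, so p j ≥ i, and p j ≠ i as p does not divide i: p j > i, <. (2) p j ≥ e + j: j (p-1) ≥ e; V(γ^p - 1) ≤ V(w)^(e+j) and (e + j)(p - 1) ≥ e (p - 1) + e = e p > i (p - 1), so e + j > i, <. -/
theorem pow_claim (X : Frm F Ω) (h : X.Ok) {γ : Ω} (hγ : ∀ s ∈ X.E, s γ = γ) {i : ℕ} (hi : ¬ X.p ∣ i)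
    (hie : i * (X.p - 1) < X.e * X.p) (h1 : X.V.valuation (γ ^ X.p - 1) ≤ X.V.valuation X.w ^ i) :
    X.V.valuation (γ ^ X.p - 1) < X.V.valuation X.w ^ i := by
  have hW0 : X.V.valuation X.w ≠ 0 := (Valuation.ne_zero_iff _).2 h.w0
  have hWp : 0 < X.V.valuation X.w := zero_lt_iff.2 hW0
  have hWip : 0 < X.V.valuation X.w ^ i := zero_lt_iff.2 (pow_ne_zero _ hW0)
  have hi0 : i ≠ 0 := by
    rintro rfl
    exact hi (dvd_zero _)
  have hWi1 : X.V.valuation X.w ^ i < 1 := pow_lt_one₀ zero_le h.w1 hi0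
  have h2 : X.V.valuation (γ ^ X.p - 1) < 1 := lt_of_le_of_lt h1 hWi1
  have h3 : X.V.valuation (γ ^ X.p) = 1 := by
    have e : γ ^ X.p = 1 + (γ ^ X.p - 1) := by ring
    rw [e]
    exact Valuation.map_one_add_of_lt _ h2
  have h4 : X.V.valuation γ = 1 := by
    rw [map_pow] at h3
    exact (pow_eq_one_iff.1 h3).resolve_right h.pr.ne_zero
  obtain ⟨y, hy⟩ : ∃ y : Ω, γ = 1 + y := ⟨γ - 1, by ring⟩
  have hy1 : X.V.valuation y ≤ 1 := by
    have e : y = γ - 1 := by
      rw [hy]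
      ring
    rw [e]
    exact (Valuation.map_sub _ _ _).trans (max_le h4.le (by rw [map_one]))
  have hyE : ∀ s ∈ X.E, s y = y := by
    intro s hs
    have e : y = γ - 1 := by
      rw [hy]
      ring
    rw [e, map_sub, map_one, hγ s hs]
  have hp1 : X.V.valuation (X.p : Ω) < 1 := vp_lt X h
  have hylt : X.V.valuation y < 1 := by
    obtain ⟨z, hz1, hz2⟩ := pow_one_add h.pr X.V hy1
    rw [← hy] at hz2
    have e : y ^ X.p = (γ ^ X.p - 1) - X.p * y * z := by
      rw [hz2]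
      ring
    have h5 : X.V.valuation (y ^ X.p) < 1 := by
      rw [e]
      refine lt_of_le_of_lt (Valuation.map_sub _ _ _) (max_lt h2 ?_)
      rw [map_mul, map_mul, mul_assoc]
      exact lt_of_le_of_lt (mul_le_of_le_one_right' (mul_le_one' hy1 hz1)) hp1
    rw [map_pow] at h5
    exact (pow_lt_one_iff h.pr.ne_zero).1 h5
  by_cases hy0 : y = 0
  · rw [hy, hy0, add_zero, one_pow, sub_self, map_zero]
    exact hWip
  obtain ⟨j, hj⟩ := h.val y hy0 hyE
  have hj1 : 0 < j := by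
    rw [hj] at hylt
    by_contra hj0
    push Not at hj0
    have h6 : X.V.valuation X.w ^ (0 : ℤ) ≤ X.V.valuation X.w ^ j := zpow_le_zpow_right_of_le_one₀ hWp h.w1.le hj0
    rw [zpow_zero] at h6
    exact absurd hylt (not_lt.2 h6)
  obtain ⟨J, rfl⟩ : ∃ J : ℕ, j = (J : ℤ) := ⟨j.toNat, (Int.toNat_of_nonneg hj1.le).symm⟩
  rw [zpow_natCast] at hj
  have hJ1 : 0 < J := by exact_mod_cast hj1
  obtain ⟨z, hz1, hz2⟩ := pow_one_add' h.pr X.V hy1
  rw [← hy] at hz2
  have e : γ ^ X.p - 1 = y ^ X.p + X.p * y * (1 + y * z) := by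
    rw [hz2]
    ring
  have hv1 : X.V.valuation (y ^ X.p) = X.V.valuation X.w ^ (J * X.p) := by rw [map_pow, hj, ← pow_mul]
  have hv2 : X.V.valuation (X.p * y * (1 + y * z)) = X.V.valuation X.w ^ (X.e + J) := by
    have h7 : X.V.valuation (1 + y * z) = 1 := by
      refine Valuation.map_one_add_of_lt _ ?_
      rw [map_mul]
      exact lt_of_le_of_lt (mul_le_of_le_one_right' hz1) hylt
    rw [map_mul, h7, mul_one, map_mul, h.ep, hj, ← pow_add]
  rcases lt_or_ge (J * X.p) (X.e + J) with hlt | hge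
  · have h8 : X.V.valuation (X.p * y * (1 + y * z)) < X.V.valuation (y ^ X.p) := by
      rw [hv1, hv2]
      exact pow_lt_pow_right_of_lt_one₀ hWp h.w1 hlt
    have h9 : X.V.valuation (γ ^ X.p - 1) = X.V.valuation X.w ^ (J * X.p) := by
      rw [e, Valuation.map_add_eq_of_lt_left _ h8, hv1]
    rw [h9] at h1 ⊢
    have h10 : i ≤ J * X.p := (pow_le_pow_iff_right_of_lt_one₀ hWp h.w1).1 h1
    have h11 : i ≠ J * X.p := by
      intro h12
      exact hi (h12 ▸ dvd_mul_left _ _)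
    exact pow_lt_pow_right_of_lt_one₀ hWp h.w1 (lt_of_le_of_ne h10 h11)
  · have h8 : X.V.valuation (y ^ X.p) ≤ X.V.valuation X.w ^ (X.e + J) := by
      rw [hv1]
      exact pow_le_pow_of_le_one hWp.le h.w1.le hge
    have h9 : X.V.valuation (γ ^ X.p - 1) ≤ X.V.valuation X.w ^ (X.e + J) := by
      rw [e]
      exact Valuation.map_add_le _ h8 hv2.le
    refine lt_of_le_of_lt h9 (pow_lt_pow_right_of_lt_one₀ hWp h.w1 ?_)
    obtain ⟨P, hP⟩ : ∃ P, X.p = P + 1 := ⟨X.p - 1, by have := h.pr.one_lt; omega⟩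
    rw [hP] at hie hge
    rw [Nat.add_sub_cancel] at hie
    by_contra h12
    push Not at h12
    have h13 : (X.e + J) * P ≤ i * P := Nat.mul_le_mul_right P h12
    have h14 : X.e ≤ J * P := by
      rw [mul_add, mul_one] at hge
      omega
    have h15 : (X.e + J) * P = X.e * P + J * P := by ring
    have h16 : X.e * (P + 1) = X.e * P + X.e := by ring
    omega

end H19B
end

-- from Lib.H19B.K8
section

/-! # H19B, chunk K8 (M): a Kummer generator close to 1 is unramified -/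

namespace H19B

open H55P (Dec Inert)

variable {F : Type} [Field F] {Ω : Type} [Field Ω] [Algebra F Ω]

/-- Chunk K8 (M). PROOF. Suppose a t ≠ 0, t in C, inert. ζ' = ζ (zt 1), ρ = V(ζ - 1), ρ^(p-1) = V(p) (zt_sub_one with a = 1), ρ < 1, ρ ≠ 0. V(β^p - 1)^(p-1) ≤ V(w)^(i(p-1)) ≤ V(w)^(e p) = V(p)^p = (ρ^p)^(p-1), so V(β^p - 1) ≤ ρ^p (i (p-1) ≥ e p > 0; pow_le_pow_left
inverse). y = β - 1: V(β) = 1 (V(β^p) = 1), V(y) ≤ 1, β^p - 1 = y^p + p y z, V(z) ≤ 1 (pow_one_add). Claim V(y) ≤ ρ: otherwise V(y)^(p-1) > V(p), so V(p y z) < V(y)^p (y ≠ 0) and V(β^p - 1) = V(y)^p > ρ^p, contradiction. So y = (ζ - 1) u with V(u) ≤ 1.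
t ζ = ζ (zD, om t = 1, zt 1 = ζ), so t β - β = (ζ - 1)(t u - u) has value < ρ (Inert V t, V(ζ - 1) ≠ 0). But t β = zt (a t) β, so V(t β - β) = V(zt (a t) - 1) V(β) = V(zt (a t) - 1), and its (p-1)-th power is V(p) = ρ^(p-1): the value is ρ. Contradiction. -/
theorem kg_inert (X : Frm F Ω) (h : X.Ok) {a : (Ω ≃ₐ[F] Ω) → ZMod X.p} {β : Ω} (hβ : X.Kg a β) {i : ℕ}
    (hie : X.e * X.p ≤ i * (X.p - 1)) (h1 : X.V.valuation (β ^ X.p - 1) ≤ X.V.valuation X.w ^ i)
    (t : Ω ≃ₐ[F] Ω) (ht : t ∈ X.C) (hi : Inert X.V t) : a t = 0 := by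
  by_contra hat
  have hp := h.pr
  have : Fact X.p.Prime := ⟨hp⟩
  have hp1 : X.p - 1 ≠ 0 := by have := hp.two_le; omega
  have hp0 : X.p ≠ 0 := hp.ne_zero
  set ρ := X.V.valuation (X.ζ - 1) with hρ
  have hz1 : zt X.ζ (1 : ZMod X.p) = X.ζ := by
    have := zt_nat h.prim 1
    rw [Nat.cast_one, pow_one] at this
    exact this
  have hρp : ρ ^ (X.p - 1) = X.V.valuation (X.p : Ω) := by
    have := zt_sub_one hp h.prim X.V (1 : ZMod X.p) one_ne_zero
    rw [hz1] at this
    exact this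
  have hvp1 := vp_lt X h
  have hw0 : X.V.valuation X.w ≠ 0 := (X.V.valuation.ne_zero_iff).2 h.w0
  have hρ0 : ρ ≠ 0 := by
    intro h0
    rw [h0, zero_pow hp1, h.ep] at hρp
    exact pow_ne_zero _ hw0 hρp.symm
  have hρ1 : ρ < 1 := by
    by_contra h2
    push Not at h2
    have : 1 ≤ ρ ^ (X.p - 1) := one_le_pow₀ h2
    rw [hρp] at this
    exact absurd hvp1 (not_lt.2 this)
  -- step 1
  have hs1 : X.V.valuation (β ^ X.p - 1) ≤ ρ ^ X.p := by
    refine h1.trans ?_
    rw [← pow_le_pow_iff_left₀ zero_le zero_le hp1, ← pow_mul, ← pow_mul, mul_comm X.p, pow_mul ρ, hρp, h.ep, ← pow_mul]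
    exact pow_le_pow_of_le_one zero_le h.w1.le hie
  have hρpl : ρ ^ X.p < 1 := pow_lt_one₀ zero_le hρ1 hp0
  -- step 2
  have hvβ : X.V.valuation β = 1 := by
    have h2 : X.V.valuation (1 + (β ^ X.p - 1)) = 1 := Valuation.map_one_add_of_lt X.V.valuation (hs1.trans_lt hρpl)
    rw [add_sub_cancel, map_pow] at h2
    exact (pow_eq_one_iff.1 h2).resolve_right hp0
  have hy1 : X.V.valuation (β - 1) ≤ 1 := by
    refine (Valuation.map_sub _ _ _).trans ?_
    rw [hvβ, map_one, max_self]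
  obtain ⟨z, hz, hyz⟩ := pow_one_add hp X.V hy1
  rw [add_sub_cancel] at hyz
  have hyz' : β ^ X.p - 1 = (β - 1) ^ X.p + X.p * (β - 1) * z := by rw [hyz]; ring
  have hs3 : X.V.valuation (β - 1) ≤ ρ := by
    by_contra h2
    push Not at h2
    have h3 : X.V.valuation (X.p : Ω) < X.V.valuation (β - 1) ^ (X.p - 1) := by
      rw [← hρp]
      exact pow_lt_pow_left₀ h2 zero_le hp1
    have hy0 : 0 < X.V.valuation (β - 1) := lt_of_le_of_lt zero_le h2
    have h4 : X.V.valuation (X.p * (β - 1) * z) < X.V.valuation ((β - 1) ^ X.p) := by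
      rw [map_mul, map_mul, map_pow]
      have h5 : X.V.valuation (β - 1) ^ X.p = X.V.valuation (β - 1) ^ (X.p - 1) * X.V.valuation (β - 1) := by
        rw [← pow_succ, Nat.sub_add_cancel hp.one_le]
      rw [h5]
      calc X.V.valuation (X.p : Ω) * X.V.valuation (β - 1) * X.V.valuation z ≤ X.V.valuation (X.p : Ω) * X.V.valuation (β - 1) * 1 := by
            gcongr
        _ = X.V.valuation (X.p : Ω) * X.V.valuation (β - 1) := mul_one _
        _ < X.V.valuation (β - 1) ^ (X.p - 1) * X.V.valuation (β - 1) := by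
            exact mul_lt_mul_of_pos_right h3 hy0
    have h6 : X.V.valuation (β ^ X.p - 1) = X.V.valuation (β - 1) ^ X.p := by
      rw [hyz', Valuation.map_add_eq_of_lt_left _ h4, map_pow]
    rw [h6] at hs1
    exact absurd h2 (not_lt.2 ((pow_le_pow_iff_left₀ zero_le zero_le hp0).1 hs1))
  -- step 4
  have hζ1 : X.ζ - 1 ≠ 0 := (X.V.valuation.ne_zero_iff).1 hρ0
  obtain ⟨u, hu⟩ : ∃ u, β - 1 = (X.ζ - 1) * u := ⟨(β - 1) / (X.ζ - 1), by field_simp⟩
  have hVu : X.V.valuation u ≤ 1 := by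
    rw [hu, map_mul] at hs3
    by_contra h2
    push Not at h2
    have : ρ * 1 < ρ * X.V.valuation u := mul_lt_mul_of_pos_left h2 (zero_lt_iff.2 hρ0)
    rw [mul_one] at this
    exact absurd this (not_lt.2 hs3)
  have htζ : t X.ζ = X.ζ := by
    rw [h.zD t (h.le2 (h.le1 ht)), h.om1 t ht, hz1]
  have htβ : t β - β = (X.ζ - 1) * (t u - u) := by
    have h2 : β = 1 + (X.ζ - 1) * u := by rw [← hu]; ring
    rw [h2, map_add, map_mul, map_sub, map_one, htζ]
    ring
  have hlt : X.V.valuation (t β - β) < ρ := by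
    rw [htβ, map_mul]
    have h2 := hi u ((ValuationSubring.valuation_le_one_iff _ _).1 hVu)
    have : ρ * X.V.valuation (t u - u) < ρ * 1 := mul_lt_mul_of_pos_left h2 (zero_lt_iff.2 hρ0)
    rwa [mul_one] at this
  have heq : X.V.valuation (t β - β) = X.V.valuation (zt X.ζ (a t) - 1) := by
    rw [hβ.ev t ht]
    have : zt X.ζ (a t) * β - β = (zt X.ζ (a t) - 1) * β := by ring
    rw [this, map_mul, hvβ, mul_one]
  have h5 := zt_sub_one hp h.prim X.V (a t) hat
  rw [← hρp, ← heq] at h5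
  have h6 := pow_lt_pow_left₀ hlt zero_le hp1
  rw [h5] at h6
  exact lt_irrefl _ h6

end H19B
end

-- from Lib.H19B.R1
section

/-! # H19B, chunk R1 (S): representatives of cosets -/

namespace H19B

variable {G : Type} [Group G]

/-- Chunk R1 (S). PROOF. The quotient of B by A.subgroupOf B is finite (Subgroup.relIndex, Subgroup.index_ne_zero_iff_finite); S = image of the map Quotient.out (then the
coercion to G). ex: t in B, s = the representative of the coset of t (QuotientGroup.out_eq', QuotientGroup.eq). un: equal cosets. card: the map is injective, Nat.card of the quotient is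
the relIndex. -/
theorem rep_exists (A B : Subgroup G) (hf : A.relIndex B ≠ 0) : ∃ S : Finset G, Rep A B S ∧ S.card = A.relIndex B := by
  classical
  have hfin : Finite (B ⧸ A.subgroupOf B) := by
    have h : (A.subgroupOf B).index ≠ 0 := hf
    exact (Subgroup.index_ne_zero_iff_finite).1 h
  have hft : Fintype (B ⧸ A.subgroupOf B) := Fintype.ofFinite _
  let r : (B ⧸ A.subgroupOf B) → G := fun c => ((Quotient.out c : B) : G)
  have key : ∀ c c' : B ⧸ A.subgroupOf B, (r c)⁻¹ * r c' ∈ A → c = c' := by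
    intro c c' h
    have h1 : (Quotient.out c : B)⁻¹ * (Quotient.out c' : B) ∈ A.subgroupOf B := by
      rw [Subgroup.mem_subgroupOf]
      simpa [r] using h
    have h2 : ((Quotient.out c : B) : B ⧸ A.subgroupOf B) = ((Quotient.out c' : B) : B ⧸ A.subgroupOf B) :=
      QuotientGroup.eq.2 h1
    rw [QuotientGroup.out_eq', QuotientGroup.out_eq'] at h2
    exact h2
  have hinj : Function.Injective r := by
    intro c c' h
    apply key
    rw [h]
    simp [A.one_mem]
  refine ⟨Finset.univ.image r, ⟨?_, ?_, ?_⟩, ?_⟩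
  · intro s hs
    obtain ⟨c, -, rfl⟩ := Finset.mem_image.1 hs
    exact (Quotient.out c : B).2
  · intro t ht
    refine ⟨r ((⟨t, ht⟩ : B) : B ⧸ A.subgroupOf B), Finset.mem_image_of_mem _ (Finset.mem_univ _), ?_⟩
    have h2 : ((Quotient.out (((⟨t, ht⟩ : B) : B ⧸ A.subgroupOf B)) : B) : B ⧸ A.subgroupOf B) = ((⟨t, ht⟩ : B) : B ⧸ A.subgroupOf B) :=
      QuotientGroup.out_eq' _
    have h3 := QuotientGroup.eq.1 h2
    rw [Subgroup.mem_subgroupOf] at h3
    simpa [r] using h3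
  · intro s hs s' hs' h
    obtain ⟨c, -, rfl⟩ := Finset.mem_image.1 hs
    obtain ⟨c', -, rfl⟩ := Finset.mem_image.1 hs'
    rw [key c c' h]
  · rw [Finset.card_image_of_injective _ hinj, Finset.card_univ, ← Nat.card_eq_fintype_card]
    rfl

/-- Chunk R1 (S). PROOF. For s in S, g * s is in B, so (ex) there is s' in S with g s = s' t, t in A, and f (g s) = f s'. The map s -> s' of S to itself is injective: g s1 = s' t1, g s2 = s' t2 give
s1⁻¹ s2 = t1⁻¹ t2 in A, s1 = s2 (un); so it is a bijection of the finite set S (Finset.prod_bij or Finset.prod_nbij with surjectivity from Finset.surj_on_of_inj_on_of_card_le;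
or work with the type S and Finite.injective_iff_bijective, Equiv.ofBijective, Finset.prod_coe_sort). -/
theorem rep_prod {A B : Subgroup G} {S : Finset G} (hS : Rep A B S) {M : Type} [CommMonoid M] (f : G → M)
    (hf : ∀ s ∈ B, ∀ t ∈ A, f (s * t) = f s) (g : G) (hg : g ∈ B) : ∏ s ∈ S, f (g * s) = ∏ s ∈ S, f s := by
  classical
  have hex : ∀ s ∈ S, ∃ s' ∈ S, s'⁻¹ * (g * s) ∈ A := fun s hs => hS.ex _ (B.mul_mem hg (hS.mem s hs))
  choose! k hk1 hk2 using hex
  have hkinj : ∀ s ∈ S, ∀ t ∈ S, k s = k t → s = t := by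
    intro s hs t ht h
    apply hS.un s hs t ht
    have e1 := A.inv_mem (hk2 s hs)
    have e2 := hk2 t ht
    rw [← h] at e2
    have e3 := A.mul_mem e1 e2
    have : ((k s)⁻¹ * (g * s))⁻¹ * ((k s)⁻¹ * (g * t)) = s⁻¹ * t := by group
    rwa [this] at e3
  have himg : S.image k = S := by
    apply Finset.eq_of_subset_of_card_le
    · intro x hx
      obtain ⟨s, hs, rfl⟩ := Finset.mem_image.1 hx
      exact hk1 s hs
    · rw [Finset.card_image_of_injOn (fun s hs t ht h => hkinj s hs t ht h)]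
  have h1 : ∀ s ∈ S, f (g * s) = f (k s) := by
    intro s hs
    have h := hf (k s) (hS.mem _ (hk1 s hs)) _ (hk2 s hs)
    rw [← h]
    congr 1
    group
  rw [Finset.prod_congr rfl h1]
  conv_rhs => rw [← himg]
  rw [Finset.prod_image (fun s hs t ht h => hkinj s hs t ht h)]

/-- Chunk R1 (S). The additive version (apply rep_prod to Multiplicative M, or repeat the proof). -/
theorem rep_sum {A B : Subgroup G} {S : Finset G} (hS : Rep A B S) {M : Type} [AddCommMonoid M] (f : G → M)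
    (hf : ∀ s ∈ B, ∀ t ∈ A, f (s * t) = f s) (g : G) (hg : g ∈ B) : ∑ s ∈ S, f (g * s) = ∑ s ∈ S, f s := by
  have h := rep_prod (M := Multiplicative M) hS (fun x => Multiplicative.ofAdd (f x))
    (fun s hs t ht => by rw [hf s hs t ht]) g hg
  have h' := congrArg Multiplicative.toAdd h
  rw [toAdd_prod, toAdd_prod] at h'
  simpa using h'

end H19B
end

-- from Lib.CFT.B18
section

/-! # CFT module B, chunk B18: order of the Frobenius element, Artin symbol of a norm -/

open NumberField IsDedekindDomain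

namespace CFT

variable {K : Type} [Field K] [NumberField K] {L : Type} [Field L] [NumberField L] [Algebra K L]


/-- PROOF. Induction: s x = x^q mod w for all x gives s^k x = x^(q^k) mod w. -/
theorem fr_pow {v : Pr K} {s : L ≃ₐ[K] L} (hs : IsFr K L v s) (k : ℕ) (w : Pr L) (hw : below K w = v) (x : 𝓞 L) :
    (s ^ k) • x - x ^ (Nm v ^ k) ∈ w.asIdeal := by
  induction k with
  | zero =>
    rw [pow_zero, pow_zero, one_smul, pow_one, sub_self]
    exact w.asIdeal.zero_mem
  | succ k ih =>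
    have h1 := hs w hw ((s ^ k) • x)
    have h2 : ((s ^ k) • x) ^ Nm v - (x ^ (Nm v ^ k)) ^ Nm v ∈ w.asIdeal :=
      Ideal.mem_of_dvd _ (sub_dvd_pow_sub_pow _ _ _) ih
    have h3 := w.asIdeal.add_mem h1 h2
    rw [sub_add_sub_cancel, ← mul_smul, ← pow_succ', ← pow_mul, ← pow_succ] at h3
    exact h3

/-- PROOF. s^k = 1 iff x = x^(q^k) mod w for all x (fr_pow, eq_of_cong) iff every element of the finite field O_L/w (with q^f elements, Nm_below in B06) satisfies x = x^(q^k)
iff f divides k (cyclic multiplicative group of order q^f - 1; or: only s^f = 1 and the order is at least f because a polynomial X^(q^k) - X has at most q^k roots). -/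
theorem order_frob [IsGalois K L] (hab : ∀ a b : L ≃ₐ[K] L, a * b = b * a) {v : Pr K} (hv : Unr K L v) (w : Pr L) (hw : below K w = v) :
    orderOf (frob K L v) = w.asIdeal.inertiaDeg (𝓞 K) := by
  have hfr := frob_spec hab hv
  have hq : 2 ≤ Nm v := by
    have h1 := Nm_pos v
    have h2 : Nm v ≠ 1 := fun h => v.isPrime.ne_top (Ideal.absNorm_eq_one_iff.1 h)
    omega
  haveI hfin : Finite (𝓞 L ⧸ w.asIdeal) := b17_fin w
  haveI : w.asIdeal.IsMaximal := w.isMaximal
  letI : Field (𝓞 L ⧸ w.asIdeal) := Ideal.Quotient.field w.asIdeal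
  letI : Fintype (𝓞 L ⧸ w.asIdeal) := Fintype.ofFinite _
  have hcard : Fintype.card (𝓞 L ⧸ w.asIdeal) = Nm v ^ w.asIdeal.inertiaDeg (𝓞 K) := by
    rw [← hw, ← Nm_below w, ← Nat.card_eq_fintype_card]
    unfold Nm
    rw [Ideal.absNorm_apply, Submodule.cardQuot_apply]
  have h1 : (frob K L v) ^ w.asIdeal.inertiaDeg (𝓞 K) = 1 := by
    refine eq_of_cong w (hv w hw) fun x => ?_
    have h2 := fr_pow hfr (w.asIdeal.inertiaDeg (𝓞 K)) w hw x
    have h3 : x ^ (Nm v ^ w.asIdeal.inertiaDeg (𝓞 K)) - x ∈ w.asIdeal := by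
      rw [← Ideal.Quotient.eq_zero_iff_mem, map_sub, map_pow, ← hcard, FiniteField.pow_card, sub_self]
    have h4 := w.asIdeal.add_mem h2 h3
    rwa [sub_add_sub_cancel] at h4
  have h2 : 0 < orderOf (frob K L v) := orderOf_pos _
  have h3 : ∀ x : 𝓞 L ⧸ w.asIdeal, x ^ (Nm v ^ orderOf (frob K L v)) = x := by
    intro x
    obtain ⟨x, rfl⟩ := Ideal.Quotient.mk_surjective x
    have h4 := fr_pow hfr (orderOf (frob K L v)) w hw x
    rw [pow_orderOf_eq_one, one_smul, ← Ideal.Quotient.eq_zero_iff_mem, map_sub, map_pow, sub_eq_zero] at h4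
    exact h4.symm
  have h4 : 1 < Nm v ^ orderOf (frob K L v) := Nat.one_lt_pow h2.ne' (by omega)
  have h5 : Fintype.card (𝓞 L ⧸ w.asIdeal) - 1 ∣ Nm v ^ orderOf (frob K L v) - 1 := by
    rw [← FiniteField.forall_pow_eq_one_iff]
    intro x
    apply Units.ext
    rw [Units.val_pow_eq_pow_val, Units.val_one]
    have h6 := h3 x.1
    have h7 : Nm v ^ orderOf (frob K L v) = (Nm v ^ orderOf (frob K L v) - 1) + 1 := by omega
    rw [h7, pow_succ] at h6
    exact mul_eq_right₀ x.ne_zero |>.1 h6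
  have h6 := Nat.le_of_dvd (by omega) h5
  rw [hcard] at h6
  have h7 : Nm v ^ w.asIdeal.inertiaDeg (𝓞 K) ≤ Nm v ^ orderOf (frob K L v) := by omega
  have h8 := (Nat.pow_le_pow_iff_right (by omega)).1 h7
  have h9 := Nat.le_of_dvd (f_pos (K := K) w) (orderOf_dvd_of_pow_eq_one h1)
  omega

/-- PROOF. Additive in D: Finsupp.addHom_ext / induction. For D = single w n: Nd_single, art_single_of_mem / _of_notMem (D2): f n times chi (frob) = chi (frob^f)^n = 1. -/
theorem art_Nd [IsGalois K L] (hab : ∀ a b : L ≃ₐ[K] L, a * b = b * a) (S : Finset (Pr K)) (hS : ∀ v : Pr K, ¬ Unr K L v → v ∈ S)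
    {A : Type} [CommGroup A] (χ : (L ≃ₐ[K] L) →* A) (D : Dv L) : art S χ (Nd K L D) = 0 := by
  have h : (art S χ).comp (Nd K L) = 0 := by
    refine Finsupp.addHom_ext fun w n => ?_
    rw [AddMonoidHom.comp_apply, Nd_single, AddMonoidHom.zero_apply]
    by_cases hw : below K w ∈ S
    · exact art_single_of_mem χ hw _
    · have hu : Unr K L (below K w) := by
        by_contra h
        exact hw (hS _ h)
      rw [art_single_of_notMem χ hw, mul_comm, mul_smul, natCast_zsmul]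
      have h1 : w.asIdeal.inertiaDeg (𝓞 K) • Additive.ofMul (χ (frob K L (below K w))) = 0 := by
        rw [← ofMul_pow, ← map_pow, ← order_frob hab hu w rfl, pow_orderOf_eq_one, map_one, ofMul_one]
      rw [h1, smul_zero]
  exact DFunLike.congr_fun h D

end CFT
end

-- from Lib.CFT.B21
section

/-! # CFT module B, chunk B21: base change of the Frobenius element -/

open NumberField IsDedekindDomain

namespace CFT

variable (K : Type) [Field K] [NumberField K] (L : Type) [Field L] [NumberField L] [Algebra K L]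
  (E : Type) [Field E] [NumberField E] [Algebra K E]
  (M : Type) [Field M] [NumberField M] [Algebra K M] [Algebra L M] [Algebra E M] [IsScalarTower K L M] [IsScalarTower K E M]


theorem b21_mem_below {F : Type} [Field F] [NumberField F] [Algebra F M] (W : Pr M) (x : 𝓞 F) :
    x ∈ (below F W).asIdeal ↔ algebraMap (𝓞 F) (𝓞 M) x ∈ W.asIdeal := Iff.rfl

theorem b21_res [IsGalois K L] (s : M ≃ₐ[E] M) (x : 𝓞 L) :
    algebraMap (𝓞 L) (𝓞 M) (resE K L E M s • x) = s • algebraMap (𝓞 L) (𝓞 M) x := by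
  apply RingOfIntegers.ext
  exact resE_spec s (x : L)


/-- PROOF. Let t be a Frobenius element of w in M/E, W above w, u = below L W. For x in O_L: resE t x = t x = x^(Nm w) mod W, so mod u; Nm w = Nm v^f (Nm_below, B06). On the other hand
(frob v)^f x = x^(Nm v^f) mod u (fr_pow, B18). eq_of_cong (B16) for the prime u. -/
theorem frob_base [IsGalois K L] [IsGalois E M] (habL : ∀ a b : L ≃ₐ[K] L, a * b = b * a) (habM : ∀ a b : M ≃ₐ[E] M, a * b = b * a)
    (w : Pr E) (hv : Unr K L (below K w)) (hw : Unr E M w) :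
    resE K L E M (frob E M w) = frob K L (below K w) ^ w.asIdeal.inertiaDeg (𝓞 K) := by
  obtain ⟨W, hW⟩ := below_surj (K := E) (L := M) w
  have h0 : below K (below L W) = below K w := by
    rw [← hW]
    exact (below_below K L M W).trans (below_below K E M W).symm
  refine eq_of_cong (below L W) (hv _ h0) fun x => ?_
  have h1 := frob_spec habM hw W hW (algebraMap (𝓞 L) (𝓞 M) x)
  have h2 := fr_pow (frob_spec habL hv) (w.asIdeal.inertiaDeg (𝓞 K)) (below L W) h0 x
  rw [← Nm_below (K := K) w] at h2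
  rw [b21_mem_below] at h2 ⊢
  rw [map_sub, b21_res]
  rw [map_sub, map_pow] at h2
  have h3 := W.asIdeal.sub_mem h1 h2
  rwa [sub_sub_sub_cancel_right] at h3

/-- PROOF. Additive in D (write D as the sum of its single parts; those with w in T have D w = 0): frob_base. For w outside T: below K w is outside S. -/
theorem art_base [IsGalois K L] [IsGalois E M] (habL : ∀ a b : L ≃ₐ[K] L, a * b = b * a) (habM : ∀ a b : M ≃ₐ[E] M, a * b = b * a)
    (S : Finset (Pr K)) (hS : ∀ v : Pr K, ¬ Unr K L v → v ∈ S) (T : Finset (Pr E)) (hT : ∀ w : Pr E, ¬ Unr E M w → w ∈ T) (hST : up E S ⊆ T)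
    {A : Type} [CommGroup A] (χ : (L ≃ₐ[K] L) →* A) (D : Dv E) (hD : ∀ w ∈ T, D w = 0) :
    art S χ (Nd K E D) = art T (χ.comp (resE K L E M)) D := by
  classical
  have e : D = ∑ w ∈ D.support, Finsupp.single w (D w) := (Finsupp.sum_single D).symm
  rw [e, map_sum, map_sum, map_sum]
  refine Finset.sum_congr rfl fun w hw => ?_
  have hwT : w ∉ T := fun h => Finsupp.mem_support_iff.1 hw (hD w h)
  have hvS : below K w ∉ S := fun h => hwT (hST ((mem_up S w).2 h))
  have hv : Unr K L (below K w) := by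
    by_contra h
    exact hvS (hS _ h)
  have hw' : Unr E M w := by
    by_contra h
    exact hwT (hT _ h)
  rw [Nd_single, art_single_of_notMem _ hvS, art_single_of_notMem _ hwT, MonoidHom.comp_apply,
    frob_base K L E M habL habM w hv hw', map_pow, ofMul_pow, mul_comm, mul_smul, natCast_zsmul]

end CFT
end

-- from Lib.CFT.B20
section

/-! # CFT module B, chunk B20: restriction of the Frobenius element -/

open NumberField IsDedekindDomain

namespace CFT

variable (K : Type) [Field K] [NumberField K] (E : Type) [Field E] [NumberField E] [Algebra K E]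
  (M : Type) [Field M] [NumberField M] [Algebra K M] [Algebra E M] [IsScalarTower K E M]


/-- PROOF. w a prime of M above v, u = below E w. t = restrictNormalHom E s satisfies algebraMap (t x) = s (algebraMap x) (AlgEquiv.restrictNormal_commutes). For x in O_E:
t x - x^q in u because its image s x - x^q is in w (u = w.under (O_E): Ideal.mem_comap). Every prime of E above v is below a prime of M (below_surj, B06). -/
theorem fr_res [Normal K E] {v : Pr K} {s : M ≃ₐ[K] M} (hs : IsFr K M v s) : IsFr K E v (AlgEquiv.restrictNormalHom E s) := by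
  intro w' hw' x
  obtain ⟨w, rfl⟩ := below_surj (K := E) (L := M) w'
  have hw : below K w = v := by rw [← below_below K E M w, hw']
  have h1 := hs w hw (algebraMap (𝓞 E) (𝓞 M) x)
  show (AlgEquiv.restrictNormalHom E s) • x - x ^ Nm v ∈ w.asIdeal.comap (algebraMap (𝓞 E) (𝓞 M))
  rw [Ideal.mem_comap, map_sub, map_pow]
  have h2 : algebraMap (𝓞 E) (𝓞 M) ((AlgEquiv.restrictNormalHom E s) • x) = s • (algebraMap (𝓞 E) (𝓞 M) x) := by
    apply RingOfIntegers.ext
    exact AlgEquiv.restrictNormal_commutes s E (x : E)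
  rw [h2]
  exact h1

/-- PROOF. unr_tower (B08), fr_res, frob_eq (B17). E/K is Galois abelian. -/
theorem frob_res [IsGalois K M] [IsGalois K E] (hab : ∀ a b : M ≃ₐ[K] M, a * b = b * a) {v : Pr K} (hv : Unr K M v) :
    AlgEquiv.restrictNormalHom E (frob K M v) = frob K E v := by
  have h1 := frob_spec hab hv
  have h2 := fr_res K E M h1
  have h3 := (unr_tower K E M hv).1
  exact (frob_eq h3 h2).symm

/-- PROOF. Additive in D; frob_res for the primes outside S. -/
theorem art_res [IsGalois K M] [IsGalois K E] (hab : ∀ a b : M ≃ₐ[K] M, a * b = b * a) (S : Finset (Pr K)) (hS : ∀ v : Pr K, ¬ Unr K M v → v ∈ S)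
    {A : Type} [CommGroup A] (χ : (E ≃ₐ[K] E) →* A) (D : Dv K) :
    art S (χ.comp (AlgEquiv.restrictNormalHom E : (M ≃ₐ[K] M) →* (E ≃ₐ[K] E))) D = art S χ D := by
  have h : art S (χ.comp (AlgEquiv.restrictNormalHom E : (M ≃ₐ[K] M) →* (E ≃ₐ[K] E))) = art S χ := by
    refine Finsupp.addHom_ext fun v n => ?_
    by_cases hv : v ∈ S
    · rw [art_single_of_mem _ hv, art_single_of_mem _ hv]
    · have hu : Unr K M v := by
        by_contra h
        exact hv (hS _ h)
      rw [art_single_of_notMem _ hv, art_single_of_notMem _ hv, MonoidHom.comp_apply, frob_res K E M hab hu]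
  rw [h]

end CFT
end

-- from Lib.CFT.Y28
section

/-! # CFT module Y, chunk Y28: characters of the group of divisors -/

open NumberField IsDedekindDomain

namespace CFTY

open CFT

variable {K : Type} [Field K] [NumberField K]

/-- PROOF. `chI S χ (idl D) = pv (cphi χ) (idl D)` (`H55R.tI_apply`, `cop_SI`); `pv` is multiplicative (`pv_mul`, `pv_prime`); `CFTZ.chi_apply`. (Induction on `D` or product over the support.) -/
theorem chI_idl {S : Finset (Pr K)} (χ : Dv K →+ Additive ℂˣ) {D : Dv K} (hD : ∀ v, 0 ≤ D v) (hS : ∀ v ∈ S, D v = 0) :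
    CFTZ.chI S χ (idl D) = (((χ D).toMul : ℂˣ) : ℂ) := by
  have h1 : CFTZ.chI S χ (idl D) = D.prod fun v n => CFTZ.chI S χ v.asIdeal ^ n.toNat := by
    unfold idl
    rw [map_finsuppProd]
    exact Finsupp.prod_congr fun v _ => map_pow _ _ _
  rw [h1, CFTZ.chi_apply, Finsupp.prod, Finsupp.prod, Units.coe_prod]
  refine Finset.prod_congr rfl fun v hv => ?_
  have hvS : v ∉ S := fun h => (Finsupp.mem_support_iff.1 hv) (hS v h)
  rw [CFTZ.chI_prime S χ hvS]
  have h2 : (CFTZ.cphi χ v ^ D v : ℂˣ) = CFTZ.cphi χ v ^ (D v).toNat := by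
    rw [← zpow_natCast, Int.toNat_of_nonneg (hD v)]
  rw [h2, Units.val_pow_eq_pow_val]

/-- PROOF. `zero`: `cop_mI`, `cop_SI`, `H55R.tI_zero`. `norm`: `CFTZ.dd_norm_pv`. `ray`: `ray_iff`, `chI_idl` with `D = dv x` (`idl_dv`, `Ray.od_eq`). -/
theorem hch_of {S : Finset (Pr K)} {N : ℕ} {ψ : K → ℂ} (χ : Dv K →+ Additive ℂˣ) (hn : ∀ v, ‖(CFTZ.cphi χ v : ℂ)‖ = 1)
    (hχ : ∀ x : K, Ray S N x → (((χ (dv x)).toMul : ℂˣ) : ℂ) = ψ x) : HCh (mI S N) ψ (CFTZ.chI S χ) := by
  refine ⟨fun a ha => ?_, fun a ha hc => ?_, fun x hx hp => ?_⟩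
  · unfold CFTZ.chI
    refine H55R.tI_zero _ _ fun h => ha ?_
    rw [cop_mI]
    exact (cop_SI S a).1 h
  · have hc' : IsCoprime a (CFTZ.SI S) := (cop_SI S a).2 ((cop_mI S N a).1 hc)
    unfold CFTZ.chI
    rw [H55R.tI_apply _ _ ha hc']
    exact CFTZ.dd_norm_pv _ hn a
  · have hr : Ray S N (x : K) := (ray_iff S N x).1 ⟨hx, hp⟩
    have hx0 : x ≠ 0 := by
      rintro rfl
      exact hr.ne (map_zero _)
    rw [← idl_dv hx0, chI_idl χ (D := dv (x : K)) (fun v => od_nonneg v x) (fun v hv => ?_)]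
    · exact hχ _ hr
    · rw [dv_apply]
      unfold od
      rw [hr.unit hv, WithZero.log_one, neg_zero]

end CFTY
end

-- from Lib.CFT.X16
section

/-! # CFT X16 (S/M): places of degree one

PROOF. E/K is normal (all subgroups of the abelian group Gal(M/K) are normal: IsGalois.of_fixedField_normal_subgroup or IntermediateField.normal via fixingSubgroup normal). frob_res (B20):
restrictNormalHom E (frob K M v) = frob K E v, and it is 1 since frob K M v fixes E (AlgEquiv.restrictNormal_commutes). v is unramified in E (unr_tower, B08). order_frob (B18):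
the inertia degree is the order of 1. -/

open NumberField IsDedekindDomain

namespace CFT

theorem x_split {K : Type} [Field K] [NumberField K] {M : Type} [Field M] [NumberField M] [Algebra K M] [IsGalois K M]
    (hab : ∀ a b : M ≃ₐ[K] M, a * b = b * a) (E : IntermediateField K M) {v : Pr K} (hv : Unr K M v) (hy : ∀ x : E, frob K M v (x : M) = x)
    (w : Pr E) (hw : below K w = v) : w.asIdeal.inertiaDeg (𝓞 K) = 1 := by
  have hN : E.fixingSubgroup.Normal := ⟨fun a ha b => by rwa [hab b a, mul_assoc, mul_inv_cancel, mul_one]⟩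
  have hEg : IsGalois K E := by
    have h1 : IsGalois K (IntermediateField.fixedField E.fixingSubgroup) := IsGalois.of_fixedField_normal_subgroup E.fixingSubgroup
    rwa [IsGalois.fixedField_fixingSubgroup] at h1
  have hsur : Function.Surjective (AlgEquiv.restrictNormalHom E : (M ≃ₐ[K] M) →* (E ≃ₐ[K] E)) := AlgEquiv.restrictNormalHom_surjective M
  have habE : ∀ a b : E ≃ₐ[K] E, a * b = b * a := by
    intro a b
    obtain ⟨a', rfl⟩ := hsur a
    obtain ⟨b', rfl⟩ := hsur b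
    rw [← map_mul, hab, map_mul]
  have h1 := frob_res K E M hab hv
  have h2 : AlgEquiv.restrictNormalHom E (frob K M v) = 1 := by
    ext x
    have h3 : algebraMap E M (AlgEquiv.restrictNormalHom E (frob K M v) x) = frob K M v (algebraMap E M x) :=
      AlgEquiv.restrictNormal_commutes (frob K M v) E x
    exact h3.trans (hy x)
  have h3 := order_frob habE (unr_tower K E M hv).1 w hw
  rw [← h1, h2, orderOf_one] at h3
  exact h3.symm

end CFT
end

-- from Lib.CFT.B22
section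

/-! # CFT module B, chunk B22: Frobenius elements and roots of unity -/

open NumberField IsDedekindDomain

namespace CFT

variable {K : Type} [Field K] [NumberField K] {L : Type} [Field L] [NumberField L] [Algebra K L]


/-- The m-th roots of unity are distinct modulo w when m is not in w. -/
theorem b22_distinct (w : Pr L) (m : ℕ) (hm : (m : 𝓞 L) ∉ w.asIdeal) {z z' : 𝓞 L} (hz : z ^ m = 1) (hz' : z' ^ m = 1)
    (h : z - z' ∈ w.asIdeal) : z = z' := by
  have hm0 : m ≠ 0 := by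
    rintro rfl
    apply hm
    rw [Nat.cast_zero]
    exact zero_mem _
  obtain ⟨k, rfl⟩ := Nat.exists_eq_succ_of_ne_zero hm0
  have hinv : z' * z' ^ k = 1 := by rw [← pow_succ']; exact hz'
  set u : 𝓞 L := z * z' ^ k with hu
  have hum : u ^ (k + 1) = 1 := by
    rw [hu, mul_pow, hz, one_mul, ← pow_mul, mul_comm k (k + 1), pow_mul, hz', one_pow]
  have hu1 : u - 1 ∈ w.asIdeal := by
    have e : u - 1 = (z - z') * z' ^ k := by
      rw [sub_mul, hinv]
    rw [e]
    exact Ideal.mul_mem_right _ _ h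
  have hu2 : u = 1 := by
    by_contra hne
    have h1 : (∑ i ∈ Finset.range (k + 1), u ^ i) * (u - 1) = 0 := by
      rw [geom_sum_mul, hum, sub_self]
    have h2 : ∑ i ∈ Finset.range (k + 1), u ^ i = 0 := by
      rcases mul_eq_zero.1 h1 with h3 | h3
      · exact h3
      · exact absurd (sub_eq_zero.1 h3) hne
    apply hm
    have h4 : ((k + 1 : ℕ) : 𝓞 L) = -∑ i ∈ Finset.range (k + 1), (u ^ i - 1) := by
      rw [Finset.sum_sub_distrib, h2]
      simp
    rw [h4]
    refine neg_mem (Ideal.sum_mem _ fun i _ => ?_)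
    exact Ideal.mem_of_dvd _ (sub_one_dvd_pow_sub_one u i) hu1
  have h5 : z * (z' ^ k * z') = z' := by
    rw [← mul_assoc, ← hu, hu2, one_mul]
  rw [mul_comm (z' ^ k) z', hinv, mul_one] at h5
  exact h5

/-- PROOF. Work in O_L/w, w above v: m is not in w, so the m-th roots of unity are distinct mod w (X^m - 1 is separable; Mathlib: AlgHom.IsArithFrobAt.apply_of_pow_eq_one in RingTheory/Frobenius.lean does exactly this).
zeta is an algebraic integer. -/
theorem fr_zeta (m : ℕ) (v : Pr K) (hm : (m : 𝓞 K) ∉ v.asIdeal) {s : L ≃ₐ[K] L} (hs : IsFr K L v s) {ζ : L} (hζ : ζ ^ m = 1) :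
    s ζ = ζ ^ Nm v := by
  obtain ⟨w, hw⟩ := below_surj (L := L) v
  have hmw : (m : 𝓞 L) ∉ w.asIdeal := by
    intro h
    apply hm
    rw [← hw]
    show (m : 𝓞 K) ∈ w.asIdeal.under (𝓞 K)
    rw [Ideal.under_def, Ideal.mem_comap, map_natCast]
    exact h
  have hm0 : m ≠ 0 := by
    rintro rfl
    apply hm
    rw [Nat.cast_zero]
    exact zero_mem _
  have hint : IsIntegral ℤ ζ := by
    refine IsIntegral.of_pow (Nat.pos_of_ne_zero hm0) ?_
    rw [hζ]
    exact isIntegral_one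
  set z : 𝓞 L := ⟨ζ, hint⟩ with hz
  have hzm : z ^ m = 1 := by
    apply RingOfIntegers.ext
    exact hζ
  have h1 := hs w hw z
  have h2 : (s • z) ^ m = 1 := by
    rw [← smul_pow', hzm, smul_one]
  have h3 : (z ^ Nm v) ^ m = 1 := by
    rw [← pow_mul, mul_comm, pow_mul, hzm, one_pow]
  have h4 := b22_distinct w m hmw h2 h3 h1
  have h5 := congrArg (fun x : 𝓞 L => (x : L)) h4
  exact h5

/-- PROOF. L/K is Galois (IsCyclotomicExtension.isGalois). Let w be above v, s with s x - x in w for all x in O_L, zeta a primitive m-th root of unity in L: s zeta is a root of unity congruent to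
zeta mod w, so s zeta = zeta (distinct mod w as in fr_zeta), so s = 1 (L is generated by zeta). unr_of_inertia (B16). -/
theorem unr_cyc (m : ℕ) [NeZero m] [IsCyclotomicExtension {m} K L] (v : Pr K) (hm : (m : 𝓞 K) ∉ v.asIdeal) : Unr K L v := by
  have hG : IsGalois K L := IsCyclotomicExtension.isGalois {m} K L
  intro w hw
  refine unr_of_inertia w fun s hs => ?_
  have hmw : (m : 𝓞 L) ∉ w.asIdeal := by
    intro h
    apply hm
    rw [← hw]
    show (m : 𝓞 K) ∈ w.asIdeal.under (𝓞 K)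
    rw [Ideal.under_def, Ideal.mem_comap, map_natCast]
    exact h
  have hζ := IsCyclotomicExtension.zeta_spec m K L
  set ζ := IsCyclotomicExtension.zeta m K L with hζd
  have hint : IsIntegral ℤ ζ := by
    refine IsIntegral.of_pow (Nat.pos_of_ne_zero (NeZero.ne m)) ?_
    rw [hζ.pow_eq_one]
    exact isIntegral_one
  set z : 𝓞 L := ⟨ζ, hint⟩ with hz
  have hzm : z ^ m = 1 := by
    apply RingOfIntegers.ext
    exact hζ.pow_eq_one
  have h2 : (s • z) ^ m = 1 := by
    rw [← smul_pow', hzm, smul_one]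
  have h4 := b22_distinct w m hmw h2 hzm (hs z)
  have h5 : s ζ = ζ := congrArg (fun x : 𝓞 L => (x : L)) h4
  have h6 : (s : L →ₐ[K] L) = ((1 : L ≃ₐ[K] L) : L →ₐ[K] L) := by
    refine (hζ.powerBasis K).algHom_ext ?_
    rw [IsPrimitiveRoot.powerBasis_gen]
    exact h5
  ext x
  exact congrArg (fun f : L →ₐ[K] L => f x) h6

/-- PROOF. Gal(L/K) embeds in (Z/m)^* (IsPrimitiveRoot.autToPow_injective), so it is abelian. -/
theorem cyc_comm (m : ℕ) [NeZero m] [IsCyclotomicExtension {m} K L] (a b : L ≃ₐ[K] L) : a * b = b * a := by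
  have hζ := IsCyclotomicExtension.zeta_spec m K L
  apply IsPrimitiveRoot.autToPow_injective K hζ
  rw [map_mul, map_mul, mul_comm]

end CFT
end

-- from Lib.CFT.B23
section

/-! # CFT module B, chunk B23: norms and congruences: x = 1 mod high powers of the primes dividing m, totally positive -/

open NumberField IsDedekindDomain

namespace CFT

variable {K : Type} [Field K] [NumberField K]


theorem b23_norm_congr (m : ℕ) (a b r : 𝓞 K) (h : a - b = (m : 𝓞 K) * r) :
    Algebra.norm ℤ a ≡ Algebra.norm ℤ b [ZMOD m] := by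
  classical
  rw [← ZMod.intCast_eq_intCast_iff]
  rw [Algebra.norm_eq_matrix_det (RingOfIntegers.basis K), Algebra.norm_eq_matrix_det (RingOfIntegers.basis K)]
  have e1 : ∀ A : Matrix (Module.Free.ChooseBasisIndex ℤ (𝓞 K)) (Module.Free.ChooseBasisIndex ℤ (𝓞 K)) ℤ,
      ((A.det : ℤ) : ZMod m) = (A.map (Int.castRingHom (ZMod m))).det := by
    intro A
    have := RingHom.map_det (Int.castRingHom (ZMod m)) A
    simpa using this
  rw [e1, e1]
  congr 1
  have h2 : a = b + (m : ℤ) • r := by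
    have : a = b + (m : 𝓞 K) * r := by rw [← h]; ring
    rw [this]
    simp
  rw [h2, map_add, map_zsmul]
  ext i j
  simp only [Matrix.map_apply, Matrix.add_apply, Matrix.smul_apply, map_add, smul_eq_mul, map_mul]
  simp

/-- PROOF. Let N = the sum of the m-orders: choose N with: for all v, od v m <= N (e.g. the maximum of od v (m) over the finitely many v containing m). x is a unit at S, so
frac_prime (B03) gives x = a / b, b outside all v in S; then a also. a - b = b (x - 1) has order > N >= od v m at the primes v dividing m (they are in S), so a - b in m O_K. Hence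
norm a = norm b mod m (the norm of a mod m is the determinant of the multiplication by a on O_K/m: Algebra.norm_eq_matrix_det with the integral basis, the entries of the matrices of a and b are congruent mod m, det is a
polynomial: Matrix.map_det / RingHom.map_det to ZMod m). norm a and norm b have the same sign because norm x > 0 (B12 with K = Q: norm_pos; the only real embedding of Q). So
A = |norm a|, B = |norm b| are natural numbers, congruent mod m, B is prime to m (b is outside every prime containing m... b a unit mod m), and nD (dv x) = A / B (nD_dv, B05). -/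
theorem norm_mod (m : ℕ) [NeZero m] (S : Finset (Pr K)) (hS : ∀ v : Pr K, (m : 𝓞 K) ∈ v.asIdeal → v ∈ S) :
    ∃ N : ℕ, ∀ x : K, Ray S N x → ∃ a b : 𝓞 K, a ≠ 0 ∧ b ≠ 0 ∧ x = (a : K) / (b : K) ∧ (∀ v ∈ S, a ∉ v.asIdeal) ∧ (∀ v ∈ S, b ∉ v.asIdeal) ∧
      Ideal.absNorm (Ideal.span {a}) ≡ Ideal.absNorm (Ideal.span {b}) [MOD m] := by
  classical
  have hm0 : (m : 𝓞 K) ≠ 0 := by exact_mod_cast NeZero.ne m
  have hm' : ((m : 𝓞 K) : K) ≠ 0 := fun h => hm0 (RingOfIntegers.coe_eq_zero_iff.1 h)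
  refine ⟨(dv ((m : 𝓞 K) : K)).support.sup fun v => (od v ((m : 𝓞 K) : K)).toNat, fun x hx => ?_⟩
  set N := (dv ((m : 𝓞 K) : K)).support.sup fun v => (od v ((m : 𝓞 K) : K)).toNat with hN
  have hNm : ∀ v : Pr K, od v ((m : 𝓞 K) : K) ≤ N := by
    intro v
    by_cases hv : v ∈ (dv ((m : 𝓞 K) : K)).support
    · have h1 := Finset.le_sup (f := fun v => (od v ((m : 𝓞 K) : K)).toNat) hv
      rw [← hN] at h1
      have h2 := od_nonneg v (m : 𝓞 K)
      omega
    · have h2 : od v ((m : 𝓞 K) : K) = 0 := by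
        have := Finsupp.notMem_support_iff.1 hv
        rwa [dv_apply] at this
      rw [h2]
      positivity
  obtain ⟨a, b, hb0, hxab, hbS⟩ := frac_prime S (x := x) (fun v hv => by rw [hx.od_eq hv])
  have hb' : (b : K) ≠ 0 := fun h => hb0 (RingOfIntegers.coe_eq_zero_iff.1 h)
  have ha0 : a ≠ 0 := by
    rintro rfl
    apply hx.ne
    rw [hxab]
    simp
  have ha' : (a : K) ≠ 0 := fun h => ha0 (RingOfIntegers.coe_eq_zero_iff.1 h)
  have hab : (a : K) = x * (b : K) := by
    rw [hxab, div_mul_cancel₀ _ hb']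
  have hod0 : ∀ v : Pr K, ∀ r : 𝓞 K, r ≠ 0 → (od v (r : K) = 0 ↔ r ∉ v.asIdeal) := by
    intro v r hr
    have h1 := od_pos_iff v hr
    have h2 := od_nonneg v r
    rw [← h1]
    omega
  have hbod : ∀ v ∈ S, od v (b : K) = 0 := fun v hv => (hod0 v b hb0).2 (hbS v hv)
  have haS : ∀ v ∈ S, a ∉ v.asIdeal := by
    intro v hv
    rw [← hod0 v a ha0, hab, od_mul v hx.ne hb', hx.od_eq hv, hbod v hv, add_zero]
  refine ⟨a, b, ha0, hb0, hxab, haS, hbS, ?_⟩
  -- a - b is divisible by m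
  have hdiv : ∃ r : 𝓞 K, a - b = (m : 𝓞 K) * r := by
    by_cases hab0 : a - b = 0
    · exact ⟨0, by rw [hab0, mul_zero]⟩
    have habK : ((a - b : 𝓞 K) : K) ≠ 0 := fun h => hab0 (RingOfIntegers.coe_eq_zero_iff.1 h)
    have hcoe : ((a - b : 𝓞 K) : K) = (a : K) - (b : K) := rfl
    have hx1 : x - 1 = ((a - b : 𝓞 K) : K) * (b : K)⁻¹ := by
      rw [hcoe, hab]
      field_simp
    have hx1' : x - 1 ≠ 0 := by
      rw [hx1]
      exact mul_ne_zero habK (inv_ne_zero hb')
    have hodm : ∀ v : Pr K, od v ((m : 𝓞 K) : K) ≤ od v ((a - b : 𝓞 K) : K) := by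
      intro v
      by_cases hv : (m : 𝓞 K) ∈ v.asIdeal
      · have hvS := hS v hv
        have h1 := (val_lt_iff v hx1' N).1 (hx.cong v hvS)
        rw [hx1, od_mul v habK (inv_ne_zero hb'), od_inv, hbod v hvS] at h1
        have h2 := hNm v
        omega
      · rw [(hod0 v _ hm0).2 hv]
        exact od_nonneg v _
    have h1 : ∀ v : Pr K, v.valuation K (((a - b : 𝓞 K) : K) * ((m : 𝓞 K) : K)⁻¹) ≤ 1 := by
      intro v
      rw [val_eq v (mul_ne_zero habK (inv_ne_zero hm')), ← WithZero.exp_zero, WithZero.exp_le_exp,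
        od_mul v habK (inv_ne_zero hm'), od_inv]
      have := hodm v
      omega
    obtain ⟨r, hr⟩ := HeightOneSpectrum.mem_integers_of_valuation_le_one (R := 𝓞 K) K _ h1
    refine ⟨r, ?_⟩
    apply RingOfIntegers.coe_injective
    have hr' : (r : K) = ((a - b : 𝓞 K) : K) * ((m : 𝓞 K) : K)⁻¹ := hr
    rw [map_mul]
    change ((a - b : 𝓞 K) : K) = ((m : 𝓞 K) : K) * (r : K)
    rw [hr', mul_comm, mul_assoc, inv_mul_cancel₀ hm', mul_one]
  obtain ⟨r, hr⟩ := hdiv
  have hcong := b23_norm_congr m a b r hr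
  -- signs
  have hpos : 0 < Algebra.norm ℚ x := by
    have := norm_pos (K := ℚ) hx.ne hx.pos (Rat.castHom ℝ)
    simpa using this
  have hnb : Algebra.norm ℚ (b : K) ≠ 0 := Algebra.norm_ne_zero_iff.2 hb'
  have hsign : 0 < Algebra.norm ℤ a * Algebra.norm ℤ b := by
    have h1 : (0 : ℚ) < ((Algebra.norm ℤ a * Algebra.norm ℤ b : ℤ) : ℚ) := by
      rw [Int.cast_mul, Algebra.coe_norm_int, Algebra.coe_norm_int, hab, map_mul, mul_assoc]
      exact mul_pos hpos (mul_self_pos.2 hnb)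
    exact_mod_cast h1
  rw [Ideal.absNorm_span_singleton, Ideal.absNorm_span_singleton]
  rw [← Int.natCast_modEq_iff]
  rcases lt_trichotomy (Algebra.norm ℤ b) 0 with hs | hs | hs
  · have ha : Algebra.norm ℤ a < 0 := by nlinarith
    rw [Int.ofNat_natAbs_of_nonpos ha.le, Int.ofNat_natAbs_of_nonpos hs.le]
    exact hcong.neg
  · rw [hs, mul_zero] at hsign
    exact absurd hsign (lt_irrefl _)
  · have ha : 0 < Algebra.norm ℤ a := by nlinarith
    rw [Int.natAbs_of_nonneg ha.le, Int.natAbs_of_nonneg hs.le]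
    exact hcong

end CFT
end

-- from Lib.CFT.B24
section

/-! # CFT module B, chunk B24: reciprocity for cyclotomic extensions -/

open NumberField IsDedekindDomain

namespace CFT

variable {K : Type} [Field K] [NumberField K] {L : Type} [Field L] [NumberField L] [Algebra K L]


theorem b24_pow {s : L ≃ₐ[K] L} {q : ℕ} {ζ : L} (h : s ζ = ζ ^ q) (n : ℕ) : (s ^ n) ζ = ζ ^ (q ^ n) := by
  induction n with
  | zero => simp
  | succ n ih =>
    rw [pow_succ' s n, AlgEquiv.mul_apply, ih, map_pow, h, ← pow_mul, ← pow_succ']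

theorem b24_prod (m : ℕ) [NeZero m] [IsCyclotomicExtension {m} K L] (S : Finset (Pr K))
    (hS : ∀ v : Pr K, (m : 𝓞 K) ∈ v.asIdeal → v ∈ S) {ζ : L} (hζ : ζ ^ m = 1) (n : Pr K → ℕ) (T : Finset (Pr K))
    (hT : ∀ v ∈ T, v ∉ S) :
    ∃ g : L ≃ₐ[K] L, g ζ = ζ ^ (∏ v ∈ T, Nm v ^ n v) ∧
      ∀ (A : Type) [CommGroup A] (χ : (L ≃ₐ[K] L) →* A),
        art S χ (∑ v ∈ T, Finsupp.single v (n v : ℤ)) = Additive.ofMul (χ g) := by
  classical
  haveI : IsGalois K L := IsCyclotomicExtension.isGalois {m} K L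
  induction T using Finset.induction_on with
  | empty =>
    refine ⟨1, by simp, fun A _ χ => ?_⟩
    rw [Finset.sum_empty, map_zero, map_one, ofMul_one]
  | insert v T hv ih =>
    obtain ⟨g, hg1, hg2⟩ := ih fun w hw => hT w (Finset.mem_insert_of_mem hw)
    have hvS : v ∉ S := hT v (Finset.mem_insert_self v T)
    have hm : (m : 𝓞 K) ∉ v.asIdeal := fun h => hvS (hS v h)
    have hfr := frob_spec (K := K) (L := L) (cyc_comm m) (unr_cyc m v hm)
    have hz : frob K L v ζ = ζ ^ Nm v := fr_zeta m v hm hfr hζ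
    refine ⟨g * frob K L v ^ n v, ?_, fun A _ χ => ?_⟩
    · rw [AlgEquiv.mul_apply, b24_pow hz, map_pow, hg1, ← pow_mul, Finset.prod_insert hv]
      congr 1
      ring
    · rw [Finset.sum_insert hv, map_add, hg2, art_single_of_notMem χ hvS, map_mul, map_pow, ofMul_mul, ofMul_pow,
        natCast_zsmul, add_comm]

/-- PROOF. D >= 0 supported outside S: g(D) = the product of the frob v^(D v) satisfies g(D) zeta = zeta^(N D), N D = absNorm (idl D) (induction on D with fr_zeta, B22; idl_add, nD_idl in B04). Stated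
with the abelian group A = Gal(L/K) itself and the identity. -/
theorem art_zeta (m : ℕ) [NeZero m] [IsCyclotomicExtension {m} K L] (S : Finset (Pr K))
    (hS : ∀ v : Pr K, (m : 𝓞 K) ∈ v.asIdeal → v ∈ S) {ζ : L} (hζ : ζ ^ m = 1) (a : 𝓞 K) (ha : a ≠ 0) (haS : ∀ v ∈ S, a ∉ v.asIdeal) :
    ∃ g : L ≃ₐ[K] L, g ζ = ζ ^ Ideal.absNorm (Ideal.span {a}) ∧
      ∀ (A : Type) [CommGroup A] (χ : (L ≃ₐ[K] L) →* A), art S χ (dv (a : K)) = Additive.ofMul (χ g) := by
  classical
  have hT : ∀ v ∈ (dv (a : K)).support, v ∉ S := by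
    intro v hv hvS
    have h1 : od v (a : K) ≠ 0 := by
      have := Finsupp.mem_support_iff.1 hv
      rwa [dv_apply] at this
    have h2 := od_nonneg v a
    exact haS v hvS ((od_pos_iff v ha).1 (lt_of_le_of_ne h2 h1.symm))
  obtain ⟨g, hg1, hg2⟩ := b24_prod (K := K) (L := L) m S hS hζ (fun v => (od v (a : K)).toNat) (dv (a : K)).support hT
  refine ⟨g, ?_, fun A _ χ => ?_⟩
  · rw [hg1, ← idl_dv ha]
    congr 1
    unfold idl Finsupp.prod
    rw [map_prod]
    refine Finset.prod_congr rfl fun v _ => ?_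
    rw [map_pow]
    rfl
  · rw [← hg2 A χ]
    congr 1
    have h1 : ∀ v : Pr K, ((od v (a : K)).toNat : ℤ) = dv (a : K) v := fun v => by
      rw [dv_apply]
      exact Int.toNat_of_nonneg (od_nonneg v a)
    simp only [h1]
    exact (Finsupp.sum_single (dv (a : K))).symm

/-- PROOF. N and a, b from norm_mod (B23); g_a, g_b from art_zeta with zeta primitive: g_a zeta = zeta^(Na) = zeta^(Nb) = g_b zeta, so g_a = g_b (L generated by zeta), art (dv x) = art (dv a) - art (dv b) = 0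
(dv_mul, dv_inv). -/
theorem cyc_rec' (m : ℕ) [NeZero m] [IsCyclotomicExtension {m} K L] (S : Finset (Pr K))
    (hS : ∀ v : Pr K, (m : 𝓞 K) ∈ v.asIdeal → v ∈ S) :
    ∃ N : ℕ, ∀ (A : Type) [CommGroup A] (χ : (L ≃ₐ[K] L) →* A) (x : K), Ray S N x → art S χ (dv x) = 0 := by
  classical
  obtain ⟨N, hN⟩ := norm_mod (K := K) m S hS
  refine ⟨N, fun A _ χ x hx => ?_⟩
  obtain ⟨a, b, ha, hb, hxab, haS, hbS, hmod⟩ := hN x hx
  have hζ := IsCyclotomicExtension.zeta_spec m K L
  set ζ := IsCyclotomicExtension.zeta m K L with hζdef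
  have hζ1 : ζ ^ m = 1 := hζ.pow_eq_one
  obtain ⟨g, hg1, hg2⟩ := art_zeta (K := K) (L := L) m S hS hζ1 a ha haS
  obtain ⟨g', hg1', hg2'⟩ := art_zeta (K := K) (L := L) m S hS hζ1 b hb hbS
  have hgg : g = g' := by
    have h1 : g ζ = g' ζ := by
      rw [hg1, hg1', pow_eq_pow_mod _ hζ1, pow_eq_pow_mod (Ideal.absNorm (Ideal.span {b})) hζ1]
      congr 1
    apply AlgEquiv.coe_toAlgHom_injective
    refine (hζ.powerBasis K).algHom_ext ?_
    rw [IsPrimitiveRoot.powerBasis_gen]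
    exact h1
  have hb' : (b : K) ≠ 0 := fun h => hb (RingOfIntegers.coe_eq_zero_iff.1 h)
  have ha' : (a : K) ≠ 0 := fun h => ha (RingOfIntegers.coe_eq_zero_iff.1 h)
  rw [hxab, div_eq_mul_inv, dv_mul ha' (inv_ne_zero hb'), dv_inv, map_add, map_neg, hg2 A χ, hg2' A χ, hgg]
  exact add_neg_cancel _

end CFT
end

-- from Lib.CFT.X13
section

/-! # CFT X13 (M, 3 small): primes outside S and m are unramified in L(zeta_m), and the Frobenius element on zeta -/

open NumberField IsDedekindDomain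

namespace CFT

/-- PROOF. If a prime number p divides Nm v and m, then p is in v: Nm v = absNorm v is a power of the prime number below v (Ideal.absNorm_eq_pow_inertiaDeg' or: the prime number p₀ in v; O_K/v is a vector space
over ZMod p₀, so its cardinality is a power of p₀), so p = p₀ is in v and m, a multiple of p, is in v. -/
theorem x_cop {K : Type} [Field K] [NumberField K] (m : ℕ) (v : Pr K) (hm : (m : 𝓞 K) ∉ v.asIdeal) : (Nm v).Coprime m := by
  rw [Nat.coprime_iff_gcd_eq_one]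
  by_contra hne
  obtain ⟨p, hp, hpd⟩ := Nat.exists_prime_and_dvd hne
  have hp1 : p ∣ Nm v := hpd.trans (Nat.gcd_dvd_left _ _)
  have hp2 : p ∣ m := hpd.trans (Nat.gcd_dvd_right _ _)
  haveI : Fact p.Prime := ⟨hp⟩
  haveI : Finite (𝓞 K ⧸ v.asIdeal) := Ideal.finiteQuotientOfFreeOfNeBot _ v.ne_bot
  have hcard : Nat.card (𝓞 K ⧸ v.asIdeal) = Nm v := by
    unfold Nm
    rw [Ideal.absNorm_apply, Submodule.cardQuot_apply]
  obtain ⟨x, hx⟩ := exists_prime_addOrderOf_dvd_card' (G := 𝓞 K ⧸ v.asIdeal) p (by rw [hcard]; exact hp1)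
  have hx0 : x ≠ 0 := by
    rintro rfl
    rw [addOrderOf_zero] at hx
    exact hp.one_lt.ne hx
  have hpx : (p : 𝓞 K ⧸ v.asIdeal) * x = 0 := by
    rw [← nsmul_eq_mul, ← hx]
    exact addOrderOf_nsmul_eq_zero x
  haveI : IsDomain (𝓞 K ⧸ v.asIdeal) := (Ideal.Quotient.isDomain_iff_prime v.asIdeal).2 v.isPrime
  have hp0 : (p : 𝓞 K ⧸ v.asIdeal) = 0 := by
    rcases mul_eq_zero.1 hpx with h | h
    · exact h
    · exact absurd h hx0
  have hpv : (p : 𝓞 K) ∈ v.asIdeal := by
    rw [← Ideal.Quotient.eq_zero_iff_mem, map_natCast]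
    exact hp0
  obtain ⟨c, rfl⟩ := hp2
  apply hm
  rw [Nat.cast_mul]
  exact v.asIdeal.mul_mem_right _ hpv


section

variable {K : Type} [Field K] [NumberField K] {L : Type} [Field L] [NumberField L] [Algebra K L]
  {M : Type} [Field M] [NumberField M] [Algebra K M] [Algebra L M] [IsScalarTower K L M] {m : ℕ} [NeZero m] [IsCyclotomicExtension {m} L M]

/-- PROOF. unr_of_tower (B08, with E = L) and unr_cyc (B22) for M/L; m_mem_below (X00). -/
theorem x_unr {v : Pr K} (hv : Unr K L v) (hm : (m : 𝓞 K) ∉ v.asIdeal) : Unr K M v := by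
  refine unr_of_tower K L M hv fun w hw => ?_
  refine unr_cyc m w ?_
  rw [← m_mem_below (K := K), hw]
  exact hm


/-- PROOF. M/K is Galois (x_gal, X12) and abelian (x_comm), frob_spec (B17), fr_zeta (B22): frob zeta = zeta^(Nm v); IsPrimitiveRoot.autToPow_spec and IsPrimitiveRoot.pow_inj or
(hζ.pow_eq_pow_iff_modEq): the exponents agree mod m. -/
theorem x_beta [IsGalois K L] (hab : ∀ a b : L ≃ₐ[K] L, a * b = b * a) {ζ : M} (hζ : IsPrimitiveRoot ζ m) {v : Pr K} (hv : Unr K L v)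
    (hm : (m : 𝓞 K) ∉ v.asIdeal) : hζ.autToPow K (frob K M v) = ZMod.unitOfCoprime (Nm v) (x_cop m v hm) := by
  haveI : IsGalois K M := x_gal K L M m
  have h1 := frob_spec (K := K) (L := M) (x_comm hζ hab) (x_unr (m := m) hv hm)
  have h2 := fr_zeta m v hm h1 hζ.pow_eq_one
  have h3 := hζ.autToPow_spec K (frob K M v)
  rw [h2] at h3
  apply Units.ext
  rw [ZMod.coe_unitOfCoprime]
  rw [pow_eq_pow_mod (Nm v) hζ.pow_eq_one] at h3
  have h4 := hζ.pow_inj (ZMod.val_lt _) (Nat.mod_lt _ (Nat.pos_of_ne_zero (NeZero.ne m))) h3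
  rw [← ZMod.natCast_zmod_val ((hζ.autToPow K (frob K M v) : (ZMod m)ˣ) : ZMod m), h4, ZMod.natCast_mod]


end

end CFT
end
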