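import Mathlib
import Pool.Agent.Lib.H1M.PP2.M009
import Pool.Agent.Lib.H1M.PP2.M022
import Pool.Agent.Lib.H1M.PP2.M025
import Pool.Agent.Lib.H1M.PP2.M051
import Pool.Agent.Lib.H1M.PP2.M057

/-! Merged copies (to shorten the build) of Lib.H19B.K1, Lib.H19B.K2, Lib.H19B.K3, Lib.H19B.K4, Lib.H19B.K6, Lib.H19B.K7, Lib.H19B.FS, Lib.H19B.L4, Lib.H19B.L5, Lib.H19B.L7, Lib.H35M.GS2. -/

-- from Lib.H19B.K1
section

/-! # H19B, chunk K1 (M): Kummer generators exist (independence of characters) -/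

namespace H19B

variable {F : Type} [Field F] {Ω : Type} [Field Ω] [Algebra F Ω]

/-- Restriction to an intermediate field. -/
noncomputable def k1_res (L : IntermediateField F Ω) (s : Ω ≃ₐ[F] Ω) : L →ₐ[F] Ω := (s : Ω →ₐ[F] Ω).comp L.val


theorem k1_eq (X : Frm F Ω) {a : (Ω ≃ₐ[F] Ω) → ZMod X.p} (ha : X.Tw a) (L : IntermediateField F Ω)
    (hL : ∀ s ∈ X.C, s ∈ L.fixingSubgroup → a s = 0) {t t' : Ω ≃ₐ[F] Ω} (ht : t ∈ X.C) (ht' : t' ∈ X.C)
    (h : k1_res L t = k1_res L t') : a t = a t' := by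
  have h1 : t⁻¹ * t' ∈ X.C := X.C.mul_mem (X.C.inv_mem ht) ht'
  have h2 : t⁻¹ * t' ∈ L.fixingSubgroup := by
    rw [IntermediateField.mem_fixingSubgroup_iff]
    intro x hx
    have h3 : t x = t' x := DFunLike.congr_fun h (⟨x, hx⟩ : L)
    rw [AlgEquiv.mul_apply, ← h3]
    exact t.symm_apply_apply x
  have h4 := ha.add t ht (t⁻¹ * t') h1
  rw [hL _ h1 h2, add_zero, mul_inv_cancel_left] at h4
  exact h4.symm

/-- Composition with an automorphism as a permutation. -/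
noncomputable def k1_perm (L : IntermediateField F Ω) (s : Ω ≃ₐ[F] Ω) : (L →ₐ[F] Ω) ≃ (L →ₐ[F] Ω) where
  toFun r := (s : Ω →ₐ[F] Ω).comp r
  invFun r := (s.symm : Ω →ₐ[F] Ω).comp r
  left_inv r := by ext x; exact s.symm_apply_apply _
  right_inv r := by ext x; exact s.apply_symm_apply _

/-- Chunk K1 (M). PROOF. Let L be finite over F with a s = 0 for s in C fixing L (ha.cont). The set R of the F-homomorphisms L -> Ω which are restrictions of elements of C is finite (Finite (L →ₐ[F] Ω)).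
For t, t' in C with equal restriction, t⁻¹ t' is in C and fixes L, so a t' = a t + a (t⁻¹ t') = a t (ha.add): a defines a function a' on R. The homomorphisms in R are
linearly independent over Ω as functions on L (linearIndependent_monoidHom L Ω, restricted to R; or linearIndependent_toLinearMap / AlgHom), and the coefficients zt (-a' r) are not 0, so there is x in L with
β = ∑ over r in R of zt (-a' r) * r x ≠ 0. For s in C: s fixes ζ (om s = 1, zt_map), s ∘ r is again in R, r -> s ∘ r is a bijection of R, a' (s ∘ r) = a s + a' r, hence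
s β = ∑ zt (-a' r) (s ∘ r) x = ∑ zt (a s - a' (s ∘ r)) (s ∘ r) x = zt (a s) β. -/
theorem kummer_gen (X : Frm F Ω) (h : X.Ok) (a : (Ω ≃ₐ[F] Ω) → ZMod X.p) (ha : X.Tw a) :
    ∃ β : Ω, β ≠ 0 ∧ ∀ t ∈ X.C, t β = zt X.ζ (a t) * β := by
  classical
  obtain ⟨L, hfin, hL⟩ := ha.cont
  haveI : Fintype (L →ₐ[F] Ω) := Fintype.ofFinite _
  set c : (L →ₐ[F] Ω) → Ω := fun r => if hr : ∃ t ∈ X.C, k1_res L t = r then zt X.ζ (-a hr.choose) else 0 with hc
  have hc1 : ∀ t ∈ X.C, c (k1_res L t) = zt X.ζ (-a t) := by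
    intro t ht
    have hr : ∃ t' ∈ X.C, k1_res L t' = k1_res L t := ⟨t, ht, rfl⟩
    have h1 : c (k1_res L t) = zt X.ζ (-a hr.choose) := dif_pos hr
    rw [h1, k1_eq X ha L hL hr.choose_spec.1 ht hr.choose_spec.2]
  have hc0 : ∀ r, (¬ ∃ t ∈ X.C, k1_res L t = r) → c r = 0 := fun r hr => dif_neg hr
  have hli : LinearIndependent Ω (fun (r : L →ₐ[F] Ω) => (fun x => r x : L → Ω)) := by
    have h1 := linearIndependent_monoidHom L Ω
    have h2 : Function.Injective (fun r : L →ₐ[F] Ω => (r : L →* Ω)) := by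
      intro r r' hrr
      ext x
      exact DFunLike.congr_fun hrr x
    exact h1.comp _ h2
  obtain ⟨x, hx⟩ : ∃ x : L, ∑ r : L →ₐ[F] Ω, c r * r x ≠ 0 := by
    by_contra hcon
    push Not at hcon
    have h1 := (Fintype.linearIndependent_iff.1 hli) c (by
      funext x
      rw [Finset.sum_apply]
      exact hcon x) (k1_res L 1)
    rw [hc1 1 X.C.one_mem] at h1
    exact zt_ne h.pr h.prim _ h1
  refine ⟨_, hx, fun s hs => ?_⟩
  have hsD : s ∈ X.D := h.le2 (h.le1 hs)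
  have hfix : ∀ b : ZMod X.p, s (zt X.ζ b) = zt X.ζ b := fun b => by
    rw [zt_map X h s hsD, h.om1 s hs, one_mul]
  have hsc : ∀ r, s (c r) = zt X.ζ (a s) * c (k1_perm L s r) := by
    intro r
    by_cases hr : ∃ t ∈ X.C, k1_res L t = r
    · obtain ⟨t, ht, rfl⟩ := hr
      have h1 : k1_perm L s (k1_res L t) = k1_res L (s * t) := by ext x; rfl
      rw [h1, hc1 t ht, hc1 _ (X.C.mul_mem hs ht), hfix, ← zt_add h.pr h.prim, ha.add s hs t ht]
      congr 1
      ring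
    · have hr' : ¬ ∃ t ∈ X.C, k1_res L t = k1_perm L s r := by
        rintro ⟨t, ht, h1⟩
        refine hr ⟨s⁻¹ * t, X.C.mul_mem (X.C.inv_mem hs) ht, ?_⟩
        ext x
        have h2 : t (x : Ω) = s (r x) := DFunLike.congr_fun h1 x
        show s⁻¹ (t (x : Ω)) = r x
        rw [h2]
        exact s.symm_apply_apply _
      rw [hc0 r hr, hc0 _ hr', map_zero, mul_zero]
  rw [map_sum]
  calc ∑ r, s (c r * r x) = ∑ r, zt X.ζ (a s) * (c (k1_perm L s r) * (k1_perm L s r) x) := by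
        refine Finset.sum_congr rfl fun r _ => ?_
        rw [map_mul, hsc r, mul_assoc]
        rfl
    _ = zt X.ζ (a s) * ∑ r, c (k1_perm L s r) * (k1_perm L s r) x := by rw [Finset.mul_sum]
    _ = zt X.ζ (a s) * ∑ r, c r * r x := by
        rw [Equiv.sum_comp (k1_perm L s) (fun r => c r * r x)]

end H19B
end

-- from Lib.H19B.K2
section

/-! # H19B, chunk K2 (M): Kummer generators: the norm to E, averaging -/

namespace H19B

variable {F : Type} [Field F] {Ω : Type} [Field Ω] [Algebra F Ω]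

/-- Chunk K2 (S/M). PROOF. For s in E, t in C: t (s β) = s ((s⁻¹ t s) β) = s (zt (a (s⁻¹ t s)) β) = zt (om s * a (s⁻¹ t s)) * s β (zt_map) = zt (et s * a t) * s β (ha.tw) = zt (a t) * s β as et s = 1. S from h.rep;
β1 = product over s in S of s β: t β1 = zt (a t)^card S * β1; β1^p = product of s (β^p); β^p is fixed by C (t β^p = zt(a t)^p β^p = β^p), so the function s -> s (β^p) satisfies the
condition of rep_prod (A = C, B = E) and g (β1^p) = β1^p for g in E. Let k be a natural number with k * card S = 1 modulo p (p does not divide card S: Nat.exists_mul_emod_eq_one_of_coprime or inverse in ZMod p);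
β' = β1^k: t β' = zt (a t)^(k card S) * β' = zt (a t) * β' (zt_mul: (k card S : ZMod p) = 1). -/
theorem kummer_norm (X : Frm F Ω) (h : X.Ok) (a : (Ω ≃ₐ[F] Ω) → ZMod X.p) (ha : X.Tw a) {β : Ω} (hβ : β ≠ 0)
    (hb : ∀ t ∈ X.C, t β = zt X.ζ (a t) * β) : ∃ β' : Ω, X.Kg a β' := by
  classical
  obtain ⟨S, hS, hc⟩ := h.rep
  have hpr : Fact X.p.Prime := ⟨h.pr⟩
  have hce : (S.card : ZMod X.p) ≠ 0 := by
    intro h0
    exact hc ((ZMod.natCast_eq_zero_iff _ _).1 h0)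
  let k : ℕ := ((S.card : ZMod X.p)⁻¹).val
  have hk : ((S.card * k : ℕ) : ZMod X.p) = 1 := by
    rw [Nat.cast_mul]
    show (S.card : ZMod X.p) * ((((S.card : ZMod X.p)⁻¹).val : ℕ) : ZMod X.p) = 1
    rw [ZMod.natCast_zmod_val, mul_inv_cancel₀ hce]
  let β1 : Ω := ∏ s ∈ S, s β
  have hβ1 : β1 ≠ 0 := Finset.prod_ne_zero_iff.2 fun s _ => (map_ne_zero_iff s s.injective).2 hβ
  have ht : ∀ t ∈ X.C, t β1 = zt X.ζ (a t) ^ S.card * β1 := by
    intro t ht
    show t (∏ s ∈ S, s β) = zt X.ζ (a t) ^ S.card * ∏ s ∈ S, s β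
    rw [map_prod, ← Finset.prod_const, ← Finset.prod_mul_distrib]
    refine Finset.prod_congr rfl fun s hs => ?_
    have hsE := hS.mem s hs
    have hsD := h.le2 hsE
    have e1 : t (s β) = s ((s⁻¹ * t * s) β) := by
      show (t * s) β = (s * (s⁻¹ * t * s)) β
      congr 1
      group
    rw [e1, hb _ (h.nrm1 s hsD t ht), map_mul, zt_map X h s hsD, ha.tw s hsD t ht, h.et1 s hsE, one_mul]
  have hfix : ∀ t ∈ X.C, t (β ^ X.p) = β ^ X.p := by
    intro t ht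
    rw [map_pow, hb t ht, mul_pow, zt_pow h.prim, one_mul]
  have hg : ∀ g ∈ X.E, g (β1 ^ X.p) = β1 ^ X.p := by
    intro g hg
    have e2 : β1 ^ X.p = ∏ s ∈ S, s (β ^ X.p) := by
      show (∏ s ∈ S, s β) ^ X.p = _
      rw [← Finset.prod_pow]
      exact Finset.prod_congr rfl fun s _ => (map_pow s β X.p).symm
    have e3 := rep_prod hS (fun s : Ω ≃ₐ[F] Ω => s (β ^ X.p)) (fun s _ t ht => by
      show s (t (β ^ X.p)) = s (β ^ X.p)
      rw [hfix t ht]) g hg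
    rw [e2, map_prod]
    exact e3
  refine ⟨β1 ^ k, pow_ne_zero k hβ1, fun s hs => ?_, fun t htC => ?_⟩
  · rw [← pow_mul, mul_comm k, pow_mul, map_pow, hg s hs]
  · rw [map_pow, ht t htC, mul_pow, ← pow_mul, ← zt_mul h.pr h.prim, hk, one_mul]

/-- Chunk K2 (M). Averaging. PROOF. For s in E: (s δ / δ)^p = 1, so s δ = zt (b s) δ for some b s in ZMod p (zt_root), unique (zt_inj). b (s t) = b s + om s * b t for s, t in E (s (t δ) = s (zt (b t)) * s δ = zt (om s * b t) zt (b s) δ);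
b t = 0 for t in C, so b (s t) = b s for t in C. S from h.rep, m the inverse of card S in ZMod p, x = m * ∑ over s in S of b s. For g in E: om g * x + b g = m * ∑ (om g * b s + b g) = m * ∑ b (g s) = m * ∑ b s = x (rep_sum).
γ = zt x * δ: g γ = zt (om g * x) * zt (b g) * δ = zt x * δ = γ, γ^p = δ^p (zt_pow). -/
theorem kummer_avg (X : Frm F Ω) (h : X.Ok) {δ : Ω} (hδ : δ ≠ 0) (h1 : ∀ t ∈ X.C, t δ = δ)
    (h2 : ∀ s ∈ X.E, s (δ ^ X.p) = δ ^ X.p) : ∃ γ : Ω, γ ≠ 0 ∧ (∀ s ∈ X.E, s γ = γ) ∧ γ ^ X.p = δ ^ X.p := by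
  classical
  obtain ⟨S, hS, hc⟩ := h.rep
  have hpr : Fact X.p.Prime := ⟨h.pr⟩
  have hce : (S.card : ZMod X.p) ≠ 0 := by
    intro h0
    exact hc ((ZMod.natCast_eq_zero_iff _ _).1 h0)
  have hinj : ∀ a b : ZMod X.p, zt X.ζ a = zt X.ζ b → a = b := by
    intro a b hab
    rw [← sub_eq_zero]
    apply zt_inj h.pr h.prim
    rw [sub_eq_add_neg, zt_add h.pr h.prim, zt_neg h.pr h.prim, hab, mul_inv_cancel₀ (zt_ne h.pr h.prim b)]
  have hex : ∀ s : Ω ≃ₐ[F] Ω, ∃ b : ZMod X.p, s ∈ X.E → s δ = zt X.ζ b * δ := by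
    intro s
    by_cases hs : s ∈ X.E
    · have h3 : (s δ / δ) ^ X.p = 1 := by
        rw [div_pow, ← map_pow, h2 s hs, div_self (pow_ne_zero _ hδ)]
      obtain ⟨b, hb⟩ := zt_root h.pr h.prim h3
      refine ⟨b, fun _ => ?_⟩
      rw [← hb, div_mul_cancel₀ _ hδ]
    · exact ⟨0, fun h => absurd h hs⟩
  choose b hb using hex
  have hmul : ∀ s ∈ X.E, ∀ t ∈ X.E, b (s * t) = X.om s * b t + b s := by
    intro s hs t ht
    apply hinj
    have h3 : (s * t) δ = s (t δ) := rfl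
    rw [hb _ (mul_mem hs ht), hb t ht, map_mul, zt_map X h s (h.le2 hs), hb s hs, ← mul_assoc,
      ← zt_add h.pr h.prim] at h3
    exact mul_right_cancel₀ hδ h3
  have hC : ∀ t ∈ X.C, b t = 0 := by
    intro t ht
    apply zt_inj h.pr h.prim
    have h3 := hb t (h.le1 ht)
    rw [h1 t ht] at h3
    exact (mul_eq_right₀ hδ).1 h3.symm
  let m : ZMod X.p := (S.card : ZMod X.p)⁻¹
  let x : ZMod X.p := m * ∑ s ∈ S, b s
  have hx : ∀ g ∈ X.E, X.om g * x + b g = x := by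
    intro g hg
    have h3 := rep_sum hS b (fun s hs t ht => by rw [hmul s hs t (h.le1 ht), hC t ht, mul_zero, zero_add]) g hg
    have h4 : ∑ s ∈ S, b (g * s) = X.om g * ∑ s ∈ S, b s + S.card * b g := by
      rw [Finset.mul_sum, ← nsmul_eq_mul, ← Finset.sum_const, ← Finset.sum_add_distrib]
      exact Finset.sum_congr rfl fun s hs => hmul g hg s (hS.mem s hs)
    have h5 : m * S.card = 1 := inv_mul_cancel₀ hce
    show X.om g * (m * ∑ s ∈ S, b s) + b g = m * ∑ s ∈ S, b s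
    linear_combination m * h3 - m * h4 - b g * h5
  refine ⟨zt X.ζ x * δ, mul_ne_zero (zt_ne h.pr h.prim x) hδ, fun g hg => ?_, ?_⟩
  · rw [map_mul, zt_map X h g (h.le2 hg), hb g hg, ← mul_assoc, ← zt_add h.pr h.prim, hx g hg]
  · rw [mul_pow, zt_pow h.prim, one_mul]

end H19B
end

-- from Lib.H19B.K3
section

/-! # H19B, chunk K3 (S/M): rules for Kummer generators, the Frobenius equation -/

namespace H19B

variable {F : Type} [Field F] {Ω : Type} [Field Ω] [Algebra F Ω]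

/-- Chunk K3 (S). zt_add. -/
theorem kg_mul (X : Frm F Ω) (h : X.Ok) {a b : (Ω ≃ₐ[F] Ω) → ZMod X.p} {β γ : Ω} (hβ : X.Kg a β) (hγ : X.Kg b γ) :
    X.Kg (a + b) (β * γ) := by
  obtain ⟨b0, b1, b2⟩ := hβ
  obtain ⟨c0, c1, c2⟩ := hγ
  refine ⟨mul_ne_zero b0 c0, fun s hs => ?_, fun t ht => ?_⟩
  · rw [mul_pow, map_mul, b1 s hs, c1 s hs]
  · rw [map_mul, b2 t ht, c2 t ht, Pi.add_apply, zt_add h.pr h.prim]
    ring

/-- Chunk K3 (S). zt_neg. -/
theorem kg_inv (X : Frm F Ω) (h : X.Ok) {a : (Ω ≃ₐ[F] Ω) → ZMod X.p} {β : Ω} (hβ : X.Kg a β) : X.Kg (-a) β⁻¹ := by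
  obtain ⟨b0, b1, b2⟩ := hβ
  refine ⟨inv_ne_zero b0, fun s hs => ?_, fun t ht => ?_⟩
  · rw [inv_pow, map_inv₀, b1 s hs]
  · rw [map_inv₀, b2 t ht, Pi.neg_apply, zt_neg h.pr h.prim, mul_inv]

/-- Chunk K3 (S). zt_mul. The character of β^k is k a; it is a if k = 1 modulo p. -/
theorem kg_pow (X : Frm F Ω) (h : X.Ok) {a : (Ω ≃ₐ[F] Ω) → ZMod X.p} {β : Ω} (hβ : X.Kg a β) (k : ℕ) (hk : (k : ZMod X.p) = 1) :
    X.Kg a (β ^ k) := by
  obtain ⟨b0, b1, b2⟩ := hβ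
  refine ⟨pow_ne_zero k b0, fun s hs => ?_, fun t ht => ?_⟩
  · rw [← pow_mul, mul_comm, pow_mul, map_pow, b1 s hs]
  · rw [map_pow, b2 t ht, mul_pow, ← zt_mul h.pr h.prim, hk, one_mul]

/-- Chunk K3 (S). -/
theorem kg_scale (X : Frm F Ω) (h : X.Ok) {a : (Ω ≃ₐ[F] Ω) → ZMod X.p} {β γ : Ω} (hβ : X.Kg a β) (h0 : γ ≠ 0)
    (hγ : ∀ s ∈ X.E, s γ = γ) : X.Kg a (β * γ) := by
  obtain ⟨b0, b1, b2⟩ := hβ
  refine ⟨mul_ne_zero b0 h0, fun s hs => ?_, fun t ht => ?_⟩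
  · rw [mul_pow, map_mul, b1 s hs, map_pow, hγ s hs]
  · rw [map_mul, b2 t ht, hγ t (h.le1 ht), mul_assoc]

/-- Chunk K3 (S). -/
theorem kg_one (X : Frm F Ω) (h : X.Ok) : X.Kg 0 1 := by
  refine ⟨one_ne_zero, fun s hs => ?_, fun t ht => ?_⟩
  · rw [one_pow, map_one]
  · rw [map_one, Pi.zero_apply, zt_zero, one_mul]

/-- Chunk K3 (M). PROOF. t (φ β) = φ ((φ⁻¹ t φ) β) = φ (zt (a (φ⁻¹ t φ)) β) = zt (om φ * a (φ⁻¹ t φ)) φ β = zt (et φ * a t) φ β = zt (a t)^n φ β (ha.tw, h.etn, zt_mul) for t in C. So δ = φ β / β^n is fixed by C, and δ^p = φ (β^p) / (β^p)^n is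
fixed by E: for s in E, s φ (β^p) = φ ((φ⁻¹ s φ) β^p) = φ (β^p) as φ⁻¹ s φ is in E (h.nrm2, h.phi). kummer_avg gives γ. -/
theorem kg_frob (X : Frm F Ω) (h : X.Ok) {a : (Ω ≃ₐ[F] Ω) → ZMod X.p} (ha : X.Tw a) {β : Ω} (hβ : X.Kg a β) :
    ∃ γ : Ω, γ ≠ 0 ∧ (∀ s ∈ X.E, s γ = γ) ∧ X.φ (β ^ X.p) = (β ^ X.p) ^ X.n * γ ^ X.p := by
  obtain ⟨b0, b1, b2⟩ := hβ
  have hc : ∀ s t : Ω ≃ₐ[F] Ω, ∀ x : Ω, t (s x) = s ((s⁻¹ * t * s) x) := by
    intro s t x
    have h3 : s * (s⁻¹ * t * s) = t * s := by group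
    have h4 : (s * (s⁻¹ * t * s)) x = (t * s) x := by rw [h3]
    rw [AlgEquiv.mul_apply, AlgEquiv.mul_apply t s] at h4
    exact h4.symm
  have hz : ∀ t ∈ X.C, t (X.φ β) = zt X.ζ (a t) ^ X.n * X.φ β := by
    intro t ht
    rw [hc X.φ t β, b2 _ (h.nrm1 X.φ h.phi t ht), map_mul, zt_map X h X.φ h.phi, ha.tw X.φ h.phi t ht, h.etn,
      zt_mul h.pr h.prim]
  have hp : X.φ β ≠ 0 := by
    intro h0
    exact b0 (by simpa using h0)
  have hn : β ^ X.n ≠ 0 := pow_ne_zero _ b0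
  have hδ : X.φ β / β ^ X.n ≠ 0 := div_ne_zero hp hn
  have hδp : (X.φ β / β ^ X.n) ^ X.p = X.φ (β ^ X.p) / (β ^ X.p) ^ X.n := by
    rw [div_pow, map_pow, ← pow_mul, ← pow_mul, mul_comm X.n X.p]
  have e1 : ∀ t ∈ X.C, t (X.φ β / β ^ X.n) = X.φ β / β ^ X.n := by
    intro t ht
    have hzt : zt X.ζ (a t) ^ X.n ≠ 0 := pow_ne_zero _ (zt_ne h.pr h.prim _)
    rw [map_div₀, hz t ht, map_pow, b2 t ht, mul_pow, mul_div_mul_left _ _ hzt]
  have e2 : ∀ s ∈ X.E, s ((X.φ β / β ^ X.n) ^ X.p) = (X.φ β / β ^ X.n) ^ X.p := by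
    intro s hs
    have e3 : s ((β ^ X.p) ^ X.n) = (β ^ X.p) ^ X.n := by rw [map_pow s (β ^ X.p) X.n, b1 s hs]
    have e4 : s (X.φ (β ^ X.p)) = X.φ (β ^ X.p) := by rw [hc X.φ s, b1 _ (h.nrm2 X.φ h.phi s hs)]
    rw [hδp, map_div₀, e3, e4]
  obtain ⟨γ, g0, g1, g2⟩ := kummer_avg X h hδ e1 e2
  refine ⟨γ, g0, g1, ?_⟩
  rw [g2, hδp, mul_div_cancel₀ _ (pow_ne_zero _ (pow_ne_zero _ b0))]

end H19B
end

-- from Lib.H19B.K4
section

/-! # H19B, chunk K4 (M): every twisted character has a Kummer generator β with β^p = 1 modulo the maximal ideal -/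

namespace H19B

open H55P (Dec Inert)

variable {F : Type} [Field F] {Ω : Type} [Field Ω] [Algebra F Ω]

theorem k4_dec {V : ValuationSubring Ω} {s : Ω ≃ₐ[F] Ω} (hs : Dec V s) {u : Ω} (hu : V.valuation u = 1) : V.valuation (s u) = 1 := by
  have hu0 : u ≠ 0 := by
    rintro rfl
    rw [map_zero] at hu
    exact zero_ne_one hu
  have h1 : V.valuation (s u) ≤ 1 := by
    rw [V.valuation_le_one_iff]
    exact (hs u).2 ((V.valuation_le_one_iff u).1 hu.le)
  have h2 : V.valuation (s u)⁻¹ ≤ 1 := by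
    have h3 : V.valuation u⁻¹ ≤ 1 := by rw [map_inv₀, hu, inv_one]
    rw [V.valuation_le_one_iff, ← map_inv₀]
    exact (hs u⁻¹).2 ((V.valuation_le_one_iff _).1 h3)
  refine le_antisymm h1 ?_
  rw [map_inv₀] at h2
  have h3 : 0 < V.valuation (s u) := zero_lt_iff.2 ((map_ne_zero _).2 ((map_ne_zero s).2 hu0))
  exact (inv_le_one₀ h3).1 h2

/-- Chunk K4 (M). PROOF. β with Kg a β (kummer_gen, kummer_norm), x = β^p fixed by E, V(x) = V(w)^i, i an integer (h.val). kg_frob: φ x = x^n γ^p with γ ≠ 0 fixed by E, V(γ) = V(w)^g. V(φ x) = V(x): φ is in the decomposition group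
(h.dec: V(y) ≤ 1 iff V(φ y) ≤ 1; so for the element y = φ x / x ... : V(φ x) = V(w)^i because x = w^i u with V(u) = 1, φ x = w^i φ u (φ w = w) and V(φ u) = 1: u and u⁻¹ have value ≤ 1, hence φ u and its inverse too). So
i = n i + p g (V(w) < 1, V(w) ≠ 0: powers with different integer exponents are different), p divides (n - 1) i, and n ≠ 1 modulo p (h.n1), so i = p k. w is fixed by E (h.fw, h.le2): β1 = β * w^(-k) satisfies Kg a β1 (kg_scale) and
V(β1^p) = 1. Let Q = q^(p-1), m = (Q - 1) * (p - 1): m = 1 modulo p, since p divides Q (p divides q), so (Q - 1)(p - 1) = (-1)(-1) = 1 modulo p. y = β1^p has value 1 and is fixed by E; V(y^Q - y) < 1 (h.res), so V(y^(Q-1) - 1) < 1 and V(y^m - 1) < 1 (z = y^(Q-1) : V(z^(p-1) - 1) ≤ V(z - 1)). β' = β1^m (kg_pow):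
V(β'^p - 1) = V(y^m - 1) < 1 = V(w)^0, so it is ≤ V(w)^1 (val_succ; y^m - 1 is fixed by E). -/
theorem kg_unit (X : Frm F Ω) (h : X.Ok) (a : (Ω ≃ₐ[F] Ω) → ZMod X.p) (ha : X.Tw a) : X.Fl 0 a := by
  obtain ⟨β0, hβ0, hb⟩ := kummer_gen X h a ha
  obtain ⟨β, hβ⟩ := kummer_norm X h a ha hβ0 hb
  have hp := h.pr
  have hx0 : β ^ X.p ≠ 0 := pow_ne_zero _ hβ.ne
  obtain ⟨i, hi⟩ := h.val _ hx0 hβ.fx
  obtain ⟨γ, hγ0, hγE, hγ⟩ := kg_frob X h ha hβ
  obtain ⟨g, hg⟩ := h.val γ hγ0 hγE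
  have hw0 : 0 < X.V.valuation X.w := zero_lt_iff.2 ((map_ne_zero _).2 h.w0)
  have hwne : X.V.valuation X.w ≠ 0 := hw0.ne'
  -- value of φ x
  have hu : X.V.valuation (β ^ X.p * X.w ^ (-i)) = 1 := by
    rw [map_mul, map_zpow₀, hi, ← zpow_add₀ hwne, add_neg_cancel, zpow_zero]
  have hφu := k4_dec (h.dec X.φ h.phi) hu
  have hφw : X.φ X.w = X.w := h.fw X.φ h.phi
  have hφx : X.V.valuation (X.φ (β ^ X.p)) = X.V.valuation X.w ^ i := by
    rw [map_mul, map_zpow₀, hφw, map_mul, map_zpow₀, zpow_neg] at hφu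
    exact (mul_inv_eq_one₀ (zpow_ne_zero _ hwne)).1 hφu
  have hexp : X.V.valuation X.w ^ i = X.V.valuation X.w ^ ((X.n : ℤ) * i + (X.p : ℤ) * g) := by
    have e1 : X.V.valuation ((β ^ X.p) ^ X.n) = X.V.valuation X.w ^ ((X.n : ℤ) * i) := by
      rw [map_pow X.V.valuation (β ^ X.p) X.n, hi, ← zpow_natCast, ← zpow_mul, mul_comm i]
    have e2 : X.V.valuation (γ ^ X.p) = X.V.valuation X.w ^ ((X.p : ℤ) * g) := by
      rw [map_pow, hg, ← zpow_natCast, ← zpow_mul, mul_comm g]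
    rw [← hφx, hγ, map_mul, e1, e2, zpow_add₀ hwne]
  have heq : i = (X.n : ℤ) * i + (X.p : ℤ) * g := by
    rcases lt_trichotomy i ((X.n : ℤ) * i + (X.p : ℤ) * g) with h1 | h1 | h1
    · exact absurd hexp ((zpow_lt_zpow_iff_right_of_lt_one₀ hw0 h.w1).2 h1).ne'
    · exact h1
    · exact absurd hexp ((zpow_lt_zpow_iff_right_of_lt_one₀ hw0 h.w1).2 h1).ne
  have hpi : (X.p : ℤ) ∣ i := by
    have h1 : (X.p : ℤ) ∣ ((X.n : ℤ) - 1) * i := ⟨-g, by linear_combination -heq⟩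
    rcases (Nat.prime_iff_prime_int.1 hp).dvd_or_dvd h1 with h2 | h2
    · exfalso
      apply h.n1
      have h3 : (((X.n : ℤ) - 1 : ℤ) : ZMod X.p) = 0 := (ZMod.intCast_zmod_eq_zero_iff_dvd _ _).2 h2
      push_cast at h3
      exact sub_eq_zero.1 h3
    · exact h2
  obtain ⟨k, hk⟩ := hpi
  have hwk0 : X.w ^ (-k) ≠ 0 := zpow_ne_zero _ h.w0
  have hwkE : ∀ s ∈ X.E, s (X.w ^ (-k)) = X.w ^ (-k) := fun s hs => by rw [map_zpow₀, h.fw s (h.le2 hs)]
  have hK1 := kg_scale X h hβ hwk0 hwkE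
  set β1 := β * X.w ^ (-k) with hβ1
  set y := β1 ^ X.p with hy
  have hyV : X.V.valuation y = 1 := by
    rw [hy, hβ1, mul_pow, map_mul, hi, map_pow, map_zpow₀, ← zpow_natCast, ← zpow_mul, ← zpow_add₀ hwne, hk]
    have h1 : (X.p : ℤ) * k + -k * (X.p : ℤ) = 0 := by ring
    rw [h1, zpow_zero]
  have hyE : ∀ s ∈ X.E, s y = y := hK1.fx
  have hy0 : y ≠ 0 := by
    intro h0
    rw [h0, map_zero] at hyV
    exact zero_ne_one hyV
  set Q := X.q ^ (X.p - 1) with hQ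
  have hQ1 : 1 ≤ Q := Nat.one_le_pow _ _ (lt_trans Nat.zero_lt_one h.q0)
  have hres : X.V.valuation (y ^ Q - y) < 1 := h.res y hyV.le hyE
  have hz : X.V.valuation (y ^ (Q - 1) - 1) < 1 := by
    have h1 : y ^ Q - y = y * (y ^ (Q - 1) - 1) := by
      have h2 : y ^ Q = y * y ^ (Q - 1) := by rw [← pow_succ', Nat.sub_add_cancel hQ1]
      rw [h2]; ring
    rw [h1, map_mul, hyV, one_mul] at hres
    exact hres
  have hzV : X.V.valuation (y ^ (Q - 1)) ≤ 1 := by rw [map_pow, hyV, one_pow]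
  have hm : X.V.valuation (y ^ ((Q - 1) * (X.p - 1)) - 1) < 1 := by
    rw [pow_mul]
    exact lt_of_le_of_lt (z1_le X.V hzV _) hz
  have hmod : (((Q - 1) * (X.p - 1) : ℕ) : ZMod X.p) = 1 := by
    have h1 : ((Q : ℕ) : ZMod X.p) = 0 := by
      rw [ZMod.natCast_eq_zero_iff]
      exact dvd_pow h.qp (by have := h.odd; omega)
    rw [Nat.cast_mul, Nat.cast_sub hQ1, Nat.cast_sub hp.one_lt.le, h1, ZMod.natCast_self]
    ring
  refine ⟨ha, β1 ^ ((Q - 1) * (X.p - 1)), kg_pow X h hK1 _ hmod, ?_⟩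
  have h1 : (β1 ^ ((Q - 1) * (X.p - 1))) ^ X.p = y ^ ((Q - 1) * (X.p - 1)) := by
    rw [hy, ← pow_mul, ← pow_mul, mul_comm X.p]
  rw [h1]
  refine val_succ X h (fun s hs => ?_) (by rw [pow_zero]; exact hm)
  rw [map_sub, map_one, map_pow, hyE s hs]

end H19B
end

-- from Lib.H19B.K6
section

/-! # H19B, chunk K6 (M): the leading coefficient of a Kummer generator -/

namespace H19B

variable {F : Type} [Field F] {Ω : Type} [Field Ω] [Algebra F Ω]

theorem k6_nat (V : ValuationSubring Ω) (n : ℕ) : V.valuation (n : Ω) ≤ 1 :=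
  (V.valuation_le_one_iff _).2 (natCast_mem V n)

theorem k6_pow (V : ValuationSubring Ω) {u : Ω} (hu : V.valuation u ≤ 1) (n : ℕ) :
    V.valuation ((1 + u) ^ n - 1 - n * u) ≤ V.valuation u ^ 2 := by
  induction n with
  | zero => simp
  | succ n ih =>
    have e : (1 + u) ^ (n + 1) - 1 - ((n + 1 : ℕ) : Ω) * u = ((1 + u) ^ n - 1 - n * u) * (1 + u) + n * u ^ 2 := by
      push_cast
      ring
    rw [e]
    refine Valuation.map_add_le _ ?_ ?_
    · rw [map_mul]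
      have h1 : V.valuation (1 + u) ≤ 1 := Valuation.map_add_le _ (by rw [map_one]) hu
      exact (mul_le_mul' ih h1).trans (by rw [mul_one])
    · rw [map_mul, map_pow]
      exact (mul_le_mul' (k6_nat V n) le_rfl).trans (by rw [one_mul])

/-- Chunk K6 (M). PROOF. i > 0 as p does not divide i. x = β^p = 1 + λ w^i with V(λ) ≤ 1. kg_frob: φ x = x^n γ^p, γ ≠ 0 fixed by E. φ x = 1 + φ(λ) w^i (φ w = w), V(φ λ) ≤ 1, V(φ λ - λ^q) < 1 (h.fro). x^n = 1 + n λ w^i + (terms of value ≤ V(w)^(2i) < V(w)^i)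
(for instance by induction on n: V(x^n - 1 - n λ w^i) < V(w)^i). So V(φ x - 1) ≤ V(w)^i, V(x^n - 1) ≤ V(w)^i, V(x^n) = 1, V(γ^p - 1) = V((φ x - x^n) / x^n) ≤ V(w)^i, hence V(γ^p - 1) < V(w)^i (pow_claim), V(φ x - x^n) < V(w)^i,
V(φ(λ) - n λ) < 1, V(λ^q - n λ) < 1. -/
theorem lead_eq (X : Frm F Ω) (h : X.Ok) {a : (Ω ≃ₐ[F] Ω) → ZMod X.p} (ha : X.Tw a) {β : Ω} (hβ : X.Kg a β) {i : ℕ}
    (hi : ¬ X.p ∣ i) (hie : i * (X.p - 1) < X.e * X.p) (h1 : X.V.valuation (β ^ X.p - 1) ≤ X.V.valuation X.w ^ i) {l : Ω}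
    (hl : β ^ X.p - 1 = l * X.w ^ i) : X.V.valuation l ≤ 1 ∧ X.V.valuation (l ^ X.q - X.n * l) < 1 := by
  have hW0 : X.V.valuation X.w ≠ 0 := (Valuation.ne_zero_iff _).2 h.w0
  have hWi0 : X.V.valuation X.w ^ i ≠ 0 := pow_ne_zero _ hW0
  have hWip : 0 < X.V.valuation X.w ^ i := zero_lt_iff.2 hWi0
  have hi0 : i ≠ 0 := by
    rintro rfl
    exact hi (dvd_zero _)
  have hWi1 : X.V.valuation X.w ^ i < 1 := pow_lt_one₀ zero_le h.w1 hi0
  have hl1 : X.V.valuation l ≤ 1 := by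
    rw [hl, map_mul, map_pow] at h1
    exact le_of_mul_le_mul_right (h1.trans (by rw [one_mul])) hWip
  refine ⟨hl1, ?_⟩
  obtain ⟨γ, g0, g1, g2⟩ := kg_frob X h ha hβ
  have hx : β ^ X.p = 1 + l * X.w ^ i := by rw [← hl]; ring
  have hu : X.V.valuation (l * X.w ^ i) ≤ X.V.valuation X.w ^ i := by
    rw [← hl]
    exact h1
  have hu1 : X.V.valuation (l * X.w ^ i) < 1 := lt_of_le_of_lt hu hWi1
  have hφx : X.φ (β ^ X.p) = 1 + X.φ l * X.w ^ i := by
    rw [hx, map_add, map_one, map_mul, map_pow, h.fw X.φ h.phi]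
  have hf : X.V.valuation (X.φ l - l ^ X.q) < 1 := h.fro l hl1
  have hφl : X.V.valuation (X.φ l) ≤ 1 := by
    have e : X.φ l = (X.φ l - l ^ X.q) + l ^ X.q := by ring
    rw [e]
    refine Valuation.map_add_le _ hf.le ?_
    rw [map_pow]
    exact pow_le_one' hl1 _
  have hq : X.V.valuation ((1 + l * X.w ^ i) ^ X.n - 1 - X.n * (l * X.w ^ i)) < X.V.valuation X.w ^ i := by
    refine lt_of_le_of_lt (k6_pow X.V hu1.le X.n) ?_
    refine lt_of_le_of_lt (pow_le_pow_left₀ zero_le hu 2) ?_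
    rw [pow_two]
    exact mul_lt_of_lt_one_left hWip hWi1
  have hn1 : X.V.valuation ((β ^ X.p) ^ X.n - 1) ≤ X.V.valuation X.w ^ i := by
    have e : (β ^ X.p) ^ X.n - 1 = ((1 + l * X.w ^ i) ^ X.n - 1 - X.n * (l * X.w ^ i)) + X.n * (l * X.w ^ i) := by
      rw [hx]
      ring
    rw [e]
    refine Valuation.map_add_le _ hq.le ?_
    rw [map_mul]
    exact (mul_le_mul' (k6_nat X.V X.n) hu).trans (by rw [one_mul])
  have hn2 : X.V.valuation ((β ^ X.p) ^ X.n) = 1 := by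
    have e : (β ^ X.p) ^ X.n = 1 + ((β ^ X.p) ^ X.n - 1) := by ring
    rw [e]
    exact Valuation.map_one_add_of_lt _ (lt_of_le_of_lt hn1 hWi1)
  have hφ1 : X.V.valuation (X.φ (β ^ X.p) - 1) ≤ X.V.valuation X.w ^ i := by
    have e : X.φ (β ^ X.p) - 1 = X.φ l * X.w ^ i := by
      rw [hφx]
      ring
    rw [e, map_mul, map_pow]
    exact (mul_le_mul' hφl le_rfl).trans (by rw [one_mul])
  have hd : X.V.valuation (X.φ (β ^ X.p) - (β ^ X.p) ^ X.n) = X.V.valuation (γ ^ X.p - 1) := by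
    have e : X.φ (β ^ X.p) - (β ^ X.p) ^ X.n = (β ^ X.p) ^ X.n * (γ ^ X.p - 1) := by
      rw [g2]
      ring
    rw [e, map_mul, hn2, one_mul]
  have hd1 : X.V.valuation (γ ^ X.p - 1) ≤ X.V.valuation X.w ^ i := by
    rw [← hd]
    have e : X.φ (β ^ X.p) - (β ^ X.p) ^ X.n = (X.φ (β ^ X.p) - 1) - ((β ^ X.p) ^ X.n - 1) := by ring
    rw [e]
    exact (Valuation.map_sub _ _ _).trans (max_le hφ1 hn1)
  have hd2 : X.V.valuation (X.φ (β ^ X.p) - (β ^ X.p) ^ X.n) < X.V.valuation X.w ^ i := by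
    rw [hd]
    exact pow_claim X h g1 hi hie hd1
  have hd3 : X.V.valuation ((X.φ l - X.n * l) * X.w ^ i) < X.V.valuation X.w ^ i := by
    have e : (X.φ l - X.n * l) * X.w ^ i = (X.φ (β ^ X.p) - (β ^ X.p) ^ X.n)
        + ((1 + l * X.w ^ i) ^ X.n - 1 - X.n * (l * X.w ^ i)) := by
      rw [hφx, hx]
      ring
    rw [e]
    exact Valuation.map_add_lt _ hd2 hq
  have hd4 : X.V.valuation (X.φ l - X.n * l) < 1 := by
    rw [map_mul, map_pow] at hd3
    exact lt_of_mul_lt_mul_right (hd3.trans_le (by rw [one_mul])) hWip.le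
  have e : l ^ X.q - X.n * l = (X.φ l - X.n * l) - (X.φ l - l ^ X.q) := by ring
  rw [e]
  exact lt_of_le_of_lt (Valuation.map_sub _ _ _) (max_lt hd4 hf)

end H19B
end

-- from Lib.H19B.K7
section

/-! # H19B, chunk K7 (M): improving a Kummer generator -/

namespace H19B

variable {F : Type} [Field F] {Ω : Type} [Field Ω] [Algebra F Ω]

/-- Chunk K7 (M). PROOF. i = p k, k > 0. x = β^p = 1 + λ w^i, λ = (x - 1) / w^i is fixed by E, V(λ) ≤ 1. Q = q^(p-1) is divisible by p (p divides q, p - 1 > 0), Q = p Q'; μ = λ^Q', fixed by E, V(μ) ≤ 1, μ^p = λ^Q, V(μ^p - λ) < 1 (h.res).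
δ = 1 + μ w^k, V(δ) = 1, fixed by E; pow_one_add: δ^p = 1 + μ^p w^i + p μ w^k z, V(p w^k) = V(w)^(e+k) < V(w)^i because e + k > p k: (p k)(p - 1) < e p gives k (p - 1) < e. So V(δ^p - x) < V(w)^i. β' = β δ⁻¹ (kg_scale):
β'^p - 1 = (x - δ^p) / δ^p has value < V(w)^i, and it is fixed by E (hβ'.fx): ≤ V(w)^(i+1) (val_succ). -/
theorem improve (X : Frm F Ω) (h : X.Ok) {a : (Ω ≃ₐ[F] Ω) → ZMod X.p} {β : Ω} (hβ : X.Kg a β) {i : ℕ} (h0 : 0 < i)
    (hi : X.p ∣ i) (hie : i * (X.p - 1) < X.e * X.p) (h1 : X.V.valuation (β ^ X.p - 1) ≤ X.V.valuation X.w ^ i) :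
    ∃ β' : Ω, X.Kg a β' ∧ X.V.valuation (β' ^ X.p - 1) ≤ X.V.valuation X.w ^ (i + 1) := by
  have hp := h.pr
  have hV0 : X.V.valuation X.w ≠ 0 := (Valuation.ne_zero_iff _).2 h.w0
  have hVpos : 0 < X.V.valuation X.w := zero_lt_iff.2 hV0
  obtain ⟨k, rfl⟩ := hi
  have hk0 : 0 < k := Nat.pos_of_mul_pos_left h0
  have hkp : X.p * k < X.e + k := by
    have h2 : X.p * (k * (X.p - 1)) < X.p * X.e := by
      calc X.p * (k * (X.p - 1)) = X.p * k * (X.p - 1) := by ring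
        _ < X.e * X.p := hie
        _ = X.p * X.e := mul_comm _ _
    have h3 : k * (X.p - 1) < X.e := lt_of_mul_lt_mul_left h2 (Nat.zero_le _)
    have h4 : X.p * k = k * (X.p - 1) + k := by
      have h5 : X.p = (X.p - 1) + 1 := by have := hp.pos; omega
      calc X.p * k = ((X.p - 1) + 1) * k := by rw [← h5]
        _ = k * (X.p - 1) + k := by ring
    omega
  have hEw : ∀ s ∈ X.E, s X.w = X.w := fun s hs => h.fw s (h.le2 hs)
  obtain ⟨x, hx⟩ : ∃ x, x = β ^ X.p := ⟨_, rfl⟩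
  have hxE : ∀ s ∈ X.E, s x = x := by rw [hx]; exact hβ.fx
  rw [← hx] at h1
  obtain ⟨l, hl⟩ : ∃ l, l = (x - 1) / X.w ^ (X.p * k) := ⟨_, rfl⟩
  have hwi : X.w ^ (X.p * k) ≠ 0 := pow_ne_zero _ h.w0
  have hxl : x = 1 + l * X.w ^ (X.p * k) := by
    rw [hl, div_mul_cancel₀ _ hwi]
    ring
  have hlE : ∀ s ∈ X.E, s l = l := by
    intro s hs
    rw [hl, map_div₀, map_sub, map_one, map_pow, hxE s hs, hEw s hs]
  have hlV : X.V.valuation l ≤ 1 := by
    rw [hl, map_div₀, map_pow]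
    exact div_le_one_of_le₀ h1 (zero_le)
  obtain ⟨Q', hQ'⟩ : X.p ∣ X.q ^ (X.p - 1) :=
    dvd_pow h.qp (by have := h.odd; omega)
  obtain ⟨m, hm⟩ : ∃ m, m = l ^ Q' := ⟨_, rfl⟩
  have hmE : ∀ s ∈ X.E, s m = m := by
    intro s hs
    rw [hm, map_pow, hlE s hs]
  have hmV : X.V.valuation m ≤ 1 := by
    rw [hm, map_pow]
    exact pow_le_one₀ (zero_le) hlV
  have hmp : X.V.valuation (m ^ X.p - l) < 1 := by
    have h5 := h.res l hlV hlE
    rwa [hQ', mul_comm, pow_mul, ← hm] at h5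
  obtain ⟨y, hy⟩ : ∃ y, y = m * X.w ^ k := ⟨_, rfl⟩
  have hyV : X.V.valuation y ≤ X.V.valuation X.w ^ k := by
    rw [hy, map_mul, map_pow]
    exact mul_le_of_le_one_left (zero_le) hmV
  have hwk : X.V.valuation X.w ^ k < 1 := pow_lt_one₀ (zero_le) h.w1 hk0.ne'
  have hy1 : X.V.valuation y < 1 := lt_of_le_of_lt hyV hwk
  obtain ⟨z, hz, hz2⟩ := pow_one_add hp X.V hy1.le
  obtain ⟨d, hd⟩ : ∃ d, d = 1 + y := ⟨_, rfl⟩
  have hdV : X.V.valuation d = 1 := by
    rw [hd]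
    rw [Valuation.map_add_eq_of_lt_left _ (by rw [map_one]; exact hy1), map_one]
  have hd0 : d ≠ 0 := by
    intro h6
    rw [h6, map_zero] at hdV
    exact zero_ne_one hdV
  have hdE : ∀ s ∈ X.E, s d = d := by
    intro s hs
    rw [hd, hy, map_add, map_one, map_mul, map_pow, hmE s hs, hEw s hs]
  have hkey : X.V.valuation (x - d ^ X.p) < X.V.valuation X.w ^ (X.p * k) := by
    have h7 : x - d ^ X.p = -((m ^ X.p - l) * X.w ^ (X.p * k) + X.p * y * z) := by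
      rw [hd, hz2, hxl, hy, mul_pow, ← pow_mul, mul_comm k X.p]
      ring
    rw [h7, Valuation.map_neg]
    refine Valuation.map_add_lt _ ?_ ?_
    · rw [map_mul, map_pow]
      exact mul_lt_of_lt_one_left (pow_pos hVpos _) hmp
    · rw [map_mul, map_mul, h.ep]
      calc X.V.valuation X.w ^ X.e * X.V.valuation y * X.V.valuation z
          ≤ X.V.valuation X.w ^ X.e * X.V.valuation X.w ^ k * 1 :=
            mul_le_mul' (mul_le_mul' le_rfl hyV) hz
        _ = X.V.valuation X.w ^ (X.e + k) := by rw [mul_one, pow_add]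
        _ < X.V.valuation X.w ^ (X.p * k) := pow_lt_pow_right_of_lt_one₀ hVpos h.w1 hkp
  refine ⟨β * d⁻¹, kg_scale X h hβ (inv_ne_zero hd0) (fun s hs => by rw [map_inv₀, hdE s hs]), ?_⟩
  have hK := kg_scale X h hβ (inv_ne_zero hd0) (fun s hs => by rw [map_inv₀, hdE s hs])
  refine val_succ X h (fun s hs => by rw [map_sub, hK.fx s hs, map_one]) ?_
  have h8 : (β * d⁻¹) ^ X.p - 1 = (x - d ^ X.p) / d ^ X.p := by
    have h9 : d ^ X.p ≠ 0 := pow_ne_zero _ hd0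
    rw [mul_pow, ← hx, inv_pow]
    field_simp
  rw [h8, map_div₀, map_pow, hdV, one_pow, div_one]
  exact hkey

end H19B
end

-- from Lib.H19B.FS
section

/-! # H19B, chunk FS (M): the index of the unramified twisted characters -/

namespace H19B

open H55P (Dec Inert)

variable {F : Type} [Field F] {Ω : Type} [Field Ω] [Algebra F Ω]

theorem fs_one (X : Frm F Ω) {x : Ω} (hx : X.V.valuation (x - 1) < 1) : X.V.valuation x = 1 := by
  have h1 := Valuation.map_one_add_of_lt X.V.valuation hx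
  rwa [add_sub_cancel] at h1

theorem fs_lt (X : Frm F Ω) (h : X.Ok) (i : ℕ) : X.V.valuation X.w ^ (i + 1) < 1 :=
  pow_lt_one₀ zero_le h.w1 (Nat.succ_ne_zero i)

/-- Chunk FS (S). PROOF. Kg 0 1 (kg_one); kg_mul and β^p γ^p - 1 = (β^p - 1) γ^p + (γ^p - 1), V(γ^p) = 1 (V(γ^p - 1) < 1); kg_inv and β^(-p) - 1 = -(β^p - 1) / β^p. -/
theorem fl_zero (X : Frm F Ω) (h : X.Ok) (i : ℕ) : X.Fl i 0 := by
  refine ⟨X.TS.zero_mem, 1, kg_one X h, ?_⟩
  rw [one_pow, sub_self, map_zero]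
  exact zero_le

/-- Chunk FS (S). -/
theorem fl_add (X : Frm F Ω) (h : X.Ok) (i : ℕ) {a b : (Ω ≃ₐ[F] Ω) → ZMod X.p} (ha : X.Fl i a) (hb : X.Fl i b) : X.Fl i (a + b) := by
  obtain ⟨ta, β, hβ, hβ'⟩ := ha
  obtain ⟨tb, γ, hγ, hγ'⟩ := hb
  refine ⟨X.TS.add_mem ta tb, β * γ, kg_mul X h hβ hγ, ?_⟩
  have h1 : X.V.valuation (γ ^ X.p) = 1 := fs_one X (hγ'.trans_lt (fs_lt X h i))
  have e1 : (β * γ) ^ X.p - 1 = (β ^ X.p - 1) * γ ^ X.p + (γ ^ X.p - 1) := by ring
  rw [e1]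
  refine (Valuation.map_add _ _ _).trans (max_le ?_ hγ')
  rw [map_mul, h1, mul_one]
  exact hβ'

/-- Chunk FS (S). -/
theorem fl_neg (X : Frm F Ω) (h : X.Ok) (i : ℕ) {a : (Ω ≃ₐ[F] Ω) → ZMod X.p} (ha : X.Fl i a) : X.Fl i (-a) := by
  obtain ⟨ta, β, hβ, hβ'⟩ := ha
  refine ⟨X.TS.neg_mem ta, β⁻¹, kg_inv X h hβ, ?_⟩
  have h1 : X.V.valuation (β ^ X.p) = 1 := fs_one X (hβ'.trans_lt (fs_lt X h i))
  have h2 : β ^ X.p ≠ 0 := pow_ne_zero _ hβ.ne
  have e1 : (β⁻¹) ^ X.p - 1 = -((β ^ X.p - 1) * (β ^ X.p)⁻¹) := by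
    rw [inv_pow]
    field_simp
    ring
  rw [e1, Valuation.map_neg, map_mul, map_inv₀, h1, inv_one, mul_one]
  exact hβ'

/-- The filtration of the twisted characters. -/
def TF (X : Frm F Ω) (h : X.Ok) (i : ℕ) : AddSubgroup ((Ω ≃ₐ[F] Ω) → ZMod X.p) where
  carrier := {a | X.Fl i a}
  zero_mem' := fl_zero X h i
  add_mem' := fun ha hb => fl_add X h i ha hb
  neg_mem' := fun ha => fl_neg X h i ha


/-- Chunk FS (S). V(w) < 1. -/
theorem tf_anti (X : Frm F Ω) (h : X.Ok) : Antitone (TF X h) := by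
  intro i j hij a ha
  obtain ⟨ta, β, hβ, hβ'⟩ := ha
  exact ⟨ta, β, hβ, hβ'.trans (pow_le_pow_of_le_one zero_le h.w1.le (by omega))⟩

/-- Chunk FS (S). kg_unit. -/
theorem tf_zero (X : Frm F Ω) (h : X.Ok) : TF X h 0 = X.TS := by
  ext a
  exact ⟨fun ha => ha.tw, fun ha => kg_unit X h a ha⟩

/-- Chunk FS (M). PROOF. If p divides i + 1: TF i = TF (i+1) (improve), the index is 1. Otherwise rel_le with k = the residue field of V (IsLocalRing.ResidueField X.V), f a = class of (β^p - 1) / w^(i+1) (an element of V) for a chosen generator β of a (Classical.choose; 0 if there is none),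
R = the roots of the polynomial T^q - n T (not zero, of degree q: q > 1; Polynomial.card_roots'); f a is a root by lead_eq (V(x) < 1 iff the residue class is 0: ValuationSubring.valuation_lt_one_iff / IsLocalRing.residue_eq_zero_iff). If f a = f b with generators β, γ: β γ⁻¹ is a generator of a - b (kg_mul, kg_inv)
and (β/γ)^p - 1 = (β^p - γ^p) / γ^p has value < V(w)^(i+1), fixed by E, so ≤ V(w)^(i+2) (val_succ). -/
theorem tf_step (X : Frm F Ω) (h : X.Ok) (i : ℕ) (hi : (i + 1) * (X.p - 1) < X.e * X.p) :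
    (TF X h (i + 1)).relIndex (TF X h i) ≠ 0 ∧ (TF X h (i + 1)).relIndex (TF X h i) ≤ if X.p ∣ i + 1 then 1 else X.q := by
  classical
  by_cases hp : X.p ∣ i + 1
  · rw [if_pos hp]
    have h1 : TF X h i ≤ TF X h (i + 1) := by
      intro a ha
      obtain ⟨ta, β, hβ, hβ'⟩ := ha
      obtain ⟨γ, hγ, hγ'⟩ := improve X h hβ (Nat.succ_pos i) hp hi hβ'
      exact ⟨ta, γ, hγ, hγ'⟩
    rw [AddSubgroup.relIndex_eq_one.2 h1]
    exact ⟨one_ne_zero, le_rfl⟩
  · rw [if_neg hp]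
    have hw : X.w ^ (i + 1) ≠ 0 := pow_ne_zero _ h.w0
    have hch : ∀ a : (Ω ≃ₐ[F] Ω) → ZMod X.p, ∃ (β : Ω) (l : X.V), a ∈ TF X h i →
        X.Kg a β ∧ X.V.valuation (β ^ X.p - 1) ≤ X.V.valuation X.w ^ (i + 1) ∧ β ^ X.p - 1 = l * X.w ^ (i + 1) ∧
          X.V.valuation ((l : Ω) ^ X.q - X.n * l) < 1 := by
      intro a
      by_cases ha : a ∈ TF X h i
      · obtain ⟨ta, β, hβ, hβ'⟩ := ha
        have hl : β ^ X.p - 1 = ((β ^ X.p - 1) / X.w ^ (i + 1)) * X.w ^ (i + 1) := (div_mul_cancel₀ _ hw).symm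
        obtain ⟨h1, h2⟩ := lead_eq X h ta hβ hp hi hβ' hl
        exact ⟨β, ⟨_, (ValuationSubring.valuation_le_one_iff _ _).1 h1⟩, fun _ => ⟨hβ, hβ', hl, h2⟩⟩
      · exact ⟨0, 0, fun h' => absurd h' ha⟩
    choose β l hβl using hch
    obtain ⟨P, hP⟩ : ∃ P : Polynomial (IsLocalRing.ResidueField X.V),
        P = Polynomial.X ^ X.q - Polynomial.C (X.n : IsLocalRing.ResidueField X.V) * Polynomial.X := ⟨_, rfl⟩
    have hPd : P.natDegree = X.q := by
      rw [hP]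
      apply Polynomial.natDegree_eq_of_degree_eq_some
      rw [Polynomial.degree_sub_eq_left_of_degree_lt]
      · exact Polynomial.degree_X_pow _
      · rw [Polynomial.degree_X_pow]
        refine (Polynomial.degree_C_mul_X_le _).trans_lt ?_
        exact_mod_cast h.q0
    have hP0 : P ≠ 0 := by
      intro h0
      rw [h0, Polynomial.natDegree_zero] at hPd
      have := h.q0
      omega
    have hres : ∀ x : X.V, X.V.valuation (x : Ω) < 1 → IsLocalRing.residue X.V x = 0 := fun x hx =>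
      (IsLocalRing.residue_eq_zero_iff x).2 ((ValuationSubring.valuation_lt_one_iff _ x).2 hx)
    have hres' : ∀ x : X.V, IsLocalRing.residue X.V x = 0 → X.V.valuation (x : Ω) < 1 := fun x hx =>
      (ValuationSubring.valuation_lt_one_iff _ x).1 ((IsLocalRing.residue_eq_zero_iff x).1 hx)
    have h1 := rel_le (TF X h (i + 1)) (TF X h i) (fun a => IsLocalRing.residue X.V (l a)) P.roots.toFinset
      (fun a ha => by
        obtain ⟨-, -, -, h2⟩ := hβl a ha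
        rw [Multiset.mem_toFinset, Polynomial.mem_roots hP0, Polynomial.IsRoot.def, hP]
        rw [Polynomial.eval_sub, Polynomial.eval_pow, Polynomial.eval_X, Polynomial.eval_mul, Polynomial.eval_C,
          Polynomial.eval_X]
        have h3 := hres ((l a) ^ X.q - X.n * l a) (by
          push_cast
          exact h2)
        rw [map_sub, map_pow, map_mul, map_natCast] at h3
        exact h3)
      (fun a ha b hb hab => by
        obtain ⟨ka, va, la, -⟩ := hβl a ha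
        obtain ⟨kb, vb, lb, -⟩ := hβl b hb
        have h4 : IsLocalRing.residue X.V (l a - l b) = 0 := by
          rw [map_sub, sub_eq_zero]
          exact hab
        have h5 := hres' _ h4
        have h6 : X.V.valuation ((β b) ^ X.p) = 1 := fs_one X (vb.trans_lt (fs_lt X h i))
        have h7 : (β b) ^ X.p ≠ 0 := pow_ne_zero _ kb.ne
        have hk := kg_mul X h ka (kg_inv X h kb)
        rw [← sub_eq_add_neg] at hk
        refine ⟨X.TS.sub_mem ha.tw hb.tw, _, hk, ?_⟩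
        refine val_succ X h ?_ ?_
        · intro s hs
          rw [map_sub, map_one, hk.fx s hs]
        · have e1 : (β a * (β b)⁻¹) ^ X.p - 1 = (((l a - l b : X.V) : Ω) * X.w ^ (i + 1)) * ((β b) ^ X.p)⁻¹ := by
            have e2 : (β a) ^ X.p - (β b) ^ X.p = ((l a - l b : X.V) : Ω) * X.w ^ (i + 1) := by
              push_cast
              linear_combination la - lb
            rw [← e2, mul_pow, inv_pow]
            field_simp
          rw [e1, map_mul, map_inv₀, h6, inv_one, mul_one, map_mul, map_pow]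
          have h8 : X.V.valuation X.w ^ (i + 1) ≠ 0 := pow_ne_zero _ ((Valuation.ne_zero_iff _).2 h.w0)
          exact mul_lt_of_lt_one_left (zero_lt_iff.2 h8) h5)
    refine ⟨h1.1, h1.2.trans ?_⟩
    refine (Multiset.toFinset_card_le _).trans ?_
    rw [← hPd]
    exact Polynomial.card_roots' P

/-- Chunk FS (M). PROOF. k = the largest integer with k (p-1) < e p (k = (e p - 1) / (p - 1)). For i < k: (i+1)(p-1) < e p, tf_step. rel_chain and prod_count: (TF k).relIndex (TF 0) ≤ q^e, not 0. TF k ≤ TI: a in TF k has a generator with V(β^p - 1) ≤ V(w)^(k+1), (k+1)(p-1) ≥ e p, kg_inert.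
So TI.relIndex TS ≤ (TF k).relIndex TS, not 0 (AddSubgroup.relIndex_dvd_of_le_left, relIndex_ne_zero...), tf_zero. -/
theorem ti_index (X : Frm F Ω) (h : X.Ok) : X.TI.relIndex X.TS ≠ 0 ∧ X.TI.relIndex X.TS ≤ X.q ^ X.e := by
  have hp2 := h.odd
  have he := h.e0
  have hep : 0 < X.e * X.p := Nat.mul_pos he (by omega)
  obtain ⟨k, hk⟩ : ∃ k : ℕ, k = (X.e * X.p - 1) / (X.p - 1) := ⟨_, rfl⟩
  have hk1 : k * (X.p - 1) < X.e * X.p := by
    have h1 := Nat.div_mul_le_self (X.e * X.p - 1) (X.p - 1)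
    rw [← hk] at h1
    omega
  have hk2 : X.e * X.p ≤ (k + 1) * (X.p - 1) := by
    have h1 := Nat.lt_mul_div_succ (X.e * X.p - 1) (show 0 < X.p - 1 by omega)
    rw [← hk, mul_comm (X.p - 1)] at h1
    omega
  have h1 := rel_chain (TF X h) (tf_anti X h) (fun i => if X.p ∣ i + 1 then 1 else X.q) k (fun i hi =>
    tf_step X h i ((Nat.mul_le_mul_right _ (Nat.succ_le_of_lt hi)).trans_lt hk1))
  rw [tf_zero X h, prod_count hp2 he hk1 hk2] at h1
  have h2 : TF X h k ≤ X.TI := by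
    intro a ha
    obtain ⟨ta, β, hβ, hβ'⟩ := ha
    exact ⟨ta, fun t ht hi => kg_inert X h hβ hk2 hβ' t ht hi⟩
  have h3 : X.TI.relIndex X.TS ∣ (TF X h k).relIndex X.TS := AddSubgroup.relIndex_dvd_of_le_left X.TS h2
  exact ⟨fun h0 => h1.1 (Nat.eq_zero_of_zero_dvd (h0 ▸ h3)), (Nat.le_of_dvd (Nat.pos_of_ne_zero h1.1) h3).trans h1.2⟩

end H19B
end

-- from Lib.H19B.L4
section

/-! # H19B, chunk L4 (M/L): reduction is a homomorphism on a subgroup which meets the kernel of reduction trivially -/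

open NumberField IsDedekindDomain WeierstrassCurve

namespace H19B

open H55P

section L4

variable {k : Type} [Field k] [DecidableEq k] {W : WeierstrassCurve k} {V : ValuationSubring k}
  (H : AddSubgroup W.toAffine.Point) (hH : ∀ T ∈ H, H35P.Ker V T → T = 0)

include hH in
theorem l4_inj0 (hG : H35P.GoodW W V) (P Q : W.toAffine.Point) (hP : P ∈ H)
    (hQ : Q ∈ H) (h : H35P.Cong V P Q) : P = Q :=
  sub_eq_zero.mp (hH _ (H.sub_mem hP hQ) (H35P.rd hG P Q h))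

include hH in
theorem l4_mem {x₁ y₁ : k} (hG : H35P.GoodW W V) (h₁ : W.toAffine.Nonsingular x₁ y₁)
    (hP : (Affine.Point.some x₁ y₁ h₁ : W.toAffine.Point) ∈ H) : x₁ ∈ V ∧ y₁ ∈ V := by
  have hx : x₁ ∈ V := by
    by_contra hx
    refine Affine.Point.some_ne_zero h₁ (hH _ hP ?_)
    show 1 < V.valuation x₁
    rw [← not_le, V.valuation_le_one_iff]
    exact hx
  exact ⟨hx, (V.valuation_le_one_iff y₁).1
    (H35P.int_y hG.toIntW h₁.1 ((V.valuation_le_one_iff x₁).2 hx))⟩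

include hH in
theorem l4_slope_int (hG : H35P.GoodW W V) {x₁ y₁ x₂ y₂ : k} (h₁ : W.toAffine.Nonsingular x₁ y₁)
    (h₂ : W.toAffine.Nonsingular x₂ y₂) 
    (hP : (Affine.Point.some x₁ y₁ h₁ : W.toAffine.Point) ∈ H)
    (hQ : (Affine.Point.some x₂ y₂ h₂ : W.toAffine.Point) ∈ H)
    (hxy : ¬(x₁ = x₂ ∧ y₁ = W.toAffine.negY x₂ y₂)) :
    V.valuation (W.toAffine.slope x₁ x₂ y₁ y₂) ≤ 1 := by
  obtain ⟨hx1, hy1⟩ := l4_mem H hH hG h₁ hP
  obtain ⟨hx2, hy2⟩ := l4_mem H hH hG h₂ hQ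
  have ha1 := hG.a1
  have ha2 := hG.a2
  have ha3 := hG.a3
  have ha4 := hG.a4
  have hneg : ∀ x y : k, x ∈ V → y ∈ V → W.toAffine.negY x y ∈ V := fun x y hx hy => by
    rw [Affine.negY]
    exact sub_mem (sub_mem (neg_mem hy) (mul_mem ha1 hx)) ha3
  have hQn : (-(Affine.Point.some x₂ y₂ h₂) : W.toAffine.Point) ∈ H := H.neg_mem hQ
  by_cases hx : x₁ = x₂
  · have hy : y₁ ≠ W.toAffine.negY x₂ y₂ := fun h => hxy ⟨hx, h⟩
    have hyy : y₁ = y₂ := Affine.Y_eq_of_Y_ne h₁.1 h₂.1 hx hy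
    rw [Affine.slope_of_Y_ne hx hy]
    subst hx
    subst hyy
    have hd : V.valuation (y₁ - W.toAffine.negY x₁ y₁) = 1 := by
      refine le_antisymm ((V.valuation_le_one_iff _).mpr (sub_mem hy1 (hneg _ _ hx1 hy1))) ?_
      by_contra hlt
      push Not at hlt
      have hc : H35P.Cong V (Affine.Point.some x₁ y₁ h₁ : W.toAffine.Point)
          (-(Affine.Point.some x₁ y₁ h₂)) := by
        refine ⟨x₁, y₁, h₁, x₁, W.toAffine.negY x₁ y₁, (Affine.nonsingular_neg ..).mpr h₂, rfl, ?_,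
          hx1, hy1, hx1, hneg _ _ hx1 hy1, ?_, hlt⟩
        · exact Affine.Point.neg_some h₂
        · rw [sub_self, map_zero]
          exact zero_lt_one
      have he := l4_inj0 H hH hG _ _ hP hQn hc
      rw [Affine.Point.neg_some] at he
      simp only [Affine.Point.some.injEq] at he
      exact hy he.2
    rw [map_div₀, hd, div_one]
    refine (V.valuation_le_one_iff _).mpr ?_
    have h3 : (3 : k) ∈ V := by exact_mod_cast natCast_mem V 3
    have h2 : (2 : k) ∈ V := by exact_mod_cast natCast_mem V 2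
    exact sub_mem (add_mem (add_mem (mul_mem h3 (pow_mem hx1 2)) (mul_mem (mul_mem h2 ha2) hx1)) ha4)
      (mul_mem ha1 hy1)
  · rw [Affine.slope_of_X_ne hx]
    have hd : V.valuation (x₁ - x₂) = 1 := by
      refine le_antisymm ((V.valuation_le_one_iff _).mpr (sub_mem hx1 hx2)) ?_
      by_contra hlt
      push Not at hlt
      have e1 := (Affine.equation_iff _ _).mp h₁.1
      have e2 := (Affine.equation_iff _ _).mp h₂.1
      have hid : (y₁ - W.toAffine.negY x₂ y₂) * (y₁ - y₂) =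
          (x₁ - x₂) * (x₁ ^ 2 + x₁ * x₂ + x₂ ^ 2 + W.a₂ * (x₁ + x₂) + W.a₄ - W.a₁ * y₁) := by
        rw [Affine.negY]
        linear_combination e1 - e2
      have hmem : x₁ ^ 2 + x₁ * x₂ + x₂ ^ 2 + W.a₂ * (x₁ + x₂) + W.a₄ - W.a₁ * y₁ ∈ V :=
        sub_mem (add_mem (add_mem (add_mem (add_mem (pow_mem hx1 2) (mul_mem hx1 hx2)) (pow_mem hx2 2))
          (mul_mem ha2 (add_mem hx1 hx2))) ha4) (mul_mem ha1 hy1)
      have hv : V.valuation (y₁ - W.toAffine.negY x₂ y₂) * V.valuation (y₁ - y₂) < 1 := by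
        rw [← map_mul, hid, map_mul]
        exact mul_lt_one_of_lt_of_le hlt ((V.valuation_le_one_iff _).mpr hmem)
      have hor : V.valuation (y₁ - W.toAffine.negY x₂ y₂) < 1 ∨ V.valuation (y₁ - y₂) < 1 := by
        by_contra hc
        push Not at hc
        exact absurd hv (not_lt.mpr (one_le_mul hc.1 hc.2))
      rcases hor with h | h
      · have hc : H35P.Cong V (Affine.Point.some x₁ y₁ h₁ : W.toAffine.Point)
            (-(Affine.Point.some x₂ y₂ h₂)) :=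
          ⟨x₁, y₁, h₁, x₂, W.toAffine.negY x₂ y₂, (Affine.nonsingular_neg ..).mpr h₂, rfl,
            Affine.Point.neg_some h₂, hx1, hy1, hx2, hneg _ _ hx2 hy2, hlt, h⟩
        have he := l4_inj0 H hH hG _ _ hP hQn hc
        rw [Affine.Point.neg_some] at he
        simp only [Affine.Point.some.injEq] at he
        exact hx he.1
      · have hc : H35P.Cong V (Affine.Point.some x₁ y₁ h₁ : W.toAffine.Point)
            (Affine.Point.some x₂ y₂ h₂) :=
          ⟨x₁, y₁, h₁, x₂, y₂, h₂, rfl, rfl, hx1, hy1, hx2, hy2, hlt, h⟩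
        have he := l4_inj0 H hH hG _ _ hP hQ hc
        simp only [Affine.Point.some.injEq] at he
        exact hx he.1
    rw [map_div₀, hd, div_one]
    exact (V.valuation_le_one_iff _).mpr (sub_mem hy1 hy2)

variable {κ : Type} [Field κ] (r : V →+* κ) (hr : ∀ x : V, r x = 0 ↔ V.valuation (x : k) < 1)

include hr hH in
/-- Points of H with equal reduction are equal. -/
theorem l4_inj (hG : H35P.GoodW W V) (X₁ Y₁ X₂ Y₂ : V)
    (h₁ : W.toAffine.Nonsingular (X₁ : k) (Y₁ : k)) (h₂ : W.toAffine.Nonsingular (X₂ : k) (Y₂ : k))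
    (hP : (Affine.Point.some _ _ h₁ : W.toAffine.Point) ∈ H)
    (hQ : (Affine.Point.some _ _ h₂ : W.toAffine.Point) ∈ H)
    (hX : r X₁ = r X₂) (hY : r Y₁ = r Y₂) : X₁ = X₂ ∧ Y₁ = Y₂ := by
  have h := l4_inj0 H hH hG _ _ hP hQ ⟨X₁, Y₁, h₁, X₂, Y₂, h₂, rfl, rfl, X₁.2, Y₁.2, X₂.2, Y₂.2,
    (s8_eq_iff r hr X₁ X₂).1 hX, (s8_eq_iff r hr Y₁ Y₂).1 hY⟩
  simp only [Affine.Point.some.injEq] at h
  exact ⟨Subtype.ext h.1, Subtype.ext h.2⟩

include hr hH in
/-- Points of H with opposite reduction are opposite. -/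
theorem l4_inj' (hG : H35P.GoodW W V) (X₁ Y₁ X₂ Y₂ : V)
    (h₁ : W.toAffine.Nonsingular (X₁ : k) (Y₁ : k)) (h₂ : W.toAffine.Nonsingular (X₂ : k) (Y₂ : k))
    (hP : (Affine.Point.some _ _ h₁ : W.toAffine.Point) ∈ H)
    (hQ : (Affine.Point.some _ _ h₂ : W.toAffine.Point) ∈ H)
    (hX : r X₁ = r X₂) (hY : r Y₁ = ((s8_WV hG.toIntW).map r).toAffine.negY (r X₂) (r Y₂)) :
    (X₁ : k) = X₂ ∧ (Y₁ : k) = W.toAffine.negY (X₂ : k) (Y₂ : k) := by
  have h3 : W.toAffine.Nonsingular (X₂ : k) (((s8_WV hG.toIntW).toAffine.negY X₂ Y₂ : V) : k) := by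
    rw [← s8_negY]
    exact (Affine.nonsingular_neg ..).2 h₂
  have hQ' : (Affine.Point.some _ _ h3 : W.toAffine.Point) ∈ H := by
    have e : (Affine.Point.some _ _ h3 : W.toAffine.Point) = -Affine.Point.some _ _ h₂ := by
      rw [Affine.Point.neg_some]
      exact s8_some_congr rfl (s8_negY hG.toIntW X₂ Y₂).symm
    rw [e]
    exact H.neg_mem hQ
  have hY' : r Y₁ = r ((s8_WV hG.toIntW).toAffine.negY X₂ Y₂) := by
    rw [hY]
    exact Affine.map_negY (W' := (s8_WV hG.toIntW).toAffine) r X₂ Y₂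
  obtain ⟨e1, e2⟩ := l4_inj H hH r hr hG X₁ Y₁ X₂ _ h₁ h3 hP hQ' hX hY'
  rw [s8_negY hG.toIntW]
  exact ⟨congrArg _ e1, congrArg _ e2⟩

variable [DecidableEq κ]

include hr hH in
/-- The slope is compatible with the reduction. -/
theorem l4_slope (hG : H35P.GoodW W V) (X₁ Y₁ X₂ Y₂ : V)
    (h₁ : W.toAffine.Nonsingular (X₁ : k) (Y₁ : k)) (h₂ : W.toAffine.Nonsingular (X₂ : k) (Y₂ : k))
    (hP : (Affine.Point.some _ _ h₁ : W.toAffine.Point) ∈ H)
    (hQ : (Affine.Point.some _ _ h₂ : W.toAffine.Point) ∈ H)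
    (hc : ¬((X₁ : k) = X₂ ∧ (Y₁ : k) = W.toAffine.negY (X₂ : k) (Y₂ : k))) :
    ∃ l : V, W.toAffine.slope (X₁ : k) X₂ Y₁ Y₂ = l ∧
      ((s8_WV hG.toIntW).map r).toAffine.slope (r X₁) (r X₂) (r Y₁) (r Y₂) = r l := by
  have hl := l4_slope_int H hH hG h₁ h₂ hP hQ hc
  rw [V.valuation_le_one_iff] at hl
  refine ⟨⟨_, hl⟩, rfl, ?_⟩
  have hc' : ¬(r X₁ = r X₂ ∧ r Y₁ = ((s8_WV hG.toIntW).map r).toAffine.negY (r X₂) (r Y₂)) :=
    fun h => hc (l4_inj' H hH r hr hG X₁ Y₁ X₂ Y₂ h₁ h₂ hP hQ h.1 h.2)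
  by_cases hx : r X₁ = r X₂
  · have hy := fun h => hc' ⟨hx, h⟩
    have hyy : r Y₁ = r Y₂ :=
      Affine.Y_eq_of_Y_ne (s8_ns r hr hG X₁ Y₁ h₁).1 (s8_ns r hr hG X₂ Y₂ h₂).1 hx hy
    obtain ⟨rfl, rfl⟩ := l4_inj H hH r hr hG X₁ Y₁ X₂ Y₂ h₁ h₂ hP hQ hx hyy
    have hyk : (Y₁ : k) ≠ W.toAffine.negY (X₁ : k) (Y₁ : k) := fun h => hc ⟨rfl, h⟩
    rw [Affine.slope_of_Y_ne rfl hy, div_eq_iff (sub_ne_zero.2 hy)]
    have e1 : (⟨W.toAffine.slope (X₁ : k) X₁ Y₁ Y₁, hl⟩ : V) *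
        (Y₁ - (s8_WV hG.toIntW).toAffine.negY X₁ Y₁) =
        3 * X₁ ^ 2 + 2 * (s8_WV hG.toIntW).a₂ * X₁ + (s8_WV hG.toIntW).a₄ -
          (s8_WV hG.toIntW).a₁ * Y₁ := by
      apply Subtype.ext
      have e2 := s8_negY hG.toIntW X₁ Y₁
      show W.toAffine.slope (X₁ : k) X₁ Y₁ Y₁ * ((Y₁ : k) -
        (((s8_WV hG.toIntW).toAffine.negY X₁ Y₁ : V) : k)) =
        3 * (X₁ : k) ^ 2 + 2 * W.a₂ * X₁ + W.a₄ - W.a₁ * Y₁
      rw [← e2, Affine.slope_of_Y_ne rfl hyk, div_mul_cancel₀ _ (sub_ne_zero.2 hyk)]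
    have e3 := congrArg r e1
    rw [map_mul, map_sub, ← Affine.map_negY] at e3
    rw [e3, map_sub, map_add, map_add, map_mul, map_mul, map_mul, map_mul, map_pow, map_ofNat,
      map_ofNat]
    rfl
  · have hxk : (X₁ : k) ≠ X₂ := fun h => hx (congrArg r (Subtype.ext h))
    rw [Affine.slope_of_X_ne hx, div_eq_iff (sub_ne_zero.2 hx)]
    have e1 : (⟨W.toAffine.slope (X₁ : k) X₂ Y₁ Y₂, hl⟩ : V) * (X₁ - X₂) = Y₁ - Y₂ := by
      apply Subtype.ext
      show W.toAffine.slope (X₁ : k) X₂ Y₁ Y₂ * ((X₁ : k) - X₂) = (Y₁ : k) - Y₂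
      rw [Affine.slope_of_X_ne hxk, div_mul_cancel₀ _ (sub_ne_zero.2 hxk)]
    have e3 := congrArg r e1
    rw [map_mul, map_sub, map_sub] at e3
    exact e3.symm

include hH in
/-- Additivity. -/
theorem l4_add (hG : H35P.GoodW W V) (P Q : W.toAffine.Point)
    (hP : P ∈ H) (hQ : Q ∈ H) :
    s8_f r hr hG (P + Q) = s8_f r hr hG P + s8_f r hr hG Q := by
  rcases P with _ | ⟨x₁, y₁, h₁⟩
  · show s8_f r hr hG (0 + Q) = 0 + s8_f r hr hG Q
    rw [zero_add, zero_add]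
  rcases Q with _ | ⟨x₂, y₂, h₂⟩
  · show s8_f r hr hG (_ + 0) = s8_f r hr hG _ + 0
    rw [add_zero, add_zero]
  obtain ⟨hx1, hy1⟩ := l4_mem H hH hG h₁ hP
  obtain ⟨hx2, hy2⟩ := l4_mem H hH hG h₂ hQ
  lift x₁ to V using hx1
  lift y₁ to V using hy1
  lift x₂ to V using hx2
  lift y₂ to V using hy2
  rw [s8_f_some, s8_f_some]
  by_cases hc : (x₁ : k) = x₂ ∧ (y₁ : k) = W.toAffine.negY (x₂ : k) (y₂ : k)
  · rw [Affine.Point.add_of_Y_eq hc.1 hc.2, s8_f_zero, Affine.Point.add_of_Y_eq]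
    · exact congrArg r (Subtype.ext hc.1)
    · have e := hc.2
      rw [s8_negY hG.toIntW] at e
      rw [Subtype.ext e]
      exact (Affine.map_negY (W' := (s8_WV hG.toIntW).toAffine) r x₂ y₂).symm
  · have hc' : ¬(r x₁ = r x₂ ∧ r y₁ = ((s8_WV hG.toIntW).map r).toAffine.negY (r x₂) (r y₂)) :=
      fun h => hc (l4_inj' H hH r hr hG x₁ y₁ x₂ y₂ h₁ h₂ hP hQ h.1 h.2)
    obtain ⟨l, hl, hl'⟩ := l4_slope H hH r hr hG x₁ y₁ x₂ y₂ h₁ h₂ hP hQ hc
    rw [Affine.Point.add_some hc, Affine.Point.add_some hc']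
    have hns : W.toAffine.Nonsingular (((s8_WV hG.toIntW).toAffine.addX x₁ x₂ l : V) : k)
        (((s8_WV hG.toIntW).toAffine.addY x₁ x₂ y₁ l : V) : k) := by
      rw [← s8_addX, ← s8_addY, ← hl]
      exact Affine.nonsingular_add h₁ h₂ hc
    have e : (Affine.Point.some _ _ (Affine.nonsingular_add h₁ h₂ hc) : W.toAffine.Point) =
        Affine.Point.some _ _ hns := by
      refine s8_some_congr ?_ ?_
      · rw [hl, s8_addX hG.toIntW]
      · rw [hl, s8_addY hG.toIntW]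
    rw [e, s8_f_some]
    refine s8_some_congr ?_ ?_
    · rw [hl']
      exact (Affine.map_addX (W' := (s8_WV hG.toIntW).toAffine) r x₁ x₂ l).symm
    · rw [hl']
      exact (Affine.map_addY (W' := (s8_WV hG.toIntW).toAffine) r x₁ y₁ x₂ l).symm

end L4

/-- Chunk L4 (M/L). PROOF. PORT of H55P.exists_red (Lib/H55P/S8.lean: s8_inj, s8_inj', s8_slope, s8_add, exists_red) and H35P.slope_int (Lib/H35P/SL.lean): replace the group of the points killed by n, V(n) = 1, by the subgroup H. The only facts used about n-torsion are (a) nonzero points have integral coordinates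
(H35P.SL_mem): here a nonzero point of H is not in Ker V, so V(x) ≤ 1 and V(y) ≤ 1 (H35P.int_y); (b) congruent points are equal (H35P.inj): here P - Q in Ker V by H35P.rd and P - Q in H, so P = Q. The definitions s8_WV, s8_f, s8_ns, s8_map, s8_negY, s8_addX, s8_addY, s8_f_some, s8_eq_iff can be used as they are. -/
theorem exists_redH {k : Type} [Field k] [DecidableEq k] {W : WeierstrassCurve k} {V : ValuationSubring k}
    (hG : H35P.GoodW W V) {κ : Type} [Field κ] [DecidableEq κ] (r : V →+* κ)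
    (hr : ∀ x : V, r x = 0 ↔ V.valuation (x : k) < 1) (W' : WeierstrassCurve κ)
    (h1 : r ⟨W.a₁, hG.a1⟩ = W'.a₁) (h2 : r ⟨W.a₂, hG.a2⟩ = W'.a₂) (h3 : r ⟨W.a₃, hG.a3⟩ = W'.a₃)
    (h4 : r ⟨W.a₄, hG.a4⟩ = W'.a₄) (h6 : r ⟨W.a₆, hG.a6⟩ = W'.a₆) (H : AddSubgroup W.toAffine.Point)
    (hH : ∀ T ∈ H, H35P.Ker V T → T = 0) :
    ∃ f : H →+ W'.toAffine.Point,
      (∀ T, f T = 0 → T = 0) ∧
      ∀ (x y : k) (h : W.toAffine.Nonsingular x y)
        (hT : (Affine.Point.some x y h : W.toAffine.Point) ∈ H) (hx : x ∈ V) (hy : y ∈ V),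
        ∃ h' : W'.toAffine.Nonsingular (r ⟨x, hx⟩) (r ⟨y, hy⟩),
          f ⟨Affine.Point.some x y h, hT⟩ = Affine.Point.some _ _ h' := by
  have hW' : W' = (s8_WV hG.toIntW).map r :=
    WeierstrassCurve.ext h1.symm h2.symm h3.symm h4.symm h6.symm
  subst hW'
  refine ⟨{ toFun := fun T => s8_f r hr hG T.1
            map_zero' := rfl
            map_add' := fun P Q => l4_add H hH r hr hG P.1 Q.1 P.2 Q.2 }, ?_, ?_⟩
  · rintro ⟨T, hT⟩ h0
    apply Subtype.ext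
    rcases T with _ | ⟨x, y, h⟩
    · rfl
    · exfalso
      obtain ⟨hx, hy⟩ := l4_mem H hH hG h hT
      have h5 : s8_f r hr hG (.some x y h) = 0 := h0
      have h7 : s8_f r hr hG (.some x y h) = .some (r ⟨x, hx⟩) (r ⟨y, hy⟩)
          (s8_ns r hr hG ⟨x, hx⟩ ⟨y, hy⟩ h) := s8_f_some r hr hG ⟨x, hx⟩ ⟨y, hy⟩ h
      rw [h7] at h5
      exact Affine.Point.some_ne_zero _ h5
  · intro x y h hT hx hy
    exact ⟨s8_ns r hr hG ⟨x, hx⟩ ⟨y, hy⟩ h, s8_f_some r hr hG ⟨x, hx⟩ ⟨y, hy⟩ h⟩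

end H19B
end

-- from Lib.H19B.L5
section

/-! # H19B, chunk L5 (M): a point fixed by the decomposition group outside the kernel of reduction gives a point of the reduced curve -/

open NumberField IsDedekindDomain WeierstrassCurve

namespace H19B

open H55P

variable {F : Type} [Field F] [NumberField F] {Ω : Type} [Field Ω] [DecidableEq Ω] [Algebra F Ω]
  [IsAlgClosed Ω] [Algebra.IsAlgebraic F Ω] [CharZero Ω]

/-- Chunk L5 (M). PROOF. PORT of H55P.fix_local (Lib/H55P/S10.lean): with exists_redH for H = AddSubgroup.zmultiples T instead of exists_red. hK: an element z • T of H in Ker V is 0 (for negative z use Ker V (-P) iff Ker V P: H35P.ker_neg). The coordinates of T are in V: T is not in Ker V (else T = 0), H35P.int_y. -/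
theorem fix_etale (W₀ : WeierstrassCurve (𝓞 F)) (p : ℕ) (hp : p.Prime) (M : IntermediateField F Ω)
    [FiniteDimensional F M] (V : ValuationSubring Ω) (v : HeightOneSpectrum (𝓞 M))
    (hv : Below V M v.asIdeal) (hΔ : algebraMap (𝓞 F) (𝓞 M) W₀.Δ ∉ v.asIdeal)
    (hc : ¬ p ∣ Nat.card (W₀⁄(𝓞 M ⧸ v.asIdeal)).toAffine.Point)
    (T : Pt (W₀⁄F) Ω) (hT : p • T = 0) (hK : ∀ n : ℕ, H35P.Ker V (n • T) → n • T = 0)
    (hf : ∀ s ∈ M.fixingSubgroup, Dec V s → ac (W₀⁄F) s T = T) : T = 0 := by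
  classical
  by_contra hT0
  have hG := good_below W₀ M V v hv hΔ
  have hnf : NumberField M := H16C.FR_numberField M
  have hmax : v.asIdeal.IsMaximal := v.isMaximal
  let _ : Field (𝓞 M ⧸ v.asIdeal) := Ideal.Quotient.field v.asIdeal
  obtain ⟨r, hr⟩ : ∃ r : V →+* IsLocalRing.ResidueField V, r = IsLocalRing.residue V := ⟨_, rfl⟩
  have hr0 : ∀ x : V, r x = 0 ↔ V.valuation (x : Ω) < 1 := by
    intro x
    rw [hr, IsLocalRing.residue_eq_zero_iff]
    exact V.valuation_lt_one_iff x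
  obtain ⟨φ, hφ⟩ : ∃ φ : 𝓞 M →+* V, ∀ z, ((φ z : V) : Ω) = ((z : M) : Ω) :=
    ⟨((algebraMap M Ω).comp (algebraMap (𝓞 M) M)).codRestrict V.toSubring (S10_mem M V),
      fun z => rfl⟩
  have hker : ∀ z ∈ v.asIdeal, (r.comp φ) z = 0 := by
    intro z hz
    rw [RingHom.comp_apply, hr0, hφ]
    exact (hv z).1 hz
  obtain ⟨ι, hι⟩ : ∃ ι : (𝓞 M ⧸ v.asIdeal) →+* IsLocalRing.ResidueField V,
      ∀ z, ι (Ideal.Quotient.mk v.asIdeal z) = r (φ z) :=
    ⟨Ideal.Quotient.lift v.asIdeal (r.comp φ) hker, fun z => Ideal.Quotient.lift_mk _ _ _⟩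
  let algκ : Algebra (𝓞 F) (IsLocalRing.ResidueField V) :=
    (ι.comp (algebraMap (𝓞 F) (𝓞 M ⧸ v.asIdeal))).toAlgebra
  let ιA : (𝓞 M ⧸ v.asIdeal) →ₐ[𝓞 F] IsLocalRing.ResidueField V :=
    { ι with commutes' := fun z => rfl }
  have hcoef : ∀ (z : 𝓞 F) (h : algebraMap F Ω (algebraMap (𝓞 F) F z) ∈ V),
      r ⟨algebraMap F Ω (algebraMap (𝓞 F) F z), h⟩ =
        algebraMap (𝓞 F) (IsLocalRing.ResidueField V) z := by
    intro z h
    have e1 : algebraMap (𝓞 F) (IsLocalRing.ResidueField V) z =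
        ι (Ideal.Quotient.mk v.asIdeal (algebraMap (𝓞 F) (𝓞 M) z)) := rfl
    rw [e1, hι]
    congr 1
    apply Subtype.ext
    rw [hφ]
    rfl
  have hH : ∀ P ∈ AddSubgroup.zmultiples T, H35P.Ker V P → P = 0 := by
    intro P hP hPK
    obtain ⟨z, rfl⟩ := AddSubgroup.mem_zmultiples_iff.1 hP
    rcases Int.eq_nat_or_neg z with ⟨n, rfl | rfl⟩
    · rw [natCast_zsmul] at hPK ⊢
      exact hK n hPK
    · rw [neg_smul, natCast_zsmul] at hPK ⊢
      rw [H35P.ker_neg] at hPK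
      rw [hK n hPK, neg_zero]
  have hTH : T ∈ AddSubgroup.zmultiples T := AddSubgroup.mem_zmultiples T
  obtain ⟨f, hf0, hfs⟩ := exists_redH hG r hr0 (W₀⁄(IsLocalRing.ResidueField V))
    (hcoef W₀.a₁ _) (hcoef W₀.a₂ _) (hcoef W₀.a₃ _) (hcoef W₀.a₄ _) (hcoef W₀.a₆ _) (AddSubgroup.zmultiples T) hH
  rcases T with _ | ⟨x, y, h⟩
  · exact hT0 rfl
  have hxV : V.valuation x ≤ 1 := by
    by_contra hc
    refine hT0 (hH _ hTH ?_)
    show 1 < V.valuation x
    exact not_le.1 hc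
  have hx : x ∈ V := (V.valuation_le_one_iff x).1 hxV
  have hy : y ∈ V := (V.valuation_le_one_iff y).1 (H35P.int_y hG.toIntW h.1 hxV)
  have hfix : ∀ s ∈ M.fixingSubgroup, Dec V s → s x = x ∧ s y = y := by
    intro s hs hd
    have h1 := hf s hs hd
    have h2 : ac (W₀⁄F) s (Affine.Point.some x y h) = Affine.Point.some (s x) (s y)
        ((Affine.baseChange_nonsingular (W := (W₀⁄F).toAffine) (f := s.toAlgHom)
          s.toAlgHom.injective ..).2 h) := rfl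
    rw [h2] at h1
    injection h1 with h3 h4
    exact ⟨h3, h4⟩
  obtain ⟨a, ha⟩ := res_descent M V v hv x hx fun s hs hd => (hfix s hs hd).1
  obtain ⟨b, hb⟩ := res_descent M V v hv y hy fun s hs hd => (hfix s hs hd).2
  have hra : r ⟨x, hx⟩ = ι (Ideal.Quotient.mk v.asIdeal a) := by
    rw [hι, ← sub_eq_zero, ← map_sub, hr0]
    have e1 : ((⟨x, hx⟩ - φ a : V) : Ω) = x - ((a : M) : Ω) := by
      rw [← hφ]
      rfl
    rw [e1]
    exact ha
  have hrb : r ⟨y, hy⟩ = ι (Ideal.Quotient.mk v.asIdeal b) := by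
    rw [hι, ← sub_eq_zero, ← map_sub, hr0]
    have e1 : ((⟨y, hy⟩ - φ b : V) : Ω) = y - ((b : M) : Ω) := by
      rw [← hφ]
      rfl
    rw [e1]
    exact hb
  obtain ⟨h', hfT⟩ := hfs x y h hTH hx hy
  have hns : (W₀⁄(𝓞 M ⧸ v.asIdeal)).toAffine.Nonsingular (Ideal.Quotient.mk v.asIdeal a)
      (Ideal.Quotient.mk v.asIdeal b) := by
    have h3 := h'
    rw [hra, hrb] at h3
    exact (Affine.baseChange_nonsingular (W := W₀.toAffine) (f := ιA) ι.injective _ _).1 h3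
  have hmap : Affine.Point.map (W' := W₀.toAffine) ιA (Affine.Point.some _ _ hns) =
      f ⟨Affine.Point.some x y h, hTH⟩ := by
    rw [hfT]
    exact s8_some_congr hra.symm hrb.symm
  have hp0 : p • (Affine.Point.some _ _ hns : (W₀⁄(𝓞 M ⧸ v.asIdeal)).toAffine.Point) = 0 := by
    apply Affine.Point.map_injective (W' := W₀.toAffine) (f := ιA)
    rw [map_nsmul, hmap, ← map_nsmul, map_zero]
    have e2 : (p • (⟨Affine.Point.some x y h, hTH⟩ :
        (AddSubgroup.zmultiples (Affine.Point.some x y h : Pt (W₀⁄F) Ω)))) = 0 := Subtype.ext hT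
    rw [e2, map_zero]
  have hord : addOrderOf (Affine.Point.some _ _ hns : (W₀⁄(𝓞 M ⧸ v.asIdeal)).toAffine.Point) = p :=
    addOrderOf_eq_prime hp0 (Affine.Point.some_ne_zero _) (hp := ⟨hp⟩)
  apply hc
  rw [← hord]
  exact addOrderOf_dvd_natCard _

end H19B
end

-- from Lib.H19B.L7
section

/-! # H19B, chunk L7 (S/M): the vanishing of the Selmer group implies that there is no p-torsion -/

open NumberField IsDedekindDomain WeierstrassCurve

namespace H19B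

open H55P

variable {F : Type} [Field F] [NumberField F] {Ω : Type} [Field Ω] [DecidableEq Ω] [Algebra F Ω]
  [IsAlgClosed Ω] [Algebra.IsAlgebraic F Ω] [CharZero Ω]

/-- Chunk L7 (S/M). PROOF. H55P.pts_fin: E(K) is finite of order prime to p. T = 0 or T = (x, y) with x, y fixed by K.fixingSubgroup, so x, y in K (fixed field of the fixing subgroup of K: Ω/F Galois or InfiniteGalois.fixedField_fixingSubgroup; see the proof of pts_fin or H55P.tors_of_prime for the descent of a point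
to K: Affine.Point.map of a point of E(K)), so T is the image of a point T' of E(K) with p T' = 0 (the map is injective), T' = 0 (addOrderOf divides p and the order of the group). -/
theorem tors_of_sel (W : WeierstrassCurve F) [W.IsElliptic] (p : ℕ) (hp : p.Prime) (K : IntermediateField F Ω)
    [FiniteDimensional F K] (hS : SelZero W p K) (T : Pt W Ω) (hT : p • T = 0) (hf : ∀ s ∈ K.fixingSubgroup, ac W s T = T) : T = 0 := by
  classical
  obtain ⟨T', hT'⟩ := (fix_iff W K T).1 hf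
  obtain ⟨hfin, hcard⟩ := pts_fin W p hp K hS
  have hinj : Function.Injective (Affine.Point.map (W' := W.toAffine) K.val) :=
    Affine.Point.map_injective _
  have h1 : p • T' = 0 := by
    refine hinj ?_
    rw [map_nsmul, hT', hT, map_zero]
  have h2 : addOrderOf T' ∣ p := addOrderOf_dvd_of_nsmul_eq_zero h1
  have h3 : addOrderOf T' ∣ Nat.card (Pt W K) := addOrderOf_dvd_natCard T'
  rcases (Nat.dvd_prime hp).1 h2 with h | h
  · have h4 : T' = 0 := AddMonoid.addOrderOf_eq_one_iff.1 h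
    rw [← hT', h4, map_zero]
  · exact absurd (h ▸ h3) hcard

end H19B
end

-- from Lib.H35M.GS2
section

/-! # H35M, chunk GS2 (S/M): the product of the Gauss sums of the powers of a character of order p -/

namespace H35M

variable {R : Type} [CommRing R] [Fintype R]

theorem gs2_sq (χ : MulChar R ℂ) : (χ (-1)) ^ 2 = 1 := by
  rw [← map_pow]; simp

/-- Chunk GS2 (S/M). PROOF. The square of the product is the product of gaussSum (χ^(j+1)) ψ * gaussSum (χ^(p-1-j)) ψ over j (reflect one factor: Finset.prod_range_reflect, p - 1 - 1 - j + 1 = p - 1 - j), and χ^(p-1-j) = (χ^(j+1))⁻¹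
(χ^p = 1). gs_mul for χ^(j+1) (PrimM.pow). -/
theorem gs_prod {p : ℕ} (hp : p.Prime) {χ : MulChar R ℂ} (h1 : χ ^ p = 1) (hχ : PrimM χ) {ψ : AddChar R ℂ} (hψ : ψ.IsPrimitive) :
    (∏ j ∈ Finset.range (p - 1), gaussSum (χ ^ (j + 1)) ψ) ^ 2 =
      (∏ j ∈ Finset.range (p - 1), (χ ^ (j + 1)) (-1)) * (Fintype.card R : ℂ) ^ (p - 1) := by
  have hr : (∏ j ∈ Finset.range (p - 1), gaussSum (χ ^ (j + 1)) ψ) = ∏ j ∈ Finset.range (p - 1), gaussSum (χ ^ (p - 1 - 1 - j + 1)) ψ :=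
    (Finset.prod_range_reflect (fun j => gaussSum (χ ^ (j + 1)) ψ) (p - 1)).symm
  rw [sq]
  nth_rewrite 2 [hr]
  rw [← Finset.prod_mul_distrib]
  have h2 : (Fintype.card R : ℂ) ^ (p - 1) = ∏ j ∈ Finset.range (p - 1), (Fintype.card R : ℂ) := by simp
  rw [h2, ← Finset.prod_mul_distrib]
  refine Finset.prod_congr rfl fun j hj => ?_
  have hj' : j < p - 1 := Finset.mem_range.1 hj
  have h3 : p - 1 - 1 - j + 1 = p - (j + 1) := by omega
  have h4 : χ ^ (p - (j + 1)) = (χ ^ (j + 1))⁻¹ := by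
    refine eq_inv_of_mul_eq_one_left ?_
    rw [← pow_add, Nat.sub_add_cancel (by omega), h1]
  rw [h3, h4]
  exact gs_mul (hχ.pow hp h1 (by omega) (by omega)) hψ

/-- Chunk GS2b (S). The same for valuations: χ^(j+1)(-1) squares to 1, so its valuation is 1. -/
theorem gs_val {p : ℕ} (hp : p.Prime) {χ : MulChar R ℂ} (h1 : χ ^ p = 1) (hχ : PrimM χ) {ψ : AddChar R ℂ} (hψ : ψ.IsPrimitive)
    (V : ValuationSubring ℂ) : V.valuation (∏ j ∈ Finset.range (p - 1), gaussSum (χ ^ (j + 1)) ψ) ^ 2 =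
      V.valuation (Fintype.card R : ℂ) ^ (p - 1) := by
  rw [← map_pow, gs_prod hp h1 hχ hψ, map_mul, map_pow]
  have h5 : V.valuation (∏ j ∈ Finset.range (p - 1), (χ ^ (j + 1)) (-1)) = 1 := by
    rw [map_prod]
    refine Finset.prod_eq_one fun j _ => ?_
    have h6 : V.valuation ((χ ^ (j + 1)) (-1)) ^ 2 = 1 := by
      rw [← map_pow, gs2_sq, map_one]
    exact (pow_eq_one_iff.1 h6).resolve_right (by norm_num)
  rw [h5, one_mul]


end H35M
end
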