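import Mathlib
import Pool.Agent.Lib.H1M.PP2.M002
import Pool.Agent.Lib.H1M.PP2.M024

/-! Merged copies (to shorten the build) of Lib.H16D.C2A, Lib.SSR.R5, Lib.SSR.R6, Lib.SSR.R1, Lib.SSR.R2, Lib.SSR.R3, Lib.SSR.R4, Lib.SSR.R7, Lib.SSR.R8. -/

-- from Lib.H16D.C2A
section

/-! # H16D, chunk C2A: (S/M) a character on ideals on principal ideals -/

open NumberField IsDedekindDomain

namespace H16D

open CFT

variable {N : Type} [Field N] [NumberField N] {L : Type} [Field L] [NumberField L] [Algebra N L]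

theorem c2a_dv (v : Pr N) (y : 𝓞 N) : dv (y : N) v = od v (y : N) := dv_apply _ _

/-- PROOF. idl_dv (B04): idl (dv y) = span {y}, and idl D = D.prod (fun v n => v.asIdeal ^ n.toNat). So ρ (span {y}) = product over the support of dv y of ρ(v)^(od v y).toNat (map_finsuppProd / map_prod). For v in the support od v y ≠ 0, so od v y > 0
(od_nonneg, B01), y is in v (od_pos_iff, B01), f is not contained in v (hc: otherwise v contains span {y} ⊔ f = 1), v is not in S, ρ v = θ (frob v). On the other side dv y = sum over the support of single v (od v y) (Finsupp.sum_single), art S θ (single v n) = n • ofMul (θ (frob v))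
(art_single_of_notMem, D2), so art S θ (dv y) is ofMul of the product of the θ(frob v)^(od v y); zpow with a nonnegative exponent is pow with toNat. -/
theorem rh1 {f : Ideal (𝓞 N)} {ρ : Ideal (𝓞 N) →*₀ ℂ} (S : Finset (Pr N)) (hS : ∀ u : Pr N, f ≤ u.asIdeal ↔ u ∈ S) (θ : (L ≃ₐ[N] L) →* ℂˣ)
    (hρ : ∀ u : Pr N, ¬ f ≤ u.asIdeal → ρ u.asIdeal = θ (frob N L u)) (y : 𝓞 N) (hy : y ≠ 0) (hc : IsCoprime (Ideal.span {y}) f) :
    ρ (Ideal.span {y}) = ((Additive.toMul (art S θ (dv (y : N))) : ℂˣ) : ℂ) := by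
  rw [← idl_dv hy]
  have key : ∀ T : Finset (Pr N), (∀ v ∈ T, v ∈ (dv (y : N)).support) →
      ρ (∏ v ∈ T, v.asIdeal ^ (dv (y : N) v).toNat) =
        ((Additive.toMul (art S θ (∑ v ∈ T, Finsupp.single v (dv (y : N) v))) : ℂˣ) : ℂ) := by
    classical
    intro T
    induction T using Finset.induction_on with
    | empty =>
      intro _
      rw [Finset.prod_empty, Finset.sum_empty, map_one, map_zero]
      rfl
    | insert a T ha ih =>
      intro hT
      have h1 := ih (fun v hv => hT v (Finset.mem_insert_of_mem hv))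
      have h2 : a ∈ (dv (y : N)).support := hT a (Finset.mem_insert_self _ _)
      rw [Finset.prod_insert ha, Finset.sum_insert ha, map_mul, map_add, toMul_add, Units.val_mul, h1]
      congr 1
      have h3 : dv (y : N) a ≠ 0 := Finsupp.mem_support_iff.1 h2
      have h4 : dv (y : N) a = od a (y : N) := c2a_dv a y
      have h5 : 0 ≤ od a (y : N) := od_nonneg a y
      have h6 : 0 < od a (y : N) := lt_of_le_of_ne h5 (by rw [← h4]; exact h3.symm)
      have h7 : y ∈ a.asIdeal := (od_pos_iff a hy).1 h6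
      have h8 : ¬ f ≤ a.asIdeal := by
        intro h9
        have h10 : (1 : Ideal (𝓞 N)) ≤ a.asIdeal := by
          rw [Ideal.isCoprime_iff_sup_eq] at hc
          rw [Ideal.one_eq_top, ← hc]
          exact sup_le ((Ideal.span_singleton_le_iff_mem _).2 h7) h9
        rw [Ideal.one_eq_top, top_le_iff] at h10
        exact a.isPrime.ne_top h10
      have h11 : a ∉ S := fun h => h8 ((hS a).2 h)
      rw [art_single_of_notMem θ h11, map_pow, hρ a h8, h4, toMul_zsmul, toMul_ofMul]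
      obtain ⟨k, hk⟩ : ∃ k : ℕ, od a (y : N) = k := ⟨(od a (y : N)).toNat, by omega⟩
      rw [hk, Int.toNat_natCast, zpow_natCast, Units.val_pow_eq_pow_val]
  have h1 := key _ (fun v hv => hv)
  have h2 : (∑ v ∈ (dv (y : N)).support, Finsupp.single v (dv (y : N) v)) = dv (y : N) := Finsupp.sum_single _
  rw [h2] at h1
  exact h1

end H16D
end

-- from Lib.SSR.R5
section

open NumberField IsDedekindDomain

namespace SSR

variable {N : Type} [Field N] [NumberField N] {L : Type} [Field L] [NumberField L] [Algebra N L]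

/-! Chunk R5 (M). The first ramification group of a p-group is the inertia group. PROOF. Let s be with Gp Q 1 s (s • y = y mod Q for all y), so s Q = Q, s Q^2 = Q^2. Choose u in Q, not in Q^2.
Q = (u) + Q^2 (Q^2 < (u) + Q^2 <= Q; Q/Q^2 has no ideals between; e.g. Ideal: an ideal J with Q^2 < J <= Q contains ... J | Q^2 so J is Q^i, i <= 1; i = 0 excluded), so s • u = c u + (element
of Q^2) with c in 𝓞 L. By induction s^n • u = c^n u mod Q^2 (s • c = c mod Q and u in Q). For n = p^k: s^n = 1, so (c^n - 1) u in Q^2, c^n - 1 in Q (u not in Q^2), and x^(p^k) = 1 in the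
field 𝓞 L / Q of characteristic p gives c = 1 mod Q ((c - 1)^(p^k) = c^(p^k) - 1; sub_pow_char_pow or iterate frobenius injectivity). So s • u - u in Q^2 (*).
D(y) := s • y - y in Q satisfies D(y z) = D(y) z + (s • y) D(z), so D(y z) = D(y) z + y D(z) mod Q^2. By (*) D(u a) = u D(a) + a D(u) in Q^2 for all a, and D(Q^2) in Q^2, so D(Q) in Q^2.
Let q = card of 𝓞 L / Q: y^q - y in Q, so D(y^q) = D(y) mod Q^2, and D(y^q) = q y^(q-1) D(y) mod Q^2 (induction), q in Q: D(y^q) in Q^2. So D(y) in Q^2. -/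

theorem r5_map (Q : Ideal (𝓞 L)) (s : L ≃ₐ[N] L) (hs : Gp Q 1 s) {y : 𝓞 L} (hy : y ∈ Q) : s • y ∈ Q := by
  have h := hs y
  rw [pow_one] at h
  have h2 := Q.add_mem h hy
  rwa [sub_add_cancel] at h2

theorem r5_map2 (Q : Ideal (𝓞 L)) (s : L ≃ₐ[N] L) (hs : Gp Q 1 s) {y : 𝓞 L} (hy : y ∈ Q ^ 2) : s • y ∈ Q ^ 2 := by
  rw [pow_two] at hy ⊢
  refine Submodule.mul_induction_on hy ?_ ?_
  · intro a ha b hb
    rw [smul_mul']
    exact Ideal.mul_mem_mul (r5_map Q s hs ha) (r5_map Q s hs hb)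
  · intro a b ha hb
    rw [smul_add]
    exact (Q * Q).add_mem ha hb

theorem r5_root (p : ℕ) (hp : p.Prime) (Q : Ideal (𝓞 L)) (hQ : Q.IsPrime) (hpQ : (p : 𝓞 L) ∈ Q) (k : ℕ) (c : 𝓞 L)
    (h : c ^ p ^ k - 1 ∈ Q) : c - 1 ∈ Q := by
  haveI := hQ
  haveI : Fact p.Prime := ⟨hp⟩
  have h0 : ((p : ℕ) : 𝓞 L ⧸ Q) = 0 := by
    rw [← map_natCast (Ideal.Quotient.mk Q) p]
    exact Ideal.Quotient.eq_zero_iff_mem.2 hpQ
  haveI : CharP (𝓞 L ⧸ Q) p := (CharP.charP_iff_prime_eq_zero hp).2 h0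
  rw [← Ideal.Quotient.eq_zero_iff_mem] at h ⊢
  rw [map_sub, map_pow, map_one] at h
  rw [map_sub, map_one]
  have h1 : (Ideal.Quotient.mk Q c - 1) ^ p ^ k = 0 := by
    rw [sub_pow_char_pow, one_pow]
    exact h
  exact pow_eq_zero_iff (pow_ne_zero k hp.ne_zero) |>.1 h1

theorem r5_iter (Q : Ideal (𝓞 L)) (s : L ≃ₐ[N] L) (hs : Gp Q 1 s) {u c : 𝓞 L} (hu : u ∈ Q) (hc : s • u - c * u ∈ Q ^ 2) (n : ℕ) :
    s ^ n • u - c ^ n * u ∈ Q ^ 2 := by
  induction n with
  | zero =>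
    rw [pow_zero, pow_zero, one_smul, one_mul, sub_self]
    exact (Q ^ 2).zero_mem
  | succ n ih =>
    have h1 : s • (s ^ n • u - c ^ n * u) ∈ Q ^ 2 := r5_map2 Q s hs ih
    rw [smul_sub, smul_mul', smul_pow', ← mul_smul, ← pow_succ'] at h1
    have h2 : (s • c) ^ n * (s • u - c * u) ∈ Q ^ 2 := (Q ^ 2).mul_mem_left _ hc
    have h3 : (s • c) ^ n - c ^ n ∈ Q := by
      have h4 := hs c
      rw [pow_one] at h4
      exact Ideal.mem_of_dvd Q (sub_dvd_pow_sub_pow (s • c) c n) h4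
    have h5 : ((s • c) ^ n - c ^ n) * (c * u) ∈ Q ^ 2 := by
      rw [pow_two]
      exact Ideal.mul_mem_mul h3 (Q.mul_mem_left _ hu)
    have h6 := (Q ^ 2).add_mem ((Q ^ 2).add_mem h1 h2) h5
    have h7 : s ^ (n + 1) • u - (s • c) ^ n * (s • u) + (s • c) ^ n * (s • u - c * u) + ((s • c) ^ n - c ^ n) * (c * u)
        = s ^ (n + 1) • u - c ^ (n + 1) * u := by
      ring
    rwa [h7] at h6

theorem r5_unif (p : ℕ) (hp : p.Prime) (Q : HeightOneSpectrum (𝓞 L)) (hpQ : (p : 𝓞 L) ∈ Q.asIdeal) (s : L ≃ₐ[N] L) (k : ℕ)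
    (hk : s ^ p ^ k = 1) (hs : Gp Q.asIdeal 1 s) {y : 𝓞 L} (hy : y ∈ Q.asIdeal) : s • y - y ∈ Q.asIdeal ^ 2 := by
  obtain ⟨u, hu1, hu2⟩ := Q.asIdeal.exists_mem_pow_notMem_pow_succ Q.ne_bot Q.isPrime.ne_top 1
  rw [pow_one] at hu1
  have key : ∀ c : 𝓞 L, c ∈ Q.asIdeal → ∃ d : 𝓞 L, ∃ e ∈ Q.asIdeal ^ 2, u * d + e = c := by
    intro c hc
    haveI := Q.isPrime
    exact Ideal.exists_mul_add_mem_pow_succ Q.ne_bot u c (by rwa [pow_one]) hu2 (by rwa [pow_one])
  obtain ⟨c, e, he, hce⟩ := key _ (r5_map Q.asIdeal s hs hu1)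
  have h1 : s • u - c * u ∈ Q.asIdeal ^ 2 := by
    rw [← hce, mul_comm u c, add_sub_cancel_left]
    exact he
  have h2 := r5_iter Q.asIdeal s hs hu1 h1 (p ^ k)
  rw [hk, one_smul] at h2
  have h3 : (c ^ p ^ k - 1) * u ∈ Q.asIdeal ^ 2 := by
    have h4 := (Q.asIdeal ^ 2).neg_mem h2
    have h5 : -(u - c ^ p ^ k * u) = (c ^ p ^ k - 1) * u := by ring
    rwa [h5] at h4
  haveI := Q.isPrime
  have h4 : c ^ p ^ k - 1 ∈ Q.asIdeal := (Ideal.IsPrime.mul_mem_pow Q.asIdeal h3).resolve_right hu2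
  have h5 := r5_root p hp Q.asIdeal Q.isPrime hpQ k c h4
  have h6 : s • u - u ∈ Q.asIdeal ^ 2 := by
    have h7 : (c - 1) * u ∈ Q.asIdeal ^ 2 := by
      rw [pow_two]
      exact Ideal.mul_mem_mul h5 hu1
    have h8 := (Q.asIdeal ^ 2).add_mem h1 h7
    have h9 : s • u - c * u + (c - 1) * u = s • u - u := by ring
    rwa [h9] at h8
  obtain ⟨d, f, hf, hdf⟩ := key y hy
  have h7 : s • y - y = (s • u - u) * (s • d) + u * (s • d - d) + (s • f - f) := by
    rw [← hdf, smul_add, smul_mul']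
    ring
  rw [h7]
  refine (Q.asIdeal ^ 2).add_mem ((Q.asIdeal ^ 2).add_mem ((Q.asIdeal ^ 2).mul_mem_right _ h6) ?_)
    ((Q.asIdeal ^ 2).sub_mem (r5_map2 _ s hs hf) hf)
  have h8 := hs d
  rw [pow_one] at h8
  rw [pow_two]
  exact Ideal.mul_mem_mul hu1 h8

theorem r5_card (Q : HeightOneSpectrum (𝓞 L)) : ∃ q : ℕ, (q : 𝓞 L) ∈ Q.asIdeal ∧ ∀ y : 𝓞 L, y ^ q - y ∈ Q.asIdeal := by
  haveI : Finite (𝓞 L ⧸ Q.asIdeal) := Ideal.finiteQuotientOfFreeOfNeBot _ Q.ne_bot
  haveI := Fintype.ofFinite (𝓞 L ⧸ Q.asIdeal)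
  haveI := Q.isMaximal
  letI := Ideal.Quotient.field Q.asIdeal
  refine ⟨Fintype.card (𝓞 L ⧸ Q.asIdeal), ?_, ?_⟩
  · rw [← Ideal.Quotient.eq_zero_iff_mem, map_natCast]
    exact Nat.cast_card_eq_zero (𝓞 L ⧸ Q.asIdeal)
  · intro y
    rw [← Ideal.Quotient.eq_zero_iff_mem, map_sub, map_pow, FiniteField.pow_card, sub_self]

theorem r5_wild (p : ℕ) (hp : p.Prime) (Q : HeightOneSpectrum (𝓞 L)) (hpQ : (p : 𝓞 L) ∈ Q.asIdeal) (s : L ≃ₐ[N] L) (k : ℕ)
    (hk : s ^ p ^ k = 1) (hs : Gp Q.asIdeal 1 s) : Gp Q.asIdeal 2 s := by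
  intro y
  obtain ⟨q, hq1, hq2⟩ := r5_card Q
  have h0 := hs y
  rw [pow_one] at h0
  have h1 := r5_unif p hp Q hpQ s k hk hs (hq2 y)
  rw [smul_sub, smul_pow'] at h1
  obtain ⟨r, hr⟩ := Polynomial.powAddExpansion y (s • y - y) q
  rw [add_sub_cancel] at hr
  rw [hr] at h1
  have h2 : (q : 𝓞 L) * y ^ (q - 1) * (s • y - y) ∈ Q.asIdeal ^ 2 := by
    rw [pow_two]
    exact Ideal.mul_mem_mul (Q.asIdeal.mul_mem_right _ hq1) h0
  have h3 : r * (s • y - y) ^ 2 ∈ Q.asIdeal ^ 2 := (Q.asIdeal ^ 2).mul_mem_left _ (Ideal.pow_mem_pow h0 2)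
  have h4 := (Q.asIdeal ^ 2).sub_mem ((Q.asIdeal ^ 2).add_mem h2 h3) h1
  have h5 : (q : 𝓞 L) * y ^ (q - 1) * (s • y - y) + r * (s • y - y) ^ 2
      - (y ^ q + (q : 𝓞 L) * y ^ (q - 1) * (s • y - y) + r * (s • y - y) ^ 2 - s • y - (y ^ q - y)) = s • y - y := by
    ring
  rwa [h5] at h4

end SSR
end

-- from Lib.SSR.R6
section

open NumberField IsDedekindDomain

namespace SSR

variable {N : Type} [Field N] [NumberField N] {L : Type} [Field L] [NumberField L] [Algebra N L]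

/-! Chunk R6 (S). PROOF. {s | Gp Q 1 s} = Q.inertia (L ≃ₐ[N] L) (definition of Ideal.inertia / AddSubgroup.inertia: s • x - x in Q). Ideal.card_inertia_eq_ramificationIdxIn for the prime
v = Q.under (𝓞 N) and the group Gal(L/N) acting on 𝓞 L (IsGaloisGroup instance for rings of integers; look for existing uses in Lib: grep card_inertia), and
ramificationIdxIn = ramificationIdx (Ideal.ramificationIdxIn_eq_ramificationIdx). e1: Q unramified: e = 1. -/

theorem r6_card [IsGalois N L] (Q : HeightOneSpectrum (𝓞 L)) :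
    Nat.card {s : L ≃ₐ[N] L // Gp Q.asIdeal 1 s} = Q.asIdeal.ramificationIdx (𝓞 N) := by
  have hwm := Q.isMaximal
  have hwp := Q.isPrime
  have hp : (Q.asIdeal.under (𝓞 N)).IsPrime := inferInstance
  have hne : Q.asIdeal.under (𝓞 N) ≠ ⊥ := by
    intro h
    exact Q.ne_bot (Ideal.eq_bot_of_comap_eq_bot (R := 𝓞 N) (I := Q.asIdeal) h)
  let v : HeightOneSpectrum (𝓞 N) := ⟨Q.asIdeal.under (𝓞 N), hp, hne⟩
  have hvm := v.isMaximal
  have hl : Q.asIdeal.LiesOver v.asIdeal := ⟨rfl⟩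
  have h1 : Nat.card (Q.asIdeal.inertia (L ≃ₐ[N] L)) = Q.asIdeal.ramificationIdx (𝓞 N) := by
    rw [Ideal.card_inertia_eq_ramificationIdxIn (G := L ≃ₐ[N] L) v.asIdeal Q.asIdeal,
      Ideal.ramificationIdxIn_eq_ramificationIdx v.asIdeal Q.asIdeal (L ≃ₐ[N] L)]
  rw [← h1]
  refine Nat.card_congr (Equiv.subtypeEquivRight (fun s => ?_))
  unfold Gp
  rw [pow_one]
  exact Iff.rfl

end SSR
end

-- from Lib.SSR.R1
section

open NumberField IsDedekindDomain

namespace SSR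

variable {N : Type} [Field N] [NumberField N] {L : Type} [Field L] [NumberField L] [Algebra N L]

/-! Chunk R1 (M). A local generator at Q. PROOF. v = the prime of N below Q. k = 𝓞 L / Q is a finite field with q elements, its unit group is cyclic: zeta generates it. By the Chinese
remainder theorem (finitely many maximal ideals above v: primesOver_finite) choose x0 in 𝓞 L with x0 = zeta mod Q and x0 in Q' for all the other primes Q' above v; q in Q (card of the
quotient). If x0^(q-1) - 1 in Q^2 replace x0 by x0 + u, u in Q, not in Q^2, u in all Q': (x0+u)^(q-1) - 1 = x0^(q-1) - 1 + (q-1) x0^(q-2) u mod Q^2, not in Q^2 (q - 1 and x0 are units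
mod Q). So there is x with x = zeta mod Q, x in all Q', c := x^(q-1) - 1 in Q, not in Q^2. R := Algebra.adjoin (𝓞 N) {x} (a subring over which 𝓞 L is finite), n := Q intersected with R.
(a) every y in 𝓞 L is in R + Q: y = 0 or y = zeta^i = x^i mod Q. (b) Q <= n 𝓞 L (the ideal of 𝓞 L generated by n): n contains c and the image of v; an ideal of 𝓞 L which contains v and c
is a product of primes above v; a Q' with c in Q' would contain x^(q-1) and so 1; so this ideal is a power of Q, and it contains c not in Q^2: it is Q (or all). So 𝓞 L = R + n 𝓞 L as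
R-modules; by Nakayama (Submodule.exists_sub_one_mem_and_smul_eq_zero_of_fg_of_le_smul for the R-module 𝓞 L / R, or Submodule.exists_mem_and_smul_..) there is s in R, s - 1 in n, s 𝓞 L <= R.
So s is in the conductor (conductor R x = {a | for all b, a b in adjoin}) and not in Q. -/

theorem r1_lift (Q : HeightOneSpectrum (𝓞 L)) : ∃ (m : ℕ) (x1 : 𝓞 L), 0 < m ∧
    (∀ y : 𝓞 L, y ∉ Q.asIdeal → ∃ i : ℕ, x1 ^ i - y ∈ Q.asIdeal) ∧ x1 ^ m - 1 ∈ Q.asIdeal ∧
    x1 ^ m - 1 ∉ Q.asIdeal ^ 2 := by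
  have hQp := Q.isPrime
  have hQm := Q.isMaximal
  let _ : Field (𝓞 L ⧸ Q.asIdeal) := Ideal.Quotient.field Q.asIdeal
  have hfin : Finite (𝓞 L ⧸ Q.asIdeal) := Ideal.finiteQuotientOfFreeOfNeBot Q.asIdeal Q.ne_bot
  obtain ⟨ζ, hζ⟩ := IsCyclic.exists_generator (α := (𝓞 L ⧸ Q.asIdeal)ˣ)
  obtain ⟨m, hm⟩ : ∃ m, m = Nat.card (𝓞 L ⧸ Q.asIdeal)ˣ := ⟨_, rfl⟩
  have hm0 : 0 < m := by
    rw [hm]
    exact Nat.card_pos
  have hζm : ζ ^ m = 1 := by
    rw [hm]
    exact pow_card_eq_one'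
  have hmk : (m : 𝓞 L ⧸ Q.asIdeal) ≠ 0 := by
    have h1 : Nat.card (𝓞 L ⧸ Q.asIdeal) = m + 1 := by
      rw [hm, Nat.card_units]
      have : 0 < Nat.card (𝓞 L ⧸ Q.asIdeal) := Nat.card_pos
      omega
    have h2 : ((Nat.card (𝓞 L ⧸ Q.asIdeal) : ℕ) : 𝓞 L ⧸ Q.asIdeal) = 0 := by
      have := card_nsmul_eq_zero' (x := (1 : 𝓞 L ⧸ Q.asIdeal))
      rwa [nsmul_eq_mul, mul_one] at this
    intro h
    rw [h1] at h2
    push_cast at h2
    rw [h, zero_add] at h2
    exact one_ne_zero h2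
  obtain ⟨z, hz⟩ := Ideal.Quotient.mk_surjective (ζ : 𝓞 L ⧸ Q.asIdeal)
  have gen : ∀ x1 : 𝓞 L, Ideal.Quotient.mk Q.asIdeal x1 = ζ →
      (∀ y : 𝓞 L, y ∉ Q.asIdeal → ∃ i : ℕ, x1 ^ i - y ∈ Q.asIdeal) ∧ x1 ^ m - 1 ∈ Q.asIdeal := by
    intro x1 hx1
    constructor
    · intro y hy
      have hy0 : Ideal.Quotient.mk Q.asIdeal y ≠ 0 :=
        fun h => hy (Ideal.Quotient.eq_zero_iff_mem.1 h)
      obtain ⟨i, hi⟩ := (mem_powers_iff_mem_zpowers).2 (hζ (Units.mk0 _ hy0))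
      refine ⟨i, ?_⟩
      rw [← Ideal.Quotient.eq, map_pow, hx1]
      have := congrArg Units.val hi
      simpa using this
    · rw [← Ideal.Quotient.eq, map_pow, hx1, map_one, ← Units.val_pow_eq_pow_val, hζm,
        Units.val_one]
  by_cases h2 : z ^ m - 1 ∈ Q.asIdeal ^ 2
  · obtain ⟨u, hu1, hu2⟩ := Ideal.exists_mem_pow_notMem_pow_succ Q.asIdeal Q.ne_bot hQp.ne_top 1
    rw [pow_one] at hu1
    have hzu : Ideal.Quotient.mk Q.asIdeal (z + u) = ζ := by
      rw [map_add, Ideal.Quotient.eq_zero_iff_mem.2 hu1, add_zero, hz]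
    obtain ⟨g1, g2⟩ := gen _ hzu
    refine ⟨m, z + u, hm0, g1, g2, fun h3 => hu2 ?_⟩
    obtain ⟨k, hk⟩ := Polynomial.powAddExpansion z u m
    have h4 : (m : 𝓞 L) * z ^ (m - 1) * u ∈ Q.asIdeal ^ 2 := by
      have e : (m : 𝓞 L) * z ^ (m - 1) * u = ((z + u) ^ m - 1) - (z ^ m - 1) - k * u ^ 2 := by
        rw [hk]
        ring
      rw [e]
      exact sub_mem (sub_mem h3 h2) (Ideal.mul_mem_left _ _ (Ideal.pow_mem_pow hu1 2))
    have h5 : (m : 𝓞 L) * z ^ (m - 1) ∉ Q.asIdeal := by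
      intro h
      have h6 := Ideal.Quotient.eq_zero_iff_mem.2 h
      rw [map_mul, map_pow, hz, map_natCast] at h6
      exact mul_ne_zero hmk (pow_ne_zero _ ζ.ne_zero) h6
    have h7 : Q.asIdeal ^ 2 ∣ Ideal.span {(m : 𝓞 L) * z ^ (m - 1)} * Ideal.span {u} := by
      rw [Ideal.dvd_iff_le, Ideal.span_singleton_mul_span_singleton,
        Ideal.span_singleton_le_iff_mem]
      exact h4
    have h8 : ¬ Q.asIdeal ∣ Ideal.span {(m : 𝓞 L) * z ^ (m - 1)} := by
      rw [Ideal.dvd_iff_le, Ideal.span_singleton_le_iff_mem]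
      exact h5
    have h9 := Q.prime.pow_dvd_of_dvd_mul_left 2 h8 h7
    rwa [Ideal.dvd_iff_le, Ideal.span_singleton_le_iff_mem] at h9
  · obtain ⟨g1, g2⟩ := gen z hz
    exact ⟨m, z, hm0, g1, g2, h2⟩

theorem r1_gen (Q : HeightOneSpectrum (𝓞 L)) : ∃ x : 𝓞 L, ¬ conductor (𝓞 N) x ≤ Q.asIdeal := by
  have hQp := Q.isPrime
  have hQm := Q.isMaximal
  obtain ⟨m, x1, hm, hgen, hx1, hx2⟩ := r1_lift Q
  have hinj : Function.Injective (algebraMap (𝓞 N) (𝓞 L)) := FaithfulSMul.algebraMap_injective _ _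
  obtain ⟨v, hv⟩ : ∃ v : Ideal (𝓞 N), v = Q.asIdeal.comap (algebraMap (𝓞 N) (𝓞 L)) := ⟨_, rfl⟩
  have hv0 : v ≠ ⊥ := by
    rw [hv]
    exact fun h0 => Q.ne_bot (Ideal.eq_bot_of_comap_eq_bot (R := 𝓞 N) (I := Q.asIdeal) h0)
  obtain ⟨V, hV⟩ : ∃ V : Ideal (𝓞 L), V = v.map (algebraMap (𝓞 N) (𝓞 L)) := ⟨_, rfl⟩
  have hV0 : V ≠ ⊥ := fun h => hv0 ((Ideal.map_eq_bot_iff_of_injective hinj).1 (hV ▸ h))
  obtain ⟨J, hJ, hJQ⟩ := (ex_fin Q hV0).exists_eq_pow_mul_and_not_dvd
  obtain ⟨e, he⟩ : ∃ e, e = multiplicity Q.asIdeal V := ⟨_, rfl⟩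
  rw [← he] at hJ
  rw [Ideal.dvd_iff_le] at hJQ
  have hcop : IsCoprime (Q.asIdeal ^ 2) J := by
    apply IsCoprime.pow_left
    rw [Ideal.isCoprime_iff_sup_eq]
    exact hQm.out.2 _ (left_lt_sup.2 hJQ)
  obtain ⟨a, ha, j, hj, haj⟩ := Ideal.isCoprime_iff_exists.1 hcop
  obtain ⟨x, hx⟩ : ∃ x, x = x1 * j := ⟨_, rfl⟩
  have hxx1 : x - x1 ∈ Q.asIdeal ^ 2 := by
    have e1 : x - x1 = -(x1 * a) := by
      rw [hx]
      linear_combination x1 * haj
    rw [e1]
    exact neg_mem (Ideal.mul_mem_left _ _ ha)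
  have hxJ : x ∈ J := by
    rw [hx]
    exact Ideal.mul_mem_left _ _ hj
  have hpow : ∀ n : ℕ, x ^ n - x1 ^ n ∈ Q.asIdeal ^ 2 := fun n =>
    Ideal.mem_of_dvd _ (sub_dvd_pow_sub_pow x x1 n) hxx1
  have hsq : Q.asIdeal ^ 2 ≤ Q.asIdeal := Ideal.pow_le_self two_ne_zero
  obtain ⟨c, hc⟩ : ∃ c, c = x ^ m - 1 := ⟨_, rfl⟩
  have hcQ : c ∈ Q.asIdeal := by
    have e1 : c = (x ^ m - x1 ^ m) + (x1 ^ m - 1) := by
      rw [hc]
      ring
    rw [e1]
    exact add_mem (hsq (hpow m)) hx1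
  have hcQ2 : c ∉ Q.asIdeal ^ 2 := by
    intro h
    apply hx2
    have e1 : x1 ^ m - 1 = c - (x ^ m - x1 ^ m) := by
      rw [hc]
      ring
    rw [e1]
    exact sub_mem h (hpow m)
  have hJc : J ⊔ Ideal.span {c} = ⊤ := by
    rw [Ideal.eq_top_iff_one]
    have e1 : (1 : 𝓞 L) = x ^ m + (-1) * c := by
      rw [hc]
      ring
    rw [e1]
    exact Submodule.add_mem_sup (Ideal.pow_mem_of_mem J hxJ m hm)
      (Ideal.mul_mem_left _ _ (Ideal.mem_span_singleton_self c))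
  have hQe : Q.asIdeal ^ e ≤ V ⊔ Ideal.span {c} := by
    have e1 : Q.asIdeal ^ e = Q.asIdeal ^ e * J ⊔ Q.asIdeal ^ e * Ideal.span {c} := by
      rw [← Ideal.mul_sup, hJc, Ideal.mul_top]
    rw [e1]
    exact sup_le_sup (le_of_eq hJ.symm) Ideal.mul_le_right
  have hQle : Q.asIdeal ≤ V ⊔ Ideal.span {c} := by
    have hI : V ⊔ Ideal.span {c} ∣ Q.asIdeal ^ e := Ideal.dvd_iff_le.2 hQe
    obtain ⟨i, hi, hi2⟩ := (dvd_prime_pow Q.prime e).1 hI
    rw [associated_iff_eq] at hi2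
    have hi1 : i ≤ 1 := by
      by_contra h
      apply hcQ2
      have h3 : c ∈ V ⊔ Ideal.span {c} := Ideal.mem_sup_right (Ideal.mem_span_singleton_self c)
      rw [hi2] at h3
      exact Ideal.pow_le_pow_right (by omega) h3
    rw [hi2]
    have h9 : Q.asIdeal ^ 1 ≤ Q.asIdeal ^ i := Ideal.pow_le_pow_right hi1
    rwa [pow_one] at h9
  obtain ⟨R, hR⟩ : ∃ R : Subalgebra (𝓞 N) (𝓞 L), R = Algebra.adjoin (𝓞 N) {x} := ⟨_, rfl⟩
  have hxR : x ∈ R := by
    rw [hR]
    exact Algebra.self_mem_adjoin_singleton _ _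
  obtain ⟨n, hn⟩ : ∃ n : Ideal R, n = Q.asIdeal.comap (algebraMap R (𝓞 L)) := ⟨_, rfl⟩
  have hfin : (⊤ : Submodule R (𝓞 L)).FG := by
    have : Module.Finite R (𝓞 L) := Module.Finite.of_restrictScalars_finite (𝓞 N) R (𝓞 L)
    exact Module.finite_def.1 this
  have hsup : V ⊔ Ideal.span {c} ≤ n.map (algebraMap R (𝓞 L)) := by
    refine sup_le ?_ ?_
    · rw [hV, Ideal.map_le_iff_le_comap]
      intro b hb
      rw [Ideal.mem_comap]
      have h1 : algebraMap (𝓞 N) (𝓞 L) b = algebraMap R (𝓞 L) (algebraMap (𝓞 N) R b) := rfl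
      rw [h1]
      apply Ideal.mem_map_of_mem
      rw [hn, Ideal.mem_comap, ← h1]
      rw [hv] at hb
      exact hb
    · rw [Ideal.span_singleton_le_iff_mem]
      have h1 : c = algebraMap R (𝓞 L) ((⟨x, hxR⟩ : R) ^ m - 1) := by
        rw [hc]
        rfl
      rw [h1]
      apply Ideal.mem_map_of_mem
      rw [hn, Ideal.mem_comap, ← h1]
      exact hcQ
  have hQn : ∀ y ∈ Q.asIdeal, y ∈ (n • (⊤ : Submodule R (𝓞 L))) := by
    intro y hy
    rw [Ideal.smul_top_eq_map, Submodule.restrictScalars_mem]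
    exact hsup (hQle hy)
  have hle : (⊤ : Submodule R (𝓞 L)) ≤ (1 : Submodule R (𝓞 L)) ⊔ n • ⊤ := by
    intro y _
    by_cases hy : y ∈ Q.asIdeal
    · exact Submodule.mem_sup_right (hQn y hy)
    · obtain ⟨i, hi⟩ := hgen y hy
      have h1 : y - x ^ i ∈ Q.asIdeal := by
        have e1 : y - x ^ i = -((x ^ i - x1 ^ i) + (x1 ^ i - y)) := by ring
        rw [e1]
        exact neg_mem (add_mem (hsq (hpow i)) hi)
      have e2 : y = x ^ i + (y - x ^ i) := by ring
      rw [e2]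
      refine Submodule.add_mem_sup ?_ (hQn _ h1)
      rw [Submodule.mem_one]
      exact ⟨(⟨x, hxR⟩ : R) ^ i, rfl⟩
  obtain ⟨r, hr1, hr2⟩ := Submodule.exists_sub_one_mem_and_smul_le_of_fg_of_le_sup hfin le_top hle
  refine ⟨x, fun hcond => ?_⟩
  have hrc : (r : 𝓞 L) ∈ conductor (𝓞 N) x := by
    intro b
    have h2 := hr2 (Submodule.smul_mem_pointwise_smul b r ⊤ Submodule.mem_top)
    rw [Submodule.mem_one] at h2
    obtain ⟨s, hs⟩ := h2
    have h3 : (r : 𝓞 L) * b = s := hs.symm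
    rw [h3, ← hR]
    exact s.2
  have h4 : (r : 𝓞 L) ∈ Q.asIdeal := hcond hrc
  have h5 : (r : 𝓞 L) - 1 ∈ Q.asIdeal := by
    rw [hn, Ideal.mem_comap] at hr1
    exact hr1
  have h6 : (1 : 𝓞 L) ∈ Q.asIdeal := by
    have := sub_mem h4 h5
    simpa using this
  exact hQp.ne_top ((Ideal.eq_top_iff_one _).2 h6)

end SSR
end

-- from Lib.SSR.R2
section

open NumberField IsDedekindDomain

namespace SSR

variable {N : Type} [Field N] [NumberField N] {L : Type} [Field L] [NumberField L] [Algebra N L]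

/-! Chunk R2 (S/M). PROOF of r2_iff. <- is the definition. ->: let s0 be in the conductor, not in Q. For y in 𝓞 L: s0 y and s0 are in Algebra.adjoin (𝓞 N) {x}, so = aeval x g, aeval x h
(Algebra.adjoin_singleton_eq_range_aeval / mem_adjoin_iff). s • aeval x g = aeval (s • x) g (s acts as an 𝓞 N-algebra automorphism of 𝓞 L: check on the images in L), and
(s • x - x) | aeval (s • x) g - aeval x g (Polynomial.sub_dvd_eval_sub after mapping to 𝓞 L[X]). So s • x - x divides s • (s0 y) - s0 y and s • s0 - s0, hence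
s0 (s • y - y) = (s • (s0 y) - s0 y) - (s • s0 - s0) (s • y) is in Q^n. s0 is not in Q: s • y - y in Q^n (Ideal.IsPrime ... mem_or_mem for powers of a prime: e.g. use ex / multiplicity:
Q^n | span {s0 z}, Q does not divide span {s0}: Prime.pow_dvd_of_dvd_mul_left).
PROOF of r2_top. K(x) = L: the conductor is not 0 (it is not contained in Q): 0 ≠ s0 with s0 𝓞 L in 𝓞 N[x]; every element of L is y/z with y in 𝓞 L, z in 𝓞 N nonzero (or ℤ); y = (s0 y)/s0 is
in N(x) = Algebra.adjoin N {x} (x algebraic). -/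

omit [NumberField N] [NumberField L] in
theorem r2_fix (s : L ≃ₐ[N] L) (a : 𝓞 N) : s • (algebraMap (𝓞 N) (𝓞 L) a) = algebraMap (𝓞 N) (𝓞 L) a := by
  apply RingOfIntegers.ext
  change s (algebraMap N L (a : N)) = algebraMap N L (a : N)
  exact s.commutes _

theorem r2_iff (Q : HeightOneSpectrum (𝓞 L)) (x : 𝓞 L) (hx : ¬ conductor (𝓞 N) x ≤ Q.asIdeal) (s : L ≃ₐ[N] L) (n : ℕ) :
    s • x - x ∈ Q.asIdeal ^ n ↔ Gp Q.asIdeal n s := by
  refine ⟨fun h y => ?_, fun h => h x⟩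
  obtain ⟨s0, hs0, hs0Q⟩ := Set.not_subset.1 hx
  have key : ∀ z ∈ Algebra.adjoin (𝓞 N) {x}, s • z - z ∈ Q.asIdeal ^ n := by
    intro z hz
    rw [Algebra.adjoin_singleton_eq_range_aeval] at hz
    obtain ⟨g, rfl⟩ := hz
    have e : s • (Polynomial.aeval x g) = Polynomial.aeval (s • x) g := by
      rw [Polynomial.aeval_eq_sum_range, Polynomial.aeval_eq_sum_range, Finset.smul_sum]
      refine Finset.sum_congr rfl fun i _ => ?_
      rw [Algebra.smul_def, Algebra.smul_def, smul_mul', smul_pow', r2_fix]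
    change s • (Polynomial.aeval x g) - Polynomial.aeval x g ∈ _
    rw [e]
    have e2 : (s • x - x) ∣ (Polynomial.aeval (s • x) g - Polynomial.aeval x g) := by
      have h3 := Polynomial.sub_dvd_eval_sub (s • x) x (g.map (algebraMap (𝓞 N) (𝓞 L)))
      rwa [Polynomial.eval_map_algebraMap, Polynomial.eval_map_algebraMap] at h3
    exact Ideal.mem_of_dvd _ e2 h
  have h1 := key _ (mem_conductor_iff.1 hs0 y)
  have h2 := key _ (mem_conductor_iff.1 hs0 1)
  rw [mul_one] at h2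
  have h3 : s0 * (s • y - y) ∈ Q.asIdeal ^ n := by
    have : s0 * (s • y - y) = (s • (s0 * y) - s0 * y) - (s • s0 - s0) * (s • y) := by
      rw [smul_mul']; ring
    rw [this]
    exact sub_mem h1 (Ideal.mul_mem_right _ _ h2)
  rw [← Ideal.span_singleton_le_iff_mem, ← Ideal.dvd_iff_le, ← Ideal.span_singleton_mul_span_singleton] at h3
  have h4 := Q.prime.pow_dvd_of_dvd_mul_left n (a := Ideal.span {s0}) (by
    rw [Ideal.dvd_iff_le, Ideal.span_singleton_le_iff_mem]; exact hs0Q) h3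
  rwa [Ideal.dvd_iff_le, Ideal.span_singleton_le_iff_mem] at h4

theorem r2_top (Q : HeightOneSpectrum (𝓞 L)) (x : 𝓞 L) (hx : ¬ conductor (𝓞 N) x ≤ Q.asIdeal) :
    Algebra.adjoin N {algebraMap (𝓞 L) L x} = ⊤ := by
  have hne : conductor (𝓞 N) x ≠ ⊥ := fun h => hx (h ▸ bot_le)
  obtain ⟨s0, hs0, hs00⟩ := Submodule.exists_mem_ne_zero_of_ne_bot hne
  have key : ∀ z ∈ Algebra.adjoin (𝓞 N) {x}, algebraMap (𝓞 L) L z ∈ Algebra.adjoin N {algebraMap (𝓞 L) L x} := by
    intro z hz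
    rw [Algebra.adjoin_singleton_eq_range_aeval] at hz
    obtain ⟨g, rfl⟩ := hz
    change algebraMap (𝓞 L) L (Polynomial.aeval x g) ∈ _
    rw [← Polynomial.aeval_algebraMap_apply, Polynomial.aeval_eq_sum_range]
    refine sum_mem fun i _ => ?_
    have : (g.coeff i) • (algebraMap (𝓞 L) L x) ^ i = (algebraMap (𝓞 N) N (g.coeff i)) • (algebraMap (𝓞 L) L x) ^ i := by
      rw [algebraMap_smul]
    rw [this]
    exact Subalgebra.smul_mem _ (pow_mem (Algebra.subset_adjoin (Set.mem_singleton _)) _) _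
  rw [eq_top_iff]
  intro y _
  obtain ⟨u, w, hw, rfl⟩ := IsFractionRing.div_surjective (A := 𝓞 L) y
  have hs0L : algebraMap (𝓞 L) L s0 ≠ 0 := by
    intro h
    exact hs00 ((map_eq_zero_iff _ (IsFractionRing.injective (𝓞 L) L)).1 h)
  have h1 := key _ (mem_conductor_iff.1 hs0 u)
  have h2 := key _ (mem_conductor_iff.1 hs0 w)
  have h3 : (algebraMap (𝓞 L) L (s0 * w))⁻¹ ∈ Algebra.adjoin N {algebraMap (𝓞 L) L x} :=
    (Algebra.IsIntegral.isIntegral (R := N) (algebraMap (𝓞 L) L (s0 * w))).inv_mem h2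
  have h4 : algebraMap (𝓞 L) L u / algebraMap (𝓞 L) L w = algebraMap (𝓞 L) L (s0 * u) * (algebraMap (𝓞 L) L (s0 * w))⁻¹ := by
    rw [map_mul, map_mul, ← div_eq_mul_inv, mul_div_mul_left _ _ hs0L]
  rw [h4]
  exact mul_mem h1 h3

end SSR
end

-- from Lib.SSR.R3
section

open NumberField IsDedekindDomain

namespace SSR

variable {N : Type} [Field N] [NumberField N] {L : Type} [Field L] [NumberField L] [Algebra N L]

/-! Chunk R3 (S/M). PROOF. conductor_mul_differentIdeal (𝓞 N) N L x htop: conductor * different = span {aeval x (derivative (minpoly (𝓞 N) x))}. L/N is Galois and N(x) = L: the map s ↦ s x is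
injective on Gal(L/N) and minpoly N x = product over s of (X - C (s x)) (monic of degree [L : N] with these distinct roots; minpoly.isIntegrallyClosed_eq_field_fractions' for minpoly (𝓞 N) x
mapped to N; splits: IsGalois.splits; Polynomial.aeval_root_derivative_of_splits or the derivative of a product at a root: derivative_prod / eval: only the term s = 1 survives). So the value
of the derivative at x is the product over s ≠ 1 of (x - s x); go back to 𝓞 L by injectivity of 𝓞 L → L. -/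

theorem r3_prod [IsGalois N L] (x : L) (htop : Algebra.adjoin N {x} = ⊤) :
    (minpoly N x).map (algebraMap N L) = ∏ s : L ≃ₐ[N] L, (Polynomial.X - Polynomial.C (s x)) := by
  have hinj : Function.Injective (fun s : L ≃ₐ[N] L => s x) := by
    intro s t h
    have h1 : (s : L →ₐ[N] L) = (t : L →ₐ[N] L) := by
      refine AlgHom.ext_of_adjoin_eq_top htop ?_
      intro y hy
      rw [Set.mem_singleton_iff] at hy
      rw [hy]
      exact h
    exact AlgEquiv.ext fun y => DFunLike.congr_fun h1 y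
  have hx : IsIntegral N x := Algebra.IsIntegral.isIntegral x
  have hm : ((minpoly N x).map (algebraMap N L)).Monic := (minpoly.monic hx).map _
  have hP : (∏ s : L ≃ₐ[N] L, (Polynomial.X - Polynomial.C (s x))).Monic :=
    Polynomial.monic_prod_of_monic _ _ fun s _ => Polynomial.monic_X_sub_C _
  refine Polynomial.eq_of_monic_of_dvd_of_natDegree_le hP hm ?_ ?_
  · refine Finset.prod_dvd_of_coprime ?_ ?_
    · intro s _ t _ hst
      exact Polynomial.pairwise_coprime_X_sub_C hinj hst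
    · intro s _
      rw [Polynomial.dvd_iff_isRoot, Polynomial.IsRoot, Polynomial.eval_map_algebraMap]
      have h1 := Polynomial.aeval_algHom_apply (s : L →ₐ[N] L) x (minpoly N x)
      rw [minpoly.aeval, map_zero] at h1
      exact h1
  · rw [Polynomial.natDegree_map, Polynomial.natDegree_prod_of_monic _ _ fun s _ =>
      Polynomial.monic_X_sub_C _]
    simp only [Polynomial.natDegree_X_sub_C, Finset.sum_const, smul_eq_mul, mul_one]
    rw [Finset.card_univ, ← Nat.card_eq_fintype_card, IsGalois.card_aut_eq_finrank]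
    exact minpoly.natDegree_le x

theorem r3_der [IsGalois N L] [DecidableEq (L ≃ₐ[N] L)] (x : L) (htop : Algebra.adjoin N {x} = ⊤) :
    Polynomial.aeval x (Polynomial.derivative (minpoly N x)) =
      ∏ s ∈ Finset.univ.erase (1 : L ≃ₐ[N] L), (x - s x) := by
  rw [← Polynomial.eval_map_algebraMap, ← Polynomial.derivative_map, r3_prod x htop,
    Polynomial.derivative_prod_finset, Polynomial.eval_finsetSum, Finset.sum_eq_single (1 : L ≃ₐ[N] L)]
  · rw [Polynomial.eval_mul, Polynomial.eval_prod]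
    simp
  · intro s _ hs
    rw [Polynomial.eval_mul, Polynomial.eval_prod]
    refine mul_eq_zero_of_left (Finset.prod_eq_zero (i := (1 : L ≃ₐ[N] L)) ?_ ?_) _
    · exact Finset.mem_erase.2 ⟨fun h => hs h.symm, Finset.mem_univ _⟩
    · simp
  · intro h
    exact absurd (Finset.mem_univ _) h

theorem r3_diff [IsGalois N L] (x : 𝓞 L) (htop : Algebra.adjoin N {algebraMap (𝓞 L) L x} = ⊤) [DecidableEq (L ≃ₐ[N] L)] :
    conductor (𝓞 N) x * differentIdeal (𝓞 N) (𝓞 L) = Ideal.span {∏ s ∈ Finset.univ.erase (1 : L ≃ₐ[N] L), (x - s • x)} := by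
  rw [conductor_mul_differentIdeal (𝓞 N) N L x htop]
  congr 2
  apply FaithfulSMul.algebraMap_injective (𝓞 L) L
  have h1 : minpoly N (algebraMap (𝓞 L) L x) = (minpoly (𝓞 N) x).map (algebraMap (𝓞 N) N) := by
    have hi : IsIntegral (𝓞 N) (algebraMap (𝓞 L) L x) :=
      (Algebra.IsIntegral.isIntegral (R := 𝓞 N) x).map (IsScalarTower.toAlgHom (𝓞 N) (𝓞 L) L)
    rw [minpoly.isIntegrallyClosed_eq_field_fractions' N (R := 𝓞 N) hi,
      minpoly.algebraMap_eq (FaithfulSMul.algebraMap_injective (𝓞 L) L)]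
  have h2 := r3_der (algebraMap (𝓞 L) L x) htop
  rw [h1, Polynomial.derivative_map, Polynomial.aeval_map_algebraMap,
    Polynomial.aeval_algebraMap_apply] at h2
  rw [h2, map_prod]
  refine Finset.prod_congr rfl fun s _ => ?_
  rw [map_sub]
  rfl

end SSR
end

-- from Lib.SSR.R4
section

open NumberField IsDedekindDomain

namespace SSR

variable {N : Type} [Field N] [NumberField N] {L : Type} [Field L] [NumberField L] [Algebra N L]

/-! Chunk R4 (S/M). HILBERT'S FORMULA for the different. PROOF of r4_ex: s ≠ 1 moves some y in 𝓞 L (L is the field of fractions); s • y - y ≠ 0 is in only finitely many powers of Q (ex_fin,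
le_iff_ex for span {s • y - y}); Nat.find the least n with not Gp Q n s; n ≠ 0 because Q^0 = ⊤ (Gp is decreasing in n: Ideal.pow_le_pow_right). PROOF of r4_hilb: x from r1_gen, r2_top, r3_diff;
take ex Q of both sides: ex_mul (conductor ≠ ⊥, different ≠ ⊥), ex Q conductor = 0 (ex_zero), ex Q (span {prod}) = sum of ex Q (span {x - s • x}) (Ideal.span_singleton_mul_span_singleton,
Finset induction; the factors are ≠ 0 because Gp Q (i s + 1) s is false, r2_iff), and ex Q (span {x - s • x}) = i s: le_iff_ex with Ideal.span_singleton_le_iff_mem and r2_iff (x - s x =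
-(s x - x)). -/

theorem r4_ex (Q : HeightOneSpectrum (𝓞 L)) (s : L ≃ₐ[N] L) (hs : s ≠ 1) : ∃ n : ℕ, Gp Q.asIdeal n s ∧ ¬ Gp Q.asIdeal (n + 1) s := by
  classical
  have h1 : ∃ y : 𝓞 L, s • y ≠ y := by
    by_contra h
    push Not at h
    apply hs
    refine AlgEquiv.ext fun l => ?_
    obtain ⟨a, b, -, hab⟩ := IsFractionRing.div_surjective (A := 𝓞 L) l
    have ha : s (algebraMap (𝓞 L) L a) = algebraMap (𝓞 L) L a := by
      have := congrArg (algebraMap (𝓞 L) L) (h a)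
      exact this
    have hb : s (algebraMap (𝓞 L) L b) = algebraMap (𝓞 L) L b := by
      have := congrArg (algebraMap (𝓞 L) L) (h b)
      exact this
    rw [← hab, map_div₀, ha, hb]
    rfl
  obtain ⟨y, hy⟩ := h1
  have hI : Ideal.span {s • y - y} ≠ ⊥ := by
    rw [Ne, Ideal.span_singleton_eq_bot, sub_eq_zero]
    exact hy
  have h2 : ∃ m, ¬ Gp Q.asIdeal m s := by
    refine ⟨ex Q (Ideal.span {s • y - y}) + 1, fun h => ?_⟩
    have h3 := h y
    rw [← Ideal.span_singleton_le_iff_mem, le_iff_ex Q hI] at h3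
    omega
  obtain ⟨n0, hn0⟩ : ∃ n0, n0 = Nat.find h2 := ⟨_, rfl⟩
  have h4 := Nat.find_spec h2
  rw [← hn0] at h4
  rcases n0 with _ | n
  · exfalso
    apply h4
    intro z
    rw [pow_zero, Ideal.one_eq_top]
    exact Submodule.mem_top
  · refine ⟨n, ?_, h4⟩
    have := Nat.find_min h2 (m := n) (by omega)
    exact not_not.1 this

/-- Hilbert's formula. -/
theorem r4_hilb [IsGalois N L] [DecidableEq (L ≃ₐ[N] L)] (Q : HeightOneSpectrum (𝓞 L)) (i : (L ≃ₐ[N] L) → ℕ)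
    (hi : ∀ s, s ≠ 1 → Gp Q.asIdeal (i s) s ∧ ¬ Gp Q.asIdeal (i s + 1) s) :
    ex Q (differentIdeal (𝓞 N) (𝓞 L)) = ∑ s ∈ Finset.univ.erase (1 : L ≃ₐ[N] L), i s := by
  obtain ⟨x, hx⟩ := r1_gen (N := N) Q
  have hc : conductor (𝓞 N) x ≠ ⊥ := fun h => hx (h ▸ bot_le)
  have h1 := congrArg (ex Q) (r3_diff x (r2_top Q x hx))
  rw [ex_mul Q hc different_ne, ex_zero Q hx, zero_add] at h1
  rw [h1]
  have h2 : ∀ s : L ≃ₐ[N] L, s ≠ 1 → Ideal.span {x - s • x} ≠ ⊥ ∧
      ex Q (Ideal.span {x - s • x}) = i s := by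
    intro s hs
    obtain ⟨h3, h4⟩ := hi s hs
    have key : ∀ n, Ideal.span {x - s • x} ≤ Q.asIdeal ^ n ↔ Gp Q.asIdeal n s := by
      intro n
      rw [Ideal.span_singleton_le_iff_mem, ← r2_iff Q x hx s n]
      constructor
      · intro h
        rw [← neg_sub]
        exact neg_mem h
      · intro h
        rw [← neg_sub]
        exact neg_mem h
    have h0 : Ideal.span {x - s • x} ≠ ⊥ := by
      intro h
      exact h4 ((key _).1 (h ▸ bot_le))
    refine ⟨h0, le_antisymm ?_ ?_⟩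
    · by_contra h
      push Not at h
      exact h4 ((key _).1 ((le_iff_ex Q h0 _).2 h))
    · exact (le_iff_ex Q h0 _).1 ((key _).2 h3)
  have h5 : ∀ t : Finset (L ≃ₐ[N] L), (∀ s ∈ t, s ≠ 1) →
      Ideal.span {∏ s ∈ t, (x - s • x)} ≠ ⊥ ∧
      ex Q (Ideal.span {∏ s ∈ t, (x - s • x)}) = ∑ s ∈ t, i s := by
    intro t
    induction t using Finset.induction_on with
    | empty =>
      intro _
      rw [Finset.prod_empty, Finset.sum_empty, Ideal.span_singleton_one]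
      refine ⟨top_ne_bot, ex_zero Q fun h => ?_⟩
      exact Q.isPrime.ne_top (top_le_iff.1 h)
    | insert a t ha ih =>
      intro ht
      obtain ⟨h6, h7⟩ := ih fun s hs => ht s (Finset.mem_insert_of_mem hs)
      obtain ⟨h8, h9⟩ := h2 a (ht a (Finset.mem_insert_self _ _))
      rw [Finset.prod_insert ha, Finset.sum_insert ha, ← Ideal.span_singleton_mul_span_singleton]
      exact ⟨mul_ne_zero h8 h6, by rw [ex_mul Q h8 h6, h7, h9]⟩
  exact (h5 _ fun s hs => Finset.ne_of_mem_erase hs).2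

end SSR
end

-- from Lib.SSR.R7
section

open NumberField IsDedekindDomain

namespace SSR

variable {N : Type} [Field N] [NumberField N] {L : Type} [Field L] [NumberField L] [Algebra N L]

/-! Chunk R7 (S/M). PROOF. i s := 2 if Gp Q 1 s, and 0 otherwise. If Gp Q 1 s: s^(p^k) = 1 (order of the group; IsGalois.card_aut_eq_finrank, pow_card_eq_one), so Gp Q 2 s (r5_wild) and not
Gp Q 3 s for s ≠ 1 (hG). If not Gp Q 1 s: Gp Q 0 s (Q^0 = ⊤) and not Gp Q (0+1) s. r4_hilb: ex = 2 * (number of s ≠ 1 with Gp Q 1 s) = 2 (e - 1) by r6_card (1 has Gp Q 1). -/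

theorem r7_ex [IsGalois N L] (p : ℕ) (hp : p.Prime) (k : ℕ) (hk : Module.finrank N L = p ^ k) (Q : HeightOneSpectrum (𝓞 L))
    (hpQ : (p : 𝓞 L) ∈ Q.asIdeal) (hG : G2 N Q.asIdeal) :
    ex Q (differentIdeal (𝓞 N) (𝓞 L)) = 2 * (Q.asIdeal.ramificationIdx (𝓞 N) - 1) := by
  classical
  rw [r4_hilb Q (fun s => if Gp Q.asIdeal 1 s then 2 else 0) ?_]
  · rw [← Finset.sum_filter, Finset.sum_const, smul_eq_mul, mul_comm, Finset.filter_erase,
      Finset.card_erase_of_mem, ← r6_card Q, Nat.card_eq_fintype_card, Fintype.card_subtype]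
    rw [Finset.mem_filter]
    refine ⟨Finset.mem_univ _, fun x => ?_⟩
    rw [one_smul, sub_self]
    exact Ideal.zero_mem _
  · intro s hs
    by_cases h1 : Gp Q.asIdeal 1 s
    · rw [if_pos h1]
      refine ⟨?_, fun h3 => hs (hG s h3)⟩
      apply r5_wild p hp Q hpQ s k _ h1
      rw [← hk, ← IsGalois.card_aut_eq_finrank]
      exact pow_card_eq_one'
    · rw [if_neg h1]
      refine ⟨fun x => ?_, h1⟩
      rw [pow_zero, Ideal.one_eq_top]
      exact Submodule.mem_top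

end SSR
end

-- from Lib.SSR.R8
section

open NumberField IsDedekindDomain

namespace SSR

variable {N : Type} [Field N] [NumberField N] {M : Type} [Field M] [NumberField M] {L : Type} [Field L] [NumberField L]
  [Algebra N M] [Algebra M L] [Algebra N L] [IsScalarTower N M L]

/-! Chunk R8 (M). The tower formula. N <= M <= L. PROOF of r8_map: the exponent of Q in I 𝓞 L is e(Q/w) times the exponent of w in I, w the prime of M below Q: I = w^a J, J not contained in w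
(a = ex w I; FiniteMultiplicity.exists_eq_pow_mul_and_not_dvd), Ideal.map is multiplicative; ex Q (w 𝓞 L) = e(Q/w) (Ideal.IsDedekindDomain.ramificationIdx_eq_multiplicity, see i3_idx in
Lib/H55P/I3.lean), ex Q (J 𝓞 L) = 0: J 𝓞 L <= Q would give J <= w. PROOF of r8_tower: differentIdeal_eq_differentIdeal_mul_differentIdeal (𝓞 N) (𝓞 M) (𝓞 L), ex_mul, r8_map.
PROOF of r8_sub: for s : L ≃ₐ[M] L, s.restrictScalars N is in L ≃ₐ[N] L with the same action on 𝓞 L. PROOF of r8_main: r7_ex for L/N and for L/M (finrank M L is a power of p: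
Module.finrank_mul_finrank, Nat.dvd_prime_pow; IsGalois M L: IsGalois.tower_top_of_isGalois), r8_tower: 2 (e(Q/N) - 1) = 2 (e(Q/M) - 1) + e(Q/M) * d, e(Q/N) = e(w/N) e(Q/M)
(Ideal.ramificationIdx_tower; e ≥ 1), so d = 2 (e(w/N) - 1). -/

theorem r8_map (Q : HeightOneSpectrum (𝓞 L)) (w : HeightOneSpectrum (𝓞 M)) (hw : Q.asIdeal.under (𝓞 M) = w.asIdeal) (I : Ideal (𝓞 M)) (hI : I ≠ ⊥) :
    ex Q (I.map (algebraMap (𝓞 M) (𝓞 L))) = Q.asIdeal.ramificationIdx (𝓞 M) * ex w I := by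
  have hinj : Function.Injective (algebraMap (𝓞 M) (𝓞 L)) := FaithfulSMul.algebraMap_injective _ _
  have hb : ∀ J : Ideal (𝓞 M), J ≠ ⊥ → J.map (algebraMap (𝓞 M) (𝓞 L)) ≠ ⊥ :=
    fun J hJ h => hJ ((Ideal.map_eq_bot_iff_of_injective hinj).1 h)
  have hlo : Q.asIdeal.LiesOver w.asIdeal := ⟨hw.symm⟩
  have hQp := Q.isPrime
  obtain ⟨J, hJ, hJw⟩ := (ex_fin w hI).exists_eq_pow_mul_and_not_dvd
  have hJ0 : J ≠ ⊥ := by
    rintro rfl
    apply hI
    rw [hJ, Ideal.mul_bot]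
  have e1 : ex Q (w.asIdeal.map (algebraMap (𝓞 M) (𝓞 L))) = Q.asIdeal.ramificationIdx (𝓞 M) :=
    (Ideal.IsDedekindDomain.ramificationIdx_eq_multiplicity w.asIdeal Q.asIdeal
      (hb _ w.ne_bot)).symm
  have e2 : ex Q (J.map (algebraMap (𝓞 M) (𝓞 L))) = 0 := ex_zero Q fun h => hJw (by
    rw [Ideal.dvd_iff_le, ← hw]
    exact Ideal.map_le_iff_le_comap.1 h)
  have e3 : I.map (algebraMap (𝓞 M) (𝓞 L)) =
      (w.asIdeal.map (algebraMap (𝓞 M) (𝓞 L))) ^ (ex w I) * J.map (algebraMap (𝓞 M) (𝓞 L)) := by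
    have h := congrArg (Ideal.map (algebraMap (𝓞 M) (𝓞 L))) hJ
    rw [Ideal.map_mul, Ideal.map_pow] at h
    exact h
  rw [e3, ex_mul Q (pow_ne_zero _ (hb _ w.ne_bot)) (hb _ hJ0), ex_pow Q (hb _ w.ne_bot), e1, e2,
    add_zero, mul_comm]

theorem r8_tower (Q : HeightOneSpectrum (𝓞 L)) (w : HeightOneSpectrum (𝓞 M)) (hw : Q.asIdeal.under (𝓞 M) = w.asIdeal) :
    ex Q (differentIdeal (𝓞 N) (𝓞 L)) = ex Q (differentIdeal (𝓞 M) (𝓞 L)) +
      Q.asIdeal.ramificationIdx (𝓞 M) * ex w (differentIdeal (𝓞 N) (𝓞 M)) := by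
  have hinj : Function.Injective (algebraMap (𝓞 M) (𝓞 L)) := FaithfulSMul.algebraMap_injective _ _
  let _ : Algebra (FractionRing (𝓞 N)) (FractionRing (𝓞 L)) := FractionRing.liftAlgebra _ _
  have h : differentIdeal (𝓞 N) (𝓞 L) = differentIdeal (𝓞 M) (𝓞 L) *
      (differentIdeal (𝓞 N) (𝓞 M)).map (algebraMap (𝓞 M) (𝓞 L)) :=
    differentIdeal_eq_differentIdeal_mul_differentIdeal (𝓞 N) (𝓞 M) (𝓞 L)
  have h0 : (differentIdeal (𝓞 N) (𝓞 M)).map (algebraMap (𝓞 M) (𝓞 L)) ≠ ⊥ :=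
    fun h => different_ne ((Ideal.map_eq_bot_iff_of_injective hinj).1 h)
  rw [h, ex_mul Q different_ne h0, r8_map Q w hw _ different_ne]

theorem r8_sub (Q : Ideal (𝓞 L)) (h : G2 N Q) : G2 M Q := by
  intro s hs
  have h1 : s.restrictScalars N = 1 := h (s.restrictScalars N) fun x => hs x
  refine AlgEquiv.ext fun x => ?_
  exact DFunLike.congr_fun h1 x

/-- The exponent of the different in the layers of a p-extension with trivial second ramification groups. -/
theorem r8_main [IsGalois N L] (p : ℕ) (hp : p.Prime) (k : ℕ) (hk : Module.finrank N L = p ^ k) (Q : HeightOneSpectrum (𝓞 L))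
    (hpQ : (p : 𝓞 L) ∈ Q.asIdeal) (hG : G2 N Q.asIdeal) (w : HeightOneSpectrum (𝓞 M)) (hw : Q.asIdeal.under (𝓞 M) = w.asIdeal) :
    ex w (differentIdeal (𝓞 N) (𝓞 M)) = 2 * (w.asIdeal.ramificationIdx (𝓞 N) - 1) := by
  have hlo : Q.asIdeal.LiesOver w.asIdeal := ⟨hw.symm⟩
  have hQp := Q.isPrime
  have hgal : IsGalois M L := IsGalois.tower_top_of_isGalois N M L
  have hfin : Module.finrank M L ∣ p ^ k := by
    rw [← hk, ← Module.finrank_mul_finrank N M L]
    exact Dvd.intro_left _ rfl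
  obtain ⟨k', -, hk'⟩ := (Nat.dvd_prime_pow hp).1 hfin
  have h1 := r7_ex (N := N) p hp k hk Q hpQ hG
  have h2 := r7_ex (N := M) p hp k' hk' Q hpQ (r8_sub Q.asIdeal hG)
  have h3 := r8_tower (N := N) Q w hw
  have h4 := Ideal.ramificationIdx_tower (R := 𝓞 N) w.asIdeal Q.asIdeal
  rw [h1, h2, h4] at h3
  have h5 : 0 < Q.asIdeal.ramificationIdx (𝓞 M) := Ideal.ramificationIdx_pos _ _
  have hwp := w.isPrime
  have h6 : 0 < w.asIdeal.ramificationIdx (𝓞 N) := Ideal.ramificationIdx_pos _ _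
  obtain ⟨a, ha⟩ : ∃ a, Q.asIdeal.ramificationIdx (𝓞 M) = a + 1 := ⟨_, (Nat.succ_pred_eq_of_pos h5).symm⟩
  obtain ⟨b, hb⟩ : ∃ b, w.asIdeal.ramificationIdx (𝓞 N) = b + 1 := ⟨_, (Nat.succ_pred_eq_of_pos h6).symm⟩
  rw [ha, hb] at h3
  rw [hb, Nat.add_sub_cancel]
  have e : (b + 1) * (a + 1) - 1 = b * (a + 1) + a := by
    have : (b + 1) * (a + 1) = b * (a + 1) + a + 1 := by ring
    omega
  rw [e, Nat.add_sub_cancel] at h3
  have h7 : (a + 1) * (2 * b) = (a + 1) * ex w (differentIdeal (𝓞 N) (𝓞 M)) := by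
    have : 2 * (b * (a + 1) + a) = 2 * a + (a + 1) * (2 * b) := by ring
    omega
  exact (Nat.eq_of_mul_eq_mul_left (Nat.succ_pos a) h7).symm

end SSR
end
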