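import Mathlib
import Pool.Agent.Lib.H1M.PP2.D_H55P_Defs
import Pool.Agent.Lib.H1M.PP2.M002
import Pool.Agent.Lib.H1M.PP2.M009
import Pool.Agent.Lib.H1M.PP2.M010
import Pool.Agent.Lib.H1M.PP2.M017
import Pool.Agent.Lib.H1M.PP2.M024
import Pool.Agent.Lib.H1M.PP2.M025
import Pool.Agent.Lib.H1M.PP2.M033
import Pool.Agent.Lib.H1M.PP2.M035
import Pool.Agent.Lib.H1M.PP2.M036
import Pool.Agent.Lib.H1M.PP2.M048
import Pool.Agent.Lib.H1M.PP2.M054
import Pool.Agent.Lib.H1M.PP2.M063

/-! Merged copies (to shorten the build) of Lib.CFT.B15, Lib.H16D.A1, Lib.H16D.B2, Lib.H16D.A2, Lib.H16D.B3, Lib.H16D.A4, Lib.H16D.B5, Lib.H35M.SX2, Lib.H35M.SX3A, Lib.SSG.V.V3, Lib.SSG.V.V4, Lib.SSG.V.V5. -/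

-- from Lib.CFT.B15
section

/-! # CFT module B, chunk B15: moving lemma -/

open NumberField IsDedekindDomain

namespace CFT

variable {K : Type} [Field K] [NumberField K]


theorem b15_ex (v : Pr K) (k : ℤ) : ∃ a : K, a ≠ 0 ∧ od v a = k := by
  obtain ⟨π, hπ⟩ := v.valuation_exists_uniformizer K
  have h0 : π ≠ 0 := by
    rintro rfl
    rw [map_zero] at hπ
    exact WithZero.coe_ne_zero hπ.symm
  refine ⟨π ^ k, zpow_ne_zero _ h0, ?_⟩
  unfold od
  rw [map_zpow₀, hπ, WithZero.log_zpow, WithZero.log_exp]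
  simp


end CFT
end

-- from Lib.H16D.A1
section

/-! # H16D, chunk A1: (S) approximation -/

open NumberField IsDedekindDomain

namespace H16D

open CFT

variable {E : Type} [Field E] [NumberField E]

theorem a1_get (u : Pr E) (T : Finset (Pr E)) (hu : u ∉ T) (N : ℕ) (a : E) : ∃ α : E, Ray T N α ∧
    u.valuation E (α - a) < WithZero.exp (-(N : ℤ)) := by
  classical
  obtain ⟨α, hα0, hc, hs⟩ := approx (insert u T) N (fun v => if v = u then a else 1) (fun _ => 1)
    (fun _ => one_ne_zero)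
  refine ⟨α, ⟨hα0, fun v hv => ?_, fun φ => ?_⟩, ?_⟩
  · have h1 := hc v (Finset.mem_insert_of_mem hv)
    have h2 : v ≠ u := fun h => hu (h ▸ hv)
    simp only [if_neg h2] at h1
    exact h1
  · have h1 := hs φ
    rwa [mul_one] at h1
  · have h1 := hc u (Finset.mem_insert_self _ _)
    simp only [if_true] at h1
    exact h1

/-- PROOF. b15_ex u 1 (B15) gives a ≠ 0 with od u a = 1. approx (B14) with the finite set insert u T, the number max N 1, the function u ↦ a, other primes ↦ 1, and the signs 1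
gives α. At v in T (v ≠ u): the valuation of α - 1 is < exp(-max N 1) <= exp(-N). At u: the valuation of α - a is < exp(-1) = valuation of a (val_eq), so α has the valuation of a
(Valuation.map_sub_eq_of_lt_right or similar, α = a + (α - a)), od u α = 1 (definition of od). -/
theorem ap1 (u : Pr E) (T : Finset (Pr E)) (hu : u ∉ T) (N : ℕ) : ∃ α : E, Ray T N α ∧ od u α = 1 := by
  obtain ⟨a, ha0, hau⟩ := b15_ex u 1
  obtain ⟨α, hα, h1⟩ := a1_get u T hu (max N 1) a
  refine ⟨α, ⟨hα.ne, fun v hv => (hα.cong v hv).trans_le ?_, hα.pos⟩, ?_⟩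
  · rw [WithZero.exp_le_exp]
    have : N ≤ max N 1 := le_max_left _ _
    omega
  · have h2 : u.valuation E a = WithZero.exp (-1 : ℤ) := by rw [val_eq u ha0, hau]
    have h3 : u.valuation E (α - a) < u.valuation E a := by
      rw [h2]
      refine h1.trans_le ?_
      rw [WithZero.exp_le_exp]
      have : 1 ≤ max N 1 := le_max_right _ _
      omega
    have h4 : u.valuation E α = u.valuation E a := by
      have h5 := Valuation.map_add_eq_of_lt_right (u.valuation E) h3
      rw [sub_add_cancel] at h5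
      exact h5
    unfold od
    rw [h4, h2, WithZero.log_exp, neg_neg]

/-- PROOF. The same with b in place of a: approx with insert u T, max N M, u ↦ b, other primes ↦ 1, signs 1 gives α with valuation of α - b at u < exp(-max N M) <= exp(-M);
α / b - 1 = (α - b) / b and b has valuation 1 at u (val_eq, hb). -/
theorem ap2 (u : Pr E) (T : Finset (Pr E)) (hu : u ∉ T) (N M : ℕ) {b : E} (hb0 : b ≠ 0) (hb : od u b = 0) :
    ∃ α : E, Ray T N α ∧ u.valuation E (α / b - 1) < WithZero.exp (-(M : ℤ)) := by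
  obtain ⟨α, hα, h1⟩ := a1_get u T hu (max N M) b
  refine ⟨α, ⟨hα.ne, fun v hv => (hα.cong v hv).trans_le ?_, hα.pos⟩, ?_⟩
  · rw [WithZero.exp_le_exp]
    have : N ≤ max N M := le_max_left _ _
    omega
  · have h2 : u.valuation E b = 1 := by rw [val_eq u hb0, hb, neg_zero, WithZero.exp_zero]
    have h3 : α / b - 1 = (α - b) / b := by
      field_simp
    rw [h3, map_div₀, h2, div_one]
    refine h1.trans_le ?_
    rw [WithZero.exp_le_exp]
    have : M ≤ max N M := le_max_right _ _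
    omega

end H16D
end

-- from Lib.H16D.B2
section

/-! # H16D, chunk B2: (S/M) p-th roots in the residue field -/

open NumberField IsDedekindDomain

namespace H16D

open CFT

variable {K : Type} [Field K] [NumberField K]

/-- PROOF. Step 1: there is r in O_K with valuation of c - r < 1: approx (B14) is one way (x near c at v and x near 0 ... ), or frac_prime (B03, S = {v}; c = 0 clear; the hypothesis is 0 <= od v c): c = a/b with b not in v; the field O_K/v: b has an inverse b' mod v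
(Ideal.Quotient.field, v maximal: v.isMaximal; b b' - 1 in v), r = a b'. c - r = a (1 - b b') / b has valuation < 1 (valuation of elements of v is < 1: HeightOneSpectrum.valuation_lt_one_iff_mem or similar).
Step 2: the field k = O_K/v is finite (Ideal.finiteQuotientOfFreeOfNeBot) of characteristic p (p in v), so x ↦ x^p is injective on k (frobenius_inj, or (x-y)^p = x^p - y^p: sub_pow_char / CharP), so surjective (Finite.injective_iff_surjective):
a in O_K with a^p - r in v. The valuation of a^p - c is <= max of those of a^p - r and r - c: < 1. -/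
theorem rt1 {p : ℕ} (hp : p.Prime) (v : Pr K) (hpv : (p : 𝓞 K) ∈ v.asIdeal) (c : K) (hc : v.valuation K c ≤ 1) :
    ∃ a : K, v.valuation K a ≤ 1 ∧ v.valuation K (a ^ p - c) < 1 := by
  have hod : 0 ≤ od v c := by
    by_cases h0 : c = 0
    · rw [h0, od_zero]
    · rw [val_eq v h0, ← WithZero.exp_zero, WithZero.exp_le_exp] at hc
      omega
  obtain ⟨a0, b0, hb0, hcab, hbv⟩ := frac_prime ({v} : Finset (Pr K)) (x := c)
    (fun w hw => by rw [Finset.mem_singleton.1 hw]; exact hod)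
  have hb : b0 ∉ v.asIdeal := hbv v (Finset.mem_singleton_self v)
  obtain ⟨b', i, hi, hbi⟩ := v.isMaximal.exists_inv hb
  haveI : Finite (𝓞 K ⧸ v.asIdeal) := Ideal.finiteQuotientOfFreeOfNeBot _ v.ne_bot
  haveI : IsDomain (𝓞 K ⧸ v.asIdeal) := Ideal.Quotient.isDomain _
  haveI : Fact p.Prime := ⟨hp⟩
  haveI : CharP (𝓞 K ⧸ v.asIdeal) p := by
    rw [CharP.charP_iff_prime_eq_zero hp]
    have h1 : Ideal.Quotient.mk v.asIdeal (p : 𝓞 K) = 0 := Ideal.Quotient.eq_zero_iff_mem.2 hpv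
    rw [← h1]
    simp
  have hsurj : Function.Surjective (frobenius (𝓞 K ⧸ v.asIdeal) p) :=
    Finite.injective_iff_surjective.1 (frobenius_inj _ p)
  obtain ⟨s, hs⟩ := hsurj (Ideal.Quotient.mk v.asIdeal (a0 * b'))
  obtain ⟨a, ha⟩ := Ideal.Quotient.mk_surjective s
  rw [frobenius_def, ← ha, ← map_pow, Ideal.Quotient.eq] at hs
  have hmem : a ^ p * b0 - a0 ∈ v.asIdeal := by
    have h1 : a ^ p * b0 - a0 = (a ^ p - a0 * b') * b0 + (-a0) * i := by
      linear_combination a0 * hbi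
    rw [h1]
    exact v.asIdeal.add_mem (v.asIdeal.mul_mem_right _ hs) (v.asIdeal.mul_mem_left _ hi)
  refine ⟨(a : K), v.valuation_le_one a, ?_⟩
  have hbK : (b0 : K) ≠ 0 := fun h => hb0 (RingOfIntegers.coe_eq_zero_iff.1 h)
  have hval : v.valuation K (b0 : K) = 1 := by
    refine le_antisymm (v.valuation_le_one b0) ?_
    by_contra hlt
    exact hb ((v.valuation_lt_one_iff_mem b0).1 (not_le.1 hlt))
  have he : (a : K) ^ p - c = ((a ^ p * b0 - a0 : 𝓞 K) : K) / (b0 : K) := by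
    rw [hcab]
    push_cast
    field_simp
  rw [he, map_div₀, hval, div_one]
  exact (v.valuation_lt_one_iff_mem _).2 hmem

end H16D
end

-- from Lib.H16D.A2
section

/-! # H16D, chunk A2: (M, 4 small) totally ramified primes in an extension of prime degree -/

open NumberField IsDedekindDomain Pointwise

namespace H16D

open CFT

variable {K : Type} [Field K] [NumberField K] {L : Type} [Field L] [NumberField L] [Algebra K L]

/-- PROOF. hv gives w above v with ramification index e ≠ 1 (definition of Unr). e is the order of the inertia group (b16_card, B16), a subgroup of Gal(L/K), which has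
p elements (IsGalois.card_aut_eq_finrank), so e divides p and e = p. b09_sum (B09): the sum of e(w') f(w') over the primes w' above v (abv L v, mem_abv) is p; the term of w is
p f(w) with f(w) >= 1 (f_pos), the others are >= 1 (e_pos, f_pos): so f(w) = 1 and there are no others. -/
theorem ra1 [IsGalois K L] {p : ℕ} (hp : p.Prime) (hd : Module.finrank K L = p) {v : Pr K} (hv : ¬ Unr K L v) :
    ∃ w : Pr L, below K w = v ∧ (∀ w' : Pr L, below K w' = v → w' = w) ∧ w.asIdeal.ramificationIdx (𝓞 K) = p ∧ w.asIdeal.inertiaDeg (𝓞 K) = 1 := by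
  classical
  have hv' : ∃ w : Pr L, below K w = v ∧ w.asIdeal.ramificationIdx (𝓞 K) ≠ 1 := by
    by_contra hcon
    exact hv fun w hw => by
      by_contra he
      exact hcon ⟨w, hw, he⟩
  obtain ⟨w, hw, he⟩ := hv'
  have hcard : Nat.card (L ≃ₐ[K] L) = p := by rw [IsGalois.card_aut_eq_finrank, hd]
  have hdvd : w.asIdeal.ramificationIdx (𝓞 K) ∣ p := by
    rw [← b16_card (K := K) w, ← hcard]
    exact Subgroup.card_subgroup_dvd_card _
  have hep : w.asIdeal.ramificationIdx (𝓞 K) = p := ((Nat.dvd_prime hp).1 hdvd).resolve_left he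
  have hsum := b09_sum (L := L) v
  rw [hd] at hsum
  have hwv : w ∈ abv L v := (mem_abv v w).2 hw
  have hf1 := f_pos (K := K) w
  have hsplit := Finset.add_sum_erase (abv L v)
    (fun w' : Pr L => w'.asIdeal.ramificationIdx (𝓞 K) * w'.asIdeal.inertiaDeg (𝓞 K)) hwv
  rw [hsum, hep] at hsplit
  have hp0 := hp.pos
  have hle : p * 1 ≤ p * w.asIdeal.inertiaDeg (𝓞 K) := Nat.mul_le_mul_left p hf1
  have hrest : ∑ w' ∈ (abv L v).erase w, w'.asIdeal.ramificationIdx (𝓞 K) * w'.asIdeal.inertiaDeg (𝓞 K) = 0 := by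
    omega
  refine ⟨w, hw, fun w' hw' => ?_, hep, ?_⟩
  · by_contra hne
    have h1 := (Finset.sum_eq_zero_iff.1 hrest) w' (Finset.mem_erase.2 ⟨hne, (mem_abv v w').2 hw'⟩)
    have h2 := Nat.mul_pos (e_pos (K := K) w') (f_pos (K := K) w')
    omega
  · have h3 : p * w.asIdeal.inertiaDeg (𝓞 K) = p * 1 := by omega
    exact Nat.eq_of_mul_eq_mul_left hp0 h3

/-- PROOF. Let w' be the image of w under s (the ideal of the s x, x in w; below K w' = below K w; b17_trans in B17 and the lemmas there show how to write it), so w' = w by h: x in w iff s x in w,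
for x in O_L, and the same for powers: x in w^n iff s x in w^n (Ideal.map of the ring automorphism commutes with powers). For y in O_L, y ≠ 0, od w y >= n iff y in w^n (od_le_iff, B01), so od w (s y) = od w y.
General x = a / b (IsFractionRing.div_surjective), od_mul, od_inv; x = 0 is clear; val_eq. -/
theorem ra2 (w : Pr L) (h : ∀ w' : Pr L, below K w' = below K w → w' = w) (s : L ≃ₐ[K] L) (x : L) :
    w.valuation L (s x) = w.valuation L x := by
  have hI : ∀ y : 𝓞 L, y ∈ w.asIdeal ↔ s⁻¹ • y ∈ w.asIdeal := by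
    have hpr : (Ideal.comap (MulSemiringAction.toRingHom (L ≃ₐ[K] L) (𝓞 L) s⁻¹) w.asIdeal).IsPrime := by
      have := w.isPrime
      infer_instance
    have hne : Ideal.comap (MulSemiringAction.toRingHom (L ≃ₐ[K] L) (𝓞 L) s⁻¹) w.asIdeal ≠ ⊥ := by
      obtain ⟨y, hy, hy0⟩ := Submodule.exists_mem_ne_zero_of_ne_bot w.ne_bot
      intro hbot
      have h1 : s • y ∈ Ideal.comap (MulSemiringAction.toRingHom (L ≃ₐ[K] L) (𝓞 L) s⁻¹) w.asIdeal := by
        rw [Ideal.mem_comap]
        show s⁻¹ • s • y ∈ w.asIdeal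
        rwa [inv_smul_smul]
      rw [hbot, Ideal.mem_bot] at h1
      apply hy0
      have h2 : s⁻¹ • s • y = s⁻¹ • (0 : 𝓞 L) := by rw [h1]
      rwa [inv_smul_smul, smul_zero] at h2
    have h3 := h ⟨_, hpr, hne⟩ (by
      refine HeightOneSpectrum.ext ?_
      ext a
      show s⁻¹ • (algebraMap (𝓞 K) (𝓞 L) a) ∈ w.asIdeal ↔ algebraMap (𝓞 K) (𝓞 L) a ∈ w.asIdeal
      have e : s⁻¹ • (algebraMap (𝓞 K) (𝓞 L) a) = algebraMap (𝓞 K) (𝓞 L) a := by
        apply RingOfIntegers.ext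
        show s⁻¹ (algebraMap K L (a : K)) = algebraMap K L (a : K)
        exact AlgEquiv.commutes _ _
      rw [e])
    intro y
    have h4 : w.asIdeal = Ideal.comap (MulSemiringAction.toRingHom (L ≃ₐ[K] L) (𝓞 L) s⁻¹) w.asIdeal :=
      (congrArg HeightOneSpectrum.asIdeal h3).symm
    conv_lhs => rw [h4]
    rfl
  have hs : s • w.asIdeal = w.asIdeal := by
    ext y
    rw [Ideal.pointwise_smul_eq_comap, Ideal.mem_comap]
    exact (hI y).symm
  have hpow : ∀ (n : ℕ) (y : 𝓞 L), s • y ∈ w.asIdeal ^ n ↔ y ∈ w.asIdeal ^ n := by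
    intro n y
    have h5 : s • w.asIdeal ^ n = w.asIdeal ^ n := by rw [smul_pow', hs]
    conv_lhs => rw [← h5]
    exact Ideal.smul_mem_pointwise_smul_iff
  have hint : ∀ y : 𝓞 L, w.valuation L (s (y : L)) = w.valuation L (y : L) := by
    intro y
    by_cases hy : y = 0
    · subst hy
      have e : ((0 : 𝓞 L) : L) = 0 := map_zero _
      rw [e, map_zero, map_zero]
    have hy' : (y : L) ≠ 0 := fun h => hy (RingOfIntegers.coe_eq_zero_iff.1 h)
    have hsy : s • y ≠ 0 := by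
      intro h0
      apply hy
      have h2 : s⁻¹ • s • y = s⁻¹ • (0 : 𝓞 L) := by rw [h0]
      rwa [inv_smul_smul, smul_zero] at h2
    have hsy' : s (y : L) ≠ 0 := fun h0 => hy' ((map_eq_zero s).1 h0)
    have e : s (y : L) = ((s • y : 𝓞 L) : L) := rfl
    have h6 : ∀ n : ℕ, (n : ℤ) ≤ od w (s (y : L)) ↔ (n : ℤ) ≤ od w (y : L) := by
      intro n
      rw [e, od_le_iff w hsy n, od_le_iff w hy n, hpow]
    have h7 : 0 ≤ od w (y : L) := od_nonneg w y
    have h8 : 0 ≤ od w (s (y : L)) := by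
      rw [e]
      exact od_nonneg w _
    have h9 : od w (s (y : L)) = od w (y : L) := by
      refine le_antisymm ?_ ?_
      · have := (h6 (od w (s (y : L))).toNat).1 (by rw [Int.toNat_of_nonneg h8])
        rwa [Int.toNat_of_nonneg h8] at this
      · have := (h6 (od w (y : L)).toNat).2 (by rw [Int.toNat_of_nonneg h7])
        rwa [Int.toNat_of_nonneg h7] at this
    rw [val_eq w hsy', val_eq w hy', h9]
  obtain ⟨a, b, hb, rfl⟩ := IsFractionRing.div_surjective (A := 𝓞 L) x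
  rw [map_div₀, map_div₀, map_div₀]
  have ha1 := hint a
  have hb1 := hint b
  exact congrArg₂ (· / ·) ha1 hb1

/-- PROOF. z = 0: clear. Otherwise od v (N z) = (dv (N z)) v = (Nd K L (dv z)) v (Nd_dv, B07) = sum over abv L v of f(w') od w' z (Nd_apply, B09) = f(w) od w z = od w z, since w is the only prime above v = below K w;
val_eq for both (Algebra.norm_ne_zero_iff). -/
theorem ra3 (w : Pr L) (h : ∀ w' : Pr L, below K w' = below K w → w' = w) (hf : w.asIdeal.inertiaDeg (𝓞 K) = 1) (z : L) :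
    (below K w).valuation K (Algebra.norm K z) = w.valuation L z := by
  classical
  by_cases hz : z = 0
  · subst hz
    rw [Algebra.norm_zero, map_zero, map_zero]
  have hN : Algebra.norm K z ≠ 0 := Algebra.norm_ne_zero_iff.2 hz
  have h1 : od (below K w) (Algebra.norm K z) = od w z := by
    rw [← dv_apply, ← Nd_dv hz, Nd_apply]
    have h2 : abv L (below K w) = {w} := by
      ext w'
      rw [mem_abv, Finset.mem_singleton]
      constructor
      · exact h w'
      · rintro rfl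
        rfl
    rw [h2, Finset.sum_singleton, hf, dv_apply]
    push_cast
    ring
  rw [val_eq _ hN, val_eq _ hz, h1]


end H16D
end

-- from Lib.H16D.B3
section

/-! # H16D, chunk B3: (M) units at v are norms modulo v^t -/

open NumberField IsDedekindDomain

namespace H16D

open CFT

variable {K : Type} [Field K] [NumberField K] {L : Type} [Field L] [NumberField L] [Algebra K L]

theorem b3_lt (v : Pr K) (n : ℕ) {y : K} (h : v.valuation K y < WithZero.exp (-(n : ℤ))) :
    v.valuation K y ≤ WithZero.exp (-((n + 1 : ℕ) : ℤ)) := by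
  by_cases hy : y = 0
  · rw [hy, map_zero]
    exact zero_le
  · rw [val_lt_iff v hy] at h
    rw [val_eq v hy, WithZero.exp_le_exp]
    push_cast
    omega

theorem b3_exp_lt (n : ℕ) : (WithZero.exp (-((n + 1 : ℕ) : ℤ)) : WithZero (Multiplicative ℤ)) < 1 := by
  rw [← WithZero.exp_zero, WithZero.exp_lt_exp]
  push_cast
  omega

/-- PROOF. v = below K w; V = w.valuation L is invariant (ra2, A2, by hw), the valuation of N z at v is V z (ra3). Induction on n, 1 <= n <= t: there is β with V β = 1 (so β ≠ 0) and valuation of x / N β - 1 <= exp(-n).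
n = 1: rt1 (B2) with c = x: a in K with valuation of a^p - x < 1; so the valuation of a^p is that of x, 1, β = algebraMap a: N β = a^p (Algebra.norm_algebraMap, hd), V β = 1, x / a^p - 1 = (x - a^p) / a^p has valuation < 1, that is <= exp(-1)
(WithZero: < exp 0 implies <= exp(-1); val_lt_iff, B01 or WithZero.lt_exp... lemmas).
n -> n + 1 (n + 1 <= t): let x' = x / N β, c = x' - 1. Π in L with od w Π = 1 (b15_ex, B15), π = N Π has valuation exp(-1) at v (ra3), Π, π ≠ 0. rt1 with c / π^n (valuation <= 1): a in K, valuation <= 1 and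
valuation of a^p - c / π^n < 1. z = algebraMap a * Π^n: V z <= exp(-n) (ra4 or V (algebraMap a) <= 1), N z = a^p π^n, valuation of N z - c <= exp(-(n+1)). la1 (B1): N(1 + z) = 1 + N z + r with r of valuation <= exp(-(n+1)).
So N(1 + z) - x' = (N z - c) + r has valuation <= exp(-(n+1)); N(1+z) has valuation 1 (n >= 1: N z, r, have valuation < 1), V (1 + z) = 1, β' = β (1 + z): x / N β' - 1 = (x' - N(1+z)) / N(1+z). -/
theorem in1 [IsGalois K L] {p : ℕ} (hp : p.Prime) (hd : Module.finrank K L = p) (w : Pr L)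
    (hw : ∀ w' : Pr L, below K w' = below K w → w' = w) (hf : w.asIdeal.inertiaDeg (𝓞 K) = 1)
    (hpv : (p : 𝓞 K) ∈ (below K w).asIdeal) {t : ℕ} (ht : 1 ≤ t)
    (hT : ∀ (y : L) (j : ℕ), w.valuation L y ≤ WithZero.exp (-(j : ℤ)) →
      (below K w).valuation K (Algebra.trace K L y) ≤ WithZero.exp (-(((j + (p - 1) * (t + 1)) / p : ℕ) : ℤ)))
    (x : K) (hx : (below K w).valuation K x = 1) :
    ∃ β : L, w.valuation L β = 1 ∧ (below K w).valuation K (x / Algebra.norm K β - 1) ≤ WithZero.exp (-(t : ℤ)) := by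
  have hV : ∀ (s : L ≃ₐ[K] L) (y : L), w.valuation L (s y) = w.valuation L y := fun s y => ra2 w hw s y
  have hN : ∀ z : L, (below K w).valuation K (Algebra.norm K z) = w.valuation L z := fun z => ra3 w hw hf z
  have hal : ∀ a : K, w.valuation L (algebraMap K L a) = (below K w).valuation K a ^ p := by
    intro a
    rw [← hN, Algebra.norm_algebraMap, hd, map_pow]
  have main : ∀ n : ℕ, n + 1 ≤ t → ∃ β : L, w.valuation L β = 1 ∧
      (below K w).valuation K (x / Algebra.norm K β - 1) ≤ WithZero.exp (-((n + 1 : ℕ) : ℤ)) := by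
    intro n
    induction n with
    | zero =>
      intro _
      obtain ⟨a, ha1, ha2⟩ := rt1 hp (below K w) hpv x (le_of_eq hx)
      have h1 : (below K w).valuation K (a ^ p) = 1 := by
        rw [← hx]
        exact Valuation.map_eq_of_sub_lt _ (by rw [hx]; exact ha2)
      have h2 : w.valuation L (algebraMap K L a) = 1 := by
        rw [hal, ← map_pow, h1]
      refine ⟨algebraMap K L a, h2, ?_⟩
      have h3 : a ^ p ≠ 0 := by
        intro h
        rw [h, map_zero] at h1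
        exact zero_ne_one h1
      apply b3_lt (below K w) 0
      rw [Algebra.norm_algebraMap, hd]
      have h4 : x / a ^ p - 1 = -((a ^ p - x) / a ^ p) := by
        field_simp
        ring
      rw [h4, Valuation.map_neg, map_div₀, h1, div_one, Nat.cast_zero, neg_zero, WithZero.exp_zero]
      exact ha2
    | succ n ih =>
      intro hn
      obtain ⟨β, hβ1, hβ2⟩ := ih (by omega)
      obtain ⟨ϖ, hϖ0, hϖ⟩ := b15_ex w 1
      have hβN : (below K w).valuation K (Algebra.norm K β) = 1 := by rw [hN, hβ1]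
      have hβ0 : Algebra.norm K β ≠ 0 := by
        intro h
        rw [h, map_zero] at hβN
        exact zero_ne_one hβN
      have hϖV : w.valuation L ϖ = WithZero.exp (-1 : ℤ) := by
        rw [val_eq w hϖ0, hϖ]
      have hπV : (below K w).valuation K (Algebra.norm K ϖ) = WithZero.exp (-1 : ℤ) := by rw [hN, hϖV]
      have hπ0 : Algebra.norm K ϖ ≠ 0 := by
        intro h
        rw [h, map_zero] at hπV
        exact WithZero.exp_ne_zero hπV.symm
      have hpow : (WithZero.exp (-1 : ℤ) : WithZero (Multiplicative ℤ)) ^ (n + 1) = WithZero.exp (-((n + 1 : ℕ) : ℤ)) := by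
        rw [← WithZero.exp_nsmul]
        congr 1
        simp
      have hπn : (below K w).valuation K (Algebra.norm K ϖ ^ (n + 1)) = WithZero.exp (-((n + 1 : ℕ) : ℤ)) := by
        rw [map_pow, hπV, hpow]
      have hπn0 : Algebra.norm K ϖ ^ (n + 1) ≠ 0 := pow_ne_zero _ hπ0
      obtain ⟨c, hc⟩ : ∃ c : K, c = x / Algebra.norm K β - 1 := ⟨_, rfl⟩
      rw [← hc] at hβ2
      have hc1 : (below K w).valuation K (c / Algebra.norm K ϖ ^ (n + 1)) ≤ 1 := by
        rw [map_div₀, hπn]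
        exact div_le_one_of_le₀ hβ2 zero_le
      obtain ⟨a, ha1, ha2⟩ := rt1 hp (below K w) hpv _ hc1
      have hz1 : w.valuation L (algebraMap K L a * ϖ ^ (n + 1)) ≤ WithZero.exp (-((n + 1 : ℕ) : ℤ)) := by
        rw [map_mul, map_pow, hϖV, hpow, hal]
        exact mul_le_of_le_one_left' (pow_le_one' ha1 p)
      have hz2 : Algebra.norm K (algebraMap K L a * ϖ ^ (n + 1)) = a ^ p * Algebra.norm K ϖ ^ (n + 1) := by
        rw [map_mul, Algebra.norm_algebraMap, hd, map_pow]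
      have hz3 : (below K w).valuation K (Algebra.norm K (algebraMap K L a * ϖ ^ (n + 1)) - c) ≤ WithZero.exp (-((n + 1 + 1 : ℕ) : ℤ)) := by
        apply b3_lt (below K w) (n + 1)
        have h5 : Algebra.norm K (algebraMap K L a * ϖ ^ (n + 1)) - c = (a ^ p - c / Algebra.norm K ϖ ^ (n + 1)) * Algebra.norm K ϖ ^ (n + 1) := by
          rw [hz2, sub_mul, div_mul_cancel₀ _ hπn0]
        rw [h5, map_mul, hπn]
        exact mul_lt_of_lt_one_left (lt_of_le_of_ne zero_le (Ne.symm WithZero.exp_ne_zero)) ha2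
      have hla := la1 hp hd w (below K w) hV hT hn (algebraMap K L a * ϖ ^ (n + 1)) hz1
      obtain ⟨z, hz⟩ : ∃ z : L, z = algebraMap K L a * ϖ ^ (n + 1) := ⟨_, rfl⟩
      rw [← hz] at hz1 hz3 hla
      have hx' : x / Algebra.norm K β = 1 + c := by rw [hc]; ring
      have hk : (below K w).valuation K (Algebra.norm K (1 + z) - (1 + c)) ≤ WithZero.exp (-((n + 1 + 1 : ℕ) : ℤ)) := by
        have h5 : Algebra.norm K (1 + z) - (1 + c) = (Algebra.norm K (1 + z) - 1 - Algebra.norm K z) + (Algebra.norm K z - c) := by ring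
        rw [h5]
        exact Valuation.map_add_le _ hla hz3
      have hxV : (below K w).valuation K (1 + c) = 1 := by
        rw [← hx', map_div₀, hx, hβN, div_one]
      have hNz : (below K w).valuation K (Algebra.norm K (1 + z)) = 1 := by
        rw [← hxV]
        exact Valuation.map_eq_of_sub_lt _ (by rw [hxV]; exact lt_of_le_of_lt hk (b3_exp_lt (n + 1)))
      have hNz0 : Algebra.norm K (1 + z) ≠ 0 := by
        intro h
        rw [h, map_zero] at hNz
        exact zero_ne_one hNz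
      refine ⟨β * (1 + z), ?_, ?_⟩
      · rw [map_mul, hβ1, one_mul, ← hN, hNz]
      · have h6 : x / Algebra.norm K (β * (1 + z)) - 1 = -((Algebra.norm K (1 + z) - (1 + c)) / Algebra.norm K (1 + z)) := by
          rw [map_mul, ← div_div, hx']
          field_simp
          ring
        rw [h6, Valuation.map_neg, map_div₀, hNz, div_one]
        exact hk
  obtain ⟨m, rfl⟩ : ∃ m : ℕ, t = m + 1 := ⟨t - 1, by omega⟩
  exact main m le_rfl

end H16D
end

-- from Lib.H16D.A4
section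

/-! # H16D, chunk A4: (S/M) the residue field of the fixed field of a Frobenius element -/

open NumberField IsDedekindDomain

namespace H16D

open CFT

variable {K : Type} [Field K] [NumberField K] {E : Type} [Field E] [NumberField E] [Algebra K E]
  {M : Type} [Field M] [NumberField M] [Algebra K M] [Algebra E M] [IsScalarTower K E M]

/-- PROOF. Let v = below K W, u = below E W. For x in O_E: h x = x, so x - x^(Nm v) is in W, hence in u (the ideal of u is the inverse image of that of W). So every element of the field k = O_E / u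
satisfies X^(Nm v) = X; this polynomial has at most Nm v roots (Nm v >= 2: x11_two, X11; FiniteField.X_pow_card_sub_X_natDegree_eq, Polynomial.card_roots'), so card k = Nm u <= Nm v. But Nm u = (Nm (below K u))^f
(Nm_below, B06) with below K u = v (below_below, B08) and f >= 1 (f_pos): so f = 1. -/
theorem fd1 (W : Pr M) (h : M ≃ₐ[K] M) (hh : ∀ x : 𝓞 M, h • x - x ^ Nm (below K W) ∈ W.asIdeal)
    (hE : ∀ x : E, h (algebraMap E M x) = algebraMap E M x) : (below E W).asIdeal.inertiaDeg (𝓞 K) = 1 := by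
  classical
  have hN : 2 ≤ Nm (below K W) := x11_two K _
  have hfix : ∀ x : 𝓞 E, x - x ^ Nm (below K W) ∈ (below E W).asIdeal := by
    intro x
    have h1 := hh (algebraMap (𝓞 E) (𝓞 M) x)
    have h2 : h • (algebraMap (𝓞 E) (𝓞 M) x) = algebraMap (𝓞 E) (𝓞 M) x := by
      apply RingOfIntegers.ext
      exact hE (x : E)
    rw [h2] at h1
    change algebraMap (𝓞 E) (𝓞 M) (x - x ^ Nm (below K W)) ∈ W.asIdeal
    rwa [map_sub, map_pow]
  have hmax : (below E W).asIdeal.IsMaximal := (below E W).isMaximal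
  letI hfield : Field (𝓞 E ⧸ (below E W).asIdeal) := Ideal.Quotient.field (below E W).asIdeal
  have hcard : Nat.card (𝓞 E ⧸ (below E W).asIdeal) = Nm (below E W) := by
    unfold Nm
    rw [Ideal.absNorm_apply, Submodule.cardQuot_apply]
  have hpos : 0 < Nm (below E W) := Nm_pos _
  have hfin : Finite (𝓞 E ⧸ (below E W).asIdeal) := Nat.finite_of_card_ne_zero (by rw [hcard]; exact hpos.ne')
  have hft : Fintype (𝓞 E ⧸ (below E W).asIdeal) := Fintype.ofFinite _
  have hne : (Polynomial.X ^ Nm (below K W) - Polynomial.X : Polynomial (𝓞 E ⧸ (below E W).asIdeal)) ≠ 0 :=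
    FiniteField.X_pow_card_sub_X_ne_zero _ (by omega)
  have hdeg : (Polynomial.X ^ Nm (below K W) - Polynomial.X : Polynomial (𝓞 E ⧸ (below E W).asIdeal)).natDegree =
      Nm (below K W) := FiniteField.X_pow_card_sub_X_natDegree_eq _ (by omega)
  have hsub : (Finset.univ : Finset (𝓞 E ⧸ (below E W).asIdeal)) ⊆
      (Polynomial.X ^ Nm (below K W) - Polynomial.X : Polynomial (𝓞 E ⧸ (below E W).asIdeal)).roots.toFinset := by
    intro y _
    rw [Multiset.mem_toFinset, Polynomial.mem_roots hne, Polynomial.IsRoot.def, Polynomial.eval_sub,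
      Polynomial.eval_pow, Polynomial.eval_X]
    obtain ⟨x, rfl⟩ := Ideal.Quotient.mk_surjective y
    have h3 := hfix x
    rw [← Ideal.Quotient.eq_zero_iff_mem, map_sub, map_pow] at h3
    rw [← neg_sub, h3, neg_zero]
  have h4 := (Finset.card_le_card hsub).trans ((Multiset.toFinset_card_le _).trans (Polynomial.card_roots' _))
  rw [Finset.card_univ, hdeg, ← Nat.card_eq_fintype_card, hcard, Nm_below (K := K) (below E W), below_below] at h4
  have h5 := f_pos (K := K) (below E W)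
  by_contra hf
  have h6 : 2 ≤ (below E W).asIdeal.inertiaDeg (𝓞 K) := by omega
  have h7 : Nm (below K W) ^ 2 ≤ Nm (below K W) ^ (below E W).asIdeal.inertiaDeg (𝓞 K) :=
    Nat.pow_le_pow_right (by omega) h6
  nlinarith

end H16D
end

-- from Lib.H16D.B5
section

/-! # H16D, chunk B5: (S/M) the trace estimate in terms of valuations -/

open NumberField IsDedekindDomain

namespace H16D

open CFT

variable {K : Type} [Field K] [NumberField K] {L : Type} [Field L] [NumberField L] [Algebra K L]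

/-- PROOF. y = 0: clear. frac_prime (B03) in L, S = {w}, (0 <= od w y from hy, val_lt_iff / val_eq): y = a / b, b in O_L not in w. Let β = Algebra.intNorm (O_K) (O_L) b: b divides algebraMap β (Algebra.dvd_algebraMap_intNorm_self, or: the norm is the product of the conjugates), algebraMap β = b b',
and the valuation of β at v = below K w is that of b at w (ra3, A2; Algebra.algebraMap_intNorm), that is 1 (b not in w). z = a b' in O_L: z = β y in L, the valuation of z at w is that of y, <= exp(-j), so z is in w^j (od_le_iff, B01, or HeightOneSpectrum.valuation_le_pow_iff / intValuation_le_pow_iff_mem; z = 0 clear).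
h: intTrace z in v^(F j), so the valuation of Tr z (Algebra.algebraMap_intTrace) at v is <= exp(-F j); Tr z = β Tr y (linearity), and β has valuation 1. -/
theorem tr1 [IsGalois K L] (w : Pr L) (hw : ∀ w' : Pr L, below K w' = below K w → w' = w) (hf : w.asIdeal.inertiaDeg (𝓞 K) = 1) (F : ℕ → ℕ)
    (h : ∀ (n : ℕ) (z : 𝓞 L), z ∈ w.asIdeal ^ n → Algebra.intTrace (𝓞 K) (𝓞 L) z ∈ (below K w).asIdeal ^ F n) (y : L) (j : ℕ)
    (hy : w.valuation L y ≤ WithZero.exp (-(j : ℤ))) :
    (below K w).valuation K (Algebra.trace K L y) ≤ WithZero.exp (-(F j : ℤ)) := by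
  by_cases hy0 : y = 0
  · rw [hy0, map_zero, map_zero]
    exact zero_le
  have hod : (j : ℤ) ≤ od w y := by
    rw [val_eq w hy0, WithZero.exp_le_exp] at hy
    omega
  obtain ⟨a, b, hb0, hyab, hb⟩ := frac_prime (K := L) ({w} : Finset (Pr L)) (x := y) (by
    intro v hv
    rw [Finset.mem_singleton] at hv
    rw [hv]
    omega)
  have hbw := hb w (Finset.mem_singleton_self w)
  obtain ⟨b', hb'⟩ := Algebra.dvd_algebraMap_intNorm_self (𝓞 K) (𝓞 L) b
  have hbL : (b : L) ≠ 0 := fun h => hb0 (RingOfIntegers.coe_eq_zero_iff.1 h)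
  have hβ1 : algebraMap (𝓞 K) K (Algebra.intNorm (𝓞 K) (𝓞 L) b) = Algebra.norm K (b : L) :=
    Algebra.algebraMap_intNorm b
  generalize Algebra.intNorm (𝓞 K) (𝓞 L) b = β at hb' hβ1
  have hvb : w.valuation L (b : L) = 1 := by
    refine le_antisymm (w.valuation_le_one b) (not_lt.1 fun hlt => hbw ?_)
    have h1 : w.valuation L (algebraMap (𝓞 L) L b) < 1 := hlt
    rw [HeightOneSpectrum.valuation_lt_one_iff_dvd] at h1
    exact Ideal.dvd_span_singleton.1 h1
  have hvβ : (below K w).valuation K (algebraMap (𝓞 K) K β) = 1 := by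
    rw [hβ1, ra3 w hw hf, hvb]
  have hβv : β ∉ (below K w).asIdeal := by
    intro h1
    have h2 : (below K w).valuation K (algebraMap (𝓞 K) K β) < 1 := by
      rw [HeightOneSpectrum.valuation_lt_one_iff_dvd]
      exact Ideal.dvd_span_singleton.2 h1
    rw [hvβ] at h2
    exact lt_irrefl _ h2
  have hwβ : w.valuation L (algebraMap (𝓞 L) L (algebraMap (𝓞 K) (𝓞 L) β)) = 1 := by
    refine le_antisymm (w.valuation_le_one _) (not_lt.1 fun hlt => hβv ?_)
    rw [HeightOneSpectrum.valuation_lt_one_iff_dvd] at hlt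
    have h9 : algebraMap (𝓞 K) (𝓞 L) β ∈ w.asIdeal := Ideal.dvd_span_singleton.1 hlt
    exact h9
  have hcomm : algebraMap (𝓞 L) L (algebraMap (𝓞 K) (𝓞 L) β) = algebraMap K L (algebraMap (𝓞 K) K β) := by
    rw [← IsScalarTower.algebraMap_apply (𝓞 K) (𝓞 L) L, ← IsScalarTower.algebraMap_apply (𝓞 K) K L]
  have hz : algebraMap (𝓞 L) L (a * b') = algebraMap K L (algebraMap (𝓞 K) K β) * y := by
    rw [← hcomm, hb', map_mul, map_mul, hyab]
    have hbL' : algebraMap (𝓞 L) L b ≠ 0 := hbL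
    show algebraMap (𝓞 L) L a * algebraMap (𝓞 L) L b' =
      algebraMap (𝓞 L) L b * algebraMap (𝓞 L) L b' * (algebraMap (𝓞 L) L a / algebraMap (𝓞 L) L b)
    field_simp
  have hzw : a * b' ∈ w.asIdeal ^ j := by
    rw [← w.intValuation_le_pow_iff_mem (a * b') j, ← w.valuation_of_algebraMap (K := L) (a * b')]
    have h9 : w.valuation L (algebraMap (𝓞 L) L (a * b')) ≤ WithZero.exp (-(j : ℤ)) := by
      rw [hz, map_mul, ← hcomm, hwβ, one_mul]
      exact hy
    exact h9
  have h1 := h j (a * b') hzw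
  have h2 := ((below K w).intValuation_le_pow_iff_mem _ (F j)).2 h1
  rw [← (below K w).valuation_of_algebraMap (K := K)] at h2
  have h8 : (below K w).valuation K (algebraMap (𝓞 K) K (Algebra.intTrace (𝓞 K) (𝓞 L) (a * b'))) ≤
    WithZero.exp (-(F j : ℤ)) := h2
  rw [Algebra.algebraMap_intTrace (K := K) (L := L), hz] at h8
  have h3 : Algebra.trace K L (algebraMap K L (algebraMap (𝓞 K) K β) * y) = algebraMap (𝓞 K) K β * Algebra.trace K L y := by
    rw [← Algebra.smul_def, map_smul, smul_eq_mul]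
  rw [h3, map_mul, hvβ, one_mul] at h8
  exact h8

end H16D
end

-- from Lib.H35M.SX2
section

/-! # H35M, chunk SX2: ramified primes above p in a Galois extension of degree p are totally wildly ramified -/

open NumberField IsDedekindDomain

namespace H35M

open SSR
open H55R (es)

variable {N : Type} [Field N] [NumberField N] {L : Type} [Field L] [NumberField L] [Algebra N L]

omit [NumberField N] [NumberField L] in
theorem sx2_mono {Q : Ideal (𝓞 L)} {m n : ℕ} (h : m ≤ n) {s : L ≃ₐ[N] L} (hs : Gp Q n s) : Gp Q m s :=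
  fun x => Ideal.pow_le_pow_right h (hs x)

omit [NumberField N] [NumberField L] in
/-- If the inertia condition holds for s, powers of Q are stable. -/
theorem sx2_stab {Q : Ideal (𝓞 L)} {s : L ≃ₐ[N] L} (h1 : Gp Q 1 s) (n : ℕ) {y : 𝓞 L} (hy : y ∈ Q ^ n) : s • y ∈ Q ^ n := by
  have h2 : Q.map (MulSemiringAction.toRingHom (L ≃ₐ[N] L) (𝓞 L) s) ≤ Q := by
    rw [Ideal.map_le_iff_le_comap]
    intro x hx
    show s • x ∈ Q
    have h3 := h1 x
    rw [pow_one] at h3
    have h4 : s • x = (s • x - x) + x := by ring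
    rw [h4]
    exact Q.add_mem h3 hx
  have h5 : (Q ^ n).map (MulSemiringAction.toRingHom (L ≃ₐ[N] L) (𝓞 L) s) ≤ Q ^ n := by
    rw [Ideal.map_pow]
    exact Ideal.pow_right_mono h2 n
  exact h5 (Ideal.mem_map_of_mem (MulSemiringAction.toRingHom (L ≃ₐ[N] L) (𝓞 L) s) hy)

omit [NumberField N] [NumberField L] in
theorem sx2_pow {Q : Ideal (𝓞 L)} {s : L ≃ₐ[N] L} {n : ℕ} (h1 : Gp Q 1 s) (h : Gp Q n s) (k : ℕ) : Gp Q n (s ^ k) := by
  induction k with
  | zero =>
    intro x
    rw [pow_zero, one_smul, sub_self]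
    exact (Q ^ n).zero_mem
  | succ k ih =>
    intro x
    have e : s ^ (k + 1) • x - x = s • (s ^ k • x - x) + (s • x - x) := by
      rw [smul_sub, pow_succ', mul_smul]
      ring
    rw [e]
    exact (Q ^ n).add_mem (sx2_stab h1 n (ih x)) (h x)

theorem exists_TRam [IsGalois N L] {p : ℕ} (hp : p.Prime) (hn : Module.finrank N L = p) (v : HeightOneSpectrum (𝓞 N)) (hv : es N L v ≠ 1)
    (hpv : (p : 𝓞 N) ∈ v.asIdeal) : ∃ (t : ℕ) (w : HeightOneSpectrum (𝓞 L)), TRam p v w t := by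
  classical
  have hcard : Nat.card (L ≃ₐ[N] L) = p := by rw [IsGalois.card_aut_eq_finrank, hn]
  have hunr : ¬ CFT.Unr N L v := by
    intro h
    obtain ⟨w, hw⟩ := CFT.below_surj (K := N) (L := L) v
    apply hv
    have hwm := w.isMaximal
    have hwp := w.isPrime
    have hvm := v.isMaximal
    have hl : w.asIdeal.LiesOver v.asIdeal := ⟨by rw [← hw]; rfl⟩
    show v.asIdeal.ramificationIdxIn (𝓞 L) = 1
    rw [Ideal.ramificationIdxIn_eq_ramificationIdx v.asIdeal w.asIdeal (L ≃ₐ[N] L)]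
    exact h w hw
  obtain ⟨w, hw1, hw2, hw3, hw4⟩ := H16D.ra1 hp hn hunr
  have hwv : w.asIdeal.under (𝓞 N) = v.asIdeal := by rw [← hw1]; rfl
  have hpw : (p : 𝓞 L) ∈ w.asIdeal := by
    rw [← hwv, Ideal.under_def, Ideal.mem_comap, map_natCast] at hpv
    exact hpv
  -- all automorphisms are in the inertia group
  have hin : ∀ s : L ≃ₐ[N] L, Gp w.asIdeal 1 s := by
    have h1 := r6_card (N := N) w
    rw [hw3] at h1
    intro s
    by_contra hs
    have h2 : Nat.card {s : L ≃ₐ[N] L // Gp w.asIdeal 1 s} < Nat.card (L ≃ₐ[N] L) :=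
      Finite.card_subtype_lt hs
    rw [h1, hcard] at h2
    exact lt_irrefl _ h2
  have hsp : ∀ s : L ≃ₐ[N] L, s ^ p ^ 1 = 1 := by
    intro s
    rw [pow_one, ← hcard]
    exact pow_card_eq_one'
  have hin2 : ∀ s : L ≃ₐ[N] L, Gp w.asIdeal 2 s := fun s => r5_wild p hp w hpw s 1 (hsp s) (hin s)
  have hmap0 : v.asIdeal.map (algebraMap (𝓞 N) (𝓞 L)) ≠ ⊥ := by
    rw [Ne, Ideal.map_eq_bot_iff_of_injective (FaithfulSMul.algebraMap_injective _ _)]
    exact v.ne_bot
  have hex : ex w (v.asIdeal.map (algebraMap (𝓞 N) (𝓞 L))) = p := by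
    rw [r8_map w v hwv v.asIdeal v.ne_bot, hw3]
    have h1 : ex v v.asIdeal = 1 := by
      have h2 := ex_pow v (I := v.asIdeal) v.ne_bot 1
      have h3 : 1 ≤ ex v v.asIdeal := by
        rw [← le_iff_ex v v.ne_bot, pow_one]
      have h4 : ¬ 2 ≤ ex v v.asIdeal := by
        rw [← le_iff_ex v v.ne_bot]
        intro h5
        have h6 : v.asIdeal ^ 2 < v.asIdeal ^ 1 := Ideal.pow_right_strictAnti v.asIdeal v.ne_bot v.isPrime.ne_top (by norm_num)
        rw [pow_one] at h6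
        exact absurd h5 (not_le_of_gt h6)
      omega
    rw [h1, mul_one]
  have hmap : v.asIdeal.map (algebraMap (𝓞 N) (𝓞 L)) = w.asIdeal ^ p := by
    obtain ⟨c, hc, hc2⟩ := (ex_fin w hmap0).exists_eq_pow_mul_and_not_dvd
    have hc1 : c = 1 := by
      by_contra hne
      rw [Ideal.one_eq_top] at hne
      obtain ⟨m, hm, hle⟩ := Ideal.exists_le_maximal c hne
      have hmm : v.asIdeal.map (algebraMap (𝓞 N) (𝓞 L)) ≤ m := by
        rw [hc]
        exact Ideal.mul_le_right.trans hle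
      have hm0 : m ≠ ⊥ := fun h0 => hmap0 (le_bot_iff.1 (h0 ▸ hmm))
      have h1 : CFT.below N (⟨m, hm.isPrime, hm0⟩ : CFT.Pr L) = v := by
        apply HeightOneSpectrum.ext
        show m.under (𝓞 N) = v.asIdeal
        have h2 : v.asIdeal ≤ m.under (𝓞 N) := Ideal.le_comap_of_map_le hmm
        have hmp := hm.isPrime
        exact (v.isMaximal.eq_of_le (Ideal.IsPrime.ne_top (Ideal.IsPrime.under (𝓞 N) m)) h2).symm
      have h3 := hw2 _ h1
      apply hc2
      rw [Ideal.dvd_iff_le, ← h3]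
      exact hle
    rw [hc1, mul_one] at hc
    have h1 : multiplicity w.asIdeal (v.asIdeal.map (algebraMap (𝓞 N) (𝓞 L))) = p := hex
    rw [h1] at hc
    exact hc
  -- a nontrivial automorphism
  obtain ⟨s₀, hs₀⟩ : ∃ s₀ : L ≃ₐ[N] L, s₀ ≠ 1 := by
    by_contra h
    push Not at h
    have : Subsingleton (L ≃ₐ[N] L) := ⟨fun a b => by rw [h a, h b]⟩
    have h1 : Nat.card (L ≃ₐ[N] L) = 1 := Nat.card_of_subsingleton (1 : L ≃ₐ[N] L)
    rw [hcard] at h1
    exact hp.one_lt.ne' h1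
  obtain ⟨n, hn1, hn2⟩ := r4_ex w s₀ hs₀
  have hn3 : 2 ≤ n := by
    by_contra h
    exact hn2 (sx2_mono (by omega) (hin2 s₀))
  have key : ∀ a b : L ≃ₐ[N] L, a ≠ 1 → ∃ k : ℕ, a ^ k = b := by
    intro a b ha
    have : Fact p.Prime := ⟨hp⟩
    have h1 : b ∈ Subgroup.zpowers a := mem_zpowers_of_prime_card (p := p) hcard ha
    have hfin : Finite (L ≃ₐ[N] L) := inferInstance
    exact (mem_powers_iff_mem_zpowers.2 h1)
  have hall : ∀ s : L ≃ₐ[N] L, s ≠ 1 → Gp w.asIdeal n s ∧ ¬ Gp w.asIdeal (n + 1) s := by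
    intro s hs
    constructor
    · obtain ⟨k, rfl⟩ := key s₀ s hs₀
      exact sx2_pow (hin s₀) hn1 k
    · intro h
      obtain ⟨k, hk⟩ := key s s₀ hs
      apply hn2
      rw [← hk]
      exact sx2_pow (hin s) h k
  have hdif := r4_hilb w (fun _ => n) hall
  rw [Finset.sum_const, Finset.card_erase_of_mem (Finset.mem_univ _), Finset.card_univ, ← Nat.card_eq_fintype_card, hcard, smul_eq_mul] at hdif
  refine ⟨n - 1, w, hpv, hmap, by omega, ?_⟩
  rw [hdif]
  congr 1
  omega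

end H35M
end

-- from Lib.H35M.SX3A
section

/-! # H35M, SX3A: three local components; no real embeddings -/

open NumberField IsDedekindDomain

namespace H35M

open H55P

variable {K : Type} [Field K] [NumberField K] {p : ℕ} {χ : Ideal (𝓞 K) →*₀ ℂ}

omit [NumberField K] in
/-- A multiplicative character modulo a product of coprime ideals. -/
theorem sx3_mc {f1 f2 : Ideal (𝓞 K)} (h12 : IsCoprime f1 f2) (η : MulChar (𝓞 K ⧸ f1 * f2) ℂ) (hη : η ^ p = 1) :
    ∃ (χ1 : MulChar (𝓞 K ⧸ f1) ℂ) (χ2 : MulChar (𝓞 K ⧸ f2) ℂ), χ1 ^ p = 1 ∧ χ2 ^ p = 1 ∧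
      ∀ x : 𝓞 K, η (Ideal.Quotient.mk (f1 * f2) x) = χ1 (Ideal.Quotient.mk f1 x) * χ2 (Ideal.Quotient.mk f2 x) := by
  have hη2 : ∀ w : (𝓞 K ⧸ f1 * f2)ˣ, η w ^ p = 1 := by
    intro w
    rw [← MulChar.pow_apply_coe, hη, MulChar.one_apply_coe]
  obtain ⟨e, he⟩ : ∃ e : (𝓞 K ⧸ f1 * f2) ≃+* (𝓞 K ⧸ f1) × (𝓞 K ⧸ f2), e = Ideal.quotientMulEquivQuotientProd f1 f2 h12 := ⟨_, rfl⟩
  have hemk : ∀ x : 𝓞 K, e (Ideal.Quotient.mk (f1 * f2) x) = (Ideal.Quotient.mk f1 x, Ideal.Quotient.mk f2 x) := by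
    intro x
    rw [he]
    rfl
  have hnu : ∀ w : (𝓞 K ⧸ f1) × (𝓞 K ⧸ f2), ¬ IsUnit w → η (e.symm w) = 0 := by
    intro w hw
    apply η.map_nonunit
    intro hu
    apply hw
    have := hu.map e
    rwa [e.apply_symm_apply] at this
  have hu1 : ∀ u : (𝓞 K ⧸ f1) × (𝓞 K ⧸ f2), IsUnit u → η (e.symm u) ^ p = 1 := by
    intro u hu
    obtain ⟨w, hw⟩ := hu.map e.symm
    rw [← hw]
    exact hη2 w
  refine ⟨{ toFun := fun u => η (e.symm (u, 1))
            map_one' := ?_
            map_mul' := ?_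
            map_nonunit' := ?_ },
    { toFun := fun u => η (e.symm (1, u))
      map_one' := ?_
      map_mul' := ?_
      map_nonunit' := ?_ }, ?_, ?_, ?_⟩
  · rw [← Prod.one_eq_mk, map_one, map_one]
  · intro u v
    rw [← map_mul, ← map_mul, Prod.mk_mul_mk, one_mul]
  · intro u hu
    apply hnu
    rw [Prod.isUnit_iff]
    exact fun h => hu h.1
  · rw [← Prod.one_eq_mk, map_one, map_one]
  · intro u v
    rw [← map_mul, ← map_mul, Prod.mk_mul_mk, one_mul]
  · intro u hu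
    apply hnu
    rw [Prod.isUnit_iff]
    exact fun h => hu h.2
  · apply MulChar.ext
    intro u
    rw [MulChar.pow_apply_coe, MulChar.one_apply_coe]
    exact hu1 ((u : 𝓞 K ⧸ f1), 1) (Prod.isUnit_iff.2 ⟨u.isUnit, isUnit_one⟩)
  · apply MulChar.ext
    intro u
    rw [MulChar.pow_apply_coe, MulChar.one_apply_coe]
    exact hu1 (1, (u : 𝓞 K ⧸ f2)) (Prod.isUnit_iff.2 ⟨isUnit_one, u.isUnit⟩)
  · intro x
    have h1 : Ideal.Quotient.mk (f1 * f2) x = e.symm (Ideal.Quotient.mk f1 x, 1) * e.symm (1, Ideal.Quotient.mk f2 x) := by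
      rw [← map_mul, Prod.mk_mul_mk, mul_one, one_mul, ← hemk, e.symm_apply_apply]
    rw [h1, map_mul]
    rfl

/-- Three local components. -/
theorem sx3_split (hp : p ≠ 0) {f1 f2 f3 : Ideal (𝓞 K)} (h12 : IsCoprime f1 f2) (h13 : IsCoprime f1 f3) (h23 : IsCoprime f2 f3)
    (h : PCh p (f1 * f2 * f3) χ) :
    ∃ (χ1 : MulChar (𝓞 K ⧸ f1) ℂ) (χ2 : MulChar (𝓞 K ⧸ f2) ℂ) (χ3 : MulChar (𝓞 K ⧸ f3) ℂ), χ1 ^ p = 1 ∧ χ2 ^ p = 1 ∧ χ3 ^ p = 1 ∧
      ∀ x : 𝓞 K, x ≠ 0 → χ (Ideal.span {x}) =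
        χ1 (Ideal.Quotient.mk f1 x) * χ2 (Ideal.Quotient.mk f2 x) * χ3 (Ideal.Quotient.mk f3 x) := by
  obtain ⟨χ1, η, h1, h2, h3⟩ := ls_split hp (mul_assoc f1 f2 f3) (h12.mul_right h13) h
  obtain ⟨χ2, χ3, h4, h5, h6⟩ := sx3_mc h23 η h2
  refine ⟨χ1, χ2, χ3, h1, h4, h5, fun x hx => ?_⟩
  rw [h3 x hx, h6 x, mul_assoc]

/-- An extension of an imaginary quadratic field has no real embedding. -/
theorem sx3_real (F : Type) [Field F] [NumberField F] [IQ F] (K : Type) [Field K] [NumberField K] [Algebra F K] : IsEmpty (K →+* ℝ) := by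
  classical
  refine ⟨fun φ => ?_⟩
  let ψ : F →+* ℂ := Complex.ofRealHom.comp (φ.comp (algebraMap F K))
  let c : F →+* ℂ := (starRingEnd ℂ).comp (embF F)
  obtain ⟨x, hx⟩ := IQ.im (F := F)
  have hx' : (embF F x).im ≠ 0 := hx
  have hψ : (ψ x).im = 0 := Complex.ofReal_im _
  have h1 : Fintype.card (F →+* ℂ) = 2 := by
    rw [NumberField.Embeddings.card F ℂ]
    exact IQ.deg
  have h2 : embF F ≠ c := by
    intro h
    have h3 : (embF F x).im = (c x).im := by rw [← h]
    have h4 : (c x).im = -(embF F x).im := Complex.conj_im _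
    rw [h4] at h3
    apply hx'
    linarith
  have h3 : ψ ≠ embF F := by
    intro h
    rw [h] at hψ
    exact hx' hψ
  have h4 : ψ ≠ c := by
    intro h
    rw [h] at hψ
    have h5 : (c x).im = -(embF F x).im := Complex.conj_im _
    rw [h5] at hψ
    apply hx'
    linarith
  have h5 : ({ψ, embF F, c} : Finset (F →+* ℂ)).card = 3 := by
    rw [Finset.card_insert_of_notMem, Finset.card_insert_of_notMem, Finset.card_singleton]
    · rw [Finset.mem_singleton]
      exact h2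
    · rw [Finset.mem_insert, Finset.mem_singleton, not_or]
      exact ⟨h3, h4⟩
  have h6 := Finset.card_le_univ ({ψ, embF F, c} : Finset (F →+* ℂ))
  rw [h5, h1] at h6
  omega

end H35M
end

-- from Lib.SSG.V.V3
section

/-! # SSG, part V: labels adapted to the radical, modulo one prime of F

Chunk V3 (M/L). β is an O_F-basis of the ideal b (hrep, hdual: β' is the dual basis), r an ideal of O_K, nilpotent modulo the prime π of F. PROOF. k = O_F / (π) (a field: Ideal.Quotient.field, (π) is maximal: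
PrincipalIdealRing / Ideal.IsPrime.isMaximal). For t in O_K let t β_j = sum_i a(t) i j β_i (hrep; unique by hdual: a(t) i j = Tr(t β_j β'_i)), a is additive, a(t t') = a(t) a(t'), a(1) = 1, and a(t) = 0 mod π for t in
the ideal (π) (t = π t'). V = (Fin (m+1) → k), T_t : V → V, (T_t y) j = sum_i y i * mk (a(t) i j): k-linear, T_(t t') = T_t ∘ T_t' (commutative), T_1 = id. S = {T_t | t in r}: a product of e of them is T_t with t in r^e ≤ (π), so
it is 0. V1 gives the basis v of V; Y s k := Quotient.out (v s k) (V2 for the conclusion): for t s = 1 + t', t' in r, T_(t s) (v s) - v s = T_t' (v s) is in the span of the later ones, so (V2) the vectors T_(t s) (v s) are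
linearly independent, and they are the rows of W modulo π: Tr(β_j t_s sum_k Y s k β'_k) = sum_k (sum ..) = sum_i Y s i a(t_s) i j (L2F_pair with x = the coordinates of t_s β_j). So det W is not 0 in k
(Matrix.linearIndependent_rows_iff_isUnit, RingHom.map_det). -/

open NumberField IsDedekindDomain

namespace SSG.V

open H55N H55P

variable {F : Type} [Field F] [NumberField F] [IQ F] {K : Type} [Field K] [NumberField K]
  [Algebra F K] {m : ℕ}

theorem v3_inj (β : Fin (m + 1) → 𝓞 K) (β' : Fin (m + 1) → K)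
    (hdual : ∀ j k, Algebra.trace F K ((β j : K) * β' k) = if j = k then 1 else 0)
    {x y : Fin (m + 1) → 𝓞 F}
    (h : ∑ j, algebraMap (𝓞 F) (𝓞 K) (x j) * β j = ∑ j, algebraMap (𝓞 F) (𝓞 K) (y j) * β j) : x = y := by
  funext k
  have h1 := L2F_pair β β' hdual x (Pi.single k 1)
  have h2 := L2F_pair β β' hdual y (Pi.single k 1)
  rw [h, h2] at h1
  have h3 := (FaithfulSMul.algebraMap_injective (𝓞 F) F) h1
  simp only [Pi.single_apply, mul_ite, mul_one, mul_zero, Finset.sum_ite_eq', Finset.mem_univ, if_true] at h3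
  exact h3.symm

theorem v3_mat (b : Ideal (𝓞 K)) (β : Fin (m + 1) → 𝓞 K) (β' : Fin (m + 1) → K) (hβ : ∀ j, β j ∈ b)
    (hdual : ∀ j k, Algebra.trace F K ((β j : K) * β' k) = if j = k then 1 else 0)
    (hrep : ∀ x ∈ b, ∃ y : Fin (m + 1) → (𝓞 F), x = ∑ j, algebraMap (𝓞 F) (𝓞 K) (y j) * β j) :
    ∃ a : 𝓞 K → Matrix (Fin (m + 1)) (Fin (m + 1)) (𝓞 F), (∀ t j, t * β j = ∑ i, algebraMap (𝓞 F) (𝓞 K) (a t i j) * β i) ∧
      a 1 = 1 ∧ (∀ t t', a (t * t') = a t * a t') ∧ (∀ t t', a (t + t') = a t + a t') ∧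
      ∀ (c : 𝓞 F) (t : 𝓞 K), a (algebraMap (𝓞 F) (𝓞 K) c * t) = c • a t := by
  choose y hy using fun (t : 𝓞 K) (j : Fin (m + 1)) => hrep (t * β j) (b.mul_mem_left t (hβ j))
  have key : ∀ (t : 𝓞 K) (j : Fin (m + 1)) (z : Fin (m + 1) → 𝓞 F), t * β j = ∑ i, algebraMap (𝓞 F) (𝓞 K) (z i) * β i → y t j = z :=
    fun t j z h => v3_inj β β' hdual ((hy t j).symm.trans h)
  refine ⟨fun t => Matrix.of fun i j => y t j i, fun t j => hy t j, ?_, ?_, ?_, ?_⟩
  · refine Matrix.ext fun i j => ?_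
    have h := key 1 j (Pi.single j 1) (by
      rw [one_mul, Finset.sum_eq_single j]
      · rw [Pi.single_eq_same, map_one, one_mul]
      · intro i _ hij
        rw [Pi.single_eq_of_ne hij, map_zero, zero_mul]
      · intro h
        exact absurd (Finset.mem_univ j) h)
    show y 1 j i = _
    rw [h, Matrix.one_apply, Pi.single_apply]
  · intro t t'
    refine Matrix.ext fun l j => ?_
    have h := key (t * t') j (fun l => ∑ i, y t i l * y t' j i) (by
      rw [mul_assoc, hy t' j, Finset.mul_sum]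
      have h1 : ∀ i, t * (algebraMap (𝓞 F) (𝓞 K) (y t' j i) * β i) =
          ∑ l, algebraMap (𝓞 F) (𝓞 K) (y t i l * y t' j i) * β l := by
        intro i
        rw [mul_left_comm, hy t i, Finset.mul_sum]
        refine Finset.sum_congr rfl fun l _ => ?_
        rw [map_mul]
        ring
      rw [Finset.sum_congr rfl fun i _ => h1 i, Finset.sum_comm]
      refine Finset.sum_congr rfl fun l _ => ?_
      rw [map_sum, Finset.sum_mul])
    show y (t * t') j l = _
    rw [h, Matrix.mul_apply]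
    rfl
  · intro t t'
    refine Matrix.ext fun l j => ?_
    have h := key (t + t') j (y t j + y t' j) (by
      rw [add_mul, hy t j, hy t' j, ← Finset.sum_add_distrib]
      refine Finset.sum_congr rfl fun l _ => ?_
      rw [Pi.add_apply, map_add, add_mul])
    show y (t + t') j l = _
    rw [h]
    rfl
  · intro c t
    refine Matrix.ext fun l j => ?_
    have h := key (algebraMap (𝓞 F) (𝓞 K) c * t) j (c • y t j) (by
      rw [mul_assoc, hy t j, Finset.mul_sum]
      refine Finset.sum_congr rfl fun l _ => ?_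
      rw [Pi.smul_apply, smul_eq_mul, map_mul, mul_assoc])
    show y (algebraMap (𝓞 F) (𝓞 K) c * t) j l = _
    rw [h]
    rfl

theorem adapted_coord (b : Ideal (𝓞 K)) (β : Fin (m + 1) → 𝓞 K) (β' : Fin (m + 1) → K) (hβ : ∀ j, β j ∈ b)
    (hdual : ∀ j k, Algebra.trace F K ((β j : K) * β' k) = if j = k then 1 else 0)
    (hrep : ∀ x ∈ b, ∃ y : Fin (m + 1) → (𝓞 F), x = ∑ j, algebraMap (𝓞 F) (𝓞 K) (y j) * β j)
    (π : 𝓞 F) (hπ : Prime π) (r : Ideal (𝓞 K)) (e : ℕ) (hr : r ^ e ≤ Ideal.span {algebraMap (𝓞 F) (𝓞 K) π}) :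
    ∃ Y : Fin (m + 1) → Fin (m + 1) → 𝓞 F, ∀ Y' : Fin (m + 1) → Fin (m + 1) → 𝓞 F, (∀ s j, π ∣ Y' s j - Y s j) →
      ∀ t : Fin (m + 1) → 𝓞 K, (∀ s, t s - 1 ∈ r) → ∀ W : Matrix (Fin (m + 1)) (Fin (m + 1)) (𝓞 F),
        (∀ s j, Algebra.trace F K ((β j : K) * ((t s : K) * ∑ k, (algebraMap (𝓞 F) F (Y' s k)) • β' k)) = (W s j : F)) →
        ¬ π ∣ W.det := by
  classical
  obtain ⟨a, ha, ha1, hamul, haadd, hasm⟩ := v3_mat b β β' hβ hdual hrep
  have hprime : (Ideal.span {π}).IsPrime := (Ideal.span_singleton_prime hπ.ne_zero).2 hπ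
  have hmax : (Ideal.span {π}).IsMaximal := hprime.isMaximal (by rw [Ne, Ideal.span_singleton_eq_bot]; exact hπ.ne_zero)
  let _ : Field (𝓞 F ⧸ Ideal.span {π}) := Ideal.Quotient.field _
  let φ : 𝓞 F →+* 𝓞 F ⧸ Ideal.span {π} := Ideal.Quotient.mk (Ideal.span {π})
  have hφ : ∀ x, φ x = 0 ↔ π ∣ x := by
    intro x
    rw [← Ideal.mem_span_singleton]
    exact Ideal.Quotient.eq_zero_iff_mem
  let T : 𝓞 K → ((Fin (m + 1) → 𝓞 F ⧸ Ideal.span {π}) →ₗ[𝓞 F ⧸ Ideal.span {π}] (Fin (m + 1) → 𝓞 F ⧸ Ideal.span {π})) :=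
    fun t => (φ.mapMatrix (a t)).vecMulLinear
  have hT : ∀ t y, T t y = Matrix.vecMul y (φ.mapMatrix (a t)) := fun _ _ => rfl
  have hT1 : T 1 = 1 := by
    apply LinearMap.ext
    intro y
    rw [hT, ha1, map_one, Matrix.vecMul_one]
    rfl
  have hTmul : ∀ t t', T t * T t' = T (t' * t) := by
    intro t t'
    apply LinearMap.ext
    intro y
    rw [Module.End.mul_apply, hT, hT, hT, hamul, map_mul, Matrix.vecMul_vecMul]
  have hlist : ∀ l : List ((Fin (m + 1) → 𝓞 F ⧸ Ideal.span {π}) →ₗ[𝓞 F ⧸ Ideal.span {π}] (Fin (m + 1) → 𝓞 F ⧸ Ideal.span {π})),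
      (∀ N ∈ l, N ∈ {N | ∃ t ∈ r, T t = N}) → ∃ t ∈ r ^ l.length, l.prod = T t := by
    intro l
    induction l with
    | nil =>
      intro _
      refine ⟨1, ?_, ?_⟩
      · rw [List.length_nil, pow_zero, Ideal.one_eq_top]
        exact Submodule.mem_top
      · rw [List.prod_nil, hT1]
    | cons N l ih =>
      intro h
      obtain ⟨t, ht, hN⟩ := h N List.mem_cons_self
      obtain ⟨t', ht', hl⟩ := ih fun N' hN' => h N' (List.mem_cons_of_mem _ hN')
      refine ⟨t' * t, ?_, ?_⟩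
      · rw [List.length_cons, pow_succ]
        exact Ideal.mul_mem_mul ht' ht
      · rw [List.prod_cons, hl, ← hN, hTmul]
  have hnil : ∀ l : List ((Fin (m + 1) → 𝓞 F ⧸ Ideal.span {π}) →ₗ[𝓞 F ⧸ Ideal.span {π}] (Fin (m + 1) → 𝓞 F ⧸ Ideal.span {π})),
      (∀ N ∈ l, N ∈ {N | ∃ t ∈ r, T t = N}) → l.length = e → l.prod = 0 := by
    intro l hl he
    obtain ⟨t, ht, hlt⟩ := hlist l hl
    rw [he] at ht
    obtain ⟨t', ht'⟩ := Ideal.mem_span_singleton.1 (hr ht)
    rw [hlt, ht']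
    apply LinearMap.ext
    intro y
    rw [hT, hasm]
    have h0 : φ.mapMatrix (π • a t') = 0 := by
      ext i j
      rw [RingHom.mapMatrix_apply, Matrix.map_apply, Matrix.smul_apply, smul_eq_mul, map_mul, (hφ π).2 dvd_rfl, zero_mul]
      rfl
    rw [h0, Matrix.vecMul_zero]
    rfl
  obtain ⟨v, hv⟩ := adapted (m + 1) (Fin (m + 1) → 𝓞 F ⧸ Ideal.span {π}) (by rw [Module.finrank_fin_fun]) _ e hnil
  choose Y hY using fun (s j : Fin (m + 1)) => Ideal.Quotient.mk_surjective (v s j)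
  refine ⟨Y, fun Y' hY' t ht W hW hdvd => ?_⟩
  have hW1 : ∀ s j, W s j = ∑ i, a (t s) i j * Y' s i := by
    intro s j
    apply FaithfulSMul.algebraMap_injective (𝓞 F) F
    have h1 := L2F_pair β β' hdual (fun i => a (t s) i j) (Y' s)
    rw [← ha (t s) j, L2F_coe_mul] at h1
    rw [← h1]
    refine (hW s j).symm.trans ?_
    congr 1
    ring
  have hw : ∀ s, (φ.mapMatrix W) s = T (t s) (v s) := by
    intro s
    funext j
    rw [RingHom.mapMatrix_apply, Matrix.map_apply, hW1, map_sum, hT]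
    show _ = ∑ i, v s i * φ (a (t s) i j)
    refine Finset.sum_congr rfl fun i _ => ?_
    rw [map_mul, mul_comm]
    congr 1
    rw [← hY s i]
    have h1 : φ (Y' s i - Y s i) = 0 := (hφ _).2 (hY' s i)
    rw [map_sub, sub_eq_zero] at h1
    exact h1
  have hind : LinearIndependent (𝓞 F ⧸ Ideal.span {π}) (fun s => T (t s) (v s)) := by
    refine unitri v _ fun s => ?_
    have h1 : T (t s) (v s) - v s = T (t s - 1) (v s) := by
      have h2 : T (t s) (v s) = T (t s - 1) (v s) + T 1 (v s) := by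
        rw [hT, hT, hT, ← Matrix.vecMul_add, ← map_add, ← haadd, sub_add_cancel]
      rw [h2, hT1, Module.End.one_apply, add_sub_cancel_right]
    rw [h1]
    exact hv _ ⟨t s - 1, ht s, rfl⟩ s
  have hrow : LinearIndependent (𝓞 F ⧸ Ideal.span {π}) (φ.mapMatrix W).row := by
    have h1 : (φ.mapMatrix W).row = fun s => T (t s) (v s) := funext hw
    rw [h1]
    exact hind
  have hunit := (Matrix.isUnit_iff_isUnit_det _).1 (Matrix.linearIndependent_rows_iff_isUnit.1 hrow)
  rw [← RingHom.map_det, (hφ _).2 hdvd] at hunit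
  exact not_isUnit_zero hunit

end SSG.V
end

-- from Lib.SSG.V.V4
section

/-! # SSG, part V: labels adapted to the radical, modulo all primes above p

Chunk V4 (S/M). PROOF. The prime ideals P of O_F containing p are finitely many (factors of (p): Ideal.finite_factors or UniqueFactorizationMonoid / (Ideal.span {p}) ≠ ⊥ has finitely many prime divisors; they are maximal,
pairwise coprime, each generated by a prime element π_P: PrincipalIdealRing). V3 for each π_P (r^e ≤ (p) ≤ (π_P)) gives Y_P; by the Chinese remainder theorem (Ideal.exists_forall_sub_mem_ideal or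
IsDedekindDomain.exists_forall_sub_mem_ideal) there is Y with Y s j = Y_P s j mod P for all P; then for all Y' = Y mod p: π_P divides Y' - Y_P. IsCoprime W.det p: isCoprime_of_prime_dvd (a prime z dividing both generates one of
the P, so it is associated to π_P). -/

open NumberField IsDedekindDomain

namespace SSG.V

open H55N H55P

variable {F : Type} [Field F] [NumberField F] [IQ F] {K : Type} [Field K] [NumberField K]
  [Algebra F K] {m : ℕ}

theorem adapted_all (p : ℕ) (hp : p.Prime) (b : Ideal (𝓞 K)) (β : Fin (m + 1) → 𝓞 K) (β' : Fin (m + 1) → K) (hβ : ∀ j, β j ∈ b)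
    (hdual : ∀ j k, Algebra.trace F K ((β j : K) * β' k) = if j = k then 1 else 0)
    (hrep : ∀ x ∈ b, ∃ y : Fin (m + 1) → (𝓞 F), x = ∑ j, algebraMap (𝓞 F) (𝓞 K) (y j) * β j)
    (r : Ideal (𝓞 K)) (e : ℕ) (hr : r ^ e ≤ Ideal.span {(p : 𝓞 K)}) :
    ∃ Y : Fin (m + 1) → Fin (m + 1) → 𝓞 F, ∀ Y' : Fin (m + 1) → Fin (m + 1) → 𝓞 F, (∀ s j, (p : 𝓞 F) ∣ Y' s j - Y s j) →
      ∀ t : Fin (m + 1) → 𝓞 K, (∀ s, t s - 1 ∈ r) → ∀ W : Matrix (Fin (m + 1)) (Fin (m + 1)) (𝓞 F),
        (∀ s j, Algebra.trace F K ((β j : K) * ((t s : K) * ∑ k, (algebraMap (𝓞 F) F (Y' s k)) • β' k)) = (W s j : F)) →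
        IsCoprime W.det (p : 𝓞 F) := by
  classical
  have hp0 : (p : 𝓞 F) ≠ 0 := Nat.cast_ne_zero.2 hp.ne_zero
  have hI0 : Ideal.span {(p : 𝓞 F)} ≠ ⊥ := by
    rw [Ne, Ideal.span_singleton_eq_bot]
    exact hp0
  have hfac : ∀ P : Ideal (𝓞 F), P ∈ (UniqueFactorizationMonoid.normalizedFactors
      (Ideal.span {(p : 𝓞 F)})).toFinset ↔ P.IsPrime ∧ Ideal.span {(p : 𝓞 F)} ≤ P := by
    intro P
    rw [Multiset.mem_toFinset, Ideal.mem_normalizedFactors_iff hI0]
  have hY : ∀ P : {P : Ideal (𝓞 F) // P ∈ (UniqueFactorizationMonoid.normalizedFactors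
      (Ideal.span {(p : 𝓞 F)})).toFinset}, ∃ (π : 𝓞 F) (Y : Fin (m + 1) → Fin (m + 1) → 𝓞 F),
      P.1 = Ideal.span {π} ∧ π ∣ (p : 𝓞 F) ∧
      ∀ Y' : Fin (m + 1) → Fin (m + 1) → 𝓞 F, (∀ s j, π ∣ Y' s j - Y s j) →
      ∀ t : Fin (m + 1) → 𝓞 K, (∀ s, t s - 1 ∈ r) → ∀ W : Matrix (Fin (m + 1)) (Fin (m + 1)) (𝓞 F),
        (∀ s j, Algebra.trace F K ((β j : K) * ((t s : K) * ∑ k, (algebraMap (𝓞 F) F (Y' s k)) • β' k)) = (W s j : F)) →
        ¬ π ∣ W.det := by
    rintro ⟨P, hP⟩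
    obtain ⟨hP1, hP2⟩ := (hfac P).1 hP
    obtain ⟨π, hπ⟩ := (IsPrincipalIdealRing.principal P).principal
    have hπ' : P = Ideal.span {π} := hπ
    have h1 : π ∣ (p : 𝓞 F) := by
      rw [← Ideal.mem_span_singleton, ← hπ']
      exact hP2 (Ideal.mem_span_singleton_self _)
    have h2 : π ≠ 0 := by
      rintro rfl
      exact hp0 (zero_dvd_iff.1 h1)
    have h3 : Prime π := by
      rw [← Ideal.span_singleton_prime h2, ← hπ']
      exact hP1
    have h4 : r ^ e ≤ Ideal.span {algebraMap (𝓞 F) (𝓞 K) π} := by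
      refine hr.trans ?_
      rw [Ideal.span_singleton_le_span_singleton]
      have h5 := map_dvd (algebraMap (𝓞 F) (𝓞 K)) h1
      rw [map_natCast] at h5
      exact h5
    obtain ⟨Y, hY⟩ := adapted_coord b β β' hβ hdual hrep π h3 r e h4
    exact ⟨π, Y, hπ', h1, hY⟩
  choose π Y hπ1 hπ2 hY using hY
  have hcrt : ∀ s j : Fin (m + 1), ∃ y : 𝓞 F, ∀ (P : Ideal (𝓞 F)) (hP : P ∈ (UniqueFactorizationMonoid.normalizedFactors
      (Ideal.span {(p : 𝓞 F)})).toFinset), y - Y ⟨P, hP⟩ s j ∈ P := by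
    intro s j
    obtain ⟨y, hy⟩ := IsDedekindDomain.exists_forall_sub_mem_ideal (fun P : Ideal (𝓞 F) => P) (fun _ => 1)
      (s := (UniqueFactorizationMonoid.normalizedFactors (Ideal.span {(p : 𝓞 F)})).toFinset)
      (fun P hP => by
        obtain ⟨hP1, hP2⟩ := (hfac P).1 hP
        apply Ideal.prime_of_isPrime _ hP1
        rintro rfl
        exact hI0 (le_bot_iff.1 hP2))
      (fun P _ Q _ h => h) (fun P => Y P s j)
    refine ⟨y, fun P hP => ?_⟩
    have h1 := hy P hP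
    rw [pow_one] at h1
    exact h1
  choose y hy using hcrt
  refine ⟨y, fun Y' hY' t ht W hW => ?_⟩
  apply isCoprime_of_prime_dvd (fun h => hp0 h.2)
  intro z hz hz1 hz2
  have h1 : Ideal.span {z} ∈ (UniqueFactorizationMonoid.normalizedFactors
      (Ideal.span {(p : 𝓞 F)})).toFinset := by
    rw [hfac]
    refine ⟨(Ideal.span_singleton_prime hz.ne_zero).2 hz, ?_⟩
    rw [Ideal.span_singleton_le_span_singleton]
    exact hz2
  have h2 := hπ1 ⟨_, h1⟩
  have h3 : π ⟨_, h1⟩ ∣ z := by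
    rw [← Ideal.mem_span_singleton, ← h2]
    exact Ideal.mem_span_singleton_self _
  refine hY ⟨_, h1⟩ Y' ?_ t ht W hW (h3.trans hz1)
  intro s j
  have h4 : π ⟨_, h1⟩ ∣ y s j - Y ⟨_, h1⟩ s j := by
    rw [← Ideal.mem_span_singleton, ← h2]
    exact hy s j _ h1
  have h5 : Y' s j - Y ⟨_, h1⟩ s j = (Y' s j - y s j) + (y s j - Y ⟨_, h1⟩ s j) := by ring
  rw [h5]
  exact dvd_add ((hπ2 ⟨_, h1⟩).trans (hY' s j)) h4

end SSG.V
end

-- from Lib.SSG.V.V5
section

/-! # SSG, part V: labels and units for an ideal r which is nilpotent modulo p -/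

open NumberField IsDedekindDomain

namespace SSG.V

open H55N H55P
open H55B (g)

variable {F : Type} [Field F] [NumberField F] [IQ F] {K : Type} [Field K] [NumberField K]
  [Algebra F K] {m : ℕ}

/-- Labels for units which are 1 modulo r l, r nilpotent modulo p. -/
theorem labels_exist2 (hm : Module.finrank F K = m + 1) (p : ℕ) (hp : p.Prime) (l : 𝓞 F)
    (hl : Prime l) (hlp : IsCoprime l (p : 𝓞 F)) (b : Ideal (𝓞 K)) (hb : b ≠ ⊥)
    (c₀ : 𝓞 K) (hc : c₀ ∈ b) (hc' : c₀ ∉ Ideal.span {algebraMap (𝓞 F) (𝓞 K) l} * b)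
    (u : Fin m → (𝓞 K)ˣ) (r : Ideal (𝓞 K)) (e : ℕ) (hr : r ^ e ≤ Ideal.span {(p : 𝓞 K)})
    (hur : ∀ z, (uu u z : 𝓞 K) - 1 ∈ r)
    (hul : ∀ z, (uu u z : 𝓞 K) - 1 ∈ Ideal.span {algebraMap (𝓞 F) (𝓞 K) l}) :
    ∃ L : (Fin m → ℤ) → K, LabP p l b c₀ u L := by
  classical
  obtain ⟨β, β', hβ, hdual, hrep, hind⟩ := dual_basis hm b hb
  obtain ⟨c, hcc⟩ := hrep c₀ hc
  -- a coordinate not divisible by l
  obtain ⟨j₀, hj₀⟩ : ∃ j₀, ¬ l ∣ c j₀ := by
    by_contra hcon
    push Not at hcon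
    choose c' hc'' using hcon
    apply hc'
    rw [Ideal.mem_span_singleton_mul]
    refine ⟨∑ j, algebraMap (𝓞 F) (𝓞 K) (c' j) * β j, b.sum_mem fun j _ => b.mul_mem_left _ (hβ j), ?_⟩
    rw [hcc, Finset.mul_sum]
    refine Finset.sum_congr rfl fun j _ => ?_
    rw [hc'' j, map_mul]
    ring
  have hcop : IsCoprime l ((p : 𝓞 F) * c j₀) :=
    IsCoprime.mul_right hlp ((Prime.coprime_iff_not_dvd hl).2 hj₀)
  obtain ⟨a', b', hab⟩ := hcop
  obtain ⟨Y0, hY0⟩ := adapted_all p hp b β β' hβ hdual hrep r e hr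
  -- the coordinate vectors
  let Yv : Fin (m + 1) → Fin (m + 1) → 𝓞 F := fun s j =>
    Y0 s j + (p : 𝓞 F) * (b' * (1 - ∑ i, c i * Y0 s i) * if j₀ = j then 1 else 0)
  have hYone : ∀ s, ∑ j, c j * Yv s j = 1 + l * (-(a' * (1 - ∑ i, c i * Y0 s i))) := by
    intro s
    have h1 : ∑ j, c j * Yv s j = (∑ i, c i * Y0 s i) + (p : 𝓞 F) * (b' * (1 - ∑ i, c i * Y0 s i)) * c j₀ := by
      simp only [Yv, mul_add, Finset.sum_add_distrib]
      congr 1
      rw [Finset.sum_eq_single j₀]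
      · rw [if_pos rfl]; ring
      · intro j _ hj
        rw [if_neg hj.symm]; ring
      · intro h
        exact absurd (Finset.mem_univ _) h
    rw [h1]
    linear_combination (1 - ∑ i, c i * Y0 s i) * hab
  have hYp : ∀ s j, (p : 𝓞 F) ∣ Yv s j - Y0 s j := fun s j =>
    ⟨b' * (1 - ∑ i, c i * Y0 s i) * if j₀ = j then 1 else 0, by simp only [Yv]; ring⟩
  have hW := hY0 Yv hYp
  let L0 : Fin (m + 1) → K := fun s => ∑ k, (algebraMap (𝓞 F) F (Yv s k)) • β' k
  have hL0 : ∀ (x : Fin (m + 1) → 𝓞 F) (s : Fin (m + 1)),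
      Algebra.trace F K (((∑ j, algebraMap (𝓞 F) (𝓞 K) (x j) * β j : 𝓞 K) : K) * L0 s) =
        algebraMap (𝓞 F) F (∑ j, x j * Yv s j) := fun x s => L2F_pair β β' hdual x (Yv s)
  have hL0b : ∀ x ∈ b, ∀ s, ∃ y : 𝓞 F, Algebra.trace F K ((x : K) * L0 s) = algebraMap (𝓞 F) F y := by
    intro x hx s
    obtain ⟨y, hy⟩ := hrep x hx
    exact ⟨_, by rw [hy]; exact hL0 y s⟩
  let L : (Fin m → ℤ) → K := fun a =>
    ((uu u (fun i => a i / ((m + 1 : ℕ) : ℤ)) : 𝓞 K) : K) * L0 (L2_col a)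
  -- the action of the units modulo l
  have hmod : ∀ (x : 𝓞 K) (_ : x ∈ b) (z : Fin m → ℤ) (s : Fin (m + 1)), ∃ w : 𝓞 F,
      Algebra.trace F K ((x : K) * (((uu u z : 𝓞 K) : K) * L0 s)) =
        Algebra.trace F K ((x : K) * L0 s) + algebraMap (𝓞 F) F (l * w) := by
    intro x hx z s
    obtain ⟨t, ht⟩ := Ideal.mem_span_singleton.1 (hul z)
    obtain ⟨w, hw⟩ := hL0b (t * x) (b.mul_mem_left _ hx) s
    refine ⟨w, ?_⟩
    have h1 : (uu u z : 𝓞 K) = 1 + algebraMap (𝓞 F) (𝓞 K) l * t := by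
      linear_combination ht
    have h2 : (x : K) * (((uu u z : 𝓞 K) : K) * L0 s) =
        (x : K) * L0 s + ((algebraMap (𝓞 F) (𝓞 K) l : 𝓞 K) : K) *
          (((t * x : 𝓞 K) : K) * L0 s) := by
      rw [h1]
      have h3 : ((1 + algebraMap (𝓞 F) (𝓞 K) l * t : 𝓞 K) : K) =
          1 + ((algebraMap (𝓞 F) (𝓞 K) l : 𝓞 K) : K) * (t : K) := by
        rw [L2F_coe_add, L2F_coe_mul]
        rfl
      rw [h3, L2F_coe_mul]
      ring
    rw [h2, map_add, L2F_trace_mul, hw, ← map_mul (algebraMap (𝓞 F) F)]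
  refine ⟨L, ⟨?_, ?_, ?_, ?_⟩⟩
  · intro a z
    have hn : ((m + 1 : ℕ) : ℤ) ≠ 0 := by positivity
    have h1 : L2_col (a + ((m + 1 : ℕ) : ℤ) • z) = L2_col a := by
      apply L2_col_eq
      have : ∑ i, (a + ((m + 1 : ℕ) : ℤ) • z) i = ∑ i, a i + ((m + 1 : ℕ) : ℤ) * ∑ i, z i := by
        simp only [Pi.add_apply, Pi.smul_apply, smul_eq_mul, Finset.sum_add_distrib, Finset.mul_sum]
      rw [this, Int.add_mul_emod_self_left]
    have h2 : (fun i => (a + ((m + 1 : ℕ) : ℤ) • z) i / ((m + 1 : ℕ) : ℤ)) =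
        (fun i => a i / ((m + 1 : ℕ) : ℤ)) + z := by
      funext i
      simp only [Pi.add_apply, Pi.smul_apply, smul_eq_mul]
      rw [Int.add_mul_ediv_left _ _ hn]
    show ((uu u (fun i => (a + ((m + 1 : ℕ) : ℤ) • z) i / ((m + 1 : ℕ) : ℤ)) : 𝓞 K) : K) *
      L0 (L2_col (a + ((m + 1 : ℕ) : ℤ) • z)) = _
    rw [h1, h2, L2F_uu_add, Units.val_mul, L2F_coe_mul]
    show _ = ((uu u z : 𝓞 K) : K) *
      (((uu u (fun i => a i / ((m + 1 : ℕ) : ℤ)) : 𝓞 K) : K) * L0 (L2_col a))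
    ring
  · intro a x hx
    have h1 : (x : K) * L a =
        ((x * (uu u (fun i => a i / ((m + 1 : ℕ) : ℤ)) : 𝓞 K) : 𝓞 K) : K) * L0 (L2_col a) := by
      rw [L2F_coe_mul, mul_assoc]
    rw [h1]
    exact hL0b _ (b.mul_mem_right _ hx) _
  · intro a
    obtain ⟨w, hw⟩ := hmod c₀ hc (fun i => a i / ((m + 1 : ℕ) : ℤ)) (L2_col a)
    have h1 := hL0 c (L2_col a)
    rw [← hcc, hYone] at h1
    refine ⟨-(a' * (1 - ∑ i, c i * Y0 (L2_col a) i)) + w, ?_⟩
    show Algebra.trace F K ((c₀ : K) *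
      (((uu u (fun i => a i / ((m + 1 : ℕ) : ℤ)) : 𝓞 K) : K) * L0 (L2_col a))) = _
    rw [hw, h1, ← map_add]
    congr 1
    ring
  · intro a π
    let s : Equiv.Perm (Fin (m + 1)) := Equiv.ofBijective _ (L2_bij a π)
    have hs : ∀ k, s k = L2_col (kv a π k) := fun k => rfl
    -- the matrix of the coordinates
    have hY : ∀ k j : Fin (m + 1), ∃ W : 𝓞 F, Algebra.trace F K ((β j : K) * L (kv a π k)) =
        algebraMap (𝓞 F) F W := by
      intro k j
      have h1 : ((β j : 𝓞 K) : K) * L (kv a π k) =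
          ((β j * (uu u (fun i => kv a π k i / ((m + 1 : ℕ) : ℤ)) : 𝓞 K) : 𝓞 K) : K) * L0 (L2_col (kv a π k)) := by
        rw [L2F_coe_mul, mul_assoc]
      rw [h1]
      exact hL0b _ (b.mul_mem_right _ (hβ j)) _
    choose Y hYY using hY
    let t : Fin (m + 1) → 𝓞 K := fun i => (uu u (fun i' => kv a π (s.symm i) i' / ((m + 1 : ℕ) : ℤ)) : 𝓞 K)
    let W : Matrix (Fin (m + 1)) (Fin (m + 1)) (𝓞 F) := fun i j => Y (s.symm i) j
    have hWt : ∀ i j, Algebra.trace F K ((β j : K) * ((t i : K) * ∑ k, (algebraMap (𝓞 F) F (Yv i k)) • β' k)) =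
        (W i j : F) := by
      intro i j
      have h1 := hYY (s.symm i) j
      have h2 : L2_col (kv a π (s.symm i)) = i := by
        rw [← hs, Equiv.apply_symm_apply]
      have h3 : L (kv a π (s.symm i)) = (t i : K) * ∑ k, (algebraMap (𝓞 F) F (Yv i k)) • β' k := by
        show ((uu u (fun i' => kv a π (s.symm i) i' / ((m + 1 : ℕ) : ℤ)) : 𝓞 K) : K) * L0 (L2_col (kv a π (s.symm i))) = _
        rw [h2]
      rw [← h3, h1]
    have hcopW := hW t (fun i => hur _) W hWt
    let Ym : Matrix (Fin (m + 1)) (Fin (m + 1)) (𝓞 F) := fun k j => Y k j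
    have hdet : IsCoprime Ym.det (p : 𝓞 F) := by
      have h1 : W = Ym.submatrix s.symm id := rfl
      rw [h1, Matrix.det_permute] at hcopW
      exact IsCoprime.of_mul_left_right hcopW
    refine ⟨Ym.det, hdet, fun y => ?_⟩
    refine ⟨∑ j, algebraMap (𝓞 F) (𝓞 K) ((Ym.adjugate.mulVec y) j) * β j,
      b.sum_mem fun j _ => b.mul_mem_left _ (hβ j), fun k => ?_⟩
    rw [L2F_coe_sum, Finset.sum_mul, map_sum]
    have h1 : ∀ j, Algebra.trace F K
        (((algebraMap (𝓞 F) (𝓞 K) ((Ym.adjugate.mulVec y) j) * β j : 𝓞 K) : K) * L (kv a π k)) =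
          algebraMap (𝓞 F) F (Ym k j * (Ym.adjugate.mulVec y) j) := by
      intro j
      rw [L2F_coe_mul, mul_assoc, L2F_trace_mul, hYY k j, mul_comm, ← map_mul]
    rw [Finset.sum_congr rfl fun j _ => h1 j, ← map_sum]
    congr 1
    have h2 : Ym.mulVec (Ym.adjugate.mulVec y) = Ym.det • y := by
      rw [Matrix.mulVec_mulVec, Matrix.mul_adjugate, Matrix.smul_mulVec, Matrix.one_mulVec]
    exact congrFun h2 k

/-- The radical of (p). -/
noncomputable def radP (p : ℕ) (K : Type) [Field K] [NumberField K] : Ideal (𝓞 K) := (Ideal.span {(p : 𝓞 K)}).radical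

theorem radP_pow (p : ℕ) (K : Type) [Field K] [NumberField K] : ∃ e, radP p K ^ e ≤ Ideal.span {(p : 𝓞 K)} := by
  obtain ⟨e, he⟩ := Ideal.exists_radical_pow_le_of_fg (Ideal.span {(p : 𝓞 K)}) (IsNoetherian.noetherian _)
  exact ⟨e, he⟩

theorem radP_le (p : ℕ) (K : Type) [Field K] [NumberField K] : Ideal.span {(p : 𝓞 K)} ≤ radP p K := Ideal.le_radical

theorem radP_cop {p : ℕ} {K : Type} [Field K] [NumberField K] {J : Ideal (𝓞 K)} (h : IsCoprime J (Ideal.span {(p : 𝓞 K)})) :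
    IsCoprime J (radP p K) := by
  rw [Ideal.isCoprime_iff_sup_eq] at h ⊢
  rw [eq_top_iff, ← h]
  exact sup_le_sup_left (radP_le p K) _

/-- Change of the group of units by an index prime to p. -/
theorem prime_change2 (p : ℕ) (hp : p.Prime) (J J' : Ideal (𝓞 K)) (hJ : J ≠ ⊥)
    (hJ2 : IsCoprime J (Ideal.span {(p : 𝓞 K)})) (hJ' : J' = radP p K * J)
    (X : Set (𝓞 K)) (hX0 : (0 : 𝓞 K) ∉ X)
    (hX : ∀ u : (𝓞 K)ˣ, (u : 𝓞 K) - 1 ∈ J → ∀ x ∈ X, (u : 𝓞 K) * x ∈ X) :
    ∃ ν : ℕ, ¬ p ∣ ν ∧ ∀ T, Transv J X T → ∃ T', Transv J' X T' ∧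
      ∀ (φ : 𝓞 K → ℂ) (S : ℂ), (∀ u : (𝓞 K)ˣ, (u : 𝓞 K) - 1 ∈ J → ∀ x ∈ X, φ ((u : 𝓞 K) * x) = φ x) →
        HasSum (fun x : T' => φ x) S → HasSum (fun x : T => φ x) (S / ν) := by
  have hp0 : (p : 𝓞 K) ≠ 0 := by exact_mod_cast hp.ne_zero
  have hr0 : radP p K ≠ ⊥ := by
    intro h
    have h1 := radP_le p K
    rw [h, le_bot_iff, Ideal.span_singleton_eq_bot] at h1
    exact hp0 h1
  have hJ'0 : J' ≠ ⊥ := by
    rw [hJ', Ne, Ideal.mul_eq_bot]
    exact fun h => h.elim hr0 hJ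
  have hle : J' ≤ J := hJ' ▸ Ideal.mul_le_right
  haveI := D3_fin J' hJ'0
  haveI hfi : ((D3_U J').subgroupOf (D3_U J)).FiniteIndex := inferInstance
  refine ⟨((D3_U J').subgroupOf (D3_U J)).index, ?_, D3_main J J' hle X hfi hX0 hX⟩
  intro hev
  haveI : Finite ((D3_U J) ⧸ ((D3_U J').subgroupOf (D3_U J))) :=
    Subgroup.finite_quotient_of_finiteIndex
  haveI : Fact (Nat.Prime p) := ⟨hp⟩
  obtain ⟨q, hq⟩ := exists_prime_orderOf_dvd_card' (G := (D3_U J) ⧸ ((D3_U J').subgroupOf (D3_U J)))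
    p hev
  obtain ⟨a, rfl⟩ := QuotientGroup.mk_surjective q
  have h1 := pow_orderOf_eq_one (QuotientGroup.mk a : (D3_U J) ⧸ ((D3_U J').subgroupOf (D3_U J)))
  rw [hq, ← QuotientGroup.mk_pow, QuotientGroup.eq_one_iff, Subgroup.mem_subgroupOf, D3_mem] at h1
  have h2 : (((a : (𝓞 K)ˣ) : 𝓞 K) - 1) ^ p ∈ radP p K := by
    obtain ⟨r, hr⟩ := exists_add_pow_prime_eq hp (((a : (𝓞 K)ˣ) : 𝓞 K) - 1) 1
    have h3 : (((a : (𝓞 K)ˣ) : 𝓞 K) - 1) ^ p =
        ((((a ^ p : D3_U J) : (𝓞 K)ˣ) : 𝓞 K) - 1) -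
          (p : 𝓞 K) * ((((a : (𝓞 K)ˣ) : 𝓞 K) - 1) * 1 * r) := by
      rw [SubmonoidClass.coe_pow, Units.val_pow_eq_pow_val]
      rw [sub_add_cancel, one_pow] at hr
      linear_combination -hr
    rw [h3]
    refine Ideal.sub_mem _ ?_ (Ideal.mul_mem_right _ _ (radP_le p K (Ideal.mem_span_singleton_self _)))
    exact (hJ' ▸ Ideal.mul_le_left : J' ≤ radP p K) h1
  have h4 : ((a : (𝓞 K)ˣ) : 𝓞 K) - 1 ∈ radP p K :=
    (Ideal.radical_isRadical (Ideal.span {(p : 𝓞 K)})) ⟨p, h2⟩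
  have h5 : ((a : (𝓞 K)ˣ) : 𝓞 K) - 1 ∈ J' := by
    have h6 : ((a : (𝓞 K)ˣ) : 𝓞 K) - 1 ∈ radP p K ⊓ J := ⟨h4, (D3_mem J _).1 a.2⟩
    rw [hJ', Ideal.mul_eq_inf_of_coprime]
    · exact h6
    · exact (Ideal.isCoprime_iff_sup_eq.1 (radP_cop hJ2).symm)
  have h7 : (QuotientGroup.mk a : (D3_U J) ⧸ ((D3_U J').subgroupOf (D3_U J))) = 1 := by
    rw [QuotientGroup.eq_one_iff, Subgroup.mem_subgroupOf, D3_mem]
    exact h5
  rw [h7, orderOf_one] at hq
  exact hp.one_lt.ne hq

/-- No torsion. -/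
theorem torsion_free2 (p : ℕ) (hp : p.Prime) (l : 𝓞 F) (hl : Prime l) (hlp : IsCoprime l (p : 𝓞 F))
    (J : Ideal (𝓞 K)) (h1 : J ≤ radP p K)
    (h2 : J ≤ Ideal.span {algebraMap (𝓞 F) (𝓞 K) l}) (ζ : (𝓞 K)ˣ) (hζ : (ζ : 𝓞 K) - 1 ∈ J) (q : ℕ)
    (hq : q.Prime) (h : ζ ^ q = 1) : ζ = 1 := by
  by_contra hne
  have hs : ∑ i ∈ Finset.range q, (ζ : 𝓞 K) ^ i = 0 := by
    have h := mul_geom_sum (ζ : 𝓞 K) q
    have h2 : (ζ : 𝓞 K) ^ q = 1 := by
      have h0 := congrArg Units.val ‹ζ ^ q = 1›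
      simpa using h0
    rw [h2, sub_self] at h
    rcases mul_eq_zero.1 h with h3 | h3
    · exact absurd (Units.ext (sub_eq_zero.1 h3)) hne
    · exact h3
  have h3 : (q : 𝓞 K) ∈ J := by
    have h4 : (q : 𝓞 K) = - ∑ i ∈ Finset.range q, ((ζ : 𝓞 K) ^ i - 1) := by
      rw [Finset.sum_sub_distrib, hs]
      simp
    rw [h4]
    refine (Ideal.neg_mem_iff _).2 (Ideal.sum_mem _ fun i _ => ?_)
    have h5 := sub_dvd_pow_sub_pow (ζ : 𝓞 K) 1 i
    rw [one_pow] at h5
    exact Ideal.mem_of_dvd _ h5 hζ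
  obtain ⟨e, he⟩ := radP_pow p K
  have h1' : (q : 𝓞 K) ^ e ∈ Ideal.span {(p : 𝓞 K)} := he (Ideal.pow_mem_pow (h1 h3) e)
  obtain ⟨y, hy⟩ := Ideal.mem_span_singleton.1 h1'
  have hnorm : ∀ k : ℕ, Algebra.norm ℤ (k : 𝓞 K) = (k : ℤ) ^ Module.finrank ℤ (𝓞 K) := by
    intro k
    have := Algebra.norm_algebraMap (S := 𝓞 K) (k : ℤ)
    rw [map_natCast] at this
    exact this
  have hy3 := congrArg (Algebra.norm ℤ) hy
  rw [map_mul, map_pow, hnorm, hnorm, ← pow_mul] at hy3
  have hpos : Module.finrank ℤ (𝓞 K) ≠ 0 := (Module.finrank_pos (R := ℤ) (M := 𝓞 K)).ne'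
  have h6 : (p : ℤ) ∣ (q : ℤ) := by
    have h7 : (p : ℤ) ∣ (q : ℤ) ^ (Module.finrank ℤ (𝓞 K) * e) := by
      rw [hy3]
      exact Dvd.dvd.mul_right (dvd_pow_self _ hpos) _
    exact (Nat.prime_iff_prime_int.1 hp).dvd_of_dvd_pow h7
  have h7 : p = q := (Nat.prime_dvd_prime_iff_eq hp hq).1 (by exact_mod_cast h6)
  subst h7
  have h8 : (p : 𝓞 K) ∈ Ideal.span {algebraMap (𝓞 F) (𝓞 K) l} := h2 h3
  obtain ⟨a, b, hab⟩ := hlp
  have h9 : (1 : 𝓞 K) ∈ Ideal.span {algebraMap (𝓞 F) (𝓞 K) l} := by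
    have h10 := congrArg (algebraMap (𝓞 F) (𝓞 K)) hab
    rw [map_add, map_mul, map_mul, map_one, map_natCast] at h10
    rw [← h10]
    exact Ideal.add_mem _ (Ideal.mul_mem_left _ _ (Ideal.mem_span_singleton_self _))
      (Ideal.mul_mem_left _ _ h8)
  have h11 : IsUnit (algebraMap (𝓞 F) (𝓞 K) l) := by
    rw [← Ideal.span_singleton_eq_top]
    exact (Ideal.eq_top_iff_one _).2 h9
  have h12 : IsUnit (Algebra.intNorm (𝓞 F) (𝓞 K) (algebraMap (𝓞 F) (𝓞 K) l)) := h11.map _
  have : IsScalarTower ℚ F K := IsScalarTower.of_algebraMap_eq' (Subsingleton.elim _ _)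
  have : Module.Finite F K := Module.Finite.of_restrictScalars_finite ℚ F K
  have h13 : Algebra.intNorm (𝓞 F) (𝓞 K) (algebraMap (𝓞 F) (𝓞 K) l) = l ^ Module.finrank F K := by
    apply RingOfIntegers.coe_injective
    rw [Algebra.algebraMap_intNorm (A := 𝓞 F) (K := F) (L := K) (B := 𝓞 K), map_pow]
    exact Algebra.norm_algebraMap (S := K) (algebraMap (𝓞 F) F l)
  rw [h13] at h12
  exact hl.not_isUnit ((isUnit_pow_iff Module.finrank_pos.ne').1 h12)

end SSG.V
end
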