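import Mathlib
import Pool.Agent.Lib.H1M.PP2.M002
import Pool.Agent.Lib.H1M.PP2.M024
import Pool.Agent.Lib.H1M.PP2.M035
import Pool.Agent.Lib.H1M.PP2.M036
import Pool.Agent.Lib.H1M.PP2.M057
import Pool.Agent.Lib.H1M.PP2.M072

/-! Merged copies (to shorten the build) of Lib.H16D.A3, Lib.H16D.A6, Lib.H16D.A5, Lib.H16D.A7, Lib.H16D.A8, Lib.H16D.B4, Lib.H16D.C1, Lib.H16D.C2. -/

-- from Lib.H16D.A3
section

/-! # H16D, chunk A3: (M) a Frobenius element at W nontrivial on L -/

open NumberField IsDedekindDomain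

namespace H16D

open CFT

variable {K : Type} [Field K] [NumberField K] {L : Type} [Field L] [NumberField L] [Algebra K L]
  {M : Type} [Field M] [NumberField M] [Algebra K M] [Algebra L M] [IsScalarTower K L M]

/-- PROOF. v = below K W, w = below L W (below K w = v: below_below, B08). q is not in v, so not in w and not in W (m_mem_below, X00, or: the ideal of v is the inverse image of that of W), so M/L is unramified at w
(unr_cyc, B22) and e(W|K) = e(w|K) e(W|L) = p * 1 (e_tower, B08; ra1, H16D.A2: w is the only prime above v and e(w|K) = p). The inertia group of W in Gal(M/K)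
(W.asIdeal.inertia, b16_card, B16) has p >= 2 elements, so there is h₁ ≠ 1 in it: h₁ x - x in W for all x in O_M. h₁ ζ = ζ: ζ is an algebraic integer z with z^q = 1, h₁ z is another
q-th root of unity, h₁ z - z is in W, so they are equal (b22_distinct, B22, q not in W). So h₁ is nontrivial on L (x_inj, X12, with autToPow h₁ = 1; or: an automorphism fixing L and ζ is 1 as M = L(ζ)).
fr_one (B17): h₂ with h₂ x - x^(Nm v) in W for all x in O_M. Let h = h₂ if h₂ is nontrivial on L, and h = h₂ h₁ otherwise: (h₂ h₁) x - x^(Nm v) = (h₂ (h₁ x) - (h₁ x)^(Nm v)) + ((h₁ x)^(Nm v) - x^(Nm v)), both in W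
(sub_dvd_pow_sub_pow). Finally h z - z^(Nm v) is in W and both are q-th roots of unity, so h ζ = ζ^(Nm v) (b22_distinct). -/
theorem fe1 [IsGalois K L] [IsGalois K M] {p : ℕ} (hp : p.Prime) (hd : Module.finrank K L = p) {q : ℕ} [NeZero q] [IsCyclotomicExtension {q} L M]
    {ζ : M} (hζ : IsPrimitiveRoot ζ q) (W : Pr M) (hr : ¬ Unr K L (below K W)) (hq : (q : 𝓞 K) ∉ (below K W).asIdeal) :
    ∃ h : M ≃ₐ[K] M, (∀ x : 𝓞 M, h • x - x ^ Nm (below K W) ∈ W.asIdeal) ∧ AlgEquiv.restrictNormalHom L h ≠ 1 ∧ h ζ = ζ ^ Nm (below K W) := by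
  obtain ⟨w₀, -, hun, he, -⟩ := ra1 hp hd hr
  have hw : below L W = w₀ := hun _ (below_below K L M W)
  have hqM : (q : 𝓞 M) ∉ W.asIdeal := fun h => hq ((m_mem_below q W).2 h)
  have hqL : (q : 𝓞 L) ∉ (below L W).asIdeal := fun h => hqM ((m_mem_below q W).1 h)
  have heW : W.asIdeal.ramificationIdx (𝓞 K) = p := by
    rw [e_tower K L M W, hw, he, unr_cyc q (below L W) hqL W rfl, mul_one]
  have hcard : Nat.card (W.asIdeal.inertia (M ≃ₐ[K] M)) = p := by
    rw [b16_card (K := K) W, heW]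
  have hne : W.asIdeal.inertia (M ≃ₐ[K] M) ≠ ⊥ := by
    intro h0
    rw [h0, Subgroup.card_bot] at hcard
    exact hp.one_lt.ne hcard
  obtain ⟨h₁, hin, hne1⟩ : ∃ g : M ≃ₐ[K] M, g ∈ W.asIdeal.inertia (M ≃ₐ[K] M) ∧ g ≠ 1 := by
    obtain ⟨a, ha⟩ := Subgroup.ne_bot_iff_exists_ne_one.1 hne
    exact ⟨a, a.2, fun h => ha (Subtype.ext h)⟩
  have hin' : ∀ x : 𝓞 M, h₁ • x - x ∈ W.asIdeal := fun x => hin x
  -- the root of unity as an integer
  set z : 𝓞 M := hζ.toInteger with hz
  have hzc : (z : M) = ζ := rfl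
  have hzq : z ^ q = 1 := hζ.toInteger_isPrimitiveRoot.pow_eq_one
  have hsz : ∀ s : M ≃ₐ[K] M, (s • z) ^ q = 1 := fun s => by
    rw [← smul_pow', hzq, smul_one]
  have h1z : h₁ • z = z := b22_distinct W q hqM (hsz h₁) hzq (hin' z)
  have h1ζ : h₁ ζ = ζ := by
    have h := congrArg (fun y : 𝓞 M => (y : M)) h1z
    exact h
  have haut : hζ.autToPow K h₁ = 1 := by
    have h2 := hζ.autToPow_spec K h₁
    rw [h1ζ] at h2
    have h3 : ζ ^ ((hζ.autToPow K h₁ : (ZMod q)ˣ) : ZMod q).val = ζ ^ 1 := by rw [h2, pow_one]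
    have hq1 : 1 ≤ q := Nat.one_le_iff_ne_zero.2 (NeZero.ne q)
    have h4 : ζ ^ (((hζ.autToPow K h₁ : (ZMod q)ˣ) : ZMod q).val + (q - 1)) = 1 := by
      rw [pow_add, h3, ← pow_add, Nat.add_sub_cancel' hq1, hζ.pow_eq_one]
    have h5 := (ZMod.natCast_eq_zero_iff _ q).2 ((hζ.pow_eq_one_iff_dvd _).1 h4)
    rw [Nat.cast_add, ZMod.natCast_val, ZMod.cast_id', id, Nat.cast_sub hq1, ZMod.natCast_self, zero_sub, Nat.cast_one,
      ← sub_eq_add_neg, sub_eq_zero] at h5
    exact Units.ext h5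
  have hres : AlgEquiv.restrictNormalHom L h₁ ≠ 1 := fun h => hne1 (x_inj (K := K) (L := L) hζ h₁ h haut)
  obtain ⟨h₂, hh₂⟩ := fr_one (K := K) W
  have hfin : ∀ h : M ≃ₐ[K] M, (∀ x : 𝓞 M, h • x - x ^ Nm (below K W) ∈ W.asIdeal) → h ζ = ζ ^ Nm (below K W) := by
    intro h hh
    have h4 : h • z = z ^ Nm (below K W) := by
      refine b22_distinct W q hqM (hsz h) ?_ (hh z)
      rw [← pow_mul, mul_comm, pow_mul, hzq, one_pow]
    have h5 := congrArg (fun y : 𝓞 M => (y : M)) h4
    simp only [map_pow] at h5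
    exact h5
  by_cases h2 : AlgEquiv.restrictNormalHom L h₂ = 1
  · refine ⟨h₂ * h₁, ?_, ?_, ?_⟩
    · intro x
      have h6 : (h₂ * h₁) • x - x ^ Nm (below K W) = (h₂ • (h₁ • x) - (h₁ • x) ^ Nm (below K W)) +
          ((h₁ • x) ^ Nm (below K W) - x ^ Nm (below K W)) := by
        rw [mul_smul]
        ring
      rw [h6]
      exact add_mem (hh₂ _) (Ideal.mem_of_dvd _ (sub_dvd_pow_sub_pow _ _ _) (hin' x))
    · rw [map_mul, h2, one_mul]
      exact hres
    · rw [AlgEquiv.mul_apply, h1ζ]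
      exact hfin h₂ hh₂
  · exact ⟨h₂, hh₂, h2, hfin h₂ hh₂⟩

end H16D
end

-- from Lib.H16D.A6
section

/-! # H16D, chunk A6: (M) the action on roots of unity -/

open NumberField IsDedekindDomain

namespace H16D

open CFT

variable {K : Type} [Field K] [NumberField K] {M : Type} [Field M] [NumberField M] [Algebra K M]

/-- PROOF. Z = IntermediateField.adjoin K {ζ} (in IntermediateField K M) is a cyclotomic extension of K (hζ.intermediateField_adjoin_isCyclotomicExtension K), so Z/K is Galois and abelian (IsCyclotomicExtension.isGalois,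
cyc_comm, B22), unramified outside q (unr_cyc, B22). N from cyc_rec' (B24) for Z/K and S₂. Let y, G, e, g be as in the statement, r : Gal(M/K) -> Gal(Z/K) the restriction. Gal(Z/K) is commutative: make it a CommGroup
(let cg : CommGroup _ := { (inferInstance : Group _) with mul_comm := .. }, as in b27 / Core) and id : Gal(Z/K) -> Gal(Z/K) as a homomorphism to it.
By art_comp (D2) with f = r e⁻¹ : G -> Gal(Z/K) and by art_res (B20): ofMul (r g) = f (art S e (dv y)) = art S (id r) (dv y) = art S id (dv y) (for Z/K). Let D₀ = dv y - single v 1. art S id (single v 1) = 0 (v in S: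
art_single_of_mem), so it is art S id D₀ = art S₂ id D₀ (art_mono, D2: S₂ is contained in S, the only new prime is v and D₀ v = 0) = art S₂ id (dv y) - art S₂ id (single v 1)
= 0 - ofMul (frob K Z v) (cyc_rec'; art_single_of_notMem). So r g = (frob v)⁻¹. With ζ' = ζ as an element of Z: frob ζ' = ζ'^(Nm v) (fr_zeta, B22, with frob_spec (B17) at v, q is not in v since v is not in S₂).
So g ζ ^ (Nm v) = g (ζ^(Nm v)) = image of r g (frob ζ') = ζ (AlgEquiv.restrictNormal_commutes). -/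
theorem ze1 [IsGalois K M] (hab : ∀ a b : M ≃ₐ[K] M, a * b = b * a) {q : ℕ} [NeZero q] {ζ : M} (hζ : IsPrimitiveRoot ζ q)
    (S₂ S : Finset (Pr K)) (v : Pr K) (hv : v ∉ S₂) (hS : ∀ u, u ∈ S ↔ u = v ∨ u ∈ S₂) (hur : ∀ u : Pr K, ¬ Unr K M u → u ∈ S)
    (hq : ∀ u : Pr K, (q : 𝓞 K) ∈ u.asIdeal → u ∈ S₂) :
    ∃ N : ℕ, ∀ y : K, Ray S₂ N y → od v y = 1 → ∀ (G : Type) [CommGroup G] (e : (M ≃ₐ[K] M) ≃* G) (g : M ≃ₐ[K] M),
      art S (e : (M ≃ₐ[K] M) →* G) (dv y) = Additive.ofMul (e g) → g ζ ^ Nm v = ζ := by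
  classical
  let Z : IntermediateField K M := IntermediateField.adjoin K {ζ}
  have hZn : NumberField Z := NumberField.of_module_finite K Z
  have hcyc : IsCyclotomicExtension {q} K Z := hζ.intermediateField_adjoin_isCyclotomicExtension K
  have hZg : IsGalois K Z := IsCyclotomicExtension.isGalois {q} K Z
  have habZ : ∀ a b : Z ≃ₐ[K] Z, a * b = b * a := cyc_comm q
  obtain ⟨N, hN⟩ := cyc_rec' (K := K) (L := Z) q S₂ hq
  refine ⟨N, fun y hy hod G _ e g hg => ?_⟩
  let cg : CommGroup (Z ≃ₐ[K] Z) := { (inferInstance : Group (Z ≃ₐ[K] Z)) with mul_comm := habZ }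
  have hqv : (q : 𝓞 K) ∉ v.asIdeal := fun h => hv (hq v h)
  have hvS : v ∈ S := (hS v).2 (Or.inl rfl)
  have hsub : S₂ ⊆ S := fun u hu => (hS u).2 (Or.inr hu)
  have h0 := hN (Z ≃ₐ[K] Z) (MonoidHom.id (Z ≃ₐ[K] Z)) y hy
  have h2 := art_res K Z M hab S hur (MonoidHom.id (Z ≃ₐ[K] Z)) (dv y)
  rw [MonoidHom.id_comp] at h2
  have h3 := art_comp S ((AlgEquiv.restrictNormalHom Z : (M ≃ₐ[K] M) →* (Z ≃ₐ[K] Z)).comp (e.symm : G →* (M ≃ₐ[K] M)))
    (e : (M ≃ₐ[K] M) →* G) (dv y)
  have h4 : ((AlgEquiv.restrictNormalHom Z : (M ≃ₐ[K] M) →* (Z ≃ₐ[K] Z)).comp (e.symm : G →* (M ≃ₐ[K] M))).comp (e : (M ≃ₐ[K] M) →* G) =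
      (AlgEquiv.restrictNormalHom Z : (M ≃ₐ[K] M) →* (Z ≃ₐ[K] Z)) := by
    ext s y
    simp
  rw [h4, h2, hg] at h3
  have h5 : art S (MonoidHom.id (Z ≃ₐ[K] Z)) (dv y) =
      Additive.ofMul ((AlgEquiv.restrictNormalHom Z : (M ≃ₐ[K] M) →* (Z ≃ₐ[K] Z)) (e.symm (e g))) := h3
  rw [MulEquiv.symm_apply_apply] at h5
  have h6 : dv y = (dv y - Finsupp.single v 1) + Finsupp.single v 1 := by abel
  have h7 : art S₂ (MonoidHom.id (Z ≃ₐ[K] Z)) (dv y - Finsupp.single v 1) =
      art S (MonoidHom.id (Z ≃ₐ[K] Z)) (dv y - Finsupp.single v 1) := by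
    refine art_mono hsub _ fun u hu hu2 => ?_
    have h8 : u = v := ((hS u).1 hu).resolve_right hu2
    rw [h8, Finsupp.sub_apply, dv_apply, hod, Finsupp.single_eq_same, sub_self]
  have h9 : art S (MonoidHom.id (Z ≃ₐ[K] Z)) (dv y) = - Additive.ofMul (frob K Z v) := by
    rw [h6, map_add, ← h7, map_sub, h0, art_single_of_mem _ hvS, art_single_of_notMem _ hv, one_smul, zero_sub, add_zero]
    rfl
  rw [h9] at h5
  have h10 : (AlgEquiv.restrictNormalHom Z : (M ≃ₐ[K] M) →* (Z ≃ₐ[K] Z)) g = (frob K Z v)⁻¹ := by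
    have h11 := congrArg Additive.toMul h5
    exact h11.symm
  have hmem : ζ ∈ Z := IntermediateField.mem_adjoin_simple_self K ζ
  let ζ' : Z := ⟨ζ, hmem⟩
  have hz : ζ' ^ q = 1 := by
    apply Subtype.ext
    exact hζ.pow_eq_one
  have h12 : frob K Z v ζ' = ζ' ^ Nm v := fr_zeta q v hqv (frob_spec habZ (unr_cyc q v hqv)) hz
  have h13 : (AlgEquiv.restrictNormalHom Z : (M ≃ₐ[K] M) →* (Z ≃ₐ[K] Z)) g (ζ' ^ Nm v) = ζ' := by
    rw [h10, ← h12, ← AlgEquiv.mul_apply, inv_mul_cancel]
    rfl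
  have h14 : algebraMap Z M ((AlgEquiv.restrictNormalHom Z : (M ≃ₐ[K] M) →* (Z ≃ₐ[K] Z)) g (ζ' ^ Nm v)) =
      g (algebraMap Z M (ζ' ^ Nm v)) := AlgEquiv.restrictNormal_commutes g Z (ζ' ^ Nm v)
  rw [h13, map_pow, map_pow] at h14
  exact h14.symm

end H16D
end

-- from Lib.H16D.A5
section

/-! # H16D, chunk A5: (S/M) elements which are not units at v -/

open NumberField IsDedekindDomain

namespace H16D

open CFT

variable {K : Type} [Field K] [NumberField K] {L : Type} [Field L] [NumberField L] [Algebra K L]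

/-- PROOF. w from ra1 (H16D.A2): the only prime above v, e = p, f = 1. N' from ray_norm (B13) for (S₁, N₀); α from ap1 (H16D.A1) in E = L, u = w, T = up L S₁ (w is not in it: mem_up, below K w = v), N'.
y = N α: Ray S₁ N₀ y, and y has od v y = 1: the valuation of y at v is that of α at w (ra3, H16D.A2; od is minus the log of the valuation). art S χ (dv y) = art S χ (Nd K L (dv α)) = 0 (Nd_dv, B07; art_Nd, B18). Let k = od v x and x' = x y^(-k)
(zpow): Ray S₁ N₀ x' (Ray.mul, Ray.inv: by induction Ray for integer powers, or use dv and two cases), od v x' = 0, so art S χ (dv x') = 0 by h0, and dv x' = dv x - k dv y, so art S χ (dv x) = 0. -/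
theorem an1 [IsGalois K L] (hab : ∀ a b : L ≃ₐ[K] L, a * b = b * a) {p : ℕ} (hp : p.Prime) (hd : Module.finrank K L = p)
    (S S₁ : Finset (Pr K)) (v : Pr K) (hv : ¬ Unr K L v) (hv1 : v ∉ S₁) (hS : ∀ u : Pr K, ¬ Unr K L u → u ∈ S)
    {A : Type} [CommGroup A] (χ : (L ≃ₐ[K] L) →* A) (N₀ : ℕ) (h0 : ∀ x : K, Ray S₁ N₀ x → od v x = 0 → art S χ (dv x) = 0)
    (x : K) (hx : Ray S₁ N₀ x) : art S χ (dv x) = 0 := by
  obtain ⟨w, hwv, huniq, hram, hin⟩ := ra1 hp hd hv
  obtain ⟨N', hN'⟩ := ray_norm (K := K) (L := L) S₁ N₀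
  obtain ⟨α, hα, hαo⟩ := ap1 w (up L S₁) (by rw [mem_up, hwv]; exact hv1) N'
  have hy : Ray S₁ N₀ (Algebra.norm K α) := hN' α hα
  have hyv : od v (Algebra.norm K α) = 1 := by
    have h1 := ra3 w (fun w' hw' => huniq w' (hw'.trans hwv)) hin α
    rw [hwv] at h1
    rw [← hαo]
    unfold od
    rw [h1]
  have hart : art S χ (dv (Algebra.norm K α)) = 0 := by
    rw [← Nd_dv hα.ne]
    exact art_Nd hab S hS χ _
  have key : ∀ n : ℕ, ∀ x : K, Ray S₁ N₀ x → (od v x).natAbs = n → art S χ (dv x) = 0 := by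
    intro n
    induction n with
    | zero => intro x hx h; exact h0 x hx (Int.natAbs_eq_zero.1 h)
    | succ n ih =>
      intro x hx h
      rcases lt_or_ge 0 (od v x) with hpos | hneg
      · have h2 := ih (x * (Algebra.norm K α)⁻¹) (hx.mul hy.inv) (by
          rw [od_mul v hx.ne hy.inv.ne, od_inv, hyv]
          omega)
        rw [dv_mul hx.ne hy.inv.ne, dv_inv, map_add, map_neg, hart, neg_zero, add_zero] at h2
        exact h2
      · have h2 := ih (x * Algebra.norm K α) (hx.mul hy) (by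
          rw [od_mul v hx.ne hy.ne, hyv]
          omega)
        rw [dv_mul hx.ne hy.ne, map_add, hart, add_zero] at h2
        exact h2
  exact key _ x hx rfl

end H16D
end

-- from Lib.H16D.A7
section

/-! # H16D, chunk A7: (M) the Artin symbol of a norm from a fixed field -/

open NumberField IsDedekindDomain

namespace H16D

open CFT

variable {K : Type} [Field K] [NumberField K] {M : Type} [Field M] [NumberField M] [Algebra K M]

/-- PROOF. E = IntermediateField.fixedField H; H is normal (hab), so E/K is Galois (instance IsGalois.of_fixedField_normal_subgroup; see b27_H in CFT/B27.lean, which contains all the steps), unramified outside S (unr_tower, B08), and Gal(E/K) is commutative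
(restrictNormalHom E is surjective from Gal(M/K): AlgEquiv.restrictNormalHom_surjective); make it a CommGroup. With f = restriction ∘ e⁻¹ : G -> Gal(E/K): art_comp (D2), art_res (B20) give
ofMul (restriction of g) = art S id (Nd D) (for E/K) = 0 (art_Nd, B18). So g is trivial on E: g is in the fixing subgroup of E, which is H (IntermediateField.fixingSubgroup_fixedField). -/
theorem me1 [IsGalois K M] (hab : ∀ a b : M ≃ₐ[K] M, a * b = b * a) (S : Finset (Pr K)) (hur : ∀ u : Pr K, ¬ Unr K M u → u ∈ S)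
    (H : Subgroup (M ≃ₐ[K] M)) (D : Dv (IntermediateField.fixedField H)) (G : Type) [CommGroup G] (e : (M ≃ₐ[K] M) ≃* G) (g : M ≃ₐ[K] M)
    (hg : art S (e : (M ≃ₐ[K] M) →* G) (Nd K (IntermediateField.fixedField H) D) = Additive.ofMul (e g)) : g ∈ H := by
  classical
  let E : IntermediateField K M := IntermediateField.fixedField H
  have hN : H.Normal := ⟨fun n hn k => by
    rw [hab k n, mul_inv_cancel_right]
    exact hn⟩
  have hEg : IsGalois K E := IsGalois.of_fixedField_normal_subgroup H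
  have habE : ∀ a b : E ≃ₐ[K] E, a * b = b * a := by
    intro a b
    obtain ⟨a', rfl⟩ := AlgEquiv.restrictNormalHom_surjective (F := K) (K₁ := E) M a
    obtain ⟨b', rfl⟩ := AlgEquiv.restrictNormalHom_surjective (F := K) (K₁ := E) M b
    rw [← map_mul, hab, map_mul]
  have hSE : ∀ v : Pr K, ¬ Unr K E v → v ∈ S := by
    intro v hv
    by_contra hvS
    have h1 : Unr K M v := by
      by_contra h
      exact hvS (hur v h)
    exact hv (unr_tower K E M h1).1
  let cg : CommGroup (E ≃ₐ[K] E) := { (inferInstance : Group (E ≃ₐ[K] E)) with mul_comm := habE }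
  have h1 : art S (MonoidHom.id (E ≃ₐ[K] E)) (Nd K E D) = 0 := art_Nd habE S hSE (MonoidHom.id (E ≃ₐ[K] E)) D
  have h2 := art_res K E M hab S hur (MonoidHom.id (E ≃ₐ[K] E)) (Nd K E D)
  rw [h1, MonoidHom.id_comp] at h2
  have h3 := art_comp S ((AlgEquiv.restrictNormalHom E : (M ≃ₐ[K] M) →* (E ≃ₐ[K] E)).comp (e.symm : G →* (M ≃ₐ[K] M)))
    (e : (M ≃ₐ[K] M) →* G) (Nd K E D)
  have h4 : ((AlgEquiv.restrictNormalHom E : (M ≃ₐ[K] M) →* (E ≃ₐ[K] E)).comp (e.symm : G →* (M ≃ₐ[K] M))).comp (e : (M ≃ₐ[K] M) →* G) =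
      (AlgEquiv.restrictNormalHom E : (M ≃ₐ[K] M) →* (E ≃ₐ[K] E)) := by
    ext s y
    simp
  rw [h4, h2] at h3
  have h3' : (0 : Additive (E ≃ₐ[K] E)) = MonoidHom.toAdditive ((AlgEquiv.restrictNormalHom E : (M ≃ₐ[K] M) →* (E ≃ₐ[K] E)).comp (e.symm : G →* (M ≃ₐ[K] M)))
      (Additive.ofMul (e g)) := by
    rw [← hg]
    exact h3
  have h5 : (AlgEquiv.restrictNormalHom E : (M ≃ₐ[K] M) →* (E ≃ₐ[K] E)) g = 1 := by
    have h7 : (AlgEquiv.restrictNormalHom E : (M ≃ₐ[K] M) →* (E ≃ₐ[K] E)) (e.symm (e g)) = 1 := Additive.ofMul.injective h3'.symm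
    rwa [MulEquiv.symm_apply_apply] at h7
  have h8 : g ∈ (AlgEquiv.restrictNormalHom E : (M ≃ₐ[K] M) →* (E ≃ₐ[K] E)).ker := h5
  rw [IntermediateField.restrictNormalHom_ker, IntermediateField.fixingSubgroup_fixedField] at h8
  exact h8

end H16D
end

-- from Lib.H16D.A8
section

/-! # H16D, chunk A8: (M) the ramified primes divide the conductor -/

open NumberField IsDedekindDomain

namespace H16D

open CFT

variable {K : Type} [Field K] [NumberField K] {L : Type} [Field L] [NumberField L] [Algebra K L]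

/-- the set of primes containing a nonzero natural number is finite -/
theorem a8_fin {q : ℕ} (hq : q ≠ 0) : {u : Pr K | (q : 𝓞 K) ∈ u.asIdeal}.Finite := by
  have h0 : (q : 𝓞 K) ≠ 0 := by exact_mod_cast hq
  refine (fin_int h0).subset fun u hu => ?_
  exact ((u.valuation_lt_one_iff_mem (q : 𝓞 K)).2 hu).ne

section core

variable {M : Type} [Field M] [NumberField M] [Algebra K M] [Algebra L M] [IsScalarTower K L M]

/-- the degree of the norm -/
theorem a8_od {E : Type} [Field E] [NumberField E] [Algebra K E] {v : Pr K} {u : Pr E} (hu : below K u = v)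
    (hf : u.asIdeal.inertiaDeg (𝓞 K) = 1) {α : E} (hα : α ≠ 0) (h1 : od u α = 1)
    (h2 : ∀ u' : Pr E, below K u' = v → u' ≠ u → od u' α = 0) : od v (Algebra.norm K α) = 1 := by
  classical
  have h3 : dv (Algebra.norm K α) v = 1 := by
    rw [← Nd_dv hα, Nd_apply, Finset.sum_eq_single u]
    · rw [hf, dv_apply, h1]
      norm_num
    · intro b hb hbu
      rw [dv_apply, h2 b ((mem_abv v b).1 hb) hbu, mul_zero]
    · intro h
      exact absurd ((mem_abv v u).2 hu) h
  exact h3

theorem a8_mod {F : Type} [Field F] {q : ℕ} [NeZero q] {ζ : F} (hζ : IsPrimitiveRoot ζ q) {a b : ℕ} (h : ζ ^ a = ζ ^ b) :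
    (a : ZMod q) = (b : ZMod q) := by
  rw [pow_eq_pow_mod a hζ.pow_eq_one, pow_eq_pow_mod b hζ.pow_eq_one] at h
  have h4 := hζ.pow_inj (Nat.mod_lt _ (Nat.pos_of_ne_zero (NeZero.ne q))) (Nat.mod_lt _ (Nat.pos_of_ne_zero (NeZero.ne q))) h
  rw [ZMod.natCast_eq_natCast_iff]
  exact h4

/-- the exponents -/
theorem a8_exp [IsGalois K L] [IsGalois K M] {p : ℕ} (hp : p.Prime) (hd : Module.finrank K L = p) {q : ℕ} [NeZero q]
    {ζ : M} (hζ : IsPrimitiveRoot ζ q) (n : ℕ) (hord : p ∣ orderOf (n : ZMod q)) (h g : M ≃ₐ[K] M) (k : ℤ) (hk : h ^ k = g)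
    (hres : AlgEquiv.restrictNormalHom L h ≠ 1) (hres2 : AlgEquiv.restrictNormalHom L g = 1) (h1 : h ζ = ζ ^ n)
    (h2 : g ζ ^ n = ζ) : False := by
  -- p divides k
  have hcard : Nat.card (L ≃ₐ[K] L) = p := by rw [IsGalois.card_aut_eq_finrank, hd]
  have ho : orderOf (AlgEquiv.restrictNormalHom L h) = p := by
    have h3 : orderOf (AlgEquiv.restrictNormalHom L h) ∣ p := by
      rw [← hcard]
      exact orderOf_dvd_natCard _
    rcases (Nat.dvd_prime hp).1 h3 with h4 | h4
    · exact absurd (orderOf_eq_one_iff.1 h4) hres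
    · exact h4
  have hpk : (p : ℤ) ∣ k := by
    rw [← ho, orderOf_dvd_iff_zpow_eq_one, ← map_zpow, hk, hres2]
  -- p divides k + 1
  have e1 : ((hζ.autToPow K h : (ZMod q)ˣ) : ZMod q) = (n : ZMod q) := by
    have h3 := hζ.autToPow_spec K h
    rw [h1] at h3
    have h5 := a8_mod hζ h3
    rw [ZMod.natCast_zmod_val] at h5
    exact h5
  have e2 : ((hζ.autToPow K g : (ZMod q)ˣ) : ZMod q) * (n : ZMod q) = 1 := by
    have h3 := hζ.autToPow_spec K g
    rw [← h3, ← pow_mul] at h2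
    have h2' : ζ ^ (((hζ.autToPow K g : (ZMod q)ˣ) : ZMod q).val * n) = ζ ^ 1 := by rw [h2, pow_one]
    have h5 := a8_mod hζ h2'
    rw [Nat.cast_mul, ZMod.natCast_zmod_val, Nat.cast_one] at h5
    exact h5
  have e3 : (hζ.autToPow K h) ^ (k + 1) = 1 := by
    rw [zpow_add, zpow_one, ← map_zpow, hk]
    apply Units.ext
    rw [Units.val_mul, e1, e2, Units.val_one]
  have e4 : (p : ℤ) ∣ k + 1 := by
    have h3 : (orderOf (hζ.autToPow K h) : ℤ) ∣ k + 1 := orderOf_dvd_iff_zpow_eq_one.2 e3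
    have h4 : orderOf (hζ.autToPow K h) = orderOf (n : ZMod q) := by rw [← e1, orderOf_units]
    rw [h4] at h3
    exact (Int.natCast_dvd_natCast.2 hord).trans h3
  have e5 : (p : ℤ) ∣ 1 := by
    have := dvd_sub e4 hpk
    simpa using this
  have e6 := Int.natAbs_dvd_natAbs.2 e5
  simp at e6
  exact hp.one_lt.ne' e6

theorem a8_core [IsGalois K L] [IsGalois K M] (hab : ∀ a b : L ≃ₐ[K] L, a * b = b * a) (habM : ∀ a b : M ≃ₐ[K] M, a * b = b * a)
    {p : ℕ} (hp : p.Prime) (hd : Module.finrank K L = p)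
    (S S₁ : Finset (Pr K)) (v : Pr K) (hv : ¬ Unr K L v) (hv1 : v ∉ S₁) (hS : ∀ u, u ∈ S ↔ u = v ∨ u ∈ S₁) (hur : ∀ u : Pr K, ¬ Unr K L u → u ∈ S)
    {A : Type} [CommGroup A] (χ : (L ≃ₐ[K] L) →* A) (hχ : Function.Injective χ) (N : ℕ)
    (h0 : ∀ x : K, Ray S₁ N x → od v x = 0 → art S χ (dv x) = 0)
    {q : ℕ} [NeZero q] [IsCyclotomicExtension {q} L M] {ζ : M} (hζ : IsPrimitiveRoot ζ q) (hqv : (q : 𝓞 K) ∉ v.asIdeal)
    (hord : p ∣ orderOf (Nm v : ZMod q)) (G : Type) [CommGroup G] (e : (M ≃ₐ[K] M) ≃* G) : False := by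
  classical
  obtain ⟨W, hW⟩ := below_surj (K := K) (L := M) v
  obtain ⟨h, hh, hres, hζh⟩ := fe1 hp hd hζ W (by rw [hW]; exact hv) (by rw [hW]; exact hqv)
  have hEfix : ∀ x : IntermediateField.fixedField (Subgroup.zpowers h), h (algebraMap _ M x) = algebraMap _ M x := by
    intro x
    exact (IntermediateField.mem_fixedField_iff _ _).1 x.2 h (Subgroup.mem_zpowers h)
  have hf := fd1 (E := IntermediateField.fixedField (Subgroup.zpowers h)) W h hh hEfix
  have hbu : below K (below (IntermediateField.fixedField (Subgroup.zpowers h)) W) = v := by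
    rw [below_below, hW]
  -- the sets
  have hq0 : q ≠ 0 := NeZero.ne q
  obtain ⟨S₂, hS₂⟩ : ∃ S₂ : Finset (Pr K), ∀ u, u ∈ S₂ ↔ u ∈ S₁ ∨ (q : 𝓞 K) ∈ u.asIdeal :=
    ⟨S₁ ∪ (a8_fin (K := K) hq0).toFinset, fun u => by
      rw [Finset.mem_union, Set.Finite.mem_toFinset]; rfl⟩
  have hv2 : v ∉ S₂ := by
    rw [hS₂]
    rintro (h1 | h1)
    · exact hv1 h1
    · exact hqv h1
  have hS3 : ∀ u, u ∈ insert v S₂ ↔ u = v ∨ u ∈ S₂ := fun u => Finset.mem_insert
  have hur3 : ∀ u : Pr K, ¬ Unr K M u → u ∈ insert v S₂ := by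
    intro u hu
    by_contra hu3
    rw [hS3, not_or, hS₂, not_or] at hu3
    have h1 : Unr K L u := by
      by_contra h2
      rcases (hS u).1 (hur u h2) with h3 | h3
      · exact hu3.1 h3
      · exact hu3.2.1 h3
    exact hu (x_unr (m := q) h1 hu3.2.2)
  obtain ⟨N₂, hN₂⟩ := ze1 habM hζ S₂ (insert v S₂) v hv2 hS3 hur3 (fun u hu => (hS₂ u).2 (Or.inr hu))
  obtain ⟨N', hN'⟩ := ray_norm (K := K) (L := IntermediateField.fixedField (Subgroup.zpowers h)) S₂ (max N N₂)
  obtain ⟨α, hα, hαu⟩ := ap1 (below (IntermediateField.fixedField (Subgroup.zpowers h)) W)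
    (up (IntermediateField.fixedField (Subgroup.zpowers h)) S₂ ∪
      ((abv (IntermediateField.fixedField (Subgroup.zpowers h)) v).erase (below (IntermediateField.fixedField (Subgroup.zpowers h)) W)))
    (by
      rw [Finset.mem_union, mem_up, hbu]
      rintro (h1 | h1)
      · exact hv2 h1
      · exact (Finset.mem_erase.1 h1).1 rfl) N'
  have hy : Ray S₂ (max N N₂) (Algebra.norm K α) := hN' α (hα.mono Finset.subset_union_left le_rfl)
  have hyv : od v (Algebra.norm K α) = 1 := by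
    refine a8_od hbu hf hα.ne hαu fun u' hu' hne => ?_
    exact hα.od_eq (Finset.mem_union_right _ (Finset.mem_erase.2 ⟨hne, (mem_abv v u').2 hu'⟩))
  obtain ⟨g, hg⟩ : ∃ g : M ≃ₐ[K] M, art (insert v S₂) (e : (M ≃ₐ[K] M) →* G) (dv (Algebra.norm K α)) = Additive.ofMul (e g) :=
    ⟨e.symm (Additive.toMul (art (insert v S₂) (e : (M ≃ₐ[K] M) →* G) (dv (Algebra.norm K α)))), by simp⟩
  have hgH : g ∈ Subgroup.zpowers h := me1 habM (insert v S₂) hur3 (Subgroup.zpowers h) (dv α) G e g (by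
    rw [Nd_dv hα.ne]; exact hg)
  obtain ⟨k, hk⟩ := Subgroup.mem_zpowers_iff.1 hgH
  have hgζ := hN₂ (Algebra.norm K α) (hy.mono (Finset.Subset.refl _) (le_max_right _ _)) hyv G e g hg
  have hart0 : art S χ (dv (Algebra.norm K α)) = 0 := an1 hab hp hd S S₁ v hv hv1 hur χ N h0 _
    (hy.mono (fun u hu => (hS₂ u).2 (Or.inl hu)) (le_max_left _ _))
  have hart1 : art (insert v S₂) χ (dv (Algebra.norm K α)) = 0 := by
    rw [← hart0]
    refine (art_mono (fun u hu => ?_) χ fun u hu huS => ?_).symm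
    · rw [hS3, hS₂]
      rcases (hS u).1 hu with h1 | h1
      · exact Or.inl h1
      · exact Or.inr (Or.inl h1)
    · rw [dv_apply]
      rcases (hS3 u).1 hu with h1 | h1
      · exact absurd ((hS u).2 (Or.inl h1)) huS
      · exact hy.od_eq h1
  have hres2 : AlgEquiv.restrictNormalHom L g = 1 := by
    have h1 := art_res K L M habM (insert v S₂) hur3 χ (dv (Algebra.norm K α))
    rw [hart1] at h1
    have h2 := art_comp (insert v S₂) ((χ.comp (AlgEquiv.restrictNormalHom L : (M ≃ₐ[K] M) →* (L ≃ₐ[K] L))).comp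
      (e.symm : G →* (M ≃ₐ[K] M))) (e : (M ≃ₐ[K] M) →* G) (dv (Algebra.norm K α))
    have h3 : ((χ.comp (AlgEquiv.restrictNormalHom L : (M ≃ₐ[K] M) →* (L ≃ₐ[K] L))).comp
      (e.symm : G →* (M ≃ₐ[K] M))).comp (e : (M ≃ₐ[K] M) →* G) = χ.comp (AlgEquiv.restrictNormalHom L : (M ≃ₐ[K] M) →* (L ≃ₐ[K] L)) := by
      ext x
      simp
    rw [h3, h1, hg] at h2
    have h4 : χ (AlgEquiv.restrictNormalHom L g) = 1 := by
      have h5 := congrArg Additive.toMul h2
      simpa using h5.symm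
    exact hχ (h4.trans (map_one χ).symm)
  exact a8_exp hp hd hζ (Nm v) hord h g k hk hres hres2 (by rw [hζh, hW]) hgζ

end core

/-- PROOF. By contradiction: h0 : for all x with Ray S₁ N x, od v x = 0 we have art S χ (dv x) = 0; N₀ = N. q prime from x_primes (X06): a = Nm v, l = p, r = 1, B = the primes q with q in v (x11_fin, X11). M = CyclotomicField q L, a number field
(IsCyclotomicExtension.numberField {q} L M; the tower instances K, L, M as in CFT/X25.lean, lines 33-35), ζ = IsCyclotomicExtension.zeta q L M. w above v from ra1 (A2), W above w (below_surj, B06), below K W = v (below_below, B08). M/K is Galois and abelian (x_gal, x_comm, X12). h from fe1 (A3), H = zpowers h, E = fixedField H, u = below E W: u has residue degree 1 over v (fd1, A4;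
the elements of E are fixed by h), below K u = v. S₂ = S₁ ∪ {primes of K containing q} (a finite set: HeightOneSpectrum primes dividing the nonzero ideal (q); see how B23 / B22 / X16 get it, or Ideal.finite_factors), v is not in S₂; S₃ = insert v S₂ (classical).
Unr K M fails only in S₃ (x_unr, X13: unramified in L and q not in the ideal). N₂ from ze1 (A6) for (S₂, S₃, v). N' from ray_norm (B13) for E/K, (S₂, max N₀ N₂). α from ap1 (A1) in E with u and
T = up E S₂ ∪ ((abv E v).erase u), N': od u α = 1, od u' α = 0 for the other u' above v (Ray.od_eq, D2), Ray (up E S₂) N' α. y = N_{E/K} α: Ray S₂ (max N₀ N₂) y, od v y = sum of f(u') od u' α = 1 (Nd_dv, Nd_apply). The group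
G = Gal(M/K) as a CommGroup, e = MulEquiv.refl; g = art S₃ e (dv y) as an element. me1 (A7), D = dv α, Nd D = dv y (Nd_dv): g in zpowers h, g = h^k (k an integer). ze1: (g ζ)^(Nm v) = ζ.
h0 is the negation of the assertion: by an1 (A5) (y is in the ray S₁, N₀ by Ray.mono) art S χ (dv y) = 0 for L/K. art S χ (dv y) = art S₃ χ (dv y) for L/K by art_mono (D2): S ⊆ S₃, the new primes are in S₂ and od y = 0 there (Ray.od_eq). So by art_res (B20, S₃) and art_comp: χ (restriction of g to L) = 1, g is trivial on L (χ injective), so (restriction of h)^k = 1;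
the restriction of h is ≠ 1 in a group with p elements, so it has order p and p divides k. And g ζ = ζ^((Nm v)^k) (k integer; if k < 0 use h^(-k)): from (g ζ)^(Nm v) = ζ: (Nm v)^(k+1) = 1 in (ZMod q)ˣ
(e.g. the homomorphism autToPow: β h = Nm v as a unit, β g * Nm v = 1, IsPrimitiveRoot.autToPow_spec), so the order of Nm v in ZMod q divides k + 1, so p divides k + 1 (x_primes, X06, with a = Nm v >= 2 (x11_two), l = p, r = 1, B = the primes q in v (x11_fin)): contradiction. -/
theorem cd1 [IsGalois K L] (hab : ∀ a b : L ≃ₐ[K] L, a * b = b * a) {p : ℕ} (hp : p.Prime) (hd : Module.finrank K L = p)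
    (S S₁ : Finset (Pr K)) (v : Pr K) (hv : ¬ Unr K L v) (hv1 : v ∉ S₁) (hS : ∀ u, u ∈ S ↔ u = v ∨ u ∈ S₁) (hur : ∀ u : Pr K, ¬ Unr K L u → u ∈ S)
    {A : Type} [CommGroup A] (χ : (L ≃ₐ[K] L) →* A) (hχ : Function.Injective χ) (N : ℕ) :
    ∃ x : K, Ray S₁ N x ∧ od v x = 0 ∧ art S χ (dv x) ≠ 0 := by
  by_contra hcon
  push Not at hcon
  obtain ⟨q, hq, hqB, -, hord, -⟩ := x_primes (x11_two K v) hp 1 {q : ℕ | q.Prime ∧ (q : 𝓞 K) ∈ v.asIdeal} (x11_fin K v)
  haveI : NeZero q := ⟨hq.ne_zero⟩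
  let M := CyclotomicField q L
  haveI : NumberField M := IsCyclotomicExtension.numberField {q} L M
  have hζ : IsPrimitiveRoot (IsCyclotomicExtension.zeta q L M) q := IsCyclotomicExtension.zeta_spec q L M
  haveI : IsGalois K M := x_gal K L M q
  have habM : ∀ a b : M ≃ₐ[K] M, a * b = b * a := x_comm (K := K) (L := L) (M := M) hζ hab
  letI : CommGroup (M ≃ₐ[K] M) := { (inferInstance : Group (M ≃ₐ[K] M)) with mul_comm := habM }
  rw [pow_one] at hord
  exact a8_core (M := M) hab habM hp hd S S₁ v hv hv1 hS hur χ hχ N hcon hζ (fun h => hqB ⟨hq, h⟩) hord (M ≃ₐ[K] M)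
    (MulEquiv.refl (M ≃ₐ[K] M))

end H16D
end

-- from Lib.H16D.B4
section

/-! # H16D, chunk B4: (M) the exponent of the conductor is at least t + 1 -/

open NumberField IsDedekindDomain

namespace H16D

open CFT

variable {K : Type} [Field K] [NumberField K] {L : Type} [Field L] [NumberField L] [Algebra K L]

/-- THE HALF >= OF THE CONDUCTOR-DISCRIMINANT FORMULA at a ramified prime v = below K w (d = (p-1)(t+1) the exponent of the different at w, hT the estimate of the trace): the character x ↦ art S χ (dv x) is nontrivial on the elements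
which are = 1 mod v^t and in the ray S₁, N, for every N.
PROOF. cd1 (A8) gives x₁ with Ray S₁ N x₁, od v x₁ = 0, art S χ (dv x₁) ≠ 0 (v is ramified: the ramification index at w is p ≠ 1). If t = 0, x₁ is the element (valuation of x₁ - 1 is <= 1 as that of x₁ is 1: val_eq). Let t >= 1. β from in1 (B3) for x₁: V β = 1, x₁ / N β - 1 has valuation
<= exp(-t). N' from ray_norm (B13) for (S₁, N), M from norm_cong (B11) for S = {v} and the number t: if all w' above v have valuation of y - 1 at w' < exp(-M) (only w, by hw) then the valuation of N y - 1 at v is < exp(-t). β' from ap2 (A1) in E = L, u = w, T = up L S₁ (w not in it: below K w = v is not in S₁),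
N', M, b = β: Ray (up L S₁) N' β', and β'/β - 1 has valuation < exp(-M) at w, so N(β'/β) - 1 has valuation < exp(-t) at v. x = x₁ / N β': Ray S₁ N x (Ray.mul, Ray.inv, ray_norm). x = (x₁ / N β) * (N(β'/β))⁻¹, both factors are = 1 mod v^t (the second: 1/(1+δ) - 1 = -δ/(1+δ)),
so x = 1 mod v^t; od v x = 0 (od v x₁ = 0; od v (N β') = 0 because β', β have the same valuation 1 at w, ra3). art S χ (dv x) = art S χ (dv x₁) - art S χ (Nd K L (dv β')) = art S χ (dv x₁) ≠ 0 (Nd_dv, B07; art_Nd, B18). -/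
theorem cd2 [IsGalois K L] (hab : ∀ a b : L ≃ₐ[K] L, a * b = b * a) {p : ℕ} (hp : p.Prime) (hd : Module.finrank K L = p) (w : Pr L)
    (hw : ∀ w' : Pr L, below K w' = below K w → w' = w) (he : w.asIdeal.ramificationIdx (𝓞 K) = p) (hf : w.asIdeal.inertiaDeg (𝓞 K) = 1)
    {t : ℕ} (hpv : 1 ≤ t → (p : 𝓞 K) ∈ (below K w).asIdeal)
    (hT : ∀ (y : L) (j : ℕ), w.valuation L y ≤ WithZero.exp (-(j : ℤ)) →
      (below K w).valuation K (Algebra.trace K L y) ≤ WithZero.exp (-(((j + (p - 1) * (t + 1)) / p : ℕ) : ℤ)))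
    (S S₁ : Finset (Pr K)) (hv1 : below K w ∉ S₁) (hS : ∀ u, u ∈ S ↔ u = below K w ∨ u ∈ S₁) (hur : ∀ u : Pr K, ¬ Unr K L u → u ∈ S)
    {A : Type} [CommGroup A] (χ : (L ≃ₐ[K] L) →* A) (hχ : Function.Injective χ) (N : ℕ) :
    ∃ x : K, Ray S₁ N x ∧ od (below K w) x = 0 ∧ (below K w).valuation K (x - 1) ≤ WithZero.exp (-(t : ℤ)) ∧ art S χ (dv x) ≠ 0 := by
  classical
  have hunr : ¬ Unr K L (below K w) := by
    intro h
    have h1 := h w rfl
    rw [he] at h1
    exact hp.one_lt.ne' h1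
  obtain ⟨x₁, hx₁, ho₁, ha₁⟩ := cd1 hab hp hd S S₁ (below K w) hunr hv1 hS hur χ hχ N
  have hv₁ : (below K w).valuation K x₁ = 1 := by
    rw [val_eq _ hx₁.ne, ho₁, neg_zero, WithZero.exp_zero]
  by_cases ht : t = 0
  · subst ht
    refine ⟨x₁, hx₁, ho₁, ?_, ha₁⟩
    rw [Nat.cast_zero, neg_zero, WithZero.exp_zero]
    refine (Valuation.map_sub _ _ _).trans ?_
    rw [hv₁, map_one, max_self]
  have ht1 : 1 ≤ t := Nat.one_le_iff_ne_zero.2 ht
  obtain ⟨β, hβ, hβ1⟩ := in1 hp hd w hw hf (hpv ht1) ht1 hT x₁ hv₁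
  have hβ0 : β ≠ 0 := by
    rintro rfl
    rw [map_zero] at hβ
    exact zero_ne_one hβ
  have hoβ : od w β = 0 := by
    unfold od
    rw [hβ, WithZero.log_one, neg_zero]
  obtain ⟨N', hN'⟩ := ray_norm (K := K) (L := L) S₁ N
  obtain ⟨M, hM⟩ := norm_cong (K := K) (L := L) {below K w} t
  have hwT : w ∉ up L S₁ := by
    rw [mem_up]
    exact hv1
  obtain ⟨β', hβ', hβ'1⟩ := ap2 w (up L S₁) hwT N' M hβ0 hoβ
  have hβ'0 : β' ≠ 0 := hβ'.ne
  have hγ0 : β' / β ≠ 0 := div_ne_zero hβ'0 hβ0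
  have hγN : (below K w).valuation K (Algebra.norm K (β' / β) - 1) < WithZero.exp (-(t : ℤ)) := by
    refine hM _ hγ0 (fun w' hw' => ?_) (below K w) (Finset.mem_singleton_self _)
    rw [mem_up, Finset.mem_singleton] at hw'
    rw [hw w' hw']
    exact hβ'1
  have hwβ' : w.valuation L β' = 1 := by
    have e : β' = β * (1 + (β' / β - 1)) := by
      field_simp
      ring
    have h1 : w.valuation L (β' / β - 1) < 1 := hβ'1.trans_le (exp_le_one M)
    have h2 : w.valuation L (1 + (β' / β - 1)) = 1 := Valuation.map_one_add_of_lt _ h1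
    rw [e, map_mul, hβ, one_mul, h2]
  have hNβ' : (below K w).valuation K (Algebra.norm K β') = 1 := by rw [ra3 w hw hf, hwβ']
  have hNβ'0 : Algebra.norm K β' ≠ 0 := Algebra.norm_ne_zero_iff.2 hβ'0
  have hNβ0 : Algebra.norm K β ≠ 0 := Algebra.norm_ne_zero_iff.2 hβ0
  have hRN : Ray S₁ N (Algebra.norm K β') := hN' β' hβ'
  refine ⟨x₁ * (Algebra.norm K β')⁻¹, hx₁.mul hRN.inv, ?_, ?_, ?_⟩
  · rw [od_mul _ hx₁.ne (inv_ne_zero hNβ'0), ho₁, od_inv, zero_add, neg_eq_zero]
    unfold od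
    rw [hNβ', WithZero.log_one, neg_zero]
  · have hNγ : Algebra.norm K (β' / β) = Algebra.norm K β' / Algebra.norm K β := by
      rw [eq_div_iff hNβ0, ← map_mul, div_mul_cancel₀ _ hβ0]
    have hNγ1 : (below K w).valuation K (Algebra.norm K (β' / β)) = 1 := by
      have e : Algebra.norm K (β' / β) = 1 + (Algebra.norm K (β' / β) - 1) := by ring
      rw [e]
      exact Valuation.map_one_add_of_lt _ (hγN.trans_le (exp_le_one t))
    have hNγ0 : Algebra.norm K (β' / β) ≠ 0 := Algebra.norm_ne_zero_iff.2 hγ0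
    have e : x₁ * (Algebra.norm K β')⁻¹ - 1 =
        ((x₁ / Algebra.norm K β - 1) - (Algebra.norm K (β' / β) - 1)) * (Algebra.norm K (β' / β))⁻¹ := by
      rw [hNγ]
      field_simp
      ring
    rw [e, map_mul, map_inv₀, hNγ1, inv_one, mul_one]
    exact (Valuation.map_sub _ _ _).trans (max_le hβ1 hγN.le)
  · rw [dv_mul hx₁.ne (inv_ne_zero hNβ'0), dv_inv, map_add, map_neg, ← Nd_dv hβ'0, art_Nd hab S hur, neg_zero, add_zero]
    exact ha₁

end H16D
end

-- from Lib.H16D.C1
section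

/-! # H16D, C1: the half >= of the conductor-discriminant formula, wild and tame primes together -/

open NumberField IsDedekindDomain

namespace H16D

open CFT

variable {N : Type} [Field N] [NumberField N] {L : Type} [Field L] [NumberField L] [Algebra N L]

/-- The character x ↦ art S χ (dv x) is nontrivial on the elements = 1 mod v^t of the ray modulo S₁ (S = S₁ and v): t = 0 for a tame prime v; for v above p the exponent of the different is (p - 1)(t + 1). -/
theorem cd3 [IsGalois N L] {p : ℕ} (hp : p.Prime) (hn : Module.finrank N L = p) (S S₁ : Finset (Pr N)) (v : Pr N) (hv : ¬ Unr N L v)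
    (hv1 : v ∉ S₁) (hS : ∀ u, u ∈ S ↔ u = v ∨ u ∈ S₁) (hur : ∀ u : Pr N, ¬ Unr N L u → u ∈ S) (t : ℕ)
    (hT : t = 0 ∨ ∃ w : Pr L, SSR.TRam p v w t) {A : Type} [CommGroup A] (χ : (L ≃ₐ[N] L) →* A) (hχ : Function.Injective χ) (M : ℕ) :
    ∃ x : N, Ray S₁ M x ∧ od v x = 0 ∧ v.valuation N (x - 1) ≤ WithZero.exp (-(t : ℤ)) ∧ art S χ (dv x) ≠ 0 := by
  have hcyc : IsCyclic (L ≃ₐ[N] L) := by
    have : Fact p.Prime := ⟨hp⟩
    exact isCyclic_of_prime_card (p := p) (by rw [IsGalois.card_aut_eq_finrank, hn])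
  have hab : ∀ a b : L ≃ₐ[N] L, a * b = b * a := by
    let _ : CommGroup (L ≃ₐ[N] L) := hcyc.commGroup
    exact mul_comm
  rcases hT with rfl | ⟨w, hw⟩
  · obtain ⟨x, h1, h2, h3⟩ := cd1 hab hp hn S S₁ v hv hv1 hS hur χ hχ M
    refine ⟨x, h1, h2, ?_, h3⟩
    rw [Nat.cast_zero, neg_zero, WithZero.exp_zero]
    have h4 : v.valuation N x = 1 := by
      rw [val_eq v h1.ne, h2, neg_zero, WithZero.exp_zero]
    refine (Valuation.map_sub (v.valuation N) _ _).trans ?_
    rw [h4, map_one, max_self]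
  · obtain ⟨w₀, h1, h2, h3, h4⟩ := ra1 hp hn hv
    have hwv : below N w = v := by
      apply HeightOneSpectrum.ext
      show w.asIdeal.under (𝓞 N) = v.asIdeal
      have h5 : v.asIdeal ≤ w.asIdeal.under (𝓞 N) := by
        refine Ideal.le_comap_of_map_le ?_
        rw [hw.map]
        exact Ideal.pow_le_self hp.ne_zero
      exact (v.isMaximal.eq_of_le (Ideal.IsPrime.ne_top (Ideal.IsPrime.under (𝓞 N) w.asIdeal)) h5).symm
    have hww : w = w₀ := h2 w hwv
    subst hww
    subst hwv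
    refine cd2 hab hp hn w h2 h3 h4 (fun _ => hw.mem) ?_ S S₁ hv1 hS hur χ hχ M
    intro y j hy
    refine tr1 w h2 h4 (fun j => (j + (p - 1) * (t + 1)) / p) (fun n z hz => ?_) y j hy
    exact SSR.n2_le hw (Nat.mul_div_le _ _) hz

end H16D
end

-- from Lib.H16D.C2
section

/-! # H16D, chunk C2: (M) the ray class character of a cyclic extension of prime degree is primitive -/

open NumberField IsDedekindDomain

namespace H16D

open CFT

variable {N : Type} [Field N] [NumberField N] {L : Type} [Field L] [NumberField L] [Algebra N L]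

theorem c2_val {u : Pr N} {r : 𝓞 N} (n : ℕ) : r ∈ u.asIdeal ^ n ↔ u.valuation N (r : N) ≤ WithZero.exp (-(n : ℤ)) := by
  rw [← HeightOneSpectrum.intValuation_le_pow_iff_mem]
  have h := u.valuation_of_algebraMap (K := N) r
  rw [← h]

/-- An element which is in u^(D u) for all u is in the ideal of D. -/
theorem c2_mem {D : Dv N} (hD : ∀ u, 0 ≤ D u) {r : 𝓞 N} (h : ∀ u : Pr N, r ∈ u.asIdeal ^ (D u).toNat) : r ∈ idl D := by
  by_cases hr : r = 0
  · rw [hr]
    exact (idl D).zero_mem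
  have h1 : ∀ u : Pr N, D u ≤ od u (r : N) := by
    intro u
    have h2 := (od_le_iff u hr (D u).toNat).2 (h u)
    rwa [Int.toNat_of_nonneg (hD u)] at h2
  have h2 : dv (r : N) = D + (dv (r : N) - D) := by abel
  have h3 : ∀ u, 0 ≤ (dv (r : N) - D) u := by
    intro u
    rw [Finsupp.sub_apply, dv_apply]
    have := h1 u
    omega
  have h4 : Ideal.span {r} = idl D * idl (dv (r : N) - D) := by
    rw [← idl_dv hr, ← idl_add hD h3, ← h2]
  have h5 : Ideal.span {r} ≤ idl D := by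
    rw [h4]
    exact Ideal.mul_le_left (I := idl D) (J := idl (dv (r : N) - D))
  exact (Ideal.span_singleton_le_iff_mem _).1 h5

/-- z - 1 in u^n from x = 1 mod u^n. -/
theorem c2_one {u : Pr N} {n : ℕ} {a b c : 𝓞 N} {x : N} (hb0 : (b : N) ≠ 0) (hx : x = (a : N) / (b : N)) (h1 : u.valuation N (x - 1) ≤ WithZero.exp (-(n : ℤ)))
    (h2 : b * c - 1 ∈ u.asIdeal ^ n) : a * c - 1 ∈ u.asIdeal ^ n := by
  have e : a * c - 1 = (a * c - b * c) + (b * c - 1) := by ring
  rw [e]
  refine Ideal.add_mem _ ?_ h2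
  rw [c2_val]
  have e2 : ((a * c - b * c : 𝓞 N) : N) = ((b * c : 𝓞 N) : N) * (x - 1) := by
    rw [hx]
    push_cast
    field_simp
  rw [e2, map_mul]
  calc u.valuation N ((b * c : 𝓞 N) : N) * u.valuation N (x - 1) ≤ 1 * u.valuation N (x - 1) :=
        mul_le_mul_left (u.valuation_le_one _) _
    _ ≤ _ := by
        rw [one_mul]
        exact h1

omit [NumberField N] in
theorem c2_cop {f : Ideal (𝓞 N)} {r : 𝓞 N} (h : ∀ u : Pr N, f ≤ u.asIdeal → r ∉ u.asIdeal) (hf : f ≠ ⊥) : IsCoprime (Ideal.span {r}) f := by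
  rw [Ideal.isCoprime_iff_sup_eq]
  by_contra h1
  obtain ⟨m, hm, hle⟩ := Ideal.exists_le_maximal _ h1
  have hm0 : m ≠ ⊥ := fun h0 => hf (le_bot_iff.1 (h0 ▸ le_sup_right.trans hle))
  exact h ⟨m, hm.isPrime, hm0⟩ (le_sup_right.trans hle) (hle (Ideal.mem_sup_left (Ideal.mem_span_singleton_self r)))

/-- PROOF. S = the finite set of the primes u with f <= u (Ideal.finite_factors, f ≠ 0), S₁ = S without v (classical, Finset.erase). M a number with u^M not dividing f for all u in S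
(finitely many; exponents of f: e.g. M = the sum over S of the multiplicities + 1, multiplicity.pow_dvd_iff_le_multiplicity / FiniteMultiplicity, or emultiplicity).
cd3 (C1): x with Ray S₁ M x, od v x = 0, valuation of x - 1 at v <= exp(-t), art S θ (dv x) ≠ 0. od u x = 0 for all u in S (Ray.od_eq, D2), so by frac_prime (B03) x = a / b, b in no u of S; a also is in no u of S (the valuation of a is that of b: 1). Choose c in O_N with b c - 1 in f (span {b} and f are coprime: no prime contains both;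
Ideal.isCoprime_iff_exists, Ideal.mem_span_singleton'). z = a c (c ≠ 0, a ≠ 0 as x ≠ 0; if b c = 0 then 1 in f, impossible as f <= v). z - 1 = (a c - b c) + (b c - 1) and a c - b c = b c (x - 1), b c a unit at u in S. I: f = v I with I an ideal (Ideal.dvd_iff_le, hv; I * v = f). z - 1 is in I: check at every prime
(an element y ≠ 0 is in I if multiplicity of u in I is <= od u y for all u: le_idl_iff / idl_dv (B04) or Ideal dvd by factor counts; y = z - 1, if it is 0 it is clear): u ≠ v in S: the valuation of x - 1 is < exp(-M), so a c - b c is in u^M, b c - 1 in f; the exponent of u in f is < M. u = v: the exponent of v in I is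
(exponent in f) - 1 <= t (hft), a c - b c in v^t, b c - 1 in f. u not in S: exponent 0. (An alternative that avoids the count: write f = v^s f₀ with s <= t + 1, f₀ not in v (Ideal: exists by finite multiplicity), I = v^(s-1) f₀, and z - 1 in v^(s-1) and in f₀ (coprime ideals: intersection = product);
for f₀ use: an element of f₀ + ... ; the count is easier.)
z is coprime to f: no u of S contains a or c (b c = 1 mod u). ρ (span {b c}) = ρ (span {1}) = ρ 1 = 1 (hper with x = 1 ... : 1 - b c in f, span {1} coprime to f; span {1} = ⊤ = 1). rh1 (C2A): ρ (span {z}) = art S θ (dv z), 1 = ρ (span {b c}) = art S θ (dv (b c)); dv z = dv x + dv (b c) (dv_mul, z = x (b c)),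
so ρ (span {z}) = art S θ (dv x) ≠ 1 (Units.ext, ofMul / toMul injective). -/
theorem cd4 [IsGalois N L] {p : ℕ} (hp : p.Prime) (hn : Module.finrank N L = p) {f : Ideal (𝓞 N)} (hf0 : f ≠ ⊥) {ρ : Ideal (𝓞 N) →*₀ ℂ}
    (hram : ∀ u : Pr N, f ≤ u.asIdeal ↔ ¬ Unr N L u)
    (hper : ∀ x y : 𝓞 N, x ≠ 0 → y ≠ 0 → IsCoprime (Ideal.span {x}) f → x - y ∈ f → ρ (Ideal.span {x}) = ρ (Ideal.span {y}))
    (θ : (L ≃ₐ[N] L) →* ℂˣ) (hθ : Function.Injective θ) (hρ : ∀ u : Pr N, ¬ f ≤ u.asIdeal → ρ u.asIdeal = θ (frob N L u))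
    (v : Pr N) (hv : f ≤ v.asIdeal) (t : ℕ) (hT : t = 0 ∨ ∃ w : Pr L, SSR.TRam p v w t) (hft : ¬ v.asIdeal ^ (t + 2) ∣ f) :
    ∃ I : Ideal (𝓞 N), I * v.asIdeal = f ∧ ∃ z : 𝓞 N, z ≠ 0 ∧ z - 1 ∈ I ∧ IsCoprime (Ideal.span {z}) f ∧ ρ (Ideal.span {z}) ≠ 1 := by
  classical
  obtain ⟨D, hD, hDf⟩ := exists_idl hf0
  have hDv : ∀ (u : Pr N) (n : ℕ), u.asIdeal ^ n ∣ f ↔ (n : ℤ) ≤ D u := by
    intro u n
    rw [← hDf]
    exact le_idl_iff hD u n
  have hSf : ∀ u : Pr N, f ≤ u.asIdeal ↔ u ∈ D.support := by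
    intro u
    rw [← Ideal.dvd_iff_le, Finsupp.mem_support_iff]
    have h1 := hDv u 1
    rw [pow_one] at h1
    rw [h1]
    have := hD u
    constructor
    · intro h
      push_cast at h
      omega
    · intro h
      push_cast
      omega
  have hDv1 : 1 ≤ D v := by
    have h1 := hDv v 1
    rw [pow_one, Ideal.dvd_iff_le] at h1
    have := h1.1 hv
    push_cast at this
    exact this
  have hDvt : D v ≤ t + 1 := by
    rw [hDv] at hft
    push_cast at hft
    omega
  set S := D.support with hS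
  obtain ⟨M, hM⟩ : ∃ M : ℕ, ∀ u ∈ S, D u ≤ M := by
    refine ⟨S.sup fun u => (D u).toNat, fun u hu => ?_⟩
    have h1 : (D u).toNat ≤ S.sup fun u => (D u).toNat := Finset.le_sup (f := fun u => (D u).toNat) hu
    have h2 := Int.toNat_of_nonneg (hD u)
    omega
  have hvu : ¬ Unr N L v := (hram v).1 hv
  have hvS : v ∈ S := (hSf v).1 hv
  obtain ⟨x, hx1, hx2, hx3, hx4⟩ := cd3 hp hn S (S.erase v) v hvu (Finset.notMem_erase v S) (fun u => by
    rw [Finset.mem_erase]
    by_cases huv : u = v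
    · subst huv
      exact ⟨fun _ => Or.inl rfl, fun _ => hvS⟩
    · exact ⟨fun h => Or.inr ⟨huv, h⟩, fun h => h.elim (fun h => absurd h huv) fun h => h.2⟩)
    (fun u hu => (hSf u).1 ((hram u).2 hu)) t hT θ hθ M
  have hxS : ∀ u ∈ S, od u x = 0 := by
    intro u hu
    by_cases huv : u = v
    · rw [huv]
      exact hx2
    · exact hx1.od_eq (Finset.mem_erase.2 ⟨huv, hu⟩)
  obtain ⟨a, b, hb0, hxab, hbS⟩ := frac_prime S fun u hu => (hxS u hu).ge
  have hbK : (b : N) ≠ 0 := fun h => hb0 (RingOfIntegers.coe_eq_zero_iff.1 h)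
  have haK : (a : N) ≠ 0 := by
    intro h
    rw [h, zero_div] at hxab
    exact hx1.ne hxab
  have ha0 : a ≠ 0 := by
    rintro rfl
    exact haK (map_zero _)
  have haS : ∀ u ∈ S, a ∉ u.asIdeal := by
    intro u hu h
    have h1 := (od_pos_iff u ha0).2 h
    have h2 : (a : N) = x * (b : N) := by
      rw [hxab]
      field_simp
    rw [h2, od_mul u hx1.ne hbK, hxS u hu, zero_add, od_pos_iff u hb0] at h1
    exact hbS u hu h1
  obtain ⟨i, hi, j, hj, hij⟩ := Ideal.isCoprime_iff_exists.1 (c2_cop (f := f) (r := b) (fun u hu => hbS u ((hSf u).1 hu)) hf0)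
  obtain ⟨c, rfl⟩ := Ideal.mem_span_singleton'.1 hi
  have hbc : b * c - 1 ∈ f := by
    have e : b * c - 1 = -j := by
      rw [← hij]
      ring
    rw [e]
    exact f.neg_mem hj
  have hcS : ∀ u ∈ S, c ∉ u.asIdeal := by
    intro u hu h
    have h1 : b * c - 1 ∈ u.asIdeal := (hSf u).2 hu hbc
    have h2 : (1 : 𝓞 N) = b * c - (b * c - 1) := by ring
    apply u.isPrime.ne_top
    rw [Ideal.eq_top_iff_one, h2]
    exact Ideal.sub_mem _ (Ideal.mul_mem_left _ _ h) h1
  have hc0 : c ≠ 0 := by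
    rintro rfl
    exact hcS v hvS (Ideal.zero_mem _)
  have hcK : (c : N) ≠ 0 := fun h => hc0 (RingOfIntegers.coe_eq_zero_iff.1 h)
  set DI : Dv N := D - Finsupp.single v 1 with hDI
  have hDIv : DI v = D v - 1 := by
    rw [hDI, Finsupp.sub_apply, Finsupp.single_eq_same]
  have hDIu : ∀ u, u ≠ v → DI u = D u := by
    intro u hu
    rw [hDI, Finsupp.sub_apply, Finsupp.single_eq_of_ne hu, sub_zero]
  have hDI0 : ∀ u, 0 ≤ DI u := by
    intro u
    by_cases huv : u = v
    · rw [huv, hDIv]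
      omega
    · rw [hDIu u huv]
      exact hD u
  refine ⟨idl DI, ?_, a * c, mul_ne_zero ha0 hc0, ?_, ?_, ?_⟩
  · have h1 : idl (Finsupp.single v 1 : Dv N) = v.asIdeal := by
      rw [b04_idl_single]
      simp
    rw [← hDf]
    conv_lhs => rw [← h1]
    rw [← idl_add hDI0 (b04_single v (by norm_num)), hDI, sub_add_cancel]
  · refine c2_mem hDI0 fun u => ?_
    by_cases huv : u = v
    · rw [huv, hDIv]
      refine c2_one hbK hxab (hx3.trans ?_) ?_
      · rw [WithZero.exp_le_exp]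
        omega
      · refine (Ideal.dvd_iff_le.1 ((hDv v _).2 ?_)) hbc
        omega
    · rw [hDIu u huv]
      by_cases huS : u ∈ S
      · refine c2_one hbK hxab ((hx1.cong u (Finset.mem_erase.2 ⟨huv, huS⟩)).le.trans ?_) ?_
        · rw [WithZero.exp_le_exp]
          have := hM u huS
          have := hD u
          omega
        · refine (Ideal.dvd_iff_le.1 ((hDv u _).2 ?_)) hbc
          have := hD u
          omega
      · rw [Finsupp.notMem_support_iff.1 huS, Int.toNat_zero, pow_zero, Ideal.one_eq_top]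
        exact Submodule.mem_top
  · refine c2_cop (fun u hu h => ?_) hf0
    rcases u.isPrime.mem_or_mem h with h | h
    · exact haS u ((hSf u).1 hu) h
    · exact hcS u ((hSf u).1 hu) h
  · have hcopbc : IsCoprime (Ideal.span {b * c}) f := by
      refine c2_cop (fun u hu h => ?_) hf0
      rcases u.isPrime.mem_or_mem h with h | h
      · exact hbS u ((hSf u).1 hu) h
      · exact hcS u ((hSf u).1 hu) h
    have hcopac : IsCoprime (Ideal.span {a * c}) f := by
      refine c2_cop (fun u hu h => ?_) hf0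
      rcases u.isPrime.mem_or_mem h with h | h
      · exact haS u ((hSf u).1 hu) h
      · exact hcS u ((hSf u).1 hu) h
    have h1 : ρ (Ideal.span {b * c}) = 1 := by
      rw [hper (b * c) 1 (mul_ne_zero hb0 hc0) one_ne_zero hcopbc hbc, Ideal.span_singleton_one, ← Ideal.one_eq_top, map_one]
    rw [rh1 S hSf θ hρ (b * c) (mul_ne_zero hb0 hc0) hcopbc] at h1
    rw [rh1 S hSf θ hρ (a * c) (mul_ne_zero ha0 hc0) hcopac]
    have h2 : ((a * c : 𝓞 N) : N) = x * ((b * c : 𝓞 N) : N) := by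
      rw [hxab]
      push_cast
      field_simp
    have hbcK : ((b * c : 𝓞 N) : N) ≠ 0 := by
      push_cast
      exact mul_ne_zero hbK hcK
    have h3 : art S θ (dv ((b * c : 𝓞 N) : N)) = 0 := by
      have h4 : Additive.toMul (art S θ (dv ((b * c : 𝓞 N) : N))) = 1 := Units.ext h1
      exact h4
    rw [h2, dv_mul hx1.ne hbcK, map_add, h3, add_zero]
    intro h5
    apply hx4
    have h6 : Additive.toMul (art S θ (dv x)) = 1 := Units.ext h5
    exact h6

end H16D
end
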