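import Mathlib
import Pool.Agent.Lib.H1M.PP2.M024
import Pool.Agent.Lib.H1M.PP2.M026
import Pool.Agent.Lib.H1M.PP2.M033

/-! Merged copies (to shorten the build) of Lib.CFT.Y16, Lib.H69H.D6, Lib.H69H.E6, Lib.H69H.U7, Lib.CFT.Y17, Lib.CFT.Y18, Lib.CFT.Y22, Lib.CFT.ZF, Lib.H69H.Z1, Lib.H69H.E3, Lib.H69H.E4, Lib.H69H.E5, Lib.H69H.E1, Lib.H69H.T2, Lib.H69H.E2, Lib.H69H.V1a, Lib.H69H.V1b, Lib.H69H.V1, Lib.H69H.F1. -/

-- from Lib.CFT.Y16
section

/-! # CFT module Y, chunk Y16: sums over cosets -/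

open NumberField

namespace CFTY

variable {K : Type} [Field K] [NumberField K]

/-- PROOF. `fs_norm`, `summ_house` with `β = d re s`. -/
theorem fs_summable {g : K → ℂ} {A : ℝ} (hB : Bd g) (hA : ∀ x, g x ≠ 0 → Rg A x) {s : ℂ} (hs : 1 < s.re) :
    Summable fun x : 𝓞 K => Fs g s (x : K) := by
  obtain ⟨C, hC⟩ := fs_norm hB hA s (by linarith)
  have hd : (1 : ℝ) ≤ dg K := by exact_mod_cast (dg_pos (K := K))
  refine Summable.of_norm_bounded ((summ_house (K := K) (β := (dg K : ℝ) * s.re) ?_).mul_left C) hC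
  nlinarith

/-- PROOF. Injective image in `𝓞 K` of a summable family. -/
theorem fs_summable_coset {g : K → ℂ} {A : ℝ} (hB : Bd g) (hA : ∀ x, g x ≠ 0 → Rg A x) {s : ℂ} (hs : 1 < s.re)
    (J : Ideal (𝓞 K)) (h : 𝓞 K) : Summable fun j : J => Fs g s (((j : 𝓞 K) : K) + (h : K)) := by
  have hi : Function.Injective fun j : J => (j : 𝓞 K) + h := fun a b hab => Subtype.ext (add_right_cancel hab)
  have h2 : Summable fun j : J => Fs g s (((j : 𝓞 K) + h : 𝓞 K) : K) := (fs_summable hB hA hs).comp_injective hi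
  refine h2.congr fun j => ?_
  have e : (((j : 𝓞 K) + h : 𝓞 K) : K) = ((j : 𝓞 K) : K) + (h : K) := rfl
  rw [e]

end CFTY
end

-- from Lib.H69H.D6
section

set_option autoImplicit false
set_option linter.unusedSectionVars false

namespace Pool.Agent.H69H

open NumberField IsDedekindDomain CFT

variable {K : Type} [Field K] [NumberField K] {L : Type} [Field L] [NumberField L] [Algebra K L]

/-- The conorm, multiplicative notation. -/
noncomputable def d6_con (K L : Type) [Field K] [NumberField K] [Field L] [NumberField L] [Algebra K L] :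
    Multiplicative (Dv K) →* Multiplicative (Dv L) := AddMonoidHom.toMultiplicative (con K L)

theorem d6_con_apply (D : Dv K) : d6_con K L (Multiplicative.ofAdd D) = Multiplicative.ofAdd (con K L D) := rfl

theorem d6_inj : Function.Injective (d6_con K L) := fun a b h => con_injective (K := K) (L := L) h

theorem d6_mem_dif (σ : L ≃ₐ[K] L) (D : Multiplicative (Dv L)) :
    dif (sM σ) D = 1 ↔ sD σ (Multiplicative.toAdd D) = Multiplicative.toAdd D := by
  rw [dif_apply, div_eq_one]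
  exact Iff.rfl

theorem d6_sD_con (σ : L ≃ₐ[K] L) (D : Dv K) : sD σ (con K L D) = con K L D := by
  ext w
  rw [sD_apply, con_apply, con_apply, below_gp, d4_ram_gp]

theorem d6_relIndex {A : Type*} [AddGroup A] (H J : AddSubgroup A) :
    (AddSubgroup.toSubgroup H).relIndex (AddSubgroup.toSubgroup J) = H.relIndex J := rfl

/-- PROOF. `H := tate (dif (sM σ)) (nrm n (sM σ)) ⊥ (MT L T)` and `H' := tate (nrm) (dif) ⊥ (MT L T)` are not `0` (`tate_fg`, G4, `MT_fg`, D5, `sM_iter`, D1; `MT L T` is stable: `below_gp`). `exists_her`: `Her ⊥ (MT L T) t`, and `t = H / H' ≤ H`.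
`H = ((DTL L T).map (Nd K L)).relIndex (DTK T)`: the injective homomorphism `con` (D2) maps `DTK T` onto the invariants of `DTL L T` (`inv_con`, D5; `con E` is invariant by `below_gp` and the ramification index of `gp σ w`, or because
`T` is unramified: only primes above `T` count) and `(DTL L T).map Nd` onto the image of `nrm` (`con_Nd`, D4). Index under injective maps: `AddSubgroup.relIndex_map_map_of_injective`; `Subgroup.relIndex` and `AddSubgroup.relIndex` are compared by
`AddSubgroup.toSubgroup`/`Subgroup.toAddSubgroup` (the same quotient; if there is no lemma, unfold `relIndex`, `index` and `Nat.card_congr`). -/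
theorem her_MT [IsGalois K L] (σ : L ≃ₐ[K] L) (hσ : ∀ x, x ∈ Subgroup.zpowers σ) (T : Finset (Pr K))
    (hT : ∀ v ∈ T, Unr K L v) :
    ∃ t : ℚ, Her (dif (sM σ)) (nrm (Module.finrank K L) (sM σ)) ⊥ (MT L T) t ∧
      t ≤ ((DTL L T).map (Nd K L)).relIndex (DTK T) ∧ ((DTL L T).map (Nd K L)).relIndex (DTK T) ≠ 0 := by
  classical
  have hstab : ∀ x ∈ MT L T, sM σ x ∈ MT L T := by
    intro x hx
    rw [mem_MT] at hx ⊢
    intro w hw
    show sD σ (Multiplicative.toAdd x) w = 0
    rw [sD_apply]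
    exact hx _ (by rwa [below_gp])
  obtain ⟨h1, h2⟩ := tate_fg (sM σ) (n := Module.finrank K L) Module.finrank_pos.ne'
    (fun x => sM_iter σ x) (A := ⊥) (B := MT L T)
    (fun x hx => by
      rw [Subgroup.mem_bot] at hx ⊢
      rw [hx, map_one]) hstab bot_le (MT_fg T)
  have hkey : ((DTL L T).map (Nd K L)).relIndex (DTK T) =
      tate (dif (sM σ)) (nrm (Module.finrank K L) (sM σ)) ⊥ (MT L T) := by
    rw [← d6_relIndex, ← Subgroup.relIndex_map_map_of_injective _ _ (d6_inj (K := K) (L := L))]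
    unfold tate
    congr 1
    · rw [sup_bot_eq]
      ext D
      constructor
      · rintro ⟨E, ⟨F, hF, hE⟩, rfl⟩
        refine ⟨Multiplicative.ofAdd F, hF, ?_⟩
        have h3 := con_Nd (K := K) (L := L) σ hσ F
        have h4 : Nd K L F = Multiplicative.toAdd E := hE
        rw [h4] at h3
        show nrm (Module.finrank K L) (sM σ) (Multiplicative.ofAdd F) =
          Multiplicative.ofAdd (con K L (Multiplicative.toAdd E))
        rw [h3]
        rfl
      · rintro ⟨F, hF, rfl⟩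
        refine ⟨Multiplicative.ofAdd (Nd K L (Multiplicative.toAdd F)), ⟨Multiplicative.toAdd F, hF, rfl⟩, ?_⟩
        rw [d6_con_apply, con_Nd σ hσ]
        rfl
    · ext D
      rw [Subgroup.mem_inf, Subgroup.mem_comap, Subgroup.mem_bot, d6_mem_dif]
      constructor
      · rintro ⟨E, hE, rfl⟩
        refine ⟨?_, d6_sD_con σ _⟩
        rw [mem_MT]
        intro w hw
        show con K L (Multiplicative.toAdd E) w = 0
        rw [con_apply]
        have h3 : (Multiplicative.toAdd E) (below K w) = 0 := hE (below K w) hw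
        rw [h3, mul_zero]
      · rintro ⟨hD, hs⟩
        obtain ⟨E, hE, h3⟩ := inv_con σ hσ T hT (Multiplicative.toAdd D) hD hs
        refine ⟨Multiplicative.ofAdd E, hE, ?_⟩
        rw [d6_con_apply, ← h3]
        rfl
  obtain ⟨t, ht⟩ := exists_her h1 h2
  refine ⟨t, ht, ?_, ?_⟩
  · rw [hkey, ht.eq]
    have h3 : (1 : ℚ) ≤ tate (nrm (Module.finrank K L) (sM σ)) (dif (sM σ)) ⊥ (MT L T) := by
      exact_mod_cast Nat.one_le_iff_ne_zero.2 h2
    exact le_mul_of_one_le_right ht.pos.le h3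
  · rw [hkey]
    exact h1

end Pool.Agent.H69H
end

-- from Lib.H69H.E6
section

set_option autoImplicit false
set_option linter.unusedSectionVars false

namespace Pool.Agent.H69H

open NumberField IsDedekindDomain CFT

variable {K : Type} [Field K] [NumberField K] {L : Type} [Field L] [NumberField L] [Algebra K L]

theorem e6_Nd (T : Finset (Pr K)) (E : Dv L) (hE : E ∈ DTL L T) (v : Pr K) (hv : v ∉ T) : Nd K L E v = 0 := by
  unfold Nd
  rw [Finsupp.liftAddHom_apply, Finsupp.sum, Finsupp.finsetSum_apply]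
  refine Finset.sum_eq_zero fun w hw => ?_
  show (Finsupp.single (below K w) (((w.asIdeal.inertiaDeg (𝓞 K) : ℕ) : ℤ) * E w)) v = 0
  rw [Finsupp.single_eq_of_ne]
  rintro rfl
  exact (Finsupp.mem_support_iff.1 hw) (hE w hv)

variable [IsGalois K L] {σ : L ≃ₐ[K] L} (hσ : ∀ x, x ∈ Subgroup.zpowers σ) {S T : Finset (Pr K)} {V : Subgroup Lˣ} {N : ℕ}

include hσ in
/-- PROOF. `(DTL L T).map Nd ≤ QQ ≤ DTK T` (`κ` is supported on `T`: `od_algebraMap`, `e ≠ 0`, `below_surj`), so the left side is `((DTL L T).map Nd).relIndex QQ * QQ.relIndex (DTK T)`. The first factor is at most the index of `(ET V T).map nrm` in `PP V T`: the map `PP V T → QQ / (DTL L T).map Nd`, `kU κ ↦ dv κ`, is onto and `nrm y ↦ Nd (dv y)`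
(`nrm_eq`, C1, `Nd_dv`, D4) is trivial. (In Lean: an injection from representatives, or a homomorphism `PP V T →* Multiplicative (Dv K)`; `kU` is injective, or work in `Kˣ` with the comap of `PP V T` under `kU`.) -/
theorem QQ_index (hV : IsV σ S V) (hT : IsT σ S V N T)
    (h0 : ((ET V T).map (nrm (Module.finrank K L) (sU σ))).relIndex (PP V T) ≠ 0) :
    ((DTL L T).map (Nd K L)).relIndex (DTK T) ≤ (QQ (L := L) V T).relIndex (DTK T) *
      ((ET V T).map (nrm (Module.finrank K L) (sU σ))).relIndex (PP V T) := by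
  have hinj : Function.Injective (kU K L) := by
    intro a b h
    apply Units.ext
    have h1 := congrArg Units.val h
    rw [kU_coe, kU_coe] at h1
    exact (algebraMap K L).injective h1
  have hle1 : (DTL L T).map (Nd K L) ≤ QQ (L := L) V T := by
    rintro _ ⟨E, hE, rfl⟩
    refine ⟨1, by rw [map_one]; exact one_mem _, fun φ _ => by simp, E, hE, ?_⟩
    rw [Units.val_one, dv_one, zero_add]
  have hle2 : QQ (L := L) V T ≤ DTK T := by
    rintro _ ⟨κ, h1, _, E, hE, rfl⟩ v hv
    rw [Finsupp.add_apply, e6_Nd T E hE v hv, add_zero, dv_apply]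
    obtain ⟨w, rfl⟩ := below_surj L v
    have h2 := h1.2 w hv
    have h3 : od w (algebraMap K L (κ : K)) = 0 := h2
    rw [od_algebraMap] at h3
    exact (mul_eq_zero.1 h3).resolve_left (ram_ne w)
  rw [← AddSubgroup.relIndex_mul_relIndex _ _ _ hle1 hle2, mul_comm]
  refine Nat.mul_le_mul_left _ ?_
  have e1 : ((ET V T).map (nrm (Module.finrank K L) (sU σ))).relIndex (PP V T) =
      (((ET V T).map (nrm (Module.finrank K L) (sU σ))).comap (kU K L)).relIndex ((PP V T).comap (kU K L)) := by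
    rw [Subgroup.relIndex_comap, Subgroup.map_comap_eq, inf_eq_right.2]
    rintro _ ⟨_, κ, rfl, _⟩
    exact ⟨κ, rfl⟩
  have e2 : AddSubgroup.toSubgroup (QQ (L := L) V T) =
      ((PP V T).comap (kU K L)).map (dvU K) ⊔ AddSubgroup.toSubgroup ((DTL L T).map (Nd K L)) := by
    ext D
    rw [Subgroup.mem_sup]
    constructor
    · rintro ⟨κ, h1, h2, E, hE, h3⟩
      refine ⟨dvU K κ, ⟨κ, ⟨h1, κ, rfl, h2⟩, rfl⟩, Multiplicative.ofAdd (Nd K L E), ⟨E, hE, rfl⟩, ?_⟩
      exact h3.symm
    · rintro ⟨_, ⟨κ, h1, rfl⟩, _, ⟨E, hE, rfl⟩, rfl⟩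
      obtain ⟨h1, μ, h2, h3⟩ := h1
      rw [hinj h2] at h1 ⊢
      exact ⟨μ, h1, h3, E, hE, rfl⟩
  rw [← AddSubgroup.relIndex_toSubgroup, e2, Subgroup.relIndex_sup_right, ← Subgroup.relIndex_comap, e1]
  refine Subgroup.relIndex_le_of_le_left ?_ (by rw [← e1]; exact h0)
  rintro κ ⟨y, hy, h1⟩
  rw [nrm_eq σ hσ] at h1
  have h2 := hinj h1
  refine ⟨dv (y : L), fun w hw => hy.2 w hw, ?_⟩
  rw [← h2]
  exact Nd_dv y

end Pool.Agent.H69H
end

-- from Lib.H69H.U7
section

set_option autoImplicit false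
set_option linter.unusedSectionVars false

namespace Pool.Agent.H69H

open NumberField IsDedekindDomain CFT

variable {K : Type} [Field K] [NumberField K] {L : Type} [Field L] [NumberField L] [Algebra K L]

theorem u7_dif {X Y : Type*} [CommGroup X] [CommGroup Y] (φ : X →* Y) {s : X →* X} {s' : Y →* Y}
    (h : ∀ x, φ (s x) = s' (φ x)) (x : X) : φ (dif s x) = dif s' (φ x) := by
  rw [dif_apply, dif_apply, map_div, h]

theorem u7_iter {X Y : Type*} [CommGroup X] [CommGroup Y] (φ : X →* Y) {s : X →* X} {s' : Y →* Y}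
    (h : ∀ x, φ (s x) = s' (φ x)) (i : ℕ) (x : X) : φ (s^[i] x) = s'^[i] (φ x) := by
  induction i with
  | zero => rfl
  | succ i ih => rw [Function.iterate_succ_apply', Function.iterate_succ_apply', h, ih]

theorem u7_nrm {X Y : Type*} [CommGroup X] [CommGroup Y] (φ : X →* Y) {s : X →* X} {s' : Y →* Y}
    (h : ∀ x, φ (s x) = s' (φ x)) (n : ℕ) (x : X) : φ (nrm n s x) = nrm n s' (φ x) := by
  rw [nrm_apply, nrm_apply, map_prod]
  exact Finset.prod_congr rfl fun i _ => u7_iter φ h i x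

theorem u7_smul_iter (σ : L ≃ₐ[K] L) (i : ℕ) (w : InfinitePlace L) : (fun w => σ • w)^[i] w = σ ^ i • w := by
  induction i with
  | zero => simp
  | succ i ih => rw [Function.iterate_succ_apply', ih, pow_succ', mul_smul]

theorem u7_sW_iter {W : Type*} (p : W ≃ W) (i : ℕ) (x : Multiplicative (W → ℤ)) (w : W) :
    Multiplicative.toAdd ((sW p)^[i] x) w = Multiplicative.toAdd x (p.symm^[i] w) := by
  induction i generalizing w with
  | zero => rfl
  | succ i ih =>
    rw [Function.iterate_succ_apply', sW_apply, ih, ← Function.iterate_succ_apply]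

/-- PROOF. `ε` from `exists_eps` (U1), `φ = phi ε`, `s = sW (MulAction.toPerm σ)` on `M = Multiplicative (InfinitePlace L → ℤ)`; `φ (s x) = sU σ (φ x)` (reindex the product), so
`φ` commutes with `dif` and `nrm`. `tate_perm` (G6), with `q w = w.comap (algebraMap K L)` (surjective: `InfinitePlace.comap_surjective`), `R = RamInf K L`, `hc` = `infPlace_count` (U6): `Her ⊥ ⊤ t0`, `t0 ≤ 2 ^ r`.
Kernel of `φ`: `zpowers c`, `s c = c` (`phi_ker`, U4), so `Her ⊥ (ker φ) n` (`her_zpowers`, G5), and `Her (ker φ) ⊤ (t0 / n)` (`her_high`, A1). By `tate_map` (G2, `A = ker φ`, `B = ⊤`, both `tate f g` and `tate g f`):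
`Her ⊥ (range φ) (t0 / n)` for `sU σ`. `range φ` has finite index in `UL L` (`phi_range`, U5), so `Her (range φ) (UL L) 1` (`her_finite`) and `her_mid` give `Her ⊥ (UL L) (t0 / n * 1)`.
`UL L` is stable under `sU σ` (the divisor of `σ x`: D1 `dvU_sU`, or through `UL_eq`); `isPair_dif_nrm`, `isStable_of` (G3), `sU_iter` (C1). -/
theorem her_units [IsGalois K L] (σ : L ≃ₐ[K] L) (hσ : ∀ x, x ∈ Subgroup.zpowers σ) :
    ∃ t : ℚ, Her (dif (sU σ)) (nrm (Module.finrank K L) (sU σ)) ⊥ (UL L) t ∧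
      t ≤ 2 ^ (RamInf K L).card / Module.finrank K L := by
  classical
  obtain ⟨ε, e1, e2, e3⟩ := exists_eps K L
  set n := Module.finrank K L with hn
  have hn0 : n ≠ 0 := Module.finrank_pos.ne'
  have hσn : σ ^ n = 1 := by
    rw [hn, ← IsGalois.card_aut_eq_finrank, pow_card_eq_one']
  let p : InfinitePlace L ≃ InfinitePlace L := MulAction.toPerm σ
  have hp : ∀ w, p w = σ • w := fun w => rfl
  have hps : ∀ w, p.symm w = σ⁻¹ • w := fun w => rfl
  let s := sW p
  let φ := phi ε
  have hφ : ∀ x, φ (s x) = sU σ (φ x) := by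
    intro x
    show phi ε (sW p x) = sU σ (phi ε x)
    rw [phi_apply, phi_apply, map_prod]
    rw [← Equiv.prod_comp p]
    refine Finset.prod_congr rfl fun w _ => ?_
    rw [sW_apply, Equiv.symm_apply_apply, map_zpow, e2, hp]
  have hpn : ∀ w, p^[n] w = w := by
    intro w
    have := u7_smul_iter σ n w
    rw [hσn, one_smul] at this
    exact this
  have hpsn : ∀ w, p.symm^[n] w = w := by
    intro w
    have := u7_smul_iter σ⁻¹ n w
    rw [inv_pow, hσn, inv_one, one_smul] at this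
    exact this
  have hsn : ∀ x, s^[n] x = x := by
    intro x
    apply Multiplicative.toAdd.injective
    funext w
    show Multiplicative.toAdd ((sW p)^[n] x) w = _
    rw [u7_sW_iter, hpsn]
  obtain ⟨t0, ht0, ht1⟩ := tate_perm (fun w : InfinitePlace L => w.comap (algebraMap K L)) InfinitePlace.comap_surjective
    p hn0 hpn (RamInf K L) (fun w => by
      show (σ • w).comap (algebraMap K L) = w.comap (algebraMap K L)
      rw [InfinitePlace.comap_smul]
      congr 1
      ext z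
      exact σ.symm.commutes z) (fun w w' h => infPlace_count σ hσ w w' h)
  obtain ⟨c, c1, c2, c3⟩ := phi_ker ε e1 e2 e3
  have hsc : s c = c := by
    apply Multiplicative.toAdd.injective
    funext w
    show Multiplicative.toAdd (sW p c) w = _
    rw [sW_apply, hps]
    exact c3 σ⁻¹ w
  have hP : IsPair (dif s) (nrm n s) := isPair_dif_nrm s hsn
  have hP' : IsPair (dif (sU σ)) (nrm n (sU σ)) := isPair_dif_nrm (sU σ) fun x => sU_iter σ x
  have sbot : IsStable (dif s) (nrm n s) ⊥ := isStable_of s n fun x hx => by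
    rw [Subgroup.mem_bot] at hx ⊢
    rw [hx, map_one]
  have stop : IsStable (dif s) (nrm n s) ⊤ := isStable_of s n fun x _ => Subgroup.mem_top _
  have sker : IsStable (dif s) (nrm n s) φ.ker := isStable_of s n fun x hx => by
    rw [MonoidHom.mem_ker] at hx ⊢
    rw [hφ, hx, map_one]
  have hz : Her (dif s) (nrm n s) ⊥ φ.ker n := by
    have := her_zpowers s hn0 hsc c2
    rw [← c1] at this
    exact this
  have hh := her_high hP sbot sker stop bot_le le_top ht0 hz
  have hrange : (⊤ : Subgroup _).map φ = φ.range := by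
    rw [MonoidHom.range_eq_map]
  have hkm : φ.ker.map φ = ⊥ := by
    rw [eq_bot_iff]
    rintro _ ⟨x, hx, rfl⟩
    exact hx
  have m1 := tate_map φ (f' := dif (sU σ)) (g' := nrm n (sU σ)) (fun x => u7_dif φ hφ x) (fun x => u7_nrm φ hφ n x) hP
    (A := φ.ker) (B := ⊤) le_top sker stop inf_le_right
  have m2 := tate_map φ (f' := nrm n (sU σ)) (g' := dif (sU σ)) (fun x => u7_nrm φ hφ n x) (fun x => u7_dif φ hφ x) hP.symm
    (A := φ.ker) (B := ⊤) le_top sker.symm stop.symm inf_le_right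
  rw [hrange, hkm] at m1 m2
  have hr : Her (dif (sU σ)) (nrm n (sU σ)) ⊥ φ.range (t0 / n) := by
    refine ⟨?_, ?_, ?_⟩
    · rw [← m1]
      exact hh.left
    · rw [← m2]
      exact hh.right
    · rw [← m1, ← m2]
      exact hh.eq
  obtain ⟨r1, r2⟩ := phi_range ε e1 e2 e3
  have tbot : IsStable (dif (sU σ)) (nrm n (sU σ)) ⊥ := isStable_of _ n fun x hx => by
    rw [Subgroup.mem_bot] at hx ⊢
    rw [hx, map_one]
  have trange : IsStable (dif (sU σ)) (nrm n (sU σ)) φ.range := isStable_of _ n fun x hx => by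
    obtain ⟨y, rfl⟩ := hx
    exact ⟨s y, hφ y⟩
  have tUL : IsStable (dif (sU σ)) (nrm n (sU σ)) (UL L) := isStable_of _ n fun x hx => by
    rw [UL_eq] at hx
    obtain ⟨u, rfl⟩ := hx
    have i1 : IsIntegral ℤ ((Units.map (algebraMap (𝓞 L) L : 𝓞 L →* L) u : Lˣ) : L) := (u : 𝓞 L).isIntegral_coe
    have i2 : IsIntegral ℤ (((Units.map (algebraMap (𝓞 L) L : 𝓞 L →* L) u)⁻¹ : Lˣ) : L) := by
      rw [← map_inv]
      exact ((u⁻¹ : (𝓞 L)ˣ) : 𝓞 L).isIntegral_coe
    refine u1_mem ?_ ?_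
    · rw [sU_coe]
      exact i1.map ((σ : L →+* L).toIntAlgHom)
    · rw [← map_inv, sU_coe]
      exact i2.map ((σ : L →+* L).toIntAlgHom)
  have hf := her_finite hP' trange tUL r1 r2
  have hfin := her_mid hP' tbot trange tUL bot_le r1 hr hf
  refine ⟨t0 / n * 1, hfin, ?_⟩
  rw [mul_one]
  have : (0 : ℚ) < n := by exact_mod_cast Nat.pos_of_ne_zero hn0
  gcongr

end Pool.Agent.H69H
end

-- from Lib.CFT.Y17
section

/-! # CFT module Y, chunk Y17: translation of a coset -/

open NumberField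

namespace CFTY

variable {K : Type} [Field K] [NumberField K]

/-- for fixed `x` the function `Fs g s x` is analytic in `s` (if `nm x ≠ 0`; for `x = 0` it is 0 because `g 0 = 0`) -/
theorem fs_diffble {g : K → ℂ} (hg : g 0 = 0) (x : K) : Differentiable ℂ fun s => Fs g s x := by
  unfold Fs
  by_cases hx : x = 0
  · have e : (fun s : ℂ => g x * (nm x : ℂ) ^ (-s)) = fun _ => 0 := by
      funext s
      rw [hx, hg, zero_mul]
    rw [e]
    exact differentiable_const _
  · have h1 : (nm x : ℂ) ≠ 0 := by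
      exact_mod_cast (nm_pos hx).ne'
    exact (differentiable_id.neg.const_cpow (Or.inl h1)).const_mul _

/-- PROOF. `HP K` is open, it is the union of the open sets `{s | σ₀ < re s, ‖s‖ < R}`, `σ₀ > 1 - 1/d`, `σ₀ ≥ 0`. There `differentiableOn_tsum_of_summable_norm` with
the bound of `fs_diff`, summable by `summ_house` (`β = d σ₀ + 1 > d`; restricted to `J`). -/
theorem trans_diff {g : K → ℂ} {A : ℝ} (hB : Bd g) (hL : LL g) (hA : ∀ x, g x ≠ 0 → Rg A x) (J : Ideal (𝓞 K)) (h : 𝓞 K) :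
    DifferentiableOn ℂ (fun s => ∑' j : J, (Fs g s (((j : 𝓞 K) : K) + (h : K)) - Fs g s ((j : 𝓞 K) : K))) (HP K) := by
  have hg : g 0 = 0 := by
    by_contra hne
    exact (hA 0 hne).1 rfl
  have hd : (1 : ℝ) ≤ dg K := by exact_mod_cast (dg_pos (K := K))
  have hd1 : 1 / (dg K : ℝ) ≤ 1 := (div_le_one (by linarith)).2 hd
  intro s₀ hs₀
  have hs1 : 1 - 1 / (dg K : ℝ) < s₀.re := hs₀
  obtain ⟨σ, hσ1, hσ2⟩ := exists_between hs1
  have hσ0 : 0 ≤ σ := by linarith
  have hσd : (dg K : ℝ) < (dg K : ℝ) * σ + 1 := by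
    have h3 : (dg K : ℝ) * (1 - 1 / (dg K : ℝ)) < (dg K : ℝ) * σ := mul_lt_mul_of_pos_left hσ1 (by linarith)
    have h4 : (dg K : ℝ) * (1 - 1 / (dg K : ℝ)) = (dg K : ℝ) - 1 := by
      have : (dg K : ℝ) ≠ 0 := by linarith
      field_simp
    linarith
  obtain ⟨C, hC⟩ := fs_diff hB hL hA h (R := ‖s₀‖ + 1) (σ₀ := σ) (by positivity) hσ0
  let U : Set ℂ := {s | σ < s.re ∧ ‖s‖ < ‖s₀‖ + 1}
  have hU : IsOpen U := (isOpen_lt continuous_const Complex.continuous_re).inter (isOpen_lt continuous_norm continuous_const)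
  have hsU : s₀ ∈ U := ⟨hσ2, by linarith⟩
  have hsum : Summable fun j : J => C * (1 + house (((j : 𝓞 K)) : K)) ^ (-((dg K : ℝ) * σ + 1)) :=
    ((summ_house (K := K) hσd).comp_injective (Subtype.val_injective (p := fun x => x ∈ J))).mul_left C
  have hdiff : DifferentiableOn ℂ (fun s => ∑' j : J, (Fs g s (((j : 𝓞 K) : K) + (h : K)) - Fs g s ((j : 𝓞 K) : K))) U := by
    refine Complex.differentiableOn_tsum_of_summable_norm hsum (fun j => ?_) hU (fun j s hs => ?_)
    · exact ((fs_diffble hg _).sub (fs_diffble hg _)).differentiableOn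
    · exact hC s hs.2.le hs.1.le j
  exact (hdiff.differentiableAt (hU.mem_nhds hsU)).differentiableWithinAt

end CFTY
end

-- from Lib.CFT.Y18
section

/-! # CFT module Y, chunk Y18: periodic weights with mean value zero -/

open NumberField

namespace CFTY

variable {K : Type} [Field K] [NumberField K]

/-- PROOF. `H s = ∑ q : 𝓞 K ⧸ J, a q * ∑' j : J, (Fs g s (j + r q) - Fs g s j)` where `r q` is a representative of `q` (`Quotient.out` or
`Ideal.Quotient.mk_surjective`). Analytic: `trans_diff`. For `re s > 1`: `𝓞 K` is the disjoint union of the cosets `r q + J` (`Equiv.sigmaFiberEquiv`,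
or the bijection `(𝓞 K ⧸ J) × J ≃ 𝓞 K`, `(q, j) ↦ j + r q`, e.g. `AddSubgroup.addGroupEquivQuotientProdAddSubgroup`), everything is summable
(`fs_summable`, `fs_summable_coset`): `∑' x, a x Fs x = ∑ q, a q ∑' j, Fs (j + r q)`, and `∑ q, a q * ∑' j, Fs j = 0`. -/
theorem periodic {g : K → ℂ} {A : ℝ} (hB : Bd g) (hL : LL g) (hA : ∀ x, g x ≠ 0 → Rg A x) (J : Ideal (𝓞 K)) (hJ : J ≠ ⊥)
    (a : 𝓞 K ⧸ J → ℂ) (ha : ∑ᶠ q, a q = 0) : ∃ H : ℂ → ℂ, DifferentiableOn ℂ H (HP K) ∧
      ∀ s : ℂ, 1 < s.re → H s = ∑' x : 𝓞 K, a (Ideal.Quotient.mk J x) * Fs g s (x : K) := by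
  classical
  haveI : Finite (𝓞 K ⧸ J) := Ideal.finiteQuotientOfFreeOfNeBot _ hJ
  haveI : Fintype (𝓞 K ⧸ J) := Fintype.ofFinite _
  rw [finsum_eq_sum_of_fintype] at ha
  obtain ⟨r, hr⟩ : ∃ r : 𝓞 K ⧸ J → 𝓞 K, ∀ q, Ideal.Quotient.mk J (r q) = q :=
    ⟨Function.surjInv Ideal.Quotient.mk_surjective, Function.surjInv_eq Ideal.Quotient.mk_surjective⟩
  refine ⟨fun s => ∑ q, a q * ∑' j : J, (Fs g s (((j : 𝓞 K) : K) + (r q : K)) - Fs g s ((j : 𝓞 K) : K)), ?_, ?_⟩
  · exact DifferentiableOn.fun_sum fun q _ => (trans_diff hB hL hA J (r q)).const_mul (a q)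
  · intro s hs
    have hS0 : Summable fun j : J => Fs g s ((j : 𝓞 K) : K) := by
      have h := fs_summable_coset hB hA hs J 0
      refine h.congr fun j => ?_
      have h0 : ((0 : 𝓞 K) : K) = 0 := map_zero (algebraMap (𝓞 K) K)
      rw [h0, add_zero]
    have hSq : ∀ q, Summable fun j : J => Fs g s (((j : 𝓞 K) : K) + (r q : K)) := fun q => fs_summable_coset hB hA hs J (r q)
    have h1 : ∀ q, ∑' j : J, (Fs g s (((j : 𝓞 K) : K) + (r q : K)) - Fs g s ((j : 𝓞 K) : K)) =
        (∑' j : J, Fs g s (((j : 𝓞 K) : K) + (r q : K))) - ∑' j : J, Fs g s ((j : 𝓞 K) : K) := fun q => (hSq q).tsum_sub hS0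
    have hF := fs_summable hB hA hs (K := K)
    have hsum : Summable fun x : 𝓞 K => a (Ideal.Quotient.mk J x) * Fs g s (x : K) := by
      refine Summable.of_norm_bounded (g := fun x : 𝓞 K => (∑ q, ‖a q‖) * ‖Fs g s (x : K)‖) (hF.norm.mul_left _) fun x => ?_
      rw [norm_mul]
      refine mul_le_mul_of_nonneg_right ?_ (norm_nonneg _)
      exact Finset.single_le_sum (f := fun q => ‖a q‖) (fun q _ => norm_nonneg _) (Finset.mem_univ _)
    let e : (𝓞 K ⧸ J) × J ≃ 𝓞 K :=
      { toFun := fun p => (p.2 : 𝓞 K) + r p.1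
        invFun := fun x => (Ideal.Quotient.mk J x, ⟨x - r (Ideal.Quotient.mk J x), by
          rw [← Ideal.Quotient.eq_zero_iff_mem, map_sub, hr, sub_self]⟩)
        left_inv := by
          rintro ⟨q, j⟩
          have h2 : Ideal.Quotient.mk J ((j : 𝓞 K) + r q) = q := by
            rw [map_add, hr, Ideal.Quotient.eq_zero_iff_mem.2 j.2, zero_add]
          refine Prod.ext h2 ?_
          apply Subtype.ext
          change (j : 𝓞 K) + r q - r (Ideal.Quotient.mk J ((j : 𝓞 K) + r q)) = j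
          rw [h2, add_sub_cancel_right]
        right_inv := by
          intro x
          change x - r (Ideal.Quotient.mk J x) + r (Ideal.Quotient.mk J x) = x
          rw [sub_add_cancel] }
    have he : ∀ q j, Ideal.Quotient.mk J (e (q, j)) = q := by
      intro q j
      change Ideal.Quotient.mk J ((j : 𝓞 K) + r q) = q
      rw [map_add, hr, Ideal.Quotient.eq_zero_iff_mem.2 j.2, zero_add]
    have h3 : ∑' x : 𝓞 K, a (Ideal.Quotient.mk J x) * Fs g s (x : K) = ∑ q, a q * ∑' j : J, Fs g s (((j : 𝓞 K) : K) + (r q : K)) := by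
      have h4 := ((e.summable_iff).2 hsum).tsum_prod
      rw [← e.tsum_eq]
      refine h4.trans ((tsum_fintype _).trans (Finset.sum_congr rfl fun q _ => ?_))
      rw [← tsum_mul_left]
      refine tsum_congr fun j => ?_
      change a (Ideal.Quotient.mk J (e (q, j))) * Fs g s (algebraMap (𝓞 K) K ((j : 𝓞 K) + r q)) = _
      rw [he, map_add]
    rw [h3]
    simp only [h1, mul_sub, Finset.sum_sub_distrib, ← Finset.sum_mul, ha, zero_mul, sub_zero]


end CFTY
end

-- from Lib.CFT.Y22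
section

/-! # CFT module Y, chunk Y22: unfolding: the whole sum -/

open NumberField

namespace CFTY

variable {K : Type} [Field K] [NumberField K]

open Classical in
/-- PROOF. The family over `𝓞 K` is summable (`fs_summable` and `Summable.of_norm_bounded`, or `Summable.indicator`); `HasSum.tsum_fiberwise` (or `HasSum.sigma` with
`Equiv.sigmaFiberEquiv`) for the map `x ↦ span {x}`, with `fibre_sum`. -/
theorem unfold_sum {m : Ideal (𝓞 K)} {ψ : K → ℂ} {χ : Ideal (𝓞 K) →*₀ ℂ} (hχ : HCh m ψ χ) {w : K → ℝ} {A : ℝ}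
    (hw : ∀ x : K, x ≠ 0 → HasSum (fun u : RU m => w ((((u : (𝓞 K)ˣ) : 𝓞 K) : K) * x)) 1)
    (hB : Bd fun z => (if TP z then 1 else 0) * (w z : ℂ) * ψ z) (hA : ∀ x, w x ≠ 0 → Rg A x) (j : Ideal (𝓞 K))
    {s : ℂ} (hs : 1 < s.re) :
    ∑' x : 𝓞 K, (if x - 1 ∈ m ∧ x ∈ j then Fs (fun z => (if TP z then 1 else 0) * (w z : ℂ) * ψ z) s (x : K) else 0) =
      ∑' I : Ideal (𝓞 K), if PrI m I ∧ I ≤ j then CFTZ.tm χ s I else 0 := by
  have hA' : ∀ x, (fun z => (if TP z then 1 else 0) * (w z : ℂ) * ψ z) x ≠ 0 → Rg A x := by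
    intro x hx
    apply hA
    rintro h0
    apply hx
    change (if TP x then 1 else 0) * (w x : ℂ) * ψ x = 0
    rw [h0, Complex.ofReal_zero, mul_zero, zero_mul]
  have hF := fs_summable hB hA' hs (K := K)
  have hS : Summable fun x : 𝓞 K => if x - 1 ∈ m ∧ x ∈ j then
      Fs (fun z => (if TP z then 1 else 0) * (w z : ℂ) * ψ z) s (x : K) else 0 := by
    refine Summable.of_norm_bounded (g := fun x : 𝓞 K => ‖Fs (fun z => (if TP z then 1 else 0) * (w z : ℂ) * ψ z) s (x : K)‖) hF.norm fun x => ?_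
    split_ifs
    · exact le_rfl
    · rw [norm_zero]
      exact norm_nonneg _
  have h1 := ((Equiv.sigmaFiberEquiv fun x : 𝓞 K => (Ideal.span {x} : Ideal (𝓞 K))).hasSum_iff).2 hS.hasSum
  have h2 := h1.sigma fun I => fibre_sum hχ hw j I s
  exact h2.tsum_eq.symm


end CFTY
end

-- from Lib.CFT.ZF
section

/-! # CFT, module Z, part F: the ray class group is finite (Z1) -/

open NumberField IsDedekindDomain nonZeroDivisors

namespace CFTZ

open CFT

variable {K : Type} [Field K] [NumberField K]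

/-- A prime as a nonzero ideal. -/
noncomputable def pz (v : Pr K) : (Ideal (𝓞 K))⁰ := ⟨v.asIdeal, mem_nonZeroDivisors_of_ne_zero v.ne_bot⟩

/-- The class of a divisor. -/
noncomputable def cl : Dv K →+ Additive (ClassGroup (𝓞 K)) :=
  Finsupp.liftAddHom fun v => zmultiplesHom _ (Additive.ofMul (ClassGroup.mk0 (pz v)))

theorem cl_idl {D : Dv K} (hD : ∀ v, 0 ≤ D v) :
    cl D = Additive.ofMul (ClassGroup.mk0 ⟨idl D, mem_nonZeroDivisors_of_ne_zero (idl_ne_zero D)⟩) := by
  have h1 : (⟨idl D, mem_nonZeroDivisors_of_ne_zero (idl_ne_zero D)⟩ : (Ideal (𝓞 K))⁰) =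
      ∏ v ∈ D.support, pz v ^ (D v).toNat := by
    apply Subtype.ext
    rw [Submonoid.coe_finset_prod]
    rfl
  rw [h1, map_prod, ofMul_prod]
  unfold cl
  rw [Finsupp.liftAddHom_apply]
  unfold Finsupp.sum
  refine Finset.sum_congr rfl fun v _ => ?_
  rw [map_pow, ofMul_pow]
  show D v • Additive.ofMul (ClassGroup.mk0 (pz v)) = _
  conv_lhs => rw [← Int.toNat_of_nonneg (hD v)]
  rw [natCast_zsmul]

/-- Divisors of class 0 are principal. -/
theorem cl_ker {D : Dv K} (h : cl D = 0) : ∃ x : K, x ≠ 0 ∧ D = dv x := by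
  obtain ⟨P, hP⟩ : ∃ P : Dv K, P = D.mapRange (fun n => max n 0) (by simp) := ⟨_, rfl⟩
  obtain ⟨M, hM⟩ : ∃ M : Dv K, M = D.mapRange (fun n => max (-n) 0) (by simp) := ⟨_, rfl⟩
  have hP0 : ∀ v, 0 ≤ P v := fun v => by
    rw [hP, Finsupp.mapRange_apply]
    exact le_max_right _ _
  have hM0 : ∀ v, 0 ≤ M v := fun v => by
    rw [hM, Finsupp.mapRange_apply]
    exact le_max_right _ _
  have hD : D + M = P := by
    ext v
    rw [Finsupp.add_apply, hP, hM, Finsupp.mapRange_apply, Finsupp.mapRange_apply]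
    rcases le_total 0 (D v) with h1 | h1
    · rw [max_eq_left h1, max_eq_right (by omega), add_zero]
    · rw [max_eq_right h1, max_eq_left (by omega)]
      ring
  have h1 : cl P = cl M := by
    rw [← hD, map_add, h, zero_add]
  rw [cl_idl hP0, cl_idl hM0] at h1
  have h2 := Additive.ofMul.injective h1
  rw [ClassGroup.mk0_eq_mk0_iff] at h2
  obtain ⟨x, y, hx, hy, h3⟩ := h2
  have hxK : (x : K) ≠ 0 := fun h => hx (RingOfIntegers.ext h)
  have hyK : (y : K) ≠ 0 := fun h => hy (RingOfIntegers.ext h)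
  have hx0 : ∀ v, 0 ≤ dv (x : K) v := fun v => od_nonneg v x
  have hy0 : ∀ v, 0 ≤ dv (y : K) v := fun v => od_nonneg v y
  have h4 : idl (dv (x : K) + P) = idl (dv (y : K) + M) := by
    rw [idl_add hx0 hP0, idl_add hy0 hM0, idl_dv hx, idl_dv hy]
    exact h3
  have h5 := idl_inj (fun v => add_nonneg (hx0 v) (hP0 v)) (fun v => add_nonneg (hy0 v) (hM0 v)) h4
  refine ⟨(y : K) * (x : K)⁻¹, mul_ne_zero hyK (inv_ne_zero hxK), ?_⟩
  rw [dv_mul hyK (inv_ne_zero hxK), dv_inv]
  rw [← hD] at h5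
  have h6 : dv (x : K) + D + M = dv (y : K) + M := by rw [add_assoc]; exact h5
  have h7 := add_right_cancel h6
  rw [← h7]
  abel

/-- A map to a finite type whose fibres lie in cosets. -/
theorem finiteIndex_of_map {G T : Type} [AddCommGroup G] [Finite T] (P : AddSubgroup G) (f : G → T)
    (h : ∀ a b, f a = f b → a - b ∈ P) : P.FiniteIndex := by
  have h1 : Function.Injective fun q : G ⧸ P => f q.out := by
    intro q q' hq
    have h2 := h _ _ hq
    rw [← QuotientAddGroup.out_eq' q, ← QuotientAddGroup.out_eq' q']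
    rw [eq_comm, QuotientAddGroup.eq_iff_sub_mem]
    have h3 := neg_mem h2
    rwa [neg_sub] at h3
  have h2 : Finite (G ⧸ P) := Finite.of_injective _ h1
  exact AddSubgroup.finiteIndex_of_finite_quotient

theorem finite_real : Finite (K →+* ℝ) := by
  refine Finite.of_injective (fun φ : K →+* ℝ => Complex.ofRealHom.comp φ) fun φ ψ h => ?_
  refine RingHom.ext fun x => ?_
  exact Complex.ofReal_injective (RingHom.congr_fun h x)

theorem val_unit (v : Pr K) {a : 𝓞 K} (h : a ∉ v.asIdeal) : v.valuation K (a : K) = 1 := by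
  refine le_antisymm (v.valuation_le_one a) (not_lt.1 fun hlt => h ?_)
  have h1 : v.valuation K (algebraMap (𝓞 K) K a) < 1 := hlt
  rw [HeightOneSpectrum.valuation_lt_one_iff_dvd] at h1
  exact Ideal.dvd_span_singleton.1 h1

theorem val_pow (v : Pr K) {a : 𝓞 K} {N : ℕ} (h : a ∈ v.asIdeal ^ (N + 1)) :
    v.valuation K (a : K) < WithZero.exp (-(N : ℤ)) := by
  have h1 : v.valuation K (algebraMap (𝓞 K) K a) ≤ WithZero.exp (-((N + 1 : ℕ) : ℤ)) := by
    rw [HeightOneSpectrum.valuation_of_algebraMap, v.intValuation_le_pow_iff_mem]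
    exact h
  refine lt_of_le_of_lt h1 ?_
  rw [WithZero.exp_lt_exp]
  push_cast
  omega

open Classical in
/-- Z1. The ray class group is finite. -/
theorem pray_fin (S : Finset (Pr K)) (N : ℕ) : (Pray S N).FiniteIndex := by
  have hfr : Finite (K →+* ℝ) := finite_real
  obtain ⟨m, hm⟩ : ∃ m : Ideal (𝓞 K), m = ∏ v ∈ S, v.asIdeal ^ (N + 1) := ⟨_, rfl⟩
  have hm0 : m ≠ ⊥ := by
    rw [hm]
    exact Finset.prod_ne_zero_iff.2 fun v _ => pow_ne_zero _ v.ne_bot
  have hmv : ∀ v ∈ S, m ≤ v.asIdeal ^ (N + 1) := fun v hv => by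
    rw [hm]
    exact Ideal.le_of_dvd (Finset.dvd_prod_of_mem (fun v : Pr K => v.asIdeal ^ (N + 1)) hv)
  have hfq : Finite (𝓞 K ⧸ m) := Ideal.finiteQuotientOfFreeOfNeBot m hm0
  have hfc : Finite (Additive (ClassGroup (𝓞 K))) := inferInstanceAs (Finite (ClassGroup (𝓞 K)))
  have ff : ∀ (D : Dv K) (v : Pr K), v ∈ S → (D.filter (· ∉ S)) v = 0 := fun D v hv =>
    Finsupp.filter_apply_neg (fun v => v ∉ S) D (not_not.2 hv)
  have ft : ∀ (D : Dv K) (v : Pr K), v ∉ S → (D.filter (· ∉ S)) v = D v := fun D v hv =>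
    Finsupp.filter_apply_pos (fun v => v ∉ S) D hv
  -- representatives of the classes
  obtain ⟨r, hr⟩ : ∃ r : Additive (ClassGroup (𝓞 K)) → Dv K, ∀ D : Dv K,
      cl ((r (cl (D.filter (· ∉ S)))).filter (· ∉ S)) = cl (D.filter (· ∉ S)) := by
    refine ⟨fun c => if h : ∃ D : Dv K, cl (D.filter (· ∉ S)) = c then h.choose else 0, fun D => ?_⟩
    have h : ∃ E : Dv K, cl (E.filter (· ∉ S)) = cl (D.filter (· ∉ S)) := ⟨D, rfl⟩
    simp only
    rw [dif_pos h]
    exact h.choose_spec
  have key : ∀ D : Dv K, ∃ a b : 𝓞 K, a ≠ 0 ∧ b ≠ 0 ∧ (∀ v ∈ S, a ∉ v.asIdeal) ∧ (∀ v ∈ S, b ∉ v.asIdeal) ∧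
      D.filter (· ∉ S) - (r (cl (D.filter (· ∉ S)))).filter (· ∉ S) = dv ((a : K) / (b : K)) := by
    intro D
    obtain ⟨x, hx, h1⟩ := cl_ker (D := D.filter (· ∉ S) - (r (cl (D.filter (· ∉ S)))).filter (· ∉ S))
      (by rw [map_sub, hr D, sub_self])
    have h2 : ∀ v ∈ S, od v x = 0 := by
      intro v hv
      rw [← dv_apply, ← h1, Finsupp.sub_apply, ff _ v hv, ff _ v hv, sub_zero]
    obtain ⟨a, b, hb, hab, h3⟩ := frac_prime S fun v hv => (h2 v hv).ge
    have hbK : (b : K) ≠ 0 := fun h => hb (RingOfIntegers.ext h)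
    have haK : (a : K) ≠ 0 := by
      intro h
      rw [h, zero_div] at hab
      exact hx hab
    have ha : a ≠ 0 := by
      rintro rfl
      exact haK rfl
    refine ⟨a, b, ha, hb, fun v hv hav => ?_, h3, by rw [h1, hab]⟩
    have h4 : 0 < od v (a : K) := (od_pos_iff v ha).2 hav
    have h5 : ¬ 0 < od v (b : K) := fun h => h3 v hv ((od_pos_iff v hb).1 h)
    have h6 := od_nonneg v b
    have h7 : od v (a : K) = od v x + od v (b : K) := by
      rw [← od_mul v hx hbK, hab, div_mul_cancel₀ _ hbK]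
    rw [h2 v hv] at h7
    omega
  choose a b ha hb hav hbv hab using key
  refine finiteIndex_of_map (T := Additive (ClassGroup (𝓞 K)) × (𝓞 K ⧸ m) × (𝓞 K ⧸ m) × ((K →+* ℝ) → Bool)) (Pray S N)
    (fun D => (cl (D.filter (· ∉ S)), Ideal.Quotient.mk m (a D), Ideal.Quotient.mk m (b D),
      fun φ => decide (0 < φ ((a D : K) / (b D : K))))) fun D E hDE => ?_
  rw [Prod.mk.injEq, Prod.mk.injEq, Prod.mk.injEq] at hDE
  obtain ⟨e1, e2, e3, e4⟩ := hDE
  have e2' : a D - a E ∈ m := Ideal.Quotient.eq.1 e2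
  have e3' : b D - b E ∈ m := Ideal.Quotient.eq.1 e3
  have nz : ∀ {z : 𝓞 K}, z ≠ 0 → (z : K) ≠ 0 := fun {z} hz h => hz (RingOfIntegers.ext h)
  have hx0 : ((a D : K) / (b D : K)) ≠ 0 := div_ne_zero (nz (ha D)) (nz (hb D))
  have hy0 : ((a E : K) / (b E : K)) ≠ 0 := div_ne_zero (nz (ha E)) (nz (hb E))
  refine ⟨((a D : K) / (b D : K)) * ((a E : K) / (b E : K))⁻¹, ⟨mul_ne_zero hx0 (inv_ne_zero hy0), fun v hv => ?_,
    fun φ => ?_⟩, fun v hv => ?_⟩
  · have h1 : ((a D : K) / (b D : K)) * ((a E : K) / (b E : K))⁻¹ - 1 =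
        ((a D * b E - a E * b D : 𝓞 K) : K) / (((b D * a E : 𝓞 K)) : K) := by
      have n1 := nz (ha D)
      have n2 := nz (hb D)
      have n3 := nz (ha E)
      have n4 := nz (hb E)
      push_cast
      field_simp
    rw [h1, map_div₀]
    have h2 : v.valuation K (((b D * a E : 𝓞 K)) : K) = 1 := by
      refine val_unit v fun h => ?_
      rcases v.isPrime.mem_or_mem h with h | h
      · exact hbv D v hv h
      · exact hav E v hv h
    rw [h2, div_one]
    refine val_pow v (hmv v hv ?_)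
    have h3 : a D * b E - a E * b D = (a D - a E) * b E - a E * (b D - b E) := by ring
    rw [h3]
    exact m.sub_mem (m.mul_mem_right _ e2') (m.mul_mem_left _ e3')
  · have h1 := congrFun e4 φ
    have h2 : φ ((a D : K) / (b D : K)) ≠ 0 := (map_ne_zero φ).2 hx0
    have h3 : φ ((a E : K) / (b E : K)) ≠ 0 := (map_ne_zero φ).2 hy0
    rw [map_mul, map_inv₀, ← div_eq_mul_inv]
    have h4 := decide_eq_decide.1 h1
    rcases lt_or_gt_of_ne h2 with h5 | h5
    · have h6 : φ ((a E : K) / (b E : K)) < 0 := by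
        refine lt_of_le_of_ne (not_lt.1 fun h => ?_) h3
        exact absurd (h4.2 h) (not_lt.2 h5.le)
      exact div_pos_of_neg_of_neg h5 h6
    · exact div_pos h5 (h4.1 h5)
  · have h1 := hab D
    have h2 := hab E
    rw [← e1] at h2
    have h3 := DFunLike.congr_fun h1 v
    have h4 := DFunLike.congr_fun h2 v
    rw [Finsupp.sub_apply, ft _ v hv, ft _ v hv, dv_apply] at h3 h4
    rw [Finsupp.sub_apply, od_mul v hx0 (inv_ne_zero hy0), od_inv]
    linarith

end CFTZ
end

-- from Lib.H69H.Z1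
section

set_option autoImplicit false

namespace Pool.Agent.H69H

open NumberField IsDedekindDomain CFT

/-- Finiteness of the ray class group (helper33, CFT/ZF.lean). -/
theorem Pray_index {K : Type} [Field K] [NumberField K] (S : Finset (Pr K)) (N : ℕ) : (Pray S N).index ≠ 0 :=
  (CFTZ.pray_fin S N).index_ne_zero

end Pool.Agent.H69H
end

-- from Lib.H69H.E3
section

set_option autoImplicit false
set_option linter.unusedSectionVars false

namespace Pool.Agent.H69H

open NumberField IsDedekindDomain CFT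

variable {K : Type} [Field K] [NumberField K] {L : Type} [Field L] [NumberField L] [Algebra K L]

/-- The stabilizer of the function `od _ y` outside `T`. -/
def e3_st (T : Finset (Pr K)) (y : L) : Subgroup (L ≃ₐ[K] L) where
  carrier := {g | ∀ w : Pr L, below K w ∉ T → od (gp g w) y = od w y}
  one_mem' := fun w _ => by rw [gp_one]
  mul_mem' := fun {g h} h1 h2 w hw => by
    rw [gp_mul, h1 _ (by rw [below_gp]; exact hw), h2 w hw]
  inv_mem' := fun {g} h1 w hw => by
    have := h1 (gp g⁻¹ w) (by rw [below_gp]; exact hw)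
    rw [gp_gp_inv] at this
    exact this.symm

variable [IsGalois K L] {σ : L ≃ₐ[K] L} (hσ : ∀ x, x ∈ Subgroup.zpowers σ) {S T : Finset (Pr K)} {V : Subgroup Lˣ} {N : ℕ}

include hσ in
theorem e3_const {y : Lˣ} (h : ∀ w : Pr L, below K w ∉ T → od w ((dif (sU σ) y : Lˣ) : L) = 0)
    {w w' : Pr L} (hw : below K w ∉ T) (hww : below K w = below K w') : od w' (y : L) = od w (y : L) := by
  have h1 : σ ∈ e3_st T (y : L) := by
    rw [← inv_mem_iff]
    intro w hw
    have h2 : ((dif (sU σ) y : Lˣ) : L) = σ (y : L) * ((y : L))⁻¹ := by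
      rw [dif_apply, Units.val_div_eq_div_val, sU_coe, div_eq_mul_inv]
    have h3 := h w hw
    rw [h2, od_mul w ((map_ne_zero σ).2 y.ne_zero) (inv_ne_zero y.ne_zero), od_inv] at h3
    have h4 := od_gp σ (gp σ⁻¹ w) (y : L)
    rw [gp_gp_inv] at h4
    rw [← h4]
    omega
  obtain ⟨τ, rfl⟩ := exists_gp w w' hww
  exact (Subgroup.zpowers_le.2 h1) (hσ τ) w hw

include hσ in
theorem e3_main (hS : ∀ v, v ∉ S → Unr K L v) (hV : IsV σ S V) (hT : IsT σ S V N T) {x : Lˣ} (hx : x ∈ ET V T)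
    (hx1 : nrm (Module.finrank K L) (sU σ) x = 1) : ∃ y ∈ ET V T, dif (sU σ) y = x := by
  obtain ⟨y, hy⟩ := hilbert90 σ hσ x hx1
  obtain ⟨κ, y1, hy1, hy2⟩ := hV.crit y (by rw [← hy]; exact hx.1)
  have hfix : ∀ κ : Kˣ, dif (sU σ) (kU K L κ) = 1 := fun κ => (dif_eq_one σ hσ _).2 ⟨κ, rfl⟩
  have hd1 : dif (sU σ) y1 = x := by
    rw [hy, hy2, map_mul, hfix, one_mul]
  have hconst : ∀ {w w' : Pr L}, below K w ∉ T → below K w = below K w' → od w' (y1 : L) = od w (y1 : L) := by
    intro w w' hw hww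
    refine e3_const hσ (T := T) (fun w hw => ?_) hw hww
    rw [hd1]
    exact ((mem_ET V T x).1 hx).2 w hw
  -- the divisor `D`
  classical
  choose ab hab using fun v : Pr K => below_surj L v
  obtain ⟨D, hD⟩ : ∃ D : Dv K, ∀ v, D v = if v ∈ T then 0 else od (ab v) (y1 : L) := by
    have hfin : (Function.support fun v : Pr K => if v ∈ T then 0 else od (ab v) (y1 : L)).Finite := by
      refine Set.Finite.subset ((od_fin (y1 : L)).image (below K)) fun v hv => ?_
      rw [Function.mem_support] at hv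
      refine ⟨ab v, ?_, hab v⟩
      by_contra h0
      apply hv
      have h0' : od (ab v) (y1 : L) = 0 := by
        by_contra h1
        exact h0 h1
      rw [h0', ite_self]
    exact ⟨Finsupp.ofSupportFinite _ hfin, fun v => rfl⟩
  obtain ⟨E, hE, κ', hκ', hP⟩ := hT.a D
  obtain ⟨u, hu⟩ : ∃ u : Kˣ, (u : K) = κ' := ⟨Units.mk0 _ hκ'.ne, rfl⟩
  have huV : kU K L u ∈ V := hT.ray u (by rw [hu]; exact hκ')
  refine ⟨y1 * (kU K L u)⁻¹, ?_, ?_⟩
  · have hV2 : y1 * (kU K L u)⁻¹ ∈ V := mul_mem hy1 (inv_mem huV)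
    rw [mem_ET]
    refine ⟨hV2, fun w hw => ?_⟩
    by_cases hwS : below K w ∈ S
    · exact hV.unit _ hV2 w hwS
    · have h1 := hP (below K w) hwS
      rw [Finsupp.sub_apply, hE _ hw, sub_zero, hD, if_neg hw, hconst (w := w) (w' := ab (below K w)) hw (hab _).symm] at h1
      rw [Units.val_mul, Units.val_inv_eq_inv_val, od_mul w y1.ne_zero (inv_ne_zero (kU K L u).ne_zero), od_inv, kU_coe, hu,
        od_algebraMap, hS _ hwS w rfl, ← h1]
      push_cast
      ring
  · rw [map_mul, map_inv, hfix, inv_one, mul_one, hd1]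

include hσ in
/-- `H^(-1)` of `ET V T` is trivial. -/
theorem tate_ET (hS : ∀ v, v ∉ S → Unr K L v) (hV : IsV σ S V) (hT : IsT σ S V N T) :
    tate (nrm (Module.finrank K L) (sU σ)) (dif (sU σ)) ⊥ (ET V T) = 1 := by
  unfold tate
  rw [Subgroup.relIndex_eq_one, sup_bot_eq]
  rintro x ⟨hx1, hx2⟩
  obtain ⟨y, hy, h⟩ := e3_main hσ hS hV hT hx1 hx2
  exact ⟨y, hy, h⟩

end Pool.Agent.H69H
end

-- from Lib.H69H.E4
section

set_option autoImplicit false
set_option linter.unusedSectionVars false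

namespace Pool.Agent.H69H

open NumberField IsDedekindDomain CFT

variable {K : Type} [Field K] [NumberField K] {L : Type} [Field L] [NumberField L] [Algebra K L]

variable [IsGalois K L] {σ : L ≃ₐ[K] L} (hσ : ∀ x, x ∈ Subgroup.zpowers σ) {S T : Finset (Pr K)} {V : Subgroup Lˣ} {N : ℕ}

include hσ in
/-- PROOF. The inclusion: `nrm x = kU (norm x)` (C1), `ET V T` is stable (`hV.stable`, `dvU_sU`, `below_gp`), positivity: `posR_norm` (P1). `tate (dif) (nrm) ⊥ (ET V T) = (map nrm).relIndex (ET V T ⊓ ker dif)` is the product of the two indices (`Subgroup.relIndex_mul_relIndex`), the second is `PP_relIndex` (P3). -/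
theorem PP_index (hV : IsV σ S V) (hT : IsT σ S V N T) :
    (ET V T).map (nrm (Module.finrank K L) (sU σ)) ≤ PP V T ∧
    ((ET V T).map (nrm (Module.finrank K L) (sU σ))).relIndex (PP V T) * 2 ^ (RamInf K L).card =
      tate (dif (sU σ)) (nrm (Module.finrank K L) (sU σ)) ⊥ (ET V T) := by
  have hst : ∀ x ∈ ET V T, sU σ x ∈ ET V T := by
    rintro x ⟨h1, h2⟩
    refine ⟨hV.stable x h1, fun w hw => ?_⟩
    show od w (σ (x : L)) = 0
    rw [← gp_gp_inv σ w, od_gp]
    refine h2 _ ?_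
    rw [below_gp]
    exact hw
  have h1 : (ET V T).map (nrm (Module.finrank K L) (sU σ)) ≤ PP V T := by
    rintro _ ⟨x, hx, rfl⟩
    refine ⟨(isStable_of (sU σ) _ hst).right x hx, _, nrm_eq σ hσ x, ?_⟩
    exact posR_norm x
  refine ⟨h1, ?_⟩
  rw [← PP_relIndex hσ hT]
  have h2 : PP V T ≤ ET V T ⊓ (dif (sU σ)).ker := by
    rintro x ⟨h3, κ, rfl, _⟩
    exact ⟨h3, (dif_eq_one σ hσ _).2 ⟨κ, rfl⟩⟩
  rw [Subgroup.relIndex_mul_relIndex _ _ _ h1 h2]
  unfold tate
  rw [sup_bot_eq]
  rfl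

end Pool.Agent.H69H
end

-- from Lib.H69H.E5
section

set_option autoImplicit false
set_option linter.unusedSectionVars false

namespace Pool.Agent.H69H

open NumberField IsDedekindDomain CFT

variable {K : Type} [Field K] [NumberField K] {L : Type} [Field L] [NumberField L] [Algebra K L]

/-- The norm at `v` depends only on the primes above `v`. -/
theorem e5_Nd_congr (D E : Dv L) (v : Pr K) (h : ∀ w : Pr L, below K w = v → D w = E w) : Nd K L D v = Nd K L E v := by
  rw [CFT.Nd_apply, CFT.Nd_apply]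
  refine Finset.sum_congr rfl fun w hw => ?_
  rw [h w ((CFT.mem_abv v w).1 hw)]

/-- An element of `K` whose image is a unit above `v`. -/
theorem e5_od (κ : K) (v : Pr K) (h : ∀ w : Pr L, below K w = v → od w (algebraMap K L κ) = 0) : od v κ = 0 := by
  obtain ⟨w, rfl⟩ := below_surj L v
  have := h w rfl
  rw [od_algebraMap] at this
  exact (mul_eq_zero.1 this).resolve_left (ram_ne w)

theorem e5_nrm_mem {σ : L ≃ₐ[K] L} {V : Subgroup Lˣ} (hV : ∀ x ∈ V, sU σ x ∈ V) (n : ℕ) {y : Lˣ} (hy : y ∈ V) :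
    nrm n (sU σ) y ∈ V := by
  rw [nrm_apply]
  refine prod_mem fun i hi => ?_
  clear hi
  induction i with
  | zero => exact hy
  | succ i ih =>
    rw [Function.iterate_succ_apply']
    exact hV _ ih

variable [IsGalois K L] {σ : L ≃ₐ[K] L} (hσ : ∀ x, x ∈ Subgroup.zpowers σ) {S T : Finset (Pr K)} {V : Subgroup Lˣ} {N : ℕ}

include hσ in
theorem inter_le_QQ (hV : IsV σ S V) (hT : IsT σ S V N T) :
    (Pray S N ⊔ (Nd K L).range) ⊓ DTK T ≤ QQ (L := L) V T := by
  rintro D ⟨hD, hDT⟩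
  obtain ⟨P, ⟨x, hx, hP⟩, F, ⟨D', rfl⟩, hPF⟩ := AddSubgroup.mem_sup.1 hD
  obtain ⟨E, hE, y, hy, hDy⟩ := hT.b D'
  obtain ⟨u, hu⟩ : ∃ u : Kˣ, (u : K) = x := ⟨Units.mk0 _ hx.ne, rfl⟩
  obtain ⟨κ, hκ⟩ : ∃ κ : Kˣ, κ = u * Units.map (Algebra.norm K : L →* K) y := ⟨_, rfl⟩
  have hκ' : (κ : K) = x * Algebra.norm K (y : L) := by
    rw [hκ, Units.val_mul, hu]
    rfl
  have hκV : kU K L κ ∈ V := by
    rw [hκ, map_mul, ← nrm_eq σ hσ]
    exact mul_mem (hT.ray u (by rw [hu]; exact hx)) (e5_nrm_mem hV.stable _ hy)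
  have hyn : Algebra.norm K (y : L) ≠ 0 := by
    have := (Units.map (Algebra.norm K : L →* K) y).ne_zero
    exact this
  have h1 : ∀ v, v ∉ S → D v = od v (κ : K) + Nd K L E v := by
    intro v hv
    have e1 : Nd K L D' v = Nd K L (E + dv (y : L)) v := by
      refine e5_Nd_congr _ _ _ fun w hw => ?_
      rw [hDy w (by rw [hw]; exact hv)]
      rfl
    have e2 : Nd K L (E + dv (y : L)) v = Nd K L E v + od v (Algebra.norm K (y : L)) := by
      rw [map_add, Nd_dv, Finsupp.add_apply, dv_apply]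
    rw [← hPF, Finsupp.add_apply, hP v hv, e1, e2, hκ', od_mul v hx.ne hyn]
    ring
  have hNE : ∀ v, v ∉ T → Nd K L E v = 0 := by
    intro v hv
    have : Nd K L E v = Nd K L (0 : Dv L) v := e5_Nd_congr _ _ _ fun w hw => by
      rw [hE w (by rw [hw]; exact hv)]
      rfl
    rw [this, map_zero]
    rfl
  have hκ0 : ∀ v, v ∉ T → od v (κ : K) = 0 := by
    intro v hv
    by_cases hvS : v ∈ S
    · refine e5_od (L := L) _ _ fun w hw => ?_
      exact hV.unit _ hκV w (by rw [hw]; exact hvS)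
    · have := h1 v hvS
      rw [hDT v hv, hNE v hv, add_zero] at this
      exact this.symm
  refine ⟨κ, ?_, ?_, E, hE, ?_⟩
  · rw [mem_ET]
    refine ⟨hκV, fun w hw => ?_⟩
    rw [kU_coe, od_algebraMap, hκ0 _ hw, mul_zero]
  · intro φ hφ
    rw [hκ', map_mul]
    exact mul_pos (hx.pos φ) (posR_norm y φ hφ)
  · ext v
    rw [Finsupp.add_apply, dv_apply]
    by_cases hv : v ∈ S
    · have hvT : v ∉ T := fun h => hT.disj v h hv
      rw [hDT v hvT, hκ0 v hvT, hNE v hvT, add_zero]
    · exact h1 v hv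

end Pool.Agent.H69H
end

-- from Lib.H69H.E1
section

set_option autoImplicit false
set_option linter.unusedSectionVars false

namespace Pool.Agent.H69H

open NumberField IsDedekindDomain CFT

variable {K : Type} [Field K] [NumberField K] {L : Type} [Field L] [NumberField L] [Algebra K L]

theorem e1_mem_UL (x : Lˣ) : x ∈ UL L ↔ ∀ w : Pr L, od w (x : L) = 0 := by
  unfold UL
  rw [MonoidHom.mem_ker, dvU_apply]
  constructor
  · intro h w
    have h1 : dv (x : L) = 0 := h
    rw [← dv_apply, h1]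
    rfl
  · intro h
    have h1 : dv (x : L) = 0 := by
      ext w
      exact h w
    rw [h1]
    rfl

theorem e1_od_pow (w : Pr L) (x : Lˣ) (m : ℕ) : od w ((x ^ m : Lˣ) : L) = m * od w (x : L) := by
  induction m with
  | zero => rw [pow_zero, Units.val_one, od_one]; simp
  | succ m ih =>
    rw [pow_succ, Units.val_mul, od_mul w (x ^ m).ne_zero x.ne_zero, ih]
    push_cast
    ring

theorem e1_princ (L : Type) [Field L] [NumberField L] : ∃ h : ℕ, h ≠ 0 ∧ ∀ w : Pr L, ∃ y : Lˣ, dv (y : L) = Finsupp.single w (h : ℤ) := by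
  classical
  have : Finite (ClassGroup (𝓞 L)) := inferInstance
  refine ⟨Nat.card (ClassGroup (𝓞 L)), Nat.card_pos.ne', fun w => ?_⟩
  set h := Nat.card (ClassGroup (𝓞 L)) with hh
  let I : nonZeroDivisors (Ideal (𝓞 L)) := ⟨w.asIdeal, mem_nonZeroDivisors_of_ne_zero w.ne_bot⟩
  have h1 : ClassGroup.mk0 (I ^ h) = 1 := by
    rw [map_pow, hh]
    exact pow_card_eq_one'
  have h2 : ((I ^ h : nonZeroDivisors (Ideal (𝓞 L))) : Ideal (𝓞 L)).IsPrincipal := ClassGroup.mk0_eq_one_iff (I ^ h).2 |>.1 h1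
  obtain ⟨a, ha⟩ := h2
  have h3 : ((I ^ h : nonZeroDivisors (Ideal (𝓞 L))) : Ideal (𝓞 L)) = w.asIdeal ^ h := by
    rw [SubmonoidClass.coe_pow]
  rw [h3] at ha
  have ha0 : a ≠ 0 := by
    rintro rfl
    have h4 : w.asIdeal ^ h = ⊥ := by
      rw [ha]
      simp
    exact (pow_ne_zero h w.ne_bot) h4
  have ha1 : (algebraMap (𝓞 L) L a) ≠ 0 := by
    intro h5
    exact ha0 ((FaithfulSMul.algebraMap_injective (𝓞 L) L) (by rw [h5, map_zero]))
  refine ⟨Units.mk0 _ ha1, ?_⟩
  rw [Units.val_mk0]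
  refine idl_inj ?_ ?_ ?_
  · intro v
    rw [dv_apply]
    unfold od
    have h6 : v.valuation L (algebraMap (𝓞 L) L a) ≤ 1 := v.valuation_le_one a
    have h7 : v.valuation L (algebraMap (𝓞 L) L a) ≠ 0 := (Valuation.ne_zero_iff _).2 ha1
    have h8 := (WithZero.log_le_log h7 one_ne_zero).2 h6
    rw [WithZero.log_one] at h8
    omega
  · exact b04_single w (by positivity)
  · rw [b04_idl_single, Int.toNat_natCast, ha]
    exact idl_dv ha0

variable [IsGalois K L] {σ : L ≃ₐ[K] L} (hσ : ∀ x, x ∈ Subgroup.zpowers σ) {S T : Finset (Pr K)} {V : Subgroup Lˣ} {N : ℕ}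

/-- PROOF. `relIndex_ne_zero_of_fg` (G1) with `UL_fg` (U5) and `pow_mem_V` (T1). -/
theorem E0_index (hV : IsV σ S V) : (V ⊓ UL L).relIndex (UL L) ≠ 0 := by
  obtain ⟨m, hm, h⟩ := pow_mem_V hV
  refine relIndex_ne_zero_of_fg inf_le_right (UL_fg L) hm fun x hx => ?_
  exact Subgroup.mem_inf.2 ⟨h x fun w _ => (e1_mem_UL x).1 hx w, pow_mem hx m⟩

/-- PROOF. `MT L T` is finitely generated (`MT_fg`, D5): by the lemma G1 it is enough to find `m ≠ 0` with `x ^ m ∈ (ET V T).map (dvU L)` for all `x ∈ MT L T`. Let `h` be the class number of `L`: for `D ∈ DTL L T` the divisor `h D` is principal, `h • D = dv y`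
(the ideal class group is a finite group: Mathlib `ClassGroup`, `NumberField.classNumber`; for a prime ideal `w`, `w^h` is principal, generated by `y ∈ 𝓞 L`, and `dv y = h • single w 1`; it is enough to do it for the generators `single w 1`), `y` is a unit at the primes above `S`
(`hT.disj`), so `y^m ∈ V` with the `m` of `pow_mem_V` (T1), and `y^m ∈ ET V T`, `dv (y^m) = (h m) D`. -/
theorem ET_index (hV : IsV σ S V) (hT : IsT σ S V N T) : ((ET V T).map (dvU L)).relIndex (MT L T) ≠ 0 := by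
  classical
  obtain ⟨m, hm, hmV⟩ := pow_mem_V hV
  obtain ⟨h, hh, hpr⟩ := e1_princ L
  have hle : (ET V T).map (dvU L) ≤ MT L T := by
    rintro _ ⟨x, hx, rfl⟩
    exact (Subgroup.mem_inf.1 hx).2
  have hone : ∀ w : Pr L, below K w ∈ T →
      (Multiplicative.ofAdd (Finsupp.single w (1 : ℤ)) : Multiplicative (Dv L)) ^ (h * m) ∈ (ET V T).map (dvU L) := by
    intro w hw
    obtain ⟨y, hy⟩ := hpr w
    have hod : ∀ w' : Pr L, w' ≠ w → od w' (y : L) = 0 := by
      intro w' hw'
      rw [← dv_apply, hy, Finsupp.single_apply, if_neg (fun h => hw' h.symm)]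
    refine ⟨y ^ m, (mem_ET V T _).2 ⟨hmV y fun w' hw' => hod w' ?_, fun w' hw' => ?_⟩, ?_⟩
    · rintro rfl
      exact hT.disj _ hw hw'
    · rw [e1_od_pow, hod w', mul_zero]
      rintro rfl
      exact hw' hw
    · have h1 : dvU L (y ^ m) = (dvU L y) ^ m := map_pow _ _ _
      rw [h1, dvU_apply, hy, pow_mul]
      congr 1
      rw [← ofAdd_nsmul]
      congr 1
      rw [Finsupp.smul_single, nsmul_eq_mul, mul_one]
  have hle2 : ∀ (E : Dv L), (∀ w, below K w ∉ T → E w = 0) →
      (Multiplicative.ofAdd E : Multiplicative (Dv L)) ^ (h * m) ∈ (ET V T).map (dvU L) := by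
    intro E
    induction E using Finsupp.induction with
    | zero =>
      intro _
      rw [ofAdd_zero, one_pow]
      exact one_mem _
    | single_add w a f hwf ha ih =>
      intro hE
      have hw : below K w ∈ T := by
        by_contra hcon
        have h1 := hE w hcon
        rw [Finsupp.add_apply, Finsupp.single_eq_same, Finsupp.notMem_support_iff.1 hwf, add_zero] at h1
        exact ha h1
      rw [ofAdd_add, mul_pow]
      refine mul_mem ?_ (ih ?_)
      · have h2 : (Multiplicative.ofAdd (Finsupp.single w a) : Multiplicative (Dv L)) =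
            (Multiplicative.ofAdd (Finsupp.single w (1 : ℤ))) ^ a := by
          rw [← ofAdd_zsmul]
          congr 1
          rw [Finsupp.smul_single, smul_eq_mul, mul_one]
        rw [h2, ← zpow_natCast, ← zpow_mul, mul_comm a, zpow_mul, zpow_natCast]
        exact zpow_mem (hone w hw) a
      · intro w' hw'
        have h1 := hE w' hw'
        rw [Finsupp.add_apply, Finsupp.single_apply, if_neg, zero_add] at h1
        · exact h1
        · rintro rfl
          exact hw' hw
  exact relIndex_ne_zero_of_fg hle (MT_fg T) (mul_ne_zero hh hm) fun x hx => hle2 _ hx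

end Pool.Agent.H69H
end

-- from Lib.H69H.T2
section

set_option autoImplicit false
set_option linter.unusedSectionVars false

namespace Pool.Agent.H69H

open NumberField IsDedekindDomain CFT

variable {K : Type} [Field K] [NumberField K] {L : Type} [Field L] [NumberField L] [Algebra K L]

theorem t2_rep {A : Type*} [AddCommGroup A] (H : AddSubgroup A) (h : H.index ≠ 0) : ∃ F : Finset A, ∀ D, ∃ E ∈ F, D - E ∈ H := by
  classical
  have hfi : H.FiniteIndex := ⟨h⟩
  have hf : Finite (A ⧸ H) := AddSubgroup.finite_quotient_of_finiteIndex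
  have := Fintype.ofFinite (A ⧸ H)
  refine ⟨Finset.univ.image fun q : A ⧸ H => q.out, fun D => ⟨_, Finset.mem_image.2 ⟨(D : A ⧸ H), Finset.mem_univ _, rfl⟩, ?_⟩⟩
  rw [sub_eq_neg_add]
  exact QuotientAddGroup.eq.1 (QuotientAddGroup.out_eq' _)

theorem t2_near (w : Pr L) (N : ℕ) (x : K) (h : (below K w).valuation K (x - 1) < WithZero.exp (-(N : ℤ))) :
    w.valuation L (algebraMap K L x - 1) < WithZero.exp (-(N : ℤ)) := by
  have h1 : algebraMap K L x - 1 = algebraMap K L (x - 1) := by rw [map_sub, map_one]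
  rw [h1]
  generalize x - 1 = z at h
  by_cases hz : z = 0
  · subst hz
    rw [map_zero, map_zero]
    exact WithZero.zero_lt_coe _
  · have hz' : algebraMap K L z ≠ 0 := by
      rw [Ne, map_eq_zero]
      exact hz
    rw [val_eq _ hz, WithZero.exp_lt_exp] at h
    rw [val_eq _ hz', WithZero.exp_lt_exp, od_algebraMap]
    have h2 : (1 : ℤ) ≤ (w.asIdeal.ramificationIdx (𝓞 K) : ℤ) := by
      have h3 := ram_ne (K := K) w
      have h4 : (0 : ℤ) ≤ (w.asIdeal.ramificationIdx (𝓞 K) : ℤ) := Int.natCast_nonneg _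
      omega
    have h3 : (0 : ℤ) ≤ N := Int.natCast_nonneg _
    nlinarith

/-- PROOF. Let `N0` be the number of `hV.ray`. `N := N0`: if `Ray S N κ` (or only the congruences) then for `w` above `v ∈ S`: `w.valuation (κ - 1) = v.valuation (κ - 1) ^ e`, `e ≥ 1` (`HeightOneSpectrum.valuation_liesOver`), `< exp (-N)`: so `kU κ ∈ V`. Let `SL` be the set of the primes above `S` (`fib_fin`).
`Pray_index` (Z1) for `K, S, N`: finitely many `D_i` (representatives: a finite quotient has finitely many classes; `AddSubgroup.index ≠ 0` gives a finite quotient) such that each `D` is `D_i +` an element of `Pray S N`. `Pray_index` for `L, SL, N`: finitely many `D'_j` with `D = D'_j + P`, `P ∈ Pray SL N`, i.e.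
`P w = od w y` for `w ∉ SL`, `Ray SL N y`, so `y ∈ V` by `hV.ray`. For each `v ∈ RamInf K L` (a real place) take `κ_v` of `exists_sign S N v` (P2, no hypothesis on v). `T :=` the set of the primes `v ∉ S` which are in the support of some `D_i`, or below a prime in the support of some `D'_j`, or in the support of some `dv κ_v`.
(a) `D - D_i ∈ Pray S N`; replace `D_i` by `E` = its part outside `S`, which is in `DTK T`: the difference is supported in `S`, so it is in `Pray S N` (with `x = 1`). (b) the same: `E` = the part of `D'_j` above the complement of `S`. (c) `κ_v` is a unit at `S` (congruent to `1`), so `kU κ_v ∈ ET V T` (`od_algebraMap`, D2). -/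
theorem exists_T [IsGalois K L] {σ : L ≃ₐ[K] L} {S : Finset (Pr K)} {V : Subgroup Lˣ} (hV : IsV σ S V) :
    ∃ N T, IsT σ S V N T := by
  classical
  obtain ⟨N, hN⟩ := hV.ray
  have hfin : {w : Pr L | below K w ∈ S}.Finite := by
    refine (S.finite_toSet.biUnion fun v _ => fib_fin (L := L) K v).subset fun w hw => ?_
    exact Set.mem_biUnion (x := below K w) hw rfl
  have hSL : ∀ w : Pr L, w ∈ hfin.toFinset ↔ below K w ∈ S := fun w => hfin.mem_toFinset
  obtain ⟨F, hF⟩ := t2_rep (Pray S N) (Pray_index S N)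
  obtain ⟨F', hF'⟩ := t2_rep (Pray hfin.toFinset N) (Pray_index hfin.toFinset N)
  choose k hk1 hk2 using exists_sign S N
  refine ⟨N, (F.biUnion (fun D => D.support) ∪ F'.biUnion (fun D => D.support.image (below K)) ∪
    Finset.univ.biUnion (fun v => (dv (k v : K)).support)) \ S, ?_, ?_, ?_, ?_, ?_⟩
  · intro v hv
    exact (Finset.mem_sdiff.1 hv).2
  · intro κ hκ
    refine hN _ fun w hw => ?_
    exact t2_near w N _ (hκ.cong _ hw)
  · intro D
    obtain ⟨D0, h1, h2⟩ := hF D
    refine ⟨D0.filter (fun v => v ∉ S), ?_, ?_⟩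
    · intro v hv
      rw [Finsupp.filter_apply]
      split_ifs with hvS
      · rfl
      · by_contra h3
        apply hv
        rw [Finset.mem_sdiff, Finset.mem_union, Finset.mem_union, Finset.mem_biUnion]
        exact ⟨Or.inl (Or.inl ⟨D0, h1, Finsupp.mem_support_iff.2 h3⟩), hvS⟩
    · have h3 : D - D0.filter (fun v => v ∉ S) = (D - D0) + (D0 - D0.filter (fun v => v ∉ S)) := by abel
      rw [h3]
      refine (Pray S N).add_mem h2 ⟨1, ray_one S N, fun v hv => ?_⟩
      rw [Finsupp.sub_apply, Finsupp.filter_apply, if_pos hv, sub_self, od_one]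
  · intro D
    obtain ⟨D0, h1, y, hy, h2⟩ := hF' D
    refine ⟨D0.filter (fun w => below K w ∉ S), ?_, Units.mk0 y hy.ne, ?_, ?_⟩
    · intro w hw
      rw [Finsupp.filter_apply]
      split_ifs with hvS
      · rfl
      · by_contra h3
        apply hw
        rw [Finset.mem_sdiff, Finset.mem_union, Finset.mem_union, Finset.mem_biUnion, Finset.mem_biUnion]
        exact ⟨Or.inl (Or.inr ⟨D0, h1, Finset.mem_image.2 ⟨w, Finsupp.mem_support_iff.2 h3, rfl⟩⟩), hvS⟩
    · refine hN _ fun w hw => ?_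
      exact hy.cong w ((hSL w).2 hw)
    · intro w hw
      have h3 := h2 w (fun h => hw ((hSL w).1 h))
      rw [Finsupp.sub_apply] at h3
      rw [Finsupp.filter_apply, if_pos hw, Units.val_mk0, ← h3]
      ring
  · intro v _
    refine ⟨k v, ⟨hN _ fun w hw => t2_near w N _ (hk1 v _ hw), fun w hw => ?_⟩, fun φ => ⟨(hk2 v φ).1, fun _ h => (hk2 v φ).2 h⟩⟩
    show od w (algebraMap K L (k v : K)) = 0
    rw [od_algebraMap]
    by_cases hwS : below K w ∈ S
    · have h1 := hk1 v _ hwS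
      have h2 : (below K w).valuation K (k v : K) = 1 := by
        have h3 : (k v : K) = 1 + ((k v : K) - 1) := by ring
        rw [h3]
        exact Valuation.map_one_add_of_lt _ (h1.trans_le (exp_le_one N))
      unfold od
      rw [h2, WithZero.log_one, neg_zero, mul_zero]
    · have h1 : dv (k v : K) (below K w) = 0 := by
        by_contra h3
        apply hw
        rw [Finset.mem_sdiff, Finset.mem_union]
        exact ⟨Or.inr (Finset.mem_biUnion.2 ⟨v, Finset.mem_univ _, Finsupp.mem_support_iff.2 h3⟩), hwS⟩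
      rw [dv_apply] at h1
      rw [h1, mul_zero]

end Pool.Agent.H69H
end

-- from Lib.H69H.E2
section

set_option autoImplicit false
set_option linter.unusedSectionVars false

namespace Pool.Agent.H69H

open NumberField IsDedekindDomain CFT

variable {K : Type} [Field K] [NumberField K] {L : Type} [Field L] [NumberField L] [Algebra K L]

theorem MT_stable (σ : L ≃ₐ[K] L) (T : Finset (Pr K)) : ∀ D ∈ MT L T, sM σ D ∈ MT L T := by
  intro D hD w hw
  refine hD _ ?_
  show below K (gp σ⁻¹ w) ∉ T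
  rw [below_gp]
  exact hw

theorem UL_stable (σ : L ≃ₐ[K] L) : ∀ x ∈ UL L, sU σ x ∈ UL L := by
  intro x hx
  have h : dvU L x = 1 := hx
  show dvU L (sU σ x) = 1
  rw [dvU_sU, h, map_one]

theorem ET_stable {σ : L ≃ₐ[K] L} {S T : Finset (Pr K)} {V : Subgroup Lˣ} (hV : IsV σ S V) :
    ∀ x ∈ ET V T, sU σ x ∈ ET V T := by
  intro x hx
  refine ⟨hV.stable x hx.1, ?_⟩
  have h : dvU L (sU σ x) ∈ MT L T := by
    rw [dvU_sU]
    exact MT_stable σ T _ hx.2
  exact h

variable [IsGalois K L] {σ : L ≃ₐ[K] L} (hσ : ∀ x, x ∈ Subgroup.zpowers σ) {S T : Finset (Pr K)} {V : Subgroup Lˣ} {N : ℕ}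

include hσ in
/-- The Herbrand quotient of `ET V T`. -/
theorem her_ET (hS : ∀ v, v ∉ S → Unr K L v) (hV : IsV σ S V) (hT : IsT σ S V N T) :
    ∃ t : ℚ, Her (dif (sU σ)) (nrm (Module.finrank K L) (sU σ)) ⊥ (ET V T) t ∧
      t ≤ 2 ^ (RamInf K L).card / Module.finrank K L * ((DTL L T).map (Nd K L)).relIndex (DTK T) := by
  have hU : ∀ v ∈ T, Unr K L v := fun v hv => hS v (hT.disj v hv)
  obtain ⟨t, ht, htle⟩ := her_units σ hσ
  obtain ⟨t', ht', htle', _⟩ := her_MT σ hσ T hU
  have hp : IsPair (dif (sU σ)) (nrm (Module.finrank K L) (sU σ)) := isPair_dif_nrm _ (sU_iter σ)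
  have hpM : IsPair (dif (sM σ)) (nrm (Module.finrank K L) (sM σ)) := isPair_dif_nrm _ (sM_iter σ)
  have sB : IsStable (dif (sU σ)) (nrm (Module.finrank K L) (sU σ)) (⊥ : Subgroup Lˣ) :=
    isStable_of _ _ (fun x hx => by
      rw [Subgroup.mem_bot] at hx ⊢
      rw [hx, map_one])
  have sBM : IsStable (dif (sM σ)) (nrm (Module.finrank K L) (sM σ)) (⊥ : Subgroup (Multiplicative (Dv L))) :=
    isStable_of _ _ (fun x hx => by
      rw [Subgroup.mem_bot] at hx ⊢
      rw [hx, map_one])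
  have sUL := isStable_of (sU σ) (Module.finrank K L) (UL_stable σ)
  have sE0 := isStable_of (sU σ) (Module.finrank K L) (A := V ⊓ UL L) (fun x hx => ⟨hV.stable x hx.1, UL_stable σ x hx.2⟩)
  have sET := isStable_of (sU σ) (Module.finrank K L) (ET_stable (T := T) hV)
  have sMT := isStable_of (sM σ) (Module.finrank K L) (MT_stable σ T)
  have sIm := isStable_of (sM σ) (Module.finrank K L) (A := (ET V T).map (dvU L)) (by
    rintro _ ⟨x, hx, rfl⟩
    exact ⟨sU σ x, ET_stable hV x hx, dvU_sU σ x⟩)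
  have hE0U : V ⊓ UL L ≤ UL L := inf_le_right
  have hE0T : V ⊓ UL L ≤ ET V T := by
    intro x hx
    refine ⟨hx.1, ?_⟩
    have h : dvU L x = 1 := hx.2
    show dvU L x ∈ MT L T
    rw [h]
    exact one_mem _
  have hImT : (ET V T).map (dvU L) ≤ MT L T := by
    rintro _ ⟨x, hx, rfl⟩
    exact hx.2
  have hker : ET V T ⊓ (dvU L).ker ≤ V ⊓ UL L := fun x hx => ⟨hx.1.1, hx.2⟩
  have h1 : Her (dif (sU σ)) (nrm (Module.finrank K L) (sU σ)) ⊥ (V ⊓ UL L) (t / 1) :=
    her_low hp sB sE0 sUL bot_le hE0U ht (her_finite hp sE0 sUL hE0U (E0_index hV))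
  have h2 : Her (dif (sM σ)) (nrm (Module.finrank K L) (sM σ)) ⊥ ((ET V T).map (dvU L)) (t' / 1) :=
    her_low hpM sBM sIm sMT bot_le hImT ht' (her_finite hpM sIm sMT hImT (ET_index hV hT))
  have hbot : (V ⊓ UL L).map (dvU L) = ⊥ := by
    rw [eq_bot_iff]
    rintro _ ⟨x, hx, rfl⟩
    exact hx.2
  have ef : ∀ x, dvU L (dif (sU σ) x) = dif (sM σ) (dvU L x) := fun x => by
    rw [dif_apply, dif_apply, map_div, dvU_sU]
  have hit : ∀ (i : ℕ) (x : Lˣ), dvU L ((sU σ)^[i] x) = (sM σ)^[i] (dvU L x) := by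
    intro i
    induction i with
    | zero => intro x; rfl
    | succ i ih =>
      intro x
      rw [Function.iterate_succ_apply, Function.iterate_succ_apply, ih, dvU_sU]
  have eg : ∀ x, dvU L (nrm (Module.finrank K L) (sU σ) x) = nrm (Module.finrank K L) (sM σ) (dvU L x) := fun x => by
    rw [nrm_apply, nrm_apply, map_prod]
    exact Finset.prod_congr rfl fun i _ => hit i x
  have h3 : Her (dif (sU σ)) (nrm (Module.finrank K L) (sU σ)) (V ⊓ UL L) (ET V T) (t' / 1) := by
    have a1 := tate_map (dvU L) ef eg hp hE0T sE0 sET hker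
    have a2 := tate_map (dvU L) eg ef hp.symm hE0T sE0.symm sET.symm hker
    rw [hbot] at a1 a2
    exact ⟨by rw [a1]; exact h2.left, by rw [a2]; exact h2.right, by rw [a1, a2]; exact h2.eq⟩
  have h4 := her_mid hp sB sE0 sET bot_le hE0T h1 h3
  refine ⟨_, h4, ?_⟩
  rw [div_one, div_one]
  exact mul_le_mul htle htle' ht'.pos.le (by positivity)

end Pool.Agent.H69H
end

-- from Lib.H69H.V1a
section

set_option autoImplicit false
set_option linter.unusedSectionVars false

/-! The lattice `Mk S k` (coordinates in the normal basis divisible by `π^k` at the primes of `S`). -/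

namespace Pool.Agent.H69H

open NumberField IsDedekindDomain CFT WithZero

variable {K : Type} [Field K] [NumberField K] {L : Type} [Field L] [NumberField L] [Algebra K L]
variable [IsGalois K L]

/-- Coordinates in the normal basis. -/
noncomputable def co (g : L ≃ₐ[K] L) : L →ₗ[K] K :=
  (Finsupp.lapply g).comp (IsGalois.normalBasis K L).repr.toLinearMap

theorem co_def (g : L ≃ₐ[K] L) (x : L) : co g x = (IsGalois.normalBasis K L).repr x g := rfl

theorem sum_co (x : L) : ∑ g : L ≃ₐ[K] L, co g x • IsGalois.normalBasis K L g = x :=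
  (IsGalois.normalBasis K L).sum_repr x

open Classical in
theorem co_basis (g h : L ≃ₐ[K] L) : co g (IsGalois.normalBasis K L h) = if h = g then 1 else 0 := by
  rw [co_def, Module.Basis.repr_self, Finsupp.single_apply]

theorem co_gal (σ g : L ≃ₐ[K] L) (x : L) : co g (σ x) = co (σ⁻¹ * g) x := by
  classical
  have h : (co g).comp (σ : L →ₐ[K] L).toLinearMap = co (σ⁻¹ * g) := by
    refine (IsGalois.normalBasis K L).ext fun h => ?_
    have e : (σ : L →ₐ[K] L).toLinearMap (IsGalois.normalBasis K L h) = IsGalois.normalBasis K L (σ * h) := by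
      rw [IsGalois.normalBasis_apply h, IsGalois.normalBasis_apply (σ * h)]
      rfl
    rw [LinearMap.comp_apply, e, co_basis, co_basis]
    simp only [eq_inv_mul_iff_mul_eq]
  exact DFunLike.congr_fun h x

/-- The lattice. -/
noncomputable def Mk (L : Type) [Field L] [NumberField L] [Algebra K L] [IsGalois K L] (S : Finset (Pr K)) (k : ℤ) :
    AddSubgroup L where
  carrier := {x | ∀ v ∈ S, ∀ g : L ≃ₐ[K] L, v.valuation K (co g x) ≤ exp (-k)}
  zero_mem' := fun v _ g => by rw [map_zero, map_zero]; exact zero_le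
  add_mem' := fun {x y} hx hy v hv g => by
    rw [map_add]
    exact Valuation.map_add_le _ (hx v hv g) (hy v hv g)
  neg_mem' := fun {x} hx v hv g => by
    rw [map_neg, Valuation.map_neg]
    exact hx v hv g

variable {S : Finset (Pr K)}


theorem Mk_mono {k k' : ℤ} (h : k ≤ k') : Mk L S k' ≤ Mk L S k := fun x hx v hv g =>
  (hx v hv g).trans (exp_le_exp.2 (by omega))

theorem exists_bound {ι : Type*} (s : Finset ι) (f : ι → ℤᵐ⁰) : ∃ j : ℤ, 0 ≤ j ∧ ∀ i ∈ s, f i ≤ exp j := by
  classical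
  refine ⟨∑ i ∈ s, |log (f i)|, Finset.sum_nonneg fun i _ => abs_nonneg _, fun i hi => ?_⟩
  by_cases h : f i = 0
  · rw [h]
    exact zero_le
  · rw [← log_le_iff_le_exp h]
    exact (le_abs_self _).trans (Finset.single_le_sum (f := fun i => |log (f i)|) (fun i _ => abs_nonneg _) hi)

theorem exists_mem_Mk (x : L) : ∃ d : ℤ, 0 ≤ d ∧ x ∈ Mk L S (-d) := by
  obtain ⟨j, hj0, hj⟩ := exists_bound (S ×ˢ (Finset.univ : Finset (L ≃ₐ[K] L))) fun p => p.1.valuation K (co p.2 x)
  refine ⟨j, hj0, fun v hv g => ?_⟩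
  rw [neg_neg]
  exact hj (v, g) (Finset.mem_product.2 ⟨hv, Finset.mem_univ _⟩)

theorem smul_mem_Mk {c : K} {i k : ℤ} (hc : ∀ v ∈ S, v.valuation K c ≤ exp (-i)) {x : L} (hx : x ∈ Mk L S k) :
    c • x ∈ Mk L S (i + k) := fun v hv g => by
  rw [map_smul, smul_eq_mul, map_mul, neg_add, exp_add]
  exact mul_le_mul' (hc v hv) (hx v hv g)

theorem gal_mem_Mk (σ : L ≃ₐ[K] L) {k : ℤ} {x : L} (hx : x ∈ Mk L S k) : σ x ∈ Mk L S k := fun v hv g => by
  rw [co_gal]
  exact hx v hv _

theorem exists_mul (L : Type) [Field L] [NumberField L] [Algebra K L] [IsGalois K L] (S : Finset (Pr K)) :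
    ∃ c : ℤ, 0 ≤ c ∧ ∀ i j : ℤ, ∀ x y : L, x ∈ Mk L S i → y ∈ Mk L S j → x * y ∈ Mk L S (i + j - c) := by
  classical
  choose d hd0 hd using fun p : (L ≃ₐ[K] L) × (L ≃ₐ[K] L) =>
    exists_mem_Mk (S := S) (IsGalois.normalBasis K L p.1 * IsGalois.normalBasis K L p.2)
  refine ⟨∑ p, d p, Finset.sum_nonneg fun p _ => hd0 p, fun i j x y hx hy => ?_⟩
  rw [← sum_co (K := K) x, ← sum_co (K := K) y, Finset.sum_mul_sum]
  refine sum_mem fun g _ => sum_mem fun h _ => ?_
  rw [smul_mul_smul_comm]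
  have h1 : IsGalois.normalBasis K L g * IsGalois.normalBasis K L h ∈ Mk L S (-∑ p, d p) :=
    Mk_mono (neg_le_neg (Finset.single_le_sum (f := d) (fun p _ => hd0 p) (Finset.mem_univ (g, h)))) (hd (g, h))
  have h2 : ∀ v ∈ S, v.valuation K (co g x * co h y) ≤ exp (-(i + j)) := fun v hv => by
    rw [map_mul, neg_add, exp_add]
    exact mul_le_mul' (hx v hv g) (hy v hv h)
  have := smul_mem_Mk h2 h1
  rwa [← sub_eq_add_neg] at this

end Pool.Agent.H69H
end

-- from Lib.H69H.V1b
section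

set_option autoImplicit false
set_option linter.unusedSectionVars false

/-! The group `Vk`, and relation of the lattices with the valuations of `L`. -/

namespace Pool.Agent.H69H

open NumberField IsDedekindDomain CFT WithZero

variable {K : Type} [Field K] [NumberField K] {L : Type} [Field L] [NumberField L] [Algebra K L]
variable [IsGalois K L] {S : Finset (Pr K)}

/-- Constants: `c` for products, `d` for `1`. -/
structure Cst (L : Type) [Field L] [NumberField L] [Algebra K L] [IsGalois K L] (S : Finset (Pr K)) (c d : ℤ) : Prop where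
  c0 : 0 ≤ c
  d0 : 0 ≤ d
  mul : ∀ i j : ℤ, ∀ x y : L, x ∈ Mk L S i → y ∈ Mk L S j → x * y ∈ Mk L S (i + j - c)
  one : (1 : L) ∈ Mk L S (-d)

theorem exists_cst (L : Type) [Field L] [NumberField L] [Algebra K L] [IsGalois K L] (S : Finset (Pr K)) :
    ∃ c d : ℤ, Cst L S c d := by
  obtain ⟨c, hc0, hc⟩ := exists_mul L S
  obtain ⟨d, hd0, hd⟩ := exists_mem_Mk (S := S) (1 : L)
  exact ⟨c, d, hc0, hd0, hc, hd⟩

variable {c d k : ℤ}

theorem Cst.inv_aux (h : Cst L S c d) (hk : c + 1 ≤ k) {y : Lˣ} (hy : (y : L) - 1 ∈ Mk L S k) :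
    ∀ m : ℕ, ((y⁻¹ : Lˣ) : L) ∈ Mk L S (-d - m) → ((y⁻¹ : Lˣ) : L) ∈ Mk L S (-d) := by
  intro m
  induction m with
  | zero =>
    intro h1
    rwa [Nat.cast_zero, sub_zero] at h1
  | succ m ih =>
    intro h1
    refine ih ?_
    have e : ((y⁻¹ : Lˣ) : L) = 1 - ((y : L) - 1) * ((y⁻¹ : Lˣ) : L) := by
      have := y.mul_inv
      linear_combination this
    rw [e]
    refine sub_mem (Mk_mono (by omega) h.one) ?_
    refine Mk_mono ?_ (h.mul _ _ _ _ hy h1)
    push_cast
    omega

theorem Cst.inv (h : Cst L S c d) (hk : 2 * c + d + 1 ≤ k) {y : Lˣ} (hy : (y : L) - 1 ∈ Mk L S k) :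
    ((y⁻¹ : Lˣ) : L) - 1 ∈ Mk L S k := by
  have hc0 := h.c0
  have hd0 := h.d0
  obtain ⟨j, hj0, hj⟩ := exists_mem_Mk (S := S) ((y⁻¹ : Lˣ) : L)
  have h1 : ((y⁻¹ : Lˣ) : L) ∈ Mk L S (-d) := by
    refine h.inv_aux (by omega) hy j.toNat (Mk_mono ?_ hj)
    have := Int.toNat_of_nonneg hj0
    omega
  have h2 := h.mul _ _ _ _ hy h1
  have e1 : ((y⁻¹ : Lˣ) : L) - 1 = -(((y : L) - 1) * ((y⁻¹ : Lˣ) : L)) := by
    have := y.mul_inv
    linear_combination this
  have h3 : ((y⁻¹ : Lˣ) : L) - 1 ∈ Mk L S (k + -d - c) := by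
    rw [e1]
    exact neg_mem h2
  have h4 := h.mul _ _ _ _ hy h3
  have e2 : ((y⁻¹ : Lˣ) : L) - 1 = -((y : L) - 1) - ((y : L) - 1) * (((y⁻¹ : Lˣ) : L) - 1) := by
    have := y.mul_inv
    linear_combination this
  rw [e2]
  exact sub_mem (neg_mem hy) (Mk_mono (by omega) h4)

/-- The group `V_k`. -/
def Vk (h : Cst L S c d) (hk : 2 * c + d + 1 ≤ k) : Subgroup Lˣ where
  carrier := {y | (y : L) - 1 ∈ Mk L S k}
  one_mem' := by
    show ((1 : Lˣ) : L) - 1 ∈ Mk L S k
    rw [Units.val_one, sub_self]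
    exact zero_mem _
  mul_mem' := fun {x y} hx hy => by
    have hc0 := h.c0
    have hd0 := h.d0
    show ((x * y : Lˣ) : L) - 1 ∈ Mk L S k
    have e : ((x * y : Lˣ) : L) - 1 = ((x : L) - 1) * ((y : L) - 1) + ((x : L) - 1) + ((y : L) - 1) := by
      rw [Units.val_mul]
      ring
    rw [e]
    exact add_mem (add_mem (Mk_mono (by omega) (h.mul _ _ _ _ hx hy)) hx) hy
  inv_mem' := fun {x} hx => h.inv hk hx

theorem mem_Vk (h : Cst L S c d) (hk : 2 * c + d + 1 ≤ k) (y : Lˣ) : y ∈ Vk h hk ↔ (y : L) - 1 ∈ Mk L S k := Iff.rfl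

theorem Vk_stable (h : Cst L S c d) (hk : 2 * c + d + 1 ≤ k) (σ : L ≃ₐ[K] L) {y : Lˣ} (hy : y ∈ Vk h hk) :
    sU σ y ∈ Vk h hk := by
  have := gal_mem_Mk σ hy
  rwa [map_sub, map_one] at this

/-! Valuations. -/

theorem val_algebraMap_le (w : Pr L) {x : K} {i : ℤ} (hi : 0 ≤ i) (hx : (below K w).valuation K x ≤ exp (-i)) :
    w.valuation L (algebraMap K L x) ≤ exp (-i) := by
  by_cases h0 : x = 0
  · rw [h0, map_zero, map_zero]
    exact zero_le
  rw [val_eq _ h0, exp_le_exp] at hx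
  rw [val_eq _ ((map_ne_zero (algebraMap K L)).2 h0), exp_le_exp, od_algebraMap]
  have h1 : (1 : ℤ) ≤ w.asIdeal.ramificationIdx (𝓞 K) := by
    exact_mod_cast CFT.e_pos w
  have h2 : i ≤ od (below K w) x := by omega
  have h3 : i ≤ (w.asIdeal.ramificationIdx (𝓞 K) : ℤ) * od (below K w) x := by nlinarith
  omega

theorem val_gal (w : Pr L) (τ : L ≃ₐ[K] L) (x : L) : w.valuation L (τ x) = (gp τ⁻¹ w).valuation L x := by
  by_cases h0 : x = 0
  · rw [h0, map_zero, map_zero, map_zero]
  have h1 := od_gp τ (gp τ⁻¹ w) x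
  rw [gp_gp_inv] at h1
  rw [val_eq _ h0, val_eq _ ((map_ne_zero τ).2 h0), h1]

/-- The finite set of primes above `S`. -/
noncomputable def upS (L : Type) [Field L] [NumberField L] [Algebra K L] (S : Finset (Pr K)) : Finset (Pr L) :=
  ((S.finite_toSet).biUnion fun v _ => fib_fin (L := L) K v).toFinset

theorem mem_upS (w : Pr L) : w ∈ upS L S ↔ below K w ∈ S := by
  unfold upS
  rw [Set.Finite.mem_toFinset, Set.mem_iUnion₂]
  constructor
  · rintro ⟨v, hv, h⟩
    have : below K w = v := h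
    rw [this]
    exact hv
  · intro h
    exact ⟨_, h, rfl⟩

theorem Mk_val_le (L : Type) [Field L] [NumberField L] [Algebra K L] [IsGalois K L] (S : Finset (Pr K)) :
    ∃ c2 : ℤ, 0 ≤ c2 ∧ ∀ k : ℤ, 0 ≤ k → ∀ x ∈ Mk L S k, ∀ w : Pr L, below K w ∈ S → w.valuation L x ≤ exp (-k + c2) := by
  obtain ⟨j, hj0, hj⟩ := exists_bound (upS L S ×ˢ (Finset.univ : Finset (L ≃ₐ[K] L))) fun p =>
    p.1.valuation L (IsGalois.normalBasis K L p.2)
  refine ⟨j, hj0, fun k hk x hx w hw => ?_⟩
  rw [← sum_co (K := K) x]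
  refine Valuation.map_sum_le _ fun g _ => ?_
  rw [Algebra.smul_def, map_mul, exp_add]
  exact mul_le_mul' (val_algebraMap_le w hk (hx _ hw g)) (hj (w, g) (Finset.mem_product.2 ⟨(mem_upS w).2 hw, Finset.mem_univ _⟩))

open Classical in
/-- Coordinates by the trace. -/
theorem co_trace (x : L) (g : L ≃ₐ[K] L) :
    co g x = Algebra.trace K L (x * (IsGalois.normalBasis K L).traceDual g) := by
  have h := (IsGalois.normalBasis K L).traceDual.traceDual_repr_apply x g
  rw [Module.Basis.traceDual_traceDual] at h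
  exact h

theorem Mk_of_val (L : Type) [Field L] [NumberField L] [Algebra K L] [IsGalois K L] (S : Finset (Pr K)) (k : ℤ) :
    ∃ N : ℕ, ∀ x : L, (∀ w : Pr L, below K w ∈ S → w.valuation L x < exp (-(N : ℤ))) → x ∈ Mk L S k := by
  classical
  obtain ⟨j, hj0, hj⟩ := exists_bound (upS L S ×ˢ (Finset.univ : Finset (L ≃ₐ[K] L))) fun p =>
    p.1.valuation L ((IsGalois.normalBasis K L).traceDual p.2)
  obtain ⟨e, he⟩ : ∃ e : ℕ, ∀ w ∈ upS L S, w.asIdeal.ramificationIdx (𝓞 K) ≤ e :=
    ⟨∑ w ∈ upS L S, w.asIdeal.ramificationIdx (𝓞 K), fun w hw =>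
      Finset.single_le_sum (f := fun w : Pr L => w.asIdeal.ramificationIdx (𝓞 K)) (fun _ _ => Nat.zero_le _) hw⟩
  refine ⟨(j + e * |k|).toNat, fun x hx v hv g => ?_⟩
  have hN : ((j + e * |k|).toNat : ℤ) = j + e * |k| := Int.toNat_of_nonneg (by positivity)
  rw [co_trace]
  set z := x * (IsGalois.normalBasis K L).traceDual g with hz
  obtain ⟨w, hw⟩ := below_surj L v
  have hwS : w ∈ upS L S := (mem_upS w).2 (by rw [hw]; exact hv)
  by_cases h0 : Algebra.trace K L z = 0
  · rw [h0, map_zero]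
    exact zero_le
  have h1 : w.valuation L (algebraMap K L (Algebra.trace K L z)) ≤ exp (-((e : ℤ) * |k|)) := by
    rw [trace_eq_sum_automorphisms]
    refine Valuation.map_sum_le _ fun τ _ => ?_
    rw [val_gal, hz, map_mul]
    have hb : below K (gp τ⁻¹ w) ∈ S := by
      rw [below_gp, hw]
      exact hv
    have a1 := (hx _ hb).le
    have a2 := hj (gp τ⁻¹ w, g) (Finset.mem_product.2 ⟨(mem_upS _).2 hb, Finset.mem_univ _⟩)
    refine (mul_le_mul' a1 a2).trans ?_
    rw [← exp_add, exp_le_exp, hN]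
    omega
  rw [val_eq _ ((map_ne_zero (algebraMap K L)).2 h0), exp_le_exp, od_algebraMap, hw] at h1
  rw [val_eq _ h0, exp_le_exp]
  have h2 : (1 : ℤ) ≤ w.asIdeal.ramificationIdx (𝓞 K) := by
    exact_mod_cast CFT.e_pos w
  have h3 : (w.asIdeal.ramificationIdx (𝓞 K) : ℤ) ≤ e := by exact_mod_cast he w hwS
  have h4 : (e : ℤ) * |k| ≤ (w.asIdeal.ramificationIdx (𝓞 K) : ℤ) * od v (Algebra.trace K L z) := by omega
  have h5 : |k| ≤ od v (Algebra.trace K L z) := by
    by_contra hlt
    rw [not_le] at hlt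
    have h6 : (w.asIdeal.ramificationIdx (𝓞 K) : ℤ) * od v (Algebra.trace K L z) <
        (w.asIdeal.ramificationIdx (𝓞 K) : ℤ) * |k| := by nlinarith
    have h7 : (w.asIdeal.ramificationIdx (𝓞 K) : ℤ) * |k| ≤ e * |k| := mul_le_mul_of_nonneg_right h3 (abs_nonneg _)
    omega
  have := le_abs_self k
  omega

end Pool.Agent.H69H
end

-- from Lib.H69H.V1
section

set_option autoImplicit false
set_option linter.unusedSectionVars false

/-! Existence of the group `V`. -/

namespace Pool.Agent.H69H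

open NumberField IsDedekindDomain CFT WithZero

variable {K : Type} [Field K] [NumberField K] {L : Type} [Field L] [NumberField L] [Algebra K L]

theorem sU_mul (g h : L ≃ₐ[K] L) (x : Lˣ) : sU (g * h) x = sU g (sU h x) := by
  ext
  rfl

theorem sU_one (x : Lˣ) : sU (1 : L ≃ₐ[K] L) x = x := by
  ext
  rfl

variable [IsGalois K L] {S : Finset (Pr K)} {c d k : ℤ}

/-- The set of the `g` with `g y ∈ y V`. -/
def trH {V : Subgroup Lˣ} (hV : ∀ (g : L ≃ₐ[K] L), ∀ x ∈ V, sU g x ∈ V) (y : Lˣ) : Subgroup (L ≃ₐ[K] L) where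
  carrier := {g | ∃ u ∈ V, sU g y = y * u}
  one_mem' := ⟨1, one_mem _, by rw [sU_one, mul_one]⟩
  mul_mem' := by
    rintro g h ⟨u, hu, h1⟩ ⟨u', hu', h2⟩
    exact ⟨u * sU g u', mul_mem hu (hV g _ hu'), by rw [sU_mul, h2, map_mul, h1, mul_assoc]⟩
  inv_mem' := by
    rintro g ⟨u, hu, h1⟩
    refine ⟨(sU g⁻¹ u)⁻¹, inv_mem (hV _ _ hu), ?_⟩
    have h2 := congrArg (sU g⁻¹) h1
    rw [← sU_mul, inv_mul_cancel, sU_one, map_mul] at h2
    rw [eq_mul_inv_iff_mul_eq]
    exact h2.symm

/-- The set of the `h` such that the coordinates `h g` and `g` of `μ` are near for all `g`. -/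
def coH (S : Finset (Pr K)) (k : ℤ) (μ : L) : Subgroup (L ≃ₐ[K] L) where
  carrier := {h | ∀ v ∈ S, ∀ g, v.valuation K (co (h * g) μ - co g μ) ≤ exp (-k)}
  one_mem' := fun v _ g => by
    rw [one_mul, sub_self, map_zero]
    exact zero_le
  mul_mem' := fun {h h'} h1 h2 v hv g => by
    have e : co (h * h' * g) μ - co g μ = (co (h * (h' * g)) μ - co (h' * g) μ) + (co (h' * g) μ - co g μ) := by
      rw [mul_assoc]
      ring
    rw [e]
    exact Valuation.map_add_le _ (h1 v hv _) (h2 v hv _)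
  inv_mem' := fun {h} h1 v hv g => by
    have e : co (h⁻¹ * g) μ - co g μ = -(co (h * (h⁻¹ * g)) μ - co (h⁻¹ * g) μ) := by
      rw [mul_inv_cancel_left]
      ring
    rw [e, Valuation.map_neg]
    exact h1 v hv _

theorem exists_V_aux (σ : L ≃ₐ[K] L) (hσ : ∀ x, x ∈ Subgroup.zpowers σ) (hS : S.Nonempty) :
    ∃ V : Subgroup Lˣ, IsV σ S V := by
  classical
  obtain ⟨c, d, h⟩ := exists_cst L S
  obtain ⟨c2, hc2, hval⟩ := Mk_val_le L S
  obtain ⟨b, hb0, hb⟩ := exists_bound S fun v => v.valuation K ((Module.finrank K L : K)⁻¹)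
  obtain ⟨t, ht0, ht⟩ := exists_bound S fun v => v.valuation K (Algebra.trace K L (IsGalois.normalBasis K L 1))
  have hc0 := h.c0
  have hd0 := h.d0
  obtain ⟨k, hkdef⟩ : ∃ k : ℤ, k = 2 * c + d + c2 + b + t + 1 := ⟨_, rfl⟩
  have hk : 2 * c + d + 1 ≤ k := by omega
  have hk' : 2 * c + d + 1 ≤ k - b := by omega
  obtain ⟨v0, hv0⟩ := hS
  obtain ⟨w0, hw0⟩ := below_surj L v0
  have hlt : ∀ x ∈ Mk L S (k - b), ∀ w : Pr L, below K w ∈ S → w.valuation L x < 1 := by
    intro x hx w hw
    refine (hval _ (by omega) x hx w hw).trans_lt ?_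
    rw [← exp_zero, exp_lt_exp]
    omega
  have hlek : Mk L S k ≤ Mk L S (k - b) := Mk_mono (by omega)
  refine ⟨Vk h hk, fun x hx => Vk_stable h hk σ hx, ?_, ?_, ?_⟩
  · intro x hx w hw
    have h1 := hlt _ (hlek hx) w hw
    have h2 : w.valuation L (x : L) = 1 := by
      have e : (x : L) = 1 + ((x : L) - 1) := by ring
      rw [e]
      exact Valuation.map_one_add_of_lt _ h1
    unfold od
    rw [h2, log_one, neg_zero]
  · intro y hy
    -- step A
    have hA : ∀ g : L ≃ₐ[K] L, ∃ u ∈ Vk h hk, sU g y = y * u := by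
      have h1 : σ ∈ trH (V := Vk h hk) (fun g x hx => Vk_stable h hk g hx) y :=
        ⟨dif (sU σ) y, hy, by rw [dif_apply, mul_div_cancel]⟩
      intro g
      exact (Subgroup.zpowers_le.2 h1) (hσ g)
    choose u hu huy using hA
    have hn0 : (Module.finrank K L : K) ≠ 0 := by
      exact_mod_cast (Module.finrank_pos (R := K) (M := L)).ne'
    -- step B
    obtain ⟨ν, hν⟩ : ∃ ν : L, ν = (Module.finrank K L : K)⁻¹ • ∑ g : L ≃ₐ[K] L, ((u g : L) - 1) := ⟨_, rfl⟩
    have hνk : ν ∈ Mk L S (k - b) := by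
      rw [hν]
      have h1 : ∑ g : L ≃ₐ[K] L, ((u g : L) - 1) ∈ Mk L S k := sum_mem fun g _ => hu g
      have h2 := smul_mem_Mk (i := -b) (c := (Module.finrank K L : K)⁻¹) (fun v hv => by
        rw [neg_neg]
        exact hb v hv) h1
      have e : -b + k = k - b := by ring
      rwa [e] at h2
    have hcard : (Finset.univ : Finset (L ≃ₐ[K] L)).card = Module.finrank K L := by
      rw [Finset.card_univ, Fintype.card_eq_nat_card, IsGalois.card_aut_eq_finrank]
    have hB : algebraMap K L ((Module.finrank K L : K)⁻¹ * Algebra.trace K L (y : L)) = (y : L) * (1 + ν) := by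
      have e1 : ∑ g : L ≃ₐ[K] L, g (y : L) = (y : L) * ((Module.finrank K L : L) + ∑ g : L ≃ₐ[K] L, ((u g : L) - 1)) := by
        rw [Finset.sum_sub_distrib, Finset.sum_const, hcard, nsmul_eq_mul, mul_one, add_sub_cancel, Finset.mul_sum]
        refine Finset.sum_congr rfl fun g _ => ?_
        have := congrArg (fun z : Lˣ => (z : L)) (huy g)
        exact this
      rw [map_mul, trace_eq_sum_automorphisms, e1, hν, Algebra.smul_def]
      have e2 : algebraMap K L (Module.finrank K L : K)⁻¹ * (Module.finrank K L : L) = 1 := by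
        have : (Module.finrank K L : L) = algebraMap K L (Module.finrank K L : K) := by
          rw [map_natCast]
        rw [this, ← map_mul, inv_mul_cancel₀ hn0, map_one]
      linear_combination (y : L) * e2
    have hν1 : (1 : L) + ν ≠ 0 := by
      intro h0
      have h1 := hlt ν hνk w0 (by rw [hw0]; exact hv0)
      have h2 : ν = -1 := by linear_combination h0
      rw [h2, Valuation.map_neg, map_one] at h1
      exact lt_irrefl _ h1
    have hα : (Module.finrank K L : K)⁻¹ * Algebra.trace K L (y : L) ≠ 0 := by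
      intro h0
      rw [h0, map_zero] at hB
      exact mul_ne_zero y.ne_zero hν1 hB.symm
    obtain ⟨α, hαdef⟩ : ∃ α : Kˣ, (α : K) = (Module.finrank K L : K)⁻¹ * Algebra.trace K L (y : L) := ⟨Units.mk0 _ hα, rfl⟩
    rw [← hαdef] at hB
    obtain ⟨y', hy'⟩ : ∃ y' : Lˣ, y' = y * (kU K L α)⁻¹ := ⟨_, rfl⟩
    have hy'V : y' ∈ Vk h hk' := by
      rw [← inv_mem_iff]
      rw [mem_Vk]
      have : ((y'⁻¹ : Lˣ) : L) = 1 + ν := by
        rw [hy', mul_inv_rev, inv_inv, Units.val_mul, kU_coe, hB, mul_comm (y : L), mul_assoc, Units.mul_inv, mul_one]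
      rw [this, add_sub_cancel_left]
      exact hνk
    obtain ⟨μ, hμ⟩ : ∃ μ : L, μ = (y' : L) - 1 := ⟨_, rfl⟩
    have hμk : μ ∈ Mk L S (k - b) := by
      rw [hμ]
      exact hy'V
    -- step C
    have hC : σ μ - μ ∈ Mk L S k := by
      have e1 : sU σ y' = dif (sU σ) y * y' := by
        rw [hy', map_mul, map_inv]
        have : sU σ (kU K L α) = kU K L α := by
          ext
          rw [sU_coe, kU_coe, AlgEquiv.commutes]
        rw [this, dif_apply, ← mul_assoc, div_mul_cancel]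
      have e2 : σ (y' : L) = ((dif (sU σ) y : Lˣ) : L) * (y' : L) := by
        have := congrArg (fun z : Lˣ => (z : L)) e1
        exact this
      have e3 : σ μ - μ = (((dif (sU σ) y : Lˣ) : L) - 1) + (((dif (sU σ) y : Lˣ) : L) - 1) * μ := by
        rw [hμ, map_sub, map_one, e2]
        ring
      rw [e3]
      refine add_mem hy (Mk_mono ?_ (h.mul _ _ _ _ hy hμk))
      omega
    -- step D
    have hD : ∀ g, ∀ v ∈ S, v.valuation K (co g μ - co 1 μ) ≤ exp (-k) := by
      have h1 : σ⁻¹ ∈ coH S k μ := fun v hv g => by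
        have := hC v hv g
        rwa [map_sub, co_gal] at this
      have h2 : σ ∈ coH S k μ := inv_mem_iff.1 h1
      intro g v hv
      have := (Subgroup.zpowers_le.2 h2) (hσ g) v hv 1
      rwa [mul_one] at this
    -- step E
    obtain ⟨κ0, hκ0⟩ : ∃ κ0 : K, κ0 = co 1 μ * Algebra.trace K L (IsGalois.normalBasis K L 1) := ⟨_, rfl⟩
    have htr : ∑ g : L ≃ₐ[K] L, IsGalois.normalBasis K L g = algebraMap K L (Algebra.trace K L (IsGalois.normalBasis K L 1)) := by
      rw [trace_eq_sum_automorphisms]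
      exact Finset.sum_congr rfl fun g _ => IsGalois.normalBasis_apply g
    have hμ' : μ - algebraMap K L κ0 ∈ Mk L S k := by
      have e : μ - algebraMap K L κ0 = ∑ g : L ≃ₐ[K] L, (co g μ - co 1 μ) • IsGalois.normalBasis K L g := by
        rw [hκ0, map_mul, ← htr, ← Algebra.smul_def, Finset.smul_sum]
        conv_lhs => rw [← sum_co (K := K) μ]
        rw [← Finset.sum_sub_distrib]
        refine Finset.sum_congr rfl fun g _ => ?_
        rw [sub_smul, sum_co]
      intro v hv g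
      rw [e, map_sum, Finset.sum_eq_single g]
      · rw [map_smul, co_basis, if_pos rfl, smul_eq_mul, mul_one]
        exact hD g v hv
      · intro g' _ hg'
        rw [map_smul, co_basis, if_neg hg', smul_zero]
      · intro hg
        exact absurd (Finset.mem_univ g) hg
    -- step F
    have hκ1 : ∀ v ∈ S, v.valuation K (1 + κ0) = 1 := by
      intro v hv
      refine Valuation.map_one_add_of_lt _ ?_
      rw [hκ0, map_mul]
      refine (mul_le_mul' (hμk v hv 1) (ht v hv)).trans_lt ?_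
      rw [← exp_add, ← exp_zero, exp_lt_exp]
      omega
    have hκne : 1 + κ0 ≠ 0 := by
      intro h0
      have := hκ1 v0 hv0
      rw [h0, map_zero] at this
      exact zero_ne_one this
    obtain ⟨β, hβ⟩ : ∃ β : Kˣ, (β : K) = 1 + κ0 := ⟨Units.mk0 _ hκne, rfl⟩
    refine ⟨α * β, y' * (kU K L β)⁻¹, ?_, ?_⟩
    · rw [mem_Vk]
      have e : ((y' * (kU K L β)⁻¹ : Lˣ) : L) - 1 = (β : K)⁻¹ • (μ - algebraMap K L κ0) := by
        rw [Units.val_mul, Units.val_inv_eq_inv_val, kU_coe, hμ, Algebra.smul_def, map_inv₀]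
        have h1 : algebraMap K L (β : K) ≠ 0 := (map_ne_zero _).2 β.ne_zero
        field_simp
        rw [hβ, map_add, map_one]
        ring
      rw [e]
      have := smul_mem_Mk (i := 0) (c := (β : K)⁻¹) (fun v hv => by
        rw [map_inv₀, hβ, hκ1 v hv, inv_one, neg_zero, exp_zero]) hμ'
      rwa [zero_add] at this
    · rw [hy', map_mul]
      have : kU K L α * kU K L β * (y * (kU K L α)⁻¹ * (kU K L β)⁻¹) =
          y * (kU K L α * (kU K L α)⁻¹) * (kU K L β * (kU K L β)⁻¹) := by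
        simp only [mul_left_comm, mul_assoc]
      rw [this, mul_inv_cancel, mul_inv_cancel, mul_one, mul_one]
  · obtain ⟨N, hN⟩ := Mk_of_val L S k
    exact ⟨N, fun y hy => hN _ hy⟩

/-- The group `V` exists. -/
theorem exists_V (σ : L ≃ₐ[K] L) (hσ : ∀ x, x ∈ Subgroup.zpowers σ) (S : Finset (Pr K)) :
    ∃ V : Subgroup Lˣ, IsV σ S V := by
  rcases S.eq_empty_or_nonempty with rfl | hS
  · refine ⟨⊤, fun _ _ => trivial, fun _ _ w hw => ?_, fun y _ => ⟨1, y, trivial, ?_⟩, 0, fun _ _ => trivial⟩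
    · exact absurd hw (Finset.notMem_empty _)
    · rw [map_one, one_mul]
  · exact exists_V_aux σ hσ hS

end Pool.Agent.H69H
end

-- from Lib.H69H.F1
section

set_option autoImplicit false
set_option linter.unusedSectionVars false

/-! The first inequality. -/

namespace Pool.Agent.H69H

open NumberField IsDedekindDomain CFT

variable {K : Type} [Field K] [NumberField K] {L : Type} [Field L] [NumberField L] [Algebra K L]

theorem final_arith {D0 a r I n : ℕ} {t : ℚ} (hn : 0 < n) (hD0 : D0 ≠ 0) (h1 : D0 ≤ I * a)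
    (h2 : ((a * 2 ^ r : ℕ) : ℚ) = t) (h3 : t ≤ 2 ^ r / n * D0) : n ≤ I := by
  have hD : (0 : ℚ) < D0 := by exact_mod_cast Nat.pos_of_ne_zero hD0
  have hn' : (0 : ℚ) < n := by exact_mod_cast hn
  have h2r : (0 : ℚ) < 2 ^ r := by positivity
  have h4 : (a : ℚ) ≤ D0 / n := by
    have : (a : ℚ) * 2 ^ r ≤ 2 ^ r / n * D0 := by
      rw [← h2] at h3
      push_cast at h3
      exact h3
    have e : (2 : ℚ) ^ r / n * D0 = D0 / n * 2 ^ r := by ring
    rw [e] at this
    exact le_of_mul_le_mul_right this h2r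
  have h5 : (D0 : ℚ) ≤ I * (D0 / n) := by
    have : (D0 : ℚ) ≤ I * a := by exact_mod_cast h1
    exact this.trans (mul_le_mul_of_nonneg_left h4 (by positivity))
  have h6 : (n : ℚ) ≤ I := by
    have e : (I : ℚ) * (D0 / n) = I * D0 / n := by ring
    rw [e, le_div_iff₀ hn', mul_comm (D0 : ℚ)] at h5
    exact le_of_mul_le_mul_right h5 hD
  exact_mod_cast h6

theorem QQ_relIndex_le [IsGalois K L] {σ : L ≃ₐ[K] L} (hσ : ∀ x, x ∈ Subgroup.zpowers σ) {S T : Finset (Pr K)} {V : Subgroup Lˣ}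
    {N : ℕ} (hV : IsV σ S V) (hT : IsT σ S V N T) :
    (QQ (L := L) V T).relIndex (DTK T) ≤ (Pray S N ⊔ (Nd K L).range).index := by
  -- the index of `P`
  set P := Pray S N ⊔ (Nd K L).range with hPdef
  have hP0 : P.index ≠ 0 := by
    intro h0
    have := AddSubgroup.index_dvd_of_le (show Pray S N ≤ P from le_sup_left)
    rw [h0, zero_dvd_iff] at this
    exact Pray_index S N this
  have htop : P ⊔ DTK T = ⊤ := by
    rw [eq_top_iff]
    intro D _
    obtain ⟨E, hE, hD⟩ := hT.a D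
    have e : D = (D - E) + E := by abel
    rw [e]
    exact AddSubgroup.add_mem_sup (le_sup_left (a := Pray S N) hD) hE
  have h1 : P.relIndex (DTK T) = P.index := by
    rw [← AddSubgroup.relIndex_sup_right, sup_comm, htop, AddSubgroup.relIndex_top_right]
  have h2 : (P ⊓ DTK T).relIndex (DTK T) = P.index := by
    rw [AddSubgroup.inf_relIndex_right, h1]
  rw [← h2]
  exact AddSubgroup.relIndex_le_of_le_left (inter_le_QQ hσ hV hT) (by rw [h2]; exact hP0)

theorem first_ineq' [IsGalois K L] (σ : L ≃ₐ[K] L) (hσ : ∀ x, x ∈ Subgroup.zpowers σ) (S : Finset (Pr K))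
    (hS : ∀ v, v ∉ S → Unr K L v) :
    ∃ N : ℕ, Module.finrank K L ≤ (Pray S N ⊔ (Nd K L).range).index := by
  obtain ⟨V, hV⟩ := exists_V σ hσ S
  obtain ⟨N, T, hT⟩ := exists_T hV
  refine ⟨N, ?_⟩
  have hU : ∀ v ∈ T, Unr K L v := fun v hv => hS v (hT.disj v hv)
  obtain ⟨t, hE, ht⟩ := her_ET hσ hS hV hT
  have hm1 := tate_ET hσ hS hV hT
  obtain ⟨hP1, hP2⟩ := PP_index hσ hV hT
  have hE0 := hE.left
  have hE1 := hE.eq
  rw [hm1, Nat.cast_one, mul_one, ← hP2] at hE1
  have ha : ((ET V T).map (nrm (Module.finrank K L) (sU σ))).relIndex (PP V T) ≠ 0 := by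
    intro h0
    rw [← hP2, h0, zero_mul] at hE0
    exact hE0 rfl
  have hQ := QQ_index hσ hV hT ha
  obtain ⟨_, _, _, hD0⟩ := her_MT σ hσ T hU
  have hn : 0 < Module.finrank K L := Module.finrank_pos
  have hI := final_arith hn hD0 hQ hE1 ht
  exact hI.trans (QQ_relIndex_le hσ hV hT)

/-- THE FIRST INEQUALITY. -/
theorem first_ineq [IsGalois K L] (hc : IsCyclic (L ≃ₐ[K] L)) (S : Finset (Pr K)) (hS : ∀ v : Pr K, ¬ Unr K L v → v ∈ S) :
    ∃ N : ℕ, Module.finrank K L ≤ (Pray S N ⊔ (Nd K L).range).index := by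
  obtain ⟨σ, hσ⟩ := hc.exists_generator
  exact first_ineq' σ hσ S fun v hv => by
    by_contra h
    exact hv (hS v h)

end Pool.Agent.H69H
end
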