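import Mathlib
import Pool.Agent.Lib.H1M.PP2.M021
import Pool.Agent.Lib.H1M.PP2.M026
import Pool.Agent.Lib.H1M.PP2.M030
import Pool.Agent.Lib.H1M.PP2.M036

/-! Merged copies (to shorten the build) of Lib.CFT.Y08, Lib.CFT.Y10, Lib.CFT.Y11, Lib.CFT.Y12, Lib.CFT.Y27, Lib.CFT.Y27B, Lib.SSG.V.V9, Lib.CFT.ZB, Lib.CFT.ZC, Lib.CFT.ZE. -/

-- from Lib.CFT.Y08
section

/-! # CFT module Y, chunk Y08: the ray units are cocompact -/

open NumberField

namespace CFTY

variable {K : Type} [Field K] [NumberField K]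

/-- PROOF. `c` from `mink`. Given `x ≠ 0` take `a`; `nm a * nm x = nm (a x) ≤ house (a x) ^ d ≤ c nm x`, so `nm a ≤ c`. `fin_cls` (`B = c`): `a = u r`.
`u x = r⁻¹ (a x)`, so `house (u x) ^ d ≤ house r⁻¹ ^ d * c * nm x`. `C = 1 + sum over R of house r⁻¹ ^ d * c`. -/
theorem cocomp (m : Ideal (𝓞 K)) (hm : m ≠ ⊥) : ∃ C : ℝ, 0 < C ∧ ∀ x : K, x ≠ 0 →
    ∃ u ∈ RU m, Rg C ((((u : (𝓞 K)ˣ) : 𝓞 K) : K) * x) := by
  classical
  obtain ⟨c, hc0, hc⟩ := mink K
  obtain ⟨R, hR0, hR⟩ := fin_cls m hm c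
  have hterm : ∀ r ∈ R, 0 ≤ house ((r : K)⁻¹) ^ dg K * c := fun r _ =>
    mul_nonneg (pow_nonneg (house_nonneg _) _) hc0.le
  refine ⟨1 + ∑ r ∈ R, house ((r : K)⁻¹) ^ dg K * c, ?_, ?_⟩
  · have h1 := Finset.sum_nonneg hterm
    linarith
  · intro x hx
    obtain ⟨a, ha0, ha⟩ := hc x hx
    have hn := nm_pos hx
    have h1 : nm (a : K) ≤ c := by
      have h2 := nm_le_house ((a : K) * x)
      rw [nm_mul] at h2
      exact le_of_mul_le_mul_right (h2.trans ha) hn
    obtain ⟨r, hr, u, hu, hau⟩ := hR a ha0 h1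
    have hrK : (r : K) ≠ 0 := RingOfIntegers.coe_ne_zero_iff.2 (hR0 r hr)
    refine ⟨u, hu, mul_ne_zero (RingOfIntegers.coe_ne_zero_iff.2 (Units.ne_zero u)) hx, ?_⟩
    rw [nm_mul, nm_unit, one_mul]
    have h2 : (a : K) = (((u : (𝓞 K)ˣ) : 𝓞 K) : K) * (r : K) := by
      rw [hau]
      exact map_mul (algebraMap (𝓞 K) K) _ _
    have h3 : (((u : (𝓞 K)ˣ) : 𝓞 K) : K) * x = (r : K)⁻¹ * ((a : K) * x) := by
      rw [h2]
      field_simp
    rw [h3]
    calc house ((r : K)⁻¹ * ((a : K) * x)) ^ dg K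
        ≤ (house ((r : K)⁻¹) * house ((a : K) * x)) ^ dg K :=
          pow_le_pow_left₀ (house_nonneg _) (house_mul_le _ _) _
      _ = house ((r : K)⁻¹) ^ dg K * house ((a : K) * x) ^ dg K := mul_pow _ _ _
      _ ≤ house ((r : K)⁻¹) ^ dg K * (c * nm x) := mul_le_mul_of_nonneg_left ha (pow_nonneg (house_nonneg _) _)
      _ = (house ((r : K)⁻¹) ^ dg K * c) * nm x := by ring
      _ ≤ (1 + ∑ r ∈ R, house ((r : K)⁻¹) ^ dg K * c) * nm x := by
          refine mul_le_mul_of_nonneg_right ?_ hn.le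
          have h4 := Finset.single_le_sum hterm hr
          linarith


end CFTY
end

-- from Lib.CFT.Y10
section

/-! # CFT module Y, chunk Y10: the sum of the cut-off functions -/

open NumberField

namespace CFTY

variable {K : Type} [Field K] [NumberField K]

variable (E : Subgroup (𝓞 K)ˣ)

/-- PROOF. `ph C (u x) ≠ 0` gives `Rg (2 C) (u x)` (`ph_rg`), `Rg A x` for `A = house x ^ d / nm x`, so `house u ≤ max A (2 C)` (`house_unit`), finitely many
(`fin_units`). For `x = 0` all values are 0. -/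
theorem wt_fin (C : ℝ) (x : K) :
    (Function.support fun u : E => ph C ((((u : (𝓞 K)ˣ) : 𝓞 K) : K) * x)).Finite := by
  by_cases hx : x = 0
  · have h : (Function.support fun u : E => ph C ((((u : (𝓞 K)ˣ) : 𝓞 K) : K) * x)) = ∅ := by
      rw [Function.support_eq_empty_iff]
      funext u
      rw [hx, mul_zero]
      unfold ph
      rw [if_pos rfl]
      rfl
    rw [h]
    exact Set.finite_empty
  · have hn := nm_pos hx
    have hA : Rg (house x ^ dg K / nm x) x := ⟨hx, by rw [div_mul_cancel₀ _ hn.ne']⟩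
    refine Set.Finite.subset ((fin_units (K := K) (max (house x ^ dg K / nm x) (2 * C))).preimage
      (f := fun u : E => (u : (𝓞 K)ˣ)) Subtype.val_injective.injOn) ?_
    intro u hu
    exact house_unit (u : (𝓞 K)ˣ) hA (ph_rg hu)


/-- PROOF. Reindex by `u ↦ u v` (`Equiv.mulRight`). -/
theorem wt_inv (C : ℝ) (x : K) {v : (𝓞 K)ˣ} (hv : v ∈ E) : Wt C E ((((v : (𝓞 K)ˣ) : 𝓞 K) : K) * x) = Wt C E x := by
  unfold Wt
  rw [← (Equiv.mulRight (⟨v, hv⟩ : E)).tsum_eq (fun u : E => ph C ((((u : (𝓞 K)ˣ) : 𝓞 K) : K) * x))]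
  refine tsum_congr fun u => ?_
  congr 1
  simp only [Equiv.coe_mulRight, Subgroup.coe_mul, Units.val_mul, map_mul]
  ring


/-- PROOF. One of the terms is `≥ C` (`ph_ge`), all are `≥ 0`, the support is finite. -/
theorem wt_ge {C : ℝ} {x : K} (u : (𝓞 K)ˣ) (hu : u ∈ E) (h : Rg C ((((u : (𝓞 K)ˣ) : 𝓞 K) : K) * x)) :
    C ≤ Wt C E x := by
  have h1 : Summable fun u : E => ph C ((((u : (𝓞 K)ˣ) : 𝓞 K) : K) * x) := summable_of_hasFiniteSupport (wt_fin E C x)
  have h2 := h1.le_tsum (⟨u, hu⟩ : E) (fun j _ => ph_nonneg C _)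
  exact (ph_ge h).trans h2


/-- For `x` in `Rg A` the sum is over a fixed finite set of units. PROOF. `{u ∈ E : house u ≤ max A (2 C)}`, `house_unit`. -/
theorem wt_finset (C A : ℝ) : ∃ U : Finset E, ∀ x : K, Rg A x →
    Wt C E x = ∑ u ∈ U, ph C (((((u : E) : (𝓞 K)ˣ) : 𝓞 K) : K) * x) := by
  classical
  have hfin : {u : E | house ((((u : (𝓞 K)ˣ) : 𝓞 K) : K)) ≤ max A (2 * C)}.Finite :=
    (fin_units (K := K) (max A (2 * C))).preimage (f := fun u : E => (u : (𝓞 K)ˣ)) Subtype.val_injective.injOn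
  refine ⟨hfin.toFinset, fun x hx => ?_⟩
  unfold Wt
  refine tsum_eq_sum fun u hu => ?_
  by_contra h
  exact hu (hfin.mem_toFinset.2 (house_unit (u : (𝓞 K)ˣ) hx (ph_rg h)))


end CFTY
end

-- from Lib.CFT.Y11
section

/-! # CFT module Y, chunk Y11: the sum of the cut-off functions is Lipschitz -/

open NumberField

namespace CFTY

variable {K : Type} [Field K] [NumberField K]

variable (E : Subgroup (𝓞 K)ˣ)

/-- PROOF. If `Rg C x`, `Cl δ x y`, `δ ≤ 1/2` then `Rg (3^d C) y` (`cl_house_upper`, `cl_nm_lower`). -/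
theorem rg_cl {C δ : ℝ} {x y : K} (hC : 0 ≤ C) (h0 : 0 ≤ δ) (h1 : δ ≤ 1 / 2) (h : Rg C x) (hc : Cl δ x y) :
    Rg (3 ^ dg K * C) y := by
  obtain ⟨hx, hR⟩ := h
  refine ⟨cl_ne h1 hx hc, ?_⟩
  have h2 := cl_house_upper h0 hc
  have h3 := cl_nm_lower h1 hc
  have hn := nm_nonneg x
  have h4 : (1 + δ) ^ dg K ≤ 3 ^ dg K * (1 - δ) ^ dg K := by
    rw [← mul_pow]
    exact pow_le_pow_left₀ (by linarith) (by linarith) _
  calc house y ^ dg K ≤ ((1 + δ) * house x) ^ dg K := pow_le_pow_left₀ (house_nonneg y) h2 _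
    _ = (1 + δ) ^ dg K * house x ^ dg K := mul_pow _ _ _
    _ ≤ (1 + δ) ^ dg K * (C * nm x) := mul_le_mul_of_nonneg_left hR (pow_nonneg (by linarith) _)
    _ ≤ (3 ^ dg K * (1 - δ) ^ dg K) * (C * nm x) := mul_le_mul_of_nonneg_right h4 (mul_nonneg hC hn)
    _ = (3 ^ dg K * C) * ((1 - δ) ^ dg K * nm x) := by ring
    _ ≤ (3 ^ dg K * C) * nm y := mul_le_mul_of_nonneg_left h3 (mul_nonneg (by positivity) hC)


/-- PROOF. `U` from `wt_finset` with `A = 3^d C`. Let `u ∈ E` with `Rg C (u x)`; replace `x, y` by `u x, u y` (`wt_inv`, `cl_mul`). Then `x` and `y` are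
in `Rg A` (`rg_cl`; `C ≤ 3^d C`), so both values are sums over `U`; `ph_LL`. -/
theorem wt_LL {C : ℝ} (hC : 0 < C) (hE : ∀ x : K, x ≠ 0 → ∃ u ∈ E, Rg C ((((u : (𝓞 K)ˣ) : 𝓞 K) : K) * x)) :
    ∃ L : ℝ, 0 ≤ L ∧ ∀ (δ : ℝ) (x y : K), 0 ≤ δ → δ ≤ 1 / 2 → x ≠ 0 → Cl δ x y →
      |Wt C E y - Wt C E x| ≤ L * δ := by
  classical
  obtain ⟨U, hU⟩ := wt_finset E C (3 ^ dg K * C)
  obtain ⟨L, hL0, hL⟩ := ph_LL (K := K) C hC
  refine ⟨(U.card : ℝ) * L, mul_nonneg (Nat.cast_nonneg _) hL0, ?_⟩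
  intro δ x y h0 h1 hx hc
  obtain ⟨u, hu, hR⟩ := hE x hx
  rw [← wt_inv E C x hu, ← wt_inv E C y hu]
  have hc' := cl_mul hc (((u : (𝓞 K)ˣ) : 𝓞 K) : K)
  have hRy := rg_cl hC.le h0 h1 hR hc'
  have hRx : Rg (3 ^ dg K * C) ((((u : (𝓞 K)ˣ) : 𝓞 K) : K) * x) := by
    refine rg_cl hC.le le_rfl (by norm_num) hR ?_
    intro σ
    rw [sub_self, norm_zero, zero_mul]
  rw [hU _ hRy, hU _ hRx, ← Finset.sum_sub_distrib]
  refine (Finset.abs_sum_le_sum_abs _ _).trans ?_
  have h2 : ∀ w ∈ U, |ph C (((((w : E) : (𝓞 K)ˣ) : 𝓞 K) : K) * ((((u : (𝓞 K)ˣ) : 𝓞 K) : K) * y)) -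
      ph C (((((w : E) : (𝓞 K)ˣ) : 𝓞 K) : K) * ((((u : (𝓞 K)ˣ) : 𝓞 K) : K) * x))| ≤ L * δ := by
    intro w _
    refine hL δ _ _ h0 h1 ?_ (cl_mul hc' _)
    refine mul_ne_zero ?_ hR.1
    have h3 : ((w : (𝓞 K)ˣ) : 𝓞 K) ≠ 0 := Units.ne_zero _
    exact RingOfIntegers.coe_ne_zero_iff.2 h3
  refine (Finset.sum_le_sum h2).trans ?_
  rw [Finset.sum_const, nsmul_eq_mul, mul_assoc]


end CFTY
end

-- from Lib.CFT.Y12
section

/-! # CFT module Y, chunk Y12: partition of unity -/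

open NumberField

namespace CFTY

variable {K : Type} [Field K] [NumberField K]

/-- difference of quotients -/
theorem y12_quot {p q P Q C Lp Lw δ : ℝ} (hC : 0 < C) (hP : C ≤ P) (hQ : C ≤ Q) (hp0 : 0 ≤ p) (hp : p ≤ 2 * C)
    (h1 : |q - p| ≤ Lp * δ) (h2 : |Q - P| ≤ Lw * δ) : |q / Q - p / P| ≤ (Lp / C + 2 * Lw / C) * δ := by
  have hP0 : 0 < P := lt_of_lt_of_le hC hP
  have hQ0 : 0 < Q := lt_of_lt_of_le hC hQ
  have hLp : 0 ≤ Lp * δ := (abs_nonneg _).trans h1
  have hLw : 0 ≤ Lw * δ := (abs_nonneg _).trans h2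
  have e : q / Q - p / P = (q - p) / Q - p * (Q - P) / (P * Q) := by
    field_simp
    ring
  rw [e]
  refine (abs_sub _ _).trans ?_
  rw [abs_div, abs_div, abs_mul, abs_of_pos hQ0, abs_of_pos (mul_pos hP0 hQ0), abs_of_nonneg hp0]
  have h3 : |q - p| / Q ≤ (Lp * δ) / C := div_le_div₀ hLp h1 hC hQ
  have h4 : p * |Q - P| / (P * Q) ≤ (2 * C * (Lw * δ)) / (C * C) := by
    refine div_le_div₀ (by positivity) ?_ (by positivity) ?_
    · exact mul_le_mul hp h2 (abs_nonneg _) (by positivity)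
    · exact mul_le_mul hP hQ hC.le hP0.le
  have h5 : (2 * C * (Lw * δ)) / (C * C) = 2 * Lw / C * δ := by
    field_simp
  have h6 : (Lp * δ) / C = Lp / C * δ := by ring
  rw [h5] at h4
  rw [h6] at h3
  linarith

/-- PROOF. `C` from `cocomp`, `E = RU m`, `w x = ph C x / Wt C E x` (0 at 0 because `ph C 0 = 0`), `A = 2 C`. For `x ≠ 0`: `Wt ≥ C` (`wt_ge`), so `w` is between 0
and 2. LL: `|ph y / Wt y - ph x / Wt x| ≤ |ph y - ph x| / Wt y + ph x |Wt x - Wt y| / (Wt x Wt y)`, `ph_LL`, `wt_LL`, `ph_le`.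
Sum: `w (u x) = ph C (u x) / Wt C E x` (`wt_inv`), finite support. -/
theorem part_unity (m : Ideal (𝓞 K)) (hm : m ≠ ⊥) : ∃ (w : K → ℝ) (A : ℝ), 0 < A ∧
    Bd (fun x => (w x : ℂ)) ∧ LL (fun x => (w x : ℂ)) ∧ (∀ x, w x ≠ 0 → Rg A x) ∧
    ∀ x : K, x ≠ 0 → HasSum (fun u : RU m => w ((((u : (𝓞 K)ˣ) : 𝓞 K) : K) * x)) 1 := by
  obtain ⟨C, hC, hcc⟩ := cocomp m hm
  have hph0 : ph C (0 : K) = 0 := by
    by_contra h
    exact (ph_rg h).1 rfl
  have hWt : ∀ x : K, x ≠ 0 → C ≤ Wt C (RU m) x := by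
    intro x hx
    obtain ⟨u, hu, hr⟩ := hcc x hx
    exact wt_ge (RU m) u hu hr
  refine ⟨fun x => ph C x / Wt C (RU m) x, 2 * C, by linarith, ?_, ?_, ?_, ?_⟩
  · refine ⟨2, by norm_num, ?_⟩
    intro x
    by_cases hx : x = 0
    · subst hx
      simp [hph0]
    · have h1 := hWt x hx
      have h0 : 0 < Wt C (RU m) x := lt_of_lt_of_le hC h1
      have h2 := ph_nonneg C x
      have h3 := ph_le C hC.le x
      rw [Complex.norm_real, Real.norm_eq_abs, abs_of_nonneg (div_nonneg h2 h0.le), div_le_iff₀ h0]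
      nlinarith
  · obtain ⟨Lp, hLp, hp⟩ := ph_LL (K := K) C hC
    obtain ⟨Lw, hLw, hw⟩ := wt_LL (RU m) hC hcc
    refine ⟨Lp / C + 2 * Lw / C, by positivity, ?_⟩
    intro δ x y h0 h1 hx hc
    have hy : y ≠ 0 := cl_ne h1 hx hc
    have h2 := y12_quot hC (hWt x hx) (hWt y hy) (ph_nonneg C x) (ph_le C hC.le x) (hp δ x y h0 h1 hx hc)
      (hw δ x y h0 h1 hx hc)
    rw [← Complex.ofReal_sub, Complex.norm_real, Real.norm_eq_abs]
    exact h2
  · intro x hx
    have h1 : ph C x ≠ 0 := by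
      intro h
      apply hx
      show ph C x / Wt C (RU m) x = 0
      rw [h, zero_div]
    exact ph_rg h1
  · intro x hx
    have h0 : Wt C (RU m) x ≠ 0 := (lt_of_lt_of_le hC (hWt x hx)).ne'
    have e : (fun u : RU m => ph C ((((u : (𝓞 K)ˣ) : 𝓞 K) : K) * x) / Wt C (RU m) ((((u : (𝓞 K)ˣ) : 𝓞 K) : K) * x))
        = fun u : RU m => ph C ((((u : (𝓞 K)ˣ) : 𝓞 K) : K) * x) / Wt C (RU m) x := by
      funext u
      rw [wt_inv (RU m) C x u.2]
    show HasSum (fun u : RU m => ph C ((((u : (𝓞 K)ˣ) : 𝓞 K) : K) * x) / Wt C (RU m) ((((u : (𝓞 K)ˣ) : 𝓞 K) : K) * x)) 1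
    rw [e]
    have hs : Summable (fun u : RU m => ph C ((((u : (𝓞 K)ˣ) : 𝓞 K) : K) * x)) :=
      summable_of_finite_support (wt_fin (RU m) C x)
    have h1 := hs.hasSum.div_const (Wt C (RU m) x)
    have h2 : (∑' u : RU m, ph C ((((u : (𝓞 K)ˣ) : 𝓞 K) : K) * x)) / Wt C (RU m) x = 1 := by
      have : (∑' u : RU m, ph C ((((u : (𝓞 K)ˣ) : 𝓞 K) : K) * x)) = Wt C (RU m) x := rfl
      rw [this, div_self h0]
    rw [h2] at h1
    exact h1

end CFTY
end

-- from Lib.CFT.Y27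
section

/-! # CFT module Y, chunk Y27: representatives of the ray classes -/

open NumberField IsDedekindDomain

namespace CFTY

open CFT

variable {K : Type} [Field K] [NumberField K]

/-- divisors which are nonnegative and vanish on S -/
def y27P (S : Finset (Pr K)) (D : Dv K) : Prop := (∀ v, 0 ≤ D v) ∧ ∀ v ∈ S, D v = 0

theorem y27P_add {S : Finset (Pr K)} {D E : Dv K} (hD : y27P S D) (hE : y27P S E) : y27P S (D + E) :=
  ⟨fun v => by rw [Finsupp.add_apply]; exact add_nonneg (hD.1 v) (hE.1 v),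
    fun v hv => by rw [Finsupp.add_apply, hD.2 v hv, hE.2 v hv, add_zero]⟩

theorem y27P_nsmul {S : Finset (Pr K)} {D : Dv K} (hD : y27P S D) (n : ℕ) : y27P S (n • D) :=
  ⟨fun v => by rw [Finsupp.smul_apply]; exact nsmul_nonneg (hD.1 v) n,
    fun v hv => by rw [Finsupp.smul_apply, hD.2 v hv, smul_zero]⟩

theorem exists_reps (S : Finset (Pr K)) (N : ℕ) (hf : (Pray S N).FiniteIndex) : ∃ T : Finset (Ideal (𝓞 K)), Reps (mI S N) T := by
  classical
  haveI : Finite (Dv K ⧸ Pray S N) := AddSubgroup.finite_quotient_of_finiteIndex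
  haveI : Fintype (Dv K ⧸ Pray S N) := Fintype.ofFinite _
  set n : ℕ := Nat.card (Dv K ⧸ Pray S N) with hn
  have hn1 : 1 ≤ n := Nat.card_pos
  have hnq : ∀ q : Dv K ⧸ Pray S N, n • q = 0 := fun q => card_nsmul_eq_zero'
  -- the representatives
  have hex : ∀ q : Dv K ⧸ Pray S N, ∃ D : Dv K, y27P S D ∧
      ((∃ D' : Dv K, y27P S D' ∧ (QuotientAddGroup.mk D' : Dv K ⧸ Pray S N) = q) →
        (QuotientAddGroup.mk D : Dv K ⧸ Pray S N) = q) := by
    intro q
    by_cases h : ∃ D' : Dv K, y27P S D' ∧ (QuotientAddGroup.mk D' : Dv K ⧸ Pray S N) = q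
    · obtain ⟨D', h1, h2⟩ := h
      exact ⟨D', h1, fun _ => h2⟩
    · exact ⟨0, ⟨fun v => le_rfl, fun v _ => rfl⟩, fun h' => absurd h' h⟩
  choose Dq hP hq using hex
  set Q : Finset (Dv K ⧸ Pray S N) := Finset.univ.filter fun q =>
    ∃ D' : Dv K, y27P S D' ∧ (QuotientAddGroup.mk D' : Dv K ⧸ Pray S N) = q with hQ
  have hmem : ∀ q ∈ Q, (QuotientAddGroup.mk (Dq q) : Dv K ⧸ Pray S N) = q := fun q h =>
    hq q (Finset.mem_filter.1 h).2
  -- the key equivalence
  have key : ∀ D : Dv K, y27P S D → ∀ q ∈ Q, (PrI (mI S N) (idl D * idl ((n - 1) • Dq q)) ↔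
      q = (QuotientAddGroup.mk D : Dv K ⧸ Pray S N)) := by
    intro D hD q hqQ
    have h2 := y27P_nsmul (hP q) (n - 1)
    have h3 := y27P_add hD h2
    rw [← idl_add hD.1 h2.1, prI_idl h3.1 h3.2, ← QuotientAddGroup.eq_zero_iff]
    have e : (QuotientAddGroup.mk (D + (n - 1) • Dq q) : Dv K ⧸ Pray S N) =
        QuotientAddGroup.mk D + (n - 1) • q := by
      rw [QuotientAddGroup.mk_add, QuotientAddGroup.mk_nsmul, hmem q hqQ]
    have e2 : (n - 1) • q = -q := by
      have h4 : (n - 1) • q + q = 0 := by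
        rw [← succ_nsmul, Nat.sub_add_cancel hn1, hnq]
      exact eq_neg_of_add_eq_zero_left h4
    have e3 : ((D + (n - 1) • Dq q : Dv K) : Dv K ⧸ Pray S N) = QuotientAddGroup.mk D - q := by
      rw [sub_eq_add_neg, ← e2]
      exact e
    rw [e3, sub_eq_zero, eq_comm]
  refine ⟨Q.image fun q => idl ((n - 1) • Dq q), ?_, ?_⟩
  · intro c hc
    obtain ⟨q, -, rfl⟩ := Finset.mem_image.1 hc
    have h2 := y27P_nsmul (hP q) (n - 1)
    exact ⟨idl_ne_zero _, (cop_idl N h2.1).2 h2.2⟩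
  · intro a ha hc
    obtain ⟨D, hD, rfl⟩ := exists_idl ha
    have hD2 : y27P S D := ⟨hD, (cop_idl N hD).1 hc⟩
    have hqQ : (QuotientAddGroup.mk D : Dv K ⧸ Pray S N) ∈ Q :=
      Finset.mem_filter.2 ⟨Finset.mem_univ _, D, hD2, rfl⟩
    refine ⟨idl ((n - 1) • Dq (QuotientAddGroup.mk D)), ⟨Finset.mem_image.2 ⟨_, hqQ, rfl⟩, (key D hD2 _ hqQ).2 rfl⟩, ?_⟩
    rintro c ⟨hcT, hcP⟩
    obtain ⟨q, hq', rfl⟩ := Finset.mem_image.1 hcT
    rw [(key D hD2 q hq').1 hcP]

end CFTY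
end

-- from Lib.CFT.Y27B
section

/-! # CFT module Y, chunk Y27B: change of the modulus -/

open NumberField IsDedekindDomain

namespace CFTY

open CFT

variable {K : Type} [Field K] [NumberField K]

/-- PROOF. `S` = the primes containing `m` (finite), `N` large: `v^(N+1)` divides `m` at most.. i.e. `m ∣ mI S N`, `mI S N ≤ m`; both have the same prime divisors.
(`m = ∏ v^(count)`, `Ideal.finprod_heightOneSpectrum_factorization`, or `exists_idl` and `le_idl_iff`.) -/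
theorem exists_mI {m : Ideal (𝓞 K)} (hm : m ≠ ⊥) : ∃ (S : Finset (Pr K)) (N : ℕ), mI S N ≤ m ∧ ∀ a : Ideal (𝓞 K),
    IsCoprime a m ↔ IsCoprime a (mI S N) := by
  classical
  obtain ⟨D, hD, rfl⟩ := exists_idl (K := K) hm
  have hle : ∀ v ∈ D.support, (D v).toNat ≤ D.support.sup fun v => (D v).toNat := fun v hv =>
    Finset.le_sup (f := fun v => (D v).toNat) hv
  have hpos : ∀ v ∈ D.support, 0 < (D v).toNat := by
    intro v hv
    have h1 := Finsupp.mem_support_iff.1 hv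
    have h2 := hD v
    omega
  refine ⟨D.support, D.support.sup fun v => (D v).toNat, ?_, fun a => ?_⟩
  · apply Ideal.le_of_dvd
    unfold idl mI Finsupp.prod
    exact Finset.prod_dvd_prod_of_dvd _ _ fun v hv => pow_dvd_pow _ ((hle v hv).trans (Nat.le_succ _))
  · unfold idl mI Finsupp.prod
    rw [IsCoprime.prod_right_iff, IsCoprime.prod_right_iff]
    refine forall₂_congr fun v hv => ?_
    rw [IsCoprime.pow_right_iff (hpos v hv), IsCoprime.pow_right_iff (Nat.succ_pos _)]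

/-- PROOF. Immediate. -/
theorem HCh.mono {m m' : Ideal (𝓞 K)} {ψ : K → ℂ} {χ : Ideal (𝓞 K) →*₀ ℂ} (h : HCh m ψ χ) (h1 : m' ≤ m)
    (h2 : ∀ a : Ideal (𝓞 K), IsCoprime a m ↔ IsCoprime a m') : HCh m' ψ χ := by
  exact ⟨fun a ha => h.zero a fun hc => ha ((h2 a).1 hc), fun a ha hc => h.norm a ha ((h2 a).2 hc),
    fun x hx hp => h.ray x (h1 hx) hp⟩

end CFTY
end

-- from Lib.SSG.V.V9
section

/-! # SSG, part V: functions of the coordinates modulo powers of a prime element π -/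

open NumberField

namespace SSG.V

open SSG

variable {F : Type} [Field F] [NumberField F] {C : Type} [NormedField C] [IsUltrametricDist C] {L : LTF F C} {N : ℕ}
  {ι : Type} [Fintype ι] {π : 𝓞 F}

/-- The coordinates are small and depend on the classes modulo π^N. -/
structure OkR {C : Type} [NormedField C] (π : 𝓞 F) (L : LTF F C) : Prop where
  ne : π ≠ 0
  small : ∀ N a, ‖L.X N a‖ < 1
  per : ∀ N a b, π ^ N ∣ a - b → L.X N a = L.X N b


theorem Fn_perR (hL : OkR π L) {H : (ι → 𝓞 F) → C} (h : L.Fn N ι H) (a b : ι → 𝓞 F)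
    (hab : ∀ k, π ^ N ∣ a k - b k) : H a = H b := by
  have h1 : ∀ ε > 0, ‖H a - H b‖ ≤ ε := by
    intro ε hε
    obtain ⟨Q, _, hQ⟩ := h (ε / 2) (by positivity)
    have h2 := hQ a
    have h3 := hQ b
    have h4 : (fun i => L.X N (b i)) = fun i => L.X N (a i) := by
      funext i
      exact (hL.per N (a i) (b i) (hab i)).symm
    rw [h4] at h3
    have h5 : H a - H b =
        (H a - MvPolynomial.eval (fun i => L.X N (a i)) Q) -
          (H b - MvPolynomial.eval (fun i => L.X N (a i)) Q) := by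
      ring
    rw [h5]
    refine (norm_sub_le _ _).trans ?_
    linarith
  have h2 : ‖H a - H b‖ ≤ 0 := le_of_forall_pos_le_add (by
    intro ε hε
    rw [zero_add]
    exact h1 ε hε)
  exact sub_eq_zero.1 (norm_le_zero_iff.1 h2)

theorem Fn_unifR (hL : OkR π L) {H : (ι → 𝓞 F) → C} (h : L.Fn N ι H) (u : C)
    (hu : ∀ a, ‖H a - u‖ < 1) : ∃ ρ : ℝ, 0 ≤ ρ ∧ ρ < 1 ∧ ∀ a, ‖H a - u‖ ≤ ρ := by
  have hne : Ideal.span {π ^ N} ≠ ⊥ := by
    rw [Ne, Ideal.span_singleton_eq_bot]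
    exact pow_ne_zero _ hL.ne
  haveI : Finite (𝓞 F ⧸ Ideal.span {π ^ N}) :=
    Ring.HasFiniteQuotients.finiteQuotient hne
  have hout : ∀ x : 𝓞 F ⧸ Ideal.span {π ^ N}, ∃ r : 𝓞 F, Ideal.Quotient.mk _ r = x :=
    Ideal.Quotient.mk_surjective
  choose r hr using hout
  obtain ⟨x₀, hx₀⟩ := Finite.exists_max
    (fun x : ι → 𝓞 F ⧸ Ideal.span {π ^ N} => ‖H (fun i => r (x i)) - u‖)
  refine ⟨‖H (fun i => r (x₀ i)) - u‖, norm_nonneg _, hu _, fun a => ?_⟩
  · have h1 : H a = H (fun i => r (Ideal.Quotient.mk _ (a i))) := by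
      refine Fn_perR hL h _ _ fun k => ?_
      rw [← Ideal.mem_span_singleton, ← Ideal.Quotient.eq]
      exact (hr _).symm
    rw [h1]
    exact hx₀ (fun i => Ideal.Quotient.mk _ (a i))




theorem Fn_invR (hL : OkR π L) {H : (ι → 𝓞 F) → C} (h : L.Fn N ι H) {u : C} (h1 : ‖u‖ = 1)
    (hu : ∀ a, ‖H a - u‖ < 1) : L.Fn N ι (fun a => (H a)⁻¹) := by
  obtain ⟨ρ, hρ0, hρ1, hρ⟩ := Fn_unifR hL h u hu
  have hs := hL.small
  have hu0 : u ≠ 0 := by
    intro h0
    rw [h0, norm_zero] at h1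
    exact zero_ne_one h1
  have hui : ‖u⁻¹‖ = 1 := by rw [norm_inv, h1, inv_one]
  have hHn : ∀ a, ‖H a‖ = 1 := by
    intro a
    have h2 : H a = u + (H a - u) := by ring
    have h3 : ‖u‖ ≠ ‖H a - u‖ := by
      rw [h1]
      exact (hu a).ne'
    rw [h2, IsUltrametricDist.norm_add_eq_max_of_norm_ne_norm h3, h1]
    exact max_eq_left (hu a).le
  have hH0 : ∀ a, H a ≠ 0 := by
    intro a h0
    have := hHn a
    rw [h0, norm_zero] at this
    exact zero_ne_one this
  set G : (ι → 𝓞 F) → C := fun a => 1 - u⁻¹ * H a with hG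
  have hGF : L.Fn N ι G := Fn_sub (Fn_const (by simp)) (Fn_scal hs hui.le h)
  have hGn : ∀ a, ‖G a‖ ≤ ρ := by
    intro a
    have h2 : G a = - (u⁻¹ * (H a - u)) := by
      simp only [hG]
      field_simp
      ring
    rw [h2, norm_neg, norm_mul, hui, one_mul]
    exact hρ a
  apply Fn_lim
  intro ε hε
  obtain ⟨n, hn⟩ := exists_pow_lt_of_lt_one hε hρ1
  refine ⟨fun a => u⁻¹ * ∑ k ∈ Finset.range n, G a ^ k, ?_, ?_⟩
  · exact Fn_scal hs hui.le (Fn_sum _ (fun k _ => Fn_pow hs hGF k))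
  · intro a
    have h2 : u⁻¹ * H a = 1 - G a := by
      simp only [hG]
      ring
    have h3 : H a * (u⁻¹ * ∑ k ∈ Finset.range n, G a ^ k) = 1 - G a ^ n := by
      calc H a * (u⁻¹ * ∑ k ∈ Finset.range n, G a ^ k)
          = (u⁻¹ * H a) * ∑ k ∈ Finset.range n, G a ^ k := by ring
        _ = (1 - G a) * ∑ k ∈ Finset.range n, G a ^ k := by rw [h2]
        _ = 1 - G a ^ n := mul_neg_geom_sum (G a) n
    have h4 : (H a)⁻¹ - u⁻¹ * ∑ k ∈ Finset.range n, G a ^ k = (H a)⁻¹ * G a ^ n := by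
      have h5 : u⁻¹ * ∑ k ∈ Finset.range n, G a ^ k = (H a)⁻¹ * (1 - G a ^ n) := by
        rw [← h3, ← mul_assoc, inv_mul_cancel₀ (hH0 a), one_mul]
      rw [h5]
      ring
    rw [h4, norm_mul, norm_inv, hHn a, inv_one, one_mul, norm_pow]
    exact (pow_le_pow_left₀ (norm_nonneg _) (hGn a) n).trans hn.le


theorem Fn_vR (hL : OkR π L) {A B : C} (hA : ‖A‖ ≤ 1) (hB : ‖B‖ ≤ 1) {t v : (ι → 𝓞 F) → C}
    (ht : L.Fn N ι t) (ht1 : ∀ a, ‖t a‖ < 1) (hv1 : ∀ a, ‖v a‖ ≤ 1)
    (hv : ∀ a, v a = 1 + A * t a ^ 4 * v a ^ 2 + B * t a ^ 6 * v a ^ 3) : L.Fn N ι v := by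
  have hs := hL.small
  obtain ⟨ρ, hρ0, hρ1, hρ⟩ := Fn_unifR hL ht 0 (fun a => by rw [sub_zero]; exact ht1 a)
  have hseq : ∀ n, L.Fn N ι (a4_seq A B t n) := by
    intro n
    induction n with
    | zero => exact Fn_const (c := (1 : C)) (le_of_eq norm_one)
    | succ n ih =>
      exact Fn_add (Fn_add (Fn_const (c := (1 : C)) (le_of_eq norm_one))
        (Fn_scal hs hA (Fn_mul hs (Fn_pow hs ht 4) (Fn_pow hs ih 2))))
        (Fn_scal hs hB (Fn_mul hs (Fn_pow hs ht 6) (Fn_pow hs ih 3)))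
  have hdist : ∀ n a, ‖v a - a4_seq A B t n a‖ ≤ ρ ^ n := by
    intro n a
    induction n with
    | zero =>
      rw [pow_zero]
      have h1 : a4_seq A B t 0 a = 1 := rfl
      rw [h1, sub_eq_add_neg]
      exact a4e_add (hv1 a) (by rw [norm_neg, norm_one])
    | succ n ih =>
      have hw := Fn_le hs (hseq n) a
      have ht0 : ‖t a‖ ≤ ρ := by
        have := hρ a
        rwa [sub_zero] at this
      have ht4 : ‖t a‖ ^ 4 ≤ ρ := by
        have h1 : ‖t a‖ ^ 4 ≤ ‖t a‖ := by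
          have := pow_le_pow_of_le_one (norm_nonneg (t a)) (ht1 a).le (show 1 ≤ 4 by norm_num)
          rwa [pow_one] at this
        exact h1.trans ht0
      have ht6 : ‖t a‖ ^ 6 ≤ ρ := by
        have h1 : ‖t a‖ ^ 6 ≤ ‖t a‖ := by
          have := pow_le_pow_of_le_one (norm_nonneg (t a)) (ht1 a).le (show 1 ≤ 6 by norm_num)
          rwa [pow_one] at this
        exact h1.trans ht0
      have h1 : v a - a4_seq A B t (n + 1) a =
          A * (t a ^ 4 * ((v a - a4_seq A B t n a) * (v a + a4_seq A B t n a))) +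
            B * (t a ^ 6 * ((v a - a4_seq A B t n a) *
              (v a ^ 2 + v a * a4_seq A B t n a + a4_seq A B t n a ^ 2))) := by
        have h2 : a4_seq A B t (n + 1) a = 1 + A * (t a ^ 4 * a4_seq A B t n a ^ 2) +
          B * (t a ^ 6 * a4_seq A B t n a ^ 3) := rfl
        rw [h2]
        nth_rewrite 1 [hv a]
        ring
      rw [h1, pow_succ ρ n]
      have hρn : 0 ≤ ρ ^ n := pow_nonneg hρ0 n
      have key : ∀ {c s x : C}, ‖c‖ ≤ 1 → ‖s‖ ≤ ρ → ‖x‖ ≤ 1 →
          ‖c * (s * ((v a - a4_seq A B t n a) * x))‖ ≤ ρ ^ n * ρ := by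
        intro c s x hc hs' hx
        rw [norm_mul, norm_mul, norm_mul]
        have e1 : ‖v a - a4_seq A B t n a‖ * ‖x‖ ≤ ρ ^ n * 1 :=
          mul_le_mul ih hx (norm_nonneg _) hρn
        rw [mul_one] at e1
        have e2 : ‖s‖ * (‖v a - a4_seq A B t n a‖ * ‖x‖) ≤ ρ * ρ ^ n :=
          mul_le_mul hs' e1 (mul_nonneg (norm_nonneg _) (norm_nonneg _)) hρ0
        have e3 : ‖c‖ * (‖s‖ * (‖v a - a4_seq A B t n a‖ * ‖x‖)) ≤ 1 * (ρ * ρ ^ n) :=
          mul_le_mul hc e2 (mul_nonneg (norm_nonneg _) (mul_nonneg (norm_nonneg _) (norm_nonneg _)))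
            zero_le_one
        rw [one_mul] at e3
        rw [mul_comm (ρ ^ n) ρ]
        exact e3
      have hvv : ‖v a ^ 2‖ ≤ 1 := by rw [norm_pow]; exact pow_le_one₀ (norm_nonneg _) (hv1 a)
      have hww : ‖a4_seq A B t n a ^ 2‖ ≤ 1 := by rw [norm_pow]; exact pow_le_one₀ (norm_nonneg _) hw
      have hvw : ‖v a * a4_seq A B t n a‖ ≤ 1 := by
        rw [norm_mul]; exact mul_le_one₀ (hv1 a) (norm_nonneg _) hw
      have ht4' : ‖t a ^ 4‖ ≤ ρ := by rw [norm_pow]; exact ht4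
      have ht6' : ‖t a ^ 6‖ ≤ ρ := by rw [norm_pow]; exact ht6
      exact a4e_add (key hA ht4' (a4e_add (hv1 a) hw)) (key hB ht6' (a4e_add (a4e_add hvv hvw) hww))
  refine Fn_lim fun ε hε => ?_
  obtain ⟨n, hn⟩ := exists_pow_lt_of_lt_one hε hρ1
  exact ⟨a4_seq A B t n, hseq n, fun a => (hdist n a).trans hn.le⟩


end SSG.V
end

-- from Lib.CFT.ZB
section

/-! # CFT, module Z, part B: completely split primes have density 1/[L:K] (port of Lib/H55R/D4, D5, Den without their other imports) -/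

open NumberField IsDedekindDomain

namespace CFTZ

open H55R

/-- Chunk RD4 (S/M), finiteness of the ramified primes. If e(v) <> 1 then a prime W of L above v is ramified, so W divides the different ideal
differentIdeal (𝓞 K) (𝓞 L), which is nonzero (differentIdeal_ne_bot; not_dvd_differentIdeal_iff, Ideal.ramificationIdx_eq_one_iff,
Ideal.ramificationIdxIn_eq_ramificationIdx; see Mathlib/NumberTheory/NumberField/ExistsRamified.lean lines 80-100 for the pattern). A nonzero ideal has only finitely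
many prime divisors (Ideal.finite_factors or UniqueFactorizationMonoid.normalizedFactors), and v is W.under. Alternative: for each sigma <> 1 in Gal(L/K) choose x with
sigma x <> x; the inertia group of W is nontrivial if e <> 1, so W contains the nonzero product of all sigma x - x. -/
theorem ram_finite (K L : Type) [Field K] [NumberField K] [Field L] [NumberField L]
    [Algebra K L] [IsGalois K L] : {v : Pl K | es K L v ≠ 1}.Finite := by
  have h1 : differentIdeal (𝓞 K) (𝓞 L) ≠ ⊥ := differentIdeal_ne_bot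
  have h2 : {W : Pl L | W.asIdeal ∣ differentIdeal (𝓞 K) (𝓞 L)}.Finite :=
    Ideal.finite_factors h1
  refine (h2.image fun W => W.under (𝓞 K)).subset ?_
  intro v hv
  obtain ⟨P, hP⟩ : ∃ P : Ideal (𝓞 L), P.IsPrime ∧ P.LiesOver v.asIdeal := by
    obtain ⟨⟨P, h3, h4⟩⟩ := v.asIdeal.nonempty_primesOver (S := 𝓞 L)
    exact ⟨P, h3, h4⟩
  obtain ⟨hP1, hP2⟩ := hP
  have hP0 : P ≠ ⊥ := Ideal.ne_bot_of_liesOver_of_ne_bot v.ne_bot P
  have h3 : es K L v = P.ramificationIdx (𝓞 K) :=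
    Ideal.ramificationIdxIn_eq_ramificationIdx v.asIdeal P Gal(L/K)
  refine ⟨⟨P, hP1, hP0⟩, ?_, ?_⟩
  · show P ∣ differentIdeal (𝓞 K) (𝓞 L)
    by_contra h4
    rw [not_dvd_differentIdeal_iff] at h4
    apply hv
    rw [h3]
    exact Ideal.ramificationIdx_eq_one P (𝓞 K)
  · apply HeightOneSpectrum.ext
    exact hP2.over.symm

section

variable {K L : Type} [Field K] [NumberField K] [Field L] [NumberField L] [Algebra K L]
  [IsGalois K L]

theorem D5_norm (v : Pl K) (W : Pl L) (h : W.under (𝓞 K) = v) :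
    Ideal.absNorm W.asIdeal = Ideal.absNorm v.asIdeal ^ fs K L v := by
  have hp := v.isPrime
  have hW := W.isPrime
  have hvm := v.isMaximal
  have hWm := W.isMaximal
  have hl : W.asIdeal.LiesOver v.asIdeal := (BF2_mem v W h).2
  have h1 := Ideal.absNorm_relNorm (𝓞 K) (𝓞 L) W.asIdeal
  rw [← h1, Ideal.relNorm_eq_pow_of_isMaximal W.asIdeal v.asIdeal, map_pow]
  congr 1
  exact (Ideal.inertiaDegIn_eq_inertiaDeg v.asIdeal W.asIdeal Gal(L/K)).symm

/-- The primes above v. -/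
noncomputable def D5_T (v : Pl K) : Finset (Pl L) := (above_finite (L := L) v).toFinset

omit [IsGalois K L] in
theorem D5_mem (v : Pl K) (W : Pl L) : W ∈ D5_T v ↔ W.under (𝓞 K) = v := by
  unfold D5_T
  rw [Set.Finite.mem_toFinset]
  exact Iff.rfl

theorem D5_card (v : Pl K) : (D5_T (L := L) v).card * (es K L v * fs K L v) = Module.finrank K L :=
  card_above v _ fun W => D5_mem v W

theorem D5_card_le (v : Pl K) : (D5_T (L := L) v).card ≤ Module.finrank K L := by
  rw [← D5_card (L := L) v]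
  exact Nat.le_mul_of_pos_right _ (Nat.mul_pos (es_pos v) (fs_pos v))

theorem D5_fibre (v : Pl K) (s : ℝ) :
    ∑ W ∈ D5_T (L := L) v, (Ideal.absNorm W.asIdeal : ℝ) ^ (-s) =
      (D5_T (L := L) v).card * (Ideal.absNorm v.asIdeal : ℝ) ^ (-(fs K L v * s)) := by
  rw [← nsmul_eq_mul, ← Finset.sum_const]
  refine Finset.sum_congr rfl fun W hW => ?_
  rw [D5_norm v W ((D5_mem v W).1 hW)]
  push_cast
  rw [← Real.rpow_natCast, ← Real.rpow_mul (Nat.cast_nonneg _)]
  congr 1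
  ring

end

/-- Chunk RD5 (M/L), primes of L and completely split primes of K. n = [L : K]. Sum over the primes W of L = sum over the v of the finite sums over the fibre {W : W.under = v}
(Equiv.sigmaFiberEquiv for W -> W.under (𝓞 K), Summable.tsum_sigma'; dd_summable for L). The fibre over v is in bijection with v.asIdeal.primesOver (𝓞 L), has
n / (e f) elements (Ideal.ncard_primesOver_mul_ramificationIdxIn_mul_inertiaDegIn), at most n, and absNorm W = (absNorm v)^f (Ideal.absNorm_eq_pow_inertiaDeg or the cardinality of the residue field: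
Ideal.absNorm_relNorm and Ideal.relNorm_eq_pow_of_isMaximal). If v splits (Spl: e = f = 1) the fibre sum is n * Nv^(-s). If f >= 2 it is between 0 and n * Nv^(-2s) <= n * Nv^(-2). If
f = 1 and e <> 1 it is between 0 and n, and these v form a finite set (ram_finite). So |sum over W - n * PS (Spl) s| <= n * (sum of Nv^(-2)) + n * #(ramified). -/
theorem split_cmp (K L : Type) [Field K] [NumberField K] [Field L] [NumberField L]
    [Algebra K L] [IsGalois K L] : ∃ C : ℝ, ∀ s ∈ Set.Ioc (1 : ℝ) 2,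
      |∑' W : Pl L, (Ideal.absNorm W.asIdeal : ℝ) ^ (-s) -
        Module.finrank K L * PS {v : Pl K | Spl K L v} s| ≤ C := by
  classical
  have hB1 : Summable fun v : Pl K => (Module.finrank K L : ℝ) * (Ideal.absNorm v.asIdeal : ℝ) ^ (-2 : ℝ) :=
    (dd_summable 2 (by norm_num)).mul_left _
  have hB2 : Summable fun v : Pl K => if es K L v ≠ 1 then (Module.finrank K L : ℝ) else 0 := by
    refine summable_of_finite_support ((ram_finite K L).subset ?_)
    intro v hv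
    rw [Function.mem_support] at hv
    by_contra hne
    exact hv (if_neg hne)
  have hB := hB1.add hB2
  refine ⟨∑' v : Pl K, ((Module.finrank K L : ℝ) * (Ideal.absNorm v.asIdeal : ℝ) ^ (-2 : ℝ) +
      if es K L v ≠ 1 then (Module.finrank K L : ℝ) else 0), fun s hs => ?_⟩
  obtain ⟨hs1, hs2⟩ := hs
  have hg : Summable fun W : Pl L => (Ideal.absNorm W.asIdeal : ℝ) ^ (-s) := dd_summable s hs1
  let E : (Σ v : Pl K, {W : Pl L // W.under (𝓞 K) = v}) ≃ Pl L :=
    Equiv.sigmaFiberEquiv fun W : Pl L => W.under (𝓞 K)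
  have hgE : Summable fun p : (Σ v : Pl K, {W : Pl L // W.under (𝓞 K) = v}) =>
      (Ideal.absNorm (E p).asIdeal : ℝ) ^ (-s) := (Equiv.summable_iff E).2 hg
  have hin : ∀ v : Pl K, ∑' W : {W : Pl L // W.under (𝓞 K) = v},
      (Ideal.absNorm (E ⟨v, W⟩).asIdeal : ℝ) ^ (-s) =
        ∑ W ∈ D5_T (L := L) v, (Ideal.absNorm W.asIdeal : ℝ) ^ (-s) := by
    intro v
    rw [← Finset.tsum_subtype (D5_T (L := L) v) fun W : Pl L => (Ideal.absNorm W.asIdeal : ℝ) ^ (-s)]
    let e : {W : Pl L // W.under (𝓞 K) = v} ≃ {W : Pl L // W ∈ D5_T (L := L) v} :=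
      Equiv.subtypeEquivRight fun W => (D5_mem v W).symm
    rw [← Equiv.tsum_eq e]
    rfl
  have hsum : ∑' W : Pl L, (Ideal.absNorm W.asIdeal : ℝ) ^ (-s) =
      ∑' v : Pl K, ∑ W ∈ D5_T (L := L) v, (Ideal.absNorm W.asIdeal : ℝ) ^ (-s) := by
    rw [← Equiv.tsum_eq E, hgE.tsum_sigma]
    exact tsum_congr hin
  have hF : Summable fun v : Pl K => ∑ W ∈ D5_T (L := L) v, (Ideal.absNorm W.asIdeal : ℝ) ^ (-s) :=
    hgE.sigma.congr hin
  have hP : Summable fun v : Pl K => (Module.finrank K L : ℝ) *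
      {v : Pl K | Spl K L v}.indicator (fun v => (Ideal.absNorm v.asIdeal : ℝ) ^ (-s)) v :=
    ((dd_summable s hs1).indicator _).mul_left _
  unfold PS
  rw [hsum, ← tsum_mul_left, ← hF.tsum_sub hP, ← Real.norm_eq_abs]
  refine tsum_of_norm_bounded hB.hasSum fun v => ?_
  rw [Real.norm_eq_abs, D5_fibre]
  have hN1 : (1 : ℝ) ≤ Ideal.absNorm v.asIdeal := by
    have := dd_two_le v
    exact_mod_cast (by omega : 1 ≤ Ideal.absNorm v.asIdeal)
  have hc : ((D5_T (L := L) v).card : ℝ) ≤ Module.finrank K L := by exact_mod_cast D5_card_le v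
  have hn0 : (0 : ℝ) ≤ Module.finrank K L := Nat.cast_nonneg _
  have hf1 := fs_pos (K := K) (L := L) v
  have h20 : 0 ≤ (Ideal.absNorm v.asIdeal : ℝ) ^ (-2 : ℝ) := by positivity
  have hite : (0 : ℝ) ≤ if es K L v ≠ 1 then (Module.finrank K L : ℝ) else 0 := by
    split_ifs
    · exact hn0
    · exact le_rfl
  by_cases hv : Spl K L v
  · have h1 : v ∈ {v : Pl K | Spl K L v} := hv
    rw [Set.indicator_of_mem h1]
    obtain ⟨h2, h3⟩ := hv
    have h4 := D5_card (L := L) v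
    rw [h2, h3, mul_one, mul_one] at h4
    rw [h4, h3, Nat.cast_one, one_mul, sub_self, abs_zero]
    positivity
  · have h1 : v ∉ {v : Pl K | Spl K L v} := hv
    rw [Set.indicator_of_notMem h1, mul_zero, sub_zero]
    have h5 : 0 ≤ (Ideal.absNorm v.asIdeal : ℝ) ^ (-(fs K L v * s)) := by positivity
    rw [abs_of_nonneg (mul_nonneg (Nat.cast_nonneg _) h5)]
    have hfs : (1 : ℝ) ≤ fs K L v := by exact_mod_cast hf1
    by_cases he : es K L v = 1
    · have hf2 : fs K L v ≠ 1 := fun h => hv ⟨he, h⟩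
      have hf3 : (2 : ℝ) ≤ fs K L v := by exact_mod_cast (by omega : 2 ≤ fs K L v)
      have h6 : (Ideal.absNorm v.asIdeal : ℝ) ^ (-(fs K L v * s)) ≤
          (Ideal.absNorm v.asIdeal : ℝ) ^ (-2 : ℝ) := by
        refine Real.rpow_le_rpow_of_exponent_le hN1 ?_
        nlinarith
      exact (mul_le_mul hc h6 h5 hn0).trans (le_add_of_nonneg_right hite)
    · rw [if_pos he]
      have h6 : (Ideal.absNorm v.asIdeal : ℝ) ^ (-(fs K L v * s)) ≤ 1 := by
        refine Real.rpow_le_one_of_one_le_of_nonpos hN1 ?_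
        have : 0 ≤ (fs K L v : ℝ) * s := by positivity
        linarith
      have h7 := mul_le_mul hc h6 h5 hn0
      rw [mul_one] at h7
      exact h7.trans (le_add_of_nonneg_left (by positivity))

theorem den_trivial {K : Type} [Field K] [NumberField K] (f : Ideal (𝓞 K)) (s : ℝ) (hs : 1 < s) :
    ‖Ls (tI f (1 : Pl K → ℂˣ)) s‖ ≤ ∑' a : Ideal (𝓞 K), (Ideal.absNorm a : ℝ) ^ (-s) := by
  have h1 : ∀ a, ‖tI f (1 : Pl K → ℂˣ) a‖ ≤ 1 :=
    dd_norm_tI f 1 fun v => by rw [Pi.one_apply, Units.val_one, norm_one]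
  have h2 := dd_tm_summable (tI f (1 : Pl K → ℂˣ)) h1 s hs
  refine (norm_tsum_le_tsum_norm h2).trans ?_
  refine h2.tsum_le_tsum (fun a => ?_) (ideal_summable (K := K) s hs)
  rw [dd_norm_tm _ s (by linarith) a]
  exact mul_le_of_le_one_left (by positivity) (h1 a)

/-- Completely split primes. -/
theorem density_split (K L : Type) [Field K] [NumberField K] [Field L] [NumberField L]
    [Algebra K L] [IsGalois K L] :
    ∃ C : ℝ, ∀ s ∈ Set.Ioc (1 : ℝ) 2,
      |PS {v : Pl K | Spl K L v} s - (1 / Module.finrank K L : ℝ) * Real.log (1 / (s - 1))| ≤ C := by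
  obtain ⟨C₁, hC₁⟩ := split_cmp K L
  obtain ⟨C₂, hC₂⟩ := log_cmp L
  obtain ⟨C₃, hC₃⟩ := zeta_log L
  have hfr : (0 : ℝ) < Module.finrank K L := by exact_mod_cast Module.finrank_pos
  refine ⟨(1 / Module.finrank K L : ℝ) * (C₁ + C₂ + C₃), fun s hs => ?_⟩
  -- the trivial character of L
  have hn : ∀ v : Pl L, ‖((1 : Pl L → ℂˣ) v : ℂ)‖ = 1 := fun v => by
    rw [Pi.one_apply, Units.val_one, norm_one]
  have hh := dd_norm_tI ⊤ (1 : Pl L → ℂˣ) hn
  have hval : ∀ a : Ideal (𝓞 L), a ≠ ⊥ → tI ⊤ (1 : Pl L → ℂˣ) a = 1 := by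
    intro a ha
    rw [tI_apply ⊤ 1 ha (by rw [← Ideal.one_eq_top]; exact isCoprime_one_right), pv_one_fun,
      Units.val_one]
  have e1 := hC₂ (tI ⊤ (1 : Pl L → ℂˣ)) hh s hs
  have e2 : ∑' v : Pl L, (tI ⊤ (1 : Pl L → ℂˣ) v.asIdeal).re *
      (Ideal.absNorm v.asIdeal : ℝ) ^ (-s) =
      ∑' W : Pl L, (Ideal.absNorm W.asIdeal : ℝ) ^ (-s) := by
    refine tsum_congr fun W => ?_
    rw [hval _ W.ne_bot, Complex.one_re, one_mul]
  have e3 : Ls (tI ⊤ (1 : Pl L → ℂˣ)) s =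
      ((∑' a : Ideal (𝓞 L), (Ideal.absNorm a : ℝ) ^ (-s) : ℝ) : ℂ) := by
    unfold Ls
    rw [Complex.ofReal_tsum]
    refine tsum_congr fun a => ?_
    unfold tm
    rw [Complex.ofReal_cpow (Nat.cast_nonneg _)]
    by_cases ha : a = ⊥
    · subst ha
      have : tI ⊤ (1 : Pl L → ℂˣ) ⊥ = 0 := map_zero _
      rw [this, zero_mul, Ideal.absNorm_bot]
      have hs0 : (-(s : ℂ)) ≠ 0 := by
        rw [neg_ne_zero, Complex.ofReal_ne_zero]
        linarith [hs.1]
      simp [Complex.zero_cpow hs0]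
    · rw [hval a ha, one_mul]
      push_cast
      rfl
  obtain ⟨e4, e5⟩ := hC₃ s hs
  rw [e2, e3, Complex.norm_real, Real.norm_of_nonneg e4.le] at e1
  have e6 := hC₁ s hs
  rw [abs_le] at *
  obtain ⟨a1, a2⟩ := e1
  obtain ⟨b1, b2⟩ := e5
  obtain ⟨c1, c2⟩ := e6
  have key : PS {v : Pl K | Spl K L v} s - (1 / Module.finrank K L : ℝ) * Real.log (1 / (s - 1)) =
      (1 / Module.finrank K L : ℝ) * (Module.finrank K L * PS {v : Pl K | Spl K L v} s -
        Real.log (1 / (s - 1))) := by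
    field_simp
  rw [key, ← mul_neg]
  have hp : (0 : ℝ) ≤ 1 / Module.finrank K L := by positivity
  constructor
  · exact mul_le_mul_of_nonneg_left (by linarith) hp
  · exact mul_le_mul_of_nonneg_left (by linarith) hp

end CFTZ
end

-- from Lib.CFT.ZC
section

/-! # CFT, module Z, part C: the second inequality

Z0S K: the statement Z0 (the L-series of the nontrivial ray class characters are bounded near 1). second_ineq_of: for every Galois extension L/K, the
divisors in Pray S N + norms have index at most [L : K] (from Z0S K and the finiteness of the ray class group). -/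

open NumberField IsDedekindDomain

namespace CFTZ

open H55R CFT

/-- The statement Z0. -/
def Z0S (K : Type) [Field K] [NumberField K] : Prop :=
  ∀ (S : Finset (Pr K)) (N : ℕ) (χ : Dv K →+ Additive ℂˣ), (∀ D ∈ Pray S N, χ D = 0) →
    (∀ v, ‖(cphi χ v : ℂ)‖ = 1) → χ ≠ 0 → ∃ C : ℝ, ∀ s ∈ Set.Ioc (1 : ℝ) 2, ‖Ls (chI S χ) s‖ ≤ C

section one

variable {K : Type} [Field K] [NumberField K]

/-- The character of Dv K belonging to a character of a quotient. -/
noncomputable def chq (H : AddSubgroup (Dv K)) (ψ : AddChar (Dv K ⧸ H) ℂ) : Dv K →+ Additive ℂˣ where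
  toFun D := Additive.ofMul (ψ.toMonoidHom.toHomUnits (Multiplicative.ofAdd (QuotientAddGroup.mk D)))
  map_zero' := by
    rw [QuotientAddGroup.mk_zero, ofAdd_zero, map_one, ofMul_one]
  map_add' a b := by
    rw [QuotientAddGroup.mk_add, ofAdd_add, map_mul, ofMul_mul]

theorem chq_apply (H : AddSubgroup (Dv K)) (ψ : AddChar (Dv K ⧸ H) ℂ) (D : Dv K) :
    (((chq H ψ D).toMul : ℂˣ) : ℂ) = ψ (QuotientAddGroup.mk D) := rfl

theorem chq_cphi (H : AddSubgroup (Dv K)) (ψ : AddChar (Dv K ⧸ H) ℂ) (v : Pr K) :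
    (cphi (chq H ψ) v : ℂ) = ψ (QuotientAddGroup.mk (Finsupp.single v 1)) := rfl

theorem chq_ker (H : AddSubgroup (Dv K)) (ψ : AddChar (Dv K ⧸ H) ℂ) {D : Dv K} (hD : D ∈ H) : chq H ψ D = 0 := by
  apply Additive.toMul.injective
  apply Units.ext
  rw [chq_apply, (QuotientAddGroup.eq_zero_iff D).2 hD, AddChar.map_zero_eq_one, toMul_zero, Units.val_one]

theorem chq_ne (H : AddSubgroup (Dv K)) {ψ : AddChar (Dv K ⧸ H) ℂ} (h : ψ ≠ 0) : chq H ψ ≠ 0 := by
  intro h0
  apply h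
  ext x
  obtain ⟨D, rfl⟩ := QuotientAddGroup.mk_surjective x
  rw [← chq_apply, h0, AddMonoidHom.zero_apply, toMul_zero, Units.val_one, AddChar.zero_apply]

theorem chq_norm (H : AddSubgroup (Dv K)) [Finite (Dv K ⧸ H)] (ψ : AddChar (Dv K ⧸ H) ℂ) (v : Pr K) :
    ‖(cphi (chq H ψ) v : ℂ)‖ = 1 := by
  rw [chq_cphi]
  exact ψ.norm_apply _

/-- The sum over the primes is bounded below by the sum over a smaller set, up to finitely many primes. -/
theorem PS_le {A B : Set (Pl K)} (F : Finset (Pl K)) (h : ∀ v ∈ A, v ∉ F → v ∈ B) {s : ℝ} (hs : 1 < s) :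
    PS A s ≤ PS B s + F.card := by
  classical
  have hA : Summable fun v : Pl K => A.indicator (fun v => (Ideal.absNorm v.asIdeal : ℝ) ^ (-s)) v :=
    (dd_summable s hs).indicator _
  have hB : Summable fun v : Pl K => B.indicator (fun v => (Ideal.absNorm v.asIdeal : ℝ) ^ (-s)) v :=
    (dd_summable s hs).indicator _
  have hF : HasSum (fun v : Pl K => if v ∈ F then (1 : ℝ) else 0) F.card := by
    have h1 : HasSum (fun v : Pl K => if v ∈ F then (1 : ℝ) else 0) (∑ v ∈ F, if v ∈ F then (1 : ℝ) else 0) :=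
      hasSum_sum_of_ne_finset_zero fun v hv => if_neg hv
    rw [Finset.sum_congr rfl (g := fun _ => (1 : ℝ)) (fun v hv => if_pos hv), Finset.sum_const, nsmul_eq_mul,
      mul_one] at h1
    exact h1
  unfold PS
  rw [← hF.tsum_eq, ← hB.tsum_add hF.summable]
  refine hA.tsum_le_tsum (fun v => ?_) (hB.add hF.summable)
  have h0 : ∀ v : Pl K, 0 ≤ (Ideal.absNorm v.asIdeal : ℝ) ^ (-s) := fun v => by positivity
  have hB0 : 0 ≤ B.indicator (fun v : Pl K => (Ideal.absNorm v.asIdeal : ℝ) ^ (-s)) v :=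
    Set.indicator_nonneg (fun v _ => h0 v) v
  by_cases hv : v ∈ A
  · rw [Set.indicator_of_mem hv]
    by_cases hF' : v ∈ F
    · rw [if_pos hF']
      have h2 := dd_half v s hs.le
      linarith
    · rw [if_neg hF', Set.indicator_of_mem (h v hv hF'), add_zero]
  · rw [Set.indicator_of_notMem hv]
    split_ifs
    · linarith
    · linarith

open Classical in
theorem orth_point (S : Finset (Pr K)) (H : AddSubgroup (Dv K)) [Fintype (Dv K ⧸ H)] (v : Pl K) :
    ∑ ψ : AddChar (Dv K ⧸ H) ℂ, (chI S (chq H ψ) v.asIdeal).re =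
      if v ∉ S ∧ (Finsupp.single v 1 : Dv K) ∈ H then (Nat.card (Dv K ⧸ H) : ℝ) else 0 := by
  by_cases hS : v ∈ S
  · rw [if_neg fun h => h.1 hS]
    refine Finset.sum_eq_zero fun ψ _ => ?_
    rw [chI_prime_mem S _ hS, Complex.zero_re]
  · have h1 : ∀ ψ : AddChar (Dv K ⧸ H) ℂ, chI S (chq H ψ) v.asIdeal = ψ (QuotientAddGroup.mk (Finsupp.single v 1)) := by
      intro ψ
      rw [chI_prime S _ hS, chq_cphi]
    rw [← Complex.re_sum, Finset.sum_congr rfl fun ψ _ => h1 ψ, AddChar.sum_apply_eq_ite]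
    by_cases h : (Finsupp.single v 1 : Dv K) ∈ H
    · rw [if_pos ((QuotientAddGroup.eq_zero_iff _).2 h), if_pos ⟨hS, h⟩, Nat.card_eq_fintype_card, Complex.natCast_re]
    · rw [if_neg fun h' => h ((QuotientAddGroup.eq_zero_iff _).1 h'), if_neg fun h' => h h'.2, Complex.zero_re]

/-- Orthogonality. -/
theorem orth (S : Finset (Pr K)) (H : AddSubgroup (Dv K)) [Fintype (Dv K ⧸ H)] (s : ℝ) (hs : 1 < s) :
    (Nat.card (Dv K ⧸ H) : ℝ) * PS {v : Pl K | v ∉ S ∧ (Finsupp.single v 1 : Dv K) ∈ H} s =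
      ∑ ψ : AddChar (Dv K ⧸ H) ℂ, ∑' v : Pl K, (chI S (chq H ψ) v.asIdeal).re *
        (Ideal.absNorm v.asIdeal : ℝ) ^ (-s) := by
  classical
  have hsum : ∀ ψ : AddChar (Dv K ⧸ H) ℂ, Summable fun v : Pl K => (chI S (chq H ψ) v.asIdeal).re *
      (Ideal.absNorm v.asIdeal : ℝ) ^ (-s) := by
    intro ψ
    refine Summable.of_norm_bounded (dd_summable (K := K) s hs) fun v => ?_
    rw [norm_mul, Real.norm_eq_abs, Real.norm_eq_abs]
    have h1 : |(chI S (chq H ψ) v.asIdeal).re| ≤ 1 :=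
      (Complex.abs_re_le_norm _).trans (dd_norm_tI _ _ (chq_norm H ψ) _)
    have h2 : |(Ideal.absNorm v.asIdeal : ℝ) ^ (-s)| = (Ideal.absNorm v.asIdeal : ℝ) ^ (-s) :=
      abs_of_nonneg (by positivity)
    rw [h2]
    exact mul_le_of_le_one_left (by positivity) h1
  rw [← Summable.tsum_finsetSum fun ψ _ => hsum ψ]
  unfold PS
  rw [← tsum_mul_left]
  refine tsum_congr fun v => ?_
  rw [← Finset.sum_mul, orth_point S H v]
  by_cases h : v ∉ S ∧ (Finsupp.single v 1 : Dv K) ∈ H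
  · rw [if_pos h, Set.indicator_of_mem (by exact h)]
  · rw [if_neg h, Set.indicator_of_notMem (by exact h), mul_zero, zero_mul]

/-- The primes in a subgroup of finite index containing a ray: upper bound. -/
theorem density_sub (hz : Z0S K) (S : Finset (Pr K)) (N : ℕ) (H : AddSubgroup (Dv K)) (hH : Pray S N ≤ H)
    [H.FiniteIndex] : ∃ C : ℝ, ∀ s ∈ Set.Ioc (1 : ℝ) 2, PS {v : Pl K | v ∉ S ∧ (Finsupp.single v 1 : Dv K) ∈ H} s ≤
      (1 / H.index : ℝ) * Real.log (1 / (s - 1)) + C := by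
  classical
  have := AddSubgroup.finite_quotient_of_finiteIndex (H := H)
  have := Fintype.ofFinite (Dv K ⧸ H)
  obtain ⟨C₂, hC₂⟩ := log_cmp K
  obtain ⟨C₃, hC₃⟩ := zeta_log K
  have hb : ∀ ψ : AddChar (Dv K ⧸ H) ℂ, ∃ B : ℝ, ∀ s ∈ Set.Ioc (1 : ℝ) 2,
      ∑' v : Pl K, (chI S (chq H ψ) v.asIdeal).re * (Ideal.absNorm v.asIdeal : ℝ) ^ (-s) ≤
        (if ψ = 0 then Real.log (1 / (s - 1)) else 0) + B := by
    intro ψ
    have hn := chq_norm H ψ
    have hh : ∀ a, ‖chI S (chq H ψ) a‖ ≤ 1 := dd_norm_tI _ _ hn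
    by_cases h1 : ψ = 0
    · subst h1
      refine ⟨C₂ + C₃, fun s hs => ?_⟩
      have e1 := (abs_le.1 (hC₂ (chI S (chq H 0)) hh s hs)).2
      obtain ⟨e2, e3⟩ := hC₃ s hs
      have e4 := (abs_le.1 e3).2
      have e5 := (euler (chI S (chq H 0)) hh s hs.1).1
      have e7 : chI S (chq H 0) = tI (SI S) (1 : Pl K → ℂˣ) := by
        unfold chI
        congr 1
      have e8 : ‖Ls (chI S (chq H 0)) s‖ ≤ ∑' a : Ideal (𝓞 K), (Ideal.absNorm a : ℝ) ^ (-s) := by
        rw [e7]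
        exact den_trivial (SI S) s hs.1
      have e6 := Real.log_le_log (norm_pos_iff.2 e5) e8
      rw [if_pos rfl]
      linarith
    · obtain ⟨B, hB⟩ := hz S N (chq H ψ) (fun D hD => chq_ker H ψ (hH hD)) hn (chq_ne H h1)
      refine ⟨C₂ + Real.log B, fun s hs => ?_⟩
      have e1 := (abs_le.1 (hC₂ (chI S (chq H ψ)) hh s hs)).2
      have e5 := (euler (chI S (chq H ψ)) hh s hs.1).1
      have e6 := Real.log_le_log (norm_pos_iff.2 e5) (hB s hs)
      rw [if_neg h1]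
      linarith
  choose B hB using hb
  refine ⟨(1 / Nat.card (Dv K ⧸ H) : ℝ) * ∑ ψ, B ψ, fun s hs => ?_⟩
  have hc : (0 : ℝ) < Nat.card (Dv K ⧸ H) := by exact_mod_cast Nat.card_pos
  have h1 := orth S H s hs.1
  have h2 : (Nat.card (Dv K ⧸ H) : ℝ) * PS {v : Pl K | v ∉ S ∧ (Finsupp.single v 1 : Dv K) ∈ H} s ≤
      Real.log (1 / (s - 1)) + ∑ ψ, B ψ := by
    rw [h1]
    refine (Finset.sum_le_sum fun ψ _ => hB ψ s hs).trans (le_of_eq ?_)
    rw [Finset.sum_add_distrib, Finset.sum_ite_eq' Finset.univ (0 : AddChar (Dv K ⧸ H) ℂ)]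
    simp
  have h3 : PS {v : Pl K | v ∉ S ∧ (Finsupp.single v 1 : Dv K) ∈ H} s =
      (1 / Nat.card (Dv K ⧸ H) : ℝ) *
        ((Nat.card (Dv K ⧸ H) : ℝ) * PS {v : Pl K | v ∉ S ∧ (Finsupp.single v 1 : Dv K) ∈ H} s) := by
    field_simp
  have h4 : H.index = Nat.card (Dv K ⧸ H) := rfl
  rw [h4, h3, ← mul_add]
  exact mul_le_mul_of_nonneg_left h2 (by positivity)

end one

/-- Comparison of leading terms. -/
theorem lead_le {a b C : ℝ} (h : ∀ s ∈ Set.Ioc (1 : ℝ) 2, a * Real.log (1 / (s - 1)) ≤ b * Real.log (1 / (s - 1)) + C) :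
    a ≤ b := by
  by_contra hab
  push Not at hab
  have hd : 0 < a - b := by linarith
  set M : ℝ := |C| / (a - b) + 1 with hM
  have hM0 : 0 < M := by positivity
  have h1 : Real.exp (-M) ≤ 1 := Real.exp_le_one_iff.2 (by linarith)
  have h2 := h (1 + Real.exp (-M)) ⟨by linarith [Real.exp_pos (-M)], by linarith⟩
  have h3 : Real.log (1 / (1 + Real.exp (-M) - 1)) = M := by
    rw [add_sub_cancel_left, one_div, Real.log_inv, Real.log_exp, neg_neg]
  rw [h3] at h2
  have h4 : (a - b) * M = |C| + (a - b) := by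
    rw [hM]
    field_simp
  have h5 : (a - b) * M ≤ C := by linarith
  rw [h4] at h5
  linarith [le_abs_self C]

section two

variable {K L : Type} [Field K] [NumberField K] [Field L] [NumberField L] [Algebra K L]

theorem Nd_single (w : Pr L) (n : ℤ) :
    Nd K L (Finsupp.single w n) = Finsupp.single (below K w) ((w.asIdeal.inertiaDeg (𝓞 K) : ℤ) * n) := by
  unfold Nd
  rw [Finsupp.liftAddHom_apply_single]
  rfl

/-- Completely split primes are norms. -/
theorem split_norm [IsGalois K L] {v : Pl K} (h : Spl K L v) : (Finsupp.single v 1 : Dv K) ∈ (Nd K L).range := by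
  obtain ⟨w, hw⟩ := under_exists (L := L) v
  refine ⟨Finsupp.single w 1, ?_⟩
  have hp := v.isPrime
  have hwp := w.isPrime
  have hl : w.asIdeal.LiesOver v.asIdeal := (BF2_mem v w hw).2
  have h1 : w.asIdeal.inertiaDeg (𝓞 K) = 1 := by
    rw [← Ideal.inertiaDegIn_eq_inertiaDeg v.asIdeal w.asIdeal Gal(L/K)]
    exact h.2
  have h2 : below K w = v := HeightOneSpectrum.ext (congrArg HeightOneSpectrum.asIdeal hw)
  rw [Nd_single, h1, h2]
  simp

/-- The second inequality, for every Galois extension. -/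
theorem second_ineq_of (hz : Z0S K) [IsGalois K L] (S : Finset (Pr K)) (N : ℕ) (hp : (Pray S N).FiniteIndex) :
    (Pray S N ⊔ (Nd K L).range).index ≤ Module.finrank K L := by
  have hle : Pray S N ≤ Pray S N ⊔ (Nd K L).range := le_sup_left
  have hfi : (Pray S N ⊔ (Nd K L).range).FiniteIndex := AddSubgroup.finiteIndex_of_le hle
  obtain ⟨C₁, hC₁⟩ := density_sub hz S N _ hle
  obtain ⟨C₂, hC₂⟩ := density_split K L
  have hfr : (0 : ℝ) < Module.finrank K L := by exact_mod_cast Module.finrank_pos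
  have hidx : (0 : ℝ) < (Pray S N ⊔ (Nd K L).range).index := by
    exact_mod_cast Nat.pos_of_ne_zero AddSubgroup.FiniteIndex.index_ne_zero
  have h1 : (1 / Module.finrank K L : ℝ) ≤ 1 / (Pray S N ⊔ (Nd K L).range).index := by
    refine lead_le (C := C₁ + C₂ + S.card) fun s hs => ?_
    have e1 := hC₁ s hs
    have e2 := (abs_le.1 (hC₂ s hs)).1
    have e3 : PS {v : Pl K | Spl K L v} s ≤
        PS {v : Pl K | v ∉ S ∧ (Finsupp.single v 1 : Dv K) ∈ Pray S N ⊔ (Nd K L).range} s + S.card := by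
      refine PS_le S (fun v hv hvS => ?_) hs.1
      refine ⟨hvS, ?_⟩
      exact (le_sup_right : (Nd K L).range ≤ Pray S N ⊔ (Nd K L).range) (split_norm hv)
    linarith
  have h2 := (one_div_le_one_div hfr hidx).1 h1
  exact_mod_cast h2

end two

end CFTZ
end

-- from Lib.CFT.ZE
section

/-! # CFT, module Z, part E: the prime zeta function (Z4) and the generation of the Galois group by Frobenius elements (Z3)

prime_zeta: the sum of Nv^(-s) over all primes is log (1/(s-1)) + O(1). frob_gen: for L/K abelian the Frobenius elements at the unramified primes outside a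
finite set generate the Galois group. -/

open NumberField IsDedekindDomain

namespace CFTZ

open H55R CFT

/-- Z4. The sum over all primes. -/
theorem prime_zeta (L : Type) [Field L] [NumberField L] : ∃ C : ℝ, ∀ s ∈ Set.Ioc (1 : ℝ) 2,
    |∑' W : Pl L, (Ideal.absNorm W.asIdeal : ℝ) ^ (-s) - Real.log (1 / (s - 1))| ≤ C := by
  obtain ⟨C₂, hC₂⟩ := log_cmp L
  obtain ⟨C₃, hC₃⟩ := zeta_log L
  refine ⟨C₂ + C₃, fun s hs => ?_⟩
  have hn : ∀ v : Pl L, ‖((1 : Pl L → ℂˣ) v : ℂ)‖ = 1 := fun v => by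
    rw [Pi.one_apply, Units.val_one, norm_one]
  have hh := dd_norm_tI ⊤ (1 : Pl L → ℂˣ) hn
  have hval : ∀ a : Ideal (𝓞 L), a ≠ ⊥ → tI ⊤ (1 : Pl L → ℂˣ) a = 1 := by
    intro a ha
    rw [tI_apply ⊤ 1 ha (by rw [← Ideal.one_eq_top]; exact isCoprime_one_right), pv_one_fun,
      Units.val_one]
  have e1 := hC₂ (tI ⊤ (1 : Pl L → ℂˣ)) hh s hs
  have e2 : ∑' v : Pl L, (tI ⊤ (1 : Pl L → ℂˣ) v.asIdeal).re *
      (Ideal.absNorm v.asIdeal : ℝ) ^ (-s) =
      ∑' W : Pl L, (Ideal.absNorm W.asIdeal : ℝ) ^ (-s) := by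
    refine tsum_congr fun W => ?_
    rw [hval _ W.ne_bot, Complex.one_re, one_mul]
  have e3 : Ls (tI ⊤ (1 : Pl L → ℂˣ)) s =
      ((∑' a : Ideal (𝓞 L), (Ideal.absNorm a : ℝ) ^ (-s) : ℝ) : ℂ) := by
    unfold Ls
    rw [Complex.ofReal_tsum]
    refine tsum_congr fun a => ?_
    unfold tm
    rw [Complex.ofReal_cpow (Nat.cast_nonneg _)]
    by_cases ha : a = ⊥
    · subst ha
      have : tI ⊤ (1 : Pl L → ℂˣ) ⊥ = 0 := map_zero _
      rw [this, zero_mul, Ideal.absNorm_bot]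
      have hs0 : (-(s : ℂ)) ≠ 0 := by
        rw [neg_ne_zero, Complex.ofReal_ne_zero]
        linarith [hs.1]
      simp [Complex.zero_cpow hs0]
    · rw [hval a ha, one_mul]
      push_cast
      rfl
  obtain ⟨e4, e5⟩ := hC₃ s hs
  rw [e2, e3, Complex.norm_real, Real.norm_of_nonneg e4.le] at e1
  rw [abs_le] at *
  obtain ⟨a1, a2⟩ := e1
  obtain ⟨b1, b2⟩ := e5
  constructor
  · linarith
  · linarith

theorem PS_univ (K : Type) [Field K] [NumberField K] (s : ℝ) :
    PS (Set.univ : Set (Pl K)) s = ∑' W : Pl K, (Ideal.absNorm W.asIdeal : ℝ) ^ (-s) := by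
  unfold PS
  refine tsum_congr fun v => ?_
  rw [Set.indicator_of_mem (Set.mem_univ v)]

/-- A finite field in which x^q = x for all x has at most q elements. -/
theorem card_le_of_pow (k : Type) [Field k] [Fintype k] {q : ℕ} (hq : 2 ≤ q) (h : ∀ x : k, x ^ q = x) :
    Fintype.card k ≤ q := by
  classical
  have h1 : (Polynomial.X ^ q - Polynomial.X : Polynomial k).natDegree = q :=
    FiniteField.X_pow_card_sub_X_natDegree_eq k (by omega)
  have h0 : (Polynomial.X ^ q - Polynomial.X : Polynomial k) ≠ 0 := FiniteField.X_pow_card_sub_X_ne_zero k (by omega)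
  rw [← h1, ← Finset.card_univ]
  refine Polynomial.card_le_degree_of_subset_roots fun x _ => ?_
  rw [Polynomial.mem_roots h0, Polynomial.IsRoot.def]
  simp [h x]

section tower

variable {K : Type} [Field K] [NumberField K] {E : Type} [Field E] [NumberField E] {L : Type} [Field L] [NumberField L]
  [Algebra K E] [Algebra K L] [Algebra E L] [IsScalarTower K E L]

/-- If the Frobenius element acts trivially on E then v has degree one primes in E. -/
theorem deg_one [IsGalois K E] {v : Pl K} {s : L ≃ₐ[K] L} (hs : IsFr K L v s)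
    (hE : ∀ x : E, s (algebraMap E L x) = algebraMap E L x) : fs K E v = 1 := by
  obtain ⟨w, hw⟩ := under_exists (L := E) v
  obtain ⟨W, hW⟩ := under_exists (L := L) w
  have hWv : below K W = v := by
    apply HeightOneSpectrum.ext
    rw [← hw, ← hW]
    exact (Ideal.under_under W.asIdeal).symm
  have hq : 2 ≤ Nm v := dd_two_le v
  have h1 : ∀ x : 𝓞 E, x ^ Nm v - x ∈ w.asIdeal := by
    intro x
    have h2 := hs W hWv (algebraMap (𝓞 E) (𝓞 L) x)
    have h3 : s • (algebraMap (𝓞 E) (𝓞 L) x) = algebraMap (𝓞 E) (𝓞 L) x := by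
      apply RingOfIntegers.ext
      exact hE (x : E)
    rw [h3, ← map_pow, ← map_sub] at h2
    have h4 : w.asIdeal = W.asIdeal.under (𝓞 E) := (congrArg HeightOneSpectrum.asIdeal hW).symm
    rw [h4, Ideal.under_def, Ideal.mem_comap, ← neg_sub, map_neg]
    exact neg_mem h2
  have hm := w.isMaximal
  let _ : Field (𝓞 E ⧸ w.asIdeal) := Ideal.Quotient.field w.asIdeal
  have hfin : Finite (𝓞 E ⧸ w.asIdeal) := Ideal.finiteQuotientOfFreeOfNeBot w.asIdeal w.ne_bot
  let _ : Fintype (𝓞 E ⧸ w.asIdeal) := Fintype.ofFinite _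
  have h5 : Fintype.card (𝓞 E ⧸ w.asIdeal) ≤ Nm v := by
    refine card_le_of_pow _ hq fun x => ?_
    obtain ⟨y, rfl⟩ := Ideal.Quotient.mk_surjective x
    rw [← map_pow]
    exact Ideal.Quotient.eq.2 (h1 y)
  have h6 : Ideal.absNorm w.asIdeal ≤ Nm v := by
    rw [Ideal.absNorm_apply, Submodule.cardQuot_apply, Nat.card_eq_fintype_card]
    exact h5
  rw [D5_norm v w hw] at h6
  have h7 := fs_pos (K := K) (L := E) v
  by_contra hne
  have h8 : 2 ≤ fs K E v := by omega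
  have h9 : Nm v < Ideal.absNorm v.asIdeal ^ fs K E v := by
    calc Nm v = Nm v ^ 1 := (pow_one _).symm
      _ < Nm v ^ fs K E v := Nat.pow_lt_pow_right (by omega) (by omega)
  omega

end tower

/-- A Galois extension in which almost all primes split completely is trivial. -/
theorem triv_of_split {K E : Type} [Field K] [NumberField K] [Field E] [NumberField E] [Algebra K E] [IsGalois K E]
    (F : Finset (Pl K)) (h : ∀ v ∉ F, Spl K E v) : Module.finrank K E = 1 := by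
  obtain ⟨C₁, hC₁⟩ := density_split K E
  obtain ⟨C₂, hC₂⟩ := prime_zeta K
  have hfr : (0 : ℝ) < Module.finrank K E := by exact_mod_cast Module.finrank_pos
  have h1 : (1 : ℝ) ≤ 1 / Module.finrank K E := by
    refine lead_le (C := C₁ + C₂ + F.card) fun s hs => ?_
    have e1 := (abs_le.1 (hC₁ s hs)).2
    have e2 := (abs_le.1 (hC₂ s hs)).1
    have e3 : PS (Set.univ : Set (Pl K)) s ≤ PS {v : Pl K | Spl K E v} s + F.card :=
      PS_le F (fun v _ hv => h v hv) hs.1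
    rw [PS_univ] at e3
    linarith
  rw [le_div_iff₀ hfr, one_mul] at h1
  have h2 : Module.finrank K E ≤ 1 := by exact_mod_cast h1
  have h3 : 0 < Module.finrank K E := Module.finrank_pos
  omega

theorem unr_of_es {K L : Type} [Field K] [NumberField K] [Field L] [NumberField L] [Algebra K L] [IsGalois K L]
    {v : Pl K} (h : es K L v = 1) : Unr K L v := by
  intro w hw
  have hp := v.isPrime
  have hwp := w.isPrime
  have hl : w.asIdeal.LiesOver v.asIdeal := (BF2_mem v w hw).2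
  rw [← Ideal.ramificationIdxIn_eq_ramificationIdx v.asIdeal w.asIdeal Gal(L/K)]
  exact h

/-- Z3. The Frobenius elements outside a finite set generate the group (abelian extension). -/
theorem frob_gen (K : Type) [Field K] [NumberField K] (L : Type) [Field L] [NumberField L] [Algebra K L]
    [IsGalois K L] (hab : ∀ a b : L ≃ₐ[K] L, a * b = b * a) (S : Finset (Pr K)) :
    Subgroup.closure {s : L ≃ₐ[K] L | ∃ v : Pr K, v ∉ S ∧ Unr K L v ∧ frob K L v = s} = ⊤ := by
  classical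
  set H := Subgroup.closure {s : L ≃ₐ[K] L | ∃ v : Pr K, v ∉ S ∧ Unr K L v ∧ frob K L v = s} with hH
  let E : IntermediateField K L := IntermediateField.fixedField H
  have hN : H.Normal := ⟨fun a ha g => by
    rw [hab g a, mul_assoc, mul_inv_cancel, mul_one]
    exact ha⟩
  have hE : IsGalois K E := IsGalois.of_fixedField_normal_subgroup H
  have hnE : NumberField E := inferInstance
  have h1 : Module.finrank K E = 1 := by
    refine triv_of_split (S ∪ (ram_finite K L).toFinset ∪ (ram_finite K E).toFinset) fun v hv => ?_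
    rw [Finset.mem_union, Finset.mem_union, not_or, not_or, Set.Finite.mem_toFinset, Set.Finite.mem_toFinset,
      Set.mem_ofPred_eq, Set.mem_ofPred_eq, not_not, not_not] at hv
    obtain ⟨⟨hvS, h2⟩, h3⟩ := hv
    refine ⟨h3, ?_⟩
    have h4 := unr_of_es h2
    refine deg_one (L := L) (frob_spec hab h4) fun x => ?_
    have h5 : frob K L v ∈ H := Subgroup.subset_closure ⟨v, hvS, h4, rfl⟩
    exact x.2 ⟨_, h5⟩
  have h2 : E = ⊥ := IntermediateField.finrank_eq_one_iff.1 h1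
  have h3 : IntermediateField.fixingSubgroup E = H := IntermediateField.fixingSubgroup_fixedField H
  rw [← h3, h2]
  exact IntermediateField.fixingSubgroup_bot
end CFTZ
end
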