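import Mathlib
import Pool.Agent.Lib.H1M.PP2.M002
import Pool.Agent.Lib.H1M.PP2.M017
import Pool.Agent.Lib.H1M.PP2.M024
import Pool.Agent.Lib.H1M.PP2.M025
import Pool.Agent.Lib.H1M.PP2.M033
import Pool.Agent.Lib.H1M.PP2.M036
import Pool.Agent.Lib.H1M.PP2.M039
import Pool.Agent.Lib.H1M.PP2.M043
import Pool.Agent.Lib.H1M.PP2.M044
import Pool.Agent.Lib.H1M.PP2.M054
import Pool.Agent.Lib.H1M.PP2.M057
import Pool.Agent.Lib.H1M.PP2.M073
import Pool.Agent.Lib.H1M.PP2.M075

/-! Merged copies (to shorten the build) of Lib.CFT.Y20, Lib.CFT.Y24, Lib.CFT.Y30, Lib.CFT.Y32, Lib.CFT.Core1, Lib.CFT.X20, Lib.CFT.X23, Lib.CFT.X17, Lib.CFT.X21, Lib.CFT.X22, Lib.CFT.X24, Lib.CFT.X25, Lib.CFT.Core2, Lib.CFT.B26, Lib.CFT.B27, Lib.CFT.Core, Lib.SSR.C1, Lib.SSR.CD, Lib.SSR.C2, Lib.H35M.SX1, Lib.SSR.C3. -/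

-- from Lib.CFT.Y20
section

/-! # CFT module Y, chunk Y20: comparison of two ideals -/

open NumberField

namespace CFTY

variable {K : Type} [Field K] [NumberField K]

open Classical in
/-- PROOF. `J = m * (b * c)`; the weights `a₁`, `a₂` of `Y19.weight` for `d = b * c` and `d = c`; `a = N b a₁ - a₂` has sum 0 (`absNorm` is multiplicative and not 0).
`periodic`; the two sums over `𝓞 K` are summable (`fs_summable`, coefficients 0 or 1), so the sum of the differences is the difference of the sums. -/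
theorem compare {g : K → ℂ} {A : ℝ} (hB : Bd g) (hL : LL g) (hA : ∀ x, g x ≠ 0 → Rg A x) {m b c : Ideal (𝓞 K)}
    (hm : m ≠ ⊥) (hb : b ≠ ⊥) (hc : c ≠ ⊥) (hbm : IsCoprime b m) (hcm : IsCoprime c m) :
    ∃ H : ℂ → ℂ, DifferentiableOn ℂ H (HP K) ∧ ∀ s : ℂ, 1 < s.re → H s =
      (Ideal.absNorm b : ℂ) * (∑' x : 𝓞 K, if x - 1 ∈ m ∧ x ∈ b * c then Fs g s (x : K) else 0) -
        ∑' x : 𝓞 K, if x - 1 ∈ m ∧ x ∈ c then Fs g s (x : K) else 0 := by
  have hbc : IsCoprime (b * c) m := hbm.mul_left hcm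
  have hJ : m * (b * c) ≠ ⊥ := mul_ne_zero hm (mul_ne_zero hb hc)
  have hle2 : m * (b * c) ≤ m * c := Ideal.mul_mono_right Ideal.mul_le_right
  obtain ⟨a₁, h11, h12⟩ := weight hJ hbc le_rfl
  obtain ⟨a₂, h21, h22⟩ := weight hJ hcm hle2
  haveI : Finite (𝓞 K ⧸ m * (b * c)) := Ideal.finiteQuotientOfFreeOfNeBot _ hJ
  haveI : Fintype (𝓞 K ⧸ m * (b * c)) := Fintype.ofFinite _
  have hN : ∀ I : Ideal (𝓞 K), I ≠ ⊥ → (Ideal.absNorm I : ℂ) ≠ 0 := fun I hI => Nat.cast_ne_zero.2 (mt Ideal.absNorm_eq_zero_iff.1 hI)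
  have ha1 : ∑ᶠ q, a₁ q = 1 := mul_right_cancel₀ (hN _ hJ) (by rw [h12, one_mul])
  have ha2 : ∑ᶠ q, a₂ q = (Ideal.absNorm b : ℂ) := by
    have hmc : m * c ≠ ⊥ := mul_ne_zero hm hc
    refine mul_right_cancel₀ (hN _ hmc) ?_
    rw [h22, map_mul, map_mul, map_mul]
    push_cast
    ring
  have ha : ∑ᶠ q, ((Ideal.absNorm b : ℂ) * a₁ q - a₂ q) = 0 := by
    rw [finsum_eq_sum_of_fintype] at ha1 ha2 ⊢
    rw [Finset.sum_sub_distrib, ← Finset.mul_sum, ha1, ha2, mul_one, sub_self]
  obtain ⟨H, hH1, hH2⟩ := periodic hB hL hA (m * (b * c)) hJ _ ha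
  refine ⟨H, hH1, fun s hs => ?_⟩
  rw [hH2 s hs]
  have hF := fs_summable hB hA hs (K := K)
  have hS : ∀ d : Ideal (𝓞 K), Summable fun x : 𝓞 K => if x - 1 ∈ m ∧ x ∈ d then Fs g s (x : K) else 0 := by
    intro d
    refine Summable.of_norm_bounded (g := fun x : 𝓞 K => ‖Fs g s (x : K)‖) hF.norm fun x => ?_
    split_ifs
    · exact le_rfl
    · rw [norm_zero]
      exact norm_nonneg _
  rw [← tsum_mul_left, ← ((hS (b * c)).mul_left _).tsum_sub (hS c)]
  refine tsum_congr fun x => ?_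
  rw [h11, h21]
  split_ifs <;> ring


end CFTY
end

-- from Lib.CFT.Y24
section

/-! # CFT module Y, chunk Y24: the multiples theorem -/

open NumberField

namespace CFTY

variable {K : Type} [Field K] [NumberField K]

theorem y24_norm_ne {c : Ideal (𝓞 K)} (hc : c ≠ ⊥) : (Ideal.absNorm c : ℂ) ≠ 0 :=
  Nat.cast_ne_zero.2 fun h => hc (Ideal.absNorm_eq_zero_iff.1 h)

theorem y24_inv (χ : Ideal (𝓞 K) →*₀ ℂ) (s : ℂ) (c : Ideal (𝓞 K)) :
    (CFTZ.tm χ s c)⁻¹ = (χ c)⁻¹ * (Ideal.absNorm c : ℂ) ^ s := by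
  unfold CFTZ.tm
  rw [mul_inv, Complex.cpow_neg, inv_inv]

theorem y24_top (χ : Ideal (𝓞 K) →*₀ ℂ) (s : ℂ) : CFTZ.tm χ s (⊤ : Ideal (𝓞 K)) = 1 := by
  unfold CFTZ.tm
  rw [Ideal.absNorm_top, Nat.cast_one, Complex.one_cpow, mul_one, ← Ideal.one_eq_top, map_one]

/-- MAIN THEOREM (for a modulus with a system of representatives). -/
theorem multiples_aux {m : Ideal (𝓞 K)} (hm : m ≠ ⊥) {ψ : K → ℂ} (hψ : LL ψ) (hψ' : Bd ψ) {χ : Ideal (𝓞 K) →*₀ ℂ}
    (hχ : HCh m ψ χ) {T : Finset (Ideal (𝓞 K))} (hT : Reps m T) {b : Ideal (𝓞 K)} (hb : b ≠ ⊥) (hbm : IsCoprime b m) :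
    ∃ H : ℂ → ℂ, DifferentiableOn ℂ H (HP K) ∧ ∀ s : ℂ, 1 < s.re →
      H s = (χ b * (Ideal.absNorm b : ℂ) ^ (1 - s) - 1) * Lc χ s := by
  classical
  obtain ⟨w, A, hA0, wB, wL, wA, wS⟩ := part_unity (K := K) m hm
  have gB : Bd (K := K) (fun z => (if TP z then 1 else 0) * (w z : ℂ) * ψ z) := (Bd_TP.mul wB).mul hψ'
  have gL : LL (K := K) (fun z => (if TP z then 1 else 0) * (w z : ℂ) * ψ z) :=
    (LL_TP.mul wL Bd_TP wB).mul hψ (Bd_TP.mul wB) hψ'
  have gA : ∀ x : K, (if TP x then 1 else 0) * (w x : ℂ) * ψ x ≠ 0 → Rg A x := by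
    intro x hx
    refine wA x fun h0 => hx ?_
    rw [h0, Complex.ofReal_zero, mul_zero, zero_mul]
  have hex : ∀ c : Ideal (𝓞 K), ∃ H : ℂ → ℂ, DifferentiableOn ℂ H (HP K) ∧ (c ∈ T → ∀ s : ℂ, 1 < s.re → H s =
      (Ideal.absNorm b : ℂ) * (∑' x : 𝓞 K, if x - 1 ∈ m ∧ x ∈ b * c then
        Fs (fun z => (if TP z then 1 else 0) * (w z : ℂ) * ψ z) s (x : K) else 0) -
        ∑' x : 𝓞 K, if x - 1 ∈ m ∧ x ∈ c then
          Fs (fun z => (if TP z then 1 else 0) * (w z : ℂ) * ψ z) s (x : K) else 0) := by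
    intro c
    by_cases hc : c ∈ T
    · obtain ⟨H, h1, h2⟩ := compare gB gL gA hm hb (hT.1 c hc).1 hbm (hT.1 c hc).2
      exact ⟨H, h1, fun _ => h2⟩
    · exact ⟨fun _ => 0, differentiableOn_const _, fun h => absurd h hc⟩
  choose Hc hH1 hH2 using hex
  refine ⟨fun s => ∑ c ∈ T, ((χ c)⁻¹ * (Ideal.absNorm c : ℂ) ^ s) * Hc c s, ?_, fun s hs => ?_⟩
  · refine DifferentiableOn.fun_sum fun c hc => ?_
    refine DifferentiableOn.mul ?_ (hH1 c)
    refine DifferentiableOn.const_mul ?_ _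
    exact (differentiable_id.const_cpow (Or.inl (y24_norm_ne (hT.1 c hc).1))).differentiableOn
  · have e1 : ∀ c ∈ T, ((χ c)⁻¹ * (Ideal.absNorm c : ℂ) ^ s) * Hc c s =
        (Ideal.absNorm b : ℂ) * ((CFTZ.tm χ s c)⁻¹ *
          ∑' I : Ideal (𝓞 K), (if PrI m I ∧ I ≤ b * c then CFTZ.tm χ s I else 0)) -
          (CFTZ.tm χ s c)⁻¹ * ∑' I : Ideal (𝓞 K), (if PrI m I ∧ I ≤ ⊤ * c then CFTZ.tm χ s I else 0) := by
      intro c hc
      rw [hH2 c hc s hs, ← y24_inv, Ideal.top_mul, unfold_sum hχ wS gB wA (b * c) hs, unfold_sum hχ wS gB wA c hs]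
      ring
    show (∑ c ∈ T, ((χ c)⁻¹ * (Ideal.absNorm c : ℂ) ^ s) * Hc c s) = _
    rw [Finset.sum_congr rfl e1, Finset.sum_sub_distrib, ← Finset.mul_sum, sum_reps hχ hT hb hs,
      sum_reps hχ hT (b := ⊤) top_ne_bot hs, y24_top]
    have e2 : (Ideal.absNorm b : ℂ) ^ (1 - s) = (Ideal.absNorm b : ℂ) * (Ideal.absNorm b : ℂ) ^ (-s) := by
      rw [sub_eq_add_neg, Complex.cpow_add _ _ (y24_norm_ne hb), Complex.cpow_one]
    rw [e2]
    unfold CFTZ.tm
    ring

end CFTY
end

-- from Lib.CFT.Y30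
section

/-! # CFT module Y, chunk Y30: Hecke L-functions -/

open NumberField IsDedekindDomain

namespace CFTY

open CFT

variable {K : Type} [Field K] [NumberField K]

/-- multiples theorem for every modulus -/
theorem multiples (hf : ∀ (S : Finset (Pr K)) (N : ℕ), (Pray S N).FiniteIndex) {m : Ideal (𝓞 K)} (hm : m ≠ ⊥) {ψ : K → ℂ}
    (hψ : LL ψ) (hψ' : Bd ψ) {χ : Ideal (𝓞 K) →*₀ ℂ} (hχ : HCh m ψ χ) {b : Ideal (𝓞 K)} (hb : b ≠ ⊥)
    (hbm : IsCoprime b m) : ∃ H : ℂ → ℂ, DifferentiableOn ℂ H (HP K) ∧ ∀ s : ℂ, 1 < s.re →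
      H s = (χ b * (Ideal.absNorm b : ℂ) ^ (1 - s) - 1) * Lc χ s := by
  obtain ⟨S, N, h1, h2⟩ := exists_mI hm
  obtain ⟨T, hT⟩ := exists_reps S N (hf S N)
  exact multiples_aux (mI_ne S N) hψ hψ' (hχ.mono h1 h2) hT hb ((h2 b).1 hbm)

/-- the ideals generated by 1 + k M -/
theorem y30_ideal {m : Ideal (𝓞 K)} {n : (K →+* ℂ) → ℤ} {χ : Ideal (𝓞 K) →*₀ ℂ} (hχ : HCh m (typ n) χ) (k : ℕ) :
    (Ideal.span {((1 + k * Ideal.absNorm m : ℕ) : 𝓞 K)}) ≠ ⊥ ∧
      IsCoprime (Ideal.span {((1 + k * Ideal.absNorm m : ℕ) : 𝓞 K)}) m ∧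
      χ (Ideal.span {((1 + k * Ideal.absNorm m : ℕ) : 𝓞 K)}) = 1 ∧
      Ideal.absNorm (Ideal.span {((1 + k * Ideal.absNorm m : ℕ) : 𝓞 K)}) = (1 + k * Ideal.absNorm m) ^ dg K := by
  have hM : ((Ideal.absNorm m : ℕ) : 𝓞 K) ∈ m := Ideal.absNorm_mem m
  have h1 : (((1 + k * Ideal.absNorm m : ℕ) : 𝓞 K)) - 1 ∈ m := by
    have e : (((1 + k * Ideal.absNorm m : ℕ) : 𝓞 K)) - 1 = (k : 𝓞 K) * ((Ideal.absNorm m : ℕ) : 𝓞 K) := by
      push_cast
      ring
    rw [e]
    exact m.mul_mem_left _ hM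
  have hpos : 0 < 1 + k * Ideal.absNorm m := by omega
  have hcast : (((1 + k * Ideal.absNorm m : ℕ) : 𝓞 K) : K) = ((1 + k * Ideal.absNorm m : ℕ) : K) := map_natCast _ _
  have hne : ((1 + k * Ideal.absNorm m : ℕ) : 𝓞 K) ≠ 0 := Nat.cast_ne_zero.2 hpos.ne'
  have hTP : TP ((((1 + k * Ideal.absNorm m : ℕ) : 𝓞 K)) : K) := by
    rw [hcast]
    refine ⟨Nat.cast_ne_zero.2 hpos.ne', fun φ => ?_⟩
    rw [map_natCast]
    exact Nat.cast_pos.2 hpos
  refine ⟨fun h => hne (Ideal.span_singleton_eq_bot.1 h), ?_, ?_, ?_⟩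
  · rw [Ideal.isCoprime_iff_exists]
    refine ⟨((1 + k * Ideal.absNorm m : ℕ) : 𝓞 K), Ideal.mem_span_singleton_self _,
      1 - ((1 + k * Ideal.absNorm m : ℕ) : 𝓞 K), ?_, by ring⟩
    have e : 1 - ((1 + k * Ideal.absNorm m : ℕ) : 𝓞 K) = -(((1 + k * Ideal.absNorm m : ℕ) : 𝓞 K) - 1) := by ring
    rw [e]
    exact m.neg_mem h1
  · rw [hχ.ray _ h1 hTP, hcast]
    exact typ_nat n _ hpos
  · rw [Ideal.absNorm_span_singleton, ← map_natCast (algebraMap ℤ (𝓞 K)), Algebra.norm_algebraMap, Int.natAbs_pow]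
    unfold dg
    rw [RingOfIntegers.rank]
    rfl

theorem y30_pow (x d : ℕ) (z : ℂ) : ((x ^ d : ℕ) : ℂ) ^ z = ((x : ℂ) ^ z) ^ d := by
  induction d with
  | zero => rw [pow_zero, pow_zero, Nat.cast_one, Complex.one_cpow]
  | succ d ih =>
    rw [pow_succ, pow_succ, Nat.cast_mul, Complex.natCast_mul_natCast_cpow, ih]

/-- the exceptional case -/
theorem excep {m : Ideal (𝓞 K)} (hm : m ≠ ⊥) {n : (K →+* ℂ) → ℤ} {χ : Ideal (𝓞 K) →*₀ ℂ} (hχ : HCh m (typ n) χ) {s : ℂ}
    (h : ∀ b : Ideal (𝓞 K), b ≠ ⊥ → IsCoprime b m → χ b * (Ideal.absNorm b : ℂ) ^ (1 - s) = 1) : s = 1 := by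
  have hM1 : 1 ≤ Ideal.absNorm m := Nat.one_le_iff_ne_zero.2 fun h0 => hm (Ideal.absNorm_eq_zero_iff.1 h0)
  have h1 : ∀ k : ℕ, ((1 + k * Ideal.absNorm m : ℕ) : ℂ) ^ ((dg K : ℂ) * (1 - s)) = 1 := by
    intro k
    obtain ⟨h2, h3, h4, h5⟩ := y30_ideal hχ k
    have h6 := h _ h2 h3
    rw [h4, one_mul, h5] at h6
    rw [Complex.cpow_nat_mul, ← y30_pow]
    exact h6
  have h2 := cpow_eq_one hM1 h1
  have h3 : (dg K : ℂ) ≠ 0 := Nat.cast_ne_zero.2 (by have := dg_pos (K := K); omega)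
  have h4 : 1 - s = 0 := by
    rcases mul_eq_zero.1 h2 with h | h
    · exact absurd h h3
    · exact h
  exact (sub_eq_zero.1 h4).symm

end CFTY
end

-- from Lib.CFT.Y32
section

/-! # CFT module Y, chunk Y32: bounded L-series of ray class characters (Z0) -/

open NumberField IsDedekindDomain

namespace CFTY

open CFT

variable {K : Type} [Field K] [NumberField K]

/-- Z0. PROOF. `hch_of` with `ψ = 1` (`hχ`, `dv_mem_Pray`), `multiples` with `b = v.asIdeal` for a prime `v ∉ S` with `cphi χ v ≠ 1` (it exists: otherwise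
`χ = 0`, because `χ` vanishes on the divisors supported on `S` (`supp_mem_Pray`); `CFTZ.chi_ext`), `y31_bdd`; `Ls (chI S χ) s = Lc (chI S χ) s` by definition. -/
theorem z0_bdd (hf : ∀ (S : Finset (Pr K)) (N : ℕ), (Pray S N).FiniteIndex) (S : Finset (Pr K)) (N : ℕ) (χ : Dv K →+ Additive ℂˣ) (hχ : ∀ D ∈ Pray S N, χ D = 0)
    (hn : ∀ v, ‖(CFTZ.cphi χ v : ℂ)‖ = 1) (h1 : χ ≠ 0) :
    ∃ C : ℝ, ∀ s ∈ Set.Ioc (1 : ℝ) 2, ‖CFTZ.Ls (CFTZ.chI S χ) s‖ ≤ C := by
  have hc : HCh (mI S N) (fun _ => (1 : ℂ)) (CFTZ.chI S χ) := hch_of χ hn fun x hx => by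
    rw [hχ _ (dv_mem_Pray hx), toMul_zero, Units.val_one]
  obtain ⟨v, hv⟩ : ∃ v : Pr K, CFTZ.cphi χ v ≠ 1 := by
    by_contra hcon
    push Not at hcon
    apply h1
    apply CFTZ.chi_ext
    intro v
    rw [hcon v]
    rfl
  have hvS : v ∉ S := by
    intro h
    apply hv
    have h2 : χ (Finsupp.single v 1) = 0 := by
      refine hχ _ (supp_mem_Pray N fun w hw => ?_)
      refine Finsupp.single_eq_of_ne ?_
      rintro rfl
      exact hw h
    unfold CFTZ.cphi
    rw [h2, toMul_zero]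
  have hcop : IsCoprime v.asIdeal (mI S N) := by
    rw [cop_mI]
    intro w hw hle
    have h3 := v.isMaximal.eq_of_le w.isPrime.ne_top hle
    have h4 : v = w := HeightOneSpectrum.ext h3
    rw [h4] at hvS
    exact hvS hw
  have hLL : LL (K := K) (fun _ => (1 : ℂ)) := by
    refine ⟨0, le_rfl, fun δ x y _ _ _ _ => ?_⟩
    simp
  have hBd : Bd (K := K) (fun _ => (1 : ℂ)) := ⟨1, zero_le_one, fun x => by simp⟩
  obtain ⟨H, hH, hHe⟩ := multiples hf (mI_ne S N) hLL hBd hc v.ne_bot hcop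
  have hU : ∀ s : ℝ, 1 ≤ s → (s : ℂ) ∈ HP K := by
    intro s hs
    show 1 - 1 / (dg K : ℝ) < ((s : ℂ)).re
    have h5 : 0 < (dg K : ℝ) := by
      have : 0 < Module.finrank ℚ K := Module.finrank_pos
      exact_mod_cast this
    have h6 : 0 < 1 / (dg K : ℝ) := by positivity
    rw [Complex.ofReal_re]
    linarith
  have hz1 : (CFTZ.cphi χ v : ℂ) ≠ 1 := fun h => hv (Units.ext h)
  have hN : 1 < Ideal.absNorm v.asIdeal := CFTZ.dd_two_le v
  obtain ⟨C, hC⟩ := y31_bdd (L := fun s => Lc (CFTZ.chI S χ) s) hH hU (hn v) hz1 hN fun s hs => by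
    have h7 := hHe (s : ℂ) (by rw [Complex.ofReal_re]; exact hs)
    rw [CFTZ.chI_prime S χ hvS] at h7
    exact h7
  exact ⟨C, fun s hs => hC s hs⟩

end CFTY
end

-- from Lib.CFT.Core1
section

/-! # CFT: the theorems T0 - T4 (finiteness of the ray class group, the two inequalities, Frobenius elements generate, cyclotomic reciprocity)

The statements are those of Targets.lean (same names); files which are part of the proof or of a hand-in import Core1 (T0 - T4), Core2 (crossing) or Core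
(everything), never Targets. -/

open NumberField IsDedekindDomain

namespace CFT

variable (K : Type) [Field K] [NumberField K] (L : Type) [Field L] [NumberField L] [Algebra K L]

/-- Z1. The ray class group is finite. -/
theorem pray_fin (S : Finset (Pr K)) (N : ℕ) : (Pray S N).FiniteIndex := CFTZ.pray_fin S N

/-- T1 (Z2). The second inequality, for every Galois extension. -/
theorem second_ineq [IsGalois K L] (S : Finset (Pr K)) (N : ℕ) :
    (Pray S N ⊔ (Nd K L).range).index ≤ Module.finrank K L :=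
  CFTZ.second_ineq_of (fun S N χ h1 h2 h3 => CFTY.z0_bdd (pray_fin K) S N χ h1 h2 h3) S N (pray_fin K S N)

/-- T2 (Z3). The Frobenius elements outside a finite set generate the group (abelian extension). -/
theorem frob_gen [IsGalois K L] (hab : ∀ a b : L ≃ₐ[K] L, a * b = b * a) (S : Finset (Pr K)) :
    Subgroup.closure {s : L ≃ₐ[K] L | ∃ v : Pr K, v ∉ S ∧ Unr K L v ∧ frob K L v = s} = ⊤ := CFTZ.frob_gen K L hab S

/-- T3 (H). The first inequality, for cyclic extensions, modulus supported on any finite set containing the ramified primes. -/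
theorem first_ineq [IsGalois K L] (hc : IsCyclic (L ≃ₐ[K] L)) (S : Finset (Pr K)) (hS : ∀ v : Pr K, ¬ Unr K L v → v ∈ S) :
    ∃ N : ℕ, Module.finrank K L ≤ (Pray S N ⊔ (Nd K L).range).index := Pool.Agent.H69H.first_ineq hc S hS

/-- T4 (B). Reciprocity for cyclotomic extensions. -/
theorem cyc_rec (m : ℕ) [NeZero m] [IsCyclotomicExtension {m} K L] (S : Finset (Pr K))
    (hS : ∀ v : Pr K, (m : 𝓞 K) ∈ v.asIdeal → v ∈ S) :
    ∃ N : ℕ, ∀ (A : Type) [CommGroup A] (χ : (L ≃ₐ[K] L) →* A) (x : K), Ray S N x → art S χ (dv x) = 0 := cyc_rec' m S hS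

end CFT
end

-- from Lib.CFT.X20
section

/-! # CFT X20 (S/M): every element of the Galois group is the Artin symbol of a divisor outside T

PROOF. The set of all g for which such a D exists is a subgroup (sums and negatives of divisors) and contains frob E M w for w not in T (D = single w 1, art_single_of_notMem). frob_gen (Targets),
Subgroup.closure_induction. -/

open NumberField IsDedekindDomain

namespace CFT

theorem x_div {E : Type} [Field E] [NumberField E] {M : Type} [Field M] [NumberField M] [Algebra E M] [IsGalois E M]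
    (hab : ∀ a b : M ≃ₐ[E] M, a * b = b * a) (T : Finset (Pr E)) (g : M ≃ₐ[E] M) :
    ∃ D : Dv E, (∀ w ∈ T, D w = 0) ∧ ∀ (A : Type) [CommGroup A] (χ : (M ≃ₐ[E] M) →* A), art T χ D = Additive.ofMul (χ g) := by
  classical
  have hg : g ∈ (⊤ : Subgroup (M ≃ₐ[E] M)) := Subgroup.mem_top g
  rw [← frob_gen E M hab T] at hg
  induction hg using Subgroup.closure_induction with
  | mem x hx =>
    obtain ⟨w, hw, -, rfl⟩ := hx
    refine ⟨Finsupp.single w 1, fun u hu => ?_, fun A _ χ => ?_⟩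
    · rw [Finsupp.single_apply, if_neg]
      rintro rfl
      exact hw hu
    · rw [art_single_of_notMem _ hw, one_smul]
  | one => exact ⟨0, fun _ _ => rfl, fun A _ χ => by rw [map_zero, map_one, ofMul_one]⟩
  | mul x y _ _ hx hy =>
    obtain ⟨D, hD, hD'⟩ := hx
    obtain ⟨D', hE, hE'⟩ := hy
    refine ⟨D + D', fun w hw => by rw [Finsupp.add_apply, hD w hw, hE w hw, add_zero], fun A _ χ => ?_⟩
    rw [map_add, hD' A χ, hE' A χ, map_mul, ofMul_mul]
  | inv x _ hx =>
    obtain ⟨D, hD, hD'⟩ := hx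
    refine ⟨-D, fun w hw => by rw [Finsupp.neg_apply, hD w hw, neg_zero], fun A _ χ => ?_⟩
    rw [map_neg, hD' A χ, map_inv, ofMul_inv]

end CFT
end

-- from Lib.CFT.X23
section

/-! # CFT X23 (M): the auxiliary divisor, and its norm to a smaller field -/

open NumberField IsDedekindDomain

namespace CFT

section

variable {K : Type} [Field K] [NumberField K] {L : Type} [Field L] [NumberField L] [Algebra K L]
    {M : Type} [Field M] [NumberField M] [Algebra K M] [Algebra L M] [IsScalarTower K L M] {m : ℕ} [NeZero m] [IsCyclotomicExtension {m} L M]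

/-- PROOF. E₀ = fixedField H₀. M/K is Galois, abelian (x_gal, x_comm, X12), so M/E₀ too. x in H₀ is an E₀-automorphism x' of M (IntermediateField.mem_fixedField_iff; e.g. AlgEquiv.ofRingEquiv, or
IntermediateField.fixingSubgroupEquiv). T = Tm K E₀ S m. D from x_div (X20) for M/E₀, T, x'. art_base (B21) with (K, L, E₀, M): art S χ (Nd K E₀ D) = art T (χ ∘ resE) D = χ (resE x') = χ (x restricted to L).
(Primes w outside T are unramified in M/E₀: x_unr (X13) and unr_tower (B08).) -/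
theorem x_aux [IsGalois K L] (hab : ∀ a b : L ≃ₐ[K] L, a * b = b * a) (H₀ : Subgroup (M ≃ₐ[K] M)) (x : M ≃ₐ[K] M) (hx : x ∈ H₀)
    (S : Finset (Pr K)) (hS : ∀ v : Pr K, ¬ Unr K L v → v ∈ S) :
    ∃ D : Dv (IntermediateField.fixedField H₀), (∀ w ∈ Tm K (IntermediateField.fixedField H₀) S m, D w = 0) ∧
      ∀ (A : Type) [CommGroup A] (χ : (L ≃ₐ[K] L) →* A),
        art S χ (Nd K (IntermediateField.fixedField H₀) D) = Additive.ofMul (χ (AlgEquiv.restrictNormalHom L x)) := by
  haveI hgal : IsGalois K M := x_gal K L M m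
  have hcomm : ∀ a b : M ≃ₐ[K] M, a * b = b * a := x_comm (IsCyclotomicExtension.zeta_spec m L M) hab
  have habM : ∀ a b : M ≃ₐ[IntermediateField.fixedField H₀] M, a * b = b * a := by
    intro a b
    apply AlgEquiv.ext
    intro z
    exact DFunLike.congr_fun (hcomm (a.restrictScalars K) (b.restrictScalars K)) z
  obtain ⟨x', hx'⟩ : ∃ x' : M ≃ₐ[IntermediateField.fixedField H₀] M, x'.restrictScalars K = x := by
    refine ⟨AlgEquiv.ofRingEquiv (f := x.toRingEquiv) fun r => ?_, ?_⟩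
    · exact (IntermediateField.mem_fixedField_iff H₀ r.1).1 r.2 x hx
    · apply AlgEquiv.ext
      intro z
      rfl
  obtain ⟨D, hD, hD2⟩ := x_div habM (Tm K (IntermediateField.fixedField H₀) S m) x'
  refine ⟨D, hD, fun A _ χ => ?_⟩
  rw [art_base K L (IntermediateField.fixedField H₀) M hab habM S hS (Tm K (IntermediateField.fixedField H₀) S m) ?_ (up_subset_Tm S m) χ D hD,
    hD2]
  · show Additive.ofMul (χ (resE K L (IntermediateField.fixedField H₀) M x')) = _
    have h1 : resE K L (IntermediateField.fixedField H₀) M x' = AlgEquiv.restrictNormalHom L x := by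
      show AlgEquiv.restrictNormalHom L (x'.restrictScalars K) = _
      rw [hx']
    rw [h1]
  · intro w hw
    by_contra hcon
    rw [mem_Tm, not_or] at hcon
    have h1 : Unr K L (below K w) := by
      by_contra h
      exact hcon.1 (hS _ h)
    have h2 : (m : 𝓞 K) ∉ (below K w).asIdeal := fun h => hcon.2 ((m_mem_below m w).1 h)
    have h3 : Unr K M (below K w) := x_unr h1 h2
    exact hw ((unr_tower K (IntermediateField.fixedField H₀) M h3).2 w rfl)

end

section

variable {K : Type} [Field K] [NumberField K] {M : Type} [Field M] [NumberField M] [Algebra K M] {m : ℕ} [NeZero m]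

/-- PROOF. E ≤ E₀: algebra structure from IntermediateField.inclusion, scalar tower K E E₀. D' = Nd E E₀ D; Nd_Nd (B08); D' is 0 on Tm: Nd_apply (B09), a prime of E₀ above a prime in Tm K E is in Tm K E₀
(below_below (B08), m_mem_below (X00)). -/
theorem x_push (E E₀ : IntermediateField K M) (h : E ≤ E₀) (S : Finset (Pr K)) (D : Dv E₀) (hD : ∀ w ∈ Tm K E₀ S m, D w = 0) :
    ∃ D' : Dv E, (∀ w ∈ Tm K E S m, D' w = 0) ∧ Nd K E D' = Nd K E₀ D := by
  letI : Algebra E E₀ := (IntermediateField.inclusion h).toRingHom.toAlgebra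
  haveI : IsScalarTower K E E₀ := IsScalarTower.of_algebraMap_eq fun r => rfl
  refine ⟨Nd E E₀ D, fun w hw => ?_, Nd_Nd K E E₀ D⟩
  rw [Nd_apply]
  refine Finset.sum_eq_zero fun u hu => ?_
  rw [mem_abv] at hu
  have h1 : u ∈ Tm K E₀ S m := by
    rw [mem_Tm] at hw ⊢
    rcases hw with hw | hw
    · left
      rw [← below_below K E E₀ u, hu]
      exact hw
    · right
      rw [← hu] at hw
      exact (m_mem_below m u).1 hw
  rw [hD u h1, mul_zero]

end

end CFT
end

-- from Lib.CFT.X17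
section

/-! # CFT X17 (M/L): kernel of the Artin symbol for a subextension of a cyclotomic extension

PROOF. M/E is abelian (cyc_comm, B22) and Galois, F/E is abelian (restriction is onto). N₀ from cyc_rec (Targets, or cyc_rec', B24) for M/E: art T χ' (dv x) = 0 for all χ' on Gal(M/E). With
χ' = χ ∘ restriction and art_res (B20; primes outside T are unramified in M: unr_cyc, B22) art T χ (dv x) = 0 for all χ on Gal(F/E) and Ray T N₀ x. Let N₁ = max N N₀,
H = Pray T N₁ ⊔ (Nd E F).range. Make Gal(F/E) a CommGroup (as in Targets.artin_ker) and let φ = art T (MonoidHom.id _) : Dv E →+ Additive Gal(F/E), k = φ.ker. H ≤ k: for Pray use art_congr (D2) and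
Ray.mono, for norms art_Nd (B18; ramified primes of F are in T: unr_tower, unr_cyc). φ is onto: frob_gen (Targets) and art_single_of_notMem (φ.range contains the generators; Subgroup.closure_le), so
k.index = card Gal(F/E) = finrank E F (AddSubgroup.index_ker, IsGalois.card_aut_eq_finrank). second_ineq: H.index ≤ finrank E F = k.index, H.index ≠ 0 (Pray T N₁ ≤ H has finite
index: pray_fin, index_ne_zero), k.index ∣ H.index for H ≤ k (AddSubgroup.index_dvd_of_le), so H.index = k.index and H = k (AddSubgroup.relIndex_mul_index, relIndex = 1 means k ≤ H). D is in k = H and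
Pray T N₁ ≤ Pray T N (Ray.mono). -/

open NumberField IsDedekindDomain

namespace CFT

theorem x_ker {E : Type} [Field E] [NumberField E] {F : Type} [Field F] [NumberField F] [Algebra E F] {M : Type} [Field M] [NumberField M] [Algebra E M]
    [Algebra F M] [IsScalarTower E F M] [IsGalois E F] {m : ℕ} [NeZero m] [IsCyclotomicExtension {m} E M] (T : Finset (Pr E))
    (hT : ∀ w : Pr E, (m : 𝓞 E) ∈ w.asIdeal → w ∈ T) (N : ℕ) (D : Dv E)
    (h : ∀ (A : Type) [CommGroup A] (χ : (F ≃ₐ[E] F) →* A), art T χ D = 0) : D ∈ Pray T N ⊔ (Nd E F).range := by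
  classical
  have hgal : IsGalois E M := IsCyclotomicExtension.isGalois {m} E M
  have habM : ∀ a b : M ≃ₐ[E] M, a * b = b * a := cyc_comm m
  have hsur : Function.Surjective (AlgEquiv.restrictNormalHom F : (M ≃ₐ[E] M) →* (F ≃ₐ[E] F)) := AlgEquiv.restrictNormalHom_surjective M
  have habF : ∀ a b : F ≃ₐ[E] F, a * b = b * a := by
    intro a b
    obtain ⟨a', rfl⟩ := hsur a
    obtain ⟨b', rfl⟩ := hsur b
    rw [← map_mul, habM, map_mul]
  have hTM : ∀ w : Pr E, ¬ Unr E M w → w ∈ T := by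
    intro w hw
    by_contra hwT
    exact hw (unr_cyc m w fun hm => hwT (hT w hm))
  have hTF : ∀ w : Pr E, ¬ Unr E F w → w ∈ T := by
    intro w hw
    by_contra hwT
    apply hw
    have h1 : Unr E M w := by
      by_contra h2
      exact hwT (hTM w h2)
    exact (unr_tower E F M h1).1
  obtain ⟨N₀, hN₀⟩ := cyc_rec E M m T hT
  have hray : ∀ (A : Type) [CommGroup A] (χ : (F ≃ₐ[E] F) →* A) (x : E), Ray T N₀ x → art T χ (dv x) = 0 := by
    intro A _ χ x hx
    rw [← art_res E F M habM T hTM χ (dv x)]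
    exact hN₀ A _ x hx
  set N₁ := max N N₀ with hN₁
  let cg : CommGroup (F ≃ₐ[E] F) := { (inferInstance : Group (F ≃ₐ[E] F)) with mul_comm := habF }
  set φ : Dv E →+ Additive (F ≃ₐ[E] F) := art T (MonoidHom.id (F ≃ₐ[E] F)) with hφ
  set H := Pray T N₁ ⊔ (Nd E F).range with hH
  have hle : H ≤ φ.ker := by
    rw [hH, sup_le_iff]
    constructor
    · rintro C ⟨x, hx, hC⟩
      rw [AddMonoidHom.mem_ker, hφ, art_congr T (MonoidHom.id (F ≃ₐ[E] F)) (E := dv x) hC]
      exact hray _ _ x (hx.mono (Finset.Subset.refl T) (le_max_right _ _))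
    · rintro _ ⟨C, rfl⟩
      rw [AddMonoidHom.mem_ker, hφ]
      exact art_Nd habF T hTF _ C
  have hsurj : Function.Surjective φ := by
    have h1 : ∀ s : F ≃ₐ[E] F, s ∈ Subgroup.closure {s : F ≃ₐ[E] F | ∃ v : Pr E, v ∉ T ∧ Unr E F v ∧ frob E F v = s} →
        ∃ C : Dv E, φ C = Additive.ofMul s := by
      intro s hs
      induction hs using Subgroup.closure_induction with
      | mem s hs =>
        obtain ⟨v, hv, -, rfl⟩ := hs
        exact ⟨Finsupp.single v 1, by rw [hφ, art_single_of_notMem _ hv, one_smul]; rfl⟩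
      | one => exact ⟨0, by rw [map_zero]; rfl⟩
      | mul s t _ _ h1 h2 =>
        obtain ⟨C, hC⟩ := h1
        obtain ⟨C', hC'⟩ := h2
        exact ⟨C + C', by rw [map_add, hC, hC']; rfl⟩
      | inv s _ h1 =>
        obtain ⟨C, hC⟩ := h1
        exact ⟨-C, by rw [map_neg, hC]; rfl⟩
    intro y
    obtain ⟨C, hC⟩ := h1 y.toMul (by rw [frob_gen E F habF T]; exact Subgroup.mem_top _)
    exact ⟨C, hC⟩
  have hk : φ.ker.index = Module.finrank E F := by
    rw [AddSubgroup.index_ker, AddMonoidHom.range_eq_top.2 hsurj, ← IsGalois.card_aut_eq_finrank E F]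
    calc Nat.card (⊤ : AddSubgroup (Additive (F ≃ₐ[E] F))) = Nat.card (Additive (F ≃ₐ[E] F)) := Nat.card_congr (AddSubgroup.topEquiv).toEquiv
      _ = Nat.card (F ≃ₐ[E] F) := Nat.card_congr Additive.toMul
  have hpos : 0 < Module.finrank E F := Module.finrank_pos
  have h0 : H.index ≠ 0 := by
    have h1 : (Pray T N₁).FiniteIndex := pray_fin E T N₁
    have h2 : (Pray T N₁).index ≠ 0 := h1.index_ne_zero
    have h3 : H.index ∣ (Pray T N₁).index := AddSubgroup.index_dvd_of_le (by rw [hH]; exact le_sup_left)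
    intro h4
    rw [h4, zero_dvd_iff] at h3
    exact h2 h3
  have h1 := AddSubgroup.relIndex_mul_index hle
  have h2 : H.index ≤ φ.ker.index := by
    rw [hk]
    exact second_ineq E F T N₁
  have h3 : H.relIndex φ.ker = 1 := by
    have h4 : H.relIndex φ.ker ≠ 0 := by
      intro h5
      rw [h5, zero_mul] at h1
      exact h0 h1.symm
    have h5 : H.relIndex φ.ker * φ.ker.index ≤ 1 * φ.ker.index := by rw [h1, one_mul]; exact h2
    have h6 := Nat.le_of_mul_le_mul_right h5 (by rw [hk]; exact hpos)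
    omega
  have h4 : φ.ker ≤ H := AddSubgroup.relIndex_eq_one.1 h3
  have h5 : D ∈ H := h4 (h _ (MonoidHom.id (F ≃ₐ[E] F)))
  have h6 : H ≤ Pray T N ⊔ (Nd E F).range := by
    rw [hH]
    refine sup_le_sup_right ?_ _
    rintro C ⟨x, hx, hC⟩
    exact ⟨x, hx.mono (Finset.Subset.refl T) (le_max_left _ _), hC⟩
  exact h6 h5

end CFT
end

-- from Lib.CFT.X21
section

/-! # CFT X21 (M/L): the crossing step, fields as types

K - L - F - M and K - E - F - M, M cyclotomic over E, restriction Gal(F/E) → Gal(L/K) injective. D a divisor of E, zero above S and m, whose norm to K has trivial Artin symbol in L/K.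

PROOF. T = Tm K E S m (X00). Gal(F/E) is abelian (injective restriction, or quotient of Gal(M/E)). Primes outside T are unramified in F/E (unr_cyc (B22) for M/E and unr_tower (B08)). art_base (B21) with (K, L, E, F), T,
for every χ on Gal(L/K): art T (χ ∘ resE) D = art S χ (Nd K E D) = 0. Take χ = id into Gal(L/K) as a CommGroup (habL; instance as in Targets.artin_ker): art T resE D = 0. For an arbitrary χ' on Gal(F/E):
art T χ' D = 0 because with Gal(F/E) as a CommGroup G', art T id D =: g in G' is mapped to art T resE D = 0 by resE (art_comp, D2), so g = 0 by injectivity, and art T χ' D = χ' g = 0 (art_comp). Now x_ker (X17)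
for every N' and x_down (X19; up_subset_Tm). -/

open NumberField IsDedekindDomain

namespace CFT

theorem x_step {K : Type} [Field K] [NumberField K] {L : Type} [Field L] [NumberField L] [Algebra K L] {E : Type} [Field E] [NumberField E] [Algebra K E]
    {F : Type} [Field F] [NumberField F] [Algebra K F] [Algebra L F] [Algebra E F] [IsScalarTower K L F] [IsScalarTower K E F]
    {M : Type} [Field M] [NumberField M] [Algebra E M] [Algebra F M] [IsScalarTower E F M] {m : ℕ} [NeZero m] [IsCyclotomicExtension {m} E M]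
    [IsGalois K L] [IsGalois E F] (hab : ∀ a b : L ≃ₐ[K] L, a * b = b * a) (hinj : Function.Injective (resE K L E F))
    (S : Finset (Pr K)) (hS : ∀ v : Pr K, ¬ Unr K L v → v ∈ S) (N : ℕ) (D : Dv E) (hD : ∀ w ∈ Tm K E S m, D w = 0)
    (h : ∀ (A : Type) [CommGroup A] (χ : (L ≃ₐ[K] L) →* A), art S χ (Nd K E D) = 0) : Nd K E D ∈ Pray S N ⊔ (Nd K L).range := by
  classical
  have habF : ∀ a b : F ≃ₐ[E] F, a * b = b * a := by
    intro a b
    apply hinj
    rw [map_mul, map_mul, hab]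
  set T := Tm K E S m with hTdef
  have hmT : ∀ w : Pr E, (m : 𝓞 E) ∈ w.asIdeal → w ∈ T := fun w hw => mem_Tm.2 (Or.inr hw)
  have hTF : ∀ w : Pr E, ¬ Unr E F w → w ∈ T := by
    intro w hw
    by_contra hwT
    apply hw
    have h1 : Unr E M w := unr_cyc m w fun hm => hwT (hmT w hm)
    exact (unr_tower E F M h1).1
  have hzero : ∀ (A : Type) [CommGroup A] (χ : (F ≃ₐ[E] F) →* A), art T χ D = 0 := by
    intro A _ χ'
    let cL : CommGroup (L ≃ₐ[K] L) := { (inferInstance : Group (L ≃ₐ[K] L)) with mul_comm := hab }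
    let cF : CommGroup (F ≃ₐ[E] F) := { (inferInstance : Group (F ≃ₐ[E] F)) with mul_comm := habF }
    have h1 := h (L ≃ₐ[K] L) (MonoidHom.id (L ≃ₐ[K] L))
    rw [art_base K L E F hab habF S hS T hTF (up_subset_Tm S m) (MonoidHom.id (L ≃ₐ[K] L)) D hD, MonoidHom.id_comp] at h1
    have h2 := art_comp T (resE K L E F) (MonoidHom.id (F ≃ₐ[E] F)) D
    rw [MonoidHom.comp_id, h1] at h2
    have h3 : art T (MonoidHom.id (F ≃ₐ[E] F)) D = 0 := by
      have h4 : resE K L E F (art T (MonoidHom.id (F ≃ₐ[E] F)) D).toMul = 1 := Additive.ofMul.injective h2.symm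
      have h5 : (art T (MonoidHom.id (F ≃ₐ[E] F)) D).toMul = 1 := hinj (by rw [h4, map_one])
      exact Additive.toMul.injective h5
    have h4 := art_comp T χ' (MonoidHom.id (F ≃ₐ[E] F)) D
    rw [MonoidHom.comp_id, h3, map_zero] at h4
    exact h4
  refine x_down (L := L) (F := F) S N T (up_subset_Tm S m) D hD fun N' => ?_
  exact x_ker (M := M) (m := m) T hmT N' D hzero

end CFT
end

-- from Lib.CFT.X22
section

/-! # CFT X22 (M/L): the crossing step for the fixed field of H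

PROOF. Instances only. E = fixedField H, J = H ⊓ (restrictNormalHom L).ker, F = fixedField J, E ≤ F. Algebra E F: (IntermediateField.inclusion h).toRingHom.toAlgebra; Algebra L F: the image of L in M is fixed by J, so
(algebraMap L M).codRestrict F.toSubring (or toSubfield), as a ring homomorphism, toAlgebra; scalar towers by IsScalarTower.of_algebraMap_eq (all maps are inclusions in M). M is cyclotomic over E (x_fix, X15: an element z of H with
autToPow z = 1 has trivial restriction to L by hH, so z = 1 by x_inj, X12). F/E is Galois: J is normal in the abelian group (E ≤ F ≤ M: F/K is Galois since all subgroups are normal, and then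
F/E is Galois: IsGalois.tower_top_of_isGalois K E F). resE K L E F is injective: let t in Gal(F/E) with trivial restriction to L; lift t to s in Gal(M/E) (AlgEquiv.liftNormal, M/E is normal); as an element of
Gal(M/K) s is in H (fixingSubgroup_fixedField), and its restriction to L is trivial (the images of L lie in F and t fixes them), so s is in J, so it fixes F and t = 1. Then x_step (X21). -/

open NumberField IsDedekindDomain

namespace CFT

theorem x_stepH {K : Type} [Field K] [NumberField K] {L : Type} [Field L] [NumberField L] [Algebra K L]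
    {M : Type} [Field M] [NumberField M] [Algebra K M] [Algebra L M] [IsScalarTower K L M] {m : ℕ} [NeZero m] [IsCyclotomicExtension {m} L M]
    [IsGalois K L] (hab : ∀ a b : L ≃ₐ[K] L, a * b = b * a) {ζ : M} (hζ : IsPrimitiveRoot ζ m)
    (H : Subgroup (M ≃ₐ[K] M)) (hH : ∀ z ∈ H, hζ.autToPow K z = 1 → AlgEquiv.restrictNormalHom L z = 1)
    (S : Finset (Pr K)) (hS : ∀ v : Pr K, ¬ Unr K L v → v ∈ S) (N : ℕ)
    (D : Dv (IntermediateField.fixedField H)) (hD : ∀ w ∈ Tm K (IntermediateField.fixedField H) S m, D w = 0)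
    (h : ∀ (A : Type) [CommGroup A] (χ : (L ≃ₐ[K] L) →* A), art S χ (Nd K (IntermediateField.fixedField H) D) = 0) :
    Nd K (IntermediateField.fixedField H) D ∈ Pray S N ⊔ (Nd K L).range := by
  classical
  have hMg : IsGalois K M := x_gal K L M m
  have habM : ∀ a b : M ≃ₐ[K] M, a * b = b * a := x_comm hζ hab
  let E : IntermediateField K M := IntermediateField.fixedField H
  let J : Subgroup (M ≃ₐ[K] M) := H ⊓ (AlgEquiv.restrictNormalHom L : (M ≃ₐ[K] M) →* (L ≃ₐ[K] L)).ker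
  let F : IntermediateField K M := IntermediateField.fixedField J
  have hJn : J.Normal := ⟨fun a ha b => by rwa [habM b a, mul_assoc, mul_inv_cancel, mul_one]⟩
  have hEF : E ≤ F := by
    intro x hx
    rw [IntermediateField.mem_fixedField_iff] at hx ⊢
    exact fun s hs => hx s hs.1
  have hLF : ∀ x : L, algebraMap L M x ∈ F := by
    intro x
    rw [IntermediateField.mem_fixedField_iff]
    intro s hs
    have h1 : AlgEquiv.restrictNormalHom L s = 1 := hs.2
    have h2 := AlgEquiv.restrictNormal_commutes s L x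
    have h3 : AlgEquiv.restrictNormal s L = 1 := h1
    rw [h3] at h2
    exact h2.symm
  letI aEF : Algebra E F := (IntermediateField.inclusion hEF).toRingHom.toAlgebra
  letI aLF : Algebra L F := ((algebraMap L M).codRestrict F hLF).toAlgebra
  haveI tKEF : IsScalarTower K E F := IsScalarTower.of_algebraMap_eq fun x => rfl
  haveI tEFM : IsScalarTower E F M := IsScalarTower.of_algebraMap_eq fun x => rfl
  haveI tLFM : IsScalarTower L F M := IsScalarTower.of_algebraMap_eq fun x => rfl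
  haveI tKLF : IsScalarTower K L F := IsScalarTower.of_algebraMap_eq fun x => by
    apply (algebraMap F M).injective
    show algebraMap F M (algebraMap K F x) = algebraMap L M (algebraMap K L x)
    rw [← IsScalarTower.algebraMap_apply K L M]
    rfl
  haveI hcyc : IsCyclotomicExtension {m} E M := x_fix hζ H fun z hz h1 => x_inj hζ z (hH z hz h1) h1
  haveI hFg : IsGalois K F := IsGalois.of_fixedField_normal_subgroup J
  haveI hEFg : IsGalois E F := IsGalois.tower_top_of_isGalois K E F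
  haveI hEM : IsGalois E M := IsGalois.tower_top_of_isGalois K E M
  have hinj : Function.Injective (resE K L E F) := by
    rw [injective_iff_map_eq_one]
    intro t ht
    let s : M ≃ₐ[E] M := AlgEquiv.liftNormal t M
    have hs : ∀ y : F, s (algebraMap F M y) = algebraMap F M (t y) := fun y => AlgEquiv.liftNormal_commutes t M y
    let s' : M ≃ₐ[K] M := s.restrictScalars K
    have h1 : s' ∈ H := by
      rw [← IntermediateField.fixingSubgroup_fixedField H, IntermediateField.mem_fixingSubgroup_iff]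
      intro x hx
      exact s.commutes ⟨x, hx⟩
    have h2 : AlgEquiv.restrictNormalHom L s' = 1 := by
      ext x
      apply (algebraMap L M).injective
      have h3 : algebraMap L M (AlgEquiv.restrictNormalHom L s' x) = s' (algebraMap L M x) := AlgEquiv.restrictNormal_commutes s' L x
      rw [h3]
      have h4 : s' (algebraMap L M x) = s (algebraMap F M (algebraMap L F x)) := rfl
      rw [h4, hs, ← resE_spec (K := K) t x, ht]
      rfl
    have h3 : s' ∈ J := ⟨h1, h2⟩
    ext y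
    have h4 : s' (algebraMap F M y) = algebraMap F M y := by
      have h5 := y.2
      rw [IntermediateField.mem_fixedField_iff] at h5
      exact h5 s' h3
    have h5 : s' (algebraMap F M y) = algebraMap F M (t y) := hs y
    rw [h4] at h5
    exact congrArg _ ((algebraMap F M).injective h5.symm)
  exact x_step (K := K) (L := L) (E := E) (F := F) (M := M) (m := m) hab hinj S hS N D hD h

end CFT
end

-- from Lib.CFT.X24
section

/-! # CFT X24 (M): the crossing for one prime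

PROOF. y = frob K M v, H = Subgroup.closure {x, y}. For z in H with autToPow z = 1: restriction to L trivial, by x_core (X14) with n = l^r = finrank K L (hG: pow_card_eq_one'; card of the Galois group = finrank), β y = unit of Nm v
(x_beta, X13). E = fixedField H ≤ E₀ = fixedField (zpowers x) (zpowers x ≤ H; IntermediateField.fixedField_le or antitone). D' from x_push (X23) for the given D₀. w a prime of E above v (below_surj, B06), inertia degree 1 (x_split,
X16; y fixes E as y is in H; v is unramified in M: x_unr). D = single w 1 - d • D'. D is 0 on Tm K E S m: w is not in Tm (below w = v is not in S, m is not in w by m_mem_below). Nd K E D = single v 1 - d • Nd K E₀ D₀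
(Nd_single). art S χ (Nd K E D) = χ (frob K L v) - d χ (x restricted) = 0 (additively) by hd, hD₀. x_stepH (X22). -/

open NumberField IsDedekindDomain

namespace CFT

theorem x_one {K : Type} [Field K] [NumberField K] {L : Type} [Field L] [NumberField L] [Algebra K L]
    {M : Type} [Field M] [NumberField M] [Algebra K M] [Algebra L M] [IsScalarTower K L M] {m : ℕ} [NeZero m] [IsCyclotomicExtension {m} L M]
    [IsGalois K L] (hab : ∀ a b : L ≃ₐ[K] L, a * b = b * a) {ζ : M} (hζ : IsPrimitiveRoot ζ m) (n : ℕ) (hn : Module.finrank K L = n)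
    (S : Finset (Pr K)) (hS : ∀ v : Pr K, ¬ Unr K L v → v ∈ S) (N : ℕ) (x : M ≃ₐ[K] M) (hx : n ∣ orderOf (hζ.autToPow K x))
    (D₀ : Dv (IntermediateField.fixedField (Subgroup.zpowers x))) (hD₀ : ∀ w ∈ Tm K (IntermediateField.fixedField (Subgroup.zpowers x)) S m, D₀ w = 0)
    (hart : ∀ (A : Type) [CommGroup A] (χ : (L ≃ₐ[K] L) →* A),
        art S χ (Nd K (IntermediateField.fixedField (Subgroup.zpowers x)) D₀) = Additive.ofMul (χ (AlgEquiv.restrictNormalHom L x)))
    (v : Pr K) (hv : v ∉ S) (hm : (m : 𝓞 K) ∉ v.asIdeal) (hnv : n ∣ orderOf (ZMod.unitOfCoprime (Nm v) (x_cop m v hm)))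
    (hdis : Disjoint (Subgroup.zpowers (hζ.autToPow K x)) (Subgroup.zpowers (ZMod.unitOfCoprime (Nm v) (x_cop m v hm))))
    (d : ℕ) (hd : frob K L v = AlgEquiv.restrictNormalHom L x ^ d) :
    (Finsupp.single v 1 - d • Nd K (IntermediateField.fixedField (Subgroup.zpowers x)) D₀ : Dv K) ∈ Pray S N ⊔ (Nd K L).range := by
  classical
  have hgal : IsGalois K M := x_gal K L M m
  have hcomm : ∀ a b : M ≃ₐ[K] M, a * b = b * a := x_comm hζ hab
  have hvL : Unr K L v := by
    by_contra h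
    exact hv (hS v h)
  have hvM : Unr K M v := x_unr hvL hm
  have hβ := x_beta hab hζ hvL hm
  obtain ⟨y, hy⟩ : ∃ y, y = frob K M v := ⟨_, rfl⟩
  rw [← hy] at hβ
  rw [← hβ] at hnv hdis
  obtain ⟨H, hHdef⟩ : ∃ H : Subgroup (M ≃ₐ[K] M), H = Subgroup.closure {x, y} := ⟨_, rfl⟩
  have hG : ∀ g : L ≃ₐ[K] L, g ^ n = 1 := by
    intro g
    rw [← hn, ← IsGalois.card_aut_eq_finrank K L]
    exact pow_card_eq_one'
  have hH : ∀ z ∈ H, hζ.autToPow K z = 1 → AlgEquiv.restrictNormalHom L z = 1 := by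
    intro z hz h1
    rw [hHdef] at hz
    exact x_core hcomm (AlgEquiv.restrictNormalHom L) (hζ.autToPow K) hG hx hnv hdis hz h1
  have hxH : Subgroup.zpowers x ≤ H := by
    rw [Subgroup.zpowers_le, hHdef]
    exact Subgroup.subset_closure (by simp)
  have hyH : y ∈ H := by
    rw [hHdef]
    exact Subgroup.subset_closure (by simp)
  have hE : IntermediateField.fixedField H ≤ IntermediateField.fixedField (Subgroup.zpowers x) := by
    intro z hz
    rw [IntermediateField.mem_fixedField_iff] at hz ⊢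
    exact fun f hf => hz f (hxH hf)
  obtain ⟨D', hD', hN'⟩ := x_push (m := m) _ _ hE S D₀ hD₀
  obtain ⟨w, hw⟩ := below_surj (K := K) (L := IntermediateField.fixedField H) v
  have hf := x_split hcomm (IntermediateField.fixedField H) hvM (fun z => by
    rw [← hy]
    exact (IntermediateField.mem_fixedField_iff H z.1).1 z.2 y hyH) w hw
  have hNd : Nd K (IntermediateField.fixedField H) (Finsupp.single w 1 - d • D') =
      Finsupp.single v 1 - d • Nd K (IntermediateField.fixedField (Subgroup.zpowers x)) D₀ := by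
    rw [map_sub, map_nsmul, hN', Nd_single, hf, hw, Nat.cast_one, one_mul]
  rw [← hNd]
  refine x_stepH hab hζ H hH S hS N _ ?_ ?_
  · intro u hu
    rw [Finsupp.sub_apply, Finsupp.smul_apply, hD' u hu, smul_zero, sub_zero, Finsupp.single_apply, if_neg]
    rintro rfl
    rw [mem_Tm, hw] at hu
    rcases hu with hu | hu
    · exact hv hu
    · refine hm ?_
      rw [← hw]
      exact (m_mem_below m w).2 hu
  · intro A _ χ
    rw [hNd, map_sub, map_nsmul, hart, art_single_of_notMem χ hv, one_zsmul, hd, map_pow, ofMul_pow, sub_self]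

end CFT
end

-- from Lib.CFT.X25
section

/-! # CFT X25: the crossing (assembly) -/

open NumberField IsDedekindDomain

namespace CFT

theorem crossing' (K : Type) [Field K] [NumberField K] (L : Type) [Field L] [NumberField L] [Algebra K L] [IsGalois K L] (hc : IsCyclic (L ≃ₐ[K] L))
    (l r : ℕ) (hl : l.Prime) (hn : Module.finrank K L = l ^ r)
    (S : Finset (Pr K)) (hS : ∀ v : Pr K, ¬ Unr K L v → v ∈ S) (N : ℕ) (v v₀ : Pr K) (hv : v ∉ S) (hv₀ : v₀ ∉ S)
    (hg : Subgroup.zpowers (frob K L v₀) = ⊤) (d : ℕ) (hd : frob K L v = frob K L v₀ ^ d) :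
    (Finsupp.single v 1 - d • Finsupp.single v₀ 1 : Dv K) ∈ Pray S N ⊔ (Nd K L).range := by
  have hab : ∀ a b : L ≃ₐ[K] L, a * b = b * a := by
    letI : CommGroup (L ≃ₐ[K] L) := hc.commGroup
    exact mul_comm
  obtain ⟨q₁, q₂, hq₁, hq₂, hne, hirr, hmv, hmv₀, o₁, o₂, d₁, d₂⟩ := x_choose K L hl r v v₀
  have hm0 : q₁ * q₂ ≠ 0 := mul_ne_zero hq₁.ne_zero hq₂.ne_zero
  haveI : NeZero (q₁ * q₂) := ⟨hm0⟩
  obtain ⟨u₁, u₂, hu₁, hu₂, hu⟩ := x_units hq₁ hq₂ hne d₁ d₂
  obtain ⟨τ, hτ, hτ₁, hτ₂⟩ := x_tau hl hu₁ hu₂ hu (ZMod.unitOfCoprime (Nm v) (x_cop (q₁ * q₂) v hmv))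
    (ZMod.unitOfCoprime (Nm v₀) (x_cop (q₁ * q₂) v₀ hmv₀))
  let M := CyclotomicField (q₁ * q₂) L
  haveI : NumberField M := IsCyclotomicExtension.numberField {q₁ * q₂} L M
  have hζ : IsPrimitiveRoot (IsCyclotomicExtension.zeta (q₁ * q₂) L M) (q₁ * q₂) := IsCyclotomicExtension.zeta_spec (q₁ * q₂) L M
  obtain ⟨x, hx1, hx2⟩ := x_surj (K := K) (L := L) (M := M) hζ hirr (frob K L v₀) τ
  obtain ⟨D₀, hD₀, hart⟩ := x_aux (K := K) (L := L) (M := M) (m := q₁ * q₂) hab (Subgroup.zpowers x) x (Subgroup.mem_zpowers x) S hS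
  have hxn : l ^ r ∣ orderOf (hζ.autToPow K x) := by rw [hx2, hτ]
  have h1 := x_one hab hζ (l ^ r) hn S hS N x hxn D₀ hD₀ hart v hv hmv (x_order (dvd_mul_right q₁ q₂) (x_cop (q₁ * q₂) v hmv) o₁)
    (by rw [hx2]; exact hτ₁) d (by rw [hx1]; exact hd)
  have h2 := x_one hab hζ (l ^ r) hn S hS N x hxn D₀ hD₀ hart v₀ hv₀ hmv₀ (x_order (dvd_mul_left q₂ q₁) (x_cop (q₁ * q₂) v₀ hmv₀) o₂)
    (by rw [hx2]; exact hτ₂) 1 (by rw [hx1, pow_one])
  have h3 := sub_mem h1 (nsmul_mem h2 d)
  have e : (Finsupp.single v 1 - d • Finsupp.single v₀ 1 : Dv K) =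
      (Finsupp.single v 1 - d • Nd K (IntermediateField.fixedField (Subgroup.zpowers x)) D₀) -
        d • (Finsupp.single v₀ 1 - 1 • Nd K (IntermediateField.fixedField (Subgroup.zpowers x)) D₀) := by
    rw [one_nsmul, smul_sub]
    abel
  rw [e]
  exact h3

end CFT
end

-- from Lib.CFT.Core2
section

/-! # CFT: T5, the crossing -/

open NumberField IsDedekindDomain

namespace CFT

variable (K : Type) [Field K] [NumberField K] (L : Type) [Field L] [NumberField L] [Algebra K L]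

/-- T5 (X). The crossing. -/
theorem crossing [IsGalois K L] (hc : IsCyclic (L ≃ₐ[K] L)) (l r : ℕ) (hl : l.Prime) (hn : Module.finrank K L = l ^ r)
    (S : Finset (Pr K)) (hS : ∀ v : Pr K, ¬ Unr K L v → v ∈ S) (N : ℕ) (v v₀ : Pr K) (hv : v ∉ S) (hv₀ : v₀ ∉ S)
    (hg : Subgroup.zpowers (frob K L v₀) = ⊤) (d : ℕ) (hd : frob K L v = frob K L v₀ ^ d) :
    (Finsupp.single v 1 - d • Finsupp.single v₀ 1 : Dv K) ∈ Pray S N ⊔ (Nd K L).range :=
  crossing' K L hc l r hl hn S hS N v v₀ hv hv₀ hg d hd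

end CFT
end

-- from Lib.CFT.B26
section

/-! # CFT module B, chunk B26: reciprocity for cyclic extensions of prime power degree -/

open NumberField IsDedekindDomain

namespace CFT

variable {K : Type} [Field K] [NumberField K] {L : Type} [Field L] [NumberField L] [Algebra K L]

/-- The kernel of the Artin symbol is contained in the norm group (from the crossing). -/
theorem b26_ker [IsGalois K L] (hc : IsCyclic (L ≃ₐ[K] L)) (l r : ℕ) (hl : l.Prime) (hn : Module.finrank K L = l ^ r)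
    (S : Finset (Pr K)) (hS : ∀ v : Pr K, ¬ Unr K L v → v ∈ S) (N : ℕ) (G : Type) [CommGroup G] (e : (L ≃ₐ[K] L) ≃* G)
    (v₀ : Pr K) (hv₀ : v₀ ∉ S) (hg : Subgroup.zpowers (frob K L v₀) = ⊤) (D : Dv K)
    (hD : art S (e : (L ≃ₐ[K] L) →* G) D = 0) : D ∈ Pray S N ⊔ (Nd K L).range := by
  classical
  set H := Pray S N ⊔ (Nd K L).range with hH
  have key : ∀ D : Dv K, ∃ k : ℤ, D - k • Finsupp.single v₀ 1 ∈ H ∧
      art S (e : (L ≃ₐ[K] L) →* G) D = k • Additive.ofMul (e (frob K L v₀)) := by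
    intro D
    induction D using Finsupp.induction_linear with
    | zero => exact ⟨0, by rw [zero_smul, sub_zero]; exact H.zero_mem, by rw [map_zero, zero_smul]⟩
    | add D E hD hE =>
      obtain ⟨k, h1, h2⟩ := hD
      obtain ⟨j, h3, h4⟩ := hE
      refine ⟨k + j, ?_, by rw [map_add, h2, h4, add_smul]⟩
      have h5 : D + E - (k + j) • (Finsupp.single v₀ 1 : Dv K) = (D - k • Finsupp.single v₀ 1) + (E - j • Finsupp.single v₀ 1) := by
        rw [add_smul]
        abel
      rw [h5]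
      exact H.add_mem h1 h3
    | single v n =>
      by_cases hv : v ∈ S
      · refine ⟨0, ?_, by rw [art_single_of_mem _ hv, zero_smul]⟩
        rw [zero_smul, sub_zero]
        refine AddSubgroup.mem_sup_left (supp_mem_Pray N fun w hw => ?_)
        rw [Finsupp.single_apply, if_neg]
        rintro rfl
        exact hw hv
      · have h0 : frob K L v ∈ Subgroup.zpowers (frob K L v₀) := by
          rw [hg]
          exact Subgroup.mem_top _
        rw [← mem_powers_iff_mem_zpowers] at h0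
        obtain ⟨d, hd⟩ := h0
        have hd' : frob K L v = frob K L v₀ ^ d := hd.symm
        have h1 := crossing K L hc l r hl hn S hS N v v₀ hv hv₀ hg d hd'
        refine ⟨n * d, ?_, ?_⟩
        · have h2 : (Finsupp.single v n : Dv K) - (n * (d : ℤ)) • Finsupp.single v₀ 1 =
              n • ((Finsupp.single v 1 : Dv K) - d • Finsupp.single v₀ 1) := by
            rw [smul_sub, ← natCast_zsmul (Finsupp.single v₀ (1 : ℤ)) d, smul_smul, Finsupp.smul_single n v 1, smul_eq_mul, mul_one]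
          rw [h2]
          exact H.zsmul_mem h1 n
        · rw [art_single_of_notMem _ hv, mul_smul, hd']
          congr 1
          rw [MonoidHom.coe_coe, map_pow, ofMul_pow, natCast_zsmul]
  obtain ⟨k, h1, h2⟩ := key D
  rw [hD] at h2
  have h3 : (Additive.ofMul (e (frob K L v₀) ^ k)) = 0 := by
    rw [ofMul_zpow]
    exact h2.symm
  have h4 : e (frob K L v₀ ^ k) = 1 := by
    rw [map_zpow]
    exact ofMul_eq_zero.1 h3
  have h5 : frob K L v₀ ^ k = 1 := e.injective (by rw [h4, map_one])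
  have h6 : (orderOf (frob K L v₀) : ℤ) ∣ k := orderOf_dvd_iff_zpow_eq_one.2 h5
  have h7 : orderOf (frob K L v₀) = Module.finrank K L := by
    rw [← IsGalois.card_aut_eq_finrank, ← Nat.card_zpowers, hg]
    exact Nat.card_congr (Subgroup.topEquiv (G := (L ≃ₐ[K] L))).toEquiv
  rw [h7] at h6
  obtain ⟨j, hj⟩ := h6
  have h8 : k • (Finsupp.single v₀ 1 : Dv K) ∈ H := by
    rw [hj, mul_smul, natCast_zsmul]
    exact AddSubgroup.mem_sup_right (n_mem_Nd (K := K) (L := L) _)
  have h9 : D = (D - k • Finsupp.single v₀ 1) + k • Finsupp.single v₀ 1 := by abel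
  rw [h9]
  exact H.add_mem h1 h8

/-- The norm group is the kernel of the Artin symbol. -/
theorem b26_eq [IsGalois K L] (hc : IsCyclic (L ≃ₐ[K] L)) (hab : ∀ a b : L ≃ₐ[K] L, a * b = b * a)
    (l r : ℕ) (hl : l.Prime) (hn : Module.finrank K L = l ^ r)
    (S : Finset (Pr K)) (hS : ∀ v : Pr K, ¬ Unr K L v → v ∈ S) (G : Type) [CommGroup G] (e : (L ≃ₐ[K] L) ≃* G) :
    ∃ N : ℕ, (art S (e : (L ≃ₐ[K] L) →* G)).ker = Pray S N ⊔ (Nd K L).range := by
  classical
  obtain ⟨N, hN⟩ := first_ineq K L hc S hS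
  refine ⟨N, ?_⟩
  have hidx : (Pray S N ⊔ (Nd K L).range).index = Module.finrank K L := le_antisymm (second_ineq K L S N) hN
  set a := art S (e : (L ≃ₐ[K] L) →* G) with ha
  have hpos : 0 < Module.finrank K L := Module.finrank_pos
  set T : Set (L ≃ₐ[K] L) := {s : L ≃ₐ[K] L | ∃ v : Pr K, v ∉ S ∧ Unr K L v ∧ frob K L v = s} with hT
  have hgen : Subgroup.closure T = ⊤ := frob_gen K L hab S
  have hcard : Nat.card (L ≃ₐ[K] L) = Module.finrank K L := IsGalois.card_aut_eq_finrank K L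
  -- surjectivity
  have hsurj : Function.Surjective a := by
    have h1 : ∀ s : L ≃ₐ[K] L, s ∈ Subgroup.closure T → ∃ D : Dv K, a D = Additive.ofMul (e s) := by
      intro s hs
      induction hs using Subgroup.closure_induction with
      | mem s hs =>
        obtain ⟨v, hv, -, rfl⟩ := hs
        exact ⟨Finsupp.single v 1, by rw [ha, art_single_of_notMem _ hv, one_smul]; rfl⟩
      | one => exact ⟨0, by rw [map_zero, map_one]; rfl⟩
      | mul s t _ _ h1 h2 =>
        obtain ⟨D, hD⟩ := h1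
        obtain ⟨E, hE⟩ := h2
        exact ⟨D + E, by rw [map_add, hD, hE, map_mul]; rfl⟩
      | inv s _ h1 =>
        obtain ⟨D, hD⟩ := h1
        exact ⟨-D, by rw [map_neg, hD, map_inv]; rfl⟩
    intro y
    obtain ⟨D, hD⟩ := h1 (e.symm y.toMul) (by rw [hgen]; exact Subgroup.mem_top _)
    exact ⟨D, by rw [hD, MulEquiv.apply_symm_apply]; rfl⟩
  have hkeridx : a.ker.index = Module.finrank K L := by
    rw [AddSubgroup.index_ker, AddMonoidHom.range_eq_top.2 hsurj, ← hcard]
    calc Nat.card (⊤ : AddSubgroup (Additive G)) = Nat.card (Additive G) := Nat.card_congr (AddSubgroup.topEquiv).toEquiv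
      _ = Nat.card G := Nat.card_congr Additive.toMul
      _ = Nat.card (L ≃ₐ[K] L) := (Nat.card_congr e.toEquiv).symm
  have hle : a.ker ≤ Pray S N ⊔ (Nd K L).range := by
    by_cases hTn : T.Nonempty
    · have hG : Nat.card (L ≃ₐ[K] L) = l ^ r := by rw [hcard, hn]
      obtain ⟨g, ⟨v₀, hv₀, -, rfl⟩, hg⟩ := gen_mem hc l r hl hG T hTn hgen
      intro D hD
      exact b26_ker hc l r hl hn S hS N G e v₀ hv₀ hg D hD
    · rw [Set.not_nonempty_iff_eq_empty.1 hTn, Subgroup.closure_empty] at hgen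
      have h1 : Nat.card (L ≃ₐ[K] L) = 1 := by
        rw [← Nat.card_congr (Subgroup.topEquiv (G := (L ≃ₐ[K] L))).toEquiv, ← hgen, Subgroup.card_bot]
      rw [hcard] at h1
      rw [h1, AddSubgroup.index_eq_one] at hidx
      rw [hidx]
      exact le_top
  refine le_antisymm hle ?_
  have h1 := AddSubgroup.relIndex_mul_index hle
  rw [hkeridx, hidx] at h1
  have h2 : a.ker.relIndex (Pray S N ⊔ (Nd K L).range) = 1 := by
    exact Nat.eq_of_mul_eq_mul_right hpos (by rw [h1, one_mul])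
  exact AddSubgroup.relIndex_eq_one.1 h2

/-- PROOF. H = Pray S N + range Nd with N from CFT.first_ineq (Targets): index = n = [L:K] by first_ineq and second_ineq (Targets), it is finite. a = art S id (A = Gal(L/K) as a commutative group): range Nd is in ker a
(art_Nd, B18). a is onto Gal: frob_gen (Targets). So ker a has index n (index of the kernel of a surjective homomorphism = card). CLAIM ker a is in H: v0 outside S with frob v0 a generator (gen_mem, B25, T = the
frob v, v outside S; nonempty because ... if T were empty the closure is trivial and G trivial: then n = 1, and H has index 1, everything is trivial: case r = 0 separately: H = top and we need ker a = top: G trivial).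
For D in ker a: for every v outside S choose d(v) with frob v = frob v0^d(v) (d natural: the generator has finite order); CFT.crossing (Targets): single v 1 - d(v) single v0 1 in H. Divisors supported on S are in Pray S N (supp_mem_Pray, D2).
So D = k single v0 1 mod H with k = sum of D v d(v) over v outside S, and 0 = a(D) = k ofMul (frob v0), so n = order of frob v0 divides k; n single v0 1 in range Nd (n_mem_Nd, B09). So D in H. Finally ker a <= H and both have the same
finite index n, so they are equal (Subgroup.eq_of_le_of_index..: AddSubgroup.relIndex_eq_one / index_eq_of..). For Ray S N x: dv x in Pray S N <= H = ker a. For general chi: art_comp (D2) with chi = chi o id. -/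
theorem artin_pp [IsGalois K L] (hc : IsCyclic (L ≃ₐ[K] L)) (hab : ∀ a b : L ≃ₐ[K] L, a * b = b * a)
    (l r : ℕ) (hl : l.Prime) (hn : Module.finrank K L = l ^ r)
    (S : Finset (Pr K)) (hS : ∀ v : Pr K, ¬ Unr K L v → v ∈ S) :
    ∃ N : ℕ, ∀ (A : Type) [CommGroup A] (χ : (L ≃ₐ[K] L) →* A) (x : K), Ray S N x → art S χ (dv x) = 0 := by
  letI cg : CommGroup (L ≃ₐ[K] L) := { (inferInstance : Group (L ≃ₐ[K] L)) with mul_comm := hab }
  obtain ⟨N, hN⟩ := b26_eq hc hab l r hl hn S hS (L ≃ₐ[K] L) (MulEquiv.refl (L ≃ₐ[K] L))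
  refine ⟨N, fun A _ χ x hx => ?_⟩
  have h1 : dv x ∈ (art S ((MulEquiv.refl (L ≃ₐ[K] L) : (L ≃ₐ[K] L) ≃* (L ≃ₐ[K] L)) : (L ≃ₐ[K] L) →* (L ≃ₐ[K] L))).ker := by
    rw [hN]
    exact AddSubgroup.mem_sup_left (dv_mem_Pray hx)
  rw [AddMonoidHom.mem_ker] at h1
  have h2 := art_comp S χ ((MulEquiv.refl (L ≃ₐ[K] L) : (L ≃ₐ[K] L) ≃* (L ≃ₐ[K] L)) : (L ≃ₐ[K] L) →* (L ≃ₐ[K] L)) (dv x)
  rw [h1, map_zero] at h2
  exact h2

end CFT
end

-- from Lib.CFT.B27
section

/-! # CFT module B, chunk B27: Artin reciprocity -/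

open NumberField IsDedekindDomain

namespace CFT

variable {K : Type} [Field K] [NumberField K] {L : Type} [Field L] [NumberField L] [Algebra K L]

theorem b27_H [IsGalois K L] (hab : ∀ a b : L ≃ₐ[K] L, a * b = b * a) (S : Finset (Pr K)) (hS : ∀ v : Pr K, ¬ Unr K L v → v ∈ S)
    (G : Type) [CommGroup G] (e : (L ≃ₐ[K] L) ≃* G) (H : Subgroup (L ≃ₐ[K] L)) [hN : H.Normal] (hc : IsCyclic ((L ≃ₐ[K] L) ⧸ H))
    (l r : ℕ) (hl : l.Prime) (hcard : Nat.card ((L ≃ₐ[K] L) ⧸ H) = l ^ r) :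
    ∃ N : ℕ, ∀ x : K, Ray S N x → ∀ g : L ≃ₐ[K] L, art S (e : (L ≃ₐ[K] L) →* G) (dv x) = Additive.ofMul (e g) → g ∈ H := by
  classical
  let E : IntermediateField K L := IntermediateField.fixedField H
  have hEn : NumberField E := NumberField.of_module_finite K E
  have hEg : IsGalois K E := IsGalois.of_fixedField_normal_subgroup H
  let q : (L ≃ₐ[K] L) ⧸ H ≃* (E ≃ₐ[K] E) := IsGalois.normalAutEquivQuotient H
  have hcE : IsCyclic (E ≃ₐ[K] E) := isCyclic_of_surjective q q.surjective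
  have habE : ∀ a b : E ≃ₐ[K] E, a * b = b * a := by
    intro a b
    letI := hcE.commGroup
    exact mul_comm a b
  have hrank : Module.finrank K E = l ^ r := by
    rw [← IsGalois.card_aut_eq_finrank, ← hcard]
    exact (Nat.card_congr q.toEquiv).symm
  have hSE : ∀ v : Pr K, ¬ Unr K E v → v ∈ S := by
    intro v hv
    by_contra hvS
    have h1 : Unr K L v := by
      by_contra h
      exact hvS (hS v h)
    exact hv (unr_tower K E L h1).1
  obtain ⟨N, hN⟩ := artin_pp (K := K) (L := E) hcE habE l r hl hrank S hSE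
  refine ⟨N, fun x hx g hg => ?_⟩
  let cg : CommGroup (E ≃ₐ[K] E) := { (inferInstance : Group (E ≃ₐ[K] E)) with mul_comm := habE }
  have h1 := hN (E ≃ₐ[K] E) (MonoidHom.id (E ≃ₐ[K] E)) x hx
  have h2 := art_res K E L hab S hS (MonoidHom.id (E ≃ₐ[K] E)) (dv x)
  rw [h1, MonoidHom.id_comp] at h2
  have h3 := art_comp S ((AlgEquiv.restrictNormalHom E : (L ≃ₐ[K] L) →* (E ≃ₐ[K] E)).comp (e.symm : G →* (L ≃ₐ[K] L)))
    (e : (L ≃ₐ[K] L) →* G) (dv x)
  have h4 : ((AlgEquiv.restrictNormalHom E : (L ≃ₐ[K] L) →* (E ≃ₐ[K] E)).comp (e.symm : G →* (L ≃ₐ[K] L))).comp (e : (L ≃ₐ[K] L) →* G) =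
      (AlgEquiv.restrictNormalHom E : (L ≃ₐ[K] L) →* (E ≃ₐ[K] E)) := by
    ext s y
    simp
  rw [h4, h2, hg] at h3
  have h5 : (AlgEquiv.restrictNormalHom E : (L ≃ₐ[K] L) →* (E ≃ₐ[K] E)) g = 1 := by
    have h6 := h3.symm
    have h7 : (AlgEquiv.restrictNormalHom E : (L ≃ₐ[K] L) →* (E ≃ₐ[K] E)) (e.symm (e g)) = 1 := Additive.ofMul.injective h6
    rwa [MulEquiv.symm_apply_apply] at h7
  have h8 : g ∈ (AlgEquiv.restrictNormalHom E : (L ≃ₐ[K] L) →* (E ≃ₐ[K] E)).ker := h5
  rw [IntermediateField.restrictNormalHom_ker, IntermediateField.fixingSubgroup_fixedField] at h8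
  exact h8

/-- PROOF. For every H <= G = Gal(L/K) with G/H cyclic of prime power order let E_H = fixed field of H (IntermediateField K L, a number field, Galois over K with group G/H: IsGalois.normalAutEquivQuotient; cyclic of degree
l^r) and N_H from artin_pp (B26), S contains the primes ramified in E_H (unr_tower, B08). N = the maximum over the finitely many H (Finite G: Finset.univ.sup of a choice function, 0 for the other H). Let Ray S N x, and
g in G with ofMul g = art S id (dv x) (A = G as a commutative group). If g <> 1: ker_pp (B25) gives H with g not in H; restriction to E_H: art S (restrictNormalHom E_H) (dv x) = ofMul (restrictNormalHom E_H g) (art_comp, D2) and it is 0 by art_res (B20)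
and artin_pp (Ray.mono, D2), so g fixes E_H, so g in H (IntermediateField.fixingSubgroup_fixedField): contradiction. So g = 1; general chi by art_comp. -/
theorem artin' [IsGalois K L] (hab : ∀ a b : L ≃ₐ[K] L, a * b = b * a) (S : Finset (Pr K)) (hS : ∀ v : Pr K, ¬ Unr K L v → v ∈ S) :
    ∃ N : ℕ, ∀ (A : Type) [CommGroup A] (χ : (L ≃ₐ[K] L) →* A) (x : K), Ray S N x → art S χ (dv x) = 0 := by
  classical
  let cg : CommGroup (L ≃ₐ[K] L) := { (inferInstance : Group (L ≃ₐ[K] L)) with mul_comm := hab }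
  let e : (L ≃ₐ[K] L) ≃* (L ≃ₐ[K] L) := MulEquiv.refl _
  have hex : ∀ H : Subgroup (L ≃ₐ[K] L), ∃ N : ℕ, (∃ _ : H.Normal, IsCyclic ((L ≃ₐ[K] L) ⧸ H) ∧
      ∃ l r : ℕ, l.Prime ∧ Nat.card ((L ≃ₐ[K] L) ⧸ H) = l ^ r) →
      ∀ x : K, Ray S N x → ∀ g : L ≃ₐ[K] L, art S (e : (L ≃ₐ[K] L) →* (L ≃ₐ[K] L)) (dv x) = Additive.ofMul (e g) → g ∈ H := by
    intro H
    by_cases h : ∃ _ : H.Normal, IsCyclic ((L ≃ₐ[K] L) ⧸ H) ∧ ∃ l r : ℕ, l.Prime ∧ Nat.card ((L ≃ₐ[K] L) ⧸ H) = l ^ r
    · obtain ⟨hn, hc, l, r, hl, hcard⟩ := h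
      obtain ⟨N, hN⟩ := b27_H hab S hS (L ≃ₐ[K] L) e H hc l r hl hcard
      exact ⟨N, fun _ => hN⟩
    · exact ⟨0, fun h' => absurd h' h⟩
  choose Nf hNf using hex
  have hfin : Finite (Subgroup (L ≃ₐ[K] L)) := inferInstance
  let ft : Fintype (Subgroup (L ≃ₐ[K] L)) := Fintype.ofFinite _
  refine ⟨Finset.univ.sup Nf, fun A _ χ x hx => ?_⟩
  set g : L ≃ₐ[K] L := (art S (e : (L ≃ₐ[K] L) →* (L ≃ₐ[K] L)) (dv x)).toMul with hg
  have hg1 : g = 1 := by
    by_contra hne
    obtain ⟨H, hn, hgH, hc, l, r, hl, hcard⟩ := ker_pp hab g hne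
    exact hgH (hNf H ⟨hn, hc, l, r, hl, hcard⟩ x (hx.mono (Finset.Subset.refl S) (Finset.le_sup (f := Nf) (Finset.mem_univ H))) g rfl)
  have h1 : art S (e : (L ≃ₐ[K] L) →* (L ≃ₐ[K] L)) (dv x) = 0 := by
    have h2 : art S (e : (L ≃ₐ[K] L) →* (L ≃ₐ[K] L)) (dv x) = Additive.ofMul g := rfl
    rw [h2, hg1]
    rfl
  have h3 := art_comp S χ (e : (L ≃ₐ[K] L) →* (L ≃ₐ[K] L)) (dv x)
  rw [h1, map_zero] at h3
  exact h3

end CFT
end

-- from Lib.CFT.Core
section

/-! # CLASS FIELD THEORY: the core theorems with proofs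

T0 pray_fin, T1 second_ineq, T2 frob_gen, T3 first_ineq, T4 cyc_rec (Core1), T5 crossing (Core2), T6 artin (Artin reciprocity for all finite abelian extensions
of number fields; modulus supported on the ramified primes), T6' artin_ker (the kernel of the Artin symbol, cyclic of prime power degree). -/

open NumberField IsDedekindDomain

namespace CFT

variable (K : Type) [Field K] [NumberField K] (L : Type) [Field L] [NumberField L] [Algebra K L]

/-- T6. ARTIN RECIPROCITY for finite abelian extensions; the modulus is supported on any finite set containing the ramified primes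
(and the infinite places). -/
theorem artin [IsGalois K L] (hab : ∀ a b : L ≃ₐ[K] L, a * b = b * a) (S : Finset (Pr K)) (hS : ∀ v : Pr K, ¬ Unr K L v → v ∈ S) :
    ∃ N : ℕ, ∀ (A : Type) [CommGroup A] (χ : (L ≃ₐ[K] L) →* A) (x : K), Ray S N x → art S χ (dv x) = 0 := artin' hab S hS

/-- T6'. For cyclic extensions of prime power degree the kernel of the Artin symbol is the norm group. -/
theorem artin_ker [IsGalois K L] (hc : IsCyclic (L ≃ₐ[K] L)) (l r : ℕ) (hl : l.Prime) (hn : Module.finrank K L = l ^ r)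
    (S : Finset (Pr K)) (hS : ∀ v : Pr K, ¬ Unr K L v → v ∈ S) (hab : ∀ a b : L ≃ₐ[K] L, a * b = b * a) :
    ∃ N : ℕ, letI : CommGroup (L ≃ₐ[K] L) := { (inferInstance : Group (L ≃ₐ[K] L)) with mul_comm := hab }
      (art S (MonoidHom.id (L ≃ₐ[K] L))).ker = Pray S N ⊔ (Nd K L).range := by
  letI : CommGroup (L ≃ₐ[K] L) := { (inferInstance : Group (L ≃ₐ[K] L)) with mul_comm := hab }
  exact b26_eq hc hab l r hl hn S hS (L ≃ₐ[K] L) (MulEquiv.refl (L ≃ₐ[K] L))

end CFT
end

-- from Lib.SSR.C1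
section

open NumberField IsDedekindDomain

namespace SSR

variable {N : Type} [Field N] [NumberField N] {L : Type} [Field L] [NumberField L] [Algebra N L]

/-! Chunk C1 (M). The Artin symbol of principal divisors near 1. PROOF. Gal(L/N) has prime order p, so it is cyclic and commutative. S' := S. CFT.artin_ker N L hcyc p 1 hp hn' S hS hab gives n with
(art S id).ker = Pray S n ⊔ (Nd N L).range. n6_all with n + 1 in place of n: y ≠ 0 in 𝓞 L with norm y - x in v^(n+1) for all v in S. z := x / norm y in N: z ≠ 0; Ray S n z: z - 1 = (x - norm y)/norm y,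
norm y is a unit at v in S (norm y = x = 1 mod v), v.valuation (z - 1) = v.valuation (x - norm y) <= exp(-(n+1)) < exp(-n) (HeightOneSpectrum.intValuation_le_pow_iff_mem,
valuation_of_algebraMap); no real embeddings (hre). dv x = dv z + dv (norm y) (CFT.dv_mul), dv (norm y) = Nd (dv y) (CFT.Nd_dv, Algebra.algebraMap_intNorm), dv z in Pray S n. So dv x is in the
kernel of art S id, and art S χ D = χ (art S id D) (both are additive homomorphisms, equal on Finsupp.single v 1: unfold CFT.art, liftAddHom_apply_single; AddMonoidHom.ext / Finsupp.addHom_ext). -/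

theorem c1_dv [IsGalois N L] {p : ℕ} (hp : p.Prime) (hn : Module.finrank N L = p) (S : Finset (HeightOneSpectrum (𝓞 N)))
    (hS : ∀ v : CFT.Pr N, ¬ CFT.Unr N L v → v ∈ S) (t : HeightOneSpectrum (𝓞 N) → ℕ)
    (hT : ∀ v ∈ S, (p : 𝓞 N) ∈ v.asIdeal → ∃ w : HeightOneSpectrum (𝓞 L), TRam p v w (t v)) (hre : IsEmpty (N →+* ℝ)) (χ : (L ≃ₐ[N] L) →* ℂˣ) (x : 𝓞 N)
    (hx0 : x ≠ 0)
    (hx : ∀ v ∈ S, ((p : 𝓞 N) ∉ v.asIdeal → x - 1 ∈ v.asIdeal) ∧ ((p : 𝓞 N) ∈ v.asIdeal → x - 1 ∈ v.asIdeal ^ (t v + 1))) :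
    CFT.art S χ (CFT.dv (x : N)) = 0 := by
  haveI : Fact p.Prime := ⟨hp⟩
  have hcard : Nat.card (L ≃ₐ[N] L) = p := by rw [IsGalois.card_aut_eq_finrank, hn]
  have hcyc : IsCyclic (L ≃ₐ[N] L) := isCyclic_of_prime_card hcard
  have hab : ∀ a b : L ≃ₐ[N] L, a * b = b * a := fun a b => IsCyclic.commGroup.mul_comm a b
  obtain ⟨n, hker⟩ := CFT.artin_ker N L hcyc p 1 hp (by rw [hn, pow_one]) S hS hab
  obtain ⟨y, hy0, hy⟩ := n6_all hp hn S t hT x hx (n + 1)
  have hx1 : ∀ v ∈ S, x - 1 ∈ v.asIdeal := by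
    intro v hv
    by_cases hpv : (p : 𝓞 N) ∈ v.asIdeal
    · exact Ideal.pow_le_self (Nat.succ_ne_zero (t v)) ((hx v hv).2 hpv)
    · exact (hx v hv).1 hpv
  let cg : CommGroup (L ≃ₐ[N] L) := { (inferInstance : Group (L ≃ₐ[N] L)) with mul_comm := hab }
  have hyL : (y : L) ≠ 0 := fun h => hy0 (RingOfIntegers.coe_eq_zero_iff.1 h)
  have hu1 : algebraMap (𝓞 N) N (Algebra.intNorm (𝓞 N) (𝓞 L) y) = Algebra.norm N (y : L) :=
    Algebra.algebraMap_intNorm y
  generalize Algebra.intNorm (𝓞 N) (𝓞 L) y = u at hy hu1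
  have hn0 : Algebra.norm N (y : L) ≠ 0 := Algebra.norm_ne_zero_iff.2 hyL
  have huN : (u : N) ≠ 0 := by
    intro h
    exact hn0 (hu1.symm.trans h)
  have hxN : (x : N) ≠ 0 := fun h => hx0 (RingOfIntegers.coe_eq_zero_iff.1 h)
  have hray : CFT.Ray S n ((x : N) / (u : N)) := by
    refine ⟨div_ne_zero hxN huN, fun v hv => ?_, fun φ => hre.elim φ⟩
    have e1 : (x : N) / (u : N) - 1 = ((x : N) - (u : N)) / (u : N) := by
      rw [sub_div, div_self huN]
    have e2 : v.valuation N (u : N) = 1 := by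
      have h3 : u ∉ v.asIdeal := by
        intro h4
        have h5 : u - x ∈ v.asIdeal := Ideal.pow_le_self (Nat.succ_ne_zero n) (hy v hv)
        have h6 := hx1 v hv
        have h7 : (1 : 𝓞 N) = u - (u - x) - (x - 1) := by ring
        have h8 : (1 : 𝓞 N) ∈ v.asIdeal := by
          rw [h7]
          exact Ideal.sub_mem _ (Ideal.sub_mem _ h4 h5) h6
        exact v.isPrime.ne_top ((Ideal.eq_top_iff_one _).2 h8)
      have h4 : v.valuation N (algebraMap (𝓞 N) N u) ≤ 1 := v.valuation_le_one u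
      refine le_antisymm h4 ?_
      by_contra h5
      apply h3
      have h6 : v.valuation N (algebraMap (𝓞 N) N u) < 1 := not_le.1 h5
      rw [HeightOneSpectrum.valuation_lt_one_iff_dvd, Ideal.dvd_span_singleton] at h6
      exact h6
    have e3 : v.valuation N ((x : N) - (u : N)) ≤ WithZero.exp (-((n + 1 : ℕ) : ℤ)) := by
      have h3 : x - u ∈ v.asIdeal ^ (n + 1) := by
        have h4 := Ideal.neg_mem_iff _ |>.2 (hy v hv)
        rwa [neg_sub] at h4
      have h4 := (v.intValuation_le_pow_iff_mem (x - u) (n + 1)).2 h3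
      rw [← v.valuation_of_algebraMap (K := N) (x - u)] at h4
      have h5 : (x : N) - (u : N) = algebraMap (𝓞 N) N (x - u) := (map_sub (algebraMap (𝓞 N) N) x u).symm
      rw [h5]
      exact h4
    rw [e1, map_div₀, e2, div_one]
    refine lt_of_le_of_lt e3 ?_
    rw [WithZero.exp_lt_exp]
    push_cast
    omega
  have hmem : CFT.dv (x : N) ∈ CFT.Pray S n ⊔ (CFT.Nd N L).range := by
    have e1 : (x : N) = (x : N) / (u : N) * (u : N) := (div_mul_cancel₀ _ huN).symm
    rw [e1, CFT.dv_mul (div_ne_zero hxN huN) huN]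
    refine AddSubgroup.add_mem _ (AddSubgroup.mem_sup_left (CFT.dv_mem_Pray hray)) (AddSubgroup.mem_sup_right ?_)
    refine ⟨CFT.dv (y : L), ?_⟩
    rw [CFT.Nd_dv hyL, ← hu1]
  have h1 : CFT.art S (MonoidHom.id (L ≃ₐ[N] L)) (CFT.dv (x : N)) = 0 := by
    rw [← AddMonoidHom.mem_ker, hker]
    exact hmem
  have h2 := CFT.art_comp S χ (MonoidHom.id (L ≃ₐ[N] L)) (CFT.dv (x : N))
  rw [h1, map_zero] at h2
  exact h2

end SSR
end

-- from Lib.SSR.CD
section

/-! # SSR, part C: ray class characters with a conductor divisible by squares of primes above p: definitions (no sorry) -/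

open NumberField IsDedekindDomain

namespace SSR

open H55R (Pl es Spl)

/-- The character rho of the cyclic extension L/K of prime degree l with conductor (dividing) f. -/
structure IsRc (K L : Type) [Field K] [NumberField K] [Field L] [NumberField L] [Algebra K L]
    (l : ℕ) (f : Ideal (𝓞 K)) (ρ : Ideal (𝓞 K) →*₀ ℂ) : Prop where
  ne : f ≠ ⊥
  ram : ∀ v : Pl K, f ≤ v.asIdeal ↔ es K L v ≠ 1
  val : ∀ a : Ideal (𝓞 K), a ≠ ⊥ → IsCoprime a f → ρ a ^ l = 1
  zero : ∀ a : Ideal (𝓞 K), ¬ IsCoprime a f → ρ a = 0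
  per : ∀ x y : 𝓞 K, x ≠ 0 → y ≠ 0 → IsCoprime (Ideal.span {x}) f → x - y ∈ f →
    ρ (Ideal.span {x}) = ρ (Ideal.span {y})
  spl : ∀ v : Pl K, ¬ f ≤ v.asIdeal → (ρ v.asIdeal = 1 ↔ Spl K L v)

/-- Characters of order dividing p on ideals, with tame modulus f (prime to p) and modulus v^2 at the primes v in R (above p). -/
structure PCh {K : Type} [Field K] [NumberField K] (p : ℕ) (f : Ideal (𝓞 K)) (R : Finset (HeightOneSpectrum (𝓞 K)))
    (χ : Ideal (𝓞 K) →*₀ ℂ) : Prop where
  ne : f ≠ ⊥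
  cop : IsCoprime f (Ideal.span {(p : 𝓞 K)})
  abv : ∀ v ∈ R, (p : 𝓞 K) ∈ v.asIdeal
  val : ∀ a : Ideal (𝓞 K), a ≠ ⊥ → IsCoprime a (f * ∏ v ∈ R, v.asIdeal) → χ a ^ p = 1
  zero : ∀ a : Ideal (𝓞 K), ¬ IsCoprime a (f * ∏ v ∈ R, v.asIdeal) → χ a = 0
  per : ∀ x y : 𝓞 K, x ≠ 0 → y ≠ 0 → IsCoprime (Ideal.span {x}) (f * ∏ v ∈ R, v.asIdeal) → x - y ∈ f * ∏ v ∈ R, v.asIdeal ^ 2 →
    χ (Ideal.span {x}) = χ (Ideal.span {y})

end SSR
end

-- from Lib.SSR.C2
section

open NumberField IsDedekindDomain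

namespace SSR

open H55R (Pl es Spl)

variable {N : Type} [Field N] [NumberField N] {L : Type} [Field L] [NumberField L] [Algebra N L]

/-! Chunk C2 (M/L). The character of a cyclic extension of degree p, wildly ramified primes allowed. PROOF. S = the finite set of ramified primes (es N L v ≠ 1, i.e. not CFT.Unr: N L v; es =
ramificationIdxIn = the ramification index of every prime above, Galois; CFT.unr_fin in CFT/B19), R = the v in S with p in v, ft = product of the v in S with p not in v.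
Gal(L/N) is cyclic of order p: an injective homomorphism θ : (L ≃ₐ[N] L) →* ℂˣ (a generator to a primitive p-th root of unity; e.g. IsCyclic: MulEquiv with rootsOfUnity / monoidHomOfForallMemZpowers).
φ v := θ (CFT.frob N L v). ρ := H55R.tI f φ with f = ft * prod over R of v^(t v + 1) (see Lib/H55R/Fin.lean: tI_apply, tI_zero, pv, pv_pow; tI f φ a = pv φ a for a coprime to f). Translate:
for a principal ideal (x), x ≠ 0 coprime to f: pv φ (x) = (CFT.art S θ (dv x)).toMul (both are the product of φ v ^ (exponent of v in x) over the v not in S; the exponents at v in S are 0).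
val: φ v ^ p = 1 (order of the group). per: for x, y coprime to f with x - y in f choose u in 𝓞 N with u x - 1 in f (coprime), u ≠ 0, u coprime to f; u x and u y are 1 modulo f: c1_dv gives
art (dv (u x)) = 0 = art (dv (u y)), so art (dv x) = art (dv y) (dv_mul). (x - 1 in f implies x - 1 in v resp. v^(t v + 1).) spl: v not dividing f is unramified; ρ v = θ (frob v) = 1 iff
frob v = 1 iff v splits completely (fs = 1): Frobenius elements exist and generate the decomposition group: CFT library: grep frob_eq_one / splits in Lib/CFT (B*, X*, ZE), or directly: frob v = 1 iff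
x^(Nm v) = x mod w for all x iff the residue degree is 1. ram: prod of primes. htR: TRam gives w with map v = w^p, es = p. -/

theorem c2_od (v : HeightOneSpectrum (𝓞 N)) (y : Nˣ) : CFT.od v (y : N) = H55R.ord v y := by
  unfold CFT.od H55R.ord
  rw [← HeightOneSpectrum.valuationOfNeZero_eq]
  rfl

/-- the value at a principal ideal -/
theorem c2_pv (S : Finset (HeightOneSpectrum (𝓞 N))) (θ : (L ≃ₐ[N] L) →* ℂˣ) (x : 𝓞 N) (hx0 : x ≠ 0)
    (hxS : ∀ v ∈ S, x ∉ v.asIdeal) :
    H55R.pv (fun v => θ (CFT.frob N L v)) (Ideal.span {x}) = Additive.toMul (CFT.art S θ (CFT.dv (x : N))) := by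
  classical
  have hxN : (x : N) ≠ 0 := by simpa using hx0
  let y : Nˣ := Units.mk0 (x : N) hxN
  have hfin : {v : Pl N | x ∈ v.asIdeal}.Finite := by
    have h1 := Ideal.finite_factors (I := Ideal.span {x}) (fun h2 => hx0 (Ideal.span_singleton_eq_bot.1 h2))
    exact h1.subset fun v hv => Ideal.dvd_span_singleton.2 hv
  have hU : ∀ v : Pl N, v ∈ hfin.toFinset ↔ x ∈ v.asIdeal := fun v => by
    rw [Set.Finite.mem_toFinset]
    rfl
  rw [H55R.pv_elem _ x y rfl hfin.toFinset fun v hv => (hU v).2 hv]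
  unfold CFT.art
  rw [Finsupp.liftAddHom_apply, Finsupp.sum_of_support_subset (s := hfin.toFinset)]
  · rw [toMul_sum]
    refine Finset.prod_congr rfl fun v hv => ?_
    have hvS : v ∉ S := fun h => hxS v h ((hU v).1 hv)
    rw [if_neg hvS, CFT.dv_apply]
    show θ (CFT.frob N L v) ^ H55R.ord v y = Additive.toMul ((CFT.od v (x : N)) • Additive.ofMul (θ (CFT.frob N L v)))
    have h1 : CFT.od v (x : N) = H55R.ord v y := c2_od v y
    rw [h1]
    rfl
  · intro v hv
    by_contra h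
    rw [Finsupp.mem_support_iff, CFT.dv_apply] at hv
    apply hv
    have h1 : CFT.od v (x : N) = H55R.ord v y := c2_od v y
    rw [h1]
    exact H55R.HC4_zero x y rfl v fun h2 => h ((hU v).2 h2)
  · intro v _
    rw [map_zero]

theorem c2_es [IsGalois N L] (v : HeightOneSpectrum (𝓞 N)) (w : CFT.Pr L) (hw : CFT.below N w = v) :
    es N L v = w.asIdeal.ramificationIdx (𝓞 N) ∧ H55R.fs N L v = w.asIdeal.inertiaDeg (𝓞 N) := by
  subst hw
  haveI : w.asIdeal.LiesOver (CFT.below N w).asIdeal := ⟨rfl⟩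
  haveI := w.isPrime
  haveI := w.isMaximal
  haveI : (CFT.below N w).asIdeal.IsMaximal := (CFT.below N w).isMaximal
  exact ⟨Ideal.ramificationIdxIn_eq_ramificationIdx (CFT.below N w).asIdeal w.asIdeal Gal(L/N),
    Ideal.inertiaDegIn_eq_inertiaDeg (CFT.below N w).asIdeal w.asIdeal Gal(L/N)⟩

theorem c2_unr [IsGalois N L] (v : HeightOneSpectrum (𝓞 N)) : CFT.Unr N L v ↔ es N L v = 1 := by
  constructor
  · intro h
    obtain ⟨w, hw⟩ := CFT.below_surj (K := N) (L := L) v
    rw [(c2_es v w hw).1]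
    exact h w hw
  · intro h w hw
    rw [← (c2_es v w hw).1]
    exact h

theorem c2_spl [IsGalois N L] (hab : ∀ a b : L ≃ₐ[N] L, a * b = b * a) (v : HeightOneSpectrum (𝓞 N)) (h : es N L v = 1) :
    CFT.frob N L v = 1 ↔ Spl N L v := by
  obtain ⟨w, hw⟩ := CFT.below_surj (K := N) (L := L) v
  have h1 := CFT.order_frob hab ((c2_unr v).2 h) w hw
  unfold Spl
  rw [(c2_es v w hw).2, ← h1, orderOf_eq_one_iff]
  exact ⟨fun h2 => ⟨h, h2⟩, fun h2 => h2.2⟩

/-- a faithful character -/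
theorem c2_theta {G : Type} [Group G] [Finite G] (p : ℕ) (hp : p.Prime) (hG : Nat.card G = p) : ∃ θ : G →* ℂˣ, Function.Injective θ := by
  haveI := Fact.mk hp
  have hcyc : IsCyclic G := isCyclic_of_prime_card hG
  obtain ⟨g, hg⟩ := hcyc.exists_generator
  have hog : orderOf g = p := by rw [orderOf_eq_card_of_forall_mem_zpowers hg, hG]
  have hz := Complex.isPrimitiveRoot_exp p hp.ne_zero
  let z : ℂˣ := hz.toRootsOfUnity
  have hz1 : IsPrimitiveRoot z p := by
    rw [← IsPrimitiveRoot.coe_units_iff]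
    exact hz
  have hoz : orderOf z = p := hz1.eq_orderOf.symm
  let θ : G →* ℂˣ := monoidHomOfForallMemZpowers hg (g' := z) (by rw [hoz, hog])
  have hθg : θ g = z := monoidHomOfForallMemZpowers_apply_gen hg _
  refine ⟨θ, (injective_iff_map_eq_one θ).2 fun a ha => ?_⟩
  obtain ⟨k, rfl⟩ := hg a
  simp only [map_zpow, hθg] at ha
  rw [← orderOf_dvd_iff_zpow_eq_one, hoz] at ha
  show g ^ k = 1
  rw [← orderOf_dvd_iff_zpow_eq_one, hog]
  exact ha

theorem c2_rec [IsGalois N L] {p : ℕ} (hp : p.Prime) (hn : Module.finrank N L = p) (t : HeightOneSpectrum (𝓞 N) → ℕ)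
    (hT : ∀ v : HeightOneSpectrum (𝓞 N), es N L v ≠ 1 → (p : 𝓞 N) ∈ v.asIdeal → ∃ w : HeightOneSpectrum (𝓞 L), TRam p v w (t v)) (hre : IsEmpty (N →+* ℝ)) :
    ∃ (f : Ideal (𝓞 N)) (R : Finset (HeightOneSpectrum (𝓞 N))) (ρ : Ideal (𝓞 N) →*₀ ℂ),
      IsCoprime f (Ideal.span {(p : 𝓞 N)}) ∧ (∀ v : Pl N, f ≤ v.asIdeal ↔ (p : 𝓞 N) ∉ v.asIdeal ∧ es N L v ≠ 1) ∧
      (∀ v, v ∈ R ↔ (p : 𝓞 N) ∈ v.asIdeal ∧ es N L v ≠ 1) ∧ IsRc N L p (f * ∏ v ∈ R, v.asIdeal ^ (t v + 1)) ρ := by
  classical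
  have hcard : Nat.card (L ≃ₐ[N] L) = p := by rw [IsGalois.card_aut_eq_finrank, hn]
  have hfinG : Finite (L ≃ₐ[N] L) := inferInstance
  obtain ⟨θ, hθ⟩ := c2_theta p hp hcard
  haveI := Fact.mk hp
  have hab : ∀ a b : L ≃ₐ[N] L, a * b = b * a := by
    intro a b
    apply hθ
    rw [map_mul, map_mul, mul_comm]
  have hfin := H55R.ram_fin N L
  have hS : ∀ v, v ∈ hfin.toFinset ↔ es N L v ≠ 1 := fun v => by rw [Set.Finite.mem_toFinset]; rfl
  set S := hfin.toFinset with hSdef
  let ft : Ideal (𝓞 N) := ∏ v ∈ S.filter (fun v => (p : 𝓞 N) ∉ v.asIdeal), v.asIdeal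
  let R : Finset (HeightOneSpectrum (𝓞 N)) := S.filter (fun v => (p : 𝓞 N) ∈ v.asIdeal)
  let fr : Ideal (𝓞 N) := ∏ v ∈ R, v.asIdeal ^ (t v + 1)
  have hmemR : ∀ v, v ∈ R ↔ (p : 𝓞 N) ∈ v.asIdeal ∧ es N L v ≠ 1 := fun v => by
    rw [Finset.mem_filter, hS]; exact and_comm
  have hft : ∀ v : Pl N, ft ≤ v.asIdeal ↔ (p : 𝓞 N) ∉ v.asIdeal ∧ es N L v ≠ 1 := by
    intro v
    have hpv := v.isPrime
    show ∏ v ∈ S.filter (fun v => (p : 𝓞 N) ∉ v.asIdeal), v.asIdeal ≤ v.asIdeal ↔ _
    rw [hpv.prod_le]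
    constructor
    · rintro ⟨w, hw, hle⟩
      rw [Finset.mem_filter, hS] at hw
      have hwm := w.isMaximal
      have h1 : w = v := HeightOneSpectrum.ext (hwm.eq_of_le hpv.ne_top hle)
      rw [← h1]
      exact ⟨hw.2, hw.1⟩
    · intro h
      exact ⟨v, by rw [Finset.mem_filter, hS]; exact ⟨h.2, h.1⟩, le_refl _⟩
  have hfr : ∀ v : Pl N, fr ≤ v.asIdeal ↔ (p : 𝓞 N) ∈ v.asIdeal ∧ es N L v ≠ 1 := by
    intro v
    have hpv := v.isPrime
    show ∏ v ∈ R, v.asIdeal ^ (t v + 1) ≤ v.asIdeal ↔ _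
    rw [hpv.prod_le]
    constructor
    · rintro ⟨w, hw, hle⟩
      have hwm := w.isMaximal
      have h1 : w = v := HeightOneSpectrum.ext (hwm.eq_of_le hpv.ne_top (hpv.le_of_pow_le hle))
      rw [← h1]
      exact (hmemR w).1 hw
    · intro h
      exact ⟨v, (hmemR v).2 h, Ideal.pow_le_self (by omega)⟩
  have hf : ∀ v : Pl N, ft * fr ≤ v.asIdeal ↔ es N L v ≠ 1 := by
    intro v
    rw [v.isPrime.mul_le, hft, hfr]
    tauto
  have hcop : IsCoprime ft (Ideal.span {(p : 𝓞 N)}) := by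
    refine IsCoprime.prod_left fun v hv => ?_
    refine H55R.cop_prime v _ ?_
    rw [Ideal.span_singleton_le_iff_mem]
    exact (Finset.mem_filter.1 hv).2
  have hft0 : ft ≠ ⊥ := Finset.prod_ne_zero_iff.2 fun v _ => v.ne_bot
  have hfr0 : fr ≠ ⊥ := Finset.prod_ne_zero_iff.2 fun v _ => pow_ne_zero _ v.ne_bot
  let φ : Pl N → ℂˣ := fun v => θ (CFT.frob N L v)
  refine ⟨ft, R, H55R.tI (ft * fr) φ, hcop, hft, hmemR, ?_⟩
  refine ⟨mul_ne_zero hft0 hfr0, hf, ?_, ?_, ?_, ?_⟩
  · intro a ha hac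
    have hφ : φ ^ p = 1 := by
      funext v
      show θ (CFT.frob N L v) ^ p = 1
      rw [← map_pow, ← hcard, pow_card_eq_one', map_one]
    rw [H55R.tI_apply _ φ ha hac, ← Units.val_pow_eq_pow_val, ← H55R.pv_pow, hφ, H55R.pv_one_fun, Units.val_one]
  · intro a ha
    exact H55R.tI_zero _ φ ha
  · intro x y hx hy hxc hxy
    have hyc : IsCoprime (Ideal.span {y}) (ft * fr) := by
      rw [Ideal.isCoprime_iff_sup_eq] at hxc ⊢
      rw [eq_top_iff, ← hxc]
      refine sup_le ?_ le_sup_right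
      rw [Ideal.span_singleton_le_iff_mem]
      have h1 : x = y + (x - y) := by ring
      rw [h1]
      exact add_mem (Ideal.mem_sup_left (Ideal.mem_span_singleton_self y)) (Ideal.mem_sup_right hxy)
    have hS' : ∀ v : CFT.Pr N, ¬ CFT.Unr N L v → v ∈ S := fun v hv => (hS v).2 (fun h => hv ((c2_unr v).2 h))
    have hnot : ∀ z : 𝓞 N, IsCoprime (Ideal.span {z}) (ft * fr) → ∀ v ∈ S, z ∉ v.asIdeal := by
      intro z hz v hv hzv
      rw [Ideal.isCoprime_iff_sup_eq] at hz
      apply v.isPrime.ne_top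
      rw [eq_top_iff, ← hz]
      exact sup_le ((Ideal.span_singleton_le_iff_mem _).2 hzv) ((hf v).2 ((hS v).1 hv))
    -- one over x modulo f
    obtain ⟨u, hu0, hu⟩ : ∃ u : 𝓞 N, u ≠ 0 ∧ u * x - 1 ∈ ft * fr := by
      obtain ⟨a, ha, b, hb, hab1⟩ := Ideal.isCoprime_iff_exists.1 hxc
      obtain ⟨u, rfl⟩ := Ideal.mem_span_singleton'.1 ha
      by_cases hu0 : u = 0
      · refine ⟨1, one_ne_zero, ?_⟩
        rw [hu0, zero_mul, zero_add] at hab1
        rw [hab1] at hb
        rw [(Ideal.eq_top_iff_one _).2 hb]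
        exact Submodule.mem_top
      · refine ⟨u, hu0, ?_⟩
        have h1 : u * x - 1 = -b := by rw [← hab1]; ring
        rw [h1]
        exact neg_mem hb
    have huy : u * y - 1 ∈ ft * fr := by
      have h1 : u * y - 1 = (u * x - 1) - u * (x - y) := by ring
      rw [h1]
      exact sub_mem hu (Ideal.mul_mem_left _ _ hxy)
    have hart : ∀ z : 𝓞 N, z ≠ 0 → z - 1 ∈ ft * fr → CFT.art S θ (CFT.dv (z : N)) = 0 := by
      intro z hz0 hz
      refine c1_dv hp hn S hS' t (fun v hv hpv => hT v ((hS v).1 hv) hpv) hre θ z hz0 fun v hv => ⟨fun _ => ?_, fun hpv => ?_⟩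
      · exact (hf v).2 ((hS v).1 hv) hz
      · have h1 : fr ≤ v.asIdeal ^ (t v + 1) :=
          Ideal.le_of_dvd (Finset.dvd_prod_of_mem (fun v : HeightOneSpectrum (𝓞 N) => v.asIdeal ^ (t v + 1))
            ((hmemR v).2 ⟨hpv, (hS v).1 hv⟩))
        exact (Ideal.mul_le_right.trans h1) hz
    have h1 := hart (u * x) (mul_ne_zero hu0 hx) hu
    have h2 := hart (u * y) (mul_ne_zero hu0 hy) huy
    have huN : (u : N) ≠ 0 := by simpa using hu0
    have hxN : (x : N) ≠ 0 := by simpa using hx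
    have hyN : (y : N) ≠ 0 := by simpa using hy
    have e1 : ((u * x : 𝓞 N) : N) = (u : N) * (x : N) := by simp
    have e2 : ((u * y : 𝓞 N) : N) = (u : N) * (y : N) := by simp
    rw [e1, CFT.dv_mul huN hxN, map_add] at h1
    rw [e2, CFT.dv_mul huN hyN, map_add] at h2
    have h3 : CFT.art S θ (CFT.dv (x : N)) = CFT.art S θ (CFT.dv (y : N)) := add_left_cancel (h1.trans h2.symm)
    rw [H55R.tI_apply _ φ (by rwa [Ne, Ideal.span_singleton_eq_bot]) hxc,
      H55R.tI_apply _ φ (by rwa [Ne, Ideal.span_singleton_eq_bot]) hyc,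
      c2_pv S θ x hx (hnot x hxc), c2_pv S θ y hy (hnot y hyc), h3]
  · intro v hv
    have hes : es N L v = 1 := by
      by_contra h
      exact hv ((hf v).2 h)
    rw [H55R.tI_apply _ φ v.ne_bot (H55R.cop_prime v _ hv), H55R.pv_prime, Units.val_eq_one, ← c2_spl hab v hes]
    exact ⟨fun h => hθ (by rw [map_one]; exact h), fun h => by show θ (CFT.frob N L v) = 1; rw [h, map_one]⟩

end SSR
end

-- from Lib.H35M.SX1
section

/-! # H35M, part S: the ray class character with its Frobenius values (copy of SSR.c2_rec with one more conjunct) -/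

open NumberField IsDedekindDomain

namespace H35M

open SSR
open H55R (Pl es Spl)

variable {N : Type} [Field N] [NumberField N] {L : Type} [Field L] [NumberField L] [Algebra N L]

theorem rec_full [IsGalois N L] {p : ℕ} (hp : p.Prime) (hn : Module.finrank N L = p) (t : HeightOneSpectrum (𝓞 N) → ℕ)
    (hT : ∀ v : HeightOneSpectrum (𝓞 N), es N L v ≠ 1 → (p : 𝓞 N) ∈ v.asIdeal → ∃ w : HeightOneSpectrum (𝓞 L), TRam p v w (t v)) (hre : IsEmpty (N →+* ℝ)) :
    ∃ (f : Ideal (𝓞 N)) (R : Finset (HeightOneSpectrum (𝓞 N))) (ρ : Ideal (𝓞 N) →*₀ ℂ),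
      IsCoprime f (Ideal.span {(p : 𝓞 N)}) ∧ (∀ v : Pl N, f ≤ v.asIdeal ↔ (p : 𝓞 N) ∉ v.asIdeal ∧ es N L v ≠ 1) ∧
      (∀ v, v ∈ R ↔ (p : 𝓞 N) ∈ v.asIdeal ∧ es N L v ≠ 1) ∧ IsRc N L p (f * ∏ v ∈ R, v.asIdeal ^ (t v + 1)) ρ ∧
      ∃ θ : (L ≃ₐ[N] L) →* ℂˣ, Function.Injective θ ∧ ∀ v : Pl N, ¬ (f * ∏ v ∈ R, v.asIdeal ^ (t v + 1)) ≤ v.asIdeal →
        ρ v.asIdeal = θ (CFT.frob N L v) := by
  classical
  have hcard : Nat.card (L ≃ₐ[N] L) = p := by rw [IsGalois.card_aut_eq_finrank, hn]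
  have hfinG : Finite (L ≃ₐ[N] L) := inferInstance
  obtain ⟨θ, hθ⟩ := c2_theta p hp hcard
  haveI := Fact.mk hp
  have hab : ∀ a b : L ≃ₐ[N] L, a * b = b * a := by
    intro a b
    apply hθ
    rw [map_mul, map_mul, mul_comm]
  have hfin := H55R.ram_fin N L
  have hS : ∀ v, v ∈ hfin.toFinset ↔ es N L v ≠ 1 := fun v => by rw [Set.Finite.mem_toFinset]; rfl
  set S := hfin.toFinset with hSdef
  let ft : Ideal (𝓞 N) := ∏ v ∈ S.filter (fun v => (p : 𝓞 N) ∉ v.asIdeal), v.asIdeal
  let R : Finset (HeightOneSpectrum (𝓞 N)) := S.filter (fun v => (p : 𝓞 N) ∈ v.asIdeal)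
  let fr : Ideal (𝓞 N) := ∏ v ∈ R, v.asIdeal ^ (t v + 1)
  have hmemR : ∀ v, v ∈ R ↔ (p : 𝓞 N) ∈ v.asIdeal ∧ es N L v ≠ 1 := fun v => by
    rw [Finset.mem_filter, hS]; exact and_comm
  have hft : ∀ v : Pl N, ft ≤ v.asIdeal ↔ (p : 𝓞 N) ∉ v.asIdeal ∧ es N L v ≠ 1 := by
    intro v
    have hpv := v.isPrime
    show ∏ v ∈ S.filter (fun v => (p : 𝓞 N) ∉ v.asIdeal), v.asIdeal ≤ v.asIdeal ↔ _
    rw [hpv.prod_le]
    constructor
    · rintro ⟨w, hw, hle⟩
      rw [Finset.mem_filter, hS] at hw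
      have hwm := w.isMaximal
      have h1 : w = v := HeightOneSpectrum.ext (hwm.eq_of_le hpv.ne_top hle)
      rw [← h1]
      exact ⟨hw.2, hw.1⟩
    · intro h
      exact ⟨v, by rw [Finset.mem_filter, hS]; exact ⟨h.2, h.1⟩, le_refl _⟩
  have hfr : ∀ v : Pl N, fr ≤ v.asIdeal ↔ (p : 𝓞 N) ∈ v.asIdeal ∧ es N L v ≠ 1 := by
    intro v
    have hpv := v.isPrime
    show ∏ v ∈ R, v.asIdeal ^ (t v + 1) ≤ v.asIdeal ↔ _
    rw [hpv.prod_le]
    constructor
    · rintro ⟨w, hw, hle⟩
      have hwm := w.isMaximal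
      have h1 : w = v := HeightOneSpectrum.ext (hwm.eq_of_le hpv.ne_top (hpv.le_of_pow_le hle))
      rw [← h1]
      exact (hmemR w).1 hw
    · intro h
      exact ⟨v, (hmemR v).2 h, Ideal.pow_le_self (by omega)⟩
  have hf : ∀ v : Pl N, ft * fr ≤ v.asIdeal ↔ es N L v ≠ 1 := by
    intro v
    rw [v.isPrime.mul_le, hft, hfr]
    tauto
  have hcop : IsCoprime ft (Ideal.span {(p : 𝓞 N)}) := by
    refine IsCoprime.prod_left fun v hv => ?_
    refine H55R.cop_prime v _ ?_
    rw [Ideal.span_singleton_le_iff_mem]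
    exact (Finset.mem_filter.1 hv).2
  have hft0 : ft ≠ ⊥ := Finset.prod_ne_zero_iff.2 fun v _ => v.ne_bot
  have hfr0 : fr ≠ ⊥ := Finset.prod_ne_zero_iff.2 fun v _ => pow_ne_zero _ v.ne_bot
  let φ : Pl N → ℂˣ := fun v => θ (CFT.frob N L v)
  refine ⟨ft, R, H55R.tI (ft * fr) φ, hcop, hft, hmemR, ?_, θ, hθ, fun v hv => ?_⟩
  rotate_left
  · rw [H55R.tI_apply _ φ v.ne_bot (H55R.cop_prime v _ hv), H55R.pv_prime]
  refine ⟨mul_ne_zero hft0 hfr0, hf, ?_, ?_, ?_, ?_⟩
  · intro a ha hac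
    have hφ : φ ^ p = 1 := by
      funext v
      show θ (CFT.frob N L v) ^ p = 1
      rw [← map_pow, ← hcard, pow_card_eq_one', map_one]
    rw [H55R.tI_apply _ φ ha hac, ← Units.val_pow_eq_pow_val, ← H55R.pv_pow, hφ, H55R.pv_one_fun, Units.val_one]
  · intro a ha
    exact H55R.tI_zero _ φ ha
  · intro x y hx hy hxc hxy
    have hyc : IsCoprime (Ideal.span {y}) (ft * fr) := by
      rw [Ideal.isCoprime_iff_sup_eq] at hxc ⊢
      rw [eq_top_iff, ← hxc]
      refine sup_le ?_ le_sup_right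
      rw [Ideal.span_singleton_le_iff_mem]
      have h1 : x = y + (x - y) := by ring
      rw [h1]
      exact add_mem (Ideal.mem_sup_left (Ideal.mem_span_singleton_self y)) (Ideal.mem_sup_right hxy)
    have hS' : ∀ v : CFT.Pr N, ¬ CFT.Unr N L v → v ∈ S := fun v hv => (hS v).2 (fun h => hv ((c2_unr v).2 h))
    have hnot : ∀ z : 𝓞 N, IsCoprime (Ideal.span {z}) (ft * fr) → ∀ v ∈ S, z ∉ v.asIdeal := by
      intro z hz v hv hzv
      rw [Ideal.isCoprime_iff_sup_eq] at hz
      apply v.isPrime.ne_top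
      rw [eq_top_iff, ← hz]
      exact sup_le ((Ideal.span_singleton_le_iff_mem _).2 hzv) ((hf v).2 ((hS v).1 hv))
    -- one over x modulo f
    obtain ⟨u, hu0, hu⟩ : ∃ u : 𝓞 N, u ≠ 0 ∧ u * x - 1 ∈ ft * fr := by
      obtain ⟨a, ha, b, hb, hab1⟩ := Ideal.isCoprime_iff_exists.1 hxc
      obtain ⟨u, rfl⟩ := Ideal.mem_span_singleton'.1 ha
      by_cases hu0 : u = 0
      · refine ⟨1, one_ne_zero, ?_⟩
        rw [hu0, zero_mul, zero_add] at hab1
        rw [hab1] at hb
        rw [(Ideal.eq_top_iff_one _).2 hb]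
        exact Submodule.mem_top
      · refine ⟨u, hu0, ?_⟩
        have h1 : u * x - 1 = -b := by rw [← hab1]; ring
        rw [h1]
        exact neg_mem hb
    have huy : u * y - 1 ∈ ft * fr := by
      have h1 : u * y - 1 = (u * x - 1) - u * (x - y) := by ring
      rw [h1]
      exact sub_mem hu (Ideal.mul_mem_left _ _ hxy)
    have hart : ∀ z : 𝓞 N, z ≠ 0 → z - 1 ∈ ft * fr → CFT.art S θ (CFT.dv (z : N)) = 0 := by
      intro z hz0 hz
      refine c1_dv hp hn S hS' t (fun v hv hpv => hT v ((hS v).1 hv) hpv) hre θ z hz0 fun v hv => ⟨fun _ => ?_, fun hpv => ?_⟩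
      · exact (hf v).2 ((hS v).1 hv) hz
      · have h1 : fr ≤ v.asIdeal ^ (t v + 1) :=
          Ideal.le_of_dvd (Finset.dvd_prod_of_mem (fun v : HeightOneSpectrum (𝓞 N) => v.asIdeal ^ (t v + 1))
            ((hmemR v).2 ⟨hpv, (hS v).1 hv⟩))
        exact (Ideal.mul_le_right.trans h1) hz
    have h1 := hart (u * x) (mul_ne_zero hu0 hx) hu
    have h2 := hart (u * y) (mul_ne_zero hu0 hy) huy
    have huN : (u : N) ≠ 0 := by simpa using hu0
    have hxN : (x : N) ≠ 0 := by simpa using hx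
    have hyN : (y : N) ≠ 0 := by simpa using hy
    have e1 : ((u * x : 𝓞 N) : N) = (u : N) * (x : N) := by simp
    have e2 : ((u * y : 𝓞 N) : N) = (u : N) * (y : N) := by simp
    rw [e1, CFT.dv_mul huN hxN, map_add] at h1
    rw [e2, CFT.dv_mul huN hyN, map_add] at h2
    have h3 : CFT.art S θ (CFT.dv (x : N)) = CFT.art S θ (CFT.dv (y : N)) := add_left_cancel (h1.trans h2.symm)
    rw [H55R.tI_apply _ φ (by rwa [Ne, Ideal.span_singleton_eq_bot]) hxc,
      H55R.tI_apply _ φ (by rwa [Ne, Ideal.span_singleton_eq_bot]) hyc,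
      c2_pv S θ x hx (hnot x hxc), c2_pv S θ y hy (hnot y hyc), h3]
  · intro v hv
    have hes : es N L v = 1 := by
      by_contra h
      exact hv ((hf v).2 h)
    rw [H55R.tI_apply _ φ v.ne_bot (H55R.cop_prime v _ hv), H55R.pv_prime, Units.val_eq_one, ← c2_spl hab v hes]
    exact ⟨fun h => hθ (by rw [map_one]; exact h), fun h => by show θ (CFT.frob N L v) = 1; rw [h, map_one]⟩

end H35M
end

-- from Lib.SSR.C3
section

open NumberField IsDedekindDomain

namespace SSR

open H55R (Pl es Spl)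
open H55P (SplitP chp)

variable {N : Type} [Field N] [NumberField N] {L : Type} [Field L] [NumberField L] [Algebra N L]

/-! Chunk C3 (S). PORTS. c3_split: copy of H55P.rec_split (Lib/H55P/T10.lean; it uses only ram, val, zero, spl of IsRec). c3_pch: from IsRc with all t v = 1: coprime to f * prod v iff coprime to
f * prod v^2 (IsCoprime.pow_right, IsCoprime.mul_right; finite products: IsCoprime.prod_right). c3_chp: as chp_PChr (Lib/H55P/T5.lean). -/

theorem c3_split [IsGalois N L] (p : ℕ) (hp : p.Prime) (hn : Module.finrank N L = p) (f : Ideal (𝓞 N))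
    (ρ : Ideal (𝓞 N) →*₀ ℂ) (hρ : IsRc N L p f ρ) : SplitP N L p ρ := by
  intro w
  obtain ⟨T, hT, hc⟩ := H55P.pt10_card (K' := L) w
  rw [hn] at hc
  have hnorm : ∀ W ∈ T, Ideal.relNorm (𝓞 N) W.asIdeal = w.asIdeal ^ H55R.fs N L w :=
    fun W hW => H55R.CH2_norm w W ((hT W).1 hW)
  refine ⟨T, hT, ?_⟩
  by_cases hfw : f ≤ w.asIdeal
  · have h1 : ρ w.asIdeal = 0 := by
      apply hρ.zero
      intro hcop
      rw [Ideal.isCoprime_iff_sup_eq, sup_eq_left.2 hfw] at hcop
      exact w.isPrime.ne_top hcop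
    have he := (hρ.ram w).1 hfw
    have hdvd : H55R.es N L w ∣ p := ⟨T.card * H55R.fs N L w, by rw [← hc]; ring⟩
    have hep : H55R.es N L w = p := ((Nat.dvd_prime hp).1 hdvd).resolve_left he
    rw [hep] at hc
    have hc1 : T.card * H55R.fs N L w = 1 := by
      have h2 : p * (T.card * H55R.fs N L w) = p * 1 := by
        rw [mul_one]
        nlinarith
      exact Nat.eq_of_mul_eq_mul_left hp.pos h2
    have hcT : T.card = 1 := Nat.eq_one_of_mul_eq_one_right hc1
    have hf1 : H55R.fs N L w = 1 := Nat.eq_one_of_mul_eq_one_left hc1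
    refine Or.inr (Or.inr ⟨h1, hcT, fun W hW => ?_⟩)
    rw [hnorm W hW, hf1, pow_one]
  · have he : H55R.es N L w = 1 := by
      by_contra h
      exact hfw ((hρ.ram w).2 h)
    by_cases h1 : ρ w.asIdeal = 1
    · have hs := (hρ.spl w hfw).1 h1
      have hf1 : H55R.fs N L w = 1 := hs.2
      rw [he, hf1, mul_one, mul_one] at hc
      refine Or.inl ⟨h1, hc, fun W hW => ?_⟩
      rw [hnorm W hW, hf1, pow_one]
    · have hfne : H55R.fs N L w ≠ 1 := fun h => h1 ((hρ.spl w hfw).2 ⟨he, h⟩)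
      rw [he, one_mul] at hc
      have hdvd : H55R.fs N L w ∣ p := ⟨T.card, by rw [← hc]; ring⟩
      have hfp : H55R.fs N L w = p := ((Nat.dvd_prime hp).1 hdvd).resolve_left hfne
      rw [hfp] at hc
      have hcT : T.card = 1 := by
        have h2 : T.card * p = 1 * p := by rw [hc, one_mul]
        exact Nat.eq_of_mul_eq_mul_right hp.pos h2
      refine Or.inr (Or.inl ⟨hρ.val _ w.ne_bot (H55R.cop_prime w f hfw), h1, hcT, fun W hW => ?_⟩)
      rw [hnorm W hW, hfp]

theorem c3_cop (f : Ideal (𝓞 N)) (R : Finset (HeightOneSpectrum (𝓞 N))) (a : Ideal (𝓞 N)) :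
    IsCoprime a (f * ∏ v ∈ R, v.asIdeal ^ 2) ↔ IsCoprime a (f * ∏ v ∈ R, v.asIdeal) := by
  rw [Finset.prod_pow, IsCoprime.mul_right_iff, IsCoprime.mul_right_iff, IsCoprime.pow_right_iff two_pos]

theorem c3_pch (p : ℕ) (f : Ideal (𝓞 N)) (R : Finset (HeightOneSpectrum (𝓞 N))) (ρ : Ideal (𝓞 N) →*₀ ℂ)
    (hρ : IsRc N L p (f * ∏ v ∈ R, v.asIdeal ^ 2) ρ) (hf : IsCoprime f (Ideal.span {(p : 𝓞 N)})) (hR : ∀ v ∈ R, (p : 𝓞 N) ∈ v.asIdeal) : PCh p f R ρ := by
  refine ⟨?_, hf, hR, ?_, ?_, ?_⟩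
  · intro h
    apply hρ.ne
    rw [h]
    exact Ideal.bot_mul _
  · intro a ha hc
    exact hρ.val a ha ((c3_cop f R a).2 hc)
  · intro a hc
    exact hρ.zero a (fun h => hc ((c3_cop f R a).1 h))
  · intro x y hx hy hc hxy
    exact hρ.per x y hx hy ((c3_cop f R _).2 hc) hxy

theorem c3_chp {p : ℕ} {f : Ideal (𝓞 N)} {R : Finset (HeightOneSpectrum (𝓞 N))} {χ : Ideal (𝓞 N) →*₀ ℂ} (h : PCh p f R χ) (j : ℕ) :
    PCh p f R (chp χ j) := by
  refine ⟨h.ne, h.cop, h.abv, ?_, ?_, ?_⟩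
  · intro a ha hc
    rw [H55P.chp_apply, ← pow_mul, mul_comm, pow_mul, h.val a ha hc, one_pow]
  · intro a hc
    rw [H55P.chp_apply, h.zero a hc, zero_pow (Nat.succ_ne_zero j)]
  · intro x y hx hy hc hxy
    rw [H55P.chp_apply, H55P.chp_apply, h.per x y hx hy hc hxy]

end SSR
end
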