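import Mathlib
import Pool.Agent.Lib.H1M.PP2.M002
import Pool.Agent.Lib.H1M.PP2.M009
import Pool.Agent.Lib.H1M.PP2.M021
import Pool.Agent.Lib.H1M.PP2.M025
import Pool.Agent.Lib.H1M.PP2.M054
import Pool.Agent.Lib.H1M.PP2.M058
import Pool.Agent.Lib.H1M.PP2.M061
import Pool.Agent.Lib.H1M.PP2.M062
import Pool.Agent.Lib.H1M.PP2.M072
import Pool.Agent.Lib.H1M.PP2.M073
import Pool.Agent.Lib.H1M.PP2.M078
import Pool.Agent.Lib.H1M.PP2.M079
import Pool.Agent.Lib.H1M.PP2.M081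
import Pool.Agent.Lib.H1M.PP2.M083
import Pool.Agent.Lib.H1M.PP2.M084
import Pool.Agent.Lib.H1M.PP2.M101

/-! Merged copies (to shorten the build) of Lib.H35M.TD, Lib.H35M.KM1, Lib.H35M.TWD, Lib.H35M.TS7C, Lib.H35M.KM2, Lib.H35M.KM3, Lib.H35M.TS5, Lib.H35M.TS1, Lib.H35M.TS2, Lib.H35M.TS3, Lib.H35M.TS4, Lib.H35M.TS9, Lib.H35M.SN1, Lib.H35M.SX3, Lib.H35M.SY2, Lib.H35M.TS7A, Lib.H35M.TS7B. -/

-- from Lib.H35M.TD
section

/-!
# H35M, part T: definitions (twists ramified at P)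

V is a valuation ring of ℂ above p = π π', V(π) < 1, V(π') = 1. Weights modulo P = p^N, additive characters modulo π^N.
-/

open NumberField IsDedekindDomain

namespace H35M

open H55N H55P SSG.E

variable {F : Type} [Field F] [NumberField F] [IQ F] {K : Type} [Field K] [NumberField K] [Algebra F K] {m : ℕ}

/-- Weights on the class of c₀ modulo I: periodic modulo P I, invariant under the units which are 1 modulo J. -/
structure WtJ (J I : Ideal (𝓞 K)) (c₀ : 𝓞 K) (P : ℕ) (φ : 𝓞 K → ℂ) : Prop where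
  per : ∀ x ∈ XS I c₀, ∀ y, x - y ∈ Ideal.span {(P : 𝓞 K)} * I → φ x = φ y
  inv : ∀ x ∈ XS I c₀, ∀ v : (𝓞 K)ˣ, (v : 𝓞 K) - 1 ∈ J → φ ((v : 𝓞 K) * x) = φ x

/-- Additive characters of 𝓞 K modulo n, n in 𝓞 F. -/
structure AddC (n : 𝓞 F) (θ : 𝓞 K → ℂ) : Prop where
  add : ∀ x y, θ (x + y) = θ x * θ y
  per : ∀ x, θ (algebraMap (𝓞 F) (𝓞 K) n * x) = 1

open Classical in
/-- The values of one class: the smoothed series with a weight φ has the value sum φ(a) val(a) at 1, and the sums of val with an additive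
character modulo π^N over the class of y modulo π'^N, multiplied by De, are integral at V. -/
structure ClassV (F : Type) [Field F] [NumberField F] [IQ F] {K : Type} [Field K] [NumberField K] [Algebra F K] {m : ℕ}
    (V : ValuationSubring ℂ) (π π' : 𝓞 F) (p N : ℕ) (De : ℂ) (J I : Ideal (𝓞 K)) (c₀ : 𝓞 K)
    (c : Fin (m + 1) × Fin 2 → Ideal (𝓞 K)) (q : Fin (m + 1) × Fin 2 → ℕ) (val : 𝓞 K → ℂ) : Prop where
  ser : ∀ φ : 𝓞 K → ℂ, WtJ J I c₀ (p ^ N) φ → ∃ Z : ℂ → ℂ, AnalyticOnNhd ℂ Z {s | 1 / 2 < s.re} ∧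
    (∀ T : Set (𝓞 K), Transv J (XS I c₀) T → ∀ s : ℂ, 3 / 2 < s.re →
      HasSum (fun x : T => φ x * (gw c q x * nf F s (x : 𝓞 K))) (Z s)) ∧
    ∀ R : Finset (𝓞 K), RpU I c₀ (p ^ N) R → Z 1 = ∑ a ∈ R, φ a * val a
  int : ∀ R : Finset (𝓞 K), RpU I c₀ (p ^ N) R → ∀ θ : 𝓞 K → ℂ, AddC (π ^ N) θ → ∀ y : 𝓞 K,
    V.valuation (De * ∑ a ∈ R with a - y ∈ Ideal.span {algebraMap (𝓞 F) (𝓞 K) (π' ^ N)}, θ a * val a) ≤ 1

/-- The class values exist for all classes with moduli prime to p. -/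
def CVH (F : Type) [Field F] [NumberField F] [IQ F] (K : Type) [Field K] [NumberField K] [Algebra F K] (m : ℕ)
    (V : ValuationSubring ℂ) (π π' : 𝓞 F) (p : ℕ) (De : ℂ) (M : Ideal (𝓞 F)) (l : 𝓞 F) : Prop :=
  ∀ (b f : Ideal (𝓞 K)), b ≠ ⊥ → IsCoprime b (Ideal.span {(p : 𝓞 K)}) → f ≠ ⊥ → IsCoprime f (Ideal.span {(p : 𝓞 K)}) →
    ∀ c₀ : 𝓞 K, c₀ ∈ b → c₀ ∉ Ideal.span {algebraMap (𝓞 F) (𝓞 K) l} * b → ∀ N : ℕ, 1 ≤ N →
    ∃ Bad : Set (Ideal (𝓞 K)), Bad.Finite ∧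
      ∀ (c : Fin (m + 1) × Fin 2 → Ideal (𝓞 K)) (q : Fin (m + 1) × Fin 2 → ℕ), Smooth c q →
        (∀ i, c i ∉ Bad) → ∃ val : 𝓞 K → ℂ, ClassV F V π π' p N De (mK K M * f) (mK K M * f * b) c₀ c q val

/-- The place: V above p = π π', p split, π below V. -/
structure Plc (F : Type) [Field F] [NumberField F] [IQ F] (V : ValuationSubring ℂ) (π π' : 𝓞 F) (p : ℕ) : Prop where
  prime : p.Prime
  pr : Prime π
  nu : ¬ IsUnit π'
  mul : π * π' = (p : 𝓞 F)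
  cop : IsCoprime π π'
  lt : V.valuation (eF F π) < 1
  one : V.valuation (eF F π') = 1

/-- The data of the character: the conductor f1 f2 f3 with f1 = prod of v^(a v), v in T1, above π, f2 above π', f3 prime to p, the local
components, a primitive additive character. -/
structure ChD (F : Type) [Field F] [NumberField F] [IQ F] {K : Type} [Field K] [NumberField K] [Algebra F K]
    (π π' : 𝓞 F) (p : ℕ) (T1 : Finset (HeightOneSpectrum (𝓞 K))) (a : HeightOneSpectrum (𝓞 K) → ℕ) (f2 f3 : Ideal (𝓞 K))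
    (χ : Ideal (𝓞 K) →*₀ ℂ) (χ1 : MulChar (𝓞 K ⧸ fT T1 a) ℂ) (χ2 : MulChar (𝓞 K ⧸ f2) ℂ) (χ3 : MulChar (𝓞 K ⧸ f3) ℂ)
    (ψa : AddChar (𝓞 K ⧸ fT T1 a) ℂ) : Prop where
  pch : PCh p (fT T1 a * f2 * f3) χ
  pos : ∀ v ∈ T1, 0 < a v
  abv : ∀ v ∈ T1, algebraMap (𝓞 F) (𝓞 K) π ∈ v.asIdeal
  pi1 : ∃ N, algebraMap (𝓞 F) (𝓞 K) (π ^ N) ∈ fT T1 a
  pi2 : ∃ N, algebraMap (𝓞 F) (𝓞 K) (π' ^ N) ∈ f2
  cop3 : IsCoprime f3 (Ideal.span {(p : 𝓞 K)})
  one1 : χ1 ^ p = 1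
  one2 : χ2 ^ p = 1
  one3 : χ3 ^ p = 1
  eq : ∀ x : 𝓞 K, x ≠ 0 → χ (Ideal.span {x}) =
    χ1 (Ideal.Quotient.mk _ x) * χ2 (Ideal.Quotient.mk _ x) * χ3 (Ideal.Quotient.mk _ x)
  prim : PrimM χ1
  psi : ψa.IsPrimitive

end H35M
end

-- from Lib.H35M.KM1
section

/-! # H35M, chunk KM1 (S/M): transport of additive characters to the algebraic closure -/

open NumberField IsDedekindDomain

namespace H35M

open H55N H55P

variable {F : Type} [Field F] [NumberField F] [IQ F] {K : Type} [Field K] [NumberField K] [Algebra F K]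

/-- Chunk KM1 (S/M). PROOF. θ 0 = 1 (per at 0), θ x ^ (p^N) = θ (p^N x) = 1 since n divides p^N. Ω is algebraically closed of characteristic 0 (j): there is a primitive p^N-th root ζ in Ω (IsAlgClosed / HasEnoughRootsOfUnity), j ζ is primitive, so every p^N-th root of
unity of ℂ is j of a power of ζ (IsPrimitiveRoot.eq_pow_of_pow_eq_one). Choose θ' x with j (θ' x) = θ x; the rest by injectivity of j. -/
theorem km_char {Ω : Type} [Field Ω] [IsAlgClosed Ω] (j : Ω →+* ℂ) {p N : ℕ} (hp : p ≠ 0) {n : 𝓞 F} (hn : n ∣ (p : 𝓞 F) ^ N) {θ : 𝓞 K → ℂ}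
    (hθ : AddC n θ) : ∃ θ' : 𝓞 K → Ω, (∀ x, j (θ' x) = θ x) ∧ (∀ x y, θ' (x + y) = θ' x * θ' y) ∧
      ∀ x, θ' (algebraMap (𝓞 F) (𝓞 K) n * x) = 1 := by
  have hj : Function.Injective j := j.injective
  have hch : CharZero Ω := j.charZero
  have h0 : θ 0 = 1 := by
    have h := hθ.per 0
    rwa [mul_zero] at h
  have hsm : ∀ (k : ℕ) (x : 𝓞 K), θ (k • x) = θ x ^ k := by
    intro k x
    induction k with
    | zero => rw [zero_nsmul, pow_zero, h0]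
    | succ k ih => rw [succ_nsmul, hθ.add, ih, pow_succ]
  obtain ⟨k, hk⟩ := hn
  have hroot : ∀ x : 𝓞 K, θ x ^ (p ^ N) = 1 := by
    intro x
    rw [← hsm]
    have e : (p ^ N) • x = algebraMap (𝓞 F) (𝓞 K) n * (algebraMap (𝓞 F) (𝓞 K) k * x) := by
      rw [nsmul_eq_mul, ← mul_assoc, ← map_mul, ← hk]
      push_cast
      simp
    rw [e, hθ.per]
  have hM : p ^ N ≠ 0 := pow_ne_zero _ hp
  have : NeZero (p ^ N) := ⟨hM⟩
  have : NeZero ((p ^ N : ℕ) : Ω) := ⟨by exact_mod_cast hM⟩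
  obtain ⟨ζ, hζ⟩ := HasEnoughRootsOfUnity.exists_primitiveRoot Ω (p ^ N)
  have hζ' : IsPrimitiveRoot (j ζ) (p ^ N) := hζ.map_of_injective hj
  have hex : ∀ x : 𝓞 K, ∃ t : Ω, j t = θ x := by
    intro x
    obtain ⟨i, -, hi⟩ := hζ'.eq_pow_of_pow_eq_one (hroot x)
    exact ⟨ζ ^ i, by rw [map_pow, hi]⟩
  choose θ' hθ' using hex
  refine ⟨θ', hθ', fun x y => hj ?_, fun x => hj ?_⟩
  · rw [hθ', map_mul, hθ', hθ', hθ.add]
  · rw [hθ', hθ.per, map_one]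

end H35M
end

-- from Lib.H35M.TWD
section

/-!
# H35M, part T: the two weights (definitions)
-/

open NumberField IsDedekindDomain

namespace H35M

open H55N H55P SSG.E

variable {F : Type} [Field F] [NumberField F] [IQ F] {K : Type} [Field K] [NumberField K] [Algebra F K] {m : ℕ}

/-- The multiplicative weight. -/
noncomputable def wW {f1 f2 : Ideal (𝓞 K)} (χ1 : MulChar (𝓞 K ⧸ f1) ℂ) (χ2 : MulChar (𝓞 K ⧸ f2) ℂ) (x : 𝓞 K) : ℂ :=
  χ1 (Ideal.Quotient.mk f1 x) * χ2 (Ideal.Quotient.mk f2 x)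

open Classical in
/-- The Ramanujan weight. -/
noncomputable def wC {f1 : Ideal (𝓞 K)} (f2 : Ideal (𝓞 K)) [Fintype (𝓞 K ⧸ f1)] (ψa : AddChar (𝓞 K ⧸ f1) ℂ) (x : 𝓞 K) : ℂ :=
  (if IsUnit (Ideal.Quotient.mk f2 x) then 1 else 0) * ∑ u : (𝓞 K ⧸ f1)ˣ, ψa ((u : 𝓞 K ⧸ f1) * Ideal.Quotient.mk f1 x)

open Classical in
/-- The Euler factor of the primes in T1: sum over S of (-1)^card S Ψ(f1 / prod of S). -/
noncomputable def E1 (ψ : Ideal (𝓞 F) →*₀ 𝓞 F) (T1 : Finset (HeightOneSpectrum (𝓞 K))) (a : HeightOneSpectrum (𝓞 K) → ℕ) : ℂ :=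
  ∑ S ∈ T1.powerset, (-1) ^ S.card * PsiP K ψ (fS T1 S a)

/-- The condition at w. -/
def Cnd (V : ValuationSubring ℂ) (π : 𝓞 F) (ψ : Ideal (𝓞 F) →*₀ 𝓞 F) (w : HeightOneSpectrum (𝓞 K)) : Prop :=
  (algebraMap (𝓞 F) (𝓞 K) π ∈ w.asIdeal → V.valuation (1 - PsiP K ψ w.asIdeal) = 1) ∧
  (algebraMap (𝓞 F) (𝓞 K) π ∉ w.asIdeal → V.valuation (1 - (starRingEnd ℂ) (PsiP K ψ w.asIdeal)) = 1)

/-- The L-series of h continues to Re s > 1/2, value Λ 1 at 1 with V(De Λ(1)) satisfying the predicate. -/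
def LVn (V : ValuationSubring ℂ) (De : ℂ) (h : Ideal (𝓞 K) →*₀ ℂ) : Prop :=
  ∃ Λ : ℂ → ℂ, AnalyticOnNhd ℂ Λ {s | 1 / 2 < s.re} ∧ (∀ s : ℂ, 3 / 2 < s.re → HasSum (tm h s) (Λ s)) ∧
    V.valuation (De * Λ 1) = 1

/-- The same, integral. -/
def LVi (V : ValuationSubring ℂ) (De : ℂ) (h : Ideal (𝓞 K) →*₀ ℂ) : Prop :=
  ∃ Λ : ℂ → ℂ, AnalyticOnNhd ℂ Λ {s | 1 / 2 < s.re} ∧ (∀ s : ℂ, 3 / 2 < s.re → HasSum (tm h s) (Λ s)) ∧
    V.valuation (De * Λ 1) ≤ 1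

end H35M
end

-- from Lib.H35M.TS7C
section

/-! # H35M, chunk TS7C (M): the Euler factors of the primes not above π -/

open NumberField IsDedekindDomain

namespace H35M

open H55N H55P SSG.E

variable {F : Type} [Field F] [NumberField F] [IQ F] {K : Type} [Field K] [NumberField K] [Algebra F K]
  {V : ValuationSubring ℂ} {π π' : 𝓞 F} {p : ℕ} {T1 : Finset (HeightOneSpectrum (𝓞 K))} {a : HeightOneSpectrum (𝓞 K) → ℕ} {f2 f3 : Ideal (𝓞 K)}

/-- An integer of F coprime to π is a unit at V. -/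
theorem ts7c_unit (hP : Plc F V π π' p) (x : 𝓞 F) (hx : IsCoprime (Ideal.span {x}) (Ideal.span {π})) : V.valuation (eF F x) = 1 := by
  rw [Ideal.isCoprime_span_singleton_iff] at hx
  obtain ⟨u, t, hut⟩ := hx
  have h1 := congrArg (fun z => V.valuation (eF F z)) hut
  simp only [map_add, map_mul, map_one] at h1
  have hu := PT1_int (eF F) u V
  have hxx := PT1_int (eF F) x V
  have ht := PT1_int (eF F) t V
  refine le_antisymm hxx ?_
  by_contra hcon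
  have h2 : V.valuation (eF F u * eF F x) < 1 := by
    rw [map_mul]
    exact lt_of_le_of_lt (mul_le_of_le_one_left' hu) (not_le.1 hcon)
  have h3 : V.valuation (eF F t * eF F π) < 1 := by
    rw [map_mul]
    exact lt_of_le_of_lt (mul_le_of_le_one_left' ht) hP.lt
  have h4 := Valuation.map_add_lt V.valuation h2 h3
  rw [h1] at h4
  exact lt_irrefl _ h4

/-- Chunk TS7d (M). The Euler factors of the primes not above π. PROOF. Ψ(w) = 0: both sides are 1. Otherwise conj Ψ(w) * Ψ(w) = absNorm w (PsiP_norm) and tm Ψ 1 w = Ψ(w)/absNorm w = 1/conj Ψ(w); conj Ψ(w) = e(ψ(relNorm w)), relNorm w a power of a prime of F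
different from (π), so π does not divide the generator ψ(relNorm w), and V(e x) = 1 for π not dividing x (x, π coprime: u x + v π = 1, V(v π) < 1). 1 - 1/z = (z - 1)/z. -/
theorem efac (hP : Plc F V π π' p) {M : Ideal (𝓞 F)} {ψ : Ideal (𝓞 F) →*₀ 𝓞 F} (h : IsHecke M ψ)
    (w : HeightOneSpectrum (𝓞 K)) (hw : algebraMap (𝓞 F) (𝓞 K) π ∉ w.asIdeal) :
    V.valuation (1 - tm (PsiP K ψ) 1 w.asIdeal) = V.valuation (1 - (starRingEnd ℂ) (PsiP K ψ w.asIdeal)) := by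
  by_cases h0 : PsiP K ψ w.asIdeal = 0
  · unfold tm
    rw [h0, zero_mul, map_zero]
  · have hcop := (PsiP_ne h w.asIdeal w.ne_bot).1 h0
    have hn := PsiP_norm h w.asIdeal w.ne_bot hcop
    have hcopF := (PsiP_cop h w.asIdeal w.ne_bot).2 hcop
    have hu : V.valuation ((starRingEnd ℂ) (PsiP K ψ w.asIdeal)) = 1 := by
      rw [PsiP_apply, Complex.conj_conj]
      apply ts7c_unit hP
      rw [h.gen _ hcopF]
      have hv0 : w.asIdeal.under (𝓞 F) ≠ ⊥ := mt Ideal.eq_bot_of_comap_eq_bot w.ne_bot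
      have hwm := w.isMaximal
      have hvp : (w.asIdeal.under (𝓞 F)).IsPrime := inferInstance
      have hvm : (w.asIdeal.under (𝓞 F)).IsMaximal := hvp.isMaximal hv0
      have hover : w.asIdeal.LiesOver (w.asIdeal.under (𝓞 F)) := ⟨rfl⟩
      rw [Ideal.relNorm_eq_pow_of_isMaximal w.asIdeal (w.asIdeal.under (𝓞 F)),
        IsCoprime.pow_left_iff (Ideal.inertiaDeg_pos w.asIdeal (𝓞 F)), PT1_max _ _ hvm, Ideal.span_singleton_le_iff_mem]
      exact hw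
    have hc0 : (starRingEnd ℂ) (PsiP K ψ w.asIdeal) ≠ 0 := by
      rw [Ne, map_eq_zero]
      exact h0
    have hN : (Ideal.absNorm w.asIdeal : ℂ) =
        PsiP K ψ w.asIdeal * (starRingEnd ℂ) (PsiP K ψ w.asIdeal) := by
      rw [Complex.mul_conj, Complex.normSq_eq_norm_sq, hn]
      push_cast
      rfl
    have h1 : 1 - tm (PsiP K ψ) 1 w.asIdeal =
        -((1 - (starRingEnd ℂ) (PsiP K ψ w.asIdeal)) / (starRingEnd ℂ) (PsiP K ψ w.asIdeal)) := by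
      unfold tm
      rw [Complex.cpow_neg_one, hN]
      field_simp
      ring
    rw [h1, Valuation.map_neg, map_div₀, hu, div_one]

end H35M
end

-- from Lib.H35M.KM2
section

/-! # H35M, chunk KM2 (M): representatives modulo p^N in one class modulo π'^N -/

open NumberField IsDedekindDomain

namespace H35M

open H55N H55P SSG.E

variable {F : Type} [Field F] [NumberField F] [IQ F] {K : Type} [Field K] [NumberField K] [Algebra F K] {m : ℕ}

/-- Chunk KM2a (S). An element of 𝓞 K is divisible by n iff all its coordinates are. -/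
theorem km_dvd (ω : Module.Basis (Fin (m + 1)) (𝓞 F) (𝓞 K)) (n : 𝓞 F) (x : 𝓞 K) :
    algebraMap (𝓞 F) (𝓞 K) n ∣ x ↔ ∀ s, n ∣ ω.repr x s := by
  constructor
  · rintro ⟨y, rfl⟩ s
    rw [← Algebra.smul_def, map_smul, Finsupp.smul_apply, smul_eq_mul]
    exact Dvd.intro _ rfl
  · intro h
    choose c hc using h
    refine ⟨∑ s, c s • ω s, ?_⟩
    rw [← Algebra.smul_def, Finset.smul_sum]
    conv_lhs => rw [← ω.sum_repr x]
    refine Finset.sum_congr rfl fun s _ => ?_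
    rw [hc s, mul_smul]

theorem km2_repr (ω : Module.Basis (Fin (m + 1)) (𝓞 F) (𝓞 K)) (u : Fin (m + 1) → 𝓞 F) (s : Fin (m + 1)) :
    ω.repr (∑ s, u s • ω s) s = u s := by
  rw [← ω.equivFun_symm_apply, ← ω.equivFun_apply, LinearEquiv.apply_symm_apply]

/-- Chunk KM2 (M). PROOF. Injective: a, a' in R, both = y mod π'^N, coordinates equal mod π^N: π^N | a - a' (KM2a), π'^N | a - a', coprime: p^N | a - a' (p^N = π^N π'^N); a - a' in I (both in XS I c₀, hR.sub), I coprime to p: a - a' in span {p^N} * I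
(span {p^N} ⊓ I = span {p^N} * I for coprime ideals), so a = a' (hR.ex applied to a: both a and a' represent a). Surjective: g given, g s = mk (u s); choose x in 𝓞 K with x = sum u s ω s mod π^N, x = y mod π'^N, x = c₀ mod I
(Chinese remainder: the ideals span {π^N}, span {π'^N}, I are pairwise coprime; I is coprime to p^N); a in R with x - a in span {p^N} * I: a = x mod π^N and mod π'^N; KM2a. -/
theorem km_bij {π π' : 𝓞 F} {p N : ℕ} (hpi : π * π' = (p : 𝓞 F)) (hcop : IsCoprime π π') {I : Ideal (𝓞 K)} (hI : IsCoprime I (Ideal.span {(p : 𝓞 K)})) {c₀ : 𝓞 K}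
    {R : Finset (𝓞 K)} (hR : RpU I c₀ (p ^ N) R) (ω : Module.Basis (Fin (m + 1)) (𝓞 F) (𝓞 K)) (y : 𝓞 K) :
    Set.BijOn (fun (a : 𝓞 K) (s : Fin (m + 1)) => Ideal.Quotient.mk (Ideal.span {π ^ N}) (ω.repr a s))
      {a | a ∈ R ∧ a - y ∈ Ideal.span {algebraMap (𝓞 F) (𝓞 K) (π' ^ N)}} Set.univ := by
  obtain ⟨a1, ha1⟩ : ∃ a1, a1 = algebraMap (𝓞 F) (𝓞 K) (π ^ N) := ⟨_, rfl⟩
  obtain ⟨a2, ha2⟩ : ∃ a2, a2 = algebraMap (𝓞 F) (𝓞 K) (π' ^ N) := ⟨_, rfl⟩
  have h12 : a1 * a2 = ((p ^ N : ℕ) : 𝓞 K) := by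
    rw [ha1, ha2, ← map_mul, ← mul_pow, hpi]
    push_cast
    simp
  have hc12 : IsCoprime a1 a2 := by
    rw [ha1, ha2]
    exact (hcop.pow).map (algebraMap (𝓞 F) (𝓞 K))
  have hIp : IsCoprime (Ideal.span {((p ^ N : ℕ) : 𝓞 K)}) I := by
    have h : IsCoprime I (Ideal.span {(p : 𝓞 K)} ^ N) := hI.pow_right
    rw [Ideal.span_singleton_pow] at h
    push_cast
    exact h.symm
  have key : ∀ x : 𝓞 K, x ∈ I → a1 ∣ x → a2 ∣ x → x ∈ Ideal.span {((p ^ N : ℕ) : 𝓞 K)} * I := by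
    intro x h1 h2 h3
    rw [Ideal.mul_eq_inf_of_isCoprime hIp]
    refine ⟨?_, h1⟩
    have h4 := hc12.mul_dvd h2 h3
    rw [h12] at h4
    exact Ideal.mem_span_singleton.2 h4
  rw [← ha2]
  refine ⟨fun a _ => Set.mem_univ _, ?_, ?_⟩
  · rintro a ⟨haR, hay⟩ a' ⟨haR', hay'⟩ heq
    have h1 : a1 ∣ a - a' := by
      rw [ha1, km_dvd ω]
      intro s
      have h2 := congrFun heq s
      simp only at h2
      rw [Ideal.Quotient.eq, Ideal.mem_span_singleton] at h2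
      rw [map_sub, Finsupp.sub_apply]
      exact h2
    have h2 : a2 ∣ a - a' := by
      have h3 := sub_mem hay hay'
      rw [sub_sub_sub_cancel_right, Ideal.mem_span_singleton] at h3
      exact h3
    have h3 : a - a' ∈ I := by
      have h5 : a - c₀ ∈ I := hR.sub a haR
      have h6 : a' - c₀ ∈ I := hR.sub a' haR'
      have h4 := sub_mem h5 h6
      rwa [sub_sub_sub_cancel_right] at h4
    obtain ⟨b, -, hb⟩ := hR.ex a (hR.sub a haR)
    have e1 := hb a ⟨haR, by rw [sub_self]; exact zero_mem _⟩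
    have e2 := hb a' ⟨haR', key _ h3 h1 h2⟩
    rw [e1, e2]
  · intro g _
    have hu : ∀ s, ∃ u : 𝓞 F, Ideal.Quotient.mk (Ideal.span {π ^ N}) u = g s :=
      fun s => Ideal.Quotient.mk_surjective (g s)
    choose u hu using hu
    obtain ⟨x0, hx0⟩ : ∃ x0, x0 = ∑ s, u s • ω s := ⟨_, rfl⟩
    obtain ⟨r, t, hrt⟩ := hc12
    obtain ⟨k, hk, i, hi, hki⟩ := Ideal.isCoprime_iff_exists.1 hIp
    obtain ⟨x1, hx1⟩ : ∃ x1, x1 = x0 * (t * a2) + y * (r * a1) := ⟨_, rfl⟩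
    obtain ⟨x, hx⟩ : ∃ x, x = x1 * i + c₀ * k := ⟨_, rfl⟩
    have h1 : x1 - x0 = a1 * ((y - x0) * r) := by
      rw [hx1]
      linear_combination x0 * hrt
    have h2 : x1 - y = a2 * ((x0 - y) * t) := by
      rw [hx1]
      linear_combination y * hrt
    have h3 : x - x1 = (c₀ - x1) * k := by
      rw [hx]
      linear_combination x1 * hki
    have h4 : x - c₀ = (x1 - c₀) * i := by
      rw [hx]
      linear_combination c₀ * hki
    have hxX : x ∈ XS I c₀ := by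
      change x - c₀ ∈ I
      rw [h4]
      exact Ideal.mul_mem_left _ _ hi
    obtain ⟨a, ⟨haR, hax⟩, -⟩ := hR.ex x hxX
    have hk2 := Ideal.mem_span_singleton.1 hk
    rw [← h12] at hk2
    have hax1 : x - a ∈ Ideal.span {((p ^ N : ℕ) : 𝓞 K)} := (Ideal.mul_le_left (I := Ideal.span {((p ^ N : ℕ) : 𝓞 K)}) (J := I)) hax
    have hax2 := Ideal.mem_span_singleton.1 hax1
    rw [← h12] at hax2
    have e1 : a1 ∣ a1 * a2 := dvd_mul_right a1 a2
    have e2 : a2 ∣ a1 * a2 := dvd_mul_left a2 a1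
    have d1 : a1 ∣ x - x1 := by
      rw [h3]
      exact (e1.trans hk2).mul_left _
    have d2 : a2 ∣ x - x1 := by
      rw [h3]
      exact (e2.trans hk2).mul_left _
    have d3 : a1 ∣ x - a := e1.trans hax2
    have d4 : a2 ∣ x - a := e2.trans hax2
    refine ⟨a, ⟨haR, ?_⟩, ?_⟩
    · rw [Ideal.mem_span_singleton]
      have e : a - y = (x - x1) - (x - a) + (x1 - y) := by ring
      rw [e, h2]
      exact dvd_add (dvd_sub d2 d4) (dvd_mul_right a2 _)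
    · funext s
      have e : a - x0 = (x - x1) - (x - a) + (x1 - x0) := by ring
      have h5 : a1 ∣ a - x0 := by
        rw [e, h1]
        exact dvd_add (dvd_sub d1 d3) (dvd_mul_right a1 _)
      rw [ha1, km_dvd ω] at h5
      have h6 := h5 s
      rw [map_sub, Finsupp.sub_apply, hx0, km2_repr] at h6
      rw [← hu s, Ideal.Quotient.eq, Ideal.mem_span_singleton]
      exact h6

end H35M
end

-- from Lib.H35M.KM3
section

/-! # H35M, chunk KM3 (M): the sum over one class -/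

open NumberField IsDedekindDomain

namespace H35M

open H55N H55P SSG.E

variable {F : Type} [Field F] [NumberField F] [IQ F] {K : Type} [Field K] [NumberField K] [Algebra F K] {m : ℕ}

open Classical in
/-- Chunk KM3 (M). PROOF. G = 𝓞 F / (π^N), finite (π ≠ 0). Θ : (Fin (m+1) → G) → C, Θ g = η (sum over s of out (g s) ω s) with Quotient.out; Θ (mk of the coordinates of a) = η a: the difference a - sum out .. is divisible by π^N (km_dvd) and η is 1 on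
multiples of π^N; so Θ is additive in the sense Θ 0 = 1, Θ (g + g') = Θ g Θ g'. The sum over {a in R, a = y} is, by km_bij, the sum over all g of Θ g H g (Finset.sum_bij / sum_of BijOn), of norm <= ‖cX X‖^(m+1) by FG.char_fam (KL6). -/
theorem km_sum {C : Type} [NormedField C] [IsUltrametricDist C] {π π' : 𝓞 F} (hπ : π ≠ 0) {p N : ℕ} (hpi : π * π' = (p : 𝓞 F)) (hcop : IsCoprime π π')
    {I : Ideal (𝓞 K)} (hI : IsCoprime I (Ideal.span {(p : 𝓞 K)})) {c₀ : 𝓞 K}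
    {R : Finset (𝓞 K)} (hR : RpU I c₀ (p ^ N) R) (ω : Module.Basis (Fin (m + 1)) (𝓞 F) (𝓞 K)) (y : 𝓞 K)
    [Fintype (𝓞 F ⧸ Ideal.span {π ^ N})] {X : 𝓞 F ⧸ Ideal.span {π ^ N} → C} (hX : FG X) {H : (Fin (m + 1) → 𝓞 F ⧸ Ideal.span {π ^ N}) → C} (hH : FnM X (Fin (m + 1)) H)
    {η : 𝓞 K → C} (hη : ∀ x x', η (x + x') = η x * η x') (hη1 : ∀ x, η (algebraMap (𝓞 F) (𝓞 K) (π ^ N) * x) = 1) :
    ‖∑ a ∈ R with a - y ∈ Ideal.span {algebraMap (𝓞 F) (𝓞 K) (π' ^ N)},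
      η a * H (fun s => Ideal.Quotient.mk (Ideal.span {π ^ N}) (ω.repr a s))‖ ≤ ‖cX X‖ ^ (m + 1) := by
  have h0 : η 0 = 1 := by
    have h := hη1 0
    rwa [mul_zero] at h
  have hcong : ∀ x x' : 𝓞 K, algebraMap (𝓞 F) (𝓞 K) (π ^ N) ∣ x - x' → η x = η x' := by
    rintro x x' ⟨z, hz⟩
    have e : x = x' + algebraMap (𝓞 F) (𝓞 K) (π ^ N) * z := by rw [← hz]; ring
    rw [e, hη, hη1, mul_one]
  have ho : ∀ g : 𝓞 F ⧸ Ideal.span {π ^ N}, ∃ u : 𝓞 F, Ideal.Quotient.mk (Ideal.span {π ^ N}) u = g :=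
    fun g => Ideal.Quotient.mk_surjective g
  choose o ho using ho
  have hod : ∀ (u u' : 𝓞 F), Ideal.Quotient.mk (Ideal.span {π ^ N}) u =
      Ideal.Quotient.mk (Ideal.span {π ^ N}) u' → π ^ N ∣ u - u' := by
    intro u u' h
    rwa [Ideal.Quotient.eq, Ideal.mem_span_singleton] at h
  obtain ⟨Θ, hΘ⟩ : ∃ Θ : (Fin (m + 1) → 𝓞 F ⧸ Ideal.span {π ^ N}) → C,
      Θ = fun g => η (∑ s, o (g s) • ω s) := ⟨_, rfl⟩
  have hΘv : ∀ (u : Fin (m + 1) → 𝓞 F) (g : Fin (m + 1) → 𝓞 F ⧸ Ideal.span {π ^ N}),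
      (∀ s, Ideal.Quotient.mk (Ideal.span {π ^ N}) (u s) = g s) → Θ g = η (∑ s, u s • ω s) := by
    intro u g h
    rw [hΘ]
    refine hcong _ _ ?_
    rw [km_dvd ω]
    intro s
    rw [map_sub, Finsupp.sub_apply, km2_repr, km2_repr]
    refine hod _ _ ?_
    rw [ho, h]
  have hT0 : Θ 0 = 1 := by
    rw [hΘv (fun _ => 0) 0 (fun s => by rw [map_zero]; rfl)]
    simp only [zero_smul, Finset.sum_const_zero]
    exact h0
  have hTadd : ∀ g g', Θ (g + g') = Θ g * Θ g' := by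
    intro g g'
    rw [hΘv (fun s => o (g s) + o (g' s)) (g + g') (fun s => by
      rw [map_add, ho, ho]
      rfl), hΘv (fun s => o (g s)) g (fun s => ho _), hΘv (fun s => o (g' s)) g' (fun s => ho _), ← hη]
    congr 1
    rw [← Finset.sum_add_distrib]
    exact Finset.sum_congr rfl fun s _ => add_smul _ _ _
  have hTa : ∀ a : 𝓞 K, Θ (fun s => Ideal.Quotient.mk (Ideal.span {π ^ N}) (ω.repr a s)) = η a := by
    intro a
    rw [hΘv (fun s => ω.repr a s) _ (fun s => rfl), ω.sum_repr]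
  have hb := km_bij hpi hcop hI hR ω y
  have hsum : ∑ a ∈ R with a - y ∈ Ideal.span {algebraMap (𝓞 F) (𝓞 K) (π' ^ N)},
      η a * H (fun s => Ideal.Quotient.mk (Ideal.span {π ^ N}) (ω.repr a s)) =
      ∑ g : Fin (m + 1) → 𝓞 F ⧸ Ideal.span {π ^ N}, Θ g * H g := by
    refine Finset.sum_nbij (fun a s => Ideal.Quotient.mk (Ideal.span {π ^ N}) (ω.repr a s))
      (fun a _ => Finset.mem_univ _) ?_ ?_ (fun a _ => ?_)
    · intro a ha a' ha' h
      rw [Finset.mem_coe, Finset.mem_filter] at ha ha'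
      exact hb.injOn ha ha' h
    · intro g _
      obtain ⟨a, ha, hag⟩ := hb.surjOn (Set.mem_univ g)
      refine ⟨a, ?_, hag⟩
      rw [Finset.mem_coe, Finset.mem_filter]
      exact ha
    · rw [hTa]
  rw [hsum]
  have h := hX.char_fam hH hT0 hTadd
  rwa [Fintype.card_fin] at h

end H35M
end

-- from Lib.H35M.TS5
section

/-! # H35M, chunk TS5 (M): the series with the multiplicative weight -/

open NumberField IsDedekindDomain

namespace H35M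

open H55N H55P SSG.E

variable {F : Type} [Field F] [NumberField F] [IQ F] {K : Type} [Field K] [NumberField K] [Algebra F K] {m : ℕ}
  {π π' : 𝓞 F} {p : ℕ} {T1 : Finset (HeightOneSpectrum (𝓞 K))} {a : HeightOneSpectrum (𝓞 K) → ℕ} {f2 f3 : Ideal (𝓞 K)}
  {χ : Ideal (𝓞 K) →*₀ ℂ} {χ1 : MulChar (𝓞 K ⧸ fT T1 a) ℂ} {χ2 : MulChar (𝓞 K ⧸ f2) ℂ} {χ3 : MulChar (𝓞 K ⧸ f3) ℂ}
  {ψa : AddChar (𝓞 K ⧸ fT T1 a) ℂ}

/-- The data of the classes. -/
structure ClD (F : Type) [Field F] [NumberField F] [IQ F] {K : Type} [Field K] [NumberField K] [Algebra F K] (M : Ideal (𝓞 F))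
    (ψ : Ideal (𝓞 F) →*₀ 𝓞 F) (p : ℕ) (f3 : Ideal (𝓞 K)) (χ : Ideal (𝓞 K) →*₀ ℂ) (w : 𝓞 K → ℂ) (ι : Type) (b : ι → Ideal (𝓞 K)) (c₀ : ι → 𝓞 K)
    (T : ι → Set (𝓞 K)) (κ ζ : ι → ℂ) : Prop where
  cd : CDJ (mK K M * f3) (Ideal.span {(p : 𝓞 K)} * (mK K M * f3)) ι b c₀ T
  kap : ∀ i, ∀ x ∈ XS (mK K M * f3 * b i) (c₀ i), ∀ d : Ideal (𝓞 K), d * b i = Ideal.span {x} → x ≠ 0 ∧
    (PsiP K ψ * oneI f3) d = κ i * (starRingEnd ℂ) (embF F (Algebra.norm F (x : K))) ∧ χ d = ζ i * w x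

/-- The coefficients of PsiP * oneI f3 satisfy CoefP: port of coef_mulP (H55P/T3) (chunk TS5a, S). -/
theorem ClD.coef {M : Ideal (𝓞 F)} {ψ : Ideal (𝓞 F) →*₀ 𝓞 F} (h : IsHecke M ψ) {w : 𝓞 K → ℂ} {ι : Type} {b : ι → Ideal (𝓞 K)} {c₀ : ι → 𝓞 K}
    {T : ι → Set (𝓞 K)} {κ ζ : ι → ℂ} (hc : ClD F M ψ p f3 χ w ι b c₀ T κ ζ) :
    CoefP F (mK K M * f3) ι b c₀ (PsiP K ψ * oneI f3) κ :=
  coef_mulP h (pt3_oneI_zero f3) (pt3_oneI_norm_le f3) fun i x hx a ha =>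
    ⟨(hc.kap i x hx a ha).1, (hc.kap i x hx a ha).2.1⟩

theorem ts5_norm {f : Ideal (𝓞 K)} (hp : p.Prime) (hχ : PCh p f χ) (a : Ideal (𝓞 K)) : ‖χ a‖ ≤ 1 := by
  by_cases h0 : a = ⊥
  · rw [h0]
    have : χ ⊥ = 0 := map_zero χ
    rw [this, norm_zero]
    exact zero_le_one
  · by_cases h1 : IsCoprime a f
    · have h2 := congrArg norm (hχ.val a h0 h1)
      rw [norm_pow, NormOneClass.norm_one] at h2
      exact ((pow_eq_one_iff_of_nonneg (norm_nonneg _) hp.ne_zero).1 h2).le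
    · rw [hχ.zero a h1, norm_zero]
      exact zero_le_one

open Classical in
theorem ts5_tm {f : Ideal (𝓞 K)} (hχ : PCh p (f * f3) χ) (ψ : Ideal (𝓞 F) →*₀ 𝓞 F) (s : ℂ) (d : Ideal (𝓞 K)) :
    tm (PsiP K ψ * oneI f3 : Ideal (𝓞 K) →*₀ ℂ) s d * χ d = tm (PsiP K ψ * χ : Ideal (𝓞 K) →*₀ ℂ) s d := by
  have h1 : oneI f3 d * χ d = χ d := by
    show (if d ≠ ⊥ ∧ IsCoprime d f3 then (1 : ℂ) else 0) * χ d = χ d
    by_cases hd : d ≠ ⊥ ∧ IsCoprime d f3
    · rw [if_pos hd, one_mul]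
    · rw [if_neg hd, zero_mul]
      by_cases h0 : d = ⊥
      · rw [h0]
        exact (map_zero χ).symm
      · exact (hχ.zero d fun h2 => hd ⟨h0, (IsCoprime.mul_right_iff.1 h2).2⟩).symm
  show (PsiP K ψ d * oneI f3 d) * _ * χ d = (PsiP K ψ d * χ d) * _
  linear_combination (PsiP K ψ d * (Ideal.absNorm d : ℂ) ^ (-s)) * h1

/-- Chunk TS5 (M). PROOF. s1_series (SSG/S/S1) with h = PsiP * oneI f3, θ = χ, φ = w, lam = ζ: HasSum of tm h s a * χ a * prod to the right-hand side. tm h s a * χ a = tm (PsiP * χ) s a: both are 0 if a is not coprime to f3 (χ a = 0: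
PCh.zero, f3 divides the modulus), and oneI f3 a = 1 otherwise (a <> ⊥; for a = ⊥ both sides are 0). The left side: smooth_sum (H55N/H4) for tmH (PsiP * χ) s, as in series_eqP (H55P/T3.lean): HasSum of tm * prod to prod (1 - q tm) * tsum; uniqueness of the sum.
hJ1 from IsHecke.toMod / pt9: hypothesis here. -/
theorem serW {M : Ideal (𝓞 F)} {ψ : Ideal (𝓞 F) →*₀ 𝓞 F} (h : IsHecke M ψ) (hp : p.Prime) (hJ1 : mK K M * f3 ≠ ⊤)
    {f : Ideal (𝓞 K)} (hχ : PCh p (f * f3) χ) {w : 𝓞 K → ℂ} {ι : Type} [Fintype ι] {b : ι → Ideal (𝓞 K)} {c₀ : ι → 𝓞 K}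
    {T : ι → Set (𝓞 K)} {κ ζ : ι → ℂ} (hc : ClD F M ψ p f3 χ w ι b c₀ T κ ζ) {c : Fin (m + 1) × Fin 2 → Ideal (𝓞 K)}
    {q : Fin (m + 1) × Fin 2 → ℕ} (hs : Smooth c q) (hcp : ∀ i, (c i).IsPrime) (hbc : ∀ i j, IsCoprime (b i) (c j)) (Z : ι → ℂ) (s : ℂ)
    (hre : 3 / 2 < s.re) (hZ : ∀ i, HasSum (fun x : T i => w x * (gw c q (x : 𝓞 K) * nf F s (x : 𝓞 K))) (Z i)) :
    (∏ j, (1 - (q j : ℂ) * tm (PsiP K ψ * χ : Ideal (𝓞 K) →*₀ ℂ) s (c j))) * ∑' d, tm (PsiP K ψ * χ : Ideal (𝓞 K) →*₀ ℂ) s d =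
      ∑ i, κ i * ζ i * (Ideal.absNorm (b i) : ℂ) ^ s * Z i := by
  classical
  have hn : ∀ d, ‖(PsiP K ψ * χ : Ideal (𝓞 K) →*₀ ℂ) d‖ ^ 2 ≤ Ideal.absNorm d := by
    intro d
    show ‖PsiP K ψ d * χ d‖ ^ 2 ≤ _
    rw [norm_mul, mul_pow]
    have h2 := PsiP_norm_le (K := K) h d
    have h3 : ‖χ d‖ ^ 2 ≤ 1 := pow_le_one₀ (norm_nonneg _) (ts5_norm hp hχ d)
    calc ‖PsiP K ψ d‖ ^ 2 * ‖χ d‖ ^ 2 ≤ ‖PsiP K ψ d‖ ^ 2 * 1 :=
          mul_le_mul_of_nonneg_left h3 (by positivity)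
      _ = ‖PsiP K ψ d‖ ^ 2 := mul_one _
      _ ≤ _ := h2
  have h1 := smooth_sum (tmH (PsiP K ψ * χ) s) (tm_summable _ hn s hre) c hcp (pt3_ne hs) (pt3_inj hs)
    (fun j => (q j : ℂ))
  have h2 := SSG.S.s1_series (F := F) Ideal.mul_le_right hJ1 hc.cd (hc.coef h) χ w ζ
    (fun i x hx d hd => (hc.kap i x hx d hd).2.2) hcp hbc Z s hZ
  refine h1.unique ?_
  have h3 : (fun d : Ideal (𝓞 K) => (tmH (PsiP K ψ * χ) s) d * ∏ i, (if d ≤ c i then 1 - (q i : ℂ) else 1)) =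
      fun d : Ideal (𝓞 K) => tm (PsiP K ψ * oneI f3 : Ideal (𝓞 K) →*₀ ℂ) s d * χ d *
        ∏ j, (if d ≤ c j then 1 - (q j : ℂ) else 1) := by
    funext d
    rw [ts5_tm hχ ψ s d]
    rfl
  rw [h3]
  exact h2

end H35M
end

-- from Lib.H35M.TS1
section

/-! # H35M, chunk TS1 (M): combinations of additive characters with coefficients depending on the class modulo π'^N -/

open NumberField IsDedekindDomain

namespace H35M

open H55N H55P SSG.E

variable {F : Type} [Field F] [NumberField F] [IQ F] {K : Type} [Field K] [NumberField K] [Algebra F K] {m : ℕ}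
  {V : ValuationSubring ℂ} {π π' : 𝓞 F} {p N : ℕ} {De : ℂ} {J I : Ideal (𝓞 K)} {c₀ : 𝓞 K}
  {c : Fin (m + 1) × Fin 2 → Ideal (𝓞 K)} {q : Fin (m + 1) × Fin 2 → ℕ} {val : 𝓞 K → ℂ}

omit [NumberField K] in
open Classical in
theorem ts1_sum {n : Ideal (𝓞 K)} (De : ℂ) (R : Finset (𝓞 K)) {U : Type} (s : Finset U) (h θ : U → 𝓞 K → ℂ) (val : 𝓞 K → ℂ) :
    De * ∑ a ∈ R, (∑ u ∈ s, h u a * θ u a) * val a =
      ∑ u ∈ s, ∑ C ∈ R.image (Ideal.Quotient.mk n),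
        De * ∑ a ∈ R with Ideal.Quotient.mk n a = C, (h u a * θ u a) * val a := by
  have e1 : ∀ u ∈ s, ∑ C ∈ R.image (Ideal.Quotient.mk n),
      De * ∑ a ∈ R with Ideal.Quotient.mk n a = C, (h u a * θ u a) * val a = De * ∑ a ∈ R, (h u a * θ u a) * val a := by
    intro u _
    rw [← Finset.mul_sum]
    refine congrArg (fun w : ℂ => De * w) ?_
    exact Finset.sum_fiberwise_of_maps_to (fun a ha => Finset.mem_image_of_mem _ ha) _
  rw [Finset.sum_congr rfl e1, ← Finset.mul_sum, Finset.sum_comm]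
  refine congrArg (fun w : ℂ => De * w) ?_
  refine Finset.sum_congr rfl fun a _ => ?_
  rw [Finset.sum_mul]

omit [NumberField K] in
open Classical in
theorem ts1_term {n : Ideal (𝓞 K)} (De : ℂ) (R : Finset (𝓞 K)) (h θ val : 𝓞 K → ℂ)
    (hper : ∀ x y, x - y ∈ n → h x = h y) {C : 𝓞 K ⧸ n} (hC : C ∈ R.image (Ideal.Quotient.mk n)) :
    ∃ y : 𝓞 K, De * ∑ a ∈ R with Ideal.Quotient.mk n a = C, (h a * θ a) * val a =
      h y * (De * ∑ a ∈ R with a - y ∈ n, θ a * val a) := by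
  obtain ⟨y, -, hy⟩ := Finset.mem_image.1 hC
  refine ⟨y, ?_⟩
  subst hy
  rw [mul_left_comm (h y), Finset.mul_sum (f := fun a => θ a * val a)]
  refine congrArg (fun w : ℂ => De * w) ?_
  have e : (R.filter fun a => Ideal.Quotient.mk n a = Ideal.Quotient.mk n y) = R.filter fun a => a - y ∈ n :=
    Finset.filter_congr fun a _ => Ideal.Quotient.eq
  rw [e]
  refine Finset.sum_congr rfl fun a ha => ?_
  rw [hper a y (Finset.mem_filter.1 ha).2]
  ring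

/-- Chunk TS1 (M). PROOF. Let n = span {π'^N}, cl a = the class of a in O_K/n. Exchange the sums: the sum is, over u in s and over the classes C in the image of R under cl, of h u (y_C) * (De * sum over a in R, cl a = C, of θ u a val a), y_C a representative of C in R
(Finset.sum_fiberwise / sum_image; cl a = C iff a - y_C in n: Ideal.Quotient.eq). Each term has valuation <= 1 (hle, hC.int). Valuation.map_sum_le. -/
theorem ts_le (hC : ClassV F V π π' p N De J I c₀ c q val) {R : Finset (𝓞 K)} (hR : RpU I c₀ (p ^ N) R) {U : Type} (s : Finset U)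
    (h θ : U → 𝓞 K → ℂ) (hθ : ∀ u ∈ s, AddC (π ^ N) (θ u))
    (hper : ∀ u ∈ s, ∀ x y, x - y ∈ Ideal.span {algebraMap (𝓞 F) (𝓞 K) (π' ^ N)} → h u x = h u y)
    (hle : ∀ u ∈ s, ∀ x, V.valuation (h u x) ≤ 1) :
    V.valuation (De * ∑ a ∈ R, (∑ u ∈ s, h u a * θ u a) * val a) ≤ 1 := by
  classical
  rw [ts1_sum (n := Ideal.span {algebraMap (𝓞 F) (𝓞 K) (π' ^ N)}) De R s h θ val]
  refine Valuation.map_sum_le _ fun u hu => ?_
  refine Valuation.map_sum_le _ fun C hCC => ?_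
  obtain ⟨y, hy⟩ := ts1_term De R (h u) (θ u) val (hper u hu) hCC
  rw [hy, map_mul]
  exact mul_le_one' (hle u hu y) (hC.int R hR (θ u) (hθ u hu) y)

/-- Chunk TS1b. The same with strict inequalities (Valuation.map_sum_lt). -/
theorem ts_lt (hC : ClassV F V π π' p N De J I c₀ c q val) {R : Finset (𝓞 K)} (hR : RpU I c₀ (p ^ N) R) {U : Type} (s : Finset U)
    (h θ : U → 𝓞 K → ℂ) (hθ : ∀ u ∈ s, AddC (π ^ N) (θ u))
    (hper : ∀ u ∈ s, ∀ x y, x - y ∈ Ideal.span {algebraMap (𝓞 F) (𝓞 K) (π' ^ N)} → h u x = h u y)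
    (hlt : ∀ u ∈ s, ∀ x, V.valuation (h u x) < 1) :
    V.valuation (De * ∑ a ∈ R, (∑ u ∈ s, h u a * θ u a) * val a) < 1 := by
  classical
  rw [ts1_sum (n := Ideal.span {algebraMap (𝓞 F) (𝓞 K) (π' ^ N)}) De R s h θ val]
  refine Valuation.map_sum_lt _ one_ne_zero fun u hu => ?_
  refine Valuation.map_sum_lt _ one_ne_zero fun C hCC => ?_
  obtain ⟨y, hy⟩ := ts1_term De R (h u) (θ u) val (hper u hu) hCC
  rw [hy, map_mul]
  exact mul_lt_one_of_lt_of_le (hlt u hu y) (hC.int R hR (θ u) (hθ u hu) y)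

end H35M
end

-- from Lib.H35M.TS2
section

/-! # H35M, chunk TS2 (S/M): the weights are periodic and invariant -/

open NumberField IsDedekindDomain

namespace H35M

open H55N H55P SSG.E

variable {F : Type} [Field F] [NumberField F] [IQ F] {K : Type} [Field K] [NumberField K] [Algebra F K] {m : ℕ}
  {π π' : 𝓞 F} {p N : ℕ} {T1 : Finset (HeightOneSpectrum (𝓞 K))} {a : HeightOneSpectrum (𝓞 K) → ℕ} {f2 f3 : Ideal (𝓞 K)}
  {χ : Ideal (𝓞 K) →*₀ ℂ} {χ1 : MulChar (𝓞 K ⧸ fT T1 a) ℂ} {χ2 : MulChar (𝓞 K ⧸ f2) ℂ} {χ3 : MulChar (𝓞 K ⧸ f3) ℂ}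
  {ψa : AddChar (𝓞 K ⧸ fT T1 a) ℂ}

omit [NumberField F] [IQ F] [NumberField K] in
theorem ts2_mem1 (hpi : π * π' = (p : 𝓞 F)) {g I : Ideal (𝓞 K)} (hN : algebraMap (𝓞 F) (𝓞 K) (π ^ N) ∈ g) {z : 𝓞 K}
    (hz : z ∈ Ideal.span {((p ^ N : ℕ) : 𝓞 K)} * I) : z ∈ g := by
  have h0 : Ideal.span {((p ^ N : ℕ) : 𝓞 K)} * I ≤ Ideal.span {((p ^ N : ℕ) : 𝓞 K)} := Ideal.mul_le_left
  have h1 : z ∈ Ideal.span {((p ^ N : ℕ) : 𝓞 K)} := h0 hz
  obtain ⟨t, rfl⟩ := Ideal.mem_span_singleton'.1 h1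
  have h2 : ((p ^ N : ℕ) : 𝓞 K) = algebraMap (𝓞 F) (𝓞 K) (π ^ N) * algebraMap (𝓞 F) (𝓞 K) (π' ^ N) := by
    rw [← map_mul, ← mul_pow, hpi, map_pow, map_natCast, Nat.cast_pow]
  rw [h2]
  exact g.mul_mem_left _ (g.mul_mem_right _ hN)

omit [NumberField F] [IQ F] [NumberField K] in
theorem ts2_mem2 (hpi : π * π' = (p : 𝓞 F)) {g I : Ideal (𝓞 K)} (hN : algebraMap (𝓞 F) (𝓞 K) (π' ^ N) ∈ g) {z : 𝓞 K}
    (hz : z ∈ Ideal.span {((p ^ N : ℕ) : 𝓞 K)} * I) : z ∈ g :=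
  ts2_mem1 (π := π') (π' := π) (by rw [mul_comm]; exact hpi) hN hz

/-- Chunk TS2a (S). p^N = π^N π'^N lies in f1 and in f2 (ideals), so x - y in span {p^N} I lies in f1 and in f2. For a unit v = 1 mod J ⊆ f3: χ (span {v}) = χ 1 = 1 (span {v} = ⊤ = 1) = χ1 v χ2 v χ3 v, χ3 v = χ3 1 = 1. So χ1 v χ2 v = 1; χ1, χ2 are
multiplicative. -/
theorem wtW (hpi : π * π' = (p : 𝓞 F)) (hD : ChD F π π' p T1 a f2 f3 χ χ1 χ2 χ3 ψa) (hN1 : algebraMap (𝓞 F) (𝓞 K) (π ^ N) ∈ fT T1 a)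
    (hN2 : algebraMap (𝓞 F) (𝓞 K) (π' ^ N) ∈ f2) {J : Ideal (𝓞 K)} (hJ : J ≤ f3) (I : Ideal (𝓞 K)) (c₀ : 𝓞 K) :
    WtJ J I c₀ (p ^ N) (wW χ1 χ2) := by
  refine ⟨fun x _ y hxy => ?_, fun x _ v hv => ?_⟩
  · have e1 : Ideal.Quotient.mk (fT T1 a) x = Ideal.Quotient.mk (fT T1 a) y := Ideal.Quotient.eq.2 (ts2_mem1 hpi hN1 hxy)
    have e2 : Ideal.Quotient.mk f2 x = Ideal.Quotient.mk f2 y := Ideal.Quotient.eq.2 (ts2_mem2 hpi hN2 hxy)
    unfold wW
    rw [e1, e2]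
  · have h1 : Ideal.span {(v : 𝓞 K)} = 1 := by
      rw [Ideal.one_eq_top]
      exact Ideal.span_singleton_eq_top.2 v.isUnit
    have h2 := hD.eq (v : 𝓞 K) v.ne_zero
    have h3 : Ideal.Quotient.mk f3 (v : 𝓞 K) = 1 := by
      rw [← map_one (Ideal.Quotient.mk f3)]
      exact Ideal.Quotient.eq.2 (hJ hv)
    rw [h1, map_one, h3, map_one, mul_one] at h2
    unfold wW
    rw [map_mul, map_mul, map_mul, map_mul]
    calc _ = (χ1 (Ideal.Quotient.mk (fT T1 a) (v : 𝓞 K)) * χ2 (Ideal.Quotient.mk f2 (v : 𝓞 K))) *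
          (χ1 (Ideal.Quotient.mk (fT T1 a) x) * χ2 (Ideal.Quotient.mk f2 x)) := by ring
      _ = _ := by rw [← h2, one_mul]

/-- Chunk TS2b (S). Periodic as in TS2a. Invariance (even under all units v): mk v is a unit modulo f1, so u -> u mk v is a bijection of the units modulo f1; mk v is a unit modulo f2, so IsUnit (mk (v x)) iff IsUnit (mk x). -/
theorem wtC (hpi : π * π' = (p : 𝓞 F)) [Fintype (𝓞 K ⧸ fT T1 a)] (hN1 : algebraMap (𝓞 F) (𝓞 K) (π ^ N) ∈ fT T1 a)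
    (hN2 : algebraMap (𝓞 F) (𝓞 K) (π' ^ N) ∈ f2) (J I : Ideal (𝓞 K)) (c₀ : 𝓞 K) (ψa : AddChar (𝓞 K ⧸ fT T1 a) ℂ) :
    WtJ J I c₀ (p ^ N) (wC f2 ψa) := by
  classical
  refine ⟨fun x _ y hxy => ?_, fun x _ v _ => ?_⟩
  · have e1 : Ideal.Quotient.mk (fT T1 a) x = Ideal.Quotient.mk (fT T1 a) y := Ideal.Quotient.eq.2 (ts2_mem1 hpi hN1 hxy)
    have e2 : Ideal.Quotient.mk f2 x = Ideal.Quotient.mk f2 y := Ideal.Quotient.eq.2 (ts2_mem2 hpi hN2 hxy)
    unfold wC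
    rw [e1, e2]
  · have e1 : IsUnit (Ideal.Quotient.mk f2 ((v : 𝓞 K) * x)) ↔ IsUnit (Ideal.Quotient.mk f2 x) := by
      rw [map_mul]
      exact (Units.map (Ideal.Quotient.mk f2 : 𝓞 K →* 𝓞 K ⧸ f2) v).isUnit_units_mul _
    have e2 : ∑ u : (𝓞 K ⧸ fT T1 a)ˣ, ψa ((u : 𝓞 K ⧸ fT T1 a) * Ideal.Quotient.mk (fT T1 a) ((v : 𝓞 K) * x)) =
        ∑ u : (𝓞 K ⧸ fT T1 a)ˣ, ψa ((u : 𝓞 K ⧸ fT T1 a) * Ideal.Quotient.mk (fT T1 a) x) := by
      refine Fintype.sum_equiv (Equiv.mulRight (Units.map (Ideal.Quotient.mk (fT T1 a) : 𝓞 K →* 𝓞 K ⧸ fT T1 a) v)) _ _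
        fun u => ?_
      rw [Equiv.coe_mulRight, Units.val_mul, Units.coe_map, (Ideal.Quotient.mk (fT T1 a)).map_mul, mul_assoc]
      rfl
    unfold wC
    rw [e2]
    congr 1
    exact if_congr e1 rfl rfl

/-- Chunk TS2c (S). -/
theorem addC_psi (hN1 : algebraMap (𝓞 F) (𝓞 K) (π ^ N) ∈ fT T1 a) (ψa : AddChar (𝓞 K ⧸ fT T1 a) ℂ) (u : 𝓞 K ⧸ fT T1 a) :
    AddC (π ^ N) (fun x : 𝓞 K => ψa (u * Ideal.Quotient.mk (fT T1 a) x)) := by
  refine ⟨fun x y => ?_, fun x => ?_⟩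
  · rw [map_add, mul_add, AddChar.map_add_eq_mul]
  · rw [Ideal.Quotient.eq_zero_iff_mem.2 ((fT T1 a).mul_mem_right x hN1), mul_zero, AddChar.map_zero_eq_one]

end H35M
end

-- from Lib.H35M.TS3
section

/-! # H35M, chunk TS3 (M): the comparison of the two weights -/

open NumberField IsDedekindDomain

namespace H35M

open H55N H55P SSG.E

variable {F : Type} [Field F] [NumberField F] [IQ F] {K : Type} [Field K] [NumberField K] [Algebra F K] {m : ℕ}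
  {V : ValuationSubring ℂ} {π π' : 𝓞 F} {p N : ℕ} {De : ℂ} {J I : Ideal (𝓞 K)} {c₀ : 𝓞 K}
  {c : Fin (m + 1) × Fin 2 → Ideal (𝓞 K)} {q : Fin (m + 1) × Fin 2 → ℕ} {val : 𝓞 K → ℂ}
  {T1 : Finset (HeightOneSpectrum (𝓞 K))} {a : HeightOneSpectrum (𝓞 K) → ℕ} {f2 f3 : Ideal (𝓞 K)}
  {χ : Ideal (𝓞 K) →*₀ ℂ} {χ1 : MulChar (𝓞 K ⧸ fT T1 a) ℂ} {χ2 : MulChar (𝓞 K ⧸ f2) ℂ} {χ3 : MulChar (𝓞 K ⧸ f3) ℂ}
  {ψa : AddChar (𝓞 K ⧸ fT T1 a) ℂ}

theorem ts3_pow {R : Type} [CommRing R] {p : ℕ} {χ : MulChar R ℂ} (h : χ ^ p = 1) {z : R} (hz : IsUnit z) : χ z ^ p = 1 := by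
  obtain ⟨u, rfl⟩ := hz
  rw [← MulChar.pow_apply_coe, h, MulChar.one_apply_coe]

theorem ts3_le {R : Type} [CommRing R] {p : ℕ} (hp : p ≠ 0) {χ : MulChar R ℂ} (h : χ ^ p = 1) (V : ValuationSubring ℂ) (z : R) :
    V.valuation (χ z) ≤ 1 := by
  by_cases hz : IsUnit z
  · have h1 := congrArg V.valuation (ts3_pow h hz)
    rw [map_pow, map_one] at h1
    exact (pt6_le hp h1).le
  · rw [MulChar.map_nonunit _ hz, map_zero]
    exact zero_le_one

theorem ts3_inv {R : Type} [CommRing R] {p : ℕ} {χ : MulChar R ℂ} (h : χ ^ p = 1) : χ⁻¹ ^ p = 1 := by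
  rw [inv_pow, h, inv_one]

theorem ts3_units {R : Type} [CommRing R] [Fintype R] [Fintype Rˣ] (G : R → ℂ) (h : ∀ z, ¬ IsUnit z → G z = 0) :
    ∑ u : Rˣ, G (u : R) = ∑ u : R, G u := by
  refine Fintype.sum_of_injective (fun u : Rˣ => (u : R)) Units.val_injective (fun u : Rˣ => G (u : R)) G ?_ (fun _ => rfl)
  intro z hz
  apply h
  rintro ⟨u, hu⟩
  exact hz ⟨u, hu⟩

/-- Chunk TS3a (S/M). gs_shift for χ1⁻¹ (PrimM.inv), (χ1⁻¹)⁻¹ = χ1; the sum over all u is the sum over the units (χ1⁻¹ u = 0 otherwise). -/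
theorem expW (hD : ChD F π π' p T1 a f2 f3 χ χ1 χ2 χ3 ψa) [Fintype (𝓞 K ⧸ fT T1 a)] (x : 𝓞 K) :
    gaussSum χ1⁻¹ ψa * wW χ1 χ2 x = ∑ u : 𝓞 K ⧸ fT T1 a, (χ2 (Ideal.Quotient.mk f2 x) * χ1⁻¹ u) * ψa (u * Ideal.Quotient.mk _ x) := by
  have h1 := gs_shift (PrimM.inv hD.prim) ψa (Ideal.Quotient.mk (fT T1 a) x)
  rw [inv_inv] at h1
  have h2 : ∑ u : 𝓞 K ⧸ fT T1 a, (χ2 (Ideal.Quotient.mk f2 x) * χ1⁻¹ u) * ψa (u * Ideal.Quotient.mk _ x) =
      χ2 (Ideal.Quotient.mk f2 x) * ∑ u : 𝓞 K ⧸ fT T1 a, χ1⁻¹ u * ψa (u * Ideal.Quotient.mk _ x) := by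
    rw [Finset.mul_sum]
    exact Finset.sum_congr rfl fun u _ => mul_assoc _ _ _
  rw [h2, h1]
  unfold wW
  ring

/-- Chunk TS3b (M). ts_le (TS1) with U = O/f1, h u x = χ2 (mk x) χ1⁻¹ u (valuation 0 or 1: values of characters with χ^p = 1 are 0 or p-th roots of unity), θ u = addC_psi. -/
theorem intW (hP : Plc F V π π' p) (hC : ClassV F V π π' p N De J I c₀ c q val) {R : Finset (𝓞 K)} (hR : RpU I c₀ (p ^ N) R)
    (hD : ChD F π π' p T1 a f2 f3 χ χ1 χ2 χ3 ψa) [Fintype (𝓞 K ⧸ fT T1 a)] (hN1 : algebraMap (𝓞 F) (𝓞 K) (π ^ N) ∈ fT T1 a)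
    (hN2 : algebraMap (𝓞 F) (𝓞 K) (π' ^ N) ∈ f2) :
    V.valuation (De * ∑ x ∈ R, (gaussSum χ1⁻¹ ψa * wW χ1 χ2 x) * val x) ≤ 1 := by
  have h1 : ∀ x ∈ R, (gaussSum χ1⁻¹ ψa * wW χ1 χ2 x) * val x =
      (∑ u : 𝓞 K ⧸ fT T1 a, (χ2 (Ideal.Quotient.mk f2 x) * χ1⁻¹ u) * ψa (u * Ideal.Quotient.mk _ x)) * val x := by
    intro x _
    rw [expW hD x]
  rw [Finset.sum_congr rfl h1]
  refine ts_le hC hR Finset.univ (fun u x => χ2 (Ideal.Quotient.mk f2 x) * χ1⁻¹ u)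
    (fun u x => ψa (u * Ideal.Quotient.mk _ x)) (fun u _ => addC_psi hN1 ψa u) ?_ ?_
  · intro u _ x y hxy
    have h2 : Ideal.Quotient.mk f2 x = Ideal.Quotient.mk f2 y := by
      rw [Ideal.Quotient.eq]
      exact (Ideal.span_singleton_le_iff_mem _).2 hN2 hxy
    show χ2 (Ideal.Quotient.mk f2 x) * χ1⁻¹ u = χ2 (Ideal.Quotient.mk f2 y) * χ1⁻¹ u
    rw [h2]
  · intro u _ x
    rw [map_mul]
    exact mul_le_one' (ts3_le hP.prime.ne_zero hD.one2 V _) (ts3_le hP.prime.ne_zero (ts3_inv hD.one1) V _)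

/-- Chunk TS3c (M). ζ τ wW x - wC x = sum over the units u of (ζ χ2 x χ1⁻¹ u - [mk x unit mod f2]) ψa(u x); the coefficient is 0 for mk x not a unit modulo f2, and (a p-th root of unity) - 1 otherwise, valuation < 1 (root_max, H55P/T6; V(p) < 1:
p = π π'). ts_lt with U = the units of O/f1 (s = univ). -/
theorem cmpW (hP : Plc F V π π' p) (hC : ClassV F V π π' p N De J I c₀ c q val) {R : Finset (𝓞 K)} (hR : RpU I c₀ (p ^ N) R)
    (hD : ChD F π π' p T1 a f2 f3 χ χ1 χ2 χ3 ψa) [Fintype (𝓞 K ⧸ fT T1 a)] (hN1 : algebraMap (𝓞 F) (𝓞 K) (π ^ N) ∈ fT T1 a)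
    (hN2 : algebraMap (𝓞 F) (𝓞 K) (π' ^ N) ∈ f2) (ζ : ℂ) (hζ : ζ ^ p = 1) :
    V.valuation (De * ∑ x ∈ R, (ζ * (gaussSum χ1⁻¹ ψa * wW χ1 χ2 x) - wC f2 ψa x) * val x) < 1 := by
  classical
  have hVp : V.valuation (p : ℂ) < 1 := by
    have h1 : (p : ℂ) = eF F π * eF F π' := by
      rw [← map_mul, hP.mul, map_natCast]
    rw [h1, map_mul, hP.one, mul_one]
    exact hP.lt
  have h1 : ∀ x ∈ R, (ζ * (gaussSum χ1⁻¹ ψa * wW χ1 χ2 x) - wC f2 ψa x) * val x =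
      (∑ u : (𝓞 K ⧸ fT T1 a)ˣ, (ζ * (χ2 (Ideal.Quotient.mk f2 x) * χ1⁻¹ (u : 𝓞 K ⧸ fT T1 a)) -
        (if IsUnit (Ideal.Quotient.mk f2 x) then 1 else 0)) * ψa ((u : 𝓞 K ⧸ fT T1 a) * Ideal.Quotient.mk _ x)) * val x := by
    intro x _
    rw [expW hD x]
    refine congrArg (fun w : ℂ => w * val x) ?_
    rw [← ts3_units (fun u => (χ2 (Ideal.Quotient.mk f2 x) * χ1⁻¹ u) * ψa (u * Ideal.Quotient.mk _ x)) (by
      intro z hz
      show (χ2 (Ideal.Quotient.mk f2 x) * χ1⁻¹ z) * ψa (z * Ideal.Quotient.mk _ x) = 0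
      rw [MulChar.map_nonunit _ hz, mul_zero, zero_mul])]
    unfold wC
    rw [Finset.mul_sum, Finset.mul_sum, ← Finset.sum_sub_distrib]
    exact Finset.sum_congr rfl fun u _ => by ring
  rw [Finset.sum_congr rfl h1]
  refine ts_lt (U := (𝓞 K ⧸ fT T1 a)ˣ) hC hR Finset.univ (fun u x => ζ * (χ2 (Ideal.Quotient.mk f2 x) * χ1⁻¹ (u : 𝓞 K ⧸ fT T1 a)) -
        (if IsUnit (Ideal.Quotient.mk f2 x) then 1 else 0))
    (fun u x => ψa ((u : 𝓞 K ⧸ fT T1 a) * Ideal.Quotient.mk _ x)) (fun u _ => addC_psi hN1 ψa (u : 𝓞 K ⧸ fT T1 a)) ?_ ?_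
  · intro u _ x y hxy
    have h2 : Ideal.Quotient.mk f2 x = Ideal.Quotient.mk f2 y := by
      rw [Ideal.Quotient.eq]
      exact (Ideal.span_singleton_le_iff_mem _).2 hN2 hxy
    show ζ * (χ2 (Ideal.Quotient.mk f2 x) * χ1⁻¹ (u : 𝓞 K ⧸ fT T1 a)) - (if IsUnit (Ideal.Quotient.mk f2 x) then 1 else 0) =
      ζ * (χ2 (Ideal.Quotient.mk f2 y) * χ1⁻¹ (u : 𝓞 K ⧸ fT T1 a)) - (if IsUnit (Ideal.Quotient.mk f2 y) then 1 else 0)
    rw [h2]
  · intro u _ x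
    show V.valuation (ζ * (χ2 (Ideal.Quotient.mk f2 x) * χ1⁻¹ (u : 𝓞 K ⧸ fT T1 a)) - (if IsUnit (Ideal.Quotient.mk f2 x) then 1 else 0)) < 1
    by_cases hx : IsUnit (Ideal.Quotient.mk f2 x)
    · rw [if_pos hx]
      apply root_max p hP.prime V hVp
      rw [mul_pow, mul_pow, hζ, ts3_pow hD.one2 hx, ts3_pow (ts3_inv hD.one1) u.isUnit, one_mul, one_mul]
    · rw [if_neg hx, MulChar.map_nonunit _ hx, zero_mul, mul_zero, sub_zero, map_zero]
      exact zero_lt_one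

end H35M
end

-- from Lib.H35M.TS4
section

/-! # H35M, chunk TS4 (M): the constants of the classes -/

open NumberField IsDedekindDomain

namespace H35M

open H55N H55P SSG.E

variable {F : Type} [Field F] [NumberField F] [IQ F] {K : Type} [Field K] [NumberField K] [Algebra F K]
  {π π' : 𝓞 F} {p : ℕ} {T1 : Finset (HeightOneSpectrum (𝓞 K))} {a : HeightOneSpectrum (𝓞 K) → ℕ} {f2 f3 : Ideal (𝓞 K)}
  {χ : Ideal (𝓞 K) →*₀ ℂ} {χ1 : MulChar (𝓞 K ⧸ fT T1 a) ℂ} {χ2 : MulChar (𝓞 K ⧸ f2) ℂ} {χ3 : MulChar (𝓞 K ⧸ f3) ℂ}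
  {ψa : AddChar (𝓞 K ⧸ fT T1 a) ℂ}

theorem ts4_chr (p : ℕ) (f : Ideal (𝓞 K)) (hf : f ≠ ⊥) (hc : IsCoprime f (Ideal.span {(p : 𝓞 K)})) :
    PChr p f (oneI f) where
  ne := hf
  cop := hc
  val x hx hxc := by
    have h1 : oneI f x = 1 := if_pos ⟨hx, hxc⟩
    rw [h1, one_pow]
  zero x hx := if_neg (fun h => hx h.2)
  per x y hx hy hxf hxy := by
    have h1 : oneI f (Ideal.span {x}) = 1 :=
      if_pos ⟨fun h => hx (Ideal.span_singleton_eq_bot.1 h), hxf⟩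
    have h2 : IsCoprime (Ideal.span {y}) f := by
      rw [Ideal.isCoprime_iff_exists] at hxf ⊢
      obtain ⟨i, hi, j, hj, hij⟩ := hxf
      obtain ⟨r, rfl⟩ := Ideal.mem_span_singleton.1 hi
      refine ⟨y * r, Ideal.mul_mem_right _ _ (Ideal.mem_span_singleton_self y),
        j + (x - y) * r, Ideal.add_mem _ hj (Ideal.mul_mem_right _ _ hxy), ?_⟩
      linear_combination hij
    have h3 : oneI f (Ideal.span {y}) = 1 :=
      if_pos ⟨fun h => hy (Ideal.span_singleton_eq_bot.1 h), h2⟩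
    rw [h1, h3]

theorem ts4_cop (b f : Ideal (𝓞 K)) (q : 𝓞 K) (h : IsCoprime b (Ideal.span {q})) (N : ℕ) (hN : q ^ N ∈ f) :
    IsCoprime b f := by
  have h1 : IsCoprime b (Ideal.span {q} ^ N) := h.pow_right
  rw [Ideal.span_singleton_pow, Ideal.isCoprime_iff_exists] at h1
  rw [Ideal.isCoprime_iff_exists]
  obtain ⟨i, hi, j, hj, hij⟩ := h1
  exact ⟨i, hi, j, (Ideal.span_singleton_le_iff_mem f).2 hN hj, hij⟩

/-- Chunk TS4 (M). PROOF. κ from SSG.S.k1_kappa (b coprime to p and mK; XS (J b) ⊆ XS (mK ⊤ b), J = mK f3 ≤ mK). b is coprime to f1 f2 f3 (f1 divides a power of (π), so b coprime to p implies b coprime to f1: π^N in f1, p^N in f1; the same for f2), so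
χ(b) ^ p = 1, χ b <> 0. For x in XS(J b)(c₀): x - c₀ in J b ⊆ f3, so χ3 (mk x) = χ3 (mk c₀), and χ(c) χ(b) = χ(span {x}) = wW x χ3 (mk c₀) (hD.eq, x <> 0). ζ = χ3 (mk c₀) (χ b)⁻¹. mk c₀ is a unit modulo f3 (hpr: c₀ in no w ⊇ f3: if c₀ in w then c₀ in w ⊓ b = w b,
w and b coprime), so χ3 (mk c₀)^p = 1 (one3). -/
theorem tw_kappa (hp : p.Prime) (hpi : π * π' = (p : 𝓞 F)) (hD : ChD F π π' p T1 a f2 f3 χ χ1 χ2 χ3 ψa) {M : Ideal (𝓞 F)} {ψ : Ideal (𝓞 F) →*₀ 𝓞 F}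
    (h : IsHecke M ψ) (hMp : IsCoprime M (Ideal.span {(p : 𝓞 F)})) (b : Ideal (𝓞 K)) (hb : b ≠ ⊥)
    (hbc : IsCoprime b (Ideal.span {(p : 𝓞 K)} * (mK K M * f3))) (c₀ : 𝓞 K) (hc : c₀ ∈ b)
    (hpr : ∀ w : HeightOneSpectrum (𝓞 K), mK K M * f3 ≤ w.asIdeal → c₀ ∉ w.asIdeal * b) :
    ∃ κ ζ : ℂ, (∀ V : ValuationSubring ℂ, V.valuation (p : ℂ) < 1 → V.valuation κ = 1) ∧ ζ ^ p = 1 ∧
      ∀ x ∈ XS (mK K M * f3 * b) c₀, ∀ d : Ideal (𝓞 K), d * b = Ideal.span {x} → x ≠ 0 ∧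
        (PsiP K ψ * oneI f3) d = κ * (starRingEnd ℂ) (embF F (Algebra.norm F (x : K))) ∧ χ d = ζ * wW χ1 χ2 x := by
  classical
  have hf3 : f3 ≠ ⊥ := right_ne_zero_of_mul hD.pch.ne
  obtain ⟨κ, κ', ζ', h1, h2, h3, h4⟩ := exists_kappaP p hp h hMp f3 (oneI f3) (ts4_chr p f3 hf3 hD.cop3) b hb hbc c₀ hc hpr
  have hJ0 : mK K M * f3 ≠ ⊥ := mul_ne_zero (PT2_mK M h.ne) hf3
  have hbJ : IsCoprime b (mK K M * f3) := hbc.of_mul_right_right
  have hbp : IsCoprime b (Ideal.span {(p : 𝓞 K)}) := hbc.of_mul_right_left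
  have hbf : IsCoprime b f3 := hbJ.of_mul_right_right
  have hpp : algebraMap (𝓞 F) (𝓞 K) π * algebraMap (𝓞 F) (𝓞 K) π' = (p : 𝓞 K) := by
    rw [← map_mul, hpi, map_natCast]
  have hbq : IsCoprime b (Ideal.span {algebraMap (𝓞 F) (𝓞 K) π} * Ideal.span {algebraMap (𝓞 F) (𝓞 K) π'}) := by
    rw [Ideal.span_singleton_mul_span_singleton, hpp]
    exact hbp
  have hb1 : IsCoprime b (fT T1 a) := by
    obtain ⟨N, hN⟩ := hD.pi1
    rw [map_pow] at hN
    exact ts4_cop b _ _ hbq.of_mul_right_left N hN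
  have hb2 : IsCoprime b f2 := by
    obtain ⟨N, hN⟩ := hD.pi2
    rw [map_pow] at hN
    exact ts4_cop b _ _ hbq.of_mul_right_right N hN
  have hbF : IsCoprime b (fT T1 a * f2 * f3) := (hb1.mul_right hb2).mul_right hbf
  have hχb := hD.pch.val b hb hbF
  have hχb0 : χ b ≠ 0 := by
    intro h0
    rw [h0, zero_pow hp.ne_zero] at hχb
    exact zero_ne_one hχb
  have hcop : IsCoprime (Ideal.span {c₀}) (mK K M * f3) := by
    rw [Ideal.isCoprime_iff_sup_eq]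
    by_contra hne
    obtain ⟨P, hP, hle⟩ := Ideal.exists_le_maximal _ hne
    have hPf : mK K M * f3 ≤ P := le_sup_right.trans hle
    have hPc : Ideal.span {c₀} ≤ P := le_sup_left.trans hle
    have hP0 : P ≠ ⊥ := by
      rintro rfl
      exact hJ0 (le_bot_iff.1 hPf)
    have hbP : ¬ b ≤ P := by
      intro h5
      rw [Ideal.isCoprime_iff_sup_eq] at hbJ
      exact hP.ne_top (top_le_iff.1 (hbJ ▸ sup_le h5 hPf))
    obtain ⟨d, hd⟩ := Ideal.dvd_iff_le.2 ((Ideal.span_singleton_le_iff_mem b).2 hc)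
    rw [hd] at hPc
    have hdP : d ≤ P := (hP.isPrime.mul_le.1 hPc).resolve_left hbP
    refine hpr ⟨P, hP.isPrime, hP0⟩ hPf ?_
    have h5 : c₀ ∈ b * d := by rw [← hd]; exact Ideal.mem_span_singleton_self _
    rw [mul_comm]
    exact Ideal.mul_mono_right hdP h5
  have hc3 : IsCoprime (Ideal.span {c₀}) f3 := hcop.of_mul_right_right
  have hcu : IsUnit (Ideal.Quotient.mk f3 c₀) := by
    rw [Ideal.isCoprime_iff_exists] at hc3
    obtain ⟨i, hi, j, hj, hij⟩ := hc3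
    obtain ⟨r, rfl⟩ := Ideal.mem_span_singleton.1 hi
    have h5 := congrArg (Ideal.Quotient.mk f3) hij
    rw [map_add, map_mul, map_one, Ideal.Quotient.eq_zero_iff_mem.2 hj, add_zero] at h5
    exact IsUnit.of_mul_eq_one _ h5
  have hχ3 : χ3 (Ideal.Quotient.mk f3 c₀) ^ p = 1 := by
    obtain ⟨u, hu⟩ := hcu
    rw [← hu, ← MulChar.pow_apply_coe, hD.one3, MulChar.one_apply_coe]
  refine ⟨κ', χ3 (Ideal.Quotient.mk f3 c₀) * (χ b)⁻¹, h1, ?_, ?_⟩
  · rw [mul_pow, inv_pow, hχb, hχ3, inv_one, mul_one]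
  · intro x hx d hd
    obtain ⟨hx0, -, h6⟩ := h4 x hx d hd
    refine ⟨hx0, h6, ?_⟩
    have hxf : x - c₀ ∈ f3 := Ideal.mul_le_left (Ideal.mul_le_left (show x - c₀ ∈ mK K M * f3 * b from hx) |> fun h7 => by
      rw [mul_comm]
      exact h7)
    have h7 : Ideal.Quotient.mk f3 x = Ideal.Quotient.mk f3 c₀ := Ideal.Quotient.eq.2 hxf
    have h8 : χ d * χ b = wW χ1 χ2 x * χ3 (Ideal.Quotient.mk f3 c₀) := by
      rw [← map_mul, hd, hD.eq x hx0, h7]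
      rfl
    rw [show χ d = χ d * χ b * (χ b)⁻¹ by rw [mul_assoc, mul_inv_cancel₀ hχb0, mul_one], h8]
    ring


end H35M
end

-- from Lib.H35M.TS9
section

/-! # H35M, chunk TS9 (M): the class data exist -/

open NumberField IsDedekindDomain

namespace H35M

open H55N H55P SSG.E

variable {F : Type} [Field F] [NumberField F] [IQ F] {K : Type} [Field K] [NumberField K] [Algebra F K]
  {π π' : 𝓞 F} {p : ℕ} {T1 : Finset (HeightOneSpectrum (𝓞 K))} {a : HeightOneSpectrum (𝓞 K) → ℕ} {f2 f3 : Ideal (𝓞 K)}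
  {χ : Ideal (𝓞 K) →*₀ ℂ} {χ1 : MulChar (𝓞 K ⧸ fT T1 a) ℂ} {χ2 : MulChar (𝓞 K ⧸ f2) ℂ} {χ3 : MulChar (𝓞 K ⧸ f3) ℂ}
  {ψa : AddChar (𝓞 K ⧸ fT T1 a) ℂ}

/-- Chunk TS9 (M). PROOF: the beginning of LVP_twist (Lib/H55P/T9.lean) with J = mK K M * f3: J ≠ ⊥ (f3 ≠ ⊥: pch.ne), J ≠ ⊤ (pt9_prime: a prime w0 with l in w0 and mK ≤ w0), exists_CDJ J (span {p} * J); c₀ i not in (l) b i (hlam there); tw_kappa (TS4)
for every i, choose. -/
theorem exists_ClD (hp : p.Prime) (hpi : π * π' = (p : 𝓞 F)) (hD : ChD F π π' p T1 a f2 f3 χ χ1 χ2 χ3 ψa) {M : Ideal (𝓞 F)} {ψ : Ideal (𝓞 F) →*₀ 𝓞 F}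
    (h : IsHecke M ψ) (hMp : IsCoprime M (Ideal.span {(p : 𝓞 F)})) {l : 𝓞 F} (hl : Mod p M l) :
    mK K M * f3 ≠ ⊥ ∧ mK K M * f3 ≠ ⊤ ∧
    ∃ (ι : Type) (_ : Fintype ι) (b : ι → Ideal (𝓞 K)) (c₀ : ι → 𝓞 K) (T : ι → Set (𝓞 K)) (κ ζ : ι → ℂ),
      ClD F M ψ p f3 χ (wW χ1 χ2) ι b c₀ T κ ζ ∧ (∀ i, c₀ i ∉ Ideal.span {algebraMap (𝓞 F) (𝓞 K) l} * b i) ∧
      (∀ i, ∀ V : ValuationSubring ℂ, V.valuation (p : ℂ) < 1 → V.valuation (κ i) = 1) ∧ ∀ i, ζ i ^ p = 1 := by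
  classical
  obtain ⟨w0, hw0l, hw0M⟩ := pt9_prime K hl
  have hf30 : f3 ≠ ⊥ := by
    intro h0
    apply hD.pch.ne
    rw [h0, Ideal.mul_bot]
  have hJM : mK K M * f3 ≤ mK K M := Ideal.mul_le_left
  have hJ0 : mK K M * f3 ≠ ⊥ := mul_ne_zero (pt9_mK_ne h.ne) hf30
  have hJ1 : mK K M * f3 ≠ ⊤ := by
    intro h1
    apply w0.isPrime.ne_top
    rw [← top_le_iff, ← h1]
    exact hJM.trans hw0M
  have hg0 : Ideal.span {(p : 𝓞 K)} * (mK K M * f3) ≠ ⊥ := by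
    refine mul_ne_zero ?_ hJ0
    have h1 : Ideal.span {(p : 𝓞 K)} ≠ ⊥ := by
      rw [Ne, Ideal.span_singleton_eq_bot, Nat.cast_eq_zero]
      exact hp.ne_zero
    exact h1
  have hgJ : Ideal.span {(p : 𝓞 K)} * (mK K M * f3) ≤ mK K M * f3 := Ideal.mul_le_right
  obtain ⟨ι, hι, b, c₀, T, hcd⟩ := exists_CDJ (mK K M * f3) (Ideal.span {(p : 𝓞 K)} * (mK K M * f3))
    hJ0 hg0 hgJ hJ1
  have hlam : ∀ i, c₀ i ∉ Ideal.span {algebraMap (𝓞 F) (𝓞 K) l} * b i := by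
    intro i hi
    refine hcd.prim i w0 (hJM.trans hw0M) (Ideal.mul_mono_left ?_ hi)
    rw [Ideal.span_singleton_le_iff_mem]
    exact hw0l
  have hkap := fun i => tw_kappa hp hpi hD h hMp (b i) (hcd.ne i) (hcd.cop i) (c₀ i) (hcd.mem i) (hcd.prim i)
  choose κ ζ hκ1 hζ hκ using hkap
  exact ⟨hJ0, hJ1, ι, hι, b, c₀, T, κ, ζ, ⟨hcd, hκ⟩, hlam, hκ1, hζ⟩

end H35M
end

-- from Lib.H35M.SN1
section

/-! # H35M, chunk SN1 (M): the auxiliary ideal from the absence of p-torsion over M -/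

open NumberField IsDedekindDomain

namespace H35M

open H55N H55P
open H35P (WAB)
open H55K (Dta Tor)

variable {F : Type} [Field F] [NumberField F] [IQ F] {Ω : Type} [Field Ω] [DecidableEq Ω] [Algebra F Ω] [IsAlgClosure F Ω]

omit [IsAlgClosure F Ω] [DecidableEq Ω] in
/-- The conjugate prime: π' is prime, and an integer whose conjugate is small at V is divisible by π'. -/
theorem sn1_dvd {p : ℕ} {V : ValuationSubring ℂ} {π π' : 𝓞 F} (hP : Plc F V π π' p) :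
    Prime π' ∧ ∀ z : 𝓞 F, V.valuation ((starRingEnd ℂ) (eF F z)) < 1 → π' ∣ z := by
  have hcj : (starRingEnd ℂ) (eF F π') = eF F π :=
    H41D.conj_pi hP.prime hP.nu hP.pr.not_isUnit (by rw [← hP.mul, mul_comm])
  have h0 : π' ≠ 0 := by
    rintro rfl
    have h1 := hP.mul
    rw [mul_zero] at h1
    exact hP.prime.ne_zero (by exact_mod_cast h1.symm)
  have hN : Ideal.absNorm (Ideal.span {π'}) = p := by
    have h1 := H41D.absNorm_eF π'
    rw [hcj, ← map_mul, mul_comm, hP.mul, map_natCast] at h1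
    exact_mod_cast h1
  have hpr : Prime π' := by
    rw [← Ideal.span_singleton_prime h0]
    apply Ideal.isPrime_of_irreducible_absNorm
    rw [hN]
    exact hP.prime
  refine ⟨hpr, fun z hz => ?_⟩
  by_contra hd
  obtain ⟨a, b, hab⟩ := (Prime.coprime_iff_not_dvd hpr).2 hd
  have hi : ∀ x : 𝓞 F, V.valuation ((starRingEnd ℂ) (eF F x)) ≤ 1 := fun x =>
    PT1_int ((starRingEnd ℂ).comp (eF F)) x V
  have h1 : V.valuation ((starRingEnd ℂ) (eF F (a * π' + b * z))) < 1 := by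
    rw [map_add, map_add, map_mul, map_mul, map_mul, map_mul]
    refine V.valuation.map_add_lt ?_ ?_
    · rw [map_mul, hcj]
      exact mul_lt_one_of_nonneg_of_lt_one_right (hi a) zero_le hP.lt
    · rw [map_mul]
      exact mul_lt_one_of_nonneg_of_lt_one_right (hi b) zero_le hz
  rw [hab, map_one, map_one, map_one] at h1
  exact lt_irrefl _ h1

/-- Chunk SN1 (M). -/
theorem ntp_of_tor {A B : F} {Om : ℂ} {j : Ω →+* ℂ}
    {act : 𝓞 F →+* AddMonoid.End (Pt (WAB A B) Ω)} {mo : Ideal (𝓞 F)} {ψ : Ideal (𝓞 F) →*₀ 𝓞 F} {p : ℕ}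
    (d : Dta A B Om j act mo ψ p) {V : ValuationSubring ℂ} {π π' : 𝓞 F} (hP : Plc F V π π' p)
    (M : IntermediateField F Ω) [NumberField M]
    (hT : ∀ T : Pt (WAB A B) Ω, p • T = 0 → (∀ s ∈ M.fixingSubgroup, ac (WAB A B) s T = T) → T = 0) : NTP M p mo ψ V := by
  classical
  by_contra hN
  have hac : IsAlgClosed Ω := IsAlgClosure.isAlgClosed F
  have halg : Algebra.IsAlgebraic F Ω := IsAlgClosure.isAlgebraic
  obtain ⟨hpr, hdv⟩ := sn1_dvd hP
  -- from the negation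
  have hψ : ∀ a : Ideal (𝓞 M), IsCoprime a (Ideal.span {(p : 𝓞 M)}) → IsCoprime a (mK M mo) →
      π' ∣ 1 - ψ (Ideal.relNorm (𝓞 F) a) := by
    intro a h1 h2
    apply hdv
    have e : (starRingEnd ℂ) (eF F (1 - ψ (Ideal.relNorm (𝓞 F) a))) = 1 - PsiP M ψ a := by
      rw [map_sub, map_sub, map_one, map_one, PsiP_apply]
    have h3 : V.valuation (1 - PsiP M ψ a) ≤ 1 := by
      rw [← e]
      exact PT1_int ((starRingEnd ℂ).comp (eF F)) _ V
    rw [e]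
    refine lt_of_le_of_ne h3 fun h4 => hN ⟨a, h1, h2, h4⟩
  -- the generator
  obtain ⟨T₀, hT0, hgen, hz, -⟩ := d.cma.gen π' hpr.ne_zero
  have hT00 : act π' T₀ = 0 := hT0
  have htor : ∀ T : Pt (WAB A B) Ω, act π' T = 0 → p • T = 0 := by
    intro T hT
    have h1 : act (p : 𝓞 F) T = 0 := by
      rw [← hP.mul, map_mul]
      show act π (act π' T) = 0
      rw [hT, map_zero]
    rw [map_natCast, AddMonoid.End.natCast_apply] at h1
    exact h1
  have hgal : ∀ (s : Ω ≃ₐ[F] Ω) (T : Pt (WAB A B) Ω), act π' T = 0 → act π' (ac (WAB A B) s T) = 0 := by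
    intro s T hT
    rw [← d.cma.gal, hT, map_zero]
  let H : Subgroup (Ω ≃ₐ[M] Ω) :=
    { carrier := {s | ∀ T, act π' T = 0 → ac (WAB A B) (s.restrictScalars F) T = T}
      one_mem' := fun T _ => H55K.ac_one _ T
      mul_mem' := by
        intro s t hs ht T hT
        have e : (s * t).restrictScalars F = s.restrictScalars F * t.restrictScalars F := rfl
        rw [e, H55K.ac_mul, ht T hT, hs T hT]
      inv_mem' := by
        intro s hs T hT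
        have e : (s⁻¹).restrictScalars F = (s.restrictScalars F)⁻¹ := rfl
        have h1 := hs T hT
        have h2 : ac (WAB A B) ((s⁻¹).restrictScalars F) (ac (WAB A B) (s.restrictScalars F) T) = T := by
          rw [← H55K.ac_mul, e, inv_mul_cancel]
          exact H55K.ac_one _ T
        rwa [h1] at h2 }
  have hH : ∀ s : Ω ≃ₐ[M] Ω, s ∈ H ↔ ∀ T, act π' T = 0 → ac (WAB A B) (s.restrictScalars F) T = T :=
    fun s => Iff.rfl
  have halgM : Algebra.IsAlgebraic M Ω := Algebra.IsAlgebraic.tower_top (K := F) M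
  have hclM : IsAlgClosure M Ω := ⟨hac, halgM⟩
  have hn : H.Normal := by
    constructor
    intro s hs g
    rw [hH]
    intro T hT
    have e : (g * s * g⁻¹).restrictScalars F = g.restrictScalars F * s.restrictScalars F * (g.restrictScalars F)⁻¹ := rfl
    rw [e, H55K.ac_mul, H55K.ac_mul, hs _ (hgal _ _ hT), ← H55K.ac_mul, mul_inv_cancel]
    exact H55K.ac_one _ T
  have key : H = ⊤ := by
    have hint : ∀ x : Ω, IsIntegral M x := fun x => (Algebra.IsAlgebraic.isAlgebraic x).isIntegral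
    let S0 : Set Ω := {H55K.xc T₀, H55K.yc T₀}
    have hAf : S0.Finite := Set.toFinite S0
    have hAf' : Finite S0 := hAf
    have hLf : FiniteDimensional M (IntermediateField.adjoin M S0) :=
      IntermediateField.finiteDimensional_adjoin fun x _ => hint x
    obtain ⟨S2, hS2f, hS2⟩ := d.frob
    have hf2 : {w : HeightOneSpectrum (𝓞 M) | w.under (𝓞 F) ∈ S2}.Finite :=
      hS2f.preimage' (f := fun w : HeightOneSpectrum (𝓞 M) => w.under (𝓞 F)) fun b _ => H55R.above_finite b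
    have hpM : Ideal.span {((p : ℕ) : 𝓞 M)} ≠ 0 := by
      rw [Ideal.zero_eq_bot, Ne, Ideal.span_singleton_eq_bot]
      exact Nat.cast_ne_zero.2 hP.prime.ne_zero
    have hmM : mK M mo ≠ 0 := by
      intro h
      exact d.hecke.ne ((Ideal.map_eq_bot_iff_of_injective (FaithfulSMul.algebraMap_injective (𝓞 F) (𝓞 M))).1 h)
    have hf3 := Ideal.finite_factors hpM
    have hf4 := Ideal.finite_factors hmM
    refine H13S.PA1_top (F₀ := M) H hn (IntermediateField.adjoin M S0) ?_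
      ({w : HeightOneSpectrum (𝓞 M) | w.under (𝓞 F) ∈ S2} ∪ ({w | w.asIdeal ∣ Ideal.span {((p : ℕ) : 𝓞 M)}} ∪
        {w | w.asIdeal ∣ mK M mo})) (hf2.union (hf3.union hf4)) ?_
    · intro s hs
      rw [hH]
      intro T hT
      have hfix : ∀ x ∈ S0, s x = x := fun x hx => hs ⟨x, IntermediateField.subset_adjoin M S0 hx⟩
      have h0 : ac (WAB A B) (s.restrictScalars F) T₀ = T₀ :=
        H55K.ac_fix _ (hfix _ (by simp [S0])) (hfix _ (by simp [S0]))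
      obtain ⟨a, rfl⟩ := hgen T hT
      rw [d.cma.gal, h0]
    · intro w hw hq V' hV' s hs
      rw [Set.mem_union, Set.mem_union, not_or, not_or] at hw
      obtain ⟨hw2, hw3, hw4⟩ := hw
      rw [hH]
      intro T hT
      have hv2 : w.under (𝓞 F) ∉ S2 := hw2
      have hwm := w.isMaximal
      have hcop : ∀ I : Ideal (𝓞 M), ¬ w.asIdeal ∣ I → IsCoprime w.asIdeal I := by
        intro I hI
        rw [Ideal.isCoprime_iff_sup_eq]
        by_contra hne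
        apply hI
        rw [Ideal.dvd_iff_le]
        have h1 : w.asIdeal = w.asIdeal ⊔ I := hwm.eq_of_le hne le_sup_left
        rw [h1]
        exact le_sup_right
      have hcp := hcop _ hw3
      have hcm := hcop _ hw4
      have hvm := (w.under (𝓞 F)).isMaximal
      have hover : w.asIdeal.LiesOver (w.under (𝓞 F)).asIdeal := ⟨rfl⟩
      have hrel : Ideal.relNorm (𝓞 F) w.asIdeal = (w.under (𝓞 F)).asIdeal ^ w.asIdeal.inertiaDeg (𝓞 F) :=
        Ideal.relNorm_eq_pow_of_isMaximal w.asIdeal (w.under (𝓞 F)).asIdeal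
      have hNw : Ideal.absNorm w.asIdeal = Ideal.absNorm (w.under (𝓞 F)).asIdeal ^ w.asIdeal.inertiaDeg (𝓞 F) := by
        rw [← Ideal.absNorm_relNorm (𝓞 F) (𝓞 M) w.asIdeal, hrel, map_pow]
      have hf0 : 0 < w.asIdeal.inertiaDeg (𝓞 F) := Ideal.inertiaDeg_pos w.asIdeal (𝓞 F)
      have hf1 : w.asIdeal.inertiaDeg (𝓞 F) = 1 := by
        by_contra hne
        rw [hNw] at hq
        exact Nat.Prime.not_prime_pow (by omega) hq
      rw [hf1, pow_one] at hrel hNw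
      have hva : ∀ a : 𝓞 F, a ∈ (w.under (𝓞 F)).asIdeal → V'.valuation (H55K.ak Ω a) < 1 := by
        intro a ha
        have h1 : algebraMap (𝓞 F) (𝓞 M) a ∈ w.asIdeal := ha
        exact hV' _ h1
      have hvN : (Ideal.absNorm (w.under (𝓞 F)).asIdeal).Prime := by
        rw [← hNw]
        exact hq
      have hp1 : V'.valuation ((p : ℕ) : Ω) = 1 := by
        have hle : V'.valuation ((p : ℕ) : Ω) ≤ 1 := (V'.valuation_le_one_iff _).2 (natCast_mem V' p)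
        refine le_antisymm hle (not_lt.1 fun hlt => ?_)
        obtain ⟨x, hx, y, hy, hxy⟩ := Submodule.mem_sup.1 (by
          rw [Ideal.isCoprime_iff_sup_eq] at hcp
          rw [hcp]
          exact Submodule.mem_top : (1 : 𝓞 M) ∈ w.asIdeal ⊔ Ideal.span {((p : ℕ) : 𝓞 M)})
        obtain ⟨c, rfl⟩ := Ideal.mem_span_singleton'.1 hy
        have h1 := hV' _ hx
        have hci : V'.valuation (algebraMap M Ω ((c : 𝓞 M) : M)) ≤ 1 := by
          have h2 : IsIntegral ℤ (algebraMap M Ω ((c : 𝓞 M) : M)) :=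
            map_isIntegral_int (algebraMap M Ω) (RingOfIntegers.isIntegral_coe c)
          have h3 : IsIntegral V' (algebraMap M Ω ((c : 𝓞 M) : M)) := h2.tower_top
          obtain ⟨t, ht⟩ := IsIntegrallyClosed.isIntegral_iff.1 h3
          rw [← ht]
          exact V'.valuation_le_one t
        have h2 : V'.valuation (algebraMap M Ω ((c : 𝓞 M) : M) * ((p : ℕ) : Ω)) < 1 := by
          rw [map_mul]
          exact mul_lt_one_of_nonneg_of_lt_one_right hci zero_le hlt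
        have h3 := V'.valuation.map_add_lt h1 h2
        have h4 : algebraMap M Ω ((x : 𝓞 M) : M) + algebraMap M Ω ((c : 𝓞 M) : M) * ((p : ℕ) : Ω) = 1 := by
          have h5 := congrArg (fun z : 𝓞 M => algebraMap M Ω ((z : 𝓞 M) : M)) hxy
          simpa using h5
        rw [h4, map_one] at h3
        exact lt_irrefl _ h3
      have hs' : ∀ x ∈ V', V'.valuation ((s.restrictScalars F) x - x ^ Ideal.absNorm (w.under (𝓞 F)).asIdeal) < 1 := by
        intro x hx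
        rw [← hNw]
        exact hs x hx
      rw [hS2 _ hv2 hvN V' hva (s.restrictScalars F) hs' p hp1 T (htor T hT)]
      obtain ⟨c, hc⟩ := hψ _ hcp hcm
      rw [hrel] at hc
      have h2 : act (ψ (w.under (𝓞 F)).asIdeal) T = act (1 - c * π') T := by
        congr 2
        linear_combination -hc
      rw [h2, map_sub, map_mul, map_one]
      show T - act c (act π' T) = T
      rw [hT, map_zero, sub_zero]
  have hfixT : ∀ s ∈ M.fixingSubgroup, ac (WAB A B) s T₀ = T₀ := by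
    intro s hs
    have h1 : IntermediateField.fixingSubgroupEquiv M ⟨s, hs⟩ ∈ H := by
      rw [key]
      exact Subgroup.mem_top _
    have h2 := h1 T₀ hT00
    have e : (IntermediateField.fixingSubgroupEquiv M ⟨s, hs⟩).restrictScalars F = s := rfl
    rwa [e] at h2
  have h3 := hT T₀ (htor T₀ hT00) hfixT
  have h4 : π' ∣ 1 := by
    rw [← hz, h3, map_zero]
  exact hpr.not_isUnit (isUnit_of_dvd_one h4)

end H35M
end

-- from Lib.H35M.SX3
section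

/-! # H35M, part S: the data of the character of a cyclic step of degree p -/

open NumberField IsDedekindDomain

namespace H35M

open H55N H55P SSR
open H55R (es)

section

variable {K : Type} [Field K] [NumberField K]

theorem sx3_ne {v w : HeightOneSpectrum (𝓞 K)} (h : v ≠ w) (a b : ℕ) : IsCoprime (v.asIdeal ^ a) (w.asIdeal ^ b) := by
  refine IsCoprime.pow ?_
  rw [Ideal.isCoprime_iff_sup_eq]
  exact Ideal.IsMaximal.coprime_of_ne v.isMaximal w.isMaximal fun h' => h (HeightOneSpectrum.ext h')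

theorem sx3_fT_ne (T : Finset (HeightOneSpectrum (𝓞 K))) (a : HeightOneSpectrum (𝓞 K) → ℕ) : fT T a ≠ ⊥ :=
  Finset.prod_ne_zero_iff.2 fun v _ => pow_ne_zero _ v.ne_bot

theorem sx3_fT_le {T : Finset (HeightOneSpectrum (𝓞 K))} {a : HeightOneSpectrum (𝓞 K) → ℕ} {v : HeightOneSpectrum (𝓞 K)}
    (h : fT T a ≤ v.asIdeal) : v ∈ T := by
  have hpv := v.isPrime
  obtain ⟨w, hw, hle⟩ := hpv.prod_le.1 h
  have hwm := w.isMaximal
  have h1 : w = v := HeightOneSpectrum.ext (hwm.eq_of_le hpv.ne_top (hpv.le_of_pow_le hle))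
  rw [← h1]
  exact hw

theorem sx3_mem {T : Finset (HeightOneSpectrum (𝓞 K))} {a : HeightOneSpectrum (𝓞 K) → ℕ} {x : 𝓞 K} (h : ∀ v ∈ T, x ∈ v.asIdeal) :
    ∃ N : ℕ, x ^ N ∈ fT T a := by
  refine ⟨∑ v ∈ T, a v, ?_⟩
  rw [← Finset.prod_pow_eq_pow_sum]
  exact Ideal.prod_mem_prod fun v hv => Ideal.pow_mem_pow (h v hv) _

/-- The exponent of v in the product is a v. -/
theorem sx3_exp {T : Finset (HeightOneSpectrum (𝓞 K))} {a : HeightOneSpectrum (𝓞 K) → ℕ} {v : HeightOneSpectrum (𝓞 K)} (hv : v ∈ T)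
    {g : Ideal (𝓞 K)} (hg : ¬ g ≤ v.asIdeal) : ¬ v.asIdeal ^ (a v + 1) ∣ fT T a * g := by
  classical
  intro h
  have h1 : fT T a = v.asIdeal ^ a v * fT (T.erase v) a := (Finset.mul_prod_erase T (fun v => v.asIdeal ^ a v) hv).symm
  rw [h1, mul_assoc, pow_succ] at h
  have h2 : v.asIdeal ∣ fT (T.erase v) a * g := (mul_dvd_mul_iff_left (pow_ne_zero _ v.ne_bot)).1 h
  rw [Ideal.dvd_iff_le, v.isPrime.mul_le] at h2
  rcases h2 with h2 | h2
  · exact (Finset.notMem_erase v T) (sx3_fT_le h2)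
  · exact hg h2

end

variable {F : Type} [Field F] [NumberField F] [IQ F]

/-- The data of the character of K'/K. -/
theorem exists_ChD (K K' : Type) [Field K] [NumberField K] [Algebra F K] [Field K'] [NumberField K'] [Algebra K K'] [IsGalois K K']
    {V : ValuationSubring ℂ} {π π' : 𝓞 F} {p : ℕ} (hP : Plc F V π π' p) (hn : Module.finrank K K' = p) :
    ∃ (T1 : Finset (HeightOneSpectrum (𝓞 K))) (t : HeightOneSpectrum (𝓞 K) → ℕ) (f2 f3 : Ideal (𝓞 K)) (χ : Ideal (𝓞 K) →*₀ ℂ)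
      (χ1 : MulChar (𝓞 K ⧸ fT T1 fun v => t v + 1) ℂ) (χ2 : MulChar (𝓞 K ⧸ f2) ℂ) (χ3 : MulChar (𝓞 K ⧸ f3) ℂ)
      (ψa : AddChar (𝓞 K ⧸ fT T1 fun v => t v + 1) ℂ),
      ChD F π π' p T1 (fun v => t v + 1) f2 f3 χ χ1 χ2 χ3 ψa ∧ SplitP K K' p χ ∧
      (∀ w : HeightOneSpectrum (𝓞 K), (fT T1 fun v => t v + 1) * f2 * f3 ≤ w.asIdeal ↔ es K K' w ≠ 1) ∧
      (∀ v, v ∈ T1 ↔ algebraMap (𝓞 F) (𝓞 K) π ∈ v.asIdeal ∧ es K K' v ≠ 1) ∧
      ∀ v ∈ T1, ∃ w : HeightOneSpectrum (𝓞 K'), TRam p v w (t v) := by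
  classical
  have hre : IsEmpty (K →+* ℝ) := sx3_real F K
  have hpp : algebraMap (𝓞 F) (𝓞 K) π * algebraMap (𝓞 F) (𝓞 K) π' = (p : 𝓞 K) := by
    rw [← map_mul, hP.mul, map_natCast]
  have ht : ∀ v : HeightOneSpectrum (𝓞 K), ∃ t : ℕ, es K K' v ≠ 1 → (p : 𝓞 K) ∈ v.asIdeal →
      ∃ w : HeightOneSpectrum (𝓞 K'), TRam p v w t := by
    intro v
    by_cases h : es K K' v ≠ 1 ∧ (p : 𝓞 K) ∈ v.asIdeal
    · obtain ⟨t, w, hw⟩ := exists_TRam hP.prime hn v h.1 h.2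
      exact ⟨t, fun _ _ => ⟨w, hw⟩⟩
    · exact ⟨0, fun h1 h2 => absurd ⟨h1, h2⟩ h⟩
  choose t ht using ht
  obtain ⟨f, R, ρ, hfc, hf, hR, hρ, θ, hθ, hθρ⟩ := rec_full hP.prime hn t ht hre
  obtain ⟨T1, hT1⟩ : ∃ T1, T1 = R.filter (fun v => algebraMap (𝓞 F) (𝓞 K) π ∈ v.asIdeal) := ⟨_, rfl⟩
  obtain ⟨T2, hT2⟩ : ∃ T2, T2 = R.filter (fun v => ¬ algebraMap (𝓞 F) (𝓞 K) π ∈ v.asIdeal) := ⟨_, rfl⟩
  have hm1 : ∀ v, v ∈ T1 ↔ v ∈ R ∧ algebraMap (𝓞 F) (𝓞 K) π ∈ v.asIdeal := fun v => by rw [hT1, Finset.mem_filter]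
  have hm2 : ∀ v, v ∈ T2 ↔ v ∈ R ∧ ¬ algebraMap (𝓞 F) (𝓞 K) π ∈ v.asIdeal := fun v => by rw [hT2, Finset.mem_filter]
  have hprod : f * ∏ v ∈ R, v.asIdeal ^ (t v + 1) = (fT T1 fun v => t v + 1) * (fT T2 fun v => t v + 1) * f := by
    rw [mul_comm, ← Finset.prod_filter_mul_prod_filter_not R (fun v => algebraMap (𝓞 F) (𝓞 K) π ∈ v.asIdeal), ← hT1, ← hT2]
    rfl
  rw [hprod] at hρ hθρ
  have hf0 : (fT T1 fun v => t v + 1) * (fT T2 fun v => t v + 1) * f ≠ ⊥ := hρ.ne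
  have hfR : ∀ v ∈ R, ¬ f ≤ v.asIdeal := fun v hv h => ((hf v).1 h).1 ((hR v).1 hv).1
  have c12 : IsCoprime (fT T1 fun v => t v + 1) (fT T2 fun v => t v + 1) := by
    refine IsCoprime.prod_left fun v hv => IsCoprime.prod_right fun w hw => ?_
    refine sx3_ne ?_ _ _
    rintro rfl
    exact ((hm2 v).1 hw).2 ((hm1 v).1 hv).2
  have c13 : IsCoprime (fT T1 fun v => t v + 1) f :=
    IsCoprime.prod_left fun v hv => (H55R.cop_prime v _ (hfR v ((hm1 v).1 hv).1)).pow_left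
  have c23 : IsCoprime (fT T2 fun v => t v + 1) f :=
    IsCoprime.prod_left fun v hv => (H55R.cop_prime v _ (hfR v ((hm2 v).1 hv).1)).pow_left
  have hpch : PCh p ((fT T1 fun v => t v + 1) * (fT T2 fun v => t v + 1) * f) ρ := ⟨hρ.ne, hρ.val, hρ.zero, hρ.per⟩
  obtain ⟨χ1, χ2, χ3, h1, h2, h3, heq⟩ := sx3_split hP.prime.ne_zero c12 c13 c23 hpch
  obtain ⟨ψ, hψ⟩ := prim_fT T1 fun v => t v + 1
  have hT2π : ∀ v ∈ T2, algebraMap (𝓞 F) (𝓞 K) π' ∈ v.asIdeal := by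
    intro v hv
    have h4 : (p : 𝓞 K) ∈ v.asIdeal := ((hR v).1 ((hm2 v).1 hv).1).1
    rw [← hpp] at h4
    exact (v.isPrime.mem_or_mem h4).resolve_left ((hm2 v).1 hv).2
  refine ⟨T1, t, fT T2 fun v => t v + 1, f, ρ, χ1, χ2, χ3, ψ, ?_, c3_split p hP.prime hn _ ρ hρ, hρ.ram, ?_, ?_⟩
  · refine
      { pch := hpch
        pos := fun v _ => Nat.succ_pos _
        abv := fun v hv => ((hm1 v).1 hv).2
        pi1 := ?_
        pi2 := ?_
        cop3 := hfc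
        one1 := h1
        one2 := h2
        one3 := h3
        eq := heq
        prim := ?_
        psi := hψ }
    · obtain ⟨N, hN⟩ := sx3_mem (T := T1) (a := fun v => t v + 1) (x := algebraMap (𝓞 F) (𝓞 K) π) fun v hv => ((hm1 v).1 hv).2
      exact ⟨N, by rw [map_pow]; exact hN⟩
    · obtain ⟨N, hN⟩ := sx3_mem (T := T2) (a := fun v => t v + 1) (x := algebraMap (𝓞 F) (𝓞 K) π') hT2π
      exact ⟨N, by rw [map_pow]; exact hN⟩
    · refine primM_of (sx3_fT_ne _ _) χ1 fun v hv => ?_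
      have hvT := sx3_fT_le hv
      have hvR := ((hm1 v).1 hvT).1
      have hvf : (fT T1 fun v => t v + 1) * (fT T2 fun v => t v + 1) * f ≤ v.asIdeal :=
        (Ideal.mul_le_left.trans Ideal.mul_le_left).trans hv
      have hft : ¬ v.asIdeal ^ (t v + 2) ∣ (fT T1 fun v => t v + 1) * (fT T2 fun v => t v + 1) * f := by
        rw [mul_assoc]
        refine sx3_exp (a := fun v => t v + 1) hvT (g := (fT T2 fun v => t v + 1) * f) ?_
        rw [v.isPrime.mul_le, not_or]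
        exact ⟨fun h => ((hm2 v).1 (sx3_fT_le h)).2 ((hm1 v).1 hvT).2, hfR v hvR⟩
      obtain ⟨I', hI', z, hz0, hz1, hzc, hzρ⟩ := H16D.cd4 hP.prime hn hf0 (ρ := ρ)
        (fun u => by rw [hρ.ram u, c2_unr u]) hρ.per θ hθ hθρ v hvf (t v)
        (Or.inr (ht v ((hR v).1 hvR).2 ((hR v).1 hvR).1)) hft
      obtain ⟨I, hI⟩ := Ideal.dvd_iff_le.2 hv
      have hII : I' = I * ((fT T2 fun v => t v + 1) * f) := by
        apply mul_right_cancel₀ v.ne_bot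
        rw [hI', hI]
        ring
      have hzI : z - 1 ∈ I := by
        rw [hII] at hz1
        exact Ideal.mul_le_left hz1
      have hz23 : z - 1 ∈ (fT T2 fun v => t v + 1) * f := by
        rw [hII] at hz1
        exact Ideal.mul_le_right hz1
      have hz2 : Ideal.Quotient.mk (fT T2 fun v => t v + 1) z = 1 := by
        rw [← map_one (Ideal.Quotient.mk (fT T2 fun v => t v + 1)), Ideal.Quotient.eq]
        exact Ideal.mul_le_left hz23
      have hz3 : Ideal.Quotient.mk f z = 1 := by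
        rw [← map_one (Ideal.Quotient.mk f), Ideal.Quotient.eq]
        exact Ideal.mul_le_right hz23
      refine ⟨I, by rw [mul_comm]; exact hI.symm, z, hzI, hzc.of_mul_right_left.of_mul_right_left, fun h => hzρ ?_⟩
      rw [heq z hz0, h, hz2, hz3, map_one, map_one, one_mul, one_mul]
  · intro v
    rw [hm1, hR]
    constructor
    · rintro ⟨⟨_, h4⟩, h5⟩
      exact ⟨h5, h4⟩
    · rintro ⟨h4, h5⟩
      refine ⟨⟨?_, h5⟩, h4⟩
      rw [← hpp]
      exact Ideal.mul_mem_right _ _ h4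
  · intro v hv
    have hvR := ((hm1 v).1 hv).1
    exact ht v ((hR v).1 hvR).2 ((hR v).1 hvR).1

end H35M
end

-- from Lib.H35M.SY2
section

/-! # H35M, part S: the relative different of a cyclic step of degree p, the part above π -/

open NumberField IsDedekindDomain

namespace H35M

open H55N H55P SSR
open H55R (es)

variable {F : Type} [Field F] [NumberField F] [IQ F]

theorem sy2_cop {K K' : Type} [Field K] [NumberField K] [Field K'] [NumberField K'] [Algebra K K'] [IsGalois K K'] (x : 𝓞 K)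
    {C' : Ideal (𝓞 K')} (h : C' ⊔ Ideal.span {algebraMap (𝓞 K) (𝓞 K') x} = ⊤) (hx0 : x ≠ 0) :
    Ideal.relNorm (𝓞 K) C' ⊔ Ideal.span {x} = ⊤ := by
  by_contra hne
  obtain ⟨P, hP, hle⟩ := Ideal.exists_le_maximal _ hne
  have hxP : x ∈ P := hle (Ideal.mem_sup_right (Ideal.mem_span_singleton_self x))
  have hP0 : P ≠ ⊥ := by
    rintro rfl
    exact hx0 ((Ideal.mem_bot).1 hxP)
  obtain ⟨c, hc, d, hd, hcd⟩ := Submodule.mem_sup.1 (h ▸ Submodule.mem_top : (1 : 𝓞 K') ∈ C' ⊔ Ideal.span {algebraMap (𝓞 K) (𝓞 K') x})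
  obtain ⟨y, rfl⟩ := Ideal.mem_span_singleton.1 hd
  have h1 := n6_cong (N := K) (L := K') ⟨P, hP.isPrime, hP0⟩ 1 c 1 (by
    rw [pow_one]
    have h2 : c - 1 = algebraMap (𝓞 K) (𝓞 K') x * (-y) := by linear_combination hcd
    rw [h2]
    exact Ideal.mul_mem_right _ _ (Ideal.mem_map_of_mem _ hxP))
  rw [pow_one, map_one] at h1
  have h2 : Algebra.intNorm (𝓞 K) (𝓞 K') c ∈ P := by
    refine hle (Ideal.mem_sup_left ?_)
    have h3 : Ideal.relNorm (𝓞 K) (Ideal.span {c}) ≤ Ideal.relNorm (𝓞 K) C' :=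
      Ideal.relNorm_mono (𝓞 K) ((Ideal.span_singleton_le_iff_mem _).2 hc)
    rw [Ideal.relNorm_singleton] at h3
    exact (Ideal.span_singleton_le_iff_mem _).1 h3
  apply hP.ne_top
  rw [Ideal.eq_top_iff_one]
  have h4 := P.sub_mem h2 h1
  rwa [sub_sub_cancel] at h4

theorem sy2_rel {K K' : Type} [Field K] [NumberField K] [Field K'] [NumberField K'] [Algebra K K'] {p : ℕ} (hp : p.Prime)
    (hn : Module.finrank K K' = p) {v : HeightOneSpectrum (𝓞 K)} {w : HeightOneSpectrum (𝓞 K')} {t : ℕ} (h : TRam p v w t) :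
    Ideal.relNorm (𝓞 K) w.asIdeal = v.asIdeal := by
  have h1 : Ideal.relNorm (𝓞 K) w.asIdeal ^ p = v.asIdeal ^ p := by
    rw [← map_pow, ← h.map, Ideal.relNorm_algebraMap, H41D.finrank_O, hn]
  exact (pow_left_inj hp.ne_zero).1 h1

theorem sy2_unr {K K' : Type} [Field K] [NumberField K] [Field K'] [NumberField K'] [Algebra K K'] [IsGalois K K']
    (v : HeightOneSpectrum (𝓞 K)) (W : HeightOneSpectrum (𝓞 K')) (hW : W.asIdeal.under (𝓞 K) = v.asIdeal) (h : es K K' v = 1) :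
    ¬ differentIdeal (𝓞 K) (𝓞 K') ≤ W.asIdeal := by
  rw [← Ideal.dvd_iff_le]
  have hp := W.isPrime
  rw [not_dvd_differentIdeal_iff]
  have h1 : W.asIdeal.ramificationIdx (𝓞 K) = 1 := by
    have hl : W.asIdeal.LiesOver v.asIdeal := ⟨hW.symm⟩
    rw [← h]
    exact (Ideal.ramificationIdxIn_eq_ramificationIdx v.asIdeal W.asIdeal (K' ≃ₐ[K] K')).symm
  exact Ideal.ramificationIdx_eq_one_iff.1 h1

/-- D = different of K'/K. For v in T1 the prime w above v has ex w D = (p-1)(t v + 1) (TRam.dif), relNorm w = v (TRam.map: v O' = w^p, so relNorm w ^ p = relNorm (v O') = v^p). A prime w of K' above π whose prime v below is not in T1 is unramified in K'/K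
(es K K' v = 1), so it does not divide D (r4_hilb with all i s = 0, or Mathlib). So D = prod of w_v^((p-1)(t v + 1)) * C', C' coprime to π; relNorm. -/
theorem diff_step (K K' : Type) [Field K] [NumberField K] [Algebra F K] [Field K'] [NumberField K'] [Algebra K K'] [IsGalois K K']
    {V : ValuationSubring ℂ} {π π' : 𝓞 F} {p : ℕ} (hP : Plc F V π π' p) (hn : Module.finrank K K' = p)
    {T1 : Finset (HeightOneSpectrum (𝓞 K))} {t : HeightOneSpectrum (𝓞 K) → ℕ}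
    (hT1 : ∀ v, v ∈ T1 ↔ algebraMap (𝓞 F) (𝓞 K) π ∈ v.asIdeal ∧ es K K' v ≠ 1)
    (ht : ∀ v ∈ T1, ∃ w : HeightOneSpectrum (𝓞 K'), TRam p v w (t v)) :
    ∃ C : Ideal (𝓞 K), C ⊔ Ideal.span {algebraMap (𝓞 F) (𝓞 K) π} = ⊤ ∧
      Ideal.relNorm (𝓞 K) (differentIdeal (𝓞 K) (𝓞 K')) = (fT T1 fun v => t v + 1) ^ (p - 1) * C := by
  classical
  have hp := hP.prime
  have hne : Nonempty (HeightOneSpectrum (𝓞 K')) := by
    obtain ⟨m, hm⟩ := Ideal.exists_maximal (𝓞 K')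
    exact ⟨⟨m, hm.isPrime, Ring.ne_bot_of_isMaximal_of_not_isField hm (RingOfIntegers.not_isField K')⟩⟩
  choose! w hw using ht
  have hD0 : differentIdeal (𝓞 K) (𝓞 K') ≠ ⊥ := different_ne
  have hpi0 : algebraMap (𝓞 F) (𝓞 K) π ≠ 0 := by
    intro h
    exact hP.pr.ne_zero (FaithfulSMul.algebraMap_injective (𝓞 F) (𝓞 K) (h.trans (map_zero _).symm))
  -- the primes w v are different
  have hwv : ∀ v ∈ T1, (w v).asIdeal.under (𝓞 K) = v.asIdeal := by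
    intro v hv
    have h1 : v.asIdeal ≤ (w v).asIdeal.under (𝓞 K) := by
      refine Ideal.le_comap_of_map_le ?_
      rw [(hw v hv).map]
      exact Ideal.pow_le_self hp.ne_zero
    exact (v.isMaximal.eq_of_le (Ideal.IsPrime.ne_top (Ideal.IsPrime.under (𝓞 K) (w v).asIdeal)) h1).symm
  set A : Ideal (𝓞 K') := ∏ v ∈ T1, (w v).asIdeal ^ ((p - 1) * (t v + 1)) with hA
  have hAD : A ∣ differentIdeal (𝓞 K) (𝓞 K') := by
    refine Finset.prod_dvd_of_coprime ?_ ?_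
    · intro v hv v' hv' hne
      refine IsCoprime.pow ?_
      have hm1 := (w v).isMaximal
      have hm2 := (w v').isMaximal
      refine Ideal.isCoprime_of_isMaximal ?_
      intro h
      apply hne
      apply HeightOneSpectrum.ext
      rw [← hwv v hv, ← hwv v' hv', h]
    · intro v hv
      rw [Ideal.dvd_iff_le, le_iff_ex (w v) hD0, (hw v hv).dif]
  obtain ⟨C', hC'⟩ := hAD
  have hA0 : A ≠ ⊥ := by
    rintro h
    rw [h, Ideal.bot_mul] at hC'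
    exact hD0 hC'
  have hC0 : C' ≠ ⊥ := by
    rintro rfl
    rw [Ideal.mul_bot] at hC'
    exact hD0 hC'
  have hcop : C' ⊔ Ideal.span {algebraMap (𝓞 K) (𝓞 K') (algebraMap (𝓞 F) (𝓞 K) π)} = ⊤ := by
    by_contra hne
    obtain ⟨W, hW, hle⟩ := Ideal.exists_le_maximal _ hne
    have hCW : C' ≤ W := le_sup_left.trans hle
    have hW0 : W ≠ ⊥ := fun h => hC0 (le_bot_iff.1 (h ▸ hCW))
    have hWp := hW.isPrime
    have hxW : algebraMap (𝓞 K) (𝓞 K') (algebraMap (𝓞 F) (𝓞 K) π) ∈ W :=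
      hle (Ideal.mem_sup_right (Ideal.mem_span_singleton_self _))
    have hxv : algebraMap (𝓞 F) (𝓞 K) π ∈ W.under (𝓞 K) := hxW
    have hv0 : W.under (𝓞 K) ≠ ⊥ := by
      intro h
      rw [h, Ideal.mem_bot] at hxv
      exact hpi0 hxv
    let v : HeightOneSpectrum (𝓞 K) := ⟨W.under (𝓞 K), Ideal.IsPrime.under (𝓞 K) W, hv0⟩
    let W' : HeightOneSpectrum (𝓞 K') := ⟨W, hWp, hW0⟩
    have hDW : differentIdeal (𝓞 K) (𝓞 K') ≤ W := by
      rw [hC']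
      exact Ideal.mul_le_right.trans hCW
    by_cases hes : es K K' v = 1
    · exact sy2_unr v W' rfl hes hDW
    · have hvT : v ∈ T1 := (hT1 v).2 ⟨hxv, hes⟩
      have hWw : W' = w v := by
        have hm := (w v).isMaximal
        have h1 : (w v).asIdeal ^ p ≤ W := by
          rw [← (hw v hvT).map]
          exact Ideal.map_comap_le
        exact (HeightOneSpectrum.ext (hm.eq_of_le hWp.ne_top (hWp.le_of_pow_le h1))).symm
      have h2 : ex (w v) (differentIdeal (𝓞 K) (𝓞 K')) = ex (w v) A + ex (w v) C' := by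
        rw [hC', ex_mul (w v) hA0 hC0]
      have h3 : (p - 1) * (t v + 1) ≤ ex (w v) A := by
        rw [← le_iff_ex (w v) hA0, ← Ideal.dvd_iff_le]
        exact Finset.dvd_prod_of_mem (fun v => (w v).asIdeal ^ ((p - 1) * (t v + 1))) hvT
      have h4 : 1 ≤ ex (w v) C' := by
        rw [← le_iff_ex (w v) hC0, pow_one, ← hWw]
        exact hCW
      rw [(hw v hvT).dif] at h2
      omega
  refine ⟨Ideal.relNorm (𝓞 K) C', sy2_cop _ hcop hpi0, ?_⟩
  rw [hC', map_mul, hA, map_prod]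
  congr 1
  unfold fT
  rw [← Finset.prod_pow]
  refine Finset.prod_congr rfl fun v hv => ?_
  rw [map_pow, sy2_rel hp hn (hw v hv), ← pow_mul, mul_comm]

end H35M
end

-- from Lib.H35M.TS7A
section

/-! # H35M, chunk TS7A (S/M): the Euler factor of the primes above π -/

open NumberField IsDedekindDomain

namespace H35M

open H55N H55P SSG.E

variable {F : Type} [Field F] [NumberField F] [IQ F] {K : Type} [Field K] [NumberField K] [Algebra F K]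
  {V : ValuationSubring ℂ} {π π' : 𝓞 F} {p : ℕ} {T1 : Finset (HeightOneSpectrum (𝓞 K))} {a : HeightOneSpectrum (𝓞 K) → ℕ} {f2 f3 : Ideal (𝓞 K)}

/-- Chunk TS7a (S). absNorm Q * tm h2 1 Q = Ψ(Q) for Q = fS T1 S a: tm h 1 Q = h Q (absNorm Q)^(-1), oneI (f2 f3) Q = 1 since Q divides f1 (a power of π lies in f1), f2 contains a power of π', π and π' are coprime (mul, cop in Plc), f3 is coprime to p. -/
theorem e1_term (hP : Plc F V π π' p) (h1 : ∃ N, algebraMap (𝓞 F) (𝓞 K) (π ^ N) ∈ fT T1 a) (hpos : ∀ v ∈ T1, 0 < a v)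
    (h2 : ∃ N, algebraMap (𝓞 F) (𝓞 K) (π' ^ N) ∈ f2) (h3 : IsCoprime f3 (Ideal.span {(p : 𝓞 K)})) (ψ : Ideal (𝓞 F) →*₀ 𝓞 F)
    (S : Finset (HeightOneSpectrum (𝓞 K))) (hS : S ⊆ T1) :
    (Ideal.absNorm (fS T1 S a) : ℂ) * tm (PsiP K ψ * oneI (f2 * f3) : Ideal (𝓞 K) →*₀ ℂ) 1 (fS T1 S a) = PsiP K ψ (fS T1 S a) := by
  have hQ0 : fS T1 S a ≠ ⊥ := by
    unfold fS
    rw [← Ideal.zero_eq_bot]
    refine Finset.prod_ne_zero_iff.2 fun v _ => pow_ne_zero _ ?_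
    rw [Ideal.zero_eq_bot]
    exact v.ne_bot
  have hle : fT T1 a ≤ fS T1 S a := by
    have e1 : fS T1 S a * ∏ v ∈ S, v.asIdeal ≤ fS T1 S a := Ideal.mul_le_left
    rw [fS_mul hS hpos] at e1
    exact e1
  have hc2 : IsCoprime (fS T1 S a) f2 := by
    obtain ⟨N1, hN1⟩ := h1
    obtain ⟨N2, hN2⟩ := h2
    have hc : IsCoprime (π ^ N1) (π' ^ N2) := hP.cop.pow
    have hc' : IsCoprime (algebraMap (𝓞 F) (𝓞 K) (π ^ N1)) (algebraMap (𝓞 F) (𝓞 K) (π' ^ N2)) := hc.map (algebraMap (𝓞 F) (𝓞 K))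
    obtain ⟨u, t, hut⟩ := hc'
    rw [Ideal.isCoprime_iff_exists]
    exact ⟨_, Ideal.mul_mem_left _ u (hle hN1), _, Ideal.mul_mem_left _ t hN2, hut⟩
  have hc3 : IsCoprime (fS T1 S a) f3 := by
    obtain ⟨N1, hN1⟩ := h1
    have hp1 : ((p : 𝓞 K)) ^ N1 ∈ fT T1 a := by
      have e1 : ((p : 𝓞 K)) ^ N1 = algebraMap (𝓞 F) (𝓞 K) (π' ^ N1) * algebraMap (𝓞 F) (𝓞 K) (π ^ N1) := by
        rw [← map_mul, ← mul_pow, mul_comm π' π, hP.mul, map_pow, map_natCast]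
      rw [e1]
      exact Ideal.mul_mem_left _ _ hN1
    have h4 : IsCoprime f3 (Ideal.span {(p : 𝓞 K)} ^ N1) := h3.pow_right
    rw [Ideal.span_singleton_pow] at h4
    obtain ⟨x, hx, y, hy, hxy⟩ := Ideal.isCoprime_iff_exists.1 h4
    rw [Ideal.isCoprime_iff_exists]
    refine ⟨y, ?_, x, hx, by rw [add_comm, hxy]⟩
    exact ((Ideal.span_singleton_le_iff_mem _).2 (hle hp1)) hy
  have hone : oneI (f2 * f3) (fS T1 S a) = 1 := by
    classical
    have e : oneI (f2 * f3) (fS T1 S a) = if fS T1 S a ≠ ⊥ ∧ IsCoprime (fS T1 S a) (f2 * f3) then 1 else 0 := rfl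
    rw [e, if_pos ⟨hQ0, hc2.mul_right hc3⟩]
  have hN0 : (Ideal.absNorm (fS T1 S a) : ℂ) ≠ 0 := by
    exact_mod_cast (mt Ideal.absNorm_eq_zero_iff.1 hQ0)
  have htm : tm (PsiP K ψ * oneI (f2 * f3) : Ideal (𝓞 K) →*₀ ℂ) 1 (fS T1 S a) =
      PsiP K ψ (fS T1 S a) * oneI (f2 * f3) (fS T1 S a) * (Ideal.absNorm (fS T1 S a) : ℂ) ^ (-1 : ℂ) := rfl
  rw [htm, hone, mul_one, Complex.cpow_neg_one]
  field_simp

/-- Chunk TS7b (S/M). V(Ψ(v)) = 1 for π in v. PROOF. relNorm v = (π)^f (v lies above (π): Ideal.relNorm_eq_pow_of_isMaximal), ψ of it generates (π^f) (IsHecke.gen; M is coprime to p): ψ = unit * π^f; |e π|^2 = absNorm (π) = p (p = π π', both nonunits,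
absNorm p = p^2), so V(conj (e π)) V(e π) = V(p) = V(e π) V(e π') = V(e π), V(conj (e π)) = 1. Units of 𝓞 F have valuation 1. -/
theorem psi_unit_pi (hP : Plc F V π π' p) {M : Ideal (𝓞 F)} {ψ : Ideal (𝓞 F) →*₀ 𝓞 F} (h : IsHecke M ψ)
    (hMp : IsCoprime M (Ideal.span {(p : 𝓞 F)})) (v : HeightOneSpectrum (𝓞 K)) (hv : algebraMap (𝓞 F) (𝓞 K) π ∈ v.asIdeal) :
    V.valuation (PsiP K ψ v.asIdeal) = 1 := by
  have hV := hP.lt
  have hpV : V.valuation (p : ℂ) < 1 := by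
    have e1 : (p : ℂ) = eF F π * eF F π' := by rw [← map_mul, hP.mul, map_natCast]
    rw [e1, map_mul, hP.one, mul_one]
    exact hP.lt
  -- the norm of π is p
  have hNm : Nm π = p := by
    have h1 : Nm π * Nm π' = p ^ 2 := by
      unfold Nm
      rw [← map_mul, Ideal.span_singleton_mul_span_singleton, hP.mul]
      have h2 := Ideal.absNorm_span_natCast (S := 𝓞 F) p
      rw [RingOfIntegers.rank, IQ.deg] at h2
      exact h2
    have hne : Nm π ≠ 1 := by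
      unfold Nm
      rw [Ne, Ideal.absNorm_eq_one_iff, Ideal.span_singleton_eq_top]
      exact hP.pr.not_isUnit
    have hne' : Nm π' ≠ 1 := by
      unfold Nm
      rw [Ne, Ideal.absNorm_eq_one_iff, Ideal.span_singleton_eq_top]
      exact hP.nu
    have h3 : Nm π ∣ p ^ 2 := ⟨_, h1.symm⟩
    rcases (Nat.dvd_prime_pow hP.prime).1 h3 with ⟨k, hk, hk2⟩
    have hp0 := hP.prime.pos
    interval_cases k
    · exact absurd (by rw [hk2, pow_zero]) hne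
    · rw [hk2, pow_one]
    · rw [hk2] at h1
      exact absurd (Nat.eq_of_mul_eq_mul_left (pow_pos hp0 2) (by rw [h1, mul_one])) hne'
  have hcj : V.valuation ((starRingEnd ℂ) (eF F π)) = 1 := by
    have e1 : (starRingEnd ℂ) (eF F π) * eF F π = eF F π * eF F π' := by
      rw [← map_mul, hP.mul, map_natCast, mul_comm, Complex.mul_conj, Complex.normSq_eq_norm_sq, ← Nm_eq, hNm]
      push_cast
      rfl
    have h0 : eF F π ≠ 0 := eF_ne hP.pr.ne_zero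
    have e2 : (starRingEnd ℂ) (eF F π) = eF F π' := by
      apply mul_left_cancel₀ h0
      rw [mul_comm, e1]
    rw [e2, hP.one]
  -- the relative norm
  have hv0 : v.asIdeal.under (𝓞 F) ≠ ⊥ := mt Ideal.eq_bot_of_comap_eq_bot v.ne_bot
  have hvp : (v.asIdeal.under (𝓞 F)).IsPrime := inferInstance
  have hvm : (v.asIdeal.under (𝓞 F)).IsMaximal := hvp.isMaximal hv0
  have hvmax := v.isMaximal
  have hover : v.asIdeal.LiesOver (v.asIdeal.under (𝓞 F)) := ⟨rfl⟩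
  have hpi : (Ideal.span {π}).IsPrime := (Ideal.span_singleton_prime hP.pr.ne_zero).2 hP.pr
  have hpim : (Ideal.span {π}).IsMaximal := hpi.isMaximal (by
    rw [Ne, Ideal.span_singleton_eq_bot]
    exact hP.pr.ne_zero)
  have hund : Ideal.span {π} = v.asIdeal.under (𝓞 F) := by
    apply hpim.eq_of_le hvm.ne_top
    rw [Ideal.span_singleton_le_iff_mem]
    exact hv
  have hrel : Ideal.relNorm (𝓞 F) v.asIdeal = Ideal.span {π} ^ v.asIdeal.inertiaDeg (𝓞 F) := by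
    rw [Ideal.relNorm_eq_pow_of_isMaximal v.asIdeal (v.asIdeal.under (𝓞 F)), hund]
  set f := v.asIdeal.inertiaDeg (𝓞 F) with hf
  have hcopM : IsCoprime (Ideal.relNorm (𝓞 F) v.asIdeal) M := by
    rw [hrel]
    apply IsCoprime.pow_left
    apply IsCoprime.symm
    apply hMp.of_isCoprime_of_dvd_right
    rw [Ideal.dvd_span_singleton, ← hP.mul]
    exact Ideal.mem_span_singleton.2 (dvd_mul_right _ _)
  have hgen := h.gen _ hcopM
  rw [hrel, Ideal.span_singleton_pow] at hgen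
  have hass : Associated (ψ (Ideal.span {π} ^ f)) (π ^ f) := Ideal.span_singleton_eq_span_singleton.1 (by
    rw [Ideal.span_singleton_pow]
    exact hgen)
  obtain ⟨u, hu⟩ := hass.symm
  rw [PsiP_apply, hrel, ← hu, map_mul, map_mul, map_mul, map_pow, map_pow, map_pow, hcj, one_pow, one_mul]
  have h1 := PT1_int ((starRingEnd ℂ).comp (eF F)) (u : 𝓞 F) V
  have h2 := PT1_int ((starRingEnd ℂ).comp (eF F)) ((u⁻¹ : (𝓞 F)ˣ) : 𝓞 F) V
  refine le_antisymm h1 ?_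
  by_contra hcon
  have h3 : V.valuation (((starRingEnd ℂ).comp (eF F)) (u : 𝓞 F)) * V.valuation (((starRingEnd ℂ).comp (eF F)) ((u⁻¹ : (𝓞 F)ˣ) : 𝓞 F)) = 1 := by
    rw [← map_mul, ← map_mul, Units.mul_inv, map_one, map_one]
  have h4 := mul_lt_one_of_nonneg_of_lt_one_left zero_le (not_le.1 hcon) h2
  exact absurd h3 (ne_of_lt h4)

end H35M
end

-- from Lib.H35M.TS7B
section

/-! # H35M, chunk TS7B (M): the Euler factor of the primes above π -/

open NumberField IsDedekindDomain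

namespace H35M

open H55N H55P SSG.E

variable {F : Type} [Field F] [NumberField F] [IQ F] {K : Type} [Field K] [NumberField K] [Algebra F K]
  {V : ValuationSubring ℂ} {π π' : 𝓞 F} {p : ℕ} {T1 : Finset (HeightOneSpectrum (𝓞 K))} {a : HeightOneSpectrum (𝓞 K) → ℕ} {f2 f3 : Ideal (𝓞 K)}

theorem ts7b_prod {Γ : Type} [LinearOrderedCommGroupWithZero Γ] {ι : Type} (s : Finset ι) (f : ι → Γ)
    (h : ∀ i ∈ s, f i ≤ 1) : ∏ i ∈ s, f i ≤ 1 ∧ (∏ i ∈ s, f i = 1 ↔ ∀ i ∈ s, f i = 1) := by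
  classical
  induction s using Finset.induction_on with
  | empty => simp
  | insert i s hi ih =>
    obtain ⟨h1, h2⟩ := ih fun j hj => h j (Finset.mem_insert_of_mem hj)
    have h3 := h i (Finset.mem_insert_self i s)
    rw [Finset.prod_insert hi]
    refine ⟨mul_le_one' h3 h1, fun h4 => ?_, fun h4 => ?_⟩
    · have h5 : f i = 1 := by
        refine le_antisymm h3 ?_
        calc (1 : Γ) = f i * ∏ j ∈ s, f j := h4.symm
          _ ≤ f i * 1 := mul_le_mul_right h1 _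
          _ = f i := mul_one _
      rw [h5, one_mul] at h4
      intro j hj
      rcases Finset.mem_insert.1 hj with rfl | hj
      · exact h5
      · exact (h2.1 h4) j hj
    · rw [h4 i (Finset.mem_insert_self i s), one_mul]
      exact h2.2 fun j hj => h4 j (Finset.mem_insert_of_mem hj)

open Classical in
theorem ts7b_E1 (ψ : Ideal (𝓞 F) →*₀ 𝓞 F) (T1 : Finset (HeightOneSpectrum (𝓞 K)))
    (a : HeightOneSpectrum (𝓞 K) → ℕ) (hpos : ∀ v ∈ T1, 0 < a v) :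
    E1 ψ T1 a = ∏ v ∈ T1, (PsiP K ψ v.asIdeal ^ (a v - 1) * (PsiP K ψ v.asIdeal - 1)) := by
  have h1 : ∀ v ∈ T1, PsiP K ψ v.asIdeal ^ (a v - 1) * (PsiP K ψ v.asIdeal - 1) =
      (-1) * PsiP K ψ v.asIdeal ^ (a v - 1) + PsiP K ψ v.asIdeal ^ (a v) := by
    intro v hv
    obtain ⟨n, hn⟩ : ∃ n, a v = n + 1 := ⟨a v - 1, by have := hpos v hv; omega⟩
    rw [hn, Nat.add_sub_cancel, pow_succ]
    ring
  rw [Finset.prod_congr rfl h1, Finset.prod_add]
  unfold E1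
  refine Finset.sum_congr rfl fun S hS => ?_
  have hST := Finset.mem_powerset.1 hS
  have h2 : PsiP K ψ (fS T1 S a) = ∏ v ∈ T1, PsiP K ψ v.asIdeal ^ (a v - if v ∈ S then 1 else 0) := by
    unfold fS
    rw [map_prod]
    exact Finset.prod_congr rfl fun v _ => map_pow _ _ _
  rw [h2, Finset.prod_mul_distrib, Finset.prod_const, mul_assoc]
  congr 1
  rw [← Finset.prod_sdiff hST, mul_comm]
  refine congrArg₂ (· * ·) (Finset.prod_congr rfl fun v hv => by rw [if_pos hv])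
    (Finset.prod_congr rfl fun v hv => by rw [if_neg (Finset.mem_sdiff.1 hv).2, Nat.sub_zero])

/-- Chunk TS7c (M). PROOF. E1 = prod over v in T1 of Ψ(v)^(a v - 1) (Ψ(v) - 1) (Finset.prod_sub / prod_add over subsets: fS T1 S a = prod v^(a v - [v in S]); the factor for v is Ψ(v)^(a v) - Ψ(v)^(a v - 1)). V(Ψ(v)) = 1 (TS7b), V(Ψ v - 1) <= 1 (PsiP_int). -/
theorem e1_val (hP : Plc F V π π' p) {M : Ideal (𝓞 F)} {ψ : Ideal (𝓞 F) →*₀ 𝓞 F} (h : IsHecke M ψ)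
    (hMp : IsCoprime M (Ideal.span {(p : 𝓞 F)})) (hpos : ∀ v ∈ T1, 0 < a v) (hv : ∀ v ∈ T1, algebraMap (𝓞 F) (𝓞 K) π ∈ v.asIdeal) :
    V.valuation (E1 ψ T1 a) ≤ 1 ∧ (V.valuation (E1 ψ T1 a) = 1 ↔ ∀ v ∈ T1, V.valuation (1 - PsiP K ψ v.asIdeal) = 1) := by
  rw [ts7b_E1 ψ T1 a hpos, map_prod]
  have h1 : ∀ v ∈ T1, V.valuation (PsiP K ψ v.asIdeal ^ (a v - 1) * (PsiP K ψ v.asIdeal - 1)) =
      V.valuation (1 - PsiP K ψ v.asIdeal) := by
    intro v hvT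
    rw [map_mul, map_pow, psi_unit_pi hP h hMp v (hv v hvT), one_pow, one_mul, Valuation.map_sub_swap]
  rw [Finset.prod_congr rfl h1]
  refine ts7b_prod T1 _ fun v _ => ?_
  refine (Valuation.map_sub _ _ _).trans (max_le ?_ (PsiP_int ψ v.asIdeal V).1)
  rw [map_one]

end H35M
end
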