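import Mathlib
import Pool.Agent.Lib.H1M.PP2.M046
import Pool.Agent.Lib.H1M.PP2.M051
import Pool.Agent.Lib.H1M.PP2.M057
import Pool.Agent.Lib.H1M.PP2.M082
import Pool.Agent.Lib.H1M.PP2.M086
import Pool.Agent.Lib.H1M.PP2.M098
import Pool.Agent.Lib.H1M.PP2.M101
import Pool.Agent.Lib.H1M.PP2.M102

/-! Merged copies (to shorten the build) of Lib.H19B.D2, Lib.H19B.F1, Lib.H19B.F4, Lib.H19B.F3, Lib.H19B.F5. -/

-- from Lib.H19B.D2
section

/-! # H19B: definitions for the elliptic curves -/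

open NumberField IsDedekindDomain WeierstrassCurve

namespace H19B

open H55P (IQ Pt ac Dec Inert decS)
open H35P (WAB Ker tt)
open H55K (Tor CMA Dta GV ak cj)

/-- The decomposition group of V over the field N. -/
def DN {F : Type} [Field F] {Ω : Type} [Field Ω] [Algebra F Ω] (N : IntermediateField F Ω) (V : ValuationSubring Ω) :
    Subgroup (Ω ≃ₐ[F] Ω) := N.fixingSubgroup ⊓ decS F V

section

variable {F : Type} [Field F] {Ω : Type} [Field Ω] [Algebra F Ω]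

theorem mem_DN {N : IntermediateField F Ω} {V : ValuationSubring Ω} {s : Ω ≃ₐ[F] Ω} :
    s ∈ DN N V ↔ s ∈ N.fixingSubgroup ∧ Dec V s := Iff.rfl

end

variable {F : Type} [Field F] [NumberField F] [IQ F] {A B : F} {Ω : Type} [Field Ω] [DecidableEq Ω]
  [Algebra F Ω] {act : 𝓞 F →+* AddMonoid.End (Pt (WAB A B) Ω)}

/-- The frame X belongs to the curve, the prime element π of value less than 1 and the field N: E and C are the subgroups of D which fix the points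
killed by the conjugate of π and by p, w is in N, the residue classes are represented by elements of N, and D acts on the points killed by
the conjugate of π through et, and on the points killed by π through om / et. -/
structure Of (X : Frm F Ω) (act : 𝓞 F →+* AddMonoid.End (Pt (WAB A B) Ω)) (π : 𝓞 F) (N : IntermediateField F Ω) : Prop where
  ok : X.Ok
  D : X.D = DN N X.V
  E : ∀ s : Ω ≃ₐ[F] Ω, s ∈ X.E ↔ s ∈ X.D ∧ ∀ T : Pt (WAB A B) Ω, act (cj π) T = 0 → ac (WAB A B) s T = T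
  C : ∀ s : Ω ≃ₐ[F] Ω, s ∈ X.C ↔ s ∈ X.D ∧ ∀ T : Pt (WAB A B) Ω, X.p • T = 0 → ac (WAB A B) s T = T
  wN : X.w ∈ N
  rs : ∃ r : Fin X.q → Ω, (∀ i, r i ∈ N ∧ X.V.valuation (r i) ≤ 1) ∧ (∀ i i', i ≠ i' → X.V.valuation (r i - r i') = 1) ∧
    ∀ x : Ω, (∀ s ∈ X.D, s x = x) → X.V.valuation x ≤ 1 → ∃ i, X.V.valuation (x - r i) < 1
  ch : ∀ s ∈ X.D, ∀ T : Pt (WAB A B) Ω, act π T = 0 → (X.et s).val • ac (WAB A B) s T = (X.om s).val • T
  ch' : ∀ s ∈ X.D, ∀ T : Pt (WAB A B) Ω, act (cj π) T = 0 → ac (WAB A B) s T = (X.et s).val • T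

/-- c is a continuous cocycle on D with values in the points killed by π. -/
structure Cc (D : Subgroup (Ω ≃ₐ[F] Ω)) (act : 𝓞 F →+* AddMonoid.End (Pt (WAB A B) Ω)) (π : 𝓞 F)
    (c : (Ω ≃ₐ[F] Ω) → Pt (WAB A B) Ω) : Prop where
  mul : ∀ s ∈ D, ∀ t ∈ D, c (s * t) = c s + ac (WAB A B) s (c t)
  tor : ∀ s ∈ D, act π (c s) = 0
  cont : ∃ L : IntermediateField F Ω, FiniteDimensional F L ∧ ∀ s ∈ D, s ∈ L.fixingSubgroup → c s = 0

/-- The group of these cocycles. -/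
def CS (D : Subgroup (Ω ≃ₐ[F] Ω)) (act : 𝓞 F →+* AddMonoid.End (Pt (WAB A B) Ω)) (π : 𝓞 F) :
    AddSubgroup ((Ω ≃ₐ[F] Ω) → Pt (WAB A B) Ω) where
  carrier := {c | Cc D act π c}
  zero_mem' := ⟨fun s _ t _ => by simp, fun s _ => by simp, ⊥, inferInstance, fun s _ _ => rfl⟩
  add_mem' := by
    rintro a b ⟨a1, a2, L, hL, a3⟩ ⟨b1, b2, L', hL', b3⟩
    refine ⟨fun s hs t ht => ?_, fun s hs => ?_, L ⊔ L', IntermediateField.finiteDimensional_sup L L', fun s hs hs' => ?_⟩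
    · rw [Pi.add_apply, Pi.add_apply, Pi.add_apply, a1 s hs t ht, b1 s hs t ht, map_add]
      abel
    · rw [Pi.add_apply, map_add, a2 s hs, b2 s hs, add_zero]
    · rw [IntermediateField.fixingSubgroup_sup] at hs'
      rw [Pi.add_apply, a3 s hs hs'.1, b3 s hs hs'.2, add_zero]
  neg_mem' := by
    rintro a ⟨a1, a2, L, hL, a3⟩
    refine ⟨fun s hs t ht => ?_, fun s hs => ?_, L, hL, fun s hs hs' => ?_⟩
    · rw [Pi.neg_apply, Pi.neg_apply, Pi.neg_apply, a1 s hs t ht, map_neg]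
      abel
    · rw [Pi.neg_apply, map_neg, a2 s hs, neg_zero]
    · rw [Pi.neg_apply, a3 s hs hs', neg_zero]

theorem mem_CS (D : Subgroup (Ω ≃ₐ[F] Ω)) (π : 𝓞 F) (c : (Ω ≃ₐ[F] Ω) → Pt (WAB A B) Ω) : c ∈ CS D act π ↔ Cc D act π c :=
  Iff.rfl

/-- The cocycles which are, on the inertia group, the coboundary of a point killed by π. -/
def CI (D : Subgroup (Ω ≃ₐ[F] Ω)) (V : ValuationSubring Ω) (act : 𝓞 F →+* AddMonoid.End (Pt (WAB A B) Ω)) (π : 𝓞 F) :
    AddSubgroup ((Ω ≃ₐ[F] Ω) → Pt (WAB A B) Ω) where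
  carrier := {c | Cc D act π c ∧ ∃ T : Pt (WAB A B) Ω, act π T = 0 ∧ ∀ s ∈ D, Inert V s → c s = ac (WAB A B) s T - T}
  zero_mem' := ⟨(CS D act π).zero_mem, 0, map_zero _, fun s _ _ => by rw [Pi.zero_apply, map_zero, sub_zero]⟩
  add_mem' := by
    rintro a b ⟨a1, T, a2, a3⟩ ⟨b1, T', b2, b3⟩
    refine ⟨(CS D act π).add_mem a1 b1, T + T', by rw [map_add, a2, b2, add_zero], fun s hs hi => ?_⟩
    rw [Pi.add_apply, a3 s hs hi, b3 s hs hi, map_add]
    abel
  neg_mem' := by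
    rintro a ⟨a1, T, a2, a3⟩
    refine ⟨(CS D act π).neg_mem a1, -T, by rw [map_neg, a2, neg_zero], fun s hs hi => ?_⟩
    rw [Pi.neg_apply, a3 s hs hi, map_neg]
    abel

theorem mem_CI (D : Subgroup (Ω ≃ₐ[F] Ω)) (V : ValuationSubring Ω) (π : 𝓞 F) (c : (Ω ≃ₐ[F] Ω) → Pt (WAB A B) Ω) :
    c ∈ CI D V act π ↔
      Cc D act π c ∧ ∃ T : Pt (WAB A B) Ω, act π T = 0 ∧ ∀ s ∈ D, Inert V s → c s = ac (WAB A B) s T - T :=
  Iff.rfl

/-- The points P in the kernel of reduction at V, fixed by D, with V(t(P)) ≤ V(w)^(i+1). -/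
def EF {V : ValuationSubring Ω} (hG : GV A B V) (D : Subgroup (Ω ≃ₐ[F] Ω)) (w : Ω) (hw : V.valuation w < 1) (i : ℕ) :
    AddSubgroup (Pt (WAB A B) Ω) where
  carrier := {P | Ker V P ∧ (∀ s ∈ D, ac (WAB A B) s P = P) ∧ V.valuation (tt P) ≤ V.valuation w ^ (i + 1)}
  zero_mem' := ⟨trivial, fun s _ => map_zero _, by
    have e : tt (0 : Pt (WAB A B) Ω) = 0 := rfl
    rw [e, map_zero]
    exact zero_le⟩
  add_mem' := by
    rintro P Q ⟨a1, a2, a3⟩ ⟨b1, b2, b3⟩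
    refine ⟨H55K.kadd hG a1 b1, fun s hs => by rw [map_add, a2 s hs, b2 s hs], ?_⟩
    have h1 := H55K.tt_add2 hG a1 b1 (V.valuation w ^ (i + 1)) a3 b3
    have h2 : (V.valuation w ^ (i + 1)) ^ 2 ≤ V.valuation w ^ (i + 1) := by
      rw [sq]
      exact mul_le_of_le_one_left' (pow_le_one' hw.le _)
    have e : tt (P + Q) = (tt (P + Q) - tt P - tt Q) + tt P + tt Q := by ring
    rw [e]
    exact V.valuation.map_add_le (V.valuation.map_add_le (h1.trans h2) a3) b3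
  neg_mem' := by
    rintro P ⟨a1, a2, a3⟩
    refine ⟨H55K.kneg a1, fun s hs => by rw [map_neg, a2 s hs], ?_⟩
    rw [H55K.tt_neg, Valuation.map_neg]
    exact a3

theorem mem_EF {V : ValuationSubring Ω} (hG : GV A B V) (D : Subgroup (Ω ≃ₐ[F] Ω)) (w : Ω) (hw : V.valuation w < 1) (i : ℕ)
    (P : Pt (WAB A B) Ω) : P ∈ EF hG D w hw i ↔
      Ker V P ∧ (∀ s ∈ D, ac (WAB A B) s P = P) ∧ V.valuation (tt P) ≤ V.valuation w ^ (i + 1) := Iff.rfl

end H19B
end

-- from Lib.H19B.F1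
section

/-! # H19B, chunk F1 (M): the uniformizer -/

open NumberField IsDedekindDomain WeierstrassCurve

namespace H19B

open H55P (IQ Pt ac Dec Inert decS Nm)
open H35P (WAB Ker tt)
open H55K (Tor CMA Dta GV ak cj)

variable {F : Type} [Field F] [NumberField F] [IQ F] {A B : F} {Om : ℂ} {Ω : Type} [Field Ω] [DecidableEq Ω]
  [Algebra F Ω] [IsAlgClosure F Ω] {j : Ω →+* ℂ} {act : 𝓞 F →+* AddMonoid.End (Pt (WAB A B) Ω)} {mo : Ideal (𝓞 F)}
  {ψ : Ideal (𝓞 F) →*₀ 𝓞 F} {p : ℕ} {V : ValuationSubring Ω} {π : 𝓞 F}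

omit [IQ F] [DecidableEq Ω] in
/-- Chunk F1 (M). PROOF. N is not contained in V (1/p is in N), so H13S.exists_below N V gives the prime w0 of N below V: H13S.Abv N V w0 (Abv.le, Abv.lt translate V.valuation on N into w0.valuation N; see Lib/H13S/VW.lean, IN4.lean). An element w of N with
w0.valuation N w = exp (-1) exists (HeightOneSpectrum.valuation_exists_uniformizer). For a in N, a ≠ 0: w0.valuation N a = exp (-i) = (w0.valuation N w)^i for an integer i, hence V(a) = V(w)^i (Abv.le in both directions for a and w^i). For y fixed by the inertia elements fixing N: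
H13S.value_fixed gives a in N with V(y) = V(a). V(w) < 1 by Abv.lt. V(p) = V(w)^i with i > 0 as V(p) < 1, i = e. -/
theorem exists_unif (hp : p.Prime) (hV : V.valuation (p : Ω) < 1) (N : IntermediateField F Ω) [NumberField N] :
    ∃ (w : Ω) (e : ℕ), w ∈ N ∧ w ≠ 0 ∧ V.valuation w < 1 ∧ 0 < e ∧ V.valuation (p : Ω) = V.valuation w ^ e ∧
      ∀ y : Ω, y ≠ 0 → (∀ s ∈ N.fixingSubgroup, Inert V s → s y = y) → ∃ i : ℤ, V.valuation y = V.valuation w ^ i := by
  have hc : CharZero Ω := charZero_of_injective_algebraMap (algebraMap F Ω).injective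
  have hpΩ : (p : Ω) ≠ 0 := Nat.cast_ne_zero.2 hp.ne_zero
  have hcp : (((p : N)) : Ω) = (p : Ω) := by
    have h1 : algebraMap N Ω (p : N) = (p : Ω) := map_natCast _ _
    exact h1
  have hnot : ∃ x : N, (x : Ω) ∉ V := by
    refine ⟨(p : N)⁻¹, ?_⟩
    have e : (((p : N)⁻¹ : N) : Ω) = (p : Ω)⁻¹ := by
      have h1 : (((p : N)⁻¹ : N) : Ω) = (((p : N)) : Ω)⁻¹ := rfl
      rw [h1, hcp]
    rw [← V.valuation_le_one_iff, e, map_inv₀, inv_le_one₀ (zero_lt_iff.2 ((map_ne_zero _).2 hpΩ))]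
    exact not_le.2 hV
  obtain ⟨w0, hw0⟩ := H13S.exists_below N V hnot
  obtain ⟨w, hw⟩ := w0.valuation_exists_uniformizer N
  have hwne : w ≠ 0 := by
    intro h
    rw [h, map_zero] at hw
    exact WithZero.exp_ne_zero hw.symm
  have key : ∀ a : N, a ≠ 0 → ∃ i : ℤ, V.valuation (a : Ω) = V.valuation (w : Ω) ^ i := by
    intro a ha
    have hva : w0.valuation N a ≠ 0 := (map_ne_zero _).2 ha
    obtain ⟨k, hk⟩ : ∃ k : ℤ, w0.valuation N a = WithZero.exp k :=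
      ⟨WithZero.log (w0.valuation N a), (WithZero.exp_log hva).symm⟩
    refine ⟨-k, ?_⟩
    have h1 : w0.valuation N a = w0.valuation N (w ^ (-k)) := by
      rw [map_zpow₀, hw, ← WithZero.exp_zsmul, hk]
      congr 1
      simp
    have h2 : V.valuation (a : Ω) = V.valuation ((w ^ (-k) : N) : Ω) :=
      le_antisymm ((hw0.le _ _).2 h1.le) ((hw0.le _ _).2 h1.ge)
    have e : ((w ^ (-k) : N) : Ω) = (w : Ω) ^ (-k) := map_zpow₀ (algebraMap N Ω) w (-k)
    rw [h2, e, map_zpow₀]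
  have hwlt : V.valuation (w : Ω) < 1 := by
    rw [hw0.lt w, hw, ← WithZero.exp_zero, WithZero.exp_lt_exp]
    norm_num
  have hwΩ : (w : Ω) ≠ 0 := fun h => hwne (Subtype.ext h)
  have hw0v : 0 < V.valuation (w : Ω) := zero_lt_iff.2 ((map_ne_zero _).2 hwΩ)
  obtain ⟨i, hi⟩ := key (p : N) (Nat.cast_ne_zero.2 hp.ne_zero)
  rw [hcp] at hi
  have hipos : 0 < i := by
    by_contra hcon
    have h1 : ∃ n : ℕ, i = -(n : ℤ) := ⟨i.natAbs, by omega⟩
    obtain ⟨n, hn⟩ := h1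
    rw [hn, zpow_neg, zpow_natCast] at hi
    rw [hi] at hV
    have h2 : V.valuation (w : Ω) ^ n ≤ 1 := pow_le_one₀ zero_le' hwlt.le
    exact absurd hV (not_lt.2 ((one_le_inv₀ (pow_pos hw0v n)).2 h2))
  obtain ⟨e, he⟩ := Int.eq_ofNat_of_zero_le hipos.le
  refine ⟨w, e, w.2, hwΩ, hwlt, by omega, ?_, ?_⟩
  · rw [hi, he, zpow_natCast]
  · intro y hy hs
    obtain ⟨a, ha, hya⟩ := H13S.value_fixed N V y hy hs
    obtain ⟨i, hi⟩ := key a ha
    exact ⟨i, hya.trans hi⟩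

end H19B
end

-- from Lib.H19B.F4
section

/-! # H19B, chunk F4 (S/M): the cyclotomic character -/

open NumberField IsDedekindDomain WeierstrassCurve

namespace H19B

open H55P (IQ Pt ac Dec Inert decS Nm)
open H35P (WAB Ker tt)
open H55K (Tor CMA Dta GV ak cj)

variable {F : Type} [Field F] [NumberField F] [IQ F] {A B : F} {Om : ℂ} {Ω : Type} [Field Ω] [DecidableEq Ω]
  [Algebra F Ω] [IsAlgClosure F Ω] {j : Ω →+* ℂ} {act : 𝓞 F →+* AddMonoid.End (Pt (WAB A B) Ω)} {mo : Ideal (𝓞 F)}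
  {ψ : Ideal (𝓞 F) →*₀ 𝓞 F} {p : ℕ} {V : ValuationSubring Ω} {π : 𝓞 F}

/-- Chunk F4 (S/M). PROOF. T₀ ≠ 0 in Tor act π, T₀' ≠ 0 in Tor act (cj π) (h.gen); a = (κ s).val, b = (η s).val as elements of 𝓞 F: ac s T₀ = act a T₀ (act_nat), ac s T₀' = act b T₀'. c with s ζ = ζ^c (IsPrimitiveRoot.eq_pow_of_pow_eq_one). H55K.S.char_id: π divides cj b * a - c = b a - c (cj_nat), an integer;
so p = Nm π divides (b a - c)^2 (Nm of an integer), p divides b a - c, (c : ZMod p) = κ s * η s; ζ^c = zt ζ (c : ZMod p) (exponents modulo p: pow_mod_orderOf, ZMod.val_natCast). -/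
theorem cyc_ch (dta : Dta A B Om j act mo ψ p) (hπ : Prime π) (hd : π ∣ (p : 𝓞 F)) (hs : ¬ π ∣ cj π) {ζ : Ω} (hζ : IsPrimitiveRoot ζ p)
    {κ η : (Ω ≃ₐ[F] Ω) → ZMod p} (h1 : ∀ s, ∀ T : Pt (WAB A B) Ω, act π T = 0 → ac (WAB A B) s T = (κ s).val • T)
    (h2 : ∀ s, ∀ T : Pt (WAB A B) Ω, act (cj π) T = 0 → ac (WAB A B) s T = (η s).val • T) (s : Ω ≃ₐ[F] Ω) :
    s ζ = zt ζ (κ s * η s) := by
  classical
  have hp := dta.prime
  haveI : Fact p.Prime := ⟨hp⟩
  have hπ' : Prime (cj π) := H55K.cj_prime hπ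
  obtain ⟨T₀, hT, -, h0, -⟩ := dta.cma.gen π hπ.ne_zero
  obtain ⟨T₀', hT', -, h0', -⟩ := dta.cma.gen (cj π) hπ'.ne_zero
  have hT0 : T₀ ≠ 0 := by
    intro h
    have h3 : π ∣ 1 := (h0 1).1 (by rw [h, map_zero])
    exact hπ.not_unit (isUnit_of_dvd_one h3)
  have hT0' : T₀' ≠ 0 := by
    intro h
    have h3 : cj π ∣ 1 := (h0' 1).1 (by rw [h, map_zero])
    exact hπ'.not_unit (isUnit_of_dvd_one h3)
  have hTk : act π T₀ = 0 := (h0 π).2 dvd_rfl
  have hTk' : act (cj π) T₀' = 0 := (h0' (cj π)).2 dvd_rfl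
  have hs1 : s ζ ^ p = 1 := by rw [← map_pow, hζ.pow_eq_one, map_one]
  obtain ⟨c, -, hc⟩ := hζ.eq_pow_of_pow_eq_one hs1
  have ha : ac (WAB A B) s T₀ = act (((κ s).val : ℕ) : 𝓞 F) T₀ := by
    rw [h1 s T₀ hTk, H55K.S.act_nat]
  have hb : ac (WAB A B) s T₀' = act (((η s).val : ℕ) : 𝓞 F) T₀' := by
    rw [h2 s T₀' hTk', H55K.S.act_nat]
  have h3 := H55K.S.char_id π p dta hπ hd ζ hζ s _ _ c T₀ T₀' hT hT0 hT' hT0' ha hb hc.symm
  rw [H55K.cj_nat] at h3
  have h4 : (p : ℤ) ∣ ((η s).val : ℤ) * ((κ s).val : ℤ) - (c : ℤ) := by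
    by_contra hn
    obtain ⟨u, v, huv⟩ := ((Nat.prime_iff_prime_int.1 hp).coprime_iff_not_dvd).2 hn
    have h5 : ((u : ℤ) : 𝓞 F) * (p : 𝓞 F) + ((v : ℤ) : 𝓞 F) * ((((η s).val : ℕ) : 𝓞 F) * (((κ s).val : ℕ) : 𝓞 F) - (c : 𝓞 F)) = 1 := by
      have h6 := congrArg (Int.cast : ℤ → 𝓞 F) huv
      push_cast at h6
      exact h6
    refine hπ.not_unit (isUnit_of_dvd_one ?_)
    rw [← h5]
    exact dvd_add (hd.mul_left _) (h3.mul_left _)
  have h5 : (c : ZMod p) = κ s * η s := by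
    have h6 := (ZMod.intCast_zmod_eq_zero_iff_dvd _ p).2 h4
    push_cast at h6
    rw [ZMod.natCast_zmod_val, ZMod.natCast_zmod_val, sub_eq_zero] at h6
    rw [← h6, mul_comm]
  unfold zt
  rw [← h5, ZMod.val_natCast, ← hc]
  exact pow_eq_pow_mod c hζ.pow_eq_one

end H19B
end

-- from Lib.H19B.F3
section

/-! # H19B, chunk F3 (M): the characters of the Galois group on the points killed by π -/

open NumberField IsDedekindDomain WeierstrassCurve

namespace H19B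

open H55P (IQ Pt ac Dec Inert decS Nm)
open H35P (WAB Ker tt)
open H55K (Tor CMA Dta GV ak cj)

variable {F : Type} [Field F] [NumberField F] [IQ F] {A B : F} {Om : ℂ} {Ω : Type} [Field Ω] [DecidableEq Ω]
  [Algebra F Ω] [IsAlgClosure F Ω] {j : Ω →+* ℂ} {act : 𝓞 F →+* AddMonoid.End (Pt (WAB A B) Ω)} {mo : Ideal (𝓞 F)}
  {ψ : Ideal (𝓞 F) →*₀ 𝓞 F} {p : ℕ} {V : ValuationSubring Ω} {π : 𝓞 F}

omit [IQ F] in
/-- In a residue field with a prime number of elements every element is a natural number. -/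
theorem f3_natmod {π : 𝓞 F} {l : ℕ} (hl : l.Prime) (hN : Nm π = l) (a : 𝓞 F) : ∃ n : ℕ, π ∣ a - (n : 𝓞 F) := by
  have hc : Nat.card (𝓞 F ⧸ Ideal.span {π}) = l := hN
  have hfin : Finite (𝓞 F ⧸ Ideal.span {π}) := Nat.finite_of_card_ne_zero (by rw [hc]; exact hl.ne_zero)
  let : Fintype (𝓞 F ⧸ Ideal.span {π}) := Fintype.ofFinite _
  have hl0 : NeZero l := ⟨hl.ne_zero⟩
  rw [Nat.card_eq_fintype_card] at hc
  let e := ZMod.ringEquivOfPrime (𝓞 F ⧸ Ideal.span {π}) hl hc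
  refine ⟨(e.symm (Ideal.Quotient.mk (Ideal.span {π}) a)).val, ?_⟩
  rw [← Ideal.mem_span_singleton, ← Ideal.Quotient.eq, map_natCast]
  have h1 : e (((e.symm (Ideal.Quotient.mk (Ideal.span {π}) a)).val : ℕ) : ZMod l) =
      Ideal.Quotient.mk (Ideal.span {π}) a := by
    rw [ZMod.natCast_val, ZMod.cast_id, RingEquiv.apply_symm_apply]
  exact h1.symm.trans (map_natCast e _)

theorem f3_split (hp : p.Prime) (unr : ∀ v : HeightOneSpectrum (𝓞 F), (p : 𝓞 F) ∉ v.asIdeal ^ 2)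
    (hπ : Prime π) (hd : π ∣ (p : 𝓞 F)) (hs : ¬ π ∣ cj π) : Nm π = p ∧ π * cj π = (p : 𝓞 F) := by
  rcases H55K.S.dichotomy hp unr hπ hd with h1 | h1
  · exact absurd h1.1.symm.dvd hs
  · exact ⟨h1.2.2.1, h1.2.2.2⟩

omit [IsAlgClosure F Ω] in
theorem f3_gen (h : CMA F A B Om j act) (hp : p.Prime) (unr : ∀ v : HeightOneSpectrum (𝓞 F), (p : 𝓞 F) ∉ v.asIdeal ^ 2)
    (hπ : Prime π) (hd : π ∣ (p : 𝓞 F)) (hs : ¬ π ∣ cj π) :
    ∃ T₀ : Pt (WAB A B) Ω, act π T₀ = 0 ∧ (∀ T : Pt (WAB A B) Ω, act π T = 0 → ∃ a : ZMod p, T = a.val • T₀) ∧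
      p • T₀ = 0 ∧ T₀ ≠ 0 ∧ ∀ m n : ℕ, m • T₀ = n • T₀ → (m : ZMod p) = n := by
  have hN := (f3_split hp unr hπ hd hs).1
  have hpf : Fact p.Prime := ⟨hp⟩
  obtain ⟨T₀, h1, h2, h3, _⟩ := h.gen π hπ.ne_zero
  have h4 : T₀ ≠ 0 := by
    intro h0
    have h5 := (h3 1).1 (by rw [h0, map_zero])
    exact hπ.not_isUnit (isUnit_of_dvd_one h5)
  have h5 : p • T₀ = 0 := by
    rw [← H55K.S.act_nat (act := act)]
    exact (h3 _).2 hd
  have h6 : addOrderOf T₀ = p := addOrderOf_eq_prime h5 h4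
  refine ⟨T₀, h1, fun T hT => ?_, h5, h4, fun m n hmn => ?_⟩
  · obtain ⟨a, ha⟩ := h2 T hT
    obtain ⟨n, hn⟩ := f3_natmod hp hN a
    refine ⟨(n : ZMod p), ?_⟩
    have h7 : act a T₀ = n • T₀ := by
      have h8 : act (a - n) T₀ = 0 := (h3 _).2 hn
      rw [H55K.S.act_sub, H55K.S.act_nat, sub_eq_zero] at h8
      exact h8
    rw [ha, h7, ZMod.val_natCast]
    exact nsmul_eq_nsmul_iff_modEq.2 (by rw [h6]; exact (Nat.mod_modEq n p).symm)
  · rw [nsmul_eq_nsmul_iff_modEq, h6] at hmn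
    exact (ZMod.natCast_eq_natCast_iff m n p).2 hmn

omit [IsAlgClosure F Ω] in
/-- Chunk F3 (M). PROOF. T₀ ≠ 0 in Tor act π with all T in Tor act π of the form act a T₀ and act a T₀ = 0 iff π divides a (h.gen π). Nm π = p (H55K.S.dichotomy with unr, π does not divide cj π), so every a in 𝓞 F is congruent modulo π to a natural number k (𝓞 F / π has p elements and characteristic p:
the map ZMod p → 𝓞 F / π is injective between finite sets of p elements; or PA1 lemmas), and act a T₀ = k • T₀. So every T in Tor act π is k • T₀ with k in ZMod p unique (k • T₀ = 0 iff p divides k: π divides k, p = Nm π divides Nm k = k^2), k.val for the representative.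
κ s := the k with ac s T₀ = k.val • T₀ (ac_mem). All T = m • T₀: ac s T = k.val • T. Multiplicativity: ac (s t) = ac s ac t; uniqueness; κ s ≠ 0 as ac s is injective. If s fixes Tor act π then κ s = 1 (uniqueness; 1.val = 1 as p > 1). -/
theorem exists_ch (h : CMA F A B Om j act) (hp : p.Prime) (unr : ∀ v : HeightOneSpectrum (𝓞 F), (p : 𝓞 F) ∉ v.asIdeal ^ 2)
    (hπ : Prime π) (hd : π ∣ (p : 𝓞 F)) (hs : ¬ π ∣ cj π) :
    ∃ κ : (Ω ≃ₐ[F] Ω) → ZMod p, (∀ s, ∀ T : Pt (WAB A B) Ω, act π T = 0 → ac (WAB A B) s T = (κ s).val • T) ∧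
      (∀ s t, κ (s * t) = κ s * κ t) ∧ (∀ s, κ s ≠ 0) ∧
      ∀ s, (κ s = 1 ↔ ∀ T : Pt (WAB A B) Ω, act π T = 0 → ac (WAB A B) s T = T) := by
  have hpf : Fact p.Prime := ⟨hp⟩
  have hp1 : Fact (1 < p) := ⟨hp.one_lt⟩
  obtain ⟨T₀, h1, h2, _, h4, h5⟩ := f3_gen h hp unr hπ hd hs
  have h6 : ∀ s : Ω ≃ₐ[F] Ω, ∃ k : ZMod p, ac (WAB A B) s T₀ = k.val • T₀ := fun s =>
    h2 _ (H55K.S.ac_mem h s (H55K.S.mem_Tor.2 h1))
  choose κ hκ using h6
  have h7 : ∀ s, ∀ T : Pt (WAB A B) Ω, act π T = 0 → ac (WAB A B) s T = (κ s).val • T := by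
    intro s T hT
    obtain ⟨a, ha⟩ := h2 T hT
    rw [ha, map_nsmul, hκ s, ← mul_nsmul, ← mul_nsmul, mul_comm]
  refine ⟨κ, h7, fun s t => ?_, fun s h0 => ?_, fun s => ⟨fun hk T hT => ?_, fun hk => ?_⟩⟩
  · have h8 : (κ (s * t)).val • T₀ = ((κ t).val * (κ s).val) • T₀ := by
      rw [← hκ (s * t), H55K.S.ac_mul, hκ t, map_nsmul, hκ s, ← mul_nsmul, mul_comm]
    have h9 := h5 _ _ h8
    rw [Nat.cast_mul, ZMod.natCast_zmod_val, ZMod.natCast_zmod_val, ZMod.natCast_zmod_val] at h9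
    rw [h9, mul_comm]
  · have h8 := hκ s
    rw [h0, ZMod.val_zero, zero_smul] at h8
    exact H55K.S.ac_ne s h4 h8
  · rw [h7 s T hT, hk, ZMod.val_one, one_smul]
  · have h8 : (κ s).val • T₀ = 1 • T₀ := by rw [← hκ s, hk T₀ h1, one_smul]
    have h9 := h5 _ _ h8
    rwa [ZMod.natCast_zmod_val, Nat.cast_one] at h9

omit [IsAlgClosure F Ω] in
/-- Chunk F3 (S/M). The group of the points killed by π is cyclic of order p. -/
theorem exists_T0 (h : CMA F A B Om j act) (hp : p.Prime) (unr : ∀ v : HeightOneSpectrum (𝓞 F), (p : 𝓞 F) ∉ v.asIdeal ^ 2)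
    (hπ : Prime π) (hd : π ∣ (p : 𝓞 F)) (hs : ¬ π ∣ cj π) :
    ∃ T₀ : Pt (WAB A B) Ω, act π T₀ = 0 ∧ (∀ T : Pt (WAB A B) Ω, act π T = 0 → ∃ a : ZMod p, T = a.val • T₀) ∧
      (∀ a : ZMod p, a.val • T₀ = 0 → a = 0) ∧ p • T₀ = 0 := by
  have hpf : Fact p.Prime := ⟨hp⟩
  obtain ⟨T₀, h1, h2, h3, _, h5⟩ := f3_gen h hp unr hπ hd hs
  refine ⟨T₀, h1, h2, fun a ha => ?_, h3⟩
  have h6 := h5 a.val 0 (by rw [ha, zero_smul])
  rwa [ZMod.natCast_zmod_val, Nat.cast_zero] at h6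

omit [IsAlgClosure F Ω] in
/-- Chunk F3 (S). A point killed by p is the sum of a point killed by π and one killed by cj π. PROOF. π * cj π = p (dichotomy); π and cj π are coprime in the principal ideal ring 𝓞 F: u π + v cj π = 1; T = act (v cj π) T + act (u π) T. -/
theorem tors_split (h : CMA F A B Om j act) (hp : p.Prime) (unr : ∀ v : HeightOneSpectrum (𝓞 F), (p : 𝓞 F) ∉ v.asIdeal ^ 2)
    (hπ : Prime π) (hd : π ∣ (p : 𝓞 F)) (hs : ¬ π ∣ cj π) : π * cj π = (p : 𝓞 F) ∧ ∃ u v : 𝓞 F, u * π + v * cj π = 1 := by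
  refine ⟨(f3_split hp unr hπ hd hs).2, ?_⟩
  exact (hπ.irreducible.coprime_iff_not_dvd).2 hs

end H19B
end

-- from Lib.H19B.F5
section

/-! # H19B, chunk F5 (M): a Frobenius element moves the etale points -/

open NumberField IsDedekindDomain WeierstrassCurve

namespace H19B

open H55P (IQ Pt ac Dec Inert decS Nm)
open H35P (WAB Ker tt)
open H55K (Tor CMA Dta GV ak cj)

variable {F : Type} [Field F] [NumberField F] [IQ F] {A B : F} {Om : ℂ} {Ω : Type} [Field Ω] [DecidableEq Ω]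
  [Algebra F Ω] [IsAlgClosure F Ω] {j : Ω →+* ℂ} {act : 𝓞 F →+* AddMonoid.End (Pt (WAB A B) Ω)} {mo : Ideal (𝓞 F)}
  {ψ : Ideal (𝓞 F) →*₀ 𝓞 F} {p : ℕ} {V : ValuationSubring Ω} {π : 𝓞 F}

/-- Chunk F5 (M). The action of the decomposition group on the points killed by an element of value 1 is determined by the action on the residue classes. PROOF. V(b) = 1. If φ fixes all T in Tor act b then every s in DN N V fixes them: T = 0 clear; T ≠ 0 in Tor act b is not in Ker V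
(H55K.tor_unit), so its coordinates x, y have value ≤ 1 (not_ker, gv_y). φ T = T gives φ x = x, V(x^q - x) < 1 (hφ), so x is congruent to some r i in N (h3; the elements r i are all roots of T^q - T modulo V) and s x is congruent to s (r i) = r i, hence to x (H55P.dec_lt1: s preserves V( ) < 1); the same for y.
So s T and T are congruent, H55K.cls_xy: s T - T in Ker V, and it is killed by b: s T = T (tor_unit). -/
theorem frob_fix (h : CMA F A B Om j act) (hG : GV A B V) {b : 𝓞 F} (hb : V.valuation (ak Ω b) = 1) {N : IntermediateField F Ω}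
    {q : ℕ} {φ : Ω ≃ₐ[F] Ω} (hφ : ∀ x : Ω, V.valuation x ≤ 1 → V.valuation (φ x - x ^ q) < 1) {r : Fin q → Ω}
    (h1 : ∀ i, r i ∈ N ∧ V.valuation (r i) ≤ 1) (h3 : ∀ x : Ω, V.valuation x ≤ 1 → V.valuation (x ^ q - x) < 1 → ∃ i, V.valuation (x - r i) < 1)
    (hf : ∀ T : Pt (WAB A B) Ω, act b T = 0 → ac (WAB A B) φ T = T) (s : Ω ≃ₐ[F] Ω) (hs : s ∈ DN N V) (T : Pt (WAB A B) Ω)
    (hT : act b T = 0) : ac (WAB A B) s T = T := by
  have hTm : T ∈ Tor act b := hT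
  by_cases hT0 : T = 0
  · rw [hT0]
    exact map_zero _
  have hK : ¬ Ker V T := fun hk => hT0 (H55K.tor_unit h hG hb hTm hk)
  obtain ⟨-, hx1⟩ := H55K.not_ker V hK
  have hy1 := H55K.gv_y hG hK
  obtain ⟨hsN, hsD⟩ := mem_DN.1 hs
  rw [IntermediateField.mem_fixingSubgroup_iff] at hsN
  have key : ∀ x : Ω, V.valuation x ≤ 1 → φ x = x → V.valuation (s x - x) < 1 := by
    intro x hx hfx
    have h2 := hφ x hx
    rw [hfx] at h2
    have h4 : V.valuation (x ^ q - x) < 1 := by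
      rw [← Valuation.map_neg, neg_sub]
      exact h2
    obtain ⟨i, hi⟩ := h3 x hx h4
    have hri : s (r i) = r i := hsN _ (h1 i).1
    have h5 : V.valuation (s (x - r i)) < 1 := (H55P.dec_lt1 V s hsD _).2 hi
    rw [map_sub, hri] at h5
    have e : s x - x = (s x - r i) - (x - r i) := by ring
    rw [e]
    exact lt_of_le_of_lt (V.valuation.map_sub _ _) (max_lt h5 hi)
  have hfT := hf T hT
  have hxx : φ (H55K.xc T) = H55K.xc T := by
    rw [← H55K.xc_ac, hfT]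
  have hyy : φ (H55K.yc T) = H55K.yc T := by
    rw [← H55K.yc_ac, hfT]
  have hsm : ac (WAB A B) s T ∈ Tor act b := H55K.S.ac_mem h s hTm
  have hsT : ¬ Ker V (ac (WAB A B) s T) := by
    intro hk
    exact H55K.ac_ne (WAB A B) s hT0 (H55K.tor_unit h hG hb hsm hk)
  have hker := H55K.cls_xy hG hsT hK (by rw [H55K.xc_ac]; exact key _ hx1 hxx)
    (by rw [H55K.yc_ac]; exact key _ hy1 hyy)
  exact sub_eq_zero.1 (H55K.tor_unit h hG hb (sub_mem hsm hTm) hker)

omit [NumberField F] [IQ F] [DecidableEq Ω] [IsAlgClosure F Ω] in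
/-- Chunk F5 (S/M). q representatives which are pairwise incongruent roots of T^q - T modulo V are all roots (Polynomial.card_roots' in the residue field IsLocalRing.ResidueField V). -/
theorem roots_all {q : ℕ} (hq : 1 < q) {φ : Ω ≃ₐ[F] Ω} (hφ : ∀ x : Ω, V.valuation x ≤ 1 → V.valuation (φ x - x ^ q) < 1) {r : Fin q → Ω}
    (h1 : ∀ i, φ (r i) = r i ∧ V.valuation (r i) ≤ 1) (h2 : ∀ i i', i ≠ i' → V.valuation (r i - r i') = 1) (x : Ω)
    (hx : V.valuation x ≤ 1) (hxq : V.valuation (x ^ q - x) < 1) : ∃ i, V.valuation (x - r i) < 1 := by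
  classical
  have hmem : ∀ z : Ω, V.valuation z ≤ 1 → z ∈ V := fun z hz => (V.valuation_le_one_iff z).1 hz
  have hzero : ∀ z : V, IsLocalRing.residue V z = 0 ↔ V.valuation (z : Ω) < 1 := by
    intro z
    rw [IsLocalRing.residue_eq_zero_iff]
    exact V.valuation_lt_one_iff z
  obtain ⟨P, hP⟩ : ∃ P : Polynomial (IsLocalRing.ResidueField V), P = Polynomial.X ^ q - Polynomial.X := ⟨_, rfl⟩
  have hP0 : P ≠ 0 := by
    rw [hP]
    exact FiniteField.X_pow_card_sub_X_ne_zero _ hq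
  have hPd : P.natDegree = q := by
    rw [hP]
    exact FiniteField.X_pow_card_sub_X_natDegree_eq _ hq
  have hroot : ∀ z : V, V.valuation ((z : Ω) ^ q - z) < 1 → IsLocalRing.residue V z ∈ P.roots.toFinset := by
    intro z hz
    rw [Multiset.mem_toFinset, Polynomial.mem_roots hP0, Polynomial.IsRoot.def, hP, Polynomial.eval_sub,
      Polynomial.eval_pow, Polynomial.eval_X, ← map_pow, ← map_sub, hzero]
    exact hz
  by_contra hno
  push Not at hno
  let R : Fin q → V := fun i => ⟨r i, hmem _ (h1 i).2⟩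
  let X0 : V := ⟨x, hmem x hx⟩
  have hRi : Function.Injective (fun i => IsLocalRing.residue V (R i)) := by
    intro i i' hii
    by_contra hne
    have h3 : IsLocalRing.residue V (R i - R i') = 0 := by
      rw [map_sub]
      exact sub_eq_zero.2 hii
    rw [hzero] at h3
    have h4 : V.valuation (r i - r i') < 1 := h3
    rw [h2 i i' hne] at h4
    exact lt_irrefl _ h4
  have hX : IsLocalRing.residue V X0 ∉ Finset.univ.image (fun i => IsLocalRing.residue V (R i)) := by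
    intro hm
    obtain ⟨i, -, hi⟩ := Finset.mem_image.1 hm
    have h3 : IsLocalRing.residue V (X0 - R i) = 0 := by
      rw [map_sub]
      exact sub_eq_zero.2 hi.symm
    rw [hzero] at h3
    have h4 : V.valuation (x - r i) < 1 := h3
    exact absurd h4 (not_lt.2 (hno i))
  have hsub : insert (IsLocalRing.residue V X0) (Finset.univ.image (fun i => IsLocalRing.residue V (R i))) ⊆
      P.roots.toFinset := by
    intro z hz
    rcases Finset.mem_insert.1 hz with hz1 | hz1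
    · rw [hz1]
      exact hroot X0 hxq
    · obtain ⟨i, -, hi⟩ := Finset.mem_image.1 hz1
      rw [← hi]
      refine hroot (R i) ?_
      have h5 := hφ (r i) (h1 i).2
      rw [(h1 i).1] at h5
      show V.valuation (r i ^ q - r i) < 1
      rw [← Valuation.map_neg, neg_sub]
      exact h5
  have hc := Finset.card_le_card hsub
  rw [Finset.card_insert_of_notMem hX, Finset.card_image_of_injective _ hRi, Finset.card_univ, Fintype.card_fin] at hc
  have hc2 := (Multiset.toFinset_card_le P.roots).trans (Polynomial.card_roots' P)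
  rw [hPd] at hc2
  omega

end H19B
end
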