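import Mathlib
import Pool.Agent.Lib.H1M.PP2.M009
import Pool.Agent.Lib.H1M.PP2.M017
import Pool.Agent.Lib.H1M.PP2.M031
import Pool.Agent.Lib.H1M.PP2.M038
import Pool.Agent.Lib.H1M.PP2.M051
import Pool.Agent.Lib.H1M.PP2.M057
import Pool.Agent.Lib.H1M.PP2.M079
import Pool.Agent.Lib.H1M.PP2.M086
import Pool.Agent.Lib.H1M.PP2.M102
import Pool.Agent.Lib.H1M.PP2.M103
import Pool.Agent.Lib.H1M.PP2.M112
import Pool.Agent.Lib.H1M.PP2.M115

/-! Merged copies (to shorten the build) of Lib.H19B.C1, Lib.H19B.E2, Lib.H19B.L6, Lib.H19B.C4, Lib.H35M.TS6A, Lib.H35M.TS6B, Lib.H35M.TS10. -/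

-- from Lib.H19B.C1
section

/-! # H19B, chunk C1 (S/M): Kummer cocycles -/

open NumberField IsDedekindDomain WeierstrassCurve

namespace H19B

open H55P (IQ Pt ac Dec Inert decS Nm)
open H35P (WAB Ker tt)
open H55K (Tor CMA Dta GV ak cj)

variable {F : Type} [Field F] [NumberField F] [IQ F] {A B : F} {Om : ℂ} {Ω : Type} [Field Ω] [DecidableEq Ω]
  [Algebra F Ω] [IsAlgClosure F Ω] {j : Ω →+* ℂ} {act : 𝓞 F →+* AddMonoid.End (Pt (WAB A B) Ω)} {mo : Ideal (𝓞 F)}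
  {ψ : Ideal (𝓞 F) →*₀ 𝓞 F} {p : ℕ} {V : ValuationSubring Ω} {π : 𝓞 F}

/-- Chunk C1 (S/M). PROOF. c s = s Q - Q: c (s t) = s t Q - Q = (s Q - Q) + s (t Q - Q) (ac_mul); act π (s Q - Q) = s (act π Q) - act π Q = 0 (CMA.gal); continuity: H55P.pt_open for Q. -/
theorem kum_cc (h : CMA F A B Om j act) (D : Subgroup (Ω ≃ₐ[F] Ω)) (Q : Pt (WAB A B) Ω)
    (hQ : ∀ s ∈ D, ac (WAB A B) s (act π Q) = act π Q) : Cc D act π (fun s => ac (WAB A B) s Q - Q) := by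
  have hal : Algebra.IsAlgebraic F Ω := IsAlgClosure.isAlgebraic
  refine ⟨fun s _ t _ => ?_, fun s hs => ?_, ?_⟩
  · show ac (WAB A B) (s * t) Q - Q = ac (WAB A B) s Q - Q + ac (WAB A B) s (ac (WAB A B) t Q - Q)
    rw [H55K.S.ac_mul, map_sub]
    abel
  · show act π (ac (WAB A B) s Q - Q) = 0
    rw [map_sub, ← h.gal, hQ s hs, sub_self]
  · obtain ⟨L, hL, h1⟩ := H55P.pt_open (WAB A B) Q
    exact ⟨L, hL, fun s _ hs => by rw [h1 s hs, sub_self]⟩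

/-- Chunk C1 (S). PROOF. Q'' - (Q - Q') is killed by π: the difference of the cocycles is the coboundary of a point killed by π (everywhere, so also on inertia); it is in CS. -/
theorem kum_add (h : CMA F A B Om j act) (D : Subgroup (Ω ≃ₐ[F] Ω)) (V : ValuationSubring Ω) (Q Q' Q'' : Pt (WAB A B) Ω)
    (hQ : ∀ s ∈ D, ac (WAB A B) s (act π Q) = act π Q) (hQ' : ∀ s ∈ D, ac (WAB A B) s (act π Q') = act π Q')
    (hs : act π Q'' = act π Q - act π Q') :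
    (fun s => ac (WAB A B) s Q'' - Q'') - ((fun s => ac (WAB A B) s Q - Q) - (fun s => ac (WAB A B) s Q' - Q')) ∈ CI D V act π := by
  have hQ2 : ∀ s ∈ D, ac (WAB A B) s (act π Q'') = act π Q'' := by
    intro s hsD
    rw [hs, map_sub, hQ s hsD, hQ' s hsD]
  rw [mem_CI]
  refine ⟨(CS D act π).sub_mem (kum_cc h D Q'' hQ2) ((CS D act π).sub_mem (kum_cc h D Q hQ) (kum_cc h D Q' hQ')),
    Q'' - (Q - Q'), ?_, fun s _ _ => ?_⟩
  · rw [map_sub, map_sub, hs, sub_self]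
  · show (ac (WAB A B) s Q'' - Q'') - ((ac (WAB A B) s Q - Q) - (ac (WAB A B) s Q' - Q')) = _
    rw [map_sub, map_sub]
    abel


end H19B
end

-- from Lib.H19B.E2
section

/-! # H19B, chunk E2 (S/M): multiplication by π and the filtration -/

open NumberField IsDedekindDomain WeierstrassCurve

namespace H19B

open H55P (IQ Pt ac Dec Inert decS Nm)
open H35P (WAB Ker tt)
open H55K (Tor CMA Dta GV ak cj)

variable {F : Type} [Field F] [NumberField F] [IQ F] {A B : F} {Om : ℂ} {Ω : Type} [Field Ω] [DecidableEq Ω]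
  [Algebra F Ω] [IsAlgClosure F Ω] {j : Ω →+* ℂ} {act : 𝓞 F →+* AddMonoid.End (Pt (WAB A B) Ω)} {mo : Ideal (𝓞 F)}
  {ψ : Ideal (𝓞 F) →*₀ 𝓞 F} {p : ℕ} {V : ValuationSubring Ω} {π : 𝓞 F}

/-- Chunk E2 (S/M). PROOF. H55K.tt_act: V(tt (π P) - π tt P) ≤ V(tt P)^2 ≤ V(w)^(2(J+1)) ≤ V(w)^(J+1+e), and V(π tt P) = V(w)^e V(tt P). H55K.ker_act, CMA.gal. -/
theorem ef_act (h : CMA F A B Om j act) (hG : GV A B V) {D : Subgroup (Ω ≃ₐ[F] Ω)} {w : Ω} (w1 : V.valuation w < 1) {e J : ℕ}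
    (he : V.valuation (ak Ω π) = V.valuation w ^ e) (hJ : e ≤ J + 1) (P : Pt (WAB A B) Ω) (hP : P ∈ EF hG D w w1 J) :
    act π P ∈ EF hG D w w1 (J + e) := by
  rw [mem_EF] at hP ⊢
  obtain ⟨h1, h2, h3⟩ := hP
  refine ⟨H55K.ker_act h hG π h1, fun s hs => by rw [h.gal, h2 s hs], ?_⟩
  have h4 := H55K.tt_act h hG π h1
  have e' : tt (act π P) = (tt (act π P) - ak Ω π * tt P) + ak Ω π * tt P := by ring
  rw [e']
  refine Valuation.map_add_le _ (h4.trans ?_) ?_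
  · calc V.valuation (tt P) ^ 2 ≤ (V.valuation w ^ (J + 1)) ^ 2 := pow_le_pow_left' h3 2
      _ = V.valuation w ^ ((J + 1) * 2) := (pow_mul _ _ _).symm
      _ ≤ V.valuation w ^ (J + e + 1) := pow_le_pow_right_of_le_one' w1.le (by omega)
  · rw [map_mul, he]
    calc V.valuation w ^ e * V.valuation (tt P) ≤ V.valuation w ^ e * V.valuation w ^ (J + 1) := mul_le_mul_right h3 _
      _ = V.valuation w ^ (J + e + 1) := by rw [← pow_add]; congr 1; omega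

/-- Chunk E2 (S). PROOF. As above: V(tt (act b P)) ≤ V(tt P). -/
theorem ef_act0 (h : CMA F A B Om j act) (hG : GV A B V) {D : Subgroup (Ω ≃ₐ[F] Ω)} {w : Ω} (w1 : V.valuation w < 1) {i : ℕ} (b : 𝓞 F)
    (P : Pt (WAB A B) Ω) (hP : P ∈ EF hG D w w1 i) : act b P ∈ EF hG D w w1 i := by
  rw [mem_EF] at hP ⊢
  obtain ⟨h1, h2, h3⟩ := hP
  refine ⟨H55K.ker_act h hG b h1, fun s hs => by rw [h.gal, h2 s hs], ?_⟩
  have h4 := H55K.tt_act h hG b h1
  have e : tt (act b P) = (tt (act b P) - ak Ω b * tt P) + ak Ω b * tt P := by ring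
  rw [e]
  refine Valuation.map_add_le _ (h4.trans ?_) ?_
  · exact (H55K.g4c_le (H55K.ttlt hG h1)).trans h3
  · rw [map_mul]
    exact (mul_le_of_le_one_left' (H55K.ak_le V b)).trans h3

/-- Chunk E2 (S). PROOF. V(tt P) < 1 (ttlt), tt P is fixed by D (tt_ac), so V(tt P) = V(w)^m with m ≥ 1 (hval) or tt P = 0. -/
theorem ef_zero (hG : GV A B V) {D : Subgroup (Ω ≃ₐ[F] Ω)} {w : Ω} (w0 : w ≠ 0) (w1 : V.valuation w < 1)
    (hval : ∀ y : Ω, y ≠ 0 → (∀ s ∈ D, s y = y) → ∃ i : ℤ, V.valuation y = V.valuation w ^ i) (P : Pt (WAB A B) Ω) (hK : Ker V P)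
    (hf : ∀ s ∈ D, ac (WAB A B) s P = P) : P ∈ EF hG D w w1 0 := by
  rw [mem_EF]
  refine ⟨hK, hf, ?_⟩
  by_cases h0 : (tt P : Ω) = 0
  · rw [h0, map_zero]; exact zero_le
  · obtain ⟨m, hm⟩ := hval (tt P) h0 (fun s hs => by rw [← H55K.tt_ac, hf s hs])
    have h1 := H55K.ttlt hG hK
    rw [hm] at h1 ⊢
    have hw : 0 < V.valuation w := zero_lt_iff.mpr ((Valuation.ne_zero_iff _).2 w0)
    have hm1 : 1 ≤ m := by
      by_contra hlt
      have hle : m ≤ 0 := by omega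
      have h2 : (1 : V.ValueGroup) ≤ V.valuation w ^ m := one_le_zpow_of_nonpos₀ hw w1.le hle
      exact absurd h1 (not_lt.2 h2)
    obtain ⟨k, rfl⟩ : ∃ k : ℕ, m = (k : ℤ) := ⟨m.toNat, by omega⟩
    rw [zpow_natCast]
    exact pow_le_pow_right_of_le_one' w1.le (by omega)

/-- Chunk E2 (S). -/
theorem ef_anti (hG : GV A B V) (D : Subgroup (Ω ≃ₐ[F] Ω)) {w : Ω} (w1 : V.valuation w < 1) : Antitone (EF hG D w w1) := by
  intro a b hab P hP
  rw [mem_EF] at hP ⊢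
  exact ⟨hP.1, hP.2.1, hP.2.2.trans (pow_le_pow_right_of_le_one' w1.le (by omega))⟩

end H19B
end

-- from Lib.H19B.L6
section

/-! # H19B, chunk L6 (M): no fixed points in the étale part, up the tower -/

open NumberField IsDedekindDomain WeierstrassCurve

namespace H19B

open H55P (IQ Pt ac Dec Inert decS Nm Coc PExt)
open H35P (WAB Ker tt)
open H55K (Tor CMA Dta GV ak cj)

variable {F : Type} [Field F] [NumberField F] [IQ F] {A B : F} {Om : ℂ} {Ω : Type} [Field Ω] [DecidableEq Ω]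
  [Algebra F Ω] [IsAlgClosure F Ω] {j : Ω →+* ℂ} {act : 𝓞 F →+* AddMonoid.End (Pt (WAB A B) Ω)} {mo : Ideal (𝓞 F)}
  {ψ : Ideal (𝓞 F) →*₀ 𝓞 F} {p : ℕ} {V : ValuationSubring Ω} {π : 𝓞 F}

omit [IsAlgClosure F Ω] in
theorem l6_ac_mem (h : CMA F A B Om j act) (b : 𝓞 F) (s : Ω ≃ₐ[F] Ω) (T : Pt (WAB A B) Ω) (hT : T ∈ Tor act b) :
    ac (WAB A B) s T ∈ Tor act b := by
  have h1 : act b T = 0 := hT
  show act b (ac (WAB A B) s T) = 0
  rw [← h.gal s b T, h1, map_zero]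

/-- The Galois action on the points killed by b. -/
noncomputable def l6Rho (h : CMA F A B Om j act) (b : 𝓞 F) : (Ω ≃ₐ[F] Ω) →* AddMonoid.End (Tor act b) where
  toFun s :=
    { toFun := fun T => ⟨ac (WAB A B) s T.1, l6_ac_mem h b s T.1 T.2⟩
      map_zero' := Subtype.ext (map_zero (ac (WAB A B) s))
      map_add' := fun T T' => Subtype.ext (map_add (ac (WAB A B) s) T.1 T'.1) }
  map_one' := by
    ext T
    have h1 := congrArg (fun φ : AddMonoid.End (Pt (WAB A B) Ω) => φ T.1) (map_one (H55P.acR (Ω := Ω) (WAB A B)))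
    exact h1
  map_mul' s t := by
    ext T
    have h1 := congrArg (fun φ : AddMonoid.End (Pt (WAB A B) Ω) => φ T.1) (map_mul (H55P.acR (Ω := Ω) (WAB A B)) s t)
    exact h1

/-- Chunk L6 (M). PROOF. H55P.fix_up applied to the abelian group Tor act b (as a type) with the action ρ s T = ⟨ac s T, _⟩ (MonoidHom to AddMonoid.End: CMA.gal; ac_one, ac_mul), N = L.fixingSubgroup ⊓ decS F V, H = M.fixingSubgroup ⊓ decS F V = DN M V, k with s^(p^k) in L.fixingSubgroup for s in M.fixingSubgroup (PExt.pow; conjugation: PExt.conj; see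
Lib/H55K/NA6.lean, the second use of fix_up). {T | p • T = 0} finite: Tor act b is finite (tor_card, b ≠ 0: Nat.finite_of_card_ne_zero). All T in Tor act b are killed by b; p • T = 0 is given in fix_up. T fixed by DN N V is fixed by L.fixingSubgroup ⊓ decS F V because N ≤ L. -/
theorem fix_tower (h : CMA F A B Om j act) (hp : p.Prime) {b : 𝓞 F} (hb : b ≠ 0) (hd : b ∣ (p : 𝓞 F)) {M N L : IntermediateField F Ω}
    (hL : PExt p M L) (hN : N ≤ L) (V : ValuationSubring Ω)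
    (h0 : ∀ T : Pt (WAB A B) Ω, act b T = 0 → (∀ s ∈ DN M V, ac (WAB A B) s T = T) → T = 0)
    (T : Pt (WAB A B) Ω) (hT : act b T = 0) (hf : ∀ s ∈ DN N V, ac (WAB A B) s T = T) : T = 0 := by
  have hcl : IsAlgClosed Ω := IsAlgClosure.isAlgClosed F
  have hal : Algebra.IsAlgebraic F Ω := IsAlgClosure.isAlgebraic
  have hch : CharZero Ω := charZero_of_injective_algebraMap (algebraMap F Ω).injective
  have hc := H55K.tor_card h hb
  have hNm : Nm b ≠ 0 := fun h4 => hb (H55P.Nm_eq_zero.1 h4)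
  have hfin : Finite (Tor act b) := (Nat.card_ne_zero.1 (by rw [hc]; exact hNm)).2
  obtain ⟨k, hk⟩ := hL.pow p hp M L
  have hconj : ∀ s ∈ M.fixingSubgroup, ∀ t ∈ L.fixingSubgroup, s * t * s⁻¹ ∈ L.fixingSubgroup :=
    fun s hs t ht => hL.conj p M L s hs t ht
  have hpT : p • (⟨T, hT⟩ : Tor act b) = 0 := by
    apply Subtype.ext
    show p • T = 0
    obtain ⟨c, hc'⟩ := hd
    have h1 : act (p : 𝓞 F) T = p • T := by
      rw [map_natCast]
      rfl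
    have h2 : act (p : 𝓞 F) T = act c (act b T) := by
      rw [hc', mul_comm, map_mul]
      rfl
    rw [← h1, h2, hT, map_zero]
  have key := H55P.fix_up (l6Rho h b) p hp (Set.toFinite _) (L.fixingSubgroup ⊓ decS F V)
    (M.fixingSubgroup ⊓ decS F V) (inf_le_inf_right _ fun s hs => H55P.fixing_anti hL.le hs)
    (fun s hs t ht => ⟨hconj s hs.1 t ht.1,
      (decS F V).mul_mem ((decS F V).mul_mem hs.2 ht.2) ((decS F V).inv_mem hs.2)⟩) k
    (fun s hs => ⟨hk s hs.1, (decS F V).pow_mem hs.2 _⟩)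
    (fun T' _ hf' => Subtype.ext (h0 T'.1 T'.2 fun s hs => congrArg Subtype.val (hf' s hs))) ⟨T, hT⟩ hpT
    (fun s hs => Subtype.ext (hf s ⟨H55P.fixing_anti hN hs.1, hs.2⟩))
  exact congrArg Subtype.val key

end H19B
end

-- from Lib.H19B.C4
section

/-! # H19B, chunk C4 (M): cocycles and twisted characters -/

open NumberField IsDedekindDomain WeierstrassCurve

namespace H19B

open H55P (IQ Pt ac Dec Inert decS Nm)
open H35P (WAB Ker tt)
open H55K (Tor CMA Dta GV ak cj)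

variable {F : Type} [Field F] [NumberField F] [IQ F] {A B : F} {Om : ℂ} {Ω : Type} [Field Ω] [DecidableEq Ω]
  [Algebra F Ω] [IsAlgClosure F Ω] {j : Ω →+* ℂ} {act : 𝓞 F →+* AddMonoid.End (Pt (WAB A B) Ω)} {mo : Ideal (𝓞 F)}
  {ψ : Ideal (𝓞 F) →*₀ 𝓞 F} {p : ℕ} {V : ValuationSubring Ω} {π : 𝓞 F}

section c4aux

variable {M : Type} [AddCommGroup M] {p : ℕ} {T₀ : M}

theorem c4_nat (h3 : p • T₀ = 0) (k : ℕ) : (k : ZMod p).val • T₀ = k • T₀ := by
  rw [ZMod.val_natCast]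
  conv_rhs => rw [← Nat.mod_add_div k p, add_nsmul, mul_comm, mul_nsmul', h3, nsmul_zero, add_zero]

theorem c4_add [NeZero p] (h3 : p • T₀ = 0) (a b : ZMod p) : (a + b).val • T₀ = a.val • T₀ + b.val • T₀ := by
  have h : a + b = ((a.val + b.val : ℕ) : ZMod p) := by
    rw [Nat.cast_add, ZMod.natCast_zmod_val, ZMod.natCast_zmod_val]
  rw [h, c4_nat h3, add_nsmul]

theorem c4_mul [NeZero p] (h3 : p • T₀ = 0) (a b : ZMod p) : (a * b).val • T₀ = a.val • (b.val • T₀) := by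
  have h : a * b = ((a.val * b.val : ℕ) : ZMod p) := by
    rw [Nat.cast_mul, ZMod.natCast_zmod_val, ZMod.natCast_zmod_val]
  rw [h, c4_nat h3, mul_nsmul']

theorem c4_inj [NeZero p] (h3 : p • T₀ = 0) (h2 : ∀ a : ZMod p, a.val • T₀ = 0 → a = 0) {a b : ZMod p}
    (h : a.val • T₀ = b.val • T₀) : a = b := by
  have h1 := c4_add h3 (a - b) b
  rw [sub_add_cancel, h] at h1
  exact sub_eq_zero.1 (h2 _ (left_eq_add.1 (by rw [add_comm] at h1; exact h1)))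

theorem c4_rep {G : Type} [Group G] {A B : Subgroup G} {S : Finset G} (hS : Rep A B S) : A.relIndex B = S.card := by
  classical
  let f : S → B ⧸ A.subgroupOf B := fun s => ((⟨s.1, hS.mem s.1 s.2⟩ : B) : B ⧸ A.subgroupOf B)
  have hf : Function.Bijective f := by
    constructor
    · rintro ⟨s, hs⟩ ⟨t, ht⟩ h
      have h1 := QuotientGroup.eq.1 h
      rw [Subgroup.mem_subgroupOf] at h1
      exact Subtype.ext (hS.un s hs t ht h1)
    · intro x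
      obtain ⟨t, rfl⟩ := QuotientGroup.mk_surjective x
      obtain ⟨s, hs, h⟩ := hS.ex t.1 t.2
      refine ⟨⟨s, hs⟩, QuotientGroup.eq.2 ?_⟩
      rw [Subgroup.mem_subgroupOf]
      exact h
  have h := Nat.card_eq_of_bijective f hf
  rw [Nat.card_eq_fintype_card, Fintype.card_coe] at h
  rw [h]
  rfl

end c4aux

/-- The character of a cocycle on C with respect to the generator T₀. -/
noncomputable def ach (X : Frm F Ω) (T₀ : Pt (WAB A B) Ω) (c : (Ω ≃ₐ[F] Ω) → Pt (WAB A B) Ω) : (Ω ≃ₐ[F] Ω) → ZMod X.p :=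
  open Classical in fun t => if h : ∃ a : ZMod X.p, c t = a.val • T₀ then h.choose else 0

/-- Chunk C4 (S). Choose_spec; for c in CS and t in C the value c t is killed by π. -/
theorem ach_spec {X : Frm F Ω} {N : IntermediateField F Ω} (hX : Of X act π N) {T₀ : Pt (WAB A B) Ω}
    (h1 : ∀ T : Pt (WAB A B) Ω, act π T = 0 → ∃ a : ZMod X.p, T = a.val • T₀) {c : (Ω ≃ₐ[F] Ω) → Pt (WAB A B) Ω} (hc : Cc X.D act π c)
    (t : Ω ≃ₐ[F] Ω) (ht : t ∈ X.D) : c t = (ach X T₀ c t).val • T₀ := by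
  classical
  have h := h1 (c t) (hc.tor t ht)
  have e : ach X T₀ c t = h.choose := dif_pos h
  rw [e]
  exact h.choose_spec

/-- Chunk C4 (M). PROOF. On C the action on the points killed by p (so on c t, p • c t = 0 as p • T₀ = 0) is trivial: c (s t) = c s + c t, and a.val • T₀ determines a (h2; (a + b).val • T₀ = a.val • T₀ + b.val • T₀ as p • T₀ = 0: ZMod.val_add, or through natCast). tw: s in D, t in C: s (s⁻¹ t s) = t s, so
c (s * (s⁻¹ t s)) = c s + s c (s⁻¹ t s) and c (t s) = c t + t c s = c t + c s; hence s c (s⁻¹ t s) = c t. hX.ch for the point c (s⁻¹ t s): (et s).val • c t = (om s).val • c (s⁻¹ t s): et s * a t = om s * a (s⁻¹ t s). cont: from hc.cont (c s = 0 gives a s = 0 by h2). (s⁻¹ t s is in C: hX.ok.nrm1.) -/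
theorem ach_tw {X : Frm F Ω} {N : IntermediateField F Ω} (hX : Of X act π N) {T₀ : Pt (WAB A B) Ω} (h0 : act π T₀ = 0)
    (h1 : ∀ T : Pt (WAB A B) Ω, act π T = 0 → ∃ a : ZMod X.p, T = a.val • T₀) (h2 : ∀ a : ZMod X.p, a.val • T₀ = 0 → a = 0)
    (h3 : X.p • T₀ = 0) {c : (Ω ≃ₐ[F] Ω) → Pt (WAB A B) Ω} (hc : Cc X.D act π c) : X.Tw (ach X T₀ c) := by
  have hne : NeZero X.p := ⟨hX.ok.pr.ne_zero⟩
  have hD : ∀ t ∈ X.C, t ∈ X.D := fun t ht => hX.ok.le2 (hX.ok.le1 ht)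
  have sp : ∀ t ∈ X.D, c t = (ach X T₀ c t).val • T₀ := fun t ht => ach_spec hX h1 hc t ht
  have hk : ∀ t ∈ X.D, X.p • c t = 0 := by
    intro t ht
    rw [sp t ht, ← mul_nsmul', mul_comm, mul_nsmul', h3, nsmul_zero]
  have hfix : ∀ s ∈ X.C, ∀ t ∈ X.D, ac (WAB A B) s (c t) = c t := fun s hs t ht =>
    ((hX.C s).1 hs).2 _ (hk t ht)
  refine ⟨?_, ?_, ?_⟩
  · intro s hs t ht
    apply c4_inj h3 h2
    rw [c4_add h3, ← sp _ (X.D.mul_mem (hD s hs) (hD t ht)), ← sp _ (hD s hs), ← sp _ (hD t ht),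
      hc.mul s (hD s hs) t (hD t ht), hfix s hs t (hD t ht)]
  · intro s hs t ht
    have ht' : s⁻¹ * t * s ∈ X.C := hX.ok.nrm1 s hs t ht
    have e1 : s * (s⁻¹ * t * s) = t * s := by group
    have e2 := hc.mul s hs _ (hD _ ht')
    have e3 := hc.mul t (hD t ht) s hs
    rw [e1, e3, hfix t ht s hs, add_comm] at e2
    have e4 : ac (WAB A B) s (c (s⁻¹ * t * s)) = c t := (add_left_cancel e2).symm
    have e5 := hX.ch s hs _ (hc.tor _ (hD _ ht'))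
    rw [e4] at e5
    apply c4_inj h3 h2
    rw [c4_mul h3, c4_mul h3, ← sp _ (hD _ ht'), ← sp _ (hD t ht), e5]
  · obtain ⟨L, hL, hc3⟩ := hc.cont
    refine ⟨L, hL, fun s hs hs' => h2 _ ?_⟩
    rw [← sp s (hD s hs)]
    exact hc3 s (hD s hs) hs'

/-- Chunk C4 (M). PROOF. Let c'' = c - c', in CS, with c'' t = 0 for t in C, Inert t (ach c t = ach c' t, ach_spec). Let I = the subgroup D ⊓ inS (inertia), J = C ⊓ I. I acts trivially on Tor (cj π) (H13X.inert_tors, V(cj π) = 1: hypothesis hb), so I ≤ E, and J.relIndex I is finite and not divisible by p: Rep X.C X.E S with p not dividing card S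
(hX.ok.rep) gives that C has index card S in E (finite, prime to p); J = C ⊓ I, so J.relIndex I = C.relIndex I divides or at least is the cardinality of a subgroup of ... : C is normal in E (nrm1), E / C is a group of order card S, and I / J is (isomorphic to) its subgroup I C / C: its order divides card S
(Subgroup.relIndex_dvd_of_le_left / relIndex_inf ... for normal subgroups: Subgroup.relIndex_dvd_index_of_normal). rep_exists J I: representatives S' of I / J, p does not divide card S'. T = -(m • ∑ over s in S' of c'' s), m card S' = 1 modulo p. For g in I: c'' (g s) = c'' g + g c'' s, c'' (g s) depends only on the coset (c'' (s t) = c'' s + s c'' t = c'' s for t in J), so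
∑ c'' s = ∑ c'' (g s) = card S' • c'' g + g ∑ c'' s (rep_sum), hence g T - T = m card S' • c'' g = c'' g (p • c'' g = 0). act π T = 0. -/
theorem ach_inert (h : CMA F A B Om j act) {X : Frm F Ω} {N : IntermediateField F Ω} (hX : Of X act π N) (hG : GV A B X.V)
    (hd : π ∣ (X.p : 𝓞 F)) (hb : X.V.valuation (ak Ω (cj π)) = 1) {T₀ : Pt (WAB A B) Ω} (h0 : act π T₀ = 0)
    (h1 : ∀ T : Pt (WAB A B) Ω, act π T = 0 → ∃ a : ZMod X.p, T = a.val • T₀) (h2 : ∀ a : ZMod X.p, a.val • T₀ = 0 → a = 0)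
    {c c' : (Ω ≃ₐ[F] Ω) → Pt (WAB A B) Ω} (hc : Cc X.D act π c) (hc' : Cc X.D act π c')
    (hi : ∀ t ∈ X.C, Inert X.V t → ach X T₀ c t = ach X T₀ c' t) : c - c' ∈ CI X.D X.V act π := by
  classical
  have hD : ∀ t ∈ X.C, t ∈ X.D := fun t ht => hX.ok.le2 (hX.ok.le1 ht)
  have hcc : Cc X.D act π (c - c') := (CS X.D act π).sub_mem hc hc'
  refine (mem_CI X.D X.V π (c - c')).2 ⟨hcc, ?_⟩
  set d : (Ω ≃ₐ[F] Ω) → Pt (WAB A B) Ω := c - c' with hd0
  have hz : ∀ t ∈ X.C, Inert X.V t → d t = 0 := by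
    intro t ht hti
    rw [hd0, Pi.sub_apply, ach_spec hX h1 hc t (hD t ht), ach_spec hX h1 hc' t (hD t ht), hi t ht hti, sub_self]
  have hpd : ∀ s ∈ X.D, X.p • d s = 0 := by
    intro s hs
    obtain ⟨k, hk⟩ := hd
    rw [← H55K.S.act_nat (act := act) X.p (d s), hk, mul_comm, H55K.S.act_mul, hcc.tor s hs, map_zero]
  let I : Subgroup (Ω ≃ₐ[F] Ω) := X.D ⊓ H55P.inS F X.V
  have hIE : I ≤ X.E := by
    intro s hs
    refine (hX.E s).2 ⟨hs.1, fun T hT => ?_⟩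
    exact H13X.inert_tors h hG hb hs.2 hT
  obtain ⟨S, hS, hSp⟩ := hX.ok.rep
  have hidx : X.C.relIndex X.E = S.card := c4_rep hS
  have hnorm : (X.C.subgroupOf X.E).Normal := by
    constructor
    intro n hn g
    rw [Subgroup.mem_subgroupOf] at hn ⊢
    have h5 := hX.ok.nrm1 (g : Ω ≃ₐ[F] Ω)⁻¹ (X.D.inv_mem (hX.ok.le2 g.2)) _ hn
    rw [inv_inv] at h5
    exact h5
  have hdvd : X.C.relIndex I ∣ S.card := by
    have h6 := Subgroup.relIndex_dvd_index_of_normal (X.C.subgroupOf X.E) (I.subgroupOf X.E)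
    rw [Subgroup.relIndex_subgroupOf hIE] at h6
    rw [← hidx]
    exact h6
  have hp1 : ¬ X.p ∣ X.C.relIndex I := fun h6 => hSp (h6.trans hdvd)
  have hne : (X.C ⊓ I).relIndex I ≠ 0 := by
    rw [Subgroup.inf_relIndex_right]
    exact fun h6 => hp1 (h6 ▸ dvd_zero _)
  obtain ⟨S', hS', hcard⟩ := rep_exists (X.C ⊓ I) I hne
  rw [Subgroup.inf_relIndex_right] at hcard
  have hcop : Nat.Coprime S'.card X.p := by
    rw [hcard]
    exact ((Nat.Prime.coprime_iff_not_dvd hX.ok.pr).2 hp1).symm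
  obtain ⟨m, _, hm⟩ := Nat.exists_mul_mod_eq_one_of_coprime hcop hX.ok.pr.one_lt
  refine ⟨-(m • ∑ s ∈ S', d s), ?_, ?_⟩
  · rw [map_neg, map_nsmul, map_sum, Finset.sum_eq_zero (fun s hs => hcc.tor s (hS'.mem s hs).1), nsmul_zero, neg_zero]
  · intro g hg hgi
    have hgI : g ∈ I := ⟨hg, hgi⟩
    have e1 := rep_sum hS' d (fun s hs t ht => by
      rw [hcc.mul s hs.1 t ht.2.1, hz t ht.1 ht.2.2, map_zero, add_zero]) g hgI
    have e2 : ∑ s ∈ S', d (g * s) = S'.card • d g + ac (WAB A B) g (∑ s ∈ S', d s) := by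
      rw [map_sum, ← Finset.sum_const, ← Finset.sum_add_distrib]
      exact Finset.sum_congr rfl fun s hs => hcc.mul g hg s (hS'.mem s hs).1
    rw [e1] at e2
    have e3 : (S'.card * m) • d g = d g := by
      conv_lhs => rw [← Nat.mod_add_div (S'.card * m) X.p, hm]
      rw [add_nsmul, one_nsmul, mul_comm, mul_nsmul', hpd g hg, nsmul_zero, add_zero]
    rw [map_neg, map_nsmul, sub_neg_eq_add, neg_add_eq_sub, ← nsmul_sub]
    have e4 : ∑ s ∈ S', d s - ac (WAB A B) g (∑ s ∈ S', d s) = S'.card • d g := by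
      rw [sub_eq_iff_eq_add]
      exact e2
    rw [e4, ← mul_nsmul', mul_comm, e3]

end H19B
end

-- from Lib.H35M.TS6A
section

/-! # H35M, chunk TS6A (M): the Ramanujan weight as a function of ideals -/

open NumberField IsDedekindDomain

namespace H35M

open H55N H55P SSG.E

variable {F : Type} [Field F] [NumberField F] [IQ F] {K : Type} [Field K] [NumberField K] [Algebra F K] {m : ℕ}
  {π π' : 𝓞 F} {p : ℕ} {T1 : Finset (HeightOneSpectrum (𝓞 K))} {a : HeightOneSpectrum (𝓞 K) → ℕ} {f2 f3 : Ideal (𝓞 K)}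
  {χ : Ideal (𝓞 K) →*₀ ℂ} {ψa : AddChar (𝓞 K ⧸ fT T1 a) ℂ}

omit [NumberField K] in
theorem ts6a_unit (f : Ideal (𝓞 K)) (x : 𝓞 K) : IsUnit (Ideal.Quotient.mk f x) ↔ IsCoprime (Ideal.span {x}) f := by
  rw [Ideal.isCoprime_iff_sup_eq, Ideal.eq_top_iff_one, Ideal.mem_span_singleton_sup]
  constructor
  · intro hu
    obtain ⟨y', hy'⟩ := hu.exists_right_inv
    obtain ⟨y, rfl⟩ := Ideal.Quotient.mk_surjective y'
    rw [← map_mul, ← map_one (Ideal.Quotient.mk f), Ideal.Quotient.eq] at hy'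
    refine ⟨y, 1 - x * y, ?_, by ring⟩
    rw [← neg_sub]
    exact f.neg_mem hy'
  · rintro ⟨y, z, hz, h⟩
    refine IsUnit.of_mul_eq_one (Ideal.Quotient.mk f y) ?_
    rw [← map_mul, ← map_one (Ideal.Quotient.mk f), Ideal.Quotient.eq]
    have e : x * y - 1 = -z := by rw [← h]; ring
    rw [e]
    exact f.neg_mem hz

omit [NumberField F] [IQ F] [NumberField K] in
theorem ts6a_cop {b c : Ideal (𝓞 K)} {z : 𝓞 F} (hz : z ∣ (p : 𝓞 F)) (hb : IsCoprime b (Ideal.span {(p : 𝓞 K)})) {N : ℕ}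
    (h : algebraMap (𝓞 F) (𝓞 K) (z ^ N) ∈ c) : IsCoprime b c := by
  have h1 : IsCoprime b (Ideal.span {(p : 𝓞 K)} ^ N) := hb.pow_right
  rw [Ideal.isCoprime_iff_sup_eq] at h1 ⊢
  refine eq_top_iff.2 (h1.symm.le.trans (sup_le_sup_left ?_ b))
  rw [Ideal.span_singleton_pow, Ideal.span_singleton_le_iff_mem]
  obtain ⟨y, hy⟩ := hz
  have e : (p : 𝓞 K) ^ N = algebraMap (𝓞 F) (𝓞 K) (z ^ N) * algebraMap (𝓞 F) (𝓞 K) (y ^ N) := by
    rw [← map_mul, ← mul_pow, ← hy, map_pow, map_natCast]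
  rw [e]
  exact c.mul_mem_right _ h

open Classical in
/-- Chunk TS6a (S/M). For d b = (x), b coprime to p: the Ramanujan weight of x as function of the ideal d. PROOF. ram_sum (RS2); x in fS iff d ≤ fS: fS divides f1, which contains a power of π, so b is coprime to fS (b coprime to p = π π'), and
d b ≤ fS iff d ≤ fS. mk x is a unit modulo f2 iff (x) is coprime to f2 iff d is coprime to f2 (b is coprime to f2). -/
theorem wC_ideal (hpi : π * π' = (p : 𝓞 F)) (hpos : ∀ v ∈ T1, 0 < a v) (h1 : ∃ N, algebraMap (𝓞 F) (𝓞 K) (π ^ N) ∈ fT T1 a)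
    (h2 : ∃ N, algebraMap (𝓞 F) (𝓞 K) (π' ^ N) ∈ f2) [Fintype (𝓞 K ⧸ fT T1 a)] (hψ : ψa.IsPrimitive) (b : Ideal (𝓞 K))
    (hb : IsCoprime b (Ideal.span {(p : 𝓞 K)})) (x : 𝓞 K) (d : Ideal (𝓞 K)) (hd : d * b = Ideal.span {x}) :
    wC f2 ψa x = (if IsCoprime d f2 then 1 else 0) *
      ∑ S ∈ T1.powerset, (-1) ^ S.card * (if d ≤ fS T1 S a then (Ideal.absNorm (fS T1 S a) : ℂ) else 0) := by
  obtain ⟨N1, hN1⟩ := h1
  obtain ⟨N2, hN2⟩ := h2
  unfold wC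
  rw [ram_sum hpos hψ x]
  have k1 : IsUnit (Ideal.Quotient.mk f2 x) ↔ IsCoprime d f2 := by
    rw [ts6a_unit, ← hd, IsCoprime.mul_left_iff]
    exact ⟨fun h => h.1, fun h => ⟨h, ts6a_cop (z := π') ⟨π, by rw [← hpi, mul_comm]⟩ hb hN2⟩⟩
  refine congrArg₂ (· * ·) (if_congr k1 rfl rfl) ?_
  refine Finset.sum_congr rfl fun S hS => ?_
  have hST := Finset.mem_powerset.1 hS
  refine congrArg (fun w : ℂ => (-1) ^ S.card * w) (if_congr ?_ rfl rfl)
  have hle : fT T1 a ≤ fS T1 S a := by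
    rw [← fS_mul hST hpos]
    exact Ideal.mul_le_left
  have k2 : IsCoprime b (fS T1 S a) := ts6a_cop (z := π) ⟨π', hpi.symm⟩ hb (hle hN1)
  have k3 : x ∈ fS T1 S a ↔ Ideal.span {x} ≤ fS T1 S a := (Ideal.span_singleton_le_iff_mem _).symm
  rw [k3, ← hd, ← Ideal.dvd_iff_le, ← Ideal.dvd_iff_le]
  exact ⟨fun h => k2.symm.dvd_of_dvd_mul_right h, fun h => h.mul_right b⟩

end H35M
end

-- from Lib.H35M.TS6B
section

/-! # H35M, chunk TS6B (M/L): the series with the Ramanujan weight -/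

open NumberField IsDedekindDomain

namespace H35M

open H55N H55P SSG.E

variable {F : Type} [Field F] [NumberField F] [IQ F] {K : Type} [Field K] [NumberField K] [Algebra F K] {m : ℕ}
  {π π' : 𝓞 F} {p : ℕ} {T1 : Finset (HeightOneSpectrum (𝓞 K))} {a : HeightOneSpectrum (𝓞 K) → ℕ} {f2 f3 : Ideal (𝓞 K)}
  {χ : Ideal (𝓞 K) →*₀ ℂ} {ψa : AddChar (𝓞 K ⧸ fT T1 a) ℂ}

theorem ts6b_one {f d : Ideal (𝓞 K)} (h0 : d ≠ ⊥) (h : IsCoprime d f) : oneI f d = 1 := by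
  classical
  show (if d ≠ ⊥ ∧ IsCoprime d f then (1 : ℂ) else 0) = 1
  exact if_pos ⟨h0, h⟩

theorem ts6b_ii (f2 f3 d : Ideal (𝓞 K)) [Decidable (IsCoprime d f2)] :
    oneI f3 d * (if IsCoprime d f2 then (1 : ℂ) else 0) = oneI (f2 * f3) d := by
  by_cases h0 : d = ⊥
  · have e1 : ∀ f : Ideal (𝓞 K), oneI f d = 0 := by
      intro f
      rw [h0]
      exact (oneI f).map_zero
    rw [e1, e1, zero_mul]
  · by_cases h2 : IsCoprime d f2
    · rw [if_pos h2, mul_one]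
      by_cases h3 : IsCoprime d f3
      · rw [ts6b_one h0 h3, ts6b_one h0 (IsCoprime.mul_right h2 h3)]
      · rw [pt3_oneI_zero f3 d h3, pt3_oneI_zero (f2 * f3) d fun h => h3 (IsCoprime.mul_right_iff.1 h).2]
    · rw [if_neg h2, mul_zero, pt3_oneI_zero (f2 * f3) d fun h => h2 (IsCoprime.mul_right_iff.1 h).1]

theorem ts6b_tm (ψ : Ideal (𝓞 F) →*₀ 𝓞 F) (f2 f3 : Ideal (𝓞 K)) (s : ℂ) (d : Ideal (𝓞 K)) [Decidable (IsCoprime d f2)] :
    tm (PsiP K ψ * oneI f3 : Ideal (𝓞 K) →*₀ ℂ) s d * (if IsCoprime d f2 then 1 else 0) =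
      tm (PsiP K ψ * oneI (f2 * f3) : Ideal (𝓞 K) →*₀ ℂ) s d := by
  have h1 := ts6b_ii f2 f3 d
  show (PsiP K ψ d * oneI f3 d) * _ * _ = (PsiP K ψ d * oneI (f2 * f3) d) * _
  rw [← h1]
  ring

open Classical in
/-- Chunk TS6 (M/L). PROOF. s1_series (SSG/S/S1) with h = PsiP * oneI f3, φ = wC, lam = 1, θ d = (if coprime to f2) * sum over S (TS6a): the right-hand side is the sum of the series with general term tm h s d θ d prod. Exchange with the finite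
sum over S: tm h s d * [d coprime to f2] = tm h2 s d, h2 = PsiP * oneI (f2 f3) (d <> ⊥). For each S: s2_div (SSG/S/S2) with Q = fS T1 S a (<> ⊥), h2, hQc: fS ≤ c j would give π^N in f1 ≤ fS ≤ c j, so p in c j (c j prime), excluded by hpc. The
norm bound: |PsiP|^2 ≤ absNorm (PsiP_norm_le), |oneI| ≤ 1. Uniqueness of sums. -/
theorem serC (hpi : π * π' = (p : 𝓞 F)) (hpos : ∀ v ∈ T1, 0 < a v) (h1 : ∃ N, algebraMap (𝓞 F) (𝓞 K) (π ^ N) ∈ fT T1 a)
    (h2 : ∃ N, algebraMap (𝓞 F) (𝓞 K) (π' ^ N) ∈ f2) [Fintype (𝓞 K ⧸ fT T1 a)] (hψ : ψa.IsPrimitive)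
    {M : Ideal (𝓞 F)} {ψ : Ideal (𝓞 F) →*₀ 𝓞 F} (h : IsHecke M ψ) (hJ1 : mK K M * f3 ≠ ⊤)
    {w : 𝓞 K → ℂ} {ι : Type} [Fintype ι] {b : ι → Ideal (𝓞 K)} {c₀ : ι → 𝓞 K}
    {T : ι → Set (𝓞 K)} {κ ζ : ι → ℂ} (hc : ClD F M ψ p f3 χ w ι b c₀ T κ ζ) {c : Fin (m + 1) × Fin 2 → Ideal (𝓞 K)}
    {q : Fin (m + 1) × Fin 2 → ℕ} (hs : Smooth c q) (hcp : ∀ i, (c i).IsPrime) (hbc : ∀ i j, IsCoprime (b i) (c j))
    (hpc : ∀ j, (p : 𝓞 K) ∉ c j) (Z : ι → ℂ) (s : ℂ)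
    (hre : 3 / 2 < s.re) (hZ : ∀ i, HasSum (fun x : T i => wC f2 ψa x * (gw c q (x : 𝓞 K) * nf F s (x : 𝓞 K))) (Z i)) :
    ∑ i, κ i * (Ideal.absNorm (b i) : ℂ) ^ s * Z i =
      (∑ S ∈ T1.powerset, (-1) ^ S.card * (Ideal.absNorm (fS T1 S a) : ℂ) * tm (PsiP K ψ * oneI (f2 * f3) : Ideal (𝓞 K) →*₀ ℂ) s (fS T1 S a)) *
      ((∏ j, (1 - (q j : ℂ) * tm (PsiP K ψ * oneI (f2 * f3) : Ideal (𝓞 K) →*₀ ℂ) s (c j))) *
        ∑' d, tm (PsiP K ψ * oneI (f2 * f3) : Ideal (𝓞 K) →*₀ ℂ) s d) := by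
  have hn : ∀ d, ‖(PsiP K ψ * oneI (f2 * f3) : Ideal (𝓞 K) →*₀ ℂ) d‖ ^ 2 ≤ Ideal.absNorm d := by
    intro d
    show ‖PsiP K ψ d * oneI (f2 * f3) d‖ ^ 2 ≤ _
    rw [norm_mul, mul_pow]
    have e1 := PsiP_norm_le (K := K) h d
    have e2 : ‖oneI (f2 * f3) d‖ ^ 2 ≤ 1 := pow_le_one₀ (norm_nonneg _) (pt3_oneI_norm_le _ _)
    calc ‖PsiP K ψ d‖ ^ 2 * ‖oneI (f2 * f3) d‖ ^ 2 ≤ ‖PsiP K ψ d‖ ^ 2 * 1 :=
          mul_le_mul_of_nonneg_left e2 (by positivity)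
      _ = ‖PsiP K ψ d‖ ^ 2 := mul_one _
      _ ≤ _ := e1
  obtain ⟨N, hN⟩ := h1
  have hle : ∀ S ∈ T1.powerset, fT T1 a ≤ fS T1 S a := by
    intro S hS
    rw [← fS_mul (Finset.mem_powerset.1 hS) hpos]
    exact Ideal.mul_le_left
  have hQc : ∀ S ∈ T1.powerset, ∀ j, ¬ fS T1 S a ≤ c j := by
    intro S hS j hj
    have e1 : algebraMap (𝓞 F) (𝓞 K) (π ^ N) ∈ c j := hj (hle S hS hN)
    rw [map_pow] at e1
    have e2 : algebraMap (𝓞 F) (𝓞 K) π ∈ c j := (hcp j).mem_of_pow_mem N e1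
    apply hpc j
    have e3 : (p : 𝓞 K) = algebraMap (𝓞 F) (𝓞 K) π * algebraMap (𝓞 F) (𝓞 K) π' := by
      rw [← map_mul, hpi, map_natCast]
    rw [e3]
    exact (c j).mul_mem_right _ e2
  have hne : ∀ S ∈ T1.powerset, fS T1 S a ≠ ⊥ := by
    intro S hS h0
    have e1 := hle S hS
    rw [h0, le_bot_iff] at e1
    exact rs2_fT_ne T1 a e1
  have hA := SSG.S.s1_series (F := F) Ideal.mul_le_right hJ1 hc.cd (hc.coef h)
    (fun d => (if IsCoprime d f2 then 1 else 0) *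
      ∑ S ∈ T1.powerset, (-1) ^ S.card * (if d ≤ fS T1 S a then (Ideal.absNorm (fS T1 S a) : ℂ) else 0))
    (wC f2 ψa) (fun _ => 1) (fun i x hx d hd => by
      rw [one_mul]
      exact (wC_ideal hpi hpos ⟨N, hN⟩ h2 hψ (b i) ((IsCoprime.mul_right_iff.1 (hc.cd.cop i)).1) x d hd).symm)
    hcp hbc Z s hZ
  have hB : HasSum (fun d : Ideal (𝓞 K) => ∑ S ∈ T1.powerset, (-1) ^ S.card * (Ideal.absNorm (fS T1 S a) : ℂ) *
      (tm (PsiP K ψ * oneI (f2 * f3) : Ideal (𝓞 K) →*₀ ℂ) s d * (if d ≤ fS T1 S a then 1 else 0) *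
        ∏ j, (if d ≤ c j then 1 - (q j : ℂ) else 1)))
      (∑ S ∈ T1.powerset, (-1) ^ S.card * (Ideal.absNorm (fS T1 S a) : ℂ) *
        (tm (PsiP K ψ * oneI (f2 * f3) : Ideal (𝓞 K) →*₀ ℂ) s (fS T1 S a) *
          ((∏ j, (1 - (q j : ℂ) * tm (PsiP K ψ * oneI (f2 * f3) : Ideal (𝓞 K) →*₀ ℂ) s (c j))) *
            ∑' d, tm (PsiP K ψ * oneI (f2 * f3) : Ideal (𝓞 K) →*₀ ℂ) s d))) :=
    hasSum_sum fun S hS => (SSG.S.s2_div (PsiP K ψ * oneI (f2 * f3)) hn (fS T1 S a) (hne S hS) hs hcp (hQc S hS) s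
      hre).mul_left _
  have hfun : (fun d : Ideal (𝓞 K) => tm (PsiP K ψ * oneI f3 : Ideal (𝓞 K) →*₀ ℂ) s d *
      ((if IsCoprime d f2 then 1 else 0) *
      ∑ S ∈ T1.powerset, (-1) ^ S.card * (if d ≤ fS T1 S a then (Ideal.absNorm (fS T1 S a) : ℂ) else 0)) *
        ∏ j, (if d ≤ c j then 1 - (q j : ℂ) else 1)) =
      fun d : Ideal (𝓞 K) => ∑ S ∈ T1.powerset, (-1) ^ S.card * (Ideal.absNorm (fS T1 S a) : ℂ) *
      (tm (PsiP K ψ * oneI (f2 * f3) : Ideal (𝓞 K) →*₀ ℂ) s d * (if d ≤ fS T1 S a then 1 else 0) *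
        ∏ j, (if d ≤ c j then 1 - (q j : ℂ) else 1)) := by
    funext d
    rw [← mul_assoc, ts6b_tm, Finset.mul_sum, Finset.sum_mul]
    refine Finset.sum_congr rfl fun S _ => ?_
    by_cases hd : d ≤ fS T1 S a
    · rw [if_pos hd, if_pos hd]
      ring
    · rw [if_neg hd, if_neg hd]
      ring
  have hA' := hA
  rw [hfun] at hA'
  have h3 := hA'.unique hB
  have h4 : ∑ i, κ i * (Ideal.absNorm (b i) : ℂ) ^ s * Z i = ∑ i, κ i * 1 * (Ideal.absNorm (b i) : ℂ) ^ s * Z i :=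
    Finset.sum_congr rfl fun i _ => by rw [mul_one]
  rw [h4, h3, Finset.sum_mul]
  refine Finset.sum_congr rfl fun S _ => ?_
  ring

end H35M
end

-- from Lib.H35M.TS10
section

/-! # H35M, chunk TS10 (M/L): the two smoothed functions -/

open NumberField IsDedekindDomain

namespace H35M

open H55N H55P SSG.E

variable {F : Type} [Field F] [NumberField F] [IQ F] {K : Type} [Field K] [NumberField K] [Algebra F K] {m : ℕ}
  {V : ValuationSubring ℂ} {π π' : 𝓞 F} {p : ℕ} {De : ℂ} {T1 : Finset (HeightOneSpectrum (𝓞 K))} {a : HeightOneSpectrum (𝓞 K) → ℕ} {f2 f3 : Ideal (𝓞 K)}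
  {χ : Ideal (𝓞 K) →*₀ ℂ} {χ1 : MulChar (𝓞 K ⧸ fT T1 a) ℂ} {χ2 : MulChar (𝓞 K ⧸ f2) ℂ} {χ3 : MulChar (𝓞 K ⧸ f3) ℂ}
  {ψa : AddChar (𝓞 K ⧸ fT T1 a) ℂ}

theorem ts10_pow {z : 𝓞 F} {g : Ideal (𝓞 K)} {n N : ℕ} (h : algebraMap (𝓞 F) (𝓞 K) (z ^ n) ∈ g) (hN : n ≤ N) :
    algebraMap (𝓞 F) (𝓞 K) (z ^ N) ∈ g := by
  obtain ⟨k, rfl⟩ := Nat.exists_eq_add_of_le hN
  rw [pow_add, map_mul]
  exact g.mul_mem_right _ h

theorem ts10_p (hP : Plc F V π π' p) : V.valuation (p : ℂ) < 1 := by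
  have h1 : (p : ℂ) = eF F π * eF F π' := by
    rw [← map_mul, hP.mul, map_natCast]
  rw [h1, map_mul, hP.one, mul_one]
  exact hP.lt

/-- Chunk TS10 (M/L). PROOF (the structure of LVP_twist, Lib/H55P/T9.lean). l from h.toMod p hMp. exists_ClD (TS9). N = max of 1 and the exponents in hD.pi1, hD.pi2 (multiples: π^N in the ideal for larger N). For every i: CVH for b i, f3, c₀ i (hcd.mem, hlam; b i coprime
to p: hcd.cop), N: Bad i, finite. exists_smoothP (H55P/T8) with Bad = the union of the Bad i, of {w | b i ≤ w} (pt9_finite) and of {w | p ∈ w} (finite): c, q with c j prime, V(1 - Ψ(c j)) = 1, b i coprime to c j (as in T9), p not in c j. val i with ClassV.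
R i : representatives, exists_RpU (SSG/S/D3; I = J b i ≠ ⊥, p^N ≠ 0). (ser) for wW (wtW, J = mK f3 ≤ f3) and for wC (wtC): ZW i, ZC i analytic, with the sums over T i (hcd.trans i) and the values ZW i 1 = sum over R i of wW val, ZC i 1 likewise.
G s = sum κ i ζ i absNorm(b i)^s ZW i s, GC s = sum κ i absNorm(b i)^s ZC i s: analytic (pt3_pow_analytic). The series: serW (TS5; p-modulus f = f1 f2), serC (TS6). Valuations at 1: (absNorm)^1 is an integer (pt9_nat), V(κ i) = 1 (V(p) < 1 from Plc),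
intW and cmpW (TS3) for every i: De τ G 1 = sum over i of κ ζ N(b) (De sum τ wW val); De (τ G 1 - GC 1) = sum κ N(b) (De sum (ζ τ wW - wC) val). -/
theorem tw_core (hP : Plc F V π π' p) {M : Ideal (𝓞 F)} {ψ : Ideal (𝓞 F) →*₀ 𝓞 F} (h : IsHecke M ψ)
    (hMp : IsCoprime M (Ideal.span {(p : 𝓞 F)})) (hm : Module.finrank F K = m + 1) (hNT : NTP K p M ψ V)
    (hCV : ∀ l, Mod p M l → CVH F K m V π π' p De M l) (hD : ChD F π π' p T1 a f2 f3 χ χ1 χ2 χ3 ψa) [Fintype (𝓞 K ⧸ fT T1 a)] :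
    ∃ (c : Fin (m + 1) × Fin 2 → Ideal (𝓞 K)) (q : Fin (m + 1) × Fin 2 → ℕ) (G GC : ℂ → ℂ), Smooth c q ∧ (∀ j, (c j).IsPrime) ∧
      (∀ j, V.valuation (1 - PsiP K ψ (c j)) = 1) ∧ AnalyticOnNhd ℂ G {s | 1 / 2 < s.re} ∧ AnalyticOnNhd ℂ GC {s | 1 / 2 < s.re} ∧
      (∀ s : ℂ, 3 / 2 < s.re → (∏ j, (1 - (q j : ℂ) * tm (PsiP K ψ * χ : Ideal (𝓞 K) →*₀ ℂ) s (c j))) *
        ∑' d, tm (PsiP K ψ * χ : Ideal (𝓞 K) →*₀ ℂ) s d = G s) ∧
      (∀ s : ℂ, 3 / 2 < s.re → (∑ S ∈ T1.powerset, (-1) ^ S.card * (Ideal.absNorm (fS T1 S a) : ℂ) *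
          tm (PsiP K ψ * oneI (f2 * f3) : Ideal (𝓞 K) →*₀ ℂ) s (fS T1 S a)) *
        ((∏ j, (1 - (q j : ℂ) * tm (PsiP K ψ * oneI (f2 * f3) : Ideal (𝓞 K) →*₀ ℂ) s (c j))) *
          ∑' d, tm (PsiP K ψ * oneI (f2 * f3) : Ideal (𝓞 K) →*₀ ℂ) s d) = GC s) ∧
      V.valuation (De * (gaussSum χ1⁻¹ ψa * G 1)) ≤ 1 ∧ V.valuation (De * (gaussSum χ1⁻¹ ψa * G 1 - GC 1)) < 1 := by
  classical
  have hp := hP.prime
  have hVp : V.valuation (p : ℂ) < 1 := ts10_p hP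
  obtain ⟨l, hl⟩ := h.toMod p hMp
  obtain ⟨hJ0, hJ1, ι, hι, b, c₀, T, κ, ζ, hcl, hlam, hκu, hζ⟩ := exists_ClD hp hP.mul hD h hMp hl
  obtain ⟨N1, hN1'⟩ := hD.pi1
  obtain ⟨N2, hN2'⟩ := hD.pi2
  obtain ⟨N, hN0, hN1, hN2⟩ : ∃ N : ℕ, 1 ≤ N ∧ algebraMap (𝓞 F) (𝓞 K) (π ^ N) ∈ fT T1 a ∧
      algebraMap (𝓞 F) (𝓞 K) (π' ^ N) ∈ f2 :=
    ⟨max 1 (max N1 N2), le_max_left _ _, ts10_pow hN1' ((le_max_left _ _).trans (le_max_right _ _)),
      ts10_pow hN2' ((le_max_right _ _).trans (le_max_right _ _))⟩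
  have hf3 : f3 ≠ ⊥ := right_ne_zero_of_mul hD.pch.ne
  have hbp : ∀ i, IsCoprime (b i) (Ideal.span {(p : 𝓞 K)}) := fun i => (hcl.cd.cop i).of_mul_right_left
  have hCVi := fun i => hCV l hl (b i) f3 (hcl.cd.ne i) (hbp i) hf3 hD.cop3 (c₀ i) (hcl.cd.mem i) (hlam i) N hN0
  choose Bad hBad hcv using hCVi
  have hpK : Ideal.span {(p : 𝓞 K)} ≠ ⊥ := by
    rw [Ne, Ideal.span_singleton_eq_bot, Nat.cast_eq_zero]
    exact hp.ne_zero
  obtain ⟨c, q, hs, hcb, hun⟩ := exists_smoothP p hp h hMp V hVp hNT m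
    (((⋃ i, Bad i) ∪ ⋃ i, {w : Ideal (𝓞 K) | b i ≤ w}) ∪ {w : Ideal (𝓞 K) | Ideal.span {(p : 𝓞 K)} ≤ w})
    (((Set.finite_iUnion hBad).union (Set.finite_iUnion fun i => pt9_finite (b i) (hcl.cd.ne i))).union
      (pt9_finite _ hpK))
  have hcp : ∀ j, (c j).IsPrime := fun j => (hcb j).1
  have hbc : ∀ i j, IsCoprime (b i) (c j) := by
    intro i j
    rw [Ideal.isCoprime_iff_sup_eq]
    by_contra h
    have hmax : (c j).IsMaximal := (hcp j).isMaximal (pt3_ne hs j)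
    have h1 : c j ≤ b i ⊔ c j := le_sup_right
    have h2 : b i ⊔ c j = c j := (hmax.eq_of_le h h1).symm
    apply (hcb j).2
    refine Or.inl (Or.inr (Set.mem_iUnion.2 ⟨i, ?_⟩))
    show b i ≤ c j
    rw [← h2]
    exact le_sup_left
  have hpc : ∀ j, (p : 𝓞 K) ∉ c j := fun j hj =>
    (hcb j).2 (Or.inr ((Ideal.span_singleton_le_iff_mem (c j)).2 hj))
  have hvex := fun i => hcv i c q hs (fun j hj => (hcb j).2 (Or.inl (Or.inl (Set.mem_iUnion.2 ⟨i, hj⟩))))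
  choose val hval using hvex
  have hRex := fun i => SSG.S.exists_RpU (mK K M * f3 * b i) (mul_ne_zero hJ0 (hcl.cd.ne i)) (c₀ i) (p ^ N)
    (pow_ne_zero _ hp.ne_zero)
  choose R hR using hRex
  have hJ3 : mK K M * f3 ≤ f3 := Ideal.mul_le_right
  have hWex := fun i => (hval i).ser (wW χ1 χ2) (wtW hP.mul hD hN1 hN2 hJ3 (mK K M * f3 * b i) (c₀ i))
  choose ZW hZWa hZWs hZWv using hWex
  have hCex := fun i => (hval i).ser (wC f2 ψa) (wtC hP.mul hN1 hN2 (mK K M * f3) (mK K M * f3 * b i) (c₀ i) ψa)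
  choose ZC hZCa hZCs hZCv using hCex
  have hNb : ∀ i, Ideal.absNorm (b i) ≠ 0 := fun i => by
    rw [Ne, Ideal.absNorm_eq_zero_iff]
    exact hcl.cd.ne i
  refine ⟨c, q, fun s => ∑ i, κ i * ζ i * (Ideal.absNorm (b i) : ℂ) ^ s * ZW i s,
    fun s => ∑ i, κ i * (Ideal.absNorm (b i) : ℂ) ^ s * ZC i s, hs, hcp, hun, ?_, ?_, ?_, ?_, ?_, ?_⟩
  · intro s hs'
    exact Finset.analyticAt_fun_sum _ fun i _ =>
      (analyticAt_const.mul (pt3_pow_analytic _ (hNb i) Set.univ s trivial)).mul (hZWa i s hs')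
  · intro s hs'
    exact Finset.analyticAt_fun_sum _ fun i _ =>
      (analyticAt_const.mul (pt3_pow_analytic _ (hNb i) Set.univ s trivial)).mul (hZCa i s hs')
  · intro s hs'
    exact serW (f := fT T1 a * f2) h hp hJ1 hD.pch hcl hs hcp hbc (fun i => ZW i s) s hs' fun i =>
      hZWs i (T i) (hcl.cd.trans i) s hs'
  · intro s hs'
    exact (serC hP.mul hD.pos hD.pi1 hD.pi2 hD.psi h hJ1 hcl hs hcp hbc hpc (fun i => ZC i s) s hs' fun i =>
      hZCs i (T i) (hcl.cd.trans i) s hs').symm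
  · have e : De * (gaussSum χ1⁻¹ ψa * ∑ i, κ i * ζ i * (Ideal.absNorm (b i) : ℂ) ^ (1 : ℂ) * ZW i 1) =
        ∑ i, κ i * ζ i * ((Ideal.absNorm (b i) : ℕ) : ℂ) *
          (De * ∑ x ∈ R i, (gaussSum χ1⁻¹ ψa * wW χ1 χ2 x) * val i x) := by
      rw [Finset.mul_sum, Finset.mul_sum]
      refine Finset.sum_congr rfl fun i _ => ?_
      have e1 : ∑ x ∈ R i, (gaussSum χ1⁻¹ ψa * wW χ1 χ2 x) * val i x = gaussSum χ1⁻¹ ψa * ZW i 1 := by
        rw [hZWv i (R i) (hR i), Finset.mul_sum]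
        exact Finset.sum_congr rfl fun x _ => mul_assoc _ _ _
      rw [e1, Complex.cpow_one]
      ring
    show V.valuation (De * (gaussSum χ1⁻¹ ψa * ∑ i, κ i * ζ i * (Ideal.absNorm (b i) : ℂ) ^ (1 : ℂ) * ZW i 1)) ≤ 1
    rw [e]
    refine Valuation.map_sum_le _ fun i _ => ?_
    have hz : V.valuation (ζ i) ≤ 1 := by
      have h1 := congrArg V.valuation (hζ i)
      rw [map_pow, map_one] at h1
      exact (pt6_le hp.ne_zero h1).le
    rw [map_mul, map_mul, map_mul, hκu i V hVp, one_mul]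
    exact mul_le_one' (mul_le_one' hz (pt9_nat V _)) (intW hP (hval i) (hR i) hD hN1 hN2)
  · have e : De * (gaussSum χ1⁻¹ ψa * (∑ i, κ i * ζ i * (Ideal.absNorm (b i) : ℂ) ^ (1 : ℂ) * ZW i 1) -
          ∑ i, κ i * (Ideal.absNorm (b i) : ℂ) ^ (1 : ℂ) * ZC i 1) =
        ∑ i, κ i * ((Ideal.absNorm (b i) : ℕ) : ℂ) *
          (De * ∑ x ∈ R i, (ζ i * (gaussSum χ1⁻¹ ψa * wW χ1 χ2 x) - wC f2 ψa x) * val i x) := by
      rw [Finset.mul_sum, ← Finset.sum_sub_distrib, Finset.mul_sum]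
      refine Finset.sum_congr rfl fun i _ => ?_
      have e1 : ∑ x ∈ R i, (ζ i * (gaussSum χ1⁻¹ ψa * wW χ1 χ2 x) - wC f2 ψa x) * val i x =
          ζ i * (gaussSum χ1⁻¹ ψa * ZW i 1) - ZC i 1 := by
        rw [hZWv i (R i) (hR i), hZCv i (R i) (hR i), Finset.mul_sum, Finset.mul_sum, ← Finset.sum_sub_distrib]
        refine Finset.sum_congr rfl fun x _ => ?_
        ring
      rw [e1, Complex.cpow_one]
      ring
    show V.valuation (De * (gaussSum χ1⁻¹ ψa * (∑ i, κ i * ζ i * (Ideal.absNorm (b i) : ℂ) ^ (1 : ℂ) * ZW i 1) -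
          ∑ i, κ i * (Ideal.absNorm (b i) : ℂ) ^ (1 : ℂ) * ZC i 1)) < 1
    rw [e]
    refine Valuation.map_sum_lt _ one_ne_zero fun i _ => ?_
    rw [map_mul, map_mul, hκu i V hVp, one_mul]
    exact lt_of_le_of_lt (mul_le_of_le_one_left' (pt9_nat V _)) (cmpW hP (hval i) (hR i) hD hN1 hN2 (ζ i) (hζ i))

end H35M
end
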