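import Mathlib
import Pool.Agent.Lib.H1M.PP2.D_H55P_SD
import Pool.Agent.Lib.H1M.PP2.M025
import Pool.Agent.Lib.H1M.PP2.M031
import Pool.Agent.Lib.H1M.PP2.M051
import Pool.Agent.Lib.H1M.PP2.M061
import Pool.Agent.Lib.H1M.PP2.M094
import Pool.Agent.Lib.H1M.PP2.M095
import Pool.Agent.Lib.H1M.PP2.M102
import Pool.Agent.Lib.H1M.PP2.M112
import Pool.Agent.Lib.H1M.PP2.M115
import Pool.Agent.Lib.H1M.PP2.M118

/-! Merged copies (to shorten the build) of Lib.H19B.E1, Lib.H19B.C6, Lib.H19B.L1, Lib.H19B.L3, Lib.H35M.SYD, Lib.H35M.SY1. -/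

-- from Lib.H19B.E1
section

/-! # H19B, chunk E1 (M): the filtration of the points in the kernel of reduction -/

open NumberField IsDedekindDomain WeierstrassCurve

namespace H19B

open H55P (IQ Pt ac Dec Inert decS Nm)
open H35P (WAB Ker tt)
open H55K (Tor CMA Dta GV ak cj)

variable {F : Type} [Field F] [NumberField F] [IQ F] {A B : F} {Om : ℂ} {Ω : Type} [Field Ω] [DecidableEq Ω]
  [Algebra F Ω] [IsAlgClosure F Ω] {j : Ω →+* ℂ} {act : 𝓞 F →+* AddMonoid.End (Pt (WAB A B) Ω)} {mo : Ideal (𝓞 F)}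
  {ψ : Ideal (𝓞 F) →*₀ 𝓞 F} {p : ℕ} {V : ValuationSubring Ω} {π : 𝓞 F}

/-- Chunk E1 (S/M). PROOF. H16S.A3E.tt_sub (namespace H16S, file Lib/H16S/A3E.lean) for c = the larger of V(tt P), V(tt Q), < 1 (ttlt): V(tt (P - Q) - (tt P - tt Q)) ≤ V(tt P - tt Q) c^4 < V(tt P - tt Q) if tt P ≠ tt Q; if tt P = tt Q then P = Q (H16S.tt_inj) or the inequality gives tt (P - Q) = 0. -/
theorem tt_sub_val (hG : GV A B V) {P Q : Pt (WAB A B) Ω} (hP : Ker V P) (hQ : Ker V Q) :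
    V.valuation (tt (P - Q)) = V.valuation (tt P - tt Q) := by
  have hI := (H55K.gv_good hG).toIntW
  by_cases he : tt P = tt Q
  · have h1 := H16S.tt_inj hI hP hQ he
    rw [h1, sub_self, sub_self]
    rfl
  · have h2 : (2 : Ω) ≠ 0 := fun h => by
      have h3 := hG.two
      rw [h, map_zero] at h3
      exact zero_ne_one h3
    have hc : max (V.valuation (tt P)) (V.valuation (tt Q)) < 1 := max_lt (H55K.ttlt hG hP) (H55K.ttlt hG hQ)
    have h3 := H16S.tt_sub h2 hI hP hQ hc (le_max_left _ _) (le_max_right _ _)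
    have h4 : V.valuation (tt P - tt Q) ≠ 0 := (Valuation.ne_zero_iff _).2 (sub_ne_zero.2 he)
    have h5 : max (V.valuation (tt P)) (V.valuation (tt Q)) ^ 4 < 1 := pow_lt_one₀ zero_le hc (by norm_num)
    have h6 := mul_lt_of_lt_one_right (zero_lt_iff.2 h4) h5
    exact Valuation.map_eq_of_sub_lt _ (h3.trans_lt h6)

/-- Chunk E1 (M). PROOF. For j : Fin q let P j be the point with tt (P j) = r j * w^(i+1), in Ker V, fixed by DN N V (H13X.local_ptt, r j * w^(i+1) in N; P j = 0 if r j = 0). r from hr. P j in EF i. tt_sub_val: V(tt (P j - P k)) = V(r j - r k) V(w)^(i+1) = V(w)^(i+1) for j ≠ k, not ≤ V(w)^(i+2) (V(w) < 1, w ≠ 0): rel_ge gives q ≤ index.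
Upper bound: f P = the index j with V(tt P / w^(i+1) - r j) < 1 (tt P is fixed by DN N V: H55K.tt_ac; quotient of value ≤ 1; hr; Classical.choose). If f P = f P' = j then V(tt P - tt P') < V(w)^(i+1), V(tt (P - P')) < V(w)^(i+1), tt (P - P') is fixed by DN N V, so its value is V(w)^m, m > i + 1 (hval) or it is 0:
P - P' in EF (i+1). rel_le with k = Fin q, R = Finset.univ. -/
theorem ef_index (h : CMA F A B Om j act) (hG : GV A B V) {N : IntermediateField F Ω} [FiniteDimensional F N] {q : ℕ} {w : Ω} (w0 : w ≠ 0)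
    (w1 : V.valuation w < 1) (wN : w ∈ N) (hq : 0 < q)
    (hr : ∃ r : Fin q → Ω, (∀ i, r i ∈ N ∧ V.valuation (r i) ≤ 1) ∧ (∀ i i', i ≠ i' → V.valuation (r i - r i') = 1) ∧
        ∀ x : Ω, (∀ s ∈ DN N V, s x = x) → V.valuation x ≤ 1 → ∃ i, V.valuation (x - r i) < 1)
    (hval : ∀ y : Ω, y ≠ 0 → (∀ s ∈ DN N V, s y = y) → ∃ i : ℤ, V.valuation y = V.valuation w ^ i) (i : ℕ) :
    (EF hG (DN N V) w w1 (i + 1)).relIndex (EF hG (DN N V) w w1 i) = q := by
  classical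
  have w0' : V.valuation w ≠ 0 := (Valuation.ne_zero_iff _).2 w0
  have wp : 0 < V.valuation w := zero_lt_iff.2 w0'
  have hwi0 : w ^ (i + 1) ≠ 0 := pow_ne_zero _ w0
  have hfw : ∀ s ∈ DN N V, s w = w := fun s hs => by
    have h1 := (mem_DN.1 hs).1
    rw [IntermediateField.mem_fixingSubgroup_iff] at h1
    exact h1 w wN
  have hwlt : V.valuation (w ^ (i + 1)) < 1 := by
    rw [map_pow]
    exact pow_lt_one₀ zero_le w1 (Nat.succ_ne_zero i)
  obtain ⟨r, hr1, hr2, hr3⟩ := hr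
  have hP : ∀ k : Fin q, ∃ P : Pt (WAB A B) Ω, Ker V P ∧ (∀ s ∈ DN N V, ac (WAB A B) s P = P) ∧
      tt P = r k * w ^ (i + 1) := by
    intro k
    by_cases h0 : r k = 0
    · refine ⟨0, trivial, fun s _ => map_zero _, ?_⟩
      rw [h0, zero_mul]
      rfl
    · have ht : V.valuation (r k * w ^ (i + 1)) < 1 := by
        rw [map_mul]
        exact (mul_le_of_le_one_left' (hr1 k).2).trans_lt hwlt
      obtain ⟨Q, B₀, -, h2, h3, h4, h5⟩ := H13X.local_ptt h hG (N := N)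
        (mul_mem (hr1 k).1 (pow_mem wN (i + 1))) (mul_ne_zero h0 hwi0) ht
      exact ⟨Q, h4, fun s hs => h3 s (h2 s (mem_DN.1 hs)), h5⟩
  choose P hP1 hP2 hP3 using hP
  let f : Pt (WAB A B) Ω → Fin q := fun b =>
    if hh : ∃ k, V.valuation (tt b / w ^ (i + 1) - r k) < 1 then hh.choose else ⟨0, hq⟩
  have hf : ∀ b ∈ EF hG (DN N V) w w1 i, V.valuation (tt b / w ^ (i + 1) - r (f b)) < 1 := by
    intro b hb
    obtain ⟨b1, b2, b3⟩ := (mem_EF hG _ w w1 i b).1 hb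
    have hh : ∃ k, V.valuation (tt b / w ^ (i + 1) - r k) < 1 := by
      refine hr3 _ (fun s hs => ?_) ?_
      · rw [map_div₀, map_pow, hfw s hs]
        have h6 := H55K.tt_ac (WAB A B) s b
        rw [b2 s hs] at h6
        rw [← h6]
      · rw [map_div₀, map_pow]
        exact div_le_one_of_le₀ b3 zero_le
    have h7 : f b = hh.choose := dif_pos hh
    rw [h7]
    exact hh.choose_spec
  have hle := rel_le (EF hG (DN N V) w w1 (i + 1)) (EF hG (DN N V) w w1 i) f Finset.univ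
    (fun b _ => Finset.mem_univ _) (by
      intro b hb b' hb' hbb
      obtain ⟨b1, b2, b3⟩ := (mem_EF hG _ w w1 i b).1 hb
      obtain ⟨c1, c2, c3⟩ := (mem_EF hG _ w w1 i b').1 hb'
      have e1 := hf b hb
      have e2 := hf b' hb'
      rw [← hbb] at e2
      have e3 := V.valuation.map_sub_lt e1 e2
      have e4 : tt b / w ^ (i + 1) - r (f b) - (tt b' / w ^ (i + 1) - r (f b)) =
          (tt b - tt b') / w ^ (i + 1) := by ring
      rw [e4, map_div₀, div_lt_one₀ (zero_lt_iff.2 ((Valuation.ne_zero_iff _).2 hwi0)),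
        ← tt_sub_val hG b1 c1, map_pow] at e3
      have e5 : ∀ s ∈ DN N V, ac (WAB A B) s (b - b') = b - b' := fun s hs => by
        rw [map_sub, b2 s hs, c2 s hs]
      refine (mem_EF hG _ w w1 (i + 1) _).2 ⟨H55K.ksub hG b1 c1, e5, ?_⟩
      by_cases e0 : tt (b - b') = 0
      · rw [e0, map_zero]
        exact zero_le
      · obtain ⟨m, hm⟩ := hval _ e0 (fun s hs => by
          have h6 := H55K.tt_ac (WAB A B) s (b - b')
          rw [e5 s hs] at h6
          exact h6.symm)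
        rw [hm] at e3 ⊢
        rw [← zpow_natCast, zpow_lt_zpow_iff_right_of_lt_one₀ wp w1] at e3
        rw [← zpow_natCast, zpow_le_zpow_iff_right_of_lt_one₀ wp w1]
        push_cast at e3 ⊢
        omega)
  have hge := rel_ge (EF hG (DN N V) w w1 (i + 1)) (EF hG (DN N V) w w1 i) hle.1 P
    (fun k => (mem_EF hG _ w w1 i _).2 ⟨hP1 k, hP2 k, by
      rw [hP3 k, map_mul, map_pow]
      exact mul_le_of_le_one_left' (hr1 k).2⟩) (by
      intro k k' hk
      by_contra hne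
      obtain ⟨-, -, d3⟩ := (mem_EF hG _ w w1 (i + 1) _).1 hk
      rw [tt_sub_val hG (hP1 k) (hP1 k'), hP3 k, hP3 k', ← sub_mul, map_mul, hr2 k k' hne, one_mul, map_pow] at d3
      exact absurd d3 (not_le.2 (pow_lt_pow_right_of_lt_one₀ wp w1 (Nat.lt_succ_self _))))
  have hcard := hle.2
  rw [Finset.card_univ, Fintype.card_fin] at hcard
  exact le_antisymm hcard hge

end H19B
end

-- from Lib.H19B.C6
section

/-! # H19B, chunk C6 (M): the value of the parameter of act π Q -/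

open NumberField IsDedekindDomain WeierstrassCurve

namespace H19B

open H55P (IQ Pt ac Dec Inert decS Nm)
open H35P (WAB Ker tt)
open H55K (Tor CMA Dta GV ak cj)

variable {F : Type} [Field F] [NumberField F] [IQ F] {A B : F} {Om : ℂ} {Ω : Type} [Field Ω] [DecidableEq Ω]
  [Algebra F Ω] [IsAlgClosure F Ω] {j : Ω →+* ℂ} {act : 𝓞 F →+* AddMonoid.End (Pt (WAB A B) Ω)} {mo : Ideal (𝓞 F)}
  {ψ : Ideal (𝓞 F) →*₀ 𝓞 F} {p : ℕ} {V : ValuationSubring Ω} {π : 𝓞 F}

/-- Chunk C6 (M). PROOF. Nm π = p (H55K.S.dichotomy, or hypothesis hN); S = the finite set of the nonzero points killed by π (H55K.exists_TN: card S = Nm π - 1 = p - 1); for R in S: Ker V R (H55K.tor_ker), V(tt R)^(p-1) = V(π) (H55K.tor_ram, file Lib/H55K/G5C or G5D). x = V(tt Q) ≠ 0.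
V(tt (Q + R)) = V(tt (Q - (-R))) = V(tt Q + tt R) (tt_sub_val, tt_neg). H55K.ker_prod: x * prod V(tt (Q + R)) = V(tt (π Q)). If x^(p-1) > V(π): x > V(tt R), so all V(tt (Q + R)) = x and V(tt (π Q)) = x^p: first alternative. If x^(p-1) ≤ V(π): x ≤ V(tt R) for R in S, V(tt (Q + R)) ≤ V(tt R), so V(tt (π Q))^(p-1) ≤
x^(p-1) * (prod V(tt R))^(p-1) = x^(p-1) * V(π)^(p-1) ≤ V(π)^p. -/
theorem pi_val (h : CMA F A B Om j act) (hG : GV A B V) (hπ : Prime π) (hN : Nm π = p) (hp : p.Prime) (hV : V.valuation (ak Ω π) < 1)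
    {Q : Pt (WAB A B) Ω} (hQ : Ker V Q) (h0 : Q ≠ 0) :
    V.valuation (tt (act π Q)) = V.valuation (tt Q) ^ p ∨ V.valuation (tt (act π Q)) ^ (p - 1) ≤ V.valuation (ak Ω π) ^ p := by
  classical
  have hp2 : 2 ≤ p := hp.two_le
  have hp1 : p - 1 ≠ 0 := by omega
  obtain ⟨S, hS, hcard⟩ := H55K.exists_TN h hπ.ne_zero
  have hR : ∀ R ∈ S, Ker V R ∧ V.valuation (tt R) ^ (p - 1) = V.valuation (ak Ω π) := by
    intro R hR
    have h1 := (hS R).1 hR
    have h2 := H55K.tor_ram h hG hπ hV (T := R) h1.1 h1.2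
    rw [hN] at h2
    exact h2
  have hval : ∀ R ∈ S, V.valuation (tt (Q + R)) = V.valuation (tt Q + tt R) := by
    intro R hRS
    have h1 := tt_sub_val hG hQ (H55K.kneg (hR R hRS).1)
    rw [sub_neg_eq_add, H55K.tt_neg, sub_neg_eq_add] at h1
    exact h1
  have hprod := H55K.ker_prod h hG hπ hV hS hQ
  rw [← hprod]
  rw [hN] at hcard
  rcases lt_or_ge (V.valuation (ak Ω π)) (V.valuation (tt Q) ^ (p - 1)) with hx | hx
  · left
    have h1 : ∀ R ∈ S, V.valuation (tt (Q + R)) = V.valuation (tt Q) := by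
      intro R hRS
      rw [hval R hRS]
      refine Valuation.map_add_eq_of_lt_left _ ?_
      by_contra hc
      have h2 := pow_le_pow_left' (not_lt.1 hc) (p - 1)
      rw [(hR R hRS).2] at h2
      exact absurd hx (not_lt.2 h2)
    rw [Finset.prod_congr rfl h1, Finset.prod_const, hcard, ← pow_succ', Nat.sub_add_cancel (by omega)]
  · right
    have h1 : ∀ R ∈ S, V.valuation (tt (Q + R)) ≤ V.valuation (tt R) := by
      intro R hRS
      rw [hval R hRS]
      refine Valuation.map_add_le _ ?_ le_rfl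
      rw [← (hR R hRS).2] at hx
      exact le_of_pow_le_pow_left₀ hp1 zero_le hx
    have h2 : (∏ R ∈ S, V.valuation (tt (Q + R))) ^ (p - 1) ≤ V.valuation (ak Ω π) ^ (p - 1) := by
      rw [← Finset.prod_pow]
      have h3 : ∏ R ∈ S, V.valuation (tt (Q + R)) ^ (p - 1) ≤ ∏ R ∈ S, V.valuation (ak Ω π) := by
        refine Finset.prod_le_prod' fun R hRS => ?_
        rw [← (hR R hRS).2]
        exact pow_le_pow_left' (h1 R hRS) _
      rwa [Finset.prod_const, hcard] at h3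
    rw [mul_pow]
    have h4 := mul_le_mul' hx h2
    rwa [← pow_succ', Nat.sub_add_cancel (by omega)] at h4

/-- Chunk C6 (M). PROOF. Let P = act π Q in EF (with index i) and c = (fun s => s Q - Q) in CI: T with act π T = 0 and s (Q - T) = Q - T for the inertia elements s of DN N V; Q' = Q - T, act π Q' = P, Ker V Q' (H55K.ker_red). If P = 0 clear. Otherwise Q' ≠ 0, tt Q' ≠ 0 is fixed by the inertia elements of N (tt_ac; Inert V s and s fixing N implies s in DN N V: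
H55P.inert_dec), so V(tt Q') = V(w)^m for an integer m (hval), and V(tt P) = V(w)^k with k ≥ i + 1 (hval; P is fixed by DN N V, which contains the inertia elements of N). Suppose k = i + 1 (otherwise V(tt P) ≤ V(w)^(i+2), done). pi_val: either V(w)^(i+1) = V(w)^(m p), so p divides i + 1, contradiction; or
V(w)^((i+1)(p-1)) ≤ V(π)^p = V(w)^(e p), so (i+1)(p-1) ≥ e p, contradiction. -/
theorem kum_step (dta : Dta A B Om j act mo ψ p) (hG : GV A B V) (hπ : Prime π) (hd : π ∣ (p : 𝓞 F)) (hs : ¬ π ∣ cj π)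
    (hV : V.valuation (ak Ω π) < 1) {N : IntermediateField F Ω} {w : Ω} (w0 : w ≠ 0) (w1 : V.valuation w < 1) {e : ℕ}
    (he : V.valuation (ak Ω π) = V.valuation w ^ e)
    (hval : ∀ y : Ω, y ≠ 0 → (∀ s ∈ N.fixingSubgroup, Inert V s → s y = y) → ∃ i : ℤ, V.valuation y = V.valuation w ^ i) {i : ℕ}
    (hi : ¬ p ∣ i + 1) (hie : (i + 1) * (p - 1) < e * p) {Q : Pt (WAB A B) Ω} (hP : act π Q ∈ EF hG (DN N V) w w1 i)
    (hc : (fun s => ac (WAB A B) s Q - Q) ∈ CI (DN N V) V act π) : act π Q ∈ EF hG (DN N V) w w1 (i + 1) := by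
  classical
  have hN : Nm π = p := by
    rcases H55K.S.dichotomy dta.prime dta.unr hπ hd with h1 | h1
    · exact absurd h1.1.symm.dvd hs
    · exact h1.2.2.1
  have hw0 : V.valuation w ≠ 0 := (V.valuation.ne_zero_iff).2 w0
  have hwp : 0 < V.valuation w := zero_lt_iff.2 hw0
  by_cases hP0 : act π Q = 0
  · rw [hP0]
    exact zero_mem _
  obtain ⟨hK, hfix, hle⟩ := (mem_EF hG _ w w1 i _).1 hP
  obtain ⟨-, T, hT, hTs⟩ := (mem_CI _ _ _ _).1 hc
  have hQ' : act π (Q - T) = act π Q := by rw [map_sub, hT, sub_zero]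
  have hKQ : Ker V (Q - T) := H55K.ker_red dta.cma hG hπ hV (by rw [hQ']; exact hK)
  have hQ0 : Q - T ≠ 0 := by
    intro h0
    rw [h0, map_zero] at hQ'
    exact hP0 hQ'.symm
  have htt0 : tt (Q - T) ≠ 0 := fun h0 => hQ0 ((H55K.tt_zero hG hKQ).1 h0)
  obtain ⟨m, hm⟩ := hval _ htt0 (fun s hs hi => by
    have hsD : s ∈ DN N V := mem_DN.2 ⟨hs, H55P.inert_dec V s hi⟩
    have h1 := hTs s hsD hi
    rw [← H55K.tt_ac, map_sub]
    congr 1
    have h2 : ac (WAB A B) s Q - Q = ac (WAB A B) s T - T := h1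
    rw [sub_eq_sub_iff_sub_eq_sub]
    exact h2)
  have hPtt0 : tt (act π Q) ≠ 0 := fun h0 => hP0 ((H55K.tt_zero hG hK).1 h0)
  obtain ⟨k, hk⟩ := hval _ hPtt0 (fun s hs hi => by
    rw [← H55K.tt_ac, hfix s (mem_DN.2 ⟨hs, H55P.inert_dec V s hi⟩)])
  have hmono : ∀ a b : ℤ, V.valuation w ^ a ≤ V.valuation w ^ b ↔ b ≤ a := fun a b =>
    zpow_le_zpow_iff_right_of_lt_one₀ hwp w1
  have hinj : ∀ a b : ℤ, V.valuation w ^ a = V.valuation w ^ b → a = b := fun a b hab =>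
    le_antisymm ((hmono b a).1 hab.ge) ((hmono a b).1 hab.le)
  have hk1 : (i : ℤ) + 1 ≤ k := by
    have h1 := hle
    rw [hk, ← zpow_natCast] at h1
    have h2 := (hmono _ _).1 h1
    push_cast at h2
    exact h2
  refine (mem_EF hG _ w w1 (i + 1) _).2 ⟨hK, hfix, ?_⟩
  rw [hk, ← zpow_natCast, hmono]
  push_cast
  rcases lt_or_ge (i + 1 : ℤ) k with h3 | h3
  · omega
  exfalso
  have hki : k = ((i + 1 : ℕ) : ℤ) := by
    push_cast
    omega
  rcases pi_val dta.cma hG hπ hN dta.prime hV hKQ hQ0 with h4 | h4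
  · rw [hQ', hk, hm, hki, ← zpow_natCast (V.valuation w ^ m) p, ← zpow_mul] at h4
    have h5 := hinj _ _ h4
    refine hi (Int.natCast_dvd_natCast.1 ?_)
    rw [h5]
    exact dvd_mul_left _ _
  · rw [hQ', hk, he, hki, zpow_natCast, ← pow_mul, ← pow_mul, ← zpow_natCast, ← zpow_natCast, hmono] at h4
    have h5 : e * p ≤ (i + 1) * (p - 1) := by exact_mod_cast h4
    omega

end H19B
end

-- from Lib.H19B.L1
section

/-! # H19B, chunk L1 (M): the étale component -/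

open NumberField IsDedekindDomain WeierstrassCurve

namespace H19B

open H55P (IQ Pt ac Dec Inert decS Nm Coc)
open H35P (WAB Ker tt)
open H55K (Tor CMA Dta GV ak cj)

variable {F : Type} [Field F] [NumberField F] [IQ F] {A B : F} {Om : ℂ} {Ω : Type} [Field Ω] [DecidableEq Ω]
  [Algebra F Ω] [IsAlgClosure F Ω] {j : Ω →+* ℂ} {act : 𝓞 F →+* AddMonoid.End (Pt (WAB A B) Ω)} {mo : Ideal (𝓞 F)}
  {ψ : Ideal (𝓞 F) →*₀ 𝓞 F} {p : ℕ} {V : ValuationSubring Ω} {π : 𝓞 F}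

/-- Chunk L1 (M). PROOF. GV A B V: dta.good (V(p) < 1 as π divides p). V(cj π) = 1: hypothesis hb. (1) For s in K.fixingSubgroup, Inert V s: c s = s P - P is killed by cj π and Ker V (s P - P) (H55K.S.kr_inert), so c s = 0 (H55K.tor_unit). (2) t in N.fixingSubgroup, Inert V t, s in DN N V. Inertia acts trivially on the points
killed by cj π (H13X.inert_tors). u = s t s⁻¹ t⁻¹ is in K.fixingSubgroup (hab), Inert V u (H55P.inS_dec for s in decS, and inS F V is a subgroup), so c u = 0. c (s t s⁻¹) = c (u t) = c u + u (c t) = c t. Also c (s t s⁻¹) = c s + s (c t) + s (t (c s⁻¹)) = c s + s (c t) + s (c s⁻¹) (t acts trivially) =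
s (c t) + c 1 = s (c t) (c (s s⁻¹) = c s + s (c s⁻¹), c 1 = 0). So s (c t) = c t for all s in DN N V and c t is killed by cj π: c t = 0 (h0). -/
theorem loc_bar (dta : Dta A B Om j act mo ψ p) (hd : π ∣ (p : 𝓞 F)) (hV : V.valuation (ak Ω π) < 1)
    (hb : V.valuation (ak Ω (cj π)) = 1) (N K : IntermediateField F Ω)
    (hab : ∀ s ∈ N.fixingSubgroup, ∀ t ∈ N.fixingSubgroup, s * t * s⁻¹ * t⁻¹ ∈ K.fixingSubgroup)
    (h0 : ∀ T : Pt (WAB A B) Ω, act (cj π) T = 0 → (∀ s ∈ DN N V, ac (WAB A B) s T = T) → T = 0) {c : (Ω ≃ₐ[F] Ω) → Pt (WAB A B) Ω}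
    (hc : Coc (WAB A B) N c) (ht : ∀ s ∈ N.fixingSubgroup, act (cj π) (c s) = 0)
    (hK : ∃ P : Pt (WAB A B) Ω, ∀ s ∈ K.fixingSubgroup, Inert V s → c s = ac (WAB A B) s P - P)
    (t : Ω ≃ₐ[F] Ω) (htN : t ∈ N.fixingSubgroup) (hi : Inert V t) : c t = 0 := by
  have hp : V.valuation (p : Ω) < 1 := by
    obtain ⟨d, hd⟩ := hd
    have h1 : (p : Ω) = ak Ω π * ak Ω d := by
      have h2 : ak Ω (p : 𝓞 F) = (p : Ω) := by
        unfold ak
        simp
      rw [← h2, hd]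
      unfold ak
      simp
    rw [h1, map_mul]
    exact (mul_le_of_le_one_right' (H55K.ak_le V d)).trans_lt hV
  have hG : GV A B V := dta.good V hp
  have hA := dta.cma
  have hK' : ∀ s ∈ K.fixingSubgroup, s ∈ N.fixingSubgroup → Inert V s → c s = 0 := by
    intro s hs hsN hsi
    obtain ⟨P, hP⟩ := hK
    have h1 := H55K.S.kr_inert hG s hsi P
    rw [← hP s hs hsi] at h1
    exact H55K.tor_unit hA hG hb (ht s hsN) h1
  have hc1 : c 1 = 0 := by
    have h1 := hc.mul 1 (one_mem _) 1 (one_mem _)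
    rw [mul_one, H55K.ac_one] at h1
    exact left_eq_add.1 h1
  refine h0 (c t) (ht t htN) fun s hs => ?_
  obtain ⟨hsN, hsD⟩ := mem_DN.1 hs
  have hsN' : s⁻¹ ∈ N.fixingSubgroup := inv_mem hsN
  have htI : t ∈ H55P.inS F V := hi
  have h1 : s * t * s⁻¹ ∈ H55P.inS F V := H55P.inS_dec V s hsD t htI
  have h2 : s * t * s⁻¹ * t⁻¹ ∈ H55P.inS F V := mul_mem h1 (inv_mem htI)
  have h3 : s * t * s⁻¹ * t⁻¹ ∈ N.fixingSubgroup := mul_mem (mul_mem (mul_mem hsN htN) hsN') (inv_mem htN)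
  have h4 := hK' _ (hab s hsN t htN) h3 h2
  have h5 : s * t * s⁻¹ = (s * t * s⁻¹ * t⁻¹) * t := by group
  have h6 : c (s * t * s⁻¹) = c t := by
    rw [h5, hc.mul _ h3 t htN, h4, zero_add]
    exact H13X.inert_tors hA hG hb h2 (ht t htN)
  have h7 : c (s * t * s⁻¹) = ac (WAB A B) s (c t) := by
    have h8 : ac (WAB A B) t (c s⁻¹) = c s⁻¹ := H13X.inert_tors hA hG hb hi (ht _ hsN')
    have h9 := hc.mul s hsN s⁻¹ hsN'
    rw [mul_inv_cancel, hc1] at h9
    rw [hc.mul _ (mul_mem hsN htN) _ hsN', hc.mul s hsN t htN, H55K.ac_mul, h8, add_right_comm, ← h9, zero_add]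
  rw [← h7, h6]

end H19B
end

-- from Lib.H19B.L3
section

/-! # H19B, chunk L3 (S/M): the isomorphism with the short equation, and the kernel of reduction -/

open NumberField IsDedekindDomain WeierstrassCurve

namespace H19B

open H55P (IQ Pt ac Dec Inert decS Nm Coc PExt)
open H35P (WAB Ker tt)
open H55K (Tor CMA Dta GV ak cj)

variable {F : Type} [Field F] [NumberField F] [IQ F] {A B : F} {Om : ℂ} {Ω : Type} [Field Ω] [DecidableEq Ω]
  [Algebra F Ω] [IsAlgClosure F Ω] {j : Ω →+* ℂ} {act : 𝓞 F →+* AddMonoid.End (Pt (WAB A B) Ω)} {mo : Ideal (𝓞 F)}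
  {ψ : Ideal (𝓞 F) →*₀ 𝓞 F} {p : ℕ} {V : ValuationSubring Ω} {π : 𝓞 F}

omit [IQ F] [IsAlgClosure F Ω] in
/-- Chunk L3 (S/M). PROOF. Copy of SSG.short_iso (Lib/SSG/Z/L9.lean): Θ = H55P.PS4_iso (H55P.PS4_map D) with D for r = (a₂ + (a₁ / 2)^2) / 3, s = a₁ / 2, t = a₃ / 2; it maps (x, y) to (x + r, y + s x + t). The last property: for P = 0 clear; for P = (x, y): Ker V P means 1 < V(x), Ker V (Θ P) means 1 < V(x + r), and
V(r) ≤ 1: a₁, a₂ are integers of F, of value ≤ 1 (H55K.ak_le), V(2) = V(3) = 1. -/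
theorem short_iso2 (W₀ : WeierstrassCurve (𝓞 F)) {A B : F} (hA : A = -(algebraMap (𝓞 F) F W₀.c₄) / 48)
    (hB : B = -(algebraMap (𝓞 F) F W₀.c₆) / 864) (hΔ : W₀.Δ ≠ 0) (V : ValuationSubring Ω) (h2 : V.valuation (2 : Ω) = 1)
    (h3 : V.valuation (3 : Ω) = 1) : ∃ Θ : Pt (W₀⁄F) Ω ≃+ Pt (WAB A B) Ω,
      (∀ (s : Ω ≃ₐ[F] Ω) (P : Pt (W₀⁄F) Ω), Θ (ac (W₀⁄F) s P) = ac (WAB A B) s (Θ P)) ∧
      ∀ P : Pt (W₀⁄F) Ω, Ker V (Θ P) ↔ Ker V P := by
  obtain ⟨W, hW⟩ : ∃ W : WeierstrassCurve F, W = (W₀⁄F) := ⟨_, rfl⟩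
  have hc4 : W.c₄ = algebraMap (𝓞 F) F W₀.c₄ := by
    rw [hW]
    exact W₀.map_c₄ (algebraMap (𝓞 F) F)
  have hc6 : W.c₆ = algebraMap (𝓞 F) F W₀.c₆ := by
    rw [hW]
    exact W₀.map_c₆ (algebraMap (𝓞 F) F)
  have hWΔ : W.Δ ≠ 0 := by
    rw [hW]
    intro h0
    apply hΔ
    have h1 : (W₀⁄F).Δ = algebraMap (𝓞 F) F W₀.Δ := W₀.map_Δ (algebraMap (𝓞 F) F)
    rw [h1] at h0
    exact (map_eq_zero_iff _ (IsFractionRing.injective (𝓞 F) F)).1 h0
  have hv1 : V.valuation (algebraMap F Ω W.a₁) ≤ 1 := by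
    rw [hW]
    exact H55K.ak_le V W₀.a₁
  have hv2 : V.valuation (algebraMap F Ω W.a₂) ≤ 1 := by
    rw [hW]
    exact H55K.ak_le V W₀.a₂
  have hβ : V.valuation (algebraMap F Ω ((W.a₂ + (W.a₁ / 2) ^ 2) / 3)) ≤ 1 := by
    have e1 : algebraMap F Ω ((W.a₂ + (W.a₁ / 2) ^ 2) / 3) =
        (algebraMap F Ω W.a₂ + (algebraMap F Ω W.a₁ / 2) ^ 2) / 3 := by
      rw [map_div₀, map_add, map_pow, map_div₀, map_ofNat, map_ofNat]
    rw [e1, map_div₀, h3, div_one]
    refine V.valuation.map_add_le hv2 ?_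
    rw [map_pow, map_div₀, h2, div_one]
    exact pow_le_one' hv1 2
  rw [← hc4] at hA
  rw [← hc6] at hB
  have D : H55P.PS4_D W (WAB A B) ((W.a₂ + (W.a₁ / 2) ^ 2) / 3) (W.a₁ / 2) (W.a₃ / 2) := by
    refine ⟨rfl, rfl, rfl, ?_, ?_, ?_, ?_, ?_⟩
    · field_simp
    · field_simp
    · field_simp
    · show A = _
      rw [hA, WeierstrassCurve.c₄, WeierstrassCurve.b₂, WeierstrassCurve.b₄]
      ring
    · show B = _ - A * _
      rw [hB, hA, WeierstrassCurve.c₄, WeierstrassCurve.c₆, WeierstrassCurve.b₂, WeierstrassCurve.b₄, WeierstrassCurve.b₆]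
      ring
  have hd := H55K.y6_delta D
  have i1 : W.IsElliptic := ⟨isUnit_iff_ne_zero.2 hWΔ⟩
  have i2 : (WAB A B).IsElliptic := ⟨isUnit_iff_ne_zero.2 (by rw [hd]; exact hWΔ)⟩
  have i3 : (W⁄Ω).IsElliptic := inferInstanceAs (W.map (algebraMap F Ω)).IsElliptic
  have i4 : ((WAB A B)⁄Ω).IsElliptic := inferInstanceAs ((WAB A B).map (algebraMap F Ω)).IsElliptic
  rw [← hW]
  refine ⟨H55P.PS4_iso (H55P.PS4_map (Ω := Ω) D), ?_, ?_⟩
  · intro f P
    rcases P with _ | ⟨x, y, h'⟩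
    · rfl
    · have e1 : f (algebraMap F Ω ((W.a₂ + (W.a₁ / 2) ^ 2) / 3)) = algebraMap F Ω ((W.a₂ + (W.a₁ / 2) ^ 2) / 3) :=
        f.commutes _
      have e2 : f (algebraMap F Ω (W.a₁ / 2)) = algebraMap F Ω (W.a₁ / 2) := f.commutes _
      have e3 : f (algebraMap F Ω (W.a₃ / 2)) = algebraMap F Ω (W.a₃ / 2) := f.commutes _
      change Affine.Point.some _ _ _ = Affine.Point.some _ _ _
      rw [Affine.Point.some.injEq]
      constructor
      · change f x + algebraMap F Ω ((W.a₂ + (W.a₁ / 2) ^ 2) / 3) = f (x + algebraMap F Ω ((W.a₂ + (W.a₁ / 2) ^ 2) / 3))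
        rw [map_add, e1]
      · change f y + algebraMap F Ω (W.a₁ / 2) * f x + algebraMap F Ω (W.a₃ / 2) =
          f (y + algebraMap F Ω (W.a₁ / 2) * x + algebraMap F Ω (W.a₃ / 2))
        rw [map_add, map_add, map_mul, e2, e3]
  · intro P
    rcases P with _ | ⟨x, y, h'⟩
    · exact Iff.rfl
    · change 1 < V.valuation (x + algebraMap F Ω ((W.a₂ + (W.a₁ / 2) ^ 2) / 3)) ↔ 1 < V.valuation x
      constructor
      · intro h
        by_contra hc
        exact absurd (V.valuation.map_add_le (not_lt.1 hc) hβ) (not_le.2 h)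
      · intro h
        rw [V.valuation.map_add_eq_of_lt_left (hβ.trans_lt h)]
        exact h

end H19B
end

-- from Lib.H35M.SYD
section

/-! # H35M, part S: the canonical normalisation of the L-value at V (definitions) -/

open NumberField IsDedekindDomain

namespace H35M

open H55N H55P

/-- The L-series of h continues to Re s > 1/2, and V(Λ(1)/Om^n)^2 V(relative norm of the different) = 1. -/
def LVO (F : Type) [Field F] [NumberField F] [IQ F] {K : Type} [Field K] [NumberField K] [Algebra F K]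
    (V : ValuationSubring ℂ) (Om : ℂ) (h : Ideal (𝓞 K) →*₀ ℂ) : Prop :=
  ∃ Λ : ℂ → ℂ, AnalyticOnNhd ℂ Λ {s | 1 / 2 < s.re} ∧ (∀ s : ℂ, 3 / 2 < s.re → HasSum (tm h s) (Λ s)) ∧
    V.valuation (Λ 1 / Om ^ Module.finrank F K) ^ 2 * H41D.vN F V (differentIdeal (𝓞 F) (𝓞 K)) = 1

/-- The same, integral. -/
def LVOi (F : Type) [Field F] [NumberField F] [IQ F] {K : Type} [Field K] [NumberField K] [Algebra F K]
    (V : ValuationSubring ℂ) (Om : ℂ) (h : Ideal (𝓞 K) →*₀ ℂ) : Prop :=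
  ∃ Λ : ℂ → ℂ, AnalyticOnNhd ℂ Λ {s | 1 / 2 < s.re} ∧ (∀ s : ℂ, 3 / 2 < s.re → HasSum (tm h s) (Λ s)) ∧
    V.valuation (Λ 1 / Om ^ Module.finrank F K) ^ 2 * H41D.vN F V (differentIdeal (𝓞 F) (𝓞 K)) ≤ 1

end H35M
end

-- from Lib.H35M.SY1
section

/-! # H35M, part S: comparison of the two normalisations -/

open NumberField IsDedekindDomain

namespace H35M

open H55N H55P

variable {F : Type} [Field F] [NumberField F] [IQ F] {K : Type} [Field K] [NumberField K] [Algebra F K] {m : ℕ}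

theorem dl_sq {σ : Fin (m + 1) → K →+* ℂ} (hσ : Emb F σ) (ω : Fin (m + 1) → K) :
    H41D.dl σ ω ^ 2 = embF F (Algebra.discr F ω) := by
  unfold H41D.dl
  rw [Algebra.discr_def, RingHom.map_det, sq]
  nth_rewrite 1 [← Matrix.det_transpose]
  rw [← Matrix.det_mul]
  congr 1
  ext s t
  rw [Matrix.mul_apply, RingHom.mapMatrix_apply, Matrix.map_apply, Algebra.traceMatrix_apply, Algebra.traceForm_apply,
    ← trace_eq hσ]
  refine Finset.sum_congr rfl fun i _ => ?_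
  rw [map_mul]
  rfl

/-- (dl σ ω)^2 = embF (discr ω) (Algebra.discr_eq_det_embeddingsMatrixReindex_pow_two / trace_eq, det_mul), val_disc. -/
theorem val_delta {V : ValuationSubring ℂ} {π π' : 𝓞 F} {p : ℕ} (hP : Plc F V π π' p) (hm : Module.finrank F K = m + 1)
    (ω : Module.Basis (Fin (m + 1)) (𝓞 F) (𝓞 K)) {δ : ℂ} (hδ : δ ^ 2 = embF F (Algebra.discr F fun s => (ω s : K))) :
    V.valuation δ ^ 2 = H41D.vN F V (differentIdeal (𝓞 F) (𝓞 K)) := by
  obtain ⟨σ, hσ⟩ := emb_exists K m hm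
  rw [← H41D.val_disc V hP.pr.ne_zero hP.lt hσ (H41D.ibas_of_basis ω), ← map_pow, ← map_pow, hδ, dl_sq hσ]

theorem sy1_key {V : ValuationSubring ℂ} {π π' : 𝓞 F} {p : ℕ} (hP : Plc F V π π' p) (hm : Module.finrank F K = m + 1)
    (ω : Module.Basis (Fin (m + 1)) (𝓞 F) (𝓞 K)) {δ : ℂ} (hδ : δ ^ 2 = embF F (Algebra.discr F fun s => (ω s : K))) (Om z : ℂ) :
    V.valuation (z / Om ^ Module.finrank F K) ^ 2 * H41D.vN F V (differentIdeal (𝓞 F) (𝓞 K)) = V.valuation (δ / Om ^ (m + 1) * z) ^ 2 := by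
  rw [← val_delta hP hm ω hδ, hm, ← mul_pow, ← map_mul]
  congr 2
  ring

theorem lvn_iff {V : ValuationSubring ℂ} {π π' : 𝓞 F} {p : ℕ} (hP : Plc F V π π' p) (hm : Module.finrank F K = m + 1)
    (ω : Module.Basis (Fin (m + 1)) (𝓞 F) (𝓞 K)) {δ : ℂ} (hδ : δ ^ 2 = embF F (Algebra.discr F fun s => (ω s : K))) (Om : ℂ)
    (h : Ideal (𝓞 K) →*₀ ℂ) : (LVn V (δ / Om ^ (m + 1)) h ↔ LVO F V Om h) ∧ (LVi V (δ / Om ^ (m + 1)) h ↔ LVOi F V Om h) := by
  constructor
  · unfold LVn LVO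
    refine exists_congr fun Λ => and_congr_right fun _ => and_congr_right fun _ => ?_
    rw [sy1_key hP hm ω hδ]
    exact (pow_eq_one_iff_of_nonneg zero_le' two_ne_zero).symm
  · unfold LVi LVOi
    refine exists_congr fun Λ => and_congr_right fun _ => and_congr_right fun _ => ?_
    rw [sy1_key hP hm ω hδ]
    exact (pow_le_one_iff_of_nonneg zero_le' two_ne_zero).symm

end H35M
end
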