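import Mathlib
import Pool.Agent.Lib.H1M.PP2.M044
import Pool.Agent.Lib.H1M.PP2.M054
import Pool.Agent.Lib.H1M.PP2.M057
import Pool.Agent.Lib.H1M.PP2.M086
import Pool.Agent.Lib.H1M.PP2.M088
import Pool.Agent.Lib.H1M.PP2.M102
import Pool.Agent.Lib.H1M.PP2.M115
import Pool.Agent.Lib.H1M.PP2.M119

/-! Merged copies (to shorten the build) of Lib.H19B.F2, Lib.H19B.F6, Lib.SSG.V.V10, Lib.SSG.V.V11. -/

-- from Lib.H19B.F2
section

/-! # H19B, chunk F2 (M): residue fields -/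

open NumberField IsDedekindDomain WeierstrassCurve

namespace H19B

open H55P (IQ Pt ac Dec Inert decS Nm)
open H35P (WAB Ker tt)
open H55K (Tor CMA Dta GV ak cj)

variable {F : Type} [Field F] [NumberField F] [IQ F] {A B : F} {Om : ℂ} {Ω : Type} [Field Ω] [DecidableEq Ω]
  [Algebra F Ω] [IsAlgClosure F Ω] {j : Ω →+* ℂ} {act : 𝓞 F →+* AddMonoid.End (Pt (WAB A B) Ω)} {mo : Ideal (𝓞 F)}
  {ψ : Ideal (𝓞 F) →*₀ 𝓞 F} {p : ℕ} {V : ValuationSubring Ω} {π : 𝓞 F}

theorem f2_roots {K : Type} [Field K] {q : ℕ} (hq : 1 < q) (r : Fin q → K) (hr : Function.Injective r)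
    (hroot : ∀ i, r i ^ q = r i) (x : K) (hx : x ^ q = x) : ∃ i, x = r i := by
  classical
  by_contra hc
  rw [not_exists] at hc
  have hP : (Polynomial.X ^ q - Polynomial.X : Polynomial K) ≠ 0 := FiniteField.X_pow_card_sub_X_ne_zero K hq
  have hd : (Polynomial.X ^ q - Polynomial.X : Polynomial K).natDegree = q :=
    FiniteField.X_pow_card_sub_X_natDegree_eq K hq
  have h1 : (insert x (Finset.univ.image r)).card = q + 1 := by
    rw [Finset.card_insert_of_notMem, Finset.card_image_of_injective _ hr, Finset.card_univ, Fintype.card_fin]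
    intro h
    obtain ⟨i, -, hi⟩ := Finset.mem_image.1 h
    exact hc i hi.symm
  have h2 : insert x (Finset.univ.image r) ⊆ (Polynomial.X ^ q - Polynomial.X : Polynomial K).roots.toFinset := by
    intro y hy
    rw [Multiset.mem_toFinset, Polynomial.mem_roots hP, Polynomial.IsRoot.def]
    rw [Polynomial.eval_sub, Polynomial.eval_pow, Polynomial.eval_X, sub_eq_zero]
    rcases Finset.mem_insert.1 hy with h | h
    · rw [h]; exact hx
    · obtain ⟨i, -, hi⟩ := Finset.mem_image.1 h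
      rw [← hi]
      exact hroot i
  have h3 := Finset.card_le_card h2
  have h4 := Multiset.toFinset_card_le (Polynomial.X ^ q - Polynomial.X : Polynomial K).roots
  have h5 := Polynomial.card_roots' (Polynomial.X ^ q - Polynomial.X : Polynomial K)
  rw [hd] at h5
  omega

theorem f2_res {Ω : Type} [Field Ω] (V : ValuationSubring Ω) (x y : V) :
    IsLocalRing.residue V x = IsLocalRing.residue V y ↔ V.valuation ((x : Ω) - (y : Ω)) < 1 := by
  rw [← sub_eq_zero, ← map_sub, IsLocalRing.residue_eq_zero_iff]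
  exact ValuationSubring.valuation_lt_one_iff V (x - y)

theorem f2_roots2 {Ω : Type} [Field Ω] (V : ValuationSubring Ω) {q : ℕ} (hq : 1 < q) (r : Fin q → Ω)
    (hr : ∀ i, V.valuation (r i) ≤ 1) (hrr : ∀ i i', i ≠ i' → V.valuation (r i - r i') = 1)
    (hroot : ∀ i, V.valuation (r i - r i ^ q) < 1) (x : Ω) (hx : V.valuation x ≤ 1)
    (hxx : V.valuation (x - x ^ q) < 1) : ∃ i, V.valuation (x - r i) < 1 := by
  have hr' : ∀ i, r i ∈ V := fun i => (V.valuation_le_one_iff _).1 (hr i)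
  have hx' : x ∈ V := (V.valuation_le_one_iff _).1 hx
  have key : ∀ y : V, V.valuation ((y : Ω) - (y : Ω) ^ q) < 1 →
      (IsLocalRing.residue V y) ^ q = IsLocalRing.residue V y := by
    intro y hy
    rw [← map_pow]
    symm
    rw [f2_res]
    exact hy
  obtain ⟨i, hi⟩ := f2_roots (K := IsLocalRing.ResidueField V) hq (fun i => IsLocalRing.residue V ⟨r i, hr' i⟩)
    (by
      intro i i' h
      by_contra hne
      have h1 := (f2_res V _ _).1 h
      have h2 := hrr i i' hne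
      have h3 : V.valuation (r i - r i') < 1 := h1
      rw [h2] at h3
      exact lt_irrefl _ h3)
    (fun i => key ⟨r i, hr' i⟩ (hroot i)) (IsLocalRing.residue V ⟨x, hx'⟩) (key ⟨x, hx'⟩ hxx)
  exact ⟨i, (f2_res V _ _).1 hi⟩

omit [DecidableEq Ω] [IsAlgClosure F Ω] [IQ F] in
theorem f2_exp {N : IntermediateField F Ω} [NumberField N]
    (V : ValuationSubring Ω) (β : 𝓞 F) (hβ : Prime β) (hV : V.valuation (ak Ω β) < 1)
    (w : HeightOneSpectrum (𝓞 N)) (hw : H13S.Abv N V w) :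
    ∃ f : ℕ, 0 < f ∧ Ideal.absNorm w.asIdeal = Nm β ^ f := by
  have hwp := w.isPrime
  have hwm := w.isMaximal
  have hbot : Ideal.span {β} ≠ ⊥ := by
    rw [Ne, Ideal.span_singleton_eq_bot]
    exact hβ.ne_zero
  have hp : (Ideal.span {β}).IsPrime := (Ideal.span_singleton_prime hβ.ne_zero).2 hβ
  have hm : (Ideal.span {β}).IsMaximal := hp.isMaximal hbot
  have hmem : algebraMap (𝓞 F) (𝓞 N) β ∈ w.asIdeal := by
    rw [← HeightOneSpectrum.valuation_lt_one_iff_mem (K := N), ← hw.lt]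
    exact hV
  have hlies : w.asIdeal.LiesOver (Ideal.span {β}) := by
    constructor
    refine hm.eq_of_le (Ideal.IsPrime.ne_top inferInstance) ?_
    rw [Ideal.span_singleton_le_iff_mem]
    exact hmem
  refine ⟨w.asIdeal.inertiaDeg (𝓞 F), Ideal.inertiaDeg_pos w.asIdeal (𝓞 F), ?_⟩
  rw [← Ideal.absNorm_pow_inertiaDeg (Ideal.span {β}) w.asIdeal]
  rfl

theorem f2_Nm (hp : p.Prime) (hπ : Prime π) (hd : π ∣ (p : 𝓞 F)) : p ∣ Nm π := by
  obtain ⟨c, hc⟩ := hd
  have h1 : Nm π ∣ p ^ 2 := ⟨Nm c, by rw [← H55K.Nm_mul, ← hc, H55K.Nm_nat]⟩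
  have h2 : Nm π ≠ 1 := by
    intro h
    unfold H55P.Nm at h
    rw [Ideal.absNorm_eq_one_iff, Ideal.span_singleton_eq_top] at h
    exact hπ.not_isUnit h
  obtain ⟨i, hi, h3⟩ := (Nat.dvd_prime_pow hp).1 h1
  have hi0 : i ≠ 0 := by
    rintro rfl
    exact h2 (by rw [h3, pow_zero])
  rw [h3]
  exact dvd_pow_self p hi0

omit [DecidableEq Ω] in
/-- Chunk F2 (M). PROOF. Copy of H13R.g1_res and H13R.g1_exp (file Lib/H13R/G1.lean, 90 lines, written for Ω = AlgebraicClosure F; all lemmas used there, H13S.exists_below, H13X.exists_frobK, H13X.yn2_approx, are general; β = π, l = p, V(p) < 1 because π divides p) gives q = Nm π ^ f with f > 0,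
the Frobenius element φ and representatives r in N. p divides Nm π (Nm π is divisible by p: π divides p, Nm π divides p^2 and is not 1: H55K.gf_Nm's proof), so p divides q; q > 1.
Last property: let x be fixed by the elements of DN N V, V(x) ≤ 1. φ x = x, so V(x^q - x) < 1. The q elements r i are pairwise incongruent and satisfy V(r^q - r) < 1 (φ r = r), so in the residue field of V (IsLocalRing.ResidueField V) the polynomial T^q - T has the q distinct roots r i and equals prod (T - r i)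
(Polynomial.card_roots'; the residue class of x is a root, and the set of the r i has q elements, so it is the set of all roots): some V(x - r i) < 1. -/
theorem exists_res (hp : p.Prime) (hπ : Prime π) (hd : π ∣ (p : 𝓞 F)) (hV : V.valuation (ak Ω π) < 1) (N : IntermediateField F Ω)
    [NumberField N] : ∃ (q : ℕ) (φ : Ω ≃ₐ[F] Ω), 1 < q ∧ p ∣ q ∧ φ ∈ DN N V ∧ (∀ x : Ω, V.valuation x ≤ 1 → V.valuation (φ x - x ^ q) < 1) ∧
      ∃ r : Fin q → Ω, (∀ i, r i ∈ N ∧ V.valuation (r i) ≤ 1) ∧ (∀ i i', i ≠ i' → V.valuation (r i - r i') = 1) ∧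
        ∀ x : Ω, (∀ s ∈ DN N V, s x = x) → V.valuation x ≤ 1 → ∃ i, V.valuation (x - r i) < 1 := by
  classical
  have hpV : V.valuation (p : Ω) < 1 := by
    obtain ⟨c, hc⟩ := hd
    have e : (p : Ω) = ak Ω π * ak Ω c := by
      have h1 : algebraMap F Ω (((p : 𝓞 F) : 𝓞 F) : F) = algebraMap F Ω ((π * c : 𝓞 F) : F) := by rw [hc]
      simpa using h1
    rw [e, map_mul]
    refine mul_lt_one_of_lt_of_le hV ?_
    have h2 : IsIntegral ℤ (ak Ω c) := (RingOfIntegers.isIntegral_coe c).map ((algebraMap F Ω).toIntAlgHom)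
    have h3 : IsIntegral V (ak Ω c) := h2.tower_top
    obtain ⟨y, hy⟩ := (IsIntegrallyClosed.isIntegral_iff (R := V) (K := Ω)).1 h3
    rw [← hy]
    exact (V.valuation_le_one_iff _).2 y.2
  have hp0 : (p : Ω) ≠ 0 := by
    have hcz : CharZero Ω := charZero_of_injective_algebraMap (algebraMap F Ω).injective
    exact Nat.cast_ne_zero.2 hp.ne_zero
  have hlinv : ((p : Ω)⁻¹) ∉ V := by
    rw [← V.valuation_le_one_iff, map_inv₀, not_le]
    exact (one_lt_inv₀ (zero_lt_iff.2 ((map_ne_zero _).2 hp0))).2 hpV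
  have hN : ∃ x : N, (x : Ω) ∉ V := by
    refine ⟨(p : N)⁻¹, ?_⟩
    have e : (((p : N)⁻¹ : N) : Ω) = (p : Ω)⁻¹ := by simp
    rw [e]
    exact hlinv
  obtain ⟨w, hw⟩ := H13S.exists_below N V hN
  have hwm := w.isMaximal
  obtain ⟨f, hf0, hf⟩ := f2_exp V π hπ hV w hw
  obtain ⟨φ, hφN, hφD, hφ⟩ := H13X.exists_frobK N hw
  have hpq : p ∣ Ideal.absNorm w.asIdeal := by
    rw [hf]
    exact dvd_pow (f2_Nm hp hπ hd) hf0.ne'
  have hq1 : 1 < Ideal.absNorm w.asIdeal := by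
    have h0 : Ideal.absNorm w.asIdeal ≠ 0 := by
      rw [Ne, Ideal.absNorm_eq_zero_iff]
      exact w.ne_bot
    exact lt_of_lt_of_le hp.one_lt (Nat.le_of_dvd (Nat.pos_of_ne_zero h0) hpq)
  have hφ' : ∀ x : Ω, V.valuation x ≤ 1 → V.valuation (φ x - x ^ Ideal.absNorm w.asIdeal) < 1 := fun x hx =>
    hφ x ((V.valuation_le_one_iff _).1 hx)
  refine ⟨Ideal.absNorm w.asIdeal, φ, hq1, hpq, mem_DN.2 ⟨hφN, hφD⟩, hφ', ?_⟩
  have hcard : Nat.card (𝓞 N ⧸ w.asIdeal) = Ideal.absNorm w.asIdeal := rfl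
  have hfin : Finite (𝓞 N ⧸ w.asIdeal) := Ideal.finiteQuotientOfFreeOfNeBot _ w.ne_bot
  have e : Fin (Ideal.absNorm w.asIdeal) ≃ (𝓞 N ⧸ w.asIdeal) := by
    rw [← hcard]
    exact (Finite.equivFin _).symm
  have hmk : ∀ y : 𝓞 N ⧸ w.asIdeal, Ideal.Quotient.mk w.asIdeal (Quotient.out y) = y := fun y =>
    Quotient.out_eq y
  have hrN : ∀ i, (((Quotient.out (e i) : 𝓞 N) : N) : Ω) ∈ N ∧ V.valuation (((Quotient.out (e i) : 𝓞 N) : N) : Ω) ≤ 1 :=
    fun i => ⟨((Quotient.out (e i) : 𝓞 N) : N).2, H13S.vw_int N V _⟩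
  have hrr : ∀ i i', i ≠ i' → V.valuation ((((Quotient.out (e i) : 𝓞 N) : N) : Ω) - (((Quotient.out (e i') : 𝓞 N) : N) : Ω)) = 1 := by
    intro i i' hii
    have e1 : (((Quotient.out (e i) : 𝓞 N) : N) : Ω) - (((Quotient.out (e i') : 𝓞 N) : N) : Ω) =
        (((Quotient.out (e i) - Quotient.out (e i') : 𝓞 N) : N) : Ω) := by simp
    rw [e1]
    refine le_antisymm (H13S.vw_int N V _) (not_lt.1 fun h' => hii ?_)
    have h2 := (w.valuation_lt_one_iff_mem _).1 ((hw.lt _).1 h')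
    rw [← Ideal.Quotient.eq_zero_iff_mem, map_sub, hmk, hmk, sub_eq_zero] at h2
    exact e.injective h2
  refine ⟨fun i => (((Quotient.out (e i) : 𝓞 N) : N) : Ω), hrN, hrr, ?_⟩
  intro x hx hxV
  refine f2_roots2 V hq1 (fun i => (((Quotient.out (e i) : 𝓞 N) : N) : Ω)) (fun i => (hrN i).2) hrr ?_ x hxV ?_
  · intro i
    have h1 := hφ' _ (hrN i).2
    have h2 : φ (((Quotient.out (e i) : 𝓞 N) : N) : Ω) = (((Quotient.out (e i) : 𝓞 N) : N) : Ω) :=
      (IntermediateField.mem_fixingSubgroup_iff N φ).1 hφN _ (hrN i).1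
    rw [h2] at h1
    exact h1
  · have h1 := hφ' x hxV
    rw [hx φ (mem_DN.2 ⟨hφN, hφD⟩)] at h1
    exact h1

end H19B
end

-- from Lib.H19B.F6
section

/-! # H19B, chunk F6 (M/L): the frame exists -/

open NumberField IsDedekindDomain WeierstrassCurve

namespace H19B

open H55P (IQ Pt ac Dec Inert decS Nm)
open H35P (WAB Ker tt)
open H55K (Tor CMA Dta GV ak cj)

variable {F : Type} [Field F] [NumberField F] [IQ F] {A B : F} {Om : ℂ} {Ω : Type} [Field Ω] [DecidableEq Ω]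
  [Algebra F Ω] [IsAlgClosure F Ω] {j : Ω →+* ℂ} {act : 𝓞 F →+* AddMonoid.End (Pt (WAB A B) Ω)} {mo : Ideal (𝓞 F)}
  {ψ : Ideal (𝓞 F) →*₀ 𝓞 F} {p : ℕ} {V : ValuationSubring Ω} {π : 𝓞 F}

omit [NumberField F] [IQ F] [IsAlgClosure F Ω] in
theorem f6_mod {M : Type} [AddCommGroup M] {T : M} (hT : p • T = 0) (n : ℕ) : (n % p) • T = n • T := by
  conv_rhs => rw [← Nat.div_add_mod n p, add_nsmul, mul_nsmul, hT, nsmul_zero, zero_add]

/-- The subgroup of the elements of D which fix the points with the property P. -/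
def f6Fix (D : Subgroup (Ω ≃ₐ[F] Ω)) (P : Pt (WAB A B) Ω → Prop) : Subgroup (Ω ≃ₐ[F] Ω) where
  carrier := {s | s ∈ D ∧ ∀ T : Pt (WAB A B) Ω, P T → ac (WAB A B) s T = T}
  one_mem' := ⟨D.one_mem, fun T _ => H55K.S.ac_one T⟩
  mul_mem' := by
    rintro s t ⟨h1, h2⟩ ⟨h3, h4⟩
    exact ⟨D.mul_mem h1 h3, fun T hT => by rw [H55K.S.ac_mul, h4 T hT, h2 T hT]⟩
  inv_mem' := by
    rintro s ⟨h1, h2⟩
    refine ⟨D.inv_mem h1, fun T hT => ?_⟩
    apply H55K.S.ac_inj s
    rw [H55K.S.ac_inv, h2 T hT]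


theorem f6_nrm {D : Subgroup (Ω ≃ₐ[F] Ω)} {P : Pt (WAB A B) Ω → Prop} (hP : ∀ s ∈ D, ∀ T, P T → P (ac (WAB A B) s T))
    {s t : Ω ≃ₐ[F] Ω} (hs : s ∈ D) (ht : t ∈ f6Fix D P) : s⁻¹ * t * s ∈ f6Fix D P := by
  refine ⟨D.mul_mem (D.mul_mem (D.inv_mem hs) ht.1) hs, fun T hT => ?_⟩
  rw [H55K.S.ac_mul, H55K.S.ac_mul, ht.2 _ (hP s hs T hT), ← H55K.S.ac_mul, inv_mul_cancel, H55K.S.ac_one]

/-- A multiplicative function to the nonzero integers modulo p. -/
noncomputable def f6Hom {G : Type} [Group G] (hp : p.Prime) (κ : G → ZMod p) (h1 : ∀ s t, κ (s * t) = κ s * κ t)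
    (h2 : ∀ s, κ s ≠ 0) : G →* ZMod p where
  toFun := κ
  map_one' := by
    have hpf : Fact p.Prime := ⟨hp⟩
    have h3 := h1 1 1
    rw [mul_one] at h3
    exact (mul_eq_left₀ (h2 1)).1 h3.symm
  map_mul' := h1

theorem f6_rep {G : Type} [Group G] (hp : p.Prime) (κ : G → ZMod p) (h1 : ∀ s t, κ (s * t) = κ s * κ t)
    (h2 : ∀ s, κ s ≠ 0) (C E : Subgroup G) (hCE : ∀ s ∈ E, κ s = 1 ↔ s ∈ C) : ∃ S : Finset G, Rep C E S ∧ ¬ p ∣ S.card := by
  have hpf : Fact p.Prime := ⟨hp⟩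
  let f : E →* (ZMod p)ˣ := ((f6Hom hp κ h1 h2).comp E.subtype).toHomUnits
  have hf : ∀ s : E, ((f s : (ZMod p)ˣ) : ZMod p) = κ (s : G) := fun s => rfl
  have h3 : f.ker = C.subgroupOf E := by
    ext s
    rw [MonoidHom.mem_ker, Subgroup.mem_subgroupOf, ← hCE s.1 s.2, ← hf s, Units.val_eq_one]
  have h4 : C.relIndex E = Nat.card f.range := by
    rw [Subgroup.relIndex, ← h3, Subgroup.index_ker]
  have h5 : Nat.card f.range ∣ Nat.card (ZMod p)ˣ := Subgroup.card_subgroup_dvd_card _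
  rw [Nat.card_eq_fintype_card (α := (ZMod p)ˣ), ZMod.card_units] at h5
  have h6 : 0 < p - 1 := Nat.sub_pos_of_lt hp.one_lt
  have h7 : C.relIndex E ∣ p - 1 := by rw [h4]; exact h5
  have h8 : 0 < C.relIndex E := Nat.pos_of_dvd_of_pos h7 h6
  obtain ⟨S, hS1, hS2⟩ := rep_exists C E h8.ne'
  refine ⟨S, hS1, fun h => ?_⟩
  rw [hS2] at h
  have h9 := Nat.le_of_dvd h6 (h.trans h7)
  omega

theorem f6_pow {φ : Ω ≃ₐ[F] Ω} {q : ℕ} (hφ : ∀ x : Ω, V.valuation x ≤ 1 → V.valuation (φ x - x ^ q) < 1)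
    (hd : φ ∈ decS F V) {x : Ω} (hx : V.valuation x ≤ 1) (k : ℕ) : V.valuation ((φ ^ k) x - x ^ q ^ k) < 1 := by
  induction k with
  | zero =>
    rw [pow_zero, pow_zero, pow_one, AlgEquiv.one_apply, sub_self, map_zero]
    exact zero_lt_one
  | succ k ih =>
    have h1 : V.valuation (φ ((φ ^ k) x - x ^ q ^ k)) < 1 := (H55P.dec_lt1 V φ hd _).2 ih
    have h2 : V.valuation (x ^ q ^ k) ≤ 1 := by
      rw [map_pow]
      exact pow_le_one' hx _
    have h3 := hφ _ h2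
    have h4 : (φ ^ (k + 1)) x - x ^ q ^ (k + 1) = (φ (x ^ q ^ k) - (x ^ q ^ k) ^ q) + φ ((φ ^ k) x - x ^ q ^ k) := by
      rw [pow_succ' φ k, AlgEquiv.mul_apply, map_sub, pow_succ q k, pow_mul]
      ring
    rw [h4]
    exact V.valuation.map_add_lt h3 h1

/-- Chunk F6 (M/L). Assembly of the frame. PROOF. V(p) < 1 since π divides p. V(cj π) = 1: cj π does not divide π (hs, symmetric; dichotomy) and if V(cj π) < 1 then, u π + v cj π = 1 (tors_split), V(1) < 1. GV A B V: dta.good. w, e: F1. q, φ, r: F2. κ for π and η for cj π: F3 (cj (cj π) = π: cj_cj, cj_prime, cj_dvd).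
ζ: a primitive p-th root of unity in Ω (algebraically closed of characteristic 0: IsSepClosed/IsAlgClosed: HasEnoughRootsOfUnity or H35L.x2_prim with k = 1). n = (η φ).val. om s = κ s * η s, et = η. D = DN N V, E, C as in Of (subgroups of D: closed under products and inverses since ac is an action).
Ok: nrm1, nrm2: ac (s⁻¹ t s) T = ac s⁻¹ (ac t (ac s T)), and ac s T is again killed by p (by cj π). rep: E ≥ C, C = elements of E with κ = 1 (tors_split: a point killed by p is a sum), so the map E -> (ZMod p) units, s -> κ s, is a homomorphism with kernel C: C.relIndex E divides the order p - 1 of the group of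
units, so it is not 0 and not divisible by p; rep_exists. val: for y fixed by E, the elements s fixing N, Inert V s, are in D (H55P.inert_dec) and in E (H13X.inert_tors with V(cj π) = 1), F1. res: η φ ≠ 0, (η φ)^(p-1) = 1 (ZMod.pow_card_sub_one_eq_one), so φ^(p-1) in E, φ^(p-1) x = x, and V(φ^k x - x^(q^k)) < 1
by induction (φ preserves V( ) < 1; V(a^q - b^q) < 1 if V(a - b) < 1). n1: if η φ = 1 then φ fixes Tor (cj π) (F3), so all s in D fix Tor (cj π) (frob_fix with h3 from roots_all; φ r = r as r in N, φ in D), and T₀' ≠ 0 in Tor (cj π): contradiction to h0.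
zD: cyc_ch. om1, et1: F3. fw: w in N. fro, phi: F2. Of: ch: T in Tor π: η • (κ • T) = (om).val • T: both are determined modulo p, p • T = 0. ch': F3. rs: F2. The last property of the values is the one of F1. -/
theorem exists_frm (dta : Dta A B Om j act mo ψ p) (hπ : Prime π) (hd : π ∣ (p : 𝓞 F)) (hs : ¬ π ∣ cj π)
    (hV : V.valuation (ak Ω π) < 1) (N : IntermediateField F Ω) [NumberField N]
    (h0 : ∀ T : Pt (WAB A B) Ω, act (cj π) T = 0 → (∀ s ∈ DN N V, ac (WAB A B) s T = T) → T = 0) :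
    ∃ X : Frm F Ω, X.p = p ∧ X.V = V ∧ Of X act π N ∧
      ∀ y : Ω, y ≠ 0 → (∀ s ∈ N.fixingSubgroup, Inert V s → s y = y) → ∃ i : ℤ, V.valuation y = V.valuation X.w ^ i := by
  have hp := dta.prime
  have hpf : Fact p.Prime := ⟨hp⟩
  have hA := dta.cma
  obtain ⟨hpp, u, v, huv⟩ := tors_split hA hp dta.unr hπ hd hs
  have hπ' := H55K.cj_prime hπ
  have hd' : cj π ∣ (p : 𝓞 F) := ⟨π, by rw [mul_comm, hpp]⟩
  have hs' : ¬ cj π ∣ cj (cj π) := by
    rw [H55K.cj_dvd, H55K.cj_cj]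
    exact hs
  have hle : ∀ x : 𝓞 F, V.valuation (ak Ω x) ≤ 1 := fun x => H55K.S.vo_le V x
  have hp0 : V.valuation (p : Ω) < 1 := by
    have e1 : (p : Ω) = ak Ω (p : 𝓞 F) := by simp [ak]
    have e2 := H55K.S.vo_mul V π (cj π)
    rw [hpp] at e2
    rw [e1]
    refine lt_of_eq_of_lt e2 ?_
    exact mul_lt_one_of_nonneg_of_lt_one_left zero_le hV (hle _)
  have hc1 : V.valuation (ak Ω (cj π)) = 1 := H55K.S.vo_unit ⟨u, v, huv⟩ hV
  have hG : GV A B V := dta.good V hp0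
  obtain ⟨w, e, hwN, hw0, hw1, he0, hep, hval⟩ := exists_unif hp hp0 N
  obtain ⟨q, φ, hq1, hpq, hφD, hφ, r, hr1, hr2, hr3⟩ := exists_res hp hπ hd hV N
  obtain ⟨κ, hκ1, hκ2, hκ3, hκ4⟩ := exists_ch hA hp dta.unr hπ hd hs
  obtain ⟨η, hη1, hη2, hη3, hη4⟩ := exists_ch hA hp dta.unr hπ' hd' hs'
  have hac : IsAlgClosed Ω := IsAlgClosure.isAlgClosed F
  have hchar : CharZero Ω := charZero_of_injective_algebraMap (algebraMap F Ω).injective
  have hn0 : NeZero p := ⟨hp.ne_zero⟩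
  have hn1 : NeZero (p : Ω) := ⟨Nat.cast_ne_zero.2 hp.ne_zero⟩
  obtain ⟨ζ, hζ⟩ := HasEnoughRootsOfUnity.exists_primitiveRoot Ω p
  have hact : ∀ T : Pt (WAB A B) Ω, act (p : 𝓞 F) T = p • T := fun T => H55K.S.act_nat p T
  have hkp : ∀ T : Pt (WAB A B) Ω, act π T = 0 → p • T = 0 := fun T hT => by
    rw [← hact, ← hpp, mul_comm, H55K.S.act_mul, hT, map_zero]
  have hkp' : ∀ T : Pt (WAB A B) Ω, act (cj π) T = 0 → p • T = 0 := fun T hT => by
    rw [← hact, ← hpp, H55K.S.act_mul, hT, map_zero]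
  have hspl : ∀ T : Pt (WAB A B) Ω, p • T = 0 → act (v * cj π) T + act (u * π) T = T ∧ act π (act (v * cj π) T) = 0 ∧
      act (cj π) (act (u * π) T) = 0 := by
    intro T hT
    refine ⟨?_, ?_, ?_⟩
    · rw [← H55K.S.act_add, add_comm, huv, H55K.S.act_one]
    · rw [← H55K.S.act_mul]
      have e1 : π * (v * cj π) = v * (p : 𝓞 F) := by rw [← hpp]; ring
      rw [e1, H55K.S.act_mul, hact, hT, map_zero]
    · rw [← H55K.S.act_mul]
      have e1 : cj π * (u * π) = u * (p : 𝓞 F) := by rw [← hpp]; ring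
      rw [e1, H55K.S.act_mul, hact, hT, map_zero]
  let X : Frm F Ω :=
    { p := p
      q := q
      e := e
      n := (η φ).val
      V := V
      D := DN N V
      E := f6Fix (DN N V) (fun T : Pt (WAB A B) Ω => act (cj π) T = 0)
      C := f6Fix (DN N V) (fun T : Pt (WAB A B) Ω => p • T = 0)
      w := w
      φ := φ
      ζ := ζ
      om := fun s => κ s * η s
      et := η }
  have hCE : ∀ s ∈ X.E, κ s = 1 ↔ s ∈ X.C := by
    intro s hsE
    rw [hκ4 s]
    constructor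
    · intro hk
      refine ⟨hsE.1, fun T hT => ?_⟩
      obtain ⟨h1, h2, h3⟩ := hspl T hT
      have h4 := hk _ h2
      have h5 := hsE.2 _ h3
      have h6 : ac (WAB A B) s (act (v * cj π) T + act (u * π) T) = act (v * cj π) T + act (u * π) T := by
        rw [map_add, h4, h5]
      rwa [h1] at h6
    · intro hC T hT
      exact hC.2 T (hkp T hT)
  have hη1' : ∀ s ∈ X.E, η s = 1 := fun s hsE => (hη4 s).2 hsE.2
  have hle1 : X.C ≤ X.E := fun s hsC => ⟨hsC.1, fun T hT => hsC.2 T (hkp' T hT)⟩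
  have hφf : ∀ i, φ (r i) = r i := fun i =>
    (IntermediateField.mem_fixingSubgroup_iff N φ).1 (mem_DN.1 hφD).1 (r i) (hr1 i).1
  have hOk : X.Ok := by
    refine
      { pr := hp
        odd := lt_of_lt_of_le (by norm_num) dta.five
        dec := fun s hs => (mem_DN.1 hs).2
        le1 := hle1
        le2 := fun s hs => hs.1
        nrm1 := fun s hs t ht => f6_nrm (fun s _ T hT => by rw [← map_nsmul, hT, map_zero]) hs ht
        nrm2 := fun s hs t ht => f6_nrm (fun s _ T hT => by rw [← hA.gal, hT, map_zero]) hs ht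
        rep := f6_rep hp κ hκ2 hκ3 X.C X.E hCE
        fw := fun s hs => (IntermediateField.mem_fixingSubgroup_iff N s).1 (mem_DN.1 hs).1 w hwN
        w0 := hw0
        w1 := hw1
        val := fun x hx0 hx => hval x hx0 fun s hsN hsI => hx s
          ⟨mem_DN.2 ⟨hsN, H55P.inert_dec V s hsI⟩, fun T hT => H13X.inert_tors hA hG hc1 hsI (H55K.S.mem_Tor.2 hT)⟩
        e0 := he0
        ep := hep
        q0 := hq1
        qp := hpq
        res := ?_
        phi := hφD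
        fro := hφ
        etn := (ZMod.natCast_zmod_val (η φ)).symm
        n1 := ?_
        prim := hζ
        zD := fun s _ => cyc_ch dta hπ hd hs hζ hκ1 hη1 s
        om1 := fun s hsC => by
          show κ s * η s = 1
          rw [(hCE s (hle1 hsC)).2 hsC, hη1' s (hle1 hsC), one_mul]
        et1 := hη1' }
    · intro x hx hxE
      have h1 : φ ^ (p - 1) ∈ X.E := by
        refine ⟨(DN N V).pow_mem hφD _, (hη4 _).1 ?_⟩
        have h2 : η (φ ^ (p - 1)) = η φ ^ (p - 1) := map_pow (f6Hom hp η hη2 hη3) φ (p - 1)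
        rw [h2]
        exact ZMod.pow_card_sub_one_eq_one (hη3 φ)
      have h3 := f6_pow hφ (mem_DN.1 hφD).2 hx (p - 1)
      rw [hxE _ h1] at h3
      rw [← neg_sub, Valuation.map_neg]
      exact h3
    · intro h1
      have h2 : η φ = 1 := by
        rw [← ZMod.natCast_zmod_val (η φ)]
        exact h1
      obtain ⟨T₀, hT1, _, hT2, _⟩ := exists_T0 hA hp dta.unr hπ' hd' hs'
      have h3 : T₀ = 0 := by
        refine h0 T₀ hT1 fun s hsD => ?_
        exact frob_fix hA hG hc1 hφ hr1 (fun x hx hxq => roots_all hq1 hφ (fun i => ⟨hφf i, (hr1 i).2⟩) hr2 x hx hxq)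
          ((hη4 φ).1 h2) s hsD T₀ hT1
      have h4 := hT2 1 (by rw [h3, nsmul_zero])
      exact one_ne_zero h4
  refine ⟨X, rfl, rfl, ?_, hval⟩
  exact
    { ok := hOk
      D := rfl
      E := fun s => Iff.rfl
      C := fun s => Iff.rfl
      wN := hwN
      rs := ⟨r, hr1, hr2, hr3⟩
      ch := fun s _ T hT => by
        show (η s).val • ac (WAB A B) s T = (κ s * η s).val • T
        rw [hκ1 s T hT, ZMod.val_mul, f6_mod (hkp T hT), mul_nsmul]
      ch' := fun s _ T hT => hη1 s T hT }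

end H19B
end

-- from Lib.SSG.V.V10
section

/-! # SSG, part V: the local model at a prime element π (ordinary case) -/

open NumberField IsDedekindDomain WeierstrassCurve

namespace SSG.V

open SSG
open H55P (IQ embF eF LF Per IsHecke Pt ac Inert Dec)
open H35P (WAB Ker tt)
open H55K

/-- The frame of the coordinates x/y of the multiples of the points T N. -/
noncomputable def LR {F : Type} [Field F] [NumberField F] {A B : F} {Ω : Type} [Field Ω] [DecidableEq Ω] [Algebra F Ω]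
    (act : 𝓞 F →+* AddMonoid.End (Pt (WAB A B) Ω)) {C : Type} [NormedField C] (i : Ω →+* C)
    (T : ℕ → Pt (WAB A B) Ω) : LTF F C where
  X := fun N a => i (tt (act a (T N)))
  z := fun _ => 0

/-- The local model at the valuation ring V of Ω above the prime element π of degree one: an embedding i of Ω in ℂ_[p] inducing V, the points
T N of order π^N with parameter 1/π^N, and the coordinate x/y of the combinations of multiples of T N as integral function of the coordinates. -/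
structure LocR {F : Type} [Field F] [NumberField F] [IQ F] (A B : F) (Om : ℂ) {Ω : Type} [Field Ω] [DecidableEq Ω]
    [Algebra F Ω] (j : Ω →+* ℂ) (act : 𝓞 F →+* AddMonoid.End (Pt (WAB A B) Ω)) (p : ℕ) [Fact p.Prime] (π : 𝓞 F)
    (V : ValuationSubring Ω) (i : Ω →+* ℂ_[p]) (T : ℕ → Pt (WAB A B) Ω) : Prop where
  val : ∀ x : Ω, x ∈ V ↔ ‖i x‖ ≤ 1
  ne : π ≠ 0
  zero : ∀ N (a : 𝓞 F), act a (T N) = 0 ↔ π ^ N ∣ a
  down : ∀ N, act π (T (N + 1)) = T N
  unif : ∀ N (a : 𝓞 F), ¬ π ^ N ∣ a →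
    j (xc (act a (T N))) = (LF F).weierstrassP (eF F a / (eF F π) ^ N) / Om ^ 2 ∧
    j (yc (act a (T N))) = (LF F).derivWeierstrassP (eF F a / (eF F π) ^ N) / (2 * Om ^ 3)
  ker : ∀ N (a : 𝓞 F), Ker V (act a (T N))
  fn : ∀ (N : ℕ) (ι : Type) [Fintype ι] (c : ι → 𝓞 F),
    (LR act i T).Fn N ι (fun a => i (tt (act (∑ k, c k * a k) (T N))))

variable {F : Type} [Field F] [NumberField F] [IQ F] {A B : F} {Om : ℂ} {Ω : Type} [Field Ω] [DecidableEq Ω]
  [Algebra F Ω] {j : Ω →+* ℂ} {act : 𝓞 F →+* AddMonoid.End (Pt (WAB A B) Ω)} {p : ℕ} [Fact p.Prime] {π : 𝓞 F}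
  {V : ValuationSubring Ω} {i : Ω →+* ℂ_[p]} {T : ℕ → Pt (WAB A B) Ω}



theorem loc_leR (hL : LocR A B Om j act p π V i T) (x : Ω) : V.valuation x ≤ 1 ↔ ‖i x‖ ≤ 1 := by
  rw [V.valuation_le_one_iff]
  exact hL.val x

theorem loc_ltR (hL : LocR A B Om j act p π V i T) (x : Ω) : V.valuation x < 1 ↔ ‖i x‖ < 1 := by
  rcases eq_or_ne x 0 with rfl | hx
  · simp
  · have h1 := loc_leR hL x⁻¹
    have hvx : V.valuation x ≠ 0 := (Valuation.ne_zero_iff _).2 hx
    have hix : i x ≠ 0 := (map_ne_zero i).2 hx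
    have h2 : V.valuation x < 1 ↔ ¬ V.valuation x⁻¹ ≤ 1 := by
      rw [map_inv₀, not_le, one_lt_inv₀ (zero_lt_iff.2 hvx)]
    have h3 : ‖i x‖ < 1 ↔ ¬ ‖i x⁻¹‖ ≤ 1 := by
      rw [map_inv₀, norm_inv, not_le, one_lt_inv₀ (norm_pos_iff.2 hix)]
    rw [h2, h3, h1]

theorem loc_eqR (hL : LocR A B Om j act p π V i T) (x : Ω) : V.valuation x = 1 ↔ ‖i x‖ = 1 := by
  rw [le_antisymm_iff, le_antisymm_iff, ← not_lt, ← not_lt, ← not_lt, ← not_lt, loc_ltR hL x, not_lt, not_lt, not_lt,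
    loc_leR hL x]

theorem a7_ltR (hV : GV A B V) (hL : LocR A B Om j act p π V i T) (N : ℕ) (a : 𝓞 F) :
    ‖i (tt (act a (T N)))‖ < 1 := (loc_ltR hL _).1 (ttlt hV (hL.ker N a))

theorem okR (hV : GV A B V) (hL : LocR A B Om j act p π V i T) : OkR π (LR act i T) where
  ne := hL.ne
  small := fun N a => a7_ltR hV hL N a
  per := fun N a b hab => by
    have h1 : act a (T N) = act b (T N) := by
      have h2 := (hL.zero N (a - b)).2 hab
      rw [map_sub] at h2
      exact sub_eq_zero.1 h2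
    show i (tt (act a (T N))) = i (tt (act b (T N)))
    rw [h1]

theorem fn_vvR (hV : GV A B V) (hL : LocR A B Om j act p π V i T) (N : ℕ) {ι : Type} [Fintype ι] (c : ι → 𝓞 F) :
    (LR act i T).Fn N ι (fun a => i (vv (act (∑ k, c k * a k) (T N)))) := by
  have hA : ‖i (algebraMap F Ω A)‖ ≤ 1 := (hL.val _).1 hV.a
  have hB : ‖i (algebraMap F Ω B)‖ ≤ 1 := (hL.val _).1 hV.b
  refine Fn_vR (okR hV hL) hA hB (hL.fn N ι c) (fun a => a7_ltR hV hL N _)
    (fun a => (loc_leR hL _).1 (vv_eq hV (hL.ker N _)).2.1) fun a => ?_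
  have h1 := (vv_eq hV (hL.ker N (∑ k, c k * a k))).1
  have h2 := congrArg i h1
  simpa only [map_add, map_mul, map_pow, map_one] using h2

theorem a7_oneR (hV : GV A B V) (hL : LocR A B Om j act p π V i T) (N : ℕ) (s : 𝓞 F) {x : ℂ_[p]} (hx : ‖x‖ ≤ 1) :
    ‖(1 - x * i (tt (act s (T N))) ^ 2 * i (vv (act s (T N)))) - 1‖ < 1 := by
  have ht := a7_ltR hV hL N s
  have hv : ‖i (vv (act s (T N)))‖ ≤ 1 := (loc_leR hL _).1 (vv_eq hV (hL.ker N s)).2.1
  have e : (1 - x * i (tt (act s (T N))) ^ 2 * i (vv (act s (T N)))) - 1 =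
      -(x * i (tt (act s (T N))) ^ 2 * i (vv (act s (T N)))) := by ring
  rw [e, norm_neg, norm_mul, norm_mul, norm_pow]
  calc ‖x‖ * ‖i (tt (act s (T N)))‖ ^ 2 * ‖i (vv (act s (T N)))‖
      ≤ 1 * ‖i (tt (act s (T N)))‖ ^ 2 * 1 := by gcongr
    _ < 1 := by
      rw [one_mul, mul_one]
      exact pow_lt_one₀ (norm_nonneg _) ht (by norm_num)

theorem a7_invR (hV : GV A B V) (hL : LocR A B Om j act p π V i T) (N : ℕ) {ι : Type} [Fintype ι] (c : ι → 𝓞 F)
    {x : ℂ_[p]} (hx : ‖x‖ ≤ 1) (n : ℕ) : (LR act i T).Fn N ι (fun a => (i (vv (act (∑ k, c k * a k) (T N))) *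
      (1 - x * i (tt (act (∑ k, c k * a k) (T N))) ^ 2 * i (vv (act (∑ k, c k * a k) (T N)))) ^ n)⁻¹) := by
  have hs := (okR hV hL).small
  refine Fn_invR (okR hV hL) (u := 1) ?_ norm_one fun a => ?_
  · exact Fn_mul hs (fn_vvR hV hL N c) (Fn_pow hs (Fn_sub (Fn_const norm_one.le)
      (Fn_mul hs (Fn_scal hs hx (Fn_pow hs (hL.fn N ι c) 2)) (fn_vvR hV hL N c))) n)
  · refine a7_mulone ?_ (a7_powone (a7_oneR hV hL N _ hx) n)
    have h1 := (loc_ltR hL _).1 (vv_eq hV (hL.ker N (∑ k, c k * a k))).2.2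
    rwa [map_sub, map_one] at h1

theorem fn_xR (hV : GV A B V) (hL : LocR A B Om j act p π V i T) (N : ℕ) {ι : Type} [Fintype ι] (c : ι → 𝓞 F)
    {P : Pt (WAB A B) Ω} (hP : ¬ Ker V P) : (LR act i T).Fn N ι (fun a => i (xc (P + act (∑ k, c k * a k) (T N)))) := by
  have hs := (okR hV hL).small
  have hA : ‖i (algebraMap F Ω A)‖ ≤ 1 := (hL.val _).1 hV.a
  have hB : ‖i (algebraMap F Ω B)‖ ≤ 1 := (hL.val _).1 hV.b
  have hx : ‖i (xc P)‖ ≤ 1 := (loc_leR hL _).1 (not_ker V hP).2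
  have hy : ‖i (yc P)‖ ≤ 1 := (loc_leR hL _).1 (gv_y hV hP)
  have ht := hL.fn N ι c
  have hv := fn_vvR hV hL N c
  have e : (fun a : ι → 𝓞 F => i (xc (P + act (∑ k, c k * a k) (T N)))) = fun a =>
      (i (algebraMap F Ω A) * i (tt (act (∑ k, c k * a k) (T N))) ^ 2 * i (vv (act (∑ k, c k * a k) (T N))) ^ 2 +
        i (algebraMap F Ω B) * i (tt (act (∑ k, c k * a k) (T N))) ^ 4 * i (vv (act (∑ k, c k * a k) (T N))) ^ 3 -
        ((2 : ℕ) : ℂ_[p]) * i (yc P) * i (tt (act (∑ k, c k * a k) (T N))) * i (vv (act (∑ k, c k * a k) (T N))) ^ 2 +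
        i (yc P) ^ 2 * i (tt (act (∑ k, c k * a k) (T N))) ^ 4 * i (vv (act (∑ k, c k * a k) (T N))) ^ 3 +
        ((2 : ℕ) : ℂ_[p]) * i (xc P) * i (vv (act (∑ k, c k * a k) (T N))) -
        i (xc P) ^ 2 * i (tt (act (∑ k, c k * a k) (T N))) ^ 2 * i (vv (act (∑ k, c k * a k) (T N))) ^ 2) *
        (i (vv (act (∑ k, c k * a k) (T N))) *
          (1 - i (xc P) * i (tt (act (∑ k, c k * a k) (T N))) ^ 2 * i (vv (act (∑ k, c k * a k) (T N)))) ^ 2)⁻¹ -
        i (xc P) := by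
    funext a
    rw [(add_xy hV hP (hL.ker N (∑ k, c k * a k))).1]
    simp only [nX, map_sub, map_mul, map_add, map_inv₀, map_pow, map_one, map_ofNat, Nat.cast_ofNat]
  rw [e]
  have hxx : ‖i (xc P) ^ 2‖ ≤ 1 := by rw [norm_pow]; exact pow_le_one₀ (norm_nonneg _) hx
  have hyy : ‖i (yc P) ^ 2‖ ≤ 1 := by rw [norm_pow]; exact pow_le_one₀ (norm_nonneg _) hy
  have h2x : ‖((2 : ℕ) : ℂ_[p]) * i (xc P)‖ ≤ 1 := by
    rw [norm_mul]; exact mul_le_one₀ (a7_nat 2) (norm_nonneg _) hx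
  have h2y : ‖((2 : ℕ) : ℂ_[p]) * i (yc P)‖ ≤ 1 := by
    rw [norm_mul]; exact mul_le_one₀ (a7_nat 2) (norm_nonneg _) hy
  refine Fn_sub (Fn_mul hs ?_ (a7_invR hV hL N c hx 2)) (Fn_const hx)
  refine Fn_sub (Fn_add (Fn_add (Fn_sub (Fn_add ?_ ?_) ?_) ?_) ?_) ?_
  · exact Fn_mul hs (Fn_scal hs hA (Fn_pow hs ht 2)) (Fn_pow hs hv 2)
  · exact Fn_mul hs (Fn_scal hs hB (Fn_pow hs ht 4)) (Fn_pow hs hv 3)
  · exact Fn_mul hs (Fn_scal hs h2y ht) (Fn_pow hs hv 2)
  · exact Fn_mul hs (Fn_scal hs hyy (Fn_pow hs ht 4)) (Fn_pow hs hv 3)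
  · exact Fn_scal hs h2x hv
  · exact Fn_mul hs (Fn_scal hs hxx (Fn_pow hs ht 2)) (Fn_pow hs hv 2)

theorem fn_yR (hV : GV A B V) (hL : LocR A B Om j act p π V i T) (N : ℕ) {ι : Type} [Fintype ι] (c : ι → 𝓞 F)
    {P : Pt (WAB A B) Ω} (hP : ¬ Ker V P) : (LR act i T).Fn N ι (fun a => i (yc (P + act (∑ k, c k * a k) (T N)))) := by
  have hs := (okR hV hL).small
  have hA : ‖i (algebraMap F Ω A)‖ ≤ 1 := (hL.val _).1 hV.a
  have hB : ‖i (algebraMap F Ω B)‖ ≤ 1 := (hL.val _).1 hV.b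
  have hx : ‖i (xc P)‖ ≤ 1 := (loc_leR hL _).1 (not_ker V hP).2
  have hy : ‖i (yc P)‖ ≤ 1 := (loc_leR hL _).1 (gv_y hV hP)
  have ht := hL.fn N ι c
  have hv := fn_vvR hV hL N c
  have e : (fun a : ι → 𝓞 F => i (yc (P + act (∑ k, c k * a k) (T N)))) = fun a =>
      -i (yc P) - (1 - i (yc P) * i (tt (act (∑ k, c k * a k) (T N))) ^ 3 * i (vv (act (∑ k, c k * a k) (T N)))) *
      (i (algebraMap F Ω A) * i (tt (act (∑ k, c k * a k) (T N))) * i (vv (act (∑ k, c k * a k) (T N))) ^ 2 +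
        i (algebraMap F Ω B) * i (tt (act (∑ k, c k * a k) (T N))) ^ 3 * i (vv (act (∑ k, c k * a k) (T N))) ^ 3 -
        ((2 : ℕ) : ℂ_[p]) * i (yc P) * i (vv (act (∑ k, c k * a k) (T N))) ^ 2 +
        i (yc P) ^ 2 * i (tt (act (∑ k, c k * a k) (T N))) ^ 3 * i (vv (act (∑ k, c k * a k) (T N))) ^ 3 +
        ((3 : ℕ) : ℂ_[p]) * i (xc P) ^ 2 * i (tt (act (∑ k, c k * a k) (T N))) * i (vv (act (∑ k, c k * a k) (T N))) ^ 2 -
        ((2 : ℕ) : ℂ_[p]) * i (xc P) ^ 3 * i (tt (act (∑ k, c k * a k) (T N))) ^ 3 *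
          i (vv (act (∑ k, c k * a k) (T N))) ^ 3) *
        (i (vv (act (∑ k, c k * a k) (T N))) *
          (1 - i (xc P) * i (tt (act (∑ k, c k * a k) (T N))) ^ 2 * i (vv (act (∑ k, c k * a k) (T N)))) ^ 3)⁻¹ := by
    funext a
    rw [(add_xy hV hP (hL.ker N (∑ k, c k * a k))).2]
    simp only [nY, map_sub, map_mul, map_add, map_inv₀, map_pow, map_one, map_neg, map_ofNat, Nat.cast_ofNat]
  rw [e]
  have hyy : ‖i (yc P) ^ 2‖ ≤ 1 := by rw [norm_pow]; exact pow_le_one₀ (norm_nonneg _) hy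
  have h2y : ‖((2 : ℕ) : ℂ_[p]) * i (yc P)‖ ≤ 1 := by
    rw [norm_mul]; exact mul_le_one₀ (a7_nat 2) (norm_nonneg _) hy
  have h3x : ‖((3 : ℕ) : ℂ_[p]) * i (xc P) ^ 2‖ ≤ 1 := by
    rw [norm_mul, norm_pow]; exact mul_le_one₀ (a7_nat 3) (pow_nonneg (norm_nonneg _) _) (pow_le_one₀ (norm_nonneg _) hx)
  have h2x : ‖((2 : ℕ) : ℂ_[p]) * i (xc P) ^ 3‖ ≤ 1 := by
    rw [norm_mul, norm_pow]; exact mul_le_one₀ (a7_nat 2) (pow_nonneg (norm_nonneg _) _) (pow_le_one₀ (norm_nonneg _) hx)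
  refine Fn_sub (Fn_neg (Fn_const hy)) (Fn_mul hs (Fn_mul hs (Fn_sub (Fn_const norm_one.le)
    (Fn_mul hs (Fn_scal hs hy (Fn_pow hs ht 3)) hv)) ?_) (a7_invR hV hL N c hx 3))
  refine Fn_sub (Fn_add (Fn_add (Fn_sub (Fn_add ?_ ?_) ?_) ?_) ?_) ?_
  · exact Fn_mul hs (Fn_scal hs hA ht) (Fn_pow hs hv 2)
  · exact Fn_mul hs (Fn_scal hs hB (Fn_pow hs ht 3)) (Fn_pow hs hv 3)
  · exact Fn_scal hs h2y (Fn_pow hs hv 2)
  · exact Fn_mul hs (Fn_scal hs hyy (Fn_pow hs ht 3)) (Fn_pow hs hv 3)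
  · exact Fn_mul hs (Fn_scal hs h3x ht) (Fn_pow hs hv 2)
  · exact Fn_mul hs (Fn_scal hs h2x (Fn_pow hs ht 3)) (Fn_pow hs hv 3)

theorem x_congR (hV : GV A B V) (hL : LocR A B Om j act p π V i T) (N : ℕ) (a : 𝓞 F)
    {P : Pt (WAB A B) Ω} (hP : ¬ Ker V P) : ‖i (xc (P + act a (T N))) - i (xc P)‖ < 1 := by
  rw [← map_sub, ← loc_ltR hL]
  have hR := hL.ker N a
  have h1 := (transl hV hP hR).2.1
  have ht := ttlt hV hR
  have hy := gv_y hV hP
  have e : xc (P + act a (T N)) - xc P = (xc (P + act a (T N)) - xc P + 2 * yc P * tt (act a (T N))) -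
      2 * yc P * tt (act a (T N)) := by ring
  rw [e]
  refine V.valuation.map_sub_lt ?_ ?_
  · exact h1.trans_lt (pow_lt_one₀ zero_le ht (by norm_num))
  · rw [map_mul, map_mul]
    calc _ ≤ 1 * V.valuation (tt (act a (T N))) := by
          refine mul_le_mul_left ?_ _
          exact mul_le_one' hV.two.le hy
      _ < 1 := by rw [one_mul]; exact ht


end SSG.V
end

-- from Lib.SSG.V.V11
section

/-! # SSG, part V: one second difference as function of the torsion point of π-power order -/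

open NumberField IsDedekindDomain WeierstrassCurve

namespace SSG.V

open SSG
open H55P (IQ embF eF LF Per IsHecke Pt ac Inert Dec)
open H35P (WAB Ker tt)
open H55K

variable {F : Type} [Field F] [NumberField F] [IQ F] {A B : F} {Om : ℂ} {Ω : Type} [Field Ω] [DecidableEq Ω]
  [Algebra F Ω] {j : Ω →+* ℂ} {act : 𝓞 F →+* AddMonoid.End (Pt (WAB A B) Ω)} {p : ℕ} [Fact p.Prime] {π : 𝓞 F}
  {V : ValuationSubring Ω} {i : Ω →+* ℂ_[p]} {T : ℕ → Pt (WAB A B) Ω}

theorem term_fnR (h : CMA F A B Om j act) (hV : GV A B V) (hL : LocR A B Om j act p π V i T)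
    (N : ℕ) {ι : Type} [Fintype ι] (c : ι → 𝓞 F) {l τ δ : 𝓞 F} {M : 𝓞 F} (hM : M ≠ 0) (hVM : V.valuation (ak Ω M) = 1) (hl : Prime l)
    (hlp : ¬ l ∣ π) (hlM : l ∣ M) (hlδ : l ∣ δ) (hlτ : ¬ l ∣ τ) :
    ∃ hh : (ι → 𝓞 F) → Ω, (∀ a, j (hh a) = H35P.T2 (LF F)
        (eF F (∑ k, c k * a k) / (eF F π) ^ N + eF F τ / eF F M) (eF F δ / eF F M) / Om) ∧
      (LR act i T).Fn N ι (fun a => i (hh a)) := by
  classical
  have hOm : Om ≠ 0 := h.per.ne
  have hMC : eF F M ≠ 0 := fun h0 => hM (H55P.eF_inj (h0.trans (map_zero _).symm))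
  have hpC : (eF F π) ^ N ≠ 0 := pow_ne_zero N fun h0 => hL.ne (H55P.eF_inj (h0.trans (map_zero _).symm))
  by_cases hMδ : M ∣ δ
  · obtain ⟨δ', rfl⟩ := hMδ
    refine ⟨fun _ => 0, fun a => ?_, ?_⟩
    · rw [map_zero, T2_lat, zero_div]
      rw [H55P.mem_LF]
      refine ⟨δ', ?_⟩
      rw [map_mul]
      field_simp
    · have := Fn_const (L := LR act i T) (N := N) (ι := ι) (c := (0 : ℂ_[p])) (by rw [norm_zero]; exact zero_le_one)
      simpa only [map_zero] using this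
  · set q : 𝓞 F := π ^ N with hq
    have hq0 : q ≠ 0 := pow_ne_zero N hL.ne
    have hMO : M ≠ 0 := hM
    have hb0 : q * M ≠ 0 := mul_ne_zero hq0 hMO
    have hqe : eF F q = (eF F π) ^ N := by rw [hq, map_pow]
    have hbe : eF F (q * M) = (eF F π) ^ N * eF F M := by rw [map_mul, hqe]
    obtain ⟨Tb, -, -, hzero, hco⟩ := h.gen (q * M) hb0
    -- parameters
    have hnl : ∀ a : 𝓞 F, ¬ q * M ∣ a → eF F a / eF F (q * M) ∉ (LF F).lattice := by
      intro a ha hmem
      rw [H55P.mem_LF] at hmem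
      obtain ⟨y, hy⟩ := hmem
      apply ha
      refine ⟨y, H55P.eF_inj ?_⟩
      rw [map_mul, ← hy, mul_div_cancel₀]
      rw [hbe]
      exact mul_ne_zero hpC hMC
    have hUm : ∀ a : 𝓞 F, ¬ q * M ∣ a → Um A B Om j (act a Tb) (eF F a / eF F (q * M)) := fun a ha =>
      ⟨fun h0 => ha ((hzero a).1 h0), hnl a ha, (hco a ha).1, (hco a ha).2⟩
    -- T N
    have hTN : act M Tb = T N := by
      by_cases hu : π ^ N ∣ 1
      · have h1 : T N = 0 := by
          have := (hL.zero N 1).2 hu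
          rwa [a9_one] at this
        rw [h1, hzero]
        obtain ⟨c, hc⟩ := hu
        refine ⟨c, ?_⟩
        rw [hq]
        linear_combination M * hc
      · have h1 : T N ≠ 0 := by
          intro h0
          apply hu
          rw [← hL.zero N 1, a9_one, h0]
        have h2 : ¬ q * M ∣ M := by
          rintro ⟨c, hc⟩
          apply hu
          refine ⟨c, ?_⟩
          have h3 : M * 1 = M * (q * c) := by linear_combination hc
          exact mul_left_cancel₀ hMO h3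
        have h4 := hL.unif N 1 hu
        rw [a9_one] at h4
        have h5 := hUm _ h2
        have h6 : eF F M / eF F (q * M) = eF F 1 / (eF F π) ^ N := by
          rw [hbe, map_one]
          field_simp
        refine pt_ext h5.1 h1 (j.injective ?_) (j.injective ?_)
        · rw [h5.2.2.1, h6, h4.1]
        · rw [h5.2.2.2, h6, h4.2]
    -- divisibility
    have hlq : ¬ l ∣ q := by
      intro hd
      exact hlp (hl.dvd_of_dvd_pow (hq ▸ hd : l ∣ π ^ N))
    have hlb : l ∣ q * M := hlM.mul_left q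
    have hnd : ∀ (δ' s : 𝓞 F), l ∣ δ' → ¬ q * M ∣ q * τ + q * δ' + s * M := by
      intro δ' s hδ' hd
      have h1 : l ∣ q * τ + q * δ' + s * M := hlb.trans hd
      have h2 : l ∣ q * τ := by
        have h3 : q * τ = (q * τ + q * δ' + s * M) - (q * δ' + s * M) := by ring
        rw [h3]
        exact dvd_sub h1 (dvd_add (hδ'.mul_left q) (hlM.mul_left s))
      rcases hl.dvd_or_dvd h2 with h4 | h4
      · exact hlq h4
      · exact hlτ h4
    have hndQ : ¬ q * M ∣ q * δ := by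
      rintro ⟨c, hc⟩
      apply hMδ
      refine ⟨c, ?_⟩
      have h3 : q * δ = q * (M * c) := by linear_combination hc
      exact mul_left_cancel₀ hq0 h3
    -- prime to p
    have hnk : ∀ y : 𝓞 F, ¬ q * M ∣ q * y → ¬ Ker V (act (q * y) Tb) := by
      intro y hy hk
      apply hy
      rw [← hzero]
      refine tor_unit h hV hVM (T := act (q * y) Tb) ?_ hk
      show act M (act (q * y) Tb) = 0
      rw [← a9_mul, hzero]
      exact ⟨y, by ring⟩
    have hP : ¬ Ker V (act (q * τ) Tb) := hnk τ (by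
      have := hnd 0 0 (dvd_zero l)
      simpa using this)
    have hQ : ¬ Ker V (act (q * δ) Tb) := hnk δ hndQ
    have hPQ : ¬ Ker V (act (q * τ) Tb - act (q * δ) Tb) := by
      rw [← a9_sub, ← mul_sub]
      refine hnk _ ?_
      have := hnd (-δ) 0 ((dvd_neg).2 hlδ)
      have e : q * (τ - δ) = q * τ + q * (-δ) + 0 * M := by ring
      rw [e]
      exact this
    have hPQ' : ¬ Ker V (act (q * τ) Tb + act (q * δ) Tb) := by
      rw [← a9_add, ← mul_add]
      refine hnk _ ?_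
      have := hnd δ 0 hlδ
      have e : q * (τ + δ) = q * τ + q * δ + 0 * M := by ring
      rw [e]
      exact this
    have hcls := cls_diff hV hP hQ hPQ hPQ'
    rw [loc_eqR hL, map_sub] at hcls
    set P₀ := act (q * τ) Tb with hP₀
    set Q := act (q * δ) Tb with hQ₀
    have hsum : ∀ s : 𝓞 F, P₀ + act s (T N) = act (q * τ + s * M) Tb := by
      intro s
      rw [a9_add, a9_mul s, hTN]
    have hxq : ∀ s : 𝓞 F, xc (P₀ + act s (T N)) ≠ xc Q := by
      intro s he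
      have h1 := x_congR hV hL N s hP
      rw [he, norm_sub_rev] at h1
      exact (ne_of_lt h1) hcls
    have hz : ∀ s : 𝓞 F, eF F s / (eF F π) ^ N + eF F τ / eF F M = eF F (q * τ + s * M) / eF F (q * M) := by
      intro s
      rw [hbe, map_add, map_mul, map_mul, hqe]
      field_simp
      ring
    have hu : eF F δ / eF F M = eF F (q * δ) / eF F (q * M) := by
      rw [hbe, map_mul, hqe]
      field_simp
    refine ⟨fun a => 2 * yc (P₀ + act (∑ k, c k * a k) (T N)) *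
      (xc (P₀ + act (∑ k, c k * a k) (T N)) - xc Q)⁻¹, fun a => ?_, ?_⟩
    · set s := ∑ k, c k * a k with hs
      have hnd0 := hnd 0 s (dvd_zero l)
      rw [mul_zero, add_zero] at hnd0
      have hU1 : Um A B Om j (P₀ + act s (T N)) (eF F s / (eF F π) ^ N + eF F τ / eF F M) := by
        rw [hsum, hz]
        exact hUm _ hnd0
      have hU2 : Um A B Om j Q (eF F δ / eF F M) := by
        rw [hu]
        exact hUm _ hndQ
      refine (T2_val hOm hU1 hU2 ?_ ?_ (hxq s)).symm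
      · rw [hz, hu, ← add_div, ← map_add]
        refine hnl _ ?_
        have := hnd δ s hlδ
        have e : q * τ + s * M + q * δ = q * τ + q * δ + s * M := by ring
        rw [e]
        exact this
      · rw [hz, hu, ← sub_div, ← map_sub]
        refine hnl _ ?_
        have := hnd (-δ) s ((dvd_neg).2 hlδ)
        have e : q * τ + s * M - q * δ = q * τ + q * (-δ) + s * M := by ring
        rw [e]
        exact this
    · have hs := (okR hV hL).small
      have hxQ : ‖i (xc Q)‖ ≤ 1 := (loc_leR hL _).1 (not_ker V hQ).2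
      have h2 : ‖(2 : ℂ_[p])‖ ≤ 1 := by
        have := a7_nat (p := p) 2
        rwa [Nat.cast_ofNat] at this
      have e : (fun a : ι → 𝓞 F => i (2 * yc (P₀ + act (∑ k, c k * a k) (T N)) *
          (xc (P₀ + act (∑ k, c k * a k) (T N)) - xc Q)⁻¹)) = fun a =>
          2 * i (yc (P₀ + act (∑ k, c k * a k) (T N))) *
          (i (xc (P₀ + act (∑ k, c k * a k) (T N))) - i (xc Q))⁻¹ := by
        funext a
        rw [map_mul, map_mul, map_inv₀, map_sub, map_ofNat]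
      rw [e]
      refine Fn_mul hs (Fn_scal hs h2 (fn_yR hV hL N c hP)) ?_
      refine Fn_invR (okR hV hL) (u := i (xc P₀) - i (xc Q))
        (Fn_sub (fn_xR hV hL N c hP) (Fn_const hxQ)) hcls fun a => ?_
      have h3 := x_congR hV hL N (∑ k, c k * a k) hP
      have e2 : i (xc (P₀ + act (∑ k, c k * a k) (T N))) - i (xc Q) - (i (xc P₀) - i (xc Q)) =
          i (xc (P₀ + act (∑ k, c k * a k) (T N))) - i (xc P₀) := by ring
      rw [e2]
      exact h3


end SSG.V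
end
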