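import Mathlib
import Pool.Agent.Lib.H1M.PP2.M025
import Pool.Agent.Lib.H1M.PP2.M061
import Pool.Agent.Lib.H1M.PP2.M066
import Pool.Agent.Lib.H1M.PP2.M101
import Pool.Agent.Lib.H1M.PP2.M103
import Pool.Agent.Lib.H1M.PP2.M109
import Pool.Agent.Lib.H1M.PP2.M112
import Pool.Agent.Lib.H1M.PP2.M115
import Pool.Agent.Lib.H1M.PP2.M118
import Pool.Agent.Lib.H1M.PP2.M126
import Pool.Agent.Lib.H1M.PP2.M133
import Pool.Agent.Lib.H1M.PP2.M136
import Pool.Agent.Lib.H1M.PP2.M139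

/-! Merged copies (to shorten the build) of Lib.H19B.C5, Lib.H19B.L2, Lib.H19B.L8, Lib.H35M.SN2, Lib.H35M.TS8, Lib.H35M.TS11, Lib.H35M.TS12, Lib.H35M.TS13. -/

-- from Lib.H19B.C5
section

/-! # H19B, chunk C5 (M): the local lemma -/

open NumberField IsDedekindDomain WeierstrassCurve

namespace H19B

open H55P (IQ Pt ac Dec Inert decS Nm)
open H35P (WAB Ker tt)
open H55K (Tor CMA Dta GV ak cj)

variable {F : Type} [Field F] [NumberField F] [IQ F] {A B : F} {Om : ℂ} {Ω : Type} [Field Ω] [DecidableEq Ω]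
  [Algebra F Ω] [IsAlgClosure F Ω] {j : Ω →+* ℂ} {act : 𝓞 F →+* AddMonoid.End (Pt (WAB A B) Ω)} {mo : Ideal (𝓞 F)}
  {ψ : Ideal (𝓞 F) →*₀ 𝓞 F} {p : ℕ} {V : ValuationSubring Ω} {π : 𝓞 F}

/-- Chunk C5 (M). THE LOCAL LEMMA. PROOF. exists_frm: X (rcases p, V); T₀ from exists_T0. ti_index: TI.relIndex TS ≤ q^e, not 0. rel_map with A = CI, B = CS, A' = TI, B' = TS, g = ach X T₀ (ach_tw; if ach c - ach c' in TI then they agree on the inertia elements of C, ach_inert): CI.relIndex CS ≤ q^e, not 0.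
surj_index with E = EF hG (DN N V) w _ 0, g P = (fun s => s Q - Q), Q chosen with act π Q = P (CMA.surj; Classical.choose): kum_cc, kum_add; m = q^e; hE: for K with K ≤ EF 0 and g P in CI for P in K, K.relIndex (EF 0) ≠ 0: count_filt with A = EF, g i = (p does not divide i + 1), k = the largest integer with k (p-1) < e p
(k = (e p - 1) / (p - 1)), hK by kum_step (V(π) = V(p) = V(w)^e because V(cj π) = 1; hval = the last property in exists_frm); prod_count (the two products agree: if p divides i + 1 then 1 else q).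
ef_index, ef_anti. So for c in CS there is P with c - g P in CI: T with c s = (s Q - Q) + (s T - T) on inertia; the point is Q + T. -/
theorem loc_pi (dta : Dta A B Om j act mo ψ p) (hπ : Prime π) (hd : π ∣ (p : 𝓞 F)) (hs : ¬ π ∣ cj π)
    (hV : V.valuation (ak Ω π) < 1) (N : IntermediateField F Ω) [NumberField N]
    (h0 : ∀ T : Pt (WAB A B) Ω, act (cj π) T = 0 → (∀ s ∈ DN N V, ac (WAB A B) s T = T) → T = 0) {c : (Ω ≃ₐ[F] Ω) → Pt (WAB A B) Ω}
    (hc : Cc (DN N V) act π c) : ∃ P : Pt (WAB A B) Ω, ∀ s ∈ DN N V, Inert V s → c s = ac (WAB A B) s P - P := by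
  classical
  obtain ⟨X, hXp, hXV, hX, hvalI⟩ := exists_frm dta hπ hd hs hV N h0
  subst hXp
  subst hXV
  have hfin : FiniteDimensional F N := Module.Finite.of_restrictScalars_finite ℚ F N
  have hok := hX.ok
  have hD := hX.D
  obtain ⟨T₀, t0, t1, t2, t3⟩ := exists_T0 (Ω := Ω) dta.cma dta.prime dta.unr hπ hd hs
  obtain ⟨hpc, u, v, huv⟩ := tors_split (Ω := Ω) dta.cma dta.prime dta.unr hπ hd hs
  have hb : X.V.valuation (ak Ω (cj π)) = 1 := by
    refine le_antisymm (H55K.ak_le X.V _) (not_lt.1 fun hlt => ?_)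
    have h1 : X.V.valuation (ak Ω (u * π + v * cj π)) < 1 := by
      have e1 : ak Ω (u * π + v * cj π) = ak Ω u * ak Ω π + ak Ω v * ak Ω (cj π) := by
        simp [ak]
      rw [e1]
      refine X.V.valuation.map_add_lt ?_ ?_
      · rw [map_mul]
        exact (mul_le_of_le_one_left' (H55K.ak_le X.V u)).trans_lt hV
      · rw [map_mul]
        exact (mul_le_of_le_one_left' (H55K.ak_le X.V v)).trans_lt hlt
    rw [huv] at h1
    have e2 : ak Ω (1 : 𝓞 F) = 1 := by simp [ak]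
    rw [e2, map_one] at h1
    exact lt_irrefl _ h1
  have hVe : X.V.valuation (ak Ω π) = X.V.valuation X.w ^ X.e := by
    have e3 : (X.p : Ω) = ak Ω π * ak Ω (cj π) := by
      have e4 : ak Ω (π * cj π) = ak Ω π * ak Ω (cj π) := by simp [ak]
      rw [← e4, hpc]
      simp [ak]
    rw [← hok.ep, e3, map_mul, hb, mul_one]
  have hVp : X.V.valuation (X.p : Ω) < 1 := by
    rw [hok.ep, ← hVe]
    exact hV
  have hG : GV A B X.V := dta.good X.V hVp
  have hval : ∀ y : Ω, y ≠ 0 → (∀ s ∈ DN N X.V, s y = y) → ∃ i : ℤ, X.V.valuation y = X.V.valuation X.w ^ i := by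
    intro y hy hys
    exact hok.val y hy fun s hs' => hys s (by rw [← hD]; exact hok.le2 hs')
  obtain ⟨hti0, hti1⟩ := ti_index X hok
  -- the index of CI in CS
  have hrm := rel_map (CI (DN N X.V) X.V act π) (CS (DN N X.V) act π) X.TI X.TS (ach X T₀)
    (fun b hbm => by
      have hb' : Cc X.D act π b := by rw [hD]; exact hbm
      exact ach_tw hX t0 t1 t2 t3 hb')
    (fun b hbm b' hbm' hbb => by
      have h1 : Cc X.D act π b := by rw [hD]; exact hbm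
      have h2 : Cc X.D act π b' := by rw [hD]; exact hbm'
      have h3 := ach_inert dta.cma hX hG hd hb t0 t1 t2 h1 h2 (fun t ht hi => by
        have h4 := hbb.2 t ht hi
        rw [Pi.sub_apply] at h4
        exact sub_eq_zero.1 h4)
      rw [hD] at h3
      exact h3) hti0
  have hch : ∀ P : Pt (WAB A B) Ω, ∃ Q, act π Q = P := dta.cma.surj π hπ.ne_zero
  choose Qf hQf using hch
  have hAB : CI (DN N X.V) X.V act π ≤ CS (DN N X.V) act π := fun b hbm => hbm.1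
  obtain ⟨P, hP, hPc⟩ := surj_index (EF hG (DN N X.V) X.w hok.w1 0) (CI (DN N X.V) X.V act π) (CS (DN N X.V) act π) hAB
    (fun P => fun s => ac (WAB A B) s (Qf P) - Qf P)
    (fun P hP => kum_cc dta.cma (DN N X.V) (Qf P) (fun s hs' => by rw [hQf]; exact hP.2.1 s hs'))
    (fun P hP P' hP' => kum_add dta.cma (DN N X.V) X.V (Qf P) (Qf P') (Qf (P - P'))
      (fun s hs' => by rw [hQf]; exact hP.2.1 s hs') (fun s hs' => by rw [hQf]; exact hP'.2.1 s hs')
      (by rw [hQf, hQf, hQf]))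
    (m := X.q ^ X.e) hrm.1 (hrm.2.trans hti1)
    (fun K hK hK0 => by
      have hep : 0 < X.e * X.p := Nat.mul_pos hok.e0 hok.pr.pos
      have hp1 : 0 < X.p - 1 := by have := hok.odd; omega
      obtain ⟨k, hk⟩ : ∃ k, k = (X.e * X.p - 1) / (X.p - 1) := ⟨_, rfl⟩
      have hk1 : k * (X.p - 1) < X.e * X.p := by
        have h := Nat.div_mul_le_self (X.e * X.p - 1) (X.p - 1)
        rw [← hk] at h
        omega
      have hk2 : X.e * X.p ≤ (k + 1) * (X.p - 1) := by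
        have h := Nat.lt_mul_div_succ (X.e * X.p - 1) hp1
        rw [← hk, Nat.mul_comm (X.p - 1) (k + 1)] at h
        omega
      have hcf := count_filt (fun i => EF hG (DN N X.V) X.w hok.w1 i) (ef_anti hG (DN N X.V) hok.w1) (q := X.q) (by have := hok.q0; omega)
        (fun i => ef_index dta.cma hG hok.w0 hok.w1 hX.wN (by have := hok.q0; omega) (by
          obtain ⟨r, hr1, hr2, hr3⟩ := hX.rs
          exact ⟨r, hr1, hr2, fun x hx hx1 => hr3 x (fun s hs' => hx s (by rw [← hD]; exact hs')) hx1⟩) hval i)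
        K hK0 (fun i => ¬ X.p ∣ i + 1) k (fun i hi hpi x hxK hx => by
          obtain ⟨-, h2⟩ := hK x hxK
          have hie : (i + 1) * (X.p - 1) < X.e * X.p := lt_of_le_of_lt (Nat.mul_le_mul_right _ hi) hk1
          have h3 := kum_step dta hG hπ hd hs hV hok.w0 hok.w1 hVe hvalI hpi hie (Q := Qf x) (by rw [hQf]; exact hx) h2
          rw [hQf] at h3
          exact h3)
      rw [← prod_count (q := X.q) hok.odd hok.e0 hk1 hk2]
      refine le_trans (le_of_eq (Finset.prod_congr rfl fun i _ => ?_)) hcf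
      by_cases hpi : X.p ∣ i + 1
      · rw [if_pos hpi, if_neg (not_not.2 hpi)]
      · rw [if_neg hpi, if_pos hpi])
    c hc
  obtain ⟨-, T, -, hT⟩ := hPc
  refine ⟨Qf P + T, fun s hs' hi => ?_⟩
  have h1 := hT s hs' hi
  rw [Pi.sub_apply] at h1
  rw [map_add, ← sub_add_cancel (c s) (ac (WAB A B) s (Qf P) - Qf P), h1]
  abel

end H19B
end

-- from Lib.H19B.L2
section

/-! # H19B, chunk L2 (M): the local alternative for the short equation -/

open NumberField IsDedekindDomain WeierstrassCurve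

namespace H19B

open H55P (IQ Pt ac Dec Inert decS Nm Coc)
open H35P (WAB Ker tt)
open H55K (Tor CMA Dta GV ak cj)

variable {F : Type} [Field F] [NumberField F] [IQ F] {A B : F} {Om : ℂ} {Ω : Type} [Field Ω] [DecidableEq Ω]
  [Algebra F Ω] [IsAlgClosure F Ω] {j : Ω →+* ℂ} {act : 𝓞 F →+* AddMonoid.End (Pt (WAB A B) Ω)} {mo : Ideal (𝓞 F)}
  {ψ : Ideal (𝓞 F) →*₀ 𝓞 F} {p : ℕ} {V : ValuationSubring Ω} {π : 𝓞 F}

omit [DecidableEq Ω] [IsAlgClosure F Ω] in
theorem l2_unit (hV : V.valuation (ak Ω π) < 1) {u v : 𝓞 F} (huv : u * π + v * cj π = 1) :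
    V.valuation (ak Ω (cj π)) = 1 := by
  refine le_antisymm (H55K.ak_le V _) (not_lt.1 fun hlt => ?_)
  have h1 : (1 : Ω) = ak Ω u * ak Ω π + ak Ω v * ak Ω (cj π) := by
    have h2 : ak Ω (u * π + v * cj π) = 1 := by
      rw [huv]
      simp
    rw [← h2]
    unfold ak
    simp
  have h3 : V.valuation (1 : Ω) < 1 := by
    rw [h1]
    refine V.valuation.map_add_lt ?_ ?_
    · rw [map_mul]
      exact (mul_le_of_le_one_left' (H55K.ak_le V u)).trans_lt hV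
    · rw [map_mul]
      exact (mul_le_of_le_one_left' (H55K.ak_le V v)).trans_lt hlt
  rw [map_one] at h3
  exact lt_irrefl _ h3

/-- Chunk L2 (M). PROOF. Unfold Alt. tors_split: π * cj π = p, u π + v cj π = 1. V(cj π) = 1: V(cj π) ≤ 1 (H55K.ak_le) and if < 1 then V(1) < 1. c1 s = act (v * cj π) (c s): killed by π (act (π * cj π) = act p = p •), a cocycle (CMA.gal), continuous: Cc (DN N V) act π c1; loc_pi gives P1. c2 s = act (u * π) (c s): killed by
cj π, Coc (WAB A B) N c2, and on the inertia elements of K it is the coboundary of act (u * π) P; loc_bar: c2 t = 0 for t in N.fixingSubgroup, Inert V t. c = c1 + c2, and for inert t fixing N, t in DN N V (H55P.inert_dec): c t = t P1 - P1. -/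
theorem alt_wab (dta : Dta A B Om j act mo ψ p) (hπ : Prime π) (hd : π ∣ (p : 𝓞 F)) (hs : ¬ π ∣ cj π)
    (hV : V.valuation (ak Ω π) < 1) (N K : IntermediateField F Ω) [NumberField N]
    (h0 : ∀ T : Pt (WAB A B) Ω, act (cj π) T = 0 → (∀ s ∈ DN N V, ac (WAB A B) s T = T) → T = 0) :
    Alt (WAB A B) p N K V := by
  obtain ⟨hπp, u, v, huv⟩ := tors_split dta.cma dta.prime dta.unr hπ hd hs
  have hb : V.valuation (ak Ω (cj π)) = 1 := l2_unit hV huv
  have hmul : ∀ (a b : 𝓞 F) (P : Pt (WAB A B) Ω), act (a * b) P = act a (act b P) := fun a b P => H55K.S.act_mul a b P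
  have hpP : ∀ P : Pt (WAB A B) Ω, act (p : 𝓞 F) P = p • P := fun P => H55K.S.act_nat p P
  intro hab c hc hpc hK
  obtain ⟨Lc, hLc, hcont⟩ := hc.cont
  have hcc : Cc (DN N V) act π (fun s => act (v * cj π) (c s)) := by
    refine ⟨fun s hs t ht => ?_, fun s hs => ?_, Lc, hLc, fun s hs hsL => ?_⟩
    · show act (v * cj π) (c (s * t)) = act (v * cj π) (c s) + ac (WAB A B) s (act (v * cj π) (c t))
      rw [hc.mul s hs.1 t ht.1, map_add, dta.cma.gal]
    · show act π (act (v * cj π) (c s)) = 0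
      rw [← hmul]
      have e : π * (v * cj π) = v * (p : 𝓞 F) := by
        rw [← hπp]
        ring
      rw [e, hmul, hpP, hpc s hs.1, map_zero]
    · show act (v * cj π) (c s) = 0
      rw [hcont s hs.1 hsL, map_zero]
  obtain ⟨P₁, hP₁⟩ := loc_pi dta hπ hd hs hV N h0 hcc
  obtain ⟨P, hP⟩ := hK
  have hc2 : Coc (WAB A B) N (fun s => act (u * π) (c s)) := by
    refine ⟨fun s hs t ht => ?_, Lc, hLc, fun s hs hsL => ?_⟩
    · show act (u * π) (c (s * t)) = act (u * π) (c s) + ac (WAB A B) s (act (u * π) (c t))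
      rw [hc.mul s hs t ht, map_add, dta.cma.gal]
    · show act (u * π) (c s) = 0
      rw [hcont s hs hsL, map_zero]
  have hz : ∀ t ∈ N.fixingSubgroup, Inert V t → act (u * π) (c t) = 0 := by
    intro t ht hi
    refine loc_bar dta hd hV hb N K hab h0 hc2 (fun s hs => ?_) ⟨act (u * π) P, fun s hs hi => ?_⟩ t ht hi
    · show act (cj π) (act (u * π) (c s)) = 0
      rw [← hmul]
      have e : cj π * (u * π) = u * (p : 𝓞 F) := by
        rw [← hπp]
        ring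
      rw [e, hmul, hpP, hpc s hs, map_zero]
    · show act (u * π) (c s) = _
      rw [hP s hs hi, map_sub, dta.cma.gal]
  refine ⟨P₁, fun s hs hi => ?_⟩
  have h1 : c s = act (u * π) (c s) + act (v * cj π) (c s) := by
    rw [← H55K.S.act_add, huv, H55K.S.act_one]
  rw [h1, hz s hs hi, zero_add]
  exact hP₁ s ⟨hs, H55P.inert_dec V s hi⟩ hi

omit [NumberField F] [IQ F] [IsAlgClosure F Ω] in
/-- Chunk L2 (S). Transport of the alternative under an equivariant isomorphism. -/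
theorem alt_iso {W₁ W₂ : WeierstrassCurve F} (Θ : Pt W₁ Ω ≃+ Pt W₂ Ω)
    (hΘ : ∀ (s : Ω ≃ₐ[F] Ω) (P : Pt W₁ Ω), Θ (ac W₁ s P) = ac W₂ s (Θ P)) {N K : IntermediateField F Ω} (h : Alt W₂ p N K V) :
    Alt W₁ p N K V := by
  intro hab c hc hpc hK
  obtain ⟨Lc, hLc, hcont⟩ := hc.cont
  obtain ⟨P, hP⟩ := hK
  obtain ⟨Q, hQ⟩ := h hab (fun s => Θ (c s)) ⟨fun s hs t ht => by
      show Θ (c (s * t)) = Θ (c s) + ac W₂ s (Θ (c t))
      rw [hc.mul s hs t ht, map_add, hΘ], Lc, hLc, fun s hs hsL => by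
      show Θ (c s) = 0
      rw [hcont s hs hsL, map_zero]⟩ (fun s hs => by
      show p • Θ (c s) = 0
      rw [← map_nsmul, hpc s hs, map_zero]) ⟨Θ P, fun s hs hi => by
      show Θ (c s) = _
      rw [hP s hs hi, map_sub, hΘ]⟩
  refine ⟨Θ.symm Q, fun s hs hi => ?_⟩
  apply Θ.injective
  have h1 := hQ s hs hi
  rw [map_sub, hΘ, Θ.apply_symm_apply]
  exact h1

end H19B
end

-- from Lib.H19B.L8
section

/-! # H19B, chunk L8 (M): the local alternative at the primes above p -/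

open NumberField IsDedekindDomain WeierstrassCurve

namespace H19B

open H55P (IQ Pt ac Dec Inert decS Nm Coc PExt Below)
open H35P (WAB Ker tt)
open H55K (Tor CMA Dta GV ak cj)
open H55K.TQ (BaseH PrimeH)

/-- The prime number p is the product of two different primes of F. -/
def Spl (F : Type) [Field F] [NumberField F] [IQ F] (p : ℕ) : Prop := ∃ π : 𝓞 F, Prime π ∧ π ∣ (p : 𝓞 F) ∧ ¬ π ∣ cj π

open Classical in
/-- Chunk L8 (M). PROOF. V(p) < 1 since p in v. π0 from hsp; π0 * cj π0 = p (tors_split, dta.unr): V(π0) < 1 or V(cj π0) < 1; let π be the one with V(π) < 1 (cj (cj π0) = π0, cj_prime, cj_dvd: the hypotheses are symmetric), V(cj π) = 1. A, B, j, act, dta from SSG.exists_dtaAB hH hp; Θ from short_iso2 (V(2) = V(3) = 1: dta.good).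
alt_iso for Θ and alt_wab: h0 for N: fix_tower (b = cj π) reduces it to M: T in Tor act (cj π) fixed by DN M V: T' = Θ.symm T: p • T' = 0, n • T' in Ker V implies n • T in Ker V (short_iso2), n • T is killed by cj π, so n • T = 0 (H55K.tor_unit, V(cj π) = 1), n • T' = 0; fixed by M.fixingSubgroup ∩ Dec V: fix_etale gives T' = 0.
N is a number field: finite over F (contained in L). -/
theorem alt_w0 {F : Type} [Field F] [NumberField F] [IQ F] {W₀ : WeierstrassCurve (𝓞 F)} {Om : ℂ} {m : Ideal (𝓞 F)}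
    {ψ : Ideal (𝓞 F) →*₀ 𝓞 F} {p : ℕ} (hH : BaseH F W₀ Om m ψ) (hp : PrimeH F W₀ p) (hsp : Spl F p)
    {M L : IntermediateField F (AlgebraicClosure F)} [NumberField M] (hL : PExt p M L) (v : HeightOneSpectrum (𝓞 M))
    (hpv : (p : 𝓞 M) ∈ v.asIdeal) (hΔ : algebraMap (𝓞 F) (𝓞 M) W₀.Δ ∉ v.asIdeal)
    (hc : ¬ p ∣ Nat.card (W₀⁄(𝓞 M ⧸ v.asIdeal)).toAffine.Point) (V : ValuationSubring (AlgebraicClosure F))
    (hV : Below V M v.asIdeal) (N K : IntermediateField F (AlgebraicClosure F)) (hMN : M ≤ N) (hNK : N ≤ K) (hKL : K ≤ L) :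
    Alt (W₀⁄F) p N K V := by
  have hLf : FiniteDimensional F L := hL.fin
  have hNf : FiniteDimensional F N := H55P.finDim_of_le (hNK.trans hKL)
  have hMf : FiniteDimensional F M := H55P.finDim_of_le hL.le
  have hNn : NumberField N := NumberField.of_module_finite F N
  have hcl : IsAlgClosure F (AlgebraicClosure F) := inferInstance
  obtain ⟨A, B, j, act, hA, hB, dta⟩ := SSG.exists_dtaAB hH hp
  have hVp : V.valuation (p : AlgebraicClosure F) < 1 := by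
    have h1 := (hV (p : 𝓞 M)).1 hpv
    have e1 : ((((p : ℕ) : 𝓞 M) : M) : AlgebraicClosure F) = (p : AlgebraicClosure F) := by simp
    rwa [e1] at h1
  have hG : GV A B V := dta.good V hVp
  obtain ⟨π₀, hπ₀, hd₀, hs₀⟩ := hsp
  obtain ⟨hprod, -⟩ := tors_split (Ω := AlgebraicClosure F) dta.cma dta.prime dta.unr hπ₀ hd₀ hs₀
  -- the prime element of value less than one
  obtain ⟨π, hπ, hd, hs, hVπ⟩ : ∃ π : 𝓞 F, Prime π ∧ π ∣ (p : 𝓞 F) ∧ ¬ π ∣ cj π ∧ V.valuation (ak (AlgebraicClosure F) π) < 1 := by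
    by_cases h1 : V.valuation (ak (AlgebraicClosure F) π₀) < 1
    · exact ⟨π₀, hπ₀, hd₀, hs₀, h1⟩
    · refine ⟨cj π₀, H55K.cj_prime hπ₀, ?_, ?_, ?_⟩
      · rw [← hprod]
        exact dvd_mul_left _ _
      · rw [H55K.cj_cj]
        intro h2
        exact hs₀ ((H55K.cj_prime hπ₀).associated_of_dvd hπ₀ h2).symm.dvd
      · by_contra h2
        have h3 : V.valuation (ak (AlgebraicClosure F) π₀) = 1 := le_antisymm (H55K.ak_le V _) (not_lt.1 h1)
        have h4 : V.valuation (ak (AlgebraicClosure F) (cj π₀)) = 1 := le_antisymm (H55K.ak_le V _) (not_lt.1 h2)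
        have e2 : (p : AlgebraicClosure F) = ak (AlgebraicClosure F) π₀ * ak (AlgebraicClosure F) (cj π₀) := by
          have e3 : ak (AlgebraicClosure F) (π₀ * cj π₀) = ak (AlgebraicClosure F) π₀ * ak (AlgebraicClosure F) (cj π₀) := by
            unfold ak
            simp
          rw [← e3, hprod]
          unfold ak
          simp
        rw [e2, map_mul, h3, h4, mul_one] at hVp
        exact lt_irrefl _ hVp
  obtain ⟨hπp, u, v', huv⟩ := tors_split (Ω := AlgebraicClosure F) dta.cma dta.prime dta.unr hπ hd hs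
  have hb : V.valuation (ak (AlgebraicClosure F) (cj π)) = 1 := l2_unit hVπ huv
  obtain ⟨Θ, hΘ, hΘK⟩ := short_iso2 (Ω := AlgebraicClosure F) W₀ hA hB hH.data.ell V hG.two hG.three
  refine alt_iso Θ hΘ (alt_wab dta hπ hd hs hVπ N K ?_)
  intro T hT hf
  refine fix_tower dta.cma dta.prime (H55K.cj_prime hπ).ne_zero ?_ hL (hNK.trans hKL) V (fun T hT hf => ?_) T hT hf
  · rw [← hπp]
    exact dvd_mul_left _ _
  -- no fixed points over M
  have hpT : p • T = 0 := by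
    rw [← H55K.S.act_nat (act := act), ← hπp, H55K.S.act_mul, hT, map_zero]
  obtain ⟨T', rfl⟩ := Θ.surjective T
  have h1 : T' = 0 := by
    refine fix_etale W₀ p hp.prime M V v hV hΔ hc T' ?_ (fun n hn => ?_) (fun s hs hd => ?_)
    · apply Θ.injective
      rw [map_nsmul, map_zero]
      exact hpT
    · rw [← hΘK, map_nsmul] at hn
      apply Θ.injective
      rw [map_nsmul, map_zero]
      refine H55K.tor_unit dta.cma hG hb ?_ hn
      show act (cj π) (n • Θ T') = 0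
      rw [map_nsmul, hT, smul_zero]
    · apply Θ.injective
      rw [hΘ]
      exact hf s ⟨hs, hd⟩
  rw [h1, map_zero]

end H19B
end

-- from Lib.H35M.SN2
section

/-! # H35M, part S: the place and the auxiliary ideal for the curve W₀ -/

open NumberField IsDedekindDomain WeierstrassCurve

namespace H35M

open H55N H55P
open H55K.TQ (BaseH PrimeH)
open H19B (Spl)
open H55K (cj)

variable {F : Type} [Field F] [NumberField F] [IQ F] {W₀ : WeierstrassCurve (𝓞 F)} {Om : ℂ} {m : Ideal (𝓞 F)} {ψ : Ideal (𝓞 F) →*₀ 𝓞 F} {p : ℕ}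

theorem sn2_le (V : ValuationSubring ℂ) (x : 𝓞 F) : V.valuation (eF F x) ≤ 1 := H41D.val_eF V x

theorem sn2_mk {V : ValuationSubring ℂ} (hp : p.Prime) {π : 𝓞 F} (hπ : Prime π) (hprod : π * cj π = (p : 𝓞 F)) (hco : IsCoprime π (cj π))
    (hlt : V.valuation (eF F π) < 1) : Plc F V π (cj π) p ∧ Plc F (V.comap (starRingEnd ℂ)) (cj π) π p := by
  have h1 : V.valuation (eF F (cj π)) = 1 := by
    refine le_antisymm (sn2_le V _) ?_
    by_contra hlt'
    push Not at hlt'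
    obtain ⟨a, b, hab⟩ := hco
    have h2 : V.valuation (eF F (a * π + b * cj π)) < 1 := by
      rw [map_add, map_mul, map_mul]
      refine lt_of_le_of_lt (V.valuation.map_add _ _) (max_lt ?_ ?_)
      · rw [map_mul, mul_comm]
        exact mul_lt_one_of_lt_of_le hlt (sn2_le V a)
      · rw [map_mul, mul_comm]
        exact mul_lt_one_of_lt_of_le hlt' (sn2_le V b)
    rw [hab, map_one, map_one] at h2
    exact lt_irrefl _ h2
  refine ⟨⟨hp, hπ, (H55K.cj_prime hπ).not_unit, hprod, hco, hlt, h1⟩,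
    ⟨hp, H55K.cj_prime hπ, hπ.not_unit, by rw [mul_comm]; exact hprod, hco.symm, ?_, ?_⟩⟩
  · show (H41D.cV V).valuation (eF F (cj π)) < 1
    rw [H41D.cV_lt_one, H55K.e_cj, Complex.conj_conj]
    exact hlt
  · show (H41D.cV V).valuation (eF F π) = 1
    rw [H41D.cV_eq_one, ← H55K.e_cj]
    exact h1

/-- The place: π below V. -/
theorem exists_plc (hp : PrimeH F W₀ p) (hsp : Spl F p) (V : ValuationSubring ℂ) (hV : V.valuation (p : ℂ) < 1) :
    ∃ π π' : 𝓞 F, Plc F V π π' p ∧ Plc F (V.comap (starRingEnd ℂ)) π' π p := by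
  obtain ⟨π, hπ, hd, hs⟩ := hsp
  have hprod : π * cj π = (p : 𝓞 F) := (H19B.f3_split hp.prime ((H55K.TQ.unr_iff hp.prime).1 hp.unr) hπ hd hs).2
  have hco : IsCoprime π (cj π) := (hπ.irreducible.coprime_iff_not_dvd).2 hs
  by_cases h1 : V.valuation (eF F π) < 1
  · exact ⟨π, cj π, sn2_mk hp.prime hπ hprod hco h1⟩
  · have h2 : V.valuation (eF F π) = 1 := le_antisymm (sn2_le V _) (not_lt.1 h1)
    have h3 : V.valuation (eF F (cj π)) < 1 := by
      have e : (p : ℂ) = eF F π * eF F (cj π) := by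
        rw [← map_mul, hprod, map_natCast]
      rw [e, map_mul, h2, one_mul] at hV
      exact hV
    have h4 := sn2_mk (V := V) hp.prime (H55K.cj_prime hπ) (by rw [H55K.cj_cj, mul_comm]; exact hprod) (by rw [H55K.cj_cj]; exact hco.symm) h3
    rw [H55K.cj_cj] at h4
    exact ⟨cj π, π, h4⟩

open Classical in
/-- No p-torsion of W₀ over M. -/
def NoTor (p : ℕ) (W₀ : WeierstrassCurve (𝓞 F)) (M : IntermediateField F (AlgebraicClosure F)) : Prop :=
  ∀ T : Pt (W₀⁄F) (AlgebraicClosure F), p • T = 0 → (∀ s ∈ M.fixingSubgroup, ac (W₀⁄F) s T = T) → T = 0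

theorem ntp_base (hH : BaseH F W₀ Om m ψ) (hp : PrimeH F W₀ p) {V : ValuationSubring ℂ} {π π' : 𝓞 F} (hP : Plc F V π π' p)
    (M : IntermediateField F (AlgebraicClosure F)) [NumberField M] (hT : NoTor p W₀ M) : NTP M p m ψ V := by
  classical
  obtain ⟨A, B, j, act, hA, hB, d⟩ := SSG.exists_dtaAB (p := p) hH hp
  obtain ⟨Θ, hΘ⟩ := SSG.short_iso W₀ hA hB hH.data.ell (Ω := AlgebraicClosure F)
  refine ntp_of_tor d hP M fun T hT0 hTf => ?_
  have h1 : Θ.symm T = 0 := by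
    refine hT _ ?_ fun s hs => ?_
    · rw [← map_nsmul, hT0, map_zero]
    · apply Θ.injective
      have h2 := hΘ s (Θ.symm T)
      rw [Θ.apply_symm_apply, hTf s hs] at h2
      rw [Θ.apply_symm_apply]
      exact h2
  rw [← Θ.apply_symm_apply T, h1, map_zero]

end H35M
end

-- from Lib.H35M.TS8
section

/-! # H35M, chunk TS8 (M): the continuation of the twisted series beyond Re s = 3/2 -/

open NumberField IsDedekindDomain

namespace H35M

open H55N H55P SSG.E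

variable {F : Type} [Field F] [NumberField F] [IQ F] {K : Type} [Field K] [NumberField K] [Algebra F K]

theorem ts8_cop {f : Ideal (𝓞 K)} {x y : 𝓞 K} (h : x - y ∈ f) (hx : IsCoprime (Ideal.span {x}) f) : IsCoprime (Ideal.span {y}) f := by
  rw [Ideal.isCoprime_iff_sup_eq] at hx ⊢
  rw [← top_le_iff, ← hx]
  refine sup_le ?_ le_sup_right
  rw [Ideal.span_singleton_le_iff_mem]
  have h1 : x = y + (x - y) := by ring
  rw [h1]
  exact Ideal.add_mem _ (Ideal.mem_sup_left (Ideal.mem_span_singleton_self _)) (Ideal.mem_sup_right h)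

theorem ts8_per {p : ℕ} {f : Ideal (𝓞 K)} {χ : Ideal (𝓞 K) →*₀ ℂ} (hχ : PCh p f χ) {x y : 𝓞 K} (hx : x ≠ 0) (hy : y ≠ 0) (h : x - y ∈ f) :
    χ (Ideal.span {x}) = χ (Ideal.span {y}) := by
  by_cases hc : IsCoprime (Ideal.span {x}) f
  · exact hχ.per x y hx hy hc h
  · have hc2 : ¬ IsCoprime (Ideal.span {y}) f := by
      intro h2
      apply hc
      have h3 : y - x ∈ f := by
        rw [← neg_sub]
        exact f.neg_mem h
      exact ts8_cop h3 h2
    rw [hχ.zero _ hc, hχ.zero _ hc2]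

theorem ts8_norm {p : ℕ} (hp : p ≠ 0) {f : Ideal (𝓞 K)} {χ : Ideal (𝓞 K) →*₀ ℂ} (hχ : PCh p f χ) (a : Ideal (𝓞 K)) : ‖χ a‖ ≤ 1 := by
  by_cases h0 : a = ⊥
  · rw [h0]
    have h1 : χ ⊥ = 0 := map_zero χ
    rw [h1, norm_zero]
    exact zero_le_one
  · by_cases hc : IsCoprime a f
    · have h1 := congrArg norm (hχ.val a h0 hc)
      rw [norm_pow, NormOneClass.norm_one] at h1
      exact le_of_eq ((pow_eq_one_iff_of_nonneg (norm_nonneg _) hp).1 h1)
    · rw [hχ.zero a hc, norm_zero]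
      exact zero_le_one

/-- Chunk TS8 (M). PORT of s3_cont (Lib/SSG/S/S3.lean) with a general modulus f (f ≠ ⊥, not prime to p; nopoles does not require it) and a general character χ in place of chN: J = mK K M * f, g = span {p} * J (so that the b i are coprime to p and to f), κ from
k1_kappa (J b i ≤ mK ⊤ b i), χ(b i) ≠ 0 (b i coprime to f: χ(b i)^p = 1), for x in XS (J b i) (c₀ i) and d b i = (x): x - c₀ i in f, both x and c₀ i coprime to f (hcd.prim), nonzero, so χ (span {x}) = χ (span {c₀ i}) (PCh.per); the norm bound |χ| ≤ 1. -/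
theorem tw_cont {p : ℕ} (hp : p.Prime) {M : Ideal (𝓞 F)} {ψ : Ideal (𝓞 F) →*₀ 𝓞 F} (h : IsHecke M ψ)
    (hMp : IsCoprime M (Ideal.span {(p : 𝓞 F)})) {m : ℕ} (hm : Module.finrank F K = m + 1) (f : Ideal (𝓞 K)) (χ : Ideal (𝓞 K) →*₀ ℂ)
    (hχ : PCh p f χ) :
    ∃ Z0 : ℂ → ℂ, AnalyticOnNhd ℂ Z0 {s | 3 / 2 - 1 / (2 * (m + 1 : ℝ)) < s.re} ∧
      ∀ s : ℂ, 3 / 2 < s.re → HasSum (tm (PsiP K ψ * χ : Ideal (𝓞 K) →*₀ ℂ) s) (Z0 s) := by
  classical
  obtain ⟨l, hl⟩ := h.toMod p hMp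
  obtain ⟨w0, hw0l, hw0M⟩ := pt9_prime K hl
  have hpne : (p : 𝓞 K) ≠ 0 := by
    rw [Ne, Nat.cast_eq_zero]
    exact hp.ne_zero
  have hf0 : f ≠ ⊥ := hχ.ne
  have hJM : mK K M * f ≤ mK K M := Ideal.mul_le_left
  have hJ0 : mK K M * f ≠ ⊥ := mul_ne_zero (pt9_mK_ne h.ne) hf0
  have hJ1 : mK K M * f ≠ ⊤ := by
    intro h1
    apply w0.isPrime.ne_top
    rw [← top_le_iff, ← h1]
    exact hJM.trans hw0M
  have hg0 : Ideal.span {(p : 𝓞 K)} * (mK K M * f) ≠ ⊥ := by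
    refine mul_ne_zero ?_ hJ0
    have h1 : Ideal.span {(p : 𝓞 K)} ≠ ⊥ := by
      rw [Ne, Ideal.span_singleton_eq_bot]
      exact hpne
    exact h1
  have hgJ : Ideal.span {(p : 𝓞 K)} * (mK K M * f) ≤ mK K M * f := Ideal.mul_le_right
  obtain ⟨ι, hι, b, c₀, T, hcd⟩ := exists_CDJ (mK K M * f) (Ideal.span {(p : 𝓞 K)} * (mK K M * f))
    hJ0 hg0 hgJ hJ1
  have hbp : ∀ i, IsCoprime (b i) (Ideal.span {(p : 𝓞 K)}) := fun i =>
    (hcd.cop i).of_mul_right_left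
  have hlam : ∀ i, c₀ i ∉ Ideal.span {algebraMap (𝓞 F) (𝓞 K) l} * b i := by
    intro i hi
    refine hcd.prim i w0 (hJM.trans hw0M) (Ideal.mul_mono_left ?_ hi)
    rw [Ideal.span_singleton_le_iff_mem]
    exact hw0l
  have hc0 : ∀ i, c₀ i ≠ 0 := by
    intro i h0
    apply hlam i
    rw [h0]
    exact Submodule.zero_mem _
  have hnop := fun i => nopoles p hp hl K m hm (b i) f (hcd.ne i) hf0 (c₀ i) (hcd.mem i) (hlam i)
  choose Z0 hZ0 hZ0s using hnop
  have hMtop : (mK K M * ⊤ : Ideal (𝓞 K)) = mK K M := Ideal.mul_top _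
  have hkap := fun i => SSG.S.k1_kappa p hp h hMp (b i) (hcd.ne i)
    (by
      rw [hMtop]
      exact IsCoprime.mul_right (hbp i) (hcd.cop i).of_mul_right_right.of_mul_right_left) (c₀ i) (hcd.mem i)
    (fun w hw => hcd.prim i w (hJM.trans (by rw [hMtop] at hw; exact hw)))
  choose κ _ _ hκ using hkap
  have hbne : ∀ i, χ (b i) ≠ 0 := by
    intro i h0
    have h1 := hχ.val (b i) (hcd.ne i) (hcd.cop i).of_mul_right_right.of_mul_right_right
    rw [h0, zero_pow hp.ne_zero] at h1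
    exact zero_ne_one h1
  have hC : CoefP F (mK K M * f) ι b c₀ (PsiP K ψ * χ)
      (fun i => κ i * (χ (Ideal.span {c₀ i}) * (χ (b i))⁻¹)) := by
    refine coef_mulP h (fun a ha => hχ.zero a ha) (fun a => ts8_norm hp.ne_zero hχ a) ?_
    intro i x hx a ha
    have hx' : x ∈ XS (mK K M * ⊤ * b i) (c₀ i) := by
      have h1 : mK K M * f * b i ≤ mK K M * ⊤ * b i := Ideal.mul_mono_left (Ideal.mul_mono_right le_top)
      exact h1 hx
    obtain ⟨hx0, hpsi⟩ := hκ i x hx' a ha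
    refine ⟨hx0, ?_⟩
    have hxf : x - c₀ i ∈ f := by
      have h1 : mK K M * f * b i ≤ f := Ideal.mul_le_left.trans Ideal.mul_le_right
      exact h1 hx
    have h2 : χ a * χ (b i) = χ (Ideal.span {c₀ i}) := by
      rw [← map_mul, ha]
      exact ts8_per hχ hx0 (hc0 i) hxf
    show PsiP K ψ a * χ a = _
    rw [hpsi, ← h2, mul_inv_cancel_right₀ (hbne i)]
    ring
  have hNb : ∀ i, Ideal.absNorm (b i) ≠ 0 := fun i => by
    rw [Ne, Ideal.absNorm_eq_zero_iff]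
    exact hcd.ne i
  refine ⟨fun s : ℂ => ∑ i, (κ i * (χ (Ideal.span {c₀ i}) * (χ (b i))⁻¹)) *
    (Ideal.absNorm (b i) : ℂ) ^ s * Z0 i s, ?_, fun s hs' => ?_⟩
  · intro s hs'
    exact Finset.analyticAt_fun_sum _ fun i _ =>
      (analyticAt_const.mul (pt3_pow_analytic _ (hNb i) Set.univ s trivial)).mul (hZ0 i s hs')
  · exact series_eq0P hgJ hJ1 hcd hC Z0 s fun i => hZ0s i (T i) (hcd.trans i) s hs'

end H35M
end

-- from Lib.H35M.TS11
section

/-! # H35M, chunk TS11 (M): the twisted L-value is integral -/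

open NumberField IsDedekindDomain

namespace H35M

open H55N H55P SSG.E

variable {F : Type} [Field F] [NumberField F] [IQ F] {K : Type} [Field K] [NumberField K] [Algebra F K] {m : ℕ}
  {V : ValuationSubring ℂ} {π π' : 𝓞 F} {p : ℕ} {De : ℂ} {T1 : Finset (HeightOneSpectrum (𝓞 K))} {a : HeightOneSpectrum (𝓞 K) → ℕ} {f2 f3 : Ideal (𝓞 K)}
  {χ : Ideal (𝓞 K) →*₀ ℂ} {χ1 : MulChar (𝓞 K ⧸ fT T1 a) ℂ} {χ2 : MulChar (𝓞 K ⧸ f2) ℂ} {χ3 : MulChar (𝓞 K ⧸ f3) ℂ}
  {ψa : AddChar (𝓞 K ⧸ fT T1 a) ℂ}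

omit [NumberField K] [Algebra F K] in
theorem ts11_lt (hP : Plc F V π π' p) : V.valuation (p : ℂ) < 1 := by
  have h1 : (p : ℂ) = eF F π * eF F π' := by
    rw [← map_mul, hP.mul, map_natCast]
  rw [h1, map_mul, hP.one, mul_one]
  exact hP.lt

/-- Chunk TS11a (S/M). The smoothing factors: χ(c) ^ p = 1 or χ(c) = 0 (PCh), so ‖χ c‖ = 1 or 0 and V(χ c - 1) < 1 (root_max): s4_ne, s4_unit (SSG/S/S4). -/
theorem smo_fac (hP : Plc F V π π' p) {M : Ideal (𝓞 F)} {ψ : Ideal (𝓞 F) →*₀ 𝓞 F} (h : IsHecke M ψ) {f : Ideal (𝓞 K)} (hχ : PCh p f χ)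
    {c : Fin (m + 1) × Fin 2 → Ideal (𝓞 K)} {q : Fin (m + 1) × Fin 2 → ℕ} (hs : Smooth c q) (hu : ∀ j, V.valuation (1 - PsiP K ψ (c j)) = 1) :
    (∀ s : ℂ, s.re < 3 / 2 → ∏ j, (1 - (q j : ℂ) * tm (PsiP K ψ * χ : Ideal (𝓞 K) →*₀ ℂ) s (c j)) ≠ 0) ∧
      V.valuation (∏ j, (1 - (q j : ℂ) * tm (PsiP K ψ * χ : Ideal (𝓞 K) →*₀ ℂ) 1 (c j))) = 1 := by
  have hV := ts11_lt hP
  constructor
  · intro s hs'
    refine Finset.prod_ne_zero_iff.2 fun j _ => SSG.S.s4_ne h χ (c j) (q j) (hs.prime j) (hs.norm j) ?_ s hs'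
    by_cases hj : IsCoprime (c j) f
    · left
      have h1 := hχ.val _ (pt3_ne hs j) hj
      refine (pow_eq_one_iff_of_nonneg (norm_nonneg _) hP.prime.ne_zero).1 ?_
      rw [← norm_pow, h1, NormOneClass.norm_one]
    · exact Or.inr (hχ.zero _ hj)
  · rw [map_prod]
    refine Finset.prod_eq_one fun j _ => SSG.S.s4_unit V ψ χ (c j) (q j) (hs.prime j) (hs.norm j) (hu j) ?_
    by_cases hj : IsCoprime (c j) f
    · exact Or.inl (root_max p hP.prime V hV _ (hχ.val _ (pt3_ne hs j) hj))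
    · exact Or.inr (hχ.zero _ hj)

/-- The product of the smoothing factors is analytic. -/
theorem ts11_an {c : Fin (m + 1) × Fin 2 → Ideal (𝓞 K)} {q : Fin (m + 1) × Fin 2 → ℕ} (hs : Smooth c q)
    (h : Ideal (𝓞 K) →*₀ ℂ) :
    AnalyticOnNhd ℂ (fun s : ℂ => ∏ j, (1 - (q j : ℂ) * tm h s (c j))) {s | 1 / 2 < s.re} := by
  intro s hs'
  exact Finset.analyticAt_fun_prod _ fun j _ =>
    (analyticAt_const.sub (analyticAt_const.mul
      (pt3_tm_analytic h (c j) (pt3_ne hs j) Set.univ s trivial)))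

/-- Chunk TS11 (M). PROOF. tw_core: c, q, G. tw_cont (TS8): Z0. glue (H55N/TW1) with δ = 1/(2(m+1)), P s = the product of the smoothing factors (analytic: pt3_tm_analytic; nonzero for Re s < 3/2: TS11a), as in LVP_twist (T9): Λ analytic, Λ = Z0 for Re s > 3/2,
G = P Λ for Re s > 1/2. Λ 1 = G 1 / P 1, V(P 1) = 1, so V(De τ Λ 1) = V(De τ G 1) <= 1. -/
theorem tw_int (hP : Plc F V π π' p) {M : Ideal (𝓞 F)} {ψ : Ideal (𝓞 F) →*₀ 𝓞 F} (h : IsHecke M ψ)
    (hMp : IsCoprime M (Ideal.span {(p : 𝓞 F)})) (hm : Module.finrank F K = m + 1) (hNT : NTP K p M ψ V)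
    (hCV : ∀ l, Mod p M l → CVH F K m V π π' p De M l) (hD : ChD F π π' p T1 a f2 f3 χ χ1 χ2 χ3 ψa) [Fintype (𝓞 K ⧸ fT T1 a)] :
    LVi V (De * gaussSum χ1⁻¹ ψa) (PsiP K ψ * χ : Ideal (𝓞 K) →*₀ ℂ) := by
  obtain ⟨c, q, G, GC, hs, -, hun, hGa, -, e1, -, v1, -⟩ := tw_core hP h hMp hm hNT hCV hD
  obtain ⟨Z0, hZ0a, e3⟩ := tw_cont hP.prime h hMp hm (fT T1 a * f2 * f3) χ hD.pch
  obtain ⟨hP0, hP1⟩ := smo_fac hP h hD.pch hs hun
  obtain ⟨Λ, hΛa, hΛ, hΛG⟩ := glue (1 / (2 * (m + 1 : ℝ))) (by positivity) G Z0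
    (fun s : ℂ => ∏ j, (1 - (q j : ℂ) * tm (PsiP K ψ * χ : Ideal (𝓞 K) →*₀ ℂ) s (c j)))
    hGa hZ0a (ts11_an hs _) hP0
    (fun s hs' => by
      show _ = _ * _
      rw [← e1 s hs', (e3 s hs').tsum_eq])
  refine ⟨Λ, hΛa, fun s hs' => ?_, ?_⟩
  · rw [hΛ s hs']
    exact e3 s hs'
  · have h1re : (1 / 2 : ℝ) < (1 : ℂ).re := by norm_num
    have e5 : G 1 = (∏ j, (1 - (q j : ℂ) * tm (PsiP K ψ * χ : Ideal (𝓞 K) →*₀ ℂ) 1 (c j))) * Λ 1 := hΛG 1 h1re
    rw [e5] at v1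
    have e6 : De * (gaussSum χ1⁻¹ ψa * ((∏ j, (1 - (q j : ℂ) * tm (PsiP K ψ * χ : Ideal (𝓞 K) →*₀ ℂ) 1 (c j))) * Λ 1)) =
        (∏ j, (1 - (q j : ℂ) * tm (PsiP K ψ * χ : Ideal (𝓞 K) →*₀ ℂ) 1 (c j))) * (De * gaussSum χ1⁻¹ ψa * Λ 1) := by ring
    rwa [e6, map_mul, hP1, one_mul] at v1

end H35M
end

-- from Lib.H35M.TS12
section

/-! # H35M, chunk TS12 (M): the congruence between the twisted and the untwisted L-value -/

open NumberField IsDedekindDomain

namespace H35M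

open H55N H55P SSG.E

variable {F : Type} [Field F] [NumberField F] [IQ F] {K : Type} [Field K] [NumberField K] [Algebra F K] {m : ℕ}
  {V : ValuationSubring ℂ} {π π' : 𝓞 F} {p : ℕ} {De : ℂ} {T1 : Finset (HeightOneSpectrum (𝓞 K))} {a : HeightOneSpectrum (𝓞 K) → ℕ} {f2 f3 : Ideal (𝓞 K)}
  {χ : Ideal (𝓞 K) →*₀ ℂ} {χ1 : MulChar (𝓞 K ⧸ fT T1 a) ℂ} {χ2 : MulChar (𝓞 K ⧸ f2) ℂ} {χ3 : MulChar (𝓞 K ⧸ f3) ℂ}
  {ψa : AddChar (𝓞 K ⧸ fT T1 a) ℂ}

omit [NumberField F] [IQ F] [Algebra F K] in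
theorem ts12_fS (T S : Finset (HeightOneSpectrum (𝓞 K))) (a : HeightOneSpectrum (𝓞 K) → ℕ) : fS T S a ≠ ⊥ := by
  unfold fS
  rw [← Ideal.zero_eq_bot]
  exact Finset.prod_ne_zero_iff.2 fun v _ => pow_ne_zero _ v.ne_bot

omit [NumberField F] [IQ F] [Algebra F K] in
theorem ts12_ne {f1 f2 f3 : Ideal (𝓞 K)} (h : f1 * f2 * f3 ≠ ⊥) : f1 ≠ ⊥ ∧ f2 * f3 ≠ ⊥ := by
  rw [mul_assoc] at h
  exact ⟨left_ne_zero_of_mul h, right_ne_zero_of_mul h⟩

omit [NumberField F] [IQ F] [Algebra F K] in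
theorem ts12_one {f b : Ideal (𝓞 K)} (hb : b ≠ ⊥) (h : IsCoprime b f) : oneI f b = 1 := by
  classical
  exact if_pos ⟨hb, h⟩

omit [NumberField F] [IQ F] [Algebra F K] in
theorem ts12_pch (p : ℕ) {f : Ideal (𝓞 K)} (hf : f ≠ ⊥) : PCh p f (oneI f) where
  ne := hf
  val b hb h := by rw [ts12_one hb h, one_pow]
  zero b h := pt3_oneI_zero f b h
  per x y hx hy hxf hxy := by
    have h1 : Ideal.span {x} ≠ ⊥ := by
      rw [Ne, Ideal.span_singleton_eq_bot]
      exact hx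
    have h2 : Ideal.span {y} ≠ ⊥ := by
      rw [Ne, Ideal.span_singleton_eq_bot]
      exact hy
    have h3 : IsCoprime (Ideal.span {y}) f := by
      rw [Ideal.isCoprime_iff_sup_eq] at hxf ⊢
      rw [← top_le_iff, ← hxf]
      refine sup_le ?_ le_sup_right
      rw [Ideal.span_singleton_le_iff_mem]
      have e1 : x = y + (x - y) := by ring
      rw [e1]
      exact Ideal.add_mem _ (Ideal.mem_sup_left (Ideal.mem_span_singleton_self y)) (Ideal.mem_sup_right hxy)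
    rw [ts12_one h1 hxf, ts12_one h2 h3]

/-- Chunk TS12 (M). PROOF. tw_core. G = P Λχ on Re s > 1/2 (ident, H55N/TW1: both analytic, equal for Re s > 3/2: tsum = Λχ). GC = (sum over S)(s) * (P' (s) * prod over S' of (1 - tm Ψ s w) * ΛK s) on Re s > 1/2 (ident; one_sumP of H55P/T6 for
f2 f3 gives S' and the sum of the series of PsiP * oneI (f2 f3); its S' has the same elements as S: Finset.ext). At s = 1: the sum over S is E1 (e1_term, TS7). u1 = P 1, u2 = P' 1 (units: smo_fac for χ and for oneI (f2 f3): PCh p (f2 * f3) (oneI (f2 * f3)):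
values 0 or 1). -/
theorem tw_cmp (hP : Plc F V π π' p) {M : Ideal (𝓞 F)} {ψ : Ideal (𝓞 F) →*₀ 𝓞 F} (h : IsHecke M ψ)
    (hMp : IsCoprime M (Ideal.span {(p : 𝓞 F)})) (hm : Module.finrank F K = m + 1) (hNT : NTP K p M ψ V)
    (hCV : ∀ l, Mod p M l → CVH F K m V π π' p De M l) (hD : ChD F π π' p T1 a f2 f3 χ χ1 χ2 χ3 ψa) [Fintype (𝓞 K ⧸ fT T1 a)]
    (S : Finset (HeightOneSpectrum (𝓞 K))) (hS : ∀ w, w ∈ S ↔ f2 * f3 ≤ w.asIdeal) (Λχ ΛK : ℂ → ℂ)
    (h1 : AnalyticOnNhd ℂ Λχ {s | 1 / 2 < s.re}) (h2 : ∀ s : ℂ, 3 / 2 < s.re → HasSum (tm (PsiP K ψ * χ : Ideal (𝓞 K) →*₀ ℂ) s) (Λχ s))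
    (h3 : AnalyticOnNhd ℂ ΛK {s | 1 / 2 < s.re}) (h4 : ∀ s : ℂ, 3 / 2 < s.re → HasSum (tm (PsiP K ψ) s) (ΛK s)) :
    ∃ u1 u2 : ℂ, V.valuation u1 = 1 ∧ V.valuation u2 = 1 ∧
      V.valuation (u1 * (De * gaussSum χ1⁻¹ ψa * Λχ 1) -
        u2 * ((E1 ψ T1 a * ∏ w ∈ S, (1 - tm (PsiP K ψ) 1 w.asIdeal)) * (De * ΛK 1))) < 1 := by
  classical
  obtain ⟨c, q, G, GC, hs, -, hun, hGa, hGCa, e1, e2, -, v2⟩ := tw_core hP h hMp hm hNT hCV hD
  obtain ⟨hf1, hf23⟩ := ts12_ne hD.pch.ne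
  have hpO : PCh p (f2 * f3) (oneI (f2 * f3)) := ts12_pch p hf23
  obtain ⟨-, hP1⟩ := smo_fac hP h hD.pch hs hun
  obtain ⟨-, hP2⟩ := smo_fac hP h hpO hs hun
  have h1re : (1 / 2 : ℝ) < (1 : ℂ).re := by norm_num
  have hG : G 1 = (∏ j, (1 - (q j : ℂ) * tm (PsiP K ψ * χ : Ideal (𝓞 K) →*₀ ℂ) 1 (c j))) * Λχ 1 := by
    refine ident G (fun s : ℂ => (∏ j, (1 - (q j : ℂ) * tm (PsiP K ψ * χ : Ideal (𝓞 K) →*₀ ℂ) s (c j))) * Λχ s)
      hGa ((ts11_an hs _).mul h1) ?_ 1 h1re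
    intro z hz
    show _ = _ * _
    rw [← e1 z hz, (h2 z hz).tsum_eq]
  obtain ⟨S', hS', hSs⟩ := one_sumP h (f2 * f3) hf23
  have hSS : S' = S := by
    ext w
    rw [hS', hS]
  subst hSS
  have hGC : GC 1 = (∑ S ∈ T1.powerset, (-1) ^ S.card * (Ideal.absNorm (fS T1 S a) : ℂ) *
          tm (PsiP K ψ * oneI (f2 * f3) : Ideal (𝓞 K) →*₀ ℂ) 1 (fS T1 S a)) *
        ((∏ j, (1 - (q j : ℂ) * tm (PsiP K ψ * oneI (f2 * f3) : Ideal (𝓞 K) →*₀ ℂ) 1 (c j))) *
          ((∏ w ∈ S', (1 - tm (PsiP K ψ) 1 w.asIdeal)) * ΛK 1)) := by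
    refine ident GC (fun s : ℂ => (∑ S ∈ T1.powerset, (-1) ^ S.card * (Ideal.absNorm (fS T1 S a) : ℂ) *
          tm (PsiP K ψ * oneI (f2 * f3) : Ideal (𝓞 K) →*₀ ℂ) s (fS T1 S a)) *
        ((∏ j, (1 - (q j : ℂ) * tm (PsiP K ψ * oneI (f2 * f3) : Ideal (𝓞 K) →*₀ ℂ) s (c j))) *
          ((∏ w ∈ S', (1 - tm (PsiP K ψ) s w.asIdeal)) * ΛK s))) hGCa ?_ ?_ 1 h1re
    · refine AnalyticOnNhd.mul ?_ ((ts11_an hs _).mul (AnalyticOnNhd.mul ?_ h3))
      · intro z hz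
        exact Finset.analyticAt_fun_sum _ fun S _ => (analyticAt_const.mul
          (pt3_tm_analytic (PsiP K ψ * oneI (f2 * f3) : Ideal (𝓞 K) →*₀ ℂ) (fS T1 S a) (ts12_fS T1 S a) Set.univ z trivial))
      · intro z hz
        exact Finset.analyticAt_fun_prod _ fun w _ =>
          (analyticAt_const.sub (pt3_tm_analytic (PsiP K ψ) w.asIdeal w.ne_bot Set.univ z trivial))
    · intro z hz
      show _ = _ * (_ * (_ * _))
      rw [← e2 z hz, (hSs z hz).tsum_eq, (h4 z hz).tsum_eq]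
  have hE : (∑ S ∈ T1.powerset, (-1) ^ S.card * (Ideal.absNorm (fS T1 S a) : ℂ) *
          tm (PsiP K ψ * oneI (f2 * f3) : Ideal (𝓞 K) →*₀ ℂ) 1 (fS T1 S a)) = E1 ψ T1 a := by
    refine Finset.sum_congr rfl fun S hS1 => ?_
    rw [mul_assoc, e1_term hP hD.pi1 hD.pos hD.pi2 hD.cop3 ψ S (Finset.mem_powerset.1 hS1)]
  rw [hE] at hGC
  refine ⟨_, _, hP1, hP2, ?_⟩
  rw [hG, hGC] at v2
  refine lt_of_eq_of_lt (congrArg V.valuation ?_) v2
  ring

end H35M
end

-- from Lib.H35M.TS13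
section

/-! # H35M, chunk TS13 (M): the untwisted L-value is integral; the criterion for the twisted value -/

open NumberField IsDedekindDomain

namespace H35M

open H55N H55P SSG.E

variable {F : Type} [Field F] [NumberField F] [IQ F] {K : Type} [Field K] [NumberField K] [Algebra F K] {m : ℕ}
  {V : ValuationSubring ℂ} {π π' : 𝓞 F} {p : ℕ} {De : ℂ} {T1 : Finset (HeightOneSpectrum (𝓞 K))} {a : HeightOneSpectrum (𝓞 K) → ℕ} {f2 f3 : Ideal (𝓞 K)}
  {χ : Ideal (𝓞 K) →*₀ ℂ} {χ1 : MulChar (𝓞 K ⧸ fT T1 a) ℂ} {χ2 : MulChar (𝓞 K ⧸ f2) ℂ} {χ3 : MulChar (𝓞 K ⧸ f3) ℂ}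
  {ψa : AddChar (𝓞 K ⧸ fT T1 a) ℂ}

omit [NumberField F] [IQ F] [Algebra F K] in
theorem ts13_fT : fT (∅ : Finset (HeightOneSpectrum (𝓞 K))) (fun _ => 0) = ⊤ := by
  unfold fT
  rw [Finset.prod_empty, Ideal.one_eq_top]

omit [NumberField F] [IQ F] [Algebra F K] in
theorem ts13_sub : Subsingleton (𝓞 K ⧸ fT (∅ : Finset (HeightOneSpectrum (𝓞 K))) (fun _ => 0)) :=
  Ideal.Quotient.subsingleton_iff.2 ts13_fT

omit [Algebra F K] in
theorem ts13_psi (ψ : Ideal (𝓞 K) →*₀ ℂ) : (ψ * oneI (⊤ : Ideal (𝓞 K)) : Ideal (𝓞 K) →*₀ ℂ) = ψ := by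
  apply MonoidWithZeroHom.ext
  intro b
  show ψ b * oneI (⊤ : Ideal (𝓞 K)) b = ψ b
  by_cases hb : b = ⊥
  · have h0 : ψ b = 0 := by
      rw [hb]
      exact map_zero ψ
    rw [h0, zero_mul]
  · rw [ts12_one hb (by
      rw [← Ideal.one_eq_top]
      exact isCoprime_one_right), mul_one]

omit [Algebra F K] in
theorem ts13_chD (F : Type) [Field F] [NumberField F] [IQ F] [Algebra F K] (π π' : 𝓞 F) (p : ℕ) :
    ChD F π π' p (∅ : Finset (HeightOneSpectrum (𝓞 K))) (fun _ => 0) (⊤ : Ideal (𝓞 K)) (⊤ : Ideal (𝓞 K)) (oneI ⊤)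
      (1 : MulChar (𝓞 K ⧸ fT (∅ : Finset (HeightOneSpectrum (𝓞 K))) (fun _ => 0)) ℂ) (1 : MulChar (𝓞 K ⧸ (⊤ : Ideal (𝓞 K))) ℂ)
      (1 : MulChar (𝓞 K ⧸ (⊤ : Ideal (𝓞 K))) ℂ) (1 : AddChar (𝓞 K ⧸ fT (∅ : Finset (HeightOneSpectrum (𝓞 K))) (fun _ => 0)) ℂ) := by
  have hs := ts13_sub (K := K)
  have hs2 : Subsingleton (𝓞 K ⧸ (⊤ : Ideal (𝓞 K))) := Ideal.Quotient.subsingleton_iff.2 rfl
  refine ⟨?_, ?_, ?_, ⟨0, ?_⟩, ⟨0, Submodule.mem_top⟩, ?_, one_pow p, one_pow p, one_pow p, ?_, ?_, ?_⟩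
  · have e1 : fT (∅ : Finset (HeightOneSpectrum (𝓞 K))) (fun _ => 0) * ⊤ * ⊤ = (⊤ : Ideal (𝓞 K)) := by
      rw [ts13_fT, Ideal.mul_top, Ideal.mul_top]
    rw [e1]
    exact ts12_pch p top_ne_bot
  · intro v hv
    exact absurd hv (Finset.notMem_empty v)
  · intro v hv
    exact absurd hv (Finset.notMem_empty v)
  · rw [ts13_fT]
    exact Submodule.mem_top
  · rw [← Ideal.one_eq_top]
    exact isCoprime_one_left
  · intro x hx
    have h1 : Ideal.span {x} ≠ ⊥ := by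
      rw [Ne, Ideal.span_singleton_eq_bot]
      exact hx
    rw [ts12_one h1 (by
      rw [← Ideal.one_eq_top]
      exact isCoprime_one_right), MulChar.one_apply (isUnit_of_subsingleton _), MulChar.one_apply (isUnit_of_subsingleton _),
      mul_one, mul_one]
  · intro x hx
    exact absurd (isUnit_of_subsingleton x) hx
  · intro x hx
    exact absurd (Subsingleton.elim x 0) hx

/-- Chunk TS13a (M). tw_int (TS11) for the trivial data T1 = ∅ (fT ∅ a = 1), f2 = f3 = ⊤, χ = oneI ⊤, χ1 = 1, χ2 = 1, χ3 = 1, ψa = 1 (O/1 is a trivial ring: every nonunit condition and IsPrimitive are void; gaussSum = 1). PsiP * oneI ⊤ = PsiP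
(MonoidWithZeroHom.ext; oneI ⊤ a = 1 for a ≠ ⊥, k1_one in SSG/S/K1). The Fintype instance on O/1: Fintype.ofFinite. -/
theorem base_int (hP : Plc F V π π' p) {M : Ideal (𝓞 F)} {ψ : Ideal (𝓞 F) →*₀ 𝓞 F} (h : IsHecke M ψ)
    (hMp : IsCoprime M (Ideal.span {(p : 𝓞 F)})) (hm : Module.finrank F K = m + 1) (hNT : NTP K p M ψ V)
    (hCV : ∀ l, Mod p M l → CVH F K m V π π' p De M l) : LVi V De (PsiP K ψ) := by
  classical
  have hs := ts13_sub (K := K)
  have hfin : Fintype (𝓞 K ⧸ fT (∅ : Finset (HeightOneSpectrum (𝓞 K))) (fun _ => 0)) := Fintype.ofFinite _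
  have h1 := tw_int hP h hMp hm hNT hCV (ts13_chD F π π' p)
  have hg : gaussSum (1 : MulChar (𝓞 K ⧸ fT (∅ : Finset (HeightOneSpectrum (𝓞 K))) (fun _ => 0)) ℂ)⁻¹ 1 = 1 := by
    unfold gaussSum
    rw [Fintype.sum_subsingleton _ (1 : 𝓞 K ⧸ fT (∅ : Finset (HeightOneSpectrum (𝓞 K))) (fun _ => 0)), inv_one,
      MulChar.one_apply (isUnit_of_subsingleton _), AddChar.one_apply, mul_one]
  rw [hg, mul_one, ts13_psi] at h1
  exact h1

/-- The value at 1 of the continuation is unique. -/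
theorem ts13_uniq {g : Ideal (𝓞 K) →*₀ ℂ} {Λ Λ' : ℂ → ℂ} (h1 : AnalyticOnNhd ℂ Λ {s | 1 / 2 < s.re})
    (h2 : ∀ s : ℂ, 3 / 2 < s.re → HasSum (tm g s) (Λ s)) (h3 : AnalyticOnNhd ℂ Λ' {s | 1 / 2 < s.re})
    (h4 : ∀ s : ℂ, 3 / 2 < s.re → HasSum (tm g s) (Λ' s)) : Λ 1 = Λ' 1 :=
  ident Λ Λ' h1 h3 (fun s hs => (h2 s hs).unique (h4 s hs)) 1 (by norm_num)

omit [NumberField K] [Algebra F K] in
/-- Comparison of two integral numbers. -/
theorem ts13_cmp {V : ValuationSubring ℂ} {u1 u2 x y E : ℂ} (h1 : V.valuation u1 = 1) (h2 : V.valuation u2 = 1) (hx : V.valuation x ≤ 1)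
    (hy : V.valuation y ≤ 1) (hE : V.valuation E ≤ 1) (h : V.valuation (u1 * x - u2 * (E * y)) < 1) :
    V.valuation x = 1 ↔ V.valuation E = 1 ∧ V.valuation y = 1 := by
  have e1 : V.valuation (u1 * x) = V.valuation x := by rw [map_mul, h1, one_mul]
  have e2 : V.valuation (u2 * (E * y)) = V.valuation E * V.valuation y := by rw [map_mul, map_mul, h2, one_mul]
  constructor
  · intro hx1
    have h3 : V.valuation E * V.valuation y = 1 := by
      rw [← e2]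
      have e3 : u2 * (E * y) = u1 * x - (u1 * x - u2 * (E * y)) := by ring
      rw [e3, Valuation.map_sub_eq_of_lt_left _ (by rw [e1, hx1]; exact h), e1, hx1]
    refine ⟨le_antisymm hE ?_, le_antisymm hy ?_⟩
    · rw [← h3]
      exact mul_le_of_le_one_right' hy
    · rw [← h3]
      exact mul_le_of_le_one_left' hE
  · rintro ⟨h3, h4⟩
    rw [h3, h4, mul_one] at e2
    rw [← e1]
    have e3 : u1 * x = (u1 * x - u2 * (E * y)) + u2 * (E * y) := by ring
    rw [e3, Valuation.map_add_eq_of_lt_right _ (by rw [e2]; exact h), e2]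

/-- The primes containing f2 f3 do not contain π. -/
theorem ts13_pi (hP : Plc F V π π' p) (h2 : ∃ N, algebraMap (𝓞 F) (𝓞 K) (π' ^ N) ∈ f2) (h3 : IsCoprime f3 (Ideal.span {(p : 𝓞 K)}))
    (w : HeightOneSpectrum (𝓞 K)) (hw : f2 * f3 ≤ w.asIdeal) : algebraMap (𝓞 F) (𝓞 K) π ∉ w.asIdeal := by
  intro hπ
  rcases (w.isPrime.mul_le).1 hw with h | h
  · obtain ⟨N, hN⟩ := h2
    have h4 : algebraMap (𝓞 F) (𝓞 K) π' ∈ w.asIdeal := by
      have h5 := h hN
      rw [map_pow] at h5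
      exact w.isPrime.mem_of_pow_mem N h5
    obtain ⟨u, v, huv⟩ := hP.cop
    apply w.isPrime.ne_top
    rw [Ideal.eq_top_iff_one]
    have e1 : (1 : 𝓞 K) = algebraMap (𝓞 F) (𝓞 K) u * algebraMap (𝓞 F) (𝓞 K) π + algebraMap (𝓞 F) (𝓞 K) v * algebraMap (𝓞 F) (𝓞 K) π' := by
      rw [← map_mul, ← map_mul, ← map_add, huv, map_one]
    rw [e1]
    exact Ideal.add_mem _ (Ideal.mul_mem_left _ _ hπ) (Ideal.mul_mem_left _ _ h4)
  · apply w.isPrime.ne_top
    rw [Ideal.isCoprime_iff_sup_eq] at h3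
    rw [← top_le_iff, ← h3]
    refine sup_le h ?_
    rw [Ideal.span_singleton_le_iff_mem]
    have e1 : (p : 𝓞 K) = algebraMap (𝓞 F) (𝓞 K) π * algebraMap (𝓞 F) (𝓞 K) π' := by
      rw [← map_mul, hP.mul, map_natCast]
    rw [e1]
    exact Ideal.mul_mem_right _ _ hπ

/-- Chunk TS13b (M). PROOF. Λχ from tw_int, ΛK from base_int; by ident (H55N/TW1) every other continuation has the same value at 1, so LVn V (De τ) (Ψ χ) iff V(x) = 1 with x = De τ Λχ 1, and LVn V De Ψ iff V(y) = 1, y = De ΛK 1. S = the finite set of w ⊇ f2 f3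
(Ideal.finite_factors, as in one_sumP). tw_cmp: V(u1 x - u2 E y) < 1, V(x), V(y) <= 1, E = E1 * prod over S. V(E) <= 1, and V(E) = 1 iff all factors have valuation 1: e1_val, efac (TS7) (w in S does not contain π: f2 contains a power of π', f3 is prime to p,
so π and 1 would be in w); V(1 - conj Ψ(w)) <= 1 (PsiP_int). So V(x) = 1 iff V(E y) = 1 iff V(E) = 1 and V(y) = 1. The primes containing fT T1 a * f2 * f3 are those in T1 and those in S. -/
theorem tw_iff (hP : Plc F V π π' p) {M : Ideal (𝓞 F)} {ψ : Ideal (𝓞 F) →*₀ 𝓞 F} (h : IsHecke M ψ)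
    (hMp : IsCoprime M (Ideal.span {(p : 𝓞 F)})) (hm : Module.finrank F K = m + 1) (hNT : NTP K p M ψ V)
    (hCV : ∀ l, Mod p M l → CVH F K m V π π' p De M l) (hD : ChD F π π' p T1 a f2 f3 χ χ1 χ2 χ3 ψa) [Fintype (𝓞 K ⧸ fT T1 a)] :
    LVn V (De * gaussSum χ1⁻¹ ψa) (PsiP K ψ * χ : Ideal (𝓞 K) →*₀ ℂ) ↔
      LVn V De (PsiP K ψ) ∧ ∀ w : HeightOneSpectrum (𝓞 K), fT T1 a * f2 * f3 ≤ w.asIdeal → Cnd V π ψ w := by
  classical
  obtain ⟨Λχ, a1, a2, a3⟩ := tw_int hP h hMp hm hNT hCV hD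
  obtain ⟨ΛK, b1, b2, b3⟩ := base_int hP h hMp hm hNT hCV
  obtain ⟨-, hf23⟩ := ts12_ne hD.pch.ne
  obtain ⟨S, hS, -⟩ := one_sumP h (f2 * f3) hf23
  obtain ⟨u1, u2, hu1, hu2, hlt⟩ := tw_cmp hP h hMp hm hNT hCV hD S hS Λχ ΛK a1 a2 b1 b2
  obtain ⟨hE1, hE1'⟩ := e1_val hP h hMp hD.pos hD.abv
  have hSπ : ∀ w ∈ S, algebraMap (𝓞 F) (𝓞 K) π ∉ w.asIdeal := fun w hw => ts13_pi hP hD.pi2 hD.cop3 w ((hS w).1 hw)
  have hfac : ∀ w ∈ S, V.valuation (1 - tm (PsiP K ψ) 1 w.asIdeal) = V.valuation (1 - (starRingEnd ℂ) (PsiP K ψ w.asIdeal)) :=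
    fun w hw => efac hP h w (hSπ w hw)
  have hfac1 : ∀ w ∈ S, V.valuation (1 - tm (PsiP K ψ) 1 w.asIdeal) ≤ 1 := by
    intro w hw
    rw [hfac w hw]
    refine (V.valuation.map_sub _ _).trans (max_le (by rw [map_one]) (PsiP_int ψ w.asIdeal V).2)
  have hprod : V.valuation (∏ w ∈ S, (1 - tm (PsiP K ψ) 1 w.asIdeal)) = ∏ w ∈ S, V.valuation (1 - tm (PsiP K ψ) 1 w.asIdeal) :=
    map_prod _ _ _
  have hprod1 : V.valuation (∏ w ∈ S, (1 - tm (PsiP K ψ) 1 w.asIdeal)) ≤ 1 := by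
    rw [hprod]
    exact Finset.prod_le_one' hfac1
  have hE : V.valuation (E1 ψ T1 a * ∏ w ∈ S, (1 - tm (PsiP K ψ) 1 w.asIdeal)) ≤ 1 := by
    rw [map_mul]
    exact mul_le_one' hE1 hprod1
  have hEiff : V.valuation (E1 ψ T1 a * ∏ w ∈ S, (1 - tm (PsiP K ψ) 1 w.asIdeal)) = 1 ↔
      (∀ v ∈ T1, V.valuation (1 - PsiP K ψ v.asIdeal) = 1) ∧
        ∀ w ∈ S, V.valuation (1 - (starRingEnd ℂ) (PsiP K ψ w.asIdeal)) = 1 := by
    rw [← hE1']
    constructor
    · intro h1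
      rw [map_mul] at h1
      have h2 : V.valuation (E1 ψ T1 a) = 1 := le_antisymm hE1 (by
        rw [← h1]
        exact mul_le_of_le_one_right' hprod1)
      have h3 : V.valuation (∏ w ∈ S, (1 - tm (PsiP K ψ) 1 w.asIdeal)) = 1 := by
        rw [h2, one_mul] at h1
        exact h1
      refine ⟨h2, fun w hw => ?_⟩
      rw [hprod, Finset.prod_eq_one_iff_of_le_one' hfac1] at h3
      rw [← hfac w hw]
      exact h3 w hw
    · rintro ⟨h1, h2⟩
      rw [map_mul, h1, one_mul, hprod]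
      exact Finset.prod_eq_one fun w hw => (hfac w hw).trans (h2 w hw)
  have key := ts13_cmp hu1 hu2 a3 b3 hE hlt
  have c1 : LVn V (De * gaussSum χ1⁻¹ ψa) (PsiP K ψ * χ : Ideal (𝓞 K) →*₀ ℂ) ↔ V.valuation (De * gaussSum χ1⁻¹ ψa * Λχ 1) = 1 := by
    constructor
    · rintro ⟨Λ, c1, c2, c3⟩
      rw [ts13_uniq a1 a2 c1 c2]
      exact c3
    · intro h1
      exact ⟨Λχ, a1, a2, h1⟩
  have c2 : LVn V De (PsiP K ψ) ↔ V.valuation (De * ΛK 1) = 1 := by
    constructor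
    · rintro ⟨Λ, c1, c2, c3⟩
      rw [ts13_uniq b1 b2 c1 c2]
      exact c3
    · intro h1
      exact ⟨ΛK, b1, b2, h1⟩
  have c3 : ((∀ v ∈ T1, V.valuation (1 - PsiP K ψ v.asIdeal) = 1) ∧
        ∀ w ∈ S, V.valuation (1 - (starRingEnd ℂ) (PsiP K ψ w.asIdeal)) = 1) ↔
      ∀ w : HeightOneSpectrum (𝓞 K), fT T1 a * f2 * f3 ≤ w.asIdeal → Cnd V π ψ w := by
    constructor
    · rintro ⟨h1, h2⟩ w hw
      rw [mul_assoc] at hw
      rcases (w.isPrime.mul_le).1 hw with h3 | h3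
      · have hwT : w ∈ T1 := by
          unfold fT at h3
          obtain ⟨v, hv, hvw⟩ := (w.isPrime.prod_le).1 h3
          have h4 : v.asIdeal ≤ w.asIdeal := by
            intro z hz
            exact w.isPrime.mem_of_pow_mem _ (hvw (Ideal.pow_mem_pow hz _))
          have h5 : v = w := HeightOneSpectrum.ext (v.isMaximal.eq_of_le w.isPrime.ne_top h4)
          rw [← h5]
          exact hv
        exact ⟨fun _ => h1 w hwT, fun h4 => absurd (hD.abv w hwT) h4⟩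
      · have hwS := (hS w).2 h3
        exact ⟨fun h4 => absurd h4 (hSπ w hwS), fun _ => h2 w hwS⟩
    · intro h1
      refine ⟨fun v hv => ?_, fun w hw => ?_⟩
      · have h2 : fT T1 a * f2 * f3 ≤ v.asIdeal := by
          refine Ideal.mul_le_left.trans (Ideal.mul_le_left.trans ?_)
          unfold fT
          refine (Ideal.prod_le_inf).trans ((Finset.inf_le hv).trans (Ideal.pow_le_self (hD.pos v hv).ne'))
        exact (h1 v h2).1 (hD.abv v hv)
      · have h2 : fT T1 a * f2 * f3 ≤ w.asIdeal := by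
          rw [mul_assoc]
          exact Ideal.mul_le_right.trans ((hS w).1 hw)
        exact (h1 w h2).2 (hSπ w hw)
  rw [c1, key, hEiff, c2, c3]
  exact and_comm

end H35M
end
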