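import Mathlib
import Pool.Agent.Lib.H1M.PP2.M080
import Pool.Agent.Lib.H1M.PP2.M099
import Pool.Agent.Lib.H1M.PP2.M149
import Pool.Agent.Lib.H1M.PP2.M151

/-! # H35U: torsion over M and over the field generated by F and M -/

open NumberField IsDedekindDomain WeierstrassCurve

namespace H35U

open H55P (IQ embF eF LF Per IsHecke Pt ac Inert Dec Nm UnitP UnrP PsiP)
open H55K (cj ak)
open H55K.TQ H35M

open Classical in
/-- W has no nonzero point of order p over M. -/
def NT (p : ℕ) (W : WeierstrassCurve ℤ) (M : Type) [Field M] [NumberField M] : Prop :=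
  ∀ P : (W⁄M).toAffine.Point, p • P = 0 → P = 0

end H35U
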