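import Mathlib
import Pool.Agent.Lib.H1M.PP2.M004
import Pool.Agent.Lib.H1M.PP2.M058
import Pool.Agent.Lib.H1M.PP2.M072
import Pool.Agent.Lib.H1M.PP2.M103
import Pool.Agent.Lib.H1M.PP2.M109
import Pool.Agent.Lib.H1M.PP2.M112
import Pool.Agent.Lib.H1M.PP2.M136
import Pool.Agent.Lib.H1M.PP2.M145

/-! Merged copies (to shorten the build) of Lib.SSG.V.V6, Lib.SSG.V.V7, Lib.SSG.V.V8, Lib.SSG.V.V12, Lib.SSG.V.V13, Lib.SSG.V.V15, Lib.H35M.KM4. -/

-- from Lib.SSG.V.V6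
section

/-! # SSG, part V: the weighted core for arbitrary K (any ramification at p) -/

open NumberField IsDedekindDomain

namespace SSG.V

open H55N H55P SSG.E

variable {F : Type} [Field F] [NumberField F] [IQ F]

/-- φ has the period P I on the class of c₀ and is invariant under the units which are 1 modulo J. -/
structure WtJ {K : Type} [Field K] [NumberField K] (J I : Ideal (𝓞 K)) (c₀ : 𝓞 K) (P : ℕ) (φ : 𝓞 K → ℂ) : Prop where
  per : ∀ x ∈ XS I c₀, ∀ y, x - y ∈ Ideal.span {(P : 𝓞 K)} * I → φ x = φ y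
  inv : ∀ x ∈ XS I c₀, ∀ v : (𝓞 K)ˣ, (v : 𝓞 K) - 1 ∈ J → φ ((v : 𝓞 K) * x) = φ x

/-- The traces of x O_K are integral at p. -/
def TInt {K : Type} [Field K] [NumberField K] [Algebra F K] (p : ℕ) (a : K) : Prop :=
  ∃ d : ℕ, ¬ p ∣ d ∧ ∀ x : 𝓞 K, ∃ y : 𝓞 F, Algebra.trace F K ((x : K) * ((d : K) * a)) = algebraMap (𝓞 F) F y

/-- The traces against the A k of the elements of b are all vectors, up to a factor prime to p. -/
def TSur {K : Type} [Field K] [NumberField K] [Algebra F K] {m : ℕ} (p : ℕ) (b : Ideal (𝓞 K)) (A : Fin (m + 1) → K) : Prop :=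
  ∃ d : 𝓞 F, IsCoprime d (p : 𝓞 F) ∧ ∀ y : Fin (m + 1) → 𝓞 F, ∃ x ∈ b, ∀ k : Fin (m + 1),
    Algebra.trace F K ((x : K) * A k) = algebraMap (𝓞 F) F (d * y k)

theorem tint_of (p : ℕ) (hp : p.Prime) {K : Type} [Field K] [NumberField K] [Algebra F K] (b : Ideal (𝓞 K))
    (hb : IsCoprime b (Ideal.span {(p : 𝓞 K)})) (a : K)
    (ha : ∀ x ∈ b, ∃ y : 𝓞 F, Algebra.trace F K ((x : K) * a) = algebraMap (𝓞 F) F y) : TInt (F := F) p a := by
  refine ⟨Ideal.absNorm b, absNorm_cop p hp b hb, fun x => ?_⟩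
  obtain ⟨y, hy⟩ := ha ((Ideal.absNorm b : ℕ) * x) (b.mul_mem_right x (Ideal.absNorm_mem b))
  refine ⟨y, ?_⟩
  have h1 : (x : K) * (((Ideal.absNorm b : ℕ) : K) * a) = ((((Ideal.absNorm b : ℕ) : 𝓞 K) * x : 𝓞 K) : K) * a := by
    have h4 : ((((Ideal.absNorm b : ℕ) : 𝓞 K) * x : 𝓞 K) : K) = ((Ideal.absNorm b : ℕ) : K) * (x : K) := by
      rw [← map_natCast (algebraMap (𝓞 K) K) (Ideal.absNorm b)]
      exact map_mul (algebraMap (𝓞 K) K) _ _
    rw [h4]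
    ring
  rw [h1, hy]

/-- The ideals J = M f and J' = rad(p) J. -/
theorem pc_J2 {p : ℕ} (hp : p.Prime) {M : Ideal (𝓞 F)} {l : 𝓞 F} (hM : Mod p M l) {K : Type} [Field K] [NumberField K] [Algebra F K]
    (f : Ideal (𝓞 K)) (hf : f ≠ ⊥) (J J' : Ideal (𝓞 K)) (hJ : J = mK K M * f)
    (hJ' : J' = radP p K * J) :
    J ≠ ⊥ ∧ J' ≠ ⊥ ∧ J' ≤ J ∧ J ≤ mK K M ∧ J' ≤ radP p K ∧
      J' ≤ Ideal.span {algebraMap (𝓞 F) (𝓞 K) l} := by
  have hp0 : (p : 𝓞 K) ≠ 0 := by exact_mod_cast hp.ne_zero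
  have hr0 : radP p K ≠ ⊥ := by
    intro h
    have h1 := radP_le p K
    rw [h, le_bot_iff, Ideal.span_singleton_eq_bot] at h1
    exact hp0 h1
  have h1 : J ≠ ⊥ := by
    rw [hJ]
    exact mul_ne_zero (pc_mK_ne hM.ne) hf
  have h2 : J' ≠ ⊥ := by
    rw [hJ']
    exact mul_ne_zero hr0 h1
  have h3 : J' ≤ J := hJ' ▸ Ideal.mul_le_right
  have h4 : J ≤ mK K M := hJ ▸ Ideal.mul_le_left
  have h5 : J' ≤ radP p K := hJ' ▸ Ideal.mul_le_left
  have h6 : J ≤ Ideal.span {algebraMap (𝓞 F) (𝓞 K) l} := h4.trans (pc_mK hM.le)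
  exact ⟨h1, h2, h3, h4, h5, h3.trans h6⟩

/-- The weighted core for arbitrary K. -/
theorem corew2 (p : ℕ) (hp : p.Prime) {M : Ideal (𝓞 F)} {l : 𝓞 F} (hM : Mod p M l)
    (K : Type) [Field K] [NumberField K] [Algebra F K] (m : ℕ)
    (hm : Module.finrank F K = m + 1) (b f : Ideal (𝓞 K)) (hb : b ≠ ⊥)
    (hbp : IsCoprime b (Ideal.span {(p : 𝓞 K)})) (hf : f ≠ ⊥)
    (hfp : IsCoprime f (Ideal.span {(p : 𝓞 K)}))
    (c₀ : 𝓞 K) (hc : c₀ ∈ b) (hc' : c₀ ∉ Ideal.span {algebraMap (𝓞 F) (𝓞 K) l} * b) (P : ℕ) (hP : ∃ N, P = p ^ N) :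
    ∃ Bad : Set (Ideal (𝓞 K)), Bad.Finite ∧
      ∀ (c : Fin (m + 1) × Fin 2 → Ideal (𝓞 K)) (q : Fin (m + 1) × Fin 2 → ℕ), Smooth c q →
        (∀ i, c i ∉ Bad) → ∃ (σ : Fin (m + 1) → K →+* ℂ) (ν : ℕ) (ix : Type) (_ : Fintype ix) (sg : ix → ℤ)
          (S : ix → LD (⟨σ, mK K M * f * b, c₀, c, q⟩ : H55P.Ctx F K m) l P),
          Emb F σ ∧ ¬ p ∣ ν ∧ (∀ j, (S j).Ok) ∧ (∀ j k, TInt (F := F) p ((S j).A k)) ∧ (∀ j, TSur (F := F) p b (S j).A) ∧
          ∀ φ : 𝓞 K → ℂ, WtJ (mK K M * f) (mK K M * f * b) c₀ P φ → ∃ Z : ℂ → ℂ, AnalyticOnNhd ℂ Z {s | 1 / 2 < s.re} ∧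
            (∀ T : Set (𝓞 K), Transv (mK K M * f) (XS (mK K M * f * b) c₀) T →
              ∀ s : ℂ, 3 / 2 < s.re → HasSum (fun x : T => φ x * (gw c q x * nf F s (x : 𝓞 K))) (Z s)) ∧
            ∀ R : Finset (𝓞 K), RpU (mK K M * f * b) c₀ P R →
              Z 1 = (ν : ℂ)⁻¹ * ((P : ℂ)⁻¹) ^ (m + 1) * ∑ a ∈ R, φ a * ∑ j, (sg j : ℂ) * (S j).H a := by
  classical
  obtain ⟨NN, hNN⟩ := hP
  obtain ⟨σ, hσ⟩ := emb_exists (F := F) K m hm
  set J : Ideal (𝓞 K) := mK K M * f with hJdef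
  set J' : Ideal (𝓞 K) := radP p K * J with hJ'def
  obtain ⟨hJ0, hJ'0, hJ'J, hJM, hJ'p, hJ'l⟩ := pc_J2 hp hM f hf J J' hJdef hJ'def
  obtain ⟨er, her⟩ := radP_pow p K
  obtain ⟨u, hu1, hu2, hu3, hu4⟩ := H55P.units_basis hm J' hJ'0
    (torsion_free2 p hp l hM.prime (pc_cop hM) J' hJ'p hJ'l)
  obtain ⟨L, hL⟩ := labels_exist2 hm p hp l hM.prime (pc_cop hM) b hb c₀ hc hc' u (radP p K) er her
    (fun z => hJ'p (hu2 z)) (fun z => hJ'l (hu2 z))
  have hle : mK K M * f * b ≤ Ideal.span {algebraMap (𝓞 F) (𝓞 K) l} * b :=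
    Ideal.mul_mono_left (hJM.trans (pc_mK hM.le))
  have hI0 : mK K M * f * b ≠ ⊥ := mul_ne_zero hJ0 hb
  have hdir := fun (q : (Fin m → Fin (m + 1)) × Equiv.Perm (Fin m)) =>
    directions hm (fun k : Fin (m + 1) => L (kv (fun k => ((q.1 k : ℕ) : ℤ)) q.2 k))
      (labels_indep p hp l b c₀ u L hL _ _) (mK K M * f * b) hI0
  choose d hd1 hd2 hd3 using hdir
  have hp0 : (p : 𝓞 K) ≠ 0 := by exact_mod_cast hp.ne_zero
  have h20 : (2 : 𝓞 K) ≠ 0 := two_ne_zero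
  have hP0 : P ≠ 0 := by rw [hNN]; exact pow_ne_zero _ hp.ne_zero
  refine ⟨((⋃ q : ((Fin m → Fin (m + 1)) × Equiv.Perm (Fin m)) × Fin (m + 1),
    {c : Ideal (𝓞 K) | d q.1 q.2 ∈ c}) ∪ {c : Ideal (𝓞 K) | (p : 𝓞 K) ∈ c}) ∪ {c : Ideal (𝓞 K) | (2 : 𝓞 K) ∈ c}, ?_, ?_⟩
  · refine Set.Finite.union (Set.Finite.union (Set.finite_iUnion fun q => H55P.finite_ideals _ (hd2 _ _)) ?_) ?_
    · exact H55P.finite_ideals _ hp0
    · exact H55P.finite_ideals _ h20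
  intro c q hcq hbad
  let D : Ctx F K m := ⟨σ, mK K M * f * b, c₀, c, q⟩
  have hD : D.Ok := ⟨hσ, fun h => hc' (hle h), hcq⟩
  have h0X : (0 : 𝓞 K) ∉ D.X := fun h => D.X_ne hD.ne h rfl
  have hpc : ∀ i, (p : 𝓞 K) ∉ c i := fun i h => hbad i (Or.inl (Or.inr h))
  have h2c : ∀ i, (2 : 𝓞 K) ∉ c i := fun i h => hbad i (Or.inr h)
  have hp2 : ∀ i, D.p i ≠ p := by
    intro i hi
    apply hpc i
    have h1 : ((Ideal.absNorm (c i) : ℕ) : 𝓞 K) ∈ c i := Ideal.absNorm_mem _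
    rw [hcq.norm i] at h1
    have h2 : q i = p := hi
    rw [h2] at h1
    exact h1
  have hnc : ∀ i, ((2 * P : ℕ) : 𝓞 K) ∉ D.c i := by
    intro i h
    have hpr := w11_prime hcq i
    rw [Nat.cast_mul, hNN, Nat.cast_pow, Nat.cast_ofNat] at h
    rcases hpr.mem_or_mem h with h1 | h1
    · exact h2c i h1
    · exact hpc i (hpr.mem_of_pow_mem _ h1)
  have hPc : ∀ i, IsCoprime (P : ℤ) (D.p i : ℤ) := by
    intro i
    rw [Nat.isCoprime_iff_coprime, hNN]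
    exact Nat.Coprime.pow_left _ ((Nat.coprime_primes hp (hcq.prime i)).2 (hp2 i).symm)
  have hact : ∀ v : (𝓞 K)ˣ, (v : 𝓞 K) - 1 ∈ J → ((v : 𝓞 K) - 1) * D.c₀ ∈ D.I :=
    fun v hv => Ideal.mul_mem_mul hv hc
  have hu : D.UOk u := ⟨fun j => hact _ (hJ'J (hu1 j)),
    fun j => H55P.norm_one D hσ hM (u j) (hJM (hJ'J (hu1 j))), H55P.delta_ne D hσ u hu4⟩
  have hlow := labels_low D hσ p M l hM.prime hM.le b f c₀ ⟨rfl, rfl⟩ u L hL
  have hdirs : ∀ j : (Fin m → Fin (m + 1)) × Equiv.Perm (Fin m),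
      ∃ w', DirN D l (2 * P) (fun k : Fin (m + 1) => L (kv (fun k => ((j.1 k : ℕ) : ℤ)) j.2 k)) w' := by
    intro j
    refine dirN_of D hD l (2 * P) _ (d j) (hd1 j) ?_ hnc (hd3 j) ?_ ?_
      (labels_indep p hp l b c₀ u L hL _ _)
    · intro i k hk
      apply hbad i
      left
      left
      exact Set.mem_iUnion.2 ⟨(j, k), hk⟩
    · intro x hx k
      exact (hlow (kv (fun k => ((j.1 k : ℕ) : ℤ)) j.2 k) x hx).1
    · intro x hx k
      exact (hlow (kv (fun k => ((j.1 k : ℕ) : ℤ)) j.2 k) x hx).2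
  choose w' hw' using hdirs
  have hn : ((2 * P : ℕ) : 𝓞 K) ∈ Ideal.span {(P : 𝓞 K)} := by
    rw [Nat.cast_mul]
    exact Ideal.mul_mem_left _ _ (Ideal.mem_span_singleton_self _)
  -- the data
  have hld : ∀ j : (Fin m → Fin (m + 1)) × Equiv.Perm (Fin m), ∃ S : LD D l P, S.Ok ∧
      S.A = fun k : Fin (m + 1) => L (kv (fun k => ((j.1 k : ℕ) : ℤ)) j.2 k) := by
    intro j
    obtain ⟨m₀, h0, hpm, hlm, hm⟩ := H55P.m0_exists D hD p hp hM b f hf hfp rfl hp2 u L hL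
      (fun k => ((j.1 k : ℕ) : ℤ)) j.2
    refine ld_exists D hD l P hP0 hPc _ (w' j) (hw' j) m₀ h0 ?_ hlm hm
    rw [Nat.isCoprime_iff_coprime, hNN]
    exact Nat.Coprime.pow_left _ ((Nat.Prime.coprime_iff_not_dvd hp).2 hpm)
  choose S hS hSA using hld
  obtain ⟨G, hGp, hG⟩ := gInt D hD l (Ideal.span {(P : 𝓞 K)}) (2 * P) hn _ (w' (fun _ => 0, 1)) (hw' (fun _ => 0, 1))
  have hJ2 : IsCoprime J (Ideal.span {(p : 𝓞 K)}) := by
    rw [hJdef]
    exact IsCoprime.mul_left (pe9_cop hM.cop) hfp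
  obtain ⟨ν, hν, hT⟩ := prime_change2 p hp J J' hJ0 hJ2 hJ'def D.X h0X (by
    intro v hv x hx
    have h1 : (v : 𝓞 K) * x - D.c₀ = ((v : 𝓞 K) - 1) * D.c₀ + v * (x - D.c₀) := by ring
    rw [D.mem_X, h1]
    exact D.I.add_mem (hact v hv) (D.I.mul_mem_left _ hx))
  refine ⟨σ, ν, (Fin m → Fin (m + 1)) × Equiv.Perm (Fin m), inferInstance,
    fun j => (if 0 ≤ Delta (D.lm u) then 1 else -1) * (Equiv.Perm.sign j.2 : ℤ), S, hσ, hν, hS, ?_, ?_, ?_⟩
  · intro j k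
    rw [hSA j]
    exact tint_of p hp b hbp _ (hL.int _)
  · intro j
    rw [hSA j]
    exact hL.cop _ _
  intro φ hφ
  obtain ⟨R₀, hR₀⟩ := w11_rep (mK K M * f * b) hI0 c₀ P hP0
  have hRp : Rp D (Ideal.span {(P : 𝓞 K)}) R₀ := ⟨hR₀.sub, hR₀.ex⟩
  have hWt : Wt D (Ideal.span {(P : 𝓞 K)}) u φ := ⟨hφ.per, fun x hx z => hφ.inv x hx _ (hJ'J (hu2 z))⟩
  have hdD : ∀ j, ∀ a ∈ R₀, (cx D (Ideal.span {(P : 𝓞 K)}) a).Dirs
      (fun k : Fin (m + 1) => L (kv (fun k => ((j.1 k : ℕ) : ℤ)) j.2 k)) (nw (2 * P) (w' j)) :=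
    fun j a ha => dirN_dirs D l _ (2 * P) hn _ (w' j) (hw' j) (hR₀.sub a ha)
  have hGR : ∀ a ∈ R₀, (cx D (Ideal.span {(P : 𝓞 K)}) a).GSpec (nw (2 * P) (w' (fun _ => 0, 1)))
      (fun x => ((G x : ℤ) : ℂ)) := fun a ha => hG a (hR₀.sub a ha)
  obtain ⟨Z, hZ1, hZ2, hZ3⟩ := zfunw D hD u hu (Ideal.span {(P : 𝓞 K)}) R₀ hRp φ hWt _ _ (hdD (fun _ => 0, 1)) _ hGR
  have hval := CNw_value D hD u hu (Ideal.span {(P : 𝓞 K)}) R₀ hRp φ hWt _ _ (hdD (fun _ => 0, 1)) _ hGR L hL.equi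
    (fun a π => ⟨_, hdD (a, π)⟩)
  -- the value functions
  have hH : ∀ j, ∀ a ∈ D.X, (cx D (Ideal.span {(P : 𝓞 K)}) a).Jv
      (fun k : Fin (m + 1) => .A (L (kv (fun k => ((j.1 k : ℕ) : ℤ)) j.2 k))) = ((P : ℂ)⁻¹) ^ (m + 1) * (S j).H a := by
    intro j a ha
    have h1 := Jv_H hP0 (S j) (hS j) hD ha
    rw [hSA j] at h1
    exact h1
  have hPC : ((P : ℂ)⁻¹) ^ (m + 1) ≠ 0 := pow_ne_zero _ (inv_ne_zero (by exact_mod_cast hP0))
  have hHc : ∀ j, ∀ x ∈ D.X, ∀ y ∈ D.X, x - y ∈ Ideal.span {(P : 𝓞 K)} * (mK K M * f * b) → (S j).H x = (S j).H y := by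
    intro j x hx y hy hxy
    have h1 := cx_Jv D (Ideal.span {(P : 𝓞 K)}) hxy
      (fun k : Fin (m + 1) => .A (L (kv (fun k => ((j.1 k : ℕ) : ℤ)) j.2 k)))
    rw [hH j x hx, hH j y hy] at h1
    exact mul_left_cancel₀ hPC h1
  have hCN : CN (m + 1) (Jw D (Ideal.span {(P : 𝓞 K)}) R₀ φ) (fun a => .A (L a)) = ((P : ℂ)⁻¹) ^ (m + 1) *
      ∑ a ∈ R₀, φ a * ∑ j : (Fin m → Fin (m + 1)) × Equiv.Perm (Fin m), (((Equiv.Perm.sign j.2 : ℤ)) : ℂ) * (S j).H a := by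
    have h1 : CN (m + 1) (Jw D (Ideal.span {(P : 𝓞 K)}) R₀ φ) (fun a => .A (L a)) =
        ∑ j : (Fin m → Fin (m + 1)) × Equiv.Perm (Fin m), ((Equiv.Perm.sign j.2 : ℤ) : ℂ) *
          ∑ a ∈ R₀, φ a * (((P : ℂ)⁻¹) ^ (m + 1) * (S j).H a) := by
      unfold CN
      rw [Fintype.sum_prod_type]
      refine Finset.sum_congr rfl fun a _ => Finset.sum_congr rfl fun π _ => ?_
      have h3 : Jw D (Ideal.span {(P : 𝓞 K)}) R₀ φ (fun j => .A (L (kv (fun k => ((a k : ℕ) : ℤ)) π j))) =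
          ∑ r ∈ R₀, φ r * (((P : ℂ)⁻¹) ^ (m + 1) * (S (a, π)).H r) := by
        unfold Jw
        refine Finset.sum_congr rfl fun r hr => ?_
        rw [← hH (a, π) r (hR₀.sub r hr)]
      exact congrArg (fun z => ((Equiv.Perm.sign π : ℤ) : ℂ) * z) h3
    rw [h1]
    simp only [Finset.mul_sum]
    rw [Finset.sum_comm]
    refine Finset.sum_congr rfl fun a _ => Finset.sum_congr rfl fun j _ => ?_
    ring
  have hZv : Z 1 = ((P : ℂ)⁻¹) ^ (m + 1) * ∑ a ∈ R₀, φ a * ∑ j : (Fin m → Fin (m + 1)) × Equiv.Perm (Fin m),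
      ((((if 0 ≤ Delta (D.lm u) then 1 else -1) * (Equiv.Perm.sign j.2 : ℤ) : ℤ)) : ℂ) * (S j).H a := by
    by_cases h : 0 ≤ Delta (D.lm u)
    · rw [hZ3, abs_of_nonneg h, ← hval, hCN]
      simp only [if_pos h, one_mul]
    · have h' : Delta (D.lm u) ≤ 0 := (not_le.1 h).le
      rw [hZ3, abs_of_nonpos h']
      have e1 : (m.factorial : ℂ) * ((-Delta (D.lm u) : ℝ) : ℂ) *
          (∫ z in Set.Icc (0 : Fin m → ℝ) 1, ∑ a ∈ R₀, φ a * (cx D (Ideal.span {(P : 𝓞 K)}) a).Bv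
            (nw (2 * P) (w' (fun _ => 0, 1))) (fun x => ((G x : ℤ) : ℂ)) (fun _ => tt (D.lm u) z)) =
          -(CN (m + 1) (Jw D (Ideal.span {(P : 𝓞 K)}) R₀ φ) (fun a => .A (L a))) := by
        rw [hval]
        push_cast
        ring
      rw [e1, hCN]
      simp only [if_neg h, neg_mul, one_mul, Int.cast_neg, Finset.sum_neg_distrib, mul_neg]
  refine ⟨fun s => Z s / ν, ?_, ?_, ?_⟩
  · exact fun s hs => (hZ1 s hs).div_const
  · intro T hTT s hs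
    obtain ⟨T', hT', hφT⟩ := hT T hTT
    refine hφT (fun x => φ x * (gw c q x * nf F s x)) (Z s) ?_ ?_
    · intro v hv x hx
      rw [pc_gw, pc_nf hσ s v (H55P.norm_one D hσ hM v (hJM hv)), hφ.inv x hx v hv]
    · exact hZ2 T' hT'.sub (pc_bij h0X hT' u hu2 hu3) s hs
  · intro R hR
    have h1 := w11_sum hR hR₀ (fun a => φ a * ∑ j : (Fin m → Fin (m + 1)) × Equiv.Perm (Fin m),
      ((((if 0 ≤ Delta (D.lm u) then 1 else -1) * (Equiv.Perm.sign j.2 : ℤ) : ℤ)) : ℂ) * (S j).H a) (by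
        intro x hx y hy hxy
        show φ x * _ = φ y * _
        rw [hφ.per x hx y hxy]
        exact congrArg (fun z => φ y * z) (Finset.sum_congr rfl fun j _ => by rw [hHc j x hx y hy hxy]))
    show Z 1 / ν = _
    rw [hZv, ← h1]
    ring

end SSG.V
end

-- from Lib.SSG.V.V7
section

/-! # SSG, part V: the p-adic shape of the values for arbitrary K -/

open NumberField IsDedekindDomain

namespace SSG.V

open H55N H55P SSG.E
open H35P (WAB Ker tt)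
open H55K (CMA Dta)

variable {F : Type} [Field F] [NumberField F] [IQ F]

theorem lin_form2 {K : Type} [Field K] [NumberField K] [Algebra F K] {m N : ℕ} {p : ℕ} (D : Ctx F K m) (hE : Emb F D.σ)
    (hp : p.Prime) (ω₀ : Fin (m + 1) → 𝓞 K) (co : 𝓞 K → Fin (m + 1) → 𝓞 F)
    (hco : ∀ x, ∃ t : 𝓞 K, x = ∑ s, algebraMap (𝓞 F) (𝓞 K) (co x s) * ω₀ s + (p : 𝓞 K) ^ N * t) {α : K}
    (hα : TInt (F := F) p α) :
    ∃ c : Fin (m + 1) → 𝓞 F, ∀ (x : 𝓞 K) (y : 𝓞 F), D.Tr α x = eF F y →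
      (p : 𝓞 F) ^ N ∣ y - ∑ k, c k * co x k := by
  obtain ⟨d, hd, hd'⟩ := hα
  choose y hy using hd'
  have hcop : IsCoprime (d : ℤ) ((p : ℤ) ^ N) :=
    (Nat.isCoprime_iff_coprime.2 (((Nat.Prime.coprime_iff_not_dvd hp).2 hd).symm)).pow_right
  obtain ⟨a, b, hab⟩ := hcop
  refine ⟨fun s => (a : 𝓞 F) * y (ω₀ s), fun x z hz => ?_⟩
  obtain ⟨t, ht⟩ := hco x
  have h1 : (d : 𝓞 F) * z = ∑ s, y (ω₀ s) * co x s + (p : 𝓞 F) ^ N * y t := by
    apply RingOfIntegers.coe_injective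
    have h2 : Algebra.trace F K ((x : K) * α) = (z : F) := by
      apply (embF F).injective
      rw [← Tr_eq D hE, hz]
      rfl
    have h3 : Algebra.trace F K ((x : K) * ((d : K) * α)) = (d : F) * (z : F) := by
      have h4 : (x : K) * ((d : K) * α) = (d : F) • ((x : K) * α) := by
        rw [Algebra.smul_def, map_natCast]
        ring
      rw [h4, map_smul, h2, smul_eq_mul]
    have h5 : Algebra.trace F K ((x : K) * ((d : K) * α)) =
        ∑ s, (y (ω₀ s) : F) * (co x s : F) + (p : F) ^ N * (y t : F) := by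
      conv_lhs => rw [ht]
      rw [L2F_coe_add, L2F_coe_sum, add_mul, Finset.sum_mul, map_add, map_sum]
      congr 1
      · refine Finset.sum_congr rfl fun s _ => ?_
        rw [L2F_coe_mul, mul_assoc, L2F_trace_mul, hy (ω₀ s)]
        exact mul_comm _ _
      · have h7 : (((p : 𝓞 K) ^ N * t : 𝓞 K) : K) * ((d : K) * α) = ((p : F) ^ N) • ((t : K) * ((d : K) * α)) := by
          have h8 : (((p : 𝓞 K) ^ N * t : 𝓞 K) : K) = (p : K) ^ N * (t : K) := by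
            rw [L2F_coe_mul]
            congr 1
          rw [h8, Algebra.smul_def, map_pow, map_natCast]
          ring
        rw [h7, map_smul, smul_eq_mul, hy t]
    rw [h3] at h5
    rw [map_mul, map_natCast, map_add, map_sum, map_mul, map_pow, map_natCast]
    refine h5.trans ?_
    congr 1
  have h6 : ∑ k, (a : 𝓞 F) * y (ω₀ k) * co x k = (a : 𝓞 F) * ((d : 𝓞 F) * z - (p : 𝓞 F) ^ N * y t) := by
    rw [h1, add_sub_cancel_right, Finset.mul_sum]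
    refine Finset.sum_congr rfl fun s _ => by ring
  rw [h6]
  have h7 : (a : 𝓞 F) * d + b * (p : 𝓞 F) ^ N = 1 := by exact_mod_cast congrArg (Int.cast (R := 𝓞 F)) hab
  exact ⟨b * z + a * y t, by linear_combination -z * h7⟩

theorem det2 {A B : F} {Om : ℂ} {Ω : Type} [Field Ω] [DecidableEq Ω]
    [Algebra F Ω] {j : Ω →+* ℂ} {act : 𝓞 F →+* AddMonoid.End (Pt (WAB A B) Ω)} (hc : CMA F A B Om j act) {p : ℕ} [Fact p.Prime]
    (V : ValuationSubring Ω) (hV : V.valuation (p : Ω) < 1) {K : Type} [Field K] [NumberField K] [Algebra F K] {m : ℕ}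
    (D : Ctx F K m) (hE : Emb F D.σ) (ω₀ : Fin (m + 1) → 𝓞 K) (α : Fin (m + 1) → K) (hα : ∀ k, TInt (F := F) p (α k)) :
    ∃ ω : Ω, j ω = (Matrix.of fun i s => D.σ i (ω₀ s : K)).det * (Matrix.of fun k i => D.σ i (α k)).det ∧
      V.valuation ω ≤ 1 := by
  choose d hd y hy using hα
  have hchar : CharZero Ω := j.charZero
  have hd1 : ∀ k, V.valuation ((d k : ℕ) : Ω) = 1 := fun k => by
    have h1 := clw_val V hV (d k) (hd k)
    have h2 : ((d k : ℕ) : Ω) ∈ V := natCast_mem V (d k)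
    rw [← V.valuation_le_one_iff] at h1 h2
    rw [map_inv₀] at h1
    refine le_antisymm h2 ?_
    by_contra h3
    push Not at h3
    have h4 : V.valuation ((d k : ℕ) : Ω) ≠ 0 := by
      rw [Valuation.ne_zero_iff]
      intro h5
      rw [Nat.cast_eq_zero] at h5
      exact hd k (h5 ▸ dvd_zero p)
    have h6 := (one_lt_inv₀ (zero_lt_iff.2 h4)).2 h3
    exact absurd h1 (not_le.2 h6)
  let Y : Matrix (Fin (m + 1)) (Fin (m + 1)) (𝓞 F) := Matrix.of fun k s => y k (ω₀ s)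
  refine ⟨algebraMap F Ω ((Y.det : 𝓞 F) : F) * (∏ k, ((d k : ℕ) : Ω))⁻¹, ?_, ?_⟩
  · have hd0 : (∏ k, ((d k : ℕ) : ℂ)) ≠ 0 := Finset.prod_ne_zero_iff.2 fun k _ => by
      intro h
      rw [Nat.cast_eq_zero] at h
      exact hd k (h ▸ dvd_zero p)
    rw [map_mul, hc.ovr, map_inv₀, map_prod]
    simp only [map_natCast]
    rw [mul_inv_eq_iff_eq_mul₀ hd0]
    have h1 : (Matrix.of fun k i => D.σ i (α k)) * (Matrix.of fun i s => D.σ i (ω₀ s : K)) =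
        Matrix.of fun k s => D.Tr (α k) (ω₀ s) := by
      ext k s
      rw [Matrix.mul_apply]
      show _ = D.Tr (α k) (ω₀ s)
      unfold H55P.Ctx.Tr
      refine Finset.sum_congr rfl fun i _ => ?_
      show D.σ i (α k) * D.σ i (ω₀ s : K) = _
      rw [← map_mul, mul_comm]
    have h2 : (embF F) ((Y.det : 𝓞 F) : F) = (Matrix.of fun k s => ((d k : ℕ) : ℂ) * D.Tr (α k) (ω₀ s)).det := by
      show eF F Y.det = _
      rw [RingHom.map_det]
      congr 1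
      ext k s
      show eF F (y k (ω₀ s)) = ((d k : ℕ) : ℂ) * D.Tr (α k) (ω₀ s)
      have h3 := hy k (ω₀ s)
      rw [Tr_eq D hE]
      show (embF F) (algebraMap (𝓞 F) F (y k (ω₀ s))) = _
      rw [← h3]
      have h4 : ((ω₀ s : 𝓞 K) : K) * (((d k : ℕ) : K) * α k) = ((d k : ℕ) : F) • (((ω₀ s : 𝓞 K) : K) * α k) := by
        rw [Algebra.smul_def, map_natCast]
        ring
      rw [h4, map_smul, smul_eq_mul, map_mul, map_natCast]
    have h5 : (Matrix.of fun k s => ((d k : ℕ) : ℂ) * D.Tr (α k) (ω₀ s)) =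
        Matrix.diagonal (fun k => ((d k : ℕ) : ℂ)) * Matrix.of fun k s => D.Tr (α k) (ω₀ s) := by
      ext k s
      rw [Matrix.diagonal_mul]
      rfl
    rw [h2, h5, Matrix.det_mul, Matrix.det_diagonal, ← h1, Matrix.det_mul]
    ring
  · rw [map_mul, map_inv₀, map_prod]
    simp only [hd1, Finset.prod_const_one, inv_one, mul_one]
    have h1 : IsIntegral ℤ (algebraMap F Ω ((Y.det : 𝓞 F) : F)) :=
      map_isIntegral_int (algebraMap F Ω) (Y.det).2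
    have h3 : IsIntegral V (algebraMap F Ω ((Y.det : 𝓞 F) : F)) := h1.tower_top
    obtain ⟨t, ht⟩ := IsIntegrallyClosed.isIntegral_iff.1 h3
    rw [← ht]
    exact V.valuation_le_one t

/-- The p-adic shape of the values, arbitrary K, coordinates in a basis of O_K over O_F. -/
theorem ldH_fn2 {A B : F} {Om : ℂ} {Ω : Type} [Field Ω] [DecidableEq Ω]
    [Algebra F Ω] [IsAlgClosure F Ω] {j : Ω →+* ℂ} {act : 𝓞 F →+* AddMonoid.End (Pt (WAB A B) Ω)}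
    {mm : Ideal (𝓞 F)} {ψ : Ideal (𝓞 F) →*₀ 𝓞 F} {p : ℕ} [Fact p.Prime] (d : Dta A B Om j act mm ψ p)
    (V : ValuationSubring Ω) (hV : V.valuation (p : Ω) < 1)
    (i : Ω →+* ℂ_[p]) (T : ℕ → Pt (WAB A B) Ω) (L : LTF F ℂ_[p]) (hL : LocM A B Om j act p V i T L)
    {K : Type} [Field K] [NumberField K] [Algebra F K] {m N : ℕ}
    (ω₀ : Fin (m + 1) → 𝓞 K) (co : 𝓞 K → Fin (m + 1) → 𝓞 F)
    (hco : ∀ x, ∃ t : 𝓞 K, x = ∑ s, algebraMap (𝓞 F) (𝓞 K) (co x s) * ω₀ s + (p : 𝓞 K) ^ N * t)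
    {l : 𝓞 F} (hl : Prime l) (hlp : IsCoprime l (p : 𝓞 F)) (D : H55P.Ctx F K m) (hD : D.Ok) (S : LD D l (p ^ N)) (hS : S.Ok)
    (hA : ∀ k, TInt (F := F) p (S.A k)) (hN : 1 ≤ N) :
    ∃ (h : 𝓞 K → Ω) (H' : (Fin (m + 1) → 𝓞 F) → ℂ_[p]), (∀ a ∈ D.X, j (h a) = (Matrix.of fun i s => D.σ i (ω₀ s : K)).det * S.H a / Om ^ (m + 1)) ∧
      L.Fn N (Fin (m + 1)) H' ∧ ∀ a ∈ D.X, i (h a) = H' (co a) := by
  classical
  have hp := (Fact.out : p.Prime)
  have hac : IsAlgClosed Ω := IsAlgClosure.isAlgClosed F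
  have hip : ‖(p : ℂ_[p])‖ < 1 := by
    have h1 := (loc_lt hL (p : Ω)).1 hV
    rwa [map_natCast] at h1
  have hiM : ‖(S.M : ℂ_[p])‖ = 1 := by
    refine le_antisymm (a7_nat S.M) ?_
    by_contra hlt
    push Not at hlt
    have h1 : ((S.e₁ : ℂ_[p])) * S.M + S.e₂ * (p : ℂ_[p]) ^ N = 1 := by exact_mod_cast congrArg (Int.cast (R := ℂ_[p])) hS.bez
    have h2 : ‖((S.e₁ : ℂ_[p])) * S.M + S.e₂ * (p : ℂ_[p]) ^ N‖ < 1 := by
      refine (IsUltrametricDist.norm_add_le_max _ _).trans_lt (max_lt ?_ ?_)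
      · rw [norm_mul]
        exact (mul_le_of_le_one_left (norm_nonneg _) (IsUltrametricDist.norm_intCast_le_one _ _)).trans_lt hlt
      · rw [norm_mul, norm_pow]
        exact (mul_le_of_le_one_left (pow_nonneg (norm_nonneg _) _) (IsUltrametricDist.norm_intCast_le_one _ _)).trans_lt
          (pow_lt_one₀ (norm_nonneg _) hip (by omega))
    rw [h1, NormOneClass.norm_one] at h2
    exact lt_irrefl _ h2
  have hpM : ¬ p ∣ S.M := by
    rintro ⟨c, hc⟩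
    rw [hc, Nat.cast_mul, norm_mul] at hiM
    have h1 : ‖(p : ℂ_[p])‖ * ‖(c : ℂ_[p])‖ < 1 :=
      (mul_le_of_le_one_right (norm_nonneg _) (a7_nat c)).trans_lt hip
    exact h1.ne hiM
  have hle2 : ¬ l ∣ (S.e₂ : 𝓞 F) := by
    intro h1
    apply hl.not_isUnit
    rw [isUnit_iff_dvd_one]
    have h2 : ((S.e₁ : 𝓞 F)) * S.M + S.e₂ * (p : 𝓞 F) ^ N = 1 := by exact_mod_cast congrArg (Int.cast (R := 𝓞 F)) hS.bez
    rw [← h2]
    exact dvd_add (Dvd.dvd.mul_left hS.lM _) (Dvd.dvd.mul_right h1 _)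
  -- the traces
  have hone : ∀ (x : 𝓞 K) (k : Fin (m + 1)), ∃ y : 𝓞 F, x ∈ D.X → D.Tr (S.A k) x = eF F (1 + l * y) := by
    intro x k
    by_cases hx : x ∈ D.X
    · obtain ⟨y, hy⟩ := hS.dir.one x hx k
      exact ⟨y, fun _ => hy⟩
    · exact ⟨0, fun h => absurd h hx⟩
  choose yy hyy using hone
  have hdd : ∀ (k : Fin (m + 1)) (s : Fin 2), ∃ y : 𝓞 F, S.d k s = eF F (l * y) := fun k s =>
    dirN_tr D l (2 * p ^ N) S.A S.w' hS.dir (S.w' (k, s)) (hS.dir.mem _) k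
  choose dd hdd using hdd
  choose c hc using fun k => lin_form2 (N := N) D hD.emb hp ω₀ co hco (hA k)
  let τ : 𝓞 K → Fin (m + 1) → 𝓞 F := fun β k => S.e₂ * (1 + l * yy β k) - l * dd k 0 - l * dd k 1
  have hτ : ∀ β k, ¬ l ∣ τ β k := by
    intro β k h1
    apply hle2
    have h2 : (S.e₂ : 𝓞 F) = τ β k - l * (S.e₂ * yy β k - dd k 0 - dd k 1) := by
      show _ = (S.e₂ * (1 + l * yy β k) - l * dd k 0 - l * dd k 1) - l * (S.e₂ * yy β k - dd k 0 - dd k 1)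
      ring
    rw [h2]
    exact dvd_sub h1 (Dvd.intro _ rfl)
  have hGV := d.good V hV
  have htp := fun β k => term_fn d.cma hGV hV hL N (ι := Fin (m + 1)) (fun s => (-1) ^ N * (S.e₁ : 𝓞 F) * c k s) (δ := l * (dd k 0 + dd k 1))
    hS.ne hpM hl hlp hS.lM (Dvd.intro _ rfl) (hτ β k)
  have htm := fun β k => term_fn d.cma hGV hV hL N (ι := Fin (m + 1)) (fun s => (-1) ^ N * (S.e₁ : 𝓞 F) * c k s) (δ := l * (dd k 0 - dd k 1))
    hS.ne hpM hl hlp hS.lM (Dvd.intro _ rfl) (hτ β k)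
  choose hhp hp1 hp2 using htp
  choose hhm hm1 hm2 using htm
  obtain ⟨ω, hω, hω'⟩ := det2 d.cma V hV D hD.emb ω₀ S.A hA
  have hiω : ‖i ω‖ ≤ 1 := (loc_le hL _).1 hω'
  have hs := hL.ok.small
  refine ⟨fun a => ω * ∑ β ∈ S.B, (S.G β : Ω) * ∏ k, ((S.M : Ω)⁻¹ * (hhp β k (co a) - hhm β k (co a))),
    fun b => i ω * ∑ β ∈ S.B, (S.G β : ℂ_[p]) * ∏ k, ((S.M : ℂ_[p])⁻¹ * (i (hhp β k b) - i (hhm β k b))), ?_, ?_, ?_⟩
  · intro a ha
    -- the torsion points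
    have hz : ∀ β ∈ S.B, ∀ k, ∃ w ∈ (LF F).lattice, S.z a β k =
        (eF F (∑ s, (-1) ^ N * (S.e₁ : 𝓞 F) * c k s * co a s) / (-(p : ℂ)) ^ N + eF F (τ β k) / S.M) + w := by
      intro β hβ k
      obtain ⟨t, ht⟩ := hc k a _ (hyy a k ha)
      refine ⟨eF F (S.e₁ * t), (mem_LF _).2 ⟨_, rfl⟩, ?_⟩
      have hp0 : (p : ℂ) ≠ 0 := Nat.cast_ne_zero.2 hp.ne_zero
      have h1 : D.Tr (S.A k) a = eF F (∑ s, c k s * co a s) + (p : ℂ) ^ N * eF F t := by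
        rw [hyy a k ha, ← map_natCast (eF F) p, ← map_pow, ← map_mul, ← map_add]
        congr 1
        rw [← ht]
        ring
      have h2 : eF F (∑ s, (-1) ^ N * (S.e₁ : 𝓞 F) * c k s * co a s) =
          (-1) ^ N * S.e₁ * eF F (∑ s, c k s * co a s) := by
        have h3 : ∑ s, (-1) ^ N * (S.e₁ : 𝓞 F) * c k s * co a s = (-1) ^ N * (S.e₁ : 𝓞 F) * ∑ s, c k s * co a s := by
          rw [Finset.mul_sum]
          refine Finset.sum_congr rfl fun s _ => ?_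
          ring
        rw [h3, map_mul, map_mul, map_pow, map_neg, map_one, map_intCast]
      have h4 : S.e₂ * D.Tr (S.A k) β - S.d k 0 - S.d k 1 = eF F (τ β k) := by
        rw [hyy β k (hS.rep.sub β hβ), hdd, hdd]
        show _ = eF F (S.e₂ * (1 + l * yy β k) - l * dd k 0 - l * dd k 1)
        rw [map_sub, map_sub, map_mul (eF F) (S.e₂ : 𝓞 F), map_intCast]
      unfold LD.z
      rw [h4, h1, h2, map_mul, map_intCast]
      have h5 : (-(p : ℂ)) ^ N = (-1) ^ N * (p : ℂ) ^ N := by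
        rw [← mul_pow, neg_one_mul]
      have h6 : ((-1 : ℂ)) ^ N ≠ 0 := pow_ne_zero _ (by norm_num)
      rw [h5]
      push_cast
      field_simp
      ring
    have hd1 : ∀ k, (S.d k 0 + S.d k 1) / S.M = eF F (l * (dd k 0 + dd k 1)) / (S.M : ℂ) := fun k => by
      rw [hdd, hdd, ← map_add, mul_add]
    have hd2 : ∀ k, (S.d k 0 - S.d k 1) / S.M = eF F (l * (dd k 0 - dd k 1)) / (S.M : ℂ) := fun k => by
      rw [hdd, hdd, ← map_sub, mul_sub]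
    rw [map_mul, hω, map_sum, LD.H, ← mul_assoc, mul_div_assoc, Finset.sum_div]
    congr 1
    refine Finset.sum_congr rfl fun β hβ => ?_
    rw [map_mul, map_intCast, map_prod, mul_div_assoc]
    congr 1
    have h7 : Om ^ (m + 1) = ∏ _k : Fin (m + 1), Om := by
      rw [Finset.prod_const, Finset.card_univ, Fintype.card_fin]
    rw [h7, ← Finset.prod_div_distrib]
    refine Finset.prod_congr rfl fun k _ => ?_
    obtain ⟨w, hw, hz⟩ := hz β hβ k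
    rw [map_mul, map_inv₀, map_natCast, map_sub, hp1, hm1, hz, T2_perz _ _ _ hw, T2_perz _ _ _ hw, hd1, hd2]
    ring
  · refine Fn_scal hs hiω (Fn_sum _ fun β _ => Fn_scal hs (IsUltrametricDist.norm_intCast_le_one _ _) (Fn_prod hs _ fun k _ =>
      Fn_scal hs ?_ (Fn_sub (hp2 β k) (hm2 β k))))
    rw [norm_inv, hiM, inv_one]
  · intro a ha
    simp only [map_mul, map_sum, map_prod, map_intCast, map_inv₀, map_natCast, map_sub]

end SSG.V
end

-- from Lib.SSG.V.V8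
section

/-! # SSG, part V: one class, arbitrary K, p inert, coordinates of the user's choice -/

open NumberField IsDedekindDomain

namespace SSG.V

open H55N H55P SSG.E
open H35P (WAB Ker tt)
open H55K (CMA Dta)

variable {F : Type} [Field F] [NumberField F] [IQ F]

/-- The square of the determinant of the conjugates is the discriminant. -/
theorem det_sq {K : Type} [Field K] [NumberField K] [Algebra F K] {m : ℕ} {σ : Fin (m + 1) → K →+* ℂ} (hE : Emb F σ)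
    (ω₀ : Fin (m + 1) → 𝓞 K) : (Matrix.of fun i s => σ i (ω₀ s : K)).det ^ 2 =
      embF F (Algebra.discr F fun s => (ω₀ s : K)) := by
  rw [Algebra.discr_def, RingHom.map_det, sq]
  nth_rewrite 1 [← Matrix.det_transpose]
  rw [← Matrix.det_mul]
  congr 1
  ext s t
  rw [Matrix.mul_apply, RingHom.mapMatrix_apply, Matrix.map_apply, Algebra.traceMatrix_apply, Algebra.traceForm_apply,
    ← trace_eq hE]
  refine Finset.sum_congr rfl fun i _ => ?_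
  rw [map_mul]
  rfl

/-- One class, arbitrary K, p inert in F: ω₀ is a family of integers of K (a basis modulo p, say), co x the coordinates modulo p^N. -/
theorem classw2 (p : ℕ) [Fact p.Prime] {M : Ideal (𝓞 F)} {l : 𝓞 F} (hM : Mod p M l)
    (K : Type) [Field K] [NumberField K] [Algebra F K] (m : ℕ)
    (hm : Module.finrank F K = m + 1) (b f : Ideal (𝓞 K)) (hb : b ≠ ⊥)
    (hbp : IsCoprime b (Ideal.span {(p : 𝓞 K)})) (hf : f ≠ ⊥)
    (hfp : IsCoprime f (Ideal.span {(p : 𝓞 K)}))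
    (c₀ : 𝓞 K) (hc : c₀ ∈ b) (hc' : c₀ ∉ Ideal.span {algebraMap (𝓞 F) (𝓞 K) l} * b) (N : ℕ) (hN : 1 ≤ N) :
    ∃ Bad : Set (Ideal (𝓞 K)), Bad.Finite ∧
      ∀ (c : Fin (m + 1) × Fin 2 → Ideal (𝓞 K)) (q : Fin (m + 1) × Fin 2 → ℕ), Smooth c q →
        (∀ i, c i ∉ Bad) → ∃ val : 𝓞 K → ℂ,
          (∀ φ : 𝓞 K → ℂ, WtJ (mK K M * f) (mK K M * f * b) c₀ (p ^ N) φ → ∃ Z : ℂ → ℂ, AnalyticOnNhd ℂ Z {s | 1 / 2 < s.re} ∧
            (∀ T : Set (𝓞 K), Transv (mK K M * f) (XS (mK K M * f * b) c₀) T →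
              ∀ s : ℂ, 3 / 2 < s.re → HasSum (fun x : T => φ x * (gw c q x * nf F s (x : 𝓞 K))) (Z s)) ∧
            ∀ R : Finset (𝓞 K), RpU (mK K M * f * b) c₀ (p ^ N) R →
              Z 1 = (((p : ℂ) ^ N)⁻¹) ^ (m + 1) * ∑ a ∈ R, φ a * val a) ∧
          ∀ (A B : F) (Om : ℂ) (Ω : Type) [Field Ω] [DecidableEq Ω] [Algebra F Ω] [IsAlgClosure F Ω] (j : Ω →+* ℂ)
            (act : 𝓞 F →+* AddMonoid.End (Pt (WAB A B) Ω)) (mm : Ideal (𝓞 F)) (ψ : Ideal (𝓞 F) →*₀ 𝓞 F),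
            Dta A B Om j act mm ψ p →
            ∀ (V : ValuationSubring Ω) (i : Ω →+* ℂ_[p]) (T : ℕ → Pt (WAB A B) Ω) (L : LTF F ℂ_[p]),
              V.valuation (p : Ω) < 1 → LocM A B Om j act p V i T L →
            ∀ (ω₀ : Fin (m + 1) → 𝓞 K) (co : 𝓞 K → Fin (m + 1) → 𝓞 F),
              (∀ x, ∃ t : 𝓞 K, x = ∑ s, algebraMap (𝓞 F) (𝓞 K) (co x s) * ω₀ s + (p : 𝓞 K) ^ N * t) →
            ∀ δ : ℂ, δ ^ 2 = embF F (Algebra.discr F fun s => (ω₀ s : K)) →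
            ∃ (h : 𝓞 K → Ω) (H' : (Fin (m + 1) → 𝓞 F) → ℂ_[p]),
              (∀ a ∈ XS (mK K M * f * b) c₀, j (h a) = δ * val a / Om ^ (m + 1)) ∧
              L.Fn N (Fin (m + 1)) H' ∧ ∀ a ∈ XS (mK K M * f * b) c₀, i (h a) = H' (co a) := by
  classical
  have hp : p.Prime := Fact.out
  obtain ⟨Bad, hBad, hcore⟩ :=
    corew2 p hp hM K m hm b f hb hbp hf hfp c₀ hc hc' (p ^ N) ⟨N, rfl⟩
  refine ⟨Bad, hBad, fun c q hs hbad => ?_⟩
  obtain ⟨σ, ν, ix, hix, sg, S, hσ, hν, hS, hA, -, hZ⟩ := hcore c q hs hbad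
  refine ⟨fun a => (ν : ℂ)⁻¹ * ∑ jx, (sg jx : ℂ) * (S jx).H a, ?_, ?_⟩
  · intro φ hφ
    obtain ⟨Z, h1, h2, h3⟩ := hZ φ hφ
    refine ⟨Z, h1, h2, fun R hR => ?_⟩
    rw [h3 R hR, Finset.mul_sum, Finset.mul_sum]
    refine Finset.sum_congr rfl fun a _ => ?_
    push_cast
    ring
  · intro A B Om Ω _ _ _ _ j act mm ψ hd V i T L hV hL ω₀ co hco δ hδ
    have hle : mK K M * f * b ≤ Ideal.span {algebraMap (𝓞 F) (𝓞 K) l} * b :=
      Ideal.mul_mono_left (Ideal.mul_le_left.trans (pc_mK hM.le))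
    have hD : (⟨σ, mK K M * f * b, c₀, c, q⟩ : H55P.Ctx F K m).Ok := ⟨hσ, fun h => hc' (hle h), hs⟩
    have hk := fun jx => ldH_fn2 hd V hV i T L hL ω₀ co hco hM.prime (pc_cop hM)
      (⟨σ, mK K M * f * b, c₀, c, q⟩ : H55P.Ctx F K m) hD (S jx) (hS jx) (hA jx) hN
    choose h H' h1 h2 h3 using hk
    obtain ⟨ep, hep, hep1⟩ : ∃ ep : ℤ, δ = ep * (Matrix.of fun i s => σ i (ω₀ s : K)).det ∧ (ep = 1 ∨ ep = -1) := by
      rcases sq_eq_sq_iff_eq_or_eq_neg.1 (hδ.trans (det_sq hσ ω₀).symm) with h | h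
      · exact ⟨1, by rw [h]; push_cast; ring, Or.inl rfl⟩
      · exact ⟨-1, by rw [h]; push_cast; ring, Or.inr rfl⟩
    refine ⟨fun a => ((ep : ℤ) : Ω) * ((ν : Ω)⁻¹ * ∑ jx, (sg jx : Ω) * h jx a),
      fun a => i ((ep : ℤ) : Ω) * (i ((ν : Ω)⁻¹) * ∑ jx, i (sg jx : Ω) * H' jx a), ?_, ?_, ?_⟩
    · intro a ha
      have e1 : ∀ jx, j (h jx a) = (Matrix.of fun i s => σ i (ω₀ s : K)).det * ((S jx).H a / Om ^ (m + 1)) := fun jx => by
        rw [h1 jx a ha, mul_div_assoc]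
      rw [map_mul, map_mul, map_inv₀, map_natCast, map_sum, map_intCast, hep]
      have e2 : ∑ jx, j ((sg jx : Ω) * h jx a) = (Matrix.of fun i s => σ i (ω₀ s : K)).det *
          ((∑ jx, (sg jx : ℂ) * (S jx).H a) / Om ^ (m + 1)) := by
        rw [Finset.sum_div, Finset.mul_sum]
        refine Finset.sum_congr rfl fun jx _ => ?_
        rw [map_mul, map_intCast, e1]
        ring
      rw [e2]
      ring
    · refine clw_mul (clw_mul (clw_sum _ _ fun jx => clw_mul (h2 jx) _ ?_) _ ?_) _ ?_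
      · exact (hL.val _).1 (intCast_mem V.toSubring (sg jx))
      · exact (hL.val _).1 (clw_val V hV ν hν)
      · exact (hL.val _).1 (intCast_mem V.toSubring ep)
    · intro a ha
      have e1 : ∀ jx, i (h jx a) = H' jx (co a) := fun jx => h3 jx a ha
      rw [map_mul, map_mul, map_sum]
      congr 2
      refine Finset.sum_congr rfl fun jx _ => ?_
      rw [map_mul, e1]

end SSG.V
end

-- from Lib.SSG.V.V12
section

/-! # SSG, part V: the p-adic shape of the values at a prime π of degree one, arbitrary K -/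

open NumberField IsDedekindDomain

namespace SSG.V

open SSG H55N H55P SSG.E
open H35P (WAB Ker tt)
open H55K (CMA Dta GV ak)

variable {F : Type} [Field F] [NumberField F] [IQ F]

/-- The linear form of an element with p-integral traces. -/
theorem tint_lin {K : Type} [Field K] [NumberField K] [Algebra F K] {p : ℕ} {α : K} (hα : TInt (F := F) p α) :
    ∃ (d : ℕ) (Y : 𝓞 K → 𝓞 F), ¬ p ∣ d ∧ (∀ x x', Y (x + x') = Y x + Y x') ∧
      (∀ (c : 𝓞 F) x, Y (algebraMap (𝓞 F) (𝓞 K) c * x) = c * Y x) ∧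
      ∀ (x : 𝓞 K) (y : 𝓞 F), Algebra.trace F K ((x : K) * α) = (y : F) → (d : 𝓞 F) * y = Y x := by
  obtain ⟨d, hd, hd'⟩ := hα
  choose Y hY using hd'
  refine ⟨d, Y, hd, fun x x' => ?_, fun c x => ?_, fun x y hy => ?_⟩
  · apply RingOfIntegers.coe_injective
    show (Y (x + x') : F) = (Y x : F) + (Y x' : F)
    have h1 := hY (x + x')
    rw [L2F_coe_add, add_mul, map_add, hY, hY] at h1
    exact h1.symm
  · apply RingOfIntegers.coe_injective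
    show (Y (algebraMap (𝓞 F) (𝓞 K) c * x) : F) = (c : F) * (Y x : F)
    have h1 := hY (algebraMap (𝓞 F) (𝓞 K) c * x)
    rw [L2F_coe_mul, mul_assoc, L2F_trace_mul, hY] at h1
    exact h1.symm
  · apply RingOfIntegers.coe_injective
    have h4 : (x : K) * ((d : K) * α) = (d : F) • ((x : K) * α) := by
      rw [Algebra.smul_def, map_natCast]
      ring
    have h1 := hY x
    rw [h4, map_smul, hy, smul_eq_mul] at h1
    rw [← h1, map_mul, map_natCast]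

theorem bez_nat {p d : ℕ} (hp : p.Prime) (hd : ¬ p ∣ d) (N : ℕ) : ∃ a b : 𝓞 F, a * d + b * (p : 𝓞 F) ^ N = 1 := by
  have hcop : IsCoprime (d : ℤ) ((p : ℤ) ^ N) :=
    (Nat.isCoprime_iff_coprime.2 (((Nat.Prime.coprime_iff_not_dvd hp).2 hd).symm)).pow_right
  obtain ⟨a, b, hab⟩ := hcop
  exact ⟨a, b, by exact_mod_cast congrArg (Int.cast (R := 𝓞 F)) hab⟩

theorem lin_formR {K : Type} [Field K] [NumberField K] [Algebra F K] {m N : ℕ} {p : ℕ} (D : Ctx F K m) (hE : Emb F D.σ)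
    (hp : p.Prime) {π : 𝓞 F} (hπ : π ∣ (p : 𝓞 F)) (ω₀ : Fin (m + 1) → 𝓞 K) (co : 𝓞 K → Fin (m + 1) → 𝓞 F)
    (hco : ∀ x, ∃ t : 𝓞 K, x = ∑ s, algebraMap (𝓞 F) (𝓞 K) (co x s) * ω₀ s + algebraMap (𝓞 F) (𝓞 K) (π ^ N) * t) {α : K}
    (hα : TInt (F := F) p α) :
    ∃ c : Fin (m + 1) → 𝓞 F, ∀ (x : 𝓞 K) (y : 𝓞 F), D.Tr α x = eF F y →
      π ^ N ∣ y - ∑ k, c k * co x k := by
  obtain ⟨d, Y, hd, hadd, hsm, hY⟩ := tint_lin hα
  obtain ⟨a, b, hab⟩ := bez_nat (F := F) hp hd N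
  obtain ⟨e, he⟩ : π ^ N ∣ (p : 𝓞 F) ^ N := pow_dvd_pow_of_dvd hπ N
  refine ⟨fun s => a * Y (ω₀ s), fun x y hxy => ?_⟩
  obtain ⟨t, ht⟩ := hco x
  have h2 : Algebra.trace F K ((x : K) * α) = (y : F) := by
    apply (embF F).injective
    rw [← Tr_eq D hE, hxy]
    rfl
  have h3 := hY x y h2
  have hsum : ∀ s : Finset (Fin (m + 1)), Y (∑ k ∈ s, algebraMap (𝓞 F) (𝓞 K) (co x k) * ω₀ k) = ∑ k ∈ s, co x k * Y (ω₀ k) := by
    classical
    intro s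
    induction s using Finset.induction_on with
    | empty =>
      rw [Finset.sum_empty, Finset.sum_empty]
      have := hsm 0 0
      rwa [mul_zero, zero_mul] at this
    | insert k s hk ih => rw [Finset.sum_insert hk, Finset.sum_insert hk, hadd, hsm, ih]
  have h4 : Y x = ∑ k, co x k * Y (ω₀ k) + π ^ N * Y t := by
    conv_lhs => rw [ht]
    rw [hadd, hsm, hsum]
  have h6 : ∑ k, a * Y (ω₀ k) * co x k = a * ∑ k, co x k * Y (ω₀ k) := by
    rw [Finset.mul_sum]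
    refine Finset.sum_congr rfl fun s _ => by ring
  rw [h6]
  exact ⟨b * e * y + a * Y t, by linear_combination (-y) * hab + a * h3 + a * h4 + b * y * he⟩

theorem lin_cong {K : Type} [Field K] [NumberField K] [Algebra F K] {m N : ℕ} {p : ℕ} (D : Ctx F K m) (hE : Emb F D.σ)
    (hp : p.Prime) {ρ : 𝓞 F} (hρ : ρ ∣ (p : 𝓞 F)) {α : K} (hα : TInt (F := F) p α) {x x' : 𝓞 K} {y y' : 𝓞 F}
    (hy : D.Tr α x = eF F y) (hy' : D.Tr α x' = eF F y') (hxx : algebraMap (𝓞 F) (𝓞 K) (ρ ^ N) ∣ x - x') :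
    ρ ^ N ∣ y - y' := by
  obtain ⟨d, Y, hd, hadd, hsm, hY⟩ := tint_lin hα
  obtain ⟨a, b, hab⟩ := bez_nat (F := F) hp hd N
  obtain ⟨e, he⟩ : ρ ^ N ∣ (p : 𝓞 F) ^ N := pow_dvd_pow_of_dvd hρ N
  obtain ⟨t, ht⟩ := hxx
  have h1 : ∀ {x : 𝓞 K} {y : 𝓞 F}, D.Tr α x = eF F y → (d : 𝓞 F) * y = Y x := fun {x y} h => by
    refine hY x y ?_
    apply (embF F).injective
    rw [← Tr_eq D hE, h]
    rfl
  have h2 := h1 hy
  have h3 := h1 hy'
  have h4 : Y x = ρ ^ N * Y t + Y x' := by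
    rw [← hsm, ← hadd, ← ht, sub_add_cancel]
  exact ⟨a * Y t + b * e * (y - y'), by linear_combination (-(y - y')) * hab + a * h2 - a * h3 + a * h4 + b * (y - y') * he⟩

/-- One class of a modulo ρ^N. -/
theorem ldH_clsR {A B : F} {Om : ℂ} {Ω : Type} [Field Ω] [DecidableEq Ω]
    [Algebra F Ω] [IsAlgClosure F Ω] {j : Ω →+* ℂ} {act : 𝓞 F →+* AddMonoid.End (Pt (WAB A B) Ω)}
    {mm : Ideal (𝓞 F)} {ψ : Ideal (𝓞 F) →*₀ 𝓞 F} {p : ℕ} [Fact p.Prime] (d : Dta A B Om j act mm ψ p)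
    {π ρ : 𝓞 F} (hpr : (p : 𝓞 F) = π * ρ) (hcop : IsCoprime π ρ)
    (V : ValuationSubring Ω) (hV : V.valuation (ak Ω π) < 1)
    (i : Ω →+* ℂ_[p]) (T : ℕ → Pt (WAB A B) Ω) (hL : LocR A B Om j act p π V i T)
    {K : Type} [Field K] [NumberField K] [Algebra F K] {m N : ℕ}
    (ω₀ : Fin (m + 1) → 𝓞 K) (co : 𝓞 K → Fin (m + 1) → 𝓞 F)
    (hco : ∀ x, ∃ t : 𝓞 K, x = ∑ s, algebraMap (𝓞 F) (𝓞 K) (co x s) * ω₀ s + algebraMap (𝓞 F) (𝓞 K) (π ^ N) * t)
    {l : 𝓞 F} (hl : Prime l) (hlp : IsCoprime l (p : 𝓞 F)) (D : H55P.Ctx F K m) (hD : D.Ok) (S : LD D l (p ^ N)) (hS : S.Ok)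
    (hA : ∀ k, TInt (F := F) p (S.A k)) (hN : 1 ≤ N) (a₀ : 𝓞 K) (ha₀ : a₀ ∈ D.X) :
    ∃ hf : (Fin (m + 1) → 𝓞 F) → Ω, (∀ a ∈ D.X, algebraMap (𝓞 F) (𝓞 K) (ρ ^ N) ∣ a - a₀ →
        j (hf (co a)) = (Matrix.of fun i s => D.σ i (ω₀ s : K)).det * S.H a / Om ^ (m + 1)) ∧
      (LR act i T).Fn N (Fin (m + 1)) fun b => i (hf b) := by
  classical
  have hp := (Fact.out : p.Prime)
  have hac : IsAlgClosed Ω := IsAlgClosure.isAlgClosed F
  have hmul : ∀ x y : 𝓞 F, ak Ω (x * y) = ak Ω x * ak Ω y := fun x y => by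
    show algebraMap F Ω (algebraMap (𝓞 F) F (x * y)) = _
    rw [map_mul, map_mul]
  have hadd : ∀ x y : 𝓞 F, ak Ω (x + y) = ak Ω x + ak Ω y := fun x y => by
    show algebraMap F Ω (algebraMap (𝓞 F) F (x + y)) = _
    rw [map_add, map_add]
  have hnat : ∀ n : ℕ, ak Ω (n : 𝓞 F) = (n : Ω) := fun n => by
    show algebraMap F Ω (algebraMap (𝓞 F) F (n : 𝓞 F)) = _
    rw [map_natCast, map_natCast]
  have hone : ak Ω (1 : 𝓞 F) = 1 := by
    have := hnat 1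
    rwa [Nat.cast_one, Nat.cast_one] at this
  have hint : ∀ x : 𝓞 F, V.valuation (ak Ω x) ≤ 1 := fun x => by
    have h1 : IsIntegral ℤ (ak Ω x) := map_isIntegral_int (algebraMap F Ω) x.2
    have h3 : IsIntegral V (ak Ω x) := h1.tower_top
    obtain ⟨t, ht⟩ := IsIntegrallyClosed.isIntegral_iff.1 h3
    rw [← ht]
    exact V.valuation_le_one t
  have hVp : V.valuation (p : Ω) < 1 := by
    rw [← hnat, hpr, hmul, map_mul]
    exact (mul_le_of_le_one_right' (hint ρ)).trans_lt hV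
  have hVρ : V.valuation (ak Ω ρ) = 1 := by
    refine le_antisymm (hint ρ) ?_
    by_contra hlt
    push Not at hlt
    obtain ⟨x, y, hxy⟩ := hcop
    have h1 : V.valuation (ak Ω (x * π + y * ρ)) < 1 := by
      rw [hadd, hmul, hmul]
      refine V.valuation.map_add_lt ?_ ?_
      · rw [map_mul]
        exact (mul_le_of_le_one_left' (hint x)).trans_lt hV
      · rw [map_mul]
        exact (mul_le_of_le_one_left' (hint y)).trans_lt hlt
    rw [hxy, hone, map_one] at h1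
    exact lt_irrefl _ h1
  have hip : ‖(p : ℂ_[p])‖ < 1 := by
    have h1 := (loc_ltR hL (p : Ω)).1 hVp
    rwa [map_natCast] at h1
  have hiM : ‖(S.M : ℂ_[p])‖ = 1 := by
    refine le_antisymm (a7_nat S.M) ?_
    by_contra hlt
    push Not at hlt
    have h1 : ((S.e₁ : ℂ_[p])) * S.M + S.e₂ * (p : ℂ_[p]) ^ N = 1 := by exact_mod_cast congrArg (Int.cast (R := ℂ_[p])) hS.bez
    have h2 : ‖((S.e₁ : ℂ_[p])) * S.M + S.e₂ * (p : ℂ_[p]) ^ N‖ < 1 := by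
      refine (IsUltrametricDist.norm_add_le_max _ _).trans_lt (max_lt ?_ ?_)
      · rw [norm_mul]
        exact (mul_le_of_le_one_left (norm_nonneg _) (IsUltrametricDist.norm_intCast_le_one _ _)).trans_lt hlt
      · rw [norm_mul, norm_pow]
        exact (mul_le_of_le_one_left (pow_nonneg (norm_nonneg _) _) (IsUltrametricDist.norm_intCast_le_one _ _)).trans_lt
          (pow_lt_one₀ (norm_nonneg _) hip (by omega))
    rw [h1, NormOneClass.norm_one] at h2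
    exact lt_irrefl _ h2
  have hpM : ¬ p ∣ S.M := by
    rintro ⟨c, hc⟩
    rw [hc, Nat.cast_mul, norm_mul] at hiM
    have h1 : ‖(p : ℂ_[p])‖ * ‖(c : ℂ_[p])‖ < 1 :=
      (mul_le_of_le_one_right (norm_nonneg _) (a7_nat c)).trans_lt hip
    exact h1.ne hiM
  have hle2 : ¬ l ∣ (S.e₂ : 𝓞 F) := by
    intro h1
    apply hl.not_isUnit
    rw [isUnit_iff_dvd_one]
    have h2 : ((S.e₁ : 𝓞 F)) * S.M + S.e₂ * (p : 𝓞 F) ^ N = 1 := by exact_mod_cast congrArg (Int.cast (R := 𝓞 F)) hS.bez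
    rw [← h2]
    exact dvd_add (Dvd.dvd.mul_left hS.lM _) (Dvd.dvd.mul_right h1 _)
  have hlπ : ¬ l ∣ π := fun h1 => hl.not_isUnit (hlp.isUnit_of_dvd' dvd_rfl (hpr ▸ Dvd.dvd.mul_right h1 ρ))
  have hlρ : ¬ l ∣ ρ ^ N := fun h1 => hl.not_isUnit (hlp.isUnit_of_dvd' dvd_rfl
    (hpr ▸ Dvd.dvd.mul_left (hl.dvd_of_dvd_pow h1) π))
  -- the traces
  have hone : ∀ (x : 𝓞 K) (k : Fin (m + 1)), ∃ y : 𝓞 F, x ∈ D.X → D.Tr (S.A k) x = eF F (1 + l * y) := by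
    intro x k
    by_cases hx : x ∈ D.X
    · obtain ⟨y, hy⟩ := hS.dir.one x hx k
      exact ⟨y, fun _ => hy⟩
    · exact ⟨0, fun h => absurd h hx⟩
  choose yy hyy using hone
  have hdd : ∀ (k : Fin (m + 1)) (s : Fin 2), ∃ y : 𝓞 F, S.d k s = eF F (l * y) := fun k s =>
    dirN_tr D l (2 * p ^ N) S.A S.w' hS.dir (S.w' (k, s)) (hS.dir.mem _) k
  choose dd hdd using hdd
  choose c hc using fun k => lin_formR (N := N) D hD.emb hp (hpr ▸ dvd_mul_right π ρ : π ∣ (p : 𝓞 F)) ω₀ co hco (hA k)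
  obtain ⟨u, v, huv⟩ : ∃ u v : 𝓞 F, u * π ^ N + v * ρ ^ N = 1 := hcop.pow
  let τ₀ : 𝓞 K → Fin (m + 1) → 𝓞 F := fun β k => S.e₂ * (1 + l * yy β k) - l * dd k 0 - l * dd k 1
  let τ : 𝓞 K → Fin (m + 1) → 𝓞 F := fun β k => τ₀ β k * ρ ^ N + S.M * (u * S.e₁ * (1 + l * yy a₀ k))
  have hτ₀ : ∀ β k, ¬ l ∣ τ₀ β k := by
    intro β k h1
    apply hle2
    have h2 : (S.e₂ : 𝓞 F) = τ₀ β k - l * (S.e₂ * yy β k - dd k 0 - dd k 1) := by
      show _ = (S.e₂ * (1 + l * yy β k) - l * dd k 0 - l * dd k 1) - l * (S.e₂ * yy β k - dd k 0 - dd k 1)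
      ring
    rw [h2]
    exact dvd_sub h1 (Dvd.intro _ rfl)
  have hτ : ∀ β k, ¬ l ∣ τ β k := by
    intro β k h1
    have h2 : l ∣ τ₀ β k * ρ ^ N := by
      have h3 : τ₀ β k * ρ ^ N = τ β k - S.M * (u * S.e₁ * (1 + l * yy a₀ k)) := by
        show _ = (τ₀ β k * ρ ^ N + S.M * (u * S.e₁ * (1 + l * yy a₀ k))) - S.M * (u * S.e₁ * (1 + l * yy a₀ k))
        ring
      rw [h3]
      exact dvd_sub h1 (hS.lM.mul_right _)
    rcases hl.dvd_or_dvd h2 with h4 | h4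
    · exact hτ₀ β k h4
    · exact hlρ h4
  have hρ0 : ρ ≠ 0 := by
    rintro rfl
    rw [mul_zero] at hpr
    exact hp.ne_zero (by exact_mod_cast hpr)
  have hM0 : (S.M : 𝓞 F) * ρ ^ N ≠ 0 := mul_ne_zero (Nat.cast_ne_zero.2 hS.ne) (pow_ne_zero _ hρ0)
  have hVM : V.valuation (ak Ω ((S.M : 𝓞 F) * ρ ^ N)) = 1 := by
    have h1 : ak Ω (ρ ^ N) = ak Ω ρ ^ N := by
      show algebraMap F Ω (algebraMap (𝓞 F) F (ρ ^ N)) = _
      rw [map_pow, map_pow]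
    rw [hmul, hnat, h1, map_mul, map_pow, hVρ, one_pow, mul_one]
    exact a9_val hVp hpM
  have hGV := d.good V hVp
  have hM' : l ∣ (S.M : 𝓞 F) * ρ ^ N := hS.lM.mul_right _
  have htp := fun β k => term_fnR d.cma hGV hL N (ι := Fin (m + 1)) (fun s => v * (S.e₁ : 𝓞 F) * c k s)
    (δ := l * (dd k 0 + dd k 1) * ρ ^ N) hM0 hVM hl hlπ hM' (Dvd.intro _ (mul_assoc _ _ _).symm) (hτ β k)
  have htm := fun β k => term_fnR d.cma hGV hL N (ι := Fin (m + 1)) (fun s => v * (S.e₁ : 𝓞 F) * c k s)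
    (δ := l * (dd k 0 - dd k 1) * ρ ^ N) hM0 hVM hl hlπ hM' (Dvd.intro _ (mul_assoc _ _ _).symm) (hτ β k)
  choose hhp hp1 hp2 using htp
  choose hhm hm1 hm2 using htm
  obtain ⟨ω, hω, hω'⟩ := det2 d.cma V hVp D hD.emb ω₀ S.A hA
  have hiω : ‖i ω‖ ≤ 1 := (loc_leR hL _).1 hω'
  have hs := (okR hGV hL).small
  refine ⟨fun b => ω * ∑ β ∈ S.B, (S.G β : Ω) * ∏ k, ((S.M : Ω)⁻¹ * (hhp β k b - hhm β k b)), ?_, ?_⟩
  · intro a ha hcl
    -- the torsion points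
    have hp0 : (p : ℂ) ≠ 0 := Nat.cast_ne_zero.2 hp.ne_zero
    have hπC : eF F π ≠ 0 := fun h0 => hL.ne (H55P.eF_inj (h0.trans (map_zero _).symm))
    have hρC : eF F ρ ≠ 0 := fun h0 => hρ0 (H55P.eF_inj (h0.trans (map_zero _).symm))
    have hMC : (S.M : ℂ) ≠ 0 := Nat.cast_ne_zero.2 hS.ne
    have hpC : (p : ℂ) ^ N = eF F π ^ N * eF F ρ ^ N := by
      rw [← mul_pow, ← map_mul, ← hpr, map_natCast]
    have hM'C : eF F ((S.M : 𝓞 F) * ρ ^ N) = (S.M : ℂ) * eF F ρ ^ N := by rw [map_mul, map_natCast, map_pow]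
    have hz : ∀ β ∈ S.B, ∀ k, ∃ w ∈ (LF F).lattice, S.z a β k =
        (eF F (∑ s, v * (S.e₁ : 𝓞 F) * c k s * co a s) / (eF F π) ^ N + eF F (τ β k) / eF F ((S.M : 𝓞 F) * ρ ^ N)) + w := by
      intro β hβ k
      obtain ⟨t₁, ht₁⟩ := hc k a _ (hyy a k ha)
      obtain ⟨t₂, ht₂⟩ := lin_cong D hD.emb hp (hpr ▸ dvd_mul_left ρ π : ρ ∣ (p : 𝓞 F)) (hA k) (hyy a k ha) (hyy a₀ k ha₀) hcl
      refine ⟨eF F (S.e₁ * (v * t₁ + u * t₂)), (mem_LF _).2 ⟨_, rfl⟩, ?_⟩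
      have h4 : S.e₂ * D.Tr (S.A k) β - S.d k 0 - S.d k 1 = eF F (τ₀ β k) := by
        rw [hyy β k (hS.rep.sub β hβ), hdd, hdd]
        show _ = eF F (S.e₂ * (1 + l * yy β k) - l * dd k 0 - l * dd k 1)
        rw [map_sub, map_sub, map_mul (eF F) (S.e₂ : 𝓞 F), map_intCast]
      have h3 : ∑ s, v * (S.e₁ : 𝓞 F) * c k s * co a s = v * (S.e₁ : 𝓞 F) * (1 + l * yy a k - π ^ N * t₁) := by
        have h5 : 1 + l * yy a k - π ^ N * t₁ = ∑ s, c k s * co a s := by linear_combination ht₁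
        rw [h5, Finset.mul_sum]
        refine Finset.sum_congr rfl fun s _ => ?_
        ring
      have h6 : τ β k = τ₀ β k * ρ ^ N + S.M * (u * S.e₁ * (1 + l * yy a k - ρ ^ N * t₂)) := by
        have h7 : 1 + l * yy a k - ρ ^ N * t₂ = 1 + l * yy a₀ k := by linear_combination ht₂
        rw [h7]
      have h8 : eF F (S.e₁ * (1 + l * yy a k)) = eF F (S.e₁ * (1 + l * yy a k) * (u * π ^ N + v * ρ ^ N)) := by
        rw [huv, mul_one]
      unfold LD.z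
      rw [h4, h3, h6, hM'C, hyy a k ha]
      have h9 : (S.e₁ : ℂ) * eF F (1 + l * yy a k) = eF F (S.e₁ * (1 + l * yy a k)) := by
        rw [map_mul, map_intCast]
      have h10 : ((p ^ N : ℕ) : ℂ) = eF F π ^ N * eF F ρ ^ N := by
        rw [Nat.cast_pow]
        exact hpC
      rw [h10]
      simp only [map_mul, map_add, map_sub, map_pow, map_intCast, map_natCast, map_one] at h8 ⊢
      field_simp
      linear_combination (S.M : ℂ) * h8
    have hd1 : ∀ k, (S.d k 0 + S.d k 1) / S.M = eF F (l * (dd k 0 + dd k 1) * ρ ^ N) / eF F ((S.M : 𝓞 F) * ρ ^ N) := fun k => by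
      rw [hdd, hdd, ← map_add, ← mul_add, hM'C, map_mul _ _ (ρ ^ N), map_pow]
      field_simp
    have hd2 : ∀ k, (S.d k 0 - S.d k 1) / S.M = eF F (l * (dd k 0 - dd k 1) * ρ ^ N) / eF F ((S.M : 𝓞 F) * ρ ^ N) := fun k => by
      rw [hdd, hdd, ← map_sub, ← mul_sub, hM'C, map_mul _ _ (ρ ^ N), map_pow]
      field_simp
    rw [map_mul, hω, map_sum, LD.H, ← mul_assoc, mul_div_assoc, Finset.sum_div]
    congr 1
    refine Finset.sum_congr rfl fun β hβ => ?_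
    rw [map_mul, map_intCast, map_prod, mul_div_assoc]
    congr 1
    have h7 : Om ^ (m + 1) = ∏ _k : Fin (m + 1), Om := by
      rw [Finset.prod_const, Finset.card_univ, Fintype.card_fin]
    rw [h7, ← Finset.prod_div_distrib]
    refine Finset.prod_congr rfl fun k _ => ?_
    obtain ⟨w, hw, hz⟩ := hz β hβ k
    rw [map_mul, map_inv₀, map_natCast, map_sub, hp1, hm1, hz, T2_perz _ _ _ hw, T2_perz _ _ _ hw, hd1, hd2]
    ring
  · have e : (fun b : Fin (m + 1) → 𝓞 F => i (ω * ∑ β ∈ S.B, (S.G β : Ω) * ∏ k, ((S.M : Ω)⁻¹ * (hhp β k b - hhm β k b)))) =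
        fun b => i ω * ∑ β ∈ S.B, (S.G β : ℂ_[p]) * ∏ k, ((S.M : ℂ_[p])⁻¹ * (i (hhp β k b) - i (hhm β k b))) := by
      funext b
      simp only [map_mul, map_sum, map_prod, map_intCast, map_inv₀, map_natCast, map_sub]
    rw [e]
    refine Fn_scal hs hiω (Fn_sum _ fun β _ => Fn_scal hs (IsUltrametricDist.norm_intCast_le_one _ _) (Fn_prod hs _ fun k _ =>
      Fn_scal hs ?_ (Fn_sub (hp2 β k) (hm2 β k))))
    rw [norm_inv, hiM, inv_one]

end SSG.V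
end

-- from Lib.SSG.V.V13
section

/-! # SSG, part V: one class, arbitrary K, at a prime π of degree one with p = π ρ -/

open NumberField IsDedekindDomain

namespace SSG.V

open SSG H55N H55P SSG.E
open H35P (WAB Ker tt)
open H55K (CMA Dta GV ak)

variable {F : Type} [Field F] [NumberField F] [IQ F]

/-- The values at a prime of degree one: h, and on every class of a modulo ρ^N an integral function of the coordinates modulo π^N. -/
theorem ldH_fnR {A B : F} {Om : ℂ} {Ω : Type} [Field Ω] [DecidableEq Ω]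
    [Algebra F Ω] [IsAlgClosure F Ω] {j : Ω →+* ℂ} {act : 𝓞 F →+* AddMonoid.End (Pt (WAB A B) Ω)}
    {mm : Ideal (𝓞 F)} {ψ : Ideal (𝓞 F) →*₀ 𝓞 F} {p : ℕ} [Fact p.Prime] (d : Dta A B Om j act mm ψ p)
    {π ρ : 𝓞 F} (hpr : (p : 𝓞 F) = π * ρ) (hcop : IsCoprime π ρ)
    (V : ValuationSubring Ω) (hV : V.valuation (ak Ω π) < 1)
    (i : Ω →+* ℂ_[p]) (T : ℕ → Pt (WAB A B) Ω) (hL : LocR A B Om j act p π V i T)
    {K : Type} [Field K] [NumberField K] [Algebra F K] {m N : ℕ}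
    (ω₀ : Fin (m + 1) → 𝓞 K) (co : 𝓞 K → Fin (m + 1) → 𝓞 F)
    (hco : ∀ x, ∃ t : 𝓞 K, x = ∑ s, algebraMap (𝓞 F) (𝓞 K) (co x s) * ω₀ s + algebraMap (𝓞 F) (𝓞 K) (π ^ N) * t)
    {l : 𝓞 F} (hl : Prime l) (hlp : IsCoprime l (p : 𝓞 F)) (D : H55P.Ctx F K m) (hD : D.Ok) (S : LD D l (p ^ N)) (hS : S.Ok)
    (hA : ∀ k, TInt (F := F) p (S.A k)) (hN : 1 ≤ N) :
    ∃ h : 𝓞 K → Ω, (∀ a ∈ D.X, j (h a) = (Matrix.of fun i s => D.σ i (ω₀ s : K)).det * S.H a / Om ^ (m + 1)) ∧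
      ∀ a₀ : 𝓞 K, ∃ H' : (Fin (m + 1) → 𝓞 F) → ℂ_[p], (LR act i T).Fn N (Fin (m + 1)) H' ∧
        ∀ a ∈ D.X, algebraMap (𝓞 F) (𝓞 K) (ρ ^ N) ∣ a - a₀ → i (h a) = H' (co a) := by
  classical
  have hcls : ∀ a₀ : 𝓞 K, ∃ hf : (Fin (m + 1) → 𝓞 F) → Ω, a₀ ∈ D.X → (∀ a ∈ D.X, algebraMap (𝓞 F) (𝓞 K) (ρ ^ N) ∣ a - a₀ →
        j (hf (co a)) = (Matrix.of fun i s => D.σ i (ω₀ s : K)).det * S.H a / Om ^ (m + 1)) ∧
      (LR act i T).Fn N (Fin (m + 1)) fun b => i (hf b) := by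
    intro a₀
    by_cases ha₀ : a₀ ∈ D.X
    · obtain ⟨hf, h1, h2⟩ := ldH_clsR d hpr hcop V hV i T hL ω₀ co hco hl hlp D hD S hS hA hN a₀ ha₀
      exact ⟨hf, fun _ => ⟨h1, h2⟩⟩
    · exact ⟨fun _ => 0, fun h => absurd h ha₀⟩
  choose hf hhf using hcls
  refine ⟨fun a => hf a (co a), fun a ha => (hhf a ha).1 a ha (by rw [sub_self]; exact dvd_zero _), fun a₀ => ?_⟩
  by_cases hex : ∃ a₁ ∈ D.X, algebraMap (𝓞 F) (𝓞 K) (ρ ^ N) ∣ a₁ - a₀
  · obtain ⟨a₁, ha₁, hd₁⟩ := hex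
    refine ⟨fun b => i (hf a₁ b), (hhf a₁ ha₁).2, fun a ha hd => ?_⟩
    have h1 := (hhf a ha).1 a ha (by rw [sub_self]; exact dvd_zero _)
    have h2 := (hhf a₁ ha₁).1 a ha (by
      have h3 : a - a₁ = (a - a₀) - (a₁ - a₀) := by ring
      rw [h3]
      exact dvd_sub hd hd₁)
    show i (hf a (co a)) = i (hf a₁ (co a))
    rw [j.injective (h1.trans h2.symm)]
  · refine ⟨fun _ => 0, Fn_const (by rw [norm_zero]; exact zero_le_one), fun a ha hd => absurd ⟨a, ha, hd⟩ hex⟩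

/-- One class, arbitrary K, values at the primes of degree one above p, for weights modulo p^N; ω₀ is a family of integers of K (a basis modulo
π, say), co x the coordinates modulo π^N. -/
theorem classwR (p : ℕ) [Fact p.Prime] {M : Ideal (𝓞 F)} {l : 𝓞 F} (hM : Mod p M l)
    (K : Type) [Field K] [NumberField K] [Algebra F K] (m : ℕ)
    (hm : Module.finrank F K = m + 1) (b f : Ideal (𝓞 K)) (hb : b ≠ ⊥)
    (hbp : IsCoprime b (Ideal.span {(p : 𝓞 K)})) (hf : f ≠ ⊥)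
    (hfp : IsCoprime f (Ideal.span {(p : 𝓞 K)}))
    (c₀ : 𝓞 K) (hc : c₀ ∈ b) (hc' : c₀ ∉ Ideal.span {algebraMap (𝓞 F) (𝓞 K) l} * b) (N : ℕ) (hN : 1 ≤ N) :
    ∃ Bad : Set (Ideal (𝓞 K)), Bad.Finite ∧
      ∀ (c : Fin (m + 1) × Fin 2 → Ideal (𝓞 K)) (q : Fin (m + 1) × Fin 2 → ℕ), Smooth c q →
        (∀ i, c i ∉ Bad) → ∃ val : 𝓞 K → ℂ,
          (∀ φ : 𝓞 K → ℂ, WtJ (mK K M * f) (mK K M * f * b) c₀ (p ^ N) φ → ∃ Z : ℂ → ℂ, AnalyticOnNhd ℂ Z {s | 1 / 2 < s.re} ∧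
            (∀ T : Set (𝓞 K), Transv (mK K M * f) (XS (mK K M * f * b) c₀) T →
              ∀ s : ℂ, 3 / 2 < s.re → HasSum (fun x : T => φ x * (gw c q x * nf F s (x : 𝓞 K))) (Z s)) ∧
            ∀ R : Finset (𝓞 K), RpU (mK K M * f * b) c₀ (p ^ N) R →
              Z 1 = (((p : ℂ) ^ N)⁻¹) ^ (m + 1) * ∑ a ∈ R, φ a * val a) ∧
          ∀ (A B : F) (Om : ℂ) (Ω : Type) [Field Ω] [DecidableEq Ω] [Algebra F Ω] [IsAlgClosure F Ω] (j : Ω →+* ℂ)
            (act : 𝓞 F →+* AddMonoid.End (Pt (WAB A B) Ω)) (mm : Ideal (𝓞 F)) (ψ : Ideal (𝓞 F) →*₀ 𝓞 F),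
            Dta A B Om j act mm ψ p →
            ∀ (π ρ : 𝓞 F), (p : 𝓞 F) = π * ρ → IsCoprime π ρ →
            ∀ (V : ValuationSubring Ω) (i : Ω →+* ℂ_[p]) (T : ℕ → Pt (WAB A B) Ω),
              V.valuation (ak Ω π) < 1 → LocR A B Om j act p π V i T →
            ∀ (ω₀ : Fin (m + 1) → 𝓞 K) (co : 𝓞 K → Fin (m + 1) → 𝓞 F),
              (∀ x, ∃ t : 𝓞 K, x = ∑ s, algebraMap (𝓞 F) (𝓞 K) (co x s) * ω₀ s + algebraMap (𝓞 F) (𝓞 K) (π ^ N) * t) →
            ∀ δ : ℂ, δ ^ 2 = embF F (Algebra.discr F fun s => (ω₀ s : K)) →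
            ∃ h : 𝓞 K → Ω, (∀ a ∈ XS (mK K M * f * b) c₀, j (h a) = δ * val a / Om ^ (m + 1)) ∧
              ∀ a₀ : 𝓞 K, ∃ H' : (Fin (m + 1) → 𝓞 F) → ℂ_[p], (LR act i T).Fn N (Fin (m + 1)) H' ∧
                ∀ a ∈ XS (mK K M * f * b) c₀, algebraMap (𝓞 F) (𝓞 K) (ρ ^ N) ∣ a - a₀ → i (h a) = H' (co a) := by
  classical
  have hp : p.Prime := Fact.out
  obtain ⟨Bad, hBad, hcore⟩ :=
    corew2 p hp hM K m hm b f hb hbp hf hfp c₀ hc hc' (p ^ N) ⟨N, rfl⟩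
  refine ⟨Bad, hBad, fun c q hs hbad => ?_⟩
  obtain ⟨σ, ν, ix, hix, sg, S, hσ, hν, hS, hA, -, hZ⟩ := hcore c q hs hbad
  refine ⟨fun a => (ν : ℂ)⁻¹ * ∑ jx, (sg jx : ℂ) * (S jx).H a, ?_, ?_⟩
  · intro φ hφ
    obtain ⟨Z, h1, h2, h3⟩ := hZ φ hφ
    refine ⟨Z, h1, h2, fun R hR => ?_⟩
    rw [h3 R hR, Finset.mul_sum, Finset.mul_sum]
    refine Finset.sum_congr rfl fun a _ => ?_
    push_cast
    ring
  · intro A B Om Ω _ _ _ _ j act mm ψ hd π ρ hpr hcop V i T hV hL ω₀ co hco δ hδ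
    have hac : IsAlgClosed Ω := IsAlgClosure.isAlgClosed F
    have hle : mK K M * f * b ≤ Ideal.span {algebraMap (𝓞 F) (𝓞 K) l} * b :=
      Ideal.mul_mono_left (Ideal.mul_le_left.trans (pc_mK hM.le))
    have hD : (⟨σ, mK K M * f * b, c₀, c, q⟩ : H55P.Ctx F K m).Ok := ⟨hσ, fun h => hc' (hle h), hs⟩
    have hk := fun jx => ldH_fnR hd hpr hcop V hV i T hL ω₀ co hco hM.prime (pc_cop hM)
      (⟨σ, mK K M * f * b, c₀, c, q⟩ : H55P.Ctx F K m) hD (S jx) (hS jx) (hA jx) hN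
    choose h h1 h2 using hk
    have hVp : V.valuation (p : Ω) < 1 := by
      have hnat : ak Ω (p : 𝓞 F) = (p : Ω) := by
        show algebraMap F Ω (algebraMap (𝓞 F) F (p : 𝓞 F)) = _
        rw [map_natCast, map_natCast]
      have hmul : ak Ω (π * ρ) = ak Ω π * ak Ω ρ := by
        show algebraMap F Ω (algebraMap (𝓞 F) F (π * ρ)) = _
        rw [map_mul, map_mul]
      have hint : V.valuation (ak Ω ρ) ≤ 1 := by
        have h1 : IsIntegral ℤ (ak Ω ρ) := map_isIntegral_int (algebraMap F Ω) ρ.2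
        have h3 : IsIntegral V (ak Ω ρ) := h1.tower_top
        obtain ⟨t, ht⟩ := IsIntegrallyClosed.isIntegral_iff.1 h3
        rw [← ht]
        exact V.valuation_le_one t
      rw [← hnat, hpr, hmul, map_mul]
      exact (mul_le_of_le_one_right' hint).trans_lt hV
    obtain ⟨ep, hep, hep1⟩ : ∃ ep : ℤ, δ = ep * (Matrix.of fun i s => σ i (ω₀ s : K)).det ∧ (ep = 1 ∨ ep = -1) := by
      rcases sq_eq_sq_iff_eq_or_eq_neg.1 (hδ.trans (det_sq hσ ω₀).symm) with h | h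
      · exact ⟨1, by rw [h]; push_cast; ring, Or.inl rfl⟩
      · exact ⟨-1, by rw [h]; push_cast; ring, Or.inr rfl⟩
    refine ⟨fun a => ((ep : ℤ) : Ω) * ((ν : Ω)⁻¹ * ∑ jx, (sg jx : Ω) * h jx a), ?_, fun a₀ => ?_⟩
    · intro a ha
      have e1 : ∀ jx, j (h jx a) = (Matrix.of fun i s => σ i (ω₀ s : K)).det * ((S jx).H a / Om ^ (m + 1)) := fun jx => by
        rw [h1 jx a ha, mul_div_assoc]
      rw [map_mul, map_mul, map_inv₀, map_natCast, map_sum, map_intCast, hep]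
      have e2 : ∑ jx, j ((sg jx : Ω) * h jx a) = (Matrix.of fun i s => σ i (ω₀ s : K)).det *
          ((∑ jx, (sg jx : ℂ) * (S jx).H a) / Om ^ (m + 1)) := by
        rw [Finset.sum_div, Finset.mul_sum]
        refine Finset.sum_congr rfl fun jx _ => ?_
        rw [map_mul, map_intCast, e1]
        ring
      rw [e2]
      ring
    · choose H' h3 h4 using fun jx => h2 jx a₀
      refine ⟨fun a => i ((ep : ℤ) : Ω) * (i ((ν : Ω)⁻¹) * ∑ jx, i (sg jx : Ω) * H' jx a), ?_, ?_⟩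
      · refine clw_mul (clw_mul (clw_sum _ _ fun jx => clw_mul (h3 jx) _ ?_) _ ?_) _ ?_
        · exact (hL.val _).1 (intCast_mem V.toSubring (sg jx))
        · exact (hL.val _).1 (clw_val V hVp ν hν)
        · exact (hL.val _).1 (intCast_mem V.toSubring ep)
      · intro a ha hcl
        have e1 : ∀ jx, i (h jx a) = H' jx (co a) := fun jx => h4 jx a ha hcl
        rw [map_mul, map_mul, map_sum]
        congr 2
        refine Finset.sum_congr rfl fun jx _ => ?_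
        rw [map_mul, e1]

end SSG.V
end

-- from Lib.SSG.V.V15
section

/-! # SSG, part V: one class at a prime of degree one, with the local model LocO of SSG/LP -/

open NumberField IsDedekindDomain

namespace SSG.V

open SSG H55N H55P SSG.E SSG.LP
open H35P (WAB Ker tt)
open H55K (CMA Dta GV ak)
open H35M (FnM)

variable {F : Type} [Field F] [NumberField F] [IQ F]

section conv

variable {A B : F} {Om : ℂ} {Ω : Type} [Field Ω] [DecidableEq Ω] [Algebra F Ω] {j : Ω →+* ℂ}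
  {act : 𝓞 F →+* AddMonoid.End (Pt (WAB A B) Ω)} {p : ℕ} [Fact p.Prime] {π : 𝓞 F}
  {V : ValuationSubring Ω} {i : Ω →+* ℂ_[p]} {T : ℕ → Pt (WAB A B) Ω} {X : ∀ N, RB π N → ℂ_[p]}

/-- The local model of SSG/LP is a local model of this part. -/
theorem LocO.toR (hπ : π ≠ 0) (h : LocO A B Om j act π V i T X) : LocR A B Om j act p π V i T where
  val := h.val
  ne := hπ
  zero := h.zero
  down := h.down
  unif := h.unif
  ker := h.ker
  fn := fun N ι _ c => by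
    have hmk : ∀ a : ι → 𝓞 F, ∀ k, π ^ N ∣ Quotient.out (Ideal.Quotient.mk (Ideal.span {π ^ N}) (a k)) - a k := by
      intro a k
      rw [← Ideal.mem_span_singleton, ← Ideal.Quotient.eq]
      exact Ideal.Quotient.mk_out _
    have hH := h.fn N ι c (fun g => i (tt (act (∑ k, c k * Quotient.out (g k)) (T N)))) (fun a => by
      have h1 : act (∑ k, c k * Quotient.out (Ideal.Quotient.mk (Ideal.span {π ^ N}) (a k))) (T N) =
          act (∑ k, c k * a k) (T N) := by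
        have h2 : π ^ N ∣ (∑ k, c k * Quotient.out (Ideal.Quotient.mk (Ideal.span {π ^ N}) (a k))) - ∑ k, c k * a k := by
          rw [← Finset.sum_sub_distrib]
          refine Finset.dvd_sum fun k _ => ?_
          rw [← mul_sub]
          exact (hmk a k).mul_left _
        have h3 := (h.zero N _).2 h2
        rw [map_sub] at h3
        exact sub_eq_zero.1 h3
      show i (tt (act (∑ k, c k * Quotient.out (Ideal.Quotient.mk (Ideal.span {π ^ N}) (a k))) (T N))) = _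
      rw [h1])
    intro ε hε
    obtain ⟨Q, hQ, h5⟩ := hH ε hε
    refine ⟨Q, hQ, fun a => ?_⟩
    have h6 := h5 fun k => Ideal.Quotient.mk _ (a k)
    have h1 : act (∑ k, c k * Quotient.out (Ideal.Quotient.mk (Ideal.span {π ^ N}) (a k))) (T N) =
        act (∑ k, c k * a k) (T N) := by
      have h2 : π ^ N ∣ (∑ k, c k * Quotient.out (Ideal.Quotient.mk (Ideal.span {π ^ N}) (a k))) - ∑ k, c k * a k := by
        rw [← Finset.sum_sub_distrib]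
        refine Finset.dvd_sum fun k _ => ?_
        rw [← mul_sub]
        exact (hmk a k).mul_left _
      have h3 := (h.zero N _).2 h2
      rw [map_sub] at h3
      exact sub_eq_zero.1 h3
    have h7 : (fun k => X N (Ideal.Quotient.mk _ (a k))) = fun k => (LR act i T).X N (a k) := by
      funext k
      exact h.Xmk N (a k)
    have h8 : i (tt (act (∑ k, c k * a k) (T N))) =
        i (tt (act (∑ k, c k * Quotient.out (Ideal.Quotient.mk (Ideal.span {π ^ N}) (a k))) (T N))) := by rw [h1]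
    rw [← h7]
    show ‖i (tt (act (∑ k, c k * a k) (T N))) - _‖ ≤ ε
    rw [h8]
    exact h6

/-- The functions of this part are the functions of H35M. -/
theorem fnM_of (hR : OkR π (LR act i T)) (h : LocO A B Om j act π V i T X) {N : ℕ} {ι : Type} [Fintype ι]
    {H : (ι → 𝓞 F) → ℂ_[p]} (hH : (LR act i T).Fn N ι H) :
    ∃ H' : (ι → RB π N) → ℂ_[p], FnM (X N) ι H' ∧ ∀ a : ι → 𝓞 F, H a = H' fun k => Ideal.Quotient.mk _ (a k) := by
  refine ⟨fun g => H fun k => Quotient.out (g k), ?_, ?_⟩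
  · intro ε hε
    obtain ⟨Q, hQ, h5⟩ := hH ε hε
    refine ⟨Q, hQ, fun g => ?_⟩
    have h6 := h5 fun k => Quotient.out (g k)
    have h7 : (fun k => (LR act i T).X N (Quotient.out (g k))) = fun k => X N (g k) := by
      funext k
      have h8 := h.Xmk N (Quotient.out (g k))
      rw [Ideal.Quotient.mk_out] at h8
      exact h8.symm
    rw [h7] at h6
    exact h6
  · intro a
    refine Fn_perR hR hH _ _ fun k => ?_
    rw [← Ideal.mem_span_singleton, ← Ideal.Quotient.eq]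
    exact (Ideal.Quotient.mk_out _).symm

end conv

/-- One class, arbitrary K, values at the primes of degree one above p, for weights modulo p^N which are invariant under the units 1 modulo
M f; ω₀ is a family of integers of K (a basis modulo π, say), co x the coordinates modulo π^N. -/
theorem classwO (p : ℕ) [Fact p.Prime] {M : Ideal (𝓞 F)} {l : 𝓞 F} (hM : Mod p M l)
    (K : Type) [Field K] [NumberField K] [Algebra F K] (m : ℕ)
    (hm : Module.finrank F K = m + 1) (b f : Ideal (𝓞 K)) (hb : b ≠ ⊥)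
    (hbp : IsCoprime b (Ideal.span {(p : 𝓞 K)})) (hf : f ≠ ⊥)
    (hfp : IsCoprime f (Ideal.span {(p : 𝓞 K)}))
    (c₀ : 𝓞 K) (hc : c₀ ∈ b) (hc' : c₀ ∉ Ideal.span {algebraMap (𝓞 F) (𝓞 K) l} * b) (N : ℕ) (hN : 1 ≤ N) :
    ∃ Bad : Set (Ideal (𝓞 K)), Bad.Finite ∧
      ∀ (c : Fin (m + 1) × Fin 2 → Ideal (𝓞 K)) (q : Fin (m + 1) × Fin 2 → ℕ), Smooth c q →
        (∀ i, c i ∉ Bad) → ∃ val : 𝓞 K → ℂ,
          (∀ φ : 𝓞 K → ℂ, WtJ (mK K M * f) (mK K M * f * b) c₀ (p ^ N) φ →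
            ∃ Z : ℂ → ℂ, AnalyticOnNhd ℂ Z {s | 1 / 2 < s.re} ∧
            (∀ T : Set (𝓞 K), Transv (mK K M * f) (XS (mK K M * f * b) c₀) T →
              ∀ s : ℂ, 3 / 2 < s.re → HasSum (fun x : T => φ x * (gw c q x * nf F s (x : 𝓞 K))) (Z s)) ∧
            ∀ R : Finset (𝓞 K), RpU (mK K M * f * b) c₀ (p ^ N) R →
              Z 1 = (((p : ℂ) ^ N)⁻¹) ^ (m + 1) * ∑ a ∈ R, φ a * val a) ∧
          ∀ (A B : F) (Om : ℂ) (Ω : Type) [Field Ω] [DecidableEq Ω] [Algebra F Ω] [IsAlgClosure F Ω] (j : Ω →+* ℂ)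
            (act : 𝓞 F →+* AddMonoid.End (Pt (WAB A B) Ω)) (mm : Ideal (𝓞 F)) (ψ : Ideal (𝓞 F) →*₀ 𝓞 F),
            Dta A B Om j act mm ψ p →
            ∀ (π ρ : 𝓞 F), (p : 𝓞 F) = π * ρ → IsCoprime π ρ →
            ∀ (V : ValuationSubring Ω) (i : Ω →+* ℂ_[p]) (T : ℕ → Pt (WAB A B) Ω) (X : ∀ N, RB π N → ℂ_[p]),
              V.valuation (ak Ω π) < 1 → LocO A B Om j act π V i T X →
            ∀ (ω₀ : Fin (m + 1) → 𝓞 K) (co : 𝓞 K → Fin (m + 1) → 𝓞 F),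
              (∀ x, ∃ t : 𝓞 K, x = ∑ s, algebraMap (𝓞 F) (𝓞 K) (co x s) * ω₀ s + algebraMap (𝓞 F) (𝓞 K) (π ^ N) * t) →
            ∀ δ : ℂ, δ ^ 2 = embF F (Algebra.discr F fun s => (ω₀ s : K)) →
            ∃ h : 𝓞 K → Ω, (∀ a ∈ XS (mK K M * f * b) c₀, j (h a) = δ * val a / Om ^ (m + 1)) ∧
              ∀ a₀ : 𝓞 K, ∃ H' : (Fin (m + 1) → RB π N) → ℂ_[p], FnM (X N) (Fin (m + 1)) H' ∧
                ∀ a ∈ XS (mK K M * f * b) c₀, algebraMap (𝓞 F) (𝓞 K) (ρ ^ N) ∣ a - a₀ →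
                  i (h a) = H' fun s => Ideal.Quotient.mk _ (co a s) := by
  obtain ⟨Bad, hBad, hcore⟩ := classwR p hM K m hm b f hb hbp hf hfp c₀ hc hc' N hN
  refine ⟨Bad, hBad, fun c q hs hbad => ?_⟩
  obtain ⟨val, h1, h2⟩ := hcore c q hs hbad
  refine ⟨val, h1, ?_⟩
  intro A B Om Ω _ _ _ _ j act mm ψ hd π ρ hpr hcop V i T X hV hL ω₀ co hco δ hδ
  have hπ : π ≠ 0 := by
    rintro rfl
    rw [zero_mul] at hpr
    exact (Fact.out : p.Prime).ne_zero (by exact_mod_cast hpr)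
  have hLR := LocO.toR hπ hL
  obtain ⟨h, h3, h4⟩ := h2 A B Om Ω j act mm ψ hd π ρ hpr hcop V i T hV hLR ω₀ co hco δ hδ
  refine ⟨h, h3, fun a₀ => ?_⟩
  obtain ⟨H, hH, h5⟩ := h4 a₀
  have hVp : V.valuation (p : Ω) < 1 := by
    have hac : IsAlgClosed Ω := IsAlgClosure.isAlgClosed F
    have hnat : ak Ω (p : 𝓞 F) = (p : Ω) := by
      show algebraMap F Ω (algebraMap (𝓞 F) F (p : 𝓞 F)) = _
      rw [map_natCast, map_natCast]
    have hmul : ak Ω (π * ρ) = ak Ω π * ak Ω ρ := by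
      show algebraMap F Ω (algebraMap (𝓞 F) F (π * ρ)) = _
      rw [map_mul, map_mul]
    have hint : V.valuation (ak Ω ρ) ≤ 1 := by
      have h1 : IsIntegral ℤ (ak Ω ρ) := map_isIntegral_int (algebraMap F Ω) ρ.2
      have h3 : IsIntegral V (ak Ω ρ) := h1.tower_top
      obtain ⟨t, ht⟩ := IsIntegrallyClosed.isIntegral_iff.1 h3
      rw [← ht]
      exact V.valuation_le_one t
    rw [← hnat, hpr, hmul, map_mul]
    exact (mul_le_of_le_one_right' hint).trans_lt hV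
  obtain ⟨H', hH', h6⟩ := fnM_of (okR (hd.good V hVp) hLR) hL hH
  refine ⟨H', hH', fun a ha hcl => ?_⟩
  rw [h5 a ha hcl, h6]

end SSG.V
end

-- from Lib.H35M.KM4
section

/-! # H35M, chunk KM4 (M/L): the class values exist (assembly) -/

open NumberField IsDedekindDomain

namespace H35M

open H55N H55P SSG.E SSG.V SSG.LP
open H35P (WAB Ker tt)
open H55K (CMA Dta GV ak)

variable {F : Type} [Field F] [NumberField F] [IQ F]

theorem km4_cop {p : ℕ} {M : Ideal (𝓞 F)} {l : 𝓞 F} (hM : Mod p M l) {K : Type} [Field K] [NumberField K] [Algebra F K] :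
    IsCoprime (mK K M) (Ideal.span {(p : 𝓞 K)}) := by
  obtain ⟨a, ha, c, hc, hac⟩ := Ideal.isCoprime_iff_exists.1 hM.cop
  obtain ⟨c', rfl⟩ := Ideal.mem_span_singleton.1 hc
  refine Ideal.isCoprime_iff_exists.2 ⟨algebraMap (𝓞 F) (𝓞 K) a, Ideal.mem_map_of_mem _ ha,
    algebraMap (𝓞 F) (𝓞 K) ((p : 𝓞 F) * c'), ?_, ?_⟩
  · rw [map_mul, map_natCast]
    exact Ideal.mul_mem_right _ _ (Ideal.mem_span_singleton_self _)
  · rw [← map_add, hac, map_one]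

/-- Chunk KM4 (M/L). PROOF. VΩ = V.comap j: VΩ.valuation x < 1 iff V.valuation (j x) < 1 (SSG.S.m2_comap_lt); p and ak Ω π are in its maximal ideal (d.cma.ovr: j (ak Ω x) = eF F x). i from exists_embC (SSG/LP/Main), T, X from exists_locO (d.cma, d.good VΩ, hP.pr, ..).
For b, f, c₀, N: classwO (SSG/V/V15) gives Bad and, for c, q, val0. val a := (((p : ℂ) ^ N)⁻¹) ^ (m + 1) * val0 a. ser: the first part of classwO (the structure SSG.V.WtJ has the same two fields as H35M.WtJ), the constant goes into the sum. int: R, θ, y given.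
classwO with ρ = π', co x = ω.repr x (x = sum repr ω, t = 0), δ: h with j (h a) = δ val0 a / Om^(m+1), and for a₀ = y: H', FnM (X N), i (h a) = H' (mk repr a) for a in XS with π'^N | a - y. θ' from km_char (π^N | p^N). The number De * sum of θ a val a over the
class is j (S) * ((p^N)⁻¹)^(m+1) with S = sum of θ' a * h a (De = δ / Om^(m+1)); V of it is <= 1 iff VΩ(S) <= VΩ(p^N)^(m+1) (m2_comap_le) iff ‖i S‖ <= ‖i (p^N)‖^(m+1) (SSG.S.m2_le, hi). i S = sum of i θ' a * H' (..): km_sum gives ‖i S‖ <= ‖cX (X N)‖^(m+1) =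
(‖i (ak Ω π)‖^N)^(m+1) (LocO.prod), and ‖i (ak Ω π')‖ = 1 (V(π') = 1), p = π π'. I = mK K M * f * b is coprime to p (hM.cop, hfp, hbp). The Fintype instance on 𝓞 F / (π^N): Fintype.ofFinite (π^N ≠ 0). -/
theorem cvh_of {A B : F} {Om : ℂ} {Ω : Type} [Field Ω] [DecidableEq Ω] [Algebra F Ω] [IsAlgClosure F Ω] {j : Ω →+* ℂ}
    {act : 𝓞 F →+* AddMonoid.End (Pt (WAB A B) Ω)} {mm : Ideal (𝓞 F)} {ψ : Ideal (𝓞 F) →*₀ 𝓞 F} {p : ℕ} [Fact p.Prime]
    (d : Dta A B Om j act mm ψ p) {V : ValuationSubring ℂ} {π π' : 𝓞 F} (hP : Plc F V π π' p) {M : Ideal (𝓞 F)} {l : 𝓞 F} (hM : Mod p M l)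
    (K : Type) [Field K] [NumberField K] [Algebra F K] (m : ℕ) (hm : Module.finrank F K = m + 1) (ω : Module.Basis (Fin (m + 1)) (𝓞 F) (𝓞 K))
    (δ : ℂ) (hδ : δ ^ 2 = embF F (Algebra.discr F fun s => (ω s : K))) : CVH F K m V π π' p (δ / Om ^ (m + 1)) M l := by
  classical
  intro b f hb hbp hf hfp c₀ hc hc' N hN
  have hac : IsAlgClosed Ω := IsAlgClosure.isAlgClosed F
  have hp0 : p ≠ 0 := (Fact.out : p.Prime).ne_zero
  have hjak : ∀ a : 𝓞 F, j (ak Ω a) = eF F a := fun a => d.cma.ovr (a : F)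
  obtain ⟨W, hW⟩ : ∃ W, W = V.comap j := ⟨_, rfl⟩
  have hVπ : W.valuation (ak Ω π) < 1 := by
    rw [hW, SSG.S.m2_comap_lt, hjak]
    exact hP.lt
  have hpe : V.valuation (p : ℂ) < 1 := by
    have e : (p : ℂ) = eF F π * eF F π' := by
      rw [← map_mul, hP.mul, map_natCast]
    rw [e, map_mul, hP.one, mul_one]
    exact hP.lt
  have hVp : W.valuation (p : Ω) < 1 := by
    rw [hW, SSG.S.m2_comap_lt, map_natCast]
    exact hpe
  obtain ⟨i, hi⟩ := exists_embC (F := F) W hVp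
  obtain ⟨T, X, hL⟩ := exists_locO d.cma (d.good W hVp) hP.pr hVπ hi
  obtain ⟨Bad, hBad, hcl⟩ := classwO p hM K m hm b f hb hbp hf hfp c₀ hc hc' N hN
  refine ⟨Bad, hBad, fun c q hs hbad => ?_⟩
  obtain ⟨val0, hser, hval⟩ := hcl c q hs hbad
  obtain ⟨P, hPdef⟩ : ∃ P : ℂ, P = (((p : ℂ) ^ N)⁻¹) ^ (m + 1) := ⟨_, rfl⟩
  refine ⟨fun a => P * val0 a, ?_, ?_⟩
  · intro φ hφ
    obtain ⟨Z, hZ, h1, h2⟩ := hser φ ⟨hφ.per, hφ.inv⟩
    refine ⟨Z, hZ, h1, fun R hR => ?_⟩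
    rw [h2 R hR, ← hPdef, Finset.mul_sum]
    exact Finset.sum_congr rfl fun a _ => by ring
  · intro R hR θ hθ y
    have hπ : π ≠ 0 := hP.pr.ne_zero
    have hco : ∀ x : 𝓞 K, ∃ t : 𝓞 K, x = ∑ s, algebraMap (𝓞 F) (𝓞 K) (ω.repr x s) * ω s +
        algebraMap (𝓞 F) (𝓞 K) (π ^ N) * t := by
      intro x
      refine ⟨0, ?_⟩
      rw [mul_zero, add_zero]
      conv_lhs => rw [← ω.sum_repr x]
      exact Finset.sum_congr rfl fun s _ => Algebra.smul_def _ _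
    obtain ⟨h, hh1, hh2⟩ := hval A B Om Ω j act mm ψ d π π' hP.mul.symm hP.cop W i T X hVπ hL
      (fun s => ω s) (fun x s => ω.repr x s) hco δ hδ
    obtain ⟨H', hH', hH2⟩ := hh2 y
    have hn : π ^ N ∣ (p : 𝓞 F) ^ N := by
      rw [← hP.mul, mul_pow]
      exact dvd_mul_right _ _
    obtain ⟨θ', hθ1, hθ2, hθ3⟩ := km_char (K := K) j (p := p) (N := N) hp0 hn hθ
    have hI : IsCoprime (mK K M * f * b) (Ideal.span {(p : 𝓞 K)}) :=
      ((km4_cop hM).mul_left hfp).mul_left hbp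
    have hfin : Finite (𝓞 F ⧸ Ideal.span {π ^ N}) :=
      Ideal.finiteQuotientOfFreeOfNeBot _ (by
        rw [Ne, Ideal.span_singleton_eq_bot]
        exact pow_ne_zero _ hπ)
    haveI : Fintype (𝓞 F ⧸ Ideal.span {π ^ N}) := Fintype.ofFinite _
    have hsum := km_sum hπ hP.mul hP.cop hI hR ω y (hL.fg N) hH' (η := fun x => i (θ' x))
      (fun x x' => by rw [hθ2, map_mul]) (fun x => by rw [hθ3, map_one])
    rw [hL.prod N] at hsum
    obtain ⟨S, hS⟩ : ∃ S : Ω, S = ∑ a ∈ R with a - y ∈ Ideal.span {algebraMap (𝓞 F) (𝓞 K) (π' ^ N)},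
        θ' a * h a := ⟨_, rfl⟩
    have hiS : i S = ∑ a ∈ R with a - y ∈ Ideal.span {algebraMap (𝓞 F) (𝓞 K) (π' ^ N)},
        i (θ' a) * H' (fun s => Ideal.Quotient.mk (Ideal.span {π ^ N}) (ω.repr a s)) := by
      rw [hS, map_sum]
      refine Finset.sum_congr rfl fun a ha => ?_
      rw [Finset.mem_filter] at ha
      rw [map_mul, hH2 a (hR.sub a ha.1) (Ideal.mem_span_singleton.1 ha.2)]
    rw [← hiS] at hsum
    have hone : ‖i (ak Ω π')‖ = 1 := by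
      have h1 := (SSG.S.m2_val i hi (ak Ω π') 1).1 (by
        rw [hW, SSG.S.m2_comap, hjak, hP.one, map_one, map_one])
      rwa [map_one, NormOneClass.norm_one] at h1
    have hip : ‖i (p : Ω)‖ = ‖i (ak Ω π)‖ := by
      have e : (p : Ω) = ak Ω π * ak Ω π' := by
        change (p : Ω) = algebraMap F Ω (π : F) * algebraMap F Ω (π' : F)
        have e2 : ((π : F)) * (π' : F) = (p : F) := by
          have e3 := congrArg (algebraMap (𝓞 F) F) hP.mul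
          rwa [map_mul, map_natCast] at e3
        rw [← map_mul, e2, map_natCast]
      rw [e, map_mul, norm_mul, hone, mul_one]
    have hmem : S / ((p : Ω) ^ N) ^ (m + 1) ∈ W := by
      rw [hi, map_div₀, norm_div, map_pow, map_pow, norm_pow, norm_pow, hip]
      exact div_le_one_of_le₀ hsum (by positivity)
    rw [hW, ValuationSubring.mem_comap] at hmem
    have heq : δ / Om ^ (m + 1) * ∑ a ∈ R with a - y ∈ Ideal.span {algebraMap (𝓞 F) (𝓞 K) (π' ^ N)},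
        θ a * (P * val0 a) = j (S / ((p : Ω) ^ N) ^ (m + 1)) := by
      rw [map_div₀, hS, map_sum, Finset.mul_sum, Finset.sum_div]
      refine Finset.sum_congr rfl fun a ha => ?_
      rw [Finset.mem_filter] at ha
      rw [map_mul, hθ1, hh1 a (hR.sub a ha.1), map_pow, map_pow, map_natCast, hPdef]
      rw [inv_pow]
      ring
    rw [heq]
    exact (ValuationSubring.valuation_le_one_iff _ _).2 hmem

end H35M
end
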