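import Mathlib
import Pool.Agent.Lib.H1M.PP2.D_H13R_D
import Pool.Agent.Lib.H1M.PP2.D_H55K_RD
import Pool.Agent.Lib.H1M.PP2.M061
import Pool.Agent.Lib.H1M.PP2.M066
import Pool.Agent.Lib.H1M.PP2.M073
import Pool.Agent.Lib.H1M.PP2.M074
import Pool.Agent.Lib.H1M.PP2.M093
import Pool.Agent.Lib.H1M.PP2.M094
import Pool.Agent.Lib.H1M.PP2.M107
import Pool.Agent.Lib.H1M.PP2.M112
import Pool.Agent.Lib.H1M.PP2.M128
import Pool.Agent.Lib.H1M.PP2.M133
import Pool.Agent.Lib.H1M.PP2.M141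
import Pool.Agent.Lib.H1M.PP2.M149
import Pool.Agent.Lib.H1M.PP2.M153

/-! Merged copies (to shorten the build) of Lib.H35M.TS14, Lib.H35M.SY3, Lib.H35M.SY4, Lib.H35M.SZ1, Lib.H35U.U1, Lib.H35U.U2. -/

-- from Lib.H35M.TS14
section

/-! # H35M, chunk TS14 (M/L): the step of degree p for the L-values -/

open NumberField IsDedekindDomain

namespace H35M

open H55N H55P SSG.E

variable {F : Type} [Field F] [NumberField F] [IQ F] {K : Type} [Field K] [NumberField K] [Algebra F K] {m : ℕ}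
  {V : ValuationSubring ℂ} {π π' : 𝓞 F} {p : ℕ} {De : ℂ} {T1 : Finset (HeightOneSpectrum (𝓞 K))} {a : HeightOneSpectrum (𝓞 K) → ℕ} {f2 f3 : Ideal (𝓞 K)}
  {χ : Ideal (𝓞 K) →*₀ ℂ} {χ1 : MulChar (𝓞 K ⧸ fT T1 a) ℂ} {χ2 : MulChar (𝓞 K ⧸ f2) ℂ} {χ3 : MulChar (𝓞 K ⧸ f3) ℂ}
  {ψa : AddChar (𝓞 K ⧸ fT T1 a) ℂ}

theorem ts14_eval {R : Type} [CommRing R] (χ : MulChar R ℂ) (j : ℕ) (x : R) : (χ ^ (j + 1)) x = (χ x) ^ (j + 1) :=
  MulChar.pow_apply' χ (Nat.succ_ne_zero j) x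

theorem ts14_norm {p : ℕ} (hp : p ≠ 0) {f : Ideal (𝓞 K)} {χ : Ideal (𝓞 K) →*₀ ℂ} (h : PCh p f χ) (a : Ideal (𝓞 K)) : ‖χ a‖ ≤ 1 := by
  by_cases ha : a = ⊥
  · have : χ ⊥ = 0 := χ.map_zero
    rw [ha, this, norm_zero]
    exact zero_le_one
  · by_cases hc : IsCoprime a f
    · exact (Complex.norm_eq_one_of_pow_eq_one (h.val a ha hc) hp).le
    · rw [h.zero a hc, norm_zero]
      exact zero_le_one

theorem ts14_lvn {De : ℂ} {h : Ideal (𝓞 K) →*₀ ℂ} {Λ : ℂ → ℂ} (ha : AnalyticOnNhd ℂ Λ {s | 1 / 2 < s.re})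
    (hs : ∀ s : ℂ, 3 / 2 < s.re → HasSum (tm h s) (Λ s)) : LVn V De h ↔ V.valuation (De * Λ 1) = 1 := by
  constructor
  · rintro ⟨Λ', ha', hs', hv'⟩
    have e : Λ' 1 = Λ 1 := ident Λ' Λ ha' ha (fun s h1 => (hs' s h1).unique (hs s h1)) 1 (by norm_num)
    rw [← e]
    exact hv'
  · intro hv
    exact ⟨Λ, ha, hs, hv⟩

/-- Chunk TS14a (S/M). The powers χ^(j+1), j + 1 < p: PCh as chp_PChr in H55P/T5; eq: chp_apply and multiplicativity ((χ1^(j+1)) x = (χ1 x)^(j+1), MulChar.pow_apply'); prim: PrimM.pow (GS1). -/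
theorem ChD.pow (hp : p.Prime) (hD : ChD F π π' p T1 a f2 f3 χ χ1 χ2 χ3 ψa) {j : ℕ} (hj : j + 1 < p) :
    ChD F π π' p T1 a f2 f3 (chp χ j) (χ1 ^ (j + 1)) (χ2 ^ (j + 1)) (χ3 ^ (j + 1)) ψa := by
  refine ⟨⟨hD.pch.ne, ?_, ?_, ?_⟩, hD.pos, hD.abv, hD.pi1, hD.pi2, hD.cop3, ?_, ?_, ?_, ?_, ?_, hD.psi⟩
  · intro b hb hc
    rw [chp_apply, ← pow_mul, mul_comm, pow_mul, hD.pch.val b hb hc, one_pow]
  · intro b hc
    rw [chp_apply, hD.pch.zero b hc, zero_pow (Nat.succ_ne_zero j)]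
  · intro x y hx hy hc hxy
    rw [chp_apply, chp_apply, hD.pch.per x y hx hy hc hxy]
  · rw [← pow_mul, mul_comm, pow_mul, hD.one1, one_pow]
  · rw [← pow_mul, mul_comm, pow_mul, hD.one2, one_pow]
  · rw [← pow_mul, mul_comm, pow_mul, hD.one3, one_pow]
  · intro x hx
    rw [chp_apply, hD.eq x hx, ts14_eval, ts14_eval, ts14_eval, mul_pow, mul_pow]
  · have hne : fT T1 a ≠ ⊥ := by
      intro h0
      apply hD.pch.ne
      rw [h0, Ideal.bot_mul, Ideal.bot_mul]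
    have hfin : Finite (𝓞 K ⧸ fT T1 a) := Ideal.finiteQuotientOfFreeOfNeBot _ hne
    have := Fintype.ofFinite (𝓞 K ⧸ fT T1 a)
    exact hD.prim.pow hp hD.one1 (Nat.succ_pos j) hj

/-- Chunk TS14b (S/M). gs_val (GS2) for χ1; the product over j of the Gauss sums of (χ1^(j+1))⁻¹ = χ1^(p-1-j) is the same product (Finset.prod_range_reflect). -/
theorem gs_val_inv (hp : p.Prime) (h1 : χ1 ^ p = 1) (hχ : PrimM χ1) [Fintype (𝓞 K ⧸ fT T1 a)] (hψ : ψa.IsPrimitive) (V : ValuationSubring ℂ) :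
    V.valuation (∏ j ∈ Finset.range (p - 1), gaussSum (χ1 ^ (j + 1))⁻¹ ψa) ^ 2 = V.valuation (Fintype.card (𝓞 K ⧸ fT T1 a) : ℂ) ^ (p - 1) := by
  have e : ∏ j ∈ Finset.range (p - 1), gaussSum (χ1 ^ (j + 1))⁻¹ ψa = ∏ j ∈ Finset.range (p - 1), gaussSum (χ1 ^ (j + 1)) ψa := by
    rw [← Finset.prod_range_reflect (fun j => gaussSum (χ1 ^ (j + 1)) ψa) (p - 1)]
    refine Finset.prod_congr rfl fun j hj => ?_
    have hj' : j < p - 1 := Finset.mem_range.1 hj
    have h3 : p - 1 - 1 - j + 1 = p - (j + 1) := by omega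
    have h4 : χ1 ^ (p - (j + 1)) = (χ1 ^ (j + 1))⁻¹ := by
      refine eq_inv_of_mul_eq_one_left ?_
      rw [← pow_add, Nat.sub_add_cancel (by omega), h1]
    rw [h3, h4]
  rw [e]
  exact gs_val hp h1 hχ hψ V

/-- Chunk TS14 (M/L). PROOF. Λ0 for PsiP K (base_int), Λ_j for chp χ j, j < p - 1 (tw_int for TS14a), all integral with De and De τ_j, τ_j = gaussSum (χ1^(j+1))⁻¹ ψa. As in LVP_of_step (Lib/H55P/T5.lean; the part of its proof with AI_stepP gives the sum of the series of PsiP K' for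
Re s > 3/2) the function Λ' = Λ0 * prod Λ_j is a continuation for PsiP K' (every continuation has the same value at 1: ident), and V(De' Λ'(1)) = V(De Λ0(1)) * prod over j of V(De τ_j Λ_j(1)) by hDe. All factors are <= 1, so the product is 1 iff
all are 1 (linearly ordered), iff LVn V De (PsiP K) and for all j < p - 1 LVn V (De τ_j) (Ψ chp χ j), iff (tw_iff for TS14a; p >= 2, so there is j = 0) LVn V De (PsiP K) and the conditions. -/
theorem step_iff (hP : Plc F V π π' p) {M : Ideal (𝓞 F)} {ψ : Ideal (𝓞 F) →*₀ 𝓞 F} (h : IsHecke M ψ)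
    (hMp : IsCoprime M (Ideal.span {(p : 𝓞 F)})) (hm : Module.finrank F K = m + 1) (hNT : NTP K p M ψ V)
    (hCV : ∀ l, Mod p M l → CVH F K m V π π' p De M l) (hD : ChD F π π' p T1 a f2 f3 χ χ1 χ2 χ3 ψa) [Fintype (𝓞 K ⧸ fT T1 a)]
    (K' : Type) [Field K'] [NumberField K'] [Algebra F K'] [Algebra K K'] [IsScalarTower F K K'] (hn : Module.finrank K K' = p)
    (hs : SplitP K K' p χ) (De' : ℂ)
    (hDe : V.valuation De' = V.valuation (De ^ p * ∏ j ∈ Finset.range (p - 1), gaussSum (χ1 ^ (j + 1))⁻¹ ψa)) :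
    LVn V De' (PsiP K' ψ) ↔
      LVn V De (PsiP K ψ) ∧ ∀ w : HeightOneSpectrum (𝓞 K), fT T1 a * f2 * f3 ≤ w.asIdeal → Cnd V π ψ w := by
  classical
  have hp := hP.prime
  obtain ⟨Λ₁, ha1, hs1, hu1⟩ := base_int hP h hMp hm hNT hCV
  have h2' : ∀ j, ∃ Λ : ℂ → ℂ, j < p - 1 → AnalyticOnNhd ℂ Λ {s | 1 / 2 < s.re} ∧
      (∀ s : ℂ, 3 / 2 < s.re → HasSum (tm (PsiP K ψ * chp χ j : Ideal (𝓞 K) →*₀ ℂ) s) (Λ s)) ∧
      V.valuation (De * gaussSum (χ1 ^ (j + 1))⁻¹ ψa * Λ 1) ≤ 1 := by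
    intro j
    by_cases hj : j < p - 1
    · obtain ⟨Λ, hΛ⟩ := tw_int hP h hMp hm hNT hCV (hD.pow hp (j := j) (by omega))
      exact ⟨Λ, fun _ => hΛ⟩
    · exact ⟨fun _ => 0, fun h => absurd h hj⟩
  choose Λ hΛ using h2'
  have hb : ∀ j, j < p - 1 → ∀ b : Ideal (𝓞 K),
      ‖(PsiP K ψ * chp χ j : Ideal (𝓞 K) →*₀ ℂ) b‖ ^ 2 ≤ Ideal.absNorm b := by
    intro j hj b
    refine le_trans ?_ (PsiP_norm_le h b)
    have h4 : (PsiP K ψ * chp χ j : Ideal (𝓞 K) →*₀ ℂ) b = PsiP K ψ b * chp χ j b := rfl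
    rw [h4, norm_mul, mul_pow]
    exact mul_le_of_le_one_right (by positivity)
      (pow_le_one₀ (norm_nonneg _) (ts14_norm hp.ne_zero (hD.pow hp (j := j) (by omega)).pch b))
  have haL : AnalyticOnNhd ℂ (fun s => Λ₁ s * ∏ j ∈ Finset.range (p - 1), Λ j s) {s | 1 / 2 < s.re} := by
    intro s hs'
    refine (ha1 s hs').mul ?_
    exact Finset.analyticAt_fun_prod _ fun j hj => (hΛ j (Finset.mem_range.1 hj)).1 s hs'
  have hsL : ∀ s : ℂ, 3 / 2 < s.re → HasSum (tm (PsiP K' ψ) s) (Λ₁ s * ∏ j ∈ Finset.range (p - 1), Λ j s) := by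
    intro s hs'
    have hsum := tm_summable (PsiP K' ψ) (fun a => PsiP_norm_le h a) s hs'
    have hL := AI_LSeries (PsiP K' ψ) (PsiP K' ψ).map_zero s hsum
    have hsum1 := tm_summable (PsiP K ψ) (fun a => PsiP_norm_le h a) s hs'
    have hL1 := AI_LSeries (PsiP K ψ) (PsiP K ψ).map_zero s hsum1
    have hL2 := fun (j : ℕ) (hj : j < p - 1) => AI_LSeries (PsiP K ψ * chp χ j : Ideal (𝓞 K) →*₀ ℂ)
      (PsiP K ψ * chp χ j : Ideal (𝓞 K) →*₀ ℂ).map_zero s
      (tm_summable (PsiP K ψ * chp χ j : Ideal (𝓞 K) →*₀ ℂ) (hb j hj) s hs')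
    have hL3 := pt5_prod (p - 1) (fun j => AI (PsiP K ψ * chp χ j : Ideal (𝓞 K) →*₀ ℂ))
      (fun j => Λ j s) (fun j hj => by
        have h3 := hL2 j hj
        rw [((hΛ j hj).2.1 s hs').tsum_eq] at h3
        exact h3)
    have hL4 := ArithmeticFunction.LSeriesHasSum_mul hL1 hL3
    rw [← AI_stepP K K' ψ p hp χ hs] at hL4
    have h5 : ∑' a, tm (PsiP K' ψ) s a = Λ₁ s * ∏ j ∈ Finset.range (p - 1), Λ j s := by
      rw [hL.unique hL4, (hs1 s hs').tsum_eq]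
    rw [← h5]
    exact hsum.of_norm.hasSum
  have hval : V.valuation (De' * (Λ₁ 1 * ∏ j ∈ Finset.range (p - 1), Λ j 1)) =
      V.valuation (De * Λ₁ 1) * ∏ j ∈ Finset.range (p - 1), V.valuation (De * gaussSum (χ1 ^ (j + 1))⁻¹ ψa * Λ j 1) := by
    have hDp : De ^ p = De * ∏ j ∈ Finset.range (p - 1), De := by
      rw [Finset.prod_const, Finset.card_range, ← pow_succ', Nat.sub_add_cancel hp.one_le]
    rw [map_mul, hDe, hDp, ← map_mul, ← map_prod, ← map_mul]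
    congr 1
    rw [Finset.prod_mul_distrib, Finset.prod_mul_distrib]
    ring
  have hiff : V.valuation (De' * (Λ₁ 1 * ∏ j ∈ Finset.range (p - 1), Λ j 1)) = 1 ↔
      V.valuation (De * Λ₁ 1) = 1 ∧ ∀ j ∈ Finset.range (p - 1), V.valuation (De * gaussSum (χ1 ^ (j + 1))⁻¹ ψa * Λ j 1) = 1 := by
    rw [hval]
    have hprod : ∏ j ∈ Finset.range (p - 1), V.valuation (De * gaussSum (χ1 ^ (j + 1))⁻¹ ψa * Λ j 1) ≤ 1 :=
      Finset.prod_le_one' fun j hj => (hΛ j (Finset.mem_range.1 hj)).2.2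
    constructor
    · intro h1
      have h3 : V.valuation (De * Λ₁ 1) = 1 := by
        refine le_antisymm hu1 ?_
        by_contra hcon
        have h4 := mul_lt_one_of_lt_of_le (not_le.1 hcon) hprod
        rw [h1] at h4
        exact lt_irrefl _ h4
      refine ⟨h3, ?_⟩
      rw [h3, one_mul] at h1
      intro j hj
      refine le_antisymm (hΛ j (Finset.mem_range.1 hj)).2.2 ?_
      by_contra hcon
      have h5 : ∏ i ∈ (Finset.range (p - 1)).erase j, V.valuation (De * gaussSum (χ1 ^ (i + 1))⁻¹ ψa * Λ i 1) ≤ 1 :=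
        Finset.prod_le_one' fun i hi => (hΛ i (Finset.mem_range.1 (Finset.mem_of_mem_erase hi))).2.2
      have h4 := mul_lt_one_of_lt_of_le (not_le.1 hcon) h5
      rw [Finset.mul_prod_erase _ (fun i => V.valuation (De * gaussSum (χ1 ^ (i + 1))⁻¹ ψa * Λ i 1)) hj, h1] at h4
      exact lt_irrefl _ h4
    · rintro ⟨h1, h3⟩
      rw [h1, Finset.prod_congr rfl h3, Finset.prod_const_one, one_mul]
  rw [ts14_lvn haL hsL, hiff, ← ts14_lvn ha1 hs1]
  constructor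
  · rintro ⟨h1, h3⟩
    have h0 : 0 < p - 1 := by
      have := hp.two_le
      omega
    have h4 := h3 0 (Finset.mem_range.2 h0)
    rw [← ts14_lvn (hΛ 0 h0).1 (hΛ 0 h0).2.1] at h4
    exact (tw_iff hP h hMp hm hNT hCV (hD.pow hp (j := 0) (by omega))).1 h4
  · rintro ⟨h1, h3⟩
    refine ⟨h1, fun j hj => ?_⟩
    have hj' : j < p - 1 := Finset.mem_range.1 hj
    rw [← ts14_lvn (hΛ j hj').1 (hΛ j hj').2.1]
    exact (tw_iff hP h hMp hm hNT hCV (hD.pow hp (j := j) (by omega))).2 ⟨h1, h3⟩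

end H35M
end

-- from Lib.H35M.SY3
section

/-! # H35M, part S: the step of degree p in the canonical normalisation -/

open NumberField IsDedekindDomain

namespace H35M

open H55N H55P SSR
open H35P (WAB)
open H55K (Dta)
open H55R (es)

variable {F : Type} [Field F] [NumberField F] [IQ F]

theorem sy3_basis (K : Type) [Field K] [NumberField K] [Algebra F K] : ∃ m : ℕ, Module.finrank F K = m + 1 ∧
    Nonempty (Module.Basis (Fin (m + 1)) (𝓞 F) (𝓞 K)) := by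
  have : FiniteDimensional F K := Module.Finite.of_restrictScalars_finite ℚ F K
  have h0 := Module.finrank_pos (R := F) (M := K)
  refine ⟨Module.finrank F K - 1, by omega, ?_⟩
  have : Module.Free (𝓞 F) (𝓞 K) := Module.free_of_finite_type_torsion_free'
  refine ⟨Module.finBasisOfFinrankEq (𝓞 F) (𝓞 K) ?_⟩
  rw [← IsFractionRing.finrank_eq (𝓞 F) F (𝓞 K) K]
  omega

/-- Integrality over K, arbitrary ramification. -/
theorem lvoi_base {A B : F} {Om : ℂ} {Ω : Type} [Field Ω] [DecidableEq Ω] [Algebra F Ω] [IsAlgClosure F Ω] {j : Ω →+* ℂ}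
    {act : 𝓞 F →+* AddMonoid.End (Pt (WAB A B) Ω)} {M : Ideal (𝓞 F)} {ψ : Ideal (𝓞 F) →*₀ 𝓞 F} {p : ℕ} [Fact p.Prime]
    (d : Dta A B Om j act M ψ p) {V : ValuationSubring ℂ} {π π' : 𝓞 F} (hP : Plc F V π π' p)
    (K : Type) [Field K] [NumberField K] [Algebra F K] (hNT : NTP K p M ψ V) : LVOi F V Om (PsiP K ψ) := by
  obtain ⟨m, hm, ⟨ω⟩⟩ := sy3_basis (F := F) K
  obtain ⟨δ, hδ⟩ := IsAlgClosed.exists_pow_nat_eq (embF F (Algebra.discr F fun s => (ω s : K))) (n := 2) two_pos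
  rw [← (lvn_iff hP hm ω hδ Om (PsiP K ψ)).2]
  exact base_int hP d.hecke d.cop hm hNT fun l hM => cvh_of d hP hM K m hm ω δ hδ

theorem sy3_De {V : ValuationSubring ℂ} {π π' : 𝓞 F} {p : ℕ} (hP : Plc F V π π' p) (K K' : Type) [Field K] [NumberField K] [Algebra F K]
    [Field K'] [NumberField K'] [Algebra F K'] [Algebra K K'] [IsScalarTower F K K'] [IsGalois K K'] (hn : Module.finrank K K' = p)
    {m m' : ℕ} (hm : Module.finrank F K = m + 1) (hm' : Module.finrank F K' = m' + 1)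
    (ω : Module.Basis (Fin (m + 1)) (𝓞 F) (𝓞 K)) {δ : ℂ} (hδ : δ ^ 2 = embF F (Algebra.discr F fun s => (ω s : K)))
    (ω' : Module.Basis (Fin (m' + 1)) (𝓞 F) (𝓞 K')) {δ' : ℂ} (hδ' : δ' ^ 2 = embF F (Algebra.discr F fun s => (ω' s : K')))
    (Om : ℂ) {T1 : Finset (HeightOneSpectrum (𝓞 K))} {t : HeightOneSpectrum (𝓞 K) → ℕ}
    (hT1 : ∀ v, v ∈ T1 ↔ algebraMap (𝓞 F) (𝓞 K) π ∈ v.asIdeal ∧ es K K' v ≠ 1)
    (ht : ∀ v ∈ T1, ∃ w : HeightOneSpectrum (𝓞 K'), TRam p v w (t v))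
    {f2 f3 : Ideal (𝓞 K)} {χ : Ideal (𝓞 K) →*₀ ℂ} {χ1 : MulChar (𝓞 K ⧸ fT T1 fun v => t v + 1) ℂ} {χ2 : MulChar (𝓞 K ⧸ f2) ℂ}
    {χ3 : MulChar (𝓞 K ⧸ f3) ℂ} {ψa : AddChar (𝓞 K ⧸ fT T1 fun v => t v + 1) ℂ}
    (hD : ChD F π π' p T1 (fun v => t v + 1) f2 f3 χ χ1 χ2 χ3 ψa) [Fintype (𝓞 K ⧸ fT T1 fun v => t v + 1)] :
    V.valuation (δ' / Om ^ (m' + 1)) =
      V.valuation ((δ / Om ^ (m + 1)) ^ p * ∏ j ∈ Finset.range (p - 1), gaussSum (χ1 ^ (j + 1))⁻¹ ψa) := by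
  have hp := hP.prime
  have hmm : m' + 1 = (m + 1) * p := by
    rw [← hm', ← hm, ← hn]
    exact (Module.finrank_mul_finrank F K K').symm
  have hc : V.valuation ((starRingEnd ℂ) (eF F π)) = 1 := by
    rw [H41D.conj_pi hp hP.pr.not_isUnit hP.nu hP.mul.symm]
    exact hP.one
  obtain ⟨C, hC, hCD⟩ := diff_step (F := F) K K' hP hn hT1 ht
  have h1 := H41D.vN_diff_cond V hP.pr hP.lt hc T1 (fun v hv => ((hT1 v).1 hv).1) (fun v => t v + 1) (p - 1) C hC hCD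
  rw [hn, ← val_delta hP hm ω hδ, ← val_delta hP hm' ω' hδ'] at h1
  have h2 := gs_val_inv hp hD.one1 hD.prim hD.psi V
  have hcard : ((Fintype.card (𝓞 K ⧸ fT T1 fun v => t v + 1) : ℕ) : ℂ) = ((Ideal.absNorm (fT T1 fun v => t v + 1) : ℕ) : ℂ) := by
    rw [Ideal.absNorm_apply, Submodule.cardQuot_apply, Nat.card_eq_fintype_card]
  rw [hcard] at h2
  refine (pow_left_inj₀ zero_le' zero_le' two_ne_zero).1 ?_
  rw [map_div₀, map_pow, map_mul, map_pow, map_div₀, map_pow, mul_pow, h2, div_pow, h1, hmm]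
  rw [div_pow, div_pow, ← pow_mul, ← pow_mul, ← pow_mul, ← pow_mul, ← pow_mul, mul_comm 2 p, div_mul_eq_mul_div]
  congr 1
  · rw [mul_comm]
  · rw [mul_assoc]

/-- One step of degree p, arbitrary ramification. -/
theorem stepO {A B : F} {Om : ℂ} {Ω : Type} [Field Ω] [DecidableEq Ω] [Algebra F Ω] [IsAlgClosure F Ω] {j : Ω →+* ℂ}
    {act : 𝓞 F →+* AddMonoid.End (Pt (WAB A B) Ω)} {M : Ideal (𝓞 F)} {ψ : Ideal (𝓞 F) →*₀ 𝓞 F} {p : ℕ} [Fact p.Prime]
    (d : Dta A B Om j act M ψ p) {V : ValuationSubring ℂ} {π π' : 𝓞 F} (hP : Plc F V π π' p)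
    (K K' : Type) [Field K] [NumberField K] [Algebra F K] [Field K'] [NumberField K'] [Algebra F K'] [Algebra K K'] [IsScalarTower F K K']
    [IsGalois K K'] (hn : Module.finrank K K' = p) (hNT : NTP K p M ψ V) :
    LVO F V Om (PsiP K' ψ) ↔ LVO F V Om (PsiP K ψ) ∧ ∀ w : HeightOneSpectrum (𝓞 K), es K K' w ≠ 1 → Cnd V π ψ w := by
  obtain ⟨m, hm, ⟨ω⟩⟩ := sy3_basis (F := F) K
  obtain ⟨m', hm', ⟨ω'⟩⟩ := sy3_basis (F := F) K'
  obtain ⟨δ, hδ⟩ := IsAlgClosed.exists_pow_nat_eq (embF F (Algebra.discr F fun s => (ω s : K))) (n := 2) two_pos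
  obtain ⟨δ', hδ'⟩ := IsAlgClosed.exists_pow_nat_eq (embF F (Algebra.discr F fun s => (ω' s : K'))) (n := 2) two_pos
  obtain ⟨T1, t, f2, f3, χ, χ1, χ2, χ3, ψa, hD, hs, hcond, hT1, ht⟩ := exists_ChD (F := F) K K' hP hn
  have hfin : Finite (𝓞 K ⧸ fT T1 fun v => t v + 1) := by
    refine Ideal.finiteQuotientOfFreeOfNeBot _ ?_
    exact Finset.prod_ne_zero_iff.2 fun v _ => pow_ne_zero _ v.ne_bot
  have := Fintype.ofFinite (𝓞 K ⧸ fT T1 fun v => t v + 1)
  have h1 := step_iff hP d.hecke d.cop hm hNT (fun l hM => cvh_of d hP hM K m hm ω δ hδ) hD K' hn hs (δ' / Om ^ (m' + 1))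
    (sy3_De hP K K' hn hm hm' ω hδ ω' hδ' Om hT1 ht hD)
  rw [← (lvn_iff hP hm' ω' hδ' Om (PsiP K' ψ)).1, ← (lvn_iff hP hm ω hδ Om (PsiP K ψ)).1, h1]
  refine and_congr_right fun _ => forall_congr' fun w => ?_
  rw [hcond]

end H35M
end

-- from Lib.H35M.SY4
section

/-! # H35M, part S: the tower in the canonical normalisation (port of H55P/I3) -/

open NumberField IsDedekindDomain

namespace H35M

open H55N H55P
open H35P (WAB)
open H55K (Dta)

variable {F : Type} [Field F] [NumberField F] [IQ F]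

/-- The condition at a prime above is equivalent to the condition below (residue degree a power of p): adm_up, adm_iff of H55P (T12, I3) and the same for PsiP (pow_max, unit_of_pow with PsiP_int.1). -/
theorem cnd_iff (K K' : Type) [Field K] [NumberField K] [Algebra F K] [Field K'] [NumberField K']
    [Algebra F K'] [Algebra K K'] [IsScalarTower F K K'] {p : ℕ} (hp : p.Prime)
    {ψ : Ideal (𝓞 F) →*₀ 𝓞 F} {V : ValuationSubring ℂ} (hV : V.valuation (p : ℂ) < 1) (π : 𝓞 F)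
    (w : HeightOneSpectrum (𝓞 K)) (W : HeightOneSpectrum (𝓞 K'))
    (hW : W.asIdeal.under (𝓞 K) = w.asIdeal) (hf : ∃ j : ℕ, W.asIdeal.inertiaDeg (𝓞 K) = p ^ j) :
    Cnd V π ψ w ↔ Cnd V π ψ W := by
  have hl : W.asIdeal.LiesOver w.asIdeal := ⟨hW.symm⟩
  have hw := w.isMaximal
  have hwp := w.isPrime
  have hWm := W.isMaximal
  have hWp := W.isPrime
  have hmem : algebraMap (𝓞 F) (𝓞 K) π ∈ w.asIdeal ↔ algebraMap (𝓞 F) (𝓞 K') π ∈ W.asIdeal := by
    rw [← hW]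
    show algebraMap (𝓞 K) (𝓞 K') (algebraMap (𝓞 F) (𝓞 K) π) ∈ W.asIdeal ↔ _
    have h1 : algebraMap (𝓞 K) (𝓞 K') (algebraMap (𝓞 F) (𝓞 K) π) = algebraMap (𝓞 F) (𝓞 K') π := by
      apply RingOfIntegers.ext
      exact (IsScalarTower.algebraMap_apply F K K' (π : F)).symm
    rw [h1]
  have h1 := Ideal.relNorm_eq_pow_of_isMaximal W.asIdeal w.asIdeal
  have h2 : PsiP K' ψ W.asIdeal = PsiP K ψ w.asIdeal ^ W.asIdeal.inertiaDeg (𝓞 K) := by
    rw [PsiP_top (K := K), h1, map_pow]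
  have hplain : V.valuation (1 - PsiP K ψ w.asIdeal) = 1 ↔ V.valuation (1 - PsiP K' ψ W.asIdeal) = 1 := by
    rw [h2]
    constructor
    · intro h
      obtain ⟨j, hj⟩ := hf
      rw [hj]
      exact pow_max p hp V hV _ (PsiP_int ψ w.asIdeal V).1 h j
    · exact unit_of_pow V _ (PsiP_int ψ w.asIdeal V).1 _
  have hconj := adm_iff (ψ := ψ) K K' p hp V hV w W hW hf
  unfold Cnd
  rw [hmem, hplain, hconj]

theorem sy4_self {Ω : Type} [Field Ω] [Algebra F Ω] (K : IntermediateField F Ω) [NumberField K] (v : HeightOneSpectrum (𝓞 K))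
    (hv : Ram K K v.asIdeal) : False := by
  obtain ⟨W, hWp, hW⟩ := hv
  have h1 : v.asIdeal ≤ W ^ 2 := fun x hx => hW x x hx rfl
  have hWn : W ≠ ⊥ := by
    rintro rfl
    apply v.ne_bot
    rw [eq_bot_iff]
    exact h1.trans (Ideal.pow_le_self two_ne_zero)
  have h2 : v.asIdeal = W := v.isMaximal.eq_of_le hWp.ne_top (h1.trans (Ideal.pow_le_self two_ne_zero))
  have h3 : W ≤ W ^ 2 := h2 ▸ h1
  have h4 := Ideal.pow_right_strictAnti W hWn hWp.ne_top (show 1 < 2 by norm_num)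
  have h4' : W ^ 2 < W ^ 1 := h4
  rw [pow_one] at h4'
  exact lt_irrefl _ (lt_of_lt_of_le h4' h3)

variable {Ω : Type} [Field Ω] [DecidableEq Ω] [Algebra F Ω] [IsAlgClosure F Ω]

/-- The tower. Copy of H55P.LVP_tower_iff (Lib/H55P/I3.lean): chain_step, ram_tower, ram_down, stepO, cnd_iff, NTP_up. -/
theorem tower_iff {A B : F} {Om : ℂ} {j : Ω →+* ℂ}
    {act : 𝓞 F →+* AddMonoid.End (Pt (WAB A B) Ω)} {mo : Ideal (𝓞 F)} {ψ : Ideal (𝓞 F) →*₀ 𝓞 F} {p : ℕ} [Fact p.Prime]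
    (d : Dta A B Om j act mo ψ p) {V : ValuationSubring ℂ} {π π' : 𝓞 F} (hP : Plc F V π π' p) (hV : V.valuation (p : ℂ) < 1)
    (M L : IntermediateField F Ω) (hL : PExt p M L) [NumberField M] (hNT : NTP M p mo ψ V)
    (K : IntermediateField F Ω) [NumberField K] (hMK : M ≤ K) (hKL : K ≤ L) :
    LVO F V Om (PsiP K ψ) ↔ LVO F V Om (PsiP M ψ) ∧ ∀ v : HeightOneSpectrum (𝓞 M), Ram M K v.asIdeal → Cnd V π ψ v := by
  have hac : IsAlgClosed Ω := IsAlgClosure.isAlgClosed F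
  have hal : Algebra.IsAlgebraic F Ω := IsAlgClosure.isAlgebraic
  have hcz : CharZero Ω := charZero_of_injective_algebraMap (FaithfulSMul.algebraMap_injective F Ω)
  have hp : p.Prime := Fact.out
  have hLf : FiniteDimensional F L := hL.fin
  have hMf : FiniteDimensional F M := finDim_of_le hL.le
  have key : ∀ (n : ℕ) (K : IntermediateField F Ω) [NumberField K], M ≤ K → K ≤ L →
      Module.finrank F K = n → (LVO F V Om (PsiP K ψ) ↔ LVO F V Om (PsiP M ψ) ∧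
        ∀ v : HeightOneSpectrum (𝓞 M), Ram M K v.asIdeal → Cnd V π ψ v) := by
    intro n
    induction n using Nat.strong_induction_on with
    | _ n ih =>
      intro K _ hMK hKL hn
      rcases eq_or_ne K M with rfl | hne
      · exact ⟨fun h => ⟨h, fun v hv => (sy4_self K v hv).elim⟩, fun h => h.1⟩
      obtain ⟨N, hMN, hNK, hdeg, hnorm⟩ := chain_step p hp M K L hL hMK hKL hne
      have hKf : FiniteDimensional F K := finDim_of_le hKL
      have hNf : FiniteDimensional F N := finDim_of_le hNK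
      have hNn : NumberField N := H16C.FR_numberField N
      have hNpos : 0 < Module.finrank F N := Module.finrank_pos
      have hlt : Module.finrank F N < n := by
        rw [← hn, hdeg]
        exact lt_mul_of_one_lt_right hNpos hp.one_lt
      letI iNK : Algebra N K := (IntermediateField.inclusion hNK).toRingHom.toAlgebra
      letI iMN : Algebra M N := (IntermediateField.inclusion hMN).toRingHom.toAlgebra
      obtain ⟨hst, hgal, hfr⟩ := chain_types p hp N K hNK hnorm hdeg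
      have hstM : IsScalarTower F M N := alg_tower M N hMN
      have hLN := ih _ hlt N hMN (hNK.trans hKL) rfl
      obtain ⟨j', hj'⟩ := pext_deg p hp M N L hL hMN (hNK.trans hKL)
      have hNTN : NTP N p mo ψ V := NTP_up M N p hp j' hj' V hV hNT
      rw [stepO d hP N K hfr hNTN, hLN]
      have hrt := fun v => ram_tower M N K hMN hNK hnorm v
      constructor
      · rintro ⟨⟨h1, h2⟩, h3⟩
        refine ⟨h1, fun v hv => ?_⟩
        rcases (hrt v).1 hv with h4 | ⟨w, hw1, hw2⟩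
        · exact h2 v h4
        · obtain ⟨v', hv', -, hf⟩ := ram_down p hp M N K L hL hMN hNK hKL hnorm w hw2
          have hf' : ∃ j : ℕ, w.asIdeal.inertiaDeg (𝓞 M) = p ^ j := hf
          exact (cnd_iff M N hp hV π v w hw1 hf').2 (h3 w hw2)
      · rintro ⟨h1, h2⟩
        refine ⟨⟨h1, fun v hv => h2 v ((hrt v).2 (Or.inl hv))⟩, fun w hw => ?_⟩
        obtain ⟨v, hv, -, hf⟩ := ram_down p hp M N K L hL hMN hNK hKL hnorm w hw
        exact (cnd_iff M N hp hV π v w hv hf).1 (h2 v ((hrt v).2 (Or.inr ⟨w, hv, hw⟩)))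
  exact key _ K hMK hKL rfl

end H35M
end

-- from Lib.H35M.SZ1
section

/-! # H35M: the analytic half of (B): p split in F, E(M)[p] = 0, arbitrary ramification -/

open NumberField IsDedekindDomain WeierstrassCurve

namespace H35M

open H55N H55P
open H55K.TQ (BaseH PrimeH)
open H19B (Spl)
open H13R (NoRel)
open H55K (cj)

variable {F : Type} [Field F] [NumberField F] [IQ F] {W₀ : WeierstrassCurve (𝓞 F)} {Om : ℂ} {m : Ideal (𝓞 F)} {ψ : Ideal (𝓞 F) →*₀ 𝓞 F} {p : ℕ}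

theorem sz1_iff (hp : p.Prime) {V : ValuationSubring ℂ} (hV : V.valuation (p : ℂ) < 1) (z : 𝓞 F) :
    ¬ p ∣ Nm z ↔ V.valuation (eF F z) = 1 ∧ V.valuation ((starRingEnd ℂ) (eF F z)) = 1 := by
  constructor
  · intro h
    exact gen_unit p hp z h V hV
  · rintro ⟨h1, h2⟩ ⟨t, ht⟩
    have h3 : ((Nm z : ℕ) : ℂ) = eF F z * (starRingEnd ℂ) (eF F z) := H41D.absNorm_eF z
    have h4 : V.valuation ((Nm z : ℕ) : ℂ) = 1 := by rw [h3, map_mul, h1, h2, one_mul]
    rw [ht, Nat.cast_mul, map_mul] at h4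
    have h5 := mul_lt_one_of_lt_of_le hV (pt9_nat V t)
    rw [h4] at h5
    exact lt_irrefl _ h5

theorem sz1_one {V : ValuationSubring ℂ} {a : ℂ} (ha : V.valuation a < 1) : V.valuation (1 - a) = 1 := by
  have h := V.valuation.map_sub_eq_of_lt_right (x := a) (y := 1) (by rw [map_one]; exact ha)
  rw [map_one] at h
  rw [← h, ← Valuation.map_neg, neg_sub]

/-- The conditions at V and at the conjugate place together are the condition on the number of points. -/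
theorem cnd_pair (hH : BaseH F W₀ Om m ψ) (hp : PrimeH F W₀ p) {V : ValuationSubring ℂ} (hV : V.valuation (p : ℂ) < 1) {π π' : 𝓞 F}
    (hP : Plc F V π π' p) (M : IntermediateField F (AlgebraicClosure F)) [NumberField M] (v : HeightOneSpectrum (𝓞 M))
    (hΔ : algebraMap (𝓞 F) (𝓞 M) W₀.Δ ∉ v.asIdeal) :
    (Cnd V π ψ v ∧ Cnd (V.comap (starRingEnd ℂ)) π' ψ v) ↔ ¬ p ∣ Nat.card (W₀⁄(𝓞 M ⧸ v.asIdeal)).toAffine.Point := by
  obtain ⟨v₀, hv₀, hN, hf, hmv⟩ := H55K.DD.below (m := m) v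
  have hm : ¬ mK M m ≤ v.asIdeal := by
    intro h
    have h1 : W₀.Δ ∈ v₀.asIdeal := (hH.supp v₀).2 (hmv.1 h)
    rw [hv₀] at h1
    exact hΔ h1
  rw [H55K.pts_w hH.data.hecke (fun v h _ => hH.deu v h) v hΔ hm]
  obtain ⟨x, hx⟩ : ∃ x : 𝓞 F, x = ψ (Ideal.relNorm (𝓞 F) v.asIdeal) := ⟨_, rfl⟩
  rw [← hx, sz1_iff hp.prime hV]
  have hPsi : PsiP M ψ v.asIdeal = (starRingEnd ℂ) (eF F x) := by
    rw [PsiP_apply, hx]
  have e1 : 1 - PsiP M ψ v.asIdeal = (starRingEnd ℂ) (eF F (1 - x)) := by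
    rw [hPsi, map_sub, map_one, map_sub, map_one]
  have e2 : 1 - (starRingEnd ℂ) (PsiP M ψ v.asIdeal) = eF F (1 - x) := by
    rw [hPsi, Complex.conj_conj, map_sub, map_one]
  have hcV : ∀ z : ℂ, (V.comap (starRingEnd ℂ)).valuation z = 1 ↔ V.valuation ((starRingEnd ℂ) z) = 1 := H41D.cV_eq_one V
  have hcop : IsCoprime (Ideal.relNorm (𝓞 F) v.asIdeal) m := by
    rw [hN]
    exact (H55K.DD.d8_cop fun h => hm (hmv.2 h)).pow_left
  have hgen : Ideal.span {x} = Ideal.relNorm (𝓞 F) v.asIdeal := by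
    rw [hx]
    exact hH.data.hecke.gen _ hcop
  have hdvd : ∀ ρ : 𝓞 F, Prime ρ → algebraMap (𝓞 F) (𝓞 M) ρ ∈ v.asIdeal → ρ ∣ x := by
    intro ρ hρ hρv
    obtain ⟨f, hf0, hf1⟩ := H41D.relNorm_prime hρ v hρv
    rw [hf1] at hgen
    have h1 : Associated x (ρ ^ f) := Ideal.span_singleton_eq_span_singleton.1 hgen
    exact (dvd_pow_self ρ hf0).trans h1.symm.dvd
  have hπ' : Prime π' := by
    have h1 : (starRingEnd ℂ) (eF F π) = eF F π' := H41D.conj_pi hP.prime hP.pr.not_isUnit hP.nu hP.mul.symm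
    have h2 : eF F (cj π) = eF F π' := by rw [H55K.e_cj, h1]
    have h3 : cj π = π' := by
      apply sub_eq_zero.1
      by_contra hne
      exact H41D.eF_ne hne (by rw [map_sub, h2, sub_self])
    rw [← h3]
    exact H55K.cj_prime hP.pr
  have hcj : (starRingEnd ℂ) (eF F π') = eF F π := by
    rw [← H41D.conj_pi hP.prime hP.pr.not_isUnit hP.nu hP.mul.symm, Complex.conj_conj]
  have hA : algebraMap (𝓞 F) (𝓞 M) π ∈ v.asIdeal → V.valuation (eF F (1 - x)) = 1 := by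
    intro h
    obtain ⟨y, hy⟩ := hdvd π hP.pr h
    rw [map_sub, map_one]
    apply sz1_one
    rw [hy, map_mul, map_mul]
    exact mul_lt_one_of_lt_of_le hP.lt (sn2_le V y)
  have hB : algebraMap (𝓞 F) (𝓞 M) π' ∈ v.asIdeal → V.valuation ((starRingEnd ℂ) (eF F (1 - x))) = 1 := by
    intro h
    obtain ⟨y, hy⟩ := hdvd π' hπ' h
    rw [map_sub, map_one, map_sub, map_one]
    apply sz1_one
    rw [hy, map_mul, map_mul, map_mul, hcj]
    exact mul_lt_one_of_lt_of_le hP.lt (H41D.val_eFc V y)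
  have hnot : algebraMap (𝓞 F) (𝓞 M) π ∈ v.asIdeal → algebraMap (𝓞 F) (𝓞 M) π' ∉ v.asIdeal := by
    intro h h'
    obtain ⟨a, b, hab⟩ := hP.cop
    apply v.isPrime.ne_top
    rw [Ideal.eq_top_iff_one]
    have e : (1 : 𝓞 M) = algebraMap (𝓞 F) (𝓞 M) a * algebraMap (𝓞 F) (𝓞 M) π + algebraMap (𝓞 F) (𝓞 M) b * algebraMap (𝓞 F) (𝓞 M) π' := by
      rw [← map_mul, ← map_mul, ← map_add, hab, map_one]
    rw [e]
    exact v.asIdeal.add_mem (v.asIdeal.mul_mem_left _ h) (v.asIdeal.mul_mem_left _ h')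
  unfold Cnd
  rw [e1, e2, hcV, hcV, Complex.conj_conj]
  by_cases h1 : algebraMap (𝓞 F) (𝓞 M) π ∈ v.asIdeal
  · have h2 := hnot h1
    have h3 := hA h1
    tauto
  · by_cases h2 : algebraMap (𝓞 F) (𝓞 M) π' ∈ v.asIdeal
    · have h3 := hB h2
      tauto
    · tauto

/-- The conditions hold at the bad primes. -/
theorem cnd_bad (hH : BaseH F W₀ Om m ψ) (V : ValuationSubring ℂ) (π : 𝓞 F)
    (M : IntermediateField F (AlgebraicClosure F)) [NumberField M] (v : HeightOneSpectrum (𝓞 M))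
    (hΔ : algebraMap (𝓞 F) (𝓞 M) W₀.Δ ∈ v.asIdeal) : Cnd V π ψ v := by
  obtain ⟨v₀, hv₀, hN, hf, hmv⟩ := H55K.DD.below (m := m) v
  have h1 : m ≤ v₀.asIdeal := by
    apply (hH.supp v₀).1
    rw [hv₀]
    exact hΔ
  have h2 : ψ (Ideal.relNorm (𝓞 F) v.asIdeal) = 0 := by
    apply hH.data.hecke.zero
    intro hc
    rw [hN, Ideal.isCoprime_iff_sup_eq] at hc
    apply v₀.isPrime.ne_top
    rw [eq_top_iff, ← hc]
    exact sup_le (Ideal.pow_le_self hf.ne') h1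
  have h3 : PsiP M ψ v.asIdeal = 0 := by
    rw [PsiP_apply, h2, map_zero, map_zero]
  unfold Cnd
  rw [h3, map_zero, sub_zero, map_one]
  exact ⟨fun _ => rfl, fun _ => rfl⟩

section main

variable (hH : BaseH F W₀ Om m ψ) (hp : PrimeH F W₀ p) (hsp : Spl F p) {M L K : IntermediateField F (AlgebraicClosure F)}
  [NumberField M] [NumberField K] (hL : PExt p M L) (hMK : M ≤ K) (hKL : K ≤ L) (hT : NoTor p W₀ M)
  {V : ValuationSubring ℂ} (hV : V.valuation (p : ℂ) < 1)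

include hH hp hsp hL hMK hKL hT hV

/-- Integrality at every place above p. -/
theorem intB : LVOi F V Om (PsiP K ψ) := by
  classical
  have : Fact p.Prime := ⟨hp.prime⟩
  obtain ⟨π, π', hP, -⟩ := exists_plc hp hsp V hV
  obtain ⟨A, B, j, act, hA, hB, d⟩ := SSG.exists_dtaAB (p := p) hH hp
  have hLf : FiniteDimensional F L := hL.fin
  letI iMK : Algebra M K := (IntermediateField.inclusion hMK).toRingHom.toAlgebra
  have hst : IsScalarTower F M K := alg_tower M K hMK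
  obtain ⟨i, hi⟩ := pext_deg p hp.prime M K L hL hMK hKL
  exact lvoi_base d hP K (NTP_up M K p hp.prime i hi V hV (ntp_base hH hp hP M hT))

/-- The criterion at a place and its conjugate. -/
theorem critB : (LVO F V Om (PsiP K ψ) ∧ LVO F (V.comap (starRingEnd ℂ)) Om (PsiP K ψ)) ↔
    (LVO F V Om (PsiP M ψ) ∧ LVO F (V.comap (starRingEnd ℂ)) Om (PsiP M ψ)) ∧ NoRel p W₀ M K := by
  classical
  have : Fact p.Prime := ⟨hp.prime⟩
  obtain ⟨π, π', hP, hP'⟩ := exists_plc hp hsp V hV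
  obtain ⟨A, B, j, act, hA, hB, d⟩ := SSG.exists_dtaAB (p := p) hH hp
  have hV' : (V.comap (starRingEnd ℂ)).valuation (p : ℂ) < 1 := by
    show (H41D.cV V).valuation (p : ℂ) < 1
    rw [H41D.cV_lt_one, map_natCast]
    exact hV
  rw [tower_iff d hP hV M L hL (ntp_base hH hp hP M hT) K hMK hKL,
    tower_iff d hP' hV' M L hL (ntp_base hH hp hP' M hT) K hMK hKL]
  constructor
  · rintro ⟨⟨h1, h2⟩, h3, h4⟩
    exact ⟨⟨h1, h3⟩, fun v hv hΔ => (cnd_pair hH hp hV hP M v hΔ).1 ⟨h2 v hv, h4 v hv⟩⟩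
  · rintro ⟨⟨h1, h3⟩, h⟩
    refine ⟨⟨h1, fun v hv => ?_⟩, h3, fun v hv => ?_⟩
    · by_cases hΔ : algebraMap (𝓞 F) (𝓞 M) W₀.Δ ∈ v.asIdeal
      · exact cnd_bad hH V π M v hΔ
      · exact ((cnd_pair hH hp hV hP M v hΔ).2 (h v hv hΔ)).1
    · by_cases hΔ : algebraMap (𝓞 F) (𝓞 M) W₀.Δ ∈ v.asIdeal
      · exact cnd_bad hH _ π' M v hΔ
      · exact ((cnd_pair hH hp hV hP M v hΔ).2 (h v hv hΔ)).2

end main

end H35M
end

-- from Lib.H35U.U1
section

/-! # H35U, part 1: the discriminant of K F over K, p unramified in F, any ramification in K -/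

open NumberField IsDedekindDomain Polynomial

namespace H35U

open H55P (IQ Nm UnrP eF)
open H55K (cj)
open H55K.TQ (QuadG)
open H41D

variable {F : Type} [Field F] [NumberField F] [IQ F]

/-- The minimal polynomial of δ. -/
theorem u1_min {K₀ K : Type} [Field K₀] [NumberField K₀] [Field K] [NumberField K] [Algebra F K] [Algebra K₀ K] (hQ : QuadG F K₀ K)
    {δ : 𝓞 F} (hδ : cj δ = -δ) (hδ0 : δ ≠ 0) :
    minpoly (𝓞 K₀) (algebraMap (𝓞 F) (𝓞 K) δ) = X ^ 2 + C ((Nm δ : ℕ) : 𝓞 K₀) ∧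
      Algebra.adjoin K₀ {algebraMap (𝓞 K) K (algebraMap (𝓞 F) (𝓞 K) δ)} = ⊤ := by
  obtain ⟨τ, hτ⟩ := hQ.tau
  obtain ⟨θ, hθ⟩ : ∃ θ, θ = algebraMap (𝓞 F) (𝓞 K) δ := ⟨_, rfl⟩
  rw [← hθ]
  have hθK : algebraMap (𝓞 K) K θ = algebraMap F K (δ : F) := by rw [hθ]; rfl
  have hθ0 : algebraMap (𝓞 K) K θ ≠ 0 := by
    rw [hθK, Ne, map_eq_zero]
    exact fun h => hδ0 (RingOfIntegers.coe_eq_zero_iff.1 h)
  have hτθ : τ (algebraMap (𝓞 K) K θ) = -algebraMap (𝓞 K) K θ := by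
    rw [hθK, hτ, hδ]
    show algebraMap F K (algebraMap (𝓞 F) F (-δ)) = _
    rw [map_neg, map_neg]
  have hnot : ∀ x : K₀, algebraMap K₀ K x ≠ algebraMap (𝓞 K) K θ := by
    intro x hx
    have h1 := hτθ
    rw [← hx, τ.commutes] at h1
    have h2 : (2 : K) * algebraMap K₀ K x = 0 := by linear_combination h1
    rcases mul_eq_zero.1 h2 with h3 | h3
    · exact two_ne_zero h3
    · rw [hx] at h3
      exact hθ0 h3
  have hsq : θ ^ 2 + algebraMap (𝓞 K₀) (𝓞 K) ((Nm δ : ℕ) : 𝓞 K₀) = 0 := by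
    have h1 := H55K.mul_cj δ
    rw [hδ] at h1
    have h2 : δ ^ 2 + ((Nm δ : ℕ) : 𝓞 F) = 0 := by rw [← h1]; ring
    have h3 := congrArg (algebraMap (𝓞 F) (𝓞 K)) h2
    rw [map_add, map_pow, map_natCast, map_zero, ← hθ] at h3
    rw [map_natCast]
    exact h3
  have hint : IsIntegral (𝓞 K₀) θ := Algebra.IsIntegral.isIntegral θ
  constructor
  · symm
    refine IsIntegrallyClosed.minpoly.unique (R := 𝓞 K₀) (s := θ) ?_ ?_ ?_
    · exact monic_X_pow_add_C _ two_ne_zero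
    · rw [map_add, map_pow, aeval_X, aeval_C]
      exact hsq
    · intro q hq hq0
      by_contra hlt
      push Not at hlt
      rw [degree_X_pow_add_C (by norm_num : 0 < 2)] at hlt
      have hqd : q.natDegree ≤ 1 := by
        have h1 : q.natDegree < 2 := (Polynomial.natDegree_lt_iff_degree_lt hq.ne_zero).2 (by exact_mod_cast hlt)
        omega
      rcases Nat.le_one_iff_eq_zero_or_eq_one.1 hqd with h1 | h1
      · have h2 : q = 1 := by
          have e1 := Polynomial.eq_C_of_natDegree_eq_zero h1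
          have e2 : q.coeff 0 = 1 := by
            have e3 := hq.coeff_natDegree
            rwa [h1] at e3
          rw [e1, e2, map_one]
        rw [h2, map_one] at hq0
        exact one_ne_zero hq0
      · have h2 := hq.eq_X_add_C h1
        rw [h2, map_add, aeval_X, aeval_C] at hq0
        apply hnot (-((q.coeff 0 : 𝓞 K₀) : K₀))
        have h3 := congrArg (algebraMap (𝓞 K) K) hq0
        rw [map_add, map_zero] at h3
        have h4 : algebraMap (𝓞 K) K (algebraMap (𝓞 K₀) (𝓞 K) (q.coeff 0)) = algebraMap K₀ K ((q.coeff 0 : 𝓞 K₀) : K₀) := rfl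
        rw [h4] at h3
        rw [map_neg]
        linear_combination -h3
  · have hfd : FiniteDimensional K₀ K := Module.Finite.of_restrictScalars_finite ℚ K₀ K
    have hi : IsIntegral K₀ (algebraMap (𝓞 K) K θ) := Algebra.IsIntegral.isIntegral _
    have h1 : IntermediateField.adjoin K₀ {algebraMap (𝓞 K) K θ} = ⊤ := by
      have h2 := Module.finrank_mul_finrank K₀ (IntermediateField.adjoin K₀ {algebraMap (𝓞 K) K θ}) K
      rw [hQ.rank] at h2
      rcases (Nat.dvd_prime Nat.prime_two).1 (Dvd.intro _ h2) with h3 | h3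
      · exfalso
        rw [IntermediateField.finrank_eq_one_iff, IntermediateField.adjoin_simple_eq_bot_iff, IntermediateField.mem_bot] at h3
        obtain ⟨x, hx⟩ := h3
        exact hnot x hx
      · rw [h3] at h2
        have h4 : Module.finrank (IntermediateField.adjoin K₀ {algebraMap (𝓞 K) K θ}) K = 1 := by omega
        exact IntermediateField.eq_of_le_of_finrank_eq le_top (by rw [h3, IntermediateField.finrank_top', hQ.rank])
    rw [← IntermediateField.adjoin_simple_toSubalgebra_of_isAlgebraic hi.isAlgebraic, h1]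
    rfl

/-- The relative different of K F over K is prime to p. -/
theorem val_diff_quad {K₀ K : Type} [Field K₀] [NumberField K₀] [Field K] [NumberField K] [Algebra F K] [Algebra K₀ K] (hQ : QuadG F K₀ K)
    {p : ℕ} (hp : p.Prime) (hp2 : p ≠ 2) (hU : UnrP p F) (V : ValuationSubring ℂ) (hV : V.valuation (p : ℂ) < 1) :
    V.valuation ((Ideal.absNorm (differentIdeal (𝓞 K₀) (𝓞 K)) : ℕ) : ℂ) = 1 := by
  obtain ⟨δ, hδ, hN⟩ := H55K.TQ.nk2_delta hp hp2 hU
  have hδ0 : δ ≠ 0 := by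
    rintro rfl
    apply hN
    have e : Nm (0 : 𝓞 F) = 0 := H55P.Nm_eq_zero.2 rfl
    rw [e]
    exact dvd_zero p
  obtain ⟨h1, h2⟩ := u1_min hQ hδ hδ0
  have h3 := aeval_derivative_mem_differentIdeal (𝓞 K₀) K₀ K (algebraMap (𝓞 F) (𝓞 K) δ) h2
  rw [h1] at h3
  have h4 : aeval (algebraMap (𝓞 F) (𝓞 K) δ) (derivative (X ^ 2 + C ((Nm δ : ℕ) : 𝓞 K₀))) = algebraMap (𝓞 F) (𝓞 K) (2 * δ) := by
    rw [derivative_add, derivative_C, add_zero, derivative_X_pow, map_mul, aeval_C, map_pow, aeval_X, map_mul, map_ofNat]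
    norm_num
    exact Or.inl (map_ofNat _ 2)
  rw [h4] at h3
  apply H55P.val_nat p hp V hV
  intro hd
  have h5 : Ideal.absNorm (differentIdeal (𝓞 K₀) (𝓞 K)) ∣ Ideal.absNorm (Ideal.span {algebraMap (𝓞 F) (𝓞 K) (2 * δ)}) :=
    Ideal.absNorm_dvd_absNorm_of_le ((Ideal.span_singleton_le_iff_mem _).2 h3)
  have hfd : FiniteDimensional F K := Module.Finite.of_restrictScalars_finite ℚ F K
  have h6 : Ideal.absNorm (Ideal.span {algebraMap (𝓞 F) (𝓞 K) (2 * δ)}) = Ideal.absNorm (Ideal.span {2 * δ}) ^ Module.finrank F K := by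
    have h7 : Ideal.span {algebraMap (𝓞 F) (𝓞 K) (2 * δ)} = (Ideal.span {2 * δ}).map (algebraMap (𝓞 F) (𝓞 K)) := by
      rw [Ideal.map_span, Set.image_singleton]
    rw [h7, ← Ideal.absNorm_relNorm (𝓞 F) (𝓞 K), Ideal.relNorm_algebraMap, map_pow]
    congr 1
    exact (IsFractionRing.finrank_eq (𝓞 F) F (𝓞 K) K).symm
  rw [h6] at h5
  have h7 : p ∣ Ideal.absNorm (Ideal.span {2 * δ}) := hp.dvd_of_dvd_pow (hd.trans h5)
  rw [← Ideal.span_singleton_mul_span_singleton, map_mul] at h7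
  rcases (hp.dvd_mul).1 h7 with h8 | h8
  · have h9 : Ideal.absNorm (Ideal.span {(2 : 𝓞 F)}) = 2 ^ Module.finrank ℤ (𝓞 F) := by
      have := Ideal.absNorm_span_natCast (S := 𝓞 F) 2
      simpa using this
    rw [h9] at h8
    have h10 := hp.dvd_of_dvd_pow h8
    exact hp2 ((Nat.prime_dvd_prime_iff_eq hp Nat.prime_two).1 h10)
  · exact hN h8

/-- The discriminant of K F is the square of the discriminant of K at the places above p. -/
theorem val_discr_quad {K₀ K : Type} [Field K₀] [NumberField K₀] [Field K] [NumberField K] [Algebra F K] [Algebra K₀ K] (hQ : QuadG F K₀ K)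
    {p : ℕ} (hp : p.Prime) (hp2 : p ≠ 2) (hU : UnrP p F) (V : ValuationSubring ℂ) (hV : V.valuation (p : ℂ) < 1) :
    V.valuation (((discr K).natAbs : ℕ) : ℂ) = V.valuation (((discr K₀).natAbs : ℕ) : ℂ) ^ 2 := by
  rw [NumberField.natAbs_discr_eq_absNorm_differentIdeal_mul_natAbs_discr_pow K₀ (𝓞 K₀) K (𝓞 K)]
  push_cast
  rw [map_mul, map_pow, val_diff_quad hQ hp hp2 hU V hV, hQ.rank, one_mul]

end H35U
end

-- from Lib.H35U.U2
section

/-! # H35U, part 2: the real normalisation of the L-value over K, arbitrary ramification above p -/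

open NumberField IsDedekindDomain WeierstrassCurve

namespace H35U

open H55P (IQ embF eF LF Per IsHecke Pt ac Inert Dec Nm UnitP UnrP PsiP)
open H55K (cj)
open H55K.TQ H41D H35M H55Z H13R
open H55N (tm)

variable {F : Type} [Field F] [NumberField F] [IQ F] {W : WeierstrassCurve ℤ} {Om : ℂ}
    {m : Ideal (𝓞 F)} {ψ : Ideal (𝓞 F) →*₀ 𝓞 F} {p : ℕ}

/-- The absolute discriminant at the places above p. -/
theorem val_discrU (K : Type) [Field K] [NumberField K] [Algebra F K] (hp : p.Prime) (hU : UnrP p F) (V : ValuationSubring ℂ)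
    (hV : V.valuation (p : ℂ) < 1) : V.valuation (((discr K).natAbs : ℕ) : ℂ) =
      vN F V (differentIdeal (𝓞 F) (𝓞 K)) * vNc F V (differentIdeal (𝓞 F) (𝓞 K)) := by
  have h1 := NumberField.natAbs_discr_eq_absNorm_differentIdeal_mul_natAbs_discr_pow F (𝓞 F) K (𝓞 K)
  have h2 : V.valuation ((discr F : ℤ) : ℂ) = 1 := by
    refine val_cop V hV ?_
    exact (Nat.prime_iff_prime_int.1 hp).coprime_iff_not_dvd.2 (H55P.pl1_discr p hp hU)
  rw [← val_absNorm, h1]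
  push_cast
  rw [map_mul, map_pow, val_natAbs V (discr F), h2, one_pow, mul_one]

/-- The square root of the discriminant of K and the different of K F over F. -/
theorem sD_KG (hp : p.Prime) (hp2 : p ≠ 2) (hU : UnrP p F) (K : Type) [Field K] [NumberField K] (ι : K →ₐ[ℚ] AlgebraicClosure F)
    [NumberField (KG F K ι)] (V : ValuationSubring ℂ) (hV : V.valuation (p : ℂ) < 1) :
    (Module.finrank ℚ K = 2 * Module.finrank F (KG F K ι) →
      sD V K ^ 2 = vN F V (differentIdeal (𝓞 F) (𝓞 (KG F K ι))) * vNc F V (differentIdeal (𝓞 F) (𝓞 (KG F K ι)))) ∧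
    (Module.finrank ℚ K = Module.finrank F (KG F K ι) →
      sD V K ^ 4 = vN F V (differentIdeal (𝓞 F) (𝓞 (KG F K ι))) * vNc F V (differentIdeal (𝓞 F) (𝓞 (KG F K ι)))) := by
  have hfd : FiniteDimensional F (KG F K ι) := Module.Finite.of_restrictScalars_finite ℚ F (KG F K ι)
  have hpos : 0 < Module.finrank F (KG F K ι) := Module.finrank_pos
  rw [← val_discrU (KG F K ι) hp hU V hV]
  rcases kg_dich F K ι with ⟨f, hf⟩ | hQ
  · letI : Algebra F K := f.toAlgebra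
    obtain ⟨θ⟩ := kg_iso F K ι f hf
    have h1 := Module.finrank_mul_finrank ℚ F K
    have h2 : Module.finrank F K = Module.finrank F (KG F K ι) := θ.toLinearEquiv.finrank_eq
    have h3 : Module.finrank ℚ F = 2 := IQ.deg
    rw [h3, h2] at h1
    have h4 : discr K = discr (KG F K ι) := NumberField.discr_eq_discr_of_algEquiv K (θ.restrictScalars ℚ)
    refine ⟨fun _ => ?_, fun h => ?_⟩
    · rw [sD_sq, h4]
    · omega
  · letI : Algebra K (KG F K ι) := (KGmap F K ι).toAlgebra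
    have h1 := quad_deg F hQ
    refine ⟨fun h => ?_, fun _ => ?_⟩
    · omega
    · rw [val_discr_quad hQ hp hp2 hU V hV, ← sD_sq, ← pow_mul]

/-- The two local factors. -/
theorem lG_sq (hH : BaseH F (W⁄(𝓞 F)) Om m ψ) (hp : PrimeH F (W⁄(𝓞 F)) p) (K : Type) [Field K] [NumberField K] (ι : K →ₐ[ℚ] AlgebraicClosure F)
    [NumberField (KG F K ι)] (hR : LRel W ψ K (KG F K ι)) {Φ : ℂ → ℂ} (hΦa : AnalyticOnNhd ℂ Φ {s | 1 / 2 < s.re})
    (hΦ : ∀ s : ℂ, 3 / 2 < s.re → HasSum (tm (PsiP (KG F K ι) ψ) s) (Φ s)) :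
    ∃ Λ : ℂ → ℂ, AnalyticOnNhd ℂ Λ {s | 1 / 2 < s.re} ∧
      (∀ s : ℂ, 3 / 2 < s.re → LSeriesSummable (fun n => (((W⁄K).LFunction n : ℤ) : ℂ)) s ∧ Λ s = (W⁄K).LSeries s) ∧
      (Φ 1 ≠ 0 → Λ 1 ≠ 0) ∧
      ∀ V : ValuationSubring ℂ, V.valuation (p : ℂ) < 1 → ∀ L : PeriodPair, PerZ W L → ∃ k : ℕ, k ≠ 0 ∧
        V.valuation (lG K W L (Λ 1)) ^ k =
          (V.valuation (Φ 1 / Om ^ Module.finrank F (KG F K ι)) ^ 2 * vN F V (differentIdeal (𝓞 F) (𝓞 (KG F K ι)))) *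
          (V.valuation ((starRingEnd ℂ) (Φ 1 / Om ^ Module.finrank F (KG F K ι))) ^ 2 * vNc F V (differentIdeal (𝓞 F) (𝓞 (KG F K ι)))) := by
  have hper := perW_of hH
  have hp2 : p ≠ 2 := by
    have := hp.five
    omega
  obtain ⟨Λ, h1, h2, h3, h4⟩ := lG_relD hH hp K (KG F K ι) hR hΦa hΦ
  refine ⟨Λ, h1, h2, h3, fun V hV L hL => ?_⟩
  have hfd : FiniteDimensional F (KG F K ι) := Module.Finite.of_restrictScalars_finite ℚ F (KG F K ι)
  have hpos : 0 < Module.finrank F (KG F K ι) := Module.finrank_pos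
  obtain ⟨d1, d2⟩ := sD_KG hp.prime hp2 hp.unr K ι V hV
  rcases h4 V hV L hL with ⟨hd, h⟩ | ⟨hd, h⟩
  · refine ⟨2, two_ne_zero, ?_⟩
    rw [h, mul_pow, mul_pow, d1 hd]
    exact mul_mul_mul_comm _ _ _ _
  · refine ⟨4, by norm_num, ?_⟩
    have hc : V.valuation ((starRingEnd ℂ) (Φ 1 / Om ^ Module.finrank F (KG F K ι))) =
        V.valuation (Φ 1 / Om ^ Module.finrank F (KG F K ι)) := by
      rcases hR with ⟨hd', -⟩ | ⟨-, hR⟩
      · omega
      · rw [fb6b_conj hper V, fb6b_real K hΦa (hR Φ hΦ)]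
    rw [h, hc, mul_pow, d2 hd]
    have e : V.valuation (Φ 1 / Om ^ Module.finrank F (KG F K ι)) ^ 4 =
        V.valuation (Φ 1 / Om ^ Module.finrank F (KG F K ι)) ^ 2 * V.valuation (Φ 1 / Om ^ Module.finrank F (KG F K ι)) ^ 2 := by
      rw [← pow_add]
    rw [e]
    exact mul_mul_mul_comm _ _ _ _

/-- The value at the conjugate place. -/
theorem conj_one {K : Type} [Field K] [NumberField K] [Algebra F K] (V : ValuationSubring ℂ) (z : ℂ) (a : Ideal (𝓞 K)) :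
    ((V.comap (starRingEnd ℂ)).valuation z ^ 2 * vN F (V.comap (starRingEnd ℂ)) a = 1 ↔
      V.valuation ((starRingEnd ℂ) z) ^ 2 * vNc F V a = 1) ∧
    ((V.comap (starRingEnd ℂ)).valuation z ^ 2 * vN F (V.comap (starRingEnd ℂ)) a ≤ 1 ↔
      V.valuation ((starRingEnd ℂ) z) ^ 2 * vNc F V a ≤ 1) := by
  unfold vN vNc
  rw [← map_pow, ← map_mul, ← map_pow, ← map_mul, ← map_pow (starRingEnd ℂ), ← map_mul (starRingEnd ℂ)]
  refine ⟨cV_eq_one V _, ?_⟩
  have h := cV_le V (z ^ 2 * eF F (Submodule.IsPrincipal.generator (Ideal.relNorm (𝓞 F) a))) 1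
  rw [map_one, map_one, map_one] at h
  exact h

/-- LVO and LVOi for the given continuation. -/
theorem lvo_of {K : Type} [Field K] [NumberField K] [Algebra F K] {V : ValuationSubring ℂ} {h : Ideal (𝓞 K) →*₀ ℂ} {Φ : ℂ → ℂ}
    (hΦa : AnalyticOnNhd ℂ Φ {s | 1 / 2 < s.re}) (hΦ : ∀ s : ℂ, 3 / 2 < s.re → HasSum (tm h s) (Φ s)) :
    (LVO F V Om h ↔ V.valuation (Φ 1 / Om ^ Module.finrank F K) ^ 2 * vN F V (differentIdeal (𝓞 F) (𝓞 K)) = 1) ∧
    (LVOi F V Om h ↔ V.valuation (Φ 1 / Om ^ Module.finrank F K) ^ 2 * vN F V (differentIdeal (𝓞 F) (𝓞 K)) ≤ 1) := by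
  have key : ∀ Λ : ℂ → ℂ, AnalyticOnNhd ℂ Λ {s | 1 / 2 < s.re} → (∀ s : ℂ, 3 / 2 < s.re → HasSum (tm h s) (Λ s)) → Λ 1 = Φ 1 :=
    fun Λ h1 h2 => H55N.ident Λ Φ h1 hΦa (fun s hs => (h2 s hs).unique (hΦ s hs)) 1 (by norm_num)
  constructor
  · constructor
    · rintro ⟨Λ, h1, h2, h3⟩
      rwa [key Λ h1 h2] at h3
    · intro h3
      exact ⟨Φ, hΦa, hΦ, h3⟩
  · constructor
    · rintro ⟨Λ, h1, h2, h3⟩
      rwa [key Λ h1 h2] at h3
    · intro h3
      exact ⟨Φ, hΦa, hΦ, h3⟩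

theorem above_conj (hp : p.Prime) (V : ValuationSubring ℂ) (hV : V.valuation (p : ℂ) < 1) :
    (V.comap (starRingEnd ℂ)).valuation (p : ℂ) < 1 := H55P.i5_above p hp V hV

theorem mul_one_iff {Γ : Type} [LinearOrderedCommGroupWithZero Γ] {a b : Γ} (ha : a ≤ 1) (hb : b ≤ 1) : a * b = 1 ↔ a = 1 ∧ b = 1 := by
  constructor
  · intro h
    refine ⟨le_antisymm ha ?_, le_antisymm hb ?_⟩
    · by_contra hlt
      have h5 := mul_lt_one_of_nonneg_of_lt_one_left zero_le (not_le.1 hlt) hb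
      rw [h] at h5
      exact lt_irrefl _ h5
    · by_contra hlt
      have h5 := mul_lt_one_of_nonneg_of_lt_one_right ha zero_le (not_le.1 hlt)
      rw [h] at h5
      exact lt_irrefl _ h5
  · rintro ⟨rfl, rfl⟩
    exact one_mul 1

section main

variable (hH : BaseH F (W⁄(𝓞 F)) Om m ψ) (hp : PrimeH F (W⁄(𝓞 F)) p) (K : Type) [Field K] [NumberField K] (ι : K →ₐ[ℚ] AlgebraicClosure F)
    [NumberField (KG F K ι)] (hR : LRel W ψ K (KG F K ι))
    (hI : ∀ V : ValuationSubring ℂ, V.valuation (p : ℂ) < 1 → LVOi F V Om (PsiP (KG F K ι) ψ))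

include hH hp hR hI

/-- All the facts for one continuation. -/
theorem lG_all : ∃ Λ : ℂ → ℂ, AnalyticOnNhd ℂ Λ {s | 1 / 2 < s.re} ∧
      (∀ s : ℂ, 3 / 2 < s.re → LSeriesSummable (fun n => (((W⁄K).LFunction n : ℤ) : ℂ)) s ∧ Λ s = (W⁄K).LSeries s) ∧
      ((∃ V : ValuationSubring ℂ, LVO F V Om (PsiP (KG F K ι) ψ)) → Λ 1 ≠ 0) ∧
      ∀ V : ValuationSubring ℂ, V.valuation (p : ℂ) < 1 → ∀ L : PeriodPair, PerZ W L →
        V.valuation (lG K W L (Λ 1)) ≤ 1 ∧ (V.valuation (lG K W L (Λ 1)) = 1 ↔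
          LVO F V Om (PsiP (KG F K ι) ψ) ∧ LVO F (V.comap (starRingEnd ℂ)) Om (PsiP (KG F K ι) ψ)) := by
  obtain ⟨V₀, hV₀⟩ := H55P.exists_above_p p hp.prime
  obtain ⟨Φ, hΦa, hΦ, -⟩ := hI V₀ hV₀
  obtain ⟨Λ, h1, h2, h3, h4⟩ := lG_sq hH hp K ι hR hΦa hΦ
  refine ⟨Λ, h1, h2, ?_, fun V hV L hL => ?_⟩
  · rintro ⟨V, hV⟩
    apply h3
    intro h0
    have h5 := (lvo_of (F := F) (Om := Om) hΦa hΦ).1.1 hV
    rw [h0, zero_div, map_zero, zero_pow two_ne_zero, zero_mul] at h5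
    exact zero_ne_one h5
  · obtain ⟨k, hk, h5⟩ := h4 V hV L hL
    have ha := (lvo_of (F := F) (Om := Om) hΦa hΦ).2.1 (hI V hV)
    have hb := (conj_one V _ _).2.1 ((lvo_of (F := F) (Om := Om) hΦa hΦ).2.1 (hI _ (above_conj hp.prime V hV)))
    have hle : V.valuation (lG K W L (Λ 1)) ≤ 1 := by
      rw [← pow_le_one_iff hk, h5]
      exact mul_le_one' ha hb
    refine ⟨hle, ?_⟩
    have hk1 : V.valuation (lG K W L (Λ 1)) = 1 ↔ V.valuation (lG K W L (Λ 1)) ^ k = 1 := by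
      refine ⟨fun h => by rw [h, one_pow], fun h => le_antisymm hle (not_lt.1 fun hlt => ?_)⟩
      have h6 := pow_lt_one₀ zero_le hlt hk
      rw [h] at h6
      exact lt_irrefl _ h6
    rw [hk1, h5, mul_one_iff ha hb, (lvo_of (F := F) (Om := Om) hΦa hΦ).1,
      (lvo_of (F := F) (Om := Om) hΦa hΦ).1, (conj_one V _ _).1]

/-- The L-value is a unit above p if and only if the canonical values are units at all places above p. -/
theorem lunit_iffO : LUnitG p W K ↔ ∀ V : ValuationSubring ℂ, V.valuation (p : ℂ) < 1 → LVO F V Om (PsiP (KG F K ι) ψ) := by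
  obtain ⟨Λ, h1, h2, h3, h4⟩ := lG_all hH hp K ι hR hI
  constructor
  · rintro ⟨⟨L, hL⟩, Λ', hΛa', hΛs', -, hΛu'⟩ V hV
    have e1 : Λ 1 = Λ' 1 := H55N.ident Λ Λ' h1 hΛa' (fun s hs => by
      rw [(h2 s hs).2, (hΛs' s hs).2]) 1 (by norm_num)
    have h5 : V.valuation (lG K W L (Λ 1)) = 1 := by
      rw [e1]
      exact hΛu' L hL V hV
    exact ((h4 V hV L hL).2.1 h5).1
  · intro h
    obtain ⟨V₀, hV₀⟩ := H55P.exists_above_p p hp.prime
    refine ⟨exists_perZ (perW_of hH), Λ, h1, h2, h3 ⟨V₀, h V₀ hV₀⟩, fun L hL V hV => ?_⟩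
    exact (h4 V hV L hL).2.2 ⟨h V hV, h _ (above_conj hp.prime V hV)⟩

/-- Integrality. -/
theorem int_ofO : AnIntG p W K := by
  obtain ⟨Λ, h1, h2, h3, h4⟩ := lG_all hH hp K ι hR hI
  refine ⟨exists_perZ (perW_of hH), Λ, h1, h2, fun L hL V hV => ?_⟩
  rw [← ValuationSubring.valuation_le_one_iff]
  exact (h4 V hV L hL).1

/-- Divisibility. -/
theorem non_ofO (hN : ∀ V : ValuationSubring ℂ, V.valuation (p : ℂ) < 1 →
    ¬ (LVO F V Om (PsiP (KG F K ι) ψ) ∧ LVO F (V.comap (starRingEnd ℂ)) Om (PsiP (KG F K ι) ψ))) : AnNonG p W K := by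
  obtain ⟨Λ, h1, h2, h3, h4⟩ := lG_all hH hp K ι hR hI
  refine ⟨exists_perZ (perW_of hH), Λ, h1, h2, fun L hL V hV => ?_⟩
  obtain ⟨h5, h6⟩ := h4 V hV L hL
  exact lt_of_le_of_ne h5 fun h => hN V hV (h6.1 h)

end main

end H35U
end
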