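import Mathlib
import Pool.Agent.Lib.H1M.PP2.D_H35U_NT1
import Pool.Agent.Lib.H1M.PP2.M154
import Pool.Agent.Lib.H1M.PP2.M156
import Pool.Agent.Lib.H1M.PP2.M163

/-! # H35U: the relative theorem, arbitrary ramification above a split prime p -/

open NumberField IsDedekindDomain WeierstrassCurve

namespace H35U

open H55P (IQ embF eF LF Per IsHecke Pt ac Inert Dec Nm UnitP UnrP PExt PsiP)
open H35P (WAB Ker tt GoodW IntW)
open H55K H55K.TQ
open H35M (LVO LVOi NoTor intB critB)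
open H13R (BadM NoRel LUnitG)

/-- The conclusions over K and M. NoRel: no prime v of FM, not dividing the discriminant of W, with p | #W(k_v), is ramified in FK. NT: no
point of order p over M. -/
structure OverB (F : Type) [Field F] [NumberField F] (p : ℕ) (W : WeierstrassCurve ℤ) (M K : Type) [Field M] [NumberField M] [Field K]
    [NumberField K] (ιM : M →ₐ[ℚ] AlgebraicClosure F) (ιK : K →ₐ[ℚ] AlgebraicClosure F) : Prop where
  sel : H55P.SelTriv (W⁄K) p ↔ H55P.SelTriv (W⁄M) p ∧ NoRel p (W⁄(𝓞 F)) (KG F M ιM) (KG F K ιK)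
  bsd : BSDPG p W K ↔ BSDPG p W M ∧ NoRel p (W⁄(𝓞 F)) (KG F M ιM) (KG F K ιK)
  selnon : ¬ NoRel p (W⁄(𝓞 F)) (KG F M ιM) (KG F K ιK) → H13Z.SelNonT (W⁄K) p
  int : NT p W M → AnIntG p W K
  lval : NT p W M → (LUnitG p W K ↔ LUnitG p W M ∧ NoRel p (W⁄(𝓞 F)) (KG F M ιM) (KG F K ιK))
  annon : NT p W M → ¬ NoRel p (W⁄(𝓞 F)) (KG F M ιM) (KG F K ιK) → AnNonG p W K
  nt : UnrP p (KG F M ιM) ∨ H55P.SelTriv (W⁄M) p → NT p W M

end H35U
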