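import Mathlib
import Pool.Agent.Lib.H1M.PP2.M025
import Pool.Agent.Lib.H1M.PP2.M057

/-! Merged copies (to shorten the build) of Lib.H19C.D, Lib.H19C.Z1, Lib.H19C.K1, Lib.H19C.K2, Lib.H19C.K3, Lib.H19C.K4, Lib.H19C.P1, Lib.H19C.K6, Lib.H19C.K7, Lib.H19C.K8, Lib.H19C.FS. -/

-- from Lib.H19C.D
section

/-! # H19C: local classes with a tamely ramified eigenspace: definitions -/

open NumberField IsDedekindDomain WeierstrassCurve

namespace H19C

open H55P (Dec Inert)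
open H19B (Rep zt)

/-- The data of a local situation: D is the decomposition group at V of a number field N; E and C are the subgroups of D fixing the points killed by a
prime number element and the p-torsion, et the character of D on these points; w is a uniformizer of the fixed field of E (tamely ramified over N), V(p) = V(w)^e;
q is the number of elements of the residue field of N, φ a Frobenius element, Q an exponent for the residue field of E; ζ is a primitive p-th root of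
unity, om the cyclotomic character modulo p; G are the levels at which the inertia group allows nonzero coefficients, b a bound for their number. -/
structure Frm (F Ω : Type) [Field F] [Field Ω] [Algebra F Ω] where
  p : ℕ
  q : ℕ
  e : ℕ
  b : ℕ
  Q : ℕ
  G : ℕ → Prop
  V : ValuationSubring Ω
  D : Subgroup (Ω ≃ₐ[F] Ω)
  E : Subgroup (Ω ≃ₐ[F] Ω)
  C : Subgroup (Ω ≃ₐ[F] Ω)
  w : Ω
  φ : Ω ≃ₐ[F] Ω
  ζ : Ω
  om : (Ω ≃ₐ[F] Ω) → ZMod p
  et : (Ω ≃ₐ[F] Ω) → ZMod p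

namespace Frm

variable {F : Type} [Field F] {Ω : Type} [Field Ω] [Algebra F Ω]

/-- The properties of the data. -/
structure Ok (X : Frm F Ω) : Prop where
  pr : X.p.Prime
  odd : 2 < X.p
  dec : ∀ s ∈ X.D, Dec X.V s
  inv : ∀ s ∈ X.D, ∀ x : Ω, X.V.valuation (s x) = X.V.valuation x
  le1 : X.C ≤ X.E
  le2 : X.E ≤ X.D
  nrm1 : ∀ s ∈ X.D, ∀ t ∈ X.C, s⁻¹ * t * s ∈ X.C
  nrm2 : ∀ s ∈ X.D, ∀ t ∈ X.E, s⁻¹ * t * s ∈ X.E
  rep : ∃ S : Finset (Ω ≃ₐ[F] Ω), Rep X.C X.E S ∧ ¬ X.p ∣ S.card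
  fw : ∀ s ∈ X.E, s X.w = X.w
  w0 : X.w ≠ 0
  w1 : X.V.valuation X.w < 1
  val : ∀ x : Ω, x ≠ 0 → (∀ s ∈ X.E, s x = x) → ∃ i : ℤ, X.V.valuation x = X.V.valuation X.w ^ i
  e0 : 0 < X.e
  ep : X.V.valuation (X.p : Ω) = X.V.valuation X.w ^ X.e
  q0 : 1 < X.q
  Qp : X.p ∣ X.Q
  Q0 : 0 < X.Q
  res : ∀ x : Ω, X.V.valuation x ≤ 1 → (∀ s ∈ X.E, s x = x) → X.V.valuation (x ^ X.Q - x) < 1
  phi : X.φ ∈ X.D
  fro : ∀ x : Ω, X.V.valuation x ≤ 1 → X.V.valuation (X.φ x - x ^ X.q) < 1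
  prim : IsPrimitiveRoot X.ζ X.p
  zD : ∀ s ∈ X.D, s X.ζ = zt X.ζ (X.om s)
  om1 : ∀ s ∈ X.C, X.om s = 1
  et1 : ∀ s ∈ X.E, X.et s = 1
  lev : ∀ i : ℕ, ¬ X.G i → ∃ s ∈ X.D, Inert X.V s ∧ X.V.valuation ((s X.w / X.w) ^ i - ((X.et s).val : Ω)) = 1
  cnt : ∀ (k : ℕ) (S : Finset ℕ), k * (X.p - 1) < X.e * X.p → (∀ i ∈ S, i < k ∧ ¬ X.p ∣ i + 1 ∧ X.G (i + 1)) → S.card ≤ X.b

/-- a is a continuous homomorphism of C to the integers modulo p, with the action of D by conjugation twisted by et / om. -/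
structure Tw (X : Frm F Ω) (a : (Ω ≃ₐ[F] Ω) → ZMod X.p) : Prop where
  add : ∀ s ∈ X.C, ∀ t ∈ X.C, a (s * t) = a s + a t
  tw : ∀ s ∈ X.D, ∀ t ∈ X.C, X.om s * a (s⁻¹ * t * s) = X.et s * a t
  cont : ∃ L : IntermediateField F Ω, FiniteDimensional F L ∧ ∀ s ∈ X.C, s ∈ L.fixingSubgroup → a s = 0

/-- β is a Kummer generator for a. -/
structure Kg (X : Frm F Ω) (a : (Ω ≃ₐ[F] Ω) → ZMod X.p) (β : Ω) : Prop where
  ne : β ≠ 0
  fx : ∀ s ∈ X.E, s (β ^ X.p) = β ^ X.p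
  ev : ∀ t ∈ X.C, t β = zt X.ζ (a t) * β

/-- The group of the twisted characters. -/
def TS (X : Frm F Ω) : AddSubgroup ((Ω ≃ₐ[F] Ω) → ZMod X.p) where
  carrier := {a | X.Tw a}
  zero_mem' := ⟨fun s _ t _ => by simp, fun s _ t _ => by simp, ⊥, inferInstance, fun s _ _ => rfl⟩
  add_mem' := by
    rintro a b ⟨a1, a2, L, hL, a3⟩ ⟨b1, b2, L', hL', b3⟩
    refine ⟨fun s hs t ht => ?_, fun s hs t ht => ?_, L ⊔ L', IntermediateField.finiteDimensional_sup L L', fun s hs hs' => ?_⟩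
    · rw [Pi.add_apply, Pi.add_apply, Pi.add_apply, a1 s hs t ht, b1 s hs t ht]
      ring
    · rw [Pi.add_apply, Pi.add_apply, mul_add, a2 s hs t ht, b2 s hs t ht, mul_add]
    · rw [IntermediateField.fixingSubgroup_sup] at hs'
      rw [Pi.add_apply, a3 s hs hs'.1, b3 s hs hs'.2, add_zero]
  neg_mem' := by
    rintro a ⟨a1, a2, L, hL, a3⟩
    refine ⟨fun s hs t ht => ?_, fun s hs t ht => ?_, L, hL, fun s hs hs' => ?_⟩
    · rw [Pi.neg_apply, Pi.neg_apply, Pi.neg_apply, a1 s hs t ht]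
      ring
    · rw [Pi.neg_apply, Pi.neg_apply, mul_neg, a2 s hs t ht, mul_neg]
    · rw [Pi.neg_apply, a3 s hs hs', neg_zero]


/-- The twisted characters which are trivial on the inertia group. -/
def TI (X : Frm F Ω) : AddSubgroup ((Ω ≃ₐ[F] Ω) → ZMod X.p) where
  carrier := {a | X.Tw a ∧ ∀ t ∈ X.C, Inert X.V t → a t = 0}
  zero_mem' := ⟨X.TS.zero_mem, fun t _ _ => rfl⟩
  add_mem' := by
    rintro a b ⟨a1, a2⟩ ⟨b1, b2⟩
    exact ⟨X.TS.add_mem a1 b1, fun t ht hi => by rw [Pi.add_apply, a2 t ht hi, b2 t ht hi, add_zero]⟩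
  neg_mem' := by
    rintro a ⟨a1, a2⟩
    exact ⟨X.TS.neg_mem a1, fun t ht hi => by rw [Pi.neg_apply, a2 t ht hi, neg_zero]⟩


/-- a is a twisted character with a Kummer generator β such that V(β^p - 1) ≤ V(w)^(i+1). -/
structure Fl (X : Frm F Ω) (i : ℕ) (a : (Ω ≃ₐ[F] Ω) → ZMod X.p) : Prop where
  tw : X.Tw a
  ex : ∃ β : Ω, X.Kg a β ∧ X.V.valuation (β ^ X.p - 1) ≤ X.V.valuation X.w ^ (i + 1)

end Frm

end H19C
end

-- from Lib.H19C.Z1
section

/-! # H19C: powers of a root of unity (port of H19B/Z1) -/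

namespace H19C

open H55P (Dec Inert)
open H19B (Rep zt)
open H19B (zt_zero zt_nat zt_add zt_ne zt_neg zt_mul zt_pow zt_inj zt_root zt_val zt_sub_one z1_val z1_le)
section frm

variable {F : Type} [Field F] {Ω : Type} [Field Ω] [Algebra F Ω]

/-- Chunk Z1 (S). s ζ = ζ^((om s).val) (zD), zt a = ζ^a.val; zt_nat, ZMod.natCast_zmod_val. -/
theorem zt_map (X : Frm F Ω) (h : X.Ok) (s : Ω ≃ₐ[F] Ω) (hs : s ∈ X.D) (a : ZMod X.p) :
    s (zt X.ζ a) = zt X.ζ (X.om s * a) := by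
  have : NeZero X.p := ⟨h.pr.ne_zero⟩
  have h1 : s (zt X.ζ a) = (s X.ζ) ^ a.val := by rw [zt, map_pow]
  rw [h1, h.zD s hs, ← zt_mul h.pr h.prim, ZMod.natCast_zmod_val, mul_comm]


/-- Chunk Z1 (S). V(p) = V(w)^e, e > 0, V(w) < 1. -/
theorem vp_lt (X : Frm F Ω) (h : X.Ok) : X.V.valuation (X.p : Ω) < 1 := by
  rw [h.ep]
  exact pow_lt_one₀ zero_le h.w1 h.e0.ne'

/-- Chunk Z1 (S). Values of elements fixed by E: V(x) ≤ 1 etc. A nonzero x fixed by E with V(x) < V(w)^i satisfies V(x) ≤ V(w)^(i+1) (h.val: V(x) = V(w)^m, m an integer;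
V(w) < 1, V(w) ≠ 0, so m > i; zpow order lemmas in a linearly ordered group with zero). -/
theorem val_succ (X : Frm F Ω) (h : X.Ok) {x : Ω} (hx : ∀ s ∈ X.E, s x = x) {i : ℕ} (hi : X.V.valuation x < X.V.valuation X.w ^ i) :
    X.V.valuation x ≤ X.V.valuation X.w ^ (i + 1) := by
  rcases eq_or_ne x 0 with rfl | h0
  · rw [map_zero]; exact zero_le
  obtain ⟨m, hm⟩ := h.val x h0 hx
  have hw : 0 < X.V.valuation X.w := zero_lt_iff.2 ((map_ne_zero _).2 h.w0)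
  rw [hm, ← zpow_natCast] at hi ⊢
  have h1 : (i : ℤ) < m := (zpow_lt_zpow_iff_right_of_lt_one₀ hw h.w1).1 hi
  exact (zpow_le_zpow_iff_right_of_lt_one₀ hw h.w1).2 (by push_cast; omega)


end frm


end H19C
end

-- from Lib.H19C.K1
section

/-! # H19C: Kummer generators exist (port of H19B/K1) -/

namespace H19C

open H55P (Dec Inert)
open H19B (Rep zt)
open H19B (zt_zero zt_nat zt_add zt_ne zt_neg zt_mul zt_pow zt_inj zt_root zt_val zt_sub_one z1_val z1_le rep_prod rep_sum rep_exists pow_one_add pow_one_add')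


variable {F : Type} [Field F] {Ω : Type} [Field Ω] [Algebra F Ω]

/-- Restriction to an intermediate field. -/
noncomputable def k1_res (L : IntermediateField F Ω) (s : Ω ≃ₐ[F] Ω) : L →ₐ[F] Ω := (s : Ω →ₐ[F] Ω).comp L.val


theorem k1_eq (X : Frm F Ω) {a : (Ω ≃ₐ[F] Ω) → ZMod X.p} (ha : X.Tw a) (L : IntermediateField F Ω)
    (hL : ∀ s ∈ X.C, s ∈ L.fixingSubgroup → a s = 0) {t t' : Ω ≃ₐ[F] Ω} (ht : t ∈ X.C) (ht' : t' ∈ X.C)
    (h : k1_res L t = k1_res L t') : a t = a t' := by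
  have h1 : t⁻¹ * t' ∈ X.C := X.C.mul_mem (X.C.inv_mem ht) ht'
  have h2 : t⁻¹ * t' ∈ L.fixingSubgroup := by
    rw [IntermediateField.mem_fixingSubgroup_iff]
    intro x hx
    have h3 : t x = t' x := DFunLike.congr_fun h (⟨x, hx⟩ : L)
    rw [AlgEquiv.mul_apply, ← h3]
    exact t.symm_apply_apply x
  have h4 := ha.add t ht (t⁻¹ * t') h1
  rw [hL _ h1 h2, add_zero, mul_inv_cancel_left] at h4
  exact h4.symm

/-- Composition with an automorphism as a permutation. -/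
noncomputable def k1_perm (L : IntermediateField F Ω) (s : Ω ≃ₐ[F] Ω) : (L →ₐ[F] Ω) ≃ (L →ₐ[F] Ω) where
  toFun r := (s : Ω →ₐ[F] Ω).comp r
  invFun r := (s.symm : Ω →ₐ[F] Ω).comp r
  left_inv r := by ext x; exact s.symm_apply_apply _
  right_inv r := by ext x; exact s.apply_symm_apply _

/-- Chunk K1 (M). PROOF. Let L be finite over F with a s = 0 for s in C fixing L (ha.cont). The set R of the F-homomorphisms L -> Ω which are restrictions of elements of C is finite (Finite (L →ₐ[F] Ω)).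
For t, t' in C with equal restriction, t⁻¹ t' is in C and fixes L, so a t' = a t + a (t⁻¹ t') = a t (ha.add): a defines a function a' on R. The homomorphisms in R are
linearly independent over Ω as functions on L (linearIndependent_monoidHom L Ω, restricted to R; or linearIndependent_toLinearMap / AlgHom), and the coefficients zt (-a' r) are not 0, so there is x in L with
β = ∑ over r in R of zt (-a' r) * r x ≠ 0. For s in C: s fixes ζ (om s = 1, zt_map), s ∘ r is again in R, r -> s ∘ r is a bijection of R, a' (s ∘ r) = a s + a' r, hence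
s β = ∑ zt (-a' r) (s ∘ r) x = ∑ zt (a s - a' (s ∘ r)) (s ∘ r) x = zt (a s) β. -/
theorem kummer_gen (X : Frm F Ω) (h : X.Ok) (a : (Ω ≃ₐ[F] Ω) → ZMod X.p) (ha : X.Tw a) :
    ∃ β : Ω, β ≠ 0 ∧ ∀ t ∈ X.C, t β = zt X.ζ (a t) * β := by
  classical
  obtain ⟨L, hfin, hL⟩ := ha.cont
  haveI : Fintype (L →ₐ[F] Ω) := Fintype.ofFinite _
  set c : (L →ₐ[F] Ω) → Ω := fun r => if hr : ∃ t ∈ X.C, k1_res L t = r then zt X.ζ (-a hr.choose) else 0 with hc
  have hc1 : ∀ t ∈ X.C, c (k1_res L t) = zt X.ζ (-a t) := by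
    intro t ht
    have hr : ∃ t' ∈ X.C, k1_res L t' = k1_res L t := ⟨t, ht, rfl⟩
    have h1 : c (k1_res L t) = zt X.ζ (-a hr.choose) := dif_pos hr
    rw [h1, k1_eq X ha L hL hr.choose_spec.1 ht hr.choose_spec.2]
  have hc0 : ∀ r, (¬ ∃ t ∈ X.C, k1_res L t = r) → c r = 0 := fun r hr => dif_neg hr
  have hli : LinearIndependent Ω (fun (r : L →ₐ[F] Ω) => (fun x => r x : L → Ω)) := by
    have h1 := linearIndependent_monoidHom L Ω
    have h2 : Function.Injective (fun r : L →ₐ[F] Ω => (r : L →* Ω)) := by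
      intro r r' hrr
      ext x
      exact DFunLike.congr_fun hrr x
    exact h1.comp _ h2
  obtain ⟨x, hx⟩ : ∃ x : L, ∑ r : L →ₐ[F] Ω, c r * r x ≠ 0 := by
    by_contra hcon
    push Not at hcon
    have h1 := (Fintype.linearIndependent_iff.1 hli) c (by
      funext x
      rw [Finset.sum_apply]
      exact hcon x) (k1_res L 1)
    rw [hc1 1 X.C.one_mem] at h1
    exact zt_ne h.pr h.prim _ h1
  refine ⟨_, hx, fun s hs => ?_⟩
  have hsD : s ∈ X.D := h.le2 (h.le1 hs)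
  have hfix : ∀ b : ZMod X.p, s (zt X.ζ b) = zt X.ζ b := fun b => by
    rw [zt_map X h s hsD, h.om1 s hs, one_mul]
  have hsc : ∀ r, s (c r) = zt X.ζ (a s) * c (k1_perm L s r) := by
    intro r
    by_cases hr : ∃ t ∈ X.C, k1_res L t = r
    · obtain ⟨t, ht, rfl⟩ := hr
      have h1 : k1_perm L s (k1_res L t) = k1_res L (s * t) := by ext x; rfl
      rw [h1, hc1 t ht, hc1 _ (X.C.mul_mem hs ht), hfix, ← zt_add h.pr h.prim, ha.add s hs t ht]
      congr 1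
      ring
    · have hr' : ¬ ∃ t ∈ X.C, k1_res L t = k1_perm L s r := by
        rintro ⟨t, ht, h1⟩
        refine hr ⟨s⁻¹ * t, X.C.mul_mem (X.C.inv_mem hs) ht, ?_⟩
        ext x
        have h2 : t (x : Ω) = s (r x) := DFunLike.congr_fun h1 x
        show s⁻¹ (t (x : Ω)) = r x
        rw [h2]
        exact s.symm_apply_apply _
      rw [hc0 r hr, hc0 _ hr', map_zero, mul_zero]
  rw [map_sum]
  calc ∑ r, s (c r * r x) = ∑ r, zt X.ζ (a s) * (c (k1_perm L s r) * (k1_perm L s r) x) := by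
        refine Finset.sum_congr rfl fun r _ => ?_
        rw [map_mul, hsc r, mul_assoc]
        rfl
    _ = zt X.ζ (a s) * ∑ r, c (k1_perm L s r) * (k1_perm L s r) x := by rw [Finset.mul_sum]
    _ = zt X.ζ (a s) * ∑ r, c r * r x := by
        rw [Equiv.sum_comp (k1_perm L s) (fun r => c r * r x)]


end H19C
end

-- from Lib.H19C.K2
section

/-! # H19C: norm, averaging (port of H19B/K2) -/

namespace H19C

open H55P (Dec Inert)
open H19B (Rep zt)
open H19B (zt_zero zt_nat zt_add zt_ne zt_neg zt_mul zt_pow zt_inj zt_root zt_val zt_sub_one z1_val z1_le rep_prod rep_sum rep_exists pow_one_add pow_one_add')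


variable {F : Type} [Field F] {Ω : Type} [Field Ω] [Algebra F Ω]

/-- Chunk K2 (S/M). PROOF. For s in E, t in C: t (s β) = s ((s⁻¹ t s) β) = s (zt (a (s⁻¹ t s)) β) = zt (om s * a (s⁻¹ t s)) * s β (zt_map) = zt (et s * a t) * s β (ha.tw) = zt (a t) * s β as et s = 1. S from h.rep;
β1 = product over s in S of s β: t β1 = zt (a t)^card S * β1; β1^p = product of s (β^p); β^p is fixed by C (t β^p = zt(a t)^p β^p = β^p), so the function s -> s (β^p) satisfies the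
condition of rep_prod (A = C, B = E) and g (β1^p) = β1^p for g in E. Let k be a natural number with k * card S = 1 modulo p (p does not divide card S: Nat.exists_mul_emod_eq_one_of_coprime or inverse in ZMod p);
β' = β1^k: t β' = zt (a t)^(k card S) * β' = zt (a t) * β' (zt_mul: (k card S : ZMod p) = 1). -/
theorem kummer_norm (X : Frm F Ω) (h : X.Ok) (a : (Ω ≃ₐ[F] Ω) → ZMod X.p) (ha : X.Tw a) {β : Ω} (hβ : β ≠ 0)
    (hb : ∀ t ∈ X.C, t β = zt X.ζ (a t) * β) : ∃ β' : Ω, X.Kg a β' := by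
  classical
  obtain ⟨S, hS, hc⟩ := h.rep
  have hpr : Fact X.p.Prime := ⟨h.pr⟩
  have hce : (S.card : ZMod X.p) ≠ 0 := by
    intro h0
    exact hc ((ZMod.natCast_eq_zero_iff _ _).1 h0)
  let k : ℕ := ((S.card : ZMod X.p)⁻¹).val
  have hk : ((S.card * k : ℕ) : ZMod X.p) = 1 := by
    rw [Nat.cast_mul]
    show (S.card : ZMod X.p) * ((((S.card : ZMod X.p)⁻¹).val : ℕ) : ZMod X.p) = 1
    rw [ZMod.natCast_zmod_val, mul_inv_cancel₀ hce]
  let β1 : Ω := ∏ s ∈ S, s β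
  have hβ1 : β1 ≠ 0 := Finset.prod_ne_zero_iff.2 fun s _ => (map_ne_zero_iff s s.injective).2 hβ
  have ht : ∀ t ∈ X.C, t β1 = zt X.ζ (a t) ^ S.card * β1 := by
    intro t ht
    show t (∏ s ∈ S, s β) = zt X.ζ (a t) ^ S.card * ∏ s ∈ S, s β
    rw [map_prod, ← Finset.prod_const, ← Finset.prod_mul_distrib]
    refine Finset.prod_congr rfl fun s hs => ?_
    have hsE := hS.mem s hs
    have hsD := h.le2 hsE
    have e1 : t (s β) = s ((s⁻¹ * t * s) β) := by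
      show (t * s) β = (s * (s⁻¹ * t * s)) β
      congr 1
      group
    rw [e1, hb _ (h.nrm1 s hsD t ht), map_mul, zt_map X h s hsD, ha.tw s hsD t ht, h.et1 s hsE, one_mul]
  have hfix : ∀ t ∈ X.C, t (β ^ X.p) = β ^ X.p := by
    intro t ht
    rw [map_pow, hb t ht, mul_pow, zt_pow h.prim, one_mul]
  have hg : ∀ g ∈ X.E, g (β1 ^ X.p) = β1 ^ X.p := by
    intro g hg
    have e2 : β1 ^ X.p = ∏ s ∈ S, s (β ^ X.p) := by
      show (∏ s ∈ S, s β) ^ X.p = _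
      rw [← Finset.prod_pow]
      exact Finset.prod_congr rfl fun s _ => (map_pow s β X.p).symm
    have e3 := rep_prod hS (fun s : Ω ≃ₐ[F] Ω => s (β ^ X.p)) (fun s _ t ht => by
      show s (t (β ^ X.p)) = s (β ^ X.p)
      rw [hfix t ht]) g hg
    rw [e2, map_prod]
    exact e3
  refine ⟨β1 ^ k, pow_ne_zero k hβ1, fun s hs => ?_, fun t htC => ?_⟩
  · rw [← pow_mul, mul_comm k, pow_mul, map_pow, hg s hs]
  · rw [map_pow, ht t htC, mul_pow, ← pow_mul, ← zt_mul h.pr h.prim, hk, one_mul]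

/-- Chunk K2 (M). Averaging. PROOF. For s in E: (s δ / δ)^p = 1, so s δ = zt (b s) δ for some b s in ZMod p (zt_root), unique (zt_inj). b (s t) = b s + om s * b t for s, t in E (s (t δ) = s (zt (b t)) * s δ = zt (om s * b t) zt (b s) δ);
b t = 0 for t in C, so b (s t) = b s for t in C. S from h.rep, m the inverse of card S in ZMod p, x = m * ∑ over s in S of b s. For g in E: om g * x + b g = m * ∑ (om g * b s + b g) = m * ∑ b (g s) = m * ∑ b s = x (rep_sum).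
γ = zt x * δ: g γ = zt (om g * x) * zt (b g) * δ = zt x * δ = γ, γ^p = δ^p (zt_pow). -/
theorem kummer_avg (X : Frm F Ω) (h : X.Ok) {δ : Ω} (hδ : δ ≠ 0) (h1 : ∀ t ∈ X.C, t δ = δ)
    (h2 : ∀ s ∈ X.E, s (δ ^ X.p) = δ ^ X.p) : ∃ γ : Ω, γ ≠ 0 ∧ (∀ s ∈ X.E, s γ = γ) ∧ γ ^ X.p = δ ^ X.p := by
  classical
  obtain ⟨S, hS, hc⟩ := h.rep
  have hpr : Fact X.p.Prime := ⟨h.pr⟩
  have hce : (S.card : ZMod X.p) ≠ 0 := by
    intro h0
    exact hc ((ZMod.natCast_eq_zero_iff _ _).1 h0)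
  have hinj : ∀ a b : ZMod X.p, zt X.ζ a = zt X.ζ b → a = b := by
    intro a b hab
    rw [← sub_eq_zero]
    apply zt_inj h.pr h.prim
    rw [sub_eq_add_neg, zt_add h.pr h.prim, zt_neg h.pr h.prim, hab, mul_inv_cancel₀ (zt_ne h.pr h.prim b)]
  have hex : ∀ s : Ω ≃ₐ[F] Ω, ∃ b : ZMod X.p, s ∈ X.E → s δ = zt X.ζ b * δ := by
    intro s
    by_cases hs : s ∈ X.E
    · have h3 : (s δ / δ) ^ X.p = 1 := by
        rw [div_pow, ← map_pow, h2 s hs, div_self (pow_ne_zero _ hδ)]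
      obtain ⟨b, hb⟩ := zt_root h.pr h.prim h3
      refine ⟨b, fun _ => ?_⟩
      rw [← hb, div_mul_cancel₀ _ hδ]
    · exact ⟨0, fun h => absurd h hs⟩
  choose b hb using hex
  have hmul : ∀ s ∈ X.E, ∀ t ∈ X.E, b (s * t) = X.om s * b t + b s := by
    intro s hs t ht
    apply hinj
    have h3 : (s * t) δ = s (t δ) := rfl
    rw [hb _ (mul_mem hs ht), hb t ht, map_mul, zt_map X h s (h.le2 hs), hb s hs, ← mul_assoc,
      ← zt_add h.pr h.prim] at h3
    exact mul_right_cancel₀ hδ h3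
  have hC : ∀ t ∈ X.C, b t = 0 := by
    intro t ht
    apply zt_inj h.pr h.prim
    have h3 := hb t (h.le1 ht)
    rw [h1 t ht] at h3
    exact (mul_eq_right₀ hδ).1 h3.symm
  let m : ZMod X.p := (S.card : ZMod X.p)⁻¹
  let x : ZMod X.p := m * ∑ s ∈ S, b s
  have hx : ∀ g ∈ X.E, X.om g * x + b g = x := by
    intro g hg
    have h3 := rep_sum hS b (fun s hs t ht => by rw [hmul s hs t (h.le1 ht), hC t ht, mul_zero, zero_add]) g hg
    have h4 : ∑ s ∈ S, b (g * s) = X.om g * ∑ s ∈ S, b s + S.card * b g := by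
      rw [Finset.mul_sum, ← nsmul_eq_mul, ← Finset.sum_const, ← Finset.sum_add_distrib]
      exact Finset.sum_congr rfl fun s hs => hmul g hg s (hS.mem s hs)
    have h5 : m * S.card = 1 := inv_mul_cancel₀ hce
    show X.om g * (m * ∑ s ∈ S, b s) + b g = m * ∑ s ∈ S, b s
    linear_combination m * h3 - m * h4 - b g * h5
  refine ⟨zt X.ζ x * δ, mul_ne_zero (zt_ne h.pr h.prim x) hδ, fun g hg => ?_, ?_⟩
  · rw [map_mul, zt_map X h g (h.le2 hg), hb g hg, ← mul_assoc, ← zt_add h.pr h.prim, hx g hg]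
  · rw [mul_pow, zt_pow h.prim, one_mul]


end H19C
end

-- from Lib.H19C.K3
section

/-! # H19C: rules (port of H19B/K3) -/

namespace H19C

open H55P (Dec Inert)
open H19B (Rep zt)
open H19B (zt_zero zt_nat zt_add zt_ne zt_neg zt_mul zt_pow zt_inj zt_root zt_val zt_sub_one z1_val z1_le rep_prod rep_sum rep_exists pow_one_add pow_one_add')


variable {F : Type} [Field F] {Ω : Type} [Field Ω] [Algebra F Ω]

/-- Chunk K3 (S). zt_add. -/
theorem kg_mul (X : Frm F Ω) (h : X.Ok) {a b : (Ω ≃ₐ[F] Ω) → ZMod X.p} {β γ : Ω} (hβ : X.Kg a β) (hγ : X.Kg b γ) :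
    X.Kg (a + b) (β * γ) := by
  obtain ⟨b0, b1, b2⟩ := hβ
  obtain ⟨c0, c1, c2⟩ := hγ
  refine ⟨mul_ne_zero b0 c0, fun s hs => ?_, fun t ht => ?_⟩
  · rw [mul_pow, map_mul, b1 s hs, c1 s hs]
  · rw [map_mul, b2 t ht, c2 t ht, Pi.add_apply, zt_add h.pr h.prim]
    ring

/-- Chunk K3 (S). zt_neg. -/
theorem kg_inv (X : Frm F Ω) (h : X.Ok) {a : (Ω ≃ₐ[F] Ω) → ZMod X.p} {β : Ω} (hβ : X.Kg a β) : X.Kg (-a) β⁻¹ := by
  obtain ⟨b0, b1, b2⟩ := hβ
  refine ⟨inv_ne_zero b0, fun s hs => ?_, fun t ht => ?_⟩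
  · rw [inv_pow, map_inv₀, b1 s hs]
  · rw [map_inv₀, b2 t ht, Pi.neg_apply, zt_neg h.pr h.prim, mul_inv]

/-- Chunk K3 (S). zt_mul. The character of β^k is k a; it is a if k = 1 modulo p. -/
theorem kg_pow (X : Frm F Ω) (h : X.Ok) {a : (Ω ≃ₐ[F] Ω) → ZMod X.p} {β : Ω} (hβ : X.Kg a β) (k : ℕ) (hk : (k : ZMod X.p) = 1) :
    X.Kg a (β ^ k) := by
  obtain ⟨b0, b1, b2⟩ := hβ
  refine ⟨pow_ne_zero k b0, fun s hs => ?_, fun t ht => ?_⟩
  · rw [← pow_mul, mul_comm, pow_mul, map_pow, b1 s hs]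
  · rw [map_pow, b2 t ht, mul_pow, ← zt_mul h.pr h.prim, hk, one_mul]

/-- Chunk K3 (S). -/
theorem kg_scale (X : Frm F Ω) (h : X.Ok) {a : (Ω ≃ₐ[F] Ω) → ZMod X.p} {β γ : Ω} (hβ : X.Kg a β) (h0 : γ ≠ 0)
    (hγ : ∀ s ∈ X.E, s γ = γ) : X.Kg a (β * γ) := by
  obtain ⟨b0, b1, b2⟩ := hβ
  refine ⟨mul_ne_zero b0 h0, fun s hs => ?_, fun t ht => ?_⟩
  · rw [mul_pow, map_mul, b1 s hs, map_pow, hγ s hs]
  · rw [map_mul, b2 t ht, hγ t (h.le1 ht), mul_assoc]

/-- Chunk K3 (S). -/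
theorem kg_one (X : Frm F Ω) (h : X.Ok) : X.Kg 0 1 := by
  refine ⟨one_ne_zero, fun s hs => ?_, fun t ht => ?_⟩
  · rw [one_pow, map_one]
  · rw [map_one, Pi.zero_apply, zt_zero, one_mul]

/-- The action of the elements of D on the powers of the Kummer generators. -/
theorem kg_dec (X : Frm F Ω) (h : X.Ok) {a : (Ω ≃ₐ[F] Ω) → ZMod X.p} (ha : X.Tw a) {β : Ω} (hβ : X.Kg a β) (σ : Ω ≃ₐ[F] Ω)
    (hσ : σ ∈ X.D) : ∃ γ : Ω, γ ≠ 0 ∧ (∀ s ∈ X.E, s γ = γ) ∧ σ (β ^ X.p) = (β ^ X.p) ^ (X.et σ).val * γ ^ X.p := by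
  obtain ⟨b0, b1, b2⟩ := hβ
  have hne : NeZero X.p := ⟨h.pr.ne_zero⟩
  have hc : ∀ s t : Ω ≃ₐ[F] Ω, ∀ x : Ω, t (s x) = s ((s⁻¹ * t * s) x) := by
    intro s t x
    have h3 : s * (s⁻¹ * t * s) = t * s := by group
    have h4 : (s * (s⁻¹ * t * s)) x = (t * s) x := by rw [h3]
    rw [AlgEquiv.mul_apply, AlgEquiv.mul_apply t s] at h4
    exact h4.symm
  obtain ⟨n, hn'⟩ : ∃ n : ℕ, n = (X.et σ).val := ⟨_, rfl⟩
  have hn2 : X.et σ = (n : ZMod X.p) := by rw [hn', ZMod.natCast_zmod_val]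
  rw [← hn']
  have hz : ∀ t ∈ X.C, t (σ β) = zt X.ζ (a t) ^ n * σ β := by
    intro t ht
    rw [hc σ t β, b2 _ (h.nrm1 σ hσ t ht), map_mul, zt_map X h σ hσ, ha.tw σ hσ t ht, hn2, zt_mul h.pr h.prim]
  have hp : σ β ≠ 0 := by
    intro h0
    exact b0 (by simpa using h0)
  have hn : β ^ n ≠ 0 := pow_ne_zero _ b0
  have hδ : σ β / β ^ n ≠ 0 := div_ne_zero hp hn
  have hδp : (σ β / β ^ n) ^ X.p = σ (β ^ X.p) / (β ^ X.p) ^ n := by
    rw [div_pow, map_pow, ← pow_mul, ← pow_mul, mul_comm n X.p]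
  have e1 : ∀ t ∈ X.C, t (σ β / β ^ n) = σ β / β ^ n := by
    intro t ht
    have hzt : zt X.ζ (a t) ^ n ≠ 0 := pow_ne_zero _ (zt_ne h.pr h.prim _)
    rw [map_div₀, hz t ht, map_pow, b2 t ht, mul_pow, mul_div_mul_left _ _ hzt]
  have e2 : ∀ s ∈ X.E, s ((σ β / β ^ n) ^ X.p) = (σ β / β ^ n) ^ X.p := by
    intro s hs
    have e3 : s ((β ^ X.p) ^ n) = (β ^ X.p) ^ n := by rw [map_pow s (β ^ X.p) n, b1 s hs]
    have e4 : s (σ (β ^ X.p)) = σ (β ^ X.p) := by rw [hc σ s, b1 _ (h.nrm2 σ hσ s hs)]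
    rw [hδp, map_div₀, e3, e4]
  obtain ⟨γ, g0, g1, g2⟩ := kummer_avg X h hδ e1 e2
  refine ⟨γ, g0, g1, ?_⟩
  rw [g2, hδp, mul_div_cancel₀ _ (pow_ne_zero _ (pow_ne_zero _ b0))]

end H19C
end

-- from Lib.H19C.K4
section

/-! # H19C: units (port of H19B/K4) -/

namespace H19C

open H55P (Dec Inert)
open H19B (Rep zt)
open H19B (zt_zero zt_nat zt_add zt_ne zt_neg zt_mul zt_pow zt_inj zt_root zt_val zt_sub_one z1_val z1_le rep_prod rep_sum rep_exists pow_one_add pow_one_add')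


open H55P (Dec Inert)

variable {F : Type} [Field F] {Ω : Type} [Field Ω] [Algebra F Ω]

/-- Every twisted character has a Kummer generator. -/
theorem kg_ex (X : Frm F Ω) (h : X.Ok) (a : (Ω ≃ₐ[F] Ω) → ZMod X.p) (ha : X.Tw a) :
    ∃ (β : Ω) (i : ℤ), X.Kg a β ∧ X.V.valuation (β ^ X.p) = X.V.valuation X.w ^ i := by
  obtain ⟨β0, hβ0, hb⟩ := kummer_gen X h a ha
  obtain ⟨β, hβ⟩ := kummer_norm X h a ha hβ0 hb
  obtain ⟨i, hi⟩ := h.val _ (pow_ne_zero _ hβ.ne) hβ.fx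
  exact ⟨β, i, hβ, hi⟩

theorem k4_exp (X : Frm F Ω) (h : X.Ok) {i k : ℤ} (hexp : X.V.valuation X.w ^ i = X.V.valuation X.w ^ k) : i = k := by
  have hw0 : 0 < X.V.valuation X.w := zero_lt_iff.2 ((map_ne_zero _).2 h.w0)
  rcases lt_trichotomy i k with h1 | h1 | h1
  · exact absurd hexp ((zpow_lt_zpow_iff_right_of_lt_one₀ hw0 h.w1).2 h1).ne'
  · exact h1
  · exact absurd hexp ((zpow_lt_zpow_iff_right_of_lt_one₀ hw0 h.w1).2 h1).ne

/-- If D moves the points of E then the value of the p-th power of a Kummer generator is a p-th power. -/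
theorem kg_dvd (X : Frm F Ω) (h : X.Ok) {a : (Ω ≃ₐ[F] Ω) → ZMod X.p} (ha : X.Tw a) {β : Ω} (hβ : X.Kg a β) {i : ℤ}
    (hi : X.V.valuation (β ^ X.p) = X.V.valuation X.w ^ i) {σ : Ω ≃ₐ[F] Ω} (hσ : σ ∈ X.D) (h1 : X.et σ ≠ 1) : (X.p : ℤ) ∣ i := by
  have hne : NeZero X.p := ⟨h.pr.ne_zero⟩
  have hw0 : 0 < X.V.valuation X.w := zero_lt_iff.2 ((map_ne_zero _).2 h.w0)
  have hwne : X.V.valuation X.w ≠ 0 := hw0.ne'
  obtain ⟨γ, hγ0, hγE, hγ⟩ := kg_dec X h ha hβ σ hσ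
  obtain ⟨g, hg⟩ := h.val γ hγ0 hγE
  obtain ⟨n, hn⟩ : ∃ n : ℕ, n = (X.et σ).val := ⟨_, rfl⟩
  rw [← hn] at hγ
  have hexp : X.V.valuation X.w ^ i = X.V.valuation X.w ^ ((n : ℤ) * i + (X.p : ℤ) * g) := by
    have e1 : X.V.valuation ((β ^ X.p) ^ n) = X.V.valuation X.w ^ ((n : ℤ) * i) := by
      rw [map_pow X.V.valuation (β ^ X.p) n, hi, ← zpow_natCast, ← zpow_mul, mul_comm i]
    have e2 : X.V.valuation (γ ^ X.p) = X.V.valuation X.w ^ ((X.p : ℤ) * g) := by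
      rw [map_pow, hg, ← zpow_natCast, ← zpow_mul, mul_comm g]
    rw [← hi, ← h.inv σ hσ, hγ, map_mul, e1, e2, zpow_add₀ hwne]
  have heq := k4_exp X h hexp
  have h2 : (X.p : ℤ) ∣ ((n : ℤ) - 1) * i := ⟨-g, by linear_combination -heq⟩
  rcases (Nat.prime_iff_prime_int.1 h.pr).dvd_or_dvd h2 with h3 | h3
  · exfalso
    apply h1
    have h4 : (((n : ℤ) - 1 : ℤ) : ZMod X.p) = 0 := (ZMod.intCast_zmod_eq_zero_iff_dvd _ _).2 h3
    push_cast at h4
    rw [hn, ZMod.natCast_zmod_val] at h4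
    exact sub_eq_zero.1 h4
  · exact h3

/-- A twisted character with a Kummer generator whose p-th power has a value divisible by p has a Kummer generator β with β^p = 1 modulo the
maximal ideal. -/
theorem kg_unit (X : Frm F Ω) (h : X.Ok) {a : (Ω ≃ₐ[F] Ω) → ZMod X.p} (ha : X.Tw a) {β : Ω} (hβ : X.Kg a β) {i : ℤ}
    (hi : X.V.valuation (β ^ X.p) = X.V.valuation X.w ^ i) (hpi : (X.p : ℤ) ∣ i) : X.Fl 0 a := by
  have hp := h.pr
  have hw0 : 0 < X.V.valuation X.w := zero_lt_iff.2 ((map_ne_zero _).2 h.w0)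
  have hwne : X.V.valuation X.w ≠ 0 := hw0.ne'
  obtain ⟨k, hk⟩ := hpi
  have hwk0 : X.w ^ (-k) ≠ 0 := zpow_ne_zero _ h.w0
  have hwkE : ∀ s ∈ X.E, s (X.w ^ (-k)) = X.w ^ (-k) := fun s hs => by rw [map_zpow₀, h.fw s hs]
  have hK1 := kg_scale X h hβ hwk0 hwkE
  set β1 := β * X.w ^ (-k) with hβ1
  set y := β1 ^ X.p with hy
  have hyV : X.V.valuation y = 1 := by
    rw [hy, hβ1, mul_pow, map_mul, hi, map_pow, map_zpow₀, ← zpow_natCast, ← zpow_mul, ← zpow_add₀ hwne, hk]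
    have h1 : (X.p : ℤ) * k + -k * (X.p : ℤ) = 0 := by ring
    rw [h1, zpow_zero]
  have hyE : ∀ s ∈ X.E, s y = y := hK1.fx
  set Q := X.Q with hQ
  have hQ1 : 1 ≤ Q := h.Q0
  have hres : X.V.valuation (y ^ Q - y) < 1 := h.res y hyV.le hyE
  have hz : X.V.valuation (y ^ (Q - 1) - 1) < 1 := by
    have h1 : y ^ Q - y = y * (y ^ (Q - 1) - 1) := by
      have h2 : y ^ Q = y * y ^ (Q - 1) := by rw [← pow_succ', Nat.sub_add_cancel hQ1]
      rw [h2]; ring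
    rw [h1, map_mul, hyV, one_mul] at hres
    exact hres
  have hzV : X.V.valuation (y ^ (Q - 1)) ≤ 1 := by rw [map_pow, hyV, one_pow]
  have hm : X.V.valuation (y ^ ((Q - 1) * (X.p - 1)) - 1) < 1 := by
    rw [pow_mul]
    exact lt_of_le_of_lt (z1_le X.V hzV _) hz
  have hmod : (((Q - 1) * (X.p - 1) : ℕ) : ZMod X.p) = 1 := by
    have h1 : ((Q : ℕ) : ZMod X.p) = 0 := by
      rw [ZMod.natCast_eq_zero_iff]
      exact h.Qp
    rw [Nat.cast_mul, Nat.cast_sub hQ1, Nat.cast_sub hp.one_lt.le, h1, ZMod.natCast_self]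
    ring
  refine ⟨ha, β1 ^ ((Q - 1) * (X.p - 1)), kg_pow X h hK1 _ hmod, ?_⟩
  have h1 : (β1 ^ ((Q - 1) * (X.p - 1))) ^ X.p = y ^ ((Q - 1) * (X.p - 1)) := by
    rw [hy, ← pow_mul, ← pow_mul, mul_comm X.p]
  rw [h1]
  refine val_succ X h (fun s hs => ?_) (by rw [pow_zero]; exact hm)
  rw [map_sub, map_one, map_pow, hyE s hs]

end H19C
end

-- from Lib.H19C.P1
section

/-! # H19C: p-th powers of one-units (port of H19B/P1) -/

namespace H19C

open H55P (Dec Inert)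
open H19B (Rep zt)
open H19B (zt_zero zt_nat zt_add zt_ne zt_neg zt_mul zt_pow zt_inj zt_root zt_val zt_sub_one z1_val z1_le rep_prod rep_sum rep_exists pow_one_add pow_one_add')

variable {F : Type} [Field F] {Ω : Type} [Field Ω] [Algebra F Ω]

/-- Chunk P1 (M). PROOF. First V(γ - 1) < 1: V(γ)^p = V(γ^p) = 1 as V(γ^p - 1) < 1 (i > 0: p does not divide 0; V(w) < 1), so V(γ) = 1, y = γ - 1 has V(y) ≤ 1, pow_one_add: V(y^p) ≤ max (V(γ^p - 1), V(p)) < 1. If y = 0 then γ^p - 1 = 0, clear (V(w) ≠ 0).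
Otherwise V(y) = V(w)^j, j an integer (h.val, y is fixed by E), j ≥ 1. V(γ^p - 1) ≤ max (V(w)^(p j), V(w)^(e + j)) (V(p) = V(w)^e). If p j ≠ e + j the value is exactly the larger one, V(w)^min(pj, e+j) (use pow_one_add', V(1 + y z) = 1).
(1) p j < e + j: V(w)^(pj) = V(γ^p - 1) ≤ V(w)^i, so p j ≥ i, and p j ≠ i as p does not divide i: p j > i, <. (2) p j ≥ e + j: j (p-1) ≥ e; V(γ^p - 1) ≤ V(w)^(e+j) and (e + j)(p - 1) ≥ e (p - 1) + e = e p > i (p - 1), so e + j > i, <. -/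
theorem pow_claim (X : Frm F Ω) (h : X.Ok) {γ : Ω} (hγ : ∀ s ∈ X.E, s γ = γ) {i : ℕ} (hi : ¬ X.p ∣ i)
    (hie : i * (X.p - 1) < X.e * X.p) (h1 : X.V.valuation (γ ^ X.p - 1) ≤ X.V.valuation X.w ^ i) :
    X.V.valuation (γ ^ X.p - 1) < X.V.valuation X.w ^ i := by
  have hW0 : X.V.valuation X.w ≠ 0 := (Valuation.ne_zero_iff _).2 h.w0
  have hWp : 0 < X.V.valuation X.w := zero_lt_iff.2 hW0
  have hWip : 0 < X.V.valuation X.w ^ i := zero_lt_iff.2 (pow_ne_zero _ hW0)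
  have hi0 : i ≠ 0 := by
    rintro rfl
    exact hi (dvd_zero _)
  have hWi1 : X.V.valuation X.w ^ i < 1 := pow_lt_one₀ zero_le h.w1 hi0
  have h2 : X.V.valuation (γ ^ X.p - 1) < 1 := lt_of_le_of_lt h1 hWi1
  have h3 : X.V.valuation (γ ^ X.p) = 1 := by
    have e : γ ^ X.p = 1 + (γ ^ X.p - 1) := by ring
    rw [e]
    exact Valuation.map_one_add_of_lt _ h2
  have h4 : X.V.valuation γ = 1 := by
    rw [map_pow] at h3
    exact (pow_eq_one_iff.1 h3).resolve_right h.pr.ne_zero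
  obtain ⟨y, hy⟩ : ∃ y : Ω, γ = 1 + y := ⟨γ - 1, by ring⟩
  have hy1 : X.V.valuation y ≤ 1 := by
    have e : y = γ - 1 := by
      rw [hy]
      ring
    rw [e]
    exact (Valuation.map_sub _ _ _).trans (max_le h4.le (by rw [map_one]))
  have hyE : ∀ s ∈ X.E, s y = y := by
    intro s hs
    have e : y = γ - 1 := by
      rw [hy]
      ring
    rw [e, map_sub, map_one, hγ s hs]
  have hp1 : X.V.valuation (X.p : Ω) < 1 := vp_lt X h
  have hylt : X.V.valuation y < 1 := by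
    obtain ⟨z, hz1, hz2⟩ := pow_one_add h.pr X.V hy1
    rw [← hy] at hz2
    have e : y ^ X.p = (γ ^ X.p - 1) - X.p * y * z := by
      rw [hz2]
      ring
    have h5 : X.V.valuation (y ^ X.p) < 1 := by
      rw [e]
      refine lt_of_le_of_lt (Valuation.map_sub _ _ _) (max_lt h2 ?_)
      rw [map_mul, map_mul, mul_assoc]
      exact lt_of_le_of_lt (mul_le_of_le_one_right' (mul_le_one' hy1 hz1)) hp1
    rw [map_pow] at h5
    exact (pow_lt_one_iff h.pr.ne_zero).1 h5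
  by_cases hy0 : y = 0
  · rw [hy, hy0, add_zero, one_pow, sub_self, map_zero]
    exact hWip
  obtain ⟨j, hj⟩ := h.val y hy0 hyE
  have hj1 : 0 < j := by
    rw [hj] at hylt
    by_contra hj0
    push Not at hj0
    have h6 : X.V.valuation X.w ^ (0 : ℤ) ≤ X.V.valuation X.w ^ j := zpow_le_zpow_right_of_le_one₀ hWp h.w1.le hj0
    rw [zpow_zero] at h6
    exact absurd hylt (not_lt.2 h6)
  obtain ⟨J, rfl⟩ : ∃ J : ℕ, j = (J : ℤ) := ⟨j.toNat, (Int.toNat_of_nonneg hj1.le).symm⟩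
  rw [zpow_natCast] at hj
  have hJ1 : 0 < J := by exact_mod_cast hj1
  obtain ⟨z, hz1, hz2⟩ := pow_one_add' h.pr X.V hy1
  rw [← hy] at hz2
  have e : γ ^ X.p - 1 = y ^ X.p + X.p * y * (1 + y * z) := by
    rw [hz2]
    ring
  have hv1 : X.V.valuation (y ^ X.p) = X.V.valuation X.w ^ (J * X.p) := by rw [map_pow, hj, ← pow_mul]
  have hv2 : X.V.valuation (X.p * y * (1 + y * z)) = X.V.valuation X.w ^ (X.e + J) := by
    have h7 : X.V.valuation (1 + y * z) = 1 := by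
      refine Valuation.map_one_add_of_lt _ ?_
      rw [map_mul]
      exact lt_of_le_of_lt (mul_le_of_le_one_right' hz1) hylt
    rw [map_mul, h7, mul_one, map_mul, h.ep, hj, ← pow_add]
  rcases lt_or_ge (J * X.p) (X.e + J) with hlt | hge
  · have h8 : X.V.valuation (X.p * y * (1 + y * z)) < X.V.valuation (y ^ X.p) := by
      rw [hv1, hv2]
      exact pow_lt_pow_right_of_lt_one₀ hWp h.w1 hlt
    have h9 : X.V.valuation (γ ^ X.p - 1) = X.V.valuation X.w ^ (J * X.p) := by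
      rw [e, Valuation.map_add_eq_of_lt_left _ h8, hv1]
    rw [h9] at h1 ⊢
    have h10 : i ≤ J * X.p := (pow_le_pow_iff_right_of_lt_one₀ hWp h.w1).1 h1
    have h11 : i ≠ J * X.p := by
      intro h12
      exact hi (h12 ▸ dvd_mul_left _ _)
    exact pow_lt_pow_right_of_lt_one₀ hWp h.w1 (lt_of_le_of_ne h10 h11)
  · have h8 : X.V.valuation (y ^ X.p) ≤ X.V.valuation X.w ^ (X.e + J) := by
      rw [hv1]
      exact pow_le_pow_of_le_one hWp.le h.w1.le hge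
    have h9 : X.V.valuation (γ ^ X.p - 1) ≤ X.V.valuation X.w ^ (X.e + J) := by
      rw [e]
      exact Valuation.map_add_le _ h8 hv2.le
    refine lt_of_le_of_lt h9 (pow_lt_pow_right_of_lt_one₀ hWp h.w1 ?_)
    obtain ⟨P, hP⟩ : ∃ P, X.p = P + 1 := ⟨X.p - 1, by have := h.pr.one_lt; omega⟩
    rw [hP] at hie hge
    rw [Nat.add_sub_cancel] at hie
    by_contra h12
    push Not at h12
    have h13 : (X.e + J) * P ≤ i * P := Nat.mul_le_mul_right P h12
    have h14 : X.e ≤ J * P := by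
      rw [mul_add, mul_one] at hge
      omega
    have h15 : (X.e + J) * P = X.e * P + J * P := by ring
    have h16 : X.e * (P + 1) = X.e * P + X.e := by ring
    omega


end H19C
end

-- from Lib.H19C.K6
section

/-! # H19C: leading coefficient (port of H19B/K6) -/

namespace H19C

open H55P (Dec Inert)
open H19B (Rep zt)
open H19B (zt_zero zt_nat zt_add zt_ne zt_neg zt_mul zt_pow zt_inj zt_root zt_val zt_sub_one z1_val z1_le rep_prod rep_sum rep_exists pow_one_add pow_one_add')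


variable {F : Type} [Field F] {Ω : Type} [Field Ω] [Algebra F Ω]

theorem k6_nat (V : ValuationSubring Ω) (n : ℕ) : V.valuation (n : Ω) ≤ 1 :=
  (V.valuation_le_one_iff _).2 (natCast_mem V n)

theorem k6_pow (V : ValuationSubring Ω) {u : Ω} (hu : V.valuation u ≤ 1) (n : ℕ) :
    V.valuation ((1 + u) ^ n - 1 - n * u) ≤ V.valuation u ^ 2 := by
  induction n with
  | zero => simp
  | succ n ih =>
    have e : (1 + u) ^ (n + 1) - 1 - ((n + 1 : ℕ) : Ω) * u = ((1 + u) ^ n - 1 - n * u) * (1 + u) + n * u ^ 2 := by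
      push_cast
      ring
    rw [e]
    refine Valuation.map_add_le _ ?_ ?_
    · rw [map_mul]
      have h1 : V.valuation (1 + u) ≤ 1 := Valuation.map_add_le _ (by rw [map_one]) hu
      exact (mul_le_mul' ih h1).trans (by rw [mul_one])
    · rw [map_mul, map_pow]
      exact (mul_le_mul' (k6_nat V n) le_rfl).trans (by rw [one_mul])


theorem k6_w (X : Frm F Ω) (h : X.Ok) (σ : Ω ≃ₐ[F] Ω) (hσ : σ ∈ X.D) : X.V.valuation (σ X.w / X.w) = 1 := by
  rw [map_div₀, h.inv σ hσ]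
  exact div_self ((Valuation.ne_zero_iff _).2 h.w0)

/-- The leading coefficient l of the p-th power of a Kummer generator and the elements σ of D. -/
theorem lead_dec (X : Frm F Ω) (h : X.Ok) {a : (Ω ≃ₐ[F] Ω) → ZMod X.p} (ha : X.Tw a) {β : Ω} (hβ : X.Kg a β) {i : ℕ}
    (hi : ¬ X.p ∣ i) (hie : i * (X.p - 1) < X.e * X.p) (h1 : X.V.valuation (β ^ X.p - 1) ≤ X.V.valuation X.w ^ i) {l : Ω}
    (hl : β ^ X.p - 1 = l * X.w ^ i) (σ : Ω ≃ₐ[F] Ω) (hσ : σ ∈ X.D) :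
    X.V.valuation l ≤ 1 ∧ X.V.valuation ((σ X.w / X.w) ^ i * σ l - ((X.et σ).val : Ω) * l) < 1 := by
  have hW0 : X.V.valuation X.w ≠ 0 := (Valuation.ne_zero_iff _).2 h.w0
  have hWi0 : X.V.valuation X.w ^ i ≠ 0 := pow_ne_zero _ hW0
  have hWip : 0 < X.V.valuation X.w ^ i := zero_lt_iff.2 hWi0
  have hi0 : i ≠ 0 := by
    rintro rfl
    exact hi (dvd_zero _)
  have hWi1 : X.V.valuation X.w ^ i < 1 := pow_lt_one₀ zero_le h.w1 hi0
  have hl1 : X.V.valuation l ≤ 1 := by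
    rw [hl, map_mul, map_pow] at h1
    exact le_of_mul_le_mul_right (h1.trans (by rw [one_mul])) hWip
  refine ⟨hl1, ?_⟩
  obtain ⟨n, hn⟩ : ∃ n : ℕ, n = (X.et σ).val := ⟨_, rfl⟩
  obtain ⟨γ, g0, g1, g2⟩ := kg_dec X h ha hβ σ hσ
  rw [← hn] at g2 ⊢
  have hx : β ^ X.p = 1 + l * X.w ^ i := by rw [← hl]; ring
  have hu : X.V.valuation (l * X.w ^ i) ≤ X.V.valuation X.w ^ i := by
    rw [← hl]
    exact h1
  have hu1 : X.V.valuation (l * X.w ^ i) < 1 := lt_of_le_of_lt hu hWi1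
  have hφx : σ (β ^ X.p) = 1 + (σ X.w / X.w) ^ i * σ l * X.w ^ i := by
    have e : σ X.w ^ i = (σ X.w / X.w) ^ i * X.w ^ i := by rw [div_pow, div_mul_cancel₀ _ (pow_ne_zero _ h.w0)]
    rw [hx, map_add, map_one, map_mul, map_pow, e]
    ring
  have hφl : X.V.valuation ((σ X.w / X.w) ^ i * σ l) ≤ 1 := by
    rw [map_mul, map_pow, k6_w X h σ hσ, one_pow, one_mul, h.inv σ hσ]
    exact hl1
  have hq : X.V.valuation ((1 + l * X.w ^ i) ^ n - 1 - n * (l * X.w ^ i)) < X.V.valuation X.w ^ i := by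
    refine lt_of_le_of_lt (k6_pow X.V hu1.le n) ?_
    refine lt_of_le_of_lt (pow_le_pow_left₀ zero_le hu 2) ?_
    rw [pow_two]
    exact mul_lt_of_lt_one_left hWip hWi1
  have hn1 : X.V.valuation ((β ^ X.p) ^ n - 1) ≤ X.V.valuation X.w ^ i := by
    have e : (β ^ X.p) ^ n - 1 = ((1 + l * X.w ^ i) ^ n - 1 - n * (l * X.w ^ i)) + n * (l * X.w ^ i) := by
      rw [hx]
      ring
    rw [e]
    refine Valuation.map_add_le _ hq.le ?_
    rw [map_mul]
    exact (mul_le_mul' (k6_nat X.V n) hu).trans (by rw [one_mul])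
  have hn2 : X.V.valuation ((β ^ X.p) ^ n) = 1 := by
    have e : (β ^ X.p) ^ n = 1 + ((β ^ X.p) ^ n - 1) := by ring
    rw [e]
    exact Valuation.map_one_add_of_lt _ (lt_of_le_of_lt hn1 hWi1)
  have hφ1 : X.V.valuation (σ (β ^ X.p) - 1) ≤ X.V.valuation X.w ^ i := by
    have e : σ (β ^ X.p) - 1 = (σ X.w / X.w) ^ i * σ l * X.w ^ i := by
      rw [hφx]
      ring
    rw [e, map_mul, map_pow X.V.valuation X.w i]
    exact (mul_le_mul' hφl le_rfl).trans (by rw [one_mul])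
  have hd : X.V.valuation (σ (β ^ X.p) - (β ^ X.p) ^ n) = X.V.valuation (γ ^ X.p - 1) := by
    have e : σ (β ^ X.p) - (β ^ X.p) ^ n = (β ^ X.p) ^ n * (γ ^ X.p - 1) := by
      rw [g2]
      ring
    rw [e, map_mul, hn2, one_mul]
  have hd1 : X.V.valuation (γ ^ X.p - 1) ≤ X.V.valuation X.w ^ i := by
    rw [← hd]
    have e : σ (β ^ X.p) - (β ^ X.p) ^ n = (σ (β ^ X.p) - 1) - ((β ^ X.p) ^ n - 1) := by ring
    rw [e]
    exact (Valuation.map_sub _ _ _).trans (max_le hφ1 hn1)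
  have hd2 : X.V.valuation (σ (β ^ X.p) - (β ^ X.p) ^ n) < X.V.valuation X.w ^ i := by
    rw [hd]
    exact pow_claim X h g1 hi hie hd1
  have hd3 : X.V.valuation (((σ X.w / X.w) ^ i * σ l - n * l) * X.w ^ i) < X.V.valuation X.w ^ i := by
    have e : ((σ X.w / X.w) ^ i * σ l - n * l) * X.w ^ i = (σ (β ^ X.p) - (β ^ X.p) ^ n)
        + ((1 + l * X.w ^ i) ^ n - 1 - n * (l * X.w ^ i)) := by
      rw [hφx, hx]
      ring
    rw [e]
    exact Valuation.map_add_lt _ hd2 hq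
  rw [map_mul, map_pow] at hd3
  exact lt_of_mul_lt_mul_right (hd3.trans_le (by rw [one_mul])) hWip.le

/-- The equation for the leading coefficient. -/
theorem lead_eq (X : Frm F Ω) (h : X.Ok) {a : (Ω ≃ₐ[F] Ω) → ZMod X.p} (ha : X.Tw a) {β : Ω} (hβ : X.Kg a β) {i : ℕ}
    (hi : ¬ X.p ∣ i) (hie : i * (X.p - 1) < X.e * X.p) (h1 : X.V.valuation (β ^ X.p - 1) ≤ X.V.valuation X.w ^ i) {l : Ω}
    (hl : β ^ X.p - 1 = l * X.w ^ i) : X.V.valuation l ≤ 1 ∧
      X.V.valuation ((X.φ X.w / X.w) ^ i * l ^ X.q - ((X.et X.φ).val : Ω) * l) < 1 := by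
  obtain ⟨hl1, h2⟩ := lead_dec X h ha hβ hi hie h1 hl X.φ h.phi
  refine ⟨hl1, ?_⟩
  have hf : X.V.valuation (X.φ l - l ^ X.q) < 1 := h.fro l hl1
  have h3 : X.V.valuation ((X.φ X.w / X.w) ^ i * (X.φ l - l ^ X.q)) < 1 := by
    rw [map_mul, map_pow, k6_w X h X.φ h.phi, one_pow, one_mul]
    exact hf
  have e : (X.φ X.w / X.w) ^ i * l ^ X.q - ((X.et X.φ).val : Ω) * l = ((X.φ X.w / X.w) ^ i * X.φ l - ((X.et X.φ).val : Ω) * l)
      - (X.φ X.w / X.w) ^ i * (X.φ l - l ^ X.q) := by ring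
  rw [e]
  exact lt_of_le_of_lt (Valuation.map_sub _ _ _) (max_lt h2 h3)

/-- At the other levels the leading coefficient is in the maximal ideal. -/
theorem lead_zero (X : Frm F Ω) (h : X.Ok) {a : (Ω ≃ₐ[F] Ω) → ZMod X.p} (ha : X.Tw a) {β : Ω} (hβ : X.Kg a β) {i : ℕ}
    (hi : ¬ X.p ∣ i) (hG : ¬ X.G i) (hie : i * (X.p - 1) < X.e * X.p) (h1 : X.V.valuation (β ^ X.p - 1) ≤ X.V.valuation X.w ^ i) :
    X.V.valuation (β ^ X.p - 1) ≤ X.V.valuation X.w ^ (i + 1) := by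
  have hw : X.w ^ i ≠ 0 := pow_ne_zero _ h.w0
  obtain ⟨l, hl⟩ : ∃ l : Ω, β ^ X.p - 1 = l * X.w ^ i := ⟨_, (div_mul_cancel₀ _ hw).symm⟩
  obtain ⟨s, hs, hsi, hu⟩ := h.lev i hG
  obtain ⟨hl1, h2⟩ := lead_dec X h ha hβ hi hie h1 hl s hs
  have h3 : X.V.valuation (s l - l) < 1 := hsi l ((ValuationSubring.valuation_le_one_iff _ _).1 hl1)
  have h4 : X.V.valuation ((s X.w / X.w) ^ i * (s l - l)) < 1 := by
    rw [map_mul, map_pow, k6_w X h s hs, one_pow, one_mul]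
    exact h3
  have h5 : X.V.valuation (((s X.w / X.w) ^ i - ((X.et s).val : Ω)) * l) < 1 := by
    have e : ((s X.w / X.w) ^ i - ((X.et s).val : Ω)) * l = ((s X.w / X.w) ^ i * s l - ((X.et s).val : Ω) * l)
        - (s X.w / X.w) ^ i * (s l - l) := by ring
    rw [e]
    exact lt_of_le_of_lt (Valuation.map_sub _ _ _) (max_lt h2 h4)
  rw [map_mul, hu, one_mul] at h5
  refine val_succ X h (fun t ht => ?_) ?_
  · rw [map_sub, map_one, hβ.fx t ht]
  · rw [hl, map_mul, map_pow]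
    exact mul_lt_of_lt_one_left (zero_lt_iff.2 (pow_ne_zero _ ((Valuation.ne_zero_iff _).2 h.w0))) h5

end H19C
end

-- from Lib.H19C.K7
section

/-! # H19C: improving (port of H19B/K7) -/

namespace H19C

open H55P (Dec Inert)
open H19B (Rep zt)
open H19B (zt_zero zt_nat zt_add zt_ne zt_neg zt_mul zt_pow zt_inj zt_root zt_val zt_sub_one z1_val z1_le rep_prod rep_sum rep_exists pow_one_add pow_one_add')


variable {F : Type} [Field F] {Ω : Type} [Field Ω] [Algebra F Ω]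

/-- Chunk K7 (M). PROOF. i = p k, k > 0. x = β^p = 1 + λ w^i, λ = (x - 1) / w^i is fixed by E, V(λ) ≤ 1. Q = q^(p-1) is divisible by p (p divides q, p - 1 > 0), Q = p Q'; μ = λ^Q', fixed by E, V(μ) ≤ 1, μ^p = λ^Q, V(μ^p - λ) < 1 (h.res).
δ = 1 + μ w^k, V(δ) = 1, fixed by E; pow_one_add: δ^p = 1 + μ^p w^i + p μ w^k z, V(p w^k) = V(w)^(e+k) < V(w)^i because e + k > p k: (p k)(p - 1) < e p gives k (p - 1) < e. So V(δ^p - x) < V(w)^i. β' = β δ⁻¹ (kg_scale):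
β'^p - 1 = (x - δ^p) / δ^p has value < V(w)^i, and it is fixed by E (hβ'.fx): ≤ V(w)^(i+1) (val_succ). -/
theorem improve (X : Frm F Ω) (h : X.Ok) {a : (Ω ≃ₐ[F] Ω) → ZMod X.p} {β : Ω} (hβ : X.Kg a β) {i : ℕ} (h0 : 0 < i)
    (hi : X.p ∣ i) (hie : i * (X.p - 1) < X.e * X.p) (h1 : X.V.valuation (β ^ X.p - 1) ≤ X.V.valuation X.w ^ i) :
    ∃ β' : Ω, X.Kg a β' ∧ X.V.valuation (β' ^ X.p - 1) ≤ X.V.valuation X.w ^ (i + 1) := by
  have hp := h.pr
  have hV0 : X.V.valuation X.w ≠ 0 := (Valuation.ne_zero_iff _).2 h.w0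
  have hVpos : 0 < X.V.valuation X.w := zero_lt_iff.2 hV0
  obtain ⟨k, rfl⟩ := hi
  have hk0 : 0 < k := Nat.pos_of_mul_pos_left h0
  have hkp : X.p * k < X.e + k := by
    have h2 : X.p * (k * (X.p - 1)) < X.p * X.e := by
      calc X.p * (k * (X.p - 1)) = X.p * k * (X.p - 1) := by ring
        _ < X.e * X.p := hie
        _ = X.p * X.e := mul_comm _ _
    have h3 : k * (X.p - 1) < X.e := lt_of_mul_lt_mul_left h2 (Nat.zero_le _)
    have h4 : X.p * k = k * (X.p - 1) + k := by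
      have h5 : X.p = (X.p - 1) + 1 := by have := hp.pos; omega
      calc X.p * k = ((X.p - 1) + 1) * k := by rw [← h5]
        _ = k * (X.p - 1) + k := by ring
    omega
  have hEw : ∀ s ∈ X.E, s X.w = X.w := fun s hs => h.fw s hs
  obtain ⟨x, hx⟩ : ∃ x, x = β ^ X.p := ⟨_, rfl⟩
  have hxE : ∀ s ∈ X.E, s x = x := by rw [hx]; exact hβ.fx
  rw [← hx] at h1
  obtain ⟨l, hl⟩ : ∃ l, l = (x - 1) / X.w ^ (X.p * k) := ⟨_, rfl⟩
  have hwi : X.w ^ (X.p * k) ≠ 0 := pow_ne_zero _ h.w0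
  have hxl : x = 1 + l * X.w ^ (X.p * k) := by
    rw [hl, div_mul_cancel₀ _ hwi]
    ring
  have hlE : ∀ s ∈ X.E, s l = l := by
    intro s hs
    rw [hl, map_div₀, map_sub, map_one, map_pow, hxE s hs, hEw s hs]
  have hlV : X.V.valuation l ≤ 1 := by
    rw [hl, map_div₀, map_pow]
    exact div_le_one_of_le₀ h1 (zero_le)
  obtain ⟨Q', hQ'⟩ : X.p ∣ X.Q := h.Qp
  obtain ⟨m, hm⟩ : ∃ m, m = l ^ Q' := ⟨_, rfl⟩
  have hmE : ∀ s ∈ X.E, s m = m := by
    intro s hs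
    rw [hm, map_pow, hlE s hs]
  have hmV : X.V.valuation m ≤ 1 := by
    rw [hm, map_pow]
    exact pow_le_one₀ (zero_le) hlV
  have hmp : X.V.valuation (m ^ X.p - l) < 1 := by
    have h5 := h.res l hlV hlE
    rwa [hQ', mul_comm, pow_mul, ← hm] at h5
  obtain ⟨y, hy⟩ : ∃ y, y = m * X.w ^ k := ⟨_, rfl⟩
  have hyV : X.V.valuation y ≤ X.V.valuation X.w ^ k := by
    rw [hy, map_mul, map_pow]
    exact mul_le_of_le_one_left (zero_le) hmV
  have hwk : X.V.valuation X.w ^ k < 1 := pow_lt_one₀ (zero_le) h.w1 hk0.ne'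
  have hy1 : X.V.valuation y < 1 := lt_of_le_of_lt hyV hwk
  obtain ⟨z, hz, hz2⟩ := pow_one_add hp X.V hy1.le
  obtain ⟨d, hd⟩ : ∃ d, d = 1 + y := ⟨_, rfl⟩
  have hdV : X.V.valuation d = 1 := by
    rw [hd]
    rw [Valuation.map_add_eq_of_lt_left _ (by rw [map_one]; exact hy1), map_one]
  have hd0 : d ≠ 0 := by
    intro h6
    rw [h6, map_zero] at hdV
    exact zero_ne_one hdV
  have hdE : ∀ s ∈ X.E, s d = d := by
    intro s hs
    rw [hd, hy, map_add, map_one, map_mul, map_pow, hmE s hs, hEw s hs]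
  have hkey : X.V.valuation (x - d ^ X.p) < X.V.valuation X.w ^ (X.p * k) := by
    have h7 : x - d ^ X.p = -((m ^ X.p - l) * X.w ^ (X.p * k) + X.p * y * z) := by
      rw [hd, hz2, hxl, hy, mul_pow, ← pow_mul, mul_comm k X.p]
      ring
    rw [h7, Valuation.map_neg]
    refine Valuation.map_add_lt _ ?_ ?_
    · rw [map_mul, map_pow]
      exact mul_lt_of_lt_one_left (pow_pos hVpos _) hmp
    · rw [map_mul, map_mul, h.ep]
      calc X.V.valuation X.w ^ X.e * X.V.valuation y * X.V.valuation z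
          ≤ X.V.valuation X.w ^ X.e * X.V.valuation X.w ^ k * 1 :=
            mul_le_mul' (mul_le_mul' le_rfl hyV) hz
        _ = X.V.valuation X.w ^ (X.e + k) := by rw [mul_one, pow_add]
        _ < X.V.valuation X.w ^ (X.p * k) := pow_lt_pow_right_of_lt_one₀ hVpos h.w1 hkp
  refine ⟨β * d⁻¹, kg_scale X h hβ (inv_ne_zero hd0) (fun s hs => by rw [map_inv₀, hdE s hs]), ?_⟩
  have hK := kg_scale X h hβ (inv_ne_zero hd0) (fun s hs => by rw [map_inv₀, hdE s hs])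
  refine val_succ X h (fun s hs => by rw [map_sub, hK.fx s hs, map_one]) ?_
  have h8 : (β * d⁻¹) ^ X.p - 1 = (x - d ^ X.p) / d ^ X.p := by
    have h9 : d ^ X.p ≠ 0 := pow_ne_zero _ hd0
    rw [mul_pow, ← hx, inv_pow]
    field_simp
  rw [h8, map_div₀, map_pow, hdV, one_pow, div_one]
  exact hkey


end H19C
end

-- from Lib.H19C.K8
section

/-! # H19C: close to 1 (port of H19B/K8) -/

namespace H19C

open H55P (Dec Inert)
open H19B (Rep zt)
open H19B (zt_zero zt_nat zt_add zt_ne zt_neg zt_mul zt_pow zt_inj zt_root zt_val zt_sub_one z1_val z1_le rep_prod rep_sum rep_exists pow_one_add pow_one_add')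


open H55P (Dec Inert)

variable {F : Type} [Field F] {Ω : Type} [Field Ω] [Algebra F Ω]

/-- Chunk K8 (M). PROOF. Suppose a t ≠ 0, t in C, inert. ζ' = ζ (zt 1), ρ = V(ζ - 1), ρ^(p-1) = V(p) (zt_sub_one with a = 1), ρ < 1, ρ ≠ 0. V(β^p - 1)^(p-1) ≤ V(w)^(i(p-1)) ≤ V(w)^(e p) = V(p)^p = (ρ^p)^(p-1), so V(β^p - 1) ≤ ρ^p (i (p-1) ≥ e p > 0; pow_le_pow_left
inverse). y = β - 1: V(β) = 1 (V(β^p) = 1), V(y) ≤ 1, β^p - 1 = y^p + p y z, V(z) ≤ 1 (pow_one_add). Claim V(y) ≤ ρ: otherwise V(y)^(p-1) > V(p), so V(p y z) < V(y)^p (y ≠ 0) and V(β^p - 1) = V(y)^p > ρ^p, contradiction. So y = (ζ - 1) u with V(u) ≤ 1.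
t ζ = ζ (zD, om t = 1, zt 1 = ζ), so t β - β = (ζ - 1)(t u - u) has value < ρ (Inert V t, V(ζ - 1) ≠ 0). But t β = zt (a t) β, so V(t β - β) = V(zt (a t) - 1) V(β) = V(zt (a t) - 1), and its (p-1)-th power is V(p) = ρ^(p-1): the value is ρ. Contradiction. -/
theorem kg_inert (X : Frm F Ω) (h : X.Ok) {a : (Ω ≃ₐ[F] Ω) → ZMod X.p} {β : Ω} (hβ : X.Kg a β) {i : ℕ}
    (hie : X.e * X.p ≤ i * (X.p - 1)) (h1 : X.V.valuation (β ^ X.p - 1) ≤ X.V.valuation X.w ^ i)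
    (t : Ω ≃ₐ[F] Ω) (ht : t ∈ X.C) (hi : Inert X.V t) : a t = 0 := by
  by_contra hat
  have hp := h.pr
  have : Fact X.p.Prime := ⟨hp⟩
  have hp1 : X.p - 1 ≠ 0 := by have := hp.two_le; omega
  have hp0 : X.p ≠ 0 := hp.ne_zero
  set ρ := X.V.valuation (X.ζ - 1) with hρ
  have hz1 : zt X.ζ (1 : ZMod X.p) = X.ζ := by
    have := zt_nat h.prim 1
    rw [Nat.cast_one, pow_one] at this
    exact this
  have hρp : ρ ^ (X.p - 1) = X.V.valuation (X.p : Ω) := by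
    have := zt_sub_one hp h.prim X.V (1 : ZMod X.p) one_ne_zero
    rw [hz1] at this
    exact this
  have hvp1 := vp_lt X h
  have hw0 : X.V.valuation X.w ≠ 0 := (X.V.valuation.ne_zero_iff).2 h.w0
  have hρ0 : ρ ≠ 0 := by
    intro h0
    rw [h0, zero_pow hp1, h.ep] at hρp
    exact pow_ne_zero _ hw0 hρp.symm
  have hρ1 : ρ < 1 := by
    by_contra h2
    push Not at h2
    have : 1 ≤ ρ ^ (X.p - 1) := one_le_pow₀ h2
    rw [hρp] at this
    exact absurd hvp1 (not_lt.2 this)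
  -- step 1
  have hs1 : X.V.valuation (β ^ X.p - 1) ≤ ρ ^ X.p := by
    refine h1.trans ?_
    rw [← pow_le_pow_iff_left₀ zero_le zero_le hp1, ← pow_mul, ← pow_mul, mul_comm X.p, pow_mul ρ, hρp, h.ep, ← pow_mul]
    exact pow_le_pow_of_le_one zero_le h.w1.le hie
  have hρpl : ρ ^ X.p < 1 := pow_lt_one₀ zero_le hρ1 hp0
  -- step 2
  have hvβ : X.V.valuation β = 1 := by
    have h2 : X.V.valuation (1 + (β ^ X.p - 1)) = 1 := Valuation.map_one_add_of_lt X.V.valuation (hs1.trans_lt hρpl)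
    rw [add_sub_cancel, map_pow] at h2
    exact (pow_eq_one_iff.1 h2).resolve_right hp0
  have hy1 : X.V.valuation (β - 1) ≤ 1 := by
    refine (Valuation.map_sub _ _ _).trans ?_
    rw [hvβ, map_one, max_self]
  obtain ⟨z, hz, hyz⟩ := pow_one_add hp X.V hy1
  rw [add_sub_cancel] at hyz
  have hyz' : β ^ X.p - 1 = (β - 1) ^ X.p + X.p * (β - 1) * z := by rw [hyz]; ring
  have hs3 : X.V.valuation (β - 1) ≤ ρ := by
    by_contra h2
    push Not at h2
    have h3 : X.V.valuation (X.p : Ω) < X.V.valuation (β - 1) ^ (X.p - 1) := by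
      rw [← hρp]
      exact pow_lt_pow_left₀ h2 zero_le hp1
    have hy0 : 0 < X.V.valuation (β - 1) := lt_of_le_of_lt zero_le h2
    have h4 : X.V.valuation (X.p * (β - 1) * z) < X.V.valuation ((β - 1) ^ X.p) := by
      rw [map_mul, map_mul, map_pow]
      have h5 : X.V.valuation (β - 1) ^ X.p = X.V.valuation (β - 1) ^ (X.p - 1) * X.V.valuation (β - 1) := by
        rw [← pow_succ, Nat.sub_add_cancel hp.one_le]
      rw [h5]
      calc X.V.valuation (X.p : Ω) * X.V.valuation (β - 1) * X.V.valuation z ≤ X.V.valuation (X.p : Ω) * X.V.valuation (β - 1) * 1 := by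
            gcongr
        _ = X.V.valuation (X.p : Ω) * X.V.valuation (β - 1) := mul_one _
        _ < X.V.valuation (β - 1) ^ (X.p - 1) * X.V.valuation (β - 1) := by
            exact mul_lt_mul_of_pos_right h3 hy0
    have h6 : X.V.valuation (β ^ X.p - 1) = X.V.valuation (β - 1) ^ X.p := by
      rw [hyz', Valuation.map_add_eq_of_lt_left _ h4, map_pow]
    rw [h6] at hs1
    exact absurd h2 (not_lt.2 ((pow_le_pow_iff_left₀ zero_le zero_le hp0).1 hs1))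
  -- step 4
  have hζ1 : X.ζ - 1 ≠ 0 := (X.V.valuation.ne_zero_iff).1 hρ0
  obtain ⟨u, hu⟩ : ∃ u, β - 1 = (X.ζ - 1) * u := ⟨(β - 1) / (X.ζ - 1), by field_simp⟩
  have hVu : X.V.valuation u ≤ 1 := by
    rw [hu, map_mul] at hs3
    by_contra h2
    push Not at h2
    have : ρ * 1 < ρ * X.V.valuation u := mul_lt_mul_of_pos_left h2 (zero_lt_iff.2 hρ0)
    rw [mul_one] at this
    exact absurd this (not_lt.2 hs3)
  have htζ : t X.ζ = X.ζ := by
    rw [h.zD t (h.le2 (h.le1 ht)), h.om1 t ht, hz1]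
  have htβ : t β - β = (X.ζ - 1) * (t u - u) := by
    have h2 : β = 1 + (X.ζ - 1) * u := by rw [← hu]; ring
    rw [h2, map_add, map_mul, map_sub, map_one, htζ]
    ring
  have hlt : X.V.valuation (t β - β) < ρ := by
    rw [htβ, map_mul]
    have h2 := hi u ((ValuationSubring.valuation_le_one_iff _ _).1 hVu)
    have : ρ * X.V.valuation (t u - u) < ρ * 1 := mul_lt_mul_of_pos_left h2 (zero_lt_iff.2 hρ0)
    rwa [mul_one] at this
  have heq : X.V.valuation (t β - β) = X.V.valuation (zt X.ζ (a t) - 1) := by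
    rw [hβ.ev t ht]
    have : zt X.ζ (a t) * β - β = (zt X.ζ (a t) - 1) * β := by ring
    rw [this, map_mul, hvβ, mul_one]
  have h5 := zt_sub_one hp h.prim X.V (a t) hat
  rw [← hρp, ← heq] at h5
  have h6 := pow_lt_pow_left₀ hlt zero_le hp1
  rw [h5] at h6
  exact lt_irrefl _ h6


end H19C
end

-- from Lib.H19C.FS
section

/-! # H19C: index (port of H19B/FS) -/

namespace H19C

open H55P (Dec Inert)
open H19B (Rep zt)
open H19B (zt_zero zt_nat zt_add zt_ne zt_neg zt_mul zt_pow zt_inj zt_root zt_val zt_sub_one z1_val z1_le rep_prod rep_sum rep_exists pow_one_add pow_one_add')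
open H19B (rel_le rel_ge rel_map rel_chain prod_count)


open H55P (Dec Inert)

variable {F : Type} [Field F] {Ω : Type} [Field Ω] [Algebra F Ω]

theorem fs_one (X : Frm F Ω) {x : Ω} (hx : X.V.valuation (x - 1) < 1) : X.V.valuation x = 1 := by
  have h1 := Valuation.map_one_add_of_lt X.V.valuation hx
  rwa [add_sub_cancel] at h1

theorem fs_lt (X : Frm F Ω) (h : X.Ok) (i : ℕ) : X.V.valuation X.w ^ (i + 1) < 1 :=
  pow_lt_one₀ zero_le h.w1 (Nat.succ_ne_zero i)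

/-- Chunk FS (S). PROOF. Kg 0 1 (kg_one); kg_mul and β^p γ^p - 1 = (β^p - 1) γ^p + (γ^p - 1), V(γ^p) = 1 (V(γ^p - 1) < 1); kg_inv and β^(-p) - 1 = -(β^p - 1) / β^p. -/
theorem fl_zero (X : Frm F Ω) (h : X.Ok) (i : ℕ) : X.Fl i 0 := by
  refine ⟨X.TS.zero_mem, 1, kg_one X h, ?_⟩
  rw [one_pow, sub_self, map_zero]
  exact zero_le

/-- Chunk FS (S). -/
theorem fl_add (X : Frm F Ω) (h : X.Ok) (i : ℕ) {a b : (Ω ≃ₐ[F] Ω) → ZMod X.p} (ha : X.Fl i a) (hb : X.Fl i b) : X.Fl i (a + b) := by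
  obtain ⟨ta, β, hβ, hβ'⟩ := ha
  obtain ⟨tb, γ, hγ, hγ'⟩ := hb
  refine ⟨X.TS.add_mem ta tb, β * γ, kg_mul X h hβ hγ, ?_⟩
  have h1 : X.V.valuation (γ ^ X.p) = 1 := fs_one X (hγ'.trans_lt (fs_lt X h i))
  have e1 : (β * γ) ^ X.p - 1 = (β ^ X.p - 1) * γ ^ X.p + (γ ^ X.p - 1) := by ring
  rw [e1]
  refine (Valuation.map_add _ _ _).trans (max_le ?_ hγ')
  rw [map_mul, h1, mul_one]
  exact hβ'

/-- Chunk FS (S). -/
theorem fl_neg (X : Frm F Ω) (h : X.Ok) (i : ℕ) {a : (Ω ≃ₐ[F] Ω) → ZMod X.p} (ha : X.Fl i a) : X.Fl i (-a) := by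
  obtain ⟨ta, β, hβ, hβ'⟩ := ha
  refine ⟨X.TS.neg_mem ta, β⁻¹, kg_inv X h hβ, ?_⟩
  have h1 : X.V.valuation (β ^ X.p) = 1 := fs_one X (hβ'.trans_lt (fs_lt X h i))
  have h2 : β ^ X.p ≠ 0 := pow_ne_zero _ hβ.ne
  have e1 : (β⁻¹) ^ X.p - 1 = -((β ^ X.p - 1) * (β ^ X.p)⁻¹) := by
    rw [inv_pow]
    field_simp
    ring
  rw [e1, Valuation.map_neg, map_mul, map_inv₀, h1, inv_one, mul_one]
  exact hβ'

/-- The filtration of the twisted characters. -/
def TF (X : Frm F Ω) (h : X.Ok) (i : ℕ) : AddSubgroup ((Ω ≃ₐ[F] Ω) → ZMod X.p) where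
  carrier := {a | X.Fl i a}
  zero_mem' := fl_zero X h i
  add_mem' := fun ha hb => fl_add X h i ha hb
  neg_mem' := fun ha => fl_neg X h i ha


/-- Chunk FS (S). V(w) < 1. -/
theorem tf_anti (X : Frm F Ω) (h : X.Ok) : Antitone (TF X h) := by
  intro i j hij a ha
  obtain ⟨ta, β, hβ, hβ'⟩ := ha
  exact ⟨ta, β, hβ, hβ'.trans (pow_le_pow_of_le_one zero_le h.w1.le (by omega))⟩

/-- The index of the characters with generators close to 1. -/
theorem tf_index (X : Frm F Ω) (h : X.Ok) : (TF X h 0).relIndex X.TS ≠ 0 ∧ (TF X h 0).relIndex X.TS ≤ X.p := by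
  classical
  have hne : NeZero X.p := ⟨h.pr.ne_zero⟩
  have hch : ∀ a : (Ω ≃ₐ[F] Ω) → ZMod X.p, ∃ (β : Ω) (i : ℤ), a ∈ X.TS →
      X.Kg a β ∧ X.V.valuation (β ^ X.p) = X.V.valuation X.w ^ i := by
    intro a
    by_cases ha : a ∈ X.TS
    · obtain ⟨β, i, h1, h2⟩ := kg_ex X h a ha
      exact ⟨β, i, fun _ => ⟨h1, h2⟩⟩
    · exact ⟨0, 0, fun h' => absurd h' ha⟩
  choose β i hβ using hch
  have h1 := rel_le (TF X h 0) X.TS (fun a => ((i a : ℤ) : ZMod X.p)) Finset.univ (fun a _ => Finset.mem_univ _)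
    (fun a ha b hb hab => by
      obtain ⟨ka, va⟩ := hβ a ha
      obtain ⟨kb, vb⟩ := hβ b hb
      have hk := kg_mul X h ka (kg_inv X h kb)
      rw [← sub_eq_add_neg] at hk
      have hw : X.V.valuation X.w ≠ 0 := (Valuation.ne_zero_iff _).2 h.w0
      have hv : X.V.valuation ((β a * (β b)⁻¹) ^ X.p) = X.V.valuation X.w ^ (i a - i b) := by
        rw [mul_pow, inv_pow, map_mul, map_inv₀, va, vb, ← zpow_neg, ← zpow_add₀ hw, sub_eq_add_neg]
      refine kg_unit X h (X.TS.sub_mem ha hb) hk hv ?_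
      rw [← ZMod.intCast_zmod_eq_zero_iff_dvd]
      push_cast
      exact sub_eq_zero.2 hab)
  refine ⟨h1.1, h1.2.trans ?_⟩
  rw [Finset.card_univ, ZMod.card]

/-- If D moves the points of E all characters have generators close to 1. -/
theorem tf_zero (X : Frm F Ω) (h : X.Ok) (hm : ∃ σ ∈ X.D, X.et σ ≠ 1) : TF X h 0 = X.TS := by
  ext a
  refine ⟨fun ha => ha.tw, fun ha => ?_⟩
  obtain ⟨σ, hσ, h1⟩ := hm
  obtain ⟨β, i, hβ, hi⟩ := kg_ex X h a ha
  exact kg_unit X h ha hβ hi (kg_dvd X h ha hβ hi hσ h1)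

open Classical in
/-- One step of the filtration. -/
theorem tf_step (X : Frm F Ω) (h : X.Ok) (i : ℕ) (hi : (i + 1) * (X.p - 1) < X.e * X.p) :
    (TF X h (i + 1)).relIndex (TF X h i) ≠ 0 ∧
      (TF X h (i + 1)).relIndex (TF X h i) ≤ if ¬ X.p ∣ i + 1 ∧ X.G (i + 1) then X.q else 1 := by
  by_cases hp : X.p ∣ i + 1
  · rw [if_neg (fun h' => h'.1 hp)]
    have h1 : TF X h i ≤ TF X h (i + 1) := by
      intro a ha
      obtain ⟨ta, β, hβ, hβ'⟩ := ha
      obtain ⟨γ, hγ, hγ'⟩ := improve X h hβ (Nat.succ_pos i) hp hi hβ'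
      exact ⟨ta, γ, hγ, hγ'⟩
    rw [AddSubgroup.relIndex_eq_one.2 h1]
    exact ⟨one_ne_zero, le_rfl⟩
  by_cases hG : X.G (i + 1)
  swap
  · rw [if_neg (fun h' => hG h'.2)]
    have h1 : TF X h i ≤ TF X h (i + 1) := by
      intro a ha
      obtain ⟨ta, β, hβ, hβ'⟩ := ha
      exact ⟨ta, β, hβ, lead_zero X h ta hβ hp hG hi hβ'⟩
    rw [AddSubgroup.relIndex_eq_one.2 h1]
    exact ⟨one_ne_zero, le_rfl⟩
  · rw [if_pos ⟨hp, hG⟩]
    have hw : X.w ^ (i + 1) ≠ 0 := pow_ne_zero _ h.w0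
    obtain ⟨ε, hε⟩ : ∃ ε : Ω, ε = (X.φ X.w / X.w) ^ (i + 1) := ⟨_, rfl⟩
    obtain ⟨n, hn⟩ : ∃ n : ℕ, n = (X.et X.φ).val := ⟨_, rfl⟩
    have hε1 : X.V.valuation ε = 1 := by rw [hε, map_pow, k6_w X h X.φ h.phi, one_pow]
    have hch : ∀ a : (Ω ≃ₐ[F] Ω) → ZMod X.p, ∃ (β : Ω) (l : X.V), a ∈ TF X h i →
        X.Kg a β ∧ X.V.valuation (β ^ X.p - 1) ≤ X.V.valuation X.w ^ (i + 1) ∧ β ^ X.p - 1 = l * X.w ^ (i + 1) ∧
          X.V.valuation (ε * (l : Ω) ^ X.q - n * l) < 1 := by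
      intro a
      by_cases ha : a ∈ TF X h i
      · obtain ⟨ta, β, hβ, hβ'⟩ := ha
        have hl : β ^ X.p - 1 = ((β ^ X.p - 1) / X.w ^ (i + 1)) * X.w ^ (i + 1) := (div_mul_cancel₀ _ hw).symm
        obtain ⟨h1, h2⟩ := lead_eq X h ta hβ hp hi hβ' hl
        rw [← hε, ← hn] at h2
        exact ⟨β, ⟨_, (ValuationSubring.valuation_le_one_iff _ _).1 h1⟩, fun _ => ⟨hβ, hβ', hl, h2⟩⟩
      · exact ⟨0, 0, fun h' => absurd h' ha⟩
    choose β l hβl using hch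
    obtain ⟨εV, hεV⟩ : ∃ εV : X.V, (εV : Ω) = ε := ⟨⟨ε, (ValuationSubring.valuation_le_one_iff _ _).1 hε1.le⟩, rfl⟩
    have hε0 : IsLocalRing.residue X.V εV ≠ 0 := by
      intro h0
      have h1 := (ValuationSubring.valuation_lt_one_iff _ εV).1 ((IsLocalRing.residue_eq_zero_iff εV).1 h0)
      rw [hεV, hε1] at h1
      exact lt_irrefl _ h1
    obtain ⟨P, hP⟩ : ∃ P : Polynomial (IsLocalRing.ResidueField X.V),
        P = Polynomial.C (IsLocalRing.residue X.V εV) * Polynomial.X ^ X.q -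
          Polynomial.C (n : IsLocalRing.ResidueField X.V) * Polynomial.X := ⟨_, rfl⟩
    have hPd : P.natDegree = X.q := by
      rw [hP]
      apply Polynomial.natDegree_eq_of_degree_eq_some
      rw [Polynomial.degree_sub_eq_left_of_degree_lt]
      · exact Polynomial.degree_C_mul_X_pow _ hε0
      · rw [Polynomial.degree_C_mul_X_pow _ hε0]
        refine (Polynomial.degree_C_mul_X_le _).trans_lt ?_
        exact_mod_cast h.q0
    have hP0 : P ≠ 0 := by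
      intro h0
      rw [h0, Polynomial.natDegree_zero] at hPd
      have := h.q0
      omega
    have hres : ∀ x : X.V, X.V.valuation (x : Ω) < 1 → IsLocalRing.residue X.V x = 0 := fun x hx =>
      (IsLocalRing.residue_eq_zero_iff x).2 ((ValuationSubring.valuation_lt_one_iff _ x).2 hx)
    have hres' : ∀ x : X.V, IsLocalRing.residue X.V x = 0 → X.V.valuation (x : Ω) < 1 := fun x hx =>
      (ValuationSubring.valuation_lt_one_iff _ x).1 ((IsLocalRing.residue_eq_zero_iff x).1 hx)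
    have h1 := rel_le (TF X h (i + 1)) (TF X h i) (fun a => IsLocalRing.residue X.V (l a)) P.roots.toFinset
      (fun a ha => by
        obtain ⟨-, -, -, h2⟩ := hβl a ha
        rw [Multiset.mem_toFinset, Polynomial.mem_roots hP0, Polynomial.IsRoot.def, hP]
        rw [Polynomial.eval_sub, Polynomial.eval_mul, Polynomial.eval_pow, Polynomial.eval_X, Polynomial.eval_mul, Polynomial.eval_C,
          Polynomial.eval_C, Polynomial.eval_X]
        have h3 := hres (εV * (l a) ^ X.q - n * l a) (by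
          push_cast
          rw [hεV]
          exact h2)
        rw [map_sub, map_mul, map_pow, map_mul, map_natCast] at h3
        exact h3)
      (fun a ha b hb hab => by
        obtain ⟨ka, va, la, -⟩ := hβl a ha
        obtain ⟨kb, vb, lb, -⟩ := hβl b hb
        have h4 : IsLocalRing.residue X.V (l a - l b) = 0 := by
          rw [map_sub, sub_eq_zero]
          exact hab
        have h5 := hres' _ h4
        have h6 : X.V.valuation ((β b) ^ X.p) = 1 := fs_one X (vb.trans_lt (fs_lt X h i))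
        have h7 : (β b) ^ X.p ≠ 0 := pow_ne_zero _ kb.ne
        have hk := kg_mul X h ka (kg_inv X h kb)
        rw [← sub_eq_add_neg] at hk
        refine ⟨X.TS.sub_mem ha.tw hb.tw, _, hk, ?_⟩
        refine val_succ X h ?_ ?_
        · intro s hs
          rw [map_sub, map_one, hk.fx s hs]
        · have e1 : (β a * (β b)⁻¹) ^ X.p - 1 = (((l a - l b : X.V) : Ω) * X.w ^ (i + 1)) * ((β b) ^ X.p)⁻¹ := by
            have e2 : (β a) ^ X.p - (β b) ^ X.p = ((l a - l b : X.V) : Ω) * X.w ^ (i + 1) := by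
              push_cast
              linear_combination la - lb
            rw [← e2, mul_pow, inv_pow]
            field_simp
          rw [e1, map_mul, map_inv₀, h6, inv_one, mul_one, map_mul, map_pow]
          have h8 : X.V.valuation X.w ^ (i + 1) ≠ 0 := pow_ne_zero _ ((Valuation.ne_zero_iff _).2 h.w0)
          exact mul_lt_of_lt_one_left (zero_lt_iff.2 h8) h5)
    refine ⟨h1.1, h1.2.trans ?_⟩
    refine (Multiset.toFinset_card_le _).trans ?_
    rw [← hPd]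
    exact Polynomial.card_roots' P

/-- The index in the characters with generators close to 1. -/
theorem ti_index0 (X : Frm F Ω) (h : X.Ok) :
    (X.TI ⊓ TF X h 0).relIndex (TF X h 0) ≠ 0 ∧ (X.TI ⊓ TF X h 0).relIndex (TF X h 0) ≤ X.q ^ X.b := by
  classical
  have hp2 := h.odd
  have he := h.e0
  have hep : 0 < X.e * X.p := Nat.mul_pos he (by omega)
  obtain ⟨k, hk⟩ : ∃ k : ℕ, k = (X.e * X.p - 1) / (X.p - 1) := ⟨_, rfl⟩
  have hk1 : k * (X.p - 1) < X.e * X.p := by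
    have h1 := Nat.div_mul_le_self (X.e * X.p - 1) (X.p - 1)
    rw [← hk] at h1
    omega
  have hk2 : X.e * X.p ≤ (k + 1) * (X.p - 1) := by
    have h1 := Nat.lt_mul_div_succ (X.e * X.p - 1) (show 0 < X.p - 1 by omega)
    rw [← hk, mul_comm (X.p - 1)] at h1
    omega
  have h1 := rel_chain (TF X h) (tf_anti X h) (fun i => if ¬ X.p ∣ i + 1 ∧ X.G (i + 1) then X.q else 1) k (fun i hi =>
    tf_step X h i ((Nat.mul_le_mul_right _ (Nat.succ_le_of_lt hi)).trans_lt hk1))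
  have hc : ∏ i ∈ Finset.range k, (if ¬ X.p ∣ i + 1 ∧ X.G (i + 1) then X.q else 1) ≤ X.q ^ X.b := by
    rw [Finset.prod_ite, Finset.prod_const_one, mul_one, Finset.prod_const]
    refine Nat.pow_le_pow_right (by have := h.q0; omega) (h.cnt k _ hk1 fun i hi => ?_)
    rw [Finset.mem_filter, Finset.mem_range] at hi
    exact ⟨hi.1, hi.2.1, hi.2.2⟩
  have h2 : TF X h k ≤ X.TI ⊓ TF X h 0 := by
    intro a ha
    refine ⟨?_, tf_anti X h (Nat.zero_le k) ha⟩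
    obtain ⟨ta, β, hβ, hβ'⟩ := ha
    exact ⟨ta, fun t ht hi => kg_inert X h hβ hk2 hβ' t ht hi⟩
  have h3 : (X.TI ⊓ TF X h 0).relIndex (TF X h 0) ∣ (TF X h k).relIndex (TF X h 0) := AddSubgroup.relIndex_dvd_of_le_left _ h2
  refine ⟨fun h0 => h1.1 ?_, (Nat.le_of_dvd (Nat.pos_of_ne_zero h1.1) h3).trans (h1.2.trans hc)⟩
  rw [h0] at h3
  exact Nat.eq_zero_of_zero_dvd h3

/-- THE LOCAL INDEX: in general. -/
theorem ti_index1 (X : Frm F Ω) (h : X.Ok) : X.TI.relIndex X.TS ≠ 0 ∧ X.TI.relIndex X.TS ≤ X.q ^ X.b * X.p := by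
  obtain ⟨a1, a2⟩ := ti_index0 X h
  obtain ⟨b1, b2⟩ := tf_index X h
  have hle : X.TI ⊓ TF X h 0 ≤ TF X h 0 := inf_le_right
  have hle2 : TF X h 0 ≤ X.TS := fun a ha => ha.tw
  have h1 := AddSubgroup.relIndex_mul_relIndex (X.TI ⊓ TF X h 0) (TF X h 0) X.TS hle hle2
  have h2 : X.TI.relIndex X.TS ∣ (X.TI ⊓ TF X h 0).relIndex X.TS := AddSubgroup.relIndex_dvd_of_le_left _ inf_le_left
  have h3 : (X.TI ⊓ TF X h 0).relIndex X.TS ≠ 0 := by
    rw [← h1]
    exact Nat.mul_ne_zero a1 b1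
  refine ⟨fun h0 => h3 (Nat.eq_zero_of_zero_dvd (h0 ▸ h2)), (Nat.le_of_dvd (Nat.pos_of_ne_zero h3) h2).trans ?_⟩
  rw [← h1]
  exact Nat.mul_le_mul a2 b2

/-- THE LOCAL INDEX: if D moves the points of E. -/
theorem ti_index2 (X : Frm F Ω) (h : X.Ok) (hm : ∃ σ ∈ X.D, X.et σ ≠ 1) :
    X.TI.relIndex X.TS ≠ 0 ∧ X.TI.relIndex X.TS ≤ X.q ^ X.b := by
  obtain ⟨a1, a2⟩ := ti_index0 X h
  rw [tf_zero X h hm] at a1 a2
  have h2 : X.TI.relIndex X.TS ∣ (X.TI ⊓ X.TS).relIndex X.TS := AddSubgroup.relIndex_dvd_of_le_left _ inf_le_left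
  exact ⟨fun h0 => a1 (Nat.eq_zero_of_zero_dvd (h0 ▸ h2)), (Nat.le_of_dvd (Nat.pos_of_ne_zero a1) h2).trans a2⟩

end H19C
end
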