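import Mathlib

/-! # SSU: the condition on the second ramification groups (definition) -/

open NumberField

namespace SSU

variable {F : Type} [Field F] [NumberField F] {Ω : Type} [Field Ω] [Algebra F Ω]

/-- The second ramification groups (lower numbering) of L/M at the primes above p are trivial: an automorphism over M which acts trivially on
the integers of L modulo the cube of a prime above p is the identity on L. -/
def G2F (p : ℕ) (M L : IntermediateField F Ω) : Prop :=
  ∀ Q : Ideal (𝓞 L), Q.IsPrime → (p : 𝓞 L) ∈ Q → ∀ s ∈ M.fixingSubgroup,
    (∀ x y : 𝓞 L, s ((x : L) : Ω) = ((y : L) : Ω) → y - x ∈ Q ^ 3) → ∀ x ∈ L, s x = x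

end SSU
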