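import Mathlib

/-! Merged copies (to shorten the build) of Lib.SSA.A1, Lib.SSN.CN, Lib.SSA.AD, Lib.SSA.A2, Lib.SSA.A3, Lib.SSR.G4A, Lib.SSR.G7, Lib.SSN.B1. -/

-- from Lib.SSA.A1
section

/-! # SSA, chunk A1 (S/M): the norm is (X - 1)^(p - 1) modulo p -/

open Polynomial

namespace SSA

/-- Chunk A1 (S/M), ONLY MATHLIB. PROOF. Both sides differ by a polynomial which is divisible by p: map to ZMod p (Polynomial.map (Int.castRingHom (ZMod p))), an integral domain of characteristic p: (X - 1) * sum X^i = X^p - 1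
(mul_geom_sum / geom_sum_mul) = (X - 1)^p (sub_pow_expChar or sub_pow_char, one_pow) = (X - 1) * (X - 1)^(p-1), cancel X - 1 (X_sub_C_ne_zero 1). A polynomial over ℤ with image 0 modulo p has all coefficients divisible by p
(ZMod.intCast_zmod_eq_zero_iff_dvd, coeff_map) so it is C p * U (Polynomial.C_dvd_iff_dvd_coeff). -/
theorem a1 {p : ℕ} (hp : p.Prime) :
    ∃ U : ℤ[X], ∑ i ∈ Finset.range p, (X : ℤ[X]) ^ i = (X - 1) ^ (p - 1) + (p : ℤ[X]) * U := by
  haveI : Fact p.Prime := ⟨hp⟩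
  have h1 : (Polynomial.map (Int.castRingHom (ZMod p))
      (∑ i ∈ Finset.range p, (X : ℤ[X]) ^ i - (X - 1) ^ (p - 1))) = 0 := by
    rw [Polynomial.map_sub, Polynomial.map_pow, Polynomial.map_sub, Polynomial.map_X, Polynomial.map_one,
      Polynomial.map_sum]
    have h2 : ∑ i ∈ Finset.range p, Polynomial.map (Int.castRingHom (ZMod p)) ((X : ℤ[X]) ^ i) =
        ∑ i ∈ Finset.range p, (X : (ZMod p)[X]) ^ i := by
      refine Finset.sum_congr rfl fun i _ => ?_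
      rw [Polynomial.map_pow, Polynomial.map_X]
    rw [h2, sub_eq_zero]
    have hX : (X - 1 : (ZMod p)[X]) ≠ 0 := by
      have := X_sub_C_ne_zero (1 : ZMod p)
      rwa [C_1] at this
    apply mul_right_cancel₀ hX
    rw [geom_sum_mul, ← pow_succ, Nat.sub_add_cancel hp.one_lt.le]
    rw [sub_pow_char, one_pow]
  have h3 : (C (p : ℤ)) ∣ (∑ i ∈ Finset.range p, (X : ℤ[X]) ^ i - (X - 1) ^ (p - 1)) := by
    rw [Polynomial.C_dvd_iff_dvd_coeff]
    intro i
    have h4 := congrArg (fun q => q.coeff i) h1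
    simp only [coeff_map, coeff_zero, eq_intCast] at h4
    exact (ZMod.intCast_zmod_eq_zero_iff_dvd _ _).1 h4
  obtain ⟨U, hU⟩ := h3
  refine ⟨U, ?_⟩
  have h5 : (C (p : ℤ) : ℤ[X]) = (p : ℤ[X]) := by
    simp
  rw [h5] at hU
  rw [← hU]
  ring

end SSA
end

-- from Lib.SSN.CN
section

/-! # SSN, chunk CN: the number of levels -/

namespace SSN

theorem cn_count {d : ℕ} (hd : 0 < d) (c n b : ℕ) : ((Finset.range (n + d * b)).filter (fun j => j ≡ c [MOD d])).card =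
    ((Finset.range n).filter (fun j => j ≡ c [MOD d])).card + b := by
  rw [← Nat.count_eq_card_filter_range, ← Nat.count_eq_card_filter_range, Nat.count_modEq_card _ hd, Nat.count_modEq_card _ hd,
    Nat.add_mul_div_left _ _ hd, Nat.add_mul_mod_self_left]
  ring

theorem cn_one {p d r R c c' : ℕ} (hp : 2 < p) (hR : R = p * r) (hc : ∀ j, j ≡ c' [MOD d] → p * j ≡ c [MOD d]) (S : Finset ℕ)
    (h : ∀ i ∈ S, i + 1 < R ∧ ¬ p ∣ i + 1 ∧ i + 1 ≡ c [MOD d]) :
    S.card + ((Finset.range r).filter (fun j => j ≡ c' [MOD d])).card ≤ ((Finset.range R).filter (fun j => j ≡ c [MOD d])).card := by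
  classical
  have e1 : (S.image (fun i => i + 1)).card = S.card := Finset.card_image_of_injective _ (add_left_injective 1)
  have e2 : (((Finset.range r).filter (fun j => j ≡ c' [MOD d])).image (fun j => p * j)).card =
      ((Finset.range r).filter (fun j => j ≡ c' [MOD d])).card :=
    Finset.card_image_of_injective _ (fun a b hab => Nat.eq_of_mul_eq_mul_left (by omega) hab)
  have hdj : Disjoint (S.image (fun i => i + 1)) (((Finset.range r).filter (fun j => j ≡ c' [MOD d])).image (fun j => p * j)) := by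
    rw [Finset.disjoint_left]
    intro x hx hx'
    obtain ⟨i, hi, rfl⟩ := Finset.mem_image.1 hx
    obtain ⟨j, -, hj⟩ := Finset.mem_image.1 hx'
    exact (h i hi).2.1 ⟨j, hj.symm⟩
  rw [← e1, ← e2, ← Finset.card_union_of_disjoint hdj]
  refine Finset.card_le_card fun x hx => ?_
  rw [Finset.mem_filter, Finset.mem_range]
  rcases Finset.mem_union.1 hx with h1 | h1
  · obtain ⟨i, hi, rfl⟩ := Finset.mem_image.1 h1
    exact ⟨(h i hi).1, (h i hi).2.2⟩
  · obtain ⟨j, hj, rfl⟩ := Finset.mem_image.1 h1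
    rw [Finset.mem_filter, Finset.mem_range] at hj
    refine ⟨?_, hc j hj.2⟩
    rw [hR]
    exact Nat.mul_lt_mul_of_pos_left hj.1 (by omega)

/-- The number of levels. -/
theorem cnt2 {p d b r e k : ℕ} (hp : 2 < p) (hd0 : 0 < d) (hd : d ∣ p ^ 2 - 1) (he : e = d * b) (hr : r * (p ^ 2 - 1) = e) (S₁ S₂ : Finset ℕ)
    (hk : k * (p - 1) < e * p) (h₁ : ∀ i ∈ S₁, i < k ∧ ¬ p ∣ i + 1 ∧ (i + 1) ≡ r [MOD d])
    (h₂ : ∀ i ∈ S₂, i < k ∧ ¬ p ∣ i + 1 ∧ (i + 1) ≡ r * p [MOD d]) : S₁.card + S₂.card ≤ 2 * b := by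
  obtain ⟨m, rfl⟩ : ∃ m, p = m + 1 := ⟨p - 1, by omega⟩
  have hsq : (m + 1) ^ 2 - 1 = m * (m + 2) := by
    have : (m + 1) ^ 2 = m * (m + 2) + 1 := by ring
    omega
  rw [hsq] at hd hr
  rw [Nat.add_sub_cancel] at hk
  have hm : 0 < m := by omega
  have hR : ∀ i, i < k → i + 1 < (m + 1) * (r * (m + 2)) := by
    intro i hi
    have h1 : (i + 1) * m ≤ k * m := Nat.mul_le_mul_right _ hi
    have h2 : (i + 1) * m < (m + 1) * (r * (m + 2)) * m := by
      refine lt_of_le_of_lt h1 (lt_of_lt_of_eq hk ?_)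
      rw [← hr]
      ring
    exact Nat.lt_of_mul_lt_mul_right h2
  have hRb : (m + 1) * (r * (m + 2)) = r * (m + 2) + d * b := by
    rw [← he, ← hr]
    ring
  have hpp : (m + 1) * (m + 1) ≡ 1 [MOD d] := by
    have h1 : (m + 1) * (m + 1) = m * (m + 2) + 1 := by ring
    rw [h1]
    have h2 : m * (m + 2) ≡ 0 [MOD d] := (Nat.modEq_zero_iff_dvd).2 hd
    exact Nat.ModEq.add_right 1 h2
  have a1 := cn_one (c := r) (c' := r * (m + 1)) (d := d) hp rfl (fun j hj => by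
    have h1 : (m + 1) * j ≡ (m + 1) * (r * (m + 1)) [MOD d] := Nat.ModEq.mul_left _ hj
    refine h1.trans ?_
    have h2 : (m + 1) * (r * (m + 1)) = r * ((m + 1) * (m + 1)) := by ring
    rw [h2]
    have h3 : r * ((m + 1) * (m + 1)) ≡ r * 1 [MOD d] := Nat.ModEq.mul_left _ hpp
    rwa [mul_one] at h3) S₁ (fun i hi => ⟨hR i (h₁ i hi).1, (h₁ i hi).2.1, (h₁ i hi).2.2⟩)
  have a2 := cn_one (c := r * (m + 1)) (c' := r) (d := d) hp rfl (fun j hj => by
    have h1 : (m + 1) * j ≡ (m + 1) * r [MOD d] := Nat.ModEq.mul_left _ hj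
    rwa [mul_comm (m + 1) r] at h1) S₂ (fun i hi => ⟨hR i (h₂ i hi).1, (h₂ i hi).2.1, (h₂ i hi).2.2⟩)
  rw [hRb, cn_count hd0] at a1 a2
  omega

end SSN
end

-- from Lib.SSA.AD
section

/-! # SSA: Selmer groups at an inert prime p in extensions with break 1 above p: definitions (no sorry)

An abelian group G with a nonarchimedean size n (values 0 and the powers of ρ) and an automorphism σ of order p which behaves like an element of a ramification group
with break 1. -/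

namespace SSA

/-- A nonarchimedean size with an automorphism of order p of break 1. -/
structure Sz {G : Type} [AddCommGroup G] (p e : ℕ) (ρ : ℝ) (n : G → ℝ) (σ : AddMonoid.End G) : Prop where
  prime : p.Prime
  three : 3 ≤ p
  rho0 : 0 < ρ
  rho1 : ρ < 1
  le_e : p ≤ e
  zero : ∀ P, n P = 0 ↔ P = 0
  neg : ∀ P, n (-P) = n P
  add : ∀ P Q, n (P + Q) ≤ max (n P) (n Q)
  lev : ∀ P, P ≠ 0 → ∃ i : ℕ, 1 ≤ i ∧ n P = ρ ^ i
  sp : σ ^ p = 1
  d1 : ∀ P, n (σ P - P) ≤ ρ * n P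
  d2 : ∀ (P : G) (i : ℕ), n P = ρ ^ i → ¬ p ∣ i → n (σ P - P) = ρ ^ (i + 1)
  d3 : ∀ (P : G) (j : ℕ), ¬ p ∣ j → n P = ρ ^ (j + 1) → ∃ Q, n (P - (σ Q - Q)) < ρ ^ (j + 1)
  mul : ∀ P, n (p • P) ≤ max (ρ ^ e * n P) (n P ^ (p ^ 2))
  tor : ∀ P, n P ≤ ρ ^ e → p • P = 0 → P = 0
  div : ∀ P, n P ≤ ρ ^ (2 * e) → ∃ Q, n Q ≤ ρ ^ e ∧ p • Q = P

/-- The norm (trace) operator. -/
def Nr {G : Type} [AddCommGroup G] (p : ℕ) (σ : AddMonoid.End G) : AddMonoid.End G := ∑ k ∈ Finset.range p, σ ^ k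

end SSA
end

-- from Lib.SSA.A2
section

/-! # SSA, chunk A2 (M): the level of the norm -/

open Polynomial

namespace SSA

variable {G : Type} [AddCommGroup G] {p e : ℕ} {ρ : ℝ} {n : G → ℝ} {σ : AddMonoid.End G}

/-- Chunk A2 (S). Elementary rules: n ≥ 0 (0 or a power of ρ: zero, lev), n (P - Q) ≤ max, and if n P < n Q then n (P + Q) = n Q and n (Q - P) = n Q (add for Q = (P + Q) - P, neg). -/
theorem a2_el (h : Sz p e ρ n σ) : (∀ P, 0 ≤ n P) ∧ (∀ P Q, n (P - Q) ≤ max (n P) (n Q)) ∧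
    (∀ P Q, n P < n Q → n (P + Q) = n Q ∧ n (Q - P) = n Q) := by
  have h0 : ∀ P, 0 ≤ n P := by
    intro P
    by_cases hP : P = 0
    · rw [(h.zero P).2 hP]
    · obtain ⟨i, -, hi⟩ := h.lev P hP
      rw [hi]
      exact pow_nonneg h.rho0.le i
  have h1 : ∀ P Q, n (P - Q) ≤ max (n P) (n Q) := by
    intro P Q
    have e := h.add P (-Q)
    rw [h.neg, ← sub_eq_add_neg] at e
    exact e
  have h2 : ∀ P Q, n P < n Q → n (P + Q) = n Q := by
    intro P Q hPQ
    refine le_antisymm ((h.add P Q).trans (max_le hPQ.le le_rfl)) ?_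
    have e := h1 (P + Q) P
    rw [add_sub_cancel_left] at e
    rcases le_max_iff.1 e with e | e
    · exact e
    · exact absurd e (not_le.2 hPQ)
  refine ⟨h0, h1, fun P Q hPQ => ⟨h2 P Q hPQ, ?_⟩⟩
  have e := h2 (-P) Q (by rw [h.neg]; exact hPQ)
  rw [neg_add_eq_sub] at e
  exact e

/-- Chunk A2 (S). σ does not increase the size: σ P = (σ P - P) + P, d1, ρ < 1. -/
theorem a2_s (h : Sz p e ρ n σ) (P : G) : n (σ P) ≤ n P := by
  have e : σ P = (σ P - P) + P := by rw [sub_add_cancel]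
  rw [e]
  refine (h.add _ _).trans (max_le ?_ le_rfl)
  exact (h.d1 P).trans (mul_le_of_le_one_left ((a2_el h).1 P) h.rho1.le)

theorem a2_int (h : Sz p e ρ n σ) (a : ℤ) (P : G) : n (a • P) ≤ n P := by
  have hnat : ∀ k : ℕ, n (k • P) ≤ n P := by
    intro k
    induction k with
    | zero =>
      rw [zero_smul, (h.zero 0).2 rfl]
      exact (a2_el h).1 P
    | succ k ih =>
      rw [succ_nsmul]
      exact (h.add _ _).trans (max_le ih le_rfl)
  rcases Int.eq_nat_or_neg a with ⟨k, rfl | rfl⟩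
  · rw [natCast_zsmul]
    exact hnat k
  · rw [neg_smul, h.neg, natCast_zsmul]
    exact hnat k

/-- Chunk A2 (S/M). Polynomials in σ do not increase the size. Polynomial.induction_on or as a finite sum (aeval_eq_sum_range): n (σ^k P) ≤ n P by induction (a2_s, pow_succ, AddMonoid.End multiplication is composition), n (a • P) ≤ n P for integers a
(naturals by induction with add, neg), a2_el. -/
theorem a2_poly (h : Sz p e ρ n σ) (U : ℤ[X]) (P : G) : n ((aeval σ U) P) ≤ n P := by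
  have key : ∀ U : ℤ[X], ∀ P, n ((aeval σ U) P) ≤ n P := by
    intro U
    induction U using Polynomial.induction_on with
    | C a =>
      intro P
      rw [aeval_C, eq_intCast, AddMonoid.End.intCast_apply]
      exact a2_int h a P
    | add f g hf hg =>
      intro P
      rw [map_add]
      exact (h.add _ _).trans (max_le (hf P) (hg P))
    | monomial k a ih =>
      intro P
      rw [pow_succ, ← mul_assoc, map_mul, aeval_X]
      exact (ih (σ P)).trans (a2_s h P)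
  exact key U P

/-- Chunk A2 (S). The powers of δ = σ - 1 on a P of level i = 1 modulo p: induction over k with d2: i + k is not divisible by p for k + 1 ≤ p - 1. (pow_succ' and AddMonoid.End.mul_apply; (σ - 1) Q = σ Q - Q by rfl or AddMonoidHom.sub_apply.) -/
theorem a2_delta (h : Sz p e ρ n σ) {P : G} {i : ℕ} (hP : n P = ρ ^ i) (hi : i % p = 1) (k : ℕ) (hk : k ≤ p - 1) :
    n (((σ - 1) ^ k) P) = ρ ^ (i + k) := by
  induction k with
  | zero =>
    rw [pow_zero, AddMonoid.End.one_apply, add_zero]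
    exact hP
  | succ k ih =>
    have ih' := ih (by omega)
    have e : ((σ - 1) ^ (k + 1)) P = σ (((σ - 1) ^ k) P) - ((σ - 1) ^ k) P := by
      rw [pow_succ']
      rfl
    rw [e, h.d2 _ (i + k) ih' ?_]
    · rfl
    · intro hd
      have hp3 := h.three
      have h1 : (i + k) % p = 0 := Nat.mod_eq_zero_of_dvd hd
      rw [Nat.add_mod, hi, Nat.mod_eq_of_lt (by omega : k < p), Nat.mod_eq_of_lt (by omega : 1 + k < p)] at h1
      omega

/-- Chunk A2 (M). THE LEVEL OF THE NORM. PROOF. a1: U. aeval σ of the identity (a ring homomorphism ℤ[X] → AddMonoid.End G): Nr p σ = (σ - 1)^(p-1) + p * aeval σ U, so Nr P = δ^(p-1) P + p • Q with Q = aeval σ U P, n Q ≤ n P = ρ^i (a2_poly). h.mul: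
n (p • Q) ≤ max (ρ^e ρ^i) ((ρ^i)^(p^2)) < ρ^(i + p - 1): e + i ≥ i + p > i + (p - 1) and i p^2 > i + p - 1 (i ≥ 1 because i % p = 1); a2_delta for k = p - 1; a2_el. -/
theorem a2 (h : Sz p e ρ n σ) {P : G} {i : ℕ} (hP : n P = ρ ^ i) (hi : i % p = 1) : n (Nr p σ P) = ρ ^ (i + (p - 1)) := by
  obtain ⟨U, hU⟩ := a1 h.prime
  have e1 : Nr p σ = (σ - 1) ^ (p - 1) + (p : AddMonoid.End G) * aeval σ U := by
    have e2 := congrArg (aeval σ) hU
    rw [map_sum, map_add, map_mul, map_pow, map_sub, map_one, aeval_X, map_natCast] at e2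
    unfold Nr
    rw [← e2]
    refine Finset.sum_congr rfl fun k _ => ?_
    rw [map_pow, aeval_X]
  have e3 : Nr p σ P = p • ((aeval σ U) P) + ((σ - 1) ^ (p - 1)) P := by
    rw [e1, add_comm]
    rfl
  have e4 := a2_delta h hP hi (p - 1) le_rfl
  rw [e3, ((a2_el h).2.2 _ _ ?_).1, e4]
  rw [e4]
  have hp3 := h.three
  have hi1 : 1 ≤ i := by
    by_contra hcon
    have : i = 0 := by omega
    rw [this, Nat.zero_mod] at hi
    omega
  have hQ : n ((aeval σ U) P) ≤ ρ ^ i := (a2_poly h U P).trans hP.le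
  have hQ0 := (a2_el h).1 ((aeval σ U) P)
  refine (h.mul _).trans_lt (max_lt ?_ ?_)
  · calc ρ ^ e * n ((aeval σ U) P) ≤ ρ ^ e * ρ ^ i := mul_le_mul_of_nonneg_left hQ (pow_nonneg h.rho0.le e)
      _ = ρ ^ (e + i) := (pow_add _ _ _).symm
      _ < ρ ^ (i + (p - 1)) := pow_lt_pow_right_of_lt_one₀ h.rho0 h.rho1 (by have := h.le_e; omega)
  · calc n ((aeval σ U) P) ^ (p ^ 2) ≤ (ρ ^ i) ^ (p ^ 2) := pow_le_pow_left₀ hQ0 hQ _
      _ = ρ ^ (i * p ^ 2) := (pow_mul _ _ _).symm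
      _ < ρ ^ (i + (p - 1)) := by
        refine pow_lt_pow_right_of_lt_one₀ h.rho0 h.rho1 ?_
        have h6 : p + 1 ≤ p ^ 2 := by nlinarith
        have h7 : i * (p + 1) ≤ i * p ^ 2 := Nat.mul_le_mul_left i h6
        have h8 : p ≤ i * p := Nat.le_mul_of_pos_left p hi1
        have h9 : i * (p + 1) = i * p + i := by ring
        have h5 : i + p ≤ i * p ^ 2 := by omega
        omega

end SSA
end

-- from Lib.SSA.A3
section

/-! # SSA, chunk A3 (M): elements of norm zero are in the image of σ - 1 -/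

open Polynomial

namespace SSA

variable {G : Type} [AddCommGroup G] {p e : ℕ} {ρ : ℝ} {n : G → ℝ} {σ : AddMonoid.End G}

/-- Chunk A3 (S). The norm kills the image of σ - 1: Nr (σ Q - Q) = σ^p Q - Q = 0 (telescoping: Finset.sum_range_sub or geom_sum_mul in the ring AddMonoid.End G applied to Q; h.sp). -/
theorem a3_nr (h : Sz p e ρ n σ) (Q : G) : Nr p σ (σ Q - Q) = 0 := by
  have h1 : ∀ Q : G, Nr p σ Q = ∑ k ∈ Finset.range p, (σ ^ k) Q := by
    intro Q
    unfold Nr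
    exact AddMonoidHom.finsetSum_apply _ _ _
  have h2 : ∀ k : ℕ, (σ ^ k) (σ Q - Q) = (σ ^ (k + 1)) Q - (σ ^ k) Q := by
    intro k
    rw [map_sub, pow_succ]
    rfl
  rw [h1, Finset.sum_congr rfl fun k _ => h2 k, Finset.sum_range_sub (fun k => (σ ^ k) Q), h.sp, pow_zero]
  exact sub_self _

/-- Chunk A3 (M). Approximation. PROOF. Induction over m ≥ 1. m = 1: Q = 0 (n P ≤ ρ: P = 0 or lev). Step: R = P - (σ Q - Q), n R ≤ ρ^m, Nr R = 0 (map_sub, a3_nr). If n R < ρ^m then n R ≤ ρ^(m+1) (zero or lev: ρ^i < ρ^m gives i ≥ m + 1): same Q.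
If n R = ρ^m: if m % p = 1 then a2 gives n (Nr R) = ρ^(m + p - 1) ≠ 0 = n 0: contradiction. Otherwise p does not divide m - 1 (m ≥ 2 because 1 % p = 1), d3 with j = m - 1 gives Q' with n (R - (σ Q' - Q')) < ρ^m; take Q + Q' (map_add). -/
theorem a3_approx (h : Sz p e ρ n σ) {P : G} (hP : Nr p σ P = 0) (m : ℕ) (hm : 1 ≤ m) : ∃ Q, n (P - (σ Q - Q)) ≤ ρ ^ m := by
  induction m, hm using Nat.le_induction with
  | base =>
    refine ⟨0, ?_⟩
    rw [map_zero, sub_zero, sub_zero, pow_one]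
    by_cases hP0 : P = 0
    · rw [(h.zero P).2 hP0]
      exact h.rho0.le
    · obtain ⟨i, hi, hi'⟩ := h.lev P hP0
      rw [hi']
      calc ρ ^ i ≤ ρ ^ 1 := pow_le_pow_of_le_one h.rho0.le h.rho1.le hi
        _ = ρ := pow_one ρ
  | succ m hm ih =>
    obtain ⟨Q, hQ⟩ := ih
    set R := P - (σ Q - Q) with hR
    have hNR : Nr p σ R = 0 := by
      rw [hR, map_sub, hP, a3_nr h, sub_zero]
    by_cases hR0 : R = 0
    · refine ⟨Q, ?_⟩
      rw [← hR, hR0, (h.zero 0).2 rfl]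
      exact pow_nonneg h.rho0.le _
    obtain ⟨i, hi, hi'⟩ := h.lev R hR0
    by_cases him : m + 1 ≤ i
    · refine ⟨Q, ?_⟩
      rw [← hR, hi']
      exact pow_le_pow_of_le_one h.rho0.le h.rho1.le him
    have hmi : m ≤ i := by
      by_contra hlt
      have h1 : ρ ^ m < ρ ^ i := pow_lt_pow_right_of_lt_one₀ h.rho0 h.rho1 (by omega)
      rw [hi'] at hQ
      exact absurd hQ (not_le.2 h1)
    have hie : i = m := by omega
    subst hie
    have hp3 := h.three
    by_cases hmod : i % p = 1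
    · have h1 := a2 h hi' hmod
      rw [hNR, (h.zero 0).2 rfl] at h1
      exact absurd h1.symm (pow_pos h.rho0 _).ne'
    · have hi2 : 2 ≤ i := by
        by_contra hlt
        have h1 : i = 1 := by omega
        rw [h1, Nat.mod_eq_of_lt (by omega)] at hmod
        exact hmod rfl
      obtain ⟨j, rfl⟩ : ∃ j, i = j + 1 := ⟨i - 1, by omega⟩
      have hj : ¬ p ∣ j := by
        intro hd
        apply hmod
        obtain ⟨c, rfl⟩ := hd
        rw [Nat.mul_add_mod, Nat.mod_eq_of_lt (by omega)]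
      obtain ⟨Q', hQ'⟩ := h.d3 R j hj hi'
      refine ⟨Q + Q', ?_⟩
      have e1 : P - (σ (Q + Q') - (Q + Q')) = R - (σ Q' - Q') := by
        rw [hR, map_add]
        abel
      rw [e1]
      by_cases h0 : R - (σ Q' - Q') = 0
      · rw [h0, (h.zero 0).2 rfl]
        exact pow_nonneg h.rho0.le _
      · obtain ⟨l, hl, hl'⟩ := h.lev _ h0
        rw [hl'] at hQ' ⊢
        have h2 : j + 1 < l := by
          by_contra hlt
          have h3 : ρ ^ (j + 1) ≤ ρ ^ l := pow_le_pow_of_le_one h.rho0.le h.rho1.le (by omega)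
          exact absurd hQ' (not_lt.2 h3)
        exact pow_le_pow_of_le_one h.rho0.le h.rho1.le h2

/-- Chunk A3 (M). THE THEOREM. PROOF. a3_approx for m = 2 e: R = P - (σ Q - Q), n R ≤ ρ^(2e), Nr R = 0. h.div: R = p • R', n R' ≤ ρ^e. Nr R' is killed by p (map_nsmul) and n (Nr R') ≤ n R' ≤ ρ^e (a2_poly for the polynomial sum X^i, or a2_s and add): Nr R' = 0 by h.tor.
So R = p • R' - Nr R' = sum_(k<p) (R' - σ^k R') = σ T - T with T = - sum_(k < p) sum_(l < k) σ^l R' (σ^k R' - R' = σ T_k - T_k, T_k = sum_(l<k) σ^l R': telescoping, as in a3_nr). P = σ (Q + T) - (Q + T). -/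
theorem a3 (h : Sz p e ρ n σ) {P : G} (hP : Nr p σ P = 0) : ∃ Q, P = σ Q - Q := by
  have he : 1 ≤ e := by
    have := h.le_e
    have := h.three
    omega
  obtain ⟨Q, hQ⟩ := a3_approx h hP (2 * e) (by omega)
  set R := P - (σ Q - Q) with hR
  have hNR : Nr p σ R = 0 := by
    rw [hR, map_sub, hP, a3_nr h, sub_zero]
  obtain ⟨R', hR', hpR⟩ := h.div R hQ
  have hNapp : ∀ Q : G, Nr p σ Q = ∑ k ∈ Finset.range p, (σ ^ k) Q := by
    intro Q
    unfold Nr
    exact AddMonoidHom.finsetSum_apply _ _ _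
  have hpow : ∀ (k : ℕ) (Q : G), n ((σ ^ k) Q) ≤ n Q := by
    intro k
    induction k with
    | zero => intro Q; exact le_rfl
    | succ k ih =>
      intro Q
      have h1 : (σ ^ (k + 1)) Q = (σ ^ k) (σ Q) := by
        rw [pow_succ]
        rfl
      rw [h1]
      exact (ih _).trans (a2_s h Q)
  have hsum : ∀ s : Finset ℕ, n (∑ k ∈ s, (σ ^ k) R') ≤ n R' := by
    intro s
    induction s using Finset.induction_on with
    | empty =>
      rw [Finset.sum_empty, (h.zero 0).2 rfl]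
      exact (a2_el h).1 R'
    | insert k s hk ih =>
      rw [Finset.sum_insert hk]
      exact (h.add _ _).trans (max_le (hpow k R') ih)
  have hN' : Nr p σ R' = 0 := by
    refine h.tor _ ?_ ?_
    · rw [hNapp]
      exact (hsum _).trans hR'
    · rw [← map_nsmul, hpR, hNR]
  -- R = σ T - T
  have htel : ∀ k : ℕ, σ (∑ l ∈ Finset.range k, (σ ^ l) R') - ∑ l ∈ Finset.range k, (σ ^ l) R' = (σ ^ k) R' - R' := by
    intro k
    have h2 : ∀ l : ℕ, σ ((σ ^ l) R') = (σ ^ (l + 1)) R' := by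
      intro l
      rw [pow_succ']
      rfl
    rw [map_sum, Finset.sum_congr rfl fun l _ => h2 l, ← Finset.sum_sub_distrib,
      Finset.sum_range_sub (fun l => (σ ^ l) R'), pow_zero]
    rfl
  set T : G := -∑ k ∈ Finset.range p, ∑ l ∈ Finset.range k, (σ ^ l) R' with hT
  have hRT : R = σ T - T := by
    have h3 : σ T - T = -∑ k ∈ Finset.range p, ((σ ^ k) R' - R') := by
      rw [hT, map_neg, map_sum]
      rw [← Finset.sum_congr rfl fun k _ => htel k, Finset.sum_sub_distrib]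
      abel
    rw [h3, Finset.sum_sub_distrib, ← hNapp, hN', Finset.sum_const, Finset.card_range, hpR]
    abel
  refine ⟨Q + T, ?_⟩
  have h4 : P = R + (σ Q - Q) := by
    rw [hR]
    abel
  rw [h4, hRT, map_add]
  abel

end SSA
end

-- from Lib.SSR.G4A
section

namespace SSR

variable {C : Type} [NormedField C] [IsUltrametricDist C] {p : ℕ}

/-! Chunk G4A (M). ONLY MATHLIB. PROOF. Natural numbers and integers have norm ≤ 1 (ultrametric), n prime to p has norm 1 (Bezout: a n + b p = 1 and ‖p‖ < 1). g4_root: (1 + π)^p = 1 gives π^p = - sum over 1 ≤ i < p of C(p,i) π^i, all binomials divisible by p; ‖π‖ ≤ 1 (‖ζ‖ = 1); if π ≠ 0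
divide by π: π^(p-1) = -p (integral): norm ≤ ‖p‖. g4_close: M = z + z^p, ‖z‖ ≤ 1 (z = 0 or z^(p^2-1) = 1). M^p = z^p + z^(p^2) + p (integral) = M + p (integral) (add_pow, p divides the middle binomials: use exists_add_pow_prime_eq or sub_pow..). So ‖M^p - M‖ ≤ ‖p‖. Also
‖m^p - m‖ ≤ ‖p‖ (p divides m^p - m: Int.ModEq.pow_card_sub.. / ZMod.pow_card). With δ = M - m, ‖δ‖ < 1: M^p - M = (m + δ)^p - m - δ = (m^p - m) + δ^p + p (integral) δ - δ, so δ - δ^p = (norm ≤ ‖p‖), ‖δ - δ^p‖ = ‖δ‖ because ‖δ^p‖ < ‖δ‖ (δ ≠ 0, p ≥ 2). Hence ‖δ‖ ≤ ‖p‖.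
g4_exp: with π = ζ - 1: ζ^m = sum_(i ≤ m) C(m,i) π^i. For i ≥ p the term has norm ≤ ‖π‖^p ≤ ‖π‖^(p-1) ≤ ‖p‖ (g4_root). For i < p: C(m,i) = (prod over l < i of (m - l)) / i! (Nat.descFactorial_eq_factorial_mul_choose, Nat.descFactorial as a product cast: for l ≤ m; for i > m both sides are 0,
so extend the sum to i < p), ‖i!‖ = 1, and the product with M in place of m differs by norm ≤ ‖p‖ (telescoping: all factors have norm ≤ 1, the factors differ by M - m). -/

/-- the binomial formula for a prime exponent with an integral remainder -/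
theorem g4a_pow (hp : p.Prime) (x y : C) (hx : ‖x‖ ≤ 1) (hy : ‖y‖ ≤ 1) :
    ∃ r : C, ‖r‖ ≤ 1 ∧ (x + y) ^ p = x ^ p + y ^ p + (p : C) * x * y * r := by
  refine ⟨_, ?_, add_pow_prime_eq hp x y⟩
  refine IsUltrametricDist.norm_sum_le_of_forall_le_of_nonneg zero_le_one fun k _ => ?_
  rw [norm_mul, norm_mul, norm_pow, norm_pow]
  exact mul_le_one₀ (mul_le_one₀ (pow_le_one₀ (norm_nonneg _) hx) (by positivity) (pow_le_one₀ (norm_nonneg _) hy))
    (norm_nonneg _) (IsUltrametricDist.norm_natCast_le_one C _)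

theorem g4a_nat {n : ℕ} (hlt : ‖(p : C)‖ < 1) (h : Nat.Coprime n p) : ‖(n : C)‖ = 1 := by
  refine le_antisymm (IsUltrametricDist.norm_natCast_le_one C n) ?_
  have h1 : ((n : ℤ)) * Nat.gcdA n p + (p : ℤ) * Nat.gcdB n p = 1 := by
    rw [← Nat.gcd_eq_gcd_ab, h]
    rfl
  have h2 : (n : C) * ((Nat.gcdA n p : ℤ) : C) + (p : C) * ((Nat.gcdB n p : ℤ) : C) = 1 := by
    have h3 := congrArg (fun z : ℤ => (z : C)) h1
    push_cast at h3
    exact h3
  by_contra hcon
  rw [not_le] at hcon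
  have h4 : ‖(n : C) * ((Nat.gcdA n p : ℤ) : C)‖ < 1 := by
    rw [norm_mul]
    calc _ ≤ ‖(n : C)‖ * 1 := mul_le_mul_of_nonneg_left (IsUltrametricDist.norm_intCast_le_one C _) (norm_nonneg _)
      _ < 1 := by rwa [mul_one]
  have h5 : ‖(p : C) * ((Nat.gcdB n p : ℤ) : C)‖ < 1 := by
    rw [norm_mul]
    calc _ ≤ ‖(p : C)‖ * 1 := mul_le_mul_of_nonneg_left (IsUltrametricDist.norm_intCast_le_one C _) (norm_nonneg _)
      _ < 1 := by rwa [mul_one]
  have h6 : ‖(1 : C)‖ < 1 := by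
    rw [← h2]
    exact (IsUltrametricDist.norm_add_le_max _ _).trans_lt (max_lt h4 h5)
  rw [norm_one] at h6
  exact lt_irrefl _ h6

theorem g4a_sub (a b : C) {r : ℝ} (ha : ‖a‖ ≤ r) (hb : ‖b‖ ≤ r) : ‖a - b‖ ≤ r := by
  rw [sub_eq_add_neg]
  refine (IsUltrametricDist.norm_add_le_max _ _).trans (max_le ha ?_)
  rwa [norm_neg]

theorem g4a_add (a b : C) {r : ℝ} (ha : ‖a‖ ≤ r) (hb : ‖b‖ ≤ r) : ‖a + b‖ ≤ r :=
  (IsUltrametricDist.norm_add_le_max _ _).trans (max_le ha hb)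

theorem g4a_pi (hp : p.Prime) {ζ : C} (hζ : ζ ^ p = 1) : ‖ζ - 1‖ ≤ 1 :=
  g4a_sub _ _ ((pow_eq_one_iff_of_nonneg (norm_nonneg _) hp.ne_zero).1 (by rw [← norm_pow, hζ, norm_one])).le norm_one.le

theorem g4_root (hp : p.Prime) (hlt : ‖(p : C)‖ < 1) {ζ : C} (hζ : ζ ^ p = 1) : ‖ζ - 1‖ ^ (p - 1) ≤ ‖(p : C)‖ := by
  by_cases h0 : ζ - 1 = 0
  · rw [h0, norm_zero, zero_pow (by have := hp.two_le; omega)]
    exact norm_nonneg _
  have h1 := g4a_pi hp hζ
  obtain ⟨r, hr, h2⟩ := g4a_pow hp (ζ - 1) 1 h1 norm_one.le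
  rw [sub_add_cancel, hζ, one_pow, mul_one] at h2
  have h3 : (ζ - 1) ^ (p - 1) * (ζ - 1) = -((p : C) * r) * (ζ - 1) := by
    rw [← pow_succ, Nat.sub_add_cancel hp.one_le]
    linear_combination -h2
  have h4 := mul_right_cancel₀ h0 h3
  rw [← norm_pow, h4, norm_neg, norm_mul]
  exact mul_le_of_le_one_right (norm_nonneg _) hr

theorem g4_close (hp : p.Prime) (hlt : ‖(p : C)‖ < 1) {z : C} (hz : z ^ (p ^ 2) = z) {m : ℤ} (h : ‖z + z ^ p - (m : C)‖ < 1) :
    ‖z + z ^ p - (m : C)‖ ≤ ‖(p : C)‖ := by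
  have hp2 := hp.two_le
  have hz1 : ‖z‖ ≤ 1 := by
    by_contra hcon
    rw [not_le] at hcon
    have h1 : ‖z‖ ^ (p ^ 2) = ‖z‖ := by rw [← norm_pow, hz]
    have h2 : ‖z‖ ^ 1 < ‖z‖ ^ (p ^ 2) := pow_lt_pow_right₀ hcon (by nlinarith)
    rw [h1, pow_one] at h2
    exact lt_irrefl _ h2
  have hzp : ‖z ^ p‖ ≤ 1 := by
    rw [norm_pow]
    exact pow_le_one₀ (norm_nonneg _) hz1
  obtain ⟨r1, hr1, e1⟩ := g4a_pow hp z (z ^ p) hz1 hzp
  rw [← pow_mul, ← pow_two p, hz] at e1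
  obtain ⟨δ, hδ⟩ : ∃ δ : C, δ = z + z ^ p - (m : C) := ⟨_, rfl⟩
  rw [← hδ] at h ⊢
  have hm1 : ‖(m : C)‖ ≤ 1 := IsUltrametricDist.norm_intCast_le_one C m
  obtain ⟨r2, hr2, e2⟩ := g4a_pow hp (m : C) δ hm1 h.le
  have e3 : (m : C) + δ = z + z ^ p := by rw [hδ]; ring
  rw [e3, e1] at e2
  have e4 : (p : ℤ) ∣ m ^ p - m := by
    have := Fact.mk hp
    apply (ZMod.intCast_zmod_eq_zero_iff_dvd _ p).1
    push_cast
    rw [ZMod.pow_card, sub_self]
  obtain ⟨k, hk⟩ := e4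
  have e5 : (m : C) ^ p - m = (p : C) * (k : C) := by
    have h3 := congrArg (fun z : ℤ => (z : C)) hk
    push_cast at h3
    exact h3
  have e6 : δ - δ ^ p = (p : C) * (k - z * z ^ p * r1 + m * δ * r2) := by
    linear_combination hδ + e2 + e5
  have e7 : ‖(k : C) - z * z ^ p * r1 + m * δ * r2‖ ≤ 1 := by
    refine g4a_add _ _ (g4a_sub _ _ (IsUltrametricDist.norm_intCast_le_one C k) ?_) ?_
    · rw [norm_mul, norm_mul]
      exact mul_le_one₀ (mul_le_one₀ hz1 (norm_nonneg _) hzp) (norm_nonneg _) hr1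
    · rw [norm_mul, norm_mul]
      exact mul_le_one₀ (mul_le_one₀ hm1 (norm_nonneg _) h.le) (norm_nonneg _) hr2
  have e8 : ‖δ - δ ^ p‖ ≤ ‖(p : C)‖ := by
    rw [e6, norm_mul]
    exact mul_le_of_le_one_right (norm_nonneg _) e7
  by_cases hd : δ = 0
  · rw [hd, norm_zero]; exact norm_nonneg _
  have hd0 : 0 < ‖δ‖ := norm_pos_iff.2 hd
  have e9 : ‖δ ^ p‖ < ‖δ‖ := by
    rw [norm_pow]
    calc ‖δ‖ ^ p < ‖δ‖ ^ 1 := pow_lt_pow_right_of_lt_one₀ hd0 h (by omega)
      _ = ‖δ‖ := pow_one _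
  have e10 : ‖δ‖ ≤ max ‖δ - δ ^ p‖ ‖δ ^ p‖ := by
    calc ‖δ‖ = ‖(δ - δ ^ p) + δ ^ p‖ := by rw [sub_add_cancel]
      _ ≤ _ := IsUltrametricDist.norm_add_le_max _ _
  rcases le_max_iff.1 e10 with h6 | h6
  · exact h6.trans e8
  · exact absurd h6 (not_le.2 e9)

theorem g4_fac (hp : p.Prime) (hlt : ‖(p : C)‖ < 1) {i : ℕ} (hi : i < p) : ‖((i.factorial : ℕ) : C)‖ = 1 := by
  refine g4a_nat hlt (Nat.Coprime.symm ((Nat.Prime.coprime_iff_not_dvd hp).2 ?_))
  rw [hp.dvd_factorial]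
  omega

theorem g4a_prod {M : C} {m : ℕ} (h1 : ‖M - (m : C)‖ ≤ 1) (i : ℕ) : ‖∏ l ∈ Finset.range i, ((m : C) - (l : C))‖ ≤ 1 ∧
    ‖∏ l ∈ Finset.range i, (M - (l : C)) - ∏ l ∈ Finset.range i, ((m : C) - (l : C))‖ ≤ ‖M - (m : C)‖ := by
  have hm : ∀ l : ℕ, ‖(m : C) - (l : C)‖ ≤ 1 := fun l =>
    g4a_sub _ _ (IsUltrametricDist.norm_natCast_le_one C m) (IsUltrametricDist.norm_natCast_le_one C l)
  have hM : ∀ l : ℕ, ‖M - (l : C)‖ ≤ 1 := fun l => by
    have e : M - (l : C) = (M - m) + (m - l) := by ring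
    rw [e]
    exact g4a_add _ _ h1 (hm l)
  induction i with
  | zero => simp
  | succ i ih =>
    rw [Finset.prod_range_succ, Finset.prod_range_succ]
    constructor
    · rw [norm_mul]
      exact mul_le_one₀ ih.1 (norm_nonneg _) (hm i)
    · have e : (∏ l ∈ Finset.range i, (M - (l : C))) * (M - (i : C)) - (∏ l ∈ Finset.range i, ((m : C) - (l : C))) * ((m : C) - (i : C)) =
          (∏ l ∈ Finset.range i, (M - (l : C)) - ∏ l ∈ Finset.range i, ((m : C) - (l : C))) * (M - (i : C)) +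
          (∏ l ∈ Finset.range i, ((m : C) - (l : C))) * (M - m) := by ring
      rw [e]
      refine g4a_add _ _ ?_ ?_
      · rw [norm_mul]
        exact (mul_le_of_le_one_right (norm_nonneg _) (hM i)).trans ih.2
      · rw [norm_mul]
        exact mul_le_of_le_one_left (norm_nonneg _) ih.1

theorem g4a_choose (hp : p.Prime) (hlt : ‖(p : C)‖ < 1) {i : ℕ} (hi : i < p) (m : ℕ) :
    ((m.choose i : ℕ) : C) = (∏ l ∈ Finset.range i, ((m : C) - (l : C))) / ((i.factorial : ℕ) : C) := by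
  have h0 : ((i.factorial : ℕ) : C) ≠ 0 := by
    intro h
    have := g4_fac (C := C) hp hlt hi
    rw [h, norm_zero] at this
    exact zero_ne_one this
  rw [eq_div_iff h0]
  have h1 : ((m.descFactorial i : ℕ) : C) = ∏ l ∈ Finset.range i, ((m : C) - (l : C)) := by
    rw [← descPochhammer_eval_eq_descFactorial, descPochhammer_eval_eq_prod_range]
  rw [← h1, Nat.descFactorial_eq_factorial_mul_choose]
  push_cast
  ring

theorem g4a_binom (ζ : C) (m p : ℕ) : ζ ^ m = (∑ i ∈ Finset.range p, ((m.choose i : ℕ) : C) * (ζ - 1) ^ i) +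
    ∑ i ∈ Finset.range (m + 1), ((m.choose (p + i) : ℕ) : C) * (ζ - 1) ^ (p + i) := by
  rw [← Finset.sum_range_add, add_comm p (m + 1), Finset.sum_range_add]
  have h1 : ∑ x ∈ Finset.range p, ((m.choose (m + 1 + x) : ℕ) : C) * (ζ - 1) ^ (m + 1 + x) = 0 := by
    refine Finset.sum_eq_zero fun x _ => ?_
    rw [Nat.choose_eq_zero_of_lt (by omega), Nat.cast_zero, zero_mul]
  rw [h1, add_zero]
  have h2 := add_pow (ζ - 1) (1 : C) m
  rw [sub_add_cancel] at h2
  rw [h2]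
  refine Finset.sum_congr rfl fun x _ => ?_
  rw [one_pow, mul_one, mul_comm]

theorem g4_exp (hp : p.Prime) (hlt : ‖(p : C)‖ < 1) {ζ : C} (hζ : ζ ^ p = 1) {M : C} {m : ℕ} (h : ‖M - (m : C)‖ ≤ ‖(p : C)‖) :
    ‖ζ ^ m - ∑ i ∈ Finset.range p, (∏ l ∈ Finset.range i, (M - (l : C))) / ((i.factorial : ℕ) : C) * (ζ - 1) ^ i‖ ≤ ‖(p : C)‖ := by
  have hπ := g4a_pi hp hζ
  have hroot := g4_root hp hlt hζ
  have e : ζ ^ m - ∑ i ∈ Finset.range p, (∏ l ∈ Finset.range i, (M - (l : C))) / ((i.factorial : ℕ) : C) * (ζ - 1) ^ i =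
      (∑ i ∈ Finset.range (m + 1), ((m.choose (p + i) : ℕ) : C) * (ζ - 1) ^ (p + i)) -
      ∑ i ∈ Finset.range p, (∏ l ∈ Finset.range i, (M - (l : C)) - ∏ l ∈ Finset.range i, ((m : C) - (l : C))) /
        ((i.factorial : ℕ) : C) * (ζ - 1) ^ i := by
    have h1 : ∑ i ∈ Finset.range p, (∏ l ∈ Finset.range i, (M - (l : C)) - ∏ l ∈ Finset.range i, ((m : C) - (l : C))) /
        ((i.factorial : ℕ) : C) * (ζ - 1) ^ i =
        ∑ i ∈ Finset.range p, (∏ l ∈ Finset.range i, (M - (l : C))) / ((i.factorial : ℕ) : C) * (ζ - 1) ^ i -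
        ∑ i ∈ Finset.range p, ((m.choose i : ℕ) : C) * (ζ - 1) ^ i := by
      rw [← Finset.sum_sub_distrib]
      refine Finset.sum_congr rfl fun i hi => ?_
      rw [g4a_choose hp hlt (Finset.mem_range.1 hi) m]
      ring
    rw [h1, g4a_binom ζ m p]
    ring
  rw [e]
  refine g4a_sub _ _ ?_ ?_
  · refine IsUltrametricDist.norm_sum_le_of_forall_le_of_nonneg (norm_nonneg _) fun i _ => ?_
    rw [norm_mul, norm_pow]
    calc ‖((m.choose (p + i) : ℕ) : C)‖ * ‖ζ - 1‖ ^ (p + i) ≤ ‖ζ - 1‖ ^ (p + i) :=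
          mul_le_of_le_one_left (by positivity) (IsUltrametricDist.norm_natCast_le_one C _)
      _ ≤ ‖ζ - 1‖ ^ (p - 1) := pow_le_pow_of_le_one (norm_nonneg _) hπ (by omega)
      _ ≤ _ := hroot
  · refine IsUltrametricDist.norm_sum_le_of_forall_le_of_nonneg (norm_nonneg _) fun i hi => ?_
    rw [norm_mul, norm_div, norm_pow, g4_fac hp hlt (Finset.mem_range.1 hi), div_one]
    calc _ ≤ ‖∏ l ∈ Finset.range i, (M - (l : C)) - ∏ l ∈ Finset.range i, ((m : C) - (l : C))‖ :=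
          mul_le_of_le_one_right (norm_nonneg _) (pow_le_one₀ (norm_nonneg _) hπ)
      _ ≤ ‖M - (m : C)‖ := (g4a_prod (h.trans hlt.le) i).2
      _ ≤ _ := h

end SSR
end

-- from Lib.SSR.G7
section

namespace SSR

variable {C : Type} [NormedField C] [IsUltrametricDist C]

/-- The one-dimensional estimates: r bounds the sums of ψ Y^j and of Y^j, and the difference is smaller than r. -/
structure CG {A : Type} (T : Finset A) (ψ Y : A → C) (r : ℝ) : Prop where
  pos : 0 < r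
  le : ∀ j : ℕ, ‖∑ b ∈ T, ψ b * Y b ^ j‖ ≤ r
  le1 : ∀ j : ℕ, ‖∑ b ∈ T, Y b ^ j‖ ≤ r
  lt : ∀ j : ℕ, ‖∑ b ∈ T, ψ b * Y b ^ j - ∑ b ∈ T, Y b ^ j‖ < r

/-! Chunk G7 (M). ONLY MATHLIB. PROOF. g7_prod: for a monomial prod_k y_k^(m k): the sum over Fintype.piFinset T of prod_k (ψ k (b k)) * prod_k (Y k (b k))^(m k) is prod_k (sum over T k of ψ Y^(m k)) (Finset.prod_univ_sum, Finset.sum_prod_piFinset): norm ≤ prod r. Difference of two products of
numbers x_k, y_k with ‖x_k‖, ‖y_k‖ ≤ r_k, ‖x_k - y_k‖ < r_k, r_k > 0: ‖prod x - prod y‖ < prod r if the index set is nonempty, and it is 0 < prod r = 1 if it is empty: so always < (Finset induction: x a - y b = (x - y) a + y (a - b), norms < r_k R; note strict < also needs R > 0). General Q: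
MvPolynomial.eval_eq' (finite sum over the support of coeff * prod): ultrametric finite sums (‖sum‖ ≤ max), strictness by finiteness (support empty: 0 < prod r).
g7_par: variables ι ⊕ κ: evaluate at Sum.elim (Y (b)) y, ‖y k‖ < 1. Difference with y = 0: monomials m with m (inr k) = 0 for all k: the same values up to g7_prod; with some m (inr k) > 0: the value at y = 0 is 0, and the sum for y is (coefficient) * (prod_k y_k^(m (inr k))) * prod (sums): norm ≤ ρ prod r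
< prod r with ρ = ‖y k‖ < 1. -/

/-- strict ultrametric bound for a finite sum -/
theorem g7a_lt {α : Type*} (s : Finset α) (f : α → C) (R : ℝ) (hR : 0 < R) (h : ∀ i ∈ s, ‖f i‖ < R) : ‖∑ i ∈ s, f i‖ < R := by
  classical
  induction s using Finset.induction_on with
  | empty => simpa using hR
  | insert a s ha ih =>
    rw [Finset.sum_insert ha]
    exact (IsUltrametricDist.norm_add_le_max _ _).trans_lt
      (max_lt (h a (Finset.mem_insert_self a s)) (ih fun i hi => h i (Finset.mem_insert_of_mem hi)))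

theorem g7a_diff {α : Type*} (s : Finset α) (x y : α → C) (r : α → ℝ) (hr : ∀ k, 0 < r k) (hx : ∀ k, ‖x k‖ ≤ r k) (hy : ∀ k, ‖y k‖ ≤ r k)
    (hxy : ∀ k, ‖x k - y k‖ < r k) : ‖∏ k ∈ s, x k - ∏ k ∈ s, y k‖ < ∏ k ∈ s, r k := by
  classical
  induction s using Finset.induction_on with
  | empty => simp
  | insert a s ha ih =>
    rw [Finset.prod_insert ha, Finset.prod_insert ha, Finset.prod_insert ha]
    have hR : 0 < ∏ k ∈ s, r k := Finset.prod_pos fun k _ => hr k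
    have e : x a * ∏ k ∈ s, x k - y a * ∏ k ∈ s, y k = (x a - y a) * ∏ k ∈ s, x k + y a * (∏ k ∈ s, x k - ∏ k ∈ s, y k) := by ring
    have h1 : ‖∏ k ∈ s, x k‖ ≤ ∏ k ∈ s, r k := by
      rw [norm_prod]
      exact Finset.prod_le_prod (fun k _ => norm_nonneg _) fun k _ => hx k
    rw [e]
    refine (IsUltrametricDist.norm_add_le_max _ _).trans_lt (max_lt ?_ ?_)
    · rw [norm_mul]
      calc ‖x a - y a‖ * ‖∏ k ∈ s, x k‖ ≤ ‖x a - y a‖ * ∏ k ∈ s, r k := mul_le_mul_of_nonneg_left h1 (norm_nonneg _)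
        _ < r a * ∏ k ∈ s, r k := mul_lt_mul_of_pos_right (hxy a) hR
    · rw [norm_mul]
      calc ‖y a‖ * ‖∏ k ∈ s, x k - ∏ k ∈ s, y k‖ ≤ r a * ‖∏ k ∈ s, x k - ∏ k ∈ s, y k‖ := mul_le_mul_of_nonneg_right (hy a) (norm_nonneg _)
        _ < r a * ∏ k ∈ s, r k := mul_lt_mul_of_pos_left ih (hr a)

theorem g7a_exp {A ι κ : Type} [Fintype ι] [DecidableEq ι] [Fintype κ] (T : ι → Finset A) (ψ Y : ι → A → C) (Q : MvPolynomial (ι ⊕ κ) C) (y : κ → C) :
    ∑ b ∈ Fintype.piFinset T, (∏ k, ψ k (b k)) * MvPolynomial.eval (Sum.elim (fun k => Y k (b k)) y) Q =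
      ∑ d ∈ Q.support, Q.coeff d * ((∏ k : κ, y k ^ (d (Sum.inr k))) * ∏ k : ι, ∑ b ∈ T k, ψ k b * Y k b ^ (d (Sum.inl k))) := by
  have h1 : ∀ b : ι → A, (∏ k, ψ k (b k)) * MvPolynomial.eval (Sum.elim (fun k => Y k (b k)) y) Q =
      ∑ d ∈ Q.support, Q.coeff d * ((∏ k : κ, y k ^ (d (Sum.inr k))) * ∏ k : ι, (ψ k (b k) * Y k (b k) ^ (d (Sum.inl k)))) := by
    intro b
    rw [MvPolynomial.eval_eq', Finset.mul_sum]
    refine Finset.sum_congr rfl fun d _ => ?_
    rw [Fintype.prod_sum_type, Finset.prod_mul_distrib]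
    simp only [Sum.elim_inl, Sum.elim_inr]
    ring
  rw [Finset.sum_congr rfl fun b _ => h1 b, Finset.sum_comm]
  refine Finset.sum_congr rfl fun d _ => ?_
  rw [← Finset.mul_sum, ← Finset.mul_sum, Finset.prod_univ_sum]

theorem g7a_exp1 {A ι κ : Type} [Fintype ι] [DecidableEq ι] [Fintype κ] (T : ι → Finset A) (Y : ι → A → C) (Q : MvPolynomial (ι ⊕ κ) C) (y : κ → C) :
    ∑ b ∈ Fintype.piFinset T, MvPolynomial.eval (Sum.elim (fun k => Y k (b k)) y) Q =
      ∑ d ∈ Q.support, Q.coeff d * ((∏ k : κ, y k ^ (d (Sum.inr k))) * ∏ k : ι, ∑ b ∈ T k, Y k b ^ (d (Sum.inl k))) := by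
  have h := g7a_exp T (fun _ _ => (1 : C)) Y Q y
  simp only [Finset.prod_const_one, one_mul] at h
  exact h

theorem g7a_ex {A ι : Type} [Fintype ι] [DecidableEq ι] (T : ι → Finset A) (ψ Y : ι → A → C) (Q : MvPolynomial ι C) :
    ∑ b ∈ Fintype.piFinset T, (∏ k, ψ k (b k)) * MvPolynomial.eval (fun k => Y k (b k)) Q =
      ∑ d ∈ Q.support, Q.coeff d * ∏ k : ι, ∑ b ∈ T k, ψ k b * Y k b ^ (d k) := by
  have h1 : ∀ b : ι → A, (∏ k, ψ k (b k)) * MvPolynomial.eval (fun k => Y k (b k)) Q =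
      ∑ d ∈ Q.support, Q.coeff d * ∏ k : ι, (ψ k (b k) * Y k (b k) ^ (d k)) := by
    intro b
    rw [MvPolynomial.eval_eq', Finset.mul_sum]
    refine Finset.sum_congr rfl fun d _ => ?_
    rw [Finset.prod_mul_distrib]
    ring
  rw [Finset.sum_congr rfl fun b _ => h1 b, Finset.sum_comm]
  refine Finset.sum_congr rfl fun d _ => ?_
  rw [← Finset.mul_sum, Finset.prod_univ_sum]

theorem g7a_ex1 {A ι : Type} [Fintype ι] [DecidableEq ι] (T : ι → Finset A) (Y : ι → A → C) (Q : MvPolynomial ι C) :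
    ∑ b ∈ Fintype.piFinset T, MvPolynomial.eval (fun k => Y k (b k)) Q =
      ∑ d ∈ Q.support, Q.coeff d * ∏ k : ι, ∑ b ∈ T k, Y k b ^ (d k) := by
  have h := g7a_ex T (fun _ _ => (1 : C)) Y Q
  simp only [Finset.prod_const_one, one_mul] at h
  exact h

theorem g7_prod {A ι : Type} [Fintype ι] [DecidableEq ι] (T : ι → Finset A) (ψ Y : ι → A → C) (r : ι → ℝ) (h : ∀ k, CG (T k) (ψ k) (Y k) (r k))
    (Q : MvPolynomial ι C) (hQ : ∀ m, ‖Q.coeff m‖ ≤ 1) :
    ‖∑ b ∈ Fintype.piFinset T, (∏ k, ψ k (b k)) * MvPolynomial.eval (fun k => Y k (b k)) Q‖ ≤ ∏ k, r k ∧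
    ‖∑ b ∈ Fintype.piFinset T, MvPolynomial.eval (fun k => Y k (b k)) Q‖ ≤ ∏ k, r k ∧
    ‖∑ b ∈ Fintype.piFinset T, (∏ k, ψ k (b k)) * MvPolynomial.eval (fun k => Y k (b k)) Q -
      ∑ b ∈ Fintype.piFinset T, MvPolynomial.eval (fun k => Y k (b k)) Q‖ < ∏ k, r k := by
  have hR : 0 < ∏ k, r k := Finset.prod_pos fun k _ => (h k).pos
  rw [g7a_ex, g7a_ex1, ← Finset.sum_sub_distrib]
  refine ⟨?_, ?_, ?_⟩
  · refine IsUltrametricDist.norm_sum_le_of_forall_le_of_nonneg hR.le fun d _ => ?_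
    rw [norm_mul, norm_prod]
    refine (mul_le_of_le_one_left (by positivity) (hQ d)).trans ?_
    exact Finset.prod_le_prod (fun k _ => norm_nonneg _) fun k _ => (h k).le _
  · refine IsUltrametricDist.norm_sum_le_of_forall_le_of_nonneg hR.le fun d _ => ?_
    rw [norm_mul, norm_prod]
    refine (mul_le_of_le_one_left (by positivity) (hQ d)).trans ?_
    exact Finset.prod_le_prod (fun k _ => norm_nonneg _) fun k _ => (h k).le1 _
  · refine g7a_lt _ _ _ hR fun d _ => ?_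
    rw [← mul_sub, norm_mul]
    refine (mul_le_of_le_one_left (norm_nonneg _) (hQ d)).trans_lt ?_
    exact g7a_diff _ _ _ _ (fun k => (h k).pos) (fun k => (h k).le _) (fun k => (h k).le1 _) (fun k => (h k).lt _)

theorem g7_par {A ι κ : Type} [Fintype ι] [DecidableEq ι] [Fintype κ] (T : ι → Finset A) (ψ Y : ι → A → C) (r : ι → ℝ) (h : ∀ k, CG (T k) (ψ k) (Y k) (r k))
    (Q : MvPolynomial (ι ⊕ κ) C) (hQ : ∀ m, ‖Q.coeff m‖ ≤ 1) (y : κ → C) (hy : ∀ k, ‖y k‖ < 1) :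
    ‖∑ b ∈ Fintype.piFinset T, (∏ k, ψ k (b k)) * MvPolynomial.eval (Sum.elim (fun k => Y k (b k)) y) Q -
      ∑ b ∈ Fintype.piFinset T, MvPolynomial.eval (Sum.elim (fun k => Y k (b k)) (fun _ => 0)) Q‖ < ∏ k, r k := by
  have hR : 0 < ∏ k, r k := Finset.prod_pos fun k _ => (h k).pos
  rw [g7a_exp, g7a_exp1, ← Finset.sum_sub_distrib]
  refine g7a_lt _ _ _ hR fun d _ => ?_
  rw [← mul_sub, norm_mul]
  refine (mul_le_of_le_one_left (norm_nonneg _) (hQ d)).trans_lt ?_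
  by_cases hd : ∀ k : κ, d (Sum.inr k) = 0
  · have e1 : ∏ k : κ, y k ^ (d (Sum.inr k)) = 1 := Finset.prod_eq_one fun k _ => by rw [hd k, pow_zero]
    have e2 : ∏ k : κ, (0 : C) ^ (d (Sum.inr k)) = 1 := Finset.prod_eq_one fun k _ => by rw [hd k, pow_zero]
    rw [e1, e2, one_mul, one_mul]
    exact g7a_diff _ _ _ _ (fun k => (h k).pos) (fun k => (h k).le _) (fun k => (h k).le1 _) (fun k => (h k).lt _)
  · rw [not_forall] at hd
    obtain ⟨k0, hk0⟩ := hd
    have e2 : ∏ k : κ, (0 : C) ^ (d (Sum.inr k)) = 0 := Finset.prod_eq_zero (Finset.mem_univ k0) (zero_pow hk0)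
    rw [e2, zero_mul, sub_zero, norm_mul]
    have e3 : ‖∏ k : κ, y k ^ (d (Sum.inr k))‖ < 1 := by
      classical
      rw [norm_prod, ← Finset.mul_prod_erase Finset.univ _ (Finset.mem_univ k0)]
      have e4 : ‖y k0 ^ (d (Sum.inr k0))‖ < 1 := by
        rw [norm_pow]
        exact pow_lt_one₀ (norm_nonneg _) (hy k0) hk0
      have e5 : ∏ k ∈ Finset.univ.erase k0, ‖y k ^ (d (Sum.inr k))‖ ≤ 1 := by
        refine Finset.prod_le_one (fun k _ => norm_nonneg _) fun k _ => ?_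
        rw [norm_pow]
        exact pow_le_one₀ (norm_nonneg _) (hy k).le
      calc ‖y k0 ^ (d (Sum.inr k0))‖ * ∏ k ∈ Finset.univ.erase k0, ‖y k ^ (d (Sum.inr k))‖ ≤ ‖y k0 ^ (d (Sum.inr k0))‖ * 1 :=
            mul_le_mul_of_nonneg_left e5 (norm_nonneg _)
        _ < 1 := by rwa [mul_one]
    have e6 : ‖∏ k : ι, ∑ b ∈ T k, ψ k b * Y k b ^ (d (Sum.inl k))‖ ≤ ∏ k, r k := by
      rw [norm_prod]
      exact Finset.prod_le_prod (fun k _ => norm_nonneg _) fun k _ => (h k).le _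
    calc _ ≤ ‖∏ k : κ, y k ^ (d (Sum.inr k))‖ * ∏ k, r k := mul_le_mul_of_nonneg_left e6 (norm_nonneg _)
      _ < 1 * ∏ k, r k := mul_lt_mul_of_pos_right e3 hR
      _ = ∏ k, r k := one_mul _

end SSR
end

-- from Lib.SSN.B1
section

/-! # SSN, chunk B1: Teichmueller representatives for a finite residue field (only Mathlib) -/

namespace SSN

section

variable {R : Type} [CommRing R] {p : ℕ} {φ : R →+* ℂ} {V : ValuationSubring ℂ} {G : Type} [Group G] {χ : G → R}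

/-- Elements divisible by p have value less than one. -/
theorem b1_dvd (hφ : ∀ a, φ a ∈ V) (hV : V.valuation (p : ℂ) < 1) {a : R} (h : (p : R) ∣ a) :
    V.valuation (φ a) < 1 := by
  obtain ⟨c, rfl⟩ := h
  rw [map_mul, map_mul, map_natCast]
  exact mul_lt_one_of_lt_of_le hV ((V.valuation_le_one_iff _).2 (hφ c))

theorem b1_nat (V : ValuationSubring ℂ) (n : ℕ) : V.valuation (n : ℂ) ≤ 1 :=
  (V.valuation_le_one_iff _).2 (natCast_mem V n)

theorem b1_mul {x y : ℂ} (hx : V.valuation x ≤ 1) (hy : V.valuation y < 1) : V.valuation (x * y) < 1 := by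
  rw [map_mul, mul_comm]
  exact mul_lt_one_of_lt_of_le hy hx

theorem b1_root {n : ℕ} (hn : n ≠ 0) {ζ : ℂ} (h : ζ ^ n = 1) : V.valuation ζ = 1 := by
  have h1 : V.valuation ζ ^ n = 1 := by rw [← map_pow, h, map_one]
  exact (pow_eq_one_iff.1 h1).resolve_right hn

/-- A root of unity of order prime to the residue characteristic is not congruent to 1. -/
theorem b1_far {n : ℕ} (hn : V.valuation (n : ℂ) = 1) {ξ : ℂ} (h : ξ ^ n = 1) (h1 : V.valuation (1 - ξ) < 1) :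
    ξ = 1 := by
  by_contra hne
  have hn0 : n ≠ 0 := by
    rintro rfl
    rw [Nat.cast_zero, map_zero] at hn
    exact zero_ne_one hn
  have hξ : ξ ∈ V := by
    rw [← V.valuation_le_one_iff, b1_root hn0 h]
  have hs : ∑ i ∈ Finset.range n, ξ ^ i = 0 := by
    have h2 : (∑ i ∈ Finset.range n, ξ ^ i) * (ξ - 1) = 0 := by
      rw [geom_sum_mul, h, sub_self]
    exact (mul_eq_zero.1 h2).resolve_right (sub_ne_zero.2 hne)
  have h3 : (n : ℂ) = (1 - ξ) * ∑ i ∈ Finset.range n, ∑ j ∈ Finset.range i, ξ ^ j := by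
    rw [Finset.mul_sum]
    have h4 : ∀ i ∈ Finset.range n, (1 - ξ) * ∑ j ∈ Finset.range i, ξ ^ j = 1 - ξ ^ i := by
      intro i _
      have h5 := geom_sum_mul ξ i
      linear_combination -h5
    rw [Finset.sum_congr rfl h4, Finset.sum_sub_distrib, hs, sub_zero, Finset.sum_const, Finset.card_range,
      nsmul_eq_mul, mul_one]
  have h6 : ∑ i ∈ Finset.range n, ∑ j ∈ Finset.range i, ξ ^ j ∈ V :=
    sum_mem fun i _ => sum_mem fun j _ => pow_mem hξ j
  rw [h3, map_mul] at hn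
  have h7 := mul_lt_one_of_lt_of_le h1 ((V.valuation_le_one_iff _).2 h6)
  rw [hn] at h7
  exact lt_irrefl _ h7

theorem b1_uniq {n : ℕ} (hn : V.valuation (n : ℂ) = 1) {ζ ζ' : ℂ} (h : ζ ^ n = 1) (h' : ζ' ^ n = 1)
    (h1 : V.valuation (ζ - ζ') < 1) : ζ = ζ' := by
  have hn0 : n ≠ 0 := by
    rintro rfl
    rw [Nat.cast_zero, map_zero] at hn
    exact zero_ne_one hn
  have hζ : ζ ≠ 0 := by
    rintro rfl
    rw [zero_pow hn0] at h
    exact zero_ne_one h
  have hv := b1_root (V := V) hn0 h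
  have h2 : V.valuation (1 - ζ' / ζ) < 1 := by
    have e : 1 - ζ' / ζ = (ζ - ζ') / ζ := by field_simp
    rw [e, map_div₀, hv, div_one]
    exact h1
  have h3 : (ζ' / ζ) ^ n = 1 := by
    rw [div_pow, h, h', div_one]
  have h4 := b1_far hn h3 h2
  rw [div_eq_one_iff_eq hζ] at h4
  exact h4.symm

/-- A root of unity congruent to a given element. -/
theorem b1_ex {n : ℕ} (hn : 0 < n) {a : ℂ} (ha : a ∈ V) (h : V.valuation (a ^ n - 1) < 1) :
    ∃ ζ : ℂ, ζ ^ n = 1 ∧ V.valuation (ζ - a) < 1 := by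
  by_contra hcon
  push Not at hcon
  have h1 := Polynomial.X_pow_sub_one_eq_prod hn (Complex.isPrimitiveRoot_exp n hn.ne')
  have h2 := congrArg (Polynomial.eval a) h1
  rw [Polynomial.eval_prod] at h2
  simp only [Polynomial.eval_sub, Polynomial.eval_pow, Polynomial.eval_X, Polynomial.eval_one, Polynomial.eval_C] at h2
  rw [h2, map_prod] at h
  have h3 : ∏ ζ ∈ Polynomial.nthRootsFinset n (1 : ℂ), V.valuation (a - ζ) = 1 := by
    apply Finset.prod_eq_one
    intro ζ hζ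
    have h4 : ζ ^ n = 1 := (Polynomial.mem_nthRootsFinset hn 1).1 hζ
    have h5 : ζ ∈ V := by
      rw [← V.valuation_le_one_iff, b1_root hn.ne' h4]
    apply le_antisymm
    · exact (V.valuation_le_one_iff _).2 (sub_mem ha h5)
    · rw [Valuation.map_sub_swap]
      exact hcon ζ h4
  rw [h3] at h
  exact lt_irrefl _ h

/-- Chunk B1 (M), three theorems, ONLY MATHLIB. PROOF of b1_teich. q = card (R / p), a finite field; n = q - 1 is prime to p (q is a power of p: the characteristic of the field R / p is p; if V(n) < 1 then ... simply: p divides q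
(as p = 0 in the finite field R / p of cardinality q, addOrderOf 1 = p divides q), so n = -1 modulo p). For a in R not divisible by p: a ^ n - 1 is divisible by p (FiniteField.pow_card_sub_one_eq_one in R / p), so V(φ(a) ^ n - 1) < 1
(φ(p c) = p φ(c), V(φ c) ≤ 1). X ^ n - 1 is the product of X - ζ over the n-th roots of unity of ℂ (X_pow_sub_one_eq_prod with Complex.isPrimitiveRoot_exp), so V of the product of φ(a) - ζ is < 1 and V(φ(a) - ζ) < 1 for one ζ (every factor has V ≤ 1, roots of unity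
are in V). Unique: if ζ ≠ ζ' are n-th roots of unity then V(ζ - ζ') = 1: it is enough V(1 - ξ) = 1 for every n-th root of unity ξ ≠ 1; the product of 1 - ξ over all ξ ≠ 1 is n (IsPrimitiveRoot: prod_one_sub_pow_eq_order, or derivative of X ^ n - 1), V(n) = 1 because n = q - 1,
V(q) < 1; all factors have V ≤ 1. Now ω σ = the unit ζ_σ with V(ζ_σ - φ(χ σ)) < 1; ζ_σ ζ_τ is an n-th root of unity congruent to φ(χ σ) φ(χ τ), hence to φ(χ (σ τ)) (h1), so equal to ζ_(σ τ) by uniqueness; MonoidHom.mk'. -/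
theorem b1_teich (hp : p.Prime) (hmax : (Ideal.span {(p : R)}).IsMaximal) (hfin : Finite (R ⧸ Ideal.span {(p : R)}))
    (hφ : ∀ a, φ a ∈ V) (hV : V.valuation (p : ℂ) < 1) (h1 : ∀ σ τ, (p : R) ∣ χ (σ * τ) - χ σ * χ τ)
    (h3 : ∀ σ, ¬ (p : R) ∣ χ σ) : ∃ ω : G →* ℂˣ, ∀ σ, V.valuation ((ω σ : ℂ) - φ (χ σ)) < 1 := by
  classical
  have hne : (Ideal.span {(p : R)}) ≠ ⊤ := hmax.ne_top
  let _ : Field (R ⧸ Ideal.span {(p : R)}) := Ideal.Quotient.field _
  let _ : Fintype (R ⧸ Ideal.span {(p : R)}) := Fintype.ofFinite _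
  obtain ⟨q, hq⟩ : ∃ q, q = Fintype.card (R ⧸ Ideal.span {(p : R)}) := ⟨_, rfl⟩
  have hq2 : 1 < q := by
    rw [hq]
    exact Fintype.one_lt_card
  have : Fact p.Prime := ⟨hp⟩
  have hpz : ((p : ℕ) : R ⧸ Ideal.span {(p : R)}) = 0 := by
    rw [← map_natCast (Ideal.Quotient.mk (Ideal.span {(p : R)})) p, Ideal.Quotient.eq_zero_iff_mem]
    exact Ideal.mem_span_singleton_self _
  have hpq : p ∣ q := by
    have h1' : addOrderOf (1 : R ⧸ Ideal.span {(p : R)}) = p := by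
      apply addOrderOf_eq_prime
      · rw [nsmul_eq_mul, mul_one, hpz]
      · exact one_ne_zero
    have h2' : addOrderOf (1 : R ⧸ Ideal.span {(p : R)}) ∣ q := by
      rw [hq]
      exact addOrderOf_dvd_card
    rwa [h1'] at h2'
  have hVq : V.valuation (q : ℂ) < 1 := by
    obtain ⟨c, hc⟩ := hpq
    rw [hc, Nat.cast_mul, map_mul]
    exact mul_lt_one_of_lt_of_le hV (b1_nat V c)
  obtain ⟨n, hn⟩ : ∃ n, q = n + 1 := ⟨q - 1, by omega⟩
  have hn0 : 0 < n := by omega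
  have hVn : V.valuation (n : ℂ) = 1 := by
    have e : (n : ℂ) = (q : ℂ) - 1 := by
      rw [hn]
      push_cast
      ring
    rw [e, Valuation.map_sub_eq_of_lt_right _ (by rw [map_one]; exact hVq), map_one]
  have key : ∀ a : R, ¬ (p : R) ∣ a → ∃ ζ : ℂ, ζ ^ n = 1 ∧ V.valuation (ζ - φ a) < 1 := by
    intro a ha
    apply b1_ex hn0 (hφ a)
    have h2 : (Ideal.Quotient.mk (Ideal.span {(p : R)}) a) ≠ 0 := by
      intro h0
      rw [Ideal.Quotient.eq_zero_iff_mem, Ideal.mem_span_singleton] at h0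
      exact ha h0
    have h3 := FiniteField.pow_card_sub_one_eq_one _ h2
    have h4 : Fintype.card (R ⧸ Ideal.span {(p : R)}) - 1 = n := by omega
    rw [h4, ← map_pow, ← map_one (Ideal.Quotient.mk (Ideal.span {(p : R)})), Ideal.Quotient.eq,
      Ideal.mem_span_singleton] at h3
    have h5 := b1_dvd hφ hV h3
    rwa [map_sub, map_pow, map_one] at h5
  choose ζ hζ1 hζ2 using fun σ => key (χ σ) (h3 σ)
  have hζ0 : ∀ σ, ζ σ ≠ 0 := by
    intro σ h0
    have := hζ1 σ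
    rw [h0, zero_pow hn0.ne'] at this
    exact zero_ne_one this
  have hζV : ∀ σ, ζ σ ∈ V := by
    intro σ
    rw [← V.valuation_le_one_iff, b1_root hn0.ne' (hζ1 σ)]
  have hmul : ∀ σ τ, ζ (σ * τ) = ζ σ * ζ τ := by
    intro σ τ
    refine b1_uniq hVn (hζ1 _) (by rw [mul_pow, hζ1, hζ1, one_mul]) ?_
    have e : ζ (σ * τ) - ζ σ * ζ τ = (ζ (σ * τ) - φ (χ (σ * τ))) + φ (χ (σ * τ) - χ σ * χ τ)
        - (φ (χ σ) * (ζ τ - φ (χ τ)) + ζ τ * (ζ σ - φ (χ σ))) := by
      rw [map_sub, map_mul]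
      ring
    rw [e]
    refine Valuation.map_sub_lt _ (Valuation.map_add_lt _ (hζ2 _) (b1_dvd hφ hV (h1 σ τ)))
      (Valuation.map_add_lt _ ?_ ?_)
    · exact b1_mul ((V.valuation_le_one_iff _).2 (hφ _)) (hζ2 _)
    · exact b1_mul ((V.valuation_le_one_iff _).2 (hζV _)) (hζ2 _)
  refine ⟨MonoidHom.mk' (fun σ => Units.mk0 (ζ σ) (hζ0 σ)) (fun σ τ => ?_), fun σ => ?_⟩
  · apply Units.ext
    exact hmul σ τ
  · exact hζ2 σ

/-- PROOF. φ(χ g⁻¹) ω(g) - φ(χ g⁻¹) φ(χ g) has V < 1 (V(φ(χ g⁻¹)) ≤ 1); χ g⁻¹ χ g = χ 1 = 1 modulo p. So V(sum - card G) < 1 and V(card G) = 1 (p does not divide card G: a card G + b p = 1, so V(card G) < 1 would give V(1) < 1). -/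
theorem b1_sum [Fintype G] (hp : p.Prime) (hφ : ∀ a, φ a ∈ V) (hV : V.valuation (p : ℂ) < 1)
    (h1 : ∀ σ τ, (p : R) ∣ χ (σ * τ) - χ σ * χ τ) (h2 : (p : R) ∣ χ 1 - 1) (hc : ¬ p ∣ Fintype.card G) (ω : G → ℂ)
    (hω : ∀ σ, V.valuation (ω σ - φ (χ σ)) < 1) : V.valuation (∑ g, φ (χ g⁻¹) * ω g) = 1 := by
  have hco : V.valuation ((Fintype.card G : ℕ) : ℂ) = 1 := by
    apply le_antisymm (b1_nat V _)
    by_contra hlt
    push Not at hlt
    have hcop : Nat.Coprime (Fintype.card G) p := ((Nat.Prime.coprime_iff_not_dvd hp).2 hc).symm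
    obtain ⟨a, b, hab⟩ := Nat.isCoprime_iff_coprime.2 hcop
    have h3 := congrArg (fun z : ℤ => (z : ℂ)) hab
    push_cast at h3
    have h4 : V.valuation (1 : ℂ) < 1 := by
      rw [← h3]
      refine Valuation.map_add_lt _ ?_ ?_
      · exact b1_mul ((V.valuation_le_one_iff _).2 (intCast_mem V a)) hlt
      · exact b1_mul ((V.valuation_le_one_iff _).2 (intCast_mem V b)) hV
    rw [map_one] at h4
    exact lt_irrefl _ h4
  have hsm : V.valuation (∑ g : G, (φ (χ g⁻¹) * ω g - 1)) < 1 := by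
    apply Valuation.map_sum_lt _ one_ne_zero
    intro g _
    have e : φ (χ g⁻¹) * ω g - 1 = φ (χ g⁻¹) * (ω g - φ (χ g)) + (φ (χ 1 - 1) - φ (χ (g⁻¹ * g) - χ g⁻¹ * χ g)) := by
      rw [inv_mul_cancel, map_sub, map_sub, map_mul, map_one]
      ring
    rw [e]
    refine Valuation.map_add_lt _ ?_ (Valuation.map_sub_lt _ (b1_dvd hφ hV h2) (b1_dvd hφ hV (h1 _ _)))
    exact b1_mul ((V.valuation_le_one_iff _).2 (hφ _)) (hω g)
  have e : ∑ g : G, φ (χ g⁻¹) * ω g = (∑ g : G, (φ (χ g⁻¹) * ω g - 1)) + ((Fintype.card G : ℕ) : ℂ) := by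
    rw [Finset.sum_sub_distrib, Finset.sum_const, Finset.card_univ, nsmul_eq_mul, mul_one, sub_add_cancel]
  rw [e, Valuation.map_add_eq_of_lt_right _ (by rw [hco]; exact hsm), hco]

/-- PROOF. V(1 - φ(χ σ)) < 1. If p does not divide a = χ σ - 1 then a b = 1 + p c (the ideal of p is maximal: Ideal.IsMaximal.exists_inv or the field R / p), so
1 = V(1) ≤ max (V(φ a) V(φ b), V(p) V(φ c)) < 1. -/
theorem b1_one (hmax : (Ideal.span {(p : R)}).IsMaximal) (hφ : ∀ a, φ a ∈ V) (hV : V.valuation (p : ℂ) < 1) {a : R}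
    (h : V.valuation (φ a) < 1) : (p : R) ∣ a := by
  by_contra hn
  have hx : a ∉ Ideal.span {(p : R)} := fun h0 => hn (Ideal.mem_span_singleton.1 h0)
  obtain ⟨y, i, hi, hyi⟩ := hmax.exists_inv hx
  have h1 : V.valuation (φ (y * a + i)) < 1 := by
    rw [map_add, map_mul]
    refine Valuation.map_add_lt _ ?_ (b1_dvd hφ hV (Ideal.mem_span_singleton.1 hi))
    exact b1_mul ((V.valuation_le_one_iff _).2 (hφ _)) h
  rw [hyi, map_one, map_one] at h1
  exact lt_irrefl _ h1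

end

end SSN
end
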