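import Mathlib
import Pool.Agent.Lib.H1M.PP2.M019

/-! Merged copies (to shorten the build) of Lib.SSR.GD, Lib.SSR.G0, Lib.SSR.G1, Lib.SSR.G1B, Lib.SSR.G2. -/

-- from Lib.SSR.GD
section

/-! # SSR, part G: the functional: definitions (no sorry)

L : LTF F C (Lib/SSG/F/Defs): L.X N a = the Lubin-Tate coordinate of the point a modulo p^N, q = p^2. -/

open NumberField

namespace SSR

open SSG (LTF Rep)

/-- The coordinates of integral linear combinations are uniform limits of integral polynomials in the coordinates. -/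
def LinX {F : Type} [Field F] [NumberField F] {C : Type} [NormedField C] (L : LTF F C) : Prop :=
  ∀ (N : ℕ) (κ : Type) [Fintype κ] (c : κ → 𝓞 F), L.Fn N κ (fun a => L.X N (∑ k, c k * a k))

/-- The standing hypotheses of part G. -/
structure GH (p : ℕ) {F : Type} [Field F] [NumberField F] {C : Type} [NormedField C] (L : LTF F C) : Prop where
  prime : p.Prime
  three : 3 ≤ p
  deg : Module.finrank ℚ F = 2
  lt : ‖(p : C)‖ < 1
  ok : L.Ok p
  lin : LinX L

/-- Additive characters of O_F which are trivial on p O_F. -/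
structure Ach (p : ℕ) {F : Type} [Field F] [NumberField F] {C : Type} [NormedField C] (ψ : 𝓞 F → C) : Prop where
  add : ∀ a b, ψ (a + b) = ψ a * ψ b
  per : ∀ a, ψ ((p : 𝓞 F) * a) = 1

/-- X_1(b) / X_1(1). -/
noncomputable def tau {F : Type} [Field F] [NumberField F] {C : Type} [NormedField C] (L : LTF F C) (b : 𝓞 F) : C := L.X 1 b / L.X 1 1

end SSR
end

-- from Lib.SSR.G0
section

open NumberField

namespace SSR

open SSG

variable {F : Type} [Field F] [NumberField F] {C : Type} [NormedField C] [IsUltrametricDist C] {L : LTF F C} {p : ℕ}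

/-! Chunk G0 (S/M). PROOF. g0_pol: induction (MvPolynomial: Q.sum / MvPolynomial.eval_eq: eval = sum over the support of coeff * prod of powers): Fn_sum, Fn_scal, Fn_prod, Fn_pow (SSG/E/A1).
g0_comp: given ε take Q for H and ε (integral, ‖H b - Q(X_N(b i))‖ ≤ ε for all b), the function a ↦ Q(X_N(Σ_k c i k a k)) is Fn by g0_pol with G i = the coordinate of the linear combination
(hl N κ (c i)), within ε of H (Σ..): Fn_lim. g0_sv: the partial sums Σ_(n<m) c n H^n are Fn (Fn_sum, Fn_scal, Fn_pow) and within ρ^m of the series (ultrametric: norm of the tail ≤ sup of the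
terms, tail = tsum of the terms n ≥ m, each ≤ ρ^m; Summable: norm ≤ ρ^n geometric, or NonarchimedeanAddGroup; see SSG/LT sv, Cl.of_sv, `cl_*` in SSG/LT/PA*.lean for the same lemma: may be reused). -/

theorem g0_pol (hs : ∀ N a, ‖L.X N a‖ < 1) {N : ℕ} {ι κ : Type} [Fintype ι] [Fintype κ] (Q : MvPolynomial ι C) (hQ : ∀ m, ‖Q.coeff m‖ ≤ 1)
    (G : ι → (κ → 𝓞 F) → C) (hG : ∀ i, L.Fn N κ (G i)) : L.Fn N κ (fun a => MvPolynomial.eval (fun i => G i a) Q) := by
  simp only [MvPolynomial.eval_eq']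
  exact Fn_sum _ fun m _ => Fn_scal hs (hQ m) (Fn_prod hs _ fun i _ => Fn_pow hs (hG i) _)

theorem g0_comp (hs : ∀ N a, ‖L.X N a‖ < 1) (hl : LinX L) {N : ℕ} {ι κ : Type} [Fintype ι] [Fintype κ] {H : (ι → 𝓞 F) → C} (hH : L.Fn N ι H)
    (c : ι → κ → 𝓞 F) : L.Fn N κ (fun a => H (fun i => ∑ k, c i k * a k)) := by
  refine Fn_lim fun ε hε => ?_
  obtain ⟨Q, hQ, hQ'⟩ := hH ε hε
  exact ⟨fun a => MvPolynomial.eval (fun i => L.X N (∑ k, c i k * a k)) Q,
    g0_pol hs Q hQ _ (fun i => hl N κ (c i)), fun a => hQ' _⟩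

theorem g0_sv [CompleteSpace C] (hs : ∀ N a, ‖L.X N a‖ < 1) {N : ℕ} {κ : Type} [Fintype κ] {H : (κ → 𝓞 F) → C} (hH : L.Fn N κ H) {ρ : ℝ} (hρ : ρ < 1)
    (hb : ∀ a, ‖H a‖ ≤ ρ) (c : ℕ → C) (hc : ∀ n, ‖c n‖ ≤ 1) : L.Fn N κ (fun a => ∑' n, c n * H a ^ n) := by
  have hρ0 : 0 ≤ ρ := (norm_nonneg _).trans (hb fun _ => 0)
  have hg : HasSum (fun n : ℕ => ρ ^ n) (1 - ρ)⁻¹ := hasSum_geometric_of_lt_one hρ0 hρ
  have hterm : ∀ a n, ‖c n * H a ^ n‖ ≤ ρ ^ n := by
    intro a n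
    rw [norm_mul, norm_pow]
    calc ‖c n‖ * ‖H a‖ ^ n ≤ 1 * ρ ^ n :=
          mul_le_mul (hc n) (pow_le_pow_left₀ (norm_nonneg _) (hb a) n) (by positivity) zero_le_one
      _ = ρ ^ n := one_mul _
  have hsum : ∀ a, Summable fun n => c n * H a ^ n := fun a =>
    Summable.of_norm_bounded hg.summable (hterm a)
  refine Fn_lim fun ε hε => ?_
  have h1ρ : 0 < 1 - ρ := by linarith
  obtain ⟨m, hm⟩ := exists_pow_lt_of_lt_one (show 0 < ε * (1 - ρ) by positivity) hρ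
  refine ⟨fun a => ∑ n ∈ Finset.range m, c n * H a ^ n,
    Fn_sum _ fun n _ => Fn_scal hs (hc n) (Fn_pow hs hH n), fun a => ?_⟩
  have h1 := (hsum a).sum_add_tsum_nat_add m
  have h2 : (∑' n, c n * H a ^ n) - ∑ n ∈ Finset.range m, c n * H a ^ n = ∑' n, c (n + m) * H a ^ (n + m) := by
    rw [← h1, add_sub_cancel_left]
  rw [h2]
  have h3 : HasSum (fun n : ℕ => ρ ^ m * ρ ^ n) (ρ ^ m * (1 - ρ)⁻¹) := hg.mul_left _
  have h4 : ‖∑' n, c (n + m) * H a ^ (n + m)‖ ≤ ρ ^ m * (1 - ρ)⁻¹ := by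
    refine tsum_of_norm_bounded h3 fun n => ?_
    have h5 : ρ ^ m * ρ ^ n = ρ ^ (n + m) := by rw [pow_add, mul_comm]
    rw [h5]
    exact hterm a (n + m)
  refine h4.trans ?_
  rw [← div_eq_mul_inv, div_le_iff₀ h1ρ]
  exact hm.le

end SSR
end

-- from Lib.SSR.G1
section

open NumberField

namespace SSR

open SSG

variable {F : Type} [Field F] [NumberField F] {C : Type} [NormedField C] [IsUltrametricDist C] {L : LTF F C} {p : ℕ}

/-! Chunk G1 (S). PROOF. g1_nd: if p divided 1 in 𝓞 F it would be a unit, but its norm (Algebra.norm ℤ) is a power p^2 (or: p is not a unit because (p : ℤ) is not: Ideal.absNorm / RingOfIntegers; finrank > 0).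
g1_zero: ok.down gives X N 0 = X (N+1) 0 (-p * 0 = 0), ok.g: y = -p y + y^(p^2) for y = X (N+1) 0, i.e. y (y^(p^2-1) - 1 - p) = 0; the second factor is not 0 because its norm is 1 (‖y‖ < 1 (small), ‖p‖ < 1); so
X (N+1) 0 = 0 and X N 0 = X (N+1) 0 = 0. g1_iff: ok.inj 1 b 0 and g1_zero. g1_X0: X 0 b = 0: ok.inj 0 b 0 (p^0 = 1 divides). g1_pow: ok.g 0 b: 0 = -p X + X^(p^2), X ≠ 0 (g1_iff): cancel X. g1_s: norms of g1_pow at b = 1 (g1_nd).
g1_norm: pow_left_injective on norms (p^2 - 1 ≠ 0). g1_p0: p = X^(p^2-1) ≠ 0. -/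

theorem g1_nd (hG : GH p L) : ¬ (p : 𝓞 F) ∣ 1 := by
  rintro ⟨u, hu⟩
  have hp0 : (p : ℚ) ≠ 0 := by exact_mod_cast hG.prime.ne_zero
  have h1 : (1 : F) = (p : F) * (u : F) := by
    have h2 := congrArg (fun x : 𝓞 F => (x : F)) hu
    simpa using h2
  have h3 : (u : F) = algebraMap ℚ F (1 / p) := by
    have h4 : (p : F) ≠ 0 := by exact_mod_cast hG.prime.ne_zero
    rw [map_div₀, map_one, map_natCast, h1]
    field_simp
  have h5 : IsIntegral ℤ (algebraMap ℚ F (1 / p)) := by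
    rw [← h3]
    exact RingOfIntegers.isIntegral_coe u
  have h6 := (isIntegral_algebraMap_iff (algebraMap ℚ F).injective).1 h5
  obtain ⟨y, hy⟩ := IsIntegrallyClosed.isIntegral_iff.1 h6
  have h7 : (y : ℚ) * p = 1 := by
    have h8 : (y : ℚ) = 1 / p := hy
    rw [h8]
    field_simp
  have h9 : y * p = 1 := by exact_mod_cast h7
  have h10 : (p : ℤ) ∣ 1 := ⟨y, by rw [← h9]; ring⟩
  have h11 : p ∣ 1 := by exact_mod_cast h10
  exact hG.prime.one_lt.ne' (Nat.dvd_one.1 h11)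

/-- `p ^ 2 - 1 ≠ 0` -/
theorem g1_ne (hG : GH p L) : p ^ 2 - 1 ≠ 0 := by
  have h1 : 2 ≤ p := hG.prime.two_le
  have h2 : 2 * 2 ≤ p * p := Nat.mul_le_mul h1 h1
  rw [sq]
  omega

theorem g1_zero (hG : GH p L) (N : ℕ) : L.X N 0 = 0 := by
  have h1 := hG.ok.down N 0
  have h2 := hG.ok.g N 0
  rw [mul_zero] at h1
  rw [h1] at h2
  rw [h1]
  have h3 := hG.ok.small (N + 1) 0
  obtain ⟨y, hy⟩ : ∃ y, y = L.X (N + 1) 0 := ⟨_, rfl⟩
  rw [← hy] at h2 h3 ⊢
  by_contra h0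
  have h4 := g1_ne hG
  have h5 : y ^ (p ^ 2) = y * y ^ (p ^ 2 - 1) := by
    rw [← pow_succ']
    congr 1
    omega
  rw [h5] at h2
  have h6 : y ^ (p ^ 2 - 1) = 1 + p := by
    refine mul_left_cancel₀ h0 ?_
    linear_combination -h2
  have h7 : ‖(1 : C)‖ < 1 := by
    have h8 : (1 : C) = y ^ (p ^ 2 - 1) - p := by
      rw [h6]
      ring
    rw [h8]
    have h9 : ‖y ^ (p ^ 2 - 1)‖ < 1 := by
      rw [norm_pow]
      exact pow_lt_one₀ (norm_nonneg _) h3 h4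
    rw [sub_eq_add_neg]
    refine lt_of_le_of_lt (IsUltrametricDist.norm_add_le_max _ _) (max_lt h9 ?_)
    rw [norm_neg]
    exact hG.lt
  rw [norm_one] at h7
  exact lt_irrefl _ h7

theorem g1_X0 (hG : GH p L) (b : 𝓞 F) : L.X 0 b = 0 := by
  rw [← g1_zero hG 0]
  refine (hG.ok.inj 0 b 0).2 ?_
  rw [pow_zero]
  exact one_dvd _

theorem g1_iff (hG : GH p L) (b : 𝓞 F) : L.X 1 b = 0 ↔ (p : 𝓞 F) ∣ b := by
  have h1 := hG.ok.inj 1 b 0
  rw [g1_zero hG 1, pow_one, sub_zero] at h1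
  exact h1

theorem g1_pow (hG : GH p L) {b : 𝓞 F} (hb : ¬ (p : 𝓞 F) ∣ b) : L.X 1 b ^ (p ^ 2 - 1) = (p : C) := by
  have h1 := hG.ok.g 0 b
  rw [g1_X0 hG, zero_add] at h1
  have h0 : L.X 1 b ≠ 0 := fun h => hb ((g1_iff hG b).1 h)
  have h4 := g1_ne hG
  have h5 : L.X 1 b ^ (p ^ 2) = L.X 1 b * L.X 1 b ^ (p ^ 2 - 1) := by
    rw [← pow_succ']
    congr 1
    omega
  rw [h5] at h1
  refine mul_left_cancel₀ h0 ?_
  linear_combination -h1

theorem g1_norm (hG : GH p L) {b : 𝓞 F} (hb : ¬ (p : 𝓞 F) ∣ b) : ‖L.X 1 b‖ = ‖L.X 1 1‖ := by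
  refine (pow_left_inj₀ (norm_nonneg _) (norm_nonneg _) (g1_ne hG)).1 ?_
  rw [← norm_pow, ← norm_pow, g1_pow hG hb, g1_pow hG (g1_nd hG)]

theorem g1_s (hG : GH p L) : ‖L.X 1 1‖ ^ (p ^ 2 - 1) = ‖(p : C)‖ ∧ 0 < ‖L.X 1 1‖ ∧ ‖L.X 1 1‖ < 1 := by
  refine ⟨by rw [← norm_pow, g1_pow hG (g1_nd hG)], norm_pos_iff.2 fun h => g1_nd hG ((g1_iff hG 1).1 h),
    hG.ok.small 1 1⟩

theorem g1_p0 (hG : GH p L) : (p : C) ≠ 0 := by
  rw [← g1_pow hG (g1_nd hG)]
  exact pow_ne_zero _ fun h => g1_nd hG ((g1_iff hG 1).1 h)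

end SSR
end

-- from Lib.SSR.G1B
section

open NumberField

namespace SSR

open SSG

variable {F : Type} [Field F] [NumberField F] {C : Type} [NormedField C] [IsUltrametricDist C] {L : LTF F C} {p : ℕ}

/-! Chunk G1B (M). PROOF. r = ‖X 1 1‖, 0 < r < 1 (g1_s). hG.lin 1 (Fin 2) (fun _ => 1): the function a ↦ X_1(1 * a 0 + 1 * a 1) is Fn: take the polynomial Q in two variables with coefficients of norm ≤ 1 for ε = r^2.
So for all a b: ‖X_1(a + b) - Q(X_1 a, X_1 b)‖ ≤ r^2 (1). All values X_1(a) have norm ≤ r (g1_norm, g1_iff). Split Q(x, y) = c0 + c1 x + c2 y + (monomials of degree ≥ 2) where c0, c1, c2 are the coefficients of 1, X 0, X 1: for ‖x‖, ‖y‖ ≤ r the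
last sum has norm ≤ r^2 (MvPolynomial.eval_eq', each monomial m ≠ 0, single 0 1, single 1 1 has degree ≥ 2; ultrametric sum). (1) at (0, 0): X_1(0) = 0: ‖c0‖ ≤ r^2. (1) at (1, 0): ‖s - c1 s‖ ≤ r^2 with s = X_1(1). The same for c2.
For all a b, X_1(a + b) - X_1 a - X_1 b = (X_1(a+b) - Q(X_1 a, X_1 b)) + c0 + (c1 - 1) X_1 a + (c2 - 1) X_1 b + (degree ≥ 2 part): norms ≤ r^2: for the third, ‖(c1 - 1) X_1 a‖ ≤ ‖c1 - 1‖ r = ‖(c1 - 1) s‖ ≤ r^2 . And r^2 < r.
Suggestion: state the splitting as a lemma about MvPolynomial (Fin 2) C. -/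

/-- the linear part of a polynomial in two small variables -/
theorem g1b_split (Q : MvPolynomial (Fin 2) C) (hQ : ∀ m, ‖Q.coeff m‖ ≤ 1) (x : Fin 2 → C) {r : ℝ} (hr : r ≤ 1)
    (hx : ∀ i, ‖x i‖ ≤ r) :
    ‖MvPolynomial.eval x Q - (Q.coeff 0 + Q.coeff (Finsupp.single 0 1) * x 0 +
      Q.coeff (Finsupp.single 1 1) * x 1)‖ ≤ r ^ 2 := by
  classical
  have hr0 : 0 ≤ r := (norm_nonneg _).trans (hx 0)
  set T : (Fin 2 →₀ ℕ) → C := fun m => Q.coeff m * ∏ i, x i ^ m i with hT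
  set S3 : Finset (Fin 2 →₀ ℕ) := {0, Finsupp.single 0 1, Finsupp.single 1 1} with hS3
  have h1 : MvPolynomial.eval x Q = ∑ m ∈ Q.support ∪ S3, T m := by
    rw [MvPolynomial.eval_eq']
    refine Finset.sum_subset Finset.subset_union_left fun m _ hm => ?_
    rw [MvPolynomial.notMem_support_iff.1 hm, zero_mul]
  have n1 : (0 : Fin 2 →₀ ℕ) ≠ Finsupp.single 0 1 := by
    intro h
    have := DFunLike.congr_fun h 0
    simp at this
  have n2 : (0 : Fin 2 →₀ ℕ) ≠ Finsupp.single 1 1 := by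
    intro h
    have := DFunLike.congr_fun h 1
    simp at this
  have n3 : (Finsupp.single 0 1 : Fin 2 →₀ ℕ) ≠ Finsupp.single 1 1 := by
    intro h
    have := DFunLike.congr_fun h 0
    simp at this
  have h2 : ∑ m ∈ S3, T m = Q.coeff 0 + Q.coeff (Finsupp.single 0 1) * x 0 +
      Q.coeff (Finsupp.single 1 1) * x 1 := by
    rw [hS3, Finset.sum_insert, Finset.sum_insert, Finset.sum_singleton]
    · simp [hT, Fin.prod_univ_two, add_assoc]
    · rw [Finset.mem_singleton]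
      exact n3
    · rw [Finset.mem_insert, Finset.mem_singleton]
      rintro (h | h)
      · exact n1 h
      · exact n2 h
  rw [h1, ← Finset.sum_sdiff (Finset.subset_union_right : S3 ⊆ Q.support ∪ S3), h2, add_sub_cancel_right]
  refine IsUltrametricDist.norm_sum_le_of_forall_le_of_nonneg (by positivity) fun m hm => ?_
  have hm3 : m ∉ S3 := (Finset.mem_sdiff.1 hm).2
  rw [hS3, Finset.mem_insert, Finset.mem_insert, Finset.mem_singleton, not_or, not_or] at hm3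
  have hd : 2 ≤ m 0 + m 1 := by
    by_contra hcon
    rcases Nat.lt_or_ge 0 (m 0) with h | h
    · refine hm3.2.1 (Finsupp.ext fun i => ?_)
      fin_cases i
      · simp
        omega
      · simp
        omega
    · rcases Nat.lt_or_ge 0 (m 1) with h' | h'
      · refine hm3.2.2 (Finsupp.ext fun i => ?_)
        fin_cases i
        · simp
          omega
        · simp
          omega
      · refine hm3.1 (Finsupp.ext fun i => ?_)
        fin_cases i
        · simp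
          omega
        · simp
          omega
  rw [hT]
  simp only [Fin.prod_univ_two, norm_mul, norm_pow]
  calc ‖Q.coeff m‖ * (‖x 0‖ ^ m 0 * ‖x 1‖ ^ m 1) ≤ 1 * (r ^ m 0 * r ^ m 1) :=
        mul_le_mul (hQ m) (mul_le_mul (pow_le_pow_left₀ (norm_nonneg _) (hx 0) _)
          (pow_le_pow_left₀ (norm_nonneg _) (hx 1) _) (by positivity) (by positivity)) (by positivity) zero_le_one
    _ = r ^ (m 0 + m 1) := by rw [one_mul, pow_add]
    _ ≤ r ^ 2 := pow_le_pow_of_le_one hr0 hr hd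

theorem g1b_max {x y : C} {ε : ℝ} (hx : ‖x‖ ≤ ε) (hy : ‖y‖ ≤ ε) : ‖x + y‖ ≤ ε :=
  (IsUltrametricDist.norm_add_le_max x y).trans (max_le hx hy)

theorem g1_add (hG : GH p L) (a b : 𝓞 F) : ‖L.X 1 (a + b) - L.X 1 a - L.X 1 b‖ < ‖L.X 1 1‖ := by
  obtain ⟨-, hr0, hr1⟩ := g1_s hG
  obtain ⟨r, hr⟩ : ∃ r, r = ‖L.X 1 1‖ := ⟨_, rfl⟩
  rw [← hr] at hr0 hr1 ⊢
  have hle : ∀ c, ‖L.X 1 c‖ ≤ r := by
    intro c
    by_cases hc : (p : 𝓞 F) ∣ c
    · rw [(g1_iff hG c).2 hc, norm_zero]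
      exact hr0.le
    · rw [g1_norm hG hc, hr]
  obtain ⟨Q, hQ, hQ'⟩ := hG.lin 1 (Fin 2) (fun _ => 1) (r ^ 2) (by positivity)
  obtain ⟨c0, hc0⟩ : ∃ c0, c0 = Q.coeff 0 := ⟨_, rfl⟩
  obtain ⟨c1, hc1⟩ : ∃ c1, c1 = Q.coeff (Finsupp.single 0 1) := ⟨_, rfl⟩
  obtain ⟨c2, hc2⟩ : ∃ c2, c2 = Q.coeff (Finsupp.single 1 1) := ⟨_, rfl⟩
  have key : ∀ a b : 𝓞 F, ‖L.X 1 (a + b) - (c0 + c1 * L.X 1 a + c2 * L.X 1 b)‖ ≤ r ^ 2 := by
    intro a b
    have h1 := hQ' ![a, b]
    have h2 := g1b_split Q hQ (fun i => L.X 1 (![a, b] i)) hr1.le (fun i => hle _)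
    rw [← hc0, ← hc1, ← hc2] at h2
    have h3 := g1b_max h1 h2
    rw [sub_add_sub_cancel] at h3
    simpa [Fin.sum_univ_two] using h3
  have z0 : ‖c0‖ ≤ r ^ 2 := by
    have h1 := key 0 0
    rw [add_zero, g1_zero hG, mul_zero, mul_zero, add_zero, add_zero, zero_sub, norm_neg] at h1
    exact h1
  have z1 : ‖(c1 - 1) * L.X 1 1‖ ≤ r ^ 2 := by
    have h1 := key 1 0
    rw [add_zero, g1_zero hG, mul_zero, add_zero] at h1
    have h2 := g1b_max h1 z0
    have h3 : L.X 1 1 - (c0 + c1 * L.X 1 1) + c0 = -((c1 - 1) * L.X 1 1) := by ring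
    rw [h3, norm_neg] at h2
    exact h2
  have z2 : ‖(c2 - 1) * L.X 1 1‖ ≤ r ^ 2 := by
    have h1 := key 0 1
    rw [zero_add, g1_zero hG, mul_zero, add_zero] at h1
    have h2 := g1b_max h1 z0
    have h3 : L.X 1 1 - (c0 + c2 * L.X 1 1) + c0 = -((c2 - 1) * L.X 1 1) := by ring
    rw [h3, norm_neg] at h2
    exact h2
  have z3 : ∀ c : C, ‖c * L.X 1 1‖ ≤ r ^ 2 → ∀ d, ‖c * L.X 1 d‖ ≤ r ^ 2 := by
    intro c hc d
    refine le_trans ?_ hc
    rw [norm_mul, norm_mul, ← hr]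
    exact mul_le_mul_of_nonneg_left (hle d) (norm_nonneg _)
  have h4 : L.X 1 (a + b) - L.X 1 a - L.X 1 b = (L.X 1 (a + b) - (c0 + c1 * L.X 1 a + c2 * L.X 1 b)) + c0 +
      (c1 - 1) * L.X 1 a + (c2 - 1) * L.X 1 b := by ring
  rw [h4]
  refine lt_of_le_of_lt (g1b_max (g1b_max (g1b_max (key a b) z0) (z3 _ z1 a)) (z3 _ z2 b)) ?_
  nlinarith

end SSR
end

-- from Lib.SSR.G2
section

open NumberField

namespace SSR

open SSG

variable {F : Type} [Field F] [NumberField F] {C : Type} [NormedField C] [IsUltrametricDist C] {L : LTF F C} {p : ℕ}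

/-! Chunk G2 (M). PROOF. tau L b = X_1(b) / X_1(1), X_1(1) ≠ 0 (g1_iff, g1_nd). g2_X: field. g2_zero: g1_iff. g2_root: quotient of the two g1_pow (p ≠ 0: g1_p0). g2_eq: ok.inj 1. g2_le: norm 0 or 1 (g1_norm). g2_add: g1_add divided by ‖X_1(1)‖.
g2_card: T has p^2 elements: x ↦ its class is a bijection of T onto 𝓞 F / (p^1), which has absNorm (span {p}) = p^2 elements (Ideal.absNorm_apply, Submodule.cardQuot, H55P.pt8_norm or Algebra.norm_algebraMap: norm ℤ (p) = p^finrank, finrank ℤ (𝓞 F) = finrank ℚ F: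
RingOfIntegers.rank; see SSG/Z or SSG/S for a lemma card of Rep). g2_bij: maps T into the roots of z^(p^2) = z (g2_zero, g2_root), injective (g2_eq and uniqueness in Rep), the set of roots is finite with at most p^2 elements (nonzero polynomial X^(p^2) - X of degree p^2:
Polynomial.card_roots'): a set of p^2 roots is everything (Finset.eq_of_subset_of_card_le). g2_surj: g2_bij for some T (existence of a Rep: exists_Rep or choose representatives; or use finiteness of the quotient directly).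
g2_sum: n = 0: sum of 1 = card = p^2. n ≥ 1: by g2_bij the sum is the sum of z^n over the roots of z^(p^2) = z (Finset.sum_bij / Set.BijOn to the finset); if p^2 - 1 divides n every nonzero z has z^n = 1 and 0^n = 0: sum = p^2 - 1. Otherwise there is b, p not dividing b, with
(tau b)^n ≠ 1: else the p^2 - 1 nonzero values are roots of X^n' - 1 with n' = gcd(n, p^2 - 1) < p^2 - 1 (z^n = 1 and z^(p^2-1) = 1 imply z^n' = 1: orderOf divides both), contradiction. z ↦ (tau b) z permutes the roots of z^(p^2) = z, so S = (tau b)^n S and S = 0. -/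

theorem g2_s0 (hG : GH p L) : L.X 1 1 ≠ 0 := fun h => g1_nd hG ((g1_iff hG 1).1 h)

theorem g2_X (hG : GH p L) (b : 𝓞 F) : L.X 1 b = tau L b * L.X 1 1 := by
  unfold tau
  rw [div_mul_cancel₀ _ (g2_s0 hG)]

theorem g2_zero (hG : GH p L) {b : 𝓞 F} : tau L b = 0 ↔ (p : 𝓞 F) ∣ b := by
  rw [← g1_iff hG b]
  unfold tau
  rw [div_eq_zero_iff]
  exact ⟨fun h => h.resolve_right (g2_s0 hG), fun h => Or.inl h⟩

theorem g2_root (hG : GH p L) {b : 𝓞 F} (hb : ¬ (p : 𝓞 F) ∣ b) : tau L b ^ (p ^ 2 - 1) = 1 := by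
  unfold tau
  rw [div_pow, g1_pow hG hb, g1_pow hG (g1_nd hG), div_self (g1_p0 hG)]

theorem g2_eq (hG : GH p L) {a b : 𝓞 F} : tau L a = tau L b ↔ (p : 𝓞 F) ∣ a - b := by
  have h := hG.ok.inj 1 a b
  rw [pow_one] at h
  rw [← h]
  unfold tau
  constructor
  · intro h1
    exact (div_left_inj' (g2_s0 hG)).1 h1
  · intro h1
    rw [h1]

theorem g2_le (hG : GH p L) (b : 𝓞 F) : ‖tau L b‖ ≤ 1 := by
  by_cases hb : (p : 𝓞 F) ∣ b
  · rw [(g2_zero hG).2 hb, norm_zero]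
    exact zero_le_one
  · unfold tau
    rw [norm_div, g1_norm hG hb, div_self (norm_ne_zero_iff.2 (g2_s0 hG))]

theorem g2_add (hG : GH p L) (a b : 𝓞 F) : ‖tau L (a + b) - tau L a - tau L b‖ < 1 := by
  unfold tau
  rw [← sub_div, ← sub_div, norm_div, div_lt_one (norm_pos_iff.2 (g2_s0 hG))]
  exact g1_add hG a b

theorem g2_quot (hG : GH p L) : Nat.card (𝓞 F ⧸ Ideal.span {(p : 𝓞 F)}) = p ^ 2 := by
  have h1 : Nat.card (𝓞 F ⧸ Ideal.span {(p : 𝓞 F)}) = Ideal.absNorm (Ideal.span {(p : 𝓞 F)}) := rfl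
  rw [h1, Ideal.absNorm_span_singleton]
  have h2 : (p : 𝓞 F) = algebraMap ℤ (𝓞 F) (p : ℤ) := by simp
  rw [h2, Algebra.norm_algebraMap_of_basis (RingOfIntegers.basis F), Int.natAbs_pow, Int.natAbs_natCast,
    ← Module.finrank_eq_card_basis (RingOfIntegers.basis F), RingOfIntegers.rank, hG.deg]

theorem g2_card (hG : GH p L) {T : Finset (𝓞 F)} (hT : Rep p 1 T) : T.card = p ^ 2 := by
  classical
  rw [← g2_quot hG, ← Set.ncard_coe_finset T, ← Nat.card_coe_set_eq]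
  refine Nat.card_congr (Equiv.ofBijective (fun a : (T : Set (𝓞 F)) => Ideal.Quotient.mk (Ideal.span {(p : 𝓞 F)}) a.1) ⟨?_, ?_⟩)
  · rintro ⟨a, ha⟩ ⟨b, hb⟩ h
    simp only at h
    rw [Ideal.Quotient.eq, Ideal.mem_span_singleton] at h
    obtain ⟨c, -, hc⟩ := hT a
    have h1 := hc a ⟨ha, by rw [sub_self]; exact dvd_zero _⟩
    have h2 := hc b ⟨hb, by rw [pow_one]; exact h⟩
    exact Subtype.ext (h1.trans h2.symm)
  · intro y
    obtain ⟨x, rfl⟩ := Ideal.Quotient.mk_surjective y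
    obtain ⟨c, ⟨hc, hxc⟩, -⟩ := hT x
    refine ⟨⟨c, hc⟩, ?_⟩
    simp only
    rw [pow_one] at hxc
    rw [eq_comm, Ideal.Quotient.eq, Ideal.mem_span_singleton]
    exact hxc

theorem g2_pos (hG : GH p L) : 0 < p ^ 2 - 1 := by
  have h1 := hG.three
  have h2 : 3 * 3 ≤ p * p := Nat.mul_le_mul h1 h1
  rw [sq]
  omega

theorem g2_q (hG : GH p L) : p ^ 2 = (p ^ 2 - 1) + 1 := by
  have h1 := g2_pos hG
  omega

/-- the image of the representatives is the set of the roots -/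
theorem g2_img (hG : GH p L) {T : Finset (𝓞 F)} (hT : Rep p 1 T) : ∃ R : Finset C, R.card = p ^ 2 ∧
    (∀ z, z ∈ R ↔ z ^ (p ^ 2) = z) ∧ (∀ z, z ∈ R ↔ ∃ b ∈ T, tau L b = z) ∧
    (∀ a ∈ T, ∀ b ∈ T, tau L a = tau L b → a = b) ∧ ∀ f : C → C, ∑ b ∈ T, f (tau L b) = ∑ z ∈ R, f z := by
  classical
  have hinj : ∀ a ∈ T, ∀ b ∈ T, tau L a = tau L b → a = b := by
    intro a ha b hb h
    have h0 := (g2_eq hG).1 h
    obtain ⟨c, -, hc⟩ := hT a
    have h1 := hc a ⟨ha, by rw [sub_self]; exact dvd_zero _⟩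
    have h2 := hc b ⟨hb, by rw [pow_one]; exact h0⟩
    exact h1.trans h2.symm
  have hcard : (T.image (tau L)).card = p ^ 2 := by
    rw [Finset.card_image_of_injOn (fun a ha b hb h => hinj a ha b hb h), g2_card hG hT]
  have hmap : ∀ b : 𝓞 F, tau L b ^ (p ^ 2) = tau L b := by
    intro b
    by_cases hb : (p : 𝓞 F) ∣ b
    · rw [(g2_zero hG).2 hb, zero_pow]
      have := g2_q hG
      omega
    · rw [g2_q hG, pow_succ, g2_root hG hb, one_mul]
  obtain ⟨P, hP⟩ : ∃ P : Polynomial C, P = Polynomial.X ^ (p ^ 2) - Polynomial.X := ⟨_, rfl⟩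
  have hp1 : 1 < p ^ 2 := by
    have := g2_pos hG
    omega
  have hdeg : P.natDegree = p ^ 2 := by
    rw [hP]
    exact FiniteField.X_pow_card_sub_X_natDegree_eq C hp1
  have hP0 : P ≠ 0 := by
    intro h
    rw [h, Polynomial.natDegree_zero] at hdeg
    omega
  have hroots : ∀ z, z ∈ P.roots.toFinset ↔ z ^ (p ^ 2) = z := by
    intro z
    rw [Multiset.mem_toFinset, Polynomial.mem_roots hP0, hP]
    simp [sub_eq_zero]
  have hsub : T.image (tau L) ⊆ P.roots.toFinset := by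
    intro z hz
    obtain ⟨b, -, rfl⟩ := Finset.mem_image.1 hz
    exact (hroots _).2 (hmap b)
  have heq : T.image (tau L) = P.roots.toFinset := by
    refine Finset.eq_of_subset_of_card_le hsub ?_
    rw [hcard, ← hdeg]
    exact (Multiset.toFinset_card_le _).trans (Polynomial.card_roots' P)
  refine ⟨T.image (tau L), hcard, fun z => ?_, fun z => ?_, hinj, fun f => ?_⟩
  · rw [heq]
    exact hroots z
  · rw [Finset.mem_image]
  · rw [Finset.sum_image (fun a ha b hb h => hinj a ha b hb h)]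




theorem g2_sum (hG : GH p L) {T : Finset (𝓞 F)} (hT : Rep p 1 T) (n : ℕ) :
    ∑ b ∈ T, tau L b ^ n = if n = 0 then (p : C) ^ 2 else if (p ^ 2 - 1) ∣ n then (p : C) ^ 2 - 1 else 0 := by
  classical
  obtain ⟨R, hRc, hR, -, -, hsum⟩ := g2_img hG hT
  have hq0 := g2_pos hG
  have hq := g2_q hG
  rw [hsum (fun z => z ^ n)]
  by_cases hn : n = 0
  · rw [if_pos hn, hn]
    simp only [pow_zero, Finset.sum_const, nsmul_eq_mul, mul_one]
    rw [hRc]
    push_cast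
    rfl
  rw [if_neg hn]
  have h0R : (0 : C) ∈ R := (hR 0).2 (zero_pow (by omega))
  have hunit : ∀ z ∈ R.erase 0, z ^ (p ^ 2 - 1) = 1 := by
    intro z hz
    obtain ⟨hz0, hzR⟩ := Finset.mem_erase.1 hz
    have h1 := (hR z).1 hzR
    rw [hq, pow_succ] at h1
    exact mul_right_cancel₀ hz0 (by rw [one_mul]; exact h1)
  have hEc : (R.erase 0).card = p ^ 2 - 1 := by rw [Finset.card_erase_of_mem h0R, hRc]
  split_ifs with hd
  · obtain ⟨k, hk⟩ := hd
    rw [← Finset.add_sum_erase R (fun z => z ^ n) h0R]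
    have h1 : ∀ z ∈ R.erase 0, z ^ n = 1 := by
      intro z hz
      rw [hk, pow_mul, hunit z hz, one_pow]
    rw [Finset.sum_congr rfl h1, Finset.sum_const, hEc, zero_pow hn, zero_add, nsmul_eq_mul, mul_one,
      Nat.cast_sub (by omega)]
    push_cast
    rfl
  · obtain ⟨u, hu, hun⟩ : ∃ u ∈ R.erase 0, u ^ n ≠ 1 := by
      by_contra hcon
      push Not at hcon
      obtain ⟨m, hm⟩ : ∃ m : ℕ, m = Nat.gcd n (p ^ 2 - 1) := ⟨_, rfl⟩
      have hm0 : 0 < m := by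
        rw [hm]
        exact Nat.gcd_pos_of_pos_right _ hq0
      have hmd : m ∣ n := by
        rw [hm]
        exact Nat.gcd_dvd_left _ _
      have hmle : m ≤ p ^ 2 - 1 := by
        rw [hm]
        exact Nat.gcd_le_right _ hq0
      have hsubset : R.erase 0 ⊆ (Polynomial.nthRoots m (1 : C)).toFinset := by
        intro z hz
        rw [Multiset.mem_toFinset, Polynomial.mem_nthRoots hm0, hm]
        exact pow_gcd_eq_one.2 ⟨hcon z hz, hunit z hz⟩
      have h1 := (Finset.card_le_card hsubset).trans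
        ((Multiset.toFinset_card_le _).trans (Polynomial.card_nthRoots m (1 : C)))
      rw [hEc] at h1
      have h2 : m = p ^ 2 - 1 := le_antisymm hmle h1
      rw [h2] at hmd
      exact hd hmd
    obtain ⟨hu0, huR⟩ := Finset.mem_erase.1 hu
    have hup := (hR u).1 huR
    have hmul : ∑ z ∈ R, z ^ n = ∑ z ∈ R, (u * z) ^ n := by
      refine (Finset.sum_nbij' (fun z => u * z) (fun z => u⁻¹ * z) ?_ ?_ ?_ ?_ ?_).symm
      · intro z hz
        rw [hR, mul_pow, hup, (hR z).1 hz]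
      · intro z hz
        rw [hR, mul_pow, inv_pow, hup, (hR z).1 hz]
      · intro z _
        rw [← mul_assoc, inv_mul_cancel₀ hu0, one_mul]
      · intro z _
        rw [← mul_assoc, mul_inv_cancel₀ hu0, one_mul]
      · intro z _
        rfl
    have h1 : ∑ z ∈ R, (u * z) ^ n = u ^ n * ∑ z ∈ R, z ^ n := by
      rw [Finset.mul_sum]
      exact Finset.sum_congr rfl fun z _ => mul_pow _ _ _
    rw [h1] at hmul
    have h2 : (1 - u ^ n) * ∑ z ∈ R, z ^ n = 0 := by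
      rw [sub_mul, one_mul, ← hmul, sub_self]
    exact (mul_eq_zero.1 h2).resolve_left (sub_ne_zero.2 (Ne.symm hun))

end SSR
end
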