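import Mathlib
import Pool.Agent.Lib.H1M.PP2.D_H55P_Sel
import Pool.Agent.Lib.H1M.PP2.M005
import Pool.Agent.Lib.H1M.PP2.M006
import Pool.Agent.Lib.H1M.PP2.M019
import Pool.Agent.Lib.H1M.PP2.M020
import Pool.Agent.Lib.H1M.PP2.M031
import Pool.Agent.Lib.H1M.PP2.M054
import Pool.Agent.Lib.H1M.PP2.M062

/-! Merged copies (to shorten the build) of Lib.H16S.G0, Lib.H16S.G0C, Lib.SSG.Z.G0, Lib.SSG.Z.G1, Lib.SSG.Z.G2, Lib.SSG.Z.G3, Lib.SSG.F.A1, Lib.SSG.F.A4, Lib.SSG.F.A2, Lib.SSG.F.A4B. -/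

-- from Lib.H16S.G0
section

/-! # H16S, chunk G0: multiples of points by division polynomials -/

open WeierstrassCurve Polynomial

namespace H16S

open H35P (WAB Ker tt)
open H55K (xc yc)

variable {k : Type} [Field k] [DecidableEq k] {W : WeierstrassCurve k} [W.IsShortNF]

omit [DecidableEq k] in
/-- Chunk G0a (S). The coordinates of the library H16C agree with those of H55K (cases on P). -/
theorem xc_eq' (P : W.toAffine.Point) : H16C.xc P = xc P ∧ H16C.yc P = yc P := by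
  cases P with
  | zero => exact ⟨rfl, rfl⟩
  | some x y h => exact ⟨rfl, rfl⟩

/-- Chunk G0b (M). The x-coordinate of n P. PROOF. H16C.psi_main (N = n + 1, k = n) with H16C.psi_sq, psi_phi (Lib/H16C/D0.lean); compare H16C.xc_smul in T1.lean, whose proof needs only 2 ≠ 0. -/
theorem xc_mul (h2 : (2 : k) ≠ 0) {P : W.toAffine.Point} (n : ℕ) (hn : 0 < n) (hP : ∀ j : ℕ, 0 < j → j ≤ n → j • P ≠ 0) :
    (W.ΨSq n).eval (xc P) ≠ 0 ∧ xc (n • P) * (W.ΨSq n).eval (xc P) = (W.Φ n).eval (xc P) := by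
  haveI : (W.toAffine).IsShortNF := inferInstanceAs W.IsShortNF
  have h0 : P ≠ 0 := by
    have := hP 1 (by norm_num) hn
    rwa [one_nsmul] at this
  have hE := H16C.eqn (W := W.toAffine) h0
  obtain ⟨h3, h4⟩ := H16C.psi_main (W := W.toAffine) h2 h0 (n + 1) (fun j h1 h3 => hP j h1 (Nat.lt_succ_iff.mp h3)) n hn
    (Nat.lt_succ_self n)
  rw [← (xc_eq' P).1, ← (xc_eq' (n • P)).1]
  rw [← H16C.psi_sq W.toAffine hE, ← H16C.psi_phi W.toAffine hE]
  refine ⟨pow_ne_zero 2 h3, ?_⟩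
  linear_combination -h4

/-- Chunk G0d (S/M). A point of exact order n is a zero of ΨSq n: H16C.psi_order with H16C.psi_sq. -/
theorem psi_zero (h2 : (2 : k) ≠ 0) {P : W.toAffine.Point} (hP : P ≠ 0) (n : ℕ) (hn : 2 ≤ n)
    (h : ∀ j : ℕ, 0 < j → j < n → j • P ≠ 0) (h0 : n • P = 0) : (W.ΨSq n).eval (xc P) = 0 := by
  haveI : (W.toAffine).IsShortNF := inferInstanceAs W.IsShortNF
  have hE := H16C.eqn (W := W.toAffine) hP
  have h3 := H16C.psi_order (W := W.toAffine) h2 hP n hn h h0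
  rw [← (xc_eq' P).1, ← H16C.psi_sq W.toAffine hE, h3]
  ring

end H16S
end

-- from Lib.H16S.G0C
section

/-! # H16S, chunk G0C: multiples of points by division polynomials -/

open WeierstrassCurve Polynomial

namespace H16S

open H35P (WAB Ker tt)
open H55K (xc yc)

variable {k : Type} [Field k] [DecidableEq k] {W : WeierstrassCurve k} [W.IsShortNF]

/-- Chunk G0c (M). The y-coordinate of n P for odd n ≥ 3. PROOF. x = xc P, y = yc P ≠ 0 (2 P ≠ 0), g j = H16C.psi W x y j, X j = xc (j P). xc P ≠ X n (H16C.xc_ne or psi_main: X₁ - X n = g (n+1) g (n-1)/g n², g j ≠ 0 for 0 < j ≤ n + 1).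
H16C.xc_sub_sub_add for P' = n P and Q' = P: (X n - X 1)² (X (n-1) - X (n+1)) = 4 y (yc (n P)) (up to the sign of P' - Q' = (n-1) P, P' + Q' = (n+1) P), and X (n-1) - X (n+1) = (X 1 - X (n+1)) - (X 1 - X (n-1)) = g(n+2) g n/g(n+1)² - g n g(n-2)/g(n-1)². So
4 y yc(nP) g n³ = g(n+2) g(n-1)² - g(n-2) g(n+1)². Now n odd: g j = (preΨ j)(x) for j odd, g j = 2 y (preΨ j)(x) for j even (unfold H16C.psi, normEDS, H16C.D0_pre): divide by 4 y² . -/
theorem yc_mul (h2 : (2 : k) ≠ 0) {P : W.toAffine.Point} (n : ℕ) (hn : 3 ≤ n) (ho : Odd n)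
    (hP : ∀ j : ℕ, 0 < j → j ≤ n + 2 → j • P ≠ 0) :
    yc (n • P) * (W.preΨ n).eval (xc P) ^ 3 = yc P *
      ((W.preΨ (n + 2)).eval (xc P) * (W.preΨ (n - 1)).eval (xc P) ^ 2 -
        (W.preΨ (n - 2)).eval (xc P) * (W.preΨ (n + 1)).eval (xc P) ^ 2) := by
  haveI : (W.toAffine).IsShortNF := inferInstanceAs W.IsShortNF
  have h0 : P ≠ 0 := by
    have := hP 1 (by norm_num) (by omega)
    rwa [one_nsmul] at this
  have hnP : n • P ≠ 0 := hP n (by omega) (by omega)
  have hE := H16C.eqn (W := W.toAffine) h0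
  have hy : H16C.yc P ≠ 0 := by
    intro h
    exact hP 2 (by norm_num) (by omega) ((H16C.two_smul_eq_zero_iff h2 h0).mpr h)
  have hmain := fun (j : ℕ) (hj : 0 < j) (hjn : j < n + 3) =>
    H16C.psi_main (W := W.toAffine) h2 h0 (n + 3) (fun i h1 h3 => hP i h1 (by omega)) j hj hjn
  rw [← (xc_eq' P).1, ← (xc_eq' P).2, ← (xc_eq' (n • P)).2]
  have hne : Even ((n : ℤ) + 1) := by
    rcases ho with ⟨m, hm⟩
    exact ⟨m + 1, by rw [hm]; push_cast; ring⟩
  have hne' : Even ((n : ℤ) - 1) := by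
    rcases ho with ⟨m, hm⟩
    exact ⟨m, by rw [hm]; push_cast; ring⟩
  have hno : ¬ Even (n : ℤ) := by
    intro h
    rw [Int.even_add_one] at hne
    exact hne h
  have hno2 : ¬ Even ((n : ℤ) + 2) := by
    intro h
    apply hno
    have := h.sub (even_two (α := ℤ))
    simpa using this
  have hno2' : ¬ Even ((n : ℤ) - 2) := by
    intro h
    apply hno
    have := h.add (even_two (α := ℤ))
    simpa using this
  have gn : H16C.psi W.toAffine (H16C.xc P) (H16C.yc P) n = (W.preΨ n).eval (H16C.xc P) := by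
    rw [H16C.psi, normEDS, H16C.D0_pre W.toAffine hE, if_neg hno, mul_one]
  have gn2 : H16C.psi W.toAffine (H16C.xc P) (H16C.yc P) (n + 2) = (W.preΨ (n + 2)).eval (H16C.xc P) := by
    rw [H16C.psi, normEDS, H16C.D0_pre W.toAffine hE, if_neg hno2, mul_one]
  have gn2' : H16C.psi W.toAffine (H16C.xc P) (H16C.yc P) (n - 2) = (W.preΨ (n - 2)).eval (H16C.xc P) := by
    rw [H16C.psi, normEDS, H16C.D0_pre W.toAffine hE, if_neg hno2', mul_one]
  have gn1 : H16C.psi W.toAffine (H16C.xc P) (H16C.yc P) (n + 1) =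
      (W.preΨ (n + 1)).eval (H16C.xc P) * (2 * H16C.yc P) := by
    rw [H16C.psi, normEDS, H16C.D0_pre W.toAffine hE, if_pos hne]
  have gn1' : H16C.psi W.toAffine (H16C.xc P) (H16C.yc P) (n - 1) =
      (W.preΨ (n - 1)).eval (H16C.xc P) * (2 * H16C.yc P) := by
    rw [H16C.psi, normEDS, H16C.D0_pre W.toAffine hE, if_pos hne']
  obtain ⟨a1, a2⟩ := hmain n (by omega) (by omega)
  obtain ⟨b1, b2⟩ := hmain (n + 1) (by omega) (by omega)
  obtain ⟨c1, c2⟩ := hmain (n - 1) (by omega) (by omega)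
  have e1 : (((n + 1 : ℕ) : ℤ) + 1) = (n : ℤ) + 2 := by push_cast; ring
  have e2 : (((n + 1 : ℕ) : ℤ) - 1) = (n : ℤ) := by push_cast; ring
  have e3 : (((n - 1 : ℕ) : ℤ) + 1) = (n : ℤ) := by omega
  have e4 : (((n - 1 : ℕ) : ℤ) - 1) = (n : ℤ) - 2 := by omega
  have e5 : ((n + 1 : ℕ) : ℤ) = (n : ℤ) + 1 := by push_cast; ring
  have e6 : ((n - 1 : ℕ) : ℤ) = (n : ℤ) - 1 := by omega
  rw [e1, e2, e5] at b2
  rw [e5] at b1
  rw [e3, e4, e6] at c2
  rw [e6] at c1
  have hxne : H16C.xc (n • P) ≠ H16C.xc P := by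
    intro h
    have h' : H16C.xc P - H16C.xc (n • P) = 0 := by rw [h, sub_self]
    rw [h', mul_zero] at a2
    exact mul_ne_zero b1 c1 a2.symm
  have hadd := H16C.xc_sub_sub_add (W := W.toAffine) hnP h0 hxne
  have hs : n • P - P = (n - 1) • P := by
    have : n • P = (n - 1) • P + P := by
      rw [← succ_nsmul, Nat.sub_add_cancel (by omega : 1 ≤ n)]
    rw [this, add_sub_cancel_right]
  have hs' : n • P + P = (n + 1) • P := (succ_nsmul P n).symm
  rw [hs, hs'] at hadd
  have key : 4 * H16C.yc P * (H16C.yc (n • P)) * H16C.psi W.toAffine (H16C.xc P) (H16C.yc P) n ^ 3 =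
      H16C.psi W.toAffine (H16C.xc P) (H16C.yc P) (n + 2) *
        H16C.psi W.toAffine (H16C.xc P) (H16C.yc P) (n - 1) ^ 2 -
      H16C.psi W.toAffine (H16C.xc P) (H16C.yc P) (n - 2) *
        H16C.psi W.toAffine (H16C.xc P) (H16C.yc P) (n + 1) ^ 2 := by
    apply mul_left_cancel₀ a1
    generalize H16C.psi W.toAffine (H16C.xc P) (H16C.yc P) (n + 2) = u2 at *
    generalize H16C.psi W.toAffine (H16C.xc P) (H16C.yc P) (n - 2) = v2 at *
    generalize H16C.psi W.toAffine (H16C.xc P) (H16C.yc P) (n + 1) = u1 at *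
    generalize H16C.psi W.toAffine (H16C.xc P) (H16C.yc P) (n - 1) = v1 at *
    generalize H16C.psi W.toAffine (H16C.xc P) (H16C.yc P) n = g at *
    generalize H16C.xc (n • P) = X at *
    generalize H16C.xc ((n + 1) • P) = Xp at *
    generalize H16C.xc ((n - 1) • P) = Xm at *
    generalize H16C.yc (n • P) = Y at *
    generalize H16C.xc P = X1 at *
    generalize H16C.yc P = y at *
    linear_combination (-g ^ 4) * hadd + (Xm - Xp) * (g ^ 2 * (X1 - X) + u1 * v1) * a2 + v1 ^ 2 * b2 - u1 ^ 2 * c2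
  rw [gn, gn2, gn2', gn1, gn1'] at key
  have h4 : (4 : k) ≠ 0 := by
    have : (4 : k) = 2 * 2 := by norm_num
    rw [this]
    exact mul_ne_zero h2 h2
  apply mul_left_cancel₀ (mul_ne_zero h4 hy)
  linear_combination key

end H16S
end

-- from Lib.SSG.Z.G0
section

/-! # SSG/Z, module GAL: the closure of F in the algebraic closure of the p-adic numbers and its Galois group: definitions -/

open NumberField

namespace SSG

/-- The closure of F: the field generated by F over the p-adic numbers. -/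
noncomputable def kF {F : Type} [Field F] {p : ℕ} [Fact p.Prime] (i : F →+* PadicAlgCl p) : IntermediateField ℚ_[p] (PadicAlgCl p) :=
  IntermediateField.adjoin ℚ_[p] (Set.range i)

/-- The group of the automorphisms over the closure of F. -/
def GF {F : Type} [Field F] {p : ℕ} [Fact p.Prime] (i : F →+* PadicAlgCl p) : Subgroup (RingAut (PadicAlgCl p)) where
  carrier := {σ | ∀ x ∈ kF i, σ x = x}
  one_mem' := fun _ _ => rfl
  mul_mem' := by
    intro σ τ hσ hτ x hx
    show σ (τ x) = x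
    rw [hτ x hx, hσ x hx]
  inv_mem' := by
    intro σ hσ x hx
    have h1 := hσ x hx
    show σ.symm x = x
    rw [RingEquiv.symm_apply_eq]
    exact h1.symm


end SSG
end

-- from Lib.SSG.Z.G1
section

/-! Chunk G1 (M). F is dense in its closure, and the values are powers of |p|, p inert.
kF_dense: kF i = adjoin of the range of i; all elements are algebraic, so it is the subalgebra Algebra.adjoin ℚ_[p] (range i) (IntermediateField.adjoin_toSubalgebra_of_integral or similar / IntermediateField.adjoin_algebraic_toSubalgebra). Algebra.adjoin_induction for the property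
D x = for all ε > 0 there is y in F with ‖x - i y‖ < ε: range i clear; ℚ_[p]: the rational numbers are dense (Padic.rat_dense, norm_extends, i r = r for rational r); sums and products (ultrametric or ordinary norm estimates; i y bounded).
norm_F: y in F, y ≠ 0: y = a/b with a, b in 𝓞 F (IsFractionRing.div_surjective). For a ≠ 0 in 𝓞 F: a = p^k a', p not dividing a' (multiplicity is finite, FiniteMultiplicity / WfDvdMonoid.max_power_factor), a' is a unit modulo the maximal ideal (p) (IsPrime nonzero: IsMaximal in a Dedekind domain): a' b' = 1 + p c. Elements of 𝓞 F have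
‖i _‖ ≤ 1 (integral over ℤ: a root of a monic polynomial with integral coefficients, ultrametric; for instance the set ‖x‖ ≤ 1 is a valuation ring, integrally closed). ‖p i c‖ < 1 so ‖1 + p i c‖ = 1 = ‖i a'‖ ‖i b'‖, hence ‖i a'‖ = 1.
kF_val: x in kF i, x ≠ 0: choose y with ‖x - i y‖ < ‖x‖, then ‖i y‖ = ‖x‖ (ultrametric), y ≠ 0, norm_F. -/

open NumberField

namespace SSG

theorem g1_norm_ext {p : ℕ} [Fact p.Prime] (r : ℚ_[p]) : ‖algebraMap ℚ_[p] (PadicAlgCl p) r‖ = ‖r‖ := PadicAlgCl.norm_extends p r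

theorem kF_dense {F : Type} [Field F] [NumberField F] {p : ℕ} [Fact p.Prime] (i : F →+* PadicAlgCl p) (x : PadicAlgCl p) (hx : x ∈ kF i)
    {ε : ℝ} (hε : 0 < ε) : ∃ y : F, ‖x - i y‖ < ε := by
  have h1 : x ∈ Algebra.adjoin ℚ_[p] (Set.range i) := by
    rw [← IntermediateField.adjoin_toSubalgebra_of_isAlgebraic (F := ℚ_[p]) (S := Set.range i) fun y _ => Algebra.IsAlgebraic.isAlgebraic y]
    exact hx
  have h2 : ∀ ε : ℝ, 0 < ε → ∃ y : F, ‖x - i y‖ < ε := by
    clear hx
    induction h1 using Algebra.adjoin_induction with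
    | mem x hx =>
      intro ε hε
      obtain ⟨y, rfl⟩ := hx
      exact ⟨y, by rw [sub_self, norm_zero]; exact hε⟩
    | algebraMap r =>
      intro ε hε
      obtain ⟨q, hq⟩ := Padic.rat_dense p r hε
      refine ⟨(q : F), ?_⟩
      have h3 : i (q : F) = algebraMap ℚ_[p] (PadicAlgCl p) (q : ℚ_[p]) := by
        rw [map_ratCast, map_ratCast]
      rw [h3, ← map_sub, g1_norm_ext]
      exact hq
    | add x y _ _ hx hy =>
      intro ε hε
      obtain ⟨a, ha⟩ := hx (ε / 2) (half_pos hε)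
      obtain ⟨b, hb⟩ := hy (ε / 2) (half_pos hε)
      refine ⟨a + b, ?_⟩
      have h3 : x + y - i (a + b) = (x - i a) + (y - i b) := by rw [map_add]; ring
      rw [h3]
      exact (norm_add_le _ _).trans_lt (by linarith)
    | mul x y _ _ hx hy =>
      intro ε hε
      have hd1 : 0 < min 1 (ε / (2 * (‖x‖ + ‖y‖ + 1))) := by positivity
      set δ := min 1 (ε / (2 * (‖x‖ + ‖y‖ + 1))) with hδ
      obtain ⟨a, ha⟩ := hx δ hd1
      obtain ⟨b, hb⟩ := hy δ hd1
      refine ⟨a * b, ?_⟩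
      have hδ1 : δ ≤ 1 := min_le_left _ _
      have hδ2 : δ * (2 * (‖x‖ + ‖y‖ + 1)) ≤ ε := by
        have h4 : δ ≤ ε / (2 * (‖x‖ + ‖y‖ + 1)) := min_le_right _ _
        rwa [le_div_iff₀ (by positivity)] at h4
      have h3 : x * y - i (a * b) = x * (y - i b) + y * (x - i a) - (x - i a) * (y - i b) := by rw [map_mul]; ring
      rw [h3]
      have h5 : ‖x * (y - i b) + y * (x - i a) - (x - i a) * (y - i b)‖ ≤
          ‖x‖ * ‖y - i b‖ + ‖y‖ * ‖x - i a‖ + ‖x - i a‖ * ‖y - i b‖ := by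
        refine (norm_sub_le _ _).trans ?_
        rw [norm_mul (x - i a)]
        refine add_le_add_left ((norm_add_le _ _).trans ?_) _
        rw [norm_mul, norm_mul]
      refine h5.trans_lt ?_
      have hx0 := norm_nonneg x
      have hy0 := norm_nonneg y
      have ha0 := norm_nonneg (x - i a)
      have hb0 := norm_nonneg (y - i b)
      have h6 : ‖x - i a‖ * ‖y - i b‖ ≤ δ * 1 := mul_le_mul ha.le (hb.le.trans hδ1) hb0 hd1.le
      have h7 : ‖x‖ * ‖y - i b‖ ≤ ‖x‖ * δ := mul_le_mul_of_nonneg_left hb.le hx0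
      have h8 : ‖y‖ * ‖x - i a‖ ≤ ‖y‖ * δ := mul_le_mul_of_nonneg_left ha.le hy0
      have h9 : 0 < δ * (‖x‖ + ‖y‖ + 1) := by positivity
      nlinarith
  exact h2 ε hε

theorem g1_int {F : Type} [Field F] {p : ℕ} [Fact p.Prime] (i : F →+* PadicAlgCl p) (a : 𝓞 F) : ‖i (a : F)‖ ≤ 1 := by
  have h1 : IsIntegral ℤ (i (a : F)) := by
    have h2 : IsIntegral ℤ (a : F) := a.isIntegral_coe
    exact h2.map i.toIntAlgHom
  let v : Valuation (PadicAlgCl p) NNReal := NormedField.valuation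
  have h3 : IsIntegral v.integer (i (a : F)) := h1.tower_top
  have h4 := Valuation.Integers.mem_of_integral (Valuation.integer.integers v) h3
  have h5 : v (i (a : F)) ≤ 1 := h4
  exact_mod_cast h5

theorem g1_p {p : ℕ} [Fact p.Prime] : ‖(p : PadicAlgCl p)‖ < 1 := by
  have h1 : ((p : ℕ) : PadicAlgCl p) = algebraMap ℚ_[p] (PadicAlgCl p) (p : ℚ_[p]) := (map_natCast _ p).symm
  rw [h1, g1_norm_ext]
  exact Padic.norm_p_lt_one

theorem g1_unit {F : Type} [Field F] [NumberField F] {p : ℕ} [Fact p.Prime] (hin : (Ideal.span {(p : 𝓞 F)}).IsPrime) (i : F →+* PadicAlgCl p)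
    (a : 𝓞 F) (ha : ¬ (p : 𝓞 F) ∣ a) : ‖i (a : F)‖ = 1 := by
  have hp0 : (p : 𝓞 F) ≠ 0 := Nat.cast_ne_zero.2 (Fact.out : p.Prime).ne_zero
  have hmax : (Ideal.span {(p : 𝓞 F)}).IsMaximal := hin.isMaximal (by
    rw [Ne, Ideal.span_singleton_eq_bot]
    exact hp0)
  have h1 : a ∉ Ideal.span {(p : 𝓞 F)} := fun h => ha (Ideal.mem_span_singleton.1 h)
  obtain ⟨x, y, hy, hxy⟩ := hmax.exists_inv h1
  rw [Ideal.mem_span_singleton] at hy
  obtain ⟨z, hz⟩ := hy
  have h2 : i (x : F) * i (a : F) = 1 - (p : PadicAlgCl p) * i (z : F) := by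
    have h3 : (x : F) * (a : F) = 1 - (p : F) * (z : F) := by
      have h4 : (x * a : 𝓞 F) = 1 - (p : 𝓞 F) * z := by
        rw [← hxy, hz]
        ring
      have h5 := congrArg (algebraMap (𝓞 F) F) h4
      rw [map_mul, map_sub, map_one, map_mul, map_natCast] at h5
      exact h5
    rw [← map_mul, h3, map_sub, map_one, map_mul, map_natCast]
  have h6 : ‖(p : PadicAlgCl p) * i (z : F)‖ < 1 := by
    rw [norm_mul]
    exact (mul_le_of_le_one_right (norm_nonneg _) (g1_int i z)).trans_lt g1_p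
  have h7 : ‖(1 : PadicAlgCl p) - (p : PadicAlgCl p) * i (z : F)‖ = 1 := by
    rw [sub_eq_add_neg, IsUltrametricDist.norm_add_eq_max_of_norm_ne_norm (by rw [norm_one, norm_neg]; exact h6.ne'), norm_one, norm_neg]
    exact max_eq_left h6.le
  have h8 : ‖i (x : F)‖ * ‖i (a : F)‖ = 1 := by rw [← norm_mul, h2, h7]
  have h9 := g1_int i x
  have h10 := g1_int i a
  nlinarith [norm_nonneg (i (x : F)), norm_nonneg (i (a : F))]

theorem g1_O {F : Type} [Field F] [NumberField F] {p : ℕ} [Fact p.Prime] (hin : (Ideal.span {(p : 𝓞 F)}).IsPrime) (i : F →+* PadicAlgCl p)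
    (a : 𝓞 F) (ha : a ≠ 0) : ∃ n : ℕ, ‖i (a : F)‖ = ‖(p : PadicAlgCl p)‖ ^ n := by
  have hp0 : (p : 𝓞 F) ≠ 0 := Nat.cast_ne_zero.2 (Fact.out : p.Prime).ne_zero
  have hirr : Irreducible (p : 𝓞 F) := ((Ideal.span_singleton_prime hp0).1 hin).irreducible
  obtain ⟨n, b, hb, hab⟩ := WfDvdMonoid.max_power_factor ha hirr
  refine ⟨n, ?_⟩
  have h1 : (a : F) = (p : F) ^ n * (b : F) := by
    have h5 := congrArg (algebraMap (𝓞 F) F) hab
    rw [map_mul, map_pow, map_natCast] at h5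
    exact h5
  rw [h1, map_mul, map_pow, map_natCast, norm_mul, norm_pow, g1_unit hin i b hb, mul_one]

theorem norm_F {F : Type} [Field F] [NumberField F] {p : ℕ} [Fact p.Prime] (hin : (Ideal.span {(p : 𝓞 F)}).IsPrime) (i : F →+* PadicAlgCl p)
    (y : F) (hy : y ≠ 0) : ∃ n : ℤ, ‖i y‖ = ‖(p : PadicAlgCl p)‖ ^ n := by
  obtain ⟨a, b, hb, hab⟩ := IsFractionRing.div_surjective (A := 𝓞 F) y
  have hb0 : b ≠ 0 := nonZeroDivisors.ne_zero hb
  have ha0 : a ≠ 0 := by
    rintro rfl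
    rw [map_zero, zero_div] at hab
    exact hy hab.symm
  obtain ⟨m, hm⟩ := g1_O hin i a ha0
  obtain ⟨n, hn⟩ := g1_O hin i b hb0
  refine ⟨(m : ℤ) - n, ?_⟩
  have hp1 : ‖(p : PadicAlgCl p)‖ ≠ 0 := by
    rw [norm_ne_zero_iff]
    exact Nat.cast_ne_zero.2 (Fact.out : p.Prime).ne_zero
  rw [← hab, map_div₀, norm_div, zpow_sub₀ hp1, zpow_natCast, zpow_natCast]
  exact congrArg₂ (· / ·) hm hn

theorem kF_val {F : Type} [Field F] [NumberField F] {p : ℕ} [Fact p.Prime] (hin : (Ideal.span {(p : 𝓞 F)}).IsPrime) (i : F →+* PadicAlgCl p) :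
    ∀ x ∈ kF i, x ≠ 0 → ∃ n : ℤ, ‖x‖ = ‖(p : PadicAlgCl p)‖ ^ n := by
  intro x hx hx0
  obtain ⟨y, hy⟩ := kF_dense i x hx (norm_pos_iff.2 hx0)
  have h1 : ‖i y‖ = ‖x‖ := by
    have h2 : i y = x + -(x - i y) := by ring
    rw [h2, IsUltrametricDist.norm_add_eq_max_of_norm_ne_norm (by rw [norm_neg]; exact hy.ne'), norm_neg]
    exact max_eq_left hy.le
  have hy0 : y ≠ 0 := by
    rintro rfl
    rw [map_zero, norm_zero] at h1
    exact hx0 (norm_eq_zero.1 h1.symm)
  obtain ⟨n, hn⟩ := norm_F hin i y hy0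
  exact ⟨n, by rw [← h1, hn]⟩

end SSG
end

-- from Lib.SSG.Z.G2
section

/-! Chunk G2 (M). Galois theory. GF_iso: σ in GF i fixes ℚ_[p], so it is an element of Gal(PadicAlgCl p / ℚ_[p]) (AlgEquiv.ofRingEquiv) and the norm is the spectral norm: spectralNorm_eq_of_equiv, PadicAlgCl.spectralNorm_eq.
GF_fix: PadicAlgCl p is Galois over kF i (algebraic closure, characteristic 0: IsAlgClosure.isGalois); every automorphism over kF i is in GF i; so x is fixed by all of them and lies in the image of kF i (InfiniteGalois.mem_range_algebraMap_iff_fixed).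
restr: PadicAlgCl p = AlgebraicClosure ℚ_[p]; H16C.exists_restrict with K = ℚ, L = ℚ_[p], ι = i as ℚ-algebra homomorphism (RingHom.toRatAlgHom), σ as above: g : Ω ≃ₐ[ℚ] Ω with i (g x) = σ (i x). σ fixes i(F) (in kF), i is injective: g fixes F: an automorphism over F (AlgEquiv.ofRingEquiv).
Dec V s: s x in V iff x in V, since ‖i (s x)‖ = ‖σ (i x)‖ = ‖i x‖. -/

open NumberField

namespace SSG

/-- An element of GF i as an automorphism over the p-adic numbers. -/
noncomputable def g2_alg {F : Type} [Field F] {p : ℕ} [Fact p.Prime] (i : F →+* PadicAlgCl p) {σ : RingAut (PadicAlgCl p)} (hσ : σ ∈ GF i) :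
    PadicAlgCl p ≃ₐ[ℚ_[p]] PadicAlgCl p :=
  AlgEquiv.ofRingEquiv (f := (σ : PadicAlgCl p ≃+* PadicAlgCl p)) fun r => hσ _ ((kF i).algebraMap_mem r)

theorem g2_alg_apply {F : Type} [Field F] {p : ℕ} [Fact p.Prime] (i : F →+* PadicAlgCl p) {σ : RingAut (PadicAlgCl p)} (hσ : σ ∈ GF i)
    (x : PadicAlgCl p) : g2_alg i hσ x = σ x := rfl

theorem GF_iso {F : Type} [Field F] {p : ℕ} [Fact p.Prime] (i : F →+* PadicAlgCl p) : ∀ σ ∈ GF i, ∀ x : PadicAlgCl p, ‖σ x‖ = ‖x‖ := by
  intro σ hσ x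
  have h1 := spectralNorm_eq_of_equiv (g2_alg i hσ) x
  rw [g2_alg_apply] at h1
  exact h1.symm

theorem GF_fix {F : Type} [Field F] {p : ℕ} [Fact p.Prime] (i : F →+* PadicAlgCl p) (x : PadicAlgCl p) (h : ∀ σ ∈ GF i, σ x = x) : x ∈ kF i := by
  have : Algebra.IsAlgebraic (kF i) (PadicAlgCl p) :=
    Algebra.IsAlgebraic.tower_top (K := ℚ_[p]) (kF i)
  have : IsAlgClosure (kF i) (PadicAlgCl p) := ⟨inferInstance, inferInstance⟩
  have : CharZero (kF i) := charZero_of_injective_algebraMap (algebraMap ℚ_[p] (kF i)).injective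
  have hG : IsGalois (kF i) (PadicAlgCl p) := inferInstance
  have h1 := (InfiniteGalois.mem_range_algebraMap_iff_fixed (k := kF i) (K := PadicAlgCl p) x).2 fun f => by
    refine h (f : PadicAlgCl p ≃+* PadicAlgCl p) ?_
    intro y hy
    exact f.commutes ⟨y, hy⟩
  obtain ⟨y, hy⟩ := h1
  rw [← hy]
  exact y.2

theorem restr {F : Type} [Field F] [NumberField F] {Ω : Type} [Field Ω] [Algebra F Ω] [IsAlgClosed Ω] [Algebra.IsAlgebraic F Ω] [CharZero Ω] {p : ℕ}
    [Fact p.Prime] (i : Ω →+* PadicAlgCl p) (V : ValuationSubring Ω) (hi : ∀ x : Ω, x ∈ V ↔ ‖i x‖ ≤ 1) (σ : RingAut (PadicAlgCl p))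
    (hσ : σ ∈ GF (i.comp (algebraMap F Ω))) : ∃ s : Ω ≃ₐ[F] Ω, H55P.Dec V s ∧ ∀ x : Ω, i (s x) = σ (i x) := by
  have : Algebra.IsAlgebraic ℚ F := inferInstance
  have : Algebra.IsAlgebraic ℚ Ω := Algebra.IsAlgebraic.trans ℚ F Ω
  obtain ⟨g, hg, -⟩ := H16C.exists_restrict (K := ℚ) (Ω := Ω) (L := ℚ_[p]) i.toRatAlgHom (g2_alg _ hσ)
  have hg' : ∀ x : Ω, i (g x) = σ (i x) := fun x => hg x
  have hF : ∀ r : F, g (algebraMap F Ω r) = algebraMap F Ω r := by
    intro r
    apply i.injective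
    rw [hg']
    exact hσ _ (IntermediateField.subset_adjoin _ _ ⟨r, rfl⟩)
  refine ⟨AlgEquiv.ofRingEquiv (f := (g : Ω ≃+* Ω)) hF, ?_, fun x => hg' x⟩
  intro x
  rw [hi, hi]
  have h1 : ‖i (g x)‖ = ‖i x‖ := by
    rw [hg', GF_iso _ σ hσ]
  show ‖i (g x)‖ ≤ 1 ↔ ‖i x‖ ≤ 1
  rw [h1]

end SSG
end

-- from Lib.SSG.Z.G3
section

/-! Chunk G3 (S/M). Galois action on the cyclic module of the points of order p^N. T with act a T = 0 iff p^N divides a. b = p^N: CMA.gen (H55K/D0.lean) gives T₀ in Tor act b generating it with act a T₀ = 0 iff b divides a. T = act c T₀; c is a unit modulo p^N: for N ≥ 1, p does not divide c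
(otherwise act (p^(N-1)) T = 0), (p) is maximal, so c c' = 1 modulo p^N (coprime to p: IsCoprime.pow_right); T₀ = act c' T. s : ac s T is killed by p^N (gal), so ac s T = act x T₀ = act u T with u = x c'. p does not divide u: otherwise act (p^(N-1)) (ac s T) = 0, hence act (p^(N-1)) T = 0 (ac s injective), contradiction.
N = 0: T = 0 (act 1 T = 0), u = 1. -/

open NumberField WeierstrassCurve

namespace SSG

open H55P (IQ Pt ac)
open H35P (WAB)
open H55K

theorem g3_mul {F : Type} [Field F] {A B : F} {Ω : Type} [Field Ω] [DecidableEq Ω] [Algebra F Ω] (a b : Ω ≃ₐ[F] Ω)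
    (P : Pt (WAB A B) Ω) : ac (WAB A B) (a * b) P = ac (WAB A B) a (ac (WAB A B) b P) := by
  cases P <;> rfl

theorem g3_one {F : Type} [Field F] {A B : F} {Ω : Type} [Field Ω] [DecidableEq Ω] [Algebra F Ω]
    (P : Pt (WAB A B) Ω) : ac (WAB A B) (1 : Ω ≃ₐ[F] Ω) P = P := by
  cases P <;> rfl

theorem gal_T {F : Type} [Field F] [NumberField F] [IQ F] {A B : F} {Om : ℂ} {Ω : Type} [Field Ω] [DecidableEq Ω] [Algebra F Ω] {j : Ω →+* ℂ}
    {act : 𝓞 F →+* AddMonoid.End (Pt (WAB A B) Ω)} (c : CMA F A B Om j act) {p : ℕ} (hp : p.Prime) (hin : (Ideal.span {(p : 𝓞 F)}).IsPrime)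
    {N : ℕ} {T : Pt (WAB A B) Ω} (hT : ∀ a : 𝓞 F, act a T = 0 ↔ (p : 𝓞 F) ^ N ∣ a) (s : Ω ≃ₐ[F] Ω) :
    ∃ u : 𝓞 F, ¬ (p : 𝓞 F) ∣ u ∧ ∀ a : 𝓞 F, ac (WAB A B) s (act a T) = act (u * a) T := by
  have hp0 : (p : 𝓞 F) ≠ 0 := Nat.cast_ne_zero.2 hp.ne_zero
  have hnu : ¬ IsUnit (p : 𝓞 F) := by
    intro h
    exact hin.ne_top (Ideal.span_singleton_eq_top.2 h)
  have hmul : ∀ (a b : 𝓞 F) (P : Pt (WAB A B) Ω), act a (act b P) = act (a * b) P := by
    intro a b P
    rw [map_mul]
    rfl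
  rcases Nat.eq_zero_or_pos N with hN | hN
  · subst hN
    have h1 : T = 0 := by
      have h2 := (hT 1).2 (by rw [pow_zero])
      rw [map_one] at h2
      exact h2
    refine ⟨1, fun h => hnu (isUnit_of_dvd_one h), fun a => ?_⟩
    rw [h1, map_zero, map_zero, map_zero]
  · obtain ⟨n, rfl⟩ : ∃ n, N = n + 1 := ⟨N - 1, by omega⟩
    have hb0 : (p : 𝓞 F) ^ (n + 1) ≠ 0 := pow_ne_zero _ hp0
    have hnd : ¬ (p : 𝓞 F) ^ (n + 1) ∣ (p : 𝓞 F) ^ n := by
      rintro ⟨w, hw⟩
      have h1 : (p : 𝓞 F) ^ n * 1 = (p : 𝓞 F) ^ n * (p * w) := by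
        rw [mul_one, ← mul_assoc, ← pow_succ]
        exact hw
      exact hnu (isUnit_of_dvd_one ⟨w, mul_left_cancel₀ (pow_ne_zero _ hp0) h1⟩)
    obtain ⟨T₀, hT₀, hgen, hker, -⟩ := c.gen _ hb0
    have hbT : act ((p : 𝓞 F) ^ (n + 1)) T = 0 := (hT _).2 dvd_rfl
    have hbT₀ : act ((p : 𝓞 F) ^ (n + 1)) T₀ = 0 := (hker _).2 dvd_rfl
    obtain ⟨c0, hc0⟩ := hgen T hbT
    have hpc : ¬ (p : 𝓞 F) ∣ c0 := by
      rintro ⟨c1, hc1⟩
      apply hnd
      rw [← hT, hc0, hmul, hc1]
      have h1 : (p : 𝓞 F) ^ n * (p * c1) = c1 * (p : 𝓞 F) ^ (n + 1) := by ring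
      rw [h1, ← hmul, hbT₀, map_zero]
    have hmax : (Ideal.span {(p : 𝓞 F)}).IsMaximal := hin.isMaximal (by
      rw [Ne, Ideal.span_singleton_eq_bot]
      exact hp0)
    have hco : IsCoprime c0 (p : 𝓞 F) := by
      have h1 : c0 ∉ Ideal.span {(p : 𝓞 F)} := fun h => hpc (Ideal.mem_span_singleton.1 h)
      obtain ⟨x, y, hy, hxy⟩ := hmax.exists_inv h1
      rw [Ideal.mem_span_singleton] at hy
      obtain ⟨z, hz⟩ := hy
      exact ⟨x, z, by rw [mul_comm z, ← hz]; exact hxy⟩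
    obtain ⟨c', d, hcd⟩ := hco.pow_right (n := n + 1)
    have hT0 : T₀ = act c' T := by
      have h1 : act (c' * c0 + d * (p : 𝓞 F) ^ (n + 1)) T₀ = T₀ := by
        rw [hcd, map_one]
        rfl
      have h2 : act (c' * c0 + d * (p : 𝓞 F) ^ (n + 1)) T₀ = act (c' * c0) T₀ + act (d * (p : 𝓞 F) ^ (n + 1)) T₀ := by
        rw [map_add]
        rfl
      rw [h2, ← hmul d, hbT₀, map_zero, add_zero, ← hmul, ← hc0] at h1
      exact h1.symm
    obtain ⟨x, hx⟩ := hgen (ac (WAB A B) s T) (by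
      show act ((p : 𝓞 F) ^ (n + 1)) (ac (WAB A B) s T) = 0
      rw [← c.gal, hbT, map_zero])
    have hx' : ac (WAB A B) s T = act (x * c') T := by rw [hx, hT0, hmul]
    refine ⟨x * c', ?_, fun a => ?_⟩
    · rintro ⟨u1, hu1⟩
      apply hnd
      rw [← hT]
      have h1 : act ((p : 𝓞 F) ^ n) (ac (WAB A B) s T) = 0 := by
        rw [hx', hu1, hmul]
        have h2 : (p : 𝓞 F) ^ n * (p * u1) = u1 * (p : 𝓞 F) ^ (n + 1) := by ring
        rw [h2, ← hmul, hbT, map_zero]
      rw [← c.gal] at h1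
      have h2 : Function.Injective (ac (WAB A B) s) := by
        intro P Q hPQ
        have h3 : ∀ P : Pt (WAB A B) Ω, ac (WAB A B) s⁻¹ (ac (WAB A B) s P) = P := by
          intro P
          rw [← g3_mul, inv_mul_cancel, g3_one]
        rw [← h3 P, ← h3 Q, hPQ]
      exact h2 (h1.trans (map_zero _).symm)
    · rw [c.gal, hx', hmul, mul_comm a]

end SSG
end

-- from Lib.SSG.F.A1
section

/-! # SSG/F/A1 : the operator `Ct` is linear, recursion of `ctm`, base change. -/

open Polynomial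

namespace SSF

variable {S S' : Type} [CommRing S] [CommRing S']

/-- unfold `ctm`. -/
theorem ctm_zero (p : ℕ) : ctm S p 0 = C (p : S) := by
  rw [ctm, if_pos rfl]

/-- unfold `ctm`. -/
theorem ctm_small (p m : ℕ) (h0 : m ≠ 0) (h : m < p ^ 2 - 1) : ctm S p m = 0 := by
  rw [ctm, if_neg h0, if_pos h]

/-- unfold `ctm` (`2 ≤ p`, so `p ^ 2 - 1 ≠ 0`). -/
theorem ctm_q1 (p : ℕ) (hp : 2 ≤ p) : ctm S p (p ^ 2 - 1) = C (((p ^ 2 - 1 : ℕ)) : S) := by
  have h4 : 2 * 2 ≤ p ^ 2 := by nlinarith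
  rw [ctm, if_neg (by omega), if_neg (lt_irrefl _), if_pos rfl]

/-- unfold `ctm` at `m + p ^ 2` (`m + p^2 + 1 - p^2 = m + 1`, `m + p^2 - p^2 = m`). -/
theorem ctm_rec (p : ℕ) (hp : 2 ≤ p) (m : ℕ) :
    ctm S p (m + p ^ 2) = C (p : S) * ctm S p (m + 1) + X * ctm S p m := by
  have h4 : 2 * 2 ≤ p ^ 2 := by nlinarith
  have h1 : m + p ^ 2 + 1 - p ^ 2 = m + 1 := by omega
  have h2 : m + p ^ 2 - p ^ 2 = m := by omega
  rw [ctm, if_neg (by omega), if_neg (by omega), if_neg (by omega), if_pos hp, h1, h2]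

/-- `Polynomial.sum_add_index`. -/
theorem Ct_add (p : ℕ) (f g : S[X]) : Ct p (f + g) = Ct p f + Ct p g := by
  unfold Ct
  refine Polynomial.sum_add_index f g (fun m (a : S) => C a * ctm S p m) (fun i => ?_) (fun i a b => ?_)
  · rw [C_0, zero_mul]
  · rw [C_add, add_mul]

/-- `Polynomial.sum_monomial_index`. -/
theorem Ct_monomial (p m : ℕ) (a : S) : Ct p (monomial m a) = C a * ctm S p m := by
  unfold Ct
  refine Polynomial.sum_monomial_index a (fun m (a : S) => C a * ctm S p m) ?_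
  rw [C_0, zero_mul]


/-- induction on `s` with `Ct_add` (and `Ct 0 = 0`). -/
theorem Ct_sum (p : ℕ) {ι : Type} (s : Finset ι) (f : ι → S[X]) :
    Ct p (∑ i ∈ s, f i) = ∑ i ∈ s, Ct p (f i) := by
  classical
  induction s using Finset.induction_on with
  | empty => rw [Finset.sum_empty, Finset.sum_empty]; exact Polynomial.sum_zero_index _
  | insert a s ha ih => rw [Finset.sum_insert ha, Finset.sum_insert ha, Ct_add, ih]

/-- strong induction on `m` with the recursion (`ctm` has three base cases and, for `m ≥ p ^ 2`,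
`m = (m - p^2) + p^2`, the case `ctm_rec`; for `p < 2` unfold directly: `ctm` is `C p`, `0`,
`C (p^2-1)` or `0`). -/
theorem ctm_map (p m : ℕ) (f : S →+* S') : (ctm S p m).map f = ctm S' p m := by
  induction m using Nat.strong_induction_on with
  | _ m ih =>
    by_cases h0 : m = 0
    · rw [h0, ctm_zero, ctm_zero, map_C, map_natCast]
    by_cases h1 : m < p ^ 2 - 1
    · rw [ctm_small p m h0 h1, ctm_small p m h0 h1, Polynomial.map_zero]
    by_cases h2 : m = p ^ 2 - 1
    · rw [ctm, if_neg h0, if_neg h1, if_pos h2, ctm, if_neg h0, if_neg h1, if_pos h2, map_C,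
        map_natCast]
    by_cases hp : 2 ≤ p
    · have h4 : 2 * 2 ≤ p ^ 2 := by nlinarith
      obtain ⟨k, rfl⟩ : ∃ k, m = k + p ^ 2 := ⟨m - p ^ 2, by omega⟩
      rw [ctm_rec p hp, ctm_rec p hp, Polynomial.map_add, Polynomial.map_mul, Polynomial.map_mul,
        map_C, map_X, map_natCast, ih (k + 1) (by omega), ih k (by omega)]
    · rw [ctm, if_neg h0, if_neg h1, if_neg h2, if_neg hp, ctm, if_neg h0, if_neg h1, if_neg h2,
        if_neg hp, Polynomial.map_zero]

/-- from `ctm_map`, `Polynomial.induction_on'`. -/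
theorem Ct_map (p : ℕ) (h : S[X]) (f : S →+* S') : (Ct p h).map f = Ct p (h.map f) := by
  induction h using Polynomial.induction_on' with
  | add f g hf hg => rw [Ct_add, Polynomial.map_add, hf, hg, Polynomial.map_add, Ct_add]
  | monomial n a =>
    rw [Ct_monomial, Polynomial.map_mul, map_C, ctm_map, Polynomial.map_monomial, Ct_monomial]

end SSF
end

-- from Lib.SSG.F.A4
section

/-! # SSG/F/A4 : `Ct` modulo `p` -/

open Polynomial

namespace SSF

/-- strong induction on `m`: `m = 0`, `0 < m < q-1`: `ctm = 0` as `(p : S) = 0` (`m % q = m ≠ q-1`);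
`m = q - 1`: `ctm = C (q - 1) = - 1` as `q = p ^ 2 = 0` in `S`; `m = m' + q`: `ctm = X * ctm m'`,
`m % q = m' % q`, `m / q = m' / q + 1`. -/
theorem ctm_mod {S : Type} [CommRing S] (p : ℕ) (hp : 2 ≤ p) (h0 : (p : S) = 0) (m : ℕ) :
    ctm S p m = if m % p ^ 2 = p ^ 2 - 1 then - X ^ (m / p ^ 2) else 0 := by
  have h4 : 2 * 2 ≤ p ^ 2 := by nlinarith
  induction m using Nat.strong_induction_on with
  | _ m ih =>
    by_cases hm0 : m = 0
    · subst hm0
      rw [ctm_zero, h0, C_0, Nat.zero_mod, if_neg (by omega)]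
    by_cases h1 : m < p ^ 2 - 1
    · rw [ctm_small p m hm0 h1, Nat.mod_eq_of_lt (by omega), if_neg (by omega)]
    by_cases h2 : m = p ^ 2 - 1
    · rw [h2, ctm_q1 p hp, Nat.mod_eq_of_lt (by omega), if_pos rfl, Nat.div_eq_of_lt (by omega),
        pow_zero, Nat.cast_sub (by omega), Nat.cast_pow, h0, Nat.cast_one]
      simp
    · obtain ⟨k, rfl⟩ : ∃ k, m = k + p ^ 2 := ⟨m - p ^ 2, by omega⟩
      rw [ctm_rec p hp, h0, C_0, zero_mul, zero_add, ih k (by omega), Nat.add_mod_right,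
        Nat.add_div_right k (by omega)]
      split_ifs
      · rw [pow_succ]
        ring
      · rw [mul_zero]

/-- linearity (`Polynomial.induction_on'`): for `h = monomial m a` both sides are `-a` if
`m = q k + (q - 1)` and `0` otherwise (`ctm_mod`). -/
theorem Ct_coeff_mod {S : Type} [CommRing S] (p : ℕ) (hp : 2 ≤ p) (h0 : (p : S) = 0) (h : S[X])
    (k : ℕ) : (Ct p h).coeff k = - h.coeff (p ^ 2 * k + (p ^ 2 - 1)) := by
  have h4 : 2 * 2 ≤ p ^ 2 := by nlinarith
  induction h using Polynomial.induction_on' with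
  | add f g hf hg => rw [Ct_add, coeff_add, hf, hg, coeff_add]; ring
  | monomial m a =>
    rw [Ct_monomial, ctm_mod p hp h0, coeff_C_mul, coeff_monomial]
    by_cases h1 : m = p ^ 2 * k + (p ^ 2 - 1)
    · have h2 : m % p ^ 2 = p ^ 2 - 1 := by
        rw [h1, Nat.mul_add_mod, Nat.mod_eq_of_lt (by omega)]
      have h3 : m / p ^ 2 = k := by
        rw [h1, Nat.mul_add_div (by omega), Nat.div_eq_of_lt (by omega), add_zero]
      rw [if_pos h2, if_pos h1, h3, coeff_neg, coeff_X_pow, if_pos rfl]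
      ring
    · rw [if_neg h1]
      split_ifs with h2
      · have h3 : k ≠ m / p ^ 2 := by
          intro h3
          apply h1
          rw [h3, ← h2, Nat.div_add_mod]
        rw [coeff_neg, coeff_X_pow, if_neg h3]
        ring
      · rw [coeff_zero]
        ring

/-- induction on `e` generalizing the coefficient: for all `k`,
`((Ct p)^[e] h).coeff k = (-1)^e h.coeff (q^e k + (q^e - 1))`; take `k = 0`. -/
theorem Ct_iter_mod {S : Type} [CommRing S] (p : ℕ) (hp : 2 ≤ p) (h0 : (p : S) = 0) (h : S[X])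
    (e : ℕ) : ((Ct p)^[e] h).coeff 0 = (-1) ^ e * h.coeff (p ^ (2 * e) - 1) := by
  have h4 : 2 * 2 ≤ p ^ 2 := by nlinarith
  have key : ∀ (e : ℕ) (h : S[X]) (k : ℕ), ((Ct p)^[e] h).coeff k =
      (-1) ^ e * h.coeff (p ^ (2 * e) * k + (p ^ (2 * e) - 1)) := by
    intro e
    induction e with
    | zero => intro h k; simp
    | succ e ih =>
      intro h k
      rw [Function.iterate_succ_apply, ih, Ct_coeff_mod p hp h0]
      have h5 : 0 < p ^ (2 * e) := by positivity
      have h6 : p ^ 2 * (p ^ (2 * e) * k + (p ^ (2 * e) - 1)) + (p ^ 2 - 1) =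
          p ^ (2 * (e + 1)) * k + (p ^ (2 * (e + 1)) - 1) := by
        have h7 : p ^ (2 * (e + 1)) = p ^ 2 * p ^ (2 * e) := by rw [mul_add, pow_add, mul_one, mul_comm]
        rw [h7]
        obtain ⟨a, ha⟩ : ∃ a, p ^ (2 * e) = a + 1 := ⟨p ^ (2 * e) - 1, by omega⟩
        obtain ⟨b, hb⟩ : ∃ b, p ^ 2 = b + 1 := ⟨p ^ 2 - 1, by omega⟩
        rw [ha, hb, Nat.add_sub_cancel, Nat.add_sub_cancel]
        have h8 : (b + 1) * (a + 1) - 1 = (b + 1) * a + b := by
          have : (b + 1) * (a + 1) = (b + 1) * a + b + 1 := by ring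
          omega
        rw [h8]
        ring
      rw [h6, pow_succ]
      ring
  rw [key, mul_zero, zero_add]

end SSF
end

-- from Lib.SSG.F.A2
section

/-! # SSG/F/A2 : power sums of the roots (Newton) -/

open Polynomial

namespace SSF

/-- The power sums of the roots of `P = T ^ q - p T - y`, `q = p ^ 2`, when all `q` roots are in `L`.

PROOF. Put `q = p ^ 2 ≥ 4`. `P = T ^ q - C p * T - C y` is monic of degree `q` and vanishes on the
`q` elements of `s`, so `P = prod over z in s of (T - C z)` (both monic of degree `q`; the product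
divides `P`, or `Polynomial.eq_of_degree_sub_lt_of_eval_finset_eq`/`Lagrange`).
For `z` in `s` the polynomial `Q_z = (sum over j < q of T^j z^(q-1-j)) - C p` satisfies
`(T - C z) Q_z = T^q - z^q - p (T - z) = P` (`P(z) = 0`, `Commute.geom_sum₂_mul`), so `Q_z` is the
product over `s.erase z`. Derivative of the product (`Polynomial.derivative_prod` /
`Finset.derivative_prod`): `P' = sum over z of Q_z`, i.e.
`q T^(q-1) - p = sum_(j<q) T^j (sum_z z^(q-1-j)) - q p`.
Compare coefficients: of `T^0`: `sum z^(q-1) = (q-1) p`; of `T^j`, `0 < j < q-1`: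
`sum z^(q-1-j) = 0`; and `sum z^0 = q`. This is the claim for `m < q` (`p * (q - 1) = ..`,
`p * p = q`). For `m = m' + q`: `z^m = z^m' (p z + y)`, so
`sum z^m = p sum z^(m'+1) + y sum z^m'`, strong induction with `ctm_rec`. -/
theorem newton {L : Type} [Field L] (p : ℕ) (hp : 2 ≤ p) (s : Finset L) (hs : s.card = p ^ 2)
    (y : L) (h : ∀ z ∈ s, z ^ (p ^ 2) - (p : L) * z = y) (m : ℕ) :
    ∑ z ∈ s, z ^ m = (p : L) * (ctm L p m).eval y := by
  classical
  have h4 : 2 * 2 ≤ p ^ 2 := by nlinarith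
  obtain ⟨q, hq⟩ : ∃ q, q = p ^ 2 := ⟨_, rfl⟩
  rw [← hq] at h4
  obtain ⟨P, hP⟩ : ∃ P : L[X], P = X ^ q - C (p : L) * X - C y := ⟨_, rfl⟩
  have hdeg : (C (p : L) * X + C y).degree < ((q : ℕ) : WithBot ℕ) := by
    refine lt_of_le_of_lt (degree_linear_le) ?_
    exact_mod_cast (by omega : 1 < q)
  have hPe : P = X ^ q - (C (p : L) * X + C y) := by rw [hP]; ring
  have hmon : P.Monic := by
    rw [hPe]
    exact (monic_X_pow q).sub_of_left (by rwa [degree_X_pow])
  have hPdeg : P.degree = ((q : ℕ) : WithBot ℕ) := by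
    rw [hPe, degree_sub_eq_left_of_degree_lt (by rwa [degree_X_pow]), degree_X_pow]
  have hprod : ∏ z ∈ s, (X - C z) = P := by
    refine eq_of_degree_sub_lt_of_eval_finset_eq s ?_ ?_
    · have h5 : (∏ z ∈ s, (X - C z) : L[X]).degree = ((q : ℕ) : WithBot ℕ) := by
        rw [degree_prod_of_monic _ _ fun z _ => monic_X_sub_C z,
          Finset.sum_congr rfl fun z _ => degree_X_sub_C z, Finset.sum_const, hs, hq]
        simp
      have h6 := degree_sub_lt_left (h5.trans hPdeg.symm) (monic_prod_of_monic _ _ fun z _ =>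
        monic_X_sub_C z).ne_zero (by
          rw [(monic_prod_of_monic _ _ fun z _ => monic_X_sub_C z).leadingCoeff,
            hmon.leadingCoeff])
      rw [h5] at h6
      rw [hs, ← hq]
      exact h6
    · intro z hz
      rw [eval_prod, Finset.prod_eq_zero hz (by rw [eval_sub, eval_X, eval_C, sub_self]), hP]
      have h5 := h z hz
      rw [← hq] at h5
      rw [eval_sub, eval_sub, eval_pow, eval_mul, eval_X, eval_C, eval_C, h5, sub_self]
  have hQ : ∀ z ∈ s, ∏ a ∈ s.erase z, (X - C a) =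
      ∑ j ∈ Finset.range q, X ^ j * C z ^ (q - 1 - j) - C (p : L) := by
    intro z hz
    have h5 : (X - C z) * ∏ a ∈ s.erase z, (X - C a) = P := by
      rw [Finset.mul_prod_erase s (fun a => X - C a) hz, hprod]
    have h6 : (X - C z) * (∑ j ∈ Finset.range q, X ^ j * C z ^ (q - 1 - j) - C (p : L)) = P := by
      rw [mul_sub, (Commute.all _ _).mul_geom_sum₂, hP]
      have h7 := h z hz
      rw [← hq] at h7
      rw [← h7, C_sub, C_mul, C_pow]
      ring
    exact mul_left_cancel₀ (X_sub_C_ne_zero z) (h5.trans h6.symm)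
  have hder : ∑ z ∈ s, (∑ j ∈ Finset.range q, X ^ j * C z ^ (q - 1 - j) - C (p : L)) =
      C (q : L) * X ^ (q - 1) - C (p : L) := by
    have h5 := congrArg derivative hprod
    rw [derivative_prod_finset] at h5
    rw [← Finset.sum_congr rfl fun z hz => hQ z hz]
    have h6 : derivative P = C (q : L) * X ^ (q - 1) - C (p : L) := by
      rw [hP, derivative_sub, derivative_sub, derivative_X_pow, derivative_C_mul, derivative_X,
        derivative_C, mul_one, sub_zero]
    rw [← h6, ← h5]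
    refine Finset.sum_congr rfl fun z _ => ?_
    rw [derivative_X_sub_C, mul_one]
  have hcoef : ∀ j < q, ∑ z ∈ s, z ^ (q - 1 - j) =
      (if j = q - 1 then (q : L) else 0) + (if j = 0 then (q : L) * p - p else 0) := by
    intro j hj
    have h5 := congrArg (fun f : L[X] => f.coeff j) hder
    simp only [finsetSum_coeff, coeff_sub, coeff_C_mul, coeff_X_pow] at h5
    have h6 : ∀ z : L, ∑ i ∈ Finset.range q, (X ^ i * C z ^ (q - 1 - i) : L[X]).coeff j =
        z ^ (q - 1 - j) := by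
      intro z
      rw [Finset.sum_eq_single j]
      · rw [← C_pow, coeff_mul_C, coeff_X_pow, if_pos rfl, one_mul]
      · intro i _ hij
        rw [← C_pow, coeff_mul_C, coeff_X_pow, if_neg (Ne.symm hij), zero_mul]
      · intro h7
        exact absurd (Finset.mem_range.2 hj) h7
    rw [Finset.sum_sub_distrib, Finset.sum_congr rfl fun z _ => h6 z, Finset.sum_const, hs, ← hq,
      nsmul_eq_mul, coeff_C] at h5
    have h7 : ∑ z ∈ s, z ^ (q - 1 - j) =
        (q : L) * (if j = q - 1 then 1 else 0) - (if j = 0 then (p : L) else 0) +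
          (q : L) * (if j = 0 then (p : L) else 0) := by
      linear_combination h5
    rw [h7]
    split_ifs <;> ring
  induction m using Nat.strong_induction_on with
  | _ m ih =>
    by_cases hm : m < q
    · have h5 := hcoef (q - 1 - m) (by omega)
      have h6 : q - 1 - (q - 1 - m) = m := by omega
      rw [h6] at h5
      rw [h5]
      by_cases hm0 : m = 0
      · rw [hm0, ctm_zero, eval_C, if_pos (by omega), if_neg (by omega), hq, Nat.cast_pow]
        ring
      by_cases hm1 : m = q - 1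
      · rw [hm1, if_neg (by omega), if_pos (by omega), hq, ctm_q1 p hp, eval_C,
          Nat.cast_sub (by omega), Nat.cast_pow, Nat.cast_one]
        ring
      · rw [if_neg (by omega), if_neg (by omega), ctm_small p m hm0 (by omega), eval_zero]
        ring
    · obtain ⟨k, rfl⟩ : ∃ k, m = k + p ^ 2 := ⟨m - p ^ 2, by omega⟩
      rw [ctm_rec p hp, eval_add, eval_mul, eval_mul, eval_C, eval_X, mul_add]
      have h5 := ih (k + 1) (by omega)
      have h6 := ih k (by omega)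
      have h7 : ∑ z ∈ s, z ^ (k + p ^ 2) = (p : L) * ∑ z ∈ s, z ^ (k + 1) + y * ∑ z ∈ s, z ^ k := by
        rw [Finset.mul_sum, Finset.mul_sum, ← Finset.sum_add_distrib]
        refine Finset.sum_congr rfl fun z hz => ?_
        have h8 : z ^ (p ^ 2) = y + p * z := by rw [← h z hz]; ring
        rw [pow_add, h8, pow_succ]
        ring
      rw [h7, h5, h6]
      ring

end SSF
end

-- from Lib.SSG.F.A4B
section

/-! # SSG/F/A4B : `Ct` modulo the maximal ideal -/

open Polynomial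

namespace SSF

variable {p : ℕ} {R : ℕ → Type} [∀ N, CommRing (R N)] [∀ N, Fintype (R N)]
  {L : Type} [NormedField L] [IsUltrametricDist L] (D : LTD p R L)

/-- `Ideal.Quotient.eq_zero_iff_mem` and the definition of `D.m` (`rfl`). -/
theorem res_eq_zero_iff (x : D.W) : D.res x = 0 ↔ ‖(x : L)‖ < 1 := by
  rw [Ideal.Quotient.eq_zero_iff_mem]
  rfl

/-- `‖(p : L)‖ < 1` (`D.hp1`), `res_eq_zero_iff`. -/
theorem kappa_p : ((p : ℕ) : D.κ) = 0 := by
  rw [← map_natCast D.res p, res_eq_zero_iff]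
  exact D.hp1

/-- `Ct_map` with `f = D.res`, `coeff_map`, `Ct_coeff_mod` for `S = D.κ`. -/
theorem res_Ct (hp : 2 ≤ p) (h : D.W[X]) (k : ℕ) :
    D.res ((Ct p h).coeff k) = - D.res (h.coeff (p ^ 2 * k + (p ^ 2 - 1))) := by
  rw [← coeff_map, Ct_map, Ct_coeff_mod p hp (kappa_p D), coeff_map]

/-- the same with `Ct_iter_mod` (`Ct_map` iterated, `Function.iterate_succ`). -/
theorem res_Ct_iter (hp : 2 ≤ p) (h : D.W[X]) (e : ℕ) :
    D.res (((Ct p)^[e] h).coeff 0) = (-1) ^ e * D.res (h.coeff (p ^ (2 * e) - 1)) := by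
  have key : ∀ (e : ℕ) (h : D.W[X]), ((Ct p)^[e] h).map D.res = (Ct p)^[e] (h.map D.res) := by
    intro e
    induction e with
    | zero => intro h; rfl
    | succ e ih =>
      intro h
      rw [Function.iterate_succ_apply, ih, Ct_map, Function.iterate_succ_apply]
  rw [← coeff_map, key, Ct_iter_mod p hp (kappa_p D), coeff_map]

end SSF
end
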