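import Mathlib
import Pool.Agent.Lib.H1M.PP2.M011
import Pool.Agent.Lib.H1M.PP2.M025
import Pool.Agent.Lib.H1M.PP2.M028
import Pool.Agent.Lib.H1M.PP2.M071

/-! Merged copies (to shorten the build) of Lib.H19C.GB, Lib.SSA.B6, Lib.SSN.B2, Lib.SSR.G3, Lib.SSR.G4B, Lib.SSR.G5, Lib.SSR.G6, Lib.SSR.G8. -/

-- from Lib.H19C.GB
section

/-! # H19C, chunk GB: the index of the image of an endomorphism with kernel -/

namespace H19C

open H19B (rel_ge rel_map)

/-- The counting lemma with kernel. -/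
theorem count_index2 {M : Type} [AddCommGroup M] (A : ℕ → AddSubgroup M) (hA : Antitone A) {q : ℕ} (hq : 0 < q)
    (h : ∀ i, (A (i + 1)).relIndex (A i) = q) (f : M →+ M) (h0 : ∀ x ∈ A 0, f x ∈ A 0) (J e : ℕ) (hf : ∀ x ∈ A J, f x ∈ A (J + e))
    {n : ℕ} (r : Fin n → M) (hr : ∀ i, r i ∈ A 0 ∧ f (r i) = 0) (hrr : ∀ i i', r i - r i' ∈ A J → i = i')
    (K : AddSubgroup M) (hK : ∀ x ∈ K, ∃ y ∈ A 0, f y = x) (hKf : K.relIndex (A 0) ≠ 0) : q ^ e * n ≤ K.relIndex (A 0) := by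
  classical
  have hidx : ∀ k : ℕ, (A k).relIndex (A 0) = q ^ k := by
    intro k
    induction k with
    | zero => rw [AddSubgroup.relIndex_self, pow_zero]
    | succ k ih =>
      rw [← AddSubgroup.relIndex_mul_relIndex (A (k + 1)) (A k) (A 0) (hA (Nat.le_succ k)) (hA (Nat.zero_le k)), h k, ih, pow_succ]
      ring
  have hqk : ∀ k : ℕ, q ^ k ≠ 0 := fun k => (pow_pos hq k).ne'
  -- the group C
  obtain ⟨C, hC⟩ : ∃ C : AddSubgroup M, C = (A J ⊔ f.ker) ⊓ A 0 := ⟨_, rfl⟩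
  have hAC : A J ≤ C := by
    rw [hC]
    exact le_inf le_sup_left (hA (Nat.zero_le J))
  have hC0 : C ≤ A 0 := by
    rw [hC]
    exact inf_le_right
  have h1 := AddSubgroup.relIndex_mul_relIndex (A J) C (A 0) hAC hC0
  rw [hidx J] at h1
  have hne1 : (A J).relIndex C ≠ 0 := fun h2 => hqk J (by rw [← h1, h2, zero_mul])
  have hne2 : C.relIndex (A 0) ≠ 0 := fun h2 => hqk J (by rw [← h1, h2, mul_zero])
  have hn : n ≤ (A J).relIndex C := by
    refine rel_ge _ _ hne1 r (fun i => ?_) hrr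
    rw [hC]
    exact ⟨AddSubgroup.mem_sup_right (hr i).2, (hr i).1⟩
  -- the image
  have hfJ : (A J).map f ≤ (A 0).map f := AddSubgroup.map_mono (hA (Nat.zero_le J))
  have hf0 : (A 0).map f ≤ A 0 := by
    rintro x ⟨y, hy, rfl⟩
    exact h0 y hy
  have hex : ∀ x : M, ∃ y : M, x ∈ (A 0).map f → y ∈ A 0 ∧ f y = x := by
    intro x
    by_cases hx : x ∈ (A 0).map f
    · obtain ⟨y, hy, h2⟩ := hx
      exact ⟨y, fun _ => ⟨hy, h2⟩⟩
    · exact ⟨0, fun h2 => absurd h2 hx⟩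
  choose g hg using hex
  have h2 := rel_map ((A J).map f) ((A 0).map f) C (A 0) g (fun b hb => (hg b hb).1) (fun b hb b' hb' hbb => by
    rw [hC] at hbb
    obtain ⟨y, hy, z, hz, hyz⟩ := AddSubgroup.mem_sup.1 hbb.1
    refine ⟨y, hy, ?_⟩
    have h3 : f (g b - g b') = b - b' := by rw [map_sub, (hg b hb).2, (hg b' hb').2]
    rw [← h3, ← hyz, map_add, show f z = 0 from hz, add_zero]) hne2
  have hKle : K ≤ (A 0).map f := fun x hx => by
    obtain ⟨y, hy, h3⟩ := hK x hx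
    exact ⟨y, hy, h3⟩
  have h4 := AddSubgroup.relIndex_le_of_le_left hKle hKf
  have hne3 : ((A 0).map f).relIndex (A 0) ≠ 0 := fun h5 => hKf (AddSubgroup.relIndex_eq_zero_of_le_left hKle h5)
  have h5 := AddSubgroup.relIndex_mul_relIndex ((A J).map f) ((A 0).map f) (A 0) hfJ hf0
  have hne4 : ((A J).map f).relIndex (A 0) ≠ 0 := by
    rw [← h5]
    exact mul_ne_zero h2.1 hne3
  have h6 : (A J).map f ≤ A (J + e) := by
    rintro x ⟨y, hy, rfl⟩
    exact hf y hy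
  have h7 := AddSubgroup.relIndex_le_of_le_left h6 hne4
  rw [hidx, ← h5, pow_add] at h7
  have h8 : q ^ J * (q ^ e * n) ≤ q ^ J * K.relIndex (A 0) := by
    calc q ^ J * (q ^ e * n) = (q ^ J * q ^ e) * n := by ring
      _ ≤ (((A J).map f).relIndex ((A 0).map f) * ((A 0).map f).relIndex (A 0)) * n := Nat.mul_le_mul_right n h7
      _ ≤ (C.relIndex (A 0) * K.relIndex (A 0)) * (A J).relIndex C := Nat.mul_le_mul (Nat.mul_le_mul h2.2 h4) hn
      _ = q ^ J * K.relIndex (A 0) := by rw [← h1]; ring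
  exact Nat.le_of_mul_le_mul_left h8 (pow_pos hq J)

end H19C
end

-- from Lib.SSA.B6
section

/-! # SSA, chunk B6 (S/M), ONLY MATHLIB: extension of a coboundary over a cyclic quotient -/

namespace SSA

/-- Chunk B6 (S/M), ONLY MATHLIB. N ≥ K groups, N/K generated by σ (of order p), I a subgroup containing σ; c a cocycle on N which is the coboundary of P on K ⊓ I. PROOF. c' s = c s - (ρ s P - P): a cocycle on N (direct computation), 0 on J = K ⊓ I. R = c' σ.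
(1) R is fixed by s in J: c' (s σ) = c' s + ρ s R = ρ s R and s σ = σ (σ⁻¹ s σ), σ⁻¹ s σ in K (hn) and in I: c' (s σ) = R + ρ σ 0 = R.
(2) c' (σ^k) = sum_(l<k) ρ (σ^l) R (induction over k, σ^k in N), so the sum over l < p is c' (σ^p) = 0 because σ^p is in K and in I. H gives Q fixed by J with R = ρ σ Q - Q.
(3) c' (σ^k) = ρ (σ^k) Q - Q (induction). s in N and I: s = σ^k n (hg), n = σ^(-k) s in K and in I: c' s = c' (σ^k) + ρ (σ^k) (c' n) = ρ (σ^k) Q - Q = ρ (σ^k) (ρ n Q) - Q = ρ s Q - Q.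
So P' = P + Q works. -/
theorem b6 {G M : Type} [Group G] [AddCommGroup M] (ρ : G →* AddMonoid.End M) {N K I : Subgroup G} {p : ℕ} {σ : G} (hK : K ≤ N)
    (hσN : σ ∈ N) (hσI : σ ∈ I) (hσp : σ ^ p ∈ K) (hn : ∀ s ∈ K, σ⁻¹ * s * σ ∈ K) (hg : ∀ s ∈ N, ∃ (k : ℕ) (n : G), n ∈ K ∧ s = σ ^ k * n)
    (H : ∀ R : M, (∀ s ∈ K ⊓ I, ρ s R = R) → ∑ k ∈ Finset.range p, ρ (σ ^ k) R = 0 → ∃ Q : M, (∀ s ∈ K ⊓ I, ρ s Q = Q) ∧ R = ρ σ Q - Q)
    {c : G → M} (hc : ∀ s ∈ N, ∀ t ∈ N, c (s * t) = c s + ρ s (c t)) {P : M} (hP : ∀ s ∈ K, s ∈ I → c s = ρ s P - P) :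
    ∃ P' : M, ∀ s ∈ N, s ∈ I → c s = ρ s P' - P' := by
  have hmul : ∀ (s t : G) (x : M), ρ (s * t) x = ρ s (ρ t x) := fun s t x => by
    rw [map_mul]
    rfl
  have hone : ∀ x : M, ρ 1 x = x := fun x => by
    rw [map_one]
    rfl
  obtain ⟨c', hc'⟩ : ∃ c' : G → M, ∀ s, c' s = c s - (ρ s P - P) := ⟨fun s => c s - (ρ s P - P), fun _ => rfl⟩
  have hcoc : ∀ s ∈ N, ∀ t ∈ N, c' (s * t) = c' s + ρ s (c' t) := by
    intro s hs t ht
    rw [hc', hc', hc', hc s hs t ht, hmul, map_sub, map_sub]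
    abel
  have hJ : ∀ s ∈ K, s ∈ I → c' s = 0 := by
    intro s hs hs'
    rw [hc', hP s hs hs', sub_self]
  have h1 : ∀ s ∈ K ⊓ I, ρ s (c' σ) = c' σ := by
    intro s hs
    obtain ⟨hsK, hsI⟩ := Subgroup.mem_inf.1 hs
    have e1 := hcoc s (hK hsK) σ hσN
    rw [hJ s hsK hsI, zero_add] at e1
    have e2 : s * σ = σ * (σ⁻¹ * s * σ) := by group
    have e3 := hcoc σ hσN (σ⁻¹ * s * σ) (hK (hn s hsK))
    rw [hJ _ (hn s hsK) (I.mul_mem (I.mul_mem (I.inv_mem hσI) hsI) hσI), map_zero, add_zero, ← e2] at e3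
    rw [← e1, e3]
  have h2 : ∀ k : ℕ, c' (σ ^ k) = ∑ l ∈ Finset.range k, ρ (σ ^ l) (c' σ) := by
    intro k
    induction k with
    | zero =>
      rw [pow_zero, Finset.range_zero, Finset.sum_empty]
      exact hJ 1 K.one_mem I.one_mem
    | succ k ih =>
      rw [pow_succ, hcoc _ (N.pow_mem hσN k) _ hσN, ih, Finset.sum_range_succ]
  have h3 : ∑ k ∈ Finset.range p, ρ (σ ^ k) (c' σ) = 0 := by
    rw [← h2]
    exact hJ _ hσp (I.pow_mem hσI p)
  obtain ⟨Q, hQ1, hQ2⟩ := H (c' σ) h1 h3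
  have h4 : ∀ k : ℕ, c' (σ ^ k) = ρ (σ ^ k) Q - Q := by
    intro k
    induction k with
    | zero =>
      rw [pow_zero, hone, sub_self]
      exact hJ 1 K.one_mem I.one_mem
    | succ k ih =>
      rw [pow_succ, hcoc _ (N.pow_mem hσN k) _ hσN, ih, hmul, hQ2, map_sub]
      abel
  refine ⟨P + Q, fun s hs hsI => ?_⟩
  obtain ⟨k, n, hnK, e⟩ := hg s hs
  have hnI : n ∈ I := by
    have e1 : n = (σ ^ k)⁻¹ * s := by
      rw [e]
      group
    rw [e1]
    exact I.mul_mem (I.inv_mem (I.pow_mem hσI k)) hsI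
  have h5 : c' s = ρ s Q - Q := by
    rw [e, hcoc _ (N.pow_mem hσN k) _ (hK hnK), hJ n hnK hnI, map_zero, add_zero, h4, hmul,
      hQ1 n (Subgroup.mem_inf.2 ⟨hnK, hnI⟩)]
  have h6 := hc' s
  rw [h5] at h6
  rw [map_add]
  have h7 : c s = (ρ s Q - Q) + (ρ s P - P) := by
    rw [h6]
    abel
  rw [h7]
  abel

end SSA
end

-- from Lib.SSN.B2
section

/-! # SSN, chunk B2: generators modulo a submodule of finite index (only Mathlib) -/

namespace SSN

/-- Chunk B2 (M), ONLY MATHLIB. PROOF. The quotient Q = W ⧸ Y is a module over the field k = R ⧸ span {p} (p kills it: hY; Module.IsTorsionBySet.module for the set span {p}, or define the structure by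
Module.IsTorsionBySet ... ; Ideal.Quotient.field), finite (Nat.card Q = Y.toAddSubgroup.index ≠ 0), so Nat.card Q = q ^ d with d = finrank k Q (Module.natCard_eq_pow_finrank), d < n (q ^ d < q ^ n). Take a basis of Q over k,
lifts y i in W of the basis vectors; for x the class of x is a combination of the basis vectors with coefficients in k, lift them to R: x - ∑ a i • y i has class 0. The scalar multiplication of R on Q factors through k:
(a : k) • v = a • v. -/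
theorem sub_gen {R : Type} [CommRing R] {p : ℕ} (hmax : (Ideal.span {(p : R)}).IsMaximal) {q : ℕ}
    (hq : Nat.card (R ⧸ Ideal.span {(p : R)}) = q) (hq1 : 1 < q) {W : Type} [AddCommGroup W] [Module R W] (Y : Submodule R W)
    (hY : ∀ x : W, (p : R) • x ∈ Y) (h0 : Y.toAddSubgroup.index ≠ 0) {n : ℕ} (h1 : Y.toAddSubgroup.index < q ^ n) :
    ∃ (d : ℕ) (y : Fin d → W), d < n ∧ ∀ x, ∃ a : Fin d → R, x - ∑ i, a i • y i ∈ Y := by
  letI : Field (R ⧸ Ideal.span {(p : R)}) := Ideal.Quotient.field _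
  have hT : Module.IsTorsionBySet R (W ⧸ Y) (Ideal.span {(p : R)} : Set R) := by
    rw [Module.isTorsionBySet_span_singleton_iff]
    intro v
    induction v using Submodule.Quotient.induction_on with
    | H x =>
      rw [← Submodule.Quotient.mk_smul, Submodule.Quotient.mk_eq_zero]
      exact hY x
  letI : Module (R ⧸ Ideal.span {(p : R)}) (W ⧸ Y) := hT.module
  have hcard : Nat.card (W ⧸ Y) = Y.toAddSubgroup.index := rfl
  have hfin : Finite (W ⧸ Y) := Nat.finite_of_card_ne_zero (by rw [hcard]; exact h0)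
  have hk : Module.Finite (R ⧸ Ideal.span {(p : R)}) (W ⧸ Y) := inferInstance
  have hc := Module.natCard_eq_pow_finrank (K := R ⧸ Ideal.span {(p : R)}) (V := W ⧸ Y)
  rw [hq, hcard] at hc
  rw [hc] at h1
  let b := Module.finBasis (R ⧸ Ideal.span {(p : R)}) (W ⧸ Y)
  choose y hy using fun i => Submodule.Quotient.mk_surjective Y (b i)
  refine ⟨_, y, (Nat.pow_lt_pow_iff_right hq1).1 h1, fun x => ?_⟩
  have h2 := b.sum_repr (Submodule.Quotient.mk x)
  choose a ha using fun i => Ideal.Quotient.mk_surjective (b.repr (Submodule.Quotient.mk x) i)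
  refine ⟨a, ?_⟩
  rw [← Submodule.Quotient.mk_eq_zero, Submodule.Quotient.mk_sub, sub_eq_zero]
  rw [← h2]
  have h3 : (Submodule.Quotient.mk (∑ i, a i • y i) : W ⧸ Y) = ∑ i, a i • b i := by
    rw [← Submodule.mkQ_apply, map_sum]
    refine Finset.sum_congr rfl fun i _ => ?_
    rw [map_smul, Submodule.mkQ_apply, hy]
  rw [h3]
  refine Finset.sum_congr rfl fun i _ => ?_
  rw [← ha i]
  rfl

end SSN
end

-- from Lib.SSR.G3
section

open NumberField

namespace SSR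

open SSG

variable {F : Type} [Field F] [NumberField F] {C : Type} [NormedField C] [IsUltrametricDist C] {L : LTF F C} {p : ℕ}

/-! Chunk G3 (M). PROOF. Let W be the subring {x : ‖x‖ ≤ 1} of C (or the valuation subring), the ideal {‖x‖ < 1} is maximal, k the residue field, e : 𝓞 F → k, e b = class of tau b: additive (g2_add), e b = 0 iff p divides b
(‖tau b‖ = 1 otherwise), so k has characteristic p and the image E of e is an additive group with p^2 elements; all its elements satisfy y^(p^2) = y (g2_root). E is the set of all roots of y^(p^2) = y in k (at most p^2 roots), so E is stable under products: for z = tau c the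
class of z * tau b is e(b') for some b'. For y in E: Tr y := y + y^p satisfies (Tr y)^p = Tr y, so Tr y is in the prime field (the p roots of y^p = y are the images of the integers 0..p-1); Tr is additive and not identically 0 on E (a polynomial of degree p < p^2).
The maps b ↦ Tr (e c * e b), c modulo p, are p^2 additive maps from 𝓞 F/p to ZMod p (identify the prime field of k with ZMod p), pairwise different (if Tr (y E) = 0 with y ≠ 0 in E, then Tr E = 0 because y E = E). There are exactly p^2 additive maps from 𝓞 F/p (of order p^2, killed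
by p: a 2-dimensional vector space over ZMod p; card of the dual = p^2: Module.card_eq_pow_finrank, Subspace.dual_finrank_eq) to ZMod p: so every additive map is one of them: the map given by m (hadd, hper) is b ↦ Tr (e c * e b); z = tau c. Lift: ‖z tau b + (z tau b)^p - m b‖ < 1 because
the class in k is 0. g3_psi: if ψ = 1 take ζ = 1, m = 0. Otherwise ψ b₀ ≠ 1, ζ = ψ b₀ satisfies ζ^p = ψ (p b₀) = 1 (ψ (n • b) = (ψ b)^n by induction, ψ 0 = 1: from per 0 ) and is a primitive p-th root of 1; every ψ b is a p-th root of 1, hence a power ζ^(m b) (IsPrimitiveRoot.eq_pow_of_pow_eq_one);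
the congruences from ζ^(m(a+b)) = ζ^(m a + m b) (IsPrimitiveRoot.zpow_eq_one_iff_dvd or pow_inj). -/

/-- Additive maps to the prime field are traces. -/
theorem g3_field {k : Type} [Field k] {p : ℕ} (hp : p.Prime) [CharP k p] {G : Type} [AddCommGroup G] (e : G →+ k)
    (hroot : ∀ b, e b ^ (p ^ 2) = e b) (hcard : ∃ T : Finset G, T.card = p ^ 2 ∧ Set.InjOn e (T : Set G)) (m : G →+ ZMod p)
    (hm : ∀ b, e b = 0 → m b = 0) :
    ∃ c : G, ∀ b, e c * e b + (e c * e b) ^ p = ZMod.castHom (dvd_refl p) k (m b) := by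
  classical
  have hfp : Fact p.Prime := ⟨hp⟩
  have h4 : 2 * 2 ≤ p ^ 2 := by have := hp.two_le; nlinarith
  let E : Subfield k := (iterateFrobenius k p 2).eqLocusField (RingHom.id k)
  have hE : ∀ x : k, x ∈ E ↔ x ^ (p ^ 2) = x := fun x => by
    rw [RingHom.mem_eqLocusField, iterateFrobenius_def, RingHom.id_apply]
  -- E is finite
  let P : Polynomial k := Polynomial.X ^ (p ^ 2) - Polynomial.X
  have hP0 : P ≠ 0 := FiniteField.X_pow_card_sub_X_ne_zero k (by omega)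
  have hPd : P.natDegree = p ^ 2 := FiniteField.X_pow_card_sub_X_natDegree_eq k (by omega)
  have hEP : ∀ x : k, x ∈ E ↔ x ∈ P.roots.toFinset := by
    intro x
    rw [hE, Multiset.mem_toFinset, Polynomial.mem_roots hP0, Polynomial.IsRoot.def, Polynomial.eval_sub,
      Polynomial.eval_pow, Polynomial.eval_X, sub_eq_zero]
  have hEeq : (E : Set k) = (P.roots.toFinset : Set k) := by
    ext x
    exact hEP x
  have hfin : Finite E := by
    have h : (E : Set k).Finite := by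
      rw [hEeq]
      exact Finset.finite_toSet _
    exact h
  have hle : P.roots.toFinset.card ≤ p ^ 2 := by
    rw [← hPd]
    exact (Multiset.toFinset_card_le _).trans (Polynomial.card_roots' P)
  obtain ⟨T, hT, hinj⟩ := hcard
  have himg : T.image e = P.roots.toFinset := by
    refine Finset.eq_of_subset_of_card_le ?_ ?_
    · intro x hx
      obtain ⟨b, _, rfl⟩ := Finset.mem_image.1 hx
      exact (hEP _).1 ((hE _).2 (hroot b))
    · rw [Finset.card_image_of_injOn hinj, hT]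
      exact hle
  have hcE : Nat.card E = p ^ 2 := by
    have h1 : Nat.card E = P.roots.toFinset.card := by
      have h2 : Nat.card E = (E : Set k).ncard := rfl
      rw [h2, hEeq, Set.ncard_coe_finset]
    rw [h1, ← himg, Finset.card_image_of_injOn hinj, hT]
  have hsurj : ∀ y : E, ∃ b : G, e b = (y : k) := by
    intro y
    have h1 : (y : k) ∈ T.image e := by
      rw [himg]
      exact (hEP _).1 y.2
    obtain ⟨b, _, hb⟩ := Finset.mem_image.1 h1
    exact ⟨b, hb⟩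
  choose s hs using hsurj
  have hcharE : CharP E p := E.subtype.charP E.subtype.injective p
  let _ : Algebra (ZMod p) E := ZMod.algebra E p
  have hfd : FiniteDimensional (ZMod p) E := inferInstance
  have hrank : Module.finrank (ZMod p) E = 2 := by
    have h1 := Module.natCard_eq_pow_finrank (K := ZMod p) (V := E)
    rw [hcE, Nat.card_zmod] at h1
    exact (Nat.pow_right_injective hp.two_le h1).symm
  -- the functional
  have hker : ∀ b b' : G, e b = e b' → m b = m b' := by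
    intro b b' h
    have h1 := hm (b - b') (by rw [map_sub, h, sub_self])
    rw [map_sub] at h1
    exact sub_eq_zero.1 h1
  let φ : E →+ ZMod p := AddMonoidHom.mk' (fun y => m (s y)) (by
    intro y y'
    rw [← map_add]
    refine hker _ _ ?_
    rw [hs, map_add, hs, hs]
    rfl)
  let f : Module.Dual (ZMod p) E := φ.toZModLinearMap p
  have hnd := traceForm_nondegenerate (ZMod p) E
  let y0 : E := ((Algebra.traceForm (ZMod p) E).toDual hnd).symm f
  have hy0 : ∀ v : E, Algebra.trace (ZMod p) E (y0 * v) = φ v := by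
    intro v
    have h1 := LinearMap.BilinForm.apply_toDual_symm_apply (hB := hnd) f v
    rw [Algebra.traceForm_apply] at h1
    exact h1
  refine ⟨s y0, fun b => ?_⟩
  have hbE : e b ∈ E := (hE _).2 (hroot b)
  have h1 := FiniteField.algebraMap_trace_eq_sum_pow (ZMod p) E (y0 * ⟨e b, hbE⟩)
  rw [hrank, hy0, Nat.card_zmod, Finset.sum_range_succ, Finset.sum_range_one, pow_zero, pow_one, pow_one] at h1
  have h2 : φ ⟨e b, hbE⟩ = m b := hker _ _ (hs _)
  rw [h2] at h1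
  have h3 := congrArg E.subtype h1
  rw [map_add, map_pow, map_mul] at h3
  have h4 : E.subtype (algebraMap (ZMod p) E (m b)) = ZMod.castHom (dvd_refl p) k (m b) :=
    RingHom.congr_fun (Subsingleton.elim (E.subtype.comp (algebraMap (ZMod p) E)) (ZMod.castHom (dvd_refl p) k)) (m b)
  rw [h4] at h3
  rw [hs y0, h3]
  rfl

/-- The unit ball. -/
noncomputable def g3_V (C : Type) [NormedField C] [IsUltrametricDist C] : ValuationSubring C :=
  (NormedField.valuation (K := C)).valuationSubring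

theorem g3_mem (x : C) : x ∈ g3_V C ↔ ‖x‖ ≤ 1 := Iff.rfl

theorem g3_res (x : g3_V C) : IsLocalRing.residue (g3_V C) x = 0 ↔ ‖(x : C)‖ < 1 := by
  rw [IsLocalRing.residue_eq_zero_iff, IsLocalRing.mem_maximalIdeal, mem_nonunits_iff]
  have hx : ‖(x : C)‖ ≤ 1 := (g3_mem _).1 x.2
  constructor
  · intro h
    refine lt_of_le_of_ne hx fun h1 => h ?_
    have h0 : (x : C) ≠ 0 := by
      intro h2
      rw [h2, norm_zero] at h1
      exact zero_ne_one h1
    have hi : (x : C)⁻¹ ∈ g3_V C := by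
      rw [g3_mem, norm_inv, h1, inv_one]
    exact IsUnit.of_mul_eq_one ⟨(x : C)⁻¹, hi⟩ (Subtype.ext (mul_inv_cancel₀ h0))
  · intro h hu
    obtain ⟨y, hy⟩ := hu.exists_right_inv
    have h1 : (x : C) * (y : C) = 1 := congrArg Subtype.val hy
    have h2 : ‖(x : C)‖ * ‖(y : C)‖ = 1 := by rw [← norm_mul, h1, norm_one]
    have hy1 : ‖(y : C)‖ ≤ 1 := (g3_mem _).1 y.2
    have h3 : ‖(x : C)‖ * ‖(y : C)‖ ≤ ‖(x : C)‖ * 1 := mul_le_mul_of_nonneg_left hy1 (norm_nonneg _)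
    rw [h2, mul_one] at h3
    exact absurd h3 (not_le.2 h)

omit [IsUltrametricDist C] in
theorem g3_rep (p N : ℕ) (hp : p ≠ 0) : ∃ T : Finset (𝓞 F), Rep p N T := by
  classical
  have hp0 : (p : 𝓞 F) ≠ 0 := by exact_mod_cast hp
  have hpN0 : Ideal.span {(p : 𝓞 F) ^ N} ≠ ⊥ := by
    rw [Ne, Ideal.span_singleton_eq_bot]; exact pow_ne_zero N hp0
  have hfin : Finite (𝓞 F ⧸ Ideal.span {(p : 𝓞 F) ^ N}) := Ideal.finiteQuotientOfFreeOfNeBot _ hpN0
  have hfr : (Set.range (Quotient.out : (𝓞 F ⧸ Ideal.span {(p : 𝓞 F) ^ N}) → 𝓞 F)).Finite := Set.finite_range _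
  have hout : ∀ y : 𝓞 F ⧸ Ideal.span {(p : 𝓞 F) ^ N}, Ideal.Quotient.mk (Ideal.span {(p : 𝓞 F) ^ N}) (Quotient.out y) = y :=
    fun y => Ideal.Quotient.mk_out y
  refine ⟨hfr.toFinset, fun x => ⟨Quotient.out (Ideal.Quotient.mk (Ideal.span {(p : 𝓞 F) ^ N}) x), ⟨?_, ?_⟩, ?_⟩⟩
  · rw [Set.Finite.mem_toFinset]; exact ⟨_, rfl⟩
  · rw [← Ideal.mem_span_singleton, ← Ideal.Quotient.eq]
    exact (hout _).symm
  · rintro a ⟨ha, hxa⟩
    rw [Set.Finite.mem_toFinset] at ha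
    obtain ⟨y, rfl⟩ := ha
    rw [← Ideal.mem_span_singleton, ← Ideal.Quotient.eq, hout] at hxa
    rw [hxa]

theorem g3_char (hG : GH p L) (m : 𝓞 F → ℤ) (hadd : ∀ a b, (p : ℤ) ∣ m (a + b) - m a - m b) (hper : ∀ a, (p : ℤ) ∣ m ((p : 𝓞 F) * a)) :
    ∃ z : C, z ^ (p ^ 2) = z ∧ ∀ b, ‖z * tau L b + (z * tau L b) ^ p - ((m b : ℤ) : C)‖ < 1 := by
  classical
  have hpp := hG.prime
  have hfp : Fact p.Prime := ⟨hpp⟩
  let k := IsLocalRing.ResidueField (g3_V C)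
  let r : g3_V C →+* k := IsLocalRing.residue (g3_V C)
  have hr : ∀ x : g3_V C, r x = 0 ↔ ‖(x : C)‖ < 1 := g3_res
  have hpk : ((p : ℕ) : k) = 0 := by
    rw [← map_natCast r, hr]
    exact hG.lt
  have hchar : CharP k p := by
    obtain ⟨q, hq⟩ := CharP.exists k
    have h1 : q ∣ p := (CharP.cast_eq_zero_iff k q p).1 hpk
    rcases (Nat.dvd_prime hpp).1 h1 with h2 | h2
    · rw [h2] at hq
      exact absurd (CharP.cast_eq_zero k 1) (by rw [Nat.cast_one]; exact one_ne_zero)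
    · rw [← h2]; exact hq
  let t : 𝓞 F → g3_V C := fun b => ⟨tau L b, (g3_mem _).2 (g2_le hG b)⟩
  let e : 𝓞 F →+ k := AddMonoidHom.mk' (fun b => r (t b)) (by
    intro a b
    rw [← map_add, ← sub_eq_zero, ← map_sub, hr]
    have h1 := g2_add hG a b
    rw [sub_sub] at h1
    exact h1)
  have he : ∀ b, e b = r (t b) := fun _ => rfl
  have htr : ∀ b, tau L b ^ (p ^ 2) = tau L b := by
    intro b
    by_cases hb : (p : 𝓞 F) ∣ b
    · rw [(g2_zero hG).2 hb, zero_pow (by have := hpp.pos; positivity)]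
    · have h1 : p ^ 2 = (p ^ 2 - 1) + 1 := by
        have := Nat.one_le_pow 2 p hpp.pos
        omega
      rw [h1, pow_succ, g2_root hG hb, one_mul]
  have hroot : ∀ b, e b ^ (p ^ 2) = e b := by
    intro b
    rw [he, ← map_pow]
    exact congrArg r (Subtype.ext (htr b))
  have hzero : ∀ b, e b = 0 → (p : 𝓞 F) ∣ b := by
    intro b hb
    by_contra h
    rw [he, hr] at hb
    have h1 : ‖tau L b‖ ^ (p ^ 2 - 1) = 1 := by rw [← norm_pow, g2_root hG h, norm_one]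
    have h2 : p ^ 2 - 1 ≠ 0 := by
      have := hpp.two_le
      have : 2 * 2 ≤ p ^ 2 := by nlinarith
      omega
    have h3 : ‖tau L b‖ = 1 := (pow_eq_one_iff_of_nonneg (norm_nonneg _) h2).1 h1
    exact absurd h3 (ne_of_lt hb)
  obtain ⟨T, hT⟩ := g3_rep (F := F) p 1 hpp.ne_zero
  have hcard : ∃ T : Finset (𝓞 F), T.card = p ^ 2 ∧ Set.InjOn e (T : Set (𝓞 F)) := by
    refine ⟨T, g2_card hG hT, ?_⟩
    intro a ha b hb hab
    have h1 : e (a - b) = 0 := by rw [map_sub, hab, sub_self]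
    have h2 := hzero _ h1
    refine (hT a).unique ⟨ha, ?_⟩ ⟨hb, ?_⟩
    · rw [sub_self]
      exact dvd_zero _
    · rw [pow_one]
      exact h2
  have hcong : ∀ x y : ℤ, (p : ℤ) ∣ x - y → ((x : ℤ) : ZMod p) = (y : ZMod p) := by
    intro x y h
    rw [← sub_eq_zero, ← Int.cast_sub]
    exact (ZMod.intCast_zmod_eq_zero_iff_dvd _ p).2 h
  let m' : 𝓞 F →+ ZMod p := AddMonoidHom.mk' (fun b => ((m b : ℤ) : ZMod p)) (by
    intro a b
    rw [← Int.cast_add]
    refine hcong _ _ ?_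
    have h1 := hadd a b
    rw [sub_sub] at h1
    exact h1)
  have hm' : ∀ b, e b = 0 → m' b = 0 := by
    intro b hb
    obtain ⟨a, rfl⟩ := hzero b hb
    exact (ZMod.intCast_zmod_eq_zero_iff_dvd _ p).2 (hper a)
  obtain ⟨c, hc⟩ := g3_field hpp e hroot hcard m' hm'
  refine ⟨tau L c, htr c, fun b => ?_⟩
  have h1 := hc b
  have h2 : ZMod.castHom (dvd_refl p) k (m' b) = ((m b : ℤ) : k) := map_intCast _ _
  rw [h2, he, he, ← map_mul, ← map_pow, ← map_add, ← map_intCast r, ← sub_eq_zero, ← map_sub, hr] at h1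
  exact h1

omit [IsUltrametricDist C] in
theorem g3_psi (hG : GH p L) {ψ : 𝓞 F → C} (hψ : Ach p ψ) :
    ∃ ζ : C, ζ ^ p = 1 ∧ ∃ m : 𝓞 F → ℕ, (∀ b, ψ b = ζ ^ m b) ∧ (∀ a b, (p : ℤ) ∣ (m (a + b) : ℤ) - m a - m b) ∧
      ∀ a, (p : ℤ) ∣ (m ((p : 𝓞 F) * a) : ℤ) := by
  classical
  have hpp := hG.prime
  have hfp : Fact p.Prime := ⟨hpp⟩
  have h0 : ψ 0 = 1 := by
    have h := hψ.per 0
    rwa [mul_zero] at h
  have hn : ∀ (b : 𝓞 F) (n : ℕ), ψ ((n : 𝓞 F) * b) = ψ b ^ n := by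
    intro b n
    induction n with
    | zero => rw [Nat.cast_zero, zero_mul, pow_zero, h0]
    | succ n ih => rw [Nat.cast_succ, add_mul, one_mul, hψ.add, ih, pow_succ]
  have hpow : ∀ b, ψ b ^ p = 1 := fun b => by rw [← hn, hψ.per]
  by_cases htriv : ∀ b, ψ b = 1
  · refine ⟨1, one_pow _, fun _ => 0, fun b => ?_, fun a b => ?_, fun a => ?_⟩
    · rw [pow_zero, htriv]
    · simp
    · simp
  · push Not at htriv
    obtain ⟨b₀, hb₀⟩ := htriv
    have hord : orderOf (ψ b₀) = p := orderOf_eq_prime (hpow b₀) hb₀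
    have hprim : IsPrimitiveRoot (ψ b₀) p := hord ▸ IsPrimitiveRoot.orderOf (ψ b₀)
    have hne : NeZero p := ⟨hpp.ne_zero⟩
    have hex : ∀ b, ∃ i : ℕ, ψ b = ψ b₀ ^ i := by
      intro b
      obtain ⟨i, _, hi⟩ := hprim.eq_pow_of_pow_eq_one (hpow b)
      exact ⟨i, hi.symm⟩
    choose m hm using hex
    have key : ∀ x y : ℕ, ψ b₀ ^ x = ψ b₀ ^ y → (p : ℤ) ∣ (x : ℤ) - y := by
      intro x y h
      have hz : ψ b₀ ≠ 0 := hprim.ne_zero hpp.ne_zero
      have h1 : ψ b₀ ^ ((x : ℤ) - y) = 1 := by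
        rw [zpow_sub₀ hz, zpow_natCast, zpow_natCast, h, div_self (pow_ne_zero _ hz)]
      exact (hprim.zpow_eq_one_iff_dvd _).1 h1
    refine ⟨ψ b₀, hpow b₀, m, hm, fun a b => ?_, fun a => ?_⟩
    · have h1 := key (m (a + b)) (m a + m b) (by rw [← hm, hψ.add, pow_add, ← hm, ← hm])
      rw [Nat.cast_add, ← sub_sub] at h1
      exact h1
    · have h1 := key (m ((p : 𝓞 F) * a)) 0 (by rw [← hm, hψ.per, pow_zero])
      rw [Nat.cast_zero, sub_zero] at h1
      exact h1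

end SSR
end

-- from Lib.SSR.G4B
section

open NumberField

namespace SSR

open SSG

variable {F : Type} [Field F] [NumberField F] {C : Type} [NormedField C] [IsUltrametricDist C] {L : LTF F C} {p : ℕ}

/-! Chunk G4B (M). The Gauss sums. PROOF. q = p^2, s = X_1(1), π = ζ - 1 with ζ, m from g3_psi, z from g3_char (for the integers m b). M b = z tau b + (z tau b)^p, (z tau b)^(p^2) = z tau b: ‖M b - m b‖ ≤ ‖p‖ (g4_close).
g4_exp: ψ b = sum over i < p of P_i(M b) π^i + (norm ≤ ‖p‖), P_i(M) = (prod over l < i of (M - l)) / i! = sum over e ≤ i of c(i,e) M^e with ‖c(i,e)‖ ≤ 1 (coefficients of the polynomial prod (X - l), natural/integer numbers, divided by i! of norm 1).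
M b^e = sum over a ≤ e of C(e,a) (z tau b)^(a + p (e - a)) (add_pow). So sum over b in T of ψ b (tau b)^j = (norm ≤ ‖p‖) + sum over i < p, e ≤ i, a ≤ e of (integral coefficient) π^i * (sum over b of (tau b)^(j + a + p (e - a))). By g2_sum the inner sum is 0 unless
(q - 1) | n = j + a + p (e - a) (n > 0 since j ≥ 1); n ≤ (q - 2) + p (p - 1) < 2 (q - 1), so then n = q - 1, and the inner sum q - 1 has norm ≤ 1. Multiply by s^j: (1) ‖s‖^j ‖p‖ < ‖p‖ (j ≥ 1, ‖s‖ < 1, p ≠ 0). (2) for a term with n = q - 1: ‖s‖^j ‖π‖^i ≤ ‖s‖^j ‖π‖^e =: A (e ≤ i,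
‖π‖ ≤ 1). Put f = e - a. A^(q-1) = (‖s‖^(q-1))^j (‖π‖^(p-1))^(e (p+1)) ≤ ‖p‖^(j + e (p + 1)) (g1_s, g4_root; q - 1 = (p-1)(p+1)); j = q - 1 - a - p f and e = a + f: j + e (p+1) = q - 1 + p a + f > q - 1 because (a, f) ≠ (0, 0) (otherwise j = q - 1). So A^(q-1) < ‖p‖^(q-1) (0 < ‖p‖ < 1), A < ‖p‖.
A finite ultrametric sum of terms < ‖p‖ is < ‖p‖. X_1(b)^j = s^j (tau b)^j (g2_X). It is convenient to prove first a bound for arbitrary coefficients: the abstract lemma g4_term (norm of coefficient * π^i * s^j * inner sum < ‖p‖). -/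

theorem g4b_tau (hG : GH p L) (b : 𝓞 F) : tau L b ^ (p ^ 2) = tau L b := by
  have hp2 := hG.prime.two_le
  by_cases hb : (p : 𝓞 F) ∣ b
  · rw [(g2_zero hG).2 hb, zero_pow (by positivity)]
  · have h := g2_root hG hb
    have e : p ^ 2 = (p ^ 2 - 1) + 1 := by
      have : 1 ≤ p ^ 2 := Nat.one_le_pow _ _ (by omega)
      omega
    rw [e, pow_succ, h, one_mul]

/-- the falling factorial as a polynomial with integral coefficients -/
theorem g4b_desc {C : Type} [NormedField C] [IsUltrametricDist C] (i : ℕ) : ∃ c : ℕ → C, (∀ e, ‖c e‖ ≤ 1) ∧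
    ∀ M : C, ∏ l ∈ Finset.range i, (M - (l : C)) = ∑ e ∈ Finset.range (i + 1), c e * M ^ e := by
  refine ⟨fun e => (((descPochhammer ℤ i).coeff e : ℤ) : C), fun e => IsUltrametricDist.norm_intCast_le_one C _, fun M => ?_⟩
  rw [← descPochhammer_eval_eq_prod_range, ← descPochhammer_map (Int.castRingHom C), Polynomial.eval_map,
    Polynomial.eval₂_eq_sum_range' _ (n := i + 1) (by rw [descPochhammer_natDegree]; omega)]
  rfl

/-- the numerical estimate -/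
theorem g4b_num {p j i e a : ℕ} (hp : 2 ≤ p) (h1 : 1 ≤ j) (h2 : j < p ^ 2 - 1) (hi : i < p) (he : e ≤ i) (ha : a ≤ e)
    (hd : (p ^ 2 - 1) ∣ j + (a + p * (e - a))) {P S W : ℝ} (hP : 0 < P) (hP1 : P < 1) (hS : 0 ≤ S) (hSP : S ^ (p ^ 2 - 1) = P)
    (hW : 0 ≤ W) (hW1 : W ≤ 1) (hWP : W ^ (p - 1) ≤ P) : W ^ i * S ^ j < P := by
  obtain ⟨f, rfl⟩ := Nat.exists_eq_add_of_le ha
  rw [Nat.add_sub_cancel_left] at hd
  have hpp : 1 ≤ p ^ 2 := Nat.one_le_pow _ _ (by omega)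
  have hpe : (a + f) * p ≤ p ^ 2 - p := by
    have : (a + f) + 1 ≤ p := by omega
    have h3 : ((a + f) + 1) * p ≤ p * p := Nat.mul_le_mul_right p this
    rw [pow_two]
    have h4 : ((a + f) + 1) * p = (a + f) * p + p := by ring
    omega
  have hn : j + (a + p * f) = p ^ 2 - 1 := by
    obtain ⟨k, hk⟩ := hd
    have h3 : j + (a + p * f) < 2 * (p ^ 2 - 1) := by
      have h5 : a + p * f ≤ (a + f) * p := by nlinarith
      have h6 : p ≤ p ^ 2 := by nlinarith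
      omega
    have h4 : k = 1 := by
      rcases Nat.lt_or_ge k 1 with h | h
      · have : k = 0 := by omega
        rw [this] at hk
        omega
      · by_contra hcon
        have h5 : 2 ≤ k := by omega
        have h6 : (p ^ 2 - 1) * 2 ≤ (p ^ 2 - 1) * k := Nat.mul_le_mul_left _ h5
        omega
    rw [hk, h4, mul_one]
  have hp1 : (p ^ 2 - 1) = (p - 1) * (p + 1) := by
    obtain ⟨r, rfl⟩ := Nat.exists_eq_add_of_le hp
    have : 2 + r - 1 = r + 1 := by omega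
    rw [this]
    have h5 : (2 + r) ^ 2 = (r + 1) * (2 + r + 1) + 1 := by ring
    omega
  have hexp : p ^ 2 - 1 + 1 ≤ j + (a + f) * (p + 1) := by
    have h3 : 1 ≤ p * a + f := by
      rcases Nat.eq_zero_or_pos a with h | h
      · rcases Nat.eq_zero_or_pos f with h' | h'
        · rw [h, h'] at hn
          omega
        · omega
      · have : 1 ≤ p * a := Nat.mul_pos (by omega) h
        omega
    have h4 : j + (a + f) * (p + 1) = (j + (a + p * f)) + (p * a + f) := by ring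
    rw [h4, hn]
    omega
  have hWi : W ^ i ≤ W ^ (a + f) := pow_le_pow_of_le_one hW hW1 he
  refine lt_of_pow_lt_pow_left₀ (p ^ 2 - 1) hP.le ?_
  calc (W ^ i * S ^ j) ^ (p ^ 2 - 1) ≤ (W ^ (a + f) * S ^ j) ^ (p ^ 2 - 1) :=
        pow_le_pow_left₀ (by positivity) (mul_le_mul_of_nonneg_right hWi (by positivity)) _
    _ = (W ^ (p - 1)) ^ ((a + f) * (p + 1)) * (S ^ (p ^ 2 - 1)) ^ j := by
        rw [mul_pow, ← pow_mul, ← pow_mul, ← pow_mul, ← pow_mul]
        congr 1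
        · rw [hp1]; ring_nf
        · rw [mul_comm]
    _ ≤ P ^ ((a + f) * (p + 1)) * P ^ j := by
        rw [hSP]
        exact mul_le_mul_of_nonneg_right (pow_le_pow_left₀ (by positivity) hWP _) (by positivity)
    _ = P ^ (j + (a + f) * (p + 1)) := by rw [← pow_add, add_comm]
    _ ≤ P ^ (p ^ 2 - 1 + 1) := pow_le_pow_of_le_one hP.le hP1.le hexp
    _ < P ^ (p ^ 2 - 1) := by
        rw [pow_succ]
        exact mul_lt_of_lt_one_right (by positivity) hP1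

theorem g4b_term (hG : GH p L) {T : Finset (𝓞 F)} (hT : Rep p 1 T) {j : ℕ} (h1 : 1 ≤ j) (h2 : j < p ^ 2 - 1) {ζ : C} (hζ : ζ ^ p = 1)
    {i e a : ℕ} (hi : i < p) (he : e ≤ i) (ha : a ≤ e) :
    ‖(ζ - 1) ^ i * L.X 1 1 ^ j * ∑ b ∈ T, tau L b ^ (j + (a + p * (e - a)))‖ < ‖(p : C)‖ := by
  have hp0 : 0 < ‖(p : C)‖ := norm_pos_iff.2 (g1_p0 hG)
  rw [g2_sum hG hT, if_neg (by omega)]
  by_cases hd : (p ^ 2 - 1) ∣ j + (a + p * (e - a))
  · rw [if_pos hd, norm_mul, norm_mul, norm_pow, norm_pow]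
    have h3 : ‖(p : C) ^ 2 - 1‖ ≤ 1 := by
      refine g4a_sub _ _ ?_ norm_one.le
      rw [norm_pow]
      exact pow_le_one₀ (norm_nonneg _) hG.lt.le
    refine (mul_le_of_le_one_right (by positivity) h3).trans_lt ?_
    exact g4b_num hG.prime.two_le h1 h2 hi he ha hd hp0 hG.lt (norm_nonneg _) (g1_s hG).1 (norm_nonneg _) (g4a_pi hG.prime hζ)
      (g4_root hG.prime hG.lt hζ)
  · rw [if_neg hd, mul_zero, norm_zero]
    exact hp0

theorem g4b_lt {α : Type*} (s : Finset α) (f : α → C) (R : ℝ) (hR : 0 < R) (h : ∀ i ∈ s, ‖f i‖ < R) : ‖∑ i ∈ s, f i‖ < R := by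
  classical
  induction s using Finset.induction_on with
  | empty => simpa using hR
  | insert a s ha ih =>
    rw [Finset.sum_insert ha]
    exact (IsUltrametricDist.norm_add_le_max _ _).trans_lt
      (max_lt (h a (Finset.mem_insert_self a s)) (ih fun i hi => h i (Finset.mem_insert_of_mem hi)))

/-- the terms of the binomial expansion of the powers of `M` -/
theorem g4b_pow (z t : C) (p e j : ℕ) : (z * t + (z * t) ^ p) ^ e * t ^ j =
    ∑ a ∈ Finset.range (e + 1), (z ^ (a + p * (e - a)) * ((e.choose a : ℕ) : C)) * t ^ (j + (a + p * (e - a))) := by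
  rw [add_pow, Finset.sum_mul]
  refine Finset.sum_congr rfl fun a _ => ?_
  rw [← pow_mul, mul_pow, mul_pow, pow_add, pow_add, pow_add]
  ring

theorem g4b_M (hG : GH p L) {T : Finset (𝓞 F)} (hT : Rep p 1 T) {j : ℕ} (h1 : 1 ≤ j) (h2 : j < p ^ 2 - 1) {ζ : C} (hζ : ζ ^ p = 1)
    {z : C} (hz : ‖z‖ ≤ 1) {i e : ℕ} (hi : i < p) (he : e ≤ i) :
    ‖(ζ - 1) ^ i * L.X 1 1 ^ j * ∑ b ∈ T, (z * tau L b + (z * tau L b) ^ p) ^ e * tau L b ^ j‖ < ‖(p : C)‖ := by
  have hp0 : 0 < ‖(p : C)‖ := norm_pos_iff.2 (g1_p0 hG)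
  have e1 : (ζ - 1) ^ i * L.X 1 1 ^ j * ∑ b ∈ T, (z * tau L b + (z * tau L b) ^ p) ^ e * tau L b ^ j =
      ∑ a ∈ Finset.range (e + 1), (z ^ (a + p * (e - a)) * ((e.choose a : ℕ) : C)) *
        ((ζ - 1) ^ i * L.X 1 1 ^ j * ∑ b ∈ T, tau L b ^ (j + (a + p * (e - a)))) := by
    rw [Finset.sum_congr rfl fun b _ => g4b_pow z (tau L b) p e j, Finset.sum_comm, Finset.mul_sum]
    refine Finset.sum_congr rfl fun a _ => ?_
    rw [← Finset.mul_sum]
    ring
  rw [e1]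
  refine g4b_lt _ _ _ hp0 fun a ha => ?_
  rw [norm_mul]
  refine (mul_le_of_le_one_left (norm_nonneg _) ?_).trans_lt
    (g4b_term hG hT h1 h2 hζ hi he (by have := Finset.mem_range.1 ha; omega))
  rw [norm_mul, norm_pow]
  exact mul_le_one₀ (pow_le_one₀ (norm_nonneg _) hz) (norm_nonneg _) (IsUltrametricDist.norm_natCast_le_one C _)

theorem g4b_P (hG : GH p L) {T : Finset (𝓞 F)} (hT : Rep p 1 T) {j : ℕ} (h1 : 1 ≤ j) (h2 : j < p ^ 2 - 1) {ζ : C} (hζ : ζ ^ p = 1)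
    {z : C} (hz : ‖z‖ ≤ 1) {i : ℕ} (hi : i < p) :
    ‖∑ b ∈ T, (∏ l ∈ Finset.range i, ((z * tau L b + (z * tau L b) ^ p) - (l : C))) / ((i.factorial : ℕ) : C) * (ζ - 1) ^ i *
      L.X 1 b ^ j‖ < ‖(p : C)‖ := by
  have hp0 : 0 < ‖(p : C)‖ := norm_pos_iff.2 (g1_p0 hG)
  obtain ⟨c, hc, hcM⟩ := g4b_desc (C := C) i
  have e1 : ∑ b ∈ T, (∏ l ∈ Finset.range i, ((z * tau L b + (z * tau L b) ^ p) - (l : C))) / ((i.factorial : ℕ) : C) * (ζ - 1) ^ i *
      L.X 1 b ^ j = ∑ e ∈ Finset.range (i + 1), (c e / ((i.factorial : ℕ) : C)) *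
        ((ζ - 1) ^ i * L.X 1 1 ^ j * ∑ b ∈ T, (z * tau L b + (z * tau L b) ^ p) ^ e * tau L b ^ j) := by
    simp only [Finset.mul_sum]
    rw [Finset.sum_comm]
    refine Finset.sum_congr rfl fun b _ => ?_
    rw [hcM, g2_X hG b, mul_pow, Finset.sum_div, Finset.sum_mul, Finset.sum_mul]
    refine Finset.sum_congr rfl fun e _ => ?_
    ring
  rw [e1]
  refine g4b_lt _ _ _ hp0 fun e he => ?_
  rw [norm_mul, norm_div, g4_fac hG.prime hG.lt hi, div_one]
  exact (mul_le_of_le_one_left (norm_nonneg _) (hc e)).trans_lt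
    (g4b_M hG hT h1 h2 hζ hz hi (by have := Finset.mem_range.1 he; omega))

theorem g4_gauss (hG : GH p L) {ψ : 𝓞 F → C} (hψ : Ach p ψ) {T : Finset (𝓞 F)} (hT : Rep p 1 T) {j : ℕ} (h1 : 1 ≤ j) (h2 : j < p ^ 2 - 1) :
    ‖∑ b ∈ T, ψ b * L.X 1 b ^ j‖ < ‖(p : C)‖ := by
  have hp0 : 0 < ‖(p : C)‖ := norm_pos_iff.2 (g1_p0 hG)
  have hp2 := hG.prime.two_le
  obtain ⟨ζ, hζ, m, hm1, hm2, hm3⟩ := g3_psi hG hψ
  obtain ⟨z, hz, hzm⟩ := g3_char hG (fun b => (m b : ℤ)) hm2 hm3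
  have hz1 : ‖z‖ ≤ 1 := by
    by_contra hcon
    rw [not_le] at hcon
    have h3 : ‖z‖ ^ (p ^ 2) = ‖z‖ := by rw [← norm_pow, hz]
    have h4 : ‖z‖ ^ 1 < ‖z‖ ^ (p ^ 2) := pow_lt_pow_right₀ hcon (by nlinarith)
    rw [h3, pow_one] at h4
    exact lt_irrefl _ h4
  have hMb : ∀ b, ‖(z * tau L b + (z * tau L b) ^ p) - ((m b : ℕ) : C)‖ ≤ ‖(p : C)‖ := by
    intro b
    have h3 := hzm b
    have h4 : (z * tau L b) ^ (p ^ 2) = z * tau L b := by rw [mul_pow, hz, g4b_tau hG b]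
    have h5 := g4_close hG.prime hG.lt h4 h3
    simpa using h5
  have hE : ∀ b, ‖ψ b - ∑ i ∈ Finset.range p, (∏ l ∈ Finset.range i, ((z * tau L b + (z * tau L b) ^ p) - (l : C))) /
      ((i.factorial : ℕ) : C) * (ζ - 1) ^ i‖ ≤ ‖(p : C)‖ := by
    intro b
    rw [hm1 b]
    exact g4_exp hG.prime hG.lt hζ (hMb b)
  have e1 : ∑ b ∈ T, ψ b * L.X 1 b ^ j =
      (∑ b ∈ T, (ψ b - ∑ i ∈ Finset.range p, (∏ l ∈ Finset.range i, ((z * tau L b + (z * tau L b) ^ p) - (l : C))) /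
        ((i.factorial : ℕ) : C) * (ζ - 1) ^ i) * L.X 1 b ^ j) +
      ∑ i ∈ Finset.range p, ∑ b ∈ T, (∏ l ∈ Finset.range i, ((z * tau L b + (z * tau L b) ^ p) - (l : C))) /
        ((i.factorial : ℕ) : C) * (ζ - 1) ^ i * L.X 1 b ^ j := by
    rw [Finset.sum_comm, ← Finset.sum_add_distrib]
    refine Finset.sum_congr rfl fun b _ => ?_
    rw [← Finset.sum_mul]
    ring
  have hs := g1_s hG
  rw [e1]
  refine (IsUltrametricDist.norm_add_le_max _ _).trans_lt (max_lt ?_ ?_)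
  · refine g4b_lt _ _ _ hp0 fun b _ => ?_
    have h6 : ‖L.X 1 b ^ j‖ = ‖tau L b‖ ^ j * ‖L.X 1 1‖ ^ j := by rw [norm_pow, g2_X hG b, norm_mul, mul_pow]
    rw [norm_mul, h6]
    have h3 : ‖tau L b‖ ^ j ≤ 1 := pow_le_one₀ (norm_nonneg _) (g2_le hG b)
    have h4 : ‖L.X 1 1‖ ^ j < 1 := pow_lt_one₀ (norm_nonneg _) hs.2.2 (by omega)
    have h5 : ‖tau L b‖ ^ j * ‖L.X 1 1‖ ^ j < 1 := by
      calc _ ≤ 1 * ‖L.X 1 1‖ ^ j := mul_le_mul_of_nonneg_right h3 (by positivity)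
        _ < 1 := by rwa [one_mul]
    calc _ ≤ ‖(p : C)‖ * (‖tau L b‖ ^ j * ‖L.X 1 1‖ ^ j) := mul_le_mul_of_nonneg_right (hE b) (by positivity)
      _ < ‖(p : C)‖ * 1 := mul_lt_mul_of_pos_left h5 hp0
      _ = _ := mul_one _
  · refine g4b_lt _ _ _ hp0 fun i hi => ?_
    exact g4b_P hG hT h1 h2 hζ hz1 (Finset.mem_range.1 hi)

end SSR
end

-- from Lib.SSR.G5
section

open NumberField

namespace SSR

open SSG

variable {F : Type} [Field F] [NumberField F] {C : Type} [NormedField C] [IsUltrametricDist C] {L : LTF F C} {p : ℕ}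

/-! Chunk G5 (S/M). Level 1. PROOF. The trivial character 1 is an Ach. ‖ψ b‖ = 1 ((ψ b)^p = ψ (p b) = 1). g5_sum: if ψ = 1 on 𝓞 F: card T = p^2 (g2_card). Otherwise there is c with ψ c ≠ 1; S = sum over T of ψ b = sum over T of ψ (b + c) (b + c is congruent to a unique element of T, and ψ only
depends on the class modulo p: ψ a = ψ b ψ (a - b)), so S = ψ c S, S = 0. g5_one by cases. j = 0: both sums are 0 or p^2, ‖p^2‖ < ‖p‖. 1 ≤ j < p^2 - 1: g4_gauss for ψ and for 1 (ultrametric difference). j = p^2 - 1: X^(p^2-1) = p for p not dividing b and 0 otherwise (g1_pow, g1_iff):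
the sum is p (S - 1) where S = sum over T of ψ (exactly one element of T is divisible by p, and ψ = 1 there): S in {0, p^2}: norm ≤ ‖p‖, difference of norm ≤ ‖p‖ ‖p^2‖ < ‖p‖. j ≥ p^2: X^j = p X^(j - (p^2 - 1)) (also for p | b: 0 = 0, since j - (p^2-1) ≥ 1): each term has norm
≤ ‖p‖ ‖X_1 b‖ < ‖p‖ (ok.small). g5_pol: Q = sum of coeff j * X^j (Polynomial.eval_eq_sum_range), finite ultrametric sum; strictness: the maximum of finitely many numbers < ‖p‖ (p ≠ 0: g1_p0; for the empty sum 0 < ‖p‖). -/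

omit [IsUltrametricDist C] in
theorem g5_zero {ψ : 𝓞 F → C} (hψ : Ach p ψ) : ψ 0 = 1 := by
  have := hψ.per 0
  rwa [mul_zero] at this

omit [IsUltrametricDist C] in
theorem g5_nat {ψ : 𝓞 F → C} (hψ : Ach p ψ) (b : 𝓞 F) (n : ℕ) : ψ ((n : 𝓞 F) * b) = ψ b ^ n := by
  induction n with
  | zero => rw [Nat.cast_zero, zero_mul, pow_zero, g5_zero hψ]
  | succ n ih =>
    have e : ((n + 1 : ℕ) : 𝓞 F) * b = (n : 𝓞 F) * b + b := by push_cast; ring
    rw [e, hψ.add, ih, pow_succ]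

omit [IsUltrametricDist C] in
theorem g5_norm (hp : p ≠ 0) {ψ : 𝓞 F → C} (hψ : Ach p ψ) (b : 𝓞 F) : ‖ψ b‖ = 1 := by
  have h1 : ψ b ^ p = 1 := by rw [← g5_nat hψ, hψ.per]
  have h2 : ‖ψ b‖ ^ p = 1 := by rw [← norm_pow, h1, norm_one]
  exact (pow_eq_one_iff_of_nonneg (norm_nonneg _) hp).1 h2

omit [IsUltrametricDist C] in
theorem g5_cong {ψ : 𝓞 F → C} (hψ : Ach p ψ) {x a : 𝓞 F} (h : (p : 𝓞 F) ^ 1 ∣ x - a) : ψ x = ψ a := by
  obtain ⟨d, hd⟩ := h
  have e : x = a + (p : 𝓞 F) * d := by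
    rw [pow_one] at hd
    rw [← hd]; ring
  rw [e, hψ.add, hψ.per, mul_one]

omit [IsUltrametricDist C] in
theorem g5_triv : Ach p (fun _ : 𝓞 F => (1 : C)) := ⟨fun _ _ => by rw [mul_one], fun _ => rfl⟩

theorem g5_lt {ι : Type} (s : Finset ι) (f : ι → C) {r : ℝ} (hr : 0 < r) (h : ∀ i ∈ s, ‖f i‖ < r) :
    ‖∑ i ∈ s, f i‖ < r := by
  classical
  induction s using Finset.induction_on with
  | empty => rw [Finset.sum_empty, norm_zero]; exact hr
  | insert a s ha ih =>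
    rw [Finset.sum_insert ha]
    refine lt_of_le_of_lt (IsUltrametricDist.norm_add_le_max _ _) (max_lt ?_ ?_)
    · exact h a (Finset.mem_insert_self a s)
    · exact ih fun i hi => h i (Finset.mem_insert_of_mem hi)

theorem g5_le {ι : Type} (s : Finset ι) (f : ι → C) {r : ℝ} (hr : 0 ≤ r) (h : ∀ i ∈ s, ‖f i‖ ≤ r) :
    ‖∑ i ∈ s, f i‖ ≤ r := by
  classical
  induction s using Finset.induction_on with
  | empty => rw [Finset.sum_empty, norm_zero]; exact hr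
  | insert a s ha ih =>
    rw [Finset.sum_insert ha]
    refine le_trans (IsUltrametricDist.norm_add_le_max _ _) (max_le ?_ ?_)
    · exact h a (Finset.mem_insert_self a s)
    · exact ih fun i hi => h i (Finset.mem_insert_of_mem hi)

theorem g5_sub {x y : C} {r : ℝ} (hx : ‖x‖ < r) (hy : ‖y‖ < r) : ‖x - y‖ < r := by
  rw [sub_eq_add_neg]
  refine lt_of_le_of_lt (IsUltrametricDist.norm_add_le_max _ _) (max_lt hx ?_)
  rw [norm_neg]; exact hy

theorem g5_sub_le {x y : C} {r : ℝ} (hx : ‖x‖ ≤ r) (hy : ‖y‖ ≤ r) : ‖x - y‖ ≤ r := by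
  rw [sub_eq_add_neg]
  refine le_trans (IsUltrametricDist.norm_add_le_max _ _) (max_le hx ?_)
  rw [norm_neg]; exact hy

theorem g5_sum (hG : GH p L) {ψ : 𝓞 F → C} (hψ : Ach p ψ) {T : Finset (𝓞 F)} (hT : Rep p 1 T) :
    ∑ b ∈ T, ψ b = 0 ∨ ∑ b ∈ T, ψ b = (p : C) ^ 2 := by
  classical
  by_cases h : ∀ c, ψ c = 1
  · right
    rw [Finset.sum_congr rfl (fun b _ => h b), Finset.sum_const, g2_card hG hT, nsmul_eq_mul, mul_one, Nat.cast_pow]
  · left
    push Not at h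
    obtain ⟨c, hc⟩ := h
    choose σ hσ hσu using fun x => (hT x)
    have e1 : ∑ b ∈ T, ψ b = ∑ b ∈ T, ψ (b + c) := by
      symm
      refine Finset.sum_bij (fun b _ => σ (b + c)) ?_ ?_ ?_ ?_
      · intro b _
        exact (hσ (b + c)).1
      · intro b1 h1 b2 h2 h12
        have a1 := (hσ (b1 + c)).2
        have a2 := (hσ (b2 + c)).2
        rw [h12] at a1
        have a3 : (p : 𝓞 F) ^ 1 ∣ b1 - b2 := by
          have := dvd_sub a1 a2
          have e : b1 + c - σ (b2 + c) - (b2 + c - σ (b2 + c)) = b1 - b2 := by ring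
          rwa [e] at this
        have a4 : (p : 𝓞 F) ^ 1 ∣ b1 - b1 := by rw [sub_self]; exact dvd_zero _
        have a5 := hσu b1 b1 ⟨h1, a4⟩
        have a6 := hσu b1 b2 ⟨h2, a3⟩
        rw [a5, a6]
      · intro a ha
        refine ⟨σ (a - c), (hσ (a - c)).1, ?_⟩
        have a1 := (hσ (a - c)).2
        have a2 : (p : 𝓞 F) ^ 1 ∣ (σ (a - c) + c) - a := by
          have := (dvd_neg (a := (p : 𝓞 F) ^ 1) (b := a - c - σ (a - c))).2 a1
          have e : -(a - c - σ (a - c)) = (σ (a - c) + c) - a := by ring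
          rwa [e] at this
        exact (hσu (σ (a - c) + c) a ⟨ha, a2⟩).symm
      · intro b _
        exact g5_cong hψ (hσ (b + c)).2
    have e2 : ∑ b ∈ T, ψ (b + c) = (∑ b ∈ T, ψ b) * ψ c := by
      rw [Finset.sum_mul]
      exact Finset.sum_congr rfl fun b _ => hψ.add b c
    have e3 : (∑ b ∈ T, ψ b) * (ψ c - 1) = 0 := by
      rw [mul_sub, mul_one, ← e2, ← e1, sub_self]
    rcases mul_eq_zero.1 e3 with h0 | h0
    · exact h0
    · exact absurd (sub_eq_zero.1 h0) hc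

theorem g5_pp (hG : GH p L) : 0 < ‖(p : C)‖ ∧ ‖(p : C) ^ 2‖ < ‖(p : C)‖ ∧ ‖(p : C) ^ 2‖ ≤ 1 := by
  have h0 : 0 < ‖(p : C)‖ := norm_pos_iff.2 (g1_p0 hG)
  have h1 := hG.lt
  rw [norm_pow]
  refine ⟨h0, ?_, ?_⟩
  · nlinarith
  · nlinarith

theorem g5_zero_sum (hG : GH p L) {ψ : 𝓞 F → C} (hψ : Ach p ψ) {T : Finset (𝓞 F)} (hT : Rep p 1 T) :
    ‖∑ b ∈ T, ψ b‖ < ‖(p : C)‖ := by
  obtain ⟨h0, h1, _⟩ := g5_pp hG
  rcases g5_sum hG hψ hT with h | h
  · rw [h, norm_zero]; exact h0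
  · rw [h]; exact h1

/-- the case `j = p ^ 2 - 1` -/
theorem g5_mid (hG : GH p L) {ψ : 𝓞 F → C} (hψ : Ach p ψ) {T : Finset (𝓞 F)} (hT : Rep p 1 T) :
    ∑ b ∈ T, ψ b * L.X 1 b ^ (p ^ 2 - 1) = (p : C) * (∑ b ∈ T, ψ b - 1) := by
  classical
  obtain ⟨b0, ⟨hb0, hd0⟩, hu0⟩ := hT 0
  have hp2 : p ^ 2 - 1 ≠ 0 := by
    have := hG.three
    have : 3 ^ 2 ≤ p ^ 2 := Nat.pow_le_pow_left this 2
    omega
  have hpb0 : (p : 𝓞 F) ∣ b0 := by
    rw [zero_sub, pow_one, dvd_neg] at hd0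
    exact hd0
  have hψ0 : ψ b0 = 1 := by
    have : (p : 𝓞 F) ^ 1 ∣ b0 - 0 := by rw [sub_zero, pow_one]; exact hpb0
    rw [g5_cong hψ this, g5_zero hψ]
  have e1 : ∀ b ∈ T.erase b0, ψ b * L.X 1 b ^ (p ^ 2 - 1) = (p : C) * ψ b := by
    intro b hb
    have hb' := Finset.mem_erase.1 hb
    have hnd : ¬ (p : 𝓞 F) ∣ b := by
      intro hd
      apply hb'.1
      apply hu0
      refine ⟨hb'.2, ?_⟩
      rw [zero_sub, pow_one, dvd_neg]
      exact hd
    rw [g1_pow hG hnd, mul_comm]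
  rw [← Finset.add_sum_erase T _ hb0, ← Finset.add_sum_erase T (fun b => ψ b) hb0, Finset.sum_congr rfl e1, ← Finset.mul_sum,
    (g1_iff hG b0).2 hpb0, zero_pow hp2, hψ0]
  ring

/-- the case `j ≥ p ^ 2` -/
theorem g5_big (hG : GH p L) {ψ : 𝓞 F → C} (hψ : Ach p ψ) (T : Finset (𝓞 F)) {k : ℕ} (hk : 1 ≤ k) :
    ‖∑ b ∈ T, ψ b * L.X 1 b ^ (p ^ 2 - 1 + k)‖ < ‖(p : C)‖ := by
  obtain ⟨h0, _, _⟩ := g5_pp hG
  refine g5_lt T _ h0 ?_
  intro b _
  have hp0 : p ≠ 0 := by have := hG.three; omega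
  have e : L.X 1 b ^ (p ^ 2 - 1 + k) = (p : C) * L.X 1 b ^ k := by
    by_cases hb : (p : 𝓞 F) ∣ b
    · rw [(g1_iff hG b).2 hb, zero_pow (by omega), zero_pow (by omega), mul_zero]
    · rw [pow_add, g1_pow hG hb]
  rw [e, norm_mul, norm_mul, norm_pow, g5_norm hp0 hψ b, one_mul]
  have h1 : ‖L.X 1 b‖ ^ k < 1 := pow_lt_one₀ (norm_nonneg _) (hG.ok.small 1 b) (by omega)
  calc ‖(p : C)‖ * ‖L.X 1 b‖ ^ k < ‖(p : C)‖ * 1 := mul_lt_mul_of_pos_left h1 h0
    _ = ‖(p : C)‖ := mul_one _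

theorem g5_one (hG : GH p L) {ψ : 𝓞 F → C} (hψ : Ach p ψ) {T : Finset (𝓞 F)} (hT : Rep p 1 T) (j : ℕ) :
    ‖∑ b ∈ T, ψ b * L.X 1 b ^ j‖ ≤ ‖(p : C)‖ ∧ ‖∑ b ∈ T, ψ b * L.X 1 b ^ j - ∑ b ∈ T, L.X 1 b ^ j‖ < ‖(p : C)‖ := by
  obtain ⟨h0, h1, h1'⟩ := g5_pp hG
  have ht : ∀ j : ℕ, ∑ b ∈ T, L.X 1 b ^ j = ∑ b ∈ T, (1 : C) * L.X 1 b ^ j := fun j =>
    Finset.sum_congr rfl fun b _ => (one_mul _).symm
  have htriv : Ach p (fun _ : 𝓞 F => (1 : C)) := g5_triv
  rw [ht j]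
  rcases lt_trichotomy j (p ^ 2 - 1) with hj | hj | hj
  · rcases Nat.eq_zero_or_pos j with hj0 | hj0
    · subst hj0
      simp only [pow_zero, mul_one]
      have a1 := g5_zero_sum hG hψ hT
      have a2 := g5_zero_sum hG htriv hT
      exact ⟨a1.le, g5_sub a1 a2⟩
    · have a1 := g4_gauss hG hψ hT hj0 hj
      have a2 := g4_gauss hG htriv hT hj0 hj
      exact ⟨a1.le, g5_sub a1 a2⟩
  · rw [hj, g5_mid hG hψ hT, g5_mid hG htriv hT]
    have a1 := g5_zero_sum hG hψ hT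
    have a2 := g5_zero_sum hG htriv hT
    have h2 := hG.lt
    constructor
    · rw [norm_mul]
      have : ‖∑ b ∈ T, ψ b - 1‖ ≤ 1 := g5_sub_le (by linarith) (by rw [norm_one])
      calc ‖(p : C)‖ * ‖∑ b ∈ T, ψ b - 1‖ ≤ ‖(p : C)‖ * 1 := mul_le_mul_of_nonneg_left this h0.le
        _ = ‖(p : C)‖ := mul_one _
    · rw [← mul_sub, norm_mul]
      have e : (∑ b ∈ T, ψ b - 1) - (∑ b ∈ T, (fun _ : 𝓞 F => (1 : C)) b - 1) = ∑ b ∈ T, ψ b - ∑ b ∈ T, (fun _ : 𝓞 F => (1 : C)) b := by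
        ring
      rw [e]
      have : ‖∑ b ∈ T, ψ b - ∑ b ∈ T, (fun _ : 𝓞 F => (1 : C)) b‖ < 1 := lt_trans (g5_sub a1 a2) h2
      calc ‖(p : C)‖ * _ < ‖(p : C)‖ * 1 := mul_lt_mul_of_pos_left this h0
        _ = ‖(p : C)‖ := mul_one _
  · obtain ⟨k, hk⟩ : ∃ k, j = p ^ 2 - 1 + k := ⟨j - (p ^ 2 - 1), by omega⟩
    have hk1 : 1 ≤ k := by omega
    rw [hk]
    have a1 := g5_big hG hψ T hk1
    have a2 := g5_big hG htriv T hk1
    exact ⟨a1.le, g5_sub a1 a2⟩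

omit [NumberField F] [IsUltrametricDist C] in
theorem g5_swap (X : 𝓞 F → C) (ψ : 𝓞 F → C) (T : Finset (𝓞 F)) (Q : Polynomial C) :
    ∑ b ∈ T, ψ b * Q.eval (X b) = ∑ i ∈ Finset.range (Q.natDegree + 1), Q.coeff i * ∑ b ∈ T, ψ b * X b ^ i := by
  have : ∀ b ∈ T, ψ b * Q.eval (X b) = ∑ i ∈ Finset.range (Q.natDegree + 1), Q.coeff i * (ψ b * X b ^ i) := by
    intro b _
    rw [Polynomial.eval_eq_sum_range, Finset.mul_sum]
    apply Finset.sum_congr rfl
    intro i _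
    ring
  rw [Finset.sum_congr rfl this, Finset.sum_comm]
  apply Finset.sum_congr rfl
  intro i _
  rw [Finset.mul_sum]

theorem g5_pol (hG : GH p L) {ψ : 𝓞 F → C} (hψ : Ach p ψ) {T : Finset (𝓞 F)} (hT : Rep p 1 T) (Q : Polynomial C) (hQ : ∀ i, ‖Q.coeff i‖ ≤ 1) :
    ‖∑ b ∈ T, ψ b * Q.eval (L.X 1 b)‖ ≤ ‖(p : C)‖ ∧
      ‖∑ b ∈ T, ψ b * Q.eval (L.X 1 b) - ∑ b ∈ T, Q.eval (L.X 1 b)‖ < ‖(p : C)‖ := by
  obtain ⟨h0, _, _⟩ := g5_pp hG
  have e2 : ∑ b ∈ T, Q.eval (L.X 1 b) = ∑ i ∈ Finset.range (Q.natDegree + 1), Q.coeff i * ∑ b ∈ T, L.X 1 b ^ i := by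
    have h := g5_swap (fun b => L.X 1 b) (fun _ => (1 : C)) T Q
    simp only [one_mul] at h
    exact h
  have e1 := g5_swap (fun b => L.X 1 b) ψ T Q
  rw [e2, e1, ← Finset.sum_sub_distrib]
  constructor
  · refine g5_le _ _ h0.le ?_
    intro i _
    rw [norm_mul]
    calc ‖Q.coeff i‖ * _ ≤ 1 * ‖(p : C)‖ := mul_le_mul (hQ i) (g5_one hG hψ hT i).1 (norm_nonneg _) zero_le_one
      _ = ‖(p : C)‖ := one_mul _
  · refine g5_lt _ _ h0 ?_
    intro i _
    rw [← mul_sub, norm_mul]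
    calc ‖Q.coeff i‖ * _ ≤ 1 * ‖∑ b ∈ T, ψ b * L.X 1 b ^ i - ∑ b ∈ T, L.X 1 b ^ i‖ :=
          mul_le_mul_of_nonneg_right (hQ i) (norm_nonneg _)
      _ < ‖(p : C)‖ := by rw [one_mul]; exact (g5_one hG hψ hT i).2

end SSR
end

-- from Lib.SSR.G6
section

open NumberField

namespace SSR

open SSG

variable {F : Type} [Field F] [NumberField F] {C : Type} [NormedField C] [IsUltrametricDist C] {L : LTF F C} {p : ℕ}

/-! Chunk G6 (M). Level 2. PROOF. T1 a set of representatives modulo p (exists: H55P / SSG exists_Rep, or choose), T2 modulo p^2. For b in T1 the fibre S_b = {a in T2 : p | a - b} has p^2 elements (a = b + p u, u modulo p: u ↦ the element of T2 congruent to b + p u modulo p^2 is a bijection from T1 onto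
S_b), on it X_2(a)^(p^2) - p X_2(a) = X_1(a) = X_1(b) (ok.g 1, ok.inj 1), the values X_2(a) are distinct (ok.inj 2): SSF.newton with s = the image of S_b (injective), y = X_1(b): sum over S_b of X_2^j = p * (SSF.ctm C p j).eval (X_1 b). ψ is constant on S_b (ψ a = ψ b ψ (a - b), per).
So sum over T2 of ψ X_2^j = p * sum over T1 of ψ b * (ctm C p j).eval (X_1 b): g5_pol with Q = ctm C p j times ‖p‖ (for ψ and ψ = 1, difference). Its coefficients have norm ≤ 1: they are natural numbers (strong induction with ctm_zero, ctm_small, ctm_q1, ctm_rec of SSG/F/A1; perhaps the lemma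
exists: grep ctm in SSG/F). g6_res: X_2(p b) = X_1(-b) (ok.down 1 (-b): X_1(-b) = X_2(-p * (-b))). -T1 is again a set of representatives, b ↦ ψ (-b) an Ach: g5_one. -/

omit [IsUltrametricDist C] in
theorem g6_rep (p N : ℕ) (hp : p ≠ 0) : ∃ T : Finset (𝓞 F), Rep p N T := by
  classical
  have hp0 : (p : 𝓞 F) ≠ 0 := by exact_mod_cast hp
  have hpN0 : Ideal.span {(p : 𝓞 F) ^ N} ≠ ⊥ := by
    rw [Ne, Ideal.span_singleton_eq_bot]; exact pow_ne_zero N hp0
  have hfin : Finite (𝓞 F ⧸ Ideal.span {(p : 𝓞 F) ^ N}) := Ideal.finiteQuotientOfFreeOfNeBot _ hpN0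
  have hfr : (Set.range (Quotient.out : (𝓞 F ⧸ Ideal.span {(p : 𝓞 F) ^ N}) → 𝓞 F)).Finite := Set.finite_range _
  have hout : ∀ y : 𝓞 F ⧸ Ideal.span {(p : 𝓞 F) ^ N}, Ideal.Quotient.mk (Ideal.span {(p : 𝓞 F) ^ N}) (Quotient.out y) = y :=
    fun y => Ideal.Quotient.mk_out y
  refine ⟨hfr.toFinset, fun x => ⟨Quotient.out (Ideal.Quotient.mk (Ideal.span {(p : 𝓞 F) ^ N}) x), ⟨?_, ?_⟩, ?_⟩⟩
  · rw [Set.Finite.mem_toFinset]; exact ⟨_, rfl⟩
  · rw [← Ideal.mem_span_singleton, ← Ideal.Quotient.eq]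
    exact (hout _).symm
  · rintro a ⟨ha, hxa⟩
    rw [Set.Finite.mem_toFinset] at ha
    obtain ⟨y, rfl⟩ := ha
    rw [← Ideal.mem_span_singleton, ← Ideal.Quotient.eq, hout] at hxa
    rw [hxa]

theorem g6_ctm (p j i : ℕ) : ‖(SSF.ctm C p j).coeff i‖ ≤ 1 := by
  have h := SSF.ctm_map p j (Int.castRingHom C)
  rw [← h, Polynomial.coeff_map]
  exact IsUltrametricDist.norm_intCast_le_one C _

omit [IsUltrametricDist C] in
theorem g6_congr {ψ : 𝓞 F → C} (hψ : Ach p ψ) {a b : 𝓞 F} (h : (p : 𝓞 F) ∣ a - b) : ψ a = ψ b := by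
  obtain ⟨c, hc⟩ := h
  have e : a = b + (p : 𝓞 F) * c := by rw [← hc]; ring
  rw [e, hψ.add, hψ.per, mul_one]

/-- The fibre of the representatives modulo p^2 over a class modulo p has p^2 elements. -/
theorem g6_card (hG : GH p L) {T1 T : Finset (𝓞 F)} (h1 : Rep p 1 T1) (hT : Rep p 2 T) (b : 𝓞 F) (S : Finset (𝓞 F))
    (hS : ∀ a, a ∈ S ↔ a ∈ T ∧ (p : 𝓞 F) ∣ a - b) : S.card = p ^ 2 := by
  classical
  have hp0 : (p : 𝓞 F) ≠ 0 := by exact_mod_cast hG.prime.ne_zero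
  have hpd : ∀ a a' u u' : 𝓞 F, a ∈ T → a' ∈ T → (p : 𝓞 F) ^ 2 ∣ u - a → (p : 𝓞 F) ^ 2 ∣ u - a' → a = a' := by
    intro a a' u _ ha ha' h h'
    exact (hT u).unique ⟨ha, h⟩ ⟨ha', h'⟩
  choose f hf _ using fun u : 𝓞 F => hT (b + (p : 𝓞 F) * u)
  rw [← g2_card hG h1]
  symm
  refine Finset.card_bij (fun u _ => f u) ?_ ?_ ?_
  · intro u _
    refine (hS _).2 ⟨(hf u).1, ?_⟩
    obtain ⟨m, hm⟩ := (hf u).2
    refine ⟨u - (p : 𝓞 F) * m, ?_⟩
    have e : f u - b = (p : 𝓞 F) * u - (b + (p : 𝓞 F) * u - f u) := by ring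
    rw [e, hm]
    ring
  · intro u hu v hv huv
    obtain ⟨m, hm⟩ := (hf u).2
    obtain ⟨m', hm'⟩ := (hf v).2
    rw [← huv] at hm'
    have e : (p : 𝓞 F) * (u - v) = (p : 𝓞 F) * ((p : 𝓞 F) * (m - m')) := by
      have e1 : (p : 𝓞 F) * (u - v) = (b + (p : 𝓞 F) * u - f u) - (b + (p : 𝓞 F) * v - f u) := by ring
      rw [e1, hm, hm']
      ring
    have e2 : u - v = (p : 𝓞 F) * (m - m') := mul_left_cancel₀ hp0 e
    refine (h1 u).unique ⟨hu, ?_⟩ ⟨hv, ?_⟩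
    · rw [sub_self]
      exact dvd_zero _
    · rw [pow_one, e2]
      exact dvd_mul_right _ _
  · intro a ha
    obtain ⟨haT, c, hc⟩ := (hS a).1 ha
    obtain ⟨u, ⟨hu, hcu⟩, _⟩ := h1 c
    refine ⟨u, hu, ?_⟩
    obtain ⟨m, hm⟩ := hcu
    refine (hT (b + (p : 𝓞 F) * u)).unique (hf u) ⟨haT, ?_⟩
    rw [pow_one] at hm
    refine ⟨-m, ?_⟩
    have e : b + (p : 𝓞 F) * u - a = -((p : 𝓞 F) * (c - u)) := by
      have e1 : b + (p : 𝓞 F) * u - a = (p : 𝓞 F) * u - (a - b) := by ring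
      rw [e1, hc]
      ring
    rw [e, hm]
    ring

/-- The sum over the representatives modulo p^2. -/
theorem g6_sum (hG : GH p L) {ψ : 𝓞 F → C} (hψ : Ach p ψ) {T1 T : Finset (𝓞 F)} (h1 : Rep p 1 T1) (hT : Rep p 2 T) (j : ℕ) :
    ∑ b ∈ T, ψ b * L.X 2 b ^ j = (p : C) * ∑ b ∈ T1, ψ b * (SSF.ctm C p j).eval (L.X 1 b) := by
  classical
  have h1' := h1
  choose g hg _ using h1'
  have hg' : ∀ a, (p : 𝓞 F) ∣ a - g a := fun a => by
    have h := (hg a).2
    rwa [pow_one] at h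
  rw [← Finset.sum_fiberwise_of_maps_to (t := T1) (g := g) (fun a _ => (hg a).1), Finset.mul_sum]
  refine Finset.sum_congr rfl fun b hb => ?_
  have hS : ∀ a, a ∈ T.filter (fun a => g a = b) ↔ a ∈ T ∧ (p : 𝓞 F) ∣ a - b := by
    intro a
    rw [Finset.mem_filter]
    constructor
    · rintro ⟨ha, rfl⟩
      exact ⟨ha, hg' a⟩
    · rintro ⟨ha, hab⟩
      refine ⟨ha, (h1 a).unique (hg a) ⟨hb, ?_⟩⟩
      rw [pow_one]
      exact hab
  have hcard := g6_card hG h1 hT b _ hS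
  have hinj : Set.InjOn (fun a => L.X 2 a) (T.filter (fun a => g a = b) : Set (𝓞 F)) := by
    intro a ha a' ha' h
    rw [Finset.mem_coe] at ha ha'
    have h2 := (hG.ok.inj 2 a a').1 h
    refine (hT a).unique ⟨((hS a).1 ha).1, ?_⟩ ⟨((hS a').1 ha').1, h2⟩
    rw [sub_self]
    exact dvd_zero _
  have hnew := SSF.newton p hG.prime.two_le ((T.filter (fun a => g a = b)).image (fun a => L.X 2 a))
    (by rw [Finset.card_image_of_injOn hinj, hcard]) (L.X 1 b) (by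
      intro z hz
      obtain ⟨a, ha, rfl⟩ := Finset.mem_image.1 hz
      have e1 := hG.ok.g 1 a
      have e2 : L.X 1 a = L.X 1 b := (hG.ok.inj 1 a b).2 (by rw [pow_one]; exact ((hS a).1 ha).2)
      rw [← e2, e1]
      ring) j
  rw [Finset.sum_image hinj] at hnew
  have e3 : ∀ a ∈ T.filter (fun a => g a = b), ψ a * L.X 2 a ^ j = ψ b * L.X 2 a ^ j := by
    intro a ha
    rw [g6_congr hψ ((hS a).1 ha).2]
  rw [Finset.sum_congr rfl e3, ← Finset.mul_sum, hnew]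
  ring

theorem g6_two (hG : GH p L) {ψ : 𝓞 F → C} (hψ : Ach p ψ) {T : Finset (𝓞 F)} (hT : Rep p 2 T) (j : ℕ) :
    ‖∑ b ∈ T, ψ b * L.X 2 b ^ j‖ ≤ ‖(p : C)‖ ^ 2 ∧ ‖∑ b ∈ T, ψ b * L.X 2 b ^ j - ∑ b ∈ T, L.X 2 b ^ j‖ < ‖(p : C)‖ ^ 2 := by
  have hp0 : 0 < ‖(p : C)‖ := norm_pos_iff.2 (g1_p0 hG)
  obtain ⟨T1, h1⟩ := g6_rep (F := F) p 1 hG.prime.ne_zero
  have htr : Ach p (fun _ : 𝓞 F => (1 : C)) := ⟨fun _ _ => (one_mul 1).symm, fun _ => rfl⟩
  have h2 := g6_sum hG hψ h1 hT j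
  have h3 := g6_sum hG htr h1 hT j
  simp only [one_mul] at h3
  obtain ⟨h4, h5⟩ := g5_pol hG hψ h1 (SSF.ctm C p j) (g6_ctm p j)
  rw [h2, h3, ← mul_sub, norm_mul, norm_mul, pow_two]
  exact ⟨mul_le_mul_of_nonneg_left h4 hp0.le, mul_lt_mul_of_pos_left h5 hp0⟩

theorem g6_res (hG : GH p L) {ψ : 𝓞 F → C} (hψ : Ach p ψ) {T : Finset (𝓞 F)} (hT : Rep p 1 T) (j : ℕ) :
    ‖∑ b ∈ T, ψ b * L.X 2 ((p : 𝓞 F) * b) ^ j‖ ≤ ‖(p : C)‖ ∧
      ‖∑ b ∈ T, ψ b * L.X 2 ((p : 𝓞 F) * b) ^ j - ∑ b ∈ T, L.X 2 ((p : 𝓞 F) * b) ^ j‖ < ‖(p : C)‖ := by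
  classical
  have hX : ∀ b : 𝓞 F, L.X 2 ((p : 𝓞 F) * b) = L.X 1 (-b) := by
    intro b
    rw [hG.ok.down 1 (-b), neg_mul_neg]
  have hT' : Rep p 1 (T.image fun b => -b) := by
    intro x
    obtain ⟨a, ⟨ha, hxa⟩, hu⟩ := hT (-x)
    refine ⟨-a, ⟨Finset.mem_image_of_mem _ ha, ?_⟩, ?_⟩
    · have e : x - -a = -(-x - a) := by ring
      rw [e]
      exact (dvd_neg).2 hxa
    · rintro c ⟨hc, hxc⟩
      obtain ⟨c', hc', rfl⟩ := Finset.mem_image.1 hc
      rw [hu c' ⟨hc', by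
        have e : -x - c' = -(x - -c') := by ring
        rw [e]
        exact (dvd_neg).2 hxc⟩]
  have hψ' : Ach p (fun b => ψ (-b)) := by
    refine ⟨fun a b => ?_, fun a => ?_⟩
    · rw [neg_add, hψ.add]
    · rw [← mul_neg, hψ.per]
  have h := g5_one hG hψ' hT' j
  rw [Finset.sum_image (fun a _ b _ h => neg_injective h), Finset.sum_image (fun a _ b _ h => neg_injective h)] at h
  simp only [neg_neg] at h
  have e1 : ∑ b ∈ T, ψ b * L.X 2 ((p : 𝓞 F) * b) ^ j = ∑ b ∈ T, ψ b * L.X 1 (-b) ^ j :=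
    Finset.sum_congr rfl fun b _ => by rw [hX]
  have e2 : ∑ b ∈ T, L.X 2 ((p : 𝓞 F) * b) ^ j = ∑ b ∈ T, L.X 1 (-b) ^ j :=
    Finset.sum_congr rfl fun b _ => by rw [hX]
  rw [e1, e2]
  exact h

end SSR
end

-- from Lib.SSR.G8
section

open NumberField

namespace SSR

open SSG

variable {F : Type} [Field F] [NumberField F] {C : Type} [NormedField C] [IsUltrametricDist C] {L : LTF F C} {p : ℕ}

/-! Chunk G8 (M). PROOF. H' (b, x) := H (fun k => x k + b k) is Fn 2 in the variables ι ⊕ ι (g0_comp with c i (inl k) = c i (inr k) = (if k = i then 1 else 0); sums over ι ⊕ ι: Fintype.sum_sum_type). Take Q for ε = half of ‖p‖^(card I + card ι) (> 0):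
‖H (x + b) - Q(X_2(b k) , X_2(x k))‖ ≤ ε for all b, x. Apply g7_par with A = 𝓞 F, T k = T2 or T1, Y k b = X_2 b or X_2 (p b), r k = ‖p‖^2 or ‖p‖ (CG from g6_two resp. g6_res for ψ k and for the trivial character, pos by g1_p0), y k = X_2 (x k) (norm < 1: ok.small). prod r k = ‖p‖^(card I + card ι)
(Finset.prod_ite, prod_pow: 2 card I + (card ι - card I)). At x = 0: X_2 0 = 0 (g1_zero), 0 + b = b. Errors: each of the two finite sums changes by norm ≤ ε (ultrametric; ‖ψ‖ = 1) when H is replaced by Q. Second statement: g7_prod for the polynomial Q with y = 0 substituted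
(or g7_prod with ψ = 1 applied to a polynomial for H itself, variables ι). -/

omit [IsUltrametricDist C] in
theorem g8_psi (hp : p ≠ 0) {ψ : 𝓞 F → C} (hψ : Ach p ψ) (b : 𝓞 F) : ‖ψ b‖ = 1 := by
  have h0 : ψ 0 = 1 := by
    have h := hψ.per 0
    rwa [mul_zero] at h
  have h1 : ∀ n : ℕ, ψ ((n : 𝓞 F) * b) = ψ b ^ n := by
    intro n
    induction n with
    | zero => rw [Nat.cast_zero, zero_mul, pow_zero, h0]
    | succ n ih => rw [Nat.cast_succ, add_mul, one_mul, hψ.add, ih, pow_succ]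
  have h2 : ψ b ^ p = 1 := by rw [← h1, hψ.per]
  have h3 : ‖ψ b‖ ^ p = 1 := by rw [← norm_pow, h2, norm_one]
  exact (pow_eq_one_iff_of_nonneg (norm_nonneg _) hp).1 h3

theorem g8_lt {x y z : C} {R : ℝ} (h1 : ‖x - y‖ < R) (h2 : ‖y - z‖ < R) : ‖x - z‖ < R := by
  have h : x - z = (x - y) + (y - z) := by ring
  rw [h]
  exact lt_of_le_of_lt (IsUltrametricDist.norm_add_le_max _ _) (max_lt h1 h2)

theorem g8_cg (hG : GH p L) {T1 T2 : Finset (𝓞 F)} (h1 : Rep p 1 T1) (h2 : Rep p 2 T2) (P : Prop) [Decidable P] {ψ : 𝓞 F → C}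
    (hψ : Ach p ψ) : CG (if P then T2 else T1) ψ (fun b => L.X 2 (if P then b else (p : 𝓞 F) * b))
      (if P then ‖(p : C)‖ ^ 2 else ‖(p : C)‖) := by
  have hp0 : 0 < ‖(p : C)‖ := norm_pos_iff.2 (g1_p0 hG)
  have htr : Ach p (fun _ : 𝓞 F => (1 : C)) := ⟨fun _ _ => (one_mul 1).symm, fun _ => rfl⟩
  by_cases hP : P
  · simp only [if_pos hP]
    refine ⟨by positivity, fun j => (g6_two hG hψ h2 j).1, fun j => ?_, fun j => (g6_two hG hψ h2 j).2⟩
    have h := (g6_two hG htr h2 j).1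
    simp only [one_mul] at h
    exact h
  · simp only [if_neg hP]
    refine ⟨hp0, fun j => (g6_res hG hψ h1 j).1, fun j => ?_, fun j => (g6_res hG hψ h1 j).2⟩
    have h := (g6_res hG htr h1 j).1
    simp only [one_mul] at h
    exact h

theorem g8_main (hG : GH p L) {ι : Type} [Fintype ι] [DecidableEq ι] {H : (ι → 𝓞 F) → C} (hH : L.Fn 2 ι H) {T1 T2 : Finset (𝓞 F)} (h1 : Rep p 1 T1)
    (h2 : Rep p 2 T2) (I : Finset ι) (ψ : ι → 𝓞 F → C) (hψ : ∀ k, Ach p (ψ k)) (x : ι → 𝓞 F) :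
    ‖∑ b ∈ Fintype.piFinset (fun k => if k ∈ I then T2 else T1), (∏ k, ψ k (b k)) * H (fun k => x k + (if k ∈ I then b k else (p : 𝓞 F) * b k)) -
      ∑ b ∈ Fintype.piFinset (fun k => if k ∈ I then T2 else T1), H (fun k => if k ∈ I then b k else (p : 𝓞 F) * b k)‖ <
      ‖(p : C)‖ ^ (I.card + Fintype.card ι) ∧
    ‖∑ b ∈ Fintype.piFinset (fun k => if k ∈ I then T2 else T1), H (fun k => if k ∈ I then b k else (p : 𝓞 F) * b k)‖ ≤
      ‖(p : C)‖ ^ (I.card + Fintype.card ι) := by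
  classical
  have hp0 : 0 < ‖(p : C)‖ := norm_pos_iff.2 (g1_p0 hG)
  have hpp : p ≠ 0 := hG.prime.ne_zero
  set R : ℝ := ‖(p : C)‖ ^ (I.card + Fintype.card ι) with hR
  have hR0 : 0 < R := by positivity
  have hcg : ∀ k, CG (if k ∈ I then T2 else T1) (ψ k) (fun b => L.X 2 (if k ∈ I then b else (p : 𝓞 F) * b))
      (if k ∈ I then ‖(p : C)‖ ^ 2 else ‖(p : C)‖) := fun k => g8_cg hG h1 h2 (k ∈ I) (hψ k)
  have hprod : ∏ k, (if k ∈ I then ‖(p : C)‖ ^ 2 else ‖(p : C)‖) = R := by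
    have e : ∀ k : ι, (if k ∈ I then ‖(p : C)‖ ^ 2 else ‖(p : C)‖) = (if k ∈ I then ‖(p : C)‖ else 1) * ‖(p : C)‖ := by
      intro k
      by_cases h : k ∈ I
      · rw [if_pos h, if_pos h, pow_two]
      · rw [if_neg h, if_neg h, one_mul]
    rw [Finset.prod_congr rfl fun k _ => e k, Finset.prod_mul_distrib, Finset.prod_ite_mem, Finset.univ_inter,
      Finset.prod_const, Finset.prod_const, Finset.card_univ, hR, pow_add]
  have hε : 0 < R / 2 := half_pos hR0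
  have hεR : R / 2 < R := half_lt_self hR0
  have hone : ∀ b : ι → 𝓞 F, ‖∏ k, ψ k (b k)‖ = 1 := by
    intro b
    rw [norm_prod]
    exact Finset.prod_eq_one fun k _ => g8_psi hpp (hψ k) (b k)
  -- the second statement
  obtain ⟨Q', hQ1', hQ2'⟩ := hH (R / 2) hε
  have hB : ‖∑ b ∈ Fintype.piFinset (fun k => if k ∈ I then T2 else T1), H (fun k => if k ∈ I then b k else (p : 𝓞 F) * b k)‖ ≤ R := by
    have e1 := (g7_prod _ ψ _ _ hcg Q' hQ1').2.1
    rw [hprod] at e1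
    have e2 : ‖∑ b ∈ Fintype.piFinset (fun k => if k ∈ I then T2 else T1), H (fun k => if k ∈ I then b k else (p : 𝓞 F) * b k) -
        ∑ b ∈ Fintype.piFinset (fun k => if k ∈ I then T2 else T1),
          MvPolynomial.eval (fun k => L.X 2 (if k ∈ I then b k else (p : 𝓞 F) * b k)) Q'‖ ≤ R := by
      rw [← Finset.sum_sub_distrib]
      exact IsUltrametricDist.norm_sum_le_of_forall_le_of_nonneg hR0.le fun b _ => (hQ2' _).trans hεR.le
    have e3 := (IsUltrametricDist.norm_add_le_max _ _).trans (max_le e2 e1)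
    rwa [sub_add_cancel] at e3
  refine ⟨?_, hB⟩
  -- the first statement
  have hc := g0_comp hG.ok.small hG.lin hH (fun i : ι => (Sum.elim (fun k : ι => if k = i then (1 : 𝓞 F) else 0)
    (fun k : ι => if k = i then (1 : 𝓞 F) else 0) : ι ⊕ ι → 𝓞 F))
  obtain ⟨Q, hQ1, hQ2⟩ := hc (R / 2) hε
  have hQ3 : ∀ a x : ι → 𝓞 F, ‖H (fun k => x k + a k) - MvPolynomial.eval (Sum.elim (fun k => L.X 2 (a k)) fun k => L.X 2 (x k)) Q‖ ≤ R / 2 := by
    intro a x
    have e1 := hQ2 (Sum.elim a x)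
    have e2 : (fun i : ι => ∑ k : ι ⊕ ι, (Sum.elim (fun k : ι => if k = i then (1 : 𝓞 F) else 0)
        (fun k : ι => if k = i then (1 : 𝓞 F) else 0) : ι ⊕ ι → 𝓞 F) k * (Sum.elim a x : ι ⊕ ι → 𝓞 F) k) = fun k => x k + a k := by
      funext i
      rw [Fintype.sum_sum_type]
      simp only [Sum.elim_inl, Sum.elim_inr, ite_mul, one_mul, zero_mul, Finset.sum_ite_eq', Finset.mem_univ, if_true]
      exact add_comm _ _
    have e3 : (fun i : ι ⊕ ι => L.X 2 ((Sum.elim a x : ι ⊕ ι → 𝓞 F) i)) = Sum.elim (fun k => L.X 2 (a k)) fun k => L.X 2 (x k) := by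
      funext i
      rcases i with i | i <;> rfl
    beta_reduce at e1
    rw [e2, e3] at e1
    exact e1
  have hpar := g7_par _ ψ _ _ hcg Q hQ1 (fun k => L.X 2 (x k)) (fun k => hG.ok.small 2 (x k))
  rw [hprod] at hpar
  refine g8_lt (y := ∑ b ∈ Fintype.piFinset (fun k => if k ∈ I then T2 else T1), (∏ k, ψ k (b k)) *
    MvPolynomial.eval (Sum.elim (fun k => L.X 2 (if k ∈ I then b k else (p : 𝓞 F) * b k)) fun k => L.X 2 (x k)) Q) ?_
    (g8_lt hpar ?_)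
  · refine lt_of_le_of_lt ?_ hεR
    rw [← Finset.sum_sub_distrib]
    refine IsUltrametricDist.norm_sum_le_of_forall_le_of_nonneg hε.le fun b _ => ?_
    rw [← mul_sub, norm_mul, hone b, one_mul]
    exact hQ3 _ x
  · refine lt_of_le_of_lt ?_ hεR
    rw [← Finset.sum_sub_distrib]
    refine IsUltrametricDist.norm_sum_le_of_forall_le_of_nonneg hε.le fun b _ => ?_
    have e1 := hQ3 (fun k => if k ∈ I then b k else (p : 𝓞 F) * b k) (fun _ => 0)
    simp only [zero_add, g1_zero hG 2] at e1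
    rw [norm_sub_rev]
    exact e1

end SSR
end
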