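import Mathlib
import Pool.Agent.Lib.H1M.PP2.D_H55P_SD
import Pool.Agent.Lib.H1M.PP2.D_SSU_G2D
import Pool.Agent.Lib.H1M.PP2.M002
import Pool.Agent.Lib.H1M.PP2.M035
import Pool.Agent.Lib.H1M.PP2.M051
import Pool.Agent.Lib.H1M.PP2.M054
import Pool.Agent.Lib.H1M.PP2.M059
import Pool.Agent.Lib.H1M.PP2.M062
import Pool.Agent.Lib.H1M.PP2.M067
import Pool.Agent.Lib.H1M.PP2.M076
import Pool.Agent.Lib.H1M.PP2.M082
import Pool.Agent.Lib.H1M.PP2.M098

/-! Merged copies (to shorten the build) of Lib.SSA.L4, Lib.SSN.B3, Lib.SSU.A6, Lib.SSN.L2, Lib.SSN.FR, Lib.SSN.LD, Lib.SSN.L1, Lib.SSN.L3, Lib.SSN.L4. -/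

-- from Lib.SSA.L4
section

/-! # SSA, chunk L4 (M): the second ramification group of a quotient -/

open NumberField IsDedekindDomain

namespace SSA

open SSR

variable {N : Type} [Field N] [NumberField N] {M : Type} [Field M] [NumberField M] {L : Type} [Field L] [NumberField L]
  [Algebra N M] [Algebra N L] [Algebra M L] [IsScalarTower N M L]

/-- Chunk L4 (M). If the second ramification group of Q in the p-extension L/N is trivial then the one of w = Q ∩ M in the Galois extension M/N is trivial. PROOF. Suppose s₀ ≠ 1 in Gal(M/N) with Gp w 3 s₀. For s ≠ 1 let i s be the number with Gp w (i s) s, not Gp w (i s + 1) s (r4_ex; choose; i 1 = 0).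
r4_hilb for N, M, w: ex w (different) = sum over s ≠ 1 of i s. r8_main (N, M, L): ex w (different) = 2 (e - 1), e = ramificationIdx of w over N. The number of the s with Gp w 1 s is e (r6_card), one of them is s = 1, so there are e - 1 elements s ≠ 1 with Gp w 1 s; for these Gp w 2 s (r5_wild: s^(p^j) = 1 because
[M : N] divides p^k: finrank N M divides finrank N L, IsGalois.card_aut_eq_finrank, pow_card_eq_one'; (p : 𝓞 M) in w: p in Q), so i s ≥ 2 (not Gp w (i s + 1) s and Gp decreasing: R10 r10_mono or Ideal.pow_le_pow_right). For s₀: i s₀ ≥ 3, and Gp w 1 s₀. So the sum is at least 2 (e - 1) + 1: contradiction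
(compare with the sum of 2 over the s ≠ 1 with Gp w 1 s: Finset.sum_lt_sum_of_subset or sum_lt_sum; as in the proof of r7_ex in R7.lean). -/
theorem l4 [IsGalois N L] [IsGalois N M] (p : ℕ) (hp : p.Prime) (k : ℕ) (hk : Module.finrank N L = p ^ k) (Q : HeightOneSpectrum (𝓞 L))
    (hpQ : (p : 𝓞 L) ∈ Q.asIdeal) (hG : G2 N Q.asIdeal) (w : HeightOneSpectrum (𝓞 M)) (hw : Q.asIdeal.under (𝓞 M) = w.asIdeal) :
    G2 N w.asIdeal := by
  classical
  intro s₀ hs₀
  by_contra hs1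
  have hch : ∀ s : M ≃ₐ[N] M, ∃ n, s ≠ 1 → (Gp w.asIdeal n s ∧ ¬ Gp w.asIdeal (n + 1) s) := by
    intro s
    by_cases h : s = 1
    · exact ⟨0, fun h' => (h' h).elim⟩
    · obtain ⟨n, hn⟩ := r4_ex w s h
      exact ⟨n, fun _ => hn⟩
  choose i hi using hch
  have h1 := r4_hilb (N := N) w i hi
  have h2 := r8_main (N := N) p hp k hk Q hpQ hG w hw
  rw [h1] at h2
  have hmono : ∀ {m n : ℕ} (s : M ≃ₐ[N] M), m ≤ n → Gp w.asIdeal n s → Gp w.asIdeal m s :=
    fun s h hs x => Ideal.pow_le_pow_right h (hs x)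
  have hfin : Module.finrank N M ∣ p ^ k := by
    rw [← hk, ← Module.finrank_mul_finrank N M L]
    exact Dvd.intro _ rfl
  obtain ⟨k', -, hk'⟩ := (Nat.dvd_prime_pow hp).1 hfin
  have hpw : (p : 𝓞 M) ∈ w.asIdeal := by
    rw [← hw, Ideal.under_def, Ideal.mem_comap, map_natCast]
    exact hpQ
  have hwild : ∀ s : M ≃ₐ[N] M, Gp w.asIdeal 1 s → Gp w.asIdeal 2 s := by
    intro s hs
    apply r5_wild p hp w hpw s k' _ hs
    rw [← hk', ← IsGalois.card_aut_eq_finrank]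
    exact pow_card_eq_one'
  have h3 : ∑ s ∈ Finset.univ.erase (1 : M ≃ₐ[N] M), (if Gp w.asIdeal 1 s then 2 else 0) =
      2 * (w.asIdeal.ramificationIdx (𝓞 N) - 1) := by
    rw [← Finset.sum_filter, Finset.sum_const, smul_eq_mul, mul_comm, Finset.filter_erase,
      Finset.card_erase_of_mem, ← r6_card w, Nat.card_eq_fintype_card, Fintype.card_subtype]
    rw [Finset.mem_filter]
    refine ⟨Finset.mem_univ _, fun x => ?_⟩
    rw [one_smul, sub_self]
    exact Ideal.zero_mem _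
  have h4 : ∑ s ∈ Finset.univ.erase (1 : M ≃ₐ[N] M), (if Gp w.asIdeal 1 s then 2 else 0) <
      ∑ s ∈ Finset.univ.erase (1 : M ≃ₐ[N] M), i s := by
    have hlow : ∀ s : M ≃ₐ[N] M, s ≠ 1 → ∀ n, Gp w.asIdeal n s → n ≤ i s := by
      intro s hs n hn
      by_contra hlt
      push Not at hlt
      exact (hi s hs).2 (hmono s hlt hn)
    refine Finset.sum_lt_sum (fun s hs => ?_) ⟨s₀, Finset.mem_erase.2 ⟨hs1, Finset.mem_univ _⟩, ?_⟩
    · have hs' := Finset.ne_of_mem_erase hs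
      by_cases h : Gp w.asIdeal 1 s
      · rw [if_pos h]
        exact hlow s hs' 2 (hwild s h)
      · rw [if_neg h]
        exact Nat.zero_le _
    · have h5 := hlow s₀ hs1 3 hs₀
      split_ifs
      · omega
      · omega
  omega

end SSA
end

-- from Lib.SSN.B3
section

/-! # SSN, chunk B3: the counting argument over a ring -/

namespace SSN

/-- Chunk B3 (M). PROOF (model: H19C.gn_alg2, file H19C/GC.lean; here everything is additive and linear over R). Suppose not: for every x in Y there is z with ∑ r σ • g σ x = (p : R) • z. sub_gen with n = card ι: d < card ι and y : Fin d → W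
generating W modulo Y. T : (ι → ℂ) →ₗ (Fin d → ℂ), c ↦ (∑ i, c i * ψ i (y j))_j has a nonzero element c in its kernel (LinearMap.ker_ne_bot_of_finrank_lt). Ψ x = ∑ i, c i * ψ i x: additive, Ψ (a • x) = φ a * Ψ x, Ψ (g σ x) = ω σ * Ψ x, Ψ (y j) = 0, not
identically 0 (p3). For x in W there is x' in Y with Ψ x' = Ψ x (x' = x - ∑ a i • y i). w = ∑ φ (r σ) * ω σ: w * Ψ x' = Ψ (∑ r σ • g σ x') = Ψ ((p : R) • z) = p * Ψ z. So the additive group N of the values of Ψ is stable under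
multiplication by w / p, is not 0 and is finitely generated (hfg: h N is contained in the image of B, which is finitely generated; as in gn_alg2), so V(w / p) ≤ 1 (H13Y.val_le_one_of_stable), V(w) ≤ V(p) < 1: contradiction with hω. -/
theorem gn_lin {R : Type} [CommRing R] {p : ℕ} (hp : p.Prime) (hmax : (Ideal.span {(p : R)}).IsMaximal) {q : ℕ}
    (hq : Nat.card (R ⧸ Ideal.span {(p : R)}) = q) (hq1 : 1 < q) {W : Type} [AddCommGroup W] [Module R W]
    {G : Type} [Fintype G] (g : G → W → W) (r : G → R) (Y : Submodule R W)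
    (hY : ∀ x : W, (p : R) • x ∈ Y) {ι : Type} [Fintype ι] (h0 : Y.toAddSubgroup.index ≠ 0)
    (h1 : Y.toAddSubgroup.index < q ^ Fintype.card ι) (φ : R →+* ℂ) (V : ValuationSubring ℂ) (hV : V.valuation (p : ℂ) < 1)
    (ω : G → ℂ) (hω : V.valuation (∑ σ, φ (r σ) * ω σ) = 1) (ψ : ι → W → ℂ)
    (p0 : ∀ i x y, ψ i (x + y) = ψ i x + ψ i y) (p1 : ∀ i a x, ψ i (a • x) = φ a * ψ i x)
    (p2 : ∀ i σ x, ψ i (g σ x) = ω σ * ψ i x) (p3 : ∀ c : ι → ℂ, (∀ x, ∑ i, c i * ψ i x = 0) → c = 0)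
    (hfg : ∃ (h : ℕ) (B : AddSubgroup W), h ≠ 0 ∧ B.FG ∧ ∀ x, h • x ∈ B) :
    ∃ x ∈ Y, ∀ y : W, ∑ σ, r σ • g σ x ≠ (p : R) • y := by
  classical
  by_contra hcon
  push Not at hcon
  obtain ⟨d, y, hd, hgen⟩ := sub_gen hmax hq hq1 Y hY h0 h1
  let T : (ι → ℂ) →ₗ[ℂ] (Fin d → ℂ) :=
    { toFun := fun c j => ∑ i, c i * ψ i (y j)
      map_add' := by
        intro c c'
        funext j
        simp only [Pi.add_apply, add_mul, Finset.sum_add_distrib]
      map_smul' := by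
        intro r c
        funext j
        simp only [Pi.smul_apply, smul_eq_mul, RingHom.id_apply, Finset.mul_sum, mul_assoc] }
  have hT : LinearMap.ker T ≠ ⊥ := by
    refine LinearMap.ker_ne_bot_of_finrank_lt ?_
    rw [Module.finrank_fin_fun, Module.finrank_fintype_fun_eq_card]
    exact hd
  obtain ⟨c, hcT, hc0⟩ := Submodule.exists_mem_ne_zero_of_ne_bot hT
  have hcy : ∀ j, ∑ i, c i * ψ i (y j) = 0 := fun j => congrFun (LinearMap.mem_ker.1 hcT) j
  -- the function Ψ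
  let Ψ : W →+ ℂ := AddMonoidHom.mk' (fun x => ∑ i, c i * ψ i x) (by
    intro x y
    rw [← Finset.sum_add_distrib]
    refine Finset.sum_congr rfl fun i _ => ?_
    rw [p0, mul_add])
  have hΨ : ∀ x, Ψ x = ∑ i, c i * ψ i x := fun _ => rfl
  have hΨ1 : ∀ (a : R) (x : W), Ψ (a • x) = φ a * Ψ x := by
    intro a x
    rw [hΨ, hΨ, Finset.mul_sum]
    refine Finset.sum_congr rfl fun i _ => ?_
    rw [p1 i a x]
    ring
  have hΨ2 : ∀ (σ : G) (x : W), Ψ (g σ x) = ω σ * Ψ x := by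
    intro σ x
    rw [hΨ, hΨ, Finset.mul_sum]
    refine Finset.sum_congr rfl fun i _ => ?_
    rw [p2 i σ x]
    ring
  have hΨy : ∀ j, Ψ (y j) = 0 := fun j => by rw [hΨ, hcy]
  set w : ℂ := ∑ σ, φ (r σ) * ω σ with hw
  have hΨw : ∀ x, Ψ (∑ σ, r σ • g σ x) = w * Ψ x := by
    intro x
    rw [map_sum, hw, Finset.sum_mul]
    refine Finset.sum_congr rfl fun σ _ => ?_
    rw [hΨ1, hΨ2, mul_assoc]
  -- the key claim
  have key : ∀ x, ∃ x' ∈ Y, Ψ x' = Ψ x := by
    intro x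
    obtain ⟨a, ha⟩ := hgen x
    refine ⟨_, ha, ?_⟩
    rw [map_sub, map_sum, Finset.sum_eq_zero, sub_zero]
    intro i _
    rw [hΨ1, hΨy, mul_zero]
  -- stability
  have hp0 : (p : ℂ) ≠ 0 := Nat.cast_ne_zero.2 hp.ne_zero
  have hst : ∀ x, ∃ z, w / p * Ψ x = Ψ z := by
    intro x
    obtain ⟨x', hx', hΨx⟩ := key x
    obtain ⟨z, hz⟩ := hcon x' hx'
    refine ⟨z, ?_⟩
    have h2 := hΨw x'
    rw [hz, hΨ1, map_natCast, hΨx] at h2
    field_simp
    linear_combination -h2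
  have hN0 : Ψ.range ≠ ⊥ := by
    intro h
    apply hc0
    apply p3
    intro x
    have h2 : Ψ x ∈ Ψ.range := ⟨x, rfl⟩
    rw [h, AddSubgroup.mem_bot] at h2
    exact h2
  have hNfg : Ψ.range.FG := by
    obtain ⟨h, B, hh0, ⟨S, hS⟩, hpow⟩ := hfg
    let N : Submodule ℤ ℂ := AddSubgroup.toIntSubmodule Ψ.range
    let NB : Submodule ℤ ℂ := Submodule.span ℤ (Ψ '' (S : Set W))
    have hNB : NB.FG := Submodule.fg_span (S.finite_toSet.image _)
    have hBN : ∀ x ∈ B, Ψ x ∈ NB := by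
      intro x hx
      rw [← hS] at hx
      induction hx using AddSubgroup.closure_induction with
      | mem x hx => exact Submodule.subset_span ⟨x, hx, rfl⟩
      | zero =>
        rw [map_zero]
        exact NB.zero_mem
      | add x y _ _ hx hy =>
        rw [map_add]
        exact NB.add_mem hx hy
      | neg x _ hx =>
        rw [map_neg]
        exact NB.neg_mem hx
    let m1 : ℂ →ₗ[ℤ] ℂ := (LinearMap.mulLeft ℤ (h : ℂ))
    let m2 : ℂ →ₗ[ℤ] ℂ := (LinearMap.mulLeft ℤ ((h : ℂ)⁻¹))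
    have h1 : N.map m1 ≤ NB := by
      rintro _ ⟨_, ⟨x, rfl⟩, rfl⟩
      show (h : ℂ) * Ψ x ∈ NB
      rw [← nsmul_eq_mul, ← map_nsmul]
      exact hBN _ (hpow x)
    have hNoeth : IsNoetherian ℤ NB := isNoetherian_of_fg_of_noetherian NB hNB
    have h2 : (N.map m1).FG := isNoetherian_submodule.1 hNoeth _ h1
    have h3 : N = (N.map m1).map m2 := by
      rw [← Submodule.map_comp]
      have h4 : m2.comp m1 = LinearMap.id := by
        refine LinearMap.ext fun z => ?_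
        show (h : ℂ)⁻¹ * ((h : ℂ) * z) = z
        rw [← mul_assoc, inv_mul_cancel₀ (Nat.cast_ne_zero.2 hh0), one_mul]
      rw [h4, Submodule.map_id]
    have h5 : N.FG := by
      rw [h3]
      exact h2.map _
    exact (Submodule.fg_iff_addSubgroup_fg N).1 h5
  have hfin := H13Y.val_le_one_of_stable V Ψ.range hNfg hN0 (w / p) (by
      rintro _ ⟨x, rfl⟩
      obtain ⟨z, hzz⟩ := hst x
      exact ⟨z, hzz.symm⟩)
  have h2 : V.valuation (w / p * p) < 1 := by
    rw [map_mul]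
    exact lt_of_le_of_lt (mul_le_of_le_one_left' hfin) hV
  rw [div_mul_cancel₀ _ hp0, hω] at h2
  exact lt_irrefl _ h2

end SSN
end

-- from Lib.SSU.A6
section

/-! # SSU, A6: extensions with trivial second ramification groups: elementary abelian inertia groups -/

open NumberField IsDedekindDomain

namespace SSU

open H55P SSR

variable {F : Type} [Field F] [NumberField F] {Ω : Type} [Field Ω] [Algebra F Ω] [IsAlgClosure F Ω]

/-- From types to elements. -/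
theorem g2f_of_types {p : ℕ} (M L : IntermediateField F Ω) [NumberField M] [NumberField L] (hML : M ≤ L)
    (hst : ∀ s ∈ M.fixingSubgroup, ∀ x ∈ L, s x ∈ L)
    (h : letI : Algebra M L := s13_alg hML
      ∀ Q : Ideal (𝓞 L), Q.IsPrime → (p : 𝓞 L) ∈ Q → G2 M Q) : G2F p M L := by
  letI : Algebra M L := s13_alg hML
  have hac : IsAlgClosed Ω := IsAlgClosure.isAlgClosed F
  have halg : Algebra.IsAlgebraic F Ω := IsAlgClosure.isAlgebraic
  have hcz : CharZero Ω := charZero_of_injective_algebraMap (FaithfulSMul.algebraMap_injective F Ω)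
  have hLf : FiniteDimensional F L := Module.Finite.of_restrictScalars_finite ℚ F L
  have hgal : IsGalois M L := s13_galois M L hML hst
  have hsc : IsScalarTower M L Ω := IsScalarTower.of_algebraMap_eq fun x => rfl
  intro Q hQ hp s hs hact x hx
  let σ : Ω ≃ₐ[M] Ω := AlgEquiv.ofRingEquiv (f := (s : Ω ≃+* Ω)) fun y =>
    (IntermediateField.mem_fixingSubgroup_iff _ s).1 hs _ y.2
  have hσ : ∀ y : L, ((σ.restrictNormal L y : L) : Ω) = s (y : Ω) := fun y => σ.restrictNormal_commutes L y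
  have h1 : σ.restrictNormal L = 1 := by
    refine h Q hQ hp _ fun y => ?_
    exact hact y (σ.restrictNormal L • y) (hσ (y : L)).symm
  have h2 := hσ ⟨x, hx⟩
  rw [h1] at h2
  exact h2.symm


end SSU
end

-- from Lib.SSN.L2
section

/-! # SSN, chunk L2: the ring of integers modulo an inert prime -/

open NumberField IsDedekindDomain

namespace SSN

open H55P (IQ Nm)
open H55K (ak cj)

section spl

/-- The two components of an additive map on a quadratic ring to a field. -/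
theorem spl {R k : Type} [CommRing R] [Field k] (c : R ≃+* R) (ι : R →+* k) (g : R) (p : ℕ) (hp : (p : k) = 0)
    (hcc : c (c g) = g) (tr : ∃ t : ℤ, g + c g = t) (nm : ∃ n : ℤ, g * c g = n)
    (bas : ∀ a : R, ∃ m n : ℤ, (p : R) ∣ a - (m + n * g)) (lam : R →+ k) (a : R) :
    lam (a * g) - ι (c g) * lam a = ι a * (lam g - ι (c g) * lam 1) ∧
      lam (a * g) - ι g * lam a = ι (c a) * (lam g - ι g * lam 1) := by
  obtain ⟨m, n, x, hx⟩ := bas a
  obtain ⟨t, ht⟩ := tr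
  obtain ⟨N, hN⟩ := nm
  have hpx : ∀ y : R, lam ((p : R) * y) = 0 := fun y => by
    rw [← nsmul_eq_mul, map_nsmul, nsmul_eq_mul, hp, zero_mul]
  have hz : ∀ (z : ℤ) (y : R), lam ((z : R) * y) = (z : k) * lam y := fun z y => by
    rw [← zsmul_eq_mul, map_zsmul, zsmul_eq_mul]
  have ha : a = m + n * g + (p : R) * x := by rw [← hx]; ring
  have e1 : lam a = m * lam 1 + n * lam g := by
    have h1 : a = (m : R) * 1 + n * g + (p : R) * x := by rw [mul_one]; exact ha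
    rw [h1, map_add, map_add, hz, hz, hpx, add_zero]
  have e2 : lam (a * g) = m * lam g + n * (t * lam g - N * lam 1) := by
    have h1 : a * g = (m : R) * g + n * ((t : R) * g - (N : R) * 1) + (p : R) * (x * g) := by
      rw [ha, ← ht, ← hN]
      ring
    rw [h1, map_add, map_add, hz, hz, hpx, add_zero, map_sub, hz, hz]
  have i1 : ι a = m + n * ι g := by
    rw [ha]
    simp [hp]
  have i2 : ι (c a) = m + n * ι (c g) := by
    rw [ha]
    simp [hp]
  have i3 : ι g + ι (c g) = t := by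
    have h1 := congrArg ι ht
    simpa using h1
  have i4 : ι g * ι (c g) = N := by
    have h1 := congrArg ι hN
    simpa using h1
  rw [e1, e2, i1, i2]
  constructor
  · linear_combination (-(n : k) * lam g) * i3 + (n : k) * lam 1 * i4
  · linear_combination (-(n : k) * lam g) * i3 + (n : k) * lam 1 * i4

end spl

variable {F : Type} [Field F] [NumberField F] [IQ F]

/-- A generator of the ring of integers modulo an inert prime. -/
theorem exists_gen {p : ℕ} (hp : p.Prime) (h2 : p ≠ 2) (hP : Prime (p : 𝓞 F)) :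
    ∃ g : 𝓞 F, ¬ (p : 𝓞 F) ∣ g - cj g ∧ ∀ a : 𝓞 F, ∃ m n : ℤ, (p : 𝓞 F) ∣ a - (m + n * g) := by
  obtain ⟨g, hg⟩ : ∃ g : 𝓞 F, ¬ (p : 𝓞 F) ∣ g - cj g := by
    by_contra h
    push Not at h
    exact H55K.TQ.rf_card hp h2 h
  refine ⟨g, hg, fun a => ?_⟩
  obtain ⟨d, hd⟩ : ∃ d : 𝓞 F, d = g - cj g := ⟨_, rfl⟩
  have hcd : cj d = -d := by
    rw [hd, map_sub, H55K.cj_cj]
    ring
  have hN : d * (-d) = (Nm d : 𝓞 F) := by
    rw [← hcd]
    exact H55K.mul_cj d
  have hpN : ¬ p ∣ 2 * Nm d := by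
    intro h
    have h1 : (p : 𝓞 F) ∣ ((2 * Nm d : ℕ) : 𝓞 F) := by
      obtain ⟨c, hc⟩ := h
      exact ⟨c, by rw [hc]; push_cast; ring⟩
    push_cast at h1
    rw [← hN] at h1
    rcases hP.dvd_or_dvd h1 with h3 | h3
    · have h4 : (p : 𝓞 F) ∣ ((2 : ℕ) : 𝓞 F) := by exact_mod_cast h3
      have h5 : Nat.Coprime p 2 := (Nat.coprime_primes hp Nat.prime_two).2 h2
      obtain ⟨u, v, huv⟩ := (Nat.isCoprime_iff_coprime.2 h5)
      apply hP.not_isUnit
      refine isUnit_of_dvd_one ?_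
      have h6 : ((u * p + v * (2 : ℕ) : ℤ) : 𝓞 F) = ((1 : ℤ) : 𝓞 F) := congrArg _ huv
      push_cast at h6
      rw [← h6]
      exact dvd_add (dvd_mul_left _ _) (Dvd.dvd.mul_left (by exact_mod_cast h4) _)
    · rcases hP.dvd_or_dvd h3 with h4 | h4
      · exact hg (hd ▸ h4)
      · exact hg (hd ▸ (dvd_neg.1 h4))
  obtain ⟨u, v, huv⟩ := (Nat.isCoprime_iff_coprime.2 ((Nat.Prime.coprime_iff_not_dvd hp).2 hpN))
  have huv' : (u : 𝓞 F) * p + v * (2 * (d * (-d))) = 1 := by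
    have h6 : ((u * p + v * ((2 * Nm d : ℕ) : ℤ) : ℤ) : 𝓞 F) = ((1 : ℤ) : 𝓞 F) := congrArg _ huv
    push_cast at h6
    rw [hN]
    exact h6
  -- the coefficient n
  obtain ⟨t, ht⟩ := H55K.TQ.rf_tr ((a - cj a) * d)
  have ht' : 2 * ((a - cj a) * d) = (t : 𝓞 F) := by
    rw [← ht, map_mul, map_sub, H55K.cj_cj, hcd]
    ring
  obtain ⟨n, hn⟩ : ∃ n : ℤ, n = -(v * t) := ⟨_, rfl⟩
  have h7 : (p : 𝓞 F) ∣ (a - cj a) - n * d := by
    refine ⟨(a - cj a) * u, ?_⟩
    rw [hn]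
    push_cast
    rw [← ht']
    linear_combination (-(a - cj a)) * huv'
  obtain ⟨t', ht''⟩ := H55K.TQ.rf_tr (a - (n : 𝓞 F) * g)
  have h8 : (p : 𝓞 F) ∣ 2 * (a - n * g) - t' := by
    have e1 : 2 * (a - n * g) - t' = (a - cj a) - n * d := by
      rw [← ht'', map_sub, map_mul, H55K.cj_int, hd]
      ring
    rw [e1]
    exact h7
  -- divide by 2
  obtain ⟨u', v', huv2⟩ := (Nat.isCoprime_iff_coprime.2 ((Nat.coprime_primes hp Nat.prime_two).2 h2))
  have huv3 : (u' : 𝓞 F) * p + v' * 2 = 1 := by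
    have h6 : ((u' * p + v' * (2 : ℕ) : ℤ) : 𝓞 F) = ((1 : ℤ) : 𝓞 F) := congrArg _ huv2
    push_cast at h6
    exact h6
  refine ⟨v' * t', n, ?_⟩
  obtain ⟨x, hx⟩ := h8
  refine ⟨(u' : 𝓞 F) * (a - n * g) + (v' : 𝓞 F) * x, ?_⟩
  push_cast
  linear_combination (-(a - n * g)) * huv3 + (v' : 𝓞 F) * hx

end SSN
end

-- from Lib.SSN.FR
section

/-! # SSN, chunk FR: the Frobenius map of the ring of integers modulo an inert prime is the conjugation -/

open NumberField IsDedekindDomain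

namespace SSN

open H55P (IQ Nm)
open H55K (ak cj)

variable {F : Type} [Field F] [NumberField F] [IQ F]

theorem frob_cj {p : ℕ} (hp : p.Prime) (h2 : p ≠ 2) (hP : Prime (p : 𝓞 F)) (a : 𝓞 F) : (p : 𝓞 F) ∣ a ^ p - cj a := by
  have hpf : Fact p.Prime := ⟨hp⟩
  have hne : Ideal.span {(p : 𝓞 F)} ≠ ⊥ := by
    rw [Ne, Ideal.span_singleton_eq_bot]
    exact hP.ne_zero
  have hm : (Ideal.span {(p : 𝓞 F)}).IsMaximal := ((Ideal.span_singleton_prime hP.ne_zero).2 hP).isMaximal hne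
  let _ := Ideal.Quotient.field (Ideal.span {(p : 𝓞 F)})
  obtain ⟨mk, hmk⟩ : ∃ mk : 𝓞 F →+* (𝓞 F ⧸ Ideal.span {(p : 𝓞 F)}), ∀ x y : 𝓞 F, mk x = mk y ↔ (p : 𝓞 F) ∣ x - y :=
    ⟨Ideal.Quotient.mk _, fun x y => by rw [Ideal.Quotient.eq, Ideal.mem_span_singleton]⟩
  have hp0 : ((p : ℕ) : 𝓞 F ⧸ Ideal.span {(p : 𝓞 F)}) = 0 := by
    rw [← map_natCast mk, ← map_zero mk, hmk, sub_zero]
  have hchar : CharP (𝓞 F ⧸ Ideal.span {(p : 𝓞 F)}) p := by
    obtain ⟨q, hq⟩ := CharP.exists (𝓞 F ⧸ Ideal.span {(p : 𝓞 F)})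
    have h3 : q ∣ p := (CharP.cast_eq_zero_iff _ q p).1 hp0
    rcases (Nat.dvd_prime hp).1 h3 with h4 | h4
    · exfalso
      have h5 : ((q : ℕ) : 𝓞 F ⧸ Ideal.span {(p : 𝓞 F)}) = 0 := CharP.cast_eq_zero _ q
      rw [h4, Nat.cast_one] at h5
      exact one_ne_zero h5
    · exact h4 ▸ hq
  have hint : ∀ n : ℤ, ((n : ℤ) : 𝓞 F ⧸ Ideal.span {(p : 𝓞 F)}) ^ p = (n : ℤ) := by
    intro n
    have h3 := congrArg (ZMod.castHom (dvd_refl p) (𝓞 F ⧸ Ideal.span {(p : 𝓞 F)})) (ZMod.pow_card (n : ZMod p))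
    rw [map_pow, map_intCast] at h3
    exact h3
  obtain ⟨g, hg1, hg2⟩ := exists_gen hp h2 hP
  -- the generator
  have hg : mk g ^ p = mk (cj g) := by
    obtain ⟨t, ht⟩ := H55K.TQ.rf_tr g
    have hN := H55K.mul_cj g
    have e1 : mk g + mk (cj g) = (t : ℤ) := by
      rw [← map_add, ht, map_intCast]
    have e2 : mk g * mk (cj g) = ((Nm g : ℤ) : ℤ) := by
      rw [← map_mul, hN, map_natCast]
      push_cast
      rfl
    have e3 : mk g ^ 2 = (t : ℤ) * mk g - ((Nm g : ℤ) : ℤ) := by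
      rw [← e1, ← e2]
      ring
    have e4 : (mk g ^ p) ^ 2 = (t : ℤ) * mk g ^ p - ((Nm g : ℤ) : ℤ) := by
      have h3 := congrArg (fun x => x ^ p) e3
      beta_reduce at h3
      rw [sub_pow_char, mul_pow, hint, hint] at h3
      rw [← h3]
      ring
    have e5 : (mk g ^ p - mk g) * (mk g ^ p - mk (cj g)) = 0 := by
      rw [← e1, ← e2] at e4
      linear_combination e4
    rcases mul_eq_zero.1 e5 with h3 | h3
    · exfalso
      have h4 : mk g ^ p = mk g := sub_eq_zero.1 h3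
      have h5 := (Subfield.mem_bot_iff_pow_eq_self (𝓞 F ⧸ Ideal.span {(p : 𝓞 F)}) p).2 h4
      obtain ⟨n, hx⟩ := (mem_bot_iff_intCast p (𝓞 F ⧸ Ideal.span {(p : 𝓞 F)})).1 h5
      have h6 : (p : 𝓞 F) ∣ g - n := by
        rw [← hmk, map_intCast, hx]
      have h7 : (p : 𝓞 F) ∣ cj g - n := by
        obtain ⟨c, hc⟩ := h6
        refine ⟨cj c, ?_⟩
        have h8 := congrArg cj hc
        rw [map_sub, H55K.cj_int, map_mul, H55K.cj_nat] at h8
        exact h8
      have h8 := dvd_sub h6 h7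
      rw [sub_sub_sub_cancel_right] at h8
      exact hg1 h8
    · exact sub_eq_zero.1 h3
  obtain ⟨m, n, x, hx⟩ := hg2 a
  have ha : a = m + n * g + (p : 𝓞 F) * x := by rw [← hx]; ring
  rw [← hmk, ha]
  simp only [map_add, map_mul, map_pow, map_intCast, map_natCast, hp0, zero_mul, add_zero, H55K.cj_int, H55K.cj_nat]
  rw [add_pow_char, mul_pow, hint, hint, hg]

end SSN
end

-- from Lib.SSN.LD
section

/-! # SSN: local classes with coefficients in E[p] at an inert prime p: definitions (no sorry)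

X is the frame (H19C.Frm) of the field fixed by C = X.C, the subgroup of the decomposition group D (of a number field N) which fixes the points of order p
(X.D = X.E = X.C, the characters om and et are 1 on C). -/

open NumberField IsDedekindDomain

namespace SSN

open H55P (Dec Inert IQ)
open H55K (ak cj)
open H19B (zt)
open H19C (Frm)

variable {F : Type} [Field F] [NumberField F] [IQ F] {Ω : Type} [Field Ω] [Algebra F Ω]

/-- The group D, the Frobenius element φ, the cyclotomic character om, the action al of D on the points of order p, an element g of 𝓞 F which generates 𝓞 F modulo p. -/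
structure Fri (X : Frm F Ω) (D : Subgroup (Ω ≃ₐ[F] Ω)) (om : (Ω ≃ₐ[F] Ω) → ZMod X.p) (al : (Ω ≃ₐ[F] Ω) → 𝓞 F) (φ : Ω ≃ₐ[F] Ω) (q : ℕ)
    (g : 𝓞 F) : Prop where
  ok : X.Ok
  eD : X.D = X.C
  eE : X.E = X.C
  le : X.C ≤ D
  nrm : ∀ s ∈ D, ∀ t ∈ X.C, s⁻¹ * t * s ∈ X.C
  inv : ∀ s ∈ D, ∀ x : Ω, X.V.valuation (s x) = X.V.valuation x
  zD : ∀ s ∈ D, s X.ζ = zt X.ζ (om s)
  phi : φ ∈ D
  q0 : 1 < q
  fro : ∀ x : Ω, X.V.valuation x ≤ 1 → X.V.valuation (φ x - x ^ q) < 1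
  alC : ∀ s ∈ D, (s ∈ X.C ↔ (X.p : 𝓞 F) ∣ al s - 1)
  ine : Prime (X.p : 𝓞 F)
  gen : ¬ (X.p : 𝓞 F) ∣ g - cj g
  bas : ∀ a : 𝓞 F, ∃ m n : ℤ, (X.p : 𝓞 F) ∣ a - (m + n * g)

/-- b z, z in 𝓞 F: a family of characters of C, additive in z, with the action of D. -/
structure Tf (X : Frm F Ω) (D : Subgroup (Ω ≃ₐ[F] Ω)) (om : (Ω ≃ₐ[F] Ω) → ZMod X.p) (al : (Ω ≃ₐ[F] Ω) → 𝓞 F)
    (b : 𝓞 F → (Ω ≃ₐ[F] Ω) → ZMod X.p) : Prop where
  tw : ∀ z, X.Tw (b z)
  ad : ∀ z z', ∀ t ∈ X.C, b (z + z') t = b z t + b z' t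
  eq : ∀ s ∈ D, ∀ t ∈ X.C, ∀ z, om s * b z (s⁻¹ * t * s) = b (al s * z) t

/-- The group of these families. -/
def BW (X : Frm F Ω) (D : Subgroup (Ω ≃ₐ[F] Ω)) (om : (Ω ≃ₐ[F] Ω) → ZMod X.p) (al : (Ω ≃ₐ[F] Ω) → 𝓞 F) :
    AddSubgroup (𝓞 F → (Ω ≃ₐ[F] Ω) → ZMod X.p) where
  carrier := {b | Tf X D om al b}
  zero_mem' := ⟨fun _ => X.TS.zero_mem, fun _ _ _ _ => by simp, fun _ _ _ _ _ => by simp⟩
  add_mem' := by
    rintro b b' ⟨h1, h2, h3⟩ ⟨h1', h2', h3'⟩
    refine ⟨fun z => X.TS.add_mem (h1 z) (h1' z), fun z z' t ht => ?_, fun s hs t ht z => ?_⟩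
    · simp only [Pi.add_apply]
      rw [h2 z z' t ht, h2' z z' t ht]
      ring
    · simp only [Pi.add_apply]
      rw [mul_add, h3 s hs t ht z, h3' s hs t ht z]
  neg_mem' := by
    rintro b ⟨h1, h2, h3⟩
    refine ⟨fun z => X.TS.neg_mem (h1 z), fun z z' t ht => ?_, fun s hs t ht z => ?_⟩
    · simp only [Pi.neg_apply]
      rw [h2 z z' t ht]
      ring
    · simp only [Pi.neg_apply]
      rw [mul_neg, h3 s hs t ht z]


/-- The families of level i. -/
def BF (X : Frm F Ω) (h : X.Ok) (D : Subgroup (Ω ≃ₐ[F] Ω)) (om : (Ω ≃ₐ[F] Ω) → ZMod X.p) (al : (Ω ≃ₐ[F] Ω) → 𝓞 F) (i : ℕ) :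
    AddSubgroup (𝓞 F → (Ω ≃ₐ[F] Ω) → ZMod X.p) where
  carrier := {b | Tf X D om al b ∧ ∀ z, X.Fl i (b z)}
  zero_mem' := ⟨(BW X D om al).zero_mem, fun _ => (H19C.TF X h i).zero_mem⟩
  add_mem' := fun h1 h2 => ⟨(BW X D om al).add_mem h1.1 h2.1, fun z => (H19C.TF X h i).add_mem (h1.2 z) (h2.2 z)⟩
  neg_mem' := fun h1 => ⟨(BW X D om al).neg_mem h1.1, fun z => (H19C.TF X h i).neg_mem (h1.2 z)⟩


/-- The families which are trivial on the inertia group. -/
def BI (X : Frm F Ω) (D : Subgroup (Ω ≃ₐ[F] Ω)) (om : (Ω ≃ₐ[F] Ω) → ZMod X.p) (al : (Ω ≃ₐ[F] Ω) → 𝓞 F) :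
    AddSubgroup (𝓞 F → (Ω ≃ₐ[F] Ω) → ZMod X.p) where
  carrier := {b | Tf X D om al b ∧ ∀ z, ∀ t ∈ X.C, Inert X.V t → b z t = 0}
  zero_mem' := ⟨(BW X D om al).zero_mem, fun _ _ _ _ => rfl⟩
  add_mem' := fun h1 h2 => ⟨(BW X D om al).add_mem h1.1 h2.1, fun z t ht hi => by
    simp only [Pi.add_apply]
    rw [h1.2 z t ht hi, h2.2 z t ht hi, add_zero]⟩
  neg_mem' := fun h1 => ⟨(BW X D om al).neg_mem h1.1, fun z t ht hi => by
    simp only [Pi.neg_apply]
    rw [h1.2 z t ht hi, neg_zero]⟩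


/-- The inertia group acts on w^i as on the points of order p. -/
def G1 (X : Frm F Ω) (D : Subgroup (Ω ≃ₐ[F] Ω)) (al : (Ω ≃ₐ[F] Ω) → 𝓞 F) (i : ℕ) : Prop :=
  ∀ s ∈ D, Inert X.V s → X.V.valuation ((s X.w / X.w) ^ i - ak Ω (al s)) < 1

/-- The inertia group acts on w^i through the conjugate of the action on the points of order p. -/
def G2 (X : Frm F Ω) (D : Subgroup (Ω ≃ₐ[F] Ω)) (al : (Ω ≃ₐ[F] Ω) → 𝓞 F) (i : ℕ) : Prop :=
  ∀ s ∈ D, Inert X.V s → X.V.valuation ((s X.w / X.w) ^ i - ak Ω (cj (al s))) < 1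

end SSN
end

-- from Lib.SSN.L1
section

/-! # SSN, chunk L1: leading coefficients and values of the Kummer generators of a family -/

open NumberField IsDedekindDomain

namespace SSN

open H55P (Dec Inert IQ)
open H55K (ak cj)
open H19B (zt zt_zero zt_add zt_neg zt_mul)
open H19C (Frm)

section one

variable {F : Type} [Field F] {Ω : Type} [Field Ω] [Algebra F Ω]


/-- The quotient of two generators of the same character is fixed by E. -/
theorem kg_quot {X : Frm F Ω} (h : X.Ok) (hCE : X.E = X.C) {a a' : (Ω ≃ₐ[F] Ω) → ZMod X.p} (haa : ∀ t ∈ X.C, a t = a' t) {β β' : Ω}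
    (hβ : X.Kg a β) (hβ' : X.Kg a' β') : ∀ s ∈ X.E, s (β * β'⁻¹) = β * β'⁻¹ := by
  intro s hs
  rw [hCE] at hs
  have h1 := (H19C.kg_mul X h hβ (H19C.kg_inv X h hβ')).ev s hs
  rw [h1, Pi.add_apply, Pi.neg_apply, haa s hs, add_neg_cancel, zt_zero, one_mul]

/-- Uniqueness of the leading coefficient. -/
theorem lead_uniq {X : Frm F Ω} (h : X.Ok) (hCE : X.E = X.C) {a a' : (Ω ≃ₐ[F] Ω) → ZMod X.p} (haa : ∀ t ∈ X.C, a t = a' t) {β β' : Ω}
    (hβ : X.Kg a β) (hβ' : X.Kg a' β') {i : ℕ} (hi : ¬ X.p ∣ i) (hie : i * (X.p - 1) < X.e * X.p) {l l' : Ω}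
    (hl : β ^ X.p - 1 = l * X.w ^ i) (hl' : β' ^ X.p - 1 = l' * X.w ^ i) (h1 : X.V.valuation l ≤ 1) (h1' : X.V.valuation l' ≤ 1) :
    X.V.valuation (l - l') < 1 := by
  have hW0 : X.V.valuation X.w ≠ 0 := (Valuation.ne_zero_iff _).2 h.w0
  have hWip : 0 < X.V.valuation X.w ^ i := zero_lt_iff.2 (pow_ne_zero _ hW0)
  have hi0 : i ≠ 0 := by
    rintro rfl
    exact hi (dvd_zero _)
  have hWi1 : X.V.valuation X.w ^ i < 1 := pow_lt_one₀ zero_le h.w1 hi0
  have hb1 : X.V.valuation (β' ^ X.p) = 1 := by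
    refine H19C.fs_one X ?_
    rw [hl', map_mul, map_pow]
    exact lt_of_le_of_lt (mul_le_of_le_one_left' h1') hWi1
  have hb0 : β' ^ X.p ≠ 0 := pow_ne_zero _ hβ'.ne
  have e1 : (β * β'⁻¹) ^ X.p - 1 = ((l - l') * X.w ^ i) * (β' ^ X.p)⁻¹ := by
    have e2 : β ^ X.p - β' ^ X.p = (l - l') * X.w ^ i := by linear_combination hl - hl'
    rw [← e2, mul_pow, inv_pow]
    field_simp
  have e3 : X.V.valuation ((β * β'⁻¹) ^ X.p - 1) = X.V.valuation (l - l') * X.V.valuation X.w ^ i := by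
    rw [e1, map_mul, map_inv₀, hb1, inv_one, mul_one, map_mul, map_pow]
  have h2 : X.V.valuation (l - l') ≤ 1 := (Valuation.map_sub _ _ _).trans (max_le h1 h1')
  have h3 : X.V.valuation ((β * β'⁻¹) ^ X.p - 1) ≤ X.V.valuation X.w ^ i := by
    rw [e3]
    exact mul_le_of_le_one_left' h2
  have h4 := H19C.pow_claim X h (kg_quot h hCE haa hβ hβ') hi hie h3
  rw [e3] at h4
  exact lt_of_mul_lt_mul_right (h4.trans_le (by rw [one_mul])) hWip.le

/-- Uniqueness of the value modulo p. -/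
theorem exp_uniq {X : Frm F Ω} (h : X.Ok) (hCE : X.E = X.C) {a a' : (Ω ≃ₐ[F] Ω) → ZMod X.p} (haa : ∀ t ∈ X.C, a t = a' t) {β β' : Ω}
    (hβ : X.Kg a β) (hβ' : X.Kg a' β') {i i' : ℤ} (hi : X.V.valuation (β ^ X.p) = X.V.valuation X.w ^ i)
    (hi' : X.V.valuation (β' ^ X.p) = X.V.valuation X.w ^ i') : (i : ZMod X.p) = (i' : ZMod X.p) := by
  have hW0 : X.V.valuation X.w ≠ 0 := (Valuation.ne_zero_iff _).2 h.w0
  have hq0 : β * β'⁻¹ ≠ 0 := mul_ne_zero hβ.ne (inv_ne_zero hβ'.ne)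
  obtain ⟨m, hm⟩ := h.val _ hq0 (kg_quot h hCE haa hβ hβ')
  have h1 : X.V.valuation X.w ^ (m * X.p) = X.V.valuation X.w ^ (i - i') := by
    rw [zpow_mul, ← hm, zpow_natCast, ← map_pow, mul_pow, inv_pow, map_mul, map_inv₀, hi, hi', zpow_sub₀ hW0, div_eq_mul_inv]
  have h2 := H19C.k4_exp X h h1
  rw [← sub_eq_zero, ← Int.cast_sub, ← h2]
  push_cast
  rw [ZMod.natCast_self, mul_zero]

/-- Elements of the group D and the roots of unity. -/
theorem zt_map' {X : Frm F Ω} (h : X.Ok) {s : Ω ≃ₐ[F] Ω} {m : ZMod X.p} (hs : s X.ζ = zt X.ζ m) (a : ZMod X.p) :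
    s (zt X.ζ a) = zt X.ζ (m * a) := by
  have : NeZero X.p := ⟨h.pr.ne_zero⟩
  have h1 : s (zt X.ζ a) = (s X.ζ) ^ a.val := by rw [zt, map_pow]
  rw [h1, hs, ← zt_mul h.pr h.prim, ZMod.natCast_zmod_val, mul_comm]

end one

variable {F : Type} [Field F] [NumberField F] [IQ F] {Ω : Type} [Field Ω] [Algebra F Ω] {X : Frm F Ω} {D : Subgroup (Ω ≃ₐ[F] Ω)}
  {om : (Ω ≃ₐ[F] Ω) → ZMod X.p} {al : (Ω ≃ₐ[F] Ω) → 𝓞 F} {φ : Ω ≃ₐ[F] Ω} {q : ℕ} {g : 𝓞 F} {b : 𝓞 F → (Ω ≃ₐ[F] Ω) → ZMod X.p}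

/-- The image of a Kummer generator under an element of D. -/
theorem kg_shift (hX : Fri X D om al φ q g) (hb : Tf X D om al b) {z : 𝓞 F} {β : Ω} (hβ : X.Kg (b z) β) {s : Ω ≃ₐ[F] Ω} (hs : s ∈ D) :
    X.Kg (b (al s * z)) (s β) := by
  have hc : ∀ u : Ω ≃ₐ[F] Ω, ∀ x : Ω, u (s x) = s ((s⁻¹ * u * s) x) := by
    intro u x
    have h3 : s * (s⁻¹ * u * s) = u * s := by group
    have h4 : (s * (s⁻¹ * u * s)) x = (u * s) x := by rw [h3]
    exact h4.symm
  refine ⟨(map_ne_zero s).2 hβ.ne, fun u hu => ?_, fun t ht => ?_⟩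
  · rw [← map_pow s, hc u, hβ.fx _ (by rw [hX.eE]; exact hX.nrm s hs u (hX.eE ▸ hu))]
  · rw [hc t, hβ.ev _ (hX.nrm s hs t ht), map_mul, zt_map' hX.ok (hX.zD s hs), hb.eq s hs t ht z]

end SSN
end

-- from Lib.SSN.L3
section

/-! # SSN, chunk L3: the leading coefficients of a family -/

open NumberField IsDedekindDomain

namespace SSN

open H55P (Dec Inert IQ)
open H55K (ak cj)
open H19B (zt zt_zero zt_add zt_neg zt_mul)
open H19C (Frm)

section one

variable {Ω : Type} [Field Ω]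

theorem res_iff {V : ValuationSubring Ω} (x : V) : IsLocalRing.residue V x = 0 ↔ V.valuation (x : Ω) < 1 :=
  (IsLocalRing.residue_eq_zero_iff x).trans (ValuationSubring.valuation_lt_one_iff _ x)

theorem res_eq {V : ValuationSubring Ω} (x y : V) : IsLocalRing.residue V x = IsLocalRing.residue V y ↔ V.valuation ((x : Ω) - y) < 1 := by
  rw [← sub_eq_zero, ← map_sub, res_iff]
  rfl

end one

variable {F : Type} [Field F] [NumberField F] [IQ F] {Ω : Type} [Field Ω] [Algebra F Ω] {X : Frm F Ω} {D : Subgroup (Ω ≃ₐ[F] Ω)}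
  {om : (Ω ≃ₐ[F] Ω) → ZMod X.p} {al : (Ω ≃ₐ[F] Ω) → 𝓞 F} {φ : Ω ≃ₐ[F] Ω} {q : ℕ} {g : 𝓞 F} {b : 𝓞 F → (Ω ≃ₐ[F] Ω) → ZMod X.p}

/-- The elements of 𝓞 F in V. -/
noncomputable def akV (F : Type) [Field F] {Ω : Type} [Field Ω] [Algebra F Ω] (V : ValuationSubring Ω) : 𝓞 F →+* V :=
  ((algebraMap F Ω).comp (algebraMap (𝓞 F) F)).codRestrict V.toSubring
    (fun a => (V.valuation_le_one_iff _).1 (H55K.ak_le V a))

omit [NumberField F] [IQ F] in
theorem akV_val (V : ValuationSubring Ω) (a : 𝓞 F) : ((akV F V a : V) : Ω) = ak Ω a := rfl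

theorem w_val (hX : Fri X D om al φ q g) {s : Ω ≃ₐ[F] Ω} (hs : s ∈ D) (i : ℕ) : X.V.valuation ((s X.w / X.w) ^ i) = 1 := by
  rw [map_pow, map_div₀, hX.inv s hs, div_self ((Valuation.ne_zero_iff _).2 hX.ok.w0), one_pow]

/-- The leading coefficients of a family. -/
theorem lead_fam (hX : Fri X D om al φ q g) {i : ℕ} (hb : b ∈ BF X hX.ok D om al i) (hi : ¬ X.p ∣ i + 1)
    (hie : (i + 1) * (X.p - 1) < X.e * X.p) :
    ∃ (β : 𝓞 F → Ω) (L : 𝓞 F → X.V), (∀ z, X.Kg (b z) (β z) ∧ (β z) ^ X.p - 1 = (L z : Ω) * X.w ^ (i + 1)) ∧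
      (∀ z z', IsLocalRing.residue X.V (L (z + z')) = IsLocalRing.residue X.V (L z) + IsLocalRing.residue X.V (L z')) ∧
      ∀ s ∈ D, ∀ z, X.V.valuation ((L (al s * z) : Ω) - (s X.w / X.w) ^ (i + 1) * s (L z : Ω)) < 1 := by
  have h := hX.ok
  obtain ⟨hT, hF⟩ := hb
  have hw : X.w ^ (i + 1) ≠ 0 := pow_ne_zero _ h.w0
  have hW0 : X.V.valuation X.w ≠ 0 := (Valuation.ne_zero_iff _).2 h.w0
  have hWip : 0 < X.V.valuation X.w ^ (i + 1) := zero_lt_iff.2 (pow_ne_zero _ hW0)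
  have hWi1 : X.V.valuation X.w ^ (i + 1) < 1 := H19C.fs_lt X h i
  have hex : ∀ z : 𝓞 F, ∃ (β : Ω) (l : X.V), X.Kg (b z) β ∧ β ^ X.p - 1 = (l : Ω) * X.w ^ (i + 1) := by
    intro z
    obtain ⟨-, β, hβ, hβ'⟩ := hF z
    have hl : β ^ X.p - 1 = ((β ^ X.p - 1) / X.w ^ (i + 1)) * X.w ^ (i + 1) := (div_mul_cancel₀ _ hw).symm
    have h1 : X.V.valuation ((β ^ X.p - 1) / X.w ^ (i + 1)) ≤ 1 := by
      rw [map_div₀, map_pow]
      exact div_le_one_of_le₀ hβ' zero_le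
    exact ⟨β, ⟨_, (ValuationSubring.valuation_le_one_iff _ _).1 h1⟩, hβ, hl⟩
  choose β L hβ hL using hex
  have hL1 : ∀ z, X.V.valuation (L z : Ω) ≤ 1 := fun z => (X.V.valuation_le_one_iff _).2 (L z).2
  refine ⟨β, L, fun z => ⟨hβ z, hL z⟩, fun z z' => ?_, fun s hs z => ?_⟩
  · rw [← map_add, res_eq]
    push_cast
    have h1 := H19C.kg_mul X h (hβ z) (hβ z')
    have h2 : (β z * β z') ^ X.p - 1 = ((L z : Ω) + L z' + L z * L z' * X.w ^ (i + 1)) * X.w ^ (i + 1) := by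
      rw [mul_pow]
      linear_combination (β z' ^ X.p) * hL z + (1 + (L z : Ω) * X.w ^ (i + 1)) * hL z' 
    have h4 : X.V.valuation ((L z : Ω) * L z' * X.w ^ (i + 1)) < 1 := by
      rw [map_mul, map_mul, map_pow]
      exact lt_of_le_of_lt (mul_le_of_le_one_left' (mul_le_one' (hL1 z) (hL1 z'))) hWi1
    have h5 : X.V.valuation ((L z : Ω) + L z' + L z * L z' * X.w ^ (i + 1)) ≤ 1 :=
      Valuation.map_add_le _ (Valuation.map_add_le _ (hL1 z) (hL1 z')) h4.le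
    have h3 := lead_uniq h hX.eE (fun t ht => hT.ad z z' t ht) (hβ (z + z')) h1 hi hie (hL (z + z')) h2 (hL1 _) h5
    have e1 : (L (z + z') : Ω) - (L z + L z') = ((L (z + z') : Ω) - ((L z : Ω) + L z' + L z * L z' * X.w ^ (i + 1))) +
        (L z : Ω) * L z' * X.w ^ (i + 1) := by ring
    rw [e1]
    exact Valuation.map_add_lt _ h3 h4
  · have h1 := kg_shift hX hT (hβ z) hs
    have h2 : (s (β z)) ^ X.p - 1 = ((s X.w / X.w) ^ (i + 1) * s (L z : Ω)) * X.w ^ (i + 1) := by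
      have e1 : s ((β z) ^ X.p - 1) = s ((L z : Ω) * X.w ^ (i + 1)) := by rw [hL z]
      rw [map_sub, map_pow, map_one, map_mul, map_pow] at e1
      rw [e1, div_pow]
      field_simp
    have h3 : X.V.valuation ((s X.w / X.w) ^ (i + 1) * s (L z : Ω)) ≤ 1 := by
      rw [map_mul, w_val hX hs, one_mul, hX.inv s hs]
      exact hL1 z
    exact lead_uniq h hX.eE (fun t _ => rfl) (hβ (al s * z)) h1 hi hie (hL (al s * z)) h2 (hL1 _) h3

/-- The number p is zero in the residue field. -/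
theorem res_p (hX : Fri X D om al φ q g) : ((X.p : ℕ) : IsLocalRing.ResidueField X.V) = 0 := by
  have h1 : X.V.valuation (((X.p : ℕ) : X.V) : Ω) < 1 := by
    have h2 := H19C.vp_lt X hX.ok
    push_cast
    exact h2
  have h3 := (res_iff ((X.p : ℕ) : X.V)).2 h1
  rwa [map_natCast] at h3

/-- The components of the leading coefficients of a family. -/
theorem comp_fam (hX : Fri X D om al φ q g) {i : ℕ} (hb : b ∈ BF X hX.ok D om al i) (hi : ¬ X.p ∣ i + 1)
    (hie : (i + 1) * (X.p - 1) < X.e * X.p) :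
    ∃ (β : 𝓞 F → Ω) (L : 𝓞 F → X.V) (lam : 𝓞 F →+ IsLocalRing.ResidueField X.V),
      (∀ z, X.Kg (b z) (β z) ∧ (β z) ^ X.p - 1 = (L z : Ω) * X.w ^ (i + 1) ∧ IsLocalRing.residue X.V (L z) = lam z) ∧
      ∀ s ∈ D, X.V.valuation (ak Ω (al s) * ((L g : Ω) - ak Ω (cj g) * L 1) -
          (s X.w / X.w) ^ (i + 1) * s ((L g : Ω) - ak Ω (cj g) * L 1)) < 1 ∧
        X.V.valuation (ak Ω (cj (al s)) * ((L g : Ω) - ak Ω g * L 1) - (s X.w / X.w) ^ (i + 1) * s ((L g : Ω) - ak Ω g * L 1)) < 1 := by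
  obtain ⟨β, L, h1, h2, h3⟩ := lead_fam hX hb hi hie
  obtain ⟨lam, hlam⟩ : ∃ lam : 𝓞 F →+ IsLocalRing.ResidueField X.V, ∀ z, lam z = IsLocalRing.residue X.V (L z) :=
    ⟨AddMonoidHom.mk' (fun z => IsLocalRing.residue X.V (L z)) h2, fun z => rfl⟩
  refine ⟨β, L, lam, fun z => ⟨(h1 z).1, (h1 z).2, (hlam z).symm⟩, fun s hs => ?_⟩
  obtain ⟨m, n⟩ := spl (cj : 𝓞 F ≃+* 𝓞 F) ((IsLocalRing.residue X.V).comp (akV F X.V)) g X.p (res_p hX) (H55K.cj_cj g)
    (H55K.TQ.rf_tr g) ⟨(H55P.Nm g : ℤ), by rw [H55K.mul_cj]; push_cast; rfl⟩ hX.bas lam (al s)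
  simp only [RingHom.comp_apply, hlam] at m n
  have a1 := h3 s hs 1
  have a2 := h3 s hs g
  rw [mul_one] at a1
  have hfix : ∀ a : 𝓞 F, s (ak Ω a) = ak Ω a := fun a => s.commutes _
  have hle : ∀ a : 𝓞 F, X.V.valuation (ak Ω a) ≤ 1 := fun a => H55K.ak_le X.V a
  constructor
  · have m' : X.V.valuation ((L (al s * g) : Ω) - ak Ω (cj g) * L (al s) - ak Ω (al s) * ((L g : Ω) - ak Ω (cj g) * L 1)) < 1 := by
      have e1 := (res_eq (L (al s * g) - akV F X.V (cj g) * L (al s)) (akV F X.V (al s) * (L g - akV F X.V (cj g) * L 1))).1 (by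
        simp only [map_sub, map_mul]
        exact m)
      push_cast at e1
      exact e1
    have e2 : ak Ω (al s) * ((L g : Ω) - ak Ω (cj g) * L 1) - (s X.w / X.w) ^ (i + 1) * s ((L g : Ω) - ak Ω (cj g) * L 1) =
        -((L (al s * g) : Ω) - ak Ω (cj g) * L (al s) - ak Ω (al s) * ((L g : Ω) - ak Ω (cj g) * L 1)) +
          (((L (al s * g) : Ω) - (s X.w / X.w) ^ (i + 1) * s (L g : Ω)) -
            ak Ω (cj g) * ((L (al s) : Ω) - (s X.w / X.w) ^ (i + 1) * s (L 1 : Ω))) := by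
      rw [map_sub, map_mul, hfix]
      ring
    rw [e2]
    refine Valuation.map_add_lt _ (by rw [Valuation.map_neg]; exact m') ?_
    refine lt_of_le_of_lt (Valuation.map_sub _ _ _) (max_lt a2 ?_)
    rw [map_mul]
    exact lt_of_le_of_lt (mul_le_of_le_one_left' (hle _)) a1
  · have m' : X.V.valuation ((L (al s * g) : Ω) - ak Ω g * L (al s) - ak Ω (cj (al s)) * ((L g : Ω) - ak Ω g * L 1)) < 1 := by
      have e1 := (res_eq (L (al s * g) - akV F X.V g * L (al s)) (akV F X.V (cj (al s)) * (L g - akV F X.V g * L 1))).1 (by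
        simp only [map_sub, map_mul]
        exact n)
      push_cast at e1
      exact e1
    have e2 : ak Ω (cj (al s)) * ((L g : Ω) - ak Ω g * L 1) - (s X.w / X.w) ^ (i + 1) * s ((L g : Ω) - ak Ω g * L 1) =
        -((L (al s * g) : Ω) - ak Ω g * L (al s) - ak Ω (cj (al s)) * ((L g : Ω) - ak Ω g * L 1)) +
          (((L (al s * g) : Ω) - (s X.w / X.w) ^ (i + 1) * s (L g : Ω)) -
            ak Ω g * ((L (al s) : Ω) - (s X.w / X.w) ^ (i + 1) * s (L 1 : Ω))) := by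
      rw [map_sub, map_mul, hfix]
      ring
    rw [e2]
    refine Valuation.map_add_lt _ (by rw [Valuation.map_neg]; exact m') ?_
    refine lt_of_le_of_lt (Valuation.map_sub _ _ _) (max_lt a2 ?_)
    rw [map_mul]
    exact lt_of_le_of_lt (mul_le_of_le_one_left' (hle _)) a1

end SSN
end

-- from Lib.SSN.L4
section

/-! # SSN, chunk L4: the index of the unramified families -/

open NumberField IsDedekindDomain

namespace SSN

open H55P (Dec Inert IQ)
open H55K (ak cj)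
open H19B (zt zt_zero zt_add zt_neg zt_mul rel_le rel_chain)
open H19C (Frm)

section one

/-- The solutions of c x^q = a x. -/
theorem roots_card {k : Type} [Field k] (c a : k) (hc : c ≠ 0) {q : ℕ} (hq : 1 < q) :
    ∃ R : Finset k, R.card ≤ q ∧ ∀ x, c * x ^ q = a * x → x ∈ R := by
  classical
  obtain ⟨P, hP⟩ : ∃ P : Polynomial k, P = Polynomial.C c * Polynomial.X ^ q - Polynomial.C a * Polynomial.X := ⟨_, rfl⟩
  have hPd : P.natDegree = q := by
    rw [hP]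
    apply Polynomial.natDegree_eq_of_degree_eq_some
    rw [Polynomial.degree_sub_eq_left_of_degree_lt]
    · exact Polynomial.degree_C_mul_X_pow _ hc
    · rw [Polynomial.degree_C_mul_X_pow _ hc]
      refine (Polynomial.degree_C_mul_X_le _).trans_lt ?_
      exact_mod_cast hq
  have hP0 : P ≠ 0 := by
    intro h0
    rw [h0, Polynomial.natDegree_zero] at hPd
    omega
  refine ⟨P.roots.toFinset, ?_, fun x hx => ?_⟩
  · refine (Multiset.toFinset_card_le _).trans ?_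
    rw [← hPd]
    exact Polynomial.card_roots' P
  · rw [Multiset.mem_toFinset, Polynomial.mem_roots hP0, Polynomial.IsRoot.def, hP]
    rw [Polynomial.eval_sub, Polynomial.eval_mul, Polynomial.eval_pow, Polynomial.eval_X, Polynomial.eval_mul, Polynomial.eval_C,
      Polynomial.eval_C, Polynomial.eval_X, hx, sub_self]

end one

variable {F : Type} [Field F] [NumberField F] [IQ F] {Ω : Type} [Field Ω] [Algebra F Ω] {X : Frm F Ω} {D : Subgroup (Ω ≃ₐ[F] Ω)}
  {om : (Ω ≃ₐ[F] Ω) → ZMod X.p} {al : (Ω ≃ₐ[F] Ω) → 𝓞 F} {φ : Ω ≃ₐ[F] Ω} {q : ℕ} {g : 𝓞 F} {b : 𝓞 F → (Ω ≃ₐ[F] Ω) → ZMod X.p}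

theorem bf_anti (hX : Fri X D om al φ q g) : Antitone (BF X hX.ok D om al) := fun _ _ hij _ hb =>
  ⟨hb.1, fun z => H19C.tf_anti X hX.ok hij (hb.2 z)⟩

/-- A component of the leading coefficients which satisfies the equations of the inertia group and of the Frobenius element. -/
theorem comp_mem (hX : Fri X D om al φ q g) (a : (Ω ≃ₐ[F] Ω) → 𝓞 F) (i : ℕ) (G : Prop)
    (hG : ¬ G → ∃ s ∈ D, Inert X.V s ∧ ¬ X.V.valuation ((s X.w / X.w) ^ i - ak Ω (a s)) < 1) :
    ∃ R : Finset (IsLocalRing.ResidueField X.V), (G → R.card ≤ q) ∧ (¬ G → R.card ≤ 1) ∧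
      ∀ x : X.V, (∀ s ∈ D, X.V.valuation (ak Ω (a s) * (x : Ω) - (s X.w / X.w) ^ i * s (x : Ω)) < 1) → IsLocalRing.residue X.V x ∈ R := by
  classical
  have hle : ∀ a : 𝓞 F, X.V.valuation (ak Ω a) ≤ 1 := fun a => H55K.ak_le X.V a
  by_cases hg : G
  · obtain ⟨cV, hcV⟩ : ∃ cV : X.V, (cV : Ω) = (φ X.w / X.w) ^ i :=
      ⟨⟨_, (ValuationSubring.valuation_le_one_iff _ _).1 (w_val hX hX.phi i).le⟩, rfl⟩
    have hc0 : IsLocalRing.residue X.V cV ≠ 0 := by
      intro h0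
      have h1 := (res_iff cV).1 h0
      rw [hcV, w_val hX hX.phi i] at h1
      exact lt_irrefl _ h1
    obtain ⟨R, hR1, hR2⟩ := roots_card (IsLocalRing.residue X.V cV) (IsLocalRing.residue X.V (akV F X.V (a φ))) hc0 hX.q0
    refine ⟨R, fun _ => hR1, fun h => absurd hg h, fun x hx => hR2 _ ?_⟩
    have h1 := hx φ hX.phi
    have hx1 : X.V.valuation (x : Ω) ≤ 1 := (X.V.valuation_le_one_iff _).2 x.2
    have h2 := hX.fro (x : Ω) hx1
    rw [← map_pow, ← map_mul, ← map_mul, res_eq]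
    push_cast
    rw [hcV, akV_val]
    have e1 : (φ X.w / X.w) ^ i * (x : Ω) ^ q - ak Ω (a φ) * (x : Ω) =
        -(ak Ω (a φ) * (x : Ω) - (φ X.w / X.w) ^ i * φ (x : Ω)) - (φ X.w / X.w) ^ i * (φ (x : Ω) - (x : Ω) ^ q) := by ring
    rw [e1]
    refine lt_of_le_of_lt (Valuation.map_sub _ _ _) (max_lt (by rw [Valuation.map_neg]; exact h1) ?_)
    rw [map_mul, w_val hX hX.phi i, one_mul]
    exact h2
  · obtain ⟨s, hs, hi, hu⟩ := hG hg
    refine ⟨{0}, fun h => absurd h hg, fun _ => le_of_eq (Finset.card_singleton _), fun x hx => ?_⟩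
    rw [Finset.mem_singleton, res_iff]
    have h1 := hx s hs
    have hx1 : X.V.valuation (x : Ω) ≤ 1 := (X.V.valuation_le_one_iff _).2 x.2
    have h2 : X.V.valuation (s (x : Ω) - x) < 1 := hi x x.2
    have h3 : X.V.valuation (((s X.w / X.w) ^ i - ak Ω (a s)) * (x : Ω)) < 1 := by
      have e1 : ((s X.w / X.w) ^ i - ak Ω (a s)) * (x : Ω) =
          -(ak Ω (a s) * (x : Ω) - (s X.w / X.w) ^ i * s (x : Ω)) - (s X.w / X.w) ^ i * (s (x : Ω) - x) := by ring
      rw [e1]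
      refine lt_of_le_of_lt (Valuation.map_sub _ _ _) (max_lt (by rw [Valuation.map_neg]; exact h1) ?_)
      rw [map_mul, w_val hX hs i, one_mul]
      exact h2
    have h4 : X.V.valuation ((s X.w / X.w) ^ i - ak Ω (a s)) = 1 := by
      refine le_antisymm ?_ (not_lt.1 hu)
      exact (Valuation.map_sub _ _ _).trans (max_le (w_val hX hs i).le (hle _))
    rw [map_mul, h4, one_mul] at h3
    exact h3

/-- An element of 𝓞 F which is not divisible by p is a unit at V. -/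
theorem ak_unit (hX : Fri X D om al φ q g) {a : 𝓞 F} (ha : ¬ (X.p : 𝓞 F) ∣ a) : X.V.valuation (ak Ω a) = 1 := by
  classical
  have h1 : IsCoprime (X.p : 𝓞 F) a := (hX.ine.irreducible.coprime_iff_not_dvd).2 ha
  have h2 := H19C.vp_lt X hX.ok
  have e1 : ak Ω (X.p : 𝓞 F) = (X.p : Ω) := by simp [ak]
  have h3 : X.V.valuation (ak Ω (X.p : 𝓞 F)) < 1 := by
    rw [e1]
    exact h2
  exact H55K.S.vo_unit h1 h3

open Classical in
/-- One step of the filtration. -/
theorem bf_step (hX : Fri X D om al φ q g) (i : ℕ) (hie : (i + 1) * (X.p - 1) < X.e * X.p) :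
    (BF X hX.ok D om al (i + 1)).relIndex (BF X hX.ok D om al i) ≠ 0 ∧
      (BF X hX.ok D om al (i + 1)).relIndex (BF X hX.ok D om al i) ≤
        q ^ ((if ¬ X.p ∣ i + 1 ∧ G1 X D al (i + 1) then 1 else 0) + if ¬ X.p ∣ i + 1 ∧ G2 X D al (i + 1) then 1 else 0) := by
  have h := hX.ok
  by_cases hp : X.p ∣ i + 1
  · rw [if_neg (fun h' => h'.1 hp), if_neg (fun h' => h'.1 hp), pow_zero]
    have h1 : BF X hX.ok D om al i ≤ BF X hX.ok D om al (i + 1) := by
      intro b hb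
      refine ⟨hb.1, fun z => ?_⟩
      obtain ⟨ta, β, hβ, hβ'⟩ := hb.2 z
      obtain ⟨γ, hγ, hγ'⟩ := H19C.improve X h hβ (Nat.succ_pos i) hp hie hβ'
      exact ⟨ta, γ, hγ, hγ'⟩
    rw [AddSubgroup.relIndex_eq_one.2 h1]
    exact ⟨one_ne_zero, le_rfl⟩
  · obtain ⟨R₁, a1, a2, a3⟩ := comp_mem hX al (i + 1) (G1 X D al (i + 1)) (fun hg => by
      unfold G1 at hg
      push Not at hg
      obtain ⟨s, hs, hi, hu⟩ := hg
      exact ⟨s, hs, hi, not_lt.2 hu⟩)
    obtain ⟨R₂, b1, b2, b3⟩ := comp_mem hX (fun s => cj (al s)) (i + 1) (G2 X D al (i + 1)) (fun hg => by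
      unfold G2 at hg
      push Not at hg
      obtain ⟨s, hs, hi, hu⟩ := hg
      exact ⟨s, hs, hi, not_lt.2 hu⟩)
    have hch : ∀ b : 𝓞 F → (Ω ≃ₐ[F] Ω) → ZMod X.p, ∃ (β : 𝓞 F → Ω) (L : 𝓞 F → X.V) (lam : 𝓞 F →+ IsLocalRing.ResidueField X.V),
        b ∈ BF X hX.ok D om al i → (∀ z, X.Kg (b z) (β z) ∧ (β z) ^ X.p - 1 = (L z : Ω) * X.w ^ (i + 1) ∧
          IsLocalRing.residue X.V (L z) = lam z) ∧
        ∀ s ∈ D, X.V.valuation (ak Ω (al s) * ((L g : Ω) - ak Ω (cj g) * L 1) -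
            (s X.w / X.w) ^ (i + 1) * s ((L g : Ω) - ak Ω (cj g) * L 1)) < 1 ∧
          X.V.valuation (ak Ω (cj (al s)) * ((L g : Ω) - ak Ω g * L 1) - (s X.w / X.w) ^ (i + 1) * s ((L g : Ω) - ak Ω g * L 1)) < 1 := by
      intro b
      by_cases hb : b ∈ BF X hX.ok D om al i
      · obtain ⟨β, L, lam, h1, h2⟩ := comp_fam hX hb hp hie
        exact ⟨β, L, lam, fun _ => ⟨h1, h2⟩⟩
      · exact ⟨fun _ => 0, fun _ => 0, 0, fun h' => absurd h' hb⟩
    choose β L lam hβl using hch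
    have h1 := rel_le (BF X hX.ok D om al (i + 1)) (BF X hX.ok D om al i)
      (fun b => (IsLocalRing.residue X.V (L b g - akV F X.V (cj g) * L b 1), IsLocalRing.residue X.V (L b g - akV F X.V g * L b 1)))
      (R₁ ×ˢ R₂) (fun b hb => by
        rw [Finset.mem_product]
        obtain ⟨-, h2⟩ := hβl b hb
        refine ⟨a3 _ fun s hs => ?_, b3 _ fun s hs => ?_⟩
        · have h3 := (h2 s hs).1
          push_cast
          exact h3
        · have h3 := (h2 s hs).2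
          push_cast
          exact h3)
      (fun b hb b' hb' hab => by
        obtain ⟨hk, -⟩ := hβl b hb
        obtain ⟨hk', -⟩ := hβl b' hb'
        obtain ⟨c1, c2⟩ := Prod.mk.inj hab
        simp only [map_sub, map_mul, (hk g).2.2, (hk 1).2.2, (hk' g).2.2, (hk' 1).2.2] at c1 c2
        have hg0 : IsLocalRing.residue X.V (akV F X.V g) - IsLocalRing.residue X.V (akV F X.V (cj g)) ≠ 0 := by
          rw [← map_sub, ← map_sub]
          intro h0
          have h3 := (res_iff _).1 h0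
          rw [akV_val, ak_unit hX hX.gen] at h3
          exact lt_irrefl _ h3
        have d1 : lam b 1 = lam b' 1 := by
          refine mul_left_cancel₀ hg0 ?_
          linear_combination c1 - c2
        have dg : lam b g = lam b' g := by
          rw [d1] at c1
          exact sub_left_injective c1
        have dz : ∀ z, lam b z = lam b' z := by
          have key : ∀ (b : 𝓞 F → (Ω ≃ₐ[F] Ω) → ZMod X.p) (z x : 𝓞 F) (m n : ℤ), z - (m + n * g) = (X.p : 𝓞 F) * x →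
              lam b z = m * lam b 1 + n * lam b g := by
            intro b z x m n hx
            have e1 : z = m • (1 : 𝓞 F) + n • g + X.p • x := by
              rw [zsmul_eq_mul, zsmul_eq_mul, nsmul_eq_mul, ← hx]
              ring
            rw [e1, map_add, map_add, map_zsmul, map_zsmul, map_nsmul, nsmul_eq_mul, res_p hX, zero_mul, add_zero, zsmul_eq_mul,
              zsmul_eq_mul]
          intro z
          obtain ⟨m, n, x, hx⟩ := hX.bas z
          rw [key b z x m n hx, key b' z x m n hx, d1, dg]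
        refine ⟨(BW X D om al).sub_mem hb.1 hb'.1, fun z => ?_⟩
        obtain ⟨ka, la, ra⟩ := hk z
        obtain ⟨kb, lb, rb⟩ := hk' z
        have h5 : X.V.valuation ((L b z : Ω) - L b' z) < 1 := (res_eq _ _).1 (by rw [ra, rb, dz z])
        have hL1 : X.V.valuation (L b' z : Ω) ≤ 1 := (X.V.valuation_le_one_iff _).2 (L b' z).2
        have h6 : X.V.valuation ((β b' z) ^ X.p) = 1 := H19C.fs_one X (by
          rw [lb, map_mul, map_pow]
          exact lt_of_le_of_lt (mul_le_of_le_one_left' hL1) (H19C.fs_lt X h i))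
        have h7 : (β b' z) ^ X.p ≠ 0 := pow_ne_zero _ kb.ne
        have hk := H19C.kg_mul X h ka (H19C.kg_inv X h kb)
        rw [← sub_eq_add_neg] at hk
        refine ⟨X.TS.sub_mem (hb.1.tw z) (hb'.1.tw z), _, hk, ?_⟩
        refine H19C.val_succ X h ?_ ?_
        · intro s hs
          rw [map_sub, map_one, hk.fx s hs]
        · have e1 : (β b z * (β b' z)⁻¹) ^ X.p - 1 = (((L b z : Ω) - L b' z) * X.w ^ (i + 1)) * ((β b' z) ^ X.p)⁻¹ := by
            have e2 : (β b z) ^ X.p - (β b' z) ^ X.p = ((L b z : Ω) - L b' z) * X.w ^ (i + 1) := by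
              linear_combination la - lb
            rw [← e2, mul_pow, inv_pow]
            field_simp
          rw [e1, map_mul, map_inv₀, h6, inv_one, mul_one, map_mul, map_pow]
          have h8 : X.V.valuation X.w ^ (i + 1) ≠ 0 := pow_ne_zero _ ((Valuation.ne_zero_iff _).2 h.w0)
          exact mul_lt_of_lt_one_left (zero_lt_iff.2 h8) h5)
    refine ⟨h1.1, h1.2.trans ?_⟩
    rw [Finset.card_product, pow_add]
    refine Nat.mul_le_mul ?_ ?_
    · by_cases hg : G1 X D al (i + 1)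
      · rw [if_pos ⟨hp, hg⟩, pow_one]
        exact a1 hg
      · rw [if_neg (fun h' => hg h'.2), pow_zero]
        exact a2 hg
    · by_cases hg : G2 X D al (i + 1)
      · rw [if_pos ⟨hp, hg⟩, pow_one]
        exact b1 hg
      · rw [if_neg (fun h' => hg h'.2), pow_zero]
        exact b2 hg

/-- The values of the Kummer generators modulo p. -/
theorem val_fam (hX : Fri X D om al φ q g) (hb : Tf X D om al b) :
    ∃ v : 𝓞 F →+ ZMod X.p, (∀ z, ∃ (β : Ω) (i : ℤ), X.Kg (b z) β ∧ X.V.valuation (β ^ X.p) = X.V.valuation X.w ^ i ∧ (i : ZMod X.p) = v z) ∧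
      ∀ s ∈ D, ∀ z, v (al s * z) = v z := by
  have h := hX.ok
  have hW0 : X.V.valuation X.w ≠ 0 := (Valuation.ne_zero_iff _).2 h.w0
  have hex : ∀ z : 𝓞 F, ∃ (β : Ω) (i : ℤ), X.Kg (b z) β ∧ X.V.valuation (β ^ X.p) = X.V.valuation X.w ^ i := fun z =>
    H19C.kg_ex X h (b z) (hb.tw z)
  choose β i hβ hi using hex
  refine ⟨AddMonoidHom.mk' (fun z => ((i z : ℤ) : ZMod X.p)) fun z z' => ?_, fun z => ⟨β z, i z, hβ z, hi z, rfl⟩, fun s hs z => ?_⟩
  · have h1 : X.V.valuation ((β z * β z') ^ X.p) = X.V.valuation X.w ^ (i z + i z') := by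
      rw [mul_pow, map_mul, hi z, hi z', zpow_add₀ hW0]
    have h2 := exp_uniq h hX.eE (fun t ht => hb.ad z z' t ht) (hβ (z + z')) (H19C.kg_mul X h (hβ z) (hβ z')) (hi (z + z')) h1
    rw [h2]
    push_cast
    rfl
  · have h1 := kg_shift hX hb (hβ z) hs
    have h2 : X.V.valuation ((s (β z)) ^ X.p) = X.V.valuation X.w ^ (i z) := by
      rw [← map_pow, hX.inv s hs, hi z]
    exact exp_uniq h hX.eE (fun t _ => rfl) (hβ (al s * z)) h1 (hi (al s * z)) h2

/-- The index of the families with generators close to 1. -/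
theorem bf_zero (hX : Fri X D om al φ q g) :
    (BF X hX.ok D om al 0).relIndex (BW X D om al) ≠ 0 ∧ (BF X hX.ok D om al 0).relIndex (BW X D om al) ≤ X.p ^ 2 ∧
      ((∃ s ∈ D, s ∉ X.C) → BW X D om al ≤ BF X hX.ok D om al 0) := by
  classical
  have h := hX.ok
  have hne : NeZero X.p := ⟨h.pr.ne_zero⟩
  have hW0 : X.V.valuation X.w ≠ 0 := (Valuation.ne_zero_iff _).2 h.w0
  have hpv : ∀ (v : 𝓞 F →+ ZMod X.p) (x : 𝓞 F), v ((X.p : 𝓞 F) * x) = 0 := fun v x => by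
    rw [← nsmul_eq_mul, map_nsmul, nsmul_eq_mul, ZMod.natCast_self, zero_mul]
  -- zero values
  have hz : ∀ b : 𝓞 F → (Ω ≃ₐ[F] Ω) → ZMod X.p, Tf X D om al b → ∀ v : 𝓞 F →+ ZMod X.p,
      (∀ z, ∃ (β : Ω) (i : ℤ), X.Kg (b z) β ∧ X.V.valuation (β ^ X.p) = X.V.valuation X.w ^ i ∧ (i : ZMod X.p) = v z) →
      (∀ z, v z = 0) → b ∈ BF X hX.ok D om al 0 := by
    intro b hb v hv h0
    refine ⟨hb, fun z => ?_⟩
    obtain ⟨β, i, h1, h2, h3⟩ := hv z
    refine H19C.kg_unit X h (hb.tw z) h1 h2 ?_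
    rw [← ZMod.intCast_zmod_eq_zero_iff_dvd, h3, h0 z]
  have hch : ∀ b : 𝓞 F → (Ω ≃ₐ[F] Ω) → ZMod X.p, ∃ v : 𝓞 F →+ ZMod X.p, b ∈ BW X D om al →
      (∀ z, ∃ (β : Ω) (i : ℤ), X.Kg (b z) β ∧ X.V.valuation (β ^ X.p) = X.V.valuation X.w ^ i ∧ (i : ZMod X.p) = v z) := by
    intro b
    by_cases hb : b ∈ BW X D om al
    · obtain ⟨v, hv, -⟩ := val_fam hX hb
      exact ⟨v, fun _ => hv⟩
    · exact ⟨0, fun h' => absurd h' hb⟩
  choose v hv using hch
  have h1 := rel_le (BF X hX.ok D om al 0) (BW X D om al) (fun b => (v b 1, v b g)) Finset.univ (fun b _ => Finset.mem_univ _)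
    (fun b hb b' hb' hab => by
      obtain ⟨c1, c2⟩ := Prod.mk.inj hab
      have hs : Tf X D om al (b - b') := (BW X D om al).sub_mem hb hb'
      refine hz (b - b') hs (v b - v b') (fun z => ?_) (fun z => ?_)
      · obtain ⟨β, i, k1, k2, k3⟩ := hv b hb z
        obtain ⟨β', i', k1', k2', k3'⟩ := hv b' hb' z
        have hk := H19C.kg_mul X h k1 (H19C.kg_inv X h k1')
        rw [← sub_eq_add_neg] at hk
        refine ⟨_, i - i', hk, ?_, ?_⟩
        · rw [mul_pow, inv_pow, map_mul, map_inv₀, k2, k2', zpow_sub₀ hW0, div_eq_mul_inv]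
        · push_cast
          rw [k3, k3', AddMonoidHom.sub_apply]
      · obtain ⟨m, n, x, hx⟩ := hX.bas z
        have e1 : z = m • (1 : 𝓞 F) + n • g + (X.p : 𝓞 F) * x := by
          rw [zsmul_eq_mul, zsmul_eq_mul, ← hx]
          ring
        have c1' : (v b - v b') 1 = 0 := by
          rw [AddMonoidHom.sub_apply]
          exact sub_eq_zero.2 c1
        have c2' : (v b - v b') g = 0 := by
          rw [AddMonoidHom.sub_apply]
          exact sub_eq_zero.2 c2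
        rw [e1, map_add, map_add, map_zsmul, map_zsmul, hpv, c1', c2', zsmul_zero, zsmul_zero, add_zero, add_zero])
  refine ⟨h1.1, h1.2.trans ?_, ?_⟩
  · rw [Finset.card_univ, Fintype.card_prod, ZMod.card, pow_two]
  · rintro ⟨s, hs, hsC⟩ b hb
    obtain ⟨v, hv, hs1⟩ := val_fam hX hb
    refine hz b hb v hv fun z => ?_
    have hnd : ¬ (X.p : 𝓞 F) ∣ al s - 1 := fun h' => hsC ((hX.alC s hs).2 h')
    obtain ⟨u, u', huu⟩ : IsCoprime (X.p : 𝓞 F) (al s - 1) := (hX.ine.irreducible.coprime_iff_not_dvd).2 hnd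
    have e1 : z = (X.p : 𝓞 F) * (u * z) + (al s * (u' * z) - u' * z) := by
      linear_combination (-z) * huu
    rw [e1, map_add, hpv, map_sub, hs1 s hs, sub_self, add_zero]

/-- THE INDEX OF THE UNRAMIFIED FAMILIES. -/
theorem bi_index (hX : Fri X D om al φ q g) {b₀ n : ℕ}
    (hcnt : ∀ (k : ℕ) (S₁ S₂ : Finset ℕ), k * (X.p - 1) < X.e * X.p → (∀ i ∈ S₁, i < k ∧ ¬ X.p ∣ i + 1 ∧ G1 X D al (i + 1)) →
      (∀ i ∈ S₂, i < k ∧ ¬ X.p ∣ i + 1 ∧ G2 X D al (i + 1)) → S₁.card + S₂.card ≤ 2 * b₀)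
    (hn : 1 ≤ n) (hn2 : D ≤ X.C → X.p ^ 2 ≤ n) :
    (BI X D om al).relIndex (BW X D om al) ≠ 0 ∧ (BI X D om al).relIndex (BW X D om al) ≤ q ^ (2 * b₀) * n := by
  classical
  have h := hX.ok
  have hp2 := h.odd
  have he := h.e0
  have hep : 0 < X.e * X.p := Nat.mul_pos he (by omega)
  obtain ⟨k, hk⟩ : ∃ k : ℕ, k = (X.e * X.p - 1) / (X.p - 1) := ⟨_, rfl⟩
  have hk1 : k * (X.p - 1) < X.e * X.p := by
    have h1 := Nat.div_mul_le_self (X.e * X.p - 1) (X.p - 1)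
    rw [← hk] at h1
    omega
  have hk2 : X.e * X.p ≤ (k + 1) * (X.p - 1) := by
    have h1 := Nat.lt_mul_div_succ (X.e * X.p - 1) (show 0 < X.p - 1 by omega)
    rw [← hk, mul_comm (X.p - 1)] at h1
    omega
  have h1 := rel_chain (BF X hX.ok D om al) (bf_anti hX) (fun i => q ^ ((if ¬ X.p ∣ i + 1 ∧ G1 X D al (i + 1) then 1 else 0) +
    if ¬ X.p ∣ i + 1 ∧ G2 X D al (i + 1) then 1 else 0)) k (fun i hi =>
    bf_step hX i ((Nat.mul_le_mul_right _ (Nat.succ_le_of_lt hi)).trans_lt hk1))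
  have hc : ∏ i ∈ Finset.range k, q ^ ((if ¬ X.p ∣ i + 1 ∧ G1 X D al (i + 1) then 1 else 0) +
      if ¬ X.p ∣ i + 1 ∧ G2 X D al (i + 1) then 1 else 0) ≤ q ^ (2 * b₀) := by
    rw [Finset.prod_pow_eq_pow_sum, Finset.sum_add_distrib, ← Finset.card_filter, ← Finset.card_filter]
    refine Nat.pow_le_pow_right (lt_trans zero_lt_one hX.q0) (hcnt k _ _ hk1 (fun i hi => ?_) fun i hi => ?_)
    · rw [Finset.mem_filter, Finset.mem_range] at hi
      exact ⟨hi.1, hi.2.1, hi.2.2⟩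
    · rw [Finset.mem_filter, Finset.mem_range] at hi
      exact ⟨hi.1, hi.2.1, hi.2.2⟩
  have h2 : BF X hX.ok D om al k ≤ BI X D om al := by
    intro b hb
    refine ⟨hb.1, fun z t ht hi => ?_⟩
    obtain ⟨ta, β, hβ, hβ'⟩ := hb.2 z
    exact H19C.kg_inert X h hβ hk2 hβ' t ht hi
  obtain ⟨z1, z2, z3⟩ := bf_zero hX
  have hle0 : BF X hX.ok D om al k ≤ BF X hX.ok D om al 0 := bf_anti hX (Nat.zero_le k)
  have hle2 : BF X hX.ok D om al 0 ≤ BW X D om al := fun b hb => hb.1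
  have h3 := AddSubgroup.relIndex_mul_relIndex (BF X hX.ok D om al k) (BF X hX.ok D om al 0) (BW X D om al) hle0 hle2
  have h4 : (BI X D om al).relIndex (BW X D om al) ∣ (BF X hX.ok D om al k).relIndex (BW X D om al) :=
    AddSubgroup.relIndex_dvd_of_le_left _ h2
  have h5 : (BF X hX.ok D om al k).relIndex (BW X D om al) ≠ 0 := by
    rw [← h3]
    exact Nat.mul_ne_zero h1.1 z1
  have h6 : (BF X hX.ok D om al 0).relIndex (BW X D om al) ≤ n := by
    by_cases hD : D ≤ X.C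
    · exact z2.trans (hn2 hD)
    · have h7 : ∃ s ∈ D, s ∉ X.C := by
        by_contra hcon
        push Not at hcon
        exact hD fun s hs => hcon s hs
      rw [AddSubgroup.relIndex_eq_one.2 (z3 h7)]
      exact hn
  refine ⟨fun h0 => h5 (Nat.eq_zero_of_zero_dvd (h0 ▸ h4)), (Nat.le_of_dvd (Nat.pos_of_ne_zero h5) h4).trans ?_⟩
  rw [← h3]
  exact Nat.mul_le_mul (h1.2.trans hc) h6

end SSN
end
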