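import Mathlib
import Pool.Agent.Lib.H1M.PP2.M054
import Pool.Agent.Lib.H1M.PP2.M057
import Pool.Agent.Lib.H1M.PP2.M059
import Pool.Agent.Lib.H1M.PP2.M063
import Pool.Agent.Lib.H1M.PP2.M067
import Pool.Agent.Lib.H1M.PP2.M082
import Pool.Agent.Lib.H1M.PP2.M083
import Pool.Agent.Lib.H1M.PP2.M093
import Pool.Agent.Lib.H1M.PP2.M099
import Pool.Agent.Lib.H1M.PP2.M101
import Pool.Agent.Lib.H1M.PP2.M105
import Pool.Agent.Lib.H1M.PP2.M112
import Pool.Agent.Lib.H1M.PP2.M115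

/-! Merged copies (to shorten the build) of Lib.H19C.D2, Lib.H19C.LV, Lib.H19C.GS, Lib.H19C.GC, Lib.H35M.SN1B, Lib.SSU.A7. -/

-- from Lib.H19C.D2
section

/-! # H19C: definitions for the elliptic curves -/

open NumberField IsDedekindDomain WeierstrassCurve

namespace H19C

open H55P (IQ Pt ac Dec Inert decS)
open H35P (WAB Ker tt)
open H55K (Tor CMA Dta GV ak cj)
open H19B (DN Cc CS mem_CS)

variable {F : Type} [Field F] [NumberField F] [IQ F] {A B : F} {Ω : Type} [Field Ω] [DecidableEq Ω]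
  [Algebra F Ω] {act : 𝓞 F →+* AddMonoid.End (Pt (WAB A B) Ω)}

/-- The frame X belongs to the curve, the prime element π and the field N: E and C are the subgroups of D which fix the points
killed by the conjugate of π and by p, and D acts on the points killed by the conjugate of π through et, and on the points killed by π
through om / et. -/
structure Of (X : Frm F Ω) (act : 𝓞 F →+* AddMonoid.End (Pt (WAB A B) Ω)) (π : 𝓞 F) (N : IntermediateField F Ω) : Prop where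
  ok : X.Ok
  D : X.D = DN N X.V
  E : ∀ s : Ω ≃ₐ[F] Ω, s ∈ X.E ↔ s ∈ X.D ∧ ∀ T : Pt (WAB A B) Ω, act (cj π) T = 0 → ac (WAB A B) s T = T
  C : ∀ s : Ω ≃ₐ[F] Ω, s ∈ X.C ↔ s ∈ X.D ∧ ∀ T : Pt (WAB A B) Ω, X.p • T = 0 → ac (WAB A B) s T = T
  ch : ∀ s ∈ X.D, ∀ T : Pt (WAB A B) Ω, act π T = 0 → (X.et s).val • ac (WAB A B) s T = (X.om s).val • T
  ch' : ∀ s ∈ X.D, ∀ T : Pt (WAB A B) Ω, act (cj π) T = 0 → ac (WAB A B) s T = (X.et s).val • T

/-- The coboundaries of the points killed by π. -/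
def CB (D : Subgroup (Ω ≃ₐ[F] Ω)) (act : 𝓞 F →+* AddMonoid.End (Pt (WAB A B) Ω)) (π : 𝓞 F) :
    AddSubgroup ((Ω ≃ₐ[F] Ω) → Pt (WAB A B) Ω) where
  carrier := {c | Cc D act π c ∧ ∃ T : Pt (WAB A B) Ω, act π T = 0 ∧ ∀ s ∈ D, c s = ac (WAB A B) s T - T}
  zero_mem' := ⟨(CS D act π).zero_mem, 0, map_zero _, fun s _ => by rw [Pi.zero_apply, map_zero, sub_zero]⟩
  add_mem' := by
    rintro a b ⟨a1, T, a2, a3⟩ ⟨b1, T', b2, b3⟩
    refine ⟨(CS D act π).add_mem a1 b1, T + T', by rw [map_add, a2, b2, add_zero], fun s hs => ?_⟩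
    rw [Pi.add_apply, a3 s hs, b3 s hs, map_add]
    abel
  neg_mem' := by
    rintro a ⟨a1, T, a2, a3⟩
    refine ⟨(CS D act π).neg_mem a1, -T, by rw [map_neg, a2, neg_zero], fun s hs => ?_⟩
    rw [Pi.neg_apply, a3 s hs, map_neg]
    abel

theorem mem_CB (D : Subgroup (Ω ≃ₐ[F] Ω)) (π : 𝓞 F) (c : (Ω ≃ₐ[F] Ω) → Pt (WAB A B) Ω) :
    c ∈ CB D act π ↔ Cc D act π c ∧ ∃ T : Pt (WAB A B) Ω, act π T = 0 ∧ ∀ s ∈ D, c s = ac (WAB A B) s T - T :=
  Iff.rfl

/-- The cocycles on D which are zero on the inertia elements of D'. -/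
def CU (D D' : Subgroup (Ω ≃ₐ[F] Ω)) (V : ValuationSubring Ω) (act : 𝓞 F →+* AddMonoid.End (Pt (WAB A B) Ω)) (π : 𝓞 F) :
    AddSubgroup ((Ω ≃ₐ[F] Ω) → Pt (WAB A B) Ω) where
  carrier := {c | Cc D act π c ∧ ∀ s ∈ D', Inert V s → c s = 0}
  zero_mem' := ⟨(CS D act π).zero_mem, fun s _ _ => rfl⟩
  add_mem' := by
    rintro a b ⟨a1, a2⟩ ⟨b1, b2⟩
    exact ⟨(CS D act π).add_mem a1 b1, fun s hs hi => by rw [Pi.add_apply, a2 s hs hi, b2 s hs hi, add_zero]⟩
  neg_mem' := by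
    rintro a ⟨a1, a2⟩
    exact ⟨(CS D act π).neg_mem a1, fun s hs hi => by rw [Pi.neg_apply, a2 s hs hi, neg_zero]⟩

theorem mem_CU (D D' : Subgroup (Ω ≃ₐ[F] Ω)) (V : ValuationSubring Ω) (π : 𝓞 F) (c : (Ω ≃ₐ[F] Ω) → Pt (WAB A B) Ω) :
    c ∈ CU D D' V act π ↔ Cc D act π c ∧ ∀ s ∈ D', Inert V s → c s = 0 := Iff.rfl

/-- The cocycles on D with values in the points killed by π which are, on D', the coboundary of a point. -/
def CL (D D' : Subgroup (Ω ≃ₐ[F] Ω)) (act : 𝓞 F →+* AddMonoid.End (Pt (WAB A B) Ω)) (π : 𝓞 F) :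
    AddSubgroup ((Ω ≃ₐ[F] Ω) → Pt (WAB A B) Ω) where
  carrier := {c | Cc D act π c ∧ ∃ P : Pt (WAB A B) Ω, ∀ s ∈ D', c s = ac (WAB A B) s P - P}
  zero_mem' := ⟨(CS D act π).zero_mem, 0, fun s _ => by rw [Pi.zero_apply, map_zero, sub_zero]⟩
  add_mem' := by
    rintro a b ⟨a1, T, a3⟩ ⟨b1, T', b3⟩
    refine ⟨(CS D act π).add_mem a1 b1, T + T', fun s hs => ?_⟩
    rw [Pi.add_apply, a3 s hs, b3 s hs, map_add]
    abel
  neg_mem' := by
    rintro a ⟨a1, T, a3⟩
    refine ⟨(CS D act π).neg_mem a1, -T, fun s hs => ?_⟩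
    rw [Pi.neg_apply, a3 s hs, map_neg]
    abel

theorem mem_CL (D D' : Subgroup (Ω ≃ₐ[F] Ω)) (π : 𝓞 F) (c : (Ω ≃ₐ[F] Ω) → Pt (WAB A B) Ω) :
    c ∈ CL D D' act π ↔ Cc D act π c ∧ ∃ P : Pt (WAB A B) Ω, ∀ s ∈ D', c s = ac (WAB A B) s P - P := Iff.rfl

end H19C
end

-- from Lib.H19C.LV
section

/-! # H19C, chunk LV: the levels of a tamely ramified eigenspace -/

open NumberField IsDedekindDomain WeierstrassCurve

namespace H19C

open H55P (Dec Inert)
open H19B (Rep rep_sum)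

/-- The number of exponents in a residue class. -/
theorem cnt_ram {p d b r e k : ℕ} (hp : 2 < p) (hd0 : 0 < d) (hd : d ∣ p - 1) (he : e = d * b) (hr : r * (p - 1) = e) (S : Finset ℕ)
    (hk : k * (p - 1) < e * p) (hS : ∀ i ∈ S, i < k ∧ ¬ p ∣ i + 1 ∧ (i + 1) % d = r % d) : S.card ≤ b := by
  classical
  obtain ⟨m, hm⟩ := hd
  have hp1 : 0 < p - 1 := by omega
  have hp0 : 0 < p := by omega
  have hb : b = r * m := by
    have h1 : d * b = d * (r * m) := by
      rw [← he, ← hr, hm]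
      ring
    exact Nat.eq_of_mul_eq_mul_left hd0 h1
  have hlt : ∀ i ∈ S, i + 1 < r * p := by
    intro i hi
    have h1 := (hS i hi).1
    have h2 : (i + 1) * (p - 1) ≤ k * (p - 1) := Nat.mul_le_mul_right _ h1
    have h3 : (i + 1) * (p - 1) < r * p * (p - 1) := by
      refine lt_of_le_of_lt h2 (lt_of_lt_of_eq hk ?_)
      rw [← hr]
      ring
    exact Nat.lt_of_mul_lt_mul_right h3
  have hcard : (Finset.range r ×ˢ Finset.range m).card = b := by
    rw [Finset.card_product, Finset.card_range, Finset.card_range, hb]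
  rw [← hcard]
  refine Finset.card_le_card_of_injOn (fun i => ((i + 1) / p, ((i + 1) % p - 1) / d)) ?_ ?_
  · intro i hi
    have hi' := Finset.mem_coe.1 hi
    rw [Finset.mem_coe, Finset.mem_product, Finset.mem_range, Finset.mem_range]
    have h1 := hlt i hi'
    have h2 := (hS i hi').2.1
    have h3 : 0 < (i + 1) % p := Nat.pos_of_ne_zero fun h => h2 (Nat.dvd_of_mod_eq_zero h)
    have h4 : (i + 1) % p < p := Nat.mod_lt _ hp0
    refine ⟨(Nat.div_lt_iff_lt_mul hp0).2 h1, ?_⟩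
    show ((i + 1) % p - 1) / d < m
    rw [Nat.div_lt_iff_lt_mul hd0, mul_comm, ← hm]
    omega
  · intro i hi i' hi' h
    have hi1 := Finset.mem_coe.1 hi
    have hi2 := Finset.mem_coe.1 hi'
    obtain ⟨h1, h2⟩ := Prod.mk.inj h
    have a1 := (hS i hi1).2
    have a2 := (hS i' hi2).2
    have b1 : 0 < (i + 1) % p := Nat.pos_of_ne_zero fun h => a1.1 (Nat.dvd_of_mod_eq_zero h)
    have b2 : 0 < (i' + 1) % p := Nat.pos_of_ne_zero fun h => a2.1 (Nat.dvd_of_mod_eq_zero h)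
    have hpd : p % d = 1 % d := by
      have h5 : p = 1 + d * m := by omega
      rw [h5, Nat.add_mul_mod_self_left]
    -- the residues modulo p agree modulo d
    have c1 : ∀ n : ℕ, n % d = (n / p + n % p) % d := by
      intro n
      conv_lhs => rw [← Nat.div_add_mod n p]
      rw [Nat.add_mod, Nat.mul_mod, hpd, ← Nat.mul_mod, one_mul, ← Nat.add_mod]
    have c2 : ((i + 1) / p + (i + 1) % p) % d = ((i' + 1) / p + (i' + 1) % p) % d := by
      rw [← c1, ← c1, a1.2, a2.2]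
    rw [h1] at c2
    have c3 : (i + 1) % p % d = (i' + 1) % p % d := Nat.ModEq.add_left_cancel' _ c2
    have c4 : ((i + 1) % p - 1) % d = ((i' + 1) % p - 1) % d := by
      have e1 : (i + 1) % p = 1 + ((i + 1) % p - 1) := by omega
      have e2 : (i' + 1) % p = 1 + ((i' + 1) % p - 1) := by omega
      rw [e1, e2] at c3
      exact Nat.ModEq.add_left_cancel' _ c3
    have c5 : (i + 1) % p - 1 = (i' + 1) % p - 1 := by
      rw [← Nat.div_add_mod ((i + 1) % p - 1) d, ← Nat.div_add_mod ((i' + 1) % p - 1) d, h2, c4]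
    have c6 : (i + 1) % p = (i' + 1) % p := by omega
    have c7 : i + 1 = i' + 1 := by
      rw [← Nat.div_add_mod (i + 1) p, ← Nat.div_add_mod (i' + 1) p, h1, c6]
    omega

variable {F : Type} [Field F] {Ω : Type} [Field Ω] [Algebra F Ω] {V : ValuationSubring Ω}

theorem lv_one {θ : Ω} {V : ValuationSubring Ω} (h : V.valuation θ = 1) (j : ℕ) : V.valuation (θ ^ j) = 1 := by
  rw [map_pow, h, one_pow]

/-- If the inertia group acts trivially on the j-th power of the uniformizer, modulo the maximal ideal, then j is divisible by the ramification index. -/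
theorem lev_dvd {p : ℕ} (hp : p.Prime) (hV : V.valuation (p : Ω) < 1) {I J : Subgroup (Ω ≃ₐ[F] Ω)} {S : Finset (Ω ≃ₐ[F] Ω)}
    (hS : Rep J I S) (hSp : ¬ p ∣ S.card) {w w₁ : Ω} (w0 : w ≠ 0) (w1 : V.valuation w < 1)
    (hJ : ∀ s ∈ J, s w = w) {d : ℕ} (hd : V.valuation w₁ = V.valuation w ^ d)
    (hval : ∀ y : Ω, y ≠ 0 → (∀ s ∈ I, s y = y) → ∃ i : ℤ, V.valuation y = V.valuation w₁ ^ i) {j : ℕ}
    (hj : ∀ s ∈ I, V.valuation ((s w / w) ^ j - 1) < 1) : d ∣ j := by
  classical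
  -- the sum
  obtain ⟨y, hy⟩ : ∃ y : Ω, y = ∑ s ∈ S, s (w ^ j) := ⟨_, rfl⟩
  have hfix : ∀ g ∈ I, g y = y := by
    intro g hg
    have h1 := rep_sum hS (fun s : Ω ≃ₐ[F] Ω => s (w ^ j)) (fun s _ t ht => by
      show (s * t) (w ^ j) = s (w ^ j)
      rw [AlgEquiv.mul_apply, map_pow t, hJ t ht]) g hg
    rw [hy, map_sum]
    exact h1
  have hwj : w ^ j ≠ 0 := pow_ne_zero _ w0
  have hye : y = w ^ j * ∑ s ∈ S, (s w / w) ^ j := by
    rw [hy, Finset.mul_sum]
    refine Finset.sum_congr rfl fun s _ => ?_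
    rw [map_pow, div_pow, mul_div_cancel₀ _ hwj]
  -- the sum is congruent to card S
  have hsum : V.valuation (∑ s ∈ S, (s w / w) ^ j - (S.card : Ω)) < 1 := by
    have h1 : ∑ s ∈ S, (s w / w) ^ j - (S.card : Ω) = ∑ s ∈ S, ((s w / w) ^ j - 1) := by
      rw [Finset.sum_sub_distrib, Finset.sum_const, nsmul_eq_mul, mul_one]
    rw [h1]
    exact Valuation.map_sum_lt _ one_ne_zero fun s hs => hj s (hS.mem s hs)
  have hcard : V.valuation (S.card : Ω) = 1 := by
    have hle : V.valuation (S.card : Ω) ≤ 1 := (V.valuation_le_one_iff _).2 (natCast_mem V _)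
    refine le_antisymm hle (not_lt.1 fun hlt => ?_)
    have hcop : Nat.Coprime S.card p := ((Nat.Prime.coprime_iff_not_dvd hp).2 hSp).symm
    obtain ⟨x, z, hxz⟩ := (Int.isCoprime_iff_gcd_eq_one.2 (show Int.gcd (S.card : ℤ) (p : ℤ) = 1 by
      rw [Int.gcd_natCast_natCast]; exact hcop))
    have h1 : (1 : Ω) = (x : Ω) * (S.card : Ω) + (z : Ω) * (p : Ω) := by
      have := congrArg (fun t : ℤ => (t : Ω)) hxz
      push_cast at this
      exact this.symm
    have h2 : V.valuation (1 : Ω) < 1 := by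
      rw [h1]
      refine V.valuation.map_add_lt ?_ ?_
      · rw [map_mul, mul_comm]
        exact mul_lt_one_of_lt_of_le hlt ((V.valuation_le_one_iff _).2 (intCast_mem V x))
      · rw [map_mul, mul_comm]
        exact mul_lt_one_of_lt_of_le hV ((V.valuation_le_one_iff _).2 (intCast_mem V z))
    rw [map_one] at h2
    exact lt_irrefl _ h2
  have hsum1 : V.valuation (∑ s ∈ S, (s w / w) ^ j) = 1 := by
    have h1 : ∑ s ∈ S, (s w / w) ^ j = (∑ s ∈ S, (s w / w) ^ j - (S.card : Ω)) + (S.card : Ω) := by ring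
    rw [h1, Valuation.map_add_eq_of_lt_right _ (lt_of_lt_of_eq hsum hcard.symm), hcard]
  have hyv : V.valuation y = V.valuation w ^ j := by
    rw [hye, map_mul, hsum1, mul_one, map_pow]
  have hw0 : V.valuation w ≠ 0 := (map_ne_zero _).2 w0
  have hy0 : y ≠ 0 := by
    intro h
    rw [h, map_zero] at hyv
    exact pow_ne_zero _ hw0 hyv.symm
  obtain ⟨i, hi⟩ := hval y hy0 hfix
  rw [hyv, hd, ← zpow_natCast, ← zpow_natCast, ← zpow_mul] at hi
  have hinj : (j : ℤ) = (d : ℤ) * i := (zpow_right_strictAnti₀ (zero_lt_iff.2 hw0) w1).injective hi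
  exact Int.natCast_dvd_natCast.1 ⟨i, hinj⟩

end H19C
end

-- from Lib.H19C.GS
section

/-! # H19C: units outside a finite set of primes; functionals (port of H13Y/GN7c, GN6b) -/

open NumberField IsDedekindDomain

namespace H19C

open H55B H55R H28G H99B
open H13Y (guN guN_apply ord_guN gn7c_above gn7c_ord exists_zQ dir_rel places_bij gn6b_F gn6b_add gn6b_equiv gn6b_cpx)

section

variable {N : Type} [Field N] [NumberField N]

/-- The units of L outside the primes above S. -/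
def SUs (L : Type) [Field L] [NumberField L] [Algebra N L] (S : Finset (Pl N)) : Subgroup Lˣ where
  carrier := {x | ∀ v : Pl L, v.under (𝓞 N) ∉ S → ord v x = 0}
  mul_mem' := fun {x y} hx hy v hv => by
    rw [ord_mul, hx v hv, hy v hv, add_zero]
  one_mem' := fun v _ => ord_one v
  inv_mem' := fun {x} hx v hv => by
    rw [ord_inv, hx v hv, neg_zero]

variable {L : Type} [Field L] [NumberField L] [Algebra N L]

theorem mem_SUs {S : Finset (Pl N)} {x : Lˣ} : x ∈ SUs L S ↔ ∀ v : Pl L, v.under (𝓞 N) ∉ S → ord v x = 0 := Iff.rfl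

theorem SUs_act {S : Finset (Pl N)} (σ : Gal(L/N)) {x : Lˣ} (hx : x ∈ SUs L S) : guN σ x ∈ SUs L S := by
  intro v hv
  rw [ord_guN]
  exact hx _ (by rwa [under_smulP])

/-- An l-th power in Lˣ of an element of SUs is the l-th power of an element of SUs. -/
theorem SUs_pow {S : Finset (Pl N)} {l : ℕ} (hl : l ≠ 0) {x z : Lˣ} (hx : x ∈ SUs L S) (h : x = z ^ l) : z ∈ SUs L S := by
  intro v hv
  have h1 := hx v hv
  rw [h, ← zpow_natCast, ord_zpow, mul_eq_zero] at h1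
  rcases h1 with h1 | h1
  · exact absurd (by exact_mod_cast h1) hl
  · exact h1

theorem SUs_fg (S : Finset (Pl N)) :
    ∃ (h : ℕ) (B : Subgroup Lˣ), h ≠ 0 ∧ B.FG ∧ B ≤ SUs L S ∧ ∀ x ∈ SUs L S, x ^ h ∈ B := by
  classical
  have hfin : {W : Pl L | W.under (𝓞 N) ∈ S}.Finite := by
    have h1 : {W : Pl L | W.under (𝓞 N) ∈ S} = ⋃ w ∈ S, {W : Pl L | W.under (𝓞 N) = w} := by
      ext W
      simp
    rw [h1]
    exact Set.Finite.biUnion S.finite_toSet fun w _ => gn7c_above w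
  set T : Finset (Pl L) := hfin.toFinset with hT
  have hmT : ∀ W : Pl L, W ∈ T ↔ W.under (𝓞 N) ∈ S := fun W => by simp [hT]
  choose hh z hz0 hz1 hz2 using fun Q : Pl L => exists_zQ Q
  let U : Subgroup Lˣ := (Units.map (algebraMap (𝓞 L) L : 𝓞 L →* L)).range
  have hUfg : U.FG := by
    rw [← Group.fg_iff_subgroup_fg]
    have h1 : Group.FG (𝓞 L)ˣ := Group.fg_iff_monoid_fg.2 inferInstance
    exact Group.fg_of_surjective (f := (Units.map (algebraMap (𝓞 L) L : 𝓞 L →* L)).rangeRestrict)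
      (MonoidHom.rangeRestrict_surjective _)
  let C : Subgroup Lˣ := Subgroup.closure (T.image z : Set Lˣ)
  have hCfg : C.FG := ⟨T.image z, rfl⟩
  refine ⟨∏ Q ∈ T, hh Q, U ⊔ C, Finset.prod_ne_zero_iff.2 fun Q _ => hz0 Q, hUfg.sup hCfg, ?_, ?_⟩
  · apply sup_le
    · rintro _ ⟨u, rfl⟩ v _
      exact HA7_ord_unit u v
    · rw [Subgroup.closure_le]
      intro y hy
      rw [Finset.mem_coe, Finset.mem_image] at hy
      obtain ⟨Q, hQ, rfl⟩ := hy
      intro v hv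
      apply hz2 Q v
      rintro rfl
      exact hv ((hmT v).1 hQ)
  · intro x hx
    let k : Pl L → ℤ := fun Q => ord Q x * ∏ P ∈ T.erase Q, (hh P : ℤ)
    have hu : ∀ v : Pl L, ord v (x ^ (∏ Q ∈ T, hh Q) * (∏ Q ∈ T, z Q ^ (k Q))⁻¹) = 0 := by
      intro v
      have e1 := gn7c_ord T z k v
      have e2 : ord v (x ^ (∏ Q ∈ T, hh Q)) = ((∏ Q ∈ T, hh Q : ℕ) : ℤ) * ord v x := by
        rw [← zpow_natCast, ord_zpow]
      rw [ord_mul, ord_inv, e1, e2]
      by_cases hv : v ∈ T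
      · rw [Finset.sum_eq_single_of_mem v hv]
        · rw [hz1 v, ← Finset.mul_prod_erase T hh hv]
          simp only [k]
          push_cast
          ring
        · intro Q _ hQv
          rw [hz2 Q v (Ne.symm hQv), mul_zero]
      · have h1 : ord v x = 0 := hx v (fun h => hv ((hmT v).2 h))
        rw [h1, mul_zero, zero_add, neg_eq_zero]
        apply Finset.sum_eq_zero
        intro Q hQ
        rw [hz2 Q v (fun h => hv (h ▸ hQ)), mul_zero]
    obtain ⟨u, hu'⟩ := HA7_unit _ hu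
    have hx2 : x ^ (∏ Q ∈ T, hh Q) = Units.map (algebraMap (𝓞 L) L : 𝓞 L →* L) u * ∏ Q ∈ T, z Q ^ (k Q) := by
      rw [hu', inv_mul_cancel_right]
    rw [hx2]
    apply Subgroup.mul_mem
    · exact Subgroup.mem_sup_left ⟨u, rfl⟩
    · apply Subgroup.mem_sup_right
      apply Subgroup.prod_mem
      intro Q hQ
      apply Subgroup.zpow_mem
      apply Subgroup.subset_closure
      rw [Finset.mem_coe]
      exact Finset.mem_image_of_mem z hQ

/-- The functionals. -/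
noncomputable def gsPsi (ω : Gal(L/N) →* ℂˣ) (u : InfinitePlace N → InfinitePlace L) (S : Finset (Pl N)) (Q : Pl N → Pl L) :
    InfinitePlace N ⊕ S → Lˣ → ℂ
  | Sum.inr w => gn6b_F ω (fun x => ((ord (Q w.1) x : ℤ) : ℂ))
  | Sum.inl v => gn6b_F ω (fun x => ((Real.log (u v (x : L)) : ℝ) : ℂ))

theorem gsPsi_add (ω : Gal(L/N) →* ℂˣ) (u : InfinitePlace N → InfinitePlace L) (S : Finset (Pl N)) (Q : Pl N → Pl L)
    (i : InfinitePlace N ⊕ S) (x y : Lˣ) :
    gsPsi ω u S Q i (x * y) = gsPsi ω u S Q i x + gsPsi ω u S Q i y := by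
  rcases i with v | w
  · refine gn6b_add ω (fun x => ((Real.log (u v (x : L)) : ℝ) : ℂ)) (fun x y => ?_) x y
    show ((Real.log (u v ((x * y : Lˣ) : L)) : ℝ) : ℂ) =
      ((Real.log (u v (x : L)) : ℝ) : ℂ) + ((Real.log (u v (y : L)) : ℝ) : ℂ)
    rw [Units.val_mul, map_mul, Real.log_mul (by simp) (by simp)]
    push_cast
    rfl
  · refine gn6b_add ω (fun x => ((ord (Q w.1) x : ℤ) : ℂ)) (fun x y => ?_) x y
    show ((ord (Q w.1) (x * y) : ℤ) : ℂ) = ((ord (Q w.1) x : ℤ) : ℂ) + ((ord (Q w.1) y : ℤ) : ℂ)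
    rw [ord_mul]
    push_cast
    rfl

theorem gsPsi_equiv (ω : Gal(L/N) →* ℂˣ) (u : InfinitePlace N → InfinitePlace L) (S : Finset (Pl N)) (Q : Pl N → Pl L)
    (i : InfinitePlace N ⊕ S) (g : Gal(L/N)) (x : Lˣ) :
    gsPsi ω u S Q i (guN g x) = (ω g : ℂ) * gsPsi ω u S Q i x := by
  rcases i with v | w
  · exact gn6b_equiv ω (fun x => ((Real.log (u v (x : L)) : ℝ) : ℂ)) g x
  · exact gn6b_equiv ω (fun x => ((ord (Q w.1) x : ℤ) : ℂ)) g x

theorem gs_inl [IsGalois N L] (hc : ∀ v : InfinitePlace N, v.IsComplex) (ω : Gal(L/N) →* ℂˣ)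
    (hω : ω ≠ 1) (u : InfinitePlace N → InfinitePlace L)
    (hu : Function.Bijective fun p : Gal(L/N) × InfinitePlace N =>
      (u p.2).comap ((p.1 : L ≃ₐ[N] L) : L →+* L))
    (S : Finset (Pl N)) (Q : Pl N → Pl L) (c : InfinitePlace N ⊕ S → ℂ)
    (h : ∀ x ∈ SUs L S, ∑ i, c i * gsPsi ω u S Q i x = 0) (v : InfinitePlace N) : c (Sum.inl v) = 0 := by
  let e : Gal(L/N) × InfinitePlace N ≃ InfinitePlace L := Equiv.ofBijective _ hu
  have he : ∀ p, e p = (u p.2).comap ((p.1 : L ≃ₐ[N] L) : L →+* L) := fun p => rfl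
  let b : InfinitePlace L → ℂ := fun w' => c (Sum.inl (e.symm w').2) * ((ω (e.symm w').1 : ℂ))⁻¹
  have hb : ∀ p, b (e p) = c (Sum.inl p.2) * ((ω p.1 : ℂ))⁻¹ := by
    intro p
    show c (Sum.inl (e.symm (e p)).2) * ((ω (e.symm (e p)).1 : ℂ))⁻¹ = _
    rw [Equiv.symm_apply_apply]
  have hrel : ∀ y : (𝓞 L)ˣ, ∑ w' : InfinitePlace L, b w' * (Real.log (w' ((y : 𝓞 L) : L)) : ℂ) = 0 := by
    intro y
    set x : Lˣ := Units.map (algebraMap (𝓞 L) L : 𝓞 L →* L) y with hx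
    have hxv : (x : L) = ((y : 𝓞 L) : L) := rfl
    have hord : ∀ v : Pl L, ord v x = 0 := HA7_ord_unit y
    have h1 := h x (fun v _ => hord v)
    rw [Fintype.sum_sum_type] at h1
    have h2 : ∑ w : S, c (Sum.inr w) * gsPsi ω u S Q (Sum.inr w) x = 0 := by
      refine Finset.sum_eq_zero fun w _ => ?_
      have h3 : gsPsi ω u S Q (Sum.inr w) x = 0 := by
        show ∑ σ : Gal(L/N), ((ω σ : ℂ))⁻¹ * ((ord (Q w.1) (guN σ x) : ℤ) : ℂ) = 0
        refine Finset.sum_eq_zero fun σ _ => ?_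
        rw [ord_guN, hord]
        simp
      rw [h3, mul_zero]
    rw [h2, add_zero] at h1
    rw [← h1, ← Equiv.sum_comp e, Fintype.sum_prod_type_right]
    refine Finset.sum_congr rfl fun v' _ => ?_
    show _ = c (Sum.inl v') * ∑ σ : Gal(L/N), ((ω σ : ℂ))⁻¹ * ((Real.log (u v' (guN σ x : Lˣ)) : ℝ) : ℂ)
    rw [Finset.mul_sum]
    refine Finset.sum_congr rfl fun σ _ => ?_
    rw [hb (σ, v'), mul_assoc]
    rfl
  have hconst := dir_rel (gn6b_cpx hc) b hrel
  obtain ⟨g, hg⟩ : ∃ g, ω g ≠ 1 := by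
    by_contra hh
    push Not at hh
    exact hω (MonoidHom.ext hh)
  have h3 := hconst (e (1, v)) (e (g, v))
  rw [hb, hb] at h3
  by_contra hcv
  have h4 := mul_left_cancel₀ hcv h3
  apply hg
  rw [map_one, Units.val_one, inv_one] at h4
  have h5 : (ω g : ℂ) = 1 := by
    rw [eq_comm, inv_eq_one] at h4
    exact h4
  exact Units.ext h5

theorem gs_inr (ω : Gal(L/N) →* ℂˣ) (u : InfinitePlace N → InfinitePlace L)
    (S : Finset (Pl N)) (Q : Pl N → Pl L) (hQ : ∀ w ∈ S, (Q w).under (𝓞 N) = w)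
    (hst : ∀ w ∈ S, ∀ σ : Gal(L/N), smulP σ (Q w) = Q w → σ = 1)
    (c : InfinitePlace N ⊕ S → ℂ)
    (h : ∀ x ∈ SUs L S, ∑ i, c i * gsPsi ω u S Q i x = 0) (hv : ∀ v, c (Sum.inl v) = 0) (w : S) : c (Sum.inr w) = 0 := by
  obtain ⟨m, z, hm, hz, hz2⟩ := exists_zQ (Q w.1)
  have h1 := h z (fun v hv' => hz2 v (by rintro rfl; exact hv' (by rw [hQ w.1 w.2]; exact w.2)))
  rw [Fintype.sum_sum_type] at h1
  have h2 : ∑ v : InfinitePlace N, c (Sum.inl v) * gsPsi ω u S Q (Sum.inl v) z = 0 :=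
    Finset.sum_eq_zero fun v _ => by rw [hv, zero_mul]
  rw [h2, zero_add] at h1
  have h0 : ∀ w' : S, w' ≠ w → gsPsi ω u S Q (Sum.inr w') z = 0 := by
    intro w' hw'
    show ∑ σ : Gal(L/N), ((ω σ : ℂ))⁻¹ * ((ord (Q w'.1) (guN σ z) : ℤ) : ℂ) = 0
    refine Finset.sum_eq_zero fun σ _ => ?_
    rw [ord_guN, hz2 _ (fun h4 => hw' (Subtype.ext ?_))]
    · simp
    · rw [← hQ w'.1 w'.2, ← hQ w.1 w.2, ← h4, under_smulP]
  rw [Finset.sum_eq_single w (fun w' _ hw' => by rw [h0 w' hw', mul_zero]) (fun h => absurd (Finset.mem_univ _) h)] at h1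
  have h3 : gsPsi ω u S Q (Sum.inr w) z = (m : ℂ) := by
    show ∑ σ : Gal(L/N), ((ω σ : ℂ))⁻¹ * ((ord (Q w.1) (guN σ z) : ℤ) : ℂ) = _
    rw [Finset.sum_eq_single 1]
    · rw [ord_guN, inv_one, smulP_one, hz, map_one, Units.val_one, inv_one, one_mul]
      push_cast
      rfl
    · intro σ _ hσ
      rw [ord_guN, hz2 _ (fun h4 => hσ (inv_eq_one.1 (hst w.1 w.2 _ h4)))]
      simp
    · intro h4
      exact absurd (Finset.mem_univ _) h4
  rw [h3] at h1
  rcases mul_eq_zero.1 h1 with h4 | h4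
  · exact h4
  · exact absurd (Nat.cast_eq_zero.1 h4) hm

/-- The functionals on the units outside S: one for each infinite place and one for each prime of S whose decomposition group in L/N is
trivial; they are independent. -/
theorem exists_psiS [IsGalois N L] (hc : ∀ v : InfinitePlace N, v.IsComplex) (ω : Gal(L/N) →* ℂˣ) (hω : ω ≠ 1)
    (S : Finset (Pl N)) (hst : ∀ w ∈ S, ∀ Q : Pl L, Q.under (𝓞 N) = w → ∀ σ : Gal(L/N), smulP σ Q = Q → σ = 1) :
    ∃ ψ : InfinitePlace N ⊕ S → Lˣ → ℂ,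
      (∀ i x y, ψ i (x * y) = ψ i x + ψ i y) ∧
      (∀ i (g : Gal(L/N)) x, ψ i (guN g x) = (ω g : ℂ) * ψ i x) ∧
      ∀ c : InfinitePlace N ⊕ S → ℂ, (∀ x ∈ SUs L S, ∑ i, c i * ψ i x = 0) → c = 0 := by
  obtain ⟨u, hu⟩ := places_bij (L := L) hc
  choose Q hQ using fun w : Pl N => under_exists (L := L) w
  refine ⟨gsPsi ω u S Q, gsPsi_add ω u S Q, gsPsi_equiv ω u S Q, fun c h => ?_⟩
  have hv := gs_inl hc ω hω u hu S Q c h
  funext i
  rcases i with v | w
  · exact hv v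
  · exact gs_inr ω u S Q (fun w _ => hQ w) (fun w hw => hst w hw (Q w) (hQ w)) c h hv w

end

end H19C
end

-- from Lib.H19C.GC
section

/-! # H19C: the counting argument for units (port of H13Y/GN3) -/

open NumberField IsDedekindDomain

namespace H19C

open H99B
open H13Y (val_le_one_of_stable)

/-- The counting argument (port of H13Y.gn_alg: a field with p elements, χ not necessarily surjective, f additive only). -/
theorem gn_alg2 {l : ℕ} [Fact l.Prime] {G : Type} [Group G] [Fintype G] (χ : G →* (ZMod l)ˣ)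
    (hG : ((Fintype.card G : ℕ) : ZMod l) ≠ 0) {M : Type} [CommGroup M] (ac : G →* Monoid.End M) (A : Subgroup M)
    (hA : ∀ g, ∀ x ∈ A, ac g x ∈ A) {Λ : Type} [AddCommGroup Λ] [Module (ZMod l) Λ] [Module.Finite (ZMod l) Λ]
    (f : M → Λ) (f1 : ∀ x ∈ A, ∀ y ∈ A, f (x * y) = f x + f y) {ι : Type} [Fintype ι]
    (hΛ : Module.finrank (ZMod l) Λ < Fintype.card ι) (V : ValuationSubring ℂ) (hV : V.valuation (l : ℂ) < 1)
    (ω : G →* ℂˣ)
    (hω : ∀ α : G → ℤ, chs χ α ≠ 0 → V.valuation (∑ g, (α g : ℂ) * (ω g : ℂ)) = 1)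
    (ψ : ι → M → ℂ) (p1 : ∀ i, ∀ x ∈ A, ∀ y ∈ A, ψ i (x * y) = ψ i x + ψ i y)
    (p2 : ∀ i g, ∀ x ∈ A, ψ i (ac g x) = (ω g : ℂ) * ψ i x)
    (p3 : ∀ c : ι → ℂ, (∀ x ∈ A, ∑ i, c i * ψ i x = 0) → c = 0)
    (hfg : ∃ (h : ℕ) (B : Subgroup M), h ≠ 0 ∧ B.FG ∧ B ≤ A ∧ ∀ x ∈ A, x ^ h ∈ B) :
    ∃ x ∈ A, f x = 0 ∧ ∀ y ∈ A, pw ac (cf χ (AddMonoidHom.id (ZMod l)) 1) x ≠ y ^ l := by
  classical
  by_contra hcon
  push Not at hcon
  -- the unit ω(M)
  have hch : chs χ (cf χ (AddMonoidHom.id (ZMod l)) 1) = ((Fintype.card G : ℕ) : ZMod l) := by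
    have hne : NeZero l := ⟨(Fact.out : l.Prime).ne_zero⟩
    unfold chs cf
    have h1 : ∀ g : G, ((((AddMonoidHom.id (ZMod l)) (1 * (((χ g)⁻¹ : (ZMod l)ˣ) : ZMod l))).val : ℤ) : ZMod l) *
        ((χ g : (ZMod l)ˣ) : ZMod l) = 1 := by
      intro g
      rw [AddMonoidHom.id_apply, one_mul, Int.cast_natCast, ZMod.natCast_zmod_val]
      exact Units.inv_mul (χ g)
    rw [Finset.sum_congr rfl fun g _ => h1 g, Finset.sum_const, Finset.card_univ, nsmul_eq_mul, mul_one]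
  set wM : ℂ := ∑ g, (cf χ (AddMonoidHom.id (ZMod l)) 1 g : ℂ) * (ω g : ℂ) with hwM
  have hwM1 : V.valuation wM = 1 := hω _ (by rw [hch]; exact hG)
  -- f as a homomorphism
  let fA : A →* Multiplicative Λ :=
    MonoidHom.mk' (fun x => Multiplicative.ofAdd (f x)) fun x y => by
      show Multiplicative.ofAdd (f (x * y)) = _
      rw [f1 _ x.2 _ y.2]; rfl
  have hfA : ∀ x : A, f x = Multiplicative.toAdd (fA x) := fun _ => rfl
  -- spanning elements
  obtain ⟨d, v, y, hd, hv2, hy1, hy2⟩ : ∃ (d : ℕ) (v : Fin d → Λ) (y : Fin d → M),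
      d < Module.finrank ℂ (ι → ℂ) ∧ Submodule.span (ZMod l) (Set.range v) = Submodule.span (ZMod l) (f '' A) ∧
      (∀ j, y j ∈ A) ∧ ∀ j, f (y j) = v j := by
    obtain ⟨v, hv1, hv2, -⟩ := Submodule.exists_fun_fin_finrank_span_eq (ZMod l) (f '' A)
    choose y hy1 hy2 using hv1
    refine ⟨_, v, y, ?_, hv2, hy1, hy2⟩
    rw [Module.finrank_fintype_fun_eq_card]
    exact lt_of_le_of_lt (Submodule.finrank_le _) hΛ
  let T : (ι → ℂ) →ₗ[ℂ] (Fin d → ℂ) :=
    { toFun := fun c j => ∑ i, c i * ψ i (y j)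
      map_add' := by
        intro c c'
        funext j
        simp only [Pi.add_apply, add_mul, Finset.sum_add_distrib]
      map_smul' := by
        intro r c
        funext j
        simp only [Pi.smul_apply, smul_eq_mul, RingHom.id_apply, Finset.mul_sum, mul_assoc] }
  have hT : LinearMap.ker T ≠ ⊥ := by
    refine LinearMap.ker_ne_bot_of_finrank_lt ?_
    rw [Module.finrank_fin_fun]
    exact hd
  obtain ⟨c, hcT, hc0⟩ := Submodule.exists_mem_ne_zero_of_ne_bot hT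
  have hcy : ∀ j, ∑ i, c i * ψ i (y j) = 0 := fun j => congrFun (LinearMap.mem_ker.1 hcT) j
  -- the function Ψ
  let Ψ : M → ℂ := fun x => ∑ i, c i * ψ i x
  have hΨ1 : ∀ x ∈ A, ∀ y ∈ A, Ψ (x * y) = Ψ x + Ψ y := by
    intro x hx y hy
    show ∑ i, c i * ψ i (x * y) = ∑ i, c i * ψ i x + ∑ i, c i * ψ i y
    rw [← Finset.sum_add_distrib]
    refine Finset.sum_congr rfl fun i _ => ?_
    rw [p1 i x hx y hy, mul_add]
  have hΨ2 : ∀ g, ∀ x ∈ A, Ψ (ac g x) = (ω g : ℂ) * Ψ x := by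
    intro g x hx
    show ∑ i, c i * ψ i (ac g x) = (ω g : ℂ) * ∑ i, c i * ψ i x
    rw [Finset.mul_sum]
    refine Finset.sum_congr rfl fun i _ => ?_
    rw [p2 i g x hx]
    ring
  let ΨA : A →* Multiplicative ℂ :=
    MonoidHom.mk' (fun x => Multiplicative.ofAdd (Ψ x)) fun x y => by
      show Multiplicative.ofAdd (Ψ (x * y)) = _
      rw [hΨ1 _ x.2 _ y.2]; rfl
  have hΨA : ∀ x : A, Ψ x = Multiplicative.toAdd (ΨA x) := fun _ => rfl
  have hΨpow : ∀ x ∈ A, ∀ n : ℕ, Ψ (x ^ n) = n * Ψ x := by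
    intro x hx n
    have h1 := hΨA ((⟨x, hx⟩ : A) ^ n)
    rw [map_pow, toAdd_pow, ← hΨA] at h1
    rw [← nsmul_eq_mul]
    exact h1
  have hΨinv : ∀ x ∈ A, Ψ x⁻¹ = -Ψ x := by
    intro x hx
    have h1 := hΨA ((⟨x, hx⟩ : A)⁻¹)
    rw [map_inv, toAdd_inv, ← hΨA] at h1
    exact h1
  have hpwA : ∀ x ∈ A, pw ac (cf χ (AddMonoidHom.id (ZMod l)) 1) x ∈ A := fun x hx =>
    Subgroup.prod_mem _ fun g _ => Subgroup.zpow_mem _ (hA g x hx) _
  have hΨpw : ∀ x ∈ A, Ψ (pw ac (cf χ (AddMonoidHom.id (ZMod l)) 1) x) = wM * Ψ x := by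
    intro x hx
    have h1 : (⟨pw ac (cf χ (AddMonoidHom.id (ZMod l)) 1) x, hpwA x hx⟩ : A) =
        ∏ g, (⟨ac g x, hA g x hx⟩ : A) ^ (cf χ (AddMonoidHom.id (ZMod l)) 1 g) := by
      apply Subtype.ext
      rw [Subgroup.val_finsetProd]
      rfl
    have h2 : Ψ (pw ac (cf χ (AddMonoidHom.id (ZMod l)) 1) x) = Multiplicative.toAdd (ΨA (∏ g, (⟨ac g x, hA g x hx⟩ : A) ^ (cf χ (AddMonoidHom.id (ZMod l)) 1 g))) := by
      rw [← h1]; rfl
    rw [map_prod, toAdd_prod] at h2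
    refine h2.trans ?_
    rw [hwM, Finset.sum_mul]
    refine Finset.sum_congr rfl fun g _ => ?_
    rw [map_zpow, toAdd_zpow, ← hΨA, zsmul_eq_mul, hΨ2 g x hx, mul_assoc]
  -- the key claim
  have key : ∀ x ∈ A, ∃ x' ∈ A, f x' = 0 ∧ Ψ x' = Ψ x := by
    intro x hx
    have h1 : f x ∈ Submodule.span (ZMod l) (Set.range v) := by
      rw [hv2]
      exact Submodule.subset_span ⟨x, hx, rfl⟩
    obtain ⟨a, ha⟩ := (Submodule.mem_span_range_iff_exists_fun (ZMod l)).1 h1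
    have h2 : ∀ j, ∃ u ∈ A, f u = a j • v j ∧ Ψ u = 0 := by
      intro j
      have hne : NeZero l := ⟨(Fact.out : l.Prime).ne_zero⟩
      refine ⟨y j ^ (a j).val, A.pow_mem (hy1 j) _, ?_, ?_⟩
      · have h5 := hfA ((⟨y j, hy1 j⟩ : A) ^ (a j).val)
        rw [map_pow, toAdd_pow, ← hfA] at h5
        have h6 : f (y j ^ (a j).val) = (a j).val • f (y j) := h5
        rw [h6, hy2, ← Nat.cast_smul_eq_nsmul (ZMod l), ZMod.natCast_zmod_val]
      · rw [hΨpow _ (hy1 j)]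
        show _ * ∑ i, c i * ψ i (y j) = 0
        rw [hcy, mul_zero]
    choose u hu1 hu2 hu3 using h2
    have h3 : Ψ (∏ j, u j) = 0 ∧ f (∏ j, u j) = f x := by
      have h4 : (⟨∏ j, u j, Subgroup.prod_mem _ fun j _ => hu1 j⟩ : A) = ∏ j, (⟨u j, hu1 j⟩ : A) := by
        apply Subtype.ext
        rw [Subgroup.val_finsetProd]
      constructor
      · have h5 : Ψ (∏ j, u j) = Multiplicative.toAdd (ΨA (∏ j, (⟨u j, hu1 j⟩ : A))) := by
          rw [← h4]; rfl
        rw [map_prod, toAdd_prod] at h5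
        refine h5.trans (Finset.sum_eq_zero fun j _ => ?_)
        rw [← hΨA]
        exact hu3 j
      · have h5 : f (∏ j, u j) = Multiplicative.toAdd (fA (∏ j, (⟨u j, hu1 j⟩ : A))) := by
          rw [← h4]; rfl
        rw [map_prod, toAdd_prod] at h5
        refine h5.trans ?_
        rw [← ha]
        refine Finset.sum_congr rfl fun j _ => ?_
        rw [← hfA]
        exact hu2 j
    have hPA : ∏ j, u j ∈ A := Subgroup.prod_mem _ fun j _ => hu1 j
    refine ⟨x * (∏ j, u j)⁻¹, A.mul_mem hx (A.inv_mem hPA), ?_, ?_⟩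
    · rw [f1 _ hx _ (A.inv_mem hPA)]
      have h6 := hfA ((⟨∏ j, u j, hPA⟩ : A)⁻¹)
      rw [map_inv, toAdd_inv, ← hfA] at h6
      have h7 : f (∏ j, u j)⁻¹ = -f (∏ j, u j) := h6
      rw [h7, h3.2, add_neg_cancel]
    · rw [hΨ1 _ hx _ (A.inv_mem hPA), hΨinv _ hPA, h3.1, neg_zero, add_zero]
  -- stability
  have hl0 : (l : ℂ) ≠ 0 := Nat.cast_ne_zero.2 (Fact.out : l.Prime).ne_zero
  have hst : ∀ x ∈ A, ∃ z ∈ A, wM / l * Ψ x = Ψ z := by
    intro x hx
    obtain ⟨x', hx', hf0, hΨx⟩ := key x hx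
    obtain ⟨z, hz, hzp⟩ := hcon x' hx' hf0
    refine ⟨z, hz, ?_⟩
    have h1 := hΨpw x' hx'
    rw [hzp, hΨpow z hz l, hΨx] at h1
    field_simp
    linear_combination -h1
  -- the group
  let N : Submodule ℤ ℂ :=
    { carrier := {z | ∃ x ∈ A, Ψ x = z}
      add_mem' := by
        rintro _ _ ⟨x, hx, rfl⟩ ⟨x', hx', rfl⟩
        exact ⟨x * x', A.mul_mem hx hx', hΨ1 x hx x' hx'⟩
      zero_mem' := by
        refine ⟨1, A.one_mem, ?_⟩
        have := hΨA 1
        rw [map_one] at this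
        exact this
      smul_mem' := by
        rintro n _ ⟨x, hx, rfl⟩
        refine ⟨x ^ n, A.zpow_mem hx n, ?_⟩
        have h1 := hΨA ((⟨x, hx⟩ : A) ^ n)
        rw [map_zpow, toAdd_zpow, ← hΨA] at h1
        exact h1 }
  have hN0 : N ≠ ⊥ := by
    intro h
    apply hc0
    apply p3
    intro x hx
    have h1 : Ψ x ∈ N := ⟨x, hx, rfl⟩
    rw [h, Submodule.mem_bot] at h1
    exact h1
  have hNfg : N.FG := by
    obtain ⟨h, B, hh0, ⟨S, hS⟩, hBA, hpow⟩ := hfg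
    let NB : Submodule ℤ ℂ := Submodule.span ℤ (Ψ '' (S : Set M))
    have hNB : NB.FG := Submodule.fg_span (S.finite_toSet.image _)
    have hBN : ∀ x ∈ B, x ∈ A ∧ Ψ x ∈ NB := by
      intro x hx
      rw [← hS] at hx
      induction hx using Subgroup.closure_induction with
      | mem x hx =>
        refine ⟨hBA ?_, Submodule.subset_span ⟨x, hx, rfl⟩⟩
        rw [← hS]
        exact Subgroup.subset_closure hx
      | one =>
        refine ⟨A.one_mem, ?_⟩
        have := hΨA 1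
        rw [map_one] at this
        have h2 : Ψ 1 = 0 := this
        rw [h2]
        exact NB.zero_mem
      | mul x y _ _ hx hy => exact ⟨A.mul_mem hx.1 hy.1, by rw [hΨ1 x hx.1 y hy.1]; exact NB.add_mem hx.2 hy.2⟩
      | inv x _ hx => exact ⟨A.inv_mem hx.1, by rw [hΨinv x hx.1]; exact NB.neg_mem hx.2⟩
    let m1 : ℂ →ₗ[ℤ] ℂ := (LinearMap.mulLeft ℤ (h : ℂ))
    let m2 : ℂ →ₗ[ℤ] ℂ := (LinearMap.mulLeft ℤ ((h : ℂ)⁻¹))
    have h1 : N.map m1 ≤ NB := by
      rintro _ ⟨_, ⟨x, hx, rfl⟩, rfl⟩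
      show (h : ℂ) * Ψ x ∈ NB
      rw [← hΨpow x hx h]
      exact (hBN _ (hpow x hx)).2
    have hNoeth : IsNoetherian ℤ NB := isNoetherian_of_fg_of_noetherian NB hNB
    have h2 : (N.map m1).FG := isNoetherian_submodule.1 hNoeth _ h1
    have h3 : N = (N.map m1).map m2 := by
      rw [← Submodule.map_comp]
      have h4 : m2.comp m1 = LinearMap.id := by
        refine LinearMap.ext fun z => ?_
        show (h : ℂ)⁻¹ * ((h : ℂ) * z) = z
        rw [← mul_assoc, inv_mul_cancel₀ (Nat.cast_ne_zero.2 hh0), one_mul]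
      rw [h4, Submodule.map_id]
    rw [h3]
    exact h2.map _
  have hfin := val_le_one_of_stable V N.toAddSubgroup ((Submodule.fg_iff_addSubgroup_fg N).1 hNfg)
    (fun h => hN0 ((Submodule.eq_bot_iff N).2 fun x hx => by
      have h3 : x ∈ N.toAddSubgroup := hx
      rw [h] at h3
      exact AddSubgroup.mem_bot.1 h3)) (wM / l) (by
      rintro _ ⟨x, hx, rfl⟩
      obtain ⟨z, hz, hzz⟩ := hst x hx
      exact ⟨z, hz, hzz.symm⟩)
  have h1 : V.valuation (wM / l * l) < 1 := by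
    rw [map_mul]
    exact lt_of_le_of_lt (mul_le_of_le_one_left' hfin) hV
  rw [div_mul_cancel₀ _ hl0, hwM1] at h1
  exact lt_irrefl _ h1

theorem gc_card {l : ℕ} [Fact l.Prime] (Λ : Type) [AddCommGroup Λ] [Finite Λ] [Module (ZMod l) Λ] :
    Module.Finite (ZMod l) Λ ∧ Nat.card Λ = l ^ Module.finrank (ZMod l) Λ := by
  have h0 : Module.Finite (ZMod l) Λ := Module.Finite.of_finite
  refine ⟨h0, ?_⟩
  have h3 : Nat.card Λ = Nat.card (ZMod l) ^ Module.finrank (ZMod l) Λ := Module.natCard_eq_pow_finrank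
  rw [h3, Nat.card_zmod]

/-- The counting argument with values in a finite group killed by l. -/
theorem gn_fin {l : ℕ} [Fact l.Prime] {G : Type} [Group G] [Fintype G] (χ : G →* (ZMod l)ˣ)
    (hG : ((Fintype.card G : ℕ) : ZMod l) ≠ 0) {M : Type} [CommGroup M] (ac : G →* Monoid.End M) (A : Subgroup M)
    (hA : ∀ g, ∀ x ∈ A, ac g x ∈ A) (Λ : Type) [AddCommGroup Λ] [Finite Λ] (htor : ∀ x : Λ, l • x = 0)
    (f : M → Λ) (f1 : ∀ x ∈ A, ∀ y ∈ A, f (x * y) = f x + f y) {ι : Type} [Fintype ι]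
    (h1 : Nat.card Λ < l ^ Fintype.card ι) (V : ValuationSubring ℂ) (hV : V.valuation (l : ℂ) < 1)
    (ω : G →* ℂˣ)
    (hω : ∀ α : G → ℤ, chs χ α ≠ 0 → V.valuation (∑ g, (α g : ℂ) * (ω g : ℂ)) = 1)
    (ψ : ι → M → ℂ) (p1 : ∀ i, ∀ x ∈ A, ∀ y ∈ A, ψ i (x * y) = ψ i x + ψ i y)
    (p2 : ∀ i g, ∀ x ∈ A, ψ i (ac g x) = (ω g : ℂ) * ψ i x)
    (p3 : ∀ c : ι → ℂ, (∀ x ∈ A, ∑ i, c i * ψ i x = 0) → c = 0)
    (hfg : ∃ (h : ℕ) (B : Subgroup M), h ≠ 0 ∧ B.FG ∧ B ≤ A ∧ ∀ x ∈ A, x ^ h ∈ B) :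
    ∃ x ∈ A, f x = 0 ∧ ∀ y ∈ A, pw ac (cf χ (AddMonoidHom.id (ZMod l)) 1) x ≠ y ^ l := by
  letI : Module (ZMod l) Λ := AddCommGroup.zmodModule htor
  obtain ⟨hmf, hcard⟩ := gc_card (l := l) Λ
  rw [hcard] at h1
  have hlt : Module.finrank (ZMod l) Λ < Fintype.card ι := (Nat.pow_lt_pow_iff_right (Fact.out : l.Prime).one_lt).1 h1
  exact @gn_alg2 l _ G _ _ χ hG M _ ac A hA Λ _ _ hmf f f1 ι _ hlt V hV ω hω ψ p1 p2 p3 hfg

/-- The counting argument for a subgroup of finite index. -/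
theorem gn_sub {l : ℕ} [Fact l.Prime] {G : Type} [Group G] [Fintype G] (χ : G →* (ZMod l)ˣ)
    (hG : ((Fintype.card G : ℕ) : ZMod l) ≠ 0) {M : Type} [CommGroup M] (ac : G →* Monoid.End M) (A Y : Subgroup M)
    (hA : ∀ g, ∀ x ∈ A, ac g x ∈ A) (hY : ∀ x ∈ A, x ^ l ∈ Y) {ι : Type} [Fintype ι]
    (h0 : Y.relIndex A ≠ 0) (h1 : Y.relIndex A < l ^ Fintype.card ι) (V : ValuationSubring ℂ) (hV : V.valuation (l : ℂ) < 1)
    (ω : G →* ℂˣ)
    (hω : ∀ α : G → ℤ, chs χ α ≠ 0 → V.valuation (∑ g, (α g : ℂ) * (ω g : ℂ)) = 1)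
    (ψ : ι → M → ℂ) (p1 : ∀ i, ∀ x ∈ A, ∀ y ∈ A, ψ i (x * y) = ψ i x + ψ i y)
    (p2 : ∀ i g, ∀ x ∈ A, ψ i (ac g x) = (ω g : ℂ) * ψ i x)
    (p3 : ∀ c : ι → ℂ, (∀ x ∈ A, ∑ i, c i * ψ i x = 0) → c = 0)
    (hfg : ∃ (h : ℕ) (B : Subgroup M), h ≠ 0 ∧ B.FG ∧ B ≤ A ∧ ∀ x ∈ A, x ^ h ∈ B) :
    ∃ x ∈ A, x ∈ Y ∧ ∀ y ∈ A, pw ac (cf χ (AddMonoidHom.id (ZMod l)) 1) x ≠ y ^ l := by
  classical
  have hfi : (Y.subgroupOf A).FiniteIndex := ⟨h0⟩
  have hfin : Finite (A ⧸ Y.subgroupOf A) := Subgroup.finite_quotient_of_finiteIndex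
  let f : M → Additive (A ⧸ Y.subgroupOf A) :=
    fun x => if hx : x ∈ A then Additive.ofMul (QuotientGroup.mk (⟨x, hx⟩ : A)) else 0
  have hf : ∀ x (hx : x ∈ A), f x = Additive.ofMul (QuotientGroup.mk (⟨x, hx⟩ : A)) := fun x hx => dif_pos hx
  obtain ⟨x, hx, hfx, h2⟩ := gn_fin χ hG ac A hA (Additive (A ⧸ Y.subgroupOf A)) (by
    intro x
    obtain ⟨a, ha⟩ := QuotientGroup.mk_surjective (Additive.toMul x)
    have h2 : (QuotientGroup.mk a : A ⧸ Y.subgroupOf A) ^ l = 1 := by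
      rw [← QuotientGroup.mk_pow, QuotientGroup.eq_one_iff, Subgroup.mem_subgroupOf]
      exact hY a.1 a.2
    rw [ha] at h2
    exact h2) f (fun x hx y hy => by
    rw [hf x hx, hf y hy, hf _ (A.mul_mem hx hy)]
    rfl) (by exact h1) V hV ω hω ψ p1 p2 p3 hfg
  refine ⟨x, hx, ?_, h2⟩
  rw [hf x hx] at hfx
  have h3 : (QuotientGroup.mk (⟨x, hx⟩ : A) : A ⧸ Y.subgroupOf A) = 1 := hfx
  rw [QuotientGroup.eq_one_iff, Subgroup.mem_subgroupOf] at h3
  exact h3

end H19C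
end

-- from Lib.H35M.SN1B
section

/-! # H35M, chunk SN1B (M): if all values of the Hecke character over M are 1 modulo ρ then the ρ-torsion is rational over M -/

open NumberField IsDedekindDomain

namespace H35M

open H55N H55P
open H35P (WAB)
open H55K (Dta Tor)

variable {F : Type} [Field F] [NumberField F] [IQ F] {Ω : Type} [Field Ω] [DecidableEq Ω] [Algebra F Ω] [IsAlgClosure F Ω]

section aux

/-- Finitely many primes of M contain a nonzero ideal. -/
theorem SN1B_fin (M : Type) [Field M] [NumberField M] (I : Ideal (𝓞 M)) (hI : I ≠ ⊥) :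
    {w : HeightOneSpectrum (𝓞 M) | I ≤ w.asIdeal}.Finite := by
  refine (Ideal.finite_factors (I := I) hI).subset ?_
  intro w hw
  exact Ideal.dvd_iff_le.2 hw

/-- The prime below. -/
noncomputable def SN1B_u (M : Type) [Field M] [NumberField M] [Algebra F M] (w : HeightOneSpectrum (𝓞 M)) :
    HeightOneSpectrum (𝓞 F) :=
  ⟨w.asIdeal.under (𝓞 F), inferInstance, mt Ideal.eq_bot_of_comap_eq_bot w.ne_bot⟩

omit [IQ F] in
/-- Finitely many primes of M are above a finite set of primes of F. -/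
theorem SN1B_above (M : Type) [Field M] [NumberField M] [Algebra F M] (S : Set (HeightOneSpectrum (𝓞 F))) (hS : S.Finite) :
    {w : HeightOneSpectrum (𝓞 M) | SN1B_u (F := F) M w ∈ S}.Finite := by
  have h1 : {w : HeightOneSpectrum (𝓞 M) | SN1B_u (F := F) M w ∈ S} ⊆
      ⋃ v ∈ S, {w : HeightOneSpectrum (𝓞 M) | v.asIdeal.map (algebraMap (𝓞 F) (𝓞 M)) ≤ w.asIdeal} := by
    intro w hw
    simp only [Set.mem_iUnion]
    refine ⟨_, hw, ?_⟩
    show (w.asIdeal.under (𝓞 F)).map (algebraMap (𝓞 F) (𝓞 M)) ≤ w.asIdeal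
    rw [Ideal.map_le_iff_le_comap]
  refine (hS.biUnion fun v _ => SN1B_fin M _ ?_).subset h1
  intro h
  rw [Ideal.map_eq_bot_iff_of_injective (FaithfulSMul.algebraMap_injective _ _)] at h
  exact v.ne_bot h

end aux

theorem SN1B_top {A B : F} {Om : ℂ} {j : Ω →+* ℂ}
    {act : 𝓞 F →+* AddMonoid.End (Pt (WAB A B) Ω)} {mo : Ideal (𝓞 F)} {ψ : Ideal (𝓞 F) →*₀ 𝓞 F} {p : ℕ}
    (d : Dta A B Om j act mo ψ p) {ρ : 𝓞 F} (hρ : Prime ρ) (hd : ρ ∣ (p : 𝓞 F))
    (M : IntermediateField F Ω) [NumberField M]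
    (hyp : ∀ a : Ideal (𝓞 M), IsCoprime a (Ideal.span {(p : 𝓞 M)}) → IsCoprime a (mK M mo) → ρ ∣ 1 - ψ (Ideal.relNorm (𝓞 F) a))
    (w : HeightOneSpectrum (𝓞 M)) (hwp : (p : 𝓞 M) ∉ w.asIdeal) (hwm : ¬ mK M mo ≤ w.asIdeal)
    (hpr : (Ideal.absNorm w.asIdeal).Prime) :
    Ideal.absNorm (SN1B_u (F := F) M w).asIdeal = Ideal.absNorm w.asIdeal ∧
    ρ ∣ 1 - ψ (SN1B_u (F := F) M w).asIdeal := by
  obtain ⟨v, hv, hrel, hf, -⟩ := H55K.DD.below (F := F) (K := M) (m := mo) w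
  have hvu : v = SN1B_u (F := F) M w := HeightOneSpectrum.ext hv
  rw [← hvu]
  have h0 : w.asIdeal.LiesOver v.asIdeal := ⟨hv⟩
  have hwmax := w.isMaximal
  have hvmax := v.isMaximal
  have h1 : Ideal.absNorm w.asIdeal = Ideal.absNorm v.asIdeal ^ (w.asIdeal.inertiaDeg (𝓞 F)) := by
    exact (Ideal.absNorm_pow_inertiaDeg v.asIdeal w.asIdeal).symm
  have hf1 : w.asIdeal.inertiaDeg (𝓞 F) = 1 := by
    rw [h1] at hpr
    exact hpr.eq_one_of_pow
  rw [hf1, pow_one] at hrel h1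
  refine ⟨h1.symm, ?_⟩
  rw [← hrel]
  refine hyp _ ?_ ?_
  · rw [Ideal.isCoprime_iff_sup_eq]
    refine hwmax.out.2 _ (lt_of_le_of_ne le_sup_left ?_)
    intro he
    apply hwp
    rw [he]
    exact Ideal.mem_sup_right (Ideal.mem_span_singleton_self _)
  · rw [Ideal.isCoprime_iff_sup_eq]
    refine hwmax.out.2 _ (lt_of_le_of_ne le_sup_left ?_)
    intro he
    apply hwm
    rw [he]
    exact le_sup_right

/-- Chunk SN1B (M). PROOF (models: H28T/CB3A.lean, H55K/K7.lean). H = the subgroup of Ω ≃ₐ[M] Ω of the s with ac (WAB A B) (s.restrictScalars F) T = T for all T in Tor act ρ. H is normal (s maps Tor act ρ to itself: d.cma.gal, H55K.S.ac_mem) and contains the fixing subgroup of a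
finite extension of M (generated by the coordinates of a generator T₀ of Tor act ρ, d.cma.gen; the other elements are act a T₀ and ac commutes with act). H13S.PA1_top over M (Algebra M Ω, IsAlgClosure M Ω: Ω is algebraically closed, algebraic over F, so over M): w prime of M, absNorm w prime, w not above the finite
sets of d.frob and d.fin (finitely many primes above each prime: H28T.above_finite / Set.Finite.preimage'), not above p, not above mo (M ≠ ⊥); v = w.under (𝓞 F): absNorm w = absNorm v ^ inertiaDeg is prime, so absNorm v = absNorm w, inertiaDeg = 1 and relNorm w = v (H55K.DD.below in H55K/D8.lean); V' above w is above v. s a Frobenius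
element at V' over M: s.restrictScalars F satisfies the hypothesis of d.frob (n = p, V'(p) = 1 because p is not in w: the integers of M are in V' and p, w generate 1), so on Tor act ρ (p • T = 0 as ρ ∣ p, see hT1 in H55K/K7.lean) it acts as act (ψ v), and ρ ∣ 1 - ψ (relNorm w) = 1 - ψ v (hyp for a = w.asIdeal),
so act (ψ v) T = T. So H = ⊤; an s in M.fixingSubgroup is the restriction of an M-automorphism of Ω (IntermediateField.fixingSubgroupEquiv). -/
theorem rat_of_triv {A B : F} {Om : ℂ} {j : Ω →+* ℂ}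
    {act : 𝓞 F →+* AddMonoid.End (Pt (WAB A B) Ω)} {mo : Ideal (𝓞 F)} {ψ : Ideal (𝓞 F) →*₀ 𝓞 F} {p : ℕ}
    (d : Dta A B Om j act mo ψ p) {ρ : 𝓞 F} (hρ : Prime ρ) (hd : ρ ∣ (p : 𝓞 F))
    (M : IntermediateField F Ω) [NumberField M]
    (hyp : ∀ a : Ideal (𝓞 M), IsCoprime a (Ideal.span {(p : 𝓞 M)}) → IsCoprime a (mK M mo) → ρ ∣ 1 - ψ (Ideal.relNorm (𝓞 F) a))
    (T : Pt (WAB A B) Ω) (hT : T ∈ Tor act ρ) : ∀ s ∈ M.fixingSubgroup, ac (WAB A B) s T = T := by
  have hac : IsAlgClosed Ω := IsAlgClosure.isAlgClosed F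
  have halg : Algebra.IsAlgebraic F Ω := IsAlgClosure.isAlgebraic
  have halgM : Algebra.IsAlgebraic M Ω := Algebra.IsAlgebraic.tower_top (K := F) M
  have hcM : IsAlgClosure M Ω := ⟨hac, halgM⟩
  obtain ⟨T₀, hT₀, hgen, -, -⟩ := d.cma.gen ρ hρ.ne_zero
  let H : Subgroup (Ω ≃ₐ[M] Ω) :=
    { carrier := {s | ∀ T ∈ Tor act ρ, ac (WAB A B) (s.restrictScalars F) T = T}
      mul_mem' := by
        intro s t hs ht T hT
        have e : (s * t).restrictScalars F = s.restrictScalars F * t.restrictScalars F := rfl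
        rw [e, H55K.S.ac_mul, ht T hT, hs T hT]
      one_mem' := by
        intro T hT
        have e : (1 : Ω ≃ₐ[M] Ω).restrictScalars F = 1 := rfl
        rw [e, H55K.S.ac_one]
      inv_mem' := by
        intro s hs T hT
        have e : (s⁻¹).restrictScalars F = (s.restrictScalars F)⁻¹ := rfl
        rw [e]
        apply H55K.S.ac_inj (s.restrictScalars F)
        rw [H55K.S.ac_inv, hs T hT] }
  have hHmem : ∀ s : Ω ≃ₐ[M] Ω, s ∈ H ↔ ∀ T ∈ Tor act ρ, ac (WAB A B) (s.restrictScalars F) T = T := fun s => Iff.rfl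
  have hnorm : H.Normal := by
    constructor
    intro t ht g T hT
    have e : (g * t * g⁻¹).restrictScalars F = g.restrictScalars F * t.restrictScalars F * (g.restrictScalars F)⁻¹ := rfl
    rw [e, H55K.S.ac_mul, H55K.S.ac_mul, ht _ (H55K.S.ac_mem d.cma _ hT), H55K.S.ac_inv]
  let C : Set Ω := {H55K.xc T₀, H55K.yc T₀}
  have hCf : C.Finite := Set.toFinite C
  have hCf' : Finite C := hCf
  have hLf : FiniteDimensional M (IntermediateField.adjoin M C) :=
    IntermediateField.finiteDimensional_adjoin fun x _ => (Algebra.IsAlgebraic.isAlgebraic x).isIntegral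
  obtain ⟨S₂, hS₂, hfrob⟩ := d.frob
  have hp0 : (p : 𝓞 M) ≠ 0 := by
    have := d.prime.ne_zero
    exact_mod_cast this
  have htop : H = ⊤ := by
    refine H13S.PA1_top H hnorm (IntermediateField.adjoin M C) ?_
      ({w | SN1B_u (F := F) M w ∈ S₂} ∪ {w | Ideal.span {(p : 𝓞 M)} ≤ w.asIdeal} ∪ {w | mK M mo ≤ w.asIdeal}) ?_ ?_
    · intro t ht
      rw [hHmem]
      have hfix : ∀ x ∈ C, t x = x := fun x hx =>
        ht ⟨x, IntermediateField.subset_adjoin M C hx⟩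
      have e1 : ac (WAB A B) (t.restrictScalars F) T₀ = T₀ :=
        H55K.ac_fix _ (hfix _ (by simp [C])) (hfix _ (by simp [C]))
      intro T hT
      obtain ⟨a, rfl⟩ := hgen T hT
      rw [H55K.S.ac_act d.cma, e1]
    · refine ((SN1B_above (F := F) M S₂ hS₂).union (SN1B_fin M _ ?_)).union (SN1B_fin M _ ?_)
      · intro h
        rw [Ideal.span_singleton_eq_bot] at h
        exact hp0 h
      · intro h
        rw [mK, Ideal.map_eq_bot_iff_of_injective (FaithfulSMul.algebraMap_injective _ _)] at h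
        exact d.hecke.ne h
    · intro w hw hpr V hV s hs
      simp only [Set.mem_union, Set.mem_setOf_eq, not_or] at hw
      obtain ⟨⟨hw1, hw2⟩, hw3⟩ := hw
      have hw2' : (p : 𝓞 M) ∉ w.asIdeal := by
        rwa [Ideal.span_singleton_le_iff_mem] at hw2
      obtain ⟨hn, hdv⟩ := SN1B_top d hρ hd M hyp w hw2' hw3 hpr
      have hva : ∀ a : 𝓞 F, a ∈ (SN1B_u (F := F) M w).asIdeal → V.valuation (H55K.ak Ω a) < 1 := by
        intro a ha
        exact hV (algebraMap (𝓞 F) (𝓞 M) a) ha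
      have hint : ∀ x : 𝓞 M, V.valuation (algebraMap M Ω (x : M)) ≤ 1 := by
        intro x
        rw [ValuationSubring.valuation_le_one_iff]
        have h1 : IsIntegral ℤ (algebraMap M Ω (x : M)) := (RingOfIntegers.isIntegral_coe x).map (algebraMap M Ω).toIntAlgHom
        have h2 : IsIntegral V (algebraMap M Ω (x : M)) := h1.tower_top
        obtain ⟨y, hy⟩ := (IsIntegrallyClosed.isIntegral_iff (R := V) (K := Ω)).1 h2
        rw [← hy]
        exact y.2
      have hl1 : V.valuation (p : Ω) = 1 := by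
        have hc : IsCoprime w.asIdeal (Ideal.span {(p : 𝓞 M)}) := by
          rw [Ideal.isCoprime_iff_sup_eq]
          have hwmax := w.isMaximal
          refine hwmax.out.2 _ (lt_of_le_of_ne le_sup_left ?_)
          intro he
          apply hw2'
          rw [he]
          exact Ideal.mem_sup_right (Ideal.mem_span_singleton_self _)
        obtain ⟨a, ha, b, hb, hab⟩ := Ideal.isCoprime_iff_exists.1 hc
        obtain ⟨c, rfl⟩ := Ideal.mem_span_singleton'.1 hb
        have e1 : algebraMap M Ω ((a : 𝓞 M) : M) + algebraMap M Ω ((c : 𝓞 M) : M) * (p : Ω) = 1 := by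
          have := congrArg (fun t : 𝓞 M => algebraMap M Ω (t : M)) hab
          simpa using this
        refine le_antisymm ?_ (not_lt.1 fun h' => ?_)
        · have := hint (p : 𝓞 M)
          simpa using this
        · have h5 : V.valuation (1 : Ω) < 1 := by
            rw [← e1]
            refine V.valuation.map_add_lt (hV a ha) ?_
            rw [map_mul]
            calc _ ≤ 1 * V.valuation (p : Ω) := mul_le_mul_left (hint c) _
              _ < 1 := by rw [one_mul]; exact h'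
          rw [map_one] at h5
          exact lt_irrefl _ h5
      intro T hT
      have hT1 : p • T = 0 := by
        obtain ⟨c, hc⟩ := hd
        have h1 : act (p : 𝓞 F) T = 0 := by
          rw [hc, mul_comm, map_mul]
          show act c (act ρ T) = 0
          have h2 : act ρ T = 0 := hT
          rw [h2, map_zero]
        rw [map_natCast, AddMonoid.End.natCast_apply] at h1
        exact h1
      have h3 := hfrob _ hw1 (by rw [hn]; exact hpr) V hva (s.restrictScalars F) (by rw [hn]; exact hs) p hl1 T hT1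
      rw [h3]
      obtain ⟨c, hc⟩ := hdv
      have h4 : ψ (SN1B_u (F := F) M w).asIdeal = 1 - c * ρ := by
        rw [mul_comm, ← hc]; ring
      rw [h4, H55K.S.act_sub, H55K.S.act_one, H55K.S.act_mul]
      have h2 : act ρ T = 0 := hT
      rw [h2, map_zero, sub_zero]
  intro s hs
  have hm : IntermediateField.fixingSubgroupEquiv M ⟨s, hs⟩ ∈ H := by rw [htop]; trivial
  have h1 := (hHmem _).1 hm T hT
  have e : (IntermediateField.fixingSubgroupEquiv M ⟨s, hs⟩).restrictScalars F = s := by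
    ext x
    rfl
  rwa [e] at h1

end H35M
end

-- from Lib.SSU.A7
section

/-! # SSU, chunk A7: if p is unramified in L then the second ramification groups are trivial -/

open NumberField IsDedekindDomain

namespace SSU

open H55P SSR

section types

variable {N L : Type} [Field N] [NumberField N] [Field L] [NumberField L] [Algebra N L] [IsGalois N L]

theorem g2_unr {p : ℕ} (hU : UnrP p L) (hp : p.Prime) (Q : Ideal (𝓞 L)) (hQ : Q.IsPrime) (hpQ : (p : 𝓞 L) ∈ Q) : G2 N Q := by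
  intro s hs
  have hne : Q ≠ ⊥ := by
    rintro rfl
    exact Nat.cast_ne_zero.2 hp.ne_zero (Ideal.mem_bot.1 hpQ)
  have hl : Q.LiesOver (Q.under (𝓞 N)) := ⟨rfl⟩
  have hcard := cl_card (M := N) Q hne
  have he : Q.ramificationIdx (𝓞 N) = 1 := by
    by_contra hcon
    have hvne : Q.under (𝓞 N) ≠ ⊥ := fun h => hne (Ideal.eq_bot_of_comap_eq_bot (R := 𝓞 N) (I := Q) h)
    have h1 : algebraMap (𝓞 N) (𝓞 L) (p : 𝓞 N) ∈ Q ^ 2 := s13_le_sq (Q.under (𝓞 N)) hvne Q hcon (p : 𝓞 N) (by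
      rw [Ideal.under_def, Ideal.mem_comap, map_natCast]
      exact hpQ)
    rw [map_natCast] at h1
    have h2 : Q * Q ∣ Ideal.span {(p : 𝓞 L)} := by
      rw [Ideal.dvd_span_singleton, ← sq]
      exact h1
    exact hQ.ne_top (Ideal.isUnit_iff.1 (hU _ h2))
  rw [he] at hcard
  have h4 := Subgroup.card_eq_one.1 hcard
  have h5 : s ∈ Q.inertia Gal(L/N) := by
    intro x
    exact Ideal.pow_le_self (by norm_num) (hs x)
  rw [h4, Subgroup.mem_bot] at h5
  exact h5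

end types

variable {F : Type} [Field F] [NumberField F] {Ω : Type} [Field Ω] [Algebra F Ω] [IsAlgClosure F Ω]

/-- If p is unramified in L then the second ramification groups of L/M at the primes above p are trivial. -/
theorem g2f_unr {p : ℕ} (hp : p.Prime) (M L : IntermediateField F Ω) [NumberField M] [NumberField L] (hML : M ≤ L)
    (hst : ∀ s ∈ M.fixingSubgroup, ∀ x ∈ L, s x ∈ L) (hU : UnrP p L) : G2F p M L := by
  refine g2f_of_types M L hML hst ?_
  letI : Algebra M L := s13_alg hML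
  have hac : IsAlgClosed Ω := IsAlgClosure.isAlgClosed F
  have halg : Algebra.IsAlgebraic F Ω := IsAlgClosure.isAlgebraic
  have hcz : CharZero Ω := charZero_of_injective_algebraMap (FaithfulSMul.algebraMap_injective F Ω)
  have hLf : FiniteDimensional F L := Module.Finite.of_restrictScalars_finite ℚ F L
  have hgal : IsGalois M L := s13_galois M L hML hst
  exact fun Q hQ hpQ => g2_unr hU hp Q hQ hpQ

end SSU
end
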