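import Mathlib
import Pool.Agent.Lib.H1M.PP2.D_H35U_MainB
import Pool.Agent.Lib.H1M.PP2.D_H35U_NT1
import Pool.Agent.Lib.H1M.PP2.M154
import Pool.Agent.Lib.H1M.PP2.M156
import Pool.Agent.Lib.H1M.PP2.M163

/-! Merged copies (to shorten the build) of Lib.H35U.MainB_T. -/

-- from Lib.H35U.MainB_T
section

/-! # H35U: the relative theorem, arbitrary ramification above a split prime p -/

open NumberField IsDedekindDomain WeierstrassCurve

namespace H35U

open H55P (IQ embF eF LF Per IsHecke Pt ac Inert Dec Nm UnitP UnrP PExt PsiP)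
open H35P (WAB Ker tt GoodW IntW)
open H55K H55K.TQ
open H35M (LVO LVOi NoTor intB critB)
open H13R (BadM NoRel LUnitG)



open Classical in
/-- The converse for Selmer groups, p split (interface of H19C). -/
def NonSel (F : Type) [Field F] [NumberField F] [IQ F] (W : WeierstrassCurve ℤ) (p : ℕ) : Prop :=
  ∀ (M K L : IntermediateField F (AlgebraicClosure F)) [NumberField M] [NumberField K], PExt p M L → M ≤ K → K ≤ L →
    ¬ NoRel p (W⁄(𝓞 F)) M K → H13Z.SelNon ((W⁄(𝓞 F))⁄F) p K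

variable {F : Type} [Field F] [NumberField F] [IQ F] {W : WeierstrassCurve ℤ} {Om : ℂ}
    {m : Ideal (𝓞 F)} {ψ : Ideal (𝓞 F) →*₀ 𝓞 F} {p : ℕ}

/-- If p is not inert in F then p is the product of two different primes. -/
theorem spl_of (hp : PrimeH F (W⁄(𝓞 F)) p) (h : ¬ (Ideal.span {(p : 𝓞 F)}).IsPrime) : H19B.Spl F p := by
  have hpp := hp.prime
  have hp0 : (p : 𝓞 F) ≠ 0 := Nat.cast_ne_zero.2 hpp.ne_zero
  have hnu : ¬ IsUnit (p : 𝓞 F) := by
    intro hu
    have h1 : IsUnit ((p : 𝓞 F) : F) := hu.map (algebraMap (𝓞 F) F)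
    have h2 := H55P.Nm_eq_zero (F := F) (x := (p : 𝓞 F))
    have h3 : Nm (p : 𝓞 F) = 1 := by
      show Ideal.absNorm (Ideal.span {(p : 𝓞 F)}) = 1
      rw [Ideal.span_singleton_eq_top.2 hu]
      exact Ideal.absNorm_top
    have h4 := mul_cj (p : 𝓞 F)
    rw [map_natCast, h3, Nat.cast_one, ← Nat.cast_mul] at h4
    have h5 : p * p = 1 := by exact_mod_cast h4
    have h6 := hpp.one_lt
    nlinarith
  obtain ⟨π, hπ, hd⟩ := WfDvdMonoid.exists_irreducible_factor hnu hp0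
  have hPID : IsPrincipalIdealRing (𝓞 F) := IQ.pid
  have hπ' : Prime π := hπ.prime
  refine ⟨π, hπ', hd, fun hc => ?_⟩
  -- the norm of π
  have h1 := mul_cj π
  obtain ⟨c, hc'⟩ := hd
  have hNm : ((Nm π * Nm c : ℕ) : 𝓞 F) = ((p * p : ℕ) : 𝓞 F) := by
    have h2 : (p : 𝓞 F) * cj (p : 𝓞 F) = (π * cj π) * (c * cj c) := by
      rw [hc', map_mul]
      ring
    rw [map_natCast, mul_cj, mul_cj] at h2
    push_cast
    exact h2.symm
  have hNm' : Nm π * Nm c = p * p := by exact_mod_cast hNm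
  have hNdvd : Nm π ∣ p ^ 2 := ⟨Nm c, by rw [hNm', sq]⟩
  obtain ⟨k, hk, hk'⟩ := (Nat.dvd_prime_pow hpp).1 hNdvd
  have hk1 : k ≠ 0 := by
    rintro rfl
    rw [pow_zero] at hk'
    rw [hk', Nat.cast_one] at h1
    exact hπ.not_isUnit (IsUnit.of_mul_eq_one _ h1)
  have hk2 : k ≠ 2 := by
    rintro rfl
    apply h
    have h2 : Nm c = 1 := by
      rw [hk', sq] at hNm'
      have h3 : 0 < p * p := Nat.mul_pos hpp.pos hpp.pos
      exact Nat.eq_of_mul_eq_mul_left h3 (by rw [hNm', mul_one])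
    have h3 : IsUnit c := by
      have h4 := mul_cj c
      rw [h2, Nat.cast_one] at h4
      exact IsUnit.of_mul_eq_one _ h4
    rw [Ideal.span_singleton_prime hp0, hc']
    exact (Associated.prime_iff (associated_mul_unit_right π c h3)).1 hπ'
  have hk3 : k = 1 := by omega
  rw [hk', hk3, pow_one] at h1
  have h2 : π * π ∣ (p : 𝓞 F) := by
    rw [← h1]
    exact mul_dvd_mul_left π hc
  have h3 : Ideal.span {π} * Ideal.span {π} ∣ Ideal.span {(p : 𝓞 F)} := by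
    rw [Ideal.span_singleton_mul_span_singleton, Ideal.dvd_span_singleton, Ideal.mem_span_singleton]
    exact h2
  exact hπ.not_isUnit (Ideal.span_singleton_eq_top.1 (Ideal.isUnit_iff.1 (hp.unr _ h3)))

section split

variable (hH : BaseH F (W⁄(𝓞 F)) Om m ψ) (hp : PrimeH F (W⁄(𝓞 F)) p)

include hH hp

open Classical in
/-- The Selmer group over K and over FK. -/
theorem selB_iff (K : Type) [Field K] [NumberField K] (ι : K →ₐ[ℚ] AlgebraicClosure F) [NumberField (KG F K ι)] :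
    H55P.SelTriv (W⁄K) p ↔ H55P.SelG p (W⁄(𝓞 F)) (KG F K ι) := by
  have hfd : FiniteDimensional F (KG F K ι) := H13R.kg_fin F K ι
  have hell : ((W⁄(𝓞 F))⁄F).IsElliptic := H55P.gen_ell (W⁄(𝓞 F)) hH.data.ell
  refine ⟨fun h => H13R.selG_of_triv hH hp.prime (by have := hp.five; omega) hp.unr K ι h, fun h => ?_⟩
  exact (H13R.sel_absR hH hp K ι (fun T hT hf => H19B.tors_of_sel ((W⁄(𝓞 F))⁄F) p hp.prime (KG F K ι) h T hT hf) h).1

open Classical in
/-- The Tate-Shafarevich group and the points. -/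
theorem selB_rest (K : Type) [Field K] [NumberField K] (ι : K →ₐ[ℚ] AlgebraicClosure F) [NumberField (KG F K ι)]
    (h : H55P.SelTriv (W⁄K) p) :
    H55P.SelTriv (W⁄K) p ∧ H55P.ShaTriv (W⁄K) p ∧
      Finite (W⁄K).toAffine.Point ∧ ¬ p ∣ Nat.card (W⁄K).toAffine.Point := by
  have hfd : FiniteDimensional F (KG F K ι) := H13R.kg_fin F K ι
  have hell : ((W⁄(𝓞 F))⁄F).IsElliptic := H55P.gen_ell (W⁄(𝓞 F)) hH.data.ell
  have h1 := (selB_iff hH hp K ι).1 h
  exact H13R.sel_absR hH hp K ι (fun T hT hf => H19B.tors_of_sel ((W⁄(𝓞 F))⁄F) p hp.prime (KG F K ι) h1 T hT hf) h1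

theorem bsdB_iff (K : Type) [Field K] [NumberField K] (ι : K →ₐ[ℚ] AlgebraicClosure F) [NumberField (KG F K ι)] :
    BSDPG p W K ↔ H55P.SelTriv (W⁄K) p ∧ LUnitG p W K := by
  constructor
  · rintro ⟨⟨h1, -, -, h2⟩, h3⟩
    exact ⟨h1, (H13R.an_iff hp.prime h2).1 h3⟩
  · rintro ⟨h1, h2⟩
    have h3 := selB_rest hH hp K ι h1
    exact ⟨h3, (H13R.an_iff hp.prime h3.2.2.2).2 h2⟩

theorem disc_neB : W.Δ ≠ 0 := by
  intro h
  apply hH.data.ell
  have e := WeierstrassCurve.map_Δ W (algebraMap ℤ (𝓞 F))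
  rw [h, map_zero] at e
  exact e

open Classical in
/-- No torsion over M if its Selmer group is trivial or p is unramified in FM. -/
theorem nt_of (M : Type) [Field M] [NumberField M] (ι : M →ₐ[ℚ] AlgebraicClosure F) [NumberField (KG F M ι)]
    (h : UnrP p (KG F M ι) ∨ H55P.SelTriv (W⁄M) p) : NT p W M := by
  have hfd : FiniteDimensional F (KG F M ι) := H13R.kg_fin F M ι
  have hell : ((W⁄(𝓞 F))⁄F).IsElliptic := H55P.gen_ell (W⁄(𝓞 F)) hH.data.ell
  refine nt_down (F := F) (disc_neB hH hp) M ι ?_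
  rcases h with h | h
  · exact fun T hT hf => H13R.tors_KR hH hp h (H13R.pext_self p (KG F M ι)) le_rfl T hT hf
  · exact fun T hT hf => H19B.tors_of_sel ((W⁄(𝓞 F))⁄F) p hp.prime (KG F M ι) ((selB_iff hH hp M ι).1 h) T hT hf

variable (hsp : H19B.Spl F p) (hns : NonSel F W p) (M K : Type) [Field M] [NumberField M]
    [Field K] [NumberField K] (ιM : M →ₐ[ℚ] AlgebraicClosure F) (ιK : K →ₐ[ℚ] AlgebraicClosure F)
    {L : IntermediateField F (AlgebraicClosure F)} (hL : PExt p (KG F M ιM) L)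
    (hMK : KG F M ιM ≤ KG F K ιK) (hKL : KG F K ιK ≤ L) (hB : BadM (W⁄(𝓞 F)) (KG F M ιM))

include hsp hL hMK hKL hB


theorem lvalB (hN : NT p W M) : LUnitG p W K ↔ LUnitG p W M ∧ NoRel p (W⁄(𝓞 F)) (KG F M ιM) (KG F K ιK) := by
  have hT := nt_up hH hp.prime (by have := hp.five; omega) hp.unr M ιM hN
  have hRM : LRel W ψ M (KG F M ιM) := H13R.lrelM hH M ιM hB
  have hRK : LRel W ψ K (KG F K ιK) := H13R.lrelK hH hp hL hB K ιK hMK hKL
  have hIM : ∀ V : ValuationSubring ℂ, V.valuation (p : ℂ) < 1 → LVOi F V Om (PsiP (KG F M ιM) ψ) :=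
    fun V hV => intB hH hp hsp hL le_rfl hL.le hT hV
  rw [lunit_iffO hH hp K ιK hRK (fun V hV => intB hH hp hsp hL hMK hKL hT hV), lunit_iffO hH hp M ιM hRM hIM]
  constructor
  · intro h
    have key : ∀ V : ValuationSubring ℂ, V.valuation (p : ℂ) < 1 →
        (LVO F V Om (PsiP (KG F M ιM) ψ) ∧ LVO F (V.comap (starRingEnd ℂ)) Om (PsiP (KG F M ιM) ψ)) ∧
          NoRel p (W⁄(𝓞 F)) (KG F M ιM) (KG F K ιK) := fun V hV =>
      (critB hH hp hsp hL hMK hKL hT hV).1 ⟨h V hV, h _ (above_conj hp.prime V hV)⟩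
    obtain ⟨V₀, hV₀⟩ := H55P.exists_above_p p hp.prime
    exact ⟨fun V hV => (key V hV).1.1, (key V₀ hV₀).2⟩
  · rintro ⟨h1, h2⟩ V hV
    exact ((critB hH hp hsp hL hMK hKL hT hV).2 ⟨⟨h1 V hV, h1 _ (above_conj hp.prime V hV)⟩, h2⟩).1

theorem annonB (hN : NT p W M) (hR : ¬ NoRel p (W⁄(𝓞 F)) (KG F M ιM) (KG F K ιK)) : AnNonG p W K := by
  have hT := nt_up hH hp.prime (by have := hp.five; omega) hp.unr M ιM hN
  have hRK : LRel W ψ K (KG F K ιK) := H13R.lrelK hH hp hL hB K ιK hMK hKL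
  exact non_ofO hH hp K ιK hRK (fun V hV => intB hH hp hsp hL hMK hKL hT hV)
    fun V hV h => hR ((critB hH hp hsp hL hMK hKL hT hV).1 h).2

theorem anintB (hN : NT p W M) : AnIntG p W K := by
  have hT := nt_up hH hp.prime (by have := hp.five; omega) hp.unr M ιM hN
  have hRK : LRel W ψ K (KG F K ιK) := H13R.lrelK hH hp hL hB K ιK hMK hKL
  exact int_ofO hH hp K ιK hRK (fun V hV => intB hH hp hsp hL hMK hKL hT hV)

include hns

theorem selB_iffK : H55P.SelTriv (W⁄K) p ↔ H55P.SelTriv (W⁄M) p ∧ NoRel p (W⁄(𝓞 F)) (KG F M ιM) (KG F K ιK) := by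
  constructor
  · intro h
    have hN : NoRel p (W⁄(𝓞 F)) (KG F M ιM) (KG F K ιK) := by
      by_contra hN
      exact H13Z.not_selTriv _ p (non_abs hH hp K ιK (hns _ _ _ hL hMK hKL hN)) h
    exact ⟨(selB_iff hH hp M ιM).2 (H19B.sel_downB hH hp hL hMK hKL ((selB_iff hH hp K ιK).1 h)), hN⟩
  · rintro ⟨h, hN⟩
    exact (selB_iff hH hp K ιK).2 (H19B.selB hH hp hsp hB hL hMK hKL hN ((selB_iff hH hp M ιM).1 h)).1


end split


end H35U
end
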