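import Mathlib
import Pool.Agent.Lib.H1M.PP2.D_H35U_MainB
import Pool.Agent.Lib.H1M.PP2.D_H55G_D0
import Pool.Agent.Lib.H1M.PP2.D_SSU_G2D
import Pool.Agent.Lib.H1M.PP2.M101
import Pool.Agent.Lib.H1M.PP2.M169

/-! # H35V: the relative theorem without the hypothesis on the bad primes: structures -/

open NumberField IsDedekindDomain WeierstrassCurve

namespace H35V

open H55P (IQ UnrP PExt)
open H55K H55K.TQ
open H13R (NoRel LUnitG)
open H55G (OkM)
open H35U (NT)

/-- FM and FK are the fields generated by F and M, F and K in the algebraic closure of F. FM is contained in FK, FK is contained in a Galois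
extension L of FM of degree a power of p; if p is inert in F then the second ramification groups of L over FM at the primes above p are
trivial; at the primes of FM which divide the discriminant of W and at which W has good reduction over FM, p does not divide the number of
points of the reduction of a minimal equation (OkM). -/
structure TowerO (F : Type) [Field F] [NumberField F] (p : ℕ) (W : WeierstrassCurve ℤ) (M K : Type) [Field M] [NumberField M] [Field K]
    [NumberField K] (ιM : M →ₐ[ℚ] AlgebraicClosure F) (ιK : K →ₐ[ℚ] AlgebraicClosure F) : Prop where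
  sub : KG F M ιM ≤ KG F K ιK
  ext : ∃ (L : IntermediateField F (AlgebraicClosure F)) (_ : NumberField L), PExt p (KG F M ιM) L ∧
    ((Ideal.span {(p : 𝓞 F)}).IsPrime → SSU.G2F p (KG F M ιM) L) ∧ KG F K ιK ≤ L
  ok : OkM p (W⁄(𝓞 F)) (KG F M ιM)

/-- The same without the condition on the ramification. -/
structure TowerP (F : Type) [Field F] [NumberField F] (p : ℕ) (W : WeierstrassCurve ℤ) (M K : Type) [Field M] [NumberField M] [Field K]
    [NumberField K] (ιM : M →ₐ[ℚ] AlgebraicClosure F) (ιK : K →ₐ[ℚ] AlgebraicClosure F) : Prop where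
  sub : KG F M ιM ≤ KG F K ιK
  ext : ∃ (L : IntermediateField F (AlgebraicClosure F)) (_ : NumberField L), PExt p (KG F M ιM) L ∧ KG F K ιK ≤ L
  ok : OkM p (W⁄(𝓞 F)) (KG F M ιM)

/-- The conclusions over K and M for arbitrary ramification. NoRel: no prime v of FM, not dividing the discriminant of W, with p | #W(k_v), is
ramified in FK. NT: no point of order p over M. -/
structure OverP (F : Type) [Field F] [NumberField F] (p : ℕ) (W : WeierstrassCurve ℤ) (M K : Type) [Field M] [NumberField M] [Field K]
    [NumberField K] (ιM : M →ₐ[ℚ] AlgebraicClosure F) (ιK : K →ₐ[ℚ] AlgebraicClosure F) : Prop where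
  dn : H55P.SelTriv (W⁄K) p → H55P.SelTriv (W⁄M) p
  selnon : ¬ NoRel p (W⁄(𝓞 F)) (KG F M ιM) (KG F K ιK) → H13Z.SelNonT (W⁄K) p
  int : NT p W M → AnIntG p W K
  nt : UnrP p (KG F M ιM) ∨ H55P.SelTriv (W⁄M) p → NT p W M

end H35V
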