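import Mathlib
import Pool.Agent.Lib.H1M.PP2.M005
import Pool.Agent.Lib.H1M.PP2.M006

/-! Merged copies (to shorten the build) of Lib.H16S.F3, Lib.H16S.Q5, Lib.SSG.LT.RV, Lib.SSG.LT.TH1, Lib.SSG.LT.TH2, Lib.SSG.LT.TH3, Lib.SSG.LT.TV, Lib.SSG.F.E0, Lib.SSG.F.L3. -/

-- from Lib.H16S.F3
section

/-! # H16S, chunk F3 (S/M): finite abelian groups with one element of order 2 -/

namespace H16S

/-- Chunk F3 (S/M). If 4 divides the order of M and M has at most one element of order 2 there is an element of order 4. PROOF. |M| = |M[2]| |2 M| (first isomorphism theorem for x ↦ 2 x), |M[2]| ≤ 2, so |2M| is even; Cauchy (exists_prime_addOrderOf_dvd_card): an element of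
order 2 in 2 M, u = 2 z. -/
theorem f3 {M : Type} [AddCommGroup M] [Finite M] (h4 : 4 ∣ Nat.card M)
    (h1 : ∀ x y : M, 2 • x = 0 → 2 • y = 0 → x ≠ 0 → y ≠ 0 → x = y) : ∃ z : M, 4 • z = 0 ∧ 2 • z ≠ 0 := by
  classical
  set g : M →+ M := nsmulAddMonoidHom 2 with hg
  have hgx : ∀ x, g x = 2 • x := fun x => rfl
  have hker : Nat.card g.ker ≤ 2 := by
    have hb : Nat.card Bool = 2 := by
      rw [Nat.card_eq_fintype_card, Fintype.card_bool]
    rw [← hb]
    refine Nat.card_le_card_of_injective (fun x : g.ker => decide (x = 0)) fun x y hxy => ?_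
    have hxy' : (x = 0) ↔ (y = 0) := decide_eq_decide.1 hxy
    by_cases hx : x = 0
    · rw [hx, hxy'.1 hx]
    · have hy : y ≠ 0 := fun h => hx (hxy'.2 h)
      refine Subtype.ext (h1 _ _ ?_ ?_ ?_ ?_)
      · rw [← hgx]
        exact x.2
      · rw [← hgx]
        exact y.2
      · exact fun h => hx (Subtype.ext h)
      · exact fun h => hy (Subtype.ext h)
  have hc : Nat.card M = Nat.card g.range * Nat.card g.ker := by
    rw [AddSubgroup.card_eq_card_quotient_mul_card_addSubgroup g.ker,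
      Nat.card_congr (QuotientAddGroup.quotientKerEquivRange g).toEquiv]
  have hpos : 0 < Nat.card g.ker := Nat.card_pos
  have h2 : 2 ∣ Nat.card g.range := by
    rw [hc] at h4
    generalize Nat.card g.ker = k at *
    generalize Nat.card g.range = r at *
    have hk : k = 1 ∨ k = 2 := by omega
    rcases hk with rfl | rfl
    · omega
    · omega
  obtain ⟨u, hu⟩ := exists_prime_addOrderOf_dvd_card' (G := g.range) 2 h2
  obtain ⟨z, hz⟩ := u.2
  rw [hgx] at hz
  refine ⟨z, ?_, ?_⟩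
  · have e : (4 : ℕ) • z = 2 • (2 • z) := by rw [← mul_nsmul]
    rw [e, hz]
    have := addOrderOf_nsmul_eq_zero u
    rw [hu] at this
    exact congrArg Subtype.val this
  · rw [hz]
    intro h0
    have : u = 0 := Subtype.ext h0
    rw [this, addOrderOf_zero] at hu
    exact absurd hu (by norm_num)

end H16S
end

-- from Lib.H16S.Q5
section

/-! # H16S, chunk Q5 (M): a contraction -/

namespace H16S

/-- Chunk Q5 (M), only Mathlib. PROOF. S = the closed ball ‖z‖ ≤ ‖p‖ of the complete field K. T(z) = (c - (E z - p z))/p. On S: ‖E z - p z‖ ≤ max(‖p‖ ‖z‖², ‖z‖^(p²)) ≤ ‖p‖² (indeed ≤ ‖p‖³; N = p² ≥ 4), so ‖T z‖ ≤ ‖p‖ (‖c‖ ≤ ‖p‖²). ‖T z - T z'‖ ≤ ‖p‖ ‖z - z'‖, ‖p‖ < 1: a contraction of the complete space S: a fixed point z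
(ContractingWith.exists_fixedPoint' or ContractingWith.fixedPoint on the subtype): p z = c - E z + p z, so E z = c. -/
theorem q5 {K : Type} [NormedField K] [IsUltrametricDist K] [CompleteSpace K] {q : K} (h0 : 0 < ‖q‖) (h1 : ‖q‖ < 1) {N : ℕ} (hN : 4 ≤ N)
    (E : K → K) (hE : ∀ z, ‖z‖ < 1 → ‖E z - q * z + z ^ N‖ ≤ ‖q‖ * ‖z‖ ^ 2)
    (hE2 : ∀ z z', ‖z‖ ≤ ‖q‖ → ‖z'‖ ≤ ‖q‖ → ‖(E z - q * z) - (E z' - q * z')‖ ≤ ‖q‖ ^ 2 * ‖z - z'‖) {c : K} (hc : ‖c‖ ≤ ‖q‖ ^ 2) :
    ∃ z, ‖z‖ ≤ ‖q‖ ∧ E z = c := by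
  have hq : q ≠ 0 := norm_pos_iff.1 h0
  set T : K → K := fun z => (c - (E z - q * z)) / q with hT
  set s : Set K := {z | ‖z‖ ≤ ‖q‖} with hs
  have hsc : IsComplete s := by
    have h2 : IsClosed s := isClosed_le continuous_norm continuous_const
    exact h2.isComplete
  have hb : ∀ z ∈ s, ‖E z - q * z‖ ≤ ‖q‖ ^ 2 := by
    intro z hz
    have hz' : ‖z‖ ≤ ‖q‖ := hz
    have h2 := hE z (lt_of_le_of_lt hz' h1)
    have h3 : E z - q * z = (E z - q * z + z ^ N) - z ^ N := by ring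
    rw [h3, sub_eq_add_neg]
    refine (IsUltrametricDist.norm_add_le_max _ _).trans (max_le ?_ ?_)
    · refine h2.trans ?_
      have h4 : ‖z‖ ^ 2 ≤ ‖q‖ := by
        calc ‖z‖ ^ 2 ≤ ‖q‖ ^ 2 := pow_le_pow_left₀ (norm_nonneg _) hz' 2
          _ ≤ ‖q‖ ^ 1 := pow_le_pow_of_le_one h0.le h1.le (by norm_num)
          _ = ‖q‖ := pow_one _
      calc ‖q‖ * ‖z‖ ^ 2 ≤ ‖q‖ * ‖q‖ := mul_le_mul_of_nonneg_left h4 h0.le
        _ = ‖q‖ ^ 2 := by ring
    · rw [norm_neg, norm_pow]
      calc ‖z‖ ^ N ≤ ‖q‖ ^ N := pow_le_pow_left₀ (norm_nonneg _) hz' N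
        _ ≤ ‖q‖ ^ 2 := pow_le_pow_of_le_one h0.le h1.le (by omega)
  have hmap : Set.MapsTo T s s := by
    intro z hz
    change ‖(c - (E z - q * z)) / q‖ ≤ ‖q‖
    rw [norm_div, div_le_iff₀ h0, sub_eq_add_neg]
    refine (IsUltrametricDist.norm_add_le_max _ _).trans (max_le ?_ ?_)
    · exact hc.trans (le_of_eq (by ring))
    · rw [norm_neg]
      exact (hb z hz).trans (le_of_eq (by ring))
  have hcon : ContractingWith ‖q‖₊ (hmap.restrict T s s) := by
    refine ⟨by exact_mod_cast h1, LipschitzWith.of_dist_le_mul ?_⟩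
    rintro ⟨z, hz⟩ ⟨z', hz'⟩
    rw [Subtype.dist_eq, Subtype.dist_eq, dist_eq_norm, dist_eq_norm]
    change ‖(c - (E z - q * z)) / q - (c - (E z' - q * z')) / q‖ ≤ ‖q‖ * ‖z - z'‖
    have h2 : (c - (E z - q * z)) / q - (c - (E z' - q * z')) / q =
        -((E z - q * z) - (E z' - q * z')) / q := by ring
    rw [h2, norm_div, norm_neg, div_le_iff₀ h0]
    exact (hE2 z z' hz hz').trans (le_of_eq (by ring))
  have h0s : (0 : K) ∈ s := by
    change ‖(0 : K)‖ ≤ ‖q‖
    rw [norm_zero]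
    exact h0.le
  obtain ⟨z, hz, hfix, -⟩ := ContractingWith.exists_fixedPoint' hsc hmap hcon h0s
    (edist_ne_top _ _)
  refine ⟨z, hz, ?_⟩
  have h2 : (c - (E z - q * z)) / q = z := hfix
  rw [div_eq_iff hq] at h2
  linear_combination -h2

end H16S
end

-- from Lib.SSG.LT.RV
section

/-! # SSG/LT: the local ring of F at the inert prime p -/

open NumberField

namespace SSG.LT

variable {F : Type} [Field F] [NumberField F] {Ω : Type} [Field Ω] [Algebra F Ω]

/-! Chunk RV (M). V' = V.comap (algebraMap F Ω), a valuation ring of F with V'(p) < 1. PROOF. (0) V.valuation (x) ≤ 1 for integers (IsIntegral: H55K.ak_le is for its own setting; here: 𝓞 F elements are integral over ℤ and V' is integrally closed: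
isIntegrallyClosed / `Valuation.Integers`; or import H13S.vw_int). The elements a of 𝓞 F with value < 1 form a proper prime ideal containing (p), which is maximal (a nonzero prime ideal of a Dedekind domain): so value < 1 iff p ∣ a.
(1) rv_frac: every x in V' is a/b, a, b in 𝓞 F, p not dividing b: write x = a/b with b ≠ 0 (IsFractionRing / IsLocalization.mk' surj.) and cancel powers of p (finitely many: p^n ∣ b only for n ≤ N: `multiplicity`/
exists_pow_not_dvd: UniqueFactorizationMonoid is not available: use WfDvdMonoid of 𝓞 F (Noetherian domain): exists maximal n with p^n ∣ b, b = p^n b'; p ∤ b'; then x b' = a / p^n has value ≤ 1, so value of a ≤ value of p^n: then p^n ∣ a by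
induction on n (value of a < 1 implies p ∣ a)). (2) rv_fermat: 𝓞 F ⧸ (p) is a finite field with p^2 elements (Ideal.absNorm of (p) = p ^ finrank = p^2: Ideal.absNorm_span_singleton, Algebra.norm_algebraMap / absNorm_span_natCast..;
FiniteField.pow_card): p ∣ a^q - a for all a in 𝓞 F; for x = a/b: x^q - x = (a^q b - a b^q)/b^(q+1) and a^q b - a b^q = (a^q - a) b - a (b^q - b). Divisibility by -p in V' : y/(-p) in V'. (3) rv_unit: (-p)^n - 1 has value 1 in V' (value of
(-p)^n < 1): IsUnit. -/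

omit [NumberField F] in
theorem rv_mem (V : ValuationSubring Ω) (x : F) : x ∈ V.comap (algebraMap F Ω) ↔ V.valuation (algebraMap F Ω x) ≤ 1 := by
  rw [ValuationSubring.mem_comap, V.valuation_le_one_iff]

omit [NumberField F] in
theorem rv_int (V : ValuationSubring Ω) (a : 𝓞 F) : V.valuation (algebraMap F Ω (a : F)) ≤ 1 := by
  have h1 : IsIntegral ℤ (algebraMap F Ω (a : F)) := (RingOfIntegers.isIntegral_coe a).map (algebraMap F Ω).toIntAlgHom
  have h2 : IsIntegral V (algebraMap F Ω (a : F)) := h1.tower_top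
  obtain ⟨y, hy⟩ := (IsIntegrallyClosed.isIntegral_iff (R := V) (K := Ω)).1 h2
  rw [V.valuation_le_one_iff, ← hy]
  exact y.2

omit [NumberField F] in
theorem rv_p (_V : ValuationSubring Ω) (p : ℕ) : algebraMap F Ω (((p : 𝓞 F) : 𝓞 F) : F) = (p : Ω) := by
  have h : ((p : 𝓞 F) : F) = (p : F) := map_natCast (algebraMap (𝓞 F) F) p
  rw [h, map_natCast]

/-- Divisibility. -/
theorem rv_dvd (p : ℕ) (hp : p ≠ 0) [CharZero Ω] (V : ValuationSubring Ω) (x : V.comap (algebraMap F Ω))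
    (h : V.valuation (algebraMap F Ω (x : F)) ≤ V.valuation (p : Ω)) :
    (-(p : V.comap (algebraMap F Ω))) ∣ x := by
  have hpF : (p : F) ≠ 0 := Nat.cast_ne_zero.2 hp
  have hpO : (p : Ω) ≠ 0 := Nat.cast_ne_zero.2 hp
  have hvp : V.valuation (p : Ω) ≠ 0 := (Valuation.ne_zero_iff _).2 hpO
  have hy : -(x : F) / (p : F) ∈ V.comap (algebraMap F Ω) := by
    rw [rv_mem, map_div₀, map_neg, map_natCast, map_div₀, Valuation.map_neg]
    exact div_le_one_of_le₀ h zero_le
  refine ⟨⟨_, hy⟩, Subtype.ext ?_⟩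
  show (x : F) = -((p : V.comap (algebraMap F Ω)) : F) * (-(x : F) / (p : F))
  have e : ((p : V.comap (algebraMap F Ω)) : F) = (p : F) := rfl
  rw [e]
  field_simp

/-- Units. -/
theorem rv_unit (p : ℕ) (V : ValuationSubring Ω) (hV : V.valuation (p : Ω) < 1) (n : ℕ) (hn : 1 ≤ n) :
    IsUnit ((-(p : V.comap (algebraMap F Ω))) ^ n - 1) := by
  have h1 : V.valuation ((-(p : Ω)) ^ n - 1) = 1 := by
    rw [Valuation.map_sub_swap]
    refine Valuation.map_one_sub_of_lt _ ?_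
    rw [map_pow, Valuation.map_neg]
    exact pow_lt_one₀ zero_le hV (by omega)
  have h2 : algebraMap F Ω ((-(p : F)) ^ n - 1) = (-(p : Ω)) ^ n - 1 := by
    rw [map_sub, map_pow, map_neg, map_natCast, map_one]
  have h3 : (-(p : F)) ^ n - 1 ≠ 0 := by
    intro h0
    rw [← h2, h0, map_zero, map_zero] at h1
    exact zero_ne_one h1
  have h4 : ((-(p : F)) ^ n - 1)⁻¹ ∈ V.comap (algebraMap F Ω) := by
    rw [rv_mem, map_inv₀, h2, map_inv₀, h1, inv_one]
  refine IsUnit.of_mul_eq_one ⟨_, h4⟩ (Subtype.ext ?_)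
  show ((-(p : F)) ^ n - 1) * ((-(p : F)) ^ n - 1)⁻¹ = 1
  exact mul_inv_cancel₀ h3

theorem rv_lt (p : ℕ) (hin : Prime (p : 𝓞 F)) (V : ValuationSubring Ω) (hV : V.valuation (p : Ω) < 1) (a : 𝓞 F) :
    V.valuation (algebraMap F Ω (a : F)) < 1 ↔ (p : 𝓞 F) ∣ a := by
  constructor
  · intro h
    by_contra hd
    have h1 : (Ideal.span {(p : 𝓞 F)}).IsPrime := (Ideal.span_singleton_prime hin.ne_zero).2 hin
    have h2 : (Ideal.span {(p : 𝓞 F)}) ≠ ⊥ := fun h0 => hin.ne_zero (Ideal.span_singleton_eq_bot.1 h0)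
    have h3 := h1.isMaximal h2
    obtain ⟨y, i, hi, hyi⟩ := h3.exists_inv (fun hm => hd (Ideal.mem_span_singleton.1 hm) :
      a ∉ Ideal.span {(p : 𝓞 F)})
    obtain ⟨c, rfl⟩ := Ideal.mem_span_singleton.1 hi
    have h4 : algebraMap F Ω (y : F) * algebraMap F Ω (a : F) + (p : Ω) * algebraMap F Ω (c : F) = 1 := by
      have h6 := congrArg ((algebraMap F Ω).comp (algebraMap (𝓞 F) F)) hyi
      rw [map_add, map_mul, map_mul, map_one, map_natCast] at h6
      exact h6
    have h5 : V.valuation (1 : Ω) < 1 := by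
      rw [← h4]
      refine V.valuation.map_add_lt ?_ ?_
      · rw [map_mul]
        exact (mul_le_of_le_one_left' (rv_int V y)).trans_lt h
      · rw [map_mul]
        exact (mul_le_of_le_one_right' (rv_int V c)).trans_lt hV
    rw [map_one] at h5
    exact lt_irrefl _ h5
  · rintro ⟨c, rfl⟩
    have e : algebraMap F Ω (((p : 𝓞 F) * c : 𝓞 F) : F) = (p : Ω) * algebraMap F Ω (c : F) := by
      rw [← rv_p (F := F) V p, ← map_mul]
      rfl
    rw [e, map_mul]
    exact (mul_le_of_le_one_right' (rv_int V c)).trans_lt hV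

theorem rv_frac (p : ℕ) (hin : Prime (p : 𝓞 F)) (V : ValuationSubring Ω) (hV : V.valuation (p : Ω) < 1) (n : ℕ) :
    ∀ a b : 𝓞 F, b ≠ 0 → ¬ (p : 𝓞 F) ^ n ∣ b →
      V.valuation (algebraMap F Ω (a : F)) ≤ V.valuation (algebraMap F Ω (b : F)) →
      ∃ a' b' : 𝓞 F, ¬ (p : 𝓞 F) ∣ b' ∧ a * b' = a' * b := by
  have : CharZero Ω := charZero_of_injective_algebraMap (algebraMap F Ω).injective
  induction n with
  | zero =>
    intro a b _ h
    exact absurd (by rw [pow_zero]; exact one_dvd b) h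
  | succ n ih =>
    intro a b hb h hab
    by_cases hpb : (p : 𝓞 F) ∣ b
    · have ha : (p : 𝓞 F) ∣ a := by
        rw [← rv_lt p hin V hV]
        exact hab.trans_lt ((rv_lt p hin V hV b).2 hpb)
      obtain ⟨b₁, rfl⟩ := hpb
      obtain ⟨a₁, rfl⟩ := ha
      have hb₁ : b₁ ≠ 0 := right_ne_zero_of_mul hb
      have h1 : ¬ (p : 𝓞 F) ^ n ∣ b₁ := fun hd => h (by rw [pow_succ']; exact mul_dvd_mul_left _ hd)
      have e : ∀ c : 𝓞 F, V.valuation (algebraMap F Ω (((p : 𝓞 F) * c : 𝓞 F) : F)) =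
          V.valuation (p : Ω) * V.valuation (algebraMap F Ω (c : F)) := by
        intro c
        rw [← map_mul, ← rv_p (F := F) V p, ← map_mul]
        rfl
      rw [e, e] at hab
      have hp0 : (p : Ω) ≠ 0 := by
        have h2 : (p : 𝓞 F) ≠ 0 := hin.ne_zero
        intro h0
        apply h2
        have h3 : (p : ℕ) = 0 := Nat.cast_eq_zero.1 h0
        rw [h3, Nat.cast_zero]
      have hvp : 0 < V.valuation (p : Ω) := zero_lt_iff.2 ((Valuation.ne_zero_iff _).2 hp0)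
      have h2 := (mul_le_mul_iff_right₀ hvp).1 hab
      obtain ⟨a', b', hb', hab'⟩ := ih a₁ b₁ hb₁ h1 h2
      exact ⟨a', b', hb', by linear_combination (p : 𝓞 F) * hab'⟩
    · exact ⟨a, b, hpb, rfl⟩

theorem rv_card (h2 : Module.finrank ℚ F = 2) (p : ℕ) (hp : p.Prime) (hin : Prime (p : 𝓞 F)) (a : 𝓞 F) :
    (p : 𝓞 F) ∣ a ^ p ^ 2 - a := by
  classical
  have h1 : (Ideal.span {(p : 𝓞 F)}).IsPrime := (Ideal.span_singleton_prime hin.ne_zero).2 hin
  have hb : (Ideal.span {(p : 𝓞 F)}) ≠ ⊥ := fun h0 => hin.ne_zero (Ideal.span_singleton_eq_bot.1 h0)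
  have h3 : (Ideal.span {(p : 𝓞 F)}).IsMaximal := h1.isMaximal hb
  let : Field (𝓞 F ⧸ Ideal.span {(p : 𝓞 F)}) := Ideal.Quotient.field _
  have hc : Nat.card (𝓞 F ⧸ Ideal.span {(p : 𝓞 F)}) = p ^ 2 := by
    have h4 : Ideal.absNorm (Ideal.span {(p : 𝓞 F)}) = p ^ 2 := by
      rw [Ideal.absNorm_span_singleton]
      have h5 : (p : 𝓞 F) = algebraMap ℤ (𝓞 F) (p : ℤ) := by simp
      rw [h5, Algebra.norm_algebraMap, RingOfIntegers.rank, h2, Int.natAbs_pow, Int.natAbs_natCast]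
    rw [← h4, Ideal.absNorm_apply, Submodule.cardQuot_apply]
  have : Finite (𝓞 F ⧸ Ideal.span {(p : 𝓞 F)}) := Nat.finite_of_card_ne_zero (by
    rw [hc]
    exact pow_ne_zero 2 hp.ne_zero)
  have : Fintype (𝓞 F ⧸ Ideal.span {(p : 𝓞 F)}) := Fintype.ofFinite _
  have h6 := FiniteField.pow_card (Ideal.Quotient.mk (Ideal.span {(p : 𝓞 F)}) a)
  rw [← Nat.card_eq_fintype_card, hc] at h6
  rw [← Ideal.mem_span_singleton, ← Ideal.Quotient.eq_zero_iff_mem, map_sub, map_pow, h6, sub_self]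

/-- Fermat. -/
theorem rv_fermat (h2 : Module.finrank ℚ F = 2) (p : ℕ) (hp : p.Prime) (hin : Prime (p : 𝓞 F)) (V : ValuationSubring Ω)
    (hV : V.valuation (p : Ω) < 1) (x : V.comap (algebraMap F Ω)) :
    (-(p : V.comap (algebraMap F Ω))) ∣ x ^ p ^ 2 - x := by
  have : CharZero Ω := charZero_of_injective_algebraMap (algebraMap F Ω).injective
  refine rv_dvd p hp.ne_zero V _ ?_
  obtain ⟨x, hx⟩ := x
  rw [rv_mem] at hx
  show V.valuation (algebraMap F Ω (x ^ p ^ 2 - x)) ≤ V.valuation (p : Ω)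
  set q := p ^ 2 with hq
  obtain ⟨a, b, hb0, rfl⟩ := IsFractionRing.div_surjective (A := 𝓞 F) x
  have hb : b ≠ 0 := nonZeroDivisors.ne_zero hb0
  have hbF : (b : F) ≠ 0 := fun h0 => hb (RingOfIntegers.coe_injective (h0.trans (map_zero _).symm))
  have hbO : algebraMap F Ω (b : F) ≠ 0 := (map_ne_zero _).2 hbF
  have hvb : 0 < V.valuation (algebraMap F Ω (b : F)) := zero_lt_iff.2 ((Valuation.ne_zero_iff _).2 hbO)
  have hab : V.valuation (algebraMap F Ω (a : F)) ≤ V.valuation (algebraMap F Ω (b : F)) := by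
    have h3 : V.valuation (algebraMap F Ω ((a : F) / (b : F))) ≤ 1 := hx
    rw [map_div₀, map_div₀] at h3
    exact (div_le_one₀ hvb).1 h3
  obtain ⟨n, hn⟩ := FiniteMultiplicity.of_not_isUnit hin.not_isUnit hb
  obtain ⟨a', b', hb', he⟩ := rv_frac p hin V hV (n + 1) a b hb hn hab
  have hb'0 : b' ≠ 0 := by
    rintro rfl
    exact hb' (dvd_zero _)
  have hb'F : (b' : F) ≠ 0 := fun h0 => hb'0 (RingOfIntegers.coe_injective (h0.trans (map_zero _).symm))
  have hvb' : V.valuation (algebraMap F Ω (b' : F)) = 1 :=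
    le_antisymm (rv_int V b') (not_lt.1 fun h => hb' ((rv_lt p hin V hV b').1 h))
  have hx' : (algebraMap (𝓞 F) F a) / (algebraMap (𝓞 F) F b) = (a' : F) / (b' : F) := by
    rw [div_eq_div_iff hbF hb'F]
    have := congrArg (fun z : 𝓞 F => (z : F)) he
    push_cast at this
    exact this
  rw [hx']
  obtain ⟨c, hc⟩ := rv_card h2 p hp hin a'
  obtain ⟨d, hd⟩ := rv_card h2 p hp hin b'
  rw [← hq] at hc hd
  have hcF : (a' : F) ^ q - (a' : F) = (p : F) * (c : F) := by
    have := congrArg (fun z : 𝓞 F => (z : F)) hc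
    push_cast at this
    exact this
  have hdF : (b' : F) ^ q - (b' : F) = (p : F) * (d : F) := by
    have := congrArg (fun z : 𝓞 F => (z : F)) hd
    push_cast at this
    exact this
  have e : ((a' : F) / (b' : F)) ^ q - (a' : F) / (b' : F) =
      (p : F) * ((c * b' - a' * d : 𝓞 F) : F) / (b' : F) ^ (q + 1) := by
    rw [div_pow, pow_succ]
    push_cast
    field_simp
    linear_combination (b' : F) * hcF - (a' : F) * hdF
  rw [e, map_div₀, map_mul, map_pow, map_natCast, map_div₀, map_mul, map_pow, hvb', one_pow, div_one]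
  exact mul_le_of_le_one_right' (rv_int V _)

end SSG.LT
end

-- from Lib.SSG.LT.TH1
section

/-! # SSG/LT: the Lubin-Tate series theta (algebra) -/

open PowerSeries

namespace SSG.LT

variable {R : Type} [CommRing R]

/-- The polynomial with the first coefficients `a 0, ..., a (n - 1)`. -/
noncomputable def TT (a : ℕ → R) (n : ℕ) : Polynomial R :=
  ∑ k ∈ Finset.range n, Polynomial.C (a k) * Polynomial.X ^ k

/-- The defect of the functional equation `T (f) = π T + T ^ q`. -/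
noncomputable def De (π : R) (q : ℕ) (f : R⟦X⟧) (T : Polynomial R) : R⟦X⟧ :=
  T.eval₂ C f - (C π * (T : R⟦X⟧) + (T : R⟦X⟧) ^ q)

/-! Chunk TH1 (M). PROOF. S := R ⧸ (π), characteristic p (or S trivial: then everything is 0, Ideal.Quotient.eq_zero_iff_dvd / subsingleton): if S is nontrivial then CharP S p
(charP_of_prime..: (p : S) = 0 and p prime: CharP.of_prime? use `CharP.charP_iff_prime_eq_zero`). Let red : R →+* S and redX = PowerSeries.map red. It is enough: redX (De π q f T) = 0 (then every coefficient is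
0 in S: Ideal.Quotient.eq_zero_iff_mem, mem_span_singleton). redX f = X ^ q (coefficientwise from fq, fq'; coeff_X_pow). redX (T.eval₂ C f) = (T.map red).eval₂ C (X ^ q) (Polynomial.hom_eval₂, eval₂_map) =
the power series of Polynomial.expand S q (T.map red). And (T.map red) ^ q = expand q (T.map red): Polynomial.map_expand_pow_char / map_iterateFrobenius_expand: map (frobenius ^ e) (expand S (p ^ e) g) = g ^ (p ^ e),
and the map is the identity because x ^ q = x in S (h1, Ideal.Quotient.mk_surjective). -/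

/-- The defect is divisible by `π`. -/
theorem th1_dvd {π : R} {p e : ℕ} (hp : p.Prime) (h1 : ∀ x : R, π ∣ x ^ p ^ e - x) (h2 : π ∣ (p : R))
    {f : R⟦X⟧} (fq : ∀ n, n ≠ p ^ e → π ∣ coeff n f) (fq' : π ∣ coeff (p ^ e) f - 1)
    (T : Polynomial R) (n : ℕ) : π ∣ coeff n (De π (p ^ e) f T) := by
  set red := Ideal.Quotient.mk (Ideal.span ({π} : Set R)) with hred
  have hmem : ∀ x : R, red x = 0 ↔ π ∣ x := fun x => Ideal.Quotient.eq_zero_iff_dvd π x
  rw [← hmem]
  rcases subsingleton_or_nontrivial (R ⧸ Ideal.span ({π} : Set R)) with hS | hS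
  · exact Subsingleton.elim _ _
  have : Fact p.Prime := ⟨hp⟩
  have : CharP (R ⧸ Ideal.span ({π} : Set R)) p := by
    apply (CharP.charP_iff_prime_eq_zero hp).2
    have h3 := (hmem (p : R)).2 h2
    rw [map_natCast] at h3
    exact h3
  have h3 : PowerSeries.map red (De π (p ^ e) f T) = 0 := by
    have hf : PowerSeries.map red f = X ^ (p ^ e) := by
      ext m
      rw [coeff_map, coeff_X_pow]
      split_ifs with hm
      · rw [hm]
        have h4 := (hmem _).2 fq'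
        rw [map_sub, map_one, sub_eq_zero] at h4
        exact h4
      · exact (hmem _).2 (fq m hm)
    have hpi : red π = 0 := (hmem π).2 (dvd_refl π)
    unfold De
    rw [map_sub, map_add, map_mul, PowerSeries.map_C, hpi, map_zero, zero_mul, zero_add, map_pow,
      sub_eq_zero, Polynomial.hom_eval₂, hf]
    have hcomp : (PowerSeries.map red).comp (C (R := R)) = (C).comp red := by
      ext x
      simp
    rw [hcomp, ← Polynomial.eval₂_map, ← Polynomial.polynomial_map_coe]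
    set g := Polynomial.map red T with hg
    have hpow : g ^ (p ^ e) = Polynomial.expand _ (p ^ e) g := by
      rw [← Polynomial.map_iterateFrobenius_expand p g e]
      have h5 : iterateFrobenius (R ⧸ Ideal.span ({π} : Set R)) p e = RingHom.id _ := by
        refine RingHom.ext fun x => ?_
        obtain ⟨y, hy⟩ := Ideal.Quotient.mk_surjective x
        rw [iterateFrobenius_def, ← hy]
        have h6 := (hmem _).2 (h1 y)
        rw [map_sub, map_pow, sub_eq_zero] at h6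
        exact h6
      rw [h5, Polynomial.map_id]
    rw [← Polynomial.coe_pow, hpow, Polynomial.expand_eq_sum, Polynomial.eval₂_def,
      Polynomial.sum_def, Polynomial.sum_def, ← Polynomial.coeToPowerSeries.ringHom_apply, map_sum]
    refine Finset.sum_congr rfl fun i _ => ?_
    rw [map_mul, map_pow, Polynomial.coeToPowerSeries.ringHom_apply,
      Polynomial.coeToPowerSeries.ringHom_apply, Polynomial.coe_C, Polynomial.coe_pow,
      Polynomial.coe_X]
  have h4 := congrArg (coeff n) h3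
  rw [coeff_map, map_zero] at h4
  exact h4

end SSG.LT
end

-- from Lib.SSG.LT.TH2
section

/-! # SSG/LT: the Lubin-Tate series theta (algebra) -/

open PowerSeries

namespace SSG.LT

variable {R : Type} [CommRing R]

/-! Chunk TH2 (M). PROOF. (T + c X^n).eval₂ C f - T.eval₂ C f = C c * f ^ n, and the coefficient n of f ^ n is π ^ n, the lower coefficients are 0 (f = X * g with constant coefficient of g equal to π: X_dvd_iff, f ^ n = X ^ n g ^ n,
coeff_X_pow_mul'). C π * (c X ^ n). (T + c X^n)^q - T^q is divisible by (c X^n) (..) where (..) = sum of products of q - 1 factors T or T + c X^n, all divisible by X: sub_dvd_pow_sub_pow / Commute.geom_sum₂_mul: T = X * T',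
n ≥ 2 and q ≥ 2: so it is divisible by X ^ (n + 1). -/

/-- The coefficient of degree `n` of the defect after adding `c X^n`; the lower ones do not change. -/
theorem th2_coeff {π : R} {q n : ℕ} (hq : 2 ≤ q) (hn : 2 ≤ n) {f : R⟦X⟧} (f0 : constantCoeff f = 0) (f1 : coeff 1 f = π)
    {T : Polynomial R} (hT : T.coeff 0 = 0) (c : R) :
    (∀ k < n, coeff k (De π q f (T + Polynomial.C c * Polynomial.X ^ n)) = coeff k (De π q f T)) ∧
      coeff n (De π q f (T + Polynomial.C c * Polynomial.X ^ n)) = coeff n (De π q f T) + c * (π ^ n - π) := by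
  set Y : R⟦X⟧ := C c * X ^ n with hY
  set t : R⟦X⟧ := (T : R⟦X⟧) with ht
  have hXt : (X : R⟦X⟧) ∣ t := by
    rw [X_dvd_iff, ht, Polynomial.constantCoeff_coe, hT]
  have hXY : (X : R⟦X⟧) ∣ Y := by
    rw [hY]
    exact Dvd.dvd.mul_left (dvd_pow_self X (by omega)) _
  have hpow : (X : R⟦X⟧) ^ (n + 1) ∣ (t + Y) ^ q - t ^ q := by
    have h1 := (Commute.all (t + Y) t).mul_geom_sum₂ q
    rw [← h1, add_sub_cancel_left, hY, pow_succ]
    refine mul_dvd_mul (Dvd.intro_left (C c) rfl) (Finset.dvd_sum fun i hi => ?_)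
    have hi' := Finset.mem_range.1 hi
    rcases Nat.eq_zero_or_pos i with h0 | h0
    · refine Dvd.dvd.mul_left (hXt.trans (dvd_pow_self t ?_)) _
      omega
    · exact Dvd.dvd.mul_right ((dvd_add hXt hXY).trans (dvd_pow_self _ (by omega))) _
  have hsplit : De π q f (T + Polynomial.C c * Polynomial.X ^ n) =
      De π q f T + (C c * f ^ n - C π * Y - ((t + Y) ^ q - t ^ q)) := by
    unfold De
    rw [Polynomial.eval₂_add, Polynomial.eval₂_mul, Polynomial.eval₂_C, Polynomial.eval₂_X_pow,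
      Polynomial.coe_add, Polynomial.coe_mul, Polynomial.coe_C, Polynomial.coe_pow,
      Polynomial.coe_X]
    rw [← hY, ← ht]
    ring
  obtain ⟨g, hg⟩ := X_dvd_iff.2 f0
  have hg0 : constantCoeff g = π := by
    rw [← f1, hg, coeff_succ_X_mul 0 g, coeff_zero_eq_constantCoeff_apply]
  have hfn : f ^ n = X ^ n * g ^ n := by
    rw [hg, mul_pow]
  obtain ⟨w, hw⟩ := hpow
  constructor
  · intro k hk
    rw [hsplit, map_add, map_sub, map_sub, coeff_C_mul, hfn, coeff_X_pow_mul', if_neg (by omega),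
      coeff_C_mul, hY, coeff_C_mul, coeff_X_pow, if_neg (by omega), hw, coeff_X_pow_mul',
      if_neg (by omega)]
    ring
  · rw [hsplit, map_add, map_sub, map_sub, coeff_C_mul, hfn, coeff_X_pow_mul', if_pos (le_refl n),
      coeff_C_mul, hY, coeff_C_mul, coeff_X_pow, if_pos rfl, hw, coeff_X_pow_mul',
      if_neg (by omega), Nat.sub_self, coeff_zero_eq_constantCoeff_apply, map_pow, hg0]
    ring

end SSG.LT
end

-- from Lib.SSG.LT.TH3
section

/-! # SSG/LT: the Lubin-Tate series theta (algebra) -/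

open PowerSeries

namespace SSG.LT

variable {R : Type} [CommRing R]

/-! Chunk TH3 (M). PROOF. First the step: for T with T.coeff 0 = 0 and all coefficients of De T of degree < n equal to 0 (n ≥ 2) there is c with the same for T + c X^n and n + 1: th1_dvd: coeff n (De T) = π d;
π ^ n - π = π (π ^ (n-1) - 1), u = π ^ (n-1) - 1 is a unit (h3): c = - d u^-1 (th2_coeff). Then the sequence: by recursion choose T' : ℕ → {T : Polynomial R // T.coeff 0 = 0 ∧ ∀ k < m + 2, coeff k (De T) = 0},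
T' 0 = X (De X = f - π X - X ^ q: the coefficients 0 and 1 vanish, q ≥ 2), T' (m + 1) = T' m + C (c m) X ^ (m + 2) (Classical.choose); a 0 = 0, a 1 = 1, a (m + 2) = c m; TT a (m + 2) = T' m by induction (Finset.sum_range_succ).
Finally X ^ n ∣ De (TT a n): X_pow_dvd_iff; n = 0, 1: clear (TT a 0 = 0: De 0 = 0 as q ≥ 1; TT a 1 = C 0 * 1 = 0). -/

/-- The Lubin-Tate lemma: the series `θ = sum a_n X^n` with `θ (f) = π θ + θ ^ q`. -/
theorem exists_theta {π : R} {p e : ℕ} (hp : p.Prime) (he : 1 ≤ e) (h1 : ∀ x : R, π ∣ x ^ p ^ e - x) (h2 : π ∣ (p : R))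
    (h3 : ∀ n, 1 ≤ n → IsUnit (π ^ n - 1)) {f : R⟦X⟧} (f0 : constantCoeff f = 0) (f1 : coeff 1 f = π)
    (fq : ∀ n, n ≠ p ^ e → π ∣ coeff n f) (fq' : π ∣ coeff (p ^ e) f - 1) :
    ∃ a : ℕ → R, a 0 = 0 ∧ a 1 = 1 ∧ ∀ n, (X : R⟦X⟧) ^ n ∣ De π (p ^ e) f (TT a n) := by
  classical
  have hq : 2 ≤ p ^ e := by
    calc 2 ≤ p := hp.two_le
      _ = p ^ 1 := (pow_one p).symm
      _ ≤ p ^ e := Nat.pow_le_pow_right hp.pos he
  let P : ℕ → Polynomial R → Prop := fun m T => T.coeff 0 = 0 ∧ ∀ k < m + 2, coeff k (De π (p ^ e) f T) = 0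
  have step : ∀ (m : ℕ) (T : {T : Polynomial R // P m T}), ∃ c : R, P (m + 1) (T.1 + Polynomial.C c * Polynomial.X ^ (m + 2)) := by
    rintro m ⟨T, hT0, hT⟩
    obtain ⟨d, hd⟩ := th1_dvd hp h1 h2 fq fq' T (m + 2)
    obtain ⟨u, hu⟩ := h3 (m + 1) (by omega)
    refine ⟨-(d * ((u⁻¹ : Rˣ) : R)), ?_, ?_⟩
    · show (T + Polynomial.C (-(d * ((u⁻¹ : Rˣ) : R))) * Polynomial.X ^ (m + 2)).coeff 0 = 0
      rw [Polynomial.coeff_add, hT0, Polynomial.coeff_C_mul, Polynomial.coeff_X_pow, if_neg (by omega), mul_zero, add_zero]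
    · intro k hk
      have h4 := th2_coeff hq (show 2 ≤ m + 2 by omega) f0 f1 hT0 (-(d * ((u⁻¹ : Rˣ) : R)))
      rcases Nat.lt_or_ge k (m + 2) with h5 | h5
      · exact (h4.1 k h5).trans (hT k h5)
      · have h6 : k = m + 2 := by omega
        rw [h6]
        refine h4.2.trans ?_
        have h7 : π ^ (m + 2) - π = π * (u : R) := by
          rw [hu]
          ring
        rw [hd, h7]
        have h8 : ((u⁻¹ : Rˣ) : R) * (u : R) = 1 := u.inv_mul
        calc π * d + -(d * ((u⁻¹ : Rˣ) : R)) * (π * (u : R)) = π * d - π * d * (((u⁻¹ : Rˣ) : R) * (u : R)) := by ring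
          _ = 0 := by rw [h8, mul_one, sub_self]
  choose cf hcf using step
  have base : P 0 (Polynomial.X : Polynomial R) := by
    refine ⟨Polynomial.coeff_X_zero, ?_⟩
    intro k hk
    have h4 : De π (p ^ e) f (Polynomial.X : Polynomial R) = f - (C π * X + X ^ (p ^ e)) := by
      unfold De
      rw [Polynomial.eval₂_X, Polynomial.coe_X]
    rw [h4, map_sub, map_add, coeff_C_mul, coeff_X_pow, coeff_X, if_neg (show k ≠ p ^ e by omega), add_zero]
    have h5 : k = 0 ∨ k = 1 := by omega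
    rcases h5 with rfl | rfl
    · rw [coeff_zero_eq_constantCoeff_apply, f0, if_neg (by norm_num), mul_zero, sub_zero]
    · rw [f1, if_pos rfl, mul_one, sub_self]
  let S : ∀ m : ℕ, {T : Polynomial R // P m T} := fun m => Nat.rec (motive := fun m => {T : Polynomial R // P m T})
    ⟨Polynomial.X, base⟩ (fun m T => ⟨T.1 + Polynomial.C (cf m T) * Polynomial.X ^ (m + 2), hcf m T⟩) m
  have hS : ∀ m, (S (m + 1)).1 = (S m).1 + Polynomial.C (cf m (S m)) * Polynomial.X ^ (m + 2) := fun m => rfl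
  let a : ℕ → R := fun n => Nat.casesOn n 0 (fun n => Nat.casesOn n 1 fun m => cf m (S m))
  have ha : ∀ m, a (m + 2) = cf m (S m) := fun m => rfl
  have hTT : ∀ m, TT a (m + 2) = (S m).1 := by
    intro m
    induction m with
    | zero =>
      unfold TT
      rw [Finset.sum_range_succ, Finset.sum_range_succ, Finset.sum_range_zero]
      show 0 + Polynomial.C (0 : R) * Polynomial.X ^ 0 + Polynomial.C (1 : R) * Polynomial.X ^ 1 = Polynomial.X
      rw [map_zero, map_one, zero_mul, zero_add, one_mul, pow_one, zero_add]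
    | succ m ih =>
      rw [hS, ← ih, ← ha]
      unfold TT
      rw [Finset.sum_range_succ _ (m + 2)]
  refine ⟨a, rfl, rfl, fun n => ?_⟩
  rw [X_pow_dvd_iff]
  intro k hk
  rcases Nat.lt_or_ge n 2 with hn | hn
  · have h4 : n = 1 := by omega
    subst h4
    have h5 : k = 0 := by omega
    subst h5
    have h6 : TT a 1 = 0 := by
      unfold TT
      rw [Finset.sum_range_one]
      show Polynomial.C (0 : R) * Polynomial.X ^ 0 = 0
      rw [map_zero, zero_mul]
    have h7 : De π (p ^ e) f 0 = 0 := by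
      unfold De
      rw [Polynomial.eval₂_zero, Polynomial.coe_zero, mul_zero, zero_pow (by omega), add_zero, sub_zero]
    rw [h6, h7, map_zero]
  · obtain ⟨m, rfl⟩ := Nat.exists_eq_add_of_le hn
    rw [add_comm 2 m] at hk ⊢
    rw [hTT m]
    exact (S m).2.2 k hk

end SSG.LT
end

-- from Lib.SSG.LT.TV
section

set_option linter.unusedSectionVars false

/-! # SSG/LT: the values of theta -/

namespace SSG.LT

variable {C : Type} [NormedField C] [IsUltrametricDist C] [CompleteSpace C] {R : Type} [CommRing R]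

/-! Chunk TV (M). PROOF. T_n = TT a n. (1) T_n.eval₂ φ z = sum over k < n of φ (a k) z ^ k (Polynomial.eval₂_finset_sum), so ‖sv z - T_n(z)‖ ≤ ‖z‖ ^ n (sv_trunc), the same at w = ev f (‖w‖ ≤ ‖z‖ < 1: ev_apply, sv_dvd with n = 1,
constantCoeff f = 0). (2) ‖ev (De π q f T_n)‖ ≤ ‖z‖ ^ n (ev_dvd), and ev (De ..) = T_n(w) - (φ π T_n(z) + T_n(z) ^ q) (ev_aeval, ev_C; ev (T : R⟦X⟧) = T.eval₂ φ z: Polynomial.coe is eval₂ C X: Polynomial.eval₂_C_X_eq_coe, ev_X).
(3) ‖x ^ q - y ^ q‖ ≤ ‖x - y‖ for ‖x‖, ‖y‖ ≤ 1 (geom_sum₂_mul, IsUltrametricDist.norm_sum_le_of_forall_le_of_nonneg). So ‖sv w - (φ π sv z + (sv z) ^ q)‖ ≤ ‖z‖ ^ n for all n: it is 0 (tendsto_pow_atTop_nhds_zero_of_lt_one). -/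

theorem tv_eval (φ : R →+* C) (a : ℕ → R) (n : ℕ) (z : C) :
    (TT a n).eval₂ φ z = ∑ k ∈ Finset.range n, φ (a k) * z ^ k := by
  unfold TT
  rw [Polynomial.eval₂_finsetSum]
  refine Finset.sum_congr rfl fun k _ => ?_
  rw [Polynomial.eval₂_mul, Polynomial.eval₂_C, Polynomial.eval₂_X_pow]

theorem tv_pow {x y : C} (hx : ‖x‖ ≤ 1) (hy : ‖y‖ ≤ 1) (q : ℕ) : ‖x ^ q - y ^ q‖ ≤ ‖x - y‖ := by
  rw [← geom_sum₂_mul, norm_mul]
  refine mul_le_of_le_one_left (norm_nonneg _) ?_
  refine IsUltrametricDist.norm_sum_le_of_forall_le_of_nonneg zero_le_one fun i _ => ?_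
  rw [norm_mul, norm_pow, norm_pow]
  exact mul_le_one₀ (pow_le_one₀ (norm_nonneg _) hx) (by positivity) (pow_le_one₀ (norm_nonneg _) hy)

theorem tv_max {x y : C} {ε : ℝ} (hx : ‖x‖ ≤ ε) (hy : ‖y‖ ≤ ε) : ‖x + y‖ ≤ ε :=
  (IsUltrametricDist.norm_add_le_max x y).trans (max_le hx hy)

/-- The functional equation of the values. -/
theorem theta_val (φ : R →+* C) (hφ : ∀ r, ‖φ r‖ ≤ 1) {z : C} (hz : ‖z‖ < 1) {π : R} {q : ℕ}
    {f : PowerSeries R} (f0 : PowerSeries.constantCoeff f = 0) {a : ℕ → R}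
    (ha : ∀ n, (PowerSeries.X : PowerSeries R) ^ n ∣ De π q f (TT a n)) :
    sv (fun n => φ (a n)) (ev φ hφ hz f) =
      φ π * sv (fun n => φ (a n)) z + sv (fun n => φ (a n)) z ^ q := by
  set w := ev φ hφ hz f with hw
  have hwz : ‖w‖ ≤ ‖z‖ := by
    have h1 : (PowerSeries.X : PowerSeries R) ^ 1 ∣ f := by
      rw [pow_one, PowerSeries.X_dvd_iff]
      exact f0
    have h2 := ev_dvd φ hφ hz h1
    rwa [pow_one] at h2
  have hw1 : ‖w‖ < 1 := hwz.trans_lt hz
  have hA : ∀ n, ‖φ (a n)‖ ≤ 1 := fun n => hφ _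
  have hs1 : ‖sv (fun n => φ (a n)) z‖ ≤ 1 := sv_le_one hA hz
  have key : ∀ n : ℕ, ‖sv (fun n => φ (a n)) w - (φ π * sv (fun n => φ (a n)) z + sv (fun n => φ (a n)) z ^ q)‖ ≤
      ‖z‖ ^ n := by
    intro n
    have hzn : ‖z‖ ^ n ≤ 1 := pow_le_one₀ (norm_nonneg _) hz.le
    have h1 : ‖sv (fun n => φ (a n)) z - (TT a n).eval₂ φ z‖ ≤ ‖z‖ ^ n := by
      rw [tv_eval]
      exact sv_trunc hA hz n
    have h2 : ‖sv (fun n => φ (a n)) w - (TT a n).eval₂ φ w‖ ≤ ‖z‖ ^ n := by
      rw [tv_eval]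
      exact (sv_trunc hA hw1 n).trans (pow_le_pow_left₀ (norm_nonneg _) hwz n)
    have hT1 : ‖(TT a n).eval₂ φ z‖ ≤ 1 := by
      have e : (TT a n).eval₂ φ z = sv (fun n => φ (a n)) z + -(sv (fun n => φ (a n)) z - (TT a n).eval₂ φ z) := by
        ring
      rw [e]
      refine tv_max hs1 ?_
      rw [norm_neg]
      exact h1.trans hzn
    have h3 : ‖(TT a n).eval₂ φ w - (φ π * (TT a n).eval₂ φ z + (TT a n).eval₂ φ z ^ q)‖ ≤ ‖z‖ ^ n := by
      have h4 := ev_dvd φ hφ hz (ha n)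
      have h5 : ev φ hφ hz (De π q f (TT a n)) =
          (TT a n).eval₂ φ w - (φ π * (TT a n).eval₂ φ z + (TT a n).eval₂ φ z ^ q) := by
        unfold De
        have h6 : ev φ hφ hz ((TT a n : Polynomial R) : PowerSeries R) = (TT a n).eval₂ φ z := by
          have h7 := ev_aeval φ hφ hz (TT a n) PowerSeries.X
          rw [ev_X] at h7
          rw [← h7, Polynomial.eval₂_C_X_eq_coe]
        rw [map_sub, map_add, map_mul, map_pow, ev_aeval, ev_C, h6]
      rw [← h5]
      exact h4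
    have e : sv (fun n => φ (a n)) w - (φ π * sv (fun n => φ (a n)) z + sv (fun n => φ (a n)) z ^ q) =
        (sv (fun n => φ (a n)) w - (TT a n).eval₂ φ w) +
        (((TT a n).eval₂ φ w - (φ π * (TT a n).eval₂ φ z + (TT a n).eval₂ φ z ^ q)) +
        (-(φ π * (sv (fun n => φ (a n)) z - (TT a n).eval₂ φ z)) +
          -(sv (fun n => φ (a n)) z ^ q - (TT a n).eval₂ φ z ^ q))) := by ring
    rw [e]
    refine tv_max h2 (tv_max h3 (tv_max ?_ ?_))
    · rw [norm_neg, norm_mul]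
      exact (mul_le_of_le_one_left (norm_nonneg _) (hφ π)).trans h1
    · rw [norm_neg]
      exact (tv_pow hs1 hT1 q).trans h1
  have hlim := tendsto_pow_atTop_nhds_zero_of_lt_one (norm_nonneg z) hz
  have h0 := ge_of_tendsto' hlim key
  exact sub_eq_zero.1 (norm_le_zero_iff.1 h0)

end SSG.LT
end

-- from Lib.SSG.F.E0
section

/-! # SSG/F/E0 : arithmetic of `r n = p^n / (p+1)` -/

open Polynomial
open scoped Classical

namespace SSF

variable {p : ℕ} [Fact p.Prime] {R : ℕ → Type} [∀ N, CommRing (R N)] [∀ N, Fintype (R N)]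
  {L : Type} [NormedField L] [IsUltrametricDist L] (D : LTD p R L)

omit [Fact p.Prime] in
theorem e0_mod_even (n : ℕ) (hn : Even n) (hp : 2 ≤ p) : p ^ n % (p + 1) = 1 := by
  obtain ⟨m, rfl⟩ := hn
  have h1 : p ^ 2 ≡ 1 [MOD p + 1] := by
    obtain ⟨q, rfl⟩ : ∃ q, p = q + 1 := ⟨p - 1, by omega⟩
    have h2 : (q + 1) ^ 2 = (q + 1 + 1) * q + 1 := by ring
    unfold Nat.ModEq
    rw [h2, Nat.mul_add_mod]
  have h3 : p ^ (m + m) ≡ 1 [MOD p + 1] := by
    rw [← two_mul, pow_mul]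
    have h4 := h1.pow m
    rwa [one_pow] at h4
  have h5 : 1 % (p + 1) = 1 := Nat.mod_eq_of_lt (by omega)
  exact Eq.trans h3 h5

omit [Fact p.Prime] in
theorem e0_mod_odd (n : ℕ) (hn : Odd n) (hp : 2 ≤ p) : p ^ n % (p + 1) = p := by
  obtain ⟨m, rfl⟩ := hn
  have h1 := e0_mod_even (2 * m) (even_two_mul m) hp
  rw [pow_succ, Nat.mul_mod, h1, one_mul, Nat.mod_mod]
  exact Nat.mod_eq_of_lt (by omega)

omit [Fact p.Prime] in
/-- `n` even: `p^n = (p+1) r + 1` (`p^2 = 1` mod `p+1`, induction), so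
`p^(n+1) = (p+1) p r + p` and the quotient is `p r`. -/
theorem r_even (n : ℕ) (hn : Even n) (hp : 2 ≤ p) :
    p ^ (n + 1) / (p + 1) = p * (p ^ n / (p + 1)) := by
  have h1 := e0_mod_even n hn hp
  have h2 := Nat.div_add_mod (p ^ n) (p + 1)
  rw [h1] at h2
  have h3 : p ^ (n + 1) = (p + 1) * (p * (p ^ n / (p + 1))) + p := by
    rw [pow_succ, ← h2]
    have h4 : ((p + 1) * (p ^ n / (p + 1)) + 1) / (p + 1) = p ^ n / (p + 1) := by rw [h2]
    rw [h4]
    ring
  refine Nat.div_eq_of_lt_le ?_ ?_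
  · rw [h3]
    nlinarith
  · rw [h3]
    nlinarith

omit [Fact p.Prime] in
/-- `n` odd: `p^n = (p+1) r + p`, so `p^(n+1) = (p+1) p r + p^2 = (p+1)(p r + p - 1) + 1`. -/
theorem r_odd (n : ℕ) (hn : Odd n) (hp : 2 ≤ p) :
    p ^ (n + 1) / (p + 1) = p * (p ^ n / (p + 1)) + (p - 1) := by
  have h1 := e0_mod_odd n hn hp
  have h2 := Nat.div_add_mod (p ^ n) (p + 1)
  rw [h1] at h2
  obtain ⟨q, rfl⟩ : ∃ q, p = q + 1 := ⟨p - 1, by omega⟩
  have h3 : (q + 1) ^ (n + 1) = (q + 1 + 1) * ((q + 1) * ((q + 1) ^ n / (q + 1 + 1)) + q) + 1 := by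
    rw [pow_succ, ← h2]
    have h4 : ((q + 1 + 1) * ((q + 1) ^ n / (q + 1 + 1)) + (q + 1)) / (q + 1 + 1) =
        (q + 1) ^ n / (q + 1 + 1) := by rw [h2]
    rw [h4]
    ring
  rw [Nat.add_sub_cancel]
  refine Nat.div_eq_of_lt_le ?_ ?_
  · rw [h3]
    nlinarith
  · rw [h3]
    nlinarith

omit [Fact p.Prime] in
/-- `p - 1` divides `p^n / (p+1)`: induction with `r_even`, `r_odd` (`p^0/(p+1) = 0`). -/
theorem r_dvd (n : ℕ) (hp : 2 ≤ p) : (p - 1) ∣ p ^ n / (p + 1) := by
  induction n with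
  | zero =>
    rw [pow_zero, Nat.div_eq_of_lt (by omega)]
    exact dvd_zero _
  | succ n ih =>
    rcases Nat.even_or_odd n with h | h
    · rw [r_even n h hp]
      exact ih.mul_left p
    · rw [r_odd n h hp]
      exact dvd_add (ih.mul_left p) dvd_rfl

/-- coefficients: `res a = res b` implies `‖a - b‖ < 1` (and conversely). -/
theorem res_eq_iff (a b : D.W) : D.res a = D.res b ↔ ‖(a : L) - (b : L)‖ < 1 := by
  rw [LTD.res, Ideal.Quotient.eq]
  exact Iff.rfl

end SSF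
end

-- from Lib.SSG.F.L3
section

/-! # SSG/F/L3 : the abstract eigenvector lemma -/

open Polynomial
open scoped Classical

namespace SSF

variable {p : ℕ} [Fact p.Prime] {R : ℕ → Type} [∀ N, CommRing (R N)] [∀ N, Fintype (R N)]
  {L : Type} [NormedField L] [IsUltrametricDist L] (D : LTD p R L)

omit [Fact p.Prime] in
/-- Abstract lemma. `A y` plays the role of `θ σ(y)`. PROOF. Let `s m = ⨆ y, ‖ℓ (φ^m y)‖ ≤ 1`
(bounded by `hb`); `s` is antitone (`φ^(m+1) y = φ^m (φ y)`). From `hA` (for `φ^m y`) and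
`hshape`: `η ℓ(φ^m y) = ℓ(A(φ^m y) - φ^m y) = i ℓ(φ^(m+1) y) + ℓ(φ^(m+2) z)` (`ℓ (i x) = i ℓ x`, additive), so
(*) `i ℓ(φ^(m+1) y) = η ℓ(φ^m y) - ℓ(φ^(m+2) z)` and `s (m+1) ≤ max (‖η‖ s m) (s (m+2))`.
CLAIM `s (m+1) ≤ ‖η‖ s m` for all `m`. Otherwise take `m` with `s (m+1) > ‖η‖ s m`; then
`s (m+1) ≤ s (m+2)`, so `s (m+2) = s (m+1) =: c > 0`, and `s (m+2) = c > ‖η‖ c = ‖η‖ s (m+1)`; by
induction `s (m+1+j) = c` for all `j`, a contradiction to `hlim`. So `s m ≤ ‖η‖^m`, and by (*)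
`‖ℓ(φ^(m+1) y) - (η/i) ℓ(φ^m y)‖ ≤ s (m+2) ≤ ‖η‖^(m+2)`. Induction on `m`:
`ℓ(φ^(m+1) y) - (η/i)^(m+1) ℓ y = (ℓ(φ^(m+1) y) - (η/i) ℓ(φ^m y)) + (η/i)(ℓ(φ^m y) - (η/i)^m ℓ y)`. -/
theorem eigen {Q : Type} [CommRing Q] (ℓ : Q →+ L) (φ : Q) (η : L) (i : ℕ) (A : Q → Q)
    (hA : ∀ y, ℓ (A y) = (η + 1) * ℓ y)
    (hshape : ∀ (m : ℕ) (y : Q), ∃ z, A (φ ^ m * y) - φ ^ m * y =
      (i : Q) * φ ^ (m + 1) * y + φ ^ (m + 2) * z)
    (hi : ‖(i : L)‖ = 1) (hη0 : 0 < ‖η‖) (hη : ‖η‖ < 1) (hb : ∀ y, ‖ℓ y‖ ≤ 1)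
    (hlim : ∀ ε > 0, ∃ m : ℕ, ∀ y, ‖ℓ (φ ^ m * y)‖ < ε) (m : ℕ) (y : Q) :
    ‖ℓ (φ ^ m * y) - (η / i) ^ m * ℓ y‖ ≤ ‖η‖ ^ (m + 1) := by
  have hQ : Nonempty Q := ⟨0⟩
  have hi0 : (i : L) ≠ 0 := by
    intro h
    rw [h, norm_zero] at hi
    exact zero_ne_one hi
  have hstar : ∀ (m : ℕ) (y : Q), ∃ z, (i : L) * ℓ (φ ^ (m + 1) * y) =
      η * ℓ (φ ^ m * y) - ℓ (φ ^ (m + 2) * z) := by
    intro m y
    obtain ⟨z, hz⟩ := hshape m y
    refine ⟨z, ?_⟩
    have h1 := congrArg ℓ hz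
    rw [map_sub, map_add, hA] at h1
    have h2 : ℓ ((i : Q) * φ ^ (m + 1) * y) = (i : L) * ℓ (φ ^ (m + 1) * y) := by
      rw [mul_assoc, ← nsmul_eq_mul, map_nsmul, nsmul_eq_mul]
    rw [h2] at h1
    linear_combination -h1
  set s : ℕ → ℝ := fun m => ⨆ y, ‖ℓ (φ ^ m * y)‖ with hs
  have hbdd : ∀ m, BddAbove (Set.range fun y => ‖ℓ (φ ^ m * y)‖) := by
    intro m
    exact ⟨1, by rintro _ ⟨y, rfl⟩; exact hb _⟩
  have hle : ∀ m y, ‖ℓ (φ ^ m * y)‖ ≤ s m := fun m y => le_ciSup (hbdd m) y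
  have hs0 : ∀ m, 0 ≤ s m := fun m => (norm_nonneg _).trans (hle m 0)
  have hanti : ∀ m, s (m + 1) ≤ s m := by
    intro m
    refine ciSup_le fun y => ?_
    have : φ ^ (m + 1) * y = φ ^ m * (φ * y) := by ring
    rw [this]
    exact hle m _
  have hanti' : ∀ m j, s (m + j) ≤ s m := by
    intro m j
    induction j with
    | zero => exact le_refl _
    | succ j ih => exact (hanti (m + j)).trans ih
  have hmax : ∀ m, s (m + 1) ≤ max (‖η‖ * s m) (s (m + 2)) := by
    intro m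
    refine ciSup_le fun y => ?_
    obtain ⟨z, hz⟩ := hstar m y
    have h1 : ‖ℓ (φ ^ (m + 1) * y)‖ = ‖(i : L) * ℓ (φ ^ (m + 1) * y)‖ := by
      rw [norm_mul, hi, one_mul]
    rw [h1, hz, sub_eq_add_neg]
    refine (IsUltrametricDist.norm_add_le_max _ _).trans (max_le_max ?_ ?_)
    · rw [norm_mul]
      exact mul_le_mul_of_nonneg_left (hle _ _) (norm_nonneg _)
    · rw [norm_neg]
      exact hle _ _
  have hclaim : ∀ m, s (m + 1) ≤ ‖η‖ * s m := by
    intro m
    by_contra hcon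
    rw [not_le] at hcon
    have hc0 : 0 < s (m + 1) := lt_of_le_of_lt (mul_nonneg (norm_nonneg _) (hs0 m)) hcon
    have hP : ∀ j, s (m + 1 + j) = s (m + 1) ∧ s (m + 2 + j) = s (m + 1) := by
      intro j
      induction j with
      | zero =>
        refine ⟨rfl, le_antisymm (hanti (m + 1)) ?_⟩
        rcases le_max_iff.mp (hmax m) with h | h
        · exact absurd h (not_le.mpr hcon)
        · exact h
      | succ j ih =>
        obtain ⟨ih1, ih2⟩ := ih
        have e1 : m + 1 + (j + 1) = m + 2 + j := by ring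
        have e2 : m + 2 + (j + 1) = m + 1 + j + 2 := by ring
        have e3 : m + 2 + j = m + 1 + j + 1 := by ring
        rw [e1, e2]
        refine ⟨ih2, ?_⟩
        have h1 := hmax (m + 1 + j)
        rw [← e3, ih1, ih2] at h1
        apply le_antisymm
        · have h2 := hanti (m + 1 + j + 1)
          rw [← e3, ih2] at h2
          have e4 : m + 1 + j + 2 = m + 2 + j + 1 := by ring
          rw [e4]
          exact h2
        · rcases le_max_iff.mp h1 with h | h
          · exfalso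
            have : ‖η‖ * s (m + 1) < 1 * s (m + 1) := mul_lt_mul_of_pos_right hη hc0
            linarith
          · exact h
    obtain ⟨M, hM⟩ := hlim (s (m + 1) / 2) (by linarith)
    have h1 : s M ≤ s (m + 1) / 2 := ciSup_le fun y => (hM y).le
    have h2 : s (M + (m + 1)) ≤ s M := hanti' M (m + 1)
    have h3 := (hP M).1
    rw [add_comm (m + 1) M] at h3
    linarith
  have hpow : ∀ m, s m ≤ ‖η‖ ^ m := by
    intro m
    induction m with
    | zero =>
      rw [pow_zero]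
      exact ciSup_le fun y => hb _
    | succ m ih =>
      refine (hclaim m).trans ?_
      rw [pow_succ']
      exact mul_le_mul_of_nonneg_left ih (norm_nonneg _)
  induction m with
  | zero =>
    rw [pow_zero, pow_zero, one_mul, one_mul, sub_self, norm_zero]
    positivity
  | succ m ih =>
    obtain ⟨z, hz⟩ := hstar m y
    have h1 : ℓ (φ ^ (m + 1) * y) - (η / i) ^ (m + 1) * ℓ y =
        -(ℓ (φ ^ (m + 2) * z) / i) + η / i * (ℓ (φ ^ m * y) - (η / i) ^ m * ℓ y) := by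
      have h2 : ℓ (φ ^ (m + 1) * y) = (η * ℓ (φ ^ m * y) - ℓ (φ ^ (m + 2) * z)) / i := by
        rw [← hz]
        field_simp
      rw [h2, pow_succ']
      ring
    rw [h1]
    refine (IsUltrametricDist.norm_add_le_max _ _).trans (max_le ?_ ?_)
    · rw [norm_neg, norm_div, hi, div_one]
      exact (hle _ _).trans (hpow _)
    · rw [norm_mul, norm_div, hi, div_one]
      calc ‖η‖ * ‖ℓ (φ ^ m * y) - (η / i) ^ m * ℓ y‖ ≤ ‖η‖ * ‖η‖ ^ (m + 1) :=
            mul_le_mul_of_nonneg_left ih (norm_nonneg _)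
        _ = ‖η‖ ^ (m + 1 + 1) := (pow_succ' _ _).symm

end SSF
end
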